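import Pool.Agent.Lib.MP_ed43e6_ag.Y57.Fl

namespace Pool.Agent.Lib.MP_ed43e6_ag.Q.Y57.R1

set_option linter.defProp false

noncomputable def b0 : BT := .node (nat_lit 1) (nat_lit 0) .leaf .leaf
noncomputable def k0 : KT := (.br (Nat.shiftLeft (nat_lit 0x1) (nat_lit 88)) (.one (nat_lit 0x701b000000000e037300)) (.br (Nat.shiftLeft (nat_lit 0x1) (nat_lit 89)) (.one (nat_lit 0x100701b000000200e036430)) (.one (nat_lit 0x200701b000000400e036430))))
def t0 : k0.all (jb2 57 fl b0) = true := by decide +kernel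
noncomputable def k1 : KT := (.br (Nat.shiftLeft (nat_lit 0x5) (nat_lit 88)) (.br (Nat.shiftLeft (nat_lit 0x1) (nat_lit 90)) (.one (nat_lit 0x300701b000000600e036430)) (.one (nat_lit 0x400701b000000800e037400))) (.br (Nat.shiftLeft (nat_lit 0x3) (nat_lit 89)) (.one (nat_lit 0x500701b000000a00e037400)) (.br (Nat.shiftLeft (nat_lit 0x1) (nat_lit 100)) (.one (nat_lit 0x600701b000000c00e037400)) (.one (nat_lit 0x100000701b000200000e036311)))))
def t1 : k1.all (jb2 57 fl b0) = true := by decide +kernel
noncomputable def k2 : KT := (.br (Nat.shiftLeft (nat_lit 0x1005) (nat_lit 88)) (.one (nat_lit 0x100400701b000200800e036540)) (.one (nat_lit 0x100500701b000200a00e036540)))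
def t2 : k2.all (jb2 57 fl b0) = true := by decide +kernel
noncomputable def k3 : KT := (.br (Nat.shiftLeft (nat_lit 0x1) (nat_lit 101)) (.one (nat_lit 0x100600701b000200c00e036540)) (.one (nat_lit 0x200000701b000400000e036311)))
def t3 : k3.all (jb2 57 fl b0) = true := by decide +kernel
noncomputable def k4 : KT := (.one (nat_lit 0x200400701b000400800e036540))
def t4 : k4.all (jb2 57 fl b0) = true := by decide +kernel
noncomputable def k5 : KT := (.one (nat_lit 0x200500701b000400a00e036540))
def t5 : k5.all (jb2 57 fl b0) = true := by decide +kernel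
noncomputable def k6 : KT := (.br (Nat.shiftLeft (nat_lit 0x2003) (nat_lit 89)) (.br (Nat.shiftLeft (nat_lit 0x3005) (nat_lit 88)) (.br (Nat.shiftLeft (nat_lit 0x3) (nat_lit 100)) (.one (nat_lit 0x200600701b000400c00e036540)) (.br (Nat.shiftLeft (nat_lit 0xc01) (nat_lit 90)) (.one (nat_lit 0x300000701b000600000e036311)) (.one (nat_lit 0x300400701b000600800e037500)))) (.br (Nat.shiftLeft (nat_lit 0x1) (nat_lit 102)) (.br (Nat.shiftLeft (nat_lit 0x1803) (nat_lit 89)) (.one (nat_lit 0x300500701b000600a00e037500)) (.one (nat_lit 0x300600701b000600c00e037500))) (.br (Nat.shiftLeft (nat_lit 0x1001) (nat_lit 90)) (.one (nat_lit 0x400000701b000800000e036311)) (.one (nat_lit 0x400500701b000800a00e037500))))) (.br (Nat.shiftLeft (nat_lit 0x7) (nat_lit 100)) (.br (Nat.shiftLeft (nat_lit 0x1401) (nat_lit 90)) (.br (Nat.shiftLeft (nat_lit 0x5) (nat_lit 100)) (.one (nat_lit 0x400600701b000800c00e037500)) (.one (nat_lit 0x500000701b000a00000e036311))) (.br (Nat.shiftLeft (nat_lit 0x3) (nat_lit 101)) (.one (nat_lit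 0x500600701b000a00c00e037500)) (.one (nat_lit 0x600000701b000c00000e036311)))) (.br (Nat.shiftLeft (nat_lit 0x1000005) (nat_lit 88)) (.br (Nat.shiftLeft (nat_lit 0x1) (nat_lit 112)) (.one (nat_lit 0x700000701b000e00000e036311)) (.one (nat_lit 0x100000400701b200000800e036411))) (.br (Nat.shiftLeft (nat_lit 0x800003) (nat_lit 89)) (.one (nat_lit 0x100000500701b200000a00e036411)) (.one (nat_lit 0x100000600701b200000c00e036411))))))
def t6 : k6.all (jb2 57 fl b0) = true := by decide +kernel
noncomputable def k7 : KT := (.br (Nat.shiftLeft (nat_lit 0x1003005) (nat_lit 88)) (.one (nat_lit 0x100300400701b200600800e036650)) (.one (nat_lit 0x100300500701b200600a00e036650)))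
def t7 : k7.all (jb2 57 fl b0) = true := by decide +kernel
noncomputable def k8 : KT := (.br (Nat.shiftLeft (nat_lit 0x401) (nat_lit 102)) (.one (nat_lit 0x100300600701b200600c00e036650)) (.br (Nat.shiftLeft (nat_lit 0x802003) (nat_lit 89)) (.one (nat_lit 0x100400500701b200800a00e036650)) (.one (nat_lit 0x100400600701b200800c00e036650))))
def t8 : k8.all (jb2 57 fl b0) = true := by decide +kernel
noncomputable def k9 : KT := (.br (Nat.shiftLeft (nat_lit 0x2000005) (nat_lit 88)) (.br (Nat.shiftLeft (nat_lit 0x1) (nat_lit 113)) (.one (nat_lit 0x100500600701b200a00c00e036650)) (.one (nat_lit 0x200000400701b400000800e036411))) (.br (Nat.shiftLeft (nat_lit 0x1000003) (nat_lit 89)) (.one (nat_lit 0x200000500701b400000a00e036411)) (.br (Nat.shiftLeft (nat_lit 0x1001) (nat_lit 101)) (.one (nat_lit 0x200000600701b400000c00e036411)) (.one (nat_lit 0x200300400701b400600800e036650)))))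
def t9 : k9.all (jb2 57 fl b0) = true := by decide +kernel
noncomputable def k10 : KT := (.one (nat_lit 0x200300500701b400600a00e036650))
def t10 : k10.all (jb2 57 fl b0) = true := by decide +kernel
noncomputable def k11 : KT := (.br (Nat.shiftLeft (nat_lit 0x801) (nat_lit 102)) (.one (nat_lit 0x200300600701b400600c00e036650)) (.one (nat_lit 0x200400500701b400800a00e036650)))
def t11 : k11.all (jb2 57 fl b0) = true := by decide +kernel
noncomputable def k12 : KT := (.br (Nat.shiftLeft (nat_lit 0x3) (nat_lit 112)) (.br (Nat.shiftLeft (nat_lit 0x2005) (nat_lit 100)) (.one (nat_lit 0x200400600701b400800c00e036650)) (.one (nat_lit 0x200500600701b400a00c00e036650))) (.br (Nat.shiftLeft (nat_lit 0x3000005) (nat_lit 88)) (.one (nat_lit 0x300000400701b600000800e036411)) (.br (Nat.shiftLeft (nat_lit 0x1800003) (nat_lit 89)) (.one (nat_lit 0x300000500701b600000a00e036411)) (.one (nat_lit 0x300000600701b600000c00e036411)))))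
def t12 : k12.all (jb2 57 fl b0) = true := by decide +kernel
noncomputable def k13 : KT := (.br (Nat.shiftLeft (nat_lit 0x1802003) (nat_lit 89)) (.one (nat_lit 0x300400500701b600800a00e036650)) (.one (nat_lit 0x300400600701b600800c00e036650)))
def t13 : k13.all (jb2 57 fl b0) = true := by decide +kernel
noncomputable def k14 : KT := (.br (Nat.shiftLeft (nat_lit 0x1) (nat_lit 124)) (.br (Nat.shiftLeft (nat_lit 0x2800003) (nat_lit 89)) (.br (Nat.shiftLeft (nat_lit 0x2000003) (nat_lit 89)) (.br (Nat.shiftLeft (nat_lit 0x1) (nat_lit 114)) (.one (nat_lit 0x300500600701b600a00c00e036650)) (.br (Nat.shiftLeft (nat_lit 0x4000005) (nat_lit 88)) (.one (nat_lit 0x400000400701b800000800e036411)) (.one (nat_lit 0x400000500701b800000a00e036411)))) (.br (Nat.shiftLeft (nat_lit 0x5) (nat_lit 112)) (.br (Nat.shiftLeft (nat_lit 0x1001) (nat_lit 102)) (.one (nat_lit 0x400000600701b800000c00e036411)) (.one (nat_lit 0x400500600701b800a00c00e036650))) (.br (Nat.shiftLeft (nat_lit 0x5000005) (nat_lit 88)) (.one (nat_lit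 0x500000400701ba00000800e036411)) (.one (nat_lit 0x500000500701ba00000a00e036411))))) (.br (Nat.shiftLeft (nat_lit 0x3000003) (nat_lit 89)) (.br (Nat.shiftLeft (nat_lit 0x3) (nat_lit 113)) (.one (nat_lit 0x500000600701ba00000c00e036411)) (.br (Nat.shiftLeft (nat_lit 0x6000005) (nat_lit 88)) (.one (nat_lit 0x600000400701bc00000800e036411)) (.one (nat_lit 0x600000500701bc00000a00e036411)))) (.br (Nat.shiftLeft (nat_lit 0x7000005) (nat_lit 88)) (.br (Nat.shiftLeft (nat_lit 0x7) (nat_lit 112)) (.one (nat_lit 0x600000600701bc00000c00e036411)) (.one (nat_lit 0x700000400701be00000800e036411))) (.br (Nat.shiftLeft (nat_lit 0x3800003) (nat_lit 89)) (.one (nat_lit 0x700000500701be00000a00e036411)) (.one (nat_lit 0x700000600701be00000c00e036411)))))) (.br (Nat.shiftLeft (nat_lit 0x2000003005) (nat_lit 88)) (.br (Nat.shiftLeft (nat_lit 0x400001) (nat_lit 102)) (.br (Nat.shiftLeft (nat_lit 0x1000003005) (nat_lit 88)) (.one (nat_lit 0x100000300400701b000600802e436511)) (.br (Nat.shiftLeft (nat_lit 0x800001803)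 (nat_lit 89)) (.one (nat_lit 0x100000300500701b000600a02e436511)) (.one (nat_lit 0x100000300600701b000600c02e436511)))) (.br (Nat.shiftLeft (nat_lit 0x1000005) (nat_lit 100)) (.br (Nat.shiftLeft (nat_lit 0x800002003) (nat_lit 89)) (.one (nat_lit 0x100000400500701b000800a02e436511)) (.one (nat_lit 0x100000400600701b000800c02e436511))) (.br (Nat.shiftLeft (nat_lit 0x1) (nat_lit 125)) (.one (nat_lit 0x100000500600701b000a00c02e436511)) (.one (nat_lit 0x200000300400701b000600804e836511))))) (.br (Nat.shiftLeft (nat_lit 0x2000005) (nat_lit 100)) (.br (Nat.shiftLeft (nat_lit 0x800001) (nat_lit 102)) (.br (Nat.shiftLeft (nat_lit 0x1000001803) (nat_lit 89)) (.one (nat_lit 0x200000300500701b000600a04e836511)) (.one (nat_lit 0x200000300600701b000600c04e836511))) (.br (Nat.shiftLeft (nat_lit 0x1000002003) (nat_lit 89)) (.one (nat_lit 0x200000400500701b000800a04e836511)) (.one (nat_lit 0x200000400600701b000800c04e836511)))) (.br (Nat.shiftLeft (nat_lit 0x3000003005) (nat_lit 88)) (.br (Nat.shiftLeft (nat_lit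 0x3) (nat_lit 124)) (.one (nat_lit 0x200000500600701b000a00c04e836511)) (.one (nat_lit 0x300000300400701b000600806ec36511))) (.br (Nat.shiftLeft (nat_lit 0x1800001803) (nat_lit 89)) (.one (nat_lit 0x300000300500701b000600a06ec36511)) (.one (nat_lit 0x300000300600701b000600c06ec36511)))))))
def t14 : k14.all (jb2 57 fl b0) = true := by decide +kernel
noncomputable def k15 : KT := (.br (Nat.shiftLeft (nat_lit 0x2000002003) (nat_lit 89)) (.br (Nat.shiftLeft (nat_lit 0x1) (nat_lit 126)) (.br (Nat.shiftLeft (nat_lit 0x1800002003) (nat_lit 89)) (.one (nat_lit 0x300000400500701b000800a06ec36511)) (.br (Nat.shiftLeft (nat_lit 0x3000005) (nat_lit 100)) (.one (nat_lit 0x300000400600701b000800c06ec36511)) (.one (nat_lit 0x300000500600701b000a00c06ec36511)))) (.br (Nat.shiftLeft (nat_lit 0x2000001803) (nat_lit 89)) (.br (Nat.shiftLeft (nat_lit 0x4000003005) (nat_lit 88)) (.one (nat_lit 0x400000300400701b000600808f036511)) (.one (nat_lit 0x400000300500701b000600a08f036511))) (.br (Nat.shiftLeft (nat_lit 0x1000001)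 (nat_lit 102)) (.one (nat_lit 0x400000300600701b000600c08f036511)) (.one (nat_lit 0x400000400500701b000800a08f036511))))) (.br (Nat.shiftLeft (nat_lit 0x5000003005) (nat_lit 88)) (.br (Nat.shiftLeft (nat_lit 0x4000005) (nat_lit 100)) (.one (nat_lit 0x400000400600701b000800c08f036511)) (.br (Nat.shiftLeft (nat_lit 0x5) (nat_lit 124)) (.one (nat_lit 0x400000500600701b000a00c08f036511)) (.one (nat_lit 0x500000300400701b00060080af436511)))) (.br (Nat.shiftLeft (nat_lit 0x1400001) (nat_lit 102)) (.br (Nat.shiftLeft (nat_lit 0x2800001803) (nat_lit 89)) (.one (nat_lit 0x500000300500701b000600a0af436511)) (.one (nat_lit 0x500000300600701b000600c0af436511))) (.br (Nat.shiftLeft (nat_lit 0x2800002003) (nat_lit 89)) (.one (nat_lit 0x500000400500701b000800a0af436511)) (.one (nat_lit 0x500000400600701b000800c0af436511))))))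
def t15 : k15.all (jb2 57 fl b0) = true := by decide +kernel
noncomputable def k16 : KT := (.br (Nat.shiftLeft (nat_lit 0x3000002003) (nat_lit 89)) (.br (Nat.shiftLeft (nat_lit 0x6000003005) (nat_lit 88)) (.br (Nat.shiftLeft (nat_lit 0x3) (nat_lit 125)) (.one (nat_lit 0x500000500600701b000a00c0af436511)) (.one (nat_lit 0x600000300400701b00060080cf836511))) (.br (Nat.shiftLeft (nat_lit 0x3000001803) (nat_lit 89)) (.one (nat_lit 0x600000300500701b000600a0cf836511)) (.br (Nat.shiftLeft (nat_lit 0x1800001) (nat_lit 102)) (.one (nat_lit 0x600000300600701b000600c0cf836511)) (.one (nat_lit 0x600000400500701b000800a0cf836511))))) (.br (Nat.shiftLeft (nat_lit 0x7) (nat_lit 124)) (.br (Nat.shiftLeft (nat_lit 0x6000005) (nat_lit 100)) (.one (nat_lit 0x600000400600701b000800c0cf836511)) (.one (nat_lit 0x600000500600701b000a00c0cf836511))) (.br (Nat.shiftLeft (nat_lit 0x7000003005) (nat_lit 88)) (.one (nat_lit 0x700000300400701b00060080efc36511)) (.br (Nat.shiftLeft (nat_lit 0x3800001803) (nat_lit 89)) (.one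 (nat_lit 0x700000300500701b000600a0efc36511)) (.one (nat_lit 0x700000300600701b000600c0efc36511))))))
def t16 : k16.all (jb2 57 fl b0) = true := by decide +kernel
noncomputable def k17 : KT := (.br (Nat.shiftLeft (nat_lit 0x3800002003) (nat_lit 89)) (.one (nat_lit 0x700000400500701b000800a0efc36511)) (.br (Nat.shiftLeft (nat_lit 0x7000005) (nat_lit 100)) (.one (nat_lit 0x700000400600701b000800c0efc36511)) (.one (nat_lit 0x700000500600701b000a00c0efc36511))))
def t17 : k17.all (jb2 57 fl b0) = true := by decide +kernel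
noncomputable def s0 : KT := (.br (nat_lit 0x100400600701b200800c00e036650) (.br (nat_lit 0x200000701b000400000e036311) (.br (nat_lit 0x100000701b000200000e036311) (.br (nat_lit 0x200701b000000400e036430) k0 k1) (.br (nat_lit 0x100500701b000200a00e036540) k2 k3)) (.br (nat_lit 0x200500701b000400a00e036540) (.br (nat_lit 0x200400701b000400800e036540) k4 k5) (.br (nat_lit 0x100000600701b200000c00e036411) k6 (.br (nat_lit 0x100300500701b200600a00e036650) k7 k8)))) (.br (nat_lit 0x300000600701b600000c00e036411) (.br (nat_lit 0x200300500701b400600a00e036650) (.br (nat_lit 0x200300400701b400600800e036650) k9 k10) (.br (nat_lit 0x200400500701b400800a00e036650) k11 k12)) (.br (nat_lit 0x300000300600701b000600c06ec36511) (.br (nat_lit 0x300400600701b600800c00e036650) k13 k14) (.br (nat_lit 0x500000400600701b000800c0af436511) k15 (.br (nat_lit 0x700000300600701b000600c0efc36511) k16 k17)))))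
noncomputable def u0 : KT := (.one (nat_lit 0x701b000000000e036320))
def w0 : u0.all (wj 57 s0) = true := by decide +kernel
def o0 : OkW 57 (jb2 57 fl) u0 := .lift s0 _ (.br _ _ _ (.br _ _ _ (.br _ _ _ (.br _ _ _ (.leaf b0 k0 t0) (.leaf b0 k1 t1)) (.br _ _ _ (.leaf b0 k2 t2) (.leaf b0 k3 t3))) (.br _ _ _ (.br _ _ _ (.leaf b0 k4 t4) (.leaf b0 k5 t5)) (.br _ _ _ (.leaf b0 k6 t6) (.br _ _ _ (.leaf b0 k7 t7) (.leaf b0 k8 t8))))) (.br _ _ _ (.br _ _ _ (.br _ _ _ (.leaf b0 k9 t9) (.leaf b0 k10 t10)) (.br _ _ _ (.leaf b0 k11 t11) (.leaf b0 k12 t12))) (.br _ _ _ (.br _ _ _ (.leaf b0 k13 t13) (.leaf b0 k14 t14)) (.br _ _ _ (.leaf b0 k15 t15) (.br _ _ _ (.leaf b0 k16 t16) (.leaf b0 k17 t17)))))) w0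
noncomputable def k18 : KT := (.br (Nat.shiftLeft (nat_lit 0x1) (nat_lit 88)) (.one (nat_lit 0x701c000000000e039300)) (.br (Nat.shiftLeft (nat_lit 0x1) (nat_lit 89)) (.one (nat_lit 0x100701c000000200e038430)) (.one (nat_lit 0x200701c000000400e038430))))
def t18 : k18.all (jb2 57 fl b0) = true := by decide +kernel
noncomputable def k19 : KT := (.br (Nat.shiftLeft (nat_lit 0x5) (nat_lit 88)) (.br (Nat.shiftLeft (nat_lit 0x1) (nat_lit 90)) (.one (nat_lit 0x300701c000000600e038430)) (.one (nat_lit 0x400701c000000800e039400))) (.br (Nat.shiftLeft (nat_lit 0x3) (nat_lit 89)) (.one (nat_lit 0x500701c000000a00e039400)) (.br (Nat.shiftLeft (nat_lit 0x1) (nat_lit 100)) (.one (nat_lit 0x600701c000000c00e039400)) (.one (nat_lit 0x100000701c000200000e038311)))))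
def t19 : k19.all (jb2 57 fl b0) = true := by decide +kernel
noncomputable def k20 : KT := (.br (Nat.shiftLeft (nat_lit 0x803) (nat_lit 89)) (.br (Nat.shiftLeft (nat_lit 0x1005) (nat_lit 88)) (.one (nat_lit 0x100400701c000200800e038540)) (.one (nat_lit 0x100500701c000200a00e038540))) (.br (Nat.shiftLeft (nat_lit 0x1) (nat_lit 101)) (.one (nat_lit 0x100600701c000200c00e038540)) (.one (nat_lit 0x200000701c000400000e038311))))
def t20 : k20.all (jb2 57 fl b0) = true := by decide +kernel
noncomputable def k21 : KT := (.one (nat_lit 0x200400701c000400800e038540))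
def t21 : k21.all (jb2 57 fl b0) = true := by decide +kernel
noncomputable def k22 : KT := (.one (nat_lit 0x200500701c000400a00e038540))
def t22 : k22.all (jb2 57 fl b0) = true := by decide +kernel
noncomputable def k23 : KT := (.br (Nat.shiftLeft (nat_lit 0xc01) (nat_lit 90)) (.br (Nat.shiftLeft (nat_lit 0x3) (nat_lit 100)) (.one (nat_lit 0x200600701c000400c00e038540)) (.one (nat_lit 0x300000701c000600000e038311))) (.br (Nat.shiftLeft (nat_lit 0x3005) (nat_lit 88)) (.one (nat_lit 0x300400701c000600800e039500)) (.one (nat_lit 0x300500701c000600a00e039500))))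
def t23 : k23.all (jb2 57 fl b0) = true := by decide +kernel
noncomputable def k24 : KT := (.br (Nat.shiftLeft (nat_lit 0x1) (nat_lit 102)) (.one (nat_lit 0x300600701c000600c00e038540)) (.br (Nat.shiftLeft (nat_lit 0x1001) (nat_lit 90)) (.one (nat_lit 0x400000701c000800000e038311)) (.one (nat_lit 0x400500701c000800a00e039500))))
def t24 : k24.all (jb2 57 fl b0) = true := by decide +kernel
noncomputable def k25 : KT := (.br (Nat.shiftLeft (nat_lit 0x5) (nat_lit 100)) (.one (nat_lit 0x400600701c000800c00e038540)) (.one (nat_lit 0x500000701c000a00000e038311)))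
def t25 : k25.all (jb2 57 fl b0) = true := by decide +kernel
noncomputable def k26 : KT := (.br (Nat.shiftLeft (nat_lit 0x1) (nat_lit 112)) (.br (Nat.shiftLeft (nat_lit 0x3) (nat_lit 101)) (.one (nat_lit 0x500600701c000a00c00e038540)) (.br (Nat.shiftLeft (nat_lit 0x7) (nat_lit 100)) (.one (nat_lit 0x600000701c000c00000e038311)) (.one (nat_lit 0x700000701c000e00000e038311)))) (.br (Nat.shiftLeft (nat_lit 0x1000005) (nat_lit 88)) (.one (nat_lit 0x100000400701c200000800e038411)) (.br (Nat.shiftLeft (nat_lit 0x800003) (nat_lit 89)) (.one (nat_lit 0x100000500701c200000a00e038411)) (.one (nat_lit 0x100000600701c200000c00e038411)))))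
def t26 : k26.all (jb2 57 fl b0) = true := by decide +kernel
noncomputable def k27 : KT := (.br (Nat.shiftLeft (nat_lit 0x1) (nat_lit 113)) (.br (Nat.shiftLeft (nat_lit 0x1003005) (nat_lit 88)) (.one (nat_lit 0x100300400701c200600800e038650)) (.br (Nat.shiftLeft (nat_lit 0x401) (nat_lit 102)) (.one (nat_lit 0x100300500701c200600a00e038650)) (.one (nat_lit 0x100400500701c200800a00e038650)))) (.br (Nat.shiftLeft (nat_lit 0x2000005) (nat_lit 88)) (.one (nat_lit 0x200000400701c400000800e038411)) (.br (Nat.shiftLeft (nat_lit 0x1000003) (nat_lit 89)) (.one (nat_lit 0x200000500701c400000a00e038411)) (.one (nat_lit 0x200000600701c400000c00e038411)))))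
def t27 : k27.all (jb2 57 fl b0) = true := by decide +kernel
noncomputable def k28 : KT := (.one (nat_lit 0x200300400701c400600800e038650))
def t28 : k28.all (jb2 57 fl b0) = true := by decide +kernel
noncomputable def k29 : KT := (.br (Nat.shiftLeft (nat_lit 0x3) (nat_lit 112)) (.br (Nat.shiftLeft (nat_lit 0x801) (nat_lit 102)) (.one (nat_lit 0x200300500701c400600a00e038650)) (.one (nat_lit 0x200400500701c400800a00e038650))) (.br (Nat.shiftLeft (nat_lit 0x3000005) (nat_lit 88)) (.one (nat_lit 0x300000400701c600000800e038411)) (.br (Nat.shiftLeft (nat_lit 0x1800003) (nat_lit 89)) (.one (nat_lit 0x300000500701c600000a00e038411)) (.one (nat_lit 0x300000600701c600000c00e038411)))))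
def t29 : k29.all (jb2 57 fl b0) = true := by decide +kernel
noncomputable def k30 : KT := (.br (Nat.shiftLeft (nat_lit 0x3800003) (nat_lit 89)) (.br (Nat.shiftLeft (nat_lit 0x2800003) (nat_lit 89)) (.br (Nat.shiftLeft (nat_lit 0x2000003) (nat_lit 89)) (.br (Nat.shiftLeft (nat_lit 0x1) (nat_lit 114)) (.one (nat_lit 0x300400500701c600800a00e038650)) (.br (Nat.shiftLeft (nat_lit 0x4000005) (nat_lit 88)) (.one (nat_lit 0x400000400701c800000800e038411)) (.one (nat_lit 0x400000500701c800000a00e038411)))) (.br (Nat.shiftLeft (nat_lit 0x5) (nat_lit 112)) (.one (nat_lit 0x400000600701c800000c00e038411)) (.br (Nat.shiftLeft (nat_lit 0x5000005) (nat_lit 88)) (.one (nat_lit 0x500000400701ca00000800e038411)) (.one (nat_lit 0x500000500701ca00000a00e038411))))) (.br (Nat.shiftLeft (nat_lit 0x3000003) (nat_lit 89)) (.br (Nat.shiftLeft (nat_lit 0x3) (nat_lit 113)) (.one (nat_lit 0x500000600701ca00000c00e038411)) (.br (Nat.shiftLeft (nat_lit 0x6000005) (nat_lit 88)) (.one (nat_lit 0x600000400701cc00000800e038411))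 (.one (nat_lit 0x600000500701cc00000a00e038411)))) (.br (Nat.shiftLeft (nat_lit 0x7) (nat_lit 112)) (.one (nat_lit 0x600000600701cc00000c00e038411)) (.br (Nat.shiftLeft (nat_lit 0x7000005) (nat_lit 88)) (.one (nat_lit 0x700000400701ce00000800e038411)) (.one (nat_lit 0x700000500701ce00000a00e038411)))))) (.br (Nat.shiftLeft (nat_lit 0x800001) (nat_lit 102)) (.br (Nat.shiftLeft (nat_lit 0x400001) (nat_lit 102)) (.br (Nat.shiftLeft (nat_lit 0x1) (nat_lit 124)) (.one (nat_lit 0x700000600701ce00000c00e038411)) (.br (Nat.shiftLeft (nat_lit 0x1000003005) (nat_lit 88)) (.one (nat_lit 0x100000300400701c000600802e438511)) (.one (nat_lit 0x100000300500701c000600a02e438511)))) (.br (Nat.shiftLeft (nat_lit 0x1) (nat_lit 125)) (.one (nat_lit 0x100000400500701c000800a02e438511)) (.br (Nat.shiftLeft (nat_lit 0x2000003005) (nat_lit 88)) (.one (nat_lit 0x200000300400701c000600804e838511)) (.one (nat_lit 0x200000300500701c000600a04e838511))))) (.br (Nat.shiftLeft (nat_lit 0xc00001) (nat_lit 102)) (.br (Nat.shiftLeft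 (nat_lit 0x3) (nat_lit 124)) (.one (nat_lit 0x200000400500701c000800a04e838511)) (.br (Nat.shiftLeft (nat_lit 0x3000003005) (nat_lit 88)) (.one (nat_lit 0x300000300400701c000600806ec38511)) (.one (nat_lit 0x300000300500701c000600a06ec38511)))) (.br (Nat.shiftLeft (nat_lit 0x1) (nat_lit 126)) (.one (nat_lit 0x300000400500701c000800a06ec38511)) (.br (Nat.shiftLeft (nat_lit 0x4000003005) (nat_lit 88)) (.one (nat_lit 0x400000300400701c000600808f038511)) (.one (nat_lit 0x400000300500701c000600a08f038511)))))))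
def t30 : k30.all (jb2 57 fl b0) = true := by decide +kernel
noncomputable def k31 : KT := (.br (Nat.shiftLeft (nat_lit 0x6000003005) (nat_lit 88)) (.br (Nat.shiftLeft (nat_lit 0x5000003005) (nat_lit 88)) (.br (Nat.shiftLeft (nat_lit 0x5) (nat_lit 124)) (.one (nat_lit 0x400000400500701c000800a08f038511)) (.one (nat_lit 0x500000300400701c00060080af438511))) (.br (Nat.shiftLeft (nat_lit 0x1400001) (nat_lit 102)) (.one (nat_lit 0x500000300500701c000600a0af438511)) (.br (Nat.shiftLeft (nat_lit 0x3) (nat_lit 125)) (.one (nat_lit 0x500000400500701c000800a0af438511)) (.one (nat_lit 0x600000300400701c00060080cf838511))))) (.br (Nat.shiftLeft (nat_lit 0x7) (nat_lit 124)) (.br (Nat.shiftLeft (nat_lit 0x1800001) (nat_lit 102)) (.one (nat_lit 0x600000300500701c000600a0cf838511)) (.one (nat_lit 0x600000400500701c000800a0cf838511))) (.br (Nat.shiftLeft (nat_lit 0x7000003005) (nat_lit 88)) (.one (nat_lit 0x700000300400701c00060080efc38511)) (.br (Nat.shiftLeft (nat_lit 0x1c00001) (nat_lit 102)) (.one (nat_lit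 0x700000300500701c000600a0efc38511)) (.one (nat_lit 0x700000400500701c000800a0efc38511))))))
def t31 : k31.all (jb2 57 fl b0) = true := by decide +kernel
noncomputable def s1 : KT := (.br (nat_lit 0x400500701c000800a00e039500) (.br (nat_lit 0x200000701c000400000e038311) (.br (nat_lit 0x200701c000000400e038430) k18 (.br (nat_lit 0x100000701c000200000e038311) k19 k20)) (.br (nat_lit 0x200500701c000400a00e038540) (.br (nat_lit 0x200400701c000400800e038540) k21 k22) (.br (nat_lit 0x300500701c000600a00e039500) k23 k24))) (.br (nat_lit 0x200000600701c400000c00e038411) (.br (nat_lit 0x500000701c000a00000e038311) k25 (.br (nat_lit 0x100000600701c200000c00e038411) k26 k27)) (.br (nat_lit 0x300000600701c600000c00e038411) (.br (nat_lit 0x200300400701c400600800e038650) k28 k29) (.br (nat_lit 0x400000300500701c000600a08f038511) k30 k31))))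
noncomputable def u1 : KT := (.one (nat_lit 0x701c000000000e038320))
def w1 : u1.all (wj 57 s1) = true := by decide +kernel
def o1 : OkW 57 (jb2 57 fl) u1 := .lift s1 _ (.br _ _ _ (.br _ _ _ (.br _ _ _ (.leaf b0 k18 t18) (.br _ _ _ (.leaf b0 k19 t19) (.leaf b0 k20 t20))) (.br _ _ _ (.br _ _ _ (.leaf b0 k21 t21) (.leaf b0 k22 t22)) (.br _ _ _ (.leaf b0 k23 t23) (.leaf b0 k24 t24)))) (.br _ _ _ (.br _ _ _ (.leaf b0 k25 t25) (.br _ _ _ (.leaf b0 k26 t26) (.leaf b0 k27 t27))) (.br _ _ _ (.br _ _ _ (.leaf b0 k28 t28) (.leaf b0 k29 t29)) (.br _ _ _ (.leaf b0 k30 t30) (.leaf b0 k31 t31))))) w1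
noncomputable def k32 : KT := (.br (Nat.shiftLeft (nat_lit 0x80380f) (nat_lit 65)) (.br (Nat.shiftLeft (nat_lit 0x380f) (nat_lit 65)) (.one (nat_lit 0x701d000000000e03b300)) (.br (Nat.shiftLeft (nat_lit 0x1) (nat_lit 88)) (.one (nat_lit 0x701e000000000e03d300)) (.one (nat_lit 0x100701d000000200e03a430)))) (.br (Nat.shiftLeft (nat_lit 0x1) (nat_lit 89)) (.one (nat_lit 0x100701e000000200e03c430)) (.br (Nat.shiftLeft (nat_lit 0x100380f) (nat_lit 65)) (.one (nat_lit 0x200701d000000400e03a430)) (.one (nat_lit 0x200701e000000400e03c430)))))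
def t32 : k32.all (jb2 57 fl b0) = true := by decide +kernel
noncomputable def k33 : KT := (.one (nat_lit 0x300701d000000600e03a430))
def t33 : k33.all (jb2 57 fl b0) = true := by decide +kernel
noncomputable def k34 : KT := (.br (Nat.shiftLeft (nat_lit 0x280380f) (nat_lit 65)) (.br (Nat.shiftLeft (nat_lit 0x200380f) (nat_lit 65)) (.br (Nat.shiftLeft (nat_lit 0x1) (nat_lit 90)) (.one (nat_lit 0x300701e000000600e03c430)) (.one (nat_lit 0x400701d000000800e03b400))) (.br (Nat.shiftLeft (nat_lit 0x5) (nat_lit 88)) (.one (nat_lit 0x400701e000000800e03d400)) (.one (nat_lit 0x500701d000000a00e03b400)))) (.br (Nat.shiftLeft (nat_lit 0x300380f) (nat_lit 65)) (.br (Nat.shiftLeft (nat_lit 0x3) (nat_lit 89)) (.one (nat_lit 0x500701e000000a00e03d400)) (.one (nat_lit 0x600701d000000c00e03b400))) (.br (Nat.shiftLeft (nat_lit 0x1) (nat_lit 100)) (.one (nat_lit 0x600701e000000c00e03d400)) (.br (Nat.shiftLeft (nat_lit 0x80000380f) (nat_lit 65)) (.one (nat_lit 0x100000701d000200000e03a311)) (.one (nat_lit 0x100000701e000200000e03c311))))))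
def t34 : k34.all (jb2 57 fl b0) = true := by decide +kernel
noncomputable def k35 : KT := (.br (Nat.shiftLeft (nat_lit 0x80200380f) (nat_lit 65)) (.one (nat_lit 0x100400701d000200800e03a540)) (.br (Nat.shiftLeft (nat_lit 0x1005) (nat_lit 88)) (.one (nat_lit 0x100400701e000200800e03c540)) (.one (nat_lit 0x100500701d000200a00e03a540))))
def t35 : k35.all (jb2 57 fl b0) = true := by decide +kernel
noncomputable def k36 : KT := (.br (Nat.shiftLeft (nat_lit 0x80300380f) (nat_lit 65)) (.br (Nat.shiftLeft (nat_lit 0x803) (nat_lit 89)) (.one (nat_lit 0x100500701e000200a00e03c540)) (.one (nat_lit 0x100600701d000200c00e03a540))) (.br (Nat.shiftLeft (nat_lit 0x1) (nat_lit 101)) (.one (nat_lit 0x100600701e000200c00e03c540)) (.br (Nat.shiftLeft (nat_lit 0x100000380f) (nat_lit 65)) (.one (nat_lit 0x200000701d000400000e03a311)) (.one (nat_lit 0x200000701e000400000e03c311)))))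
def t36 : k36.all (jb2 57 fl b0) = true := by decide +kernel
noncomputable def k37 : KT := (.one (nat_lit 0x200400701d000400800e03a540))
def t37 : k37.all (jb2 57 fl b0) = true := by decide +kernel
noncomputable def k38 : KT := (.one (nat_lit 0x200400701e000400800e03c540))
def t38 : k38.all (jb2 57 fl b0) = true := by decide +kernel
noncomputable def k39 : KT := (.one (nat_lit 0x200500701d000400a00e03a540))
def t39 : k39.all (jb2 57 fl b0) = true := by decide +kernel
noncomputable def k40 : KT := (.one (nat_lit 0x200500701e000400a00e03c540))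
def t40 : k40.all (jb2 57 fl b0) = true := by decide +kernel
noncomputable def k41 : KT := (.br (Nat.shiftLeft (nat_lit 0x3) (nat_lit 100)) (.br (Nat.shiftLeft (nat_lit 0x100300380f) (nat_lit 65)) (.one (nat_lit 0x200600701d000400c00e03a540)) (.one (nat_lit 0x200600701e000400c00e03c540))) (.br (Nat.shiftLeft (nat_lit 0x180000380f) (nat_lit 65)) (.one (nat_lit 0x300000701d000600000e03a311)) (.br (Nat.shiftLeft (nat_lit 0xc01) (nat_lit 90)) (.one (nat_lit 0x300000701e000600000e03c311)) (.one (nat_lit 0x300400701d000600800e03b500)))))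
def t41 : k41.all (jb2 57 fl b0) = true := by decide +kernel
noncomputable def k42 : KT := (.one (nat_lit 0x300400701e000600800e03c540))
def t42 : k42.all (jb2 57 fl b0) = true := by decide +kernel
noncomputable def k43 : KT := (.one (nat_lit 0x300500701d000600a00e03a540))
def t43 : k43.all (jb2 57 fl b0) = true := by decide +kernel
noncomputable def k44 : KT := (.one (nat_lit 0x300500701e000600a00e03c540))
def t44 : k44.all (jb2 57 fl b0) = true := by decide +kernel
noncomputable def k45 : KT := (.one (nat_lit 0x300600701d000600c00e03a540))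
def t45 : k45.all (jb2 57 fl b0) = true := by decide +kernel
noncomputable def k46 : KT := (.br (Nat.shiftLeft (nat_lit 0x1) (nat_lit 102)) (.one (nat_lit 0x300600701e000600c00e03c540)) (.br (Nat.shiftLeft (nat_lit 0x200000380f) (nat_lit 65)) (.one (nat_lit 0x400000701d000800000e03a311)) (.one (nat_lit 0x400000701e000800000e03c311))))
def t46 : k46.all (jb2 57 fl b0) = true := by decide +kernel
noncomputable def k47 : KT := (.one (nat_lit 0x400500701d000800a00e03a540))
def t47 : k47.all (jb2 57 fl b0) = true := by decide +kernel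
noncomputable def k48 : KT := (.one (nat_lit 0x400500701e000800a00e03c540))
def t48 : k48.all (jb2 57 fl b0) = true := by decide +kernel
noncomputable def k49 : KT := (.one (nat_lit 0x400600701d000800c00e03a540))
def t49 : k49.all (jb2 57 fl b0) = true := by decide +kernel
noncomputable def k50 : KT := (.br (Nat.shiftLeft (nat_lit 0x5) (nat_lit 100)) (.one (nat_lit 0x400600701e000800c00e03c540)) (.br (Nat.shiftLeft (nat_lit 0x280000380f) (nat_lit 65)) (.one (nat_lit 0x500000701d000a00000e03a311)) (.one (nat_lit 0x500000701e000a00000e03c311))))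
def t50 : k50.all (jb2 57 fl b0) = true := by decide +kernel
noncomputable def k51 : KT := (.one (nat_lit 0x500600701d000a00c00e03a540))
def t51 : k51.all (jb2 57 fl b0) = true := by decide +kernel
noncomputable def k52 : KT := (.br (Nat.shiftLeft (nat_lit 0x800003) (nat_lit 89)) (.br (Nat.shiftLeft (nat_lit 0x380000380f) (nat_lit 65)) (.br (Nat.shiftLeft (nat_lit 0x300000380f) (nat_lit 65)) (.br (Nat.shiftLeft (nat_lit 0x3) (nat_lit 101)) (.one (nat_lit 0x500600701e000a00c00e03c540)) (.one (nat_lit 0x600000701d000c00000e03a311))) (.br (Nat.shiftLeft (nat_lit 0x7) (nat_lit 100)) (.one (nat_lit 0x600000701e000c00000e03c311)) (.one (nat_lit 0x700000701d000e00000e03a311)))) (.br (Nat.shiftLeft (nat_lit 0x80000200380f) (nat_lit 65)) (.br (Nat.shiftLeft (nat_lit 0x1) (nat_lit 112)) (.one (nat_lit 0x700000701e000e00000e03c311)) (.one (nat_lit 0x100000400701d200000800e03a411))) (.br (Nat.shiftLeft (nat_lit 0x1000005) (nat_lit 88)) (.one (nat_lit 0x100000400701e200000800e03c411)) (.br (Nat.shiftLeft (nat_lit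 0x80000280380f) (nat_lit 65)) (.one (nat_lit 0x100000500701d200000a00e03a411)) (.one (nat_lit 0x100000500701e200000a00e03c411)))))) (.br (Nat.shiftLeft (nat_lit 0x100000200380f) (nat_lit 65)) (.br (Nat.shiftLeft (nat_lit 0x801) (nat_lit 101)) (.br (Nat.shiftLeft (nat_lit 0x80000300380f) (nat_lit 65)) (.one (nat_lit 0x100000600701d200000c00e03a411)) (.one (nat_lit 0x100000600701e200000c00e03c411))) (.br (Nat.shiftLeft (nat_lit 0x1) (nat_lit 113)) (.one (nat_lit 0x100300400701d200600800e03a650)) (.one (nat_lit 0x200000400701d400000800e03a411)))) (.br (Nat.shiftLeft (nat_lit 0x100000280380f) (nat_lit 65)) (.br (Nat.shiftLeft (nat_lit 0x2000005) (nat_lit 88)) (.one (nat_lit 0x200000400701e400000800e03c411)) (.one (nat_lit 0x200000500701d400000a00e03a411))) (.br (Nat.shiftLeft (nat_lit 0x1000003) (nat_lit 89)) (.one (nat_lit 0x200000500701e400000a00e03c411)) (.br (Nat.shiftLeft (nat_lit 0x100000300380f) (nat_lit 65)) (.one (nat_lit 0x200000600701d400000c00e03a411)) (.one (nat_lit 0x200000600701e400000c00e03c411)))))))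
def t52 : k52.all (jb2 57 fl b0) = true := by decide +kernel
noncomputable def k53 : KT := (.br (Nat.shiftLeft (nat_lit 0x200000300380f) (nat_lit 65)) (.br (Nat.shiftLeft (nat_lit 0x180000300380f) (nat_lit 65)) (.br (Nat.shiftLeft (nat_lit 0x3000005) (nat_lit 88)) (.br (Nat.shiftLeft (nat_lit 0x3) (nat_lit 112)) (.one (nat_lit 0x200300400701d400600800e03a650)) (.br (Nat.shiftLeft (nat_lit 0x180000200380f) (nat_lit 65)) (.one (nat_lit 0x300000400701d600000800e03a411)) (.one (nat_lit 0x300000400701e600000800e03c411)))) (.br (Nat.shiftLeft (nat_lit 0x180000280380f) (nat_lit 65)) (.one (nat_lit 0x300000500701d600000a00e03a411)) (.br (Nat.shiftLeft (nat_lit 0x1800003) (nat_lit 89)) (.one (nat_lit 0x300000500701e600000a00e03c411)) (.one (nat_lit 0x300000600701d600000c00e03a411))))) (.br (Nat.shiftLeft (nat_lit 0x4000005) (nat_lit 88)) (.br (Nat.shiftLeft (nat_lit 0x1) (nat_lit 114)) (.one (nat_lit 0x300000600701e600000c00e03c411)) (.br (Nat.shiftLeft (nat_lit 0x200000200380f) (nat_lit 65)) (.one (nat_lit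 0x400000400701d800000800e03a411)) (.one (nat_lit 0x400000400701e800000800e03c411)))) (.br (Nat.shiftLeft (nat_lit 0x200000280380f) (nat_lit 65)) (.one (nat_lit 0x400000500701d800000a00e03a411)) (.br (Nat.shiftLeft (nat_lit 0x2000003) (nat_lit 89)) (.one (nat_lit 0x400000500701e800000a00e03c411)) (.one (nat_lit 0x400000600701d800000c00e03a411)))))) (.br (Nat.shiftLeft (nat_lit 0x280000300380f) (nat_lit 65)) (.br (Nat.shiftLeft (nat_lit 0x5000005) (nat_lit 88)) (.br (Nat.shiftLeft (nat_lit 0x5) (nat_lit 112)) (.one (nat_lit 0x400000600701e800000c00e03c411)) (.br (Nat.shiftLeft (nat_lit 0x280000200380f) (nat_lit 65)) (.one (nat_lit 0x500000400701da00000800e03a411)) (.one (nat_lit 0x500000400701ea00000800e03c411)))) (.br (Nat.shiftLeft (nat_lit 0x280000280380f) (nat_lit 65)) (.one (nat_lit 0x500000500701da00000a00e03a411)) (.br (Nat.shiftLeft (nat_lit 0x2800003) (nat_lit 89)) (.one (nat_lit 0x500000500701ea00000a00e03c411)) (.one (nat_lit 0x500000600701da00000c00e03a411))))) (.br (Nat.shiftLeft (nat_lit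 0x6000005) (nat_lit 88)) (.br (Nat.shiftLeft (nat_lit 0x3) (nat_lit 113)) (.one (nat_lit 0x500000600701ea00000c00e03c411)) (.br (Nat.shiftLeft (nat_lit 0x300000200380f) (nat_lit 65)) (.one (nat_lit 0x600000400701dc00000800e03a411)) (.one (nat_lit 0x600000400701ec00000800e03c411)))) (.br (Nat.shiftLeft (nat_lit 0x300000280380f) (nat_lit 65)) (.one (nat_lit 0x600000500701dc00000a00e03a411)) (.br (Nat.shiftLeft (nat_lit 0x3000003) (nat_lit 89)) (.one (nat_lit 0x600000500701ec00000a00e03c411)) (.one (nat_lit 0x600000600701dc00000c00e03a411)))))))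
def t53 : k53.all (jb2 57 fl b0) = true := by decide +kernel
noncomputable def k54 : KT := (.br (Nat.shiftLeft (nat_lit 0x1) (nat_lit 124)) (.br (Nat.shiftLeft (nat_lit 0x7000005) (nat_lit 88)) (.br (Nat.shiftLeft (nat_lit 0x7) (nat_lit 112)) (.one (nat_lit 0x600000600701ec00000c00e03c411)) (.br (Nat.shiftLeft (nat_lit 0x380000200380f) (nat_lit 65)) (.one (nat_lit 0x700000400701de00000800e03a411)) (.one (nat_lit 0x700000400701ee00000800e03c411)))) (.br (Nat.shiftLeft (nat_lit 0x3800003) (nat_lit 89)) (.br (Nat.shiftLeft (nat_lit 0x380000280380f) (nat_lit 65)) (.one (nat_lit 0x700000500701de00000a00e03a411)) (.one (nat_lit 0x700000500701ee00000a00e03c411))) (.br (Nat.shiftLeft (nat_lit 0x380000300380f) (nat_lit 65)) (.one (nat_lit 0x700000600701de00000c00e03a411)) (.one (nat_lit 0x700000600701ee00000c00e03c411))))) (.br (Nat.shiftLeft (nat_lit 0x1) (nat_lit 126)) (.br (Nat.shiftLeft (nat_lit 0x1) (nat_lit 125)) (.one (nat_lit 0x100000300400701d000600802e43a511)) (.br (Nat.shiftLeft (nat_lit 0x3)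 (nat_lit 124)) (.one (nat_lit 0x200000300400701d000600804e83a511)) (.one (nat_lit 0x300000300400701d000600806ec3a511)))) (.br (Nat.shiftLeft (nat_lit 0x3) (nat_lit 125)) (.br (Nat.shiftLeft (nat_lit 0x5) (nat_lit 124)) (.one (nat_lit 0x400000300400701d000600808f03a511)) (.one (nat_lit 0x500000300400701d00060080af43a511))) (.br (Nat.shiftLeft (nat_lit 0x7) (nat_lit 124)) (.one (nat_lit 0x600000300400701d00060080cf83a511)) (.one (nat_lit 0x700000300400701d00060080efc3a511))))))
def t54 : k54.all (jb2 57 fl b0) = true := by decide +kernel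
noncomputable def s2 : KT := (.br (nat_lit 0x300400701e000600800e03c540) (.br (nat_lit 0x200000701e000400000e03c311) (.br (nat_lit 0x300701d000000600e03a430) (.br (nat_lit 0x200701e000000400e03c430) k32 k33) (.br (nat_lit 0x100000701e000200000e03c311) k34 (.br (nat_lit 0x100500701d000200a00e03a540) k35 k36))) (.br (nat_lit 0x200500701d000400a00e03a540) (.br (nat_lit 0x200400701d000400800e03a540) k37 (.br (nat_lit 0x200400701e000400800e03c540) k38 k39)) (.br (nat_lit 0x200500701e000400a00e03c540) k40 (.br (nat_lit 0x300400701d000600800e03b500) k41 k42)))) (.br (nat_lit 0x400500701e000800a00e03c540) (.br (nat_lit 0x300600701d000600c00e03a540) (.br (nat_lit 0x300500701d000600a00e03a540) k43 (.br (nat_lit 0x300500701e000600a00e03c540) k44 k45)) (.br (nat_lit 0x400000701e000800000e03c311) k46 (.br (nat_lit 0x400500701d000800a00e03a540) k47 k48))) (.br (nat_lit 0x500600701d000a00c00e03a540) (.br (nat_lit 0x400600701d000800c00e03a540) k49 (.br (nat_lit 0x500000701e000a00000e03c311) k50 k51)) (.br (nat_lit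 0x200000600701e400000c00e03c411) k52 (.br (nat_lit 0x600000600701dc00000c00e03a411) k53 k54)))))
noncomputable def u2 : KT := (.br (Nat.shiftLeft (nat_lit 0x380f) (nat_lit 65)) (.one (nat_lit 0x701d000000000e03a320)) (.one (nat_lit 0x701e000000000e03c320)))
def w2 : u2.all (wj 57 s2) = true := by decide +kernel
def o2 : OkW 57 (jb2 57 fl) u2 := .lift s2 _ (.br _ _ _ (.br _ _ _ (.br _ _ _ (.br _ _ _ (.leaf b0 k32 t32) (.leaf b0 k33 t33)) (.br _ _ _ (.leaf b0 k34 t34) (.br _ _ _ (.leaf b0 k35 t35) (.leaf b0 k36 t36)))) (.br _ _ _ (.br _ _ _ (.leaf b0 k37 t37) (.br _ _ _ (.leaf b0 k38 t38) (.leaf b0 k39 t39))) (.br _ _ _ (.leaf b0 k40 t40) (.br _ _ _ (.leaf b0 k41 t41) (.leaf b0 k42 t42))))) (.br _ _ _ (.br _ _ _ (.br _ _ _ (.leaf b0 k43 t43) (.br _ _ _ (.leaf b0 k44 t44) (.leaf b0 k45 t45))) (.br _ _ _ (.leaf b0 k46 t46) (.br _ _ _ (.leaf b0 k47 t47) (.leaf b0 k48 t48)))) (.br _ _ _ (.br _ _ _ (.leaf b0 k49 t49) (.br _ _ _ (.leaf b0 k50 t50) (.leaf b0 k51 t51))) (.br _ _ _ (.leaf b0 k52 t52) (.br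 _ _ _ (.leaf b0 k53 t53) (.leaf b0 k54 t54)))))) w2
noncomputable def k55 : KT := (.br (Nat.shiftLeft (nat_lit 0x1) (nat_lit 88)) (.br (Nat.shiftLeft (nat_lit 0x1) (nat_lit 79)) (.br (Nat.shiftLeft (nat_lit 0x381) (nat_lit 69)) (.one (nat_lit 0x701f000000000e03f300)) (.br (Nat.shiftLeft (nat_lit 0x7021) (nat_lit 64)) (.one (nat_lit 0x7020000000000e041300)) (.one (nat_lit 0x7021000000000e043300)))) (.br (Nat.shiftLeft (nat_lit 0x8019) (nat_lit 64)) (.one (nat_lit 0x80180000000010031300)) (.br (Nat.shiftLeft (nat_lit 0x400d) (nat_lit 65)) (.one (nat_lit 0x80190000000010033300)) (.one (nat_lit 0x801a0000000010035300))))) (.br (Nat.shiftLeft (nat_lit 0x1) (nat_lit 89)) (.br (Nat.shiftLeft (nat_lit 0x80381) (nat_lit 69)) (.one (nat_lit 0x100701f000000200e03e430)) (.br (Nat.shiftLeft (nat_lit 0x1007021) (nat_lit 64)) (.one (nat_lit 0x1007020000000200e040430)) (.one (nat_lit 0x1007021000000200e042430)))) (.br (Nat.shiftLeft (nat_lit 0x100381) (nat_lit 69)) (.one (nat_lit 0x200701f000000400e03e430)) (.br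 (Nat.shiftLeft (nat_lit 0x2007021) (nat_lit 64)) (.one (nat_lit 0x2007020000000400e040430)) (.one (nat_lit 0x2007021000000400e042430))))))
def t55 : k55.all (jb2 57 fl b0) = true := by decide +kernel
noncomputable def k56 : KT := (.one (nat_lit 0x300701f000000600e03e430))
def t56 : k56.all (jb2 57 fl b0) = true := by decide +kernel
noncomputable def k57 : KT := (.one (nat_lit 0x3007020000000600e040430))
def t57 : k57.all (jb2 57 fl b0) = true := by decide +kernel
noncomputable def k58 : KT := (.br (Nat.shiftLeft (nat_lit 0x5) (nat_lit 88)) (.br (Nat.shiftLeft (nat_lit 0x200381) (nat_lit 69)) (.br (Nat.shiftLeft (nat_lit 0x1) (nat_lit 90)) (.one (nat_lit 0x3007021000000600e042430)) (.one (nat_lit 0x400701f000000800e03f400))) (.br (Nat.shiftLeft (nat_lit 0x4007021) (nat_lit 64)) (.one (nat_lit 0x4007020000000800e041400)) (.one (nat_lit 0x4007021000000800e043400)))) (.br (Nat.shiftLeft (nat_lit 0x5007021) (nat_lit 64)) (.br (Nat.shiftLeft (nat_lit 0x280381) (nat_lit 69)) (.one (nat_lit 0x500701f000000a00e03f400))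 (.one (nat_lit 0x5007020000000a00e041400))) (.br (Nat.shiftLeft (nat_lit 0x3) (nat_lit 89)) (.one (nat_lit 0x5007021000000a00e043400)) (.br (Nat.shiftLeft (nat_lit 0x300381) (nat_lit 69)) (.one (nat_lit 0x600701f000000c00e03f400)) (.one (nat_lit 0x6007020000000c00e041400))))))
def t58 : k58.all (jb2 57 fl b0) = true := by decide +kernel
noncomputable def k59 : KT := (.br (Nat.shiftLeft (nat_lit 0x80000381) (nat_lit 69)) (.br (Nat.shiftLeft (nat_lit 0x1) (nat_lit 100)) (.one (nat_lit 0x6007021000000c00e042430)) (.one (nat_lit 0x100000701f000200000e03e311))) (.br (Nat.shiftLeft (nat_lit 0x1000007021) (nat_lit 64)) (.one (nat_lit 0x1000007020000200000e040311)) (.one (nat_lit 0x1000007021000200000e042311))))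
def t59 : k59.all (jb2 57 fl b0) = true := by decide +kernel
noncomputable def k60 : KT := (.br (Nat.shiftLeft (nat_lit 0x1004007021) (nat_lit 64)) (.br (Nat.shiftLeft (nat_lit 0x80200381) (nat_lit 69)) (.one (nat_lit 0x100400701f000200800e03e540)) (.one (nat_lit 0x1004007020000200800e040540))) (.br (Nat.shiftLeft (nat_lit 0x1005) (nat_lit 88)) (.one (nat_lit 0x1004007021000200800e042540)) (.one (nat_lit 0x100500701f000200a00e03e540))))
def t60 : k60.all (jb2 57 fl b0) = true := by decide +kernel
noncomputable def k61 : KT := (.br (Nat.shiftLeft (nat_lit 0x80300381) (nat_lit 69)) (.br (Nat.shiftLeft (nat_lit 0x1005007021) (nat_lit 64)) (.one (nat_lit 0x1005007020000200a00e040540)) (.br (Nat.shiftLeft (nat_lit 0x803) (nat_lit 89)) (.one (nat_lit 0x1005007021000200a00e042540)) (.one (nat_lit 0x100600701f000200c00e03e540)))) (.br (Nat.shiftLeft (nat_lit 0x100000381) (nat_lit 69)) (.br (Nat.shiftLeft (nat_lit 0x1) (nat_lit 101)) (.one (nat_lit 0x1006007020000200c00e040540)) (.one (nat_lit 0x200000701f000400000e03e311)))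 (.br (Nat.shiftLeft (nat_lit 0x2000007021) (nat_lit 64)) (.one (nat_lit 0x2000007020000400000e040311)) (.one (nat_lit 0x2000007021000400000e042311)))))
def t61 : k61.all (jb2 57 fl b0) = true := by decide +kernel
noncomputable def k62 : KT := (.br (Nat.shiftLeft (nat_lit 0x100200381) (nat_lit 69)) (.one (nat_lit 0x200400701f000400800e03e540)) (.one (nat_lit 0x2004007020000400800e040540)))
def t62 : k62.all (jb2 57 fl b0) = true := by decide +kernel
noncomputable def k63 : KT := (.br (Nat.shiftLeft (nat_lit 0x2005) (nat_lit 88)) (.one (nat_lit 0x2004007021000400800e042540)) (.one (nat_lit 0x200500701f000400a00e03e540)))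
def t63 : k63.all (jb2 57 fl b0) = true := by decide +kernel
noncomputable def k64 : KT := (.br (Nat.shiftLeft (nat_lit 0x2005007021) (nat_lit 64)) (.one (nat_lit 0x2005007020000400a00e040540)) (.br (Nat.shiftLeft (nat_lit 0x1003) (nat_lit 89)) (.one (nat_lit 0x2005007021000400a00e042540)) (.one (nat_lit 0x200600701f000400c00e03e540))))
def t64 : k64.all (jb2 57 fl b0) = true := by decide +kernel
noncomputable def k65 : KT := (.br (Nat.shiftLeft (nat_lit 0x180000381) (nat_lit 69)) (.br (Nat.shiftLeft (nat_lit 0x3) (nat_lit 100)) (.one (nat_lit 0x2006007020000400c00e040540)) (.one (nat_lit 0x300000701f000600000e03e311))) (.br (Nat.shiftLeft (nat_lit 0x3000007021) (nat_lit 64)) (.one (nat_lit 0x3000007020000600000e040311)) (.br (Nat.shiftLeft (nat_lit 0xc01) (nat_lit 90)) (.one (nat_lit 0x3000007021000600000e042311)) (.one (nat_lit 0x300400701f000600800e03e540)))))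
def t65 : k65.all (jb2 57 fl b0) = true := by decide +kernel
noncomputable def k66 : KT := (.br (Nat.shiftLeft (nat_lit 0x3004007021) (nat_lit 64)) (.one (nat_lit 0x3004007020000600800e040540)) (.one (nat_lit 0x3004007021000600800e042540)))
def t66 : k66.all (jb2 57 fl b0) = true := by decide +kernel
noncomputable def k67 : KT := (.br (Nat.shiftLeft (nat_lit 0x180280381) (nat_lit 69)) (.one (nat_lit 0x300500701f000600a00e03e540)) (.one (nat_lit 0x3005007020000600a00e040540)))
def t67 : k67.all (jb2 57 fl b0) = true := by decide +kernel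
noncomputable def k68 : KT := (.br (Nat.shiftLeft (nat_lit 0x1) (nat_lit 102)) (.br (Nat.shiftLeft (nat_lit 0x1803) (nat_lit 89)) (.one (nat_lit 0x3005007021000600a00e042540)) (.br (Nat.shiftLeft (nat_lit 0x180300381) (nat_lit 69)) (.one (nat_lit 0x300600701f000600c00e03e540)) (.one (nat_lit 0x3006007020000600c00e040540)))) (.br (Nat.shiftLeft (nat_lit 0x200000381) (nat_lit 69)) (.one (nat_lit 0x400000701f000800000e03e311)) (.br (Nat.shiftLeft (nat_lit 0x4000007021) (nat_lit 64)) (.one (nat_lit 0x4000007020000800000e040311)) (.one (nat_lit 0x4000007021000800000e042311)))))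
def t68 : k68.all (jb2 57 fl b0) = true := by decide +kernel
noncomputable def k69 : KT := (.br (Nat.shiftLeft (nat_lit 0x200280381) (nat_lit 69)) (.one (nat_lit 0x400500701f000800a00e03e540)) (.one (nat_lit 0x4005007020000800a00e040540)))
def t69 : k69.all (jb2 57 fl b0) = true := by decide +kernel
noncomputable def k70 : KT := (.br (Nat.shiftLeft (nat_lit 0x5) (nat_lit 100)) (.br (Nat.shiftLeft (nat_lit 0x2003) (nat_lit 89)) (.one (nat_lit 0x4005007021000800a00e042540)) (.br (Nat.shiftLeft (nat_lit 0x200300381) (nat_lit 69)) (.one (nat_lit 0x400600701f000800c00e03e540)) (.one (nat_lit 0x4006007020000800c00e040540)))) (.br (Nat.shiftLeft (nat_lit 0x280000381) (nat_lit 69)) (.one (nat_lit 0x500000701f000a00000e03e311)) (.br (Nat.shiftLeft (nat_lit 0x5000007021) (nat_lit 64)) (.one (nat_lit 0x5000007020000a00000e040311)) (.one (nat_lit 0x5000007021000a00000e042311)))))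
def t70 : k70.all (jb2 57 fl b0) = true := by decide +kernel
noncomputable def k71 : KT := (.br (Nat.shiftLeft (nat_lit 0x100000280381) (nat_lit 69)) (.br (Nat.shiftLeft (nat_lit 0x1000004007021) (nat_lit 64)) (.br (Nat.shiftLeft (nat_lit 0x7) (nat_lit 100)) (.br (Nat.shiftLeft (nat_lit 0x3) (nat_lit 101)) (.br (Nat.shiftLeft (nat_lit 0x280300381) (nat_lit 69)) (.one (nat_lit 0x500600701f000a00c00e03e540)) (.one (nat_lit 0x5006007020000a00c00e040540))) (.br (Nat.shiftLeft (nat_lit 0x300000381) (nat_lit 69)) (.one (nat_lit 0x600000701f000c00000e03e311)) (.br (Nat.shiftLeft (nat_lit 0x6000007021) (nat_lit 64)) (.one (nat_lit 0x6000007020000c00000e040311)) (.one (nat_lit 0x6000007021000c00000e042311))))) (.br (Nat.shiftLeft (nat_lit 0x7000007021) (nat_lit 64)) (.br (Nat.shiftLeft (nat_lit 0x380000381) (nat_lit 69)) (.one (nat_lit 0x700000701f000e00000e03e311)) (.one (nat_lit 0x7000007020000e00000e040311))) (.br (Nat.shiftLeft (nat_lit 0x1) (nat_lit 112)) (.one (nat_lit 0x7000007021000e00000e042311))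 (.br (Nat.shiftLeft (nat_lit 0x80000200381) (nat_lit 69)) (.one (nat_lit 0x100000400701f200000800e03e411)) (.one (nat_lit 0x1000004007020200000800e040411)))))) (.br (Nat.shiftLeft (nat_lit 0x80000300381) (nat_lit 69)) (.br (Nat.shiftLeft (nat_lit 0x80000280381) (nat_lit 69)) (.br (Nat.shiftLeft (nat_lit 0x1000005) (nat_lit 88)) (.one (nat_lit 0x1000004007021200000800e042411)) (.one (nat_lit 0x100000500701f200000a00e03e411))) (.br (Nat.shiftLeft (nat_lit 0x1000005007021) (nat_lit 64)) (.one (nat_lit 0x1000005007020200000a00e040411)) (.br (Nat.shiftLeft (nat_lit 0x800003) (nat_lit 89)) (.one (nat_lit 0x1000005007021200000a00e042411)) (.one (nat_lit 0x100000600701f200000c00e03e411))))) (.br (Nat.shiftLeft (nat_lit 0x100000200381) (nat_lit 69)) (.br (Nat.shiftLeft (nat_lit 0x1) (nat_lit 113)) (.one (nat_lit 0x1000006007020200000c00e040411)) (.one (nat_lit 0x200000400701f400000800e03e411))) (.br (Nat.shiftLeft (nat_lit 0x2000004007021) (nat_lit 64)) (.one (nat_lit 0x2000004007020400000800e040411)) (.br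 (Nat.shiftLeft (nat_lit 0x2000005) (nat_lit 88)) (.one (nat_lit 0x2000004007021400000800e042411)) (.one (nat_lit 0x200000500701f400000a00e03e411))))))) (.br (Nat.shiftLeft (nat_lit 0x1800003) (nat_lit 89)) (.br (Nat.shiftLeft (nat_lit 0x180000200381) (nat_lit 69)) (.br (Nat.shiftLeft (nat_lit 0x1000003) (nat_lit 89)) (.br (Nat.shiftLeft (nat_lit 0x2000005007021) (nat_lit 64)) (.one (nat_lit 0x2000005007020400000a00e040411)) (.one (nat_lit 0x2000005007021400000a00e042411))) (.br (Nat.shiftLeft (nat_lit 0x100000300381) (nat_lit 69)) (.one (nat_lit 0x200000600701f400000c00e03e411)) (.br (Nat.shiftLeft (nat_lit 0x3) (nat_lit 112)) (.one (nat_lit 0x2000006007020400000c00e040411)) (.one (nat_lit 0x300000400701f600000800e03e411))))) (.br (Nat.shiftLeft (nat_lit 0x3000005) (nat_lit 88)) (.br (Nat.shiftLeft (nat_lit 0x3000004007021) (nat_lit 64)) (.one (nat_lit 0x3000004007020600000800e040411)) (.one (nat_lit 0x3000004007021600000800e042411))) (.br (Nat.shiftLeft (nat_lit 0x180000280381) (nat_lit 69)) (.one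 (nat_lit 0x300000500701f600000a00e03e411)) (.br (Nat.shiftLeft (nat_lit 0x3000005007021) (nat_lit 64)) (.one (nat_lit 0x3000005007020600000a00e040411)) (.one (nat_lit 0x3000005007021600000a00e042411)))))) (.br (Nat.shiftLeft (nat_lit 0x4000005) (nat_lit 88)) (.br (Nat.shiftLeft (nat_lit 0x1) (nat_lit 114)) (.br (Nat.shiftLeft (nat_lit 0x180000300381) (nat_lit 69)) (.one (nat_lit 0x300000600701f600000c00e03e411)) (.one (nat_lit 0x3000006007020600000c00e040411))) (.br (Nat.shiftLeft (nat_lit 0x200000200381) (nat_lit 69)) (.one (nat_lit 0x400000400701f800000800e03e411)) (.br (Nat.shiftLeft (nat_lit 0x4000004007021) (nat_lit 64)) (.one (nat_lit 0x4000004007020800000800e040411)) (.one (nat_lit 0x4000004007021800000800e042411))))) (.br (Nat.shiftLeft (nat_lit 0x4000005007021) (nat_lit 64)) (.br (Nat.shiftLeft (nat_lit 0x200000280381) (nat_lit 69)) (.one (nat_lit 0x400000500701f800000a00e03e411)) (.one (nat_lit 0x4000005007020800000a00e040411))) (.br (Nat.shiftLeft (nat_lit 0x2000003) (nat_lit 89)) (.one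 (nat_lit 0x4000005007021800000a00e042411)) (.br (Nat.shiftLeft (nat_lit 0x200000300381) (nat_lit 69)) (.one (nat_lit 0x400000600701f800000c00e03e411)) (.one (nat_lit 0x4000006007020800000c00e040411))))))))
def t71 : k71.all (jb2 57 fl b0) = true := by decide +kernel
noncomputable def k72 : KT := (.br (Nat.shiftLeft (nat_lit 0x300000280381) (nat_lit 69)) (.br (Nat.shiftLeft (nat_lit 0x2800003) (nat_lit 89)) (.br (Nat.shiftLeft (nat_lit 0x5000005) (nat_lit 88)) (.br (Nat.shiftLeft (nat_lit 0x280000200381) (nat_lit 69)) (.one (nat_lit 0x500000400701fa00000800e03e411)) (.br (Nat.shiftLeft (nat_lit 0x5000004007021) (nat_lit 64)) (.one (nat_lit 0x5000004007020a00000800e040411)) (.one (nat_lit 0x5000004007021a00000800e042411)))) (.br (Nat.shiftLeft (nat_lit 0x280000280381) (nat_lit 69)) (.one (nat_lit 0x500000500701fa00000a00e03e411)) (.br (Nat.shiftLeft (nat_lit 0x5000005007021) (nat_lit 64)) (.one (nat_lit 0x5000005007020a00000a00e040411)) (.one (nat_lit 0x5000005007021a00000a00e042411))))) (.br (Nat.shiftLeft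 (nat_lit 0x300000200381) (nat_lit 69)) (.br (Nat.shiftLeft (nat_lit 0x280000300381) (nat_lit 69)) (.one (nat_lit 0x500000600701fa00000c00e03e411)) (.br (Nat.shiftLeft (nat_lit 0x3) (nat_lit 113)) (.one (nat_lit 0x5000006007020a00000c00e040411)) (.one (nat_lit 0x600000400701fc00000800e03e411)))) (.br (Nat.shiftLeft (nat_lit 0x6000004007021) (nat_lit 64)) (.one (nat_lit 0x6000004007020c00000800e040411)) (.br (Nat.shiftLeft (nat_lit 0x6000005) (nat_lit 88)) (.one (nat_lit 0x6000004007021c00000800e042411)) (.one (nat_lit 0x600000500701fc00000a00e03e411)))))) (.br (Nat.shiftLeft (nat_lit 0x7000004007021) (nat_lit 64)) (.br (Nat.shiftLeft (nat_lit 0x300000300381) (nat_lit 69)) (.br (Nat.shiftLeft (nat_lit 0x6000005007021) (nat_lit 64)) (.one (nat_lit 0x6000005007020c00000a00e040411)) (.br (Nat.shiftLeft (nat_lit 0x3000003) (nat_lit 89)) (.one (nat_lit 0x6000005007021c00000a00e042411)) (.one (nat_lit 0x600000600701fc00000c00e03e411)))) (.br (Nat.shiftLeft (nat_lit 0x7) (nat_lit 112)) (.one (nat_lit 0x6000006007020c00000c00e040411))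 (.br (Nat.shiftLeft (nat_lit 0x380000200381) (nat_lit 69)) (.one (nat_lit 0x700000400701fe00000800e03e411)) (.one (nat_lit 0x7000004007020e00000800e040411))))) (.br (Nat.shiftLeft (nat_lit 0x7000005007021) (nat_lit 64)) (.br (Nat.shiftLeft (nat_lit 0x7000005) (nat_lit 88)) (.one (nat_lit 0x7000004007021e00000800e042411)) (.br (Nat.shiftLeft (nat_lit 0x380000280381) (nat_lit 69)) (.one (nat_lit 0x700000500701fe00000a00e03e411)) (.one (nat_lit 0x7000005007020e00000a00e040411)))) (.br (Nat.shiftLeft (nat_lit 0x3800003) (nat_lit 89)) (.one (nat_lit 0x7000005007021e00000a00e042411)) (.br (Nat.shiftLeft (nat_lit 0x380000300381) (nat_lit 69)) (.one (nat_lit 0x700000600701fe00000c00e03e411)) (.one (nat_lit 0x7000006007020e00000c00e040411)))))))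
def t72 : k72.all (jb2 57 fl b0) = true := by decide +kernel
noncomputable def s3 : KT := (.br (nat_lit 0x200500701f000400a00e03e540) (.br (nat_lit 0x6007020000000c00e041400) (.br (nat_lit 0x300701f000000600e03e430) (.br (nat_lit 0x2007021000000400e042430) k55 k56) (.br (nat_lit 0x3007020000000600e040430) k57 k58)) (.br (nat_lit 0x100500701f000200a00e03e540) (.br (nat_lit 0x1000007021000200000e042311) k59 k60) (.br (nat_lit 0x2000007021000400000e042311) k61 (.br (nat_lit 0x2004007020000400800e040540) k62 k63)))) (.br (nat_lit 0x3005007020000600a00e040540) (.br (nat_lit 0x300400701f000600800e03e540) (.br (nat_lit 0x200600701f000400c00e03e540) k64 k65) (.br (nat_lit 0x3004007021000600800e042540) k66 k67)) (.br (nat_lit 0x4005007020000800a00e040540) (.br (nat_lit 0x4000007021000800000e042311) k68 k69) (.br (nat_lit 0x5000007021000a00000e042311) k70 (.br (nat_lit 0x4000006007020800000c00e040411) k71 k72)))))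
noncomputable def u3 : KT := (.br (Nat.shiftLeft (nat_lit 0x1) (nat_lit 79)) (.br (Nat.shiftLeft (nat_lit 0x381) (nat_lit 69)) (.one (nat_lit 0x701f000000000e03e320)) (.br (Nat.shiftLeft (nat_lit 0x7021) (nat_lit 64)) (.one (nat_lit 0x7020000000000e040320)) (.one (nat_lit 0x7021000000000e042320)))) (.br (Nat.shiftLeft (nat_lit 0x8019) (nat_lit 64)) (.one (nat_lit 0x80180000000010031300)) (.br (Nat.shiftLeft (nat_lit 0x400d) (nat_lit 65)) (.one (nat_lit 0x80190000000010033300)) (.one (nat_lit 0x801a0000000010035300)))))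
def w3 : u3.all (wj 57 s3) = true := by decide +kernel
def o3 : OkW 57 (jb2 57 fl) u3 := .lift s3 _ (.br _ _ _ (.br _ _ _ (.br _ _ _ (.br _ _ _ (.leaf b0 k55 t55) (.leaf b0 k56 t56)) (.br _ _ _ (.leaf b0 k57 t57) (.leaf b0 k58 t58))) (.br _ _ _ (.br _ _ _ (.leaf b0 k59 t59) (.leaf b0 k60 t60)) (.br _ _ _ (.leaf b0 k61 t61) (.br _ _ _ (.leaf b0 k62 t62) (.leaf b0 k63 t63))))) (.br _ _ _ (.br _ _ _ (.br _ _ _ (.leaf b0 k64 t64) (.leaf b0 k65 t65)) (.br _ _ _ (.leaf b0 k66 t66) (.leaf b0 k67 t67))) (.br _ _ _ (.br _ _ _ (.leaf b0 k68 t68) (.leaf b0 k69 t69)) (.br _ _ _ (.leaf b0 k70 t70) (.br _ _ _ (.leaf b0 k71 t71) (.leaf b0 k72 t72)))))) w3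
noncomputable def k73 : KT := (.br (Nat.shiftLeft (nat_lit 0x5) (nat_lit 88)) (.br (Nat.shiftLeft (nat_lit 0x1) (nat_lit 89)) (.br (Nat.shiftLeft (nat_lit 0x1) (nat_lit 88)) (.one (nat_lit 0x801b0000000010037300)) (.one (nat_lit 0x100801b0000002010036430))) (.br (Nat.shiftLeft (nat_lit 0x3) (nat_lit 88)) (.one (nat_lit 0x200801b0000004010036430)) (.br (Nat.shiftLeft (nat_lit 0x1) (nat_lit 90)) (.one (nat_lit 0x300801b0000006010037400)) (.one (nat_lit 0x400801b0000008010037400))))) (.br (Nat.shiftLeft (nat_lit 0x1) (nat_lit 100)) (.br (Nat.shiftLeft (nat_lit 0x3) (nat_lit 89)) (.one (nat_lit 0x500801b000000a010037400)) (.br (Nat.shiftLeft (nat_lit 0x7) (nat_lit 88)) (.one (nat_lit 0x600801b000000c010037400)) (.one (nat_lit 0x700801b000000e010037400)))) (.br (Nat.shiftLeft (nat_lit 0x801) (nat_lit 89)) (.one (nat_lit 0x100000801b0002000010036311)) (.br (Nat.shiftLeft (nat_lit 0x401) (nat_lit 90)) (.one (nat_lit 0x100300801b0002006010036540)) (.one (nat_lit 0x100400801b0002008010036540))))))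
def t73 : k73.all (jb2 57 fl b0) = true := by decide +kernel
noncomputable def k74 : KT := (.br (Nat.shiftLeft (nat_lit 0x803) (nat_lit 89)) (.one (nat_lit 0x100500801b000200a010036540)) (.one (nat_lit 0x100600801b000200c010036540)))
def t74 : k74.all (jb2 57 fl b0) = true := by decide +kernel
noncomputable def k75 : KT := (.br (Nat.shiftLeft (nat_lit 0x1) (nat_lit 101)) (.one (nat_lit 0x100700801b000200e010036540)) (.one (nat_lit 0x200000801b0004000010036311)))
def t75 : k75.all (jb2 57 fl b0) = true := by decide +kernel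
noncomputable def k76 : KT := (.br (Nat.shiftLeft (nat_lit 0x801) (nat_lit 90)) (.one (nat_lit 0x200300801b0004006010036540)) (.one (nat_lit 0x200400801b0004008010037500)))
def t76 : k76.all (jb2 57 fl b0) = true := by decide +kernel
noncomputable def k77 : KT := (.one (nat_lit 0x200500801b000400a010036540))
def t77 : k77.all (jb2 57 fl b0) = true := by decide +kernel
noncomputable def k78 : KT := (.one (nat_lit 0x200600801b000400c010036540))
def t78 : k78.all (jb2 57 fl b0) = true := by decide +kernel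
noncomputable def k79 : KT := (.br (Nat.shiftLeft (nat_lit 0xc01) (nat_lit 90)) (.br (Nat.shiftLeft (nat_lit 0x3) (nat_lit 100)) (.one (nat_lit 0x200700801b000400e010036540)) (.one (nat_lit 0x300000801b0006000010036311))) (.br (Nat.shiftLeft (nat_lit 0x3005) (nat_lit 88)) (.one (nat_lit 0x300400801b0006008010037500)) (.one (nat_lit 0x300500801b000600a010037500))))
def t79 : k79.all (jb2 57 fl b0) = true := by decide +kernel
noncomputable def k80 : KT := (.one (nat_lit 0x300600801b000600c010036540))
def t80 : k80.all (jb2 57 fl b0) = true := by decide +kernel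
noncomputable def k81 : KT := (.br (Nat.shiftLeft (nat_lit 0x1) (nat_lit 102)) (.one (nat_lit 0x300700801b000600e010036540)) (.br (Nat.shiftLeft (nat_lit 0x1001) (nat_lit 90)) (.one (nat_lit 0x400000801b0008000010036311)) (.one (nat_lit 0x400500801b000800a010037500))))
def t81 : k81.all (jb2 57 fl b0) = true := by decide +kernel
noncomputable def k82 : KT := (.one (nat_lit 0x400600801b000800c010036540))
def t82 : k82.all (jb2 57 fl b0) = true := by decide +kernel
noncomputable def k83 : KT := (.br (Nat.shiftLeft (nat_lit 0x5) (nat_lit 100)) (.one (nat_lit 0x400700801b000800e010036540)) (.one (nat_lit 0x500000801b000a000010036311)))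
def t83 : k83.all (jb2 57 fl b0) = true := by decide +kernel
noncomputable def k84 : KT := (.one (nat_lit 0x500600801b000a00c010036540))
def t84 : k84.all (jb2 57 fl b0) = true := by decide +kernel
noncomputable def k85 : KT := (.br (Nat.shiftLeft (nat_lit 0x3) (nat_lit 101)) (.one (nat_lit 0x500700801b000a00e010036540)) (.one (nat_lit 0x600000801b000c000010036311)))
def t85 : k85.all (jb2 57 fl b0) = true := by decide +kernel
noncomputable def k86 : KT := (.br (Nat.shiftLeft (nat_lit 0x400001) (nat_lit 90)) (.br (Nat.shiftLeft (nat_lit 0x1) (nat_lit 103)) (.br (Nat.shiftLeft (nat_lit 0x7) (nat_lit 100)) (.one (nat_lit 0x600700801b000c00e010036540)) (.one (nat_lit 0x700000801b000e000010036311))) (.br (Nat.shiftLeft (nat_lit 0x1) (nat_lit 112)) (.one (nat_lit 0x800000801b0010000010036311)) (.one (nat_lit 0x100000300801b2000006010036411)))) (.br (Nat.shiftLeft (nat_lit 0x800003) (nat_lit 89)) (.br (Nat.shiftLeft (nat_lit 0x1000005) (nat_lit 88)) (.one (nat_lit 0x100000400801b2000008010036411)) (.one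 (nat_lit 0x100000500801b200000a010036411))) (.br (Nat.shiftLeft (nat_lit 0x1000007) (nat_lit 88)) (.one (nat_lit 0x100000600801b200000c010036411)) (.br (Nat.shiftLeft (nat_lit 0x801) (nat_lit 101)) (.one (nat_lit 0x100000700801b200000e010036411)) (.one (nat_lit 0x100200400801b2004008010036650))))))
def t86 : k86.all (jb2 57 fl b0) = true := by decide +kernel
noncomputable def k87 : KT := (.br (Nat.shiftLeft (nat_lit 0x1003005) (nat_lit 88)) (.one (nat_lit 0x100300400801b2006008010036650)) (.one (nat_lit 0x100300500801b200600a010036650)))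
def t87 : k87.all (jb2 57 fl b0) = true := by decide +kernel
noncomputable def k88 : KT := (.br (Nat.shiftLeft (nat_lit 0x2000005) (nat_lit 88)) (.br (Nat.shiftLeft (nat_lit 0x1) (nat_lit 113)) (.one (nat_lit 0x100400500801b200800a010036650)) (.br (Nat.shiftLeft (nat_lit 0x800001) (nat_lit 90)) (.one (nat_lit 0x200000300801b4000006010036411)) (.one (nat_lit 0x200000400801b4000008010036411)))) (.br (Nat.shiftLeft (nat_lit 0x2000007) (nat_lit 88)) (.br (Nat.shiftLeft (nat_lit 0x1000003) (nat_lit 89)) (.one (nat_lit 0x200000500801b400000a010036411)) (.one (nat_lit 0x200000600801b400000c010036411))) (.br (Nat.shiftLeft (nat_lit 0x1001) (nat_lit 101)) (.one (nat_lit 0x200000700801b400000e010036411)) (.one (nat_lit 0x200300400801b4006008010036650)))))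
def t88 : k88.all (jb2 57 fl b0) = true := by decide +kernel
noncomputable def k89 : KT := (.br (Nat.shiftLeft (nat_lit 0xc00001) (nat_lit 90)) (.br (Nat.shiftLeft (nat_lit 0x801) (nat_lit 102)) (.one (nat_lit 0x200300500801b400600a010036650)) (.br (Nat.shiftLeft (nat_lit 0x3) (nat_lit 112)) (.one (nat_lit 0x200400500801b400800a010036650)) (.one (nat_lit 0x300000300801b6000006010036411)))) (.br (Nat.shiftLeft (nat_lit 0x1800003) (nat_lit 89)) (.br (Nat.shiftLeft (nat_lit 0x3000005) (nat_lit 88)) (.one (nat_lit 0x300000400801b6000008010036411)) (.one (nat_lit 0x300000500801b600000a010036411))) (.br (Nat.shiftLeft (nat_lit 0x3000007) (nat_lit 88)) (.one (nat_lit 0x300000600801b600000c010036411)) (.one (nat_lit 0x300000700801b600000e010036411)))))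
def t89 : k89.all (jb2 57 fl b0) = true := by decide +kernel
noncomputable def k90 : KT := (.br (Nat.shiftLeft (nat_lit 0x3) (nat_lit 113)) (.br (Nat.shiftLeft (nat_lit 0x4000007) (nat_lit 88)) (.br (Nat.shiftLeft (nat_lit 0x1000001) (nat_lit 90)) (.br (Nat.shiftLeft (nat_lit 0x1) (nat_lit 114)) (.one (nat_lit 0x300400500801b600800a010036650)) (.one (nat_lit 0x400000300801b8000006010036411))) (.br (Nat.shiftLeft (nat_lit 0x4000005) (nat_lit 88)) (.one (nat_lit 0x400000400801b8000008010036411)) (.br (Nat.shiftLeft (nat_lit 0x2000003) (nat_lit 89)) (.one (nat_lit 0x400000500801b800000a010036411)) (.one (nat_lit 0x400000600801b800000c010036411))))) (.br (Nat.shiftLeft (nat_lit 0x5000005) (nat_lit 88)) (.br (Nat.shiftLeft (nat_lit 0x5) (nat_lit 112)) (.one (nat_lit 0x400000700801b800000e010036411)) (.br (Nat.shiftLeft (nat_lit 0x1400001) (nat_lit 90)) (.one (nat_lit 0x500000300801ba000006010036411)) (.one (nat_lit 0x500000400801ba000008010036411)))) (.br (Nat.shiftLeft (nat_lit 0x2800003) (nat_lit 89))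 (.one (nat_lit 0x500000500801ba00000a010036411)) (.br (Nat.shiftLeft (nat_lit 0x5000007) (nat_lit 88)) (.one (nat_lit 0x500000600801ba00000c010036411)) (.one (nat_lit 0x500000700801ba00000e010036411)))))) (.br (Nat.shiftLeft (nat_lit 0x7) (nat_lit 112)) (.br (Nat.shiftLeft (nat_lit 0x6000005) (nat_lit 88)) (.br (Nat.shiftLeft (nat_lit 0x1800001) (nat_lit 90)) (.one (nat_lit 0x600000300801bc000006010036411)) (.one (nat_lit 0x600000400801bc000008010036411))) (.br (Nat.shiftLeft (nat_lit 0x3000003) (nat_lit 89)) (.one (nat_lit 0x600000500801bc00000a010036411)) (.br (Nat.shiftLeft (nat_lit 0x6000007) (nat_lit 88)) (.one (nat_lit 0x600000600801bc00000c010036411)) (.one (nat_lit 0x600000700801bc00000e010036411))))) (.br (Nat.shiftLeft (nat_lit 0x3800003) (nat_lit 89)) (.br (Nat.shiftLeft (nat_lit 0x1c00001) (nat_lit 90)) (.one (nat_lit 0x700000300801be000006010036411)) (.br (Nat.shiftLeft (nat_lit 0x7000005) (nat_lit 88)) (.one (nat_lit 0x700000400801be000008010036411)) (.one (nat_lit 0x700000500801be00000a010036411))))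 (.br (Nat.shiftLeft (nat_lit 0x7000007) (nat_lit 88)) (.one (nat_lit 0x700000600801be00000c010036411)) (.br (Nat.shiftLeft (nat_lit 0x1) (nat_lit 115)) (.one (nat_lit 0x700000700801be00000e010036411)) (.one (nat_lit 0x800000300801b0000006010138411)))))))
def t90 : k90.all (jb2 57 fl b0) = true := by decide +kernel
noncomputable def k91 : KT := (.br (Nat.shiftLeft (nat_lit 0x3) (nat_lit 124)) (.br (Nat.shiftLeft (nat_lit 0x1000003005) (nat_lit 88)) (.br (Nat.shiftLeft (nat_lit 0x8000007) (nat_lit 88)) (.br (Nat.shiftLeft (nat_lit 0x8000005) (nat_lit 88)) (.one (nat_lit 0x800000400801b0000008010138411)) (.br (Nat.shiftLeft (nat_lit 0x4000003) (nat_lit 89)) (.one (nat_lit 0x800000500801b000000a010138411)) (.one (nat_lit 0x800000600801b000000c010138411)))) (.br (Nat.shiftLeft (nat_lit 0x1) (nat_lit 124)) (.one (nat_lit 0x800000700801b000000e010138411)) (.br (Nat.shiftLeft (nat_lit 0x1000003) (nat_lit 100)) (.one (nat_lit 0x100000200400801b0004008030436511)) (.one (nat_lit 0x100000300400801b0006008030436511)))))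 (.br (Nat.shiftLeft (nat_lit 0x2000003) (nat_lit 100)) (.br (Nat.shiftLeft (nat_lit 0x400001) (nat_lit 102)) (.one (nat_lit 0x100000300500801b000600a030436511)) (.br (Nat.shiftLeft (nat_lit 0x1) (nat_lit 125)) (.one (nat_lit 0x100000400500801b000800a030436511)) (.one (nat_lit 0x200000200400801b0004008050836511)))) (.br (Nat.shiftLeft (nat_lit 0x2000003005) (nat_lit 88)) (.one (nat_lit 0x200000300400801b0006008050836511)) (.br (Nat.shiftLeft (nat_lit 0x800001) (nat_lit 102)) (.one (nat_lit 0x200000300500801b000600a050836511)) (.one (nat_lit 0x200000400500801b000800a050836511)))))) (.br (Nat.shiftLeft (nat_lit 0x4000003005) (nat_lit 88)) (.br (Nat.shiftLeft (nat_lit 0xc00001) (nat_lit 102)) (.br (Nat.shiftLeft (nat_lit 0x3000003) (nat_lit 100)) (.one (nat_lit 0x300000200400801b0004008070c36511)) (.br (Nat.shiftLeft (nat_lit 0x3000003005) (nat_lit 88)) (.one (nat_lit 0x300000300400801b0006008070c36511)) (.one (nat_lit 0x300000300500801b000600a070c36511)))) (.br (Nat.shiftLeft (nat_lit 0x1) (nat_lit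 126)) (.one (nat_lit 0x300000400500801b000800a070c36511)) (.br (Nat.shiftLeft (nat_lit 0x4000003) (nat_lit 100)) (.one (nat_lit 0x400000200400801b0004008091036511)) (.one (nat_lit 0x400000300400801b0006008091036511))))) (.br (Nat.shiftLeft (nat_lit 0x5000003) (nat_lit 100)) (.br (Nat.shiftLeft (nat_lit 0x1000001) (nat_lit 102)) (.one (nat_lit 0x400000300500801b000600a091036511)) (.br (Nat.shiftLeft (nat_lit 0x5) (nat_lit 124)) (.one (nat_lit 0x400000400500801b000800a091036511)) (.one (nat_lit 0x500000200400801b00040080b1436511)))) (.br (Nat.shiftLeft (nat_lit 0x5000003005) (nat_lit 88)) (.one (nat_lit 0x500000300400801b00060080b1436511)) (.br (Nat.shiftLeft (nat_lit 0x1400001) (nat_lit 102)) (.one (nat_lit 0x500000300500801b000600a0b1436511)) (.one (nat_lit 0x500000400500801b000800a0b1436511)))))))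
def t91 : k91.all (jb2 57 fl b0) = true := by decide +kernel
noncomputable def k92 : KT := (.br (Nat.shiftLeft (nat_lit 0x7000003005) (nat_lit 88)) (.br (Nat.shiftLeft (nat_lit 0x1800001) (nat_lit 102)) (.br (Nat.shiftLeft (nat_lit 0x6000003) (nat_lit 100)) (.one (nat_lit 0x600000200400801b00040080d1836511)) (.br (Nat.shiftLeft (nat_lit 0x6000003005) (nat_lit 88)) (.one (nat_lit 0x600000300400801b00060080d1836511)) (.one (nat_lit 0x600000300500801b000600a0d1836511)))) (.br (Nat.shiftLeft (nat_lit 0x7) (nat_lit 124)) (.one (nat_lit 0x600000400500801b000800a0d1836511)) (.br (Nat.shiftLeft (nat_lit 0x7000003) (nat_lit 100)) (.one (nat_lit 0x700000200400801b00040080f1c36511)) (.one (nat_lit 0x700000300400801b00060080f1c36511))))) (.br (Nat.shiftLeft (nat_lit 0x8000003) (nat_lit 100)) (.br (Nat.shiftLeft (nat_lit 0x1c00001) (nat_lit 102)) (.one (nat_lit 0x700000300500801b000600a0f1c36511)) (.br (Nat.shiftLeft (nat_lit 0x1) (nat_lit 127)) (.one (nat_lit 0x700000400500801b000800a0f1c36511)) (.one (nat_lit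 0x800000200400801b0004008112036511)))) (.br (Nat.shiftLeft (nat_lit 0x8000003005) (nat_lit 88)) (.one (nat_lit 0x800000300400801b0006008112036511)) (.br (Nat.shiftLeft (nat_lit 0x2000001) (nat_lit 102)) (.one (nat_lit 0x800000300500801b000600a112036511)) (.one (nat_lit 0x800000400500801b000800a112036511))))))
def t92 : k92.all (jb2 57 fl b0) = true := by decide +kernel
noncomputable def s4 : KT := (.br (nat_lit 0x400600801b000800c010036540) (.br (nat_lit 0x200500801b000400a010036540) (.br (nat_lit 0x100600801b000200c010036540) (.br (nat_lit 0x100400801b0002008010036540) k73 k74) (.br (nat_lit 0x200000801b0004000010036311) k75 (.br (nat_lit 0x200400801b0004008010037500) k76 k77))) (.br (nat_lit 0x300500801b000600a010037500) (.br (nat_lit 0x200600801b000400c010036540) k78 k79) (.br (nat_lit 0x300600801b000600c010036540) k80 (.br (nat_lit 0x400500801b000800a010037500) k81 k82)))) (.br (nat_lit 0x100300500801b200600a010036650) (.br (nat_lit 0x500600801b000a00c010036540) (.br (nat_lit 0x500000801b000a000010036311)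 k83 k84) (.br (nat_lit 0x600000801b000c000010036311) k85 (.br (nat_lit 0x100200400801b2004008010036650) k86 k87))) (.br (nat_lit 0x300000700801b600000e010036411) (.br (nat_lit 0x200300400801b4006008010036650) k88 k89) (.br (nat_lit 0x800000300801b0000006010138411) k90 (.br (nat_lit 0x500000400500801b000800a0b1436511) k91 k92)))))
noncomputable def u4 : KT := (.one (nat_lit 0x801b0000000010036320))
def w4 : u4.all (wj 57 s4) = true := by decide +kernel
def o4 : OkW 57 (jb2 57 fl) u4 := .lift s4 _ (.br _ _ _ (.br _ _ _ (.br _ _ _ (.br _ _ _ (.leaf b0 k73 t73) (.leaf b0 k74 t74)) (.br _ _ _ (.leaf b0 k75 t75) (.br _ _ _ (.leaf b0 k76 t76) (.leaf b0 k77 t77)))) (.br _ _ _ (.br _ _ _ (.leaf b0 k78 t78) (.leaf b0 k79 t79)) (.br _ _ _ (.leaf b0 k80 t80) (.br _ _ _ (.leaf b0 k81 t81) (.leaf b0 k82 t82))))) (.br _ _ _ (.br _ _ _ (.br _ _ _ (.leaf b0 k83 t83) (.leaf b0 k84 t84)) (.br _ _ _ (.leaf b0 k85 t85) (.br _ _ _ (.leaf b0 k86 t86) (.leaf b0 k87 t87)))) (.br _ _ _ (.br _ _ _ (.leaf b0 k88 t88) (.leaf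 b0 k89 t89)) (.br _ _ _ (.leaf b0 k90 t90) (.br _ _ _ (.leaf b0 k91 t91) (.leaf b0 k92 t92)))))) w4
noncomputable def k93 : KT := (.br (Nat.shiftLeft (nat_lit 0x5) (nat_lit 88)) (.br (Nat.shiftLeft (nat_lit 0x1) (nat_lit 89)) (.br (Nat.shiftLeft (nat_lit 0x1) (nat_lit 88)) (.one (nat_lit 0x801c0000000010039300)) (.one (nat_lit 0x100801c0000002010038430))) (.br (Nat.shiftLeft (nat_lit 0x3) (nat_lit 88)) (.one (nat_lit 0x200801c0000004010038430)) (.br (Nat.shiftLeft (nat_lit 0x1) (nat_lit 90)) (.one (nat_lit 0x300801c0000006010039400)) (.one (nat_lit 0x400801c0000008010039400))))) (.br (Nat.shiftLeft (nat_lit 0x1) (nat_lit 100)) (.br (Nat.shiftLeft (nat_lit 0x3) (nat_lit 89)) (.one (nat_lit 0x500801c000000a010039400)) (.br (Nat.shiftLeft (nat_lit 0x7) (nat_lit 88)) (.one (nat_lit 0x600801c000000c010039400)) (.one (nat_lit 0x700801c000000e010039400)))) (.br (Nat.shiftLeft (nat_lit 0x801) (nat_lit 89)) (.one (nat_lit 0x100000801c0002000010038311)) (.br (Nat.shiftLeft (nat_lit 0x401) (nat_lit 90)) (.one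 (nat_lit 0x100300801c0002006010038540)) (.one (nat_lit 0x100400801c0002008010038540))))))
def t93 : k93.all (jb2 57 fl b0) = true := by decide +kernel
noncomputable def k94 : KT := (.br (Nat.shiftLeft (nat_lit 0x803) (nat_lit 89)) (.one (nat_lit 0x100500801c000200a010038540)) (.one (nat_lit 0x100600801c000200c010038540)))
def t94 : k94.all (jb2 57 fl b0) = true := by decide +kernel
noncomputable def k95 : KT := (.br (Nat.shiftLeft (nat_lit 0x1) (nat_lit 101)) (.one (nat_lit 0x100700801c000200e010038540)) (.br (Nat.shiftLeft (nat_lit 0x1001) (nat_lit 89)) (.one (nat_lit 0x200000801c0004000010038311)) (.one (nat_lit 0x200300801c0004006010038540))))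
def t95 : k95.all (jb2 57 fl b0) = true := by decide +kernel
noncomputable def k96 : KT := (.one (nat_lit 0x200400801c0004008010038540))
def t96 : k96.all (jb2 57 fl b0) = true := by decide +kernel
noncomputable def k97 : KT := (.one (nat_lit 0x200500801c000400a010038540))
def t97 : k97.all (jb2 57 fl b0) = true := by decide +kernel
noncomputable def k98 : KT := (.one (nat_lit 0x200600801c000400c010038540))
def t98 : k98.all (jb2 57 fl b0) = true := by decide +kernel
noncomputable def k99 : KT := (.br (Nat.shiftLeft (nat_lit 0x3) (nat_lit 100)) (.one (nat_lit 0x200700801c000400e010038540)) (.br (Nat.shiftLeft (nat_lit 0xc01) (nat_lit 90)) (.one (nat_lit 0x300000801c0006000010038311)) (.one (nat_lit 0x300400801c0006008010039500))))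
def t99 : k99.all (jb2 57 fl b0) = true := by decide +kernel
noncomputable def k100 : KT := (.one (nat_lit 0x300500801c000600a010038540))
def t100 : k100.all (jb2 57 fl b0) = true := by decide +kernel
noncomputable def k101 : KT := (.one (nat_lit 0x300600801c000600c010038540))
def t101 : k101.all (jb2 57 fl b0) = true := by decide +kernel
noncomputable def k102 : KT := (.br (Nat.shiftLeft (nat_lit 0x1) (nat_lit 102)) (.one (nat_lit 0x300700801c000600e010038540)) (.one (nat_lit 0x400000801c0008000010038311)))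
def t102 : k102.all (jb2 57 fl b0) = true := by decide +kernel
noncomputable def k103 : KT := (.one (nat_lit 0x400500801c000800a010038540))
def t103 : k103.all (jb2 57 fl b0) = true := by decide +kernel
noncomputable def k104 : KT := (.one (nat_lit 0x400600801c000800c010038540))
def t104 : k104.all (jb2 57 fl b0) = true := by decide +kernel
noncomputable def k105 : KT := (.br (Nat.shiftLeft (nat_lit 0x5) (nat_lit 100)) (.one (nat_lit 0x400700801c000800e010038540)) (.one (nat_lit 0x500000801c000a000010038311)))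
def t105 : k105.all (jb2 57 fl b0) = true := by decide +kernel
noncomputable def k106 : KT := (.one (nat_lit 0x500600801c000a00c010038540))
def t106 : k106.all (jb2 57 fl b0) = true := by decide +kernel
noncomputable def k107 : KT := (.br (Nat.shiftLeft (nat_lit 0x1) (nat_lit 112)) (.br (Nat.shiftLeft (nat_lit 0x1801) (nat_lit 90)) (.br (Nat.shiftLeft (nat_lit 0x3) (nat_lit 101)) (.one (nat_lit 0x500700801c000a00e010038540)) (.one (nat_lit 0x600000801c000c000010038311))) (.br (Nat.shiftLeft (nat_lit 0x7) (nat_lit 100)) (.one (nat_lit 0x600700801c000c00e010038540)) (.br (Nat.shiftLeft (nat_lit 0x1) (nat_lit 103)) (.one (nat_lit 0x700000801c000e000010038311)) (.one (nat_lit 0x800000801c0010000010038311))))) (.br (Nat.shiftLeft (nat_lit 0x1000005) (nat_lit 88)) (.br (Nat.shiftLeft (nat_lit 0x400001) (nat_lit 90)) (.one (nat_lit 0x100000300801c2000006010038411)) (.one (nat_lit 0x100000400801c2000008010038411))) (.br (Nat.shiftLeft (nat_lit 0x800003) (nat_lit 89)) (.one (nat_lit 0x100000500801c200000a010038411))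 (.br (Nat.shiftLeft (nat_lit 0x1000007) (nat_lit 88)) (.one (nat_lit 0x100000600801c200000c010038411)) (.one (nat_lit 0x100000700801c200000e010038411))))))
def t107 : k107.all (jb2 57 fl b0) = true := by decide +kernel
noncomputable def k108 : KT := (.br (Nat.shiftLeft (nat_lit 0xc00001) (nat_lit 90)) (.br (Nat.shiftLeft (nat_lit 0x1000003) (nat_lit 89)) (.br (Nat.shiftLeft (nat_lit 0x800001) (nat_lit 90)) (.br (Nat.shiftLeft (nat_lit 0x1) (nat_lit 113)) (.one (nat_lit 0x100300400801c2006008010038650)) (.one (nat_lit 0x200000300801c4000006010038411))) (.br (Nat.shiftLeft (nat_lit 0x2000005) (nat_lit 88)) (.one (nat_lit 0x200000400801c4000008010038411)) (.one (nat_lit 0x200000500801c400000a010038411)))) (.br (Nat.shiftLeft (nat_lit 0x1001) (nat_lit 101)) (.br (Nat.shiftLeft (nat_lit 0x2000007) (nat_lit 88)) (.one (nat_lit 0x200000600801c400000c010038411)) (.one (nat_lit 0x200000700801c400000e010038411))) (.br (Nat.shiftLeft (nat_lit 0x3) (nat_lit 112)) (.one (nat_lit 0x200300400801c4006008010038650))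 (.one (nat_lit 0x300000300801c6000006010038411))))) (.br (Nat.shiftLeft (nat_lit 0x1) (nat_lit 114)) (.br (Nat.shiftLeft (nat_lit 0x1800003) (nat_lit 89)) (.br (Nat.shiftLeft (nat_lit 0x3000005) (nat_lit 88)) (.one (nat_lit 0x300000400801c6000008010038411)) (.one (nat_lit 0x300000500801c600000a010038411))) (.br (Nat.shiftLeft (nat_lit 0x3000007) (nat_lit 88)) (.one (nat_lit 0x300000600801c600000c010038411)) (.one (nat_lit 0x300000700801c600000e010038411)))) (.br (Nat.shiftLeft (nat_lit 0x4000005) (nat_lit 88)) (.br (Nat.shiftLeft (nat_lit 0x1000001) (nat_lit 90)) (.one (nat_lit 0x400000300801c8000006010038411)) (.one (nat_lit 0x400000400801c8000008010038411))) (.br (Nat.shiftLeft (nat_lit 0x2000003) (nat_lit 89)) (.one (nat_lit 0x400000500801c800000a010038411)) (.one (nat_lit 0x400000600801c800000c010038411))))))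
def t108 : k108.all (jb2 57 fl b0) = true := by decide +kernel
noncomputable def k109 : KT := (.br (Nat.shiftLeft (nat_lit 0x3800003) (nat_lit 89)) (.br (Nat.shiftLeft (nat_lit 0x1800001) (nat_lit 90)) (.br (Nat.shiftLeft (nat_lit 0x5000005) (nat_lit 88)) (.br (Nat.shiftLeft (nat_lit 0x5) (nat_lit 112)) (.one (nat_lit 0x400000700801c800000e010038411)) (.br (Nat.shiftLeft (nat_lit 0x1400001) (nat_lit 90)) (.one (nat_lit 0x500000300801ca000006010038411)) (.one (nat_lit 0x500000400801ca000008010038411)))) (.br (Nat.shiftLeft (nat_lit 0x5000007) (nat_lit 88)) (.br (Nat.shiftLeft (nat_lit 0x2800003) (nat_lit 89)) (.one (nat_lit 0x500000500801ca00000a010038411)) (.one (nat_lit 0x500000600801ca00000c010038411))) (.br (Nat.shiftLeft (nat_lit 0x3) (nat_lit 113)) (.one (nat_lit 0x500000700801ca00000e010038411)) (.one (nat_lit 0x600000300801cc000006010038411))))) (.br (Nat.shiftLeft (nat_lit 0x6000007) (nat_lit 88)) (.br (Nat.shiftLeft (nat_lit 0x6000005) (nat_lit 88)) (.one (nat_lit 0x600000400801cc000008010038411))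 (.br (Nat.shiftLeft (nat_lit 0x3000003) (nat_lit 89)) (.one (nat_lit 0x600000500801cc00000a010038411)) (.one (nat_lit 0x600000600801cc00000c010038411)))) (.br (Nat.shiftLeft (nat_lit 0x1c00001) (nat_lit 90)) (.br (Nat.shiftLeft (nat_lit 0x7) (nat_lit 112)) (.one (nat_lit 0x600000700801cc00000e010038411)) (.one (nat_lit 0x700000300801ce000006010038411))) (.br (Nat.shiftLeft (nat_lit 0x7000005) (nat_lit 88)) (.one (nat_lit 0x700000400801ce000008010038411)) (.one (nat_lit 0x700000500801ce00000a010038411)))))) (.br (Nat.shiftLeft (nat_lit 0x1) (nat_lit 124)) (.br (Nat.shiftLeft (nat_lit 0x2000001) (nat_lit 90)) (.br (Nat.shiftLeft (nat_lit 0x7000007) (nat_lit 88)) (.one (nat_lit 0x700000600801ce00000c010038411)) (.br (Nat.shiftLeft (nat_lit 0x1) (nat_lit 115)) (.one (nat_lit 0x700000700801ce00000e010038411)) (.one (nat_lit 0x800000300801c000000601013a411)))) (.br (Nat.shiftLeft (nat_lit 0x4000003) (nat_lit 89)) (.br (Nat.shiftLeft (nat_lit 0x8000005) (nat_lit 88)) (.one (nat_lit 0x800000400801c000000801013a411))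 (.one (nat_lit 0x800000500801c000000a01013a411))) (.br (Nat.shiftLeft (nat_lit 0x8000007) (nat_lit 88)) (.one (nat_lit 0x800000600801c000000c01013a411)) (.one (nat_lit 0x800000700801c000000e01013a411))))) (.br (Nat.shiftLeft (nat_lit 0x1) (nat_lit 126)) (.br (Nat.shiftLeft (nat_lit 0x1) (nat_lit 125)) (.one (nat_lit 0x100000300400801c0006008030438511)) (.br (Nat.shiftLeft (nat_lit 0x3) (nat_lit 124)) (.one (nat_lit 0x200000300400801c0006008050838511)) (.one (nat_lit 0x300000300400801c0006008070c38511)))) (.br (Nat.shiftLeft (nat_lit 0x3) (nat_lit 125)) (.br (Nat.shiftLeft (nat_lit 0x5) (nat_lit 124)) (.one (nat_lit 0x400000300400801c0006008091038511)) (.one (nat_lit 0x500000300400801c00060080b1438511))) (.br (Nat.shiftLeft (nat_lit 0x7) (nat_lit 124)) (.one (nat_lit 0x600000300400801c00060080d1838511)) (.one (nat_lit 0x700000300400801c00060080f1c38511)))))))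
def t109 : k109.all (jb2 57 fl b0) = true := by decide +kernel
noncomputable def k110 : KT := (.one (nat_lit 0x800000300400801c0006008112038511))
def t110 : k110.all (jb2 57 fl b0) = true := by decide +kernel
noncomputable def s5 : KT := (.br (nat_lit 0x300600801c000600c010038540) (.br (nat_lit 0x200400801c0004008010038540) (.br (nat_lit 0x100600801c000200c010038540) (.br (nat_lit 0x100400801c0002008010038540) k93 k94) (.br (nat_lit 0x200300801c0004006010038540) k95 k96)) (.br (nat_lit 0x200600801c000400c010038540) (.br (nat_lit 0x200500801c000400a010038540) k97 k98) (.br (nat_lit 0x300400801c0006008010039500) k99 (.br (nat_lit 0x300500801c000600a010038540) k100 k101)))) (.br (nat_lit 0x500000801c000a000010038311) (.br (nat_lit 0x400500801c000800a010038540) (.br (nat_lit 0x400000801c0008000010038311) k102 k103) (.br (nat_lit 0x400600801c000800c010038540) k104 k105)) (.br (nat_lit 0x100000700801c200000e010038411) (.br (nat_lit 0x500600801c000a00c010038540) k106 k107) (.br (nat_lit 0x400000600801c800000c010038411)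 k108 (.br (nat_lit 0x700000300400801c00060080f1c38511) k109 k110)))))
noncomputable def u5 : KT := (.one (nat_lit 0x801c0000000010038320))
def w5 : u5.all (wj 57 s5) = true := by decide +kernel
def o5 : OkW 57 (jb2 57 fl) u5 := .lift s5 _ (.br _ _ _ (.br _ _ _ (.br _ _ _ (.br _ _ _ (.leaf b0 k93 t93) (.leaf b0 k94 t94)) (.br _ _ _ (.leaf b0 k95 t95) (.leaf b0 k96 t96))) (.br _ _ _ (.br _ _ _ (.leaf b0 k97 t97) (.leaf b0 k98 t98)) (.br _ _ _ (.leaf b0 k99 t99) (.br _ _ _ (.leaf b0 k100 t100) (.leaf b0 k101 t101))))) (.br _ _ _ (.br _ _ _ (.br _ _ _ (.leaf b0 k102 t102) (.leaf b0 k103 t103)) (.br _ _ _ (.leaf b0 k104 t104) (.leaf b0 k105 t105))) (.br _ _ _ (.br _ _ _ (.leaf b0 k106 t106) (.leaf b0 k107 t107)) (.br _ _ _ (.leaf b0 k108 t108) (.br _ _ _ (.leaf b0 k109 t109) (.leaf b0 k110 t110)))))) w5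
noncomputable def k111 : KT := (.br (Nat.shiftLeft (nat_lit 0x80400f) (nat_lit 65)) (.br (Nat.shiftLeft (nat_lit 0x400f) (nat_lit 65)) (.one (nat_lit 0x801d000000001003b300)) (.br (Nat.shiftLeft (nat_lit 0x1) (nat_lit 88)) (.one (nat_lit 0x801e000000001003d300)) (.one (nat_lit 0x100801d000000201003a430)))) (.br (Nat.shiftLeft (nat_lit 0x100400f) (nat_lit 65)) (.br (Nat.shiftLeft (nat_lit 0x1) (nat_lit 89)) (.one (nat_lit 0x100801e000000201003c430)) (.one (nat_lit 0x200801d000000401003a430))) (.br (Nat.shiftLeft (nat_lit 0x3) (nat_lit 88)) (.one (nat_lit 0x200801e000000401003c430)) (.one (nat_lit 0x300801d000000601003b400)))))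
def t111 : k111.all (jb2 57 fl b0) = true := by decide +kernel
noncomputable def k112 : KT := (.br (Nat.shiftLeft (nat_lit 0x3) (nat_lit 89)) (.br (Nat.shiftLeft (nat_lit 0x200400f) (nat_lit 65)) (.br (Nat.shiftLeft (nat_lit 0x1) (nat_lit 90)) (.one (nat_lit 0x300801e000000601003c430)) (.one (nat_lit 0x400801d000000801003b400))) (.br (Nat.shiftLeft (nat_lit 0x5) (nat_lit 88)) (.one (nat_lit 0x400801e000000801003d400)) (.br (Nat.shiftLeft (nat_lit 0x280400f) (nat_lit 65)) (.one (nat_lit 0x500801d000000a01003b400)) (.one (nat_lit 0x500801e000000a01003d400))))) (.br (Nat.shiftLeft (nat_lit 0x380400f) (nat_lit 65)) (.br (Nat.shiftLeft (nat_lit 0x300400f) (nat_lit 65)) (.one (nat_lit 0x600801d000000c01003b400)) (.br (Nat.shiftLeft (nat_lit 0x7) (nat_lit 88)) (.one (nat_lit 0x600801e000000c01003d400)) (.one (nat_lit 0x700801d000000e01003b400)))) (.br (Nat.shiftLeft (nat_lit 0x1) (nat_lit 100)) (.one (nat_lit 0x700801e000000e01003d400)) (.br (Nat.shiftLeft (nat_lit 0x80000400f) (nat_lit 65)) (.one (nat_lit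 0x100000801d000200001003a311)) (.one (nat_lit 0x100000801e000200001003c311))))))
def t112 : k112.all (jb2 57 fl b0) = true := by decide +kernel
noncomputable def k113 : KT := (.br (Nat.shiftLeft (nat_lit 0x401) (nat_lit 90)) (.one (nat_lit 0x100300801d000200601003a540)) (.br (Nat.shiftLeft (nat_lit 0x80200400f) (nat_lit 65)) (.one (nat_lit 0x100400801d000200801003a540)) (.one (nat_lit 0x100400801e000200801003c540))))
def t113 : k113.all (jb2 57 fl b0) = true := by decide +kernel
noncomputable def k114 : KT := (.br (Nat.shiftLeft (nat_lit 0x80280400f) (nat_lit 65)) (.one (nat_lit 0x100500801d000200a01003a540)) (.br (Nat.shiftLeft (nat_lit 0x803) (nat_lit 89)) (.one (nat_lit 0x100500801e000200a01003c540)) (.one (nat_lit 0x100600801d000200c01003a540))))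
def t114 : k114.all (jb2 57 fl b0) = true := by decide +kernel
noncomputable def k115 : KT := (.br (Nat.shiftLeft (nat_lit 0x80380400f) (nat_lit 65)) (.br (Nat.shiftLeft (nat_lit 0x1007) (nat_lit 88)) (.one (nat_lit 0x100600801e000200c01003c540)) (.one (nat_lit 0x100700801d000200e01003a540))) (.br (Nat.shiftLeft (nat_lit 0x1) (nat_lit 101)) (.one (nat_lit 0x100700801e000200e01003c540)) (.br (Nat.shiftLeft (nat_lit 0x100000400f) (nat_lit 65)) (.one (nat_lit 0x200000801d000400001003a311)) (.one (nat_lit 0x200000801e000400001003c311)))))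
def t115 : k115.all (jb2 57 fl b0) = true := by decide +kernel
noncomputable def k116 : KT := (.one (nat_lit 0x200300801d000400601003a540))
def t116 : k116.all (jb2 57 fl b0) = true := by decide +kernel
noncomputable def k117 : KT := (.one (nat_lit 0x200400801d000400801003a540))
def t117 : k117.all (jb2 57 fl b0) = true := by decide +kernel
noncomputable def k118 : KT := (.one (nat_lit 0x200400801e000400801003c540))
def t118 : k118.all (jb2 57 fl b0) = true := by decide +kernel
noncomputable def k119 : KT := (.one (nat_lit 0x200500801d000400a01003a540))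
def t119 : k119.all (jb2 57 fl b0) = true := by decide +kernel
noncomputable def k120 : KT := (.br (Nat.shiftLeft (nat_lit 0x1003) (nat_lit 89)) (.one (nat_lit 0x200500801e000400a01003c540)) (.one (nat_lit 0x200600801d000400c01003a540)))
def t120 : k120.all (jb2 57 fl b0) = true := by decide +kernel
noncomputable def k121 : KT := (.br (Nat.shiftLeft (nat_lit 0x100380400f) (nat_lit 65)) (.br (Nat.shiftLeft (nat_lit 0x2007) (nat_lit 88)) (.one (nat_lit 0x200600801e000400c01003c540)) (.one (nat_lit 0x200700801d000400e01003a540))) (.br (Nat.shiftLeft (nat_lit 0x3) (nat_lit 100)) (.one (nat_lit 0x200700801e000400e01003c540)) (.br (Nat.shiftLeft (nat_lit 0x180000400f) (nat_lit 65)) (.one (nat_lit 0x300000801d000600001003a311)) (.one (nat_lit 0x300000801e000600001003c311)))))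
def t121 : k121.all (jb2 57 fl b0) = true := by decide +kernel
noncomputable def k122 : KT := (.one (nat_lit 0x300400801d000600801003a540))
def t122 : k122.all (jb2 57 fl b0) = true := by decide +kernel
noncomputable def k123 : KT := (.one (nat_lit 0x300400801e000600801003c540))
def t123 : k123.all (jb2 57 fl b0) = true := by decide +kernel
noncomputable def k124 : KT := (.one (nat_lit 0x300500801d000600a01003a540))
def t124 : k124.all (jb2 57 fl b0) = true := by decide +kernel
noncomputable def k125 : KT := (.one (nat_lit 0x300500801e000600a01003c540))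
def t125 : k125.all (jb2 57 fl b0) = true := by decide +kernel
noncomputable def k126 : KT := (.br (Nat.shiftLeft (nat_lit 0x180300400f) (nat_lit 65)) (.one (nat_lit 0x300600801d000600c01003a540)) (.one (nat_lit 0x300600801e000600c01003c540)))
def t126 : k126.all (jb2 57 fl b0) = true := by decide +kernel
noncomputable def k127 : KT := (.br (Nat.shiftLeft (nat_lit 0x1) (nat_lit 102)) (.br (Nat.shiftLeft (nat_lit 0x180380400f) (nat_lit 65)) (.one (nat_lit 0x300700801d000600e01003a540)) (.one (nat_lit 0x300700801e000600e01003c540))) (.br (Nat.shiftLeft (nat_lit 0x200000400f) (nat_lit 65)) (.one (nat_lit 0x400000801d000800001003a311)) (.one (nat_lit 0x400000801e000800001003c311))))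
def t127 : k127.all (jb2 57 fl b0) = true := by decide +kernel
noncomputable def k128 : KT := (.one (nat_lit 0x400500801d000800a01003a540))
def t128 : k128.all (jb2 57 fl b0) = true := by decide +kernel
noncomputable def k129 : KT := (.one (nat_lit 0x400500801e000800a01003c540))
def t129 : k129.all (jb2 57 fl b0) = true := by decide +kernel
noncomputable def k130 : KT := (.br (Nat.shiftLeft (nat_lit 0x200300400f) (nat_lit 65)) (.one (nat_lit 0x400600801d000800c01003a540)) (.one (nat_lit 0x400600801e000800c01003c540)))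
def t130 : k130.all (jb2 57 fl b0) = true := by decide +kernel
noncomputable def k131 : KT := (.br (Nat.shiftLeft (nat_lit 0x5) (nat_lit 100)) (.br (Nat.shiftLeft (nat_lit 0x200380400f) (nat_lit 65)) (.one (nat_lit 0x400700801d000800e01003a540)) (.one (nat_lit 0x400700801e000800e01003c540))) (.br (Nat.shiftLeft (nat_lit 0x280000400f) (nat_lit 65)) (.one (nat_lit 0x500000801d000a00001003a311)) (.one (nat_lit 0x500000801e000a00001003c311))))
def t131 : k131.all (jb2 57 fl b0) = true := by decide +kernel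
noncomputable def k132 : KT := (.br (Nat.shiftLeft (nat_lit 0x280300400f) (nat_lit 65)) (.one (nat_lit 0x500600801d000a00c01003a540)) (.br (Nat.shiftLeft (nat_lit 0x5007) (nat_lit 88)) (.one (nat_lit 0x500600801e000a00c01003c540)) (.one (nat_lit 0x500700801d000a00e01003a540))))
def t132 : k132.all (jb2 57 fl b0) = true := by decide +kernel
noncomputable def k133 : KT := (.br (Nat.shiftLeft (nat_lit 0x100000200400f) (nat_lit 65)) (.br (Nat.shiftLeft (nat_lit 0x400001) (nat_lit 90)) (.br (Nat.shiftLeft (nat_lit 0x7) (nat_lit 100)) (.br (Nat.shiftLeft (nat_lit 0x300000400f) (nat_lit 65)) (.br (Nat.shiftLeft (nat_lit 0x3) (nat_lit 101)) (.one (nat_lit 0x500700801e000a00e01003c540)) (.one (nat_lit 0x600000801d000c00001003a311))) (.br (Nat.shiftLeft (nat_lit 0x1801) (nat_lit 90)) (.one (nat_lit 0x600000801e000c00001003c311)) (.br (Nat.shiftLeft (nat_lit 0x300380400f) (nat_lit 65)) (.one (nat_lit 0x600700801d000c00e01003a540)) (.one (nat_lit 0x600700801e000c00e01003c540))))) (.br (Nat.shiftLeft (nat_lit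 0x1) (nat_lit 103)) (.br (Nat.shiftLeft (nat_lit 0x380000400f) (nat_lit 65)) (.one (nat_lit 0x700000801d000e00001003a311)) (.one (nat_lit 0x700000801e000e00001003c311))) (.br (Nat.shiftLeft (nat_lit 0x400000400f) (nat_lit 65)) (.one (nat_lit 0x800000801d001000001003a311)) (.br (Nat.shiftLeft (nat_lit 0x1) (nat_lit 112)) (.one (nat_lit 0x800000801e001000001003c311)) (.one (nat_lit 0x100000300801d200000601003a411)))))) (.br (Nat.shiftLeft (nat_lit 0x80000300400f) (nat_lit 65)) (.br (Nat.shiftLeft (nat_lit 0x1000005) (nat_lit 88)) (.br (Nat.shiftLeft (nat_lit 0x80000200400f) (nat_lit 65)) (.one (nat_lit 0x100000400801d200000801003a411)) (.one (nat_lit 0x100000400801e200000801003c411))) (.br (Nat.shiftLeft (nat_lit 0x80000280400f) (nat_lit 65)) (.one (nat_lit 0x100000500801d200000a01003a411)) (.br (Nat.shiftLeft (nat_lit 0x800003) (nat_lit 89)) (.one (nat_lit 0x100000500801e200000a01003c411)) (.one (nat_lit 0x100000600801d200000c01003a411))))) (.br (Nat.shiftLeft (nat_lit 0x80000380400f) (nat_lit 65))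 (.br (Nat.shiftLeft (nat_lit 0x1000007) (nat_lit 88)) (.one (nat_lit 0x100000600801e200000c01003c411)) (.one (nat_lit 0x100000700801d200000e01003a411))) (.br (Nat.shiftLeft (nat_lit 0x1) (nat_lit 113)) (.one (nat_lit 0x100000700801e200000e01003c411)) (.br (Nat.shiftLeft (nat_lit 0x800001) (nat_lit 90)) (.one (nat_lit 0x200000300801d400000601003a411)) (.one (nat_lit 0x200000400801d400000801003a411))))))) (.br (Nat.shiftLeft (nat_lit 0x3000005) (nat_lit 88)) (.br (Nat.shiftLeft (nat_lit 0x2000007) (nat_lit 88)) (.br (Nat.shiftLeft (nat_lit 0x100000280400f) (nat_lit 65)) (.br (Nat.shiftLeft (nat_lit 0x2000005) (nat_lit 88)) (.one (nat_lit 0x200000400801e400000801003c411)) (.one (nat_lit 0x200000500801d400000a01003a411))) (.br (Nat.shiftLeft (nat_lit 0x1000003) (nat_lit 89)) (.one (nat_lit 0x200000500801e400000a01003c411)) (.br (Nat.shiftLeft (nat_lit 0x100000300400f) (nat_lit 65)) (.one (nat_lit 0x200000600801d400000c01003a411)) (.one (nat_lit 0x200000600801e400000c01003c411))))) (.br (Nat.shiftLeft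 (nat_lit 0x3) (nat_lit 112)) (.br (Nat.shiftLeft (nat_lit 0x100000380400f) (nat_lit 65)) (.one (nat_lit 0x200000700801d400000e01003a411)) (.one (nat_lit 0x200000700801e400000e01003c411))) (.br (Nat.shiftLeft (nat_lit 0xc00001) (nat_lit 90)) (.one (nat_lit 0x300000300801d600000601003a411)) (.br (Nat.shiftLeft (nat_lit 0x180000200400f) (nat_lit 65)) (.one (nat_lit 0x300000400801d600000801003a411)) (.one (nat_lit 0x300000400801e600000801003c411)))))) (.br (Nat.shiftLeft (nat_lit 0x180000380400f) (nat_lit 65)) (.br (Nat.shiftLeft (nat_lit 0x1800003) (nat_lit 89)) (.br (Nat.shiftLeft (nat_lit 0x180000280400f) (nat_lit 65)) (.one (nat_lit 0x300000500801d600000a01003a411)) (.one (nat_lit 0x300000500801e600000a01003c411))) (.br (Nat.shiftLeft (nat_lit 0x180000300400f) (nat_lit 65)) (.one (nat_lit 0x300000600801d600000c01003a411)) (.br (Nat.shiftLeft (nat_lit 0x3000007) (nat_lit 88)) (.one (nat_lit 0x300000600801e600000c01003c411)) (.one (nat_lit 0x300000700801d600000e01003a411))))) (.br (Nat.shiftLeft (nat_lit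 0x1000001) (nat_lit 90)) (.br (Nat.shiftLeft (nat_lit 0x1) (nat_lit 114)) (.one (nat_lit 0x300000700801e600000e01003c411)) (.one (nat_lit 0x400000300801d800000601003a411))) (.br (Nat.shiftLeft (nat_lit 0x200000200400f) (nat_lit 65)) (.one (nat_lit 0x400000400801d800000801003a411)) (.br (Nat.shiftLeft (nat_lit 0x4000005) (nat_lit 88)) (.one (nat_lit 0x400000400801e800000801003c411)) (.one (nat_lit 0x400000500801d800000a01003a411))))))))
def t133 : k133.all (jb2 57 fl b0) = true := by decide +kernel
noncomputable def k134 : KT := (.br (Nat.shiftLeft (nat_lit 0x6000005) (nat_lit 88)) (.br (Nat.shiftLeft (nat_lit 0x5000005) (nat_lit 88)) (.br (Nat.shiftLeft (nat_lit 0x200000380400f) (nat_lit 65)) (.br (Nat.shiftLeft (nat_lit 0x200000300400f) (nat_lit 65)) (.br (Nat.shiftLeft (nat_lit 0x2000003) (nat_lit 89)) (.one (nat_lit 0x400000500801e800000a01003c411)) (.one (nat_lit 0x400000600801d800000c01003a411))) (.br (Nat.shiftLeft (nat_lit 0x4000007) (nat_lit 88)) (.one (nat_lit 0x400000600801e800000c01003c411))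 (.one (nat_lit 0x400000700801d800000e01003a411)))) (.br (Nat.shiftLeft (nat_lit 0x1400001) (nat_lit 90)) (.br (Nat.shiftLeft (nat_lit 0x5) (nat_lit 112)) (.one (nat_lit 0x400000700801e800000e01003c411)) (.one (nat_lit 0x500000300801da00000601003a411))) (.br (Nat.shiftLeft (nat_lit 0x280000200400f) (nat_lit 65)) (.one (nat_lit 0x500000400801da00000801003a411)) (.one (nat_lit 0x500000400801ea00000801003c411))))) (.br (Nat.shiftLeft (nat_lit 0x5000007) (nat_lit 88)) (.br (Nat.shiftLeft (nat_lit 0x2800003) (nat_lit 89)) (.br (Nat.shiftLeft (nat_lit 0x280000280400f) (nat_lit 65)) (.one (nat_lit 0x500000500801da00000a01003a411)) (.one (nat_lit 0x500000500801ea00000a01003c411))) (.br (Nat.shiftLeft (nat_lit 0x280000300400f) (nat_lit 65)) (.one (nat_lit 0x500000600801da00000c01003a411)) (.one (nat_lit 0x500000600801ea00000c01003c411)))) (.br (Nat.shiftLeft (nat_lit 0x3) (nat_lit 113)) (.br (Nat.shiftLeft (nat_lit 0x280000380400f) (nat_lit 65)) (.one (nat_lit 0x500000700801da00000e01003a411)) (.one (nat_lit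 0x500000700801ea00000e01003c411))) (.br (Nat.shiftLeft (nat_lit 0x1800001) (nat_lit 90)) (.one (nat_lit 0x600000300801dc00000601003a411)) (.br (Nat.shiftLeft (nat_lit 0x300000200400f) (nat_lit 65)) (.one (nat_lit 0x600000400801dc00000801003a411)) (.one (nat_lit 0x600000400801ec00000801003c411))))))) (.br (Nat.shiftLeft (nat_lit 0x7000005) (nat_lit 88)) (.br (Nat.shiftLeft (nat_lit 0x6000007) (nat_lit 88)) (.br (Nat.shiftLeft (nat_lit 0x3000003) (nat_lit 89)) (.br (Nat.shiftLeft (nat_lit 0x300000280400f) (nat_lit 65)) (.one (nat_lit 0x600000500801dc00000a01003a411)) (.one (nat_lit 0x600000500801ec00000a01003c411))) (.br (Nat.shiftLeft (nat_lit 0x300000300400f) (nat_lit 65)) (.one (nat_lit 0x600000600801dc00000c01003a411)) (.one (nat_lit 0x600000600801ec00000c01003c411)))) (.br (Nat.shiftLeft (nat_lit 0x7) (nat_lit 112)) (.br (Nat.shiftLeft (nat_lit 0x300000380400f) (nat_lit 65)) (.one (nat_lit 0x600000700801dc00000e01003a411)) (.one (nat_lit 0x600000700801ec00000e01003c411))) (.br (Nat.shiftLeft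 (nat_lit 0x1c00001) (nat_lit 90)) (.one (nat_lit 0x700000300801de00000601003a411)) (.br (Nat.shiftLeft (nat_lit 0x380000200400f) (nat_lit 65)) (.one (nat_lit 0x700000400801de00000801003a411)) (.one (nat_lit 0x700000400801ee00000801003c411)))))) (.br (Nat.shiftLeft (nat_lit 0x7000007) (nat_lit 88)) (.br (Nat.shiftLeft (nat_lit 0x3800003) (nat_lit 89)) (.br (Nat.shiftLeft (nat_lit 0x380000280400f) (nat_lit 65)) (.one (nat_lit 0x700000500801de00000a01003a411)) (.one (nat_lit 0x700000500801ee00000a01003c411))) (.br (Nat.shiftLeft (nat_lit 0x380000300400f) (nat_lit 65)) (.one (nat_lit 0x700000600801de00000c01003a411)) (.one (nat_lit 0x700000600801ee00000c01003c411)))) (.br (Nat.shiftLeft (nat_lit 0x1) (nat_lit 115)) (.br (Nat.shiftLeft (nat_lit 0x380000380400f) (nat_lit 65)) (.one (nat_lit 0x700000700801de00000e01003a411)) (.one (nat_lit 0x700000700801ee00000e01003c411))) (.br (Nat.shiftLeft (nat_lit 0x2000001) (nat_lit 90)) (.one (nat_lit 0x800000300801d000000601013c411)) (.br (Nat.shiftLeft (nat_lit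 0x400000200400f) (nat_lit 65)) (.one (nat_lit 0x800000400801d000000801013c411)) (.one (nat_lit 0x800000400801e000000801013e411))))))))
def t134 : k134.all (jb2 57 fl b0) = true := by decide +kernel
noncomputable def k135 : KT := (.br (Nat.shiftLeft (nat_lit 0x400000300400f) (nat_lit 65)) (.br (Nat.shiftLeft (nat_lit 0x400000280400f) (nat_lit 65)) (.one (nat_lit 0x800000500801d000000a01013c411)) (.br (Nat.shiftLeft (nat_lit 0x4000003) (nat_lit 89)) (.one (nat_lit 0x800000500801e000000a01013e411)) (.one (nat_lit 0x800000600801d000000c01013c411)))) (.br (Nat.shiftLeft (nat_lit 0x8000007) (nat_lit 88)) (.one (nat_lit 0x800000600801e000000c01013e411)) (.br (Nat.shiftLeft (nat_lit 0x400000380400f) (nat_lit 65)) (.one (nat_lit 0x800000700801d000000e01013c411)) (.one (nat_lit 0x800000700801e000000e01013e411)))))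
def t135 : k135.all (jb2 57 fl b0) = true := by decide +kernel
noncomputable def s6 : KT := (.br (nat_lit 0x300400801d000600801003a540) (.br (nat_lit 0x200300801d000400601003a540) (.br (nat_lit 0x100400801e000200801003c540) (.br (nat_lit 0x300801d000000601003b400) k111 (.br (nat_lit 0x100000801e000200001003c311) k112 k113)) (.br (nat_lit 0x100600801d000200c01003a540) k114 (.br (nat_lit 0x200000801e000400001003c311) k115 k116))) (.br (nat_lit 0x200500801d000400a01003a540) (.br (nat_lit 0x200400801d000400801003a540) k117 (.br (nat_lit 0x200400801e000400801003c540) k118 k119)) (.br (nat_lit 0x200600801d000400c01003a540) k120 (.br (nat_lit 0x300000801e000600001003c311) k121 k122)))) (.br (nat_lit 0x400500801d000800a01003a540) (.br (nat_lit 0x300500801e000600a01003c540) (.br (nat_lit 0x300400801e000600801003c540) k123 (.br (nat_lit 0x300500801d000600a01003a540) k124 k125)) (.br (nat_lit 0x300600801e000600c01003c540) k126 (.br (nat_lit 0x400000801e000800001003c311) k127 k128))) (.br (nat_lit 0x500000801e000a00001003c311)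 (.br (nat_lit 0x400500801e000800a01003c540) k129 (.br (nat_lit 0x400600801e000800c01003c540) k130 k131)) (.br (nat_lit 0x400000500801d800000a01003a411) (.br (nat_lit 0x500700801d000a00e01003a540) k132 k133) (.br (nat_lit 0x800000400801e000000801013e411) k134 k135)))))
noncomputable def u6 : KT := (.br (Nat.shiftLeft (nat_lit 0x400f) (nat_lit 65)) (.one (nat_lit 0x801d000000001003a320)) (.one (nat_lit 0x801e000000001003c320)))
def w6 : u6.all (wj 57 s6) = true := by decide +kernel
def o6 : OkW 57 (jb2 57 fl) u6 := .lift s6 _ (.br _ _ _ (.br _ _ _ (.br _ _ _ (.br _ _ _ (.leaf b0 k111 t111) (.br _ _ _ (.leaf b0 k112 t112) (.leaf b0 k113 t113))) (.br _ _ _ (.leaf b0 k114 t114) (.br _ _ _ (.leaf b0 k115 t115) (.leaf b0 k116 t116)))) (.br _ _ _ (.br _ _ _ (.leaf b0 k117 t117) (.br _ _ _ (.leaf b0 k118 t118) (.leaf b0 k119 t119))) (.br _ _ _ (.leaf b0 k120 t120) (.br _ _ _ (.leaf b0 k121 t121) (.leaf b0 k122 t122))))) (.br _ _ _ (.br _ _ _ (.br _ _ _ (.leaf b0 k123 t123) (.br _ _ _ (.leaf b0 k124 t124)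 (.leaf b0 k125 t125))) (.br _ _ _ (.leaf b0 k126 t126) (.br _ _ _ (.leaf b0 k127 t127) (.leaf b0 k128 t128)))) (.br _ _ _ (.br _ _ _ (.leaf b0 k129 t129) (.br _ _ _ (.leaf b0 k130 t130) (.leaf b0 k131 t131))) (.br _ _ _ (.br _ _ _ (.leaf b0 k132 t132) (.leaf b0 k133 t133)) (.br _ _ _ (.leaf b0 k134 t134) (.leaf b0 k135 t135)))))) w6
noncomputable def k136 : KT := (.br (Nat.shiftLeft (nat_lit 0x480d) (nat_lit 65)) (.br (Nat.shiftLeft (nat_lit 0x9) (nat_lit 76)) (.br (Nat.shiftLeft (nat_lit 0x401) (nat_lit 69)) (.one (nat_lit 0x801f000000001003f300)) (.br (Nat.shiftLeft (nat_lit 0x8021) (nat_lit 64)) (.one (nat_lit 0x80200000000010041300)) (.one (nat_lit 0x80210000000010043300)))) (.br (Nat.shiftLeft (nat_lit 0x1203) (nat_lit 67)) (.one (nat_lit 0x9017000000001202f300)) (.br (Nat.shiftLeft (nat_lit 0x9019) (nat_lit 64)) (.one (nat_lit 0x90180000000012031300)) (.one (nat_lit 0x90190000000012033300))))) (.br (Nat.shiftLeft (nat_lit 0x1008021) (nat_lit 64)) (.br (Nat.shiftLeft (nat_lit 0x1) (nat_lit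 88)) (.one (nat_lit 0x901a0000000012035300)) (.br (Nat.shiftLeft (nat_lit 0x80401) (nat_lit 69)) (.one (nat_lit 0x100801f000000201003e430)) (.one (nat_lit 0x10080200000002010040430)))) (.br (Nat.shiftLeft (nat_lit 0x100401) (nat_lit 69)) (.br (Nat.shiftLeft (nat_lit 0x1) (nat_lit 89)) (.one (nat_lit 0x10080210000002010042430)) (.one (nat_lit 0x200801f000000401003e430))) (.br (Nat.shiftLeft (nat_lit 0x2008021) (nat_lit 64)) (.one (nat_lit 0x20080200000004010040430)) (.one (nat_lit 0x20080210000004010042430))))))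
def t136 : k136.all (jb2 57 fl b0) = true := by decide +kernel
noncomputable def k137 : KT := (.one (nat_lit 0x300801f000000601003e430))
def t137 : k137.all (jb2 57 fl b0) = true := by decide +kernel
noncomputable def k138 : KT := (.one (nat_lit 0x30080200000006010040430))
def t138 : k138.all (jb2 57 fl b0) = true := by decide +kernel
noncomputable def k139 : KT := (.br (Nat.shiftLeft (nat_lit 0x1) (nat_lit 90)) (.one (nat_lit 0x30080210000006010042430)) (.br (Nat.shiftLeft (nat_lit 0x200401) (nat_lit 69)) (.one (nat_lit 0x400801f000000801003f400)) (.one (nat_lit 0x40080200000008010041400))))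
def t139 : k139.all (jb2 57 fl b0) = true := by decide +kernel
noncomputable def k140 : KT := (.br (Nat.shiftLeft (nat_lit 0x5) (nat_lit 88)) (.one (nat_lit 0x40080210000008010042430)) (.br (Nat.shiftLeft (nat_lit 0x280401) (nat_lit 69)) (.one (nat_lit 0x500801f000000a01003f400)) (.one (nat_lit 0x5008020000000a010041400))))
def t140 : k140.all (jb2 57 fl b0) = true := by decide +kernel
noncomputable def k141 : KT := (.br (Nat.shiftLeft (nat_lit 0x3) (nat_lit 89)) (.one (nat_lit 0x5008021000000a010042430)) (.one (nat_lit 0x600801f000000c01003f400)))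
def t141 : k141.all (jb2 57 fl b0) = true := by decide +kernel
noncomputable def k142 : KT := (.one (nat_lit 0x6008020000000c010040430))
def t142 : k142.all (jb2 57 fl b0) = true := by decide +kernel
noncomputable def k143 : KT := (.one (nat_lit 0x6008021000000c010042430))
def t143 : k143.all (jb2 57 fl b0) = true := by decide +kernel
noncomputable def k144 : KT := (.one (nat_lit 0x700801f000000e01003e430))
def t144 : k144.all (jb2 57 fl b0) = true := by decide +kernel
noncomputable def k145 : KT := (.one (nat_lit 0x7008020000000e010040430))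
def t145 : k145.all (jb2 57 fl b0) = true := by decide +kernel
noncomputable def k146 : KT := (.br (Nat.shiftLeft (nat_lit 0x1000008021) (nat_lit 64)) (.br (Nat.shiftLeft (nat_lit 0x1) (nat_lit 100)) (.one (nat_lit 0x7008021000000e010042430)) (.br (Nat.shiftLeft (nat_lit 0x80000401) (nat_lit 69)) (.one (nat_lit 0x100000801f000200001003e311)) (.one (nat_lit 0x10000080200002000010040311)))) (.br (Nat.shiftLeft (nat_lit 0x401) (nat_lit 90)) (.one (nat_lit 0x10000080210002000010042311)) (.br (Nat.shiftLeft (nat_lit 0x80200401) (nat_lit 69)) (.one (nat_lit 0x100400801f000200801003e540)) (.one (nat_lit 0x10040080200002008010040540)))))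
def t146 : k146.all (jb2 57 fl b0) = true := by decide +kernel
noncomputable def k147 : KT := (.br (Nat.shiftLeft (nat_lit 0x1) (nat_lit 101)) (.br (Nat.shiftLeft (nat_lit 0x80280401) (nat_lit 69)) (.one (nat_lit 0x100500801f000200a01003e540)) (.br (Nat.shiftLeft (nat_lit 0x803) (nat_lit 89)) (.one (nat_lit 0x1005008020000200a010040540)) (.one (nat_lit 0x100600801f000200c01003e540)))) (.br (Nat.shiftLeft (nat_lit 0x100000401) (nat_lit 69)) (.one (nat_lit 0x200000801f000400001003e311)) (.br (Nat.shiftLeft (nat_lit 0x2000008021) (nat_lit 64)) (.one (nat_lit 0x20000080200004000010040311)) (.one (nat_lit 0x20000080210004000010042311)))))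
def t147 : k147.all (jb2 57 fl b0) = true := by decide +kernel
noncomputable def k148 : KT := (.br (Nat.shiftLeft (nat_lit 0x100200401) (nat_lit 69)) (.one (nat_lit 0x200400801f000400801003e540)) (.one (nat_lit 0x20040080200004008010040540)))
def t148 : k148.all (jb2 57 fl b0) = true := by decide +kernel
noncomputable def k149 : KT := (.br (Nat.shiftLeft (nat_lit 0x3) (nat_lit 100)) (.br (Nat.shiftLeft (nat_lit 0x100280401) (nat_lit 69)) (.one (nat_lit 0x200500801f000400a01003e540)) (.br (Nat.shiftLeft (nat_lit 0x1003) (nat_lit 89)) (.one (nat_lit 0x2005008020000400a010040540)) (.one (nat_lit 0x200600801f000400c01003e540)))) (.br (Nat.shiftLeft (nat_lit 0x180000401) (nat_lit 69)) (.one (nat_lit 0x300000801f000600001003e311)) (.br (Nat.shiftLeft (nat_lit 0x3000008021) (nat_lit 64)) (.one (nat_lit 0x30000080200006000010040311)) (.one (nat_lit 0x30000080210006000010042311)))))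
def t149 : k149.all (jb2 57 fl b0) = true := by decide +kernel
noncomputable def k150 : KT := (.br (Nat.shiftLeft (nat_lit 0x180200401) (nat_lit 69)) (.one (nat_lit 0x300400801f000600801003e540)) (.one (nat_lit 0x30040080200006008010040540)))
def t150 : k150.all (jb2 57 fl b0) = true := by decide +kernel
noncomputable def k151 : KT := (.br (Nat.shiftLeft (nat_lit 0x1) (nat_lit 102)) (.br (Nat.shiftLeft (nat_lit 0x180280401) (nat_lit 69)) (.one (nat_lit 0x300500801f000600a01003e540)) (.br (Nat.shiftLeft (nat_lit 0x1803) (nat_lit 89)) (.one (nat_lit 0x3005008020000600a010040540)) (.one (nat_lit 0x300600801f000600c01003e540)))) (.br (Nat.shiftLeft (nat_lit 0x200000401) (nat_lit 69)) (.one (nat_lit 0x400000801f000800001003e311)) (.br (Nat.shiftLeft (nat_lit 0x4000008021) (nat_lit 64)) (.one (nat_lit 0x40000080200008000010040311)) (.one (nat_lit 0x40000080210008000010042311)))))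
def t151 : k151.all (jb2 57 fl b0) = true := by decide +kernel
noncomputable def k152 : KT := (.br (Nat.shiftLeft (nat_lit 0x5) (nat_lit 100)) (.br (Nat.shiftLeft (nat_lit 0x200280401) (nat_lit 69)) (.one (nat_lit 0x400500801f000800a01003e540)) (.br (Nat.shiftLeft (nat_lit 0x2003) (nat_lit 89)) (.one (nat_lit 0x4005008020000800a010040540)) (.one (nat_lit 0x400600801f000800c01003e540)))) (.br (Nat.shiftLeft (nat_lit 0x280000401) (nat_lit 69)) (.one (nat_lit 0x500000801f000a00001003e311)) (.br (Nat.shiftLeft (nat_lit 0x5000008021) (nat_lit 64)) (.one (nat_lit 0x5000008020000a000010040311)) (.one (nat_lit 0x5000008021000a000010042311)))))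
def t152 : k152.all (jb2 57 fl b0) = true := by decide +kernel
noncomputable def k153 : KT := (.br (Nat.shiftLeft (nat_lit 0x3) (nat_lit 112)) (.br (Nat.shiftLeft (nat_lit 0x1) (nat_lit 112)) (.br (Nat.shiftLeft (nat_lit 0x380000401) (nat_lit 69)) (.br (Nat.shiftLeft (nat_lit 0x300000401) (nat_lit 69)) (.br (Nat.shiftLeft (nat_lit 0x3) (nat_lit 101)) (.one (nat_lit 0x500600801f000a00c01003e540)) (.one (nat_lit 0x600000801f000c00001003e311))) (.br (Nat.shiftLeft (nat_lit 0x6000008021) (nat_lit 64)) (.one (nat_lit 0x6000008020000c000010040311)) (.br (Nat.shiftLeft (nat_lit 0x7) (nat_lit 100)) (.one (nat_lit 0x6000008021000c000010042311)) (.one (nat_lit 0x700000801f000e00001003e311))))) (.br (Nat.shiftLeft (nat_lit 0x1) (nat_lit 103)) (.br (Nat.shiftLeft (nat_lit 0x7000008021) (nat_lit 64)) (.one (nat_lit 0x7000008020000e000010040311)) (.one (nat_lit 0x7000008021000e000010042311))) (.br (Nat.shiftLeft (nat_lit 0x400000401) (nat_lit 69)) (.one (nat_lit 0x800000801f001000001003e311)) (.br (Nat.shiftLeft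 (nat_lit 0x8000008021) (nat_lit 64)) (.one (nat_lit 0x80000080200010000010040311)) (.one (nat_lit 0x80000080210010000010042311)))))) (.br (Nat.shiftLeft (nat_lit 0x1) (nat_lit 113)) (.br (Nat.shiftLeft (nat_lit 0x1000005) (nat_lit 88)) (.br (Nat.shiftLeft (nat_lit 0x80000200401) (nat_lit 69)) (.one (nat_lit 0x100000400801f200000801003e411)) (.one (nat_lit 0x10000040080202000008010040411))) (.br (Nat.shiftLeft (nat_lit 0x80000280401) (nat_lit 69)) (.one (nat_lit 0x100000500801f200000a01003e411)) (.br (Nat.shiftLeft (nat_lit 0x800003) (nat_lit 89)) (.one (nat_lit 0x1000005008020200000a010040411)) (.one (nat_lit 0x100000600801f200000c01003e411))))) (.br (Nat.shiftLeft (nat_lit 0x2000005) (nat_lit 88)) (.br (Nat.shiftLeft (nat_lit 0x100000200401) (nat_lit 69)) (.one (nat_lit 0x200000400801f400000801003e411)) (.one (nat_lit 0x20000040080204000008010040411))) (.br (Nat.shiftLeft (nat_lit 0x100000280401) (nat_lit 69)) (.one (nat_lit 0x200000500801f400000a01003e411)) (.br (Nat.shiftLeft (nat_lit 0x1000003)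 (nat_lit 89)) (.one (nat_lit 0x2000005008020400000a010040411)) (.one (nat_lit 0x200000600801f400000c01003e411))))))) (.br (Nat.shiftLeft (nat_lit 0x5) (nat_lit 112)) (.br (Nat.shiftLeft (nat_lit 0x1) (nat_lit 114)) (.br (Nat.shiftLeft (nat_lit 0x3000005) (nat_lit 88)) (.br (Nat.shiftLeft (nat_lit 0x180000200401) (nat_lit 69)) (.one (nat_lit 0x300000400801f600000801003e411)) (.one (nat_lit 0x30000040080206000008010040411))) (.br (Nat.shiftLeft (nat_lit 0x180000280401) (nat_lit 69)) (.one (nat_lit 0x300000500801f600000a01003e411)) (.br (Nat.shiftLeft (nat_lit 0x1800003) (nat_lit 89)) (.one (nat_lit 0x3000005008020600000a010040411)) (.one (nat_lit 0x300000600801f600000c01003e411))))) (.br (Nat.shiftLeft (nat_lit 0x4000005) (nat_lit 88)) (.br (Nat.shiftLeft (nat_lit 0x200000200401) (nat_lit 69)) (.one (nat_lit 0x400000400801f800000801003e411)) (.one (nat_lit 0x40000040080208000008010040411))) (.br (Nat.shiftLeft (nat_lit 0x200000280401) (nat_lit 69)) (.one (nat_lit 0x400000500801f800000a01003e411))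 (.br (Nat.shiftLeft (nat_lit 0x2000003) (nat_lit 89)) (.one (nat_lit 0x4000005008020800000a010040411)) (.one (nat_lit 0x400000600801f800000c01003e411)))))) (.br (Nat.shiftLeft (nat_lit 0x3) (nat_lit 113)) (.br (Nat.shiftLeft (nat_lit 0x5000005) (nat_lit 88)) (.br (Nat.shiftLeft (nat_lit 0x280000200401) (nat_lit 69)) (.one (nat_lit 0x500000400801fa00000801003e411)) (.one (nat_lit 0x5000004008020a000008010040411))) (.br (Nat.shiftLeft (nat_lit 0x280000280401) (nat_lit 69)) (.one (nat_lit 0x500000500801fa00000a01003e411)) (.br (Nat.shiftLeft (nat_lit 0x2800003) (nat_lit 89)) (.one (nat_lit 0x5000005008020a00000a010040411)) (.one (nat_lit 0x500000600801fa00000c01003e411))))) (.br (Nat.shiftLeft (nat_lit 0x6000005) (nat_lit 88)) (.br (Nat.shiftLeft (nat_lit 0x300000200401) (nat_lit 69)) (.one (nat_lit 0x600000400801fc00000801003e411)) (.one (nat_lit 0x6000004008020c000008010040411))) (.br (Nat.shiftLeft (nat_lit 0x300000280401) (nat_lit 69)) (.one (nat_lit 0x600000500801fc00000a01003e411)) (.br (Nat.shiftLeft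 (nat_lit 0x3000003) (nat_lit 89)) (.one (nat_lit 0x6000005008020c00000a010040411)) (.one (nat_lit 0x600000600801fc00000c01003e411))))))))
def t153 : k153.all (jb2 57 fl b0) = true := by decide +kernel
noncomputable def k154 : KT := (.br (Nat.shiftLeft (nat_lit 0x1) (nat_lit 115)) (.br (Nat.shiftLeft (nat_lit 0x7000005) (nat_lit 88)) (.br (Nat.shiftLeft (nat_lit 0x380000200401) (nat_lit 69)) (.one (nat_lit 0x700000400801fe00000801003e411)) (.one (nat_lit 0x7000004008020e000008010040411))) (.br (Nat.shiftLeft (nat_lit 0x380000280401) (nat_lit 69)) (.one (nat_lit 0x700000500801fe00000a01003e411)) (.br (Nat.shiftLeft (nat_lit 0x3800003) (nat_lit 89)) (.one (nat_lit 0x7000005008020e00000a010040411)) (.one (nat_lit 0x700000600801fe00000c01003e411))))) (.br (Nat.shiftLeft (nat_lit 0x8000005) (nat_lit 88)) (.br (Nat.shiftLeft (nat_lit 0x400000200401) (nat_lit 69)) (.one (nat_lit 0x800000400801f0000008010140411)) (.one (nat_lit 0x80000040080200000008010142411))) (.br (Nat.shiftLeft (nat_lit 0x400000280401)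 (nat_lit 69)) (.one (nat_lit 0x800000500801f000000a010140411)) (.br (Nat.shiftLeft (nat_lit 0x4000003) (nat_lit 89)) (.one (nat_lit 0x8000005008020000000a010142411)) (.one (nat_lit 0x800000600801f000000c010140411))))))
def t154 : k154.all (jb2 57 fl b0) = true := by decide +kernel
noncomputable def s7 : KT := (.br (nat_lit 0x700801f000000e01003e430) (.br (nat_lit 0x40080200000008010041400) (.br (nat_lit 0x300801f000000601003e430) (.br (nat_lit 0x20080210000004010042430) k136 k137) (.br (nat_lit 0x30080200000006010040430) k138 k139)) (.br (nat_lit 0x600801f000000c01003f400) (.br (nat_lit 0x5008020000000a010041400) k140 k141) (.br (nat_lit 0x6008020000000c010040430) k142 (.br (nat_lit 0x6008021000000c010042430) k143 k144)))) (.br (nat_lit 0x30000080210006000010042311) (.br (nat_lit 0x10040080200002008010040540) (.br (nat_lit 0x7008020000000e010040430) k145 k146) (.br (nat_lit 0x20000080210004000010042311) k147 (.br (nat_lit 0x20040080200004008010040540) k148 k149))) (.br (nat_lit 0x40000080210008000010042311)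 (.br (nat_lit 0x30040080200006008010040540) k150 k151) (.br (nat_lit 0x5000008021000a000010042311) k152 (.br (nat_lit 0x600000600801fc00000c01003e411) k153 k154)))))
noncomputable def u7 : KT := (.br (Nat.shiftLeft (nat_lit 0x9) (nat_lit 76)) (.br (Nat.shiftLeft (nat_lit 0x401) (nat_lit 69)) (.one (nat_lit 0x801f000000001003e320)) (.br (Nat.shiftLeft (nat_lit 0x8021) (nat_lit 64)) (.one (nat_lit 0x80200000000010040320)) (.one (nat_lit 0x80210000000010042320)))) (.br (Nat.shiftLeft (nat_lit 0x9019) (nat_lit 64)) (.br (Nat.shiftLeft (nat_lit 0x1203) (nat_lit 67)) (.one (nat_lit 0x9017000000001202f300)) (.one (nat_lit 0x90180000000012031300))) (.br (Nat.shiftLeft (nat_lit 0x480d) (nat_lit 65)) (.one (nat_lit 0x90190000000012033300)) (.one (nat_lit 0x901a0000000012035300)))))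
def w7 : u7.all (wj 57 s7) = true := by decide +kernel
def o7 : OkW 57 (jb2 57 fl) u7 := .lift s7 _ (.br _ _ _ (.br _ _ _ (.br _ _ _ (.br _ _ _ (.leaf b0 k136 t136) (.leaf b0 k137 t137)) (.br _ _ _ (.leaf b0 k138 t138) (.leaf b0 k139 t139))) (.br _ _ _ (.br _ _ _ (.leaf b0 k140 t140) (.leaf b0 k141 t141)) (.br _ _ _ (.leaf b0 k142 t142) (.br _ _ _ (.leaf b0 k143 t143) (.leaf b0 k144 t144))))) (.br _ _ _ (.br _ _ _ (.br _ _ _ (.leaf b0 k145 t145) (.leaf b0 k146 t146)) (.br _ _ _ (.leaf b0 k147 t147) (.br _ _ _ (.leaf b0 k148 t148) (.leaf b0 k149 t149)))) (.br _ _ _ (.br _ _ _ (.leaf b0 k150 t150) (.leaf b0 k151 t151)) (.br _ _ _ (.leaf b0 k152 t152) (.br _ _ _ (.leaf b0 k153 t153) (.leaf b0 k154 t154)))))) w7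
noncomputable def k155 : KT := (.br (Nat.shiftLeft (nat_lit 0x5) (nat_lit 88)) (.br (Nat.shiftLeft (nat_lit 0x1) (nat_lit 89)) (.br (Nat.shiftLeft (nat_lit 0x1) (nat_lit 88)) (.one (nat_lit 0x901b0000000012037300)) (.one (nat_lit 0x100901b0000002012036430))) (.br (Nat.shiftLeft (nat_lit 0x3) (nat_lit 88)) (.one (nat_lit 0x200901b0000004012036430)) (.br (Nat.shiftLeft (nat_lit 0x1) (nat_lit 90)) (.one (nat_lit 0x300901b0000006012037400)) (.one (nat_lit 0x400901b0000008012037400))))) (.br (Nat.shiftLeft (nat_lit 0x1) (nat_lit 91)) (.br (Nat.shiftLeft (nat_lit 0x3) (nat_lit 89)) (.one (nat_lit 0x500901b000000a012037400)) (.br (Nat.shiftLeft (nat_lit 0x7) (nat_lit 88)) (.one (nat_lit 0x600901b000000c012037400)) (.one (nat_lit 0x700901b000000e012037400)))) (.br (Nat.shiftLeft (nat_lit 0x1) (nat_lit 100)) (.one (nat_lit 0x800901b0000010012037400)) (.br (Nat.shiftLeft (nat_lit 0x801) (nat_lit 89)) (.one (nat_lit 0x100000901b0002000012036311)) (.one (nat_lit 0x100300901b0002006012036540))))))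
def t155 : k155.all (jb2 57 fl b0) = true := by decide +kernel
noncomputable def k156 : KT := (.br (Nat.shiftLeft (nat_lit 0x1005) (nat_lit 88)) (.one (nat_lit 0x100400901b0002008012036540)) (.one (nat_lit 0x100500901b000200a012036540)))
def t156 : k156.all (jb2 57 fl b0) = true := by decide +kernel
noncomputable def k157 : KT := (.br (Nat.shiftLeft (nat_lit 0x201) (nat_lit 91)) (.br (Nat.shiftLeft (nat_lit 0x1007) (nat_lit 88)) (.one (nat_lit 0x100600901b000200c012036540)) (.one (nat_lit 0x100700901b000200e012036540))) (.br (Nat.shiftLeft (nat_lit 0x1) (nat_lit 101)) (.one (nat_lit 0x100800901b0002010012036540)) (.one (nat_lit 0x200000901b0004000012036311))))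
def t157 : k157.all (jb2 57 fl b0) = true := by decide +kernel
noncomputable def k158 : KT := (.one (nat_lit 0x200300901b0004006012036540))
def t158 : k158.all (jb2 57 fl b0) = true := by decide +kernel
noncomputable def k159 : KT := (.one (nat_lit 0x200400901b0004008012036540))
def t159 : k159.all (jb2 57 fl b0) = true := by decide +kernel
noncomputable def k160 : KT := (.one (nat_lit 0x200500901b000400a012036540))
def t160 : k160.all (jb2 57 fl b0) = true := by decide +kernel
noncomputable def k161 : KT := (.one (nat_lit 0x200600901b000400c012036540))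
def t161 : k161.all (jb2 57 fl b0) = true := by decide +kernel
noncomputable def k162 : KT := (.br (Nat.shiftLeft (nat_lit 0x3) (nat_lit 100)) (.br (Nat.shiftLeft (nat_lit 0x401) (nat_lit 91)) (.one (nat_lit 0x200700901b000400e012036540)) (.one (nat_lit 0x200800901b0004010012036540))) (.br (Nat.shiftLeft (nat_lit 0xc01) (nat_lit 90)) (.one (nat_lit 0x300000901b0006000012036311)) (.br (Nat.shiftLeft (nat_lit 0x3005) (nat_lit 88)) (.one (nat_lit 0x300400901b0006008012037500)) (.one (nat_lit 0x300500901b000600a012037500)))))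
def t162 : k162.all (jb2 57 fl b0) = true := by decide +kernel
noncomputable def k163 : KT := (.one (nat_lit 0x300600901b000600c012036540))
def t163 : k163.all (jb2 57 fl b0) = true := by decide +kernel
noncomputable def k164 : KT := (.br (Nat.shiftLeft (nat_lit 0x1) (nat_lit 102)) (.br (Nat.shiftLeft (nat_lit 0x601) (nat_lit 91)) (.one (nat_lit 0x300700901b000600e012036540)) (.one (nat_lit 0x300800901b0006010012036540))) (.br (Nat.shiftLeft (nat_lit 0x1001) (nat_lit 90)) (.one (nat_lit 0x400000901b0008000012036311)) (.one (nat_lit 0x400500901b000800a012037500))))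
def t164 : k164.all (jb2 57 fl b0) = true := by decide +kernel
noncomputable def k165 : KT := (.one (nat_lit 0x400600901b000800c012036540))
def t165 : k165.all (jb2 57 fl b0) = true := by decide +kernel
noncomputable def k166 : KT := (.br (Nat.shiftLeft (nat_lit 0x801) (nat_lit 91)) (.one (nat_lit 0x400700901b000800e012036540)) (.br (Nat.shiftLeft (nat_lit 0x5) (nat_lit 100)) (.one (nat_lit 0x400800901b0008010012036540)) (.one (nat_lit 0x500000901b000a000012036311))))
def t166 : k166.all (jb2 57 fl b0) = true := by decide +kernel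
noncomputable def k167 : KT := (.one (nat_lit 0x500600901b000a00c012036540))
def t167 : k167.all (jb2 57 fl b0) = true := by decide +kernel
noncomputable def k168 : KT := (.br (Nat.shiftLeft (nat_lit 0xa01) (nat_lit 91)) (.one (nat_lit 0x500700901b000a00e012036540)) (.br (Nat.shiftLeft (nat_lit 0x3) (nat_lit 101)) (.one (nat_lit 0x500800901b000a010012036540)) (.one (nat_lit 0x600000901b000c000012036311))))
def t168 : k168.all (jb2 57 fl b0) = true := by decide +kernel
noncomputable def k169 : KT := (.br (Nat.shiftLeft (nat_lit 0x1) (nat_lit 112)) (.br (Nat.shiftLeft (nat_lit 0xe01) (nat_lit 91)) (.br (Nat.shiftLeft (nat_lit 0xc01) (nat_lit 91)) (.one (nat_lit 0x600700901b000c00e012036540)) (.br (Nat.shiftLeft (nat_lit 0x7) (nat_lit 100)) (.one (nat_lit 0x600800901b000c010012036540)) (.one (nat_lit 0x700000901b000e000012036311)))) (.br (Nat.shiftLeft (nat_lit 0x1) (nat_lit 103)) (.one (nat_lit 0x700800901b000e010012036540)) (.br (Nat.shiftLeft (nat_lit 0x9) (nat_lit 100)) (.one (nat_lit 0x800000901b0010000012036311))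 (.one (nat_lit 0x900000901b0012000012036311))))) (.br (Nat.shiftLeft (nat_lit 0x800003) (nat_lit 89)) (.br (Nat.shiftLeft (nat_lit 0x400001) (nat_lit 90)) (.one (nat_lit 0x100000300901b2000006012036411)) (.br (Nat.shiftLeft (nat_lit 0x1000005) (nat_lit 88)) (.one (nat_lit 0x100000400901b2000008012036411)) (.one (nat_lit 0x100000500901b200000a012036411)))) (.br (Nat.shiftLeft (nat_lit 0x1000007) (nat_lit 88)) (.one (nat_lit 0x100000600901b200000c012036411)) (.br (Nat.shiftLeft (nat_lit 0x200001) (nat_lit 91)) (.one (nat_lit 0x100000700901b200000e012036411)) (.one (nat_lit 0x100000800901b2000010012036411))))))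
def t169 : k169.all (jb2 57 fl b0) = true := by decide +kernel
noncomputable def k170 : KT := (.br (Nat.shiftLeft (nat_lit 0x800001) (nat_lit 90)) (.br (Nat.shiftLeft (nat_lit 0x401) (nat_lit 102)) (.br (Nat.shiftLeft (nat_lit 0x1003005) (nat_lit 88)) (.one (nat_lit 0x100300400901b2006008012036650)) (.one (nat_lit 0x100300500901b200600a012036650))) (.br (Nat.shiftLeft (nat_lit 0x1) (nat_lit 113)) (.one (nat_lit 0x100400500901b200800a012036650)) (.one (nat_lit 0x200000300901b4000006012036411)))) (.br (Nat.shiftLeft (nat_lit 0x1000003) (nat_lit 89)) (.br (Nat.shiftLeft (nat_lit 0x2000005) (nat_lit 88)) (.one (nat_lit 0x200000400901b4000008012036411)) (.one (nat_lit 0x200000500901b400000a012036411))) (.br (Nat.shiftLeft (nat_lit 0x2000007) (nat_lit 88)) (.one (nat_lit 0x200000600901b400000c012036411)) (.br (Nat.shiftLeft (nat_lit 0x400001) (nat_lit 91)) (.one (nat_lit 0x200000700901b400000e012036411)) (.one (nat_lit 0x200000800901b4000010012036411))))))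
def t170 : k170.all (jb2 57 fl b0) = true := by decide +kernel
noncomputable def k171 : KT := (.br (Nat.shiftLeft (nat_lit 0x2003005) (nat_lit 88)) (.one (nat_lit 0x200300400901b4006008012036650)) (.one (nat_lit 0x200300500901b400600a012036650)))
def t171 : k171.all (jb2 57 fl b0) = true := by decide +kernel
noncomputable def k172 : KT := (.br (Nat.shiftLeft (nat_lit 0x2000003) (nat_lit 89)) (.br (Nat.shiftLeft (nat_lit 0x3000007) (nat_lit 88)) (.br (Nat.shiftLeft (nat_lit 0xc00001) (nat_lit 90)) (.br (Nat.shiftLeft (nat_lit 0x3) (nat_lit 112)) (.one (nat_lit 0x200400500901b400800a012036650)) (.one (nat_lit 0x300000300901b6000006012036411))) (.br (Nat.shiftLeft (nat_lit 0x3000005) (nat_lit 88)) (.one (nat_lit 0x300000400901b6000008012036411)) (.br (Nat.shiftLeft (nat_lit 0x1800003) (nat_lit 89)) (.one (nat_lit 0x300000500901b600000a012036411)) (.one (nat_lit 0x300000600901b600000c012036411))))) (.br (Nat.shiftLeft (nat_lit 0x1) (nat_lit 114)) (.br (Nat.shiftLeft (nat_lit 0x600001) (nat_lit 91))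 (.one (nat_lit 0x300000700901b600000e012036411)) (.br (Nat.shiftLeft (nat_lit 0xc01) (nat_lit 102)) (.one (nat_lit 0x300000800901b6000010012036411)) (.one (nat_lit 0x300400500901b600800a012036650)))) (.br (Nat.shiftLeft (nat_lit 0x1000001) (nat_lit 90)) (.one (nat_lit 0x400000300901b8000006012036411)) (.br (Nat.shiftLeft (nat_lit 0x4000005) (nat_lit 88)) (.one (nat_lit 0x400000400901b8000008012036411)) (.one (nat_lit 0x400000500901b800000a012036411)))))) (.br (Nat.shiftLeft (nat_lit 0x2800003) (nat_lit 89)) (.br (Nat.shiftLeft (nat_lit 0x5) (nat_lit 112)) (.br (Nat.shiftLeft (nat_lit 0x4000007) (nat_lit 88)) (.one (nat_lit 0x400000600901b800000c012036411)) (.br (Nat.shiftLeft (nat_lit 0x800001) (nat_lit 91)) (.one (nat_lit 0x400000700901b800000e012036411)) (.one (nat_lit 0x400000800901b8000010012036411)))) (.br (Nat.shiftLeft (nat_lit 0x1400001) (nat_lit 90)) (.one (nat_lit 0x500000300901ba000006012036411)) (.br (Nat.shiftLeft (nat_lit 0x5000005) (nat_lit 88)) (.one (nat_lit 0x500000400901ba000008012036411))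 (.one (nat_lit 0x500000500901ba00000a012036411))))) (.br (Nat.shiftLeft (nat_lit 0x3) (nat_lit 113)) (.br (Nat.shiftLeft (nat_lit 0x5000007) (nat_lit 88)) (.one (nat_lit 0x500000600901ba00000c012036411)) (.br (Nat.shiftLeft (nat_lit 0xa00001) (nat_lit 91)) (.one (nat_lit 0x500000700901ba00000e012036411)) (.one (nat_lit 0x500000800901ba000010012036411)))) (.br (Nat.shiftLeft (nat_lit 0x1800001) (nat_lit 90)) (.one (nat_lit 0x600000300901bc000006012036411)) (.br (Nat.shiftLeft (nat_lit 0x6000005) (nat_lit 88)) (.one (nat_lit 0x600000400901bc000008012036411)) (.one (nat_lit 0x600000500901bc00000a012036411)))))))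
def t172 : k172.all (jb2 57 fl b0) = true := by decide +kernel
noncomputable def k173 : KT := (.br (Nat.shiftLeft (nat_lit 0x2400001) (nat_lit 90)) (.br (Nat.shiftLeft (nat_lit 0xe00001) (nat_lit 91)) (.br (Nat.shiftLeft (nat_lit 0x1c00001) (nat_lit 90)) (.br (Nat.shiftLeft (nat_lit 0xc00001) (nat_lit 91)) (.br (Nat.shiftLeft (nat_lit 0x6000007) (nat_lit 88)) (.one (nat_lit 0x600000600901bc00000c012036411)) (.one (nat_lit 0x600000700901bc00000e012036411))) (.br (Nat.shiftLeft (nat_lit 0x7) (nat_lit 112)) (.one (nat_lit 0x600000800901bc000010012036411)) (.one (nat_lit 0x700000300901be000006012036411)))) (.br (Nat.shiftLeft (nat_lit 0x3800003) (nat_lit 89)) (.br (Nat.shiftLeft (nat_lit 0x7000005) (nat_lit 88)) (.one (nat_lit 0x700000400901be000008012036411)) (.one (nat_lit 0x700000500901be00000a012036411))) (.br (Nat.shiftLeft (nat_lit 0x7000007) (nat_lit 88)) (.one (nat_lit 0x700000600901be00000c012036411)) (.one (nat_lit 0x700000700901be00000e012036411))))) (.br (Nat.shiftLeft (nat_lit 0x4000003)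 (nat_lit 89)) (.br (Nat.shiftLeft (nat_lit 0x2000001) (nat_lit 90)) (.br (Nat.shiftLeft (nat_lit 0x1) (nat_lit 115)) (.one (nat_lit 0x700000800901be000010012036411)) (.one (nat_lit 0x800000300901b0000006012138411))) (.br (Nat.shiftLeft (nat_lit 0x8000005) (nat_lit 88)) (.one (nat_lit 0x800000400901b0000008012138411)) (.one (nat_lit 0x800000500901b000000a012138411)))) (.br (Nat.shiftLeft (nat_lit 0x1000001) (nat_lit 91)) (.br (Nat.shiftLeft (nat_lit 0x8000007) (nat_lit 88)) (.one (nat_lit 0x800000600901b000000c012138411)) (.one (nat_lit 0x800000700901b000000e012138411))) (.br (Nat.shiftLeft (nat_lit 0x9) (nat_lit 112)) (.one (nat_lit 0x800000800901b0000010012138411)) (.one (nat_lit 0x900000300901b2000006012138411)))))) (.br (Nat.shiftLeft (nat_lit 0x1) (nat_lit 125)) (.br (Nat.shiftLeft (nat_lit 0x1200001) (nat_lit 91)) (.br (Nat.shiftLeft (nat_lit 0x4800003) (nat_lit 89)) (.br (Nat.shiftLeft (nat_lit 0x9000005) (nat_lit 88)) (.one (nat_lit 0x900000400901b2000008012138411)) (.one (nat_lit 0x900000500901b200000a012138411)))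 (.br (Nat.shiftLeft (nat_lit 0x9000007) (nat_lit 88)) (.one (nat_lit 0x900000600901b200000c012138411)) (.one (nat_lit 0x900000700901b200000e012138411)))) (.br (Nat.shiftLeft (nat_lit 0x1000003005) (nat_lit 88)) (.br (Nat.shiftLeft (nat_lit 0x1) (nat_lit 124)) (.one (nat_lit 0x900000800901b2000010012138411)) (.one (nat_lit 0x100000300400901b0006008032436511))) (.br (Nat.shiftLeft (nat_lit 0x400001) (nat_lit 102)) (.one (nat_lit 0x100000300500901b000600a032436511)) (.one (nat_lit 0x100000400500901b000800a032436511))))) (.br (Nat.shiftLeft (nat_lit 0x3000003005) (nat_lit 88)) (.br (Nat.shiftLeft (nat_lit 0x800001) (nat_lit 102)) (.br (Nat.shiftLeft (nat_lit 0x2000003005) (nat_lit 88)) (.one (nat_lit 0x200000300400901b0006008052836511)) (.one (nat_lit 0x200000300500901b000600a052836511))) (.br (Nat.shiftLeft (nat_lit 0x3) (nat_lit 124)) (.one (nat_lit 0x200000400500901b000800a052836511)) (.one (nat_lit 0x300000300400901b0006008072c36511)))) (.br (Nat.shiftLeft (nat_lit 0x1) (nat_lit 126)) (.br (Nat.shiftLeft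 (nat_lit 0xc00001) (nat_lit 102)) (.one (nat_lit 0x300000300500901b000600a072c36511)) (.one (nat_lit 0x300000400500901b000800a072c36511))) (.br (Nat.shiftLeft (nat_lit 0x4000003005) (nat_lit 88)) (.one (nat_lit 0x400000300400901b0006008093036511)) (.br (Nat.shiftLeft (nat_lit 0x1000001) (nat_lit 102)) (.one (nat_lit 0x400000300500901b000600a093036511)) (.one (nat_lit 0x400000400500901b000800a093036511))))))))
def t173 : k173.all (jb2 57 fl b0) = true := by decide +kernel
noncomputable def k174 : KT := (.br (Nat.shiftLeft (nat_lit 0x7000003005) (nat_lit 88)) (.br (Nat.shiftLeft (nat_lit 0x3) (nat_lit 125)) (.br (Nat.shiftLeft (nat_lit 0x5000003005) (nat_lit 88)) (.one (nat_lit 0x500000300400901b00060080b3436511)) (.br (Nat.shiftLeft (nat_lit 0x1400001) (nat_lit 102)) (.one (nat_lit 0x500000300500901b000600a0b3436511)) (.one (nat_lit 0x500000400500901b000800a0b3436511)))) (.br (Nat.shiftLeft (nat_lit 0x1800001) (nat_lit 102)) (.br (Nat.shiftLeft (nat_lit 0x6000003005) (nat_lit 88)) (.one (nat_lit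 0x600000300400901b00060080d3836511)) (.one (nat_lit 0x600000300500901b000600a0d3836511))) (.br (Nat.shiftLeft (nat_lit 0x7) (nat_lit 124)) (.one (nat_lit 0x600000400500901b000800a0d3836511)) (.one (nat_lit 0x700000300400901b00060080f3c36511))))) (.br (Nat.shiftLeft (nat_lit 0x2000001) (nat_lit 102)) (.br (Nat.shiftLeft (nat_lit 0x1) (nat_lit 127)) (.br (Nat.shiftLeft (nat_lit 0x1c00001) (nat_lit 102)) (.one (nat_lit 0x700000300500901b000600a0f3c36511)) (.one (nat_lit 0x700000400500901b000800a0f3c36511))) (.br (Nat.shiftLeft (nat_lit 0x8000003005) (nat_lit 88)) (.one (nat_lit 0x800000300400901b0006008114036511)) (.one (nat_lit 0x800000300500901b000600a114036511)))) (.br (Nat.shiftLeft (nat_lit 0x9000003005) (nat_lit 88)) (.br (Nat.shiftLeft (nat_lit 0x9) (nat_lit 124)) (.one (nat_lit 0x800000400500901b000800a114036511)) (.one (nat_lit 0x900000300400901b0006008134436511))) (.br (Nat.shiftLeft (nat_lit 0x2400001) (nat_lit 102)) (.one (nat_lit 0x900000300500901b000600a134436511)) (.one (nat_lit 0x900000400500901b000800a134436511))))))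
def t174 : k174.all (jb2 57 fl b0) = true := by decide +kernel
noncomputable def s8 : KT := (.br (nat_lit 0x400500901b000800a012037500) (.br (nat_lit 0x200400901b0004008012036540) (.br (nat_lit 0x100500901b000200a012036540) (.br (nat_lit 0x100300901b0002006012036540) k155 k156) (.br (nat_lit 0x200000901b0004000012036311) k157 (.br (nat_lit 0x200300901b0004006012036540) k158 k159))) (.br (nat_lit 0x200600901b000400c012036540) (.br (nat_lit 0x200500901b000400a012036540) k160 k161) (.br (nat_lit 0x300500901b000600a012037500) k162 (.br (nat_lit 0x300600901b000600c012036540) k163 k164)))) (.br (nat_lit 0x100000800901b2000010012036411) (.br (nat_lit 0x500000901b000a000012036311) (.br (nat_lit 0x400600901b000800c012036540) k165 k166) (.br (nat_lit 0x500600901b000a00c012036540) k167 (.br (nat_lit 0x600000901b000c000012036311) k168 k169))) (.br (nat_lit 0x200300500901b400600a012036650) (.br (nat_lit 0x200000800901b4000010012036411) k170 k171) (.br (nat_lit 0x600000500901bc00000a012036411) k172 (.br (nat_lit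 0x400000400500901b000800a093036511) k173 k174)))))
noncomputable def u8 : KT := (.one (nat_lit 0x901b0000000012036320))
def w8 : u8.all (wj 57 s8) = true := by decide +kernel
def o8 : OkW 57 (jb2 57 fl) u8 := .lift s8 _ (.br _ _ _ (.br _ _ _ (.br _ _ _ (.br _ _ _ (.leaf b0 k155 t155) (.leaf b0 k156 t156)) (.br _ _ _ (.leaf b0 k157 t157) (.br _ _ _ (.leaf b0 k158 t158) (.leaf b0 k159 t159)))) (.br _ _ _ (.br _ _ _ (.leaf b0 k160 t160) (.leaf b0 k161 t161)) (.br _ _ _ (.leaf b0 k162 t162) (.br _ _ _ (.leaf b0 k163 t163) (.leaf b0 k164 t164))))) (.br _ _ _ (.br _ _ _ (.br _ _ _ (.leaf b0 k165 t165) (.leaf b0 k166 t166)) (.br _ _ _ (.leaf b0 k167 t167) (.br _ _ _ (.leaf b0 k168 t168) (.leaf b0 k169 t169)))) (.br _ _ _ (.br _ _ _ (.leaf b0 k170 t170) (.leaf b0 k171 t171)) (.br _ _ _ (.leaf b0 k172 t172) (.br _ _ _ (.leaf b0 k173 t173) (.leaf b0 k174 t174)))))) w8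
noncomputable def k175 : KT := (.br (Nat.shiftLeft (nat_lit 0x3) (nat_lit 89)) (.br (Nat.shiftLeft (nat_lit 0x3) (nat_lit 88)) (.br (Nat.shiftLeft (nat_lit 0x1) (nat_lit 88)) (.one (nat_lit 0x901c0000000012039300)) (.br (Nat.shiftLeft (nat_lit 0x1) (nat_lit 89)) (.one (nat_lit 0x100901c0000002012038430)) (.one (nat_lit 0x200901c0000004012038430)))) (.br (Nat.shiftLeft (nat_lit 0x1) (nat_lit 90)) (.one (nat_lit 0x300901c0000006012039400)) (.br (Nat.shiftLeft (nat_lit 0x5) (nat_lit 88)) (.one (nat_lit 0x400901c0000008012039400)) (.one (nat_lit 0x500901c000000a012039400))))) (.br (Nat.shiftLeft (nat_lit 0x1) (nat_lit 100)) (.br (Nat.shiftLeft (nat_lit 0x7) (nat_lit 88)) (.one (nat_lit 0x600901c000000c012039400)) (.br (Nat.shiftLeft (nat_lit 0x1) (nat_lit 91)) (.one (nat_lit 0x700901c000000e012039400)) (.one (nat_lit 0x800901c0000010012039400)))) (.br (Nat.shiftLeft (nat_lit 0x801) (nat_lit 89)) (.one (nat_lit 0x100000901c0002000012038311)) (.br (Nat.shiftLeft (nat_lit 0x401) (nat_lit 90)) (.one (nat_lit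 0x100300901c0002006012038540)) (.one (nat_lit 0x100400901c0002008012038540))))))
def t175 : k175.all (jb2 57 fl b0) = true := by decide +kernel
noncomputable def k176 : KT := (.br (Nat.shiftLeft (nat_lit 0x803) (nat_lit 89)) (.one (nat_lit 0x100500901c000200a012038540)) (.br (Nat.shiftLeft (nat_lit 0x1007) (nat_lit 88)) (.one (nat_lit 0x100600901c000200c012038540)) (.one (nat_lit 0x100700901c000200e012038540))))
def t176 : k176.all (jb2 57 fl b0) = true := by decide +kernel
noncomputable def k177 : KT := (.br (Nat.shiftLeft (nat_lit 0x1) (nat_lit 101)) (.one (nat_lit 0x100800901c0002010012038540)) (.br (Nat.shiftLeft (nat_lit 0x1001) (nat_lit 89)) (.one (nat_lit 0x200000901c0004000012038311)) (.one (nat_lit 0x200300901c0004006012038540))))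
def t177 : k177.all (jb2 57 fl b0) = true := by decide +kernel
noncomputable def k178 : KT := (.one (nat_lit 0x200400901c0004008012038540))
def t178 : k178.all (jb2 57 fl b0) = true := by decide +kernel
noncomputable def k179 : KT := (.one (nat_lit 0x200500901c000400a012038540))
def t179 : k179.all (jb2 57 fl b0) = true := by decide +kernel
noncomputable def k180 : KT := (.br (Nat.shiftLeft (nat_lit 0x2007) (nat_lit 88)) (.one (nat_lit 0x200600901c000400c012038540)) (.one (nat_lit 0x200700901c000400e012038540)))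
def t180 : k180.all (jb2 57 fl b0) = true := by decide +kernel
noncomputable def k181 : KT := (.br (Nat.shiftLeft (nat_lit 0x3) (nat_lit 100)) (.one (nat_lit 0x200800901c0004010012038540)) (.one (nat_lit 0x300000901c0006000012038311)))
def t181 : k181.all (jb2 57 fl b0) = true := by decide +kernel
noncomputable def k182 : KT := (.one (nat_lit 0x300400901c0006008012038540))
def t182 : k182.all (jb2 57 fl b0) = true := by decide +kernel
noncomputable def k183 : KT := (.one (nat_lit 0x300500901c000600a012038540))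
def t183 : k183.all (jb2 57 fl b0) = true := by decide +kernel
noncomputable def k184 : KT := (.br (Nat.shiftLeft (nat_lit 0x3007) (nat_lit 88)) (.one (nat_lit 0x300600901c000600c012038540)) (.one (nat_lit 0x300700901c000600e012038540)))
def t184 : k184.all (jb2 57 fl b0) = true := by decide +kernel
noncomputable def k185 : KT := (.br (Nat.shiftLeft (nat_lit 0x1) (nat_lit 102)) (.one (nat_lit 0x300800901c0006010012038540)) (.one (nat_lit 0x400000901c0008000012038311)))
def t185 : k185.all (jb2 57 fl b0) = true := by decide +kernel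
noncomputable def k186 : KT := (.one (nat_lit 0x400500901c000800a012038540))
def t186 : k186.all (jb2 57 fl b0) = true := by decide +kernel
noncomputable def k187 : KT := (.br (Nat.shiftLeft (nat_lit 0x4007) (nat_lit 88)) (.one (nat_lit 0x400600901c000800c012038540)) (.one (nat_lit 0x400700901c000800e012038540)))
def t187 : k187.all (jb2 57 fl b0) = true := by decide +kernel
noncomputable def k188 : KT := (.br (Nat.shiftLeft (nat_lit 0x1401) (nat_lit 90)) (.br (Nat.shiftLeft (nat_lit 0x5) (nat_lit 100)) (.one (nat_lit 0x400800901c0008010012038540)) (.one (nat_lit 0x500000901c000a000012038311))) (.br (Nat.shiftLeft (nat_lit 0x5007) (nat_lit 88)) (.one (nat_lit 0x500600901c000a00c012038540)) (.one (nat_lit 0x500700901c000a00e012038540))))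
def t188 : k188.all (jb2 57 fl b0) = true := by decide +kernel
noncomputable def k189 : KT := (.br (Nat.shiftLeft (nat_lit 0x400001) (nat_lit 91)) (.br (Nat.shiftLeft (nat_lit 0x400001) (nat_lit 90)) (.br (Nat.shiftLeft (nat_lit 0x7) (nat_lit 100)) (.br (Nat.shiftLeft (nat_lit 0x1801) (nat_lit 90)) (.br (Nat.shiftLeft (nat_lit 0x3) (nat_lit 101)) (.one (nat_lit 0x500800901c000a010012038540)) (.one (nat_lit 0x600000901c000c000012038311))) (.br (Nat.shiftLeft (nat_lit 0xc01) (nat_lit 91)) (.one (nat_lit 0x600700901c000c00e012038540)) (.one (nat_lit 0x600800901c000c010012038540)))) (.br (Nat.shiftLeft (nat_lit 0x1) (nat_lit 103)) (.br (Nat.shiftLeft (nat_lit 0xe01) (nat_lit 91)) (.one (nat_lit 0x700000901c000e000012038311)) (.one (nat_lit 0x700800901c000e010012038540))) (.br (Nat.shiftLeft (nat_lit 0x9) (nat_lit 100)) (.one (nat_lit 0x800000901c0010000012038311)) (.br (Nat.shiftLeft (nat_lit 0x1) (nat_lit 112)) (.one (nat_lit 0x900000901c0012000012038311)) (.one (nat_lit 0x100000300901c2000006012038411))))))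 (.br (Nat.shiftLeft (nat_lit 0x1) (nat_lit 113)) (.br (Nat.shiftLeft (nat_lit 0x800003) (nat_lit 89)) (.br (Nat.shiftLeft (nat_lit 0x1000005) (nat_lit 88)) (.one (nat_lit 0x100000400901c2000008012038411)) (.one (nat_lit 0x100000500901c200000a012038411))) (.br (Nat.shiftLeft (nat_lit 0x1000007) (nat_lit 88)) (.one (nat_lit 0x100000600901c200000c012038411)) (.br (Nat.shiftLeft (nat_lit 0x200001) (nat_lit 91)) (.one (nat_lit 0x100000700901c200000e012038411)) (.one (nat_lit 0x100000800901c2000010012038411))))) (.br (Nat.shiftLeft (nat_lit 0x2000005) (nat_lit 88)) (.br (Nat.shiftLeft (nat_lit 0x800001) (nat_lit 90)) (.one (nat_lit 0x200000300901c4000006012038411)) (.one (nat_lit 0x200000400901c4000008012038411))) (.br (Nat.shiftLeft (nat_lit 0x1000003) (nat_lit 89)) (.one (nat_lit 0x200000500901c400000a012038411)) (.br (Nat.shiftLeft (nat_lit 0x2000007) (nat_lit 88)) (.one (nat_lit 0x200000600901c400000c012038411)) (.one (nat_lit 0x200000700901c400000e012038411))))))) (.br (Nat.shiftLeft (nat_lit 0x4000005)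 (nat_lit 88)) (.br (Nat.shiftLeft (nat_lit 0x1800003) (nat_lit 89)) (.br (Nat.shiftLeft (nat_lit 0xc00001) (nat_lit 90)) (.br (Nat.shiftLeft (nat_lit 0x3) (nat_lit 112)) (.one (nat_lit 0x200000800901c4000010012038411)) (.one (nat_lit 0x300000300901c6000006012038411))) (.br (Nat.shiftLeft (nat_lit 0x3000005) (nat_lit 88)) (.one (nat_lit 0x300000400901c6000008012038411)) (.one (nat_lit 0x300000500901c600000a012038411)))) (.br (Nat.shiftLeft (nat_lit 0x600001) (nat_lit 91)) (.br (Nat.shiftLeft (nat_lit 0x3000007) (nat_lit 88)) (.one (nat_lit 0x300000600901c600000c012038411)) (.one (nat_lit 0x300000700901c600000e012038411))) (.br (Nat.shiftLeft (nat_lit 0x1) (nat_lit 114)) (.one (nat_lit 0x300000800901c6000010012038411)) (.br (Nat.shiftLeft (nat_lit 0x1000001) (nat_lit 90)) (.one (nat_lit 0x400000300901c8000006012038411)) (.one (nat_lit 0x400000400901c8000008012038411)))))) (.br (Nat.shiftLeft (nat_lit 0x1400001) (nat_lit 90)) (.br (Nat.shiftLeft (nat_lit 0x4000007) (nat_lit 88)) (.br (Nat.shiftLeft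 (nat_lit 0x2000003) (nat_lit 89)) (.one (nat_lit 0x400000500901c800000a012038411)) (.one (nat_lit 0x400000600901c800000c012038411))) (.br (Nat.shiftLeft (nat_lit 0x800001) (nat_lit 91)) (.one (nat_lit 0x400000700901c800000e012038411)) (.br (Nat.shiftLeft (nat_lit 0x5) (nat_lit 112)) (.one (nat_lit 0x400000800901c8000010012038411)) (.one (nat_lit 0x500000300901ca000006012038411))))) (.br (Nat.shiftLeft (nat_lit 0x2800003) (nat_lit 89)) (.br (Nat.shiftLeft (nat_lit 0x5000005) (nat_lit 88)) (.one (nat_lit 0x500000400901ca000008012038411)) (.one (nat_lit 0x500000500901ca00000a012038411))) (.br (Nat.shiftLeft (nat_lit 0x5000007) (nat_lit 88)) (.one (nat_lit 0x500000600901ca00000c012038411)) (.br (Nat.shiftLeft (nat_lit 0xa00001) (nat_lit 91)) (.one (nat_lit 0x500000700901ca00000e012038411)) (.one (nat_lit 0x500000800901ca000010012038411))))))))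
def t189 : k189.all (jb2 57 fl b0) = true := by decide +kernel
noncomputable def k190 : KT := (.br (Nat.shiftLeft (nat_lit 0x1) (nat_lit 115)) (.br (Nat.shiftLeft (nat_lit 0x7) (nat_lit 112)) (.br (Nat.shiftLeft (nat_lit 0x3000003) (nat_lit 89)) (.br (Nat.shiftLeft (nat_lit 0x1800001) (nat_lit 90)) (.one (nat_lit 0x600000300901cc000006012038411)) (.br (Nat.shiftLeft (nat_lit 0x6000005) (nat_lit 88)) (.one (nat_lit 0x600000400901cc000008012038411)) (.one (nat_lit 0x600000500901cc00000a012038411)))) (.br (Nat.shiftLeft (nat_lit 0x6000007) (nat_lit 88)) (.one (nat_lit 0x600000600901cc00000c012038411)) (.br (Nat.shiftLeft (nat_lit 0xc00001) (nat_lit 91)) (.one (nat_lit 0x600000700901cc00000e012038411)) (.one (nat_lit 0x600000800901cc000010012038411))))) (.br (Nat.shiftLeft (nat_lit 0x3800003) (nat_lit 89)) (.br (Nat.shiftLeft (nat_lit 0x1c00001) (nat_lit 90)) (.one (nat_lit 0x700000300901ce000006012038411)) (.br (Nat.shiftLeft (nat_lit 0x7000005) (nat_lit 88)) (.one (nat_lit 0x700000400901ce000008012038411))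 (.one (nat_lit 0x700000500901ce00000a012038411)))) (.br (Nat.shiftLeft (nat_lit 0x7000007) (nat_lit 88)) (.one (nat_lit 0x700000600901ce00000c012038411)) (.br (Nat.shiftLeft (nat_lit 0xe00001) (nat_lit 91)) (.one (nat_lit 0x700000700901ce00000e012038411)) (.one (nat_lit 0x700000800901ce000010012038411)))))) (.br (Nat.shiftLeft (nat_lit 0x9) (nat_lit 112)) (.br (Nat.shiftLeft (nat_lit 0x4000003) (nat_lit 89)) (.br (Nat.shiftLeft (nat_lit 0x2000001) (nat_lit 90)) (.one (nat_lit 0x800000300901c000000601213a411)) (.br (Nat.shiftLeft (nat_lit 0x8000005) (nat_lit 88)) (.one (nat_lit 0x800000400901c000000801213a411)) (.one (nat_lit 0x800000500901c000000a01213a411)))) (.br (Nat.shiftLeft (nat_lit 0x8000007) (nat_lit 88)) (.one (nat_lit 0x800000600901c000000c01213a411)) (.br (Nat.shiftLeft (nat_lit 0x1000001) (nat_lit 91)) (.one (nat_lit 0x800000700901c000000e01213a411)) (.one (nat_lit 0x800000800901c000001001213a411))))) (.br (Nat.shiftLeft (nat_lit 0x4800003) (nat_lit 89)) (.br (Nat.shiftLeft (nat_lit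 0x2400001) (nat_lit 90)) (.one (nat_lit 0x900000300901c200000601213a411)) (.br (Nat.shiftLeft (nat_lit 0x9000005) (nat_lit 88)) (.one (nat_lit 0x900000400901c200000801213a411)) (.one (nat_lit 0x900000500901c200000a01213a411)))) (.br (Nat.shiftLeft (nat_lit 0x9000007) (nat_lit 88)) (.one (nat_lit 0x900000600901c200000c01213a411)) (.br (Nat.shiftLeft (nat_lit 0x1200001) (nat_lit 91)) (.one (nat_lit 0x900000700901c200000e01213a411)) (.one (nat_lit 0x900000800901c200001001213a411)))))))
def t190 : k190.all (jb2 57 fl b0) = true := by decide +kernel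
noncomputable def s9 : KT := (.br (nat_lit 0x300400901c0006008012038540) (.br (nat_lit 0x200400901c0004008012038540) (.br (nat_lit 0x100700901c000200e012038540) (.br (nat_lit 0x100400901c0002008012038540) k175 k176) (.br (nat_lit 0x200300901c0004006012038540) k177 k178)) (.br (nat_lit 0x200700901c000400e012038540) (.br (nat_lit 0x200500901c000400a012038540) k179 k180) (.br (nat_lit 0x300000901c0006000012038311) k181 k182))) (.br (nat_lit 0x400500901c000800a012038540) (.br (nat_lit 0x300700901c000600e012038540) (.br (nat_lit 0x300500901c000600a012038540) k183 k184) (.br (nat_lit 0x400000901c0008000012038311) k185 k186)) (.br (nat_lit 0x500700901c000a00e012038540) (.br (nat_lit 0x400700901c000800e012038540) k187 k188) (.br (nat_lit 0x500000800901ca000010012038411) k189 k190))))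
noncomputable def u9 : KT := (.one (nat_lit 0x901c0000000012038320))
def w9 : u9.all (wj 57 s9) = true := by decide +kernel
def o9 : OkW 57 (jb2 57 fl) u9 := .lift s9 _ (.br _ _ _ (.br _ _ _ (.br _ _ _ (.br _ _ _ (.leaf b0 k175 t175) (.leaf b0 k176 t176)) (.br _ _ _ (.leaf b0 k177 t177) (.leaf b0 k178 t178))) (.br _ _ _ (.br _ _ _ (.leaf b0 k179 t179) (.leaf b0 k180 t180)) (.br _ _ _ (.leaf b0 k181 t181) (.leaf b0 k182 t182)))) (.br _ _ _ (.br _ _ _ (.br _ _ _ (.leaf b0 k183 t183) (.leaf b0 k184 t184)) (.br _ _ _ (.leaf b0 k185 t185) (.leaf b0 k186 t186))) (.br _ _ _ (.br _ _ _ (.leaf b0 k187 t187) (.leaf b0 k188 t188)) (.br _ _ _ (.leaf b0 k189 t189) (.leaf b0 k190 t190))))) w9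
noncomputable def k191 : KT := (.br (Nat.shiftLeft (nat_lit 0x80480f) (nat_lit 65)) (.br (Nat.shiftLeft (nat_lit 0x480f) (nat_lit 65)) (.one (nat_lit 0x901d000000001203b300)) (.br (Nat.shiftLeft (nat_lit 0x1) (nat_lit 88)) (.one (nat_lit 0x901e000000001203d300)) (.one (nat_lit 0x100901d000000201203a430)))) (.br (Nat.shiftLeft (nat_lit 0x100480f) (nat_lit 65)) (.br (Nat.shiftLeft (nat_lit 0x1) (nat_lit 89)) (.one (nat_lit 0x100901e000000201203c430)) (.one (nat_lit 0x200901d000000401203a430))) (.br (Nat.shiftLeft (nat_lit 0x3) (nat_lit 88)) (.one (nat_lit 0x200901e000000401203c430)) (.one (nat_lit 0x300901d000000601203b400)))))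
def t191 : k191.all (jb2 57 fl b0) = true := by decide +kernel
noncomputable def k192 : KT := (.br (Nat.shiftLeft (nat_lit 0x280480f) (nat_lit 65)) (.br (Nat.shiftLeft (nat_lit 0x200480f) (nat_lit 65)) (.br (Nat.shiftLeft (nat_lit 0x1) (nat_lit 90)) (.one (nat_lit 0x300901e000000601203c430)) (.one (nat_lit 0x400901d000000801203b400))) (.br (Nat.shiftLeft (nat_lit 0x5) (nat_lit 88)) (.one (nat_lit 0x400901e000000801203d400)) (.one (nat_lit 0x500901d000000a01203b400)))) (.br (Nat.shiftLeft (nat_lit 0x300480f) (nat_lit 65)) (.br (Nat.shiftLeft (nat_lit 0x3) (nat_lit 89)) (.one (nat_lit 0x500901e000000a01203d400)) (.one (nat_lit 0x600901d000000c01203b400))) (.br (Nat.shiftLeft (nat_lit 0x7) (nat_lit 88)) (.one (nat_lit 0x600901e000000c01203d400)) (.one (nat_lit 0x700901d000000e01203b400)))))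
def t192 : k192.all (jb2 57 fl b0) = true := by decide +kernel
noncomputable def k193 : KT := (.one (nat_lit 0x700901e000000e01203c430))
def t193 : k193.all (jb2 57 fl b0) = true := by decide +kernel
noncomputable def k194 : KT := (.br (Nat.shiftLeft (nat_lit 0x1) (nat_lit 100)) (.br (Nat.shiftLeft (nat_lit 0x400480f) (nat_lit 65)) (.one (nat_lit 0x800901d000001001203b400)) (.one (nat_lit 0x800901e000001001203c430))) (.br (Nat.shiftLeft (nat_lit 0x80000480f) (nat_lit 65)) (.one (nat_lit 0x100000901d000200001203a311)) (.br (Nat.shiftLeft (nat_lit 0x801) (nat_lit 89)) (.one (nat_lit 0x100000901e000200001203c311)) (.one (nat_lit 0x100300901d000200601203a540)))))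
def t194 : k194.all (jb2 57 fl b0) = true := by decide +kernel
noncomputable def k195 : KT := (.br (Nat.shiftLeft (nat_lit 0x80200480f) (nat_lit 65)) (.one (nat_lit 0x100400901d000200801203a540)) (.br (Nat.shiftLeft (nat_lit 0x1005) (nat_lit 88)) (.one (nat_lit 0x100400901e000200801203c540)) (.one (nat_lit 0x100500901d000200a01203a540))))
def t195 : k195.all (jb2 57 fl b0) = true := by decide +kernel
noncomputable def k196 : KT := (.br (Nat.shiftLeft (nat_lit 0x80300480f) (nat_lit 65)) (.br (Nat.shiftLeft (nat_lit 0x803) (nat_lit 89)) (.one (nat_lit 0x100500901e000200a01203c540)) (.one (nat_lit 0x100600901d000200c01203a540))) (.br (Nat.shiftLeft (nat_lit 0x1007) (nat_lit 88)) (.one (nat_lit 0x100600901e000200c01203c540)) (.one (nat_lit 0x100700901d000200e01203a540))))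
def t196 : k196.all (jb2 57 fl b0) = true := by decide +kernel
noncomputable def k197 : KT := (.br (Nat.shiftLeft (nat_lit 0x100000480f) (nat_lit 65)) (.br (Nat.shiftLeft (nat_lit 0x1) (nat_lit 101)) (.one (nat_lit 0x100800901d000201001203a540)) (.one (nat_lit 0x200000901d000400001203a311))) (.br (Nat.shiftLeft (nat_lit 0x1001) (nat_lit 89)) (.one (nat_lit 0x200000901e000400001203c311)) (.one (nat_lit 0x200300901d000400601203a540))))
def t197 : k197.all (jb2 57 fl b0) = true := by decide +kernel
noncomputable def k198 : KT := (.one (nat_lit 0x200400901d000400801203a540))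
def t198 : k198.all (jb2 57 fl b0) = true := by decide +kernel
noncomputable def k199 : KT := (.br (Nat.shiftLeft (nat_lit 0x2005) (nat_lit 88)) (.one (nat_lit 0x200400901e000400801203c540)) (.one (nat_lit 0x200500901d000400a01203a540)))
def t199 : k199.all (jb2 57 fl b0) = true := by decide +kernel
noncomputable def k200 : KT := (.br (Nat.shiftLeft (nat_lit 0x1003) (nat_lit 89)) (.one (nat_lit 0x200500901e000400a01203c540)) (.br (Nat.shiftLeft (nat_lit 0x100300480f) (nat_lit 65)) (.one (nat_lit 0x200600901d000400c01203a540)) (.one (nat_lit 0x200600901e000400c01203c540))))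
def t200 : k200.all (jb2 57 fl b0) = true := by decide +kernel
noncomputable def k201 : KT := (.br (Nat.shiftLeft (nat_lit 0x3) (nat_lit 100)) (.br (Nat.shiftLeft (nat_lit 0x401) (nat_lit 91)) (.one (nat_lit 0x200700901d000400e01203a540)) (.one (nat_lit 0x200800901d000401001203a540))) (.br (Nat.shiftLeft (nat_lit 0x180000480f) (nat_lit 65)) (.one (nat_lit 0x300000901d000600001203a311)) (.one (nat_lit 0x300000901e000600001203c311))))
def t201 : k201.all (jb2 57 fl b0) = true := by decide +kernel
noncomputable def k202 : KT := (.one (nat_lit 0x300400901d000600801203a540))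
def t202 : k202.all (jb2 57 fl b0) = true := by decide +kernel
noncomputable def k203 : KT := (.one (nat_lit 0x300400901e000600801203c540))
def t203 : k203.all (jb2 57 fl b0) = true := by decide +kernel
noncomputable def k204 : KT := (.br (Nat.shiftLeft (nat_lit 0x180280480f) (nat_lit 65)) (.one (nat_lit 0x300500901d000600a01203a540)) (.one (nat_lit 0x300500901e000600a01203c540)))
def t204 : k204.all (jb2 57 fl b0) = true := by decide +kernel
noncomputable def k205 : KT := (.br (Nat.shiftLeft (nat_lit 0x180300480f) (nat_lit 65)) (.one (nat_lit 0x300600901d000600c01203a540)) (.br (Nat.shiftLeft (nat_lit 0x3007) (nat_lit 88)) (.one (nat_lit 0x300600901e000600c01203c540)) (.one (nat_lit 0x300700901d000600e01203a540))))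
def t205 : k205.all (jb2 57 fl b0) = true := by decide +kernel
noncomputable def k206 : KT := (.br (Nat.shiftLeft (nat_lit 0x200000480f) (nat_lit 65)) (.br (Nat.shiftLeft (nat_lit 0x1) (nat_lit 102)) (.one (nat_lit 0x300800901d000601001203a540)) (.one (nat_lit 0x400000901d000800001203a311))) (.br (Nat.shiftLeft (nat_lit 0x1001) (nat_lit 90)) (.one (nat_lit 0x400000901e000800001203c311)) (.one (nat_lit 0x400500901d000800a01203a540))))
def t206 : k206.all (jb2 57 fl b0) = true := by decide +kernel
noncomputable def k207 : KT := (.br (Nat.shiftLeft (nat_lit 0x2003) (nat_lit 89)) (.one (nat_lit 0x400500901e000800a01203c540)) (.br (Nat.shiftLeft (nat_lit 0x200300480f) (nat_lit 65)) (.one (nat_lit 0x400600901d000800c01203a540)) (.one (nat_lit 0x400600901e000800c01203c540))))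
def t207 : k207.all (jb2 57 fl b0) = true := by decide +kernel
noncomputable def k208 : KT := (.br (Nat.shiftLeft (nat_lit 0x280000480f) (nat_lit 65)) (.br (Nat.shiftLeft (nat_lit 0x801) (nat_lit 91)) (.one (nat_lit 0x400700901d000800e01203a540)) (.br (Nat.shiftLeft (nat_lit 0x5) (nat_lit 100)) (.one (nat_lit 0x400800901d000801001203a540)) (.one (nat_lit 0x500000901d000a00001203a311)))) (.br (Nat.shiftLeft (nat_lit 0x1401) (nat_lit 90)) (.one (nat_lit 0x500000901e000a00001203c311)) (.br (Nat.shiftLeft (nat_lit 0x280300480f) (nat_lit 65)) (.one (nat_lit 0x500600901d000a00c01203a540)) (.one (nat_lit 0x500600901e000a00c01203c540)))))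
def t208 : k208.all (jb2 57 fl b0) = true := by decide +kernel
noncomputable def k209 : KT := (.br (Nat.shiftLeft (nat_lit 0x1000007) (nat_lit 88)) (.br (Nat.shiftLeft (nat_lit 0x400000480f) (nat_lit 65)) (.br (Nat.shiftLeft (nat_lit 0xc01) (nat_lit 91)) (.br (Nat.shiftLeft (nat_lit 0x3) (nat_lit 101)) (.br (Nat.shiftLeft (nat_lit 0xa01) (nat_lit 91)) (.one (nat_lit 0x500700901d000a00e01203a540)) (.one (nat_lit 0x500800901d000a01001203a540))) (.br (Nat.shiftLeft (nat_lit 0x300000480f) (nat_lit 65)) (.one (nat_lit 0x600000901d000c00001203a311)) (.br (Nat.shiftLeft (nat_lit 0x1801) (nat_lit 90)) (.one (nat_lit 0x600000901e000c00001203c311)) (.one (nat_lit 0x600700901d000c00e01203a540))))) (.br (Nat.shiftLeft (nat_lit 0x380000480f) (nat_lit 65)) (.br (Nat.shiftLeft (nat_lit 0x7) (nat_lit 100)) (.one (nat_lit 0x600800901d000c01001203a540)) (.one (nat_lit 0x700000901d000e00001203a311))) (.br (Nat.shiftLeft (nat_lit 0xe01) (nat_lit 91)) (.one (nat_lit 0x700000901e000e00001203c311)) (.br (Nat.shiftLeft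 (nat_lit 0x1) (nat_lit 103)) (.one (nat_lit 0x700800901d000e01001203a540)) (.one (nat_lit 0x800000901d001000001203a311)))))) (.br (Nat.shiftLeft (nat_lit 0x80000200480f) (nat_lit 65)) (.br (Nat.shiftLeft (nat_lit 0x480000480f) (nat_lit 65)) (.br (Nat.shiftLeft (nat_lit 0x9) (nat_lit 100)) (.one (nat_lit 0x800000901e001000001203c311)) (.one (nat_lit 0x900000901d001200001203a311))) (.br (Nat.shiftLeft (nat_lit 0x1) (nat_lit 112)) (.one (nat_lit 0x900000901e001200001203c311)) (.br (Nat.shiftLeft (nat_lit 0x400001) (nat_lit 90)) (.one (nat_lit 0x100000300901d200000601203a411)) (.one (nat_lit 0x100000400901d200000801203a411))))) (.br (Nat.shiftLeft (nat_lit 0x80000280480f) (nat_lit 65)) (.br (Nat.shiftLeft (nat_lit 0x1000005) (nat_lit 88)) (.one (nat_lit 0x100000400901e200000801203c411)) (.one (nat_lit 0x100000500901d200000a01203a411))) (.br (Nat.shiftLeft (nat_lit 0x800003) (nat_lit 89)) (.one (nat_lit 0x100000500901e200000a01203c411)) (.br (Nat.shiftLeft (nat_lit 0x80000300480f) (nat_lit 65)) (.one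 (nat_lit 0x100000600901d200000c01203a411)) (.one (nat_lit 0x100000600901e200000c01203c411))))))) (.br (Nat.shiftLeft (nat_lit 0x400001) (nat_lit 91)) (.br (Nat.shiftLeft (nat_lit 0x2000005) (nat_lit 88)) (.br (Nat.shiftLeft (nat_lit 0x1) (nat_lit 113)) (.br (Nat.shiftLeft (nat_lit 0x200001) (nat_lit 91)) (.one (nat_lit 0x100000700901d200000e01203a411)) (.one (nat_lit 0x100000800901d200001001203a411))) (.br (Nat.shiftLeft (nat_lit 0x800001) (nat_lit 90)) (.one (nat_lit 0x200000300901d400000601203a411)) (.br (Nat.shiftLeft (nat_lit 0x100000200480f) (nat_lit 65)) (.one (nat_lit 0x200000400901d400000801203a411)) (.one (nat_lit 0x200000400901e400000801203c411))))) (.br (Nat.shiftLeft (nat_lit 0x1000003) (nat_lit 89)) (.br (Nat.shiftLeft (nat_lit 0x100000280480f) (nat_lit 65)) (.one (nat_lit 0x200000500901d400000a01203a411)) (.one (nat_lit 0x200000500901e400000a01203c411))) (.br (Nat.shiftLeft (nat_lit 0x100000300480f) (nat_lit 65)) (.one (nat_lit 0x200000600901d400000c01203a411)) (.br (Nat.shiftLeft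 (nat_lit 0x2000007) (nat_lit 88)) (.one (nat_lit 0x200000600901e400000c01203c411)) (.one (nat_lit 0x200000700901d400000e01203a411)))))) (.br (Nat.shiftLeft (nat_lit 0x180000280480f) (nat_lit 65)) (.br (Nat.shiftLeft (nat_lit 0xc00001) (nat_lit 90)) (.br (Nat.shiftLeft (nat_lit 0x3) (nat_lit 112)) (.one (nat_lit 0x200000800901d400001001203a411)) (.one (nat_lit 0x300000300901d600000601203a411))) (.br (Nat.shiftLeft (nat_lit 0x180000200480f) (nat_lit 65)) (.one (nat_lit 0x300000400901d600000801203a411)) (.br (Nat.shiftLeft (nat_lit 0x3000005) (nat_lit 88)) (.one (nat_lit 0x300000400901e600000801203c411)) (.one (nat_lit 0x300000500901d600000a01203a411))))) (.br (Nat.shiftLeft (nat_lit 0x180000300480f) (nat_lit 65)) (.br (Nat.shiftLeft (nat_lit 0x1800003) (nat_lit 89)) (.one (nat_lit 0x300000500901e600000a01203c411)) (.one (nat_lit 0x300000600901d600000c01203a411))) (.br (Nat.shiftLeft (nat_lit 0x3000007) (nat_lit 88)) (.one (nat_lit 0x300000600901e600000c01203c411)) (.br (Nat.shiftLeft (nat_lit 0x600001)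 (nat_lit 91)) (.one (nat_lit 0x300000700901d600000e01203a411)) (.one (nat_lit 0x300000800901d600001001203a411))))))))
def t209 : k209.all (jb2 57 fl b0) = true := by decide +kernel
noncomputable def k210 : KT := (.br (Nat.shiftLeft (nat_lit 0x1800001) (nat_lit 90)) (.br (Nat.shiftLeft (nat_lit 0x5) (nat_lit 112)) (.br (Nat.shiftLeft (nat_lit 0x200000280480f) (nat_lit 65)) (.br (Nat.shiftLeft (nat_lit 0x200000200480f) (nat_lit 65)) (.br (Nat.shiftLeft (nat_lit 0x1000001) (nat_lit 90)) (.one (nat_lit 0x400000300901d800000601203a411)) (.one (nat_lit 0x400000400901d800000801203a411))) (.br (Nat.shiftLeft (nat_lit 0x4000005) (nat_lit 88)) (.one (nat_lit 0x400000400901e800000801203c411)) (.one (nat_lit 0x400000500901d800000a01203a411)))) (.br (Nat.shiftLeft (nat_lit 0x200000300480f) (nat_lit 65)) (.br (Nat.shiftLeft (nat_lit 0x2000003) (nat_lit 89)) (.one (nat_lit 0x400000500901e800000a01203c411)) (.one (nat_lit 0x400000600901d800000c01203a411))) (.br (Nat.shiftLeft (nat_lit 0x4000007) (nat_lit 88)) (.one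 (nat_lit 0x400000600901e800000c01203c411)) (.br (Nat.shiftLeft (nat_lit 0x800001) (nat_lit 91)) (.one (nat_lit 0x400000700901d800000e01203a411)) (.one (nat_lit 0x400000800901d800001001203a411)))))) (.br (Nat.shiftLeft (nat_lit 0x2800003) (nat_lit 89)) (.br (Nat.shiftLeft (nat_lit 0x280000200480f) (nat_lit 65)) (.br (Nat.shiftLeft (nat_lit 0x1400001) (nat_lit 90)) (.one (nat_lit 0x500000300901da00000601203a411)) (.one (nat_lit 0x500000400901da00000801203a411))) (.br (Nat.shiftLeft (nat_lit 0x5000005) (nat_lit 88)) (.one (nat_lit 0x500000400901ea00000801203c411)) (.br (Nat.shiftLeft (nat_lit 0x280000280480f) (nat_lit 65)) (.one (nat_lit 0x500000500901da00000a01203a411)) (.one (nat_lit 0x500000500901ea00000a01203c411))))) (.br (Nat.shiftLeft (nat_lit 0x5000007) (nat_lit 88)) (.br (Nat.shiftLeft (nat_lit 0x280000300480f) (nat_lit 65)) (.one (nat_lit 0x500000600901da00000c01203a411)) (.one (nat_lit 0x500000600901ea00000c01203c411))) (.br (Nat.shiftLeft (nat_lit 0xa00001) (nat_lit 91)) (.one (nat_lit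 0x500000700901da00000e01203a411)) (.br (Nat.shiftLeft (nat_lit 0x3) (nat_lit 113)) (.one (nat_lit 0x500000800901da00001001203a411)) (.one (nat_lit 0x600000300901dc00000601203a411))))))) (.br (Nat.shiftLeft (nat_lit 0x380000200480f) (nat_lit 65)) (.br (Nat.shiftLeft (nat_lit 0x300000300480f) (nat_lit 65)) (.br (Nat.shiftLeft (nat_lit 0x6000005) (nat_lit 88)) (.br (Nat.shiftLeft (nat_lit 0x300000200480f) (nat_lit 65)) (.one (nat_lit 0x600000400901dc00000801203a411)) (.one (nat_lit 0x600000400901ec00000801203c411))) (.br (Nat.shiftLeft (nat_lit 0x300000280480f) (nat_lit 65)) (.one (nat_lit 0x600000500901dc00000a01203a411)) (.br (Nat.shiftLeft (nat_lit 0x3000003) (nat_lit 89)) (.one (nat_lit 0x600000500901ec00000a01203c411)) (.one (nat_lit 0x600000600901dc00000c01203a411))))) (.br (Nat.shiftLeft (nat_lit 0xc00001) (nat_lit 91)) (.br (Nat.shiftLeft (nat_lit 0x6000007) (nat_lit 88)) (.one (nat_lit 0x600000600901ec00000c01203c411)) (.one (nat_lit 0x600000700901dc00000e01203a411))) (.br (Nat.shiftLeft (nat_lit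 0x7) (nat_lit 112)) (.one (nat_lit 0x600000800901dc00001001203a411)) (.br (Nat.shiftLeft (nat_lit 0x1c00001) (nat_lit 90)) (.one (nat_lit 0x700000300901de00000601203a411)) (.one (nat_lit 0x700000400901de00000801203a411)))))) (.br (Nat.shiftLeft (nat_lit 0x7000007) (nat_lit 88)) (.br (Nat.shiftLeft (nat_lit 0x380000280480f) (nat_lit 65)) (.br (Nat.shiftLeft (nat_lit 0x7000005) (nat_lit 88)) (.one (nat_lit 0x700000400901ee00000801203c411)) (.one (nat_lit 0x700000500901de00000a01203a411))) (.br (Nat.shiftLeft (nat_lit 0x3800003) (nat_lit 89)) (.one (nat_lit 0x700000500901ee00000a01203c411)) (.br (Nat.shiftLeft (nat_lit 0x380000300480f) (nat_lit 65)) (.one (nat_lit 0x700000600901de00000c01203a411)) (.one (nat_lit 0x700000600901ee00000c01203c411))))) (.br (Nat.shiftLeft (nat_lit 0x1) (nat_lit 115)) (.br (Nat.shiftLeft (nat_lit 0xe00001) (nat_lit 91)) (.one (nat_lit 0x700000700901de00000e01203a411)) (.one (nat_lit 0x700000800901de00001001203a411))) (.br (Nat.shiftLeft (nat_lit 0x2000001) (nat_lit 90))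 (.one (nat_lit 0x800000300901d000000601213c411)) (.br (Nat.shiftLeft (nat_lit 0x400000200480f) (nat_lit 65)) (.one (nat_lit 0x800000400901d000000801213c411)) (.one (nat_lit 0x800000400901e000000801213e411))))))))
def t210 : k210.all (jb2 57 fl b0) = true := by decide +kernel
noncomputable def k211 : KT := (.br (Nat.shiftLeft (nat_lit 0x2400001) (nat_lit 90)) (.br (Nat.shiftLeft (nat_lit 0x400000300480f) (nat_lit 65)) (.br (Nat.shiftLeft (nat_lit 0x400000280480f) (nat_lit 65)) (.one (nat_lit 0x800000500901d000000a01213c411)) (.br (Nat.shiftLeft (nat_lit 0x4000003) (nat_lit 89)) (.one (nat_lit 0x800000500901e000000a01213e411)) (.one (nat_lit 0x800000600901d000000c01213c411)))) (.br (Nat.shiftLeft (nat_lit 0x1000001) (nat_lit 91)) (.br (Nat.shiftLeft (nat_lit 0x8000007) (nat_lit 88)) (.one (nat_lit 0x800000600901e000000c01213e411)) (.one (nat_lit 0x800000700901d000000e01213c411))) (.br (Nat.shiftLeft (nat_lit 0x9) (nat_lit 112)) (.one (nat_lit 0x800000800901d000001001213c411)) (.one (nat_lit 0x900000300901d200000601213c411)))))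 (.br (Nat.shiftLeft (nat_lit 0x4800003) (nat_lit 89)) (.br (Nat.shiftLeft (nat_lit 0x9000005) (nat_lit 88)) (.br (Nat.shiftLeft (nat_lit 0x480000200480f) (nat_lit 65)) (.one (nat_lit 0x900000400901d200000801213c411)) (.one (nat_lit 0x900000400901e200000801213e411))) (.br (Nat.shiftLeft (nat_lit 0x480000280480f) (nat_lit 65)) (.one (nat_lit 0x900000500901d200000a01213c411)) (.one (nat_lit 0x900000500901e200000a01213e411)))) (.br (Nat.shiftLeft (nat_lit 0x9000007) (nat_lit 88)) (.br (Nat.shiftLeft (nat_lit 0x480000300480f) (nat_lit 65)) (.one (nat_lit 0x900000600901d200000c01213c411)) (.one (nat_lit 0x900000600901e200000c01213e411))) (.br (Nat.shiftLeft (nat_lit 0x1200001) (nat_lit 91)) (.one (nat_lit 0x900000700901d200000e01213c411)) (.one (nat_lit 0x900000800901d200001001213c411))))))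
def t211 : k211.all (jb2 57 fl b0) = true := by decide +kernel
noncomputable def s10 : KT := (.br (nat_lit 0x200600901e000400c01203c540) (.br (nat_lit 0x100500901d000200a01203a540) (.br (nat_lit 0x700901d000000e01203b400) (.br (nat_lit 0x300901d000000601203b400) k191 k192) (.br (nat_lit 0x700901e000000e01203c430) k193 (.br (nat_lit 0x100300901d000200601203a540) k194 k195))) (.br (nat_lit 0x200300901d000400601203a540) (.br (nat_lit 0x100700901d000200e01203a540) k196 k197) (.br (nat_lit 0x200400901d000400801203a540) k198 (.br (nat_lit 0x200500901d000400a01203a540) k199 k200)))) (.br (nat_lit 0x300700901d000600e01203a540) (.br (nat_lit 0x300400901d000600801203a540) (.br (nat_lit 0x300000901e000600001203c311) k201 k202) (.br (nat_lit 0x300400901e000600801203c540) k203 (.br (nat_lit 0x300500901e000600a01203c540) k204 k205))) (.br (nat_lit 0x500600901e000a00c01203c540) (.br (nat_lit 0x400500901d000800a01203a540) k206 (.br (nat_lit 0x400600901e000800c01203c540) k207 k208)) (.br (nat_lit 0x300000800901d600001001203a411)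 k209 (.br (nat_lit 0x800000400901e000000801213e411) k210 k211)))))
noncomputable def u10 : KT := (.br (Nat.shiftLeft (nat_lit 0x480f) (nat_lit 65)) (.one (nat_lit 0x901d000000001203a320)) (.one (nat_lit 0x901e000000001203c320)))
def w10 : u10.all (wj 57 s10) = true := by decide +kernel
def o10 : OkW 57 (jb2 57 fl) u10 := .lift s10 _ (.br _ _ _ (.br _ _ _ (.br _ _ _ (.br _ _ _ (.leaf b0 k191 t191) (.leaf b0 k192 t192)) (.br _ _ _ (.leaf b0 k193 t193) (.br _ _ _ (.leaf b0 k194 t194) (.leaf b0 k195 t195)))) (.br _ _ _ (.br _ _ _ (.leaf b0 k196 t196) (.leaf b0 k197 t197)) (.br _ _ _ (.leaf b0 k198 t198) (.br _ _ _ (.leaf b0 k199 t199) (.leaf b0 k200 t200))))) (.br _ _ _ (.br _ _ _ (.br _ _ _ (.leaf b0 k201 t201) (.leaf b0 k202 t202)) (.br _ _ _ (.leaf b0 k203 t203) (.br _ _ _ (.leaf b0 k204 t204) (.leaf b0 k205 t205)))) (.br _ _ _ (.br _ _ _ (.leaf b0 k206 t206) (.br _ _ _ (.leaf b0 k207 t207) (.leaf b0 k208 t208))) (.br _ _ _ (.leaf b0 k209 t209) (.br _ _ _ (.leaf b0 k210 t210) (.leaf b0 k211 t211))))))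 w10
noncomputable def k212 : KT := (.br (Nat.shiftLeft (nat_lit 0xa019) (nat_lit 64)) (.br (Nat.shiftLeft (nat_lit 0x5) (nat_lit 77)) (.br (Nat.shiftLeft (nat_lit 0x481) (nat_lit 69)) (.one (nat_lit 0x901f000000001203f300)) (.br (Nat.shiftLeft (nat_lit 0x9021) (nat_lit 64)) (.one (nat_lit 0x90200000000012041300)) (.one (nat_lit 0x90210000000012043300)))) (.br (Nat.shiftLeft (nat_lit 0xa017) (nat_lit 64)) (.one (nat_lit 0xa016000000001402d300)) (.br (Nat.shiftLeft (nat_lit 0x1403) (nat_lit 67)) (.one (nat_lit 0xa017000000001402f300)) (.one (nat_lit 0xa0180000000014031300))))) (.br (Nat.shiftLeft (nat_lit 0x1009021) (nat_lit 64)) (.br (Nat.shiftLeft (nat_lit 0x1) (nat_lit 88)) (.one (nat_lit 0xa0190000000014033300)) (.br (Nat.shiftLeft (nat_lit 0x80481) (nat_lit 69)) (.one (nat_lit 0x100901f000000201203e430)) (.one (nat_lit 0x10090200000002012040430)))) (.br (Nat.shiftLeft (nat_lit 0x100481) (nat_lit 69)) (.br (Nat.shiftLeft (nat_lit 0x1) (nat_lit 89)) (.one (nat_lit 0x10090210000002012042430)) (.one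 (nat_lit 0x200901f000000401203e430))) (.br (Nat.shiftLeft (nat_lit 0x2009021) (nat_lit 64)) (.one (nat_lit 0x20090200000004012040430)) (.one (nat_lit 0x20090210000004012042430))))))
def t212 : k212.all (jb2 57 fl b0) = true := by decide +kernel
noncomputable def k213 : KT := (.one (nat_lit 0x300901f000000601203e430))
def t213 : k213.all (jb2 57 fl b0) = true := by decide +kernel
noncomputable def k214 : KT := (.one (nat_lit 0x30090200000006012040430))
def t214 : k214.all (jb2 57 fl b0) = true := by decide +kernel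
noncomputable def k215 : KT := (.br (Nat.shiftLeft (nat_lit 0x1) (nat_lit 90)) (.one (nat_lit 0x30090210000006012042430)) (.one (nat_lit 0x400901f000000801203f400)))
def t215 : k215.all (jb2 57 fl b0) = true := by decide +kernel
noncomputable def k216 : KT := (.one (nat_lit 0x40090200000008012040430))
def t216 : k216.all (jb2 57 fl b0) = true := by decide +kernel
noncomputable def k217 : KT := (.br (Nat.shiftLeft (nat_lit 0x5) (nat_lit 88)) (.one (nat_lit 0x40090210000008012042430)) (.one (nat_lit 0x500901f000000a01203f400)))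
def t217 : k217.all (jb2 57 fl b0) = true := by decide +kernel
noncomputable def k218 : KT := (.one (nat_lit 0x5009020000000a012040430))
def t218 : k218.all (jb2 57 fl b0) = true := by decide +kernel
noncomputable def k219 : KT := (.one (nat_lit 0x5009021000000a012042430))
def t219 : k219.all (jb2 57 fl b0) = true := by decide +kernel
noncomputable def k220 : KT := (.one (nat_lit 0x600901f000000c01203e430))
def t220 : k220.all (jb2 57 fl b0) = true := by decide +kernel
noncomputable def k221 : KT := (.one (nat_lit 0x6009020000000c012040430))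
def t221 : k221.all (jb2 57 fl b0) = true := by decide +kernel
noncomputable def k222 : KT := (.one (nat_lit 0x6009021000000c012042430))
def t222 : k222.all (jb2 57 fl b0) = true := by decide +kernel
noncomputable def k223 : KT := (.one (nat_lit 0x700901f000000e01203e430))
def t223 : k223.all (jb2 57 fl b0) = true := by decide +kernel
noncomputable def k224 : KT := (.br (Nat.shiftLeft (nat_lit 0x7009021) (nat_lit 64)) (.one (nat_lit 0x7009020000000e012040430)) (.one (nat_lit 0x7009021000000e012042430)))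
def t224 : k224.all (jb2 57 fl b0) = true := by decide +kernel
noncomputable def k225 : KT := (.br (Nat.shiftLeft (nat_lit 0x1) (nat_lit 100)) (.br (Nat.shiftLeft (nat_lit 0x400481) (nat_lit 69)) (.one (nat_lit 0x800901f000001001203e430)) (.br (Nat.shiftLeft (nat_lit 0x8009021) (nat_lit 64)) (.one (nat_lit 0x80090200000010012040430)) (.one (nat_lit 0x80090210000010012042430)))) (.br (Nat.shiftLeft (nat_lit 0x80000481) (nat_lit 69)) (.one (nat_lit 0x100000901f000200001203e311)) (.br (Nat.shiftLeft (nat_lit 0x1000009021) (nat_lit 64)) (.one (nat_lit 0x10000090200002000012040311)) (.one (nat_lit 0x10000090210002000012042311)))))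
def t225 : k225.all (jb2 57 fl b0) = true := by decide +kernel
noncomputable def k226 : KT := (.br (Nat.shiftLeft (nat_lit 0x100000481) (nat_lit 69)) (.br (Nat.shiftLeft (nat_lit 0x1005) (nat_lit 88)) (.one (nat_lit 0x100400901f000200801203e540)) (.br (Nat.shiftLeft (nat_lit 0x1) (nat_lit 101)) (.one (nat_lit 0x100500901f000200a01203e540)) (.one (nat_lit 0x200000901f000400001203e311)))) (.br (Nat.shiftLeft (nat_lit 0x2000009021) (nat_lit 64)) (.one (nat_lit 0x20000090200004000012040311)) (.br (Nat.shiftLeft (nat_lit 0x801) (nat_lit 90)) (.one (nat_lit 0x20000090210004000012042311)) (.one (nat_lit 0x200400901f000400801203e540)))))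
def t226 : k226.all (jb2 57 fl b0) = true := by decide +kernel
noncomputable def k227 : KT := (.br (Nat.shiftLeft (nat_lit 0xc01) (nat_lit 90)) (.br (Nat.shiftLeft (nat_lit 0x180000481) (nat_lit 69)) (.br (Nat.shiftLeft (nat_lit 0x3) (nat_lit 100)) (.one (nat_lit 0x200500901f000400a01203e540)) (.one (nat_lit 0x300000901f000600001203e311))) (.br (Nat.shiftLeft (nat_lit 0x3000009021) (nat_lit 64)) (.one (nat_lit 0x30000090200006000012040311)) (.one (nat_lit 0x30000090210006000012042311)))) (.br (Nat.shiftLeft (nat_lit 0x1) (nat_lit 102)) (.br (Nat.shiftLeft (nat_lit 0x3005) (nat_lit 88)) (.one (nat_lit 0x300400901f000600801203e540)) (.one (nat_lit 0x300500901f000600a01203e540))) (.br (Nat.shiftLeft (nat_lit 0x200000481) (nat_lit 69)) (.one (nat_lit 0x400000901f000800001203e311)) (.br (Nat.shiftLeft (nat_lit 0x4000009021) (nat_lit 64)) (.one (nat_lit 0x40000090200008000012040311)) (.one (nat_lit 0x40000090210008000012042311))))))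
def t227 : k227.all (jb2 57 fl b0) = true := by decide +kernel
noncomputable def k228 : KT := (.br (Nat.shiftLeft (nat_lit 0x1000005) (nat_lit 88)) (.br (Nat.shiftLeft (nat_lit 0x380000481) (nat_lit 69)) (.br (Nat.shiftLeft (nat_lit 0x3) (nat_lit 101)) (.br (Nat.shiftLeft (nat_lit 0x280000481) (nat_lit 69)) (.br (Nat.shiftLeft (nat_lit 0x5) (nat_lit 100)) (.one (nat_lit 0x400500901f000800a01203e540)) (.one (nat_lit 0x500000901f000a00001203e311))) (.br (Nat.shiftLeft (nat_lit 0x5000009021) (nat_lit 64)) (.one (nat_lit 0x5000009020000a000012040311)) (.one (nat_lit 0x5000009021000a000012042311)))) (.br (Nat.shiftLeft (nat_lit 0x6000009021) (nat_lit 64)) (.br (Nat.shiftLeft (nat_lit 0x300000481) (nat_lit 69)) (.one (nat_lit 0x600000901f000c00001203e311)) (.one (nat_lit 0x6000009020000c000012040311))) (.br (Nat.shiftLeft (nat_lit 0x7) (nat_lit 100)) (.one (nat_lit 0x6000009021000c000012042311)) (.one (nat_lit 0x700000901f000e00001203e311))))) (.br (Nat.shiftLeft (nat_lit 0x8000009021) (nat_lit 64)) (.br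 (Nat.shiftLeft (nat_lit 0x1) (nat_lit 103)) (.br (Nat.shiftLeft (nat_lit 0x7000009021) (nat_lit 64)) (.one (nat_lit 0x7000009020000e000012040311)) (.one (nat_lit 0x7000009021000e000012042311))) (.br (Nat.shiftLeft (nat_lit 0x400000481) (nat_lit 69)) (.one (nat_lit 0x800000901f001000001203e311)) (.one (nat_lit 0x80000090200010000012040311)))) (.br (Nat.shiftLeft (nat_lit 0x480000481) (nat_lit 69)) (.br (Nat.shiftLeft (nat_lit 0x9) (nat_lit 100)) (.one (nat_lit 0x80000090210010000012042311)) (.one (nat_lit 0x900000901f001200001203e311))) (.br (Nat.shiftLeft (nat_lit 0x9000009021) (nat_lit 64)) (.one (nat_lit 0x90000090200012000012040311)) (.br (Nat.shiftLeft (nat_lit 0x1) (nat_lit 112)) (.one (nat_lit 0x90000090210012000012042311)) (.one (nat_lit 0x100000400901f200000801203e411))))))) (.br (Nat.shiftLeft (nat_lit 0x5000005) (nat_lit 88)) (.br (Nat.shiftLeft (nat_lit 0x3000005) (nat_lit 88)) (.br (Nat.shiftLeft (nat_lit 0x2000005) (nat_lit 88)) (.br (Nat.shiftLeft (nat_lit 0x1) (nat_lit 113)) (.one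 (nat_lit 0x100000500901f200000a01203e411)) (.one (nat_lit 0x200000400901f400000801203e411))) (.br (Nat.shiftLeft (nat_lit 0x3) (nat_lit 112)) (.one (nat_lit 0x200000500901f400000a01203e411)) (.one (nat_lit 0x300000400901f600000801203e411)))) (.br (Nat.shiftLeft (nat_lit 0x4000005) (nat_lit 88)) (.br (Nat.shiftLeft (nat_lit 0x1) (nat_lit 114)) (.one (nat_lit 0x300000500901f600000a01203e411)) (.one (nat_lit 0x400000400901f800000801203e411))) (.br (Nat.shiftLeft (nat_lit 0x5) (nat_lit 112)) (.one (nat_lit 0x400000500901f800000a01203e411)) (.one (nat_lit 0x500000400901fa00000801203e411))))) (.br (Nat.shiftLeft (nat_lit 0x7000005) (nat_lit 88)) (.br (Nat.shiftLeft (nat_lit 0x6000005) (nat_lit 88)) (.br (Nat.shiftLeft (nat_lit 0x3) (nat_lit 113)) (.one (nat_lit 0x500000500901fa00000a01203e411)) (.one (nat_lit 0x600000400901fc00000801203e411))) (.br (Nat.shiftLeft (nat_lit 0x7) (nat_lit 112)) (.one (nat_lit 0x600000500901fc00000a01203e411)) (.one (nat_lit 0x700000400901fe00000801203e411)))) (.br (Nat.shiftLeft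 (nat_lit 0x8000005) (nat_lit 88)) (.br (Nat.shiftLeft (nat_lit 0x1) (nat_lit 115)) (.one (nat_lit 0x700000500901fe00000a01203e411)) (.one (nat_lit 0x800000400901f0000008012140411))) (.br (Nat.shiftLeft (nat_lit 0x9) (nat_lit 112)) (.one (nat_lit 0x800000500901f000000a012140411)) (.br (Nat.shiftLeft (nat_lit 0x9000005) (nat_lit 88)) (.one (nat_lit 0x900000400901f2000008012140411)) (.one (nat_lit 0x900000500901f200000a012140411))))))))
def t228 : k228.all (jb2 57 fl b0) = true := by decide +kernel
noncomputable def s11 : KT := (.br (nat_lit 0x5009021000000a012042430) (.br (nat_lit 0x400901f000000801203f400) (.br (nat_lit 0x300901f000000601203e430) (.br (nat_lit 0x20090210000004012042430) k212 k213) (.br (nat_lit 0x30090200000006012040430) k214 k215)) (.br (nat_lit 0x500901f000000a01203f400) (.br (nat_lit 0x40090200000008012040430) k216 k217) (.br (nat_lit 0x5009020000000a012040430) k218 k219))) (.br (nat_lit 0x700901f000000e01203e430) (.br (nat_lit 0x6009020000000c012040430) (.br (nat_lit 0x600901f000000c01203e430)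 k220 k221) (.br (nat_lit 0x6009021000000c012042430) k222 k223)) (.br (nat_lit 0x10000090210002000012042311) (.br (nat_lit 0x7009021000000e012042430) k224 k225) (.br (nat_lit 0x200400901f000400801203e540) k226 (.br (nat_lit 0x40000090210008000012042311) k227 k228)))))
noncomputable def u11 : KT := (.br (Nat.shiftLeft (nat_lit 0x5) (nat_lit 77)) (.br (Nat.shiftLeft (nat_lit 0x481) (nat_lit 69)) (.one (nat_lit 0x901f000000001203e320)) (.br (Nat.shiftLeft (nat_lit 0x9021) (nat_lit 64)) (.one (nat_lit 0x90200000000012040320)) (.one (nat_lit 0x90210000000012042320)))) (.br (Nat.shiftLeft (nat_lit 0x1403) (nat_lit 67)) (.br (Nat.shiftLeft (nat_lit 0xa017) (nat_lit 64)) (.one (nat_lit 0xa016000000001402d300)) (.one (nat_lit 0xa017000000001402f300))) (.br (Nat.shiftLeft (nat_lit 0xa019) (nat_lit 64)) (.one (nat_lit 0xa0180000000014031300)) (.one (nat_lit 0xa0190000000014033300)))))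
def w11 : u11.all (wj 57 s11) = true := by decide +kernel
def o11 : OkW 57 (jb2 57 fl) u11 := .lift s11 _ (.br _ _ _ (.br _ _ _ (.br _ _ _ (.br _ _ _ (.leaf b0 k212 t212) (.leaf b0 k213 t213)) (.br _ _ _ (.leaf b0 k214 t214) (.leaf b0 k215 t215))) (.br _ _ _ (.br _ _ _ (.leaf b0 k216 t216) (.leaf b0 k217 t217)) (.br _ _ _ (.leaf b0 k218 t218) (.leaf b0 k219 t219)))) (.br _ _ _ (.br _ _ _ (.br _ _ _ (.leaf b0 k220 t220) (.leaf b0 k221 t221)) (.br _ _ _ (.leaf b0 k222 t222) (.leaf b0 k223 t223))) (.br _ _ _ (.br _ _ _ (.leaf b0 k224 t224) (.leaf b0 k225 t225)) (.br _ _ _ (.leaf b0 k226 t226) (.br _ _ _ (.leaf b0 k227 t227) (.leaf b0 k228 t228)))))) w11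
noncomputable def k229 : KT := (.br (Nat.shiftLeft (nat_lit 0x3) (nat_lit 89)) (.br (Nat.shiftLeft (nat_lit 0x3) (nat_lit 88)) (.br (Nat.shiftLeft (nat_lit 0x1) (nat_lit 88)) (.one (nat_lit 0xa01a0000000014035300)) (.br (Nat.shiftLeft (nat_lit 0x1) (nat_lit 89)) (.one (nat_lit 0x100a01a0000002014034430)) (.one (nat_lit 0x200a01a0000004014034430)))) (.br (Nat.shiftLeft (nat_lit 0x1) (nat_lit 90)) (.one (nat_lit 0x300a01a0000006014035400)) (.br (Nat.shiftLeft (nat_lit 0x5) (nat_lit 88)) (.one (nat_lit 0x400a01a0000008014035400)) (.one (nat_lit 0x500a01a000000a014035400))))) (.br (Nat.shiftLeft (nat_lit 0x9) (nat_lit 88)) (.br (Nat.shiftLeft (nat_lit 0x7) (nat_lit 88)) (.one (nat_lit 0x600a01a000000c014035400)) (.br (Nat.shiftLeft (nat_lit 0x1) (nat_lit 91)) (.one (nat_lit 0x700a01a000000e014035400)) (.one (nat_lit 0x800a01a0000010014035400)))) (.br (Nat.shiftLeft (nat_lit 0x1) (nat_lit 100)) (.one (nat_lit 0x900a01a0000012014035400)) (.br (Nat.shiftLeft (nat_lit 0x801) (nat_lit 89)) (.one (nat_lit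 0x100000a01a0002000014034311)) (.one (nat_lit 0x100300a01a0002006014034540))))))
def t229 : k229.all (jb2 57 fl b0) = true := by decide +kernel
noncomputable def k230 : KT := (.br (Nat.shiftLeft (nat_lit 0x1005) (nat_lit 88)) (.one (nat_lit 0x100400a01a0002008014034540)) (.one (nat_lit 0x100500a01a000200a014034540)))
def t230 : k230.all (jb2 57 fl b0) = true := by decide +kernel
noncomputable def k231 : KT := (.br (Nat.shiftLeft (nat_lit 0x1007) (nat_lit 88)) (.one (nat_lit 0x100600a01a000200c014034540)) (.br (Nat.shiftLeft (nat_lit 0x201) (nat_lit 91)) (.one (nat_lit 0x100700a01a000200e014034540)) (.one (nat_lit 0x100800a01a0002010014034540))))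
def t231 : k231.all (jb2 57 fl b0) = true := by decide +kernel
noncomputable def k232 : KT := (.br (Nat.shiftLeft (nat_lit 0x1) (nat_lit 101)) (.one (nat_lit 0x100900a01a0002012014034540)) (.one (nat_lit 0x200000a01a0004000014034311)))
def t232 : k232.all (jb2 57 fl b0) = true := by decide +kernel
noncomputable def k233 : KT := (.br (Nat.shiftLeft (nat_lit 0x801) (nat_lit 90)) (.one (nat_lit 0x200300a01a0004006014034540)) (.one (nat_lit 0x200400a01a0004008014035500)))
def t233 : k233.all (jb2 57 fl b0) = true := by decide +kernel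
noncomputable def k234 : KT := (.one (nat_lit 0x200500a01a000400a014034540))
def t234 : k234.all (jb2 57 fl b0) = true := by decide +kernel
noncomputable def k235 : KT := (.one (nat_lit 0x200600a01a000400c014034540))
def t235 : k235.all (jb2 57 fl b0) = true := by decide +kernel
noncomputable def k236 : KT := (.br (Nat.shiftLeft (nat_lit 0x401) (nat_lit 91)) (.one (nat_lit 0x200700a01a000400e014034540)) (.one (nat_lit 0x200800a01a0004010014034540)))
def t236 : k236.all (jb2 57 fl b0) = true := by decide +kernel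
noncomputable def k237 : KT := (.br (Nat.shiftLeft (nat_lit 0xc01) (nat_lit 90)) (.br (Nat.shiftLeft (nat_lit 0x3) (nat_lit 100)) (.one (nat_lit 0x200900a01a0004012014034540)) (.one (nat_lit 0x300000a01a0006000014034311))) (.br (Nat.shiftLeft (nat_lit 0x3005) (nat_lit 88)) (.one (nat_lit 0x300400a01a0006008014035500)) (.one (nat_lit 0x300500a01a000600a014035500))))
def t237 : k237.all (jb2 57 fl b0) = true := by decide +kernel
noncomputable def k238 : KT := (.one (nat_lit 0x300600a01a000600c014034540))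
def t238 : k238.all (jb2 57 fl b0) = true := by decide +kernel
noncomputable def k239 : KT := (.br (Nat.shiftLeft (nat_lit 0x601) (nat_lit 91)) (.one (nat_lit 0x300700a01a000600e014034540)) (.one (nat_lit 0x300800a01a0006010014034540)))
def t239 : k239.all (jb2 57 fl b0) = true := by decide +kernel
noncomputable def k240 : KT := (.br (Nat.shiftLeft (nat_lit 0x1) (nat_lit 102)) (.one (nat_lit 0x300900a01a0006012014034540)) (.br (Nat.shiftLeft (nat_lit 0x1001) (nat_lit 90)) (.one (nat_lit 0x400000a01a0008000014034311)) (.one (nat_lit 0x400500a01a000800a014035500))))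
def t240 : k240.all (jb2 57 fl b0) = true := by decide +kernel
noncomputable def k241 : KT := (.one (nat_lit 0x400600a01a000800c014034540))
def t241 : k241.all (jb2 57 fl b0) = true := by decide +kernel
noncomputable def k242 : KT := (.br (Nat.shiftLeft (nat_lit 0x801) (nat_lit 91)) (.one (nat_lit 0x400700a01a000800e014034540)) (.one (nat_lit 0x400800a01a0008010014034540)))
def t242 : k242.all (jb2 57 fl b0) = true := by decide +kernel
noncomputable def k243 : KT := (.br (Nat.shiftLeft (nat_lit 0x5) (nat_lit 100)) (.one (nat_lit 0x400900a01a0008012014034540)) (.br (Nat.shiftLeft (nat_lit 0x1401) (nat_lit 90)) (.one (nat_lit 0x500000a01a000a000014034311)) (.one (nat_lit 0x500600a01a000a00c014034540))))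
def t243 : k243.all (jb2 57 fl b0) = true := by decide +kernel
noncomputable def k244 : KT := (.br (Nat.shiftLeft (nat_lit 0x5009) (nat_lit 88)) (.br (Nat.shiftLeft (nat_lit 0xa01) (nat_lit 91)) (.one (nat_lit 0x500700a01a000a00e014034540)) (.one (nat_lit 0x500800a01a000a010014034540))) (.br (Nat.shiftLeft (nat_lit 0x3) (nat_lit 101)) (.one (nat_lit 0x500900a01a000a012014034540)) (.one (nat_lit 0x600000a01a000c000014034311))))
def t244 : k244.all (jb2 57 fl b0) = true := by decide +kernel
noncomputable def k245 : KT := (.br (Nat.shiftLeft (nat_lit 0x9) (nat_lit 100)) (.br (Nat.shiftLeft (nat_lit 0xe01) (nat_lit 91)) (.br (Nat.shiftLeft (nat_lit 0x6009) (nat_lit 88)) (.br (Nat.shiftLeft (nat_lit 0xc01) (nat_lit 91)) (.one (nat_lit 0x600700a01a000c00e014034540)) (.one (nat_lit 0x600800a01a000c010014034540))) (.br (Nat.shiftLeft (nat_lit 0x7) (nat_lit 100)) (.one (nat_lit 0x600900a01a000c012014034540)) (.one (nat_lit 0x700000a01a000e000014034311)))) (.br (Nat.shiftLeft (nat_lit 0x1) (nat_lit 103))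 (.br (Nat.shiftLeft (nat_lit 0x7009) (nat_lit 88)) (.one (nat_lit 0x700800a01a000e010014034540)) (.one (nat_lit 0x700900a01a000e012014034540))) (.br (Nat.shiftLeft (nat_lit 0x1001) (nat_lit 91)) (.one (nat_lit 0x800000a01a0010000014034311)) (.one (nat_lit 0x800900a01a0010012014034540))))) (.br (Nat.shiftLeft (nat_lit 0x1000005) (nat_lit 88)) (.br (Nat.shiftLeft (nat_lit 0x1) (nat_lit 112)) (.br (Nat.shiftLeft (nat_lit 0x5) (nat_lit 101)) (.one (nat_lit 0x900000a01a0012000014034311)) (.one (nat_lit 0xa00000a01a0014000014034311))) (.br (Nat.shiftLeft (nat_lit 0x400001) (nat_lit 90)) (.one (nat_lit 0x100000300a01a2000006014034411)) (.one (nat_lit 0x100000400a01a2000008014034411)))) (.br (Nat.shiftLeft (nat_lit 0x1000007) (nat_lit 88)) (.br (Nat.shiftLeft (nat_lit 0x800003) (nat_lit 89)) (.one (nat_lit 0x100000500a01a200000a014034411)) (.one (nat_lit 0x100000600a01a200000c014034411))) (.br (Nat.shiftLeft (nat_lit 0x200001) (nat_lit 91)) (.one (nat_lit 0x100000700a01a200000e014034411)) (.br (Nat.shiftLeft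 (nat_lit 0x1000009) (nat_lit 88)) (.one (nat_lit 0x100000800a01a2000010014034411)) (.one (nat_lit 0x100000900a01a2000012014034411)))))))
def t245 : k245.all (jb2 57 fl b0) = true := by decide +kernel
noncomputable def k246 : KT := (.br (Nat.shiftLeft (nat_lit 0x1003) (nat_lit 100)) (.one (nat_lit 0x100200400a01a2004008014034650)) (.one (nat_lit 0x100300400a01a2006008014034650)))
def t246 : k246.all (jb2 57 fl b0) = true := by decide +kernel
noncomputable def k247 : KT := (.br (Nat.shiftLeft (nat_lit 0x2000005) (nat_lit 88)) (.br (Nat.shiftLeft (nat_lit 0x1) (nat_lit 113)) (.br (Nat.shiftLeft (nat_lit 0x401) (nat_lit 102)) (.one (nat_lit 0x100300500a01a200600a014034650)) (.one (nat_lit 0x100400500a01a200800a014034650))) (.br (Nat.shiftLeft (nat_lit 0x800001) (nat_lit 90)) (.one (nat_lit 0x200000300a01a4000006014034411)) (.one (nat_lit 0x200000400a01a4000008014034411)))) (.br (Nat.shiftLeft (nat_lit 0x2000007) (nat_lit 88)) (.br (Nat.shiftLeft (nat_lit 0x1000003) (nat_lit 89)) (.one (nat_lit 0x200000500a01a400000a014034411))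 (.one (nat_lit 0x200000600a01a400000c014034411))) (.br (Nat.shiftLeft (nat_lit 0x400001) (nat_lit 91)) (.one (nat_lit 0x200000700a01a400000e014034411)) (.br (Nat.shiftLeft (nat_lit 0x2000009) (nat_lit 88)) (.one (nat_lit 0x200000800a01a4000010014034411)) (.one (nat_lit 0x200000900a01a4000012014034411))))))
def t247 : k247.all (jb2 57 fl b0) = true := by decide +kernel
noncomputable def k248 : KT := (.br (Nat.shiftLeft (nat_lit 0x2003005) (nat_lit 88)) (.one (nat_lit 0x200300400a01a4006008014034650)) (.one (nat_lit 0x200300500a01a400600a014034650)))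
def t248 : k248.all (jb2 57 fl b0) = true := by decide +kernel
noncomputable def k249 : KT := (.br (Nat.shiftLeft (nat_lit 0x2000003) (nat_lit 89)) (.br (Nat.shiftLeft (nat_lit 0x600001) (nat_lit 91)) (.br (Nat.shiftLeft (nat_lit 0x3000005) (nat_lit 88)) (.br (Nat.shiftLeft (nat_lit 0x3) (nat_lit 112)) (.one (nat_lit 0x200400500a01a400800a014034650)) (.br (Nat.shiftLeft (nat_lit 0xc00001) (nat_lit 90)) (.one (nat_lit 0x300000300a01a6000006014034411)) (.one (nat_lit 0x300000400a01a6000008014034411)))) (.br (Nat.shiftLeft (nat_lit 0x1800003) (nat_lit 89)) (.one (nat_lit 0x300000500a01a600000a014034411)) (.br (Nat.shiftLeft (nat_lit 0x3000007) (nat_lit 88)) (.one (nat_lit 0x300000600a01a600000c014034411)) (.one (nat_lit 0x300000700a01a600000e014034411))))) (.br (Nat.shiftLeft (nat_lit 0x1) (nat_lit 114)) (.br (Nat.shiftLeft (nat_lit 0x3000009) (nat_lit 88)) (.one (nat_lit 0x300000800a01a6000010014034411)) (.br (Nat.shiftLeft (nat_lit 0xc01) (nat_lit 102)) (.one (nat_lit 0x300000900a01a6000012014034411))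 (.one (nat_lit 0x300400500a01a600800a014034650)))) (.br (Nat.shiftLeft (nat_lit 0x1000001) (nat_lit 90)) (.one (nat_lit 0x400000300a01a8000006014034411)) (.br (Nat.shiftLeft (nat_lit 0x4000005) (nat_lit 88)) (.one (nat_lit 0x400000400a01a8000008014034411)) (.one (nat_lit 0x400000500a01a800000a014034411)))))) (.br (Nat.shiftLeft (nat_lit 0x5000005) (nat_lit 88)) (.br (Nat.shiftLeft (nat_lit 0x4000009) (nat_lit 88)) (.br (Nat.shiftLeft (nat_lit 0x4000007) (nat_lit 88)) (.one (nat_lit 0x400000600a01a800000c014034411)) (.br (Nat.shiftLeft (nat_lit 0x800001) (nat_lit 91)) (.one (nat_lit 0x400000700a01a800000e014034411)) (.one (nat_lit 0x400000800a01a8000010014034411)))) (.br (Nat.shiftLeft (nat_lit 0x5) (nat_lit 112)) (.one (nat_lit 0x400000900a01a8000012014034411)) (.br (Nat.shiftLeft (nat_lit 0x1400001) (nat_lit 90)) (.one (nat_lit 0x500000300a01aa000006014034411)) (.one (nat_lit 0x500000400a01aa000008014034411))))) (.br (Nat.shiftLeft (nat_lit 0xa00001) (nat_lit 91)) (.br (Nat.shiftLeft (nat_lit 0x2800003)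 (nat_lit 89)) (.one (nat_lit 0x500000500a01aa00000a014034411)) (.br (Nat.shiftLeft (nat_lit 0x5000007) (nat_lit 88)) (.one (nat_lit 0x500000600a01aa00000c014034411)) (.one (nat_lit 0x500000700a01aa00000e014034411)))) (.br (Nat.shiftLeft (nat_lit 0x3) (nat_lit 113)) (.br (Nat.shiftLeft (nat_lit 0x5000009) (nat_lit 88)) (.one (nat_lit 0x500000800a01aa000010014034411)) (.one (nat_lit 0x500000900a01aa000012014034411))) (.br (Nat.shiftLeft (nat_lit 0x1800001) (nat_lit 90)) (.one (nat_lit 0x600000300a01ac000006014034411)) (.one (nat_lit 0x600000400a01ac000008014034411)))))))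
def t249 : k249.all (jb2 57 fl b0) = true := by decide +kernel
noncomputable def k250 : KT := (.br (Nat.shiftLeft (nat_lit 0x2400001) (nat_lit 90)) (.br (Nat.shiftLeft (nat_lit 0xe00001) (nat_lit 91)) (.br (Nat.shiftLeft (nat_lit 0x7) (nat_lit 112)) (.br (Nat.shiftLeft (nat_lit 0x6000007) (nat_lit 88)) (.br (Nat.shiftLeft (nat_lit 0x3000003) (nat_lit 89)) (.one (nat_lit 0x600000500a01ac00000a014034411)) (.one (nat_lit 0x600000600a01ac00000c014034411))) (.br (Nat.shiftLeft (nat_lit 0xc00001) (nat_lit 91)) (.one (nat_lit 0x600000700a01ac00000e014034411)) (.br (Nat.shiftLeft (nat_lit 0x6000009) (nat_lit 88)) (.one (nat_lit 0x600000800a01ac000010014034411)) (.one (nat_lit 0x600000900a01ac000012014034411))))) (.br (Nat.shiftLeft (nat_lit 0x7000005) (nat_lit 88)) (.br (Nat.shiftLeft (nat_lit 0x1c00001) (nat_lit 90)) (.one (nat_lit 0x700000300a01ae000006014034411)) (.one (nat_lit 0x700000400a01ae000008014034411))) (.br (Nat.shiftLeft (nat_lit 0x3800003) (nat_lit 89)) (.one (nat_lit 0x700000500a01ae00000a014034411))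 (.br (Nat.shiftLeft (nat_lit 0x7000007) (nat_lit 88)) (.one (nat_lit 0x700000600a01ae00000c014034411)) (.one (nat_lit 0x700000700a01ae00000e014034411)))))) (.br (Nat.shiftLeft (nat_lit 0x4000003) (nat_lit 89)) (.br (Nat.shiftLeft (nat_lit 0x1) (nat_lit 115)) (.br (Nat.shiftLeft (nat_lit 0x7000009) (nat_lit 88)) (.one (nat_lit 0x700000800a01ae000010014034411)) (.one (nat_lit 0x700000900a01ae000012014034411))) (.br (Nat.shiftLeft (nat_lit 0x2000001) (nat_lit 90)) (.one (nat_lit 0x800000300a01a0000006014136411)) (.br (Nat.shiftLeft (nat_lit 0x8000005) (nat_lit 88)) (.one (nat_lit 0x800000400a01a0000008014136411)) (.one (nat_lit 0x800000500a01a000000a014136411))))) (.br (Nat.shiftLeft (nat_lit 0x1000001) (nat_lit 91)) (.br (Nat.shiftLeft (nat_lit 0x8000007) (nat_lit 88)) (.one (nat_lit 0x800000600a01a000000c014136411)) (.one (nat_lit 0x800000700a01a000000e014136411))) (.br (Nat.shiftLeft (nat_lit 0x8000009) (nat_lit 88)) (.one (nat_lit 0x800000800a01a0000010014136411)) (.br (Nat.shiftLeft (nat_lit 0x9)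 (nat_lit 112)) (.one (nat_lit 0x800000900a01a0000012014136411)) (.one (nat_lit 0x900000300a01a2000006014136411))))))) (.br (Nat.shiftLeft (nat_lit 0xa000007) (nat_lit 88)) (.br (Nat.shiftLeft (nat_lit 0x9000009) (nat_lit 88)) (.br (Nat.shiftLeft (nat_lit 0x4800003) (nat_lit 89)) (.br (Nat.shiftLeft (nat_lit 0x9000005) (nat_lit 88)) (.one (nat_lit 0x900000400a01a2000008014136411)) (.one (nat_lit 0x900000500a01a200000a014136411))) (.br (Nat.shiftLeft (nat_lit 0x9000007) (nat_lit 88)) (.one (nat_lit 0x900000600a01a200000c014136411)) (.br (Nat.shiftLeft (nat_lit 0x1200001) (nat_lit 91)) (.one (nat_lit 0x900000700a01a200000e014136411)) (.one (nat_lit 0x900000800a01a2000010014136411))))) (.br (Nat.shiftLeft (nat_lit 0x2800001) (nat_lit 90)) (.br (Nat.shiftLeft (nat_lit 0x5) (nat_lit 113)) (.one (nat_lit 0x900000900a01a2000012014136411)) (.one (nat_lit 0xa00000300a01a4000006014136411))) (.br (Nat.shiftLeft (nat_lit 0xa000005) (nat_lit 88)) (.one (nat_lit 0xa00000400a01a4000008014136411)) (.br (Nat.shiftLeft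 (nat_lit 0x5000003) (nat_lit 89)) (.one (nat_lit 0xa00000500a01a400000a014136411)) (.one (nat_lit 0xa00000600a01a400000c014136411)))))) (.br (Nat.shiftLeft (nat_lit 0x1000003005) (nat_lit 88)) (.br (Nat.shiftLeft (nat_lit 0xa000009) (nat_lit 88)) (.br (Nat.shiftLeft (nat_lit 0x1400001) (nat_lit 91)) (.one (nat_lit 0xa00000700a01a400000e014136411)) (.one (nat_lit 0xa00000800a01a4000010014136411))) (.br (Nat.shiftLeft (nat_lit 0x1) (nat_lit 124)) (.one (nat_lit 0xa00000900a01a4000012014136411)) (.br (Nat.shiftLeft (nat_lit 0x1000003) (nat_lit 100)) (.one (nat_lit 0x100000200400a01a0004008034434511)) (.one (nat_lit 0x100000300400a01a0006008034434511))))) (.br (Nat.shiftLeft (nat_lit 0x1) (nat_lit 125)) (.br (Nat.shiftLeft (nat_lit 0x400001) (nat_lit 102)) (.one (nat_lit 0x100000300500a01a000600a034434511)) (.one (nat_lit 0x100000400500a01a000800a034434511))) (.br (Nat.shiftLeft (nat_lit 0x2000003) (nat_lit 100)) (.one (nat_lit 0x200000200400a01a0004008054834511)) (.br (Nat.shiftLeft (nat_lit 0x2000003005)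 (nat_lit 88)) (.one (nat_lit 0x200000300400a01a0006008054834511)) (.one (nat_lit 0x200000300500a01a000600a054834511))))))))
def t250 : k250.all (jb2 57 fl b0) = true := by decide +kernel
noncomputable def k251 : KT := (.br (Nat.shiftLeft (nat_lit 0x1000001) (nat_lit 102)) (.br (Nat.shiftLeft (nat_lit 0xc00001) (nat_lit 102)) (.br (Nat.shiftLeft (nat_lit 0x3000003) (nat_lit 100)) (.br (Nat.shiftLeft (nat_lit 0x3) (nat_lit 124)) (.one (nat_lit 0x200000400500a01a000800a054834511)) (.one (nat_lit 0x300000200400a01a0004008074c34511))) (.br (Nat.shiftLeft (nat_lit 0x3000003005) (nat_lit 88)) (.one (nat_lit 0x300000300400a01a0006008074c34511)) (.one (nat_lit 0x300000300500a01a000600a074c34511)))) (.br (Nat.shiftLeft (nat_lit 0x4000003) (nat_lit 100)) (.br (Nat.shiftLeft (nat_lit 0x1) (nat_lit 126)) (.one (nat_lit 0x300000400500a01a000800a074c34511)) (.one (nat_lit 0x400000200400a01a0004008095034511))) (.br (Nat.shiftLeft (nat_lit 0x4000003005) (nat_lit 88)) (.one (nat_lit 0x400000300400a01a0006008095034511))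 (.one (nat_lit 0x400000300500a01a000600a095034511))))) (.br (Nat.shiftLeft (nat_lit 0x1400001) (nat_lit 102)) (.br (Nat.shiftLeft (nat_lit 0x5000003) (nat_lit 100)) (.br (Nat.shiftLeft (nat_lit 0x5) (nat_lit 124)) (.one (nat_lit 0x400000400500a01a000800a095034511)) (.one (nat_lit 0x500000200400a01a00040080b5434511))) (.br (Nat.shiftLeft (nat_lit 0x5000003005) (nat_lit 88)) (.one (nat_lit 0x500000300400a01a00060080b5434511)) (.one (nat_lit 0x500000300500a01a000600a0b5434511)))) (.br (Nat.shiftLeft (nat_lit 0x6000003) (nat_lit 100)) (.br (Nat.shiftLeft (nat_lit 0x3) (nat_lit 125)) (.one (nat_lit 0x500000400500a01a000800a0b5434511)) (.one (nat_lit 0x600000200400a01a00040080d5834511))) (.br (Nat.shiftLeft (nat_lit 0x6000003005) (nat_lit 88)) (.one (nat_lit 0x600000300400a01a00060080d5834511)) (.br (Nat.shiftLeft (nat_lit 0x1800001) (nat_lit 102)) (.one (nat_lit 0x600000300500a01a000600a0d5834511)) (.one (nat_lit 0x600000400500a01a000800a0d5834511)))))))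
def t251 : k251.all (jb2 57 fl b0) = true := by decide +kernel
noncomputable def k252 : KT := (.br (Nat.shiftLeft (nat_lit 0x9) (nat_lit 124)) (.br (Nat.shiftLeft (nat_lit 0x1) (nat_lit 127)) (.br (Nat.shiftLeft (nat_lit 0x7000003005) (nat_lit 88)) (.br (Nat.shiftLeft (nat_lit 0x7000003) (nat_lit 100)) (.one (nat_lit 0x700000200400a01a00040080f5c34511)) (.one (nat_lit 0x700000300400a01a00060080f5c34511))) (.br (Nat.shiftLeft (nat_lit 0x1c00001) (nat_lit 102)) (.one (nat_lit 0x700000300500a01a000600a0f5c34511)) (.one (nat_lit 0x700000400500a01a000800a0f5c34511)))) (.br (Nat.shiftLeft (nat_lit 0x8000003005) (nat_lit 88)) (.br (Nat.shiftLeft (nat_lit 0x8000003) (nat_lit 100)) (.one (nat_lit 0x800000200400a01a0004008116034511)) (.one (nat_lit 0x800000300400a01a0006008116034511))) (.br (Nat.shiftLeft (nat_lit 0x2000001) (nat_lit 102)) (.one (nat_lit 0x800000300500a01a000600a116034511)) (.one (nat_lit 0x800000400500a01a000800a116034511))))) (.br (Nat.shiftLeft (nat_lit 0x5) (nat_lit 125)) (.br (Nat.shiftLeft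 (nat_lit 0x9000003005) (nat_lit 88)) (.br (Nat.shiftLeft (nat_lit 0x9000003) (nat_lit 100)) (.one (nat_lit 0x900000200400a01a0004008136434511)) (.one (nat_lit 0x900000300400a01a0006008136434511))) (.br (Nat.shiftLeft (nat_lit 0x2400001) (nat_lit 102)) (.one (nat_lit 0x900000300500a01a000600a136434511)) (.one (nat_lit 0x900000400500a01a000800a136434511)))) (.br (Nat.shiftLeft (nat_lit 0xa000003005) (nat_lit 88)) (.br (Nat.shiftLeft (nat_lit 0xa000003) (nat_lit 100)) (.one (nat_lit 0xa00000200400a01a0004008156834511)) (.one (nat_lit 0xa00000300400a01a0006008156834511))) (.br (Nat.shiftLeft (nat_lit 0x2800001) (nat_lit 102)) (.one (nat_lit 0xa00000300500a01a000600a156834511)) (.one (nat_lit 0xa00000400500a01a000800a156834511))))))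
def t252 : k252.all (jb2 57 fl b0) = true := by decide +kernel
noncomputable def s12 : KT := (.br (nat_lit 0x400500a01a000800a014035500) (.br (nat_lit 0x200500a01a000400a014034540) (.br (nat_lit 0x100800a01a0002010014034540) (.br (nat_lit 0x100300a01a0002006014034540) k229 (.br (nat_lit 0x100500a01a000200a014034540) k230 k231)) (.br (nat_lit 0x200000a01a0004000014034311) k232 (.br (nat_lit 0x200400a01a0004008014035500) k233 k234))) (.br (nat_lit 0x300500a01a000600a014035500) (.br (nat_lit 0x200600a01a000400c014034540) k235 (.br (nat_lit 0x200800a01a0004010014034540) k236 k237)) (.br (nat_lit 0x300600a01a000600c014034540) k238 (.br (nat_lit 0x300800a01a0006010014034540) k239 k240)))) (.br (nat_lit 0x100300400a01a2006008014034650) (.br (nat_lit 0x500600a01a000a00c014034540) (.br (nat_lit 0x400600a01a000800c014034540) k241 (.br (nat_lit 0x400800a01a0008010014034540) k242 k243)) (.br (nat_lit 0x600000a01a000c000014034311) k244 (.br (nat_lit 0x100000900a01a2000012014034411) k245 k246))) (.br (nat_lit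 0x600000400a01ac000008014034411) (.br (nat_lit 0x200000900a01a4000012014034411) k247 (.br (nat_lit 0x200300500a01a400600a014034650) k248 k249)) (.br (nat_lit 0x200000300500a01a000600a054834511) k250 (.br (nat_lit 0x600000400500a01a000800a0d5834511) k251 k252)))))
noncomputable def u12 : KT := (.one (nat_lit 0xa01a0000000014034320))
def w12 : u12.all (wj 57 s12) = true := by decide +kernel
def o12 : OkW 57 (jb2 57 fl) u12 := .lift s12 _ (.br _ _ _ (.br _ _ _ (.br _ _ _ (.br _ _ _ (.leaf b0 k229 t229) (.br _ _ _ (.leaf b0 k230 t230) (.leaf b0 k231 t231))) (.br _ _ _ (.leaf b0 k232 t232) (.br _ _ _ (.leaf b0 k233 t233) (.leaf b0 k234 t234)))) (.br _ _ _ (.br _ _ _ (.leaf b0 k235 t235) (.br _ _ _ (.leaf b0 k236 t236) (.leaf b0 k237 t237))) (.br _ _ _ (.leaf b0 k238 t238) (.br _ _ _ (.leaf b0 k239 t239) (.leaf b0 k240 t240))))) (.br _ _ _ (.br _ _ _ (.br _ _ _ (.leaf b0 k241 t241) (.br _ _ _ (.leaf b0 k242 t242) (.leaf b0 k243 t243))) (.br _ _ _ (.leaf b0 k244 t244) (.br _ _ _ (.leaf b0 k245 t245) (.leaf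 b0 k246 t246)))) (.br _ _ _ (.br _ _ _ (.leaf b0 k247 t247) (.br _ _ _ (.leaf b0 k248 t248) (.leaf b0 k249 t249))) (.br _ _ _ (.leaf b0 k250 t250) (.br _ _ _ (.leaf b0 k251 t251) (.leaf b0 k252 t252)))))) w12
noncomputable def k253 : KT := (.br (Nat.shiftLeft (nat_lit 0x3) (nat_lit 89)) (.br (Nat.shiftLeft (nat_lit 0x3) (nat_lit 88)) (.br (Nat.shiftLeft (nat_lit 0x1) (nat_lit 88)) (.one (nat_lit 0xa01b0000000014037300)) (.br (Nat.shiftLeft (nat_lit 0x1) (nat_lit 89)) (.one (nat_lit 0x100a01b0000002014036430)) (.one (nat_lit 0x200a01b0000004014036430)))) (.br (Nat.shiftLeft (nat_lit 0x1) (nat_lit 90)) (.one (nat_lit 0x300a01b0000006014037400)) (.br (Nat.shiftLeft (nat_lit 0x5) (nat_lit 88)) (.one (nat_lit 0x400a01b0000008014037400)) (.one (nat_lit 0x500a01b000000a014037400))))) (.br (Nat.shiftLeft (nat_lit 0x9) (nat_lit 88)) (.br (Nat.shiftLeft (nat_lit 0x7) (nat_lit 88)) (.one (nat_lit 0x600a01b000000c014037400)) (.br (Nat.shiftLeft (nat_lit 0x1) (nat_lit 91)) (.one (nat_lit 0x700a01b000000e014037400))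 (.one (nat_lit 0x800a01b0000010014037400)))) (.br (Nat.shiftLeft (nat_lit 0x1) (nat_lit 100)) (.one (nat_lit 0x900a01b0000012014037400)) (.br (Nat.shiftLeft (nat_lit 0x801) (nat_lit 89)) (.one (nat_lit 0x100000a01b0002000014036311)) (.one (nat_lit 0x100300a01b0002006014036540))))))
def t253 : k253.all (jb2 57 fl b0) = true := by decide +kernel
noncomputable def k254 : KT := (.br (Nat.shiftLeft (nat_lit 0x1005) (nat_lit 88)) (.one (nat_lit 0x100400a01b0002008014036540)) (.one (nat_lit 0x100500a01b000200a014036540)))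
def t254 : k254.all (jb2 57 fl b0) = true := by decide +kernel
noncomputable def k255 : KT := (.br (Nat.shiftLeft (nat_lit 0x201) (nat_lit 91)) (.br (Nat.shiftLeft (nat_lit 0x1007) (nat_lit 88)) (.one (nat_lit 0x100600a01b000200c014036540)) (.one (nat_lit 0x100700a01b000200e014036540))) (.br (Nat.shiftLeft (nat_lit 0x1009) (nat_lit 88)) (.one (nat_lit 0x100800a01b0002010014036540)) (.br (Nat.shiftLeft (nat_lit 0x1) (nat_lit 101)) (.one (nat_lit 0x100900a01b0002012014036540)) (.one (nat_lit 0x200000a01b0004000014036311)))))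
def t255 : k255.all (jb2 57 fl b0) = true := by decide +kernel
noncomputable def k256 : KT := (.one (nat_lit 0x200300a01b0004006014036540))
def t256 : k256.all (jb2 57 fl b0) = true := by decide +kernel
noncomputable def k257 : KT := (.one (nat_lit 0x200400a01b0004008014036540))
def t257 : k257.all (jb2 57 fl b0) = true := by decide +kernel
noncomputable def k258 : KT := (.one (nat_lit 0x200500a01b000400a014036540))
def t258 : k258.all (jb2 57 fl b0) = true := by decide +kernel
noncomputable def k259 : KT := (.br (Nat.shiftLeft (nat_lit 0x2007) (nat_lit 88)) (.one (nat_lit 0x200600a01b000400c014036540)) (.one (nat_lit 0x200700a01b000400e014036540)))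
def t259 : k259.all (jb2 57 fl b0) = true := by decide +kernel
noncomputable def k260 : KT := (.br (Nat.shiftLeft (nat_lit 0x3) (nat_lit 100)) (.br (Nat.shiftLeft (nat_lit 0x2009) (nat_lit 88)) (.one (nat_lit 0x200800a01b0004010014036540)) (.one (nat_lit 0x200900a01b0004012014036540))) (.br (Nat.shiftLeft (nat_lit 0xc01) (nat_lit 90)) (.one (nat_lit 0x300000a01b0006000014036311)) (.one (nat_lit 0x300400a01b0006008014037500))))
def t260 : k260.all (jb2 57 fl b0) = true := by decide +kernel
noncomputable def k261 : KT := (.one (nat_lit 0x300500a01b000600a014036540))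
def t261 : k261.all (jb2 57 fl b0) = true := by decide +kernel
noncomputable def k262 : KT := (.br (Nat.shiftLeft (nat_lit 0x3007) (nat_lit 88)) (.one (nat_lit 0x300600a01b000600c014036540)) (.one (nat_lit 0x300700a01b000600e014036540)))
def t262 : k262.all (jb2 57 fl b0) = true := by decide +kernel
noncomputable def k263 : KT := (.br (Nat.shiftLeft (nat_lit 0x3009) (nat_lit 88)) (.one (nat_lit 0x300800a01b0006010014036540)) (.br (Nat.shiftLeft (nat_lit 0x1) (nat_lit 102)) (.one (nat_lit 0x300900a01b0006012014036540)) (.one (nat_lit 0x400000a01b0008000014036311))))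
def t263 : k263.all (jb2 57 fl b0) = true := by decide +kernel
noncomputable def k264 : KT := (.one (nat_lit 0x400500a01b000800a014036540))
def t264 : k264.all (jb2 57 fl b0) = true := by decide +kernel
noncomputable def k265 : KT := (.br (Nat.shiftLeft (nat_lit 0x4007) (nat_lit 88)) (.one (nat_lit 0x400600a01b000800c014036540)) (.one (nat_lit 0x400700a01b000800e014036540)))
def t265 : k265.all (jb2 57 fl b0) = true := by decide +kernel
noncomputable def k266 : KT := (.br (Nat.shiftLeft (nat_lit 0x5) (nat_lit 100)) (.br (Nat.shiftLeft (nat_lit 0x4009) (nat_lit 88)) (.one (nat_lit 0x400800a01b0008010014036540)) (.one (nat_lit 0x400900a01b0008012014036540))) (.br (Nat.shiftLeft (nat_lit 0x1401) (nat_lit 90)) (.one (nat_lit 0x500000a01b000a000014036311)) (.one (nat_lit 0x500600a01b000a00c014036540))))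
def t266 : k266.all (jb2 57 fl b0) = true := by decide +kernel
noncomputable def k267 : KT := (.br (Nat.shiftLeft (nat_lit 0x1801) (nat_lit 90)) (.br (Nat.shiftLeft (nat_lit 0x5009) (nat_lit 88)) (.br (Nat.shiftLeft (nat_lit 0xa01) (nat_lit 91)) (.one (nat_lit 0x500700a01b000a00e014036540)) (.one (nat_lit 0x500800a01b000a010014036540))) (.br (Nat.shiftLeft (nat_lit 0x3) (nat_lit 101)) (.one (nat_lit 0x500900a01b000a012014036540)) (.one (nat_lit 0x600000a01b000c000014036311)))) (.br (Nat.shiftLeft (nat_lit 0x6009) (nat_lit 88)) (.br (Nat.shiftLeft (nat_lit 0xc01) (nat_lit 91)) (.one (nat_lit 0x600700a01b000c00e014036540)) (.one (nat_lit 0x600800a01b000c010014036540))) (.br (Nat.shiftLeft (nat_lit 0x7) (nat_lit 100)) (.one (nat_lit 0x600900a01b000c012014036540)) (.one (nat_lit 0x700000a01b000e000014036311)))))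
def t267 : k267.all (jb2 57 fl b0) = true := by decide +kernel
noncomputable def k268 : KT := (.br (Nat.shiftLeft (nat_lit 0x800001) (nat_lit 90)) (.br (Nat.shiftLeft (nat_lit 0x400001) (nat_lit 90)) (.br (Nat.shiftLeft (nat_lit 0x1001) (nat_lit 91)) (.br (Nat.shiftLeft (nat_lit 0x7009) (nat_lit 88)) (.one (nat_lit 0x700800a01b000e010014036540)) (.br (Nat.shiftLeft (nat_lit 0x1) (nat_lit 103)) (.one (nat_lit 0x700900a01b000e012014036540)) (.one (nat_lit 0x800000a01b0010000014036311)))) (.br (Nat.shiftLeft (nat_lit 0x5) (nat_lit 101)) (.br (Nat.shiftLeft (nat_lit 0x9) (nat_lit 100)) (.one (nat_lit 0x800900a01b0010012014036540)) (.one (nat_lit 0x900000a01b0012000014036311))) (.br (Nat.shiftLeft (nat_lit 0x1) (nat_lit 112)) (.one (nat_lit 0xa00000a01b0014000014036311)) (.one (nat_lit 0x100000300a01b2000006014036411))))) (.br (Nat.shiftLeft (nat_lit 0x200001) (nat_lit 91)) (.br (Nat.shiftLeft (nat_lit 0x800003) (nat_lit 89)) (.br (Nat.shiftLeft (nat_lit 0x1000005) (nat_lit 88)) (.one (nat_lit 0x100000400a01b2000008014036411))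 (.one (nat_lit 0x100000500a01b200000a014036411))) (.br (Nat.shiftLeft (nat_lit 0x1000007) (nat_lit 88)) (.one (nat_lit 0x100000600a01b200000c014036411)) (.one (nat_lit 0x100000700a01b200000e014036411)))) (.br (Nat.shiftLeft (nat_lit 0x801) (nat_lit 101)) (.br (Nat.shiftLeft (nat_lit 0x1000009) (nat_lit 88)) (.one (nat_lit 0x100000800a01b2000010014036411)) (.one (nat_lit 0x100000900a01b2000012014036411))) (.br (Nat.shiftLeft (nat_lit 0x1) (nat_lit 113)) (.one (nat_lit 0x100300400a01b2006008014036650)) (.one (nat_lit 0x200000300a01b4000006014036411)))))) (.br (Nat.shiftLeft (nat_lit 0xc00001) (nat_lit 90)) (.br (Nat.shiftLeft (nat_lit 0x400001) (nat_lit 91)) (.br (Nat.shiftLeft (nat_lit 0x1000003) (nat_lit 89)) (.br (Nat.shiftLeft (nat_lit 0x2000005) (nat_lit 88)) (.one (nat_lit 0x200000400a01b4000008014036411)) (.one (nat_lit 0x200000500a01b400000a014036411))) (.br (Nat.shiftLeft (nat_lit 0x2000007) (nat_lit 88)) (.one (nat_lit 0x200000600a01b400000c014036411)) (.one (nat_lit 0x200000700a01b400000e014036411))))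 (.br (Nat.shiftLeft (nat_lit 0x1001) (nat_lit 101)) (.br (Nat.shiftLeft (nat_lit 0x2000009) (nat_lit 88)) (.one (nat_lit 0x200000800a01b4000010014036411)) (.one (nat_lit 0x200000900a01b4000012014036411))) (.br (Nat.shiftLeft (nat_lit 0x3) (nat_lit 112)) (.one (nat_lit 0x200300400a01b4006008014036650)) (.one (nat_lit 0x300000300a01b6000006014036411))))) (.br (Nat.shiftLeft (nat_lit 0x600001) (nat_lit 91)) (.br (Nat.shiftLeft (nat_lit 0x1800003) (nat_lit 89)) (.br (Nat.shiftLeft (nat_lit 0x3000005) (nat_lit 88)) (.one (nat_lit 0x300000400a01b6000008014036411)) (.one (nat_lit 0x300000500a01b600000a014036411))) (.br (Nat.shiftLeft (nat_lit 0x3000007) (nat_lit 88)) (.one (nat_lit 0x300000600a01b600000c014036411)) (.one (nat_lit 0x300000700a01b600000e014036411)))) (.br (Nat.shiftLeft (nat_lit 0x1) (nat_lit 114)) (.br (Nat.shiftLeft (nat_lit 0x3000009) (nat_lit 88)) (.one (nat_lit 0x300000800a01b6000010014036411)) (.one (nat_lit 0x300000900a01b6000012014036411))) (.br (Nat.shiftLeft (nat_lit 0x1000001)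 (nat_lit 90)) (.one (nat_lit 0x400000300a01b8000006014036411)) (.one (nat_lit 0x400000400a01b8000008014036411)))))))
def t268 : k268.all (jb2 57 fl b0) = true := by decide +kernel
noncomputable def k269 : KT := (.br (Nat.shiftLeft (nat_lit 0x1c00001) (nat_lit 90)) (.br (Nat.shiftLeft (nat_lit 0xa00001) (nat_lit 91)) (.br (Nat.shiftLeft (nat_lit 0x5) (nat_lit 112)) (.br (Nat.shiftLeft (nat_lit 0x4000007) (nat_lit 88)) (.br (Nat.shiftLeft (nat_lit 0x2000003) (nat_lit 89)) (.one (nat_lit 0x400000500a01b800000a014036411)) (.one (nat_lit 0x400000600a01b800000c014036411))) (.br (Nat.shiftLeft (nat_lit 0x800001) (nat_lit 91)) (.one (nat_lit 0x400000700a01b800000e014036411)) (.br (Nat.shiftLeft (nat_lit 0x4000009) (nat_lit 88)) (.one (nat_lit 0x400000800a01b8000010014036411)) (.one (nat_lit 0x400000900a01b8000012014036411))))) (.br (Nat.shiftLeft (nat_lit 0x5000005) (nat_lit 88)) (.br (Nat.shiftLeft (nat_lit 0x1400001) (nat_lit 90)) (.one (nat_lit 0x500000300a01ba000006014036411)) (.one (nat_lit 0x500000400a01ba000008014036411)))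 (.br (Nat.shiftLeft (nat_lit 0x2800003) (nat_lit 89)) (.one (nat_lit 0x500000500a01ba00000a014036411)) (.br (Nat.shiftLeft (nat_lit 0x5000007) (nat_lit 88)) (.one (nat_lit 0x500000600a01ba00000c014036411)) (.one (nat_lit 0x500000700a01ba00000e014036411)))))) (.br (Nat.shiftLeft (nat_lit 0x3000003) (nat_lit 89)) (.br (Nat.shiftLeft (nat_lit 0x3) (nat_lit 113)) (.br (Nat.shiftLeft (nat_lit 0x5000009) (nat_lit 88)) (.one (nat_lit 0x500000800a01ba000010014036411)) (.one (nat_lit 0x500000900a01ba000012014036411))) (.br (Nat.shiftLeft (nat_lit 0x1800001) (nat_lit 90)) (.one (nat_lit 0x600000300a01bc000006014036411)) (.br (Nat.shiftLeft (nat_lit 0x6000005) (nat_lit 88)) (.one (nat_lit 0x600000400a01bc000008014036411)) (.one (nat_lit 0x600000500a01bc00000a014036411))))) (.br (Nat.shiftLeft (nat_lit 0xc00001) (nat_lit 91)) (.br (Nat.shiftLeft (nat_lit 0x6000007) (nat_lit 88)) (.one (nat_lit 0x600000600a01bc00000c014036411)) (.one (nat_lit 0x600000700a01bc00000e014036411))) (.br (Nat.shiftLeft (nat_lit 0x6000009)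 (nat_lit 88)) (.one (nat_lit 0x600000800a01bc000010014036411)) (.br (Nat.shiftLeft (nat_lit 0x7) (nat_lit 112)) (.one (nat_lit 0x600000900a01bc000012014036411)) (.one (nat_lit 0x700000300a01be000006014036411))))))) (.br (Nat.shiftLeft (nat_lit 0x8000007) (nat_lit 88)) (.br (Nat.shiftLeft (nat_lit 0x7000009) (nat_lit 88)) (.br (Nat.shiftLeft (nat_lit 0x3800003) (nat_lit 89)) (.br (Nat.shiftLeft (nat_lit 0x7000005) (nat_lit 88)) (.one (nat_lit 0x700000400a01be000008014036411)) (.one (nat_lit 0x700000500a01be00000a014036411))) (.br (Nat.shiftLeft (nat_lit 0x7000007) (nat_lit 88)) (.one (nat_lit 0x700000600a01be00000c014036411)) (.br (Nat.shiftLeft (nat_lit 0xe00001) (nat_lit 91)) (.one (nat_lit 0x700000700a01be00000e014036411)) (.one (nat_lit 0x700000800a01be000010014036411))))) (.br (Nat.shiftLeft (nat_lit 0x2000001) (nat_lit 90)) (.br (Nat.shiftLeft (nat_lit 0x1) (nat_lit 115)) (.one (nat_lit 0x700000900a01be000012014036411)) (.one (nat_lit 0x800000300a01b0000006014138411))) (.br (Nat.shiftLeft (nat_lit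 0x8000005) (nat_lit 88)) (.one (nat_lit 0x800000400a01b0000008014138411)) (.br (Nat.shiftLeft (nat_lit 0x4000003) (nat_lit 89)) (.one (nat_lit 0x800000500a01b000000a014138411)) (.one (nat_lit 0x800000600a01b000000c014138411)))))) (.br (Nat.shiftLeft (nat_lit 0x9000005) (nat_lit 88)) (.br (Nat.shiftLeft (nat_lit 0x8000009) (nat_lit 88)) (.br (Nat.shiftLeft (nat_lit 0x1000001) (nat_lit 91)) (.one (nat_lit 0x800000700a01b000000e014138411)) (.one (nat_lit 0x800000800a01b0000010014138411))) (.br (Nat.shiftLeft (nat_lit 0x9) (nat_lit 112)) (.one (nat_lit 0x800000900a01b0000012014138411)) (.br (Nat.shiftLeft (nat_lit 0x2400001) (nat_lit 90)) (.one (nat_lit 0x900000300a01b2000006014138411)) (.one (nat_lit 0x900000400a01b2000008014138411))))) (.br (Nat.shiftLeft (nat_lit 0x9000007) (nat_lit 88)) (.br (Nat.shiftLeft (nat_lit 0x4800003) (nat_lit 89)) (.one (nat_lit 0x900000500a01b200000a014138411)) (.one (nat_lit 0x900000600a01b200000c014138411))) (.br (Nat.shiftLeft (nat_lit 0x1200001) (nat_lit 91)) (.one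 (nat_lit 0x900000700a01b200000e014138411)) (.br (Nat.shiftLeft (nat_lit 0x9000009) (nat_lit 88)) (.one (nat_lit 0x900000800a01b2000010014138411)) (.one (nat_lit 0x900000900a01b2000012014138411))))))))
def t269 : k269.all (jb2 57 fl b0) = true := by decide +kernel
noncomputable def k270 : KT := (.br (Nat.shiftLeft (nat_lit 0x1) (nat_lit 125)) (.br (Nat.shiftLeft (nat_lit 0xa000007) (nat_lit 88)) (.br (Nat.shiftLeft (nat_lit 0xa000005) (nat_lit 88)) (.br (Nat.shiftLeft (nat_lit 0x2800001) (nat_lit 90)) (.one (nat_lit 0xa00000300a01b4000006014138411)) (.one (nat_lit 0xa00000400a01b4000008014138411))) (.br (Nat.shiftLeft (nat_lit 0x5000003) (nat_lit 89)) (.one (nat_lit 0xa00000500a01b400000a014138411)) (.one (nat_lit 0xa00000600a01b400000c014138411)))) (.br (Nat.shiftLeft (nat_lit 0xa000009) (nat_lit 88)) (.br (Nat.shiftLeft (nat_lit 0x1400001) (nat_lit 91)) (.one (nat_lit 0xa00000700a01b400000e014138411)) (.one (nat_lit 0xa00000800a01b4000010014138411))) (.br (Nat.shiftLeft (nat_lit 0x1) (nat_lit 124))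 (.one (nat_lit 0xa00000900a01b4000012014138411)) (.one (nat_lit 0x100000300400a01b0006008034436511))))) (.br (Nat.shiftLeft (nat_lit 0x3) (nat_lit 125)) (.br (Nat.shiftLeft (nat_lit 0x1) (nat_lit 126)) (.br (Nat.shiftLeft (nat_lit 0x3) (nat_lit 124)) (.one (nat_lit 0x200000300400a01b0006008054836511)) (.one (nat_lit 0x300000300400a01b0006008074c36511))) (.br (Nat.shiftLeft (nat_lit 0x5) (nat_lit 124)) (.one (nat_lit 0x400000300400a01b0006008095036511)) (.one (nat_lit 0x500000300400a01b00060080b5436511)))) (.br (Nat.shiftLeft (nat_lit 0x1) (nat_lit 127)) (.br (Nat.shiftLeft (nat_lit 0x7) (nat_lit 124)) (.one (nat_lit 0x600000300400a01b00060080d5836511)) (.one (nat_lit 0x700000300400a01b00060080f5c36511))) (.br (Nat.shiftLeft (nat_lit 0x9) (nat_lit 124)) (.one (nat_lit 0x800000300400a01b0006008116036511)) (.br (Nat.shiftLeft (nat_lit 0x5) (nat_lit 125)) (.one (nat_lit 0x900000300400a01b0006008136436511)) (.one (nat_lit 0xa00000300400a01b0006008156836511)))))))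
def t270 : k270.all (jb2 57 fl b0) = true := by decide +kernel
noncomputable def s13 : KT := (.br (nat_lit 0x300500a01b000600a014036540) (.br (nat_lit 0x200300a01b0004006014036540) (.br (nat_lit 0x100500a01b000200a014036540) (.br (nat_lit 0x100300a01b0002006014036540) k253 k254) (.br (nat_lit 0x200000a01b0004000014036311) k255 k256)) (.br (nat_lit 0x200500a01b000400a014036540) (.br (nat_lit 0x200400a01b0004008014036540) k257 k258) (.br (nat_lit 0x200700a01b000400e014036540) k259 (.br (nat_lit 0x300400a01b0006008014037500) k260 k261)))) (.br (nat_lit 0x400700a01b000800e014036540) (.br (nat_lit 0x400000a01b0008000014036311) (.br (nat_lit 0x300700a01b000600e014036540) k262 k263) (.br (nat_lit 0x400500a01b000800a014036540) k264 k265)) (.br (nat_lit 0x700000a01b000e000014036311) (.br (nat_lit 0x500600a01b000a00c014036540) k266 k267) (.br (nat_lit 0x400000400a01b8000008014036411) k268 (.br (nat_lit 0x900000900a01b2000012014138411) k269 k270)))))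
noncomputable def u13 : KT := (.one (nat_lit 0xa01b0000000014036320))
def w13 : u13.all (wj 57 s13) = true := by decide +kernel
def o13 : OkW 57 (jb2 57 fl) u13 := .lift s13 _ (.br _ _ _ (.br _ _ _ (.br _ _ _ (.br _ _ _ (.leaf b0 k253 t253) (.leaf b0 k254 t254)) (.br _ _ _ (.leaf b0 k255 t255) (.leaf b0 k256 t256))) (.br _ _ _ (.br _ _ _ (.leaf b0 k257 t257) (.leaf b0 k258 t258)) (.br _ _ _ (.leaf b0 k259 t259) (.br _ _ _ (.leaf b0 k260 t260) (.leaf b0 k261 t261))))) (.br _ _ _ (.br _ _ _ (.br _ _ _ (.leaf b0 k262 t262) (.leaf b0 k263 t263)) (.br _ _ _ (.leaf b0 k264 t264) (.leaf b0 k265 t265))) (.br _ _ _ (.br _ _ _ (.leaf b0 k266 t266) (.leaf b0 k267 t267)) (.br _ _ _ (.leaf b0 k268 t268) (.br _ _ _ (.leaf b0 k269 t269) (.leaf b0 k270 t270)))))) w13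
noncomputable def k271 : KT := (.br (Nat.shiftLeft (nat_lit 0x100a01d) (nat_lit 64)) (.br (Nat.shiftLeft (nat_lit 0xa01d) (nat_lit 64)) (.one (nat_lit 0xa01c0000000014039300)) (.br (Nat.shiftLeft (nat_lit 0x1) (nat_lit 88)) (.one (nat_lit 0xa01d000000001403b300)) (.one (nat_lit 0x100a01c0000002014038430)))) (.br (Nat.shiftLeft (nat_lit 0x200a01d) (nat_lit 64)) (.br (Nat.shiftLeft (nat_lit 0x1) (nat_lit 89)) (.one (nat_lit 0x100a01d000000201403a430)) (.one (nat_lit 0x200a01c0000004014038430))) (.br (Nat.shiftLeft (nat_lit 0x3) (nat_lit 88)) (.one (nat_lit 0x200a01d000000401403a430)) (.one (nat_lit 0x300a01c0000006014039400)))))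
def t271 : k271.all (jb2 57 fl b0) = true := by decide +kernel
noncomputable def k272 : KT := (.br (Nat.shiftLeft (nat_lit 0x3) (nat_lit 89)) (.br (Nat.shiftLeft (nat_lit 0x400a01d) (nat_lit 64)) (.br (Nat.shiftLeft (nat_lit 0x1) (nat_lit 90)) (.one (nat_lit 0x300a01d000000601403a430)) (.one (nat_lit 0x400a01c0000008014039400))) (.br (Nat.shiftLeft (nat_lit 0x5) (nat_lit 88)) (.one (nat_lit 0x400a01d000000801403b400)) (.br (Nat.shiftLeft (nat_lit 0x500a01d) (nat_lit 64)) (.one (nat_lit 0x500a01c000000a014039400)) (.one (nat_lit 0x500a01d000000a01403b400))))) (.br (Nat.shiftLeft (nat_lit 0x7) (nat_lit 88)) (.br (Nat.shiftLeft (nat_lit 0x600a01d) (nat_lit 64)) (.one (nat_lit 0x600a01c000000c014039400)) (.one (nat_lit 0x600a01d000000c01403b400))) (.br (Nat.shiftLeft (nat_lit 0x700a01d) (nat_lit 64)) (.one (nat_lit 0x700a01c000000e014039400)) (.br (Nat.shiftLeft (nat_lit 0x1) (nat_lit 91)) (.one (nat_lit 0x700a01d000000e01403b400)) (.one (nat_lit 0x800a01c0000010014039400))))))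
def t272 : k272.all (jb2 57 fl b0) = true := by decide +kernel
noncomputable def k273 : KT := (.one (nat_lit 0x800a01d000001001403a430))
def t273 : k273.all (jb2 57 fl b0) = true := by decide +kernel
noncomputable def k274 : KT := (.one (nat_lit 0x900a01c0000012014038430))
def t274 : k274.all (jb2 57 fl b0) = true := by decide +kernel
noncomputable def k275 : KT := (.br (Nat.shiftLeft (nat_lit 0x100000a01d) (nat_lit 64)) (.br (Nat.shiftLeft (nat_lit 0x1) (nat_lit 100)) (.one (nat_lit 0x900a01d000001201403a430)) (.one (nat_lit 0x100000a01c0002000014038311))) (.br (Nat.shiftLeft (nat_lit 0x801) (nat_lit 89)) (.one (nat_lit 0x100000a01d000200001403a311)) (.one (nat_lit 0x100300a01c0002006014038540))))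
def t275 : k275.all (jb2 57 fl b0) = true := by decide +kernel
noncomputable def k276 : KT := (.br (Nat.shiftLeft (nat_lit 0x100400a01d) (nat_lit 64)) (.one (nat_lit 0x100400a01c0002008014038540)) (.br (Nat.shiftLeft (nat_lit 0x1005) (nat_lit 88)) (.one (nat_lit 0x100400a01d000200801403a540)) (.one (nat_lit 0x100500a01c000200a014038540))))
def t276 : k276.all (jb2 57 fl b0) = true := by decide +kernel
noncomputable def k277 : KT := (.br (Nat.shiftLeft (nat_lit 0x100600a01d) (nat_lit 64)) (.br (Nat.shiftLeft (nat_lit 0x803) (nat_lit 89)) (.one (nat_lit 0x100500a01d000200a01403a540)) (.one (nat_lit 0x100600a01c000200c014038540))) (.br (Nat.shiftLeft (nat_lit 0x1007) (nat_lit 88)) (.one (nat_lit 0x100600a01d000200c01403a540)) (.one (nat_lit 0x100700a01c000200e014038540))))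
def t277 : k277.all (jb2 57 fl b0) = true := by decide +kernel
noncomputable def k278 : KT := (.br (Nat.shiftLeft (nat_lit 0x1) (nat_lit 101)) (.br (Nat.shiftLeft (nat_lit 0x201) (nat_lit 91)) (.one (nat_lit 0x100700a01d000200e01403a540)) (.one (nat_lit 0x100800a01c0002010014038540))) (.br (Nat.shiftLeft (nat_lit 0x200000a01d) (nat_lit 64)) (.one (nat_lit 0x200000a01c0004000014038311)) (.br (Nat.shiftLeft (nat_lit 0x1001) (nat_lit 89)) (.one (nat_lit 0x200000a01d000400001403a311)) (.one (nat_lit 0x200300a01c0004006014038540)))))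
def t278 : k278.all (jb2 57 fl b0) = true := by decide +kernel
noncomputable def k279 : KT := (.one (nat_lit 0x200400a01c0004008014038540))
def t279 : k279.all (jb2 57 fl b0) = true := by decide +kernel
noncomputable def k280 : KT := (.br (Nat.shiftLeft (nat_lit 0x2005) (nat_lit 88)) (.one (nat_lit 0x200400a01d000400801403a540)) (.one (nat_lit 0x200500a01c000400a014038540)))
def t280 : k280.all (jb2 57 fl b0) = true := by decide +kernel
noncomputable def k281 : KT := (.br (Nat.shiftLeft (nat_lit 0x1003) (nat_lit 89)) (.one (nat_lit 0x200500a01d000400a01403a540)) (.br (Nat.shiftLeft (nat_lit 0x200600a01d) (nat_lit 64)) (.one (nat_lit 0x200600a01c000400c014038540)) (.one (nat_lit 0x200600a01d000400c01403a540))))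
def t281 : k281.all (jb2 57 fl b0) = true := by decide +kernel
noncomputable def k282 : KT := (.br (Nat.shiftLeft (nat_lit 0x401) (nat_lit 91)) (.br (Nat.shiftLeft (nat_lit 0x200700a01d) (nat_lit 64)) (.one (nat_lit 0x200700a01c000400e014038540)) (.one (nat_lit 0x200700a01d000400e01403a540))) (.br (Nat.shiftLeft (nat_lit 0x3) (nat_lit 100)) (.one (nat_lit 0x200800a01c0004010014038540)) (.br (Nat.shiftLeft (nat_lit 0x300000a01d) (nat_lit 64)) (.one (nat_lit 0x300000a01c0006000014038311)) (.one (nat_lit 0x300000a01d000600001403a311)))))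
def t282 : k282.all (jb2 57 fl b0) = true := by decide +kernel
noncomputable def k283 : KT := (.one (nat_lit 0x300400a01c0006008014038540))
def t283 : k283.all (jb2 57 fl b0) = true := by decide +kernel
noncomputable def k284 : KT := (.one (nat_lit 0x300400a01d000600801403a540))
def t284 : k284.all (jb2 57 fl b0) = true := by decide +kernel
noncomputable def k285 : KT := (.br (Nat.shiftLeft (nat_lit 0x300500a01d) (nat_lit 64)) (.one (nat_lit 0x300500a01c000600a014038540)) (.one (nat_lit 0x300500a01d000600a01403a540)))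
def t285 : k285.all (jb2 57 fl b0) = true := by decide +kernel
noncomputable def k286 : KT := (.br (Nat.shiftLeft (nat_lit 0x300600a01d) (nat_lit 64)) (.one (nat_lit 0x300600a01c000600c014038540)) (.br (Nat.shiftLeft (nat_lit 0x3007) (nat_lit 88)) (.one (nat_lit 0x300600a01d000600c01403a540)) (.one (nat_lit 0x300700a01c000600e014038540))))
def t286 : k286.all (jb2 57 fl b0) = true := by decide +kernel
noncomputable def k287 : KT := (.br (Nat.shiftLeft (nat_lit 0x1) (nat_lit 102)) (.br (Nat.shiftLeft (nat_lit 0x601) (nat_lit 91)) (.one (nat_lit 0x300700a01d000600e01403a540)) (.one (nat_lit 0x300800a01c0006010014038540))) (.br (Nat.shiftLeft (nat_lit 0x400000a01d) (nat_lit 64)) (.one (nat_lit 0x400000a01c0008000014038311)) (.br (Nat.shiftLeft (nat_lit 0x1001) (nat_lit 90)) (.one (nat_lit 0x400000a01d000800001403a311)) (.one (nat_lit 0x400500a01c000800a014038540)))))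
def t287 : k287.all (jb2 57 fl b0) = true := by decide +kernel
noncomputable def k288 : KT := (.br (Nat.shiftLeft (nat_lit 0x2003) (nat_lit 89)) (.one (nat_lit 0x400500a01d000800a01403a540)) (.br (Nat.shiftLeft (nat_lit 0x400600a01d) (nat_lit 64)) (.one (nat_lit 0x400600a01c000800c014038540)) (.one (nat_lit 0x400600a01d000800c01403a540))))
def t288 : k288.all (jb2 57 fl b0) = true := by decide +kernel
noncomputable def k289 : KT := (.br (Nat.shiftLeft (nat_lit 0x5) (nat_lit 100)) (.br (Nat.shiftLeft (nat_lit 0x400700a01d) (nat_lit 64)) (.one (nat_lit 0x400700a01c000800e014038540)) (.br (Nat.shiftLeft (nat_lit 0x801) (nat_lit 91)) (.one (nat_lit 0x400700a01d000800e01403a540)) (.one (nat_lit 0x400800a01c0008010014038540)))) (.br (Nat.shiftLeft (nat_lit 0x500000a01d) (nat_lit 64)) (.one (nat_lit 0x500000a01c000a000014038311)) (.br (Nat.shiftLeft (nat_lit 0x1401) (nat_lit 90)) (.one (nat_lit 0x500000a01d000a00001403a311)) (.one (nat_lit 0x500600a01c000a00c014038540)))))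
def t289 : k289.all (jb2 57 fl b0) = true := by decide +kernel
noncomputable def k290 : KT := (.br (Nat.shiftLeft (nat_lit 0xa00000a01d) (nat_lit 64)) (.br (Nat.shiftLeft (nat_lit 0xc01) (nat_lit 91)) (.br (Nat.shiftLeft (nat_lit 0x3) (nat_lit 101)) (.br (Nat.shiftLeft (nat_lit 0x500700a01d) (nat_lit 64)) (.br (Nat.shiftLeft (nat_lit 0x5007) (nat_lit 88)) (.one (nat_lit 0x500600a01d000a00c01403a540)) (.one (nat_lit 0x500700a01c000a00e014038540))) (.br (Nat.shiftLeft (nat_lit 0xa01) (nat_lit 91)) (.one (nat_lit 0x500700a01d000a00e01403a540)) (.one (nat_lit 0x500800a01c000a010014038540)))) (.br (Nat.shiftLeft (nat_lit 0x1801) (nat_lit 90)) (.br (Nat.shiftLeft (nat_lit 0x600000a01d) (nat_lit 64)) (.one (nat_lit 0x600000a01c000c000014038311)) (.one (nat_lit 0x600000a01d000c00001403a311))) (.br (Nat.shiftLeft (nat_lit 0x600700a01d) (nat_lit 64)) (.one (nat_lit 0x600700a01c000c00e014038540)) (.one (nat_lit 0x600700a01d000c00e01403a540))))) (.br (Nat.shiftLeft (nat_lit 0x1) (nat_lit 103)) (.br (Nat.shiftLeft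 (nat_lit 0x700000a01d) (nat_lit 64)) (.br (Nat.shiftLeft (nat_lit 0x7) (nat_lit 100)) (.one (nat_lit 0x600800a01c000c010014038540)) (.one (nat_lit 0x700000a01c000e000014038311))) (.br (Nat.shiftLeft (nat_lit 0xe01) (nat_lit 91)) (.one (nat_lit 0x700000a01d000e00001403a311)) (.one (nat_lit 0x700800a01c000e010014038540)))) (.br (Nat.shiftLeft (nat_lit 0x9) (nat_lit 100)) (.br (Nat.shiftLeft (nat_lit 0x800000a01d) (nat_lit 64)) (.one (nat_lit 0x800000a01c0010000014038311)) (.one (nat_lit 0x800000a01d001000001403a311))) (.br (Nat.shiftLeft (nat_lit 0x900000a01d) (nat_lit 64)) (.one (nat_lit 0x900000a01c0012000014038311)) (.br (Nat.shiftLeft (nat_lit 0x5) (nat_lit 101)) (.one (nat_lit 0x900000a01d001200001403a311)) (.one (nat_lit 0xa00000a01c0014000014038311))))))) (.br (Nat.shiftLeft (nat_lit 0x100000700a01d) (nat_lit 64)) (.br (Nat.shiftLeft (nat_lit 0x1000005) (nat_lit 88)) (.br (Nat.shiftLeft (nat_lit 0x400001) (nat_lit 90)) (.br (Nat.shiftLeft (nat_lit 0x1) (nat_lit 112)) (.one (nat_lit 0xa00000a01d001400001403a311))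 (.one (nat_lit 0x100000300a01c2000006014038411))) (.br (Nat.shiftLeft (nat_lit 0x100000400a01d) (nat_lit 64)) (.one (nat_lit 0x100000400a01c2000008014038411)) (.one (nat_lit 0x100000400a01d200000801403a411)))) (.br (Nat.shiftLeft (nat_lit 0x800003) (nat_lit 89)) (.br (Nat.shiftLeft (nat_lit 0x100000500a01d) (nat_lit 64)) (.one (nat_lit 0x100000500a01c200000a014038411)) (.one (nat_lit 0x100000500a01d200000a01403a411))) (.br (Nat.shiftLeft (nat_lit 0x100000600a01d) (nat_lit 64)) (.one (nat_lit 0x100000600a01c200000c014038411)) (.br (Nat.shiftLeft (nat_lit 0x1000007) (nat_lit 88)) (.one (nat_lit 0x100000600a01d200000c01403a411)) (.one (nat_lit 0x100000700a01c200000e014038411)))))) (.br (Nat.shiftLeft (nat_lit 0x200000400a01d) (nat_lit 64)) (.br (Nat.shiftLeft (nat_lit 0x1) (nat_lit 113)) (.br (Nat.shiftLeft (nat_lit 0x200001) (nat_lit 91)) (.one (nat_lit 0x100000700a01d200000e01403a411)) (.one (nat_lit 0x100000800a01c2000010014038411))) (.br (Nat.shiftLeft (nat_lit 0x800001) (nat_lit 90)) (.one (nat_lit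 0x200000300a01c4000006014038411)) (.one (nat_lit 0x200000400a01c4000008014038411)))) (.br (Nat.shiftLeft (nat_lit 0x200000500a01d) (nat_lit 64)) (.br (Nat.shiftLeft (nat_lit 0x2000005) (nat_lit 88)) (.one (nat_lit 0x200000400a01d400000801403a411)) (.one (nat_lit 0x200000500a01c400000a014038411))) (.br (Nat.shiftLeft (nat_lit 0x1000003) (nat_lit 89)) (.one (nat_lit 0x200000500a01d400000a01403a411)) (.br (Nat.shiftLeft (nat_lit 0x200000600a01d) (nat_lit 64)) (.one (nat_lit 0x200000600a01c400000c014038411)) (.one (nat_lit 0x200000600a01d400000c01403a411))))))))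
def t290 : k290.all (jb2 57 fl b0) = true := by decide +kernel
noncomputable def k291 : KT := (.br (Nat.shiftLeft (nat_lit 0x4000007) (nat_lit 88)) (.br (Nat.shiftLeft (nat_lit 0x3000007) (nat_lit 88)) (.br (Nat.shiftLeft (nat_lit 0x300000400a01d) (nat_lit 64)) (.br (Nat.shiftLeft (nat_lit 0x400001) (nat_lit 91)) (.br (Nat.shiftLeft (nat_lit 0x200000700a01d) (nat_lit 64)) (.one (nat_lit 0x200000700a01c400000e014038411)) (.one (nat_lit 0x200000700a01d400000e01403a411))) (.br (Nat.shiftLeft (nat_lit 0x3) (nat_lit 112)) (.one (nat_lit 0x200000800a01c4000010014038411)) (.br (Nat.shiftLeft (nat_lit 0xc00001) (nat_lit 90)) (.one (nat_lit 0x300000300a01c6000006014038411)) (.one (nat_lit 0x300000400a01c6000008014038411))))) (.br (Nat.shiftLeft (nat_lit 0x300000500a01d) (nat_lit 64)) (.br (Nat.shiftLeft (nat_lit 0x3000005) (nat_lit 88)) (.one (nat_lit 0x300000400a01d600000801403a411)) (.one (nat_lit 0x300000500a01c600000a014038411))) (.br (Nat.shiftLeft (nat_lit 0x1800003) (nat_lit 89)) (.one (nat_lit 0x300000500a01d600000a01403a411))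 (.br (Nat.shiftLeft (nat_lit 0x300000600a01d) (nat_lit 64)) (.one (nat_lit 0x300000600a01c600000c014038411)) (.one (nat_lit 0x300000600a01d600000c01403a411)))))) (.br (Nat.shiftLeft (nat_lit 0x400000400a01d) (nat_lit 64)) (.br (Nat.shiftLeft (nat_lit 0x600001) (nat_lit 91)) (.br (Nat.shiftLeft (nat_lit 0x300000700a01d) (nat_lit 64)) (.one (nat_lit 0x300000700a01c600000e014038411)) (.one (nat_lit 0x300000700a01d600000e01403a411))) (.br (Nat.shiftLeft (nat_lit 0x1) (nat_lit 114)) (.one (nat_lit 0x300000800a01c6000010014038411)) (.br (Nat.shiftLeft (nat_lit 0x1000001) (nat_lit 90)) (.one (nat_lit 0x400000300a01c8000006014038411)) (.one (nat_lit 0x400000400a01c8000008014038411))))) (.br (Nat.shiftLeft (nat_lit 0x400000500a01d) (nat_lit 64)) (.br (Nat.shiftLeft (nat_lit 0x4000005) (nat_lit 88)) (.one (nat_lit 0x400000400a01d800000801403a411)) (.one (nat_lit 0x400000500a01c800000a014038411))) (.br (Nat.shiftLeft (nat_lit 0x2000003) (nat_lit 89)) (.one (nat_lit 0x400000500a01d800000a01403a411)) (.br (Nat.shiftLeft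 (nat_lit 0x400000600a01d) (nat_lit 64)) (.one (nat_lit 0x400000600a01c800000c014038411)) (.one (nat_lit 0x400000600a01d800000c01403a411))))))) (.br (Nat.shiftLeft (nat_lit 0x5000007) (nat_lit 88)) (.br (Nat.shiftLeft (nat_lit 0x500000400a01d) (nat_lit 64)) (.br (Nat.shiftLeft (nat_lit 0x800001) (nat_lit 91)) (.br (Nat.shiftLeft (nat_lit 0x400000700a01d) (nat_lit 64)) (.one (nat_lit 0x400000700a01c800000e014038411)) (.one (nat_lit 0x400000700a01d800000e01403a411))) (.br (Nat.shiftLeft (nat_lit 0x5) (nat_lit 112)) (.one (nat_lit 0x400000800a01c8000010014038411)) (.br (Nat.shiftLeft (nat_lit 0x1400001) (nat_lit 90)) (.one (nat_lit 0x500000300a01ca000006014038411)) (.one (nat_lit 0x500000400a01ca000008014038411))))) (.br (Nat.shiftLeft (nat_lit 0x500000500a01d) (nat_lit 64)) (.br (Nat.shiftLeft (nat_lit 0x5000005) (nat_lit 88)) (.one (nat_lit 0x500000400a01da00000801403a411)) (.one (nat_lit 0x500000500a01ca00000a014038411))) (.br (Nat.shiftLeft (nat_lit 0x2800003) (nat_lit 89)) (.one (nat_lit 0x500000500a01da00000a01403a411))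 (.br (Nat.shiftLeft (nat_lit 0x500000600a01d) (nat_lit 64)) (.one (nat_lit 0x500000600a01ca00000c014038411)) (.one (nat_lit 0x500000600a01da00000c01403a411)))))) (.br (Nat.shiftLeft (nat_lit 0x600000400a01d) (nat_lit 64)) (.br (Nat.shiftLeft (nat_lit 0xa00001) (nat_lit 91)) (.br (Nat.shiftLeft (nat_lit 0x500000700a01d) (nat_lit 64)) (.one (nat_lit 0x500000700a01ca00000e014038411)) (.one (nat_lit 0x500000700a01da00000e01403a411))) (.br (Nat.shiftLeft (nat_lit 0x3) (nat_lit 113)) (.one (nat_lit 0x500000800a01ca000010014038411)) (.br (Nat.shiftLeft (nat_lit 0x1800001) (nat_lit 90)) (.one (nat_lit 0x600000300a01cc000006014038411)) (.one (nat_lit 0x600000400a01cc000008014038411))))) (.br (Nat.shiftLeft (nat_lit 0x600000500a01d) (nat_lit 64)) (.br (Nat.shiftLeft (nat_lit 0x6000005) (nat_lit 88)) (.one (nat_lit 0x600000400a01dc00000801403a411)) (.one (nat_lit 0x600000500a01cc00000a014038411))) (.br (Nat.shiftLeft (nat_lit 0x3000003) (nat_lit 89)) (.one (nat_lit 0x600000500a01dc00000a01403a411)) (.br (Nat.shiftLeft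 (nat_lit 0x600000600a01d) (nat_lit 64)) (.one (nat_lit 0x600000600a01cc00000c014038411)) (.one (nat_lit 0x600000600a01dc00000c01403a411))))))))
def t291 : k291.all (jb2 57 fl b0) = true := by decide +kernel
noncomputable def k292 : KT := (.br (Nat.shiftLeft (nat_lit 0x8000007) (nat_lit 88)) (.br (Nat.shiftLeft (nat_lit 0x7000007) (nat_lit 88)) (.br (Nat.shiftLeft (nat_lit 0x700000400a01d) (nat_lit 64)) (.br (Nat.shiftLeft (nat_lit 0xc00001) (nat_lit 91)) (.br (Nat.shiftLeft (nat_lit 0x600000700a01d) (nat_lit 64)) (.one (nat_lit 0x600000700a01cc00000e014038411)) (.one (nat_lit 0x600000700a01dc00000e01403a411))) (.br (Nat.shiftLeft (nat_lit 0x7) (nat_lit 112)) (.one (nat_lit 0x600000800a01cc000010014038411)) (.br (Nat.shiftLeft (nat_lit 0x1c00001) (nat_lit 90)) (.one (nat_lit 0x700000300a01ce000006014038411)) (.one (nat_lit 0x700000400a01ce000008014038411))))) (.br (Nat.shiftLeft (nat_lit 0x700000500a01d) (nat_lit 64)) (.br (Nat.shiftLeft (nat_lit 0x7000005) (nat_lit 88)) (.one (nat_lit 0x700000400a01de00000801403a411))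 (.one (nat_lit 0x700000500a01ce00000a014038411))) (.br (Nat.shiftLeft (nat_lit 0x3800003) (nat_lit 89)) (.one (nat_lit 0x700000500a01de00000a01403a411)) (.br (Nat.shiftLeft (nat_lit 0x700000600a01d) (nat_lit 64)) (.one (nat_lit 0x700000600a01ce00000c014038411)) (.one (nat_lit 0x700000600a01de00000c01403a411)))))) (.br (Nat.shiftLeft (nat_lit 0x800000400a01d) (nat_lit 64)) (.br (Nat.shiftLeft (nat_lit 0xe00001) (nat_lit 91)) (.br (Nat.shiftLeft (nat_lit 0x700000700a01d) (nat_lit 64)) (.one (nat_lit 0x700000700a01ce00000e014038411)) (.one (nat_lit 0x700000700a01de00000e01403a411))) (.br (Nat.shiftLeft (nat_lit 0x1) (nat_lit 115)) (.one (nat_lit 0x700000800a01ce000010014038411)) (.br (Nat.shiftLeft (nat_lit 0x2000001) (nat_lit 90)) (.one (nat_lit 0x800000300a01c000000601413a411)) (.one (nat_lit 0x800000400a01c000000801413a411))))) (.br (Nat.shiftLeft (nat_lit 0x800000500a01d) (nat_lit 64)) (.br (Nat.shiftLeft (nat_lit 0x8000005) (nat_lit 88)) (.one (nat_lit 0x800000400a01d000000801413c411)) (.one (nat_lit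 0x800000500a01c000000a01413a411))) (.br (Nat.shiftLeft (nat_lit 0x4000003) (nat_lit 89)) (.one (nat_lit 0x800000500a01d000000a01413c411)) (.br (Nat.shiftLeft (nat_lit 0x800000600a01d) (nat_lit 64)) (.one (nat_lit 0x800000600a01c000000c01413a411)) (.one (nat_lit 0x800000600a01d000000c01413c411))))))) (.br (Nat.shiftLeft (nat_lit 0x9000007) (nat_lit 88)) (.br (Nat.shiftLeft (nat_lit 0x900000400a01d) (nat_lit 64)) (.br (Nat.shiftLeft (nat_lit 0x1000001) (nat_lit 91)) (.br (Nat.shiftLeft (nat_lit 0x800000700a01d) (nat_lit 64)) (.one (nat_lit 0x800000700a01c000000e01413a411)) (.one (nat_lit 0x800000700a01d000000e01413c411))) (.br (Nat.shiftLeft (nat_lit 0x9) (nat_lit 112)) (.one (nat_lit 0x800000800a01c000001001413a411)) (.br (Nat.shiftLeft (nat_lit 0x2400001) (nat_lit 90)) (.one (nat_lit 0x900000300a01c200000601413a411)) (.one (nat_lit 0x900000400a01c200000801413a411))))) (.br (Nat.shiftLeft (nat_lit 0x900000500a01d) (nat_lit 64)) (.br (Nat.shiftLeft (nat_lit 0x9000005) (nat_lit 88)) (.one (nat_lit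 0x900000400a01d200000801413c411)) (.one (nat_lit 0x900000500a01c200000a01413a411))) (.br (Nat.shiftLeft (nat_lit 0x4800003) (nat_lit 89)) (.one (nat_lit 0x900000500a01d200000a01413c411)) (.br (Nat.shiftLeft (nat_lit 0x900000600a01d) (nat_lit 64)) (.one (nat_lit 0x900000600a01c200000c01413a411)) (.one (nat_lit 0x900000600a01d200000c01413c411)))))) (.br (Nat.shiftLeft (nat_lit 0xa00000400a01d) (nat_lit 64)) (.br (Nat.shiftLeft (nat_lit 0x1200001) (nat_lit 91)) (.br (Nat.shiftLeft (nat_lit 0x900000700a01d) (nat_lit 64)) (.one (nat_lit 0x900000700a01c200000e01413a411)) (.one (nat_lit 0x900000700a01d200000e01413c411))) (.br (Nat.shiftLeft (nat_lit 0x5) (nat_lit 113)) (.one (nat_lit 0x900000800a01c200001001413a411)) (.br (Nat.shiftLeft (nat_lit 0x2800001) (nat_lit 90)) (.one (nat_lit 0xa00000300a01c400000601413a411)) (.one (nat_lit 0xa00000400a01c400000801413a411))))) (.br (Nat.shiftLeft (nat_lit 0xa00000500a01d) (nat_lit 64)) (.br (Nat.shiftLeft (nat_lit 0xa000005) (nat_lit 88)) (.one (nat_lit 0xa00000400a01d400000801413c411))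 (.one (nat_lit 0xa00000500a01c400000a01413a411))) (.br (Nat.shiftLeft (nat_lit 0x5000003) (nat_lit 89)) (.one (nat_lit 0xa00000500a01d400000a01413c411)) (.br (Nat.shiftLeft (nat_lit 0xa00000600a01d) (nat_lit 64)) (.one (nat_lit 0xa00000600a01c400000c01413a411)) (.one (nat_lit 0xa00000600a01d400000c01413c411))))))))
def t292 : k292.all (jb2 57 fl b0) = true := by decide +kernel
noncomputable def k293 : KT := (.br (Nat.shiftLeft (nat_lit 0xa00000700a01d) (nat_lit 64)) (.one (nat_lit 0xa00000700a01c400000e01413a411)) (.br (Nat.shiftLeft (nat_lit 0x1400001) (nat_lit 91)) (.one (nat_lit 0xa00000700a01d400000e01413c411)) (.one (nat_lit 0xa00000800a01c400001001413a411))))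
def t293 : k293.all (jb2 57 fl b0) = true := by decide +kernel
noncomputable def s14 : KT := (.br (nat_lit 0x200600a01d000400c01403a540) (.br (nat_lit 0x100300a01c0002006014038540) (.br (nat_lit 0x800a01c0000010014039400) (.br (nat_lit 0x300a01c0000006014039400) k271 k272) (.br (nat_lit 0x800a01d000001001403a430) k273 (.br (nat_lit 0x900a01c0000012014038430) k274 k275))) (.br (nat_lit 0x200300a01c0004006014038540) (.br (nat_lit 0x100500a01c000200a014038540) k276 (.br (nat_lit 0x100700a01c000200e014038540) k277 k278)) (.br (nat_lit 0x200400a01c0004008014038540) k279 (.br (nat_lit 0x200500a01c000400a014038540) k280 k281)))) (.br (nat_lit 0x400500a01c000800a014038540) (.br (nat_lit 0x300400a01d000600801403a540) (.br (nat_lit 0x300000a01d000600001403a311) k282 (.br (nat_lit 0x300400a01c0006008014038540) k283 k284)) (.br (nat_lit 0x300500a01d000600a01403a540) k285 (.br (nat_lit 0x300700a01c000600e014038540) k286 k287))) (.br (nat_lit 0x200000600a01d400000c01403a411) (.br (nat_lit 0x400600a01d000800c01403a540)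 k288 (.br (nat_lit 0x500600a01c000a00c014038540) k289 k290)) (.br (nat_lit 0x600000600a01dc00000c01403a411) k291 (.br (nat_lit 0xa00000600a01d400000c01413c411) k292 k293)))))
noncomputable def u14 : KT := (.br (Nat.shiftLeft (nat_lit 0xa01d) (nat_lit 64)) (.one (nat_lit 0xa01c0000000014038320)) (.one (nat_lit 0xa01d000000001403a320)))
def w14 : u14.all (wj 57 s14) = true := by decide +kernel
def o14 : OkW 57 (jb2 57 fl) u14 := .lift s14 _ (.br _ _ _ (.br _ _ _ (.br _ _ _ (.br _ _ _ (.leaf b0 k271 t271) (.leaf b0 k272 t272)) (.br _ _ _ (.leaf b0 k273 t273) (.br _ _ _ (.leaf b0 k274 t274) (.leaf b0 k275 t275)))) (.br _ _ _ (.br _ _ _ (.leaf b0 k276 t276) (.br _ _ _ (.leaf b0 k277 t277) (.leaf b0 k278 t278))) (.br _ _ _ (.leaf b0 k279 t279) (.br _ _ _ (.leaf b0 k280 t280) (.leaf b0 k281 t281))))) (.br _ _ _ (.br _ _ _ (.br _ _ _ (.leaf b0 k282 t282) (.br _ _ _ (.leaf b0 k283 t283) (.leaf b0 k284 t284))) (.br _ _ _ (.leaf b0 k285 t285) (.br _ _ _ (.leaf b0 k286 t286) (.leaf b0 k287 t287)))) (.br _ _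 _ (.br _ _ _ (.leaf b0 k288 t288) (.br _ _ _ (.leaf b0 k289 t289) (.leaf b0 k290 t290))) (.br _ _ _ (.leaf b0 k291 t291) (.br _ _ _ (.leaf b0 k292 t292) (.leaf b0 k293 t293)))))) w14
noncomputable def k294 : KT := (.br (Nat.shiftLeft (nat_lit 0x1603) (nat_lit 67)) (.br (Nat.shiftLeft (nat_lit 0xa021) (nat_lit 64)) (.br (Nat.shiftLeft (nat_lit 0xa01f) (nat_lit 64)) (.one (nat_lit 0xa01e000000001403d300)) (.br (Nat.shiftLeft (nat_lit 0x501) (nat_lit 69)) (.one (nat_lit 0xa01f000000001403f300)) (.one (nat_lit 0xa0200000000014041300)))) (.br (Nat.shiftLeft (nat_lit 0x580b) (nat_lit 65)) (.br (Nat.shiftLeft (nat_lit 0xb) (nat_lit 76)) (.one (nat_lit 0xa0210000000014043300)) (.one (nat_lit 0xb015000000001602b300))) (.br (Nat.shiftLeft (nat_lit 0xb017) (nat_lit 64)) (.one (nat_lit 0xb016000000001602d300)) (.one (nat_lit 0xb017000000001602f300))))) (.br (Nat.shiftLeft (nat_lit 0x80501) (nat_lit 69)) (.br (Nat.shiftLeft (nat_lit 0x1) (nat_lit 88)) (.one (nat_lit 0xb0180000000016031300)) (.br (Nat.shiftLeft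 (nat_lit 0x100a01f) (nat_lit 64)) (.one (nat_lit 0x100a01e000000201403c430)) (.one (nat_lit 0x100a01f000000201403e430)))) (.br (Nat.shiftLeft (nat_lit 0x1) (nat_lit 89)) (.br (Nat.shiftLeft (nat_lit 0x100a021) (nat_lit 64)) (.one (nat_lit 0x100a0200000002014040430)) (.one (nat_lit 0x100a0210000002014042430))) (.br (Nat.shiftLeft (nat_lit 0x200a01f) (nat_lit 64)) (.one (nat_lit 0x200a01e000000401403c430)) (.one (nat_lit 0x200a01f000000401403e430))))))
def t294 : k294.all (jb2 57 fl b0) = true := by decide +kernel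
noncomputable def k295 : KT := (.br (Nat.shiftLeft (nat_lit 0x200a021) (nat_lit 64)) (.one (nat_lit 0x200a0200000004014040430)) (.one (nat_lit 0x200a0210000004014042430)))
def t295 : k295.all (jb2 57 fl b0) = true := by decide +kernel
noncomputable def k296 : KT := (.one (nat_lit 0x300a01e000000601403c430))
def t296 : k296.all (jb2 57 fl b0) = true := by decide +kernel
noncomputable def k297 : KT := (.one (nat_lit 0x300a01f000000601403e430))
def t297 : k297.all (jb2 57 fl b0) = true := by decide +kernel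
noncomputable def k298 : KT := (.one (nat_lit 0x300a0200000006014040430))
def t298 : k298.all (jb2 57 fl b0) = true := by decide +kernel
noncomputable def k299 : KT := (.br (Nat.shiftLeft (nat_lit 0x1) (nat_lit 90)) (.one (nat_lit 0x300a0210000006014042430)) (.one (nat_lit 0x400a01e000000801403d400)))
def t299 : k299.all (jb2 57 fl b0) = true := by decide +kernel
noncomputable def k300 : KT := (.one (nat_lit 0x400a01f000000801403e430))
def t300 : k300.all (jb2 57 fl b0) = true := by decide +kernel
noncomputable def k301 : KT := (.one (nat_lit 0x400a0200000008014040430))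
def t301 : k301.all (jb2 57 fl b0) = true := by decide +kernel
noncomputable def k302 : KT := (.br (Nat.shiftLeft (nat_lit 0x5) (nat_lit 88)) (.one (nat_lit 0x400a0210000008014042430)) (.one (nat_lit 0x500a01e000000a01403d400)))
def t302 : k302.all (jb2 57 fl b0) = true := by decide +kernel
noncomputable def k303 : KT := (.one (nat_lit 0x500a01f000000a01403e430))
def t303 : k303.all (jb2 57 fl b0) = true := by decide +kernel
noncomputable def k304 : KT := (.br (Nat.shiftLeft (nat_lit 0x500a021) (nat_lit 64)) (.one (nat_lit 0x500a020000000a014040430)) (.one (nat_lit 0x500a021000000a014042430)))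
def t304 : k304.all (jb2 57 fl b0) = true := by decide +kernel
noncomputable def k305 : KT := (.one (nat_lit 0x600a01e000000c01403c430))
def t305 : k305.all (jb2 57 fl b0) = true := by decide +kernel
noncomputable def k306 : KT := (.one (nat_lit 0x600a01f000000c01403e430))
def t306 : k306.all (jb2 57 fl b0) = true := by decide +kernel
noncomputable def k307 : KT := (.br (Nat.shiftLeft (nat_lit 0x600a021) (nat_lit 64)) (.one (nat_lit 0x600a020000000c014040430)) (.one (nat_lit 0x600a021000000c014042430)))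
def t307 : k307.all (jb2 57 fl b0) = true := by decide +kernel
noncomputable def k308 : KT := (.one (nat_lit 0x700a01e000000e01403c430))
def t308 : k308.all (jb2 57 fl b0) = true := by decide +kernel
noncomputable def k309 : KT := (.br (Nat.shiftLeft (nat_lit 0x380501) (nat_lit 69)) (.one (nat_lit 0x700a01f000000e01403e430)) (.br (Nat.shiftLeft (nat_lit 0x700a021) (nat_lit 64)) (.one (nat_lit 0x700a020000000e014040430)) (.one (nat_lit 0x700a021000000e014042430))))
def t309 : k309.all (jb2 57 fl b0) = true := by decide +kernel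
noncomputable def k310 : KT := (.br (Nat.shiftLeft (nat_lit 0x800a01f) (nat_lit 64)) (.one (nat_lit 0x800a01e000001001403c430)) (.br (Nat.shiftLeft (nat_lit 0x400501) (nat_lit 69)) (.one (nat_lit 0x800a01f000001001403e430)) (.one (nat_lit 0x800a0200000010014040430))))
def t310 : k310.all (jb2 57 fl b0) = true := by decide +kernel
noncomputable def k311 : KT := (.br (Nat.shiftLeft (nat_lit 0x900a021) (nat_lit 64)) (.br (Nat.shiftLeft (nat_lit 0x900a01f) (nat_lit 64)) (.br (Nat.shiftLeft (nat_lit 0x9) (nat_lit 88)) (.one (nat_lit 0x800a0210000010014042430)) (.one (nat_lit 0x900a01e000001201403c430))) (.br (Nat.shiftLeft (nat_lit 0x480501) (nat_lit 69)) (.one (nat_lit 0x900a01f000001201403e430)) (.one (nat_lit 0x900a0200000012014040430)))) (.br (Nat.shiftLeft (nat_lit 0x100000a01f) (nat_lit 64)) (.br (Nat.shiftLeft (nat_lit 0x1) (nat_lit 100)) (.one (nat_lit 0x900a0210000012014042430)) (.one (nat_lit 0x100000a01e000200001403c311))) (.br (Nat.shiftLeft (nat_lit 0x80000501) (nat_lit 69)) (.one (nat_lit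 0x100000a01f000200001403e311)) (.br (Nat.shiftLeft (nat_lit 0x100000a021) (nat_lit 64)) (.one (nat_lit 0x100000a0200002000014040311)) (.one (nat_lit 0x100000a0210002000014042311))))))
def t311 : k311.all (jb2 57 fl b0) = true := by decide +kernel
noncomputable def k312 : KT := (.br (Nat.shiftLeft (nat_lit 0x200000a01f) (nat_lit 64)) (.br (Nat.shiftLeft (nat_lit 0x1005) (nat_lit 88)) (.one (nat_lit 0x100400a01e000200801403c540)) (.br (Nat.shiftLeft (nat_lit 0x1) (nat_lit 101)) (.one (nat_lit 0x100500a01e000200a01403c540)) (.one (nat_lit 0x200000a01e000400001403c311)))) (.br (Nat.shiftLeft (nat_lit 0x200000a021) (nat_lit 64)) (.br (Nat.shiftLeft (nat_lit 0x100000501) (nat_lit 69)) (.one (nat_lit 0x200000a01f000400001403e311)) (.one (nat_lit 0x200000a0200004000014040311))) (.br (Nat.shiftLeft (nat_lit 0x801) (nat_lit 90)) (.one (nat_lit 0x200000a0210004000014042311)) (.one (nat_lit 0x200400a01e000400801403c540)))))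
def t312 : k312.all (jb2 57 fl b0) = true := by decide +kernel
noncomputable def k313 : KT := (.br (Nat.shiftLeft (nat_lit 0xc01) (nat_lit 90)) (.br (Nat.shiftLeft (nat_lit 0x300000a01f) (nat_lit 64)) (.br (Nat.shiftLeft (nat_lit 0x3) (nat_lit 100)) (.one (nat_lit 0x200500a01e000400a01403c540)) (.one (nat_lit 0x300000a01e000600001403c311))) (.br (Nat.shiftLeft (nat_lit 0x180000501) (nat_lit 69)) (.one (nat_lit 0x300000a01f000600001403e311)) (.br (Nat.shiftLeft (nat_lit 0x300000a021) (nat_lit 64)) (.one (nat_lit 0x300000a0200006000014040311)) (.one (nat_lit 0x300000a0210006000014042311))))) (.br (Nat.shiftLeft (nat_lit 0x400000a01f) (nat_lit 64)) (.br (Nat.shiftLeft (nat_lit 0x3005) (nat_lit 88)) (.one (nat_lit 0x300400a01e000600801403c540)) (.br (Nat.shiftLeft (nat_lit 0x1) (nat_lit 102)) (.one (nat_lit 0x300500a01e000600a01403c540)) (.one (nat_lit 0x400000a01e000800001403c311)))) (.br (Nat.shiftLeft (nat_lit 0x200000501) (nat_lit 69)) (.one (nat_lit 0x400000a01f000800001403e311)) (.br (Nat.shiftLeft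 (nat_lit 0x400000a021) (nat_lit 64)) (.one (nat_lit 0x400000a0200008000014040311)) (.one (nat_lit 0x400000a0210008000014042311))))))
def t313 : k313.all (jb2 57 fl b0) = true := by decide +kernel
noncomputable def k314 : KT := (.br (Nat.shiftLeft (nat_lit 0x900000a021) (nat_lit 64)) (.br (Nat.shiftLeft (nat_lit 0x700000a01f) (nat_lit 64)) (.br (Nat.shiftLeft (nat_lit 0x3) (nat_lit 101)) (.br (Nat.shiftLeft (nat_lit 0x500000a01f) (nat_lit 64)) (.br (Nat.shiftLeft (nat_lit 0x5) (nat_lit 100)) (.one (nat_lit 0x400500a01e000800a01403c540)) (.one (nat_lit 0x500000a01e000a00001403c311))) (.br (Nat.shiftLeft (nat_lit 0x280000501) (nat_lit 69)) (.one (nat_lit 0x500000a01f000a00001403e311)) (.br (Nat.shiftLeft (nat_lit 0x500000a021) (nat_lit 64)) (.one (nat_lit 0x500000a020000a000014040311)) (.one (nat_lit 0x500000a021000a000014042311))))) (.br (Nat.shiftLeft (nat_lit 0x300000501) (nat_lit 69)) (.br (Nat.shiftLeft (nat_lit 0x600000a01f) (nat_lit 64)) (.one (nat_lit 0x600000a01e000c00001403c311)) (.one (nat_lit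 0x600000a01f000c00001403e311))) (.br (Nat.shiftLeft (nat_lit 0x600000a021) (nat_lit 64)) (.one (nat_lit 0x600000a020000c000014040311)) (.br (Nat.shiftLeft (nat_lit 0x7) (nat_lit 100)) (.one (nat_lit 0x600000a021000c000014042311)) (.one (nat_lit 0x700000a01e000e00001403c311)))))) (.br (Nat.shiftLeft (nat_lit 0x400000501) (nat_lit 69)) (.br (Nat.shiftLeft (nat_lit 0x700000a021) (nat_lit 64)) (.br (Nat.shiftLeft (nat_lit 0x380000501) (nat_lit 69)) (.one (nat_lit 0x700000a01f000e00001403e311)) (.one (nat_lit 0x700000a020000e000014040311))) (.br (Nat.shiftLeft (nat_lit 0x1) (nat_lit 103)) (.one (nat_lit 0x700000a021000e000014042311)) (.br (Nat.shiftLeft (nat_lit 0x800000a01f) (nat_lit 64)) (.one (nat_lit 0x800000a01e001000001403c311)) (.one (nat_lit 0x800000a01f001000001403e311))))) (.br (Nat.shiftLeft (nat_lit 0x9) (nat_lit 100)) (.br (Nat.shiftLeft (nat_lit 0x800000a021) (nat_lit 64)) (.one (nat_lit 0x800000a0200010000014040311)) (.one (nat_lit 0x800000a0210010000014042311))) (.br (Nat.shiftLeft (nat_lit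 0x900000a01f) (nat_lit 64)) (.one (nat_lit 0x900000a01e001200001403c311)) (.br (Nat.shiftLeft (nat_lit 0x480000501) (nat_lit 69)) (.one (nat_lit 0x900000a01f001200001403e311)) (.one (nat_lit 0x900000a0200012000014040311))))))) (.br (Nat.shiftLeft (nat_lit 0x3000005) (nat_lit 88)) (.br (Nat.shiftLeft (nat_lit 0x1) (nat_lit 112)) (.br (Nat.shiftLeft (nat_lit 0xa00000a01f) (nat_lit 64)) (.br (Nat.shiftLeft (nat_lit 0x5) (nat_lit 101)) (.one (nat_lit 0x900000a0210012000014042311)) (.one (nat_lit 0xa00000a01e001400001403c311))) (.br (Nat.shiftLeft (nat_lit 0x500000501) (nat_lit 69)) (.one (nat_lit 0xa00000a01f001400001403e311)) (.br (Nat.shiftLeft (nat_lit 0xa00000a021) (nat_lit 64)) (.one (nat_lit 0xa00000a0200014000014040311)) (.one (nat_lit 0xa00000a0210014000014042311))))) (.br (Nat.shiftLeft (nat_lit 0x1) (nat_lit 113)) (.br (Nat.shiftLeft (nat_lit 0x1000005) (nat_lit 88)) (.one (nat_lit 0x100000400a01e200000801403c411)) (.one (nat_lit 0x100000500a01e200000a01403c411))) (.br (Nat.shiftLeft (nat_lit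 0x2000005) (nat_lit 88)) (.one (nat_lit 0x200000400a01e400000801403c411)) (.br (Nat.shiftLeft (nat_lit 0x3) (nat_lit 112)) (.one (nat_lit 0x200000500a01e400000a01403c411)) (.one (nat_lit 0x300000400a01e600000801403c411)))))) (.br (Nat.shiftLeft (nat_lit 0x3) (nat_lit 113)) (.br (Nat.shiftLeft (nat_lit 0x4000005) (nat_lit 88)) (.br (Nat.shiftLeft (nat_lit 0x1) (nat_lit 114)) (.one (nat_lit 0x300000500a01e600000a01403c411)) (.one (nat_lit 0x400000400a01e800000801403c411))) (.br (Nat.shiftLeft (nat_lit 0x5) (nat_lit 112)) (.one (nat_lit 0x400000500a01e800000a01403c411)) (.br (Nat.shiftLeft (nat_lit 0x5000005) (nat_lit 88)) (.one (nat_lit 0x500000400a01ea00000801403c411)) (.one (nat_lit 0x500000500a01ea00000a01403c411))))) (.br (Nat.shiftLeft (nat_lit 0x7) (nat_lit 112)) (.br (Nat.shiftLeft (nat_lit 0x6000005) (nat_lit 88)) (.one (nat_lit 0x600000400a01ec00000801403c411)) (.one (nat_lit 0x600000500a01ec00000a01403c411))) (.br (Nat.shiftLeft (nat_lit 0x7000005) (nat_lit 88)) (.one (nat_lit 0x700000400a01ee00000801403c411))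 (.br (Nat.shiftLeft (nat_lit 0x1) (nat_lit 115)) (.one (nat_lit 0x700000500a01ee00000a01403c411)) (.one (nat_lit 0x800000400a01e000000801413e411))))))))
def t314 : k314.all (jb2 57 fl b0) = true := by decide +kernel
noncomputable def k315 : KT := (.br (Nat.shiftLeft (nat_lit 0x9000005) (nat_lit 88)) (.br (Nat.shiftLeft (nat_lit 0x9) (nat_lit 112)) (.one (nat_lit 0x800000500a01e000000a01413e411)) (.one (nat_lit 0x900000400a01e200000801413e411))) (.br (Nat.shiftLeft (nat_lit 0x5) (nat_lit 113)) (.one (nat_lit 0x900000500a01e200000a01413e411)) (.br (Nat.shiftLeft (nat_lit 0xa000005) (nat_lit 88)) (.one (nat_lit 0xa00000400a01e400000801413e411)) (.one (nat_lit 0xa00000500a01e400000a01413e411)))))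
def t315 : k315.all (jb2 57 fl b0) = true := by decide +kernel
noncomputable def s15 : KT := (.br (nat_lit 0x500a021000000a014042430) (.br (nat_lit 0x300a0200000006014040430) (.br (nat_lit 0x200a0210000004014042430) (.br (nat_lit 0x200a01f000000401403e430) k294 k295) (.br (nat_lit 0x300a01e000000601403c430) k296 (.br (nat_lit 0x300a01f000000601403e430) k297 k298))) (.br (nat_lit 0x400a0200000008014040430) (.br (nat_lit 0x400a01e000000801403d400) k299 (.br (nat_lit 0x400a01f000000801403e430) k300 k301)) (.br (nat_lit 0x500a01e000000a01403d400) k302 (.br (nat_lit 0x500a01f000000a01403e430) k303 k304)))) (.br (nat_lit 0x700a021000000e014042430) (.br (nat_lit 0x600a01f000000c01403e430) (.br (nat_lit 0x600a01e000000c01403c430) k305 k306) (.br (nat_lit 0x600a021000000c014042430) k307 (.br (nat_lit 0x700a01e000000e01403c430) k308 k309))) (.br (nat_lit 0x200400a01e000400801403c540) (.br (nat_lit 0x800a0200000010014040430) k310 (.br (nat_lit 0x100000a0210002000014042311) k311 k312)) (.br (nat_lit 0x400000a0210008000014042311)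 k313 (.br (nat_lit 0x800000400a01e000000801413e411) k314 k315)))))
noncomputable def u15 : KT := (.br (Nat.shiftLeft (nat_lit 0xb) (nat_lit 76)) (.br (Nat.shiftLeft (nat_lit 0x501) (nat_lit 69)) (.br (Nat.shiftLeft (nat_lit 0xa01f) (nat_lit 64)) (.one (nat_lit 0xa01e000000001403c320)) (.one (nat_lit 0xa01f000000001403e320))) (.br (Nat.shiftLeft (nat_lit 0xa021) (nat_lit 64)) (.one (nat_lit 0xa0200000000014040320)) (.one (nat_lit 0xa0210000000014042320)))) (.br (Nat.shiftLeft (nat_lit 0xb017) (nat_lit 64)) (.br (Nat.shiftLeft (nat_lit 0x580b) (nat_lit 65)) (.one (nat_lit 0xb015000000001602b300)) (.one (nat_lit 0xb016000000001602d300))) (.br (Nat.shiftLeft (nat_lit 0x1603) (nat_lit 67)) (.one (nat_lit 0xb017000000001602f300)) (.one (nat_lit 0xb0180000000016031300)))))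
def w15 : u15.all (wj 57 s15) = true := by decide +kernel
def o15 : OkW 57 (jb2 57 fl) u15 := .lift s15 _ (.br _ _ _ (.br _ _ _ (.br _ _ _ (.br _ _ _ (.leaf b0 k294 t294) (.leaf b0 k295 t295)) (.br _ _ _ (.leaf b0 k296 t296) (.br _ _ _ (.leaf b0 k297 t297) (.leaf b0 k298 t298)))) (.br _ _ _ (.br _ _ _ (.leaf b0 k299 t299) (.br _ _ _ (.leaf b0 k300 t300) (.leaf b0 k301 t301))) (.br _ _ _ (.leaf b0 k302 t302) (.br _ _ _ (.leaf b0 k303 t303) (.leaf b0 k304 t304))))) (.br _ _ _ (.br _ _ _ (.br _ _ _ (.leaf b0 k305 t305) (.leaf b0 k306 t306)) (.br _ _ _ (.leaf b0 k307 t307) (.br _ _ _ (.leaf b0 k308 t308) (.leaf b0 k309 t309)))) (.br _ _ _ (.br _ _ _ (.leaf b0 k310 t310) (.br _ _ _ (.leaf b0 k311 t311) (.leaf b0 k312 t312))) (.br _ _ _ (.leaf b0 k313 t313) (.br _ _ _ (.leaf b0 k314 t314) (.leaf b0 k315 t315)))))) w15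
noncomputable def k316 : KT := (.br (Nat.shiftLeft (nat_lit 0x3) (nat_lit 89)) (.br (Nat.shiftLeft (nat_lit 0x3) (nat_lit 88)) (.br (Nat.shiftLeft (nat_lit 0x1) (nat_lit 88)) (.one (nat_lit 0xb0190000000016033300)) (.br (Nat.shiftLeft (nat_lit 0x1) (nat_lit 89)) (.one (nat_lit 0x100b0190000002016032430)) (.one (nat_lit 0x200b0190000004016032430)))) (.br (Nat.shiftLeft (nat_lit 0x1) (nat_lit 90)) (.one (nat_lit 0x300b0190000006016033400)) (.br (Nat.shiftLeft (nat_lit 0x5) (nat_lit 88)) (.one (nat_lit 0x400b0190000008016033400)) (.one (nat_lit 0x500b019000000a016033400))))) (.br (Nat.shiftLeft (nat_lit 0x9) (nat_lit 88)) (.br (Nat.shiftLeft (nat_lit 0x7) (nat_lit 88)) (.one (nat_lit 0x600b019000000c016033400)) (.br (Nat.shiftLeft (nat_lit 0x1) (nat_lit 91)) (.one (nat_lit 0x700b019000000e016033400)) (.one (nat_lit 0x800b0190000010016033400)))) (.br (Nat.shiftLeft (nat_lit 0x1) (nat_lit 100)) (.br (Nat.shiftLeft (nat_lit 0x5) (nat_lit 89)) (.one (nat_lit 0x900b0190000012016033400)) (.one (nat_lit 0xa00b0190000014016033400)))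 (.br (Nat.shiftLeft (nat_lit 0x801) (nat_lit 89)) (.one (nat_lit 0x100000b0190002000016032311)) (.one (nat_lit 0x100300b0190002006016032540))))))
def t316 : k316.all (jb2 57 fl b0) = true := by decide +kernel
noncomputable def k317 : KT := (.br (Nat.shiftLeft (nat_lit 0x1005) (nat_lit 88)) (.one (nat_lit 0x100400b0190002008016032540)) (.one (nat_lit 0x100500b019000200a016032540)))
def t317 : k317.all (jb2 57 fl b0) = true := by decide +kernel
noncomputable def k318 : KT := (.br (Nat.shiftLeft (nat_lit 0x1007) (nat_lit 88)) (.one (nat_lit 0x100600b019000200c016032540)) (.one (nat_lit 0x100700b019000200e016032540)))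
def t318 : k318.all (jb2 57 fl b0) = true := by decide +kernel
noncomputable def k319 : KT := (.br (Nat.shiftLeft (nat_lit 0x805) (nat_lit 89)) (.br (Nat.shiftLeft (nat_lit 0x1009) (nat_lit 88)) (.one (nat_lit 0x100800b0190002010016032540)) (.one (nat_lit 0x100900b0190002012016032540))) (.br (Nat.shiftLeft (nat_lit 0x1) (nat_lit 101)) (.one (nat_lit 0x100a00b0190002014016032540)) (.one (nat_lit 0x200000b0190004000016032311))))
def t319 : k319.all (jb2 57 fl b0) = true := by decide +kernel
noncomputable def k320 : KT := (.br (Nat.shiftLeft (nat_lit 0x801) (nat_lit 90)) (.one (nat_lit 0x200300b0190004006016032540)) (.one (nat_lit 0x200400b0190004008016033500)))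
def t320 : k320.all (jb2 57 fl b0) = true := by decide +kernel
noncomputable def k321 : KT := (.one (nat_lit 0x200500b019000400a016032540))
def t321 : k321.all (jb2 57 fl b0) = true := by decide +kernel
noncomputable def k322 : KT := (.one (nat_lit 0x200600b019000400c016032540))
def t322 : k322.all (jb2 57 fl b0) = true := by decide +kernel
noncomputable def k323 : KT := (.br (Nat.shiftLeft (nat_lit 0x401) (nat_lit 91)) (.one (nat_lit 0x200700b019000400e016032540)) (.one (nat_lit 0x200800b0190004010016032540)))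
def t323 : k323.all (jb2 57 fl b0) = true := by decide +kernel
noncomputable def k324 : KT := (.br (Nat.shiftLeft (nat_lit 0x3) (nat_lit 100)) (.br (Nat.shiftLeft (nat_lit 0x1005) (nat_lit 89)) (.one (nat_lit 0x200900b0190004012016032540)) (.one (nat_lit 0x200a00b0190004014016032540))) (.br (Nat.shiftLeft (nat_lit 0xc01) (nat_lit 90)) (.one (nat_lit 0x300000b0190006000016032311)) (.br (Nat.shiftLeft (nat_lit 0x3005) (nat_lit 88)) (.one (nat_lit 0x300400b0190006008016033500)) (.one (nat_lit 0x300500b019000600a016033500)))))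
def t324 : k324.all (jb2 57 fl b0) = true := by decide +kernel
noncomputable def k325 : KT := (.one (nat_lit 0x300600b019000600c016032540))
def t325 : k325.all (jb2 57 fl b0) = true := by decide +kernel
noncomputable def k326 : KT := (.br (Nat.shiftLeft (nat_lit 0x601) (nat_lit 91)) (.one (nat_lit 0x300700b019000600e016032540)) (.one (nat_lit 0x300800b0190006010016032540)))
def t326 : k326.all (jb2 57 fl b0) = true := by decide +kernel
noncomputable def k327 : KT := (.br (Nat.shiftLeft (nat_lit 0x1) (nat_lit 102)) (.br (Nat.shiftLeft (nat_lit 0x1805) (nat_lit 89)) (.one (nat_lit 0x300900b0190006012016032540)) (.one (nat_lit 0x300a00b0190006014016032540))) (.br (Nat.shiftLeft (nat_lit 0x1001) (nat_lit 90)) (.one (nat_lit 0x400000b0190008000016032311)) (.one (nat_lit 0x400500b019000800a016033500))))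
def t327 : k327.all (jb2 57 fl b0) = true := by decide +kernel
noncomputable def k328 : KT := (.one (nat_lit 0x400600b019000800c016032540))
def t328 : k328.all (jb2 57 fl b0) = true := by decide +kernel
noncomputable def k329 : KT := (.br (Nat.shiftLeft (nat_lit 0x801) (nat_lit 91)) (.one (nat_lit 0x400700b019000800e016032540)) (.one (nat_lit 0x400800b0190008010016032540)))
def t329 : k329.all (jb2 57 fl b0) = true := by decide +kernel
noncomputable def k330 : KT := (.br (Nat.shiftLeft (nat_lit 0x2005) (nat_lit 89)) (.one (nat_lit 0x400900b0190008012016032540)) (.br (Nat.shiftLeft (nat_lit 0x5) (nat_lit 100)) (.one (nat_lit 0x400a00b0190008014016032540)) (.one (nat_lit 0x500000b019000a000016032311))))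
def t330 : k330.all (jb2 57 fl b0) = true := by decide +kernel
noncomputable def k331 : KT := (.one (nat_lit 0x500600b019000a00c016032540))
def t331 : k331.all (jb2 57 fl b0) = true := by decide +kernel
noncomputable def k332 : KT := (.br (Nat.shiftLeft (nat_lit 0xa01) (nat_lit 91)) (.one (nat_lit 0x500700b019000a00e016032540)) (.br (Nat.shiftLeft (nat_lit 0x5009) (nat_lit 88)) (.one (nat_lit 0x500800b019000a010016032540)) (.one (nat_lit 0x500900b019000a012016032540))))
def t332 : k332.all (jb2 57 fl b0) = true := by decide +kernel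
noncomputable def k333 : KT := (.br (Nat.shiftLeft (nat_lit 0x6009) (nat_lit 88)) (.br (Nat.shiftLeft (nat_lit 0x1801) (nat_lit 90)) (.br (Nat.shiftLeft (nat_lit 0x3) (nat_lit 101)) (.one (nat_lit 0x500a00b019000a014016032540)) (.one (nat_lit 0x600000b019000c000016032311))) (.br (Nat.shiftLeft (nat_lit 0xc01) (nat_lit 91)) (.one (nat_lit 0x600700b019000c00e016032540)) (.one (nat_lit 0x600800b019000c010016032540)))) (.br (Nat.shiftLeft (nat_lit 0x7) (nat_lit 100)) (.br (Nat.shiftLeft (nat_lit 0x3005) (nat_lit 89)) (.one (nat_lit 0x600900b019000c012016032540)) (.one (nat_lit 0x600a00b019000c014016032540))) (.br (Nat.shiftLeft (nat_lit 0xe01) (nat_lit 91)) (.one (nat_lit 0x700000b019000e000016032311)) (.one (nat_lit 0x700800b019000e010016032540)))))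
def t333 : k333.all (jb2 57 fl b0) = true := by decide +kernel
noncomputable def k334 : KT := (.br (Nat.shiftLeft (nat_lit 0x1) (nat_lit 112)) (.br (Nat.shiftLeft (nat_lit 0x4005) (nat_lit 89)) (.br (Nat.shiftLeft (nat_lit 0x1) (nat_lit 103)) (.br (Nat.shiftLeft (nat_lit 0x3805) (nat_lit 89)) (.one (nat_lit 0x700900b019000e012016032540)) (.one (nat_lit 0x700a00b019000e014016032540))) (.br (Nat.shiftLeft (nat_lit 0x1001) (nat_lit 91)) (.one (nat_lit 0x800000b0190010000016032311)) (.one (nat_lit 0x800900b0190010012016032540)))) (.br (Nat.shiftLeft (nat_lit 0x1201) (nat_lit 91)) (.br (Nat.shiftLeft (nat_lit 0x9) (nat_lit 100)) (.one (nat_lit 0x800a00b0190010014016032540)) (.one (nat_lit 0x900000b0190012000016032311))) (.br (Nat.shiftLeft (nat_lit 0x5) (nat_lit 101)) (.one (nat_lit 0x900a00b0190012014016032540)) (.br (Nat.shiftLeft (nat_lit 0xb) (nat_lit 100)) (.one (nat_lit 0xa00000b0190014000016032311)) (.one (nat_lit 0xb00000b0190016000016032311)))))) (.br (Nat.shiftLeft (nat_lit 0x1000007) (nat_lit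 88)) (.br (Nat.shiftLeft (nat_lit 0x1000005) (nat_lit 88)) (.br (Nat.shiftLeft (nat_lit 0x400001) (nat_lit 90)) (.one (nat_lit 0x100000300b0192000006016032411)) (.one (nat_lit 0x100000400b0192000008016032411))) (.br (Nat.shiftLeft (nat_lit 0x800003) (nat_lit 89)) (.one (nat_lit 0x100000500b019200000a016032411)) (.one (nat_lit 0x100000600b019200000c016032411)))) (.br (Nat.shiftLeft (nat_lit 0x1000009) (nat_lit 88)) (.br (Nat.shiftLeft (nat_lit 0x200001) (nat_lit 91)) (.one (nat_lit 0x100000700b019200000e016032411)) (.one (nat_lit 0x100000800b0192000010016032411))) (.br (Nat.shiftLeft (nat_lit 0x800005) (nat_lit 89)) (.one (nat_lit 0x100000900b0192000012016032411)) (.br (Nat.shiftLeft (nat_lit 0x801) (nat_lit 101)) (.one (nat_lit 0x100000a00b0192000014016032411)) (.one (nat_lit 0x100200400b0192004008016032650)))))))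
def t334 : k334.all (jb2 57 fl b0) = true := by decide +kernel
noncomputable def k335 : KT := (.br (Nat.shiftLeft (nat_lit 0x2000005) (nat_lit 88)) (.br (Nat.shiftLeft (nat_lit 0x401) (nat_lit 102)) (.br (Nat.shiftLeft (nat_lit 0x1003005) (nat_lit 88)) (.one (nat_lit 0x100300400b0192006008016032650)) (.one (nat_lit 0x100300500b019200600a016032650))) (.br (Nat.shiftLeft (nat_lit 0x1) (nat_lit 113)) (.one (nat_lit 0x100400500b019200800a016032650)) (.br (Nat.shiftLeft (nat_lit 0x800001) (nat_lit 90)) (.one (nat_lit 0x200000300b0194000006016032411)) (.one (nat_lit 0x200000400b0194000008016032411))))) (.br (Nat.shiftLeft (nat_lit 0x400001) (nat_lit 91)) (.br (Nat.shiftLeft (nat_lit 0x1000003) (nat_lit 89)) (.one (nat_lit 0x200000500b019400000a016032411)) (.br (Nat.shiftLeft (nat_lit 0x2000007) (nat_lit 88)) (.one (nat_lit 0x200000600b019400000c016032411)) (.one (nat_lit 0x200000700b019400000e016032411)))) (.br (Nat.shiftLeft (nat_lit 0x2000009) (nat_lit 88)) (.one (nat_lit 0x200000800b0194000010016032411))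 (.br (Nat.shiftLeft (nat_lit 0x1000005) (nat_lit 89)) (.one (nat_lit 0x200000900b0194000012016032411)) (.one (nat_lit 0x200000a00b0194000014016032411))))))
def t335 : k335.all (jb2 57 fl b0) = true := by decide +kernel
noncomputable def k336 : KT := (.br (Nat.shiftLeft (nat_lit 0x2003005) (nat_lit 88)) (.one (nat_lit 0x200300400b0194006008016032650)) (.one (nat_lit 0x200300500b019400600a016032650)))
def t336 : k336.all (jb2 57 fl b0) = true := by decide +kernel
noncomputable def k337 : KT := (.br (Nat.shiftLeft (nat_lit 0x4000005) (nat_lit 88)) (.br (Nat.shiftLeft (nat_lit 0x600001) (nat_lit 91)) (.br (Nat.shiftLeft (nat_lit 0x3000005) (nat_lit 88)) (.br (Nat.shiftLeft (nat_lit 0x3) (nat_lit 112)) (.one (nat_lit 0x200400500b019400800a016032650)) (.br (Nat.shiftLeft (nat_lit 0xc00001) (nat_lit 90)) (.one (nat_lit 0x300000300b0196000006016032411)) (.one (nat_lit 0x300000400b0196000008016032411)))) (.br (Nat.shiftLeft (nat_lit 0x1800003) (nat_lit 89)) (.one (nat_lit 0x300000500b019600000a016032411))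 (.br (Nat.shiftLeft (nat_lit 0x3000007) (nat_lit 88)) (.one (nat_lit 0x300000600b019600000c016032411)) (.one (nat_lit 0x300000700b019600000e016032411))))) (.br (Nat.shiftLeft (nat_lit 0xc01) (nat_lit 102)) (.br (Nat.shiftLeft (nat_lit 0x3000009) (nat_lit 88)) (.one (nat_lit 0x300000800b0196000010016032411)) (.br (Nat.shiftLeft (nat_lit 0x1800005) (nat_lit 89)) (.one (nat_lit 0x300000900b0196000012016032411)) (.one (nat_lit 0x300000a00b0196000014016032411)))) (.br (Nat.shiftLeft (nat_lit 0x1) (nat_lit 114)) (.one (nat_lit 0x300400500b019600800a016032650)) (.br (Nat.shiftLeft (nat_lit 0x1000001) (nat_lit 90)) (.one (nat_lit 0x400000300b0198000006016032411)) (.one (nat_lit 0x400000400b0198000008016032411)))))) (.br (Nat.shiftLeft (nat_lit 0x5) (nat_lit 112)) (.br (Nat.shiftLeft (nat_lit 0x800001) (nat_lit 91)) (.br (Nat.shiftLeft (nat_lit 0x2000003) (nat_lit 89)) (.one (nat_lit 0x400000500b019800000a016032411)) (.br (Nat.shiftLeft (nat_lit 0x4000007) (nat_lit 88)) (.one (nat_lit 0x400000600b019800000c016032411))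 (.one (nat_lit 0x400000700b019800000e016032411)))) (.br (Nat.shiftLeft (nat_lit 0x4000009) (nat_lit 88)) (.one (nat_lit 0x400000800b0198000010016032411)) (.br (Nat.shiftLeft (nat_lit 0x2000005) (nat_lit 89)) (.one (nat_lit 0x400000900b0198000012016032411)) (.one (nat_lit 0x400000a00b0198000014016032411))))) (.br (Nat.shiftLeft (nat_lit 0x2800003) (nat_lit 89)) (.br (Nat.shiftLeft (nat_lit 0x1400001) (nat_lit 90)) (.one (nat_lit 0x500000300b019a000006016032411)) (.br (Nat.shiftLeft (nat_lit 0x5000005) (nat_lit 88)) (.one (nat_lit 0x500000400b019a000008016032411)) (.one (nat_lit 0x500000500b019a00000a016032411)))) (.br (Nat.shiftLeft (nat_lit 0xa00001) (nat_lit 91)) (.br (Nat.shiftLeft (nat_lit 0x5000007) (nat_lit 88)) (.one (nat_lit 0x500000600b019a00000c016032411)) (.one (nat_lit 0x500000700b019a00000e016032411))) (.br (Nat.shiftLeft (nat_lit 0x5000009) (nat_lit 88)) (.one (nat_lit 0x500000800b019a000010016032411)) (.one (nat_lit 0x500000900b019a000012016032411)))))))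
def t337 : k337.all (jb2 57 fl b0) = true := by decide +kernel
noncomputable def k338 : KT := (.br (Nat.shiftLeft (nat_lit 0x2000001) (nat_lit 90)) (.br (Nat.shiftLeft (nat_lit 0x7) (nat_lit 112)) (.br (Nat.shiftLeft (nat_lit 0x3000003) (nat_lit 89)) (.br (Nat.shiftLeft (nat_lit 0x1800001) (nat_lit 90)) (.br (Nat.shiftLeft (nat_lit 0x3) (nat_lit 113)) (.one (nat_lit 0x500000a00b019a000014016032411)) (.one (nat_lit 0x600000300b019c000006016032411))) (.br (Nat.shiftLeft (nat_lit 0x6000005) (nat_lit 88)) (.one (nat_lit 0x600000400b019c000008016032411)) (.one (nat_lit 0x600000500b019c00000a016032411)))) (.br (Nat.shiftLeft (nat_lit 0xc00001) (nat_lit 91)) (.br (Nat.shiftLeft (nat_lit 0x6000007) (nat_lit 88)) (.one (nat_lit 0x600000600b019c00000c016032411)) (.one (nat_lit 0x600000700b019c00000e016032411))) (.br (Nat.shiftLeft (nat_lit 0x6000009) (nat_lit 88)) (.one (nat_lit 0x600000800b019c000010016032411)) (.br (Nat.shiftLeft (nat_lit 0x3000005) (nat_lit 89)) (.one (nat_lit 0x600000900b019c000012016032411))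 (.one (nat_lit 0x600000a00b019c000014016032411)))))) (.br (Nat.shiftLeft (nat_lit 0x7000007) (nat_lit 88)) (.br (Nat.shiftLeft (nat_lit 0x7000005) (nat_lit 88)) (.br (Nat.shiftLeft (nat_lit 0x1c00001) (nat_lit 90)) (.one (nat_lit 0x700000300b019e000006016032411)) (.one (nat_lit 0x700000400b019e000008016032411))) (.br (Nat.shiftLeft (nat_lit 0x3800003) (nat_lit 89)) (.one (nat_lit 0x700000500b019e00000a016032411)) (.one (nat_lit 0x700000600b019e00000c016032411)))) (.br (Nat.shiftLeft (nat_lit 0x7000009) (nat_lit 88)) (.br (Nat.shiftLeft (nat_lit 0xe00001) (nat_lit 91)) (.one (nat_lit 0x700000700b019e00000e016032411)) (.one (nat_lit 0x700000800b019e000010016032411))) (.br (Nat.shiftLeft (nat_lit 0x3800005) (nat_lit 89)) (.one (nat_lit 0x700000900b019e000012016032411)) (.br (Nat.shiftLeft (nat_lit 0x1) (nat_lit 115)) (.one (nat_lit 0x700000a00b019e000014016032411)) (.one (nat_lit 0x800000300b0190000006016134411))))))) (.br (Nat.shiftLeft (nat_lit 0x9000005) (nat_lit 88)) (.br (Nat.shiftLeft (nat_lit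 0x1000001) (nat_lit 91)) (.br (Nat.shiftLeft (nat_lit 0x4000003) (nat_lit 89)) (.br (Nat.shiftLeft (nat_lit 0x8000005) (nat_lit 88)) (.one (nat_lit 0x800000400b0190000008016134411)) (.one (nat_lit 0x800000500b019000000a016134411))) (.br (Nat.shiftLeft (nat_lit 0x8000007) (nat_lit 88)) (.one (nat_lit 0x800000600b019000000c016134411)) (.one (nat_lit 0x800000700b019000000e016134411)))) (.br (Nat.shiftLeft (nat_lit 0x4000005) (nat_lit 89)) (.br (Nat.shiftLeft (nat_lit 0x8000009) (nat_lit 88)) (.one (nat_lit 0x800000800b0190000010016134411)) (.one (nat_lit 0x800000900b0190000012016134411))) (.br (Nat.shiftLeft (nat_lit 0x9) (nat_lit 112)) (.one (nat_lit 0x800000a00b0190000014016134411)) (.br (Nat.shiftLeft (nat_lit 0x2400001) (nat_lit 90)) (.one (nat_lit 0x900000300b0192000006016134411)) (.one (nat_lit 0x900000400b0192000008016134411)))))) (.br (Nat.shiftLeft (nat_lit 0x9000009) (nat_lit 88)) (.br (Nat.shiftLeft (nat_lit 0x9000007) (nat_lit 88)) (.br (Nat.shiftLeft (nat_lit 0x4800003) (nat_lit 89)) (.one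 (nat_lit 0x900000500b019200000a016134411)) (.one (nat_lit 0x900000600b019200000c016134411))) (.br (Nat.shiftLeft (nat_lit 0x1200001) (nat_lit 91)) (.one (nat_lit 0x900000700b019200000e016134411)) (.one (nat_lit 0x900000800b0192000010016134411)))) (.br (Nat.shiftLeft (nat_lit 0x5) (nat_lit 113)) (.br (Nat.shiftLeft (nat_lit 0x4800005) (nat_lit 89)) (.one (nat_lit 0x900000900b0192000012016134411)) (.one (nat_lit 0x900000a00b0192000014016134411))) (.br (Nat.shiftLeft (nat_lit 0x2800001) (nat_lit 90)) (.one (nat_lit 0xa00000300b0194000006016134411)) (.br (Nat.shiftLeft (nat_lit 0xa000005) (nat_lit 88)) (.one (nat_lit 0xa00000400b0194000008016134411)) (.one (nat_lit 0xa00000500b019400000a016134411))))))))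
def t338 : k338.all (jb2 57 fl b0) = true := by decide +kernel
noncomputable def k339 : KT := (.br (Nat.shiftLeft (nat_lit 0x1) (nat_lit 125)) (.br (Nat.shiftLeft (nat_lit 0x5800003) (nat_lit 89)) (.br (Nat.shiftLeft (nat_lit 0x5000005) (nat_lit 89)) (.br (Nat.shiftLeft (nat_lit 0x1400001) (nat_lit 91)) (.br (Nat.shiftLeft (nat_lit 0xa000007) (nat_lit 88)) (.one (nat_lit 0xa00000600b019400000c016134411)) (.one (nat_lit 0xa00000700b019400000e016134411))) (.br (Nat.shiftLeft (nat_lit 0xa000009) (nat_lit 88)) (.one (nat_lit 0xa00000800b0194000010016134411)) (.one (nat_lit 0xa00000900b0194000012016134411)))) (.br (Nat.shiftLeft (nat_lit 0x2c00001) (nat_lit 90)) (.br (Nat.shiftLeft (nat_lit 0xb) (nat_lit 112)) (.one (nat_lit 0xa00000a00b0194000014016134411)) (.one (nat_lit 0xb00000300b0196000006016134411))) (.br (Nat.shiftLeft (nat_lit 0xb000005) (nat_lit 88)) (.one (nat_lit 0xb00000400b0196000008016134411)) (.one (nat_lit 0xb00000500b019600000a016134411))))) (.br (Nat.shiftLeft (nat_lit 0x5800005) (nat_lit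 89)) (.br (Nat.shiftLeft (nat_lit 0x1600001) (nat_lit 91)) (.br (Nat.shiftLeft (nat_lit 0xb000007) (nat_lit 88)) (.one (nat_lit 0xb00000600b019600000c016134411)) (.one (nat_lit 0xb00000700b019600000e016134411))) (.br (Nat.shiftLeft (nat_lit 0xb000009) (nat_lit 88)) (.one (nat_lit 0xb00000800b0196000010016134411)) (.one (nat_lit 0xb00000900b0196000012016134411)))) (.br (Nat.shiftLeft (nat_lit 0x1000003) (nat_lit 100)) (.br (Nat.shiftLeft (nat_lit 0x1) (nat_lit 124)) (.one (nat_lit 0xb00000a00b0196000014016134411)) (.one (nat_lit 0x100000200400b0190004008036432511))) (.br (Nat.shiftLeft (nat_lit 0x1000003005) (nat_lit 88)) (.one (nat_lit 0x100000300400b0190006008036432511)) (.br (Nat.shiftLeft (nat_lit 0x400001) (nat_lit 102)) (.one (nat_lit 0x100000300500b019000600a036432511)) (.one (nat_lit 0x100000400500b019000800a036432511))))))) (.br (Nat.shiftLeft (nat_lit 0x1) (nat_lit 126)) (.br (Nat.shiftLeft (nat_lit 0x3) (nat_lit 124)) (.br (Nat.shiftLeft (nat_lit 0x2000003005) (nat_lit 88)) (.br (Nat.shiftLeft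 (nat_lit 0x2000003) (nat_lit 100)) (.one (nat_lit 0x200000200400b0190004008056832511)) (.one (nat_lit 0x200000300400b0190006008056832511))) (.br (Nat.shiftLeft (nat_lit 0x800001) (nat_lit 102)) (.one (nat_lit 0x200000300500b019000600a056832511)) (.one (nat_lit 0x200000400500b019000800a056832511)))) (.br (Nat.shiftLeft (nat_lit 0x3000003005) (nat_lit 88)) (.br (Nat.shiftLeft (nat_lit 0x3000003) (nat_lit 100)) (.one (nat_lit 0x300000200400b0190004008076c32511)) (.one (nat_lit 0x300000300400b0190006008076c32511))) (.br (Nat.shiftLeft (nat_lit 0xc00001) (nat_lit 102)) (.one (nat_lit 0x300000300500b019000600a076c32511)) (.one (nat_lit 0x300000400500b019000800a076c32511))))) (.br (Nat.shiftLeft (nat_lit 0x5) (nat_lit 124)) (.br (Nat.shiftLeft (nat_lit 0x4000003005) (nat_lit 88)) (.br (Nat.shiftLeft (nat_lit 0x4000003) (nat_lit 100)) (.one (nat_lit 0x400000200400b0190004008097032511)) (.one (nat_lit 0x400000300400b0190006008097032511))) (.br (Nat.shiftLeft (nat_lit 0x1000001) (nat_lit 102)) (.one (nat_lit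 0x400000300500b019000600a097032511)) (.one (nat_lit 0x400000400500b019000800a097032511)))) (.br (Nat.shiftLeft (nat_lit 0x5000003005) (nat_lit 88)) (.br (Nat.shiftLeft (nat_lit 0x5000003) (nat_lit 100)) (.one (nat_lit 0x500000200400b01900040080b7432511)) (.one (nat_lit 0x500000300400b01900060080b7432511))) (.br (Nat.shiftLeft (nat_lit 0x1400001) (nat_lit 102)) (.one (nat_lit 0x500000300500b019000600a0b7432511)) (.br (Nat.shiftLeft (nat_lit 0x3) (nat_lit 125)) (.one (nat_lit 0x500000400500b019000800a0b7432511)) (.one (nat_lit 0x600000200400b01900040080d7832511))))))))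
def t339 : k339.all (jb2 57 fl b0) = true := by decide +kernel
noncomputable def k340 : KT := (.br (Nat.shiftLeft (nat_lit 0x9) (nat_lit 124)) (.br (Nat.shiftLeft (nat_lit 0x7000003005) (nat_lit 88)) (.br (Nat.shiftLeft (nat_lit 0x1800001) (nat_lit 102)) (.br (Nat.shiftLeft (nat_lit 0x6000003005) (nat_lit 88)) (.one (nat_lit 0x600000300400b01900060080d7832511)) (.one (nat_lit 0x600000300500b019000600a0d7832511))) (.br (Nat.shiftLeft (nat_lit 0x7) (nat_lit 124)) (.one (nat_lit 0x600000400500b019000800a0d7832511)) (.br (Nat.shiftLeft (nat_lit 0x7000003) (nat_lit 100)) (.one (nat_lit 0x700000200400b01900040080f7c32511)) (.one (nat_lit 0x700000300400b01900060080f7c32511))))) (.br (Nat.shiftLeft (nat_lit 0x8000003) (nat_lit 100)) (.br (Nat.shiftLeft (nat_lit 0x1c00001) (nat_lit 102)) (.one (nat_lit 0x700000300500b019000600a0f7c32511)) (.br (Nat.shiftLeft (nat_lit 0x1) (nat_lit 127)) (.one (nat_lit 0x700000400500b019000800a0f7c32511)) (.one (nat_lit 0x800000200400b0190004008118032511)))) (.br (Nat.shiftLeft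 (nat_lit 0x8000003005) (nat_lit 88)) (.one (nat_lit 0x800000300400b0190006008118032511)) (.br (Nat.shiftLeft (nat_lit 0x2000001) (nat_lit 102)) (.one (nat_lit 0x800000300500b019000600a118032511)) (.one (nat_lit 0x800000400500b019000800a118032511)))))) (.br (Nat.shiftLeft (nat_lit 0xa000003005) (nat_lit 88)) (.br (Nat.shiftLeft (nat_lit 0x2400001) (nat_lit 102)) (.br (Nat.shiftLeft (nat_lit 0x9000003) (nat_lit 100)) (.one (nat_lit 0x900000200400b0190004008138432511)) (.br (Nat.shiftLeft (nat_lit 0x9000003005) (nat_lit 88)) (.one (nat_lit 0x900000300400b0190006008138432511)) (.one (nat_lit 0x900000300500b019000600a138432511)))) (.br (Nat.shiftLeft (nat_lit 0x5) (nat_lit 125)) (.one (nat_lit 0x900000400500b019000800a138432511)) (.br (Nat.shiftLeft (nat_lit 0xa000003) (nat_lit 100)) (.one (nat_lit 0xa00000200400b0190004008158832511)) (.one (nat_lit 0xa00000300400b0190006008158832511))))) (.br (Nat.shiftLeft (nat_lit 0xb000003) (nat_lit 100)) (.br (Nat.shiftLeft (nat_lit 0x2800001) (nat_lit 102)) (.one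 (nat_lit 0xa00000300500b019000600a158832511)) (.br (Nat.shiftLeft (nat_lit 0xb) (nat_lit 124)) (.one (nat_lit 0xa00000400500b019000800a158832511)) (.one (nat_lit 0xb00000200400b0190004008178c32511)))) (.br (Nat.shiftLeft (nat_lit 0xb000003005) (nat_lit 88)) (.one (nat_lit 0xb00000300400b0190006008178c32511)) (.br (Nat.shiftLeft (nat_lit 0x2c00001) (nat_lit 102)) (.one (nat_lit 0xb00000300500b019000600a178c32511)) (.one (nat_lit 0xb00000400500b019000800a178c32511)))))))
def t340 : k340.all (jb2 57 fl b0) = true := by decide +kernel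
noncomputable def s16 : KT := (.br (nat_lit 0x400500b019000800a016033500) (.br (nat_lit 0x200500b019000400a016032540) (.br (nat_lit 0x100700b019000200e016032540) (.br (nat_lit 0x100300b0190002006016032540) k316 (.br (nat_lit 0x100500b019000200a016032540) k317 k318)) (.br (nat_lit 0x200000b0190004000016032311) k319 (.br (nat_lit 0x200400b0190004008016033500) k320 k321))) (.br (nat_lit 0x300500b019000600a016033500) (.br (nat_lit 0x200600b019000400c016032540) k322 (.br (nat_lit 0x200800b0190004010016032540) k323 k324)) (.br (nat_lit 0x300600b019000600c016032540) k325 (.br (nat_lit 0x300800b0190006010016032540) k326 k327)))) (.br (nat_lit 0x700800b019000e010016032540) (.br (nat_lit 0x500000b019000a000016032311) (.br (nat_lit 0x400600b019000800c016032540) k328 (.br (nat_lit 0x400800b0190008010016032540) k329 k330)) (.br (nat_lit 0x500600b019000a00c016032540) k331 (.br (nat_lit 0x500900b019000a012016032540) k332 k333))) (.br (nat_lit 0x200300500b019400600a016032650) (.br (nat_lit 0x100200400b0192004008016032650)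 k334 (.br (nat_lit 0x200000a00b0194000014016032411) k335 k336)) (.br (nat_lit 0xa00000500b019400000a016134411) (.br (nat_lit 0x500000900b019a000012016032411) k337 k338) (.br (nat_lit 0x600000200400b01900040080d7832511) k339 k340)))))
noncomputable def u16 : KT := (.one (nat_lit 0xb0190000000016032320))
def w16 : u16.all (wj 57 s16) = true := by decide +kernel
def o16 : OkW 57 (jb2 57 fl) u16 := .lift s16 _ (.br _ _ _ (.br _ _ _ (.br _ _ _ (.br _ _ _ (.leaf b0 k316 t316) (.br _ _ _ (.leaf b0 k317 t317) (.leaf b0 k318 t318))) (.br _ _ _ (.leaf b0 k319 t319) (.br _ _ _ (.leaf b0 k320 t320) (.leaf b0 k321 t321)))) (.br _ _ _ (.br _ _ _ (.leaf b0 k322 t322) (.br _ _ _ (.leaf b0 k323 t323) (.leaf b0 k324 t324))) (.br _ _ _ (.leaf b0 k325 t325) (.br _ _ _ (.leaf b0 k326 t326) (.leaf b0 k327 t327))))) (.br _ _ _ (.br _ _ _ (.br _ _ _ (.leaf b0 k328 t328) (.br _ _ _ (.leaf b0 k329 t329) (.leaf b0 k330 t330))) (.br _ _ _ (.leaf b0 k331 t331) (.br _ _ _ (.leaf b0 k332 t332) (.leaf b0 k333 t333)))) (.br _ _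 _ (.br _ _ _ (.leaf b0 k334 t334) (.br _ _ _ (.leaf b0 k335 t335) (.leaf b0 k336 t336))) (.br _ _ _ (.br _ _ _ (.leaf b0 k337 t337) (.leaf b0 k338 t338)) (.br _ _ _ (.leaf b0 k339 t339) (.leaf b0 k340 t340)))))) w16
noncomputable def k341 : KT := (.br (Nat.shiftLeft (nat_lit 0x5) (nat_lit 88)) (.br (Nat.shiftLeft (nat_lit 0x1) (nat_lit 89)) (.br (Nat.shiftLeft (nat_lit 0x1) (nat_lit 88)) (.one (nat_lit 0xb01a0000000016035300)) (.one (nat_lit 0x100b01a0000002016034430))) (.br (Nat.shiftLeft (nat_lit 0x3) (nat_lit 88)) (.one (nat_lit 0x200b01a0000004016034430)) (.br (Nat.shiftLeft (nat_lit 0x1) (nat_lit 90)) (.one (nat_lit 0x300b01a0000006016035400)) (.one (nat_lit 0x400b01a0000008016035400))))) (.br (Nat.shiftLeft (nat_lit 0x7) (nat_lit 88)) (.br (Nat.shiftLeft (nat_lit 0x3) (nat_lit 89)) (.one (nat_lit 0x500b01a000000a016035400)) (.one (nat_lit 0x600b01a000000c016035400))) (.br (Nat.shiftLeft (nat_lit 0x1) (nat_lit 91)) (.one (nat_lit 0x700b01a000000e016035400)) (.br (Nat.shiftLeft (nat_lit 0x9)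 (nat_lit 88)) (.one (nat_lit 0x800b01a0000010016035400)) (.one (nat_lit 0x900b01a0000012016035400))))))
def t341 : k341.all (jb2 57 fl b0) = true := by decide +kernel
noncomputable def k342 : KT := (.br (Nat.shiftLeft (nat_lit 0x1) (nat_lit 100)) (.one (nat_lit 0xa00b01a0000014016034430)) (.one (nat_lit 0x100000b01a0002000016034311)))
def t342 : k342.all (jb2 57 fl b0) = true := by decide +kernel
noncomputable def k343 : KT := (.br (Nat.shiftLeft (nat_lit 0x401) (nat_lit 90)) (.one (nat_lit 0x100300b01a0002006016034540)) (.one (nat_lit 0x100400b01a0002008016034540)))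
def t343 : k343.all (jb2 57 fl b0) = true := by decide +kernel
noncomputable def k344 : KT := (.br (Nat.shiftLeft (nat_lit 0x803) (nat_lit 89)) (.one (nat_lit 0x100500b01a000200a016034540)) (.br (Nat.shiftLeft (nat_lit 0x1007) (nat_lit 88)) (.one (nat_lit 0x100600b01a000200c016034540)) (.one (nat_lit 0x100700b01a000200e016034540))))
def t344 : k344.all (jb2 57 fl b0) = true := by decide +kernel
noncomputable def k345 : KT := (.br (Nat.shiftLeft (nat_lit 0x1009) (nat_lit 88)) (.one (nat_lit 0x100800b01a0002010016034540)) (.br (Nat.shiftLeft (nat_lit 0x1) (nat_lit 101)) (.one (nat_lit 0x100900b01a0002012016034540)) (.one (nat_lit 0x200000b01a0004000016034311))))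
def t345 : k345.all (jb2 57 fl b0) = true := by decide +kernel
noncomputable def k346 : KT := (.one (nat_lit 0x200300b01a0004006016034540))
def t346 : k346.all (jb2 57 fl b0) = true := by decide +kernel
noncomputable def k347 : KT := (.one (nat_lit 0x200400b01a0004008016034540))
def t347 : k347.all (jb2 57 fl b0) = true := by decide +kernel
noncomputable def k348 : KT := (.one (nat_lit 0x200500b01a000400a016034540))
def t348 : k348.all (jb2 57 fl b0) = true := by decide +kernel
noncomputable def k349 : KT := (.br (Nat.shiftLeft (nat_lit 0x2007) (nat_lit 88)) (.one (nat_lit 0x200600b01a000400c016034540)) (.one (nat_lit 0x200700b01a000400e016034540)))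
def t349 : k349.all (jb2 57 fl b0) = true := by decide +kernel
noncomputable def k350 : KT := (.br (Nat.shiftLeft (nat_lit 0x3) (nat_lit 100)) (.br (Nat.shiftLeft (nat_lit 0x2009) (nat_lit 88)) (.one (nat_lit 0x200800b01a0004010016034540)) (.one (nat_lit 0x200900b01a0004012016034540))) (.br (Nat.shiftLeft (nat_lit 0xc01) (nat_lit 90)) (.one (nat_lit 0x300000b01a0006000016034311)) (.one (nat_lit 0x300400b01a0006008016035500))))
def t350 : k350.all (jb2 57 fl b0) = true := by decide +kernel
noncomputable def k351 : KT := (.one (nat_lit 0x300500b01a000600a016034540))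
def t351 : k351.all (jb2 57 fl b0) = true := by decide +kernel
noncomputable def k352 : KT := (.br (Nat.shiftLeft (nat_lit 0x3007) (nat_lit 88)) (.one (nat_lit 0x300600b01a000600c016034540)) (.one (nat_lit 0x300700b01a000600e016034540)))
def t352 : k352.all (jb2 57 fl b0) = true := by decide +kernel
noncomputable def k353 : KT := (.br (Nat.shiftLeft (nat_lit 0x3009) (nat_lit 88)) (.one (nat_lit 0x300800b01a0006010016034540)) (.br (Nat.shiftLeft (nat_lit 0x1) (nat_lit 102)) (.one (nat_lit 0x300900b01a0006012016034540)) (.one (nat_lit 0x400000b01a0008000016034311))))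
def t353 : k353.all (jb2 57 fl b0) = true := by decide +kernel
noncomputable def k354 : KT := (.one (nat_lit 0x400500b01a000800a016034540))
def t354 : k354.all (jb2 57 fl b0) = true := by decide +kernel
noncomputable def k355 : KT := (.br (Nat.shiftLeft (nat_lit 0x4007) (nat_lit 88)) (.one (nat_lit 0x400600b01a000800c016034540)) (.one (nat_lit 0x400700b01a000800e016034540)))
def t355 : k355.all (jb2 57 fl b0) = true := by decide +kernel
noncomputable def k356 : KT := (.br (Nat.shiftLeft (nat_lit 0x5) (nat_lit 100)) (.br (Nat.shiftLeft (nat_lit 0x4009) (nat_lit 88)) (.one (nat_lit 0x400800b01a0008010016034540)) (.one (nat_lit 0x400900b01a0008012016034540))) (.br (Nat.shiftLeft (nat_lit 0x1401) (nat_lit 90)) (.one (nat_lit 0x500000b01a000a000016034311)) (.one (nat_lit 0x500600b01a000a00c016034540))))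
def t356 : k356.all (jb2 57 fl b0) = true := by decide +kernel
noncomputable def k357 : KT := (.br (Nat.shiftLeft (nat_lit 0x1801) (nat_lit 90)) (.br (Nat.shiftLeft (nat_lit 0x5009) (nat_lit 88)) (.br (Nat.shiftLeft (nat_lit 0xa01) (nat_lit 91)) (.one (nat_lit 0x500700b01a000a00e016034540)) (.one (nat_lit 0x500800b01a000a010016034540))) (.br (Nat.shiftLeft (nat_lit 0x3) (nat_lit 101)) (.one (nat_lit 0x500900b01a000a012016034540)) (.one (nat_lit 0x600000b01a000c000016034311)))) (.br (Nat.shiftLeft (nat_lit 0x6009) (nat_lit 88)) (.br (Nat.shiftLeft (nat_lit 0xc01) (nat_lit 91)) (.one (nat_lit 0x600700b01a000c00e016034540)) (.one (nat_lit 0x600800b01a000c010016034540))) (.br (Nat.shiftLeft (nat_lit 0x7) (nat_lit 100)) (.one (nat_lit 0x600900b01a000c012016034540)) (.one (nat_lit 0x700000b01a000e000016034311)))))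
def t357 : k357.all (jb2 57 fl b0) = true := by decide +kernel
noncomputable def k358 : KT := (.br (Nat.shiftLeft (nat_lit 0x800001) (nat_lit 90)) (.br (Nat.shiftLeft (nat_lit 0x400001) (nat_lit 90)) (.br (Nat.shiftLeft (nat_lit 0x9) (nat_lit 100)) (.br (Nat.shiftLeft (nat_lit 0x1) (nat_lit 103)) (.br (Nat.shiftLeft (nat_lit 0x7009) (nat_lit 88)) (.one (nat_lit 0x700800b01a000e010016034540)) (.one (nat_lit 0x700900b01a000e012016034540))) (.br (Nat.shiftLeft (nat_lit 0x1001) (nat_lit 91)) (.one (nat_lit 0x800000b01a0010000016034311)) (.one (nat_lit 0x800900b01a0010012016034540)))) (.br (Nat.shiftLeft (nat_lit 0xb) (nat_lit 100)) (.br (Nat.shiftLeft (nat_lit 0x5) (nat_lit 101)) (.one (nat_lit 0x900000b01a0012000016034311)) (.one (nat_lit 0xa00000b01a0014000016034311))) (.br (Nat.shiftLeft (nat_lit 0x1) (nat_lit 112)) (.one (nat_lit 0xb00000b01a0016000016034311)) (.one (nat_lit 0x100000300b01a2000006016034411))))) (.br (Nat.shiftLeft (nat_lit 0x200001) (nat_lit 91)) (.br (Nat.shiftLeft (nat_lit 0x800003)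 (nat_lit 89)) (.br (Nat.shiftLeft (nat_lit 0x1000005) (nat_lit 88)) (.one (nat_lit 0x100000400b01a2000008016034411)) (.one (nat_lit 0x100000500b01a200000a016034411))) (.br (Nat.shiftLeft (nat_lit 0x1000007) (nat_lit 88)) (.one (nat_lit 0x100000600b01a200000c016034411)) (.one (nat_lit 0x100000700b01a200000e016034411)))) (.br (Nat.shiftLeft (nat_lit 0x801) (nat_lit 101)) (.br (Nat.shiftLeft (nat_lit 0x1000009) (nat_lit 88)) (.one (nat_lit 0x100000800b01a2000010016034411)) (.one (nat_lit 0x100000900b01a2000012016034411))) (.br (Nat.shiftLeft (nat_lit 0x1) (nat_lit 113)) (.one (nat_lit 0x100300400b01a2006008016034650)) (.one (nat_lit 0x200000300b01a4000006016034411)))))) (.br (Nat.shiftLeft (nat_lit 0xc00001) (nat_lit 90)) (.br (Nat.shiftLeft (nat_lit 0x400001) (nat_lit 91)) (.br (Nat.shiftLeft (nat_lit 0x1000003) (nat_lit 89)) (.br (Nat.shiftLeft (nat_lit 0x2000005) (nat_lit 88)) (.one (nat_lit 0x200000400b01a4000008016034411)) (.one (nat_lit 0x200000500b01a400000a016034411))) (.br (Nat.shiftLeft (nat_lit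 0x2000007) (nat_lit 88)) (.one (nat_lit 0x200000600b01a400000c016034411)) (.one (nat_lit 0x200000700b01a400000e016034411)))) (.br (Nat.shiftLeft (nat_lit 0x1001) (nat_lit 101)) (.br (Nat.shiftLeft (nat_lit 0x2000009) (nat_lit 88)) (.one (nat_lit 0x200000800b01a4000010016034411)) (.one (nat_lit 0x200000900b01a4000012016034411))) (.br (Nat.shiftLeft (nat_lit 0x3) (nat_lit 112)) (.one (nat_lit 0x200300400b01a4006008016034650)) (.one (nat_lit 0x300000300b01a6000006016034411))))) (.br (Nat.shiftLeft (nat_lit 0x600001) (nat_lit 91)) (.br (Nat.shiftLeft (nat_lit 0x1800003) (nat_lit 89)) (.br (Nat.shiftLeft (nat_lit 0x3000005) (nat_lit 88)) (.one (nat_lit 0x300000400b01a6000008016034411)) (.one (nat_lit 0x300000500b01a600000a016034411))) (.br (Nat.shiftLeft (nat_lit 0x3000007) (nat_lit 88)) (.one (nat_lit 0x300000600b01a600000c016034411)) (.one (nat_lit 0x300000700b01a600000e016034411)))) (.br (Nat.shiftLeft (nat_lit 0x1) (nat_lit 114)) (.br (Nat.shiftLeft (nat_lit 0x3000009) (nat_lit 88)) (.one (nat_lit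 0x300000800b01a6000010016034411)) (.one (nat_lit 0x300000900b01a6000012016034411))) (.br (Nat.shiftLeft (nat_lit 0x1000001) (nat_lit 90)) (.one (nat_lit 0x400000300b01a8000006016034411)) (.one (nat_lit 0x400000400b01a8000008016034411)))))))
def t358 : k358.all (jb2 57 fl b0) = true := by decide +kernel
noncomputable def k359 : KT := (.br (Nat.shiftLeft (nat_lit 0x1c00001) (nat_lit 90)) (.br (Nat.shiftLeft (nat_lit 0xa00001) (nat_lit 91)) (.br (Nat.shiftLeft (nat_lit 0x5) (nat_lit 112)) (.br (Nat.shiftLeft (nat_lit 0x4000007) (nat_lit 88)) (.br (Nat.shiftLeft (nat_lit 0x2000003) (nat_lit 89)) (.one (nat_lit 0x400000500b01a800000a016034411)) (.one (nat_lit 0x400000600b01a800000c016034411))) (.br (Nat.shiftLeft (nat_lit 0x800001) (nat_lit 91)) (.one (nat_lit 0x400000700b01a800000e016034411)) (.br (Nat.shiftLeft (nat_lit 0x4000009) (nat_lit 88)) (.one (nat_lit 0x400000800b01a8000010016034411)) (.one (nat_lit 0x400000900b01a8000012016034411))))) (.br (Nat.shiftLeft (nat_lit 0x5000005) (nat_lit 88)) (.br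 (Nat.shiftLeft (nat_lit 0x1400001) (nat_lit 90)) (.one (nat_lit 0x500000300b01aa000006016034411)) (.one (nat_lit 0x500000400b01aa000008016034411))) (.br (Nat.shiftLeft (nat_lit 0x2800003) (nat_lit 89)) (.one (nat_lit 0x500000500b01aa00000a016034411)) (.br (Nat.shiftLeft (nat_lit 0x5000007) (nat_lit 88)) (.one (nat_lit 0x500000600b01aa00000c016034411)) (.one (nat_lit 0x500000700b01aa00000e016034411)))))) (.br (Nat.shiftLeft (nat_lit 0x3000003) (nat_lit 89)) (.br (Nat.shiftLeft (nat_lit 0x3) (nat_lit 113)) (.br (Nat.shiftLeft (nat_lit 0x5000009) (nat_lit 88)) (.one (nat_lit 0x500000800b01aa000010016034411)) (.one (nat_lit 0x500000900b01aa000012016034411))) (.br (Nat.shiftLeft (nat_lit 0x1800001) (nat_lit 90)) (.one (nat_lit 0x600000300b01ac000006016034411)) (.br (Nat.shiftLeft (nat_lit 0x6000005) (nat_lit 88)) (.one (nat_lit 0x600000400b01ac000008016034411)) (.one (nat_lit 0x600000500b01ac00000a016034411))))) (.br (Nat.shiftLeft (nat_lit 0xc00001) (nat_lit 91)) (.br (Nat.shiftLeft (nat_lit 0x6000007)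 (nat_lit 88)) (.one (nat_lit 0x600000600b01ac00000c016034411)) (.one (nat_lit 0x600000700b01ac00000e016034411))) (.br (Nat.shiftLeft (nat_lit 0x6000009) (nat_lit 88)) (.one (nat_lit 0x600000800b01ac000010016034411)) (.br (Nat.shiftLeft (nat_lit 0x7) (nat_lit 112)) (.one (nat_lit 0x600000900b01ac000012016034411)) (.one (nat_lit 0x700000300b01ae000006016034411))))))) (.br (Nat.shiftLeft (nat_lit 0x8000007) (nat_lit 88)) (.br (Nat.shiftLeft (nat_lit 0x7000009) (nat_lit 88)) (.br (Nat.shiftLeft (nat_lit 0x3800003) (nat_lit 89)) (.br (Nat.shiftLeft (nat_lit 0x7000005) (nat_lit 88)) (.one (nat_lit 0x700000400b01ae000008016034411)) (.one (nat_lit 0x700000500b01ae00000a016034411))) (.br (Nat.shiftLeft (nat_lit 0x7000007) (nat_lit 88)) (.one (nat_lit 0x700000600b01ae00000c016034411)) (.br (Nat.shiftLeft (nat_lit 0xe00001) (nat_lit 91)) (.one (nat_lit 0x700000700b01ae00000e016034411)) (.one (nat_lit 0x700000800b01ae000010016034411))))) (.br (Nat.shiftLeft (nat_lit 0x2000001) (nat_lit 90)) (.br (Nat.shiftLeft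 (nat_lit 0x1) (nat_lit 115)) (.one (nat_lit 0x700000900b01ae000012016034411)) (.one (nat_lit 0x800000300b01a0000006016136411))) (.br (Nat.shiftLeft (nat_lit 0x8000005) (nat_lit 88)) (.one (nat_lit 0x800000400b01a0000008016136411)) (.br (Nat.shiftLeft (nat_lit 0x4000003) (nat_lit 89)) (.one (nat_lit 0x800000500b01a000000a016136411)) (.one (nat_lit 0x800000600b01a000000c016136411)))))) (.br (Nat.shiftLeft (nat_lit 0x9000005) (nat_lit 88)) (.br (Nat.shiftLeft (nat_lit 0x8000009) (nat_lit 88)) (.br (Nat.shiftLeft (nat_lit 0x1000001) (nat_lit 91)) (.one (nat_lit 0x800000700b01a000000e016136411)) (.one (nat_lit 0x800000800b01a0000010016136411))) (.br (Nat.shiftLeft (nat_lit 0x9) (nat_lit 112)) (.one (nat_lit 0x800000900b01a0000012016136411)) (.br (Nat.shiftLeft (nat_lit 0x2400001) (nat_lit 90)) (.one (nat_lit 0x900000300b01a2000006016136411)) (.one (nat_lit 0x900000400b01a2000008016136411))))) (.br (Nat.shiftLeft (nat_lit 0x9000007) (nat_lit 88)) (.br (Nat.shiftLeft (nat_lit 0x4800003) (nat_lit 89)) (.one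 (nat_lit 0x900000500b01a200000a016136411)) (.one (nat_lit 0x900000600b01a200000c016136411))) (.br (Nat.shiftLeft (nat_lit 0x1200001) (nat_lit 91)) (.one (nat_lit 0x900000700b01a200000e016136411)) (.br (Nat.shiftLeft (nat_lit 0x9000009) (nat_lit 88)) (.one (nat_lit 0x900000800b01a2000010016136411)) (.one (nat_lit 0x900000900b01a2000012016136411))))))))
def t359 : k359.all (jb2 57 fl b0) = true := by decide +kernel
noncomputable def k360 : KT := (.br (Nat.shiftLeft (nat_lit 0x1600001) (nat_lit 91)) (.br (Nat.shiftLeft (nat_lit 0xa000009) (nat_lit 88)) (.br (Nat.shiftLeft (nat_lit 0x5000003) (nat_lit 89)) (.br (Nat.shiftLeft (nat_lit 0x2800001) (nat_lit 90)) (.one (nat_lit 0xa00000300b01a4000006016136411)) (.br (Nat.shiftLeft (nat_lit 0xa000005) (nat_lit 88)) (.one (nat_lit 0xa00000400b01a4000008016136411)) (.one (nat_lit 0xa00000500b01a400000a016136411)))) (.br (Nat.shiftLeft (nat_lit 0xa000007) (nat_lit 88)) (.one (nat_lit 0xa00000600b01a400000c016136411)) (.br (Nat.shiftLeft (nat_lit 0x1400001)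 (nat_lit 91)) (.one (nat_lit 0xa00000700b01a400000e016136411)) (.one (nat_lit 0xa00000800b01a4000010016136411))))) (.br (Nat.shiftLeft (nat_lit 0xb000005) (nat_lit 88)) (.br (Nat.shiftLeft (nat_lit 0xb) (nat_lit 112)) (.one (nat_lit 0xa00000900b01a4000012016136411)) (.br (Nat.shiftLeft (nat_lit 0x2c00001) (nat_lit 90)) (.one (nat_lit 0xb00000300b01a6000006016136411)) (.one (nat_lit 0xb00000400b01a6000008016136411)))) (.br (Nat.shiftLeft (nat_lit 0x5800003) (nat_lit 89)) (.one (nat_lit 0xb00000500b01a600000a016136411)) (.br (Nat.shiftLeft (nat_lit 0xb000007) (nat_lit 88)) (.one (nat_lit 0xb00000600b01a600000c016136411)) (.one (nat_lit 0xb00000700b01a600000e016136411)))))) (.br (Nat.shiftLeft (nat_lit 0x5) (nat_lit 124)) (.br (Nat.shiftLeft (nat_lit 0x1) (nat_lit 125)) (.br (Nat.shiftLeft (nat_lit 0xb000009) (nat_lit 88)) (.one (nat_lit 0xb00000800b01a6000010016136411)) (.br (Nat.shiftLeft (nat_lit 0x1) (nat_lit 124)) (.one (nat_lit 0xb00000900b01a6000012016136411)) (.one (nat_lit 0x100000300400b01a0006008036434511))))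 (.br (Nat.shiftLeft (nat_lit 0x3) (nat_lit 124)) (.one (nat_lit 0x200000300400b01a0006008056834511)) (.br (Nat.shiftLeft (nat_lit 0x1) (nat_lit 126)) (.one (nat_lit 0x300000300400b01a0006008076c34511)) (.one (nat_lit 0x400000300400b01a0006008097034511))))) (.br (Nat.shiftLeft (nat_lit 0x1) (nat_lit 127)) (.br (Nat.shiftLeft (nat_lit 0x3) (nat_lit 125)) (.one (nat_lit 0x500000300400b01a00060080b7434511)) (.br (Nat.shiftLeft (nat_lit 0x7) (nat_lit 124)) (.one (nat_lit 0x600000300400b01a00060080d7834511)) (.one (nat_lit 0x700000300400b01a00060080f7c34511)))) (.br (Nat.shiftLeft (nat_lit 0x5) (nat_lit 125)) (.br (Nat.shiftLeft (nat_lit 0x9) (nat_lit 124)) (.one (nat_lit 0x800000300400b01a0006008118034511)) (.one (nat_lit 0x900000300400b01a0006008138434511))) (.br (Nat.shiftLeft (nat_lit 0xb) (nat_lit 124)) (.one (nat_lit 0xa00000300400b01a0006008158834511)) (.one (nat_lit 0xb00000300400b01a0006008178c34511)))))))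
def t360 : k360.all (jb2 57 fl b0) = true := by decide +kernel
noncomputable def s17 : KT := (.br (nat_lit 0x300400b01a0006008016035500) (.br (nat_lit 0x200000b01a0004000016034311) (.br (nat_lit 0x100000b01a0002000016034311) (.br (nat_lit 0x900b01a0000012016035400) k341 k342) (.br (nat_lit 0x100400b01a0002008016034540) k343 (.br (nat_lit 0x100700b01a000200e016034540) k344 k345))) (.br (nat_lit 0x200400b01a0004008016034540) (.br (nat_lit 0x200300b01a0004006016034540) k346 k347) (.br (nat_lit 0x200500b01a000400a016034540) k348 (.br (nat_lit 0x200700b01a000400e016034540) k349 k350)))) (.br (nat_lit 0x400700b01a000800e016034540) (.br (nat_lit 0x300700b01a000600e016034540) (.br (nat_lit 0x300500b01a000600a016034540) k351 k352) (.br (nat_lit 0x400000b01a0008000016034311) k353 (.br (nat_lit 0x400500b01a000800a016034540) k354 k355))) (.br (nat_lit 0x700000b01a000e000016034311) (.br (nat_lit 0x500600b01a000a00c016034540) k356 k357) (.br (nat_lit 0x400000400b01a8000008016034411) k358 (.br (nat_lit 0x900000900b01a2000012016136411)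 k359 k360)))))
noncomputable def u17 : KT := (.one (nat_lit 0xb01a0000000016034320))
def w17 : u17.all (wj 57 s17) = true := by decide +kernel
def o17 : OkW 57 (jb2 57 fl) u17 := .lift s17 _ (.br _ _ _ (.br _ _ _ (.br _ _ _ (.br _ _ _ (.leaf b0 k341 t341) (.leaf b0 k342 t342)) (.br _ _ _ (.leaf b0 k343 t343) (.br _ _ _ (.leaf b0 k344 t344) (.leaf b0 k345 t345)))) (.br _ _ _ (.br _ _ _ (.leaf b0 k346 t346) (.leaf b0 k347 t347)) (.br _ _ _ (.leaf b0 k348 t348) (.br _ _ _ (.leaf b0 k349 t349) (.leaf b0 k350 t350))))) (.br _ _ _ (.br _ _ _ (.br _ _ _ (.leaf b0 k351 t351) (.leaf b0 k352 t352)) (.br _ _ _ (.leaf b0 k353 t353) (.br _ _ _ (.leaf b0 k354 t354) (.leaf b0 k355 t355)))) (.br _ _ _ (.br _ _ _ (.leaf b0 k356 t356) (.leaf b0 k357 t357)) (.br _ _ _ (.leaf b0 k358 t358) (.br _ _ _ (.leaf b0 k359 t359) (.leaf b0 k360 t360)))))) w17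
noncomputable def k361 : KT := (.br (Nat.shiftLeft (nat_lit 0x1) (nat_lit 90)) (.br (Nat.shiftLeft (nat_lit 0x1) (nat_lit 89)) (.br (Nat.shiftLeft (nat_lit 0x1) (nat_lit 88)) (.br (Nat.shiftLeft (nat_lit 0x2c07) (nat_lit 66)) (.one (nat_lit 0xb01b0000000016037300)) (.one (nat_lit 0xb01c0000000016039300))) (.br (Nat.shiftLeft (nat_lit 0x402c07) (nat_lit 66)) (.one (nat_lit 0x100b01b0000002016036430)) (.one (nat_lit 0x100b01c0000002016038430)))) (.br (Nat.shiftLeft (nat_lit 0x3) (nat_lit 88)) (.br (Nat.shiftLeft (nat_lit 0x802c07) (nat_lit 66)) (.one (nat_lit 0x200b01b0000004016036430)) (.one (nat_lit 0x200b01c0000004016038430))) (.br (Nat.shiftLeft (nat_lit 0xc02c07) (nat_lit 66)) (.one (nat_lit 0x300b01b0000006016037400)) (.one (nat_lit 0x300b01c0000006016039400))))) (.br (Nat.shiftLeft (nat_lit 0x3) (nat_lit 89)) (.br (Nat.shiftLeft (nat_lit 0x5) (nat_lit 88)) (.br (Nat.shiftLeft (nat_lit 0x1002c07) (nat_lit 66)) (.one (nat_lit 0x400b01b0000008016037400)) (.one (nat_lit 0x400b01c0000008016039400)))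 (.br (Nat.shiftLeft (nat_lit 0x1402c07) (nat_lit 66)) (.one (nat_lit 0x500b01b000000a016037400)) (.one (nat_lit 0x500b01c000000a016039400)))) (.br (Nat.shiftLeft (nat_lit 0x7) (nat_lit 88)) (.br (Nat.shiftLeft (nat_lit 0x1802c07) (nat_lit 66)) (.one (nat_lit 0x600b01b000000c016037400)) (.one (nat_lit 0x600b01c000000c016039400))) (.br (Nat.shiftLeft (nat_lit 0x1c02c07) (nat_lit 66)) (.one (nat_lit 0x700b01b000000e016037400)) (.br (Nat.shiftLeft (nat_lit 0x1) (nat_lit 91)) (.one (nat_lit 0x700b01c000000e016039400)) (.one (nat_lit 0x800b01b0000010016037400)))))))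
def t361 : k361.all (jb2 57 fl b0) = true := by decide +kernel
noncomputable def k362 : KT := (.one (nat_lit 0x800b01c0000010016038430))
def t362 : k362.all (jb2 57 fl b0) = true := by decide +kernel
noncomputable def k363 : KT := (.one (nat_lit 0x900b01b0000012016036430))
def t363 : k363.all (jb2 57 fl b0) = true := by decide +kernel
noncomputable def k364 : KT := (.br (Nat.shiftLeft (nat_lit 0x5) (nat_lit 89)) (.one (nat_lit 0x900b01c0000012016038430)) (.one (nat_lit 0xa00b01b0000014016036430)))
def t364 : k364.all (jb2 57 fl b0) = true := by decide +kernel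
noncomputable def k365 : KT := (.br (Nat.shiftLeft (nat_lit 0x400002c07) (nat_lit 66)) (.br (Nat.shiftLeft (nat_lit 0x1) (nat_lit 100)) (.one (nat_lit 0xa00b01c0000014016038430)) (.one (nat_lit 0x100000b01b0002000016036311))) (.br (Nat.shiftLeft (nat_lit 0x801) (nat_lit 89)) (.one (nat_lit 0x100000b01c0002000016038311)) (.br (Nat.shiftLeft (nat_lit 0x400c02c07) (nat_lit 66)) (.one (nat_lit 0x100300b01b0002006016036540)) (.one (nat_lit 0x100300b01c0002006016038540)))))
def t365 : k365.all (jb2 57 fl b0) = true := by decide +kernel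
noncomputable def k366 : KT := (.br (Nat.shiftLeft (nat_lit 0x401002c07) (nat_lit 66)) (.one (nat_lit 0x100400b01b0002008016036540)) (.one (nat_lit 0x100400b01c0002008016038540)))
def t366 : k366.all (jb2 57 fl b0) = true := by decide +kernel
noncomputable def k367 : KT := (.br (Nat.shiftLeft (nat_lit 0x401402c07) (nat_lit 66)) (.one (nat_lit 0x100500b01b000200a016036540)) (.br (Nat.shiftLeft (nat_lit 0x803) (nat_lit 89)) (.one (nat_lit 0x100500b01c000200a016038540)) (.one (nat_lit 0x100600b01b000200c016036540))))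
def t367 : k367.all (jb2 57 fl b0) = true := by decide +kernel
noncomputable def k368 : KT := (.br (Nat.shiftLeft (nat_lit 0x201) (nat_lit 91)) (.br (Nat.shiftLeft (nat_lit 0x1007) (nat_lit 88)) (.one (nat_lit 0x100600b01c000200c016038540)) (.br (Nat.shiftLeft (nat_lit 0x401c02c07) (nat_lit 66)) (.one (nat_lit 0x100700b01b000200e016036540)) (.one (nat_lit 0x100700b01c000200e016038540)))) (.br (Nat.shiftLeft (nat_lit 0x1) (nat_lit 101)) (.one (nat_lit 0x100800b01b0002010016036540)) (.br (Nat.shiftLeft (nat_lit 0x800002c07) (nat_lit 66)) (.one (nat_lit 0x200000b01b0004000016036311)) (.one (nat_lit 0x200000b01c0004000016038311)))))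
def t368 : k368.all (jb2 57 fl b0) = true := by decide +kernel
noncomputable def k369 : KT := (.one (nat_lit 0x200300b01b0004006016036540))
def t369 : k369.all (jb2 57 fl b0) = true := by decide +kernel
noncomputable def k370 : KT := (.one (nat_lit 0x200300b01c0004006016038540))
def t370 : k370.all (jb2 57 fl b0) = true := by decide +kernel
noncomputable def k371 : KT := (.one (nat_lit 0x200400b01b0004008016036540))
def t371 : k371.all (jb2 57 fl b0) = true := by decide +kernel
noncomputable def k372 : KT := (.one (nat_lit 0x200400b01c0004008016038540))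
def t372 : k372.all (jb2 57 fl b0) = true := by decide +kernel
noncomputable def k373 : KT := (.br (Nat.shiftLeft (nat_lit 0x801402c07) (nat_lit 66)) (.one (nat_lit 0x200500b01b000400a016036540)) (.one (nat_lit 0x200500b01c000400a016038540)))
def t373 : k373.all (jb2 57 fl b0) = true := by decide +kernel
noncomputable def k374 : KT := (.br (Nat.shiftLeft (nat_lit 0x801802c07) (nat_lit 66)) (.one (nat_lit 0x200600b01b000400c016036540)) (.br (Nat.shiftLeft (nat_lit 0x2007) (nat_lit 88)) (.one (nat_lit 0x200600b01c000400c016038540)) (.one (nat_lit 0x200700b01b000400e016036540))))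
def t374 : k374.all (jb2 57 fl b0) = true := by decide +kernel
noncomputable def k375 : KT := (.br (Nat.shiftLeft (nat_lit 0x3) (nat_lit 100)) (.br (Nat.shiftLeft (nat_lit 0x401) (nat_lit 91)) (.one (nat_lit 0x200700b01c000400e016038540)) (.one (nat_lit 0x200800b01b0004010016036540))) (.br (Nat.shiftLeft (nat_lit 0xc00002c07) (nat_lit 66)) (.one (nat_lit 0x300000b01b0006000016036311)) (.one (nat_lit 0x300000b01c0006000016038311))))
def t375 : k375.all (jb2 57 fl b0) = true := by decide +kernel
noncomputable def k376 : KT := (.one (nat_lit 0x300400b01b0006008016036540))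
def t376 : k376.all (jb2 57 fl b0) = true := by decide +kernel
noncomputable def k377 : KT := (.one (nat_lit 0x300400b01c0006008016038540))
def t377 : k377.all (jb2 57 fl b0) = true := by decide +kernel
noncomputable def k378 : KT := (.br (Nat.shiftLeft (nat_lit 0xc01402c07) (nat_lit 66)) (.one (nat_lit 0x300500b01b000600a016036540)) (.one (nat_lit 0x300500b01c000600a016038540)))
def t378 : k378.all (jb2 57 fl b0) = true := by decide +kernel
noncomputable def k379 : KT := (.br (Nat.shiftLeft (nat_lit 0xc01802c07) (nat_lit 66)) (.one (nat_lit 0x300600b01b000600c016036540)) (.br (Nat.shiftLeft (nat_lit 0x3007) (nat_lit 88)) (.one (nat_lit 0x300600b01c000600c016038540)) (.one (nat_lit 0x300700b01b000600e016036540))))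
def t379 : k379.all (jb2 57 fl b0) = true := by decide +kernel
noncomputable def k380 : KT := (.br (Nat.shiftLeft (nat_lit 0x1) (nat_lit 102)) (.br (Nat.shiftLeft (nat_lit 0x601) (nat_lit 91)) (.one (nat_lit 0x300700b01c000600e016038540)) (.one (nat_lit 0x300800b01b0006010016036540))) (.br (Nat.shiftLeft (nat_lit 0x1000002c07) (nat_lit 66)) (.one (nat_lit 0x400000b01b0008000016036311)) (.br (Nat.shiftLeft (nat_lit 0x1001) (nat_lit 90)) (.one (nat_lit 0x400000b01c0008000016038311)) (.one (nat_lit 0x400500b01b000800a016036540)))))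
def t380 : k380.all (jb2 57 fl b0) = true := by decide +kernel
noncomputable def k381 : KT := (.br (Nat.shiftLeft (nat_lit 0x2003) (nat_lit 89)) (.one (nat_lit 0x400500b01c000800a016038540)) (.br (Nat.shiftLeft (nat_lit 0x1001802c07) (nat_lit 66)) (.one (nat_lit 0x400600b01b000800c016036540)) (.one (nat_lit 0x400600b01c000800c016038540))))
def t381 : k381.all (jb2 57 fl b0) = true := by decide +kernel
noncomputable def k382 : KT := (.br (Nat.shiftLeft (nat_lit 0x5) (nat_lit 100)) (.br (Nat.shiftLeft (nat_lit 0x1001c02c07) (nat_lit 66)) (.one (nat_lit 0x400700b01b000800e016036540)) (.br (Nat.shiftLeft (nat_lit 0x801) (nat_lit 91)) (.one (nat_lit 0x400700b01c000800e016038540)) (.one (nat_lit 0x400800b01b0008010016036540)))) (.br (Nat.shiftLeft (nat_lit 0x1400002c07) (nat_lit 66)) (.one (nat_lit 0x500000b01b000a000016036311)) (.br (Nat.shiftLeft (nat_lit 0x1401) (nat_lit 90)) (.one (nat_lit 0x500000b01c000a000016038311)) (.one (nat_lit 0x500600b01b000a00c016036540)))))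
def t382 : k382.all (jb2 57 fl b0) = true := by decide +kernel
noncomputable def k383 : KT := (.br (Nat.shiftLeft (nat_lit 0xb) (nat_lit 100)) (.br (Nat.shiftLeft (nat_lit 0x7) (nat_lit 100)) (.br (Nat.shiftLeft (nat_lit 0x3) (nat_lit 101)) (.br (Nat.shiftLeft (nat_lit 0x1401c02c07) (nat_lit 66)) (.br (Nat.shiftLeft (nat_lit 0x5007) (nat_lit 88)) (.one (nat_lit 0x500600b01c000a00c016038540)) (.one (nat_lit 0x500700b01b000a00e016036540))) (.br (Nat.shiftLeft (nat_lit 0xa01) (nat_lit 91)) (.one (nat_lit 0x500700b01c000a00e016038540)) (.one (nat_lit 0x500800b01b000a010016036540)))) (.br (Nat.shiftLeft (nat_lit 0x1801) (nat_lit 90)) (.br (Nat.shiftLeft (nat_lit 0x1800002c07) (nat_lit 66)) (.one (nat_lit 0x600000b01b000c000016036311)) (.one (nat_lit 0x600000b01c000c000016038311))) (.br (Nat.shiftLeft (nat_lit 0x1801c02c07) (nat_lit 66)) (.one (nat_lit 0x600700b01b000c00e016036540)) (.br (Nat.shiftLeft (nat_lit 0xc01) (nat_lit 91)) (.one (nat_lit 0x600700b01c000c00e016038540)) (.one (nat_lit 0x600800b01b000c010016036540))))))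 (.br (Nat.shiftLeft (nat_lit 0x2000002c07) (nat_lit 66)) (.br (Nat.shiftLeft (nat_lit 0xe01) (nat_lit 91)) (.br (Nat.shiftLeft (nat_lit 0x1c00002c07) (nat_lit 66)) (.one (nat_lit 0x700000b01b000e000016036311)) (.one (nat_lit 0x700000b01c000e000016038311))) (.br (Nat.shiftLeft (nat_lit 0x1) (nat_lit 103)) (.one (nat_lit 0x700800b01b000e010016036540)) (.one (nat_lit 0x800000b01b0010000016036311)))) (.br (Nat.shiftLeft (nat_lit 0x2400002c07) (nat_lit 66)) (.br (Nat.shiftLeft (nat_lit 0x9) (nat_lit 100)) (.one (nat_lit 0x800000b01c0010000016038311)) (.one (nat_lit 0x900000b01b0012000016036311))) (.br (Nat.shiftLeft (nat_lit 0x5) (nat_lit 101)) (.one (nat_lit 0x900000b01c0012000016038311)) (.br (Nat.shiftLeft (nat_lit 0x2800002c07) (nat_lit 66)) (.one (nat_lit 0xa00000b01b0014000016036311)) (.one (nat_lit 0xa00000b01c0014000016038311))))))) (.br (Nat.shiftLeft (nat_lit 0x400001802c07) (nat_lit 66)) (.br (Nat.shiftLeft (nat_lit 0x400001) (nat_lit 90)) (.br (Nat.shiftLeft (nat_lit 0x1) (nat_lit 112)) (.br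 (Nat.shiftLeft (nat_lit 0x2c00002c07) (nat_lit 66)) (.one (nat_lit 0xb00000b01b0016000016036311)) (.one (nat_lit 0xb00000b01c0016000016038311))) (.br (Nat.shiftLeft (nat_lit 0x400000c02c07) (nat_lit 66)) (.one (nat_lit 0x100000300b01b2000006016036411)) (.one (nat_lit 0x100000300b01c2000006016038411)))) (.br (Nat.shiftLeft (nat_lit 0x1000005) (nat_lit 88)) (.br (Nat.shiftLeft (nat_lit 0x400001002c07) (nat_lit 66)) (.one (nat_lit 0x100000400b01b2000008016036411)) (.one (nat_lit 0x100000400b01c2000008016038411))) (.br (Nat.shiftLeft (nat_lit 0x400001402c07) (nat_lit 66)) (.one (nat_lit 0x100000500b01b200000a016036411)) (.br (Nat.shiftLeft (nat_lit 0x800003) (nat_lit 89)) (.one (nat_lit 0x100000500b01c200000a016038411)) (.one (nat_lit 0x100000600b01b200000c016036411)))))) (.br (Nat.shiftLeft (nat_lit 0x800000c02c07) (nat_lit 66)) (.br (Nat.shiftLeft (nat_lit 0x400001c02c07) (nat_lit 66)) (.br (Nat.shiftLeft (nat_lit 0x1000007) (nat_lit 88)) (.one (nat_lit 0x100000600b01c200000c016038411)) (.one (nat_lit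 0x100000700b01b200000e016036411))) (.br (Nat.shiftLeft (nat_lit 0x200001) (nat_lit 91)) (.one (nat_lit 0x100000700b01c200000e016038411)) (.br (Nat.shiftLeft (nat_lit 0x1) (nat_lit 113)) (.one (nat_lit 0x100000800b01b2000010016036411)) (.one (nat_lit 0x200000300b01b4000006016036411))))) (.br (Nat.shiftLeft (nat_lit 0x800001002c07) (nat_lit 66)) (.br (Nat.shiftLeft (nat_lit 0x800001) (nat_lit 90)) (.one (nat_lit 0x200000300b01c4000006016038411)) (.one (nat_lit 0x200000400b01b4000008016036411))) (.br (Nat.shiftLeft (nat_lit 0x2000005) (nat_lit 88)) (.one (nat_lit 0x200000400b01c4000008016038411)) (.br (Nat.shiftLeft (nat_lit 0x800001402c07) (nat_lit 66)) (.one (nat_lit 0x200000500b01b400000a016036411)) (.one (nat_lit 0x200000500b01c400000a016038411))))))))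
def t383 : k383.all (jb2 57 fl b0) = true := by decide +kernel
noncomputable def k384 : KT := (.br (Nat.shiftLeft (nat_lit 0x4000005) (nat_lit 88)) (.br (Nat.shiftLeft (nat_lit 0xc00001402c07) (nat_lit 66)) (.br (Nat.shiftLeft (nat_lit 0x3) (nat_lit 112)) (.br (Nat.shiftLeft (nat_lit 0x2000007) (nat_lit 88)) (.br (Nat.shiftLeft (nat_lit 0x800001802c07) (nat_lit 66)) (.one (nat_lit 0x200000600b01b400000c016036411)) (.one (nat_lit 0x200000600b01c400000c016038411))) (.br (Nat.shiftLeft (nat_lit 0x800001c02c07) (nat_lit 66)) (.one (nat_lit 0x200000700b01b400000e016036411)) (.br (Nat.shiftLeft (nat_lit 0x400001) (nat_lit 91)) (.one (nat_lit 0x200000700b01c400000e016038411)) (.one (nat_lit 0x200000800b01b4000010016036411))))) (.br (Nat.shiftLeft (nat_lit 0xc00001) (nat_lit 90)) (.br (Nat.shiftLeft (nat_lit 0xc00000c02c07) (nat_lit 66)) (.one (nat_lit 0x300000300b01b6000006016036411)) (.one (nat_lit 0x300000300b01c6000006016038411))) (.br (Nat.shiftLeft (nat_lit 0xc00001002c07) (nat_lit 66)) (.one (nat_lit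 0x300000400b01b6000008016036411)) (.br (Nat.shiftLeft (nat_lit 0x3000005) (nat_lit 88)) (.one (nat_lit 0x300000400b01c6000008016038411)) (.one (nat_lit 0x300000500b01b600000a016036411)))))) (.br (Nat.shiftLeft (nat_lit 0x600001) (nat_lit 91)) (.br (Nat.shiftLeft (nat_lit 0xc00001802c07) (nat_lit 66)) (.br (Nat.shiftLeft (nat_lit 0x1800003) (nat_lit 89)) (.one (nat_lit 0x300000500b01c600000a016038411)) (.one (nat_lit 0x300000600b01b600000c016036411))) (.br (Nat.shiftLeft (nat_lit 0x3000007) (nat_lit 88)) (.one (nat_lit 0x300000600b01c600000c016038411)) (.br (Nat.shiftLeft (nat_lit 0xc00001c02c07) (nat_lit 66)) (.one (nat_lit 0x300000700b01b600000e016036411)) (.one (nat_lit 0x300000700b01c600000e016038411))))) (.br (Nat.shiftLeft (nat_lit 0x1000000c02c07) (nat_lit 66)) (.br (Nat.shiftLeft (nat_lit 0x1) (nat_lit 114)) (.one (nat_lit 0x300000800b01b6000010016036411)) (.one (nat_lit 0x400000300b01b8000006016036411))) (.br (Nat.shiftLeft (nat_lit 0x1000001) (nat_lit 90)) (.one (nat_lit 0x400000300b01c8000006016038411))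 (.br (Nat.shiftLeft (nat_lit 0x1000001002c07) (nat_lit 66)) (.one (nat_lit 0x400000400b01b8000008016036411)) (.one (nat_lit 0x400000400b01c8000008016038411))))))) (.br (Nat.shiftLeft (nat_lit 0x1400001002c07) (nat_lit 66)) (.br (Nat.shiftLeft (nat_lit 0x1000001c02c07) (nat_lit 66)) (.br (Nat.shiftLeft (nat_lit 0x2000003) (nat_lit 89)) (.br (Nat.shiftLeft (nat_lit 0x1000001402c07) (nat_lit 66)) (.one (nat_lit 0x400000500b01b800000a016036411)) (.one (nat_lit 0x400000500b01c800000a016038411))) (.br (Nat.shiftLeft (nat_lit 0x1000001802c07) (nat_lit 66)) (.one (nat_lit 0x400000600b01b800000c016036411)) (.br (Nat.shiftLeft (nat_lit 0x4000007) (nat_lit 88)) (.one (nat_lit 0x400000600b01c800000c016038411)) (.one (nat_lit 0x400000700b01b800000e016036411))))) (.br (Nat.shiftLeft (nat_lit 0x5) (nat_lit 112)) (.br (Nat.shiftLeft (nat_lit 0x800001) (nat_lit 91)) (.one (nat_lit 0x400000700b01c800000e016038411)) (.one (nat_lit 0x400000800b01b8000010016036411))) (.br (Nat.shiftLeft (nat_lit 0x1400000c02c07) (nat_lit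 66)) (.one (nat_lit 0x500000300b01ba000006016036411)) (.br (Nat.shiftLeft (nat_lit 0x1400001) (nat_lit 90)) (.one (nat_lit 0x500000300b01ca000006016038411)) (.one (nat_lit 0x500000400b01ba000008016036411)))))) (.br (Nat.shiftLeft (nat_lit 0x5000007) (nat_lit 88)) (.br (Nat.shiftLeft (nat_lit 0x1400001402c07) (nat_lit 66)) (.br (Nat.shiftLeft (nat_lit 0x5000005) (nat_lit 88)) (.one (nat_lit 0x500000400b01ca000008016038411)) (.one (nat_lit 0x500000500b01ba00000a016036411))) (.br (Nat.shiftLeft (nat_lit 0x2800003) (nat_lit 89)) (.one (nat_lit 0x500000500b01ca00000a016038411)) (.br (Nat.shiftLeft (nat_lit 0x1400001802c07) (nat_lit 66)) (.one (nat_lit 0x500000600b01ba00000c016036411)) (.one (nat_lit 0x500000600b01ca00000c016038411))))) (.br (Nat.shiftLeft (nat_lit 0xa00001) (nat_lit 91)) (.br (Nat.shiftLeft (nat_lit 0x1400001c02c07) (nat_lit 66)) (.one (nat_lit 0x500000700b01ba00000e016036411)) (.one (nat_lit 0x500000700b01ca00000e016038411))) (.br (Nat.shiftLeft (nat_lit 0x3) (nat_lit 113)) (.one (nat_lit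 0x500000800b01ba000010016036411)) (.br (Nat.shiftLeft (nat_lit 0x1800000c02c07) (nat_lit 66)) (.one (nat_lit 0x600000300b01bc000006016036411)) (.one (nat_lit 0x600000300b01cc000006016038411))))))))
def t384 : k384.all (jb2 57 fl b0) = true := by decide +kernel
noncomputable def k385 : KT := (.br (Nat.shiftLeft (nat_lit 0x1) (nat_lit 115)) (.br (Nat.shiftLeft (nat_lit 0x1c00000c02c07) (nat_lit 66)) (.br (Nat.shiftLeft (nat_lit 0x1800001802c07) (nat_lit 66)) (.br (Nat.shiftLeft (nat_lit 0x6000005) (nat_lit 88)) (.br (Nat.shiftLeft (nat_lit 0x1800001002c07) (nat_lit 66)) (.one (nat_lit 0x600000400b01bc000008016036411)) (.one (nat_lit 0x600000400b01cc000008016038411))) (.br (Nat.shiftLeft (nat_lit 0x1800001402c07) (nat_lit 66)) (.one (nat_lit 0x600000500b01bc00000a016036411)) (.br (Nat.shiftLeft (nat_lit 0x3000003) (nat_lit 89)) (.one (nat_lit 0x600000500b01cc00000a016038411)) (.one (nat_lit 0x600000600b01bc00000c016036411))))) (.br (Nat.shiftLeft (nat_lit 0x1800001c02c07) (nat_lit 66)) (.br (Nat.shiftLeft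 (nat_lit 0x6000007) (nat_lit 88)) (.one (nat_lit 0x600000600b01cc00000c016038411)) (.one (nat_lit 0x600000700b01bc00000e016036411))) (.br (Nat.shiftLeft (nat_lit 0xc00001) (nat_lit 91)) (.one (nat_lit 0x600000700b01cc00000e016038411)) (.br (Nat.shiftLeft (nat_lit 0x7) (nat_lit 112)) (.one (nat_lit 0x600000800b01bc000010016036411)) (.one (nat_lit 0x700000300b01be000006016036411)))))) (.br (Nat.shiftLeft (nat_lit 0x3800003) (nat_lit 89)) (.br (Nat.shiftLeft (nat_lit 0x1c00001002c07) (nat_lit 66)) (.br (Nat.shiftLeft (nat_lit 0x1c00001) (nat_lit 90)) (.one (nat_lit 0x700000300b01ce000006016038411)) (.one (nat_lit 0x700000400b01be000008016036411))) (.br (Nat.shiftLeft (nat_lit 0x7000005) (nat_lit 88)) (.one (nat_lit 0x700000400b01ce000008016038411)) (.br (Nat.shiftLeft (nat_lit 0x1c00001402c07) (nat_lit 66)) (.one (nat_lit 0x700000500b01be00000a016036411)) (.one (nat_lit 0x700000500b01ce00000a016038411))))) (.br (Nat.shiftLeft (nat_lit 0x7000007) (nat_lit 88)) (.br (Nat.shiftLeft (nat_lit 0x1c00001802c07)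 (nat_lit 66)) (.one (nat_lit 0x700000600b01be00000c016036411)) (.one (nat_lit 0x700000600b01ce00000c016038411))) (.br (Nat.shiftLeft (nat_lit 0x1c00001c02c07) (nat_lit 66)) (.one (nat_lit 0x700000700b01be00000e016036411)) (.br (Nat.shiftLeft (nat_lit 0xe00001) (nat_lit 91)) (.one (nat_lit 0x700000700b01ce00000e016038411)) (.one (nat_lit 0x700000800b01be000010016036411))))))) (.br (Nat.shiftLeft (nat_lit 0x1000001) (nat_lit 91)) (.br (Nat.shiftLeft (nat_lit 0x2000001402c07) (nat_lit 66)) (.br (Nat.shiftLeft (nat_lit 0x2000001) (nat_lit 90)) (.br (Nat.shiftLeft (nat_lit 0x2000000c02c07) (nat_lit 66)) (.one (nat_lit 0x800000300b01b0000006016138411)) (.one (nat_lit 0x800000300b01c000000601613a411))) (.br (Nat.shiftLeft (nat_lit 0x2000001002c07) (nat_lit 66)) (.one (nat_lit 0x800000400b01b0000008016138411)) (.br (Nat.shiftLeft (nat_lit 0x8000005) (nat_lit 88)) (.one (nat_lit 0x800000400b01c000000801613a411)) (.one (nat_lit 0x800000500b01b000000a016138411))))) (.br (Nat.shiftLeft (nat_lit 0x2000001802c07)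 (nat_lit 66)) (.br (Nat.shiftLeft (nat_lit 0x4000003) (nat_lit 89)) (.one (nat_lit 0x800000500b01c000000a01613a411)) (.one (nat_lit 0x800000600b01b000000c016138411))) (.br (Nat.shiftLeft (nat_lit 0x8000007) (nat_lit 88)) (.one (nat_lit 0x800000600b01c000000c01613a411)) (.br (Nat.shiftLeft (nat_lit 0x2000001c02c07) (nat_lit 66)) (.one (nat_lit 0x800000700b01b000000e016138411)) (.one (nat_lit 0x800000700b01c000000e01613a411)))))) (.br (Nat.shiftLeft (nat_lit 0x9000005) (nat_lit 88)) (.br (Nat.shiftLeft (nat_lit 0x2400000c02c07) (nat_lit 66)) (.br (Nat.shiftLeft (nat_lit 0x9) (nat_lit 112)) (.one (nat_lit 0x800000800b01b0000010016138411)) (.one (nat_lit 0x900000300b01b2000006016138411))) (.br (Nat.shiftLeft (nat_lit 0x2400001) (nat_lit 90)) (.one (nat_lit 0x900000300b01c200000601613a411)) (.br (Nat.shiftLeft (nat_lit 0x2400001002c07) (nat_lit 66)) (.one (nat_lit 0x900000400b01b2000008016138411)) (.one (nat_lit 0x900000400b01c200000801613a411))))) (.br (Nat.shiftLeft (nat_lit 0x4800003) (nat_lit 89))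 (.br (Nat.shiftLeft (nat_lit 0x2400001402c07) (nat_lit 66)) (.one (nat_lit 0x900000500b01b200000a016138411)) (.one (nat_lit 0x900000500b01c200000a01613a411))) (.br (Nat.shiftLeft (nat_lit 0x2400001802c07) (nat_lit 66)) (.one (nat_lit 0x900000600b01b200000c016138411)) (.br (Nat.shiftLeft (nat_lit 0x9000007) (nat_lit 88)) (.one (nat_lit 0x900000600b01c200000c01613a411)) (.one (nat_lit 0x900000700b01b200000e016138411))))))))
def t385 : k385.all (jb2 57 fl b0) = true := by decide +kernel
noncomputable def k386 : KT := (.br (Nat.shiftLeft (nat_lit 0x1400001) (nat_lit 91)) (.br (Nat.shiftLeft (nat_lit 0xa000005) (nat_lit 88)) (.br (Nat.shiftLeft (nat_lit 0x2800000c02c07) (nat_lit 66)) (.br (Nat.shiftLeft (nat_lit 0x1200001) (nat_lit 91)) (.one (nat_lit 0x900000700b01c200000e01613a411)) (.br (Nat.shiftLeft (nat_lit 0x5) (nat_lit 113)) (.one (nat_lit 0x900000800b01b2000010016138411)) (.one (nat_lit 0xa00000300b01b4000006016138411)))) (.br (Nat.shiftLeft (nat_lit 0x2800001) (nat_lit 90)) (.one (nat_lit 0xa00000300b01c400000601613a411))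 (.br (Nat.shiftLeft (nat_lit 0x2800001002c07) (nat_lit 66)) (.one (nat_lit 0xa00000400b01b4000008016138411)) (.one (nat_lit 0xa00000400b01c400000801613a411))))) (.br (Nat.shiftLeft (nat_lit 0x2800001802c07) (nat_lit 66)) (.br (Nat.shiftLeft (nat_lit 0x2800001402c07) (nat_lit 66)) (.one (nat_lit 0xa00000500b01b400000a016138411)) (.br (Nat.shiftLeft (nat_lit 0x5000003) (nat_lit 89)) (.one (nat_lit 0xa00000500b01c400000a01613a411)) (.one (nat_lit 0xa00000600b01b400000c016138411)))) (.br (Nat.shiftLeft (nat_lit 0xa000007) (nat_lit 88)) (.one (nat_lit 0xa00000600b01c400000c01613a411)) (.br (Nat.shiftLeft (nat_lit 0x2800001c02c07) (nat_lit 66)) (.one (nat_lit 0xa00000700b01b400000e016138411)) (.one (nat_lit 0xa00000700b01c400000e01613a411)))))) (.br (Nat.shiftLeft (nat_lit 0x2c00001402c07) (nat_lit 66)) (.br (Nat.shiftLeft (nat_lit 0x2c00001) (nat_lit 90)) (.br (Nat.shiftLeft (nat_lit 0xb) (nat_lit 112)) (.one (nat_lit 0xa00000800b01b4000010016138411)) (.br (Nat.shiftLeft (nat_lit 0x2c00000c02c07) (nat_lit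 66)) (.one (nat_lit 0xb00000300b01b6000006016138411)) (.one (nat_lit 0xb00000300b01c600000601613a411)))) (.br (Nat.shiftLeft (nat_lit 0x2c00001002c07) (nat_lit 66)) (.one (nat_lit 0xb00000400b01b6000008016138411)) (.br (Nat.shiftLeft (nat_lit 0xb000005) (nat_lit 88)) (.one (nat_lit 0xb00000400b01c600000801613a411)) (.one (nat_lit 0xb00000500b01b600000a016138411))))) (.br (Nat.shiftLeft (nat_lit 0xb000007) (nat_lit 88)) (.br (Nat.shiftLeft (nat_lit 0x5800003) (nat_lit 89)) (.one (nat_lit 0xb00000500b01c600000a01613a411)) (.br (Nat.shiftLeft (nat_lit 0x2c00001802c07) (nat_lit 66)) (.one (nat_lit 0xb00000600b01b600000c016138411)) (.one (nat_lit 0xb00000600b01c600000c01613a411)))) (.br (Nat.shiftLeft (nat_lit 0x2c00001c02c07) (nat_lit 66)) (.one (nat_lit 0xb00000700b01b600000e016138411)) (.br (Nat.shiftLeft (nat_lit 0x1600001) (nat_lit 91)) (.one (nat_lit 0xb00000700b01c600000e01613a411)) (.one (nat_lit 0xb00000800b01b6000010016138411)))))))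
def t386 : k386.all (jb2 57 fl b0) = true := by decide +kernel
noncomputable def s18 : KT := (.br (nat_lit 0x200500b01c000400a016038540) (.br (nat_lit 0x100400b01c0002008016038540) (.br (nat_lit 0x900b01b0000012016036430) (.br (nat_lit 0x800b01b0000010016037400) k361 (.br (nat_lit 0x800b01c0000010016038430) k362 k363)) (.br (nat_lit 0xa00b01b0000014016036430) k364 (.br (nat_lit 0x100300b01c0002006016038540) k365 k366))) (.br (nat_lit 0x200300b01b0004006016036540) (.br (nat_lit 0x100600b01b000200c016036540) k367 (.br (nat_lit 0x200000b01c0004000016038311) k368 k369)) (.br (nat_lit 0x200400b01b0004008016036540) (.br (nat_lit 0x200300b01c0004006016038540) k370 k371) (.br (nat_lit 0x200400b01c0004008016038540) k372 k373)))) (.br (nat_lit 0x300700b01b000600e016036540) (.br (nat_lit 0x300400b01b0006008016036540) (.br (nat_lit 0x200700b01b000400e016036540) k374 (.br (nat_lit 0x300000b01c0006000016038311) k375 k376)) (.br (nat_lit 0x300400b01c0006008016038540) k377 (.br (nat_lit 0x300500b01c000600a016038540)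 k378 k379))) (.br (nat_lit 0x500600b01b000a00c016036540) (.br (nat_lit 0x400500b01b000800a016036540) k380 (.br (nat_lit 0x400600b01c000800c016038540) k381 k382)) (.br (nat_lit 0x600000300b01cc000006016038411) (.br (nat_lit 0x200000500b01c400000a016038411) k383 k384) (.br (nat_lit 0x900000700b01b200000e016138411) k385 k386)))))
noncomputable def u18 : KT := (.br (Nat.shiftLeft (nat_lit 0x2c07) (nat_lit 66)) (.one (nat_lit 0xb01b0000000016036320)) (.one (nat_lit 0xb01c0000000016038320)))
def w18 : u18.all (wj 57 s18) = true := by decide +kernel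
def o18 : OkW 57 (jb2 57 fl) u18 := .lift s18 _ (.br _ _ _ (.br _ _ _ (.br _ _ _ (.br _ _ _ (.leaf b0 k361 t361) (.br _ _ _ (.leaf b0 k362 t362) (.leaf b0 k363 t363))) (.br _ _ _ (.leaf b0 k364 t364) (.br _ _ _ (.leaf b0 k365 t365) (.leaf b0 k366 t366)))) (.br _ _ _ (.br _ _ _ (.leaf b0 k367 t367) (.br _ _ _ (.leaf b0 k368 t368) (.leaf b0 k369 t369))) (.br _ _ _ (.br _ _ _ (.leaf b0 k370 t370) (.leaf b0 k371 t371)) (.br _ _ _ (.leaf b0 k372 t372) (.leaf b0 k373 t373))))) (.br _ _ _ (.br _ _ _ (.br _ _ _ (.leaf b0 k374 t374) (.br _ _ _ (.leaf b0 k375 t375) (.leaf b0 k376 t376))) (.br _ _ _ (.leaf b0 k377 t377) (.br _ _ _ (.leaf b0 k378 t378) (.leaf b0 k379 t379)))) (.br _ _ _ (.br _ _ _ (.leaf b0 k380 t380) (.br _ _ _ (.leaf b0 k381 t381) (.leaf b0 k382 t382))) (.br _ _ _ (.br _ _ _ (.leaf b0 k383 t383) (.leaf b0 k384 t384)) (.br _ _ _ (.leaf b0 k385 t385) (.leaf b0 k386 t386)))))) w18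
noncomputable def k : KT := (.br (nat_lit 0x901b0000000012036320) (.br (nat_lit 0x801a0000000010035300) (.br (nat_lit 0x701c000000000e038320) (.br (nat_lit 0x701b000000000e036320) u0 u1) (.br (nat_lit 0x701e000000000e03c320) u2 u3)) (.br (nat_lit 0x801c0000000010038320) (.br (nat_lit 0x801b0000000010036320) u4 u5) (.br (nat_lit 0x801e000000001003c320) u6 (.br (nat_lit 0x901a0000000012035300) u7 u8)))) (.br (nat_lit 0xa01b0000000014036320) (.br (nat_lit 0x901e000000001203c320) (.br (nat_lit 0x901c0000000012038320) u9 u10) (.br (nat_lit 0xa0190000000014033300) u11 (.br (nat_lit 0xa01a0000000014034320) u12 u13))) (.br (nat_lit 0xb0180000000016031300) (.br (nat_lit 0xa01d000000001403a320) u14 u15) (.br (nat_lit 0xb0190000000016032320) u16 (.br (nat_lit 0xb01a0000000016034320) u17 u18)))))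
theorem ok : OkW 57 (jb2 57 fl) k := (.br _ _ _ (.br _ _ _ (.br _ _ _ (.br _ _ _ o0 o1) (.br _ _ _ o2 o3)) (.br _ _ _ (.br _ _ _ o4 o5) (.br _ _ _ o6 (.br _ _ _ o7 o8)))) (.br _ _ _ (.br _ _ _ (.br _ _ _ o9 o10) (.br _ _ _ o11 (.br _ _ _ o12 o13))) (.br _ _ _ (.br _ _ _ o14 o15) (.br _ _ _ o16 (.br _ _ _ o17 o18)))))

end Pool.Agent.Lib.MP_ed43e6_ag.Q.Y57.R1
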