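import Pool.Agent.Lib.MP_ed43e6_ag.Y57.Fl

namespace Pool.Agent.Lib.MP_ed43e6_ag.Q.Y57.R10

set_option linter.defProp false

noncomputable def b0 : BT := .node (nat_lit 1) (nat_lit 0) .leaf .leaf
noncomputable def k0 : KT := (.br (Nat.shiftLeft (nat_lit 0x280700b) (nat_lit 65)) (.one (nat_lit 0x500e015000000a01c02b400)) (.br (Nat.shiftLeft (nat_lit 0x1) (nat_lit 100)) (.one (nat_lit 0x500e016000000a01c02d400)) (.one (nat_lit 0x100500e015000200a01c02a540))))
def t0 : k0.all (jb2 57 fl b0) = true := by decide +kernel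
noncomputable def k1 : KT := (.br (Nat.shiftLeft (nat_lit 0x1) (nat_lit 101)) (.one (nat_lit 0x100500e016000200a01c02c540)) (.one (nat_lit 0x200500e015000400a01c02b500)))
def t1 : k1.all (jb2 57 fl b0) = true := by decide +kernel
noncomputable def k2 : KT := (.br (Nat.shiftLeft (nat_lit 0x1) (nat_lit 102)) (.br (Nat.shiftLeft (nat_lit 0x3) (nat_lit 100)) (.one (nat_lit 0x200500e016000400a01c02c540)) (.br (Nat.shiftLeft (nat_lit 0x180280700b) (nat_lit 65)) (.one (nat_lit 0x300500e015000600a01c02b500)) (.one (nat_lit 0x300500e016000600a01c02d500)))) (.br (Nat.shiftLeft (nat_lit 0x1) (nat_lit 112)) (.br (Nat.shiftLeft (nat_lit 0x200280700b) (nat_lit 65)) (.one (nat_lit 0x400500e015000800a01c02b500)) (.one (nat_lit 0x400500e016000800a01c02d500))) (.br (Nat.shiftLeft (nat_lit 0x80000280700b) (nat_lit 65)) (.one (nat_lit 0x100000500e015200000a01c02a411)) (.one (nat_lit 0x100000500e016200000a01c02c411)))))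
def t2 : k2.all (jb2 57 fl b0) = true := by decide +kernel
noncomputable def k3 : KT := (.br (Nat.shiftLeft (nat_lit 0x1003) (nat_lit 100)) (.one (nat_lit 0x100200500e015200400a01c02a650)) (.one (nat_lit 0x100300500e015200600a01c02a650)))
def t3 : k3.all (jb2 57 fl b0) = true := by decide +kernel
noncomputable def k4 : KT := (.br (Nat.shiftLeft (nat_lit 0x80200280700b) (nat_lit 65)) (.br (Nat.shiftLeft (nat_lit 0x401) (nat_lit 102)) (.one (nat_lit 0x100300500e016200600a01c02c650)) (.one (nat_lit 0x100400500e015200800a01c02a650))) (.br (Nat.shiftLeft (nat_lit 0x1) (nat_lit 113)) (.one (nat_lit 0x100400500e016200800a01c02c650)) (.br (Nat.shiftLeft (nat_lit 0x100000280700b) (nat_lit 65)) (.one (nat_lit 0x200000500e015400000a01c02a411)) (.one (nat_lit 0x200000500e016400000a01c02c411)))))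
def t4 : k4.all (jb2 57 fl b0) = true := by decide +kernel
noncomputable def k5 : KT := (.br (Nat.shiftLeft (nat_lit 0x100180280700b) (nat_lit 65)) (.one (nat_lit 0x200300500e015400600a01c02a650)) (.one (nat_lit 0x200300500e016400600a01c02c650)))
def t5 : k5.all (jb2 57 fl b0) = true := by decide +kernel
noncomputable def k6 : KT := (.br (Nat.shiftLeft (nat_lit 0x3) (nat_lit 112)) (.br (Nat.shiftLeft (nat_lit 0x100200280700b) (nat_lit 65)) (.one (nat_lit 0x200400500e015400800a01c02a650)) (.one (nat_lit 0x200400500e016400800a01c02c650))) (.br (Nat.shiftLeft (nat_lit 0x180000280700b) (nat_lit 65)) (.one (nat_lit 0x300000500e015600000a01c02a411)) (.one (nat_lit 0x300000500e016600000a01c02c411))))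
def t6 : k6.all (jb2 57 fl b0) = true := by decide +kernel
noncomputable def k7 : KT := (.br (Nat.shiftLeft (nat_lit 0x280000280700b) (nat_lit 65)) (.br (Nat.shiftLeft (nat_lit 0x1) (nat_lit 114)) (.br (Nat.shiftLeft (nat_lit 0x180200280700b) (nat_lit 65)) (.one (nat_lit 0x300400500e015600800a01c02a650)) (.one (nat_lit 0x300400500e016600800a01c02c650))) (.br (Nat.shiftLeft (nat_lit 0x200000280700b) (nat_lit 65)) (.one (nat_lit 0x400000500e015800000a01c02a411)) (.br (Nat.shiftLeft (nat_lit 0x5) (nat_lit 112)) (.one (nat_lit 0x400000500e016800000a01c02c411)) (.one (nat_lit 0x500000500e015a00000a01c02a411))))) (.br (Nat.shiftLeft (nat_lit 0x7) (nat_lit 112)) (.br (Nat.shiftLeft (nat_lit 0x3) (nat_lit 113)) (.one (nat_lit 0x500000500e016a00000a01c02c411)) (.br (Nat.shiftLeft (nat_lit 0x300000280700b) (nat_lit 65)) (.one (nat_lit 0x600000500e015c00000a01c02a411)) (.one (nat_lit 0x600000500e016c00000a01c02c411)))) (.br (Nat.shiftLeft (nat_lit 0x380000280700b) (nat_lit 65)) (.one (nat_lit 0x700000500e015e00000a01c02a411))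 (.br (Nat.shiftLeft (nat_lit 0x1) (nat_lit 115)) (.one (nat_lit 0x700000500e016e00000a01c02c411)) (.one (nat_lit 0x800000500e015000000a01c12c411))))))
def t7 : k7.all (jb2 57 fl b0) = true := by decide +kernel
noncomputable def k8 : KT := (.br (Nat.shiftLeft (nat_lit 0x80000200280700b) (nat_lit 65)) (.br (Nat.shiftLeft (nat_lit 0x600000280700b) (nat_lit 65)) (.br (Nat.shiftLeft (nat_lit 0x500000280700b) (nat_lit 65)) (.br (Nat.shiftLeft (nat_lit 0x480000280700b) (nat_lit 65)) (.br (Nat.shiftLeft (nat_lit 0x9) (nat_lit 112)) (.one (nat_lit 0x800000500e016000000a01c12e411)) (.one (nat_lit 0x900000500e015200000a01c12c411))) (.br (Nat.shiftLeft (nat_lit 0x5) (nat_lit 113)) (.one (nat_lit 0x900000500e016200000a01c12e411)) (.one (nat_lit 0xa00000500e015400000a01c12c411)))) (.br (Nat.shiftLeft (nat_lit 0x580000280700b) (nat_lit 65)) (.br (Nat.shiftLeft (nat_lit 0xb) (nat_lit 112)) (.one (nat_lit 0xa00000500e016400000a01c12e411)) (.one (nat_lit 0xb00000500e015600000a01c12c411))) (.br (Nat.shiftLeft (nat_lit 0x3) (nat_lit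 114)) (.one (nat_lit 0xb00000500e016600000a01c12e411)) (.one (nat_lit 0xc00000500e015800000a01c12c411))))) (.br (Nat.shiftLeft (nat_lit 0x700000280700b) (nat_lit 65)) (.br (Nat.shiftLeft (nat_lit 0x680000280700b) (nat_lit 65)) (.br (Nat.shiftLeft (nat_lit 0xd) (nat_lit 112)) (.one (nat_lit 0xc00000500e016800000a01c12e411)) (.one (nat_lit 0xd00000500e015a00000a01c12c411))) (.br (Nat.shiftLeft (nat_lit 0x7) (nat_lit 113)) (.one (nat_lit 0xd00000500e016a00000a01c12e411)) (.one (nat_lit 0xe00000500e015c00000a01c12c411)))) (.br (Nat.shiftLeft (nat_lit 0x1000003) (nat_lit 100)) (.br (Nat.shiftLeft (nat_lit 0x1) (nat_lit 124)) (.one (nat_lit 0xe00000500e016c00000a01c12e411)) (.one (nat_lit 0x100000200500e015000400a03c42a511))) (.br (Nat.shiftLeft (nat_lit 0x80000180280700b) (nat_lit 65)) (.one (nat_lit 0x100000300500e015000600a03c42a511)) (.br (Nat.shiftLeft (nat_lit 0x400001) (nat_lit 102)) (.one (nat_lit 0x100000300500e016000600a03c42c511)) (.one (nat_lit 0x100000400500e015000800a03c42a511))))))) (.br (Nat.shiftLeft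 (nat_lit 0xc00001) (nat_lit 102)) (.br (Nat.shiftLeft (nat_lit 0x800001) (nat_lit 102)) (.br (Nat.shiftLeft (nat_lit 0x2000003) (nat_lit 100)) (.br (Nat.shiftLeft (nat_lit 0x1) (nat_lit 125)) (.one (nat_lit 0x100000400500e016000800a03c42c511)) (.one (nat_lit 0x200000200500e015000400a05c82a511))) (.br (Nat.shiftLeft (nat_lit 0x100000180280700b) (nat_lit 65)) (.one (nat_lit 0x200000300500e015000600a05c82a511)) (.one (nat_lit 0x200000300500e016000600a05c82c511)))) (.br (Nat.shiftLeft (nat_lit 0x3) (nat_lit 124)) (.br (Nat.shiftLeft (nat_lit 0x100000200280700b) (nat_lit 65)) (.one (nat_lit 0x200000400500e015000800a05c82a511)) (.one (nat_lit 0x200000400500e016000800a05c82c511))) (.br (Nat.shiftLeft (nat_lit 0x3000003) (nat_lit 100)) (.one (nat_lit 0x300000200500e015000400a07cc2a511)) (.br (Nat.shiftLeft (nat_lit 0x180000180280700b) (nat_lit 65)) (.one (nat_lit 0x300000300500e015000600a07cc2a511)) (.one (nat_lit 0x300000300500e016000600a07cc2c511)))))) (.br (Nat.shiftLeft (nat_lit 0x200000180280700b) (nat_lit 65))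 (.br (Nat.shiftLeft (nat_lit 0x1) (nat_lit 126)) (.br (Nat.shiftLeft (nat_lit 0x180000200280700b) (nat_lit 65)) (.one (nat_lit 0x300000400500e015000800a07cc2a511)) (.one (nat_lit 0x300000400500e016000800a07cc2c511))) (.br (Nat.shiftLeft (nat_lit 0x4000003) (nat_lit 100)) (.one (nat_lit 0x400000200500e015000400a09d02a511)) (.one (nat_lit 0x400000300500e015000600a09d02a511)))) (.br (Nat.shiftLeft (nat_lit 0x200000200280700b) (nat_lit 65)) (.br (Nat.shiftLeft (nat_lit 0x1000001) (nat_lit 102)) (.one (nat_lit 0x400000300500e016000600a09d02c511)) (.one (nat_lit 0x400000400500e015000800a09d02a511))) (.br (Nat.shiftLeft (nat_lit 0x5) (nat_lit 124)) (.one (nat_lit 0x400000400500e016000800a09d02c511)) (.br (Nat.shiftLeft (nat_lit 0x5000003) (nat_lit 100)) (.one (nat_lit 0x500000200500e015000400a0bd42a511)) (.one (nat_lit 0x500000300500e015000600a0bd42a511))))))))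
def t8 : k8.all (jb2 57 fl b0) = true := by decide +kernel
noncomputable def k9 : KT := (.br (Nat.shiftLeft (nat_lit 0x1800001) (nat_lit 102)) (.br (Nat.shiftLeft (nat_lit 0x3) (nat_lit 125)) (.br (Nat.shiftLeft (nat_lit 0x1400001) (nat_lit 102)) (.one (nat_lit 0x500000300500e016000600a0bd42c511)) (.br (Nat.shiftLeft (nat_lit 0x280000200280700b) (nat_lit 65)) (.one (nat_lit 0x500000400500e015000800a0bd42a511)) (.one (nat_lit 0x500000400500e016000800a0bd42c511)))) (.br (Nat.shiftLeft (nat_lit 0x6000003) (nat_lit 100)) (.one (nat_lit 0x600000200500e015000400a0dd82a511)) (.br (Nat.shiftLeft (nat_lit 0x300000180280700b) (nat_lit 65)) (.one (nat_lit 0x600000300500e015000600a0dd82a511)) (.one (nat_lit 0x600000300500e016000600a0dd82c511))))) (.br (Nat.shiftLeft (nat_lit 0x7000003) (nat_lit 100)) (.br (Nat.shiftLeft (nat_lit 0x300000200280700b) (nat_lit 65)) (.one (nat_lit 0x600000400500e015000800a0dd82a511)) (.br (Nat.shiftLeft (nat_lit 0x7) (nat_lit 124)) (.one (nat_lit 0x600000400500e016000800a0dd82c511)) (.one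 (nat_lit 0x700000200500e015000400a0fdc2a511)))) (.br (Nat.shiftLeft (nat_lit 0x1c00001) (nat_lit 102)) (.br (Nat.shiftLeft (nat_lit 0x380000180280700b) (nat_lit 65)) (.one (nat_lit 0x700000300500e015000600a0fdc2a511)) (.one (nat_lit 0x700000300500e016000600a0fdc2c511))) (.br (Nat.shiftLeft (nat_lit 0x380000200280700b) (nat_lit 65)) (.one (nat_lit 0x700000400500e015000800a0fdc2a511)) (.one (nat_lit 0x700000400500e016000800a0fdc2c511))))))
def t9 : k9.all (jb2 57 fl b0) = true := by decide +kernel
noncomputable def k10 : KT := (.br (Nat.shiftLeft (nat_lit 0xb) (nat_lit 124)) (.br (Nat.shiftLeft (nat_lit 0x480000180280700b) (nat_lit 65)) (.br (Nat.shiftLeft (nat_lit 0x2000001) (nat_lit 102)) (.br (Nat.shiftLeft (nat_lit 0x8000003) (nat_lit 100)) (.one (nat_lit 0x800000200500e015000400a11e02a511)) (.br (Nat.shiftLeft (nat_lit 0x400000180280700b) (nat_lit 65)) (.one (nat_lit 0x800000300500e015000600a11e02a511)) (.one (nat_lit 0x800000300500e016000600a11e02c511)))) (.br (Nat.shiftLeft (nat_lit 0x9) (nat_lit 124))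 (.br (Nat.shiftLeft (nat_lit 0x400000200280700b) (nat_lit 65)) (.one (nat_lit 0x800000400500e015000800a11e02a511)) (.one (nat_lit 0x800000400500e016000800a11e02c511))) (.br (Nat.shiftLeft (nat_lit 0x9000003) (nat_lit 100)) (.one (nat_lit 0x900000200500e015000400a13e42a511)) (.one (nat_lit 0x900000300500e015000600a13e42a511))))) (.br (Nat.shiftLeft (nat_lit 0xa000003) (nat_lit 100)) (.br (Nat.shiftLeft (nat_lit 0x480000200280700b) (nat_lit 65)) (.br (Nat.shiftLeft (nat_lit 0x2400001) (nat_lit 102)) (.one (nat_lit 0x900000300500e016000600a13e42c511)) (.one (nat_lit 0x900000400500e015000800a13e42a511))) (.br (Nat.shiftLeft (nat_lit 0x5) (nat_lit 125)) (.one (nat_lit 0x900000400500e016000800a13e42c511)) (.one (nat_lit 0xa00000200500e015000400a15e82a511)))) (.br (Nat.shiftLeft (nat_lit 0x2800001) (nat_lit 102)) (.br (Nat.shiftLeft (nat_lit 0x500000180280700b) (nat_lit 65)) (.one (nat_lit 0xa00000300500e015000600a15e82a511)) (.one (nat_lit 0xa00000300500e016000600a15e82c511))) (.br (Nat.shiftLeft (nat_lit 0x500000200280700b)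 (nat_lit 65)) (.one (nat_lit 0xa00000400500e015000800a15e82a511)) (.one (nat_lit 0xa00000400500e016000800a15e82c511)))))) (.br (Nat.shiftLeft (nat_lit 0x3000001) (nat_lit 102)) (.br (Nat.shiftLeft (nat_lit 0x580000200280700b) (nat_lit 65)) (.br (Nat.shiftLeft (nat_lit 0x580000180280700b) (nat_lit 65)) (.br (Nat.shiftLeft (nat_lit 0xb000003) (nat_lit 100)) (.one (nat_lit 0xb00000200500e015000400a17ec2a511)) (.one (nat_lit 0xb00000300500e015000600a17ec2a511))) (.br (Nat.shiftLeft (nat_lit 0x2c00001) (nat_lit 102)) (.one (nat_lit 0xb00000300500e016000600a17ec2c511)) (.one (nat_lit 0xb00000400500e015000800a17ec2a511)))) (.br (Nat.shiftLeft (nat_lit 0xc000003) (nat_lit 100)) (.br (Nat.shiftLeft (nat_lit 0x3) (nat_lit 126)) (.one (nat_lit 0xb00000400500e016000800a17ec2c511)) (.one (nat_lit 0xc00000200500e015000400a19f02a511))) (.br (Nat.shiftLeft (nat_lit 0x600000180280700b) (nat_lit 65)) (.one (nat_lit 0xc00000300500e015000600a19f02a511)) (.one (nat_lit 0xc00000300500e016000600a19f02c511))))) (.br (Nat.shiftLeft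 (nat_lit 0x680000180280700b) (nat_lit 65)) (.br (Nat.shiftLeft (nat_lit 0xd) (nat_lit 124)) (.br (Nat.shiftLeft (nat_lit 0x600000200280700b) (nat_lit 65)) (.one (nat_lit 0xc00000400500e015000800a19f02a511)) (.one (nat_lit 0xc00000400500e016000800a19f02c511))) (.br (Nat.shiftLeft (nat_lit 0xd000003) (nat_lit 100)) (.one (nat_lit 0xd00000200500e015000400a1bf42a511)) (.one (nat_lit 0xd00000300500e015000600a1bf42a511)))) (.br (Nat.shiftLeft (nat_lit 0x7) (nat_lit 125)) (.br (Nat.shiftLeft (nat_lit 0x3400001) (nat_lit 102)) (.one (nat_lit 0xd00000300500e016000600a1bf42c511)) (.one (nat_lit 0xd00000400500e015000800a1bf42a511))) (.br (Nat.shiftLeft (nat_lit 0xe000003) (nat_lit 100)) (.one (nat_lit 0xe00000200500e015000400a1df82a511)) (.one (nat_lit 0xe00000300500e015000600a1df82a511)))))))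
def t10 : k10.all (jb2 57 fl b0) = true := by decide +kernel
noncomputable def s0 : KT := (.br (nat_lit 0x200000500e016400000a01c02c411) (.br (nat_lit 0x200500e015000400a01c02b500) (.br (nat_lit 0x100500e015000200a01c02a540) k0 k1) (.br (nat_lit 0x100000500e016200000a01c02c411) k2 (.br (nat_lit 0x100300500e015200600a01c02a650) k3 k4))) (.br (nat_lit 0x800000500e015000000a01c12c411) (.br (nat_lit 0x200300500e016400600a01c02c650) k5 (.br (nat_lit 0x300000500e016600000a01c02c411) k6 k7)) (.br (nat_lit 0x500000300500e015000600a0bd42a511) k8 (.br (nat_lit 0x700000400500e016000800a0fdc2c511) k9 k10))))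
noncomputable def u0 : KT := (.br (Nat.shiftLeft (nat_lit 0x280700b) (nat_lit 65)) (.one (nat_lit 0x500e015000000a01c02a430)) (.one (nat_lit 0x500e016000000a01c02c430)))
def w0 : u0.all (wj 57 s0) = true := by decide +kernel
def o0 : OkW 57 (jb2 57 fl) u0 := .lift s0 _ (.br _ _ _ (.br _ _ _ (.br _ _ _ (.leaf b0 k0 t0) (.leaf b0 k1 t1)) (.br _ _ _ (.leaf b0 k2 t2) (.br _ _ _ (.leaf b0 k3 t3) (.leaf b0 k4 t4)))) (.br _ _ _ (.br _ _ _ (.leaf b0 k5 t5) (.br _ _ _ (.leaf b0 k6 t6) (.leaf b0 k7 t7))) (.br _ _ _ (.leaf b0 k8 t8) (.br _ _ _ (.leaf b0 k9 t9) (.leaf b0 k10 t10))))) w0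
noncomputable def k11 : KT := (.br (Nat.shiftLeft (nat_lit 0x5) (nat_lit 112)) (.br (Nat.shiftLeft (nat_lit 0x1003) (nat_lit 100)) (.br (Nat.shiftLeft (nat_lit 0x3) (nat_lit 100)) (.br (Nat.shiftLeft (nat_lit 0x1) (nat_lit 100)) (.one (nat_lit 0x500f010000000a01e021400)) (.br (Nat.shiftLeft (nat_lit 0x1) (nat_lit 101)) (.one (nat_lit 0x100500f010000200a01e021500)) (.one (nat_lit 0x200500f010000400a01e021500)))) (.br (Nat.shiftLeft (nat_lit 0x1) (nat_lit 112)) (.br (Nat.shiftLeft (nat_lit 0x1) (nat_lit 102)) (.one (nat_lit 0x300500f010000600a01e021500)) (.one (nat_lit 0x400500f010000800a01e021500))) (.br (Nat.shiftLeft (nat_lit 0x801) (nat_lit 101)) (.one (nat_lit 0x100000500f010200000a01e020411)) (.one (nat_lit 0x100200500f010200400a01e021600))))) (.br (Nat.shiftLeft (nat_lit 0x801) (nat_lit 102)) (.br (Nat.shiftLeft (nat_lit 0x1) (nat_lit 113)) (.br (Nat.shiftLeft (nat_lit 0x401) (nat_lit 102)) (.one (nat_lit 0x100300500f010200600a01e021600)) (.one (nat_lit 0x100400500f010200800a01e021600))) (.br (Nat.shiftLeft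 (nat_lit 0x1001) (nat_lit 101)) (.one (nat_lit 0x200000500f010400000a01e020411)) (.one (nat_lit 0x200300500f010400600a01e021600)))) (.br (Nat.shiftLeft (nat_lit 0xc01) (nat_lit 102)) (.br (Nat.shiftLeft (nat_lit 0x3) (nat_lit 112)) (.one (nat_lit 0x200400500f010400800a01e021600)) (.one (nat_lit 0x300000500f010600000a01e020411))) (.br (Nat.shiftLeft (nat_lit 0x1) (nat_lit 114)) (.one (nat_lit 0x300400500f010600800a01e021600)) (.one (nat_lit 0x400000500f010800000a01e020411)))))) (.br (Nat.shiftLeft (nat_lit 0x3) (nat_lit 114)) (.br (Nat.shiftLeft (nat_lit 0x1) (nat_lit 115)) (.br (Nat.shiftLeft (nat_lit 0x3) (nat_lit 113)) (.one (nat_lit 0x500000500f010a00000a01e020411)) (.br (Nat.shiftLeft (nat_lit 0x7) (nat_lit 112)) (.one (nat_lit 0x600000500f010c00000a01e020411)) (.one (nat_lit 0x700000500f010e00000a01e020411)))) (.br (Nat.shiftLeft (nat_lit 0x5) (nat_lit 113)) (.br (Nat.shiftLeft (nat_lit 0x9) (nat_lit 112)) (.one (nat_lit 0x800000500f010000000a01e122411)) (.one (nat_lit 0x900000500f010200000a01e122411)))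 (.br (Nat.shiftLeft (nat_lit 0xb) (nat_lit 112)) (.one (nat_lit 0xa00000500f010400000a01e122411)) (.one (nat_lit 0xb00000500f010600000a01e122411))))) (.br (Nat.shiftLeft (nat_lit 0x1) (nat_lit 124)) (.br (Nat.shiftLeft (nat_lit 0x7) (nat_lit 113)) (.br (Nat.shiftLeft (nat_lit 0xd) (nat_lit 112)) (.one (nat_lit 0xc00000500f010800000a01e122411)) (.one (nat_lit 0xd00000500f010a00000a01e122411))) (.br (Nat.shiftLeft (nat_lit 0xf) (nat_lit 112)) (.one (nat_lit 0xe00000500f010c00000a01e122411)) (.one (nat_lit 0xf00000500f010e00000a01e122411)))) (.br (Nat.shiftLeft (nat_lit 0x1000003) (nat_lit 100)) (.br (Nat.shiftLeft (nat_lit 0x800001) (nat_lit 101)) (.one (nat_lit 0x100000100500f010000200a03e420511)) (.one (nat_lit 0x100000200500f010000400a03e420511))) (.br (Nat.shiftLeft (nat_lit 0x400001) (nat_lit 102)) (.one (nat_lit 0x100000300500f010000600a03e420511)) (.one (nat_lit 0x100000400500f010000800a03e420511)))))))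
def t11 : k11.all (jb2 57 fl b0) = true := by decide +kernel
noncomputable def k12 : KT := (.one (nat_lit 0x100200300500f010400600a03e420760))
def t12 : k12.all (jb2 57 fl b0) = true := by decide +kernel
noncomputable def k13 : KT := (.one (nat_lit 0x100200400500f010400800a03e420760))
def t13 : k13.all (jb2 57 fl b0) = true := by decide +kernel
noncomputable def k14 : KT := (.br (Nat.shiftLeft (nat_lit 0x2000003) (nat_lit 100)) (.br (Nat.shiftLeft (nat_lit 0x1) (nat_lit 125)) (.one (nat_lit 0x100300400500f010600800a03e420760)) (.br (Nat.shiftLeft (nat_lit 0x1000001) (nat_lit 101)) (.one (nat_lit 0x200000100500f010000200a05e820511)) (.one (nat_lit 0x200000200500f010000400a05e820511)))) (.br (Nat.shiftLeft (nat_lit 0x800001) (nat_lit 102)) (.one (nat_lit 0x200000300500f010000600a05e820511)) (.br (Nat.shiftLeft (nat_lit 0x1001) (nat_lit 113)) (.one (nat_lit 0x200000400500f010000800a05e820511)) (.one (nat_lit 0x200300400500f010600800a05e820760)))))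
def t14 : k14.all (jb2 57 fl b0) = true := by decide +kernel
noncomputable def k15 : KT := (.br (Nat.shiftLeft (nat_lit 0x4000003) (nat_lit 100)) (.br (Nat.shiftLeft (nat_lit 0xc00001) (nat_lit 102)) (.br (Nat.shiftLeft (nat_lit 0x1800001) (nat_lit 101)) (.one (nat_lit 0x300000100500f010000200a07ec20511)) (.br (Nat.shiftLeft (nat_lit 0x3000003) (nat_lit 100)) (.one (nat_lit 0x300000200500f010000400a07ec20511)) (.one (nat_lit 0x300000300500f010000600a07ec20511)))) (.br (Nat.shiftLeft (nat_lit 0x1) (nat_lit 126)) (.one (nat_lit 0x300000400500f010000800a07ec20511)) (.br (Nat.shiftLeft (nat_lit 0x2000001) (nat_lit 101)) (.one (nat_lit 0x400000100500f010000200a09f020511)) (.one (nat_lit 0x400000200500f010000400a09f020511))))) (.br (Nat.shiftLeft (nat_lit 0x2800001) (nat_lit 101)) (.br (Nat.shiftLeft (nat_lit 0x1000001) (nat_lit 102)) (.one (nat_lit 0x400000300500f010000600a09f020511)) (.br (Nat.shiftLeft (nat_lit 0x5) (nat_lit 124)) (.one (nat_lit 0x400000400500f010000800a09f020511)) (.one (nat_lit 0x500000100500f010000200a0bf420511))))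 (.br (Nat.shiftLeft (nat_lit 0x1400001) (nat_lit 102)) (.br (Nat.shiftLeft (nat_lit 0x5000003) (nat_lit 100)) (.one (nat_lit 0x500000200500f010000400a0bf420511)) (.one (nat_lit 0x500000300500f010000600a0bf420511))) (.br (Nat.shiftLeft (nat_lit 0x3) (nat_lit 125)) (.one (nat_lit 0x500000400500f010000800a0bf420511)) (.one (nat_lit 0x600000100500f010000200a0df820511))))))
def t15 : k15.all (jb2 57 fl b0) = true := by decide +kernel
noncomputable def k16 : KT := (.br (Nat.shiftLeft (nat_lit 0x1800001) (nat_lit 102)) (.br (Nat.shiftLeft (nat_lit 0x6000003) (nat_lit 100)) (.one (nat_lit 0x600000200500f010000400a0df820511)) (.one (nat_lit 0x600000300500f010000600a0df820511))) (.br (Nat.shiftLeft (nat_lit 0x7) (nat_lit 124)) (.one (nat_lit 0x600000400500f010000800a0df820511)) (.br (Nat.shiftLeft (nat_lit 0x3800001) (nat_lit 101)) (.one (nat_lit 0x700000100500f010000200a0ffc20511)) (.one (nat_lit 0x700000200500f010000400a0ffc20511)))))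
def t16 : k16.all (jb2 57 fl b0) = true := by decide +kernel
noncomputable def k17 : KT := (.br (Nat.shiftLeft (nat_lit 0x4000001) (nat_lit 101)) (.br (Nat.shiftLeft (nat_lit 0x1c00001) (nat_lit 102)) (.one (nat_lit 0x700000300500f010000600a0ffc20511)) (.br (Nat.shiftLeft (nat_lit 0x1) (nat_lit 127)) (.one (nat_lit 0x700000400500f010000800a0ffc20511)) (.one (nat_lit 0x800000100500f010000200a120020511)))) (.br (Nat.shiftLeft (nat_lit 0x8000003) (nat_lit 100)) (.one (nat_lit 0x800000200500f010000400a120020511)) (.br (Nat.shiftLeft (nat_lit 0x2000001) (nat_lit 102)) (.one (nat_lit 0x800000300500f010000600a120020511)) (.one (nat_lit 0x800000400500f010000800a120020511)))))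
def t17 : k17.all (jb2 57 fl b0) = true := by decide +kernel
noncomputable def k18 : KT := (.br (Nat.shiftLeft (nat_lit 0x5) (nat_lit 125)) (.br (Nat.shiftLeft (nat_lit 0x9000003) (nat_lit 100)) (.br (Nat.shiftLeft (nat_lit 0x4800001) (nat_lit 101)) (.one (nat_lit 0x900000100500f010000200a140420511)) (.one (nat_lit 0x900000200500f010000400a140420511))) (.br (Nat.shiftLeft (nat_lit 0x2400001) (nat_lit 102)) (.one (nat_lit 0x900000300500f010000600a140420511)) (.one (nat_lit 0x900000400500f010000800a140420511)))) (.br (Nat.shiftLeft (nat_lit 0xa000003) (nat_lit 100)) (.br (Nat.shiftLeft (nat_lit 0x5000001) (nat_lit 101)) (.one (nat_lit 0xa00000100500f010000200a160820511)) (.one (nat_lit 0xa00000200500f010000400a160820511))) (.br (Nat.shiftLeft (nat_lit 0x2800001) (nat_lit 102)) (.one (nat_lit 0xa00000300500f010000600a160820511)) (.br (Nat.shiftLeft (nat_lit 0xb) (nat_lit 124)) (.one (nat_lit 0xa00000400500f010000800a160820511)) (.one (nat_lit 0xb00000100500f010000200a180c20511))))))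
def t18 : k18.all (jb2 57 fl b0) = true := by decide +kernel
noncomputable def k19 : KT := (.br (Nat.shiftLeft (nat_lit 0xf000003) (nat_lit 100)) (.br (Nat.shiftLeft (nat_lit 0x6800001) (nat_lit 101)) (.br (Nat.shiftLeft (nat_lit 0x6000001) (nat_lit 101)) (.br (Nat.shiftLeft (nat_lit 0x2c00001) (nat_lit 102)) (.br (Nat.shiftLeft (nat_lit 0xb000003) (nat_lit 100)) (.one (nat_lit 0xb00000200500f010000400a180c20511)) (.one (nat_lit 0xb00000300500f010000600a180c20511))) (.br (Nat.shiftLeft (nat_lit 0x3) (nat_lit 126)) (.one (nat_lit 0xb00000400500f010000800a180c20511)) (.one (nat_lit 0xc00000100500f010000200a1a1020511)))) (.br (Nat.shiftLeft (nat_lit 0x3000001) (nat_lit 102)) (.br (Nat.shiftLeft (nat_lit 0xc000003) (nat_lit 100)) (.one (nat_lit 0xc00000200500f010000400a1a1020511)) (.one (nat_lit 0xc00000300500f010000600a1a1020511))) (.br (Nat.shiftLeft (nat_lit 0xd) (nat_lit 124)) (.one (nat_lit 0xc00000400500f010000800a1a1020511)) (.one (nat_lit 0xd00000100500f010000200a1c1420511))))) (.br (Nat.shiftLeft (nat_lit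 0x7000001) (nat_lit 101)) (.br (Nat.shiftLeft (nat_lit 0x3400001) (nat_lit 102)) (.br (Nat.shiftLeft (nat_lit 0xd000003) (nat_lit 100)) (.one (nat_lit 0xd00000200500f010000400a1c1420511)) (.one (nat_lit 0xd00000300500f010000600a1c1420511))) (.br (Nat.shiftLeft (nat_lit 0x7) (nat_lit 125)) (.one (nat_lit 0xd00000400500f010000800a1c1420511)) (.one (nat_lit 0xe00000100500f010000200a1e1820511)))) (.br (Nat.shiftLeft (nat_lit 0x3800001) (nat_lit 102)) (.br (Nat.shiftLeft (nat_lit 0xe000003) (nat_lit 100)) (.one (nat_lit 0xe00000200500f010000400a1e1820511)) (.one (nat_lit 0xe00000300500f010000600a1e1820511))) (.br (Nat.shiftLeft (nat_lit 0xf) (nat_lit 124)) (.one (nat_lit 0xe00000400500f010000800a1e1820511)) (.br (Nat.shiftLeft (nat_lit 0x7800001) (nat_lit 101)) (.one (nat_lit 0xf00000100500f010000200a201c20511)) (.one (nat_lit 0xf00000200500f010000400a201c20511))))))) (.br (Nat.shiftLeft (nat_lit 0x2000001003) (nat_lit 100)) (.br (Nat.shiftLeft (nat_lit 0x400000401) (nat_lit 102)) (.br (Nat.shiftLeft (nat_lit 0x1)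 (nat_lit 136)) (.br (Nat.shiftLeft (nat_lit 0x3c00001) (nat_lit 102)) (.one (nat_lit 0xf00000300500f010000600a201c20511)) (.one (nat_lit 0xf00000400500f010000800a201c20511))) (.br (Nat.shiftLeft (nat_lit 0x1000001003) (nat_lit 100)) (.one (nat_lit 0x100000100200500f010200402a41e020611)) (.one (nat_lit 0x100000100300500f010200602a41e020611)))) (.br (Nat.shiftLeft (nat_lit 0x400000801) (nat_lit 102)) (.br (Nat.shiftLeft (nat_lit 0x800001) (nat_lit 113)) (.one (nat_lit 0x100000100400500f010200802a41e020611)) (.one (nat_lit 0x100000200300500f010400602a41e020611))) (.br (Nat.shiftLeft (nat_lit 0x1000003) (nat_lit 112)) (.one (nat_lit 0x100000200400500f010400802a41e020611)) (.br (Nat.shiftLeft (nat_lit 0x1) (nat_lit 137)) (.one (nat_lit 0x100000300400500f010600802a41e020611)) (.one (nat_lit 0x200000100200500f010200404a81e020611)))))) (.br (Nat.shiftLeft (nat_lit 0x2000003) (nat_lit 112)) (.br (Nat.shiftLeft (nat_lit 0x1000001) (nat_lit 113)) (.br (Nat.shiftLeft (nat_lit 0x800000401) (nat_lit 102)) (.one (nat_lit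 0x200000100300500f010200604a81e020611)) (.one (nat_lit 0x200000100400500f010200804a81e020611))) (.br (Nat.shiftLeft (nat_lit 0x800000801) (nat_lit 102)) (.one (nat_lit 0x200000200300500f010400604a81e020611)) (.one (nat_lit 0x200000200400500f010400804a81e020611)))) (.br (Nat.shiftLeft (nat_lit 0x3000001003) (nat_lit 100)) (.br (Nat.shiftLeft (nat_lit 0x3) (nat_lit 136)) (.one (nat_lit 0x200000300400500f010600804a81e020611)) (.one (nat_lit 0x300000100200500f010200406ac1e020611))) (.br (Nat.shiftLeft (nat_lit 0xc00000401) (nat_lit 102)) (.one (nat_lit 0x300000100300500f010200606ac1e020611)) (.br (Nat.shiftLeft (nat_lit 0x1800001) (nat_lit 113)) (.one (nat_lit 0x300000100400500f010200806ac1e020611)) (.one (nat_lit 0x300000200300500f010400606ac1e020611))))))))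
def t19 : k19.all (jb2 57 fl b0) = true := by decide +kernel
noncomputable def k20 : KT := (.br (Nat.shiftLeft (nat_lit 0x1000000401) (nat_lit 102)) (.br (Nat.shiftLeft (nat_lit 0x1) (nat_lit 138)) (.br (Nat.shiftLeft (nat_lit 0x3000003) (nat_lit 112)) (.one (nat_lit 0x300000200400500f010400806ac1e020611)) (.one (nat_lit 0x300000300400500f010600806ac1e020611))) (.br (Nat.shiftLeft (nat_lit 0x4000001003) (nat_lit 100)) (.one (nat_lit 0x400000100200500f010200408b01e020611)) (.one (nat_lit 0x400000100300500f010200608b01e020611)))) (.br (Nat.shiftLeft (nat_lit 0x1000000801) (nat_lit 102)) (.br (Nat.shiftLeft (nat_lit 0x2000001) (nat_lit 113)) (.one (nat_lit 0x400000100400500f010200808b01e020611)) (.one (nat_lit 0x400000200300500f010400608b01e020611))) (.br (Nat.shiftLeft (nat_lit 0x4000003) (nat_lit 112)) (.one (nat_lit 0x400000200400500f010400808b01e020611)) (.br (Nat.shiftLeft (nat_lit 0x5) (nat_lit 136)) (.one (nat_lit 0x400000300400500f010600808b01e020611)) (.one (nat_lit 0x500000100200500f01020040ab41e020611))))))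
def t20 : k20.all (jb2 57 fl b0) = true := by decide +kernel
noncomputable def k21 : KT := (.br (Nat.shiftLeft (nat_lit 0x2800001) (nat_lit 113)) (.br (Nat.shiftLeft (nat_lit 0x1400000401) (nat_lit 102)) (.one (nat_lit 0x500000100300500f01020060ab41e020611)) (.one (nat_lit 0x500000100400500f01020080ab41e020611))) (.br (Nat.shiftLeft (nat_lit 0x1400000801) (nat_lit 102)) (.one (nat_lit 0x500000200300500f01040060ab41e020611)) (.br (Nat.shiftLeft (nat_lit 0x5000003) (nat_lit 112)) (.one (nat_lit 0x500000200400500f01040080ab41e020611)) (.one (nat_lit 0x500000300400500f01060080ab41e020611)))))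
def t21 : k21.all (jb2 57 fl b0) = true := by decide +kernel
noncomputable def k22 : KT := (.br (Nat.shiftLeft (nat_lit 0x6000001003) (nat_lit 100)) (.one (nat_lit 0x600000100200500f01020040cb81e020611)) (.br (Nat.shiftLeft (nat_lit 0x1800000401) (nat_lit 102)) (.one (nat_lit 0x600000100300500f01020060cb81e020611)) (.one (nat_lit 0x600000100400500f01020080cb81e020611))))
def t22 : k22.all (jb2 57 fl b0) = true := by decide +kernel
noncomputable def k23 : KT := (.br (Nat.shiftLeft (nat_lit 0x6000003) (nat_lit 112)) (.br (Nat.shiftLeft (nat_lit 0x1800000801) (nat_lit 102)) (.one (nat_lit 0x600000200300500f01040060cb81e020611)) (.one (nat_lit 0x600000200400500f01040080cb81e020611))) (.br (Nat.shiftLeft (nat_lit 0x7) (nat_lit 136)) (.one (nat_lit 0x600000300400500f01060080cb81e020611)) (.br (Nat.shiftLeft (nat_lit 0x7000001003) (nat_lit 100)) (.one (nat_lit 0x700000100200500f01020040ebc1e020611)) (.one (nat_lit 0x700000100300500f01020060ebc1e020611)))))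
def t23 : k23.all (jb2 57 fl b0) = true := by decide +kernel
noncomputable def k24 : KT := (.br (Nat.shiftLeft (nat_lit 0x7000003) (nat_lit 112)) (.br (Nat.shiftLeft (nat_lit 0x3800001) (nat_lit 113)) (.one (nat_lit 0x700000100400500f01020080ebc1e020611)) (.br (Nat.shiftLeft (nat_lit 0x1c00000801) (nat_lit 102)) (.one (nat_lit 0x700000200300500f01040060ebc1e020611)) (.one (nat_lit 0x700000200400500f01040080ebc1e020611)))) (.br (Nat.shiftLeft (nat_lit 0x8000001003) (nat_lit 100)) (.br (Nat.shiftLeft (nat_lit 0x1) (nat_lit 139)) (.one (nat_lit 0x700000300400500f01060080ebc1e020611)) (.one (nat_lit 0x800000100200500f010200410c01e020611))) (.br (Nat.shiftLeft (nat_lit 0x2000000401) (nat_lit 102)) (.one (nat_lit 0x800000100300500f010200610c01e020611)) (.one (nat_lit 0x800000100400500f010200810c01e020611)))))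
def t24 : k24.all (jb2 57 fl b0) = true := by decide +kernel
noncomputable def k25 : KT := (.br (Nat.shiftLeft (nat_lit 0x2400000401) (nat_lit 102)) (.br (Nat.shiftLeft (nat_lit 0x8000003) (nat_lit 112)) (.br (Nat.shiftLeft (nat_lit 0x2000000801) (nat_lit 102)) (.one (nat_lit 0x800000200300500f010400610c01e020611)) (.one (nat_lit 0x800000200400500f010400810c01e020611))) (.br (Nat.shiftLeft (nat_lit 0x9) (nat_lit 136)) (.one (nat_lit 0x800000300400500f010600810c01e020611)) (.br (Nat.shiftLeft (nat_lit 0x9000001003) (nat_lit 100)) (.one (nat_lit 0x900000100200500f010200412c41e020611)) (.one (nat_lit 0x900000100300500f010200612c41e020611))))) (.br (Nat.shiftLeft (nat_lit 0x9000003) (nat_lit 112)) (.br (Nat.shiftLeft (nat_lit 0x4800001) (nat_lit 113)) (.one (nat_lit 0x900000100400500f010200812c41e020611)) (.br (Nat.shiftLeft (nat_lit 0x2400000801) (nat_lit 102)) (.one (nat_lit 0x900000200300500f010400612c41e020611)) (.one (nat_lit 0x900000200400500f010400812c41e020611)))) (.br (Nat.shiftLeft (nat_lit 0x5) (nat_lit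 137)) (.one (nat_lit 0x900000300400500f010600812c41e020611)) (.br (Nat.shiftLeft (nat_lit 0xa000001003) (nat_lit 100)) (.one (nat_lit 0xa00000100200500f010200414c81e020611)) (.one (nat_lit 0xa00000100300500f010200614c81e020611))))))
def t25 : k25.all (jb2 57 fl b0) = true := by decide +kernel
noncomputable def k26 : KT := (.br (Nat.shiftLeft (nat_lit 0xd) (nat_lit 136)) (.br (Nat.shiftLeft (nat_lit 0x2c00000801) (nat_lit 102)) (.br (Nat.shiftLeft (nat_lit 0xb) (nat_lit 136)) (.br (Nat.shiftLeft (nat_lit 0x2800000801) (nat_lit 102)) (.br (Nat.shiftLeft (nat_lit 0x5000001) (nat_lit 113)) (.one (nat_lit 0xa00000100400500f010200814c81e020611)) (.one (nat_lit 0xa00000200300500f010400614c81e020611))) (.br (Nat.shiftLeft (nat_lit 0xa000003) (nat_lit 112)) (.one (nat_lit 0xa00000200400500f010400814c81e020611)) (.one (nat_lit 0xa00000300400500f010600814c81e020611)))) (.br (Nat.shiftLeft (nat_lit 0x2c00000401) (nat_lit 102)) (.br (Nat.shiftLeft (nat_lit 0xb000001003) (nat_lit 100)) (.one (nat_lit 0xb00000100200500f010200416cc1e020611))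 (.one (nat_lit 0xb00000100300500f010200616cc1e020611))) (.br (Nat.shiftLeft (nat_lit 0x5800001) (nat_lit 113)) (.one (nat_lit 0xb00000100400500f010200816cc1e020611)) (.one (nat_lit 0xb00000200300500f010400616cc1e020611))))) (.br (Nat.shiftLeft (nat_lit 0x3000000401) (nat_lit 102)) (.br (Nat.shiftLeft (nat_lit 0x3) (nat_lit 138)) (.br (Nat.shiftLeft (nat_lit 0xb000003) (nat_lit 112)) (.one (nat_lit 0xb00000200400500f010400816cc1e020611)) (.one (nat_lit 0xb00000300400500f010600816cc1e020611))) (.br (Nat.shiftLeft (nat_lit 0xc000001003) (nat_lit 100)) (.one (nat_lit 0xc00000100200500f010200418d01e020611)) (.one (nat_lit 0xc00000100300500f010200618d01e020611)))) (.br (Nat.shiftLeft (nat_lit 0x3000000801) (nat_lit 102)) (.br (Nat.shiftLeft (nat_lit 0x6000001) (nat_lit 113)) (.one (nat_lit 0xc00000100400500f010200818d01e020611)) (.one (nat_lit 0xc00000200300500f010400618d01e020611))) (.br (Nat.shiftLeft (nat_lit 0xc000003) (nat_lit 112)) (.one (nat_lit 0xc00000200400500f010400818d01e020611)) (.one (nat_lit 0xc00000300400500f010600818d01e020611))))))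 (.br (Nat.shiftLeft (nat_lit 0x3800000401) (nat_lit 102)) (.br (Nat.shiftLeft (nat_lit 0x3400000801) (nat_lit 102)) (.br (Nat.shiftLeft (nat_lit 0x3400000401) (nat_lit 102)) (.br (Nat.shiftLeft (nat_lit 0xd000001003) (nat_lit 100)) (.one (nat_lit 0xd00000100200500f01020041ad41e020611)) (.one (nat_lit 0xd00000100300500f01020061ad41e020611))) (.br (Nat.shiftLeft (nat_lit 0x6800001) (nat_lit 113)) (.one (nat_lit 0xd00000100400500f01020081ad41e020611)) (.one (nat_lit 0xd00000200300500f01040061ad41e020611)))) (.br (Nat.shiftLeft (nat_lit 0x7) (nat_lit 137)) (.br (Nat.shiftLeft (nat_lit 0xd000003) (nat_lit 112)) (.one (nat_lit 0xd00000200400500f01040081ad41e020611)) (.one (nat_lit 0xd00000300400500f01060081ad41e020611))) (.br (Nat.shiftLeft (nat_lit 0xe000001003) (nat_lit 100)) (.one (nat_lit 0xe00000100200500f01020041cd81e020611)) (.one (nat_lit 0xe00000100300500f01020061cd81e020611))))) (.br (Nat.shiftLeft (nat_lit 0xf) (nat_lit 136)) (.br (Nat.shiftLeft (nat_lit 0x3800000801) (nat_lit 102)) (.br (Nat.shiftLeft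 (nat_lit 0x7000001) (nat_lit 113)) (.one (nat_lit 0xe00000100400500f01020081cd81e020611)) (.one (nat_lit 0xe00000200300500f01040061cd81e020611))) (.br (Nat.shiftLeft (nat_lit 0xe000003) (nat_lit 112)) (.one (nat_lit 0xe00000200400500f01040081cd81e020611)) (.one (nat_lit 0xe00000300400500f01060081cd81e020611)))) (.br (Nat.shiftLeft (nat_lit 0x3c00000401) (nat_lit 102)) (.br (Nat.shiftLeft (nat_lit 0xf000001003) (nat_lit 100)) (.one (nat_lit 0xf00000100200500f01020041edc1e020611)) (.one (nat_lit 0xf00000100300500f01020061edc1e020611))) (.br (Nat.shiftLeft (nat_lit 0x7800001) (nat_lit 113)) (.one (nat_lit 0xf00000100400500f01020081edc1e020611)) (.br (Nat.shiftLeft (nat_lit 0x3c00000801) (nat_lit 102)) (.one (nat_lit 0xf00000200300500f01040061edc1e020611)) (.one (nat_lit 0xf00000200400500f01040081edc1e020611))))))))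
def t26 : k26.all (jb2 57 fl b0) = true := by decide +kernel
noncomputable def s1 : KT := (.br (nat_lit 0xb00000100500f010000200a180c20511) (.br (nat_lit 0x200300400500f010600800a05e820760) (.br (nat_lit 0x100200300500f010400600a03e420760) (.br (nat_lit 0x100000400500f010000800a03e420511) k11 k12) (.br (nat_lit 0x100200400500f010400800a03e420760) k13 k14)) (.br (nat_lit 0x700000200500f010000400a0ffc20511) (.br (nat_lit 0x600000100500f010000200a0df820511) k15 k16) (.br (nat_lit 0x800000400500f010000800a120020511) k17 k18))) (.br (nat_lit 0x600000100400500f01020080cb81e020611) (.br (nat_lit 0x500000100200500f01020040ab41e020611) (.br (nat_lit 0x300000200300500f010400606ac1e020611) k19 k20) (.br (nat_lit 0x500000300400500f01060080ab41e020611) k21 k22)) (.br (nat_lit 0x800000100400500f010200810c01e020611) (.br (nat_lit 0x700000100300500f01020060ebc1e020611) k23 k24) (.br (nat_lit 0xa00000100300500f010200614c81e020611) k25 k26))))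
noncomputable def u1 : KT := (.one (nat_lit 0x500f010000000a01e020430))
def w1 : u1.all (wj 57 s1) = true := by decide +kernel
def o1 : OkW 57 (jb2 57 fl) u1 := .lift s1 _ (.br _ _ _ (.br _ _ _ (.br _ _ _ (.br _ _ _ (.leaf b0 k11 t11) (.leaf b0 k12 t12)) (.br _ _ _ (.leaf b0 k13 t13) (.leaf b0 k14 t14))) (.br _ _ _ (.br _ _ _ (.leaf b0 k15 t15) (.leaf b0 k16 t16)) (.br _ _ _ (.leaf b0 k17 t17) (.leaf b0 k18 t18)))) (.br _ _ _ (.br _ _ _ (.br _ _ _ (.leaf b0 k19 t19) (.leaf b0 k20 t20)) (.br _ _ _ (.leaf b0 k21 t21) (.leaf b0 k22 t22))) (.br _ _ _ (.br _ _ _ (.leaf b0 k23 t23) (.leaf b0 k24 t24)) (.br _ _ _ (.leaf b0 k25 t25) (.leaf b0 k26 t26))))) w1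
noncomputable def k27 : KT := (.br (Nat.shiftLeft (nat_lit 0x2807809) (nat_lit 65)) (.one (nat_lit 0x500f011000000a01e023400)) (.br (Nat.shiftLeft (nat_lit 0x1) (nat_lit 100)) (.one (nat_lit 0x500f012000000a01e025400)) (.one (nat_lit 0x100500f011000200a01e022540))))
def t27 : k27.all (jb2 57 fl b0) = true := by decide +kernel
noncomputable def k28 : KT := (.br (Nat.shiftLeft (nat_lit 0x1) (nat_lit 102)) (.br (Nat.shiftLeft (nat_lit 0x1002807809) (nat_lit 65)) (.br (Nat.shiftLeft (nat_lit 0x1) (nat_lit 101)) (.one (nat_lit 0x100500f012000200a01e024540)) (.one (nat_lit 0x200500f011000400a01e023500))) (.br (Nat.shiftLeft (nat_lit 0x3) (nat_lit 100)) (.one (nat_lit 0x200500f012000400a01e025500)) (.br (Nat.shiftLeft (nat_lit 0x1802807809) (nat_lit 65)) (.one (nat_lit 0x300500f011000600a01e023500)) (.one (nat_lit 0x300500f012000600a01e025500))))) (.br (Nat.shiftLeft (nat_lit 0x1) (nat_lit 112)) (.br (Nat.shiftLeft (nat_lit 0x2002807809) (nat_lit 65)) (.one (nat_lit 0x400500f011000800a01e023500)) (.one (nat_lit 0x400500f012000800a01e025500)))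 (.br (Nat.shiftLeft (nat_lit 0x800002807809) (nat_lit 65)) (.one (nat_lit 0x100000500f011200000a01e022411)) (.br (Nat.shiftLeft (nat_lit 0x801) (nat_lit 101)) (.one (nat_lit 0x100000500f012200000a01e024411)) (.one (nat_lit 0x100200500f011200400a01e023600))))))
def t28 : k28.all (jb2 57 fl b0) = true := by decide +kernel
noncomputable def k29 : KT := (.br (Nat.shiftLeft (nat_lit 0x1003) (nat_lit 100)) (.one (nat_lit 0x100200500f012200400a01e024650)) (.one (nat_lit 0x100300500f011200600a01e023600)))
def t29 : k29.all (jb2 57 fl b0) = true := by decide +kernel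
noncomputable def k30 : KT := (.one (nat_lit 0x100300500f012200600a01e024650))
def t30 : k30.all (jb2 57 fl b0) = true := by decide +kernel
noncomputable def k31 : KT := (.one (nat_lit 0x100400500f011200800a01e022650))
def t31 : k31.all (jb2 57 fl b0) = true := by decide +kernel
noncomputable def k32 : KT := (.br (Nat.shiftLeft (nat_lit 0x1001) (nat_lit 101)) (.br (Nat.shiftLeft (nat_lit 0x1) (nat_lit 113)) (.one (nat_lit 0x100400500f012200800a01e024650)) (.br (Nat.shiftLeft (nat_lit 0x1000002807809) (nat_lit 65)) (.one (nat_lit 0x200000500f011400000a01e022411)) (.one (nat_lit 0x200000500f012400000a01e024411)))) (.br (Nat.shiftLeft (nat_lit 0x1001802807809) (nat_lit 65)) (.one (nat_lit 0x200300500f011400600a01e023600)) (.br (Nat.shiftLeft (nat_lit 0x801) (nat_lit 102)) (.one (nat_lit 0x200300500f012400600a01e025600)) (.one (nat_lit 0x200400500f011400800a01e023600)))))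
def t32 : k32.all (jb2 57 fl b0) = true := by decide +kernel
noncomputable def k33 : KT := (.br (Nat.shiftLeft (nat_lit 0x1800002807809) (nat_lit 65)) (.br (Nat.shiftLeft (nat_lit 0x3) (nat_lit 112)) (.one (nat_lit 0x200400500f012400800a01e024650)) (.one (nat_lit 0x300000500f011600000a01e022411))) (.br (Nat.shiftLeft (nat_lit 0xc01) (nat_lit 102)) (.one (nat_lit 0x300000500f012600000a01e024411)) (.one (nat_lit 0x300400500f011600800a01e023600))))
def t33 : k33.all (jb2 57 fl b0) = true := by decide +kernel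
noncomputable def k34 : KT := (.br (Nat.shiftLeft (nat_lit 0x5) (nat_lit 112)) (.br (Nat.shiftLeft (nat_lit 0x1) (nat_lit 114)) (.one (nat_lit 0x300400500f012600800a01e024650)) (.br (Nat.shiftLeft (nat_lit 0x2000002807809) (nat_lit 65)) (.one (nat_lit 0x400000500f011800000a01e022411)) (.one (nat_lit 0x400000500f012800000a01e024411)))) (.br (Nat.shiftLeft (nat_lit 0x3) (nat_lit 113)) (.br (Nat.shiftLeft (nat_lit 0x2800002807809) (nat_lit 65)) (.one (nat_lit 0x500000500f011a00000a01e022411)) (.one (nat_lit 0x500000500f012a00000a01e024411))) (.br (Nat.shiftLeft (nat_lit 0x3000002807809) (nat_lit 65)) (.one (nat_lit 0x600000500f011c00000a01e022411)) (.one (nat_lit 0x600000500f012c00000a01e024411)))))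
def t34 : k34.all (jb2 57 fl b0) = true := by decide +kernel
noncomputable def k35 : KT := (.br (Nat.shiftLeft (nat_lit 0xd) (nat_lit 112)) (.br (Nat.shiftLeft (nat_lit 0x5) (nat_lit 113)) (.br (Nat.shiftLeft (nat_lit 0x4000002807809) (nat_lit 65)) (.br (Nat.shiftLeft (nat_lit 0x3800002807809) (nat_lit 65)) (.one (nat_lit 0x700000500f011e00000a01e022411)) (.br (Nat.shiftLeft (nat_lit 0x1) (nat_lit 115)) (.one (nat_lit 0x700000500f012e00000a01e024411)) (.one (nat_lit 0x800000500f011000000a01e124411)))) (.br (Nat.shiftLeft (nat_lit 0x9) (nat_lit 112)) (.one (nat_lit 0x800000500f012000000a01e126411)) (.br (Nat.shiftLeft (nat_lit 0x4800002807809) (nat_lit 65)) (.one (nat_lit 0x900000500f011200000a01e124411)) (.one (nat_lit 0x900000500f012200000a01e126411))))) (.br (Nat.shiftLeft (nat_lit 0x5800002807809) (nat_lit 65)) (.br (Nat.shiftLeft (nat_lit 0x5000002807809) (nat_lit 65)) (.one (nat_lit 0xa00000500f011400000a01e124411)) (.br (Nat.shiftLeft (nat_lit 0xb) (nat_lit 112)) (.one (nat_lit 0xa00000500f012400000a01e126411))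 (.one (nat_lit 0xb00000500f011600000a01e124411)))) (.br (Nat.shiftLeft (nat_lit 0x3) (nat_lit 114)) (.one (nat_lit 0xb00000500f012600000a01e126411)) (.br (Nat.shiftLeft (nat_lit 0x6000002807809) (nat_lit 65)) (.one (nat_lit 0xc00000500f011800000a01e124411)) (.one (nat_lit 0xc00000500f012800000a01e126411)))))) (.br (Nat.shiftLeft (nat_lit 0x1) (nat_lit 124)) (.br (Nat.shiftLeft (nat_lit 0x7000002807809) (nat_lit 65)) (.br (Nat.shiftLeft (nat_lit 0x6800002807809) (nat_lit 65)) (.one (nat_lit 0xd00000500f011a00000a01e124411)) (.br (Nat.shiftLeft (nat_lit 0x7) (nat_lit 113)) (.one (nat_lit 0xd00000500f012a00000a01e126411)) (.one (nat_lit 0xe00000500f011c00000a01e124411)))) (.br (Nat.shiftLeft (nat_lit 0xf) (nat_lit 112)) (.one (nat_lit 0xe00000500f012c00000a01e126411)) (.br (Nat.shiftLeft (nat_lit 0x7800002807809) (nat_lit 65)) (.one (nat_lit 0xf00000500f011e00000a01e124411)) (.one (nat_lit 0xf00000500f012e00000a01e126411))))) (.br (Nat.shiftLeft (nat_lit 0x800001802807809) (nat_lit 65)) (.br (Nat.shiftLeft (nat_lit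 0x800001002807809) (nat_lit 65)) (.one (nat_lit 0x100000200500f011000400a03e422511)) (.br (Nat.shiftLeft (nat_lit 0x1000003) (nat_lit 100)) (.one (nat_lit 0x100000200500f012000400a03e424511)) (.one (nat_lit 0x100000300500f011000600a03e422511)))) (.br (Nat.shiftLeft (nat_lit 0x400001) (nat_lit 102)) (.one (nat_lit 0x100000300500f012000600a03e424511)) (.br (Nat.shiftLeft (nat_lit 0x800002002807809) (nat_lit 65)) (.one (nat_lit 0x100000400500f011000800a03e422511)) (.one (nat_lit 0x100000400500f012000800a03e424511)))))))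
def t35 : k35.all (jb2 57 fl b0) = true := by decide +kernel
noncomputable def k36 : KT := (.one (nat_lit 0x100200300500f011400600a03e422760))
def t36 : k36.all (jb2 57 fl b0) = true := by decide +kernel
noncomputable def k37 : KT := (.br (Nat.shiftLeft (nat_lit 0x400801) (nat_lit 102)) (.one (nat_lit 0x100200300500f012400600a03e424760)) (.one (nat_lit 0x100200400500f011400800a03e422760)))
def t37 : k37.all (jb2 57 fl b0) = true := by decide +kernel
noncomputable def k38 : KT := (.br (Nat.shiftLeft (nat_lit 0x3) (nat_lit 124)) (.br (Nat.shiftLeft (nat_lit 0x1000001802807809) (nat_lit 65)) (.br (Nat.shiftLeft (nat_lit 0x1000001002807809) (nat_lit 65)) (.br (Nat.shiftLeft (nat_lit 0x1) (nat_lit 125)) (.one (nat_lit 0x100300400500f011600800a03e422760)) (.one (nat_lit 0x200000200500f011000400a05e822511))) (.br (Nat.shiftLeft (nat_lit 0x2000003) (nat_lit 100)) (.one (nat_lit 0x200000200500f012000400a05e824511)) (.one (nat_lit 0x200000300500f011000600a05e822511)))) (.br (Nat.shiftLeft (nat_lit 0x1000002002807809)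 (nat_lit 65)) (.br (Nat.shiftLeft (nat_lit 0x800001) (nat_lit 102)) (.one (nat_lit 0x200000300500f012000600a05e824511)) (.one (nat_lit 0x200000400500f011000800a05e822511))) (.br (Nat.shiftLeft (nat_lit 0x1001) (nat_lit 113)) (.one (nat_lit 0x200000400500f012000800a05e824511)) (.one (nat_lit 0x200300400500f011600800a05e822760))))) (.br (Nat.shiftLeft (nat_lit 0xc00001) (nat_lit 102)) (.br (Nat.shiftLeft (nat_lit 0x3000003) (nat_lit 100)) (.br (Nat.shiftLeft (nat_lit 0x1800001002807809) (nat_lit 65)) (.one (nat_lit 0x300000200500f011000400a07ec22511)) (.one (nat_lit 0x300000200500f012000400a07ec24511))) (.br (Nat.shiftLeft (nat_lit 0x1800001802807809) (nat_lit 65)) (.one (nat_lit 0x300000300500f011000600a07ec22511)) (.one (nat_lit 0x300000300500f012000600a07ec24511)))) (.br (Nat.shiftLeft (nat_lit 0x1) (nat_lit 126)) (.br (Nat.shiftLeft (nat_lit 0x1800002002807809) (nat_lit 65)) (.one (nat_lit 0x300000400500f011000800a07ec22511)) (.one (nat_lit 0x300000400500f012000800a07ec24511))) (.br (Nat.shiftLeft (nat_lit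 0x2000001002807809) (nat_lit 65)) (.one (nat_lit 0x400000200500f011000400a09f022511)) (.one (nat_lit 0x400000200500f012000400a09f024511))))))
def t38 : k38.all (jb2 57 fl b0) = true := by decide +kernel
noncomputable def k39 : KT := (.br (Nat.shiftLeft (nat_lit 0x5) (nat_lit 124)) (.br (Nat.shiftLeft (nat_lit 0x1000001) (nat_lit 102)) (.br (Nat.shiftLeft (nat_lit 0x2000001802807809) (nat_lit 65)) (.one (nat_lit 0x400000300500f011000600a09f022511)) (.one (nat_lit 0x400000300500f012000600a09f024511))) (.br (Nat.shiftLeft (nat_lit 0x2000002002807809) (nat_lit 65)) (.one (nat_lit 0x400000400500f011000800a09f022511)) (.one (nat_lit 0x400000400500f012000800a09f024511)))) (.br (Nat.shiftLeft (nat_lit 0x5000003) (nat_lit 100)) (.br (Nat.shiftLeft (nat_lit 0x2800001002807809) (nat_lit 65)) (.one (nat_lit 0x500000200500f011000400a0bf422511)) (.one (nat_lit 0x500000200500f012000400a0bf424511))) (.br (Nat.shiftLeft (nat_lit 0x2800001802807809) (nat_lit 65)) (.one (nat_lit 0x500000300500f011000600a0bf422511)) (.br (Nat.shiftLeft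 (nat_lit 0x1400001) (nat_lit 102)) (.one (nat_lit 0x500000300500f012000600a0bf424511)) (.one (nat_lit 0x500000400500f011000800a0bf422511))))))
def t39 : k39.all (jb2 57 fl b0) = true := by decide +kernel
noncomputable def k40 : KT := (.br (Nat.shiftLeft (nat_lit 0x3000001002807809) (nat_lit 65)) (.br (Nat.shiftLeft (nat_lit 0x3) (nat_lit 125)) (.one (nat_lit 0x500000400500f012000800a0bf424511)) (.one (nat_lit 0x600000200500f011000400a0df822511))) (.br (Nat.shiftLeft (nat_lit 0x6000003) (nat_lit 100)) (.one (nat_lit 0x600000200500f012000400a0df824511)) (.br (Nat.shiftLeft (nat_lit 0x3000001802807809) (nat_lit 65)) (.one (nat_lit 0x600000300500f011000600a0df822511)) (.one (nat_lit 0x600000300500f012000600a0df824511)))))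
def t40 : k40.all (jb2 57 fl b0) = true := by decide +kernel
noncomputable def k41 : KT := (.br (Nat.shiftLeft (nat_lit 0x3800001002807809) (nat_lit 65)) (.br (Nat.shiftLeft (nat_lit 0x3000002002807809) (nat_lit 65)) (.one (nat_lit 0x600000400500f011000800a0df822511)) (.br (Nat.shiftLeft (nat_lit 0x7) (nat_lit 124)) (.one (nat_lit 0x600000400500f012000800a0df824511)) (.one (nat_lit 0x700000200500f011000400a0ffc22511)))) (.br (Nat.shiftLeft (nat_lit 0x7000003) (nat_lit 100)) (.one (nat_lit 0x700000200500f012000400a0ffc24511)) (.br (Nat.shiftLeft (nat_lit 0x3800001802807809) (nat_lit 65)) (.one (nat_lit 0x700000300500f011000600a0ffc22511)) (.one (nat_lit 0x700000300500f012000600a0ffc24511)))))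
def t41 : k41.all (jb2 57 fl b0) = true := by decide +kernel
noncomputable def k42 : KT := (.br (Nat.shiftLeft (nat_lit 0x8000003) (nat_lit 100)) (.br (Nat.shiftLeft (nat_lit 0x1) (nat_lit 127)) (.br (Nat.shiftLeft (nat_lit 0x3800002002807809) (nat_lit 65)) (.one (nat_lit 0x700000400500f011000800a0ffc22511)) (.one (nat_lit 0x700000400500f012000800a0ffc24511))) (.br (Nat.shiftLeft (nat_lit 0x4000001002807809) (nat_lit 65)) (.one (nat_lit 0x800000200500f011000400a120022511)) (.one (nat_lit 0x800000200500f012000400a120024511)))) (.br (Nat.shiftLeft (nat_lit 0x2000001) (nat_lit 102)) (.br (Nat.shiftLeft (nat_lit 0x4000001802807809) (nat_lit 65)) (.one (nat_lit 0x800000300500f011000600a120022511)) (.one (nat_lit 0x800000300500f012000600a120024511))) (.br (Nat.shiftLeft (nat_lit 0x4000002002807809) (nat_lit 65)) (.one (nat_lit 0x800000400500f011000800a120022511)) (.one (nat_lit 0x800000400500f012000800a120024511)))))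
def t42 : k42.all (jb2 57 fl b0) = true := by decide +kernel
noncomputable def k43 : KT := (.br (Nat.shiftLeft (nat_lit 0x5) (nat_lit 125)) (.br (Nat.shiftLeft (nat_lit 0x4800001802807809) (nat_lit 65)) (.br (Nat.shiftLeft (nat_lit 0x4800001002807809) (nat_lit 65)) (.one (nat_lit 0x900000200500f011000400a140422511)) (.br (Nat.shiftLeft (nat_lit 0x9000003) (nat_lit 100)) (.one (nat_lit 0x900000200500f012000400a140424511)) (.one (nat_lit 0x900000300500f011000600a140422511)))) (.br (Nat.shiftLeft (nat_lit 0x2400001) (nat_lit 102)) (.one (nat_lit 0x900000300500f012000600a140424511)) (.br (Nat.shiftLeft (nat_lit 0x4800002002807809) (nat_lit 65)) (.one (nat_lit 0x900000400500f011000800a140422511)) (.one (nat_lit 0x900000400500f012000800a140424511))))) (.br (Nat.shiftLeft (nat_lit 0x5000001802807809) (nat_lit 65)) (.br (Nat.shiftLeft (nat_lit 0x5000001002807809) (nat_lit 65)) (.one (nat_lit 0xa00000200500f011000400a160822511)) (.br (Nat.shiftLeft (nat_lit 0xa000003) (nat_lit 100)) (.one (nat_lit 0xa00000200500f012000400a160824511))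 (.one (nat_lit 0xa00000300500f011000600a160822511)))) (.br (Nat.shiftLeft (nat_lit 0x2800001) (nat_lit 102)) (.one (nat_lit 0xa00000300500f012000600a160824511)) (.br (Nat.shiftLeft (nat_lit 0x5000002002807809) (nat_lit 65)) (.one (nat_lit 0xa00000400500f011000800a160822511)) (.one (nat_lit 0xa00000400500f012000800a160824511))))))
def t43 : k43.all (jb2 57 fl b0) = true := by decide +kernel
noncomputable def k44 : KT := (.br (Nat.shiftLeft (nat_lit 0xe000003) (nat_lit 100)) (.br (Nat.shiftLeft (nat_lit 0x3000001) (nat_lit 102)) (.br (Nat.shiftLeft (nat_lit 0x5800002002807809) (nat_lit 65)) (.br (Nat.shiftLeft (nat_lit 0xb000003) (nat_lit 100)) (.br (Nat.shiftLeft (nat_lit 0x5800001002807809) (nat_lit 65)) (.one (nat_lit 0xb00000200500f011000400a180c22511)) (.one (nat_lit 0xb00000200500f012000400a180c24511))) (.br (Nat.shiftLeft (nat_lit 0x5800001802807809) (nat_lit 65)) (.one (nat_lit 0xb00000300500f011000600a180c22511)) (.br (Nat.shiftLeft (nat_lit 0x2c00001) (nat_lit 102)) (.one (nat_lit 0xb00000300500f012000600a180c24511))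 (.one (nat_lit 0xb00000400500f011000800a180c22511))))) (.br (Nat.shiftLeft (nat_lit 0x6000001002807809) (nat_lit 65)) (.br (Nat.shiftLeft (nat_lit 0x3) (nat_lit 126)) (.one (nat_lit 0xb00000400500f012000800a180c24511)) (.one (nat_lit 0xc00000200500f011000400a1a1022511))) (.br (Nat.shiftLeft (nat_lit 0xc000003) (nat_lit 100)) (.one (nat_lit 0xc00000200500f012000400a1a1024511)) (.br (Nat.shiftLeft (nat_lit 0x6000001802807809) (nat_lit 65)) (.one (nat_lit 0xc00000300500f011000600a1a1022511)) (.one (nat_lit 0xc00000300500f012000600a1a1024511)))))) (.br (Nat.shiftLeft (nat_lit 0x6800001802807809) (nat_lit 65)) (.br (Nat.shiftLeft (nat_lit 0xd) (nat_lit 124)) (.br (Nat.shiftLeft (nat_lit 0x6000002002807809) (nat_lit 65)) (.one (nat_lit 0xc00000400500f011000800a1a1022511)) (.one (nat_lit 0xc00000400500f012000800a1a1024511))) (.br (Nat.shiftLeft (nat_lit 0x6800001002807809) (nat_lit 65)) (.one (nat_lit 0xd00000200500f011000400a1c1422511)) (.br (Nat.shiftLeft (nat_lit 0xd000003) (nat_lit 100)) (.one (nat_lit 0xd00000200500f012000400a1c1424511))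 (.one (nat_lit 0xd00000300500f011000600a1c1422511))))) (.br (Nat.shiftLeft (nat_lit 0x6800002002807809) (nat_lit 65)) (.br (Nat.shiftLeft (nat_lit 0x3400001) (nat_lit 102)) (.one (nat_lit 0xd00000300500f012000600a1c1424511)) (.one (nat_lit 0xd00000400500f011000800a1c1422511))) (.br (Nat.shiftLeft (nat_lit 0x7) (nat_lit 125)) (.one (nat_lit 0xd00000400500f012000800a1c1424511)) (.br (Nat.shiftLeft (nat_lit 0x7000001002807809) (nat_lit 65)) (.one (nat_lit 0xe00000200500f011000400a1e1822511)) (.one (nat_lit 0xe00000200500f012000400a1e1824511))))))) (.br (Nat.shiftLeft (nat_lit 0x1) (nat_lit 136)) (.br (Nat.shiftLeft (nat_lit 0x7800001002807809) (nat_lit 65)) (.br (Nat.shiftLeft (nat_lit 0x3800001) (nat_lit 102)) (.br (Nat.shiftLeft (nat_lit 0x7000001802807809) (nat_lit 65)) (.one (nat_lit 0xe00000300500f011000600a1e1822511)) (.one (nat_lit 0xe00000300500f012000600a1e1824511))) (.br (Nat.shiftLeft (nat_lit 0x7000002002807809) (nat_lit 65)) (.one (nat_lit 0xe00000400500f011000800a1e1822511)) (.br (Nat.shiftLeft (nat_lit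 0xf) (nat_lit 124)) (.one (nat_lit 0xe00000400500f012000800a1e1824511)) (.one (nat_lit 0xf00000200500f011000400a201c22511))))) (.br (Nat.shiftLeft (nat_lit 0x7800001802807809) (nat_lit 65)) (.br (Nat.shiftLeft (nat_lit 0xf000003) (nat_lit 100)) (.one (nat_lit 0xf00000200500f012000400a201c24511)) (.one (nat_lit 0xf00000300500f011000600a201c22511))) (.br (Nat.shiftLeft (nat_lit 0x3c00001) (nat_lit 102)) (.one (nat_lit 0xf00000300500f012000600a201c24511)) (.br (Nat.shiftLeft (nat_lit 0x7800002002807809) (nat_lit 65)) (.one (nat_lit 0xf00000400500f011000800a201c22511)) (.one (nat_lit 0xf00000400500f012000800a201c24511)))))) (.br (Nat.shiftLeft (nat_lit 0x1000003) (nat_lit 112)) (.br (Nat.shiftLeft (nat_lit 0x800001) (nat_lit 113)) (.br (Nat.shiftLeft (nat_lit 0x1000001003) (nat_lit 100)) (.one (nat_lit 0x100000100200500f011200402a41e022611)) (.one (nat_lit 0x100000100300500f011200602a41e022611))) (.br (Nat.shiftLeft (nat_lit 0x800001001802807809) (nat_lit 65)) (.one (nat_lit 0x100000200300500f011400602a41e022611))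 (.br (Nat.shiftLeft (nat_lit 0x400000801) (nat_lit 102)) (.one (nat_lit 0x100000200300500f012400602a41e024611)) (.one (nat_lit 0x100000200400500f011400802a41e022611))))) (.br (Nat.shiftLeft (nat_lit 0x2000001003) (nat_lit 100)) (.br (Nat.shiftLeft (nat_lit 0x1) (nat_lit 137)) (.one (nat_lit 0x100000300400500f011600802a41e022611)) (.one (nat_lit 0x200000100200500f011200404a81e022611))) (.br (Nat.shiftLeft (nat_lit 0x1000001) (nat_lit 113)) (.one (nat_lit 0x200000100300500f011200604a81e022611)) (.br (Nat.shiftLeft (nat_lit 0x1000001001802807809) (nat_lit 65)) (.one (nat_lit 0x200000200300500f011400604a81e022611)) (.one (nat_lit 0x200000200300500f012400604a81e024611))))))))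
def t44 : k44.all (jb2 57 fl b0) = true := by decide +kernel
noncomputable def k45 : KT := (.br (Nat.shiftLeft (nat_lit 0x3000003) (nat_lit 112)) (.br (Nat.shiftLeft (nat_lit 0x3000001003) (nat_lit 100)) (.br (Nat.shiftLeft (nat_lit 0x2000003) (nat_lit 112)) (.one (nat_lit 0x200000200400500f011400804a81e022611)) (.br (Nat.shiftLeft (nat_lit 0x3) (nat_lit 136)) (.one (nat_lit 0x200000300400500f011600804a81e022611)) (.one (nat_lit 0x300000100200500f011200406ac1e022611)))) (.br (Nat.shiftLeft (nat_lit 0x1800001001802807809) (nat_lit 65)) (.br (Nat.shiftLeft (nat_lit 0x1800001) (nat_lit 113)) (.one (nat_lit 0x300000100300500f011200606ac1e022611)) (.one (nat_lit 0x300000200300500f011400606ac1e022611))) (.br (Nat.shiftLeft (nat_lit 0xc00000801) (nat_lit 102)) (.one (nat_lit 0x300000200300500f012400606ac1e024611)) (.one (nat_lit 0x300000200400500f011400806ac1e022611))))) (.br (Nat.shiftLeft (nat_lit 0x2000001001802807809) (nat_lit 65)) (.br (Nat.shiftLeft (nat_lit 0x4000001003) (nat_lit 100)) (.br (Nat.shiftLeft (nat_lit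 0x1) (nat_lit 138)) (.one (nat_lit 0x300000300400500f011600806ac1e022611)) (.one (nat_lit 0x400000100200500f011200408b01e022611))) (.br (Nat.shiftLeft (nat_lit 0x2000001) (nat_lit 113)) (.one (nat_lit 0x400000100300500f011200608b01e022611)) (.one (nat_lit 0x400000200300500f011400608b01e022611)))) (.br (Nat.shiftLeft (nat_lit 0x4000003) (nat_lit 112)) (.br (Nat.shiftLeft (nat_lit 0x1000000801) (nat_lit 102)) (.one (nat_lit 0x400000200300500f012400608b01e024611)) (.one (nat_lit 0x400000200400500f011400808b01e022611))) (.br (Nat.shiftLeft (nat_lit 0x5) (nat_lit 136)) (.one (nat_lit 0x400000300400500f011600808b01e022611)) (.one (nat_lit 0x500000100200500f01120040ab41e022611))))))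
def t45 : k45.all (jb2 57 fl b0) = true := by decide +kernel
noncomputable def k46 : KT := (.br (Nat.shiftLeft (nat_lit 0x1400000801) (nat_lit 102)) (.br (Nat.shiftLeft (nat_lit 0x2800001) (nat_lit 113)) (.one (nat_lit 0x500000100300500f01120060ab41e022611)) (.br (Nat.shiftLeft (nat_lit 0x2800001001802807809) (nat_lit 65)) (.one (nat_lit 0x500000200300500f01140060ab41e022611)) (.one (nat_lit 0x500000200300500f01240060ab41e024611)))) (.br (Nat.shiftLeft (nat_lit 0x5000003) (nat_lit 112)) (.one (nat_lit 0x500000200400500f01140080ab41e022611)) (.br (Nat.shiftLeft (nat_lit 0x3) (nat_lit 137)) (.one (nat_lit 0x500000300400500f01160080ab41e022611)) (.one (nat_lit 0x600000100200500f01120040cb81e022611)))))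
def t46 : k46.all (jb2 57 fl b0) = true := by decide +kernel
noncomputable def k47 : KT := (.br (Nat.shiftLeft (nat_lit 0x1800000801) (nat_lit 102)) (.br (Nat.shiftLeft (nat_lit 0x3000001) (nat_lit 113)) (.one (nat_lit 0x600000100300500f01120060cb81e022611)) (.br (Nat.shiftLeft (nat_lit 0x3000001001802807809) (nat_lit 65)) (.one (nat_lit 0x600000200300500f01140060cb81e022611)) (.one (nat_lit 0x600000200300500f01240060cb81e024611)))) (.br (Nat.shiftLeft (nat_lit 0x6000003) (nat_lit 112)) (.one (nat_lit 0x600000200400500f01140080cb81e022611)) (.br (Nat.shiftLeft (nat_lit 0x7) (nat_lit 136)) (.one (nat_lit 0x600000300400500f01160080cb81e022611)) (.one (nat_lit 0x700000100200500f01120040ebc1e022611)))))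
def t47 : k47.all (jb2 57 fl b0) = true := by decide +kernel
noncomputable def k48 : KT := (.br (Nat.shiftLeft (nat_lit 0x7000003) (nat_lit 112)) (.br (Nat.shiftLeft (nat_lit 0x3800001001802807809) (nat_lit 65)) (.br (Nat.shiftLeft (nat_lit 0x3800001) (nat_lit 113)) (.one (nat_lit 0x700000100300500f01120060ebc1e022611)) (.one (nat_lit 0x700000200300500f01140060ebc1e022611))) (.br (Nat.shiftLeft (nat_lit 0x1c00000801) (nat_lit 102)) (.one (nat_lit 0x700000200300500f01240060ebc1e024611)) (.one (nat_lit 0x700000200400500f01140080ebc1e022611)))) (.br (Nat.shiftLeft (nat_lit 0x8000001003) (nat_lit 100)) (.br (Nat.shiftLeft (nat_lit 0x1) (nat_lit 139)) (.one (nat_lit 0x700000300400500f01160080ebc1e022611)) (.one (nat_lit 0x800000100200500f011200410c01e022611))) (.br (Nat.shiftLeft (nat_lit 0x4000001) (nat_lit 113)) (.one (nat_lit 0x800000100300500f011200610c01e022611)) (.br (Nat.shiftLeft (nat_lit 0x4000001001802807809) (nat_lit 65)) (.one (nat_lit 0x800000200300500f011400610c01e022611)) (.one (nat_lit 0x800000200300500f012400610c01e024611))))))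
def t48 : k48.all (jb2 57 fl b0) = true := by decide +kernel
noncomputable def k49 : KT := (.br (Nat.shiftLeft (nat_lit 0x5800001001802807809) (nat_lit 65)) (.br (Nat.shiftLeft (nat_lit 0x5) (nat_lit 137)) (.br (Nat.shiftLeft (nat_lit 0x4800001) (nat_lit 113)) (.br (Nat.shiftLeft (nat_lit 0x9) (nat_lit 136)) (.br (Nat.shiftLeft (nat_lit 0x8000003) (nat_lit 112)) (.one (nat_lit 0x800000200400500f011400810c01e022611)) (.one (nat_lit 0x800000300400500f011600810c01e022611))) (.br (Nat.shiftLeft (nat_lit 0x9000001003) (nat_lit 100)) (.one (nat_lit 0x900000100200500f011200412c41e022611)) (.one (nat_lit 0x900000100300500f011200612c41e022611)))) (.br (Nat.shiftLeft (nat_lit 0x2400000801) (nat_lit 102)) (.br (Nat.shiftLeft (nat_lit 0x4800001001802807809) (nat_lit 65)) (.one (nat_lit 0x900000200300500f011400612c41e022611)) (.one (nat_lit 0x900000200300500f012400612c41e024611))) (.br (Nat.shiftLeft (nat_lit 0x9000003) (nat_lit 112)) (.one (nat_lit 0x900000200400500f011400812c41e022611)) (.one (nat_lit 0x900000300400500f011600812c41e022611)))))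 (.br (Nat.shiftLeft (nat_lit 0x2800000801) (nat_lit 102)) (.br (Nat.shiftLeft (nat_lit 0x5000001) (nat_lit 113)) (.br (Nat.shiftLeft (nat_lit 0xa000001003) (nat_lit 100)) (.one (nat_lit 0xa00000100200500f011200414c81e022611)) (.one (nat_lit 0xa00000100300500f011200614c81e022611))) (.br (Nat.shiftLeft (nat_lit 0x5000001001802807809) (nat_lit 65)) (.one (nat_lit 0xa00000200300500f011400614c81e022611)) (.one (nat_lit 0xa00000200300500f012400614c81e024611)))) (.br (Nat.shiftLeft (nat_lit 0xb) (nat_lit 136)) (.br (Nat.shiftLeft (nat_lit 0xa000003) (nat_lit 112)) (.one (nat_lit 0xa00000200400500f011400814c81e022611)) (.one (nat_lit 0xa00000300400500f011600814c81e022611))) (.br (Nat.shiftLeft (nat_lit 0xb000001003) (nat_lit 100)) (.one (nat_lit 0xb00000100200500f011200416cc1e022611)) (.br (Nat.shiftLeft (nat_lit 0x5800001) (nat_lit 113)) (.one (nat_lit 0xb00000100300500f011200616cc1e022611)) (.one (nat_lit 0xb00000200300500f011400616cc1e022611))))))) (.br (Nat.shiftLeft (nat_lit 0xc000003) (nat_lit 112)) (.br (Nat.shiftLeft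 (nat_lit 0xc000001003) (nat_lit 100)) (.br (Nat.shiftLeft (nat_lit 0xb000003) (nat_lit 112)) (.br (Nat.shiftLeft (nat_lit 0x2c00000801) (nat_lit 102)) (.one (nat_lit 0xb00000200300500f012400616cc1e024611)) (.one (nat_lit 0xb00000200400500f011400816cc1e022611))) (.br (Nat.shiftLeft (nat_lit 0x3) (nat_lit 138)) (.one (nat_lit 0xb00000300400500f011600816cc1e022611)) (.one (nat_lit 0xc00000100200500f011200418d01e022611)))) (.br (Nat.shiftLeft (nat_lit 0x6000001001802807809) (nat_lit 65)) (.br (Nat.shiftLeft (nat_lit 0x6000001) (nat_lit 113)) (.one (nat_lit 0xc00000100300500f011200618d01e022611)) (.one (nat_lit 0xc00000200300500f011400618d01e022611))) (.br (Nat.shiftLeft (nat_lit 0x3000000801) (nat_lit 102)) (.one (nat_lit 0xc00000200300500f012400618d01e024611)) (.one (nat_lit 0xc00000200400500f011400818d01e022611))))) (.br (Nat.shiftLeft (nat_lit 0x6800001001802807809) (nat_lit 65)) (.br (Nat.shiftLeft (nat_lit 0xd000001003) (nat_lit 100)) (.br (Nat.shiftLeft (nat_lit 0xd) (nat_lit 136)) (.one (nat_lit 0xc00000300400500f011600818d01e022611))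 (.one (nat_lit 0xd00000100200500f01120041ad41e022611))) (.br (Nat.shiftLeft (nat_lit 0x6800001) (nat_lit 113)) (.one (nat_lit 0xd00000100300500f01120061ad41e022611)) (.one (nat_lit 0xd00000200300500f01140061ad41e022611)))) (.br (Nat.shiftLeft (nat_lit 0xd000003) (nat_lit 112)) (.br (Nat.shiftLeft (nat_lit 0x3400000801) (nat_lit 102)) (.one (nat_lit 0xd00000200300500f01240061ad41e024611)) (.one (nat_lit 0xd00000200400500f01140081ad41e022611))) (.br (Nat.shiftLeft (nat_lit 0x7) (nat_lit 137)) (.one (nat_lit 0xd00000300400500f01160081ad41e022611)) (.br (Nat.shiftLeft (nat_lit 0xe000001003) (nat_lit 100)) (.one (nat_lit 0xe00000100200500f01120041cd81e022611)) (.one (nat_lit 0xe00000100300500f01120061cd81e022611))))))))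
def t49 : k49.all (jb2 57 fl b0) = true := by decide +kernel
noncomputable def k50 : KT := (.br (Nat.shiftLeft (nat_lit 0xf) (nat_lit 136)) (.br (Nat.shiftLeft (nat_lit 0x7000001001802807809) (nat_lit 65)) (.one (nat_lit 0xe00000200300500f01140061cd81e022611)) (.br (Nat.shiftLeft (nat_lit 0x3800000801) (nat_lit 102)) (.one (nat_lit 0xe00000200300500f01240061cd81e024611)) (.one (nat_lit 0xe00000200400500f01140081cd81e022611)))) (.br (Nat.shiftLeft (nat_lit 0xf000001003) (nat_lit 100)) (.one (nat_lit 0xf00000100200500f01120041edc1e022611)) (.br (Nat.shiftLeft (nat_lit 0x7800001) (nat_lit 113)) (.one (nat_lit 0xf00000100300500f01120061edc1e022611)) (.one (nat_lit 0xf00000200300500f01140061edc1e022611)))))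
def t50 : k50.all (jb2 57 fl b0) = true := by decide +kernel
noncomputable def s2 : KT := (.br (nat_lit 0x400000200500f012000400a09f024511) (.br (nat_lit 0x200400500f011400800a01e023600) (.br (nat_lit 0x100300500f011200600a01e023600) (.br (nat_lit 0x100500f011000200a01e022540) k27 (.br (nat_lit 0x100200500f011200400a01e023600) k28 k29)) (.br (nat_lit 0x100300500f012200600a01e024650) k30 (.br (nat_lit 0x100400500f011200800a01e022650) k31 k32))) (.br (nat_lit 0x100000400500f012000800a03e424511) (.br (nat_lit 0x300400500f011600800a01e023600) k33 (.br (nat_lit 0x600000500f012c00000a01e024411) k34 k35)) (.br (nat_lit 0x100200300500f011400600a03e422760) k36 (.br (nat_lit 0x100200400500f011400800a03e422760) k37 k38)))) (.br (nat_lit 0x200000200300500f012400604a81e024611) (.br (nat_lit 0x700000300500f012000600a0ffc24511) (.br (nat_lit 0x500000400500f011000800a0bf422511) k39 (.br (nat_lit 0x600000300500f012000600a0df824511) k40 k41)) (.br (nat_lit 0x800000400500f012000800a120024511) k42 (.br (nat_lit 0xa00000400500f012000800a160824511)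 k43 k44))) (.br (nat_lit 0x700000100200500f01120040ebc1e022611) (.br (nat_lit 0x500000100200500f01120040ab41e022611) k45 (.br (nat_lit 0x600000100200500f01120040cb81e022611) k46 k47)) (.br (nat_lit 0x800000200300500f012400610c01e024611) k48 (.br (nat_lit 0xe00000100300500f01120061cd81e022611) k49 k50)))))
noncomputable def u2 : KT := (.br (Nat.shiftLeft (nat_lit 0x2807809) (nat_lit 65)) (.one (nat_lit 0x500f011000000a01e022430)) (.one (nat_lit 0x500f012000000a01e024430)))
def w2 : u2.all (wj 57 s2) = true := by decide +kernel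
def o2 : OkW 57 (jb2 57 fl) u2 := .lift s2 _ (.br _ _ _ (.br _ _ _ (.br _ _ _ (.br _ _ _ (.leaf b0 k27 t27) (.br _ _ _ (.leaf b0 k28 t28) (.leaf b0 k29 t29))) (.br _ _ _ (.leaf b0 k30 t30) (.br _ _ _ (.leaf b0 k31 t31) (.leaf b0 k32 t32)))) (.br _ _ _ (.br _ _ _ (.leaf b0 k33 t33) (.br _ _ _ (.leaf b0 k34 t34) (.leaf b0 k35 t35))) (.br _ _ _ (.leaf b0 k36 t36) (.br _ _ _ (.leaf b0 k37 t37) (.leaf b0 k38 t38))))) (.br _ _ _ (.br _ _ _ (.br _ _ _ (.leaf b0 k39 t39) (.br _ _ _ (.leaf b0 k40 t40) (.leaf b0 k41 t41))) (.br _ _ _ (.leaf b0 k42 t42) (.br _ _ _ (.leaf b0 k43 t43) (.leaf b0 k44 t44)))) (.br _ _ _ (.br _ _ _ (.leaf b0 k45 t45) (.br _ _ _ (.leaf b0 k46 t46) (.leaf b0 k47 t47))) (.br _ _ _ (.leaf b0 k48 t48) (.br _ _ _ (.leaf b0 k49 t49) (.leaf b0 k50 t50)))))) w2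
noncomputable def k51 : KT := (.br (Nat.shiftLeft (nat_lit 0x500f015) (nat_lit 64)) (.br (Nat.shiftLeft (nat_lit 0x1403c05) (nat_lit 66)) (.one (nat_lit 0x500f013000000a01e027400)) (.one (nat_lit 0x500f014000000a01e029400))) (.br (Nat.shiftLeft (nat_lit 0x1) (nat_lit 100)) (.one (nat_lit 0x500f015000000a01e02b400)) (.one (nat_lit 0x100500f013000200a01e026540))))
def t51 : k51.all (jb2 57 fl b0) = true := by decide +kernel
noncomputable def k52 : KT := (.one (nat_lit 0x100500f014000200a01e028540))
def t52 : k52.all (jb2 57 fl b0) = true := by decide +kernel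
noncomputable def k53 : KT := (.br (Nat.shiftLeft (nat_lit 0x1) (nat_lit 101)) (.one (nat_lit 0x100500f015000200a01e02a540)) (.br (Nat.shiftLeft (nat_lit 0x801403c05) (nat_lit 66)) (.one (nat_lit 0x200500f013000400a01e027500)) (.one (nat_lit 0x200500f014000400a01e029500))))
def t53 : k53.all (jb2 57 fl b0) = true := by decide +kernel
noncomputable def k54 : KT := (.br (Nat.shiftLeft (nat_lit 0x1001403c05) (nat_lit 66)) (.br (Nat.shiftLeft (nat_lit 0xc01403c05) (nat_lit 66)) (.br (Nat.shiftLeft (nat_lit 0x3) (nat_lit 100)) (.one (nat_lit 0x200500f015000400a01e02a540)) (.one (nat_lit 0x300500f013000600a01e027500))) (.br (Nat.shiftLeft (nat_lit 0x300500f015) (nat_lit 64)) (.one (nat_lit 0x300500f014000600a01e029500)) (.br (Nat.shiftLeft (nat_lit 0x1) (nat_lit 102)) (.one (nat_lit 0x300500f015000600a01e02b500)) (.one (nat_lit 0x400500f013000800a01e027500))))) (.br (Nat.shiftLeft (nat_lit 0x1) (nat_lit 112)) (.br (Nat.shiftLeft (nat_lit 0x400500f015) (nat_lit 64)) (.one (nat_lit 0x400500f014000800a01e029500)) (.one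 (nat_lit 0x400500f015000800a01e02b500))) (.br (Nat.shiftLeft (nat_lit 0x400001403c05) (nat_lit 66)) (.one (nat_lit 0x100000500f013200000a01e026411)) (.br (Nat.shiftLeft (nat_lit 0x100000500f015) (nat_lit 64)) (.one (nat_lit 0x100000500f014200000a01e028411)) (.one (nat_lit 0x100000500f015200000a01e02a411))))))
def t54 : k54.all (jb2 57 fl b0) = true := by decide +kernel
noncomputable def k55 : KT := (.one (nat_lit 0x100200500f013200400a01e026650))
def t55 : k55.all (jb2 57 fl b0) = true := by decide +kernel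
noncomputable def k56 : KT := (.one (nat_lit 0x100200500f014200400a01e028650))
def t56 : k56.all (jb2 57 fl b0) = true := by decide +kernel
noncomputable def k57 : KT := (.one (nat_lit 0x100300500f013200600a01e026650))
def t57 : k57.all (jb2 57 fl b0) = true := by decide +kernel
noncomputable def k58 : KT := (.br (Nat.shiftLeft (nat_lit 0x100300500f015) (nat_lit 64)) (.one (nat_lit 0x100300500f014200600a01e028650)) (.one (nat_lit 0x100300500f015200600a01e02a650)))
def t58 : k58.all (jb2 57 fl b0) = true := by decide +kernel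
noncomputable def k59 : KT := (.br (Nat.shiftLeft (nat_lit 0x1) (nat_lit 113)) (.br (Nat.shiftLeft (nat_lit 0x401001403c05) (nat_lit 66)) (.one (nat_lit 0x100400500f013200800a01e026650)) (.br (Nat.shiftLeft (nat_lit 0x100400500f015) (nat_lit 64)) (.one (nat_lit 0x100400500f014200800a01e028650)) (.one (nat_lit 0x100400500f015200800a01e02a650)))) (.br (Nat.shiftLeft (nat_lit 0x800001403c05) (nat_lit 66)) (.one (nat_lit 0x200000500f013400000a01e026411)) (.br (Nat.shiftLeft (nat_lit 0x200000500f015) (nat_lit 64)) (.one (nat_lit 0x200000500f014400000a01e028411)) (.one (nat_lit 0x200000500f015400000a01e02a411)))))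
def t59 : k59.all (jb2 57 fl b0) = true := by decide +kernel
noncomputable def k60 : KT := (.one (nat_lit 0x200300500f013400600a01e026650))
def t60 : k60.all (jb2 57 fl b0) = true := by decide +kernel
noncomputable def k61 : KT := (.br (Nat.shiftLeft (nat_lit 0x200300500f015) (nat_lit 64)) (.one (nat_lit 0x200300500f014400600a01e028650)) (.one (nat_lit 0x200300500f015400600a01e02a650)))
def t61 : k61.all (jb2 57 fl b0) = true := by decide +kernel
noncomputable def k62 : KT := (.br (Nat.shiftLeft (nat_lit 0x801001403c05) (nat_lit 66)) (.one (nat_lit 0x200400500f013400800a01e026650)) (.one (nat_lit 0x200400500f014400800a01e028650)))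
def t62 : k62.all (jb2 57 fl b0) = true := by decide +kernel
noncomputable def k63 : KT := (.br (Nat.shiftLeft (nat_lit 0xc00001403c05) (nat_lit 66)) (.br (Nat.shiftLeft (nat_lit 0x3) (nat_lit 112)) (.one (nat_lit 0x200400500f015400800a01e02a650)) (.one (nat_lit 0x300000500f013600000a01e026411))) (.br (Nat.shiftLeft (nat_lit 0x300000500f015) (nat_lit 64)) (.one (nat_lit 0x300000500f014600000a01e028411)) (.br (Nat.shiftLeft (nat_lit 0xc01) (nat_lit 102)) (.one (nat_lit 0x300000500f015600000a01e02a411)) (.one (nat_lit 0x300400500f013600800a01e026650)))))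
def t63 : k63.all (jb2 57 fl b0) = true := by decide +kernel
noncomputable def k64 : KT := (.br (Nat.shiftLeft (nat_lit 0x1400001403c05) (nat_lit 66)) (.br (Nat.shiftLeft (nat_lit 0x1000001403c05) (nat_lit 66)) (.br (Nat.shiftLeft (nat_lit 0x300400500f015) (nat_lit 64)) (.one (nat_lit 0x300400500f014600800a01e028650)) (.br (Nat.shiftLeft (nat_lit 0x1) (nat_lit 114)) (.one (nat_lit 0x300400500f015600800a01e02a650)) (.one (nat_lit 0x400000500f013800000a01e026411)))) (.br (Nat.shiftLeft (nat_lit 0x400000500f015) (nat_lit 64)) (.one (nat_lit 0x400000500f014800000a01e028411)) (.br (Nat.shiftLeft (nat_lit 0x5) (nat_lit 112)) (.one (nat_lit 0x400000500f015800000a01e02a411)) (.one (nat_lit 0x500000500f013a00000a01e026411))))) (.br (Nat.shiftLeft (nat_lit 0x1800001403c05) (nat_lit 66)) (.br (Nat.shiftLeft (nat_lit 0x500000500f015) (nat_lit 64)) (.one (nat_lit 0x500000500f014a00000a01e028411)) (.br (Nat.shiftLeft (nat_lit 0x3) (nat_lit 113)) (.one (nat_lit 0x500000500f015a00000a01e02a411)) (.one (nat_lit 0x600000500f013c00000a01e026411))))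 (.br (Nat.shiftLeft (nat_lit 0x600000500f015) (nat_lit 64)) (.one (nat_lit 0x600000500f014c00000a01e028411)) (.br (Nat.shiftLeft (nat_lit 0x7) (nat_lit 112)) (.one (nat_lit 0x600000500f015c00000a01e02a411)) (.one (nat_lit 0x700000500f013e00000a01e026411))))))
def t64 : k64.all (jb2 57 fl b0) = true := by decide +kernel
noncomputable def k65 : KT := (.br (Nat.shiftLeft (nat_lit 0x7) (nat_lit 113)) (.br (Nat.shiftLeft (nat_lit 0xa00000500f015) (nat_lit 64)) (.br (Nat.shiftLeft (nat_lit 0x9) (nat_lit 112)) (.br (Nat.shiftLeft (nat_lit 0x1) (nat_lit 115)) (.br (Nat.shiftLeft (nat_lit 0x700000500f015) (nat_lit 64)) (.one (nat_lit 0x700000500f014e00000a01e028411)) (.one (nat_lit 0x700000500f015e00000a01e02a411))) (.br (Nat.shiftLeft (nat_lit 0x2000001403c05) (nat_lit 66)) (.one (nat_lit 0x800000500f013000000a01e128411)) (.br (Nat.shiftLeft (nat_lit 0x800000500f015) (nat_lit 64)) (.one (nat_lit 0x800000500f014000000a01e12a411)) (.one (nat_lit 0x800000500f015000000a01e12c411))))) (.br (Nat.shiftLeft (nat_lit 0x900000500f015)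 (nat_lit 64)) (.br (Nat.shiftLeft (nat_lit 0x2400001403c05) (nat_lit 66)) (.one (nat_lit 0x900000500f013200000a01e128411)) (.one (nat_lit 0x900000500f014200000a01e12a411))) (.br (Nat.shiftLeft (nat_lit 0x5) (nat_lit 113)) (.one (nat_lit 0x900000500f015200000a01e12c411)) (.br (Nat.shiftLeft (nat_lit 0x2800001403c05) (nat_lit 66)) (.one (nat_lit 0xa00000500f013400000a01e128411)) (.one (nat_lit 0xa00000500f014400000a01e12a411)))))) (.br (Nat.shiftLeft (nat_lit 0x3000001403c05) (nat_lit 66)) (.br (Nat.shiftLeft (nat_lit 0x2c00001403c05) (nat_lit 66)) (.br (Nat.shiftLeft (nat_lit 0xb) (nat_lit 112)) (.one (nat_lit 0xa00000500f015400000a01e12c411)) (.one (nat_lit 0xb00000500f013600000a01e128411))) (.br (Nat.shiftLeft (nat_lit 0xb00000500f015) (nat_lit 64)) (.one (nat_lit 0xb00000500f014600000a01e12a411)) (.br (Nat.shiftLeft (nat_lit 0x3) (nat_lit 114)) (.one (nat_lit 0xb00000500f015600000a01e12c411)) (.one (nat_lit 0xc00000500f013800000a01e128411))))) (.br (Nat.shiftLeft (nat_lit 0xd) (nat_lit 112)) (.br (Nat.shiftLeft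 (nat_lit 0xc00000500f015) (nat_lit 64)) (.one (nat_lit 0xc00000500f014800000a01e12a411)) (.one (nat_lit 0xc00000500f015800000a01e12c411))) (.br (Nat.shiftLeft (nat_lit 0x3400001403c05) (nat_lit 66)) (.one (nat_lit 0xd00000500f013a00000a01e128411)) (.br (Nat.shiftLeft (nat_lit 0xd00000500f015) (nat_lit 64)) (.one (nat_lit 0xd00000500f014a00000a01e12a411)) (.one (nat_lit 0xd00000500f015a00000a01e12c411))))))) (.br (Nat.shiftLeft (nat_lit 0x100000300500f015) (nat_lit 64)) (.br (Nat.shiftLeft (nat_lit 0xf00000500f015) (nat_lit 64)) (.br (Nat.shiftLeft (nat_lit 0xe00000500f015) (nat_lit 64)) (.br (Nat.shiftLeft (nat_lit 0x3800001403c05) (nat_lit 66)) (.one (nat_lit 0xe00000500f013c00000a01e128411)) (.one (nat_lit 0xe00000500f014c00000a01e12a411))) (.br (Nat.shiftLeft (nat_lit 0xf) (nat_lit 112)) (.one (nat_lit 0xe00000500f015c00000a01e12c411)) (.br (Nat.shiftLeft (nat_lit 0x3c00001403c05) (nat_lit 66)) (.one (nat_lit 0xf00000500f013e00000a01e128411)) (.one (nat_lit 0xf00000500f014e00000a01e12a411))))) (.br (Nat.shiftLeft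 (nat_lit 0x400000801403c05) (nat_lit 66)) (.br (Nat.shiftLeft (nat_lit 0x1) (nat_lit 124)) (.one (nat_lit 0xf00000500f015e00000a01e12c411)) (.one (nat_lit 0x100000200500f013000400a03e426511))) (.br (Nat.shiftLeft (nat_lit 0x1000003) (nat_lit 100)) (.one (nat_lit 0x100000200500f014000400a03e428511)) (.br (Nat.shiftLeft (nat_lit 0x400000c01403c05) (nat_lit 66)) (.one (nat_lit 0x100000300500f013000600a03e426511)) (.one (nat_lit 0x100000300500f014000600a03e428511)))))) (.br (Nat.shiftLeft (nat_lit 0x800000801403c05) (nat_lit 66)) (.br (Nat.shiftLeft (nat_lit 0x400001001403c05) (nat_lit 66)) (.br (Nat.shiftLeft (nat_lit 0x400001) (nat_lit 102)) (.one (nat_lit 0x100000300500f015000600a03e42a511)) (.one (nat_lit 0x100000400500f013000800a03e426511))) (.br (Nat.shiftLeft (nat_lit 0x100000400500f015) (nat_lit 64)) (.one (nat_lit 0x100000400500f014000800a03e428511)) (.br (Nat.shiftLeft (nat_lit 0x1) (nat_lit 125)) (.one (nat_lit 0x100000400500f015000800a03e42a511)) (.one (nat_lit 0x200000200500f013000400a05e826511)))))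 (.br (Nat.shiftLeft (nat_lit 0x800000c01403c05) (nat_lit 66)) (.br (Nat.shiftLeft (nat_lit 0x2000003) (nat_lit 100)) (.one (nat_lit 0x200000200500f014000400a05e828511)) (.one (nat_lit 0x200000300500f013000600a05e826511))) (.br (Nat.shiftLeft (nat_lit 0x200000300500f015) (nat_lit 64)) (.one (nat_lit 0x200000300500f014000600a05e828511)) (.br (Nat.shiftLeft (nat_lit 0x800001) (nat_lit 102)) (.one (nat_lit 0x200000300500f015000600a05e82a511)) (.one (nat_lit 0x200000400500f013000800a05e826511))))))))
def t65 : k65.all (jb2 57 fl b0) = true := by decide +kernel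
noncomputable def k66 : KT := (.br (Nat.shiftLeft (nat_lit 0x1) (nat_lit 126)) (.br (Nat.shiftLeft (nat_lit 0xc00000c01403c05) (nat_lit 66)) (.br (Nat.shiftLeft (nat_lit 0x3) (nat_lit 124)) (.br (Nat.shiftLeft (nat_lit 0x200000400500f015) (nat_lit 64)) (.one (nat_lit 0x200000400500f014000800a05e828511)) (.one (nat_lit 0x200000400500f015000800a05e82a511))) (.br (Nat.shiftLeft (nat_lit 0xc00000801403c05) (nat_lit 66)) (.one (nat_lit 0x300000200500f013000400a07ec26511)) (.br (Nat.shiftLeft (nat_lit 0x3000003) (nat_lit 100)) (.one (nat_lit 0x300000200500f014000400a07ec28511)) (.one (nat_lit 0x300000300500f013000600a07ec26511))))) (.br (Nat.shiftLeft (nat_lit 0xc00001) (nat_lit 102)) (.br (Nat.shiftLeft (nat_lit 0x300000300500f015) (nat_lit 64)) (.one (nat_lit 0x300000300500f014000600a07ec28511)) (.one (nat_lit 0x300000300500f015000600a07ec2a511))) (.br (Nat.shiftLeft (nat_lit 0xc00001001403c05) (nat_lit 66)) (.one (nat_lit 0x300000400500f013000800a07ec26511)) (.br (Nat.shiftLeft (nat_lit 0x300000400500f015) (nat_lit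 64)) (.one (nat_lit 0x300000400500f014000800a07ec28511)) (.one (nat_lit 0x300000400500f015000800a07ec2a511)))))) (.br (Nat.shiftLeft (nat_lit 0x1000001) (nat_lit 102)) (.br (Nat.shiftLeft (nat_lit 0x4000003) (nat_lit 100)) (.br (Nat.shiftLeft (nat_lit 0x1000000801403c05) (nat_lit 66)) (.one (nat_lit 0x400000200500f013000400a09f026511)) (.one (nat_lit 0x400000200500f014000400a09f028511))) (.br (Nat.shiftLeft (nat_lit 0x1000000c01403c05) (nat_lit 66)) (.one (nat_lit 0x400000300500f013000600a09f026511)) (.br (Nat.shiftLeft (nat_lit 0x400000300500f015) (nat_lit 64)) (.one (nat_lit 0x400000300500f014000600a09f028511)) (.one (nat_lit 0x400000300500f015000600a09f02a511))))) (.br (Nat.shiftLeft (nat_lit 0x400000400500f015) (nat_lit 64)) (.br (Nat.shiftLeft (nat_lit 0x1000001001403c05) (nat_lit 66)) (.one (nat_lit 0x400000400500f013000800a09f026511)) (.one (nat_lit 0x400000400500f014000800a09f028511))) (.br (Nat.shiftLeft (nat_lit 0x5) (nat_lit 124)) (.one (nat_lit 0x400000400500f015000800a09f02a511)) (.br (Nat.shiftLeft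 (nat_lit 0x1400000801403c05) (nat_lit 66)) (.one (nat_lit 0x500000200500f013000400a0bf426511)) (.one (nat_lit 0x500000200500f014000400a0bf428511)))))))
def t66 : k66.all (jb2 57 fl b0) = true := by decide +kernel
noncomputable def k67 : KT := (.br (Nat.shiftLeft (nat_lit 0x1400001001403c05) (nat_lit 66)) (.br (Nat.shiftLeft (nat_lit 0x500000300500f015) (nat_lit 64)) (.br (Nat.shiftLeft (nat_lit 0x1400000c01403c05) (nat_lit 66)) (.one (nat_lit 0x500000300500f013000600a0bf426511)) (.one (nat_lit 0x500000300500f014000600a0bf428511))) (.br (Nat.shiftLeft (nat_lit 0x1400001) (nat_lit 102)) (.one (nat_lit 0x500000300500f015000600a0bf42a511)) (.one (nat_lit 0x500000400500f013000800a0bf426511)))) (.br (Nat.shiftLeft (nat_lit 0x3) (nat_lit 125)) (.br (Nat.shiftLeft (nat_lit 0x500000400500f015) (nat_lit 64)) (.one (nat_lit 0x500000400500f014000800a0bf428511)) (.one (nat_lit 0x500000400500f015000800a0bf42a511))) (.br (Nat.shiftLeft (nat_lit 0x1800000801403c05) (nat_lit 66)) (.one (nat_lit 0x600000200500f013000400a0df826511))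 (.br (Nat.shiftLeft (nat_lit 0x6000003) (nat_lit 100)) (.one (nat_lit 0x600000200500f014000400a0df828511)) (.one (nat_lit 0x600000300500f013000600a0df826511))))))
def t67 : k67.all (jb2 57 fl b0) = true := by decide +kernel
noncomputable def k68 : KT := (.br (Nat.shiftLeft (nat_lit 0x1c00000801403c05) (nat_lit 66)) (.br (Nat.shiftLeft (nat_lit 0x1800001001403c05) (nat_lit 66)) (.br (Nat.shiftLeft (nat_lit 0x600000300500f015) (nat_lit 64)) (.one (nat_lit 0x600000300500f014000600a0df828511)) (.br (Nat.shiftLeft (nat_lit 0x1800001) (nat_lit 102)) (.one (nat_lit 0x600000300500f015000600a0df82a511)) (.one (nat_lit 0x600000400500f013000800a0df826511)))) (.br (Nat.shiftLeft (nat_lit 0x600000400500f015) (nat_lit 64)) (.one (nat_lit 0x600000400500f014000800a0df828511)) (.br (Nat.shiftLeft (nat_lit 0x7) (nat_lit 124)) (.one (nat_lit 0x600000400500f015000800a0df82a511)) (.one (nat_lit 0x700000200500f013000400a0ffc26511))))) (.br (Nat.shiftLeft (nat_lit 0x700000300500f015) (nat_lit 64)) (.br (Nat.shiftLeft (nat_lit 0x7000003)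 (nat_lit 100)) (.one (nat_lit 0x700000200500f014000400a0ffc28511)) (.br (Nat.shiftLeft (nat_lit 0x1c00000c01403c05) (nat_lit 66)) (.one (nat_lit 0x700000300500f013000600a0ffc26511)) (.one (nat_lit 0x700000300500f014000600a0ffc28511)))) (.br (Nat.shiftLeft (nat_lit 0x1c00001) (nat_lit 102)) (.one (nat_lit 0x700000300500f015000600a0ffc2a511)) (.br (Nat.shiftLeft (nat_lit 0x1c00001001403c05) (nat_lit 66)) (.one (nat_lit 0x700000400500f013000800a0ffc26511)) (.one (nat_lit 0x700000400500f014000800a0ffc28511))))))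
def t68 : k68.all (jb2 57 fl b0) = true := by decide +kernel
noncomputable def k69 : KT := (.br (Nat.shiftLeft (nat_lit 0x9000003) (nat_lit 100)) (.br (Nat.shiftLeft (nat_lit 0x800000300500f015) (nat_lit 64)) (.br (Nat.shiftLeft (nat_lit 0x2000000801403c05) (nat_lit 66)) (.br (Nat.shiftLeft (nat_lit 0x1) (nat_lit 127)) (.one (nat_lit 0x700000400500f015000800a0ffc2a511)) (.one (nat_lit 0x800000200500f013000400a120026511))) (.br (Nat.shiftLeft (nat_lit 0x8000003) (nat_lit 100)) (.one (nat_lit 0x800000200500f014000400a120028511)) (.br (Nat.shiftLeft (nat_lit 0x2000000c01403c05) (nat_lit 66)) (.one (nat_lit 0x800000300500f013000600a120026511)) (.one (nat_lit 0x800000300500f014000600a120028511))))) (.br (Nat.shiftLeft (nat_lit 0x800000400500f015) (nat_lit 64)) (.br (Nat.shiftLeft (nat_lit 0x2000001) (nat_lit 102)) (.one (nat_lit 0x800000300500f015000600a12002a511)) (.br (Nat.shiftLeft (nat_lit 0x2000001001403c05) (nat_lit 66)) (.one (nat_lit 0x800000400500f013000800a120026511)) (.one (nat_lit 0x800000400500f014000800a120028511))))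 (.br (Nat.shiftLeft (nat_lit 0x9) (nat_lit 124)) (.one (nat_lit 0x800000400500f015000800a12002a511)) (.br (Nat.shiftLeft (nat_lit 0x2400000801403c05) (nat_lit 66)) (.one (nat_lit 0x900000200500f013000400a140426511)) (.one (nat_lit 0x900000200500f014000400a140428511)))))) (.br (Nat.shiftLeft (nat_lit 0x900000400500f015) (nat_lit 64)) (.br (Nat.shiftLeft (nat_lit 0x900000300500f015) (nat_lit 64)) (.br (Nat.shiftLeft (nat_lit 0x2400000c01403c05) (nat_lit 66)) (.one (nat_lit 0x900000300500f013000600a140426511)) (.one (nat_lit 0x900000300500f014000600a140428511))) (.br (Nat.shiftLeft (nat_lit 0x2400001) (nat_lit 102)) (.one (nat_lit 0x900000300500f015000600a14042a511)) (.br (Nat.shiftLeft (nat_lit 0x2400001001403c05) (nat_lit 66)) (.one (nat_lit 0x900000400500f013000800a140426511)) (.one (nat_lit 0x900000400500f014000800a140428511))))) (.br (Nat.shiftLeft (nat_lit 0xa000003) (nat_lit 100)) (.br (Nat.shiftLeft (nat_lit 0x5) (nat_lit 125)) (.one (nat_lit 0x900000400500f015000800a14042a511)) (.br (Nat.shiftLeft (nat_lit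 0x2800000801403c05) (nat_lit 66)) (.one (nat_lit 0xa00000200500f013000400a160826511)) (.one (nat_lit 0xa00000200500f014000400a160828511)))) (.br (Nat.shiftLeft (nat_lit 0x2800000c01403c05) (nat_lit 66)) (.one (nat_lit 0xa00000300500f013000600a160826511)) (.br (Nat.shiftLeft (nat_lit 0xa00000300500f015) (nat_lit 64)) (.one (nat_lit 0xa00000300500f014000600a160828511)) (.one (nat_lit 0xa00000300500f015000600a16082a511)))))))
def t69 : k69.all (jb2 57 fl b0) = true := by decide +kernel
noncomputable def k70 : KT := (.br (Nat.shiftLeft (nat_lit 0x3000001001403c05) (nat_lit 66)) (.br (Nat.shiftLeft (nat_lit 0x2c00001) (nat_lit 102)) (.br (Nat.shiftLeft (nat_lit 0x2c00000801403c05) (nat_lit 66)) (.br (Nat.shiftLeft (nat_lit 0xa00000400500f015) (nat_lit 64)) (.br (Nat.shiftLeft (nat_lit 0x2800001001403c05) (nat_lit 66)) (.one (nat_lit 0xa00000400500f013000800a160826511)) (.one (nat_lit 0xa00000400500f014000800a160828511))) (.br (Nat.shiftLeft (nat_lit 0xb) (nat_lit 124)) (.one (nat_lit 0xa00000400500f015000800a16082a511))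 (.one (nat_lit 0xb00000200500f013000400a180c26511)))) (.br (Nat.shiftLeft (nat_lit 0x2c00000c01403c05) (nat_lit 66)) (.br (Nat.shiftLeft (nat_lit 0xb000003) (nat_lit 100)) (.one (nat_lit 0xb00000200500f014000400a180c28511)) (.one (nat_lit 0xb00000300500f013000600a180c26511))) (.br (Nat.shiftLeft (nat_lit 0xb00000300500f015) (nat_lit 64)) (.one (nat_lit 0xb00000300500f014000600a180c28511)) (.one (nat_lit 0xb00000300500f015000600a180c2a511))))) (.br (Nat.shiftLeft (nat_lit 0x3000000801403c05) (nat_lit 66)) (.br (Nat.shiftLeft (nat_lit 0xb00000400500f015) (nat_lit 64)) (.br (Nat.shiftLeft (nat_lit 0x2c00001001403c05) (nat_lit 66)) (.one (nat_lit 0xb00000400500f013000800a180c26511)) (.one (nat_lit 0xb00000400500f014000800a180c28511))) (.br (Nat.shiftLeft (nat_lit 0x3) (nat_lit 126)) (.one (nat_lit 0xb00000400500f015000800a180c2a511)) (.one (nat_lit 0xc00000200500f013000400a1a1026511)))) (.br (Nat.shiftLeft (nat_lit 0x3000000c01403c05) (nat_lit 66)) (.br (Nat.shiftLeft (nat_lit 0xc000003) (nat_lit 100)) (.one (nat_lit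 0xc00000200500f014000400a1a1028511)) (.one (nat_lit 0xc00000300500f013000600a1a1026511))) (.br (Nat.shiftLeft (nat_lit 0xc00000300500f015) (nat_lit 64)) (.one (nat_lit 0xc00000300500f014000600a1a1028511)) (.br (Nat.shiftLeft (nat_lit 0x3000001) (nat_lit 102)) (.one (nat_lit 0xc00000300500f015000600a1a102a511)) (.one (nat_lit 0xc00000400500f013000800a1a1026511))))))) (.br (Nat.shiftLeft (nat_lit 0x3400001001403c05) (nat_lit 66)) (.br (Nat.shiftLeft (nat_lit 0xd000003) (nat_lit 100)) (.br (Nat.shiftLeft (nat_lit 0xd) (nat_lit 124)) (.br (Nat.shiftLeft (nat_lit 0xc00000400500f015) (nat_lit 64)) (.one (nat_lit 0xc00000400500f014000800a1a1028511)) (.one (nat_lit 0xc00000400500f015000800a1a102a511))) (.br (Nat.shiftLeft (nat_lit 0x3400000801403c05) (nat_lit 66)) (.one (nat_lit 0xd00000200500f013000400a1c1426511)) (.one (nat_lit 0xd00000200500f014000400a1c1428511)))) (.br (Nat.shiftLeft (nat_lit 0xd00000300500f015) (nat_lit 64)) (.br (Nat.shiftLeft (nat_lit 0x3400000c01403c05) (nat_lit 66)) (.one (nat_lit 0xd00000300500f013000600a1c1426511))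 (.one (nat_lit 0xd00000300500f014000600a1c1428511))) (.br (Nat.shiftLeft (nat_lit 0x3400001) (nat_lit 102)) (.one (nat_lit 0xd00000300500f015000600a1c142a511)) (.one (nat_lit 0xd00000400500f013000800a1c1426511))))) (.br (Nat.shiftLeft (nat_lit 0x3800000c01403c05) (nat_lit 66)) (.br (Nat.shiftLeft (nat_lit 0x3800000801403c05) (nat_lit 66)) (.br (Nat.shiftLeft (nat_lit 0x7) (nat_lit 125)) (.one (nat_lit 0xd00000400500f014000800a1c1428511)) (.one (nat_lit 0xe00000200500f013000400a1e1826511))) (.br (Nat.shiftLeft (nat_lit 0xe000003) (nat_lit 100)) (.one (nat_lit 0xe00000200500f014000400a1e1828511)) (.one (nat_lit 0xe00000300500f013000600a1e1826511)))) (.br (Nat.shiftLeft (nat_lit 0xf) (nat_lit 124)) (.br (Nat.shiftLeft (nat_lit 0x3800001) (nat_lit 102)) (.one (nat_lit 0xe00000300500f014000600a1e1828511)) (.one (nat_lit 0xe00000400500f013000800a1e1826511))) (.br (Nat.shiftLeft (nat_lit 0x3c00000801403c05) (nat_lit 66)) (.one (nat_lit 0xf00000200500f013000400a201c26511)) (.br (Nat.shiftLeft (nat_lit 0xf000003) (nat_lit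 100)) (.one (nat_lit 0xf00000200500f014000400a201c28511)) (.one (nat_lit 0xf00000300500f013000600a201c26511))))))))
def t70 : k70.all (jb2 57 fl b0) = true := by decide +kernel
noncomputable def s3 : KT := (.br (nat_lit 0x200300500f013400600a01e026650) (.br (nat_lit 0x100200500f013200400a01e026650) (.br (nat_lit 0x100500f014000200a01e028540) (.br (nat_lit 0x100500f013000200a01e026540) k51 k52) (.br (nat_lit 0x200500f014000400a01e029500) k53 (.br (nat_lit 0x100000500f015200000a01e02a411) k54 k55))) (.br (nat_lit 0x100300500f013200600a01e026650) (.br (nat_lit 0x100200500f014200400a01e028650) k56 k57) (.br (nat_lit 0x100300500f015200600a01e02a650) k58 (.br (nat_lit 0x200000500f015400000a01e02a411) k59 k60)))) (.br (nat_lit 0x200000400500f013000800a05e826511) (.br (nat_lit 0x200400500f014400800a01e028650) (.br (nat_lit 0x200300500f015400600a01e02a650) k61 k62) (.br (nat_lit 0x300400500f013600800a01e026650) k63 (.br (nat_lit 0x700000500f013e00000a01e026411) k64 k65))) (.br (nat_lit 0x600000300500f013000600a0df826511)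 (.br (nat_lit 0x500000200500f014000400a0bf428511) k66 k67) (.br (nat_lit 0x700000400500f014000800a0ffc28511) k68 (.br (nat_lit 0xa00000300500f015000600a16082a511) k69 k70)))))
noncomputable def u3 : KT := (.br (Nat.shiftLeft (nat_lit 0x1403c05) (nat_lit 66)) (.one (nat_lit 0x500f013000000a01e026430)) (.br (Nat.shiftLeft (nat_lit 0x500f015) (nat_lit 64)) (.one (nat_lit 0x500f014000000a01e028430)) (.one (nat_lit 0x500f015000000a01e02a430))))
def w3 : u3.all (wj 57 s3) = true := by decide +kernel
def o3 : OkW 57 (jb2 57 fl) u3 := .lift s3 _ (.br _ _ _ (.br _ _ _ (.br _ _ _ (.br _ _ _ (.leaf b0 k51 t51) (.leaf b0 k52 t52)) (.br _ _ _ (.leaf b0 k53 t53) (.br _ _ _ (.leaf b0 k54 t54) (.leaf b0 k55 t55)))) (.br _ _ _ (.br _ _ _ (.leaf b0 k56 t56) (.leaf b0 k57 t57)) (.br _ _ _ (.leaf b0 k58 t58) (.br _ _ _ (.leaf b0 k59 t59) (.leaf b0 k60 t60))))) (.br _ _ _ (.br _ _ _ (.br _ _ _ (.leaf b0 k61 t61) (.leaf b0 k62 t62)) (.br _ _ _ (.leaf b0 k63 t63) (.br _ _ _ (.leaf b0 k64 t64) (.leaf b0 k65 t65)))) (.br _ _ _ (.br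 _ _ _ (.leaf b0 k66 t66) (.leaf b0 k67 t67)) (.br _ _ _ (.leaf b0 k68 t68) (.br _ _ _ (.leaf b0 k69 t69) (.leaf b0 k70 t70)))))) w3
noncomputable def k71 : KT := (.br (Nat.shiftLeft (nat_lit 0x2808009) (nat_lit 65)) (.one (nat_lit 0x5010011000000a020023400)) (.br (Nat.shiftLeft (nat_lit 0x1) (nat_lit 100)) (.one (nat_lit 0x5010012000000a020025400)) (.one (nat_lit 0x1005010011000200a020022540))))
def t71 : k71.all (jb2 57 fl b0) = true := by decide +kernel
noncomputable def k72 : KT := (.br (Nat.shiftLeft (nat_lit 0x1802808009) (nat_lit 65)) (.br (Nat.shiftLeft (nat_lit 0x1002808009) (nat_lit 65)) (.br (Nat.shiftLeft (nat_lit 0x1) (nat_lit 101)) (.one (nat_lit 0x1005010012000200a020024540)) (.one (nat_lit 0x2005010011000400a020023500))) (.br (Nat.shiftLeft (nat_lit 0x3) (nat_lit 100)) (.one (nat_lit 0x2005010012000400a020025500)) (.one (nat_lit 0x3005010011000600a020023500)))) (.br (Nat.shiftLeft (nat_lit 0x2002808009) (nat_lit 65)) (.br (Nat.shiftLeft (nat_lit 0x1) (nat_lit 102)) (.one (nat_lit 0x3005010012000600a020025500))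 (.one (nat_lit 0x4005010011000800a020023500))) (.br (Nat.shiftLeft (nat_lit 0x1) (nat_lit 112)) (.one (nat_lit 0x4005010012000800a020025500)) (.br (Nat.shiftLeft (nat_lit 0x800002808009) (nat_lit 65)) (.one (nat_lit 0x1000005010011200000a020022411)) (.one (nat_lit 0x1000005010012200000a020024411))))))
def t72 : k72.all (jb2 57 fl b0) = true := by decide +kernel
noncomputable def k73 : KT := (.one (nat_lit 0x1002005010011200400a020022650))
def t73 : k73.all (jb2 57 fl b0) = true := by decide +kernel
noncomputable def k74 : KT := (.one (nat_lit 0x1002005010012200400a020024650))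
def t74 : k74.all (jb2 57 fl b0) = true := by decide +kernel
noncomputable def k75 : KT := (.one (nat_lit 0x1003005010011200600a020022650))
def t75 : k75.all (jb2 57 fl b0) = true := by decide +kernel
noncomputable def k76 : KT := (.one (nat_lit 0x1003005010012200600a020024650))
def t76 : k76.all (jb2 57 fl b0) = true := by decide +kernel
noncomputable def k77 : KT := (.br (Nat.shiftLeft (nat_lit 0x1) (nat_lit 113)) (.br (Nat.shiftLeft (nat_lit 0x802002808009) (nat_lit 65)) (.one (nat_lit 0x1004005010011200800a020022650)) (.one (nat_lit 0x1004005010012200800a020024650))) (.br (Nat.shiftLeft (nat_lit 0x1000002808009) (nat_lit 65)) (.one (nat_lit 0x2000005010011400000a020022411)) (.one (nat_lit 0x2000005010012400000a020024411))))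
def t77 : k77.all (jb2 57 fl b0) = true := by decide +kernel
noncomputable def k78 : KT := (.br (Nat.shiftLeft (nat_lit 0x1001802808009) (nat_lit 65)) (.one (nat_lit 0x2003005010011400600a020023600)) (.one (nat_lit 0x2003005010012400600a020024650)))
def t78 : k78.all (jb2 57 fl b0) = true := by decide +kernel
noncomputable def k79 : KT := (.one (nat_lit 0x2004005010011400800a020022650))
def t79 : k79.all (jb2 57 fl b0) = true := by decide +kernel
noncomputable def k80 : KT := (.br (Nat.shiftLeft (nat_lit 0x3) (nat_lit 112)) (.one (nat_lit 0x2004005010012400800a020024650)) (.br (Nat.shiftLeft (nat_lit 0x1800002808009) (nat_lit 65)) (.one (nat_lit 0x3000005010011600000a020022411)) (.one (nat_lit 0x3000005010012600000a020024411))))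
def t80 : k80.all (jb2 57 fl b0) = true := by decide +kernel
noncomputable def k81 : KT := (.one (nat_lit 0x3004005010011600800a020022650))
def t81 : k81.all (jb2 57 fl b0) = true := by decide +kernel
noncomputable def k82 : KT := (.br (Nat.shiftLeft (nat_lit 0x3000002808009) (nat_lit 65)) (.br (Nat.shiftLeft (nat_lit 0x5) (nat_lit 112)) (.br (Nat.shiftLeft (nat_lit 0x1) (nat_lit 114)) (.one (nat_lit 0x3004005010012600800a020024650)) (.br (Nat.shiftLeft (nat_lit 0x2000002808009) (nat_lit 65)) (.one (nat_lit 0x4000005010011800000a020022411)) (.one (nat_lit 0x4000005010012800000a020024411)))) (.br (Nat.shiftLeft (nat_lit 0x2800002808009) (nat_lit 65)) (.one (nat_lit 0x5000005010011a00000a020022411)) (.br (Nat.shiftLeft (nat_lit 0x3) (nat_lit 113)) (.one (nat_lit 0x5000005010012a00000a020024411)) (.one (nat_lit 0x6000005010011c00000a020022411))))) (.br (Nat.shiftLeft (nat_lit 0x1) (nat_lit 115)) (.br (Nat.shiftLeft (nat_lit 0x7) (nat_lit 112)) (.one (nat_lit 0x6000005010012c00000a020024411)) (.br (Nat.shiftLeft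 (nat_lit 0x3800002808009) (nat_lit 65)) (.one (nat_lit 0x7000005010011e00000a020022411)) (.one (nat_lit 0x7000005010012e00000a020024411)))) (.br (Nat.shiftLeft (nat_lit 0x9) (nat_lit 112)) (.br (Nat.shiftLeft (nat_lit 0x4000002808009) (nat_lit 65)) (.one (nat_lit 0x8000005010011000000a020124411)) (.one (nat_lit 0x8000005010012000000a020126411))) (.br (Nat.shiftLeft (nat_lit 0x4800002808009) (nat_lit 65)) (.one (nat_lit 0x9000005010011200000a020124411)) (.one (nat_lit 0x9000005010012200000a020126411))))))
def t82 : k82.all (jb2 57 fl b0) = true := by decide +kernel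
noncomputable def k83 : KT := (.br (Nat.shiftLeft (nat_lit 0x1000003) (nat_lit 100)) (.br (Nat.shiftLeft (nat_lit 0x7) (nat_lit 113)) (.br (Nat.shiftLeft (nat_lit 0x3) (nat_lit 114)) (.br (Nat.shiftLeft (nat_lit 0xb) (nat_lit 112)) (.br (Nat.shiftLeft (nat_lit 0x5000002808009) (nat_lit 65)) (.one (nat_lit 0xa000005010011400000a020124411)) (.one (nat_lit 0xa000005010012400000a020126411))) (.br (Nat.shiftLeft (nat_lit 0x5800002808009) (nat_lit 65)) (.one (nat_lit 0xb000005010011600000a020124411)) (.one (nat_lit 0xb000005010012600000a020126411)))) (.br (Nat.shiftLeft (nat_lit 0xd) (nat_lit 112)) (.br (Nat.shiftLeft (nat_lit 0x6000002808009) (nat_lit 65)) (.one (nat_lit 0xc000005010011800000a020124411)) (.one (nat_lit 0xc000005010012800000a020126411))) (.br (Nat.shiftLeft (nat_lit 0x6800002808009) (nat_lit 65)) (.one (nat_lit 0xd000005010011a00000a020124411)) (.one (nat_lit 0xd000005010012a00000a020126411))))) (.br (Nat.shiftLeft (nat_lit 0x1) (nat_lit 116)) (.br (Nat.shiftLeft (nat_lit 0xf) (nat_lit 112)) (.br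 (Nat.shiftLeft (nat_lit 0x7000002808009) (nat_lit 65)) (.one (nat_lit 0xe000005010011c00000a020124411)) (.one (nat_lit 0xe000005010012c00000a020126411))) (.br (Nat.shiftLeft (nat_lit 0x7800002808009) (nat_lit 65)) (.one (nat_lit 0xf000005010011e00000a020124411)) (.one (nat_lit 0xf000005010012e00000a020126411)))) (.br (Nat.shiftLeft (nat_lit 0x1) (nat_lit 124)) (.br (Nat.shiftLeft (nat_lit 0x8000002808009) (nat_lit 65)) (.one (nat_lit 0x10000005010011000000a020226411)) (.one (nat_lit 0x10000005010012000000a020228411))) (.br (Nat.shiftLeft (nat_lit 0x800001002808009) (nat_lit 65)) (.one (nat_lit 0x1000002005010011000400a040422511)) (.one (nat_lit 0x1000002005010012000400a040424511)))))) (.br (Nat.shiftLeft (nat_lit 0x1000001802808009) (nat_lit 65)) (.br (Nat.shiftLeft (nat_lit 0x801) (nat_lit 113)) (.br (Nat.shiftLeft (nat_lit 0x400001) (nat_lit 102)) (.br (Nat.shiftLeft (nat_lit 0x800001802808009) (nat_lit 65)) (.one (nat_lit 0x1000003005010011000600a040422511)) (.one (nat_lit 0x1000003005010012000600a040424511)))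 (.br (Nat.shiftLeft (nat_lit 0x800002002808009) (nat_lit 65)) (.one (nat_lit 0x1000004005010011000800a040422511)) (.one (nat_lit 0x1000004005010012000800a040424511)))) (.br (Nat.shiftLeft (nat_lit 0x1000001002808009) (nat_lit 65)) (.br (Nat.shiftLeft (nat_lit 0x1) (nat_lit 125)) (.one (nat_lit 0x1002003005010011400600a040422760)) (.one (nat_lit 0x2000002005010011000400a060822511))) (.br (Nat.shiftLeft (nat_lit 0x2000003) (nat_lit 100)) (.one (nat_lit 0x2000002005010012000400a060824511)) (.one (nat_lit 0x2000003005010011000600a060822511))))) (.br (Nat.shiftLeft (nat_lit 0x1800001002808009) (nat_lit 65)) (.br (Nat.shiftLeft (nat_lit 0x1000002002808009) (nat_lit 65)) (.br (Nat.shiftLeft (nat_lit 0x800001) (nat_lit 102)) (.one (nat_lit 0x2000003005010012000600a060824511)) (.one (nat_lit 0x2000004005010011000800a060822511))) (.br (Nat.shiftLeft (nat_lit 0x3) (nat_lit 124)) (.one (nat_lit 0x2000004005010012000800a060824511)) (.one (nat_lit 0x3000002005010011000400a080c22511)))) (.br (Nat.shiftLeft (nat_lit 0x1800001802808009)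 (nat_lit 65)) (.br (Nat.shiftLeft (nat_lit 0x3000003) (nat_lit 100)) (.one (nat_lit 0x3000002005010012000400a080c24511)) (.one (nat_lit 0x3000003005010011000600a080c22511))) (.br (Nat.shiftLeft (nat_lit 0xc00001) (nat_lit 102)) (.one (nat_lit 0x3000003005010012000600a080c24511)) (.br (Nat.shiftLeft (nat_lit 0x1800002002808009) (nat_lit 65)) (.one (nat_lit 0x3000004005010011000800a080c22511)) (.one (nat_lit 0x3000004005010012000800a080c24511))))))))
def t83 : k83.all (jb2 57 fl b0) = true := by decide +kernel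
noncomputable def k84 : KT := (.br (Nat.shiftLeft (nat_lit 0x2000002002808009) (nat_lit 65)) (.br (Nat.shiftLeft (nat_lit 0x4000003) (nat_lit 100)) (.br (Nat.shiftLeft (nat_lit 0x2000001002808009) (nat_lit 65)) (.one (nat_lit 0x4000002005010011000400a0a1022511)) (.one (nat_lit 0x4000002005010012000400a0a1024511))) (.br (Nat.shiftLeft (nat_lit 0x2000001802808009) (nat_lit 65)) (.one (nat_lit 0x4000003005010011000600a0a1022511)) (.br (Nat.shiftLeft (nat_lit 0x1000001) (nat_lit 102)) (.one (nat_lit 0x4000003005010012000600a0a1024511)) (.one (nat_lit 0x4000004005010011000800a0a1022511))))) (.br (Nat.shiftLeft (nat_lit 0x2800001002808009) (nat_lit 65)) (.br (Nat.shiftLeft (nat_lit 0x5) (nat_lit 124)) (.one (nat_lit 0x4000004005010012000800a0a1024511)) (.one (nat_lit 0x5000002005010011000400a0c1422511))) (.br (Nat.shiftLeft (nat_lit 0x5000003) (nat_lit 100)) (.one (nat_lit 0x5000002005010012000400a0c1424511)) (.br (Nat.shiftLeft (nat_lit 0x2800001802808009) (nat_lit 65)) (.one (nat_lit 0x5000003005010011000600a0c1422511))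 (.one (nat_lit 0x5000003005010012000600a0c1424511))))))
def t84 : k84.all (jb2 57 fl b0) = true := by decide +kernel
noncomputable def k85 : KT := (.br (Nat.shiftLeft (nat_lit 0x3000001002808009) (nat_lit 65)) (.br (Nat.shiftLeft (nat_lit 0x2800002002808009) (nat_lit 65)) (.one (nat_lit 0x5000004005010011000800a0c1422511)) (.br (Nat.shiftLeft (nat_lit 0x3) (nat_lit 125)) (.one (nat_lit 0x5000004005010012000800a0c1424511)) (.one (nat_lit 0x6000002005010011000400a0e1822511)))) (.br (Nat.shiftLeft (nat_lit 0x3000001802808009) (nat_lit 65)) (.br (Nat.shiftLeft (nat_lit 0x6000003) (nat_lit 100)) (.one (nat_lit 0x6000002005010012000400a0e1824511)) (.one (nat_lit 0x6000003005010011000600a0e1822511))) (.br (Nat.shiftLeft (nat_lit 0x1800001) (nat_lit 102)) (.one (nat_lit 0x6000003005010012000600a0e1824511)) (.one (nat_lit 0x6000004005010011000800a0e1822511)))))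
def t85 : k85.all (jb2 57 fl b0) = true := by decide +kernel
noncomputable def k86 : KT := (.br (Nat.shiftLeft (nat_lit 0x3800001802808009) (nat_lit 65)) (.br (Nat.shiftLeft (nat_lit 0x3800001002808009) (nat_lit 65)) (.br (Nat.shiftLeft (nat_lit 0x7) (nat_lit 124)) (.one (nat_lit 0x6000004005010012000800a0e1824511)) (.one (nat_lit 0x7000002005010011000400a101c22511))) (.br (Nat.shiftLeft (nat_lit 0x7000003) (nat_lit 100)) (.one (nat_lit 0x7000002005010012000400a101c24511)) (.one (nat_lit 0x7000003005010011000600a101c22511)))) (.br (Nat.shiftLeft (nat_lit 0x3800002002808009) (nat_lit 65)) (.br (Nat.shiftLeft (nat_lit 0x1c00001) (nat_lit 102)) (.one (nat_lit 0x7000003005010012000600a101c24511)) (.one (nat_lit 0x7000004005010011000800a101c22511))) (.br (Nat.shiftLeft (nat_lit 0x1) (nat_lit 127)) (.one (nat_lit 0x7000004005010012000800a101c24511)) (.br (Nat.shiftLeft (nat_lit 0x4000001002808009) (nat_lit 65)) (.one (nat_lit 0x8000002005010011000400a122022511)) (.one (nat_lit 0x8000002005010012000400a122024511))))))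
def t86 : k86.all (jb2 57 fl b0) = true := by decide +kernel
noncomputable def k87 : KT := (.br (Nat.shiftLeft (nat_lit 0x2400001) (nat_lit 102)) (.br (Nat.shiftLeft (nat_lit 0x9) (nat_lit 124)) (.br (Nat.shiftLeft (nat_lit 0x2000001) (nat_lit 102)) (.br (Nat.shiftLeft (nat_lit 0x4000001802808009) (nat_lit 65)) (.one (nat_lit 0x8000003005010011000600a122022511)) (.one (nat_lit 0x8000003005010012000600a122024511))) (.br (Nat.shiftLeft (nat_lit 0x4000002002808009) (nat_lit 65)) (.one (nat_lit 0x8000004005010011000800a122022511)) (.one (nat_lit 0x8000004005010012000800a122024511)))) (.br (Nat.shiftLeft (nat_lit 0x9000003) (nat_lit 100)) (.br (Nat.shiftLeft (nat_lit 0x4800001002808009) (nat_lit 65)) (.one (nat_lit 0x9000002005010011000400a142422511)) (.one (nat_lit 0x9000002005010012000400a142424511))) (.br (Nat.shiftLeft (nat_lit 0x4800001802808009) (nat_lit 65)) (.one (nat_lit 0x9000003005010011000600a142422511)) (.one (nat_lit 0x9000003005010012000600a142424511))))) (.br (Nat.shiftLeft (nat_lit 0xa000003) (nat_lit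 100)) (.br (Nat.shiftLeft (nat_lit 0x5) (nat_lit 125)) (.br (Nat.shiftLeft (nat_lit 0x4800002002808009) (nat_lit 65)) (.one (nat_lit 0x9000004005010011000800a142422511)) (.one (nat_lit 0x9000004005010012000800a142424511))) (.br (Nat.shiftLeft (nat_lit 0x5000001002808009) (nat_lit 65)) (.one (nat_lit 0xa000002005010011000400a162822511)) (.one (nat_lit 0xa000002005010012000400a162824511)))) (.br (Nat.shiftLeft (nat_lit 0x2800001) (nat_lit 102)) (.br (Nat.shiftLeft (nat_lit 0x5000001802808009) (nat_lit 65)) (.one (nat_lit 0xa000003005010011000600a162822511)) (.one (nat_lit 0xa000003005010012000600a162824511))) (.br (Nat.shiftLeft (nat_lit 0x5000002002808009) (nat_lit 65)) (.one (nat_lit 0xa000004005010011000800a162822511)) (.one (nat_lit 0xa000004005010012000800a162824511))))))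
def t87 : k87.all (jb2 57 fl b0) = true := by decide +kernel
noncomputable def k88 : KT := (.br (Nat.shiftLeft (nat_lit 0xe000003) (nat_lit 100)) (.br (Nat.shiftLeft (nat_lit 0x3000001) (nat_lit 102)) (.br (Nat.shiftLeft (nat_lit 0x5800002002808009) (nat_lit 65)) (.br (Nat.shiftLeft (nat_lit 0xb000003) (nat_lit 100)) (.br (Nat.shiftLeft (nat_lit 0x5800001002808009) (nat_lit 65)) (.one (nat_lit 0xb000002005010011000400a182c22511)) (.one (nat_lit 0xb000002005010012000400a182c24511))) (.br (Nat.shiftLeft (nat_lit 0x5800001802808009) (nat_lit 65)) (.one (nat_lit 0xb000003005010011000600a182c22511)) (.br (Nat.shiftLeft (nat_lit 0x2c00001) (nat_lit 102)) (.one (nat_lit 0xb000003005010012000600a182c24511)) (.one (nat_lit 0xb000004005010011000800a182c22511))))) (.br (Nat.shiftLeft (nat_lit 0x6000001002808009) (nat_lit 65)) (.br (Nat.shiftLeft (nat_lit 0x3) (nat_lit 126)) (.one (nat_lit 0xb000004005010012000800a182c24511)) (.one (nat_lit 0xc000002005010011000400a1a3022511))) (.br (Nat.shiftLeft (nat_lit 0xc000003) (nat_lit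 100)) (.one (nat_lit 0xc000002005010012000400a1a3024511)) (.br (Nat.shiftLeft (nat_lit 0x6000001802808009) (nat_lit 65)) (.one (nat_lit 0xc000003005010011000600a1a3022511)) (.one (nat_lit 0xc000003005010012000600a1a3024511)))))) (.br (Nat.shiftLeft (nat_lit 0x6800001802808009) (nat_lit 65)) (.br (Nat.shiftLeft (nat_lit 0xd) (nat_lit 124)) (.br (Nat.shiftLeft (nat_lit 0x6000002002808009) (nat_lit 65)) (.one (nat_lit 0xc000004005010011000800a1a3022511)) (.one (nat_lit 0xc000004005010012000800a1a3024511))) (.br (Nat.shiftLeft (nat_lit 0x6800001002808009) (nat_lit 65)) (.one (nat_lit 0xd000002005010011000400a1c3422511)) (.br (Nat.shiftLeft (nat_lit 0xd000003) (nat_lit 100)) (.one (nat_lit 0xd000002005010012000400a1c3424511)) (.one (nat_lit 0xd000003005010011000600a1c3422511))))) (.br (Nat.shiftLeft (nat_lit 0x6800002002808009) (nat_lit 65)) (.br (Nat.shiftLeft (nat_lit 0x3400001) (nat_lit 102)) (.one (nat_lit 0xd000003005010012000600a1c3424511)) (.one (nat_lit 0xd000004005010011000800a1c3422511))) (.br (Nat.shiftLeft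 (nat_lit 0x7) (nat_lit 125)) (.one (nat_lit 0xd000004005010012000800a1c3424511)) (.br (Nat.shiftLeft (nat_lit 0x7000001002808009) (nat_lit 65)) (.one (nat_lit 0xe000002005010011000400a1e3822511)) (.one (nat_lit 0xe000002005010012000400a1e3824511))))))) (.br (Nat.shiftLeft (nat_lit 0x8000001002808009) (nat_lit 65)) (.br (Nat.shiftLeft (nat_lit 0x7800001002808009) (nat_lit 65)) (.br (Nat.shiftLeft (nat_lit 0x3800001) (nat_lit 102)) (.br (Nat.shiftLeft (nat_lit 0x7000001802808009) (nat_lit 65)) (.one (nat_lit 0xe000003005010011000600a1e3822511)) (.one (nat_lit 0xe000003005010012000600a1e3824511))) (.br (Nat.shiftLeft (nat_lit 0x7000002002808009) (nat_lit 65)) (.one (nat_lit 0xe000004005010011000800a1e3822511)) (.br (Nat.shiftLeft (nat_lit 0xf) (nat_lit 124)) (.one (nat_lit 0xe000004005010012000800a1e3824511)) (.one (nat_lit 0xf000002005010011000400a203c22511))))) (.br (Nat.shiftLeft (nat_lit 0x7800001802808009) (nat_lit 65)) (.br (Nat.shiftLeft (nat_lit 0xf000003) (nat_lit 100)) (.one (nat_lit 0xf000002005010012000400a203c24511))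 (.one (nat_lit 0xf000003005010011000600a203c22511))) (.br (Nat.shiftLeft (nat_lit 0x3c00001) (nat_lit 102)) (.one (nat_lit 0xf000003005010012000600a203c24511)) (.br (Nat.shiftLeft (nat_lit 0x1) (nat_lit 128)) (.one (nat_lit 0xf000004005010011000800a203c22511)) (.one (nat_lit 0x10000002005010011000400a224022511)))))) (.br (Nat.shiftLeft (nat_lit 0x1) (nat_lit 138)) (.br (Nat.shiftLeft (nat_lit 0x1) (nat_lit 136)) (.br (Nat.shiftLeft (nat_lit 0x10000003) (nat_lit 100)) (.one (nat_lit 0x10000002005010012000400a224024511)) (.one (nat_lit 0x10000003005010011000600a224022511))) (.br (Nat.shiftLeft (nat_lit 0x1) (nat_lit 137)) (.one (nat_lit 0x1000002003005010011400602a420022611)) (.br (Nat.shiftLeft (nat_lit 0x3) (nat_lit 136)) (.one (nat_lit 0x2000002003005010011400604a820022611)) (.one (nat_lit 0x3000002003005010011400606ac20022611))))) (.br (Nat.shiftLeft (nat_lit 0x3) (nat_lit 137)) (.br (Nat.shiftLeft (nat_lit 0x5) (nat_lit 136)) (.one (nat_lit 0x4000002003005010011400608b020022611)) (.one (nat_lit 0x500000200300501001140060ab420022611)))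 (.br (Nat.shiftLeft (nat_lit 0x7) (nat_lit 136)) (.one (nat_lit 0x600000200300501001140060cb820022611)) (.br (Nat.shiftLeft (nat_lit 0x1) (nat_lit 139)) (.one (nat_lit 0x700000200300501001140060ebc20022611)) (.one (nat_lit 0x8000002003005010011400610c020022611))))))))
def t88 : k88.all (jb2 57 fl b0) = true := by decide +kernel
noncomputable def k89 : KT := (.br (Nat.shiftLeft (nat_lit 0x3) (nat_lit 138)) (.br (Nat.shiftLeft (nat_lit 0x5) (nat_lit 137)) (.one (nat_lit 0x9000002003005010011400612c420022611)) (.br (Nat.shiftLeft (nat_lit 0xb) (nat_lit 136)) (.one (nat_lit 0xa000002003005010011400614c820022611)) (.one (nat_lit 0xb000002003005010011400616cc20022611)))) (.br (Nat.shiftLeft (nat_lit 0xd) (nat_lit 136)) (.one (nat_lit 0xc000002003005010011400618d020022611)) (.br (Nat.shiftLeft (nat_lit 0x7) (nat_lit 137)) (.one (nat_lit 0xd00000200300501001140061ad420022611)) (.one (nat_lit 0xe00000200300501001140061cd820022611)))))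
def t89 : k89.all (jb2 57 fl b0) = true := by decide +kernel
noncomputable def s4 : KT := (.br (nat_lit 0x2004005010011400800a020022650) (.br (nat_lit 0x1002005010012200400a020024650) (.br (nat_lit 0x1000005010012200000a020024411) (.br (nat_lit 0x1005010011000200a020022540) k71 k72) (.br (nat_lit 0x1002005010011200400a020022650) k73 k74)) (.br (nat_lit 0x1003005010012200600a020024650) (.br (nat_lit 0x1003005010011200600a020022650) k75 k76) (.br (nat_lit 0x2000005010012400000a020024411) k77 (.br (nat_lit 0x2003005010012400600a020024650) k78 k79)))) (.br (nat_lit 0x5000003005010012000600a0c1424511) (.br (nat_lit 0x3004005010011600800a020022650) (.br (nat_lit 0x3000005010012600000a020024411) k80 k81) (.br (nat_lit 0x9000005010012200000a020126411) k82 (.br (nat_lit 0x3000004005010012000800a080c24511) k83 k84))) (.br (nat_lit 0x8000002005010012000400a122024511) (.br (nat_lit 0x6000004005010011000800a0e1822511) k85 k86) (.br (nat_lit 0xa000004005010012000800a162824511) k87 (.br (nat_lit 0x8000002003005010011400610c020022611)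 k88 k89)))))
noncomputable def u4 : KT := (.br (Nat.shiftLeft (nat_lit 0x2808009) (nat_lit 65)) (.one (nat_lit 0x5010011000000a020022430)) (.one (nat_lit 0x5010012000000a020024430)))
def w4 : u4.all (wj 57 s4) = true := by decide +kernel
def o4 : OkW 57 (jb2 57 fl) u4 := .lift s4 _ (.br _ _ _ (.br _ _ _ (.br _ _ _ (.br _ _ _ (.leaf b0 k71 t71) (.leaf b0 k72 t72)) (.br _ _ _ (.leaf b0 k73 t73) (.leaf b0 k74 t74))) (.br _ _ _ (.br _ _ _ (.leaf b0 k75 t75) (.leaf b0 k76 t76)) (.br _ _ _ (.leaf b0 k77 t77) (.br _ _ _ (.leaf b0 k78 t78) (.leaf b0 k79 t79))))) (.br _ _ _ (.br _ _ _ (.br _ _ _ (.leaf b0 k80 t80) (.leaf b0 k81 t81)) (.br _ _ _ (.leaf b0 k82 t82) (.br _ _ _ (.leaf b0 k83 t83) (.leaf b0 k84 t84)))) (.br _ _ _ (.br _ _ _ (.leaf b0 k85 t85) (.leaf b0 k86 t86)) (.br _ _ _ (.leaf b0 k87 t87) (.br _ _ _ (.leaf b0 k88 t88) (.leaf b0 k89 t89)))))) w4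
noncomputable def k90 : KT := (.br (Nat.shiftLeft (nat_lit 0x3) (nat_lit 89)) (.br (Nat.shiftLeft (nat_lit 0x5011) (nat_lit 76)) (.br (Nat.shiftLeft (nat_lit 0x1404005) (nat_lit 66)) (.one (nat_lit 0x5010013000000a020027400)) (.one (nat_lit 0x5010014000000a020029400))) (.br (Nat.shiftLeft (nat_lit 0x5011013) (nat_lit 64)) (.one (nat_lit 0x5011012000000a022025400)) (.one (nat_lit 0x5011013000000a022027400)))) (.br (Nat.shiftLeft (nat_lit 0x6007015) (nat_lit 64)) (.br (Nat.shiftLeft (nat_lit 0x1801c05) (nat_lit 66)) (.one (nat_lit 0x6007013000000c00e027400)) (.one (nat_lit 0x6007014000000c00e029400))) (.br (Nat.shiftLeft (nat_lit 0x1) (nat_lit 100)) (.one (nat_lit 0x6007015000000c00e02b400)) (.one (nat_lit 0x1005010013000200a020026540)))))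
def t90 : k90.all (jb2 57 fl b0) = true := by decide +kernel
noncomputable def k91 : KT := (.one (nat_lit 0x1005010014000200a020028540))
def t91 : k91.all (jb2 57 fl b0) = true := by decide +kernel
noncomputable def k92 : KT := (.one (nat_lit 0x1005011012000200a022024540))
def t92 : k92.all (jb2 57 fl b0) = true := by decide +kernel
noncomputable def k93 : KT := (.br (Nat.shiftLeft (nat_lit 0x1) (nat_lit 101)) (.one (nat_lit 0x1005011013000200a022026540)) (.one (nat_lit 0x2005010013000400a020027500)))
def t93 : k93.all (jb2 57 fl b0) = true := by decide +kernel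
noncomputable def k94 : KT := (.br (Nat.shiftLeft (nat_lit 0x2005011) (nat_lit 76)) (.one (nat_lit 0x2005010014000400a020028540)) (.one (nat_lit 0x2005011012000400a022025500)))
def t94 : k94.all (jb2 57 fl b0) = true := by decide +kernel
noncomputable def k95 : KT := (.br (Nat.shiftLeft (nat_lit 0x1001404005) (nat_lit 66)) (.br (Nat.shiftLeft (nat_lit 0x3005011) (nat_lit 76)) (.br (Nat.shiftLeft (nat_lit 0x3) (nat_lit 100)) (.one (nat_lit 0x2005011013000400a022026540)) (.br (Nat.shiftLeft (nat_lit 0xc01404005) (nat_lit 66)) (.one (nat_lit 0x3005010013000600a020027500)) (.one (nat_lit 0x3005010014000600a020029500)))) (.br (Nat.shiftLeft (nat_lit 0x3005011013) (nat_lit 64)) (.one (nat_lit 0x3005011012000600a022025500)) (.br (Nat.shiftLeft (nat_lit 0x1) (nat_lit 102)) (.one (nat_lit 0x3005011013000600a022027500)) (.one (nat_lit 0x4005010013000800a020027500))))) (.br (Nat.shiftLeft (nat_lit 0x1) (nat_lit 112)) (.br (Nat.shiftLeft (nat_lit 0x4005011) (nat_lit 76)) (.one (nat_lit 0x4005010014000800a020029500)) (.br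 (Nat.shiftLeft (nat_lit 0x4005011013) (nat_lit 64)) (.one (nat_lit 0x4005011012000800a022025500)) (.one (nat_lit 0x4005011013000800a022027500)))) (.br (Nat.shiftLeft (nat_lit 0x1000005011) (nat_lit 76)) (.br (Nat.shiftLeft (nat_lit 0x400001404005) (nat_lit 66)) (.one (nat_lit 0x1000005010013200000a020026411)) (.one (nat_lit 0x1000005010014200000a020028411))) (.br (Nat.shiftLeft (nat_lit 0x1000005011013) (nat_lit 64)) (.one (nat_lit 0x1000005011012200000a022024411)) (.one (nat_lit 0x1000005011013200000a022026411))))))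
def t95 : k95.all (jb2 57 fl b0) = true := by decide +kernel
noncomputable def k96 : KT := (.one (nat_lit 0x1002005010013200400a020026650))
def t96 : k96.all (jb2 57 fl b0) = true := by decide +kernel
noncomputable def k97 : KT := (.br (Nat.shiftLeft (nat_lit 0x1003) (nat_lit 100)) (.one (nat_lit 0x1002005011012200400a022024650)) (.one (nat_lit 0x1003005010013200600a020026650)))
def t97 : k97.all (jb2 57 fl b0) = true := by decide +kernel
noncomputable def k98 : KT := (.br (Nat.shiftLeft (nat_lit 0x1003005011) (nat_lit 76)) (.one (nat_lit 0x1003005010014200600a020028650)) (.one (nat_lit 0x1003005011012200600a022024650)))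
def t98 : k98.all (jb2 57 fl b0) = true := by decide +kernel
noncomputable def k99 : KT := (.br (Nat.shiftLeft (nat_lit 0x401) (nat_lit 102)) (.one (nat_lit 0x1003005011013200600a022026650)) (.br (Nat.shiftLeft (nat_lit 0x401001404005) (nat_lit 66)) (.one (nat_lit 0x1004005010013200800a020026650)) (.one (nat_lit 0x1004005010014200800a020028650))))
def t99 : k99.all (jb2 57 fl b0) = true := by decide +kernel
noncomputable def k100 : KT := (.br (Nat.shiftLeft (nat_lit 0x800001404005) (nat_lit 66)) (.br (Nat.shiftLeft (nat_lit 0x1004005011013) (nat_lit 64)) (.one (nat_lit 0x1004005011012200800a022024650)) (.br (Nat.shiftLeft (nat_lit 0x1) (nat_lit 113)) (.one (nat_lit 0x1004005011013200800a022026650)) (.one (nat_lit 0x2000005010013400000a020026411)))) (.br (Nat.shiftLeft (nat_lit 0x2000005011) (nat_lit 76)) (.one (nat_lit 0x2000005010014400000a020028411)) (.br (Nat.shiftLeft (nat_lit 0x2000005011013) (nat_lit 64)) (.one (nat_lit 0x2000005011012400000a022024411)) (.one (nat_lit 0x2000005011013400000a022026411)))))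
def t100 : k100.all (jb2 57 fl b0) = true := by decide +kernel
noncomputable def k101 : KT := (.br (Nat.shiftLeft (nat_lit 0x800c01404005) (nat_lit 66)) (.one (nat_lit 0x2003005010013400600a020026650)) (.one (nat_lit 0x2003005010014400600a020028650)))
def t101 : k101.all (jb2 57 fl b0) = true := by decide +kernel
noncomputable def k102 : KT := (.br (Nat.shiftLeft (nat_lit 0x2003005011013) (nat_lit 64)) (.one (nat_lit 0x2003005011012400600a022024650)) (.one (nat_lit 0x2003005011013400600a022026650)))
def t102 : k102.all (jb2 57 fl b0) = true := by decide +kernel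
noncomputable def k103 : KT := (.br (Nat.shiftLeft (nat_lit 0x801001404005) (nat_lit 66)) (.one (nat_lit 0x2004005010013400800a020026650)) (.one (nat_lit 0x2004005010014400800a020028650)))
def t103 : k103.all (jb2 57 fl b0) = true := by decide +kernel
noncomputable def k104 : KT := (.br (Nat.shiftLeft (nat_lit 0xc00001404005) (nat_lit 66)) (.br (Nat.shiftLeft (nat_lit 0x2004005011013) (nat_lit 64)) (.one (nat_lit 0x2004005011012400800a022024650)) (.br (Nat.shiftLeft (nat_lit 0x3) (nat_lit 112)) (.one (nat_lit 0x2004005011013400800a022026650)) (.one (nat_lit 0x3000005010013600000a020026411)))) (.br (Nat.shiftLeft (nat_lit 0x3000005011) (nat_lit 76)) (.one (nat_lit 0x3000005010014600000a020028411)) (.br (Nat.shiftLeft (nat_lit 0x3000005011013) (nat_lit 64)) (.one (nat_lit 0x3000005011012600000a022024411)) (.one (nat_lit 0x3000005011013600000a022026411)))))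
def t104 : k104.all (jb2 57 fl b0) = true := by decide +kernel
noncomputable def k105 : KT := (.br (Nat.shiftLeft (nat_lit 0xc01001404005) (nat_lit 66)) (.one (nat_lit 0x3004005010013600800a020026650)) (.one (nat_lit 0x3004005010014600800a020028650)))
def t105 : k105.all (jb2 57 fl b0) = true := by decide +kernel
noncomputable def k106 : KT := (.br (Nat.shiftLeft (nat_lit 0x5) (nat_lit 112)) (.br (Nat.shiftLeft (nat_lit 0x1000001404005) (nat_lit 66)) (.br (Nat.shiftLeft (nat_lit 0x3004005011013) (nat_lit 64)) (.one (nat_lit 0x3004005011012600800a022024650)) (.br (Nat.shiftLeft (nat_lit 0x1) (nat_lit 114)) (.one (nat_lit 0x3004005011013600800a022026650)) (.one (nat_lit 0x4000005010013800000a020026411)))) (.br (Nat.shiftLeft (nat_lit 0x4000005011) (nat_lit 76)) (.one (nat_lit 0x4000005010014800000a020028411)) (.br (Nat.shiftLeft (nat_lit 0x4000005011013) (nat_lit 64)) (.one (nat_lit 0x4000005011012800000a022024411)) (.one (nat_lit 0x4000005011013800000a022026411))))) (.br (Nat.shiftLeft (nat_lit 0x5000005011013)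 (nat_lit 64)) (.br (Nat.shiftLeft (nat_lit 0x1400001404005) (nat_lit 66)) (.one (nat_lit 0x5000005010013a00000a020026411)) (.br (Nat.shiftLeft (nat_lit 0x5000005011) (nat_lit 76)) (.one (nat_lit 0x5000005010014a00000a020028411)) (.one (nat_lit 0x5000005011012a00000a022024411)))) (.br (Nat.shiftLeft (nat_lit 0x1800001404005) (nat_lit 66)) (.br (Nat.shiftLeft (nat_lit 0x3) (nat_lit 113)) (.one (nat_lit 0x5000005011013a00000a022026411)) (.one (nat_lit 0x6000005010013c00000a020026411))) (.br (Nat.shiftLeft (nat_lit 0x6000005011) (nat_lit 76)) (.one (nat_lit 0x6000005010014c00000a020028411)) (.one (nat_lit 0x6000005011012c00000a022024411))))))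
def t106 : k106.all (jb2 57 fl b0) = true := by decide +kernel
noncomputable def k107 : KT := (.br (Nat.shiftLeft (nat_lit 0xb000005011013) (nat_lit 64)) (.br (Nat.shiftLeft (nat_lit 0x2400001404005) (nat_lit 66)) (.br (Nat.shiftLeft (nat_lit 0x1) (nat_lit 115)) (.br (Nat.shiftLeft (nat_lit 0x1c00001404005) (nat_lit 66)) (.br (Nat.shiftLeft (nat_lit 0x7) (nat_lit 112)) (.one (nat_lit 0x6000005011013c00000a022026411)) (.one (nat_lit 0x7000005010013e00000a020026411))) (.br (Nat.shiftLeft (nat_lit 0x7000005011) (nat_lit 76)) (.one (nat_lit 0x7000005010014e00000a020028411)) (.br (Nat.shiftLeft (nat_lit 0x7000005011013) (nat_lit 64)) (.one (nat_lit 0x7000005011012e00000a022024411)) (.one (nat_lit 0x7000005011013e00000a022026411))))) (.br (Nat.shiftLeft (nat_lit 0x8000005011) (nat_lit 76)) (.br (Nat.shiftLeft (nat_lit 0x2000001404005) (nat_lit 66)) (.one (nat_lit 0x8000005010013000000a020128411)) (.one (nat_lit 0x8000005010014000000a02012a411))) (.br (Nat.shiftLeft (nat_lit 0x8000005011013) (nat_lit 64)) (.one (nat_lit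 0x8000005011012000000a022126411)) (.br (Nat.shiftLeft (nat_lit 0x9) (nat_lit 112)) (.one (nat_lit 0x8000005011013000000a022128411)) (.one (nat_lit 0x9000005010013200000a020128411)))))) (.br (Nat.shiftLeft (nat_lit 0xa000005011) (nat_lit 76)) (.br (Nat.shiftLeft (nat_lit 0x9000005011013) (nat_lit 64)) (.br (Nat.shiftLeft (nat_lit 0x9000005011) (nat_lit 76)) (.one (nat_lit 0x9000005010014200000a02012a411)) (.one (nat_lit 0x9000005011012200000a022126411))) (.br (Nat.shiftLeft (nat_lit 0x5) (nat_lit 113)) (.one (nat_lit 0x9000005011013200000a022128411)) (.br (Nat.shiftLeft (nat_lit 0x2800001404005) (nat_lit 66)) (.one (nat_lit 0xa000005010013400000a020128411)) (.one (nat_lit 0xa000005010014400000a02012a411))))) (.br (Nat.shiftLeft (nat_lit 0xb) (nat_lit 112)) (.br (Nat.shiftLeft (nat_lit 0xa000005011013) (nat_lit 64)) (.one (nat_lit 0xa000005011012400000a022126411)) (.one (nat_lit 0xa000005011013400000a022128411))) (.br (Nat.shiftLeft (nat_lit 0x2c00001404005) (nat_lit 66)) (.one (nat_lit 0xb000005010013600000a020128411))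 (.br (Nat.shiftLeft (nat_lit 0xb000005011) (nat_lit 76)) (.one (nat_lit 0xb000005010014600000a02012a411)) (.one (nat_lit 0xb000005011012600000a022126411))))))) (.br (Nat.shiftLeft (nat_lit 0x3800001404005) (nat_lit 66)) (.br (Nat.shiftLeft (nat_lit 0xd) (nat_lit 112)) (.br (Nat.shiftLeft (nat_lit 0x3000001404005) (nat_lit 66)) (.br (Nat.shiftLeft (nat_lit 0x3) (nat_lit 114)) (.one (nat_lit 0xb000005011013600000a022128411)) (.one (nat_lit 0xc000005010013800000a020128411))) (.br (Nat.shiftLeft (nat_lit 0xc000005011) (nat_lit 76)) (.one (nat_lit 0xc000005010014800000a02012a411)) (.br (Nat.shiftLeft (nat_lit 0xc000005011013) (nat_lit 64)) (.one (nat_lit 0xc000005011012800000a022126411)) (.one (nat_lit 0xc000005011013800000a022128411))))) (.br (Nat.shiftLeft (nat_lit 0xd000005011) (nat_lit 76)) (.br (Nat.shiftLeft (nat_lit 0x3400001404005) (nat_lit 66)) (.one (nat_lit 0xd000005010013a00000a020128411)) (.one (nat_lit 0xd000005010014a00000a02012a411))) (.br (Nat.shiftLeft (nat_lit 0xd000005011013) (nat_lit 64)) (.one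 (nat_lit 0xd000005011012a00000a022126411)) (.br (Nat.shiftLeft (nat_lit 0x7) (nat_lit 113)) (.one (nat_lit 0xd000005011013a00000a022128411)) (.one (nat_lit 0xe000005010013c00000a020128411)))))) (.br (Nat.shiftLeft (nat_lit 0xf000005011) (nat_lit 76)) (.br (Nat.shiftLeft (nat_lit 0xe000005011013) (nat_lit 64)) (.br (Nat.shiftLeft (nat_lit 0xe000005011) (nat_lit 76)) (.one (nat_lit 0xe000005010014c00000a02012a411)) (.one (nat_lit 0xe000005011012c00000a022126411))) (.br (Nat.shiftLeft (nat_lit 0xf) (nat_lit 112)) (.one (nat_lit 0xe000005011013c00000a022128411)) (.br (Nat.shiftLeft (nat_lit 0x3c00001404005) (nat_lit 66)) (.one (nat_lit 0xf000005010013e00000a020128411)) (.one (nat_lit 0xf000005010014e00000a02012a411))))) (.br (Nat.shiftLeft (nat_lit 0x1) (nat_lit 116)) (.br (Nat.shiftLeft (nat_lit 0xf000005011013) (nat_lit 64)) (.one (nat_lit 0xf000005011012e00000a022126411)) (.one (nat_lit 0xf000005011013e00000a022128411))) (.br (Nat.shiftLeft (nat_lit 0x4000001404005) (nat_lit 66)) (.one (nat_lit 0x10000005010013000000a02022a411))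 (.br (Nat.shiftLeft (nat_lit 0x10000005011) (nat_lit 76)) (.one (nat_lit 0x10000005010014000000a02022c411)) (.one (nat_lit 0x10000005011012000000a022228411))))))))
def t107 : k107.all (jb2 57 fl b0) = true := by decide +kernel
noncomputable def k108 : KT := (.br (Nat.shiftLeft (nat_lit 0x2000004005011) (nat_lit 76)) (.br (Nat.shiftLeft (nat_lit 0x1000004005011) (nat_lit 76)) (.br (Nat.shiftLeft (nat_lit 0x400000c01404005) (nat_lit 66)) (.br (Nat.shiftLeft (nat_lit 0x1) (nat_lit 124)) (.br (Nat.shiftLeft (nat_lit 0x11) (nat_lit 112)) (.one (nat_lit 0x10000005011013000000a02222a411)) (.one (nat_lit 0x11000005011012200000a022228411))) (.br (Nat.shiftLeft (nat_lit 0x1000002005011) (nat_lit 76)) (.one (nat_lit 0x1000002005010013000400a040426511)) (.br (Nat.shiftLeft (nat_lit 0x1000003) (nat_lit 100)) (.one (nat_lit 0x1000002005011012000400a042424511)) (.one (nat_lit 0x1000003005010013000600a040426511))))) (.br (Nat.shiftLeft (nat_lit 0x1000003005011013) (nat_lit 64)) (.br (Nat.shiftLeft (nat_lit 0x1000003005011)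 (nat_lit 76)) (.one (nat_lit 0x1000003005010014000600a040428511)) (.one (nat_lit 0x1000003005011012000600a042424511))) (.br (Nat.shiftLeft (nat_lit 0x400001) (nat_lit 102)) (.one (nat_lit 0x1000003005011013000600a042426511)) (.br (Nat.shiftLeft (nat_lit 0x400001001404005) (nat_lit 66)) (.one (nat_lit 0x1000004005010013000800a040426511)) (.one (nat_lit 0x1000004005010014000800a040428511)))))) (.br (Nat.shiftLeft (nat_lit 0x800000c01404005) (nat_lit 66)) (.br (Nat.shiftLeft (nat_lit 0x1) (nat_lit 125)) (.br (Nat.shiftLeft (nat_lit 0x1000004005011013) (nat_lit 64)) (.one (nat_lit 0x1000004005011012000800a042424511)) (.one (nat_lit 0x1000004005011013000800a042426511))) (.br (Nat.shiftLeft (nat_lit 0x2000002005011) (nat_lit 76)) (.one (nat_lit 0x2000002005010013000400a060826511)) (.br (Nat.shiftLeft (nat_lit 0x2000003) (nat_lit 100)) (.one (nat_lit 0x2000002005011012000400a062824511)) (.one (nat_lit 0x2000003005010013000600a060826511))))) (.br (Nat.shiftLeft (nat_lit 0x2000003005011013) (nat_lit 64)) (.br (Nat.shiftLeft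 (nat_lit 0x2000003005011) (nat_lit 76)) (.one (nat_lit 0x2000003005010014000600a060828511)) (.one (nat_lit 0x2000003005011012000600a062824511))) (.br (Nat.shiftLeft (nat_lit 0x800001) (nat_lit 102)) (.one (nat_lit 0x2000003005011013000600a062826511)) (.br (Nat.shiftLeft (nat_lit 0x800001001404005) (nat_lit 66)) (.one (nat_lit 0x2000004005010013000800a060826511)) (.one (nat_lit 0x2000004005010014000800a060828511))))))) (.br (Nat.shiftLeft (nat_lit 0x3000004005011) (nat_lit 76)) (.br (Nat.shiftLeft (nat_lit 0xc00000c01404005) (nat_lit 66)) (.br (Nat.shiftLeft (nat_lit 0x3) (nat_lit 124)) (.br (Nat.shiftLeft (nat_lit 0x2000004005011013) (nat_lit 64)) (.one (nat_lit 0x2000004005011012000800a062824511)) (.one (nat_lit 0x2000004005011013000800a062826511))) (.br (Nat.shiftLeft (nat_lit 0x3000002005011) (nat_lit 76)) (.one (nat_lit 0x3000002005010013000400a080c26511)) (.br (Nat.shiftLeft (nat_lit 0x3000003) (nat_lit 100)) (.one (nat_lit 0x3000002005011012000400a082c24511)) (.one (nat_lit 0x3000003005010013000600a080c26511)))))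 (.br (Nat.shiftLeft (nat_lit 0x3000003005011013) (nat_lit 64)) (.br (Nat.shiftLeft (nat_lit 0x3000003005011) (nat_lit 76)) (.one (nat_lit 0x3000003005010014000600a080c28511)) (.one (nat_lit 0x3000003005011012000600a082c24511))) (.br (Nat.shiftLeft (nat_lit 0xc00001) (nat_lit 102)) (.one (nat_lit 0x3000003005011013000600a082c26511)) (.br (Nat.shiftLeft (nat_lit 0xc00001001404005) (nat_lit 66)) (.one (nat_lit 0x3000004005010013000800a080c26511)) (.one (nat_lit 0x3000004005010014000800a080c28511)))))) (.br (Nat.shiftLeft (nat_lit 0x1000000c01404005) (nat_lit 66)) (.br (Nat.shiftLeft (nat_lit 0x1) (nat_lit 126)) (.br (Nat.shiftLeft (nat_lit 0x3000004005011013) (nat_lit 64)) (.one (nat_lit 0x3000004005011012000800a082c24511)) (.one (nat_lit 0x3000004005011013000800a082c26511))) (.br (Nat.shiftLeft (nat_lit 0x4000002005011) (nat_lit 76)) (.one (nat_lit 0x4000002005010013000400a0a1026511)) (.br (Nat.shiftLeft (nat_lit 0x4000003) (nat_lit 100)) (.one (nat_lit 0x4000002005011012000400a0a3024511)) (.one (nat_lit 0x4000003005010013000600a0a1026511)))))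 (.br (Nat.shiftLeft (nat_lit 0x4000003005011013) (nat_lit 64)) (.br (Nat.shiftLeft (nat_lit 0x4000003005011) (nat_lit 76)) (.one (nat_lit 0x4000003005010014000600a0a1028511)) (.one (nat_lit 0x4000003005011012000600a0a3024511))) (.br (Nat.shiftLeft (nat_lit 0x1000001) (nat_lit 102)) (.one (nat_lit 0x4000003005011013000600a0a3026511)) (.br (Nat.shiftLeft (nat_lit 0x1000001001404005) (nat_lit 66)) (.one (nat_lit 0x4000004005010013000800a0a1026511)) (.one (nat_lit 0x4000004005010014000800a0a1028511))))))))
def t108 : k108.all (jb2 57 fl b0) = true := by decide +kernel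
noncomputable def k109 : KT := (.br (Nat.shiftLeft (nat_lit 0x5000003005011) (nat_lit 76)) (.br (Nat.shiftLeft (nat_lit 0x5000002005011) (nat_lit 76)) (.br (Nat.shiftLeft (nat_lit 0x4000004005011013) (nat_lit 64)) (.one (nat_lit 0x4000004005011012000800a0a3024511)) (.br (Nat.shiftLeft (nat_lit 0x5) (nat_lit 124)) (.one (nat_lit 0x4000004005011013000800a0a3026511)) (.one (nat_lit 0x5000002005010013000400a0c1426511)))) (.br (Nat.shiftLeft (nat_lit 0x5000003) (nat_lit 100)) (.one (nat_lit 0x5000002005011012000400a0c3424511)) (.br (Nat.shiftLeft (nat_lit 0x1400000c01404005) (nat_lit 66)) (.one (nat_lit 0x5000003005010013000600a0c1426511)) (.one (nat_lit 0x5000003005010014000600a0c1428511))))) (.br (Nat.shiftLeft (nat_lit 0x1400001001404005) (nat_lit 66)) (.br (Nat.shiftLeft (nat_lit 0x5000003005011013) (nat_lit 64)) (.one (nat_lit 0x5000003005011012000600a0c3424511)) (.br (Nat.shiftLeft (nat_lit 0x1400001) (nat_lit 102)) (.one (nat_lit 0x5000003005011013000600a0c3426511)) (.one (nat_lit 0x5000004005010013000800a0c1426511))))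 (.br (Nat.shiftLeft (nat_lit 0x5000004005011) (nat_lit 76)) (.one (nat_lit 0x5000004005010014000800a0c1428511)) (.br (Nat.shiftLeft (nat_lit 0x5000004005011013) (nat_lit 64)) (.one (nat_lit 0x5000004005011012000800a0c3424511)) (.one (nat_lit 0x5000004005011013000800a0c3426511))))))
def t109 : k109.all (jb2 57 fl b0) = true := by decide +kernel
noncomputable def k110 : KT := (.br (Nat.shiftLeft (nat_lit 0x6000003005011013) (nat_lit 64)) (.br (Nat.shiftLeft (nat_lit 0x6000003) (nat_lit 100)) (.br (Nat.shiftLeft (nat_lit 0x6000002005011) (nat_lit 76)) (.one (nat_lit 0x6000002005010013000400a0e1826511)) (.one (nat_lit 0x6000002005011012000400a0e3824511))) (.br (Nat.shiftLeft (nat_lit 0x1800000c01404005) (nat_lit 66)) (.one (nat_lit 0x6000003005010013000600a0e1826511)) (.br (Nat.shiftLeft (nat_lit 0x6000003005011) (nat_lit 76)) (.one (nat_lit 0x6000003005010014000600a0e1828511)) (.one (nat_lit 0x6000003005011012000600a0e3824511))))) (.br (Nat.shiftLeft (nat_lit 0x6000004005011) (nat_lit 76)) (.br (Nat.shiftLeft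 (nat_lit 0x1800001) (nat_lit 102)) (.one (nat_lit 0x6000003005011013000600a0e3826511)) (.br (Nat.shiftLeft (nat_lit 0x1800001001404005) (nat_lit 66)) (.one (nat_lit 0x6000004005010013000800a0e1826511)) (.one (nat_lit 0x6000004005010014000800a0e1828511)))) (.br (Nat.shiftLeft (nat_lit 0x6000004005011013) (nat_lit 64)) (.one (nat_lit 0x6000004005011012000800a0e3824511)) (.br (Nat.shiftLeft (nat_lit 0x7) (nat_lit 124)) (.one (nat_lit 0x6000004005011013000800a0e3826511)) (.one (nat_lit 0x7000002005010013000400a101c26511))))))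
def t110 : k110.all (jb2 57 fl b0) = true := by decide +kernel
noncomputable def k111 : KT := (.br (Nat.shiftLeft (nat_lit 0x1) (nat_lit 127)) (.br (Nat.shiftLeft (nat_lit 0x7000003005011013) (nat_lit 64)) (.br (Nat.shiftLeft (nat_lit 0x1c00000c01404005) (nat_lit 66)) (.br (Nat.shiftLeft (nat_lit 0x7000003) (nat_lit 100)) (.one (nat_lit 0x7000002005011012000400a103c24511)) (.one (nat_lit 0x7000003005010013000600a101c26511))) (.br (Nat.shiftLeft (nat_lit 0x7000003005011) (nat_lit 76)) (.one (nat_lit 0x7000003005010014000600a101c28511)) (.one (nat_lit 0x7000003005011012000600a103c24511)))) (.br (Nat.shiftLeft (nat_lit 0x1c00001001404005) (nat_lit 66)) (.br (Nat.shiftLeft (nat_lit 0x1c00001) (nat_lit 102)) (.one (nat_lit 0x7000003005011013000600a103c26511)) (.one (nat_lit 0x7000004005010013000800a101c26511))) (.br (Nat.shiftLeft (nat_lit 0x7000004005011) (nat_lit 76)) (.one (nat_lit 0x7000004005010014000800a101c28511)) (.br (Nat.shiftLeft (nat_lit 0x7000004005011013) (nat_lit 64)) (.one (nat_lit 0x7000004005011012000800a103c24511))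 (.one (nat_lit 0x7000004005011013000800a103c26511)))))) (.br (Nat.shiftLeft (nat_lit 0x8000003005011013) (nat_lit 64)) (.br (Nat.shiftLeft (nat_lit 0x8000003) (nat_lit 100)) (.br (Nat.shiftLeft (nat_lit 0x8000002005011) (nat_lit 76)) (.one (nat_lit 0x8000002005010013000400a122026511)) (.one (nat_lit 0x8000002005011012000400a124024511))) (.br (Nat.shiftLeft (nat_lit 0x2000000c01404005) (nat_lit 66)) (.one (nat_lit 0x8000003005010013000600a122026511)) (.br (Nat.shiftLeft (nat_lit 0x8000003005011) (nat_lit 76)) (.one (nat_lit 0x8000003005010014000600a122028511)) (.one (nat_lit 0x8000003005011012000600a124024511))))) (.br (Nat.shiftLeft (nat_lit 0x2000001001404005) (nat_lit 66)) (.br (Nat.shiftLeft (nat_lit 0x2000001) (nat_lit 102)) (.one (nat_lit 0x8000003005011013000600a124026511)) (.one (nat_lit 0x8000004005010013000800a122026511))) (.br (Nat.shiftLeft (nat_lit 0x8000004005011) (nat_lit 76)) (.one (nat_lit 0x8000004005010014000800a122028511)) (.br (Nat.shiftLeft (nat_lit 0x8000004005011013) (nat_lit 64)) (.one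 (nat_lit 0x8000004005011012000800a124024511)) (.one (nat_lit 0x8000004005011013000800a124026511)))))))
def t111 : k111.all (jb2 57 fl b0) = true := by decide +kernel
noncomputable def k112 : KT := (.br (Nat.shiftLeft (nat_lit 0xb) (nat_lit 124)) (.br (Nat.shiftLeft (nat_lit 0x5) (nat_lit 125)) (.br (Nat.shiftLeft (nat_lit 0x9000003005011013) (nat_lit 64)) (.br (Nat.shiftLeft (nat_lit 0x9000003) (nat_lit 100)) (.br (Nat.shiftLeft (nat_lit 0x9000002005011) (nat_lit 76)) (.one (nat_lit 0x9000002005010013000400a142426511)) (.one (nat_lit 0x9000002005011012000400a144424511))) (.br (Nat.shiftLeft (nat_lit 0x2400000c01404005) (nat_lit 66)) (.one (nat_lit 0x9000003005010013000600a142426511)) (.br (Nat.shiftLeft (nat_lit 0x9000003005011) (nat_lit 76)) (.one (nat_lit 0x9000003005010014000600a142428511)) (.one (nat_lit 0x9000003005011012000600a144424511))))) (.br (Nat.shiftLeft (nat_lit 0x2400001001404005) (nat_lit 66)) (.br (Nat.shiftLeft (nat_lit 0x2400001) (nat_lit 102)) (.one (nat_lit 0x9000003005011013000600a144426511))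 (.one (nat_lit 0x9000004005010013000800a142426511))) (.br (Nat.shiftLeft (nat_lit 0x9000004005011) (nat_lit 76)) (.one (nat_lit 0x9000004005010014000800a142428511)) (.br (Nat.shiftLeft (nat_lit 0x9000004005011013) (nat_lit 64)) (.one (nat_lit 0x9000004005011012000800a144424511)) (.one (nat_lit 0x9000004005011013000800a144426511)))))) (.br (Nat.shiftLeft (nat_lit 0xa000003005011013) (nat_lit 64)) (.br (Nat.shiftLeft (nat_lit 0xa000003) (nat_lit 100)) (.br (Nat.shiftLeft (nat_lit 0xa000002005011) (nat_lit 76)) (.one (nat_lit 0xa000002005010013000400a162826511)) (.one (nat_lit 0xa000002005011012000400a164824511))) (.br (Nat.shiftLeft (nat_lit 0x2800000c01404005) (nat_lit 66)) (.one (nat_lit 0xa000003005010013000600a162826511)) (.br (Nat.shiftLeft (nat_lit 0xa000003005011) (nat_lit 76)) (.one (nat_lit 0xa000003005010014000600a162828511)) (.one (nat_lit 0xa000003005011012000600a164824511))))) (.br (Nat.shiftLeft (nat_lit 0x2800001001404005) (nat_lit 66)) (.br (Nat.shiftLeft (nat_lit 0x2800001) (nat_lit 102)) (.one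 (nat_lit 0xa000003005011013000600a164826511)) (.one (nat_lit 0xa000004005010013000800a162826511))) (.br (Nat.shiftLeft (nat_lit 0xa000004005011) (nat_lit 76)) (.one (nat_lit 0xa000004005010014000800a162828511)) (.br (Nat.shiftLeft (nat_lit 0xa000004005011013) (nat_lit 64)) (.one (nat_lit 0xa000004005011012000800a164824511)) (.one (nat_lit 0xa000004005011013000800a164826511))))))) (.br (Nat.shiftLeft (nat_lit 0x3) (nat_lit 126)) (.br (Nat.shiftLeft (nat_lit 0xb000003005011013) (nat_lit 64)) (.br (Nat.shiftLeft (nat_lit 0xb000003) (nat_lit 100)) (.br (Nat.shiftLeft (nat_lit 0xb000002005011) (nat_lit 76)) (.one (nat_lit 0xb000002005010013000400a182c26511)) (.one (nat_lit 0xb000002005011012000400a184c24511))) (.br (Nat.shiftLeft (nat_lit 0x2c00000c01404005) (nat_lit 66)) (.one (nat_lit 0xb000003005010013000600a182c26511)) (.br (Nat.shiftLeft (nat_lit 0xb000003005011) (nat_lit 76)) (.one (nat_lit 0xb000003005010014000600a182c28511)) (.one (nat_lit 0xb000003005011012000600a184c24511))))) (.br (Nat.shiftLeft (nat_lit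 0x2c00001001404005) (nat_lit 66)) (.br (Nat.shiftLeft (nat_lit 0x2c00001) (nat_lit 102)) (.one (nat_lit 0xb000003005011013000600a184c26511)) (.one (nat_lit 0xb000004005010013000800a182c26511))) (.br (Nat.shiftLeft (nat_lit 0xb000004005011) (nat_lit 76)) (.one (nat_lit 0xb000004005010014000800a182c28511)) (.br (Nat.shiftLeft (nat_lit 0xb000004005011013) (nat_lit 64)) (.one (nat_lit 0xb000004005011012000800a184c24511)) (.one (nat_lit 0xb000004005011013000800a184c26511)))))) (.br (Nat.shiftLeft (nat_lit 0xc000003005011013) (nat_lit 64)) (.br (Nat.shiftLeft (nat_lit 0xc000003) (nat_lit 100)) (.br (Nat.shiftLeft (nat_lit 0xc000002005011) (nat_lit 76)) (.one (nat_lit 0xc000002005010013000400a1a3026511)) (.one (nat_lit 0xc000002005011012000400a1a5024511))) (.br (Nat.shiftLeft (nat_lit 0x3000000c01404005) (nat_lit 66)) (.one (nat_lit 0xc000003005010013000600a1a3026511)) (.br (Nat.shiftLeft (nat_lit 0xc000003005011) (nat_lit 76)) (.one (nat_lit 0xc000003005010014000600a1a3028511)) (.one (nat_lit 0xc000003005011012000600a1a5024511)))))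 (.br (Nat.shiftLeft (nat_lit 0x3000001001404005) (nat_lit 66)) (.br (Nat.shiftLeft (nat_lit 0x3000001) (nat_lit 102)) (.one (nat_lit 0xc000003005011013000600a1a5026511)) (.one (nat_lit 0xc000004005010013000800a1a3026511))) (.br (Nat.shiftLeft (nat_lit 0xc000004005011) (nat_lit 76)) (.one (nat_lit 0xc000004005010014000800a1a3028511)) (.br (Nat.shiftLeft (nat_lit 0xc000004005011013) (nat_lit 64)) (.one (nat_lit 0xc000004005011012000800a1a5024511)) (.one (nat_lit 0xc000004005011013000800a1a5026511))))))))
def t112 : k112.all (jb2 57 fl b0) = true := by decide +kernel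
noncomputable def k113 : KT := (.br (Nat.shiftLeft (nat_lit 0xd000004005011) (nat_lit 76)) (.br (Nat.shiftLeft (nat_lit 0x3400000c01404005) (nat_lit 66)) (.br (Nat.shiftLeft (nat_lit 0xd000002005011) (nat_lit 76)) (.one (nat_lit 0xd000002005010013000400a1c3426511)) (.br (Nat.shiftLeft (nat_lit 0xd000003) (nat_lit 100)) (.one (nat_lit 0xd000002005011012000400a1c5424511)) (.one (nat_lit 0xd000003005010013000600a1c3426511)))) (.br (Nat.shiftLeft (nat_lit 0xd000003005011013) (nat_lit 64)) (.br (Nat.shiftLeft (nat_lit 0xd000003005011) (nat_lit 76)) (.one (nat_lit 0xd000003005010014000600a1c3428511)) (.one (nat_lit 0xd000003005011012000600a1c5424511))) (.br (Nat.shiftLeft (nat_lit 0x3400001) (nat_lit 102)) (.one (nat_lit 0xd000003005011013000600a1c5426511)) (.one (nat_lit 0xd000004005010013000800a1c3426511))))) (.br (Nat.shiftLeft (nat_lit 0xe000003) (nat_lit 100)) (.br (Nat.shiftLeft (nat_lit 0x7) (nat_lit 125)) (.one (nat_lit 0xd000004005011012000800a1c5424511)) (.br (Nat.shiftLeft (nat_lit 0xe000002005011) (nat_lit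 76)) (.one (nat_lit 0xe000002005010013000400a1e3826511)) (.one (nat_lit 0xe000002005011012000400a1e5824511)))) (.br (Nat.shiftLeft (nat_lit 0xf) (nat_lit 124)) (.br (Nat.shiftLeft (nat_lit 0xe000003005011) (nat_lit 76)) (.one (nat_lit 0xe000003005010013000600a1e3826511)) (.one (nat_lit 0xe000003005011012000600a1e5824511))) (.br (Nat.shiftLeft (nat_lit 0xf000002005011) (nat_lit 76)) (.one (nat_lit 0xf000002005010013000400a203c26511)) (.one (nat_lit 0xf000002005011012000400a205c24511))))))
def t113 : k113.all (jb2 57 fl b0) = true := by decide +kernel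
noncomputable def s5 : KT := (.br (nat_lit 0x2003005010014400600a020028650) (.br (nat_lit 0x1000005011013200000a022026411) (.br (nat_lit 0x1005011012000200a022024540) (.br (nat_lit 0x1005010013000200a020026540) k90 (.br (nat_lit 0x1005010014000200a020028540) k91 k92)) (.br (nat_lit 0x2005010013000400a020027500) k93 (.br (nat_lit 0x2005011012000400a022025500) k94 k95))) (.br (nat_lit 0x1003005011012200600a022024650) (.br (nat_lit 0x1002005010013200400a020026650) k96 (.br (nat_lit 0x1003005010013200600a020026650) k97 k98)) (.br (nat_lit 0x1004005010014200800a020028650) k99 (.br (nat_lit 0x2000005011013400000a022026411) k100 k101)))) (.br (nat_lit 0x10000005011012000000a022228411) (.br (nat_lit 0x3000005011013600000a022026411) (.br (nat_lit 0x2003005011013400600a022026650) k102 (.br (nat_lit 0x2004005010014400800a020028650) k103 k104)) (.br (nat_lit 0x3004005010014600800a020028650) k105 (.br (nat_lit 0x6000005011012c00000a022024411) k106 k107))) (.br (nat_lit 0x7000002005010013000400a101c26511) (.br (nat_lit 0x4000004005010014000800a0a1028511)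 k108 (.br (nat_lit 0x5000004005011013000800a0c3426511) k109 k110)) (.br (nat_lit 0x8000004005011013000800a124026511) k111 (.br (nat_lit 0xc000004005011013000800a1a5026511) k112 k113)))))
noncomputable def u5 : KT := (.br (Nat.shiftLeft (nat_lit 0x5011013) (nat_lit 64)) (.br (Nat.shiftLeft (nat_lit 0x1404005) (nat_lit 66)) (.one (nat_lit 0x5010013000000a020026430)) (.br (Nat.shiftLeft (nat_lit 0x5011) (nat_lit 76)) (.one (nat_lit 0x5010014000000a020028430)) (.one (nat_lit 0x5011012000000a022024430)))) (.br (Nat.shiftLeft (nat_lit 0x1801c05) (nat_lit 66)) (.br (Nat.shiftLeft (nat_lit 0x3) (nat_lit 89)) (.one (nat_lit 0x5011013000000a022026430)) (.one (nat_lit 0x6007013000000c00e027400))) (.br (Nat.shiftLeft (nat_lit 0x6007015) (nat_lit 64)) (.one (nat_lit 0x6007014000000c00e029400)) (.one (nat_lit 0x6007015000000c00e02b400)))))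
def w5 : u5.all (wj 57 s5) = true := by decide +kernel
def o5 : OkW 57 (jb2 57 fl) u5 := .lift s5 _ (.br _ _ _ (.br _ _ _ (.br _ _ _ (.br _ _ _ (.leaf b0 k90 t90) (.br _ _ _ (.leaf b0 k91 t91) (.leaf b0 k92 t92))) (.br _ _ _ (.leaf b0 k93 t93) (.br _ _ _ (.leaf b0 k94 t94) (.leaf b0 k95 t95)))) (.br _ _ _ (.br _ _ _ (.leaf b0 k96 t96) (.br _ _ _ (.leaf b0 k97 t97) (.leaf b0 k98 t98))) (.br _ _ _ (.leaf b0 k99 t99) (.br _ _ _ (.leaf b0 k100 t100) (.leaf b0 k101 t101))))) (.br _ _ _ (.br _ _ _ (.br _ _ _ (.leaf b0 k102 t102) (.br _ _ _ (.leaf b0 k103 t103) (.leaf b0 k104 t104))) (.br _ _ _ (.leaf b0 k105 t105) (.br _ _ _ (.leaf b0 k106 t106) (.leaf b0 k107 t107)))) (.br _ _ _ (.br _ _ _ (.leaf b0 k108 t108) (.br _ _ _ (.leaf b0 k109 t109) (.leaf b0 k110 t110))) (.br _ _ _ (.leaf b0 k111 t111) (.br _ _ _ (.leaf b0 k112 t112) (.leaf b0 k113 t113)))))) w5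
noncomputable def k114 : KT := (.br (Nat.shiftLeft (nat_lit 0x1) (nat_lit 102)) (.br (Nat.shiftLeft (nat_lit 0x1) (nat_lit 101)) (.br (Nat.shiftLeft (nat_lit 0x1) (nat_lit 100)) (.one (nat_lit 0x6007016000000c00e02d400)) (.one (nat_lit 0x1006007016000200c00e02c540))) (.br (Nat.shiftLeft (nat_lit 0x3) (nat_lit 100)) (.one (nat_lit 0x2006007016000400c00e02d500)) (.one (nat_lit 0x3006007016000600c00e02d500)))) (.br (Nat.shiftLeft (nat_lit 0x1) (nat_lit 112)) (.br (Nat.shiftLeft (nat_lit 0x5) (nat_lit 100)) (.one (nat_lit 0x4006007016000800c00e02d500)) (.one (nat_lit 0x5006007016000a00c00e02d500))) (.br (Nat.shiftLeft (nat_lit 0x801) (nat_lit 101)) (.one (nat_lit 0x1000006007016200000c00e02c411)) (.br (Nat.shiftLeft (nat_lit 0x1003) (nat_lit 100)) (.one (nat_lit 0x1002006007016200400c00e02d600)) (.one (nat_lit 0x1003006007016200600c00e02d600))))))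
def t114 : k114.all (jb2 57 fl b0) = true := by decide +kernel
noncomputable def k115 : KT := (.one (nat_lit 0x1004006007016200800c00e02c650))
def t115 : k115.all (jb2 57 fl b0) = true := by decide +kernel
noncomputable def k116 : KT := (.br (Nat.shiftLeft (nat_lit 0x1) (nat_lit 114)) (.br (Nat.shiftLeft (nat_lit 0x2005) (nat_lit 100)) (.br (Nat.shiftLeft (nat_lit 0x1001) (nat_lit 101)) (.br (Nat.shiftLeft (nat_lit 0x1) (nat_lit 113)) (.one (nat_lit 0x1005006007016200a00c00e02c650)) (.one (nat_lit 0x2000006007016400000c00e02c411))) (.br (Nat.shiftLeft (nat_lit 0x801) (nat_lit 102)) (.one (nat_lit 0x2003006007016400600c00e02d600)) (.one (nat_lit 0x2004006007016400800c00e02d600)))) (.br (Nat.shiftLeft (nat_lit 0xc01) (nat_lit 102)) (.br (Nat.shiftLeft (nat_lit 0x3) (nat_lit 112)) (.one (nat_lit 0x2005006007016400a00c00e02d600)) (.one (nat_lit 0x3000006007016600000c00e02c411))) (.br (Nat.shiftLeft (nat_lit 0x3005) (nat_lit 100)) (.one (nat_lit 0x3004006007016600800c00e02d600)) (.one (nat_lit 0x3005006007016600a00c00e02d600)))))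 (.br (Nat.shiftLeft (nat_lit 0x7) (nat_lit 112)) (.br (Nat.shiftLeft (nat_lit 0x5) (nat_lit 112)) (.br (Nat.shiftLeft (nat_lit 0x1001) (nat_lit 102)) (.one (nat_lit 0x4000006007016800000c00e02c411)) (.one (nat_lit 0x4005006007016800a00c00e02d600))) (.br (Nat.shiftLeft (nat_lit 0x3) (nat_lit 113)) (.one (nat_lit 0x5000006007016a00000c00e02c411)) (.one (nat_lit 0x6000006007016c00000c00e02c411)))) (.br (Nat.shiftLeft (nat_lit 0x1000003) (nat_lit 100)) (.br (Nat.shiftLeft (nat_lit 0x1) (nat_lit 124)) (.one (nat_lit 0x7000006007016e00000c00e02c411)) (.one (nat_lit 0x1000002006007016000400c02e42c511))) (.br (Nat.shiftLeft (nat_lit 0x400001) (nat_lit 102)) (.one (nat_lit 0x1000003006007016000600c02e42c511)) (.br (Nat.shiftLeft (nat_lit 0x1000005) (nat_lit 100)) (.one (nat_lit 0x1000004006007016000800c02e42c511)) (.one (nat_lit 0x1000005006007016000a00c02e42c511)))))))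
def t116 : k116.all (jb2 57 fl b0) = true := by decide +kernel
noncomputable def k117 : KT := (.one (nat_lit 0x1002003006007016400600c02e42c760))
def t117 : k117.all (jb2 57 fl b0) = true := by decide +kernel
noncomputable def k118 : KT := (.one (nat_lit 0x1002004006007016400800c02e42c760))
def t118 : k118.all (jb2 57 fl b0) = true := by decide +kernel
noncomputable def k119 : KT := (.br (Nat.shiftLeft (nat_lit 0x1003) (nat_lit 112)) (.one (nat_lit 0x1002005006007016400a00c02e42c760)) (.one (nat_lit 0x1003004006007016600800c02e42c760)))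
def t119 : k119.all (jb2 57 fl b0) = true := by decide +kernel
noncomputable def k120 : KT := (.br (Nat.shiftLeft (nat_lit 0x2000003) (nat_lit 100)) (.br (Nat.shiftLeft (nat_lit 0x401) (nat_lit 114)) (.one (nat_lit 0x1003005006007016600a00c02e42c760)) (.br (Nat.shiftLeft (nat_lit 0x1) (nat_lit 125)) (.one (nat_lit 0x1004005006007016800a00c02e42c760)) (.one (nat_lit 0x2000002006007016000400c04e82c511)))) (.br (Nat.shiftLeft (nat_lit 0x800001) (nat_lit 102)) (.one (nat_lit 0x2000003006007016000600c04e82c511)) (.br (Nat.shiftLeft (nat_lit 0x2000005) (nat_lit 100)) (.one (nat_lit 0x2000004006007016000800c04e82c511)) (.one (nat_lit 0x2000005006007016000a00c04e82c511)))))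
def t120 : k120.all (jb2 57 fl b0) = true := by decide +kernel
noncomputable def k121 : KT := (.one (nat_lit 0x2003004006007016600800c04e82c760))
def t121 : k121.all (jb2 57 fl b0) = true := by decide +kernel
noncomputable def k122 : KT := (.br (Nat.shiftLeft (nat_lit 0x3000003) (nat_lit 100)) (.br (Nat.shiftLeft (nat_lit 0x801) (nat_lit 114)) (.one (nat_lit 0x2003005006007016600a00c04e82c760)) (.br (Nat.shiftLeft (nat_lit 0x3) (nat_lit 124)) (.one (nat_lit 0x2004005006007016800a00c04e82c760)) (.one (nat_lit 0x3000002006007016000400c06ec2c511)))) (.br (Nat.shiftLeft (nat_lit 0xc00001) (nat_lit 102)) (.one (nat_lit 0x3000003006007016000600c06ec2c511)) (.br (Nat.shiftLeft (nat_lit 0x3000005) (nat_lit 100)) (.one (nat_lit 0x3000004006007016000800c06ec2c511)) (.one (nat_lit 0x3000005006007016000a00c06ec2c511)))))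
def t122 : k122.all (jb2 57 fl b0) = true := by decide +kernel
noncomputable def k123 : KT := (.br (Nat.shiftLeft (nat_lit 0x1000001) (nat_lit 102)) (.br (Nat.shiftLeft (nat_lit 0x1) (nat_lit 126)) (.one (nat_lit 0x3004005006007016800a00c06ec2c760)) (.br (Nat.shiftLeft (nat_lit 0x4000003) (nat_lit 100)) (.one (nat_lit 0x4000002006007016000400c08f02c511)) (.one (nat_lit 0x4000003006007016000600c08f02c511)))) (.br (Nat.shiftLeft (nat_lit 0x5) (nat_lit 124)) (.br (Nat.shiftLeft (nat_lit 0x4000005) (nat_lit 100)) (.one (nat_lit 0x4000004006007016000800c08f02c511)) (.one (nat_lit 0x4000005006007016000a00c08f02c511))) (.br (Nat.shiftLeft (nat_lit 0x5000003) (nat_lit 100)) (.one (nat_lit 0x5000002006007016000400c0af42c511)) (.one (nat_lit 0x5000003006007016000600c0af42c511)))))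
def t123 : k123.all (jb2 57 fl b0) = true := by decide +kernel
noncomputable def k124 : KT := (.br (Nat.shiftLeft (nat_lit 0x3) (nat_lit 125)) (.br (Nat.shiftLeft (nat_lit 0x5000005) (nat_lit 100)) (.one (nat_lit 0x5000004006007016000800c0af42c511)) (.one (nat_lit 0x5000005006007016000a00c0af42c511))) (.br (Nat.shiftLeft (nat_lit 0x6000003) (nat_lit 100)) (.one (nat_lit 0x6000002006007016000400c0cf82c511)) (.one (nat_lit 0x6000003006007016000600c0cf82c511))))
def t124 : k124.all (jb2 57 fl b0) = true := by decide +kernel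
noncomputable def k125 : KT := (.br (Nat.shiftLeft (nat_lit 0x6000005) (nat_lit 100)) (.one (nat_lit 0x6000004006007016000800c0cf82c511)) (.br (Nat.shiftLeft (nat_lit 0x7) (nat_lit 124)) (.one (nat_lit 0x6000005006007016000a00c0cf82c511)) (.one (nat_lit 0x7000002006007016000400c0efc2c511))))
def t125 : k125.all (jb2 57 fl b0) = true := by decide +kernel
noncomputable def k126 : KT := (.br (Nat.shiftLeft (nat_lit 0x1000001) (nat_lit 113)) (.br (Nat.shiftLeft (nat_lit 0x400000801) (nat_lit 102)) (.br (Nat.shiftLeft (nat_lit 0x1) (nat_lit 136)) (.br (Nat.shiftLeft (nat_lit 0x1c00001) (nat_lit 102)) (.one (nat_lit 0x7000003006007016000600c0efc2c511)) (.br (Nat.shiftLeft (nat_lit 0x7000005) (nat_lit 100)) (.one (nat_lit 0x7000004006007016000800c0efc2c511)) (.one (nat_lit 0x7000005006007016000a00c0efc2c511)))) (.br (Nat.shiftLeft (nat_lit 0x1000001003) (nat_lit 100)) (.one (nat_lit 0x1000001002006007016200402c40e02c611)) (.br (Nat.shiftLeft (nat_lit 0x800001) (nat_lit 113)) (.one (nat_lit 0x1000001003006007016200602c40e02c611))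 (.one (nat_lit 0x1000002003006007016400602c40e02c611))))) (.br (Nat.shiftLeft (nat_lit 0x1000003005) (nat_lit 100)) (.br (Nat.shiftLeft (nat_lit 0x1000002005) (nat_lit 100)) (.one (nat_lit 0x1000002004006007016400802c40e02c611)) (.br (Nat.shiftLeft (nat_lit 0x1000003) (nat_lit 112)) (.one (nat_lit 0x1000002005006007016400a02c40e02c611)) (.one (nat_lit 0x1000003004006007016600802c40e02c611)))) (.br (Nat.shiftLeft (nat_lit 0x1) (nat_lit 137)) (.br (Nat.shiftLeft (nat_lit 0x400001) (nat_lit 114)) (.one (nat_lit 0x1000003005006007016600a02c40e02c611)) (.one (nat_lit 0x1000004005006007016800a02c40e02c611))) (.br (Nat.shiftLeft (nat_lit 0x2000001003) (nat_lit 100)) (.one (nat_lit 0x2000001002006007016200404c80e02c611)) (.one (nat_lit 0x2000001003006007016200604c80e02c611)))))) (.br (Nat.shiftLeft (nat_lit 0x3) (nat_lit 136)) (.br (Nat.shiftLeft (nat_lit 0x2000003) (nat_lit 112)) (.br (Nat.shiftLeft (nat_lit 0x800000801) (nat_lit 102)) (.one (nat_lit 0x2000002003006007016400604c80e02c611)) (.br (Nat.shiftLeft (nat_lit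 0x2000002005) (nat_lit 100)) (.one (nat_lit 0x2000002004006007016400804c80e02c611)) (.one (nat_lit 0x2000002005006007016400a04c80e02c611)))) (.br (Nat.shiftLeft (nat_lit 0x2000003005) (nat_lit 100)) (.one (nat_lit 0x2000003004006007016600804c80e02c611)) (.br (Nat.shiftLeft (nat_lit 0x800001) (nat_lit 114)) (.one (nat_lit 0x2000003005006007016600a04c80e02c611)) (.one (nat_lit 0x2000004005006007016800a04c80e02c611))))) (.br (Nat.shiftLeft (nat_lit 0xc00000801) (nat_lit 102)) (.br (Nat.shiftLeft (nat_lit 0x3000001003) (nat_lit 100)) (.one (nat_lit 0x3000001002006007016200406cc0e02c611)) (.br (Nat.shiftLeft (nat_lit 0x1800001) (nat_lit 113)) (.one (nat_lit 0x3000001003006007016200606cc0e02c611)) (.one (nat_lit 0x3000002003006007016400606cc0e02c611)))) (.br (Nat.shiftLeft (nat_lit 0x3000003) (nat_lit 112)) (.br (Nat.shiftLeft (nat_lit 0x3000002005) (nat_lit 100)) (.one (nat_lit 0x3000002004006007016400806cc0e02c611)) (.one (nat_lit 0x3000002005006007016400a06cc0e02c611))) (.br (Nat.shiftLeft (nat_lit 0x3000003005)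 (nat_lit 100)) (.one (nat_lit 0x3000003004006007016600806cc0e02c611)) (.one (nat_lit 0x3000003005006007016600a06cc0e02c611)))))))
def t126 : k126.all (jb2 57 fl b0) = true := by decide +kernel
noncomputable def k127 : KT := (.br (Nat.shiftLeft (nat_lit 0x4000002005) (nat_lit 100)) (.br (Nat.shiftLeft (nat_lit 0x4000001003) (nat_lit 100)) (.br (Nat.shiftLeft (nat_lit 0x1) (nat_lit 138)) (.one (nat_lit 0x3000004005006007016800a06cc0e02c611)) (.one (nat_lit 0x4000001002006007016200408d00e02c611))) (.br (Nat.shiftLeft (nat_lit 0x2000001) (nat_lit 113)) (.one (nat_lit 0x4000001003006007016200608d00e02c611)) (.br (Nat.shiftLeft (nat_lit 0x1000000801) (nat_lit 102)) (.one (nat_lit 0x4000002003006007016400608d00e02c611)) (.one (nat_lit 0x4000002004006007016400808d00e02c611))))) (.br (Nat.shiftLeft (nat_lit 0x4000003005) (nat_lit 100)) (.br (Nat.shiftLeft (nat_lit 0x4000003) (nat_lit 112)) (.one (nat_lit 0x4000002005006007016400a08d00e02c611)) (.one (nat_lit 0x4000003004006007016600808d00e02c611))) (.br (Nat.shiftLeft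 (nat_lit 0x1000001) (nat_lit 114)) (.one (nat_lit 0x4000003005006007016600a08d00e02c611)) (.br (Nat.shiftLeft (nat_lit 0x5) (nat_lit 136)) (.one (nat_lit 0x4000004005006007016800a08d00e02c611)) (.one (nat_lit 0x500000100200600701620040ad40e02c611))))))
def t127 : k127.all (jb2 57 fl b0) = true := by decide +kernel
noncomputable def k128 : KT := (.br (Nat.shiftLeft (nat_lit 0x1400000801) (nat_lit 102)) (.br (Nat.shiftLeft (nat_lit 0x2800001) (nat_lit 113)) (.one (nat_lit 0x500000100300600701620060ad40e02c611)) (.one (nat_lit 0x500000200300600701640060ad40e02c611))) (.br (Nat.shiftLeft (nat_lit 0x5000002005) (nat_lit 100)) (.one (nat_lit 0x500000200400600701640080ad40e02c611)) (.one (nat_lit 0x5000002005006007016400a0ad40e02c611))))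
def t128 : k128.all (jb2 57 fl b0) = true := by decide +kernel
noncomputable def k129 : KT := (.br (Nat.shiftLeft (nat_lit 0x1400001) (nat_lit 114)) (.br (Nat.shiftLeft (nat_lit 0x5000003005) (nat_lit 100)) (.one (nat_lit 0x500000300400600701660080ad40e02c611)) (.one (nat_lit 0x5000003005006007016600a0ad40e02c611))) (.br (Nat.shiftLeft (nat_lit 0x3) (nat_lit 137)) (.one (nat_lit 0x5000004005006007016800a0ad40e02c611)) (.one (nat_lit 0x600000100200600701620040cd80e02c611))))
def t129 : k129.all (jb2 57 fl b0) = true := by decide +kernel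
noncomputable def k130 : KT := (.br (Nat.shiftLeft (nat_lit 0x3000001) (nat_lit 113)) (.one (nat_lit 0x600000100300600701620060cd80e02c611)) (.br (Nat.shiftLeft (nat_lit 0x1800000801) (nat_lit 102)) (.one (nat_lit 0x600000200300600701640060cd80e02c611)) (.one (nat_lit 0x600000200400600701640080cd80e02c611))))
def t130 : k130.all (jb2 57 fl b0) = true := by decide +kernel
noncomputable def k131 : KT := (.br (Nat.shiftLeft (nat_lit 0x6000003005) (nat_lit 100)) (.br (Nat.shiftLeft (nat_lit 0x6000003) (nat_lit 112)) (.one (nat_lit 0x6000002005006007016400a0cd80e02c611)) (.one (nat_lit 0x600000300400600701660080cd80e02c611))) (.br (Nat.shiftLeft (nat_lit 0x1800001) (nat_lit 114)) (.one (nat_lit 0x6000003005006007016600a0cd80e02c611)) (.br (Nat.shiftLeft (nat_lit 0x7) (nat_lit 136)) (.one (nat_lit 0x6000004005006007016800a0cd80e02c611)) (.one (nat_lit 0x700000100200600701620040edc0e02c611)))))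
def t131 : k131.all (jb2 57 fl b0) = true := by decide +kernel
noncomputable def k132 : KT := (.br (Nat.shiftLeft (nat_lit 0x1c00000801) (nat_lit 102)) (.br (Nat.shiftLeft (nat_lit 0x3800001) (nat_lit 113)) (.one (nat_lit 0x700000100300600701620060edc0e02c611)) (.one (nat_lit 0x700000200300600701640060edc0e02c611))) (.br (Nat.shiftLeft (nat_lit 0x7000002005) (nat_lit 100)) (.one (nat_lit 0x700000200400600701640080edc0e02c611)) (.one (nat_lit 0x7000002005006007016400a0edc0e02c611))))
def t132 : k132.all (jb2 57 fl b0) = true := by decide +kernel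
noncomputable def k133 : KT := (.br (Nat.shiftLeft (nat_lit 0x7000003005) (nat_lit 100)) (.one (nat_lit 0x700000300400600701660080edc0e02c611)) (.br (Nat.shiftLeft (nat_lit 0x1c00001) (nat_lit 114)) (.one (nat_lit 0x7000003005006007016600a0edc0e02c611)) (.one (nat_lit 0x7000004005006007016800a0edc0e02c611))))
def t133 : k133.all (jb2 57 fl b0) = true := by decide +kernel
noncomputable def s6 : KT := (.br (nat_lit 0x5000003006007016000600c0af42c511) (.br (nat_lit 0x1002004006007016400800c02e42c760) (.br (nat_lit 0x1004006007016200800c00e02c650) (.br (nat_lit 0x1003006007016200600c00e02d600) k114 k115) (.br (nat_lit 0x1000005006007016000a00c02e42c511) k116 (.br (nat_lit 0x1002003006007016400600c02e42c760) k117 k118))) (.br (nat_lit 0x2000005006007016000a00c04e82c511) (.br (nat_lit 0x1003004006007016600800c02e42c760) k119 k120) (.br (nat_lit 0x2003004006007016600800c04e82c760) k121 (.br (nat_lit 0x3000005006007016000a00c06ec2c511) k122 k123)))) (.br (nat_lit 0x5000002005006007016400a0ad40e02c611) (.br (nat_lit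 0x7000002006007016000400c0efc2c511) (.br (nat_lit 0x6000003006007016000600c0cf82c511) k124 k125) (.br (nat_lit 0x3000003005006007016600a06cc0e02c611) k126 (.br (nat_lit 0x500000100200600701620040ad40e02c611) k127 k128))) (.br (nat_lit 0x600000200400600701640080cd80e02c611) (.br (nat_lit 0x600000100200600701620040cd80e02c611) k129 k130) (.br (nat_lit 0x700000100200600701620040edc0e02c611) k131 (.br (nat_lit 0x7000002005006007016400a0edc0e02c611) k132 k133)))))
noncomputable def u6 : KT := (.one (nat_lit 0x6007016000000c00e02c430))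
def w6 : u6.all (wj 57 s6) = true := by decide +kernel
def o6 : OkW 57 (jb2 57 fl) u6 := .lift s6 _ (.br _ _ _ (.br _ _ _ (.br _ _ _ (.br _ _ _ (.leaf b0 k114 t114) (.leaf b0 k115 t115)) (.br _ _ _ (.leaf b0 k116 t116) (.br _ _ _ (.leaf b0 k117 t117) (.leaf b0 k118 t118)))) (.br _ _ _ (.br _ _ _ (.leaf b0 k119 t119) (.leaf b0 k120 t120)) (.br _ _ _ (.leaf b0 k121 t121) (.br _ _ _ (.leaf b0 k122 t122) (.leaf b0 k123 t123))))) (.br _ _ _ (.br _ _ _ (.br _ _ _ (.leaf b0 k124 t124) (.leaf b0 k125 t125)) (.br _ _ _ (.leaf b0 k126 t126) (.br _ _ _ (.leaf b0 k127 t127) (.leaf b0 k128 t128)))) (.br _ _ _ (.br _ _ _ (.leaf b0 k129 t129) (.leaf b0 k130 t130)) (.br _ _ _ (.leaf b0 k131 t131) (.br _ _ _ (.leaf b0 k132 t132) (.leaf b0 k133 t133)))))) w6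
noncomputable def k134 : KT := (.br (Nat.shiftLeft (nat_lit 0x3) (nat_lit 100)) (.br (Nat.shiftLeft (nat_lit 0x1) (nat_lit 100)) (.one (nat_lit 0x6007017000000c00e02f400)) (.br (Nat.shiftLeft (nat_lit 0x1) (nat_lit 101)) (.one (nat_lit 0x1006007017000200c00e02e540)) (.one (nat_lit 0x2006007017000400c00e02f500)))) (.br (Nat.shiftLeft (nat_lit 0x5) (nat_lit 100)) (.br (Nat.shiftLeft (nat_lit 0x1) (nat_lit 102)) (.one (nat_lit 0x3006007017000600c00e02f500)) (.one (nat_lit 0x4006007017000800c00e02f500))) (.br (Nat.shiftLeft (nat_lit 0x1) (nat_lit 112)) (.one (nat_lit 0x5006007017000a00c00e02f500)) (.one (nat_lit 0x1000006007017200000c00e02e411)))))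
def t134 : k134.all (jb2 57 fl b0) = true := by decide +kernel
noncomputable def k135 : KT := (.one (nat_lit 0x1002006007017200400c00e02e650))
def t135 : k135.all (jb2 57 fl b0) = true := by decide +kernel
noncomputable def k136 : KT := (.one (nat_lit 0x1003006007017200600c00e02e650))
def t136 : k136.all (jb2 57 fl b0) = true := by decide +kernel
noncomputable def k137 : KT := (.one (nat_lit 0x1004006007017200800c00e02e650))
def t137 : k137.all (jb2 57 fl b0) = true := by decide +kernel
noncomputable def k138 : KT := (.br (Nat.shiftLeft (nat_lit 0x1001) (nat_lit 101)) (.br (Nat.shiftLeft (nat_lit 0x1) (nat_lit 113)) (.one (nat_lit 0x1005006007017200a00c00e02e650)) (.one (nat_lit 0x2000006007017400000c00e02e411))) (.br (Nat.shiftLeft (nat_lit 0x801) (nat_lit 102)) (.one (nat_lit 0x2003006007017400600c00e02f600)) (.one (nat_lit 0x2004006007017400800c00e02f600))))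
def t138 : k138.all (jb2 57 fl b0) = true := by decide +kernel
noncomputable def k139 : KT := (.br (Nat.shiftLeft (nat_lit 0x3) (nat_lit 112)) (.one (nat_lit 0x2005006007017400a00c00e02e650)) (.br (Nat.shiftLeft (nat_lit 0xc01) (nat_lit 102)) (.one (nat_lit 0x3000006007017600000c00e02e411)) (.one (nat_lit 0x3004006007017600800c00e02f600))))
def t139 : k139.all (jb2 57 fl b0) = true := by decide +kernel
noncomputable def k140 : KT := (.br (Nat.shiftLeft (nat_lit 0x1) (nat_lit 114)) (.one (nat_lit 0x3005006007017600a00c00e02e650)) (.one (nat_lit 0x4000006007017800000c00e02e411)))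
def t140 : k140.all (jb2 57 fl b0) = true := by decide +kernel
noncomputable def k141 : KT := (.br (Nat.shiftLeft (nat_lit 0x5) (nat_lit 112)) (.one (nat_lit 0x4005006007017800a00c00e02e650)) (.one (nat_lit 0x5000006007017a00000c00e02e411)))
def t141 : k141.all (jb2 57 fl b0) = true := by decide +kernel
noncomputable def k142 : KT := (.br (Nat.shiftLeft (nat_lit 0x1000003) (nat_lit 100)) (.br (Nat.shiftLeft (nat_lit 0x7) (nat_lit 112)) (.one (nat_lit 0x6000006007017c00000c00e02e411)) (.br (Nat.shiftLeft (nat_lit 0x1) (nat_lit 124)) (.one (nat_lit 0x7000006007017e00000c00e02e411)) (.one (nat_lit 0x1000002006007017000400c02e42e511)))) (.br (Nat.shiftLeft (nat_lit 0x1000005) (nat_lit 100)) (.br (Nat.shiftLeft (nat_lit 0x400001) (nat_lit 102)) (.one (nat_lit 0x1000003006007017000600c02e42e511)) (.one (nat_lit 0x1000004006007017000800c02e42e511))) (.br (Nat.shiftLeft (nat_lit 0x801) (nat_lit 113)) (.one (nat_lit 0x1000005006007017000a00c02e42e511)) (.one (nat_lit 0x1002003006007017400600c02e42e760)))))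
def t142 : k142.all (jb2 57 fl b0) = true := by decide +kernel
noncomputable def k143 : KT := (.br (Nat.shiftLeft (nat_lit 0x2000003) (nat_lit 100)) (.br (Nat.shiftLeft (nat_lit 0x1003) (nat_lit 112)) (.one (nat_lit 0x1002004006007017400800c02e42e760)) (.br (Nat.shiftLeft (nat_lit 0x1) (nat_lit 125)) (.one (nat_lit 0x1003004006007017600800c02e42e760)) (.one (nat_lit 0x2000002006007017000400c04e82e511)))) (.br (Nat.shiftLeft (nat_lit 0x800001) (nat_lit 102)) (.one (nat_lit 0x2000003006007017000600c04e82e511)) (.br (Nat.shiftLeft (nat_lit 0x2000005) (nat_lit 100)) (.one (nat_lit 0x2000004006007017000800c04e82e511)) (.one (nat_lit 0x2000005006007017000a00c04e82e511)))))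
def t143 : k143.all (jb2 57 fl b0) = true := by decide +kernel
noncomputable def k144 : KT := (.br (Nat.shiftLeft (nat_lit 0x1) (nat_lit 126)) (.br (Nat.shiftLeft (nat_lit 0x3000003) (nat_lit 100)) (.br (Nat.shiftLeft (nat_lit 0x3) (nat_lit 124)) (.one (nat_lit 0x2003004006007017600800c04e82e760)) (.one (nat_lit 0x3000002006007017000400c06ec2e511))) (.br (Nat.shiftLeft (nat_lit 0xc00001) (nat_lit 102)) (.one (nat_lit 0x3000003006007017000600c06ec2e511)) (.br (Nat.shiftLeft (nat_lit 0x3000005) (nat_lit 100)) (.one (nat_lit 0x3000004006007017000800c06ec2e511)) (.one (nat_lit 0x3000005006007017000a00c06ec2e511))))) (.br (Nat.shiftLeft (nat_lit 0x1000001) (nat_lit 102)) (.br (Nat.shiftLeft (nat_lit 0x4000003) (nat_lit 100)) (.one (nat_lit 0x4000002006007017000400c08f02e511)) (.one (nat_lit 0x4000003006007017000600c08f02e511))) (.br (Nat.shiftLeft (nat_lit 0x4000005) (nat_lit 100)) (.one (nat_lit 0x4000004006007017000800c08f02e511)) (.br (Nat.shiftLeft (nat_lit 0x5) (nat_lit 124)) (.one (nat_lit 0x4000005006007017000a00c08f02e511))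 (.one (nat_lit 0x5000002006007017000400c0af42e511))))))
def t144 : k144.all (jb2 57 fl b0) = true := by decide +kernel
noncomputable def k145 : KT := (.br (Nat.shiftLeft (nat_lit 0x5000005) (nat_lit 100)) (.br (Nat.shiftLeft (nat_lit 0x1400001) (nat_lit 102)) (.one (nat_lit 0x5000003006007017000600c0af42e511)) (.one (nat_lit 0x5000004006007017000800c0af42e511))) (.br (Nat.shiftLeft (nat_lit 0x3) (nat_lit 125)) (.one (nat_lit 0x5000005006007017000a00c0af42e511)) (.br (Nat.shiftLeft (nat_lit 0x6000003) (nat_lit 100)) (.one (nat_lit 0x6000002006007017000400c0cf82e511)) (.one (nat_lit 0x6000003006007017000600c0cf82e511)))))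
def t145 : k145.all (jb2 57 fl b0) = true := by decide +kernel
noncomputable def k146 : KT := (.br (Nat.shiftLeft (nat_lit 0x7) (nat_lit 124)) (.br (Nat.shiftLeft (nat_lit 0x6000005) (nat_lit 100)) (.one (nat_lit 0x6000004006007017000800c0cf82e511)) (.one (nat_lit 0x6000005006007017000a00c0cf82e511))) (.br (Nat.shiftLeft (nat_lit 0x7000003) (nat_lit 100)) (.one (nat_lit 0x7000002006007017000400c0efc2e511)) (.one (nat_lit 0x7000003006007017000600c0efc2e511))))
def t146 : k146.all (jb2 57 fl b0) = true := by decide +kernel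
noncomputable def k147 : KT := (.br (Nat.shiftLeft (nat_lit 0x2000003) (nat_lit 112)) (.br (Nat.shiftLeft (nat_lit 0x400000801) (nat_lit 102)) (.br (Nat.shiftLeft (nat_lit 0x7000005) (nat_lit 100)) (.one (nat_lit 0x7000004006007017000800c0efc2e511)) (.br (Nat.shiftLeft (nat_lit 0x1) (nat_lit 136)) (.one (nat_lit 0x7000005006007017000a00c0efc2e511)) (.one (nat_lit 0x1000002003006007017400602c40e02e611)))) (.br (Nat.shiftLeft (nat_lit 0x1) (nat_lit 137)) (.br (Nat.shiftLeft (nat_lit 0x1000003) (nat_lit 112)) (.one (nat_lit 0x1000002004006007017400802c40e02e611)) (.one (nat_lit 0x1000003004006007017600802c40e02e611))) (.br (Nat.shiftLeft (nat_lit 0x800000801) (nat_lit 102)) (.one (nat_lit 0x2000002003006007017400604c80e02e611)) (.one (nat_lit 0x2000002004006007017400804c80e02e611))))) (.br (Nat.shiftLeft (nat_lit 0x1) (nat_lit 138)) (.br (Nat.shiftLeft (nat_lit 0xc00000801) (nat_lit 102)) (.br (Nat.shiftLeft (nat_lit 0x3) (nat_lit 136)) (.one (nat_lit 0x2000003004006007017600804c80e02e611)) (.one (nat_lit 0x3000002003006007017400606cc0e02e611)))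 (.br (Nat.shiftLeft (nat_lit 0x3000003) (nat_lit 112)) (.one (nat_lit 0x3000002004006007017400806cc0e02e611)) (.one (nat_lit 0x3000003004006007017600806cc0e02e611)))) (.br (Nat.shiftLeft (nat_lit 0x4000003) (nat_lit 112)) (.br (Nat.shiftLeft (nat_lit 0x1000000801) (nat_lit 102)) (.one (nat_lit 0x4000002003006007017400608d00e02e611)) (.one (nat_lit 0x4000002004006007017400808d00e02e611))) (.br (Nat.shiftLeft (nat_lit 0x5) (nat_lit 136)) (.one (nat_lit 0x4000003004006007017600808d00e02e611)) (.one (nat_lit 0x500000200300600701740060ad40e02e611))))))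
def t147 : k147.all (jb2 57 fl b0) = true := by decide +kernel
noncomputable def k148 : KT := (.br (Nat.shiftLeft (nat_lit 0x3) (nat_lit 137)) (.br (Nat.shiftLeft (nat_lit 0x5000003) (nat_lit 112)) (.one (nat_lit 0x500000200400600701740080ad40e02e611)) (.one (nat_lit 0x500000300400600701760080ad40e02e611))) (.br (Nat.shiftLeft (nat_lit 0x1800000801) (nat_lit 102)) (.one (nat_lit 0x600000200300600701740060cd80e02e611)) (.br (Nat.shiftLeft (nat_lit 0x6000003) (nat_lit 112)) (.one (nat_lit 0x600000200400600701740080cd80e02e611)) (.one (nat_lit 0x600000300400600701760080cd80e02e611)))))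
def t148 : k148.all (jb2 57 fl b0) = true := by decide +kernel
noncomputable def k149 : KT := (.br (Nat.shiftLeft (nat_lit 0x1c00000801) (nat_lit 102)) (.one (nat_lit 0x700000200300600701740060edc0e02e611)) (.br (Nat.shiftLeft (nat_lit 0x7000003) (nat_lit 112)) (.one (nat_lit 0x700000200400600701740080edc0e02e611)) (.one (nat_lit 0x700000300400600701760080edc0e02e611))))
def t149 : k149.all (jb2 57 fl b0) = true := by decide +kernel
noncomputable def s7 : KT := (.br (nat_lit 0x5000006007017a00000c00e02e411) (.br (nat_lit 0x1004006007017200800c00e02e650) (.br (nat_lit 0x1002006007017200400c00e02e650) (.br (nat_lit 0x1000006007017200000c00e02e411) k134 k135) (.br (nat_lit 0x1003006007017200600c00e02e650) k136 k137)) (.br (nat_lit 0x3004006007017600800c00e02f600) (.br (nat_lit 0x2004006007017400800c00e02f600) k138 k139) (.br (nat_lit 0x4000006007017800000c00e02e411) k140 k141))) (.br (nat_lit 0x6000003006007017000600c0cf82e511) (.br (nat_lit 0x2000005006007017000a00c04e82e511) (.br (nat_lit 0x1002003006007017400600c02e42e760)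 k142 k143) (.br (nat_lit 0x5000002006007017000400c0af42e511) k144 k145)) (.br (nat_lit 0x500000200300600701740060ad40e02e611) (.br (nat_lit 0x7000003006007017000600c0efc2e511) k146 k147) (.br (nat_lit 0x600000300400600701760080cd80e02e611) k148 k149))))
noncomputable def u7 : KT := (.one (nat_lit 0x6007017000000c00e02e430))
def w7 : u7.all (wj 57 s7) = true := by decide +kernel
def o7 : OkW 57 (jb2 57 fl) u7 := .lift s7 _ (.br _ _ _ (.br _ _ _ (.br _ _ _ (.br _ _ _ (.leaf b0 k134 t134) (.leaf b0 k135 t135)) (.br _ _ _ (.leaf b0 k136 t136) (.leaf b0 k137 t137))) (.br _ _ _ (.br _ _ _ (.leaf b0 k138 t138) (.leaf b0 k139 t139)) (.br _ _ _ (.leaf b0 k140 t140) (.leaf b0 k141 t141)))) (.br _ _ _ (.br _ _ _ (.br _ _ _ (.leaf b0 k142 t142) (.leaf b0 k143 t143)) (.br _ _ _ (.leaf b0 k144 t144) (.leaf b0 k145 t145))) (.br _ _ _ (.br _ _ _ (.leaf b0 k146 t146) (.leaf b0 k147 t147)) (.br _ _ _ (.leaf b0 k148 t148) (.leaf b0 k149 t149))))) w7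
noncomputable def k150 : KT := (.br (Nat.shiftLeft (nat_lit 0x2006007019) (nat_lit 64)) (.br (Nat.shiftLeft (nat_lit 0x1802005) (nat_lit 66)) (.br (Nat.shiftLeft (nat_lit 0xc01) (nat_lit 79)) (.br (Nat.shiftLeft (nat_lit 0x6007019) (nat_lit 64)) (.one (nat_lit 0x6007018000000c00e031400)) (.one (nat_lit 0x6007019000000c00e033400))) (.br (Nat.shiftLeft (nat_lit 0x6008013) (nat_lit 64)) (.one (nat_lit 0x6008012000000c010025400)) (.one (nat_lit 0x6008013000000c010027400)))) (.br (Nat.shiftLeft (nat_lit 0x1) (nat_lit 100)) (.br (Nat.shiftLeft (nat_lit 0x6008015) (nat_lit 64)) (.one (nat_lit 0x6008014000000c010029400)) (.one (nat_lit 0x6008015000000c01002b400))) (.br (Nat.shiftLeft (nat_lit 0x1006007019) (nat_lit 64)) (.one (nat_lit 0x1006007018000200c00e030540)) (.br (Nat.shiftLeft (nat_lit 0x1) (nat_lit 101)) (.one (nat_lit 0x1006007019000200c00e032540)) (.one (nat_lit 0x2006007018000400c00e031500)))))) (.br (Nat.shiftLeft (nat_lit 0x4006007019) (nat_lit 64)) (.br (Nat.shiftLeft (nat_lit 0x3006007019) (nat_lit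 64)) (.br (Nat.shiftLeft (nat_lit 0x3) (nat_lit 100)) (.one (nat_lit 0x2006007019000400c00e033500)) (.one (nat_lit 0x3006007018000600c00e031500))) (.br (Nat.shiftLeft (nat_lit 0x1) (nat_lit 102)) (.one (nat_lit 0x3006007019000600c00e033500)) (.one (nat_lit 0x4006007018000800c00e031500)))) (.br (Nat.shiftLeft (nat_lit 0x5006007019) (nat_lit 64)) (.br (Nat.shiftLeft (nat_lit 0x5) (nat_lit 100)) (.one (nat_lit 0x4006007019000800c00e033500)) (.one (nat_lit 0x5006007018000a00c00e031500))) (.br (Nat.shiftLeft (nat_lit 0x1) (nat_lit 112)) (.one (nat_lit 0x5006007019000a00c00e033500)) (.br (Nat.shiftLeft (nat_lit 0x1000006007019) (nat_lit 64)) (.one (nat_lit 0x1000006007018200000c00e030411)) (.one (nat_lit 0x1000006007019200000c00e032411)))))))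
def t150 : k150.all (jb2 57 fl b0) = true := by decide +kernel
noncomputable def k151 : KT := (.one (nat_lit 0x1002006007018200400c00e030650))
def t151 : k151.all (jb2 57 fl b0) = true := by decide +kernel
noncomputable def k152 : KT := (.one (nat_lit 0x1002006007019200400c00e032650))
def t152 : k152.all (jb2 57 fl b0) = true := by decide +kernel
noncomputable def k153 : KT := (.one (nat_lit 0x1003006007018200600c00e030650))
def t153 : k153.all (jb2 57 fl b0) = true := by decide +kernel
noncomputable def k154 : KT := (.one (nat_lit 0x1003006007019200600c00e032650))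
def t154 : k154.all (jb2 57 fl b0) = true := by decide +kernel
noncomputable def k155 : KT := (.one (nat_lit 0x1004006007018200800c00e030650))
def t155 : k155.all (jb2 57 fl b0) = true := by decide +kernel
noncomputable def k156 : KT := (.br (Nat.shiftLeft (nat_lit 0x1005) (nat_lit 100)) (.one (nat_lit 0x1004006007019200800c00e032650)) (.one (nat_lit 0x1005006007018200a00c00e030650)))
def t156 : k156.all (jb2 57 fl b0) = true := by decide +kernel
noncomputable def k157 : KT := (.br (Nat.shiftLeft (nat_lit 0x2000006007019) (nat_lit 64)) (.br (Nat.shiftLeft (nat_lit 0x1) (nat_lit 113)) (.one (nat_lit 0x1005006007019200a00c00e032650)) (.one (nat_lit 0x2000006007018400000c00e030411))) (.br (Nat.shiftLeft (nat_lit 0x1001) (nat_lit 101)) (.one (nat_lit 0x2000006007019400000c00e032411)) (.one (nat_lit 0x2003006007018400600c00e031600))))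
def t157 : k157.all (jb2 57 fl b0) = true := by decide +kernel
noncomputable def k158 : KT := (.one (nat_lit 0x2003006007019400600c00e032650))
def t158 : k158.all (jb2 57 fl b0) = true := by decide +kernel
noncomputable def k159 : KT := (.one (nat_lit 0x2004006007018400800c00e030650))
def t159 : k159.all (jb2 57 fl b0) = true := by decide +kernel
noncomputable def k160 : KT := (.one (nat_lit 0x2004006007019400800c00e032650))
def t160 : k160.all (jb2 57 fl b0) = true := by decide +kernel
noncomputable def k161 : KT := (.one (nat_lit 0x2005006007018400a00c00e030650))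
def t161 : k161.all (jb2 57 fl b0) = true := by decide +kernel
noncomputable def k162 : KT := (.br (Nat.shiftLeft (nat_lit 0x3) (nat_lit 112)) (.one (nat_lit 0x2005006007019400a00c00e032650)) (.br (Nat.shiftLeft (nat_lit 0x3000006007019) (nat_lit 64)) (.one (nat_lit 0x3000006007018600000c00e030411)) (.one (nat_lit 0x3000006007019600000c00e032411))))
def t162 : k162.all (jb2 57 fl b0) = true := by decide +kernel
noncomputable def k163 : KT := (.one (nat_lit 0x3004006007018600800c00e030650))
def t163 : k163.all (jb2 57 fl b0) = true := by decide +kernel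
noncomputable def k164 : KT := (.one (nat_lit 0x3004006007019600800c00e032650))
def t164 : k164.all (jb2 57 fl b0) = true := by decide +kernel
noncomputable def k165 : KT := (.one (nat_lit 0x3005006007018600a00c00e030650))
def t165 : k165.all (jb2 57 fl b0) = true := by decide +kernel
noncomputable def k166 : KT := (.br (Nat.shiftLeft (nat_lit 0x1) (nat_lit 114)) (.one (nat_lit 0x3005006007019600a00c00e032650)) (.br (Nat.shiftLeft (nat_lit 0x4000006007019) (nat_lit 64)) (.one (nat_lit 0x4000006007018800000c00e030411)) (.one (nat_lit 0x4000006007019800000c00e032411))))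
def t166 : k166.all (jb2 57 fl b0) = true := by decide +kernel
noncomputable def k167 : KT := (.one (nat_lit 0x4005006007018800a00c00e030650))
def t167 : k167.all (jb2 57 fl b0) = true := by decide +kernel
noncomputable def k168 : KT := (.br (Nat.shiftLeft (nat_lit 0x1) (nat_lit 124)) (.br (Nat.shiftLeft (nat_lit 0x3) (nat_lit 113)) (.br (Nat.shiftLeft (nat_lit 0x5) (nat_lit 112)) (.one (nat_lit 0x4005006007019800a00c00e032650)) (.br (Nat.shiftLeft (nat_lit 0x5000006007019) (nat_lit 64)) (.one (nat_lit 0x5000006007018a00000c00e030411)) (.one (nat_lit 0x5000006007019a00000c00e032411)))) (.br (Nat.shiftLeft (nat_lit 0x7) (nat_lit 112)) (.br (Nat.shiftLeft (nat_lit 0x6000006007019) (nat_lit 64)) (.one (nat_lit 0x6000006007018c00000c00e030411)) (.one (nat_lit 0x6000006007019c00000c00e032411))) (.br (Nat.shiftLeft (nat_lit 0x7000006007019) (nat_lit 64)) (.one (nat_lit 0x7000006007018e00000c00e030411)) (.one (nat_lit 0x7000006007019e00000c00e032411))))) (.br (Nat.shiftLeft (nat_lit 0x400001) (nat_lit 102)) (.br (Nat.shiftLeft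 (nat_lit 0x1000003) (nat_lit 100)) (.br (Nat.shiftLeft (nat_lit 0x1000002006007019) (nat_lit 64)) (.one (nat_lit 0x1000002006007018000400c02e430511)) (.one (nat_lit 0x1000002006007019000400c02e432511))) (.br (Nat.shiftLeft (nat_lit 0x1000003006007019) (nat_lit 64)) (.one (nat_lit 0x1000003006007018000600c02e430511)) (.one (nat_lit 0x1000003006007019000600c02e432511)))) (.br (Nat.shiftLeft (nat_lit 0x1000005) (nat_lit 100)) (.br (Nat.shiftLeft (nat_lit 0x1000004006007019) (nat_lit 64)) (.one (nat_lit 0x1000004006007018000800c02e430511)) (.one (nat_lit 0x1000004006007019000800c02e432511))) (.br (Nat.shiftLeft (nat_lit 0x1000005006007019) (nat_lit 64)) (.one (nat_lit 0x1000005006007018000a00c02e430511)) (.one (nat_lit 0x1000005006007019000a00c02e432511))))))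
def t168 : k168.all (jb2 57 fl b0) = true := by decide +kernel
noncomputable def k169 : KT := (.br (Nat.shiftLeft (nat_lit 0x3000002006007019) (nat_lit 64)) (.br (Nat.shiftLeft (nat_lit 0x800001) (nat_lit 102)) (.br (Nat.shiftLeft (nat_lit 0x2000002006007019) (nat_lit 64)) (.br (Nat.shiftLeft (nat_lit 0x1) (nat_lit 125)) (.one (nat_lit 0x1002003006007018400600c02e430760)) (.one (nat_lit 0x2000002006007018000400c04e830511))) (.br (Nat.shiftLeft (nat_lit 0x2000003) (nat_lit 100)) (.one (nat_lit 0x2000002006007019000400c04e832511)) (.br (Nat.shiftLeft (nat_lit 0x2000003006007019) (nat_lit 64)) (.one (nat_lit 0x2000003006007018000600c04e830511)) (.one (nat_lit 0x2000003006007019000600c04e832511))))) (.br (Nat.shiftLeft (nat_lit 0x2000005) (nat_lit 100)) (.br (Nat.shiftLeft (nat_lit 0x2000004006007019) (nat_lit 64)) (.one (nat_lit 0x2000004006007018000800c04e830511)) (.one (nat_lit 0x2000004006007019000800c04e832511))) (.br (Nat.shiftLeft (nat_lit 0x2000005006007019) (nat_lit 64)) (.one (nat_lit 0x2000005006007018000a00c04e830511))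 (.br (Nat.shiftLeft (nat_lit 0x3) (nat_lit 124)) (.one (nat_lit 0x2000005006007019000a00c04e832511)) (.one (nat_lit 0x3000002006007018000400c06ec30511)))))) (.br (Nat.shiftLeft (nat_lit 0x3000005) (nat_lit 100)) (.br (Nat.shiftLeft (nat_lit 0x3000003006007019) (nat_lit 64)) (.br (Nat.shiftLeft (nat_lit 0x3000003) (nat_lit 100)) (.one (nat_lit 0x3000002006007019000400c06ec32511)) (.one (nat_lit 0x3000003006007018000600c06ec30511))) (.br (Nat.shiftLeft (nat_lit 0xc00001) (nat_lit 102)) (.one (nat_lit 0x3000003006007019000600c06ec32511)) (.br (Nat.shiftLeft (nat_lit 0x3000004006007019) (nat_lit 64)) (.one (nat_lit 0x3000004006007018000800c06ec30511)) (.one (nat_lit 0x3000004006007019000800c06ec32511))))) (.br (Nat.shiftLeft (nat_lit 0x4000002006007019) (nat_lit 64)) (.br (Nat.shiftLeft (nat_lit 0x3000005006007019) (nat_lit 64)) (.one (nat_lit 0x3000005006007018000a00c06ec30511)) (.br (Nat.shiftLeft (nat_lit 0x1) (nat_lit 126)) (.one (nat_lit 0x3000005006007019000a00c06ec32511)) (.one (nat_lit 0x4000002006007018000400c08f030511))))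 (.br (Nat.shiftLeft (nat_lit 0x4000003) (nat_lit 100)) (.one (nat_lit 0x4000002006007019000400c08f032511)) (.br (Nat.shiftLeft (nat_lit 0x4000003006007019) (nat_lit 64)) (.one (nat_lit 0x4000003006007018000600c08f030511)) (.one (nat_lit 0x4000003006007019000600c08f032511)))))))
def t169 : k169.all (jb2 57 fl b0) = true := by decide +kernel
noncomputable def k170 : KT := (.br (Nat.shiftLeft (nat_lit 0x5) (nat_lit 124)) (.br (Nat.shiftLeft (nat_lit 0x4000005) (nat_lit 100)) (.br (Nat.shiftLeft (nat_lit 0x4000004006007019) (nat_lit 64)) (.one (nat_lit 0x4000004006007018000800c08f030511)) (.one (nat_lit 0x4000004006007019000800c08f032511))) (.br (Nat.shiftLeft (nat_lit 0x4000005006007019) (nat_lit 64)) (.one (nat_lit 0x4000005006007018000a00c08f030511)) (.one (nat_lit 0x4000005006007019000a00c08f032511)))) (.br (Nat.shiftLeft (nat_lit 0x5000003) (nat_lit 100)) (.br (Nat.shiftLeft (nat_lit 0x5000002006007019) (nat_lit 64)) (.one (nat_lit 0x5000002006007018000400c0af430511)) (.one (nat_lit 0x5000002006007019000400c0af432511)))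 (.br (Nat.shiftLeft (nat_lit 0x5000003006007019) (nat_lit 64)) (.one (nat_lit 0x5000003006007018000600c0af430511)) (.br (Nat.shiftLeft (nat_lit 0x1400001) (nat_lit 102)) (.one (nat_lit 0x5000003006007019000600c0af432511)) (.one (nat_lit 0x5000004006007018000800c0af430511))))))
def t170 : k170.all (jb2 57 fl b0) = true := by decide +kernel
noncomputable def k171 : KT := (.br (Nat.shiftLeft (nat_lit 0x3) (nat_lit 125)) (.br (Nat.shiftLeft (nat_lit 0x5000005) (nat_lit 100)) (.one (nat_lit 0x5000004006007019000800c0af432511)) (.br (Nat.shiftLeft (nat_lit 0x5000005006007019) (nat_lit 64)) (.one (nat_lit 0x5000005006007018000a00c0af430511)) (.one (nat_lit 0x5000005006007019000a00c0af432511)))) (.br (Nat.shiftLeft (nat_lit 0x6000002006007019) (nat_lit 64)) (.one (nat_lit 0x6000002006007018000400c0cf830511)) (.br (Nat.shiftLeft (nat_lit 0x6000003) (nat_lit 100)) (.one (nat_lit 0x6000002006007019000400c0cf832511)) (.one (nat_lit 0x6000003006007018000600c0cf830511)))))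
def t171 : k171.all (jb2 57 fl b0) = true := by decide +kernel
noncomputable def k172 : KT := (.br (Nat.shiftLeft (nat_lit 0x6000005) (nat_lit 100)) (.br (Nat.shiftLeft (nat_lit 0x1800001) (nat_lit 102)) (.one (nat_lit 0x6000003006007019000600c0cf832511)) (.br (Nat.shiftLeft (nat_lit 0x6000004006007019) (nat_lit 64)) (.one (nat_lit 0x6000004006007018000800c0cf830511)) (.one (nat_lit 0x6000004006007019000800c0cf832511)))) (.br (Nat.shiftLeft (nat_lit 0x6000005006007019) (nat_lit 64)) (.one (nat_lit 0x6000005006007018000a00c0cf830511)) (.br (Nat.shiftLeft (nat_lit 0x7) (nat_lit 124)) (.one (nat_lit 0x6000005006007019000a00c0cf832511)) (.one (nat_lit 0x7000002006007018000400c0efc30511)))))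
def t172 : k172.all (jb2 57 fl b0) = true := by decide +kernel
noncomputable def k173 : KT := (.br (Nat.shiftLeft (nat_lit 0x7000005) (nat_lit 100)) (.br (Nat.shiftLeft (nat_lit 0x7000003006007019) (nat_lit 64)) (.br (Nat.shiftLeft (nat_lit 0x7000003) (nat_lit 100)) (.one (nat_lit 0x7000002006007019000400c0efc32511)) (.one (nat_lit 0x7000003006007018000600c0efc30511))) (.br (Nat.shiftLeft (nat_lit 0x1c00001) (nat_lit 102)) (.one (nat_lit 0x7000003006007019000600c0efc32511)) (.br (Nat.shiftLeft (nat_lit 0x7000004006007019) (nat_lit 64)) (.one (nat_lit 0x7000004006007018000800c0efc30511)) (.one (nat_lit 0x7000004006007019000800c0efc32511))))) (.br (Nat.shiftLeft (nat_lit 0x1) (nat_lit 136)) (.br (Nat.shiftLeft (nat_lit 0x7000005006007019) (nat_lit 64)) (.one (nat_lit 0x7000005006007018000a00c0efc30511)) (.one (nat_lit 0x7000005006007019000a00c0efc32511))) (.br (Nat.shiftLeft (nat_lit 0x1) (nat_lit 137)) (.one (nat_lit 0x1000002003006007018400602c40e030611)) (.br (Nat.shiftLeft (nat_lit 0x3) (nat_lit 136)) (.one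 (nat_lit 0x2000002003006007018400604c80e030611)) (.one (nat_lit 0x3000002003006007018400606cc0e030611))))))
def t173 : k173.all (jb2 57 fl b0) = true := by decide +kernel
noncomputable def k174 : KT := (.br (Nat.shiftLeft (nat_lit 0x3) (nat_lit 137)) (.br (Nat.shiftLeft (nat_lit 0x5) (nat_lit 136)) (.one (nat_lit 0x4000002003006007018400608d00e030611)) (.one (nat_lit 0x500000200300600701840060ad40e030611))) (.br (Nat.shiftLeft (nat_lit 0x7) (nat_lit 136)) (.one (nat_lit 0x600000200300600701840060cd80e030611)) (.one (nat_lit 0x700000200300600701840060edc0e030611))))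
def t174 : k174.all (jb2 57 fl b0) = true := by decide +kernel
noncomputable def s8 : KT := (.br (nat_lit 0x2005006007018400a00c00e030650) (.br (nat_lit 0x1004006007018200800c00e030650) (.br (nat_lit 0x1002006007019200400c00e032650) (.br (nat_lit 0x1000006007019200000c00e032411) k150 (.br (nat_lit 0x1002006007018200400c00e030650) k151 k152)) (.br (nat_lit 0x1003006007018200600c00e030650) k153 (.br (nat_lit 0x1003006007019200600c00e032650) k154 k155))) (.br (nat_lit 0x2003006007019400600c00e032650) (.br (nat_lit 0x1005006007018200a00c00e030650) k156 (.br (nat_lit 0x2003006007018400600c00e031600) k157 k158)) (.br (nat_lit 0x2004006007018400800c00e030650) k159 (.br (nat_lit 0x2004006007019400800c00e032650) k160 k161)))) (.br (nat_lit 0x4005006007018800a00c00e030650) (.br (nat_lit 0x3004006007019600800c00e032650) (.br (nat_lit 0x3000006007019600000c00e032411) k162 (.br (nat_lit 0x3004006007018600800c00e030650) k163 k164)) (.br (nat_lit 0x3005006007018600a00c00e030650) k165 (.br (nat_lit 0x4000006007019800000c00e032411)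 k166 k167))) (.br (nat_lit 0x5000004006007018000800c0af430511) (.br (nat_lit 0x1000005006007019000a00c02e432511) k168 (.br (nat_lit 0x4000003006007019000600c08f032511) k169 k170)) (.br (nat_lit 0x7000002006007018000400c0efc30511) (.br (nat_lit 0x6000003006007018000600c0cf830511) k171 k172) (.br (nat_lit 0x3000002003006007018400606cc0e030611) k173 k174)))))
noncomputable def u8 : KT := (.br (Nat.shiftLeft (nat_lit 0x6008013) (nat_lit 64)) (.br (Nat.shiftLeft (nat_lit 0x6007019) (nat_lit 64)) (.one (nat_lit 0x6007018000000c00e030430)) (.br (Nat.shiftLeft (nat_lit 0xc01) (nat_lit 79)) (.one (nat_lit 0x6007019000000c00e032430)) (.one (nat_lit 0x6008012000000c010025400)))) (.br (Nat.shiftLeft (nat_lit 0x1802005) (nat_lit 66)) (.one (nat_lit 0x6008013000000c010027400)) (.br (Nat.shiftLeft (nat_lit 0x6008015) (nat_lit 64)) (.one (nat_lit 0x6008014000000c010029400)) (.one (nat_lit 0x6008015000000c01002b400)))))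
def w8 : u8.all (wj 57 s8) = true := by decide +kernel
def o8 : OkW 57 (jb2 57 fl) u8 := .lift s8 _ (.br _ _ _ (.br _ _ _ (.br _ _ _ (.br _ _ _ (.leaf b0 k150 t150) (.br _ _ _ (.leaf b0 k151 t151) (.leaf b0 k152 t152))) (.br _ _ _ (.leaf b0 k153 t153) (.br _ _ _ (.leaf b0 k154 t154) (.leaf b0 k155 t155)))) (.br _ _ _ (.br _ _ _ (.leaf b0 k156 t156) (.br _ _ _ (.leaf b0 k157 t157) (.leaf b0 k158 t158))) (.br _ _ _ (.leaf b0 k159 t159) (.br _ _ _ (.leaf b0 k160 t160) (.leaf b0 k161 t161))))) (.br _ _ _ (.br _ _ _ (.br _ _ _ (.leaf b0 k162 t162) (.br _ _ _ (.leaf b0 k163 t163) (.leaf b0 k164 t164))) (.br _ _ _ (.leaf b0 k165 t165) (.br _ _ _ (.leaf b0 k166 t166) (.leaf b0 k167 t167)))) (.br _ _ _ (.br _ _ _ (.leaf b0 k168 t168) (.br _ _ _ (.leaf b0 k169 t169) (.leaf b0 k170 t170))) (.br _ _ _ (.br _ _ _ (.leaf b0 k171 t171) (.leaf b0 k172 t172)) (.br _ _ _ (.leaf b0 k173 t173) (.leaf b0 k174 t174)))))) w8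
noncomputable def k175 : KT := (.br (Nat.shiftLeft (nat_lit 0x1) (nat_lit 102)) (.br (Nat.shiftLeft (nat_lit 0x1) (nat_lit 101)) (.br (Nat.shiftLeft (nat_lit 0x1) (nat_lit 100)) (.one (nat_lit 0x6008016000000c01002d400)) (.one (nat_lit 0x1006008016000200c01002c540))) (.br (Nat.shiftLeft (nat_lit 0x3) (nat_lit 100)) (.one (nat_lit 0x2006008016000400c01002d500)) (.one (nat_lit 0x3006008016000600c01002d500)))) (.br (Nat.shiftLeft (nat_lit 0x1) (nat_lit 112)) (.br (Nat.shiftLeft (nat_lit 0x5) (nat_lit 100)) (.one (nat_lit 0x4006008016000800c01002d500)) (.one (nat_lit 0x5006008016000a00c01002d500))) (.br (Nat.shiftLeft (nat_lit 0x801) (nat_lit 101)) (.one (nat_lit 0x1000006008016200000c01002c411)) (.br (Nat.shiftLeft (nat_lit 0x1003) (nat_lit 100)) (.one (nat_lit 0x1002006008016200400c01002d600)) (.one (nat_lit 0x1003006008016200600c01002d600))))))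
def t175 : k175.all (jb2 57 fl b0) = true := by decide +kernel
noncomputable def k176 : KT := (.one (nat_lit 0x1004006008016200800c01002c650))
def t176 : k176.all (jb2 57 fl b0) = true := by decide +kernel
noncomputable def k177 : KT := (.br (Nat.shiftLeft (nat_lit 0x1001) (nat_lit 101)) (.br (Nat.shiftLeft (nat_lit 0x1) (nat_lit 113)) (.one (nat_lit 0x1005006008016200a00c01002c650)) (.one (nat_lit 0x2000006008016400000c01002c411))) (.br (Nat.shiftLeft (nat_lit 0x801) (nat_lit 102)) (.one (nat_lit 0x2003006008016400600c01002d600)) (.one (nat_lit 0x2004006008016400800c01002d600))))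
def t177 : k177.all (jb2 57 fl b0) = true := by decide +kernel
noncomputable def k178 : KT := (.br (Nat.shiftLeft (nat_lit 0x3005) (nat_lit 100)) (.br (Nat.shiftLeft (nat_lit 0x3) (nat_lit 112)) (.one (nat_lit 0x2005006008016400a00c01002c650)) (.br (Nat.shiftLeft (nat_lit 0xc01) (nat_lit 102)) (.one (nat_lit 0x3000006008016600000c01002c411)) (.one (nat_lit 0x3004006008016600800c01002d600)))) (.br (Nat.shiftLeft (nat_lit 0x1001) (nat_lit 102)) (.br (Nat.shiftLeft (nat_lit 0x1) (nat_lit 114)) (.one (nat_lit 0x3005006008016600a00c01002d600)) (.one (nat_lit 0x4000006008016800000c01002c411))) (.br (Nat.shiftLeft (nat_lit 0x5) (nat_lit 112)) (.one (nat_lit 0x4005006008016800a00c01002d600)) (.one (nat_lit 0x5000006008016a00000c01002c411)))))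
def t178 : k178.all (jb2 57 fl b0) = true := by decide +kernel
noncomputable def k179 : KT := (.br (Nat.shiftLeft (nat_lit 0x1000003) (nat_lit 100)) (.br (Nat.shiftLeft (nat_lit 0x1) (nat_lit 115)) (.br (Nat.shiftLeft (nat_lit 0x7) (nat_lit 112)) (.one (nat_lit 0x6000006008016c00000c01002c411)) (.one (nat_lit 0x7000006008016e00000c01002c411))) (.br (Nat.shiftLeft (nat_lit 0x1) (nat_lit 124)) (.one (nat_lit 0x8000006008016000000c01012e411)) (.one (nat_lit 0x1000002006008016000400c03042c511)))) (.br (Nat.shiftLeft (nat_lit 0x1000005) (nat_lit 100)) (.br (Nat.shiftLeft (nat_lit 0x400001) (nat_lit 102)) (.one (nat_lit 0x1000003006008016000600c03042c511)) (.one (nat_lit 0x1000004006008016000800c03042c511))) (.br (Nat.shiftLeft (nat_lit 0x801) (nat_lit 113)) (.one (nat_lit 0x1000005006008016000a00c03042c511)) (.one (nat_lit 0x1002003006008016400600c03042c760)))))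
def t179 : k179.all (jb2 57 fl b0) = true := by decide +kernel
noncomputable def k180 : KT := (.one (nat_lit 0x1002004006008016400800c03042c760))
def t180 : k180.all (jb2 57 fl b0) = true := by decide +kernel
noncomputable def k181 : KT := (.br (Nat.shiftLeft (nat_lit 0x1) (nat_lit 125)) (.br (Nat.shiftLeft (nat_lit 0x1003005) (nat_lit 100)) (.one (nat_lit 0x1003004006008016600800c03042c760)) (.br (Nat.shiftLeft (nat_lit 0x401) (nat_lit 114)) (.one (nat_lit 0x1003005006008016600a00c03042c760)) (.one (nat_lit 0x1004005006008016800a00c03042c760)))) (.br (Nat.shiftLeft (nat_lit 0x800001) (nat_lit 102)) (.br (Nat.shiftLeft (nat_lit 0x2000003) (nat_lit 100)) (.one (nat_lit 0x2000002006008016000400c05082c511)) (.one (nat_lit 0x2000003006008016000600c05082c511))) (.br (Nat.shiftLeft (nat_lit 0x2000005) (nat_lit 100)) (.one (nat_lit 0x2000004006008016000800c05082c511)) (.one (nat_lit 0x2000005006008016000a00c05082c511)))))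
def t181 : k181.all (jb2 57 fl b0) = true := by decide +kernel
noncomputable def k182 : KT := (.br (Nat.shiftLeft (nat_lit 0x2003005) (nat_lit 100)) (.one (nat_lit 0x2003004006008016600800c05082c760)) (.one (nat_lit 0x2003005006008016600a00c05082c760)))
def t182 : k182.all (jb2 57 fl b0) = true := by decide +kernel
noncomputable def k183 : KT := (.br (Nat.shiftLeft (nat_lit 0xc01) (nat_lit 114)) (.br (Nat.shiftLeft (nat_lit 0x3000003) (nat_lit 100)) (.br (Nat.shiftLeft (nat_lit 0x3) (nat_lit 124)) (.one (nat_lit 0x2004005006008016800a00c05082c760)) (.one (nat_lit 0x3000002006008016000400c070c2c511))) (.br (Nat.shiftLeft (nat_lit 0xc00001) (nat_lit 102)) (.one (nat_lit 0x3000003006008016000600c070c2c511)) (.br (Nat.shiftLeft (nat_lit 0x3000005) (nat_lit 100)) (.one (nat_lit 0x3000004006008016000800c070c2c511)) (.one (nat_lit 0x3000005006008016000a00c070c2c511))))) (.br (Nat.shiftLeft (nat_lit 0x4000003) (nat_lit 100)) (.br (Nat.shiftLeft (nat_lit 0x1) (nat_lit 126)) (.one (nat_lit 0x3004005006008016800a00c070c2c760))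 (.one (nat_lit 0x4000002006008016000400c09102c511))) (.br (Nat.shiftLeft (nat_lit 0x1000001) (nat_lit 102)) (.one (nat_lit 0x4000003006008016000600c09102c511)) (.br (Nat.shiftLeft (nat_lit 0x4000005) (nat_lit 100)) (.one (nat_lit 0x4000004006008016000800c09102c511)) (.one (nat_lit 0x4000005006008016000a00c09102c511))))))
def t183 : k183.all (jb2 57 fl b0) = true := by decide +kernel
noncomputable def k184 : KT := (.br (Nat.shiftLeft (nat_lit 0x1400001) (nat_lit 102)) (.br (Nat.shiftLeft (nat_lit 0x5000003) (nat_lit 100)) (.one (nat_lit 0x5000002006008016000400c0b142c511)) (.one (nat_lit 0x5000003006008016000600c0b142c511))) (.br (Nat.shiftLeft (nat_lit 0x5000005) (nat_lit 100)) (.one (nat_lit 0x5000004006008016000800c0b142c511)) (.br (Nat.shiftLeft (nat_lit 0x3) (nat_lit 125)) (.one (nat_lit 0x5000005006008016000a00c0b142c511)) (.one (nat_lit 0x6000002006008016000400c0d182c511)))))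
def t184 : k184.all (jb2 57 fl b0) = true := by decide +kernel
noncomputable def k185 : KT := (.br (Nat.shiftLeft (nat_lit 0x6000005) (nat_lit 100)) (.br (Nat.shiftLeft (nat_lit 0x1800001) (nat_lit 102)) (.one (nat_lit 0x6000003006008016000600c0d182c511)) (.one (nat_lit 0x6000004006008016000800c0d182c511))) (.br (Nat.shiftLeft (nat_lit 0x7) (nat_lit 124)) (.one (nat_lit 0x6000005006008016000a00c0d182c511)) (.one (nat_lit 0x7000002006008016000400c0f1c2c511))))
def t185 : k185.all (jb2 57 fl b0) = true := by decide +kernel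
noncomputable def k186 : KT := (.br (Nat.shiftLeft (nat_lit 0x7000005) (nat_lit 100)) (.br (Nat.shiftLeft (nat_lit 0x1c00001) (nat_lit 102)) (.one (nat_lit 0x7000003006008016000600c0f1c2c511)) (.one (nat_lit 0x7000004006008016000800c0f1c2c511))) (.br (Nat.shiftLeft (nat_lit 0x1) (nat_lit 127)) (.one (nat_lit 0x7000005006008016000a00c0f1c2c511)) (.one (nat_lit 0x8000002006008016000400c11202c511))))
def t186 : k186.all (jb2 57 fl b0) = true := by decide +kernel
noncomputable def k187 : KT := (.br (Nat.shiftLeft (nat_lit 0x800000801) (nat_lit 102)) (.br (Nat.shiftLeft (nat_lit 0x400000801) (nat_lit 102)) (.br (Nat.shiftLeft (nat_lit 0x1) (nat_lit 136)) (.br (Nat.shiftLeft (nat_lit 0x2000001) (nat_lit 102)) (.one (nat_lit 0x8000003006008016000600c11202c511)) (.br (Nat.shiftLeft (nat_lit 0x8000005) (nat_lit 100)) (.one (nat_lit 0x8000004006008016000800c11202c511)) (.one (nat_lit 0x8000005006008016000a00c11202c511)))) (.br (Nat.shiftLeft (nat_lit 0x1000001003) (nat_lit 100)) (.one (nat_lit 0x1000001002006008016200402c41002c611))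 (.br (Nat.shiftLeft (nat_lit 0x800001) (nat_lit 113)) (.one (nat_lit 0x1000001003006008016200602c41002c611)) (.one (nat_lit 0x1000002003006008016400602c41002c611))))) (.br (Nat.shiftLeft (nat_lit 0x400001) (nat_lit 114)) (.br (Nat.shiftLeft (nat_lit 0x1000003) (nat_lit 112)) (.one (nat_lit 0x1000002004006008016400802c41002c611)) (.br (Nat.shiftLeft (nat_lit 0x1000003005) (nat_lit 100)) (.one (nat_lit 0x1000003004006008016600802c41002c611)) (.one (nat_lit 0x1000003005006008016600a02c41002c611)))) (.br (Nat.shiftLeft (nat_lit 0x2000001003) (nat_lit 100)) (.br (Nat.shiftLeft (nat_lit 0x1) (nat_lit 137)) (.one (nat_lit 0x1000004005006008016800a02c41002c611)) (.one (nat_lit 0x2000001002006008016200404c81002c611))) (.br (Nat.shiftLeft (nat_lit 0x1000001) (nat_lit 113)) (.one (nat_lit 0x2000001003006008016200604c81002c611)) (.one (nat_lit 0x2000002003006008016400604c81002c611)))))) (.br (Nat.shiftLeft (nat_lit 0x1800001) (nat_lit 113)) (.br (Nat.shiftLeft (nat_lit 0x800001) (nat_lit 114)) (.br (Nat.shiftLeft (nat_lit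 0x2000003) (nat_lit 112)) (.one (nat_lit 0x2000002004006008016400804c81002c611)) (.br (Nat.shiftLeft (nat_lit 0x2000003005) (nat_lit 100)) (.one (nat_lit 0x2000003004006008016600804c81002c611)) (.one (nat_lit 0x2000003005006008016600a04c81002c611)))) (.br (Nat.shiftLeft (nat_lit 0x3) (nat_lit 136)) (.one (nat_lit 0x2000004005006008016800a04c81002c611)) (.br (Nat.shiftLeft (nat_lit 0x3000001003) (nat_lit 100)) (.one (nat_lit 0x3000001002006008016200406cc1002c611)) (.one (nat_lit 0x3000001003006008016200606cc1002c611))))) (.br (Nat.shiftLeft (nat_lit 0x3000003005) (nat_lit 100)) (.br (Nat.shiftLeft (nat_lit 0xc00000801) (nat_lit 102)) (.one (nat_lit 0x3000002003006008016400606cc1002c611)) (.br (Nat.shiftLeft (nat_lit 0x3000003) (nat_lit 112)) (.one (nat_lit 0x3000002004006008016400806cc1002c611)) (.one (nat_lit 0x3000003004006008016600806cc1002c611)))) (.br (Nat.shiftLeft (nat_lit 0x1) (nat_lit 138)) (.br (Nat.shiftLeft (nat_lit 0xc00001) (nat_lit 114)) (.one (nat_lit 0x3000003005006008016600a06cc1002c611)) (.one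 (nat_lit 0x3000004005006008016800a06cc1002c611))) (.br (Nat.shiftLeft (nat_lit 0x4000001003) (nat_lit 100)) (.one (nat_lit 0x4000001002006008016200408d01002c611)) (.one (nat_lit 0x4000001003006008016200608d01002c611)))))))
def t187 : k187.all (jb2 57 fl b0) = true := by decide +kernel
noncomputable def k188 : KT := (.br (Nat.shiftLeft (nat_lit 0x4000003005) (nat_lit 100)) (.br (Nat.shiftLeft (nat_lit 0x1000000801) (nat_lit 102)) (.one (nat_lit 0x4000002003006008016400608d01002c611)) (.br (Nat.shiftLeft (nat_lit 0x4000003) (nat_lit 112)) (.one (nat_lit 0x4000002004006008016400808d01002c611)) (.one (nat_lit 0x4000003004006008016600808d01002c611)))) (.br (Nat.shiftLeft (nat_lit 0x5) (nat_lit 136)) (.br (Nat.shiftLeft (nat_lit 0x1000001) (nat_lit 114)) (.one (nat_lit 0x4000003005006008016600a08d01002c611)) (.one (nat_lit 0x4000004005006008016800a08d01002c611))) (.br (Nat.shiftLeft (nat_lit 0x5000001003) (nat_lit 100)) (.one (nat_lit 0x500000100200600801620040ad41002c611)) (.one (nat_lit 0x500000100300600801620060ad41002c611)))))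
def t188 : k188.all (jb2 57 fl b0) = true := by decide +kernel
noncomputable def k189 : KT := (.br (Nat.shiftLeft (nat_lit 0x5000003) (nat_lit 112)) (.br (Nat.shiftLeft (nat_lit 0x1400000801) (nat_lit 102)) (.one (nat_lit 0x500000200300600801640060ad41002c611)) (.one (nat_lit 0x500000200400600801640080ad41002c611))) (.br (Nat.shiftLeft (nat_lit 0x5000003005) (nat_lit 100)) (.one (nat_lit 0x500000300400600801660080ad41002c611)) (.br (Nat.shiftLeft (nat_lit 0x1400001) (nat_lit 114)) (.one (nat_lit 0x5000003005006008016600a0ad41002c611)) (.one (nat_lit 0x5000004005006008016800a0ad41002c611)))))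
def t189 : k189.all (jb2 57 fl b0) = true := by decide +kernel
noncomputable def k190 : KT := (.br (Nat.shiftLeft (nat_lit 0x6000001003) (nat_lit 100)) (.one (nat_lit 0x600000100200600801620040cd81002c611)) (.br (Nat.shiftLeft (nat_lit 0x3000001) (nat_lit 113)) (.one (nat_lit 0x600000100300600801620060cd81002c611)) (.one (nat_lit 0x600000200300600801640060cd81002c611))))
def t190 : k190.all (jb2 57 fl b0) = true := by decide +kernel
noncomputable def k191 : KT := (.br (Nat.shiftLeft (nat_lit 0x6000003005) (nat_lit 100)) (.br (Nat.shiftLeft (nat_lit 0x6000003) (nat_lit 112)) (.one (nat_lit 0x600000200400600801640080cd81002c611)) (.one (nat_lit 0x600000300400600801660080cd81002c611))) (.br (Nat.shiftLeft (nat_lit 0x1800001) (nat_lit 114)) (.one (nat_lit 0x6000003005006008016600a0cd81002c611)) (.br (Nat.shiftLeft (nat_lit 0x7) (nat_lit 136)) (.one (nat_lit 0x6000004005006008016800a0cd81002c611)) (.one (nat_lit 0x700000100200600801620040edc1002c611)))))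
def t191 : k191.all (jb2 57 fl b0) = true := by decide +kernel
noncomputable def k192 : KT := (.br (Nat.shiftLeft (nat_lit 0x7000003) (nat_lit 112)) (.br (Nat.shiftLeft (nat_lit 0x3800001) (nat_lit 113)) (.one (nat_lit 0x700000100300600801620060edc1002c611)) (.br (Nat.shiftLeft (nat_lit 0x1c00000801) (nat_lit 102)) (.one (nat_lit 0x700000200300600801640060edc1002c611)) (.one (nat_lit 0x700000200400600801640080edc1002c611)))) (.br (Nat.shiftLeft (nat_lit 0x7000003005) (nat_lit 100)) (.one (nat_lit 0x700000300400600801660080edc1002c611)) (.br (Nat.shiftLeft (nat_lit 0x1c00001) (nat_lit 114)) (.one (nat_lit 0x7000003005006008016600a0edc1002c611)) (.one (nat_lit 0x7000004005006008016800a0edc1002c611)))))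
def t192 : k192.all (jb2 57 fl b0) = true := by decide +kernel
noncomputable def k193 : KT := (.br (Nat.shiftLeft (nat_lit 0x2000000801) (nat_lit 102)) (.br (Nat.shiftLeft (nat_lit 0x8000001003) (nat_lit 100)) (.one (nat_lit 0x8000001002006008016200410e01002c611)) (.br (Nat.shiftLeft (nat_lit 0x4000001) (nat_lit 113)) (.one (nat_lit 0x8000001003006008016200610e01002c611)) (.one (nat_lit 0x8000002003006008016400610e01002c611)))) (.br (Nat.shiftLeft (nat_lit 0x8000003005) (nat_lit 100)) (.br (Nat.shiftLeft (nat_lit 0x8000003) (nat_lit 112)) (.one (nat_lit 0x8000002004006008016400810e01002c611)) (.one (nat_lit 0x8000003004006008016600810e01002c611))) (.br (Nat.shiftLeft (nat_lit 0x2000001) (nat_lit 114)) (.one (nat_lit 0x8000003005006008016600a10e01002c611)) (.one (nat_lit 0x8000004005006008016800a10e01002c611)))))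
def t193 : k193.all (jb2 57 fl b0) = true := by decide +kernel
noncomputable def s9 : KT := (.br (nat_lit 0x4000005006008016000a00c09102c511) (.br (nat_lit 0x5000006008016a00000c01002c411) (.br (nat_lit 0x1004006008016200800c01002c650) (.br (nat_lit 0x1003006008016200600c01002d600) k175 k176) (.br (nat_lit 0x2004006008016400800c01002d600) k177 k178)) (.br (nat_lit 0x1002004006008016400800c03042c760) (.br (nat_lit 0x1002003006008016400600c03042c760) k179 k180) (.br (nat_lit 0x2000005006008016000a00c05082c511) k181 (.br (nat_lit 0x2003005006008016600a00c05082c760) k182 k183)))) (.br (nat_lit 0x500000100300600801620060ad41002c611) (.br (nat_lit 0x7000002006008016000400c0f1c2c511) (.br (nat_lit 0x6000002006008016000400c0d182c511) k184 k185) (.br (nat_lit 0x8000002006008016000400c11202c511) k186 (.br (nat_lit 0x4000001003006008016200608d01002c611) k187 k188))) (.br (nat_lit 0x600000200300600801640060cd81002c611) (.br (nat_lit 0x5000004005006008016800a0ad41002c611) k189 k190) (.br (nat_lit 0x700000100200600801620040edc1002c611)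 k191 (.br (nat_lit 0x7000004005006008016800a0edc1002c611) k192 k193)))))
noncomputable def u9 : KT := (.one (nat_lit 0x6008016000000c01002c430))
def w9 : u9.all (wj 57 s9) = true := by decide +kernel
def o9 : OkW 57 (jb2 57 fl) u9 := .lift s9 _ (.br _ _ _ (.br _ _ _ (.br _ _ _ (.br _ _ _ (.leaf b0 k175 t175) (.leaf b0 k176 t176)) (.br _ _ _ (.leaf b0 k177 t177) (.leaf b0 k178 t178))) (.br _ _ _ (.br _ _ _ (.leaf b0 k179 t179) (.leaf b0 k180 t180)) (.br _ _ _ (.leaf b0 k181 t181) (.br _ _ _ (.leaf b0 k182 t182) (.leaf b0 k183 t183))))) (.br _ _ _ (.br _ _ _ (.br _ _ _ (.leaf b0 k184 t184) (.leaf b0 k185 t185)) (.br _ _ _ (.leaf b0 k186 t186) (.br _ _ _ (.leaf b0 k187 t187) (.leaf b0 k188 t188)))) (.br _ _ _ (.br _ _ _ (.leaf b0 k189 t189) (.leaf b0 k190 t190)) (.br _ _ _ (.leaf b0 k191 t191) (.br _ _ _ (.leaf b0 k192 t192) (.leaf b0 k193 t193)))))) w9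
noncomputable def k194 : KT := (.br (Nat.shiftLeft (nat_lit 0x3) (nat_lit 100)) (.br (Nat.shiftLeft (nat_lit 0x1) (nat_lit 100)) (.one (nat_lit 0x6008017000000c01002f400)) (.br (Nat.shiftLeft (nat_lit 0x1) (nat_lit 101)) (.one (nat_lit 0x1006008017000200c01002e540)) (.one (nat_lit 0x2006008017000400c01002f500)))) (.br (Nat.shiftLeft (nat_lit 0x5) (nat_lit 100)) (.br (Nat.shiftLeft (nat_lit 0x1) (nat_lit 102)) (.one (nat_lit 0x3006008017000600c01002f500)) (.one (nat_lit 0x4006008017000800c01002f500))) (.br (Nat.shiftLeft (nat_lit 0x1) (nat_lit 112)) (.one (nat_lit 0x5006008017000a00c01002f500)) (.one (nat_lit 0x1000006008017200000c01002e411)))))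
def t194 : k194.all (jb2 57 fl b0) = true := by decide +kernel
noncomputable def k195 : KT := (.one (nat_lit 0x1002006008017200400c01002e650))
def t195 : k195.all (jb2 57 fl b0) = true := by decide +kernel
noncomputable def k196 : KT := (.one (nat_lit 0x1003006008017200600c01002e650))
def t196 : k196.all (jb2 57 fl b0) = true := by decide +kernel
noncomputable def k197 : KT := (.one (nat_lit 0x1004006008017200800c01002e650))
def t197 : k197.all (jb2 57 fl b0) = true := by decide +kernel
noncomputable def k198 : KT := (.br (Nat.shiftLeft (nat_lit 0x1) (nat_lit 113)) (.one (nat_lit 0x1005006008017200a00c01002e650)) (.br (Nat.shiftLeft (nat_lit 0x1001) (nat_lit 101)) (.one (nat_lit 0x2000006008017400000c01002e411)) (.one (nat_lit 0x2003006008017400600c01002f600))))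
def t198 : k198.all (jb2 57 fl b0) = true := by decide +kernel
noncomputable def k199 : KT := (.one (nat_lit 0x2004006008017400800c01002e650))
def t199 : k199.all (jb2 57 fl b0) = true := by decide +kernel
noncomputable def k200 : KT := (.br (Nat.shiftLeft (nat_lit 0x3) (nat_lit 112)) (.one (nat_lit 0x2005006008017400a00c01002e650)) (.br (Nat.shiftLeft (nat_lit 0xc01) (nat_lit 102)) (.one (nat_lit 0x3000006008017600000c01002e411)) (.one (nat_lit 0x3004006008017600800c01002f600))))
def t200 : k200.all (jb2 57 fl b0) = true := by decide +kernel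
noncomputable def k201 : KT := (.br (Nat.shiftLeft (nat_lit 0x1) (nat_lit 114)) (.one (nat_lit 0x3005006008017600a00c01002e650)) (.one (nat_lit 0x4000006008017800000c01002e411)))
def t201 : k201.all (jb2 57 fl b0) = true := by decide +kernel
noncomputable def k202 : KT := (.br (Nat.shiftLeft (nat_lit 0x1) (nat_lit 115)) (.br (Nat.shiftLeft (nat_lit 0x3) (nat_lit 113)) (.br (Nat.shiftLeft (nat_lit 0x5) (nat_lit 112)) (.one (nat_lit 0x4005006008017800a00c01002e650)) (.one (nat_lit 0x5000006008017a00000c01002e411))) (.br (Nat.shiftLeft (nat_lit 0x7) (nat_lit 112)) (.one (nat_lit 0x6000006008017c00000c01002e411)) (.one (nat_lit 0x7000006008017e00000c01002e411)))) (.br (Nat.shiftLeft (nat_lit 0x1000003) (nat_lit 100)) (.br (Nat.shiftLeft (nat_lit 0x1) (nat_lit 124)) (.one (nat_lit 0x8000006008017000000c010130411)) (.one (nat_lit 0x1000002006008017000400c03042e511))) (.br (Nat.shiftLeft (nat_lit 0x400001) (nat_lit 102)) (.one (nat_lit 0x1000003006008017000600c03042e511)) (.br (Nat.shiftLeft (nat_lit 0x1000005) (nat_lit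 100)) (.one (nat_lit 0x1000004006008017000800c03042e511)) (.one (nat_lit 0x1000005006008017000a00c03042e511))))))
def t202 : k202.all (jb2 57 fl b0) = true := by decide +kernel
noncomputable def k203 : KT := (.br (Nat.shiftLeft (nat_lit 0x2000003) (nat_lit 100)) (.br (Nat.shiftLeft (nat_lit 0x1003) (nat_lit 112)) (.one (nat_lit 0x1002003006008017400600c03042e760)) (.br (Nat.shiftLeft (nat_lit 0x1) (nat_lit 125)) (.one (nat_lit 0x1003004006008017600800c03042e760)) (.one (nat_lit 0x2000002006008017000400c05082e511)))) (.br (Nat.shiftLeft (nat_lit 0x800001) (nat_lit 102)) (.one (nat_lit 0x2000003006008017000600c05082e511)) (.br (Nat.shiftLeft (nat_lit 0x2000005) (nat_lit 100)) (.one (nat_lit 0x2000004006008017000800c05082e511)) (.one (nat_lit 0x2000005006008017000a00c05082e511)))))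
def t203 : k203.all (jb2 57 fl b0) = true := by decide +kernel
noncomputable def k204 : KT := (.br (Nat.shiftLeft (nat_lit 0x1) (nat_lit 126)) (.br (Nat.shiftLeft (nat_lit 0x3000003) (nat_lit 100)) (.br (Nat.shiftLeft (nat_lit 0x3) (nat_lit 124)) (.one (nat_lit 0x2003004006008017600800c05082e760)) (.one (nat_lit 0x3000002006008017000400c070c2e511))) (.br (Nat.shiftLeft (nat_lit 0xc00001) (nat_lit 102)) (.one (nat_lit 0x3000003006008017000600c070c2e511)) (.br (Nat.shiftLeft (nat_lit 0x3000005) (nat_lit 100)) (.one (nat_lit 0x3000004006008017000800c070c2e511)) (.one (nat_lit 0x3000005006008017000a00c070c2e511))))) (.br (Nat.shiftLeft (nat_lit 0x1000001) (nat_lit 102)) (.br (Nat.shiftLeft (nat_lit 0x4000003) (nat_lit 100)) (.one (nat_lit 0x4000002006008017000400c09102e511)) (.one (nat_lit 0x4000003006008017000600c09102e511))) (.br (Nat.shiftLeft (nat_lit 0x4000005) (nat_lit 100)) (.one (nat_lit 0x4000004006008017000800c09102e511)) (.br (Nat.shiftLeft (nat_lit 0x5) (nat_lit 124)) (.one (nat_lit 0x4000005006008017000a00c09102e511))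 (.one (nat_lit 0x5000002006008017000400c0b142e511))))))
def t204 : k204.all (jb2 57 fl b0) = true := by decide +kernel
noncomputable def k205 : KT := (.br (Nat.shiftLeft (nat_lit 0x5000005) (nat_lit 100)) (.br (Nat.shiftLeft (nat_lit 0x1400001) (nat_lit 102)) (.one (nat_lit 0x5000003006008017000600c0b142e511)) (.one (nat_lit 0x5000004006008017000800c0b142e511))) (.br (Nat.shiftLeft (nat_lit 0x3) (nat_lit 125)) (.one (nat_lit 0x5000005006008017000a00c0b142e511)) (.br (Nat.shiftLeft (nat_lit 0x6000003) (nat_lit 100)) (.one (nat_lit 0x6000002006008017000400c0d182e511)) (.one (nat_lit 0x6000003006008017000600c0d182e511)))))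
def t205 : k205.all (jb2 57 fl b0) = true := by decide +kernel
noncomputable def k206 : KT := (.br (Nat.shiftLeft (nat_lit 0x7) (nat_lit 124)) (.br (Nat.shiftLeft (nat_lit 0x6000005) (nat_lit 100)) (.one (nat_lit 0x6000004006008017000800c0d182e511)) (.one (nat_lit 0x6000005006008017000a00c0d182e511))) (.br (Nat.shiftLeft (nat_lit 0x7000003) (nat_lit 100)) (.one (nat_lit 0x7000002006008017000400c0f1c2e511)) (.br (Nat.shiftLeft (nat_lit 0x1c00001) (nat_lit 102)) (.one (nat_lit 0x7000003006008017000600c0f1c2e511)) (.one (nat_lit 0x7000004006008017000800c0f1c2e511)))))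
def t206 : k206.all (jb2 57 fl b0) = true := by decide +kernel
noncomputable def k207 : KT := (.br (Nat.shiftLeft (nat_lit 0x1000003) (nat_lit 112)) (.br (Nat.shiftLeft (nat_lit 0x2000001) (nat_lit 102)) (.br (Nat.shiftLeft (nat_lit 0x1) (nat_lit 127)) (.one (nat_lit 0x7000005006008017000a00c0f1c2e511)) (.br (Nat.shiftLeft (nat_lit 0x8000003) (nat_lit 100)) (.one (nat_lit 0x8000002006008017000400c11202e511)) (.one (nat_lit 0x8000003006008017000600c11202e511)))) (.br (Nat.shiftLeft (nat_lit 0x8000005) (nat_lit 100)) (.one (nat_lit 0x8000004006008017000800c11202e511)) (.br (Nat.shiftLeft (nat_lit 0x1) (nat_lit 136)) (.one (nat_lit 0x8000005006008017000a00c11202e511)) (.one (nat_lit 0x1000002003006008017400602c41002e611))))) (.br (Nat.shiftLeft (nat_lit 0x3) (nat_lit 136)) (.br (Nat.shiftLeft (nat_lit 0x1) (nat_lit 137)) (.one (nat_lit 0x1000003004006008017600802c41002e611)) (.br (Nat.shiftLeft (nat_lit 0x2000003) (nat_lit 112)) (.one (nat_lit 0x2000002003006008017400604c81002e611)) (.one (nat_lit 0x2000003004006008017600804c81002e611))))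 (.br (Nat.shiftLeft (nat_lit 0x1) (nat_lit 138)) (.br (Nat.shiftLeft (nat_lit 0x3000003) (nat_lit 112)) (.one (nat_lit 0x3000002003006008017400606cc1002e611)) (.one (nat_lit 0x3000003004006008017600806cc1002e611))) (.br (Nat.shiftLeft (nat_lit 0x4000003) (nat_lit 112)) (.one (nat_lit 0x4000002003006008017400608d01002e611)) (.one (nat_lit 0x4000003004006008017600808d01002e611))))))
def t207 : k207.all (jb2 57 fl b0) = true := by decide +kernel
noncomputable def k208 : KT := (.br (Nat.shiftLeft (nat_lit 0x7) (nat_lit 136)) (.br (Nat.shiftLeft (nat_lit 0x3) (nat_lit 137)) (.br (Nat.shiftLeft (nat_lit 0x5000003) (nat_lit 112)) (.one (nat_lit 0x500000200300600801740060ad41002e611)) (.one (nat_lit 0x500000300400600801760080ad41002e611))) (.br (Nat.shiftLeft (nat_lit 0x6000003) (nat_lit 112)) (.one (nat_lit 0x600000200300600801740060cd81002e611)) (.one (nat_lit 0x600000300400600801760080cd81002e611)))) (.br (Nat.shiftLeft (nat_lit 0x1) (nat_lit 139)) (.br (Nat.shiftLeft (nat_lit 0x7000003) (nat_lit 112)) (.one (nat_lit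 0x700000200300600801740060edc1002e611)) (.one (nat_lit 0x700000300400600801760080edc1002e611))) (.br (Nat.shiftLeft (nat_lit 0x8000003) (nat_lit 112)) (.one (nat_lit 0x8000002003006008017400610e01002e611)) (.one (nat_lit 0x8000003004006008017600810e01002e611)))))
def t208 : k208.all (jb2 57 fl b0) = true := by decide +kernel
noncomputable def s10 : KT := (.br (nat_lit 0x3004006008017600800c01002f600) (.br (nat_lit 0x1003006008017200600c01002e650) (.br (nat_lit 0x1000006008017200000c01002e411) k194 (.br (nat_lit 0x1002006008017200400c01002e650) k195 k196)) (.br (nat_lit 0x2003006008017400600c01002f600) (.br (nat_lit 0x1004006008017200800c01002e650) k197 k198) (.br (nat_lit 0x2004006008017400800c01002e650) k199 k200))) (.br (nat_lit 0x5000002006008017000400c0b142e511) (.br (nat_lit 0x1000005006008017000a00c03042e511) (.br (nat_lit 0x4000006008017800000c01002e411) k201 k202) (.br (nat_lit 0x2000005006008017000a00c05082e511) k203 k204)) (.br (nat_lit 0x7000004006008017000800c0f1c2e511) (.br (nat_lit 0x6000003006008017000600c0d182e511)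 k205 k206) (.br (nat_lit 0x4000003004006008017600808d01002e611) k207 k208))))
noncomputable def u10 : KT := (.one (nat_lit 0x6008017000000c01002e430))
def w10 : u10.all (wj 57 s10) = true := by decide +kernel
def o10 : OkW 57 (jb2 57 fl) u10 := .lift s10 _ (.br _ _ _ (.br _ _ _ (.br _ _ _ (.leaf b0 k194 t194) (.br _ _ _ (.leaf b0 k195 t195) (.leaf b0 k196 t196))) (.br _ _ _ (.br _ _ _ (.leaf b0 k197 t197) (.leaf b0 k198 t198)) (.br _ _ _ (.leaf b0 k199 t199) (.leaf b0 k200 t200)))) (.br _ _ _ (.br _ _ _ (.br _ _ _ (.leaf b0 k201 t201) (.leaf b0 k202 t202)) (.br _ _ _ (.leaf b0 k203 t203) (.leaf b0 k204 t204))) (.br _ _ _ (.br _ _ _ (.leaf b0 k205 t205) (.leaf b0 k206 t206)) (.br _ _ _ (.leaf b0 k207 t207) (.leaf b0 k208 t208))))) w10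
noncomputable def k209 : KT := (.br (Nat.shiftLeft (nat_lit 0x6008019) (nat_lit 64)) (.one (nat_lit 0x6008018000000c010031400)) (.br (Nat.shiftLeft (nat_lit 0x1) (nat_lit 100)) (.one (nat_lit 0x6008019000000c010033400)) (.one (nat_lit 0x1006008018000200c010030540))))
def t209 : k209.all (jb2 57 fl b0) = true := by decide +kernel
noncomputable def k210 : KT := (.br (Nat.shiftLeft (nat_lit 0x1) (nat_lit 102)) (.br (Nat.shiftLeft (nat_lit 0x2006008019) (nat_lit 64)) (.br (Nat.shiftLeft (nat_lit 0x1) (nat_lit 101)) (.one (nat_lit 0x1006008019000200c010032540)) (.one (nat_lit 0x2006008018000400c010031500))) (.br (Nat.shiftLeft (nat_lit 0x3) (nat_lit 100)) (.one (nat_lit 0x2006008019000400c010033500)) (.br (Nat.shiftLeft (nat_lit 0x3006008019) (nat_lit 64)) (.one (nat_lit 0x3006008018000600c010031500)) (.one (nat_lit 0x3006008019000600c010033500))))) (.br (Nat.shiftLeft (nat_lit 0x5006008019) (nat_lit 64)) (.br (Nat.shiftLeft (nat_lit 0x4006008019) (nat_lit 64)) (.one (nat_lit 0x4006008018000800c010031500)) (.br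 (Nat.shiftLeft (nat_lit 0x5) (nat_lit 100)) (.one (nat_lit 0x4006008019000800c010033500)) (.one (nat_lit 0x5006008018000a00c010031500)))) (.br (Nat.shiftLeft (nat_lit 0x1) (nat_lit 112)) (.one (nat_lit 0x5006008019000a00c010033500)) (.br (Nat.shiftLeft (nat_lit 0x1000006008019) (nat_lit 64)) (.one (nat_lit 0x1000006008018200000c010030411)) (.one (nat_lit 0x1000006008019200000c010032411))))))
def t210 : k210.all (jb2 57 fl b0) = true := by decide +kernel
noncomputable def k211 : KT := (.one (nat_lit 0x1002006008018200400c010030650))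
def t211 : k211.all (jb2 57 fl b0) = true := by decide +kernel
noncomputable def k212 : KT := (.one (nat_lit 0x1002006008019200400c010032650))
def t212 : k212.all (jb2 57 fl b0) = true := by decide +kernel
noncomputable def k213 : KT := (.one (nat_lit 0x1003006008018200600c010030650))
def t213 : k213.all (jb2 57 fl b0) = true := by decide +kernel
noncomputable def k214 : KT := (.one (nat_lit 0x1003006008019200600c010032650))
def t214 : k214.all (jb2 57 fl b0) = true := by decide +kernel
noncomputable def k215 : KT := (.br (Nat.shiftLeft (nat_lit 0x1004006008019) (nat_lit 64)) (.one (nat_lit 0x1004006008018200800c010030650)) (.one (nat_lit 0x1004006008019200800c010032650)))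
def t215 : k215.all (jb2 57 fl b0) = true := by decide +kernel
noncomputable def k216 : KT := (.br (Nat.shiftLeft (nat_lit 0x1) (nat_lit 113)) (.br (Nat.shiftLeft (nat_lit 0x1005006008019) (nat_lit 64)) (.one (nat_lit 0x1005006008018200a00c010030650)) (.one (nat_lit 0x1005006008019200a00c010032650))) (.br (Nat.shiftLeft (nat_lit 0x2000006008019) (nat_lit 64)) (.one (nat_lit 0x2000006008018400000c010030411)) (.one (nat_lit 0x2000006008019400000c010032411))))
def t216 : k216.all (jb2 57 fl b0) = true := by decide +kernel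
noncomputable def k217 : KT := (.one (nat_lit 0x2003006008018400600c010030650))
def t217 : k217.all (jb2 57 fl b0) = true := by decide +kernel
noncomputable def k218 : KT := (.one (nat_lit 0x2003006008019400600c010032650))
def t218 : k218.all (jb2 57 fl b0) = true := by decide +kernel
noncomputable def k219 : KT := (.one (nat_lit 0x2004006008018400800c010030650))
def t219 : k219.all (jb2 57 fl b0) = true := by decide +kernel
noncomputable def k220 : KT := (.br (Nat.shiftLeft (nat_lit 0x2005) (nat_lit 100)) (.one (nat_lit 0x2004006008019400800c010032650)) (.one (nat_lit 0x2005006008018400a00c010030650)))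
def t220 : k220.all (jb2 57 fl b0) = true := by decide +kernel
noncomputable def k221 : KT := (.br (Nat.shiftLeft (nat_lit 0x3) (nat_lit 112)) (.one (nat_lit 0x2005006008019400a00c010032650)) (.br (Nat.shiftLeft (nat_lit 0x3000006008019) (nat_lit 64)) (.one (nat_lit 0x3000006008018600000c010030411)) (.one (nat_lit 0x3000006008019600000c010032411))))
def t221 : k221.all (jb2 57 fl b0) = true := by decide +kernel
noncomputable def k222 : KT := (.one (nat_lit 0x3004006008018600800c010030650))
def t222 : k222.all (jb2 57 fl b0) = true := by decide +kernel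
noncomputable def k223 : KT := (.one (nat_lit 0x3004006008019600800c010032650))
def t223 : k223.all (jb2 57 fl b0) = true := by decide +kernel
noncomputable def k224 : KT := (.br (Nat.shiftLeft (nat_lit 0x1) (nat_lit 114)) (.br (Nat.shiftLeft (nat_lit 0x3005006008019) (nat_lit 64)) (.one (nat_lit 0x3005006008018600a00c010030650)) (.one (nat_lit 0x3005006008019600a00c010032650))) (.br (Nat.shiftLeft (nat_lit 0x4000006008019) (nat_lit 64)) (.one (nat_lit 0x4000006008018800000c010030411)) (.one (nat_lit 0x4000006008019800000c010032411))))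
def t224 : k224.all (jb2 57 fl b0) = true := by decide +kernel
noncomputable def k225 : KT := (.br (Nat.shiftLeft (nat_lit 0x5) (nat_lit 112)) (.br (Nat.shiftLeft (nat_lit 0x4005006008019) (nat_lit 64)) (.one (nat_lit 0x4005006008018800a00c010030650)) (.one (nat_lit 0x4005006008019800a00c010032650))) (.br (Nat.shiftLeft (nat_lit 0x5000006008019) (nat_lit 64)) (.one (nat_lit 0x5000006008018a00000c010030411)) (.br (Nat.shiftLeft (nat_lit 0x3) (nat_lit 113)) (.one (nat_lit 0x5000006008019a00000c010032411)) (.one (nat_lit 0x6000006008018c00000c010030411)))))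
def t225 : k225.all (jb2 57 fl b0) = true := by decide +kernel
noncomputable def k226 : KT := (.br (Nat.shiftLeft (nat_lit 0x2000004006008019) (nat_lit 64)) (.br (Nat.shiftLeft (nat_lit 0x400001) (nat_lit 102)) (.br (Nat.shiftLeft (nat_lit 0x8000006008019) (nat_lit 64)) (.br (Nat.shiftLeft (nat_lit 0x7000006008019) (nat_lit 64)) (.br (Nat.shiftLeft (nat_lit 0x7) (nat_lit 112)) (.one (nat_lit 0x6000006008019c00000c010032411)) (.one (nat_lit 0x7000006008018e00000c010030411))) (.br (Nat.shiftLeft (nat_lit 0x1) (nat_lit 115)) (.one (nat_lit 0x7000006008019e00000c010032411)) (.one (nat_lit 0x8000006008018000000c010132411)))) (.br (Nat.shiftLeft (nat_lit 0x1000002006008019) (nat_lit 64)) (.br (Nat.shiftLeft (nat_lit 0x1) (nat_lit 124)) (.one (nat_lit 0x8000006008019000000c010134411)) (.one (nat_lit 0x1000002006008018000400c030430511))) (.br (Nat.shiftLeft (nat_lit 0x1000003) (nat_lit 100)) (.one (nat_lit 0x1000002006008019000400c030432511)) (.br (Nat.shiftLeft (nat_lit 0x1000003006008019) (nat_lit 64)) (.one (nat_lit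 0x1000003006008018000600c030430511)) (.one (nat_lit 0x1000003006008019000600c030432511)))))) (.br (Nat.shiftLeft (nat_lit 0x1) (nat_lit 125)) (.br (Nat.shiftLeft (nat_lit 0x1000005) (nat_lit 100)) (.br (Nat.shiftLeft (nat_lit 0x1000004006008019) (nat_lit 64)) (.one (nat_lit 0x1000004006008018000800c030430511)) (.one (nat_lit 0x1000004006008019000800c030432511))) (.br (Nat.shiftLeft (nat_lit 0x1000005006008019) (nat_lit 64)) (.one (nat_lit 0x1000005006008018000a00c030430511)) (.one (nat_lit 0x1000005006008019000a00c030432511)))) (.br (Nat.shiftLeft (nat_lit 0x2000003) (nat_lit 100)) (.br (Nat.shiftLeft (nat_lit 0x2000002006008019) (nat_lit 64)) (.one (nat_lit 0x2000002006008018000400c050830511)) (.one (nat_lit 0x2000002006008019000400c050832511))) (.br (Nat.shiftLeft (nat_lit 0x2000003006008019) (nat_lit 64)) (.one (nat_lit 0x2000003006008018000600c050830511)) (.br (Nat.shiftLeft (nat_lit 0x800001) (nat_lit 102)) (.one (nat_lit 0x2000003006008019000600c050832511)) (.one (nat_lit 0x2000004006008018000800c050830511)))))))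 (.br (Nat.shiftLeft (nat_lit 0x3000005) (nat_lit 100)) (.br (Nat.shiftLeft (nat_lit 0x3000002006008019) (nat_lit 64)) (.br (Nat.shiftLeft (nat_lit 0x2000005006008019) (nat_lit 64)) (.br (Nat.shiftLeft (nat_lit 0x2000005) (nat_lit 100)) (.one (nat_lit 0x2000004006008019000800c050832511)) (.one (nat_lit 0x2000005006008018000a00c050830511))) (.br (Nat.shiftLeft (nat_lit 0x3) (nat_lit 124)) (.one (nat_lit 0x2000005006008019000a00c050832511)) (.one (nat_lit 0x3000002006008018000400c070c30511)))) (.br (Nat.shiftLeft (nat_lit 0x3000003006008019) (nat_lit 64)) (.br (Nat.shiftLeft (nat_lit 0x3000003) (nat_lit 100)) (.one (nat_lit 0x3000002006008019000400c070c32511)) (.one (nat_lit 0x3000003006008018000600c070c30511))) (.br (Nat.shiftLeft (nat_lit 0xc00001) (nat_lit 102)) (.one (nat_lit 0x3000003006008019000600c070c32511)) (.br (Nat.shiftLeft (nat_lit 0x3000004006008019) (nat_lit 64)) (.one (nat_lit 0x3000004006008018000800c070c30511)) (.one (nat_lit 0x3000004006008019000800c070c32511)))))) (.br (Nat.shiftLeft (nat_lit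 0x4000003006008019) (nat_lit 64)) (.br (Nat.shiftLeft (nat_lit 0x1) (nat_lit 126)) (.br (Nat.shiftLeft (nat_lit 0x3000005006008019) (nat_lit 64)) (.one (nat_lit 0x3000005006008018000a00c070c30511)) (.one (nat_lit 0x3000005006008019000a00c070c32511))) (.br (Nat.shiftLeft (nat_lit 0x4000002006008019) (nat_lit 64)) (.one (nat_lit 0x4000002006008018000400c091030511)) (.br (Nat.shiftLeft (nat_lit 0x4000003) (nat_lit 100)) (.one (nat_lit 0x4000002006008019000400c091032511)) (.one (nat_lit 0x4000003006008018000600c091030511))))) (.br (Nat.shiftLeft (nat_lit 0x4000004006008019) (nat_lit 64)) (.br (Nat.shiftLeft (nat_lit 0x1000001) (nat_lit 102)) (.one (nat_lit 0x4000003006008019000600c091032511)) (.one (nat_lit 0x4000004006008018000800c091030511))) (.br (Nat.shiftLeft (nat_lit 0x4000005) (nat_lit 100)) (.one (nat_lit 0x4000004006008019000800c091032511)) (.br (Nat.shiftLeft (nat_lit 0x4000005006008019) (nat_lit 64)) (.one (nat_lit 0x4000005006008018000a00c091030511)) (.one (nat_lit 0x4000005006008019000a00c091032511))))))))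
def t226 : k226.all (jb2 57 fl b0) = true := by decide +kernel
noncomputable def k227 : KT := (.br (Nat.shiftLeft (nat_lit 0x1400001) (nat_lit 102)) (.br (Nat.shiftLeft (nat_lit 0x5000003) (nat_lit 100)) (.br (Nat.shiftLeft (nat_lit 0x5000002006008019) (nat_lit 64)) (.one (nat_lit 0x5000002006008018000400c0b1430511)) (.one (nat_lit 0x5000002006008019000400c0b1432511))) (.br (Nat.shiftLeft (nat_lit 0x5000003006008019) (nat_lit 64)) (.one (nat_lit 0x5000003006008018000600c0b1430511)) (.one (nat_lit 0x5000003006008019000600c0b1432511)))) (.br (Nat.shiftLeft (nat_lit 0x5000005) (nat_lit 100)) (.br (Nat.shiftLeft (nat_lit 0x5000004006008019) (nat_lit 64)) (.one (nat_lit 0x5000004006008018000800c0b1430511)) (.one (nat_lit 0x5000004006008019000800c0b1432511))) (.br (Nat.shiftLeft (nat_lit 0x5000005006008019) (nat_lit 64)) (.one (nat_lit 0x5000005006008018000a00c0b1430511)) (.one (nat_lit 0x5000005006008019000a00c0b1432511)))))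
def t227 : k227.all (jb2 57 fl b0) = true := by decide +kernel
noncomputable def k228 : KT := (.br (Nat.shiftLeft (nat_lit 0x6000003006008019) (nat_lit 64)) (.br (Nat.shiftLeft (nat_lit 0x6000002006008019) (nat_lit 64)) (.one (nat_lit 0x6000002006008018000400c0d1830511)) (.br (Nat.shiftLeft (nat_lit 0x6000003) (nat_lit 100)) (.one (nat_lit 0x6000002006008019000400c0d1832511)) (.one (nat_lit 0x6000003006008018000600c0d1830511)))) (.br (Nat.shiftLeft (nat_lit 0x6000004006008019) (nat_lit 64)) (.br (Nat.shiftLeft (nat_lit 0x1800001) (nat_lit 102)) (.one (nat_lit 0x6000003006008019000600c0d1832511)) (.one (nat_lit 0x6000004006008018000800c0d1830511))) (.br (Nat.shiftLeft (nat_lit 0x6000005) (nat_lit 100)) (.one (nat_lit 0x6000004006008019000800c0d1832511)) (.one (nat_lit 0x6000005006008018000a00c0d1830511)))))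
def t228 : k228.all (jb2 57 fl b0) = true := by decide +kernel
noncomputable def k229 : KT := (.br (Nat.shiftLeft (nat_lit 0x7000003006008019) (nat_lit 64)) (.br (Nat.shiftLeft (nat_lit 0x7000002006008019) (nat_lit 64)) (.br (Nat.shiftLeft (nat_lit 0x7) (nat_lit 124)) (.one (nat_lit 0x6000005006008019000a00c0d1832511)) (.one (nat_lit 0x7000002006008018000400c0f1c30511))) (.br (Nat.shiftLeft (nat_lit 0x7000003) (nat_lit 100)) (.one (nat_lit 0x7000002006008019000400c0f1c32511)) (.one (nat_lit 0x7000003006008018000600c0f1c30511)))) (.br (Nat.shiftLeft (nat_lit 0x7000004006008019) (nat_lit 64)) (.br (Nat.shiftLeft (nat_lit 0x1c00001) (nat_lit 102)) (.one (nat_lit 0x7000003006008019000600c0f1c32511)) (.one (nat_lit 0x7000004006008018000800c0f1c30511))) (.br (Nat.shiftLeft (nat_lit 0x7000005) (nat_lit 100)) (.one (nat_lit 0x7000004006008019000800c0f1c32511)) (.br (Nat.shiftLeft (nat_lit 0x7000005006008019) (nat_lit 64)) (.one (nat_lit 0x7000005006008018000a00c0f1c30511)) (.one (nat_lit 0x7000005006008019000a00c0f1c32511))))))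
def t229 : k229.all (jb2 57 fl b0) = true := by decide +kernel
noncomputable def k230 : KT := (.br (Nat.shiftLeft (nat_lit 0x2000001) (nat_lit 102)) (.br (Nat.shiftLeft (nat_lit 0x8000003) (nat_lit 100)) (.br (Nat.shiftLeft (nat_lit 0x8000002006008019) (nat_lit 64)) (.one (nat_lit 0x8000002006008018000400c112030511)) (.one (nat_lit 0x8000002006008019000400c112032511))) (.br (Nat.shiftLeft (nat_lit 0x8000003006008019) (nat_lit 64)) (.one (nat_lit 0x8000003006008018000600c112030511)) (.one (nat_lit 0x8000003006008019000600c112032511)))) (.br (Nat.shiftLeft (nat_lit 0x8000005) (nat_lit 100)) (.br (Nat.shiftLeft (nat_lit 0x8000004006008019) (nat_lit 64)) (.one (nat_lit 0x8000004006008018000800c112030511)) (.one (nat_lit 0x8000004006008019000800c112032511))) (.br (Nat.shiftLeft (nat_lit 0x8000005006008019) (nat_lit 64)) (.one (nat_lit 0x8000005006008018000a00c112030511)) (.one (nat_lit 0x8000005006008019000a00c112032511)))))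
def t230 : k230.all (jb2 57 fl b0) = true := by decide +kernel
noncomputable def s11 : KT := (.br (nat_lit 0x2004006008018400800c010030650) (.br (nat_lit 0x1003006008018200600c010030650) (.br (nat_lit 0x1000006008019200000c010032411) (.br (nat_lit 0x1006008018000200c010030540) k209 k210) (.br (nat_lit 0x1002006008018200400c010030650) k211 (.br (nat_lit 0x1002006008019200400c010032650) k212 k213))) (.br (nat_lit 0x2000006008019400000c010032411) (.br (nat_lit 0x1003006008019200600c010032650) k214 (.br (nat_lit 0x1004006008019200800c010032650) k215 k216)) (.br (nat_lit 0x2003006008018400600c010030650) k217 (.br (nat_lit 0x2003006008019400600c010032650) k218 k219)))) (.br (nat_lit 0x4000006008019800000c010032411) (.br (nat_lit 0x3000006008019600000c010032411) (.br (nat_lit 0x2005006008018400a00c010030650) k220 k221) (.br (nat_lit 0x3004006008018600800c010030650) k222 (.br (nat_lit 0x3004006008019600800c010032650) k223 k224))) (.br (nat_lit 0x5000005006008019000a00c0b1432511) (.br (nat_lit 0x6000006008018c00000c010030411)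 k225 (.br (nat_lit 0x4000005006008019000a00c091032511) k226 k227)) (.br (nat_lit 0x6000005006008018000a00c0d1830511) k228 (.br (nat_lit 0x7000005006008019000a00c0f1c32511) k229 k230)))))
noncomputable def u11 : KT := (.br (Nat.shiftLeft (nat_lit 0x6008019) (nat_lit 64)) (.one (nat_lit 0x6008018000000c010030430)) (.one (nat_lit 0x6008019000000c010032430)))
def w11 : u11.all (wj 57 s11) = true := by decide +kernel
def o11 : OkW 57 (jb2 57 fl) u11 := .lift s11 _ (.br _ _ _ (.br _ _ _ (.br _ _ _ (.br _ _ _ (.leaf b0 k209 t209) (.leaf b0 k210 t210)) (.br _ _ _ (.leaf b0 k211 t211) (.br _ _ _ (.leaf b0 k212 t212) (.leaf b0 k213 t213)))) (.br _ _ _ (.br _ _ _ (.leaf b0 k214 t214) (.br _ _ _ (.leaf b0 k215 t215) (.leaf b0 k216 t216))) (.br _ _ _ (.leaf b0 k217 t217) (.br _ _ _ (.leaf b0 k218 t218) (.leaf b0 k219 t219))))) (.br _ _ _ (.br _ _ _ (.br _ _ _ (.leaf b0 k220 t220) (.leaf b0 k221 t221)) (.br _ _ _ (.leaf b0 k222 t222) (.br _ _ _ (.leaf b0 k223 t223) (.leaf b0 k224 t224)))) (.br _ _ _ (.br _ _ _ (.leaf b0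 k225 t225) (.br _ _ _ (.leaf b0 k226 t226) (.leaf b0 k227 t227))) (.br _ _ _ (.leaf b0 k228 t228) (.br _ _ _ (.leaf b0 k229 t229) (.leaf b0 k230 t230)))))) w11
noncomputable def k231 : KT := (.br (Nat.shiftLeft (nat_lit 0x6009013) (nat_lit 64)) (.br (Nat.shiftLeft (nat_lit 0x6009) (nat_lit 76)) (.one (nat_lit 0x600801a000000c010035400)) (.br (Nat.shiftLeft (nat_lit 0x3004809) (nat_lit 65)) (.one (nat_lit 0x6009011000000c012023400)) (.one (nat_lit 0x6009012000000c012025400)))) (.br (Nat.shiftLeft (nat_lit 0x1802405) (nat_lit 66)) (.one (nat_lit 0x6009013000000c012027400)) (.br (Nat.shiftLeft (nat_lit 0x1) (nat_lit 100)) (.one (nat_lit 0x6009014000000c012029400)) (.one (nat_lit 0x100600801a000200c010034540)))))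
def t231 : k231.all (jb2 57 fl b0) = true := by decide +kernel
noncomputable def k232 : KT := (.br (Nat.shiftLeft (nat_lit 0x1) (nat_lit 102)) (.br (Nat.shiftLeft (nat_lit 0x3) (nat_lit 100)) (.one (nat_lit 0x200600801a000400c010034540)) (.one (nat_lit 0x300600801a000600c010035500))) (.br (Nat.shiftLeft (nat_lit 0x5) (nat_lit 100)) (.one (nat_lit 0x400600801a000800c010035500)) (.br (Nat.shiftLeft (nat_lit 0x1) (nat_lit 112)) (.one (nat_lit 0x500600801a000a00c010035500)) (.one (nat_lit 0x100000600801a200000c010034411)))))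
def t232 : k232.all (jb2 57 fl b0) = true := by decide +kernel
noncomputable def k233 : KT := (.br (Nat.shiftLeft (nat_lit 0x1005) (nat_lit 100)) (.br (Nat.shiftLeft (nat_lit 0x401) (nat_lit 102)) (.one (nat_lit 0x100300600801a200600c010034650)) (.one (nat_lit 0x100400600801a200800c010034650))) (.br (Nat.shiftLeft (nat_lit 0x1) (nat_lit 113)) (.one (nat_lit 0x100500600801a200a00c010034650)) (.one (nat_lit 0x200000600801a400000c010034411))))
def t233 : k233.all (jb2 57 fl b0) = true := by decide +kernel
noncomputable def k234 : KT := (.br (Nat.shiftLeft (nat_lit 0x801) (nat_lit 102)) (.one (nat_lit 0x200300600801a400600c010034650)) (.one (nat_lit 0x200400600801a400800c010034650)))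
def t234 : k234.all (jb2 57 fl b0) = true := by decide +kernel
noncomputable def k235 : KT := (.br (Nat.shiftLeft (nat_lit 0xc01) (nat_lit 102)) (.br (Nat.shiftLeft (nat_lit 0x3) (nat_lit 112)) (.one (nat_lit 0x200500600801a400a00c010034650)) (.one (nat_lit 0x300000600801a600000c010034411))) (.br (Nat.shiftLeft (nat_lit 0x3005) (nat_lit 100)) (.one (nat_lit 0x300400600801a600800c010034650)) (.br (Nat.shiftLeft (nat_lit 0x1) (nat_lit 114)) (.one (nat_lit 0x300500600801a600a00c010034650)) (.one (nat_lit 0x400000600801a800000c010034411)))))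
def t235 : k235.all (jb2 57 fl b0) = true := by decide +kernel
noncomputable def k236 : KT := (.br (Nat.shiftLeft (nat_lit 0x2000005) (nat_lit 100)) (.br (Nat.shiftLeft (nat_lit 0x1) (nat_lit 124)) (.br (Nat.shiftLeft (nat_lit 0x3) (nat_lit 113)) (.br (Nat.shiftLeft (nat_lit 0x5) (nat_lit 112)) (.one (nat_lit 0x400500600801a800a00c010034650)) (.one (nat_lit 0x500000600801aa00000c010034411))) (.br (Nat.shiftLeft (nat_lit 0x7) (nat_lit 112)) (.one (nat_lit 0x600000600801ac00000c010034411)) (.br (Nat.shiftLeft (nat_lit 0x1) (nat_lit 115)) (.one (nat_lit 0x700000600801ae00000c010034411)) (.one (nat_lit 0x800000600801a000000c010136411))))) (.br (Nat.shiftLeft (nat_lit 0x1000005) (nat_lit 100)) (.br (Nat.shiftLeft (nat_lit 0x400001) (nat_lit 102)) (.one (nat_lit 0x100000300600801a000600c030434511)) (.one (nat_lit 0x100000400600801a000800c030434511))) (.br (Nat.shiftLeft (nat_lit 0x1) (nat_lit 125)) (.one (nat_lit 0x100000500600801a000a00c030434511)) (.br (Nat.shiftLeft (nat_lit 0x800001) (nat_lit 102)) (.one (nat_lit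 0x200000300600801a000600c050834511)) (.one (nat_lit 0x200000400600801a000800c050834511)))))) (.br (Nat.shiftLeft (nat_lit 0x1000001) (nat_lit 102)) (.br (Nat.shiftLeft (nat_lit 0xc00001) (nat_lit 102)) (.br (Nat.shiftLeft (nat_lit 0x3) (nat_lit 124)) (.one (nat_lit 0x200000500600801a000a00c050834511)) (.one (nat_lit 0x300000300600801a000600c070c34511))) (.br (Nat.shiftLeft (nat_lit 0x3000005) (nat_lit 100)) (.one (nat_lit 0x300000400600801a000800c070c34511)) (.br (Nat.shiftLeft (nat_lit 0x1) (nat_lit 126)) (.one (nat_lit 0x300000500600801a000a00c070c34511)) (.one (nat_lit 0x400000300600801a000600c091034511))))) (.br (Nat.shiftLeft (nat_lit 0x5) (nat_lit 124)) (.br (Nat.shiftLeft (nat_lit 0x4000005) (nat_lit 100)) (.one (nat_lit 0x400000400600801a000800c091034511)) (.one (nat_lit 0x400000500600801a000a00c091034511))) (.br (Nat.shiftLeft (nat_lit 0x1400001) (nat_lit 102)) (.one (nat_lit 0x500000300600801a000600c0b1434511)) (.br (Nat.shiftLeft (nat_lit 0x5000005) (nat_lit 100)) (.one (nat_lit 0x500000400600801a000800c0b1434511))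 (.one (nat_lit 0x500000500600801a000a00c0b1434511)))))))
def t236 : k236.all (jb2 57 fl b0) = true := by decide +kernel
noncomputable def k237 : KT := (.br (Nat.shiftLeft (nat_lit 0x1c00001) (nat_lit 102)) (.br (Nat.shiftLeft (nat_lit 0x6000005) (nat_lit 100)) (.br (Nat.shiftLeft (nat_lit 0x1800001) (nat_lit 102)) (.one (nat_lit 0x600000300600801a000600c0d1834511)) (.one (nat_lit 0x600000400600801a000800c0d1834511))) (.br (Nat.shiftLeft (nat_lit 0x7) (nat_lit 124)) (.one (nat_lit 0x600000500600801a000a00c0d1834511)) (.one (nat_lit 0x700000300600801a000600c0f1c34511)))) (.br (Nat.shiftLeft (nat_lit 0x1) (nat_lit 127)) (.br (Nat.shiftLeft (nat_lit 0x7000005) (nat_lit 100)) (.one (nat_lit 0x700000400600801a000800c0f1c34511)) (.one (nat_lit 0x700000500600801a000a00c0f1c34511))) (.br (Nat.shiftLeft (nat_lit 0x2000001) (nat_lit 102)) (.one (nat_lit 0x800000300600801a000600c112034511)) (.br (Nat.shiftLeft (nat_lit 0x8000005) (nat_lit 100)) (.one (nat_lit 0x800000400600801a000800c112034511)) (.one (nat_lit 0x800000500600801a000a00c112034511))))))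
def t237 : k237.all (jb2 57 fl b0) = true := by decide +kernel
noncomputable def s12 : KT := (.br (nat_lit 0x200000600801a400000c010034411) (.br (nat_lit 0x100600801a000200c010034540) k231 (.br (nat_lit 0x100000600801a200000c010034411) k232 k233)) (.br (nat_lit 0x400000600801a800000c010034411) (.br (nat_lit 0x200400600801a400800c010034650) k234 k235) (.br (nat_lit 0x500000500600801a000a00c0b1434511) k236 k237)))
noncomputable def u12 : KT := (.br (Nat.shiftLeft (nat_lit 0x3004809) (nat_lit 65)) (.br (Nat.shiftLeft (nat_lit 0x6009) (nat_lit 76)) (.one (nat_lit 0x600801a000000c010034430)) (.one (nat_lit 0x6009011000000c012023400))) (.br (Nat.shiftLeft (nat_lit 0x6009013) (nat_lit 64)) (.one (nat_lit 0x6009012000000c012025400)) (.br (Nat.shiftLeft (nat_lit 0x1802405) (nat_lit 66)) (.one (nat_lit 0x6009013000000c012027400)) (.one (nat_lit 0x6009014000000c012029400)))))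
def w12 : u12.all (wj 57 s12) = true := by decide +kernel
def o12 : OkW 57 (jb2 57 fl) u12 := .lift s12 _ (.br _ _ _ (.br _ _ _ (.leaf b0 k231 t231) (.br _ _ _ (.leaf b0 k232 t232) (.leaf b0 k233 t233))) (.br _ _ _ (.br _ _ _ (.leaf b0 k234 t234) (.leaf b0 k235 t235)) (.br _ _ _ (.leaf b0 k236 t236) (.leaf b0 k237 t237)))) w12
noncomputable def k238 : KT := (.br (Nat.shiftLeft (nat_lit 0x5) (nat_lit 100)) (.br (Nat.shiftLeft (nat_lit 0x1) (nat_lit 101)) (.br (Nat.shiftLeft (nat_lit 0x1) (nat_lit 100)) (.one (nat_lit 0x6009015000000c01202b400)) (.one (nat_lit 0x1006009015000200c01202a540))) (.br (Nat.shiftLeft (nat_lit 0x3) (nat_lit 100)) (.one (nat_lit 0x2006009015000400c01202b500)) (.br (Nat.shiftLeft (nat_lit 0x1) (nat_lit 102)) (.one (nat_lit 0x3006009015000600c01202b500)) (.one (nat_lit 0x4006009015000800c01202b500))))) (.br (Nat.shiftLeft (nat_lit 0x801) (nat_lit 101)) (.br (Nat.shiftLeft (nat_lit 0x1) (nat_lit 112)) (.one (nat_lit 0x5006009015000a00c01202b500)) (.one (nat_lit 0x1000006009015200000c01202a411)))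 (.br (Nat.shiftLeft (nat_lit 0x1003) (nat_lit 100)) (.one (nat_lit 0x1002006009015200400c01202b600)) (.br (Nat.shiftLeft (nat_lit 0x401) (nat_lit 102)) (.one (nat_lit 0x1003006009015200600c01202b600)) (.one (nat_lit 0x1004006009015200800c01202b600))))))
def t238 : k238.all (jb2 57 fl b0) = true := by decide +kernel
noncomputable def k239 : KT := (.br (Nat.shiftLeft (nat_lit 0x3005) (nat_lit 100)) (.br (Nat.shiftLeft (nat_lit 0x801) (nat_lit 102)) (.br (Nat.shiftLeft (nat_lit 0x1) (nat_lit 113)) (.one (nat_lit 0x1005006009015200a00c01202a650)) (.br (Nat.shiftLeft (nat_lit 0x1001) (nat_lit 101)) (.one (nat_lit 0x2000006009015400000c01202a411)) (.one (nat_lit 0x2003006009015400600c01202b600)))) (.br (Nat.shiftLeft (nat_lit 0x3) (nat_lit 112)) (.br (Nat.shiftLeft (nat_lit 0x2005) (nat_lit 100)) (.one (nat_lit 0x2004006009015400800c01202b600)) (.one (nat_lit 0x2005006009015400a00c01202b600))) (.br (Nat.shiftLeft (nat_lit 0xc01) (nat_lit 102)) (.one (nat_lit 0x3000006009015600000c01202a411)) (.one (nat_lit 0x3004006009015600800c01202b600)))))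 (.br (Nat.shiftLeft (nat_lit 0x5) (nat_lit 112)) (.br (Nat.shiftLeft (nat_lit 0x1) (nat_lit 114)) (.one (nat_lit 0x3005006009015600a00c01202b600)) (.br (Nat.shiftLeft (nat_lit 0x1001) (nat_lit 102)) (.one (nat_lit 0x4000006009015800000c01202a411)) (.one (nat_lit 0x4005006009015800a00c01202b600)))) (.br (Nat.shiftLeft (nat_lit 0x7) (nat_lit 112)) (.br (Nat.shiftLeft (nat_lit 0x3) (nat_lit 113)) (.one (nat_lit 0x5000006009015a00000c01202a411)) (.one (nat_lit 0x6000006009015c00000c01202a411))) (.br (Nat.shiftLeft (nat_lit 0x1) (nat_lit 115)) (.one (nat_lit 0x7000006009015e00000c01202a411)) (.one (nat_lit 0x8000006009015000000c01212c411))))))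
def t239 : k239.all (jb2 57 fl b0) = true := by decide +kernel
noncomputable def k240 : KT := (.br (Nat.shiftLeft (nat_lit 0x400001) (nat_lit 102)) (.br (Nat.shiftLeft (nat_lit 0x1) (nat_lit 124)) (.one (nat_lit 0x9000006009015200000c01212c411)) (.br (Nat.shiftLeft (nat_lit 0x1000003) (nat_lit 100)) (.one (nat_lit 0x1000002006009015000400c03242a511)) (.one (nat_lit 0x1000003006009015000600c03242a511)))) (.br (Nat.shiftLeft (nat_lit 0x1000005) (nat_lit 100)) (.one (nat_lit 0x1000004006009015000800c03242a511)) (.br (Nat.shiftLeft (nat_lit 0x801) (nat_lit 113)) (.one (nat_lit 0x1000005006009015000a00c03242a511)) (.one (nat_lit 0x1002003006009015400600c03242a760)))))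
def t240 : k240.all (jb2 57 fl b0) = true := by decide +kernel
noncomputable def k241 : KT := (.one (nat_lit 0x1002004006009015400800c03242a760))
def t241 : k241.all (jb2 57 fl b0) = true := by decide +kernel
noncomputable def k242 : KT := (.br (Nat.shiftLeft (nat_lit 0x1003) (nat_lit 112)) (.one (nat_lit 0x1002005006009015400a00c03242a760)) (.one (nat_lit 0x1003004006009015600800c03242a760)))
def t242 : k242.all (jb2 57 fl b0) = true := by decide +kernel
noncomputable def k243 : KT := (.br (Nat.shiftLeft (nat_lit 0x2000003) (nat_lit 100)) (.br (Nat.shiftLeft (nat_lit 0x401) (nat_lit 114)) (.one (nat_lit 0x1003005006009015600a00c03242a760)) (.br (Nat.shiftLeft (nat_lit 0x1) (nat_lit 125)) (.one (nat_lit 0x1004005006009015800a00c03242a760)) (.one (nat_lit 0x2000002006009015000400c05282a511)))) (.br (Nat.shiftLeft (nat_lit 0x800001) (nat_lit 102)) (.one (nat_lit 0x2000003006009015000600c05282a511)) (.br (Nat.shiftLeft (nat_lit 0x2000005) (nat_lit 100)) (.one (nat_lit 0x2000004006009015000800c05282a511)) (.one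 (nat_lit 0x2000005006009015000a00c05282a511)))))
def t243 : k243.all (jb2 57 fl b0) = true := by decide +kernel
noncomputable def k244 : KT := (.br (Nat.shiftLeft (nat_lit 0x2003005) (nat_lit 100)) (.one (nat_lit 0x2003004006009015600800c05282a760)) (.one (nat_lit 0x2003005006009015600a00c05282a760)))
def t244 : k244.all (jb2 57 fl b0) = true := by decide +kernel
noncomputable def k245 : KT := (.br (Nat.shiftLeft (nat_lit 0xc01) (nat_lit 114)) (.br (Nat.shiftLeft (nat_lit 0x3000003) (nat_lit 100)) (.br (Nat.shiftLeft (nat_lit 0x3) (nat_lit 124)) (.one (nat_lit 0x2004005006009015800a00c05282a760)) (.one (nat_lit 0x3000002006009015000400c072c2a511))) (.br (Nat.shiftLeft (nat_lit 0xc00001) (nat_lit 102)) (.one (nat_lit 0x3000003006009015000600c072c2a511)) (.br (Nat.shiftLeft (nat_lit 0x3000005) (nat_lit 100)) (.one (nat_lit 0x3000004006009015000800c072c2a511)) (.one (nat_lit 0x3000005006009015000a00c072c2a511))))) (.br (Nat.shiftLeft (nat_lit 0x4000003) (nat_lit 100)) (.br (Nat.shiftLeft (nat_lit 0x1) (nat_lit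 126)) (.one (nat_lit 0x3004005006009015800a00c072c2a760)) (.one (nat_lit 0x4000002006009015000400c09302a511))) (.br (Nat.shiftLeft (nat_lit 0x1000001) (nat_lit 102)) (.one (nat_lit 0x4000003006009015000600c09302a511)) (.br (Nat.shiftLeft (nat_lit 0x4000005) (nat_lit 100)) (.one (nat_lit 0x4000004006009015000800c09302a511)) (.one (nat_lit 0x4000005006009015000a00c09302a511))))))
def t245 : k245.all (jb2 57 fl b0) = true := by decide +kernel
noncomputable def k246 : KT := (.br (Nat.shiftLeft (nat_lit 0x1400001) (nat_lit 102)) (.br (Nat.shiftLeft (nat_lit 0x5000003) (nat_lit 100)) (.one (nat_lit 0x5000002006009015000400c0b342a511)) (.one (nat_lit 0x5000003006009015000600c0b342a511))) (.br (Nat.shiftLeft (nat_lit 0x5000005) (nat_lit 100)) (.one (nat_lit 0x5000004006009015000800c0b342a511)) (.br (Nat.shiftLeft (nat_lit 0x3) (nat_lit 125)) (.one (nat_lit 0x5000005006009015000a00c0b342a511)) (.one (nat_lit 0x6000002006009015000400c0d382a511)))))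
def t246 : k246.all (jb2 57 fl b0) = true := by decide +kernel
noncomputable def k247 : KT := (.br (Nat.shiftLeft (nat_lit 0x1800001) (nat_lit 102)) (.one (nat_lit 0x6000003006009015000600c0d382a511)) (.br (Nat.shiftLeft (nat_lit 0x6000005) (nat_lit 100)) (.one (nat_lit 0x6000004006009015000800c0d382a511)) (.one (nat_lit 0x6000005006009015000a00c0d382a511))))
def t247 : k247.all (jb2 57 fl b0) = true := by decide +kernel
noncomputable def k248 : KT := (.br (Nat.shiftLeft (nat_lit 0x7000003) (nat_lit 100)) (.one (nat_lit 0x7000002006009015000400c0f3c2a511)) (.br (Nat.shiftLeft (nat_lit 0x1c00001) (nat_lit 102)) (.one (nat_lit 0x7000003006009015000600c0f3c2a511)) (.one (nat_lit 0x7000004006009015000800c0f3c2a511))))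
def t248 : k248.all (jb2 57 fl b0) = true := by decide +kernel
noncomputable def k249 : KT := (.br (Nat.shiftLeft (nat_lit 0x8000003) (nat_lit 100)) (.br (Nat.shiftLeft (nat_lit 0x1) (nat_lit 127)) (.one (nat_lit 0x7000005006009015000a00c0f3c2a511)) (.one (nat_lit 0x8000002006009015000400c11402a511))) (.br (Nat.shiftLeft (nat_lit 0x2000001) (nat_lit 102)) (.one (nat_lit 0x8000003006009015000600c11402a511)) (.one (nat_lit 0x8000004006009015000800c11402a511))))
def t249 : k249.all (jb2 57 fl b0) = true := by decide +kernel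
noncomputable def k250 : KT := (.br (Nat.shiftLeft (nat_lit 0x1) (nat_lit 137)) (.br (Nat.shiftLeft (nat_lit 0x400000401) (nat_lit 102)) (.br (Nat.shiftLeft (nat_lit 0x2400001) (nat_lit 102)) (.br (Nat.shiftLeft (nat_lit 0x9) (nat_lit 124)) (.one (nat_lit 0x8000005006009015000a00c11402a511)) (.br (Nat.shiftLeft (nat_lit 0x9000003) (nat_lit 100)) (.one (nat_lit 0x9000002006009015000400c13442a511)) (.one (nat_lit 0x9000003006009015000600c13442a511)))) (.br (Nat.shiftLeft (nat_lit 0x1) (nat_lit 136)) (.br (Nat.shiftLeft (nat_lit 0x9000005) (nat_lit 100)) (.one (nat_lit 0x9000004006009015000800c13442a511)) (.one (nat_lit 0x9000005006009015000a00c13442a511))) (.br (Nat.shiftLeft (nat_lit 0x1000001003) (nat_lit 100)) (.one (nat_lit 0x1000001002006009015200402c41202a611)) (.one (nat_lit 0x1000001003006009015200602c41202a611))))) (.br (Nat.shiftLeft (nat_lit 0x1000002005) (nat_lit 100)) (.br (Nat.shiftLeft (nat_lit 0x800001) (nat_lit 113)) (.one (nat_lit 0x1000001004006009015200802c41202a611)) (.br (Nat.shiftLeft (nat_lit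 0x400000801) (nat_lit 102)) (.one (nat_lit 0x1000002003006009015400602c41202a611)) (.one (nat_lit 0x1000002004006009015400802c41202a611)))) (.br (Nat.shiftLeft (nat_lit 0x1000003005) (nat_lit 100)) (.br (Nat.shiftLeft (nat_lit 0x1000003) (nat_lit 112)) (.one (nat_lit 0x1000002005006009015400a02c41202a611)) (.one (nat_lit 0x1000003004006009015600802c41202a611))) (.br (Nat.shiftLeft (nat_lit 0x400001) (nat_lit 114)) (.one (nat_lit 0x1000003005006009015600a02c41202a611)) (.one (nat_lit 0x1000004005006009015800a02c41202a611)))))) (.br (Nat.shiftLeft (nat_lit 0x2000003005) (nat_lit 100)) (.br (Nat.shiftLeft (nat_lit 0x1000001) (nat_lit 113)) (.br (Nat.shiftLeft (nat_lit 0x2000001003) (nat_lit 100)) (.one (nat_lit 0x2000001002006009015200404c81202a611)) (.br (Nat.shiftLeft (nat_lit 0x800000401) (nat_lit 102)) (.one (nat_lit 0x2000001003006009015200604c81202a611)) (.one (nat_lit 0x2000001004006009015200804c81202a611)))) (.br (Nat.shiftLeft (nat_lit 0x2000002005) (nat_lit 100)) (.br (Nat.shiftLeft (nat_lit 0x800000801)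 (nat_lit 102)) (.one (nat_lit 0x2000002003006009015400604c81202a611)) (.one (nat_lit 0x2000002004006009015400804c81202a611))) (.br (Nat.shiftLeft (nat_lit 0x2000003) (nat_lit 112)) (.one (nat_lit 0x2000002005006009015400a04c81202a611)) (.one (nat_lit 0x2000003004006009015600804c81202a611))))) (.br (Nat.shiftLeft (nat_lit 0x3000001003) (nat_lit 100)) (.br (Nat.shiftLeft (nat_lit 0x800001) (nat_lit 114)) (.one (nat_lit 0x2000003005006009015600a04c81202a611)) (.br (Nat.shiftLeft (nat_lit 0x3) (nat_lit 136)) (.one (nat_lit 0x2000004005006009015800a04c81202a611)) (.one (nat_lit 0x3000001002006009015200406cc1202a611)))) (.br (Nat.shiftLeft (nat_lit 0x1800001) (nat_lit 113)) (.br (Nat.shiftLeft (nat_lit 0xc00000401) (nat_lit 102)) (.one (nat_lit 0x3000001003006009015200606cc1202a611)) (.one (nat_lit 0x3000001004006009015200806cc1202a611))) (.br (Nat.shiftLeft (nat_lit 0xc00000801) (nat_lit 102)) (.one (nat_lit 0x3000002003006009015400606cc1202a611)) (.one (nat_lit 0x3000002004006009015400806cc1202a611)))))))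
def t250 : k250.all (jb2 57 fl b0) = true := by decide +kernel
noncomputable def k251 : KT := (.br (Nat.shiftLeft (nat_lit 0x1000000401) (nat_lit 102)) (.br (Nat.shiftLeft (nat_lit 0xc00001) (nat_lit 114)) (.br (Nat.shiftLeft (nat_lit 0x3000003) (nat_lit 112)) (.one (nat_lit 0x3000002005006009015400a06cc1202a611)) (.br (Nat.shiftLeft (nat_lit 0x3000003005) (nat_lit 100)) (.one (nat_lit 0x3000003004006009015600806cc1202a611)) (.one (nat_lit 0x3000003005006009015600a06cc1202a611)))) (.br (Nat.shiftLeft (nat_lit 0x1) (nat_lit 138)) (.one (nat_lit 0x3000004005006009015800a06cc1202a611)) (.br (Nat.shiftLeft (nat_lit 0x4000001003) (nat_lit 100)) (.one (nat_lit 0x4000001002006009015200408d01202a611)) (.one (nat_lit 0x4000001003006009015200608d01202a611))))) (.br (Nat.shiftLeft (nat_lit 0x4000002005) (nat_lit 100)) (.br (Nat.shiftLeft (nat_lit 0x2000001) (nat_lit 113)) (.one (nat_lit 0x4000001004006009015200808d01202a611)) (.br (Nat.shiftLeft (nat_lit 0x1000000801) (nat_lit 102)) (.one (nat_lit 0x4000002003006009015400608d01202a611))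 (.one (nat_lit 0x4000002004006009015400808d01202a611)))) (.br (Nat.shiftLeft (nat_lit 0x4000003005) (nat_lit 100)) (.br (Nat.shiftLeft (nat_lit 0x4000003) (nat_lit 112)) (.one (nat_lit 0x4000002005006009015400a08d01202a611)) (.one (nat_lit 0x4000003004006009015600808d01202a611))) (.br (Nat.shiftLeft (nat_lit 0x1000001) (nat_lit 114)) (.one (nat_lit 0x4000003005006009015600a08d01202a611)) (.one (nat_lit 0x4000004005006009015800a08d01202a611))))))
def t251 : k251.all (jb2 57 fl b0) = true := by decide +kernel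
noncomputable def k252 : KT := (.br (Nat.shiftLeft (nat_lit 0x1400000401) (nat_lit 102)) (.br (Nat.shiftLeft (nat_lit 0x5000001003) (nat_lit 100)) (.one (nat_lit 0x500000100200600901520040ad41202a611)) (.one (nat_lit 0x500000100300600901520060ad41202a611))) (.br (Nat.shiftLeft (nat_lit 0x2800001) (nat_lit 113)) (.one (nat_lit 0x500000100400600901520080ad41202a611)) (.one (nat_lit 0x500000200300600901540060ad41202a611))))
def t252 : k252.all (jb2 57 fl b0) = true := by decide +kernel
noncomputable def k253 : KT := (.br (Nat.shiftLeft (nat_lit 0x5000003005) (nat_lit 100)) (.br (Nat.shiftLeft (nat_lit 0x5000002005) (nat_lit 100)) (.one (nat_lit 0x500000200400600901540080ad41202a611)) (.br (Nat.shiftLeft (nat_lit 0x5000003) (nat_lit 112)) (.one (nat_lit 0x5000002005006009015400a0ad41202a611)) (.one (nat_lit 0x500000300400600901560080ad41202a611)))) (.br (Nat.shiftLeft (nat_lit 0x1400001) (nat_lit 114)) (.one (nat_lit 0x5000003005006009015600a0ad41202a611)) (.br (Nat.shiftLeft (nat_lit 0x3) (nat_lit 137)) (.one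 (nat_lit 0x5000004005006009015800a0ad41202a611)) (.one (nat_lit 0x600000100200600901520040cd81202a611)))))
def t253 : k253.all (jb2 57 fl b0) = true := by decide +kernel
noncomputable def k254 : KT := (.br (Nat.shiftLeft (nat_lit 0x1800000401) (nat_lit 102)) (.one (nat_lit 0x600000100300600901520060cd81202a611)) (.br (Nat.shiftLeft (nat_lit 0x3000001) (nat_lit 113)) (.one (nat_lit 0x600000100400600901520080cd81202a611)) (.one (nat_lit 0x600000200300600901540060cd81202a611))))
def t254 : k254.all (jb2 57 fl b0) = true := by decide +kernel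
noncomputable def k255 : KT := (.br (Nat.shiftLeft (nat_lit 0x6000003005) (nat_lit 100)) (.br (Nat.shiftLeft (nat_lit 0x6000002005) (nat_lit 100)) (.one (nat_lit 0x600000200400600901540080cd81202a611)) (.br (Nat.shiftLeft (nat_lit 0x6000003) (nat_lit 112)) (.one (nat_lit 0x6000002005006009015400a0cd81202a611)) (.one (nat_lit 0x600000300400600901560080cd81202a611)))) (.br (Nat.shiftLeft (nat_lit 0x1800001) (nat_lit 114)) (.one (nat_lit 0x6000003005006009015600a0cd81202a611)) (.br (Nat.shiftLeft (nat_lit 0x7) (nat_lit 136)) (.one (nat_lit 0x6000004005006009015800a0cd81202a611)) (.one (nat_lit 0x700000100200600901520040edc1202a611)))))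
def t255 : k255.all (jb2 57 fl b0) = true := by decide +kernel
noncomputable def k256 : KT := (.br (Nat.shiftLeft (nat_lit 0x3800001) (nat_lit 113)) (.br (Nat.shiftLeft (nat_lit 0x1c00000401) (nat_lit 102)) (.one (nat_lit 0x700000100300600901520060edc1202a611)) (.one (nat_lit 0x700000100400600901520080edc1202a611))) (.br (Nat.shiftLeft (nat_lit 0x1c00000801) (nat_lit 102)) (.one (nat_lit 0x700000200300600901540060edc1202a611)) (.one (nat_lit 0x700000200400600901540080edc1202a611))))
def t256 : k256.all (jb2 57 fl b0) = true := by decide +kernel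
noncomputable def k257 : KT := (.br (Nat.shiftLeft (nat_lit 0x1c00001) (nat_lit 114)) (.br (Nat.shiftLeft (nat_lit 0x7000003) (nat_lit 112)) (.one (nat_lit 0x7000002005006009015400a0edc1202a611)) (.br (Nat.shiftLeft (nat_lit 0x7000003005) (nat_lit 100)) (.one (nat_lit 0x700000300400600901560080edc1202a611)) (.one (nat_lit 0x7000003005006009015600a0edc1202a611)))) (.br (Nat.shiftLeft (nat_lit 0x1) (nat_lit 139)) (.one (nat_lit 0x7000004005006009015800a0edc1202a611)) (.br (Nat.shiftLeft (nat_lit 0x8000001003) (nat_lit 100)) (.one (nat_lit 0x8000001002006009015200410e01202a611)) (.one (nat_lit 0x8000001003006009015200610e01202a611)))))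
def t257 : k257.all (jb2 57 fl b0) = true := by decide +kernel
noncomputable def k258 : KT := (.br (Nat.shiftLeft (nat_lit 0x8000003) (nat_lit 112)) (.br (Nat.shiftLeft (nat_lit 0x2000000801) (nat_lit 102)) (.br (Nat.shiftLeft (nat_lit 0x4000001) (nat_lit 113)) (.one (nat_lit 0x8000001004006009015200810e01202a611)) (.one (nat_lit 0x8000002003006009015400610e01202a611))) (.br (Nat.shiftLeft (nat_lit 0x8000002005) (nat_lit 100)) (.one (nat_lit 0x8000002004006009015400810e01202a611)) (.one (nat_lit 0x8000002005006009015400a10e01202a611)))) (.br (Nat.shiftLeft (nat_lit 0x2000001) (nat_lit 114)) (.br (Nat.shiftLeft (nat_lit 0x8000003005) (nat_lit 100)) (.one (nat_lit 0x8000003004006009015600810e01202a611)) (.one (nat_lit 0x8000003005006009015600a10e01202a611))) (.br (Nat.shiftLeft (nat_lit 0x9) (nat_lit 136)) (.one (nat_lit 0x8000004005006009015800a10e01202a611)) (.one (nat_lit 0x9000001002006009015200412e41202a611)))))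
def t258 : k258.all (jb2 57 fl b0) = true := by decide +kernel
noncomputable def k259 : KT := (.br (Nat.shiftLeft (nat_lit 0x9000002005) (nat_lit 100)) (.br (Nat.shiftLeft (nat_lit 0x4800001) (nat_lit 113)) (.br (Nat.shiftLeft (nat_lit 0x2400000401) (nat_lit 102)) (.one (nat_lit 0x9000001003006009015200612e41202a611)) (.one (nat_lit 0x9000001004006009015200812e41202a611))) (.br (Nat.shiftLeft (nat_lit 0x2400000801) (nat_lit 102)) (.one (nat_lit 0x9000002003006009015400612e41202a611)) (.one (nat_lit 0x9000002004006009015400812e41202a611)))) (.br (Nat.shiftLeft (nat_lit 0x9000003005) (nat_lit 100)) (.br (Nat.shiftLeft (nat_lit 0x9000003) (nat_lit 112)) (.one (nat_lit 0x9000002005006009015400a12e41202a611)) (.one (nat_lit 0x9000003004006009015600812e41202a611))) (.br (Nat.shiftLeft (nat_lit 0x2400001) (nat_lit 114)) (.one (nat_lit 0x9000003005006009015600a12e41202a611)) (.one (nat_lit 0x9000004005006009015800a12e41202a611)))))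
def t259 : k259.all (jb2 57 fl b0) = true := by decide +kernel
noncomputable def s13 : KT := (.br (nat_lit 0x7000004006009015000800c0f3c2a511) (.br (nat_lit 0x1003004006009015600800c03242a760) (.br (nat_lit 0x8000006009015000000c01212c411) (.br (nat_lit 0x1004006009015200800c01202b600) k238 k239) (.br (nat_lit 0x1002003006009015400600c03242a760) k240 (.br (nat_lit 0x1002004006009015400800c03242a760) k241 k242))) (.br (nat_lit 0x4000005006009015000a00c09302a511) (.br (nat_lit 0x2000005006009015000a00c05282a511) k243 (.br (nat_lit 0x2003005006009015600a00c05282a760) k244 k245)) (.br (nat_lit 0x6000002006009015000400c0d382a511) k246 (.br (nat_lit 0x6000005006009015000a00c0d382a511) k247 k248)))) (.br (nat_lit 0x600000100200600901520040cd81202a611) (.br (nat_lit 0x3000002004006009015400806cc1202a611) (.br (nat_lit 0x8000004006009015000800c11402a511) k249 k250) (.br (nat_lit 0x4000004005006009015800a08d01202a611) k251 (.br (nat_lit 0x500000200300600901540060ad41202a611) k252 k253))) (.br (nat_lit 0x700000200400600901540080edc1202a611)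 (.br (nat_lit 0x600000200300600901540060cd81202a611) k254 (.br (nat_lit 0x700000100200600901520040edc1202a611) k255 k256)) (.br (nat_lit 0x8000001003006009015200610e01202a611) k257 (.br (nat_lit 0x9000001002006009015200412e41202a611) k258 k259)))))
noncomputable def u13 : KT := (.one (nat_lit 0x6009015000000c01202a430))
def w13 : u13.all (wj 57 s13) = true := by decide +kernel
def o13 : OkW 57 (jb2 57 fl) u13 := .lift s13 _ (.br _ _ _ (.br _ _ _ (.br _ _ _ (.br _ _ _ (.leaf b0 k238 t238) (.leaf b0 k239 t239)) (.br _ _ _ (.leaf b0 k240 t240) (.br _ _ _ (.leaf b0 k241 t241) (.leaf b0 k242 t242)))) (.br _ _ _ (.br _ _ _ (.leaf b0 k243 t243) (.br _ _ _ (.leaf b0 k244 t244) (.leaf b0 k245 t245))) (.br _ _ _ (.leaf b0 k246 t246) (.br _ _ _ (.leaf b0 k247 t247) (.leaf b0 k248 t248))))) (.br _ _ _ (.br _ _ _ (.br _ _ _ (.leaf b0 k249 t249) (.leaf b0 k250 t250)) (.br _ _ _ (.leaf b0 k251 t251) (.br _ _ _ (.leaf b0 k252 t252) (.leaf b0 k253 t253)))) (.br _ _ _ (.br _ _ _ (.leaf b0 k254 t254) (.br _ _ _ (.leaf b0 k255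 t255) (.leaf b0 k256 t256))) (.br _ _ _ (.leaf b0 k257 t257) (.br _ _ _ (.leaf b0 k258 t258) (.leaf b0 k259 t259)))))) w13
noncomputable def k260 : KT := (.br (Nat.shiftLeft (nat_lit 0x1) (nat_lit 102)) (.br (Nat.shiftLeft (nat_lit 0x1) (nat_lit 101)) (.br (Nat.shiftLeft (nat_lit 0x1) (nat_lit 100)) (.one (nat_lit 0x6009016000000c01202d400)) (.one (nat_lit 0x1006009016000200c01202c540))) (.br (Nat.shiftLeft (nat_lit 0x3) (nat_lit 100)) (.one (nat_lit 0x2006009016000400c01202d500)) (.one (nat_lit 0x3006009016000600c01202d500)))) (.br (Nat.shiftLeft (nat_lit 0x1) (nat_lit 112)) (.br (Nat.shiftLeft (nat_lit 0x5) (nat_lit 100)) (.one (nat_lit 0x4006009016000800c01202d500)) (.one (nat_lit 0x5006009016000a00c01202d500))) (.br (Nat.shiftLeft (nat_lit 0x801) (nat_lit 101)) (.one (nat_lit 0x1000006009016200000c01202c411)) (.br (Nat.shiftLeft (nat_lit 0x1003) (nat_lit 100)) (.one (nat_lit 0x1002006009016200400c01202d600)) (.one (nat_lit 0x1003006009016200600c01202d600))))))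
def t260 : k260.all (jb2 57 fl b0) = true := by decide +kernel
noncomputable def k261 : KT := (.one (nat_lit 0x1004006009016200800c01202c650))
def t261 : k261.all (jb2 57 fl b0) = true := by decide +kernel
noncomputable def k262 : KT := (.br (Nat.shiftLeft (nat_lit 0x1001) (nat_lit 101)) (.br (Nat.shiftLeft (nat_lit 0x1) (nat_lit 113)) (.one (nat_lit 0x1005006009016200a00c01202c650)) (.one (nat_lit 0x2000006009016400000c01202c411))) (.br (Nat.shiftLeft (nat_lit 0x801) (nat_lit 102)) (.one (nat_lit 0x2003006009016400600c01202d600)) (.one (nat_lit 0x2004006009016400800c01202d600))))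
def t262 : k262.all (jb2 57 fl b0) = true := by decide +kernel
noncomputable def k263 : KT := (.br (Nat.shiftLeft (nat_lit 0x3) (nat_lit 112)) (.one (nat_lit 0x2005006009016400a00c01202c650)) (.br (Nat.shiftLeft (nat_lit 0xc01) (nat_lit 102)) (.one (nat_lit 0x3000006009016600000c01202c411)) (.one (nat_lit 0x3004006009016600800c01202d600))))
def t263 : k263.all (jb2 57 fl b0) = true := by decide +kernel
noncomputable def k264 : KT := (.br (Nat.shiftLeft (nat_lit 0x1) (nat_lit 114)) (.one (nat_lit 0x3005006009016600a00c01202c650)) (.one (nat_lit 0x4000006009016800000c01202c411)))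
def t264 : k264.all (jb2 57 fl b0) = true := by decide +kernel
noncomputable def k265 : KT := (.br (Nat.shiftLeft (nat_lit 0x9) (nat_lit 112)) (.br (Nat.shiftLeft (nat_lit 0x3) (nat_lit 113)) (.br (Nat.shiftLeft (nat_lit 0x5) (nat_lit 112)) (.one (nat_lit 0x4005006009016800a00c01202c650)) (.one (nat_lit 0x5000006009016a00000c01202c411))) (.br (Nat.shiftLeft (nat_lit 0x7) (nat_lit 112)) (.one (nat_lit 0x6000006009016c00000c01202c411)) (.br (Nat.shiftLeft (nat_lit 0x1) (nat_lit 115)) (.one (nat_lit 0x7000006009016e00000c01202c411)) (.one (nat_lit 0x8000006009016000000c01212e411))))) (.br (Nat.shiftLeft (nat_lit 0x1000003) (nat_lit 100)) (.br (Nat.shiftLeft (nat_lit 0x1) (nat_lit 124)) (.one (nat_lit 0x9000006009016200000c01212e411)) (.one (nat_lit 0x1000002006009016000400c03242c511))) (.br (Nat.shiftLeft (nat_lit 0x400001) (nat_lit 102)) (.one (nat_lit 0x1000003006009016000600c03242c511)) (.br (Nat.shiftLeft (nat_lit 0x1000005) (nat_lit 100)) (.one (nat_lit 0x1000004006009016000800c03242c511)) (.one (nat_lit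 0x1000005006009016000a00c03242c511))))))
def t265 : k265.all (jb2 57 fl b0) = true := by decide +kernel
noncomputable def k266 : KT := (.one (nat_lit 0x1002003006009016400600c03242c760))
def t266 : k266.all (jb2 57 fl b0) = true := by decide +kernel
noncomputable def k267 : KT := (.br (Nat.shiftLeft (nat_lit 0x2000003) (nat_lit 100)) (.br (Nat.shiftLeft (nat_lit 0x1003) (nat_lit 112)) (.one (nat_lit 0x1002004006009016400800c03242c760)) (.br (Nat.shiftLeft (nat_lit 0x1) (nat_lit 125)) (.one (nat_lit 0x1003004006009016600800c03242c760)) (.one (nat_lit 0x2000002006009016000400c05282c511)))) (.br (Nat.shiftLeft (nat_lit 0x800001) (nat_lit 102)) (.one (nat_lit 0x2000003006009016000600c05282c511)) (.br (Nat.shiftLeft (nat_lit 0x2000005) (nat_lit 100)) (.one (nat_lit 0x2000004006009016000800c05282c511)) (.one (nat_lit 0x2000005006009016000a00c05282c511)))))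
def t267 : k267.all (jb2 57 fl b0) = true := by decide +kernel
noncomputable def k268 : KT := (.br (Nat.shiftLeft (nat_lit 0x1) (nat_lit 126)) (.br (Nat.shiftLeft (nat_lit 0x3000003) (nat_lit 100)) (.br (Nat.shiftLeft (nat_lit 0x3) (nat_lit 124)) (.one (nat_lit 0x2003004006009016600800c05282c760)) (.one (nat_lit 0x3000002006009016000400c072c2c511))) (.br (Nat.shiftLeft (nat_lit 0xc00001) (nat_lit 102)) (.one (nat_lit 0x3000003006009016000600c072c2c511)) (.br (Nat.shiftLeft (nat_lit 0x3000005) (nat_lit 100)) (.one (nat_lit 0x3000004006009016000800c072c2c511)) (.one (nat_lit 0x3000005006009016000a00c072c2c511))))) (.br (Nat.shiftLeft (nat_lit 0x1000001) (nat_lit 102)) (.br (Nat.shiftLeft (nat_lit 0x4000003) (nat_lit 100)) (.one (nat_lit 0x4000002006009016000400c09302c511)) (.one (nat_lit 0x4000003006009016000600c09302c511))) (.br (Nat.shiftLeft (nat_lit 0x4000005) (nat_lit 100)) (.one (nat_lit 0x4000004006009016000800c09302c511)) (.br (Nat.shiftLeft (nat_lit 0x5) (nat_lit 124)) (.one (nat_lit 0x4000005006009016000a00c09302c511))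 (.one (nat_lit 0x5000002006009016000400c0b342c511))))))
def t268 : k268.all (jb2 57 fl b0) = true := by decide +kernel
noncomputable def k269 : KT := (.br (Nat.shiftLeft (nat_lit 0x5000005) (nat_lit 100)) (.br (Nat.shiftLeft (nat_lit 0x1400001) (nat_lit 102)) (.one (nat_lit 0x5000003006009016000600c0b342c511)) (.one (nat_lit 0x5000004006009016000800c0b342c511))) (.br (Nat.shiftLeft (nat_lit 0x3) (nat_lit 125)) (.one (nat_lit 0x5000005006009016000a00c0b342c511)) (.br (Nat.shiftLeft (nat_lit 0x6000003) (nat_lit 100)) (.one (nat_lit 0x6000002006009016000400c0d382c511)) (.one (nat_lit 0x6000003006009016000600c0d382c511)))))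
def t269 : k269.all (jb2 57 fl b0) = true := by decide +kernel
noncomputable def k270 : KT := (.br (Nat.shiftLeft (nat_lit 0x7) (nat_lit 124)) (.br (Nat.shiftLeft (nat_lit 0x6000005) (nat_lit 100)) (.one (nat_lit 0x6000004006009016000800c0d382c511)) (.one (nat_lit 0x6000005006009016000a00c0d382c511))) (.br (Nat.shiftLeft (nat_lit 0x7000003) (nat_lit 100)) (.one (nat_lit 0x7000002006009016000400c0f3c2c511)) (.br (Nat.shiftLeft (nat_lit 0x1c00001) (nat_lit 102)) (.one (nat_lit 0x7000003006009016000600c0f3c2c511)) (.one (nat_lit 0x7000004006009016000800c0f3c2c511)))))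
def t270 : k270.all (jb2 57 fl b0) = true := by decide +kernel
noncomputable def k271 : KT := (.br (Nat.shiftLeft (nat_lit 0x2000001) (nat_lit 102)) (.br (Nat.shiftLeft (nat_lit 0x1) (nat_lit 127)) (.one (nat_lit 0x7000005006009016000a00c0f3c2c511)) (.br (Nat.shiftLeft (nat_lit 0x8000003) (nat_lit 100)) (.one (nat_lit 0x8000002006009016000400c11402c511)) (.one (nat_lit 0x8000003006009016000600c11402c511)))) (.br (Nat.shiftLeft (nat_lit 0x8000005) (nat_lit 100)) (.one (nat_lit 0x8000004006009016000800c11402c511)) (.br (Nat.shiftLeft (nat_lit 0x9) (nat_lit 124)) (.one (nat_lit 0x8000005006009016000a00c11402c511)) (.one (nat_lit 0x9000002006009016000400c13442c511)))))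
def t271 : k271.all (jb2 57 fl b0) = true := by decide +kernel
noncomputable def k272 : KT := (.br (Nat.shiftLeft (nat_lit 0x800000801) (nat_lit 102)) (.br (Nat.shiftLeft (nat_lit 0x800001) (nat_lit 113)) (.br (Nat.shiftLeft (nat_lit 0x9000005) (nat_lit 100)) (.br (Nat.shiftLeft (nat_lit 0x2400001) (nat_lit 102)) (.one (nat_lit 0x9000003006009016000600c13442c511)) (.one (nat_lit 0x9000004006009016000800c13442c511))) (.br (Nat.shiftLeft (nat_lit 0x1) (nat_lit 136)) (.one (nat_lit 0x9000005006009016000a00c13442c511)) (.br (Nat.shiftLeft (nat_lit 0x1000001003) (nat_lit 100)) (.one (nat_lit 0x1000001002006009016200402c41202c611)) (.one (nat_lit 0x1000001003006009016200602c41202c611))))) (.br (Nat.shiftLeft (nat_lit 0x1) (nat_lit 137)) (.br (Nat.shiftLeft (nat_lit 0x400000801) (nat_lit 102)) (.one (nat_lit 0x1000002003006009016400602c41202c611)) (.br (Nat.shiftLeft (nat_lit 0x1000003) (nat_lit 112)) (.one (nat_lit 0x1000002004006009016400802c41202c611)) (.one (nat_lit 0x1000003004006009016600802c41202c611)))) (.br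 (Nat.shiftLeft (nat_lit 0x2000001003) (nat_lit 100)) (.one (nat_lit 0x2000001002006009016200404c81202c611)) (.br (Nat.shiftLeft (nat_lit 0x1000001) (nat_lit 113)) (.one (nat_lit 0x2000001003006009016200604c81202c611)) (.one (nat_lit 0x2000002003006009016400604c81202c611)))))) (.br (Nat.shiftLeft (nat_lit 0x3000003) (nat_lit 112)) (.br (Nat.shiftLeft (nat_lit 0x3000001003) (nat_lit 100)) (.br (Nat.shiftLeft (nat_lit 0x2000003) (nat_lit 112)) (.one (nat_lit 0x2000002004006009016400804c81202c611)) (.br (Nat.shiftLeft (nat_lit 0x3) (nat_lit 136)) (.one (nat_lit 0x2000003004006009016600804c81202c611)) (.one (nat_lit 0x3000001002006009016200406cc1202c611)))) (.br (Nat.shiftLeft (nat_lit 0x1800001) (nat_lit 113)) (.one (nat_lit 0x3000001003006009016200606cc1202c611)) (.br (Nat.shiftLeft (nat_lit 0xc00000801) (nat_lit 102)) (.one (nat_lit 0x3000002003006009016400606cc1202c611)) (.one (nat_lit 0x3000002004006009016400806cc1202c611))))) (.br (Nat.shiftLeft (nat_lit 0x2000001) (nat_lit 113)) (.br (Nat.shiftLeft (nat_lit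 0x1) (nat_lit 138)) (.one (nat_lit 0x3000003004006009016600806cc1202c611)) (.br (Nat.shiftLeft (nat_lit 0x4000001003) (nat_lit 100)) (.one (nat_lit 0x4000001002006009016200408d01202c611)) (.one (nat_lit 0x4000001003006009016200608d01202c611)))) (.br (Nat.shiftLeft (nat_lit 0x1000000801) (nat_lit 102)) (.one (nat_lit 0x4000002003006009016400608d01202c611)) (.br (Nat.shiftLeft (nat_lit 0x4000003) (nat_lit 112)) (.one (nat_lit 0x4000002004006009016400808d01202c611)) (.one (nat_lit 0x4000003004006009016600808d01202c611)))))))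
def t272 : k272.all (jb2 57 fl b0) = true := by decide +kernel
noncomputable def k273 : KT := (.br (Nat.shiftLeft (nat_lit 0x2800001) (nat_lit 113)) (.br (Nat.shiftLeft (nat_lit 0x5000001003) (nat_lit 100)) (.one (nat_lit 0x500000100200600901620040ad41202c611)) (.one (nat_lit 0x500000100300600901620060ad41202c611))) (.br (Nat.shiftLeft (nat_lit 0x1400000801) (nat_lit 102)) (.one (nat_lit 0x500000200300600901640060ad41202c611)) (.br (Nat.shiftLeft (nat_lit 0x5000003) (nat_lit 112)) (.one (nat_lit 0x500000200400600901640080ad41202c611)) (.one (nat_lit 0x500000300400600901660080ad41202c611)))))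
def t273 : k273.all (jb2 57 fl b0) = true := by decide +kernel
noncomputable def k274 : KT := (.br (Nat.shiftLeft (nat_lit 0x3000001) (nat_lit 113)) (.br (Nat.shiftLeft (nat_lit 0x6000001003) (nat_lit 100)) (.one (nat_lit 0x600000100200600901620040cd81202c611)) (.one (nat_lit 0x600000100300600901620060cd81202c611))) (.br (Nat.shiftLeft (nat_lit 0x1800000801) (nat_lit 102)) (.one (nat_lit 0x600000200300600901640060cd81202c611)) (.br (Nat.shiftLeft (nat_lit 0x6000003) (nat_lit 112)) (.one (nat_lit 0x600000200400600901640080cd81202c611)) (.one (nat_lit 0x600000300400600901660080cd81202c611)))))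
def t274 : k274.all (jb2 57 fl b0) = true := by decide +kernel
noncomputable def k275 : KT := (.br (Nat.shiftLeft (nat_lit 0x3800001) (nat_lit 113)) (.br (Nat.shiftLeft (nat_lit 0x7000001003) (nat_lit 100)) (.one (nat_lit 0x700000100200600901620040edc1202c611)) (.one (nat_lit 0x700000100300600901620060edc1202c611))) (.br (Nat.shiftLeft (nat_lit 0x1c00000801) (nat_lit 102)) (.one (nat_lit 0x700000200300600901640060edc1202c611)) (.br (Nat.shiftLeft (nat_lit 0x7000003) (nat_lit 112)) (.one (nat_lit 0x700000200400600901640080edc1202c611)) (.one (nat_lit 0x700000300400600901660080edc1202c611)))))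
def t275 : k275.all (jb2 57 fl b0) = true := by decide +kernel
noncomputable def k276 : KT := (.br (Nat.shiftLeft (nat_lit 0x9) (nat_lit 136)) (.br (Nat.shiftLeft (nat_lit 0x4000001) (nat_lit 113)) (.br (Nat.shiftLeft (nat_lit 0x8000001003) (nat_lit 100)) (.one (nat_lit 0x8000001002006009016200410e01202c611)) (.one (nat_lit 0x8000001003006009016200610e01202c611))) (.br (Nat.shiftLeft (nat_lit 0x2000000801) (nat_lit 102)) (.one (nat_lit 0x8000002003006009016400610e01202c611)) (.br (Nat.shiftLeft (nat_lit 0x8000003) (nat_lit 112)) (.one (nat_lit 0x8000002004006009016400810e01202c611)) (.one (nat_lit 0x8000003004006009016600810e01202c611))))) (.br (Nat.shiftLeft (nat_lit 0x4800001) (nat_lit 113)) (.br (Nat.shiftLeft (nat_lit 0x9000001003) (nat_lit 100)) (.one (nat_lit 0x9000001002006009016200412e41202c611)) (.one (nat_lit 0x9000001003006009016200612e41202c611))) (.br (Nat.shiftLeft (nat_lit 0x2400000801) (nat_lit 102)) (.one (nat_lit 0x9000002003006009016400612e41202c611)) (.br (Nat.shiftLeft (nat_lit 0x9000003)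 (nat_lit 112)) (.one (nat_lit 0x9000002004006009016400812e41202c611)) (.one (nat_lit 0x9000003004006009016600812e41202c611))))))
def t276 : k276.all (jb2 57 fl b0) = true := by decide +kernel
noncomputable def s14 : KT := (.br (nat_lit 0x2000005006009016000a00c05282c511) (.br (nat_lit 0x3004006009016600800c01202d600) (.br (nat_lit 0x1004006009016200800c01202c650) (.br (nat_lit 0x1003006009016200600c01202d600) k260 k261) (.br (nat_lit 0x2004006009016400800c01202d600) k262 k263)) (.br (nat_lit 0x1000005006009016000a00c03242c511) (.br (nat_lit 0x4000006009016800000c01202c411) k264 k265) (.br (nat_lit 0x1002003006009016400600c03242c760) k266 k267))) (.br (nat_lit 0x9000002006009016000400c13442c511) (.br (nat_lit 0x6000003006009016000600c0d382c511) (.br (nat_lit 0x5000002006009016000400c0b342c511) k268 k269) (.br (nat_lit 0x7000004006009016000800c0f3c2c511) k270 k271)) (.br (nat_lit 0x500000300400600901660080ad41202c611) (.br (nat_lit 0x4000003004006009016600808d01202c611) k272 k273) (.br (nat_lit 0x600000300400600901660080cd81202c611)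 k274 (.br (nat_lit 0x700000300400600901660080edc1202c611) k275 k276)))))
noncomputable def u14 : KT := (.one (nat_lit 0x6009016000000c01202c430))
def w14 : u14.all (wj 57 s14) = true := by decide +kernel
def o14 : OkW 57 (jb2 57 fl) u14 := .lift s14 _ (.br _ _ _ (.br _ _ _ (.br _ _ _ (.br _ _ _ (.leaf b0 k260 t260) (.leaf b0 k261 t261)) (.br _ _ _ (.leaf b0 k262 t262) (.leaf b0 k263 t263))) (.br _ _ _ (.br _ _ _ (.leaf b0 k264 t264) (.leaf b0 k265 t265)) (.br _ _ _ (.leaf b0 k266 t266) (.leaf b0 k267 t267)))) (.br _ _ _ (.br _ _ _ (.br _ _ _ (.leaf b0 k268 t268) (.leaf b0 k269 t269)) (.br _ _ _ (.leaf b0 k270 t270) (.leaf b0 k271 t271))) (.br _ _ _ (.br _ _ _ (.leaf b0 k272 t272) (.leaf b0 k273 t273)) (.br _ _ _ (.leaf b0 k274 t274) (.br _ _ _ (.leaf b0 k275 t275) (.leaf b0 k276 t276)))))) w14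
noncomputable def k277 : KT := (.br (Nat.shiftLeft (nat_lit 0xc01203) (nat_lit 67)) (.one (nat_lit 0x6009017000000c01202f400)) (.br (Nat.shiftLeft (nat_lit 0x1) (nat_lit 100)) (.one (nat_lit 0x6009018000000c012031400)) (.one (nat_lit 0x1006009017000200c01202e540))))
def t277 : k277.all (jb2 57 fl b0) = true := by decide +kernel
noncomputable def k278 : KT := (.br (Nat.shiftLeft (nat_lit 0x1) (nat_lit 102)) (.br (Nat.shiftLeft (nat_lit 0x400c01203) (nat_lit 67)) (.br (Nat.shiftLeft (nat_lit 0x1) (nat_lit 101)) (.one (nat_lit 0x1006009018000200c012030540)) (.one (nat_lit 0x2006009017000400c01202f500))) (.br (Nat.shiftLeft (nat_lit 0x3) (nat_lit 100)) (.one (nat_lit 0x2006009018000400c012031500)) (.br (Nat.shiftLeft (nat_lit 0x600c01203) (nat_lit 67)) (.one (nat_lit 0x3006009017000600c01202f500)) (.one (nat_lit 0x3006009018000600c012031500))))) (.br (Nat.shiftLeft (nat_lit 0xa00c01203) (nat_lit 67)) (.br (Nat.shiftLeft (nat_lit 0x800c01203) (nat_lit 67)) (.one (nat_lit 0x4006009017000800c01202f500)) (.br (Nat.shiftLeft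 (nat_lit 0x5) (nat_lit 100)) (.one (nat_lit 0x4006009018000800c012031500)) (.one (nat_lit 0x5006009017000a00c01202f500)))) (.br (Nat.shiftLeft (nat_lit 0x1) (nat_lit 112)) (.one (nat_lit 0x5006009018000a00c012031500)) (.br (Nat.shiftLeft (nat_lit 0x200000c01203) (nat_lit 67)) (.one (nat_lit 0x1000006009017200000c01202e411)) (.one (nat_lit 0x1000006009018200000c012030411))))))
def t278 : k278.all (jb2 57 fl b0) = true := by decide +kernel
noncomputable def k279 : KT := (.one (nat_lit 0x1002006009017200400c01202e650))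
def t279 : k279.all (jb2 57 fl b0) = true := by decide +kernel
noncomputable def k280 : KT := (.one (nat_lit 0x1002006009018200400c012030650))
def t280 : k280.all (jb2 57 fl b0) = true := by decide +kernel
noncomputable def k281 : KT := (.one (nat_lit 0x1003006009017200600c01202e650))
def t281 : k281.all (jb2 57 fl b0) = true := by decide +kernel
noncomputable def k282 : KT := (.one (nat_lit 0x1003006009018200600c012030650))
def t282 : k282.all (jb2 57 fl b0) = true := by decide +kernel
noncomputable def k283 : KT := (.br (Nat.shiftLeft (nat_lit 0x200800c01203) (nat_lit 67)) (.one (nat_lit 0x1004006009017200800c01202e650)) (.one (nat_lit 0x1004006009018200800c012030650)))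
def t283 : k283.all (jb2 57 fl b0) = true := by decide +kernel
noncomputable def k284 : KT := (.br (Nat.shiftLeft (nat_lit 0x1) (nat_lit 113)) (.br (Nat.shiftLeft (nat_lit 0x200a00c01203) (nat_lit 67)) (.one (nat_lit 0x1005006009017200a00c01202e650)) (.one (nat_lit 0x1005006009018200a00c012030650))) (.br (Nat.shiftLeft (nat_lit 0x400000c01203) (nat_lit 67)) (.one (nat_lit 0x2000006009017400000c01202e411)) (.one (nat_lit 0x2000006009018400000c012030411))))
def t284 : k284.all (jb2 57 fl b0) = true := by decide +kernel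
noncomputable def k285 : KT := (.one (nat_lit 0x2003006009017400600c01202e650))
def t285 : k285.all (jb2 57 fl b0) = true := by decide +kernel
noncomputable def k286 : KT := (.one (nat_lit 0x2003006009018400600c012030650))
def t286 : k286.all (jb2 57 fl b0) = true := by decide +kernel
noncomputable def k287 : KT := (.one (nat_lit 0x2004006009017400800c01202e650))
def t287 : k287.all (jb2 57 fl b0) = true := by decide +kernel
noncomputable def k288 : KT := (.one (nat_lit 0x2004006009018400800c012030650))
def t288 : k288.all (jb2 57 fl b0) = true := by decide +kernel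
noncomputable def k289 : KT := (.br (Nat.shiftLeft (nat_lit 0x3) (nat_lit 112)) (.br (Nat.shiftLeft (nat_lit 0x400a00c01203) (nat_lit 67)) (.one (nat_lit 0x2005006009017400a00c01202e650)) (.one (nat_lit 0x2005006009018400a00c012030650))) (.br (Nat.shiftLeft (nat_lit 0x600000c01203) (nat_lit 67)) (.one (nat_lit 0x3000006009017600000c01202e411)) (.one (nat_lit 0x3000006009018600000c012030411))))
def t289 : k289.all (jb2 57 fl b0) = true := by decide +kernel
noncomputable def k290 : KT := (.one (nat_lit 0x3004006009017600800c01202e650))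
def t290 : k290.all (jb2 57 fl b0) = true := by decide +kernel
noncomputable def k291 : KT := (.one (nat_lit 0x3004006009018600800c012030650))
def t291 : k291.all (jb2 57 fl b0) = true := by decide +kernel
noncomputable def k292 : KT := (.br (Nat.shiftLeft (nat_lit 0x1) (nat_lit 114)) (.br (Nat.shiftLeft (nat_lit 0x600a00c01203) (nat_lit 67)) (.one (nat_lit 0x3005006009017600a00c01202e650)) (.one (nat_lit 0x3005006009018600a00c012030650))) (.br (Nat.shiftLeft (nat_lit 0x800000c01203) (nat_lit 67)) (.one (nat_lit 0x4000006009017800000c01202e411)) (.one (nat_lit 0x4000006009018800000c012030411))))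
def t292 : k292.all (jb2 57 fl b0) = true := by decide +kernel
noncomputable def k293 : KT := (.br (Nat.shiftLeft (nat_lit 0x5) (nat_lit 112)) (.br (Nat.shiftLeft (nat_lit 0x800a00c01203) (nat_lit 67)) (.one (nat_lit 0x4005006009017800a00c01202e650)) (.one (nat_lit 0x4005006009018800a00c012030650))) (.br (Nat.shiftLeft (nat_lit 0xa00000c01203) (nat_lit 67)) (.one (nat_lit 0x5000006009017a00000c01202e411)) (.br (Nat.shiftLeft (nat_lit 0x3) (nat_lit 113)) (.one (nat_lit 0x5000006009018a00000c012030411)) (.one (nat_lit 0x6000006009017c00000c01202e411)))))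
def t293 : k293.all (jb2 57 fl b0) = true := by decide +kernel
noncomputable def k294 : KT := (.br (Nat.shiftLeft (nat_lit 0x400000600c01203) (nat_lit 67)) (.br (Nat.shiftLeft (nat_lit 0x1000003) (nat_lit 100)) (.br (Nat.shiftLeft (nat_lit 0x1000000c01203) (nat_lit 67)) (.br (Nat.shiftLeft (nat_lit 0xe00000c01203) (nat_lit 67)) (.br (Nat.shiftLeft (nat_lit 0x7) (nat_lit 112)) (.one (nat_lit 0x6000006009018c00000c012030411)) (.one (nat_lit 0x7000006009017e00000c01202e411))) (.br (Nat.shiftLeft (nat_lit 0x1) (nat_lit 115)) (.one (nat_lit 0x7000006009018e00000c012030411)) (.one (nat_lit 0x8000006009017000000c012130411)))) (.br (Nat.shiftLeft (nat_lit 0x1200000c01203) (nat_lit 67)) (.br (Nat.shiftLeft (nat_lit 0x9) (nat_lit 112)) (.one (nat_lit 0x8000006009018000000c012132411)) (.one (nat_lit 0x9000006009017200000c012130411))) (.br (Nat.shiftLeft (nat_lit 0x1) (nat_lit 124)) (.one (nat_lit 0x9000006009018200000c012132411)) (.br (Nat.shiftLeft (nat_lit 0x200000400c01203) (nat_lit 67)) (.one (nat_lit 0x1000002006009017000400c03242e511))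 (.one (nat_lit 0x1000002006009018000400c032430511)))))) (.br (Nat.shiftLeft (nat_lit 0x1000005) (nat_lit 100)) (.br (Nat.shiftLeft (nat_lit 0x400001) (nat_lit 102)) (.br (Nat.shiftLeft (nat_lit 0x200000600c01203) (nat_lit 67)) (.one (nat_lit 0x1000003006009017000600c03242e511)) (.one (nat_lit 0x1000003006009018000600c032430511))) (.br (Nat.shiftLeft (nat_lit 0x200000800c01203) (nat_lit 67)) (.one (nat_lit 0x1000004006009017000800c03242e511)) (.one (nat_lit 0x1000004006009018000800c032430511)))) (.br (Nat.shiftLeft (nat_lit 0x1) (nat_lit 125)) (.br (Nat.shiftLeft (nat_lit 0x200000a00c01203) (nat_lit 67)) (.one (nat_lit 0x1000005006009017000a00c03242e511)) (.one (nat_lit 0x1000005006009018000a00c032430511))) (.br (Nat.shiftLeft (nat_lit 0x400000400c01203) (nat_lit 67)) (.one (nat_lit 0x2000002006009017000400c05282e511)) (.br (Nat.shiftLeft (nat_lit 0x2000003) (nat_lit 100)) (.one (nat_lit 0x2000002006009018000400c052830511)) (.one (nat_lit 0x2000003006009017000600c05282e511))))))) (.br (Nat.shiftLeft (nat_lit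 0xc00001) (nat_lit 102)) (.br (Nat.shiftLeft (nat_lit 0x400000a00c01203) (nat_lit 67)) (.br (Nat.shiftLeft (nat_lit 0x400000800c01203) (nat_lit 67)) (.br (Nat.shiftLeft (nat_lit 0x800001) (nat_lit 102)) (.one (nat_lit 0x2000003006009018000600c052830511)) (.one (nat_lit 0x2000004006009017000800c05282e511))) (.br (Nat.shiftLeft (nat_lit 0x2000005) (nat_lit 100)) (.one (nat_lit 0x2000004006009018000800c052830511)) (.one (nat_lit 0x2000005006009017000a00c05282e511)))) (.br (Nat.shiftLeft (nat_lit 0x600000400c01203) (nat_lit 67)) (.br (Nat.shiftLeft (nat_lit 0x3) (nat_lit 124)) (.one (nat_lit 0x2000005006009018000a00c052830511)) (.one (nat_lit 0x3000002006009017000400c072c2e511))) (.br (Nat.shiftLeft (nat_lit 0x3000003) (nat_lit 100)) (.one (nat_lit 0x3000002006009018000400c072c30511)) (.br (Nat.shiftLeft (nat_lit 0x600000600c01203) (nat_lit 67)) (.one (nat_lit 0x3000003006009017000600c072c2e511)) (.one (nat_lit 0x3000003006009018000600c072c30511)))))) (.br (Nat.shiftLeft (nat_lit 0x800000400c01203) (nat_lit 67))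 (.br (Nat.shiftLeft (nat_lit 0x3000005) (nat_lit 100)) (.br (Nat.shiftLeft (nat_lit 0x600000800c01203) (nat_lit 67)) (.one (nat_lit 0x3000004006009017000800c072c2e511)) (.one (nat_lit 0x3000004006009018000800c072c30511))) (.br (Nat.shiftLeft (nat_lit 0x600000a00c01203) (nat_lit 67)) (.one (nat_lit 0x3000005006009017000a00c072c2e511)) (.br (Nat.shiftLeft (nat_lit 0x1) (nat_lit 126)) (.one (nat_lit 0x3000005006009018000a00c072c30511)) (.one (nat_lit 0x4000002006009017000400c09302e511))))) (.br (Nat.shiftLeft (nat_lit 0x800000600c01203) (nat_lit 67)) (.br (Nat.shiftLeft (nat_lit 0x4000003) (nat_lit 100)) (.one (nat_lit 0x4000002006009018000400c093030511)) (.one (nat_lit 0x4000003006009017000600c09302e511))) (.br (Nat.shiftLeft (nat_lit 0x1000001) (nat_lit 102)) (.one (nat_lit 0x4000003006009018000600c093030511)) (.br (Nat.shiftLeft (nat_lit 0x800000800c01203) (nat_lit 67)) (.one (nat_lit 0x4000004006009017000800c09302e511)) (.one (nat_lit 0x4000004006009018000800c093030511))))))))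
def t294 : k294.all (jb2 57 fl b0) = true := by decide +kernel
noncomputable def k295 : KT := (.br (Nat.shiftLeft (nat_lit 0x5000003) (nat_lit 100)) (.br (Nat.shiftLeft (nat_lit 0x5) (nat_lit 124)) (.br (Nat.shiftLeft (nat_lit 0x800000a00c01203) (nat_lit 67)) (.one (nat_lit 0x4000005006009017000a00c09302e511)) (.one (nat_lit 0x4000005006009018000a00c093030511))) (.br (Nat.shiftLeft (nat_lit 0xa00000400c01203) (nat_lit 67)) (.one (nat_lit 0x5000002006009017000400c0b342e511)) (.one (nat_lit 0x5000002006009018000400c0b3430511)))) (.br (Nat.shiftLeft (nat_lit 0x1400001) (nat_lit 102)) (.br (Nat.shiftLeft (nat_lit 0xa00000600c01203) (nat_lit 67)) (.one (nat_lit 0x5000003006009017000600c0b342e511)) (.one (nat_lit 0x5000003006009018000600c0b3430511))) (.br (Nat.shiftLeft (nat_lit 0xa00000800c01203) (nat_lit 67)) (.one (nat_lit 0x5000004006009017000800c0b342e511)) (.br (Nat.shiftLeft (nat_lit 0x5000005) (nat_lit 100)) (.one (nat_lit 0x5000004006009018000800c0b3430511)) (.one (nat_lit 0x5000005006009017000a00c0b342e511))))))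
def t295 : k295.all (jb2 57 fl b0) = true := by decide +kernel
noncomputable def k296 : KT := (.br (Nat.shiftLeft (nat_lit 0x6000003) (nat_lit 100)) (.br (Nat.shiftLeft (nat_lit 0x3) (nat_lit 125)) (.one (nat_lit 0x5000005006009018000a00c0b3430511)) (.br (Nat.shiftLeft (nat_lit 0xc00000400c01203) (nat_lit 67)) (.one (nat_lit 0x6000002006009017000400c0d382e511)) (.one (nat_lit 0x6000002006009018000400c0d3830511)))) (.br (Nat.shiftLeft (nat_lit 0x1800001) (nat_lit 102)) (.br (Nat.shiftLeft (nat_lit 0xc00000600c01203) (nat_lit 67)) (.one (nat_lit 0x6000003006009017000600c0d382e511)) (.one (nat_lit 0x6000003006009018000600c0d3830511))) (.br (Nat.shiftLeft (nat_lit 0xc00000800c01203) (nat_lit 67)) (.one (nat_lit 0x6000004006009017000800c0d382e511)) (.one (nat_lit 0x6000004006009018000800c0d3830511)))))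
def t296 : k296.all (jb2 57 fl b0) = true := by decide +kernel
noncomputable def k297 : KT := (.br (Nat.shiftLeft (nat_lit 0x7000003) (nat_lit 100)) (.br (Nat.shiftLeft (nat_lit 0x7) (nat_lit 124)) (.br (Nat.shiftLeft (nat_lit 0xc00000a00c01203) (nat_lit 67)) (.one (nat_lit 0x6000005006009017000a00c0d382e511)) (.one (nat_lit 0x6000005006009018000a00c0d3830511))) (.br (Nat.shiftLeft (nat_lit 0xe00000400c01203) (nat_lit 67)) (.one (nat_lit 0x7000002006009017000400c0f3c2e511)) (.one (nat_lit 0x7000002006009018000400c0f3c30511)))) (.br (Nat.shiftLeft (nat_lit 0x1c00001) (nat_lit 102)) (.br (Nat.shiftLeft (nat_lit 0xe00000600c01203) (nat_lit 67)) (.one (nat_lit 0x7000003006009017000600c0f3c2e511)) (.one (nat_lit 0x7000003006009018000600c0f3c30511))) (.br (Nat.shiftLeft (nat_lit 0xe00000800c01203) (nat_lit 67)) (.one (nat_lit 0x7000004006009017000800c0f3c2e511)) (.one (nat_lit 0x7000004006009018000800c0f3c30511)))))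
def t297 : k297.all (jb2 57 fl b0) = true := by decide +kernel
noncomputable def k298 : KT := (.br (Nat.shiftLeft (nat_lit 0x1000000600c01203) (nat_lit 67)) (.br (Nat.shiftLeft (nat_lit 0x1) (nat_lit 127)) (.br (Nat.shiftLeft (nat_lit 0xe00000a00c01203) (nat_lit 67)) (.one (nat_lit 0x7000005006009017000a00c0f3c2e511)) (.one (nat_lit 0x7000005006009018000a00c0f3c30511))) (.br (Nat.shiftLeft (nat_lit 0x1000000400c01203) (nat_lit 67)) (.one (nat_lit 0x8000002006009017000400c11402e511)) (.br (Nat.shiftLeft (nat_lit 0x8000003) (nat_lit 100)) (.one (nat_lit 0x8000002006009018000400c114030511)) (.one (nat_lit 0x8000003006009017000600c11402e511))))) (.br (Nat.shiftLeft (nat_lit 0x8000005) (nat_lit 100)) (.br (Nat.shiftLeft (nat_lit 0x2000001) (nat_lit 102)) (.one (nat_lit 0x8000003006009018000600c114030511)) (.br (Nat.shiftLeft (nat_lit 0x1000000800c01203) (nat_lit 67)) (.one (nat_lit 0x8000004006009017000800c11402e511)) (.one (nat_lit 0x8000004006009018000800c114030511)))) (.br (Nat.shiftLeft (nat_lit 0x1000000a00c01203)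 (nat_lit 67)) (.one (nat_lit 0x8000005006009017000a00c11402e511)) (.br (Nat.shiftLeft (nat_lit 0x9) (nat_lit 124)) (.one (nat_lit 0x8000005006009018000a00c114030511)) (.one (nat_lit 0x9000002006009017000400c13442e511))))))
def t298 : k298.all (jb2 57 fl b0) = true := by decide +kernel
noncomputable def k299 : KT := (.br (Nat.shiftLeft (nat_lit 0x2400001) (nat_lit 102)) (.br (Nat.shiftLeft (nat_lit 0x9000003) (nat_lit 100)) (.one (nat_lit 0x9000002006009018000400c134430511)) (.br (Nat.shiftLeft (nat_lit 0x1200000600c01203) (nat_lit 67)) (.one (nat_lit 0x9000003006009017000600c13442e511)) (.one (nat_lit 0x9000003006009018000600c134430511)))) (.br (Nat.shiftLeft (nat_lit 0x9000005) (nat_lit 100)) (.br (Nat.shiftLeft (nat_lit 0x1200000800c01203) (nat_lit 67)) (.one (nat_lit 0x9000004006009017000800c13442e511)) (.one (nat_lit 0x9000004006009018000800c134430511))) (.br (Nat.shiftLeft (nat_lit 0x1200000a00c01203) (nat_lit 67)) (.one (nat_lit 0x9000005006009017000a00c13442e511)) (.one (nat_lit 0x9000005006009018000a00c134430511)))))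
def t299 : k299.all (jb2 57 fl b0) = true := by decide +kernel
noncomputable def s15 : KT := (.br (nat_lit 0x2004006009017400800c01202e650) (.br (nat_lit 0x1003006009017200600c01202e650) (.br (nat_lit 0x1000006009018200000c012030411) (.br (nat_lit 0x1006009017000200c01202e540) k277 k278) (.br (nat_lit 0x1002006009017200400c01202e650) k279 (.br (nat_lit 0x1002006009018200400c012030650) k280 k281))) (.br (nat_lit 0x2000006009018400000c012030411) (.br (nat_lit 0x1003006009018200600c012030650) k282 (.br (nat_lit 0x1004006009018200800c012030650) k283 k284)) (.br (nat_lit 0x2003006009017400600c01202e650) k285 (.br (nat_lit 0x2003006009018400600c012030650) k286 k287)))) (.br (nat_lit 0x6000006009017c00000c01202e411) (.br (nat_lit 0x3004006009017600800c01202e650) (.br (nat_lit 0x2004006009018400800c012030650) k288 (.br (nat_lit 0x3000006009018600000c012030411) k289 k290)) (.br (nat_lit 0x3004006009018600800c012030650) k291 (.br (nat_lit 0x4000006009018800000c012030411) k292 k293))) (.br (nat_lit 0x6000004006009018000800c0d3830511)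 (.br (nat_lit 0x4000004006009018000800c093030511) k294 (.br (nat_lit 0x5000005006009017000a00c0b342e511) k295 k296)) (.br (nat_lit 0x7000004006009018000800c0f3c30511) k297 (.br (nat_lit 0x9000002006009017000400c13442e511) k298 k299)))))
noncomputable def u15 : KT := (.br (Nat.shiftLeft (nat_lit 0xc01203) (nat_lit 67)) (.one (nat_lit 0x6009017000000c01202e430)) (.one (nat_lit 0x6009018000000c012030430)))
def w15 : u15.all (wj 57 s15) = true := by decide +kernel
def o15 : OkW 57 (jb2 57 fl) u15 := .lift s15 _ (.br _ _ _ (.br _ _ _ (.br _ _ _ (.br _ _ _ (.leaf b0 k277 t277) (.leaf b0 k278 t278)) (.br _ _ _ (.leaf b0 k279 t279) (.br _ _ _ (.leaf b0 k280 t280) (.leaf b0 k281 t281)))) (.br _ _ _ (.br _ _ _ (.leaf b0 k282 t282) (.br _ _ _ (.leaf b0 k283 t283) (.leaf b0 k284 t284))) (.br _ _ _ (.leaf b0 k285 t285) (.br _ _ _ (.leaf b0 k286 t286) (.leaf b0 k287 t287))))) (.br _ _ _ (.br _ _ _ (.br _ _ _ (.leaf b0 k288 t288) (.br _ _ _ (.leaf b0 k289 t289) (.leaf b0 k290 t290))) (.br _ _ _ (.leaf b0 k291 t291) (.br _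 _ _ (.leaf b0 k292 t292) (.leaf b0 k293 t293)))) (.br _ _ _ (.br _ _ _ (.leaf b0 k294 t294) (.br _ _ _ (.leaf b0 k295 t295) (.leaf b0 k296 t296))) (.br _ _ _ (.leaf b0 k297 t297) (.br _ _ _ (.leaf b0 k298 t298) (.leaf b0 k299 t299)))))) w15
noncomputable def k300 : KT := (.br (Nat.shiftLeft (nat_lit 0x600a013) (nat_lit 64)) (.br (Nat.shiftLeft (nat_lit 0x3005) (nat_lit 77)) (.br (Nat.shiftLeft (nat_lit 0x300480d) (nat_lit 65)) (.one (nat_lit 0x6009019000000c012033400)) (.one (nat_lit 0x600901a000000c012035400))) (.br (Nat.shiftLeft (nat_lit 0x600a011) (nat_lit 64)) (.one (nat_lit 0x600a010000000c014021400)) (.br (Nat.shiftLeft (nat_lit 0x3005009) (nat_lit 65)) (.one (nat_lit 0x600a011000000c014023400)) (.one (nat_lit 0x600a012000000c014025400))))) (.br (Nat.shiftLeft (nat_lit 0x1) (nat_lit 100)) (.br (Nat.shiftLeft (nat_lit 0x1802805) (nat_lit 66)) (.one (nat_lit 0x600a013000000c014027400)) (.one (nat_lit 0x600a014000000c014029400))) (.br (Nat.shiftLeft (nat_lit 0x80300480d) (nat_lit 65)) (.one (nat_lit 0x1006009019000200c012032540))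 (.br (Nat.shiftLeft (nat_lit 0x1) (nat_lit 101)) (.one (nat_lit 0x100600901a000200c012034540)) (.one (nat_lit 0x2006009019000400c012033500))))))
def t300 : k300.all (jb2 57 fl b0) = true := by decide +kernel
noncomputable def k301 : KT := (.br (Nat.shiftLeft (nat_lit 0x1) (nat_lit 102)) (.br (Nat.shiftLeft (nat_lit 0x3) (nat_lit 100)) (.one (nat_lit 0x200600901a000400c012034540)) (.br (Nat.shiftLeft (nat_lit 0x180300480d) (nat_lit 65)) (.one (nat_lit 0x3006009019000600c012033500)) (.one (nat_lit 0x300600901a000600c012035500)))) (.br (Nat.shiftLeft (nat_lit 0x200300480d) (nat_lit 65)) (.one (nat_lit 0x4006009019000800c012033500)) (.br (Nat.shiftLeft (nat_lit 0x5) (nat_lit 100)) (.one (nat_lit 0x400600901a000800c012035500)) (.one (nat_lit 0x5006009019000a00c012033500)))))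
def t301 : k301.all (jb2 57 fl b0) = true := by decide +kernel
noncomputable def k302 : KT := (.br (Nat.shiftLeft (nat_lit 0x1) (nat_lit 112)) (.one (nat_lit 0x500600901a000a00c012034540)) (.br (Nat.shiftLeft (nat_lit 0x80000300480d) (nat_lit 65)) (.one (nat_lit 0x1000006009019200000c012032411)) (.one (nat_lit 0x100000600901a200000c012034411))))
def t302 : k302.all (jb2 57 fl b0) = true := by decide +kernel
noncomputable def k303 : KT := (.br (Nat.shiftLeft (nat_lit 0x1003) (nat_lit 100)) (.one (nat_lit 0x1002006009019200400c012032650)) (.one (nat_lit 0x1003006009019200600c012032650)))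
def t303 : k303.all (jb2 57 fl b0) = true := by decide +kernel
noncomputable def k304 : KT := (.br (Nat.shiftLeft (nat_lit 0x401) (nat_lit 102)) (.one (nat_lit 0x100300600901a200600c012034650)) (.br (Nat.shiftLeft (nat_lit 0x80200300480d) (nat_lit 65)) (.one (nat_lit 0x1004006009019200800c012032650)) (.one (nat_lit 0x100400600901a200800c012034650))))
def t304 : k304.all (jb2 57 fl b0) = true := by decide +kernel
noncomputable def k305 : KT := (.br (Nat.shiftLeft (nat_lit 0x100000300480d) (nat_lit 65)) (.br (Nat.shiftLeft (nat_lit 0x1) (nat_lit 113)) (.one (nat_lit 0x1005006009019200a00c012032650)) (.one (nat_lit 0x2000006009019400000c012032411))) (.br (Nat.shiftLeft (nat_lit 0x1001) (nat_lit 101)) (.one (nat_lit 0x200000600901a400000c012034411)) (.one (nat_lit 0x2003006009019400600c012032650))))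
def t305 : k305.all (jb2 57 fl b0) = true := by decide +kernel
noncomputable def k306 : KT := (.br (Nat.shiftLeft (nat_lit 0x801) (nat_lit 102)) (.one (nat_lit 0x200300600901a400600c012034650)) (.br (Nat.shiftLeft (nat_lit 0x100200300480d) (nat_lit 65)) (.one (nat_lit 0x2004006009019400800c012032650)) (.one (nat_lit 0x200400600901a400800c012034650))))
def t306 : k306.all (jb2 57 fl b0) = true := by decide +kernel
noncomputable def k307 : KT := (.br (Nat.shiftLeft (nat_lit 0x180000300480d) (nat_lit 65)) (.br (Nat.shiftLeft (nat_lit 0x3) (nat_lit 112)) (.one (nat_lit 0x2005006009019400a00c012032650)) (.one (nat_lit 0x3000006009019600000c012032411))) (.br (Nat.shiftLeft (nat_lit 0xc01) (nat_lit 102)) (.one (nat_lit 0x300000600901a600000c012034411)) (.br (Nat.shiftLeft (nat_lit 0x180200300480d) (nat_lit 65)) (.one (nat_lit 0x3004006009019600800c012032650)) (.one (nat_lit 0x300400600901a600800c012034650)))))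
def t307 : k307.all (jb2 57 fl b0) = true := by decide +kernel
noncomputable def k308 : KT := (.br (Nat.shiftLeft (nat_lit 0x9) (nat_lit 112)) (.br (Nat.shiftLeft (nat_lit 0x3) (nat_lit 113)) (.br (Nat.shiftLeft (nat_lit 0x1001) (nat_lit 102)) (.br (Nat.shiftLeft (nat_lit 0x1) (nat_lit 114)) (.one (nat_lit 0x3005006009019600a00c012032650)) (.br (Nat.shiftLeft (nat_lit 0x200000300480d) (nat_lit 65)) (.one (nat_lit 0x4000006009019800000c012032411)) (.one (nat_lit 0x400000600901a800000c012034411)))) (.br (Nat.shiftLeft (nat_lit 0x5) (nat_lit 112)) (.one (nat_lit 0x4005006009019800a00c012032650)) (.br (Nat.shiftLeft (nat_lit 0x280000300480d) (nat_lit 65)) (.one (nat_lit 0x5000006009019a00000c012032411)) (.one (nat_lit 0x500000600901aa00000c012034411))))) (.br (Nat.shiftLeft (nat_lit 0x380000300480d) (nat_lit 65)) (.br (Nat.shiftLeft (nat_lit 0x300000300480d) (nat_lit 65)) (.one (nat_lit 0x6000006009019c00000c012032411)) (.br (Nat.shiftLeft (nat_lit 0x7) (nat_lit 112)) (.one (nat_lit 0x600000600901ac00000c012034411))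 (.one (nat_lit 0x7000006009019e00000c012032411)))) (.br (Nat.shiftLeft (nat_lit 0x1) (nat_lit 115)) (.one (nat_lit 0x700000600901ae00000c012034411)) (.br (Nat.shiftLeft (nat_lit 0x400000300480d) (nat_lit 65)) (.one (nat_lit 0x8000006009019000000c012134411)) (.one (nat_lit 0x800000600901a000000c012136411)))))) (.br (Nat.shiftLeft (nat_lit 0x80000200300480d) (nat_lit 65)) (.br (Nat.shiftLeft (nat_lit 0x1000003) (nat_lit 100)) (.br (Nat.shiftLeft (nat_lit 0x480000300480d) (nat_lit 65)) (.one (nat_lit 0x9000006009019200000c012134411)) (.br (Nat.shiftLeft (nat_lit 0x1) (nat_lit 124)) (.one (nat_lit 0x900000600901a200000c012136411)) (.one (nat_lit 0x1000002006009019000400c032432511)))) (.br (Nat.shiftLeft (nat_lit 0x80000180300480d) (nat_lit 65)) (.one (nat_lit 0x1000003006009019000600c032432511)) (.br (Nat.shiftLeft (nat_lit 0x400001) (nat_lit 102)) (.one (nat_lit 0x100000300600901a000600c032434511)) (.one (nat_lit 0x1000004006009019000800c032432511))))) (.br (Nat.shiftLeft (nat_lit 0x2000003) (nat_lit 100)) (.br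 (Nat.shiftLeft (nat_lit 0x1000005) (nat_lit 100)) (.one (nat_lit 0x100000400600901a000800c032434511)) (.br (Nat.shiftLeft (nat_lit 0x1) (nat_lit 125)) (.one (nat_lit 0x1000005006009019000a00c032432511)) (.one (nat_lit 0x2000002006009019000400c052832511)))) (.br (Nat.shiftLeft (nat_lit 0x100000180300480d) (nat_lit 65)) (.one (nat_lit 0x2000003006009019000600c052832511)) (.br (Nat.shiftLeft (nat_lit 0x800001) (nat_lit 102)) (.one (nat_lit 0x200000300600901a000600c052834511)) (.one (nat_lit 0x2000004006009019000800c052832511)))))))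
def t308 : k308.all (jb2 57 fl b0) = true := by decide +kernel
noncomputable def k309 : KT := (.br (Nat.shiftLeft (nat_lit 0x200000180300480d) (nat_lit 65)) (.br (Nat.shiftLeft (nat_lit 0xc00001) (nat_lit 102)) (.br (Nat.shiftLeft (nat_lit 0x3) (nat_lit 124)) (.br (Nat.shiftLeft (nat_lit 0x2000005) (nat_lit 100)) (.one (nat_lit 0x200000400600901a000800c052834511)) (.one (nat_lit 0x2000005006009019000a00c052832511))) (.br (Nat.shiftLeft (nat_lit 0x3000003) (nat_lit 100)) (.one (nat_lit 0x3000002006009019000400c072c32511)) (.br (Nat.shiftLeft (nat_lit 0x180000180300480d) (nat_lit 65)) (.one (nat_lit 0x3000003006009019000600c072c32511)) (.one (nat_lit 0x300000300600901a000600c072c34511))))) (.br (Nat.shiftLeft (nat_lit 0x3000005) (nat_lit 100)) (.br (Nat.shiftLeft (nat_lit 0x180000200300480d) (nat_lit 65)) (.one (nat_lit 0x3000004006009019000800c072c32511)) (.one (nat_lit 0x300000400600901a000800c072c34511))) (.br (Nat.shiftLeft (nat_lit 0x1) (nat_lit 126)) (.one (nat_lit 0x3000005006009019000a00c072c32511)) (.br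 (Nat.shiftLeft (nat_lit 0x4000003) (nat_lit 100)) (.one (nat_lit 0x4000002006009019000400c093032511)) (.one (nat_lit 0x4000003006009019000600c093032511)))))) (.br (Nat.shiftLeft (nat_lit 0x5000003) (nat_lit 100)) (.br (Nat.shiftLeft (nat_lit 0x200000200300480d) (nat_lit 65)) (.br (Nat.shiftLeft (nat_lit 0x1000001) (nat_lit 102)) (.one (nat_lit 0x400000300600901a000600c093034511)) (.one (nat_lit 0x4000004006009019000800c093032511))) (.br (Nat.shiftLeft (nat_lit 0x4000005) (nat_lit 100)) (.one (nat_lit 0x400000400600901a000800c093034511)) (.br (Nat.shiftLeft (nat_lit 0x5) (nat_lit 124)) (.one (nat_lit 0x4000005006009019000a00c093032511)) (.one (nat_lit 0x5000002006009019000400c0b3432511))))) (.br (Nat.shiftLeft (nat_lit 0x1400001) (nat_lit 102)) (.br (Nat.shiftLeft (nat_lit 0x280000180300480d) (nat_lit 65)) (.one (nat_lit 0x5000003006009019000600c0b3432511)) (.one (nat_lit 0x500000300600901a000600c0b3434511))) (.br (Nat.shiftLeft (nat_lit 0x280000200300480d) (nat_lit 65)) (.one (nat_lit 0x5000004006009019000800c0b3432511))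 (.br (Nat.shiftLeft (nat_lit 0x5000005) (nat_lit 100)) (.one (nat_lit 0x500000400600901a000800c0b3434511)) (.one (nat_lit 0x5000005006009019000a00c0b3432511)))))))
def t309 : k309.all (jb2 57 fl b0) = true := by decide +kernel
noncomputable def k310 : KT := (.br (Nat.shiftLeft (nat_lit 0x7000003) (nat_lit 100)) (.br (Nat.shiftLeft (nat_lit 0x1800001) (nat_lit 102)) (.br (Nat.shiftLeft (nat_lit 0x6000003) (nat_lit 100)) (.one (nat_lit 0x6000002006009019000400c0d3832511)) (.br (Nat.shiftLeft (nat_lit 0x300000180300480d) (nat_lit 65)) (.one (nat_lit 0x6000003006009019000600c0d3832511)) (.one (nat_lit 0x600000300600901a000600c0d3834511)))) (.br (Nat.shiftLeft (nat_lit 0x6000005) (nat_lit 100)) (.br (Nat.shiftLeft (nat_lit 0x300000200300480d) (nat_lit 65)) (.one (nat_lit 0x6000004006009019000800c0d3832511)) (.one (nat_lit 0x600000400600901a000800c0d3834511))) (.br (Nat.shiftLeft (nat_lit 0x7) (nat_lit 124)) (.one (nat_lit 0x6000005006009019000a00c0d3832511)) (.one (nat_lit 0x7000002006009019000400c0f3c32511)))))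 (.br (Nat.shiftLeft (nat_lit 0x380000200300480d) (nat_lit 65)) (.br (Nat.shiftLeft (nat_lit 0x380000180300480d) (nat_lit 65)) (.one (nat_lit 0x7000003006009019000600c0f3c32511)) (.br (Nat.shiftLeft (nat_lit 0x1c00001) (nat_lit 102)) (.one (nat_lit 0x700000300600901a000600c0f3c34511)) (.one (nat_lit 0x7000004006009019000800c0f3c32511)))) (.br (Nat.shiftLeft (nat_lit 0x1) (nat_lit 127)) (.br (Nat.shiftLeft (nat_lit 0x7000005) (nat_lit 100)) (.one (nat_lit 0x700000400600901a000800c0f3c34511)) (.one (nat_lit 0x7000005006009019000a00c0f3c32511))) (.br (Nat.shiftLeft (nat_lit 0x8000003) (nat_lit 100)) (.one (nat_lit 0x8000002006009019000400c114032511)) (.one (nat_lit 0x8000003006009019000600c114032511))))))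
def t310 : k310.all (jb2 57 fl b0) = true := by decide +kernel
noncomputable def k311 : KT := (.br (Nat.shiftLeft (nat_lit 0x9000003) (nat_lit 100)) (.br (Nat.shiftLeft (nat_lit 0x400000200300480d) (nat_lit 65)) (.br (Nat.shiftLeft (nat_lit 0x2000001) (nat_lit 102)) (.one (nat_lit 0x800000300600901a000600c114034511)) (.one (nat_lit 0x8000004006009019000800c114032511))) (.br (Nat.shiftLeft (nat_lit 0x8000005) (nat_lit 100)) (.one (nat_lit 0x800000400600901a000800c114034511)) (.br (Nat.shiftLeft (nat_lit 0x9) (nat_lit 124)) (.one (nat_lit 0x8000005006009019000a00c114032511)) (.one (nat_lit 0x9000002006009019000400c134432511))))) (.br (Nat.shiftLeft (nat_lit 0x2400001) (nat_lit 102)) (.br (Nat.shiftLeft (nat_lit 0x480000180300480d) (nat_lit 65)) (.one (nat_lit 0x9000003006009019000600c134432511)) (.one (nat_lit 0x900000300600901a000600c134434511))) (.br (Nat.shiftLeft (nat_lit 0x480000200300480d) (nat_lit 65)) (.one (nat_lit 0x9000004006009019000800c134432511)) (.br (Nat.shiftLeft (nat_lit 0x9000005) (nat_lit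 100)) (.one (nat_lit 0x900000400600901a000800c134434511)) (.one (nat_lit 0x9000005006009019000a00c134432511))))))
def t311 : k311.all (jb2 57 fl b0) = true := by decide +kernel
noncomputable def s16 : KT := (.br (nat_lit 0x2003006009019400600c012032650) (.br (nat_lit 0x100000600901a200000c012034411) (.br (nat_lit 0x2006009019000400c012033500) k300 (.br (nat_lit 0x5006009019000a00c012033500) k301 k302)) (.br (nat_lit 0x1003006009019200600c012032650) k303 (.br (nat_lit 0x100400600901a200800c012034650) k304 k305))) (.br (nat_lit 0x2000004006009019000800c052832511) (.br (nat_lit 0x200400600901a400800c012034650) k306 (.br (nat_lit 0x300400600901a600800c012034650) k307 k308)) (.br (nat_lit 0x5000005006009019000a00c0b3432511) k309 (.br (nat_lit 0x8000003006009019000600c114032511) k310 k311))))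
noncomputable def u16 : KT := (.br (Nat.shiftLeft (nat_lit 0x600a011) (nat_lit 64)) (.br (Nat.shiftLeft (nat_lit 0x300480d) (nat_lit 65)) (.one (nat_lit 0x6009019000000c012032430)) (.br (Nat.shiftLeft (nat_lit 0x3005) (nat_lit 77)) (.one (nat_lit 0x600901a000000c012034430)) (.one (nat_lit 0x600a010000000c014021400)))) (.br (Nat.shiftLeft (nat_lit 0x600a013) (nat_lit 64)) (.br (Nat.shiftLeft (nat_lit 0x3005009) (nat_lit 65)) (.one (nat_lit 0x600a011000000c014023400)) (.one (nat_lit 0x600a012000000c014025400))) (.br (Nat.shiftLeft (nat_lit 0x1802805) (nat_lit 66)) (.one (nat_lit 0x600a013000000c014027400)) (.one (nat_lit 0x600a014000000c014029400)))))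
def w16 : u16.all (wj 57 s16) = true := by decide +kernel
def o16 : OkW 57 (jb2 57 fl) u16 := .lift s16 _ (.br _ _ _ (.br _ _ _ (.br _ _ _ (.leaf b0 k300 t300) (.br _ _ _ (.leaf b0 k301 t301) (.leaf b0 k302 t302))) (.br _ _ _ (.leaf b0 k303 t303) (.br _ _ _ (.leaf b0 k304 t304) (.leaf b0 k305 t305)))) (.br _ _ _ (.br _ _ _ (.leaf b0 k306 t306) (.br _ _ _ (.leaf b0 k307 t307) (.leaf b0 k308 t308))) (.br _ _ _ (.leaf b0 k309 t309) (.br _ _ _ (.leaf b0 k310 t310) (.leaf b0 k311 t311))))) w16
noncomputable def k312 : KT := (.br (Nat.shiftLeft (nat_lit 0x1) (nat_lit 102)) (.br (Nat.shiftLeft (nat_lit 0x1) (nat_lit 101)) (.br (Nat.shiftLeft (nat_lit 0x1) (nat_lit 100)) (.one (nat_lit 0x600a015000000c01402b400)) (.one (nat_lit 0x100600a015000200c01402a540))) (.br (Nat.shiftLeft (nat_lit 0x3) (nat_lit 100)) (.one (nat_lit 0x200600a015000400c01402b500)) (.one (nat_lit 0x300600a015000600c01402b500)))) (.br (Nat.shiftLeft (nat_lit 0x1) (nat_lit 112)) (.br (Nat.shiftLeft (nat_lit 0x5) (nat_lit 100)) (.one (nat_lit 0x400600a015000800c01402b500))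 (.one (nat_lit 0x500600a015000a00c01402b500))) (.br (Nat.shiftLeft (nat_lit 0x801) (nat_lit 101)) (.one (nat_lit 0x100000600a015200000c01402a411)) (.br (Nat.shiftLeft (nat_lit 0x1003) (nat_lit 100)) (.one (nat_lit 0x100200600a015200400c01402b600)) (.one (nat_lit 0x100300600a015200600c01402b600))))))
noncomputable def b313 : BT := .node (nat_lit 0x11) (nat_lit 0x6d9a4e09d2db349c258c003a98000ab78003a5d000ac6029634b19454003a98000ac681002830028300283002830028300283002830028300283002830028300283001c8001c800168001680016800168) .leaf .leaf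
def t312 : k312.all (jb2 57 fl b313) = true := by decide +kernel
noncomputable def k313 : KT := (.one (nat_lit 0x100400600a015200800c01402a650))
def t313 : k313.all (jb2 57 fl b0) = true := by decide +kernel
noncomputable def k314 : KT := (.br (Nat.shiftLeft (nat_lit 0x1001) (nat_lit 101)) (.br (Nat.shiftLeft (nat_lit 0x1) (nat_lit 113)) (.one (nat_lit 0x100500600a015200a00c01402a650)) (.one (nat_lit 0x200000600a015400000c01402a411))) (.br (Nat.shiftLeft (nat_lit 0x801) (nat_lit 102)) (.one (nat_lit 0x200300600a015400600c01402b600)) (.one (nat_lit 0x200400600a015400800c01402b600))))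
def t314 : k314.all (jb2 57 fl b0) = true := by decide +kernel
noncomputable def k315 : KT := (.br (Nat.shiftLeft (nat_lit 0x3) (nat_lit 112)) (.one (nat_lit 0x200500600a015400a00c01402a650)) (.br (Nat.shiftLeft (nat_lit 0xc01) (nat_lit 102)) (.one (nat_lit 0x300000600a015600000c01402a411)) (.one (nat_lit 0x300400600a015600800c01402b600))))
def t315 : k315.all (jb2 57 fl b0) = true := by decide +kernel
noncomputable def k316 : KT := (.br (Nat.shiftLeft (nat_lit 0x1) (nat_lit 114)) (.one (nat_lit 0x300500600a015600a00c01402a650)) (.one (nat_lit 0x400000600a015800000c01402a411)))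
def t316 : k316.all (jb2 57 fl b0) = true := by decide +kernel
noncomputable def k317 : KT := (.br (Nat.shiftLeft (nat_lit 0x3) (nat_lit 113)) (.br (Nat.shiftLeft (nat_lit 0x5) (nat_lit 112)) (.one (nat_lit 0x400500600a015800a00c01402a650)) (.one (nat_lit 0x500000600a015a00000c01402a411))) (.br (Nat.shiftLeft (nat_lit 0x7) (nat_lit 112)) (.one (nat_lit 0x600000600a015c00000c01402a411)) (.br (Nat.shiftLeft (nat_lit 0x1) (nat_lit 115)) (.one (nat_lit 0x700000600a015e00000c01402a411)) (.one (nat_lit 0x800000600a015000000c01412c411)))))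
def t317 : k317.all (jb2 57 fl b0) = true := by decide +kernel
noncomputable def k318 : KT := (.br (Nat.shiftLeft (nat_lit 0x1000003) (nat_lit 100)) (.br (Nat.shiftLeft (nat_lit 0x5) (nat_lit 113)) (.one (nat_lit 0x900000600a015200000c01412c411)) (.br (Nat.shiftLeft (nat_lit 0x1) (nat_lit 124)) (.one (nat_lit 0xa00000600a015400000c01412c411)) (.one (nat_lit 0x100000200600a015000400c03442a511)))) (.br (Nat.shiftLeft (nat_lit 0x1000005) (nat_lit 100)) (.br (Nat.shiftLeft (nat_lit 0x400001) (nat_lit 102)) (.one (nat_lit 0x100000300600a015000600c03442a511)) (.one (nat_lit 0x100000400600a015000800c03442a511))) (.br (Nat.shiftLeft (nat_lit 0x801) (nat_lit 113)) (.one (nat_lit 0x100000500600a015000a00c03442a511)) (.one (nat_lit 0x100200300600a015400600c03442a760)))))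
noncomputable def b319 : BT := .node (nat_lit 0x3) (nat_lit 0x9636da1450a26515261a58c9d451428a259098651449c9450014a19004ac64003a9a002c9a000ba9a002ac60004259002aaa0014259000ea605db226193a80032a2000ab8010027c0027c000b000050) .leaf .leaf
def t318 : k318.all (jb2 57 fl b319) = true := by decide +kernel
noncomputable def k319 : KT := (.br (Nat.shiftLeft (nat_lit 0x2000003) (nat_lit 100)) (.br (Nat.shiftLeft (nat_lit 0x1003) (nat_lit 112)) (.one (nat_lit 0x100200400600a015400800c03442a760)) (.br (Nat.shiftLeft (nat_lit 0x1) (nat_lit 125)) (.one (nat_lit 0x100300400600a015600800c03442a760)) (.one (nat_lit 0x200000200600a015000400c05482a511)))) (.br (Nat.shiftLeft (nat_lit 0x800001) (nat_lit 102)) (.one (nat_lit 0x200000300600a015000600c05482a511)) (.br (Nat.shiftLeft (nat_lit 0x2000005) (nat_lit 100)) (.one (nat_lit 0x200000400600a015000800c05482a511)) (.one (nat_lit 0x200000500600a015000a00c05482a511)))))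
def t319 : k319.all (jb2 57 fl b0) = true := by decide +kernel
noncomputable def k320 : KT := (.br (Nat.shiftLeft (nat_lit 0x1) (nat_lit 126)) (.br (Nat.shiftLeft (nat_lit 0x3000003) (nat_lit 100)) (.br (Nat.shiftLeft (nat_lit 0x3) (nat_lit 124)) (.one (nat_lit 0x200300400600a015600800c05482a760)) (.one (nat_lit 0x300000200600a015000400c074c2a511))) (.br (Nat.shiftLeft (nat_lit 0xc00001) (nat_lit 102)) (.one (nat_lit 0x300000300600a015000600c074c2a511)) (.br (Nat.shiftLeft (nat_lit 0x3000005) (nat_lit 100)) (.one (nat_lit 0x300000400600a015000800c074c2a511)) (.one (nat_lit 0x300000500600a015000a00c074c2a511))))) (.br (Nat.shiftLeft (nat_lit 0x1000001) (nat_lit 102)) (.br (Nat.shiftLeft (nat_lit 0x4000003) (nat_lit 100)) (.one (nat_lit 0x400000200600a015000400c09502a511)) (.one (nat_lit 0x400000300600a015000600c09502a511))) (.br (Nat.shiftLeft (nat_lit 0x4000005) (nat_lit 100)) (.one (nat_lit 0x400000400600a015000800c09502a511)) (.br (Nat.shiftLeft (nat_lit 0x5) (nat_lit 124)) (.one (nat_lit 0x400000500600a015000a00c09502a511))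 (.one (nat_lit 0x500000200600a015000400c0b542a511))))))
def t320 : k320.all (jb2 57 fl b0) = true := by decide +kernel
noncomputable def k321 : KT := (.br (Nat.shiftLeft (nat_lit 0x5000005) (nat_lit 100)) (.br (Nat.shiftLeft (nat_lit 0x1400001) (nat_lit 102)) (.one (nat_lit 0x500000300600a015000600c0b542a511)) (.one (nat_lit 0x500000400600a015000800c0b542a511))) (.br (Nat.shiftLeft (nat_lit 0x3) (nat_lit 125)) (.one (nat_lit 0x500000500600a015000a00c0b542a511)) (.br (Nat.shiftLeft (nat_lit 0x6000003) (nat_lit 100)) (.one (nat_lit 0x600000200600a015000400c0d582a511)) (.one (nat_lit 0x600000300600a015000600c0d582a511)))))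
def t321 : k321.all (jb2 57 fl b0) = true := by decide +kernel
noncomputable def k322 : KT := (.br (Nat.shiftLeft (nat_lit 0x7) (nat_lit 124)) (.br (Nat.shiftLeft (nat_lit 0x6000005) (nat_lit 100)) (.one (nat_lit 0x600000400600a015000800c0d582a511)) (.one (nat_lit 0x600000500600a015000a00c0d582a511))) (.br (Nat.shiftLeft (nat_lit 0x7000003) (nat_lit 100)) (.one (nat_lit 0x700000200600a015000400c0f5c2a511)) (.one (nat_lit 0x700000300600a015000600c0f5c2a511))))
def t322 : k322.all (jb2 57 fl b0) = true := by decide +kernel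
noncomputable def k323 : KT := (.br (Nat.shiftLeft (nat_lit 0x8000003) (nat_lit 100)) (.br (Nat.shiftLeft (nat_lit 0x7000005) (nat_lit 100)) (.one (nat_lit 0x700000400600a015000800c0f5c2a511)) (.br (Nat.shiftLeft (nat_lit 0x1) (nat_lit 127)) (.one (nat_lit 0x700000500600a015000a00c0f5c2a511)) (.one (nat_lit 0x800000200600a015000400c11602a511)))) (.br (Nat.shiftLeft (nat_lit 0x2000001) (nat_lit 102)) (.one (nat_lit 0x800000300600a015000600c11602a511)) (.br (Nat.shiftLeft (nat_lit 0x8000005) (nat_lit 100)) (.one (nat_lit 0x800000400600a015000800c11602a511)) (.one (nat_lit 0x800000500600a015000a00c11602a511)))))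
def t323 : k323.all (jb2 57 fl b0) = true := by decide +kernel
noncomputable def k324 : KT := (.br (Nat.shiftLeft (nat_lit 0x400000801) (nat_lit 102)) (.br (Nat.shiftLeft (nat_lit 0xa000003) (nat_lit 100)) (.br (Nat.shiftLeft (nat_lit 0x2400001) (nat_lit 102)) (.br (Nat.shiftLeft (nat_lit 0x9000003) (nat_lit 100)) (.one (nat_lit 0x900000200600a015000400c13642a511)) (.one (nat_lit 0x900000300600a015000600c13642a511))) (.br (Nat.shiftLeft (nat_lit 0x9000005) (nat_lit 100)) (.one (nat_lit 0x900000400600a015000800c13642a511)) (.br (Nat.shiftLeft (nat_lit 0x5) (nat_lit 125)) (.one (nat_lit 0x900000500600a015000a00c13642a511)) (.one (nat_lit 0xa00000200600a015000400c15682a511))))) (.br (Nat.shiftLeft (nat_lit 0x1) (nat_lit 136)) (.br (Nat.shiftLeft (nat_lit 0x2800001) (nat_lit 102)) (.one (nat_lit 0xa00000300600a015000600c15682a511)) (.br (Nat.shiftLeft (nat_lit 0xa000005) (nat_lit 100)) (.one (nat_lit 0xa00000400600a015000800c15682a511)) (.one (nat_lit 0xa00000500600a015000a00c15682a511)))) (.br (Nat.shiftLeft (nat_lit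 0x1000001003) (nat_lit 100)) (.one (nat_lit 0x100000100200600a015200402c41402a611)) (.br (Nat.shiftLeft (nat_lit 0x800001) (nat_lit 113)) (.one (nat_lit 0x100000100300600a015200602c41402a611)) (.one (nat_lit 0x100000200300600a015400602c41402a611)))))) (.br (Nat.shiftLeft (nat_lit 0x800000801) (nat_lit 102)) (.br (Nat.shiftLeft (nat_lit 0x1) (nat_lit 137)) (.br (Nat.shiftLeft (nat_lit 0x1000003) (nat_lit 112)) (.one (nat_lit 0x100000200400600a015400802c41402a611)) (.one (nat_lit 0x100000300400600a015600802c41402a611))) (.br (Nat.shiftLeft (nat_lit 0x2000001003) (nat_lit 100)) (.one (nat_lit 0x200000100200600a015200404c81402a611)) (.br (Nat.shiftLeft (nat_lit 0x1000001) (nat_lit 113)) (.one (nat_lit 0x200000100300600a015200604c81402a611)) (.one (nat_lit 0x200000200300600a015400604c81402a611))))) (.br (Nat.shiftLeft (nat_lit 0x3000001003) (nat_lit 100)) (.br (Nat.shiftLeft (nat_lit 0x2000003) (nat_lit 112)) (.one (nat_lit 0x200000200400600a015400804c81402a611)) (.br (Nat.shiftLeft (nat_lit 0x3) (nat_lit 136))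 (.one (nat_lit 0x200000300400600a015600804c81402a611)) (.one (nat_lit 0x300000100200600a015200406cc1402a611)))) (.br (Nat.shiftLeft (nat_lit 0x1800001) (nat_lit 113)) (.one (nat_lit 0x300000100300600a015200606cc1402a611)) (.br (Nat.shiftLeft (nat_lit 0xc00000801) (nat_lit 102)) (.one (nat_lit 0x300000200300600a015400606cc1402a611)) (.one (nat_lit 0x300000200400600a015400806cc1402a611)))))))
noncomputable def b325 : BT := .node (nat_lit 0x1) (nat_lit 0x93528aa5900032da000cb6410008800028) .leaf .leaf
def t324 : k324.all (jb2 57 fl b325) = true := by decide +kernel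
noncomputable def k325 : KT := (.br (Nat.shiftLeft (nat_lit 0x1000000801) (nat_lit 102)) (.br (Nat.shiftLeft (nat_lit 0x4000001003) (nat_lit 100)) (.br (Nat.shiftLeft (nat_lit 0x1) (nat_lit 138)) (.one (nat_lit 0x300000300400600a015600806cc1402a611)) (.one (nat_lit 0x400000100200600a015200408d01402a611))) (.br (Nat.shiftLeft (nat_lit 0x2000001) (nat_lit 113)) (.one (nat_lit 0x400000100300600a015200608d01402a611)) (.one (nat_lit 0x400000200300600a015400608d01402a611)))) (.br (Nat.shiftLeft (nat_lit 0x5) (nat_lit 136)) (.br (Nat.shiftLeft (nat_lit 0x4000003) (nat_lit 112)) (.one (nat_lit 0x400000200400600a015400808d01402a611)) (.one (nat_lit 0x400000300400600a015600808d01402a611))) (.br (Nat.shiftLeft (nat_lit 0x5000001003) (nat_lit 100)) (.one (nat_lit 0x500000100200600a01520040ad41402a611)) (.one (nat_lit 0x500000100300600a01520060ad41402a611)))))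
def t325 : k325.all (jb2 57 fl b0) = true := by decide +kernel
noncomputable def k326 : KT := (.br (Nat.shiftLeft (nat_lit 0x5000003) (nat_lit 112)) (.br (Nat.shiftLeft (nat_lit 0x1400000801) (nat_lit 102)) (.one (nat_lit 0x500000200300600a01540060ad41402a611)) (.one (nat_lit 0x500000200400600a01540080ad41402a611))) (.br (Nat.shiftLeft (nat_lit 0x3) (nat_lit 137)) (.one (nat_lit 0x500000300400600a01560080ad41402a611)) (.br (Nat.shiftLeft (nat_lit 0x6000001003) (nat_lit 100)) (.one (nat_lit 0x600000100200600a01520040cd81402a611)) (.one (nat_lit 0x600000100300600a01520060cd81402a611)))))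
def t326 : k326.all (jb2 57 fl b0) = true := by decide +kernel
noncomputable def k327 : KT := (.br (Nat.shiftLeft (nat_lit 0x6000003) (nat_lit 112)) (.br (Nat.shiftLeft (nat_lit 0x1800000801) (nat_lit 102)) (.one (nat_lit 0x600000200300600a01540060cd81402a611)) (.one (nat_lit 0x600000200400600a01540080cd81402a611))) (.br (Nat.shiftLeft (nat_lit 0x7) (nat_lit 136)) (.one (nat_lit 0x600000300400600a01560080cd81402a611)) (.br (Nat.shiftLeft (nat_lit 0x7000001003) (nat_lit 100)) (.one (nat_lit 0x700000100200600a01520040edc1402a611)) (.one (nat_lit 0x700000100300600a01520060edc1402a611)))))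
def t327 : k327.all (jb2 57 fl b0) = true := by decide +kernel
noncomputable def k328 : KT := (.br (Nat.shiftLeft (nat_lit 0x8000001003) (nat_lit 100)) (.br (Nat.shiftLeft (nat_lit 0x7000003) (nat_lit 112)) (.br (Nat.shiftLeft (nat_lit 0x1c00000801) (nat_lit 102)) (.one (nat_lit 0x700000200300600a01540060edc1402a611)) (.one (nat_lit 0x700000200400600a01540080edc1402a611))) (.br (Nat.shiftLeft (nat_lit 0x1) (nat_lit 139)) (.one (nat_lit 0x700000300400600a01560080edc1402a611)) (.one (nat_lit 0x800000100200600a015200410e01402a611)))) (.br (Nat.shiftLeft (nat_lit 0x2000000801) (nat_lit 102)) (.br (Nat.shiftLeft (nat_lit 0x4000001) (nat_lit 113)) (.one (nat_lit 0x800000100300600a015200610e01402a611)) (.one (nat_lit 0x800000200300600a015400610e01402a611))) (.br (Nat.shiftLeft (nat_lit 0x8000003) (nat_lit 112)) (.one (nat_lit 0x800000200400600a015400810e01402a611)) (.one (nat_lit 0x800000300400600a015600810e01402a611)))))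
def t328 : k328.all (jb2 57 fl b0) = true := by decide +kernel
noncomputable def k329 : KT := (.br (Nat.shiftLeft (nat_lit 0x5) (nat_lit 137)) (.br (Nat.shiftLeft (nat_lit 0x4800001) (nat_lit 113)) (.br (Nat.shiftLeft (nat_lit 0x9000001003) (nat_lit 100)) (.one (nat_lit 0x900000100200600a015200412e41402a611)) (.one (nat_lit 0x900000100300600a015200612e41402a611))) (.br (Nat.shiftLeft (nat_lit 0x2400000801) (nat_lit 102)) (.one (nat_lit 0x900000200300600a015400612e41402a611)) (.br (Nat.shiftLeft (nat_lit 0x9000003) (nat_lit 112)) (.one (nat_lit 0x900000200400600a015400812e41402a611)) (.one (nat_lit 0x900000300400600a015600812e41402a611))))) (.br (Nat.shiftLeft (nat_lit 0x5000001) (nat_lit 113)) (.br (Nat.shiftLeft (nat_lit 0xa000001003) (nat_lit 100)) (.one (nat_lit 0xa00000100200600a015200414e81402a611)) (.one (nat_lit 0xa00000100300600a015200614e81402a611))) (.br (Nat.shiftLeft (nat_lit 0x2800000801) (nat_lit 102)) (.one (nat_lit 0xa00000200300600a015400614e81402a611)) (.br (Nat.shiftLeft (nat_lit 0xa000003)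 (nat_lit 112)) (.one (nat_lit 0xa00000200400600a015400814e81402a611)) (.one (nat_lit 0xa00000300400600a015600814e81402a611))))))
def t329 : k329.all (jb2 57 fl b0) = true := by decide +kernel
noncomputable def s17 : KT := (.br (nat_lit 0x500000200600a015000400c0b542a511) (.br (nat_lit 0x300400600a015600800c01402b600) (.br (nat_lit 0x100400600a015200800c01402a650) (.br (nat_lit 0x100300600a015200600c01402b600) k312 k313) (.br (nat_lit 0x200400600a015400800c01402b600) k314 k315)) (.br (nat_lit 0x800000600a015000000c01412c411) (.br (nat_lit 0x400000600a015800000c01402a411) k316 k317) (.br (nat_lit 0x100200300600a015400600c03442a760) k318 (.br (nat_lit 0x200000500600a015000a00c05482a511) k319 k320)))) (.br (nat_lit 0x300000200400600a015400806cc1402a611) (.br (nat_lit 0x700000300600a015000600c0f5c2a511) (.br (nat_lit 0x600000300600a015000600c0d582a511) k321 k322) (.br (nat_lit 0x800000500600a015000a00c11602a511) k323 k324)) (.br (nat_lit 0x600000100300600a01520060cd81402a611) (.br (nat_lit 0x500000100300600a01520060ad41402a611)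 k325 k326) (.br (nat_lit 0x700000100300600a01520060edc1402a611) k327 (.br (nat_lit 0x800000300400600a015600810e01402a611) k328 k329)))))
noncomputable def u17 : KT := (.one (nat_lit 0x600a015000000c01402a430))
def w17 : u17.all (wj 57 s17) = true := by decide +kernel
def o17 : OkW 57 (jb2 57 fl) u17 := .lift s17 _ (.br _ _ _ (.br _ _ _ (.br _ _ _ (.br _ _ _ (.leaf b313 k312 t312) (.leaf b0 k313 t313)) (.br _ _ _ (.leaf b0 k314 t314) (.leaf b0 k315 t315))) (.br _ _ _ (.br _ _ _ (.leaf b0 k316 t316) (.leaf b0 k317 t317)) (.br _ _ _ (.leaf b319 k318 t318) (.br _ _ _ (.leaf b0 k319 t319) (.leaf b0 k320 t320))))) (.br _ _ _ (.br _ _ _ (.br _ _ _ (.leaf b0 k321 t321) (.leaf b0 k322 t322)) (.br _ _ _ (.leaf b0 k323 t323) (.leaf b325 k324 t324))) (.br _ _ _ (.br _ _ _ (.leaf b0 k325 t325) (.leaf b0 k326 t326)) (.br _ _ _ (.leaf b0 k327 t327) (.br _ _ _ (.leaf b0 k328 t328) (.leaf b0 k329 t329)))))) w17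
noncomputable def k330 : KT := (.br (Nat.shiftLeft (nat_lit 0x600a017) (nat_lit 64)) (.one (nat_lit 0x600a016000000c01402d400)) (.br (Nat.shiftLeft (nat_lit 0x1) (nat_lit 100)) (.one (nat_lit 0x600a017000000c01402f400)) (.one (nat_lit 0x100600a016000200c01402c540))))
def t330 : k330.all (jb2 57 fl b0) = true := by decide +kernel
noncomputable def k331 : KT := (.br (Nat.shiftLeft (nat_lit 0x1) (nat_lit 102)) (.br (Nat.shiftLeft (nat_lit 0x200600a017) (nat_lit 64)) (.br (Nat.shiftLeft (nat_lit 0x1) (nat_lit 101)) (.one (nat_lit 0x100600a017000200c01402e540)) (.one (nat_lit 0x200600a016000400c01402d500))) (.br (Nat.shiftLeft (nat_lit 0x3) (nat_lit 100)) (.one (nat_lit 0x200600a017000400c01402f500)) (.br (Nat.shiftLeft (nat_lit 0x300600a017) (nat_lit 64)) (.one (nat_lit 0x300600a016000600c01402d500)) (.one (nat_lit 0x300600a017000600c01402f500))))) (.br (Nat.shiftLeft (nat_lit 0x500600a017) (nat_lit 64)) (.br (Nat.shiftLeft (nat_lit 0x400600a017) (nat_lit 64)) (.one (nat_lit 0x400600a016000800c01402d500)) (.br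 (Nat.shiftLeft (nat_lit 0x5) (nat_lit 100)) (.one (nat_lit 0x400600a017000800c01402f500)) (.one (nat_lit 0x500600a016000a00c01402d500)))) (.br (Nat.shiftLeft (nat_lit 0x1) (nat_lit 112)) (.one (nat_lit 0x500600a017000a00c01402f500)) (.br (Nat.shiftLeft (nat_lit 0x100000600a017) (nat_lit 64)) (.one (nat_lit 0x100000600a016200000c01402c411)) (.one (nat_lit 0x100000600a017200000c01402e411))))))
def t331 : k331.all (jb2 57 fl b0) = true := by decide +kernel
noncomputable def k332 : KT := (.one (nat_lit 0x100200600a016200400c01402c650))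
def t332 : k332.all (jb2 57 fl b0) = true := by decide +kernel
noncomputable def k333 : KT := (.one (nat_lit 0x100200600a017200400c01402e650))
def t333 : k333.all (jb2 57 fl b0) = true := by decide +kernel
noncomputable def k334 : KT := (.one (nat_lit 0x100300600a016200600c01402c650))
def t334 : k334.all (jb2 57 fl b0) = true := by decide +kernel
noncomputable def k335 : KT := (.one (nat_lit 0x100300600a017200600c01402e650))
def t335 : k335.all (jb2 57 fl b0) = true := by decide +kernel
noncomputable def k336 : KT := (.br (Nat.shiftLeft (nat_lit 0x100400600a017) (nat_lit 64)) (.one (nat_lit 0x100400600a016200800c01402c650)) (.one (nat_lit 0x100400600a017200800c01402e650)))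
def t336 : k336.all (jb2 57 fl b0) = true := by decide +kernel
noncomputable def k337 : KT := (.br (Nat.shiftLeft (nat_lit 0x1) (nat_lit 113)) (.br (Nat.shiftLeft (nat_lit 0x100500600a017) (nat_lit 64)) (.one (nat_lit 0x100500600a016200a00c01402c650)) (.one (nat_lit 0x100500600a017200a00c01402e650))) (.br (Nat.shiftLeft (nat_lit 0x200000600a017) (nat_lit 64)) (.one (nat_lit 0x200000600a016400000c01402c411)) (.br (Nat.shiftLeft (nat_lit 0x1001) (nat_lit 101)) (.one (nat_lit 0x200000600a017400000c01402e411)) (.one (nat_lit 0x200300600a016400600c01402d600)))))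
def t337 : k337.all (jb2 57 fl b0) = true := by decide +kernel
noncomputable def k338 : KT := (.one (nat_lit 0x200300600a017400600c01402e650))
def t338 : k338.all (jb2 57 fl b0) = true := by decide +kernel
noncomputable def k339 : KT := (.one (nat_lit 0x200400600a016400800c01402c650))
def t339 : k339.all (jb2 57 fl b0) = true := by decide +kernel
noncomputable def k340 : KT := (.one (nat_lit 0x200400600a017400800c01402e650))
def t340 : k340.all (jb2 57 fl b0) = true := by decide +kernel
noncomputable def k341 : KT := (.br (Nat.shiftLeft (nat_lit 0x3) (nat_lit 112)) (.br (Nat.shiftLeft (nat_lit 0x200500600a017) (nat_lit 64)) (.one (nat_lit 0x200500600a016400a00c01402c650)) (.one (nat_lit 0x200500600a017400a00c01402e650))) (.br (Nat.shiftLeft (nat_lit 0x300000600a017) (nat_lit 64)) (.one (nat_lit 0x300000600a016600000c01402c411)) (.one (nat_lit 0x300000600a017600000c01402e411))))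
def t341 : k341.all (jb2 57 fl b0) = true := by decide +kernel
noncomputable def k342 : KT := (.one (nat_lit 0x300400600a016600800c01402c650))
def t342 : k342.all (jb2 57 fl b0) = true := by decide +kernel
noncomputable def k343 : KT := (.one (nat_lit 0x300400600a017600800c01402e650))
def t343 : k343.all (jb2 57 fl b0) = true := by decide +kernel
noncomputable def k344 : KT := (.br (Nat.shiftLeft (nat_lit 0x1) (nat_lit 114)) (.br (Nat.shiftLeft (nat_lit 0x300500600a017) (nat_lit 64)) (.one (nat_lit 0x300500600a016600a00c01402c650)) (.one (nat_lit 0x300500600a017600a00c01402e650))) (.br (Nat.shiftLeft (nat_lit 0x400000600a017) (nat_lit 64)) (.one (nat_lit 0x400000600a016800000c01402c411)) (.one (nat_lit 0x400000600a017800000c01402e411))))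
def t344 : k344.all (jb2 57 fl b0) = true := by decide +kernel
noncomputable def k345 : KT := (.br (Nat.shiftLeft (nat_lit 0x5) (nat_lit 112)) (.br (Nat.shiftLeft (nat_lit 0x400500600a017) (nat_lit 64)) (.one (nat_lit 0x400500600a016800a00c01402c650)) (.one (nat_lit 0x400500600a017800a00c01402e650))) (.br (Nat.shiftLeft (nat_lit 0x500000600a017) (nat_lit 64)) (.one (nat_lit 0x500000600a016a00000c01402c411)) (.br (Nat.shiftLeft (nat_lit 0x3) (nat_lit 113)) (.one (nat_lit 0x500000600a017a00000c01402e411)) (.one (nat_lit 0x600000600a016c00000c01402c411)))))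
def t345 : k345.all (jb2 57 fl b0) = true := by decide +kernel
noncomputable def k346 : KT := (.br (Nat.shiftLeft (nat_lit 0x400001) (nat_lit 102)) (.br (Nat.shiftLeft (nat_lit 0x900000600a017) (nat_lit 64)) (.br (Nat.shiftLeft (nat_lit 0x1) (nat_lit 115)) (.br (Nat.shiftLeft (nat_lit 0x7) (nat_lit 112)) (.one (nat_lit 0x600000600a017c00000c01402e411)) (.br (Nat.shiftLeft (nat_lit 0x700000600a017) (nat_lit 64)) (.one (nat_lit 0x700000600a016e00000c01402c411)) (.one (nat_lit 0x700000600a017e00000c01402e411)))) (.br (Nat.shiftLeft (nat_lit 0x800000600a017) (nat_lit 64)) (.one (nat_lit 0x800000600a016000000c01412e411)) (.br (Nat.shiftLeft (nat_lit 0x9) (nat_lit 112)) (.one (nat_lit 0x800000600a017000000c014130411)) (.one (nat_lit 0x900000600a016200000c01412e411))))) (.br (Nat.shiftLeft (nat_lit 0x1) (nat_lit 124)) (.br (Nat.shiftLeft (nat_lit 0x5) (nat_lit 113)) (.one (nat_lit 0x900000600a017200000c014130411)) (.br (Nat.shiftLeft (nat_lit 0xa00000600a017) (nat_lit 64)) (.one (nat_lit 0xa00000600a016400000c01412e411))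 (.one (nat_lit 0xa00000600a017400000c014130411)))) (.br (Nat.shiftLeft (nat_lit 0x1000003) (nat_lit 100)) (.br (Nat.shiftLeft (nat_lit 0x100000200600a017) (nat_lit 64)) (.one (nat_lit 0x100000200600a016000400c03442c511)) (.one (nat_lit 0x100000200600a017000400c03442e511))) (.br (Nat.shiftLeft (nat_lit 0x100000300600a017) (nat_lit 64)) (.one (nat_lit 0x100000300600a016000600c03442c511)) (.one (nat_lit 0x100000300600a017000600c03442e511)))))) (.br (Nat.shiftLeft (nat_lit 0x200000200600a017) (nat_lit 64)) (.br (Nat.shiftLeft (nat_lit 0x100000500600a017) (nat_lit 64)) (.br (Nat.shiftLeft (nat_lit 0x100000400600a017) (nat_lit 64)) (.one (nat_lit 0x100000400600a016000800c03442c511)) (.br (Nat.shiftLeft (nat_lit 0x1000005) (nat_lit 100)) (.one (nat_lit 0x100000400600a017000800c03442e511)) (.one (nat_lit 0x100000500600a016000a00c03442c511)))) (.br (Nat.shiftLeft (nat_lit 0x801) (nat_lit 113)) (.one (nat_lit 0x100000500600a017000a00c03442e511)) (.br (Nat.shiftLeft (nat_lit 0x1) (nat_lit 125)) (.one (nat_lit 0x100200300600a016400600c03442c760))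 (.one (nat_lit 0x200000200600a016000400c05482c511))))) (.br (Nat.shiftLeft (nat_lit 0x800001) (nat_lit 102)) (.br (Nat.shiftLeft (nat_lit 0x2000003) (nat_lit 100)) (.one (nat_lit 0x200000200600a017000400c05482e511)) (.br (Nat.shiftLeft (nat_lit 0x200000300600a017) (nat_lit 64)) (.one (nat_lit 0x200000300600a016000600c05482c511)) (.one (nat_lit 0x200000300600a017000600c05482e511)))) (.br (Nat.shiftLeft (nat_lit 0x2000005) (nat_lit 100)) (.br (Nat.shiftLeft (nat_lit 0x200000400600a017) (nat_lit 64)) (.one (nat_lit 0x200000400600a016000800c05482c511)) (.one (nat_lit 0x200000400600a017000800c05482e511))) (.br (Nat.shiftLeft (nat_lit 0x200000500600a017) (nat_lit 64)) (.one (nat_lit 0x200000500600a016000a00c05482c511)) (.one (nat_lit 0x200000500600a017000a00c05482e511)))))))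
def t346 : k346.all (jb2 57 fl b0) = true := by decide +kernel
noncomputable def k347 : KT := (.br (Nat.shiftLeft (nat_lit 0x400000200600a017) (nat_lit 64)) (.br (Nat.shiftLeft (nat_lit 0xc00001) (nat_lit 102)) (.br (Nat.shiftLeft (nat_lit 0x3000003) (nat_lit 100)) (.br (Nat.shiftLeft (nat_lit 0x300000200600a017) (nat_lit 64)) (.one (nat_lit 0x300000200600a016000400c074c2c511)) (.one (nat_lit 0x300000200600a017000400c074c2e511))) (.br (Nat.shiftLeft (nat_lit 0x300000300600a017) (nat_lit 64)) (.one (nat_lit 0x300000300600a016000600c074c2c511)) (.one (nat_lit 0x300000300600a017000600c074c2e511)))) (.br (Nat.shiftLeft (nat_lit 0x3000005) (nat_lit 100)) (.br (Nat.shiftLeft (nat_lit 0x300000400600a017) (nat_lit 64)) (.one (nat_lit 0x300000400600a016000800c074c2c511)) (.one (nat_lit 0x300000400600a017000800c074c2e511))) (.br (Nat.shiftLeft (nat_lit 0x300000500600a017) (nat_lit 64)) (.one (nat_lit 0x300000500600a016000a00c074c2c511)) (.br (Nat.shiftLeft (nat_lit 0x1) (nat_lit 126)) (.one (nat_lit 0x300000500600a017000a00c074c2e511))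 (.one (nat_lit 0x400000200600a016000400c09502c511)))))) (.br (Nat.shiftLeft (nat_lit 0x400000400600a017) (nat_lit 64)) (.br (Nat.shiftLeft (nat_lit 0x400000300600a017) (nat_lit 64)) (.br (Nat.shiftLeft (nat_lit 0x4000003) (nat_lit 100)) (.one (nat_lit 0x400000200600a017000400c09502e511)) (.one (nat_lit 0x400000300600a016000600c09502c511))) (.br (Nat.shiftLeft (nat_lit 0x1000001) (nat_lit 102)) (.one (nat_lit 0x400000300600a017000600c09502e511)) (.one (nat_lit 0x400000400600a016000800c09502c511)))) (.br (Nat.shiftLeft (nat_lit 0x400000500600a017) (nat_lit 64)) (.br (Nat.shiftLeft (nat_lit 0x4000005) (nat_lit 100)) (.one (nat_lit 0x400000400600a017000800c09502e511)) (.one (nat_lit 0x400000500600a016000a00c09502c511))) (.br (Nat.shiftLeft (nat_lit 0x5) (nat_lit 124)) (.one (nat_lit 0x400000500600a017000a00c09502e511)) (.br (Nat.shiftLeft (nat_lit 0x500000200600a017) (nat_lit 64)) (.one (nat_lit 0x500000200600a016000400c0b542c511)) (.one (nat_lit 0x500000200600a017000400c0b542e511)))))))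
def t347 : k347.all (jb2 57 fl b0) = true := by decide +kernel
noncomputable def k348 : KT := (.br (Nat.shiftLeft (nat_lit 0x500000400600a017) (nat_lit 64)) (.br (Nat.shiftLeft (nat_lit 0x500000300600a017) (nat_lit 64)) (.one (nat_lit 0x500000300600a016000600c0b542c511)) (.br (Nat.shiftLeft (nat_lit 0x1400001) (nat_lit 102)) (.one (nat_lit 0x500000300600a017000600c0b542e511)) (.one (nat_lit 0x500000400600a016000800c0b542c511)))) (.br (Nat.shiftLeft (nat_lit 0x500000500600a017) (nat_lit 64)) (.br (Nat.shiftLeft (nat_lit 0x5000005) (nat_lit 100)) (.one (nat_lit 0x500000400600a017000800c0b542e511)) (.one (nat_lit 0x500000500600a016000a00c0b542c511))) (.br (Nat.shiftLeft (nat_lit 0x3) (nat_lit 125)) (.one (nat_lit 0x500000500600a017000a00c0b542e511)) (.one (nat_lit 0x600000200600a016000400c0d582c511)))))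
def t348 : k348.all (jb2 57 fl b0) = true := by decide +kernel
noncomputable def k349 : KT := (.br (Nat.shiftLeft (nat_lit 0x1800001) (nat_lit 102)) (.br (Nat.shiftLeft (nat_lit 0x6000003) (nat_lit 100)) (.one (nat_lit 0x600000200600a017000400c0d582e511)) (.br (Nat.shiftLeft (nat_lit 0x600000300600a017) (nat_lit 64)) (.one (nat_lit 0x600000300600a016000600c0d582c511)) (.one (nat_lit 0x600000300600a017000600c0d582e511)))) (.br (Nat.shiftLeft (nat_lit 0x6000005) (nat_lit 100)) (.br (Nat.shiftLeft (nat_lit 0x600000400600a017) (nat_lit 64)) (.one (nat_lit 0x600000400600a016000800c0d582c511)) (.one (nat_lit 0x600000400600a017000800c0d582e511))) (.br (Nat.shiftLeft (nat_lit 0x600000500600a017) (nat_lit 64)) (.one (nat_lit 0x600000500600a016000a00c0d582c511)) (.one (nat_lit 0x600000500600a017000a00c0d582e511)))))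
def t349 : k349.all (jb2 57 fl b0) = true := by decide +kernel
noncomputable def k350 : KT := (.br (Nat.shiftLeft (nat_lit 0x1c00001) (nat_lit 102)) (.br (Nat.shiftLeft (nat_lit 0x7000003) (nat_lit 100)) (.br (Nat.shiftLeft (nat_lit 0x700000200600a017) (nat_lit 64)) (.one (nat_lit 0x700000200600a016000400c0f5c2c511)) (.one (nat_lit 0x700000200600a017000400c0f5c2e511))) (.br (Nat.shiftLeft (nat_lit 0x700000300600a017) (nat_lit 64)) (.one (nat_lit 0x700000300600a016000600c0f5c2c511)) (.one (nat_lit 0x700000300600a017000600c0f5c2e511)))) (.br (Nat.shiftLeft (nat_lit 0x7000005) (nat_lit 100)) (.br (Nat.shiftLeft (nat_lit 0x700000400600a017) (nat_lit 64)) (.one (nat_lit 0x700000400600a016000800c0f5c2c511)) (.one (nat_lit 0x700000400600a017000800c0f5c2e511))) (.br (Nat.shiftLeft (nat_lit 0x700000500600a017) (nat_lit 64)) (.one (nat_lit 0x700000500600a016000a00c0f5c2c511)) (.one (nat_lit 0x700000500600a017000a00c0f5c2e511)))))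
def t350 : k350.all (jb2 57 fl b0) = true := by decide +kernel
noncomputable def k351 : KT := (.br (Nat.shiftLeft (nat_lit 0x800000400600a017) (nat_lit 64)) (.br (Nat.shiftLeft (nat_lit 0x8000003) (nat_lit 100)) (.br (Nat.shiftLeft (nat_lit 0x800000200600a017) (nat_lit 64)) (.one (nat_lit 0x800000200600a016000400c11602c511)) (.one (nat_lit 0x800000200600a017000400c11602e511))) (.br (Nat.shiftLeft (nat_lit 0x800000300600a017) (nat_lit 64)) (.one (nat_lit 0x800000300600a016000600c11602c511)) (.br (Nat.shiftLeft (nat_lit 0x2000001) (nat_lit 102)) (.one (nat_lit 0x800000300600a017000600c11602e511)) (.one (nat_lit 0x800000400600a016000800c11602c511))))) (.br (Nat.shiftLeft (nat_lit 0x800000500600a017) (nat_lit 64)) (.br (Nat.shiftLeft (nat_lit 0x8000005) (nat_lit 100)) (.one (nat_lit 0x800000400600a017000800c11602e511)) (.one (nat_lit 0x800000500600a016000a00c11602c511))) (.br (Nat.shiftLeft (nat_lit 0x9) (nat_lit 124)) (.one (nat_lit 0x800000500600a017000a00c11602e511)) (.br (Nat.shiftLeft (nat_lit 0x900000200600a017)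 (nat_lit 64)) (.one (nat_lit 0x900000200600a016000400c13642c511)) (.one (nat_lit 0x900000200600a017000400c13642e511))))))
def t351 : k351.all (jb2 57 fl b0) = true := by decide +kernel
noncomputable def k352 : KT := (.br (Nat.shiftLeft (nat_lit 0xa00000300600a017) (nat_lit 64)) (.br (Nat.shiftLeft (nat_lit 0x9000005) (nat_lit 100)) (.br (Nat.shiftLeft (nat_lit 0x2400001) (nat_lit 102)) (.br (Nat.shiftLeft (nat_lit 0x900000300600a017) (nat_lit 64)) (.one (nat_lit 0x900000300600a016000600c13642c511)) (.one (nat_lit 0x900000300600a017000600c13642e511))) (.br (Nat.shiftLeft (nat_lit 0x900000400600a017) (nat_lit 64)) (.one (nat_lit 0x900000400600a016000800c13642c511)) (.one (nat_lit 0x900000400600a017000800c13642e511)))) (.br (Nat.shiftLeft (nat_lit 0x5) (nat_lit 125)) (.br (Nat.shiftLeft (nat_lit 0x900000500600a017) (nat_lit 64)) (.one (nat_lit 0x900000500600a016000a00c13642c511)) (.one (nat_lit 0x900000500600a017000a00c13642e511))) (.br (Nat.shiftLeft (nat_lit 0xa00000200600a017) (nat_lit 64)) (.one (nat_lit 0xa00000200600a016000400c15682c511))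 (.br (Nat.shiftLeft (nat_lit 0xa000003) (nat_lit 100)) (.one (nat_lit 0xa00000200600a017000400c15682e511)) (.one (nat_lit 0xa00000300600a016000600c15682c511)))))) (.br (Nat.shiftLeft (nat_lit 0x1) (nat_lit 136)) (.br (Nat.shiftLeft (nat_lit 0xa00000400600a017) (nat_lit 64)) (.br (Nat.shiftLeft (nat_lit 0x2800001) (nat_lit 102)) (.one (nat_lit 0xa00000300600a017000600c15682e511)) (.one (nat_lit 0xa00000400600a016000800c15682c511))) (.br (Nat.shiftLeft (nat_lit 0xa000005) (nat_lit 100)) (.one (nat_lit 0xa00000400600a017000800c15682e511)) (.br (Nat.shiftLeft (nat_lit 0xa00000500600a017) (nat_lit 64)) (.one (nat_lit 0xa00000500600a016000a00c15682c511)) (.one (nat_lit 0xa00000500600a017000a00c15682e511))))) (.br (Nat.shiftLeft (nat_lit 0x3) (nat_lit 136)) (.br (Nat.shiftLeft (nat_lit 0x1) (nat_lit 137)) (.one (nat_lit 0x100000200300600a016400602c41402c611)) (.one (nat_lit 0x200000200300600a016400604c81402c611))) (.br (Nat.shiftLeft (nat_lit 0x1) (nat_lit 138)) (.one (nat_lit 0x300000200300600a016400606cc1402c611))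 (.br (Nat.shiftLeft (nat_lit 0x5) (nat_lit 136)) (.one (nat_lit 0x400000200300600a016400608d01402c611)) (.one (nat_lit 0x500000200300600a01640060ad41402c611)))))))
def t352 : k352.all (jb2 57 fl b0) = true := by decide +kernel
noncomputable def k353 : KT := (.br (Nat.shiftLeft (nat_lit 0x1) (nat_lit 139)) (.br (Nat.shiftLeft (nat_lit 0x7) (nat_lit 136)) (.one (nat_lit 0x600000200300600a01640060cd81402c611)) (.one (nat_lit 0x700000200300600a01640060edc1402c611))) (.br (Nat.shiftLeft (nat_lit 0x9) (nat_lit 136)) (.one (nat_lit 0x800000200300600a016400610e01402c611)) (.br (Nat.shiftLeft (nat_lit 0x5) (nat_lit 137)) (.one (nat_lit 0x900000200300600a016400612e41402c611)) (.one (nat_lit 0xa00000200300600a016400614e81402c611)))))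
def t353 : k353.all (jb2 57 fl b0) = true := by decide +kernel
noncomputable def s18 : KT := (.br (nat_lit 0x300000600a017600000c01402e411) (.br (nat_lit 0x100300600a017200600c01402e650) (.br (nat_lit 0x100200600a016200400c01402c650) (.br (nat_lit 0x100600a016000200c01402c540) k330 (.br (nat_lit 0x100000600a017200000c01402e411) k331 k332)) (.br (nat_lit 0x100200600a017200400c01402e650) k333 (.br (nat_lit 0x100300600a016200600c01402c650) k334 k335))) (.br (nat_lit 0x200300600a017400600c01402e650) (.br (nat_lit 0x100400600a017200800c01402e650) k336 (.br (nat_lit 0x200300600a016400600c01402d600) k337 k338)) (.br (nat_lit 0x200400600a016400800c01402c650) k339 (.br (nat_lit 0x200400600a017400800c01402e650) k340 k341)))) (.br (nat_lit 0x500000200600a017000400c0b542e511) (.br (nat_lit 0x400000600a017800000c01402e411) (.br (nat_lit 0x300400600a016600800c01402c650) k342 (.br (nat_lit 0x300400600a017600800c01402e650) k343 k344)) (.br (nat_lit 0x600000600a016c00000c01402c411) k345 (.br (nat_lit 0x200000500600a017000a00c05482e511)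 k346 k347))) (.br (nat_lit 0x700000500600a017000a00c0f5c2e511) (.br (nat_lit 0x600000200600a016000400c0d582c511) k348 (.br (nat_lit 0x600000500600a017000a00c0d582e511) k349 k350)) (.br (nat_lit 0x900000200600a017000400c13642e511) k351 (.br (nat_lit 0x500000200300600a01640060ad41402c611) k352 k353)))))
noncomputable def u18 : KT := (.br (Nat.shiftLeft (nat_lit 0x600a017) (nat_lit 64)) (.one (nat_lit 0x600a016000000c01402c430)) (.one (nat_lit 0x600a017000000c01402e430)))
def w18 : u18.all (wj 57 s18) = true := by decide +kernel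
def o18 : OkW 57 (jb2 57 fl) u18 := .lift s18 _ (.br _ _ _ (.br _ _ _ (.br _ _ _ (.br _ _ _ (.leaf b0 k330 t330) (.br _ _ _ (.leaf b0 k331 t331) (.leaf b0 k332 t332))) (.br _ _ _ (.leaf b0 k333 t333) (.br _ _ _ (.leaf b0 k334 t334) (.leaf b0 k335 t335)))) (.br _ _ _ (.br _ _ _ (.leaf b0 k336 t336) (.br _ _ _ (.leaf b0 k337 t337) (.leaf b0 k338 t338))) (.br _ _ _ (.leaf b0 k339 t339) (.br _ _ _ (.leaf b0 k340 t340) (.leaf b0 k341 t341))))) (.br _ _ _ (.br _ _ _ (.br _ _ _ (.leaf b0 k342 t342) (.br _ _ _ (.leaf b0 k343 t343) (.leaf b0 k344 t344))) (.br _ _ _ (.leaf b0 k345 t345) (.br _ _ _ (.leaf b0 k346 t346) (.leaf b0 k347 t347)))) (.br _ _ _ (.br _ _ _ (.leaf b0 k348 t348) (.br _ _ _ (.leaf b0 k349 t349) (.leaf b0 k350 t350))) (.br _ _ _ (.leaf b0 k351 t351) (.br _ _ _ (.leaf b0 k352 t352) (.leaf b0 k353 t353)))))) w18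
noncomputable def k354 : KT := (.br (Nat.shiftLeft (nat_lit 0x600b011) (nat_lit 64)) (.br (Nat.shiftLeft (nat_lit 0x600b) (nat_lit 76)) (.br (Nat.shiftLeft (nat_lit 0x600a019) (nat_lit 64)) (.one (nat_lit 0x600a018000000c014031400)) (.one (nat_lit 0x600a019000000c014033400))) (.br (Nat.shiftLeft (nat_lit 0x600b01) (nat_lit 68)) (.one (nat_lit 0x600b00f000000c01601f400)) (.one (nat_lit 0x600b010000000c016021400)))) (.br (Nat.shiftLeft (nat_lit 0x600b013) (nat_lit 64)) (.br (Nat.shiftLeft (nat_lit 0x3005809) (nat_lit 65)) (.one (nat_lit 0x600b011000000c016023400)) (.one (nat_lit 0x600b012000000c016025400))) (.br (Nat.shiftLeft (nat_lit 0x1) (nat_lit 100)) (.one (nat_lit 0x600b013000000c016027400)) (.one (nat_lit 0x100600a018000200c014030540)))))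
def t354 : k354.all (jb2 57 fl b0) = true := by decide +kernel
noncomputable def k355 : KT := (.br (Nat.shiftLeft (nat_lit 0x1) (nat_lit 101)) (.one (nat_lit 0x100600a019000200c014032540)) (.one (nat_lit 0x200600a018000400c014031500)))
def t355 : k355.all (jb2 57 fl b0) = true := by decide +kernel
noncomputable def k356 : KT := (.br (Nat.shiftLeft (nat_lit 0x1) (nat_lit 102)) (.br (Nat.shiftLeft (nat_lit 0x3) (nat_lit 100)) (.one (nat_lit 0x200600a019000400c014032540)) (.br (Nat.shiftLeft (nat_lit 0x300600a019) (nat_lit 64)) (.one (nat_lit 0x300600a018000600c014031500)) (.one (nat_lit 0x300600a019000600c014033500)))) (.br (Nat.shiftLeft (nat_lit 0x400600a019) (nat_lit 64)) (.one (nat_lit 0x400600a018000800c014031500)) (.br (Nat.shiftLeft (nat_lit 0x5) (nat_lit 100)) (.one (nat_lit 0x400600a019000800c014033500)) (.one (nat_lit 0x500600a018000a00c014031500)))))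
def t356 : k356.all (jb2 57 fl b0) = true := by decide +kernel
noncomputable def k357 : KT := (.br (Nat.shiftLeft (nat_lit 0x1) (nat_lit 112)) (.one (nat_lit 0x500600a019000a00c014032540)) (.br (Nat.shiftLeft (nat_lit 0x100000600a019) (nat_lit 64)) (.one (nat_lit 0x100000600a018200000c014030411)) (.one (nat_lit 0x100000600a019200000c014032411))))
def t357 : k357.all (jb2 57 fl b0) = true := by decide +kernel
noncomputable def k358 : KT := (.br (Nat.shiftLeft (nat_lit 0x1003) (nat_lit 100)) (.one (nat_lit 0x100200600a018200400c014030650)) (.one (nat_lit 0x100300600a018200600c014030650)))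
def t358 : k358.all (jb2 57 fl b0) = true := by decide +kernel
noncomputable def k359 : KT := (.br (Nat.shiftLeft (nat_lit 0x401) (nat_lit 102)) (.one (nat_lit 0x100300600a019200600c014032650)) (.br (Nat.shiftLeft (nat_lit 0x100400600a019) (nat_lit 64)) (.one (nat_lit 0x100400600a018200800c014030650)) (.one (nat_lit 0x100400600a019200800c014032650))))
def t359 : k359.all (jb2 57 fl b0) = true := by decide +kernel
noncomputable def k360 : KT := (.br (Nat.shiftLeft (nat_lit 0x200000600a019) (nat_lit 64)) (.br (Nat.shiftLeft (nat_lit 0x1) (nat_lit 113)) (.one (nat_lit 0x100500600a018200a00c014030650)) (.one (nat_lit 0x200000600a018400000c014030411))) (.br (Nat.shiftLeft (nat_lit 0x1001) (nat_lit 101)) (.one (nat_lit 0x200000600a019400000c014032411)) (.one (nat_lit 0x200300600a018400600c014030650))))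
def t360 : k360.all (jb2 57 fl b0) = true := by decide +kernel
noncomputable def k361 : KT := (.br (Nat.shiftLeft (nat_lit 0x801) (nat_lit 102)) (.one (nat_lit 0x200300600a019400600c014032650)) (.one (nat_lit 0x200400600a018400800c014030650)))
def t361 : k361.all (jb2 57 fl b0) = true := by decide +kernel
noncomputable def k362 : KT := (.br (Nat.shiftLeft (nat_lit 0x3) (nat_lit 112)) (.br (Nat.shiftLeft (nat_lit 0x2005) (nat_lit 100)) (.one (nat_lit 0x200400600a019400800c014032650)) (.one (nat_lit 0x200500600a018400a00c014030650))) (.br (Nat.shiftLeft (nat_lit 0x300000600a019) (nat_lit 64)) (.one (nat_lit 0x300000600a018600000c014030411)) (.br (Nat.shiftLeft (nat_lit 0xc01) (nat_lit 102)) (.one (nat_lit 0x300000600a019600000c014032411)) (.one (nat_lit 0x300400600a018600800c014030650)))))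
def t362 : k362.all (jb2 57 fl b0) = true := by decide +kernel
noncomputable def k363 : KT := (.br (Nat.shiftLeft (nat_lit 0x1001) (nat_lit 102)) (.br (Nat.shiftLeft (nat_lit 0x1) (nat_lit 114)) (.br (Nat.shiftLeft (nat_lit 0x3005) (nat_lit 100)) (.one (nat_lit 0x300400600a019600800c014032650)) (.one (nat_lit 0x300500600a018600a00c014030650))) (.br (Nat.shiftLeft (nat_lit 0x400000600a019) (nat_lit 64)) (.one (nat_lit 0x400000600a018800000c014030411)) (.one (nat_lit 0x400000600a019800000c014032411)))) (.br (Nat.shiftLeft (nat_lit 0x500000600a019) (nat_lit 64)) (.br (Nat.shiftLeft (nat_lit 0x5) (nat_lit 112)) (.one (nat_lit 0x400500600a018800a00c014030650)) (.one (nat_lit 0x500000600a018a00000c014030411))) (.br (Nat.shiftLeft (nat_lit 0x3) (nat_lit 113)) (.one (nat_lit 0x500000600a019a00000c014032411)) (.br (Nat.shiftLeft (nat_lit 0x600000600a019) (nat_lit 64)) (.one (nat_lit 0x600000600a018c00000c014030411)) (.one (nat_lit 0x600000600a019c00000c014032411))))))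
def t363 : k363.all (jb2 57 fl b0) = true := by decide +kernel
noncomputable def k364 : KT := (.br (Nat.shiftLeft (nat_lit 0x200000300600a019) (nat_lit 64)) (.br (Nat.shiftLeft (nat_lit 0x1) (nat_lit 124)) (.br (Nat.shiftLeft (nat_lit 0x9) (nat_lit 112)) (.br (Nat.shiftLeft (nat_lit 0x1) (nat_lit 115)) (.br (Nat.shiftLeft (nat_lit 0x700000600a019) (nat_lit 64)) (.one (nat_lit 0x700000600a018e00000c014030411)) (.one (nat_lit 0x700000600a019e00000c014032411))) (.br (Nat.shiftLeft (nat_lit 0x800000600a019) (nat_lit 64)) (.one (nat_lit 0x800000600a018000000c014132411)) (.one (nat_lit 0x800000600a019000000c014134411)))) (.br (Nat.shiftLeft (nat_lit 0x5) (nat_lit 113)) (.br (Nat.shiftLeft (nat_lit 0x900000600a019) (nat_lit 64)) (.one (nat_lit 0x900000600a018200000c014132411)) (.one (nat_lit 0x900000600a019200000c014134411))) (.br (Nat.shiftLeft (nat_lit 0xa00000600a019) (nat_lit 64)) (.one (nat_lit 0xa00000600a018400000c014132411)) (.one (nat_lit 0xa00000600a019400000c014134411))))) (.br (Nat.shiftLeft (nat_lit 0x100000400600a019)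 (nat_lit 64)) (.br (Nat.shiftLeft (nat_lit 0x100000300600a019) (nat_lit 64)) (.br (Nat.shiftLeft (nat_lit 0x1000003) (nat_lit 100)) (.one (nat_lit 0x100000200600a018000400c034430511)) (.one (nat_lit 0x100000300600a018000600c034430511))) (.br (Nat.shiftLeft (nat_lit 0x400001) (nat_lit 102)) (.one (nat_lit 0x100000300600a019000600c034432511)) (.one (nat_lit 0x100000400600a018000800c034430511)))) (.br (Nat.shiftLeft (nat_lit 0x1) (nat_lit 125)) (.br (Nat.shiftLeft (nat_lit 0x1000005) (nat_lit 100)) (.one (nat_lit 0x100000400600a019000800c034432511)) (.one (nat_lit 0x100000500600a018000a00c034430511))) (.br (Nat.shiftLeft (nat_lit 0x2000003) (nat_lit 100)) (.one (nat_lit 0x200000200600a018000400c054830511)) (.one (nat_lit 0x200000300600a018000600c054830511)))))) (.br (Nat.shiftLeft (nat_lit 0x300000400600a019) (nat_lit 64)) (.br (Nat.shiftLeft (nat_lit 0x3) (nat_lit 124)) (.br (Nat.shiftLeft (nat_lit 0x200000400600a019) (nat_lit 64)) (.br (Nat.shiftLeft (nat_lit 0x800001) (nat_lit 102)) (.one (nat_lit 0x200000300600a019000600c054832511))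 (.one (nat_lit 0x200000400600a018000800c054830511))) (.br (Nat.shiftLeft (nat_lit 0x2000005) (nat_lit 100)) (.one (nat_lit 0x200000400600a019000800c054832511)) (.one (nat_lit 0x200000500600a018000a00c054830511)))) (.br (Nat.shiftLeft (nat_lit 0x300000300600a019) (nat_lit 64)) (.br (Nat.shiftLeft (nat_lit 0x3000003) (nat_lit 100)) (.one (nat_lit 0x300000200600a018000400c074c30511)) (.one (nat_lit 0x300000300600a018000600c074c30511))) (.br (Nat.shiftLeft (nat_lit 0xc00001) (nat_lit 102)) (.one (nat_lit 0x300000300600a019000600c074c32511)) (.one (nat_lit 0x300000400600a018000800c074c30511))))) (.br (Nat.shiftLeft (nat_lit 0x400000300600a019) (nat_lit 64)) (.br (Nat.shiftLeft (nat_lit 0x1) (nat_lit 126)) (.br (Nat.shiftLeft (nat_lit 0x3000005) (nat_lit 100)) (.one (nat_lit 0x300000400600a019000800c074c32511)) (.one (nat_lit 0x300000500600a018000a00c074c30511))) (.br (Nat.shiftLeft (nat_lit 0x4000003) (nat_lit 100)) (.one (nat_lit 0x400000200600a018000400c095030511)) (.one (nat_lit 0x400000300600a018000600c095030511))))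 (.br (Nat.shiftLeft (nat_lit 0x400000400600a019) (nat_lit 64)) (.br (Nat.shiftLeft (nat_lit 0x1000001) (nat_lit 102)) (.one (nat_lit 0x400000300600a019000600c095032511)) (.one (nat_lit 0x400000400600a018000800c095030511))) (.br (Nat.shiftLeft (nat_lit 0x4000005) (nat_lit 100)) (.one (nat_lit 0x400000400600a019000800c095032511)) (.br (Nat.shiftLeft (nat_lit 0x5) (nat_lit 124)) (.one (nat_lit 0x400000500600a018000a00c095030511)) (.one (nat_lit 0x500000200600a018000400c0b5430511))))))))
def t364 : k364.all (jb2 57 fl b0) = true := by decide +kernel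
noncomputable def k365 : KT := (.br (Nat.shiftLeft (nat_lit 0x6000003) (nat_lit 100)) (.br (Nat.shiftLeft (nat_lit 0x500000400600a019) (nat_lit 64)) (.br (Nat.shiftLeft (nat_lit 0x500000300600a019) (nat_lit 64)) (.one (nat_lit 0x500000300600a018000600c0b5430511)) (.br (Nat.shiftLeft (nat_lit 0x1400001) (nat_lit 102)) (.one (nat_lit 0x500000300600a019000600c0b5432511)) (.one (nat_lit 0x500000400600a018000800c0b5430511)))) (.br (Nat.shiftLeft (nat_lit 0x5000005) (nat_lit 100)) (.one (nat_lit 0x500000400600a019000800c0b5432511)) (.br (Nat.shiftLeft (nat_lit 0x3) (nat_lit 125)) (.one (nat_lit 0x500000500600a018000a00c0b5430511)) (.one (nat_lit 0x600000200600a018000400c0d5830511))))) (.br (Nat.shiftLeft (nat_lit 0x600000400600a019) (nat_lit 64)) (.br (Nat.shiftLeft (nat_lit 0x600000300600a019) (nat_lit 64)) (.one (nat_lit 0x600000300600a018000600c0d5830511)) (.br (Nat.shiftLeft (nat_lit 0x1800001) (nat_lit 102)) (.one (nat_lit 0x600000300600a019000600c0d5832511)) (.one (nat_lit 0x600000400600a018000800c0d5830511))))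 (.br (Nat.shiftLeft (nat_lit 0x6000005) (nat_lit 100)) (.one (nat_lit 0x600000400600a019000800c0d5832511)) (.br (Nat.shiftLeft (nat_lit 0x7) (nat_lit 124)) (.one (nat_lit 0x600000500600a018000a00c0d5830511)) (.one (nat_lit 0x700000200600a018000400c0f5c30511))))))
def t365 : k365.all (jb2 57 fl b0) = true := by decide +kernel
noncomputable def k366 : KT := (.br (Nat.shiftLeft (nat_lit 0x9) (nat_lit 124)) (.br (Nat.shiftLeft (nat_lit 0x1) (nat_lit 127)) (.br (Nat.shiftLeft (nat_lit 0x1c00001) (nat_lit 102)) (.br (Nat.shiftLeft (nat_lit 0x700000300600a019) (nat_lit 64)) (.one (nat_lit 0x700000300600a018000600c0f5c30511)) (.one (nat_lit 0x700000300600a019000600c0f5c32511))) (.br (Nat.shiftLeft (nat_lit 0x700000400600a019) (nat_lit 64)) (.one (nat_lit 0x700000400600a018000800c0f5c30511)) (.br (Nat.shiftLeft (nat_lit 0x7000005) (nat_lit 100)) (.one (nat_lit 0x700000400600a019000800c0f5c32511)) (.one (nat_lit 0x700000500600a018000a00c0f5c30511))))) (.br (Nat.shiftLeft (nat_lit 0x2000001) (nat_lit 102)) (.br (Nat.shiftLeft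 (nat_lit 0x8000003) (nat_lit 100)) (.one (nat_lit 0x800000200600a018000400c116030511)) (.br (Nat.shiftLeft (nat_lit 0x800000300600a019) (nat_lit 64)) (.one (nat_lit 0x800000300600a018000600c116030511)) (.one (nat_lit 0x800000300600a019000600c116032511)))) (.br (Nat.shiftLeft (nat_lit 0x800000400600a019) (nat_lit 64)) (.one (nat_lit 0x800000400600a018000800c116030511)) (.br (Nat.shiftLeft (nat_lit 0x8000005) (nat_lit 100)) (.one (nat_lit 0x800000400600a019000800c116032511)) (.one (nat_lit 0x800000500600a018000a00c116030511)))))) (.br (Nat.shiftLeft (nat_lit 0x5) (nat_lit 125)) (.br (Nat.shiftLeft (nat_lit 0x2400001) (nat_lit 102)) (.br (Nat.shiftLeft (nat_lit 0x9000003) (nat_lit 100)) (.one (nat_lit 0x900000200600a018000400c136430511)) (.br (Nat.shiftLeft (nat_lit 0x900000300600a019) (nat_lit 64)) (.one (nat_lit 0x900000300600a018000600c136430511)) (.one (nat_lit 0x900000300600a019000600c136432511)))) (.br (Nat.shiftLeft (nat_lit 0x900000400600a019) (nat_lit 64)) (.one (nat_lit 0x900000400600a018000800c136430511))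 (.br (Nat.shiftLeft (nat_lit 0x9000005) (nat_lit 100)) (.one (nat_lit 0x900000400600a019000800c136432511)) (.one (nat_lit 0x900000500600a018000a00c136430511))))) (.br (Nat.shiftLeft (nat_lit 0x2800001) (nat_lit 102)) (.br (Nat.shiftLeft (nat_lit 0xa000003) (nat_lit 100)) (.one (nat_lit 0xa00000200600a018000400c156830511)) (.br (Nat.shiftLeft (nat_lit 0xa00000300600a019) (nat_lit 64)) (.one (nat_lit 0xa00000300600a018000600c156830511)) (.one (nat_lit 0xa00000300600a019000600c156832511)))) (.br (Nat.shiftLeft (nat_lit 0xa00000400600a019) (nat_lit 64)) (.one (nat_lit 0xa00000400600a018000800c156830511)) (.br (Nat.shiftLeft (nat_lit 0xa000005) (nat_lit 100)) (.one (nat_lit 0xa00000400600a019000800c156832511)) (.one (nat_lit 0xa00000500600a018000a00c156830511)))))))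
def t366 : k366.all (jb2 57 fl b0) = true := by decide +kernel
noncomputable def s19 : KT := (.br (nat_lit 0x100400600a019200800c014032650) (.br (nat_lit 0x500600a018000a00c014031500) (.br (nat_lit 0x100600a018000200c014030540) k354 (.br (nat_lit 0x200600a018000400c014031500) k355 k356)) (.br (nat_lit 0x100000600a019200000c014032411) k357 (.br (nat_lit 0x100300600a018200600c014030650) k358 k359))) (.br (nat_lit 0x300400600a018600800c014030650) (.br (nat_lit 0x200300600a018400600c014030650) k360 (.br (nat_lit 0x200400600a018400800c014030650) k361 k362)) (.br (nat_lit 0x500000200600a018000400c0b5430511) (.br (nat_lit 0x600000600a019c00000c014032411) k363 k364) (.br (nat_lit 0x700000200600a018000400c0f5c30511) k365 k366))))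
noncomputable def u19 : KT := (.br (Nat.shiftLeft (nat_lit 0x600b01) (nat_lit 68)) (.br (Nat.shiftLeft (nat_lit 0x600a019) (nat_lit 64)) (.one (nat_lit 0x600a018000000c014030430)) (.br (Nat.shiftLeft (nat_lit 0x600b) (nat_lit 76)) (.one (nat_lit 0x600a019000000c014032430)) (.one (nat_lit 0x600b00f000000c01601f400)))) (.br (Nat.shiftLeft (nat_lit 0x3005809) (nat_lit 65)) (.br (Nat.shiftLeft (nat_lit 0x600b011) (nat_lit 64)) (.one (nat_lit 0x600b010000000c016021400)) (.one (nat_lit 0x600b011000000c016023400))) (.br (Nat.shiftLeft (nat_lit 0x600b013) (nat_lit 64)) (.one (nat_lit 0x600b012000000c016025400)) (.one (nat_lit 0x600b013000000c016027400)))))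
def w19 : u19.all (wj 57 s19) = true := by decide +kernel
def o19 : OkW 57 (jb2 57 fl) u19 := .lift s19 _ (.br _ _ _ (.br _ _ _ (.br _ _ _ (.leaf b0 k354 t354) (.br _ _ _ (.leaf b0 k355 t355) (.leaf b0 k356 t356))) (.br _ _ _ (.leaf b0 k357 t357) (.br _ _ _ (.leaf b0 k358 t358) (.leaf b0 k359 t359)))) (.br _ _ _ (.br _ _ _ (.leaf b0 k360 t360) (.br _ _ _ (.leaf b0 k361 t361) (.leaf b0 k362 t362))) (.br _ _ _ (.br _ _ _ (.leaf b0 k363 t363) (.leaf b0 k364 t364)) (.br _ _ _ (.leaf b0 k365 t365) (.leaf b0 k366 t366))))) w19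
noncomputable def k : KT := (.br (nat_lit 0x6008016000000c01002c430) (.br (nat_lit 0x5010012000000a020024430) (.br (nat_lit 0x500f010000000a01e020430) (.br (nat_lit 0x500e016000000a01c02c430) u0 u1) (.br (nat_lit 0x500f012000000a01e024430) u2 (.br (nat_lit 0x500f015000000a01e02a430) u3 u4))) (.br (nat_lit 0x6007016000000c00e02c430) (.br (nat_lit 0x6007015000000c00e02b400) u5 u6) (.br (nat_lit 0x6007017000000c00e02e430) u7 (.br (nat_lit 0x6008015000000c01002b400) u8 u9)))) (.br (nat_lit 0x6009016000000c01202c430) (.br (nat_lit 0x6008019000000c010032430) (.br (nat_lit 0x6008017000000c01002e430) u10 u11) (.br (nat_lit 0x6009014000000c012029400) u12 (.br (nat_lit 0x6009015000000c01202a430) u13 u14))) (.br (nat_lit 0x600a014000000c014029400) (.br (nat_lit 0x6009018000000c012030430) u15 u16) (.br (nat_lit 0x600a015000000c01402a430) u17 (.br (nat_lit 0x600a017000000c01402e430) u18 u19)))))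
theorem ok : OkW 57 (jb2 57 fl) k := (.br _ _ _ (.br _ _ _ (.br _ _ _ (.br _ _ _ o0 o1) (.br _ _ _ o2 (.br _ _ _ o3 o4))) (.br _ _ _ (.br _ _ _ o5 o6) (.br _ _ _ o7 (.br _ _ _ o8 o9)))) (.br _ _ _ (.br _ _ _ (.br _ _ _ o10 o11) (.br _ _ _ o12 (.br _ _ _ o13 o14))) (.br _ _ _ (.br _ _ _ o15 o16) (.br _ _ _ o17 (.br _ _ _ o18 o19)))))

end Pool.Agent.Lib.MP_ed43e6_ag.Q.Y57.R10
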