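import Pool.Agent.Lib.MP_ed43e6_ag.Y57.Fl

namespace Pool.Agent.Lib.MP_ed43e6_ag.Q.Y57.R12

set_option linter.defProp false

noncomputable def b0 : BT := .node (nat_lit 1) (nat_lit 0) .leaf .leaf
noncomputable def k0 : KT := (.br (Nat.shiftLeft (nat_lit 0x1) (nat_lit 102)) (.br (Nat.shiftLeft (nat_lit 0x1) (nat_lit 101)) (.br (Nat.shiftLeft (nat_lit 0x1) (nat_lit 100)) (.one (nat_lit 0x7008016000000e01002d400)) (.one (nat_lit 0x1007008016000200e01002c540))) (.br (Nat.shiftLeft (nat_lit 0x3) (nat_lit 100)) (.one (nat_lit 0x2007008016000400e01002d500)) (.one (nat_lit 0x3007008016000600e01002d500)))) (.br (Nat.shiftLeft (nat_lit 0x3) (nat_lit 101)) (.br (Nat.shiftLeft (nat_lit 0x5) (nat_lit 100)) (.one (nat_lit 0x4007008016000800e01002d500)) (.one (nat_lit 0x5007008016000a00e01002d500))) (.br (Nat.shiftLeft (nat_lit 0x1) (nat_lit 112)) (.one (nat_lit 0x6007008016000c00e01002d500)) (.one (nat_lit 0x1000007008016200000e01002c411)))))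
def t0 : k0.all (jb2 57 fl b0) = true := by decide +kernel
noncomputable def k1 : KT := (.one (nat_lit 0x1002007008016200400e01002c650))
def t1 : k1.all (jb2 57 fl b0) = true := by decide +kernel
noncomputable def k2 : KT := (.one (nat_lit 0x1003007008016200600e01002c650))
def t2 : k2.all (jb2 57 fl b0) = true := by decide +kernel
noncomputable def k3 : KT := (.one (nat_lit 0x1004007008016200800e01002c650))
def t3 : k3.all (jb2 57 fl b0) = true := by decide +kernel
noncomputable def k4 : KT := (.br (Nat.shiftLeft (nat_lit 0x1) (nat_lit 113)) (.br (Nat.shiftLeft (nat_lit 0x803) (nat_lit 101)) (.one (nat_lit 0x1005007008016200a00e01002c650)) (.one (nat_lit 0x1006007008016200c00e01002c650))) (.br (Nat.shiftLeft (nat_lit 0x1001) (nat_lit 101)) (.one (nat_lit 0x2000007008016400000e01002c411)) (.one (nat_lit 0x2003007008016400600e01002d600))))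
def t4 : k4.all (jb2 57 fl b0) = true := by decide +kernel
noncomputable def k5 : KT := (.one (nat_lit 0x2004007008016400800e01002c650))
def t5 : k5.all (jb2 57 fl b0) = true := by decide +kernel
noncomputable def k6 : KT := (.one (nat_lit 0x2005007008016400a00e01002c650))
def t6 : k6.all (jb2 57 fl b0) = true := by decide +kernel
noncomputable def k7 : KT := (.br (Nat.shiftLeft (nat_lit 0x3) (nat_lit 112)) (.one (nat_lit 0x2006007008016400c00e01002c650)) (.br (Nat.shiftLeft (nat_lit 0xc01) (nat_lit 102)) (.one (nat_lit 0x3000007008016600000e01002c411)) (.one (nat_lit 0x3004007008016600800e01002d600))))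
def t7 : k7.all (jb2 57 fl b0) = true := by decide +kernel
noncomputable def k8 : KT := (.one (nat_lit 0x3005007008016600a00e01002c650))
def t8 : k8.all (jb2 57 fl b0) = true := by decide +kernel
noncomputable def k9 : KT := (.br (Nat.shiftLeft (nat_lit 0x1) (nat_lit 114)) (.one (nat_lit 0x3006007008016600c00e01002c650)) (.one (nat_lit 0x4000007008016800000e01002c411)))
def t9 : k9.all (jb2 57 fl b0) = true := by decide +kernel
noncomputable def k10 : KT := (.one (nat_lit 0x4005007008016800a00e01002c650))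
def t10 : k10.all (jb2 57 fl b0) = true := by decide +kernel
noncomputable def k11 : KT := (.br (Nat.shiftLeft (nat_lit 0x5) (nat_lit 112)) (.one (nat_lit 0x4006007008016800c00e01002c650)) (.br (Nat.shiftLeft (nat_lit 0x1401) (nat_lit 102)) (.one (nat_lit 0x5000007008016a00000e01002c411)) (.one (nat_lit 0x5006007008016a00c00e01002c650))))
def t11 : k11.all (jb2 57 fl b0) = true := by decide +kernel
noncomputable def k12 : KT := (.br (Nat.shiftLeft (nat_lit 0x1000005) (nat_lit 100)) (.br (Nat.shiftLeft (nat_lit 0x1) (nat_lit 124)) (.br (Nat.shiftLeft (nat_lit 0x7) (nat_lit 112)) (.one (nat_lit 0x6000007008016c00000e01002c411)) (.br (Nat.shiftLeft (nat_lit 0x1) (nat_lit 115)) (.one (nat_lit 0x7000007008016e00000e01002c411)) (.one (nat_lit 0x8000007008016000000e01012e411)))) (.br (Nat.shiftLeft (nat_lit 0x1000003) (nat_lit 100)) (.one (nat_lit 0x1000002007008016000400e03042c511)) (.br (Nat.shiftLeft (nat_lit 0x400001) (nat_lit 102)) (.one (nat_lit 0x1000003007008016000600e03042c511)) (.one (nat_lit 0x1000004007008016000800e03042c511)))))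 (.br (Nat.shiftLeft (nat_lit 0x1003) (nat_lit 112)) (.br (Nat.shiftLeft (nat_lit 0x800003) (nat_lit 101)) (.one (nat_lit 0x1000005007008016000a00e03042c511)) (.br (Nat.shiftLeft (nat_lit 0x801) (nat_lit 113)) (.one (nat_lit 0x1000006007008016000c00e03042c511)) (.one (nat_lit 0x1002003007008016400600e03042c760)))) (.br (Nat.shiftLeft (nat_lit 0x1) (nat_lit 125)) (.one (nat_lit 0x1003004007008016600800e03042c760)) (.br (Nat.shiftLeft (nat_lit 0x2000003) (nat_lit 100)) (.one (nat_lit 0x2000002007008016000400e05082c511)) (.one (nat_lit 0x2000003007008016000600e05082c511))))))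
def t12 : k12.all (jb2 57 fl b0) = true := by decide +kernel
noncomputable def k13 : KT := (.br (Nat.shiftLeft (nat_lit 0x3000005) (nat_lit 100)) (.br (Nat.shiftLeft (nat_lit 0x1001) (nat_lit 113)) (.br (Nat.shiftLeft (nat_lit 0x2000005) (nat_lit 100)) (.one (nat_lit 0x2000004007008016000800e05082c511)) (.br (Nat.shiftLeft (nat_lit 0x1000003) (nat_lit 101)) (.one (nat_lit 0x2000005007008016000a00e05082c511)) (.one (nat_lit 0x2000006007008016000c00e05082c511)))) (.br (Nat.shiftLeft (nat_lit 0x3000003) (nat_lit 100)) (.br (Nat.shiftLeft (nat_lit 0x3) (nat_lit 124)) (.one (nat_lit 0x2003004007008016600800e05082c760)) (.one (nat_lit 0x3000002007008016000400e070c2c511))) (.br (Nat.shiftLeft (nat_lit 0xc00001) (nat_lit 102)) (.one (nat_lit 0x3000003007008016000600e070c2c511)) (.one (nat_lit 0x3000004007008016000800e070c2c511))))) (.br (Nat.shiftLeft (nat_lit 0x1000001) (nat_lit 102)) (.br (Nat.shiftLeft (nat_lit 0x1) (nat_lit 126)) (.br (Nat.shiftLeft (nat_lit 0x1800003) (nat_lit 101)) (.one (nat_lit 0x3000005007008016000a00e070c2c511))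 (.one (nat_lit 0x3000006007008016000c00e070c2c511))) (.br (Nat.shiftLeft (nat_lit 0x4000003) (nat_lit 100)) (.one (nat_lit 0x4000002007008016000400e09102c511)) (.one (nat_lit 0x4000003007008016000600e09102c511)))) (.br (Nat.shiftLeft (nat_lit 0x2000003) (nat_lit 101)) (.br (Nat.shiftLeft (nat_lit 0x4000005) (nat_lit 100)) (.one (nat_lit 0x4000004007008016000800e09102c511)) (.one (nat_lit 0x4000005007008016000a00e09102c511))) (.br (Nat.shiftLeft (nat_lit 0x5) (nat_lit 124)) (.one (nat_lit 0x4000006007008016000c00e09102c511)) (.one (nat_lit 0x5000002007008016000400e0b142c511))))))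
def t13 : k13.all (jb2 57 fl b0) = true := by decide +kernel
noncomputable def k14 : KT := (.br (Nat.shiftLeft (nat_lit 0x2800003) (nat_lit 101)) (.br (Nat.shiftLeft (nat_lit 0x1400001) (nat_lit 102)) (.one (nat_lit 0x5000003007008016000600e0b142c511)) (.br (Nat.shiftLeft (nat_lit 0x5000005) (nat_lit 100)) (.one (nat_lit 0x5000004007008016000800e0b142c511)) (.one (nat_lit 0x5000005007008016000a00e0b142c511)))) (.br (Nat.shiftLeft (nat_lit 0x3) (nat_lit 125)) (.one (nat_lit 0x5000006007008016000c00e0b142c511)) (.br (Nat.shiftLeft (nat_lit 0x6000003) (nat_lit 100)) (.one (nat_lit 0x6000002007008016000400e0d182c511)) (.one (nat_lit 0x6000003007008016000600e0d182c511)))))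
def t14 : k14.all (jb2 57 fl b0) = true := by decide +kernel
noncomputable def k15 : KT := (.br (Nat.shiftLeft (nat_lit 0x7) (nat_lit 124)) (.br (Nat.shiftLeft (nat_lit 0x6000005) (nat_lit 100)) (.one (nat_lit 0x6000004007008016000800e0d182c511)) (.br (Nat.shiftLeft (nat_lit 0x3000003) (nat_lit 101)) (.one (nat_lit 0x6000005007008016000a00e0d182c511)) (.one (nat_lit 0x6000006007008016000c00e0d182c511)))) (.br (Nat.shiftLeft (nat_lit 0x7000003) (nat_lit 100)) (.one (nat_lit 0x7000002007008016000400e0f1c2c511)) (.br (Nat.shiftLeft (nat_lit 0x1c00001) (nat_lit 102)) (.one (nat_lit 0x7000003007008016000600e0f1c2c511)) (.one (nat_lit 0x7000004007008016000800e0f1c2c511)))))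
def t15 : k15.all (jb2 57 fl b0) = true := by decide +kernel
noncomputable def k16 : KT := (.br (Nat.shiftLeft (nat_lit 0x1) (nat_lit 136)) (.br (Nat.shiftLeft (nat_lit 0x8000003) (nat_lit 100)) (.br (Nat.shiftLeft (nat_lit 0x3800003) (nat_lit 101)) (.one (nat_lit 0x7000005007008016000a00e0f1c2c511)) (.br (Nat.shiftLeft (nat_lit 0x1) (nat_lit 127)) (.one (nat_lit 0x7000006007008016000c00e0f1c2c511)) (.one (nat_lit 0x8000002007008016000400e11202c511)))) (.br (Nat.shiftLeft (nat_lit 0x8000005) (nat_lit 100)) (.br (Nat.shiftLeft (nat_lit 0x2000001) (nat_lit 102)) (.one (nat_lit 0x8000003007008016000600e11202c511)) (.one (nat_lit 0x8000004007008016000800e11202c511))) (.br (Nat.shiftLeft (nat_lit 0x4000003) (nat_lit 101)) (.one (nat_lit 0x8000005007008016000a00e11202c511)) (.one (nat_lit 0x8000006007008016000c00e11202c511))))) (.br (Nat.shiftLeft (nat_lit 0x2000003) (nat_lit 112)) (.br (Nat.shiftLeft (nat_lit 0x1000003) (nat_lit 112)) (.one (nat_lit 0x1000002003007008016400602e41002c611)) (.br (Nat.shiftLeft (nat_lit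 0x1) (nat_lit 137)) (.one (nat_lit 0x1000003004007008016600802e41002c611)) (.one (nat_lit 0x2000002003007008016400604e81002c611)))) (.br (Nat.shiftLeft (nat_lit 0x3000003) (nat_lit 112)) (.br (Nat.shiftLeft (nat_lit 0x3) (nat_lit 136)) (.one (nat_lit 0x2000003004007008016600804e81002c611)) (.one (nat_lit 0x3000002003007008016400606ec1002c611))) (.br (Nat.shiftLeft (nat_lit 0x1) (nat_lit 138)) (.one (nat_lit 0x3000003004007008016600806ec1002c611)) (.one (nat_lit 0x4000002003007008016400608f01002c611))))))
def t16 : k16.all (jb2 57 fl b0) = true := by decide +kernel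
noncomputable def k17 : KT := (.br (Nat.shiftLeft (nat_lit 0x6000003) (nat_lit 112)) (.br (Nat.shiftLeft (nat_lit 0x5000003) (nat_lit 112)) (.br (Nat.shiftLeft (nat_lit 0x5) (nat_lit 136)) (.one (nat_lit 0x4000003004007008016600808f01002c611)) (.one (nat_lit 0x500000200300700801640060af41002c611))) (.br (Nat.shiftLeft (nat_lit 0x3) (nat_lit 137)) (.one (nat_lit 0x500000300400700801660080af41002c611)) (.one (nat_lit 0x600000200300700801640060cf81002c611)))) (.br (Nat.shiftLeft (nat_lit 0x7000003) (nat_lit 112)) (.br (Nat.shiftLeft (nat_lit 0x7) (nat_lit 136)) (.one (nat_lit 0x600000300400700801660080cf81002c611)) (.one (nat_lit 0x700000200300700801640060efc1002c611))) (.br (Nat.shiftLeft (nat_lit 0x1) (nat_lit 139)) (.one (nat_lit 0x700000300400700801660080efc1002c611)) (.br (Nat.shiftLeft (nat_lit 0x8000003) (nat_lit 112)) (.one (nat_lit 0x8000002003007008016400611001002c611)) (.one (nat_lit 0x8000003004007008016600811001002c611))))))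
def t17 : k17.all (jb2 57 fl b0) = true := by decide +kernel
noncomputable def s0 : KT := (.br (nat_lit 0x3005007008016600a00e01002c650) (.br (nat_lit 0x1004007008016200800e01002c650) (.br (nat_lit 0x1002007008016200400e01002c650) (.br (nat_lit 0x1000007008016200000e01002c411) k0 k1) (.br (nat_lit 0x1003007008016200600e01002c650) k2 k3)) (.br (nat_lit 0x2004007008016400800e01002c650) (.br (nat_lit 0x2003007008016400600e01002d600) k4 k5) (.br (nat_lit 0x2005007008016400a00e01002c650) k6 (.br (nat_lit 0x3004007008016600800e01002d600) k7 k8)))) (.br (nat_lit 0x2000003007008016000600e05082c511) (.br (nat_lit 0x4005007008016800a00e01002c650) (.br (nat_lit 0x4000007008016800000e01002c411) k9 k10) (.br (nat_lit 0x5006007008016a00c00e01002c650) k11 k12)) (.br (nat_lit 0x6000003007008016000600e0d182c511) (.br (nat_lit 0x5000002007008016000400e0b142c511) k13 k14) (.br (nat_lit 0x7000004007008016000800e0f1c2c511) k15 (.br (nat_lit 0x4000002003007008016400608f01002c611) k16 k17)))))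
noncomputable def u0 : KT := (.one (nat_lit 0x7008016000000e01002c430))
def w0 : u0.all (wj 57 s0) = true := by decide +kernel
def o0 : OkW 57 (jb2 57 fl) u0 := .lift s0 _ (.br _ _ _ (.br _ _ _ (.br _ _ _ (.br _ _ _ (.leaf b0 k0 t0) (.leaf b0 k1 t1)) (.br _ _ _ (.leaf b0 k2 t2) (.leaf b0 k3 t3))) (.br _ _ _ (.br _ _ _ (.leaf b0 k4 t4) (.leaf b0 k5 t5)) (.br _ _ _ (.leaf b0 k6 t6) (.br _ _ _ (.leaf b0 k7 t7) (.leaf b0 k8 t8))))) (.br _ _ _ (.br _ _ _ (.br _ _ _ (.leaf b0 k9 t9) (.leaf b0 k10 t10)) (.br _ _ _ (.leaf b0 k11 t11) (.leaf b0 k12 t12))) (.br _ _ _ (.br _ _ _ (.leaf b0 k13 t13) (.leaf b0 k14 t14)) (.br _ _ _ (.leaf b0 k15 t15) (.br _ _ _ (.leaf b0 k16 t16) (.leaf b0 k17 t17)))))) w0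
noncomputable def k18 : KT := (.br (Nat.shiftLeft (nat_lit 0xe01003) (nat_lit 67)) (.one (nat_lit 0x7008017000000e01002f400)) (.br (Nat.shiftLeft (nat_lit 0x1) (nat_lit 100)) (.one (nat_lit 0x7008018000000e010031400)) (.one (nat_lit 0x1007008017000200e01002e540))))
def t18 : k18.all (jb2 57 fl b0) = true := by decide +kernel
noncomputable def k19 : KT := (.br (Nat.shiftLeft (nat_lit 0x800e01003) (nat_lit 67)) (.br (Nat.shiftLeft (nat_lit 0x3) (nat_lit 100)) (.br (Nat.shiftLeft (nat_lit 0x1) (nat_lit 101)) (.one (nat_lit 0x1007008018000200e010030540)) (.br (Nat.shiftLeft (nat_lit 0x400e01003) (nat_lit 67)) (.one (nat_lit 0x2007008017000400e01002f500)) (.one (nat_lit 0x2007008018000400e010031500)))) (.br (Nat.shiftLeft (nat_lit 0x600e01003) (nat_lit 67)) (.one (nat_lit 0x3007008017000600e01002f500)) (.br (Nat.shiftLeft (nat_lit 0x1) (nat_lit 102)) (.one (nat_lit 0x3007008018000600e010031500)) (.one (nat_lit 0x4007008017000800e01002f500))))) (.br (Nat.shiftLeft (nat_lit 0x3) (nat_lit 101)) (.br (Nat.shiftLeft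 (nat_lit 0x5) (nat_lit 100)) (.one (nat_lit 0x4007008018000800e010031500)) (.br (Nat.shiftLeft (nat_lit 0xa00e01003) (nat_lit 67)) (.one (nat_lit 0x5007008017000a00e01002f500)) (.one (nat_lit 0x5007008018000a00e010031500)))) (.br (Nat.shiftLeft (nat_lit 0x1) (nat_lit 112)) (.br (Nat.shiftLeft (nat_lit 0xc00e01003) (nat_lit 67)) (.one (nat_lit 0x6007008017000c00e01002f500)) (.one (nat_lit 0x6007008018000c00e010031500))) (.br (Nat.shiftLeft (nat_lit 0x200000e01003) (nat_lit 67)) (.one (nat_lit 0x1000007008017200000e01002e411)) (.one (nat_lit 0x1000007008018200000e010030411))))))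
def t19 : k19.all (jb2 57 fl b0) = true := by decide +kernel
noncomputable def k20 : KT := (.one (nat_lit 0x1002007008017200400e01002e650))
def t20 : k20.all (jb2 57 fl b0) = true := by decide +kernel
noncomputable def k21 : KT := (.one (nat_lit 0x1002007008018200400e010030650))
def t21 : k21.all (jb2 57 fl b0) = true := by decide +kernel
noncomputable def k22 : KT := (.one (nat_lit 0x1003007008017200600e01002e650))
def t22 : k22.all (jb2 57 fl b0) = true := by decide +kernel
noncomputable def k23 : KT := (.br (Nat.shiftLeft (nat_lit 0x401) (nat_lit 102)) (.one (nat_lit 0x1003007008018200600e010030650)) (.one (nat_lit 0x1004007008017200800e01002e650)))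
def t23 : k23.all (jb2 57 fl b0) = true := by decide +kernel
noncomputable def k24 : KT := (.br (Nat.shiftLeft (nat_lit 0x1005) (nat_lit 100)) (.one (nat_lit 0x1004007008018200800e010030650)) (.one (nat_lit 0x1005007008017200a00e01002e650)))
def t24 : k24.all (jb2 57 fl b0) = true := by decide +kernel
noncomputable def k25 : KT := (.br (Nat.shiftLeft (nat_lit 0x200c00e01003) (nat_lit 67)) (.br (Nat.shiftLeft (nat_lit 0x803) (nat_lit 101)) (.one (nat_lit 0x1005007008018200a00e010030650)) (.one (nat_lit 0x1006007008017200c00e01002e650))) (.br (Nat.shiftLeft (nat_lit 0x1) (nat_lit 113)) (.one (nat_lit 0x1006007008018200c00e010030650)) (.br (Nat.shiftLeft (nat_lit 0x400000e01003) (nat_lit 67)) (.one (nat_lit 0x2000007008017400000e01002e411)) (.one (nat_lit 0x2000007008018400000e010030411)))))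
def t25 : k25.all (jb2 57 fl b0) = true := by decide +kernel
noncomputable def k26 : KT := (.one (nat_lit 0x2003007008017400600e01002e650))
def t26 : k26.all (jb2 57 fl b0) = true := by decide +kernel
noncomputable def k27 : KT := (.one (nat_lit 0x2003007008018400600e010030650))
def t27 : k27.all (jb2 57 fl b0) = true := by decide +kernel
noncomputable def k28 : KT := (.one (nat_lit 0x2004007008017400800e01002e650))
def t28 : k28.all (jb2 57 fl b0) = true := by decide +kernel
noncomputable def k29 : KT := (.br (Nat.shiftLeft (nat_lit 0x2005) (nat_lit 100)) (.one (nat_lit 0x2004007008018400800e010030650)) (.one (nat_lit 0x2005007008017400a00e01002e650)))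
def t29 : k29.all (jb2 57 fl b0) = true := by decide +kernel
noncomputable def k30 : KT := (.br (Nat.shiftLeft (nat_lit 0x400c00e01003) (nat_lit 67)) (.br (Nat.shiftLeft (nat_lit 0x1003) (nat_lit 101)) (.one (nat_lit 0x2005007008018400a00e010030650)) (.one (nat_lit 0x2006007008017400c00e01002e650))) (.br (Nat.shiftLeft (nat_lit 0x3) (nat_lit 112)) (.one (nat_lit 0x2006007008018400c00e010030650)) (.br (Nat.shiftLeft (nat_lit 0x600000e01003) (nat_lit 67)) (.one (nat_lit 0x3000007008017600000e01002e411)) (.one (nat_lit 0x3000007008018600000e010030411)))))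
def t30 : k30.all (jb2 57 fl b0) = true := by decide +kernel
noncomputable def k31 : KT := (.one (nat_lit 0x3004007008017600800e01002e650))
def t31 : k31.all (jb2 57 fl b0) = true := by decide +kernel
noncomputable def k32 : KT := (.one (nat_lit 0x3004007008018600800e010030650))
def t32 : k32.all (jb2 57 fl b0) = true := by decide +kernel
noncomputable def k33 : KT := (.br (Nat.shiftLeft (nat_lit 0x600a00e01003) (nat_lit 67)) (.one (nat_lit 0x3005007008017600a00e01002e650)) (.one (nat_lit 0x3005007008018600a00e010030650)))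
def t33 : k33.all (jb2 57 fl b0) = true := by decide +kernel
noncomputable def k34 : KT := (.br (Nat.shiftLeft (nat_lit 0x1) (nat_lit 114)) (.br (Nat.shiftLeft (nat_lit 0x600c00e01003) (nat_lit 67)) (.one (nat_lit 0x3006007008017600c00e01002e650)) (.one (nat_lit 0x3006007008018600c00e010030650))) (.br (Nat.shiftLeft (nat_lit 0x800000e01003) (nat_lit 67)) (.one (nat_lit 0x4000007008017800000e01002e411)) (.one (nat_lit 0x4000007008018800000e010030411))))
def t34 : k34.all (jb2 57 fl b0) = true := by decide +kernel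
noncomputable def k35 : KT := (.br (Nat.shiftLeft (nat_lit 0x800a00e01003) (nat_lit 67)) (.one (nat_lit 0x4005007008017800a00e01002e650)) (.one (nat_lit 0x4005007008018800a00e010030650)))
def t35 : k35.all (jb2 57 fl b0) = true := by decide +kernel
noncomputable def k36 : KT := (.br (Nat.shiftLeft (nat_lit 0x5) (nat_lit 112)) (.br (Nat.shiftLeft (nat_lit 0x800c00e01003) (nat_lit 67)) (.one (nat_lit 0x4006007008017800c00e01002e650)) (.one (nat_lit 0x4006007008018800c00e010030650))) (.br (Nat.shiftLeft (nat_lit 0xa00000e01003) (nat_lit 67)) (.one (nat_lit 0x5000007008017a00000e01002e411)) (.br (Nat.shiftLeft (nat_lit 0x1401) (nat_lit 102)) (.one (nat_lit 0x5000007008018a00000e010030411)) (.one (nat_lit 0x5006007008017a00c00e01002e650)))))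
def t36 : k36.all (jb2 57 fl b0) = true := by decide +kernel
noncomputable def k37 : KT := (.br (Nat.shiftLeft (nat_lit 0x400000600e01003) (nat_lit 67)) (.br (Nat.shiftLeft (nat_lit 0x200000600e01003) (nat_lit 67)) (.br (Nat.shiftLeft (nat_lit 0x1) (nat_lit 115)) (.br (Nat.shiftLeft (nat_lit 0xc00000e01003) (nat_lit 67)) (.br (Nat.shiftLeft (nat_lit 0x3) (nat_lit 113)) (.one (nat_lit 0x5006007008018a00c00e010030650)) (.one (nat_lit 0x6000007008017c00000e01002e411))) (.br (Nat.shiftLeft (nat_lit 0x7) (nat_lit 112)) (.one (nat_lit 0x6000007008018c00000e010030411)) (.br (Nat.shiftLeft (nat_lit 0xe00000e01003) (nat_lit 67)) (.one (nat_lit 0x7000007008017e00000e01002e411)) (.one (nat_lit 0x7000007008018e00000e010030411))))) (.br (Nat.shiftLeft (nat_lit 0x1) (nat_lit 124)) (.br (Nat.shiftLeft (nat_lit 0x1000000e01003) (nat_lit 67)) (.one (nat_lit 0x8000007008017000000e010130411)) (.one (nat_lit 0x8000007008018000000e010132411))) (.br (Nat.shiftLeft (nat_lit 0x200000400e01003) (nat_lit 67)) (.one (nat_lit 0x1000002007008017000400e03042e511))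 (.br (Nat.shiftLeft (nat_lit 0x1000003) (nat_lit 100)) (.one (nat_lit 0x1000002007008018000400e030430511)) (.one (nat_lit 0x1000003007008017000600e03042e511)))))) (.br (Nat.shiftLeft (nat_lit 0x800003) (nat_lit 101)) (.br (Nat.shiftLeft (nat_lit 0x200000800e01003) (nat_lit 67)) (.br (Nat.shiftLeft (nat_lit 0x400001) (nat_lit 102)) (.one (nat_lit 0x1000003007008018000600e030430511)) (.one (nat_lit 0x1000004007008017000800e03042e511))) (.br (Nat.shiftLeft (nat_lit 0x1000005) (nat_lit 100)) (.one (nat_lit 0x1000004007008018000800e030430511)) (.br (Nat.shiftLeft (nat_lit 0x200000a00e01003) (nat_lit 67)) (.one (nat_lit 0x1000005007008017000a00e03042e511)) (.one (nat_lit 0x1000005007008018000a00e030430511))))) (.br (Nat.shiftLeft (nat_lit 0x1) (nat_lit 125)) (.br (Nat.shiftLeft (nat_lit 0x200000c00e01003) (nat_lit 67)) (.one (nat_lit 0x1000006007008017000c00e03042e511)) (.one (nat_lit 0x1000006007008018000c00e030430511))) (.br (Nat.shiftLeft (nat_lit 0x400000400e01003) (nat_lit 67)) (.one (nat_lit 0x2000002007008017000400e05082e511))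 (.br (Nat.shiftLeft (nat_lit 0x2000003) (nat_lit 100)) (.one (nat_lit 0x2000002007008018000400e050830511)) (.one (nat_lit 0x2000003007008017000600e05082e511))))))) (.br (Nat.shiftLeft (nat_lit 0x600000600e01003) (nat_lit 67)) (.br (Nat.shiftLeft (nat_lit 0x1000003) (nat_lit 101)) (.br (Nat.shiftLeft (nat_lit 0x400000800e01003) (nat_lit 67)) (.br (Nat.shiftLeft (nat_lit 0x800001) (nat_lit 102)) (.one (nat_lit 0x2000003007008018000600e050830511)) (.one (nat_lit 0x2000004007008017000800e05082e511))) (.br (Nat.shiftLeft (nat_lit 0x2000005) (nat_lit 100)) (.one (nat_lit 0x2000004007008018000800e050830511)) (.br (Nat.shiftLeft (nat_lit 0x400000a00e01003) (nat_lit 67)) (.one (nat_lit 0x2000005007008017000a00e05082e511)) (.one (nat_lit 0x2000005007008018000a00e050830511))))) (.br (Nat.shiftLeft (nat_lit 0x3) (nat_lit 124)) (.br (Nat.shiftLeft (nat_lit 0x400000c00e01003) (nat_lit 67)) (.one (nat_lit 0x2000006007008017000c00e05082e511)) (.one (nat_lit 0x2000006007008018000c00e050830511))) (.br (Nat.shiftLeft (nat_lit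 0x600000400e01003) (nat_lit 67)) (.one (nat_lit 0x3000002007008017000400e070c2e511)) (.br (Nat.shiftLeft (nat_lit 0x3000003) (nat_lit 100)) (.one (nat_lit 0x3000002007008018000400e070c30511)) (.one (nat_lit 0x3000003007008017000600e070c2e511)))))) (.br (Nat.shiftLeft (nat_lit 0x1800003) (nat_lit 101)) (.br (Nat.shiftLeft (nat_lit 0x600000800e01003) (nat_lit 67)) (.br (Nat.shiftLeft (nat_lit 0xc00001) (nat_lit 102)) (.one (nat_lit 0x3000003007008018000600e070c30511)) (.one (nat_lit 0x3000004007008017000800e070c2e511))) (.br (Nat.shiftLeft (nat_lit 0x3000005) (nat_lit 100)) (.one (nat_lit 0x3000004007008018000800e070c30511)) (.br (Nat.shiftLeft (nat_lit 0x600000a00e01003) (nat_lit 67)) (.one (nat_lit 0x3000005007008017000a00e070c2e511)) (.one (nat_lit 0x3000005007008018000a00e070c30511))))) (.br (Nat.shiftLeft (nat_lit 0x1) (nat_lit 126)) (.br (Nat.shiftLeft (nat_lit 0x600000c00e01003) (nat_lit 67)) (.one (nat_lit 0x3000006007008017000c00e070c2e511)) (.one (nat_lit 0x3000006007008018000c00e070c30511))) (.br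 (Nat.shiftLeft (nat_lit 0x800000400e01003) (nat_lit 67)) (.one (nat_lit 0x4000002007008017000400e09102e511)) (.br (Nat.shiftLeft (nat_lit 0x4000003) (nat_lit 100)) (.one (nat_lit 0x4000002007008018000400e091030511)) (.one (nat_lit 0x4000003007008017000600e09102e511))))))))
def t37 : k37.all (jb2 57 fl b0) = true := by decide +kernel
noncomputable def k38 : KT := (.br (Nat.shiftLeft (nat_lit 0x2000003) (nat_lit 101)) (.br (Nat.shiftLeft (nat_lit 0x800000800e01003) (nat_lit 67)) (.br (Nat.shiftLeft (nat_lit 0x1000001) (nat_lit 102)) (.one (nat_lit 0x4000003007008018000600e091030511)) (.one (nat_lit 0x4000004007008017000800e09102e511))) (.br (Nat.shiftLeft (nat_lit 0x4000005) (nat_lit 100)) (.one (nat_lit 0x4000004007008018000800e091030511)) (.br (Nat.shiftLeft (nat_lit 0x800000a00e01003) (nat_lit 67)) (.one (nat_lit 0x4000005007008017000a00e09102e511)) (.one (nat_lit 0x4000005007008018000a00e091030511))))) (.br (Nat.shiftLeft (nat_lit 0xa00000400e01003) (nat_lit 67)) (.br (Nat.shiftLeft (nat_lit 0x800000c00e01003)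 (nat_lit 67)) (.one (nat_lit 0x4000006007008017000c00e09102e511)) (.br (Nat.shiftLeft (nat_lit 0x5) (nat_lit 124)) (.one (nat_lit 0x4000006007008018000c00e091030511)) (.one (nat_lit 0x5000002007008017000400e0b142e511)))) (.br (Nat.shiftLeft (nat_lit 0x5000003) (nat_lit 100)) (.one (nat_lit 0x5000002007008018000400e0b1430511)) (.br (Nat.shiftLeft (nat_lit 0xa00000600e01003) (nat_lit 67)) (.one (nat_lit 0x5000003007008017000600e0b142e511)) (.one (nat_lit 0x5000003007008018000600e0b1430511))))))
def t38 : k38.all (jb2 57 fl b0) = true := by decide +kernel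
noncomputable def k39 : KT := (.br (Nat.shiftLeft (nat_lit 0x2800003) (nat_lit 101)) (.br (Nat.shiftLeft (nat_lit 0x5000005) (nat_lit 100)) (.br (Nat.shiftLeft (nat_lit 0xa00000800e01003) (nat_lit 67)) (.one (nat_lit 0x5000004007008017000800e0b142e511)) (.one (nat_lit 0x5000004007008018000800e0b1430511))) (.br (Nat.shiftLeft (nat_lit 0xa00000a00e01003) (nat_lit 67)) (.one (nat_lit 0x5000005007008017000a00e0b142e511)) (.one (nat_lit 0x5000005007008018000a00e0b1430511)))) (.br (Nat.shiftLeft (nat_lit 0x3) (nat_lit 125)) (.br (Nat.shiftLeft (nat_lit 0xa00000c00e01003) (nat_lit 67)) (.one (nat_lit 0x5000006007008017000c00e0b142e511)) (.one (nat_lit 0x5000006007008018000c00e0b1430511))) (.br (Nat.shiftLeft (nat_lit 0xc00000400e01003) (nat_lit 67)) (.one (nat_lit 0x6000002007008017000400e0d182e511)) (.one (nat_lit 0x6000002007008018000400e0d1830511)))))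
def t39 : k39.all (jb2 57 fl b0) = true := by decide +kernel
noncomputable def k40 : KT := (.br (Nat.shiftLeft (nat_lit 0x6000005) (nat_lit 100)) (.br (Nat.shiftLeft (nat_lit 0x1800001) (nat_lit 102)) (.br (Nat.shiftLeft (nat_lit 0xc00000600e01003) (nat_lit 67)) (.one (nat_lit 0x6000003007008017000600e0d182e511)) (.one (nat_lit 0x6000003007008018000600e0d1830511))) (.br (Nat.shiftLeft (nat_lit 0xc00000800e01003) (nat_lit 67)) (.one (nat_lit 0x6000004007008017000800e0d182e511)) (.one (nat_lit 0x6000004007008018000800e0d1830511)))) (.br (Nat.shiftLeft (nat_lit 0x3000003) (nat_lit 101)) (.br (Nat.shiftLeft (nat_lit 0xc00000a00e01003) (nat_lit 67)) (.one (nat_lit 0x6000005007008017000a00e0d182e511)) (.one (nat_lit 0x6000005007008018000a00e0d1830511))) (.br (Nat.shiftLeft (nat_lit 0xc00000c00e01003) (nat_lit 67)) (.one (nat_lit 0x6000006007008017000c00e0d182e511)) (.one (nat_lit 0x6000006007008018000c00e0d1830511)))))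
def t40 : k40.all (jb2 57 fl b0) = true := by decide +kernel
noncomputable def k41 : KT := (.br (Nat.shiftLeft (nat_lit 0xe00000800e01003) (nat_lit 67)) (.br (Nat.shiftLeft (nat_lit 0x7000003) (nat_lit 100)) (.br (Nat.shiftLeft (nat_lit 0xe00000400e01003) (nat_lit 67)) (.one (nat_lit 0x7000002007008017000400e0f1c2e511)) (.one (nat_lit 0x7000002007008018000400e0f1c30511))) (.br (Nat.shiftLeft (nat_lit 0xe00000600e01003) (nat_lit 67)) (.one (nat_lit 0x7000003007008017000600e0f1c2e511)) (.br (Nat.shiftLeft (nat_lit 0x1c00001) (nat_lit 102)) (.one (nat_lit 0x7000003007008018000600e0f1c30511)) (.one (nat_lit 0x7000004007008017000800e0f1c2e511))))) (.br (Nat.shiftLeft (nat_lit 0xe00000a00e01003) (nat_lit 67)) (.br (Nat.shiftLeft (nat_lit 0x7000005) (nat_lit 100)) (.one (nat_lit 0x7000004007008018000800e0f1c30511)) (.one (nat_lit 0x7000005007008017000a00e0f1c2e511))) (.br (Nat.shiftLeft (nat_lit 0x3800003) (nat_lit 101)) (.one (nat_lit 0x7000005007008018000a00e0f1c30511)) (.br (Nat.shiftLeft (nat_lit 0xe00000c00e01003)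 (nat_lit 67)) (.one (nat_lit 0x7000006007008017000c00e0f1c2e511)) (.one (nat_lit 0x7000006007008018000c00e0f1c30511))))))
def t41 : k41.all (jb2 57 fl b0) = true := by decide +kernel
noncomputable def k42 : KT := (.br (Nat.shiftLeft (nat_lit 0x1000000800e01003) (nat_lit 67)) (.br (Nat.shiftLeft (nat_lit 0x8000003) (nat_lit 100)) (.br (Nat.shiftLeft (nat_lit 0x1000000400e01003) (nat_lit 67)) (.one (nat_lit 0x8000002007008017000400e11202e511)) (.one (nat_lit 0x8000002007008018000400e112030511))) (.br (Nat.shiftLeft (nat_lit 0x1000000600e01003) (nat_lit 67)) (.one (nat_lit 0x8000003007008017000600e11202e511)) (.br (Nat.shiftLeft (nat_lit 0x2000001) (nat_lit 102)) (.one (nat_lit 0x8000003007008018000600e112030511)) (.one (nat_lit 0x8000004007008017000800e11202e511))))) (.br (Nat.shiftLeft (nat_lit 0x1000000a00e01003) (nat_lit 67)) (.br (Nat.shiftLeft (nat_lit 0x8000005) (nat_lit 100)) (.one (nat_lit 0x8000004007008018000800e112030511)) (.one (nat_lit 0x8000005007008017000a00e11202e511))) (.br (Nat.shiftLeft (nat_lit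 0x4000003) (nat_lit 101)) (.one (nat_lit 0x8000005007008018000a00e112030511)) (.br (Nat.shiftLeft (nat_lit 0x1000000c00e01003) (nat_lit 67)) (.one (nat_lit 0x8000006007008017000c00e11202e511)) (.one (nat_lit 0x8000006007008018000c00e112030511))))))
def t42 : k42.all (jb2 57 fl b0) = true := by decide +kernel
noncomputable def s1 : KT := (.br (nat_lit 0x2005007008017400a00e01002e650) (.br (nat_lit 0x1004007008017200800e01002e650) (.br (nat_lit 0x1002007008017200400e01002e650) (.br (nat_lit 0x1007008017000200e01002e540) k18 (.br (nat_lit 0x1000007008018200000e010030411) k19 k20)) (.br (nat_lit 0x1002007008018200400e010030650) k21 (.br (nat_lit 0x1003007008017200600e01002e650) k22 k23))) (.br (nat_lit 0x2003007008017400600e01002e650) (.br (nat_lit 0x1005007008017200a00e01002e650) k24 (.br (nat_lit 0x2000007008018400000e010030411) k25 k26)) (.br (nat_lit 0x2003007008018400600e010030650) k27 (.br (nat_lit 0x2004007008017400800e01002e650) k28 k29)))) (.br (nat_lit 0x4005007008018800a00e010030650) (.br (nat_lit 0x3004007008018600800e010030650)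 (.br (nat_lit 0x3000007008018600000e010030411) k30 (.br (nat_lit 0x3004007008017600800e01002e650) k31 k32)) (.br (nat_lit 0x3005007008018600a00e010030650) k33 (.br (nat_lit 0x4000007008018800000e010030411) k34 k35))) (.br (nat_lit 0x5000003007008018000600e0b1430511) (.br (nat_lit 0x5006007008017a00c00e01002e650) k36 (.br (nat_lit 0x4000003007008017000600e09102e511) k37 k38)) (.br (nat_lit 0x6000006007008018000c00e0d1830511) (.br (nat_lit 0x6000002007008018000400e0d1830511) k39 k40) (.br (nat_lit 0x7000006007008018000c00e0f1c30511) k41 k42)))))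
noncomputable def u1 : KT := (.br (Nat.shiftLeft (nat_lit 0xe01003) (nat_lit 67)) (.one (nat_lit 0x7008017000000e01002e430)) (.one (nat_lit 0x7008018000000e010030430)))
def w1 : u1.all (wj 57 s1) = true := by decide +kernel
def o1 : OkW 57 (jb2 57 fl) u1 := .lift s1 _ (.br _ _ _ (.br _ _ _ (.br _ _ _ (.br _ _ _ (.leaf b0 k18 t18) (.br _ _ _ (.leaf b0 k19 t19) (.leaf b0 k20 t20))) (.br _ _ _ (.leaf b0 k21 t21) (.br _ _ _ (.leaf b0 k22 t22) (.leaf b0 k23 t23)))) (.br _ _ _ (.br _ _ _ (.leaf b0 k24 t24) (.br _ _ _ (.leaf b0 k25 t25) (.leaf b0 k26 t26))) (.br _ _ _ (.leaf b0 k27 t27) (.br _ _ _ (.leaf b0 k28 t28) (.leaf b0 k29 t29))))) (.br _ _ _ (.br _ _ _ (.br _ _ _ (.leaf b0 k30 t30) (.br _ _ _ (.leaf b0 k31 t31) (.leaf b0 k32 t32))) (.br _ _ _ (.leaf b0 k33 t33) (.br _ _ _ (.leaf b0 k34 t34) (.leaf b0 k35 t35)))) (.br _ _ _ (.br _ _ _ (.leaf b0 k36 t36) (.br _ _ _ (.leaf b0 k37 t37) (.leaf b0 k38 t38))) (.br _ _ _ (.br _ _ _ (.leaf b0 k39 t39) (.leaf b0 k40 t40)) (.br _ _ _ (.leaf b0 k41 t41) (.leaf b0 k42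 t42)))))) w1
noncomputable def k43 : KT := (.br (Nat.shiftLeft (nat_lit 0x3804809) (nat_lit 65)) (.br (Nat.shiftLeft (nat_lit 0x7009) (nat_lit 76)) (.br (Nat.shiftLeft (nat_lit 0x380400d) (nat_lit 65)) (.one (nat_lit 0x7008019000000e010033400)) (.one (nat_lit 0x700801a000000e010035400))) (.br (Nat.shiftLeft (nat_lit 0x7009011) (nat_lit 64)) (.one (nat_lit 0x7009010000000e012021400)) (.one (nat_lit 0x7009011000000e012023400)))) (.br (Nat.shiftLeft (nat_lit 0x1c02405) (nat_lit 66)) (.br (Nat.shiftLeft (nat_lit 0x7009013) (nat_lit 64)) (.one (nat_lit 0x7009012000000e012025400)) (.one (nat_lit 0x7009013000000e012027400))) (.br (Nat.shiftLeft (nat_lit 0x1) (nat_lit 100)) (.one (nat_lit 0x7009014000000e012029400)) (.br (Nat.shiftLeft (nat_lit 0x80380400d) (nat_lit 65)) (.one (nat_lit 0x1007008019000200e010032540)) (.one (nat_lit 0x100700801a000200e010034540))))))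
def t43 : k43.all (jb2 57 fl b0) = true := by decide +kernel
noncomputable def k44 : KT := (.one (nat_lit 0x2007008019000400e010032540))
def t44 : k44.all (jb2 57 fl b0) = true := by decide +kernel
noncomputable def k45 : KT := (.br (Nat.shiftLeft (nat_lit 0x3) (nat_lit 100)) (.one (nat_lit 0x200700801a000400e010034540)) (.one (nat_lit 0x3007008019000600e010033500)))
def t45 : k45.all (jb2 57 fl b0) = true := by decide +kernel
noncomputable def k46 : KT := (.br (Nat.shiftLeft (nat_lit 0x1) (nat_lit 102)) (.one (nat_lit 0x300700801a000600e010034540)) (.one (nat_lit 0x4007008019000800e010033500)))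
def t46 : k46.all (jb2 57 fl b0) = true := by decide +kernel
noncomputable def k47 : KT := (.br (Nat.shiftLeft (nat_lit 0x5) (nat_lit 100)) (.one (nat_lit 0x400700801a000800e010034540)) (.one (nat_lit 0x5007008019000a00e010033500)))
def t47 : k47.all (jb2 57 fl b0) = true := by decide +kernel
noncomputable def k48 : KT := (.one (nat_lit 0x500700801a000a00e010034540))
def t48 : k48.all (jb2 57 fl b0) = true := by decide +kernel
noncomputable def k49 : KT := (.one (nat_lit 0x6007008019000c00e010032540))
def t49 : k49.all (jb2 57 fl b0) = true := by decide +kernel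
noncomputable def k50 : KT := (.br (Nat.shiftLeft (nat_lit 0x1) (nat_lit 112)) (.one (nat_lit 0x600700801a000c00e010034540)) (.br (Nat.shiftLeft (nat_lit 0x80000380400d) (nat_lit 65)) (.one (nat_lit 0x1000007008019200000e010032411)) (.one (nat_lit 0x100000700801a200000e010034411))))
def t50 : k50.all (jb2 57 fl b0) = true := by decide +kernel
noncomputable def k51 : KT := (.br (Nat.shiftLeft (nat_lit 0x1005) (nat_lit 100)) (.br (Nat.shiftLeft (nat_lit 0x401) (nat_lit 102)) (.one (nat_lit 0x1003007008019200600e010032650)) (.one (nat_lit 0x1004007008019200800e010032650))) (.br (Nat.shiftLeft (nat_lit 0x1) (nat_lit 113)) (.one (nat_lit 0x1005007008019200a00e010032650)) (.br (Nat.shiftLeft (nat_lit 0x100000380400d) (nat_lit 65)) (.one (nat_lit 0x2000007008019400000e010032411)) (.one (nat_lit 0x200000700801a400000e010034411)))))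
def t51 : k51.all (jb2 57 fl b0) = true := by decide +kernel
noncomputable def k52 : KT := (.br (Nat.shiftLeft (nat_lit 0x801) (nat_lit 102)) (.one (nat_lit 0x2003007008019400600e010032650)) (.one (nat_lit 0x2004007008019400800e010032650)))
def t52 : k52.all (jb2 57 fl b0) = true := by decide +kernel
noncomputable def k53 : KT := (.br (Nat.shiftLeft (nat_lit 0xc01) (nat_lit 102)) (.br (Nat.shiftLeft (nat_lit 0x3) (nat_lit 112)) (.one (nat_lit 0x2005007008019400a00e010032650)) (.br (Nat.shiftLeft (nat_lit 0x180000380400d) (nat_lit 65)) (.one (nat_lit 0x3000007008019600000e010032411)) (.one (nat_lit 0x300000700801a600000e010034411)))) (.br (Nat.shiftLeft (nat_lit 0x1) (nat_lit 114)) (.br (Nat.shiftLeft (nat_lit 0x3005) (nat_lit 100)) (.one (nat_lit 0x3004007008019600800e010032650)) (.one (nat_lit 0x3005007008019600a00e010032650))) (.br (Nat.shiftLeft (nat_lit 0x200000380400d) (nat_lit 65)) (.one (nat_lit 0x4000007008019800000e010032411)) (.one (nat_lit 0x400000700801a800000e010034411)))))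
def t53 : k53.all (jb2 57 fl b0) = true := by decide +kernel
noncomputable def k54 : KT := (.br (Nat.shiftLeft (nat_lit 0x1000005) (nat_lit 100)) (.br (Nat.shiftLeft (nat_lit 0x7) (nat_lit 112)) (.br (Nat.shiftLeft (nat_lit 0x280000380400d) (nat_lit 65)) (.br (Nat.shiftLeft (nat_lit 0x5) (nat_lit 112)) (.one (nat_lit 0x4005007008019800a00e010032650)) (.one (nat_lit 0x5000007008019a00000e010032411))) (.br (Nat.shiftLeft (nat_lit 0x3) (nat_lit 113)) (.one (nat_lit 0x500000700801aa00000e010034411)) (.br (Nat.shiftLeft (nat_lit 0x300000380400d) (nat_lit 65)) (.one (nat_lit 0x6000007008019c00000e010032411)) (.one (nat_lit 0x600000700801ac00000e010034411))))) (.br (Nat.shiftLeft (nat_lit 0x400000380400d) (nat_lit 65)) (.br (Nat.shiftLeft (nat_lit 0x380000380400d) (nat_lit 65)) (.one (nat_lit 0x7000007008019e00000e010032411)) (.br (Nat.shiftLeft (nat_lit 0x1) (nat_lit 115)) (.one (nat_lit 0x700000700801ae00000e010034411)) (.one (nat_lit 0x8000007008019000000e010134411)))) (.br (Nat.shiftLeft (nat_lit 0x1) (nat_lit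 124)) (.one (nat_lit 0x800000700801a000000e010136411)) (.br (Nat.shiftLeft (nat_lit 0x400001) (nat_lit 102)) (.one (nat_lit 0x1000003007008019000600e030432511)) (.one (nat_lit 0x1000004007008019000800e030432511)))))) (.br (Nat.shiftLeft (nat_lit 0xc00001) (nat_lit 102)) (.br (Nat.shiftLeft (nat_lit 0x800001) (nat_lit 102)) (.br (Nat.shiftLeft (nat_lit 0x1) (nat_lit 125)) (.one (nat_lit 0x1000005007008019000a00e030432511)) (.one (nat_lit 0x2000003007008019000600e050832511))) (.br (Nat.shiftLeft (nat_lit 0x2000005) (nat_lit 100)) (.one (nat_lit 0x2000004007008019000800e050832511)) (.br (Nat.shiftLeft (nat_lit 0x3) (nat_lit 124)) (.one (nat_lit 0x2000005007008019000a00e050832511)) (.one (nat_lit 0x3000003007008019000600e070c32511))))) (.br (Nat.shiftLeft (nat_lit 0x1000001) (nat_lit 102)) (.br (Nat.shiftLeft (nat_lit 0x3000005) (nat_lit 100)) (.one (nat_lit 0x3000004007008019000800e070c32511)) (.br (Nat.shiftLeft (nat_lit 0x1) (nat_lit 126)) (.one (nat_lit 0x3000005007008019000a00e070c32511)) (.one (nat_lit 0x4000003007008019000600e091032511))))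 (.br (Nat.shiftLeft (nat_lit 0x4000005) (nat_lit 100)) (.one (nat_lit 0x4000004007008019000800e091032511)) (.br (Nat.shiftLeft (nat_lit 0x5) (nat_lit 124)) (.one (nat_lit 0x4000005007008019000a00e091032511)) (.one (nat_lit 0x5000003007008019000600e0b1432511)))))))
def t54 : k54.all (jb2 57 fl b0) = true := by decide +kernel
noncomputable def k55 : KT := (.br (Nat.shiftLeft (nat_lit 0x7) (nat_lit 124)) (.br (Nat.shiftLeft (nat_lit 0x3) (nat_lit 125)) (.br (Nat.shiftLeft (nat_lit 0x5000005) (nat_lit 100)) (.one (nat_lit 0x5000004007008019000800e0b1432511)) (.one (nat_lit 0x5000005007008019000a00e0b1432511))) (.br (Nat.shiftLeft (nat_lit 0x1800001) (nat_lit 102)) (.one (nat_lit 0x6000003007008019000600e0d1832511)) (.br (Nat.shiftLeft (nat_lit 0x6000005) (nat_lit 100)) (.one (nat_lit 0x6000004007008019000800e0d1832511)) (.one (nat_lit 0x6000005007008019000a00e0d1832511))))) (.br (Nat.shiftLeft (nat_lit 0x1) (nat_lit 127)) (.br (Nat.shiftLeft (nat_lit 0x1c00001) (nat_lit 102)) (.one (nat_lit 0x7000003007008019000600e0f1c32511))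 (.br (Nat.shiftLeft (nat_lit 0x7000005) (nat_lit 100)) (.one (nat_lit 0x7000004007008019000800e0f1c32511)) (.one (nat_lit 0x7000005007008019000a00e0f1c32511)))) (.br (Nat.shiftLeft (nat_lit 0x2000001) (nat_lit 102)) (.one (nat_lit 0x8000003007008019000600e112032511)) (.br (Nat.shiftLeft (nat_lit 0x8000005) (nat_lit 100)) (.one (nat_lit 0x8000004007008019000800e112032511)) (.one (nat_lit 0x8000005007008019000a00e112032511))))))
def t55 : k55.all (jb2 57 fl b0) = true := by decide +kernel
noncomputable def s2 : KT := (.br (nat_lit 0x500700801a000a00e010034540) (.br (nat_lit 0x3007008019000600e010033500) (.br (nat_lit 0x100700801a000200e010034540) k43 (.br (nat_lit 0x2007008019000400e010032540) k44 k45)) (.br (nat_lit 0x4007008019000800e010033500) k46 (.br (nat_lit 0x5007008019000a00e010033500) k47 k48))) (.br (nat_lit 0x200000700801a400000e010034411) (.br (nat_lit 0x6007008019000c00e010032540) k49 (.br (nat_lit 0x100000700801a200000e010034411) k50 k51)) (.br (nat_lit 0x400000700801a800000e010034411) (.br (nat_lit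 0x2004007008019400800e010032650) k52 k53) (.br (nat_lit 0x5000003007008019000600e0b1432511) k54 k55))))
noncomputable def u2 : KT := (.br (Nat.shiftLeft (nat_lit 0x7009011) (nat_lit 64)) (.br (Nat.shiftLeft (nat_lit 0x380400d) (nat_lit 65)) (.one (nat_lit 0x7008019000000e010032430)) (.br (Nat.shiftLeft (nat_lit 0x7009) (nat_lit 76)) (.one (nat_lit 0x700801a000000e010034430)) (.one (nat_lit 0x7009010000000e012021400)))) (.br (Nat.shiftLeft (nat_lit 0x7009013) (nat_lit 64)) (.br (Nat.shiftLeft (nat_lit 0x3804809) (nat_lit 65)) (.one (nat_lit 0x7009011000000e012023400)) (.one (nat_lit 0x7009012000000e012025400))) (.br (Nat.shiftLeft (nat_lit 0x1c02405) (nat_lit 66)) (.one (nat_lit 0x7009013000000e012027400)) (.one (nat_lit 0x7009014000000e012029400)))))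
def w2 : u2.all (wj 57 s2) = true := by decide +kernel
def o2 : OkW 57 (jb2 57 fl) u2 := .lift s2 _ (.br _ _ _ (.br _ _ _ (.br _ _ _ (.leaf b0 k43 t43) (.br _ _ _ (.leaf b0 k44 t44) (.leaf b0 k45 t45))) (.br _ _ _ (.leaf b0 k46 t46) (.br _ _ _ (.leaf b0 k47 t47) (.leaf b0 k48 t48)))) (.br _ _ _ (.br _ _ _ (.leaf b0 k49 t49) (.br _ _ _ (.leaf b0 k50 t50) (.leaf b0 k51 t51))) (.br _ _ _ (.br _ _ _ (.leaf b0 k52 t52) (.leaf b0 k53 t53)) (.br _ _ _ (.leaf b0 k54 t54) (.leaf b0 k55 t55))))) w2
noncomputable def k56 : KT := (.br (Nat.shiftLeft (nat_lit 0x5) (nat_lit 100)) (.br (Nat.shiftLeft (nat_lit 0x1) (nat_lit 101)) (.br (Nat.shiftLeft (nat_lit 0x1) (nat_lit 100)) (.one (nat_lit 0x7009015000000e01202b400)) (.one (nat_lit 0x1007009015000200e01202a540))) (.br (Nat.shiftLeft (nat_lit 0x3) (nat_lit 100)) (.one (nat_lit 0x2007009015000400e01202b500)) (.br (Nat.shiftLeft (nat_lit 0x1) (nat_lit 102)) (.one (nat_lit 0x3007009015000600e01202b500)) (.one (nat_lit 0x4007009015000800e01202b500))))) (.br (Nat.shiftLeft (nat_lit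 0x1) (nat_lit 112)) (.br (Nat.shiftLeft (nat_lit 0x3) (nat_lit 101)) (.one (nat_lit 0x5007009015000a00e01202b500)) (.one (nat_lit 0x6007009015000c00e01202b500))) (.br (Nat.shiftLeft (nat_lit 0x801) (nat_lit 101)) (.one (nat_lit 0x1000007009015200000e01202a411)) (.br (Nat.shiftLeft (nat_lit 0x1003) (nat_lit 100)) (.one (nat_lit 0x1002007009015200400e01202b600)) (.one (nat_lit 0x1003007009015200600e01202b600))))))
def t56 : k56.all (jb2 57 fl b0) = true := by decide +kernel
noncomputable def k57 : KT := (.one (nat_lit 0x1004007009015200800e01202a650))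
def t57 : k57.all (jb2 57 fl b0) = true := by decide +kernel
noncomputable def k58 : KT := (.br (Nat.shiftLeft (nat_lit 0x1) (nat_lit 113)) (.br (Nat.shiftLeft (nat_lit 0x803) (nat_lit 101)) (.one (nat_lit 0x1005007009015200a00e01202a650)) (.one (nat_lit 0x1006007009015200c00e01202a650))) (.br (Nat.shiftLeft (nat_lit 0x1001) (nat_lit 101)) (.one (nat_lit 0x2000007009015400000e01202a411)) (.br (Nat.shiftLeft (nat_lit 0x801) (nat_lit 102)) (.one (nat_lit 0x2003007009015400600e01202b600)) (.one (nat_lit 0x2004007009015400800e01202b600)))))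
def t58 : k58.all (jb2 57 fl b0) = true := by decide +kernel
noncomputable def k59 : KT := (.one (nat_lit 0x2005007009015400a00e01202a650))
def t59 : k59.all (jb2 57 fl b0) = true := by decide +kernel
noncomputable def k60 : KT := (.br (Nat.shiftLeft (nat_lit 0x3) (nat_lit 112)) (.one (nat_lit 0x2006007009015400c00e01202a650)) (.br (Nat.shiftLeft (nat_lit 0xc01) (nat_lit 102)) (.one (nat_lit 0x3000007009015600000e01202a411)) (.one (nat_lit 0x3004007009015600800e01202b600))))
def t60 : k60.all (jb2 57 fl b0) = true := by decide +kernel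
noncomputable def k61 : KT := (.one (nat_lit 0x3005007009015600a00e01202a650))
def t61 : k61.all (jb2 57 fl b0) = true := by decide +kernel
noncomputable def k62 : KT := (.br (Nat.shiftLeft (nat_lit 0x1) (nat_lit 114)) (.one (nat_lit 0x3006007009015600c00e01202a650)) (.one (nat_lit 0x4000007009015800000e01202a411)))
def t62 : k62.all (jb2 57 fl b0) = true := by decide +kernel
noncomputable def k63 : KT := (.one (nat_lit 0x4005007009015800a00e01202a650))
def t63 : k63.all (jb2 57 fl b0) = true := by decide +kernel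
noncomputable def k64 : KT := (.br (Nat.shiftLeft (nat_lit 0x5) (nat_lit 112)) (.one (nat_lit 0x4006007009015800c00e01202a650)) (.br (Nat.shiftLeft (nat_lit 0x1401) (nat_lit 102)) (.one (nat_lit 0x5000007009015a00000e01202a411)) (.one (nat_lit 0x5006007009015a00c00e01202a650))))
def t64 : k64.all (jb2 57 fl b0) = true := by decide +kernel
noncomputable def k65 : KT := (.br (Nat.shiftLeft (nat_lit 0x1000003) (nat_lit 100)) (.br (Nat.shiftLeft (nat_lit 0x1) (nat_lit 115)) (.br (Nat.shiftLeft (nat_lit 0x7) (nat_lit 112)) (.one (nat_lit 0x6000007009015c00000e01202a411)) (.one (nat_lit 0x7000007009015e00000e01202a411))) (.br (Nat.shiftLeft (nat_lit 0x9) (nat_lit 112)) (.one (nat_lit 0x8000007009015000000e01212c411)) (.br (Nat.shiftLeft (nat_lit 0x1) (nat_lit 124)) (.one (nat_lit 0x9000007009015200000e01212c411)) (.one (nat_lit 0x1000002007009015000400e03242a511))))) (.br (Nat.shiftLeft (nat_lit 0x1000005) (nat_lit 100)) (.br (Nat.shiftLeft (nat_lit 0x400001) (nat_lit 102)) (.one (nat_lit 0x1000003007009015000600e03242a511))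 (.one (nat_lit 0x1000004007009015000800e03242a511))) (.br (Nat.shiftLeft (nat_lit 0x800003) (nat_lit 101)) (.one (nat_lit 0x1000005007009015000a00e03242a511)) (.br (Nat.shiftLeft (nat_lit 0x801) (nat_lit 113)) (.one (nat_lit 0x1000006007009015000c00e03242a511)) (.one (nat_lit 0x1002003007009015400600e03242a760))))))
def t65 : k65.all (jb2 57 fl b0) = true := by decide +kernel
noncomputable def k66 : KT := (.br (Nat.shiftLeft (nat_lit 0x2000003) (nat_lit 100)) (.br (Nat.shiftLeft (nat_lit 0x1003) (nat_lit 112)) (.one (nat_lit 0x1002004007009015400800e03242a760)) (.br (Nat.shiftLeft (nat_lit 0x1) (nat_lit 125)) (.one (nat_lit 0x1003004007009015600800e03242a760)) (.one (nat_lit 0x2000002007009015000400e05282a511)))) (.br (Nat.shiftLeft (nat_lit 0x2000005) (nat_lit 100)) (.br (Nat.shiftLeft (nat_lit 0x800001) (nat_lit 102)) (.one (nat_lit 0x2000003007009015000600e05282a511)) (.one (nat_lit 0x2000004007009015000800e05282a511))) (.br (Nat.shiftLeft (nat_lit 0x1000003) (nat_lit 101)) (.one (nat_lit 0x2000005007009015000a00e05282a511))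 (.one (nat_lit 0x2000006007009015000c00e05282a511)))))
def t66 : k66.all (jb2 57 fl b0) = true := by decide +kernel
noncomputable def k67 : KT := (.br (Nat.shiftLeft (nat_lit 0x1) (nat_lit 126)) (.br (Nat.shiftLeft (nat_lit 0xc00001) (nat_lit 102)) (.br (Nat.shiftLeft (nat_lit 0x3) (nat_lit 124)) (.one (nat_lit 0x2003004007009015600800e05282a760)) (.br (Nat.shiftLeft (nat_lit 0x3000003) (nat_lit 100)) (.one (nat_lit 0x3000002007009015000400e072c2a511)) (.one (nat_lit 0x3000003007009015000600e072c2a511)))) (.br (Nat.shiftLeft (nat_lit 0x3000005) (nat_lit 100)) (.one (nat_lit 0x3000004007009015000800e072c2a511)) (.br (Nat.shiftLeft (nat_lit 0x1800003) (nat_lit 101)) (.one (nat_lit 0x3000005007009015000a00e072c2a511)) (.one (nat_lit 0x3000006007009015000c00e072c2a511))))) (.br (Nat.shiftLeft (nat_lit 0x4000005) (nat_lit 100)) (.br (Nat.shiftLeft (nat_lit 0x4000003) (nat_lit 100)) (.one (nat_lit 0x4000002007009015000400e09302a511)) (.br (Nat.shiftLeft (nat_lit 0x1000001) (nat_lit 102)) (.one (nat_lit 0x4000003007009015000600e09302a511))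 (.one (nat_lit 0x4000004007009015000800e09302a511)))) (.br (Nat.shiftLeft (nat_lit 0x2000003) (nat_lit 101)) (.one (nat_lit 0x4000005007009015000a00e09302a511)) (.br (Nat.shiftLeft (nat_lit 0x5) (nat_lit 124)) (.one (nat_lit 0x4000006007009015000c00e09302a511)) (.one (nat_lit 0x5000002007009015000400e0b342a511))))))
def t67 : k67.all (jb2 57 fl b0) = true := by decide +kernel
noncomputable def k68 : KT := (.br (Nat.shiftLeft (nat_lit 0x2800003) (nat_lit 101)) (.br (Nat.shiftLeft (nat_lit 0x1400001) (nat_lit 102)) (.one (nat_lit 0x5000003007009015000600e0b342a511)) (.br (Nat.shiftLeft (nat_lit 0x5000005) (nat_lit 100)) (.one (nat_lit 0x5000004007009015000800e0b342a511)) (.one (nat_lit 0x5000005007009015000a00e0b342a511)))) (.br (Nat.shiftLeft (nat_lit 0x3) (nat_lit 125)) (.one (nat_lit 0x5000006007009015000c00e0b342a511)) (.br (Nat.shiftLeft (nat_lit 0x6000003) (nat_lit 100)) (.one (nat_lit 0x6000002007009015000400e0d382a511)) (.one (nat_lit 0x6000003007009015000600e0d382a511)))))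
def t68 : k68.all (jb2 57 fl b0) = true := by decide +kernel
noncomputable def k69 : KT := (.br (Nat.shiftLeft (nat_lit 0x3000003) (nat_lit 101)) (.br (Nat.shiftLeft (nat_lit 0x6000005) (nat_lit 100)) (.one (nat_lit 0x6000004007009015000800e0d382a511)) (.one (nat_lit 0x6000005007009015000a00e0d382a511))) (.br (Nat.shiftLeft (nat_lit 0x7) (nat_lit 124)) (.one (nat_lit 0x6000006007009015000c00e0d382a511)) (.br (Nat.shiftLeft (nat_lit 0x7000003) (nat_lit 100)) (.one (nat_lit 0x7000002007009015000400e0f3c2a511)) (.one (nat_lit 0x7000003007009015000600e0f3c2a511)))))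
def t69 : k69.all (jb2 57 fl b0) = true := by decide +kernel
noncomputable def k70 : KT := (.br (Nat.shiftLeft (nat_lit 0x1) (nat_lit 127)) (.br (Nat.shiftLeft (nat_lit 0x7000005) (nat_lit 100)) (.one (nat_lit 0x7000004007009015000800e0f3c2a511)) (.br (Nat.shiftLeft (nat_lit 0x3800003) (nat_lit 101)) (.one (nat_lit 0x7000005007009015000a00e0f3c2a511)) (.one (nat_lit 0x7000006007009015000c00e0f3c2a511)))) (.br (Nat.shiftLeft (nat_lit 0x8000003) (nat_lit 100)) (.one (nat_lit 0x8000002007009015000400e11402a511)) (.br (Nat.shiftLeft (nat_lit 0x2000001) (nat_lit 102)) (.one (nat_lit 0x8000003007009015000600e11402a511)) (.one (nat_lit 0x8000004007009015000800e11402a511)))))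
def t70 : k70.all (jb2 57 fl b0) = true := by decide +kernel
noncomputable def k71 : KT := (.br (Nat.shiftLeft (nat_lit 0x1) (nat_lit 137)) (.br (Nat.shiftLeft (nat_lit 0x4800003) (nat_lit 101)) (.br (Nat.shiftLeft (nat_lit 0x9000003) (nat_lit 100)) (.br (Nat.shiftLeft (nat_lit 0x4000003) (nat_lit 101)) (.one (nat_lit 0x8000005007009015000a00e11402a511)) (.br (Nat.shiftLeft (nat_lit 0x9) (nat_lit 124)) (.one (nat_lit 0x8000006007009015000c00e11402a511)) (.one (nat_lit 0x9000002007009015000400e13442a511)))) (.br (Nat.shiftLeft (nat_lit 0x2400001) (nat_lit 102)) (.one (nat_lit 0x9000003007009015000600e13442a511)) (.br (Nat.shiftLeft (nat_lit 0x9000005) (nat_lit 100)) (.one (nat_lit 0x9000004007009015000800e13442a511)) (.one (nat_lit 0x9000005007009015000a00e13442a511))))) (.br (Nat.shiftLeft (nat_lit 0x800001) (nat_lit 113)) (.br (Nat.shiftLeft (nat_lit 0x1) (nat_lit 136)) (.one (nat_lit 0x9000006007009015000c00e13442a511)) (.br (Nat.shiftLeft (nat_lit 0x1000001003) (nat_lit 100)) (.one (nat_lit 0x1000001002007009015200402e41202a611))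 (.one (nat_lit 0x1000001003007009015200602e41202a611)))) (.br (Nat.shiftLeft (nat_lit 0x400000801) (nat_lit 102)) (.one (nat_lit 0x1000002003007009015400602e41202a611)) (.br (Nat.shiftLeft (nat_lit 0x1000003) (nat_lit 112)) (.one (nat_lit 0x1000002004007009015400802e41202a611)) (.one (nat_lit 0x1000003004007009015600802e41202a611)))))) (.br (Nat.shiftLeft (nat_lit 0x3000001003) (nat_lit 100)) (.br (Nat.shiftLeft (nat_lit 0x800000801) (nat_lit 102)) (.br (Nat.shiftLeft (nat_lit 0x2000001003) (nat_lit 100)) (.one (nat_lit 0x2000001002007009015200404e81202a611)) (.br (Nat.shiftLeft (nat_lit 0x1000001) (nat_lit 113)) (.one (nat_lit 0x2000001003007009015200604e81202a611)) (.one (nat_lit 0x2000002003007009015400604e81202a611)))) (.br (Nat.shiftLeft (nat_lit 0x2000003) (nat_lit 112)) (.one (nat_lit 0x2000002004007009015400804e81202a611)) (.br (Nat.shiftLeft (nat_lit 0x3) (nat_lit 136)) (.one (nat_lit 0x2000003004007009015600804e81202a611)) (.one (nat_lit 0x3000001002007009015200406ec1202a611))))) (.br (Nat.shiftLeft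 (nat_lit 0x3000003) (nat_lit 112)) (.br (Nat.shiftLeft (nat_lit 0x1800001) (nat_lit 113)) (.one (nat_lit 0x3000001003007009015200606ec1202a611)) (.br (Nat.shiftLeft (nat_lit 0xc00000801) (nat_lit 102)) (.one (nat_lit 0x3000002003007009015400606ec1202a611)) (.one (nat_lit 0x3000002004007009015400806ec1202a611)))) (.br (Nat.shiftLeft (nat_lit 0x1) (nat_lit 138)) (.one (nat_lit 0x3000003004007009015600806ec1202a611)) (.br (Nat.shiftLeft (nat_lit 0x4000001003) (nat_lit 100)) (.one (nat_lit 0x4000001002007009015200408f01202a611)) (.one (nat_lit 0x4000001003007009015200608f01202a611)))))))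
def t71 : k71.all (jb2 57 fl b0) = true := by decide +kernel
noncomputable def k72 : KT := (.br (Nat.shiftLeft (nat_lit 0x5) (nat_lit 136)) (.br (Nat.shiftLeft (nat_lit 0x1000000801) (nat_lit 102)) (.one (nat_lit 0x4000002003007009015400608f01202a611)) (.br (Nat.shiftLeft (nat_lit 0x4000003) (nat_lit 112)) (.one (nat_lit 0x4000002004007009015400808f01202a611)) (.one (nat_lit 0x4000003004007009015600808f01202a611)))) (.br (Nat.shiftLeft (nat_lit 0x2800001) (nat_lit 113)) (.br (Nat.shiftLeft (nat_lit 0x5000001003) (nat_lit 100)) (.one (nat_lit 0x500000100200700901520040af41202a611)) (.one (nat_lit 0x500000100300700901520060af41202a611))) (.br (Nat.shiftLeft (nat_lit 0x1400000801) (nat_lit 102)) (.one (nat_lit 0x500000200300700901540060af41202a611)) (.one (nat_lit 0x500000200400700901540080af41202a611)))))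
def t72 : k72.all (jb2 57 fl b0) = true := by decide +kernel
noncomputable def k73 : KT := (.br (Nat.shiftLeft (nat_lit 0x3000001) (nat_lit 113)) (.br (Nat.shiftLeft (nat_lit 0x3) (nat_lit 137)) (.one (nat_lit 0x500000300400700901560080af41202a611)) (.br (Nat.shiftLeft (nat_lit 0x6000001003) (nat_lit 100)) (.one (nat_lit 0x600000100200700901520040cf81202a611)) (.one (nat_lit 0x600000100300700901520060cf81202a611)))) (.br (Nat.shiftLeft (nat_lit 0x1800000801) (nat_lit 102)) (.one (nat_lit 0x600000200300700901540060cf81202a611)) (.br (Nat.shiftLeft (nat_lit 0x6000003) (nat_lit 112)) (.one (nat_lit 0x600000200400700901540080cf81202a611)) (.one (nat_lit 0x600000300400700901560080cf81202a611)))))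
def t73 : k73.all (jb2 57 fl b0) = true := by decide +kernel
noncomputable def k74 : KT := (.br (Nat.shiftLeft (nat_lit 0x3800001) (nat_lit 113)) (.br (Nat.shiftLeft (nat_lit 0x7000001003) (nat_lit 100)) (.one (nat_lit 0x700000100200700901520040efc1202a611)) (.one (nat_lit 0x700000100300700901520060efc1202a611))) (.br (Nat.shiftLeft (nat_lit 0x1c00000801) (nat_lit 102)) (.one (nat_lit 0x700000200300700901540060efc1202a611)) (.br (Nat.shiftLeft (nat_lit 0x7000003) (nat_lit 112)) (.one (nat_lit 0x700000200400700901540080efc1202a611)) (.one (nat_lit 0x700000300400700901560080efc1202a611)))))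
def t74 : k74.all (jb2 57 fl b0) = true := by decide +kernel
noncomputable def k75 : KT := (.br (Nat.shiftLeft (nat_lit 0x9) (nat_lit 136)) (.br (Nat.shiftLeft (nat_lit 0x4000001) (nat_lit 113)) (.br (Nat.shiftLeft (nat_lit 0x8000001003) (nat_lit 100)) (.one (nat_lit 0x8000001002007009015200411001202a611)) (.one (nat_lit 0x8000001003007009015200611001202a611))) (.br (Nat.shiftLeft (nat_lit 0x2000000801) (nat_lit 102)) (.one (nat_lit 0x8000002003007009015400611001202a611)) (.br (Nat.shiftLeft (nat_lit 0x8000003) (nat_lit 112)) (.one (nat_lit 0x8000002004007009015400811001202a611)) (.one (nat_lit 0x8000003004007009015600811001202a611))))) (.br (Nat.shiftLeft (nat_lit 0x4800001) (nat_lit 113)) (.br (Nat.shiftLeft (nat_lit 0x9000001003) (nat_lit 100)) (.one (nat_lit 0x9000001002007009015200413041202a611)) (.one (nat_lit 0x9000001003007009015200613041202a611))) (.br (Nat.shiftLeft (nat_lit 0x2400000801) (nat_lit 102)) (.one (nat_lit 0x9000002003007009015400613041202a611)) (.br (Nat.shiftLeft (nat_lit 0x9000003)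 (nat_lit 112)) (.one (nat_lit 0x9000002004007009015400813041202a611)) (.one (nat_lit 0x9000003004007009015600813041202a611))))))
def t75 : k75.all (jb2 57 fl b0) = true := by decide +kernel
noncomputable def s3 : KT := (.br (nat_lit 0x1002003007009015400600e03242a760) (.br (nat_lit 0x3004007009015600800e01202b600) (.br (nat_lit 0x1004007009015200800e01202a650) (.br (nat_lit 0x1003007009015200600e01202b600) k56 k57) (.br (nat_lit 0x2004007009015400800e01202b600) k58 (.br (nat_lit 0x2005007009015400a00e01202a650) k59 k60))) (.br (nat_lit 0x4000007009015800000e01202a411) (.br (nat_lit 0x3005007009015600a00e01202a650) k61 k62) (.br (nat_lit 0x4005007009015800a00e01202a650) k63 (.br (nat_lit 0x5006007009015a00c00e01202a650) k64 k65)))) (.br (nat_lit 0x8000004007009015000800e11402a511) (.br (nat_lit 0x5000002007009015000400e0b342a511) (.br (nat_lit 0x2000006007009015000c00e05282a511) k66 k67) (.br (nat_lit 0x6000003007009015000600e0d382a511) k68 (.br (nat_lit 0x7000003007009015000600e0f3c2a511) k69 k70))) (.br (nat_lit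 0x500000200400700901540080af41202a611) (.br (nat_lit 0x4000001003007009015200608f01202a611) k71 k72) (.br (nat_lit 0x600000300400700901560080cf81202a611) k73 (.br (nat_lit 0x700000300400700901560080efc1202a611) k74 k75)))))
noncomputable def u3 : KT := (.one (nat_lit 0x7009015000000e01202a430))
def w3 : u3.all (wj 57 s3) = true := by decide +kernel
def o3 : OkW 57 (jb2 57 fl) u3 := .lift s3 _ (.br _ _ _ (.br _ _ _ (.br _ _ _ (.br _ _ _ (.leaf b0 k56 t56) (.leaf b0 k57 t57)) (.br _ _ _ (.leaf b0 k58 t58) (.br _ _ _ (.leaf b0 k59 t59) (.leaf b0 k60 t60)))) (.br _ _ _ (.br _ _ _ (.leaf b0 k61 t61) (.leaf b0 k62 t62)) (.br _ _ _ (.leaf b0 k63 t63) (.br _ _ _ (.leaf b0 k64 t64) (.leaf b0 k65 t65))))) (.br _ _ _ (.br _ _ _ (.br _ _ _ (.leaf b0 k66 t66) (.leaf b0 k67 t67)) (.br _ _ _ (.leaf b0 k68 t68) (.br _ _ _ (.leaf b0 k69 t69) (.leaf b0 k70 t70)))) (.br _ _ _ (.br _ _ _ (.leaf b0 k71 t71) (.leaf b0 k72 t72)) (.br _ _ _ (.leaf b0 k73 t73) (.br _ _ _ (.leaf b0 k74 t74) (.leaf b0 k75 t75)))))) w3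
noncomputable def k76 : KT := (.br (Nat.shiftLeft (nat_lit 0x1) (nat_lit 102)) (.br (Nat.shiftLeft (nat_lit 0x1) (nat_lit 101)) (.br (Nat.shiftLeft (nat_lit 0x1) (nat_lit 100)) (.one (nat_lit 0x7009016000000e01202d400)) (.one (nat_lit 0x1007009016000200e01202c540))) (.br (Nat.shiftLeft (nat_lit 0x3) (nat_lit 100)) (.one (nat_lit 0x2007009016000400e01202d500)) (.one (nat_lit 0x3007009016000600e01202d500)))) (.br (Nat.shiftLeft (nat_lit 0x3) (nat_lit 101)) (.br (Nat.shiftLeft (nat_lit 0x5) (nat_lit 100)) (.one (nat_lit 0x4007009016000800e01202d500)) (.one (nat_lit 0x5007009016000a00e01202d500))) (.br (Nat.shiftLeft (nat_lit 0x1) (nat_lit 112)) (.one (nat_lit 0x6007009016000c00e01202d500)) (.one (nat_lit 0x1000007009016200000e01202c411)))))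
def t76 : k76.all (jb2 57 fl b0) = true := by decide +kernel
noncomputable def k77 : KT := (.one (nat_lit 0x1002007009016200400e01202c650))
def t77 : k77.all (jb2 57 fl b0) = true := by decide +kernel
noncomputable def k78 : KT := (.one (nat_lit 0x1003007009016200600e01202c650))
def t78 : k78.all (jb2 57 fl b0) = true := by decide +kernel
noncomputable def k79 : KT := (.br (Nat.shiftLeft (nat_lit 0x1005) (nat_lit 100)) (.one (nat_lit 0x1004007009016200800e01202c650)) (.one (nat_lit 0x1005007009016200a00e01202c650)))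
def t79 : k79.all (jb2 57 fl b0) = true := by decide +kernel
noncomputable def k80 : KT := (.br (Nat.shiftLeft (nat_lit 0x1) (nat_lit 113)) (.one (nat_lit 0x1006007009016200c00e01202c650)) (.one (nat_lit 0x2000007009016400000e01202c411)))
def t80 : k80.all (jb2 57 fl b0) = true := by decide +kernel
noncomputable def k81 : KT := (.one (nat_lit 0x2003007009016400600e01202c650))
def t81 : k81.all (jb2 57 fl b0) = true := by decide +kernel
noncomputable def k82 : KT := (.one (nat_lit 0x2004007009016400800e01202c650))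
def t82 : k82.all (jb2 57 fl b0) = true := by decide +kernel
noncomputable def k83 : KT := (.br (Nat.shiftLeft (nat_lit 0x1003) (nat_lit 101)) (.one (nat_lit 0x2005007009016400a00e01202c650)) (.br (Nat.shiftLeft (nat_lit 0x3) (nat_lit 112)) (.one (nat_lit 0x2006007009016400c00e01202c650)) (.one (nat_lit 0x3000007009016600000e01202c411))))
def t83 : k83.all (jb2 57 fl b0) = true := by decide +kernel
noncomputable def k84 : KT := (.one (nat_lit 0x3004007009016600800e01202c650))
def t84 : k84.all (jb2 57 fl b0) = true := by decide +kernel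
noncomputable def k85 : KT := (.br (Nat.shiftLeft (nat_lit 0x1803) (nat_lit 101)) (.one (nat_lit 0x3005007009016600a00e01202c650)) (.br (Nat.shiftLeft (nat_lit 0x1) (nat_lit 114)) (.one (nat_lit 0x3006007009016600c00e01202c650)) (.one (nat_lit 0x4000007009016800000e01202c411))))
def t85 : k85.all (jb2 57 fl b0) = true := by decide +kernel
noncomputable def k86 : KT := (.br (Nat.shiftLeft (nat_lit 0x2003) (nat_lit 101)) (.one (nat_lit 0x4005007009016800a00e01202c650)) (.br (Nat.shiftLeft (nat_lit 0x5) (nat_lit 112)) (.one (nat_lit 0x4006007009016800c00e01202c650)) (.one (nat_lit 0x5000007009016a00000e01202c411))))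
def t86 : k86.all (jb2 57 fl b0) = true := by decide +kernel
noncomputable def k87 : KT := (.br (Nat.shiftLeft (nat_lit 0x800001) (nat_lit 102)) (.br (Nat.shiftLeft (nat_lit 0x1000003) (nat_lit 100)) (.br (Nat.shiftLeft (nat_lit 0x1) (nat_lit 115)) (.br (Nat.shiftLeft (nat_lit 0x3) (nat_lit 113)) (.one (nat_lit 0x5006007009016a00c00e01202c650)) (.br (Nat.shiftLeft (nat_lit 0x7) (nat_lit 112)) (.one (nat_lit 0x6000007009016c00000e01202c411)) (.one (nat_lit 0x7000007009016e00000e01202c411)))) (.br (Nat.shiftLeft (nat_lit 0x9) (nat_lit 112)) (.one (nat_lit 0x8000007009016000000e01212e411)) (.br (Nat.shiftLeft (nat_lit 0x1) (nat_lit 124)) (.one (nat_lit 0x9000007009016200000e01212e411)) (.one (nat_lit 0x1000002007009016000400e03242c511))))) (.br (Nat.shiftLeft (nat_lit 0x800003) (nat_lit 101)) (.br (Nat.shiftLeft (nat_lit 0x400001) (nat_lit 102)) (.one (nat_lit 0x1000003007009016000600e03242c511)) (.br (Nat.shiftLeft (nat_lit 0x1000005) (nat_lit 100)) (.one (nat_lit 0x1000004007009016000800e03242c511)) (.one (nat_lit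 0x1000005007009016000a00e03242c511)))) (.br (Nat.shiftLeft (nat_lit 0x1) (nat_lit 125)) (.one (nat_lit 0x1000006007009016000c00e03242c511)) (.br (Nat.shiftLeft (nat_lit 0x2000003) (nat_lit 100)) (.one (nat_lit 0x2000002007009016000400e05282c511)) (.one (nat_lit 0x2000003007009016000600e05282c511)))))) (.br (Nat.shiftLeft (nat_lit 0x3000005) (nat_lit 100)) (.br (Nat.shiftLeft (nat_lit 0x3) (nat_lit 124)) (.br (Nat.shiftLeft (nat_lit 0x2000005) (nat_lit 100)) (.one (nat_lit 0x2000004007009016000800e05282c511)) (.br (Nat.shiftLeft (nat_lit 0x1000003) (nat_lit 101)) (.one (nat_lit 0x2000005007009016000a00e05282c511)) (.one (nat_lit 0x2000006007009016000c00e05282c511)))) (.br (Nat.shiftLeft (nat_lit 0x3000003) (nat_lit 100)) (.one (nat_lit 0x3000002007009016000400e072c2c511)) (.br (Nat.shiftLeft (nat_lit 0xc00001) (nat_lit 102)) (.one (nat_lit 0x3000003007009016000600e072c2c511)) (.one (nat_lit 0x3000004007009016000800e072c2c511))))) (.br (Nat.shiftLeft (nat_lit 0x4000003) (nat_lit 100)) (.br (Nat.shiftLeft (nat_lit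 0x1800003) (nat_lit 101)) (.one (nat_lit 0x3000005007009016000a00e072c2c511)) (.br (Nat.shiftLeft (nat_lit 0x1) (nat_lit 126)) (.one (nat_lit 0x3000006007009016000c00e072c2c511)) (.one (nat_lit 0x4000002007009016000400e09302c511)))) (.br (Nat.shiftLeft (nat_lit 0x4000005) (nat_lit 100)) (.br (Nat.shiftLeft (nat_lit 0x1000001) (nat_lit 102)) (.one (nat_lit 0x4000003007009016000600e09302c511)) (.one (nat_lit 0x4000004007009016000800e09302c511))) (.br (Nat.shiftLeft (nat_lit 0x2000003) (nat_lit 101)) (.one (nat_lit 0x4000005007009016000a00e09302c511)) (.one (nat_lit 0x4000006007009016000c00e09302c511)))))))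
def t87 : k87.all (jb2 57 fl b0) = true := by decide +kernel
noncomputable def k88 : KT := (.br (Nat.shiftLeft (nat_lit 0x5000005) (nat_lit 100)) (.br (Nat.shiftLeft (nat_lit 0x5000003) (nat_lit 100)) (.one (nat_lit 0x5000002007009016000400e0b342c511)) (.br (Nat.shiftLeft (nat_lit 0x1400001) (nat_lit 102)) (.one (nat_lit 0x5000003007009016000600e0b342c511)) (.one (nat_lit 0x5000004007009016000800e0b342c511)))) (.br (Nat.shiftLeft (nat_lit 0x3) (nat_lit 125)) (.br (Nat.shiftLeft (nat_lit 0x2800003) (nat_lit 101)) (.one (nat_lit 0x5000005007009016000a00e0b342c511)) (.one (nat_lit 0x5000006007009016000c00e0b342c511))) (.br (Nat.shiftLeft (nat_lit 0x6000003) (nat_lit 100)) (.one (nat_lit 0x6000002007009016000400e0d382c511)) (.one (nat_lit 0x6000003007009016000600e0d382c511)))))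
def t88 : k88.all (jb2 57 fl b0) = true := by decide +kernel
noncomputable def k89 : KT := (.br (Nat.shiftLeft (nat_lit 0x7000003) (nat_lit 100)) (.br (Nat.shiftLeft (nat_lit 0x3000003) (nat_lit 101)) (.br (Nat.shiftLeft (nat_lit 0x6000005) (nat_lit 100)) (.one (nat_lit 0x6000004007009016000800e0d382c511)) (.one (nat_lit 0x6000005007009016000a00e0d382c511))) (.br (Nat.shiftLeft (nat_lit 0x7) (nat_lit 124)) (.one (nat_lit 0x6000006007009016000c00e0d382c511)) (.one (nat_lit 0x7000002007009016000400e0f3c2c511)))) (.br (Nat.shiftLeft (nat_lit 0x7000005) (nat_lit 100)) (.br (Nat.shiftLeft (nat_lit 0x1c00001) (nat_lit 102)) (.one (nat_lit 0x7000003007009016000600e0f3c2c511)) (.one (nat_lit 0x7000004007009016000800e0f3c2c511))) (.br (Nat.shiftLeft (nat_lit 0x3800003) (nat_lit 101)) (.one (nat_lit 0x7000005007009016000a00e0f3c2c511)) (.one (nat_lit 0x7000006007009016000c00e0f3c2c511)))))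
def t89 : k89.all (jb2 57 fl b0) = true := by decide +kernel
noncomputable def k90 : KT := (.br (Nat.shiftLeft (nat_lit 0x9) (nat_lit 124)) (.br (Nat.shiftLeft (nat_lit 0x2000001) (nat_lit 102)) (.br (Nat.shiftLeft (nat_lit 0x8000003) (nat_lit 100)) (.one (nat_lit 0x8000002007009016000400e11402c511)) (.one (nat_lit 0x8000003007009016000600e11402c511))) (.br (Nat.shiftLeft (nat_lit 0x8000005) (nat_lit 100)) (.one (nat_lit 0x8000004007009016000800e11402c511)) (.br (Nat.shiftLeft (nat_lit 0x4000003) (nat_lit 101)) (.one (nat_lit 0x8000005007009016000a00e11402c511)) (.one (nat_lit 0x8000006007009016000c00e11402c511))))) (.br (Nat.shiftLeft (nat_lit 0x2400001) (nat_lit 102)) (.br (Nat.shiftLeft (nat_lit 0x9000003) (nat_lit 100)) (.one (nat_lit 0x9000002007009016000400e13442c511)) (.one (nat_lit 0x9000003007009016000600e13442c511))) (.br (Nat.shiftLeft (nat_lit 0x9000005) (nat_lit 100)) (.one (nat_lit 0x9000004007009016000800e13442c511)) (.br (Nat.shiftLeft (nat_lit 0x4800003) (nat_lit 101)) (.one (nat_lit 0x9000005007009016000a00e13442c511))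 (.one (nat_lit 0x9000006007009016000c00e13442c511))))))
def t90 : k90.all (jb2 57 fl b0) = true := by decide +kernel
noncomputable def s4 : KT := (.br (nat_lit 0x2004007009016400800e01202c650) (.br (nat_lit 0x1003007009016200600e01202c650) (.br (nat_lit 0x1000007009016200000e01202c411) k76 (.br (nat_lit 0x1002007009016200400e01202c650) k77 k78)) (.br (nat_lit 0x2000007009016400000e01202c411) (.br (nat_lit 0x1005007009016200a00e01202c650) k79 k80) (.br (nat_lit 0x2003007009016400600e01202c650) k81 k82))) (.br (nat_lit 0x5000007009016a00000e01202c411) (.br (nat_lit 0x3004007009016600800e01202c650) (.br (nat_lit 0x3000007009016600000e01202c411) k83 k84) (.br (nat_lit 0x4000007009016800000e01202c411) k85 k86)) (.br (nat_lit 0x6000003007009016000600e0d382c511) (.br (nat_lit 0x4000006007009016000c00e09302c511) k87 k88) (.br (nat_lit 0x7000006007009016000c00e0f3c2c511) k89 k90))))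
noncomputable def u4 : KT := (.one (nat_lit 0x7009016000000e01202c430))
def w4 : u4.all (wj 57 s4) = true := by decide +kernel
def o4 : OkW 57 (jb2 57 fl) u4 := .lift s4 _ (.br _ _ _ (.br _ _ _ (.br _ _ _ (.leaf b0 k76 t76) (.br _ _ _ (.leaf b0 k77 t77) (.leaf b0 k78 t78))) (.br _ _ _ (.br _ _ _ (.leaf b0 k79 t79) (.leaf b0 k80 t80)) (.br _ _ _ (.leaf b0 k81 t81) (.leaf b0 k82 t82)))) (.br _ _ _ (.br _ _ _ (.br _ _ _ (.leaf b0 k83 t83) (.leaf b0 k84 t84)) (.br _ _ _ (.leaf b0 k85 t85) (.leaf b0 k86 t86))) (.br _ _ _ (.br _ _ _ (.leaf b0 k87 t87) (.leaf b0 k88 t88)) (.br _ _ _ (.leaf b0 k89 t89) (.leaf b0 k90 t90))))) w4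
noncomputable def k91 : KT := (.br (Nat.shiftLeft (nat_lit 0xe01203) (nat_lit 67)) (.one (nat_lit 0x7009017000000e01202f400)) (.br (Nat.shiftLeft (nat_lit 0x1) (nat_lit 100)) (.one (nat_lit 0x7009018000000e012031400)) (.one (nat_lit 0x1007009017000200e01202e540))))
def t91 : k91.all (jb2 57 fl b0) = true := by decide +kernel
noncomputable def k92 : KT := (.br (Nat.shiftLeft (nat_lit 0x800e01203) (nat_lit 67)) (.br (Nat.shiftLeft (nat_lit 0x3) (nat_lit 100)) (.br (Nat.shiftLeft (nat_lit 0x1) (nat_lit 101)) (.one (nat_lit 0x1007009018000200e012030540)) (.br (Nat.shiftLeft (nat_lit 0x400e01203) (nat_lit 67)) (.one (nat_lit 0x2007009017000400e01202f500)) (.one (nat_lit 0x2007009018000400e012031500)))) (.br (Nat.shiftLeft (nat_lit 0x600e01203) (nat_lit 67)) (.one (nat_lit 0x3007009017000600e01202f500)) (.br (Nat.shiftLeft (nat_lit 0x1) (nat_lit 102)) (.one (nat_lit 0x3007009018000600e012031500)) (.one (nat_lit 0x4007009017000800e01202f500))))) (.br (Nat.shiftLeft (nat_lit 0x3) (nat_lit 101)) (.br (Nat.shiftLeft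 (nat_lit 0x5) (nat_lit 100)) (.one (nat_lit 0x4007009018000800e012031500)) (.br (Nat.shiftLeft (nat_lit 0xa00e01203) (nat_lit 67)) (.one (nat_lit 0x5007009017000a00e01202f500)) (.one (nat_lit 0x5007009018000a00e012031500)))) (.br (Nat.shiftLeft (nat_lit 0x1) (nat_lit 112)) (.br (Nat.shiftLeft (nat_lit 0xc00e01203) (nat_lit 67)) (.one (nat_lit 0x6007009017000c00e01202f500)) (.one (nat_lit 0x6007009018000c00e012031500))) (.br (Nat.shiftLeft (nat_lit 0x200000e01203) (nat_lit 67)) (.one (nat_lit 0x1000007009017200000e01202e411)) (.one (nat_lit 0x1000007009018200000e012030411))))))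
def t92 : k92.all (jb2 57 fl b0) = true := by decide +kernel
noncomputable def k93 : KT := (.one (nat_lit 0x1002007009017200400e01202e650))
def t93 : k93.all (jb2 57 fl b0) = true := by decide +kernel
noncomputable def k94 : KT := (.one (nat_lit 0x1002007009018200400e012030650))
def t94 : k94.all (jb2 57 fl b0) = true := by decide +kernel
noncomputable def k95 : KT := (.br (Nat.shiftLeft (nat_lit 0x200600e01203) (nat_lit 67)) (.one (nat_lit 0x1003007009017200600e01202e650)) (.one (nat_lit 0x1003007009018200600e012030650)))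
def t95 : k95.all (jb2 57 fl b0) = true := by decide +kernel
noncomputable def k96 : KT := (.br (Nat.shiftLeft (nat_lit 0x200800e01203) (nat_lit 67)) (.one (nat_lit 0x1004007009017200800e01202e650)) (.br (Nat.shiftLeft (nat_lit 0x1005) (nat_lit 100)) (.one (nat_lit 0x1004007009018200800e012030650)) (.one (nat_lit 0x1005007009017200a00e01202e650))))
def t96 : k96.all (jb2 57 fl b0) = true := by decide +kernel
noncomputable def k97 : KT := (.br (Nat.shiftLeft (nat_lit 0x200c00e01203) (nat_lit 67)) (.br (Nat.shiftLeft (nat_lit 0x803) (nat_lit 101)) (.one (nat_lit 0x1005007009018200a00e012030650)) (.one (nat_lit 0x1006007009017200c00e01202e650))) (.br (Nat.shiftLeft (nat_lit 0x1) (nat_lit 113)) (.one (nat_lit 0x1006007009018200c00e012030650)) (.br (Nat.shiftLeft (nat_lit 0x400000e01203) (nat_lit 67)) (.one (nat_lit 0x2000007009017400000e01202e411)) (.one (nat_lit 0x2000007009018400000e012030411)))))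
def t97 : k97.all (jb2 57 fl b0) = true := by decide +kernel
noncomputable def k98 : KT := (.one (nat_lit 0x2003007009017400600e01202e650))
def t98 : k98.all (jb2 57 fl b0) = true := by decide +kernel
noncomputable def k99 : KT := (.one (nat_lit 0x2003007009018400600e012030650))
def t99 : k99.all (jb2 57 fl b0) = true := by decide +kernel
noncomputable def k100 : KT := (.br (Nat.shiftLeft (nat_lit 0x400800e01203) (nat_lit 67)) (.one (nat_lit 0x2004007009017400800e01202e650)) (.one (nat_lit 0x2004007009018400800e012030650)))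
def t100 : k100.all (jb2 57 fl b0) = true := by decide +kernel
noncomputable def k101 : KT := (.br (Nat.shiftLeft (nat_lit 0x400a00e01203) (nat_lit 67)) (.one (nat_lit 0x2005007009017400a00e01202e650)) (.br (Nat.shiftLeft (nat_lit 0x1003) (nat_lit 101)) (.one (nat_lit 0x2005007009018400a00e012030650)) (.one (nat_lit 0x2006007009017400c00e01202e650))))
def t101 : k101.all (jb2 57 fl b0) = true := by decide +kernel
noncomputable def k102 : KT := (.br (Nat.shiftLeft (nat_lit 0x600000e01203) (nat_lit 67)) (.br (Nat.shiftLeft (nat_lit 0x3) (nat_lit 112)) (.one (nat_lit 0x2006007009018400c00e012030650)) (.one (nat_lit 0x3000007009017600000e01202e411))) (.br (Nat.shiftLeft (nat_lit 0xc01) (nat_lit 102)) (.one (nat_lit 0x3000007009018600000e012030411)) (.one (nat_lit 0x3004007009017600800e01202e650))))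
def t102 : k102.all (jb2 57 fl b0) = true := by decide +kernel
noncomputable def k103 : KT := (.br (Nat.shiftLeft (nat_lit 0x3005) (nat_lit 100)) (.one (nat_lit 0x3004007009018600800e012030650)) (.one (nat_lit 0x3005007009017600a00e01202e650)))
def t103 : k103.all (jb2 57 fl b0) = true := by decide +kernel
noncomputable def k104 : KT := (.br (Nat.shiftLeft (nat_lit 0x600c00e01203) (nat_lit 67)) (.br (Nat.shiftLeft (nat_lit 0x1803) (nat_lit 101)) (.one (nat_lit 0x3005007009018600a00e012030650)) (.one (nat_lit 0x3006007009017600c00e01202e650))) (.br (Nat.shiftLeft (nat_lit 0x1) (nat_lit 114)) (.one (nat_lit 0x3006007009018600c00e012030650)) (.br (Nat.shiftLeft (nat_lit 0x800000e01203) (nat_lit 67)) (.one (nat_lit 0x4000007009017800000e01202e411)) (.one (nat_lit 0x4000007009018800000e012030411)))))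
def t104 : k104.all (jb2 57 fl b0) = true := by decide +kernel
noncomputable def k105 : KT := (.br (Nat.shiftLeft (nat_lit 0x800a00e01203) (nat_lit 67)) (.one (nat_lit 0x4005007009017800a00e01202e650)) (.br (Nat.shiftLeft (nat_lit 0x2003) (nat_lit 101)) (.one (nat_lit 0x4005007009018800a00e012030650)) (.one (nat_lit 0x4006007009017800c00e01202e650))))
def t105 : k105.all (jb2 57 fl b0) = true := by decide +kernel
noncomputable def k106 : KT := (.br (Nat.shiftLeft (nat_lit 0x200000600e01203) (nat_lit 67)) (.br (Nat.shiftLeft (nat_lit 0xe00000e01203) (nat_lit 67)) (.br (Nat.shiftLeft (nat_lit 0xa00c00e01203) (nat_lit 67)) (.br (Nat.shiftLeft (nat_lit 0xa00000e01203) (nat_lit 67)) (.br (Nat.shiftLeft (nat_lit 0x5) (nat_lit 112)) (.one (nat_lit 0x4006007009018800c00e012030650)) (.one (nat_lit 0x5000007009017a00000e01202e411))) (.br (Nat.shiftLeft (nat_lit 0x1401) (nat_lit 102)) (.one (nat_lit 0x5000007009018a00000e012030411)) (.one (nat_lit 0x5006007009017a00c00e01202e650)))) (.br (Nat.shiftLeft (nat_lit 0xc00000e01203)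 (nat_lit 67)) (.br (Nat.shiftLeft (nat_lit 0x3) (nat_lit 113)) (.one (nat_lit 0x5006007009018a00c00e012030650)) (.one (nat_lit 0x6000007009017c00000e01202e411))) (.br (Nat.shiftLeft (nat_lit 0x7) (nat_lit 112)) (.one (nat_lit 0x6000007009018c00000e012030411)) (.one (nat_lit 0x7000007009017e00000e01202e411))))) (.br (Nat.shiftLeft (nat_lit 0x1200000e01203) (nat_lit 67)) (.br (Nat.shiftLeft (nat_lit 0x1000000e01203) (nat_lit 67)) (.br (Nat.shiftLeft (nat_lit 0x1) (nat_lit 115)) (.one (nat_lit 0x7000007009018e00000e012030411)) (.one (nat_lit 0x8000007009017000000e012130411))) (.br (Nat.shiftLeft (nat_lit 0x9) (nat_lit 112)) (.one (nat_lit 0x8000007009018000000e012132411)) (.one (nat_lit 0x9000007009017200000e012130411)))) (.br (Nat.shiftLeft (nat_lit 0x200000400e01203) (nat_lit 67)) (.br (Nat.shiftLeft (nat_lit 0x1) (nat_lit 124)) (.one (nat_lit 0x9000007009018200000e012132411)) (.one (nat_lit 0x1000002007009017000400e03242e511))) (.br (Nat.shiftLeft (nat_lit 0x1000003) (nat_lit 100)) (.one (nat_lit 0x1000002007009018000400e032430511))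 (.one (nat_lit 0x1000003007009017000600e03242e511)))))) (.br (Nat.shiftLeft (nat_lit 0x400000400e01203) (nat_lit 67)) (.br (Nat.shiftLeft (nat_lit 0x200000a00e01203) (nat_lit 67)) (.br (Nat.shiftLeft (nat_lit 0x200000800e01203) (nat_lit 67)) (.br (Nat.shiftLeft (nat_lit 0x400001) (nat_lit 102)) (.one (nat_lit 0x1000003007009018000600e032430511)) (.one (nat_lit 0x1000004007009017000800e03242e511))) (.br (Nat.shiftLeft (nat_lit 0x1000005) (nat_lit 100)) (.one (nat_lit 0x1000004007009018000800e032430511)) (.one (nat_lit 0x1000005007009017000a00e03242e511)))) (.br (Nat.shiftLeft (nat_lit 0x200000c00e01203) (nat_lit 67)) (.br (Nat.shiftLeft (nat_lit 0x800003) (nat_lit 101)) (.one (nat_lit 0x1000005007009018000a00e032430511)) (.one (nat_lit 0x1000006007009017000c00e03242e511))) (.br (Nat.shiftLeft (nat_lit 0x1) (nat_lit 125)) (.one (nat_lit 0x1000006007009018000c00e032430511)) (.one (nat_lit 0x2000002007009017000400e05282e511))))) (.br (Nat.shiftLeft (nat_lit 0x400000800e01203) (nat_lit 67)) (.br (Nat.shiftLeft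 (nat_lit 0x400000600e01203) (nat_lit 67)) (.br (Nat.shiftLeft (nat_lit 0x2000003) (nat_lit 100)) (.one (nat_lit 0x2000002007009018000400e052830511)) (.one (nat_lit 0x2000003007009017000600e05282e511))) (.br (Nat.shiftLeft (nat_lit 0x800001) (nat_lit 102)) (.one (nat_lit 0x2000003007009018000600e052830511)) (.one (nat_lit 0x2000004007009017000800e05282e511)))) (.br (Nat.shiftLeft (nat_lit 0x400000a00e01203) (nat_lit 67)) (.br (Nat.shiftLeft (nat_lit 0x2000005) (nat_lit 100)) (.one (nat_lit 0x2000004007009018000800e052830511)) (.one (nat_lit 0x2000005007009017000a00e05282e511))) (.br (Nat.shiftLeft (nat_lit 0x1000003) (nat_lit 101)) (.one (nat_lit 0x2000005007009018000a00e052830511)) (.br (Nat.shiftLeft (nat_lit 0x400000c00e01203) (nat_lit 67)) (.one (nat_lit 0x2000006007009017000c00e05282e511)) (.one (nat_lit 0x2000006007009018000c00e052830511))))))))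
def t106 : k106.all (jb2 57 fl b0) = true := by decide +kernel
noncomputable def k107 : KT := (.br (Nat.shiftLeft (nat_lit 0x1) (nat_lit 126)) (.br (Nat.shiftLeft (nat_lit 0x600000800e01203) (nat_lit 67)) (.br (Nat.shiftLeft (nat_lit 0x3000003) (nat_lit 100)) (.br (Nat.shiftLeft (nat_lit 0x600000400e01203) (nat_lit 67)) (.one (nat_lit 0x3000002007009017000400e072c2e511)) (.one (nat_lit 0x3000002007009018000400e072c30511))) (.br (Nat.shiftLeft (nat_lit 0x600000600e01203) (nat_lit 67)) (.one (nat_lit 0x3000003007009017000600e072c2e511)) (.br (Nat.shiftLeft (nat_lit 0xc00001) (nat_lit 102)) (.one (nat_lit 0x3000003007009018000600e072c30511)) (.one (nat_lit 0x3000004007009017000800e072c2e511))))) (.br (Nat.shiftLeft (nat_lit 0x600000a00e01203) (nat_lit 67)) (.br (Nat.shiftLeft (nat_lit 0x3000005) (nat_lit 100)) (.one (nat_lit 0x3000004007009018000800e072c30511)) (.one (nat_lit 0x3000005007009017000a00e072c2e511))) (.br (Nat.shiftLeft (nat_lit 0x1800003) (nat_lit 101)) (.one (nat_lit 0x3000005007009018000a00e072c30511))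 (.br (Nat.shiftLeft (nat_lit 0x600000c00e01203) (nat_lit 67)) (.one (nat_lit 0x3000006007009017000c00e072c2e511)) (.one (nat_lit 0x3000006007009018000c00e072c30511)))))) (.br (Nat.shiftLeft (nat_lit 0x800000800e01203) (nat_lit 67)) (.br (Nat.shiftLeft (nat_lit 0x4000003) (nat_lit 100)) (.br (Nat.shiftLeft (nat_lit 0x800000400e01203) (nat_lit 67)) (.one (nat_lit 0x4000002007009017000400e09302e511)) (.one (nat_lit 0x4000002007009018000400e093030511))) (.br (Nat.shiftLeft (nat_lit 0x800000600e01203) (nat_lit 67)) (.one (nat_lit 0x4000003007009017000600e09302e511)) (.br (Nat.shiftLeft (nat_lit 0x1000001) (nat_lit 102)) (.one (nat_lit 0x4000003007009018000600e093030511)) (.one (nat_lit 0x4000004007009017000800e09302e511))))) (.br (Nat.shiftLeft (nat_lit 0x2000003) (nat_lit 101)) (.br (Nat.shiftLeft (nat_lit 0x4000005) (nat_lit 100)) (.one (nat_lit 0x4000004007009018000800e093030511)) (.br (Nat.shiftLeft (nat_lit 0x800000a00e01203) (nat_lit 67)) (.one (nat_lit 0x4000005007009017000a00e09302e511)) (.one (nat_lit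 0x4000005007009018000a00e093030511)))) (.br (Nat.shiftLeft (nat_lit 0x800000c00e01203) (nat_lit 67)) (.one (nat_lit 0x4000006007009017000c00e09302e511)) (.br (Nat.shiftLeft (nat_lit 0x5) (nat_lit 124)) (.one (nat_lit 0x4000006007009018000c00e093030511)) (.one (nat_lit 0x5000002007009017000400e0b342e511)))))))
def t107 : k107.all (jb2 57 fl b0) = true := by decide +kernel
noncomputable def k108 : KT := (.br (Nat.shiftLeft (nat_lit 0x5000005) (nat_lit 100)) (.br (Nat.shiftLeft (nat_lit 0xa00000600e01203) (nat_lit 67)) (.br (Nat.shiftLeft (nat_lit 0x5000003) (nat_lit 100)) (.one (nat_lit 0x5000002007009018000400e0b3430511)) (.one (nat_lit 0x5000003007009017000600e0b342e511))) (.br (Nat.shiftLeft (nat_lit 0x1400001) (nat_lit 102)) (.one (nat_lit 0x5000003007009018000600e0b3430511)) (.br (Nat.shiftLeft (nat_lit 0xa00000800e01203) (nat_lit 67)) (.one (nat_lit 0x5000004007009017000800e0b342e511)) (.one (nat_lit 0x5000004007009018000800e0b3430511))))) (.br (Nat.shiftLeft (nat_lit 0x2800003) (nat_lit 101)) (.br (Nat.shiftLeft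 (nat_lit 0xa00000a00e01203) (nat_lit 67)) (.one (nat_lit 0x5000005007009017000a00e0b342e511)) (.one (nat_lit 0x5000005007009018000a00e0b3430511))) (.br (Nat.shiftLeft (nat_lit 0xa00000c00e01203) (nat_lit 67)) (.one (nat_lit 0x5000006007009017000c00e0b342e511)) (.br (Nat.shiftLeft (nat_lit 0x3) (nat_lit 125)) (.one (nat_lit 0x5000006007009018000c00e0b3430511)) (.one (nat_lit 0x6000002007009017000400e0d382e511))))))
def t108 : k108.all (jb2 57 fl b0) = true := by decide +kernel
noncomputable def k109 : KT := (.br (Nat.shiftLeft (nat_lit 0x6000005) (nat_lit 100)) (.br (Nat.shiftLeft (nat_lit 0xc00000600e01203) (nat_lit 67)) (.br (Nat.shiftLeft (nat_lit 0x6000003) (nat_lit 100)) (.one (nat_lit 0x6000002007009018000400e0d3830511)) (.one (nat_lit 0x6000003007009017000600e0d382e511))) (.br (Nat.shiftLeft (nat_lit 0x1800001) (nat_lit 102)) (.one (nat_lit 0x6000003007009018000600e0d3830511)) (.br (Nat.shiftLeft (nat_lit 0xc00000800e01203) (nat_lit 67)) (.one (nat_lit 0x6000004007009017000800e0d382e511)) (.one (nat_lit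 0x6000004007009018000800e0d3830511))))) (.br (Nat.shiftLeft (nat_lit 0xc00000c00e01203) (nat_lit 67)) (.br (Nat.shiftLeft (nat_lit 0xc00000a00e01203) (nat_lit 67)) (.one (nat_lit 0x6000005007009017000a00e0d382e511)) (.br (Nat.shiftLeft (nat_lit 0x3000003) (nat_lit 101)) (.one (nat_lit 0x6000005007009018000a00e0d3830511)) (.one (nat_lit 0x6000006007009017000c00e0d382e511)))) (.br (Nat.shiftLeft (nat_lit 0x7) (nat_lit 124)) (.one (nat_lit 0x6000006007009018000c00e0d3830511)) (.br (Nat.shiftLeft (nat_lit 0xe00000400e01203) (nat_lit 67)) (.one (nat_lit 0x7000002007009017000400e0f3c2e511)) (.one (nat_lit 0x7000002007009018000400e0f3c30511))))))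
def t109 : k109.all (jb2 57 fl b0) = true := by decide +kernel
noncomputable def k110 : KT := (.br (Nat.shiftLeft (nat_lit 0x1) (nat_lit 127)) (.br (Nat.shiftLeft (nat_lit 0x7000005) (nat_lit 100)) (.br (Nat.shiftLeft (nat_lit 0x1c00001) (nat_lit 102)) (.br (Nat.shiftLeft (nat_lit 0xe00000600e01203) (nat_lit 67)) (.one (nat_lit 0x7000003007009017000600e0f3c2e511)) (.one (nat_lit 0x7000003007009018000600e0f3c30511))) (.br (Nat.shiftLeft (nat_lit 0xe00000800e01203) (nat_lit 67)) (.one (nat_lit 0x7000004007009017000800e0f3c2e511)) (.one (nat_lit 0x7000004007009018000800e0f3c30511)))) (.br (Nat.shiftLeft (nat_lit 0x3800003) (nat_lit 101)) (.br (Nat.shiftLeft (nat_lit 0xe00000a00e01203) (nat_lit 67)) (.one (nat_lit 0x7000005007009017000a00e0f3c2e511)) (.one (nat_lit 0x7000005007009018000a00e0f3c30511))) (.br (Nat.shiftLeft (nat_lit 0xe00000c00e01203) (nat_lit 67)) (.one (nat_lit 0x7000006007009017000c00e0f3c2e511)) (.one (nat_lit 0x7000006007009018000c00e0f3c30511))))) (.br (Nat.shiftLeft (nat_lit 0x2000001) (nat_lit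 102)) (.br (Nat.shiftLeft (nat_lit 0x8000003) (nat_lit 100)) (.br (Nat.shiftLeft (nat_lit 0x1000000400e01203) (nat_lit 67)) (.one (nat_lit 0x8000002007009017000400e11402e511)) (.one (nat_lit 0x8000002007009018000400e114030511))) (.br (Nat.shiftLeft (nat_lit 0x1000000600e01203) (nat_lit 67)) (.one (nat_lit 0x8000003007009017000600e11402e511)) (.one (nat_lit 0x8000003007009018000600e114030511)))) (.br (Nat.shiftLeft (nat_lit 0x8000005) (nat_lit 100)) (.br (Nat.shiftLeft (nat_lit 0x1000000800e01203) (nat_lit 67)) (.one (nat_lit 0x8000004007009017000800e11402e511)) (.one (nat_lit 0x8000004007009018000800e114030511))) (.br (Nat.shiftLeft (nat_lit 0x1000000a00e01203) (nat_lit 67)) (.one (nat_lit 0x8000005007009017000a00e11402e511)) (.one (nat_lit 0x8000005007009018000a00e114030511))))))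
def t110 : k110.all (jb2 57 fl b0) = true := by decide +kernel
noncomputable def k111 : KT := (.br (Nat.shiftLeft (nat_lit 0x2400001) (nat_lit 102)) (.br (Nat.shiftLeft (nat_lit 0x1200000400e01203) (nat_lit 67)) (.br (Nat.shiftLeft (nat_lit 0x1000000c00e01203) (nat_lit 67)) (.one (nat_lit 0x8000006007009017000c00e11402e511)) (.br (Nat.shiftLeft (nat_lit 0x9) (nat_lit 124)) (.one (nat_lit 0x8000006007009018000c00e114030511)) (.one (nat_lit 0x9000002007009017000400e13442e511)))) (.br (Nat.shiftLeft (nat_lit 0x9000003) (nat_lit 100)) (.one (nat_lit 0x9000002007009018000400e134430511)) (.br (Nat.shiftLeft (nat_lit 0x1200000600e01203) (nat_lit 67)) (.one (nat_lit 0x9000003007009017000600e13442e511)) (.one (nat_lit 0x9000003007009018000600e134430511))))) (.br (Nat.shiftLeft (nat_lit 0x1200000a00e01203) (nat_lit 67)) (.br (Nat.shiftLeft (nat_lit 0x1200000800e01203) (nat_lit 67)) (.one (nat_lit 0x9000004007009017000800e13442e511)) (.br (Nat.shiftLeft (nat_lit 0x9000005) (nat_lit 100)) (.one (nat_lit 0x9000004007009018000800e134430511))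 (.one (nat_lit 0x9000005007009017000a00e13442e511)))) (.br (Nat.shiftLeft (nat_lit 0x4800003) (nat_lit 101)) (.one (nat_lit 0x9000005007009018000a00e134430511)) (.br (Nat.shiftLeft (nat_lit 0x1200000c00e01203) (nat_lit 67)) (.one (nat_lit 0x9000006007009017000c00e13442e511)) (.one (nat_lit 0x9000006007009018000c00e134430511))))))
def t111 : k111.all (jb2 57 fl b0) = true := by decide +kernel
noncomputable def s5 : KT := (.br (nat_lit 0x2004007009018400800e012030650) (.br (nat_lit 0x1003007009018200600e012030650) (.br (nat_lit 0x1000007009018200000e012030411) (.br (nat_lit 0x1007009017000200e01202e540) k91 k92) (.br (nat_lit 0x1002007009017200400e01202e650) k93 (.br (nat_lit 0x1002007009018200400e012030650) k94 k95))) (.br (nat_lit 0x2000007009018400000e012030411) (.br (nat_lit 0x1005007009017200a00e01202e650) k96 k97) (.br (nat_lit 0x2003007009017400600e01202e650) k98 (.br (nat_lit 0x2003007009018400600e012030650) k99 k100)))) (.br (nat_lit 0x4006007009017800c00e01202e650) (.br (nat_lit 0x3004007009017600800e01202e650)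 (.br (nat_lit 0x2006007009017400c00e01202e650) k101 k102) (.br (nat_lit 0x3005007009017600a00e01202e650) k103 (.br (nat_lit 0x4000007009018800000e012030411) k104 k105))) (.br (nat_lit 0x6000002007009017000400e0d382e511) (.br (nat_lit 0x2000006007009018000c00e052830511) k106 (.br (nat_lit 0x5000002007009017000400e0b342e511) k107 k108)) (.br (nat_lit 0x7000002007009018000400e0f3c30511) k109 (.br (nat_lit 0x8000005007009018000a00e114030511) k110 k111)))))
noncomputable def u5 : KT := (.br (Nat.shiftLeft (nat_lit 0xe01203) (nat_lit 67)) (.one (nat_lit 0x7009017000000e01202e430)) (.one (nat_lit 0x7009018000000e012030430)))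
def w5 : u5.all (wj 57 s5) = true := by decide +kernel
def o5 : OkW 57 (jb2 57 fl) u5 := .lift s5 _ (.br _ _ _ (.br _ _ _ (.br _ _ _ (.br _ _ _ (.leaf b0 k91 t91) (.leaf b0 k92 t92)) (.br _ _ _ (.leaf b0 k93 t93) (.br _ _ _ (.leaf b0 k94 t94) (.leaf b0 k95 t95)))) (.br _ _ _ (.br _ _ _ (.leaf b0 k96 t96) (.leaf b0 k97 t97)) (.br _ _ _ (.leaf b0 k98 t98) (.br _ _ _ (.leaf b0 k99 t99) (.leaf b0 k100 t100))))) (.br _ _ _ (.br _ _ _ (.br _ _ _ (.leaf b0 k101 t101) (.leaf b0 k102 t102)) (.br _ _ _ (.leaf b0 k103 t103) (.br _ _ _ (.leaf b0 k104 t104) (.leaf b0 k105 t105)))) (.br _ _ _ (.br _ _ _ (.leaf b0 k106 t106) (.br _ _ _ (.leaf b0 k107 t107) (.leaf b0 k108 t108))) (.br _ _ _ (.leaf b0 k109 t109) (.br _ _ _ (.leaf b0 k110 t110) (.leaf b0 k111 t111)))))) w5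
noncomputable def k112 : KT := (.br (Nat.shiftLeft (nat_lit 0x700a011) (nat_lit 64)) (.br (Nat.shiftLeft (nat_lit 0x3805) (nat_lit 77)) (.br (Nat.shiftLeft (nat_lit 0x380480d) (nat_lit 65)) (.one (nat_lit 0x7009019000000e012033400)) (.one (nat_lit 0x700901a000000e012035400))) (.br (Nat.shiftLeft (nat_lit 0x700a01) (nat_lit 68)) (.one (nat_lit 0x700a00f000000e01401f400)) (.one (nat_lit 0x700a010000000e014021400)))) (.br (Nat.shiftLeft (nat_lit 0x700a013) (nat_lit 64)) (.br (Nat.shiftLeft (nat_lit 0x3805009) (nat_lit 65)) (.one (nat_lit 0x700a011000000e014023400)) (.one (nat_lit 0x700a012000000e014025400))) (.br (Nat.shiftLeft (nat_lit 0x1) (nat_lit 100)) (.one (nat_lit 0x700a013000000e014027400)) (.br (Nat.shiftLeft (nat_lit 0x80380480d) (nat_lit 65)) (.one (nat_lit 0x1007009019000200e012032540)) (.one (nat_lit 0x100700901a000200e012034540))))))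
def t112 : k112.all (jb2 57 fl b0) = true := by decide +kernel
noncomputable def k113 : KT := (.one (nat_lit 0x2007009019000400e012032540))
def t113 : k113.all (jb2 57 fl b0) = true := by decide +kernel
noncomputable def k114 : KT := (.br (Nat.shiftLeft (nat_lit 0x3) (nat_lit 100)) (.one (nat_lit 0x200700901a000400e012034540)) (.one (nat_lit 0x3007009019000600e012033500)))
def t114 : k114.all (jb2 57 fl b0) = true := by decide +kernel
noncomputable def k115 : KT := (.br (Nat.shiftLeft (nat_lit 0x1) (nat_lit 102)) (.one (nat_lit 0x300700901a000600e012034540)) (.one (nat_lit 0x4007009019000800e012033500)))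
def t115 : k115.all (jb2 57 fl b0) = true := by decide +kernel
noncomputable def k116 : KT := (.one (nat_lit 0x400700901a000800e012034540))
def t116 : k116.all (jb2 57 fl b0) = true := by decide +kernel
noncomputable def k117 : KT := (.one (nat_lit 0x5007009019000a00e012032540))
def t117 : k117.all (jb2 57 fl b0) = true := by decide +kernel
noncomputable def k118 : KT := (.one (nat_lit 0x500700901a000a00e012034540))
def t118 : k118.all (jb2 57 fl b0) = true := by decide +kernel
noncomputable def k119 : KT := (.one (nat_lit 0x6007009019000c00e012032540))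
def t119 : k119.all (jb2 57 fl b0) = true := by decide +kernel
noncomputable def k120 : KT := (.br (Nat.shiftLeft (nat_lit 0x801) (nat_lit 101)) (.br (Nat.shiftLeft (nat_lit 0x1) (nat_lit 112)) (.one (nat_lit 0x600700901a000c00e012034540)) (.br (Nat.shiftLeft (nat_lit 0x80000380480d) (nat_lit 65)) (.one (nat_lit 0x1000007009019200000e012032411)) (.one (nat_lit 0x100000700901a200000e012034411)))) (.br (Nat.shiftLeft (nat_lit 0x1) (nat_lit 113)) (.br (Nat.shiftLeft (nat_lit 0x401) (nat_lit 102)) (.one (nat_lit 0x1003007009019200600e012032650)) (.one (nat_lit 0x1004007009019200800e012032650))) (.br (Nat.shiftLeft (nat_lit 0x100000380480d) (nat_lit 65)) (.one (nat_lit 0x2000007009019400000e012032411)) (.one (nat_lit 0x200000700901a400000e012034411)))))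
def t120 : k120.all (jb2 57 fl b0) = true := by decide +kernel
noncomputable def k121 : KT := (.br (Nat.shiftLeft (nat_lit 0xc01) (nat_lit 102)) (.br (Nat.shiftLeft (nat_lit 0x3) (nat_lit 112)) (.br (Nat.shiftLeft (nat_lit 0x801) (nat_lit 102)) (.one (nat_lit 0x2003007009019400600e012032650)) (.one (nat_lit 0x2004007009019400800e012032650))) (.br (Nat.shiftLeft (nat_lit 0x180000380480d) (nat_lit 65)) (.one (nat_lit 0x3000007009019600000e012032411)) (.one (nat_lit 0x300000700901a600000e012034411)))) (.br (Nat.shiftLeft (nat_lit 0x200000380480d) (nat_lit 65)) (.br (Nat.shiftLeft (nat_lit 0x1) (nat_lit 114)) (.one (nat_lit 0x3004007009019600800e012032650)) (.one (nat_lit 0x4000007009019800000e012032411))) (.br (Nat.shiftLeft (nat_lit 0x5) (nat_lit 112)) (.one (nat_lit 0x400000700901a800000e012034411)) (.one (nat_lit 0x5000007009019a00000e012032411)))))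
def t121 : k121.all (jb2 57 fl b0) = true := by decide +kernel
noncomputable def k122 : KT := (.br (Nat.shiftLeft (nat_lit 0x3) (nat_lit 124)) (.br (Nat.shiftLeft (nat_lit 0x400000380480d) (nat_lit 65)) (.br (Nat.shiftLeft (nat_lit 0x7) (nat_lit 112)) (.br (Nat.shiftLeft (nat_lit 0x3) (nat_lit 113)) (.one (nat_lit 0x500000700901aa00000e012034411)) (.br (Nat.shiftLeft (nat_lit 0x300000380480d) (nat_lit 65)) (.one (nat_lit 0x6000007009019c00000e012032411)) (.one (nat_lit 0x600000700901ac00000e012034411)))) (.br (Nat.shiftLeft (nat_lit 0x380000380480d) (nat_lit 65)) (.one (nat_lit 0x7000007009019e00000e012032411)) (.br (Nat.shiftLeft (nat_lit 0x1) (nat_lit 115)) (.one (nat_lit 0x700000700901ae00000e012034411)) (.one (nat_lit 0x8000007009019000000e012134411))))) (.br (Nat.shiftLeft (nat_lit 0x1) (nat_lit 124)) (.br (Nat.shiftLeft (nat_lit 0x9) (nat_lit 112)) (.one (nat_lit 0x800000700901a000000e012136411)) (.br (Nat.shiftLeft (nat_lit 0x480000380480d) (nat_lit 65)) (.one (nat_lit 0x9000007009019200000e012134411))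 (.one (nat_lit 0x900000700901a200000e012136411)))) (.br (Nat.shiftLeft (nat_lit 0x1) (nat_lit 125)) (.br (Nat.shiftLeft (nat_lit 0x400001) (nat_lit 102)) (.one (nat_lit 0x1000003007009019000600e032432511)) (.one (nat_lit 0x1000004007009019000800e032432511))) (.br (Nat.shiftLeft (nat_lit 0x800001) (nat_lit 102)) (.one (nat_lit 0x2000003007009019000600e052832511)) (.one (nat_lit 0x2000004007009019000800e052832511)))))) (.br (Nat.shiftLeft (nat_lit 0x1800001) (nat_lit 102)) (.br (Nat.shiftLeft (nat_lit 0x1000001) (nat_lit 102)) (.br (Nat.shiftLeft (nat_lit 0xc00001) (nat_lit 102)) (.one (nat_lit 0x3000003007009019000600e072c32511)) (.br (Nat.shiftLeft (nat_lit 0x1) (nat_lit 126)) (.one (nat_lit 0x3000004007009019000800e072c32511)) (.one (nat_lit 0x4000003007009019000600e093032511)))) (.br (Nat.shiftLeft (nat_lit 0x1400001) (nat_lit 102)) (.br (Nat.shiftLeft (nat_lit 0x5) (nat_lit 124)) (.one (nat_lit 0x4000004007009019000800e093032511)) (.one (nat_lit 0x5000003007009019000600e0b3432511))) (.br (Nat.shiftLeft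 (nat_lit 0x3) (nat_lit 125)) (.one (nat_lit 0x5000004007009019000800e0b3432511)) (.one (nat_lit 0x6000003007009019000600e0d3832511))))) (.br (Nat.shiftLeft (nat_lit 0x1) (nat_lit 127)) (.br (Nat.shiftLeft (nat_lit 0x7) (nat_lit 124)) (.one (nat_lit 0x6000004007009019000800e0d3832511)) (.br (Nat.shiftLeft (nat_lit 0x1c00001) (nat_lit 102)) (.one (nat_lit 0x7000003007009019000600e0f3c32511)) (.one (nat_lit 0x7000004007009019000800e0f3c32511)))) (.br (Nat.shiftLeft (nat_lit 0x9) (nat_lit 124)) (.br (Nat.shiftLeft (nat_lit 0x2000001) (nat_lit 102)) (.one (nat_lit 0x8000003007009019000600e114032511)) (.one (nat_lit 0x8000004007009019000800e114032511))) (.br (Nat.shiftLeft (nat_lit 0x2400001) (nat_lit 102)) (.one (nat_lit 0x9000003007009019000600e134432511)) (.one (nat_lit 0x9000004007009019000800e134432511)))))))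
def t122 : k122.all (jb2 57 fl b0) = true := by decide +kernel
noncomputable def s6 : KT := (.br (nat_lit 0x400700901a000800e012034540) (.br (nat_lit 0x2007009019000400e012032540) (.br (nat_lit 0x100700901a000200e012034540) k112 k113) (.br (nat_lit 0x3007009019000600e012033500) k114 (.br (nat_lit 0x4007009019000800e012033500) k115 k116))) (.br (nat_lit 0x6007009019000c00e012032540) (.br (nat_lit 0x5007009019000a00e012032540) k117 (.br (nat_lit 0x500700901a000a00e012034540) k118 k119)) (.br (nat_lit 0x200000700901a400000e012034411) k120 (.br (nat_lit 0x5000007009019a00000e012032411) k121 k122))))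
noncomputable def u6 : KT := (.br (Nat.shiftLeft (nat_lit 0x700a01) (nat_lit 68)) (.br (Nat.shiftLeft (nat_lit 0x380480d) (nat_lit 65)) (.one (nat_lit 0x7009019000000e012032430)) (.br (Nat.shiftLeft (nat_lit 0x3805) (nat_lit 77)) (.one (nat_lit 0x700901a000000e012034430)) (.one (nat_lit 0x700a00f000000e01401f400)))) (.br (Nat.shiftLeft (nat_lit 0x3805009) (nat_lit 65)) (.br (Nat.shiftLeft (nat_lit 0x700a011) (nat_lit 64)) (.one (nat_lit 0x700a010000000e014021400)) (.one (nat_lit 0x700a011000000e014023400))) (.br (Nat.shiftLeft (nat_lit 0x700a013) (nat_lit 64)) (.one (nat_lit 0x700a012000000e014025400)) (.one (nat_lit 0x700a013000000e014027400)))))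
def w6 : u6.all (wj 57 s6) = true := by decide +kernel
def o6 : OkW 57 (jb2 57 fl) u6 := .lift s6 _ (.br _ _ _ (.br _ _ _ (.br _ _ _ (.leaf b0 k112 t112) (.leaf b0 k113 t113)) (.br _ _ _ (.leaf b0 k114 t114) (.br _ _ _ (.leaf b0 k115 t115) (.leaf b0 k116 t116)))) (.br _ _ _ (.br _ _ _ (.leaf b0 k117 t117) (.br _ _ _ (.leaf b0 k118 t118) (.leaf b0 k119 t119))) (.br _ _ _ (.leaf b0 k120 t120) (.br _ _ _ (.leaf b0 k121 t121) (.leaf b0 k122 t122))))) w6
noncomputable def k123 : KT := (.br (Nat.shiftLeft (nat_lit 0x5) (nat_lit 100)) (.br (Nat.shiftLeft (nat_lit 0x1) (nat_lit 101)) (.br (Nat.shiftLeft (nat_lit 0x1) (nat_lit 100)) (.one (nat_lit 0x700a014000000e014029400)) (.one (nat_lit 0x100700a014000200e014028540))) (.br (Nat.shiftLeft (nat_lit 0x3) (nat_lit 100)) (.one (nat_lit 0x200700a014000400e014029500)) (.br (Nat.shiftLeft (nat_lit 0x1) (nat_lit 102)) (.one (nat_lit 0x300700a014000600e014029500)) (.one (nat_lit 0x400700a014000800e014029500))))) (.br (Nat.shiftLeft (nat_lit 0x1) (nat_lit 112)) (.br (Nat.shiftLeft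 (nat_lit 0x3) (nat_lit 101)) (.one (nat_lit 0x500700a014000a00e014029500)) (.one (nat_lit 0x600700a014000c00e014029500))) (.br (Nat.shiftLeft (nat_lit 0x801) (nat_lit 101)) (.one (nat_lit 0x100000700a014200000e014028411)) (.br (Nat.shiftLeft (nat_lit 0x1003) (nat_lit 100)) (.one (nat_lit 0x100200700a014200400e014029600)) (.one (nat_lit 0x100300700a014200600e014029600))))))
noncomputable def b124 : BT := .node (nat_lit 0x1) (nat_lit 0x51549c130800421b000ab8c10008700028) .leaf .leaf
def t123 : k123.all (jb2 57 fl b124) = true := by decide +kernel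
noncomputable def k124 : KT := (.one (nat_lit 0x100400700a014200800e014028650))
def t124 : k124.all (jb2 57 fl b0) = true := by decide +kernel
noncomputable def k125 : KT := (.one (nat_lit 0x100500700a014200a00e014028650))
def t125 : k125.all (jb2 57 fl b0) = true := by decide +kernel
noncomputable def k126 : KT := (.br (Nat.shiftLeft (nat_lit 0x1001) (nat_lit 101)) (.br (Nat.shiftLeft (nat_lit 0x1) (nat_lit 113)) (.one (nat_lit 0x100600700a014200c00e014028650)) (.one (nat_lit 0x200000700a014400000e014028411))) (.br (Nat.shiftLeft (nat_lit 0x801) (nat_lit 102)) (.one (nat_lit 0x200300700a014400600e014029600)) (.one (nat_lit 0x200400700a014400800e014029600))))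
def t126 : k126.all (jb2 57 fl b0) = true := by decide +kernel
noncomputable def k127 : KT := (.one (nat_lit 0x200500700a014400a00e014028650))
def t127 : k127.all (jb2 57 fl b0) = true := by decide +kernel
noncomputable def k128 : KT := (.br (Nat.shiftLeft (nat_lit 0x3) (nat_lit 112)) (.one (nat_lit 0x200600700a014400c00e014028650)) (.br (Nat.shiftLeft (nat_lit 0xc01) (nat_lit 102)) (.one (nat_lit 0x300000700a014600000e014028411)) (.one (nat_lit 0x300400700a014600800e014029600))))
def t128 : k128.all (jb2 57 fl b0) = true := by decide +kernel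
noncomputable def k129 : KT := (.one (nat_lit 0x300500700a014600a00e014028650))
def t129 : k129.all (jb2 57 fl b0) = true := by decide +kernel
noncomputable def k130 : KT := (.br (Nat.shiftLeft (nat_lit 0x1) (nat_lit 114)) (.one (nat_lit 0x300600700a014600c00e014028650)) (.one (nat_lit 0x400000700a014800000e014028411)))
def t130 : k130.all (jb2 57 fl b0) = true := by decide +kernel
noncomputable def k131 : KT := (.one (nat_lit 0x400500700a014800a00e014028650))
def t131 : k131.all (jb2 57 fl b0) = true := by decide +kernel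
noncomputable def k132 : KT := (.br (Nat.shiftLeft (nat_lit 0x5) (nat_lit 112)) (.one (nat_lit 0x400600700a014800c00e014028650)) (.br (Nat.shiftLeft (nat_lit 0x1401) (nat_lit 102)) (.one (nat_lit 0x500000700a014a00000e014028411)) (.one (nat_lit 0x500600700a014a00c00e014028650))))
def t132 : k132.all (jb2 57 fl b0) = true := by decide +kernel
noncomputable def k133 : KT := (.br (Nat.shiftLeft (nat_lit 0x1) (nat_lit 124)) (.br (Nat.shiftLeft (nat_lit 0x1) (nat_lit 115)) (.br (Nat.shiftLeft (nat_lit 0x7) (nat_lit 112)) (.one (nat_lit 0x600000700a014c00000e014028411)) (.one (nat_lit 0x700000700a014e00000e014028411))) (.br (Nat.shiftLeft (nat_lit 0x9) (nat_lit 112)) (.one (nat_lit 0x800000700a014000000e01412a411)) (.br (Nat.shiftLeft (nat_lit 0x5) (nat_lit 113)) (.one (nat_lit 0x900000700a014200000e01412a411)) (.one (nat_lit 0xa00000700a014400000e01412a411))))) (.br (Nat.shiftLeft (nat_lit 0x1000005) (nat_lit 100)) (.br (Nat.shiftLeft (nat_lit 0x1000003) (nat_lit 100)) (.one (nat_lit 0x100000200700a014000400e034428511))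 (.br (Nat.shiftLeft (nat_lit 0x400001) (nat_lit 102)) (.one (nat_lit 0x100000300700a014000600e034428511)) (.one (nat_lit 0x100000400700a014000800e034428511)))) (.br (Nat.shiftLeft (nat_lit 0x800003) (nat_lit 101)) (.one (nat_lit 0x100000500700a014000a00e034428511)) (.br (Nat.shiftLeft (nat_lit 0x801) (nat_lit 113)) (.one (nat_lit 0x100000600700a014000c00e034428511)) (.one (nat_lit 0x100200300700a014400600e034428760))))))
noncomputable def b134 : BT := .node (nat_lit 0x1) (nat_lit 0x5154b19450003a98004ea6010008700028) .leaf .leaf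
def t133 : k133.all (jb2 57 fl b134) = true := by decide +kernel
noncomputable def k134 : KT := (.br (Nat.shiftLeft (nat_lit 0x2000003) (nat_lit 100)) (.br (Nat.shiftLeft (nat_lit 0x1003) (nat_lit 112)) (.one (nat_lit 0x100200400700a014400800e034428760)) (.br (Nat.shiftLeft (nat_lit 0x1) (nat_lit 125)) (.one (nat_lit 0x100300400700a014600800e034428760)) (.one (nat_lit 0x200000200700a014000400e054828511)))) (.br (Nat.shiftLeft (nat_lit 0x2000005) (nat_lit 100)) (.br (Nat.shiftLeft (nat_lit 0x800001) (nat_lit 102)) (.one (nat_lit 0x200000300700a014000600e054828511)) (.one (nat_lit 0x200000400700a014000800e054828511))) (.br (Nat.shiftLeft (nat_lit 0x1000003) (nat_lit 101)) (.one (nat_lit 0x200000500700a014000a00e054828511)) (.one (nat_lit 0x200000600700a014000c00e054828511)))))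
def t134 : k134.all (jb2 57 fl b0) = true := by decide +kernel
noncomputable def k135 : KT := (.br (Nat.shiftLeft (nat_lit 0x1) (nat_lit 126)) (.br (Nat.shiftLeft (nat_lit 0xc00001) (nat_lit 102)) (.br (Nat.shiftLeft (nat_lit 0x3) (nat_lit 124)) (.one (nat_lit 0x200300400700a014600800e054828760)) (.br (Nat.shiftLeft (nat_lit 0x3000003) (nat_lit 100)) (.one (nat_lit 0x300000200700a014000400e074c28511)) (.one (nat_lit 0x300000300700a014000600e074c28511)))) (.br (Nat.shiftLeft (nat_lit 0x3000005) (nat_lit 100)) (.one (nat_lit 0x300000400700a014000800e074c28511)) (.br (Nat.shiftLeft (nat_lit 0x1800003) (nat_lit 101)) (.one (nat_lit 0x300000500700a014000a00e074c28511)) (.one (nat_lit 0x300000600700a014000c00e074c28511))))) (.br (Nat.shiftLeft (nat_lit 0x4000005) (nat_lit 100)) (.br (Nat.shiftLeft (nat_lit 0x4000003) (nat_lit 100)) (.one (nat_lit 0x400000200700a014000400e095028511)) (.br (Nat.shiftLeft (nat_lit 0x1000001) (nat_lit 102)) (.one (nat_lit 0x400000300700a014000600e095028511)) (.one (nat_lit 0x400000400700a014000800e095028511))))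 (.br (Nat.shiftLeft (nat_lit 0x2000003) (nat_lit 101)) (.one (nat_lit 0x400000500700a014000a00e095028511)) (.br (Nat.shiftLeft (nat_lit 0x5) (nat_lit 124)) (.one (nat_lit 0x400000600700a014000c00e095028511)) (.one (nat_lit 0x500000200700a014000400e0b5428511))))))
def t135 : k135.all (jb2 57 fl b0) = true := by decide +kernel
noncomputable def k136 : KT := (.br (Nat.shiftLeft (nat_lit 0x2800003) (nat_lit 101)) (.br (Nat.shiftLeft (nat_lit 0x1400001) (nat_lit 102)) (.one (nat_lit 0x500000300700a014000600e0b5428511)) (.br (Nat.shiftLeft (nat_lit 0x5000005) (nat_lit 100)) (.one (nat_lit 0x500000400700a014000800e0b5428511)) (.one (nat_lit 0x500000500700a014000a00e0b5428511)))) (.br (Nat.shiftLeft (nat_lit 0x3) (nat_lit 125)) (.one (nat_lit 0x500000600700a014000c00e0b5428511)) (.br (Nat.shiftLeft (nat_lit 0x6000003) (nat_lit 100)) (.one (nat_lit 0x600000200700a014000400e0d5828511)) (.one (nat_lit 0x600000300700a014000600e0d5828511)))))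
def t136 : k136.all (jb2 57 fl b0) = true := by decide +kernel
noncomputable def k137 : KT := (.br (Nat.shiftLeft (nat_lit 0x3000003) (nat_lit 101)) (.br (Nat.shiftLeft (nat_lit 0x6000005) (nat_lit 100)) (.one (nat_lit 0x600000400700a014000800e0d5828511)) (.one (nat_lit 0x600000500700a014000a00e0d5828511))) (.br (Nat.shiftLeft (nat_lit 0x7) (nat_lit 124)) (.one (nat_lit 0x600000600700a014000c00e0d5828511)) (.one (nat_lit 0x700000200700a014000400e0f5c28511))))
def t137 : k137.all (jb2 57 fl b0) = true := by decide +kernel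
noncomputable def k138 : KT := (.br (Nat.shiftLeft (nat_lit 0x7000005) (nat_lit 100)) (.br (Nat.shiftLeft (nat_lit 0x1c00001) (nat_lit 102)) (.one (nat_lit 0x700000300700a014000600e0f5c28511)) (.one (nat_lit 0x700000400700a014000800e0f5c28511))) (.br (Nat.shiftLeft (nat_lit 0x3800003) (nat_lit 101)) (.one (nat_lit 0x700000500700a014000a00e0f5c28511)) (.br (Nat.shiftLeft (nat_lit 0x1) (nat_lit 127)) (.one (nat_lit 0x700000600700a014000c00e0f5c28511)) (.one (nat_lit 0x800000200700a014000400e116028511)))))
def t138 : k138.all (jb2 57 fl b0) = true := by decide +kernel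
noncomputable def k139 : KT := (.br (Nat.shiftLeft (nat_lit 0x4000003) (nat_lit 101)) (.br (Nat.shiftLeft (nat_lit 0x2000001) (nat_lit 102)) (.one (nat_lit 0x800000300700a014000600e116028511)) (.br (Nat.shiftLeft (nat_lit 0x8000005) (nat_lit 100)) (.one (nat_lit 0x800000400700a014000800e116028511)) (.one (nat_lit 0x800000500700a014000a00e116028511)))) (.br (Nat.shiftLeft (nat_lit 0x9000003) (nat_lit 100)) (.br (Nat.shiftLeft (nat_lit 0x9) (nat_lit 124)) (.one (nat_lit 0x800000600700a014000c00e116028511)) (.one (nat_lit 0x900000200700a014000400e136428511))) (.br (Nat.shiftLeft (nat_lit 0x2400001) (nat_lit 102)) (.one (nat_lit 0x900000300700a014000600e136428511)) (.one (nat_lit 0x900000400700a014000800e136428511)))))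
def t139 : k139.all (jb2 57 fl b0) = true := by decide +kernel
noncomputable def k140 : KT := (.br (Nat.shiftLeft (nat_lit 0x2000001003) (nat_lit 100)) (.br (Nat.shiftLeft (nat_lit 0x5000003) (nat_lit 101)) (.br (Nat.shiftLeft (nat_lit 0xa000003) (nat_lit 100)) (.br (Nat.shiftLeft (nat_lit 0x4800003) (nat_lit 101)) (.one (nat_lit 0x900000500700a014000a00e136428511)) (.br (Nat.shiftLeft (nat_lit 0x5) (nat_lit 125)) (.one (nat_lit 0x900000600700a014000c00e136428511)) (.one (nat_lit 0xa00000200700a014000400e156828511)))) (.br (Nat.shiftLeft (nat_lit 0x2800001) (nat_lit 102)) (.one (nat_lit 0xa00000300700a014000600e156828511)) (.br (Nat.shiftLeft (nat_lit 0xa000005) (nat_lit 100)) (.one (nat_lit 0xa00000400700a014000800e156828511)) (.one (nat_lit 0xa00000500700a014000a00e156828511))))) (.br (Nat.shiftLeft (nat_lit 0x800001) (nat_lit 113)) (.br (Nat.shiftLeft (nat_lit 0x1) (nat_lit 136)) (.one (nat_lit 0xa00000600700a014000c00e156828511)) (.br (Nat.shiftLeft (nat_lit 0x1000001003) (nat_lit 100)) (.one (nat_lit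 0x100000100200700a014200402e414028611)) (.one (nat_lit 0x100000100300700a014200602e414028611)))) (.br (Nat.shiftLeft (nat_lit 0x1000003) (nat_lit 112)) (.br (Nat.shiftLeft (nat_lit 0x400000801) (nat_lit 102)) (.one (nat_lit 0x100000200300700a014400602e414028611)) (.one (nat_lit 0x100000200400700a014400802e414028611))) (.br (Nat.shiftLeft (nat_lit 0x1) (nat_lit 137)) (.one (nat_lit 0x100000300400700a014600802e414028611)) (.one (nat_lit 0x200000100200700a014200404e814028611)))))) (.br (Nat.shiftLeft (nat_lit 0x1800001) (nat_lit 113)) (.br (Nat.shiftLeft (nat_lit 0x2000003) (nat_lit 112)) (.br (Nat.shiftLeft (nat_lit 0x1000001) (nat_lit 113)) (.one (nat_lit 0x200000100300700a014200604e814028611)) (.br (Nat.shiftLeft (nat_lit 0x800000801) (nat_lit 102)) (.one (nat_lit 0x200000200300700a014400604e814028611)) (.one (nat_lit 0x200000200400700a014400804e814028611)))) (.br (Nat.shiftLeft (nat_lit 0x3) (nat_lit 136)) (.one (nat_lit 0x200000300400700a014600804e814028611)) (.br (Nat.shiftLeft (nat_lit 0x3000001003) (nat_lit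 100)) (.one (nat_lit 0x300000100200700a014200406ec14028611)) (.one (nat_lit 0x300000100300700a014200606ec14028611))))) (.br (Nat.shiftLeft (nat_lit 0x1) (nat_lit 138)) (.br (Nat.shiftLeft (nat_lit 0xc00000801) (nat_lit 102)) (.one (nat_lit 0x300000200300700a014400606ec14028611)) (.br (Nat.shiftLeft (nat_lit 0x3000003) (nat_lit 112)) (.one (nat_lit 0x300000200400700a014400806ec14028611)) (.one (nat_lit 0x300000300400700a014600806ec14028611)))) (.br (Nat.shiftLeft (nat_lit 0x2000001) (nat_lit 113)) (.br (Nat.shiftLeft (nat_lit 0x4000001003) (nat_lit 100)) (.one (nat_lit 0x400000100200700a014200408f014028611)) (.one (nat_lit 0x400000100300700a014200608f014028611))) (.br (Nat.shiftLeft (nat_lit 0x1000000801) (nat_lit 102)) (.one (nat_lit 0x400000200300700a014400608f014028611)) (.one (nat_lit 0x400000200400700a014400808f014028611)))))))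
def t140 : k140.all (jb2 57 fl b0) = true := by decide +kernel
noncomputable def k141 : KT := (.br (Nat.shiftLeft (nat_lit 0x2800001) (nat_lit 113)) (.br (Nat.shiftLeft (nat_lit 0x5) (nat_lit 136)) (.one (nat_lit 0x400000300400700a014600808f014028611)) (.br (Nat.shiftLeft (nat_lit 0x5000001003) (nat_lit 100)) (.one (nat_lit 0x500000100200700a01420040af414028611)) (.one (nat_lit 0x500000100300700a01420060af414028611)))) (.br (Nat.shiftLeft (nat_lit 0x1400000801) (nat_lit 102)) (.one (nat_lit 0x500000200300700a01440060af414028611)) (.br (Nat.shiftLeft (nat_lit 0x5000003) (nat_lit 112)) (.one (nat_lit 0x500000200400700a01440080af414028611)) (.one (nat_lit 0x500000300400700a01460080af414028611)))))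
def t141 : k141.all (jb2 57 fl b0) = true := by decide +kernel
noncomputable def k142 : KT := (.br (Nat.shiftLeft (nat_lit 0x3000001) (nat_lit 113)) (.br (Nat.shiftLeft (nat_lit 0x6000001003) (nat_lit 100)) (.one (nat_lit 0x600000100200700a01420040cf814028611)) (.one (nat_lit 0x600000100300700a01420060cf814028611))) (.br (Nat.shiftLeft (nat_lit 0x1800000801) (nat_lit 102)) (.one (nat_lit 0x600000200300700a01440060cf814028611)) (.br (Nat.shiftLeft (nat_lit 0x6000003) (nat_lit 112)) (.one (nat_lit 0x600000200400700a01440080cf814028611)) (.one (nat_lit 0x600000300400700a01460080cf814028611)))))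
def t142 : k142.all (jb2 57 fl b0) = true := by decide +kernel
noncomputable def k143 : KT := (.br (Nat.shiftLeft (nat_lit 0x3800001) (nat_lit 113)) (.br (Nat.shiftLeft (nat_lit 0x7000001003) (nat_lit 100)) (.one (nat_lit 0x700000100200700a01420040efc14028611)) (.one (nat_lit 0x700000100300700a01420060efc14028611))) (.br (Nat.shiftLeft (nat_lit 0x1c00000801) (nat_lit 102)) (.one (nat_lit 0x700000200300700a01440060efc14028611)) (.br (Nat.shiftLeft (nat_lit 0x7000003) (nat_lit 112)) (.one (nat_lit 0x700000200400700a01440080efc14028611)) (.one (nat_lit 0x700000300400700a01460080efc14028611)))))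
def t143 : k143.all (jb2 57 fl b0) = true := by decide +kernel
noncomputable def k144 : KT := (.br (Nat.shiftLeft (nat_lit 0x2000000801) (nat_lit 102)) (.br (Nat.shiftLeft (nat_lit 0x8000001003) (nat_lit 100)) (.one (nat_lit 0x800000100200700a0142004110014028611)) (.br (Nat.shiftLeft (nat_lit 0x4000001) (nat_lit 113)) (.one (nat_lit 0x800000100300700a0142006110014028611)) (.one (nat_lit 0x800000200300700a0144006110014028611)))) (.br (Nat.shiftLeft (nat_lit 0x9) (nat_lit 136)) (.br (Nat.shiftLeft (nat_lit 0x8000003) (nat_lit 112)) (.one (nat_lit 0x800000200400700a0144008110014028611)) (.one (nat_lit 0x800000300400700a0146008110014028611))) (.br (Nat.shiftLeft (nat_lit 0x9000001003) (nat_lit 100)) (.one (nat_lit 0x900000100200700a0142004130414028611)) (.one (nat_lit 0x900000100300700a0142006130414028611)))))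
def t144 : k144.all (jb2 57 fl b0) = true := by decide +kernel
noncomputable def k145 : KT := (.br (Nat.shiftLeft (nat_lit 0xa000001003) (nat_lit 100)) (.br (Nat.shiftLeft (nat_lit 0x9000003) (nat_lit 112)) (.br (Nat.shiftLeft (nat_lit 0x2400000801) (nat_lit 102)) (.one (nat_lit 0x900000200300700a0144006130414028611)) (.one (nat_lit 0x900000200400700a0144008130414028611))) (.br (Nat.shiftLeft (nat_lit 0x5) (nat_lit 137)) (.one (nat_lit 0x900000300400700a0146008130414028611)) (.one (nat_lit 0xa00000100200700a0142004150814028611)))) (.br (Nat.shiftLeft (nat_lit 0x2800000801) (nat_lit 102)) (.br (Nat.shiftLeft (nat_lit 0x5000001) (nat_lit 113)) (.one (nat_lit 0xa00000100300700a0142006150814028611)) (.one (nat_lit 0xa00000200300700a0144006150814028611))) (.br (Nat.shiftLeft (nat_lit 0xa000003) (nat_lit 112)) (.one (nat_lit 0xa00000200400700a0144008150814028611)) (.one (nat_lit 0xa00000300400700a0146008150814028611)))))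
def t145 : k145.all (jb2 57 fl b0) = true := by decide +kernel
noncomputable def s7 : KT := (.br (nat_lit 0x100200300700a014400600e034428760) (.br (nat_lit 0x200500700a014400a00e014028650) (.br (nat_lit 0x100400700a014200800e014028650) (.br (nat_lit 0x100300700a014200600e014029600) k123 k124) (.br (nat_lit 0x100500700a014200a00e014028650) k125 (.br (nat_lit 0x200400700a014400800e014029600) k126 k127))) (.br (nat_lit 0x400000700a014800000e014028411) (.br (nat_lit 0x300400700a014600800e014029600) k128 (.br (nat_lit 0x300500700a014600a00e014028650) k129 k130)) (.br (nat_lit 0x400500700a014800a00e014028650) k131 (.br (nat_lit 0x500600700a014a00c00e014028650) k132 k133)))) (.br (nat_lit 0x900000400700a014000800e136428511) (.br (nat_lit 0x600000300700a014000600e0d5828511) (.br (nat_lit 0x200000600700a014000c00e054828511) k134 (.br (nat_lit 0x500000200700a014000400e0b5428511) k135 k136)) (.br (nat_lit 0x700000200700a014000400e0f5c28511) k137 (.br (nat_lit 0x800000200700a014000400e116028511) k138 k139))) (.br (nat_lit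 0x600000300400700a01460080cf814028611) (.br (nat_lit 0x400000200400700a014400808f014028611) k140 (.br (nat_lit 0x500000300400700a01460080af414028611) k141 k142)) (.br (nat_lit 0x700000300400700a01460080efc14028611) k143 (.br (nat_lit 0x900000100300700a0142006130414028611) k144 k145)))))
noncomputable def u7 : KT := (.one (nat_lit 0x700a014000000e014028430))
def w7 : u7.all (wj 57 s7) = true := by decide +kernel
def o7 : OkW 57 (jb2 57 fl) u7 := .lift s7 _ (.br _ _ _ (.br _ _ _ (.br _ _ _ (.br _ _ _ (.leaf b124 k123 t123) (.leaf b0 k124 t124)) (.br _ _ _ (.leaf b0 k125 t125) (.br _ _ _ (.leaf b0 k126 t126) (.leaf b0 k127 t127)))) (.br _ _ _ (.br _ _ _ (.leaf b0 k128 t128) (.br _ _ _ (.leaf b0 k129 t129) (.leaf b0 k130 t130))) (.br _ _ _ (.leaf b0 k131 t131) (.br _ _ _ (.leaf b0 k132 t132) (.leaf b134 k133 t133))))) (.br _ _ _ (.br _ _ _ (.br _ _ _ (.leaf b0 k134 t134) (.br _ _ _ (.leaf b0 k135 t135) (.leaf b0 k136 t136))) (.br _ _ _ (.leaf b0 k137 t137) (.br _ _ _ (.leaf b0 k138 t138) (.leaf b0 k139 t139))))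 (.br _ _ _ (.br _ _ _ (.leaf b0 k140 t140) (.br _ _ _ (.leaf b0 k141 t141) (.leaf b0 k142 t142))) (.br _ _ _ (.leaf b0 k143 t143) (.br _ _ _ (.leaf b0 k144 t144) (.leaf b0 k145 t145)))))) w7
noncomputable def k146 : KT := (.br (Nat.shiftLeft (nat_lit 0x1) (nat_lit 102)) (.br (Nat.shiftLeft (nat_lit 0x1) (nat_lit 101)) (.br (Nat.shiftLeft (nat_lit 0x1) (nat_lit 100)) (.one (nat_lit 0x700a015000000e01402b400)) (.one (nat_lit 0x100700a015000200e01402a540))) (.br (Nat.shiftLeft (nat_lit 0x3) (nat_lit 100)) (.one (nat_lit 0x200700a015000400e01402b500)) (.one (nat_lit 0x300700a015000600e01402b500)))) (.br (Nat.shiftLeft (nat_lit 0x3) (nat_lit 101)) (.br (Nat.shiftLeft (nat_lit 0x5) (nat_lit 100)) (.one (nat_lit 0x400700a015000800e01402b500)) (.one (nat_lit 0x500700a015000a00e01402b500))) (.br (Nat.shiftLeft (nat_lit 0x1) (nat_lit 112)) (.one (nat_lit 0x600700a015000c00e01402b500)) (.br (Nat.shiftLeft (nat_lit 0x801) (nat_lit 101)) (.one (nat_lit 0x100000700a015200000e01402a411)) (.one (nat_lit 0x100200700a015200400e01402b600))))))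
def t146 : k146.all (jb2 57 fl b0) = true := by decide +kernel
noncomputable def k147 : KT := (.one (nat_lit 0x100300700a015200600e01402a650))
def t147 : k147.all (jb2 57 fl b0) = true := by decide +kernel
noncomputable def k148 : KT := (.one (nat_lit 0x100400700a015200800e01402a650))
def t148 : k148.all (jb2 57 fl b0) = true := by decide +kernel
noncomputable def k149 : KT := (.br (Nat.shiftLeft (nat_lit 0x1) (nat_lit 113)) (.br (Nat.shiftLeft (nat_lit 0x803) (nat_lit 101)) (.one (nat_lit 0x100500700a015200a00e01402a650)) (.one (nat_lit 0x100600700a015200c00e01402a650))) (.br (Nat.shiftLeft (nat_lit 0x1001) (nat_lit 101)) (.one (nat_lit 0x200000700a015400000e01402a411)) (.one (nat_lit 0x200300700a015400600e01402b600))))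
def t149 : k149.all (jb2 57 fl b0) = true := by decide +kernel
noncomputable def k150 : KT := (.one (nat_lit 0x200400700a015400800e01402a650))
def t150 : k150.all (jb2 57 fl b0) = true := by decide +kernel
noncomputable def k151 : KT := (.br (Nat.shiftLeft (nat_lit 0x1003) (nat_lit 101)) (.one (nat_lit 0x200500700a015400a00e01402a650)) (.br (Nat.shiftLeft (nat_lit 0x3) (nat_lit 112)) (.one (nat_lit 0x200600700a015400c00e01402a650)) (.one (nat_lit 0x300000700a015600000e01402a411))))
def t151 : k151.all (jb2 57 fl b0) = true := by decide +kernel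
noncomputable def k152 : KT := (.one (nat_lit 0x300400700a015600800e01402a650))
def t152 : k152.all (jb2 57 fl b0) = true := by decide +kernel
noncomputable def k153 : KT := (.br (Nat.shiftLeft (nat_lit 0x1803) (nat_lit 101)) (.one (nat_lit 0x300500700a015600a00e01402a650)) (.br (Nat.shiftLeft (nat_lit 0x1) (nat_lit 114)) (.one (nat_lit 0x300600700a015600c00e01402a650)) (.one (nat_lit 0x400000700a015800000e01402a411))))
def t153 : k153.all (jb2 57 fl b0) = true := by decide +kernel
noncomputable def k154 : KT := (.br (Nat.shiftLeft (nat_lit 0x2003) (nat_lit 101)) (.one (nat_lit 0x400500700a015800a00e01402a650)) (.br (Nat.shiftLeft (nat_lit 0x5) (nat_lit 112)) (.one (nat_lit 0x400600700a015800c00e01402a650)) (.one (nat_lit 0x500000700a015a00000e01402a411))))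
def t154 : k154.all (jb2 57 fl b0) = true := by decide +kernel
noncomputable def k155 : KT := (.br (Nat.shiftLeft (nat_lit 0x5) (nat_lit 113)) (.br (Nat.shiftLeft (nat_lit 0x7) (nat_lit 112)) (.br (Nat.shiftLeft (nat_lit 0x3) (nat_lit 113)) (.one (nat_lit 0x500600700a015a00c00e01402a650)) (.one (nat_lit 0x600000700a015c00000e01402a411))) (.br (Nat.shiftLeft (nat_lit 0x1) (nat_lit 115)) (.one (nat_lit 0x700000700a015e00000e01402a411)) (.br (Nat.shiftLeft (nat_lit 0x9) (nat_lit 112)) (.one (nat_lit 0x800000700a015000000e01412c411)) (.one (nat_lit 0x900000700a015200000e01412c411))))) (.br (Nat.shiftLeft (nat_lit 0x400001) (nat_lit 102)) (.br (Nat.shiftLeft (nat_lit 0x1) (nat_lit 124)) (.one (nat_lit 0xa00000700a015400000e01412c411)) (.br (Nat.shiftLeft (nat_lit 0x1000003) (nat_lit 100)) (.one (nat_lit 0x100000200700a015000400e03442a511)) (.one (nat_lit 0x100000300700a015000600e03442a511)))) (.br (Nat.shiftLeft (nat_lit 0x1000005) (nat_lit 100)) (.one (nat_lit 0x100000400700a015000800e03442a511)) (.br (Nat.shiftLeft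 (nat_lit 0x800003) (nat_lit 101)) (.one (nat_lit 0x100000500700a015000a00e03442a511)) (.one (nat_lit 0x100000600700a015000c00e03442a511))))))
def t155 : k155.all (jb2 57 fl b0) = true := by decide +kernel
noncomputable def k156 : KT := (.br (Nat.shiftLeft (nat_lit 0xc00001) (nat_lit 102)) (.br (Nat.shiftLeft (nat_lit 0x2000005) (nat_lit 100)) (.br (Nat.shiftLeft (nat_lit 0x2000003) (nat_lit 100)) (.br (Nat.shiftLeft (nat_lit 0x1) (nat_lit 125)) (.one (nat_lit 0x100200300700a015400600e03442a760)) (.one (nat_lit 0x200000200700a015000400e05482a511))) (.br (Nat.shiftLeft (nat_lit 0x800001) (nat_lit 102)) (.one (nat_lit 0x200000300700a015000600e05482a511)) (.one (nat_lit 0x200000400700a015000800e05482a511)))) (.br (Nat.shiftLeft (nat_lit 0x3) (nat_lit 124)) (.br (Nat.shiftLeft (nat_lit 0x1000003) (nat_lit 101)) (.one (nat_lit 0x200000500700a015000a00e05482a511)) (.one (nat_lit 0x200000600700a015000c00e05482a511))) (.br (Nat.shiftLeft (nat_lit 0x3000003) (nat_lit 100)) (.one (nat_lit 0x300000200700a015000400e074c2a511))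 (.one (nat_lit 0x300000300700a015000600e074c2a511))))) (.br (Nat.shiftLeft (nat_lit 0x4000003) (nat_lit 100)) (.br (Nat.shiftLeft (nat_lit 0x1800003) (nat_lit 101)) (.br (Nat.shiftLeft (nat_lit 0x3000005) (nat_lit 100)) (.one (nat_lit 0x300000400700a015000800e074c2a511)) (.one (nat_lit 0x300000500700a015000a00e074c2a511))) (.br (Nat.shiftLeft (nat_lit 0x1) (nat_lit 126)) (.one (nat_lit 0x300000600700a015000c00e074c2a511)) (.one (nat_lit 0x400000200700a015000400e09502a511)))) (.br (Nat.shiftLeft (nat_lit 0x4000005) (nat_lit 100)) (.br (Nat.shiftLeft (nat_lit 0x1000001) (nat_lit 102)) (.one (nat_lit 0x400000300700a015000600e09502a511)) (.one (nat_lit 0x400000400700a015000800e09502a511))) (.br (Nat.shiftLeft (nat_lit 0x2000003) (nat_lit 101)) (.one (nat_lit 0x400000500700a015000a00e09502a511)) (.one (nat_lit 0x400000600700a015000c00e09502a511))))))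
def t156 : k156.all (jb2 57 fl b0) = true := by decide +kernel
noncomputable def k157 : KT := (.br (Nat.shiftLeft (nat_lit 0x5000005) (nat_lit 100)) (.br (Nat.shiftLeft (nat_lit 0x5000003) (nat_lit 100)) (.one (nat_lit 0x500000200700a015000400e0b542a511)) (.br (Nat.shiftLeft (nat_lit 0x1400001) (nat_lit 102)) (.one (nat_lit 0x500000300700a015000600e0b542a511)) (.one (nat_lit 0x500000400700a015000800e0b542a511)))) (.br (Nat.shiftLeft (nat_lit 0x3) (nat_lit 125)) (.br (Nat.shiftLeft (nat_lit 0x2800003) (nat_lit 101)) (.one (nat_lit 0x500000500700a015000a00e0b542a511)) (.one (nat_lit 0x500000600700a015000c00e0b542a511))) (.br (Nat.shiftLeft (nat_lit 0x6000003) (nat_lit 100)) (.one (nat_lit 0x600000200700a015000400e0d582a511)) (.one (nat_lit 0x600000300700a015000600e0d582a511)))))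
def t157 : k157.all (jb2 57 fl b0) = true := by decide +kernel
noncomputable def k158 : KT := (.br (Nat.shiftLeft (nat_lit 0x7000003) (nat_lit 100)) (.br (Nat.shiftLeft (nat_lit 0x3000003) (nat_lit 101)) (.br (Nat.shiftLeft (nat_lit 0x6000005) (nat_lit 100)) (.one (nat_lit 0x600000400700a015000800e0d582a511)) (.one (nat_lit 0x600000500700a015000a00e0d582a511))) (.br (Nat.shiftLeft (nat_lit 0x7) (nat_lit 124)) (.one (nat_lit 0x600000600700a015000c00e0d582a511)) (.one (nat_lit 0x700000200700a015000400e0f5c2a511)))) (.br (Nat.shiftLeft (nat_lit 0x7000005) (nat_lit 100)) (.br (Nat.shiftLeft (nat_lit 0x1c00001) (nat_lit 102)) (.one (nat_lit 0x700000300700a015000600e0f5c2a511)) (.one (nat_lit 0x700000400700a015000800e0f5c2a511))) (.br (Nat.shiftLeft (nat_lit 0x3800003) (nat_lit 101)) (.one (nat_lit 0x700000500700a015000a00e0f5c2a511)) (.one (nat_lit 0x700000600700a015000c00e0f5c2a511)))))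
def t158 : k158.all (jb2 57 fl b0) = true := by decide +kernel
noncomputable def k159 : KT := (.br (Nat.shiftLeft (nat_lit 0x9) (nat_lit 124)) (.br (Nat.shiftLeft (nat_lit 0x2000001) (nat_lit 102)) (.br (Nat.shiftLeft (nat_lit 0x8000003) (nat_lit 100)) (.one (nat_lit 0x800000200700a015000400e11602a511)) (.one (nat_lit 0x800000300700a015000600e11602a511))) (.br (Nat.shiftLeft (nat_lit 0x8000005) (nat_lit 100)) (.one (nat_lit 0x800000400700a015000800e11602a511)) (.br (Nat.shiftLeft (nat_lit 0x4000003) (nat_lit 101)) (.one (nat_lit 0x800000500700a015000a00e11602a511)) (.one (nat_lit 0x800000600700a015000c00e11602a511))))) (.br (Nat.shiftLeft (nat_lit 0x9000005) (nat_lit 100)) (.br (Nat.shiftLeft (nat_lit 0x9000003) (nat_lit 100)) (.one (nat_lit 0x900000200700a015000400e13642a511)) (.br (Nat.shiftLeft (nat_lit 0x2400001) (nat_lit 102)) (.one (nat_lit 0x900000300700a015000600e13642a511)) (.one (nat_lit 0x900000400700a015000800e13642a511)))) (.br (Nat.shiftLeft (nat_lit 0x4800003) (nat_lit 101)) (.one (nat_lit 0x900000500700a015000a00e13642a511))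 (.br (Nat.shiftLeft (nat_lit 0x5) (nat_lit 125)) (.one (nat_lit 0x900000600700a015000c00e13642a511)) (.one (nat_lit 0xa00000200700a015000400e15682a511))))))
def t159 : k159.all (jb2 57 fl b0) = true := by decide +kernel
noncomputable def k160 : KT := (.br (Nat.shiftLeft (nat_lit 0x3) (nat_lit 136)) (.br (Nat.shiftLeft (nat_lit 0x1) (nat_lit 136)) (.br (Nat.shiftLeft (nat_lit 0xa000005) (nat_lit 100)) (.br (Nat.shiftLeft (nat_lit 0x2800001) (nat_lit 102)) (.one (nat_lit 0xa00000300700a015000600e15682a511)) (.one (nat_lit 0xa00000400700a015000800e15682a511))) (.br (Nat.shiftLeft (nat_lit 0x5000003) (nat_lit 101)) (.one (nat_lit 0xa00000500700a015000a00e15682a511)) (.one (nat_lit 0xa00000600700a015000c00e15682a511)))) (.br (Nat.shiftLeft (nat_lit 0x1) (nat_lit 137)) (.br (Nat.shiftLeft (nat_lit 0x800001) (nat_lit 113)) (.one (nat_lit 0x100000100200700a015200402e41402a611)) (.one (nat_lit 0x100000200300700a015400602e41402a611))) (.br (Nat.shiftLeft (nat_lit 0x1000001) (nat_lit 113)) (.one (nat_lit 0x200000100200700a015200404e81402a611))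 (.one (nat_lit 0x200000200300700a015400604e81402a611))))) (.br (Nat.shiftLeft (nat_lit 0x5) (nat_lit 136)) (.br (Nat.shiftLeft (nat_lit 0x1) (nat_lit 138)) (.br (Nat.shiftLeft (nat_lit 0x1800001) (nat_lit 113)) (.one (nat_lit 0x300000100200700a015200406ec1402a611)) (.one (nat_lit 0x300000200300700a015400606ec1402a611))) (.br (Nat.shiftLeft (nat_lit 0x2000001) (nat_lit 113)) (.one (nat_lit 0x400000100200700a015200408f01402a611)) (.one (nat_lit 0x400000200300700a015400608f01402a611)))) (.br (Nat.shiftLeft (nat_lit 0x3) (nat_lit 137)) (.br (Nat.shiftLeft (nat_lit 0x2800001) (nat_lit 113)) (.one (nat_lit 0x500000100200700a01520040af41402a611)) (.one (nat_lit 0x500000200300700a01540060af41402a611))) (.br (Nat.shiftLeft (nat_lit 0x3000001) (nat_lit 113)) (.one (nat_lit 0x600000100200700a01520040cf81402a611)) (.one (nat_lit 0x600000200300700a01540060cf81402a611))))))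
def t160 : k160.all (jb2 57 fl b0) = true := by decide +kernel
noncomputable def k161 : KT := (.br (Nat.shiftLeft (nat_lit 0x9) (nat_lit 136)) (.br (Nat.shiftLeft (nat_lit 0x1) (nat_lit 139)) (.br (Nat.shiftLeft (nat_lit 0x3800001) (nat_lit 113)) (.one (nat_lit 0x700000100200700a01520040efc1402a611)) (.one (nat_lit 0x700000200300700a01540060efc1402a611))) (.br (Nat.shiftLeft (nat_lit 0x4000001) (nat_lit 113)) (.one (nat_lit 0x800000100200700a015200411001402a611)) (.one (nat_lit 0x800000200300700a015400611001402a611)))) (.br (Nat.shiftLeft (nat_lit 0x5) (nat_lit 137)) (.br (Nat.shiftLeft (nat_lit 0x4800001) (nat_lit 113)) (.one (nat_lit 0x900000100200700a015200413041402a611)) (.one (nat_lit 0x900000200300700a015400613041402a611))) (.br (Nat.shiftLeft (nat_lit 0x5000001) (nat_lit 113)) (.one (nat_lit 0xa00000100200700a015200415081402a611)) (.one (nat_lit 0xa00000200300700a015400615081402a611)))))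
def t161 : k161.all (jb2 57 fl b0) = true := by decide +kernel
noncomputable def s8 : KT := (.br (nat_lit 0x400000700a015800000e01402a411) (.br (nat_lit 0x200300700a015400600e01402b600) (.br (nat_lit 0x100300700a015200600e01402a650) (.br (nat_lit 0x100200700a015200400e01402b600) k146 k147) (.br (nat_lit 0x100400700a015200800e01402a650) k148 k149)) (.br (nat_lit 0x300000700a015600000e01402a411) (.br (nat_lit 0x200400700a015400800e01402a650) k150 k151) (.br (nat_lit 0x300400700a015600800e01402a650) k152 k153))) (.br (nat_lit 0x600000300700a015000600e0d582a511) (.br (nat_lit 0x100000600700a015000c00e03442a511) (.br (nat_lit 0x500000700a015a00000e01402a411) k154 k155) (.br (nat_lit 0x400000600700a015000c00e09502a511) k156 k157)) (.br (nat_lit 0xa00000200700a015000400e15682a511) (.br (nat_lit 0x700000600700a015000c00e0f5c2a511) k158 k159) (.br (nat_lit 0x600000200300700a01540060cf81402a611) k160 k161))))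
noncomputable def u8 : KT := (.one (nat_lit 0x700a015000000e01402a430))
def w8 : u8.all (wj 57 s8) = true := by decide +kernel
def o8 : OkW 57 (jb2 57 fl) u8 := .lift s8 _ (.br _ _ _ (.br _ _ _ (.br _ _ _ (.br _ _ _ (.leaf b0 k146 t146) (.leaf b0 k147 t147)) (.br _ _ _ (.leaf b0 k148 t148) (.leaf b0 k149 t149))) (.br _ _ _ (.br _ _ _ (.leaf b0 k150 t150) (.leaf b0 k151 t151)) (.br _ _ _ (.leaf b0 k152 t152) (.leaf b0 k153 t153)))) (.br _ _ _ (.br _ _ _ (.br _ _ _ (.leaf b0 k154 t154) (.leaf b0 k155 t155)) (.br _ _ _ (.leaf b0 k156 t156) (.leaf b0 k157 t157))) (.br _ _ _ (.br _ _ _ (.leaf b0 k158 t158) (.leaf b0 k159 t159)) (.br _ _ _ (.leaf b0 k160 t160) (.leaf b0 k161 t161))))) w8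
noncomputable def k162 : KT := (.br (Nat.shiftLeft (nat_lit 0x700a017) (nat_lit 64)) (.one (nat_lit 0x700a016000000e01402d400)) (.br (Nat.shiftLeft (nat_lit 0x1) (nat_lit 100)) (.one (nat_lit 0x700a017000000e01402f400)) (.one (nat_lit 0x100700a016000200e01402c540))))
def t162 : k162.all (jb2 57 fl b0) = true := by decide +kernel
noncomputable def k163 : KT := (.br (Nat.shiftLeft (nat_lit 0x400700a017) (nat_lit 64)) (.br (Nat.shiftLeft (nat_lit 0x3) (nat_lit 100)) (.br (Nat.shiftLeft (nat_lit 0x1) (nat_lit 101)) (.one (nat_lit 0x100700a017000200e01402e540)) (.br (Nat.shiftLeft (nat_lit 0x200700a017) (nat_lit 64)) (.one (nat_lit 0x200700a016000400e01402d500)) (.one (nat_lit 0x200700a017000400e01402f500)))) (.br (Nat.shiftLeft (nat_lit 0x300700a017) (nat_lit 64)) (.one (nat_lit 0x300700a016000600e01402d500)) (.br (Nat.shiftLeft (nat_lit 0x1) (nat_lit 102)) (.one (nat_lit 0x300700a017000600e01402f500)) (.one (nat_lit 0x400700a016000800e01402d500))))) (.br (Nat.shiftLeft (nat_lit 0x3) (nat_lit 101)) (.br (Nat.shiftLeft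 (nat_lit 0x5) (nat_lit 100)) (.one (nat_lit 0x400700a017000800e01402f500)) (.br (Nat.shiftLeft (nat_lit 0x500700a017) (nat_lit 64)) (.one (nat_lit 0x500700a016000a00e01402d500)) (.one (nat_lit 0x500700a017000a00e01402f500)))) (.br (Nat.shiftLeft (nat_lit 0x1) (nat_lit 112)) (.br (Nat.shiftLeft (nat_lit 0x600700a017) (nat_lit 64)) (.one (nat_lit 0x600700a016000c00e01402d500)) (.one (nat_lit 0x600700a017000c00e01402f500))) (.br (Nat.shiftLeft (nat_lit 0x100000700a017) (nat_lit 64)) (.one (nat_lit 0x100000700a016200000e01402c411)) (.one (nat_lit 0x100000700a017200000e01402e411))))))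
def t163 : k163.all (jb2 57 fl b0) = true := by decide +kernel
noncomputable def k164 : KT := (.one (nat_lit 0x100200700a016200400e01402c650))
def t164 : k164.all (jb2 57 fl b0) = true := by decide +kernel
noncomputable def k165 : KT := (.one (nat_lit 0x100200700a017200400e01402e650))
def t165 : k165.all (jb2 57 fl b0) = true := by decide +kernel
noncomputable def k166 : KT := (.one (nat_lit 0x100300700a016200600e01402c650))
def t166 : k166.all (jb2 57 fl b0) = true := by decide +kernel
noncomputable def k167 : KT := (.br (Nat.shiftLeft (nat_lit 0x401) (nat_lit 102)) (.one (nat_lit 0x100300700a017200600e01402e650)) (.one (nat_lit 0x100400700a016200800e01402c650)))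
def t167 : k167.all (jb2 57 fl b0) = true := by decide +kernel
noncomputable def k168 : KT := (.br (Nat.shiftLeft (nat_lit 0x1005) (nat_lit 100)) (.one (nat_lit 0x100400700a017200800e01402e650)) (.br (Nat.shiftLeft (nat_lit 0x100500700a017) (nat_lit 64)) (.one (nat_lit 0x100500700a016200a00e01402c650)) (.one (nat_lit 0x100500700a017200a00e01402e650))))
def t168 : k168.all (jb2 57 fl b0) = true := by decide +kernel
noncomputable def k169 : KT := (.br (Nat.shiftLeft (nat_lit 0x1) (nat_lit 113)) (.br (Nat.shiftLeft (nat_lit 0x100600700a017) (nat_lit 64)) (.one (nat_lit 0x100600700a016200c00e01402c650)) (.one (nat_lit 0x100600700a017200c00e01402e650))) (.br (Nat.shiftLeft (nat_lit 0x200000700a017) (nat_lit 64)) (.one (nat_lit 0x200000700a016400000e01402c411)) (.one (nat_lit 0x200000700a017400000e01402e411))))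
def t169 : k169.all (jb2 57 fl b0) = true := by decide +kernel
noncomputable def k170 : KT := (.one (nat_lit 0x200300700a016400600e01402c650))
def t170 : k170.all (jb2 57 fl b0) = true := by decide +kernel
noncomputable def k171 : KT := (.one (nat_lit 0x200300700a017400600e01402e650))
def t171 : k171.all (jb2 57 fl b0) = true := by decide +kernel
noncomputable def k172 : KT := (.br (Nat.shiftLeft (nat_lit 0x200400700a017) (nat_lit 64)) (.one (nat_lit 0x200400700a016400800e01402c650)) (.one (nat_lit 0x200400700a017400800e01402e650)))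
def t172 : k172.all (jb2 57 fl b0) = true := by decide +kernel
noncomputable def k173 : KT := (.br (Nat.shiftLeft (nat_lit 0x200500700a017) (nat_lit 64)) (.one (nat_lit 0x200500700a016400a00e01402c650)) (.br (Nat.shiftLeft (nat_lit 0x1003) (nat_lit 101)) (.one (nat_lit 0x200500700a017400a00e01402e650)) (.one (nat_lit 0x200600700a016400c00e01402c650))))
def t173 : k173.all (jb2 57 fl b0) = true := by decide +kernel
noncomputable def k174 : KT := (.br (Nat.shiftLeft (nat_lit 0x300000700a017) (nat_lit 64)) (.br (Nat.shiftLeft (nat_lit 0x3) (nat_lit 112)) (.one (nat_lit 0x200600700a017400c00e01402e650)) (.one (nat_lit 0x300000700a016600000e01402c411))) (.br (Nat.shiftLeft (nat_lit 0xc01) (nat_lit 102)) (.one (nat_lit 0x300000700a017600000e01402e411)) (.one (nat_lit 0x300400700a016600800e01402c650))))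
def t174 : k174.all (jb2 57 fl b0) = true := by decide +kernel
noncomputable def k175 : KT := (.br (Nat.shiftLeft (nat_lit 0x3005) (nat_lit 100)) (.one (nat_lit 0x300400700a017600800e01402e650)) (.one (nat_lit 0x300500700a016600a00e01402c650)))
def t175 : k175.all (jb2 57 fl b0) = true := by decide +kernel
noncomputable def k176 : KT := (.br (Nat.shiftLeft (nat_lit 0x300600700a017) (nat_lit 64)) (.br (Nat.shiftLeft (nat_lit 0x1803) (nat_lit 101)) (.one (nat_lit 0x300500700a017600a00e01402e650)) (.one (nat_lit 0x300600700a016600c00e01402c650))) (.br (Nat.shiftLeft (nat_lit 0x1) (nat_lit 114)) (.one (nat_lit 0x300600700a017600c00e01402e650)) (.br (Nat.shiftLeft (nat_lit 0x400000700a017) (nat_lit 64)) (.one (nat_lit 0x400000700a016800000e01402c411)) (.one (nat_lit 0x400000700a017800000e01402e411)))))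
def t176 : k176.all (jb2 57 fl b0) = true := by decide +kernel
noncomputable def k177 : KT := (.br (Nat.shiftLeft (nat_lit 0x400500700a017) (nat_lit 64)) (.one (nat_lit 0x400500700a016800a00e01402c650)) (.br (Nat.shiftLeft (nat_lit 0x2003) (nat_lit 101)) (.one (nat_lit 0x400500700a017800a00e01402e650)) (.one (nat_lit 0x400600700a016800c00e01402c650))))
def t177 : k177.all (jb2 57 fl b0) = true := by decide +kernel
noncomputable def k178 : KT := (.br (Nat.shiftLeft (nat_lit 0x7) (nat_lit 112)) (.br (Nat.shiftLeft (nat_lit 0x1401) (nat_lit 102)) (.br (Nat.shiftLeft (nat_lit 0x5) (nat_lit 112)) (.one (nat_lit 0x400600700a017800c00e01402e650)) (.br (Nat.shiftLeft (nat_lit 0x500000700a017) (nat_lit 64)) (.one (nat_lit 0x500000700a016a00000e01402c411)) (.one (nat_lit 0x500000700a017a00000e01402e411)))) (.br (Nat.shiftLeft (nat_lit 0x3) (nat_lit 113)) (.br (Nat.shiftLeft (nat_lit 0x500600700a017) (nat_lit 64)) (.one (nat_lit 0x500600700a016a00c00e01402c650)) (.one (nat_lit 0x500600700a017a00c00e01402e650))) (.br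 (Nat.shiftLeft (nat_lit 0x600000700a017) (nat_lit 64)) (.one (nat_lit 0x600000700a016c00000e01402c411)) (.one (nat_lit 0x600000700a017c00000e01402e411))))) (.br (Nat.shiftLeft (nat_lit 0x800000700a017) (nat_lit 64)) (.br (Nat.shiftLeft (nat_lit 0x700000700a017) (nat_lit 64)) (.one (nat_lit 0x700000700a016e00000e01402c411)) (.br (Nat.shiftLeft (nat_lit 0x1) (nat_lit 115)) (.one (nat_lit 0x700000700a017e00000e01402e411)) (.one (nat_lit 0x800000700a016000000e01412e411)))) (.br (Nat.shiftLeft (nat_lit 0x900000700a017) (nat_lit 64)) (.br (Nat.shiftLeft (nat_lit 0x9) (nat_lit 112)) (.one (nat_lit 0x800000700a017000000e014130411)) (.one (nat_lit 0x900000700a016200000e01412e411))) (.br (Nat.shiftLeft (nat_lit 0x5) (nat_lit 113)) (.one (nat_lit 0x900000700a017200000e014130411)) (.one (nat_lit 0xa00000700a016400000e01412e411))))))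
def t178 : k178.all (jb2 57 fl b0) = true := by decide +kernel
noncomputable def k179 : KT := (.br (Nat.shiftLeft (nat_lit 0x200000600700a017) (nat_lit 64)) (.br (Nat.shiftLeft (nat_lit 0x100000600700a017) (nat_lit 64)) (.br (Nat.shiftLeft (nat_lit 0x400001) (nat_lit 102)) (.br (Nat.shiftLeft (nat_lit 0x100000200700a017) (nat_lit 64)) (.br (Nat.shiftLeft (nat_lit 0x1) (nat_lit 124)) (.one (nat_lit 0xa00000700a017400000e014130411)) (.one (nat_lit 0x100000200700a016000400e03442c511))) (.br (Nat.shiftLeft (nat_lit 0x1000003) (nat_lit 100)) (.one (nat_lit 0x100000200700a017000400e03442e511)) (.br (Nat.shiftLeft (nat_lit 0x100000300700a017) (nat_lit 64)) (.one (nat_lit 0x100000300700a016000600e03442c511)) (.one (nat_lit 0x100000300700a017000600e03442e511))))) (.br (Nat.shiftLeft (nat_lit 0x1000005) (nat_lit 100)) (.br (Nat.shiftLeft (nat_lit 0x100000400700a017) (nat_lit 64)) (.one (nat_lit 0x100000400700a016000800e03442c511)) (.one (nat_lit 0x100000400700a017000800e03442e511))) (.br (Nat.shiftLeft (nat_lit 0x100000500700a017)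 (nat_lit 64)) (.one (nat_lit 0x100000500700a016000a00e03442c511)) (.br (Nat.shiftLeft (nat_lit 0x800003) (nat_lit 101)) (.one (nat_lit 0x100000500700a017000a00e03442e511)) (.one (nat_lit 0x100000600700a016000c00e03442c511)))))) (.br (Nat.shiftLeft (nat_lit 0x800001) (nat_lit 102)) (.br (Nat.shiftLeft (nat_lit 0x200000200700a017) (nat_lit 64)) (.br (Nat.shiftLeft (nat_lit 0x1) (nat_lit 125)) (.one (nat_lit 0x100000600700a017000c00e03442e511)) (.one (nat_lit 0x200000200700a016000400e05482c511))) (.br (Nat.shiftLeft (nat_lit 0x2000003) (nat_lit 100)) (.one (nat_lit 0x200000200700a017000400e05482e511)) (.br (Nat.shiftLeft (nat_lit 0x200000300700a017) (nat_lit 64)) (.one (nat_lit 0x200000300700a016000600e05482c511)) (.one (nat_lit 0x200000300700a017000600e05482e511))))) (.br (Nat.shiftLeft (nat_lit 0x2000005) (nat_lit 100)) (.br (Nat.shiftLeft (nat_lit 0x200000400700a017) (nat_lit 64)) (.one (nat_lit 0x200000400700a016000800e05482c511)) (.one (nat_lit 0x200000400700a017000800e05482e511))) (.br (Nat.shiftLeft (nat_lit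 0x200000500700a017) (nat_lit 64)) (.one (nat_lit 0x200000500700a016000a00e05482c511)) (.br (Nat.shiftLeft (nat_lit 0x1000003) (nat_lit 101)) (.one (nat_lit 0x200000500700a017000a00e05482e511)) (.one (nat_lit 0x200000600700a016000c00e05482c511))))))) (.br (Nat.shiftLeft (nat_lit 0x300000600700a017) (nat_lit 64)) (.br (Nat.shiftLeft (nat_lit 0xc00001) (nat_lit 102)) (.br (Nat.shiftLeft (nat_lit 0x300000200700a017) (nat_lit 64)) (.br (Nat.shiftLeft (nat_lit 0x3) (nat_lit 124)) (.one (nat_lit 0x200000600700a017000c00e05482e511)) (.one (nat_lit 0x300000200700a016000400e074c2c511))) (.br (Nat.shiftLeft (nat_lit 0x3000003) (nat_lit 100)) (.one (nat_lit 0x300000200700a017000400e074c2e511)) (.br (Nat.shiftLeft (nat_lit 0x300000300700a017) (nat_lit 64)) (.one (nat_lit 0x300000300700a016000600e074c2c511)) (.one (nat_lit 0x300000300700a017000600e074c2e511))))) (.br (Nat.shiftLeft (nat_lit 0x3000005) (nat_lit 100)) (.br (Nat.shiftLeft (nat_lit 0x300000400700a017) (nat_lit 64)) (.one (nat_lit 0x300000400700a016000800e074c2c511))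 (.one (nat_lit 0x300000400700a017000800e074c2e511))) (.br (Nat.shiftLeft (nat_lit 0x300000500700a017) (nat_lit 64)) (.one (nat_lit 0x300000500700a016000a00e074c2c511)) (.br (Nat.shiftLeft (nat_lit 0x1800003) (nat_lit 101)) (.one (nat_lit 0x300000500700a017000a00e074c2e511)) (.one (nat_lit 0x300000600700a016000c00e074c2c511)))))) (.br (Nat.shiftLeft (nat_lit 0x1000001) (nat_lit 102)) (.br (Nat.shiftLeft (nat_lit 0x400000200700a017) (nat_lit 64)) (.br (Nat.shiftLeft (nat_lit 0x1) (nat_lit 126)) (.one (nat_lit 0x300000600700a017000c00e074c2e511)) (.one (nat_lit 0x400000200700a016000400e09502c511))) (.br (Nat.shiftLeft (nat_lit 0x4000003) (nat_lit 100)) (.one (nat_lit 0x400000200700a017000400e09502e511)) (.br (Nat.shiftLeft (nat_lit 0x400000300700a017) (nat_lit 64)) (.one (nat_lit 0x400000300700a016000600e09502c511)) (.one (nat_lit 0x400000300700a017000600e09502e511))))) (.br (Nat.shiftLeft (nat_lit 0x4000005) (nat_lit 100)) (.br (Nat.shiftLeft (nat_lit 0x400000400700a017) (nat_lit 64)) (.one (nat_lit 0x400000400700a016000800e09502c511))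 (.one (nat_lit 0x400000400700a017000800e09502e511))) (.br (Nat.shiftLeft (nat_lit 0x400000500700a017) (nat_lit 64)) (.one (nat_lit 0x400000500700a016000a00e09502c511)) (.br (Nat.shiftLeft (nat_lit 0x2000003) (nat_lit 101)) (.one (nat_lit 0x400000500700a017000a00e09502e511)) (.one (nat_lit 0x400000600700a016000c00e09502c511))))))))
def t179 : k179.all (jb2 57 fl b0) = true := by decide +kernel
noncomputable def k180 : KT := (.br (Nat.shiftLeft (nat_lit 0x1400001) (nat_lit 102)) (.br (Nat.shiftLeft (nat_lit 0x500000200700a017) (nat_lit 64)) (.br (Nat.shiftLeft (nat_lit 0x5) (nat_lit 124)) (.one (nat_lit 0x400000600700a017000c00e09502e511)) (.one (nat_lit 0x500000200700a016000400e0b542c511))) (.br (Nat.shiftLeft (nat_lit 0x5000003) (nat_lit 100)) (.one (nat_lit 0x500000200700a017000400e0b542e511)) (.br (Nat.shiftLeft (nat_lit 0x500000300700a017) (nat_lit 64)) (.one (nat_lit 0x500000300700a016000600e0b542c511)) (.one (nat_lit 0x500000300700a017000600e0b542e511))))) (.br (Nat.shiftLeft (nat_lit 0x500000500700a017)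 (nat_lit 64)) (.br (Nat.shiftLeft (nat_lit 0x500000400700a017) (nat_lit 64)) (.one (nat_lit 0x500000400700a016000800e0b542c511)) (.br (Nat.shiftLeft (nat_lit 0x5000005) (nat_lit 100)) (.one (nat_lit 0x500000400700a017000800e0b542e511)) (.one (nat_lit 0x500000500700a016000a00e0b542c511)))) (.br (Nat.shiftLeft (nat_lit 0x2800003) (nat_lit 101)) (.one (nat_lit 0x500000500700a017000a00e0b542e511)) (.br (Nat.shiftLeft (nat_lit 0x500000600700a017) (nat_lit 64)) (.one (nat_lit 0x500000600700a016000c00e0b542c511)) (.one (nat_lit 0x500000600700a017000c00e0b542e511))))))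
def t180 : k180.all (jb2 57 fl b0) = true := by decide +kernel
noncomputable def k181 : KT := (.br (Nat.shiftLeft (nat_lit 0x600000400700a017) (nat_lit 64)) (.br (Nat.shiftLeft (nat_lit 0x6000003) (nat_lit 100)) (.br (Nat.shiftLeft (nat_lit 0x600000200700a017) (nat_lit 64)) (.one (nat_lit 0x600000200700a016000400e0d582c511)) (.one (nat_lit 0x600000200700a017000400e0d582e511))) (.br (Nat.shiftLeft (nat_lit 0x600000300700a017) (nat_lit 64)) (.one (nat_lit 0x600000300700a016000600e0d582c511)) (.br (Nat.shiftLeft (nat_lit 0x1800001) (nat_lit 102)) (.one (nat_lit 0x600000300700a017000600e0d582e511)) (.one (nat_lit 0x600000400700a016000800e0d582c511))))) (.br (Nat.shiftLeft (nat_lit 0x600000500700a017) (nat_lit 64)) (.br (Nat.shiftLeft (nat_lit 0x6000005) (nat_lit 100)) (.one (nat_lit 0x600000400700a017000800e0d582e511)) (.one (nat_lit 0x600000500700a016000a00e0d582c511))) (.br (Nat.shiftLeft (nat_lit 0x3000003) (nat_lit 101)) (.one (nat_lit 0x600000500700a017000a00e0d582e511)) (.br (Nat.shiftLeft (nat_lit 0x600000600700a017)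 (nat_lit 64)) (.one (nat_lit 0x600000600700a016000c00e0d582c511)) (.one (nat_lit 0x600000600700a017000c00e0d582e511))))))
def t181 : k181.all (jb2 57 fl b0) = true := by decide +kernel
noncomputable def k182 : KT := (.br (Nat.shiftLeft (nat_lit 0x7000005) (nat_lit 100)) (.br (Nat.shiftLeft (nat_lit 0x700000300700a017) (nat_lit 64)) (.br (Nat.shiftLeft (nat_lit 0x700000200700a017) (nat_lit 64)) (.one (nat_lit 0x700000200700a016000400e0f5c2c511)) (.br (Nat.shiftLeft (nat_lit 0x7000003) (nat_lit 100)) (.one (nat_lit 0x700000200700a017000400e0f5c2e511)) (.one (nat_lit 0x700000300700a016000600e0f5c2c511)))) (.br (Nat.shiftLeft (nat_lit 0x1c00001) (nat_lit 102)) (.one (nat_lit 0x700000300700a017000600e0f5c2e511)) (.br (Nat.shiftLeft (nat_lit 0x700000400700a017) (nat_lit 64)) (.one (nat_lit 0x700000400700a016000800e0f5c2c511)) (.one (nat_lit 0x700000400700a017000800e0f5c2e511))))) (.br (Nat.shiftLeft (nat_lit 0x700000600700a017) (nat_lit 64)) (.br (Nat.shiftLeft (nat_lit 0x700000500700a017) (nat_lit 64)) (.one (nat_lit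 0x700000500700a016000a00e0f5c2c511)) (.br (Nat.shiftLeft (nat_lit 0x3800003) (nat_lit 101)) (.one (nat_lit 0x700000500700a017000a00e0f5c2e511)) (.one (nat_lit 0x700000600700a016000c00e0f5c2c511)))) (.br (Nat.shiftLeft (nat_lit 0x1) (nat_lit 127)) (.one (nat_lit 0x700000600700a017000c00e0f5c2e511)) (.br (Nat.shiftLeft (nat_lit 0x800000200700a017) (nat_lit 64)) (.one (nat_lit 0x800000200700a016000400e11602c511)) (.one (nat_lit 0x800000200700a017000400e11602e511))))))
def t182 : k182.all (jb2 57 fl b0) = true := by decide +kernel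
noncomputable def k183 : KT := (.br (Nat.shiftLeft (nat_lit 0x9000005) (nat_lit 100)) (.br (Nat.shiftLeft (nat_lit 0x800000600700a017) (nat_lit 64)) (.br (Nat.shiftLeft (nat_lit 0x800000400700a017) (nat_lit 64)) (.br (Nat.shiftLeft (nat_lit 0x800000300700a017) (nat_lit 64)) (.one (nat_lit 0x800000300700a016000600e11602c511)) (.br (Nat.shiftLeft (nat_lit 0x2000001) (nat_lit 102)) (.one (nat_lit 0x800000300700a017000600e11602e511)) (.one (nat_lit 0x800000400700a016000800e11602c511)))) (.br (Nat.shiftLeft (nat_lit 0x800000500700a017) (nat_lit 64)) (.br (Nat.shiftLeft (nat_lit 0x8000005) (nat_lit 100)) (.one (nat_lit 0x800000400700a017000800e11602e511)) (.one (nat_lit 0x800000500700a016000a00e11602c511))) (.br (Nat.shiftLeft (nat_lit 0x4000003) (nat_lit 101)) (.one (nat_lit 0x800000500700a017000a00e11602e511)) (.one (nat_lit 0x800000600700a016000c00e11602c511))))) (.br (Nat.shiftLeft (nat_lit 0x9000003) (nat_lit 100)) (.br (Nat.shiftLeft (nat_lit 0x9) (nat_lit 124)) (.one (nat_lit 0x800000600700a017000c00e11602e511))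 (.br (Nat.shiftLeft (nat_lit 0x900000200700a017) (nat_lit 64)) (.one (nat_lit 0x900000200700a016000400e13642c511)) (.one (nat_lit 0x900000200700a017000400e13642e511)))) (.br (Nat.shiftLeft (nat_lit 0x2400001) (nat_lit 102)) (.br (Nat.shiftLeft (nat_lit 0x900000300700a017) (nat_lit 64)) (.one (nat_lit 0x900000300700a016000600e13642c511)) (.one (nat_lit 0x900000300700a017000600e13642e511))) (.br (Nat.shiftLeft (nat_lit 0x900000400700a017) (nat_lit 64)) (.one (nat_lit 0x900000400700a016000800e13642c511)) (.one (nat_lit 0x900000400700a017000800e13642e511)))))) (.br (Nat.shiftLeft (nat_lit 0xa00000300700a017) (nat_lit 64)) (.br (Nat.shiftLeft (nat_lit 0x900000600700a017) (nat_lit 64)) (.br (Nat.shiftLeft (nat_lit 0x900000500700a017) (nat_lit 64)) (.one (nat_lit 0x900000500700a016000a00e13642c511)) (.br (Nat.shiftLeft (nat_lit 0x4800003) (nat_lit 101)) (.one (nat_lit 0x900000500700a017000a00e13642e511)) (.one (nat_lit 0x900000600700a016000c00e13642c511)))) (.br (Nat.shiftLeft (nat_lit 0xa00000200700a017) (nat_lit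 64)) (.br (Nat.shiftLeft (nat_lit 0x5) (nat_lit 125)) (.one (nat_lit 0x900000600700a017000c00e13642e511)) (.one (nat_lit 0xa00000200700a016000400e15682c511))) (.br (Nat.shiftLeft (nat_lit 0xa000003) (nat_lit 100)) (.one (nat_lit 0xa00000200700a017000400e15682e511)) (.one (nat_lit 0xa00000300700a016000600e15682c511))))) (.br (Nat.shiftLeft (nat_lit 0xa000005) (nat_lit 100)) (.br (Nat.shiftLeft (nat_lit 0x2800001) (nat_lit 102)) (.one (nat_lit 0xa00000300700a017000600e15682e511)) (.br (Nat.shiftLeft (nat_lit 0xa00000400700a017) (nat_lit 64)) (.one (nat_lit 0xa00000400700a016000800e15682c511)) (.one (nat_lit 0xa00000400700a017000800e15682e511)))) (.br (Nat.shiftLeft (nat_lit 0x5000003) (nat_lit 101)) (.br (Nat.shiftLeft (nat_lit 0xa00000500700a017) (nat_lit 64)) (.one (nat_lit 0xa00000500700a016000a00e15682c511)) (.one (nat_lit 0xa00000500700a017000a00e15682e511))) (.br (Nat.shiftLeft (nat_lit 0xa00000600700a017) (nat_lit 64)) (.one (nat_lit 0xa00000600700a016000c00e15682c511)) (.one (nat_lit 0xa00000600700a017000c00e15682e511)))))))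
def t183 : k183.all (jb2 57 fl b0) = true := by decide +kernel
noncomputable def s9 : KT := (.br (nat_lit 0x200400700a017400800e01402e650) (.br (nat_lit 0x100300700a016200600e01402c650) (.br (nat_lit 0x100000700a017200000e01402e411) (.br (nat_lit 0x100700a016000200e01402c540) k162 k163) (.br (nat_lit 0x100200700a016200400e01402c650) k164 (.br (nat_lit 0x100200700a017200400e01402e650) k165 k166))) (.br (nat_lit 0x200000700a017400000e01402e411) (.br (nat_lit 0x100400700a016200800e01402c650) k167 (.br (nat_lit 0x100500700a017200a00e01402e650) k168 k169)) (.br (nat_lit 0x200300700a016400600e01402c650) k170 (.br (nat_lit 0x200300700a017400600e01402e650) k171 k172)))) (.br (nat_lit 0x400600700a016800c00e01402c650) (.br (nat_lit 0x300400700a016600800e01402c650) (.br (nat_lit 0x200600700a016400c00e01402c650) k173 k174) (.br (nat_lit 0x300500700a016600a00e01402c650) k175 (.br (nat_lit 0x400000700a017800000e01402e411) k176 k177))) (.br (nat_lit 0x500000600700a017000c00e0b542e511) (.br (nat_lit 0xa00000700a016400000e01412e411)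 k178 (.br (nat_lit 0x400000600700a016000c00e09502c511) k179 k180)) (.br (nat_lit 0x600000600700a017000c00e0d582e511) k181 (.br (nat_lit 0x800000200700a017000400e11602e511) k182 k183)))))
noncomputable def u9 : KT := (.br (Nat.shiftLeft (nat_lit 0x700a017) (nat_lit 64)) (.one (nat_lit 0x700a016000000e01402c430)) (.one (nat_lit 0x700a017000000e01402e430)))
def w9 : u9.all (wj 57 s9) = true := by decide +kernel
def o9 : OkW 57 (jb2 57 fl) u9 := .lift s9 _ (.br _ _ _ (.br _ _ _ (.br _ _ _ (.br _ _ _ (.leaf b0 k162 t162) (.leaf b0 k163 t163)) (.br _ _ _ (.leaf b0 k164 t164) (.br _ _ _ (.leaf b0 k165 t165) (.leaf b0 k166 t166)))) (.br _ _ _ (.br _ _ _ (.leaf b0 k167 t167) (.br _ _ _ (.leaf b0 k168 t168) (.leaf b0 k169 t169))) (.br _ _ _ (.leaf b0 k170 t170) (.br _ _ _ (.leaf b0 k171 t171) (.leaf b0 k172 t172))))) (.br _ _ _ (.br _ _ _ (.br _ _ _ (.leaf b0 k173 t173) (.leaf b0 k174 t174)) (.br _ _ _ (.leaf b0 k175 t175) (.br _ _ _ (.leaf b0 k176 t176) (.leaf b0 k177 t177)))) (.br _ _ _ (.br _ _ _ (.leaf b0 k178 t178)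 (.br _ _ _ (.leaf b0 k179 t179) (.leaf b0 k180 t180))) (.br _ _ _ (.leaf b0 k181 t181) (.br _ _ _ (.leaf b0 k182 t182) (.leaf b0 k183 t183)))))) w9
noncomputable def k184 : KT := (.br (Nat.shiftLeft (nat_lit 0x700b01) (nat_lit 68)) (.br (Nat.shiftLeft (nat_lit 0x700b) (nat_lit 76)) (.br (Nat.shiftLeft (nat_lit 0x700a019) (nat_lit 64)) (.one (nat_lit 0x700a018000000e014031400)) (.one (nat_lit 0x700a019000000e014033400))) (.br (Nat.shiftLeft (nat_lit 0x700b00f) (nat_lit 64)) (.one (nat_lit 0x700b00e000000e01601d400)) (.one (nat_lit 0x700b00f000000e01601f400)))) (.br (Nat.shiftLeft (nat_lit 0x3805809) (nat_lit 65)) (.br (Nat.shiftLeft (nat_lit 0x700b011) (nat_lit 64)) (.one (nat_lit 0x700b010000000e016021400)) (.one (nat_lit 0x700b011000000e016023400))) (.br (Nat.shiftLeft (nat_lit 0x1) (nat_lit 100)) (.one (nat_lit 0x700b012000000e016025400)) (.br (Nat.shiftLeft (nat_lit 0x100700a019) (nat_lit 64)) (.one (nat_lit 0x100700a018000200e014030540)) (.one (nat_lit 0x100700a019000200e014032540))))))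
def t184 : k184.all (jb2 57 fl b0) = true := by decide +kernel
noncomputable def k185 : KT := (.one (nat_lit 0x200700a018000400e014030540))
def t185 : k185.all (jb2 57 fl b0) = true := by decide +kernel
noncomputable def k186 : KT := (.br (Nat.shiftLeft (nat_lit 0x3) (nat_lit 100)) (.one (nat_lit 0x200700a019000400e014032540)) (.one (nat_lit 0x300700a018000600e014031500)))
def t186 : k186.all (jb2 57 fl b0) = true := by decide +kernel
noncomputable def k187 : KT := (.br (Nat.shiftLeft (nat_lit 0x1) (nat_lit 102)) (.one (nat_lit 0x300700a019000600e014032540)) (.one (nat_lit 0x400700a018000800e014031500)))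
def t187 : k187.all (jb2 57 fl b0) = true := by decide +kernel
noncomputable def k188 : KT := (.one (nat_lit 0x400700a019000800e014032540))
def t188 : k188.all (jb2 57 fl b0) = true := by decide +kernel
noncomputable def k189 : KT := (.one (nat_lit 0x500700a018000a00e014030540))
def t189 : k189.all (jb2 57 fl b0) = true := by decide +kernel
noncomputable def k190 : KT := (.one (nat_lit 0x500700a019000a00e014032540))
def t190 : k190.all (jb2 57 fl b0) = true := by decide +kernel
noncomputable def k191 : KT := (.one (nat_lit 0x600700a018000c00e014030540))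
def t191 : k191.all (jb2 57 fl b0) = true := by decide +kernel
noncomputable def k192 : KT := (.br (Nat.shiftLeft (nat_lit 0x801) (nat_lit 101)) (.br (Nat.shiftLeft (nat_lit 0x1) (nat_lit 112)) (.one (nat_lit 0x600700a019000c00e014032540)) (.br (Nat.shiftLeft (nat_lit 0x100000700a019) (nat_lit 64)) (.one (nat_lit 0x100000700a018200000e014030411)) (.one (nat_lit 0x100000700a019200000e014032411)))) (.br (Nat.shiftLeft (nat_lit 0x1) (nat_lit 113)) (.br (Nat.shiftLeft (nat_lit 0x401) (nat_lit 102)) (.one (nat_lit 0x100300700a018200600e014030650)) (.one (nat_lit 0x100400700a018200800e014030650))) (.br (Nat.shiftLeft (nat_lit 0x200000700a019) (nat_lit 64)) (.one (nat_lit 0x200000700a018400000e014030411)) (.one (nat_lit 0x200000700a019400000e014032411)))))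
def t192 : k192.all (jb2 57 fl b0) = true := by decide +kernel
noncomputable def k193 : KT := (.br (Nat.shiftLeft (nat_lit 0x300000700a019) (nat_lit 64)) (.br (Nat.shiftLeft (nat_lit 0x801) (nat_lit 102)) (.one (nat_lit 0x200300700a018400600e014030650)) (.br (Nat.shiftLeft (nat_lit 0x3) (nat_lit 112)) (.one (nat_lit 0x200400700a018400800e014030650)) (.one (nat_lit 0x300000700a018600000e014030411)))) (.br (Nat.shiftLeft (nat_lit 0x1) (nat_lit 114)) (.br (Nat.shiftLeft (nat_lit 0xc01) (nat_lit 102)) (.one (nat_lit 0x300000700a019600000e014032411)) (.one (nat_lit 0x300400700a018600800e014030650))) (.br (Nat.shiftLeft (nat_lit 0x400000700a019) (nat_lit 64)) (.one (nat_lit 0x400000700a018800000e014030411)) (.one (nat_lit 0x400000700a019800000e014032411)))))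
def t193 : k193.all (jb2 57 fl b0) = true := by decide +kernel
noncomputable def k194 : KT := (.br (Nat.shiftLeft (nat_lit 0x400001) (nat_lit 102)) (.br (Nat.shiftLeft (nat_lit 0x1) (nat_lit 115)) (.br (Nat.shiftLeft (nat_lit 0x600000700a019) (nat_lit 64)) (.br (Nat.shiftLeft (nat_lit 0x500000700a019) (nat_lit 64)) (.one (nat_lit 0x500000700a018a00000e014030411)) (.br (Nat.shiftLeft (nat_lit 0x3) (nat_lit 113)) (.one (nat_lit 0x500000700a019a00000e014032411)) (.one (nat_lit 0x600000700a018c00000e014030411)))) (.br (Nat.shiftLeft (nat_lit 0x7) (nat_lit 112)) (.one (nat_lit 0x600000700a019c00000e014032411)) (.br (Nat.shiftLeft (nat_lit 0x700000700a019) (nat_lit 64)) (.one (nat_lit 0x700000700a018e00000e014030411)) (.one (nat_lit 0x700000700a019e00000e014032411))))) (.br (Nat.shiftLeft (nat_lit 0x900000700a019) (nat_lit 64)) (.br (Nat.shiftLeft (nat_lit 0x800000700a019) (nat_lit 64)) (.one (nat_lit 0x800000700a018000000e014132411)) (.br (Nat.shiftLeft (nat_lit 0x9) (nat_lit 112)) (.one (nat_lit 0x800000700a019000000e014134411))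 (.one (nat_lit 0x900000700a018200000e014132411)))) (.br (Nat.shiftLeft (nat_lit 0xa00000700a019) (nat_lit 64)) (.br (Nat.shiftLeft (nat_lit 0x5) (nat_lit 113)) (.one (nat_lit 0x900000700a019200000e014134411)) (.one (nat_lit 0xa00000700a018400000e014132411))) (.br (Nat.shiftLeft (nat_lit 0x1) (nat_lit 124)) (.one (nat_lit 0xa00000700a019400000e014134411)) (.one (nat_lit 0x100000300700a018000600e034430511)))))) (.br (Nat.shiftLeft (nat_lit 0x1000001) (nat_lit 102)) (.br (Nat.shiftLeft (nat_lit 0x3) (nat_lit 124)) (.br (Nat.shiftLeft (nat_lit 0x1) (nat_lit 125)) (.one (nat_lit 0x100000400700a018000800e034430511)) (.br (Nat.shiftLeft (nat_lit 0x800001) (nat_lit 102)) (.one (nat_lit 0x200000300700a018000600e054830511)) (.one (nat_lit 0x200000400700a018000800e054830511)))) (.br (Nat.shiftLeft (nat_lit 0xc00001) (nat_lit 102)) (.one (nat_lit 0x300000300700a018000600e074c30511)) (.br (Nat.shiftLeft (nat_lit 0x1) (nat_lit 126)) (.one (nat_lit 0x300000400700a018000800e074c30511)) (.one (nat_lit 0x400000300700a018000600e095030511)))))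 (.br (Nat.shiftLeft (nat_lit 0x3) (nat_lit 125)) (.br (Nat.shiftLeft (nat_lit 0x5) (nat_lit 124)) (.one (nat_lit 0x400000400700a018000800e095030511)) (.br (Nat.shiftLeft (nat_lit 0x1400001) (nat_lit 102)) (.one (nat_lit 0x500000300700a018000600e0b5430511)) (.one (nat_lit 0x500000400700a018000800e0b5430511)))) (.br (Nat.shiftLeft (nat_lit 0x7) (nat_lit 124)) (.br (Nat.shiftLeft (nat_lit 0x1800001) (nat_lit 102)) (.one (nat_lit 0x600000300700a018000600e0d5830511)) (.one (nat_lit 0x600000400700a018000800e0d5830511))) (.br (Nat.shiftLeft (nat_lit 0x1c00001) (nat_lit 102)) (.one (nat_lit 0x700000300700a018000600e0f5c30511)) (.one (nat_lit 0x700000400700a018000800e0f5c30511)))))))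
def t194 : k194.all (jb2 57 fl b0) = true := by decide +kernel
noncomputable def k195 : KT := (.br (Nat.shiftLeft (nat_lit 0x2400001) (nat_lit 102)) (.br (Nat.shiftLeft (nat_lit 0x2000001) (nat_lit 102)) (.one (nat_lit 0x800000300700a018000600e116030511)) (.br (Nat.shiftLeft (nat_lit 0x9) (nat_lit 124)) (.one (nat_lit 0x800000400700a018000800e116030511)) (.one (nat_lit 0x900000300700a018000600e136430511)))) (.br (Nat.shiftLeft (nat_lit 0x5) (nat_lit 125)) (.one (nat_lit 0x900000400700a018000800e136430511)) (.br (Nat.shiftLeft (nat_lit 0x2800001) (nat_lit 102)) (.one (nat_lit 0xa00000300700a018000600e156830511)) (.one (nat_lit 0xa00000400700a018000800e156830511)))))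
def t195 : k195.all (jb2 57 fl b0) = true := by decide +kernel
noncomputable def s10 : KT := (.br (nat_lit 0x500700a018000a00e014030540) (.br (nat_lit 0x300700a018000600e014031500) (.br (nat_lit 0x100700a019000200e014032540) k184 (.br (nat_lit 0x200700a018000400e014030540) k185 k186)) (.br (nat_lit 0x400700a018000800e014031500) k187 (.br (nat_lit 0x400700a019000800e014032540) k188 k189))) (.br (nat_lit 0x200000700a019400000e014032411) (.br (nat_lit 0x500700a019000a00e014032540) k190 (.br (nat_lit 0x600700a018000c00e014030540) k191 k192)) (.br (nat_lit 0x400000700a019800000e014032411) k193 (.br (nat_lit 0x700000400700a018000800e0f5c30511) k194 k195))))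
noncomputable def u10 : KT := (.br (Nat.shiftLeft (nat_lit 0x700b00f) (nat_lit 64)) (.br (Nat.shiftLeft (nat_lit 0x700a019) (nat_lit 64)) (.one (nat_lit 0x700a018000000e014030430)) (.br (Nat.shiftLeft (nat_lit 0x700b) (nat_lit 76)) (.one (nat_lit 0x700a019000000e014032430)) (.one (nat_lit 0x700b00e000000e01601d400)))) (.br (Nat.shiftLeft (nat_lit 0x700b011) (nat_lit 64)) (.br (Nat.shiftLeft (nat_lit 0x700b01) (nat_lit 68)) (.one (nat_lit 0x700b00f000000e01601f400)) (.one (nat_lit 0x700b010000000e016021400))) (.br (Nat.shiftLeft (nat_lit 0x3805809) (nat_lit 65)) (.one (nat_lit 0x700b011000000e016023400)) (.one (nat_lit 0x700b012000000e016025400)))))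
def w10 : u10.all (wj 57 s10) = true := by decide +kernel
def o10 : OkW 57 (jb2 57 fl) u10 := .lift s10 _ (.br _ _ _ (.br _ _ _ (.br _ _ _ (.leaf b0 k184 t184) (.br _ _ _ (.leaf b0 k185 t185) (.leaf b0 k186 t186))) (.br _ _ _ (.leaf b0 k187 t187) (.br _ _ _ (.leaf b0 k188 t188) (.leaf b0 k189 t189)))) (.br _ _ _ (.br _ _ _ (.leaf b0 k190 t190) (.br _ _ _ (.leaf b0 k191 t191) (.leaf b0 k192 t192))) (.br _ _ _ (.leaf b0 k193 t193) (.br _ _ _ (.leaf b0 k194 t194) (.leaf b0 k195 t195))))) w10
noncomputable def k196 : KT := (.br (Nat.shiftLeft (nat_lit 0x5) (nat_lit 100)) (.br (Nat.shiftLeft (nat_lit 0x1) (nat_lit 101)) (.br (Nat.shiftLeft (nat_lit 0x1) (nat_lit 100)) (.one (nat_lit 0x700b013000000e016027400)) (.one (nat_lit 0x100700b013000200e016027500))) (.br (Nat.shiftLeft (nat_lit 0x3) (nat_lit 100)) (.one (nat_lit 0x200700b013000400e016027500)) (.br (Nat.shiftLeft (nat_lit 0x1) (nat_lit 102)) (.one (nat_lit 0x300700b013000600e016027500)) (.one (nat_lit 0x400700b013000800e016027500))))) (.br (Nat.shiftLeft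 (nat_lit 0x801) (nat_lit 101)) (.br (Nat.shiftLeft (nat_lit 0x3) (nat_lit 101)) (.one (nat_lit 0x500700b013000a00e016027500)) (.br (Nat.shiftLeft (nat_lit 0x1) (nat_lit 112)) (.one (nat_lit 0x600700b013000c00e016027500)) (.one (nat_lit 0x100000700b013200000e016026411)))) (.br (Nat.shiftLeft (nat_lit 0x1003) (nat_lit 100)) (.one (nat_lit 0x100200700b013200400e016027600)) (.br (Nat.shiftLeft (nat_lit 0x401) (nat_lit 102)) (.one (nat_lit 0x100300700b013200600e016027600)) (.one (nat_lit 0x100400700b013200800e016026650))))))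
def t196 : k196.all (jb2 57 fl b0) = true := by decide +kernel
noncomputable def k197 : KT := (.one (nat_lit 0x100500700b013200a00e016026650))
def t197 : k197.all (jb2 57 fl b0) = true := by decide +kernel
noncomputable def k198 : KT := (.br (Nat.shiftLeft (nat_lit 0x1001) (nat_lit 101)) (.br (Nat.shiftLeft (nat_lit 0x1) (nat_lit 113)) (.one (nat_lit 0x100600700b013200c00e016026650)) (.one (nat_lit 0x200000700b013400000e016026411))) (.br (Nat.shiftLeft (nat_lit 0x801) (nat_lit 102)) (.one (nat_lit 0x200300700b013400600e016027600)) (.one (nat_lit 0x200400700b013400800e016027600))))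
def t198 : k198.all (jb2 57 fl b0) = true := by decide +kernel
noncomputable def k199 : KT := (.one (nat_lit 0x200500700b013400a00e016026650))
def t199 : k199.all (jb2 57 fl b0) = true := by decide +kernel
noncomputable def k200 : KT := (.br (Nat.shiftLeft (nat_lit 0x3) (nat_lit 112)) (.one (nat_lit 0x200600700b013400c00e016026650)) (.br (Nat.shiftLeft (nat_lit 0xc01) (nat_lit 102)) (.one (nat_lit 0x300000700b013600000e016026411)) (.one (nat_lit 0x300400700b013600800e016027600))))
def t200 : k200.all (jb2 57 fl b0) = true := by decide +kernel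
noncomputable def k201 : KT := (.one (nat_lit 0x300500700b013600a00e016026650))
def t201 : k201.all (jb2 57 fl b0) = true := by decide +kernel
noncomputable def k202 : KT := (.br (Nat.shiftLeft (nat_lit 0x1) (nat_lit 114)) (.one (nat_lit 0x300600700b013600c00e016026650)) (.one (nat_lit 0x400000700b013800000e016026411)))
def t202 : k202.all (jb2 57 fl b0) = true := by decide +kernel
noncomputable def k203 : KT := (.one (nat_lit 0x400500700b013800a00e016026650))
def t203 : k203.all (jb2 57 fl b0) = true := by decide +kernel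
noncomputable def k204 : KT := (.br (Nat.shiftLeft (nat_lit 0x5) (nat_lit 112)) (.one (nat_lit 0x400600700b013800c00e016026650)) (.br (Nat.shiftLeft (nat_lit 0x1401) (nat_lit 102)) (.one (nat_lit 0x500000700b013a00000e016026411)) (.one (nat_lit 0x500600700b013a00c00e016026650))))
def t204 : k204.all (jb2 57 fl b0) = true := by decide +kernel
noncomputable def k205 : KT := (.br (Nat.shiftLeft (nat_lit 0x1) (nat_lit 124)) (.br (Nat.shiftLeft (nat_lit 0x9) (nat_lit 112)) (.br (Nat.shiftLeft (nat_lit 0x7) (nat_lit 112)) (.one (nat_lit 0x600000700b013c00000e016026411)) (.br (Nat.shiftLeft (nat_lit 0x1) (nat_lit 115)) (.one (nat_lit 0x700000700b013e00000e016026411)) (.one (nat_lit 0x800000700b013000000e016128411)))) (.br (Nat.shiftLeft (nat_lit 0x5) (nat_lit 113)) (.one (nat_lit 0x900000700b013200000e016128411)) (.br (Nat.shiftLeft (nat_lit 0xb) (nat_lit 112)) (.one (nat_lit 0xa00000700b013400000e016128411)) (.one (nat_lit 0xb00000700b013600000e016128411))))) (.br (Nat.shiftLeft (nat_lit 0x400001) (nat_lit 102))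 (.br (Nat.shiftLeft (nat_lit 0x800001) (nat_lit 101)) (.one (nat_lit 0x100000100700b013000200e036426511)) (.br (Nat.shiftLeft (nat_lit 0x1000003) (nat_lit 100)) (.one (nat_lit 0x100000200700b013000400e036426511)) (.one (nat_lit 0x100000300700b013000600e036426511)))) (.br (Nat.shiftLeft (nat_lit 0x1000005) (nat_lit 100)) (.one (nat_lit 0x100000400700b013000800e036426511)) (.br (Nat.shiftLeft (nat_lit 0x800003) (nat_lit 101)) (.one (nat_lit 0x100000500700b013000a00e036426511)) (.one (nat_lit 0x100000600700b013000c00e036426511))))))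
noncomputable def b206 : BT := .node (nat_lit 0xb) (nat_lit 0x96326124e0a28938260800654600194e800843a00157105b66db327536cdb6893828a93a0a2adb328a94552704ea49c00065b000957000265b400994e80274b800d96d00275340091ac80165b401196c0b4512724c24b1a58c98251449d1458003a5e000ca88003a98000ca80004220000cb6030048c0048c0048c003d1003d1002050020500205002050020500205000f0) .leaf .leaf
def t205 : k205.all (jb2 57 fl b206) = true := by decide +kernel
noncomputable def k206 : KT := (.one (nat_lit 0x100200300700b013400600e036426760))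
def t206 : k206.all (jb2 57 fl b0) = true := by decide +kernel
noncomputable def k207 : KT := (.br (Nat.shiftLeft (nat_lit 0x2000003) (nat_lit 100)) (.br (Nat.shiftLeft (nat_lit 0x1) (nat_lit 125)) (.br (Nat.shiftLeft (nat_lit 0x1003) (nat_lit 112)) (.one (nat_lit 0x100200400700b013400800e036426760)) (.one (nat_lit 0x100300400700b013600800e036426760))) (.br (Nat.shiftLeft (nat_lit 0x1000001) (nat_lit 101)) (.one (nat_lit 0x200000100700b013000200e056826511)) (.one (nat_lit 0x200000200700b013000400e056826511)))) (.br (Nat.shiftLeft (nat_lit 0x2000005) (nat_lit 100)) (.br (Nat.shiftLeft (nat_lit 0x800001) (nat_lit 102)) (.one (nat_lit 0x200000300700b013000600e056826511)) (.one (nat_lit 0x200000400700b013000800e056826511))) (.br (Nat.shiftLeft (nat_lit 0x1000003) (nat_lit 101)) (.one (nat_lit 0x200000500700b013000a00e056826511)) (.one (nat_lit 0x200000600700b013000c00e056826511)))))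
def t207 : k207.all (jb2 57 fl b0) = true := by decide +kernel
noncomputable def k208 : KT := (.br (Nat.shiftLeft (nat_lit 0x1) (nat_lit 126)) (.br (Nat.shiftLeft (nat_lit 0x3000003) (nat_lit 100)) (.br (Nat.shiftLeft (nat_lit 0x3) (nat_lit 124)) (.one (nat_lit 0x200300400700b013600800e056826760)) (.br (Nat.shiftLeft (nat_lit 0x1800001) (nat_lit 101)) (.one (nat_lit 0x300000100700b013000200e076c26511)) (.one (nat_lit 0x300000200700b013000400e076c26511)))) (.br (Nat.shiftLeft (nat_lit 0x3000005) (nat_lit 100)) (.br (Nat.shiftLeft (nat_lit 0xc00001) (nat_lit 102)) (.one (nat_lit 0x300000300700b013000600e076c26511)) (.one (nat_lit 0x300000400700b013000800e076c26511))) (.br (Nat.shiftLeft (nat_lit 0x1800003) (nat_lit 101)) (.one (nat_lit 0x300000500700b013000a00e076c26511)) (.one (nat_lit 0x300000600700b013000c00e076c26511))))) (.br (Nat.shiftLeft (nat_lit 0x1000001) (nat_lit 102)) (.br (Nat.shiftLeft (nat_lit 0x2000001) (nat_lit 101)) (.one (nat_lit 0x400000100700b013000200e097026511)) (.br (Nat.shiftLeft (nat_lit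 0x4000003) (nat_lit 100)) (.one (nat_lit 0x400000200700b013000400e097026511)) (.one (nat_lit 0x400000300700b013000600e097026511)))) (.br (Nat.shiftLeft (nat_lit 0x2000003) (nat_lit 101)) (.br (Nat.shiftLeft (nat_lit 0x4000005) (nat_lit 100)) (.one (nat_lit 0x400000400700b013000800e097026511)) (.one (nat_lit 0x400000500700b013000a00e097026511))) (.br (Nat.shiftLeft (nat_lit 0x5) (nat_lit 124)) (.one (nat_lit 0x400000600700b013000c00e097026511)) (.one (nat_lit 0x500000100700b013000200e0b7426511))))))
def t208 : k208.all (jb2 57 fl b0) = true := by decide +kernel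
noncomputable def k209 : KT := (.br (Nat.shiftLeft (nat_lit 0x5000005) (nat_lit 100)) (.br (Nat.shiftLeft (nat_lit 0x5000003) (nat_lit 100)) (.one (nat_lit 0x500000200700b013000400e0b7426511)) (.br (Nat.shiftLeft (nat_lit 0x1400001) (nat_lit 102)) (.one (nat_lit 0x500000300700b013000600e0b7426511)) (.one (nat_lit 0x500000400700b013000800e0b7426511)))) (.br (Nat.shiftLeft (nat_lit 0x2800003) (nat_lit 101)) (.one (nat_lit 0x500000500700b013000a00e0b7426511)) (.br (Nat.shiftLeft (nat_lit 0x3) (nat_lit 125)) (.one (nat_lit 0x500000600700b013000c00e0b7426511)) (.one (nat_lit 0x600000100700b013000200e0d7826511)))))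
def t209 : k209.all (jb2 57 fl b0) = true := by decide +kernel
noncomputable def k210 : KT := (.br (Nat.shiftLeft (nat_lit 0x1800001) (nat_lit 102)) (.br (Nat.shiftLeft (nat_lit 0x6000003) (nat_lit 100)) (.one (nat_lit 0x600000200700b013000400e0d7826511)) (.one (nat_lit 0x600000300700b013000600e0d7826511))) (.br (Nat.shiftLeft (nat_lit 0x6000005) (nat_lit 100)) (.one (nat_lit 0x600000400700b013000800e0d7826511)) (.br (Nat.shiftLeft (nat_lit 0x3000003) (nat_lit 101)) (.one (nat_lit 0x600000500700b013000a00e0d7826511)) (.one (nat_lit 0x600000600700b013000c00e0d7826511)))))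
def t210 : k210.all (jb2 57 fl b0) = true := by decide +kernel
noncomputable def k211 : KT := (.br (Nat.shiftLeft (nat_lit 0x7000003) (nat_lit 100)) (.br (Nat.shiftLeft (nat_lit 0x3800001) (nat_lit 101)) (.one (nat_lit 0x700000100700b013000200e0f7c26511)) (.one (nat_lit 0x700000200700b013000400e0f7c26511))) (.br (Nat.shiftLeft (nat_lit 0x1c00001) (nat_lit 102)) (.one (nat_lit 0x700000300700b013000600e0f7c26511)) (.one (nat_lit 0x700000400700b013000800e0f7c26511))))
def t211 : k211.all (jb2 57 fl b0) = true := by decide +kernel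
noncomputable def k212 : KT := (.br (Nat.shiftLeft (nat_lit 0x1) (nat_lit 127)) (.br (Nat.shiftLeft (nat_lit 0x3800003) (nat_lit 101)) (.one (nat_lit 0x700000500700b013000a00e0f7c26511)) (.one (nat_lit 0x700000600700b013000c00e0f7c26511))) (.br (Nat.shiftLeft (nat_lit 0x4000001) (nat_lit 101)) (.one (nat_lit 0x800000100700b013000200e118026511)) (.br (Nat.shiftLeft (nat_lit 0x8000003) (nat_lit 100)) (.one (nat_lit 0x800000200700b013000400e118026511)) (.one (nat_lit 0x800000300700b013000600e118026511)))))
def t212 : k212.all (jb2 57 fl b0) = true := by decide +kernel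
noncomputable def k213 : KT := (.br (Nat.shiftLeft (nat_lit 0x9) (nat_lit 124)) (.br (Nat.shiftLeft (nat_lit 0x8000005) (nat_lit 100)) (.one (nat_lit 0x800000400700b013000800e118026511)) (.br (Nat.shiftLeft (nat_lit 0x4000003) (nat_lit 101)) (.one (nat_lit 0x800000500700b013000a00e118026511)) (.one (nat_lit 0x800000600700b013000c00e118026511)))) (.br (Nat.shiftLeft (nat_lit 0x9000003) (nat_lit 100)) (.br (Nat.shiftLeft (nat_lit 0x4800001) (nat_lit 101)) (.one (nat_lit 0x900000100700b013000200e138426511)) (.one (nat_lit 0x900000200700b013000400e138426511))) (.br (Nat.shiftLeft (nat_lit 0x2400001) (nat_lit 102)) (.one (nat_lit 0x900000300700b013000600e138426511)) (.one (nat_lit 0x900000400700b013000800e138426511)))))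
noncomputable def b214 : BT := .node (nat_lit 0xb) (nat_lit 0x258c98093828a14549d200596d000653c005d4c802653c16d91454a2a00196d00056340cb21454a2a96349c13a40032d9000cb64003a98000ca782002c6002c6002c6002c6002c6002c6002c6002c60020b001ab001ab000f0) .leaf .leaf
def t213 : k213.all (jb2 57 fl b214) = true := by decide +kernel
noncomputable def k214 : KT := (.br (Nat.shiftLeft (nat_lit 0x2800001) (nat_lit 102)) (.br (Nat.shiftLeft (nat_lit 0x5) (nat_lit 125)) (.br (Nat.shiftLeft (nat_lit 0x4800003) (nat_lit 101)) (.one (nat_lit 0x900000500700b013000a00e138426511)) (.one (nat_lit 0x900000600700b013000c00e138426511))) (.br (Nat.shiftLeft (nat_lit 0x5000001) (nat_lit 101)) (.one (nat_lit 0xa00000100700b013000200e158826511)) (.br (Nat.shiftLeft (nat_lit 0xa000003) (nat_lit 100)) (.one (nat_lit 0xa00000200700b013000400e158826511)) (.one (nat_lit 0xa00000300700b013000600e158826511))))) (.br (Nat.shiftLeft (nat_lit 0x5000003) (nat_lit 101)) (.br (Nat.shiftLeft (nat_lit 0xa000005) (nat_lit 100)) (.one (nat_lit 0xa00000400700b013000800e158826511))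 (.one (nat_lit 0xa00000500700b013000a00e158826511))) (.br (Nat.shiftLeft (nat_lit 0xb) (nat_lit 124)) (.one (nat_lit 0xa00000600700b013000c00e158826511)) (.br (Nat.shiftLeft (nat_lit 0x5800001) (nat_lit 101)) (.one (nat_lit 0xb00000100700b013000200e178c26511)) (.one (nat_lit 0xb00000200700b013000400e178c26511))))))
noncomputable def b215 : BT := .node (nat_lit 0xb) (nat_lit 0x36cc9d2963000cb68002b19076cd2709394b11508a8200196c000653c001d4c00056ae16d99304a2a93549c930000ba240028d680132da000cb68293826093000032db000cb60100326002c6002c60020b0020b0020b0020b0020b001500015000150000f0) .leaf .leaf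
def t214 : k214.all (jb2 57 fl b215) = true := by decide +kernel
noncomputable def k215 : KT := (.br (Nat.shiftLeft (nat_lit 0x800000801) (nat_lit 102)) (.br (Nat.shiftLeft (nat_lit 0x800001) (nat_lit 113)) (.br (Nat.shiftLeft (nat_lit 0x5800003) (nat_lit 101)) (.br (Nat.shiftLeft (nat_lit 0x2c00001) (nat_lit 102)) (.one (nat_lit 0xb00000300700b013000600e178c26511)) (.br (Nat.shiftLeft (nat_lit 0xb000005) (nat_lit 100)) (.one (nat_lit 0xb00000400700b013000800e178c26511)) (.one (nat_lit 0xb00000500700b013000a00e178c26511)))) (.br (Nat.shiftLeft (nat_lit 0x1) (nat_lit 136)) (.one (nat_lit 0xb00000600700b013000c00e178c26511)) (.br (Nat.shiftLeft (nat_lit 0x1000001003) (nat_lit 100)) (.one (nat_lit 0x100000100200700b013200402e416026611)) (.one (nat_lit 0x100000100300700b013200602e416026611))))) (.br (Nat.shiftLeft (nat_lit 0x1) (nat_lit 137)) (.br (Nat.shiftLeft (nat_lit 0x400000801) (nat_lit 102)) (.one (nat_lit 0x100000200300700b013400602e416026611)) (.br (Nat.shiftLeft (nat_lit 0x1000003) (nat_lit 112)) (.one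 (nat_lit 0x100000200400700b013400802e416026611)) (.one (nat_lit 0x100000300400700b013600802e416026611)))) (.br (Nat.shiftLeft (nat_lit 0x2000001003) (nat_lit 100)) (.one (nat_lit 0x200000100200700b013200404e816026611)) (.br (Nat.shiftLeft (nat_lit 0x1000001) (nat_lit 113)) (.one (nat_lit 0x200000100300700b013200604e816026611)) (.one (nat_lit 0x200000200300700b013400604e816026611)))))) (.br (Nat.shiftLeft (nat_lit 0x3000003) (nat_lit 112)) (.br (Nat.shiftLeft (nat_lit 0x3000001003) (nat_lit 100)) (.br (Nat.shiftLeft (nat_lit 0x2000003) (nat_lit 112)) (.one (nat_lit 0x200000200400700b013400804e816026611)) (.br (Nat.shiftLeft (nat_lit 0x3) (nat_lit 136)) (.one (nat_lit 0x200000300400700b013600804e816026611)) (.one (nat_lit 0x300000100200700b013200406ec16026611)))) (.br (Nat.shiftLeft (nat_lit 0x1800001) (nat_lit 113)) (.one (nat_lit 0x300000100300700b013200606ec16026611)) (.br (Nat.shiftLeft (nat_lit 0xc00000801) (nat_lit 102)) (.one (nat_lit 0x300000200300700b013400606ec16026611)) (.one (nat_lit 0x300000200400700b013400806ec16026611)))))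 (.br (Nat.shiftLeft (nat_lit 0x2000001) (nat_lit 113)) (.br (Nat.shiftLeft (nat_lit 0x1) (nat_lit 138)) (.one (nat_lit 0x300000300400700b013600806ec16026611)) (.br (Nat.shiftLeft (nat_lit 0x4000001003) (nat_lit 100)) (.one (nat_lit 0x400000100200700b013200408f016026611)) (.one (nat_lit 0x400000100300700b013200608f016026611)))) (.br (Nat.shiftLeft (nat_lit 0x4000003) (nat_lit 112)) (.br (Nat.shiftLeft (nat_lit 0x1000000801) (nat_lit 102)) (.one (nat_lit 0x400000200300700b013400608f016026611)) (.one (nat_lit 0x400000200400700b013400808f016026611))) (.br (Nat.shiftLeft (nat_lit 0x5) (nat_lit 136)) (.one (nat_lit 0x400000300400700b013600808f016026611)) (.one (nat_lit 0x500000100200700b01320040af416026611)))))))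
def t215 : k215.all (jb2 57 fl b0) = true := by decide +kernel
noncomputable def k216 : KT := (.br (Nat.shiftLeft (nat_lit 0x1400000801) (nat_lit 102)) (.br (Nat.shiftLeft (nat_lit 0x2800001) (nat_lit 113)) (.one (nat_lit 0x500000100300700b01320060af416026611)) (.one (nat_lit 0x500000200300700b01340060af416026611))) (.br (Nat.shiftLeft (nat_lit 0x5000003) (nat_lit 112)) (.one (nat_lit 0x500000200400700b01340080af416026611)) (.br (Nat.shiftLeft (nat_lit 0x3) (nat_lit 137)) (.one (nat_lit 0x500000300400700b01360080af416026611)) (.one (nat_lit 0x600000100200700b01320040cf816026611)))))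
def t216 : k216.all (jb2 57 fl b0) = true := by decide +kernel
noncomputable def k217 : KT := (.br (Nat.shiftLeft (nat_lit 0x1800000801) (nat_lit 102)) (.br (Nat.shiftLeft (nat_lit 0x3000001) (nat_lit 113)) (.one (nat_lit 0x600000100300700b01320060cf816026611)) (.one (nat_lit 0x600000200300700b01340060cf816026611))) (.br (Nat.shiftLeft (nat_lit 0x6000003) (nat_lit 112)) (.one (nat_lit 0x600000200400700b01340080cf816026611)) (.br (Nat.shiftLeft (nat_lit 0x7) (nat_lit 136)) (.one (nat_lit 0x600000300400700b01360080cf816026611)) (.one (nat_lit 0x700000100200700b01320040efc16026611)))))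
def t217 : k217.all (jb2 57 fl b0) = true := by decide +kernel
noncomputable def k218 : KT := (.br (Nat.shiftLeft (nat_lit 0x1c00000801) (nat_lit 102)) (.br (Nat.shiftLeft (nat_lit 0x3800001) (nat_lit 113)) (.one (nat_lit 0x700000100300700b01320060efc16026611)) (.one (nat_lit 0x700000200300700b01340060efc16026611))) (.br (Nat.shiftLeft (nat_lit 0x7000003) (nat_lit 112)) (.one (nat_lit 0x700000200400700b01340080efc16026611)) (.br (Nat.shiftLeft (nat_lit 0x1) (nat_lit 139)) (.one (nat_lit 0x700000300400700b01360080efc16026611)) (.one (nat_lit 0x800000100200700b0132004110016026611)))))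
def t218 : k218.all (jb2 57 fl b0) = true := by decide +kernel
noncomputable def k219 : KT := (.br (Nat.shiftLeft (nat_lit 0x9) (nat_lit 136)) (.br (Nat.shiftLeft (nat_lit 0x2000000801) (nat_lit 102)) (.br (Nat.shiftLeft (nat_lit 0x4000001) (nat_lit 113)) (.one (nat_lit 0x800000100300700b0132006110016026611)) (.one (nat_lit 0x800000200300700b0134006110016026611))) (.br (Nat.shiftLeft (nat_lit 0x8000003) (nat_lit 112)) (.one (nat_lit 0x800000200400700b0134008110016026611)) (.one (nat_lit 0x800000300400700b0136008110016026611)))) (.br (Nat.shiftLeft (nat_lit 0x4800001) (nat_lit 113)) (.br (Nat.shiftLeft (nat_lit 0x9000001003) (nat_lit 100)) (.one (nat_lit 0x900000100200700b0132004130416026611)) (.one (nat_lit 0x900000100300700b0132006130416026611))) (.br (Nat.shiftLeft (nat_lit 0x2400000801) (nat_lit 102)) (.one (nat_lit 0x900000200300700b0134006130416026611)) (.br (Nat.shiftLeft (nat_lit 0x9000003) (nat_lit 112)) (.one (nat_lit 0x900000200400700b0134008130416026611)) (.one (nat_lit 0x900000300400700b0136008130416026611))))))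
def t219 : k219.all (jb2 57 fl b0) = true := by decide +kernel
noncomputable def k220 : KT := (.br (Nat.shiftLeft (nat_lit 0xb) (nat_lit 136)) (.br (Nat.shiftLeft (nat_lit 0x5000001) (nat_lit 113)) (.br (Nat.shiftLeft (nat_lit 0xa000001003) (nat_lit 100)) (.one (nat_lit 0xa00000100200700b0132004150816026611)) (.one (nat_lit 0xa00000100300700b0132006150816026611))) (.br (Nat.shiftLeft (nat_lit 0x2800000801) (nat_lit 102)) (.one (nat_lit 0xa00000200300700b0134006150816026611)) (.br (Nat.shiftLeft (nat_lit 0xa000003) (nat_lit 112)) (.one (nat_lit 0xa00000200400700b0134008150816026611)) (.one (nat_lit 0xa00000300400700b0136008150816026611))))) (.br (Nat.shiftLeft (nat_lit 0x5800001) (nat_lit 113)) (.br (Nat.shiftLeft (nat_lit 0xb000001003) (nat_lit 100)) (.one (nat_lit 0xb00000100200700b0132004170c16026611)) (.one (nat_lit 0xb00000100300700b0132006170c16026611))) (.br (Nat.shiftLeft (nat_lit 0x2c00000801) (nat_lit 102)) (.one (nat_lit 0xb00000200300700b0134006170c16026611)) (.br (Nat.shiftLeft (nat_lit 0xb000003)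 (nat_lit 112)) (.one (nat_lit 0xb00000200400700b0134008170c16026611)) (.one (nat_lit 0xb00000300400700b0136008170c16026611))))))
def t220 : k220.all (jb2 57 fl b0) = true := by decide +kernel
noncomputable def s11 : KT := (.br (nat_lit 0x200000600700b013000c00e056826511) (.br (nat_lit 0x300500700b013600a00e016026650) (.br (nat_lit 0x200400700b013400800e016027600) (.br (nat_lit 0x100400700b013200800e016026650) k196 (.br (nat_lit 0x100500700b013200a00e016026650) k197 k198)) (.br (nat_lit 0x200500700b013400a00e016026650) k199 (.br (nat_lit 0x300400700b013600800e016027600) k200 k201))) (.br (nat_lit 0x500600700b013a00c00e016026650) (.br (nat_lit 0x400000700b013800000e016026411) k202 (.br (nat_lit 0x400500700b013800a00e016026650) k203 k204)) (.br (nat_lit 0x100000600700b013000c00e036426511) k205 (.br (nat_lit 0x100200300700b013400600e036426760) k206 k207)))) (.br (nat_lit 0x900000400700b013000800e138426511) (.br (nat_lit 0x600000600700b013000c00e0d7826511) (.br (nat_lit 0x500000100700b013000200e0b7426511) k208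 (.br (nat_lit 0x600000100700b013000200e0d7826511) k209 k210)) (.br (nat_lit 0x700000400700b013000800e0f7c26511) k211 (.br (nat_lit 0x800000300700b013000600e118026511) k212 k213))) (.br (nat_lit 0x600000100200700b01320040cf816026611) (.br (nat_lit 0xb00000200700b013000400e178c26511) k214 (.br (nat_lit 0x500000100200700b01320040af416026611) k215 k216)) (.br (nat_lit 0x800000100200700b0132004110016026611) (.br (nat_lit 0x700000100200700b01320040efc16026611) k217 k218) (.br (nat_lit 0x900000300400700b0136008130416026611) k219 k220)))))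
noncomputable def u11 : KT := (.one (nat_lit 0x700b013000000e016026430))
def w11 : u11.all (wj 57 s11) = true := by decide +kernel
def o11 : OkW 57 (jb2 57 fl) u11 := .lift s11 _ (.br _ _ _ (.br _ _ _ (.br _ _ _ (.br _ _ _ (.leaf b0 k196 t196) (.br _ _ _ (.leaf b0 k197 t197) (.leaf b0 k198 t198))) (.br _ _ _ (.leaf b0 k199 t199) (.br _ _ _ (.leaf b0 k200 t200) (.leaf b0 k201 t201)))) (.br _ _ _ (.br _ _ _ (.leaf b0 k202 t202) (.br _ _ _ (.leaf b0 k203 t203) (.leaf b0 k204 t204))) (.br _ _ _ (.leaf b206 k205 t205) (.br _ _ _ (.leaf b0 k206 t206) (.leaf b0 k207 t207))))) (.br _ _ _ (.br _ _ _ (.br _ _ _ (.leaf b0 k208 t208) (.br _ _ _ (.leaf b0 k209 t209) (.leaf b0 k210 t210))) (.br _ _ _ (.leaf b0 k211 t211) (.br _ _ _ (.leaf b0 k212 t212) (.leaf b214 k213 t213)))) (.br _ _ _ (.br _ _ _ (.leaf b215 k214 t214) (.br _ _ _ (.leaf b0 k215 t215) (.leaf b0 k216 t216))) (.br _ _ _ (.br _ _ _ (.leaf b0 k217 t217) (.leaf b0 k218 t218)) (.br _ _ _ (.leaf b0 k219 t219) (.leaf b0 k220 t220)))))) w11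
noncomputable def k221 : KT := (.br (Nat.shiftLeft (nat_lit 0x1) (nat_lit 102)) (.br (Nat.shiftLeft (nat_lit 0x1) (nat_lit 101)) (.br (Nat.shiftLeft (nat_lit 0x1) (nat_lit 100)) (.one (nat_lit 0x700b014000000e016029400)) (.one (nat_lit 0x100700b014000200e016028540))) (.br (Nat.shiftLeft (nat_lit 0x3) (nat_lit 100)) (.one (nat_lit 0x200700b014000400e016029500)) (.one (nat_lit 0x300700b014000600e016029500)))) (.br (Nat.shiftLeft (nat_lit 0x3) (nat_lit 101)) (.br (Nat.shiftLeft (nat_lit 0x5) (nat_lit 100)) (.one (nat_lit 0x400700b014000800e016029500)) (.one (nat_lit 0x500700b014000a00e016029500))) (.br (Nat.shiftLeft (nat_lit 0x1) (nat_lit 112)) (.one (nat_lit 0x600700b014000c00e016029500)) (.br (Nat.shiftLeft (nat_lit 0x801) (nat_lit 101)) (.one (nat_lit 0x100000700b014200000e016028411)) (.one (nat_lit 0x100200700b014200400e016029600))))))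
def t221 : k221.all (jb2 57 fl b0) = true := by decide +kernel
noncomputable def k222 : KT := (.one (nat_lit 0x100300700b014200600e016028650))
def t222 : k222.all (jb2 57 fl b0) = true := by decide +kernel
noncomputable def k223 : KT := (.one (nat_lit 0x100400700b014200800e016028650))
def t223 : k223.all (jb2 57 fl b0) = true := by decide +kernel
noncomputable def k224 : KT := (.br (Nat.shiftLeft (nat_lit 0x1) (nat_lit 113)) (.br (Nat.shiftLeft (nat_lit 0x803) (nat_lit 101)) (.one (nat_lit 0x100500700b014200a00e016028650)) (.one (nat_lit 0x100600700b014200c00e016028650))) (.br (Nat.shiftLeft (nat_lit 0x1001) (nat_lit 101)) (.one (nat_lit 0x200000700b014400000e016028411)) (.one (nat_lit 0x200300700b014400600e016029600))))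
def t224 : k224.all (jb2 57 fl b0) = true := by decide +kernel
noncomputable def k225 : KT := (.one (nat_lit 0x200400700b014400800e016028650))
def t225 : k225.all (jb2 57 fl b0) = true := by decide +kernel
noncomputable def k226 : KT := (.br (Nat.shiftLeft (nat_lit 0x1003) (nat_lit 101)) (.one (nat_lit 0x200500700b014400a00e016028650)) (.br (Nat.shiftLeft (nat_lit 0x3) (nat_lit 112)) (.one (nat_lit 0x200600700b014400c00e016028650)) (.one (nat_lit 0x300000700b014600000e016028411))))
def t226 : k226.all (jb2 57 fl b0) = true := by decide +kernel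
noncomputable def k227 : KT := (.one (nat_lit 0x300400700b014600800e016028650))
def t227 : k227.all (jb2 57 fl b0) = true := by decide +kernel
noncomputable def k228 : KT := (.br (Nat.shiftLeft (nat_lit 0x1803) (nat_lit 101)) (.one (nat_lit 0x300500700b014600a00e016028650)) (.br (Nat.shiftLeft (nat_lit 0x1) (nat_lit 114)) (.one (nat_lit 0x300600700b014600c00e016028650)) (.one (nat_lit 0x400000700b014800000e016028411))))
def t228 : k228.all (jb2 57 fl b0) = true := by decide +kernel
noncomputable def k229 : KT := (.br (Nat.shiftLeft (nat_lit 0x2003) (nat_lit 101)) (.one (nat_lit 0x400500700b014800a00e016028650)) (.br (Nat.shiftLeft (nat_lit 0x5) (nat_lit 112)) (.one (nat_lit 0x400600700b014800c00e016028650)) (.one (nat_lit 0x500000700b014a00000e016028411))))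
def t229 : k229.all (jb2 57 fl b0) = true := by decide +kernel
noncomputable def k230 : KT := (.br (Nat.shiftLeft (nat_lit 0xb) (nat_lit 112)) (.br (Nat.shiftLeft (nat_lit 0x1) (nat_lit 115)) (.br (Nat.shiftLeft (nat_lit 0x3) (nat_lit 113)) (.one (nat_lit 0x500600700b014a00c00e016028650)) (.br (Nat.shiftLeft (nat_lit 0x7) (nat_lit 112)) (.one (nat_lit 0x600000700b014c00000e016028411)) (.one (nat_lit 0x700000700b014e00000e016028411)))) (.br (Nat.shiftLeft (nat_lit 0x9) (nat_lit 112)) (.one (nat_lit 0x800000700b014000000e01612a411)) (.br (Nat.shiftLeft (nat_lit 0x5) (nat_lit 113)) (.one (nat_lit 0x900000700b014200000e01612a411)) (.one (nat_lit 0xa00000700b014400000e01612a411))))) (.br (Nat.shiftLeft (nat_lit 0x400001) (nat_lit 102)) (.br (Nat.shiftLeft (nat_lit 0x1) (nat_lit 124)) (.one (nat_lit 0xb00000700b014600000e01612a411)) (.br (Nat.shiftLeft (nat_lit 0x1000003) (nat_lit 100)) (.one (nat_lit 0x100000200700b014000400e036428511)) (.one (nat_lit 0x100000300700b014000600e036428511)))) (.br (Nat.shiftLeft (nat_lit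 0x1000005) (nat_lit 100)) (.one (nat_lit 0x100000400700b014000800e036428511)) (.br (Nat.shiftLeft (nat_lit 0x800003) (nat_lit 101)) (.one (nat_lit 0x100000500700b014000a00e036428511)) (.one (nat_lit 0x100000600700b014000c00e036428511))))))
noncomputable def b231 : BT := .node (nat_lit 0x1) (nat_lit 0x51449c1304003a5d000cb6c10008700028) .leaf .leaf
def t230 : k230.all (jb2 57 fl b231) = true := by decide +kernel
noncomputable def k231 : KT := (.br (Nat.shiftLeft (nat_lit 0xc00001) (nat_lit 102)) (.br (Nat.shiftLeft (nat_lit 0x2000005) (nat_lit 100)) (.br (Nat.shiftLeft (nat_lit 0x2000003) (nat_lit 100)) (.br (Nat.shiftLeft (nat_lit 0x1) (nat_lit 125)) (.one (nat_lit 0x100200300700b014400600e036428760)) (.one (nat_lit 0x200000200700b014000400e056828511))) (.br (Nat.shiftLeft (nat_lit 0x800001) (nat_lit 102)) (.one (nat_lit 0x200000300700b014000600e056828511)) (.one (nat_lit 0x200000400700b014000800e056828511)))) (.br (Nat.shiftLeft (nat_lit 0x3) (nat_lit 124)) (.br (Nat.shiftLeft (nat_lit 0x1000003) (nat_lit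 101)) (.one (nat_lit 0x200000500700b014000a00e056828511)) (.one (nat_lit 0x200000600700b014000c00e056828511))) (.br (Nat.shiftLeft (nat_lit 0x3000003) (nat_lit 100)) (.one (nat_lit 0x300000200700b014000400e076c28511)) (.one (nat_lit 0x300000300700b014000600e076c28511))))) (.br (Nat.shiftLeft (nat_lit 0x4000003) (nat_lit 100)) (.br (Nat.shiftLeft (nat_lit 0x1800003) (nat_lit 101)) (.br (Nat.shiftLeft (nat_lit 0x3000005) (nat_lit 100)) (.one (nat_lit 0x300000400700b014000800e076c28511)) (.one (nat_lit 0x300000500700b014000a00e076c28511))) (.br (Nat.shiftLeft (nat_lit 0x1) (nat_lit 126)) (.one (nat_lit 0x300000600700b014000c00e076c28511)) (.one (nat_lit 0x400000200700b014000400e097028511)))) (.br (Nat.shiftLeft (nat_lit 0x4000005) (nat_lit 100)) (.br (Nat.shiftLeft (nat_lit 0x1000001) (nat_lit 102)) (.one (nat_lit 0x400000300700b014000600e097028511)) (.one (nat_lit 0x400000400700b014000800e097028511))) (.br (Nat.shiftLeft (nat_lit 0x2000003) (nat_lit 101)) (.one (nat_lit 0x400000500700b014000a00e097028511)) (.one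 (nat_lit 0x400000600700b014000c00e097028511))))))
def t231 : k231.all (jb2 57 fl b0) = true := by decide +kernel
noncomputable def k232 : KT := (.br (Nat.shiftLeft (nat_lit 0x5000005) (nat_lit 100)) (.br (Nat.shiftLeft (nat_lit 0x5000003) (nat_lit 100)) (.one (nat_lit 0x500000200700b014000400e0b7428511)) (.br (Nat.shiftLeft (nat_lit 0x1400001) (nat_lit 102)) (.one (nat_lit 0x500000300700b014000600e0b7428511)) (.one (nat_lit 0x500000400700b014000800e0b7428511)))) (.br (Nat.shiftLeft (nat_lit 0x3) (nat_lit 125)) (.br (Nat.shiftLeft (nat_lit 0x2800003) (nat_lit 101)) (.one (nat_lit 0x500000500700b014000a00e0b7428511)) (.one (nat_lit 0x500000600700b014000c00e0b7428511))) (.br (Nat.shiftLeft (nat_lit 0x6000003) (nat_lit 100)) (.one (nat_lit 0x600000200700b014000400e0d7828511)) (.one (nat_lit 0x600000300700b014000600e0d7828511)))))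
def t232 : k232.all (jb2 57 fl b0) = true := by decide +kernel
noncomputable def k233 : KT := (.br (Nat.shiftLeft (nat_lit 0x7) (nat_lit 124)) (.br (Nat.shiftLeft (nat_lit 0x6000005) (nat_lit 100)) (.one (nat_lit 0x600000400700b014000800e0d7828511)) (.br (Nat.shiftLeft (nat_lit 0x3000003) (nat_lit 101)) (.one (nat_lit 0x600000500700b014000a00e0d7828511)) (.one (nat_lit 0x600000600700b014000c00e0d7828511)))) (.br (Nat.shiftLeft (nat_lit 0x1c00001) (nat_lit 102)) (.br (Nat.shiftLeft (nat_lit 0x7000003) (nat_lit 100)) (.one (nat_lit 0x700000200700b014000400e0f7c28511)) (.one (nat_lit 0x700000300700b014000600e0f7c28511))) (.br (Nat.shiftLeft (nat_lit 0x7000005) (nat_lit 100)) (.one (nat_lit 0x700000400700b014000800e0f7c28511)) (.one (nat_lit 0x700000500700b014000a00e0f7c28511)))))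
def t233 : k233.all (jb2 57 fl b0) = true := by decide +kernel
noncomputable def k234 : KT := (.br (Nat.shiftLeft (nat_lit 0x4000003) (nat_lit 101)) (.br (Nat.shiftLeft (nat_lit 0x8000003) (nat_lit 100)) (.br (Nat.shiftLeft (nat_lit 0x1) (nat_lit 127)) (.one (nat_lit 0x700000600700b014000c00e0f7c28511)) (.one (nat_lit 0x800000200700b014000400e118028511))) (.br (Nat.shiftLeft (nat_lit 0x2000001) (nat_lit 102)) (.one (nat_lit 0x800000300700b014000600e118028511)) (.br (Nat.shiftLeft (nat_lit 0x8000005) (nat_lit 100)) (.one (nat_lit 0x800000400700b014000800e118028511)) (.one (nat_lit 0x800000500700b014000a00e118028511))))) (.br (Nat.shiftLeft (nat_lit 0x2400001) (nat_lit 102)) (.br (Nat.shiftLeft (nat_lit 0x9) (nat_lit 124)) (.one (nat_lit 0x800000600700b014000c00e118028511)) (.br (Nat.shiftLeft (nat_lit 0x9000003) (nat_lit 100)) (.one (nat_lit 0x900000200700b014000400e138428511)) (.one (nat_lit 0x900000300700b014000600e138428511)))) (.br (Nat.shiftLeft (nat_lit 0x9000005) (nat_lit 100)) (.one (nat_lit 0x900000400700b014000800e138428511))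 (.br (Nat.shiftLeft (nat_lit 0x4800003) (nat_lit 101)) (.one (nat_lit 0x900000500700b014000a00e138428511)) (.one (nat_lit 0x900000600700b014000c00e138428511))))))
def t234 : k234.all (jb2 57 fl b0) = true := by decide +kernel
noncomputable def k235 : KT := (.br (Nat.shiftLeft (nat_lit 0x1) (nat_lit 136)) (.br (Nat.shiftLeft (nat_lit 0xb) (nat_lit 124)) (.br (Nat.shiftLeft (nat_lit 0x2800001) (nat_lit 102)) (.br (Nat.shiftLeft (nat_lit 0xa000003) (nat_lit 100)) (.one (nat_lit 0xa00000200700b014000400e158828511)) (.one (nat_lit 0xa00000300700b014000600e158828511))) (.br (Nat.shiftLeft (nat_lit 0xa000005) (nat_lit 100)) (.one (nat_lit 0xa00000400700b014000800e158828511)) (.br (Nat.shiftLeft (nat_lit 0x5000003) (nat_lit 101)) (.one (nat_lit 0xa00000500700b014000a00e158828511)) (.one (nat_lit 0xa00000600700b014000c00e158828511))))) (.br (Nat.shiftLeft (nat_lit 0x2c00001) (nat_lit 102)) (.br (Nat.shiftLeft (nat_lit 0xb000003) (nat_lit 100)) (.one (nat_lit 0xb00000200700b014000400e178c28511)) (.one (nat_lit 0xb00000300700b014000600e178c28511)))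 (.br (Nat.shiftLeft (nat_lit 0xb000005) (nat_lit 100)) (.one (nat_lit 0xb00000400700b014000800e178c28511)) (.br (Nat.shiftLeft (nat_lit 0x5800003) (nat_lit 101)) (.one (nat_lit 0xb00000500700b014000a00e178c28511)) (.one (nat_lit 0xb00000600700b014000c00e178c28511)))))) (.br (Nat.shiftLeft (nat_lit 0x1800001) (nat_lit 113)) (.br (Nat.shiftLeft (nat_lit 0x1) (nat_lit 137)) (.br (Nat.shiftLeft (nat_lit 0x800001) (nat_lit 113)) (.one (nat_lit 0x100000100200700b014200402e416028611)) (.one (nat_lit 0x100000200300700b014400602e416028611))) (.br (Nat.shiftLeft (nat_lit 0x1000001) (nat_lit 113)) (.one (nat_lit 0x200000100200700b014200404e816028611)) (.br (Nat.shiftLeft (nat_lit 0x3) (nat_lit 136)) (.one (nat_lit 0x200000200300700b014400604e816028611)) (.one (nat_lit 0x300000100200700b014200406ec16028611))))) (.br (Nat.shiftLeft (nat_lit 0x2000001) (nat_lit 113)) (.br (Nat.shiftLeft (nat_lit 0x1) (nat_lit 138)) (.one (nat_lit 0x300000200300700b014400606ec16028611)) (.one (nat_lit 0x400000100200700b014200408f016028611)))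 (.br (Nat.shiftLeft (nat_lit 0x5) (nat_lit 136)) (.one (nat_lit 0x400000200300700b014400608f016028611)) (.br (Nat.shiftLeft (nat_lit 0x2800001) (nat_lit 113)) (.one (nat_lit 0x500000100200700b01420040af416028611)) (.one (nat_lit 0x500000200300700b01440060af416028611)))))))
def t235 : k235.all (jb2 57 fl b0) = true := by decide +kernel
noncomputable def k236 : KT := (.br (Nat.shiftLeft (nat_lit 0x3800001) (nat_lit 113)) (.br (Nat.shiftLeft (nat_lit 0x3000001) (nat_lit 113)) (.one (nat_lit 0x600000100200700b01420040cf816028611)) (.br (Nat.shiftLeft (nat_lit 0x7) (nat_lit 136)) (.one (nat_lit 0x600000200300700b01440060cf816028611)) (.one (nat_lit 0x700000100200700b01420040efc16028611)))) (.br (Nat.shiftLeft (nat_lit 0x4000001) (nat_lit 113)) (.br (Nat.shiftLeft (nat_lit 0x1) (nat_lit 139)) (.one (nat_lit 0x700000200300700b01440060efc16028611)) (.one (nat_lit 0x800000100200700b0142004110016028611))) (.br (Nat.shiftLeft (nat_lit 0x9) (nat_lit 136)) (.one (nat_lit 0x800000200300700b0144006110016028611)) (.one (nat_lit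 0x900000100200700b0142004130416028611)))))
def t236 : k236.all (jb2 57 fl b0) = true := by decide +kernel
noncomputable def k237 : KT := (.br (Nat.shiftLeft (nat_lit 0x5000001) (nat_lit 113)) (.br (Nat.shiftLeft (nat_lit 0x5) (nat_lit 137)) (.one (nat_lit 0x900000200300700b0144006130416028611)) (.one (nat_lit 0xa00000100200700b0142004150816028611))) (.br (Nat.shiftLeft (nat_lit 0xb) (nat_lit 136)) (.one (nat_lit 0xa00000200300700b0144006150816028611)) (.br (Nat.shiftLeft (nat_lit 0x5800001) (nat_lit 113)) (.one (nat_lit 0xb00000100200700b0142004170c16028611)) (.one (nat_lit 0xb00000200300700b0144006170c16028611)))))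
def t237 : k237.all (jb2 57 fl b0) = true := by decide +kernel
noncomputable def s12 : KT := (.br (nat_lit 0x400000700b014800000e016028411) (.br (nat_lit 0x200300700b014400600e016029600) (.br (nat_lit 0x100300700b014200600e016028650) (.br (nat_lit 0x100200700b014200400e016029600) k221 k222) (.br (nat_lit 0x100400700b014200800e016028650) k223 k224)) (.br (nat_lit 0x300000700b014600000e016028411) (.br (nat_lit 0x200400700b014400800e016028650) k225 k226) (.br (nat_lit 0x300400700b014600800e016028650) k227 k228))) (.br (nat_lit 0x600000300700b014000600e0d7828511) (.br (nat_lit 0x100000600700b014000c00e036428511) (.br (nat_lit 0x500000700b014a00000e016028411) k229 k230) (.br (nat_lit 0x400000600700b014000c00e097028511) k231 k232)) (.br (nat_lit 0x900000600700b014000c00e138428511) (.br (nat_lit 0x700000500700b014000a00e0f7c28511) k233 k234) (.br (nat_lit 0x500000200300700b01440060af416028611) k235 (.br (nat_lit 0x900000100200700b0142004130416028611) k236 k237)))))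
noncomputable def u12 : KT := (.one (nat_lit 0x700b014000000e016028430))
def w12 : u12.all (wj 57 s12) = true := by decide +kernel
def o12 : OkW 57 (jb2 57 fl) u12 := .lift s12 _ (.br _ _ _ (.br _ _ _ (.br _ _ _ (.br _ _ _ (.leaf b0 k221 t221) (.leaf b0 k222 t222)) (.br _ _ _ (.leaf b0 k223 t223) (.leaf b0 k224 t224))) (.br _ _ _ (.br _ _ _ (.leaf b0 k225 t225) (.leaf b0 k226 t226)) (.br _ _ _ (.leaf b0 k227 t227) (.leaf b0 k228 t228)))) (.br _ _ _ (.br _ _ _ (.br _ _ _ (.leaf b0 k229 t229) (.leaf b231 k230 t230)) (.br _ _ _ (.leaf b0 k231 t231) (.leaf b0 k232 t232))) (.br _ _ _ (.br _ _ _ (.leaf b0 k233 t233) (.leaf b0 k234 t234)) (.br _ _ _ (.leaf b0 k235 t235) (.br _ _ _ (.leaf b0 k236 t236) (.leaf b0 k237 t237)))))) w12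
noncomputable def k238 : KT := (.br (Nat.shiftLeft (nat_lit 0x380580b) (nat_lit 65)) (.one (nat_lit 0x700b015000000e01602b400)) (.br (Nat.shiftLeft (nat_lit 0x1) (nat_lit 100)) (.one (nat_lit 0x700b016000000e01602d400)) (.one (nat_lit 0x100700b015000200e01602a540))))
def t238 : k238.all (jb2 57 fl b0) = true := by decide +kernel
noncomputable def k239 : KT := (.br (Nat.shiftLeft (nat_lit 0x200380580b) (nat_lit 65)) (.br (Nat.shiftLeft (nat_lit 0x3) (nat_lit 100)) (.br (Nat.shiftLeft (nat_lit 0x1) (nat_lit 101)) (.one (nat_lit 0x100700b016000200e01602c540)) (.br (Nat.shiftLeft (nat_lit 0x100380580b) (nat_lit 65)) (.one (nat_lit 0x200700b015000400e01602b500)) (.one (nat_lit 0x200700b016000400e01602d500)))) (.br (Nat.shiftLeft (nat_lit 0x180380580b) (nat_lit 65)) (.one (nat_lit 0x300700b015000600e01602b500)) (.br (Nat.shiftLeft (nat_lit 0x1) (nat_lit 102)) (.one (nat_lit 0x300700b016000600e01602d500)) (.one (nat_lit 0x400700b015000800e01602b500))))) (.br (Nat.shiftLeft (nat_lit 0x3) (nat_lit 101)) (.br (Nat.shiftLeft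 (nat_lit 0x5) (nat_lit 100)) (.one (nat_lit 0x400700b016000800e01602d500)) (.br (Nat.shiftLeft (nat_lit 0x280380580b) (nat_lit 65)) (.one (nat_lit 0x500700b015000a00e01602b500)) (.one (nat_lit 0x500700b016000a00e01602d500)))) (.br (Nat.shiftLeft (nat_lit 0x1) (nat_lit 112)) (.br (Nat.shiftLeft (nat_lit 0x300380580b) (nat_lit 65)) (.one (nat_lit 0x600700b015000c00e01602b500)) (.one (nat_lit 0x600700b016000c00e01602d500))) (.br (Nat.shiftLeft (nat_lit 0x80000380580b) (nat_lit 65)) (.one (nat_lit 0x100000700b015200000e01602a411)) (.one (nat_lit 0x100000700b016200000e01602c411))))))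
def t239 : k239.all (jb2 57 fl b0) = true := by decide +kernel
noncomputable def k240 : KT := (.one (nat_lit 0x100200700b015200400e01602a650))
def t240 : k240.all (jb2 57 fl b0) = true := by decide +kernel
noncomputable def k241 : KT := (.one (nat_lit 0x100200700b016200400e01602c650))
def t241 : k241.all (jb2 57 fl b0) = true := by decide +kernel
noncomputable def k242 : KT := (.one (nat_lit 0x100300700b015200600e01602a650))
def t242 : k242.all (jb2 57 fl b0) = true := by decide +kernel
noncomputable def k243 : KT := (.br (Nat.shiftLeft (nat_lit 0x401) (nat_lit 102)) (.one (nat_lit 0x100300700b016200600e01602c650)) (.one (nat_lit 0x100400700b015200800e01602a650)))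
def t243 : k243.all (jb2 57 fl b0) = true := by decide +kernel
noncomputable def k244 : KT := (.br (Nat.shiftLeft (nat_lit 0x1005) (nat_lit 100)) (.one (nat_lit 0x100400700b016200800e01602c650)) (.br (Nat.shiftLeft (nat_lit 0x80280380580b) (nat_lit 65)) (.one (nat_lit 0x100500700b015200a00e01602a650)) (.one (nat_lit 0x100500700b016200a00e01602c650))))
def t244 : k244.all (jb2 57 fl b0) = true := by decide +kernel
noncomputable def k245 : KT := (.br (Nat.shiftLeft (nat_lit 0x1) (nat_lit 113)) (.br (Nat.shiftLeft (nat_lit 0x80300380580b) (nat_lit 65)) (.one (nat_lit 0x100600700b015200c00e01602a650)) (.one (nat_lit 0x100600700b016200c00e01602c650))) (.br (Nat.shiftLeft (nat_lit 0x100000380580b) (nat_lit 65)) (.one (nat_lit 0x200000700b015400000e01602a411)) (.one (nat_lit 0x200000700b016400000e01602c411))))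
def t245 : k245.all (jb2 57 fl b0) = true := by decide +kernel
noncomputable def k246 : KT := (.one (nat_lit 0x200300700b015400600e01602a650))
def t246 : k246.all (jb2 57 fl b0) = true := by decide +kernel
noncomputable def k247 : KT := (.one (nat_lit 0x200300700b016400600e01602c650))
def t247 : k247.all (jb2 57 fl b0) = true := by decide +kernel
noncomputable def k248 : KT := (.br (Nat.shiftLeft (nat_lit 0x100200380580b) (nat_lit 65)) (.one (nat_lit 0x200400700b015400800e01602a650)) (.one (nat_lit 0x200400700b016400800e01602c650)))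
def t248 : k248.all (jb2 57 fl b0) = true := by decide +kernel
noncomputable def k249 : KT := (.br (Nat.shiftLeft (nat_lit 0x100280380580b) (nat_lit 65)) (.one (nat_lit 0x200500700b015400a00e01602a650)) (.br (Nat.shiftLeft (nat_lit 0x1003) (nat_lit 101)) (.one (nat_lit 0x200500700b016400a00e01602c650)) (.one (nat_lit 0x200600700b015400c00e01602a650))))
def t249 : k249.all (jb2 57 fl b0) = true := by decide +kernel
noncomputable def k250 : KT := (.br (Nat.shiftLeft (nat_lit 0x180000380580b) (nat_lit 65)) (.br (Nat.shiftLeft (nat_lit 0x3) (nat_lit 112)) (.one (nat_lit 0x200600700b016400c00e01602c650)) (.one (nat_lit 0x300000700b015600000e01602a411))) (.br (Nat.shiftLeft (nat_lit 0xc01) (nat_lit 102)) (.one (nat_lit 0x300000700b016600000e01602c411)) (.one (nat_lit 0x300400700b015600800e01602a650))))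
def t250 : k250.all (jb2 57 fl b0) = true := by decide +kernel
noncomputable def k251 : KT := (.br (Nat.shiftLeft (nat_lit 0x3005) (nat_lit 100)) (.one (nat_lit 0x300400700b016600800e01602c650)) (.one (nat_lit 0x300500700b015600a00e01602a650)))
def t251 : k251.all (jb2 57 fl b0) = true := by decide +kernel
noncomputable def k252 : KT := (.br (Nat.shiftLeft (nat_lit 0x180300380580b) (nat_lit 65)) (.br (Nat.shiftLeft (nat_lit 0x1803) (nat_lit 101)) (.one (nat_lit 0x300500700b016600a00e01602c650)) (.one (nat_lit 0x300600700b015600c00e01602a650))) (.br (Nat.shiftLeft (nat_lit 0x1) (nat_lit 114)) (.one (nat_lit 0x300600700b016600c00e01602c650)) (.br (Nat.shiftLeft (nat_lit 0x200000380580b) (nat_lit 65)) (.one (nat_lit 0x400000700b015800000e01602a411)) (.one (nat_lit 0x400000700b016800000e01602c411)))))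
def t252 : k252.all (jb2 57 fl b0) = true := by decide +kernel
noncomputable def k253 : KT := (.br (Nat.shiftLeft (nat_lit 0x200280380580b) (nat_lit 65)) (.one (nat_lit 0x400500700b015800a00e01602a650)) (.br (Nat.shiftLeft (nat_lit 0x2003) (nat_lit 101)) (.one (nat_lit 0x400500700b016800a00e01602c650)) (.one (nat_lit 0x400600700b015800c00e01602a650))))
def t253 : k253.all (jb2 57 fl b0) = true := by decide +kernel
noncomputable def k254 : KT := (.br (Nat.shiftLeft (nat_lit 0x300000380580b) (nat_lit 65)) (.br (Nat.shiftLeft (nat_lit 0x1401) (nat_lit 102)) (.br (Nat.shiftLeft (nat_lit 0x5) (nat_lit 112)) (.one (nat_lit 0x400600700b016800c00e01602c650)) (.br (Nat.shiftLeft (nat_lit 0x280000380580b) (nat_lit 65)) (.one (nat_lit 0x500000700b015a00000e01602a411)) (.one (nat_lit 0x500000700b016a00000e01602c411)))) (.br (Nat.shiftLeft (nat_lit 0x280300380580b) (nat_lit 65)) (.one (nat_lit 0x500600700b015a00c00e01602a650)) (.br (Nat.shiftLeft (nat_lit 0x3) (nat_lit 113)) (.one (nat_lit 0x500600700b016a00c00e01602c650))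 (.one (nat_lit 0x600000700b015c00000e01602a411))))) (.br (Nat.shiftLeft (nat_lit 0x1) (nat_lit 115)) (.br (Nat.shiftLeft (nat_lit 0x7) (nat_lit 112)) (.one (nat_lit 0x600000700b016c00000e01602c411)) (.br (Nat.shiftLeft (nat_lit 0x380000380580b) (nat_lit 65)) (.one (nat_lit 0x700000700b015e00000e01602a411)) (.one (nat_lit 0x700000700b016e00000e01602c411)))) (.br (Nat.shiftLeft (nat_lit 0x9) (nat_lit 112)) (.br (Nat.shiftLeft (nat_lit 0x400000380580b) (nat_lit 65)) (.one (nat_lit 0x800000700b015000000e01612c411)) (.one (nat_lit 0x800000700b016000000e01612e411))) (.br (Nat.shiftLeft (nat_lit 0x480000380580b) (nat_lit 65)) (.one (nat_lit 0x900000700b015200000e01612c411)) (.one (nat_lit 0x900000700b016200000e01612e411))))))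
def t254 : k254.all (jb2 57 fl b0) = true := by decide +kernel
noncomputable def k255 : KT := (.br (Nat.shiftLeft (nat_lit 0x2000005) (nat_lit 100)) (.br (Nat.shiftLeft (nat_lit 0x1000005) (nat_lit 100)) (.br (Nat.shiftLeft (nat_lit 0x80000100380580b) (nat_lit 65)) (.br (Nat.shiftLeft (nat_lit 0xb) (nat_lit 112)) (.br (Nat.shiftLeft (nat_lit 0x500000380580b) (nat_lit 65)) (.one (nat_lit 0xa00000700b015400000e01612c411)) (.one (nat_lit 0xa00000700b016400000e01612e411))) (.br (Nat.shiftLeft (nat_lit 0x580000380580b) (nat_lit 65)) (.one (nat_lit 0xb00000700b015600000e01612c411)) (.br (Nat.shiftLeft (nat_lit 0x1) (nat_lit 124)) (.one (nat_lit 0xb00000700b016600000e01612e411)) (.one (nat_lit 0x100000200700b015000400e03642a511))))) (.br (Nat.shiftLeft (nat_lit 0x80000180380580b) (nat_lit 65)) (.br (Nat.shiftLeft (nat_lit 0x1000003) (nat_lit 100)) (.one (nat_lit 0x100000200700b016000400e03642c511)) (.one (nat_lit 0x100000300700b015000600e03642a511))) (.br (Nat.shiftLeft (nat_lit 0x400001) (nat_lit 102)) (.one (nat_lit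 0x100000300700b016000600e03642c511)) (.br (Nat.shiftLeft (nat_lit 0x80000200380580b) (nat_lit 65)) (.one (nat_lit 0x100000400700b015000800e03642a511)) (.one (nat_lit 0x100000400700b016000800e03642c511)))))) (.br (Nat.shiftLeft (nat_lit 0x100000100380580b) (nat_lit 65)) (.br (Nat.shiftLeft (nat_lit 0x800003) (nat_lit 101)) (.br (Nat.shiftLeft (nat_lit 0x80000280380580b) (nat_lit 65)) (.one (nat_lit 0x100000500700b015000a00e03642a511)) (.one (nat_lit 0x100000500700b016000a00e03642c511))) (.br (Nat.shiftLeft (nat_lit 0x80000300380580b) (nat_lit 65)) (.one (nat_lit 0x100000600700b015000c00e03642a511)) (.br (Nat.shiftLeft (nat_lit 0x1) (nat_lit 125)) (.one (nat_lit 0x100000600700b016000c00e03642c511)) (.one (nat_lit 0x200000200700b015000400e05682a511))))) (.br (Nat.shiftLeft (nat_lit 0x100000180380580b) (nat_lit 65)) (.br (Nat.shiftLeft (nat_lit 0x2000003) (nat_lit 100)) (.one (nat_lit 0x200000200700b016000400e05682c511)) (.one (nat_lit 0x200000300700b015000600e05682a511))) (.br (Nat.shiftLeft (nat_lit 0x800001)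 (nat_lit 102)) (.one (nat_lit 0x200000300700b016000600e05682c511)) (.br (Nat.shiftLeft (nat_lit 0x100000200380580b) (nat_lit 65)) (.one (nat_lit 0x200000400700b015000800e05682a511)) (.one (nat_lit 0x200000400700b016000800e05682c511))))))) (.br (Nat.shiftLeft (nat_lit 0x3000005) (nat_lit 100)) (.br (Nat.shiftLeft (nat_lit 0x180000100380580b) (nat_lit 65)) (.br (Nat.shiftLeft (nat_lit 0x1000003) (nat_lit 101)) (.br (Nat.shiftLeft (nat_lit 0x100000280380580b) (nat_lit 65)) (.one (nat_lit 0x200000500700b015000a00e05682a511)) (.one (nat_lit 0x200000500700b016000a00e05682c511))) (.br (Nat.shiftLeft (nat_lit 0x100000300380580b) (nat_lit 65)) (.one (nat_lit 0x200000600700b015000c00e05682a511)) (.br (Nat.shiftLeft (nat_lit 0x3) (nat_lit 124)) (.one (nat_lit 0x200000600700b016000c00e05682c511)) (.one (nat_lit 0x300000200700b015000400e076c2a511))))) (.br (Nat.shiftLeft (nat_lit 0x180000180380580b) (nat_lit 65)) (.br (Nat.shiftLeft (nat_lit 0x3000003) (nat_lit 100)) (.one (nat_lit 0x300000200700b016000400e076c2c511))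 (.one (nat_lit 0x300000300700b015000600e076c2a511))) (.br (Nat.shiftLeft (nat_lit 0xc00001) (nat_lit 102)) (.one (nat_lit 0x300000300700b016000600e076c2c511)) (.br (Nat.shiftLeft (nat_lit 0x180000200380580b) (nat_lit 65)) (.one (nat_lit 0x300000400700b015000800e076c2a511)) (.one (nat_lit 0x300000400700b016000800e076c2c511)))))) (.br (Nat.shiftLeft (nat_lit 0x200000100380580b) (nat_lit 65)) (.br (Nat.shiftLeft (nat_lit 0x1800003) (nat_lit 101)) (.br (Nat.shiftLeft (nat_lit 0x180000280380580b) (nat_lit 65)) (.one (nat_lit 0x300000500700b015000a00e076c2a511)) (.one (nat_lit 0x300000500700b016000a00e076c2c511))) (.br (Nat.shiftLeft (nat_lit 0x180000300380580b) (nat_lit 65)) (.one (nat_lit 0x300000600700b015000c00e076c2a511)) (.br (Nat.shiftLeft (nat_lit 0x1) (nat_lit 126)) (.one (nat_lit 0x300000600700b016000c00e076c2c511)) (.one (nat_lit 0x400000200700b015000400e09702a511))))) (.br (Nat.shiftLeft (nat_lit 0x200000180380580b) (nat_lit 65)) (.br (Nat.shiftLeft (nat_lit 0x4000003) (nat_lit 100)) (.one (nat_lit 0x400000200700b016000400e09702c511))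 (.one (nat_lit 0x400000300700b015000600e09702a511))) (.br (Nat.shiftLeft (nat_lit 0x1000001) (nat_lit 102)) (.one (nat_lit 0x400000300700b016000600e09702c511)) (.br (Nat.shiftLeft (nat_lit 0x200000200380580b) (nat_lit 65)) (.one (nat_lit 0x400000400700b015000800e09702a511)) (.one (nat_lit 0x400000400700b016000800e09702c511))))))))
def t255 : k255.all (jb2 57 fl b0) = true := by decide +kernel
noncomputable def k256 : KT := (.br (Nat.shiftLeft (nat_lit 0x5000003) (nat_lit 100)) (.br (Nat.shiftLeft (nat_lit 0x200000300380580b) (nat_lit 65)) (.br (Nat.shiftLeft (nat_lit 0x200000280380580b) (nat_lit 65)) (.one (nat_lit 0x400000500700b015000a00e09702a511)) (.br (Nat.shiftLeft (nat_lit 0x2000003) (nat_lit 101)) (.one (nat_lit 0x400000500700b016000a00e09702c511)) (.one (nat_lit 0x400000600700b015000c00e09702a511)))) (.br (Nat.shiftLeft (nat_lit 0x5) (nat_lit 124)) (.one (nat_lit 0x400000600700b016000c00e09702c511)) (.br (Nat.shiftLeft (nat_lit 0x280000100380580b) (nat_lit 65)) (.one (nat_lit 0x500000200700b015000400e0b742a511))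 (.one (nat_lit 0x500000200700b016000400e0b742c511))))) (.br (Nat.shiftLeft (nat_lit 0x280000200380580b) (nat_lit 65)) (.br (Nat.shiftLeft (nat_lit 0x280000180380580b) (nat_lit 65)) (.one (nat_lit 0x500000300700b015000600e0b742a511)) (.br (Nat.shiftLeft (nat_lit 0x1400001) (nat_lit 102)) (.one (nat_lit 0x500000300700b016000600e0b742c511)) (.one (nat_lit 0x500000400700b015000800e0b742a511)))) (.br (Nat.shiftLeft (nat_lit 0x5000005) (nat_lit 100)) (.one (nat_lit 0x500000400700b016000800e0b742c511)) (.br (Nat.shiftLeft (nat_lit 0x280000280380580b) (nat_lit 65)) (.one (nat_lit 0x500000500700b015000a00e0b742a511)) (.one (nat_lit 0x500000500700b016000a00e0b742c511))))))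
def t256 : k256.all (jb2 57 fl b0) = true := by decide +kernel
noncomputable def k257 : KT := (.br (Nat.shiftLeft (nat_lit 0x300000180380580b) (nat_lit 65)) (.br (Nat.shiftLeft (nat_lit 0x3) (nat_lit 125)) (.br (Nat.shiftLeft (nat_lit 0x280000300380580b) (nat_lit 65)) (.one (nat_lit 0x500000600700b015000c00e0b742a511)) (.one (nat_lit 0x500000600700b016000c00e0b742c511))) (.br (Nat.shiftLeft (nat_lit 0x300000100380580b) (nat_lit 65)) (.one (nat_lit 0x600000200700b015000400e0d782a511)) (.br (Nat.shiftLeft (nat_lit 0x6000003) (nat_lit 100)) (.one (nat_lit 0x600000200700b016000400e0d782c511)) (.one (nat_lit 0x600000300700b015000600e0d782a511))))) (.br (Nat.shiftLeft (nat_lit 0x6000005) (nat_lit 100)) (.br (Nat.shiftLeft (nat_lit 0x1800001) (nat_lit 102)) (.one (nat_lit 0x600000300700b016000600e0d782c511)) (.br (Nat.shiftLeft (nat_lit 0x300000200380580b) (nat_lit 65)) (.one (nat_lit 0x600000400700b015000800e0d782a511)) (.one (nat_lit 0x600000400700b016000800e0d782c511)))) (.br (Nat.shiftLeft (nat_lit 0x300000280380580b)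 (nat_lit 65)) (.one (nat_lit 0x600000500700b015000a00e0d782a511)) (.br (Nat.shiftLeft (nat_lit 0x3000003) (nat_lit 101)) (.one (nat_lit 0x600000500700b016000a00e0d782c511)) (.one (nat_lit 0x600000600700b015000c00e0d782a511))))))
def t257 : k257.all (jb2 57 fl b0) = true := by decide +kernel
noncomputable def k258 : KT := (.br (Nat.shiftLeft (nat_lit 0x380000200380580b) (nat_lit 65)) (.br (Nat.shiftLeft (nat_lit 0x7000003) (nat_lit 100)) (.br (Nat.shiftLeft (nat_lit 0x7) (nat_lit 124)) (.one (nat_lit 0x600000600700b016000c00e0d782c511)) (.br (Nat.shiftLeft (nat_lit 0x380000100380580b) (nat_lit 65)) (.one (nat_lit 0x700000200700b015000400e0f7c2a511)) (.one (nat_lit 0x700000200700b016000400e0f7c2c511)))) (.br (Nat.shiftLeft (nat_lit 0x380000180380580b) (nat_lit 65)) (.one (nat_lit 0x700000300700b015000600e0f7c2a511)) (.br (Nat.shiftLeft (nat_lit 0x1c00001) (nat_lit 102)) (.one (nat_lit 0x700000300700b016000600e0f7c2c511)) (.one (nat_lit 0x700000400700b015000800e0f7c2a511))))) (.br (Nat.shiftLeft (nat_lit 0x3800003)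 (nat_lit 101)) (.br (Nat.shiftLeft (nat_lit 0x7000005) (nat_lit 100)) (.one (nat_lit 0x700000400700b016000800e0f7c2c511)) (.br (Nat.shiftLeft (nat_lit 0x380000280380580b) (nat_lit 65)) (.one (nat_lit 0x700000500700b015000a00e0f7c2a511)) (.one (nat_lit 0x700000500700b016000a00e0f7c2c511)))) (.br (Nat.shiftLeft (nat_lit 0x380000300380580b) (nat_lit 65)) (.one (nat_lit 0x700000600700b015000c00e0f7c2a511)) (.br (Nat.shiftLeft (nat_lit 0x1) (nat_lit 127)) (.one (nat_lit 0x700000600700b016000c00e0f7c2c511)) (.one (nat_lit 0x800000200700b015000400e11802a511))))))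
def t258 : k258.all (jb2 57 fl b0) = true := by decide +kernel
noncomputable def k259 : KT := (.br (Nat.shiftLeft (nat_lit 0x480000180380580b) (nat_lit 65)) (.br (Nat.shiftLeft (nat_lit 0x400000280380580b) (nat_lit 65)) (.br (Nat.shiftLeft (nat_lit 0x2000001) (nat_lit 102)) (.br (Nat.shiftLeft (nat_lit 0x8000003) (nat_lit 100)) (.one (nat_lit 0x800000200700b016000400e11802c511)) (.br (Nat.shiftLeft (nat_lit 0x400000180380580b) (nat_lit 65)) (.one (nat_lit 0x800000300700b015000600e11802a511)) (.one (nat_lit 0x800000300700b016000600e11802c511)))) (.br (Nat.shiftLeft (nat_lit 0x400000200380580b) (nat_lit 65)) (.one (nat_lit 0x800000400700b015000800e11802a511)) (.br (Nat.shiftLeft (nat_lit 0x8000005) (nat_lit 100)) (.one (nat_lit 0x800000400700b016000800e11802c511)) (.one (nat_lit 0x800000500700b015000a00e11802a511))))) (.br (Nat.shiftLeft (nat_lit 0x9) (nat_lit 124)) (.br (Nat.shiftLeft (nat_lit 0x4000003) (nat_lit 101)) (.one (nat_lit 0x800000500700b016000a00e11802c511)) (.br (Nat.shiftLeft (nat_lit 0x400000300380580b)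 (nat_lit 65)) (.one (nat_lit 0x800000600700b015000c00e11802a511)) (.one (nat_lit 0x800000600700b016000c00e11802c511)))) (.br (Nat.shiftLeft (nat_lit 0x480000100380580b) (nat_lit 65)) (.one (nat_lit 0x900000200700b015000400e13842a511)) (.br (Nat.shiftLeft (nat_lit 0x9000003) (nat_lit 100)) (.one (nat_lit 0x900000200700b016000400e13842c511)) (.one (nat_lit 0x900000300700b015000600e13842a511)))))) (.br (Nat.shiftLeft (nat_lit 0x480000300380580b) (nat_lit 65)) (.br (Nat.shiftLeft (nat_lit 0x9000005) (nat_lit 100)) (.br (Nat.shiftLeft (nat_lit 0x2400001) (nat_lit 102)) (.one (nat_lit 0x900000300700b016000600e13842c511)) (.br (Nat.shiftLeft (nat_lit 0x480000200380580b) (nat_lit 65)) (.one (nat_lit 0x900000400700b015000800e13842a511)) (.one (nat_lit 0x900000400700b016000800e13842c511)))) (.br (Nat.shiftLeft (nat_lit 0x480000280380580b) (nat_lit 65)) (.one (nat_lit 0x900000500700b015000a00e13842a511)) (.br (Nat.shiftLeft (nat_lit 0x4800003) (nat_lit 101)) (.one (nat_lit 0x900000500700b016000a00e13842c511)) (.one (nat_lit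 0x900000600700b015000c00e13842a511))))) (.br (Nat.shiftLeft (nat_lit 0xa000003) (nat_lit 100)) (.br (Nat.shiftLeft (nat_lit 0x5) (nat_lit 125)) (.one (nat_lit 0x900000600700b016000c00e13842c511)) (.br (Nat.shiftLeft (nat_lit 0x500000100380580b) (nat_lit 65)) (.one (nat_lit 0xa00000200700b015000400e15882a511)) (.one (nat_lit 0xa00000200700b016000400e15882c511)))) (.br (Nat.shiftLeft (nat_lit 0x2800001) (nat_lit 102)) (.br (Nat.shiftLeft (nat_lit 0x500000180380580b) (nat_lit 65)) (.one (nat_lit 0xa00000300700b015000600e15882a511)) (.one (nat_lit 0xa00000300700b016000600e15882c511))) (.br (Nat.shiftLeft (nat_lit 0x500000200380580b) (nat_lit 65)) (.one (nat_lit 0xa00000400700b015000800e15882a511)) (.one (nat_lit 0xa00000400700b016000800e15882c511)))))))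
def t259 : k259.all (jb2 57 fl b0) = true := by decide +kernel
noncomputable def k260 : KT := (.br (Nat.shiftLeft (nat_lit 0x580000180380580b) (nat_lit 65)) (.br (Nat.shiftLeft (nat_lit 0x500000300380580b) (nat_lit 65)) (.br (Nat.shiftLeft (nat_lit 0x500000280380580b) (nat_lit 65)) (.one (nat_lit 0xa00000500700b015000a00e15882a511)) (.br (Nat.shiftLeft (nat_lit 0x5000003) (nat_lit 101)) (.one (nat_lit 0xa00000500700b016000a00e15882c511)) (.one (nat_lit 0xa00000600700b015000c00e15882a511)))) (.br (Nat.shiftLeft (nat_lit 0x580000100380580b) (nat_lit 65)) (.br (Nat.shiftLeft (nat_lit 0xb) (nat_lit 124)) (.one (nat_lit 0xa00000600700b016000c00e15882c511)) (.one (nat_lit 0xb00000200700b015000400e178c2a511))) (.br (Nat.shiftLeft (nat_lit 0xb000003) (nat_lit 100)) (.one (nat_lit 0xb00000200700b016000400e178c2c511)) (.one (nat_lit 0xb00000300700b015000600e178c2a511))))) (.br (Nat.shiftLeft (nat_lit 0xb000005) (nat_lit 100)) (.br (Nat.shiftLeft (nat_lit 0x2c00001) (nat_lit 102)) (.one (nat_lit 0xb00000300700b016000600e178c2c511))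 (.br (Nat.shiftLeft (nat_lit 0x580000200380580b) (nat_lit 65)) (.one (nat_lit 0xb00000400700b015000800e178c2a511)) (.one (nat_lit 0xb00000400700b016000800e178c2c511)))) (.br (Nat.shiftLeft (nat_lit 0x5800003) (nat_lit 101)) (.br (Nat.shiftLeft (nat_lit 0x580000280380580b) (nat_lit 65)) (.one (nat_lit 0xb00000500700b015000a00e178c2a511)) (.one (nat_lit 0xb00000500700b016000a00e178c2c511))) (.br (Nat.shiftLeft (nat_lit 0x580000300380580b) (nat_lit 65)) (.one (nat_lit 0xb00000600700b015000c00e178c2a511)) (.one (nat_lit 0xb00000600700b016000c00e178c2c511))))))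
def t260 : k260.all (jb2 57 fl b0) = true := by decide +kernel
noncomputable def s13 : KT := (.br (nat_lit 0x200400700b016400800e01602c650) (.br (nat_lit 0x100300700b015200600e01602a650) (.br (nat_lit 0x100000700b016200000e01602c411) (.br (nat_lit 0x100700b015000200e01602a540) k238 k239) (.br (nat_lit 0x100200700b015200400e01602a650) k240 (.br (nat_lit 0x100200700b016200400e01602c650) k241 k242))) (.br (nat_lit 0x200000700b016400000e01602c411) (.br (nat_lit 0x100400700b015200800e01602a650) k243 (.br (nat_lit 0x100500700b016200a00e01602c650) k244 k245)) (.br (nat_lit 0x200300700b015400600e01602a650) k246 (.br (nat_lit 0x200300700b016400600e01602c650) k247 k248)))) (.br (nat_lit 0x900000700b016200000e01612e411) (.br (nat_lit 0x300500700b015600a00e01602a650) (.br (nat_lit 0x200600700b015400c00e01602a650) k249 (.br (nat_lit 0x300400700b015600800e01602a650) k250 k251)) (.br (nat_lit 0x400000700b016800000e01602c411) k252 (.br (nat_lit 0x400600700b015800c00e01602a650) k253 k254))) (.br (nat_lit 0x600000600700b015000c00e0d782a511)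 (.br (nat_lit 0x400000400700b016000800e09702c511) k255 (.br (nat_lit 0x500000500700b016000a00e0b742c511) k256 k257)) (.br (nat_lit 0x800000200700b015000400e11802a511) k258 (.br (nat_lit 0xa00000400700b016000800e15882c511) k259 k260)))))
noncomputable def u13 : KT := (.br (Nat.shiftLeft (nat_lit 0x380580b) (nat_lit 65)) (.one (nat_lit 0x700b015000000e01602a430)) (.one (nat_lit 0x700b016000000e01602c430)))
def w13 : u13.all (wj 57 s13) = true := by decide +kernel
def o13 : OkW 57 (jb2 57 fl) u13 := .lift s13 _ (.br _ _ _ (.br _ _ _ (.br _ _ _ (.br _ _ _ (.leaf b0 k238 t238) (.leaf b0 k239 t239)) (.br _ _ _ (.leaf b0 k240 t240) (.br _ _ _ (.leaf b0 k241 t241) (.leaf b0 k242 t242)))) (.br _ _ _ (.br _ _ _ (.leaf b0 k243 t243) (.br _ _ _ (.leaf b0 k244 t244) (.leaf b0 k245 t245))) (.br _ _ _ (.leaf b0 k246 t246) (.br _ _ _ (.leaf b0 k247 t247) (.leaf b0 k248 t248))))) (.br _ _ _ (.br _ _ _ (.br _ _ _ (.leaf b0 k249 t249) (.br _ _ _ (.leaf b0 k250 t250) (.leaf b0 k251 t251))) (.br _ _ _ (.leaf b0 k252 t252) (.br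 _ _ _ (.leaf b0 k253 t253) (.leaf b0 k254 t254)))) (.br _ _ _ (.br _ _ _ (.leaf b0 k255 t255) (.br _ _ _ (.leaf b0 k256 t256) (.leaf b0 k257 t257))) (.br _ _ _ (.leaf b0 k258 t258) (.br _ _ _ (.leaf b0 k259 t259) (.leaf b0 k260 t260)))))) w13
noncomputable def k261 : KT := (.br (Nat.shiftLeft (nat_lit 0x700c01) (nat_lit 68)) (.br (Nat.shiftLeft (nat_lit 0x1c03) (nat_lit 78)) (.br (Nat.shiftLeft (nat_lit 0xe01603) (nat_lit 67)) (.one (nat_lit 0x700b017000000e01602f400)) (.one (nat_lit 0x700b018000000e016031400))) (.br (Nat.shiftLeft (nat_lit 0x3806007) (nat_lit 65)) (.one (nat_lit 0x700c00d000000e01801b400)) (.br (Nat.shiftLeft (nat_lit 0x700c00f) (nat_lit 64)) (.one (nat_lit 0x700c00e000000e01801d400)) (.one (nat_lit 0x700c00f000000e01801f400))))) (.br (Nat.shiftLeft (nat_lit 0x3806009) (nat_lit 65)) (.br (Nat.shiftLeft (nat_lit 0x700c011) (nat_lit 64)) (.one (nat_lit 0x700c010000000e018021400)) (.one (nat_lit 0x700c011000000e018023400))) (.br (Nat.shiftLeft (nat_lit 0x1) (nat_lit 100)) (.one (nat_lit 0x700c012000000e018025400))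 (.br (Nat.shiftLeft (nat_lit 0x200e01603) (nat_lit 67)) (.one (nat_lit 0x100700b017000200e01602e540)) (.one (nat_lit 0x100700b018000200e016030540))))))
def t261 : k261.all (jb2 57 fl b0) = true := by decide +kernel
noncomputable def k262 : KT := (.one (nat_lit 0x200700b017000400e01602e540))
def t262 : k262.all (jb2 57 fl b0) = true := by decide +kernel
noncomputable def k263 : KT := (.br (Nat.shiftLeft (nat_lit 0x3) (nat_lit 100)) (.one (nat_lit 0x200700b018000400e016030540)) (.one (nat_lit 0x300700b017000600e01602f500)))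
def t263 : k263.all (jb2 57 fl b0) = true := by decide +kernel
noncomputable def k264 : KT := (.br (Nat.shiftLeft (nat_lit 0x1) (nat_lit 102)) (.one (nat_lit 0x300700b018000600e016030540)) (.one (nat_lit 0x400700b017000800e01602f500)))
def t264 : k264.all (jb2 57 fl b0) = true := by decide +kernel
noncomputable def k265 : KT := (.one (nat_lit 0x400700b018000800e016030540))
def t265 : k265.all (jb2 57 fl b0) = true := by decide +kernel
noncomputable def k266 : KT := (.one (nat_lit 0x500700b017000a00e01602e540))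
def t266 : k266.all (jb2 57 fl b0) = true := by decide +kernel
noncomputable def k267 : KT := (.one (nat_lit 0x500700b018000a00e016030540))
def t267 : k267.all (jb2 57 fl b0) = true := by decide +kernel
noncomputable def k268 : KT := (.one (nat_lit 0x600700b017000c00e01602e540))
def t268 : k268.all (jb2 57 fl b0) = true := by decide +kernel
noncomputable def k269 : KT := (.br (Nat.shiftLeft (nat_lit 0x801) (nat_lit 101)) (.br (Nat.shiftLeft (nat_lit 0x1) (nat_lit 112)) (.one (nat_lit 0x600700b018000c00e016030540)) (.br (Nat.shiftLeft (nat_lit 0x200000e01603) (nat_lit 67)) (.one (nat_lit 0x100000700b017200000e01602e411)) (.one (nat_lit 0x100000700b018200000e016030411)))) (.br (Nat.shiftLeft (nat_lit 0x401) (nat_lit 102)) (.one (nat_lit 0x100300700b017200600e01602e650)) (.br (Nat.shiftLeft (nat_lit 0x1) (nat_lit 113)) (.one (nat_lit 0x100400700b017200800e01602e650)) (.one (nat_lit 0x200000700b017400000e01602e411)))))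
def t269 : k269.all (jb2 57 fl b0) = true := by decide +kernel
noncomputable def k270 : KT := (.br (Nat.shiftLeft (nat_lit 0x600000e01603) (nat_lit 67)) (.br (Nat.shiftLeft (nat_lit 0x801) (nat_lit 102)) (.br (Nat.shiftLeft (nat_lit 0x1001) (nat_lit 101)) (.one (nat_lit 0x200000700b018400000e016030411)) (.one (nat_lit 0x200300700b017400600e01602e650))) (.br (Nat.shiftLeft (nat_lit 0x3) (nat_lit 112)) (.one (nat_lit 0x200400700b017400800e01602e650)) (.one (nat_lit 0x300000700b017600000e01602e411)))) (.br (Nat.shiftLeft (nat_lit 0x1) (nat_lit 114)) (.br (Nat.shiftLeft (nat_lit 0xc01) (nat_lit 102)) (.one (nat_lit 0x300000700b018600000e016030411)) (.one (nat_lit 0x300400700b017600800e01602e650))) (.br (Nat.shiftLeft (nat_lit 0x800000e01603) (nat_lit 67)) (.one (nat_lit 0x400000700b017800000e01602e411)) (.one (nat_lit 0x400000700b018800000e016030411)))))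
def t270 : k270.all (jb2 57 fl b0) = true := by decide +kernel
noncomputable def k271 : KT := (.br (Nat.shiftLeft (nat_lit 0x1600000e01603) (nat_lit 67)) (.br (Nat.shiftLeft (nat_lit 0x1) (nat_lit 115)) (.br (Nat.shiftLeft (nat_lit 0xc00000e01603) (nat_lit 67)) (.br (Nat.shiftLeft (nat_lit 0xa00000e01603) (nat_lit 67)) (.one (nat_lit 0x500000700b017a00000e01602e411)) (.br (Nat.shiftLeft (nat_lit 0x3) (nat_lit 113)) (.one (nat_lit 0x500000700b018a00000e016030411)) (.one (nat_lit 0x600000700b017c00000e01602e411)))) (.br (Nat.shiftLeft (nat_lit 0x7) (nat_lit 112)) (.one (nat_lit 0x600000700b018c00000e016030411)) (.br (Nat.shiftLeft (nat_lit 0xe00000e01603) (nat_lit 67)) (.one (nat_lit 0x700000700b017e00000e01602e411)) (.one (nat_lit 0x700000700b018e00000e016030411))))) (.br (Nat.shiftLeft (nat_lit 0x1200000e01603) (nat_lit 67)) (.br (Nat.shiftLeft (nat_lit 0x1000000e01603) (nat_lit 67)) (.one (nat_lit 0x800000700b017000000e016130411)) (.br (Nat.shiftLeft (nat_lit 0x9) (nat_lit 112)) (.one (nat_lit 0x800000700b018000000e016132411))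 (.one (nat_lit 0x900000700b017200000e016130411)))) (.br (Nat.shiftLeft (nat_lit 0x1400000e01603) (nat_lit 67)) (.br (Nat.shiftLeft (nat_lit 0x5) (nat_lit 113)) (.one (nat_lit 0x900000700b018200000e016132411)) (.one (nat_lit 0xa00000700b017400000e016130411))) (.br (Nat.shiftLeft (nat_lit 0xb) (nat_lit 112)) (.one (nat_lit 0xa00000700b018400000e016132411)) (.one (nat_lit 0xb00000700b017600000e016130411)))))) (.br (Nat.shiftLeft (nat_lit 0x1) (nat_lit 126)) (.br (Nat.shiftLeft (nat_lit 0x1) (nat_lit 125)) (.br (Nat.shiftLeft (nat_lit 0x1) (nat_lit 124)) (.one (nat_lit 0xb00000700b018600000e016132411)) (.br (Nat.shiftLeft (nat_lit 0x400001) (nat_lit 102)) (.one (nat_lit 0x100000300700b017000600e03642e511)) (.one (nat_lit 0x100000400700b017000800e03642e511)))) (.br (Nat.shiftLeft (nat_lit 0x3) (nat_lit 124)) (.br (Nat.shiftLeft (nat_lit 0x800001) (nat_lit 102)) (.one (nat_lit 0x200000300700b017000600e05682e511)) (.one (nat_lit 0x200000400700b017000800e05682e511))) (.br (Nat.shiftLeft (nat_lit 0xc00001) (nat_lit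 102)) (.one (nat_lit 0x300000300700b017000600e076c2e511)) (.one (nat_lit 0x300000400700b017000800e076c2e511))))) (.br (Nat.shiftLeft (nat_lit 0x1400001) (nat_lit 102)) (.br (Nat.shiftLeft (nat_lit 0x1000001) (nat_lit 102)) (.one (nat_lit 0x400000300700b017000600e09702e511)) (.br (Nat.shiftLeft (nat_lit 0x5) (nat_lit 124)) (.one (nat_lit 0x400000400700b017000800e09702e511)) (.one (nat_lit 0x500000300700b017000600e0b742e511)))) (.br (Nat.shiftLeft (nat_lit 0x1800001) (nat_lit 102)) (.br (Nat.shiftLeft (nat_lit 0x3) (nat_lit 125)) (.one (nat_lit 0x500000400700b017000800e0b742e511)) (.one (nat_lit 0x600000300700b017000600e0d782e511))) (.br (Nat.shiftLeft (nat_lit 0x7) (nat_lit 124)) (.one (nat_lit 0x600000400700b017000800e0d782e511)) (.one (nat_lit 0x700000300700b017000600e0f7c2e511)))))))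
def t271 : k271.all (jb2 57 fl b0) = true := by decide +kernel
noncomputable def k272 : KT := (.br (Nat.shiftLeft (nat_lit 0x2400001) (nat_lit 102)) (.br (Nat.shiftLeft (nat_lit 0x2000001) (nat_lit 102)) (.br (Nat.shiftLeft (nat_lit 0x1) (nat_lit 127)) (.one (nat_lit 0x700000400700b017000800e0f7c2e511)) (.one (nat_lit 0x800000300700b017000600e11802e511))) (.br (Nat.shiftLeft (nat_lit 0x9) (nat_lit 124)) (.one (nat_lit 0x800000400700b017000800e11802e511)) (.one (nat_lit 0x900000300700b017000600e13842e511)))) (.br (Nat.shiftLeft (nat_lit 0x2800001) (nat_lit 102)) (.br (Nat.shiftLeft (nat_lit 0x5) (nat_lit 125)) (.one (nat_lit 0x900000400700b017000800e13842e511)) (.one (nat_lit 0xa00000300700b017000600e15882e511))) (.br (Nat.shiftLeft (nat_lit 0xb) (nat_lit 124)) (.one (nat_lit 0xa00000400700b017000800e15882e511)) (.br (Nat.shiftLeft (nat_lit 0x2c00001) (nat_lit 102)) (.one (nat_lit 0xb00000300700b017000600e178c2e511)) (.one (nat_lit 0xb00000400700b017000800e178c2e511))))))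
def t272 : k272.all (jb2 57 fl b0) = true := by decide +kernel
noncomputable def s14 : KT := (.br (nat_lit 0x500700b017000a00e01602e540) (.br (nat_lit 0x300700b017000600e01602f500) (.br (nat_lit 0x100700b018000200e016030540) k261 (.br (nat_lit 0x200700b017000400e01602e540) k262 k263)) (.br (nat_lit 0x400700b017000800e01602f500) k264 (.br (nat_lit 0x400700b018000800e016030540) k265 k266))) (.br (nat_lit 0x200000700b017400000e01602e411) (.br (nat_lit 0x500700b018000a00e016030540) k267 (.br (nat_lit 0x600700b017000c00e01602e540) k268 k269)) (.br (nat_lit 0x400000700b018800000e016030411) k270 (.br (nat_lit 0x700000300700b017000600e0f7c2e511) k271 k272))))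
noncomputable def u14 : KT := (.br (Nat.shiftLeft (nat_lit 0x700c00f) (nat_lit 64)) (.br (Nat.shiftLeft (nat_lit 0x1c03) (nat_lit 78)) (.br (Nat.shiftLeft (nat_lit 0xe01603) (nat_lit 67)) (.one (nat_lit 0x700b017000000e01602e430)) (.one (nat_lit 0x700b018000000e016030430))) (.br (Nat.shiftLeft (nat_lit 0x3806007) (nat_lit 65)) (.one (nat_lit 0x700c00d000000e01801b400)) (.one (nat_lit 0x700c00e000000e01801d400)))) (.br (Nat.shiftLeft (nat_lit 0x700c011) (nat_lit 64)) (.br (Nat.shiftLeft (nat_lit 0x700c01) (nat_lit 68)) (.one (nat_lit 0x700c00f000000e01801f400)) (.one (nat_lit 0x700c010000000e018021400))) (.br (Nat.shiftLeft (nat_lit 0x3806009) (nat_lit 65)) (.one (nat_lit 0x700c011000000e018023400)) (.one (nat_lit 0x700c012000000e018025400)))))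
def w14 : u14.all (wj 57 s14) = true := by decide +kernel
def o14 : OkW 57 (jb2 57 fl) u14 := .lift s14 _ (.br _ _ _ (.br _ _ _ (.br _ _ _ (.leaf b0 k261 t261) (.br _ _ _ (.leaf b0 k262 t262) (.leaf b0 k263 t263))) (.br _ _ _ (.leaf b0 k264 t264) (.br _ _ _ (.leaf b0 k265 t265) (.leaf b0 k266 t266)))) (.br _ _ _ (.br _ _ _ (.leaf b0 k267 t267) (.br _ _ _ (.leaf b0 k268 t268) (.leaf b0 k269 t269))) (.br _ _ _ (.leaf b0 k270 t270) (.br _ _ _ (.leaf b0 k271 t271) (.leaf b0 k272 t272))))) w14
noncomputable def k273 : KT := (.br (Nat.shiftLeft (nat_lit 0x5) (nat_lit 100)) (.br (Nat.shiftLeft (nat_lit 0x1) (nat_lit 101)) (.br (Nat.shiftLeft (nat_lit 0x1) (nat_lit 100)) (.one (nat_lit 0x700c013000000e018027400)) (.one (nat_lit 0x100700c013000200e018027500))) (.br (Nat.shiftLeft (nat_lit 0x3) (nat_lit 100)) (.one (nat_lit 0x200700c013000400e018027500)) (.br (Nat.shiftLeft (nat_lit 0x1) (nat_lit 102)) (.one (nat_lit 0x300700c013000600e018027500)) (.one (nat_lit 0x400700c013000800e018027500))))) (.br (Nat.shiftLeft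 (nat_lit 0x1) (nat_lit 112)) (.br (Nat.shiftLeft (nat_lit 0x3) (nat_lit 101)) (.one (nat_lit 0x500700c013000a00e018027500)) (.one (nat_lit 0x600700c013000c00e018027500))) (.br (Nat.shiftLeft (nat_lit 0x801) (nat_lit 101)) (.one (nat_lit 0x100000700c013200000e018026411)) (.br (Nat.shiftLeft (nat_lit 0x1003) (nat_lit 100)) (.one (nat_lit 0x100200700c013200400e018027600)) (.one (nat_lit 0x100300700c013200600e018026650))))))
def t273 : k273.all (jb2 57 fl b0) = true := by decide +kernel
noncomputable def k274 : KT := (.one (nat_lit 0x100400700c013200800e018026650))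
def t274 : k274.all (jb2 57 fl b0) = true := by decide +kernel
noncomputable def k275 : KT := (.br (Nat.shiftLeft (nat_lit 0x1) (nat_lit 113)) (.br (Nat.shiftLeft (nat_lit 0x803) (nat_lit 101)) (.one (nat_lit 0x100500700c013200a00e018026650)) (.one (nat_lit 0x100600700c013200c00e018026650))) (.br (Nat.shiftLeft (nat_lit 0x1001) (nat_lit 101)) (.one (nat_lit 0x200000700c013400000e018026411)) (.one (nat_lit 0x200300700c013400600e018027600))))
def t275 : k275.all (jb2 57 fl b0) = true := by decide +kernel
noncomputable def k276 : KT := (.one (nat_lit 0x200400700c013400800e018026650))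
def t276 : k276.all (jb2 57 fl b0) = true := by decide +kernel
noncomputable def k277 : KT := (.br (Nat.shiftLeft (nat_lit 0x1003) (nat_lit 101)) (.one (nat_lit 0x200500700c013400a00e018026650)) (.br (Nat.shiftLeft (nat_lit 0x3) (nat_lit 112)) (.one (nat_lit 0x200600700c013400c00e018026650)) (.one (nat_lit 0x300000700c013600000e018026411))))
def t277 : k277.all (jb2 57 fl b0) = true := by decide +kernel
noncomputable def k278 : KT := (.one (nat_lit 0x300400700c013600800e018026650))
def t278 : k278.all (jb2 57 fl b0) = true := by decide +kernel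
noncomputable def k279 : KT := (.br (Nat.shiftLeft (nat_lit 0x1803) (nat_lit 101)) (.one (nat_lit 0x300500700c013600a00e018026650)) (.br (Nat.shiftLeft (nat_lit 0x1) (nat_lit 114)) (.one (nat_lit 0x300600700c013600c00e018026650)) (.one (nat_lit 0x400000700c013800000e018026411))))
def t279 : k279.all (jb2 57 fl b0) = true := by decide +kernel
noncomputable def k280 : KT := (.br (Nat.shiftLeft (nat_lit 0x2003) (nat_lit 101)) (.one (nat_lit 0x400500700c013800a00e018026650)) (.br (Nat.shiftLeft (nat_lit 0x5) (nat_lit 112)) (.one (nat_lit 0x400600700c013800c00e018026650)) (.one (nat_lit 0x500000700c013a00000e018026411))))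
def t280 : k280.all (jb2 57 fl b0) = true := by decide +kernel
noncomputable def k281 : KT := (.br (Nat.shiftLeft (nat_lit 0x3) (nat_lit 114)) (.br (Nat.shiftLeft (nat_lit 0x1) (nat_lit 115)) (.br (Nat.shiftLeft (nat_lit 0x3) (nat_lit 113)) (.one (nat_lit 0x500600700c013a00c00e018026650)) (.br (Nat.shiftLeft (nat_lit 0x7) (nat_lit 112)) (.one (nat_lit 0x600000700c013c00000e018026411)) (.one (nat_lit 0x700000700c013e00000e018026411)))) (.br (Nat.shiftLeft (nat_lit 0x5) (nat_lit 113)) (.br (Nat.shiftLeft (nat_lit 0x9) (nat_lit 112)) (.one (nat_lit 0x800000700c013000000e018128411)) (.one (nat_lit 0x900000700c013200000e018128411))) (.br (Nat.shiftLeft (nat_lit 0xb) (nat_lit 112)) (.one (nat_lit 0xa00000700c013400000e018128411)) (.one (nat_lit 0xb00000700c013600000e018128411))))) (.br (Nat.shiftLeft (nat_lit 0x1000003) (nat_lit 100)) (.br (Nat.shiftLeft (nat_lit 0x1) (nat_lit 124)) (.one (nat_lit 0xc00000700c013800000e018128411)) (.br (Nat.shiftLeft (nat_lit 0x800001) (nat_lit 101)) (.one (nat_lit 0x100000100700c013000200e038426511))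 (.one (nat_lit 0x100000200700c013000400e038426511)))) (.br (Nat.shiftLeft (nat_lit 0x1000005) (nat_lit 100)) (.br (Nat.shiftLeft (nat_lit 0x400001) (nat_lit 102)) (.one (nat_lit 0x100000300700c013000600e038426511)) (.one (nat_lit 0x100000400700c013000800e038426511))) (.br (Nat.shiftLeft (nat_lit 0x800003) (nat_lit 101)) (.one (nat_lit 0x100000500700c013000a00e038426511)) (.one (nat_lit 0x100000600700c013000c00e038426511))))))
noncomputable def b282 : BT := .node (nat_lit 0xb) (nat_lit 0x36cc9809376d9a4e098400196d000653800194f00055c416d936cc9d600196c80055c00ed9a4e09d496327524e40032d8000ac6c0032da000ca7c2002c6002c6002c6002c60020b0020b0020b0020b001ab001ab000f0000f0) .leaf .leaf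
def t281 : k281.all (jb2 57 fl b282) = true := by decide +kernel
noncomputable def k282 : KT := (.br (Nat.shiftLeft (nat_lit 0x3000003) (nat_lit 100)) (.br (Nat.shiftLeft (nat_lit 0x800001) (nat_lit 102)) (.br (Nat.shiftLeft (nat_lit 0x1000001) (nat_lit 101)) (.br (Nat.shiftLeft (nat_lit 0x1) (nat_lit 125)) (.one (nat_lit 0x100200300700c013400600e038426760)) (.one (nat_lit 0x200000100700c013000200e058826511))) (.br (Nat.shiftLeft (nat_lit 0x2000003) (nat_lit 100)) (.one (nat_lit 0x200000200700c013000400e058826511)) (.one (nat_lit 0x200000300700c013000600e058826511)))) (.br (Nat.shiftLeft (nat_lit 0x1000003) (nat_lit 101)) (.br (Nat.shiftLeft (nat_lit 0x2000005) (nat_lit 100)) (.one (nat_lit 0x200000400700c013000800e058826511)) (.one (nat_lit 0x200000500700c013000a00e058826511))) (.br (Nat.shiftLeft (nat_lit 0x3) (nat_lit 124)) (.one (nat_lit 0x200000600700c013000c00e058826511)) (.br (Nat.shiftLeft (nat_lit 0x1800001) (nat_lit 101)) (.one (nat_lit 0x300000100700c013000200e078c26511)) (.one (nat_lit 0x300000200700c013000400e078c26511))))))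 (.br (Nat.shiftLeft (nat_lit 0x2000001) (nat_lit 101)) (.br (Nat.shiftLeft (nat_lit 0x3000005) (nat_lit 100)) (.br (Nat.shiftLeft (nat_lit 0xc00001) (nat_lit 102)) (.one (nat_lit 0x300000300700c013000600e078c26511)) (.one (nat_lit 0x300000400700c013000800e078c26511))) (.br (Nat.shiftLeft (nat_lit 0x1800003) (nat_lit 101)) (.one (nat_lit 0x300000500700c013000a00e078c26511)) (.br (Nat.shiftLeft (nat_lit 0x1) (nat_lit 126)) (.one (nat_lit 0x300000600700c013000c00e078c26511)) (.one (nat_lit 0x400000100700c013000200e099026511))))) (.br (Nat.shiftLeft (nat_lit 0x1000001) (nat_lit 102)) (.br (Nat.shiftLeft (nat_lit 0x4000003) (nat_lit 100)) (.one (nat_lit 0x400000200700c013000400e099026511)) (.one (nat_lit 0x400000300700c013000600e099026511))) (.br (Nat.shiftLeft (nat_lit 0x4000005) (nat_lit 100)) (.one (nat_lit 0x400000400700c013000800e099026511)) (.br (Nat.shiftLeft (nat_lit 0x2000003) (nat_lit 101)) (.one (nat_lit 0x400000500700c013000a00e099026511)) (.one (nat_lit 0x400000600700c013000c00e099026511)))))))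
def t282 : k282.all (jb2 57 fl b0) = true := by decide +kernel
noncomputable def k283 : KT := (.br (Nat.shiftLeft (nat_lit 0x5000005) (nat_lit 100)) (.br (Nat.shiftLeft (nat_lit 0x5000003) (nat_lit 100)) (.br (Nat.shiftLeft (nat_lit 0x2800001) (nat_lit 101)) (.one (nat_lit 0x500000100700c013000200e0b9426511)) (.one (nat_lit 0x500000200700c013000400e0b9426511))) (.br (Nat.shiftLeft (nat_lit 0x1400001) (nat_lit 102)) (.one (nat_lit 0x500000300700c013000600e0b9426511)) (.one (nat_lit 0x500000400700c013000800e0b9426511)))) (.br (Nat.shiftLeft (nat_lit 0x3) (nat_lit 125)) (.br (Nat.shiftLeft (nat_lit 0x2800003) (nat_lit 101)) (.one (nat_lit 0x500000500700c013000a00e0b9426511)) (.one (nat_lit 0x500000600700c013000c00e0b9426511))) (.br (Nat.shiftLeft (nat_lit 0x3000001) (nat_lit 101)) (.one (nat_lit 0x600000100700c013000200e0d9826511)) (.one (nat_lit 0x600000200700c013000400e0d9826511)))))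
def t283 : k283.all (jb2 57 fl b0) = true := by decide +kernel
noncomputable def k284 : KT := (.br (Nat.shiftLeft (nat_lit 0x3000003) (nat_lit 101)) (.br (Nat.shiftLeft (nat_lit 0x1800001) (nat_lit 102)) (.one (nat_lit 0x600000300700c013000600e0d9826511)) (.br (Nat.shiftLeft (nat_lit 0x6000005) (nat_lit 100)) (.one (nat_lit 0x600000400700c013000800e0d9826511)) (.one (nat_lit 0x600000500700c013000a00e0d9826511)))) (.br (Nat.shiftLeft (nat_lit 0x7) (nat_lit 124)) (.one (nat_lit 0x600000600700c013000c00e0d9826511)) (.br (Nat.shiftLeft (nat_lit 0x3800001) (nat_lit 101)) (.one (nat_lit 0x700000100700c013000200e0f9c26511)) (.one (nat_lit 0x700000200700c013000400e0f9c26511)))))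
def t284 : k284.all (jb2 57 fl b0) = true := by decide +kernel
noncomputable def k285 : KT := (.br (Nat.shiftLeft (nat_lit 0x3800003) (nat_lit 101)) (.br (Nat.shiftLeft (nat_lit 0x1c00001) (nat_lit 102)) (.one (nat_lit 0x700000300700c013000600e0f9c26511)) (.br (Nat.shiftLeft (nat_lit 0x7000005) (nat_lit 100)) (.one (nat_lit 0x700000400700c013000800e0f9c26511)) (.one (nat_lit 0x700000500700c013000a00e0f9c26511)))) (.br (Nat.shiftLeft (nat_lit 0x4000001) (nat_lit 101)) (.br (Nat.shiftLeft (nat_lit 0x1) (nat_lit 127)) (.one (nat_lit 0x700000600700c013000c00e0f9c26511)) (.one (nat_lit 0x800000100700c013000200e11a026511))) (.br (Nat.shiftLeft (nat_lit 0x8000003) (nat_lit 100)) (.one (nat_lit 0x800000200700c013000400e11a026511)) (.one (nat_lit 0x800000300700c013000600e11a026511)))))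
def t285 : k285.all (jb2 57 fl b0) = true := by decide +kernel
noncomputable def k286 : KT := (.br (Nat.shiftLeft (nat_lit 0x9000003) (nat_lit 100)) (.br (Nat.shiftLeft (nat_lit 0x4000003) (nat_lit 101)) (.br (Nat.shiftLeft (nat_lit 0x8000005) (nat_lit 100)) (.one (nat_lit 0x800000400700c013000800e11a026511)) (.one (nat_lit 0x800000500700c013000a00e11a026511))) (.br (Nat.shiftLeft (nat_lit 0x9) (nat_lit 124)) (.one (nat_lit 0x800000600700c013000c00e11a026511)) (.br (Nat.shiftLeft (nat_lit 0x4800001) (nat_lit 101)) (.one (nat_lit 0x900000100700c013000200e13a426511)) (.one (nat_lit 0x900000200700c013000400e13a426511))))) (.br (Nat.shiftLeft (nat_lit 0x4800003) (nat_lit 101)) (.br (Nat.shiftLeft (nat_lit 0x2400001) (nat_lit 102)) (.one (nat_lit 0x900000300700c013000600e13a426511)) (.br (Nat.shiftLeft (nat_lit 0x9000005) (nat_lit 100)) (.one (nat_lit 0x900000400700c013000800e13a426511)) (.one (nat_lit 0x900000500700c013000a00e13a426511)))) (.br (Nat.shiftLeft (nat_lit 0x5) (nat_lit 125)) (.one (nat_lit 0x900000600700c013000c00e13a426511))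 (.br (Nat.shiftLeft (nat_lit 0x5000001) (nat_lit 101)) (.one (nat_lit 0xa00000100700c013000200e15a826511)) (.one (nat_lit 0xa00000200700c013000400e15a826511))))))
noncomputable def b287 : BT := .node (nat_lit 0x1) (nat_lit 0xdb26d993ac0032d9000ab8010008800028) .leaf .leaf
def t286 : k286.all (jb2 57 fl b287) = true := by decide +kernel
noncomputable def k287 : KT := (.br (Nat.shiftLeft (nat_lit 0xc000003) (nat_lit 100)) (.br (Nat.shiftLeft (nat_lit 0xb000003) (nat_lit 100)) (.br (Nat.shiftLeft (nat_lit 0x5000003) (nat_lit 101)) (.br (Nat.shiftLeft (nat_lit 0x2800001) (nat_lit 102)) (.one (nat_lit 0xa00000300700c013000600e15a826511)) (.br (Nat.shiftLeft (nat_lit 0xa000005) (nat_lit 100)) (.one (nat_lit 0xa00000400700c013000800e15a826511)) (.one (nat_lit 0xa00000500700c013000a00e15a826511)))) (.br (Nat.shiftLeft (nat_lit 0xb) (nat_lit 124)) (.one (nat_lit 0xa00000600700c013000c00e15a826511)) (.br (Nat.shiftLeft (nat_lit 0x5800001) (nat_lit 101)) (.one (nat_lit 0xb00000100700c013000200e17ac26511)) (.one (nat_lit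 0xb00000200700c013000400e17ac26511))))) (.br (Nat.shiftLeft (nat_lit 0x5800003) (nat_lit 101)) (.br (Nat.shiftLeft (nat_lit 0x2c00001) (nat_lit 102)) (.one (nat_lit 0xb00000300700c013000600e17ac26511)) (.br (Nat.shiftLeft (nat_lit 0xb000005) (nat_lit 100)) (.one (nat_lit 0xb00000400700c013000800e17ac26511)) (.one (nat_lit 0xb00000500700c013000a00e17ac26511)))) (.br (Nat.shiftLeft (nat_lit 0x3) (nat_lit 126)) (.one (nat_lit 0xb00000600700c013000c00e17ac26511)) (.br (Nat.shiftLeft (nat_lit 0x6000001) (nat_lit 101)) (.one (nat_lit 0xc00000100700c013000200e19b026511)) (.one (nat_lit 0xc00000200700c013000400e19b026511)))))) (.br (Nat.shiftLeft (nat_lit 0x1) (nat_lit 137)) (.br (Nat.shiftLeft (nat_lit 0x6000003) (nat_lit 101)) (.br (Nat.shiftLeft (nat_lit 0x3000001) (nat_lit 102)) (.one (nat_lit 0xc00000300700c013000600e19b026511)) (.br (Nat.shiftLeft (nat_lit 0xc000005) (nat_lit 100)) (.one (nat_lit 0xc00000400700c013000800e19b026511)) (.one (nat_lit 0xc00000500700c013000a00e19b026511)))) (.br (Nat.shiftLeft (nat_lit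 0x1) (nat_lit 136)) (.one (nat_lit 0xc00000600700c013000c00e19b026511)) (.br (Nat.shiftLeft (nat_lit 0x800001) (nat_lit 113)) (.one (nat_lit 0x100000100200700c013200402e418026611)) (.one (nat_lit 0x100000200300700c013400602e418026611))))) (.br (Nat.shiftLeft (nat_lit 0x1800001) (nat_lit 113)) (.br (Nat.shiftLeft (nat_lit 0x1000001) (nat_lit 113)) (.one (nat_lit 0x200000100200700c013200404e818026611)) (.br (Nat.shiftLeft (nat_lit 0x3) (nat_lit 136)) (.one (nat_lit 0x200000200300700c013400604e818026611)) (.one (nat_lit 0x300000100200700c013200406ec18026611)))) (.br (Nat.shiftLeft (nat_lit 0x2000001) (nat_lit 113)) (.br (Nat.shiftLeft (nat_lit 0x1) (nat_lit 138)) (.one (nat_lit 0x300000200300700c013400606ec18026611)) (.one (nat_lit 0x400000100200700c013200408f018026611))) (.br (Nat.shiftLeft (nat_lit 0x5) (nat_lit 136)) (.one (nat_lit 0x400000200300700c013400608f018026611)) (.one (nat_lit 0x500000100200700c01320040af418026611)))))))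
def t287 : k287.all (jb2 57 fl b0) = true := by decide +kernel
noncomputable def k288 : KT := (.br (Nat.shiftLeft (nat_lit 0x7) (nat_lit 136)) (.br (Nat.shiftLeft (nat_lit 0x3) (nat_lit 137)) (.one (nat_lit 0x500000200300700c01340060af418026611)) (.br (Nat.shiftLeft (nat_lit 0x3000001) (nat_lit 113)) (.one (nat_lit 0x600000100200700c01320040cf818026611)) (.one (nat_lit 0x600000200300700c01340060cf818026611)))) (.br (Nat.shiftLeft (nat_lit 0x3800001) (nat_lit 113)) (.one (nat_lit 0x700000100200700c01320040efc18026611)) (.br (Nat.shiftLeft (nat_lit 0x1) (nat_lit 139)) (.one (nat_lit 0x700000200300700c01340060efc18026611)) (.one (nat_lit 0x800000100200700c0132004110018026611)))))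
def t288 : k288.all (jb2 57 fl b0) = true := by decide +kernel
noncomputable def k289 : KT := (.br (Nat.shiftLeft (nat_lit 0x5000001) (nat_lit 113)) (.br (Nat.shiftLeft (nat_lit 0x4800001) (nat_lit 113)) (.br (Nat.shiftLeft (nat_lit 0x9) (nat_lit 136)) (.one (nat_lit 0x800000200300700c0134006110018026611)) (.one (nat_lit 0x900000100200700c0132004130418026611))) (.br (Nat.shiftLeft (nat_lit 0x5) (nat_lit 137)) (.one (nat_lit 0x900000200300700c0134006130418026611)) (.one (nat_lit 0xa00000100200700c0132004150818026611)))) (.br (Nat.shiftLeft (nat_lit 0x5800001) (nat_lit 113)) (.br (Nat.shiftLeft (nat_lit 0xb) (nat_lit 136)) (.one (nat_lit 0xa00000200300700c0134006150818026611)) (.one (nat_lit 0xb00000100200700c0132004170c18026611))) (.br (Nat.shiftLeft (nat_lit 0x3) (nat_lit 138)) (.one (nat_lit 0xb00000200300700c0134006170c18026611)) (.br (Nat.shiftLeft (nat_lit 0x6000001) (nat_lit 113)) (.one (nat_lit 0xc00000100200700c0132004191018026611)) (.one (nat_lit 0xc00000200300700c0134006191018026611))))))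
def t289 : k289.all (jb2 57 fl b0) = true := by decide +kernel
noncomputable def s15 : KT := (.br (nat_lit 0x500000700c013a00000e018026411) (.br (nat_lit 0x200400700c013400800e018026650) (.br (nat_lit 0x100400700c013200800e018026650) (.br (nat_lit 0x100300700c013200600e018026650) k273 k274) (.br (nat_lit 0x200300700c013400600e018027600) k275 k276)) (.br (nat_lit 0x300400700c013600800e018026650) (.br (nat_lit 0x300000700c013600000e018026411) k277 k278) (.br (nat_lit 0x400000700c013800000e018026411) k279 k280))) (.br (nat_lit 0x700000200700c013000400e0f9c26511) (.br (nat_lit 0x400000600700c013000c00e099026511) (.br (nat_lit 0x100000600700c013000c00e038426511) k281 k282) (.br (nat_lit 0x600000200700c013000400e0d9826511) k283 k284)) (.br (nat_lit 0xa00000200700c013000400e15a826511) (.br (nat_lit 0x800000300700c013000600e11a026511) k285 k286) (.br (nat_lit 0x500000100200700c01320040af418026611) k287 (.br (nat_lit 0x800000100200700c0132004110018026611) k288 k289)))))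
noncomputable def u15 : KT := (.one (nat_lit 0x700c013000000e018026430))
def w15 : u15.all (wj 57 s15) = true := by decide +kernel
def o15 : OkW 57 (jb2 57 fl) u15 := .lift s15 _ (.br _ _ _ (.br _ _ _ (.br _ _ _ (.br _ _ _ (.leaf b0 k273 t273) (.leaf b0 k274 t274)) (.br _ _ _ (.leaf b0 k275 t275) (.leaf b0 k276 t276))) (.br _ _ _ (.br _ _ _ (.leaf b0 k277 t277) (.leaf b0 k278 t278)) (.br _ _ _ (.leaf b0 k279 t279) (.leaf b0 k280 t280)))) (.br _ _ _ (.br _ _ _ (.br _ _ _ (.leaf b282 k281 t281) (.leaf b0 k282 t282)) (.br _ _ _ (.leaf b0 k283 t283) (.leaf b0 k284 t284))) (.br _ _ _ (.br _ _ _ (.leaf b0 k285 t285) (.leaf b287 k286 t286)) (.br _ _ _ (.leaf b0 k287 t287) (.br _ _ _ (.leaf b0 k288 t288) (.leaf b0 k289 t289)))))) w15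
noncomputable def k290 : KT := (.br (Nat.shiftLeft (nat_lit 0x700c015) (nat_lit 64)) (.one (nat_lit 0x700c014000000e018029400)) (.br (Nat.shiftLeft (nat_lit 0x1) (nat_lit 100)) (.one (nat_lit 0x700c015000000e01802b400)) (.one (nat_lit 0x100700c014000200e018028540))))
def t290 : k290.all (jb2 57 fl b0) = true := by decide +kernel
noncomputable def k291 : KT := (.br (Nat.shiftLeft (nat_lit 0x400700c015) (nat_lit 64)) (.br (Nat.shiftLeft (nat_lit 0x3) (nat_lit 100)) (.br (Nat.shiftLeft (nat_lit 0x1) (nat_lit 101)) (.one (nat_lit 0x100700c015000200e01802a540)) (.br (Nat.shiftLeft (nat_lit 0x200700c015) (nat_lit 64)) (.one (nat_lit 0x200700c014000400e018029500)) (.one (nat_lit 0x200700c015000400e01802b500)))) (.br (Nat.shiftLeft (nat_lit 0x300700c015) (nat_lit 64)) (.one (nat_lit 0x300700c014000600e018029500)) (.br (Nat.shiftLeft (nat_lit 0x1) (nat_lit 102)) (.one (nat_lit 0x300700c015000600e01802b500)) (.one (nat_lit 0x400700c014000800e018029500))))) (.br (Nat.shiftLeft (nat_lit 0x3) (nat_lit 101)) (.br (Nat.shiftLeft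 (nat_lit 0x5) (nat_lit 100)) (.one (nat_lit 0x400700c015000800e01802b500)) (.br (Nat.shiftLeft (nat_lit 0x500700c015) (nat_lit 64)) (.one (nat_lit 0x500700c014000a00e018029500)) (.one (nat_lit 0x500700c015000a00e01802b500)))) (.br (Nat.shiftLeft (nat_lit 0x1) (nat_lit 112)) (.br (Nat.shiftLeft (nat_lit 0x600700c015) (nat_lit 64)) (.one (nat_lit 0x600700c014000c00e018029500)) (.one (nat_lit 0x600700c015000c00e01802b500))) (.br (Nat.shiftLeft (nat_lit 0x100000700c015) (nat_lit 64)) (.one (nat_lit 0x100000700c014200000e018028411)) (.one (nat_lit 0x100000700c015200000e01802a411))))))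
def t291 : k291.all (jb2 57 fl b0) = true := by decide +kernel
noncomputable def k292 : KT := (.one (nat_lit 0x100200700c014200400e018028650))
def t292 : k292.all (jb2 57 fl b0) = true := by decide +kernel
noncomputable def k293 : KT := (.one (nat_lit 0x100200700c015200400e01802a650))
def t293 : k293.all (jb2 57 fl b0) = true := by decide +kernel
noncomputable def k294 : KT := (.one (nat_lit 0x100300700c014200600e018028650))
def t294 : k294.all (jb2 57 fl b0) = true := by decide +kernel
noncomputable def k295 : KT := (.br (Nat.shiftLeft (nat_lit 0x401) (nat_lit 102)) (.one (nat_lit 0x100300700c015200600e01802a650)) (.one (nat_lit 0x100400700c014200800e018028650)))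
def t295 : k295.all (jb2 57 fl b0) = true := by decide +kernel
noncomputable def k296 : KT := (.br (Nat.shiftLeft (nat_lit 0x1005) (nat_lit 100)) (.one (nat_lit 0x100400700c015200800e01802a650)) (.br (Nat.shiftLeft (nat_lit 0x100500700c015) (nat_lit 64)) (.one (nat_lit 0x100500700c014200a00e018028650)) (.one (nat_lit 0x100500700c015200a00e01802a650))))
def t296 : k296.all (jb2 57 fl b0) = true := by decide +kernel
noncomputable def k297 : KT := (.br (Nat.shiftLeft (nat_lit 0x1) (nat_lit 113)) (.br (Nat.shiftLeft (nat_lit 0x100600700c015) (nat_lit 64)) (.one (nat_lit 0x100600700c014200c00e018028650)) (.one (nat_lit 0x100600700c015200c00e01802a650))) (.br (Nat.shiftLeft (nat_lit 0x200000700c015) (nat_lit 64)) (.one (nat_lit 0x200000700c014400000e018028411)) (.one (nat_lit 0x200000700c015400000e01802a411))))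
def t297 : k297.all (jb2 57 fl b0) = true := by decide +kernel
noncomputable def k298 : KT := (.one (nat_lit 0x200300700c014400600e018028650))
def t298 : k298.all (jb2 57 fl b0) = true := by decide +kernel
noncomputable def k299 : KT := (.one (nat_lit 0x200300700c015400600e01802a650))
def t299 : k299.all (jb2 57 fl b0) = true := by decide +kernel
noncomputable def k300 : KT := (.br (Nat.shiftLeft (nat_lit 0x200400700c015) (nat_lit 64)) (.one (nat_lit 0x200400700c014400800e018028650)) (.one (nat_lit 0x200400700c015400800e01802a650)))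
def t300 : k300.all (jb2 57 fl b0) = true := by decide +kernel
noncomputable def k301 : KT := (.br (Nat.shiftLeft (nat_lit 0x200500700c015) (nat_lit 64)) (.one (nat_lit 0x200500700c014400a00e018028650)) (.br (Nat.shiftLeft (nat_lit 0x1003) (nat_lit 101)) (.one (nat_lit 0x200500700c015400a00e01802a650)) (.one (nat_lit 0x200600700c014400c00e018028650))))
def t301 : k301.all (jb2 57 fl b0) = true := by decide +kernel
noncomputable def k302 : KT := (.br (Nat.shiftLeft (nat_lit 0x300000700c015) (nat_lit 64)) (.br (Nat.shiftLeft (nat_lit 0x3) (nat_lit 112)) (.one (nat_lit 0x200600700c015400c00e01802a650)) (.one (nat_lit 0x300000700c014600000e018028411))) (.br (Nat.shiftLeft (nat_lit 0xc01) (nat_lit 102)) (.one (nat_lit 0x300000700c015600000e01802a411)) (.one (nat_lit 0x300400700c014600800e018028650))))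
def t302 : k302.all (jb2 57 fl b0) = true := by decide +kernel
noncomputable def k303 : KT := (.br (Nat.shiftLeft (nat_lit 0x3005) (nat_lit 100)) (.one (nat_lit 0x300400700c015600800e01802a650)) (.one (nat_lit 0x300500700c014600a00e018028650)))
def t303 : k303.all (jb2 57 fl b0) = true := by decide +kernel
noncomputable def k304 : KT := (.br (Nat.shiftLeft (nat_lit 0x300600700c015) (nat_lit 64)) (.br (Nat.shiftLeft (nat_lit 0x1803) (nat_lit 101)) (.one (nat_lit 0x300500700c015600a00e01802a650)) (.one (nat_lit 0x300600700c014600c00e018028650))) (.br (Nat.shiftLeft (nat_lit 0x1) (nat_lit 114)) (.one (nat_lit 0x300600700c015600c00e01802a650)) (.br (Nat.shiftLeft (nat_lit 0x400000700c015) (nat_lit 64)) (.one (nat_lit 0x400000700c014800000e018028411)) (.one (nat_lit 0x400000700c015800000e01802a411)))))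
def t304 : k304.all (jb2 57 fl b0) = true := by decide +kernel
noncomputable def k305 : KT := (.br (Nat.shiftLeft (nat_lit 0x400500700c015) (nat_lit 64)) (.one (nat_lit 0x400500700c014800a00e018028650)) (.br (Nat.shiftLeft (nat_lit 0x2003) (nat_lit 101)) (.one (nat_lit 0x400500700c015800a00e01802a650)) (.one (nat_lit 0x400600700c014800c00e018028650))))
def t305 : k305.all (jb2 57 fl b0) = true := by decide +kernel
noncomputable def k306 : KT := (.br (Nat.shiftLeft (nat_lit 0x600000700c015) (nat_lit 64)) (.br (Nat.shiftLeft (nat_lit 0x1401) (nat_lit 102)) (.br (Nat.shiftLeft (nat_lit 0x5) (nat_lit 112)) (.one (nat_lit 0x400600700c015800c00e01802a650)) (.br (Nat.shiftLeft (nat_lit 0x500000700c015) (nat_lit 64)) (.one (nat_lit 0x500000700c014a00000e018028411)) (.one (nat_lit 0x500000700c015a00000e01802a411)))) (.br (Nat.shiftLeft (nat_lit 0x500600700c015) (nat_lit 64)) (.one (nat_lit 0x500600700c014a00c00e018028650)) (.br (Nat.shiftLeft (nat_lit 0x3) (nat_lit 113)) (.one (nat_lit 0x500600700c015a00c00e01802a650))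 (.one (nat_lit 0x600000700c014c00000e018028411))))) (.br (Nat.shiftLeft (nat_lit 0x1) (nat_lit 115)) (.br (Nat.shiftLeft (nat_lit 0x7) (nat_lit 112)) (.one (nat_lit 0x600000700c015c00000e01802a411)) (.br (Nat.shiftLeft (nat_lit 0x700000700c015) (nat_lit 64)) (.one (nat_lit 0x700000700c014e00000e018028411)) (.one (nat_lit 0x700000700c015e00000e01802a411)))) (.br (Nat.shiftLeft (nat_lit 0x9) (nat_lit 112)) (.br (Nat.shiftLeft (nat_lit 0x800000700c015) (nat_lit 64)) (.one (nat_lit 0x800000700c014000000e01812a411)) (.one (nat_lit 0x800000700c015000000e01812c411))) (.br (Nat.shiftLeft (nat_lit 0x900000700c015) (nat_lit 64)) (.one (nat_lit 0x900000700c014200000e01812a411)) (.one (nat_lit 0x900000700c015200000e01812c411))))))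
def t306 : k306.all (jb2 57 fl b0) = true := by decide +kernel
noncomputable def k307 : KT := (.br (Nat.shiftLeft (nat_lit 0x800001) (nat_lit 102)) (.br (Nat.shiftLeft (nat_lit 0x400001) (nat_lit 102)) (.br (Nat.shiftLeft (nat_lit 0xc00000700c015) (nat_lit 64)) (.br (Nat.shiftLeft (nat_lit 0xb) (nat_lit 112)) (.br (Nat.shiftLeft (nat_lit 0xa00000700c015) (nat_lit 64)) (.one (nat_lit 0xa00000700c014400000e01812a411)) (.one (nat_lit 0xa00000700c015400000e01812c411))) (.br (Nat.shiftLeft (nat_lit 0xb00000700c015) (nat_lit 64)) (.one (nat_lit 0xb00000700c014600000e01812a411)) (.br (Nat.shiftLeft (nat_lit 0x3) (nat_lit 114)) (.one (nat_lit 0xb00000700c015600000e01812c411)) (.one (nat_lit 0xc00000700c014800000e01812a411))))) (.br (Nat.shiftLeft (nat_lit 0x100000200700c015) (nat_lit 64)) (.br (Nat.shiftLeft (nat_lit 0x1) (nat_lit 124)) (.one (nat_lit 0xc00000700c015800000e01812c411)) (.one (nat_lit 0x100000200700c014000400e038428511))) (.br (Nat.shiftLeft (nat_lit 0x1000003) (nat_lit 100)) (.one (nat_lit 0x100000200700c015000400e03842a511))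 (.br (Nat.shiftLeft (nat_lit 0x100000300700c015) (nat_lit 64)) (.one (nat_lit 0x100000300700c014000600e038428511)) (.one (nat_lit 0x100000300700c015000600e03842a511)))))) (.br (Nat.shiftLeft (nat_lit 0x100000600700c015) (nat_lit 64)) (.br (Nat.shiftLeft (nat_lit 0x1000005) (nat_lit 100)) (.br (Nat.shiftLeft (nat_lit 0x100000400700c015) (nat_lit 64)) (.one (nat_lit 0x100000400700c014000800e038428511)) (.one (nat_lit 0x100000400700c015000800e03842a511))) (.br (Nat.shiftLeft (nat_lit 0x100000500700c015) (nat_lit 64)) (.one (nat_lit 0x100000500700c014000a00e038428511)) (.br (Nat.shiftLeft (nat_lit 0x800003) (nat_lit 101)) (.one (nat_lit 0x100000500700c015000a00e03842a511)) (.one (nat_lit 0x100000600700c014000c00e038428511))))) (.br (Nat.shiftLeft (nat_lit 0x200000200700c015) (nat_lit 64)) (.br (Nat.shiftLeft (nat_lit 0x1) (nat_lit 125)) (.one (nat_lit 0x100000600700c015000c00e03842a511)) (.one (nat_lit 0x200000200700c014000400e058828511))) (.br (Nat.shiftLeft (nat_lit 0x2000003) (nat_lit 100)) (.one (nat_lit 0x200000200700c015000400e05882a511))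 (.br (Nat.shiftLeft (nat_lit 0x200000300700c015) (nat_lit 64)) (.one (nat_lit 0x200000300700c014000600e058828511)) (.one (nat_lit 0x200000300700c015000600e05882a511))))))) (.br (Nat.shiftLeft (nat_lit 0xc00001) (nat_lit 102)) (.br (Nat.shiftLeft (nat_lit 0x200000600700c015) (nat_lit 64)) (.br (Nat.shiftLeft (nat_lit 0x2000005) (nat_lit 100)) (.br (Nat.shiftLeft (nat_lit 0x200000400700c015) (nat_lit 64)) (.one (nat_lit 0x200000400700c014000800e058828511)) (.one (nat_lit 0x200000400700c015000800e05882a511))) (.br (Nat.shiftLeft (nat_lit 0x200000500700c015) (nat_lit 64)) (.one (nat_lit 0x200000500700c014000a00e058828511)) (.br (Nat.shiftLeft (nat_lit 0x1000003) (nat_lit 101)) (.one (nat_lit 0x200000500700c015000a00e05882a511)) (.one (nat_lit 0x200000600700c014000c00e058828511))))) (.br (Nat.shiftLeft (nat_lit 0x300000200700c015) (nat_lit 64)) (.br (Nat.shiftLeft (nat_lit 0x3) (nat_lit 124)) (.one (nat_lit 0x200000600700c015000c00e05882a511)) (.one (nat_lit 0x300000200700c014000400e078c28511))) (.br (Nat.shiftLeft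 (nat_lit 0x3000003) (nat_lit 100)) (.one (nat_lit 0x300000200700c015000400e078c2a511)) (.br (Nat.shiftLeft (nat_lit 0x300000300700c015) (nat_lit 64)) (.one (nat_lit 0x300000300700c014000600e078c28511)) (.one (nat_lit 0x300000300700c015000600e078c2a511)))))) (.br (Nat.shiftLeft (nat_lit 0x300000600700c015) (nat_lit 64)) (.br (Nat.shiftLeft (nat_lit 0x3000005) (nat_lit 100)) (.br (Nat.shiftLeft (nat_lit 0x300000400700c015) (nat_lit 64)) (.one (nat_lit 0x300000400700c014000800e078c28511)) (.one (nat_lit 0x300000400700c015000800e078c2a511))) (.br (Nat.shiftLeft (nat_lit 0x300000500700c015) (nat_lit 64)) (.one (nat_lit 0x300000500700c014000a00e078c28511)) (.br (Nat.shiftLeft (nat_lit 0x1800003) (nat_lit 101)) (.one (nat_lit 0x300000500700c015000a00e078c2a511)) (.one (nat_lit 0x300000600700c014000c00e078c28511))))) (.br (Nat.shiftLeft (nat_lit 0x400000200700c015) (nat_lit 64)) (.br (Nat.shiftLeft (nat_lit 0x1) (nat_lit 126)) (.one (nat_lit 0x300000600700c015000c00e078c2a511)) (.one (nat_lit 0x400000200700c014000400e099028511)))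 (.br (Nat.shiftLeft (nat_lit 0x4000003) (nat_lit 100)) (.one (nat_lit 0x400000200700c015000400e09902a511)) (.br (Nat.shiftLeft (nat_lit 0x400000300700c015) (nat_lit 64)) (.one (nat_lit 0x400000300700c014000600e099028511)) (.one (nat_lit 0x400000300700c015000600e09902a511))))))))
def t307 : k307.all (jb2 57 fl b0) = true := by decide +kernel
noncomputable def k308 : KT := (.br (Nat.shiftLeft (nat_lit 0x5) (nat_lit 124)) (.br (Nat.shiftLeft (nat_lit 0x400000500700c015) (nat_lit 64)) (.br (Nat.shiftLeft (nat_lit 0x400000400700c015) (nat_lit 64)) (.one (nat_lit 0x400000400700c014000800e099028511)) (.br (Nat.shiftLeft (nat_lit 0x4000005) (nat_lit 100)) (.one (nat_lit 0x400000400700c015000800e09902a511)) (.one (nat_lit 0x400000500700c014000a00e099028511)))) (.br (Nat.shiftLeft (nat_lit 0x2000003) (nat_lit 101)) (.one (nat_lit 0x400000500700c015000a00e09902a511)) (.br (Nat.shiftLeft (nat_lit 0x400000600700c015) (nat_lit 64)) (.one (nat_lit 0x400000600700c014000c00e099028511)) (.one (nat_lit 0x400000600700c015000c00e09902a511)))))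 (.br (Nat.shiftLeft (nat_lit 0x500000300700c015) (nat_lit 64)) (.br (Nat.shiftLeft (nat_lit 0x500000200700c015) (nat_lit 64)) (.one (nat_lit 0x500000200700c014000400e0b9428511)) (.br (Nat.shiftLeft (nat_lit 0x5000003) (nat_lit 100)) (.one (nat_lit 0x500000200700c015000400e0b942a511)) (.one (nat_lit 0x500000300700c014000600e0b9428511)))) (.br (Nat.shiftLeft (nat_lit 0x1400001) (nat_lit 102)) (.one (nat_lit 0x500000300700c015000600e0b942a511)) (.br (Nat.shiftLeft (nat_lit 0x500000400700c015) (nat_lit 64)) (.one (nat_lit 0x500000400700c014000800e0b9428511)) (.one (nat_lit 0x500000400700c015000800e0b942a511))))))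
def t308 : k308.all (jb2 57 fl b0) = true := by decide +kernel
noncomputable def k309 : KT := (.br (Nat.shiftLeft (nat_lit 0x600000200700c015) (nat_lit 64)) (.br (Nat.shiftLeft (nat_lit 0x2800003) (nat_lit 101)) (.br (Nat.shiftLeft (nat_lit 0x500000500700c015) (nat_lit 64)) (.one (nat_lit 0x500000500700c014000a00e0b9428511)) (.one (nat_lit 0x500000500700c015000a00e0b942a511))) (.br (Nat.shiftLeft (nat_lit 0x500000600700c015) (nat_lit 64)) (.one (nat_lit 0x500000600700c014000c00e0b9428511)) (.br (Nat.shiftLeft (nat_lit 0x3) (nat_lit 125)) (.one (nat_lit 0x500000600700c015000c00e0b942a511)) (.one (nat_lit 0x600000200700c014000400e0d9828511))))) (.br (Nat.shiftLeft (nat_lit 0x600000300700c015) (nat_lit 64)) (.br (Nat.shiftLeft (nat_lit 0x6000003) (nat_lit 100)) (.one (nat_lit 0x600000200700c015000400e0d982a511)) (.one (nat_lit 0x600000300700c014000600e0d9828511))) (.br (Nat.shiftLeft (nat_lit 0x1800001) (nat_lit 102)) (.one (nat_lit 0x600000300700c015000600e0d982a511)) (.br (Nat.shiftLeft (nat_lit 0x600000400700c015)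 (nat_lit 64)) (.one (nat_lit 0x600000400700c014000800e0d9828511)) (.one (nat_lit 0x600000400700c015000800e0d982a511))))))
def t309 : k309.all (jb2 57 fl b0) = true := by decide +kernel
noncomputable def k310 : KT := (.br (Nat.shiftLeft (nat_lit 0x7000003) (nat_lit 100)) (.br (Nat.shiftLeft (nat_lit 0x600000600700c015) (nat_lit 64)) (.br (Nat.shiftLeft (nat_lit 0x600000500700c015) (nat_lit 64)) (.one (nat_lit 0x600000500700c014000a00e0d9828511)) (.br (Nat.shiftLeft (nat_lit 0x3000003) (nat_lit 101)) (.one (nat_lit 0x600000500700c015000a00e0d982a511)) (.one (nat_lit 0x600000600700c014000c00e0d9828511)))) (.br (Nat.shiftLeft (nat_lit 0x7) (nat_lit 124)) (.one (nat_lit 0x600000600700c015000c00e0d982a511)) (.br (Nat.shiftLeft (nat_lit 0x700000200700c015) (nat_lit 64)) (.one (nat_lit 0x700000200700c014000400e0f9c28511)) (.one (nat_lit 0x700000200700c015000400e0f9c2a511))))) (.br (Nat.shiftLeft (nat_lit 0x700000400700c015) (nat_lit 64)) (.br (Nat.shiftLeft (nat_lit 0x700000300700c015) (nat_lit 64)) (.one (nat_lit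 0x700000300700c014000600e0f9c28511)) (.br (Nat.shiftLeft (nat_lit 0x1c00001) (nat_lit 102)) (.one (nat_lit 0x700000300700c015000600e0f9c2a511)) (.one (nat_lit 0x700000400700c014000800e0f9c28511)))) (.br (Nat.shiftLeft (nat_lit 0x700000500700c015) (nat_lit 64)) (.br (Nat.shiftLeft (nat_lit 0x7000005) (nat_lit 100)) (.one (nat_lit 0x700000400700c015000800e0f9c2a511)) (.one (nat_lit 0x700000500700c014000a00e0f9c28511))) (.br (Nat.shiftLeft (nat_lit 0x3800003) (nat_lit 101)) (.one (nat_lit 0x700000500700c015000a00e0f9c2a511)) (.one (nat_lit 0x700000600700c014000c00e0f9c28511))))))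
def t310 : k310.all (jb2 57 fl b0) = true := by decide +kernel
noncomputable def k311 : KT := (.br (Nat.shiftLeft (nat_lit 0x800000600700c015) (nat_lit 64)) (.br (Nat.shiftLeft (nat_lit 0x2000001) (nat_lit 102)) (.br (Nat.shiftLeft (nat_lit 0x800000200700c015) (nat_lit 64)) (.br (Nat.shiftLeft (nat_lit 0x1) (nat_lit 127)) (.one (nat_lit 0x700000600700c015000c00e0f9c2a511)) (.one (nat_lit 0x800000200700c014000400e11a028511))) (.br (Nat.shiftLeft (nat_lit 0x8000003) (nat_lit 100)) (.one (nat_lit 0x800000200700c015000400e11a02a511)) (.br (Nat.shiftLeft (nat_lit 0x800000300700c015) (nat_lit 64)) (.one (nat_lit 0x800000300700c014000600e11a028511)) (.one (nat_lit 0x800000300700c015000600e11a02a511))))) (.br (Nat.shiftLeft (nat_lit 0x8000005) (nat_lit 100)) (.br (Nat.shiftLeft (nat_lit 0x800000400700c015) (nat_lit 64)) (.one (nat_lit 0x800000400700c014000800e11a028511)) (.one (nat_lit 0x800000400700c015000800e11a02a511))) (.br (Nat.shiftLeft (nat_lit 0x800000500700c015) (nat_lit 64)) (.one (nat_lit 0x800000500700c014000a00e11a028511))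 (.br (Nat.shiftLeft (nat_lit 0x4000003) (nat_lit 101)) (.one (nat_lit 0x800000500700c015000a00e11a02a511)) (.one (nat_lit 0x800000600700c014000c00e11a028511)))))) (.br (Nat.shiftLeft (nat_lit 0x2400001) (nat_lit 102)) (.br (Nat.shiftLeft (nat_lit 0x900000200700c015) (nat_lit 64)) (.br (Nat.shiftLeft (nat_lit 0x9) (nat_lit 124)) (.one (nat_lit 0x800000600700c015000c00e11a02a511)) (.one (nat_lit 0x900000200700c014000400e13a428511))) (.br (Nat.shiftLeft (nat_lit 0x9000003) (nat_lit 100)) (.one (nat_lit 0x900000200700c015000400e13a42a511)) (.br (Nat.shiftLeft (nat_lit 0x900000300700c015) (nat_lit 64)) (.one (nat_lit 0x900000300700c014000600e13a428511)) (.one (nat_lit 0x900000300700c015000600e13a42a511))))) (.br (Nat.shiftLeft (nat_lit 0x900000500700c015) (nat_lit 64)) (.br (Nat.shiftLeft (nat_lit 0x900000400700c015) (nat_lit 64)) (.one (nat_lit 0x900000400700c014000800e13a428511)) (.br (Nat.shiftLeft (nat_lit 0x9000005) (nat_lit 100)) (.one (nat_lit 0x900000400700c015000800e13a42a511)) (.one (nat_lit 0x900000500700c014000a00e13a428511))))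 (.br (Nat.shiftLeft (nat_lit 0x4800003) (nat_lit 101)) (.one (nat_lit 0x900000500700c015000a00e13a42a511)) (.br (Nat.shiftLeft (nat_lit 0x900000600700c015) (nat_lit 64)) (.one (nat_lit 0x900000600700c014000c00e13a428511)) (.one (nat_lit 0x900000600700c015000c00e13a42a511)))))))
def t311 : k311.all (jb2 57 fl b0) = true := by decide +kernel
noncomputable def k312 : KT := (.br (Nat.shiftLeft (nat_lit 0x2c00001) (nat_lit 102)) (.br (Nat.shiftLeft (nat_lit 0xa00000500700c015) (nat_lit 64)) (.br (Nat.shiftLeft (nat_lit 0xa00000300700c015) (nat_lit 64)) (.br (Nat.shiftLeft (nat_lit 0xa00000200700c015) (nat_lit 64)) (.one (nat_lit 0xa00000200700c014000400e15a828511)) (.br (Nat.shiftLeft (nat_lit 0xa000003) (nat_lit 100)) (.one (nat_lit 0xa00000200700c015000400e15a82a511)) (.one (nat_lit 0xa00000300700c014000600e15a828511)))) (.br (Nat.shiftLeft (nat_lit 0xa00000400700c015) (nat_lit 64)) (.br (Nat.shiftLeft (nat_lit 0x2800001) (nat_lit 102)) (.one (nat_lit 0xa00000300700c015000600e15a82a511)) (.one (nat_lit 0xa00000400700c014000800e15a828511)))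 (.br (Nat.shiftLeft (nat_lit 0xa000005) (nat_lit 100)) (.one (nat_lit 0xa00000400700c015000800e15a82a511)) (.one (nat_lit 0xa00000500700c014000a00e15a828511))))) (.br (Nat.shiftLeft (nat_lit 0xb) (nat_lit 124)) (.br (Nat.shiftLeft (nat_lit 0x5000003) (nat_lit 101)) (.one (nat_lit 0xa00000500700c015000a00e15a82a511)) (.br (Nat.shiftLeft (nat_lit 0xa00000600700c015) (nat_lit 64)) (.one (nat_lit 0xa00000600700c014000c00e15a828511)) (.one (nat_lit 0xa00000600700c015000c00e15a82a511)))) (.br (Nat.shiftLeft (nat_lit 0xb000003) (nat_lit 100)) (.br (Nat.shiftLeft (nat_lit 0xb00000200700c015) (nat_lit 64)) (.one (nat_lit 0xb00000200700c014000400e17ac28511)) (.one (nat_lit 0xb00000200700c015000400e17ac2a511))) (.br (Nat.shiftLeft (nat_lit 0xb00000300700c015) (nat_lit 64)) (.one (nat_lit 0xb00000300700c014000600e17ac28511)) (.one (nat_lit 0xb00000300700c015000600e17ac2a511)))))) (.br (Nat.shiftLeft (nat_lit 0xc00000200700c015) (nat_lit 64)) (.br (Nat.shiftLeft (nat_lit 0xb00000500700c015) (nat_lit 64)) (.br (Nat.shiftLeft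 (nat_lit 0xb00000400700c015) (nat_lit 64)) (.one (nat_lit 0xb00000400700c014000800e17ac28511)) (.br (Nat.shiftLeft (nat_lit 0xb000005) (nat_lit 100)) (.one (nat_lit 0xb00000400700c015000800e17ac2a511)) (.one (nat_lit 0xb00000500700c014000a00e17ac28511)))) (.br (Nat.shiftLeft (nat_lit 0xb00000600700c015) (nat_lit 64)) (.br (Nat.shiftLeft (nat_lit 0x5800003) (nat_lit 101)) (.one (nat_lit 0xb00000500700c015000a00e17ac2a511)) (.one (nat_lit 0xb00000600700c014000c00e17ac28511))) (.br (Nat.shiftLeft (nat_lit 0x3) (nat_lit 126)) (.one (nat_lit 0xb00000600700c015000c00e17ac2a511)) (.one (nat_lit 0xc00000200700c014000400e19b028511))))) (.br (Nat.shiftLeft (nat_lit 0xc00000400700c015) (nat_lit 64)) (.br (Nat.shiftLeft (nat_lit 0xc00000300700c015) (nat_lit 64)) (.br (Nat.shiftLeft (nat_lit 0xc000003) (nat_lit 100)) (.one (nat_lit 0xc00000200700c015000400e19b02a511)) (.one (nat_lit 0xc00000300700c014000600e19b028511))) (.br (Nat.shiftLeft (nat_lit 0x3000001) (nat_lit 102)) (.one (nat_lit 0xc00000300700c015000600e19b02a511))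 (.one (nat_lit 0xc00000400700c014000800e19b028511)))) (.br (Nat.shiftLeft (nat_lit 0xc00000500700c015) (nat_lit 64)) (.br (Nat.shiftLeft (nat_lit 0xc000005) (nat_lit 100)) (.one (nat_lit 0xc00000400700c015000800e19b02a511)) (.one (nat_lit 0xc00000500700c014000a00e19b028511))) (.br (Nat.shiftLeft (nat_lit 0x6000003) (nat_lit 101)) (.one (nat_lit 0xc00000500700c015000a00e19b02a511)) (.one (nat_lit 0xc00000600700c014000c00e19b028511)))))))
def t312 : k312.all (jb2 57 fl b0) = true := by decide +kernel
noncomputable def s16 : KT := (.br (nat_lit 0x200400700c015400800e01802a650) (.br (nat_lit 0x100300700c014200600e018028650) (.br (nat_lit 0x100000700c015200000e01802a411) (.br (nat_lit 0x100700c014000200e018028540) k290 k291) (.br (nat_lit 0x100200700c014200400e018028650) k292 (.br (nat_lit 0x100200700c015200400e01802a650) k293 k294))) (.br (nat_lit 0x200000700c015400000e01802a411) (.br (nat_lit 0x100400700c014200800e018028650) k295 (.br (nat_lit 0x100500700c015200a00e01802a650) k296 k297)) (.br (nat_lit 0x200300700c014400600e018028650)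 k298 (.br (nat_lit 0x200300700c015400600e01802a650) k299 k300)))) (.br (nat_lit 0x900000700c015200000e01812c411) (.br (nat_lit 0x300500700c014600a00e018028650) (.br (nat_lit 0x200600700c014400c00e018028650) k301 (.br (nat_lit 0x300400700c014600800e018028650) k302 k303)) (.br (nat_lit 0x400000700c015800000e01802a411) k304 (.br (nat_lit 0x400600700c014800c00e018028650) k305 k306))) (.br (nat_lit 0x600000400700c015000800e0d982a511) (.br (nat_lit 0x400000300700c015000600e09902a511) k307 (.br (nat_lit 0x500000400700c015000800e0b942a511) k308 k309)) (.br (nat_lit 0x700000600700c014000c00e0f9c28511) k310 (.br (nat_lit 0x900000600700c015000c00e13a42a511) k311 k312)))))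
noncomputable def u16 : KT := (.br (Nat.shiftLeft (nat_lit 0x700c015) (nat_lit 64)) (.one (nat_lit 0x700c014000000e018028430)) (.one (nat_lit 0x700c015000000e01802a430)))
def w16 : u16.all (wj 57 s16) = true := by decide +kernel
def o16 : OkW 57 (jb2 57 fl) u16 := .lift s16 _ (.br _ _ _ (.br _ _ _ (.br _ _ _ (.br _ _ _ (.leaf b0 k290 t290) (.leaf b0 k291 t291)) (.br _ _ _ (.leaf b0 k292 t292) (.br _ _ _ (.leaf b0 k293 t293) (.leaf b0 k294 t294)))) (.br _ _ _ (.br _ _ _ (.leaf b0 k295 t295) (.br _ _ _ (.leaf b0 k296 t296) (.leaf b0 k297 t297))) (.br _ _ _ (.leaf b0 k298 t298) (.br _ _ _ (.leaf b0 k299 t299) (.leaf b0 k300 t300))))) (.br _ _ _ (.br _ _ _ (.br _ _ _ (.leaf b0 k301 t301) (.br _ _ _ (.leaf b0 k302 t302) (.leaf b0 k303 t303))) (.br _ _ _ (.leaf b0 k304 t304) (.br _ _ _ (.leaf b0 k305 t305) (.leaf b0 k306 t306)))) (.br _ _ _ (.br _ _ _ (.leaf b0 k307 t307) (.br _ _ _ (.leaf b0 k308 t308) (.leaf b0 k309 t309))) (.br _ _ _ (.leaf b0 k310 t310) (.br _ _ _ (.leaf b0 k311 t311) (.leaf b0 k312 t312))))))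 w16
noncomputable def k313 : KT := (.br (Nat.shiftLeft (nat_lit 0x700d00f) (nat_lit 64)) (.br (Nat.shiftLeft (nat_lit 0xe01803) (nat_lit 67)) (.br (Nat.shiftLeft (nat_lit 0x700c017) (nat_lit 64)) (.one (nat_lit 0x700c016000000e01802d400)) (.one (nat_lit 0x700c017000000e01802f400))) (.br (Nat.shiftLeft (nat_lit 0x700d) (nat_lit 76)) (.one (nat_lit 0x700c018000000e018031400)) (.one (nat_lit 0x700d00e000000e01a01d400)))) (.br (Nat.shiftLeft (nat_lit 0x700d011) (nat_lit 64)) (.br (Nat.shiftLeft (nat_lit 0x700d01) (nat_lit 68)) (.one (nat_lit 0x700d00f000000e01a01f400)) (.one (nat_lit 0x700d010000000e01a021400))) (.br (Nat.shiftLeft (nat_lit 0x1) (nat_lit 100)) (.one (nat_lit 0x700d011000000e01a023400)) (.br (Nat.shiftLeft (nat_lit 0x100700c017) (nat_lit 64)) (.one (nat_lit 0x100700c016000200e01802c540)) (.one (nat_lit 0x100700c017000200e01802e540))))))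
def t313 : k313.all (jb2 57 fl b0) = true := by decide +kernel
noncomputable def k314 : KT := (.one (nat_lit 0x100700c018000200e018030540))
def t314 : k314.all (jb2 57 fl b0) = true := by decide +kernel
noncomputable def k315 : KT := (.one (nat_lit 0x200700c016000400e01802c540))
def t315 : k315.all (jb2 57 fl b0) = true := by decide +kernel
noncomputable def k316 : KT := (.one (nat_lit 0x200700c017000400e01802e540))
def t316 : k316.all (jb2 57 fl b0) = true := by decide +kernel
noncomputable def k317 : KT := (.br (Nat.shiftLeft (nat_lit 0x3) (nat_lit 100)) (.one (nat_lit 0x200700c018000400e018030540)) (.one (nat_lit 0x300700c016000600e01802d500)))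
def t317 : k317.all (jb2 57 fl b0) = true := by decide +kernel
noncomputable def k318 : KT := (.one (nat_lit 0x300700c017000600e01802e540))
def t318 : k318.all (jb2 57 fl b0) = true := by decide +kernel
noncomputable def k319 : KT := (.br (Nat.shiftLeft (nat_lit 0x1) (nat_lit 102)) (.one (nat_lit 0x300700c018000600e018030540)) (.one (nat_lit 0x400700c016000800e01802d500)))
def t319 : k319.all (jb2 57 fl b0) = true := by decide +kernel
noncomputable def k320 : KT := (.one (nat_lit 0x400700c017000800e01802e540))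
def t320 : k320.all (jb2 57 fl b0) = true := by decide +kernel
noncomputable def k321 : KT := (.one (nat_lit 0x400700c018000800e018030540))
def t321 : k321.all (jb2 57 fl b0) = true := by decide +kernel
noncomputable def k322 : KT := (.one (nat_lit 0x500700c016000a00e01802c540))
def t322 : k322.all (jb2 57 fl b0) = true := by decide +kernel
noncomputable def k323 : KT := (.one (nat_lit 0x500700c017000a00e01802e540))
def t323 : k323.all (jb2 57 fl b0) = true := by decide +kernel
noncomputable def k324 : KT := (.one (nat_lit 0x500700c018000a00e018030540))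
def t324 : k324.all (jb2 57 fl b0) = true := by decide +kernel
noncomputable def k325 : KT := (.one (nat_lit 0x600700c016000c00e01802c540))
def t325 : k325.all (jb2 57 fl b0) = true := by decide +kernel
noncomputable def k326 : KT := (.br (Nat.shiftLeft (nat_lit 0x1) (nat_lit 112)) (.br (Nat.shiftLeft (nat_lit 0xc00e01803) (nat_lit 67)) (.one (nat_lit 0x600700c017000c00e01802e540)) (.one (nat_lit 0x600700c018000c00e018030540))) (.br (Nat.shiftLeft (nat_lit 0x100000700c017) (nat_lit 64)) (.one (nat_lit 0x100000700c016200000e01802c411)) (.br (Nat.shiftLeft (nat_lit 0x200000e01803) (nat_lit 67)) (.one (nat_lit 0x100000700c017200000e01802e411)) (.one (nat_lit 0x100000700c018200000e018030411)))))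
def t326 : k326.all (jb2 57 fl b0) = true := by decide +kernel
noncomputable def k327 : KT := (.br (Nat.shiftLeft (nat_lit 0x200000700c017) (nat_lit 64)) (.br (Nat.shiftLeft (nat_lit 0x401) (nat_lit 102)) (.one (nat_lit 0x100300700c016200600e01802c650)) (.br (Nat.shiftLeft (nat_lit 0x1) (nat_lit 113)) (.one (nat_lit 0x100400700c016200800e01802c650)) (.one (nat_lit 0x200000700c016400000e01802c411)))) (.br (Nat.shiftLeft (nat_lit 0x400000e01803) (nat_lit 67)) (.one (nat_lit 0x200000700c017400000e01802e411)) (.br (Nat.shiftLeft (nat_lit 0x1001) (nat_lit 101)) (.one (nat_lit 0x200000700c018400000e018030411)) (.one (nat_lit 0x200300700c016400600e01802c650)))))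
def t327 : k327.all (jb2 57 fl b0) = true := by decide +kernel
noncomputable def k328 : KT := (.br (Nat.shiftLeft (nat_lit 0x5) (nat_lit 112)) (.br (Nat.shiftLeft (nat_lit 0xc01) (nat_lit 102)) (.br (Nat.shiftLeft (nat_lit 0x300000700c017) (nat_lit 64)) (.br (Nat.shiftLeft (nat_lit 0x3) (nat_lit 112)) (.one (nat_lit 0x200400700c016400800e01802c650)) (.one (nat_lit 0x300000700c016600000e01802c411))) (.br (Nat.shiftLeft (nat_lit 0x600000e01803) (nat_lit 67)) (.one (nat_lit 0x300000700c017600000e01802e411)) (.one (nat_lit 0x300000700c018600000e018030411)))) (.br (Nat.shiftLeft (nat_lit 0x400000700c017) (nat_lit 64)) (.br (Nat.shiftLeft (nat_lit 0x1) (nat_lit 114)) (.one (nat_lit 0x300400700c016600800e01802c650)) (.one (nat_lit 0x400000700c016800000e01802c411))) (.br (Nat.shiftLeft (nat_lit 0x800000e01803) (nat_lit 67)) (.one (nat_lit 0x400000700c017800000e01802e411)) (.one (nat_lit 0x400000700c018800000e018030411))))) (.br (Nat.shiftLeft (nat_lit 0x600000700c017) (nat_lit 64)) (.br (Nat.shiftLeft (nat_lit 0xa00000e01803)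 (nat_lit 67)) (.br (Nat.shiftLeft (nat_lit 0x500000700c017) (nat_lit 64)) (.one (nat_lit 0x500000700c016a00000e01802c411)) (.one (nat_lit 0x500000700c017a00000e01802e411))) (.br (Nat.shiftLeft (nat_lit 0x3) (nat_lit 113)) (.one (nat_lit 0x500000700c018a00000e018030411)) (.one (nat_lit 0x600000700c016c00000e01802c411)))) (.br (Nat.shiftLeft (nat_lit 0x7) (nat_lit 112)) (.br (Nat.shiftLeft (nat_lit 0xc00000e01803) (nat_lit 67)) (.one (nat_lit 0x600000700c017c00000e01802e411)) (.one (nat_lit 0x600000700c018c00000e018030411))) (.br (Nat.shiftLeft (nat_lit 0x700000700c017) (nat_lit 64)) (.one (nat_lit 0x700000700c016e00000e01802c411)) (.br (Nat.shiftLeft (nat_lit 0xe00000e01803) (nat_lit 67)) (.one (nat_lit 0x700000700c017e00000e01802e411)) (.one (nat_lit 0x700000700c018e00000e018030411)))))))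
def t328 : k328.all (jb2 57 fl b0) = true := by decide +kernel
noncomputable def k329 : KT := (.br (Nat.shiftLeft (nat_lit 0x1) (nat_lit 124)) (.br (Nat.shiftLeft (nat_lit 0xa00000700c017) (nat_lit 64)) (.br (Nat.shiftLeft (nat_lit 0x9) (nat_lit 112)) (.br (Nat.shiftLeft (nat_lit 0x800000700c017) (nat_lit 64)) (.one (nat_lit 0x800000700c016000000e01812e411)) (.br (Nat.shiftLeft (nat_lit 0x1000000e01803) (nat_lit 67)) (.one (nat_lit 0x800000700c017000000e018130411)) (.one (nat_lit 0x800000700c018000000e018132411)))) (.br (Nat.shiftLeft (nat_lit 0x1200000e01803) (nat_lit 67)) (.br (Nat.shiftLeft (nat_lit 0x900000700c017) (nat_lit 64)) (.one (nat_lit 0x900000700c016200000e01812e411)) (.one (nat_lit 0x900000700c017200000e018130411))) (.br (Nat.shiftLeft (nat_lit 0x5) (nat_lit 113)) (.one (nat_lit 0x900000700c018200000e018132411)) (.one (nat_lit 0xa00000700c016400000e01812e411))))) (.br (Nat.shiftLeft (nat_lit 0x1600000e01803) (nat_lit 67)) (.br (Nat.shiftLeft (nat_lit 0xb) (nat_lit 112)) (.br (Nat.shiftLeft (nat_lit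 0x1400000e01803) (nat_lit 67)) (.one (nat_lit 0xa00000700c017400000e018130411)) (.one (nat_lit 0xa00000700c018400000e018132411))) (.br (Nat.shiftLeft (nat_lit 0xb00000700c017) (nat_lit 64)) (.one (nat_lit 0xb00000700c016600000e01812e411)) (.one (nat_lit 0xb00000700c017600000e018130411)))) (.br (Nat.shiftLeft (nat_lit 0xc00000700c017) (nat_lit 64)) (.br (Nat.shiftLeft (nat_lit 0x3) (nat_lit 114)) (.one (nat_lit 0xb00000700c018600000e018132411)) (.one (nat_lit 0xc00000700c016800000e01812e411))) (.br (Nat.shiftLeft (nat_lit 0x1800000e01803) (nat_lit 67)) (.one (nat_lit 0xc00000700c017800000e018130411)) (.one (nat_lit 0xc00000700c018800000e018132411)))))) (.br (Nat.shiftLeft (nat_lit 0x5) (nat_lit 124)) (.br (Nat.shiftLeft (nat_lit 0x3) (nat_lit 124)) (.br (Nat.shiftLeft (nat_lit 0x1) (nat_lit 125)) (.br (Nat.shiftLeft (nat_lit 0x400001) (nat_lit 102)) (.one (nat_lit 0x100000300700c016000600e03842c511)) (.one (nat_lit 0x100000400700c016000800e03842c511))) (.br (Nat.shiftLeft (nat_lit 0x800001) (nat_lit 102)) (.one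 (nat_lit 0x200000300700c016000600e05882c511)) (.one (nat_lit 0x200000400700c016000800e05882c511)))) (.br (Nat.shiftLeft (nat_lit 0x1) (nat_lit 126)) (.br (Nat.shiftLeft (nat_lit 0xc00001) (nat_lit 102)) (.one (nat_lit 0x300000300700c016000600e078c2c511)) (.one (nat_lit 0x300000400700c016000800e078c2c511))) (.br (Nat.shiftLeft (nat_lit 0x1000001) (nat_lit 102)) (.one (nat_lit 0x400000300700c016000600e09902c511)) (.one (nat_lit 0x400000400700c016000800e09902c511))))) (.br (Nat.shiftLeft (nat_lit 0x7) (nat_lit 124)) (.br (Nat.shiftLeft (nat_lit 0x3) (nat_lit 125)) (.br (Nat.shiftLeft (nat_lit 0x1400001) (nat_lit 102)) (.one (nat_lit 0x500000300700c016000600e0b942c511)) (.one (nat_lit 0x500000400700c016000800e0b942c511))) (.br (Nat.shiftLeft (nat_lit 0x1800001) (nat_lit 102)) (.one (nat_lit 0x600000300700c016000600e0d982c511)) (.one (nat_lit 0x600000400700c016000800e0d982c511)))) (.br (Nat.shiftLeft (nat_lit 0x1) (nat_lit 127)) (.br (Nat.shiftLeft (nat_lit 0x1c00001) (nat_lit 102)) (.one (nat_lit 0x700000300700c016000600e0f9c2c511))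 (.one (nat_lit 0x700000400700c016000800e0f9c2c511))) (.br (Nat.shiftLeft (nat_lit 0x2000001) (nat_lit 102)) (.one (nat_lit 0x800000300700c016000600e11a02c511)) (.one (nat_lit 0x800000400700c016000800e11a02c511)))))))
def t329 : k329.all (jb2 57 fl b0) = true := by decide +kernel
noncomputable def k330 : KT := (.br (Nat.shiftLeft (nat_lit 0xb) (nat_lit 124)) (.br (Nat.shiftLeft (nat_lit 0x5) (nat_lit 125)) (.br (Nat.shiftLeft (nat_lit 0x2400001) (nat_lit 102)) (.one (nat_lit 0x900000300700c016000600e13a42c511)) (.one (nat_lit 0x900000400700c016000800e13a42c511))) (.br (Nat.shiftLeft (nat_lit 0x2800001) (nat_lit 102)) (.one (nat_lit 0xa00000300700c016000600e15a82c511)) (.one (nat_lit 0xa00000400700c016000800e15a82c511)))) (.br (Nat.shiftLeft (nat_lit 0x3) (nat_lit 126)) (.br (Nat.shiftLeft (nat_lit 0x2c00001) (nat_lit 102)) (.one (nat_lit 0xb00000300700c016000600e17ac2c511)) (.one (nat_lit 0xb00000400700c016000800e17ac2c511))) (.br (Nat.shiftLeft (nat_lit 0x3000001) (nat_lit 102)) (.one (nat_lit 0xc00000300700c016000600e19b02c511))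 (.one (nat_lit 0xc00000400700c016000800e19b02c511)))))
def t330 : k330.all (jb2 57 fl b0) = true := by decide +kernel
noncomputable def s17 : KT := (.br (nat_lit 0x400700c018000800e018030540) (.br (nat_lit 0x200700c017000400e01802e540) (.br (nat_lit 0x100700c018000200e018030540) (.br (nat_lit 0x100700c017000200e01802e540) k313 k314) (.br (nat_lit 0x200700c016000400e01802c540) k315 k316)) (.br (nat_lit 0x300700c017000600e01802e540) (.br (nat_lit 0x300700c016000600e01802d500) k317 k318) (.br (nat_lit 0x400700c016000800e01802d500) k319 (.br (nat_lit 0x400700c017000800e01802e540) k320 k321)))) (.br (nat_lit 0x600700c016000c00e01802c540) (.br (nat_lit 0x500700c017000a00e01802e540) (.br (nat_lit 0x500700c016000a00e01802c540) k322 k323) (.br (nat_lit 0x500700c018000a00e018030540) k324 k325)) (.br (nat_lit 0x200300700c016400600e01802c650) (.br (nat_lit 0x100000700c018200000e018030411) k326 k327) (.br (nat_lit 0x700000700c018e00000e018030411) k328 (.br (nat_lit 0x800000400700c016000800e11a02c511) k329 k330)))))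
noncomputable def u17 : KT := (.br (Nat.shiftLeft (nat_lit 0x700d) (nat_lit 76)) (.br (Nat.shiftLeft (nat_lit 0x700c017) (nat_lit 64)) (.one (nat_lit 0x700c016000000e01802c430)) (.br (Nat.shiftLeft (nat_lit 0xe01803) (nat_lit 67)) (.one (nat_lit 0x700c017000000e01802e430)) (.one (nat_lit 0x700c018000000e018030430)))) (.br (Nat.shiftLeft (nat_lit 0x700d01) (nat_lit 68)) (.br (Nat.shiftLeft (nat_lit 0x700d00f) (nat_lit 64)) (.one (nat_lit 0x700d00e000000e01a01d400)) (.one (nat_lit 0x700d00f000000e01a01f400))) (.br (Nat.shiftLeft (nat_lit 0x700d011) (nat_lit 64)) (.one (nat_lit 0x700d010000000e01a021400)) (.one (nat_lit 0x700d011000000e01a023400)))))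
def w17 : u17.all (wj 57 s17) = true := by decide +kernel
def o17 : OkW 57 (jb2 57 fl) u17 := .lift s17 _ (.br _ _ _ (.br _ _ _ (.br _ _ _ (.br _ _ _ (.leaf b0 k313 t313) (.leaf b0 k314 t314)) (.br _ _ _ (.leaf b0 k315 t315) (.leaf b0 k316 t316))) (.br _ _ _ (.br _ _ _ (.leaf b0 k317 t317) (.leaf b0 k318 t318)) (.br _ _ _ (.leaf b0 k319 t319) (.br _ _ _ (.leaf b0 k320 t320) (.leaf b0 k321 t321))))) (.br _ _ _ (.br _ _ _ (.br _ _ _ (.leaf b0 k322 t322) (.leaf b0 k323 t323)) (.br _ _ _ (.leaf b0 k324 t324) (.leaf b0 k325 t325))) (.br _ _ _ (.br _ _ _ (.leaf b0 k326 t326) (.leaf b0 k327 t327)) (.br _ _ _ (.leaf b0 k328 t328) (.br _ _ _ (.leaf b0 k329 t329) (.leaf b0 k330 t330)))))) w17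
noncomputable def k331 : KT := (.br (Nat.shiftLeft (nat_lit 0x5) (nat_lit 100)) (.br (Nat.shiftLeft (nat_lit 0x1) (nat_lit 101)) (.br (Nat.shiftLeft (nat_lit 0x1) (nat_lit 100)) (.one (nat_lit 0x700d012000000e01a025400)) (.one (nat_lit 0x100700d012000200e01a025500))) (.br (Nat.shiftLeft (nat_lit 0x3) (nat_lit 100)) (.one (nat_lit 0x200700d012000400e01a025500)) (.br (Nat.shiftLeft (nat_lit 0x1) (nat_lit 102)) (.one (nat_lit 0x300700d012000600e01a025500)) (.one (nat_lit 0x400700d012000800e01a025500))))) (.br (Nat.shiftLeft (nat_lit 0x1) (nat_lit 112)) (.br (Nat.shiftLeft (nat_lit 0x3) (nat_lit 101)) (.one (nat_lit 0x500700d012000a00e01a025500)) (.one (nat_lit 0x600700d012000c00e01a025500))) (.br (Nat.shiftLeft (nat_lit 0x801) (nat_lit 101)) (.one (nat_lit 0x100000700d012200000e01a024411)) (.br (Nat.shiftLeft (nat_lit 0x1003) (nat_lit 100)) (.one (nat_lit 0x100200700d012200400e01a025600)) (.one (nat_lit 0x100300700d012200600e01a024650))))))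
def t331 : k331.all (jb2 57 fl b0) = true := by decide +kernel
noncomputable def k332 : KT := (.one (nat_lit 0x100400700d012200800e01a024650))
def t332 : k332.all (jb2 57 fl b0) = true := by decide +kernel
noncomputable def k333 : KT := (.br (Nat.shiftLeft (nat_lit 0x1) (nat_lit 113)) (.br (Nat.shiftLeft (nat_lit 0x803) (nat_lit 101)) (.one (nat_lit 0x100500700d012200a00e01a024650)) (.one (nat_lit 0x100600700d012200c00e01a024650))) (.br (Nat.shiftLeft (nat_lit 0x1001) (nat_lit 101)) (.one (nat_lit 0x200000700d012400000e01a024411)) (.one (nat_lit 0x200300700d012400600e01a025600))))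
def t333 : k333.all (jb2 57 fl b0) = true := by decide +kernel
noncomputable def k334 : KT := (.one (nat_lit 0x200400700d012400800e01a024650))
def t334 : k334.all (jb2 57 fl b0) = true := by decide +kernel
noncomputable def k335 : KT := (.br (Nat.shiftLeft (nat_lit 0x1003) (nat_lit 101)) (.one (nat_lit 0x200500700d012400a00e01a024650)) (.br (Nat.shiftLeft (nat_lit 0x3) (nat_lit 112)) (.one (nat_lit 0x200600700d012400c00e01a024650)) (.one (nat_lit 0x300000700d012600000e01a024411))))
def t335 : k335.all (jb2 57 fl b0) = true := by decide +kernel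
noncomputable def k336 : KT := (.one (nat_lit 0x300400700d012600800e01a024650))
def t336 : k336.all (jb2 57 fl b0) = true := by decide +kernel
noncomputable def k337 : KT := (.br (Nat.shiftLeft (nat_lit 0x1803) (nat_lit 101)) (.one (nat_lit 0x300500700d012600a00e01a024650)) (.br (Nat.shiftLeft (nat_lit 0x1) (nat_lit 114)) (.one (nat_lit 0x300600700d012600c00e01a024650)) (.one (nat_lit 0x400000700d012800000e01a024411))))
def t337 : k337.all (jb2 57 fl b0) = true := by decide +kernel
noncomputable def k338 : KT := (.br (Nat.shiftLeft (nat_lit 0x2003) (nat_lit 101)) (.one (nat_lit 0x400500700d012800a00e01a024650)) (.br (Nat.shiftLeft (nat_lit 0x5) (nat_lit 112)) (.one (nat_lit 0x400600700d012800c00e01a024650)) (.one (nat_lit 0x500000700d012a00000e01a024411))))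
def t338 : k338.all (jb2 57 fl b0) = true := by decide +kernel
noncomputable def k339 : KT := (.br (Nat.shiftLeft (nat_lit 0x3) (nat_lit 114)) (.br (Nat.shiftLeft (nat_lit 0x1) (nat_lit 115)) (.br (Nat.shiftLeft (nat_lit 0x3) (nat_lit 113)) (.one (nat_lit 0x500600700d012a00c00e01a024650)) (.br (Nat.shiftLeft (nat_lit 0x7) (nat_lit 112)) (.one (nat_lit 0x600000700d012c00000e01a024411)) (.one (nat_lit 0x700000700d012e00000e01a024411)))) (.br (Nat.shiftLeft (nat_lit 0x5) (nat_lit 113)) (.br (Nat.shiftLeft (nat_lit 0x9) (nat_lit 112)) (.one (nat_lit 0x800000700d012000000e01a126411)) (.one (nat_lit 0x900000700d012200000e01a126411))) (.br (Nat.shiftLeft (nat_lit 0xb) (nat_lit 112)) (.one (nat_lit 0xa00000700d012400000e01a126411)) (.one (nat_lit 0xb00000700d012600000e01a126411))))) (.br (Nat.shiftLeft (nat_lit 0x1000003) (nat_lit 100)) (.br (Nat.shiftLeft (nat_lit 0x1) (nat_lit 124)) (.br (Nat.shiftLeft (nat_lit 0xd) (nat_lit 112)) (.one (nat_lit 0xc00000700d012800000e01a126411)) (.one (nat_lit 0xd00000700d012a00000e01a126411)))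 (.br (Nat.shiftLeft (nat_lit 0x800001) (nat_lit 101)) (.one (nat_lit 0x100000100700d012000200e03a424511)) (.one (nat_lit 0x100000200700d012000400e03a424511)))) (.br (Nat.shiftLeft (nat_lit 0x1000005) (nat_lit 100)) (.br (Nat.shiftLeft (nat_lit 0x400001) (nat_lit 102)) (.one (nat_lit 0x100000300700d012000600e03a424511)) (.one (nat_lit 0x100000400700d012000800e03a424511))) (.br (Nat.shiftLeft (nat_lit 0x800003) (nat_lit 101)) (.one (nat_lit 0x100000500700d012000a00e03a424511)) (.one (nat_lit 0x100000600700d012000c00e03a424511))))))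
noncomputable def b340 : BT := .node (nat_lit 0xb) (nat_lit 0x14509804c14b1a594980001d4c00064cc001d4d8005548149c13009d64e749c93ac003a98000cb6800421e000ac6c200265001ab001ab001ab001ab001ab001ab000f0000f0000f0000f0000f0) .leaf .leaf
def t339 : k339.all (jb2 57 fl b340) = true := by decide +kernel
noncomputable def k340 : KT := (.br (Nat.shiftLeft (nat_lit 0x3000003) (nat_lit 100)) (.br (Nat.shiftLeft (nat_lit 0x800001) (nat_lit 102)) (.br (Nat.shiftLeft (nat_lit 0x1000001) (nat_lit 101)) (.br (Nat.shiftLeft (nat_lit 0x1) (nat_lit 125)) (.one (nat_lit 0x100200300700d012400600e03a424760)) (.one (nat_lit 0x200000100700d012000200e05a824511))) (.br (Nat.shiftLeft (nat_lit 0x2000003) (nat_lit 100)) (.one (nat_lit 0x200000200700d012000400e05a824511)) (.one (nat_lit 0x200000300700d012000600e05a824511)))) (.br (Nat.shiftLeft (nat_lit 0x1000003) (nat_lit 101)) (.br (Nat.shiftLeft (nat_lit 0x2000005) (nat_lit 100)) (.one (nat_lit 0x200000400700d012000800e05a824511)) (.one (nat_lit 0x200000500700d012000a00e05a824511))) (.br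 (Nat.shiftLeft (nat_lit 0x3) (nat_lit 124)) (.one (nat_lit 0x200000600700d012000c00e05a824511)) (.br (Nat.shiftLeft (nat_lit 0x1800001) (nat_lit 101)) (.one (nat_lit 0x300000100700d012000200e07ac24511)) (.one (nat_lit 0x300000200700d012000400e07ac24511)))))) (.br (Nat.shiftLeft (nat_lit 0x2000001) (nat_lit 101)) (.br (Nat.shiftLeft (nat_lit 0x3000005) (nat_lit 100)) (.br (Nat.shiftLeft (nat_lit 0xc00001) (nat_lit 102)) (.one (nat_lit 0x300000300700d012000600e07ac24511)) (.one (nat_lit 0x300000400700d012000800e07ac24511))) (.br (Nat.shiftLeft (nat_lit 0x1800003) (nat_lit 101)) (.one (nat_lit 0x300000500700d012000a00e07ac24511)) (.br (Nat.shiftLeft (nat_lit 0x1) (nat_lit 126)) (.one (nat_lit 0x300000600700d012000c00e07ac24511)) (.one (nat_lit 0x400000100700d012000200e09b024511))))) (.br (Nat.shiftLeft (nat_lit 0x1000001) (nat_lit 102)) (.br (Nat.shiftLeft (nat_lit 0x4000003) (nat_lit 100)) (.one (nat_lit 0x400000200700d012000400e09b024511)) (.one (nat_lit 0x400000300700d012000600e09b024511))) (.br (Nat.shiftLeft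 (nat_lit 0x4000005) (nat_lit 100)) (.one (nat_lit 0x400000400700d012000800e09b024511)) (.br (Nat.shiftLeft (nat_lit 0x2000003) (nat_lit 101)) (.one (nat_lit 0x400000500700d012000a00e09b024511)) (.one (nat_lit 0x400000600700d012000c00e09b024511)))))))
def t340 : k340.all (jb2 57 fl b0) = true := by decide +kernel
noncomputable def k341 : KT := (.br (Nat.shiftLeft (nat_lit 0x5000005) (nat_lit 100)) (.br (Nat.shiftLeft (nat_lit 0x5000003) (nat_lit 100)) (.br (Nat.shiftLeft (nat_lit 0x2800001) (nat_lit 101)) (.one (nat_lit 0x500000100700d012000200e0bb424511)) (.one (nat_lit 0x500000200700d012000400e0bb424511))) (.br (Nat.shiftLeft (nat_lit 0x1400001) (nat_lit 102)) (.one (nat_lit 0x500000300700d012000600e0bb424511)) (.one (nat_lit 0x500000400700d012000800e0bb424511)))) (.br (Nat.shiftLeft (nat_lit 0x3) (nat_lit 125)) (.br (Nat.shiftLeft (nat_lit 0x2800003) (nat_lit 101)) (.one (nat_lit 0x500000500700d012000a00e0bb424511)) (.one (nat_lit 0x500000600700d012000c00e0bb424511))) (.br (Nat.shiftLeft (nat_lit 0x3000001)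 (nat_lit 101)) (.one (nat_lit 0x600000100700d012000200e0db824511)) (.one (nat_lit 0x600000200700d012000400e0db824511)))))
def t341 : k341.all (jb2 57 fl b0) = true := by decide +kernel
noncomputable def k342 : KT := (.br (Nat.shiftLeft (nat_lit 0x3000003) (nat_lit 101)) (.br (Nat.shiftLeft (nat_lit 0x1800001) (nat_lit 102)) (.one (nat_lit 0x600000300700d012000600e0db824511)) (.br (Nat.shiftLeft (nat_lit 0x6000005) (nat_lit 100)) (.one (nat_lit 0x600000400700d012000800e0db824511)) (.one (nat_lit 0x600000500700d012000a00e0db824511)))) (.br (Nat.shiftLeft (nat_lit 0x7) (nat_lit 124)) (.one (nat_lit 0x600000600700d012000c00e0db824511)) (.br (Nat.shiftLeft (nat_lit 0x3800001) (nat_lit 101)) (.one (nat_lit 0x700000100700d012000200e0fbc24511)) (.one (nat_lit 0x700000200700d012000400e0fbc24511)))))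
def t342 : k342.all (jb2 57 fl b0) = true := by decide +kernel
noncomputable def k343 : KT := (.br (Nat.shiftLeft (nat_lit 0x3800003) (nat_lit 101)) (.br (Nat.shiftLeft (nat_lit 0x1c00001) (nat_lit 102)) (.one (nat_lit 0x700000300700d012000600e0fbc24511)) (.br (Nat.shiftLeft (nat_lit 0x7000005) (nat_lit 100)) (.one (nat_lit 0x700000400700d012000800e0fbc24511)) (.one (nat_lit 0x700000500700d012000a00e0fbc24511)))) (.br (Nat.shiftLeft (nat_lit 0x4000001) (nat_lit 101)) (.br (Nat.shiftLeft (nat_lit 0x1) (nat_lit 127)) (.one (nat_lit 0x700000600700d012000c00e0fbc24511)) (.one (nat_lit 0x800000100700d012000200e11c024511))) (.br (Nat.shiftLeft (nat_lit 0x8000003) (nat_lit 100)) (.one (nat_lit 0x800000200700d012000400e11c024511)) (.one (nat_lit 0x800000300700d012000600e11c024511)))))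
def t343 : k343.all (jb2 57 fl b0) = true := by decide +kernel
noncomputable def k344 : KT := (.br (Nat.shiftLeft (nat_lit 0x9000003) (nat_lit 100)) (.br (Nat.shiftLeft (nat_lit 0x4000003) (nat_lit 101)) (.br (Nat.shiftLeft (nat_lit 0x8000005) (nat_lit 100)) (.one (nat_lit 0x800000400700d012000800e11c024511)) (.one (nat_lit 0x800000500700d012000a00e11c024511))) (.br (Nat.shiftLeft (nat_lit 0x9) (nat_lit 124)) (.one (nat_lit 0x800000600700d012000c00e11c024511)) (.br (Nat.shiftLeft (nat_lit 0x4800001) (nat_lit 101)) (.one (nat_lit 0x900000100700d012000200e13c424511)) (.one (nat_lit 0x900000200700d012000400e13c424511))))) (.br (Nat.shiftLeft (nat_lit 0x4800003) (nat_lit 101)) (.br (Nat.shiftLeft (nat_lit 0x2400001) (nat_lit 102)) (.one (nat_lit 0x900000300700d012000600e13c424511)) (.br (Nat.shiftLeft (nat_lit 0x9000005) (nat_lit 100)) (.one (nat_lit 0x900000400700d012000800e13c424511)) (.one (nat_lit 0x900000500700d012000a00e13c424511)))) (.br (Nat.shiftLeft (nat_lit 0x5) (nat_lit 125)) (.one (nat_lit 0x900000600700d012000c00e13c424511))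 (.br (Nat.shiftLeft (nat_lit 0x5000001) (nat_lit 101)) (.one (nat_lit 0xa00000100700d012000200e15c824511)) (.one (nat_lit 0xa00000200700d012000400e15c824511))))))
noncomputable def b345 : BT := .node (nat_lit 0x1) (nat_lit 0x51427613b0003a5c000ca8810008700028) .leaf .leaf
def t344 : k344.all (jb2 57 fl b345) = true := by decide +kernel
noncomputable def k345 : KT := (.br (Nat.shiftLeft (nat_lit 0x6000003) (nat_lit 101)) (.br (Nat.shiftLeft (nat_lit 0x2c00001) (nat_lit 102)) (.br (Nat.shiftLeft (nat_lit 0x5000003) (nat_lit 101)) (.br (Nat.shiftLeft (nat_lit 0x2800001) (nat_lit 102)) (.one (nat_lit 0xa00000300700d012000600e15c824511)) (.br (Nat.shiftLeft (nat_lit 0xa000005) (nat_lit 100)) (.one (nat_lit 0xa00000400700d012000800e15c824511)) (.one (nat_lit 0xa00000500700d012000a00e15c824511)))) (.br (Nat.shiftLeft (nat_lit 0x5800001) (nat_lit 101)) (.br (Nat.shiftLeft (nat_lit 0xb) (nat_lit 124)) (.one (nat_lit 0xa00000600700d012000c00e15c824511)) (.one (nat_lit 0xb00000100700d012000200e17cc24511))) (.br (Nat.shiftLeft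 (nat_lit 0xb000003) (nat_lit 100)) (.one (nat_lit 0xb00000200700d012000400e17cc24511)) (.one (nat_lit 0xb00000300700d012000600e17cc24511))))) (.br (Nat.shiftLeft (nat_lit 0x6000001) (nat_lit 101)) (.br (Nat.shiftLeft (nat_lit 0x5800003) (nat_lit 101)) (.br (Nat.shiftLeft (nat_lit 0xb000005) (nat_lit 100)) (.one (nat_lit 0xb00000400700d012000800e17cc24511)) (.one (nat_lit 0xb00000500700d012000a00e17cc24511))) (.br (Nat.shiftLeft (nat_lit 0x3) (nat_lit 126)) (.one (nat_lit 0xb00000600700d012000c00e17cc24511)) (.one (nat_lit 0xc00000100700d012000200e19d024511)))) (.br (Nat.shiftLeft (nat_lit 0x3000001) (nat_lit 102)) (.br (Nat.shiftLeft (nat_lit 0xc000003) (nat_lit 100)) (.one (nat_lit 0xc00000200700d012000400e19d024511)) (.one (nat_lit 0xc00000300700d012000600e19d024511))) (.br (Nat.shiftLeft (nat_lit 0xc000005) (nat_lit 100)) (.one (nat_lit 0xc00000400700d012000800e19d024511)) (.one (nat_lit 0xc00000500700d012000a00e19d024511)))))) (.br (Nat.shiftLeft (nat_lit 0x1) (nat_lit 136)) (.br (Nat.shiftLeft (nat_lit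 0xd000003) (nat_lit 100)) (.br (Nat.shiftLeft (nat_lit 0xd) (nat_lit 124)) (.one (nat_lit 0xc00000600700d012000c00e19d024511)) (.br (Nat.shiftLeft (nat_lit 0x6800001) (nat_lit 101)) (.one (nat_lit 0xd00000100700d012000200e1bd424511)) (.one (nat_lit 0xd00000200700d012000400e1bd424511)))) (.br (Nat.shiftLeft (nat_lit 0xd000005) (nat_lit 100)) (.br (Nat.shiftLeft (nat_lit 0x3400001) (nat_lit 102)) (.one (nat_lit 0xd00000300700d012000600e1bd424511)) (.one (nat_lit 0xd00000400700d012000800e1bd424511))) (.br (Nat.shiftLeft (nat_lit 0x6800003) (nat_lit 101)) (.one (nat_lit 0xd00000500700d012000a00e1bd424511)) (.one (nat_lit 0xd00000600700d012000c00e1bd424511))))) (.br (Nat.shiftLeft (nat_lit 0x3) (nat_lit 136)) (.br (Nat.shiftLeft (nat_lit 0x1) (nat_lit 137)) (.br (Nat.shiftLeft (nat_lit 0x800001) (nat_lit 113)) (.one (nat_lit 0x100000100200700d012200402e41a024611)) (.one (nat_lit 0x100000200300700d012400602e41a024611))) (.br (Nat.shiftLeft (nat_lit 0x1000001) (nat_lit 113)) (.one (nat_lit 0x200000100200700d012200404e81a024611))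 (.one (nat_lit 0x200000200300700d012400604e81a024611)))) (.br (Nat.shiftLeft (nat_lit 0x1) (nat_lit 138)) (.br (Nat.shiftLeft (nat_lit 0x1800001) (nat_lit 113)) (.one (nat_lit 0x300000100200700d012200406ec1a024611)) (.one (nat_lit 0x300000200300700d012400606ec1a024611))) (.br (Nat.shiftLeft (nat_lit 0x2000001) (nat_lit 113)) (.one (nat_lit 0x400000100200700d012200408f01a024611)) (.one (nat_lit 0x400000200300700d012400608f01a024611)))))))
def t345 : k345.all (jb2 57 fl b0) = true := by decide +kernel
noncomputable def k346 : KT := (.br (Nat.shiftLeft (nat_lit 0x3000001) (nat_lit 113)) (.br (Nat.shiftLeft (nat_lit 0x2800001) (nat_lit 113)) (.one (nat_lit 0x500000100200700d01220040af41a024611)) (.br (Nat.shiftLeft (nat_lit 0x3) (nat_lit 137)) (.one (nat_lit 0x500000200300700d01240060af41a024611)) (.one (nat_lit 0x600000100200700d01220040cf81a024611)))) (.br (Nat.shiftLeft (nat_lit 0x7) (nat_lit 136)) (.one (nat_lit 0x600000200300700d01240060cf81a024611)) (.br (Nat.shiftLeft (nat_lit 0x3800001) (nat_lit 113))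 (.one (nat_lit 0x700000100200700d01220040efc1a024611)) (.one (nat_lit 0x700000200300700d01240060efc1a024611)))))
def t346 : k346.all (jb2 57 fl b0) = true := by decide +kernel
noncomputable def k347 : KT := (.br (Nat.shiftLeft (nat_lit 0xb) (nat_lit 136)) (.br (Nat.shiftLeft (nat_lit 0x4800001) (nat_lit 113)) (.br (Nat.shiftLeft (nat_lit 0x4000001) (nat_lit 113)) (.one (nat_lit 0x800000100200700d012200411001a024611)) (.br (Nat.shiftLeft (nat_lit 0x9) (nat_lit 136)) (.one (nat_lit 0x800000200300700d012400611001a024611)) (.one (nat_lit 0x900000100200700d012200413041a024611)))) (.br (Nat.shiftLeft (nat_lit 0x5) (nat_lit 137)) (.one (nat_lit 0x900000200300700d012400613041a024611)) (.br (Nat.shiftLeft (nat_lit 0x5000001) (nat_lit 113)) (.one (nat_lit 0xa00000100200700d012200415081a024611)) (.one (nat_lit 0xa00000200300700d012400615081a024611))))) (.br (Nat.shiftLeft (nat_lit 0x6000001) (nat_lit 113)) (.br (Nat.shiftLeft (nat_lit 0x5800001) (nat_lit 113)) (.one (nat_lit 0xb00000100200700d0122004170c1a024611)) (.br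 (Nat.shiftLeft (nat_lit 0x3) (nat_lit 138)) (.one (nat_lit 0xb00000200300700d0124006170c1a024611)) (.one (nat_lit 0xc00000100200700d012200419101a024611)))) (.br (Nat.shiftLeft (nat_lit 0xd) (nat_lit 136)) (.one (nat_lit 0xc00000200300700d012400619101a024611)) (.br (Nat.shiftLeft (nat_lit 0x6800001) (nat_lit 113)) (.one (nat_lit 0xd00000100200700d01220041b141a024611)) (.one (nat_lit 0xd00000200300700d01240061b141a024611))))))
def t347 : k347.all (jb2 57 fl b0) = true := by decide +kernel
noncomputable def s18 : KT := (.br (nat_lit 0x500000700d012a00000e01a024411) (.br (nat_lit 0x200400700d012400800e01a024650) (.br (nat_lit 0x100400700d012200800e01a024650) (.br (nat_lit 0x100300700d012200600e01a024650) k331 k332) (.br (nat_lit 0x200300700d012400600e01a025600) k333 k334)) (.br (nat_lit 0x300400700d012600800e01a024650) (.br (nat_lit 0x300000700d012600000e01a024411) k335 k336) (.br (nat_lit 0x400000700d012800000e01a024411) k337 k338))) (.br (nat_lit 0x700000200700d012000400e0fbc24511) (.br (nat_lit 0x400000600700d012000c00e09b024511)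 (.br (nat_lit 0x100000600700d012000c00e03a424511) k339 k340) (.br (nat_lit 0x600000200700d012000400e0db824511) k341 k342)) (.br (nat_lit 0xa00000200700d012000400e15c824511) (.br (nat_lit 0x800000300700d012000600e11c024511) k343 k344) (.br (nat_lit 0x400000200300700d012400608f01a024611) k345 (.br (nat_lit 0x700000200300700d01240060efc1a024611) k346 k347)))))
noncomputable def u18 : KT := (.one (nat_lit 0x700d012000000e01a024430))
def w18 : u18.all (wj 57 s18) = true := by decide +kernel
def o18 : OkW 57 (jb2 57 fl) u18 := .lift s18 _ (.br _ _ _ (.br _ _ _ (.br _ _ _ (.br _ _ _ (.leaf b0 k331 t331) (.leaf b0 k332 t332)) (.br _ _ _ (.leaf b0 k333 t333) (.leaf b0 k334 t334))) (.br _ _ _ (.br _ _ _ (.leaf b0 k335 t335) (.leaf b0 k336 t336)) (.br _ _ _ (.leaf b0 k337 t337) (.leaf b0 k338 t338)))) (.br _ _ _ (.br _ _ _ (.br _ _ _ (.leaf b340 k339 t339) (.leaf b0 k340 t340)) (.br _ _ _ (.leaf b0 k341 t341) (.leaf b0 k342 t342))) (.br _ _ _ (.br _ _ _ (.leaf b0 k343 t343) (.leaf b345 k344 t344)) (.br _ _ _ (.leaf b0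 k345 t345) (.br _ _ _ (.leaf b0 k346 t346) (.leaf b0 k347 t347)))))) w18
noncomputable def k348 : KT := (.br (Nat.shiftLeft (nat_lit 0x1c03405) (nat_lit 66)) (.one (nat_lit 0x700d013000000e01a027400)) (.br (Nat.shiftLeft (nat_lit 0x1) (nat_lit 100)) (.one (nat_lit 0x700d014000000e01a029400)) (.one (nat_lit 0x100700d013000200e01a026540))))
def t348 : k348.all (jb2 57 fl b0) = true := by decide +kernel
noncomputable def k349 : KT := (.br (Nat.shiftLeft (nat_lit 0x1001c03405) (nat_lit 66)) (.br (Nat.shiftLeft (nat_lit 0x3) (nat_lit 100)) (.br (Nat.shiftLeft (nat_lit 0x1) (nat_lit 101)) (.one (nat_lit 0x100700d014000200e01a028540)) (.br (Nat.shiftLeft (nat_lit 0x801c03405) (nat_lit 66)) (.one (nat_lit 0x200700d013000400e01a027500)) (.one (nat_lit 0x200700d014000400e01a029500)))) (.br (Nat.shiftLeft (nat_lit 0xc01c03405) (nat_lit 66)) (.one (nat_lit 0x300700d013000600e01a027500)) (.br (Nat.shiftLeft (nat_lit 0x1) (nat_lit 102)) (.one (nat_lit 0x300700d014000600e01a029500)) (.one (nat_lit 0x400700d013000800e01a027500)))))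 (.br (Nat.shiftLeft (nat_lit 0x3) (nat_lit 101)) (.br (Nat.shiftLeft (nat_lit 0x5) (nat_lit 100)) (.one (nat_lit 0x400700d014000800e01a029500)) (.br (Nat.shiftLeft (nat_lit 0x1401c03405) (nat_lit 66)) (.one (nat_lit 0x500700d013000a00e01a027500)) (.one (nat_lit 0x500700d014000a00e01a029500)))) (.br (Nat.shiftLeft (nat_lit 0x1) (nat_lit 112)) (.br (Nat.shiftLeft (nat_lit 0x1801c03405) (nat_lit 66)) (.one (nat_lit 0x600700d013000c00e01a027500)) (.one (nat_lit 0x600700d014000c00e01a029500))) (.br (Nat.shiftLeft (nat_lit 0x400001c03405) (nat_lit 66)) (.one (nat_lit 0x100000700d013200000e01a026411)) (.one (nat_lit 0x100000700d014200000e01a028411))))))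
def t349 : k349.all (jb2 57 fl b0) = true := by decide +kernel
noncomputable def k350 : KT := (.one (nat_lit 0x100200700d013200400e01a026650))
def t350 : k350.all (jb2 57 fl b0) = true := by decide +kernel
noncomputable def k351 : KT := (.one (nat_lit 0x100200700d014200400e01a028650))
def t351 : k351.all (jb2 57 fl b0) = true := by decide +kernel
noncomputable def k352 : KT := (.one (nat_lit 0x100300700d013200600e01a026650))
def t352 : k352.all (jb2 57 fl b0) = true := by decide +kernel
noncomputable def k353 : KT := (.br (Nat.shiftLeft (nat_lit 0x401) (nat_lit 102)) (.one (nat_lit 0x100300700d014200600e01a028650)) (.one (nat_lit 0x100400700d013200800e01a026650)))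
def t353 : k353.all (jb2 57 fl b0) = true := by decide +kernel
noncomputable def k354 : KT := (.br (Nat.shiftLeft (nat_lit 0x1005) (nat_lit 100)) (.one (nat_lit 0x100400700d014200800e01a028650)) (.br (Nat.shiftLeft (nat_lit 0x401401c03405) (nat_lit 66)) (.one (nat_lit 0x100500700d013200a00e01a026650)) (.one (nat_lit 0x100500700d014200a00e01a028650))))
def t354 : k354.all (jb2 57 fl b0) = true := by decide +kernel
noncomputable def k355 : KT := (.br (Nat.shiftLeft (nat_lit 0x1) (nat_lit 113)) (.br (Nat.shiftLeft (nat_lit 0x401801c03405) (nat_lit 66)) (.one (nat_lit 0x100600700d013200c00e01a026650)) (.one (nat_lit 0x100600700d014200c00e01a028650))) (.br (Nat.shiftLeft (nat_lit 0x800001c03405) (nat_lit 66)) (.one (nat_lit 0x200000700d013400000e01a026411)) (.one (nat_lit 0x200000700d014400000e01a028411))))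
def t355 : k355.all (jb2 57 fl b0) = true := by decide +kernel
noncomputable def k356 : KT := (.one (nat_lit 0x200300700d013400600e01a026650))
def t356 : k356.all (jb2 57 fl b0) = true := by decide +kernel
noncomputable def k357 : KT := (.one (nat_lit 0x200300700d014400600e01a028650))
def t357 : k357.all (jb2 57 fl b0) = true := by decide +kernel
noncomputable def k358 : KT := (.br (Nat.shiftLeft (nat_lit 0x801001c03405) (nat_lit 66)) (.one (nat_lit 0x200400700d013400800e01a026650)) (.one (nat_lit 0x200400700d014400800e01a028650)))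
def t358 : k358.all (jb2 57 fl b0) = true := by decide +kernel
noncomputable def k359 : KT := (.br (Nat.shiftLeft (nat_lit 0x801401c03405) (nat_lit 66)) (.one (nat_lit 0x200500700d013400a00e01a026650)) (.br (Nat.shiftLeft (nat_lit 0x1003) (nat_lit 101)) (.one (nat_lit 0x200500700d014400a00e01a028650)) (.one (nat_lit 0x200600700d013400c00e01a026650))))
def t359 : k359.all (jb2 57 fl b0) = true := by decide +kernel
noncomputable def k360 : KT := (.br (Nat.shiftLeft (nat_lit 0xc00001c03405) (nat_lit 66)) (.br (Nat.shiftLeft (nat_lit 0x3) (nat_lit 112)) (.one (nat_lit 0x200600700d014400c00e01a028650)) (.one (nat_lit 0x300000700d013600000e01a026411))) (.br (Nat.shiftLeft (nat_lit 0xc01) (nat_lit 102)) (.one (nat_lit 0x300000700d014600000e01a028411)) (.one (nat_lit 0x300400700d013600800e01a026650))))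
def t360 : k360.all (jb2 57 fl b0) = true := by decide +kernel
noncomputable def k361 : KT := (.br (Nat.shiftLeft (nat_lit 0x3005) (nat_lit 100)) (.one (nat_lit 0x300400700d014600800e01a028650)) (.one (nat_lit 0x300500700d013600a00e01a026650)))
def t361 : k361.all (jb2 57 fl b0) = true := by decide +kernel
noncomputable def k362 : KT := (.br (Nat.shiftLeft (nat_lit 0xc01801c03405) (nat_lit 66)) (.br (Nat.shiftLeft (nat_lit 0x1803) (nat_lit 101)) (.one (nat_lit 0x300500700d014600a00e01a028650)) (.one (nat_lit 0x300600700d013600c00e01a026650))) (.br (Nat.shiftLeft (nat_lit 0x1) (nat_lit 114)) (.one (nat_lit 0x300600700d014600c00e01a028650)) (.br (Nat.shiftLeft (nat_lit 0x1000001c03405) (nat_lit 66)) (.one (nat_lit 0x400000700d013800000e01a026411)) (.one (nat_lit 0x400000700d014800000e01a028411)))))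
def t362 : k362.all (jb2 57 fl b0) = true := by decide +kernel
noncomputable def k363 : KT := (.br (Nat.shiftLeft (nat_lit 0x1001401c03405) (nat_lit 66)) (.one (nat_lit 0x400500700d013800a00e01a026650)) (.br (Nat.shiftLeft (nat_lit 0x2003) (nat_lit 101)) (.one (nat_lit 0x400500700d014800a00e01a028650)) (.one (nat_lit 0x400600700d013800c00e01a026650))))
def t363 : k363.all (jb2 57 fl b0) = true := by decide +kernel
noncomputable def k364 : KT := (.br (Nat.shiftLeft (nat_lit 0x1800001c03405) (nat_lit 66)) (.br (Nat.shiftLeft (nat_lit 0x1401) (nat_lit 102)) (.br (Nat.shiftLeft (nat_lit 0x5) (nat_lit 112)) (.one (nat_lit 0x400600700d014800c00e01a028650)) (.br (Nat.shiftLeft (nat_lit 0x1400001c03405) (nat_lit 66)) (.one (nat_lit 0x500000700d013a00000e01a026411)) (.one (nat_lit 0x500000700d014a00000e01a028411)))) (.br (Nat.shiftLeft (nat_lit 0x1401801c03405) (nat_lit 66)) (.one (nat_lit 0x500600700d013a00c00e01a026650)) (.br (Nat.shiftLeft (nat_lit 0x3) (nat_lit 113)) (.one (nat_lit 0x500600700d014a00c00e01a028650))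 (.one (nat_lit 0x600000700d013c00000e01a026411))))) (.br (Nat.shiftLeft (nat_lit 0x1) (nat_lit 115)) (.br (Nat.shiftLeft (nat_lit 0x7) (nat_lit 112)) (.one (nat_lit 0x600000700d014c00000e01a028411)) (.br (Nat.shiftLeft (nat_lit 0x1c00001c03405) (nat_lit 66)) (.one (nat_lit 0x700000700d013e00000e01a026411)) (.one (nat_lit 0x700000700d014e00000e01a028411)))) (.br (Nat.shiftLeft (nat_lit 0x9) (nat_lit 112)) (.br (Nat.shiftLeft (nat_lit 0x2000001c03405) (nat_lit 66)) (.one (nat_lit 0x800000700d013000000e01a128411)) (.one (nat_lit 0x800000700d014000000e01a12a411))) (.br (Nat.shiftLeft (nat_lit 0x2400001c03405) (nat_lit 66)) (.one (nat_lit 0x900000700d013200000e01a128411)) (.one (nat_lit 0x900000700d014200000e01a12a411))))))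
def t364 : k364.all (jb2 57 fl b0) = true := by decide +kernel
noncomputable def k365 : KT := (.br (Nat.shiftLeft (nat_lit 0x2000003) (nat_lit 100)) (.br (Nat.shiftLeft (nat_lit 0x1000003) (nat_lit 100)) (.br (Nat.shiftLeft (nat_lit 0x3000001c03405) (nat_lit 66)) (.br (Nat.shiftLeft (nat_lit 0xb) (nat_lit 112)) (.br (Nat.shiftLeft (nat_lit 0x2800001c03405) (nat_lit 66)) (.one (nat_lit 0xa00000700d013400000e01a128411)) (.one (nat_lit 0xa00000700d014400000e01a12a411))) (.br (Nat.shiftLeft (nat_lit 0x2c00001c03405) (nat_lit 66)) (.one (nat_lit 0xb00000700d013600000e01a128411)) (.br (Nat.shiftLeft (nat_lit 0x3) (nat_lit 114)) (.one (nat_lit 0xb00000700d014600000e01a12a411)) (.one (nat_lit 0xc00000700d013800000e01a128411))))) (.br (Nat.shiftLeft (nat_lit 0x3400001c03405) (nat_lit 66)) (.br (Nat.shiftLeft (nat_lit 0xd) (nat_lit 112)) (.one (nat_lit 0xc00000700d014800000e01a12a411)) (.one (nat_lit 0xd00000700d013a00000e01a128411))) (.br (Nat.shiftLeft (nat_lit 0x1) (nat_lit 124)) (.one (nat_lit 0xd00000700d014a00000e01a12a411))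 (.br (Nat.shiftLeft (nat_lit 0x400000801c03405) (nat_lit 66)) (.one (nat_lit 0x100000200700d013000400e03a426511)) (.one (nat_lit 0x100000200700d014000400e03a428511)))))) (.br (Nat.shiftLeft (nat_lit 0x400001401c03405) (nat_lit 66)) (.br (Nat.shiftLeft (nat_lit 0x400001) (nat_lit 102)) (.br (Nat.shiftLeft (nat_lit 0x400000c01c03405) (nat_lit 66)) (.one (nat_lit 0x100000300700d013000600e03a426511)) (.one (nat_lit 0x100000300700d014000600e03a428511))) (.br (Nat.shiftLeft (nat_lit 0x400001001c03405) (nat_lit 66)) (.one (nat_lit 0x100000400700d013000800e03a426511)) (.br (Nat.shiftLeft (nat_lit 0x1000005) (nat_lit 100)) (.one (nat_lit 0x100000400700d014000800e03a428511)) (.one (nat_lit 0x100000500700d013000a00e03a426511))))) (.br (Nat.shiftLeft (nat_lit 0x400001801c03405) (nat_lit 66)) (.br (Nat.shiftLeft (nat_lit 0x800003) (nat_lit 101)) (.one (nat_lit 0x100000500700d014000a00e03a428511)) (.one (nat_lit 0x100000600700d013000c00e03a426511))) (.br (Nat.shiftLeft (nat_lit 0x1) (nat_lit 125)) (.one (nat_lit 0x100000600700d014000c00e03a428511))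 (.br (Nat.shiftLeft (nat_lit 0x800000801c03405) (nat_lit 66)) (.one (nat_lit 0x200000200700d013000400e05a826511)) (.one (nat_lit 0x200000200700d014000400e05a828511))))))) (.br (Nat.shiftLeft (nat_lit 0x3000003) (nat_lit 100)) (.br (Nat.shiftLeft (nat_lit 0x800001401c03405) (nat_lit 66)) (.br (Nat.shiftLeft (nat_lit 0x800001) (nat_lit 102)) (.br (Nat.shiftLeft (nat_lit 0x800000c01c03405) (nat_lit 66)) (.one (nat_lit 0x200000300700d013000600e05a826511)) (.one (nat_lit 0x200000300700d014000600e05a828511))) (.br (Nat.shiftLeft (nat_lit 0x800001001c03405) (nat_lit 66)) (.one (nat_lit 0x200000400700d013000800e05a826511)) (.br (Nat.shiftLeft (nat_lit 0x2000005) (nat_lit 100)) (.one (nat_lit 0x200000400700d014000800e05a828511)) (.one (nat_lit 0x200000500700d013000a00e05a826511))))) (.br (Nat.shiftLeft (nat_lit 0x800001801c03405) (nat_lit 66)) (.br (Nat.shiftLeft (nat_lit 0x1000003) (nat_lit 101)) (.one (nat_lit 0x200000500700d014000a00e05a828511)) (.one (nat_lit 0x200000600700d013000c00e05a826511))) (.br (Nat.shiftLeft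 (nat_lit 0x3) (nat_lit 124)) (.one (nat_lit 0x200000600700d014000c00e05a828511)) (.br (Nat.shiftLeft (nat_lit 0xc00000801c03405) (nat_lit 66)) (.one (nat_lit 0x300000200700d013000400e07ac26511)) (.one (nat_lit 0x300000200700d014000400e07ac28511)))))) (.br (Nat.shiftLeft (nat_lit 0xc00001401c03405) (nat_lit 66)) (.br (Nat.shiftLeft (nat_lit 0xc00001) (nat_lit 102)) (.br (Nat.shiftLeft (nat_lit 0xc00000c01c03405) (nat_lit 66)) (.one (nat_lit 0x300000300700d013000600e07ac26511)) (.one (nat_lit 0x300000300700d014000600e07ac28511))) (.br (Nat.shiftLeft (nat_lit 0xc00001001c03405) (nat_lit 66)) (.one (nat_lit 0x300000400700d013000800e07ac26511)) (.br (Nat.shiftLeft (nat_lit 0x3000005) (nat_lit 100)) (.one (nat_lit 0x300000400700d014000800e07ac28511)) (.one (nat_lit 0x300000500700d013000a00e07ac26511))))) (.br (Nat.shiftLeft (nat_lit 0xc00001801c03405) (nat_lit 66)) (.br (Nat.shiftLeft (nat_lit 0x1800003) (nat_lit 101)) (.one (nat_lit 0x300000500700d014000a00e07ac28511)) (.one (nat_lit 0x300000600700d013000c00e07ac26511)))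 (.br (Nat.shiftLeft (nat_lit 0x1) (nat_lit 126)) (.one (nat_lit 0x300000600700d014000c00e07ac28511)) (.br (Nat.shiftLeft (nat_lit 0x1000000801c03405) (nat_lit 66)) (.one (nat_lit 0x400000200700d013000400e09b026511)) (.one (nat_lit 0x400000200700d014000400e09b028511))))))))
def t365 : k365.all (jb2 57 fl b0) = true := by decide +kernel
noncomputable def k366 : KT := (.br (Nat.shiftLeft (nat_lit 0x2000003) (nat_lit 101)) (.br (Nat.shiftLeft (nat_lit 0x1000001001c03405) (nat_lit 66)) (.br (Nat.shiftLeft (nat_lit 0x1000000c01c03405) (nat_lit 66)) (.one (nat_lit 0x400000300700d013000600e09b026511)) (.br (Nat.shiftLeft (nat_lit 0x1000001) (nat_lit 102)) (.one (nat_lit 0x400000300700d014000600e09b028511)) (.one (nat_lit 0x400000400700d013000800e09b026511)))) (.br (Nat.shiftLeft (nat_lit 0x4000005) (nat_lit 100)) (.one (nat_lit 0x400000400700d014000800e09b028511)) (.br (Nat.shiftLeft (nat_lit 0x1000001401c03405) (nat_lit 66)) (.one (nat_lit 0x400000500700d013000a00e09b026511)) (.one (nat_lit 0x400000500700d014000a00e09b028511)))))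 (.br (Nat.shiftLeft (nat_lit 0x1400000801c03405) (nat_lit 66)) (.br (Nat.shiftLeft (nat_lit 0x1000001801c03405) (nat_lit 66)) (.one (nat_lit 0x400000600700d013000c00e09b026511)) (.br (Nat.shiftLeft (nat_lit 0x5) (nat_lit 124)) (.one (nat_lit 0x400000600700d014000c00e09b028511)) (.one (nat_lit 0x500000200700d013000400e0bb426511)))) (.br (Nat.shiftLeft (nat_lit 0x5000003) (nat_lit 100)) (.one (nat_lit 0x500000200700d014000400e0bb428511)) (.br (Nat.shiftLeft (nat_lit 0x1400000c01c03405) (nat_lit 66)) (.one (nat_lit 0x500000300700d013000600e0bb426511)) (.one (nat_lit 0x500000300700d014000600e0bb428511))))))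
def t366 : k366.all (jb2 57 fl b0) = true := by decide +kernel
noncomputable def k367 : KT := (.br (Nat.shiftLeft (nat_lit 0x1400001801c03405) (nat_lit 66)) (.br (Nat.shiftLeft (nat_lit 0x5000005) (nat_lit 100)) (.br (Nat.shiftLeft (nat_lit 0x1400001001c03405) (nat_lit 66)) (.one (nat_lit 0x500000400700d013000800e0bb426511)) (.one (nat_lit 0x500000400700d014000800e0bb428511))) (.br (Nat.shiftLeft (nat_lit 0x1400001401c03405) (nat_lit 66)) (.one (nat_lit 0x500000500700d013000a00e0bb426511)) (.br (Nat.shiftLeft (nat_lit 0x2800003) (nat_lit 101)) (.one (nat_lit 0x500000500700d014000a00e0bb428511)) (.one (nat_lit 0x500000600700d013000c00e0bb426511))))) (.br (Nat.shiftLeft (nat_lit 0x1800000801c03405) (nat_lit 66)) (.br (Nat.shiftLeft (nat_lit 0x3) (nat_lit 125)) (.one (nat_lit 0x500000600700d014000c00e0bb428511)) (.one (nat_lit 0x600000200700d013000400e0db826511))) (.br (Nat.shiftLeft (nat_lit 0x6000003) (nat_lit 100)) (.one (nat_lit 0x600000200700d014000400e0db828511)) (.br (Nat.shiftLeft (nat_lit 0x1800000c01c03405)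 (nat_lit 66)) (.one (nat_lit 0x600000300700d013000600e0db826511)) (.one (nat_lit 0x600000300700d014000600e0db828511))))))
def t367 : k367.all (jb2 57 fl b0) = true := by decide +kernel
noncomputable def k368 : KT := (.br (Nat.shiftLeft (nat_lit 0x1800001801c03405) (nat_lit 66)) (.br (Nat.shiftLeft (nat_lit 0x6000005) (nat_lit 100)) (.br (Nat.shiftLeft (nat_lit 0x1800001001c03405) (nat_lit 66)) (.one (nat_lit 0x600000400700d013000800e0db826511)) (.one (nat_lit 0x600000400700d014000800e0db828511))) (.br (Nat.shiftLeft (nat_lit 0x1800001401c03405) (nat_lit 66)) (.one (nat_lit 0x600000500700d013000a00e0db826511)) (.br (Nat.shiftLeft (nat_lit 0x3000003) (nat_lit 101)) (.one (nat_lit 0x600000500700d014000a00e0db828511)) (.one (nat_lit 0x600000600700d013000c00e0db826511))))) (.br (Nat.shiftLeft (nat_lit 0x7000003) (nat_lit 100)) (.br (Nat.shiftLeft (nat_lit 0x7) (nat_lit 124)) (.one (nat_lit 0x600000600700d014000c00e0db828511)) (.br (Nat.shiftLeft (nat_lit 0x1c00000801c03405) (nat_lit 66)) (.one (nat_lit 0x700000200700d013000400e0fbc26511))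 (.one (nat_lit 0x700000200700d014000400e0fbc28511)))) (.br (Nat.shiftLeft (nat_lit 0x1c00000c01c03405) (nat_lit 66)) (.one (nat_lit 0x700000300700d013000600e0fbc26511)) (.br (Nat.shiftLeft (nat_lit 0x1c00001) (nat_lit 102)) (.one (nat_lit 0x700000300700d014000600e0fbc28511)) (.one (nat_lit 0x700000400700d013000800e0fbc26511))))))
def t368 : k368.all (jb2 57 fl b0) = true := by decide +kernel
noncomputable def k369 : KT := (.br (Nat.shiftLeft (nat_lit 0x2000001) (nat_lit 102)) (.br (Nat.shiftLeft (nat_lit 0x1c00001801c03405) (nat_lit 66)) (.br (Nat.shiftLeft (nat_lit 0x1c00001401c03405) (nat_lit 66)) (.br (Nat.shiftLeft (nat_lit 0x7000005) (nat_lit 100)) (.one (nat_lit 0x700000400700d014000800e0fbc28511)) (.one (nat_lit 0x700000500700d013000a00e0fbc26511))) (.br (Nat.shiftLeft (nat_lit 0x3800003) (nat_lit 101)) (.one (nat_lit 0x700000500700d014000a00e0fbc28511)) (.one (nat_lit 0x700000600700d013000c00e0fbc26511)))) (.br (Nat.shiftLeft (nat_lit 0x2000000801c03405) (nat_lit 66)) (.br (Nat.shiftLeft (nat_lit 0x1)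 (nat_lit 127)) (.one (nat_lit 0x700000600700d014000c00e0fbc28511)) (.one (nat_lit 0x800000200700d013000400e11c026511))) (.br (Nat.shiftLeft (nat_lit 0x8000003) (nat_lit 100)) (.one (nat_lit 0x800000200700d014000400e11c028511)) (.br (Nat.shiftLeft (nat_lit 0x2000000c01c03405) (nat_lit 66)) (.one (nat_lit 0x800000300700d013000600e11c026511)) (.one (nat_lit 0x800000300700d014000600e11c028511)))))) (.br (Nat.shiftLeft (nat_lit 0x4000003) (nat_lit 101)) (.br (Nat.shiftLeft (nat_lit 0x8000005) (nat_lit 100)) (.br (Nat.shiftLeft (nat_lit 0x2000001001c03405) (nat_lit 66)) (.one (nat_lit 0x800000400700d013000800e11c026511)) (.one (nat_lit 0x800000400700d014000800e11c028511))) (.br (Nat.shiftLeft (nat_lit 0x2000001401c03405) (nat_lit 66)) (.one (nat_lit 0x800000500700d013000a00e11c026511)) (.one (nat_lit 0x800000500700d014000a00e11c028511)))) (.br (Nat.shiftLeft (nat_lit 0x9) (nat_lit 124)) (.br (Nat.shiftLeft (nat_lit 0x2000001801c03405) (nat_lit 66)) (.one (nat_lit 0x800000600700d013000c00e11c026511)) (.one (nat_lit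 0x800000600700d014000c00e11c028511))) (.br (Nat.shiftLeft (nat_lit 0x2400000801c03405) (nat_lit 66)) (.one (nat_lit 0x900000200700d013000400e13c426511)) (.br (Nat.shiftLeft (nat_lit 0x9000003) (nat_lit 100)) (.one (nat_lit 0x900000200700d014000400e13c428511)) (.one (nat_lit 0x900000300700d013000600e13c426511)))))))
def t369 : k369.all (jb2 57 fl b0) = true := by decide +kernel
noncomputable def k370 : KT := (.br (Nat.shiftLeft (nat_lit 0x2c00000c01c03405) (nat_lit 66)) (.br (Nat.shiftLeft (nat_lit 0x2800000c01c03405) (nat_lit 66)) (.br (Nat.shiftLeft (nat_lit 0x4800003) (nat_lit 101)) (.br (Nat.shiftLeft (nat_lit 0x2400001001c03405) (nat_lit 66)) (.br (Nat.shiftLeft (nat_lit 0x2400001) (nat_lit 102)) (.one (nat_lit 0x900000300700d014000600e13c428511)) (.one (nat_lit 0x900000400700d013000800e13c426511))) (.br (Nat.shiftLeft (nat_lit 0x9000005) (nat_lit 100)) (.one (nat_lit 0x900000400700d014000800e13c428511)) (.br (Nat.shiftLeft (nat_lit 0x2400001401c03405) (nat_lit 66)) (.one (nat_lit 0x900000500700d013000a00e13c426511))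 (.one (nat_lit 0x900000500700d014000a00e13c428511))))) (.br (Nat.shiftLeft (nat_lit 0x5) (nat_lit 125)) (.br (Nat.shiftLeft (nat_lit 0x2400001801c03405) (nat_lit 66)) (.one (nat_lit 0x900000600700d013000c00e13c426511)) (.one (nat_lit 0x900000600700d014000c00e13c428511))) (.br (Nat.shiftLeft (nat_lit 0x2800000801c03405) (nat_lit 66)) (.one (nat_lit 0xa00000200700d013000400e15c826511)) (.br (Nat.shiftLeft (nat_lit 0xa000003) (nat_lit 100)) (.one (nat_lit 0xa00000200700d014000400e15c828511)) (.one (nat_lit 0xa00000300700d013000600e15c826511)))))) (.br (Nat.shiftLeft (nat_lit 0x5000003) (nat_lit 101)) (.br (Nat.shiftLeft (nat_lit 0x2800001001c03405) (nat_lit 66)) (.br (Nat.shiftLeft (nat_lit 0x2800001) (nat_lit 102)) (.one (nat_lit 0xa00000300700d014000600e15c828511)) (.one (nat_lit 0xa00000400700d013000800e15c826511))) (.br (Nat.shiftLeft (nat_lit 0xa000005) (nat_lit 100)) (.one (nat_lit 0xa00000400700d014000800e15c828511)) (.br (Nat.shiftLeft (nat_lit 0x2800001401c03405) (nat_lit 66)) (.one (nat_lit 0xa00000500700d013000a00e15c826511))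 (.one (nat_lit 0xa00000500700d014000a00e15c828511))))) (.br (Nat.shiftLeft (nat_lit 0xb) (nat_lit 124)) (.br (Nat.shiftLeft (nat_lit 0x2800001801c03405) (nat_lit 66)) (.one (nat_lit 0xa00000600700d013000c00e15c826511)) (.one (nat_lit 0xa00000600700d014000c00e15c828511))) (.br (Nat.shiftLeft (nat_lit 0x2c00000801c03405) (nat_lit 66)) (.one (nat_lit 0xb00000200700d013000400e17cc26511)) (.br (Nat.shiftLeft (nat_lit 0xb000003) (nat_lit 100)) (.one (nat_lit 0xb00000200700d014000400e17cc28511)) (.one (nat_lit 0xb00000300700d013000600e17cc26511))))))) (.br (Nat.shiftLeft (nat_lit 0x3000000c01c03405) (nat_lit 66)) (.br (Nat.shiftLeft (nat_lit 0x5800003) (nat_lit 101)) (.br (Nat.shiftLeft (nat_lit 0x2c00001001c03405) (nat_lit 66)) (.br (Nat.shiftLeft (nat_lit 0x2c00001) (nat_lit 102)) (.one (nat_lit 0xb00000300700d014000600e17cc28511)) (.one (nat_lit 0xb00000400700d013000800e17cc26511))) (.br (Nat.shiftLeft (nat_lit 0xb000005) (nat_lit 100)) (.one (nat_lit 0xb00000400700d014000800e17cc28511)) (.br (Nat.shiftLeft (nat_lit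 0x2c00001401c03405) (nat_lit 66)) (.one (nat_lit 0xb00000500700d013000a00e17cc26511)) (.one (nat_lit 0xb00000500700d014000a00e17cc28511))))) (.br (Nat.shiftLeft (nat_lit 0x3) (nat_lit 126)) (.br (Nat.shiftLeft (nat_lit 0x2c00001801c03405) (nat_lit 66)) (.one (nat_lit 0xb00000600700d013000c00e17cc26511)) (.one (nat_lit 0xb00000600700d014000c00e17cc28511))) (.br (Nat.shiftLeft (nat_lit 0x3000000801c03405) (nat_lit 66)) (.one (nat_lit 0xc00000200700d013000400e19d026511)) (.br (Nat.shiftLeft (nat_lit 0xc000003) (nat_lit 100)) (.one (nat_lit 0xc00000200700d014000400e19d028511)) (.one (nat_lit 0xc00000300700d013000600e19d026511)))))) (.br (Nat.shiftLeft (nat_lit 0x6000003) (nat_lit 101)) (.br (Nat.shiftLeft (nat_lit 0x3000001001c03405) (nat_lit 66)) (.br (Nat.shiftLeft (nat_lit 0x3000001) (nat_lit 102)) (.one (nat_lit 0xc00000300700d014000600e19d028511)) (.one (nat_lit 0xc00000400700d013000800e19d026511))) (.br (Nat.shiftLeft (nat_lit 0xc000005) (nat_lit 100)) (.one (nat_lit 0xc00000400700d014000800e19d028511))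 (.br (Nat.shiftLeft (nat_lit 0x3000001401c03405) (nat_lit 66)) (.one (nat_lit 0xc00000500700d013000a00e19d026511)) (.one (nat_lit 0xc00000500700d014000a00e19d028511))))) (.br (Nat.shiftLeft (nat_lit 0x3400000801c03405) (nat_lit 66)) (.br (Nat.shiftLeft (nat_lit 0xd) (nat_lit 124)) (.one (nat_lit 0xc00000600700d013000c00e19d026511)) (.one (nat_lit 0xd00000200700d013000400e1bd426511))) (.br (Nat.shiftLeft (nat_lit 0xd000003) (nat_lit 100)) (.one (nat_lit 0xd00000200700d014000400e1bd428511)) (.br (Nat.shiftLeft (nat_lit 0x3400000c01c03405) (nat_lit 66)) (.one (nat_lit 0xd00000300700d013000600e1bd426511)) (.one (nat_lit 0xd00000300700d014000600e1bd428511))))))))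
def t370 : k370.all (jb2 57 fl b0) = true := by decide +kernel
noncomputable def k371 : KT := (.br (Nat.shiftLeft (nat_lit 0x3400001001c03405) (nat_lit 66)) (.one (nat_lit 0xd00000400700d013000800e1bd426511)) (.br (Nat.shiftLeft (nat_lit 0xd000005) (nat_lit 100)) (.one (nat_lit 0xd00000400700d014000800e1bd428511)) (.one (nat_lit 0xd00000500700d013000a00e1bd426511))))
def t371 : k371.all (jb2 57 fl b0) = true := by decide +kernel
noncomputable def s19 : KT := (.br (nat_lit 0x200600700d013400c00e01a026650) (.br (nat_lit 0x100400700d013200800e01a026650) (.br (nat_lit 0x100200700d013200400e01a026650) (.br (nat_lit 0x100700d013000200e01a026540) k348 (.br (nat_lit 0x100000700d014200000e01a028411) k349 k350)) (.br (nat_lit 0x100200700d014200400e01a028650) k351 (.br (nat_lit 0x100300700d013200600e01a026650) k352 k353))) (.br (nat_lit 0x200300700d013400600e01a026650) (.br (nat_lit 0x100500700d014200a00e01a028650) k354 (.br (nat_lit 0x200000700d014400000e01a028411) k355 k356)) (.br (nat_lit 0x200300700d014400600e01a028650)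 k357 (.br (nat_lit 0x200400700d014400800e01a028650) k358 k359)))) (.br (nat_lit 0x400000200700d014000400e09b028511) (.br (nat_lit 0x400000700d014800000e01a028411) (.br (nat_lit 0x300400700d013600800e01a026650) k360 (.br (nat_lit 0x300500700d013600a00e01a026650) k361 k362)) (.br (nat_lit 0x400600700d013800c00e01a026650) k363 (.br (nat_lit 0x900000700d014200000e01a12a411) k364 k365))) (.br (nat_lit 0x700000400700d013000800e0fbc26511) (.br (nat_lit 0x500000300700d014000600e0bb428511) k366 (.br (nat_lit 0x600000300700d014000600e0db828511) k367 k368)) (.br (nat_lit 0x900000300700d013000600e13c426511) k369 (.br (nat_lit 0xd00000300700d014000600e1bd428511) k370 k371)))))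
noncomputable def u19 : KT := (.br (Nat.shiftLeft (nat_lit 0x1c03405) (nat_lit 66)) (.one (nat_lit 0x700d013000000e01a026430)) (.one (nat_lit 0x700d014000000e01a028430)))
def w19 : u19.all (wj 57 s19) = true := by decide +kernel
def o19 : OkW 57 (jb2 57 fl) u19 := .lift s19 _ (.br _ _ _ (.br _ _ _ (.br _ _ _ (.br _ _ _ (.leaf b0 k348 t348) (.br _ _ _ (.leaf b0 k349 t349) (.leaf b0 k350 t350))) (.br _ _ _ (.leaf b0 k351 t351) (.br _ _ _ (.leaf b0 k352 t352) (.leaf b0 k353 t353)))) (.br _ _ _ (.br _ _ _ (.leaf b0 k354 t354) (.br _ _ _ (.leaf b0 k355 t355) (.leaf b0 k356 t356))) (.br _ _ _ (.leaf b0 k357 t357) (.br _ _ _ (.leaf b0 k358 t358) (.leaf b0 k359 t359))))) (.br _ _ _ (.br _ _ _ (.br _ _ _ (.leaf b0 k360 t360) (.br _ _ _ (.leaf b0 k361 t361) (.leaf b0 k362 t362))) (.br _ _ _ (.leaf b0 k363 t363) (.br _ _ _ (.leaf b0 k364 t364) (.leaf b0 k365 t365)))) (.br _ _ _ (.br _ _ _ (.leaf b0 k366 t366) (.br _ _ _ (.leaf b0 k367 t367) (.leaf b0 k368 t368))) (.br _ _ _ (.leaf b0 k369 t369) (.br _ _ _ (.leaf b0 k370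 t370) (.leaf b0 k371 t371)))))) w19
noncomputable def k : KT := (.br (nat_lit 0x700a017000000e01402e430) (.br (nat_lit 0x7009016000000e01202c430) (.br (nat_lit 0x7008018000000e010030430) (.br (nat_lit 0x7008016000000e01002c430) u0 u1) (.br (nat_lit 0x7009014000000e012029400) u2 (.br (nat_lit 0x7009015000000e01202a430) u3 u4))) (.br (nat_lit 0x700a013000000e014027400) (.br (nat_lit 0x7009018000000e012030430) u5 u6) (.br (nat_lit 0x700a014000000e014028430) u7 (.br (nat_lit 0x700a015000000e01402a430) u8 u9)))) (.br (nat_lit 0x700c012000000e018025400) (.br (nat_lit 0x700b013000000e016026430) (.br (nat_lit 0x700b012000000e016025400) u10 u11) (.br (nat_lit 0x700b014000000e016028430) u12 (.br (nat_lit 0x700b016000000e01602c430) u13 u14))) (.br (nat_lit 0x700c015000000e01802a430) (.br (nat_lit 0x700c013000000e018026430) u15 u16) (.br (nat_lit 0x700d011000000e01a023400) u17 (.br (nat_lit 0x700d012000000e01a024430) u18 u19)))))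
theorem ok : OkW 57 (jb2 57 fl) k := (.br _ _ _ (.br _ _ _ (.br _ _ _ (.br _ _ _ o0 o1) (.br _ _ _ o2 (.br _ _ _ o3 o4))) (.br _ _ _ (.br _ _ _ o5 o6) (.br _ _ _ o7 (.br _ _ _ o8 o9)))) (.br _ _ _ (.br _ _ _ (.br _ _ _ o10 o11) (.br _ _ _ o12 (.br _ _ _ o13 o14))) (.br _ _ _ (.br _ _ _ o15 o16) (.br _ _ _ o17 (.br _ _ _ o18 o19)))))

end Pool.Agent.Lib.MP_ed43e6_ag.Q.Y57.R12
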