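import Pool.Agent.Lib.MP_ed43e6_ag.Y57.Fl

namespace Pool.Agent.Lib.MP_ed43e6_ag.Q.Y57.R13

set_option linter.defProp false

noncomputable def b0 : BT := .node (nat_lit 1) (nat_lit 0) .leaf .leaf
noncomputable def k0 : KT := (.br (Nat.shiftLeft (nat_lit 0x3807) (nat_lit 77)) (.br (Nat.shiftLeft (nat_lit 0x380680b) (nat_lit 65)) (.one (nat_lit 0x700d015000000e01a02b400)) (.br (Nat.shiftLeft (nat_lit 0x700d017) (nat_lit 64)) (.one (nat_lit 0x700d016000000e01a02d400)) (.one (nat_lit 0x700d017000000e01a02f400)))) (.br (Nat.shiftLeft (nat_lit 0x1) (nat_lit 100)) (.one (nat_lit 0x700e00f000000e01c01f400)) (.br (Nat.shiftLeft (nat_lit 0x80380680b) (nat_lit 65)) (.one (nat_lit 0x100700d015000200e01a02a540)) (.one (nat_lit 0x100700d016000200e01a02c540)))))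
def t0 : k0.all (jb2 57 fl b0) = true := by decide +kernel
noncomputable def k1 : KT := (.one (nat_lit 0x100700d017000200e01a02e540))
def t1 : k1.all (jb2 57 fl b0) = true := by decide +kernel
noncomputable def k2 : KT := (.one (nat_lit 0x200700d015000400e01a02a540))
def t2 : k2.all (jb2 57 fl b0) = true := by decide +kernel
noncomputable def k3 : KT := (.one (nat_lit 0x200700d016000400e01a02c540))
def t3 : k3.all (jb2 57 fl b0) = true := by decide +kernel
noncomputable def k4 : KT := (.br (Nat.shiftLeft (nat_lit 0x3) (nat_lit 100)) (.one (nat_lit 0x200700d017000400e01a02e540)) (.one (nat_lit 0x300700d015000600e01a02b500)))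
def t4 : k4.all (jb2 57 fl b0) = true := by decide +kernel
noncomputable def k5 : KT := (.one (nat_lit 0x300700d016000600e01a02c540))
def t5 : k5.all (jb2 57 fl b0) = true := by decide +kernel
noncomputable def k6 : KT := (.br (Nat.shiftLeft (nat_lit 0x1) (nat_lit 102)) (.one (nat_lit 0x300700d017000600e01a02e540)) (.one (nat_lit 0x400700d015000800e01a02b500)))
def t6 : k6.all (jb2 57 fl b0) = true := by decide +kernel
noncomputable def k7 : KT := (.one (nat_lit 0x400700d016000800e01a02c540))
def t7 : k7.all (jb2 57 fl b0) = true := by decide +kernel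
noncomputable def k8 : KT := (.one (nat_lit 0x400700d017000800e01a02e540))
def t8 : k8.all (jb2 57 fl b0) = true := by decide +kernel
noncomputable def k9 : KT := (.one (nat_lit 0x500700d015000a00e01a02a540))
def t9 : k9.all (jb2 57 fl b0) = true := by decide +kernel
noncomputable def k10 : KT := (.one (nat_lit 0x500700d016000a00e01a02c540))
def t10 : k10.all (jb2 57 fl b0) = true := by decide +kernel
noncomputable def k11 : KT := (.one (nat_lit 0x500700d017000a00e01a02e540))
def t11 : k11.all (jb2 57 fl b0) = true := by decide +kernel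
noncomputable def k12 : KT := (.one (nat_lit 0x600700d015000c00e01a02a540))
def t12 : k12.all (jb2 57 fl b0) = true := by decide +kernel
noncomputable def k13 : KT := (.br (Nat.shiftLeft (nat_lit 0x1) (nat_lit 112)) (.br (Nat.shiftLeft (nat_lit 0x600700d017) (nat_lit 64)) (.one (nat_lit 0x600700d016000c00e01a02c540)) (.one (nat_lit 0x600700d017000c00e01a02e540))) (.br (Nat.shiftLeft (nat_lit 0x80000380680b) (nat_lit 65)) (.one (nat_lit 0x100000700d015200000e01a02a411)) (.br (Nat.shiftLeft (nat_lit 0x100000700d017) (nat_lit 64)) (.one (nat_lit 0x100000700d016200000e01a02c411)) (.one (nat_lit 0x100000700d017200000e01a02e411)))))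
def t13 : k13.all (jb2 57 fl b0) = true := by decide +kernel
noncomputable def k14 : KT := (.br (Nat.shiftLeft (nat_lit 0x100000380680b) (nat_lit 65)) (.br (Nat.shiftLeft (nat_lit 0x401) (nat_lit 102)) (.one (nat_lit 0x100300700d015200600e01a02a650)) (.br (Nat.shiftLeft (nat_lit 0x1) (nat_lit 113)) (.one (nat_lit 0x100400700d015200800e01a02a650)) (.one (nat_lit 0x200000700d015400000e01a02a411)))) (.br (Nat.shiftLeft (nat_lit 0x200000700d017) (nat_lit 64)) (.one (nat_lit 0x200000700d016400000e01a02c411)) (.br (Nat.shiftLeft (nat_lit 0x1001) (nat_lit 101)) (.one (nat_lit 0x200000700d017400000e01a02e411)) (.one (nat_lit 0x200300700d015400600e01a02a650)))))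
def t14 : k14.all (jb2 57 fl b0) = true := by decide +kernel
noncomputable def k15 : KT := (.br (Nat.shiftLeft (nat_lit 0x5) (nat_lit 112)) (.br (Nat.shiftLeft (nat_lit 0xc01) (nat_lit 102)) (.br (Nat.shiftLeft (nat_lit 0x180000380680b) (nat_lit 65)) (.br (Nat.shiftLeft (nat_lit 0x3) (nat_lit 112)) (.one (nat_lit 0x200400700d015400800e01a02a650)) (.one (nat_lit 0x300000700d015600000e01a02a411))) (.br (Nat.shiftLeft (nat_lit 0x300000700d017) (nat_lit 64)) (.one (nat_lit 0x300000700d016600000e01a02c411)) (.one (nat_lit 0x300000700d017600000e01a02e411)))) (.br (Nat.shiftLeft (nat_lit 0x200000380680b) (nat_lit 65)) (.br (Nat.shiftLeft (nat_lit 0x1) (nat_lit 114)) (.one (nat_lit 0x300400700d015600800e01a02a650)) (.one (nat_lit 0x400000700d015800000e01a02a411))) (.br (Nat.shiftLeft (nat_lit 0x400000700d017) (nat_lit 64)) (.one (nat_lit 0x400000700d016800000e01a02c411)) (.one (nat_lit 0x400000700d017800000e01a02e411))))) (.br (Nat.shiftLeft (nat_lit 0x300000380680b) (nat_lit 65)) (.br (Nat.shiftLeft (nat_lit 0x500000700d017)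 (nat_lit 64)) (.br (Nat.shiftLeft (nat_lit 0x280000380680b) (nat_lit 65)) (.one (nat_lit 0x500000700d015a00000e01a02a411)) (.one (nat_lit 0x500000700d016a00000e01a02c411))) (.br (Nat.shiftLeft (nat_lit 0x3) (nat_lit 113)) (.one (nat_lit 0x500000700d017a00000e01a02e411)) (.one (nat_lit 0x600000700d015c00000e01a02a411)))) (.br (Nat.shiftLeft (nat_lit 0x7) (nat_lit 112)) (.br (Nat.shiftLeft (nat_lit 0x600000700d017) (nat_lit 64)) (.one (nat_lit 0x600000700d016c00000e01a02c411)) (.one (nat_lit 0x600000700d017c00000e01a02e411))) (.br (Nat.shiftLeft (nat_lit 0x380000380680b) (nat_lit 65)) (.one (nat_lit 0x700000700d015e00000e01a02a411)) (.br (Nat.shiftLeft (nat_lit 0x700000700d017) (nat_lit 64)) (.one (nat_lit 0x700000700d016e00000e01a02c411)) (.one (nat_lit 0x700000700d017e00000e01a02e411)))))))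
def t15 : k15.all (jb2 57 fl b0) = true := by decide +kernel
noncomputable def k16 : KT := (.br (Nat.shiftLeft (nat_lit 0x680000380680b) (nat_lit 65)) (.br (Nat.shiftLeft (nat_lit 0xa00000700d017) (nat_lit 64)) (.br (Nat.shiftLeft (nat_lit 0x480000380680b) (nat_lit 65)) (.br (Nat.shiftLeft (nat_lit 0x800000700d017) (nat_lit 64)) (.br (Nat.shiftLeft (nat_lit 0x400000380680b) (nat_lit 65)) (.one (nat_lit 0x800000700d015000000e01a12c411)) (.one (nat_lit 0x800000700d016000000e01a12e411))) (.br (Nat.shiftLeft (nat_lit 0x9) (nat_lit 112)) (.one (nat_lit 0x800000700d017000000e01a130411)) (.one (nat_lit 0x900000700d015200000e01a12c411)))) (.br (Nat.shiftLeft (nat_lit 0x5) (nat_lit 113)) (.br (Nat.shiftLeft (nat_lit 0x900000700d017) (nat_lit 64)) (.one (nat_lit 0x900000700d016200000e01a12e411)) (.one (nat_lit 0x900000700d017200000e01a130411))) (.br (Nat.shiftLeft (nat_lit 0x500000380680b) (nat_lit 65)) (.one (nat_lit 0xa00000700d015400000e01a12c411)) (.one (nat_lit 0xa00000700d016400000e01a12e411))))) (.br (Nat.shiftLeft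 (nat_lit 0x3) (nat_lit 114)) (.br (Nat.shiftLeft (nat_lit 0x580000380680b) (nat_lit 65)) (.br (Nat.shiftLeft (nat_lit 0xb) (nat_lit 112)) (.one (nat_lit 0xa00000700d017400000e01a130411)) (.one (nat_lit 0xb00000700d015600000e01a12c411))) (.br (Nat.shiftLeft (nat_lit 0xb00000700d017) (nat_lit 64)) (.one (nat_lit 0xb00000700d016600000e01a12e411)) (.one (nat_lit 0xb00000700d017600000e01a130411)))) (.br (Nat.shiftLeft (nat_lit 0xc00000700d017) (nat_lit 64)) (.br (Nat.shiftLeft (nat_lit 0x600000380680b) (nat_lit 65)) (.one (nat_lit 0xc00000700d015800000e01a12c411)) (.one (nat_lit 0xc00000700d016800000e01a12e411))) (.br (Nat.shiftLeft (nat_lit 0xd) (nat_lit 112)) (.one (nat_lit 0xc00000700d017800000e01a130411)) (.one (nat_lit 0xd00000700d015a00000e01a12c411)))))) (.br (Nat.shiftLeft (nat_lit 0x1) (nat_lit 126)) (.br (Nat.shiftLeft (nat_lit 0x1) (nat_lit 125)) (.br (Nat.shiftLeft (nat_lit 0x1) (nat_lit 124)) (.br (Nat.shiftLeft (nat_lit 0xd00000700d017) (nat_lit 64)) (.one (nat_lit 0xd00000700d016a00000e01a12e411)) (.one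 (nat_lit 0xd00000700d017a00000e01a130411))) (.br (Nat.shiftLeft (nat_lit 0x400001) (nat_lit 102)) (.one (nat_lit 0x100000300700d015000600e03a42a511)) (.one (nat_lit 0x100000400700d015000800e03a42a511)))) (.br (Nat.shiftLeft (nat_lit 0x3) (nat_lit 124)) (.br (Nat.shiftLeft (nat_lit 0x800001) (nat_lit 102)) (.one (nat_lit 0x200000300700d015000600e05a82a511)) (.one (nat_lit 0x200000400700d015000800e05a82a511))) (.br (Nat.shiftLeft (nat_lit 0xc00001) (nat_lit 102)) (.one (nat_lit 0x300000300700d015000600e07ac2a511)) (.one (nat_lit 0x300000400700d015000800e07ac2a511))))) (.br (Nat.shiftLeft (nat_lit 0x3) (nat_lit 125)) (.br (Nat.shiftLeft (nat_lit 0x5) (nat_lit 124)) (.br (Nat.shiftLeft (nat_lit 0x1000001) (nat_lit 102)) (.one (nat_lit 0x400000300700d015000600e09b02a511)) (.one (nat_lit 0x400000400700d015000800e09b02a511))) (.br (Nat.shiftLeft (nat_lit 0x1400001) (nat_lit 102)) (.one (nat_lit 0x500000300700d015000600e0bb42a511)) (.one (nat_lit 0x500000400700d015000800e0bb42a511)))) (.br (Nat.shiftLeft (nat_lit 0x7)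 (nat_lit 124)) (.br (Nat.shiftLeft (nat_lit 0x1800001) (nat_lit 102)) (.one (nat_lit 0x600000300700d015000600e0db82a511)) (.one (nat_lit 0x600000400700d015000800e0db82a511))) (.br (Nat.shiftLeft (nat_lit 0x1c00001) (nat_lit 102)) (.one (nat_lit 0x700000300700d015000600e0fbc2a511)) (.br (Nat.shiftLeft (nat_lit 0x1) (nat_lit 127)) (.one (nat_lit 0x700000400700d015000800e0fbc2a511)) (.one (nat_lit 0x800000300700d015000600e11c02a511))))))))
def t16 : k16.all (jb2 57 fl b0) = true := by decide +kernel
noncomputable def k17 : KT := (.br (Nat.shiftLeft (nat_lit 0xb) (nat_lit 124)) (.br (Nat.shiftLeft (nat_lit 0x2400001) (nat_lit 102)) (.br (Nat.shiftLeft (nat_lit 0x9) (nat_lit 124)) (.one (nat_lit 0x800000400700d015000800e11c02a511)) (.one (nat_lit 0x900000300700d015000600e13c42a511))) (.br (Nat.shiftLeft (nat_lit 0x5) (nat_lit 125)) (.one (nat_lit 0x900000400700d015000800e13c42a511)) (.br (Nat.shiftLeft (nat_lit 0x2800001) (nat_lit 102)) (.one (nat_lit 0xa00000300700d015000600e15c82a511)) (.one (nat_lit 0xa00000400700d015000800e15c82a511)))))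 (.br (Nat.shiftLeft (nat_lit 0x3) (nat_lit 126)) (.br (Nat.shiftLeft (nat_lit 0x2c00001) (nat_lit 102)) (.one (nat_lit 0xb00000300700d015000600e17cc2a511)) (.one (nat_lit 0xb00000400700d015000800e17cc2a511))) (.br (Nat.shiftLeft (nat_lit 0x3000001) (nat_lit 102)) (.one (nat_lit 0xc00000300700d015000600e19d02a511)) (.br (Nat.shiftLeft (nat_lit 0xd) (nat_lit 124)) (.one (nat_lit 0xc00000400700d015000800e19d02a511)) (.one (nat_lit 0xd00000300700d015000600e1bd42a511))))))
def t17 : k17.all (jb2 57 fl b0) = true := by decide +kernel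
noncomputable def s0 : KT := (.br (nat_lit 0x400700d017000800e01a02e540) (.br (nat_lit 0x200700d016000400e01a02c540) (.br (nat_lit 0x100700d017000200e01a02e540) (.br (nat_lit 0x100700d016000200e01a02c540) k0 k1) (.br (nat_lit 0x200700d015000400e01a02a540) k2 k3)) (.br (nat_lit 0x300700d016000600e01a02c540) (.br (nat_lit 0x300700d015000600e01a02b500) k4 k5) (.br (nat_lit 0x400700d015000800e01a02b500) k6 (.br (nat_lit 0x400700d016000800e01a02c540) k7 k8)))) (.br (nat_lit 0x600700d015000c00e01a02a540) (.br (nat_lit 0x500700d016000a00e01a02c540) (.br (nat_lit 0x500700d015000a00e01a02a540) k9 k10) (.br (nat_lit 0x500700d017000a00e01a02e540) k11 k12)) (.br (nat_lit 0x200300700d015400600e01a02a650) (.br (nat_lit 0x100000700d017200000e01a02e411) k13 k14) (.br (nat_lit 0x700000700d017e00000e01a02e411) k15 (.br (nat_lit 0x800000300700d015000600e11c02a511) k16 k17)))))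
noncomputable def u0 : KT := (.br (Nat.shiftLeft (nat_lit 0x700d017) (nat_lit 64)) (.br (Nat.shiftLeft (nat_lit 0x380680b) (nat_lit 65)) (.one (nat_lit 0x700d015000000e01a02a430)) (.one (nat_lit 0x700d016000000e01a02c430))) (.br (Nat.shiftLeft (nat_lit 0x3807) (nat_lit 77)) (.one (nat_lit 0x700d017000000e01a02e430)) (.one (nat_lit 0x700e00f000000e01c01f400))))
def w0 : u0.all (wj 57 s0) = true := by decide +kernel
def o0 : OkW 57 (jb2 57 fl) u0 := .lift s0 _ (.br _ _ _ (.br _ _ _ (.br _ _ _ (.br _ _ _ (.leaf b0 k0 t0) (.leaf b0 k1 t1)) (.br _ _ _ (.leaf b0 k2 t2) (.leaf b0 k3 t3))) (.br _ _ _ (.br _ _ _ (.leaf b0 k4 t4) (.leaf b0 k5 t5)) (.br _ _ _ (.leaf b0 k6 t6) (.br _ _ _ (.leaf b0 k7 t7) (.leaf b0 k8 t8))))) (.br _ _ _ (.br _ _ _ (.br _ _ _ (.leaf b0 k9 t9) (.leaf b0 k10 t10)) (.br _ _ _ (.leaf b0 k11 t11) (.leaf b0 k12 t12))) (.br _ _ _ (.br _ _ _ (.leaf b0 k13 t13) (.leaf b0 k14 t14)) (.br _ _ _ (.leaf b0 k15 t15) (.br _ _ _ (.leaf b0 k16 t16) (.leaf b0 k17 t17)))))) w0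
noncomputable def k18 : KT := (.br (Nat.shiftLeft (nat_lit 0x5) (nat_lit 100)) (.br (Nat.shiftLeft (nat_lit 0x1) (nat_lit 101)) (.br (Nat.shiftLeft (nat_lit 0x1) (nat_lit 100)) (.one (nat_lit 0x700e010000000e01c021400)) (.one (nat_lit 0x100700e010000200e01c021500))) (.br (Nat.shiftLeft (nat_lit 0x3) (nat_lit 100)) (.one (nat_lit 0x200700e010000400e01c021500)) (.br (Nat.shiftLeft (nat_lit 0x1) (nat_lit 102)) (.one (nat_lit 0x300700e010000600e01c021500)) (.one (nat_lit 0x400700e010000800e01c021500))))) (.br (Nat.shiftLeft (nat_lit 0x801) (nat_lit 101)) (.br (Nat.shiftLeft (nat_lit 0x3) (nat_lit 101)) (.one (nat_lit 0x500700e010000a00e01c021500)) (.br (Nat.shiftLeft (nat_lit 0x1) (nat_lit 112)) (.one (nat_lit 0x600700e010000c00e01c021500)) (.one (nat_lit 0x100000700e010200000e01c020411)))) (.br (Nat.shiftLeft (nat_lit 0x1003) (nat_lit 100)) (.one (nat_lit 0x100200700e010200400e01c021600)) (.br (Nat.shiftLeft (nat_lit 0x401) (nat_lit 102)) (.one (nat_lit 0x100300700e010200600e01c021600)) (.one (nat_lit 0x100400700e010200800e01c020650))))))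
def t18 : k18.all (jb2 57 fl b0) = true := by decide +kernel
noncomputable def k19 : KT := (.one (nat_lit 0x100500700e010200a00e01c020650))
def t19 : k19.all (jb2 57 fl b0) = true := by decide +kernel
noncomputable def k20 : KT := (.br (Nat.shiftLeft (nat_lit 0x1001) (nat_lit 101)) (.br (Nat.shiftLeft (nat_lit 0x1) (nat_lit 113)) (.one (nat_lit 0x100600700e010200c00e01c020650)) (.one (nat_lit 0x200000700e010400000e01c020411))) (.br (Nat.shiftLeft (nat_lit 0x801) (nat_lit 102)) (.one (nat_lit 0x200300700e010400600e01c021600)) (.one (nat_lit 0x200400700e010400800e01c021600))))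
def t20 : k20.all (jb2 57 fl b0) = true := by decide +kernel
noncomputable def k21 : KT := (.one (nat_lit 0x200500700e010400a00e01c020650))
def t21 : k21.all (jb2 57 fl b0) = true := by decide +kernel
noncomputable def k22 : KT := (.br (Nat.shiftLeft (nat_lit 0x3) (nat_lit 112)) (.one (nat_lit 0x200600700e010400c00e01c020650)) (.br (Nat.shiftLeft (nat_lit 0xc01) (nat_lit 102)) (.one (nat_lit 0x300000700e010600000e01c020411)) (.one (nat_lit 0x300400700e010600800e01c021600))))
def t22 : k22.all (jb2 57 fl b0) = true := by decide +kernel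
noncomputable def k23 : KT := (.one (nat_lit 0x300500700e010600a00e01c020650))
def t23 : k23.all (jb2 57 fl b0) = true := by decide +kernel
noncomputable def k24 : KT := (.br (Nat.shiftLeft (nat_lit 0x1) (nat_lit 114)) (.one (nat_lit 0x300600700e010600c00e01c020650)) (.one (nat_lit 0x400000700e010800000e01c020411)))
def t24 : k24.all (jb2 57 fl b0) = true := by decide +kernel
noncomputable def k25 : KT := (.one (nat_lit 0x400500700e010800a00e01c020650))
def t25 : k25.all (jb2 57 fl b0) = true := by decide +kernel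
noncomputable def k26 : KT := (.br (Nat.shiftLeft (nat_lit 0x5) (nat_lit 112)) (.one (nat_lit 0x400600700e010800c00e01c020650)) (.br (Nat.shiftLeft (nat_lit 0x1401) (nat_lit 102)) (.one (nat_lit 0x500000700e010a00000e01c020411)) (.one (nat_lit 0x500600700e010a00c00e01c020650))))
def t26 : k26.all (jb2 57 fl b0) = true := by decide +kernel
noncomputable def k27 : KT := (.br (Nat.shiftLeft (nat_lit 0xd) (nat_lit 112)) (.br (Nat.shiftLeft (nat_lit 0x9) (nat_lit 112)) (.br (Nat.shiftLeft (nat_lit 0x7) (nat_lit 112)) (.one (nat_lit 0x600000700e010c00000e01c020411)) (.br (Nat.shiftLeft (nat_lit 0x1) (nat_lit 115)) (.one (nat_lit 0x700000700e010e00000e01c020411)) (.one (nat_lit 0x800000700e010000000e01c122411)))) (.br (Nat.shiftLeft (nat_lit 0xb) (nat_lit 112)) (.br (Nat.shiftLeft (nat_lit 0x5) (nat_lit 113)) (.one (nat_lit 0x900000700e010200000e01c122411)) (.one (nat_lit 0xa00000700e010400000e01c122411))) (.br (Nat.shiftLeft (nat_lit 0x3) (nat_lit 114)) (.one (nat_lit 0xb00000700e010600000e01c122411)) (.one (nat_lit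 0xc00000700e010800000e01c122411))))) (.br (Nat.shiftLeft (nat_lit 0x1000003) (nat_lit 100)) (.br (Nat.shiftLeft (nat_lit 0x1) (nat_lit 124)) (.br (Nat.shiftLeft (nat_lit 0x7) (nat_lit 113)) (.one (nat_lit 0xd00000700e010a00000e01c122411)) (.one (nat_lit 0xe00000700e010c00000e01c122411))) (.br (Nat.shiftLeft (nat_lit 0x800001) (nat_lit 101)) (.one (nat_lit 0x100000100700e010000200e03c420511)) (.one (nat_lit 0x100000200700e010000400e03c420511)))) (.br (Nat.shiftLeft (nat_lit 0x1000005) (nat_lit 100)) (.br (Nat.shiftLeft (nat_lit 0x400001) (nat_lit 102)) (.one (nat_lit 0x100000300700e010000600e03c420511)) (.one (nat_lit 0x100000400700e010000800e03c420511))) (.br (Nat.shiftLeft (nat_lit 0x800003) (nat_lit 101)) (.one (nat_lit 0x100000500700e010000a00e03c420511)) (.one (nat_lit 0x100000600700e010000c00e03c420511))))))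
def t27 : k27.all (jb2 57 fl b0) = true := by decide +kernel
noncomputable def k28 : KT := (.one (nat_lit 0x100200300700e010400600e03c420760))
def t28 : k28.all (jb2 57 fl b0) = true := by decide +kernel
noncomputable def k29 : KT := (.br (Nat.shiftLeft (nat_lit 0x2000003) (nat_lit 100)) (.br (Nat.shiftLeft (nat_lit 0x1) (nat_lit 125)) (.br (Nat.shiftLeft (nat_lit 0x1003) (nat_lit 112)) (.one (nat_lit 0x100200400700e010400800e03c420760)) (.one (nat_lit 0x100300400700e010600800e03c420760))) (.br (Nat.shiftLeft (nat_lit 0x1000001) (nat_lit 101)) (.one (nat_lit 0x200000100700e010000200e05c820511)) (.one (nat_lit 0x200000200700e010000400e05c820511)))) (.br (Nat.shiftLeft (nat_lit 0x2000005) (nat_lit 100)) (.br (Nat.shiftLeft (nat_lit 0x800001) (nat_lit 102)) (.one (nat_lit 0x200000300700e010000600e05c820511)) (.one (nat_lit 0x200000400700e010000800e05c820511))) (.br (Nat.shiftLeft (nat_lit 0x1000003) (nat_lit 101)) (.one (nat_lit 0x200000500700e010000a00e05c820511)) (.one (nat_lit 0x200000600700e010000c00e05c820511)))))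
def t29 : k29.all (jb2 57 fl b0) = true := by decide +kernel
noncomputable def k30 : KT := (.br (Nat.shiftLeft (nat_lit 0x1) (nat_lit 126)) (.br (Nat.shiftLeft (nat_lit 0x3000003) (nat_lit 100)) (.br (Nat.shiftLeft (nat_lit 0x3) (nat_lit 124)) (.one (nat_lit 0x200300400700e010600800e05c820760)) (.br (Nat.shiftLeft (nat_lit 0x1800001) (nat_lit 101)) (.one (nat_lit 0x300000100700e010000200e07cc20511)) (.one (nat_lit 0x300000200700e010000400e07cc20511)))) (.br (Nat.shiftLeft (nat_lit 0x3000005) (nat_lit 100)) (.br (Nat.shiftLeft (nat_lit 0xc00001) (nat_lit 102)) (.one (nat_lit 0x300000300700e010000600e07cc20511)) (.one (nat_lit 0x300000400700e010000800e07cc20511))) (.br (Nat.shiftLeft (nat_lit 0x1800003) (nat_lit 101)) (.one (nat_lit 0x300000500700e010000a00e07cc20511)) (.one (nat_lit 0x300000600700e010000c00e07cc20511))))) (.br (Nat.shiftLeft (nat_lit 0x1000001) (nat_lit 102)) (.br (Nat.shiftLeft (nat_lit 0x2000001) (nat_lit 101)) (.one (nat_lit 0x400000100700e010000200e09d020511)) (.br (Nat.shiftLeft (nat_lit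 0x4000003) (nat_lit 100)) (.one (nat_lit 0x400000200700e010000400e09d020511)) (.one (nat_lit 0x400000300700e010000600e09d020511)))) (.br (Nat.shiftLeft (nat_lit 0x2000003) (nat_lit 101)) (.br (Nat.shiftLeft (nat_lit 0x4000005) (nat_lit 100)) (.one (nat_lit 0x400000400700e010000800e09d020511)) (.one (nat_lit 0x400000500700e010000a00e09d020511))) (.br (Nat.shiftLeft (nat_lit 0x5) (nat_lit 124)) (.one (nat_lit 0x400000600700e010000c00e09d020511)) (.one (nat_lit 0x500000100700e010000200e0bd420511))))))
def t30 : k30.all (jb2 57 fl b0) = true := by decide +kernel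
noncomputable def k31 : KT := (.br (Nat.shiftLeft (nat_lit 0x5000005) (nat_lit 100)) (.br (Nat.shiftLeft (nat_lit 0x5000003) (nat_lit 100)) (.one (nat_lit 0x500000200700e010000400e0bd420511)) (.br (Nat.shiftLeft (nat_lit 0x1400001) (nat_lit 102)) (.one (nat_lit 0x500000300700e010000600e0bd420511)) (.one (nat_lit 0x500000400700e010000800e0bd420511)))) (.br (Nat.shiftLeft (nat_lit 0x3) (nat_lit 125)) (.br (Nat.shiftLeft (nat_lit 0x2800003) (nat_lit 101)) (.one (nat_lit 0x500000500700e010000a00e0bd420511)) (.one (nat_lit 0x500000600700e010000c00e0bd420511))) (.br (Nat.shiftLeft (nat_lit 0x3000001) (nat_lit 101)) (.one (nat_lit 0x600000100700e010000200e0dd820511)) (.one (nat_lit 0x600000200700e010000400e0dd820511)))))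
def t31 : k31.all (jb2 57 fl b0) = true := by decide +kernel
noncomputable def k32 : KT := (.br (Nat.shiftLeft (nat_lit 0x6000005) (nat_lit 100)) (.br (Nat.shiftLeft (nat_lit 0x1800001) (nat_lit 102)) (.one (nat_lit 0x600000300700e010000600e0dd820511)) (.one (nat_lit 0x600000400700e010000800e0dd820511))) (.br (Nat.shiftLeft (nat_lit 0x3000003) (nat_lit 101)) (.one (nat_lit 0x600000500700e010000a00e0dd820511)) (.br (Nat.shiftLeft (nat_lit 0x7) (nat_lit 124)) (.one (nat_lit 0x600000600700e010000c00e0dd820511)) (.one (nat_lit 0x700000100700e010000200e0fdc20511)))))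
def t32 : k32.all (jb2 57 fl b0) = true := by decide +kernel
noncomputable def k33 : KT := (.br (Nat.shiftLeft (nat_lit 0x1c00001) (nat_lit 102)) (.br (Nat.shiftLeft (nat_lit 0x7000003) (nat_lit 100)) (.one (nat_lit 0x700000200700e010000400e0fdc20511)) (.one (nat_lit 0x700000300700e010000600e0fdc20511))) (.br (Nat.shiftLeft (nat_lit 0x7000005) (nat_lit 100)) (.one (nat_lit 0x700000400700e010000800e0fdc20511)) (.br (Nat.shiftLeft (nat_lit 0x3800003) (nat_lit 101)) (.one (nat_lit 0x700000500700e010000a00e0fdc20511)) (.one (nat_lit 0x700000600700e010000c00e0fdc20511)))))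
def t33 : k33.all (jb2 57 fl b0) = true := by decide +kernel
noncomputable def k34 : KT := (.br (Nat.shiftLeft (nat_lit 0x2000001) (nat_lit 102)) (.br (Nat.shiftLeft (nat_lit 0x4000001) (nat_lit 101)) (.one (nat_lit 0x800000100700e010000200e11e020511)) (.br (Nat.shiftLeft (nat_lit 0x8000003) (nat_lit 100)) (.one (nat_lit 0x800000200700e010000400e11e020511)) (.one (nat_lit 0x800000300700e010000600e11e020511)))) (.br (Nat.shiftLeft (nat_lit 0x8000005) (nat_lit 100)) (.one (nat_lit 0x800000400700e010000800e11e020511)) (.br (Nat.shiftLeft (nat_lit 0x4000003) (nat_lit 101)) (.one (nat_lit 0x800000500700e010000a00e11e020511)) (.one (nat_lit 0x800000600700e010000c00e11e020511)))))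
def t34 : k34.all (jb2 57 fl b0) = true := by decide +kernel
noncomputable def k35 : KT := (.br (Nat.shiftLeft (nat_lit 0x9000005) (nat_lit 100)) (.br (Nat.shiftLeft (nat_lit 0x9000003) (nat_lit 100)) (.br (Nat.shiftLeft (nat_lit 0x4800001) (nat_lit 101)) (.one (nat_lit 0x900000100700e010000200e13e420511)) (.one (nat_lit 0x900000200700e010000400e13e420511))) (.br (Nat.shiftLeft (nat_lit 0x2400001) (nat_lit 102)) (.one (nat_lit 0x900000300700e010000600e13e420511)) (.one (nat_lit 0x900000400700e010000800e13e420511)))) (.br (Nat.shiftLeft (nat_lit 0x5) (nat_lit 125)) (.br (Nat.shiftLeft (nat_lit 0x4800003) (nat_lit 101)) (.one (nat_lit 0x900000500700e010000a00e13e420511)) (.one (nat_lit 0x900000600700e010000c00e13e420511))) (.br (Nat.shiftLeft (nat_lit 0x5000001) (nat_lit 101)) (.one (nat_lit 0xa00000100700e010000200e15e820511)) (.one (nat_lit 0xa00000200700e010000400e15e820511)))))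
def t35 : k35.all (jb2 57 fl b0) = true := by decide +kernel
noncomputable def k36 : KT := (.br (Nat.shiftLeft (nat_lit 0xd000003) (nat_lit 100)) (.br (Nat.shiftLeft (nat_lit 0x5800003) (nat_lit 101)) (.br (Nat.shiftLeft (nat_lit 0xb) (nat_lit 124)) (.br (Nat.shiftLeft (nat_lit 0xa000005) (nat_lit 100)) (.br (Nat.shiftLeft (nat_lit 0x2800001) (nat_lit 102)) (.one (nat_lit 0xa00000300700e010000600e15e820511)) (.one (nat_lit 0xa00000400700e010000800e15e820511))) (.br (Nat.shiftLeft (nat_lit 0x5000003) (nat_lit 101)) (.one (nat_lit 0xa00000500700e010000a00e15e820511)) (.one (nat_lit 0xa00000600700e010000c00e15e820511)))) (.br (Nat.shiftLeft (nat_lit 0xb000003) (nat_lit 100)) (.br (Nat.shiftLeft (nat_lit 0x5800001) (nat_lit 101)) (.one (nat_lit 0xb00000100700e010000200e17ec20511)) (.one (nat_lit 0xb00000200700e010000400e17ec20511))) (.br (Nat.shiftLeft (nat_lit 0x2c00001) (nat_lit 102)) (.one (nat_lit 0xb00000300700e010000600e17ec20511)) (.br (Nat.shiftLeft (nat_lit 0xb000005) (nat_lit 100)) (.one (nat_lit 0xb00000400700e010000800e17ec20511))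 (.one (nat_lit 0xb00000500700e010000a00e17ec20511)))))) (.br (Nat.shiftLeft (nat_lit 0x3000001) (nat_lit 102)) (.br (Nat.shiftLeft (nat_lit 0x6000001) (nat_lit 101)) (.br (Nat.shiftLeft (nat_lit 0x3) (nat_lit 126)) (.one (nat_lit 0xb00000600700e010000c00e17ec20511)) (.one (nat_lit 0xc00000100700e010000200e19f020511))) (.br (Nat.shiftLeft (nat_lit 0xc000003) (nat_lit 100)) (.one (nat_lit 0xc00000200700e010000400e19f020511)) (.one (nat_lit 0xc00000300700e010000600e19f020511)))) (.br (Nat.shiftLeft (nat_lit 0x6000003) (nat_lit 101)) (.br (Nat.shiftLeft (nat_lit 0xc000005) (nat_lit 100)) (.one (nat_lit 0xc00000400700e010000800e19f020511)) (.one (nat_lit 0xc00000500700e010000a00e19f020511))) (.br (Nat.shiftLeft (nat_lit 0xd) (nat_lit 124)) (.one (nat_lit 0xc00000600700e010000c00e19f020511)) (.br (Nat.shiftLeft (nat_lit 0x6800001) (nat_lit 101)) (.one (nat_lit 0xd00000100700e010000200e1bf420511)) (.one (nat_lit 0xd00000200700e010000400e1bf420511))))))) (.br (Nat.shiftLeft (nat_lit 0x7000003) (nat_lit 101)) (.br (Nat.shiftLeft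 (nat_lit 0x7) (nat_lit 125)) (.br (Nat.shiftLeft (nat_lit 0xd000005) (nat_lit 100)) (.br (Nat.shiftLeft (nat_lit 0x3400001) (nat_lit 102)) (.one (nat_lit 0xd00000300700e010000600e1bf420511)) (.one (nat_lit 0xd00000400700e010000800e1bf420511))) (.br (Nat.shiftLeft (nat_lit 0x6800003) (nat_lit 101)) (.one (nat_lit 0xd00000500700e010000a00e1bf420511)) (.one (nat_lit 0xd00000600700e010000c00e1bf420511)))) (.br (Nat.shiftLeft (nat_lit 0xe000003) (nat_lit 100)) (.br (Nat.shiftLeft (nat_lit 0x7000001) (nat_lit 101)) (.one (nat_lit 0xe00000100700e010000200e1df820511)) (.one (nat_lit 0xe00000200700e010000400e1df820511))) (.br (Nat.shiftLeft (nat_lit 0x3800001) (nat_lit 102)) (.one (nat_lit 0xe00000300700e010000600e1df820511)) (.br (Nat.shiftLeft (nat_lit 0xe000005) (nat_lit 100)) (.one (nat_lit 0xe00000400700e010000800e1df820511)) (.one (nat_lit 0xe00000500700e010000a00e1df820511)))))) (.br (Nat.shiftLeft (nat_lit 0x1000003) (nat_lit 112)) (.br (Nat.shiftLeft (nat_lit 0x1000001003) (nat_lit 100)) (.br (Nat.shiftLeft (nat_lit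 0x1) (nat_lit 136)) (.one (nat_lit 0xe00000600700e010000c00e1df820511)) (.one (nat_lit 0x100000100200700e010200402e41c020611))) (.br (Nat.shiftLeft (nat_lit 0x800001) (nat_lit 113)) (.one (nat_lit 0x100000100300700e010200602e41c020611)) (.br (Nat.shiftLeft (nat_lit 0x400000801) (nat_lit 102)) (.one (nat_lit 0x100000200300700e010400602e41c020611)) (.one (nat_lit 0x100000200400700e010400802e41c020611))))) (.br (Nat.shiftLeft (nat_lit 0x2000001003) (nat_lit 100)) (.br (Nat.shiftLeft (nat_lit 0x1) (nat_lit 137)) (.one (nat_lit 0x100000300400700e010600802e41c020611)) (.one (nat_lit 0x200000100200700e010200404e81c020611))) (.br (Nat.shiftLeft (nat_lit 0x1000001) (nat_lit 113)) (.one (nat_lit 0x200000100300700e010200604e81c020611)) (.br (Nat.shiftLeft (nat_lit 0x800000801) (nat_lit 102)) (.one (nat_lit 0x200000200300700e010400604e81c020611)) (.one (nat_lit 0x200000200400700e010400804e81c020611))))))))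
def t36 : k36.all (jb2 57 fl b0) = true := by decide +kernel
noncomputable def k37 : KT := (.br (Nat.shiftLeft (nat_lit 0x1) (nat_lit 138)) (.br (Nat.shiftLeft (nat_lit 0x1800001) (nat_lit 113)) (.br (Nat.shiftLeft (nat_lit 0x3) (nat_lit 136)) (.one (nat_lit 0x200000300400700e010600804e81c020611)) (.br (Nat.shiftLeft (nat_lit 0x3000001003) (nat_lit 100)) (.one (nat_lit 0x300000100200700e010200406ec1c020611)) (.one (nat_lit 0x300000100300700e010200606ec1c020611)))) (.br (Nat.shiftLeft (nat_lit 0xc00000801) (nat_lit 102)) (.one (nat_lit 0x300000200300700e010400606ec1c020611)) (.br (Nat.shiftLeft (nat_lit 0x3000003) (nat_lit 112)) (.one (nat_lit 0x300000200400700e010400806ec1c020611)) (.one (nat_lit 0x300000300400700e010600806ec1c020611))))) (.br (Nat.shiftLeft (nat_lit 0x1000000801) (nat_lit 102)) (.br (Nat.shiftLeft (nat_lit 0x4000001003) (nat_lit 100)) (.one (nat_lit 0x400000100200700e010200408f01c020611)) (.br (Nat.shiftLeft (nat_lit 0x2000001) (nat_lit 113)) (.one (nat_lit 0x400000100300700e010200608f01c020611))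 (.one (nat_lit 0x400000200300700e010400608f01c020611)))) (.br (Nat.shiftLeft (nat_lit 0x5) (nat_lit 136)) (.br (Nat.shiftLeft (nat_lit 0x4000003) (nat_lit 112)) (.one (nat_lit 0x400000200400700e010400808f01c020611)) (.one (nat_lit 0x400000300400700e010600808f01c020611))) (.br (Nat.shiftLeft (nat_lit 0x5000001003) (nat_lit 100)) (.one (nat_lit 0x500000100200700e01020040af41c020611)) (.one (nat_lit 0x500000100300700e01020060af41c020611))))))
def t37 : k37.all (jb2 57 fl b0) = true := by decide +kernel
noncomputable def k38 : KT := (.br (Nat.shiftLeft (nat_lit 0x5000003) (nat_lit 112)) (.br (Nat.shiftLeft (nat_lit 0x1400000801) (nat_lit 102)) (.one (nat_lit 0x500000200300700e01040060af41c020611)) (.one (nat_lit 0x500000200400700e01040080af41c020611))) (.br (Nat.shiftLeft (nat_lit 0x3) (nat_lit 137)) (.one (nat_lit 0x500000300400700e01060080af41c020611)) (.br (Nat.shiftLeft (nat_lit 0x6000001003) (nat_lit 100)) (.one (nat_lit 0x600000100200700e01020040cf81c020611)) (.one (nat_lit 0x600000100300700e01020060cf81c020611)))))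
def t38 : k38.all (jb2 57 fl b0) = true := by decide +kernel
noncomputable def k39 : KT := (.br (Nat.shiftLeft (nat_lit 0x6000003) (nat_lit 112)) (.br (Nat.shiftLeft (nat_lit 0x1800000801) (nat_lit 102)) (.one (nat_lit 0x600000200300700e01040060cf81c020611)) (.one (nat_lit 0x600000200400700e01040080cf81c020611))) (.br (Nat.shiftLeft (nat_lit 0x7) (nat_lit 136)) (.one (nat_lit 0x600000300400700e01060080cf81c020611)) (.br (Nat.shiftLeft (nat_lit 0x7000001003) (nat_lit 100)) (.one (nat_lit 0x700000100200700e01020040efc1c020611)) (.one (nat_lit 0x700000100300700e01020060efc1c020611)))))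
def t39 : k39.all (jb2 57 fl b0) = true := by decide +kernel
noncomputable def k40 : KT := (.br (Nat.shiftLeft (nat_lit 0x8000001003) (nat_lit 100)) (.br (Nat.shiftLeft (nat_lit 0x7000003) (nat_lit 112)) (.br (Nat.shiftLeft (nat_lit 0x1c00000801) (nat_lit 102)) (.one (nat_lit 0x700000200300700e01040060efc1c020611)) (.one (nat_lit 0x700000200400700e01040080efc1c020611))) (.br (Nat.shiftLeft (nat_lit 0x1) (nat_lit 139)) (.one (nat_lit 0x700000300400700e01060080efc1c020611)) (.one (nat_lit 0x800000100200700e010200411001c020611)))) (.br (Nat.shiftLeft (nat_lit 0x2000000801) (nat_lit 102)) (.br (Nat.shiftLeft (nat_lit 0x4000001) (nat_lit 113)) (.one (nat_lit 0x800000100300700e010200611001c020611)) (.one (nat_lit 0x800000200300700e010400611001c020611))) (.br (Nat.shiftLeft (nat_lit 0x8000003) (nat_lit 112)) (.one (nat_lit 0x800000200400700e010400811001c020611)) (.one (nat_lit 0x800000300400700e010600811001c020611)))))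
def t40 : k40.all (jb2 57 fl b0) = true := by decide +kernel
noncomputable def k41 : KT := (.br (Nat.shiftLeft (nat_lit 0xb000003) (nat_lit 112)) (.br (Nat.shiftLeft (nat_lit 0x5000001) (nat_lit 113)) (.br (Nat.shiftLeft (nat_lit 0x2400000801) (nat_lit 102)) (.br (Nat.shiftLeft (nat_lit 0x9000001003) (nat_lit 100)) (.one (nat_lit 0x900000100200700e010200413041c020611)) (.br (Nat.shiftLeft (nat_lit 0x4800001) (nat_lit 113)) (.one (nat_lit 0x900000100300700e010200613041c020611)) (.one (nat_lit 0x900000200300700e010400613041c020611)))) (.br (Nat.shiftLeft (nat_lit 0x5) (nat_lit 137)) (.br (Nat.shiftLeft (nat_lit 0x9000003) (nat_lit 112)) (.one (nat_lit 0x900000200400700e010400813041c020611)) (.one (nat_lit 0x900000300400700e010600813041c020611))) (.br (Nat.shiftLeft (nat_lit 0xa000001003) (nat_lit 100)) (.one (nat_lit 0xa00000100200700e010200415081c020611)) (.one (nat_lit 0xa00000100300700e010200615081c020611))))) (.br (Nat.shiftLeft (nat_lit 0xb) (nat_lit 136)) (.br (Nat.shiftLeft (nat_lit 0x2800000801) (nat_lit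 102)) (.one (nat_lit 0xa00000200300700e010400615081c020611)) (.br (Nat.shiftLeft (nat_lit 0xa000003) (nat_lit 112)) (.one (nat_lit 0xa00000200400700e010400815081c020611)) (.one (nat_lit 0xa00000300400700e010600815081c020611)))) (.br (Nat.shiftLeft (nat_lit 0x5800001) (nat_lit 113)) (.br (Nat.shiftLeft (nat_lit 0xb000001003) (nat_lit 100)) (.one (nat_lit 0xb00000100200700e0102004170c1c020611)) (.one (nat_lit 0xb00000100300700e0102006170c1c020611))) (.br (Nat.shiftLeft (nat_lit 0x2c00000801) (nat_lit 102)) (.one (nat_lit 0xb00000200300700e0104006170c1c020611)) (.one (nat_lit 0xb00000200400700e0104008170c1c020611)))))) (.br (Nat.shiftLeft (nat_lit 0xd000001003) (nat_lit 100)) (.br (Nat.shiftLeft (nat_lit 0x6000001) (nat_lit 113)) (.br (Nat.shiftLeft (nat_lit 0x3) (nat_lit 138)) (.one (nat_lit 0xb00000300400700e0106008170c1c020611)) (.br (Nat.shiftLeft (nat_lit 0xc000001003) (nat_lit 100)) (.one (nat_lit 0xc00000100200700e010200419101c020611)) (.one (nat_lit 0xc00000100300700e010200619101c020611)))) (.br (Nat.shiftLeft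 (nat_lit 0xc000003) (nat_lit 112)) (.br (Nat.shiftLeft (nat_lit 0x3000000801) (nat_lit 102)) (.one (nat_lit 0xc00000200300700e010400619101c020611)) (.one (nat_lit 0xc00000200400700e010400819101c020611))) (.br (Nat.shiftLeft (nat_lit 0xd) (nat_lit 136)) (.one (nat_lit 0xc00000300400700e010600819101c020611)) (.one (nat_lit 0xd00000100200700e01020041b141c020611))))) (.br (Nat.shiftLeft (nat_lit 0x7) (nat_lit 137)) (.br (Nat.shiftLeft (nat_lit 0x3400000801) (nat_lit 102)) (.br (Nat.shiftLeft (nat_lit 0x6800001) (nat_lit 113)) (.one (nat_lit 0xd00000100300700e01020061b141c020611)) (.one (nat_lit 0xd00000200300700e01040061b141c020611))) (.br (Nat.shiftLeft (nat_lit 0xd000003) (nat_lit 112)) (.one (nat_lit 0xd00000200400700e01040081b141c020611)) (.one (nat_lit 0xd00000300400700e01060081b141c020611)))) (.br (Nat.shiftLeft (nat_lit 0x7000001) (nat_lit 113)) (.br (Nat.shiftLeft (nat_lit 0xe000001003) (nat_lit 100)) (.one (nat_lit 0xe00000100200700e01020041d181c020611)) (.one (nat_lit 0xe00000100300700e01020061d181c020611)))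 (.br (Nat.shiftLeft (nat_lit 0x3800000801) (nat_lit 102)) (.one (nat_lit 0xe00000200300700e01040061d181c020611)) (.one (nat_lit 0xe00000200400700e01040081d181c020611)))))))
def t41 : k41.all (jb2 57 fl b0) = true := by decide +kernel
noncomputable def s1 : KT := (.br (nat_lit 0x200000600700e010000c00e05c820511) (.br (nat_lit 0x300500700e010600a00e01c020650) (.br (nat_lit 0x200400700e010400800e01c021600) (.br (nat_lit 0x100400700e010200800e01c020650) k18 (.br (nat_lit 0x100500700e010200a00e01c020650) k19 k20)) (.br (nat_lit 0x200500700e010400a00e01c020650) k21 (.br (nat_lit 0x300400700e010600800e01c021600) k22 k23))) (.br (nat_lit 0x500600700e010a00c00e01c020650) (.br (nat_lit 0x400000700e010800000e01c020411) k24 (.br (nat_lit 0x400500700e010800a00e01c020650) k25 k26)) (.br (nat_lit 0x100000600700e010000c00e03c420511) k27 (.br (nat_lit 0x100200300700e010400600e03c420760) k28 k29)))) (.br (nat_lit 0xa00000200700e010000400e15e820511) (.br (nat_lit 0x700000100700e010000200e0fdc20511) (.br (nat_lit 0x500000100700e010000200e0bd420511)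 k30 (.br (nat_lit 0x600000200700e010000400e0dd820511) k31 k32)) (.br (nat_lit 0x700000600700e010000c00e0fdc20511) k33 (.br (nat_lit 0x800000600700e010000c00e11e020511) k34 k35))) (.br (nat_lit 0x600000100300700e01020060cf81c020611) (.br (nat_lit 0x200000200400700e010400804e81c020611) k36 (.br (nat_lit 0x500000100300700e01020060af41c020611) k37 k38)) (.br (nat_lit 0x700000100300700e01020060efc1c020611) k39 (.br (nat_lit 0x800000300400700e010600811001c020611) k40 k41)))))
noncomputable def u1 : KT := (.one (nat_lit 0x700e010000000e01c020430))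
def w1 : u1.all (wj 57 s1) = true := by decide +kernel
def o1 : OkW 57 (jb2 57 fl) u1 := .lift s1 _ (.br _ _ _ (.br _ _ _ (.br _ _ _ (.br _ _ _ (.leaf b0 k18 t18) (.br _ _ _ (.leaf b0 k19 t19) (.leaf b0 k20 t20))) (.br _ _ _ (.leaf b0 k21 t21) (.br _ _ _ (.leaf b0 k22 t22) (.leaf b0 k23 t23)))) (.br _ _ _ (.br _ _ _ (.leaf b0 k24 t24) (.br _ _ _ (.leaf b0 k25 t25) (.leaf b0 k26 t26))) (.br _ _ _ (.leaf b0 k27 t27) (.br _ _ _ (.leaf b0 k28 t28) (.leaf b0 k29 t29))))) (.br _ _ _ (.br _ _ _ (.br _ _ _ (.leaf b0 k30 t30) (.br _ _ _ (.leaf b0 k31 t31) (.leaf b0 k32 t32))) (.br _ _ _ (.leaf b0 k33 t33) (.br _ _ _ (.leaf b0 k34 t34) (.leaf b0 k35 t35)))) (.br _ _ _ (.br _ _ _ (.leaf b0 k36 t36) (.br _ _ _ (.leaf b0 k37 t37) (.leaf b0 k38 t38))) (.br _ _ _ (.leaf b0 k39 t39) (.br _ _ _ (.leaf b0 k40 t40) (.leaf b0 k41 t41)))))) w1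
noncomputable def k42 : KT := (.br (Nat.shiftLeft (nat_lit 0x5) (nat_lit 100)) (.br (Nat.shiftLeft (nat_lit 0x1) (nat_lit 101)) (.br (Nat.shiftLeft (nat_lit 0x1) (nat_lit 100)) (.one (nat_lit 0x700e011000000e01c023400)) (.one (nat_lit 0x100700e011000200e01c023500))) (.br (Nat.shiftLeft (nat_lit 0x3) (nat_lit 100)) (.one (nat_lit 0x200700e011000400e01c023500)) (.br (Nat.shiftLeft (nat_lit 0x1) (nat_lit 102)) (.one (nat_lit 0x300700e011000600e01c023500)) (.one (nat_lit 0x400700e011000800e01c023500))))) (.br (Nat.shiftLeft (nat_lit 0x1) (nat_lit 112)) (.br (Nat.shiftLeft (nat_lit 0x3) (nat_lit 101)) (.one (nat_lit 0x500700e011000a00e01c023500)) (.one (nat_lit 0x600700e011000c00e01c023500))) (.br (Nat.shiftLeft (nat_lit 0x801) (nat_lit 101)) (.one (nat_lit 0x100000700e011200000e01c022411)) (.br (Nat.shiftLeft (nat_lit 0x1003) (nat_lit 100)) (.one (nat_lit 0x100200700e011200400e01c023600)) (.one (nat_lit 0x100300700e011200600e01c022650))))))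
def t42 : k42.all (jb2 57 fl b0) = true := by decide +kernel
noncomputable def k43 : KT := (.one (nat_lit 0x100400700e011200800e01c022650))
def t43 : k43.all (jb2 57 fl b0) = true := by decide +kernel
noncomputable def k44 : KT := (.br (Nat.shiftLeft (nat_lit 0x1) (nat_lit 113)) (.br (Nat.shiftLeft (nat_lit 0x803) (nat_lit 101)) (.one (nat_lit 0x100500700e011200a00e01c022650)) (.one (nat_lit 0x100600700e011200c00e01c022650))) (.br (Nat.shiftLeft (nat_lit 0x1001) (nat_lit 101)) (.one (nat_lit 0x200000700e011400000e01c022411)) (.one (nat_lit 0x200300700e011400600e01c023600))))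
def t44 : k44.all (jb2 57 fl b0) = true := by decide +kernel
noncomputable def k45 : KT := (.one (nat_lit 0x200400700e011400800e01c022650))
def t45 : k45.all (jb2 57 fl b0) = true := by decide +kernel
noncomputable def k46 : KT := (.br (Nat.shiftLeft (nat_lit 0x1003) (nat_lit 101)) (.one (nat_lit 0x200500700e011400a00e01c022650)) (.br (Nat.shiftLeft (nat_lit 0x3) (nat_lit 112)) (.one (nat_lit 0x200600700e011400c00e01c022650)) (.one (nat_lit 0x300000700e011600000e01c022411))))
def t46 : k46.all (jb2 57 fl b0) = true := by decide +kernel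
noncomputable def k47 : KT := (.one (nat_lit 0x300400700e011600800e01c022650))
def t47 : k47.all (jb2 57 fl b0) = true := by decide +kernel
noncomputable def k48 : KT := (.br (Nat.shiftLeft (nat_lit 0x1803) (nat_lit 101)) (.one (nat_lit 0x300500700e011600a00e01c022650)) (.br (Nat.shiftLeft (nat_lit 0x1) (nat_lit 114)) (.one (nat_lit 0x300600700e011600c00e01c022650)) (.one (nat_lit 0x400000700e011800000e01c022411))))
def t48 : k48.all (jb2 57 fl b0) = true := by decide +kernel
noncomputable def k49 : KT := (.br (Nat.shiftLeft (nat_lit 0x2003) (nat_lit 101)) (.one (nat_lit 0x400500700e011800a00e01c022650)) (.br (Nat.shiftLeft (nat_lit 0x5) (nat_lit 112)) (.one (nat_lit 0x400600700e011800c00e01c022650)) (.one (nat_lit 0x500000700e011a00000e01c022411))))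
def t49 : k49.all (jb2 57 fl b0) = true := by decide +kernel
noncomputable def k50 : KT := (.br (Nat.shiftLeft (nat_lit 0xd) (nat_lit 112)) (.br (Nat.shiftLeft (nat_lit 0x9) (nat_lit 112)) (.br (Nat.shiftLeft (nat_lit 0x7) (nat_lit 112)) (.br (Nat.shiftLeft (nat_lit 0x3) (nat_lit 113)) (.one (nat_lit 0x500600700e011a00c00e01c022650)) (.one (nat_lit 0x600000700e011c00000e01c022411))) (.br (Nat.shiftLeft (nat_lit 0x1) (nat_lit 115)) (.one (nat_lit 0x700000700e011e00000e01c022411)) (.one (nat_lit 0x800000700e011000000e01c124411)))) (.br (Nat.shiftLeft (nat_lit 0xb) (nat_lit 112)) (.br (Nat.shiftLeft (nat_lit 0x5) (nat_lit 113)) (.one (nat_lit 0x900000700e011200000e01c124411)) (.one (nat_lit 0xa00000700e011400000e01c124411))) (.br (Nat.shiftLeft (nat_lit 0x3) (nat_lit 114)) (.one (nat_lit 0xb00000700e011600000e01c124411)) (.one (nat_lit 0xc00000700e011800000e01c124411))))) (.br (Nat.shiftLeft (nat_lit 0x1000003) (nat_lit 100)) (.br (Nat.shiftLeft (nat_lit 0x1) (nat_lit 124)) (.br (Nat.shiftLeft (nat_lit 0x7) (nat_lit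 113)) (.one (nat_lit 0xd00000700e011a00000e01c124411)) (.one (nat_lit 0xe00000700e011c00000e01c124411))) (.br (Nat.shiftLeft (nat_lit 0x800001) (nat_lit 101)) (.one (nat_lit 0x100000100700e011000200e03c422511)) (.one (nat_lit 0x100000200700e011000400e03c422511)))) (.br (Nat.shiftLeft (nat_lit 0x1000005) (nat_lit 100)) (.br (Nat.shiftLeft (nat_lit 0x400001) (nat_lit 102)) (.one (nat_lit 0x100000300700e011000600e03c422511)) (.one (nat_lit 0x100000400700e011000800e03c422511))) (.br (Nat.shiftLeft (nat_lit 0x800003) (nat_lit 101)) (.one (nat_lit 0x100000500700e011000a00e03c422511)) (.one (nat_lit 0x100000600700e011000c00e03c422511))))))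
def t50 : k50.all (jb2 57 fl b0) = true := by decide +kernel
noncomputable def k51 : KT := (.br (Nat.shiftLeft (nat_lit 0x3000003) (nat_lit 100)) (.br (Nat.shiftLeft (nat_lit 0x800001) (nat_lit 102)) (.br (Nat.shiftLeft (nat_lit 0x1000001) (nat_lit 101)) (.br (Nat.shiftLeft (nat_lit 0x1) (nat_lit 125)) (.one (nat_lit 0x100200300700e011400600e03c422760)) (.one (nat_lit 0x200000100700e011000200e05c822511))) (.br (Nat.shiftLeft (nat_lit 0x2000003) (nat_lit 100)) (.one (nat_lit 0x200000200700e011000400e05c822511)) (.one (nat_lit 0x200000300700e011000600e05c822511)))) (.br (Nat.shiftLeft (nat_lit 0x1000003) (nat_lit 101)) (.br (Nat.shiftLeft (nat_lit 0x2000005) (nat_lit 100)) (.one (nat_lit 0x200000400700e011000800e05c822511)) (.one (nat_lit 0x200000500700e011000a00e05c822511))) (.br (Nat.shiftLeft (nat_lit 0x3) (nat_lit 124)) (.one (nat_lit 0x200000600700e011000c00e05c822511)) (.br (Nat.shiftLeft (nat_lit 0x1800001) (nat_lit 101)) (.one (nat_lit 0x300000100700e011000200e07cc22511)) (.one (nat_lit 0x300000200700e011000400e07cc22511))))))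 (.br (Nat.shiftLeft (nat_lit 0x2000001) (nat_lit 101)) (.br (Nat.shiftLeft (nat_lit 0x3000005) (nat_lit 100)) (.br (Nat.shiftLeft (nat_lit 0xc00001) (nat_lit 102)) (.one (nat_lit 0x300000300700e011000600e07cc22511)) (.one (nat_lit 0x300000400700e011000800e07cc22511))) (.br (Nat.shiftLeft (nat_lit 0x1800003) (nat_lit 101)) (.one (nat_lit 0x300000500700e011000a00e07cc22511)) (.br (Nat.shiftLeft (nat_lit 0x1) (nat_lit 126)) (.one (nat_lit 0x300000600700e011000c00e07cc22511)) (.one (nat_lit 0x400000100700e011000200e09d022511))))) (.br (Nat.shiftLeft (nat_lit 0x1000001) (nat_lit 102)) (.br (Nat.shiftLeft (nat_lit 0x4000003) (nat_lit 100)) (.one (nat_lit 0x400000200700e011000400e09d022511)) (.one (nat_lit 0x400000300700e011000600e09d022511))) (.br (Nat.shiftLeft (nat_lit 0x4000005) (nat_lit 100)) (.one (nat_lit 0x400000400700e011000800e09d022511)) (.br (Nat.shiftLeft (nat_lit 0x2000003) (nat_lit 101)) (.one (nat_lit 0x400000500700e011000a00e09d022511)) (.one (nat_lit 0x400000600700e011000c00e09d022511)))))))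
def t51 : k51.all (jb2 57 fl b0) = true := by decide +kernel
noncomputable def k52 : KT := (.br (Nat.shiftLeft (nat_lit 0x5000005) (nat_lit 100)) (.br (Nat.shiftLeft (nat_lit 0x5000003) (nat_lit 100)) (.br (Nat.shiftLeft (nat_lit 0x2800001) (nat_lit 101)) (.one (nat_lit 0x500000100700e011000200e0bd422511)) (.one (nat_lit 0x500000200700e011000400e0bd422511))) (.br (Nat.shiftLeft (nat_lit 0x1400001) (nat_lit 102)) (.one (nat_lit 0x500000300700e011000600e0bd422511)) (.one (nat_lit 0x500000400700e011000800e0bd422511)))) (.br (Nat.shiftLeft (nat_lit 0x3) (nat_lit 125)) (.br (Nat.shiftLeft (nat_lit 0x2800003) (nat_lit 101)) (.one (nat_lit 0x500000500700e011000a00e0bd422511)) (.one (nat_lit 0x500000600700e011000c00e0bd422511))) (.br (Nat.shiftLeft (nat_lit 0x3000001) (nat_lit 101)) (.one (nat_lit 0x600000100700e011000200e0dd822511)) (.one (nat_lit 0x600000200700e011000400e0dd822511)))))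
def t52 : k52.all (jb2 57 fl b0) = true := by decide +kernel
noncomputable def k53 : KT := (.br (Nat.shiftLeft (nat_lit 0x3000003) (nat_lit 101)) (.br (Nat.shiftLeft (nat_lit 0x1800001) (nat_lit 102)) (.one (nat_lit 0x600000300700e011000600e0dd822511)) (.br (Nat.shiftLeft (nat_lit 0x6000005) (nat_lit 100)) (.one (nat_lit 0x600000400700e011000800e0dd822511)) (.one (nat_lit 0x600000500700e011000a00e0dd822511)))) (.br (Nat.shiftLeft (nat_lit 0x7) (nat_lit 124)) (.one (nat_lit 0x600000600700e011000c00e0dd822511)) (.br (Nat.shiftLeft (nat_lit 0x3800001) (nat_lit 101)) (.one (nat_lit 0x700000100700e011000200e0fdc22511)) (.one (nat_lit 0x700000200700e011000400e0fdc22511)))))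
def t53 : k53.all (jb2 57 fl b0) = true := by decide +kernel
noncomputable def k54 : KT := (.br (Nat.shiftLeft (nat_lit 0x3800003) (nat_lit 101)) (.br (Nat.shiftLeft (nat_lit 0x1c00001) (nat_lit 102)) (.one (nat_lit 0x700000300700e011000600e0fdc22511)) (.br (Nat.shiftLeft (nat_lit 0x7000005) (nat_lit 100)) (.one (nat_lit 0x700000400700e011000800e0fdc22511)) (.one (nat_lit 0x700000500700e011000a00e0fdc22511)))) (.br (Nat.shiftLeft (nat_lit 0x4000001) (nat_lit 101)) (.br (Nat.shiftLeft (nat_lit 0x1) (nat_lit 127)) (.one (nat_lit 0x700000600700e011000c00e0fdc22511)) (.one (nat_lit 0x800000100700e011000200e11e022511))) (.br (Nat.shiftLeft (nat_lit 0x8000003) (nat_lit 100)) (.one (nat_lit 0x800000200700e011000400e11e022511)) (.one (nat_lit 0x800000300700e011000600e11e022511)))))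
def t54 : k54.all (jb2 57 fl b0) = true := by decide +kernel
noncomputable def k55 : KT := (.br (Nat.shiftLeft (nat_lit 0x2400001) (nat_lit 102)) (.br (Nat.shiftLeft (nat_lit 0x9) (nat_lit 124)) (.br (Nat.shiftLeft (nat_lit 0x8000005) (nat_lit 100)) (.one (nat_lit 0x800000400700e011000800e11e022511)) (.br (Nat.shiftLeft (nat_lit 0x4000003) (nat_lit 101)) (.one (nat_lit 0x800000500700e011000a00e11e022511)) (.one (nat_lit 0x800000600700e011000c00e11e022511)))) (.br (Nat.shiftLeft (nat_lit 0x4800001) (nat_lit 101)) (.one (nat_lit 0x900000100700e011000200e13e422511)) (.br (Nat.shiftLeft (nat_lit 0x9000003) (nat_lit 100)) (.one (nat_lit 0x900000200700e011000400e13e422511)) (.one (nat_lit 0x900000300700e011000600e13e422511))))) (.br (Nat.shiftLeft (nat_lit 0x5) (nat_lit 125)) (.br (Nat.shiftLeft (nat_lit 0x9000005) (nat_lit 100)) (.one (nat_lit 0x900000400700e011000800e13e422511)) (.br (Nat.shiftLeft (nat_lit 0x4800003) (nat_lit 101)) (.one (nat_lit 0x900000500700e011000a00e13e422511)) (.one (nat_lit 0x900000600700e011000c00e13e422511))))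 (.br (Nat.shiftLeft (nat_lit 0xa000003) (nat_lit 100)) (.br (Nat.shiftLeft (nat_lit 0x5000001) (nat_lit 101)) (.one (nat_lit 0xa00000100700e011000200e15e822511)) (.one (nat_lit 0xa00000200700e011000400e15e822511))) (.br (Nat.shiftLeft (nat_lit 0x2800001) (nat_lit 102)) (.one (nat_lit 0xa00000300700e011000600e15e822511)) (.one (nat_lit 0xa00000400700e011000800e15e822511))))))
def t55 : k55.all (jb2 57 fl b0) = true := by decide +kernel
noncomputable def k56 : KT := (.br (Nat.shiftLeft (nat_lit 0x3400001) (nat_lit 102)) (.br (Nat.shiftLeft (nat_lit 0x3) (nat_lit 126)) (.br (Nat.shiftLeft (nat_lit 0xb000003) (nat_lit 100)) (.br (Nat.shiftLeft (nat_lit 0xb) (nat_lit 124)) (.br (Nat.shiftLeft (nat_lit 0x5000003) (nat_lit 101)) (.one (nat_lit 0xa00000500700e011000a00e15e822511)) (.one (nat_lit 0xa00000600700e011000c00e15e822511))) (.br (Nat.shiftLeft (nat_lit 0x5800001) (nat_lit 101)) (.one (nat_lit 0xb00000100700e011000200e17ec22511)) (.one (nat_lit 0xb00000200700e011000400e17ec22511)))) (.br (Nat.shiftLeft (nat_lit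 0xb000005) (nat_lit 100)) (.br (Nat.shiftLeft (nat_lit 0x2c00001) (nat_lit 102)) (.one (nat_lit 0xb00000300700e011000600e17ec22511)) (.one (nat_lit 0xb00000400700e011000800e17ec22511))) (.br (Nat.shiftLeft (nat_lit 0x5800003) (nat_lit 101)) (.one (nat_lit 0xb00000500700e011000a00e17ec22511)) (.one (nat_lit 0xb00000600700e011000c00e17ec22511))))) (.br (Nat.shiftLeft (nat_lit 0xc000005) (nat_lit 100)) (.br (Nat.shiftLeft (nat_lit 0xc000003) (nat_lit 100)) (.br (Nat.shiftLeft (nat_lit 0x6000001) (nat_lit 101)) (.one (nat_lit 0xc00000100700e011000200e19f022511)) (.one (nat_lit 0xc00000200700e011000400e19f022511))) (.br (Nat.shiftLeft (nat_lit 0x3000001) (nat_lit 102)) (.one (nat_lit 0xc00000300700e011000600e19f022511)) (.one (nat_lit 0xc00000400700e011000800e19f022511)))) (.br (Nat.shiftLeft (nat_lit 0xd) (nat_lit 124)) (.br (Nat.shiftLeft (nat_lit 0x6000003) (nat_lit 101)) (.one (nat_lit 0xc00000500700e011000a00e19f022511)) (.one (nat_lit 0xc00000600700e011000c00e19f022511))) (.br (Nat.shiftLeft (nat_lit 0x6800001)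 (nat_lit 101)) (.one (nat_lit 0xd00000100700e011000200e1bf422511)) (.br (Nat.shiftLeft (nat_lit 0xd000003) (nat_lit 100)) (.one (nat_lit 0xd00000200700e011000400e1bf422511)) (.one (nat_lit 0xd00000300700e011000600e1bf422511))))))) (.br (Nat.shiftLeft (nat_lit 0x1) (nat_lit 136)) (.br (Nat.shiftLeft (nat_lit 0x7000001) (nat_lit 101)) (.br (Nat.shiftLeft (nat_lit 0x6800003) (nat_lit 101)) (.br (Nat.shiftLeft (nat_lit 0xd000005) (nat_lit 100)) (.one (nat_lit 0xd00000400700e011000800e1bf422511)) (.one (nat_lit 0xd00000500700e011000a00e1bf422511))) (.br (Nat.shiftLeft (nat_lit 0x7) (nat_lit 125)) (.one (nat_lit 0xd00000600700e011000c00e1bf422511)) (.one (nat_lit 0xe00000100700e011000200e1df822511)))) (.br (Nat.shiftLeft (nat_lit 0x3800001) (nat_lit 102)) (.br (Nat.shiftLeft (nat_lit 0xe000003) (nat_lit 100)) (.one (nat_lit 0xe00000200700e011000400e1df822511)) (.one (nat_lit 0xe00000300700e011000600e1df822511))) (.br (Nat.shiftLeft (nat_lit 0xe000005) (nat_lit 100)) (.one (nat_lit 0xe00000400700e011000800e1df822511))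 (.one (nat_lit 0xe00000500700e011000a00e1df822511))))) (.br (Nat.shiftLeft (nat_lit 0x3) (nat_lit 136)) (.br (Nat.shiftLeft (nat_lit 0x1) (nat_lit 137)) (.br (Nat.shiftLeft (nat_lit 0x800001) (nat_lit 113)) (.one (nat_lit 0x100000100200700e011200402e41c022611)) (.one (nat_lit 0x100000200300700e011400602e41c022611))) (.br (Nat.shiftLeft (nat_lit 0x1000001) (nat_lit 113)) (.one (nat_lit 0x200000100200700e011200404e81c022611)) (.one (nat_lit 0x200000200300700e011400604e81c022611)))) (.br (Nat.shiftLeft (nat_lit 0x1) (nat_lit 138)) (.br (Nat.shiftLeft (nat_lit 0x1800001) (nat_lit 113)) (.one (nat_lit 0x300000100200700e011200406ec1c022611)) (.one (nat_lit 0x300000200300700e011400606ec1c022611))) (.br (Nat.shiftLeft (nat_lit 0x2000001) (nat_lit 113)) (.one (nat_lit 0x400000100200700e011200408f01c022611)) (.br (Nat.shiftLeft (nat_lit 0x5) (nat_lit 136)) (.one (nat_lit 0x400000200300700e011400608f01c022611)) (.one (nat_lit 0x500000100200700e01120040af41c022611))))))))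
def t56 : k56.all (jb2 57 fl b0) = true := by decide +kernel
noncomputable def k57 : KT := (.br (Nat.shiftLeft (nat_lit 0x7) (nat_lit 136)) (.br (Nat.shiftLeft (nat_lit 0x3) (nat_lit 137)) (.one (nat_lit 0x500000200300700e01140060af41c022611)) (.br (Nat.shiftLeft (nat_lit 0x3000001) (nat_lit 113)) (.one (nat_lit 0x600000100200700e01120040cf81c022611)) (.one (nat_lit 0x600000200300700e01140060cf81c022611)))) (.br (Nat.shiftLeft (nat_lit 0x1) (nat_lit 139)) (.br (Nat.shiftLeft (nat_lit 0x3800001) (nat_lit 113)) (.one (nat_lit 0x700000100200700e01120040efc1c022611)) (.one (nat_lit 0x700000200300700e01140060efc1c022611))) (.br (Nat.shiftLeft (nat_lit 0x4000001) (nat_lit 113)) (.one (nat_lit 0x800000100200700e011200411001c022611)) (.one (nat_lit 0x800000200300700e011400611001c022611)))))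
def t57 : k57.all (jb2 57 fl b0) = true := by decide +kernel
noncomputable def k58 : KT := (.br (Nat.shiftLeft (nat_lit 0x3) (nat_lit 138)) (.br (Nat.shiftLeft (nat_lit 0x5000001) (nat_lit 113)) (.br (Nat.shiftLeft (nat_lit 0x4800001) (nat_lit 113)) (.one (nat_lit 0x900000100200700e011200413041c022611)) (.br (Nat.shiftLeft (nat_lit 0x5) (nat_lit 137)) (.one (nat_lit 0x900000200300700e011400613041c022611)) (.one (nat_lit 0xa00000100200700e011200415081c022611)))) (.br (Nat.shiftLeft (nat_lit 0xb) (nat_lit 136)) (.one (nat_lit 0xa00000200300700e011400615081c022611)) (.br (Nat.shiftLeft (nat_lit 0x5800001) (nat_lit 113)) (.one (nat_lit 0xb00000100200700e0112004170c1c022611)) (.one (nat_lit 0xb00000200300700e0114006170c1c022611))))) (.br (Nat.shiftLeft (nat_lit 0x6800001) (nat_lit 113)) (.br (Nat.shiftLeft (nat_lit 0x6000001) (nat_lit 113)) (.one (nat_lit 0xc00000100200700e011200419101c022611)) (.br (Nat.shiftLeft (nat_lit 0xd) (nat_lit 136)) (.one (nat_lit 0xc00000200300700e011400619101c022611)) (.one (nat_lit 0xd00000100200700e01120041b141c022611))))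 (.br (Nat.shiftLeft (nat_lit 0x7) (nat_lit 137)) (.one (nat_lit 0xd00000200300700e01140061b141c022611)) (.br (Nat.shiftLeft (nat_lit 0x7000001) (nat_lit 113)) (.one (nat_lit 0xe00000100200700e01120041d181c022611)) (.one (nat_lit 0xe00000200300700e01140061d181c022611))))))
def t58 : k58.all (jb2 57 fl b0) = true := by decide +kernel
noncomputable def s2 : KT := (.br (nat_lit 0x500000700e011a00000e01c022411) (.br (nat_lit 0x200400700e011400800e01c022650) (.br (nat_lit 0x100400700e011200800e01c022650) (.br (nat_lit 0x100300700e011200600e01c022650) k42 k43) (.br (nat_lit 0x200300700e011400600e01c023600) k44 k45)) (.br (nat_lit 0x300400700e011600800e01c022650) (.br (nat_lit 0x300000700e011600000e01c022411) k46 k47) (.br (nat_lit 0x400000700e011800000e01c022411) k48 k49))) (.br (nat_lit 0x700000200700e011000400e0fdc22511) (.br (nat_lit 0x400000600700e011000c00e09d022511) (.br (nat_lit 0x100000600700e011000c00e03c422511) k50 k51) (.br (nat_lit 0x600000200700e011000400e0dd822511) k52 k53)) (.br (nat_lit 0xa00000400700e011000800e15e822511)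 (.br (nat_lit 0x800000300700e011000600e11e022511) k54 k55) (.br (nat_lit 0x500000100200700e01120040af41c022611) k56 (.br (nat_lit 0x800000200300700e011400611001c022611) k57 k58)))))
noncomputable def u2 : KT := (.one (nat_lit 0x700e011000000e01c022430))
def w2 : u2.all (wj 57 s2) = true := by decide +kernel
def o2 : OkW 57 (jb2 57 fl) u2 := .lift s2 _ (.br _ _ _ (.br _ _ _ (.br _ _ _ (.br _ _ _ (.leaf b0 k42 t42) (.leaf b0 k43 t43)) (.br _ _ _ (.leaf b0 k44 t44) (.leaf b0 k45 t45))) (.br _ _ _ (.br _ _ _ (.leaf b0 k46 t46) (.leaf b0 k47 t47)) (.br _ _ _ (.leaf b0 k48 t48) (.leaf b0 k49 t49)))) (.br _ _ _ (.br _ _ _ (.br _ _ _ (.leaf b0 k50 t50) (.leaf b0 k51 t51)) (.br _ _ _ (.leaf b0 k52 t52) (.leaf b0 k53 t53))) (.br _ _ _ (.br _ _ _ (.leaf b0 k54 t54) (.leaf b0 k55 t55)) (.br _ _ _ (.leaf b0 k56 t56) (.br _ _ _ (.leaf b0 k57 t57) (.leaf b0 k58 t58)))))) w2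
noncomputable def k59 : KT := (.br (Nat.shiftLeft (nat_lit 0x700e013) (nat_lit 64)) (.one (nat_lit 0x700e012000000e01c025400)) (.br (Nat.shiftLeft (nat_lit 0x1) (nat_lit 100)) (.one (nat_lit 0x700e013000000e01c027400)) (.one (nat_lit 0x100700e012000200e01c024540))))
def t59 : k59.all (jb2 57 fl b0) = true := by decide +kernel
noncomputable def k60 : KT := (.br (Nat.shiftLeft (nat_lit 0x400700e013) (nat_lit 64)) (.br (Nat.shiftLeft (nat_lit 0x3) (nat_lit 100)) (.br (Nat.shiftLeft (nat_lit 0x1) (nat_lit 101)) (.one (nat_lit 0x100700e013000200e01c026540)) (.br (Nat.shiftLeft (nat_lit 0x200700e013) (nat_lit 64)) (.one (nat_lit 0x200700e012000400e01c025500)) (.one (nat_lit 0x200700e013000400e01c027500)))) (.br (Nat.shiftLeft (nat_lit 0x300700e013) (nat_lit 64)) (.one (nat_lit 0x300700e012000600e01c025500)) (.br (Nat.shiftLeft (nat_lit 0x1) (nat_lit 102)) (.one (nat_lit 0x300700e013000600e01c027500)) (.one (nat_lit 0x400700e012000800e01c025500))))) (.br (Nat.shiftLeft (nat_lit 0x3) (nat_lit 101)) (.br (Nat.shiftLeft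 (nat_lit 0x5) (nat_lit 100)) (.one (nat_lit 0x400700e013000800e01c027500)) (.br (Nat.shiftLeft (nat_lit 0x500700e013) (nat_lit 64)) (.one (nat_lit 0x500700e012000a00e01c025500)) (.one (nat_lit 0x500700e013000a00e01c027500)))) (.br (Nat.shiftLeft (nat_lit 0x1) (nat_lit 112)) (.br (Nat.shiftLeft (nat_lit 0x600700e013) (nat_lit 64)) (.one (nat_lit 0x600700e012000c00e01c025500)) (.one (nat_lit 0x600700e013000c00e01c027500))) (.br (Nat.shiftLeft (nat_lit 0x100000700e013) (nat_lit 64)) (.one (nat_lit 0x100000700e012200000e01c024411)) (.one (nat_lit 0x100000700e013200000e01c026411))))))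
def t60 : k60.all (jb2 57 fl b0) = true := by decide +kernel
noncomputable def k61 : KT := (.one (nat_lit 0x100200700e012200400e01c024650))
def t61 : k61.all (jb2 57 fl b0) = true := by decide +kernel
noncomputable def k62 : KT := (.one (nat_lit 0x100200700e013200400e01c026650))
def t62 : k62.all (jb2 57 fl b0) = true := by decide +kernel
noncomputable def k63 : KT := (.one (nat_lit 0x100300700e012200600e01c024650))
def t63 : k63.all (jb2 57 fl b0) = true := by decide +kernel
noncomputable def k64 : KT := (.br (Nat.shiftLeft (nat_lit 0x401) (nat_lit 102)) (.one (nat_lit 0x100300700e013200600e01c026650)) (.one (nat_lit 0x100400700e012200800e01c024650)))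
def t64 : k64.all (jb2 57 fl b0) = true := by decide +kernel
noncomputable def k65 : KT := (.br (Nat.shiftLeft (nat_lit 0x1005) (nat_lit 100)) (.one (nat_lit 0x100400700e013200800e01c026650)) (.br (Nat.shiftLeft (nat_lit 0x100500700e013) (nat_lit 64)) (.one (nat_lit 0x100500700e012200a00e01c024650)) (.one (nat_lit 0x100500700e013200a00e01c026650))))
def t65 : k65.all (jb2 57 fl b0) = true := by decide +kernel
noncomputable def k66 : KT := (.br (Nat.shiftLeft (nat_lit 0x1) (nat_lit 113)) (.br (Nat.shiftLeft (nat_lit 0x100600700e013) (nat_lit 64)) (.one (nat_lit 0x100600700e012200c00e01c024650)) (.one (nat_lit 0x100600700e013200c00e01c026650))) (.br (Nat.shiftLeft (nat_lit 0x200000700e013) (nat_lit 64)) (.one (nat_lit 0x200000700e012400000e01c024411)) (.one (nat_lit 0x200000700e013400000e01c026411))))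
def t66 : k66.all (jb2 57 fl b0) = true := by decide +kernel
noncomputable def k67 : KT := (.one (nat_lit 0x200300700e012400600e01c024650))
def t67 : k67.all (jb2 57 fl b0) = true := by decide +kernel
noncomputable def k68 : KT := (.one (nat_lit 0x200300700e013400600e01c026650))
def t68 : k68.all (jb2 57 fl b0) = true := by decide +kernel
noncomputable def k69 : KT := (.br (Nat.shiftLeft (nat_lit 0x200400700e013) (nat_lit 64)) (.one (nat_lit 0x200400700e012400800e01c024650)) (.one (nat_lit 0x200400700e013400800e01c026650)))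
def t69 : k69.all (jb2 57 fl b0) = true := by decide +kernel
noncomputable def k70 : KT := (.br (Nat.shiftLeft (nat_lit 0x200500700e013) (nat_lit 64)) (.one (nat_lit 0x200500700e012400a00e01c024650)) (.br (Nat.shiftLeft (nat_lit 0x1003) (nat_lit 101)) (.one (nat_lit 0x200500700e013400a00e01c026650)) (.one (nat_lit 0x200600700e012400c00e01c024650))))
def t70 : k70.all (jb2 57 fl b0) = true := by decide +kernel
noncomputable def k71 : KT := (.br (Nat.shiftLeft (nat_lit 0x300000700e013) (nat_lit 64)) (.br (Nat.shiftLeft (nat_lit 0x3) (nat_lit 112)) (.one (nat_lit 0x200600700e013400c00e01c026650)) (.one (nat_lit 0x300000700e012600000e01c024411))) (.br (Nat.shiftLeft (nat_lit 0xc01) (nat_lit 102)) (.one (nat_lit 0x300000700e013600000e01c026411)) (.one (nat_lit 0x300400700e012600800e01c024650))))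
def t71 : k71.all (jb2 57 fl b0) = true := by decide +kernel
noncomputable def k72 : KT := (.br (Nat.shiftLeft (nat_lit 0x3005) (nat_lit 100)) (.one (nat_lit 0x300400700e013600800e01c026650)) (.one (nat_lit 0x300500700e012600a00e01c024650)))
def t72 : k72.all (jb2 57 fl b0) = true := by decide +kernel
noncomputable def k73 : KT := (.br (Nat.shiftLeft (nat_lit 0x300600700e013) (nat_lit 64)) (.br (Nat.shiftLeft (nat_lit 0x1803) (nat_lit 101)) (.one (nat_lit 0x300500700e013600a00e01c026650)) (.one (nat_lit 0x300600700e012600c00e01c024650))) (.br (Nat.shiftLeft (nat_lit 0x1) (nat_lit 114)) (.one (nat_lit 0x300600700e013600c00e01c026650)) (.br (Nat.shiftLeft (nat_lit 0x400000700e013) (nat_lit 64)) (.one (nat_lit 0x400000700e012800000e01c024411)) (.one (nat_lit 0x400000700e013800000e01c026411)))))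
def t73 : k73.all (jb2 57 fl b0) = true := by decide +kernel
noncomputable def k74 : KT := (.br (Nat.shiftLeft (nat_lit 0x400500700e013) (nat_lit 64)) (.one (nat_lit 0x400500700e012800a00e01c024650)) (.br (Nat.shiftLeft (nat_lit 0x2003) (nat_lit 101)) (.one (nat_lit 0x400500700e013800a00e01c026650)) (.one (nat_lit 0x400600700e012800c00e01c024650))))
def t74 : k74.all (jb2 57 fl b0) = true := by decide +kernel
noncomputable def k75 : KT := (.br (Nat.shiftLeft (nat_lit 0x600000700e013) (nat_lit 64)) (.br (Nat.shiftLeft (nat_lit 0x1401) (nat_lit 102)) (.br (Nat.shiftLeft (nat_lit 0x5) (nat_lit 112)) (.one (nat_lit 0x400600700e013800c00e01c026650)) (.br (Nat.shiftLeft (nat_lit 0x500000700e013) (nat_lit 64)) (.one (nat_lit 0x500000700e012a00000e01c024411)) (.one (nat_lit 0x500000700e013a00000e01c026411)))) (.br (Nat.shiftLeft (nat_lit 0x500600700e013) (nat_lit 64)) (.one (nat_lit 0x500600700e012a00c00e01c024650)) (.br (Nat.shiftLeft (nat_lit 0x3) (nat_lit 113)) (.one (nat_lit 0x500600700e013a00c00e01c026650)) (.one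 (nat_lit 0x600000700e012c00000e01c024411))))) (.br (Nat.shiftLeft (nat_lit 0x1) (nat_lit 115)) (.br (Nat.shiftLeft (nat_lit 0x7) (nat_lit 112)) (.one (nat_lit 0x600000700e013c00000e01c026411)) (.br (Nat.shiftLeft (nat_lit 0x700000700e013) (nat_lit 64)) (.one (nat_lit 0x700000700e012e00000e01c024411)) (.one (nat_lit 0x700000700e013e00000e01c026411)))) (.br (Nat.shiftLeft (nat_lit 0x9) (nat_lit 112)) (.br (Nat.shiftLeft (nat_lit 0x800000700e013) (nat_lit 64)) (.one (nat_lit 0x800000700e012000000e01c126411)) (.one (nat_lit 0x800000700e013000000e01c128411))) (.br (Nat.shiftLeft (nat_lit 0x900000700e013) (nat_lit 64)) (.one (nat_lit 0x900000700e012200000e01c126411)) (.one (nat_lit 0x900000700e013200000e01c128411))))))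
def t75 : k75.all (jb2 57 fl b0) = true := by decide +kernel
noncomputable def k76 : KT := (.br (Nat.shiftLeft (nat_lit 0x1) (nat_lit 125)) (.br (Nat.shiftLeft (nat_lit 0x1) (nat_lit 124)) (.br (Nat.shiftLeft (nat_lit 0xc00000700e013) (nat_lit 64)) (.br (Nat.shiftLeft (nat_lit 0xb) (nat_lit 112)) (.br (Nat.shiftLeft (nat_lit 0xa00000700e013) (nat_lit 64)) (.one (nat_lit 0xa00000700e012400000e01c126411)) (.one (nat_lit 0xa00000700e013400000e01c128411))) (.br (Nat.shiftLeft (nat_lit 0xb00000700e013) (nat_lit 64)) (.one (nat_lit 0xb00000700e012600000e01c126411)) (.br (Nat.shiftLeft (nat_lit 0x3) (nat_lit 114)) (.one (nat_lit 0xb00000700e013600000e01c128411)) (.one (nat_lit 0xc00000700e012800000e01c126411))))) (.br (Nat.shiftLeft (nat_lit 0xd00000700e013) (nat_lit 64)) (.br (Nat.shiftLeft (nat_lit 0xd) (nat_lit 112)) (.one (nat_lit 0xc00000700e013800000e01c128411)) (.one (nat_lit 0xd00000700e012a00000e01c126411))) (.br (Nat.shiftLeft (nat_lit 0x7) (nat_lit 113)) (.one (nat_lit 0xd00000700e013a00000e01c128411)) (.br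 (Nat.shiftLeft (nat_lit 0xe00000700e013) (nat_lit 64)) (.one (nat_lit 0xe00000700e012c00000e01c126411)) (.one (nat_lit 0xe00000700e013c00000e01c128411)))))) (.br (Nat.shiftLeft (nat_lit 0x100000400700e013) (nat_lit 64)) (.br (Nat.shiftLeft (nat_lit 0x1000003) (nat_lit 100)) (.br (Nat.shiftLeft (nat_lit 0x100000200700e013) (nat_lit 64)) (.one (nat_lit 0x100000200700e012000400e03c424511)) (.one (nat_lit 0x100000200700e013000400e03c426511))) (.br (Nat.shiftLeft (nat_lit 0x100000300700e013) (nat_lit 64)) (.one (nat_lit 0x100000300700e012000600e03c424511)) (.br (Nat.shiftLeft (nat_lit 0x400001) (nat_lit 102)) (.one (nat_lit 0x100000300700e013000600e03c426511)) (.one (nat_lit 0x100000400700e012000800e03c424511))))) (.br (Nat.shiftLeft (nat_lit 0x100000500700e013) (nat_lit 64)) (.br (Nat.shiftLeft (nat_lit 0x1000005) (nat_lit 100)) (.one (nat_lit 0x100000400700e013000800e03c426511)) (.one (nat_lit 0x100000500700e012000a00e03c424511))) (.br (Nat.shiftLeft (nat_lit 0x800003) (nat_lit 101)) (.one (nat_lit 0x100000500700e013000a00e03c426511))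 (.br (Nat.shiftLeft (nat_lit 0x100000600700e013) (nat_lit 64)) (.one (nat_lit 0x100000600700e012000c00e03c424511)) (.one (nat_lit 0x100000600700e013000c00e03c426511))))))) (.br (Nat.shiftLeft (nat_lit 0x3) (nat_lit 124)) (.br (Nat.shiftLeft (nat_lit 0x200000400700e013) (nat_lit 64)) (.br (Nat.shiftLeft (nat_lit 0x2000003) (nat_lit 100)) (.br (Nat.shiftLeft (nat_lit 0x200000200700e013) (nat_lit 64)) (.one (nat_lit 0x200000200700e012000400e05c824511)) (.one (nat_lit 0x200000200700e013000400e05c826511))) (.br (Nat.shiftLeft (nat_lit 0x200000300700e013) (nat_lit 64)) (.one (nat_lit 0x200000300700e012000600e05c824511)) (.br (Nat.shiftLeft (nat_lit 0x800001) (nat_lit 102)) (.one (nat_lit 0x200000300700e013000600e05c826511)) (.one (nat_lit 0x200000400700e012000800e05c824511))))) (.br (Nat.shiftLeft (nat_lit 0x200000500700e013) (nat_lit 64)) (.br (Nat.shiftLeft (nat_lit 0x2000005) (nat_lit 100)) (.one (nat_lit 0x200000400700e013000800e05c826511)) (.one (nat_lit 0x200000500700e012000a00e05c824511))) (.br (Nat.shiftLeft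 (nat_lit 0x1000003) (nat_lit 101)) (.one (nat_lit 0x200000500700e013000a00e05c826511)) (.br (Nat.shiftLeft (nat_lit 0x200000600700e013) (nat_lit 64)) (.one (nat_lit 0x200000600700e012000c00e05c824511)) (.one (nat_lit 0x200000600700e013000c00e05c826511)))))) (.br (Nat.shiftLeft (nat_lit 0x300000400700e013) (nat_lit 64)) (.br (Nat.shiftLeft (nat_lit 0x3000003) (nat_lit 100)) (.br (Nat.shiftLeft (nat_lit 0x300000200700e013) (nat_lit 64)) (.one (nat_lit 0x300000200700e012000400e07cc24511)) (.one (nat_lit 0x300000200700e013000400e07cc26511))) (.br (Nat.shiftLeft (nat_lit 0x300000300700e013) (nat_lit 64)) (.one (nat_lit 0x300000300700e012000600e07cc24511)) (.br (Nat.shiftLeft (nat_lit 0xc00001) (nat_lit 102)) (.one (nat_lit 0x300000300700e013000600e07cc26511)) (.one (nat_lit 0x300000400700e012000800e07cc24511))))) (.br (Nat.shiftLeft (nat_lit 0x300000500700e013) (nat_lit 64)) (.br (Nat.shiftLeft (nat_lit 0x3000005) (nat_lit 100)) (.one (nat_lit 0x300000400700e013000800e07cc26511)) (.one (nat_lit 0x300000500700e012000a00e07cc24511)))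 (.br (Nat.shiftLeft (nat_lit 0x1800003) (nat_lit 101)) (.one (nat_lit 0x300000500700e013000a00e07cc26511)) (.br (Nat.shiftLeft (nat_lit 0x300000600700e013) (nat_lit 64)) (.one (nat_lit 0x300000600700e012000c00e07cc24511)) (.one (nat_lit 0x300000600700e013000c00e07cc26511))))))))
def t76 : k76.all (jb2 57 fl b0) = true := by decide +kernel
noncomputable def k77 : KT := (.br (Nat.shiftLeft (nat_lit 0x4000005) (nat_lit 100)) (.br (Nat.shiftLeft (nat_lit 0x400000300700e013) (nat_lit 64)) (.br (Nat.shiftLeft (nat_lit 0x400000200700e013) (nat_lit 64)) (.one (nat_lit 0x400000200700e012000400e09d024511)) (.br (Nat.shiftLeft (nat_lit 0x4000003) (nat_lit 100)) (.one (nat_lit 0x400000200700e013000400e09d026511)) (.one (nat_lit 0x400000300700e012000600e09d024511)))) (.br (Nat.shiftLeft (nat_lit 0x1000001) (nat_lit 102)) (.one (nat_lit 0x400000300700e013000600e09d026511)) (.br (Nat.shiftLeft (nat_lit 0x400000400700e013) (nat_lit 64)) (.one (nat_lit 0x400000400700e012000800e09d024511)) (.one (nat_lit 0x400000400700e013000800e09d026511)))))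 (.br (Nat.shiftLeft (nat_lit 0x400000600700e013) (nat_lit 64)) (.br (Nat.shiftLeft (nat_lit 0x400000500700e013) (nat_lit 64)) (.one (nat_lit 0x400000500700e012000a00e09d024511)) (.br (Nat.shiftLeft (nat_lit 0x2000003) (nat_lit 101)) (.one (nat_lit 0x400000500700e013000a00e09d026511)) (.one (nat_lit 0x400000600700e012000c00e09d024511)))) (.br (Nat.shiftLeft (nat_lit 0x500000200700e013) (nat_lit 64)) (.br (Nat.shiftLeft (nat_lit 0x5) (nat_lit 124)) (.one (nat_lit 0x400000600700e013000c00e09d026511)) (.one (nat_lit 0x500000200700e012000400e0bd424511))) (.br (Nat.shiftLeft (nat_lit 0x5000003) (nat_lit 100)) (.one (nat_lit 0x500000200700e013000400e0bd426511)) (.one (nat_lit 0x500000300700e012000600e0bd424511))))))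
def t77 : k77.all (jb2 57 fl b0) = true := by decide +kernel
noncomputable def k78 : KT := (.br (Nat.shiftLeft (nat_lit 0x2800003) (nat_lit 101)) (.br (Nat.shiftLeft (nat_lit 0x500000400700e013) (nat_lit 64)) (.br (Nat.shiftLeft (nat_lit 0x1400001) (nat_lit 102)) (.one (nat_lit 0x500000300700e013000600e0bd426511)) (.one (nat_lit 0x500000400700e012000800e0bd424511))) (.br (Nat.shiftLeft (nat_lit 0x5000005) (nat_lit 100)) (.one (nat_lit 0x500000400700e013000800e0bd426511)) (.br (Nat.shiftLeft (nat_lit 0x500000500700e013) (nat_lit 64)) (.one (nat_lit 0x500000500700e012000a00e0bd424511)) (.one (nat_lit 0x500000500700e013000a00e0bd426511))))) (.br (Nat.shiftLeft (nat_lit 0x3) (nat_lit 125)) (.br (Nat.shiftLeft (nat_lit 0x500000600700e013) (nat_lit 64)) (.one (nat_lit 0x500000600700e012000c00e0bd424511)) (.one (nat_lit 0x500000600700e013000c00e0bd426511))) (.br (Nat.shiftLeft (nat_lit 0x600000200700e013) (nat_lit 64)) (.one (nat_lit 0x600000200700e012000400e0dd824511)) (.br (Nat.shiftLeft (nat_lit 0x6000003) (nat_lit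 100)) (.one (nat_lit 0x600000200700e013000400e0dd826511)) (.one (nat_lit 0x600000300700e012000600e0dd824511))))))
def t78 : k78.all (jb2 57 fl b0) = true := by decide +kernel
noncomputable def k79 : KT := (.br (Nat.shiftLeft (nat_lit 0x3000003) (nat_lit 101)) (.br (Nat.shiftLeft (nat_lit 0x600000400700e013) (nat_lit 64)) (.br (Nat.shiftLeft (nat_lit 0x1800001) (nat_lit 102)) (.one (nat_lit 0x600000300700e013000600e0dd826511)) (.one (nat_lit 0x600000400700e012000800e0dd824511))) (.br (Nat.shiftLeft (nat_lit 0x6000005) (nat_lit 100)) (.one (nat_lit 0x600000400700e013000800e0dd826511)) (.br (Nat.shiftLeft (nat_lit 0x600000500700e013) (nat_lit 64)) (.one (nat_lit 0x600000500700e012000a00e0dd824511)) (.one (nat_lit 0x600000500700e013000a00e0dd826511))))) (.br (Nat.shiftLeft (nat_lit 0x700000200700e013) (nat_lit 64)) (.br (Nat.shiftLeft (nat_lit 0x600000600700e013) (nat_lit 64)) (.one (nat_lit 0x600000600700e012000c00e0dd824511)) (.br (Nat.shiftLeft (nat_lit 0x7) (nat_lit 124)) (.one (nat_lit 0x600000600700e013000c00e0dd826511))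 (.one (nat_lit 0x700000200700e012000400e0fdc24511)))) (.br (Nat.shiftLeft (nat_lit 0x7000003) (nat_lit 100)) (.one (nat_lit 0x700000200700e013000400e0fdc26511)) (.br (Nat.shiftLeft (nat_lit 0x700000300700e013) (nat_lit 64)) (.one (nat_lit 0x700000300700e012000600e0fdc24511)) (.one (nat_lit 0x700000300700e013000600e0fdc26511))))))
def t79 : k79.all (jb2 57 fl b0) = true := by decide +kernel
noncomputable def k80 : KT := (.br (Nat.shiftLeft (nat_lit 0x800000300700e013) (nat_lit 64)) (.br (Nat.shiftLeft (nat_lit 0x3800003) (nat_lit 101)) (.br (Nat.shiftLeft (nat_lit 0x7000005) (nat_lit 100)) (.br (Nat.shiftLeft (nat_lit 0x700000400700e013) (nat_lit 64)) (.one (nat_lit 0x700000400700e012000800e0fdc24511)) (.one (nat_lit 0x700000400700e013000800e0fdc26511))) (.br (Nat.shiftLeft (nat_lit 0x700000500700e013) (nat_lit 64)) (.one (nat_lit 0x700000500700e012000a00e0fdc24511)) (.one (nat_lit 0x700000500700e013000a00e0fdc26511)))) (.br (Nat.shiftLeft (nat_lit 0x1) (nat_lit 127)) (.br (Nat.shiftLeft (nat_lit 0x700000600700e013)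 (nat_lit 64)) (.one (nat_lit 0x700000600700e012000c00e0fdc24511)) (.one (nat_lit 0x700000600700e013000c00e0fdc26511))) (.br (Nat.shiftLeft (nat_lit 0x800000200700e013) (nat_lit 64)) (.one (nat_lit 0x800000200700e012000400e11e024511)) (.br (Nat.shiftLeft (nat_lit 0x8000003) (nat_lit 100)) (.one (nat_lit 0x800000200700e013000400e11e026511)) (.one (nat_lit 0x800000300700e012000600e11e024511)))))) (.br (Nat.shiftLeft (nat_lit 0x800000500700e013) (nat_lit 64)) (.br (Nat.shiftLeft (nat_lit 0x800000400700e013) (nat_lit 64)) (.br (Nat.shiftLeft (nat_lit 0x2000001) (nat_lit 102)) (.one (nat_lit 0x800000300700e013000600e11e026511)) (.one (nat_lit 0x800000400700e012000800e11e024511))) (.br (Nat.shiftLeft (nat_lit 0x8000005) (nat_lit 100)) (.one (nat_lit 0x800000400700e013000800e11e026511)) (.one (nat_lit 0x800000500700e012000a00e11e024511)))) (.br (Nat.shiftLeft (nat_lit 0x800000600700e013) (nat_lit 64)) (.br (Nat.shiftLeft (nat_lit 0x4000003) (nat_lit 101)) (.one (nat_lit 0x800000500700e013000a00e11e026511)) (.one (nat_lit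 0x800000600700e012000c00e11e024511))) (.br (Nat.shiftLeft (nat_lit 0x9) (nat_lit 124)) (.one (nat_lit 0x800000600700e013000c00e11e026511)) (.br (Nat.shiftLeft (nat_lit 0x900000200700e013) (nat_lit 64)) (.one (nat_lit 0x900000200700e012000400e13e424511)) (.one (nat_lit 0x900000200700e013000400e13e426511)))))))
def t80 : k80.all (jb2 57 fl b0) = true := by decide +kernel
noncomputable def k81 : KT := (.br (Nat.shiftLeft (nat_lit 0xb000003) (nat_lit 100)) (.br (Nat.shiftLeft (nat_lit 0xa000003) (nat_lit 100)) (.br (Nat.shiftLeft (nat_lit 0x900000500700e013) (nat_lit 64)) (.br (Nat.shiftLeft (nat_lit 0x2400001) (nat_lit 102)) (.br (Nat.shiftLeft (nat_lit 0x900000300700e013) (nat_lit 64)) (.one (nat_lit 0x900000300700e012000600e13e424511)) (.one (nat_lit 0x900000300700e013000600e13e426511))) (.br (Nat.shiftLeft (nat_lit 0x900000400700e013) (nat_lit 64)) (.one (nat_lit 0x900000400700e012000800e13e424511)) (.br (Nat.shiftLeft (nat_lit 0x9000005) (nat_lit 100)) (.one (nat_lit 0x900000400700e013000800e13e426511)) (.one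 (nat_lit 0x900000500700e012000a00e13e424511))))) (.br (Nat.shiftLeft (nat_lit 0x900000600700e013) (nat_lit 64)) (.br (Nat.shiftLeft (nat_lit 0x4800003) (nat_lit 101)) (.one (nat_lit 0x900000500700e013000a00e13e426511)) (.one (nat_lit 0x900000600700e012000c00e13e424511))) (.br (Nat.shiftLeft (nat_lit 0x5) (nat_lit 125)) (.one (nat_lit 0x900000600700e013000c00e13e426511)) (.br (Nat.shiftLeft (nat_lit 0xa00000200700e013) (nat_lit 64)) (.one (nat_lit 0xa00000200700e012000400e15e824511)) (.one (nat_lit 0xa00000200700e013000400e15e826511)))))) (.br (Nat.shiftLeft (nat_lit 0xa00000500700e013) (nat_lit 64)) (.br (Nat.shiftLeft (nat_lit 0x2800001) (nat_lit 102)) (.br (Nat.shiftLeft (nat_lit 0xa00000300700e013) (nat_lit 64)) (.one (nat_lit 0xa00000300700e012000600e15e824511)) (.one (nat_lit 0xa00000300700e013000600e15e826511))) (.br (Nat.shiftLeft (nat_lit 0xa00000400700e013) (nat_lit 64)) (.one (nat_lit 0xa00000400700e012000800e15e824511)) (.br (Nat.shiftLeft (nat_lit 0xa000005) (nat_lit 100)) (.one (nat_lit 0xa00000400700e013000800e15e826511))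 (.one (nat_lit 0xa00000500700e012000a00e15e824511))))) (.br (Nat.shiftLeft (nat_lit 0xa00000600700e013) (nat_lit 64)) (.br (Nat.shiftLeft (nat_lit 0x5000003) (nat_lit 101)) (.one (nat_lit 0xa00000500700e013000a00e15e826511)) (.one (nat_lit 0xa00000600700e012000c00e15e824511))) (.br (Nat.shiftLeft (nat_lit 0xb) (nat_lit 124)) (.one (nat_lit 0xa00000600700e013000c00e15e826511)) (.br (Nat.shiftLeft (nat_lit 0xb00000200700e013) (nat_lit 64)) (.one (nat_lit 0xb00000200700e012000400e17ec24511)) (.one (nat_lit 0xb00000200700e013000400e17ec26511))))))) (.br (Nat.shiftLeft (nat_lit 0xc000003) (nat_lit 100)) (.br (Nat.shiftLeft (nat_lit 0xb00000500700e013) (nat_lit 64)) (.br (Nat.shiftLeft (nat_lit 0x2c00001) (nat_lit 102)) (.br (Nat.shiftLeft (nat_lit 0xb00000300700e013) (nat_lit 64)) (.one (nat_lit 0xb00000300700e012000600e17ec24511)) (.one (nat_lit 0xb00000300700e013000600e17ec26511))) (.br (Nat.shiftLeft (nat_lit 0xb00000400700e013) (nat_lit 64)) (.one (nat_lit 0xb00000400700e012000800e17ec24511)) (.br (Nat.shiftLeft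 (nat_lit 0xb000005) (nat_lit 100)) (.one (nat_lit 0xb00000400700e013000800e17ec26511)) (.one (nat_lit 0xb00000500700e012000a00e17ec24511))))) (.br (Nat.shiftLeft (nat_lit 0xb00000600700e013) (nat_lit 64)) (.br (Nat.shiftLeft (nat_lit 0x5800003) (nat_lit 101)) (.one (nat_lit 0xb00000500700e013000a00e17ec26511)) (.one (nat_lit 0xb00000600700e012000c00e17ec24511))) (.br (Nat.shiftLeft (nat_lit 0x3) (nat_lit 126)) (.one (nat_lit 0xb00000600700e013000c00e17ec26511)) (.br (Nat.shiftLeft (nat_lit 0xc00000200700e013) (nat_lit 64)) (.one (nat_lit 0xc00000200700e012000400e19f024511)) (.one (nat_lit 0xc00000200700e013000400e19f026511)))))) (.br (Nat.shiftLeft (nat_lit 0xc00000500700e013) (nat_lit 64)) (.br (Nat.shiftLeft (nat_lit 0x3000001) (nat_lit 102)) (.br (Nat.shiftLeft (nat_lit 0xc00000300700e013) (nat_lit 64)) (.one (nat_lit 0xc00000300700e012000600e19f024511)) (.one (nat_lit 0xc00000300700e013000600e19f026511))) (.br (Nat.shiftLeft (nat_lit 0xc00000400700e013) (nat_lit 64)) (.one (nat_lit 0xc00000400700e012000800e19f024511))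 (.br (Nat.shiftLeft (nat_lit 0xc000005) (nat_lit 100)) (.one (nat_lit 0xc00000400700e013000800e19f026511)) (.one (nat_lit 0xc00000500700e012000a00e19f024511))))) (.br (Nat.shiftLeft (nat_lit 0xd) (nat_lit 124)) (.br (Nat.shiftLeft (nat_lit 0x6000003) (nat_lit 101)) (.one (nat_lit 0xc00000500700e013000a00e19f026511)) (.one (nat_lit 0xc00000600700e012000c00e19f024511))) (.br (Nat.shiftLeft (nat_lit 0xd00000200700e013) (nat_lit 64)) (.one (nat_lit 0xd00000200700e012000400e1bf424511)) (.br (Nat.shiftLeft (nat_lit 0xd000003) (nat_lit 100)) (.one (nat_lit 0xd00000200700e013000400e1bf426511)) (.one (nat_lit 0xd00000300700e012000600e1bf424511))))))))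
def t81 : k81.all (jb2 57 fl b0) = true := by decide +kernel
noncomputable def k82 : KT := (.br (Nat.shiftLeft (nat_lit 0x7) (nat_lit 125)) (.br (Nat.shiftLeft (nat_lit 0xd00000400700e013) (nat_lit 64)) (.br (Nat.shiftLeft (nat_lit 0x3400001) (nat_lit 102)) (.one (nat_lit 0xd00000300700e013000600e1bf426511)) (.one (nat_lit 0xd00000400700e012000800e1bf424511))) (.br (Nat.shiftLeft (nat_lit 0xd000005) (nat_lit 100)) (.one (nat_lit 0xd00000400700e013000800e1bf426511)) (.one (nat_lit 0xd00000500700e012000a00e1bf424511)))) (.br (Nat.shiftLeft (nat_lit 0xe000003) (nat_lit 100)) (.br (Nat.shiftLeft (nat_lit 0xe00000200700e013) (nat_lit 64)) (.one (nat_lit 0xe00000200700e012000400e1df824511)) (.one (nat_lit 0xe00000200700e013000400e1df826511))) (.br (Nat.shiftLeft (nat_lit 0xe00000300700e013) (nat_lit 64)) (.one (nat_lit 0xe00000300700e012000600e1df824511)) (.br (Nat.shiftLeft (nat_lit 0x3800001) (nat_lit 102)) (.one (nat_lit 0xe00000300700e013000600e1df826511)) (.one (nat_lit 0xe00000400700e012000800e1df824511))))))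
def t82 : k82.all (jb2 57 fl b0) = true := by decide +kernel
noncomputable def s3 : KT := (.br (nat_lit 0x200600700e012400c00e01c024650) (.br (nat_lit 0x100400700e012200800e01c024650) (.br (nat_lit 0x100200700e012200400e01c024650) (.br (nat_lit 0x100700e012000200e01c024540) k59 (.br (nat_lit 0x100000700e013200000e01c026411) k60 k61)) (.br (nat_lit 0x100200700e013200400e01c026650) k62 (.br (nat_lit 0x100300700e012200600e01c024650) k63 k64))) (.br (nat_lit 0x200300700e012400600e01c024650) (.br (nat_lit 0x100500700e013200a00e01c026650) k65 (.br (nat_lit 0x200000700e013400000e01c026411) k66 k67)) (.br (nat_lit 0x200300700e013400600e01c026650) k68 (.br (nat_lit 0x200400700e013400800e01c026650) k69 k70)))) (.br (nat_lit 0x300000600700e013000c00e07cc26511) (.br (nat_lit 0x400000700e013800000e01c026411) (.br (nat_lit 0x300400700e012600800e01c024650) k71 (.br (nat_lit 0x300500700e012600a00e01c024650) k72 k73)) (.br (nat_lit 0x400600700e012800c00e01c024650) k74 (.br (nat_lit 0x900000700e013200000e01c128411) k75 k76)))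 (.br (nat_lit 0x700000300700e013000600e0fdc26511) (.br (nat_lit 0x500000300700e012000600e0bd424511) k77 (.br (nat_lit 0x600000300700e012000600e0dd824511) k78 k79)) (.br (nat_lit 0x900000200700e013000400e13e426511) k80 (.br (nat_lit 0xd00000300700e012000600e1bf424511) k81 k82)))))
noncomputable def u3 : KT := (.br (Nat.shiftLeft (nat_lit 0x700e013) (nat_lit 64)) (.one (nat_lit 0x700e012000000e01c024430)) (.one (nat_lit 0x700e013000000e01c026430)))
def w3 : u3.all (wj 57 s3) = true := by decide +kernel
def o3 : OkW 57 (jb2 57 fl) u3 := .lift s3 _ (.br _ _ _ (.br _ _ _ (.br _ _ _ (.br _ _ _ (.leaf b0 k59 t59) (.br _ _ _ (.leaf b0 k60 t60) (.leaf b0 k61 t61))) (.br _ _ _ (.leaf b0 k62 t62) (.br _ _ _ (.leaf b0 k63 t63) (.leaf b0 k64 t64)))) (.br _ _ _ (.br _ _ _ (.leaf b0 k65 t65) (.br _ _ _ (.leaf b0 k66 t66) (.leaf b0 k67 t67))) (.br _ _ _ (.leaf b0 k68 t68) (.br _ _ _ (.leaf b0 k69 t69) (.leaf b0 k70 t70))))) (.br _ _ _ (.br _ _ _ (.br _ _ _ (.leaf b0 k71 t71) (.br _ _ _ (.leaf b0 k72 t72) (.leaf b0 k73 t73)))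 (.br _ _ _ (.leaf b0 k74 t74) (.br _ _ _ (.leaf b0 k75 t75) (.leaf b0 k76 t76)))) (.br _ _ _ (.br _ _ _ (.leaf b0 k77 t77) (.br _ _ _ (.leaf b0 k78 t78) (.leaf b0 k79 t79))) (.br _ _ _ (.leaf b0 k80 t80) (.br _ _ _ (.leaf b0 k81 t81) (.leaf b0 k82 t82)))))) w3
noncomputable def k83 : KT := (.br (Nat.shiftLeft (nat_lit 0x380700b) (nat_lit 65)) (.br (Nat.shiftLeft (nat_lit 0x700e015) (nat_lit 64)) (.one (nat_lit 0x700e014000000e01c029400)) (.one (nat_lit 0x700e015000000e01c02b400))) (.br (Nat.shiftLeft (nat_lit 0x1) (nat_lit 100)) (.one (nat_lit 0x700e016000000e01c02d400)) (.br (Nat.shiftLeft (nat_lit 0x100700e015) (nat_lit 64)) (.one (nat_lit 0x100700e014000200e01c028540)) (.one (nat_lit 0x100700e015000200e01c02a540)))))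
def t83 : k83.all (jb2 57 fl b0) = true := by decide +kernel
noncomputable def k84 : KT := (.one (nat_lit 0x100700e016000200e01c02c540))
def t84 : k84.all (jb2 57 fl b0) = true := by decide +kernel
noncomputable def k85 : KT := (.one (nat_lit 0x200700e014000400e01c028540))
def t85 : k85.all (jb2 57 fl b0) = true := by decide +kernel
noncomputable def k86 : KT := (.one (nat_lit 0x200700e015000400e01c02a540))
def t86 : k86.all (jb2 57 fl b0) = true := by decide +kernel
noncomputable def k87 : KT := (.br (Nat.shiftLeft (nat_lit 0x3) (nat_lit 100)) (.one (nat_lit 0x200700e016000400e01c02c540)) (.one (nat_lit 0x300700e014000600e01c029500)))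
def t87 : k87.all (jb2 57 fl b0) = true := by decide +kernel
noncomputable def k88 : KT := (.one (nat_lit 0x300700e015000600e01c02a540))
def t88 : k88.all (jb2 57 fl b0) = true := by decide +kernel
noncomputable def k89 : KT := (.br (Nat.shiftLeft (nat_lit 0x1) (nat_lit 102)) (.one (nat_lit 0x300700e016000600e01c02c540)) (.one (nat_lit 0x400700e014000800e01c029500)))
def t89 : k89.all (jb2 57 fl b0) = true := by decide +kernel
noncomputable def k90 : KT := (.one (nat_lit 0x400700e015000800e01c02a540))
def t90 : k90.all (jb2 57 fl b0) = true := by decide +kernel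
noncomputable def k91 : KT := (.one (nat_lit 0x400700e016000800e01c02c540))
def t91 : k91.all (jb2 57 fl b0) = true := by decide +kernel
noncomputable def k92 : KT := (.one (nat_lit 0x500700e014000a00e01c028540))
def t92 : k92.all (jb2 57 fl b0) = true := by decide +kernel
noncomputable def k93 : KT := (.one (nat_lit 0x500700e015000a00e01c02a540))
def t93 : k93.all (jb2 57 fl b0) = true := by decide +kernel
noncomputable def k94 : KT := (.one (nat_lit 0x500700e016000a00e01c02c540))
def t94 : k94.all (jb2 57 fl b0) = true := by decide +kernel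
noncomputable def k95 : KT := (.one (nat_lit 0x600700e014000c00e01c028540))
def t95 : k95.all (jb2 57 fl b0) = true := by decide +kernel
noncomputable def k96 : KT := (.br (Nat.shiftLeft (nat_lit 0x1) (nat_lit 112)) (.br (Nat.shiftLeft (nat_lit 0x300380700b) (nat_lit 65)) (.one (nat_lit 0x600700e015000c00e01c02a540)) (.one (nat_lit 0x600700e016000c00e01c02c540))) (.br (Nat.shiftLeft (nat_lit 0x100000700e015) (nat_lit 64)) (.one (nat_lit 0x100000700e014200000e01c028411)) (.br (Nat.shiftLeft (nat_lit 0x80000380700b) (nat_lit 65)) (.one (nat_lit 0x100000700e015200000e01c02a411)) (.one (nat_lit 0x100000700e016200000e01c02c411)))))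
def t96 : k96.all (jb2 57 fl b0) = true := by decide +kernel
noncomputable def k97 : KT := (.br (Nat.shiftLeft (nat_lit 0x200000700e015) (nat_lit 64)) (.br (Nat.shiftLeft (nat_lit 0x401) (nat_lit 102)) (.one (nat_lit 0x100300700e014200600e01c028650)) (.br (Nat.shiftLeft (nat_lit 0x1) (nat_lit 113)) (.one (nat_lit 0x100400700e014200800e01c028650)) (.one (nat_lit 0x200000700e014400000e01c028411)))) (.br (Nat.shiftLeft (nat_lit 0x100000380700b) (nat_lit 65)) (.one (nat_lit 0x200000700e015400000e01c02a411)) (.br (Nat.shiftLeft (nat_lit 0x1001) (nat_lit 101)) (.one (nat_lit 0x200000700e016400000e01c02c411)) (.one (nat_lit 0x200300700e014400600e01c028650)))))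
def t97 : k97.all (jb2 57 fl b0) = true := by decide +kernel
noncomputable def k98 : KT := (.br (Nat.shiftLeft (nat_lit 0x5) (nat_lit 112)) (.br (Nat.shiftLeft (nat_lit 0xc01) (nat_lit 102)) (.br (Nat.shiftLeft (nat_lit 0x300000700e015) (nat_lit 64)) (.br (Nat.shiftLeft (nat_lit 0x3) (nat_lit 112)) (.one (nat_lit 0x200400700e014400800e01c028650)) (.one (nat_lit 0x300000700e014600000e01c028411))) (.br (Nat.shiftLeft (nat_lit 0x180000380700b) (nat_lit 65)) (.one (nat_lit 0x300000700e015600000e01c02a411)) (.one (nat_lit 0x300000700e016600000e01c02c411)))) (.br (Nat.shiftLeft (nat_lit 0x400000700e015) (nat_lit 64)) (.br (Nat.shiftLeft (nat_lit 0x1) (nat_lit 114)) (.one (nat_lit 0x300400700e014600800e01c028650)) (.one (nat_lit 0x400000700e014800000e01c028411))) (.br (Nat.shiftLeft (nat_lit 0x200000380700b) (nat_lit 65)) (.one (nat_lit 0x400000700e015800000e01c02a411)) (.one (nat_lit 0x400000700e016800000e01c02c411))))) (.br (Nat.shiftLeft (nat_lit 0x600000700e015) (nat_lit 64)) (.br (Nat.shiftLeft (nat_lit 0x280000380700b)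 (nat_lit 65)) (.br (Nat.shiftLeft (nat_lit 0x500000700e015) (nat_lit 64)) (.one (nat_lit 0x500000700e014a00000e01c028411)) (.one (nat_lit 0x500000700e015a00000e01c02a411))) (.br (Nat.shiftLeft (nat_lit 0x3) (nat_lit 113)) (.one (nat_lit 0x500000700e016a00000e01c02c411)) (.one (nat_lit 0x600000700e014c00000e01c028411)))) (.br (Nat.shiftLeft (nat_lit 0x7) (nat_lit 112)) (.br (Nat.shiftLeft (nat_lit 0x300000380700b) (nat_lit 65)) (.one (nat_lit 0x600000700e015c00000e01c02a411)) (.one (nat_lit 0x600000700e016c00000e01c02c411))) (.br (Nat.shiftLeft (nat_lit 0x700000700e015) (nat_lit 64)) (.one (nat_lit 0x700000700e014e00000e01c028411)) (.br (Nat.shiftLeft (nat_lit 0x380000380700b) (nat_lit 65)) (.one (nat_lit 0x700000700e015e00000e01c02a411)) (.one (nat_lit 0x700000700e016e00000e01c02c411)))))))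
def t98 : k98.all (jb2 57 fl b0) = true := by decide +kernel
noncomputable def k99 : KT := (.br (Nat.shiftLeft (nat_lit 0x7) (nat_lit 113)) (.br (Nat.shiftLeft (nat_lit 0xb) (nat_lit 112)) (.br (Nat.shiftLeft (nat_lit 0x900000700e015) (nat_lit 64)) (.br (Nat.shiftLeft (nat_lit 0x400000380700b) (nat_lit 65)) (.br (Nat.shiftLeft (nat_lit 0x800000700e015) (nat_lit 64)) (.one (nat_lit 0x800000700e014000000e01c12a411)) (.one (nat_lit 0x800000700e015000000e01c12c411))) (.br (Nat.shiftLeft (nat_lit 0x9) (nat_lit 112)) (.one (nat_lit 0x800000700e016000000e01c12e411)) (.one (nat_lit 0x900000700e014200000e01c12a411)))) (.br (Nat.shiftLeft (nat_lit 0x5) (nat_lit 113)) (.br (Nat.shiftLeft (nat_lit 0x480000380700b) (nat_lit 65)) (.one (nat_lit 0x900000700e015200000e01c12c411)) (.one (nat_lit 0x900000700e016200000e01c12e411))) (.br (Nat.shiftLeft (nat_lit 0xa00000700e015) (nat_lit 64)) (.one (nat_lit 0xa00000700e014400000e01c12a411)) (.br (Nat.shiftLeft (nat_lit 0x500000380700b) (nat_lit 65)) (.one (nat_lit 0xa00000700e015400000e01c12c411))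 (.one (nat_lit 0xa00000700e016400000e01c12e411)))))) (.br (Nat.shiftLeft (nat_lit 0xc00000700e015) (nat_lit 64)) (.br (Nat.shiftLeft (nat_lit 0x580000380700b) (nat_lit 65)) (.br (Nat.shiftLeft (nat_lit 0xb00000700e015) (nat_lit 64)) (.one (nat_lit 0xb00000700e014600000e01c12a411)) (.one (nat_lit 0xb00000700e015600000e01c12c411))) (.br (Nat.shiftLeft (nat_lit 0x3) (nat_lit 114)) (.one (nat_lit 0xb00000700e016600000e01c12e411)) (.one (nat_lit 0xc00000700e014800000e01c12a411)))) (.br (Nat.shiftLeft (nat_lit 0xd) (nat_lit 112)) (.br (Nat.shiftLeft (nat_lit 0x600000380700b) (nat_lit 65)) (.one (nat_lit 0xc00000700e015800000e01c12c411)) (.one (nat_lit 0xc00000700e016800000e01c12e411))) (.br (Nat.shiftLeft (nat_lit 0xd00000700e015) (nat_lit 64)) (.one (nat_lit 0xd00000700e014a00000e01c12a411)) (.br (Nat.shiftLeft (nat_lit 0x680000380700b) (nat_lit 65)) (.one (nat_lit 0xd00000700e015a00000e01c12c411)) (.one (nat_lit 0xd00000700e016a00000e01c12e411))))))) (.br (Nat.shiftLeft (nat_lit 0x1) (nat_lit 126)) (.br (Nat.shiftLeft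 (nat_lit 0x400001) (nat_lit 102)) (.br (Nat.shiftLeft (nat_lit 0x700000380700b) (nat_lit 65)) (.br (Nat.shiftLeft (nat_lit 0xe00000700e015) (nat_lit 64)) (.one (nat_lit 0xe00000700e014c00000e01c12a411)) (.one (nat_lit 0xe00000700e015c00000e01c12c411))) (.br (Nat.shiftLeft (nat_lit 0x1) (nat_lit 124)) (.one (nat_lit 0xe00000700e016c00000e01c12e411)) (.one (nat_lit 0x100000300700e014000600e03c428511)))) (.br (Nat.shiftLeft (nat_lit 0x800001) (nat_lit 102)) (.br (Nat.shiftLeft (nat_lit 0x1) (nat_lit 125)) (.one (nat_lit 0x100000400700e014000800e03c428511)) (.one (nat_lit 0x200000300700e014000600e05c828511))) (.br (Nat.shiftLeft (nat_lit 0x3) (nat_lit 124)) (.one (nat_lit 0x200000400700e014000800e05c828511)) (.br (Nat.shiftLeft (nat_lit 0xc00001) (nat_lit 102)) (.one (nat_lit 0x300000300700e014000600e07cc28511)) (.one (nat_lit 0x300000400700e014000800e07cc28511)))))) (.br (Nat.shiftLeft (nat_lit 0x3) (nat_lit 125)) (.br (Nat.shiftLeft (nat_lit 0x5) (nat_lit 124)) (.br (Nat.shiftLeft (nat_lit 0x1000001) (nat_lit 102))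 (.one (nat_lit 0x400000300700e014000600e09d028511)) (.one (nat_lit 0x400000400700e014000800e09d028511))) (.br (Nat.shiftLeft (nat_lit 0x1400001) (nat_lit 102)) (.one (nat_lit 0x500000300700e014000600e0bd428511)) (.one (nat_lit 0x500000400700e014000800e0bd428511)))) (.br (Nat.shiftLeft (nat_lit 0x7) (nat_lit 124)) (.br (Nat.shiftLeft (nat_lit 0x1800001) (nat_lit 102)) (.one (nat_lit 0x600000300700e014000600e0dd828511)) (.one (nat_lit 0x600000400700e014000800e0dd828511))) (.br (Nat.shiftLeft (nat_lit 0x1c00001) (nat_lit 102)) (.one (nat_lit 0x700000300700e014000600e0fdc28511)) (.br (Nat.shiftLeft (nat_lit 0x1) (nat_lit 127)) (.one (nat_lit 0x700000400700e014000800e0fdc28511)) (.one (nat_lit 0x800000300700e014000600e11e028511))))))))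
def t99 : k99.all (jb2 57 fl b0) = true := by decide +kernel
noncomputable def k100 : KT := (.br (Nat.shiftLeft (nat_lit 0xb) (nat_lit 124)) (.br (Nat.shiftLeft (nat_lit 0x2400001) (nat_lit 102)) (.br (Nat.shiftLeft (nat_lit 0x9) (nat_lit 124)) (.one (nat_lit 0x800000400700e014000800e11e028511)) (.one (nat_lit 0x900000300700e014000600e13e428511))) (.br (Nat.shiftLeft (nat_lit 0x5) (nat_lit 125)) (.one (nat_lit 0x900000400700e014000800e13e428511)) (.br (Nat.shiftLeft (nat_lit 0x2800001) (nat_lit 102)) (.one (nat_lit 0xa00000300700e014000600e15e828511)) (.one (nat_lit 0xa00000400700e014000800e15e828511))))) (.br (Nat.shiftLeft (nat_lit 0x3) (nat_lit 126)) (.br (Nat.shiftLeft (nat_lit 0x2c00001) (nat_lit 102)) (.one (nat_lit 0xb00000300700e014000600e17ec28511)) (.one (nat_lit 0xb00000400700e014000800e17ec28511))) (.br (Nat.shiftLeft (nat_lit 0x3000001) (nat_lit 102)) (.one (nat_lit 0xc00000300700e014000600e19f028511)) (.br (Nat.shiftLeft (nat_lit 0xd) (nat_lit 124)) (.one (nat_lit 0xc00000400700e014000800e19f028511))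 (.one (nat_lit 0xd00000300700e014000600e1bf428511))))))
def t100 : k100.all (jb2 57 fl b0) = true := by decide +kernel
noncomputable def s4 : KT := (.br (nat_lit 0x400700e016000800e01c02c540) (.br (nat_lit 0x200700e015000400e01c02a540) (.br (nat_lit 0x100700e016000200e01c02c540) (.br (nat_lit 0x100700e015000200e01c02a540) k83 k84) (.br (nat_lit 0x200700e014000400e01c028540) k85 k86)) (.br (nat_lit 0x300700e015000600e01c02a540) (.br (nat_lit 0x300700e014000600e01c029500) k87 k88) (.br (nat_lit 0x400700e014000800e01c029500) k89 (.br (nat_lit 0x400700e015000800e01c02a540) k90 k91)))) (.br (nat_lit 0x600700e014000c00e01c028540) (.br (nat_lit 0x500700e015000a00e01c02a540) (.br (nat_lit 0x500700e014000a00e01c028540) k92 k93) (.br (nat_lit 0x500700e016000a00e01c02c540) k94 k95)) (.br (nat_lit 0x200300700e014400600e01c028650) (.br (nat_lit 0x100000700e016200000e01c02c411) k96 k97) (.br (nat_lit 0x700000700e016e00000e01c02c411) k98 (.br (nat_lit 0x800000300700e014000600e11e028511) k99 k100)))))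
noncomputable def u4 : KT := (.br (Nat.shiftLeft (nat_lit 0x700e015) (nat_lit 64)) (.one (nat_lit 0x700e014000000e01c028430)) (.br (Nat.shiftLeft (nat_lit 0x380700b) (nat_lit 65)) (.one (nat_lit 0x700e015000000e01c02a430)) (.one (nat_lit 0x700e016000000e01c02c430))))
def w4 : u4.all (wj 57 s4) = true := by decide +kernel
def o4 : OkW 57 (jb2 57 fl) u4 := .lift s4 _ (.br _ _ _ (.br _ _ _ (.br _ _ _ (.br _ _ _ (.leaf b0 k83 t83) (.leaf b0 k84 t84)) (.br _ _ _ (.leaf b0 k85 t85) (.leaf b0 k86 t86))) (.br _ _ _ (.br _ _ _ (.leaf b0 k87 t87) (.leaf b0 k88 t88)) (.br _ _ _ (.leaf b0 k89 t89) (.br _ _ _ (.leaf b0 k90 t90) (.leaf b0 k91 t91))))) (.br _ _ _ (.br _ _ _ (.br _ _ _ (.leaf b0 k92 t92) (.leaf b0 k93 t93)) (.br _ _ _ (.leaf b0 k94 t94) (.leaf b0 k95 t95))) (.br _ _ _ (.br _ _ _ (.leaf b0 k96 t96) (.leaf b0 k97 t97)) (.br _ _ _ (.leaf b0 k98 t98) (.br _ _ _ (.leaf b0 k99 t99) (.leaf b0 k100 t100)))))) w4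
noncomputable def k101 : KT := (.br (Nat.shiftLeft (nat_lit 0x1) (nat_lit 102)) (.br (Nat.shiftLeft (nat_lit 0x1) (nat_lit 101)) (.br (Nat.shiftLeft (nat_lit 0x1) (nat_lit 100)) (.one (nat_lit 0x700f010000000e01e021400)) (.one (nat_lit 0x100700f010000200e01e020540))) (.br (Nat.shiftLeft (nat_lit 0x3) (nat_lit 100)) (.one (nat_lit 0x200700f010000400e01e021500)) (.one (nat_lit 0x300700f010000600e01e021500)))) (.br (Nat.shiftLeft (nat_lit 0x3) (nat_lit 101)) (.br (Nat.shiftLeft (nat_lit 0x5) (nat_lit 100)) (.one (nat_lit 0x400700f010000800e01e021500)) (.one (nat_lit 0x500700f010000a00e01e021500))) (.br (Nat.shiftLeft (nat_lit 0x1) (nat_lit 112)) (.one (nat_lit 0x600700f010000c00e01e021500)) (.one (nat_lit 0x100000700f010200000e01e020411)))))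
def t101 : k101.all (jb2 57 fl b0) = true := by decide +kernel
noncomputable def k102 : KT := (.one (nat_lit 0x100200700f010200400e01e020650))
def t102 : k102.all (jb2 57 fl b0) = true := by decide +kernel
noncomputable def k103 : KT := (.one (nat_lit 0x100300700f010200600e01e020650))
def t103 : k103.all (jb2 57 fl b0) = true := by decide +kernel
noncomputable def k104 : KT := (.one (nat_lit 0x100400700f010200800e01e020650))
def t104 : k104.all (jb2 57 fl b0) = true := by decide +kernel
noncomputable def k105 : KT := (.br (Nat.shiftLeft (nat_lit 0x1) (nat_lit 113)) (.br (Nat.shiftLeft (nat_lit 0x803) (nat_lit 101)) (.one (nat_lit 0x100500700f010200a00e01e020650)) (.one (nat_lit 0x100600700f010200c00e01e020650))) (.br (Nat.shiftLeft (nat_lit 0x1001) (nat_lit 101)) (.one (nat_lit 0x200000700f010400000e01e020411)) (.one (nat_lit 0x200300700f010400600e01e021600))))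
def t105 : k105.all (jb2 57 fl b0) = true := by decide +kernel
noncomputable def k106 : KT := (.one (nat_lit 0x200400700f010400800e01e020650))
def t106 : k106.all (jb2 57 fl b0) = true := by decide +kernel
noncomputable def k107 : KT := (.br (Nat.shiftLeft (nat_lit 0x1003) (nat_lit 101)) (.one (nat_lit 0x200500700f010400a00e01e020650)) (.br (Nat.shiftLeft (nat_lit 0x3) (nat_lit 112)) (.one (nat_lit 0x200600700f010400c00e01e020650)) (.one (nat_lit 0x300000700f010600000e01e020411))))
def t107 : k107.all (jb2 57 fl b0) = true := by decide +kernel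
noncomputable def k108 : KT := (.one (nat_lit 0x300400700f010600800e01e020650))
def t108 : k108.all (jb2 57 fl b0) = true := by decide +kernel
noncomputable def k109 : KT := (.br (Nat.shiftLeft (nat_lit 0x1803) (nat_lit 101)) (.one (nat_lit 0x300500700f010600a00e01e020650)) (.br (Nat.shiftLeft (nat_lit 0x1) (nat_lit 114)) (.one (nat_lit 0x300600700f010600c00e01e020650)) (.one (nat_lit 0x400000700f010800000e01e020411))))
def t109 : k109.all (jb2 57 fl b0) = true := by decide +kernel
noncomputable def k110 : KT := (.br (Nat.shiftLeft (nat_lit 0x2003) (nat_lit 101)) (.one (nat_lit 0x400500700f010800a00e01e020650)) (.br (Nat.shiftLeft (nat_lit 0x5) (nat_lit 112)) (.one (nat_lit 0x400600700f010800c00e01e020650)) (.one (nat_lit 0x500000700f010a00000e01e020411))))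
def t110 : k110.all (jb2 57 fl b0) = true := by decide +kernel
noncomputable def k111 : KT := (.br (Nat.shiftLeft (nat_lit 0xd) (nat_lit 112)) (.br (Nat.shiftLeft (nat_lit 0x9) (nat_lit 112)) (.br (Nat.shiftLeft (nat_lit 0x7) (nat_lit 112)) (.br (Nat.shiftLeft (nat_lit 0x3) (nat_lit 113)) (.one (nat_lit 0x500600700f010a00c00e01e020650)) (.one (nat_lit 0x600000700f010c00000e01e020411))) (.br (Nat.shiftLeft (nat_lit 0x1) (nat_lit 115)) (.one (nat_lit 0x700000700f010e00000e01e020411)) (.one (nat_lit 0x800000700f010000000e01e122411)))) (.br (Nat.shiftLeft (nat_lit 0xb) (nat_lit 112)) (.br (Nat.shiftLeft (nat_lit 0x5) (nat_lit 113)) (.one (nat_lit 0x900000700f010200000e01e122411)) (.one (nat_lit 0xa00000700f010400000e01e122411))) (.br (Nat.shiftLeft (nat_lit 0x3) (nat_lit 114)) (.one (nat_lit 0xb00000700f010600000e01e122411)) (.one (nat_lit 0xc00000700f010800000e01e122411))))) (.br (Nat.shiftLeft (nat_lit 0x1000003) (nat_lit 100)) (.br (Nat.shiftLeft (nat_lit 0xf) (nat_lit 112)) (.br (Nat.shiftLeft (nat_lit 0x7) (nat_lit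 113)) (.one (nat_lit 0xd00000700f010a00000e01e122411)) (.one (nat_lit 0xe00000700f010c00000e01e122411))) (.br (Nat.shiftLeft (nat_lit 0x1) (nat_lit 124)) (.one (nat_lit 0xf00000700f010e00000e01e122411)) (.one (nat_lit 0x100000200700f010000400e03e420511)))) (.br (Nat.shiftLeft (nat_lit 0x1000005) (nat_lit 100)) (.br (Nat.shiftLeft (nat_lit 0x400001) (nat_lit 102)) (.one (nat_lit 0x100000300700f010000600e03e420511)) (.one (nat_lit 0x100000400700f010000800e03e420511))) (.br (Nat.shiftLeft (nat_lit 0x800003) (nat_lit 101)) (.one (nat_lit 0x100000500700f010000a00e03e420511)) (.one (nat_lit 0x100000600700f010000c00e03e420511))))))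
def t111 : k111.all (jb2 57 fl b0) = true := by decide +kernel
noncomputable def k112 : KT := (.br (Nat.shiftLeft (nat_lit 0xc00001) (nat_lit 102)) (.br (Nat.shiftLeft (nat_lit 0x2000005) (nat_lit 100)) (.br (Nat.shiftLeft (nat_lit 0x2000003) (nat_lit 100)) (.br (Nat.shiftLeft (nat_lit 0x1) (nat_lit 125)) (.one (nat_lit 0x100200300700f010400600e03e420760)) (.one (nat_lit 0x200000200700f010000400e05e820511))) (.br (Nat.shiftLeft (nat_lit 0x800001) (nat_lit 102)) (.one (nat_lit 0x200000300700f010000600e05e820511)) (.one (nat_lit 0x200000400700f010000800e05e820511)))) (.br (Nat.shiftLeft (nat_lit 0x3) (nat_lit 124)) (.br (Nat.shiftLeft (nat_lit 0x1000003) (nat_lit 101)) (.one (nat_lit 0x200000500700f010000a00e05e820511)) (.one (nat_lit 0x200000600700f010000c00e05e820511))) (.br (Nat.shiftLeft (nat_lit 0x3000003) (nat_lit 100)) (.one (nat_lit 0x300000200700f010000400e07ec20511)) (.one (nat_lit 0x300000300700f010000600e07ec20511))))) (.br (Nat.shiftLeft (nat_lit 0x4000003) (nat_lit 100)) (.br (Nat.shiftLeft (nat_lit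 0x1800003) (nat_lit 101)) (.br (Nat.shiftLeft (nat_lit 0x3000005) (nat_lit 100)) (.one (nat_lit 0x300000400700f010000800e07ec20511)) (.one (nat_lit 0x300000500700f010000a00e07ec20511))) (.br (Nat.shiftLeft (nat_lit 0x1) (nat_lit 126)) (.one (nat_lit 0x300000600700f010000c00e07ec20511)) (.one (nat_lit 0x400000200700f010000400e09f020511)))) (.br (Nat.shiftLeft (nat_lit 0x4000005) (nat_lit 100)) (.br (Nat.shiftLeft (nat_lit 0x1000001) (nat_lit 102)) (.one (nat_lit 0x400000300700f010000600e09f020511)) (.one (nat_lit 0x400000400700f010000800e09f020511))) (.br (Nat.shiftLeft (nat_lit 0x2000003) (nat_lit 101)) (.one (nat_lit 0x400000500700f010000a00e09f020511)) (.one (nat_lit 0x400000600700f010000c00e09f020511))))))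
def t112 : k112.all (jb2 57 fl b0) = true := by decide +kernel
noncomputable def k113 : KT := (.br (Nat.shiftLeft (nat_lit 0x5000005) (nat_lit 100)) (.br (Nat.shiftLeft (nat_lit 0x5000003) (nat_lit 100)) (.one (nat_lit 0x500000200700f010000400e0bf420511)) (.br (Nat.shiftLeft (nat_lit 0x1400001) (nat_lit 102)) (.one (nat_lit 0x500000300700f010000600e0bf420511)) (.one (nat_lit 0x500000400700f010000800e0bf420511)))) (.br (Nat.shiftLeft (nat_lit 0x3) (nat_lit 125)) (.br (Nat.shiftLeft (nat_lit 0x2800003) (nat_lit 101)) (.one (nat_lit 0x500000500700f010000a00e0bf420511)) (.one (nat_lit 0x500000600700f010000c00e0bf420511))) (.br (Nat.shiftLeft (nat_lit 0x6000003) (nat_lit 100)) (.one (nat_lit 0x600000200700f010000400e0df820511)) (.one (nat_lit 0x600000300700f010000600e0df820511)))))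
def t113 : k113.all (jb2 57 fl b0) = true := by decide +kernel
noncomputable def k114 : KT := (.br (Nat.shiftLeft (nat_lit 0x7000003) (nat_lit 100)) (.br (Nat.shiftLeft (nat_lit 0x3000003) (nat_lit 101)) (.br (Nat.shiftLeft (nat_lit 0x6000005) (nat_lit 100)) (.one (nat_lit 0x600000400700f010000800e0df820511)) (.one (nat_lit 0x600000500700f010000a00e0df820511))) (.br (Nat.shiftLeft (nat_lit 0x7) (nat_lit 124)) (.one (nat_lit 0x600000600700f010000c00e0df820511)) (.one (nat_lit 0x700000200700f010000400e0ffc20511)))) (.br (Nat.shiftLeft (nat_lit 0x7000005) (nat_lit 100)) (.br (Nat.shiftLeft (nat_lit 0x1c00001) (nat_lit 102)) (.one (nat_lit 0x700000300700f010000600e0ffc20511)) (.one (nat_lit 0x700000400700f010000800e0ffc20511))) (.br (Nat.shiftLeft (nat_lit 0x3800003) (nat_lit 101)) (.one (nat_lit 0x700000500700f010000a00e0ffc20511)) (.one (nat_lit 0x700000600700f010000c00e0ffc20511)))))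
def t114 : k114.all (jb2 57 fl b0) = true := by decide +kernel
noncomputable def k115 : KT := (.br (Nat.shiftLeft (nat_lit 0x2400001) (nat_lit 102)) (.br (Nat.shiftLeft (nat_lit 0x8000005) (nat_lit 100)) (.br (Nat.shiftLeft (nat_lit 0x8000003) (nat_lit 100)) (.one (nat_lit 0x800000200700f010000400e120020511)) (.br (Nat.shiftLeft (nat_lit 0x2000001) (nat_lit 102)) (.one (nat_lit 0x800000300700f010000600e120020511)) (.one (nat_lit 0x800000400700f010000800e120020511)))) (.br (Nat.shiftLeft (nat_lit 0x9) (nat_lit 124)) (.br (Nat.shiftLeft (nat_lit 0x4000003) (nat_lit 101)) (.one (nat_lit 0x800000500700f010000a00e120020511)) (.one (nat_lit 0x800000600700f010000c00e120020511))) (.br (Nat.shiftLeft (nat_lit 0x9000003) (nat_lit 100)) (.one (nat_lit 0x900000200700f010000400e140420511)) (.one (nat_lit 0x900000300700f010000600e140420511))))) (.br (Nat.shiftLeft (nat_lit 0xa000003) (nat_lit 100)) (.br (Nat.shiftLeft (nat_lit 0x4800003) (nat_lit 101)) (.br (Nat.shiftLeft (nat_lit 0x9000005) (nat_lit 100)) (.one (nat_lit 0x900000400700f010000800e140420511))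 (.one (nat_lit 0x900000500700f010000a00e140420511))) (.br (Nat.shiftLeft (nat_lit 0x5) (nat_lit 125)) (.one (nat_lit 0x900000600700f010000c00e140420511)) (.one (nat_lit 0xa00000200700f010000400e160820511)))) (.br (Nat.shiftLeft (nat_lit 0xa000005) (nat_lit 100)) (.br (Nat.shiftLeft (nat_lit 0x2800001) (nat_lit 102)) (.one (nat_lit 0xa00000300700f010000600e160820511)) (.one (nat_lit 0xa00000400700f010000800e160820511))) (.br (Nat.shiftLeft (nat_lit 0x5000003) (nat_lit 101)) (.one (nat_lit 0xa00000500700f010000a00e160820511)) (.one (nat_lit 0xa00000600700f010000c00e160820511))))))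
def t115 : k115.all (jb2 57 fl b0) = true := by decide +kernel
noncomputable def k116 : KT := (.br (Nat.shiftLeft (nat_lit 0xe000005) (nat_lit 100)) (.br (Nat.shiftLeft (nat_lit 0x6000003) (nat_lit 101)) (.br (Nat.shiftLeft (nat_lit 0x5800003) (nat_lit 101)) (.br (Nat.shiftLeft (nat_lit 0x2c00001) (nat_lit 102)) (.br (Nat.shiftLeft (nat_lit 0xb000003) (nat_lit 100)) (.one (nat_lit 0xb00000200700f010000400e180c20511)) (.one (nat_lit 0xb00000300700f010000600e180c20511))) (.br (Nat.shiftLeft (nat_lit 0xb000005) (nat_lit 100)) (.one (nat_lit 0xb00000400700f010000800e180c20511)) (.one (nat_lit 0xb00000500700f010000a00e180c20511)))) (.br (Nat.shiftLeft (nat_lit 0xc000003) (nat_lit 100)) (.br (Nat.shiftLeft (nat_lit 0x3) (nat_lit 126)) (.one (nat_lit 0xb00000600700f010000c00e180c20511)) (.one (nat_lit 0xc00000200700f010000400e1a1020511))) (.br (Nat.shiftLeft (nat_lit 0x3000001) (nat_lit 102)) (.one (nat_lit 0xc00000300700f010000600e1a1020511)) (.br (Nat.shiftLeft (nat_lit 0xc000005) (nat_lit 100)) (.one (nat_lit 0xc00000400700f010000800e1a1020511))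 (.one (nat_lit 0xc00000500700f010000a00e1a1020511)))))) (.br (Nat.shiftLeft (nat_lit 0xd000005) (nat_lit 100)) (.br (Nat.shiftLeft (nat_lit 0xd000003) (nat_lit 100)) (.br (Nat.shiftLeft (nat_lit 0xd) (nat_lit 124)) (.one (nat_lit 0xc00000600700f010000c00e1a1020511)) (.one (nat_lit 0xd00000200700f010000400e1c1420511))) (.br (Nat.shiftLeft (nat_lit 0x3400001) (nat_lit 102)) (.one (nat_lit 0xd00000300700f010000600e1c1420511)) (.one (nat_lit 0xd00000400700f010000800e1c1420511)))) (.br (Nat.shiftLeft (nat_lit 0x7) (nat_lit 125)) (.br (Nat.shiftLeft (nat_lit 0x6800003) (nat_lit 101)) (.one (nat_lit 0xd00000500700f010000a00e1c1420511)) (.one (nat_lit 0xd00000600700f010000c00e1c1420511))) (.br (Nat.shiftLeft (nat_lit 0xe000003) (nat_lit 100)) (.one (nat_lit 0xe00000200700f010000400e1e1820511)) (.br (Nat.shiftLeft (nat_lit 0x3800001) (nat_lit 102)) (.one (nat_lit 0xe00000300700f010000600e1e1820511)) (.one (nat_lit 0xe00000400700f010000800e1e1820511))))))) (.br (Nat.shiftLeft (nat_lit 0x3) (nat_lit 137)) (.br (Nat.shiftLeft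 (nat_lit 0x1) (nat_lit 136)) (.br (Nat.shiftLeft (nat_lit 0xf000003) (nat_lit 100)) (.br (Nat.shiftLeft (nat_lit 0xf) (nat_lit 124)) (.one (nat_lit 0xe00000500700f010000a00e1e1820511)) (.one (nat_lit 0xf00000200700f010000400e201c20511))) (.br (Nat.shiftLeft (nat_lit 0x3c00001) (nat_lit 102)) (.one (nat_lit 0xf00000300700f010000600e201c20511)) (.one (nat_lit 0xf00000400700f010000800e201c20511)))) (.br (Nat.shiftLeft (nat_lit 0x3) (nat_lit 136)) (.br (Nat.shiftLeft (nat_lit 0x1) (nat_lit 137)) (.one (nat_lit 0x100000200300700f010400602e41e020611)) (.one (nat_lit 0x200000200300700f010400604e81e020611))) (.br (Nat.shiftLeft (nat_lit 0x1) (nat_lit 138)) (.one (nat_lit 0x300000200300700f010400606ec1e020611)) (.br (Nat.shiftLeft (nat_lit 0x5) (nat_lit 136)) (.one (nat_lit 0x400000200300700f010400608f01e020611)) (.one (nat_lit 0x500000200300700f01040060af41e020611)))))) (.br (Nat.shiftLeft (nat_lit 0x5) (nat_lit 137)) (.br (Nat.shiftLeft (nat_lit 0x1) (nat_lit 139)) (.br (Nat.shiftLeft (nat_lit 0x7) (nat_lit 136)) (.one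 (nat_lit 0x600000200300700f01040060cf81e020611)) (.one (nat_lit 0x700000200300700f01040060efc1e020611))) (.br (Nat.shiftLeft (nat_lit 0x9) (nat_lit 136)) (.one (nat_lit 0x800000200300700f010400611001e020611)) (.one (nat_lit 0x900000200300700f010400613041e020611)))) (.br (Nat.shiftLeft (nat_lit 0x3) (nat_lit 138)) (.br (Nat.shiftLeft (nat_lit 0xb) (nat_lit 136)) (.one (nat_lit 0xa00000200300700f010400615081e020611)) (.one (nat_lit 0xb00000200300700f0104006170c1e020611))) (.br (Nat.shiftLeft (nat_lit 0xd) (nat_lit 136)) (.one (nat_lit 0xc00000200300700f010400619101e020611)) (.br (Nat.shiftLeft (nat_lit 0x7) (nat_lit 137)) (.one (nat_lit 0xd00000200300700f01040061b141e020611)) (.one (nat_lit 0xe00000200300700f01040061d181e020611))))))))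
def t116 : k116.all (jb2 57 fl b0) = true := by decide +kernel
noncomputable def s5 : KT := (.br (nat_lit 0x300400700f010600800e01e020650) (.br (nat_lit 0x100400700f010200800e01e020650) (.br (nat_lit 0x100200700f010200400e01e020650) (.br (nat_lit 0x100000700f010200000e01e020411) k101 k102) (.br (nat_lit 0x100300700f010200600e01e020650) k103 k104)) (.br (nat_lit 0x200400700f010400800e01e020650) (.br (nat_lit 0x200300700f010400600e01e021600) k105 k106) (.br (nat_lit 0x300000700f010600000e01e020411) k107 k108))) (.br (nat_lit 0x400000600700f010000c00e09f020511) (.br (nat_lit 0x500000700f010a00000e01e020411) (.br (nat_lit 0x400000700f010800000e01e020411) k109 k110) (.br (nat_lit 0x100000600700f010000c00e03e420511) k111 k112)) (.br (nat_lit 0x700000600700f010000c00e0ffc20511) (.br (nat_lit 0x600000300700f010000600e0df820511) k113 k114) (.br (nat_lit 0xa00000600700f010000c00e160820511) k115 k116))))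
noncomputable def u5 : KT := (.one (nat_lit 0x700f010000000e01e020430))
def w5 : u5.all (wj 57 s5) = true := by decide +kernel
def o5 : OkW 57 (jb2 57 fl) u5 := .lift s5 _ (.br _ _ _ (.br _ _ _ (.br _ _ _ (.br _ _ _ (.leaf b0 k101 t101) (.leaf b0 k102 t102)) (.br _ _ _ (.leaf b0 k103 t103) (.leaf b0 k104 t104))) (.br _ _ _ (.br _ _ _ (.leaf b0 k105 t105) (.leaf b0 k106 t106)) (.br _ _ _ (.leaf b0 k107 t107) (.leaf b0 k108 t108)))) (.br _ _ _ (.br _ _ _ (.br _ _ _ (.leaf b0 k109 t109) (.leaf b0 k110 t110)) (.br _ _ _ (.leaf b0 k111 t111) (.leaf b0 k112 t112))) (.br _ _ _ (.br _ _ _ (.leaf b0 k113 t113) (.leaf b0 k114 t114)) (.br _ _ _ (.leaf b0 k115 t115) (.leaf b0 k116 t116))))) w5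
noncomputable def k117 : KT := (.br (Nat.shiftLeft (nat_lit 0x3807809) (nat_lit 65)) (.one (nat_lit 0x700f011000000e01e023400)) (.br (Nat.shiftLeft (nat_lit 0x1) (nat_lit 100)) (.one (nat_lit 0x700f012000000e01e025400)) (.one (nat_lit 0x100700f011000200e01e022540))))
def t117 : k117.all (jb2 57 fl b0) = true := by decide +kernel
noncomputable def k118 : KT := (.br (Nat.shiftLeft (nat_lit 0x2003807809) (nat_lit 65)) (.br (Nat.shiftLeft (nat_lit 0x3) (nat_lit 100)) (.br (Nat.shiftLeft (nat_lit 0x1) (nat_lit 101)) (.one (nat_lit 0x100700f012000200e01e024540)) (.br (Nat.shiftLeft (nat_lit 0x1003807809) (nat_lit 65)) (.one (nat_lit 0x200700f011000400e01e023500)) (.one (nat_lit 0x200700f012000400e01e025500)))) (.br (Nat.shiftLeft (nat_lit 0x1803807809) (nat_lit 65)) (.one (nat_lit 0x300700f011000600e01e023500)) (.br (Nat.shiftLeft (nat_lit 0x1) (nat_lit 102)) (.one (nat_lit 0x300700f012000600e01e025500)) (.one (nat_lit 0x400700f011000800e01e023500))))) (.br (Nat.shiftLeft (nat_lit 0x3) (nat_lit 101)) (.br (Nat.shiftLeft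 (nat_lit 0x5) (nat_lit 100)) (.one (nat_lit 0x400700f012000800e01e025500)) (.br (Nat.shiftLeft (nat_lit 0x2803807809) (nat_lit 65)) (.one (nat_lit 0x500700f011000a00e01e023500)) (.one (nat_lit 0x500700f012000a00e01e025500)))) (.br (Nat.shiftLeft (nat_lit 0x1) (nat_lit 112)) (.br (Nat.shiftLeft (nat_lit 0x3003807809) (nat_lit 65)) (.one (nat_lit 0x600700f011000c00e01e023500)) (.one (nat_lit 0x600700f012000c00e01e025500))) (.br (Nat.shiftLeft (nat_lit 0x800003807809) (nat_lit 65)) (.one (nat_lit 0x100000700f011200000e01e022411)) (.one (nat_lit 0x100000700f012200000e01e024411))))))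
def t118 : k118.all (jb2 57 fl b0) = true := by decide +kernel
noncomputable def k119 : KT := (.one (nat_lit 0x100200700f011200400e01e022650))
def t119 : k119.all (jb2 57 fl b0) = true := by decide +kernel
noncomputable def k120 : KT := (.one (nat_lit 0x100200700f012200400e01e024650))
def t120 : k120.all (jb2 57 fl b0) = true := by decide +kernel
noncomputable def k121 : KT := (.one (nat_lit 0x100300700f011200600e01e022650))
def t121 : k121.all (jb2 57 fl b0) = true := by decide +kernel
noncomputable def k122 : KT := (.br (Nat.shiftLeft (nat_lit 0x401) (nat_lit 102)) (.one (nat_lit 0x100300700f012200600e01e024650)) (.one (nat_lit 0x100400700f011200800e01e022650)))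
def t122 : k122.all (jb2 57 fl b0) = true := by decide +kernel
noncomputable def k123 : KT := (.br (Nat.shiftLeft (nat_lit 0x1005) (nat_lit 100)) (.one (nat_lit 0x100400700f012200800e01e024650)) (.br (Nat.shiftLeft (nat_lit 0x802803807809) (nat_lit 65)) (.one (nat_lit 0x100500700f011200a00e01e022650)) (.one (nat_lit 0x100500700f012200a00e01e024650))))
def t123 : k123.all (jb2 57 fl b0) = true := by decide +kernel
noncomputable def k124 : KT := (.br (Nat.shiftLeft (nat_lit 0x1) (nat_lit 113)) (.br (Nat.shiftLeft (nat_lit 0x803003807809) (nat_lit 65)) (.one (nat_lit 0x100600700f011200c00e01e022650)) (.one (nat_lit 0x100600700f012200c00e01e024650))) (.br (Nat.shiftLeft (nat_lit 0x1000003807809) (nat_lit 65)) (.one (nat_lit 0x200000700f011400000e01e022411)) (.one (nat_lit 0x200000700f012400000e01e024411))))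
def t124 : k124.all (jb2 57 fl b0) = true := by decide +kernel
noncomputable def k125 : KT := (.one (nat_lit 0x200300700f011400600e01e022650))
def t125 : k125.all (jb2 57 fl b0) = true := by decide +kernel
noncomputable def k126 : KT := (.one (nat_lit 0x200300700f012400600e01e024650))
def t126 : k126.all (jb2 57 fl b0) = true := by decide +kernel
noncomputable def k127 : KT := (.br (Nat.shiftLeft (nat_lit 0x1002003807809) (nat_lit 65)) (.one (nat_lit 0x200400700f011400800e01e022650)) (.one (nat_lit 0x200400700f012400800e01e024650)))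
def t127 : k127.all (jb2 57 fl b0) = true := by decide +kernel
noncomputable def k128 : KT := (.br (Nat.shiftLeft (nat_lit 0x1002803807809) (nat_lit 65)) (.one (nat_lit 0x200500700f011400a00e01e022650)) (.br (Nat.shiftLeft (nat_lit 0x1003) (nat_lit 101)) (.one (nat_lit 0x200500700f012400a00e01e024650)) (.one (nat_lit 0x200600700f011400c00e01e022650))))
def t128 : k128.all (jb2 57 fl b0) = true := by decide +kernel
noncomputable def k129 : KT := (.br (Nat.shiftLeft (nat_lit 0x1800003807809) (nat_lit 65)) (.br (Nat.shiftLeft (nat_lit 0x3) (nat_lit 112)) (.one (nat_lit 0x200600700f012400c00e01e024650)) (.one (nat_lit 0x300000700f011600000e01e022411))) (.br (Nat.shiftLeft (nat_lit 0xc01) (nat_lit 102)) (.one (nat_lit 0x300000700f012600000e01e024411)) (.one (nat_lit 0x300400700f011600800e01e022650))))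
def t129 : k129.all (jb2 57 fl b0) = true := by decide +kernel
noncomputable def k130 : KT := (.br (Nat.shiftLeft (nat_lit 0x3005) (nat_lit 100)) (.one (nat_lit 0x300400700f012600800e01e024650)) (.one (nat_lit 0x300500700f011600a00e01e022650)))
def t130 : k130.all (jb2 57 fl b0) = true := by decide +kernel
noncomputable def k131 : KT := (.br (Nat.shiftLeft (nat_lit 0x1803003807809) (nat_lit 65)) (.br (Nat.shiftLeft (nat_lit 0x1803) (nat_lit 101)) (.one (nat_lit 0x300500700f012600a00e01e024650)) (.one (nat_lit 0x300600700f011600c00e01e022650))) (.br (Nat.shiftLeft (nat_lit 0x1) (nat_lit 114)) (.one (nat_lit 0x300600700f012600c00e01e024650)) (.br (Nat.shiftLeft (nat_lit 0x2000003807809) (nat_lit 65)) (.one (nat_lit 0x400000700f011800000e01e022411)) (.one (nat_lit 0x400000700f012800000e01e024411)))))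
def t131 : k131.all (jb2 57 fl b0) = true := by decide +kernel
noncomputable def k132 : KT := (.br (Nat.shiftLeft (nat_lit 0x2002803807809) (nat_lit 65)) (.one (nat_lit 0x400500700f011800a00e01e022650)) (.br (Nat.shiftLeft (nat_lit 0x2003) (nat_lit 101)) (.one (nat_lit 0x400500700f012800a00e01e024650)) (.one (nat_lit 0x400600700f011800c00e01e022650))))
def t132 : k132.all (jb2 57 fl b0) = true := by decide +kernel
noncomputable def k133 : KT := (.br (Nat.shiftLeft (nat_lit 0x7) (nat_lit 112)) (.br (Nat.shiftLeft (nat_lit 0x1401) (nat_lit 102)) (.br (Nat.shiftLeft (nat_lit 0x5) (nat_lit 112)) (.one (nat_lit 0x400600700f012800c00e01e024650)) (.br (Nat.shiftLeft (nat_lit 0x2800003807809) (nat_lit 65)) (.one (nat_lit 0x500000700f011a00000e01e022411)) (.one (nat_lit 0x500000700f012a00000e01e024411)))) (.br (Nat.shiftLeft (nat_lit 0x3) (nat_lit 113)) (.br (Nat.shiftLeft (nat_lit 0x2803003807809) (nat_lit 65)) (.one (nat_lit 0x500600700f011a00c00e01e022650)) (.one (nat_lit 0x500600700f012a00c00e01e024650))) (.br (Nat.shiftLeft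 (nat_lit 0x3000003807809) (nat_lit 65)) (.one (nat_lit 0x600000700f011c00000e01e022411)) (.one (nat_lit 0x600000700f012c00000e01e024411))))) (.br (Nat.shiftLeft (nat_lit 0x4000003807809) (nat_lit 65)) (.br (Nat.shiftLeft (nat_lit 0x3800003807809) (nat_lit 65)) (.one (nat_lit 0x700000700f011e00000e01e022411)) (.br (Nat.shiftLeft (nat_lit 0x1) (nat_lit 115)) (.one (nat_lit 0x700000700f012e00000e01e024411)) (.one (nat_lit 0x800000700f011000000e01e124411)))) (.br (Nat.shiftLeft (nat_lit 0x4800003807809) (nat_lit 65)) (.br (Nat.shiftLeft (nat_lit 0x9) (nat_lit 112)) (.one (nat_lit 0x800000700f012000000e01e126411)) (.one (nat_lit 0x900000700f011200000e01e124411))) (.br (Nat.shiftLeft (nat_lit 0x5) (nat_lit 113)) (.one (nat_lit 0x900000700f012200000e01e126411)) (.one (nat_lit 0xa00000700f011400000e01e124411))))))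
def t133 : k133.all (jb2 57 fl b0) = true := by decide +kernel
noncomputable def k134 : KT := (.br (Nat.shiftLeft (nat_lit 0x800003003807809) (nat_lit 65)) (.br (Nat.shiftLeft (nat_lit 0x7800003807809) (nat_lit 65)) (.br (Nat.shiftLeft (nat_lit 0xd) (nat_lit 112)) (.br (Nat.shiftLeft (nat_lit 0x5800003807809) (nat_lit 65)) (.br (Nat.shiftLeft (nat_lit 0xb) (nat_lit 112)) (.one (nat_lit 0xa00000700f012400000e01e126411)) (.one (nat_lit 0xb00000700f011600000e01e124411))) (.br (Nat.shiftLeft (nat_lit 0x3) (nat_lit 114)) (.one (nat_lit 0xb00000700f012600000e01e126411)) (.br (Nat.shiftLeft (nat_lit 0x6000003807809) (nat_lit 65)) (.one (nat_lit 0xc00000700f011800000e01e124411)) (.one (nat_lit 0xc00000700f012800000e01e126411))))) (.br (Nat.shiftLeft (nat_lit 0x7) (nat_lit 113)) (.br (Nat.shiftLeft (nat_lit 0x6800003807809) (nat_lit 65)) (.one (nat_lit 0xd00000700f011a00000e01e124411)) (.one (nat_lit 0xd00000700f012a00000e01e126411))) (.br (Nat.shiftLeft (nat_lit 0x7000003807809) (nat_lit 65)) (.one (nat_lit 0xe00000700f011c00000e01e124411))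 (.br (Nat.shiftLeft (nat_lit 0xf) (nat_lit 112)) (.one (nat_lit 0xe00000700f012c00000e01e126411)) (.one (nat_lit 0xf00000700f011e00000e01e124411)))))) (.br (Nat.shiftLeft (nat_lit 0x400001) (nat_lit 102)) (.br (Nat.shiftLeft (nat_lit 0x800001003807809) (nat_lit 65)) (.br (Nat.shiftLeft (nat_lit 0x1) (nat_lit 124)) (.one (nat_lit 0xf00000700f012e00000e01e126411)) (.one (nat_lit 0x100000200700f011000400e03e422511))) (.br (Nat.shiftLeft (nat_lit 0x1000003) (nat_lit 100)) (.one (nat_lit 0x100000200700f012000400e03e424511)) (.br (Nat.shiftLeft (nat_lit 0x800001803807809) (nat_lit 65)) (.one (nat_lit 0x100000300700f011000600e03e422511)) (.one (nat_lit 0x100000300700f012000600e03e424511))))) (.br (Nat.shiftLeft (nat_lit 0x1000005) (nat_lit 100)) (.br (Nat.shiftLeft (nat_lit 0x800002003807809) (nat_lit 65)) (.one (nat_lit 0x100000400700f011000800e03e422511)) (.one (nat_lit 0x100000400700f012000800e03e424511))) (.br (Nat.shiftLeft (nat_lit 0x800002803807809) (nat_lit 65)) (.one (nat_lit 0x100000500700f011000a00e03e422511))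 (.br (Nat.shiftLeft (nat_lit 0x800003) (nat_lit 101)) (.one (nat_lit 0x100000500700f012000a00e03e424511)) (.one (nat_lit 0x100000600700f011000c00e03e422511))))))) (.br (Nat.shiftLeft (nat_lit 0x1000003003807809) (nat_lit 65)) (.br (Nat.shiftLeft (nat_lit 0x800001) (nat_lit 102)) (.br (Nat.shiftLeft (nat_lit 0x1000001003807809) (nat_lit 65)) (.br (Nat.shiftLeft (nat_lit 0x1) (nat_lit 125)) (.one (nat_lit 0x100000600700f012000c00e03e424511)) (.one (nat_lit 0x200000200700f011000400e05e822511))) (.br (Nat.shiftLeft (nat_lit 0x2000003) (nat_lit 100)) (.one (nat_lit 0x200000200700f012000400e05e824511)) (.br (Nat.shiftLeft (nat_lit 0x1000001803807809) (nat_lit 65)) (.one (nat_lit 0x200000300700f011000600e05e822511)) (.one (nat_lit 0x200000300700f012000600e05e824511))))) (.br (Nat.shiftLeft (nat_lit 0x2000005) (nat_lit 100)) (.br (Nat.shiftLeft (nat_lit 0x1000002003807809) (nat_lit 65)) (.one (nat_lit 0x200000400700f011000800e05e822511)) (.one (nat_lit 0x200000400700f012000800e05e824511))) (.br (Nat.shiftLeft (nat_lit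 0x1000002803807809) (nat_lit 65)) (.one (nat_lit 0x200000500700f011000a00e05e822511)) (.br (Nat.shiftLeft (nat_lit 0x1000003) (nat_lit 101)) (.one (nat_lit 0x200000500700f012000a00e05e824511)) (.one (nat_lit 0x200000600700f011000c00e05e822511)))))) (.br (Nat.shiftLeft (nat_lit 0xc00001) (nat_lit 102)) (.br (Nat.shiftLeft (nat_lit 0x1800001003807809) (nat_lit 65)) (.br (Nat.shiftLeft (nat_lit 0x3) (nat_lit 124)) (.one (nat_lit 0x200000600700f012000c00e05e824511)) (.one (nat_lit 0x300000200700f011000400e07ec22511))) (.br (Nat.shiftLeft (nat_lit 0x3000003) (nat_lit 100)) (.one (nat_lit 0x300000200700f012000400e07ec24511)) (.br (Nat.shiftLeft (nat_lit 0x1800001803807809) (nat_lit 65)) (.one (nat_lit 0x300000300700f011000600e07ec22511)) (.one (nat_lit 0x300000300700f012000600e07ec24511))))) (.br (Nat.shiftLeft (nat_lit 0x3000005) (nat_lit 100)) (.br (Nat.shiftLeft (nat_lit 0x1800002003807809) (nat_lit 65)) (.one (nat_lit 0x300000400700f011000800e07ec22511)) (.one (nat_lit 0x300000400700f012000800e07ec24511))) (.br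 (Nat.shiftLeft (nat_lit 0x1800002803807809) (nat_lit 65)) (.one (nat_lit 0x300000500700f011000a00e07ec22511)) (.br (Nat.shiftLeft (nat_lit 0x1800003) (nat_lit 101)) (.one (nat_lit 0x300000500700f012000a00e07ec24511)) (.one (nat_lit 0x300000600700f011000c00e07ec22511))))))))
def t134 : k134.all (jb2 57 fl b0) = true := by decide +kernel
noncomputable def k135 : KT := (.br (Nat.shiftLeft (nat_lit 0x4000005) (nat_lit 100)) (.br (Nat.shiftLeft (nat_lit 0x4000003) (nat_lit 100)) (.br (Nat.shiftLeft (nat_lit 0x1) (nat_lit 126)) (.one (nat_lit 0x300000600700f012000c00e07ec24511)) (.br (Nat.shiftLeft (nat_lit 0x2000001003807809) (nat_lit 65)) (.one (nat_lit 0x400000200700f011000400e09f022511)) (.one (nat_lit 0x400000200700f012000400e09f024511)))) (.br (Nat.shiftLeft (nat_lit 0x1000001) (nat_lit 102)) (.br (Nat.shiftLeft (nat_lit 0x2000001803807809) (nat_lit 65)) (.one (nat_lit 0x400000300700f011000600e09f022511)) (.one (nat_lit 0x400000300700f012000600e09f024511))) (.br (Nat.shiftLeft (nat_lit 0x2000002003807809) (nat_lit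 65)) (.one (nat_lit 0x400000400700f011000800e09f022511)) (.one (nat_lit 0x400000400700f012000800e09f024511))))) (.br (Nat.shiftLeft (nat_lit 0x2000003003807809) (nat_lit 65)) (.br (Nat.shiftLeft (nat_lit 0x2000002803807809) (nat_lit 65)) (.one (nat_lit 0x400000500700f011000a00e09f022511)) (.br (Nat.shiftLeft (nat_lit 0x2000003) (nat_lit 101)) (.one (nat_lit 0x400000500700f012000a00e09f024511)) (.one (nat_lit 0x400000600700f011000c00e09f022511)))) (.br (Nat.shiftLeft (nat_lit 0x2800001003807809) (nat_lit 65)) (.br (Nat.shiftLeft (nat_lit 0x5) (nat_lit 124)) (.one (nat_lit 0x400000600700f012000c00e09f024511)) (.one (nat_lit 0x500000200700f011000400e0bf422511))) (.br (Nat.shiftLeft (nat_lit 0x5000003) (nat_lit 100)) (.one (nat_lit 0x500000200700f012000400e0bf424511)) (.one (nat_lit 0x500000300700f011000600e0bf422511))))))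
def t135 : k135.all (jb2 57 fl b0) = true := by decide +kernel
noncomputable def k136 : KT := (.br (Nat.shiftLeft (nat_lit 0x2800003) (nat_lit 101)) (.br (Nat.shiftLeft (nat_lit 0x2800002003807809) (nat_lit 65)) (.br (Nat.shiftLeft (nat_lit 0x1400001) (nat_lit 102)) (.one (nat_lit 0x500000300700f012000600e0bf424511)) (.one (nat_lit 0x500000400700f011000800e0bf422511))) (.br (Nat.shiftLeft (nat_lit 0x5000005) (nat_lit 100)) (.one (nat_lit 0x500000400700f012000800e0bf424511)) (.br (Nat.shiftLeft (nat_lit 0x2800002803807809) (nat_lit 65)) (.one (nat_lit 0x500000500700f011000a00e0bf422511)) (.one (nat_lit 0x500000500700f012000a00e0bf424511))))) (.br (Nat.shiftLeft (nat_lit 0x3) (nat_lit 125)) (.br (Nat.shiftLeft (nat_lit 0x2800003003807809) (nat_lit 65)) (.one (nat_lit 0x500000600700f011000c00e0bf422511)) (.one (nat_lit 0x500000600700f012000c00e0bf424511))) (.br (Nat.shiftLeft (nat_lit 0x3000001003807809) (nat_lit 65)) (.one (nat_lit 0x600000200700f011000400e0df822511)) (.br (Nat.shiftLeft (nat_lit 0x6000003) (nat_lit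 100)) (.one (nat_lit 0x600000200700f012000400e0df824511)) (.one (nat_lit 0x600000300700f011000600e0df822511))))))
def t136 : k136.all (jb2 57 fl b0) = true := by decide +kernel
noncomputable def k137 : KT := (.br (Nat.shiftLeft (nat_lit 0x3000003) (nat_lit 101)) (.br (Nat.shiftLeft (nat_lit 0x3000002003807809) (nat_lit 65)) (.br (Nat.shiftLeft (nat_lit 0x1800001) (nat_lit 102)) (.one (nat_lit 0x600000300700f012000600e0df824511)) (.one (nat_lit 0x600000400700f011000800e0df822511))) (.br (Nat.shiftLeft (nat_lit 0x6000005) (nat_lit 100)) (.one (nat_lit 0x600000400700f012000800e0df824511)) (.br (Nat.shiftLeft (nat_lit 0x3000002803807809) (nat_lit 65)) (.one (nat_lit 0x600000500700f011000a00e0df822511)) (.one (nat_lit 0x600000500700f012000a00e0df824511))))) (.br (Nat.shiftLeft (nat_lit 0x3800001003807809) (nat_lit 65)) (.br (Nat.shiftLeft (nat_lit 0x3000003003807809) (nat_lit 65)) (.one (nat_lit 0x600000600700f011000c00e0df822511)) (.br (Nat.shiftLeft (nat_lit 0x7) (nat_lit 124)) (.one (nat_lit 0x600000600700f012000c00e0df824511))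 (.one (nat_lit 0x700000200700f011000400e0ffc22511)))) (.br (Nat.shiftLeft (nat_lit 0x7000003) (nat_lit 100)) (.one (nat_lit 0x700000200700f012000400e0ffc24511)) (.br (Nat.shiftLeft (nat_lit 0x3800001803807809) (nat_lit 65)) (.one (nat_lit 0x700000300700f011000600e0ffc22511)) (.one (nat_lit 0x700000300700f012000600e0ffc24511))))))
def t137 : k137.all (jb2 57 fl b0) = true := by decide +kernel
noncomputable def k138 : KT := (.br (Nat.shiftLeft (nat_lit 0x4000001803807809) (nat_lit 65)) (.br (Nat.shiftLeft (nat_lit 0x3800003) (nat_lit 101)) (.br (Nat.shiftLeft (nat_lit 0x7000005) (nat_lit 100)) (.br (Nat.shiftLeft (nat_lit 0x3800002003807809) (nat_lit 65)) (.one (nat_lit 0x700000400700f011000800e0ffc22511)) (.one (nat_lit 0x700000400700f012000800e0ffc24511))) (.br (Nat.shiftLeft (nat_lit 0x3800002803807809) (nat_lit 65)) (.one (nat_lit 0x700000500700f011000a00e0ffc22511)) (.one (nat_lit 0x700000500700f012000a00e0ffc24511)))) (.br (Nat.shiftLeft (nat_lit 0x1) (nat_lit 127)) (.br (Nat.shiftLeft (nat_lit 0x3800003003807809)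 (nat_lit 65)) (.one (nat_lit 0x700000600700f011000c00e0ffc22511)) (.one (nat_lit 0x700000600700f012000c00e0ffc24511))) (.br (Nat.shiftLeft (nat_lit 0x4000001003807809) (nat_lit 65)) (.one (nat_lit 0x800000200700f011000400e120022511)) (.br (Nat.shiftLeft (nat_lit 0x8000003) (nat_lit 100)) (.one (nat_lit 0x800000200700f012000400e120024511)) (.one (nat_lit 0x800000300700f011000600e120022511)))))) (.br (Nat.shiftLeft (nat_lit 0x4000002803807809) (nat_lit 65)) (.br (Nat.shiftLeft (nat_lit 0x4000002003807809) (nat_lit 65)) (.br (Nat.shiftLeft (nat_lit 0x2000001) (nat_lit 102)) (.one (nat_lit 0x800000300700f012000600e120024511)) (.one (nat_lit 0x800000400700f011000800e120022511))) (.br (Nat.shiftLeft (nat_lit 0x8000005) (nat_lit 100)) (.one (nat_lit 0x800000400700f012000800e120024511)) (.one (nat_lit 0x800000500700f011000a00e120022511)))) (.br (Nat.shiftLeft (nat_lit 0x4000003003807809) (nat_lit 65)) (.br (Nat.shiftLeft (nat_lit 0x4000003) (nat_lit 101)) (.one (nat_lit 0x800000500700f012000a00e120024511)) (.one (nat_lit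 0x800000600700f011000c00e120022511))) (.br (Nat.shiftLeft (nat_lit 0x9) (nat_lit 124)) (.one (nat_lit 0x800000600700f012000c00e120024511)) (.br (Nat.shiftLeft (nat_lit 0x4800001003807809) (nat_lit 65)) (.one (nat_lit 0x900000200700f011000400e140422511)) (.one (nat_lit 0x900000200700f012000400e140424511)))))))
def t138 : k138.all (jb2 57 fl b0) = true := by decide +kernel
noncomputable def k139 : KT := (.br (Nat.shiftLeft (nat_lit 0xb000003) (nat_lit 100)) (.br (Nat.shiftLeft (nat_lit 0xa000003) (nat_lit 100)) (.br (Nat.shiftLeft (nat_lit 0x4800002803807809) (nat_lit 65)) (.br (Nat.shiftLeft (nat_lit 0x2400001) (nat_lit 102)) (.br (Nat.shiftLeft (nat_lit 0x4800001803807809) (nat_lit 65)) (.one (nat_lit 0x900000300700f011000600e140422511)) (.one (nat_lit 0x900000300700f012000600e140424511))) (.br (Nat.shiftLeft (nat_lit 0x4800002003807809) (nat_lit 65)) (.one (nat_lit 0x900000400700f011000800e140422511)) (.br (Nat.shiftLeft (nat_lit 0x9000005) (nat_lit 100)) (.one (nat_lit 0x900000400700f012000800e140424511)) (.one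 (nat_lit 0x900000500700f011000a00e140422511))))) (.br (Nat.shiftLeft (nat_lit 0x4800003003807809) (nat_lit 65)) (.br (Nat.shiftLeft (nat_lit 0x4800003) (nat_lit 101)) (.one (nat_lit 0x900000500700f012000a00e140424511)) (.one (nat_lit 0x900000600700f011000c00e140422511))) (.br (Nat.shiftLeft (nat_lit 0x5) (nat_lit 125)) (.one (nat_lit 0x900000600700f012000c00e140424511)) (.br (Nat.shiftLeft (nat_lit 0x5000001003807809) (nat_lit 65)) (.one (nat_lit 0xa00000200700f011000400e160822511)) (.one (nat_lit 0xa00000200700f012000400e160824511)))))) (.br (Nat.shiftLeft (nat_lit 0x5000002803807809) (nat_lit 65)) (.br (Nat.shiftLeft (nat_lit 0x2800001) (nat_lit 102)) (.br (Nat.shiftLeft (nat_lit 0x5000001803807809) (nat_lit 65)) (.one (nat_lit 0xa00000300700f011000600e160822511)) (.one (nat_lit 0xa00000300700f012000600e160824511))) (.br (Nat.shiftLeft (nat_lit 0x5000002003807809) (nat_lit 65)) (.one (nat_lit 0xa00000400700f011000800e160822511)) (.br (Nat.shiftLeft (nat_lit 0xa000005) (nat_lit 100)) (.one (nat_lit 0xa00000400700f012000800e160824511))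 (.one (nat_lit 0xa00000500700f011000a00e160822511))))) (.br (Nat.shiftLeft (nat_lit 0x5000003003807809) (nat_lit 65)) (.br (Nat.shiftLeft (nat_lit 0x5000003) (nat_lit 101)) (.one (nat_lit 0xa00000500700f012000a00e160824511)) (.one (nat_lit 0xa00000600700f011000c00e160822511))) (.br (Nat.shiftLeft (nat_lit 0xb) (nat_lit 124)) (.one (nat_lit 0xa00000600700f012000c00e160824511)) (.br (Nat.shiftLeft (nat_lit 0x5800001003807809) (nat_lit 65)) (.one (nat_lit 0xb00000200700f011000400e180c22511)) (.one (nat_lit 0xb00000200700f012000400e180c24511))))))) (.br (Nat.shiftLeft (nat_lit 0xc000003) (nat_lit 100)) (.br (Nat.shiftLeft (nat_lit 0x5800002803807809) (nat_lit 65)) (.br (Nat.shiftLeft (nat_lit 0x2c00001) (nat_lit 102)) (.br (Nat.shiftLeft (nat_lit 0x5800001803807809) (nat_lit 65)) (.one (nat_lit 0xb00000300700f011000600e180c22511)) (.one (nat_lit 0xb00000300700f012000600e180c24511))) (.br (Nat.shiftLeft (nat_lit 0x5800002003807809) (nat_lit 65)) (.one (nat_lit 0xb00000400700f011000800e180c22511)) (.br (Nat.shiftLeft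 (nat_lit 0xb000005) (nat_lit 100)) (.one (nat_lit 0xb00000400700f012000800e180c24511)) (.one (nat_lit 0xb00000500700f011000a00e180c22511))))) (.br (Nat.shiftLeft (nat_lit 0x5800003003807809) (nat_lit 65)) (.br (Nat.shiftLeft (nat_lit 0x5800003) (nat_lit 101)) (.one (nat_lit 0xb00000500700f012000a00e180c24511)) (.one (nat_lit 0xb00000600700f011000c00e180c22511))) (.br (Nat.shiftLeft (nat_lit 0x3) (nat_lit 126)) (.one (nat_lit 0xb00000600700f012000c00e180c24511)) (.br (Nat.shiftLeft (nat_lit 0x6000001003807809) (nat_lit 65)) (.one (nat_lit 0xc00000200700f011000400e1a1022511)) (.one (nat_lit 0xc00000200700f012000400e1a1024511)))))) (.br (Nat.shiftLeft (nat_lit 0x6000002803807809) (nat_lit 65)) (.br (Nat.shiftLeft (nat_lit 0x3000001) (nat_lit 102)) (.br (Nat.shiftLeft (nat_lit 0x6000001803807809) (nat_lit 65)) (.one (nat_lit 0xc00000300700f011000600e1a1022511)) (.one (nat_lit 0xc00000300700f012000600e1a1024511))) (.br (Nat.shiftLeft (nat_lit 0x6000002003807809) (nat_lit 65)) (.one (nat_lit 0xc00000400700f011000800e1a1022511))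 (.br (Nat.shiftLeft (nat_lit 0xc000005) (nat_lit 100)) (.one (nat_lit 0xc00000400700f012000800e1a1024511)) (.one (nat_lit 0xc00000500700f011000a00e1a1022511))))) (.br (Nat.shiftLeft (nat_lit 0xd) (nat_lit 124)) (.br (Nat.shiftLeft (nat_lit 0x6000003) (nat_lit 101)) (.one (nat_lit 0xc00000500700f012000a00e1a1024511)) (.one (nat_lit 0xc00000600700f011000c00e1a1022511))) (.br (Nat.shiftLeft (nat_lit 0x6800001003807809) (nat_lit 65)) (.one (nat_lit 0xd00000200700f011000400e1c1422511)) (.br (Nat.shiftLeft (nat_lit 0xd000003) (nat_lit 100)) (.one (nat_lit 0xd00000200700f012000400e1c1424511)) (.one (nat_lit 0xd00000300700f011000600e1c1422511))))))))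
def t139 : k139.all (jb2 57 fl b0) = true := by decide +kernel
noncomputable def k140 : KT := (.br (Nat.shiftLeft (nat_lit 0xe000003) (nat_lit 100)) (.br (Nat.shiftLeft (nat_lit 0xd000005) (nat_lit 100)) (.br (Nat.shiftLeft (nat_lit 0x3400001) (nat_lit 102)) (.one (nat_lit 0xd00000300700f012000600e1c1424511)) (.br (Nat.shiftLeft (nat_lit 0x6800002003807809) (nat_lit 65)) (.one (nat_lit 0xd00000400700f011000800e1c1422511)) (.one (nat_lit 0xd00000400700f012000800e1c1424511)))) (.br (Nat.shiftLeft (nat_lit 0x7) (nat_lit 125)) (.one (nat_lit 0xd00000500700f011000a00e1c1422511)) (.br (Nat.shiftLeft (nat_lit 0x7000001003807809) (nat_lit 65)) (.one (nat_lit 0xe00000200700f011000400e1e1822511)) (.one (nat_lit 0xe00000200700f012000400e1e1824511))))) (.br (Nat.shiftLeft (nat_lit 0xf) (nat_lit 124)) (.br (Nat.shiftLeft (nat_lit 0x7000001803807809) (nat_lit 65)) (.one (nat_lit 0xe00000300700f011000600e1e1822511)) (.br (Nat.shiftLeft (nat_lit 0x3800001) (nat_lit 102)) (.one (nat_lit 0xe00000300700f012000600e1e1824511)) (.one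 (nat_lit 0xe00000400700f011000800e1e1822511)))) (.br (Nat.shiftLeft (nat_lit 0x7800001003807809) (nat_lit 65)) (.one (nat_lit 0xf00000200700f011000400e201c22511)) (.br (Nat.shiftLeft (nat_lit 0xf000003) (nat_lit 100)) (.one (nat_lit 0xf00000200700f012000400e201c24511)) (.one (nat_lit 0xf00000300700f011000600e201c22511))))))
def t140 : k140.all (jb2 57 fl b0) = true := by decide +kernel
noncomputable def s6 : KT := (.br (nat_lit 0x200600700f011400c00e01e022650) (.br (nat_lit 0x100400700f011200800e01e022650) (.br (nat_lit 0x100200700f011200400e01e022650) (.br (nat_lit 0x100700f011000200e01e022540) k117 (.br (nat_lit 0x100000700f012200000e01e024411) k118 k119)) (.br (nat_lit 0x100200700f012200400e01e024650) k120 (.br (nat_lit 0x100300700f011200600e01e022650) k121 k122))) (.br (nat_lit 0x200300700f011400600e01e022650) (.br (nat_lit 0x100500700f012200a00e01e024650) k123 (.br (nat_lit 0x200000700f012400000e01e024411) k124 k125)) (.br (nat_lit 0x200300700f012400600e01e024650) k126 (.br (nat_lit 0x200400700f012400800e01e024650)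 k127 k128)))) (.br (nat_lit 0x300000600700f011000c00e07ec22511) (.br (nat_lit 0x400000700f012800000e01e024411) (.br (nat_lit 0x300400700f011600800e01e022650) k129 (.br (nat_lit 0x300500700f011600a00e01e022650) k130 k131)) (.br (nat_lit 0x400600700f011800c00e01e022650) k132 (.br (nat_lit 0xa00000700f011400000e01e124411) k133 k134))) (.br (nat_lit 0x700000300700f012000600e0ffc24511) (.br (nat_lit 0x500000300700f011000600e0bf422511) k135 (.br (nat_lit 0x600000300700f011000600e0df822511) k136 k137)) (.br (nat_lit 0x900000200700f012000400e140424511) k138 (.br (nat_lit 0xd00000300700f011000600e1c1422511) k139 k140)))))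
noncomputable def u6 : KT := (.br (Nat.shiftLeft (nat_lit 0x3807809) (nat_lit 65)) (.one (nat_lit 0x700f011000000e01e022430)) (.one (nat_lit 0x700f012000000e01e024430)))
def w6 : u6.all (wj 57 s6) = true := by decide +kernel
def o6 : OkW 57 (jb2 57 fl) u6 := .lift s6 _ (.br _ _ _ (.br _ _ _ (.br _ _ _ (.br _ _ _ (.leaf b0 k117 t117) (.br _ _ _ (.leaf b0 k118 t118) (.leaf b0 k119 t119))) (.br _ _ _ (.leaf b0 k120 t120) (.br _ _ _ (.leaf b0 k121 t121) (.leaf b0 k122 t122)))) (.br _ _ _ (.br _ _ _ (.leaf b0 k123 t123) (.br _ _ _ (.leaf b0 k124 t124) (.leaf b0 k125 t125))) (.br _ _ _ (.leaf b0 k126 t126) (.br _ _ _ (.leaf b0 k127 t127) (.leaf b0 k128 t128))))) (.br _ _ _ (.br _ _ _ (.br _ _ _ (.leaf b0 k129 t129) (.br _ _ _ (.leaf b0 k130 t130) (.leaf b0 k131 t131))) (.br _ _ _ (.leaf b0 k132 t132) (.br _ _ _ (.leaf b0 k133 t133) (.leaf b0 k134 t134)))) (.br _ _ _ (.br _ _ _ (.leaf b0 k135 t135) (.br _ _ _ (.leaf b0 k136 t136) (.leaf b0 k137 t137))) (.br _ _ _ (.leaf b0 k138 t138) (.br _ _ _ (.leaf b0 k139 t139)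 (.leaf b0 k140 t140)))))) w6
noncomputable def k141 : KT := (.br (Nat.shiftLeft (nat_lit 0x701) (nat_lit 80)) (.br (Nat.shiftLeft (nat_lit 0x1c03c05) (nat_lit 66)) (.one (nat_lit 0x700f013000000e01e027400)) (.br (Nat.shiftLeft (nat_lit 0x700f015) (nat_lit 64)) (.one (nat_lit 0x700f014000000e01e029400)) (.one (nat_lit 0x700f015000000e01e02b400)))) (.br (Nat.shiftLeft (nat_lit 0x1) (nat_lit 100)) (.one (nat_lit 0x7010011000000e020023400)) (.br (Nat.shiftLeft (nat_lit 0x401c03c05) (nat_lit 66)) (.one (nat_lit 0x100700f013000200e01e026540)) (.one (nat_lit 0x100700f014000200e01e028540)))))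
def t141 : k141.all (jb2 57 fl b0) = true := by decide +kernel
noncomputable def k142 : KT := (.br (Nat.shiftLeft (nat_lit 0x100701) (nat_lit 80)) (.one (nat_lit 0x100700f015000200e01e02a540)) (.one (nat_lit 0x1007010011000200e020022540)))
def t142 : k142.all (jb2 57 fl b0) = true := by decide +kernel
noncomputable def k143 : KT := (.one (nat_lit 0x200700f013000400e01e026540))
def t143 : k143.all (jb2 57 fl b0) = true := by decide +kernel
noncomputable def k144 : KT := (.one (nat_lit 0x200700f014000400e01e028540))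
def t144 : k144.all (jb2 57 fl b0) = true := by decide +kernel
noncomputable def k145 : KT := (.br (Nat.shiftLeft (nat_lit 0x200701) (nat_lit 80)) (.one (nat_lit 0x200700f015000400e01e02a540)) (.br (Nat.shiftLeft (nat_lit 0x3) (nat_lit 100)) (.one (nat_lit 0x2007010011000400e020023500)) (.one (nat_lit 0x300700f013000600e01e027500))))
def t145 : k145.all (jb2 57 fl b0) = true := by decide +kernel
noncomputable def k146 : KT := (.one (nat_lit 0x300700f014000600e01e028540))
def t146 : k146.all (jb2 57 fl b0) = true := by decide +kernel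
noncomputable def k147 : KT := (.br (Nat.shiftLeft (nat_lit 0x300701) (nat_lit 80)) (.one (nat_lit 0x300700f015000600e01e02a540)) (.br (Nat.shiftLeft (nat_lit 0x1) (nat_lit 102)) (.one (nat_lit 0x3007010011000600e020023500)) (.one (nat_lit 0x400700f013000800e01e027500))))
def t147 : k147.all (jb2 57 fl b0) = true := by decide +kernel
noncomputable def k148 : KT := (.one (nat_lit 0x400700f014000800e01e028540))
def t148 : k148.all (jb2 57 fl b0) = true := by decide +kernel
noncomputable def k149 : KT := (.br (Nat.shiftLeft (nat_lit 0x400701) (nat_lit 80)) (.one (nat_lit 0x400700f015000800e01e02a540)) (.one (nat_lit 0x4007010011000800e020023500)))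
def t149 : k149.all (jb2 57 fl b0) = true := by decide +kernel
noncomputable def k150 : KT := (.one (nat_lit 0x500700f013000a00e01e026540))
def t150 : k150.all (jb2 57 fl b0) = true := by decide +kernel
noncomputable def k151 : KT := (.one (nat_lit 0x500700f014000a00e01e028540))
def t151 : k151.all (jb2 57 fl b0) = true := by decide +kernel
noncomputable def k152 : KT := (.br (Nat.shiftLeft (nat_lit 0x500701) (nat_lit 80)) (.one (nat_lit 0x500700f015000a00e01e02a540)) (.one (nat_lit 0x5007010011000a00e020023500)))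
def t152 : k152.all (jb2 57 fl b0) = true := by decide +kernel
noncomputable def k153 : KT := (.one (nat_lit 0x600700f013000c00e01e026540))
def t153 : k153.all (jb2 57 fl b0) = true := by decide +kernel
noncomputable def k154 : KT := (.br (Nat.shiftLeft (nat_lit 0x1) (nat_lit 112)) (.br (Nat.shiftLeft (nat_lit 0x600700f015) (nat_lit 64)) (.one (nat_lit 0x600700f014000c00e01e028540)) (.br (Nat.shiftLeft (nat_lit 0x600701) (nat_lit 80)) (.one (nat_lit 0x600700f015000c00e01e02a540)) (.one (nat_lit 0x6007010011000c00e020023500)))) (.br (Nat.shiftLeft (nat_lit 0x100000700f015) (nat_lit 64)) (.br (Nat.shiftLeft (nat_lit 0x400001c03c05) (nat_lit 66)) (.one (nat_lit 0x100000700f013200000e01e026411)) (.one (nat_lit 0x100000700f014200000e01e028411))) (.br (Nat.shiftLeft (nat_lit 0x100000701) (nat_lit 80)) (.one (nat_lit 0x100000700f015200000e01e02a411)) (.one (nat_lit 0x1000007010011200000e020022411)))))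
def t154 : k154.all (jb2 57 fl b0) = true := by decide +kernel
noncomputable def k155 : KT := (.br (Nat.shiftLeft (nat_lit 0x1003) (nat_lit 100)) (.one (nat_lit 0x1002007010011200400e020022650)) (.one (nat_lit 0x100300700f013200600e01e026650)))
def t155 : k155.all (jb2 57 fl b0) = true := by decide +kernel
noncomputable def k156 : KT := (.br (Nat.shiftLeft (nat_lit 0x401) (nat_lit 102)) (.one (nat_lit 0x1003007010011200600e020022650)) (.br (Nat.shiftLeft (nat_lit 0x100400701) (nat_lit 80)) (.one (nat_lit 0x100400700f013200800e01e026650)) (.one (nat_lit 0x1004007010011200800e020022650))))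
def t156 : k156.all (jb2 57 fl b0) = true := by decide +kernel
noncomputable def k157 : KT := (.br (Nat.shiftLeft (nat_lit 0x800001c03c05) (nat_lit 66)) (.br (Nat.shiftLeft (nat_lit 0x803) (nat_lit 101)) (.one (nat_lit 0x1005007010011200a00e020022650)) (.br (Nat.shiftLeft (nat_lit 0x1) (nat_lit 113)) (.one (nat_lit 0x1006007010011200c00e020022650)) (.one (nat_lit 0x200000700f013400000e01e026411)))) (.br (Nat.shiftLeft (nat_lit 0x200000701) (nat_lit 80)) (.br (Nat.shiftLeft (nat_lit 0x200000700f015) (nat_lit 64)) (.one (nat_lit 0x200000700f014400000e01e028411)) (.one (nat_lit 0x200000700f015400000e01e02a411))) (.br (Nat.shiftLeft (nat_lit 0x1001) (nat_lit 101)) (.one (nat_lit 0x2000007010011400000e020022411)) (.one (nat_lit 0x200300700f013400600e01e026650)))))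
def t157 : k157.all (jb2 57 fl b0) = true := by decide +kernel
noncomputable def k158 : KT := (.br (Nat.shiftLeft (nat_lit 0x801) (nat_lit 102)) (.one (nat_lit 0x2003007010011400600e020022650)) (.one (nat_lit 0x200400700f013400800e01e026650)))
def t158 : k158.all (jb2 57 fl b0) = true := by decide +kernel
noncomputable def k159 : KT := (.br (Nat.shiftLeft (nat_lit 0x3) (nat_lit 112)) (.br (Nat.shiftLeft (nat_lit 0x2005) (nat_lit 100)) (.one (nat_lit 0x2004007010011400800e020022650)) (.br (Nat.shiftLeft (nat_lit 0x1003) (nat_lit 101)) (.one (nat_lit 0x2005007010011400a00e020022650)) (.one (nat_lit 0x2006007010011400c00e020022650)))) (.br (Nat.shiftLeft (nat_lit 0x300000700f015) (nat_lit 64)) (.br (Nat.shiftLeft (nat_lit 0xc00001c03c05) (nat_lit 66)) (.one (nat_lit 0x300000700f013600000e01e026411)) (.one (nat_lit 0x300000700f014600000e01e028411))) (.br (Nat.shiftLeft (nat_lit 0x300000701) (nat_lit 80)) (.one (nat_lit 0x300000700f015600000e01e02a411)) (.one (nat_lit 0x3000007010011600000e020022411)))))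
def t159 : k159.all (jb2 57 fl b0) = true := by decide +kernel
noncomputable def k160 : KT := (.br (Nat.shiftLeft (nat_lit 0x300400701) (nat_lit 80)) (.one (nat_lit 0x300400700f013600800e01e026650)) (.br (Nat.shiftLeft (nat_lit 0x3005) (nat_lit 100)) (.one (nat_lit 0x3004007010011600800e020022650)) (.one (nat_lit 0x3005007010011600a00e020022650))))
def t160 : k160.all (jb2 57 fl b0) = true := by decide +kernel
noncomputable def k161 : KT := (.br (Nat.shiftLeft (nat_lit 0x5) (nat_lit 112)) (.br (Nat.shiftLeft (nat_lit 0x400000700f015) (nat_lit 64)) (.br (Nat.shiftLeft (nat_lit 0x1) (nat_lit 114)) (.one (nat_lit 0x3006007010011600c00e020022650)) (.br (Nat.shiftLeft (nat_lit 0x1000001c03c05) (nat_lit 66)) (.one (nat_lit 0x400000700f013800000e01e026411)) (.one (nat_lit 0x400000700f014800000e01e028411)))) (.br (Nat.shiftLeft (nat_lit 0x1001) (nat_lit 102)) (.br (Nat.shiftLeft (nat_lit 0x400000701) (nat_lit 80)) (.one (nat_lit 0x400000700f015800000e01e02a411)) (.one (nat_lit 0x4000007010011800000e020022411))) (.br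 (Nat.shiftLeft (nat_lit 0x2003) (nat_lit 101)) (.one (nat_lit 0x4005007010011800a00e020022650)) (.one (nat_lit 0x4006007010011800c00e020022650))))) (.br (Nat.shiftLeft (nat_lit 0x500000701) (nat_lit 80)) (.br (Nat.shiftLeft (nat_lit 0x1400001c03c05) (nat_lit 66)) (.one (nat_lit 0x500000700f013a00000e01e026411)) (.br (Nat.shiftLeft (nat_lit 0x500000700f015) (nat_lit 64)) (.one (nat_lit 0x500000700f014a00000e01e028411)) (.one (nat_lit 0x500000700f015a00000e01e02a411)))) (.br (Nat.shiftLeft (nat_lit 0x3) (nat_lit 113)) (.br (Nat.shiftLeft (nat_lit 0x1401) (nat_lit 102)) (.one (nat_lit 0x5000007010011a00000e020022411)) (.one (nat_lit 0x5006007010011a00c00e020022650))) (.br (Nat.shiftLeft (nat_lit 0x1800001c03c05) (nat_lit 66)) (.one (nat_lit 0x600000700f013c00000e01e026411)) (.one (nat_lit 0x600000700f014c00000e01e028411))))))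
def t161 : k161.all (jb2 57 fl b0) = true := by decide +kernel
noncomputable def k162 : KT := (.br (Nat.shiftLeft (nat_lit 0xb00000700f015) (nat_lit 64)) (.br (Nat.shiftLeft (nat_lit 0x9) (nat_lit 112)) (.br (Nat.shiftLeft (nat_lit 0x700000701) (nat_lit 80)) (.br (Nat.shiftLeft (nat_lit 0x7) (nat_lit 112)) (.br (Nat.shiftLeft (nat_lit 0x600000701) (nat_lit 80)) (.one (nat_lit 0x600000700f015c00000e01e02a411)) (.one (nat_lit 0x6000007010011c00000e020022411))) (.br (Nat.shiftLeft (nat_lit 0x1c00001c03c05) (nat_lit 66)) (.one (nat_lit 0x700000700f013e00000e01e026411)) (.br (Nat.shiftLeft (nat_lit 0x700000700f015) (nat_lit 64)) (.one (nat_lit 0x700000700f014e00000e01e028411)) (.one (nat_lit 0x700000700f015e00000e01e02a411))))) (.br (Nat.shiftLeft (nat_lit 0x2000001c03c05) (nat_lit 66)) (.br (Nat.shiftLeft (nat_lit 0x1) (nat_lit 115)) (.one (nat_lit 0x7000007010011e00000e020022411)) (.one (nat_lit 0x800000700f013000000e01e128411))) (.br (Nat.shiftLeft (nat_lit 0x800000700f015) (nat_lit 64)) (.one (nat_lit 0x800000700f014000000e01e12a411))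 (.br (Nat.shiftLeft (nat_lit 0x800000701) (nat_lit 80)) (.one (nat_lit 0x800000700f015000000e01e12c411)) (.one (nat_lit 0x8000007010011000000e020124411)))))) (.br (Nat.shiftLeft (nat_lit 0x2800001c03c05) (nat_lit 66)) (.br (Nat.shiftLeft (nat_lit 0x900000700f015) (nat_lit 64)) (.br (Nat.shiftLeft (nat_lit 0x2400001c03c05) (nat_lit 66)) (.one (nat_lit 0x900000700f013200000e01e128411)) (.one (nat_lit 0x900000700f014200000e01e12a411))) (.br (Nat.shiftLeft (nat_lit 0x900000701) (nat_lit 80)) (.one (nat_lit 0x900000700f015200000e01e12c411)) (.br (Nat.shiftLeft (nat_lit 0x5) (nat_lit 113)) (.one (nat_lit 0x9000007010011200000e020124411)) (.one (nat_lit 0xa00000700f013400000e01e128411))))) (.br (Nat.shiftLeft (nat_lit 0xa00000701) (nat_lit 80)) (.br (Nat.shiftLeft (nat_lit 0xa00000700f015) (nat_lit 64)) (.one (nat_lit 0xa00000700f014400000e01e12a411)) (.one (nat_lit 0xa00000700f015400000e01e12c411))) (.br (Nat.shiftLeft (nat_lit 0xb) (nat_lit 112)) (.one (nat_lit 0xa000007010011400000e020124411)) (.br (Nat.shiftLeft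 (nat_lit 0x2c00001c03c05) (nat_lit 66)) (.one (nat_lit 0xb00000700f013600000e01e128411)) (.one (nat_lit 0xb00000700f014600000e01e12a411))))))) (.br (Nat.shiftLeft (nat_lit 0x7) (nat_lit 113)) (.br (Nat.shiftLeft (nat_lit 0xc00000701) (nat_lit 80)) (.br (Nat.shiftLeft (nat_lit 0x3) (nat_lit 114)) (.br (Nat.shiftLeft (nat_lit 0xb00000701) (nat_lit 80)) (.one (nat_lit 0xb00000700f015600000e01e12c411)) (.one (nat_lit 0xb000007010011600000e020124411))) (.br (Nat.shiftLeft (nat_lit 0x3000001c03c05) (nat_lit 66)) (.one (nat_lit 0xc00000700f013800000e01e128411)) (.br (Nat.shiftLeft (nat_lit 0xc00000700f015) (nat_lit 64)) (.one (nat_lit 0xc00000700f014800000e01e12a411)) (.one (nat_lit 0xc00000700f015800000e01e12c411))))) (.br (Nat.shiftLeft (nat_lit 0x3400001c03c05) (nat_lit 66)) (.br (Nat.shiftLeft (nat_lit 0xd) (nat_lit 112)) (.one (nat_lit 0xc000007010011800000e020124411)) (.one (nat_lit 0xd00000700f013a00000e01e128411))) (.br (Nat.shiftLeft (nat_lit 0xd00000700f015) (nat_lit 64)) (.one (nat_lit 0xd00000700f014a00000e01e12a411))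 (.br (Nat.shiftLeft (nat_lit 0xd00000701) (nat_lit 80)) (.one (nat_lit 0xd00000700f015a00000e01e12c411)) (.one (nat_lit 0xd000007010011a00000e020124411)))))) (.br (Nat.shiftLeft (nat_lit 0x3c00001c03c05) (nat_lit 66)) (.br (Nat.shiftLeft (nat_lit 0xe00000700f015) (nat_lit 64)) (.br (Nat.shiftLeft (nat_lit 0x3800001c03c05) (nat_lit 66)) (.one (nat_lit 0xe00000700f013c00000e01e128411)) (.one (nat_lit 0xe00000700f014c00000e01e12a411))) (.br (Nat.shiftLeft (nat_lit 0xe00000701) (nat_lit 80)) (.one (nat_lit 0xe00000700f015c00000e01e12c411)) (.br (Nat.shiftLeft (nat_lit 0xf) (nat_lit 112)) (.one (nat_lit 0xe000007010011c00000e020124411)) (.one (nat_lit 0xf00000700f013e00000e01e128411))))) (.br (Nat.shiftLeft (nat_lit 0x1) (nat_lit 116)) (.br (Nat.shiftLeft (nat_lit 0xf00000701) (nat_lit 80)) (.one (nat_lit 0xf00000700f014e00000e01e12a411)) (.one (nat_lit 0xf000007010011e00000e020124411))) (.br (Nat.shiftLeft (nat_lit 0x1) (nat_lit 124)) (.one (nat_lit 0x10000007010011000000e020226411)) (.br (Nat.shiftLeft (nat_lit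 0x1000003) (nat_lit 100)) (.one (nat_lit 0x1000002007010011000400e040422511)) (.one (nat_lit 0x100000300700f013000600e03e426511))))))))
def t162 : k162.all (jb2 57 fl b0) = true := by decide +kernel
noncomputable def k163 : KT := (.br (Nat.shiftLeft (nat_lit 0xc00001) (nat_lit 102)) (.br (Nat.shiftLeft (nat_lit 0x200000300701) (nat_lit 80)) (.br (Nat.shiftLeft (nat_lit 0x1000005) (nat_lit 100)) (.br (Nat.shiftLeft (nat_lit 0x400001) (nat_lit 102)) (.one (nat_lit 0x1000003007010011000600e040422511)) (.br (Nat.shiftLeft (nat_lit 0x100000400701) (nat_lit 80)) (.one (nat_lit 0x100000400700f013000800e03e426511)) (.one (nat_lit 0x1000004007010011000800e040422511)))) (.br (Nat.shiftLeft (nat_lit 0x1) (nat_lit 125)) (.br (Nat.shiftLeft (nat_lit 0x800003) (nat_lit 101)) (.one (nat_lit 0x1000005007010011000a00e040422511)) (.one (nat_lit 0x1000006007010011000c00e040422511))) (.br (Nat.shiftLeft (nat_lit 0x2000003) (nat_lit 100)) (.one (nat_lit 0x2000002007010011000400e060822511)) (.one (nat_lit 0x200000300700f013000600e05e826511)))))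 (.br (Nat.shiftLeft (nat_lit 0x1000003) (nat_lit 101)) (.br (Nat.shiftLeft (nat_lit 0x200000400701) (nat_lit 80)) (.br (Nat.shiftLeft (nat_lit 0x800001) (nat_lit 102)) (.one (nat_lit 0x2000003007010011000600e060822511)) (.one (nat_lit 0x200000400700f013000800e05e826511))) (.br (Nat.shiftLeft (nat_lit 0x2000005) (nat_lit 100)) (.one (nat_lit 0x2000004007010011000800e060822511)) (.one (nat_lit 0x2000005007010011000a00e060822511)))) (.br (Nat.shiftLeft (nat_lit 0x3000003) (nat_lit 100)) (.br (Nat.shiftLeft (nat_lit 0x3) (nat_lit 124)) (.one (nat_lit 0x2000006007010011000c00e060822511)) (.one (nat_lit 0x3000002007010011000400e080c22511))) (.br (Nat.shiftLeft (nat_lit 0x300000300701) (nat_lit 80)) (.one (nat_lit 0x300000300700f013000600e07ec26511)) (.one (nat_lit 0x3000003007010011000600e080c22511)))))) (.br (Nat.shiftLeft (nat_lit 0x1000001) (nat_lit 102)) (.br (Nat.shiftLeft (nat_lit 0x1800003) (nat_lit 101)) (.br (Nat.shiftLeft (nat_lit 0x300000400701) (nat_lit 80)) (.one (nat_lit 0x300000400700f013000800e07ec26511))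 (.br (Nat.shiftLeft (nat_lit 0x3000005) (nat_lit 100)) (.one (nat_lit 0x3000004007010011000800e080c22511)) (.one (nat_lit 0x3000005007010011000a00e080c22511)))) (.br (Nat.shiftLeft (nat_lit 0x4000003) (nat_lit 100)) (.br (Nat.shiftLeft (nat_lit 0x1) (nat_lit 126)) (.one (nat_lit 0x3000006007010011000c00e080c22511)) (.one (nat_lit 0x4000002007010011000400e0a1022511))) (.br (Nat.shiftLeft (nat_lit 0x400000300701) (nat_lit 80)) (.one (nat_lit 0x400000300700f013000600e09f026511)) (.one (nat_lit 0x4000003007010011000600e0a1022511))))) (.br (Nat.shiftLeft (nat_lit 0x5) (nat_lit 124)) (.br (Nat.shiftLeft (nat_lit 0x4000005) (nat_lit 100)) (.br (Nat.shiftLeft (nat_lit 0x400000400701) (nat_lit 80)) (.one (nat_lit 0x400000400700f013000800e09f026511)) (.one (nat_lit 0x4000004007010011000800e0a1022511))) (.br (Nat.shiftLeft (nat_lit 0x2000003) (nat_lit 101)) (.one (nat_lit 0x4000005007010011000a00e0a1022511)) (.one (nat_lit 0x4000006007010011000c00e0a1022511)))) (.br (Nat.shiftLeft (nat_lit 0x500000300701) (nat_lit 80))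 (.br (Nat.shiftLeft (nat_lit 0x5000003) (nat_lit 100)) (.one (nat_lit 0x5000002007010011000400e0c1422511)) (.one (nat_lit 0x500000300700f013000600e0bf426511))) (.br (Nat.shiftLeft (nat_lit 0x1400001) (nat_lit 102)) (.one (nat_lit 0x5000003007010011000600e0c1422511)) (.one (nat_lit 0x500000400700f013000800e0bf426511)))))))
def t163 : k163.all (jb2 57 fl b0) = true := by decide +kernel
noncomputable def k164 : KT := (.br (Nat.shiftLeft (nat_lit 0x600000400701) (nat_lit 80)) (.br (Nat.shiftLeft (nat_lit 0x3) (nat_lit 125)) (.br (Nat.shiftLeft (nat_lit 0x5000005) (nat_lit 100)) (.one (nat_lit 0x5000004007010011000800e0c1422511)) (.br (Nat.shiftLeft (nat_lit 0x2800003) (nat_lit 101)) (.one (nat_lit 0x5000005007010011000a00e0c1422511)) (.one (nat_lit 0x5000006007010011000c00e0c1422511)))) (.br (Nat.shiftLeft (nat_lit 0x600000300701) (nat_lit 80)) (.br (Nat.shiftLeft (nat_lit 0x6000003) (nat_lit 100)) (.one (nat_lit 0x6000002007010011000400e0e1822511)) (.one (nat_lit 0x600000300700f013000600e0df826511))) (.br (Nat.shiftLeft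 (nat_lit 0x1800001) (nat_lit 102)) (.one (nat_lit 0x6000003007010011000600e0e1822511)) (.one (nat_lit 0x600000400700f013000800e0df826511))))) (.br (Nat.shiftLeft (nat_lit 0x7) (nat_lit 124)) (.br (Nat.shiftLeft (nat_lit 0x6000005) (nat_lit 100)) (.one (nat_lit 0x6000004007010011000800e0e1822511)) (.br (Nat.shiftLeft (nat_lit 0x3000003) (nat_lit 101)) (.one (nat_lit 0x6000005007010011000a00e0e1822511)) (.one (nat_lit 0x6000006007010011000c00e0e1822511)))) (.br (Nat.shiftLeft (nat_lit 0x700000300701) (nat_lit 80)) (.br (Nat.shiftLeft (nat_lit 0x7000003) (nat_lit 100)) (.one (nat_lit 0x7000002007010011000400e101c22511)) (.one (nat_lit 0x700000300700f013000600e0ffc26511))) (.br (Nat.shiftLeft (nat_lit 0x1c00001) (nat_lit 102)) (.one (nat_lit 0x7000003007010011000600e101c22511)) (.one (nat_lit 0x700000400700f013000800e0ffc26511))))))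
def t164 : k164.all (jb2 57 fl b0) = true := by decide +kernel
noncomputable def k165 : KT := (.br (Nat.shiftLeft (nat_lit 0x2800001) (nat_lit 102)) (.br (Nat.shiftLeft (nat_lit 0x9) (nat_lit 124)) (.br (Nat.shiftLeft (nat_lit 0x800000300701) (nat_lit 80)) (.br (Nat.shiftLeft (nat_lit 0x3800003) (nat_lit 101)) (.br (Nat.shiftLeft (nat_lit 0x7000005) (nat_lit 100)) (.one (nat_lit 0x7000004007010011000800e101c22511)) (.one (nat_lit 0x7000005007010011000a00e101c22511))) (.br (Nat.shiftLeft (nat_lit 0x1) (nat_lit 127)) (.one (nat_lit 0x7000006007010011000c00e101c22511)) (.br (Nat.shiftLeft (nat_lit 0x8000003) (nat_lit 100)) (.one (nat_lit 0x8000002007010011000400e122022511)) (.one (nat_lit 0x800000300700f013000600e120026511))))) (.br (Nat.shiftLeft (nat_lit 0x800000400701) (nat_lit 80)) (.br (Nat.shiftLeft (nat_lit 0x2000001) (nat_lit 102)) (.one (nat_lit 0x8000003007010011000600e122022511)) (.one (nat_lit 0x800000400700f013000800e120026511))) (.br (Nat.shiftLeft (nat_lit 0x8000005) (nat_lit 100)) (.one (nat_lit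 0x8000004007010011000800e122022511)) (.br (Nat.shiftLeft (nat_lit 0x4000003) (nat_lit 101)) (.one (nat_lit 0x8000005007010011000a00e122022511)) (.one (nat_lit 0x8000006007010011000c00e122022511)))))) (.br (Nat.shiftLeft (nat_lit 0x9000005) (nat_lit 100)) (.br (Nat.shiftLeft (nat_lit 0x900000300701) (nat_lit 80)) (.br (Nat.shiftLeft (nat_lit 0x9000003) (nat_lit 100)) (.one (nat_lit 0x9000002007010011000400e142422511)) (.one (nat_lit 0x900000300700f013000600e140426511))) (.br (Nat.shiftLeft (nat_lit 0x2400001) (nat_lit 102)) (.one (nat_lit 0x9000003007010011000600e142422511)) (.br (Nat.shiftLeft (nat_lit 0x900000400701) (nat_lit 80)) (.one (nat_lit 0x900000400700f013000800e140426511)) (.one (nat_lit 0x9000004007010011000800e142422511))))) (.br (Nat.shiftLeft (nat_lit 0x5) (nat_lit 125)) (.br (Nat.shiftLeft (nat_lit 0x4800003) (nat_lit 101)) (.one (nat_lit 0x9000005007010011000a00e142422511)) (.one (nat_lit 0x9000006007010011000c00e142422511))) (.br (Nat.shiftLeft (nat_lit 0xa000003) (nat_lit 100)) (.one (nat_lit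 0xa000002007010011000400e162822511)) (.br (Nat.shiftLeft (nat_lit 0xa00000300701) (nat_lit 80)) (.one (nat_lit 0xa00000300700f013000600e160826511)) (.one (nat_lit 0xa000003007010011000600e162822511))))))) (.br (Nat.shiftLeft (nat_lit 0x5800003) (nat_lit 101)) (.br (Nat.shiftLeft (nat_lit 0xb000003) (nat_lit 100)) (.br (Nat.shiftLeft (nat_lit 0xa000005) (nat_lit 100)) (.br (Nat.shiftLeft (nat_lit 0xa00000400701) (nat_lit 80)) (.one (nat_lit 0xa00000400700f013000800e160826511)) (.one (nat_lit 0xa000004007010011000800e162822511))) (.br (Nat.shiftLeft (nat_lit 0x5000003) (nat_lit 101)) (.one (nat_lit 0xa000005007010011000a00e162822511)) (.br (Nat.shiftLeft (nat_lit 0xb) (nat_lit 124)) (.one (nat_lit 0xa000006007010011000c00e162822511)) (.one (nat_lit 0xb000002007010011000400e182c22511))))) (.br (Nat.shiftLeft (nat_lit 0x2c00001) (nat_lit 102)) (.br (Nat.shiftLeft (nat_lit 0xb00000300701) (nat_lit 80)) (.one (nat_lit 0xb00000300700f013000600e180c26511)) (.one (nat_lit 0xb000003007010011000600e182c22511))) (.br (Nat.shiftLeft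 (nat_lit 0xb00000400701) (nat_lit 80)) (.one (nat_lit 0xb00000400700f013000800e180c26511)) (.br (Nat.shiftLeft (nat_lit 0xb000005) (nat_lit 100)) (.one (nat_lit 0xb000004007010011000800e182c22511)) (.one (nat_lit 0xb000005007010011000a00e182c22511)))))) (.br (Nat.shiftLeft (nat_lit 0xc00000400701) (nat_lit 80)) (.br (Nat.shiftLeft (nat_lit 0xc000003) (nat_lit 100)) (.br (Nat.shiftLeft (nat_lit 0x3) (nat_lit 126)) (.one (nat_lit 0xb000006007010011000c00e182c22511)) (.one (nat_lit 0xc000002007010011000400e1a3022511))) (.br (Nat.shiftLeft (nat_lit 0xc00000300701) (nat_lit 80)) (.one (nat_lit 0xc00000300700f013000600e1a1026511)) (.br (Nat.shiftLeft (nat_lit 0x3000001) (nat_lit 102)) (.one (nat_lit 0xc000003007010011000600e1a3022511)) (.one (nat_lit 0xc00000400700f013000800e1a1026511))))) (.br (Nat.shiftLeft (nat_lit 0xd) (nat_lit 124)) (.br (Nat.shiftLeft (nat_lit 0xc000005) (nat_lit 100)) (.one (nat_lit 0xc000004007010011000800e1a3022511)) (.one (nat_lit 0xc000005007010011000a00e1a3022511))) (.br (Nat.shiftLeft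 (nat_lit 0xd000003) (nat_lit 100)) (.one (nat_lit 0xd000002007010011000400e1c3422511)) (.br (Nat.shiftLeft (nat_lit 0xd00000300701) (nat_lit 80)) (.one (nat_lit 0xd00000300700f013000600e1c1426511)) (.one (nat_lit 0xd000003007010011000600e1c3422511))))))))
def t165 : k165.all (jb2 57 fl b0) = true := by decide +kernel
noncomputable def k166 : KT := (.br (Nat.shiftLeft (nat_lit 0xe000003) (nat_lit 100)) (.br (Nat.shiftLeft (nat_lit 0x7) (nat_lit 125)) (.one (nat_lit 0xd000004007010011000800e1c3422511)) (.one (nat_lit 0xe000002007010011000400e1e3822511))) (.br (Nat.shiftLeft (nat_lit 0xf) (nat_lit 124)) (.one (nat_lit 0xe000003007010011000600e1e3822511)) (.one (nat_lit 0xf000002007010011000400e203c22511))))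
def t166 : k166.all (jb2 57 fl b0) = true := by decide +kernel
noncomputable def s7 : KT := (.br (nat_lit 0x600700f013000c00e01e026540) (.br (nat_lit 0x300700f014000600e01e028540) (.br (nat_lit 0x200700f013000400e01e026540) (.br (nat_lit 0x100700f014000200e01e028540) k141 (.br (nat_lit 0x1007010011000200e020022540) k142 k143)) (.br (nat_lit 0x200700f014000400e01e028540) k144 (.br (nat_lit 0x300700f013000600e01e027500) k145 k146))) (.br (nat_lit 0x4007010011000800e020023500) (.br (nat_lit 0x400700f013000800e01e027500) k147 (.br (nat_lit 0x400700f014000800e01e028540) k148 k149)) (.br (nat_lit 0x500700f014000a00e01e028540) (.br (nat_lit 0x500700f013000a00e01e026540) k150 k151) (.br (nat_lit 0x5007010011000a00e020023500) k152 k153)))) (.br (nat_lit 0x3000007010011600000e020022411) (.br (nat_lit 0x1004007010011200800e020022650) (.br (nat_lit 0x1000007010011200000e020022411) k154 (.br (nat_lit 0x100300700f013200600e01e026650) k155 k156)) (.br (nat_lit 0x200300700f013400600e01e026650) k157 (.br (nat_lit 0x200400700f013400800e01e026650)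 k158 k159))) (.br (nat_lit 0x100000300700f013000600e03e426511) (.br (nat_lit 0x3005007010011600a00e020022650) k160 (.br (nat_lit 0x600000700f014c00000e01e028411) k161 k162)) (.br (nat_lit 0x700000400700f013000800e0ffc26511) (.br (nat_lit 0x500000400700f013000800e0bf426511) k163 k164) (.br (nat_lit 0xd000003007010011000600e1c3422511) k165 k166)))))
noncomputable def u7 : KT := (.br (Nat.shiftLeft (nat_lit 0x700f015) (nat_lit 64)) (.br (Nat.shiftLeft (nat_lit 0x1c03c05) (nat_lit 66)) (.one (nat_lit 0x700f013000000e01e026430)) (.one (nat_lit 0x700f014000000e01e028430))) (.br (Nat.shiftLeft (nat_lit 0x701) (nat_lit 80)) (.one (nat_lit 0x700f015000000e01e02a430)) (.one (nat_lit 0x7010011000000e020022430))))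
def w7 : u7.all (wj 57 s7) = true := by decide +kernel
def o7 : OkW 57 (jb2 57 fl) u7 := .lift s7 _ (.br _ _ _ (.br _ _ _ (.br _ _ _ (.br _ _ _ (.leaf b0 k141 t141) (.br _ _ _ (.leaf b0 k142 t142) (.leaf b0 k143 t143))) (.br _ _ _ (.leaf b0 k144 t144) (.br _ _ _ (.leaf b0 k145 t145) (.leaf b0 k146 t146)))) (.br _ _ _ (.br _ _ _ (.leaf b0 k147 t147) (.br _ _ _ (.leaf b0 k148 t148) (.leaf b0 k149 t149))) (.br _ _ _ (.br _ _ _ (.leaf b0 k150 t150) (.leaf b0 k151 t151)) (.br _ _ _ (.leaf b0 k152 t152) (.leaf b0 k153 t153))))) (.br _ _ _ (.br _ _ _ (.br _ _ _ (.leaf b0 k154 t154) (.br _ _ _ (.leaf b0 k155 t155) (.leaf b0 k156 t156))) (.br _ _ _ (.leaf b0 k157 t157) (.br _ _ _ (.leaf b0 k158 t158) (.leaf b0 k159 t159)))) (.br _ _ _ (.br _ _ _ (.leaf b0 k160 t160) (.br _ _ _ (.leaf b0 k161 t161) (.leaf b0 k162 t162))) (.br _ _ _ (.br _ _ _ (.leaf b0 k163 t163) (.leaf b0 k164 t164)) (.br _ _ _ (.leaf b0 k165 t165) (.leaf b0 k166 t166)))))) w7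
noncomputable def k167 : KT := (.br (Nat.shiftLeft (nat_lit 0x800901) (nat_lit 68)) (.br (Nat.shiftLeft (nat_lit 0x7011) (nat_lit 76)) (.br (Nat.shiftLeft (nat_lit 0x7010013) (nat_lit 64)) (.one (nat_lit 0x7010012000000e020025400)) (.br (Nat.shiftLeft (nat_lit 0x1c04005) (nat_lit 66)) (.one (nat_lit 0x7010013000000e020027400)) (.one (nat_lit 0x7010014000000e020029400)))) (.br (Nat.shiftLeft (nat_lit 0x7011013) (nat_lit 64)) (.one (nat_lit 0x7011012000000e022025400)) (.br (Nat.shiftLeft (nat_lit 0x1) (nat_lit 91)) (.one (nat_lit 0x7011013000000e022027400)) (.one (nat_lit 0x800900f000001001201f400))))) (.br (Nat.shiftLeft (nat_lit 0x8009013) (nat_lit 64)) (.br (Nat.shiftLeft (nat_lit 0x8009011) (nat_lit 64)) (.one (nat_lit 0x80090100000010012021400)) (.br (Nat.shiftLeft (nat_lit 0x4004809) (nat_lit 65)) (.one (nat_lit 0x80090110000010012023400)) (.one (nat_lit 0x80090120000010012025400)))) (.br (Nat.shiftLeft (nat_lit 0x1) (nat_lit 100)) (.one (nat_lit 0x80090130000010012027400)) (.br (Nat.shiftLeft (nat_lit 0x1007010013)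 (nat_lit 64)) (.one (nat_lit 0x1007010012000200e020024540)) (.one (nat_lit 0x1007010013000200e020026540))))))
def t167 : k167.all (jb2 57 fl b0) = true := by decide +kernel
noncomputable def k168 : KT := (.br (Nat.shiftLeft (nat_lit 0x1007011) (nat_lit 76)) (.one (nat_lit 0x1007010014000200e020028540)) (.one (nat_lit 0x1007011012000200e022024540)))
def t168 : k168.all (jb2 57 fl b0) = true := by decide +kernel
noncomputable def k169 : KT := (.one (nat_lit 0x1007011013000200e022026540))
def t169 : k169.all (jb2 57 fl b0) = true := by decide +kernel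
noncomputable def k170 : KT := (.one (nat_lit 0x2007010012000400e020024540))
def t170 : k170.all (jb2 57 fl b0) = true := by decide +kernel
noncomputable def k171 : KT := (.one (nat_lit 0x2007010013000400e020026540))
def t171 : k171.all (jb2 57 fl b0) = true := by decide +kernel
noncomputable def k172 : KT := (.one (nat_lit 0x2007010014000400e020028540))
def t172 : k172.all (jb2 57 fl b0) = true := by decide +kernel
noncomputable def k173 : KT := (.one (nat_lit 0x2007011012000400e022024540))
def t173 : k173.all (jb2 57 fl b0) = true := by decide +kernel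
noncomputable def k174 : KT := (.br (Nat.shiftLeft (nat_lit 0x3) (nat_lit 100)) (.one (nat_lit 0x2007011013000400e022026540)) (.one (nat_lit 0x3007010012000600e020025500)))
def t174 : k174.all (jb2 57 fl b0) = true := by decide +kernel
noncomputable def k175 : KT := (.one (nat_lit 0x3007010013000600e020026540))
def t175 : k175.all (jb2 57 fl b0) = true := by decide +kernel
noncomputable def k176 : KT := (.one (nat_lit 0x3007010014000600e020028540))
def t176 : k176.all (jb2 57 fl b0) = true := by decide +kernel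
noncomputable def k177 : KT := (.one (nat_lit 0x3007011012000600e022024540))
def t177 : k177.all (jb2 57 fl b0) = true := by decide +kernel
noncomputable def k178 : KT := (.br (Nat.shiftLeft (nat_lit 0x1) (nat_lit 102)) (.one (nat_lit 0x3007011013000600e022026540)) (.one (nat_lit 0x4007010012000800e020025500)))
def t178 : k178.all (jb2 57 fl b0) = true := by decide +kernel
noncomputable def k179 : KT := (.one (nat_lit 0x4007010013000800e020026540))
def t179 : k179.all (jb2 57 fl b0) = true := by decide +kernel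
noncomputable def k180 : KT := (.one (nat_lit 0x4007010014000800e020028540))
def t180 : k180.all (jb2 57 fl b0) = true := by decide +kernel
noncomputable def k181 : KT := (.one (nat_lit 0x4007011012000800e022024540))
def t181 : k181.all (jb2 57 fl b0) = true := by decide +kernel
noncomputable def k182 : KT := (.one (nat_lit 0x4007011013000800e022026540))
def t182 : k182.all (jb2 57 fl b0) = true := by decide +kernel
noncomputable def k183 : KT := (.one (nat_lit 0x5007010012000a00e020024540))
def t183 : k183.all (jb2 57 fl b0) = true := by decide +kernel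
noncomputable def k184 : KT := (.one (nat_lit 0x5007010013000a00e020026540))
def t184 : k184.all (jb2 57 fl b0) = true := by decide +kernel
noncomputable def k185 : KT := (.one (nat_lit 0x5007010014000a00e020028540))
def t185 : k185.all (jb2 57 fl b0) = true := by decide +kernel
noncomputable def k186 : KT := (.one (nat_lit 0x5007011012000a00e022024540))
def t186 : k186.all (jb2 57 fl b0) = true := by decide +kernel
noncomputable def k187 : KT := (.one (nat_lit 0x5007011013000a00e022026540))
def t187 : k187.all (jb2 57 fl b0) = true := by decide +kernel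
noncomputable def k188 : KT := (.one (nat_lit 0x6007010012000c00e020024540))
def t188 : k188.all (jb2 57 fl b0) = true := by decide +kernel
noncomputable def k189 : KT := (.br (Nat.shiftLeft (nat_lit 0x1801c04005) (nat_lit 66)) (.one (nat_lit 0x6007010013000c00e020026540)) (.one (nat_lit 0x6007010014000c00e020028540)))
def t189 : k189.all (jb2 57 fl b0) = true := by decide +kernel
noncomputable def k190 : KT := (.br (Nat.shiftLeft (nat_lit 0x1000007010013) (nat_lit 64)) (.br (Nat.shiftLeft (nat_lit 0x6007011013) (nat_lit 64)) (.one (nat_lit 0x6007011012000c00e022024540)) (.br (Nat.shiftLeft (nat_lit 0x1) (nat_lit 112)) (.one (nat_lit 0x6007011013000c00e022026540)) (.one (nat_lit 0x1000007010012200000e020024411)))) (.br (Nat.shiftLeft (nat_lit 0x1000007011) (nat_lit 76)) (.br (Nat.shiftLeft (nat_lit 0x400001c04005) (nat_lit 66)) (.one (nat_lit 0x1000007010013200000e020026411)) (.one (nat_lit 0x1000007010014200000e020028411))) (.br (Nat.shiftLeft (nat_lit 0x1000007011013) (nat_lit 64)) (.one (nat_lit 0x1000007011012200000e022024411))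 (.one (nat_lit 0x1000007011013200000e022026411)))))
def t190 : k190.all (jb2 57 fl b0) = true := by decide +kernel
noncomputable def k191 : KT := (.br (Nat.shiftLeft (nat_lit 0x800001c04005) (nat_lit 66)) (.br (Nat.shiftLeft (nat_lit 0x1) (nat_lit 113)) (.br (Nat.shiftLeft (nat_lit 0x401) (nat_lit 102)) (.one (nat_lit 0x1003007010012200600e020024650)) (.one (nat_lit 0x1004007010012200800e020024650))) (.br (Nat.shiftLeft (nat_lit 0x2000007010013) (nat_lit 64)) (.one (nat_lit 0x2000007010012400000e020024411)) (.one (nat_lit 0x2000007010013400000e020026411)))) (.br (Nat.shiftLeft (nat_lit 0x2000007011013) (nat_lit 64)) (.br (Nat.shiftLeft (nat_lit 0x2000007011) (nat_lit 76)) (.one (nat_lit 0x2000007010014400000e020028411)) (.one (nat_lit 0x2000007011012400000e022024411))) (.br (Nat.shiftLeft (nat_lit 0x1001) (nat_lit 101)) (.one (nat_lit 0x2000007011013400000e022026411)) (.one (nat_lit 0x2003007010012400600e020024650)))))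
def t191 : k191.all (jb2 57 fl b0) = true := by decide +kernel
noncomputable def k192 : KT := (.br (Nat.shiftLeft (nat_lit 0x4000007011) (nat_lit 76)) (.br (Nat.shiftLeft (nat_lit 0x3000007011013) (nat_lit 64)) (.br (Nat.shiftLeft (nat_lit 0x3000007010013) (nat_lit 64)) (.br (Nat.shiftLeft (nat_lit 0x3) (nat_lit 112)) (.one (nat_lit 0x2004007010012400800e020024650)) (.one (nat_lit 0x3000007010012600000e020024411))) (.br (Nat.shiftLeft (nat_lit 0xc00001c04005) (nat_lit 66)) (.one (nat_lit 0x3000007010013600000e020026411)) (.br (Nat.shiftLeft (nat_lit 0x3000007011) (nat_lit 76)) (.one (nat_lit 0x3000007010014600000e020028411)) (.one (nat_lit 0x3000007011012600000e022024411))))) (.br (Nat.shiftLeft (nat_lit 0x1) (nat_lit 114)) (.br (Nat.shiftLeft (nat_lit 0xc01) (nat_lit 102)) (.one (nat_lit 0x3000007011013600000e022026411)) (.one (nat_lit 0x3004007010012600800e020024650))) (.br (Nat.shiftLeft (nat_lit 0x4000007010013) (nat_lit 64)) (.one (nat_lit 0x4000007010012800000e020024411)) (.br (Nat.shiftLeft (nat_lit 0x1000001c04005)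 (nat_lit 66)) (.one (nat_lit 0x4000007010013800000e020026411)) (.one (nat_lit 0x4000007010014800000e020028411)))))) (.br (Nat.shiftLeft (nat_lit 0x5000007011) (nat_lit 76)) (.br (Nat.shiftLeft (nat_lit 0x5) (nat_lit 112)) (.br (Nat.shiftLeft (nat_lit 0x4000007011013) (nat_lit 64)) (.one (nat_lit 0x4000007011012800000e022024411)) (.one (nat_lit 0x4000007011013800000e022026411))) (.br (Nat.shiftLeft (nat_lit 0x5000007010013) (nat_lit 64)) (.one (nat_lit 0x5000007010012a00000e020024411)) (.br (Nat.shiftLeft (nat_lit 0x1400001c04005) (nat_lit 66)) (.one (nat_lit 0x5000007010013a00000e020026411)) (.one (nat_lit 0x5000007010014a00000e020028411))))) (.br (Nat.shiftLeft (nat_lit 0x6000007010013) (nat_lit 64)) (.br (Nat.shiftLeft (nat_lit 0x5000007011013) (nat_lit 64)) (.one (nat_lit 0x5000007011012a00000e022024411)) (.br (Nat.shiftLeft (nat_lit 0x3) (nat_lit 113)) (.one (nat_lit 0x5000007011013a00000e022026411)) (.one (nat_lit 0x6000007010012c00000e020024411)))) (.br (Nat.shiftLeft (nat_lit 0x1800001c04005) (nat_lit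 66)) (.one (nat_lit 0x6000007010013c00000e020026411)) (.br (Nat.shiftLeft (nat_lit 0x6000007011) (nat_lit 76)) (.one (nat_lit 0x6000007010014c00000e020028411)) (.one (nat_lit 0x6000007011012c00000e022024411)))))))
def t192 : k192.all (jb2 57 fl b0) = true := by decide +kernel
noncomputable def k193 : KT := (.br (Nat.shiftLeft (nat_lit 0xa000007011013) (nat_lit 64)) (.br (Nat.shiftLeft (nat_lit 0x8000007011013) (nat_lit 64)) (.br (Nat.shiftLeft (nat_lit 0x7000007011013) (nat_lit 64)) (.br (Nat.shiftLeft (nat_lit 0x7000007010013) (nat_lit 64)) (.br (Nat.shiftLeft (nat_lit 0x7) (nat_lit 112)) (.one (nat_lit 0x6000007011013c00000e022026411)) (.one (nat_lit 0x7000007010012e00000e020024411))) (.br (Nat.shiftLeft (nat_lit 0x1c00001c04005) (nat_lit 66)) (.one (nat_lit 0x7000007010013e00000e020026411)) (.br (Nat.shiftLeft (nat_lit 0x7000007011) (nat_lit 76)) (.one (nat_lit 0x7000007010014e00000e020028411)) (.one (nat_lit 0x7000007011012e00000e022024411))))) (.br (Nat.shiftLeft (nat_lit 0x8000007010013) (nat_lit 64)) (.br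 (Nat.shiftLeft (nat_lit 0x1) (nat_lit 115)) (.one (nat_lit 0x7000007011013e00000e022026411)) (.one (nat_lit 0x8000007010012000000e020126411))) (.br (Nat.shiftLeft (nat_lit 0x2000001c04005) (nat_lit 66)) (.one (nat_lit 0x8000007010013000000e020128411)) (.br (Nat.shiftLeft (nat_lit 0x8000007011) (nat_lit 76)) (.one (nat_lit 0x8000007010014000000e02012a411)) (.one (nat_lit 0x8000007011012000000e022126411)))))) (.br (Nat.shiftLeft (nat_lit 0x9000007011013) (nat_lit 64)) (.br (Nat.shiftLeft (nat_lit 0x9000007010013) (nat_lit 64)) (.br (Nat.shiftLeft (nat_lit 0x9) (nat_lit 112)) (.one (nat_lit 0x8000007011013000000e022128411)) (.one (nat_lit 0x9000007010012200000e020126411))) (.br (Nat.shiftLeft (nat_lit 0x2400001c04005) (nat_lit 66)) (.one (nat_lit 0x9000007010013200000e020128411)) (.br (Nat.shiftLeft (nat_lit 0x9000007011) (nat_lit 76)) (.one (nat_lit 0x9000007010014200000e02012a411)) (.one (nat_lit 0x9000007011012200000e022126411))))) (.br (Nat.shiftLeft (nat_lit 0xa000007010013) (nat_lit 64)) (.br (Nat.shiftLeft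 (nat_lit 0x5) (nat_lit 113)) (.one (nat_lit 0x9000007011013200000e022128411)) (.one (nat_lit 0xa000007010012400000e020126411))) (.br (Nat.shiftLeft (nat_lit 0x2800001c04005) (nat_lit 66)) (.one (nat_lit 0xa000007010013400000e020128411)) (.br (Nat.shiftLeft (nat_lit 0xa000007011) (nat_lit 76)) (.one (nat_lit 0xa000007010014400000e02012a411)) (.one (nat_lit 0xa000007011012400000e022126411))))))) (.br (Nat.shiftLeft (nat_lit 0xc000007011013) (nat_lit 64)) (.br (Nat.shiftLeft (nat_lit 0xb000007011013) (nat_lit 64)) (.br (Nat.shiftLeft (nat_lit 0xb000007010013) (nat_lit 64)) (.br (Nat.shiftLeft (nat_lit 0xb) (nat_lit 112)) (.one (nat_lit 0xa000007011013400000e022128411)) (.one (nat_lit 0xb000007010012600000e020126411))) (.br (Nat.shiftLeft (nat_lit 0x2c00001c04005) (nat_lit 66)) (.one (nat_lit 0xb000007010013600000e020128411)) (.br (Nat.shiftLeft (nat_lit 0xb000007011) (nat_lit 76)) (.one (nat_lit 0xb000007010014600000e02012a411)) (.one (nat_lit 0xb000007011012600000e022126411))))) (.br (Nat.shiftLeft (nat_lit 0xc000007010013)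 (nat_lit 64)) (.br (Nat.shiftLeft (nat_lit 0x3) (nat_lit 114)) (.one (nat_lit 0xb000007011013600000e022128411)) (.one (nat_lit 0xc000007010012800000e020126411))) (.br (Nat.shiftLeft (nat_lit 0x3000001c04005) (nat_lit 66)) (.one (nat_lit 0xc000007010013800000e020128411)) (.br (Nat.shiftLeft (nat_lit 0xc000007011) (nat_lit 76)) (.one (nat_lit 0xc000007010014800000e02012a411)) (.one (nat_lit 0xc000007011012800000e022126411)))))) (.br (Nat.shiftLeft (nat_lit 0xd000007011013) (nat_lit 64)) (.br (Nat.shiftLeft (nat_lit 0xd000007010013) (nat_lit 64)) (.br (Nat.shiftLeft (nat_lit 0xd) (nat_lit 112)) (.one (nat_lit 0xc000007011013800000e022128411)) (.one (nat_lit 0xd000007010012a00000e020126411))) (.br (Nat.shiftLeft (nat_lit 0x3400001c04005) (nat_lit 66)) (.one (nat_lit 0xd000007010013a00000e020128411)) (.br (Nat.shiftLeft (nat_lit 0xd000007011) (nat_lit 76)) (.one (nat_lit 0xd000007010014a00000e02012a411)) (.one (nat_lit 0xd000007011012a00000e022126411))))) (.br (Nat.shiftLeft (nat_lit 0xe000007010013) (nat_lit 64))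 (.br (Nat.shiftLeft (nat_lit 0x7) (nat_lit 113)) (.one (nat_lit 0xd000007011013a00000e022128411)) (.one (nat_lit 0xe000007010012c00000e020126411))) (.br (Nat.shiftLeft (nat_lit 0x3800001c04005) (nat_lit 66)) (.one (nat_lit 0xe000007010013c00000e020128411)) (.br (Nat.shiftLeft (nat_lit 0xe000007011) (nat_lit 76)) (.one (nat_lit 0xe000007010014c00000e02012a411)) (.one (nat_lit 0xe000007011012c00000e022126411))))))))
def t193 : k193.all (jb2 57 fl b0) = true := by decide +kernel
noncomputable def k194 : KT := (.br (Nat.shiftLeft (nat_lit 0x3) (nat_lit 125)) (.br (Nat.shiftLeft (nat_lit 0x1) (nat_lit 125)) (.br (Nat.shiftLeft (nat_lit 0xf000007011) (nat_lit 76)) (.br (Nat.shiftLeft (nat_lit 0xf) (nat_lit 112)) (.one (nat_lit 0xe000007011013c00000e022128411)) (.br (Nat.shiftLeft (nat_lit 0xf000007010013) (nat_lit 64)) (.one (nat_lit 0xf000007010012e00000e020126411)) (.one (nat_lit 0xf000007010013e00000e020128411)))) (.br (Nat.shiftLeft (nat_lit 0x1) (nat_lit 124)) (.br (Nat.shiftLeft (nat_lit 0x1) (nat_lit 116)) (.one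 (nat_lit 0xf000007011012e00000e022126411)) (.one (nat_lit 0x10000007010012000000e020228411))) (.br (Nat.shiftLeft (nat_lit 0x400001) (nat_lit 102)) (.one (nat_lit 0x1000003007010012000600e040424511)) (.one (nat_lit 0x1000004007010012000800e040424511))))) (.br (Nat.shiftLeft (nat_lit 0x1) (nat_lit 126)) (.br (Nat.shiftLeft (nat_lit 0x3) (nat_lit 124)) (.br (Nat.shiftLeft (nat_lit 0x800001) (nat_lit 102)) (.one (nat_lit 0x2000003007010012000600e060824511)) (.one (nat_lit 0x2000004007010012000800e060824511))) (.br (Nat.shiftLeft (nat_lit 0xc00001) (nat_lit 102)) (.one (nat_lit 0x3000003007010012000600e080c24511)) (.one (nat_lit 0x3000004007010012000800e080c24511)))) (.br (Nat.shiftLeft (nat_lit 0x5) (nat_lit 124)) (.br (Nat.shiftLeft (nat_lit 0x1000001) (nat_lit 102)) (.one (nat_lit 0x4000003007010012000600e0a1024511)) (.one (nat_lit 0x4000004007010012000800e0a1024511))) (.br (Nat.shiftLeft (nat_lit 0x1400001) (nat_lit 102)) (.one (nat_lit 0x5000003007010012000600e0c1424511)) (.one (nat_lit 0x5000004007010012000800e0c1424511))))))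 (.br (Nat.shiftLeft (nat_lit 0x2400001) (nat_lit 102)) (.br (Nat.shiftLeft (nat_lit 0x1c00001) (nat_lit 102)) (.br (Nat.shiftLeft (nat_lit 0x1800001) (nat_lit 102)) (.one (nat_lit 0x6000003007010012000600e0e1824511)) (.br (Nat.shiftLeft (nat_lit 0x7) (nat_lit 124)) (.one (nat_lit 0x6000004007010012000800e0e1824511)) (.one (nat_lit 0x7000003007010012000600e101c24511)))) (.br (Nat.shiftLeft (nat_lit 0x2000001) (nat_lit 102)) (.br (Nat.shiftLeft (nat_lit 0x1) (nat_lit 127)) (.one (nat_lit 0x7000004007010012000800e101c24511)) (.one (nat_lit 0x8000003007010012000600e122024511))) (.br (Nat.shiftLeft (nat_lit 0x9) (nat_lit 124)) (.one (nat_lit 0x8000004007010012000800e122024511)) (.one (nat_lit 0x9000003007010012000600e142424511))))) (.br (Nat.shiftLeft (nat_lit 0x2c00001) (nat_lit 102)) (.br (Nat.shiftLeft (nat_lit 0x2800001) (nat_lit 102)) (.br (Nat.shiftLeft (nat_lit 0x5) (nat_lit 125)) (.one (nat_lit 0x9000004007010012000800e142424511)) (.one (nat_lit 0xa000003007010012000600e162824511))) (.br (Nat.shiftLeft (nat_lit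 0xb) (nat_lit 124)) (.one (nat_lit 0xa000004007010012000800e162824511)) (.one (nat_lit 0xb000003007010012000600e182c24511)))) (.br (Nat.shiftLeft (nat_lit 0x3000001) (nat_lit 102)) (.br (Nat.shiftLeft (nat_lit 0x3) (nat_lit 126)) (.one (nat_lit 0xb000004007010012000800e182c24511)) (.one (nat_lit 0xc000003007010012000600e1a3024511))) (.br (Nat.shiftLeft (nat_lit 0xd) (nat_lit 124)) (.one (nat_lit 0xc000004007010012000800e1a3024511)) (.one (nat_lit 0xd000003007010012000600e1c3424511)))))))
def t194 : k194.all (jb2 57 fl b0) = true := by decide +kernel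
noncomputable def s8 : KT := (.br (nat_lit 0x4007010014000800e020028540) (.br (nat_lit 0x2007011012000400e022024540) (.br (nat_lit 0x1007011013000200e022026540) (.br (nat_lit 0x1007010013000200e020026540) k167 (.br (nat_lit 0x1007011012000200e022024540) k168 k169)) (.br (nat_lit 0x2007010013000400e020026540) (.br (nat_lit 0x2007010012000400e020024540) k170 k171) (.br (nat_lit 0x2007010014000400e020028540) k172 k173))) (.br (nat_lit 0x3007010014000600e020028540) (.br (nat_lit 0x3007010012000600e020025500) k174 (.br (nat_lit 0x3007010013000600e020026540) k175 k176)) (.br (nat_lit 0x4007010012000800e020025500) (.br (nat_lit 0x3007011012000600e022024540) k177 k178) (.br (nat_lit 0x4007010013000800e020026540) k179 k180)))) (.br (nat_lit 0x5007011013000a00e022026540) (.br (nat_lit 0x5007010012000a00e020024540) (.br (nat_lit 0x4007011012000800e022024540) k181 (.br (nat_lit 0x4007011013000800e022026540) k182 k183)) (.br (nat_lit 0x5007010014000a00e020028540) (.br (nat_lit 0x5007010013000a00e020026540) k184 k185) (.br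 (nat_lit 0x5007011012000a00e022024540) k186 k187))) (.br (nat_lit 0x1000007011013200000e022026411) (.br (nat_lit 0x6007010012000c00e020024540) k188 (.br (nat_lit 0x6007010014000c00e020028540) k189 k190)) (.br (nat_lit 0x6000007011012c00000e022024411) (.br (nat_lit 0x2003007010012400600e020024650) k191 k192) (.br (nat_lit 0xe000007011012c00000e022126411) k193 k194)))))
noncomputable def u8 : KT := (.br (Nat.shiftLeft (nat_lit 0x1) (nat_lit 91)) (.br (Nat.shiftLeft (nat_lit 0x1c04005) (nat_lit 66)) (.br (Nat.shiftLeft (nat_lit 0x7010013) (nat_lit 64)) (.one (nat_lit 0x7010012000000e020024430)) (.one (nat_lit 0x7010013000000e020026430))) (.br (Nat.shiftLeft (nat_lit 0x7011) (nat_lit 76)) (.one (nat_lit 0x7010014000000e020028430)) (.br (Nat.shiftLeft (nat_lit 0x7011013) (nat_lit 64)) (.one (nat_lit 0x7011012000000e022024430)) (.one (nat_lit 0x7011013000000e022026430))))) (.br (Nat.shiftLeft (nat_lit 0x8009011) (nat_lit 64)) (.br (Nat.shiftLeft (nat_lit 0x800901) (nat_lit 68)) (.one (nat_lit 0x800900f000001001201f400))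 (.one (nat_lit 0x80090100000010012021400))) (.br (Nat.shiftLeft (nat_lit 0x4004809) (nat_lit 65)) (.one (nat_lit 0x80090110000010012023400)) (.br (Nat.shiftLeft (nat_lit 0x8009013) (nat_lit 64)) (.one (nat_lit 0x80090120000010012025400)) (.one (nat_lit 0x80090130000010012027400))))))
def w8 : u8.all (wj 57 s8) = true := by decide +kernel
def o8 : OkW 57 (jb2 57 fl) u8 := .lift s8 _ (.br _ _ _ (.br _ _ _ (.br _ _ _ (.br _ _ _ (.leaf b0 k167 t167) (.br _ _ _ (.leaf b0 k168 t168) (.leaf b0 k169 t169))) (.br _ _ _ (.br _ _ _ (.leaf b0 k170 t170) (.leaf b0 k171 t171)) (.br _ _ _ (.leaf b0 k172 t172) (.leaf b0 k173 t173)))) (.br _ _ _ (.br _ _ _ (.leaf b0 k174 t174) (.br _ _ _ (.leaf b0 k175 t175) (.leaf b0 k176 t176))) (.br _ _ _ (.br _ _ _ (.leaf b0 k177 t177) (.leaf b0 k178 t178)) (.br _ _ _ (.leaf b0 k179 t179) (.leaf b0 k180 t180))))) (.br _ _ _ (.br _ _ _ (.br _ _ _ (.leaf b0 k181 t181) (.br _ _ _ (.leaf b0 k182 t182) (.leaf b0 k183 t183))) (.br _ _ _ (.br _ _ _ (.leaf b0 k184 t184) (.leaf b0 k185 t185)) (.br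 _ _ _ (.leaf b0 k186 t186) (.leaf b0 k187 t187)))) (.br _ _ _ (.br _ _ _ (.leaf b0 k188 t188) (.br _ _ _ (.leaf b0 k189 t189) (.leaf b0 k190 t190))) (.br _ _ _ (.br _ _ _ (.leaf b0 k191 t191) (.leaf b0 k192 t192)) (.br _ _ _ (.leaf b0 k193 t193) (.leaf b0 k194 t194)))))) w8
noncomputable def k195 : KT := (.br (Nat.shiftLeft (nat_lit 0x5) (nat_lit 100)) (.br (Nat.shiftLeft (nat_lit 0x1) (nat_lit 101)) (.br (Nat.shiftLeft (nat_lit 0x1) (nat_lit 100)) (.one (nat_lit 0x80090140000010012029400)) (.one (nat_lit 0x10080090140002010012028540))) (.br (Nat.shiftLeft (nat_lit 0x3) (nat_lit 100)) (.one (nat_lit 0x20080090140004010012029500)) (.br (Nat.shiftLeft (nat_lit 0x1) (nat_lit 102)) (.one (nat_lit 0x30080090140006010012029500)) (.one (nat_lit 0x40080090140008010012029500))))) (.br (Nat.shiftLeft (nat_lit 0x1) (nat_lit 112)) (.br (Nat.shiftLeft (nat_lit 0x3) (nat_lit 101)) (.one (nat_lit 0x5008009014000a010012029500)) (.br (Nat.shiftLeft (nat_lit 0x7) (nat_lit 100)) (.one (nat_lit 0x6008009014000c010012029500)) (.one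 (nat_lit 0x7008009014000e010012029500)))) (.br (Nat.shiftLeft (nat_lit 0x801) (nat_lit 101)) (.one (nat_lit 0x10000080090142000010012028411)) (.br (Nat.shiftLeft (nat_lit 0x1003) (nat_lit 100)) (.one (nat_lit 0x10020080090142004010012029600)) (.one (nat_lit 0x10030080090142006010012029600))))))
def t195 : k195.all (jb2 57 fl b0) = true := by decide +kernel
noncomputable def k196 : KT := (.one (nat_lit 0x10040080090142008010012028650))
def t196 : k196.all (jb2 57 fl b0) = true := by decide +kernel
noncomputable def k197 : KT := (.br (Nat.shiftLeft (nat_lit 0x803) (nat_lit 101)) (.one (nat_lit 0x1005008009014200a010012028650)) (.one (nat_lit 0x1006008009014200c010012028650)))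
def t197 : k197.all (jb2 57 fl b0) = true := by decide +kernel
noncomputable def k198 : KT := (.br (Nat.shiftLeft (nat_lit 0x1) (nat_lit 113)) (.one (nat_lit 0x1007008009014200e010012028650)) (.br (Nat.shiftLeft (nat_lit 0x1001) (nat_lit 101)) (.one (nat_lit 0x20000080090144000010012028411)) (.one (nat_lit 0x20030080090144006010012029600))))
def t198 : k198.all (jb2 57 fl b0) = true := by decide +kernel
noncomputable def k199 : KT := (.one (nat_lit 0x20040080090144008010012028650))
def t199 : k199.all (jb2 57 fl b0) = true := by decide +kernel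
noncomputable def k200 : KT := (.one (nat_lit 0x2005008009014400a010012028650))
def t200 : k200.all (jb2 57 fl b0) = true := by decide +kernel
noncomputable def k201 : KT := (.br (Nat.shiftLeft (nat_lit 0x3) (nat_lit 112)) (.br (Nat.shiftLeft (nat_lit 0x2007) (nat_lit 100)) (.one (nat_lit 0x2006008009014400c010012028650)) (.one (nat_lit 0x2007008009014400e010012028650))) (.br (Nat.shiftLeft (nat_lit 0xc01) (nat_lit 102)) (.one (nat_lit 0x30000080090146000010012028411)) (.one (nat_lit 0x30040080090146008010012029600))))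
def t201 : k201.all (jb2 57 fl b0) = true := by decide +kernel
noncomputable def k202 : KT := (.one (nat_lit 0x3005008009014600a010012028650))
def t202 : k202.all (jb2 57 fl b0) = true := by decide +kernel
noncomputable def k203 : KT := (.br (Nat.shiftLeft (nat_lit 0x3007) (nat_lit 100)) (.one (nat_lit 0x3006008009014600c010012028650)) (.br (Nat.shiftLeft (nat_lit 0x1) (nat_lit 114)) (.one (nat_lit 0x3007008009014600e010012028650)) (.one (nat_lit 0x40000080090148000010012028411))))
def t203 : k203.all (jb2 57 fl b0) = true := by decide +kernel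
noncomputable def k204 : KT := (.one (nat_lit 0x4005008009014800a010012028650))
def t204 : k204.all (jb2 57 fl b0) = true := by decide +kernel
noncomputable def k205 : KT := (.br (Nat.shiftLeft (nat_lit 0x4007) (nat_lit 100)) (.one (nat_lit 0x4006008009014800c010012028650)) (.br (Nat.shiftLeft (nat_lit 0x5) (nat_lit 112)) (.one (nat_lit 0x4007008009014800e010012028650)) (.one (nat_lit 0x5000008009014a000010012028411))))
def t205 : k205.all (jb2 57 fl b0) = true := by decide +kernel
noncomputable def k206 : KT := (.br (Nat.shiftLeft (nat_lit 0x3) (nat_lit 113)) (.br (Nat.shiftLeft (nat_lit 0x5007) (nat_lit 100)) (.one (nat_lit 0x5006008009014a00c010012028650)) (.one (nat_lit 0x5007008009014a00e010012028650))) (.br (Nat.shiftLeft (nat_lit 0x1801) (nat_lit 102)) (.one (nat_lit 0x6000008009014c000010012028411)) (.br (Nat.shiftLeft (nat_lit 0x7) (nat_lit 112)) (.one (nat_lit 0x6007008009014c00e010012028650)) (.one (nat_lit 0x7000008009014e000010012028411)))))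
def t206 : k206.all (jb2 57 fl b0) = true := by decide +kernel
noncomputable def k207 : KT := (.br (Nat.shiftLeft (nat_lit 0x400001) (nat_lit 102)) (.br (Nat.shiftLeft (nat_lit 0x1) (nat_lit 124)) (.br (Nat.shiftLeft (nat_lit 0x9) (nat_lit 112)) (.one (nat_lit 0x8000008009014000001001212a411)) (.one (nat_lit 0x9000008009014200001001212a411))) (.br (Nat.shiftLeft (nat_lit 0x1000003) (nat_lit 100)) (.one (nat_lit 0x10000020080090140004010032428511)) (.one (nat_lit 0x10000030080090140006010032428511)))) (.br (Nat.shiftLeft (nat_lit 0x800003) (nat_lit 101)) (.br (Nat.shiftLeft (nat_lit 0x1000005) (nat_lit 100)) (.one (nat_lit 0x10000040080090140008010032428511)) (.one (nat_lit 0x1000005008009014000a010032428511))) (.br (Nat.shiftLeft (nat_lit 0x1000007) (nat_lit 100)) (.one (nat_lit 0x1000006008009014000c010032428511)) (.br (Nat.shiftLeft (nat_lit 0x801) (nat_lit 113)) (.one (nat_lit 0x1000007008009014000e010032428511)) (.one (nat_lit 0x10020030080090144006010032428760))))))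
def t207 : k207.all (jb2 57 fl b0) = true := by decide +kernel
noncomputable def k208 : KT := (.br (Nat.shiftLeft (nat_lit 0x3) (nat_lit 124)) (.br (Nat.shiftLeft (nat_lit 0x2000005) (nat_lit 100)) (.br (Nat.shiftLeft (nat_lit 0x2000003) (nat_lit 100)) (.br (Nat.shiftLeft (nat_lit 0x1) (nat_lit 125)) (.one (nat_lit 0x10030040080090146008010032428760)) (.one (nat_lit 0x20000020080090140004010052828511))) (.br (Nat.shiftLeft (nat_lit 0x800001) (nat_lit 102)) (.one (nat_lit 0x20000030080090140006010052828511)) (.one (nat_lit 0x20000040080090140008010052828511)))) (.br (Nat.shiftLeft (nat_lit 0x2000007) (nat_lit 100)) (.br (Nat.shiftLeft (nat_lit 0x1000003) (nat_lit 101)) (.one (nat_lit 0x2000005008009014000a010052828511)) (.one (nat_lit 0x2000006008009014000c010052828511))) (.br (Nat.shiftLeft (nat_lit 0x1001) (nat_lit 113)) (.one (nat_lit 0x2000007008009014000e010052828511)) (.one (nat_lit 0x20030040080090146008010052828760))))) (.br (Nat.shiftLeft (nat_lit 0x1800003) (nat_lit 101)) (.br (Nat.shiftLeft (nat_lit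 0xc00001) (nat_lit 102)) (.br (Nat.shiftLeft (nat_lit 0x3000003) (nat_lit 100)) (.one (nat_lit 0x30000020080090140004010072c28511)) (.one (nat_lit 0x30000030080090140006010072c28511))) (.br (Nat.shiftLeft (nat_lit 0x3000005) (nat_lit 100)) (.one (nat_lit 0x30000040080090140008010072c28511)) (.one (nat_lit 0x3000005008009014000a010072c28511)))) (.br (Nat.shiftLeft (nat_lit 0x1) (nat_lit 126)) (.br (Nat.shiftLeft (nat_lit 0x3000007) (nat_lit 100)) (.one (nat_lit 0x3000006008009014000c010072c28511)) (.one (nat_lit 0x3000007008009014000e010072c28511))) (.br (Nat.shiftLeft (nat_lit 0x4000003) (nat_lit 100)) (.one (nat_lit 0x40000020080090140004010093028511)) (.one (nat_lit 0x40000030080090140006010093028511))))))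
def t208 : k208.all (jb2 57 fl b0) = true := by decide +kernel
noncomputable def k209 : KT := (.br (Nat.shiftLeft (nat_lit 0x5000003) (nat_lit 100)) (.br (Nat.shiftLeft (nat_lit 0x2000003) (nat_lit 101)) (.br (Nat.shiftLeft (nat_lit 0x4000005) (nat_lit 100)) (.one (nat_lit 0x40000040080090140008010093028511)) (.one (nat_lit 0x4000005008009014000a010093028511))) (.br (Nat.shiftLeft (nat_lit 0x4000007) (nat_lit 100)) (.one (nat_lit 0x4000006008009014000c010093028511)) (.br (Nat.shiftLeft (nat_lit 0x5) (nat_lit 124)) (.one (nat_lit 0x4000007008009014000e010093028511)) (.one (nat_lit 0x500000200800901400040100b3428511))))) (.br (Nat.shiftLeft (nat_lit 0x5000005) (nat_lit 100)) (.br (Nat.shiftLeft (nat_lit 0x1400001) (nat_lit 102)) (.one (nat_lit 0x500000300800901400060100b3428511)) (.one (nat_lit 0x500000400800901400080100b3428511))) (.br (Nat.shiftLeft (nat_lit 0x2800003) (nat_lit 101)) (.one (nat_lit 0x5000005008009014000a0100b3428511)) (.br (Nat.shiftLeft (nat_lit 0x5000007) (nat_lit 100)) (.one (nat_lit 0x5000006008009014000c0100b3428511))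 (.one (nat_lit 0x5000007008009014000e0100b3428511))))))
def t209 : k209.all (jb2 57 fl b0) = true := by decide +kernel
noncomputable def k210 : KT := (.br (Nat.shiftLeft (nat_lit 0x6000005) (nat_lit 100)) (.br (Nat.shiftLeft (nat_lit 0x6000003) (nat_lit 100)) (.one (nat_lit 0x600000200800901400040100d3828511)) (.br (Nat.shiftLeft (nat_lit 0x1800001) (nat_lit 102)) (.one (nat_lit 0x600000300800901400060100d3828511)) (.one (nat_lit 0x600000400800901400080100d3828511)))) (.br (Nat.shiftLeft (nat_lit 0x3000003) (nat_lit 101)) (.one (nat_lit 0x6000005008009014000a0100d3828511)) (.br (Nat.shiftLeft (nat_lit 0x6000007) (nat_lit 100)) (.one (nat_lit 0x6000006008009014000c0100d3828511)) (.one (nat_lit 0x6000007008009014000e0100d3828511)))))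
def t210 : k210.all (jb2 57 fl b0) = true := by decide +kernel
noncomputable def k211 : KT := (.br (Nat.shiftLeft (nat_lit 0x7000005) (nat_lit 100)) (.br (Nat.shiftLeft (nat_lit 0x7000003) (nat_lit 100)) (.one (nat_lit 0x700000200800901400040100f3c28511)) (.br (Nat.shiftLeft (nat_lit 0x1c00001) (nat_lit 102)) (.one (nat_lit 0x700000300800901400060100f3c28511)) (.one (nat_lit 0x700000400800901400080100f3c28511)))) (.br (Nat.shiftLeft (nat_lit 0x3800003) (nat_lit 101)) (.one (nat_lit 0x7000005008009014000a0100f3c28511)) (.br (Nat.shiftLeft (nat_lit 0x7000007) (nat_lit 100)) (.one (nat_lit 0x7000006008009014000c0100f3c28511)) (.one (nat_lit 0x7000007008009014000e0100f3c28511)))))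
def t211 : k211.all (jb2 57 fl b0) = true := by decide +kernel
noncomputable def k212 : KT := (.br (Nat.shiftLeft (nat_lit 0x4000003) (nat_lit 101)) (.br (Nat.shiftLeft (nat_lit 0x2000001) (nat_lit 102)) (.br (Nat.shiftLeft (nat_lit 0x8000003) (nat_lit 100)) (.one (nat_lit 0x80000020080090140004010114028511)) (.one (nat_lit 0x80000030080090140006010114028511))) (.br (Nat.shiftLeft (nat_lit 0x8000005) (nat_lit 100)) (.one (nat_lit 0x80000040080090140008010114028511)) (.one (nat_lit 0x8000005008009014000a010114028511)))) (.br (Nat.shiftLeft (nat_lit 0x9) (nat_lit 124)) (.br (Nat.shiftLeft (nat_lit 0x8000007) (nat_lit 100)) (.one (nat_lit 0x8000006008009014000c010114028511)) (.one (nat_lit 0x8000007008009014000e010114028511))) (.br (Nat.shiftLeft (nat_lit 0x9000003) (nat_lit 100)) (.one (nat_lit 0x90000020080090140004010134428511)) (.one (nat_lit 0x90000030080090140006010134428511)))))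
def t212 : k212.all (jb2 57 fl b0) = true := by decide +kernel
noncomputable def k213 : KT := (.br (Nat.shiftLeft (nat_lit 0x1000001) (nat_lit 113)) (.br (Nat.shiftLeft (nat_lit 0x1000001003) (nat_lit 100)) (.br (Nat.shiftLeft (nat_lit 0x4800003) (nat_lit 101)) (.br (Nat.shiftLeft (nat_lit 0x9000005) (nat_lit 100)) (.one (nat_lit 0x90000040080090140008010134428511)) (.one (nat_lit 0x9000005008009014000a010134428511))) (.br (Nat.shiftLeft (nat_lit 0x9000007) (nat_lit 100)) (.one (nat_lit 0x9000006008009014000c010134428511)) (.br (Nat.shiftLeft (nat_lit 0x1) (nat_lit 136)) (.one (nat_lit 0x9000007008009014000e010134428511)) (.one (nat_lit 0x10000010020080090142004030412028611))))) (.br (Nat.shiftLeft (nat_lit 0x1000003) (nat_lit 112)) (.br (Nat.shiftLeft (nat_lit 0x800001) (nat_lit 113)) (.one (nat_lit 0x10000010030080090142006030412028611)) (.one (nat_lit 0x10000020030080090144006030412028611))) (.br (Nat.shiftLeft (nat_lit 0x1) (nat_lit 137)) (.one (nat_lit 0x10000030040080090146008030412028611)) (.br (Nat.shiftLeft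 (nat_lit 0x2000001003) (nat_lit 100)) (.one (nat_lit 0x20000010020080090142004050812028611)) (.one (nat_lit 0x20000010030080090142006050812028611)))))) (.br (Nat.shiftLeft (nat_lit 0x3000003) (nat_lit 112)) (.br (Nat.shiftLeft (nat_lit 0x3) (nat_lit 136)) (.br (Nat.shiftLeft (nat_lit 0x2000003) (nat_lit 112)) (.one (nat_lit 0x20000020030080090144006050812028611)) (.one (nat_lit 0x20000030040080090146008050812028611))) (.br (Nat.shiftLeft (nat_lit 0x3000001003) (nat_lit 100)) (.one (nat_lit 0x30000010020080090142004070c12028611)) (.br (Nat.shiftLeft (nat_lit 0x1800001) (nat_lit 113)) (.one (nat_lit 0x30000010030080090142006070c12028611)) (.one (nat_lit 0x30000020030080090144006070c12028611))))) (.br (Nat.shiftLeft (nat_lit 0x2000001) (nat_lit 113)) (.br (Nat.shiftLeft (nat_lit 0x1) (nat_lit 138)) (.one (nat_lit 0x30000030040080090146008070c12028611)) (.br (Nat.shiftLeft (nat_lit 0x4000001003) (nat_lit 100)) (.one (nat_lit 0x40000010020080090142004091012028611)) (.one (nat_lit 0x40000010030080090142006091012028611))))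 (.br (Nat.shiftLeft (nat_lit 0x4000003) (nat_lit 112)) (.one (nat_lit 0x40000020030080090144006091012028611)) (.br (Nat.shiftLeft (nat_lit 0x5) (nat_lit 136)) (.one (nat_lit 0x40000030040080090146008091012028611)) (.one (nat_lit 0x500000100200800901420040b1412028611)))))))
def t213 : k213.all (jb2 57 fl b0) = true := by decide +kernel
noncomputable def k214 : KT := (.br (Nat.shiftLeft (nat_lit 0x5000003) (nat_lit 112)) (.br (Nat.shiftLeft (nat_lit 0x2800001) (nat_lit 113)) (.one (nat_lit 0x500000100300800901420060b1412028611)) (.one (nat_lit 0x500000200300800901440060b1412028611))) (.br (Nat.shiftLeft (nat_lit 0x3) (nat_lit 137)) (.one (nat_lit 0x500000300400800901460080b1412028611)) (.br (Nat.shiftLeft (nat_lit 0x6000001003) (nat_lit 100)) (.one (nat_lit 0x600000100200800901420040d1812028611)) (.one (nat_lit 0x600000100300800901420060d1812028611)))))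
def t214 : k214.all (jb2 57 fl b0) = true := by decide +kernel
noncomputable def k215 : KT := (.br (Nat.shiftLeft (nat_lit 0x7000001003) (nat_lit 100)) (.br (Nat.shiftLeft (nat_lit 0x6000003) (nat_lit 112)) (.one (nat_lit 0x600000200300800901440060d1812028611)) (.br (Nat.shiftLeft (nat_lit 0x7) (nat_lit 136)) (.one (nat_lit 0x600000300400800901460080d1812028611)) (.one (nat_lit 0x700000100200800901420040f1c12028611)))) (.br (Nat.shiftLeft (nat_lit 0x3800001) (nat_lit 113)) (.one (nat_lit 0x700000100300800901420060f1c12028611)) (.br (Nat.shiftLeft (nat_lit 0x7000003) (nat_lit 112)) (.one (nat_lit 0x700000200300800901440060f1c12028611)) (.one (nat_lit 0x700000300400800901460080f1c12028611)))))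
def t215 : k215.all (jb2 57 fl b0) = true := by decide +kernel
noncomputable def k216 : KT := (.br (Nat.shiftLeft (nat_lit 0x9) (nat_lit 136)) (.br (Nat.shiftLeft (nat_lit 0x4000001) (nat_lit 113)) (.br (Nat.shiftLeft (nat_lit 0x8000001003) (nat_lit 100)) (.one (nat_lit 0x80000010020080090142004112012028611)) (.one (nat_lit 0x80000010030080090142006112012028611))) (.br (Nat.shiftLeft (nat_lit 0x8000003) (nat_lit 112)) (.one (nat_lit 0x80000020030080090144006112012028611)) (.one (nat_lit 0x80000030040080090146008112012028611)))) (.br (Nat.shiftLeft (nat_lit 0x4800001) (nat_lit 113)) (.br (Nat.shiftLeft (nat_lit 0x9000001003) (nat_lit 100)) (.one (nat_lit 0x90000010020080090142004132412028611)) (.one (nat_lit 0x90000010030080090142006132412028611))) (.br (Nat.shiftLeft (nat_lit 0x9000003) (nat_lit 112)) (.one (nat_lit 0x90000020030080090144006132412028611)) (.one (nat_lit 0x90000030040080090146008132412028611)))))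
def t216 : k216.all (jb2 57 fl b0) = true := by decide +kernel
noncomputable def s9 : KT := (.br (nat_lit 0x5000008009014a000010012028411) (.br (nat_lit 0x20040080090144008010012028650) (.br (nat_lit 0x10040080090142008010012028650) (.br (nat_lit 0x10030080090142006010012029600) k195 k196) (.br (nat_lit 0x1006008009014200c010012028650) k197 (.br (nat_lit 0x20030080090144006010012029600) k198 k199))) (.br (nat_lit 0x3005008009014600a010012028650) (.br (nat_lit 0x2005008009014400a010012028650) k200 (.br (nat_lit 0x30040080090146008010012029600) k201 k202)) (.br (nat_lit 0x40000080090148000010012028411) k203 (.br (nat_lit 0x4005008009014800a010012028650) k204 k205)))) (.br (nat_lit 0x6000007008009014000e0100d3828511) (.br (nat_lit 0x10020030080090144006010032428760) (.br (nat_lit 0x7000008009014e000010012028411) k206 k207) (.br (nat_lit 0x40000030080090140006010093028511) k208 (.br (nat_lit 0x5000007008009014000e0100b3428511) k209 k210))) (.br (nat_lit 0x500000100200800901420040b1412028611) (.br (nat_lit 0x7000007008009014000e0100f3c28511)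 k211 (.br (nat_lit 0x90000030080090140006010134428511) k212 k213)) (.br (nat_lit 0x600000100300800901420060d1812028611) k214 (.br (nat_lit 0x700000300400800901460080f1c12028611) k215 k216)))))
noncomputable def u9 : KT := (.one (nat_lit 0x80090140000010012028430))
def w9 : u9.all (wj 57 s9) = true := by decide +kernel
def o9 : OkW 57 (jb2 57 fl) u9 := .lift s9 _ (.br _ _ _ (.br _ _ _ (.br _ _ _ (.br _ _ _ (.leaf b0 k195 t195) (.leaf b0 k196 t196)) (.br _ _ _ (.leaf b0 k197 t197) (.br _ _ _ (.leaf b0 k198 t198) (.leaf b0 k199 t199)))) (.br _ _ _ (.br _ _ _ (.leaf b0 k200 t200) (.br _ _ _ (.leaf b0 k201 t201) (.leaf b0 k202 t202))) (.br _ _ _ (.leaf b0 k203 t203) (.br _ _ _ (.leaf b0 k204 t204) (.leaf b0 k205 t205))))) (.br _ _ _ (.br _ _ _ (.br _ _ _ (.leaf b0 k206 t206) (.leaf b0 k207 t207)) (.br _ _ _ (.leaf b0 k208 t208) (.br _ _ _ (.leaf b0 k209 t209) (.leaf b0 k210 t210)))) (.br _ _ _ (.br _ _ _ (.leaf b0 k211 t211) (.br _ _ _ (.leaf b0 k212 t212) (.leaf b0 k213 t213))) (.br _ _ _ (.leaf b0 k214 t214) (.br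 _ _ _ (.leaf b0 k215 t215) (.leaf b0 k216 t216)))))) w9
noncomputable def k217 : KT := (.br (Nat.shiftLeft (nat_lit 0x1) (nat_lit 102)) (.br (Nat.shiftLeft (nat_lit 0x1) (nat_lit 101)) (.br (Nat.shiftLeft (nat_lit 0x1) (nat_lit 100)) (.one (nat_lit 0x8009015000001001202b400)) (.one (nat_lit 0x1008009015000201001202a540))) (.br (Nat.shiftLeft (nat_lit 0x3) (nat_lit 100)) (.one (nat_lit 0x2008009015000401001202b500)) (.one (nat_lit 0x3008009015000601001202b500)))) (.br (Nat.shiftLeft (nat_lit 0x3) (nat_lit 101)) (.br (Nat.shiftLeft (nat_lit 0x5) (nat_lit 100)) (.one (nat_lit 0x4008009015000801001202b500)) (.one (nat_lit 0x5008009015000a01001202b500))) (.br (Nat.shiftLeft (nat_lit 0x7) (nat_lit 100)) (.one (nat_lit 0x6008009015000c01001202b500)) (.br (Nat.shiftLeft (nat_lit 0x1) (nat_lit 112)) (.one (nat_lit 0x7008009015000e01001202b500)) (.one (nat_lit 0x1000008009015200001001202a411))))))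
def t217 : k217.all (jb2 57 fl b0) = true := by decide +kernel
noncomputable def k218 : KT := (.one (nat_lit 0x1002008009015200401001202a650))
def t218 : k218.all (jb2 57 fl b0) = true := by decide +kernel
noncomputable def k219 : KT := (.one (nat_lit 0x1003008009015200601001202a650))
def t219 : k219.all (jb2 57 fl b0) = true := by decide +kernel
noncomputable def k220 : KT := (.br (Nat.shiftLeft (nat_lit 0x1005) (nat_lit 100)) (.one (nat_lit 0x1004008009015200801001202a650)) (.one (nat_lit 0x1005008009015200a01001202a650)))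
def t220 : k220.all (jb2 57 fl b0) = true := by decide +kernel
noncomputable def k221 : KT := (.br (Nat.shiftLeft (nat_lit 0x1007) (nat_lit 100)) (.one (nat_lit 0x1006008009015200c01001202a650)) (.br (Nat.shiftLeft (nat_lit 0x1) (nat_lit 113)) (.one (nat_lit 0x1007008009015200e01001202a650)) (.one (nat_lit 0x2000008009015400001001202a411))))
def t221 : k221.all (jb2 57 fl b0) = true := by decide +kernel
noncomputable def k222 : KT := (.one (nat_lit 0x2003008009015400601001202a650))
def t222 : k222.all (jb2 57 fl b0) = true := by decide +kernel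
noncomputable def k223 : KT := (.one (nat_lit 0x2004008009015400801001202a650))
def t223 : k223.all (jb2 57 fl b0) = true := by decide +kernel
noncomputable def k224 : KT := (.br (Nat.shiftLeft (nat_lit 0x1003) (nat_lit 101)) (.one (nat_lit 0x2005008009015400a01001202a650)) (.one (nat_lit 0x2006008009015400c01001202a650)))
def t224 : k224.all (jb2 57 fl b0) = true := by decide +kernel
noncomputable def k225 : KT := (.br (Nat.shiftLeft (nat_lit 0x3) (nat_lit 112)) (.one (nat_lit 0x2007008009015400e01001202a650)) (.one (nat_lit 0x3000008009015600001001202a411)))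
def t225 : k225.all (jb2 57 fl b0) = true := by decide +kernel
noncomputable def k226 : KT := (.one (nat_lit 0x3004008009015600801001202a650))
def t226 : k226.all (jb2 57 fl b0) = true := by decide +kernel
noncomputable def k227 : KT := (.br (Nat.shiftLeft (nat_lit 0x1803) (nat_lit 101)) (.one (nat_lit 0x3005008009015600a01001202a650)) (.one (nat_lit 0x3006008009015600c01001202a650)))
def t227 : k227.all (jb2 57 fl b0) = true := by decide +kernel
noncomputable def k228 : KT := (.br (Nat.shiftLeft (nat_lit 0x1) (nat_lit 114)) (.one (nat_lit 0x3007008009015600e01001202a650)) (.br (Nat.shiftLeft (nat_lit 0x1001) (nat_lit 102)) (.one (nat_lit 0x4000008009015800001001202a411)) (.one (nat_lit 0x4005008009015800a01001202a650))))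
def t228 : k228.all (jb2 57 fl b0) = true := by decide +kernel
noncomputable def k229 : KT := (.br (Nat.shiftLeft (nat_lit 0x5) (nat_lit 112)) (.br (Nat.shiftLeft (nat_lit 0x4007) (nat_lit 100)) (.one (nat_lit 0x4006008009015800c01001202a650)) (.one (nat_lit 0x4007008009015800e01001202a650))) (.br (Nat.shiftLeft (nat_lit 0x1401) (nat_lit 102)) (.one (nat_lit 0x5000008009015a00001001202a411)) (.one (nat_lit 0x5006008009015a00c01001202a650))))
def t229 : k229.all (jb2 57 fl b0) = true := by decide +kernel
noncomputable def k230 : KT := (.br (Nat.shiftLeft (nat_lit 0x800001) (nat_lit 102)) (.br (Nat.shiftLeft (nat_lit 0x1000003) (nat_lit 100)) (.br (Nat.shiftLeft (nat_lit 0x7) (nat_lit 112)) (.br (Nat.shiftLeft (nat_lit 0x3) (nat_lit 113)) (.one (nat_lit 0x5007008009015a00e01001202a650)) (.br (Nat.shiftLeft (nat_lit 0x1801) (nat_lit 102)) (.one (nat_lit 0x6000008009015c00001001202a411)) (.one (nat_lit 0x6007008009015c00e01001202a650)))) (.br (Nat.shiftLeft (nat_lit 0x9) (nat_lit 112)) (.br (Nat.shiftLeft (nat_lit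 0x1) (nat_lit 115)) (.one (nat_lit 0x7000008009015e00001001202a411)) (.one (nat_lit 0x8000008009015000001001212c411))) (.br (Nat.shiftLeft (nat_lit 0x1) (nat_lit 124)) (.one (nat_lit 0x9000008009015200001001212c411)) (.one (nat_lit 0x1000002008009015000401003242a511))))) (.br (Nat.shiftLeft (nat_lit 0x800003) (nat_lit 101)) (.br (Nat.shiftLeft (nat_lit 0x400001) (nat_lit 102)) (.one (nat_lit 0x1000003008009015000601003242a511)) (.br (Nat.shiftLeft (nat_lit 0x1000005) (nat_lit 100)) (.one (nat_lit 0x1000004008009015000801003242a511)) (.one (nat_lit 0x1000005008009015000a01003242a511)))) (.br (Nat.shiftLeft (nat_lit 0x1) (nat_lit 125)) (.br (Nat.shiftLeft (nat_lit 0x1000007) (nat_lit 100)) (.one (nat_lit 0x1000006008009015000c01003242a511)) (.one (nat_lit 0x1000007008009015000e01003242a511))) (.br (Nat.shiftLeft (nat_lit 0x2000003) (nat_lit 100)) (.one (nat_lit 0x2000002008009015000401005282a511)) (.one (nat_lit 0x2000003008009015000601005282a511)))))) (.br (Nat.shiftLeft (nat_lit 0x3000005) (nat_lit 100)) (.br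 (Nat.shiftLeft (nat_lit 0x2000007) (nat_lit 100)) (.br (Nat.shiftLeft (nat_lit 0x2000005) (nat_lit 100)) (.one (nat_lit 0x2000004008009015000801005282a511)) (.br (Nat.shiftLeft (nat_lit 0x1000003) (nat_lit 101)) (.one (nat_lit 0x2000005008009015000a01005282a511)) (.one (nat_lit 0x2000006008009015000c01005282a511)))) (.br (Nat.shiftLeft (nat_lit 0x3000003) (nat_lit 100)) (.br (Nat.shiftLeft (nat_lit 0x3) (nat_lit 124)) (.one (nat_lit 0x2000007008009015000e01005282a511)) (.one (nat_lit 0x30000020080090150004010072c2a511))) (.br (Nat.shiftLeft (nat_lit 0xc00001) (nat_lit 102)) (.one (nat_lit 0x30000030080090150006010072c2a511)) (.one (nat_lit 0x30000040080090150008010072c2a511))))) (.br (Nat.shiftLeft (nat_lit 0x1) (nat_lit 126)) (.br (Nat.shiftLeft (nat_lit 0x1800003) (nat_lit 101)) (.one (nat_lit 0x3000005008009015000a010072c2a511)) (.br (Nat.shiftLeft (nat_lit 0x3000007) (nat_lit 100)) (.one (nat_lit 0x3000006008009015000c010072c2a511)) (.one (nat_lit 0x3000007008009015000e010072c2a511)))) (.br (Nat.shiftLeft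 (nat_lit 0x1000001) (nat_lit 102)) (.br (Nat.shiftLeft (nat_lit 0x4000003) (nat_lit 100)) (.one (nat_lit 0x4000002008009015000401009302a511)) (.one (nat_lit 0x4000003008009015000601009302a511))) (.br (Nat.shiftLeft (nat_lit 0x4000005) (nat_lit 100)) (.one (nat_lit 0x4000004008009015000801009302a511)) (.one (nat_lit 0x4000005008009015000a01009302a511)))))))
def t230 : k230.all (jb2 57 fl b0) = true := by decide +kernel
noncomputable def k231 : KT := (.br (Nat.shiftLeft (nat_lit 0x1400001) (nat_lit 102)) (.br (Nat.shiftLeft (nat_lit 0x5) (nat_lit 124)) (.br (Nat.shiftLeft (nat_lit 0x4000007) (nat_lit 100)) (.one (nat_lit 0x4000006008009015000c01009302a511)) (.one (nat_lit 0x4000007008009015000e01009302a511))) (.br (Nat.shiftLeft (nat_lit 0x5000003) (nat_lit 100)) (.one (nat_lit 0x500000200800901500040100b342a511)) (.one (nat_lit 0x500000300800901500060100b342a511)))) (.br (Nat.shiftLeft (nat_lit 0x2800003) (nat_lit 101)) (.br (Nat.shiftLeft (nat_lit 0x5000005) (nat_lit 100)) (.one (nat_lit 0x500000400800901500080100b342a511))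 (.one (nat_lit 0x5000005008009015000a0100b342a511))) (.br (Nat.shiftLeft (nat_lit 0x5000007) (nat_lit 100)) (.one (nat_lit 0x5000006008009015000c0100b342a511)) (.br (Nat.shiftLeft (nat_lit 0x3) (nat_lit 125)) (.one (nat_lit 0x5000007008009015000e0100b342a511)) (.one (nat_lit 0x600000200800901500040100d382a511))))))
def t231 : k231.all (jb2 57 fl b0) = true := by decide +kernel
noncomputable def k232 : KT := (.br (Nat.shiftLeft (nat_lit 0x6000007) (nat_lit 100)) (.br (Nat.shiftLeft (nat_lit 0x6000005) (nat_lit 100)) (.br (Nat.shiftLeft (nat_lit 0x1800001) (nat_lit 102)) (.one (nat_lit 0x600000300800901500060100d382a511)) (.one (nat_lit 0x600000400800901500080100d382a511))) (.br (Nat.shiftLeft (nat_lit 0x3000003) (nat_lit 101)) (.one (nat_lit 0x6000005008009015000a0100d382a511)) (.one (nat_lit 0x6000006008009015000c0100d382a511)))) (.br (Nat.shiftLeft (nat_lit 0x7000003) (nat_lit 100)) (.br (Nat.shiftLeft (nat_lit 0x7) (nat_lit 124)) (.one (nat_lit 0x6000007008009015000e0100d382a511)) (.one (nat_lit 0x700000200800901500040100f3c2a511)))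 (.br (Nat.shiftLeft (nat_lit 0x1c00001) (nat_lit 102)) (.one (nat_lit 0x700000300800901500060100f3c2a511)) (.one (nat_lit 0x700000400800901500080100f3c2a511)))))
def t232 : k232.all (jb2 57 fl b0) = true := by decide +kernel
noncomputable def k233 : KT := (.br (Nat.shiftLeft (nat_lit 0x4000003) (nat_lit 101)) (.br (Nat.shiftLeft (nat_lit 0x1) (nat_lit 127)) (.br (Nat.shiftLeft (nat_lit 0x3800003) (nat_lit 101)) (.one (nat_lit 0x7000005008009015000a0100f3c2a511)) (.br (Nat.shiftLeft (nat_lit 0x7000007) (nat_lit 100)) (.one (nat_lit 0x7000006008009015000c0100f3c2a511)) (.one (nat_lit 0x7000007008009015000e0100f3c2a511)))) (.br (Nat.shiftLeft (nat_lit 0x2000001) (nat_lit 102)) (.br (Nat.shiftLeft (nat_lit 0x8000003) (nat_lit 100)) (.one (nat_lit 0x8000002008009015000401011402a511)) (.one (nat_lit 0x8000003008009015000601011402a511))) (.br (Nat.shiftLeft (nat_lit 0x8000005) (nat_lit 100)) (.one (nat_lit 0x8000004008009015000801011402a511)) (.one (nat_lit 0x8000005008009015000a01011402a511))))) (.br (Nat.shiftLeft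 (nat_lit 0x2400001) (nat_lit 102)) (.br (Nat.shiftLeft (nat_lit 0x9) (nat_lit 124)) (.br (Nat.shiftLeft (nat_lit 0x8000007) (nat_lit 100)) (.one (nat_lit 0x8000006008009015000c01011402a511)) (.one (nat_lit 0x8000007008009015000e01011402a511))) (.br (Nat.shiftLeft (nat_lit 0x9000003) (nat_lit 100)) (.one (nat_lit 0x9000002008009015000401013442a511)) (.one (nat_lit 0x9000003008009015000601013442a511)))) (.br (Nat.shiftLeft (nat_lit 0x4800003) (nat_lit 101)) (.br (Nat.shiftLeft (nat_lit 0x9000005) (nat_lit 100)) (.one (nat_lit 0x9000004008009015000801013442a511)) (.one (nat_lit 0x9000005008009015000a01013442a511))) (.br (Nat.shiftLeft (nat_lit 0x9000007) (nat_lit 100)) (.one (nat_lit 0x9000006008009015000c01013442a511)) (.one (nat_lit 0x9000007008009015000e01013442a511))))))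
def t233 : k233.all (jb2 57 fl b0) = true := by decide +kernel
noncomputable def s10 : KT := (.br (nat_lit 0x2006008009015400c01001202a650) (.br (nat_lit 0x1005008009015200a01001202a650) (.br (nat_lit 0x1002008009015200401001202a650) (.br (nat_lit 0x1000008009015200001001202a411) k217 k218) (.br (nat_lit 0x1003008009015200601001202a650) k219 k220)) (.br (nat_lit 0x2003008009015400601001202a650) (.br (nat_lit 0x2000008009015400001001202a411) k221 k222) (.br (nat_lit 0x2004008009015400801001202a650) k223 k224))) (.br (nat_lit 0x4005008009015800a01001202a650) (.br (nat_lit 0x3004008009015600801001202a650) (.br (nat_lit 0x3000008009015600001001202a411) k225 k226) (.br (nat_lit 0x3006008009015600c01001202a650) k227 k228)) (.br (nat_lit 0x4000005008009015000a01009302a511) (.br (nat_lit 0x5006008009015a00c01001202a650) k229 k230) (.br (nat_lit 0x600000200800901500040100d382a511) k231 (.br (nat_lit 0x700000400800901500080100f3c2a511) k232 k233)))))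
noncomputable def u10 : KT := (.one (nat_lit 0x8009015000001001202a430))
def w10 : u10.all (wj 57 s10) = true := by decide +kernel
def o10 : OkW 57 (jb2 57 fl) u10 := .lift s10 _ (.br _ _ _ (.br _ _ _ (.br _ _ _ (.br _ _ _ (.leaf b0 k217 t217) (.leaf b0 k218 t218)) (.br _ _ _ (.leaf b0 k219 t219) (.leaf b0 k220 t220))) (.br _ _ _ (.br _ _ _ (.leaf b0 k221 t221) (.leaf b0 k222 t222)) (.br _ _ _ (.leaf b0 k223 t223) (.leaf b0 k224 t224)))) (.br _ _ _ (.br _ _ _ (.br _ _ _ (.leaf b0 k225 t225) (.leaf b0 k226 t226)) (.br _ _ _ (.leaf b0 k227 t227) (.leaf b0 k228 t228))) (.br _ _ _ (.br _ _ _ (.leaf b0 k229 t229) (.leaf b0 k230 t230)) (.br _ _ _ (.leaf b0 k231 t231) (.br _ _ _ (.leaf b0 k232 t232) (.leaf b0 k233 t233)))))) w10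
noncomputable def k234 : KT := (.br (Nat.shiftLeft (nat_lit 0x8009017) (nat_lit 64)) (.one (nat_lit 0x8009016000001001202d400)) (.br (Nat.shiftLeft (nat_lit 0x1) (nat_lit 100)) (.one (nat_lit 0x8009017000001001202f400)) (.one (nat_lit 0x1008009016000201001202c540))))
def t234 : k234.all (jb2 57 fl b0) = true := by decide +kernel
noncomputable def k235 : KT := (.br (Nat.shiftLeft (nat_lit 0x4008009017) (nat_lit 64)) (.br (Nat.shiftLeft (nat_lit 0x3) (nat_lit 100)) (.br (Nat.shiftLeft (nat_lit 0x1) (nat_lit 101)) (.one (nat_lit 0x1008009017000201001202e540)) (.br (Nat.shiftLeft (nat_lit 0x2008009017) (nat_lit 64)) (.one (nat_lit 0x2008009016000401001202d500)) (.one (nat_lit 0x2008009017000401001202f500)))) (.br (Nat.shiftLeft (nat_lit 0x3008009017) (nat_lit 64)) (.one (nat_lit 0x3008009016000601001202d500)) (.br (Nat.shiftLeft (nat_lit 0x1) (nat_lit 102)) (.one (nat_lit 0x3008009017000601001202f500)) (.one (nat_lit 0x4008009016000801001202d500))))) (.br (Nat.shiftLeft (nat_lit 0x3) (nat_lit 101)) (.br (Nat.shiftLeft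 (nat_lit 0x5) (nat_lit 100)) (.one (nat_lit 0x4008009017000801001202f500)) (.br (Nat.shiftLeft (nat_lit 0x5008009017) (nat_lit 64)) (.one (nat_lit 0x5008009016000a01001202d500)) (.one (nat_lit 0x5008009017000a01001202f500)))) (.br (Nat.shiftLeft (nat_lit 0x6008009017) (nat_lit 64)) (.one (nat_lit 0x6008009016000c01001202d500)) (.br (Nat.shiftLeft (nat_lit 0x7) (nat_lit 100)) (.one (nat_lit 0x6008009017000c01001202f500)) (.one (nat_lit 0x7008009016000e01001202d500))))))
def t235 : k235.all (jb2 57 fl b0) = true := by decide +kernel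
noncomputable def k236 : KT := (.br (Nat.shiftLeft (nat_lit 0x1) (nat_lit 112)) (.one (nat_lit 0x7008009017000e01001202e540)) (.br (Nat.shiftLeft (nat_lit 0x1000008009017) (nat_lit 64)) (.one (nat_lit 0x1000008009016200001001202c411)) (.one (nat_lit 0x1000008009017200001001202e411))))
def t236 : k236.all (jb2 57 fl b0) = true := by decide +kernel
noncomputable def k237 : KT := (.one (nat_lit 0x1002008009016200401001202c650))
def t237 : k237.all (jb2 57 fl b0) = true := by decide +kernel
noncomputable def k238 : KT := (.one (nat_lit 0x1002008009017200401001202e650))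
def t238 : k238.all (jb2 57 fl b0) = true := by decide +kernel
noncomputable def k239 : KT := (.br (Nat.shiftLeft (nat_lit 0x1003008009017) (nat_lit 64)) (.one (nat_lit 0x1003008009016200601001202c650)) (.one (nat_lit 0x1003008009017200601001202e650)))
def t239 : k239.all (jb2 57 fl b0) = true := by decide +kernel
noncomputable def k240 : KT := (.br (Nat.shiftLeft (nat_lit 0x1004008009017) (nat_lit 64)) (.one (nat_lit 0x1004008009016200801001202c650)) (.br (Nat.shiftLeft (nat_lit 0x1005) (nat_lit 100)) (.one (nat_lit 0x1004008009017200801001202e650)) (.one (nat_lit 0x1005008009016200a01001202c650))))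
def t240 : k240.all (jb2 57 fl b0) = true := by decide +kernel
noncomputable def k241 : KT := (.br (Nat.shiftLeft (nat_lit 0x1007) (nat_lit 100)) (.br (Nat.shiftLeft (nat_lit 0x803) (nat_lit 101)) (.one (nat_lit 0x1005008009017200a01001202e650)) (.br (Nat.shiftLeft (nat_lit 0x1006008009017) (nat_lit 64)) (.one (nat_lit 0x1006008009016200c01001202c650)) (.one (nat_lit 0x1006008009017200c01001202e650)))) (.br (Nat.shiftLeft (nat_lit 0x1) (nat_lit 113)) (.one (nat_lit 0x1007008009016200e01001202c650)) (.br (Nat.shiftLeft (nat_lit 0x2000008009017) (nat_lit 64)) (.one (nat_lit 0x2000008009016400001001202c411)) (.one (nat_lit 0x2000008009017400001001202e411)))))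
def t241 : k241.all (jb2 57 fl b0) = true := by decide +kernel
noncomputable def k242 : KT := (.one (nat_lit 0x2003008009016400601001202c650))
def t242 : k242.all (jb2 57 fl b0) = true := by decide +kernel
noncomputable def k243 : KT := (.one (nat_lit 0x2003008009017400601001202e650))
def t243 : k243.all (jb2 57 fl b0) = true := by decide +kernel
noncomputable def k244 : KT := (.br (Nat.shiftLeft (nat_lit 0x2004008009017) (nat_lit 64)) (.one (nat_lit 0x2004008009016400801001202c650)) (.one (nat_lit 0x2004008009017400801001202e650)))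
def t244 : k244.all (jb2 57 fl b0) = true := by decide +kernel
noncomputable def k245 : KT := (.br (Nat.shiftLeft (nat_lit 0x2005008009017) (nat_lit 64)) (.one (nat_lit 0x2005008009016400a01001202c650)) (.br (Nat.shiftLeft (nat_lit 0x1003) (nat_lit 101)) (.one (nat_lit 0x2005008009017400a01001202e650)) (.one (nat_lit 0x2006008009016400c01001202c650))))
def t245 : k245.all (jb2 57 fl b0) = true := by decide +kernel
noncomputable def k246 : KT := (.br (Nat.shiftLeft (nat_lit 0x3) (nat_lit 112)) (.br (Nat.shiftLeft (nat_lit 0x2007) (nat_lit 100)) (.one (nat_lit 0x2006008009017400c01001202e650)) (.one (nat_lit 0x2007008009016400e01001202c650))) (.br (Nat.shiftLeft (nat_lit 0x3000008009017) (nat_lit 64)) (.one (nat_lit 0x3000008009016600001001202c411)) (.br (Nat.shiftLeft (nat_lit 0xc01) (nat_lit 102)) (.one (nat_lit 0x3000008009017600001001202e411)) (.one (nat_lit 0x3004008009016600801001202c650)))))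
def t246 : k246.all (jb2 57 fl b0) = true := by decide +kernel
noncomputable def k247 : KT := (.br (Nat.shiftLeft (nat_lit 0x3005) (nat_lit 100)) (.one (nat_lit 0x3004008009017600801001202e650)) (.one (nat_lit 0x3005008009016600a01001202c650)))
def t247 : k247.all (jb2 57 fl b0) = true := by decide +kernel
noncomputable def k248 : KT := (.br (Nat.shiftLeft (nat_lit 0x3007) (nat_lit 100)) (.br (Nat.shiftLeft (nat_lit 0x1803) (nat_lit 101)) (.one (nat_lit 0x3005008009017600a01001202e650)) (.br (Nat.shiftLeft (nat_lit 0x3006008009017) (nat_lit 64)) (.one (nat_lit 0x3006008009016600c01001202c650)) (.one (nat_lit 0x3006008009017600c01001202e650)))) (.br (Nat.shiftLeft (nat_lit 0x1) (nat_lit 114)) (.one (nat_lit 0x3007008009016600e01001202c650)) (.br (Nat.shiftLeft (nat_lit 0x4000008009017) (nat_lit 64)) (.one (nat_lit 0x4000008009016800001001202c411)) (.one (nat_lit 0x4000008009017800001001202e411)))))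
def t248 : k248.all (jb2 57 fl b0) = true := by decide +kernel
noncomputable def k249 : KT := (.br (Nat.shiftLeft (nat_lit 0x4005008009017) (nat_lit 64)) (.one (nat_lit 0x4005008009016800a01001202c650)) (.br (Nat.shiftLeft (nat_lit 0x2003) (nat_lit 101)) (.one (nat_lit 0x4005008009017800a01001202e650)) (.one (nat_lit 0x4006008009016800c01001202c650))))
def t249 : k249.all (jb2 57 fl b0) = true := by decide +kernel
noncomputable def k250 : KT := (.br (Nat.shiftLeft (nat_lit 0x5006008009017) (nat_lit 64)) (.br (Nat.shiftLeft (nat_lit 0x5) (nat_lit 112)) (.br (Nat.shiftLeft (nat_lit 0x4007) (nat_lit 100)) (.one (nat_lit 0x4006008009017800c01001202e650)) (.one (nat_lit 0x4007008009016800e01001202c650))) (.br (Nat.shiftLeft (nat_lit 0x5000008009017) (nat_lit 64)) (.one (nat_lit 0x5000008009016a00001001202c411)) (.br (Nat.shiftLeft (nat_lit 0x1401) (nat_lit 102)) (.one (nat_lit 0x5000008009017a00001001202e411)) (.one (nat_lit 0x5006008009016a00c01001202c650))))) (.br (Nat.shiftLeft (nat_lit 0x3) (nat_lit 113)) (.br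 (Nat.shiftLeft (nat_lit 0x5007) (nat_lit 100)) (.one (nat_lit 0x5006008009017a00c01001202e650)) (.one (nat_lit 0x5007008009016a00e01001202c650))) (.br (Nat.shiftLeft (nat_lit 0x6000008009017) (nat_lit 64)) (.one (nat_lit 0x6000008009016c00001001202c411)) (.br (Nat.shiftLeft (nat_lit 0x1801) (nat_lit 102)) (.one (nat_lit 0x6000008009017c00001001202e411)) (.one (nat_lit 0x6007008009016c00e01001202c650))))))
def t250 : k250.all (jb2 57 fl b0) = true := by decide +kernel
noncomputable def k251 : KT := (.br (Nat.shiftLeft (nat_lit 0x2000003008009017) (nat_lit 64)) (.br (Nat.shiftLeft (nat_lit 0x400001) (nat_lit 102)) (.br (Nat.shiftLeft (nat_lit 0x9000008009017) (nat_lit 64)) (.br (Nat.shiftLeft (nat_lit 0x1) (nat_lit 115)) (.br (Nat.shiftLeft (nat_lit 0x7000008009017) (nat_lit 64)) (.one (nat_lit 0x7000008009016e00001001202c411)) (.one (nat_lit 0x7000008009017e00001001202e411))) (.br (Nat.shiftLeft (nat_lit 0x8000008009017) (nat_lit 64)) (.one (nat_lit 0x8000008009016000001001212e411)) (.br (Nat.shiftLeft (nat_lit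 0x9) (nat_lit 112)) (.one (nat_lit 0x80000080090170000010012130411)) (.one (nat_lit 0x9000008009016200001001212e411))))) (.br (Nat.shiftLeft (nat_lit 0x1000002008009017) (nat_lit 64)) (.br (Nat.shiftLeft (nat_lit 0x1) (nat_lit 124)) (.one (nat_lit 0x90000080090172000010012130411)) (.one (nat_lit 0x1000002008009016000401003242c511))) (.br (Nat.shiftLeft (nat_lit 0x1000003) (nat_lit 100)) (.one (nat_lit 0x1000002008009017000401003242e511)) (.br (Nat.shiftLeft (nat_lit 0x1000003008009017) (nat_lit 64)) (.one (nat_lit 0x1000003008009016000601003242c511)) (.one (nat_lit 0x1000003008009017000601003242e511)))))) (.br (Nat.shiftLeft (nat_lit 0x1000006008009017) (nat_lit 64)) (.br (Nat.shiftLeft (nat_lit 0x1000005) (nat_lit 100)) (.br (Nat.shiftLeft (nat_lit 0x1000004008009017) (nat_lit 64)) (.one (nat_lit 0x1000004008009016000801003242c511)) (.one (nat_lit 0x1000004008009017000801003242e511))) (.br (Nat.shiftLeft (nat_lit 0x1000005008009017) (nat_lit 64)) (.one (nat_lit 0x1000005008009016000a01003242c511)) (.br (Nat.shiftLeft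 (nat_lit 0x800003) (nat_lit 101)) (.one (nat_lit 0x1000005008009017000a01003242e511)) (.one (nat_lit 0x1000006008009016000c01003242c511))))) (.br (Nat.shiftLeft (nat_lit 0x1) (nat_lit 125)) (.br (Nat.shiftLeft (nat_lit 0x1000007) (nat_lit 100)) (.one (nat_lit 0x1000006008009017000c01003242e511)) (.one (nat_lit 0x1000007008009016000e01003242c511))) (.br (Nat.shiftLeft (nat_lit 0x2000002008009017) (nat_lit 64)) (.one (nat_lit 0x2000002008009016000401005282c511)) (.br (Nat.shiftLeft (nat_lit 0x2000003) (nat_lit 100)) (.one (nat_lit 0x2000002008009017000401005282e511)) (.one (nat_lit 0x2000003008009016000601005282c511))))))) (.br (Nat.shiftLeft (nat_lit 0x3000003) (nat_lit 100)) (.br (Nat.shiftLeft (nat_lit 0x1000003) (nat_lit 101)) (.br (Nat.shiftLeft (nat_lit 0x2000004008009017) (nat_lit 64)) (.br (Nat.shiftLeft (nat_lit 0x800001) (nat_lit 102)) (.one (nat_lit 0x2000003008009017000601005282e511)) (.one (nat_lit 0x2000004008009016000801005282c511))) (.br (Nat.shiftLeft (nat_lit 0x2000005) (nat_lit 100)) (.one (nat_lit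 0x2000004008009017000801005282e511)) (.br (Nat.shiftLeft (nat_lit 0x2000005008009017) (nat_lit 64)) (.one (nat_lit 0x2000005008009016000a01005282c511)) (.one (nat_lit 0x2000005008009017000a01005282e511))))) (.br (Nat.shiftLeft (nat_lit 0x2000007) (nat_lit 100)) (.br (Nat.shiftLeft (nat_lit 0x2000006008009017) (nat_lit 64)) (.one (nat_lit 0x2000006008009016000c01005282c511)) (.one (nat_lit 0x2000006008009017000c01005282e511))) (.br (Nat.shiftLeft (nat_lit 0x3) (nat_lit 124)) (.one (nat_lit 0x2000007008009016000e01005282c511)) (.br (Nat.shiftLeft (nat_lit 0x3000002008009017) (nat_lit 64)) (.one (nat_lit 0x30000020080090160004010072c2c511)) (.one (nat_lit 0x30000020080090170004010072c2e511)))))) (.br (Nat.shiftLeft (nat_lit 0x3000005008009017) (nat_lit 64)) (.br (Nat.shiftLeft (nat_lit 0xc00001) (nat_lit 102)) (.br (Nat.shiftLeft (nat_lit 0x3000003008009017) (nat_lit 64)) (.one (nat_lit 0x30000030080090160006010072c2c511)) (.one (nat_lit 0x30000030080090170006010072c2e511))) (.br (Nat.shiftLeft (nat_lit 0x3000004008009017)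 (nat_lit 64)) (.one (nat_lit 0x30000040080090160008010072c2c511)) (.br (Nat.shiftLeft (nat_lit 0x3000005) (nat_lit 100)) (.one (nat_lit 0x30000040080090170008010072c2e511)) (.one (nat_lit 0x3000005008009016000a010072c2c511))))) (.br (Nat.shiftLeft (nat_lit 0x3000006008009017) (nat_lit 64)) (.br (Nat.shiftLeft (nat_lit 0x1800003) (nat_lit 101)) (.one (nat_lit 0x3000005008009017000a010072c2e511)) (.one (nat_lit 0x3000006008009016000c010072c2c511))) (.br (Nat.shiftLeft (nat_lit 0x3000007) (nat_lit 100)) (.one (nat_lit 0x3000006008009017000c010072c2e511)) (.br (Nat.shiftLeft (nat_lit 0x1) (nat_lit 126)) (.one (nat_lit 0x3000007008009016000e010072c2c511)) (.one (nat_lit 0x4000002008009016000401009302c511))))))))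
def t251 : k251.all (jb2 57 fl b0) = true := by decide +kernel
noncomputable def k252 : KT := (.br (Nat.shiftLeft (nat_lit 0x4000005008009017) (nat_lit 64)) (.br (Nat.shiftLeft (nat_lit 0x1000001) (nat_lit 102)) (.br (Nat.shiftLeft (nat_lit 0x4000003) (nat_lit 100)) (.one (nat_lit 0x4000002008009017000401009302e511)) (.br (Nat.shiftLeft (nat_lit 0x4000003008009017) (nat_lit 64)) (.one (nat_lit 0x4000003008009016000601009302c511)) (.one (nat_lit 0x4000003008009017000601009302e511)))) (.br (Nat.shiftLeft (nat_lit 0x4000004008009017) (nat_lit 64)) (.one (nat_lit 0x4000004008009016000801009302c511)) (.br (Nat.shiftLeft (nat_lit 0x4000005) (nat_lit 100)) (.one (nat_lit 0x4000004008009017000801009302e511)) (.one (nat_lit 0x4000005008009016000a01009302c511))))) (.br (Nat.shiftLeft (nat_lit 0x4000007) (nat_lit 100)) (.br (Nat.shiftLeft (nat_lit 0x2000003) (nat_lit 101)) (.one (nat_lit 0x4000005008009017000a01009302e511)) (.br (Nat.shiftLeft (nat_lit 0x4000006008009017) (nat_lit 64)) (.one (nat_lit 0x4000006008009016000c01009302c511))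 (.one (nat_lit 0x4000006008009017000c01009302e511)))) (.br (Nat.shiftLeft (nat_lit 0x5000002008009017) (nat_lit 64)) (.br (Nat.shiftLeft (nat_lit 0x5) (nat_lit 124)) (.one (nat_lit 0x4000007008009016000e01009302c511)) (.one (nat_lit 0x500000200800901600040100b342c511))) (.br (Nat.shiftLeft (nat_lit 0x5000003) (nat_lit 100)) (.one (nat_lit 0x500000200800901700040100b342e511)) (.one (nat_lit 0x500000300800901600060100b342c511))))))
def t252 : k252.all (jb2 57 fl b0) = true := by decide +kernel
noncomputable def k253 : KT := (.br (Nat.shiftLeft (nat_lit 0x2800003) (nat_lit 101)) (.br (Nat.shiftLeft (nat_lit 0x5000004008009017) (nat_lit 64)) (.br (Nat.shiftLeft (nat_lit 0x1400001) (nat_lit 102)) (.one (nat_lit 0x500000300800901700060100b342e511)) (.one (nat_lit 0x500000400800901600080100b342c511))) (.br (Nat.shiftLeft (nat_lit 0x5000005) (nat_lit 100)) (.one (nat_lit 0x500000400800901700080100b342e511)) (.br (Nat.shiftLeft (nat_lit 0x5000005008009017) (nat_lit 64)) (.one (nat_lit 0x5000005008009016000a0100b342c511))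 (.one (nat_lit 0x5000005008009017000a0100b342e511))))) (.br (Nat.shiftLeft (nat_lit 0x3) (nat_lit 125)) (.br (Nat.shiftLeft (nat_lit 0x5000006008009017) (nat_lit 64)) (.one (nat_lit 0x5000006008009016000c0100b342c511)) (.br (Nat.shiftLeft (nat_lit 0x5000007) (nat_lit 100)) (.one (nat_lit 0x5000006008009017000c0100b342e511)) (.one (nat_lit 0x5000007008009016000e0100b342c511)))) (.br (Nat.shiftLeft (nat_lit 0x6000002008009017) (nat_lit 64)) (.one (nat_lit 0x600000200800901600040100d382c511)) (.br (Nat.shiftLeft (nat_lit 0x6000003) (nat_lit 100)) (.one (nat_lit 0x600000200800901700040100d382e511)) (.one (nat_lit 0x600000300800901600060100d382c511))))))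
def t253 : k253.all (jb2 57 fl b0) = true := by decide +kernel
noncomputable def k254 : KT := (.br (Nat.shiftLeft (nat_lit 0x6000006008009017) (nat_lit 64)) (.br (Nat.shiftLeft (nat_lit 0x6000005) (nat_lit 100)) (.br (Nat.shiftLeft (nat_lit 0x1800001) (nat_lit 102)) (.one (nat_lit 0x600000300800901700060100d382e511)) (.br (Nat.shiftLeft (nat_lit 0x6000004008009017) (nat_lit 64)) (.one (nat_lit 0x600000400800901600080100d382c511)) (.one (nat_lit 0x600000400800901700080100d382e511)))) (.br (Nat.shiftLeft (nat_lit 0x6000005008009017) (nat_lit 64)) (.one (nat_lit 0x6000005008009016000a0100d382c511)) (.br (Nat.shiftLeft (nat_lit 0x3000003) (nat_lit 101)) (.one (nat_lit 0x6000005008009017000a0100d382e511)) (.one (nat_lit 0x6000006008009016000c0100d382c511))))) (.br (Nat.shiftLeft (nat_lit 0x7000002008009017) (nat_lit 64)) (.br (Nat.shiftLeft (nat_lit 0x6000007) (nat_lit 100)) (.one (nat_lit 0x6000006008009017000c0100d382e511)) (.br (Nat.shiftLeft (nat_lit 0x7) (nat_lit 124)) (.one (nat_lit 0x6000007008009016000e0100d382c511))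 (.one (nat_lit 0x700000200800901600040100f3c2c511)))) (.br (Nat.shiftLeft (nat_lit 0x7000003) (nat_lit 100)) (.one (nat_lit 0x700000200800901700040100f3c2e511)) (.br (Nat.shiftLeft (nat_lit 0x7000003008009017) (nat_lit 64)) (.one (nat_lit 0x700000300800901600060100f3c2c511)) (.one (nat_lit 0x700000300800901700060100f3c2e511))))))
def t254 : k254.all (jb2 57 fl b0) = true := by decide +kernel
noncomputable def k255 : KT := (.br (Nat.shiftLeft (nat_lit 0x8000003008009017) (nat_lit 64)) (.br (Nat.shiftLeft (nat_lit 0x7000006008009017) (nat_lit 64)) (.br (Nat.shiftLeft (nat_lit 0x7000005) (nat_lit 100)) (.br (Nat.shiftLeft (nat_lit 0x7000004008009017) (nat_lit 64)) (.one (nat_lit 0x700000400800901600080100f3c2c511)) (.one (nat_lit 0x700000400800901700080100f3c2e511))) (.br (Nat.shiftLeft (nat_lit 0x7000005008009017) (nat_lit 64)) (.one (nat_lit 0x7000005008009016000a0100f3c2c511)) (.br (Nat.shiftLeft (nat_lit 0x3800003) (nat_lit 101)) (.one (nat_lit 0x7000005008009017000a0100f3c2e511)) (.one (nat_lit 0x7000006008009016000c0100f3c2c511)))))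 (.br (Nat.shiftLeft (nat_lit 0x1) (nat_lit 127)) (.br (Nat.shiftLeft (nat_lit 0x7000007) (nat_lit 100)) (.one (nat_lit 0x7000006008009017000c0100f3c2e511)) (.one (nat_lit 0x7000007008009016000e0100f3c2c511))) (.br (Nat.shiftLeft (nat_lit 0x8000002008009017) (nat_lit 64)) (.one (nat_lit 0x8000002008009016000401011402c511)) (.br (Nat.shiftLeft (nat_lit 0x8000003) (nat_lit 100)) (.one (nat_lit 0x8000002008009017000401011402e511)) (.one (nat_lit 0x8000003008009016000601011402c511)))))) (.br (Nat.shiftLeft (nat_lit 0x4000003) (nat_lit 101)) (.br (Nat.shiftLeft (nat_lit 0x8000004008009017) (nat_lit 64)) (.br (Nat.shiftLeft (nat_lit 0x2000001) (nat_lit 102)) (.one (nat_lit 0x8000003008009017000601011402e511)) (.one (nat_lit 0x8000004008009016000801011402c511))) (.br (Nat.shiftLeft (nat_lit 0x8000005) (nat_lit 100)) (.one (nat_lit 0x8000004008009017000801011402e511)) (.br (Nat.shiftLeft (nat_lit 0x8000005008009017) (nat_lit 64)) (.one (nat_lit 0x8000005008009016000a01011402c511)) (.one (nat_lit 0x8000005008009017000a01011402e511)))))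 (.br (Nat.shiftLeft (nat_lit 0x8000007) (nat_lit 100)) (.br (Nat.shiftLeft (nat_lit 0x8000006008009017) (nat_lit 64)) (.one (nat_lit 0x8000006008009016000c01011402c511)) (.one (nat_lit 0x8000006008009017000c01011402e511))) (.br (Nat.shiftLeft (nat_lit 0x9) (nat_lit 124)) (.one (nat_lit 0x8000007008009016000e01011402c511)) (.br (Nat.shiftLeft (nat_lit 0x9000002008009017) (nat_lit 64)) (.one (nat_lit 0x9000002008009016000401013442c511)) (.one (nat_lit 0x9000002008009017000401013442e511)))))))
def t255 : k255.all (jb2 57 fl b0) = true := by decide +kernel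
noncomputable def k256 : KT := (.br (Nat.shiftLeft (nat_lit 0x9000005) (nat_lit 100)) (.br (Nat.shiftLeft (nat_lit 0x2400001) (nat_lit 102)) (.br (Nat.shiftLeft (nat_lit 0x9000003008009017) (nat_lit 64)) (.one (nat_lit 0x9000003008009016000601013442c511)) (.one (nat_lit 0x9000003008009017000601013442e511))) (.br (Nat.shiftLeft (nat_lit 0x9000004008009017) (nat_lit 64)) (.one (nat_lit 0x9000004008009016000801013442c511)) (.one (nat_lit 0x9000004008009017000801013442e511)))) (.br (Nat.shiftLeft (nat_lit 0x4800003) (nat_lit 101)) (.br (Nat.shiftLeft (nat_lit 0x9000005008009017) (nat_lit 64)) (.one (nat_lit 0x9000005008009016000a01013442c511)) (.one (nat_lit 0x9000005008009017000a01013442e511))) (.br (Nat.shiftLeft (nat_lit 0x9000006008009017) (nat_lit 64)) (.one (nat_lit 0x9000006008009016000c01013442c511)) (.br (Nat.shiftLeft (nat_lit 0x9000007) (nat_lit 100)) (.one (nat_lit 0x9000006008009017000c01013442e511)) (.one (nat_lit 0x9000007008009016000e01013442c511))))))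
def t256 : k256.all (jb2 57 fl b0) = true := by decide +kernel
noncomputable def s11 : KT := (.br (nat_lit 0x2004008009017400801001202e650) (.br (nat_lit 0x1002008009017200401001202e650) (.br (nat_lit 0x7008009016000e01001202d500) (.br (nat_lit 0x1008009016000201001202c540) k234 k235) (.br (nat_lit 0x1000008009017200001001202e411) k236 (.br (nat_lit 0x1002008009016200401001202c650) k237 k238))) (.br (nat_lit 0x2000008009017400001001202e411) (.br (nat_lit 0x1003008009017200601001202e650) k239 (.br (nat_lit 0x1005008009016200a01001202c650) k240 k241)) (.br (nat_lit 0x2003008009016400601001202c650) k242 (.br (nat_lit 0x2003008009017400601001202e650) k243 k244)))) (.br (nat_lit 0x6007008009016c00e01001202c650) (.br (nat_lit 0x3005008009016600a01001202c650) (.br (nat_lit 0x2006008009016400c01001202c650) k245 (.br (nat_lit 0x3004008009016600801001202c650) k246 k247)) (.br (nat_lit 0x4000008009017800001001202e411) k248 (.br (nat_lit 0x4006008009016800c01001202c650) k249 k250))) (.br (nat_lit 0x600000300800901600060100d382c511)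 (.br (nat_lit 0x4000002008009016000401009302c511) k251 (.br (nat_lit 0x500000300800901600060100b342c511) k252 k253)) (.br (nat_lit 0x700000300800901700060100f3c2e511) k254 (.br (nat_lit 0x9000002008009017000401013442e511) k255 k256)))))
noncomputable def u11 : KT := (.br (Nat.shiftLeft (nat_lit 0x8009017) (nat_lit 64)) (.one (nat_lit 0x8009016000001001202c430)) (.one (nat_lit 0x8009017000001001202e430)))
def w11 : u11.all (wj 57 s11) = true := by decide +kernel
def o11 : OkW 57 (jb2 57 fl) u11 := .lift s11 _ (.br _ _ _ (.br _ _ _ (.br _ _ _ (.br _ _ _ (.leaf b0 k234 t234) (.leaf b0 k235 t235)) (.br _ _ _ (.leaf b0 k236 t236) (.br _ _ _ (.leaf b0 k237 t237) (.leaf b0 k238 t238)))) (.br _ _ _ (.br _ _ _ (.leaf b0 k239 t239) (.br _ _ _ (.leaf b0 k240 t240) (.leaf b0 k241 t241))) (.br _ _ _ (.leaf b0 k242 t242) (.br _ _ _ (.leaf b0 k243 t243) (.leaf b0 k244 t244))))) (.br _ _ _ (.br _ _ _ (.br _ _ _ (.leaf b0 k245 t245) (.br _ _ _ (.leaf b0 k246 t246) (.leaf b0 k247 t247))) (.br _ _ _ (.leaf b0 k248 t248) (.br _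 _ _ (.leaf b0 k249 t249) (.leaf b0 k250 t250)))) (.br _ _ _ (.br _ _ _ (.leaf b0 k251 t251) (.br _ _ _ (.leaf b0 k252 t252) (.leaf b0 k253 t253))) (.br _ _ _ (.leaf b0 k254 t254) (.br _ _ _ (.leaf b0 k255 t255) (.leaf b0 k256 t256)))))) w11
noncomputable def k257 : KT := (.br (Nat.shiftLeft (nat_lit 0x800a01) (nat_lit 68)) (.br (Nat.shiftLeft (nat_lit 0x400480d) (nat_lit 65)) (.br (Nat.shiftLeft (nat_lit 0x8009019) (nat_lit 64)) (.one (nat_lit 0x80090180000010012031400)) (.one (nat_lit 0x80090190000010012033400))) (.br (Nat.shiftLeft (nat_lit 0x4005) (nat_lit 77)) (.one (nat_lit 0x800901a0000010012035400)) (.br (Nat.shiftLeft (nat_lit 0x800a00f) (nat_lit 64)) (.one (nat_lit 0x800a00e000001001401d400)) (.one (nat_lit 0x800a00f000001001401f400))))) (.br (Nat.shiftLeft (nat_lit 0x800a013) (nat_lit 64)) (.br (Nat.shiftLeft (nat_lit 0x800a011) (nat_lit 64)) (.one (nat_lit 0x800a0100000010014021400)) (.br (Nat.shiftLeft (nat_lit 0x4005009) (nat_lit 65)) (.one (nat_lit 0x800a0110000010014023400)) (.one (nat_lit 0x800a0120000010014025400))))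 (.br (Nat.shiftLeft (nat_lit 0x1) (nat_lit 100)) (.one (nat_lit 0x800a0130000010014027400)) (.br (Nat.shiftLeft (nat_lit 0x1008009019) (nat_lit 64)) (.one (nat_lit 0x10080090180002010012030540)) (.one (nat_lit 0x10080090190002010012032540))))))
def t257 : k257.all (jb2 57 fl b0) = true := by decide +kernel
noncomputable def k258 : KT := (.one (nat_lit 0x100800901a0002010012034540))
def t258 : k258.all (jb2 57 fl b0) = true := by decide +kernel
noncomputable def k259 : KT := (.one (nat_lit 0x20080090180004010012030540))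
def t259 : k259.all (jb2 57 fl b0) = true := by decide +kernel
noncomputable def k260 : KT := (.one (nat_lit 0x20080090190004010012032540))
def t260 : k260.all (jb2 57 fl b0) = true := by decide +kernel
noncomputable def k261 : KT := (.br (Nat.shiftLeft (nat_lit 0x3) (nat_lit 100)) (.one (nat_lit 0x200800901a0004010012034540)) (.one (nat_lit 0x30080090180006010012031500)))
def t261 : k261.all (jb2 57 fl b0) = true := by decide +kernel
noncomputable def k262 : KT := (.one (nat_lit 0x30080090190006010012032540))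
def t262 : k262.all (jb2 57 fl b0) = true := by decide +kernel
noncomputable def k263 : KT := (.br (Nat.shiftLeft (nat_lit 0x1) (nat_lit 102)) (.one (nat_lit 0x300800901a0006010012034540)) (.one (nat_lit 0x40080090180008010012031500)))
def t263 : k263.all (jb2 57 fl b0) = true := by decide +kernel
noncomputable def k264 : KT := (.one (nat_lit 0x40080090190008010012032540))
def t264 : k264.all (jb2 57 fl b0) = true := by decide +kernel
noncomputable def k265 : KT := (.one (nat_lit 0x400800901a0008010012034540))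
def t265 : k265.all (jb2 57 fl b0) = true := by decide +kernel
noncomputable def k266 : KT := (.one (nat_lit 0x5008009018000a010012030540))
def t266 : k266.all (jb2 57 fl b0) = true := by decide +kernel
noncomputable def k267 : KT := (.one (nat_lit 0x5008009019000a010012032540))
def t267 : k267.all (jb2 57 fl b0) = true := by decide +kernel
noncomputable def k268 : KT := (.one (nat_lit 0x500800901a000a010012034540))
def t268 : k268.all (jb2 57 fl b0) = true := by decide +kernel
noncomputable def k269 : KT := (.one (nat_lit 0x6008009018000c010012030540))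
def t269 : k269.all (jb2 57 fl b0) = true := by decide +kernel
noncomputable def k270 : KT := (.br (Nat.shiftLeft (nat_lit 0x300400480d) (nat_lit 65)) (.one (nat_lit 0x6008009019000c010012032540)) (.one (nat_lit 0x600800901a000c010012034540)))
def t270 : k270.all (jb2 57 fl b0) = true := by decide +kernel
noncomputable def k271 : KT := (.br (Nat.shiftLeft (nat_lit 0x7008009019) (nat_lit 64)) (.one (nat_lit 0x7008009018000e010012030540)) (.one (nat_lit 0x7008009019000e010012032540)))
def t271 : k271.all (jb2 57 fl b0) = true := by decide +kernel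
noncomputable def k272 : KT := (.br (Nat.shiftLeft (nat_lit 0x801) (nat_lit 101)) (.br (Nat.shiftLeft (nat_lit 0x1000008009019) (nat_lit 64)) (.br (Nat.shiftLeft (nat_lit 0x1) (nat_lit 112)) (.one (nat_lit 0x700800901a000e010012034540)) (.one (nat_lit 0x10000080090182000010012030411))) (.br (Nat.shiftLeft (nat_lit 0x80000400480d) (nat_lit 65)) (.one (nat_lit 0x10000080090192000010012032411)) (.one (nat_lit 0x100000800901a2000010012034411)))) (.br (Nat.shiftLeft (nat_lit 0x1) (nat_lit 113)) (.br (Nat.shiftLeft (nat_lit 0x401) (nat_lit 102)) (.one (nat_lit 0x10030080090182006010012030650)) (.one (nat_lit 0x10040080090182008010012030650))) (.br (Nat.shiftLeft (nat_lit 0x2000008009019) (nat_lit 64)) (.one (nat_lit 0x20000080090184000010012030411)) (.br (Nat.shiftLeft (nat_lit 0x100000400480d) (nat_lit 65)) (.one (nat_lit 0x20000080090194000010012032411)) (.one (nat_lit 0x200000800901a4000010012034411))))))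
def t272 : k272.all (jb2 57 fl b0) = true := by decide +kernel
noncomputable def k273 : KT := (.br (Nat.shiftLeft (nat_lit 0x180000400480d) (nat_lit 65)) (.br (Nat.shiftLeft (nat_lit 0x3) (nat_lit 112)) (.br (Nat.shiftLeft (nat_lit 0x801) (nat_lit 102)) (.one (nat_lit 0x20030080090184006010012030650)) (.one (nat_lit 0x20040080090184008010012030650))) (.br (Nat.shiftLeft (nat_lit 0x3000008009019) (nat_lit 64)) (.one (nat_lit 0x30000080090186000010012030411)) (.one (nat_lit 0x30000080090196000010012032411)))) (.br (Nat.shiftLeft (nat_lit 0x1) (nat_lit 114)) (.br (Nat.shiftLeft (nat_lit 0xc01) (nat_lit 102)) (.one (nat_lit 0x300000800901a6000010012034411)) (.one (nat_lit 0x30040080090186008010012030650))) (.br (Nat.shiftLeft (nat_lit 0x4000008009019) (nat_lit 64)) (.one (nat_lit 0x40000080090188000010012030411)) (.br (Nat.shiftLeft (nat_lit 0x200000400480d) (nat_lit 65)) (.one (nat_lit 0x40000080090198000010012032411)) (.one (nat_lit 0x400000800901a8000010012034411))))))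
def t273 : k273.all (jb2 57 fl b0) = true := by decide +kernel
noncomputable def k274 : KT := (.br (Nat.shiftLeft (nat_lit 0x9000008009019) (nat_lit 64)) (.br (Nat.shiftLeft (nat_lit 0x7) (nat_lit 112)) (.br (Nat.shiftLeft (nat_lit 0x3) (nat_lit 113)) (.br (Nat.shiftLeft (nat_lit 0x5000008009019) (nat_lit 64)) (.one (nat_lit 0x5000008009018a000010012030411)) (.br (Nat.shiftLeft (nat_lit 0x280000400480d) (nat_lit 65)) (.one (nat_lit 0x5000008009019a000010012032411)) (.one (nat_lit 0x500000800901aa000010012034411)))) (.br (Nat.shiftLeft (nat_lit 0x6000008009019) (nat_lit 64)) (.one (nat_lit 0x6000008009018c000010012030411)) (.br (Nat.shiftLeft (nat_lit 0x300000400480d) (nat_lit 65)) (.one (nat_lit 0x6000008009019c000010012032411)) (.one (nat_lit 0x600000800901ac000010012034411))))) (.br (Nat.shiftLeft (nat_lit 0x1) (nat_lit 115)) (.br (Nat.shiftLeft (nat_lit 0x7000008009019) (nat_lit 64)) (.one (nat_lit 0x7000008009018e000010012030411)) (.br (Nat.shiftLeft (nat_lit 0x380000400480d) (nat_lit 65)) (.one (nat_lit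 0x7000008009019e000010012032411)) (.one (nat_lit 0x700000800901ae000010012034411)))) (.br (Nat.shiftLeft (nat_lit 0x400000400480d) (nat_lit 65)) (.br (Nat.shiftLeft (nat_lit 0x8000008009019) (nat_lit 64)) (.one (nat_lit 0x80000080090180000010012132411)) (.one (nat_lit 0x80000080090190000010012134411))) (.br (Nat.shiftLeft (nat_lit 0x9) (nat_lit 112)) (.one (nat_lit 0x800000800901a0000010012136411)) (.one (nat_lit 0x90000080090182000010012132411)))))) (.br (Nat.shiftLeft (nat_lit 0xc00001) (nat_lit 102)) (.br (Nat.shiftLeft (nat_lit 0x400001) (nat_lit 102)) (.br (Nat.shiftLeft (nat_lit 0x480000400480d) (nat_lit 65)) (.one (nat_lit 0x90000080090192000010012134411)) (.br (Nat.shiftLeft (nat_lit 0x1) (nat_lit 124)) (.one (nat_lit 0x900000800901a2000010012136411)) (.one (nat_lit 0x10000030080090180006010032430511)))) (.br (Nat.shiftLeft (nat_lit 0x800001) (nat_lit 102)) (.br (Nat.shiftLeft (nat_lit 0x1) (nat_lit 125)) (.one (nat_lit 0x10000040080090180008010032430511)) (.one (nat_lit 0x20000030080090180006010052830511)))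 (.br (Nat.shiftLeft (nat_lit 0x3) (nat_lit 124)) (.one (nat_lit 0x20000040080090180008010052830511)) (.one (nat_lit 0x30000030080090180006010072c30511))))) (.br (Nat.shiftLeft (nat_lit 0x5) (nat_lit 124)) (.br (Nat.shiftLeft (nat_lit 0x1) (nat_lit 126)) (.one (nat_lit 0x30000040080090180008010072c30511)) (.br (Nat.shiftLeft (nat_lit 0x1000001) (nat_lit 102)) (.one (nat_lit 0x40000030080090180006010093030511)) (.one (nat_lit 0x40000040080090180008010093030511)))) (.br (Nat.shiftLeft (nat_lit 0x3) (nat_lit 125)) (.br (Nat.shiftLeft (nat_lit 0x1400001) (nat_lit 102)) (.one (nat_lit 0x500000300800901800060100b3430511)) (.one (nat_lit 0x500000400800901800080100b3430511))) (.br (Nat.shiftLeft (nat_lit 0x1800001) (nat_lit 102)) (.one (nat_lit 0x600000300800901800060100d3830511)) (.one (nat_lit 0x600000400800901800080100d3830511)))))))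
def t274 : k274.all (jb2 57 fl b0) = true := by decide +kernel
noncomputable def k275 : KT := (.br (Nat.shiftLeft (nat_lit 0x2000001) (nat_lit 102)) (.br (Nat.shiftLeft (nat_lit 0x1c00001) (nat_lit 102)) (.one (nat_lit 0x700000300800901800060100f3c30511)) (.br (Nat.shiftLeft (nat_lit 0x1) (nat_lit 127)) (.one (nat_lit 0x700000400800901800080100f3c30511)) (.one (nat_lit 0x80000030080090180006010114030511)))) (.br (Nat.shiftLeft (nat_lit 0x9) (nat_lit 124)) (.one (nat_lit 0x80000040080090180008010114030511)) (.br (Nat.shiftLeft (nat_lit 0x2400001) (nat_lit 102)) (.one (nat_lit 0x90000030080090180006010134430511)) (.one (nat_lit 0x90000040080090180008010134430511)))))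
def t275 : k275.all (jb2 57 fl b0) = true := by decide +kernel
noncomputable def s12 : KT := (.br (nat_lit 0x400800901a0008010012034540) (.br (nat_lit 0x20080090190004010012032540) (.br (nat_lit 0x100800901a0002010012034540) (.br (nat_lit 0x10080090190002010012032540) k257 k258) (.br (nat_lit 0x20080090180004010012030540) k259 k260)) (.br (nat_lit 0x30080090190006010012032540) (.br (nat_lit 0x30080090180006010012031500) k261 k262) (.br (nat_lit 0x40080090180008010012031500) k263 (.br (nat_lit 0x40080090190008010012032540) k264 k265)))) (.br (nat_lit 0x600800901a000c010012034540) (.br (nat_lit 0x5008009019000a010012032540) (.br (nat_lit 0x5008009018000a010012030540) k266 k267) (.br (nat_lit 0x500800901a000a010012034540) k268 (.br (nat_lit 0x6008009018000c010012030540) k269 k270))) (.br (nat_lit 0x200000800901a4000010012034411) (.br (nat_lit 0x7008009019000e010012032540) k271 k272) (.br (nat_lit 0x400000800901a8000010012034411) k273 (.br (nat_lit 0x600000400800901800080100d3830511) k274 k275)))))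
noncomputable def u12 : KT := (.br (Nat.shiftLeft (nat_lit 0x800a00f) (nat_lit 64)) (.br (Nat.shiftLeft (nat_lit 0x400480d) (nat_lit 65)) (.br (Nat.shiftLeft (nat_lit 0x8009019) (nat_lit 64)) (.one (nat_lit 0x80090180000010012030430)) (.one (nat_lit 0x80090190000010012032430))) (.br (Nat.shiftLeft (nat_lit 0x4005) (nat_lit 77)) (.one (nat_lit 0x800901a0000010012034430)) (.one (nat_lit 0x800a00e000001001401d400)))) (.br (Nat.shiftLeft (nat_lit 0x800a011) (nat_lit 64)) (.br (Nat.shiftLeft (nat_lit 0x800a01) (nat_lit 68)) (.one (nat_lit 0x800a00f000001001401f400)) (.one (nat_lit 0x800a0100000010014021400))) (.br (Nat.shiftLeft (nat_lit 0x4005009) (nat_lit 65)) (.one (nat_lit 0x800a0110000010014023400)) (.br (Nat.shiftLeft (nat_lit 0x800a013) (nat_lit 64)) (.one (nat_lit 0x800a0120000010014025400)) (.one (nat_lit 0x800a0130000010014027400))))))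
def w12 : u12.all (wj 57 s12) = true := by decide +kernel
def o12 : OkW 57 (jb2 57 fl) u12 := .lift s12 _ (.br _ _ _ (.br _ _ _ (.br _ _ _ (.br _ _ _ (.leaf b0 k257 t257) (.leaf b0 k258 t258)) (.br _ _ _ (.leaf b0 k259 t259) (.leaf b0 k260 t260))) (.br _ _ _ (.br _ _ _ (.leaf b0 k261 t261) (.leaf b0 k262 t262)) (.br _ _ _ (.leaf b0 k263 t263) (.br _ _ _ (.leaf b0 k264 t264) (.leaf b0 k265 t265))))) (.br _ _ _ (.br _ _ _ (.br _ _ _ (.leaf b0 k266 t266) (.leaf b0 k267 t267)) (.br _ _ _ (.leaf b0 k268 t268) (.br _ _ _ (.leaf b0 k269 t269) (.leaf b0 k270 t270)))) (.br _ _ _ (.br _ _ _ (.leaf b0 k271 t271) (.leaf b0 k272 t272)) (.br _ _ _ (.leaf b0 k273 t273) (.br _ _ _ (.leaf b0 k274 t274) (.leaf b0 k275 t275)))))) w12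
noncomputable def k276 : KT := (.br (Nat.shiftLeft (nat_lit 0x1) (nat_lit 102)) (.br (Nat.shiftLeft (nat_lit 0x1) (nat_lit 101)) (.br (Nat.shiftLeft (nat_lit 0x1) (nat_lit 100)) (.one (nat_lit 0x800a0140000010014029400)) (.one (nat_lit 0x100800a0140002010014028540))) (.br (Nat.shiftLeft (nat_lit 0x3) (nat_lit 100)) (.one (nat_lit 0x200800a0140004010014029500)) (.one (nat_lit 0x300800a0140006010014029500)))) (.br (Nat.shiftLeft (nat_lit 0x3) (nat_lit 101)) (.br (Nat.shiftLeft (nat_lit 0x5) (nat_lit 100)) (.one (nat_lit 0x400800a0140008010014029500)) (.one (nat_lit 0x500800a014000a010014029500))) (.br (Nat.shiftLeft (nat_lit 0x7) (nat_lit 100)) (.one (nat_lit 0x600800a014000c010014029500)) (.br (Nat.shiftLeft (nat_lit 0x1) (nat_lit 112)) (.one (nat_lit 0x700800a014000e010014029500)) (.one (nat_lit 0x100000800a0142000010014028411))))))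
def t276 : k276.all (jb2 57 fl b0) = true := by decide +kernel
noncomputable def k277 : KT := (.one (nat_lit 0x100200800a0142004010014028650))
def t277 : k277.all (jb2 57 fl b0) = true := by decide +kernel
noncomputable def k278 : KT := (.one (nat_lit 0x100300800a0142006010014028650))
def t278 : k278.all (jb2 57 fl b0) = true := by decide +kernel
noncomputable def k279 : KT := (.one (nat_lit 0x100400800a0142008010014028650))
def t279 : k279.all (jb2 57 fl b0) = true := by decide +kernel
noncomputable def k280 : KT := (.br (Nat.shiftLeft (nat_lit 0x1007) (nat_lit 100)) (.br (Nat.shiftLeft (nat_lit 0x803) (nat_lit 101)) (.one (nat_lit 0x100500800a014200a010014028650)) (.one (nat_lit 0x100600800a014200c010014028650))) (.br (Nat.shiftLeft (nat_lit 0x1) (nat_lit 113)) (.one (nat_lit 0x100700800a014200e010014028650)) (.br (Nat.shiftLeft (nat_lit 0x1001) (nat_lit 101)) (.one (nat_lit 0x200000800a0144000010014028411)) (.one (nat_lit 0x200300800a0144006010014029600)))))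
def t280 : k280.all (jb2 57 fl b0) = true := by decide +kernel
noncomputable def k281 : KT := (.one (nat_lit 0x200400800a0144008010014028650))
def t281 : k281.all (jb2 57 fl b0) = true := by decide +kernel
noncomputable def k282 : KT := (.br (Nat.shiftLeft (nat_lit 0x1003) (nat_lit 101)) (.one (nat_lit 0x200500800a014400a010014028650)) (.one (nat_lit 0x200600800a014400c010014028650)))
def t282 : k282.all (jb2 57 fl b0) = true := by decide +kernel
noncomputable def k283 : KT := (.br (Nat.shiftLeft (nat_lit 0x3) (nat_lit 112)) (.one (nat_lit 0x200700800a014400e010014028650)) (.one (nat_lit 0x300000800a0146000010014028411)))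
def t283 : k283.all (jb2 57 fl b0) = true := by decide +kernel
noncomputable def k284 : KT := (.one (nat_lit 0x300400800a0146008010014028650))
def t284 : k284.all (jb2 57 fl b0) = true := by decide +kernel
noncomputable def k285 : KT := (.br (Nat.shiftLeft (nat_lit 0x1803) (nat_lit 101)) (.one (nat_lit 0x300500800a014600a010014028650)) (.one (nat_lit 0x300600800a014600c010014028650)))
def t285 : k285.all (jb2 57 fl b0) = true := by decide +kernel
noncomputable def k286 : KT := (.br (Nat.shiftLeft (nat_lit 0x1) (nat_lit 114)) (.one (nat_lit 0x300700800a014600e010014028650)) (.br (Nat.shiftLeft (nat_lit 0x1001) (nat_lit 102)) (.one (nat_lit 0x400000800a0148000010014028411)) (.one (nat_lit 0x400500800a014800a010014028650))))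
def t286 : k286.all (jb2 57 fl b0) = true := by decide +kernel
noncomputable def k287 : KT := (.br (Nat.shiftLeft (nat_lit 0x5) (nat_lit 112)) (.br (Nat.shiftLeft (nat_lit 0x4007) (nat_lit 100)) (.one (nat_lit 0x400600800a014800c010014028650)) (.one (nat_lit 0x400700800a014800e010014028650))) (.br (Nat.shiftLeft (nat_lit 0x1401) (nat_lit 102)) (.one (nat_lit 0x500000800a014a000010014028411)) (.one (nat_lit 0x500600800a014a00c010014028650))))
def t287 : k287.all (jb2 57 fl b0) = true := by decide +kernel
noncomputable def k288 : KT := (.br (Nat.shiftLeft (nat_lit 0x5) (nat_lit 113)) (.br (Nat.shiftLeft (nat_lit 0x7) (nat_lit 112)) (.br (Nat.shiftLeft (nat_lit 0x3) (nat_lit 113)) (.one (nat_lit 0x500700800a014a00e010014028650)) (.br (Nat.shiftLeft (nat_lit 0x1801) (nat_lit 102)) (.one (nat_lit 0x600000800a014c000010014028411)) (.one (nat_lit 0x600700800a014c00e010014028650)))) (.br (Nat.shiftLeft (nat_lit 0x1) (nat_lit 115)) (.one (nat_lit 0x700000800a014e000010014028411)) (.br (Nat.shiftLeft (nat_lit 0x9) (nat_lit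 112)) (.one (nat_lit 0x800000800a014000001001412a411)) (.one (nat_lit 0x900000800a014200001001412a411))))) (.br (Nat.shiftLeft (nat_lit 0x400001) (nat_lit 102)) (.br (Nat.shiftLeft (nat_lit 0x1) (nat_lit 124)) (.one (nat_lit 0xa00000800a014400001001412a411)) (.br (Nat.shiftLeft (nat_lit 0x1000003) (nat_lit 100)) (.one (nat_lit 0x100000200800a0140004010034428511)) (.one (nat_lit 0x100000300800a0140006010034428511)))) (.br (Nat.shiftLeft (nat_lit 0x800003) (nat_lit 101)) (.br (Nat.shiftLeft (nat_lit 0x1000005) (nat_lit 100)) (.one (nat_lit 0x100000400800a0140008010034428511)) (.one (nat_lit 0x100000500800a014000a010034428511))) (.br (Nat.shiftLeft (nat_lit 0x1000007) (nat_lit 100)) (.one (nat_lit 0x100000600800a014000c010034428511)) (.one (nat_lit 0x100000700800a014000e010034428511))))))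
def t288 : k288.all (jb2 57 fl b0) = true := by decide +kernel
noncomputable def k289 : KT := (.br (Nat.shiftLeft (nat_lit 0xc00001) (nat_lit 102)) (.br (Nat.shiftLeft (nat_lit 0x2000005) (nat_lit 100)) (.br (Nat.shiftLeft (nat_lit 0x2000003) (nat_lit 100)) (.br (Nat.shiftLeft (nat_lit 0x1) (nat_lit 125)) (.one (nat_lit 0x100200300800a0144006010034428760)) (.one (nat_lit 0x200000200800a0140004010054828511))) (.br (Nat.shiftLeft (nat_lit 0x800001) (nat_lit 102)) (.one (nat_lit 0x200000300800a0140006010054828511)) (.one (nat_lit 0x200000400800a0140008010054828511)))) (.br (Nat.shiftLeft (nat_lit 0x2000007) (nat_lit 100)) (.br (Nat.shiftLeft (nat_lit 0x1000003) (nat_lit 101)) (.one (nat_lit 0x200000500800a014000a010054828511)) (.one (nat_lit 0x200000600800a014000c010054828511))) (.br (Nat.shiftLeft (nat_lit 0x3) (nat_lit 124)) (.one (nat_lit 0x200000700800a014000e010054828511)) (.br (Nat.shiftLeft (nat_lit 0x3000003) (nat_lit 100)) (.one (nat_lit 0x300000200800a0140004010074c28511)) (.one (nat_lit 0x300000300800a0140006010074c28511))))))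 (.br (Nat.shiftLeft (nat_lit 0x4000003) (nat_lit 100)) (.br (Nat.shiftLeft (nat_lit 0x1800003) (nat_lit 101)) (.br (Nat.shiftLeft (nat_lit 0x3000005) (nat_lit 100)) (.one (nat_lit 0x300000400800a0140008010074c28511)) (.one (nat_lit 0x300000500800a014000a010074c28511))) (.br (Nat.shiftLeft (nat_lit 0x3000007) (nat_lit 100)) (.one (nat_lit 0x300000600800a014000c010074c28511)) (.br (Nat.shiftLeft (nat_lit 0x1) (nat_lit 126)) (.one (nat_lit 0x300000700800a014000e010074c28511)) (.one (nat_lit 0x400000200800a0140004010095028511))))) (.br (Nat.shiftLeft (nat_lit 0x4000005) (nat_lit 100)) (.br (Nat.shiftLeft (nat_lit 0x1000001) (nat_lit 102)) (.one (nat_lit 0x400000300800a0140006010095028511)) (.one (nat_lit 0x400000400800a0140008010095028511))) (.br (Nat.shiftLeft (nat_lit 0x2000003) (nat_lit 101)) (.one (nat_lit 0x400000500800a014000a010095028511)) (.br (Nat.shiftLeft (nat_lit 0x4000007) (nat_lit 100)) (.one (nat_lit 0x400000600800a014000c010095028511)) (.one (nat_lit 0x400000700800a014000e010095028511)))))))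
def t289 : k289.all (jb2 57 fl b0) = true := by decide +kernel
noncomputable def k290 : KT := (.br (Nat.shiftLeft (nat_lit 0x2800003) (nat_lit 101)) (.br (Nat.shiftLeft (nat_lit 0x1400001) (nat_lit 102)) (.br (Nat.shiftLeft (nat_lit 0x5000003) (nat_lit 100)) (.one (nat_lit 0x500000200800a01400040100b5428511)) (.one (nat_lit 0x500000300800a01400060100b5428511))) (.br (Nat.shiftLeft (nat_lit 0x5000005) (nat_lit 100)) (.one (nat_lit 0x500000400800a01400080100b5428511)) (.one (nat_lit 0x500000500800a014000a0100b5428511)))) (.br (Nat.shiftLeft (nat_lit 0x3) (nat_lit 125)) (.br (Nat.shiftLeft (nat_lit 0x5000007) (nat_lit 100)) (.one (nat_lit 0x500000600800a014000c0100b5428511)) (.one (nat_lit 0x500000700800a014000e0100b5428511))) (.br (Nat.shiftLeft (nat_lit 0x6000003) (nat_lit 100)) (.one (nat_lit 0x600000200800a01400040100d5828511)) (.one (nat_lit 0x600000300800a01400060100d5828511)))))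
def t290 : k290.all (jb2 57 fl b0) = true := by decide +kernel
noncomputable def k291 : KT := (.br (Nat.shiftLeft (nat_lit 0x7) (nat_lit 124)) (.br (Nat.shiftLeft (nat_lit 0x3000003) (nat_lit 101)) (.br (Nat.shiftLeft (nat_lit 0x6000005) (nat_lit 100)) (.one (nat_lit 0x600000400800a01400080100d5828511)) (.one (nat_lit 0x600000500800a014000a0100d5828511))) (.br (Nat.shiftLeft (nat_lit 0x6000007) (nat_lit 100)) (.one (nat_lit 0x600000600800a014000c0100d5828511)) (.one (nat_lit 0x600000700800a014000e0100d5828511)))) (.br (Nat.shiftLeft (nat_lit 0x1c00001) (nat_lit 102)) (.br (Nat.shiftLeft (nat_lit 0x7000003) (nat_lit 100)) (.one (nat_lit 0x700000200800a01400040100f5c28511)) (.one (nat_lit 0x700000300800a01400060100f5c28511))) (.br (Nat.shiftLeft (nat_lit 0x7000005) (nat_lit 100)) (.one (nat_lit 0x700000400800a01400080100f5c28511)) (.one (nat_lit 0x700000500800a014000a0100f5c28511)))))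
def t291 : k291.all (jb2 57 fl b0) = true := by decide +kernel
noncomputable def k292 : KT := (.br (Nat.shiftLeft (nat_lit 0x4000003) (nat_lit 101)) (.br (Nat.shiftLeft (nat_lit 0x8000003) (nat_lit 100)) (.br (Nat.shiftLeft (nat_lit 0x7000007) (nat_lit 100)) (.one (nat_lit 0x700000600800a014000c0100f5c28511)) (.br (Nat.shiftLeft (nat_lit 0x1) (nat_lit 127)) (.one (nat_lit 0x700000700800a014000e0100f5c28511)) (.one (nat_lit 0x800000200800a0140004010116028511)))) (.br (Nat.shiftLeft (nat_lit 0x2000001) (nat_lit 102)) (.one (nat_lit 0x800000300800a0140006010116028511)) (.br (Nat.shiftLeft (nat_lit 0x8000005) (nat_lit 100)) (.one (nat_lit 0x800000400800a0140008010116028511)) (.one (nat_lit 0x800000500800a014000a010116028511))))) (.br (Nat.shiftLeft (nat_lit 0x9000003) (nat_lit 100)) (.br (Nat.shiftLeft (nat_lit 0x8000007) (nat_lit 100)) (.one (nat_lit 0x800000600800a014000c010116028511)) (.br (Nat.shiftLeft (nat_lit 0x9) (nat_lit 124)) (.one (nat_lit 0x800000700800a014000e010116028511)) (.one (nat_lit 0x900000200800a0140004010136428511))))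 (.br (Nat.shiftLeft (nat_lit 0x9000005) (nat_lit 100)) (.br (Nat.shiftLeft (nat_lit 0x2400001) (nat_lit 102)) (.one (nat_lit 0x900000300800a0140006010136428511)) (.one (nat_lit 0x900000400800a0140008010136428511))) (.br (Nat.shiftLeft (nat_lit 0x4800003) (nat_lit 101)) (.one (nat_lit 0x900000500800a014000a010136428511)) (.one (nat_lit 0x900000600800a014000c010136428511))))))
def t292 : k292.all (jb2 57 fl b0) = true := by decide +kernel
noncomputable def k293 : KT := (.br (Nat.shiftLeft (nat_lit 0x1) (nat_lit 137)) (.br (Nat.shiftLeft (nat_lit 0xa000005) (nat_lit 100)) (.br (Nat.shiftLeft (nat_lit 0xa000003) (nat_lit 100)) (.br (Nat.shiftLeft (nat_lit 0x5) (nat_lit 125)) (.one (nat_lit 0x900000700800a014000e010136428511)) (.one (nat_lit 0xa00000200800a0140004010156828511))) (.br (Nat.shiftLeft (nat_lit 0x2800001) (nat_lit 102)) (.one (nat_lit 0xa00000300800a0140006010156828511)) (.one (nat_lit 0xa00000400800a0140008010156828511)))) (.br (Nat.shiftLeft (nat_lit 0xa000007) (nat_lit 100)) (.br (Nat.shiftLeft (nat_lit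 0x5000003) (nat_lit 101)) (.one (nat_lit 0xa00000500800a014000a010156828511)) (.one (nat_lit 0xa00000600800a014000c010156828511))) (.br (Nat.shiftLeft (nat_lit 0x1) (nat_lit 136)) (.one (nat_lit 0xa00000700800a014000e010156828511)) (.one (nat_lit 0x100000200300800a0144006030414028611))))) (.br (Nat.shiftLeft (nat_lit 0x3) (nat_lit 137)) (.br (Nat.shiftLeft (nat_lit 0x1) (nat_lit 138)) (.br (Nat.shiftLeft (nat_lit 0x3) (nat_lit 136)) (.one (nat_lit 0x200000200300800a0144006050814028611)) (.one (nat_lit 0x300000200300800a0144006070c14028611))) (.br (Nat.shiftLeft (nat_lit 0x5) (nat_lit 136)) (.one (nat_lit 0x400000200300800a0144006091014028611)) (.one (nat_lit 0x500000200300800a01440060b1414028611)))) (.br (Nat.shiftLeft (nat_lit 0x1) (nat_lit 139)) (.br (Nat.shiftLeft (nat_lit 0x7) (nat_lit 136)) (.one (nat_lit 0x600000200300800a01440060d1814028611)) (.one (nat_lit 0x700000200300800a01440060f1c14028611))) (.br (Nat.shiftLeft (nat_lit 0x9) (nat_lit 136)) (.one (nat_lit 0x800000200300800a0144006112014028611)) (.br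 (Nat.shiftLeft (nat_lit 0x5) (nat_lit 137)) (.one (nat_lit 0x900000200300800a0144006132414028611)) (.one (nat_lit 0xa00000200300800a0144006152814028611)))))))
def t293 : k293.all (jb2 57 fl b0) = true := by decide +kernel
noncomputable def s13 : KT := (.br (nat_lit 0x300400800a0146008010014028650) (.br (nat_lit 0x100400800a0142008010014028650) (.br (nat_lit 0x100200800a0142004010014028650) (.br (nat_lit 0x100000800a0142000010014028411) k276 k277) (.br (nat_lit 0x100300800a0142006010014028650) k278 k279)) (.br (nat_lit 0x200400800a0144008010014028650) (.br (nat_lit 0x200300800a0144006010014029600) k280 k281) (.br (nat_lit 0x200600800a014400c010014028650) k282 (.br (nat_lit 0x300000800a0146000010014028411) k283 k284)))) (.br (nat_lit 0x100000700800a014000e010034428511) (.br (nat_lit 0x400500800a014800a010014028650) (.br (nat_lit 0x300600800a014600c010014028650) k285 k286) (.br (nat_lit 0x500600800a014a00c010014028650) k287 k288)) (.br (nat_lit 0x600000300800a01400060100d5828511) (.br (nat_lit 0x400000700800a014000e010095028511)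 k289 k290) (.br (nat_lit 0x700000500800a014000a0100f5c28511) k291 (.br (nat_lit 0x900000600800a014000c010136428511) k292 k293)))))
noncomputable def u13 : KT := (.one (nat_lit 0x800a0140000010014028430))
def w13 : u13.all (wj 57 s13) = true := by decide +kernel
def o13 : OkW 57 (jb2 57 fl) u13 := .lift s13 _ (.br _ _ _ (.br _ _ _ (.br _ _ _ (.br _ _ _ (.leaf b0 k276 t276) (.leaf b0 k277 t277)) (.br _ _ _ (.leaf b0 k278 t278) (.leaf b0 k279 t279))) (.br _ _ _ (.br _ _ _ (.leaf b0 k280 t280) (.leaf b0 k281 t281)) (.br _ _ _ (.leaf b0 k282 t282) (.br _ _ _ (.leaf b0 k283 t283) (.leaf b0 k284 t284))))) (.br _ _ _ (.br _ _ _ (.br _ _ _ (.leaf b0 k285 t285) (.leaf b0 k286 t286)) (.br _ _ _ (.leaf b0 k287 t287) (.leaf b0 k288 t288))) (.br _ _ _ (.br _ _ _ (.leaf b0 k289 t289) (.leaf b0 k290 t290)) (.br _ _ _ (.leaf b0 k291 t291) (.br _ _ _ (.leaf b0 k292 t292) (.leaf b0 k293 t293)))))) w13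
noncomputable def k294 : KT := (.br (Nat.shiftLeft (nat_lit 0x400500b) (nat_lit 65)) (.one (nat_lit 0x800a015000001001402b400)) (.br (Nat.shiftLeft (nat_lit 0x1) (nat_lit 100)) (.one (nat_lit 0x800a016000001001402d400)) (.one (nat_lit 0x100800a015000201001402a540))))
def t294 : k294.all (jb2 57 fl b0) = true := by decide +kernel
noncomputable def k295 : KT := (.br (Nat.shiftLeft (nat_lit 0x200400500b) (nat_lit 65)) (.br (Nat.shiftLeft (nat_lit 0x3) (nat_lit 100)) (.br (Nat.shiftLeft (nat_lit 0x1) (nat_lit 101)) (.one (nat_lit 0x100800a016000201001402c540)) (.br (Nat.shiftLeft (nat_lit 0x100400500b) (nat_lit 65)) (.one (nat_lit 0x200800a015000401001402b500)) (.one (nat_lit 0x200800a016000401001402d500)))) (.br (Nat.shiftLeft (nat_lit 0x180400500b) (nat_lit 65)) (.one (nat_lit 0x300800a015000601001402b500)) (.br (Nat.shiftLeft (nat_lit 0x1) (nat_lit 102)) (.one (nat_lit 0x300800a016000601001402d500)) (.one (nat_lit 0x400800a015000801001402b500))))) (.br (Nat.shiftLeft (nat_lit 0x3) (nat_lit 101)) (.br (Nat.shiftLeft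 (nat_lit 0x5) (nat_lit 100)) (.one (nat_lit 0x400800a016000801001402d500)) (.br (Nat.shiftLeft (nat_lit 0x280400500b) (nat_lit 65)) (.one (nat_lit 0x500800a015000a01001402b500)) (.one (nat_lit 0x500800a016000a01001402d500)))) (.br (Nat.shiftLeft (nat_lit 0x300400500b) (nat_lit 65)) (.one (nat_lit 0x600800a015000c01001402b500)) (.br (Nat.shiftLeft (nat_lit 0x7) (nat_lit 100)) (.one (nat_lit 0x600800a016000c01001402d500)) (.one (nat_lit 0x700800a015000e01001402b500))))))
def t295 : k295.all (jb2 57 fl b0) = true := by decide +kernel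
noncomputable def k296 : KT := (.br (Nat.shiftLeft (nat_lit 0x1) (nat_lit 112)) (.one (nat_lit 0x700800a016000e01001402c540)) (.br (Nat.shiftLeft (nat_lit 0x80000400500b) (nat_lit 65)) (.one (nat_lit 0x100000800a015200001001402a411)) (.one (nat_lit 0x100000800a016200001001402c411))))
def t296 : k296.all (jb2 57 fl b0) = true := by decide +kernel
noncomputable def k297 : KT := (.one (nat_lit 0x100200800a015200401001402a650))
def t297 : k297.all (jb2 57 fl b0) = true := by decide +kernel
noncomputable def k298 : KT := (.one (nat_lit 0x100200800a016200401001402c650))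
def t298 : k298.all (jb2 57 fl b0) = true := by decide +kernel
noncomputable def k299 : KT := (.br (Nat.shiftLeft (nat_lit 0x80180400500b) (nat_lit 65)) (.one (nat_lit 0x100300800a015200601001402a650)) (.one (nat_lit 0x100300800a016200601001402c650)))
def t299 : k299.all (jb2 57 fl b0) = true := by decide +kernel
noncomputable def k300 : KT := (.br (Nat.shiftLeft (nat_lit 0x80200400500b) (nat_lit 65)) (.one (nat_lit 0x100400800a015200801001402a650)) (.one (nat_lit 0x100400800a016200801001402c650)))
def t300 : k300.all (jb2 57 fl b0) = true := by decide +kernel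
noncomputable def k301 : KT := (.br (Nat.shiftLeft (nat_lit 0x803) (nat_lit 101)) (.br (Nat.shiftLeft (nat_lit 0x80280400500b) (nat_lit 65)) (.one (nat_lit 0x100500800a015200a01001402a650)) (.one (nat_lit 0x100500800a016200a01001402c650))) (.br (Nat.shiftLeft (nat_lit 0x80300400500b) (nat_lit 65)) (.one (nat_lit 0x100600800a015200c01001402a650)) (.one (nat_lit 0x100600800a016200c01001402c650))))
def t301 : k301.all (jb2 57 fl b0) = true := by decide +kernel
noncomputable def k302 : KT := (.br (Nat.shiftLeft (nat_lit 0x100000400500b) (nat_lit 65)) (.br (Nat.shiftLeft (nat_lit 0x1) (nat_lit 113)) (.one (nat_lit 0x100700800a015200e01001402a650)) (.one (nat_lit 0x200000800a015400001001402a411))) (.br (Nat.shiftLeft (nat_lit 0x1001) (nat_lit 101)) (.one (nat_lit 0x200000800a016400001001402c411)) (.one (nat_lit 0x200300800a015400601001402a650))))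
def t302 : k302.all (jb2 57 fl b0) = true := by decide +kernel
noncomputable def k303 : KT := (.one (nat_lit 0x200300800a016400601001402c650))
def t303 : k303.all (jb2 57 fl b0) = true := by decide +kernel
noncomputable def k304 : KT := (.br (Nat.shiftLeft (nat_lit 0x100200400500b) (nat_lit 65)) (.one (nat_lit 0x200400800a015400801001402a650)) (.one (nat_lit 0x200400800a016400801001402c650)))
def t304 : k304.all (jb2 57 fl b0) = true := by decide +kernel
noncomputable def k305 : KT := (.br (Nat.shiftLeft (nat_lit 0x100280400500b) (nat_lit 65)) (.one (nat_lit 0x200500800a015400a01001402a650)) (.br (Nat.shiftLeft (nat_lit 0x1003) (nat_lit 101)) (.one (nat_lit 0x200500800a016400a01001402c650)) (.one (nat_lit 0x200600800a015400c01001402a650))))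
def t305 : k305.all (jb2 57 fl b0) = true := by decide +kernel
noncomputable def k306 : KT := (.br (Nat.shiftLeft (nat_lit 0x3) (nat_lit 112)) (.br (Nat.shiftLeft (nat_lit 0x2007) (nat_lit 100)) (.one (nat_lit 0x200600800a016400c01001402c650)) (.one (nat_lit 0x200700800a015400e01001402a650))) (.br (Nat.shiftLeft (nat_lit 0x180000400500b) (nat_lit 65)) (.one (nat_lit 0x300000800a015600001001402a411)) (.br (Nat.shiftLeft (nat_lit 0xc01) (nat_lit 102)) (.one (nat_lit 0x300000800a016600001001402c411)) (.one (nat_lit 0x300400800a015600801001402a650)))))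
def t306 : k306.all (jb2 57 fl b0) = true := by decide +kernel
noncomputable def k307 : KT := (.br (Nat.shiftLeft (nat_lit 0x3005) (nat_lit 100)) (.one (nat_lit 0x300400800a016600801001402c650)) (.one (nat_lit 0x300500800a015600a01001402a650)))
def t307 : k307.all (jb2 57 fl b0) = true := by decide +kernel
noncomputable def k308 : KT := (.br (Nat.shiftLeft (nat_lit 0x3007) (nat_lit 100)) (.br (Nat.shiftLeft (nat_lit 0x1803) (nat_lit 101)) (.one (nat_lit 0x300500800a016600a01001402c650)) (.br (Nat.shiftLeft (nat_lit 0x180300400500b) (nat_lit 65)) (.one (nat_lit 0x300600800a015600c01001402a650)) (.one (nat_lit 0x300600800a016600c01001402c650)))) (.br (Nat.shiftLeft (nat_lit 0x1) (nat_lit 114)) (.one (nat_lit 0x300700800a015600e01001402a650)) (.br (Nat.shiftLeft (nat_lit 0x200000400500b) (nat_lit 65)) (.one (nat_lit 0x400000800a015800001001402a411)) (.one (nat_lit 0x400000800a016800001001402c411)))))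
def t308 : k308.all (jb2 57 fl b0) = true := by decide +kernel
noncomputable def k309 : KT := (.br (Nat.shiftLeft (nat_lit 0x200280400500b) (nat_lit 65)) (.one (nat_lit 0x400500800a015800a01001402a650)) (.br (Nat.shiftLeft (nat_lit 0x2003) (nat_lit 101)) (.one (nat_lit 0x400500800a016800a01001402c650)) (.one (nat_lit 0x400600800a015800c01001402a650))))
def t309 : k309.all (jb2 57 fl b0) = true := by decide +kernel
noncomputable def k310 : KT := (.br (Nat.shiftLeft (nat_lit 0x280300400500b) (nat_lit 65)) (.br (Nat.shiftLeft (nat_lit 0x5) (nat_lit 112)) (.br (Nat.shiftLeft (nat_lit 0x4007) (nat_lit 100)) (.one (nat_lit 0x400600800a016800c01001402c650)) (.one (nat_lit 0x400700800a015800e01001402a650))) (.br (Nat.shiftLeft (nat_lit 0x280000400500b) (nat_lit 65)) (.one (nat_lit 0x500000800a015a00001001402a411)) (.br (Nat.shiftLeft (nat_lit 0x1401) (nat_lit 102)) (.one (nat_lit 0x500000800a016a00001001402c411)) (.one (nat_lit 0x500600800a015a00c01001402a650))))) (.br (Nat.shiftLeft (nat_lit 0x3) (nat_lit 113)) (.br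 (Nat.shiftLeft (nat_lit 0x5007) (nat_lit 100)) (.one (nat_lit 0x500600800a016a00c01001402c650)) (.one (nat_lit 0x500700800a015a00e01001402a650))) (.br (Nat.shiftLeft (nat_lit 0x300000400500b) (nat_lit 65)) (.one (nat_lit 0x600000800a015c00001001402a411)) (.br (Nat.shiftLeft (nat_lit 0x1801) (nat_lit 102)) (.one (nat_lit 0x600000800a016c00001001402c411)) (.one (nat_lit 0x600700800a015c00e01001402a650))))))
def t310 : k310.all (jb2 57 fl b0) = true := by decide +kernel
noncomputable def k311 : KT := (.br (Nat.shiftLeft (nat_lit 0x100000100400500b) (nat_lit 65)) (.br (Nat.shiftLeft (nat_lit 0x1000003) (nat_lit 100)) (.br (Nat.shiftLeft (nat_lit 0x480000400500b) (nat_lit 65)) (.br (Nat.shiftLeft (nat_lit 0x1) (nat_lit 115)) (.br (Nat.shiftLeft (nat_lit 0x380000400500b) (nat_lit 65)) (.one (nat_lit 0x700000800a015e00001001402a411)) (.one (nat_lit 0x700000800a016e00001001402c411))) (.br (Nat.shiftLeft (nat_lit 0x400000400500b) (nat_lit 65)) (.one (nat_lit 0x800000800a015000001001412c411)) (.br (Nat.shiftLeft (nat_lit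 0x9) (nat_lit 112)) (.one (nat_lit 0x800000800a016000001001412e411)) (.one (nat_lit 0x900000800a015200001001412c411))))) (.br (Nat.shiftLeft (nat_lit 0x500000400500b) (nat_lit 65)) (.br (Nat.shiftLeft (nat_lit 0x5) (nat_lit 113)) (.one (nat_lit 0x900000800a016200001001412e411)) (.one (nat_lit 0xa00000800a015400001001412c411))) (.br (Nat.shiftLeft (nat_lit 0x1) (nat_lit 124)) (.one (nat_lit 0xa00000800a016400001001412e411)) (.br (Nat.shiftLeft (nat_lit 0x80000100400500b) (nat_lit 65)) (.one (nat_lit 0x100000200800a015000401003442a511)) (.one (nat_lit 0x100000200800a016000401003442c511)))))) (.br (Nat.shiftLeft (nat_lit 0x80000280400500b) (nat_lit 65)) (.br (Nat.shiftLeft (nat_lit 0x400001) (nat_lit 102)) (.br (Nat.shiftLeft (nat_lit 0x80000180400500b) (nat_lit 65)) (.one (nat_lit 0x100000300800a015000601003442a511)) (.one (nat_lit 0x100000300800a016000601003442c511))) (.br (Nat.shiftLeft (nat_lit 0x80000200400500b) (nat_lit 65)) (.one (nat_lit 0x100000400800a015000801003442a511)) (.br (Nat.shiftLeft (nat_lit 0x1000005)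 (nat_lit 100)) (.one (nat_lit 0x100000400800a016000801003442c511)) (.one (nat_lit 0x100000500800a015000a01003442a511))))) (.br (Nat.shiftLeft (nat_lit 0x80000300400500b) (nat_lit 65)) (.br (Nat.shiftLeft (nat_lit 0x800003) (nat_lit 101)) (.one (nat_lit 0x100000500800a016000a01003442c511)) (.one (nat_lit 0x100000600800a015000c01003442a511))) (.br (Nat.shiftLeft (nat_lit 0x1000007) (nat_lit 100)) (.one (nat_lit 0x100000600800a016000c01003442c511)) (.br (Nat.shiftLeft (nat_lit 0x1) (nat_lit 125)) (.one (nat_lit 0x100000700800a015000e01003442a511)) (.one (nat_lit 0x200000200800a015000401005482a511))))))) (.br (Nat.shiftLeft (nat_lit 0x3) (nat_lit 124)) (.br (Nat.shiftLeft (nat_lit 0x2000005) (nat_lit 100)) (.br (Nat.shiftLeft (nat_lit 0x100000180400500b) (nat_lit 65)) (.br (Nat.shiftLeft (nat_lit 0x2000003) (nat_lit 100)) (.one (nat_lit 0x200000200800a016000401005482c511)) (.one (nat_lit 0x200000300800a015000601005482a511))) (.br (Nat.shiftLeft (nat_lit 0x800001) (nat_lit 102)) (.one (nat_lit 0x200000300800a016000601005482c511))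 (.br (Nat.shiftLeft (nat_lit 0x100000200400500b) (nat_lit 65)) (.one (nat_lit 0x200000400800a015000801005482a511)) (.one (nat_lit 0x200000400800a016000801005482c511))))) (.br (Nat.shiftLeft (nat_lit 0x1000003) (nat_lit 101)) (.br (Nat.shiftLeft (nat_lit 0x100000280400500b) (nat_lit 65)) (.one (nat_lit 0x200000500800a015000a01005482a511)) (.one (nat_lit 0x200000500800a016000a01005482c511))) (.br (Nat.shiftLeft (nat_lit 0x100000300400500b) (nat_lit 65)) (.one (nat_lit 0x200000600800a015000c01005482a511)) (.br (Nat.shiftLeft (nat_lit 0x2000007) (nat_lit 100)) (.one (nat_lit 0x200000600800a016000c01005482c511)) (.one (nat_lit 0x200000700800a015000e01005482a511)))))) (.br (Nat.shiftLeft (nat_lit 0x180000200400500b) (nat_lit 65)) (.br (Nat.shiftLeft (nat_lit 0x3000003) (nat_lit 100)) (.br (Nat.shiftLeft (nat_lit 0x180000100400500b) (nat_lit 65)) (.one (nat_lit 0x300000200800a0150004010074c2a511)) (.one (nat_lit 0x300000200800a0160004010074c2c511))) (.br (Nat.shiftLeft (nat_lit 0x180000180400500b) (nat_lit 65)) (.one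 (nat_lit 0x300000300800a0150006010074c2a511)) (.br (Nat.shiftLeft (nat_lit 0xc00001) (nat_lit 102)) (.one (nat_lit 0x300000300800a0160006010074c2c511)) (.one (nat_lit 0x300000400800a0150008010074c2a511))))) (.br (Nat.shiftLeft (nat_lit 0x180000280400500b) (nat_lit 65)) (.br (Nat.shiftLeft (nat_lit 0x3000005) (nat_lit 100)) (.one (nat_lit 0x300000400800a0160008010074c2c511)) (.one (nat_lit 0x300000500800a015000a010074c2a511))) (.br (Nat.shiftLeft (nat_lit 0x1800003) (nat_lit 101)) (.one (nat_lit 0x300000500800a016000a010074c2c511)) (.br (Nat.shiftLeft (nat_lit 0x180000300400500b) (nat_lit 65)) (.one (nat_lit 0x300000600800a015000c010074c2a511)) (.one (nat_lit 0x300000600800a016000c010074c2c511))))))))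
def t311 : k311.all (jb2 57 fl b0) = true := by decide +kernel
noncomputable def k312 : KT := (.br (Nat.shiftLeft (nat_lit 0x4000005) (nat_lit 100)) (.br (Nat.shiftLeft (nat_lit 0x4000003) (nat_lit 100)) (.br (Nat.shiftLeft (nat_lit 0x1) (nat_lit 126)) (.one (nat_lit 0x300000700800a015000e010074c2a511)) (.br (Nat.shiftLeft (nat_lit 0x200000100400500b) (nat_lit 65)) (.one (nat_lit 0x400000200800a015000401009502a511)) (.one (nat_lit 0x400000200800a016000401009502c511)))) (.br (Nat.shiftLeft (nat_lit 0x1000001) (nat_lit 102)) (.br (Nat.shiftLeft (nat_lit 0x200000180400500b) (nat_lit 65)) (.one (nat_lit 0x400000300800a015000601009502a511)) (.one (nat_lit 0x400000300800a016000601009502c511))) (.br (Nat.shiftLeft (nat_lit 0x200000200400500b) (nat_lit 65)) (.one (nat_lit 0x400000400800a015000801009502a511)) (.one (nat_lit 0x400000400800a016000801009502c511))))) (.br (Nat.shiftLeft (nat_lit 0x4000007) (nat_lit 100)) (.br (Nat.shiftLeft (nat_lit 0x2000003) (nat_lit 101)) (.br (Nat.shiftLeft (nat_lit 0x200000280400500b)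 (nat_lit 65)) (.one (nat_lit 0x400000500800a015000a01009502a511)) (.one (nat_lit 0x400000500800a016000a01009502c511))) (.br (Nat.shiftLeft (nat_lit 0x200000300400500b) (nat_lit 65)) (.one (nat_lit 0x400000600800a015000c01009502a511)) (.one (nat_lit 0x400000600800a016000c01009502c511)))) (.br (Nat.shiftLeft (nat_lit 0x280000100400500b) (nat_lit 65)) (.br (Nat.shiftLeft (nat_lit 0x5) (nat_lit 124)) (.one (nat_lit 0x400000700800a015000e01009502a511)) (.one (nat_lit 0x500000200800a01500040100b542a511))) (.br (Nat.shiftLeft (nat_lit 0x5000003) (nat_lit 100)) (.one (nat_lit 0x500000200800a01600040100b542c511)) (.one (nat_lit 0x500000300800a01500060100b542a511))))))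
def t312 : k312.all (jb2 57 fl b0) = true := by decide +kernel
noncomputable def k313 : KT := (.br (Nat.shiftLeft (nat_lit 0x2800003) (nat_lit 101)) (.br (Nat.shiftLeft (nat_lit 0x280000200400500b) (nat_lit 65)) (.br (Nat.shiftLeft (nat_lit 0x1400001) (nat_lit 102)) (.one (nat_lit 0x500000300800a01600060100b542c511)) (.one (nat_lit 0x500000400800a01500080100b542a511))) (.br (Nat.shiftLeft (nat_lit 0x5000005) (nat_lit 100)) (.one (nat_lit 0x500000400800a01600080100b542c511)) (.br (Nat.shiftLeft (nat_lit 0x280000280400500b) (nat_lit 65)) (.one (nat_lit 0x500000500800a015000a0100b542a511)) (.one (nat_lit 0x500000500800a016000a0100b542c511))))) (.br (Nat.shiftLeft (nat_lit 0x3) (nat_lit 125)) (.br (Nat.shiftLeft (nat_lit 0x280000300400500b) (nat_lit 65)) (.one (nat_lit 0x500000600800a015000c0100b542a511)) (.br (Nat.shiftLeft (nat_lit 0x5000007) (nat_lit 100)) (.one (nat_lit 0x500000600800a016000c0100b542c511)) (.one (nat_lit 0x500000700800a015000e0100b542a511)))) (.br (Nat.shiftLeft (nat_lit 0x300000100400500b) (nat_lit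 65)) (.one (nat_lit 0x600000200800a01500040100d582a511)) (.br (Nat.shiftLeft (nat_lit 0x6000003) (nat_lit 100)) (.one (nat_lit 0x600000200800a01600040100d582c511)) (.one (nat_lit 0x600000300800a01500060100d582a511))))))
def t313 : k313.all (jb2 57 fl b0) = true := by decide +kernel
noncomputable def k314 : KT := (.br (Nat.shiftLeft (nat_lit 0x300000300400500b) (nat_lit 65)) (.br (Nat.shiftLeft (nat_lit 0x6000005) (nat_lit 100)) (.br (Nat.shiftLeft (nat_lit 0x1800001) (nat_lit 102)) (.one (nat_lit 0x600000300800a01600060100d582c511)) (.br (Nat.shiftLeft (nat_lit 0x300000200400500b) (nat_lit 65)) (.one (nat_lit 0x600000400800a01500080100d582a511)) (.one (nat_lit 0x600000400800a01600080100d582c511)))) (.br (Nat.shiftLeft (nat_lit 0x300000280400500b) (nat_lit 65)) (.one (nat_lit 0x600000500800a015000a0100d582a511)) (.br (Nat.shiftLeft (nat_lit 0x3000003) (nat_lit 101)) (.one (nat_lit 0x600000500800a016000a0100d582c511)) (.one (nat_lit 0x600000600800a015000c0100d582a511))))) (.br (Nat.shiftLeft (nat_lit 0x380000100400500b)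 (nat_lit 65)) (.br (Nat.shiftLeft (nat_lit 0x6000007) (nat_lit 100)) (.one (nat_lit 0x600000600800a016000c0100d582c511)) (.br (Nat.shiftLeft (nat_lit 0x7) (nat_lit 124)) (.one (nat_lit 0x600000700800a015000e0100d582a511)) (.one (nat_lit 0x700000200800a01500040100f5c2a511)))) (.br (Nat.shiftLeft (nat_lit 0x7000003) (nat_lit 100)) (.one (nat_lit 0x700000200800a01600040100f5c2c511)) (.br (Nat.shiftLeft (nat_lit 0x380000180400500b) (nat_lit 65)) (.one (nat_lit 0x700000300800a01500060100f5c2a511)) (.one (nat_lit 0x700000300800a01600060100f5c2c511))))))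
def t314 : k314.all (jb2 57 fl b0) = true := by decide +kernel
noncomputable def k315 : KT := (.br (Nat.shiftLeft (nat_lit 0x8000003) (nat_lit 100)) (.br (Nat.shiftLeft (nat_lit 0x3800003) (nat_lit 101)) (.br (Nat.shiftLeft (nat_lit 0x7000005) (nat_lit 100)) (.br (Nat.shiftLeft (nat_lit 0x380000200400500b) (nat_lit 65)) (.one (nat_lit 0x700000400800a01500080100f5c2a511)) (.one (nat_lit 0x700000400800a01600080100f5c2c511))) (.br (Nat.shiftLeft (nat_lit 0x380000280400500b) (nat_lit 65)) (.one (nat_lit 0x700000500800a015000a0100f5c2a511)) (.one (nat_lit 0x700000500800a016000a0100f5c2c511)))) (.br (Nat.shiftLeft (nat_lit 0x7000007) (nat_lit 100)) (.br (Nat.shiftLeft (nat_lit 0x380000300400500b) (nat_lit 65)) (.one (nat_lit 0x700000600800a015000c0100f5c2a511)) (.one (nat_lit 0x700000600800a016000c0100f5c2c511))) (.br (Nat.shiftLeft (nat_lit 0x1) (nat_lit 127)) (.one (nat_lit 0x700000700800a015000e0100f5c2a511)) (.br (Nat.shiftLeft (nat_lit 0x400000100400500b) (nat_lit 65)) (.one (nat_lit 0x800000200800a015000401011602a511))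 (.one (nat_lit 0x800000200800a016000401011602c511)))))) (.br (Nat.shiftLeft (nat_lit 0x400000280400500b) (nat_lit 65)) (.br (Nat.shiftLeft (nat_lit 0x2000001) (nat_lit 102)) (.br (Nat.shiftLeft (nat_lit 0x400000180400500b) (nat_lit 65)) (.one (nat_lit 0x800000300800a015000601011602a511)) (.one (nat_lit 0x800000300800a016000601011602c511))) (.br (Nat.shiftLeft (nat_lit 0x400000200400500b) (nat_lit 65)) (.one (nat_lit 0x800000400800a015000801011602a511)) (.br (Nat.shiftLeft (nat_lit 0x8000005) (nat_lit 100)) (.one (nat_lit 0x800000400800a016000801011602c511)) (.one (nat_lit 0x800000500800a015000a01011602a511))))) (.br (Nat.shiftLeft (nat_lit 0x400000300400500b) (nat_lit 65)) (.br (Nat.shiftLeft (nat_lit 0x4000003) (nat_lit 101)) (.one (nat_lit 0x800000500800a016000a01011602c511)) (.one (nat_lit 0x800000600800a015000c01011602a511))) (.br (Nat.shiftLeft (nat_lit 0x8000007) (nat_lit 100)) (.one (nat_lit 0x800000600800a016000c01011602c511)) (.br (Nat.shiftLeft (nat_lit 0x9) (nat_lit 124)) (.one (nat_lit 0x800000700800a015000e01011602a511))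 (.one (nat_lit 0x900000200800a015000401013642a511)))))))
def t315 : k315.all (jb2 57 fl b0) = true := by decide +kernel
noncomputable def k316 : KT := (.br (Nat.shiftLeft (nat_lit 0x5) (nat_lit 125)) (.br (Nat.shiftLeft (nat_lit 0x9000005) (nat_lit 100)) (.br (Nat.shiftLeft (nat_lit 0x480000180400500b) (nat_lit 65)) (.br (Nat.shiftLeft (nat_lit 0x9000003) (nat_lit 100)) (.one (nat_lit 0x900000200800a016000401013642c511)) (.one (nat_lit 0x900000300800a015000601013642a511))) (.br (Nat.shiftLeft (nat_lit 0x2400001) (nat_lit 102)) (.one (nat_lit 0x900000300800a016000601013642c511)) (.br (Nat.shiftLeft (nat_lit 0x480000200400500b) (nat_lit 65)) (.one (nat_lit 0x900000400800a015000801013642a511)) (.one (nat_lit 0x900000400800a016000801013642c511))))) (.br (Nat.shiftLeft (nat_lit 0x4800003) (nat_lit 101)) (.br (Nat.shiftLeft (nat_lit 0x480000280400500b) (nat_lit 65)) (.one (nat_lit 0x900000500800a015000a01013642a511)) (.one (nat_lit 0x900000500800a016000a01013642c511))) (.br (Nat.shiftLeft (nat_lit 0x480000300400500b)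 (nat_lit 65)) (.one (nat_lit 0x900000600800a015000c01013642a511)) (.br (Nat.shiftLeft (nat_lit 0x9000007) (nat_lit 100)) (.one (nat_lit 0x900000600800a016000c01013642c511)) (.one (nat_lit 0x900000700800a015000e01013642a511)))))) (.br (Nat.shiftLeft (nat_lit 0x500000200400500b) (nat_lit 65)) (.br (Nat.shiftLeft (nat_lit 0xa000003) (nat_lit 100)) (.br (Nat.shiftLeft (nat_lit 0x500000100400500b) (nat_lit 65)) (.one (nat_lit 0xa00000200800a015000401015682a511)) (.one (nat_lit 0xa00000200800a016000401015682c511))) (.br (Nat.shiftLeft (nat_lit 0x500000180400500b) (nat_lit 65)) (.one (nat_lit 0xa00000300800a015000601015682a511)) (.br (Nat.shiftLeft (nat_lit 0x2800001) (nat_lit 102)) (.one (nat_lit 0xa00000300800a016000601015682c511)) (.one (nat_lit 0xa00000400800a015000801015682a511))))) (.br (Nat.shiftLeft (nat_lit 0x5000003) (nat_lit 101)) (.br (Nat.shiftLeft (nat_lit 0xa000005) (nat_lit 100)) (.one (nat_lit 0xa00000400800a016000801015682c511)) (.br (Nat.shiftLeft (nat_lit 0x500000280400500b) (nat_lit 65)) (.one (nat_lit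 0xa00000500800a015000a01015682a511)) (.one (nat_lit 0xa00000500800a016000a01015682c511)))) (.br (Nat.shiftLeft (nat_lit 0x500000300400500b) (nat_lit 65)) (.one (nat_lit 0xa00000600800a015000c01015682a511)) (.br (Nat.shiftLeft (nat_lit 0xa000007) (nat_lit 100)) (.one (nat_lit 0xa00000600800a016000c01015682c511)) (.one (nat_lit 0xa00000700800a015000e01015682a511)))))))
def t316 : k316.all (jb2 57 fl b0) = true := by decide +kernel
noncomputable def s14 : KT := (.br (nat_lit 0x200400800a016400801001402c650) (.br (nat_lit 0x100200800a016200401001402c650) (.br (nat_lit 0x700800a015000e01001402b500) (.br (nat_lit 0x100800a015000201001402a540) k294 k295) (.br (nat_lit 0x100000800a016200001001402c411) k296 (.br (nat_lit 0x100200800a015200401001402a650) k297 k298))) (.br (nat_lit 0x100600800a016200c01001402c650) (.br (nat_lit 0x100300800a016200601001402c650) k299 (.br (nat_lit 0x100400800a016200801001402c650) k300 k301)) (.br (nat_lit 0x200300800a015400601001402a650) k302 (.br (nat_lit 0x200300800a016400601001402c650)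 k303 k304)))) (.br (nat_lit 0x600700800a015c00e01001402a650) (.br (nat_lit 0x300500800a015600a01001402a650) (.br (nat_lit 0x200600800a015400c01001402a650) k305 (.br (nat_lit 0x300400800a015600801001402a650) k306 k307)) (.br (nat_lit 0x400000800a016800001001402c411) k308 (.br (nat_lit 0x400600800a015800c01001402a650) k309 k310))) (.br (nat_lit 0x600000300800a01500060100d582a511) (.br (nat_lit 0x300000600800a016000c010074c2c511) k311 (.br (nat_lit 0x500000300800a01500060100b542a511) k312 k313)) (.br (nat_lit 0x700000300800a01600060100f5c2c511) k314 (.br (nat_lit 0x900000200800a015000401013642a511) k315 k316)))))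
noncomputable def u14 : KT := (.br (Nat.shiftLeft (nat_lit 0x400500b) (nat_lit 65)) (.one (nat_lit 0x800a015000001001402a430)) (.one (nat_lit 0x800a016000001001402c430)))
def w14 : u14.all (wj 57 s14) = true := by decide +kernel
def o14 : OkW 57 (jb2 57 fl) u14 := .lift s14 _ (.br _ _ _ (.br _ _ _ (.br _ _ _ (.br _ _ _ (.leaf b0 k294 t294) (.leaf b0 k295 t295)) (.br _ _ _ (.leaf b0 k296 t296) (.br _ _ _ (.leaf b0 k297 t297) (.leaf b0 k298 t298)))) (.br _ _ _ (.br _ _ _ (.leaf b0 k299 t299) (.br _ _ _ (.leaf b0 k300 t300) (.leaf b0 k301 t301))) (.br _ _ _ (.leaf b0 k302 t302) (.br _ _ _ (.leaf b0 k303 t303) (.leaf b0 k304 t304))))) (.br _ _ _ (.br _ _ _ (.br _ _ _ (.leaf b0 k305 t305) (.br _ _ _ (.leaf b0 k306 t306) (.leaf b0 k307 t307))) (.br _ _ _ (.leaf b0 k308 t308) (.br _ _ _ (.leaf b0 k309 t309) (.leaf b0 k310 t310)))) (.br _ _ _ (.br _ _ _ (.leaf b0 k311 t311) (.br _ _ _ (.leaf b0 k312 t312) (.leaf b0 k313 t313))) (.br _ _ _ (.leaf b0 k314 t314) (.br _ _ _ (.leaf b0 k315 t315) (.leaf b0 k316 t316))))))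 w14
noncomputable def k317 : KT := (.br (Nat.shiftLeft (nat_lit 0x800b00f) (nat_lit 64)) (.br (Nat.shiftLeft (nat_lit 0x800a019) (nat_lit 64)) (.br (Nat.shiftLeft (nat_lit 0x1001403) (nat_lit 67)) (.one (nat_lit 0x800a017000001001402f400)) (.one (nat_lit 0x800a0180000010014031400))) (.br (Nat.shiftLeft (nat_lit 0x800b) (nat_lit 76)) (.one (nat_lit 0x800a0190000010014033400)) (.br (Nat.shiftLeft (nat_lit 0x4005807) (nat_lit 65)) (.one (nat_lit 0x800b00d000001001601b400)) (.one (nat_lit 0x800b00e000001001601d400))))) (.br (Nat.shiftLeft (nat_lit 0x4005809) (nat_lit 65)) (.br (Nat.shiftLeft (nat_lit 0x800b01) (nat_lit 68)) (.one (nat_lit 0x800b00f000001001601f400)) (.br (Nat.shiftLeft (nat_lit 0x800b011) (nat_lit 64)) (.one (nat_lit 0x800b0100000010016021400)) (.one (nat_lit 0x800b0110000010016023400)))) (.br (Nat.shiftLeft (nat_lit 0x1) (nat_lit 100)) (.one (nat_lit 0x800b0120000010016025400)) (.br (Nat.shiftLeft (nat_lit 0x201001403) (nat_lit 67)) (.one (nat_lit 0x100800a017000201001402e540)) (.one (nat_lit 0x100800a0180002010014030540))))))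
def t317 : k317.all (jb2 57 fl b0) = true := by decide +kernel
noncomputable def k318 : KT := (.one (nat_lit 0x100800a0190002010014032540))
def t318 : k318.all (jb2 57 fl b0) = true := by decide +kernel
noncomputable def k319 : KT := (.one (nat_lit 0x200800a017000401001402e540))
def t319 : k319.all (jb2 57 fl b0) = true := by decide +kernel
noncomputable def k320 : KT := (.one (nat_lit 0x200800a0180004010014030540))
def t320 : k320.all (jb2 57 fl b0) = true := by decide +kernel
noncomputable def k321 : KT := (.br (Nat.shiftLeft (nat_lit 0x3) (nat_lit 100)) (.one (nat_lit 0x200800a0190004010014032540)) (.one (nat_lit 0x300800a017000601001402f500)))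
def t321 : k321.all (jb2 57 fl b0) = true := by decide +kernel
noncomputable def k322 : KT := (.one (nat_lit 0x300800a0180006010014030540))
def t322 : k322.all (jb2 57 fl b0) = true := by decide +kernel
noncomputable def k323 : KT := (.br (Nat.shiftLeft (nat_lit 0x1) (nat_lit 102)) (.one (nat_lit 0x300800a0190006010014032540)) (.one (nat_lit 0x400800a017000801001402f500)))
def t323 : k323.all (jb2 57 fl b0) = true := by decide +kernel
noncomputable def k324 : KT := (.one (nat_lit 0x400800a0180008010014030540))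
def t324 : k324.all (jb2 57 fl b0) = true := by decide +kernel
noncomputable def k325 : KT := (.one (nat_lit 0x400800a0190008010014032540))
def t325 : k325.all (jb2 57 fl b0) = true := by decide +kernel
noncomputable def k326 : KT := (.one (nat_lit 0x500800a017000a01001402e540))
def t326 : k326.all (jb2 57 fl b0) = true := by decide +kernel
noncomputable def k327 : KT := (.one (nat_lit 0x500800a018000a010014030540))
def t327 : k327.all (jb2 57 fl b0) = true := by decide +kernel
noncomputable def k328 : KT := (.one (nat_lit 0x500800a019000a010014032540))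
def t328 : k328.all (jb2 57 fl b0) = true := by decide +kernel
noncomputable def k329 : KT := (.one (nat_lit 0x600800a017000c01001402e540))
def t329 : k329.all (jb2 57 fl b0) = true := by decide +kernel
noncomputable def k330 : KT := (.br (Nat.shiftLeft (nat_lit 0x600800a019) (nat_lit 64)) (.one (nat_lit 0x600800a018000c010014030540)) (.one (nat_lit 0x600800a019000c010014032540)))
def t330 : k330.all (jb2 57 fl b0) = true := by decide +kernel
noncomputable def k331 : KT := (.br (Nat.shiftLeft (nat_lit 0xe01001403) (nat_lit 67)) (.one (nat_lit 0x700800a017000e01001402e540)) (.one (nat_lit 0x700800a018000e010014030540)))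
def t331 : k331.all (jb2 57 fl b0) = true := by decide +kernel
noncomputable def k332 : KT := (.br (Nat.shiftLeft (nat_lit 0x801) (nat_lit 101)) (.br (Nat.shiftLeft (nat_lit 0x200001001403) (nat_lit 67)) (.br (Nat.shiftLeft (nat_lit 0x1) (nat_lit 112)) (.one (nat_lit 0x700800a019000e010014032540)) (.one (nat_lit 0x100000800a017200001001402e411))) (.br (Nat.shiftLeft (nat_lit 0x100000800a019) (nat_lit 64)) (.one (nat_lit 0x100000800a0182000010014030411)) (.one (nat_lit 0x100000800a0192000010014032411)))) (.br (Nat.shiftLeft (nat_lit 0x1) (nat_lit 113)) (.br (Nat.shiftLeft (nat_lit 0x401) (nat_lit 102)) (.one (nat_lit 0x100300800a017200601001402e650)) (.one (nat_lit 0x100400800a017200801001402e650))) (.br (Nat.shiftLeft (nat_lit 0x400001001403) (nat_lit 67)) (.one (nat_lit 0x200000800a017400001001402e411)) (.br (Nat.shiftLeft (nat_lit 0x200000800a019) (nat_lit 64)) (.one (nat_lit 0x200000800a0184000010014030411)) (.one (nat_lit 0x200000800a0194000010014032411))))))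
def t332 : k332.all (jb2 57 fl b0) = true := by decide +kernel
noncomputable def k333 : KT := (.br (Nat.shiftLeft (nat_lit 0x300000800a019) (nat_lit 64)) (.br (Nat.shiftLeft (nat_lit 0x3) (nat_lit 112)) (.br (Nat.shiftLeft (nat_lit 0x801) (nat_lit 102)) (.one (nat_lit 0x200300800a017400601001402e650)) (.one (nat_lit 0x200400800a017400801001402e650))) (.br (Nat.shiftLeft (nat_lit 0x600001001403) (nat_lit 67)) (.one (nat_lit 0x300000800a017600001001402e411)) (.one (nat_lit 0x300000800a0186000010014030411)))) (.br (Nat.shiftLeft (nat_lit 0x1) (nat_lit 114)) (.br (Nat.shiftLeft (nat_lit 0xc01) (nat_lit 102)) (.one (nat_lit 0x300000800a0196000010014032411)) (.one (nat_lit 0x300400800a017600801001402e650))) (.br (Nat.shiftLeft (nat_lit 0x800001001403) (nat_lit 67)) (.one (nat_lit 0x400000800a017800001001402e411)) (.one (nat_lit 0x400000800a0188000010014030411)))))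
def t333 : k333.all (jb2 57 fl b0) = true := by decide +kernel
noncomputable def k334 : KT := (.br (Nat.shiftLeft (nat_lit 0x1200001001403) (nat_lit 67)) (.br (Nat.shiftLeft (nat_lit 0x7) (nat_lit 112)) (.br (Nat.shiftLeft (nat_lit 0x500000800a019) (nat_lit 64)) (.br (Nat.shiftLeft (nat_lit 0x5) (nat_lit 112)) (.one (nat_lit 0x400000800a0198000010014032411)) (.br (Nat.shiftLeft (nat_lit 0xa00001001403) (nat_lit 67)) (.one (nat_lit 0x500000800a017a00001001402e411)) (.one (nat_lit 0x500000800a018a000010014030411)))) (.br (Nat.shiftLeft (nat_lit 0xc00001001403) (nat_lit 67)) (.br (Nat.shiftLeft (nat_lit 0x3) (nat_lit 113)) (.one (nat_lit 0x500000800a019a000010014032411)) (.one (nat_lit 0x600000800a017c00001001402e411))) (.br (Nat.shiftLeft (nat_lit 0x600000800a019) (nat_lit 64)) (.one (nat_lit 0x600000800a018c000010014030411)) (.one (nat_lit 0x600000800a019c000010014032411))))) (.br (Nat.shiftLeft (nat_lit 0x1) (nat_lit 115)) (.br (Nat.shiftLeft (nat_lit 0xe00001001403) (nat_lit 67)) (.one (nat_lit 0x700000800a017e00001001402e411))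 (.br (Nat.shiftLeft (nat_lit 0x700000800a019) (nat_lit 64)) (.one (nat_lit 0x700000800a018e000010014030411)) (.one (nat_lit 0x700000800a019e000010014032411)))) (.br (Nat.shiftLeft (nat_lit 0x800000800a019) (nat_lit 64)) (.br (Nat.shiftLeft (nat_lit 0x1000001001403) (nat_lit 67)) (.one (nat_lit 0x800000800a0170000010014130411)) (.one (nat_lit 0x800000800a0180000010014132411))) (.br (Nat.shiftLeft (nat_lit 0x9) (nat_lit 112)) (.one (nat_lit 0x800000800a0190000010014134411)) (.one (nat_lit 0x900000800a0172000010014130411)))))) (.br (Nat.shiftLeft (nat_lit 0x1) (nat_lit 125)) (.br (Nat.shiftLeft (nat_lit 0x1400001001403) (nat_lit 67)) (.br (Nat.shiftLeft (nat_lit 0x900000800a019) (nat_lit 64)) (.one (nat_lit 0x900000800a0182000010014132411)) (.br (Nat.shiftLeft (nat_lit 0x5) (nat_lit 113)) (.one (nat_lit 0x900000800a0192000010014134411)) (.one (nat_lit 0xa00000800a0174000010014130411)))) (.br (Nat.shiftLeft (nat_lit 0x1) (nat_lit 124)) (.br (Nat.shiftLeft (nat_lit 0xa00000800a019) (nat_lit 64)) (.one (nat_lit 0xa00000800a0184000010014132411))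 (.one (nat_lit 0xa00000800a0194000010014134411))) (.br (Nat.shiftLeft (nat_lit 0x400001) (nat_lit 102)) (.one (nat_lit 0x100000300800a017000601003442e511)) (.one (nat_lit 0x100000400800a017000801003442e511))))) (.br (Nat.shiftLeft (nat_lit 0x1) (nat_lit 126)) (.br (Nat.shiftLeft (nat_lit 0x3) (nat_lit 124)) (.br (Nat.shiftLeft (nat_lit 0x800001) (nat_lit 102)) (.one (nat_lit 0x200000300800a017000601005482e511)) (.one (nat_lit 0x200000400800a017000801005482e511))) (.br (Nat.shiftLeft (nat_lit 0xc00001) (nat_lit 102)) (.one (nat_lit 0x300000300800a0170006010074c2e511)) (.one (nat_lit 0x300000400800a0170008010074c2e511)))) (.br (Nat.shiftLeft (nat_lit 0x5) (nat_lit 124)) (.br (Nat.shiftLeft (nat_lit 0x1000001) (nat_lit 102)) (.one (nat_lit 0x400000300800a017000601009502e511)) (.one (nat_lit 0x400000400800a017000801009502e511))) (.br (Nat.shiftLeft (nat_lit 0x1400001) (nat_lit 102)) (.one (nat_lit 0x500000300800a01700060100b542e511)) (.one (nat_lit 0x500000400800a01700080100b542e511)))))))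
def t334 : k334.all (jb2 57 fl b0) = true := by decide +kernel
noncomputable def k335 : KT := (.br (Nat.shiftLeft (nat_lit 0x2000001) (nat_lit 102)) (.br (Nat.shiftLeft (nat_lit 0x7) (nat_lit 124)) (.br (Nat.shiftLeft (nat_lit 0x1800001) (nat_lit 102)) (.one (nat_lit 0x600000300800a01700060100d582e511)) (.one (nat_lit 0x600000400800a01700080100d582e511))) (.br (Nat.shiftLeft (nat_lit 0x1c00001) (nat_lit 102)) (.one (nat_lit 0x700000300800a01700060100f5c2e511)) (.br (Nat.shiftLeft (nat_lit 0x1) (nat_lit 127)) (.one (nat_lit 0x700000400800a01700080100f5c2e511)) (.one (nat_lit 0x800000300800a017000601011602e511))))) (.br (Nat.shiftLeft (nat_lit 0x2400001) (nat_lit 102)) (.br (Nat.shiftLeft (nat_lit 0x9) (nat_lit 124)) (.one (nat_lit 0x800000400800a017000801011602e511)) (.one (nat_lit 0x900000300800a017000601013642e511))) (.br (Nat.shiftLeft (nat_lit 0x5) (nat_lit 125)) (.one (nat_lit 0x900000400800a017000801013642e511)) (.br (Nat.shiftLeft (nat_lit 0x2800001) (nat_lit 102)) (.one (nat_lit 0xa00000300800a017000601015682e511))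 (.one (nat_lit 0xa00000400800a017000801015682e511))))))
def t335 : k335.all (jb2 57 fl b0) = true := by decide +kernel
noncomputable def s15 : KT := (.br (nat_lit 0x400800a0190008010014032540) (.br (nat_lit 0x200800a0180004010014030540) (.br (nat_lit 0x100800a0190002010014032540) (.br (nat_lit 0x100800a0180002010014030540) k317 k318) (.br (nat_lit 0x200800a017000401001402e540) k319 k320)) (.br (nat_lit 0x300800a0180006010014030540) (.br (nat_lit 0x300800a017000601001402f500) k321 k322) (.br (nat_lit 0x400800a017000801001402f500) k323 (.br (nat_lit 0x400800a0180008010014030540) k324 k325)))) (.br (nat_lit 0x600800a019000c010014032540) (.br (nat_lit 0x500800a018000a010014030540) (.br (nat_lit 0x500800a017000a01001402e540) k326 k327) (.br (nat_lit 0x500800a019000a010014032540) k328 (.br (nat_lit 0x600800a017000c01001402e540) k329 k330))) (.br (nat_lit 0x200000800a0194000010014032411) (.br (nat_lit 0x700800a018000e010014030540) k331 k332) (.br (nat_lit 0x400000800a0188000010014030411) k333 (.br (nat_lit 0x500000400800a01700080100b542e511)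 k334 k335)))))
noncomputable def u15 : KT := (.br (Nat.shiftLeft (nat_lit 0x4005807) (nat_lit 65)) (.br (Nat.shiftLeft (nat_lit 0x800a019) (nat_lit 64)) (.br (Nat.shiftLeft (nat_lit 0x1001403) (nat_lit 67)) (.one (nat_lit 0x800a017000001001402e430)) (.one (nat_lit 0x800a0180000010014030430))) (.br (Nat.shiftLeft (nat_lit 0x800b) (nat_lit 76)) (.one (nat_lit 0x800a0190000010014032430)) (.one (nat_lit 0x800b00d000001001601b400)))) (.br (Nat.shiftLeft (nat_lit 0x800b01) (nat_lit 68)) (.br (Nat.shiftLeft (nat_lit 0x800b00f) (nat_lit 64)) (.one (nat_lit 0x800b00e000001001601d400)) (.one (nat_lit 0x800b00f000001001601f400))) (.br (Nat.shiftLeft (nat_lit 0x800b011) (nat_lit 64)) (.one (nat_lit 0x800b0100000010016021400)) (.br (Nat.shiftLeft (nat_lit 0x4005809) (nat_lit 65)) (.one (nat_lit 0x800b0110000010016023400)) (.one (nat_lit 0x800b0120000010016025400))))))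
def w15 : u15.all (wj 57 s15) = true := by decide +kernel
def o15 : OkW 57 (jb2 57 fl) u15 := .lift s15 _ (.br _ _ _ (.br _ _ _ (.br _ _ _ (.br _ _ _ (.leaf b0 k317 t317) (.leaf b0 k318 t318)) (.br _ _ _ (.leaf b0 k319 t319) (.leaf b0 k320 t320))) (.br _ _ _ (.br _ _ _ (.leaf b0 k321 t321) (.leaf b0 k322 t322)) (.br _ _ _ (.leaf b0 k323 t323) (.br _ _ _ (.leaf b0 k324 t324) (.leaf b0 k325 t325))))) (.br _ _ _ (.br _ _ _ (.br _ _ _ (.leaf b0 k326 t326) (.leaf b0 k327 t327)) (.br _ _ _ (.leaf b0 k328 t328) (.br _ _ _ (.leaf b0 k329 t329) (.leaf b0 k330 t330)))) (.br _ _ _ (.br _ _ _ (.leaf b0 k331 t331) (.leaf b0 k332 t332)) (.br _ _ _ (.leaf b0 k333 t333) (.br _ _ _ (.leaf b0 k334 t334) (.leaf b0 k335 t335)))))) w15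
noncomputable def k336 : KT := (.br (Nat.shiftLeft (nat_lit 0x5) (nat_lit 100)) (.br (Nat.shiftLeft (nat_lit 0x1) (nat_lit 101)) (.br (Nat.shiftLeft (nat_lit 0x1) (nat_lit 100)) (.one (nat_lit 0x800b0130000010016027400)) (.one (nat_lit 0x100800b0130002010016026540))) (.br (Nat.shiftLeft (nat_lit 0x3) (nat_lit 100)) (.one (nat_lit 0x200800b0130004010016027500)) (.br (Nat.shiftLeft (nat_lit 0x1) (nat_lit 102)) (.one (nat_lit 0x300800b0130006010016027500)) (.one (nat_lit 0x400800b0130008010016027500))))) (.br (Nat.shiftLeft (nat_lit 0x7) (nat_lit 100)) (.br (Nat.shiftLeft (nat_lit 0x3) (nat_lit 101)) (.one (nat_lit 0x500800b013000a010016027500)) (.one (nat_lit 0x600800b013000c010016027500))) (.br (Nat.shiftLeft (nat_lit 0x1) (nat_lit 112)) (.one (nat_lit 0x700800b013000e010016027500)) (.br (Nat.shiftLeft (nat_lit 0x801) (nat_lit 101)) (.one (nat_lit 0x100000800b0132000010016026411)) (.one (nat_lit 0x100200800b0132004010016027600))))))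
def t336 : k336.all (jb2 57 fl b0) = true := by decide +kernel
noncomputable def k337 : KT := (.one (nat_lit 0x100300800b0132006010016026650))
def t337 : k337.all (jb2 57 fl b0) = true := by decide +kernel
noncomputable def k338 : KT := (.one (nat_lit 0x100400800b0132008010016026650))
def t338 : k338.all (jb2 57 fl b0) = true := by decide +kernel
noncomputable def k339 : KT := (.br (Nat.shiftLeft (nat_lit 0x1007) (nat_lit 100)) (.br (Nat.shiftLeft (nat_lit 0x803) (nat_lit 101)) (.one (nat_lit 0x100500800b013200a010016026650)) (.one (nat_lit 0x100600800b013200c010016026650))) (.br (Nat.shiftLeft (nat_lit 0x1) (nat_lit 113)) (.one (nat_lit 0x100700800b013200e010016026650)) (.br (Nat.shiftLeft (nat_lit 0x1001) (nat_lit 101)) (.one (nat_lit 0x200000800b0134000010016026411)) (.one (nat_lit 0x200300800b0134006010016027600)))))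
def t339 : k339.all (jb2 57 fl b0) = true := by decide +kernel
noncomputable def k340 : KT := (.one (nat_lit 0x200400800b0134008010016026650))
def t340 : k340.all (jb2 57 fl b0) = true := by decide +kernel
noncomputable def k341 : KT := (.br (Nat.shiftLeft (nat_lit 0x1003) (nat_lit 101)) (.one (nat_lit 0x200500800b013400a010016026650)) (.one (nat_lit 0x200600800b013400c010016026650)))
def t341 : k341.all (jb2 57 fl b0) = true := by decide +kernel
noncomputable def k342 : KT := (.br (Nat.shiftLeft (nat_lit 0x3) (nat_lit 112)) (.one (nat_lit 0x200700800b013400e010016026650)) (.one (nat_lit 0x300000800b0136000010016026411)))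
def t342 : k342.all (jb2 57 fl b0) = true := by decide +kernel
noncomputable def k343 : KT := (.one (nat_lit 0x300400800b0136008010016026650))
def t343 : k343.all (jb2 57 fl b0) = true := by decide +kernel
noncomputable def k344 : KT := (.br (Nat.shiftLeft (nat_lit 0x1803) (nat_lit 101)) (.one (nat_lit 0x300500800b013600a010016026650)) (.one (nat_lit 0x300600800b013600c010016026650)))
def t344 : k344.all (jb2 57 fl b0) = true := by decide +kernel
noncomputable def k345 : KT := (.br (Nat.shiftLeft (nat_lit 0x1) (nat_lit 114)) (.one (nat_lit 0x300700800b013600e010016026650)) (.br (Nat.shiftLeft (nat_lit 0x1001) (nat_lit 102)) (.one (nat_lit 0x400000800b0138000010016026411)) (.one (nat_lit 0x400500800b013800a010016026650))))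
def t345 : k345.all (jb2 57 fl b0) = true := by decide +kernel
noncomputable def k346 : KT := (.br (Nat.shiftLeft (nat_lit 0x5) (nat_lit 112)) (.br (Nat.shiftLeft (nat_lit 0x4007) (nat_lit 100)) (.one (nat_lit 0x400600800b013800c010016026650)) (.one (nat_lit 0x400700800b013800e010016026650))) (.br (Nat.shiftLeft (nat_lit 0x1401) (nat_lit 102)) (.one (nat_lit 0x500000800b013a000010016026411)) (.one (nat_lit 0x500600800b013a00c010016026650))))
def t346 : k346.all (jb2 57 fl b0) = true := by decide +kernel
noncomputable def k347 : KT := (.br (Nat.shiftLeft (nat_lit 0xb) (nat_lit 112)) (.br (Nat.shiftLeft (nat_lit 0x7) (nat_lit 112)) (.br (Nat.shiftLeft (nat_lit 0x3) (nat_lit 113)) (.one (nat_lit 0x500700800b013a00e010016026650)) (.br (Nat.shiftLeft (nat_lit 0x1801) (nat_lit 102)) (.one (nat_lit 0x600000800b013c000010016026411)) (.one (nat_lit 0x600700800b013c00e010016026650)))) (.br (Nat.shiftLeft (nat_lit 0x9) (nat_lit 112)) (.br (Nat.shiftLeft (nat_lit 0x1) (nat_lit 115)) (.one (nat_lit 0x700000800b013e000010016026411))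 (.one (nat_lit 0x800000800b0130000010016128411))) (.br (Nat.shiftLeft (nat_lit 0x5) (nat_lit 113)) (.one (nat_lit 0x900000800b0132000010016128411)) (.one (nat_lit 0xa00000800b0134000010016128411))))) (.br (Nat.shiftLeft (nat_lit 0x400001) (nat_lit 102)) (.br (Nat.shiftLeft (nat_lit 0x1) (nat_lit 124)) (.one (nat_lit 0xb00000800b0136000010016128411)) (.br (Nat.shiftLeft (nat_lit 0x1000003) (nat_lit 100)) (.one (nat_lit 0x100000200800b0130004010036426511)) (.one (nat_lit 0x100000300800b0130006010036426511)))) (.br (Nat.shiftLeft (nat_lit 0x800003) (nat_lit 101)) (.br (Nat.shiftLeft (nat_lit 0x1000005) (nat_lit 100)) (.one (nat_lit 0x100000400800b0130008010036426511)) (.one (nat_lit 0x100000500800b013000a010036426511))) (.br (Nat.shiftLeft (nat_lit 0x1000007) (nat_lit 100)) (.one (nat_lit 0x100000600800b013000c010036426511)) (.one (nat_lit 0x100000700800b013000e010036426511))))))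
def t347 : k347.all (jb2 57 fl b0) = true := by decide +kernel
noncomputable def k348 : KT := (.br (Nat.shiftLeft (nat_lit 0xc00001) (nat_lit 102)) (.br (Nat.shiftLeft (nat_lit 0x2000005) (nat_lit 100)) (.br (Nat.shiftLeft (nat_lit 0x2000003) (nat_lit 100)) (.br (Nat.shiftLeft (nat_lit 0x1) (nat_lit 125)) (.one (nat_lit 0x100200300800b0134006010036426760)) (.one (nat_lit 0x200000200800b0130004010056826511))) (.br (Nat.shiftLeft (nat_lit 0x800001) (nat_lit 102)) (.one (nat_lit 0x200000300800b0130006010056826511)) (.one (nat_lit 0x200000400800b0130008010056826511)))) (.br (Nat.shiftLeft (nat_lit 0x2000007) (nat_lit 100)) (.br (Nat.shiftLeft (nat_lit 0x1000003) (nat_lit 101)) (.one (nat_lit 0x200000500800b013000a010056826511)) (.one (nat_lit 0x200000600800b013000c010056826511))) (.br (Nat.shiftLeft (nat_lit 0x3) (nat_lit 124)) (.one (nat_lit 0x200000700800b013000e010056826511)) (.br (Nat.shiftLeft (nat_lit 0x3000003) (nat_lit 100)) (.one (nat_lit 0x300000200800b0130004010076c26511)) (.one (nat_lit 0x300000300800b0130006010076c26511))))))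 (.br (Nat.shiftLeft (nat_lit 0x4000003) (nat_lit 100)) (.br (Nat.shiftLeft (nat_lit 0x1800003) (nat_lit 101)) (.br (Nat.shiftLeft (nat_lit 0x3000005) (nat_lit 100)) (.one (nat_lit 0x300000400800b0130008010076c26511)) (.one (nat_lit 0x300000500800b013000a010076c26511))) (.br (Nat.shiftLeft (nat_lit 0x3000007) (nat_lit 100)) (.one (nat_lit 0x300000600800b013000c010076c26511)) (.br (Nat.shiftLeft (nat_lit 0x1) (nat_lit 126)) (.one (nat_lit 0x300000700800b013000e010076c26511)) (.one (nat_lit 0x400000200800b0130004010097026511))))) (.br (Nat.shiftLeft (nat_lit 0x4000005) (nat_lit 100)) (.br (Nat.shiftLeft (nat_lit 0x1000001) (nat_lit 102)) (.one (nat_lit 0x400000300800b0130006010097026511)) (.one (nat_lit 0x400000400800b0130008010097026511))) (.br (Nat.shiftLeft (nat_lit 0x2000003) (nat_lit 101)) (.one (nat_lit 0x400000500800b013000a010097026511)) (.br (Nat.shiftLeft (nat_lit 0x4000007) (nat_lit 100)) (.one (nat_lit 0x400000600800b013000c010097026511)) (.one (nat_lit 0x400000700800b013000e010097026511)))))))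
def t348 : k348.all (jb2 57 fl b0) = true := by decide +kernel
noncomputable def k349 : KT := (.br (Nat.shiftLeft (nat_lit 0x5000005) (nat_lit 100)) (.br (Nat.shiftLeft (nat_lit 0x5000003) (nat_lit 100)) (.one (nat_lit 0x500000200800b01300040100b7426511)) (.br (Nat.shiftLeft (nat_lit 0x1400001) (nat_lit 102)) (.one (nat_lit 0x500000300800b01300060100b7426511)) (.one (nat_lit 0x500000400800b01300080100b7426511)))) (.br (Nat.shiftLeft (nat_lit 0x5000007) (nat_lit 100)) (.br (Nat.shiftLeft (nat_lit 0x2800003) (nat_lit 101)) (.one (nat_lit 0x500000500800b013000a0100b7426511)) (.one (nat_lit 0x500000600800b013000c0100b7426511))) (.br (Nat.shiftLeft (nat_lit 0x3) (nat_lit 125)) (.one (nat_lit 0x500000700800b013000e0100b7426511)) (.one (nat_lit 0x600000200800b01300040100d7826511)))))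
def t349 : k349.all (jb2 57 fl b0) = true := by decide +kernel
noncomputable def k350 : KT := (.br (Nat.shiftLeft (nat_lit 0x3000003) (nat_lit 101)) (.br (Nat.shiftLeft (nat_lit 0x1800001) (nat_lit 102)) (.one (nat_lit 0x600000300800b01300060100d7826511)) (.br (Nat.shiftLeft (nat_lit 0x6000005) (nat_lit 100)) (.one (nat_lit 0x600000400800b01300080100d7826511)) (.one (nat_lit 0x600000500800b013000a0100d7826511)))) (.br (Nat.shiftLeft (nat_lit 0x7) (nat_lit 124)) (.br (Nat.shiftLeft (nat_lit 0x6000007) (nat_lit 100)) (.one (nat_lit 0x600000600800b013000c0100d7826511)) (.one (nat_lit 0x600000700800b013000e0100d7826511))) (.br (Nat.shiftLeft (nat_lit 0x7000003) (nat_lit 100)) (.one (nat_lit 0x700000200800b01300040100f7c26511)) (.one (nat_lit 0x700000300800b01300060100f7c26511)))))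
def t350 : k350.all (jb2 57 fl b0) = true := by decide +kernel
noncomputable def k351 : KT := (.br (Nat.shiftLeft (nat_lit 0x8000003) (nat_lit 100)) (.br (Nat.shiftLeft (nat_lit 0x3800003) (nat_lit 101)) (.br (Nat.shiftLeft (nat_lit 0x7000005) (nat_lit 100)) (.one (nat_lit 0x700000400800b01300080100f7c26511)) (.one (nat_lit 0x700000500800b013000a0100f7c26511))) (.br (Nat.shiftLeft (nat_lit 0x7000007) (nat_lit 100)) (.one (nat_lit 0x700000600800b013000c0100f7c26511)) (.br (Nat.shiftLeft (nat_lit 0x1) (nat_lit 127)) (.one (nat_lit 0x700000700800b013000e0100f7c26511)) (.one (nat_lit 0x800000200800b0130004010118026511))))) (.br (Nat.shiftLeft (nat_lit 0x8000005) (nat_lit 100)) (.br (Nat.shiftLeft (nat_lit 0x2000001) (nat_lit 102)) (.one (nat_lit 0x800000300800b0130006010118026511)) (.one (nat_lit 0x800000400800b0130008010118026511))) (.br (Nat.shiftLeft (nat_lit 0x4000003) (nat_lit 101)) (.one (nat_lit 0x800000500800b013000a010118026511)) (.br (Nat.shiftLeft (nat_lit 0x8000007) (nat_lit 100)) (.one (nat_lit 0x800000600800b013000c010118026511))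 (.one (nat_lit 0x800000700800b013000e010118026511))))))
def t351 : k351.all (jb2 57 fl b0) = true := by decide +kernel
noncomputable def k352 : KT := (.br (Nat.shiftLeft (nat_lit 0xb) (nat_lit 124)) (.br (Nat.shiftLeft (nat_lit 0x5) (nat_lit 125)) (.br (Nat.shiftLeft (nat_lit 0x9000005) (nat_lit 100)) (.br (Nat.shiftLeft (nat_lit 0x9000003) (nat_lit 100)) (.one (nat_lit 0x900000200800b0130004010138426511)) (.br (Nat.shiftLeft (nat_lit 0x2400001) (nat_lit 102)) (.one (nat_lit 0x900000300800b0130006010138426511)) (.one (nat_lit 0x900000400800b0130008010138426511)))) (.br (Nat.shiftLeft (nat_lit 0x4800003) (nat_lit 101)) (.one (nat_lit 0x900000500800b013000a010138426511)) (.br (Nat.shiftLeft (nat_lit 0x9000007) (nat_lit 100)) (.one (nat_lit 0x900000600800b013000c010138426511)) (.one (nat_lit 0x900000700800b013000e010138426511))))) (.br (Nat.shiftLeft (nat_lit 0xa000005) (nat_lit 100)) (.br (Nat.shiftLeft (nat_lit 0xa000003) (nat_lit 100)) (.one (nat_lit 0xa00000200800b0130004010158826511)) (.br (Nat.shiftLeft (nat_lit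 0x2800001) (nat_lit 102)) (.one (nat_lit 0xa00000300800b0130006010158826511)) (.one (nat_lit 0xa00000400800b0130008010158826511)))) (.br (Nat.shiftLeft (nat_lit 0x5000003) (nat_lit 101)) (.one (nat_lit 0xa00000500800b013000a010158826511)) (.br (Nat.shiftLeft (nat_lit 0xa000007) (nat_lit 100)) (.one (nat_lit 0xa00000600800b013000c010158826511)) (.one (nat_lit 0xa00000700800b013000e010158826511)))))) (.br (Nat.shiftLeft (nat_lit 0x1) (nat_lit 136)) (.br (Nat.shiftLeft (nat_lit 0xb000005) (nat_lit 100)) (.br (Nat.shiftLeft (nat_lit 0xb000003) (nat_lit 100)) (.one (nat_lit 0xb00000200800b0130004010178c26511)) (.br (Nat.shiftLeft (nat_lit 0x2c00001) (nat_lit 102)) (.one (nat_lit 0xb00000300800b0130006010178c26511)) (.one (nat_lit 0xb00000400800b0130008010178c26511)))) (.br (Nat.shiftLeft (nat_lit 0x5800003) (nat_lit 101)) (.one (nat_lit 0xb00000500800b013000a010178c26511)) (.br (Nat.shiftLeft (nat_lit 0xb000007) (nat_lit 100)) (.one (nat_lit 0xb00000600800b013000c010178c26511)) (.one (nat_lit 0xb00000700800b013000e010178c26511)))))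 (.br (Nat.shiftLeft (nat_lit 0x1000001) (nat_lit 113)) (.br (Nat.shiftLeft (nat_lit 0x800001) (nat_lit 113)) (.one (nat_lit 0x100000100200800b0132004030416026611)) (.br (Nat.shiftLeft (nat_lit 0x1) (nat_lit 137)) (.one (nat_lit 0x100000200300800b0134006030416026611)) (.one (nat_lit 0x200000100200800b0132004050816026611)))) (.br (Nat.shiftLeft (nat_lit 0x1800001) (nat_lit 113)) (.br (Nat.shiftLeft (nat_lit 0x3) (nat_lit 136)) (.one (nat_lit 0x200000200300800b0134006050816026611)) (.one (nat_lit 0x300000100200800b0132004070c16026611))) (.br (Nat.shiftLeft (nat_lit 0x1) (nat_lit 138)) (.one (nat_lit 0x300000200300800b0134006070c16026611)) (.one (nat_lit 0x400000100200800b0132004091016026611)))))))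
def t352 : k352.all (jb2 57 fl b0) = true := by decide +kernel
noncomputable def k353 : KT := (.br (Nat.shiftLeft (nat_lit 0x3) (nat_lit 137)) (.br (Nat.shiftLeft (nat_lit 0x5) (nat_lit 136)) (.one (nat_lit 0x400000200300800b0134006091016026611)) (.br (Nat.shiftLeft (nat_lit 0x2800001) (nat_lit 113)) (.one (nat_lit 0x500000100200800b01320040b1416026611)) (.one (nat_lit 0x500000200300800b01340060b1416026611)))) (.br (Nat.shiftLeft (nat_lit 0x3000001) (nat_lit 113)) (.one (nat_lit 0x600000100200800b01320040d1816026611)) (.br (Nat.shiftLeft (nat_lit 0x7) (nat_lit 136)) (.one (nat_lit 0x600000200300800b01340060d1816026611)) (.one (nat_lit 0x700000100200800b01320040f1c16026611)))))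
def t353 : k353.all (jb2 57 fl b0) = true := by decide +kernel
noncomputable def k354 : KT := (.br (Nat.shiftLeft (nat_lit 0x4800001) (nat_lit 113)) (.br (Nat.shiftLeft (nat_lit 0x4000001) (nat_lit 113)) (.br (Nat.shiftLeft (nat_lit 0x1) (nat_lit 139)) (.one (nat_lit 0x700000200300800b01340060f1c16026611)) (.one (nat_lit 0x800000100200800b0132004112016026611))) (.br (Nat.shiftLeft (nat_lit 0x9) (nat_lit 136)) (.one (nat_lit 0x800000200300800b0134006112016026611)) (.one (nat_lit 0x900000100200800b0132004132416026611)))) (.br (Nat.shiftLeft (nat_lit 0x5000001) (nat_lit 113)) (.br (Nat.shiftLeft (nat_lit 0x5) (nat_lit 137)) (.one (nat_lit 0x900000200300800b0134006132416026611)) (.one (nat_lit 0xa00000100200800b0132004152816026611))) (.br (Nat.shiftLeft (nat_lit 0xb) (nat_lit 136)) (.one (nat_lit 0xa00000200300800b0134006152816026611)) (.br (Nat.shiftLeft (nat_lit 0x5800001) (nat_lit 113)) (.one (nat_lit 0xb00000100200800b0132004172c16026611)) (.one (nat_lit 0xb00000200300800b0134006172c16026611))))))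
def t354 : k354.all (jb2 57 fl b0) = true := by decide +kernel
noncomputable def s16 : KT := (.br (nat_lit 0x300600800b013600c010016026650) (.br (nat_lit 0x200300800b0134006010016027600) (.br (nat_lit 0x100300800b0132006010016026650) (.br (nat_lit 0x100200800b0132004010016027600) k336 k337) (.br (nat_lit 0x100400800b0132008010016026650) k338 k339)) (.br (nat_lit 0x200600800b013400c010016026650) (.br (nat_lit 0x200400800b0134008010016026650) k340 k341) (.br (nat_lit 0x300000800b0136000010016026411) k342 (.br (nat_lit 0x300400800b0136008010016026650) k343 k344)))) (.br (nat_lit 0x600000200800b01300040100d7826511) (.br (nat_lit 0x500600800b013a00c010016026650) (.br (nat_lit 0x400500800b013800a010016026650) k345 k346) (.br (nat_lit 0x100000700800b013000e010036426511) k347 (.br (nat_lit 0x400000700800b013000e010097026511) k348 k349))) (.br (nat_lit 0x800000700800b013000e010118026511) (.br (nat_lit 0x700000300800b01300060100f7c26511) k350 k351) (.br (nat_lit 0x400000100200800b0132004091016026611) k352 (.br (nat_lit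 0x700000100200800b01320040f1c16026611) k353 k354)))))
noncomputable def u16 : KT := (.one (nat_lit 0x800b0130000010016026430))
def w16 : u16.all (wj 57 s16) = true := by decide +kernel
def o16 : OkW 57 (jb2 57 fl) u16 := .lift s16 _ (.br _ _ _ (.br _ _ _ (.br _ _ _ (.br _ _ _ (.leaf b0 k336 t336) (.leaf b0 k337 t337)) (.br _ _ _ (.leaf b0 k338 t338) (.leaf b0 k339 t339))) (.br _ _ _ (.br _ _ _ (.leaf b0 k340 t340) (.leaf b0 k341 t341)) (.br _ _ _ (.leaf b0 k342 t342) (.br _ _ _ (.leaf b0 k343 t343) (.leaf b0 k344 t344))))) (.br _ _ _ (.br _ _ _ (.br _ _ _ (.leaf b0 k345 t345) (.leaf b0 k346 t346)) (.br _ _ _ (.leaf b0 k347 t347) (.br _ _ _ (.leaf b0 k348 t348) (.leaf b0 k349 t349)))) (.br _ _ _ (.br _ _ _ (.leaf b0 k350 t350) (.leaf b0 k351 t351)) (.br _ _ _ (.leaf b0 k352 t352) (.br _ _ _ (.leaf b0 k353 t353) (.leaf b0 k354 t354)))))) w16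
noncomputable def k355 : KT := (.br (Nat.shiftLeft (nat_lit 0x800b015) (nat_lit 64)) (.one (nat_lit 0x800b0140000010016029400)) (.br (Nat.shiftLeft (nat_lit 0x1) (nat_lit 100)) (.one (nat_lit 0x800b015000001001602b400)) (.one (nat_lit 0x100800b0140002010016028540))))
def t355 : k355.all (jb2 57 fl b0) = true := by decide +kernel
noncomputable def k356 : KT := (.br (Nat.shiftLeft (nat_lit 0x400800b015) (nat_lit 64)) (.br (Nat.shiftLeft (nat_lit 0x3) (nat_lit 100)) (.br (Nat.shiftLeft (nat_lit 0x1) (nat_lit 101)) (.one (nat_lit 0x100800b015000201001602a540)) (.br (Nat.shiftLeft (nat_lit 0x200800b015) (nat_lit 64)) (.one (nat_lit 0x200800b0140004010016029500)) (.one (nat_lit 0x200800b015000401001602b500)))) (.br (Nat.shiftLeft (nat_lit 0x300800b015) (nat_lit 64)) (.one (nat_lit 0x300800b0140006010016029500)) (.br (Nat.shiftLeft (nat_lit 0x1) (nat_lit 102)) (.one (nat_lit 0x300800b015000601001602b500)) (.one (nat_lit 0x400800b0140008010016029500))))) (.br (Nat.shiftLeft (nat_lit 0x3) (nat_lit 101)) (.br (Nat.shiftLeft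 (nat_lit 0x5) (nat_lit 100)) (.one (nat_lit 0x400800b015000801001602b500)) (.br (Nat.shiftLeft (nat_lit 0x500800b015) (nat_lit 64)) (.one (nat_lit 0x500800b014000a010016029500)) (.one (nat_lit 0x500800b015000a01001602b500)))) (.br (Nat.shiftLeft (nat_lit 0x600800b015) (nat_lit 64)) (.one (nat_lit 0x600800b014000c010016029500)) (.br (Nat.shiftLeft (nat_lit 0x7) (nat_lit 100)) (.one (nat_lit 0x600800b015000c01001602b500)) (.one (nat_lit 0x700800b014000e010016029500))))))
def t356 : k356.all (jb2 57 fl b0) = true := by decide +kernel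
noncomputable def k357 : KT := (.br (Nat.shiftLeft (nat_lit 0x1) (nat_lit 112)) (.one (nat_lit 0x700800b015000e01001602a540)) (.br (Nat.shiftLeft (nat_lit 0x100000800b015) (nat_lit 64)) (.one (nat_lit 0x100000800b0142000010016028411)) (.one (nat_lit 0x100000800b015200001001602a411))))
def t357 : k357.all (jb2 57 fl b0) = true := by decide +kernel
noncomputable def k358 : KT := (.one (nat_lit 0x100200800b0142004010016028650))
def t358 : k358.all (jb2 57 fl b0) = true := by decide +kernel
noncomputable def k359 : KT := (.one (nat_lit 0x100200800b015200401001602a650))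
def t359 : k359.all (jb2 57 fl b0) = true := by decide +kernel
noncomputable def k360 : KT := (.one (nat_lit 0x100300800b0142006010016028650))
def t360 : k360.all (jb2 57 fl b0) = true := by decide +kernel
noncomputable def k361 : KT := (.br (Nat.shiftLeft (nat_lit 0x401) (nat_lit 102)) (.one (nat_lit 0x100300800b015200601001602a650)) (.one (nat_lit 0x100400800b0142008010016028650)))
def t361 : k361.all (jb2 57 fl b0) = true := by decide +kernel
noncomputable def k362 : KT := (.br (Nat.shiftLeft (nat_lit 0x1005) (nat_lit 100)) (.one (nat_lit 0x100400800b015200801001602a650)) (.br (Nat.shiftLeft (nat_lit 0x100500800b015) (nat_lit 64)) (.one (nat_lit 0x100500800b014200a010016028650)) (.one (nat_lit 0x100500800b015200a01001602a650))))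
def t362 : k362.all (jb2 57 fl b0) = true := by decide +kernel
noncomputable def k363 : KT := (.br (Nat.shiftLeft (nat_lit 0x1007) (nat_lit 100)) (.br (Nat.shiftLeft (nat_lit 0x100600800b015) (nat_lit 64)) (.one (nat_lit 0x100600800b014200c010016028650)) (.one (nat_lit 0x100600800b015200c01001602a650))) (.br (Nat.shiftLeft (nat_lit 0x1) (nat_lit 113)) (.one (nat_lit 0x100700800b014200e010016028650)) (.br (Nat.shiftLeft (nat_lit 0x200000800b015) (nat_lit 64)) (.one (nat_lit 0x200000800b0144000010016028411)) (.one (nat_lit 0x200000800b015400001001602a411)))))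
def t363 : k363.all (jb2 57 fl b0) = true := by decide +kernel
noncomputable def k364 : KT := (.one (nat_lit 0x200300800b0144006010016028650))
def t364 : k364.all (jb2 57 fl b0) = true := by decide +kernel
noncomputable def k365 : KT := (.one (nat_lit 0x200300800b015400601001602a650))
def t365 : k365.all (jb2 57 fl b0) = true := by decide +kernel
noncomputable def k366 : KT := (.br (Nat.shiftLeft (nat_lit 0x200400800b015) (nat_lit 64)) (.one (nat_lit 0x200400800b0144008010016028650)) (.one (nat_lit 0x200400800b015400801001602a650)))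
def t366 : k366.all (jb2 57 fl b0) = true := by decide +kernel
noncomputable def k367 : KT := (.br (Nat.shiftLeft (nat_lit 0x200500800b015) (nat_lit 64)) (.one (nat_lit 0x200500800b014400a010016028650)) (.br (Nat.shiftLeft (nat_lit 0x1003) (nat_lit 101)) (.one (nat_lit 0x200500800b015400a01001602a650)) (.one (nat_lit 0x200600800b014400c010016028650))))
def t367 : k367.all (jb2 57 fl b0) = true := by decide +kernel
noncomputable def k368 : KT := (.br (Nat.shiftLeft (nat_lit 0x3) (nat_lit 112)) (.br (Nat.shiftLeft (nat_lit 0x2007) (nat_lit 100)) (.one (nat_lit 0x200600800b015400c01001602a650)) (.one (nat_lit 0x200700800b014400e010016028650))) (.br (Nat.shiftLeft (nat_lit 0x300000800b015) (nat_lit 64)) (.one (nat_lit 0x300000800b0146000010016028411)) (.br (Nat.shiftLeft (nat_lit 0xc01) (nat_lit 102)) (.one (nat_lit 0x300000800b015600001001602a411)) (.one (nat_lit 0x300400800b0146008010016028650)))))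
def t368 : k368.all (jb2 57 fl b0) = true := by decide +kernel
noncomputable def k369 : KT := (.br (Nat.shiftLeft (nat_lit 0x3005) (nat_lit 100)) (.one (nat_lit 0x300400800b015600801001602a650)) (.one (nat_lit 0x300500800b014600a010016028650)))
def t369 : k369.all (jb2 57 fl b0) = true := by decide +kernel
noncomputable def k370 : KT := (.br (Nat.shiftLeft (nat_lit 0x3007) (nat_lit 100)) (.br (Nat.shiftLeft (nat_lit 0x1803) (nat_lit 101)) (.one (nat_lit 0x300500800b015600a01001602a650)) (.br (Nat.shiftLeft (nat_lit 0x300600800b015) (nat_lit 64)) (.one (nat_lit 0x300600800b014600c010016028650)) (.one (nat_lit 0x300600800b015600c01001602a650)))) (.br (Nat.shiftLeft (nat_lit 0x1) (nat_lit 114)) (.one (nat_lit 0x300700800b014600e010016028650)) (.br (Nat.shiftLeft (nat_lit 0x400000800b015) (nat_lit 64)) (.one (nat_lit 0x400000800b0148000010016028411)) (.one (nat_lit 0x400000800b015800001001602a411)))))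
def t370 : k370.all (jb2 57 fl b0) = true := by decide +kernel
noncomputable def k371 : KT := (.br (Nat.shiftLeft (nat_lit 0x400500800b015) (nat_lit 64)) (.one (nat_lit 0x400500800b014800a010016028650)) (.br (Nat.shiftLeft (nat_lit 0x2003) (nat_lit 101)) (.one (nat_lit 0x400500800b015800a01001602a650)) (.one (nat_lit 0x400600800b014800c010016028650))))
def t371 : k371.all (jb2 57 fl b0) = true := by decide +kernel
noncomputable def k372 : KT := (.br (Nat.shiftLeft (nat_lit 0x500600800b015) (nat_lit 64)) (.br (Nat.shiftLeft (nat_lit 0x5) (nat_lit 112)) (.br (Nat.shiftLeft (nat_lit 0x4007) (nat_lit 100)) (.one (nat_lit 0x400600800b015800c01001602a650)) (.one (nat_lit 0x400700800b014800e010016028650))) (.br (Nat.shiftLeft (nat_lit 0x500000800b015) (nat_lit 64)) (.one (nat_lit 0x500000800b014a000010016028411)) (.br (Nat.shiftLeft (nat_lit 0x1401) (nat_lit 102)) (.one (nat_lit 0x500000800b015a00001001602a411)) (.one (nat_lit 0x500600800b014a00c010016028650))))) (.br (Nat.shiftLeft (nat_lit 0x3) (nat_lit 113)) (.br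 (Nat.shiftLeft (nat_lit 0x5007) (nat_lit 100)) (.one (nat_lit 0x500600800b015a00c01001602a650)) (.one (nat_lit 0x500700800b014a00e010016028650))) (.br (Nat.shiftLeft (nat_lit 0x600000800b015) (nat_lit 64)) (.one (nat_lit 0x600000800b014c000010016028411)) (.br (Nat.shiftLeft (nat_lit 0x1801) (nat_lit 102)) (.one (nat_lit 0x600000800b015c00001001602a411)) (.one (nat_lit 0x600700800b014c00e010016028650))))))
def t372 : k372.all (jb2 57 fl b0) = true := by decide +kernel
noncomputable def k373 : KT := (.br (Nat.shiftLeft (nat_lit 0x1000007) (nat_lit 100)) (.br (Nat.shiftLeft (nat_lit 0x1) (nat_lit 124)) (.br (Nat.shiftLeft (nat_lit 0x900000800b015) (nat_lit 64)) (.br (Nat.shiftLeft (nat_lit 0x1) (nat_lit 115)) (.br (Nat.shiftLeft (nat_lit 0x700000800b015) (nat_lit 64)) (.one (nat_lit 0x700000800b014e000010016028411)) (.one (nat_lit 0x700000800b015e00001001602a411))) (.br (Nat.shiftLeft (nat_lit 0x800000800b015) (nat_lit 64)) (.one (nat_lit 0x800000800b014000001001612a411)) (.br (Nat.shiftLeft (nat_lit 0x9) (nat_lit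 112)) (.one (nat_lit 0x800000800b015000001001612c411)) (.one (nat_lit 0x900000800b014200001001612a411))))) (.br (Nat.shiftLeft (nat_lit 0xa00000800b015) (nat_lit 64)) (.br (Nat.shiftLeft (nat_lit 0x5) (nat_lit 113)) (.one (nat_lit 0x900000800b015200001001612c411)) (.one (nat_lit 0xa00000800b014400001001612a411))) (.br (Nat.shiftLeft (nat_lit 0xb) (nat_lit 112)) (.one (nat_lit 0xa00000800b015400001001612c411)) (.br (Nat.shiftLeft (nat_lit 0xb00000800b015) (nat_lit 64)) (.one (nat_lit 0xb00000800b014600001001612a411)) (.one (nat_lit 0xb00000800b015600001001612c411)))))) (.br (Nat.shiftLeft (nat_lit 0x100000400800b015) (nat_lit 64)) (.br (Nat.shiftLeft (nat_lit 0x1000003) (nat_lit 100)) (.br (Nat.shiftLeft (nat_lit 0x100000200800b015) (nat_lit 64)) (.one (nat_lit 0x100000200800b0140004010036428511)) (.one (nat_lit 0x100000200800b015000401003642a511))) (.br (Nat.shiftLeft (nat_lit 0x100000300800b015) (nat_lit 64)) (.one (nat_lit 0x100000300800b0140006010036428511)) (.br (Nat.shiftLeft (nat_lit 0x400001) (nat_lit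 102)) (.one (nat_lit 0x100000300800b015000601003642a511)) (.one (nat_lit 0x100000400800b0140008010036428511))))) (.br (Nat.shiftLeft (nat_lit 0x100000500800b015) (nat_lit 64)) (.br (Nat.shiftLeft (nat_lit 0x1000005) (nat_lit 100)) (.one (nat_lit 0x100000400800b015000801003642a511)) (.one (nat_lit 0x100000500800b014000a010036428511))) (.br (Nat.shiftLeft (nat_lit 0x800003) (nat_lit 101)) (.one (nat_lit 0x100000500800b015000a01003642a511)) (.br (Nat.shiftLeft (nat_lit 0x100000600800b015) (nat_lit 64)) (.one (nat_lit 0x100000600800b014000c010036428511)) (.one (nat_lit 0x100000600800b015000c01003642a511))))))) (.br (Nat.shiftLeft (nat_lit 0x200000600800b015) (nat_lit 64)) (.br (Nat.shiftLeft (nat_lit 0x800001) (nat_lit 102)) (.br (Nat.shiftLeft (nat_lit 0x200000200800b015) (nat_lit 64)) (.br (Nat.shiftLeft (nat_lit 0x1) (nat_lit 125)) (.one (nat_lit 0x100000700800b014000e010036428511)) (.one (nat_lit 0x200000200800b0140004010056828511))) (.br (Nat.shiftLeft (nat_lit 0x2000003) (nat_lit 100)) (.one (nat_lit 0x200000200800b015000401005682a511))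 (.br (Nat.shiftLeft (nat_lit 0x200000300800b015) (nat_lit 64)) (.one (nat_lit 0x200000300800b0140006010056828511)) (.one (nat_lit 0x200000300800b015000601005682a511))))) (.br (Nat.shiftLeft (nat_lit 0x2000005) (nat_lit 100)) (.br (Nat.shiftLeft (nat_lit 0x200000400800b015) (nat_lit 64)) (.one (nat_lit 0x200000400800b0140008010056828511)) (.one (nat_lit 0x200000400800b015000801005682a511))) (.br (Nat.shiftLeft (nat_lit 0x200000500800b015) (nat_lit 64)) (.one (nat_lit 0x200000500800b014000a010056828511)) (.br (Nat.shiftLeft (nat_lit 0x1000003) (nat_lit 101)) (.one (nat_lit 0x200000500800b015000a01005682a511)) (.one (nat_lit 0x200000600800b014000c010056828511)))))) (.br (Nat.shiftLeft (nat_lit 0x300000300800b015) (nat_lit 64)) (.br (Nat.shiftLeft (nat_lit 0x3) (nat_lit 124)) (.br (Nat.shiftLeft (nat_lit 0x2000007) (nat_lit 100)) (.one (nat_lit 0x200000600800b015000c01005682a511)) (.one (nat_lit 0x200000700800b014000e010056828511))) (.br (Nat.shiftLeft (nat_lit 0x300000200800b015) (nat_lit 64)) (.one (nat_lit 0x300000200800b0140004010076c28511))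 (.br (Nat.shiftLeft (nat_lit 0x3000003) (nat_lit 100)) (.one (nat_lit 0x300000200800b0150004010076c2a511)) (.one (nat_lit 0x300000300800b0140006010076c28511))))) (.br (Nat.shiftLeft (nat_lit 0x300000400800b015) (nat_lit 64)) (.br (Nat.shiftLeft (nat_lit 0xc00001) (nat_lit 102)) (.one (nat_lit 0x300000300800b0150006010076c2a511)) (.one (nat_lit 0x300000400800b0140008010076c28511))) (.br (Nat.shiftLeft (nat_lit 0x3000005) (nat_lit 100)) (.one (nat_lit 0x300000400800b0150008010076c2a511)) (.br (Nat.shiftLeft (nat_lit 0x300000500800b015) (nat_lit 64)) (.one (nat_lit 0x300000500800b014000a010076c28511)) (.one (nat_lit 0x300000500800b015000a010076c2a511))))))))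
def t373 : k373.all (jb2 57 fl b0) = true := by decide +kernel
noncomputable def k374 : KT := (.br (Nat.shiftLeft (nat_lit 0x400000400800b015) (nat_lit 64)) (.br (Nat.shiftLeft (nat_lit 0x400000200800b015) (nat_lit 64)) (.br (Nat.shiftLeft (nat_lit 0x3000007) (nat_lit 100)) (.br (Nat.shiftLeft (nat_lit 0x300000600800b015) (nat_lit 64)) (.one (nat_lit 0x300000600800b014000c010076c28511)) (.one (nat_lit 0x300000600800b015000c010076c2a511))) (.br (Nat.shiftLeft (nat_lit 0x1) (nat_lit 126)) (.one (nat_lit 0x300000700800b014000e010076c28511)) (.one (nat_lit 0x400000200800b0140004010097028511)))) (.br (Nat.shiftLeft (nat_lit 0x400000300800b015) (nat_lit 64)) (.br (Nat.shiftLeft (nat_lit 0x4000003) (nat_lit 100)) (.one (nat_lit 0x400000200800b015000401009702a511)) (.one (nat_lit 0x400000300800b0140006010097028511))) (.br (Nat.shiftLeft (nat_lit 0x1000001) (nat_lit 102)) (.one (nat_lit 0x400000300800b015000601009702a511)) (.one (nat_lit 0x400000400800b0140008010097028511))))) (.br (Nat.shiftLeft (nat_lit 0x400000600800b015)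 (nat_lit 64)) (.br (Nat.shiftLeft (nat_lit 0x400000500800b015) (nat_lit 64)) (.br (Nat.shiftLeft (nat_lit 0x4000005) (nat_lit 100)) (.one (nat_lit 0x400000400800b015000801009702a511)) (.one (nat_lit 0x400000500800b014000a010097028511))) (.br (Nat.shiftLeft (nat_lit 0x2000003) (nat_lit 101)) (.one (nat_lit 0x400000500800b015000a01009702a511)) (.one (nat_lit 0x400000600800b014000c010097028511)))) (.br (Nat.shiftLeft (nat_lit 0x5) (nat_lit 124)) (.br (Nat.shiftLeft (nat_lit 0x4000007) (nat_lit 100)) (.one (nat_lit 0x400000600800b015000c01009702a511)) (.one (nat_lit 0x400000700800b014000e010097028511))) (.br (Nat.shiftLeft (nat_lit 0x500000200800b015) (nat_lit 64)) (.one (nat_lit 0x500000200800b01400040100b7428511)) (.one (nat_lit 0x500000200800b01500040100b742a511))))))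
def t374 : k374.all (jb2 57 fl b0) = true := by decide +kernel
noncomputable def k375 : KT := (.br (Nat.shiftLeft (nat_lit 0x500000500800b015) (nat_lit 64)) (.br (Nat.shiftLeft (nat_lit 0x1400001) (nat_lit 102)) (.br (Nat.shiftLeft (nat_lit 0x500000300800b015) (nat_lit 64)) (.one (nat_lit 0x500000300800b01400060100b7428511)) (.one (nat_lit 0x500000300800b01500060100b742a511))) (.br (Nat.shiftLeft (nat_lit 0x500000400800b015) (nat_lit 64)) (.one (nat_lit 0x500000400800b01400080100b7428511)) (.br (Nat.shiftLeft (nat_lit 0x5000005) (nat_lit 100)) (.one (nat_lit 0x500000400800b01500080100b742a511)) (.one (nat_lit 0x500000500800b014000a0100b7428511))))) (.br (Nat.shiftLeft (nat_lit 0x5000007) (nat_lit 100)) (.br (Nat.shiftLeft (nat_lit 0x2800003) (nat_lit 101)) (.one (nat_lit 0x500000500800b015000a0100b742a511)) (.br (Nat.shiftLeft (nat_lit 0x500000600800b015) (nat_lit 64)) (.one (nat_lit 0x500000600800b014000c0100b7428511)) (.one (nat_lit 0x500000600800b015000c0100b742a511)))) (.br (Nat.shiftLeft (nat_lit 0x3) (nat_lit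 125)) (.one (nat_lit 0x500000700800b014000e0100b7428511)) (.br (Nat.shiftLeft (nat_lit 0x600000200800b015) (nat_lit 64)) (.one (nat_lit 0x600000200800b01400040100d7828511)) (.one (nat_lit 0x600000200800b01500040100d782a511))))))
def t375 : k375.all (jb2 57 fl b0) = true := by decide +kernel
noncomputable def k376 : KT := (.br (Nat.shiftLeft (nat_lit 0x600000500800b015) (nat_lit 64)) (.br (Nat.shiftLeft (nat_lit 0x1800001) (nat_lit 102)) (.br (Nat.shiftLeft (nat_lit 0x600000300800b015) (nat_lit 64)) (.one (nat_lit 0x600000300800b01400060100d7828511)) (.one (nat_lit 0x600000300800b01500060100d782a511))) (.br (Nat.shiftLeft (nat_lit 0x600000400800b015) (nat_lit 64)) (.one (nat_lit 0x600000400800b01400080100d7828511)) (.br (Nat.shiftLeft (nat_lit 0x6000005) (nat_lit 100)) (.one (nat_lit 0x600000400800b01500080100d782a511)) (.one (nat_lit 0x600000500800b014000a0100d7828511))))) (.br (Nat.shiftLeft (nat_lit 0x6000007) (nat_lit 100)) (.br (Nat.shiftLeft (nat_lit 0x3000003) (nat_lit 101)) (.one (nat_lit 0x600000500800b015000a0100d782a511))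 (.br (Nat.shiftLeft (nat_lit 0x600000600800b015) (nat_lit 64)) (.one (nat_lit 0x600000600800b014000c0100d7828511)) (.one (nat_lit 0x600000600800b015000c0100d782a511)))) (.br (Nat.shiftLeft (nat_lit 0x7) (nat_lit 124)) (.one (nat_lit 0x600000700800b014000e0100d7828511)) (.br (Nat.shiftLeft (nat_lit 0x700000200800b015) (nat_lit 64)) (.one (nat_lit 0x700000200800b01400040100f7c28511)) (.one (nat_lit 0x700000200800b01500040100f7c2a511))))))
def t376 : k376.all (jb2 57 fl b0) = true := by decide +kernel
noncomputable def k377 : KT := (.br (Nat.shiftLeft (nat_lit 0x700000600800b015) (nat_lit 64)) (.br (Nat.shiftLeft (nat_lit 0x700000400800b015) (nat_lit 64)) (.br (Nat.shiftLeft (nat_lit 0x700000300800b015) (nat_lit 64)) (.one (nat_lit 0x700000300800b01400060100f7c28511)) (.br (Nat.shiftLeft (nat_lit 0x1c00001) (nat_lit 102)) (.one (nat_lit 0x700000300800b01500060100f7c2a511)) (.one (nat_lit 0x700000400800b01400080100f7c28511)))) (.br (Nat.shiftLeft (nat_lit 0x700000500800b015) (nat_lit 64)) (.br (Nat.shiftLeft (nat_lit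 0x7000005) (nat_lit 100)) (.one (nat_lit 0x700000400800b01500080100f7c2a511)) (.one (nat_lit 0x700000500800b014000a0100f7c28511))) (.br (Nat.shiftLeft (nat_lit 0x3800003) (nat_lit 101)) (.one (nat_lit 0x700000500800b015000a0100f7c2a511)) (.one (nat_lit 0x700000600800b014000c0100f7c28511))))) (.br (Nat.shiftLeft (nat_lit 0x800000200800b015) (nat_lit 64)) (.br (Nat.shiftLeft (nat_lit 0x7000007) (nat_lit 100)) (.one (nat_lit 0x700000600800b015000c0100f7c2a511)) (.br (Nat.shiftLeft (nat_lit 0x1) (nat_lit 127)) (.one (nat_lit 0x700000700800b014000e0100f7c28511)) (.one (nat_lit 0x800000200800b0140004010118028511)))) (.br (Nat.shiftLeft (nat_lit 0x800000300800b015) (nat_lit 64)) (.br (Nat.shiftLeft (nat_lit 0x8000003) (nat_lit 100)) (.one (nat_lit 0x800000200800b015000401011802a511)) (.one (nat_lit 0x800000300800b0140006010118028511))) (.br (Nat.shiftLeft (nat_lit 0x2000001) (nat_lit 102)) (.one (nat_lit 0x800000300800b015000601011802a511)) (.one (nat_lit 0x800000400800b0140008010118028511))))))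
def t377 : k377.all (jb2 57 fl b0) = true := by decide +kernel
noncomputable def k378 : KT := (.br (Nat.shiftLeft (nat_lit 0xa000003) (nat_lit 100)) (.br (Nat.shiftLeft (nat_lit 0x900000300800b015) (nat_lit 64)) (.br (Nat.shiftLeft (nat_lit 0x800000600800b015) (nat_lit 64)) (.br (Nat.shiftLeft (nat_lit 0x800000500800b015) (nat_lit 64)) (.br (Nat.shiftLeft (nat_lit 0x8000005) (nat_lit 100)) (.one (nat_lit 0x800000400800b015000801011802a511)) (.one (nat_lit 0x800000500800b014000a010118028511))) (.br (Nat.shiftLeft (nat_lit 0x4000003) (nat_lit 101)) (.one (nat_lit 0x800000500800b015000a01011802a511)) (.one (nat_lit 0x800000600800b014000c010118028511)))) (.br (Nat.shiftLeft (nat_lit 0x9) (nat_lit 124)) (.br (Nat.shiftLeft (nat_lit 0x8000007) (nat_lit 100)) (.one (nat_lit 0x800000600800b015000c01011802a511)) (.one (nat_lit 0x800000700800b014000e010118028511))) (.br (Nat.shiftLeft (nat_lit 0x900000200800b015) (nat_lit 64)) (.one (nat_lit 0x900000200800b0140004010138428511)) (.br (Nat.shiftLeft (nat_lit 0x9000003) (nat_lit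 100)) (.one (nat_lit 0x900000200800b015000401013842a511)) (.one (nat_lit 0x900000300800b0140006010138428511)))))) (.br (Nat.shiftLeft (nat_lit 0x4800003) (nat_lit 101)) (.br (Nat.shiftLeft (nat_lit 0x900000400800b015) (nat_lit 64)) (.br (Nat.shiftLeft (nat_lit 0x2400001) (nat_lit 102)) (.one (nat_lit 0x900000300800b015000601013842a511)) (.one (nat_lit 0x900000400800b0140008010138428511))) (.br (Nat.shiftLeft (nat_lit 0x9000005) (nat_lit 100)) (.one (nat_lit 0x900000400800b015000801013842a511)) (.br (Nat.shiftLeft (nat_lit 0x900000500800b015) (nat_lit 64)) (.one (nat_lit 0x900000500800b014000a010138428511)) (.one (nat_lit 0x900000500800b015000a01013842a511))))) (.br (Nat.shiftLeft (nat_lit 0x9000007) (nat_lit 100)) (.br (Nat.shiftLeft (nat_lit 0x900000600800b015) (nat_lit 64)) (.one (nat_lit 0x900000600800b014000c010138428511)) (.one (nat_lit 0x900000600800b015000c01013842a511))) (.br (Nat.shiftLeft (nat_lit 0x5) (nat_lit 125)) (.one (nat_lit 0x900000700800b014000e010138428511)) (.br (Nat.shiftLeft (nat_lit 0xa00000200800b015)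 (nat_lit 64)) (.one (nat_lit 0xa00000200800b0140004010158828511)) (.one (nat_lit 0xa00000200800b015000401015882a511))))))) (.br (Nat.shiftLeft (nat_lit 0xb00000200800b015) (nat_lit 64)) (.br (Nat.shiftLeft (nat_lit 0xa00000500800b015) (nat_lit 64)) (.br (Nat.shiftLeft (nat_lit 0x2800001) (nat_lit 102)) (.br (Nat.shiftLeft (nat_lit 0xa00000300800b015) (nat_lit 64)) (.one (nat_lit 0xa00000300800b0140006010158828511)) (.one (nat_lit 0xa00000300800b015000601015882a511))) (.br (Nat.shiftLeft (nat_lit 0xa00000400800b015) (nat_lit 64)) (.one (nat_lit 0xa00000400800b0140008010158828511)) (.br (Nat.shiftLeft (nat_lit 0xa000005) (nat_lit 100)) (.one (nat_lit 0xa00000400800b015000801015882a511)) (.one (nat_lit 0xa00000500800b014000a010158828511))))) (.br (Nat.shiftLeft (nat_lit 0xa00000600800b015) (nat_lit 64)) (.br (Nat.shiftLeft (nat_lit 0x5000003) (nat_lit 101)) (.one (nat_lit 0xa00000500800b015000a01015882a511)) (.one (nat_lit 0xa00000600800b014000c010158828511))) (.br (Nat.shiftLeft (nat_lit 0xa000007) (nat_lit 100))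 (.one (nat_lit 0xa00000600800b015000c01015882a511)) (.br (Nat.shiftLeft (nat_lit 0xb) (nat_lit 124)) (.one (nat_lit 0xa00000700800b014000e010158828511)) (.one (nat_lit 0xb00000200800b0140004010178c28511)))))) (.br (Nat.shiftLeft (nat_lit 0xb000005) (nat_lit 100)) (.br (Nat.shiftLeft (nat_lit 0xb00000300800b015) (nat_lit 64)) (.br (Nat.shiftLeft (nat_lit 0xb000003) (nat_lit 100)) (.one (nat_lit 0xb00000200800b0150004010178c2a511)) (.one (nat_lit 0xb00000300800b0140006010178c28511))) (.br (Nat.shiftLeft (nat_lit 0x2c00001) (nat_lit 102)) (.one (nat_lit 0xb00000300800b0150006010178c2a511)) (.br (Nat.shiftLeft (nat_lit 0xb00000400800b015) (nat_lit 64)) (.one (nat_lit 0xb00000400800b0140008010178c28511)) (.one (nat_lit 0xb00000400800b0150008010178c2a511))))) (.br (Nat.shiftLeft (nat_lit 0x5800003) (nat_lit 101)) (.br (Nat.shiftLeft (nat_lit 0xb00000500800b015) (nat_lit 64)) (.one (nat_lit 0xb00000500800b014000a010178c28511)) (.one (nat_lit 0xb00000500800b015000a010178c2a511))) (.br (Nat.shiftLeft (nat_lit 0xb00000600800b015)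 (nat_lit 64)) (.one (nat_lit 0xb00000600800b014000c010178c28511)) (.br (Nat.shiftLeft (nat_lit 0xb000007) (nat_lit 100)) (.one (nat_lit 0xb00000600800b015000c010178c2a511)) (.one (nat_lit 0xb00000700800b014000e010178c28511))))))))
def t378 : k378.all (jb2 57 fl b0) = true := by decide +kernel
noncomputable def s17 : KT := (.br (nat_lit 0x200400800b015400801001602a650) (.br (nat_lit 0x100300800b0142006010016028650) (.br (nat_lit 0x100000800b015200001001602a411) (.br (nat_lit 0x100800b0140002010016028540) k355 (.br (nat_lit 0x700800b014000e010016029500) k356 k357)) (.br (nat_lit 0x100200800b0142004010016028650) k358 (.br (nat_lit 0x100200800b015200401001602a650) k359 k360))) (.br (nat_lit 0x200000800b015400001001602a411) (.br (nat_lit 0x100400800b0142008010016028650) k361 (.br (nat_lit 0x100500800b015200a01001602a650) k362 k363)) (.br (nat_lit 0x200300800b0144006010016028650) k364 (.br (nat_lit 0x200300800b015400601001602a650) k365 k366)))) (.br (nat_lit 0x600700800b014c00e010016028650) (.br (nat_lit 0x300500800b014600a010016028650)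 (.br (nat_lit 0x200600800b014400c010016028650) k367 (.br (nat_lit 0x300400800b0146008010016028650) k368 k369)) (.br (nat_lit 0x400000800b015800001001602a411) k370 (.br (nat_lit 0x400600800b014800c010016028650) k371 k372))) (.br (nat_lit 0x600000200800b01500040100d782a511) (.br (nat_lit 0x300000500800b015000a010076c2a511) k373 (.br (nat_lit 0x500000200800b01500040100b742a511) k374 k375)) (.br (nat_lit 0x700000200800b01500040100f7c2a511) k376 (.br (nat_lit 0x800000400800b0140008010118028511) k377 k378)))))
noncomputable def u17 : KT := (.br (Nat.shiftLeft (nat_lit 0x800b015) (nat_lit 64)) (.one (nat_lit 0x800b0140000010016028430)) (.one (nat_lit 0x800b015000001001602a430)))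
def w17 : u17.all (wj 57 s17) = true := by decide +kernel
def o17 : OkW 57 (jb2 57 fl) u17 := .lift s17 _ (.br _ _ _ (.br _ _ _ (.br _ _ _ (.br _ _ _ (.leaf b0 k355 t355) (.br _ _ _ (.leaf b0 k356 t356) (.leaf b0 k357 t357))) (.br _ _ _ (.leaf b0 k358 t358) (.br _ _ _ (.leaf b0 k359 t359) (.leaf b0 k360 t360)))) (.br _ _ _ (.br _ _ _ (.leaf b0 k361 t361) (.br _ _ _ (.leaf b0 k362 t362) (.leaf b0 k363 t363))) (.br _ _ _ (.leaf b0 k364 t364) (.br _ _ _ (.leaf b0 k365 t365) (.leaf b0 k366 t366))))) (.br _ _ _ (.br _ _ _ (.br _ _ _ (.leaf b0 k367 t367) (.br _ _ _ (.leaf b0 k368 t368) (.leaf b0 k369 t369))) (.br _ _ _ (.leaf b0 k370 t370) (.br _ _ _ (.leaf b0 k371 t371) (.leaf b0 k372 t372)))) (.br _ _ _ (.br _ _ _ (.leaf b0 k373 t373) (.br _ _ _ (.leaf b0 k374 t374) (.leaf b0 k375 t375))) (.br _ _ _ (.leaf b0 k376 t376) (.br _ _ _ (.leaf b0 k377 t377) (.leaf b0 k378 t378)))))) w17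
noncomputable def k379 : KT := (.br (Nat.shiftLeft (nat_lit 0x800c00f) (nat_lit 64)) (.br (Nat.shiftLeft (nat_lit 0x1001603) (nat_lit 67)) (.br (Nat.shiftLeft (nat_lit 0x800b017) (nat_lit 64)) (.one (nat_lit 0x800b016000001001602d400)) (.one (nat_lit 0x800b017000001001602f400))) (.br (Nat.shiftLeft (nat_lit 0x2003) (nat_lit 78)) (.one (nat_lit 0x800b0180000010016031400)) (.br (Nat.shiftLeft (nat_lit 0x4006007) (nat_lit 65)) (.one (nat_lit 0x800c00d000001001801b400)) (.one (nat_lit 0x800c00e000001001801d400))))) (.br (Nat.shiftLeft (nat_lit 0x800c011) (nat_lit 64)) (.br (Nat.shiftLeft (nat_lit 0x800c01) (nat_lit 68)) (.one (nat_lit 0x800c00f000001001801f400)) (.one (nat_lit 0x800c0100000010018021400))) (.br (Nat.shiftLeft (nat_lit 0x1) (nat_lit 100)) (.one (nat_lit 0x800c0110000010018023400)) (.br (Nat.shiftLeft (nat_lit 0x100800b017) (nat_lit 64)) (.one (nat_lit 0x100800b016000201001602c540)) (.one (nat_lit 0x100800b017000201001602e540))))))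
def t379 : k379.all (jb2 57 fl b0) = true := by decide +kernel
noncomputable def k380 : KT := (.one (nat_lit 0x100800b0180002010016030540))
def t380 : k380.all (jb2 57 fl b0) = true := by decide +kernel
noncomputable def k381 : KT := (.one (nat_lit 0x200800b016000401001602c540))
def t381 : k381.all (jb2 57 fl b0) = true := by decide +kernel
noncomputable def k382 : KT := (.one (nat_lit 0x200800b017000401001602e540))
def t382 : k382.all (jb2 57 fl b0) = true := by decide +kernel
noncomputable def k383 : KT := (.br (Nat.shiftLeft (nat_lit 0x3) (nat_lit 100)) (.one (nat_lit 0x200800b0180004010016030540)) (.one (nat_lit 0x300800b016000601001602d500)))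
def t383 : k383.all (jb2 57 fl b0) = true := by decide +kernel
noncomputable def k384 : KT := (.one (nat_lit 0x300800b017000601001602e540))
def t384 : k384.all (jb2 57 fl b0) = true := by decide +kernel
noncomputable def k385 : KT := (.br (Nat.shiftLeft (nat_lit 0x1) (nat_lit 102)) (.one (nat_lit 0x300800b0180006010016030540)) (.one (nat_lit 0x400800b016000801001602d500)))
def t385 : k385.all (jb2 57 fl b0) = true := by decide +kernel
noncomputable def k386 : KT := (.one (nat_lit 0x400800b017000801001602e540))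
def t386 : k386.all (jb2 57 fl b0) = true := by decide +kernel
noncomputable def k387 : KT := (.one (nat_lit 0x400800b0180008010016030540))
def t387 : k387.all (jb2 57 fl b0) = true := by decide +kernel
noncomputable def k388 : KT := (.one (nat_lit 0x500800b016000a01001602c540))
def t388 : k388.all (jb2 57 fl b0) = true := by decide +kernel
noncomputable def k389 : KT := (.one (nat_lit 0x500800b017000a01001602e540))
def t389 : k389.all (jb2 57 fl b0) = true := by decide +kernel
noncomputable def k390 : KT := (.one (nat_lit 0x500800b018000a010016030540))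
def t390 : k390.all (jb2 57 fl b0) = true := by decide +kernel
noncomputable def k391 : KT := (.one (nat_lit 0x600800b016000c01001602c540))
def t391 : k391.all (jb2 57 fl b0) = true := by decide +kernel
noncomputable def k392 : KT := (.br (Nat.shiftLeft (nat_lit 0xc01001603) (nat_lit 67)) (.one (nat_lit 0x600800b017000c01001602e540)) (.one (nat_lit 0x600800b018000c010016030540)))
def t392 : k392.all (jb2 57 fl b0) = true := by decide +kernel
noncomputable def k393 : KT := (.br (Nat.shiftLeft (nat_lit 0x700800b017) (nat_lit 64)) (.one (nat_lit 0x700800b016000e01001602c540)) (.one (nat_lit 0x700800b017000e01001602e540)))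
def t393 : k393.all (jb2 57 fl b0) = true := by decide +kernel
noncomputable def k394 : KT := (.br (Nat.shiftLeft (nat_lit 0x801) (nat_lit 101)) (.br (Nat.shiftLeft (nat_lit 0x100000800b017) (nat_lit 64)) (.br (Nat.shiftLeft (nat_lit 0x1) (nat_lit 112)) (.one (nat_lit 0x700800b018000e010016030540)) (.one (nat_lit 0x100000800b016200001001602c411))) (.br (Nat.shiftLeft (nat_lit 0x200001001603) (nat_lit 67)) (.one (nat_lit 0x100000800b017200001001602e411)) (.one (nat_lit 0x100000800b0182000010016030411)))) (.br (Nat.shiftLeft (nat_lit 0x1) (nat_lit 113)) (.br (Nat.shiftLeft (nat_lit 0x401) (nat_lit 102)) (.one (nat_lit 0x100300800b016200601001602c650)) (.one (nat_lit 0x100400800b016200801001602c650))) (.br (Nat.shiftLeft (nat_lit 0x200000800b017) (nat_lit 64)) (.one (nat_lit 0x200000800b016400001001602c411)) (.br (Nat.shiftLeft (nat_lit 0x400001001603) (nat_lit 67)) (.one (nat_lit 0x200000800b017400001001602e411)) (.one (nat_lit 0x200000800b0184000010016030411))))))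
def t394 : k394.all (jb2 57 fl b0) = true := by decide +kernel
noncomputable def k395 : KT := (.br (Nat.shiftLeft (nat_lit 0x600001001603) (nat_lit 67)) (.br (Nat.shiftLeft (nat_lit 0x3) (nat_lit 112)) (.br (Nat.shiftLeft (nat_lit 0x801) (nat_lit 102)) (.one (nat_lit 0x200300800b016400601001602c650)) (.one (nat_lit 0x200400800b016400801001602c650))) (.br (Nat.shiftLeft (nat_lit 0x300000800b017) (nat_lit 64)) (.one (nat_lit 0x300000800b016600001001602c411)) (.one (nat_lit 0x300000800b017600001001602e411)))) (.br (Nat.shiftLeft (nat_lit 0x1) (nat_lit 114)) (.br (Nat.shiftLeft (nat_lit 0xc01) (nat_lit 102)) (.one (nat_lit 0x300000800b0186000010016030411)) (.one (nat_lit 0x300400800b016600801001602c650))) (.br (Nat.shiftLeft (nat_lit 0x400000800b017) (nat_lit 64)) (.one (nat_lit 0x400000800b016800001001602c411)) (.one (nat_lit 0x400000800b017800001001602e411)))))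
def t395 : k395.all (jb2 57 fl b0) = true := by decide +kernel
noncomputable def k396 : KT := (.br (Nat.shiftLeft (nat_lit 0x1200001001603) (nat_lit 67)) (.br (Nat.shiftLeft (nat_lit 0x7) (nat_lit 112)) (.br (Nat.shiftLeft (nat_lit 0xa00001001603) (nat_lit 67)) (.br (Nat.shiftLeft (nat_lit 0x5) (nat_lit 112)) (.one (nat_lit 0x400000800b0188000010016030411)) (.br (Nat.shiftLeft (nat_lit 0x500000800b017) (nat_lit 64)) (.one (nat_lit 0x500000800b016a00001001602c411)) (.one (nat_lit 0x500000800b017a00001001602e411)))) (.br (Nat.shiftLeft (nat_lit 0x600000800b017) (nat_lit 64)) (.br (Nat.shiftLeft (nat_lit 0x3) (nat_lit 113)) (.one (nat_lit 0x500000800b018a000010016030411)) (.one (nat_lit 0x600000800b016c00001001602c411))) (.br (Nat.shiftLeft (nat_lit 0xc00001001603) (nat_lit 67)) (.one (nat_lit 0x600000800b017c00001001602e411)) (.one (nat_lit 0x600000800b018c000010016030411))))) (.br (Nat.shiftLeft (nat_lit 0x800000800b017) (nat_lit 64)) (.br (Nat.shiftLeft (nat_lit 0xe00001001603) (nat_lit 67)) (.br (Nat.shiftLeft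 (nat_lit 0x700000800b017) (nat_lit 64)) (.one (nat_lit 0x700000800b016e00001001602c411)) (.one (nat_lit 0x700000800b017e00001001602e411))) (.br (Nat.shiftLeft (nat_lit 0x1) (nat_lit 115)) (.one (nat_lit 0x700000800b018e000010016030411)) (.one (nat_lit 0x800000800b016000001001612e411)))) (.br (Nat.shiftLeft (nat_lit 0x9) (nat_lit 112)) (.br (Nat.shiftLeft (nat_lit 0x1000001001603) (nat_lit 67)) (.one (nat_lit 0x800000800b0170000010016130411)) (.one (nat_lit 0x800000800b0180000010016132411))) (.br (Nat.shiftLeft (nat_lit 0x900000800b017) (nat_lit 64)) (.one (nat_lit 0x900000800b016200001001612e411)) (.one (nat_lit 0x900000800b0172000010016130411)))))) (.br (Nat.shiftLeft (nat_lit 0x400001) (nat_lit 102)) (.br (Nat.shiftLeft (nat_lit 0xb) (nat_lit 112)) (.br (Nat.shiftLeft (nat_lit 0xa00000800b017) (nat_lit 64)) (.br (Nat.shiftLeft (nat_lit 0x5) (nat_lit 113)) (.one (nat_lit 0x900000800b0182000010016132411)) (.one (nat_lit 0xa00000800b016400001001612e411))) (.br (Nat.shiftLeft (nat_lit 0x1400001001603) (nat_lit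 67)) (.one (nat_lit 0xa00000800b0174000010016130411)) (.one (nat_lit 0xa00000800b0184000010016132411)))) (.br (Nat.shiftLeft (nat_lit 0x1600001001603) (nat_lit 67)) (.br (Nat.shiftLeft (nat_lit 0xb00000800b017) (nat_lit 64)) (.one (nat_lit 0xb00000800b016600001001612e411)) (.one (nat_lit 0xb00000800b0176000010016130411))) (.br (Nat.shiftLeft (nat_lit 0x1) (nat_lit 124)) (.one (nat_lit 0xb00000800b0186000010016132411)) (.one (nat_lit 0x100000300800b016000601003642c511))))) (.br (Nat.shiftLeft (nat_lit 0xc00001) (nat_lit 102)) (.br (Nat.shiftLeft (nat_lit 0x800001) (nat_lit 102)) (.br (Nat.shiftLeft (nat_lit 0x1) (nat_lit 125)) (.one (nat_lit 0x100000400800b016000801003642c511)) (.one (nat_lit 0x200000300800b016000601005682c511))) (.br (Nat.shiftLeft (nat_lit 0x3) (nat_lit 124)) (.one (nat_lit 0x200000400800b016000801005682c511)) (.one (nat_lit 0x300000300800b0160006010076c2c511)))) (.br (Nat.shiftLeft (nat_lit 0x1000001) (nat_lit 102)) (.br (Nat.shiftLeft (nat_lit 0x1) (nat_lit 126)) (.one (nat_lit 0x300000400800b0160008010076c2c511))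 (.one (nat_lit 0x400000300800b016000601009702c511))) (.br (Nat.shiftLeft (nat_lit 0x5) (nat_lit 124)) (.one (nat_lit 0x400000400800b016000801009702c511)) (.one (nat_lit 0x500000300800b01600060100b742c511)))))))
def t396 : k396.all (jb2 57 fl b0) = true := by decide +kernel
noncomputable def k397 : KT := (.br (Nat.shiftLeft (nat_lit 0x2000001) (nat_lit 102)) (.br (Nat.shiftLeft (nat_lit 0x7) (nat_lit 124)) (.br (Nat.shiftLeft (nat_lit 0x3) (nat_lit 125)) (.one (nat_lit 0x500000400800b01600080100b742c511)) (.br (Nat.shiftLeft (nat_lit 0x1800001) (nat_lit 102)) (.one (nat_lit 0x600000300800b01600060100d782c511)) (.one (nat_lit 0x600000400800b01600080100d782c511)))) (.br (Nat.shiftLeft (nat_lit 0x1c00001) (nat_lit 102)) (.one (nat_lit 0x700000300800b01600060100f7c2c511)) (.br (Nat.shiftLeft (nat_lit 0x1) (nat_lit 127)) (.one (nat_lit 0x700000400800b01600080100f7c2c511)) (.one (nat_lit 0x800000300800b016000601011802c511))))) (.br (Nat.shiftLeft (nat_lit 0x5) (nat_lit 125)) (.br (Nat.shiftLeft (nat_lit 0x9) (nat_lit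 124)) (.one (nat_lit 0x800000400800b016000801011802c511)) (.br (Nat.shiftLeft (nat_lit 0x2400001) (nat_lit 102)) (.one (nat_lit 0x900000300800b016000601013842c511)) (.one (nat_lit 0x900000400800b016000801013842c511)))) (.br (Nat.shiftLeft (nat_lit 0xb) (nat_lit 124)) (.br (Nat.shiftLeft (nat_lit 0x2800001) (nat_lit 102)) (.one (nat_lit 0xa00000300800b016000601015882c511)) (.one (nat_lit 0xa00000400800b016000801015882c511))) (.br (Nat.shiftLeft (nat_lit 0x2c00001) (nat_lit 102)) (.one (nat_lit 0xb00000300800b0160006010178c2c511)) (.one (nat_lit 0xb00000400800b0160008010178c2c511))))))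
def t397 : k397.all (jb2 57 fl b0) = true := by decide +kernel
noncomputable def s18 : KT := (.br (nat_lit 0x400800b0180008010016030540) (.br (nat_lit 0x200800b017000401001602e540) (.br (nat_lit 0x100800b0180002010016030540) (.br (nat_lit 0x100800b017000201001602e540) k379 k380) (.br (nat_lit 0x200800b016000401001602c540) k381 k382)) (.br (nat_lit 0x300800b017000601001602e540) (.br (nat_lit 0x300800b016000601001602d500) k383 k384) (.br (nat_lit 0x400800b016000801001602d500) k385 (.br (nat_lit 0x400800b017000801001602e540) k386 k387)))) (.br (nat_lit 0x600800b018000c010016030540) (.br (nat_lit 0x500800b017000a01001602e540) (.br (nat_lit 0x500800b016000a01001602c540) k388 k389) (.br (nat_lit 0x500800b018000a010016030540) k390 (.br (nat_lit 0x600800b016000c01001602c540) k391 k392))) (.br (nat_lit 0x200000800b0184000010016030411) (.br (nat_lit 0x700800b017000e01001602e540) k393 k394) (.br (nat_lit 0x400000800b017800001001602e411) k395 (.br (nat_lit 0x500000300800b01600060100b742c511) k396 k397)))))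
noncomputable def u18 : KT := (.br (Nat.shiftLeft (nat_lit 0x4006007) (nat_lit 65)) (.br (Nat.shiftLeft (nat_lit 0x1001603) (nat_lit 67)) (.br (Nat.shiftLeft (nat_lit 0x800b017) (nat_lit 64)) (.one (nat_lit 0x800b016000001001602c430)) (.one (nat_lit 0x800b017000001001602e430))) (.br (Nat.shiftLeft (nat_lit 0x2003) (nat_lit 78)) (.one (nat_lit 0x800b0180000010016030430)) (.one (nat_lit 0x800c00d000001001801b400)))) (.br (Nat.shiftLeft (nat_lit 0x800c01) (nat_lit 68)) (.br (Nat.shiftLeft (nat_lit 0x800c00f) (nat_lit 64)) (.one (nat_lit 0x800c00e000001001801d400)) (.one (nat_lit 0x800c00f000001001801f400))) (.br (Nat.shiftLeft (nat_lit 0x800c011) (nat_lit 64)) (.one (nat_lit 0x800c0100000010018021400)) (.one (nat_lit 0x800c0110000010018023400)))))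
def w18 : u18.all (wj 57 s18) = true := by decide +kernel
def o18 : OkW 57 (jb2 57 fl) u18 := .lift s18 _ (.br _ _ _ (.br _ _ _ (.br _ _ _ (.br _ _ _ (.leaf b0 k379 t379) (.leaf b0 k380 t380)) (.br _ _ _ (.leaf b0 k381 t381) (.leaf b0 k382 t382))) (.br _ _ _ (.br _ _ _ (.leaf b0 k383 t383) (.leaf b0 k384 t384)) (.br _ _ _ (.leaf b0 k385 t385) (.br _ _ _ (.leaf b0 k386 t386) (.leaf b0 k387 t387))))) (.br _ _ _ (.br _ _ _ (.br _ _ _ (.leaf b0 k388 t388) (.leaf b0 k389 t389)) (.br _ _ _ (.leaf b0 k390 t390) (.br _ _ _ (.leaf b0 k391 t391) (.leaf b0 k392 t392)))) (.br _ _ _ (.br _ _ _ (.leaf b0 k393 t393) (.leaf b0 k394 t394)) (.br _ _ _ (.leaf b0 k395 t395) (.br _ _ _ (.leaf b0 k396 t396) (.leaf b0 k397 t397)))))) w18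
noncomputable def k : KT := (.br (nat_lit 0x80090130000010012027400) (.br (nat_lit 0x700e013000000e01c026430) (.br (nat_lit 0x700e010000000e01c020430) (.br (nat_lit 0x700e00f000000e01c01f400) u0 u1) (.br (nat_lit 0x700e011000000e01c022430) u2 u3)) (.br (nat_lit 0x700f010000000e01e020430) (.br (nat_lit 0x700e016000000e01c02c430) u4 u5) (.br (nat_lit 0x700f012000000e01e024430) u6 (.br (nat_lit 0x7010011000000e020022430) u7 u8)))) (.br (nat_lit 0x800a0140000010014028430) (.br (nat_lit 0x8009015000001001202a430) (.br (nat_lit 0x80090140000010012028430) u9 u10) (.br (nat_lit 0x8009017000001001202e430) u11 (.br (nat_lit 0x800a0130000010014027400) u12 u13))) (.br (nat_lit 0x800b0120000010016025400) (.br (nat_lit 0x800a016000001001402c430) u14 u15) (.br (nat_lit 0x800b0130000010016026430) u16 (.br (nat_lit 0x800b015000001001602a430) u17 u18)))))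
theorem ok : OkW 57 (jb2 57 fl) k := (.br _ _ _ (.br _ _ _ (.br _ _ _ (.br _ _ _ o0 o1) (.br _ _ _ o2 o3)) (.br _ _ _ (.br _ _ _ o4 o5) (.br _ _ _ o6 (.br _ _ _ o7 o8)))) (.br _ _ _ (.br _ _ _ (.br _ _ _ o9 o10) (.br _ _ _ o11 (.br _ _ _ o12 o13))) (.br _ _ _ (.br _ _ _ o14 o15) (.br _ _ _ o16 (.br _ _ _ o17 o18)))))

end Pool.Agent.Lib.MP_ed43e6_ag.Q.Y57.R13
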