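import Pool.Agent.Lib.MP_ed43e6_ag.Y57.Fl

namespace Pool.Agent.Lib.MP_ed43e6_ag.Q.Y57.R14

set_option linter.defProp false

noncomputable def b0 : BT := .node (nat_lit 1) (nat_lit 0) .leaf .leaf
noncomputable def k0 : KT := (.br (Nat.shiftLeft (nat_lit 0x5) (nat_lit 100)) (.br (Nat.shiftLeft (nat_lit 0x1) (nat_lit 101)) (.br (Nat.shiftLeft (nat_lit 0x1) (nat_lit 100)) (.one (nat_lit 0x800c0120000010018025400)) (.one (nat_lit 0x100800c0120002010018025500))) (.br (Nat.shiftLeft (nat_lit 0x3) (nat_lit 100)) (.one (nat_lit 0x200800c0120004010018025500)) (.br (Nat.shiftLeft (nat_lit 0x1) (nat_lit 102)) (.one (nat_lit 0x300800c0120006010018025500)) (.one (nat_lit 0x400800c0120008010018025500))))) (.br (Nat.shiftLeft (nat_lit 0x1) (nat_lit 112)) (.br (Nat.shiftLeft (nat_lit 0x3) (nat_lit 101)) (.one (nat_lit 0x500800c012000a010018025500)) (.br (Nat.shiftLeft (nat_lit 0x7) (nat_lit 100)) (.one (nat_lit 0x600800c012000c010018025500)) (.one (nat_lit 0x700800c012000e010018025500)))) (.br (Nat.shiftLeft (nat_lit 0x801) (nat_lit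 101)) (.one (nat_lit 0x100000800c0122000010018024411)) (.br (Nat.shiftLeft (nat_lit 0x1003) (nat_lit 100)) (.one (nat_lit 0x100200800c0122004010018025600)) (.one (nat_lit 0x100300800c0122006010018024650))))))
def t0 : k0.all (jb2 57 fl b0) = true := by decide +kernel
noncomputable def k1 : KT := (.one (nat_lit 0x100400800c0122008010018024650))
def t1 : k1.all (jb2 57 fl b0) = true := by decide +kernel
noncomputable def k2 : KT := (.br (Nat.shiftLeft (nat_lit 0x1007) (nat_lit 100)) (.br (Nat.shiftLeft (nat_lit 0x803) (nat_lit 101)) (.one (nat_lit 0x100500800c012200a010018024650)) (.one (nat_lit 0x100600800c012200c010018024650))) (.br (Nat.shiftLeft (nat_lit 0x1) (nat_lit 113)) (.one (nat_lit 0x100700800c012200e010018024650)) (.br (Nat.shiftLeft (nat_lit 0x1001) (nat_lit 101)) (.one (nat_lit 0x200000800c0124000010018024411)) (.one (nat_lit 0x200300800c0124006010018025600)))))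
def t2 : k2.all (jb2 57 fl b0) = true := by decide +kernel
noncomputable def k3 : KT := (.one (nat_lit 0x200400800c0124008010018024650))
def t3 : k3.all (jb2 57 fl b0) = true := by decide +kernel
noncomputable def k4 : KT := (.br (Nat.shiftLeft (nat_lit 0x1003) (nat_lit 101)) (.one (nat_lit 0x200500800c012400a010018024650)) (.one (nat_lit 0x200600800c012400c010018024650)))
def t4 : k4.all (jb2 57 fl b0) = true := by decide +kernel
noncomputable def k5 : KT := (.br (Nat.shiftLeft (nat_lit 0x3) (nat_lit 112)) (.one (nat_lit 0x200700800c012400e010018024650)) (.one (nat_lit 0x300000800c0126000010018024411)))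
def t5 : k5.all (jb2 57 fl b0) = true := by decide +kernel
noncomputable def k6 : KT := (.one (nat_lit 0x300400800c0126008010018024650))
def t6 : k6.all (jb2 57 fl b0) = true := by decide +kernel
noncomputable def k7 : KT := (.br (Nat.shiftLeft (nat_lit 0x1803) (nat_lit 101)) (.one (nat_lit 0x300500800c012600a010018024650)) (.one (nat_lit 0x300600800c012600c010018024650)))
def t7 : k7.all (jb2 57 fl b0) = true := by decide +kernel
noncomputable def k8 : KT := (.br (Nat.shiftLeft (nat_lit 0x1) (nat_lit 114)) (.one (nat_lit 0x300700800c012600e010018024650)) (.br (Nat.shiftLeft (nat_lit 0x1001) (nat_lit 102)) (.one (nat_lit 0x400000800c0128000010018024411)) (.one (nat_lit 0x400500800c012800a010018024650))))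
def t8 : k8.all (jb2 57 fl b0) = true := by decide +kernel
noncomputable def k9 : KT := (.br (Nat.shiftLeft (nat_lit 0x5) (nat_lit 112)) (.br (Nat.shiftLeft (nat_lit 0x4007) (nat_lit 100)) (.one (nat_lit 0x400600800c012800c010018024650)) (.one (nat_lit 0x400700800c012800e010018024650))) (.br (Nat.shiftLeft (nat_lit 0x1401) (nat_lit 102)) (.one (nat_lit 0x500000800c012a000010018024411)) (.one (nat_lit 0x500600800c012a00c010018024650))))
def t9 : k9.all (jb2 57 fl b0) = true := by decide +kernel
noncomputable def k10 : KT := (.br (Nat.shiftLeft (nat_lit 0x3) (nat_lit 114)) (.br (Nat.shiftLeft (nat_lit 0x1) (nat_lit 115)) (.br (Nat.shiftLeft (nat_lit 0x1801) (nat_lit 102)) (.br (Nat.shiftLeft (nat_lit 0x3) (nat_lit 113)) (.one (nat_lit 0x500700800c012a00e010018024650)) (.one (nat_lit 0x600000800c012c000010018024411))) (.br (Nat.shiftLeft (nat_lit 0x7) (nat_lit 112)) (.one (nat_lit 0x600700800c012c00e010018024650)) (.one (nat_lit 0x700000800c012e000010018024411)))) (.br (Nat.shiftLeft (nat_lit 0x5) (nat_lit 113)) (.br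 (Nat.shiftLeft (nat_lit 0x9) (nat_lit 112)) (.one (nat_lit 0x800000800c0120000010018126411)) (.one (nat_lit 0x900000800c0122000010018126411))) (.br (Nat.shiftLeft (nat_lit 0xb) (nat_lit 112)) (.one (nat_lit 0xa00000800c0124000010018126411)) (.one (nat_lit 0xb00000800c0126000010018126411))))) (.br (Nat.shiftLeft (nat_lit 0x400001) (nat_lit 102)) (.br (Nat.shiftLeft (nat_lit 0x800001) (nat_lit 101)) (.br (Nat.shiftLeft (nat_lit 0x1) (nat_lit 124)) (.one (nat_lit 0xc00000800c0128000010018126411)) (.one (nat_lit 0x100000100800c0120002010038424511))) (.br (Nat.shiftLeft (nat_lit 0x1000003) (nat_lit 100)) (.one (nat_lit 0x100000200800c0120004010038424511)) (.one (nat_lit 0x100000300800c0120006010038424511)))) (.br (Nat.shiftLeft (nat_lit 0x800003) (nat_lit 101)) (.br (Nat.shiftLeft (nat_lit 0x1000005) (nat_lit 100)) (.one (nat_lit 0x100000400800c0120008010038424511)) (.one (nat_lit 0x100000500800c012000a010038424511))) (.br (Nat.shiftLeft (nat_lit 0x1000007) (nat_lit 100)) (.one (nat_lit 0x100000600800c012000c010038424511))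 (.one (nat_lit 0x100000700800c012000e010038424511))))))
noncomputable def b11 : BT := .node (nat_lit 0x1) (nat_lit 0x4ea4b21458004259000ac6c10008700028) .leaf .leaf
def t10 : k10.all (jb2 57 fl b11) = true := by decide +kernel
noncomputable def k11 : KT := (.br (Nat.shiftLeft (nat_lit 0x3000003) (nat_lit 100)) (.br (Nat.shiftLeft (nat_lit 0x2000005) (nat_lit 100)) (.br (Nat.shiftLeft (nat_lit 0x1000001) (nat_lit 101)) (.br (Nat.shiftLeft (nat_lit 0x1) (nat_lit 125)) (.one (nat_lit 0x100200300800c0124006010038424760)) (.one (nat_lit 0x200000100800c0120002010058824511))) (.br (Nat.shiftLeft (nat_lit 0x2000003) (nat_lit 100)) (.one (nat_lit 0x200000200800c0120004010058824511)) (.br (Nat.shiftLeft (nat_lit 0x800001) (nat_lit 102)) (.one (nat_lit 0x200000300800c0120006010058824511)) (.one (nat_lit 0x200000400800c0120008010058824511))))) (.br (Nat.shiftLeft (nat_lit 0x2000007) (nat_lit 100)) (.br (Nat.shiftLeft (nat_lit 0x1000003) (nat_lit 101)) (.one (nat_lit 0x200000500800c012000a010058824511)) (.one (nat_lit 0x200000600800c012000c010058824511)))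 (.br (Nat.shiftLeft (nat_lit 0x3) (nat_lit 124)) (.one (nat_lit 0x200000700800c012000e010058824511)) (.br (Nat.shiftLeft (nat_lit 0x1800001) (nat_lit 101)) (.one (nat_lit 0x300000100800c0120002010078c24511)) (.one (nat_lit 0x300000200800c0120004010078c24511)))))) (.br (Nat.shiftLeft (nat_lit 0x1) (nat_lit 126)) (.br (Nat.shiftLeft (nat_lit 0x3000005) (nat_lit 100)) (.br (Nat.shiftLeft (nat_lit 0xc00001) (nat_lit 102)) (.one (nat_lit 0x300000300800c0120006010078c24511)) (.one (nat_lit 0x300000400800c0120008010078c24511))) (.br (Nat.shiftLeft (nat_lit 0x1800003) (nat_lit 101)) (.one (nat_lit 0x300000500800c012000a010078c24511)) (.br (Nat.shiftLeft (nat_lit 0x3000007) (nat_lit 100)) (.one (nat_lit 0x300000600800c012000c010078c24511)) (.one (nat_lit 0x300000700800c012000e010078c24511))))) (.br (Nat.shiftLeft (nat_lit 0x4000003) (nat_lit 100)) (.br (Nat.shiftLeft (nat_lit 0x2000001) (nat_lit 101)) (.one (nat_lit 0x400000100800c0120002010099024511)) (.one (nat_lit 0x400000200800c0120004010099024511))) (.br (Nat.shiftLeft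 (nat_lit 0x1000001) (nat_lit 102)) (.one (nat_lit 0x400000300800c0120006010099024511)) (.br (Nat.shiftLeft (nat_lit 0x4000005) (nat_lit 100)) (.one (nat_lit 0x400000400800c0120008010099024511)) (.one (nat_lit 0x400000500800c012000a010099024511)))))))
def t11 : k11.all (jb2 57 fl b0) = true := by decide +kernel
noncomputable def k12 : KT := (.br (Nat.shiftLeft (nat_lit 0x1400001) (nat_lit 102)) (.br (Nat.shiftLeft (nat_lit 0x5) (nat_lit 124)) (.br (Nat.shiftLeft (nat_lit 0x4000007) (nat_lit 100)) (.one (nat_lit 0x400000600800c012000c010099024511)) (.one (nat_lit 0x400000700800c012000e010099024511))) (.br (Nat.shiftLeft (nat_lit 0x2800001) (nat_lit 101)) (.one (nat_lit 0x500000100800c01200020100b9424511)) (.br (Nat.shiftLeft (nat_lit 0x5000003) (nat_lit 100)) (.one (nat_lit 0x500000200800c01200040100b9424511)) (.one (nat_lit 0x500000300800c01200060100b9424511))))) (.br (Nat.shiftLeft (nat_lit 0x2800003) (nat_lit 101)) (.br (Nat.shiftLeft (nat_lit 0x5000005) (nat_lit 100)) (.one (nat_lit 0x500000400800c01200080100b9424511))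 (.one (nat_lit 0x500000500800c012000a0100b9424511))) (.br (Nat.shiftLeft (nat_lit 0x5000007) (nat_lit 100)) (.one (nat_lit 0x500000600800c012000c0100b9424511)) (.br (Nat.shiftLeft (nat_lit 0x3) (nat_lit 125)) (.one (nat_lit 0x500000700800c012000e0100b9424511)) (.one (nat_lit 0x600000100800c01200020100d9824511))))))
def t12 : k12.all (jb2 57 fl b0) = true := by decide +kernel
noncomputable def k13 : KT := (.br (Nat.shiftLeft (nat_lit 0x6000005) (nat_lit 100)) (.br (Nat.shiftLeft (nat_lit 0x6000003) (nat_lit 100)) (.one (nat_lit 0x600000200800c01200040100d9824511)) (.br (Nat.shiftLeft (nat_lit 0x1800001) (nat_lit 102)) (.one (nat_lit 0x600000300800c01200060100d9824511)) (.one (nat_lit 0x600000400800c01200080100d9824511)))) (.br (Nat.shiftLeft (nat_lit 0x6000007) (nat_lit 100)) (.br (Nat.shiftLeft (nat_lit 0x3000003) (nat_lit 101)) (.one (nat_lit 0x600000500800c012000a0100d9824511)) (.one (nat_lit 0x600000600800c012000c0100d9824511))) (.br (Nat.shiftLeft (nat_lit 0x7) (nat_lit 124)) (.one (nat_lit 0x600000700800c012000e0100d9824511))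 (.one (nat_lit 0x700000100800c01200020100f9c24511)))))
def t13 : k13.all (jb2 57 fl b0) = true := by decide +kernel
noncomputable def k14 : KT := (.br (Nat.shiftLeft (nat_lit 0x7000005) (nat_lit 100)) (.br (Nat.shiftLeft (nat_lit 0x7000003) (nat_lit 100)) (.one (nat_lit 0x700000200800c01200040100f9c24511)) (.br (Nat.shiftLeft (nat_lit 0x1c00001) (nat_lit 102)) (.one (nat_lit 0x700000300800c01200060100f9c24511)) (.one (nat_lit 0x700000400800c01200080100f9c24511)))) (.br (Nat.shiftLeft (nat_lit 0x7000007) (nat_lit 100)) (.br (Nat.shiftLeft (nat_lit 0x3800003) (nat_lit 101)) (.one (nat_lit 0x700000500800c012000a0100f9c24511)) (.one (nat_lit 0x700000600800c012000c0100f9c24511))) (.br (Nat.shiftLeft (nat_lit 0x1) (nat_lit 127)) (.one (nat_lit 0x700000700800c012000e0100f9c24511)) (.one (nat_lit 0x800000100800c012000201011a024511)))))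
def t14 : k14.all (jb2 57 fl b0) = true := by decide +kernel
noncomputable def k15 : KT := (.br (Nat.shiftLeft (nat_lit 0x4000003) (nat_lit 101)) (.br (Nat.shiftLeft (nat_lit 0x2000001) (nat_lit 102)) (.br (Nat.shiftLeft (nat_lit 0x8000003) (nat_lit 100)) (.one (nat_lit 0x800000200800c012000401011a024511)) (.one (nat_lit 0x800000300800c012000601011a024511))) (.br (Nat.shiftLeft (nat_lit 0x8000005) (nat_lit 100)) (.one (nat_lit 0x800000400800c012000801011a024511)) (.one (nat_lit 0x800000500800c012000a01011a024511)))) (.br (Nat.shiftLeft (nat_lit 0x9) (nat_lit 124)) (.br (Nat.shiftLeft (nat_lit 0x8000007) (nat_lit 100)) (.one (nat_lit 0x800000600800c012000c01011a024511)) (.one (nat_lit 0x800000700800c012000e01011a024511))) (.br (Nat.shiftLeft (nat_lit 0x4800001) (nat_lit 101)) (.one (nat_lit 0x900000100800c012000201013a424511)) (.one (nat_lit 0x900000200800c012000401013a424511)))))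
def t15 : k15.all (jb2 57 fl b0) = true := by decide +kernel
noncomputable def k16 : KT := (.br (Nat.shiftLeft (nat_lit 0xb) (nat_lit 124)) (.br (Nat.shiftLeft (nat_lit 0x5000001) (nat_lit 101)) (.br (Nat.shiftLeft (nat_lit 0x4800003) (nat_lit 101)) (.br (Nat.shiftLeft (nat_lit 0x2400001) (nat_lit 102)) (.one (nat_lit 0x900000300800c012000601013a424511)) (.br (Nat.shiftLeft (nat_lit 0x9000005) (nat_lit 100)) (.one (nat_lit 0x900000400800c012000801013a424511)) (.one (nat_lit 0x900000500800c012000a01013a424511)))) (.br (Nat.shiftLeft (nat_lit 0x9000007) (nat_lit 100)) (.one (nat_lit 0x900000600800c012000c01013a424511)) (.br (Nat.shiftLeft (nat_lit 0x5) (nat_lit 125)) (.one (nat_lit 0x900000700800c012000e01013a424511)) (.one (nat_lit 0xa00000100800c012000201015a824511))))) (.br (Nat.shiftLeft (nat_lit 0xa000005) (nat_lit 100)) (.br (Nat.shiftLeft (nat_lit 0xa000003) (nat_lit 100)) (.one (nat_lit 0xa00000200800c012000401015a824511)) (.br (Nat.shiftLeft (nat_lit 0x2800001) (nat_lit 102)) (.one (nat_lit 0xa00000300800c012000601015a824511))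 (.one (nat_lit 0xa00000400800c012000801015a824511)))) (.br (Nat.shiftLeft (nat_lit 0x5000003) (nat_lit 101)) (.one (nat_lit 0xa00000500800c012000a01015a824511)) (.br (Nat.shiftLeft (nat_lit 0xa000007) (nat_lit 100)) (.one (nat_lit 0xa00000600800c012000c01015a824511)) (.one (nat_lit 0xa00000700800c012000e01015a824511)))))) (.br (Nat.shiftLeft (nat_lit 0xb000007) (nat_lit 100)) (.br (Nat.shiftLeft (nat_lit 0x2c00001) (nat_lit 102)) (.br (Nat.shiftLeft (nat_lit 0x5800001) (nat_lit 101)) (.one (nat_lit 0xb00000100800c012000201017ac24511)) (.br (Nat.shiftLeft (nat_lit 0xb000003) (nat_lit 100)) (.one (nat_lit 0xb00000200800c012000401017ac24511)) (.one (nat_lit 0xb00000300800c012000601017ac24511)))) (.br (Nat.shiftLeft (nat_lit 0xb000005) (nat_lit 100)) (.one (nat_lit 0xb00000400800c012000801017ac24511)) (.br (Nat.shiftLeft (nat_lit 0x5800003) (nat_lit 101)) (.one (nat_lit 0xb00000500800c012000a01017ac24511)) (.one (nat_lit 0xb00000600800c012000c01017ac24511))))) (.br (Nat.shiftLeft (nat_lit 0xc000003) (nat_lit 100)) (.br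 (Nat.shiftLeft (nat_lit 0x3) (nat_lit 126)) (.one (nat_lit 0xb00000700800c012000e01017ac24511)) (.br (Nat.shiftLeft (nat_lit 0x6000001) (nat_lit 101)) (.one (nat_lit 0xc00000100800c012000201019b024511)) (.one (nat_lit 0xc00000200800c012000401019b024511)))) (.br (Nat.shiftLeft (nat_lit 0x3000001) (nat_lit 102)) (.one (nat_lit 0xc00000300800c012000601019b024511)) (.br (Nat.shiftLeft (nat_lit 0xc000005) (nat_lit 100)) (.one (nat_lit 0xc00000400800c012000801019b024511)) (.one (nat_lit 0xc00000500800c012000a01019b024511)))))))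
def t16 : k16.all (jb2 57 fl b0) = true := by decide +kernel
noncomputable def k17 : KT := (.br (Nat.shiftLeft (nat_lit 0x1800001) (nat_lit 113)) (.br (Nat.shiftLeft (nat_lit 0x800001) (nat_lit 113)) (.br (Nat.shiftLeft (nat_lit 0xc000007) (nat_lit 100)) (.one (nat_lit 0xc00000600800c012000c01019b024511)) (.br (Nat.shiftLeft (nat_lit 0x1) (nat_lit 136)) (.one (nat_lit 0xc00000700800c012000e01019b024511)) (.one (nat_lit 0x100000100200800c0122004030418024611)))) (.br (Nat.shiftLeft (nat_lit 0x1000001) (nat_lit 113)) (.br (Nat.shiftLeft (nat_lit 0x1) (nat_lit 137)) (.one (nat_lit 0x100000200300800c0124006030418024611)) (.one (nat_lit 0x200000100200800c0122004050818024611))) (.br (Nat.shiftLeft (nat_lit 0x3) (nat_lit 136)) (.one (nat_lit 0x200000200300800c0124006050818024611)) (.one (nat_lit 0x300000100200800c0122004070c18024611))))) (.br (Nat.shiftLeft (nat_lit 0x5) (nat_lit 136)) (.br (Nat.shiftLeft (nat_lit 0x1) (nat_lit 138)) (.one (nat_lit 0x300000200300800c0124006070c18024611)) (.br (Nat.shiftLeft (nat_lit 0x2000001)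 (nat_lit 113)) (.one (nat_lit 0x400000100200800c0122004091018024611)) (.one (nat_lit 0x400000200300800c0124006091018024611)))) (.br (Nat.shiftLeft (nat_lit 0x3) (nat_lit 137)) (.br (Nat.shiftLeft (nat_lit 0x2800001) (nat_lit 113)) (.one (nat_lit 0x500000100200800c01220040b1418024611)) (.one (nat_lit 0x500000200300800c01240060b1418024611))) (.br (Nat.shiftLeft (nat_lit 0x3000001) (nat_lit 113)) (.one (nat_lit 0x600000100200800c01220040d1818024611)) (.one (nat_lit 0x600000200300800c01240060d1818024611))))))
def t17 : k17.all (jb2 57 fl b0) = true := by decide +kernel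
noncomputable def k18 : KT := (.br (Nat.shiftLeft (nat_lit 0x5) (nat_lit 137)) (.br (Nat.shiftLeft (nat_lit 0x4000001) (nat_lit 113)) (.br (Nat.shiftLeft (nat_lit 0x3800001) (nat_lit 113)) (.one (nat_lit 0x700000100200800c01220040f1c18024611)) (.br (Nat.shiftLeft (nat_lit 0x1) (nat_lit 139)) (.one (nat_lit 0x700000200300800c01240060f1c18024611)) (.one (nat_lit 0x800000100200800c0122004112018024611)))) (.br (Nat.shiftLeft (nat_lit 0x9) (nat_lit 136)) (.one (nat_lit 0x800000200300800c0124006112018024611)) (.br (Nat.shiftLeft (nat_lit 0x4800001) (nat_lit 113)) (.one (nat_lit 0x900000100200800c0122004132418024611)) (.one (nat_lit 0x900000200300800c0124006132418024611))))) (.br (Nat.shiftLeft (nat_lit 0x5800001) (nat_lit 113)) (.br (Nat.shiftLeft (nat_lit 0x5000001) (nat_lit 113)) (.one (nat_lit 0xa00000100200800c0122004152818024611)) (.br (Nat.shiftLeft (nat_lit 0xb) (nat_lit 136)) (.one (nat_lit 0xa00000200300800c0124006152818024611)) (.one (nat_lit 0xb00000100200800c0122004172c18024611)))) (.br (Nat.shiftLeft (nat_lit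 0x3) (nat_lit 138)) (.one (nat_lit 0xb00000200300800c0124006172c18024611)) (.br (Nat.shiftLeft (nat_lit 0x6000001) (nat_lit 113)) (.one (nat_lit 0xc00000100200800c0122004193018024611)) (.one (nat_lit 0xc00000200300800c0124006193018024611))))))
def t18 : k18.all (jb2 57 fl b0) = true := by decide +kernel
noncomputable def s0 : KT := (.br (nat_lit 0x400500800c012800a010018024650) (.br (nat_lit 0x200400800c0124008010018024650) (.br (nat_lit 0x100400800c0122008010018024650) (.br (nat_lit 0x100300800c0122006010018024650) k0 k1) (.br (nat_lit 0x200300800c0124006010018025600) k2 k3)) (.br (nat_lit 0x300000800c0126000010018024411) (.br (nat_lit 0x200600800c012400c010018024650) k4 k5) (.br (nat_lit 0x300400800c0126008010018024650) k6 (.br (nat_lit 0x300600800c012600c010018024650) k7 k8)))) (.br (nat_lit 0x700000100800c01200020100f9c24511) (.br (nat_lit 0x100000700800c012000e010038424511) (.br (nat_lit 0x500600800c012a00c010018024650) k9 k10) (.br (nat_lit 0x400000500800c012000a010099024511) k11 (.br (nat_lit 0x600000100800c01200020100d9824511)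 k12 k13))) (.br (nat_lit 0x900000200800c012000401013a424511) (.br (nat_lit 0x800000100800c012000201011a024511) k14 k15) (.br (nat_lit 0xc00000500800c012000a01019b024511) k16 (.br (nat_lit 0x600000200300800c01240060d1818024611) k17 k18)))))
noncomputable def u0 : KT := (.one (nat_lit 0x800c0120000010018024430))
def w0 : u0.all (wj 57 s0) = true := by decide +kernel
def o0 : OkW 57 (jb2 57 fl) u0 := .lift s0 _ (.br _ _ _ (.br _ _ _ (.br _ _ _ (.br _ _ _ (.leaf b0 k0 t0) (.leaf b0 k1 t1)) (.br _ _ _ (.leaf b0 k2 t2) (.leaf b0 k3 t3))) (.br _ _ _ (.br _ _ _ (.leaf b0 k4 t4) (.leaf b0 k5 t5)) (.br _ _ _ (.leaf b0 k6 t6) (.br _ _ _ (.leaf b0 k7 t7) (.leaf b0 k8 t8))))) (.br _ _ _ (.br _ _ _ (.br _ _ _ (.leaf b0 k9 t9) (.leaf b11 k10 t10)) (.br _ _ _ (.leaf b0 k11 t11) (.br _ _ _ (.leaf b0 k12 t12) (.leaf b0 k13 t13)))) (.br _ _ _ (.br _ _ _ (.leaf b0 k14 t14) (.leaf b0 k15 t15)) (.br _ _ _ (.leaf b0 k16 t16) (.br _ _ _ (.leaf b0 k17 t17) (.leaf b0 k18 t18)))))) w0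
noncomputable def k19 : KT := (.br (Nat.shiftLeft (nat_lit 0x2003005) (nat_lit 66)) (.one (nat_lit 0x800c0130000010018027400)) (.br (Nat.shiftLeft (nat_lit 0x1) (nat_lit 100)) (.one (nat_lit 0x800c0140000010018029400)) (.one (nat_lit 0x100800c0130002010018026540))))
def t19 : k19.all (jb2 57 fl b0) = true := by decide +kernel
noncomputable def k20 : KT := (.br (Nat.shiftLeft (nat_lit 0x1002003005) (nat_lit 66)) (.br (Nat.shiftLeft (nat_lit 0x3) (nat_lit 100)) (.br (Nat.shiftLeft (nat_lit 0x1) (nat_lit 101)) (.one (nat_lit 0x100800c0140002010018028540)) (.br (Nat.shiftLeft (nat_lit 0x802003005) (nat_lit 66)) (.one (nat_lit 0x200800c0130004010018027500)) (.one (nat_lit 0x200800c0140004010018029500)))) (.br (Nat.shiftLeft (nat_lit 0xc02003005) (nat_lit 66)) (.one (nat_lit 0x300800c0130006010018027500)) (.br (Nat.shiftLeft (nat_lit 0x1) (nat_lit 102)) (.one (nat_lit 0x300800c0140006010018029500)) (.one (nat_lit 0x400800c0130008010018027500))))) (.br (Nat.shiftLeft (nat_lit 0x3) (nat_lit 101)) (.br (Nat.shiftLeft (nat_lit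 0x5) (nat_lit 100)) (.one (nat_lit 0x400800c0140008010018029500)) (.br (Nat.shiftLeft (nat_lit 0x1402003005) (nat_lit 66)) (.one (nat_lit 0x500800c013000a010018027500)) (.one (nat_lit 0x500800c014000a010018029500)))) (.br (Nat.shiftLeft (nat_lit 0x1802003005) (nat_lit 66)) (.one (nat_lit 0x600800c013000c010018027500)) (.br (Nat.shiftLeft (nat_lit 0x7) (nat_lit 100)) (.one (nat_lit 0x600800c014000c010018029500)) (.one (nat_lit 0x700800c013000e010018027500))))))
def t20 : k20.all (jb2 57 fl b0) = true := by decide +kernel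
noncomputable def k21 : KT := (.br (Nat.shiftLeft (nat_lit 0x1) (nat_lit 112)) (.one (nat_lit 0x700800c014000e010018028540)) (.br (Nat.shiftLeft (nat_lit 0x400002003005) (nat_lit 66)) (.one (nat_lit 0x100000800c0132000010018026411)) (.one (nat_lit 0x100000800c0142000010018028411))))
def t21 : k21.all (jb2 57 fl b0) = true := by decide +kernel
noncomputable def k22 : KT := (.one (nat_lit 0x100200800c0132004010018026650))
def t22 : k22.all (jb2 57 fl b0) = true := by decide +kernel
noncomputable def k23 : KT := (.one (nat_lit 0x100200800c0142004010018028650))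
def t23 : k23.all (jb2 57 fl b0) = true := by decide +kernel
noncomputable def k24 : KT := (.one (nat_lit 0x100300800c0132006010018026650))
def t24 : k24.all (jb2 57 fl b0) = true := by decide +kernel
noncomputable def k25 : KT := (.br (Nat.shiftLeft (nat_lit 0x401) (nat_lit 102)) (.one (nat_lit 0x100300800c0142006010018028650)) (.one (nat_lit 0x100400800c0132008010018026650)))
def t25 : k25.all (jb2 57 fl b0) = true := by decide +kernel
noncomputable def k26 : KT := (.br (Nat.shiftLeft (nat_lit 0x1005) (nat_lit 100)) (.one (nat_lit 0x100400800c0142008010018028650)) (.br (Nat.shiftLeft (nat_lit 0x401402003005) (nat_lit 66)) (.one (nat_lit 0x100500800c013200a010018026650)) (.one (nat_lit 0x100500800c014200a010018028650))))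
def t26 : k26.all (jb2 57 fl b0) = true := by decide +kernel
noncomputable def k27 : KT := (.br (Nat.shiftLeft (nat_lit 0x1007) (nat_lit 100)) (.br (Nat.shiftLeft (nat_lit 0x401802003005) (nat_lit 66)) (.one (nat_lit 0x100600800c013200c010018026650)) (.one (nat_lit 0x100600800c014200c010018028650))) (.br (Nat.shiftLeft (nat_lit 0x1) (nat_lit 113)) (.one (nat_lit 0x100700800c013200e010018026650)) (.br (Nat.shiftLeft (nat_lit 0x800002003005) (nat_lit 66)) (.one (nat_lit 0x200000800c0134000010018026411)) (.one (nat_lit 0x200000800c0144000010018028411)))))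
def t27 : k27.all (jb2 57 fl b0) = true := by decide +kernel
noncomputable def k28 : KT := (.one (nat_lit 0x200300800c0134006010018026650))
def t28 : k28.all (jb2 57 fl b0) = true := by decide +kernel
noncomputable def k29 : KT := (.one (nat_lit 0x200300800c0144006010018028650))
def t29 : k29.all (jb2 57 fl b0) = true := by decide +kernel
noncomputable def k30 : KT := (.br (Nat.shiftLeft (nat_lit 0x801002003005) (nat_lit 66)) (.one (nat_lit 0x200400800c0134008010018026650)) (.one (nat_lit 0x200400800c0144008010018028650)))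
def t30 : k30.all (jb2 57 fl b0) = true := by decide +kernel
noncomputable def k31 : KT := (.br (Nat.shiftLeft (nat_lit 0x801402003005) (nat_lit 66)) (.one (nat_lit 0x200500800c013400a010018026650)) (.br (Nat.shiftLeft (nat_lit 0x1003) (nat_lit 101)) (.one (nat_lit 0x200500800c014400a010018028650)) (.one (nat_lit 0x200600800c013400c010018026650))))
def t31 : k31.all (jb2 57 fl b0) = true := by decide +kernel
noncomputable def k32 : KT := (.br (Nat.shiftLeft (nat_lit 0x3) (nat_lit 112)) (.br (Nat.shiftLeft (nat_lit 0x2007) (nat_lit 100)) (.one (nat_lit 0x200600800c014400c010018028650)) (.one (nat_lit 0x200700800c013400e010018026650))) (.br (Nat.shiftLeft (nat_lit 0xc00002003005) (nat_lit 66)) (.one (nat_lit 0x300000800c0136000010018026411)) (.br (Nat.shiftLeft (nat_lit 0xc01) (nat_lit 102)) (.one (nat_lit 0x300000800c0146000010018028411)) (.one (nat_lit 0x300400800c0136008010018026650)))))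
def t32 : k32.all (jb2 57 fl b0) = true := by decide +kernel
noncomputable def k33 : KT := (.br (Nat.shiftLeft (nat_lit 0x3005) (nat_lit 100)) (.one (nat_lit 0x300400800c0146008010018028650)) (.one (nat_lit 0x300500800c013600a010018026650)))
def t33 : k33.all (jb2 57 fl b0) = true := by decide +kernel
noncomputable def k34 : KT := (.br (Nat.shiftLeft (nat_lit 0x3007) (nat_lit 100)) (.br (Nat.shiftLeft (nat_lit 0x1803) (nat_lit 101)) (.one (nat_lit 0x300500800c014600a010018028650)) (.br (Nat.shiftLeft (nat_lit 0xc01802003005) (nat_lit 66)) (.one (nat_lit 0x300600800c013600c010018026650)) (.one (nat_lit 0x300600800c014600c010018028650)))) (.br (Nat.shiftLeft (nat_lit 0x1) (nat_lit 114)) (.one (nat_lit 0x300700800c013600e010018026650)) (.br (Nat.shiftLeft (nat_lit 0x1000002003005) (nat_lit 66)) (.one (nat_lit 0x400000800c0138000010018026411)) (.one (nat_lit 0x400000800c0148000010018028411)))))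
def t34 : k34.all (jb2 57 fl b0) = true := by decide +kernel
noncomputable def k35 : KT := (.br (Nat.shiftLeft (nat_lit 0x1001402003005) (nat_lit 66)) (.one (nat_lit 0x400500800c013800a010018026650)) (.br (Nat.shiftLeft (nat_lit 0x2003) (nat_lit 101)) (.one (nat_lit 0x400500800c014800a010018028650)) (.one (nat_lit 0x400600800c013800c010018026650))))
def t35 : k35.all (jb2 57 fl b0) = true := by decide +kernel
noncomputable def k36 : KT := (.br (Nat.shiftLeft (nat_lit 0x1401802003005) (nat_lit 66)) (.br (Nat.shiftLeft (nat_lit 0x5) (nat_lit 112)) (.br (Nat.shiftLeft (nat_lit 0x4007) (nat_lit 100)) (.one (nat_lit 0x400600800c014800c010018028650)) (.one (nat_lit 0x400700800c013800e010018026650))) (.br (Nat.shiftLeft (nat_lit 0x1400002003005) (nat_lit 66)) (.one (nat_lit 0x500000800c013a000010018026411)) (.br (Nat.shiftLeft (nat_lit 0x1401) (nat_lit 102)) (.one (nat_lit 0x500000800c014a000010018028411)) (.one (nat_lit 0x500600800c013a00c010018026650))))) (.br (Nat.shiftLeft (nat_lit 0x3) (nat_lit 113)) (.br (Nat.shiftLeft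 (nat_lit 0x5007) (nat_lit 100)) (.one (nat_lit 0x500600800c014a00c010018028650)) (.one (nat_lit 0x500700800c013a00e010018026650))) (.br (Nat.shiftLeft (nat_lit 0x1800002003005) (nat_lit 66)) (.one (nat_lit 0x600000800c013c000010018026411)) (.br (Nat.shiftLeft (nat_lit 0x1801) (nat_lit 102)) (.one (nat_lit 0x600000800c014c000010018028411)) (.one (nat_lit 0x600700800c013c00e010018026650))))))
def t36 : k36.all (jb2 57 fl b0) = true := by decide +kernel
noncomputable def k37 : KT := (.br (Nat.shiftLeft (nat_lit 0x800003) (nat_lit 101)) (.br (Nat.shiftLeft (nat_lit 0x3) (nat_lit 114)) (.br (Nat.shiftLeft (nat_lit 0x2400002003005) (nat_lit 66)) (.br (Nat.shiftLeft (nat_lit 0x1) (nat_lit 115)) (.br (Nat.shiftLeft (nat_lit 0x1c00002003005) (nat_lit 66)) (.one (nat_lit 0x700000800c013e000010018026411)) (.one (nat_lit 0x700000800c014e000010018028411))) (.br (Nat.shiftLeft (nat_lit 0x2000002003005) (nat_lit 66)) (.one (nat_lit 0x800000800c0130000010018128411)) (.br (Nat.shiftLeft (nat_lit 0x9) (nat_lit 112)) (.one (nat_lit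 0x800000800c014000001001812a411)) (.one (nat_lit 0x900000800c0132000010018128411))))) (.br (Nat.shiftLeft (nat_lit 0x2800002003005) (nat_lit 66)) (.br (Nat.shiftLeft (nat_lit 0x5) (nat_lit 113)) (.one (nat_lit 0x900000800c014200001001812a411)) (.one (nat_lit 0xa00000800c0134000010018128411))) (.br (Nat.shiftLeft (nat_lit 0xb) (nat_lit 112)) (.one (nat_lit 0xa00000800c014400001001812a411)) (.br (Nat.shiftLeft (nat_lit 0x2c00002003005) (nat_lit 66)) (.one (nat_lit 0xb00000800c0136000010018128411)) (.one (nat_lit 0xb00000800c014600001001812a411)))))) (.br (Nat.shiftLeft (nat_lit 0x400000c02003005) (nat_lit 66)) (.br (Nat.shiftLeft (nat_lit 0x1) (nat_lit 124)) (.br (Nat.shiftLeft (nat_lit 0x3000002003005) (nat_lit 66)) (.one (nat_lit 0xc00000800c0138000010018128411)) (.one (nat_lit 0xc00000800c014800001001812a411))) (.br (Nat.shiftLeft (nat_lit 0x400000802003005) (nat_lit 66)) (.one (nat_lit 0x100000200800c0130004010038426511)) (.br (Nat.shiftLeft (nat_lit 0x1000003) (nat_lit 100)) (.one (nat_lit 0x100000200800c0140004010038428511))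 (.one (nat_lit 0x100000300800c0130006010038426511))))) (.br (Nat.shiftLeft (nat_lit 0x400001002003005) (nat_lit 66)) (.br (Nat.shiftLeft (nat_lit 0x400001) (nat_lit 102)) (.one (nat_lit 0x100000300800c0140006010038428511)) (.one (nat_lit 0x100000400800c0130008010038426511))) (.br (Nat.shiftLeft (nat_lit 0x1000005) (nat_lit 100)) (.one (nat_lit 0x100000400800c0140008010038428511)) (.br (Nat.shiftLeft (nat_lit 0x400001402003005) (nat_lit 66)) (.one (nat_lit 0x100000500800c013000a010038426511)) (.one (nat_lit 0x100000500800c014000a010038428511))))))) (.br (Nat.shiftLeft (nat_lit 0x800001402003005) (nat_lit 66)) (.br (Nat.shiftLeft (nat_lit 0x2000003) (nat_lit 100)) (.br (Nat.shiftLeft (nat_lit 0x1000007) (nat_lit 100)) (.br (Nat.shiftLeft (nat_lit 0x400001802003005) (nat_lit 66)) (.one (nat_lit 0x100000600800c013000c010038426511)) (.one (nat_lit 0x100000600800c014000c010038428511))) (.br (Nat.shiftLeft (nat_lit 0x1) (nat_lit 125)) (.one (nat_lit 0x100000700800c013000e010038426511)) (.br (Nat.shiftLeft (nat_lit 0x800000802003005)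 (nat_lit 66)) (.one (nat_lit 0x200000200800c0130004010058826511)) (.one (nat_lit 0x200000200800c0140004010058828511))))) (.br (Nat.shiftLeft (nat_lit 0x800001) (nat_lit 102)) (.br (Nat.shiftLeft (nat_lit 0x800000c02003005) (nat_lit 66)) (.one (nat_lit 0x200000300800c0130006010058826511)) (.one (nat_lit 0x200000300800c0140006010058828511))) (.br (Nat.shiftLeft (nat_lit 0x800001002003005) (nat_lit 66)) (.one (nat_lit 0x200000400800c0130008010058826511)) (.br (Nat.shiftLeft (nat_lit 0x2000005) (nat_lit 100)) (.one (nat_lit 0x200000400800c0140008010058828511)) (.one (nat_lit 0x200000500800c013000a010058826511)))))) (.br (Nat.shiftLeft (nat_lit 0xc00000802003005) (nat_lit 66)) (.br (Nat.shiftLeft (nat_lit 0x800001802003005) (nat_lit 66)) (.br (Nat.shiftLeft (nat_lit 0x1000003) (nat_lit 101)) (.one (nat_lit 0x200000500800c014000a010058828511)) (.one (nat_lit 0x200000600800c013000c010058826511))) (.br (Nat.shiftLeft (nat_lit 0x2000007) (nat_lit 100)) (.one (nat_lit 0x200000600800c014000c010058828511)) (.br (Nat.shiftLeft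 (nat_lit 0x3) (nat_lit 124)) (.one (nat_lit 0x200000700800c013000e010058826511)) (.one (nat_lit 0x300000200800c0130004010078c26511))))) (.br (Nat.shiftLeft (nat_lit 0xc00000c02003005) (nat_lit 66)) (.br (Nat.shiftLeft (nat_lit 0x3000003) (nat_lit 100)) (.one (nat_lit 0x300000200800c0140004010078c28511)) (.one (nat_lit 0x300000300800c0130006010078c26511))) (.br (Nat.shiftLeft (nat_lit 0xc00001) (nat_lit 102)) (.one (nat_lit 0x300000300800c0140006010078c28511)) (.br (Nat.shiftLeft (nat_lit 0xc00001002003005) (nat_lit 66)) (.one (nat_lit 0x300000400800c0130008010078c26511)) (.one (nat_lit 0x300000400800c0140008010078c28511))))))))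
def t37 : k37.all (jb2 57 fl b0) = true := by decide +kernel
noncomputable def k38 : KT := (.br (Nat.shiftLeft (nat_lit 0x1000001) (nat_lit 102)) (.br (Nat.shiftLeft (nat_lit 0x3000007) (nat_lit 100)) (.br (Nat.shiftLeft (nat_lit 0x1800003) (nat_lit 101)) (.br (Nat.shiftLeft (nat_lit 0xc00001402003005) (nat_lit 66)) (.one (nat_lit 0x300000500800c013000a010078c26511)) (.one (nat_lit 0x300000500800c014000a010078c28511))) (.br (Nat.shiftLeft (nat_lit 0xc00001802003005) (nat_lit 66)) (.one (nat_lit 0x300000600800c013000c010078c26511)) (.one (nat_lit 0x300000600800c014000c010078c28511)))) (.br (Nat.shiftLeft (nat_lit 0x1000000802003005) (nat_lit 66)) (.br (Nat.shiftLeft (nat_lit 0x1) (nat_lit 126)) (.one (nat_lit 0x300000700800c013000e010078c26511)) (.one (nat_lit 0x400000200800c0130004010099026511))) (.br (Nat.shiftLeft (nat_lit 0x4000003) (nat_lit 100)) (.one (nat_lit 0x400000200800c0140004010099028511)) (.br (Nat.shiftLeft (nat_lit 0x1000000c02003005) (nat_lit 66)) (.one (nat_lit 0x400000300800c0130006010099026511))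 (.one (nat_lit 0x400000300800c0140006010099028511)))))) (.br (Nat.shiftLeft (nat_lit 0x2000003) (nat_lit 101)) (.br (Nat.shiftLeft (nat_lit 0x4000005) (nat_lit 100)) (.br (Nat.shiftLeft (nat_lit 0x1000001002003005) (nat_lit 66)) (.one (nat_lit 0x400000400800c0130008010099026511)) (.one (nat_lit 0x400000400800c0140008010099028511))) (.br (Nat.shiftLeft (nat_lit 0x1000001402003005) (nat_lit 66)) (.one (nat_lit 0x400000500800c013000a010099026511)) (.one (nat_lit 0x400000500800c014000a010099028511)))) (.br (Nat.shiftLeft (nat_lit 0x4000007) (nat_lit 100)) (.br (Nat.shiftLeft (nat_lit 0x1000001802003005) (nat_lit 66)) (.one (nat_lit 0x400000600800c013000c010099026511)) (.one (nat_lit 0x400000600800c014000c010099028511))) (.br (Nat.shiftLeft (nat_lit 0x5) (nat_lit 124)) (.one (nat_lit 0x400000700800c013000e010099026511)) (.br (Nat.shiftLeft (nat_lit 0x1400000802003005) (nat_lit 66)) (.one (nat_lit 0x500000200800c01300040100b9426511)) (.one (nat_lit 0x500000200800c01400040100b9428511)))))))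
def t38 : k38.all (jb2 57 fl b0) = true := by decide +kernel
noncomputable def k39 : KT := (.br (Nat.shiftLeft (nat_lit 0x1400001402003005) (nat_lit 66)) (.br (Nat.shiftLeft (nat_lit 0x1400001) (nat_lit 102)) (.br (Nat.shiftLeft (nat_lit 0x1400000c02003005) (nat_lit 66)) (.one (nat_lit 0x500000300800c01300060100b9426511)) (.one (nat_lit 0x500000300800c01400060100b9428511))) (.br (Nat.shiftLeft (nat_lit 0x1400001002003005) (nat_lit 66)) (.one (nat_lit 0x500000400800c01300080100b9426511)) (.br (Nat.shiftLeft (nat_lit 0x5000005) (nat_lit 100)) (.one (nat_lit 0x500000400800c01400080100b9428511)) (.one (nat_lit 0x500000500800c013000a0100b9426511))))) (.br (Nat.shiftLeft (nat_lit 0x5000007) (nat_lit 100)) (.br (Nat.shiftLeft (nat_lit 0x2800003) (nat_lit 101)) (.one (nat_lit 0x500000500800c014000a0100b9428511)) (.br (Nat.shiftLeft (nat_lit 0x1400001802003005) (nat_lit 66)) (.one (nat_lit 0x500000600800c013000c0100b9426511)) (.one (nat_lit 0x500000600800c014000c0100b9428511)))) (.br (Nat.shiftLeft (nat_lit 0x3) (nat_lit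 125)) (.one (nat_lit 0x500000700800c013000e0100b9426511)) (.br (Nat.shiftLeft (nat_lit 0x1800000802003005) (nat_lit 66)) (.one (nat_lit 0x600000200800c01300040100d9826511)) (.one (nat_lit 0x600000200800c01400040100d9828511))))))
def t39 : k39.all (jb2 57 fl b0) = true := by decide +kernel
noncomputable def k40 : KT := (.br (Nat.shiftLeft (nat_lit 0x1800001402003005) (nat_lit 66)) (.br (Nat.shiftLeft (nat_lit 0x1800001) (nat_lit 102)) (.br (Nat.shiftLeft (nat_lit 0x1800000c02003005) (nat_lit 66)) (.one (nat_lit 0x600000300800c01300060100d9826511)) (.one (nat_lit 0x600000300800c01400060100d9828511))) (.br (Nat.shiftLeft (nat_lit 0x1800001002003005) (nat_lit 66)) (.one (nat_lit 0x600000400800c01300080100d9826511)) (.br (Nat.shiftLeft (nat_lit 0x6000005) (nat_lit 100)) (.one (nat_lit 0x600000400800c01400080100d9828511)) (.one (nat_lit 0x600000500800c013000a0100d9826511))))) (.br (Nat.shiftLeft (nat_lit 0x6000007) (nat_lit 100)) (.br (Nat.shiftLeft (nat_lit 0x3000003) (nat_lit 101)) (.one (nat_lit 0x600000500800c014000a0100d9828511))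 (.br (Nat.shiftLeft (nat_lit 0x1800001802003005) (nat_lit 66)) (.one (nat_lit 0x600000600800c013000c0100d9826511)) (.one (nat_lit 0x600000600800c014000c0100d9828511)))) (.br (Nat.shiftLeft (nat_lit 0x7) (nat_lit 124)) (.one (nat_lit 0x600000700800c013000e0100d9826511)) (.br (Nat.shiftLeft (nat_lit 0x1c00000802003005) (nat_lit 66)) (.one (nat_lit 0x700000200800c01300040100f9c26511)) (.one (nat_lit 0x700000200800c01400040100f9c28511))))))
def t40 : k40.all (jb2 57 fl b0) = true := by decide +kernel
noncomputable def k41 : KT := (.br (Nat.shiftLeft (nat_lit 0x3800003) (nat_lit 101)) (.br (Nat.shiftLeft (nat_lit 0x1c00001002003005) (nat_lit 66)) (.br (Nat.shiftLeft (nat_lit 0x1c00000c02003005) (nat_lit 66)) (.one (nat_lit 0x700000300800c01300060100f9c26511)) (.br (Nat.shiftLeft (nat_lit 0x1c00001) (nat_lit 102)) (.one (nat_lit 0x700000300800c01400060100f9c28511)) (.one (nat_lit 0x700000400800c01300080100f9c26511)))) (.br (Nat.shiftLeft (nat_lit 0x7000005) (nat_lit 100)) (.one (nat_lit 0x700000400800c01400080100f9c28511))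 (.br (Nat.shiftLeft (nat_lit 0x1c00001402003005) (nat_lit 66)) (.one (nat_lit 0x700000500800c013000a0100f9c26511)) (.one (nat_lit 0x700000500800c014000a0100f9c28511))))) (.br (Nat.shiftLeft (nat_lit 0x1) (nat_lit 127)) (.br (Nat.shiftLeft (nat_lit 0x1c00001802003005) (nat_lit 66)) (.one (nat_lit 0x700000600800c013000c0100f9c26511)) (.br (Nat.shiftLeft (nat_lit 0x7000007) (nat_lit 100)) (.one (nat_lit 0x700000600800c014000c0100f9c28511)) (.one (nat_lit 0x700000700800c013000e0100f9c26511)))) (.br (Nat.shiftLeft (nat_lit 0x8000003) (nat_lit 100)) (.br (Nat.shiftLeft (nat_lit 0x2000000802003005) (nat_lit 66)) (.one (nat_lit 0x800000200800c013000401011a026511)) (.one (nat_lit 0x800000200800c014000401011a028511))) (.br (Nat.shiftLeft (nat_lit 0x2000000c02003005) (nat_lit 66)) (.one (nat_lit 0x800000300800c013000601011a026511)) (.one (nat_lit 0x800000300800c014000601011a028511))))))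
def t41 : k41.all (jb2 57 fl b0) = true := by decide +kernel
noncomputable def k42 : KT := (.br (Nat.shiftLeft (nat_lit 0xa000003) (nat_lit 100)) (.br (Nat.shiftLeft (nat_lit 0x2400000c02003005) (nat_lit 66)) (.br (Nat.shiftLeft (nat_lit 0x2000001802003005) (nat_lit 66)) (.br (Nat.shiftLeft (nat_lit 0x8000005) (nat_lit 100)) (.br (Nat.shiftLeft (nat_lit 0x2000001002003005) (nat_lit 66)) (.one (nat_lit 0x800000400800c013000801011a026511)) (.one (nat_lit 0x800000400800c014000801011a028511))) (.br (Nat.shiftLeft (nat_lit 0x2000001402003005) (nat_lit 66)) (.one (nat_lit 0x800000500800c013000a01011a026511)) (.br (Nat.shiftLeft (nat_lit 0x4000003) (nat_lit 101)) (.one (nat_lit 0x800000500800c014000a01011a028511)) (.one (nat_lit 0x800000600800c013000c01011a026511))))) (.br (Nat.shiftLeft (nat_lit 0x9) (nat_lit 124)) (.br (Nat.shiftLeft (nat_lit 0x8000007) (nat_lit 100)) (.one (nat_lit 0x800000600800c014000c01011a028511)) (.one (nat_lit 0x800000700800c013000e01011a026511))) (.br (Nat.shiftLeft (nat_lit 0x2400000802003005)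 (nat_lit 66)) (.one (nat_lit 0x900000200800c013000401013a426511)) (.br (Nat.shiftLeft (nat_lit 0x9000003) (nat_lit 100)) (.one (nat_lit 0x900000200800c014000401013a428511)) (.one (nat_lit 0x900000300800c013000601013a426511)))))) (.br (Nat.shiftLeft (nat_lit 0x4800003) (nat_lit 101)) (.br (Nat.shiftLeft (nat_lit 0x2400001002003005) (nat_lit 66)) (.br (Nat.shiftLeft (nat_lit 0x2400001) (nat_lit 102)) (.one (nat_lit 0x900000300800c014000601013a428511)) (.one (nat_lit 0x900000400800c013000801013a426511))) (.br (Nat.shiftLeft (nat_lit 0x9000005) (nat_lit 100)) (.one (nat_lit 0x900000400800c014000801013a428511)) (.br (Nat.shiftLeft (nat_lit 0x2400001402003005) (nat_lit 66)) (.one (nat_lit 0x900000500800c013000a01013a426511)) (.one (nat_lit 0x900000500800c014000a01013a428511))))) (.br (Nat.shiftLeft (nat_lit 0x9000007) (nat_lit 100)) (.br (Nat.shiftLeft (nat_lit 0x2400001802003005) (nat_lit 66)) (.one (nat_lit 0x900000600800c013000c01013a426511)) (.one (nat_lit 0x900000600800c014000c01013a428511))) (.br (Nat.shiftLeft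 (nat_lit 0x5) (nat_lit 125)) (.one (nat_lit 0x900000700800c013000e01013a426511)) (.br (Nat.shiftLeft (nat_lit 0x2800000802003005) (nat_lit 66)) (.one (nat_lit 0xa00000200800c013000401015a826511)) (.one (nat_lit 0xa00000200800c014000401015a828511))))))) (.br (Nat.shiftLeft (nat_lit 0x2c00000802003005) (nat_lit 66)) (.br (Nat.shiftLeft (nat_lit 0x2800001402003005) (nat_lit 66)) (.br (Nat.shiftLeft (nat_lit 0x2800001) (nat_lit 102)) (.br (Nat.shiftLeft (nat_lit 0x2800000c02003005) (nat_lit 66)) (.one (nat_lit 0xa00000300800c013000601015a826511)) (.one (nat_lit 0xa00000300800c014000601015a828511))) (.br (Nat.shiftLeft (nat_lit 0x2800001002003005) (nat_lit 66)) (.one (nat_lit 0xa00000400800c013000801015a826511)) (.br (Nat.shiftLeft (nat_lit 0xa000005) (nat_lit 100)) (.one (nat_lit 0xa00000400800c014000801015a828511)) (.one (nat_lit 0xa00000500800c013000a01015a826511))))) (.br (Nat.shiftLeft (nat_lit 0x2800001802003005) (nat_lit 66)) (.br (Nat.shiftLeft (nat_lit 0x5000003) (nat_lit 101)) (.one (nat_lit 0xa00000500800c014000a01015a828511))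 (.one (nat_lit 0xa00000600800c013000c01015a826511))) (.br (Nat.shiftLeft (nat_lit 0xa000007) (nat_lit 100)) (.one (nat_lit 0xa00000600800c014000c01015a828511)) (.br (Nat.shiftLeft (nat_lit 0xb) (nat_lit 124)) (.one (nat_lit 0xa00000700800c013000e01015a826511)) (.one (nat_lit 0xb00000200800c013000401017ac26511)))))) (.br (Nat.shiftLeft (nat_lit 0xb000005) (nat_lit 100)) (.br (Nat.shiftLeft (nat_lit 0x2c00000c02003005) (nat_lit 66)) (.br (Nat.shiftLeft (nat_lit 0xb000003) (nat_lit 100)) (.one (nat_lit 0xb00000200800c014000401017ac28511)) (.one (nat_lit 0xb00000300800c013000601017ac26511))) (.br (Nat.shiftLeft (nat_lit 0x2c00001) (nat_lit 102)) (.one (nat_lit 0xb00000300800c014000601017ac28511)) (.br (Nat.shiftLeft (nat_lit 0x2c00001002003005) (nat_lit 66)) (.one (nat_lit 0xb00000400800c013000801017ac26511)) (.one (nat_lit 0xb00000400800c014000801017ac28511))))) (.br (Nat.shiftLeft (nat_lit 0x5800003) (nat_lit 101)) (.br (Nat.shiftLeft (nat_lit 0x2c00001402003005) (nat_lit 66)) (.one (nat_lit 0xb00000500800c013000a01017ac26511))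 (.one (nat_lit 0xb00000500800c014000a01017ac28511))) (.br (Nat.shiftLeft (nat_lit 0x2c00001802003005) (nat_lit 66)) (.one (nat_lit 0xb00000600800c013000c01017ac26511)) (.br (Nat.shiftLeft (nat_lit 0xb000007) (nat_lit 100)) (.one (nat_lit 0xb00000600800c014000c01017ac28511)) (.one (nat_lit 0xb00000700800c013000e01017ac26511))))))))
def t42 : k42.all (jb2 57 fl b0) = true := by decide +kernel
noncomputable def k43 : KT := (.br (Nat.shiftLeft (nat_lit 0x3000001) (nat_lit 102)) (.br (Nat.shiftLeft (nat_lit 0xc000003) (nat_lit 100)) (.br (Nat.shiftLeft (nat_lit 0x3000000802003005) (nat_lit 66)) (.one (nat_lit 0xc00000200800c013000401019b026511)) (.one (nat_lit 0xc00000200800c014000401019b028511))) (.br (Nat.shiftLeft (nat_lit 0x3000000c02003005) (nat_lit 66)) (.one (nat_lit 0xc00000300800c013000601019b026511)) (.one (nat_lit 0xc00000300800c014000601019b028511)))) (.br (Nat.shiftLeft (nat_lit 0xc000005) (nat_lit 100)) (.br (Nat.shiftLeft (nat_lit 0x3000001002003005) (nat_lit 66)) (.one (nat_lit 0xc00000400800c013000801019b026511))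 (.one (nat_lit 0xc00000400800c014000801019b028511))) (.br (Nat.shiftLeft (nat_lit 0x3000001402003005) (nat_lit 66)) (.one (nat_lit 0xc00000500800c013000a01019b026511)) (.br (Nat.shiftLeft (nat_lit 0x6000003) (nat_lit 101)) (.one (nat_lit 0xc00000500800c014000a01019b028511)) (.one (nat_lit 0xc00000600800c013000c01019b026511))))))
def t43 : k43.all (jb2 57 fl b0) = true := by decide +kernel
noncomputable def s1 : KT := (.br (nat_lit 0x200400800c0144008010018028650) (.br (nat_lit 0x100300800c0132006010018026650) (.br (nat_lit 0x100000800c0142000010018028411) (.br (nat_lit 0x100800c0130002010018026540) k19 (.br (nat_lit 0x700800c013000e010018027500) k20 k21)) (.br (nat_lit 0x100200800c0132004010018026650) k22 (.br (nat_lit 0x100200800c0142004010018028650) k23 k24))) (.br (nat_lit 0x200000800c0144000010018028411) (.br (nat_lit 0x100400800c0132008010018026650) k25 (.br (nat_lit 0x100500800c014200a010018028650) k26 k27)) (.br (nat_lit 0x200300800c0134006010018026650) k28 (.br (nat_lit 0x200300800c0144006010018028650) k29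 k30)))) (.br (nat_lit 0x600700800c013c00e010018026650) (.br (nat_lit 0x300500800c013600a010018026650) (.br (nat_lit 0x200600800c013400c010018026650) k31 (.br (nat_lit 0x300400800c0136008010018026650) k32 k33)) (.br (nat_lit 0x400000800c0148000010018028411) k34 (.br (nat_lit 0x400600800c013800c010018026650) k35 k36))) (.br (nat_lit 0x600000200800c01400040100d9828511) (.br (nat_lit 0x300000400800c0140008010078c28511) k37 (.br (nat_lit 0x500000200800c01400040100b9428511) k38 k39)) (.br (nat_lit 0x800000300800c014000601011a028511) (.br (nat_lit 0x700000200800c01400040100f9c28511) k40 k41) (.br (nat_lit 0xb00000700800c013000e01017ac26511) k42 k43)))))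
noncomputable def u1 : KT := (.br (Nat.shiftLeft (nat_lit 0x2003005) (nat_lit 66)) (.one (nat_lit 0x800c0130000010018026430)) (.one (nat_lit 0x800c0140000010018028430)))
def w1 : u1.all (wj 57 s1) = true := by decide +kernel
def o1 : OkW 57 (jb2 57 fl) u1 := .lift s1 _ (.br _ _ _ (.br _ _ _ (.br _ _ _ (.br _ _ _ (.leaf b0 k19 t19) (.br _ _ _ (.leaf b0 k20 t20) (.leaf b0 k21 t21))) (.br _ _ _ (.leaf b0 k22 t22) (.br _ _ _ (.leaf b0 k23 t23) (.leaf b0 k24 t24)))) (.br _ _ _ (.br _ _ _ (.leaf b0 k25 t25) (.br _ _ _ (.leaf b0 k26 t26) (.leaf b0 k27 t27))) (.br _ _ _ (.leaf b0 k28 t28) (.br _ _ _ (.leaf b0 k29 t29) (.leaf b0 k30 t30))))) (.br _ _ _ (.br _ _ _ (.br _ _ _ (.leaf b0 k31 t31) (.br _ _ _ (.leaf b0 k32 t32) (.leaf b0 k33 t33))) (.br _ _ _ (.leaf b0 k34 t34) (.br _ _ _ (.leaf b0 k35 t35) (.leaf b0 k36 t36)))) (.br _ _ _ (.br _ _ _ (.leaf b0 k37 t37) (.br _ _ _ (.leaf b0 k38 t38) (.leaf b0 k39 t39))) (.br _ _ _ (.br _ _ _ (.leaf b0 k40 t40) (.leaf b0 k41 t41)) (.br _ _ _ (.leaf b0 k42 t42) (.leaf b0 k43 t43))))))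 w1
noncomputable def k44 : KT := (.br (Nat.shiftLeft (nat_lit 0x800d) (nat_lit 76)) (.br (Nat.shiftLeft (nat_lit 0x800c017) (nat_lit 64)) (.br (Nat.shiftLeft (nat_lit 0x400600b) (nat_lit 65)) (.one (nat_lit 0x800c015000001001802b400)) (.one (nat_lit 0x800c016000001001802d400))) (.br (Nat.shiftLeft (nat_lit 0x1001803) (nat_lit 67)) (.one (nat_lit 0x800c017000001001802f400)) (.one (nat_lit 0x800c0180000010018031400)))) (.br (Nat.shiftLeft (nat_lit 0x800d01) (nat_lit 68)) (.br (Nat.shiftLeft (nat_lit 0x800d00f) (nat_lit 64)) (.one (nat_lit 0x800d00e000001001a01d400)) (.one (nat_lit 0x800d00f000001001a01f400))) (.br (Nat.shiftLeft (nat_lit 0x1) (nat_lit 100)) (.one (nat_lit 0x800d010000001001a021400)) (.br (Nat.shiftLeft (nat_lit 0x80400600b) (nat_lit 65)) (.one (nat_lit 0x100800c015000201001802a540)) (.one (nat_lit 0x100800c016000201001802c540))))))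
def t44 : k44.all (jb2 57 fl b0) = true := by decide +kernel
noncomputable def k45 : KT := (.br (Nat.shiftLeft (nat_lit 0x201001803) (nat_lit 67)) (.one (nat_lit 0x100800c017000201001802e540)) (.one (nat_lit 0x100800c0180002010018030540)))
def t45 : k45.all (jb2 57 fl b0) = true := by decide +kernel
noncomputable def k46 : KT := (.one (nat_lit 0x200800c015000401001802a540))
def t46 : k46.all (jb2 57 fl b0) = true := by decide +kernel
noncomputable def k47 : KT := (.one (nat_lit 0x200800c016000401001802c540))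
def t47 : k47.all (jb2 57 fl b0) = true := by decide +kernel
noncomputable def k48 : KT := (.br (Nat.shiftLeft (nat_lit 0x401001803) (nat_lit 67)) (.one (nat_lit 0x200800c017000401001802e540)) (.br (Nat.shiftLeft (nat_lit 0x3) (nat_lit 100)) (.one (nat_lit 0x200800c0180004010018030540)) (.one (nat_lit 0x300800c015000601001802b500))))
def t48 : k48.all (jb2 57 fl b0) = true := by decide +kernel
noncomputable def k49 : KT := (.one (nat_lit 0x300800c016000601001802c540))
def t49 : k49.all (jb2 57 fl b0) = true := by decide +kernel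
noncomputable def k50 : KT := (.br (Nat.shiftLeft (nat_lit 0x601001803) (nat_lit 67)) (.one (nat_lit 0x300800c017000601001802e540)) (.br (Nat.shiftLeft (nat_lit 0x1) (nat_lit 102)) (.one (nat_lit 0x300800c0180006010018030540)) (.one (nat_lit 0x400800c015000801001802b500))))
def t50 : k50.all (jb2 57 fl b0) = true := by decide +kernel
noncomputable def k51 : KT := (.one (nat_lit 0x400800c016000801001802c540))
def t51 : k51.all (jb2 57 fl b0) = true := by decide +kernel
noncomputable def k52 : KT := (.br (Nat.shiftLeft (nat_lit 0x801001803) (nat_lit 67)) (.one (nat_lit 0x400800c017000801001802e540)) (.one (nat_lit 0x400800c0180008010018030540)))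
def t52 : k52.all (jb2 57 fl b0) = true := by decide +kernel
noncomputable def k53 : KT := (.one (nat_lit 0x500800c015000a01001802a540))
def t53 : k53.all (jb2 57 fl b0) = true := by decide +kernel
noncomputable def k54 : KT := (.one (nat_lit 0x500800c016000a01001802c540))
def t54 : k54.all (jb2 57 fl b0) = true := by decide +kernel
noncomputable def k55 : KT := (.br (Nat.shiftLeft (nat_lit 0xa01001803) (nat_lit 67)) (.one (nat_lit 0x500800c017000a01001802e540)) (.one (nat_lit 0x500800c018000a010018030540)))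
def t55 : k55.all (jb2 57 fl b0) = true := by decide +kernel
noncomputable def k56 : KT := (.one (nat_lit 0x600800c015000c01001802a540))
def t56 : k56.all (jb2 57 fl b0) = true := by decide +kernel
noncomputable def k57 : KT := (.br (Nat.shiftLeft (nat_lit 0x600800c017) (nat_lit 64)) (.one (nat_lit 0x600800c016000c01001802c540)) (.br (Nat.shiftLeft (nat_lit 0xc01001803) (nat_lit 67)) (.one (nat_lit 0x600800c017000c01001802e540)) (.one (nat_lit 0x600800c018000c010018030540))))
def t57 : k57.all (jb2 57 fl b0) = true := by decide +kernel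
noncomputable def k58 : KT := (.br (Nat.shiftLeft (nat_lit 0x380400600b) (nat_lit 65)) (.one (nat_lit 0x700800c015000e01001802a540)) (.one (nat_lit 0x700800c016000e01001802c540)))
def t58 : k58.all (jb2 57 fl b0) = true := by decide +kernel
noncomputable def k59 : KT := (.br (Nat.shiftLeft (nat_lit 0x801) (nat_lit 101)) (.br (Nat.shiftLeft (nat_lit 0x80000400600b) (nat_lit 65)) (.br (Nat.shiftLeft (nat_lit 0xe01001803) (nat_lit 67)) (.one (nat_lit 0x700800c017000e01001802e540)) (.br (Nat.shiftLeft (nat_lit 0x1) (nat_lit 112)) (.one (nat_lit 0x700800c018000e010018030540)) (.one (nat_lit 0x100000800c015200001001802a411)))) (.br (Nat.shiftLeft (nat_lit 0x100000800c017) (nat_lit 64)) (.one (nat_lit 0x100000800c016200001001802c411)) (.br (Nat.shiftLeft (nat_lit 0x200001001803) (nat_lit 67)) (.one (nat_lit 0x100000800c017200001001802e411)) (.one (nat_lit 0x100000800c0182000010018030411))))) (.br (Nat.shiftLeft (nat_lit 0x100000400600b) (nat_lit 65)) (.br (Nat.shiftLeft (nat_lit 0x401) (nat_lit 102)) (.one (nat_lit 0x100300800c015200601001802a650))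 (.br (Nat.shiftLeft (nat_lit 0x1) (nat_lit 113)) (.one (nat_lit 0x100400800c015200801001802a650)) (.one (nat_lit 0x200000800c015400001001802a411)))) (.br (Nat.shiftLeft (nat_lit 0x200000800c017) (nat_lit 64)) (.one (nat_lit 0x200000800c016400001001802c411)) (.br (Nat.shiftLeft (nat_lit 0x400001001803) (nat_lit 67)) (.one (nat_lit 0x200000800c017400001001802e411)) (.one (nat_lit 0x200000800c0184000010018030411))))))
def t59 : k59.all (jb2 57 fl b0) = true := by decide +kernel
noncomputable def k60 : KT := (.br (Nat.shiftLeft (nat_lit 0x300000800c017) (nat_lit 64)) (.br (Nat.shiftLeft (nat_lit 0x3) (nat_lit 112)) (.br (Nat.shiftLeft (nat_lit 0x801) (nat_lit 102)) (.one (nat_lit 0x200300800c015400601001802a650)) (.one (nat_lit 0x200400800c015400801001802a650))) (.br (Nat.shiftLeft (nat_lit 0x180000400600b) (nat_lit 65)) (.one (nat_lit 0x300000800c015600001001802a411)) (.one (nat_lit 0x300000800c016600001001802c411)))) (.br (Nat.shiftLeft (nat_lit 0xc01) (nat_lit 102)) (.br (Nat.shiftLeft (nat_lit 0x600001001803) (nat_lit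 67)) (.one (nat_lit 0x300000800c017600001001802e411)) (.one (nat_lit 0x300000800c0186000010018030411))) (.br (Nat.shiftLeft (nat_lit 0x1) (nat_lit 114)) (.one (nat_lit 0x300400800c015600801001802a650)) (.br (Nat.shiftLeft (nat_lit 0x200000400600b) (nat_lit 65)) (.one (nat_lit 0x400000800c015800001001802a411)) (.one (nat_lit 0x400000800c016800001001802c411))))))
def t60 : k60.all (jb2 57 fl b0) = true := by decide +kernel
noncomputable def k61 : KT := (.br (Nat.shiftLeft (nat_lit 0x900000800c017) (nat_lit 64)) (.br (Nat.shiftLeft (nat_lit 0x7) (nat_lit 112)) (.br (Nat.shiftLeft (nat_lit 0xa00001001803) (nat_lit 67)) (.br (Nat.shiftLeft (nat_lit 0x5) (nat_lit 112)) (.br (Nat.shiftLeft (nat_lit 0x800001001803) (nat_lit 67)) (.one (nat_lit 0x400000800c017800001001802e411)) (.one (nat_lit 0x400000800c0188000010018030411))) (.br (Nat.shiftLeft (nat_lit 0x280000400600b) (nat_lit 65)) (.one (nat_lit 0x500000800c015a00001001802a411)) (.br (Nat.shiftLeft (nat_lit 0x500000800c017) (nat_lit 64)) (.one (nat_lit 0x500000800c016a00001001802c411))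 (.one (nat_lit 0x500000800c017a00001001802e411))))) (.br (Nat.shiftLeft (nat_lit 0x300000400600b) (nat_lit 65)) (.br (Nat.shiftLeft (nat_lit 0x3) (nat_lit 113)) (.one (nat_lit 0x500000800c018a000010018030411)) (.one (nat_lit 0x600000800c015c00001001802a411))) (.br (Nat.shiftLeft (nat_lit 0x600000800c017) (nat_lit 64)) (.one (nat_lit 0x600000800c016c00001001802c411)) (.br (Nat.shiftLeft (nat_lit 0xc00001001803) (nat_lit 67)) (.one (nat_lit 0x600000800c017c00001001802e411)) (.one (nat_lit 0x600000800c018c000010018030411)))))) (.br (Nat.shiftLeft (nat_lit 0x400000400600b) (nat_lit 65)) (.br (Nat.shiftLeft (nat_lit 0x700000800c017) (nat_lit 64)) (.br (Nat.shiftLeft (nat_lit 0x380000400600b) (nat_lit 65)) (.one (nat_lit 0x700000800c015e00001001802a411)) (.one (nat_lit 0x700000800c016e00001001802c411))) (.br (Nat.shiftLeft (nat_lit 0xe00001001803) (nat_lit 67)) (.one (nat_lit 0x700000800c017e00001001802e411)) (.br (Nat.shiftLeft (nat_lit 0x1) (nat_lit 115)) (.one (nat_lit 0x700000800c018e000010018030411)) (.one (nat_lit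 0x800000800c015000001001812c411))))) (.br (Nat.shiftLeft (nat_lit 0x1000001001803) (nat_lit 67)) (.br (Nat.shiftLeft (nat_lit 0x800000800c017) (nat_lit 64)) (.one (nat_lit 0x800000800c016000001001812e411)) (.one (nat_lit 0x800000800c0170000010018130411))) (.br (Nat.shiftLeft (nat_lit 0x9) (nat_lit 112)) (.one (nat_lit 0x800000800c0180000010018132411)) (.br (Nat.shiftLeft (nat_lit 0x480000400600b) (nat_lit 65)) (.one (nat_lit 0x900000800c015200001001812c411)) (.one (nat_lit 0x900000800c016200001001812e411))))))) (.br (Nat.shiftLeft (nat_lit 0x3) (nat_lit 114)) (.br (Nat.shiftLeft (nat_lit 0x1400001001803) (nat_lit 67)) (.br (Nat.shiftLeft (nat_lit 0x5) (nat_lit 113)) (.br (Nat.shiftLeft (nat_lit 0x1200001001803) (nat_lit 67)) (.one (nat_lit 0x900000800c0172000010018130411)) (.one (nat_lit 0x900000800c0182000010018132411))) (.br (Nat.shiftLeft (nat_lit 0x500000400600b) (nat_lit 65)) (.one (nat_lit 0xa00000800c015400001001812c411)) (.br (Nat.shiftLeft (nat_lit 0xa00000800c017) (nat_lit 64)) (.one (nat_lit 0xa00000800c016400001001812e411))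 (.one (nat_lit 0xa00000800c0174000010018130411))))) (.br (Nat.shiftLeft (nat_lit 0x580000400600b) (nat_lit 65)) (.br (Nat.shiftLeft (nat_lit 0xb) (nat_lit 112)) (.one (nat_lit 0xa00000800c0184000010018132411)) (.one (nat_lit 0xb00000800c015600001001812c411))) (.br (Nat.shiftLeft (nat_lit 0xb00000800c017) (nat_lit 64)) (.one (nat_lit 0xb00000800c016600001001812e411)) (.br (Nat.shiftLeft (nat_lit 0x1600001001803) (nat_lit 67)) (.one (nat_lit 0xb00000800c0176000010018130411)) (.one (nat_lit 0xb00000800c0186000010018132411)))))) (.br (Nat.shiftLeft (nat_lit 0x400001) (nat_lit 102)) (.br (Nat.shiftLeft (nat_lit 0xc00000800c017) (nat_lit 64)) (.br (Nat.shiftLeft (nat_lit 0x600000400600b) (nat_lit 65)) (.one (nat_lit 0xc00000800c015800001001812c411)) (.one (nat_lit 0xc00000800c016800001001812e411))) (.br (Nat.shiftLeft (nat_lit 0x1800001001803) (nat_lit 67)) (.one (nat_lit 0xc00000800c0178000010018130411)) (.br (Nat.shiftLeft (nat_lit 0x1) (nat_lit 124)) (.one (nat_lit 0xc00000800c0188000010018132411)) (.one (nat_lit 0x100000300800c015000601003842a511)))))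 (.br (Nat.shiftLeft (nat_lit 0x800001) (nat_lit 102)) (.br (Nat.shiftLeft (nat_lit 0x1) (nat_lit 125)) (.one (nat_lit 0x100000400800c015000801003842a511)) (.one (nat_lit 0x200000300800c015000601005882a511))) (.br (Nat.shiftLeft (nat_lit 0x3) (nat_lit 124)) (.one (nat_lit 0x200000400800c015000801005882a511)) (.br (Nat.shiftLeft (nat_lit 0xc00001) (nat_lit 102)) (.one (nat_lit 0x300000300800c0150006010078c2a511)) (.one (nat_lit 0x300000400800c0150008010078c2a511))))))))
def t61 : k61.all (jb2 57 fl b0) = true := by decide +kernel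
noncomputable def k62 : KT := (.br (Nat.shiftLeft (nat_lit 0x2000001) (nat_lit 102)) (.br (Nat.shiftLeft (nat_lit 0x3) (nat_lit 125)) (.br (Nat.shiftLeft (nat_lit 0x5) (nat_lit 124)) (.br (Nat.shiftLeft (nat_lit 0x1000001) (nat_lit 102)) (.one (nat_lit 0x400000300800c015000601009902a511)) (.one (nat_lit 0x400000400800c015000801009902a511))) (.br (Nat.shiftLeft (nat_lit 0x1400001) (nat_lit 102)) (.one (nat_lit 0x500000300800c01500060100b942a511)) (.one (nat_lit 0x500000400800c01500080100b942a511)))) (.br (Nat.shiftLeft (nat_lit 0x7) (nat_lit 124)) (.br (Nat.shiftLeft (nat_lit 0x1800001) (nat_lit 102)) (.one (nat_lit 0x600000300800c01500060100d982a511)) (.one (nat_lit 0x600000400800c01500080100d982a511))) (.br (Nat.shiftLeft (nat_lit 0x1c00001) (nat_lit 102)) (.one (nat_lit 0x700000300800c01500060100f9c2a511)) (.br (Nat.shiftLeft (nat_lit 0x1) (nat_lit 127)) (.one (nat_lit 0x700000400800c01500080100f9c2a511)) (.one (nat_lit 0x800000300800c015000601011a02a511)))))) (.br (Nat.shiftLeft (nat_lit 0x2800001) (nat_lit 102))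 (.br (Nat.shiftLeft (nat_lit 0x2400001) (nat_lit 102)) (.br (Nat.shiftLeft (nat_lit 0x9) (nat_lit 124)) (.one (nat_lit 0x800000400800c015000801011a02a511)) (.one (nat_lit 0x900000300800c015000601013a42a511))) (.br (Nat.shiftLeft (nat_lit 0x5) (nat_lit 125)) (.one (nat_lit 0x900000400800c015000801013a42a511)) (.one (nat_lit 0xa00000300800c015000601015a82a511)))) (.br (Nat.shiftLeft (nat_lit 0x2c00001) (nat_lit 102)) (.br (Nat.shiftLeft (nat_lit 0xb) (nat_lit 124)) (.one (nat_lit 0xa00000400800c015000801015a82a511)) (.one (nat_lit 0xb00000300800c015000601017ac2a511))) (.br (Nat.shiftLeft (nat_lit 0x3) (nat_lit 126)) (.one (nat_lit 0xb00000400800c015000801017ac2a511)) (.br (Nat.shiftLeft (nat_lit 0x3000001) (nat_lit 102)) (.one (nat_lit 0xc00000300800c015000601019b02a511)) (.one (nat_lit 0xc00000400800c015000801019b02a511)))))))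
def t62 : k62.all (jb2 57 fl b0) = true := by decide +kernel
noncomputable def s2 : KT := (.br (nat_lit 0x400800c0180008010018030540) (.br (nat_lit 0x200800c016000401001802c540) (.br (nat_lit 0x100800c0180002010018030540) (.br (nat_lit 0x100800c016000201001802c540) k44 k45) (.br (nat_lit 0x200800c015000401001802a540) k46 k47)) (.br (nat_lit 0x300800c016000601001802c540) (.br (nat_lit 0x300800c015000601001802b500) k48 k49) (.br (nat_lit 0x400800c015000801001802b500) k50 (.br (nat_lit 0x400800c016000801001802c540) k51 k52)))) (.br (nat_lit 0x600800c018000c010018030540) (.br (nat_lit 0x500800c016000a01001802c540) (.br (nat_lit 0x500800c015000a01001802a540) k53 k54) (.br (nat_lit 0x500800c018000a010018030540) k55 (.br (nat_lit 0x600800c015000c01001802a540) k56 k57))) (.br (nat_lit 0x200000800c0184000010018030411) (.br (nat_lit 0x700800c016000e01001802c540) k58 k59) (.br (nat_lit 0x400000800c016800001001802c411) k60 (.br (nat_lit 0x300000400800c0150008010078c2a511) k61 k62)))))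
noncomputable def u2 : KT := (.br (Nat.shiftLeft (nat_lit 0x1001803) (nat_lit 67)) (.br (Nat.shiftLeft (nat_lit 0x400600b) (nat_lit 65)) (.one (nat_lit 0x800c015000001001802a430)) (.br (Nat.shiftLeft (nat_lit 0x800c017) (nat_lit 64)) (.one (nat_lit 0x800c016000001001802c430)) (.one (nat_lit 0x800c017000001001802e430)))) (.br (Nat.shiftLeft (nat_lit 0x800d00f) (nat_lit 64)) (.br (Nat.shiftLeft (nat_lit 0x800d) (nat_lit 76)) (.one (nat_lit 0x800c0180000010018030430)) (.one (nat_lit 0x800d00e000001001a01d400))) (.br (Nat.shiftLeft (nat_lit 0x800d01) (nat_lit 68)) (.one (nat_lit 0x800d00f000001001a01f400)) (.one (nat_lit 0x800d010000001001a021400)))))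
def w2 : u2.all (wj 57 s2) = true := by decide +kernel
def o2 : OkW 57 (jb2 57 fl) u2 := .lift s2 _ (.br _ _ _ (.br _ _ _ (.br _ _ _ (.br _ _ _ (.leaf b0 k44 t44) (.leaf b0 k45 t45)) (.br _ _ _ (.leaf b0 k46 t46) (.leaf b0 k47 t47))) (.br _ _ _ (.br _ _ _ (.leaf b0 k48 t48) (.leaf b0 k49 t49)) (.br _ _ _ (.leaf b0 k50 t50) (.br _ _ _ (.leaf b0 k51 t51) (.leaf b0 k52 t52))))) (.br _ _ _ (.br _ _ _ (.br _ _ _ (.leaf b0 k53 t53) (.leaf b0 k54 t54)) (.br _ _ _ (.leaf b0 k55 t55) (.br _ _ _ (.leaf b0 k56 t56) (.leaf b0 k57 t57)))) (.br _ _ _ (.br _ _ _ (.leaf b0 k58 t58) (.leaf b0 k59 t59)) (.br _ _ _ (.leaf b0 k60 t60) (.br _ _ _ (.leaf b0 k61 t61) (.leaf b0 k62 t62)))))) w2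
noncomputable def k63 : KT := (.br (Nat.shiftLeft (nat_lit 0x5) (nat_lit 100)) (.br (Nat.shiftLeft (nat_lit 0x1) (nat_lit 101)) (.br (Nat.shiftLeft (nat_lit 0x1) (nat_lit 100)) (.one (nat_lit 0x800d011000001001a023400)) (.one (nat_lit 0x100800d011000201001a023500))) (.br (Nat.shiftLeft (nat_lit 0x3) (nat_lit 100)) (.one (nat_lit 0x200800d011000401001a023500)) (.br (Nat.shiftLeft (nat_lit 0x1) (nat_lit 102)) (.one (nat_lit 0x300800d011000601001a023500)) (.one (nat_lit 0x400800d011000801001a023500))))) (.br (Nat.shiftLeft (nat_lit 0x1) (nat_lit 112)) (.br (Nat.shiftLeft (nat_lit 0x3) (nat_lit 101)) (.one (nat_lit 0x500800d011000a01001a023500)) (.br (Nat.shiftLeft (nat_lit 0x7) (nat_lit 100)) (.one (nat_lit 0x600800d011000c01001a023500)) (.one (nat_lit 0x700800d011000e01001a023500)))) (.br (Nat.shiftLeft (nat_lit 0x801) (nat_lit 101)) (.one (nat_lit 0x100000800d011200001001a022411)) (.br (Nat.shiftLeft (nat_lit 0x1003) (nat_lit 100)) (.one (nat_lit 0x100200800d011200401001a023600)) (.one (nat_lit 0x100300800d011200601001a022650))))))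
def t63 : k63.all (jb2 57 fl b0) = true := by decide +kernel
noncomputable def k64 : KT := (.one (nat_lit 0x100400800d011200801001a022650))
def t64 : k64.all (jb2 57 fl b0) = true := by decide +kernel
noncomputable def k65 : KT := (.br (Nat.shiftLeft (nat_lit 0x1007) (nat_lit 100)) (.br (Nat.shiftLeft (nat_lit 0x803) (nat_lit 101)) (.one (nat_lit 0x100500800d011200a01001a022650)) (.one (nat_lit 0x100600800d011200c01001a022650))) (.br (Nat.shiftLeft (nat_lit 0x1) (nat_lit 113)) (.one (nat_lit 0x100700800d011200e01001a022650)) (.br (Nat.shiftLeft (nat_lit 0x1001) (nat_lit 101)) (.one (nat_lit 0x200000800d011400001001a022411)) (.one (nat_lit 0x200300800d011400601001a023600)))))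
def t65 : k65.all (jb2 57 fl b0) = true := by decide +kernel
noncomputable def k66 : KT := (.one (nat_lit 0x200400800d011400801001a022650))
def t66 : k66.all (jb2 57 fl b0) = true := by decide +kernel
noncomputable def k67 : KT := (.br (Nat.shiftLeft (nat_lit 0x1003) (nat_lit 101)) (.one (nat_lit 0x200500800d011400a01001a022650)) (.one (nat_lit 0x200600800d011400c01001a022650)))
def t67 : k67.all (jb2 57 fl b0) = true := by decide +kernel
noncomputable def k68 : KT := (.br (Nat.shiftLeft (nat_lit 0x3) (nat_lit 112)) (.one (nat_lit 0x200700800d011400e01001a022650)) (.one (nat_lit 0x300000800d011600001001a022411)))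
def t68 : k68.all (jb2 57 fl b0) = true := by decide +kernel
noncomputable def k69 : KT := (.one (nat_lit 0x300400800d011600801001a022650))
def t69 : k69.all (jb2 57 fl b0) = true := by decide +kernel
noncomputable def k70 : KT := (.br (Nat.shiftLeft (nat_lit 0x1803) (nat_lit 101)) (.one (nat_lit 0x300500800d011600a01001a022650)) (.one (nat_lit 0x300600800d011600c01001a022650)))
def t70 : k70.all (jb2 57 fl b0) = true := by decide +kernel
noncomputable def k71 : KT := (.br (Nat.shiftLeft (nat_lit 0x1) (nat_lit 114)) (.one (nat_lit 0x300700800d011600e01001a022650)) (.br (Nat.shiftLeft (nat_lit 0x1001) (nat_lit 102)) (.one (nat_lit 0x400000800d011800001001a022411)) (.one (nat_lit 0x400500800d011800a01001a022650))))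
def t71 : k71.all (jb2 57 fl b0) = true := by decide +kernel
noncomputable def k72 : KT := (.br (Nat.shiftLeft (nat_lit 0x5) (nat_lit 112)) (.br (Nat.shiftLeft (nat_lit 0x4007) (nat_lit 100)) (.one (nat_lit 0x400600800d011800c01001a022650)) (.one (nat_lit 0x400700800d011800e01001a022650))) (.br (Nat.shiftLeft (nat_lit 0x1401) (nat_lit 102)) (.one (nat_lit 0x500000800d011a00001001a022411)) (.one (nat_lit 0x500600800d011a00c01001a022650))))
def t72 : k72.all (jb2 57 fl b0) = true := by decide +kernel
noncomputable def k73 : KT := (.br (Nat.shiftLeft (nat_lit 0x3) (nat_lit 114)) (.br (Nat.shiftLeft (nat_lit 0x1) (nat_lit 115)) (.br (Nat.shiftLeft (nat_lit 0x1801) (nat_lit 102)) (.br (Nat.shiftLeft (nat_lit 0x3) (nat_lit 113)) (.one (nat_lit 0x500700800d011a00e01001a022650)) (.one (nat_lit 0x600000800d011c00001001a022411))) (.br (Nat.shiftLeft (nat_lit 0x7) (nat_lit 112)) (.one (nat_lit 0x600700800d011c00e01001a022650)) (.one (nat_lit 0x700000800d011e00001001a022411)))) (.br (Nat.shiftLeft (nat_lit 0x5) (nat_lit 113))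 (.br (Nat.shiftLeft (nat_lit 0x9) (nat_lit 112)) (.one (nat_lit 0x800000800d011000001001a124411)) (.one (nat_lit 0x900000800d011200001001a124411))) (.br (Nat.shiftLeft (nat_lit 0xb) (nat_lit 112)) (.one (nat_lit 0xa00000800d011400001001a124411)) (.one (nat_lit 0xb00000800d011600001001a124411))))) (.br (Nat.shiftLeft (nat_lit 0x1000003) (nat_lit 100)) (.br (Nat.shiftLeft (nat_lit 0x1) (nat_lit 124)) (.br (Nat.shiftLeft (nat_lit 0xd) (nat_lit 112)) (.one (nat_lit 0xc00000800d011800001001a124411)) (.one (nat_lit 0xd00000800d011a00001001a124411))) (.br (Nat.shiftLeft (nat_lit 0x800001) (nat_lit 101)) (.one (nat_lit 0x100000100800d011000201003a422511)) (.one (nat_lit 0x100000200800d011000401003a422511)))) (.br (Nat.shiftLeft (nat_lit 0x1000005) (nat_lit 100)) (.br (Nat.shiftLeft (nat_lit 0x400001) (nat_lit 102)) (.one (nat_lit 0x100000300800d011000601003a422511)) (.one (nat_lit 0x100000400800d011000801003a422511))) (.br (Nat.shiftLeft (nat_lit 0x800003) (nat_lit 101)) (.one (nat_lit 0x100000500800d011000a01003a422511))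 (.br (Nat.shiftLeft (nat_lit 0x1000007) (nat_lit 100)) (.one (nat_lit 0x100000600800d011000c01003a422511)) (.one (nat_lit 0x100000700800d011000e01003a422511)))))))
noncomputable def b74 : BT := .node (nat_lit 0x1) (nat_lit 0xdb26d9a590003a98000ac6810008800028) .leaf .leaf
def t73 : k73.all (jb2 57 fl b74) = true := by decide +kernel
noncomputable def k74 : KT := (.br (Nat.shiftLeft (nat_lit 0x3000003) (nat_lit 100)) (.br (Nat.shiftLeft (nat_lit 0x2000005) (nat_lit 100)) (.br (Nat.shiftLeft (nat_lit 0x1000001) (nat_lit 101)) (.br (Nat.shiftLeft (nat_lit 0x1) (nat_lit 125)) (.one (nat_lit 0x100200300800d011400601003a422760)) (.one (nat_lit 0x200000100800d011000201005a822511))) (.br (Nat.shiftLeft (nat_lit 0x2000003) (nat_lit 100)) (.one (nat_lit 0x200000200800d011000401005a822511)) (.br (Nat.shiftLeft (nat_lit 0x800001) (nat_lit 102)) (.one (nat_lit 0x200000300800d011000601005a822511)) (.one (nat_lit 0x200000400800d011000801005a822511))))) (.br (Nat.shiftLeft (nat_lit 0x2000007) (nat_lit 100)) (.br (Nat.shiftLeft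 (nat_lit 0x1000003) (nat_lit 101)) (.one (nat_lit 0x200000500800d011000a01005a822511)) (.one (nat_lit 0x200000600800d011000c01005a822511))) (.br (Nat.shiftLeft (nat_lit 0x3) (nat_lit 124)) (.one (nat_lit 0x200000700800d011000e01005a822511)) (.br (Nat.shiftLeft (nat_lit 0x1800001) (nat_lit 101)) (.one (nat_lit 0x300000100800d011000201007ac22511)) (.one (nat_lit 0x300000200800d011000401007ac22511)))))) (.br (Nat.shiftLeft (nat_lit 0x1) (nat_lit 126)) (.br (Nat.shiftLeft (nat_lit 0x3000005) (nat_lit 100)) (.br (Nat.shiftLeft (nat_lit 0xc00001) (nat_lit 102)) (.one (nat_lit 0x300000300800d011000601007ac22511)) (.one (nat_lit 0x300000400800d011000801007ac22511))) (.br (Nat.shiftLeft (nat_lit 0x1800003) (nat_lit 101)) (.one (nat_lit 0x300000500800d011000a01007ac22511)) (.br (Nat.shiftLeft (nat_lit 0x3000007) (nat_lit 100)) (.one (nat_lit 0x300000600800d011000c01007ac22511)) (.one (nat_lit 0x300000700800d011000e01007ac22511))))) (.br (Nat.shiftLeft (nat_lit 0x4000003) (nat_lit 100)) (.br (Nat.shiftLeft (nat_lit 0x2000001)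 (nat_lit 101)) (.one (nat_lit 0x400000100800d011000201009b022511)) (.one (nat_lit 0x400000200800d011000401009b022511))) (.br (Nat.shiftLeft (nat_lit 0x1000001) (nat_lit 102)) (.one (nat_lit 0x400000300800d011000601009b022511)) (.br (Nat.shiftLeft (nat_lit 0x4000005) (nat_lit 100)) (.one (nat_lit 0x400000400800d011000801009b022511)) (.one (nat_lit 0x400000500800d011000a01009b022511)))))))
def t74 : k74.all (jb2 57 fl b0) = true := by decide +kernel
noncomputable def k75 : KT := (.br (Nat.shiftLeft (nat_lit 0x1400001) (nat_lit 102)) (.br (Nat.shiftLeft (nat_lit 0x5) (nat_lit 124)) (.br (Nat.shiftLeft (nat_lit 0x4000007) (nat_lit 100)) (.one (nat_lit 0x400000600800d011000c01009b022511)) (.one (nat_lit 0x400000700800d011000e01009b022511))) (.br (Nat.shiftLeft (nat_lit 0x2800001) (nat_lit 101)) (.one (nat_lit 0x500000100800d01100020100bb422511)) (.br (Nat.shiftLeft (nat_lit 0x5000003) (nat_lit 100)) (.one (nat_lit 0x500000200800d01100040100bb422511)) (.one (nat_lit 0x500000300800d01100060100bb422511))))) (.br (Nat.shiftLeft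 (nat_lit 0x2800003) (nat_lit 101)) (.br (Nat.shiftLeft (nat_lit 0x5000005) (nat_lit 100)) (.one (nat_lit 0x500000400800d01100080100bb422511)) (.one (nat_lit 0x500000500800d011000a0100bb422511))) (.br (Nat.shiftLeft (nat_lit 0x5000007) (nat_lit 100)) (.one (nat_lit 0x500000600800d011000c0100bb422511)) (.br (Nat.shiftLeft (nat_lit 0x3) (nat_lit 125)) (.one (nat_lit 0x500000700800d011000e0100bb422511)) (.one (nat_lit 0x600000100800d01100020100db822511))))))
def t75 : k75.all (jb2 57 fl b0) = true := by decide +kernel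
noncomputable def k76 : KT := (.br (Nat.shiftLeft (nat_lit 0x6000005) (nat_lit 100)) (.br (Nat.shiftLeft (nat_lit 0x6000003) (nat_lit 100)) (.one (nat_lit 0x600000200800d01100040100db822511)) (.br (Nat.shiftLeft (nat_lit 0x1800001) (nat_lit 102)) (.one (nat_lit 0x600000300800d01100060100db822511)) (.one (nat_lit 0x600000400800d01100080100db822511)))) (.br (Nat.shiftLeft (nat_lit 0x6000007) (nat_lit 100)) (.br (Nat.shiftLeft (nat_lit 0x3000003) (nat_lit 101)) (.one (nat_lit 0x600000500800d011000a0100db822511)) (.one (nat_lit 0x600000600800d011000c0100db822511))) (.br (Nat.shiftLeft (nat_lit 0x7) (nat_lit 124)) (.one (nat_lit 0x600000700800d011000e0100db822511)) (.one (nat_lit 0x700000100800d01100020100fbc22511)))))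
def t76 : k76.all (jb2 57 fl b0) = true := by decide +kernel
noncomputable def k77 : KT := (.br (Nat.shiftLeft (nat_lit 0x7000005) (nat_lit 100)) (.br (Nat.shiftLeft (nat_lit 0x7000003) (nat_lit 100)) (.one (nat_lit 0x700000200800d01100040100fbc22511)) (.br (Nat.shiftLeft (nat_lit 0x1c00001) (nat_lit 102)) (.one (nat_lit 0x700000300800d01100060100fbc22511)) (.one (nat_lit 0x700000400800d01100080100fbc22511)))) (.br (Nat.shiftLeft (nat_lit 0x7000007) (nat_lit 100)) (.br (Nat.shiftLeft (nat_lit 0x3800003) (nat_lit 101)) (.one (nat_lit 0x700000500800d011000a0100fbc22511)) (.one (nat_lit 0x700000600800d011000c0100fbc22511))) (.br (Nat.shiftLeft (nat_lit 0x1) (nat_lit 127)) (.one (nat_lit 0x700000700800d011000e0100fbc22511)) (.one (nat_lit 0x800000100800d011000201011c022511)))))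
def t77 : k77.all (jb2 57 fl b0) = true := by decide +kernel
noncomputable def k78 : KT := (.br (Nat.shiftLeft (nat_lit 0x4000003) (nat_lit 101)) (.br (Nat.shiftLeft (nat_lit 0x2000001) (nat_lit 102)) (.br (Nat.shiftLeft (nat_lit 0x8000003) (nat_lit 100)) (.one (nat_lit 0x800000200800d011000401011c022511)) (.one (nat_lit 0x800000300800d011000601011c022511))) (.br (Nat.shiftLeft (nat_lit 0x8000005) (nat_lit 100)) (.one (nat_lit 0x800000400800d011000801011c022511)) (.one (nat_lit 0x800000500800d011000a01011c022511)))) (.br (Nat.shiftLeft (nat_lit 0x9) (nat_lit 124)) (.br (Nat.shiftLeft (nat_lit 0x8000007) (nat_lit 100)) (.one (nat_lit 0x800000600800d011000c01011c022511)) (.one (nat_lit 0x800000700800d011000e01011c022511))) (.br (Nat.shiftLeft (nat_lit 0x4800001) (nat_lit 101)) (.one (nat_lit 0x900000100800d011000201013c422511)) (.one (nat_lit 0x900000200800d011000401013c422511)))))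
def t78 : k78.all (jb2 57 fl b0) = true := by decide +kernel
noncomputable def k79 : KT := (.br (Nat.shiftLeft (nat_lit 0x5800001) (nat_lit 101)) (.br (Nat.shiftLeft (nat_lit 0x5000001) (nat_lit 101)) (.br (Nat.shiftLeft (nat_lit 0x4800003) (nat_lit 101)) (.br (Nat.shiftLeft (nat_lit 0x2400001) (nat_lit 102)) (.one (nat_lit 0x900000300800d011000601013c422511)) (.br (Nat.shiftLeft (nat_lit 0x9000005) (nat_lit 100)) (.one (nat_lit 0x900000400800d011000801013c422511)) (.one (nat_lit 0x900000500800d011000a01013c422511)))) (.br (Nat.shiftLeft (nat_lit 0x9000007) (nat_lit 100)) (.one (nat_lit 0x900000600800d011000c01013c422511)) (.br (Nat.shiftLeft (nat_lit 0x5) (nat_lit 125)) (.one (nat_lit 0x900000700800d011000e01013c422511)) (.one (nat_lit 0xa00000100800d011000201015c822511))))) (.br (Nat.shiftLeft (nat_lit 0xa000005) (nat_lit 100)) (.br (Nat.shiftLeft (nat_lit 0xa000003) (nat_lit 100)) (.one (nat_lit 0xa00000200800d011000401015c822511)) (.br (Nat.shiftLeft (nat_lit 0x2800001) (nat_lit 102)) (.one (nat_lit 0xa00000300800d011000601015c822511))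 (.one (nat_lit 0xa00000400800d011000801015c822511)))) (.br (Nat.shiftLeft (nat_lit 0xa000007) (nat_lit 100)) (.br (Nat.shiftLeft (nat_lit 0x5000003) (nat_lit 101)) (.one (nat_lit 0xa00000500800d011000a01015c822511)) (.one (nat_lit 0xa00000600800d011000c01015c822511))) (.br (Nat.shiftLeft (nat_lit 0xb) (nat_lit 124)) (.one (nat_lit 0xa00000700800d011000e01015c822511)) (.one (nat_lit 0xb00000100800d011000201017cc22511)))))) (.br (Nat.shiftLeft (nat_lit 0x3) (nat_lit 126)) (.br (Nat.shiftLeft (nat_lit 0xb000005) (nat_lit 100)) (.br (Nat.shiftLeft (nat_lit 0xb000003) (nat_lit 100)) (.one (nat_lit 0xb00000200800d011000401017cc22511)) (.br (Nat.shiftLeft (nat_lit 0x2c00001) (nat_lit 102)) (.one (nat_lit 0xb00000300800d011000601017cc22511)) (.one (nat_lit 0xb00000400800d011000801017cc22511)))) (.br (Nat.shiftLeft (nat_lit 0x5800003) (nat_lit 101)) (.one (nat_lit 0xb00000500800d011000a01017cc22511)) (.br (Nat.shiftLeft (nat_lit 0xb000007) (nat_lit 100)) (.one (nat_lit 0xb00000600800d011000c01017cc22511)) (.one (nat_lit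 0xb00000700800d011000e01017cc22511))))) (.br (Nat.shiftLeft (nat_lit 0x3000001) (nat_lit 102)) (.br (Nat.shiftLeft (nat_lit 0x6000001) (nat_lit 101)) (.one (nat_lit 0xc00000100800d011000201019d022511)) (.br (Nat.shiftLeft (nat_lit 0xc000003) (nat_lit 100)) (.one (nat_lit 0xc00000200800d011000401019d022511)) (.one (nat_lit 0xc00000300800d011000601019d022511)))) (.br (Nat.shiftLeft (nat_lit 0x6000003) (nat_lit 101)) (.br (Nat.shiftLeft (nat_lit 0xc000005) (nat_lit 100)) (.one (nat_lit 0xc00000400800d011000801019d022511)) (.one (nat_lit 0xc00000500800d011000a01019d022511))) (.br (Nat.shiftLeft (nat_lit 0xc000007) (nat_lit 100)) (.one (nat_lit 0xc00000600800d011000c01019d022511)) (.one (nat_lit 0xc00000700800d011000e01019d022511)))))))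
def t79 : k79.all (jb2 57 fl b0) = true := by decide +kernel
noncomputable def k80 : KT := (.br (Nat.shiftLeft (nat_lit 0x1000001) (nat_lit 113)) (.br (Nat.shiftLeft (nat_lit 0xd000005) (nat_lit 100)) (.br (Nat.shiftLeft (nat_lit 0xd000003) (nat_lit 100)) (.br (Nat.shiftLeft (nat_lit 0x6800001) (nat_lit 101)) (.one (nat_lit 0xd00000100800d01100020101bd422511)) (.one (nat_lit 0xd00000200800d01100040101bd422511))) (.br (Nat.shiftLeft (nat_lit 0x3400001) (nat_lit 102)) (.one (nat_lit 0xd00000300800d01100060101bd422511)) (.one (nat_lit 0xd00000400800d01100080101bd422511)))) (.br (Nat.shiftLeft (nat_lit 0x1) (nat_lit 136)) (.br (Nat.shiftLeft (nat_lit 0x6800003) (nat_lit 101)) (.one (nat_lit 0xd00000500800d011000a0101bd422511)) (.one (nat_lit 0xd00000600800d011000c0101bd422511))) (.br (Nat.shiftLeft (nat_lit 0x800001) (nat_lit 113)) (.one (nat_lit 0x100000100200800d011200403041a022611)) (.br (Nat.shiftLeft (nat_lit 0x1) (nat_lit 137)) (.one (nat_lit 0x100000200300800d011400603041a022611)) (.one (nat_lit 0x200000100200800d011200405081a022611))))))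 (.br (Nat.shiftLeft (nat_lit 0x2000001) (nat_lit 113)) (.br (Nat.shiftLeft (nat_lit 0x1800001) (nat_lit 113)) (.br (Nat.shiftLeft (nat_lit 0x3) (nat_lit 136)) (.one (nat_lit 0x200000200300800d011400605081a022611)) (.one (nat_lit 0x300000100200800d0112004070c1a022611))) (.br (Nat.shiftLeft (nat_lit 0x1) (nat_lit 138)) (.one (nat_lit 0x300000200300800d0114006070c1a022611)) (.one (nat_lit 0x400000100200800d011200409101a022611)))) (.br (Nat.shiftLeft (nat_lit 0x2800001) (nat_lit 113)) (.br (Nat.shiftLeft (nat_lit 0x5) (nat_lit 136)) (.one (nat_lit 0x400000200300800d011400609101a022611)) (.one (nat_lit 0x500000100200800d01120040b141a022611))) (.br (Nat.shiftLeft (nat_lit 0x3) (nat_lit 137)) (.one (nat_lit 0x500000200300800d01140060b141a022611)) (.br (Nat.shiftLeft (nat_lit 0x3000001) (nat_lit 113)) (.one (nat_lit 0x600000100200800d01120040d181a022611)) (.one (nat_lit 0x600000200300800d01140060d181a022611)))))))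
def t80 : k80.all (jb2 57 fl b0) = true := by decide +kernel
noncomputable def k81 : KT := (.br (Nat.shiftLeft (nat_lit 0x5000001) (nat_lit 113)) (.br (Nat.shiftLeft (nat_lit 0x4000001) (nat_lit 113)) (.br (Nat.shiftLeft (nat_lit 0x3800001) (nat_lit 113)) (.one (nat_lit 0x700000100200800d01120040f1c1a022611)) (.br (Nat.shiftLeft (nat_lit 0x1) (nat_lit 139)) (.one (nat_lit 0x700000200300800d01140060f1c1a022611)) (.one (nat_lit 0x800000100200800d011200411201a022611)))) (.br (Nat.shiftLeft (nat_lit 0x4800001) (nat_lit 113)) (.br (Nat.shiftLeft (nat_lit 0x9) (nat_lit 136)) (.one (nat_lit 0x800000200300800d011400611201a022611)) (.one (nat_lit 0x900000100200800d011200413241a022611))) (.br (Nat.shiftLeft (nat_lit 0x5) (nat_lit 137)) (.one (nat_lit 0x900000200300800d011400613241a022611)) (.one (nat_lit 0xa00000100200800d011200415281a022611))))) (.br (Nat.shiftLeft (nat_lit 0x3) (nat_lit 138)) (.br (Nat.shiftLeft (nat_lit 0xb) (nat_lit 136)) (.one (nat_lit 0xa00000200300800d011400615281a022611)) (.br (Nat.shiftLeft (nat_lit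 0x5800001) (nat_lit 113)) (.one (nat_lit 0xb00000100200800d0112004172c1a022611)) (.one (nat_lit 0xb00000200300800d0114006172c1a022611)))) (.br (Nat.shiftLeft (nat_lit 0xd) (nat_lit 136)) (.br (Nat.shiftLeft (nat_lit 0x6000001) (nat_lit 113)) (.one (nat_lit 0xc00000100200800d011200419301a022611)) (.one (nat_lit 0xc00000200300800d011400619301a022611))) (.br (Nat.shiftLeft (nat_lit 0x6800001) (nat_lit 113)) (.one (nat_lit 0xd00000100200800d01120041b341a022611)) (.one (nat_lit 0xd00000200300800d01140061b341a022611))))))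
def t81 : k81.all (jb2 57 fl b0) = true := by decide +kernel
noncomputable def s3 : KT := (.br (nat_lit 0x400500800d011800a01001a022650) (.br (nat_lit 0x200400800d011400801001a022650) (.br (nat_lit 0x100400800d011200801001a022650) (.br (nat_lit 0x100300800d011200601001a022650) k63 k64) (.br (nat_lit 0x200300800d011400601001a023600) k65 k66)) (.br (nat_lit 0x300000800d011600001001a022411) (.br (nat_lit 0x200600800d011400c01001a022650) k67 k68) (.br (nat_lit 0x300400800d011600801001a022650) k69 (.br (nat_lit 0x300600800d011600c01001a022650) k70 k71)))) (.br (nat_lit 0x700000100800d01100020100fbc22511) (.br (nat_lit 0x100000700800d011000e01003a422511) (.br (nat_lit 0x500600800d011a00c01001a022650) k72 k73) (.br (nat_lit 0x400000500800d011000a01009b022511) k74 (.br (nat_lit 0x600000100800d01100020100db822511) k75 k76))) (.br (nat_lit 0x900000200800d011000401013c422511) (.br (nat_lit 0x800000100800d011000201011c022511) k77 k78) (.br (nat_lit 0xc00000700800d011000e01019d022511) k79 (.br (nat_lit 0x600000200300800d01140060d181a022611)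 k80 k81)))))
noncomputable def u3 : KT := (.one (nat_lit 0x800d011000001001a022430))
def w3 : u3.all (wj 57 s3) = true := by decide +kernel
def o3 : OkW 57 (jb2 57 fl) u3 := .lift s3 _ (.br _ _ _ (.br _ _ _ (.br _ _ _ (.br _ _ _ (.leaf b0 k63 t63) (.leaf b0 k64 t64)) (.br _ _ _ (.leaf b0 k65 t65) (.leaf b0 k66 t66))) (.br _ _ _ (.br _ _ _ (.leaf b0 k67 t67) (.leaf b0 k68 t68)) (.br _ _ _ (.leaf b0 k69 t69) (.br _ _ _ (.leaf b0 k70 t70) (.leaf b0 k71 t71))))) (.br _ _ _ (.br _ _ _ (.br _ _ _ (.leaf b0 k72 t72) (.leaf b74 k73 t73)) (.br _ _ _ (.leaf b0 k74 t74) (.br _ _ _ (.leaf b0 k75 t75) (.leaf b0 k76 t76)))) (.br _ _ _ (.br _ _ _ (.leaf b0 k77 t77) (.leaf b0 k78 t78)) (.br _ _ _ (.leaf b0 k79 t79) (.br _ _ _ (.leaf b0 k80 t80) (.leaf b0 k81 t81)))))) w3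
noncomputable def k82 : KT := (.br (Nat.shiftLeft (nat_lit 0x800d013) (nat_lit 64)) (.one (nat_lit 0x800d012000001001a025400)) (.br (Nat.shiftLeft (nat_lit 0x1) (nat_lit 100)) (.one (nat_lit 0x800d013000001001a027400)) (.one (nat_lit 0x100800d012000201001a024540))))
def t82 : k82.all (jb2 57 fl b0) = true := by decide +kernel
noncomputable def k83 : KT := (.br (Nat.shiftLeft (nat_lit 0x400800d013) (nat_lit 64)) (.br (Nat.shiftLeft (nat_lit 0x3) (nat_lit 100)) (.br (Nat.shiftLeft (nat_lit 0x1) (nat_lit 101)) (.one (nat_lit 0x100800d013000201001a026540)) (.br (Nat.shiftLeft (nat_lit 0x200800d013) (nat_lit 64)) (.one (nat_lit 0x200800d012000401001a025500)) (.one (nat_lit 0x200800d013000401001a027500)))) (.br (Nat.shiftLeft (nat_lit 0x300800d013) (nat_lit 64)) (.one (nat_lit 0x300800d012000601001a025500)) (.br (Nat.shiftLeft (nat_lit 0x1) (nat_lit 102)) (.one (nat_lit 0x300800d013000601001a027500)) (.one (nat_lit 0x400800d012000801001a025500))))) (.br (Nat.shiftLeft (nat_lit 0x3) (nat_lit 101)) (.br (Nat.shiftLeft (nat_lit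 0x5) (nat_lit 100)) (.one (nat_lit 0x400800d013000801001a027500)) (.br (Nat.shiftLeft (nat_lit 0x500800d013) (nat_lit 64)) (.one (nat_lit 0x500800d012000a01001a025500)) (.one (nat_lit 0x500800d013000a01001a027500)))) (.br (Nat.shiftLeft (nat_lit 0x600800d013) (nat_lit 64)) (.one (nat_lit 0x600800d012000c01001a025500)) (.br (Nat.shiftLeft (nat_lit 0x7) (nat_lit 100)) (.one (nat_lit 0x600800d013000c01001a027500)) (.one (nat_lit 0x700800d012000e01001a025500))))))
def t83 : k83.all (jb2 57 fl b0) = true := by decide +kernel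
noncomputable def k84 : KT := (.br (Nat.shiftLeft (nat_lit 0x1) (nat_lit 112)) (.one (nat_lit 0x700800d013000e01001a026540)) (.br (Nat.shiftLeft (nat_lit 0x100000800d013) (nat_lit 64)) (.one (nat_lit 0x100000800d012200001001a024411)) (.one (nat_lit 0x100000800d013200001001a026411))))
def t84 : k84.all (jb2 57 fl b0) = true := by decide +kernel
noncomputable def k85 : KT := (.one (nat_lit 0x100200800d012200401001a024650))
def t85 : k85.all (jb2 57 fl b0) = true := by decide +kernel
noncomputable def k86 : KT := (.one (nat_lit 0x100200800d013200401001a026650))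
def t86 : k86.all (jb2 57 fl b0) = true := by decide +kernel
noncomputable def k87 : KT := (.one (nat_lit 0x100300800d012200601001a024650))
def t87 : k87.all (jb2 57 fl b0) = true := by decide +kernel
noncomputable def k88 : KT := (.br (Nat.shiftLeft (nat_lit 0x401) (nat_lit 102)) (.one (nat_lit 0x100300800d013200601001a026650)) (.one (nat_lit 0x100400800d012200801001a024650)))
def t88 : k88.all (jb2 57 fl b0) = true := by decide +kernel
noncomputable def k89 : KT := (.br (Nat.shiftLeft (nat_lit 0x1005) (nat_lit 100)) (.one (nat_lit 0x100400800d013200801001a026650)) (.br (Nat.shiftLeft (nat_lit 0x100500800d013) (nat_lit 64)) (.one (nat_lit 0x100500800d012200a01001a024650)) (.one (nat_lit 0x100500800d013200a01001a026650))))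
def t89 : k89.all (jb2 57 fl b0) = true := by decide +kernel
noncomputable def k90 : KT := (.br (Nat.shiftLeft (nat_lit 0x1007) (nat_lit 100)) (.br (Nat.shiftLeft (nat_lit 0x100600800d013) (nat_lit 64)) (.one (nat_lit 0x100600800d012200c01001a024650)) (.one (nat_lit 0x100600800d013200c01001a026650))) (.br (Nat.shiftLeft (nat_lit 0x1) (nat_lit 113)) (.one (nat_lit 0x100700800d012200e01001a024650)) (.br (Nat.shiftLeft (nat_lit 0x200000800d013) (nat_lit 64)) (.one (nat_lit 0x200000800d012400001001a024411)) (.one (nat_lit 0x200000800d013400001001a026411)))))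
def t90 : k90.all (jb2 57 fl b0) = true := by decide +kernel
noncomputable def k91 : KT := (.one (nat_lit 0x200300800d012400601001a024650))
def t91 : k91.all (jb2 57 fl b0) = true := by decide +kernel
noncomputable def k92 : KT := (.one (nat_lit 0x200300800d013400601001a026650))
def t92 : k92.all (jb2 57 fl b0) = true := by decide +kernel
noncomputable def k93 : KT := (.br (Nat.shiftLeft (nat_lit 0x200400800d013) (nat_lit 64)) (.one (nat_lit 0x200400800d012400801001a024650)) (.one (nat_lit 0x200400800d013400801001a026650)))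
def t93 : k93.all (jb2 57 fl b0) = true := by decide +kernel
noncomputable def k94 : KT := (.br (Nat.shiftLeft (nat_lit 0x200500800d013) (nat_lit 64)) (.one (nat_lit 0x200500800d012400a01001a024650)) (.br (Nat.shiftLeft (nat_lit 0x1003) (nat_lit 101)) (.one (nat_lit 0x200500800d013400a01001a026650)) (.one (nat_lit 0x200600800d012400c01001a024650))))
def t94 : k94.all (jb2 57 fl b0) = true := by decide +kernel
noncomputable def k95 : KT := (.br (Nat.shiftLeft (nat_lit 0x3) (nat_lit 112)) (.br (Nat.shiftLeft (nat_lit 0x2007) (nat_lit 100)) (.one (nat_lit 0x200600800d013400c01001a026650)) (.one (nat_lit 0x200700800d012400e01001a024650))) (.br (Nat.shiftLeft (nat_lit 0x300000800d013) (nat_lit 64)) (.one (nat_lit 0x300000800d012600001001a024411)) (.br (Nat.shiftLeft (nat_lit 0xc01) (nat_lit 102)) (.one (nat_lit 0x300000800d013600001001a026411)) (.one (nat_lit 0x300400800d012600801001a024650)))))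
def t95 : k95.all (jb2 57 fl b0) = true := by decide +kernel
noncomputable def k96 : KT := (.br (Nat.shiftLeft (nat_lit 0x3005) (nat_lit 100)) (.one (nat_lit 0x300400800d013600801001a026650)) (.one (nat_lit 0x300500800d012600a01001a024650)))
def t96 : k96.all (jb2 57 fl b0) = true := by decide +kernel
noncomputable def k97 : KT := (.br (Nat.shiftLeft (nat_lit 0x3007) (nat_lit 100)) (.br (Nat.shiftLeft (nat_lit 0x1803) (nat_lit 101)) (.one (nat_lit 0x300500800d013600a01001a026650)) (.br (Nat.shiftLeft (nat_lit 0x300600800d013) (nat_lit 64)) (.one (nat_lit 0x300600800d012600c01001a024650)) (.one (nat_lit 0x300600800d013600c01001a026650)))) (.br (Nat.shiftLeft (nat_lit 0x1) (nat_lit 114)) (.one (nat_lit 0x300700800d012600e01001a024650)) (.br (Nat.shiftLeft (nat_lit 0x400000800d013) (nat_lit 64)) (.one (nat_lit 0x400000800d012800001001a024411)) (.one (nat_lit 0x400000800d013800001001a026411)))))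
def t97 : k97.all (jb2 57 fl b0) = true := by decide +kernel
noncomputable def k98 : KT := (.br (Nat.shiftLeft (nat_lit 0x400500800d013) (nat_lit 64)) (.one (nat_lit 0x400500800d012800a01001a024650)) (.br (Nat.shiftLeft (nat_lit 0x2003) (nat_lit 101)) (.one (nat_lit 0x400500800d013800a01001a026650)) (.one (nat_lit 0x400600800d012800c01001a024650))))
def t98 : k98.all (jb2 57 fl b0) = true := by decide +kernel
noncomputable def k99 : KT := (.br (Nat.shiftLeft (nat_lit 0x500600800d013) (nat_lit 64)) (.br (Nat.shiftLeft (nat_lit 0x5) (nat_lit 112)) (.br (Nat.shiftLeft (nat_lit 0x4007) (nat_lit 100)) (.one (nat_lit 0x400600800d013800c01001a026650)) (.one (nat_lit 0x400700800d012800e01001a024650))) (.br (Nat.shiftLeft (nat_lit 0x500000800d013) (nat_lit 64)) (.one (nat_lit 0x500000800d012a00001001a024411)) (.br (Nat.shiftLeft (nat_lit 0x1401) (nat_lit 102)) (.one (nat_lit 0x500000800d013a00001001a026411)) (.one (nat_lit 0x500600800d012a00c01001a024650))))) (.br (Nat.shiftLeft (nat_lit 0x3) (nat_lit 113)) (.br (Nat.shiftLeft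 (nat_lit 0x5007) (nat_lit 100)) (.one (nat_lit 0x500600800d013a00c01001a026650)) (.one (nat_lit 0x500700800d012a00e01001a024650))) (.br (Nat.shiftLeft (nat_lit 0x600000800d013) (nat_lit 64)) (.one (nat_lit 0x600000800d012c00001001a024411)) (.br (Nat.shiftLeft (nat_lit 0x1801) (nat_lit 102)) (.one (nat_lit 0x600000800d013c00001001a026411)) (.one (nat_lit 0x600700800d012c00e01001a024650))))))
def t99 : k99.all (jb2 57 fl b0) = true := by decide +kernel
noncomputable def k100 : KT := (.br (Nat.shiftLeft (nat_lit 0x1000005) (nat_lit 100)) (.br (Nat.shiftLeft (nat_lit 0x3) (nat_lit 114)) (.br (Nat.shiftLeft (nat_lit 0x900000800d013) (nat_lit 64)) (.br (Nat.shiftLeft (nat_lit 0x1) (nat_lit 115)) (.br (Nat.shiftLeft (nat_lit 0x700000800d013) (nat_lit 64)) (.one (nat_lit 0x700000800d012e00001001a024411)) (.one (nat_lit 0x700000800d013e00001001a026411))) (.br (Nat.shiftLeft (nat_lit 0x800000800d013) (nat_lit 64)) (.one (nat_lit 0x800000800d012000001001a126411)) (.br (Nat.shiftLeft (nat_lit 0x9) (nat_lit 112)) (.one (nat_lit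 0x800000800d013000001001a128411)) (.one (nat_lit 0x900000800d012200001001a126411))))) (.br (Nat.shiftLeft (nat_lit 0xa00000800d013) (nat_lit 64)) (.br (Nat.shiftLeft (nat_lit 0x5) (nat_lit 113)) (.one (nat_lit 0x900000800d013200001001a128411)) (.one (nat_lit 0xa00000800d012400001001a126411))) (.br (Nat.shiftLeft (nat_lit 0xb) (nat_lit 112)) (.one (nat_lit 0xa00000800d013400001001a128411)) (.br (Nat.shiftLeft (nat_lit 0xb00000800d013) (nat_lit 64)) (.one (nat_lit 0xb00000800d012600001001a126411)) (.one (nat_lit 0xb00000800d013600001001a128411)))))) (.br (Nat.shiftLeft (nat_lit 0x100000200800d013) (nat_lit 64)) (.br (Nat.shiftLeft (nat_lit 0xd) (nat_lit 112)) (.br (Nat.shiftLeft (nat_lit 0xc00000800d013) (nat_lit 64)) (.one (nat_lit 0xc00000800d012800001001a126411)) (.one (nat_lit 0xc00000800d013800001001a128411))) (.br (Nat.shiftLeft (nat_lit 0xd00000800d013) (nat_lit 64)) (.one (nat_lit 0xd00000800d012a00001001a126411)) (.br (Nat.shiftLeft (nat_lit 0x1) (nat_lit 124)) (.one (nat_lit 0xd00000800d013a00001001a128411))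 (.one (nat_lit 0x100000200800d012000401003a424511))))) (.br (Nat.shiftLeft (nat_lit 0x100000300800d013) (nat_lit 64)) (.br (Nat.shiftLeft (nat_lit 0x1000003) (nat_lit 100)) (.one (nat_lit 0x100000200800d013000401003a426511)) (.one (nat_lit 0x100000300800d012000601003a424511))) (.br (Nat.shiftLeft (nat_lit 0x400001) (nat_lit 102)) (.one (nat_lit 0x100000300800d013000601003a426511)) (.br (Nat.shiftLeft (nat_lit 0x100000400800d013) (nat_lit 64)) (.one (nat_lit 0x100000400800d012000801003a424511)) (.one (nat_lit 0x100000400800d013000801003a426511))))))) (.br (Nat.shiftLeft (nat_lit 0x200000400800d013) (nat_lit 64)) (.br (Nat.shiftLeft (nat_lit 0x1) (nat_lit 125)) (.br (Nat.shiftLeft (nat_lit 0x800003) (nat_lit 101)) (.br (Nat.shiftLeft (nat_lit 0x100000500800d013) (nat_lit 64)) (.one (nat_lit 0x100000500800d012000a01003a424511)) (.one (nat_lit 0x100000500800d013000a01003a426511))) (.br (Nat.shiftLeft (nat_lit 0x100000600800d013) (nat_lit 64)) (.one (nat_lit 0x100000600800d012000c01003a424511)) (.br (Nat.shiftLeft (nat_lit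 0x1000007) (nat_lit 100)) (.one (nat_lit 0x100000600800d013000c01003a426511)) (.one (nat_lit 0x100000700800d012000e01003a424511))))) (.br (Nat.shiftLeft (nat_lit 0x2000003) (nat_lit 100)) (.br (Nat.shiftLeft (nat_lit 0x200000200800d013) (nat_lit 64)) (.one (nat_lit 0x200000200800d012000401005a824511)) (.one (nat_lit 0x200000200800d013000401005a826511))) (.br (Nat.shiftLeft (nat_lit 0x200000300800d013) (nat_lit 64)) (.one (nat_lit 0x200000300800d012000601005a824511)) (.br (Nat.shiftLeft (nat_lit 0x800001) (nat_lit 102)) (.one (nat_lit 0x200000300800d013000601005a826511)) (.one (nat_lit 0x200000400800d012000801005a824511)))))) (.br (Nat.shiftLeft (nat_lit 0x2000007) (nat_lit 100)) (.br (Nat.shiftLeft (nat_lit 0x200000500800d013) (nat_lit 64)) (.br (Nat.shiftLeft (nat_lit 0x2000005) (nat_lit 100)) (.one (nat_lit 0x200000400800d013000801005a826511)) (.one (nat_lit 0x200000500800d012000a01005a824511))) (.br (Nat.shiftLeft (nat_lit 0x1000003) (nat_lit 101)) (.one (nat_lit 0x200000500800d013000a01005a826511)) (.br (Nat.shiftLeft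 (nat_lit 0x200000600800d013) (nat_lit 64)) (.one (nat_lit 0x200000600800d012000c01005a824511)) (.one (nat_lit 0x200000600800d013000c01005a826511))))) (.br (Nat.shiftLeft (nat_lit 0x300000200800d013) (nat_lit 64)) (.br (Nat.shiftLeft (nat_lit 0x3) (nat_lit 124)) (.one (nat_lit 0x200000700800d012000e01005a824511)) (.one (nat_lit 0x300000200800d012000401007ac24511))) (.br (Nat.shiftLeft (nat_lit 0x3000003) (nat_lit 100)) (.one (nat_lit 0x300000200800d013000401007ac26511)) (.br (Nat.shiftLeft (nat_lit 0x300000300800d013) (nat_lit 64)) (.one (nat_lit 0x300000300800d012000601007ac24511)) (.one (nat_lit 0x300000300800d013000601007ac26511))))))))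
def t100 : k100.all (jb2 57 fl b0) = true := by decide +kernel
noncomputable def k101 : KT := (.br (Nat.shiftLeft (nat_lit 0x4000003) (nat_lit 100)) (.br (Nat.shiftLeft (nat_lit 0x1800003) (nat_lit 101)) (.br (Nat.shiftLeft (nat_lit 0x3000005) (nat_lit 100)) (.br (Nat.shiftLeft (nat_lit 0x300000400800d013) (nat_lit 64)) (.one (nat_lit 0x300000400800d012000801007ac24511)) (.one (nat_lit 0x300000400800d013000801007ac26511))) (.br (Nat.shiftLeft (nat_lit 0x300000500800d013) (nat_lit 64)) (.one (nat_lit 0x300000500800d012000a01007ac24511)) (.one (nat_lit 0x300000500800d013000a01007ac26511)))) (.br (Nat.shiftLeft (nat_lit 0x3000007) (nat_lit 100)) (.br (Nat.shiftLeft (nat_lit 0x300000600800d013) (nat_lit 64)) (.one (nat_lit 0x300000600800d012000c01007ac24511)) (.one (nat_lit 0x300000600800d013000c01007ac26511))) (.br (Nat.shiftLeft (nat_lit 0x1) (nat_lit 126)) (.one (nat_lit 0x300000700800d012000e01007ac24511)) (.br (Nat.shiftLeft (nat_lit 0x400000200800d013) (nat_lit 64)) (.one (nat_lit 0x400000200800d012000401009b024511))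 (.one (nat_lit 0x400000200800d013000401009b026511)))))) (.br (Nat.shiftLeft (nat_lit 0x400000500800d013) (nat_lit 64)) (.br (Nat.shiftLeft (nat_lit 0x1000001) (nat_lit 102)) (.br (Nat.shiftLeft (nat_lit 0x400000300800d013) (nat_lit 64)) (.one (nat_lit 0x400000300800d012000601009b024511)) (.one (nat_lit 0x400000300800d013000601009b026511))) (.br (Nat.shiftLeft (nat_lit 0x400000400800d013) (nat_lit 64)) (.one (nat_lit 0x400000400800d012000801009b024511)) (.br (Nat.shiftLeft (nat_lit 0x4000005) (nat_lit 100)) (.one (nat_lit 0x400000400800d013000801009b026511)) (.one (nat_lit 0x400000500800d012000a01009b024511))))) (.br (Nat.shiftLeft (nat_lit 0x400000600800d013) (nat_lit 64)) (.br (Nat.shiftLeft (nat_lit 0x2000003) (nat_lit 101)) (.one (nat_lit 0x400000500800d013000a01009b026511)) (.one (nat_lit 0x400000600800d012000c01009b024511))) (.br (Nat.shiftLeft (nat_lit 0x4000007) (nat_lit 100)) (.one (nat_lit 0x400000600800d013000c01009b026511)) (.br (Nat.shiftLeft (nat_lit 0x5) (nat_lit 124)) (.one (nat_lit 0x400000700800d012000e01009b024511))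 (.one (nat_lit 0x500000200800d01200040100bb424511)))))))
def t101 : k101.all (jb2 57 fl b0) = true := by decide +kernel
noncomputable def k102 : KT := (.br (Nat.shiftLeft (nat_lit 0x5000005) (nat_lit 100)) (.br (Nat.shiftLeft (nat_lit 0x500000300800d013) (nat_lit 64)) (.br (Nat.shiftLeft (nat_lit 0x5000003) (nat_lit 100)) (.one (nat_lit 0x500000200800d01300040100bb426511)) (.one (nat_lit 0x500000300800d01200060100bb424511))) (.br (Nat.shiftLeft (nat_lit 0x1400001) (nat_lit 102)) (.one (nat_lit 0x500000300800d01300060100bb426511)) (.br (Nat.shiftLeft (nat_lit 0x500000400800d013) (nat_lit 64)) (.one (nat_lit 0x500000400800d01200080100bb424511)) (.one (nat_lit 0x500000400800d01300080100bb426511))))) (.br (Nat.shiftLeft (nat_lit 0x500000600800d013) (nat_lit 64)) (.br (Nat.shiftLeft (nat_lit 0x500000500800d013) (nat_lit 64)) (.one (nat_lit 0x500000500800d012000a0100bb424511)) (.br (Nat.shiftLeft (nat_lit 0x2800003) (nat_lit 101)) (.one (nat_lit 0x500000500800d013000a0100bb426511)) (.one (nat_lit 0x500000600800d012000c0100bb424511))))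 (.br (Nat.shiftLeft (nat_lit 0x5000007) (nat_lit 100)) (.one (nat_lit 0x500000600800d013000c0100bb426511)) (.br (Nat.shiftLeft (nat_lit 0x3) (nat_lit 125)) (.one (nat_lit 0x500000700800d012000e0100bb424511)) (.one (nat_lit 0x600000200800d01200040100db824511))))))
def t102 : k102.all (jb2 57 fl b0) = true := by decide +kernel
noncomputable def k103 : KT := (.br (Nat.shiftLeft (nat_lit 0x6000005) (nat_lit 100)) (.br (Nat.shiftLeft (nat_lit 0x600000300800d013) (nat_lit 64)) (.br (Nat.shiftLeft (nat_lit 0x6000003) (nat_lit 100)) (.one (nat_lit 0x600000200800d01300040100db826511)) (.one (nat_lit 0x600000300800d01200060100db824511))) (.br (Nat.shiftLeft (nat_lit 0x1800001) (nat_lit 102)) (.one (nat_lit 0x600000300800d01300060100db826511)) (.br (Nat.shiftLeft (nat_lit 0x600000400800d013) (nat_lit 64)) (.one (nat_lit 0x600000400800d01200080100db824511)) (.one (nat_lit 0x600000400800d01300080100db826511))))) (.br (Nat.shiftLeft (nat_lit 0x600000600800d013) (nat_lit 64)) (.br (Nat.shiftLeft (nat_lit 0x600000500800d013) (nat_lit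 64)) (.one (nat_lit 0x600000500800d012000a0100db824511)) (.br (Nat.shiftLeft (nat_lit 0x3000003) (nat_lit 101)) (.one (nat_lit 0x600000500800d013000a0100db826511)) (.one (nat_lit 0x600000600800d012000c0100db824511)))) (.br (Nat.shiftLeft (nat_lit 0x6000007) (nat_lit 100)) (.one (nat_lit 0x600000600800d013000c0100db826511)) (.br (Nat.shiftLeft (nat_lit 0x7) (nat_lit 124)) (.one (nat_lit 0x600000700800d012000e0100db824511)) (.one (nat_lit 0x700000200800d01200040100fbc24511))))))
def t103 : k103.all (jb2 57 fl b0) = true := by decide +kernel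
noncomputable def k104 : KT := (.br (Nat.shiftLeft (nat_lit 0x700000500800d013) (nat_lit 64)) (.br (Nat.shiftLeft (nat_lit 0x1c00001) (nat_lit 102)) (.br (Nat.shiftLeft (nat_lit 0x7000003) (nat_lit 100)) (.one (nat_lit 0x700000200800d01300040100fbc26511)) (.br (Nat.shiftLeft (nat_lit 0x700000300800d013) (nat_lit 64)) (.one (nat_lit 0x700000300800d01200060100fbc24511)) (.one (nat_lit 0x700000300800d01300060100fbc26511)))) (.br (Nat.shiftLeft (nat_lit 0x700000400800d013) (nat_lit 64)) (.one (nat_lit 0x700000400800d01200080100fbc24511)) (.br (Nat.shiftLeft (nat_lit 0x7000005) (nat_lit 100)) (.one (nat_lit 0x700000400800d01300080100fbc26511)) (.one (nat_lit 0x700000500800d012000a0100fbc24511))))) (.br (Nat.shiftLeft (nat_lit 0x7000007) (nat_lit 100)) (.br (Nat.shiftLeft (nat_lit 0x3800003) (nat_lit 101)) (.one (nat_lit 0x700000500800d013000a0100fbc26511)) (.br (Nat.shiftLeft (nat_lit 0x700000600800d013) (nat_lit 64)) (.one (nat_lit 0x700000600800d012000c0100fbc24511)) (.one (nat_lit 0x700000600800d013000c0100fbc26511))))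 (.br (Nat.shiftLeft (nat_lit 0x1) (nat_lit 127)) (.one (nat_lit 0x700000700800d012000e0100fbc24511)) (.br (Nat.shiftLeft (nat_lit 0x800000200800d013) (nat_lit 64)) (.one (nat_lit 0x800000200800d012000401011c024511)) (.one (nat_lit 0x800000200800d013000401011c026511))))))
def t104 : k104.all (jb2 57 fl b0) = true := by decide +kernel
noncomputable def k105 : KT := (.br (Nat.shiftLeft (nat_lit 0x900000400800d013) (nat_lit 64)) (.br (Nat.shiftLeft (nat_lit 0x800000600800d013) (nat_lit 64)) (.br (Nat.shiftLeft (nat_lit 0x800000400800d013) (nat_lit 64)) (.br (Nat.shiftLeft (nat_lit 0x800000300800d013) (nat_lit 64)) (.one (nat_lit 0x800000300800d012000601011c024511)) (.br (Nat.shiftLeft (nat_lit 0x2000001) (nat_lit 102)) (.one (nat_lit 0x800000300800d013000601011c026511)) (.one (nat_lit 0x800000400800d012000801011c024511)))) (.br (Nat.shiftLeft (nat_lit 0x800000500800d013) (nat_lit 64)) (.br (Nat.shiftLeft (nat_lit 0x8000005) (nat_lit 100)) (.one (nat_lit 0x800000400800d013000801011c026511)) (.one (nat_lit 0x800000500800d012000a01011c024511)))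 (.br (Nat.shiftLeft (nat_lit 0x4000003) (nat_lit 101)) (.one (nat_lit 0x800000500800d013000a01011c026511)) (.one (nat_lit 0x800000600800d012000c01011c024511))))) (.br (Nat.shiftLeft (nat_lit 0x900000200800d013) (nat_lit 64)) (.br (Nat.shiftLeft (nat_lit 0x8000007) (nat_lit 100)) (.one (nat_lit 0x800000600800d013000c01011c026511)) (.br (Nat.shiftLeft (nat_lit 0x9) (nat_lit 124)) (.one (nat_lit 0x800000700800d012000e01011c024511)) (.one (nat_lit 0x900000200800d012000401013c424511)))) (.br (Nat.shiftLeft (nat_lit 0x900000300800d013) (nat_lit 64)) (.br (Nat.shiftLeft (nat_lit 0x9000003) (nat_lit 100)) (.one (nat_lit 0x900000200800d013000401013c426511)) (.one (nat_lit 0x900000300800d012000601013c424511))) (.br (Nat.shiftLeft (nat_lit 0x2400001) (nat_lit 102)) (.one (nat_lit 0x900000300800d013000601013c426511)) (.one (nat_lit 0x900000400800d012000801013c424511)))))) (.br (Nat.shiftLeft (nat_lit 0xa00000200800d013) (nat_lit 64)) (.br (Nat.shiftLeft (nat_lit 0x4800003) (nat_lit 101)) (.br (Nat.shiftLeft (nat_lit 0x9000005)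 (nat_lit 100)) (.one (nat_lit 0x900000400800d013000801013c426511)) (.br (Nat.shiftLeft (nat_lit 0x900000500800d013) (nat_lit 64)) (.one (nat_lit 0x900000500800d012000a01013c424511)) (.one (nat_lit 0x900000500800d013000a01013c426511)))) (.br (Nat.shiftLeft (nat_lit 0x9000007) (nat_lit 100)) (.br (Nat.shiftLeft (nat_lit 0x900000600800d013) (nat_lit 64)) (.one (nat_lit 0x900000600800d012000c01013c424511)) (.one (nat_lit 0x900000600800d013000c01013c426511))) (.br (Nat.shiftLeft (nat_lit 0x5) (nat_lit 125)) (.one (nat_lit 0x900000700800d012000e01013c424511)) (.one (nat_lit 0xa00000200800d012000401015c824511))))) (.br (Nat.shiftLeft (nat_lit 0xa00000400800d013) (nat_lit 64)) (.br (Nat.shiftLeft (nat_lit 0xa00000300800d013) (nat_lit 64)) (.br (Nat.shiftLeft (nat_lit 0xa000003) (nat_lit 100)) (.one (nat_lit 0xa00000200800d013000401015c826511)) (.one (nat_lit 0xa00000300800d012000601015c824511))) (.br (Nat.shiftLeft (nat_lit 0x2800001) (nat_lit 102)) (.one (nat_lit 0xa00000300800d013000601015c826511)) (.one (nat_lit 0xa00000400800d012000801015c824511))))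 (.br (Nat.shiftLeft (nat_lit 0xa00000500800d013) (nat_lit 64)) (.br (Nat.shiftLeft (nat_lit 0xa000005) (nat_lit 100)) (.one (nat_lit 0xa00000400800d013000801015c826511)) (.one (nat_lit 0xa00000500800d012000a01015c824511))) (.br (Nat.shiftLeft (nat_lit 0x5000003) (nat_lit 101)) (.one (nat_lit 0xa00000500800d013000a01015c826511)) (.one (nat_lit 0xa00000600800d012000c01015c824511)))))))
def t105 : k105.all (jb2 57 fl b0) = true := by decide +kernel
noncomputable def k106 : KT := (.br (Nat.shiftLeft (nat_lit 0xc00000200800d013) (nat_lit 64)) (.br (Nat.shiftLeft (nat_lit 0xb00000400800d013) (nat_lit 64)) (.br (Nat.shiftLeft (nat_lit 0xb00000200800d013) (nat_lit 64)) (.br (Nat.shiftLeft (nat_lit 0xa000007) (nat_lit 100)) (.one (nat_lit 0xa00000600800d013000c01015c826511)) (.br (Nat.shiftLeft (nat_lit 0xb) (nat_lit 124)) (.one (nat_lit 0xa00000700800d012000e01015c824511)) (.one (nat_lit 0xb00000200800d012000401017cc24511)))) (.br (Nat.shiftLeft (nat_lit 0xb00000300800d013) (nat_lit 64)) (.br (Nat.shiftLeft (nat_lit 0xb000003)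 (nat_lit 100)) (.one (nat_lit 0xb00000200800d013000401017cc26511)) (.one (nat_lit 0xb00000300800d012000601017cc24511))) (.br (Nat.shiftLeft (nat_lit 0x2c00001) (nat_lit 102)) (.one (nat_lit 0xb00000300800d013000601017cc26511)) (.one (nat_lit 0xb00000400800d012000801017cc24511))))) (.br (Nat.shiftLeft (nat_lit 0x5800003) (nat_lit 101)) (.br (Nat.shiftLeft (nat_lit 0xb000005) (nat_lit 100)) (.one (nat_lit 0xb00000400800d013000801017cc26511)) (.br (Nat.shiftLeft (nat_lit 0xb00000500800d013) (nat_lit 64)) (.one (nat_lit 0xb00000500800d012000a01017cc24511)) (.one (nat_lit 0xb00000500800d013000a01017cc26511)))) (.br (Nat.shiftLeft (nat_lit 0xb000007) (nat_lit 100)) (.br (Nat.shiftLeft (nat_lit 0xb00000600800d013) (nat_lit 64)) (.one (nat_lit 0xb00000600800d012000c01017cc24511)) (.one (nat_lit 0xb00000600800d013000c01017cc26511))) (.br (Nat.shiftLeft (nat_lit 0x3) (nat_lit 126)) (.one (nat_lit 0xb00000700800d012000e01017cc24511)) (.one (nat_lit 0xc00000200800d012000401019d024511)))))) (.br (Nat.shiftLeft (nat_lit 0x6000003)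 (nat_lit 101)) (.br (Nat.shiftLeft (nat_lit 0x3000001) (nat_lit 102)) (.br (Nat.shiftLeft (nat_lit 0xc000003) (nat_lit 100)) (.one (nat_lit 0xc00000200800d013000401019d026511)) (.br (Nat.shiftLeft (nat_lit 0xc00000300800d013) (nat_lit 64)) (.one (nat_lit 0xc00000300800d012000601019d024511)) (.one (nat_lit 0xc00000300800d013000601019d026511)))) (.br (Nat.shiftLeft (nat_lit 0xc000005) (nat_lit 100)) (.br (Nat.shiftLeft (nat_lit 0xc00000400800d013) (nat_lit 64)) (.one (nat_lit 0xc00000400800d012000801019d024511)) (.one (nat_lit 0xc00000400800d013000801019d026511))) (.br (Nat.shiftLeft (nat_lit 0xc00000500800d013) (nat_lit 64)) (.one (nat_lit 0xc00000500800d012000a01019d024511)) (.one (nat_lit 0xc00000500800d013000a01019d026511))))) (.br (Nat.shiftLeft (nat_lit 0xd00000300800d013) (nat_lit 64)) (.br (Nat.shiftLeft (nat_lit 0xd00000200800d013) (nat_lit 64)) (.br (Nat.shiftLeft (nat_lit 0xd) (nat_lit 124)) (.one (nat_lit 0xc00000600800d012000c01019d024511)) (.one (nat_lit 0xd00000200800d01200040101bd424511))) (.br (Nat.shiftLeft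 (nat_lit 0xd000003) (nat_lit 100)) (.one (nat_lit 0xd00000200800d01300040101bd426511)) (.one (nat_lit 0xd00000300800d01200060101bd424511)))) (.br (Nat.shiftLeft (nat_lit 0xd00000400800d013) (nat_lit 64)) (.br (Nat.shiftLeft (nat_lit 0x3400001) (nat_lit 102)) (.one (nat_lit 0xd00000300800d01300060101bd426511)) (.one (nat_lit 0xd00000400800d01200080101bd424511))) (.br (Nat.shiftLeft (nat_lit 0xd000005) (nat_lit 100)) (.one (nat_lit 0xd00000400800d01300080101bd426511)) (.one (nat_lit 0xd00000500800d012000a0101bd424511)))))))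
def t106 : k106.all (jb2 57 fl b0) = true := by decide +kernel
noncomputable def s4 : KT := (.br (nat_lit 0x200400800d013400801001a026650) (.br (nat_lit 0x100300800d012200601001a024650) (.br (nat_lit 0x100000800d013200001001a026411) (.br (nat_lit 0x100800d012000201001a024540) k82 (.br (nat_lit 0x700800d012000e01001a025500) k83 k84)) (.br (nat_lit 0x100200800d012200401001a024650) k85 (.br (nat_lit 0x100200800d013200401001a026650) k86 k87))) (.br (nat_lit 0x200000800d013400001001a026411) (.br (nat_lit 0x100400800d012200801001a024650) k88 (.br (nat_lit 0x100500800d013200a01001a026650) k89 k90)) (.br (nat_lit 0x200300800d012400601001a024650) k91 (.br (nat_lit 0x200300800d013400601001a026650) k92 k93)))) (.br (nat_lit 0x600700800d012c00e01001a024650) (.br (nat_lit 0x300500800d012600a01001a024650) (.br (nat_lit 0x200600800d012400c01001a024650) k94 (.br (nat_lit 0x300400800d012600801001a024650) k95 k96)) (.br (nat_lit 0x400000800d013800001001a026411) k97 (.br (nat_lit 0x400600800d012800c01001a024650) k98 k99))) (.br (nat_lit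 0x600000200800d01200040100db824511) (.br (nat_lit 0x300000300800d013000601007ac26511) k100 (.br (nat_lit 0x500000200800d01200040100bb424511) k101 k102)) (.br (nat_lit 0x800000200800d013000401011c026511) (.br (nat_lit 0x700000200800d01200040100fbc24511) k103 k104) (.br (nat_lit 0xa00000600800d012000c01015c824511) k105 k106)))))
noncomputable def u4 : KT := (.br (Nat.shiftLeft (nat_lit 0x800d013) (nat_lit 64)) (.one (nat_lit 0x800d012000001001a024430)) (.one (nat_lit 0x800d013000001001a026430)))
def w4 : u4.all (wj 57 s4) = true := by decide +kernel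
def o4 : OkW 57 (jb2 57 fl) u4 := .lift s4 _ (.br _ _ _ (.br _ _ _ (.br _ _ _ (.br _ _ _ (.leaf b0 k82 t82) (.br _ _ _ (.leaf b0 k83 t83) (.leaf b0 k84 t84))) (.br _ _ _ (.leaf b0 k85 t85) (.br _ _ _ (.leaf b0 k86 t86) (.leaf b0 k87 t87)))) (.br _ _ _ (.br _ _ _ (.leaf b0 k88 t88) (.br _ _ _ (.leaf b0 k89 t89) (.leaf b0 k90 t90))) (.br _ _ _ (.leaf b0 k91 t91) (.br _ _ _ (.leaf b0 k92 t92) (.leaf b0 k93 t93))))) (.br _ _ _ (.br _ _ _ (.br _ _ _ (.leaf b0 k94 t94) (.br _ _ _ (.leaf b0 k95 t95) (.leaf b0 k96 t96))) (.br _ _ _ (.leaf b0 k97 t97) (.br _ _ _ (.leaf b0 k98 t98) (.leaf b0 k99 t99)))) (.br _ _ _ (.br _ _ _ (.leaf b0 k100 t100) (.br _ _ _ (.leaf b0 k101 t101) (.leaf b0 k102 t102))) (.br _ _ _ (.br _ _ _ (.leaf b0 k103 t103) (.leaf b0 k104 t104)) (.br _ _ _ (.leaf b0 k105 t105) (.leaf b0 k106 t106)))))) w4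
noncomputable def k107 : KT := (.br (Nat.shiftLeft (nat_lit 0x800d017) (nat_lit 64)) (.br (Nat.shiftLeft (nat_lit 0x800d015) (nat_lit 64)) (.one (nat_lit 0x800d014000001001a029400)) (.br (Nat.shiftLeft (nat_lit 0x400680b) (nat_lit 65)) (.one (nat_lit 0x800d015000001001a02b400)) (.one (nat_lit 0x800d016000001001a02d400)))) (.br (Nat.shiftLeft (nat_lit 0x1) (nat_lit 100)) (.br (Nat.shiftLeft (nat_lit 0x4007) (nat_lit 77)) (.one (nat_lit 0x800d017000001001a02f400)) (.one (nat_lit 0x800e00f000001001c01f400))) (.br (Nat.shiftLeft (nat_lit 0x100800d015) (nat_lit 64)) (.one (nat_lit 0x100800d014000201001a028540)) (.one (nat_lit 0x100800d015000201001a02a540)))))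
def t107 : k107.all (jb2 57 fl b0) = true := by decide +kernel
noncomputable def k108 : KT := (.br (Nat.shiftLeft (nat_lit 0x100800d017) (nat_lit 64)) (.one (nat_lit 0x100800d016000201001a02c540)) (.one (nat_lit 0x100800d017000201001a02e540)))
def t108 : k108.all (jb2 57 fl b0) = true := by decide +kernel
noncomputable def k109 : KT := (.one (nat_lit 0x200800d014000401001a028540))
def t109 : k109.all (jb2 57 fl b0) = true := by decide +kernel
noncomputable def k110 : KT := (.one (nat_lit 0x200800d015000401001a02a540))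
def t110 : k110.all (jb2 57 fl b0) = true := by decide +kernel
noncomputable def k111 : KT := (.br (Nat.shiftLeft (nat_lit 0x200800d017) (nat_lit 64)) (.one (nat_lit 0x200800d016000401001a02c540)) (.br (Nat.shiftLeft (nat_lit 0x3) (nat_lit 100)) (.one (nat_lit 0x200800d017000401001a02e540)) (.one (nat_lit 0x300800d014000601001a029500))))
def t111 : k111.all (jb2 57 fl b0) = true := by decide +kernel
noncomputable def k112 : KT := (.one (nat_lit 0x300800d015000601001a02a540))
def t112 : k112.all (jb2 57 fl b0) = true := by decide +kernel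
noncomputable def k113 : KT := (.br (Nat.shiftLeft (nat_lit 0x300800d017) (nat_lit 64)) (.one (nat_lit 0x300800d016000601001a02c540)) (.br (Nat.shiftLeft (nat_lit 0x1) (nat_lit 102)) (.one (nat_lit 0x300800d017000601001a02e540)) (.one (nat_lit 0x400800d014000801001a029500))))
def t113 : k113.all (jb2 57 fl b0) = true := by decide +kernel
noncomputable def k114 : KT := (.one (nat_lit 0x400800d015000801001a02a540))
def t114 : k114.all (jb2 57 fl b0) = true := by decide +kernel
noncomputable def k115 : KT := (.br (Nat.shiftLeft (nat_lit 0x400800d017) (nat_lit 64)) (.one (nat_lit 0x400800d016000801001a02c540)) (.one (nat_lit 0x400800d017000801001a02e540)))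
def t115 : k115.all (jb2 57 fl b0) = true := by decide +kernel
noncomputable def k116 : KT := (.one (nat_lit 0x500800d014000a01001a028540))
def t116 : k116.all (jb2 57 fl b0) = true := by decide +kernel
noncomputable def k117 : KT := (.one (nat_lit 0x500800d015000a01001a02a540))
def t117 : k117.all (jb2 57 fl b0) = true := by decide +kernel
noncomputable def k118 : KT := (.br (Nat.shiftLeft (nat_lit 0x500800d017) (nat_lit 64)) (.one (nat_lit 0x500800d016000a01001a02c540)) (.one (nat_lit 0x500800d017000a01001a02e540)))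
def t118 : k118.all (jb2 57 fl b0) = true := by decide +kernel
noncomputable def k119 : KT := (.one (nat_lit 0x600800d014000c01001a028540))
def t119 : k119.all (jb2 57 fl b0) = true := by decide +kernel
noncomputable def k120 : KT := (.br (Nat.shiftLeft (nat_lit 0x300400680b) (nat_lit 65)) (.one (nat_lit 0x600800d015000c01001a02a540)) (.br (Nat.shiftLeft (nat_lit 0x600800d017) (nat_lit 64)) (.one (nat_lit 0x600800d016000c01001a02c540)) (.one (nat_lit 0x600800d017000c01001a02e540))))
def t120 : k120.all (jb2 57 fl b0) = true := by decide +kernel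
noncomputable def k121 : KT := (.br (Nat.shiftLeft (nat_lit 0x700800d015) (nat_lit 64)) (.one (nat_lit 0x700800d014000e01001a028540)) (.one (nat_lit 0x700800d015000e01001a02a540)))
def t121 : k121.all (jb2 57 fl b0) = true := by decide +kernel
noncomputable def k122 : KT := (.br (Nat.shiftLeft (nat_lit 0x801) (nat_lit 101)) (.br (Nat.shiftLeft (nat_lit 0x100000800d015) (nat_lit 64)) (.br (Nat.shiftLeft (nat_lit 0x700800d017) (nat_lit 64)) (.one (nat_lit 0x700800d016000e01001a02c540)) (.br (Nat.shiftLeft (nat_lit 0x1) (nat_lit 112)) (.one (nat_lit 0x700800d017000e01001a02e540)) (.one (nat_lit 0x100000800d014200001001a028411)))) (.br (Nat.shiftLeft (nat_lit 0x80000400680b) (nat_lit 65)) (.one (nat_lit 0x100000800d015200001001a02a411)) (.br (Nat.shiftLeft (nat_lit 0x100000800d017) (nat_lit 64)) (.one (nat_lit 0x100000800d016200001001a02c411)) (.one (nat_lit 0x100000800d017200001001a02e411))))) (.br (Nat.shiftLeft (nat_lit 0x200000800d015) (nat_lit 64)) (.br (Nat.shiftLeft (nat_lit 0x401) (nat_lit 102)) (.one (nat_lit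 0x100300800d014200601001a028650)) (.br (Nat.shiftLeft (nat_lit 0x1) (nat_lit 113)) (.one (nat_lit 0x100400800d014200801001a028650)) (.one (nat_lit 0x200000800d014400001001a028411)))) (.br (Nat.shiftLeft (nat_lit 0x100000400680b) (nat_lit 65)) (.one (nat_lit 0x200000800d015400001001a02a411)) (.br (Nat.shiftLeft (nat_lit 0x200000800d017) (nat_lit 64)) (.one (nat_lit 0x200000800d016400001001a02c411)) (.one (nat_lit 0x200000800d017400001001a02e411))))))
def t122 : k122.all (jb2 57 fl b0) = true := by decide +kernel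
noncomputable def k123 : KT := (.br (Nat.shiftLeft (nat_lit 0x180000400680b) (nat_lit 65)) (.br (Nat.shiftLeft (nat_lit 0x3) (nat_lit 112)) (.br (Nat.shiftLeft (nat_lit 0x801) (nat_lit 102)) (.one (nat_lit 0x200300800d014400601001a028650)) (.one (nat_lit 0x200400800d014400801001a028650))) (.br (Nat.shiftLeft (nat_lit 0x300000800d015) (nat_lit 64)) (.one (nat_lit 0x300000800d014600001001a028411)) (.one (nat_lit 0x300000800d015600001001a02a411)))) (.br (Nat.shiftLeft (nat_lit 0xc01) (nat_lit 102)) (.br (Nat.shiftLeft (nat_lit 0x300000800d017) (nat_lit 64)) (.one (nat_lit 0x300000800d016600001001a02c411)) (.one (nat_lit 0x300000800d017600001001a02e411))) (.br (Nat.shiftLeft (nat_lit 0x1) (nat_lit 114)) (.one (nat_lit 0x300400800d014600801001a028650)) (.br (Nat.shiftLeft (nat_lit 0x400000800d015) (nat_lit 64)) (.one (nat_lit 0x400000800d014800001001a028411)) (.one (nat_lit 0x400000800d015800001001a02a411))))))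
def t123 : k123.all (jb2 57 fl b0) = true := by decide +kernel
noncomputable def k124 : KT := (.br (Nat.shiftLeft (nat_lit 0x480000400680b) (nat_lit 65)) (.br (Nat.shiftLeft (nat_lit 0x7) (nat_lit 112)) (.br (Nat.shiftLeft (nat_lit 0x500000800d017) (nat_lit 64)) (.br (Nat.shiftLeft (nat_lit 0x5) (nat_lit 112)) (.br (Nat.shiftLeft (nat_lit 0x400000800d017) (nat_lit 64)) (.one (nat_lit 0x400000800d016800001001a02c411)) (.one (nat_lit 0x400000800d017800001001a02e411))) (.br (Nat.shiftLeft (nat_lit 0x500000800d015) (nat_lit 64)) (.one (nat_lit 0x500000800d014a00001001a028411)) (.br (Nat.shiftLeft (nat_lit 0x280000400680b) (nat_lit 65)) (.one (nat_lit 0x500000800d015a00001001a02a411)) (.one (nat_lit 0x500000800d016a00001001a02c411))))) (.br (Nat.shiftLeft (nat_lit 0x600000800d015) (nat_lit 64)) (.br (Nat.shiftLeft (nat_lit 0x3) (nat_lit 113)) (.one (nat_lit 0x500000800d017a00001001a02e411)) (.one (nat_lit 0x600000800d014c00001001a028411))) (.br (Nat.shiftLeft (nat_lit 0x300000400680b) (nat_lit 65)) (.one (nat_lit 0x600000800d015c00001001a02a411))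 (.br (Nat.shiftLeft (nat_lit 0x600000800d017) (nat_lit 64)) (.one (nat_lit 0x600000800d016c00001001a02c411)) (.one (nat_lit 0x600000800d017c00001001a02e411)))))) (.br (Nat.shiftLeft (nat_lit 0x800000800d015) (nat_lit 64)) (.br (Nat.shiftLeft (nat_lit 0x380000400680b) (nat_lit 65)) (.br (Nat.shiftLeft (nat_lit 0x700000800d015) (nat_lit 64)) (.one (nat_lit 0x700000800d014e00001001a028411)) (.one (nat_lit 0x700000800d015e00001001a02a411))) (.br (Nat.shiftLeft (nat_lit 0x700000800d017) (nat_lit 64)) (.one (nat_lit 0x700000800d016e00001001a02c411)) (.br (Nat.shiftLeft (nat_lit 0x1) (nat_lit 115)) (.one (nat_lit 0x700000800d017e00001001a02e411)) (.one (nat_lit 0x800000800d014000001001a12a411))))) (.br (Nat.shiftLeft (nat_lit 0x800000800d017) (nat_lit 64)) (.br (Nat.shiftLeft (nat_lit 0x400000400680b) (nat_lit 65)) (.one (nat_lit 0x800000800d015000001001a12c411)) (.one (nat_lit 0x800000800d016000001001a12e411))) (.br (Nat.shiftLeft (nat_lit 0x9) (nat_lit 112)) (.one (nat_lit 0x800000800d017000001001a130411)) (.br (Nat.shiftLeft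 (nat_lit 0x900000800d015) (nat_lit 64)) (.one (nat_lit 0x900000800d014200001001a12a411)) (.one (nat_lit 0x900000800d015200001001a12c411))))))) (.br (Nat.shiftLeft (nat_lit 0x3) (nat_lit 114)) (.br (Nat.shiftLeft (nat_lit 0xa00000800d017) (nat_lit 64)) (.br (Nat.shiftLeft (nat_lit 0x5) (nat_lit 113)) (.br (Nat.shiftLeft (nat_lit 0x900000800d017) (nat_lit 64)) (.one (nat_lit 0x900000800d016200001001a12e411)) (.one (nat_lit 0x900000800d017200001001a130411))) (.br (Nat.shiftLeft (nat_lit 0xa00000800d015) (nat_lit 64)) (.one (nat_lit 0xa00000800d014400001001a12a411)) (.br (Nat.shiftLeft (nat_lit 0x500000400680b) (nat_lit 65)) (.one (nat_lit 0xa00000800d015400001001a12c411)) (.one (nat_lit 0xa00000800d016400001001a12e411))))) (.br (Nat.shiftLeft (nat_lit 0xb00000800d015) (nat_lit 64)) (.br (Nat.shiftLeft (nat_lit 0xb) (nat_lit 112)) (.one (nat_lit 0xa00000800d017400001001a130411)) (.one (nat_lit 0xb00000800d014600001001a12a411))) (.br (Nat.shiftLeft (nat_lit 0x580000400680b) (nat_lit 65)) (.one (nat_lit 0xb00000800d015600001001a12c411))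 (.br (Nat.shiftLeft (nat_lit 0xb00000800d017) (nat_lit 64)) (.one (nat_lit 0xb00000800d016600001001a12e411)) (.one (nat_lit 0xb00000800d017600001001a130411)))))) (.br (Nat.shiftLeft (nat_lit 0xd00000800d015) (nat_lit 64)) (.br (Nat.shiftLeft (nat_lit 0x600000400680b) (nat_lit 65)) (.br (Nat.shiftLeft (nat_lit 0xc00000800d015) (nat_lit 64)) (.one (nat_lit 0xc00000800d014800001001a12a411)) (.one (nat_lit 0xc00000800d015800001001a12c411))) (.br (Nat.shiftLeft (nat_lit 0xc00000800d017) (nat_lit 64)) (.one (nat_lit 0xc00000800d016800001001a12e411)) (.br (Nat.shiftLeft (nat_lit 0xd) (nat_lit 112)) (.one (nat_lit 0xc00000800d017800001001a130411)) (.one (nat_lit 0xd00000800d014a00001001a12a411))))) (.br (Nat.shiftLeft (nat_lit 0xd00000800d017) (nat_lit 64)) (.br (Nat.shiftLeft (nat_lit 0x680000400680b) (nat_lit 65)) (.one (nat_lit 0xd00000800d015a00001001a12c411)) (.one (nat_lit 0xd00000800d016a00001001a12e411))) (.br (Nat.shiftLeft (nat_lit 0x1) (nat_lit 124)) (.one (nat_lit 0xd00000800d017a00001001a130411)) (.br (Nat.shiftLeft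 (nat_lit 0x400001) (nat_lit 102)) (.one (nat_lit 0x100000300800d014000601003a428511)) (.one (nat_lit 0x100000400800d014000801003a428511))))))))
def t124 : k124.all (jb2 57 fl b0) = true := by decide +kernel
noncomputable def k125 : KT := (.br (Nat.shiftLeft (nat_lit 0x1c00001) (nat_lit 102)) (.br (Nat.shiftLeft (nat_lit 0x1000001) (nat_lit 102)) (.br (Nat.shiftLeft (nat_lit 0x3) (nat_lit 124)) (.br (Nat.shiftLeft (nat_lit 0x800001) (nat_lit 102)) (.one (nat_lit 0x200000300800d014000601005a828511)) (.one (nat_lit 0x200000400800d014000801005a828511))) (.br (Nat.shiftLeft (nat_lit 0xc00001) (nat_lit 102)) (.one (nat_lit 0x300000300800d014000601007ac28511)) (.br (Nat.shiftLeft (nat_lit 0x1) (nat_lit 126)) (.one (nat_lit 0x300000400800d014000801007ac28511)) (.one (nat_lit 0x400000300800d014000601009b028511))))) (.br (Nat.shiftLeft (nat_lit 0x3) (nat_lit 125)) (.br (Nat.shiftLeft (nat_lit 0x5) (nat_lit 124)) (.one (nat_lit 0x400000400800d014000801009b028511)) (.br (Nat.shiftLeft (nat_lit 0x1400001) (nat_lit 102)) (.one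 (nat_lit 0x500000300800d01400060100bb428511)) (.one (nat_lit 0x500000400800d01400080100bb428511)))) (.br (Nat.shiftLeft (nat_lit 0x1800001) (nat_lit 102)) (.one (nat_lit 0x600000300800d01400060100db828511)) (.br (Nat.shiftLeft (nat_lit 0x7) (nat_lit 124)) (.one (nat_lit 0x600000400800d01400080100db828511)) (.one (nat_lit 0x700000300800d01400060100fbc28511)))))) (.br (Nat.shiftLeft (nat_lit 0x2800001) (nat_lit 102)) (.br (Nat.shiftLeft (nat_lit 0x9) (nat_lit 124)) (.br (Nat.shiftLeft (nat_lit 0x1) (nat_lit 127)) (.one (nat_lit 0x700000400800d01400080100fbc28511)) (.br (Nat.shiftLeft (nat_lit 0x2000001) (nat_lit 102)) (.one (nat_lit 0x800000300800d014000601011c028511)) (.one (nat_lit 0x800000400800d014000801011c028511)))) (.br (Nat.shiftLeft (nat_lit 0x2400001) (nat_lit 102)) (.one (nat_lit 0x900000300800d014000601013c428511)) (.br (Nat.shiftLeft (nat_lit 0x5) (nat_lit 125)) (.one (nat_lit 0x900000400800d014000801013c428511)) (.one (nat_lit 0xa00000300800d014000601015c828511))))) (.br (Nat.shiftLeft (nat_lit 0x3)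 (nat_lit 126)) (.br (Nat.shiftLeft (nat_lit 0xb) (nat_lit 124)) (.one (nat_lit 0xa00000400800d014000801015c828511)) (.br (Nat.shiftLeft (nat_lit 0x2c00001) (nat_lit 102)) (.one (nat_lit 0xb00000300800d014000601017cc28511)) (.one (nat_lit 0xb00000400800d014000801017cc28511)))) (.br (Nat.shiftLeft (nat_lit 0x3000001) (nat_lit 102)) (.one (nat_lit 0xc00000300800d014000601019d028511)) (.br (Nat.shiftLeft (nat_lit 0xd) (nat_lit 124)) (.one (nat_lit 0xc00000400800d014000801019d028511)) (.one (nat_lit 0xd00000300800d01400060101bd428511)))))))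
def t125 : k125.all (jb2 57 fl b0) = true := by decide +kernel
noncomputable def s5 : KT := (.br (nat_lit 0x400800d017000801001a02e540) (.br (nat_lit 0x200800d015000401001a02a540) (.br (nat_lit 0x100800d017000201001a02e540) (.br (nat_lit 0x100800d015000201001a02a540) k107 k108) (.br (nat_lit 0x200800d014000401001a028540) k109 k110)) (.br (nat_lit 0x300800d015000601001a02a540) (.br (nat_lit 0x300800d014000601001a029500) k111 k112) (.br (nat_lit 0x400800d014000801001a029500) k113 (.br (nat_lit 0x400800d015000801001a02a540) k114 k115)))) (.br (nat_lit 0x600800d017000c01001a02e540) (.br (nat_lit 0x500800d015000a01001a02a540) (.br (nat_lit 0x500800d014000a01001a028540) k116 k117) (.br (nat_lit 0x500800d017000a01001a02e540) k118 (.br (nat_lit 0x600800d014000c01001a028540) k119 k120))) (.br (nat_lit 0x200000800d017400001001a02e411) (.br (nat_lit 0x700800d015000e01001a02a540) k121 k122) (.br (nat_lit 0x400000800d015800001001a02a411) k123 (.br (nat_lit 0x100000400800d014000801003a428511) k124 k125)))))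
noncomputable def u5 : KT := (.br (Nat.shiftLeft (nat_lit 0x400680b) (nat_lit 65)) (.br (Nat.shiftLeft (nat_lit 0x800d015) (nat_lit 64)) (.one (nat_lit 0x800d014000001001a028430)) (.one (nat_lit 0x800d015000001001a02a430))) (.br (Nat.shiftLeft (nat_lit 0x800d017) (nat_lit 64)) (.one (nat_lit 0x800d016000001001a02c430)) (.br (Nat.shiftLeft (nat_lit 0x4007) (nat_lit 77)) (.one (nat_lit 0x800d017000001001a02e430)) (.one (nat_lit 0x800e00f000001001c01f400)))))
def w5 : u5.all (wj 57 s5) = true := by decide +kernel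
def o5 : OkW 57 (jb2 57 fl) u5 := .lift s5 _ (.br _ _ _ (.br _ _ _ (.br _ _ _ (.br _ _ _ (.leaf b0 k107 t107) (.leaf b0 k108 t108)) (.br _ _ _ (.leaf b0 k109 t109) (.leaf b0 k110 t110))) (.br _ _ _ (.br _ _ _ (.leaf b0 k111 t111) (.leaf b0 k112 t112)) (.br _ _ _ (.leaf b0 k113 t113) (.br _ _ _ (.leaf b0 k114 t114) (.leaf b0 k115 t115))))) (.br _ _ _ (.br _ _ _ (.br _ _ _ (.leaf b0 k116 t116) (.leaf b0 k117 t117)) (.br _ _ _ (.leaf b0 k118 t118) (.br _ _ _ (.leaf b0 k119 t119) (.leaf b0 k120 t120)))) (.br _ _ _ (.br _ _ _ (.leaf b0 k121 t121) (.leaf b0 k122 t122)) (.br _ _ _ (.leaf b0 k123 t123) (.br _ _ _ (.leaf b0 k124 t124) (.leaf b0 k125 t125)))))) w5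
noncomputable def k126 : KT := (.br (Nat.shiftLeft (nat_lit 0x5) (nat_lit 100)) (.br (Nat.shiftLeft (nat_lit 0x1) (nat_lit 101)) (.br (Nat.shiftLeft (nat_lit 0x1) (nat_lit 100)) (.one (nat_lit 0x800e010000001001c021400)) (.one (nat_lit 0x100800e010000201001c020540))) (.br (Nat.shiftLeft (nat_lit 0x3) (nat_lit 100)) (.one (nat_lit 0x200800e010000401001c021500)) (.br (Nat.shiftLeft (nat_lit 0x1) (nat_lit 102)) (.one (nat_lit 0x300800e010000601001c021500)) (.one (nat_lit 0x400800e010000801001c021500))))) (.br (Nat.shiftLeft (nat_lit 0x7) (nat_lit 100)) (.br (Nat.shiftLeft (nat_lit 0x3) (nat_lit 101)) (.one (nat_lit 0x500800e010000a01001c021500)) (.one (nat_lit 0x600800e010000c01001c021500))) (.br (Nat.shiftLeft (nat_lit 0x1) (nat_lit 112)) (.one (nat_lit 0x700800e010000e01001c021500)) (.br (Nat.shiftLeft (nat_lit 0x801) (nat_lit 101)) (.one (nat_lit 0x100000800e010200001001c020411)) (.one (nat_lit 0x100200800e010200401001c021600))))))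
def t126 : k126.all (jb2 57 fl b0) = true := by decide +kernel
noncomputable def k127 : KT := (.one (nat_lit 0x100300800e010200601001c020650))
def t127 : k127.all (jb2 57 fl b0) = true := by decide +kernel
noncomputable def k128 : KT := (.one (nat_lit 0x100400800e010200801001c020650))
def t128 : k128.all (jb2 57 fl b0) = true := by decide +kernel
noncomputable def k129 : KT := (.br (Nat.shiftLeft (nat_lit 0x1007) (nat_lit 100)) (.br (Nat.shiftLeft (nat_lit 0x803) (nat_lit 101)) (.one (nat_lit 0x100500800e010200a01001c020650)) (.one (nat_lit 0x100600800e010200c01001c020650))) (.br (Nat.shiftLeft (nat_lit 0x1) (nat_lit 113)) (.one (nat_lit 0x100700800e010200e01001c020650)) (.br (Nat.shiftLeft (nat_lit 0x1001) (nat_lit 101)) (.one (nat_lit 0x200000800e010400001001c020411)) (.one (nat_lit 0x200300800e010400601001c021600)))))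
def t129 : k129.all (jb2 57 fl b0) = true := by decide +kernel
noncomputable def k130 : KT := (.one (nat_lit 0x200400800e010400801001c020650))
def t130 : k130.all (jb2 57 fl b0) = true := by decide +kernel
noncomputable def k131 : KT := (.br (Nat.shiftLeft (nat_lit 0x1003) (nat_lit 101)) (.one (nat_lit 0x200500800e010400a01001c020650)) (.one (nat_lit 0x200600800e010400c01001c020650)))
def t131 : k131.all (jb2 57 fl b0) = true := by decide +kernel
noncomputable def k132 : KT := (.br (Nat.shiftLeft (nat_lit 0x3) (nat_lit 112)) (.one (nat_lit 0x200700800e010400e01001c020650)) (.one (nat_lit 0x300000800e010600001001c020411)))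
def t132 : k132.all (jb2 57 fl b0) = true := by decide +kernel
noncomputable def k133 : KT := (.one (nat_lit 0x300400800e010600801001c020650))
def t133 : k133.all (jb2 57 fl b0) = true := by decide +kernel
noncomputable def k134 : KT := (.br (Nat.shiftLeft (nat_lit 0x1803) (nat_lit 101)) (.one (nat_lit 0x300500800e010600a01001c020650)) (.one (nat_lit 0x300600800e010600c01001c020650)))
def t134 : k134.all (jb2 57 fl b0) = true := by decide +kernel
noncomputable def k135 : KT := (.br (Nat.shiftLeft (nat_lit 0x1) (nat_lit 114)) (.one (nat_lit 0x300700800e010600e01001c020650)) (.br (Nat.shiftLeft (nat_lit 0x1001) (nat_lit 102)) (.one (nat_lit 0x400000800e010800001001c020411)) (.one (nat_lit 0x400500800e010800a01001c020650))))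
def t135 : k135.all (jb2 57 fl b0) = true := by decide +kernel
noncomputable def k136 : KT := (.br (Nat.shiftLeft (nat_lit 0x5) (nat_lit 112)) (.br (Nat.shiftLeft (nat_lit 0x4007) (nat_lit 100)) (.one (nat_lit 0x400600800e010800c01001c020650)) (.one (nat_lit 0x400700800e010800e01001c020650))) (.br (Nat.shiftLeft (nat_lit 0x1401) (nat_lit 102)) (.one (nat_lit 0x500000800e010a00001001c020411)) (.one (nat_lit 0x500600800e010a00c01001c020650))))
def t136 : k136.all (jb2 57 fl b0) = true := by decide +kernel
noncomputable def k137 : KT := (.br (Nat.shiftLeft (nat_lit 0x3) (nat_lit 114)) (.br (Nat.shiftLeft (nat_lit 0x1) (nat_lit 115)) (.br (Nat.shiftLeft (nat_lit 0x1801) (nat_lit 102)) (.br (Nat.shiftLeft (nat_lit 0x3) (nat_lit 113)) (.one (nat_lit 0x500700800e010a00e01001c020650)) (.one (nat_lit 0x600000800e010c00001001c020411))) (.br (Nat.shiftLeft (nat_lit 0x7) (nat_lit 112)) (.one (nat_lit 0x600700800e010c00e01001c020650)) (.one (nat_lit 0x700000800e010e00001001c020411)))) (.br (Nat.shiftLeft (nat_lit 0x5) (nat_lit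 113)) (.br (Nat.shiftLeft (nat_lit 0x9) (nat_lit 112)) (.one (nat_lit 0x800000800e010000001001c122411)) (.one (nat_lit 0x900000800e010200001001c122411))) (.br (Nat.shiftLeft (nat_lit 0xb) (nat_lit 112)) (.one (nat_lit 0xa00000800e010400001001c122411)) (.one (nat_lit 0xb00000800e010600001001c122411))))) (.br (Nat.shiftLeft (nat_lit 0x1000003) (nat_lit 100)) (.br (Nat.shiftLeft (nat_lit 0x7) (nat_lit 113)) (.br (Nat.shiftLeft (nat_lit 0xd) (nat_lit 112)) (.one (nat_lit 0xc00000800e010800001001c122411)) (.one (nat_lit 0xd00000800e010a00001001c122411))) (.br (Nat.shiftLeft (nat_lit 0x1) (nat_lit 124)) (.one (nat_lit 0xe00000800e010c00001001c122411)) (.one (nat_lit 0x100000200800e010000401003c420511)))) (.br (Nat.shiftLeft (nat_lit 0x1000005) (nat_lit 100)) (.br (Nat.shiftLeft (nat_lit 0x400001) (nat_lit 102)) (.one (nat_lit 0x100000300800e010000601003c420511)) (.one (nat_lit 0x100000400800e010000801003c420511))) (.br (Nat.shiftLeft (nat_lit 0x800003) (nat_lit 101)) (.one (nat_lit 0x100000500800e010000a01003c420511))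 (.br (Nat.shiftLeft (nat_lit 0x1000007) (nat_lit 100)) (.one (nat_lit 0x100000600800e010000c01003c420511)) (.one (nat_lit 0x100000700800e010000e01003c420511)))))))
def t137 : k137.all (jb2 57 fl b0) = true := by decide +kernel
noncomputable def k138 : KT := (.br (Nat.shiftLeft (nat_lit 0xc00001) (nat_lit 102)) (.br (Nat.shiftLeft (nat_lit 0x2000005) (nat_lit 100)) (.br (Nat.shiftLeft (nat_lit 0x2000003) (nat_lit 100)) (.br (Nat.shiftLeft (nat_lit 0x1) (nat_lit 125)) (.one (nat_lit 0x100200300800e010400601003c420760)) (.one (nat_lit 0x200000200800e010000401005c820511))) (.br (Nat.shiftLeft (nat_lit 0x800001) (nat_lit 102)) (.one (nat_lit 0x200000300800e010000601005c820511)) (.one (nat_lit 0x200000400800e010000801005c820511)))) (.br (Nat.shiftLeft (nat_lit 0x2000007) (nat_lit 100)) (.br (Nat.shiftLeft (nat_lit 0x1000003) (nat_lit 101)) (.one (nat_lit 0x200000500800e010000a01005c820511)) (.one (nat_lit 0x200000600800e010000c01005c820511))) (.br (Nat.shiftLeft (nat_lit 0x3) (nat_lit 124)) (.one (nat_lit 0x200000700800e010000e01005c820511))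 (.br (Nat.shiftLeft (nat_lit 0x3000003) (nat_lit 100)) (.one (nat_lit 0x300000200800e010000401007cc20511)) (.one (nat_lit 0x300000300800e010000601007cc20511)))))) (.br (Nat.shiftLeft (nat_lit 0x4000003) (nat_lit 100)) (.br (Nat.shiftLeft (nat_lit 0x1800003) (nat_lit 101)) (.br (Nat.shiftLeft (nat_lit 0x3000005) (nat_lit 100)) (.one (nat_lit 0x300000400800e010000801007cc20511)) (.one (nat_lit 0x300000500800e010000a01007cc20511))) (.br (Nat.shiftLeft (nat_lit 0x3000007) (nat_lit 100)) (.one (nat_lit 0x300000600800e010000c01007cc20511)) (.br (Nat.shiftLeft (nat_lit 0x1) (nat_lit 126)) (.one (nat_lit 0x300000700800e010000e01007cc20511)) (.one (nat_lit 0x400000200800e010000401009d020511))))) (.br (Nat.shiftLeft (nat_lit 0x4000005) (nat_lit 100)) (.br (Nat.shiftLeft (nat_lit 0x1000001) (nat_lit 102)) (.one (nat_lit 0x400000300800e010000601009d020511)) (.one (nat_lit 0x400000400800e010000801009d020511))) (.br (Nat.shiftLeft (nat_lit 0x2000003) (nat_lit 101)) (.one (nat_lit 0x400000500800e010000a01009d020511)) (.br (Nat.shiftLeft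 (nat_lit 0x4000007) (nat_lit 100)) (.one (nat_lit 0x400000600800e010000c01009d020511)) (.one (nat_lit 0x400000700800e010000e01009d020511)))))))
def t138 : k138.all (jb2 57 fl b0) = true := by decide +kernel
noncomputable def k139 : KT := (.br (Nat.shiftLeft (nat_lit 0x2800003) (nat_lit 101)) (.br (Nat.shiftLeft (nat_lit 0x1400001) (nat_lit 102)) (.br (Nat.shiftLeft (nat_lit 0x5000003) (nat_lit 100)) (.one (nat_lit 0x500000200800e01000040100bd420511)) (.one (nat_lit 0x500000300800e01000060100bd420511))) (.br (Nat.shiftLeft (nat_lit 0x5000005) (nat_lit 100)) (.one (nat_lit 0x500000400800e01000080100bd420511)) (.one (nat_lit 0x500000500800e010000a0100bd420511)))) (.br (Nat.shiftLeft (nat_lit 0x3) (nat_lit 125)) (.br (Nat.shiftLeft (nat_lit 0x5000007) (nat_lit 100)) (.one (nat_lit 0x500000600800e010000c0100bd420511)) (.one (nat_lit 0x500000700800e010000e0100bd420511))) (.br (Nat.shiftLeft (nat_lit 0x6000003) (nat_lit 100)) (.one (nat_lit 0x600000200800e01000040100dd820511)) (.one (nat_lit 0x600000300800e01000060100dd820511)))))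
def t139 : k139.all (jb2 57 fl b0) = true := by decide +kernel
noncomputable def k140 : KT := (.br (Nat.shiftLeft (nat_lit 0x7) (nat_lit 124)) (.br (Nat.shiftLeft (nat_lit 0x3000003) (nat_lit 101)) (.br (Nat.shiftLeft (nat_lit 0x6000005) (nat_lit 100)) (.one (nat_lit 0x600000400800e01000080100dd820511)) (.one (nat_lit 0x600000500800e010000a0100dd820511))) (.br (Nat.shiftLeft (nat_lit 0x6000007) (nat_lit 100)) (.one (nat_lit 0x600000600800e010000c0100dd820511)) (.one (nat_lit 0x600000700800e010000e0100dd820511)))) (.br (Nat.shiftLeft (nat_lit 0x1c00001) (nat_lit 102)) (.br (Nat.shiftLeft (nat_lit 0x7000003) (nat_lit 100)) (.one (nat_lit 0x700000200800e01000040100fdc20511)) (.one (nat_lit 0x700000300800e01000060100fdc20511))) (.br (Nat.shiftLeft (nat_lit 0x7000005) (nat_lit 100)) (.one (nat_lit 0x700000400800e01000080100fdc20511)) (.one (nat_lit 0x700000500800e010000a0100fdc20511)))))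
def t140 : k140.all (jb2 57 fl b0) = true := by decide +kernel
noncomputable def k141 : KT := (.br (Nat.shiftLeft (nat_lit 0x4000003) (nat_lit 101)) (.br (Nat.shiftLeft (nat_lit 0x8000003) (nat_lit 100)) (.br (Nat.shiftLeft (nat_lit 0x7000007) (nat_lit 100)) (.one (nat_lit 0x700000600800e010000c0100fdc20511)) (.br (Nat.shiftLeft (nat_lit 0x1) (nat_lit 127)) (.one (nat_lit 0x700000700800e010000e0100fdc20511)) (.one (nat_lit 0x800000200800e010000401011e020511)))) (.br (Nat.shiftLeft (nat_lit 0x2000001) (nat_lit 102)) (.one (nat_lit 0x800000300800e010000601011e020511)) (.br (Nat.shiftLeft (nat_lit 0x8000005) (nat_lit 100)) (.one (nat_lit 0x800000400800e010000801011e020511)) (.one (nat_lit 0x800000500800e010000a01011e020511))))) (.br (Nat.shiftLeft (nat_lit 0x9000003) (nat_lit 100)) (.br (Nat.shiftLeft (nat_lit 0x8000007) (nat_lit 100)) (.one (nat_lit 0x800000600800e010000c01011e020511)) (.br (Nat.shiftLeft (nat_lit 0x9) (nat_lit 124)) (.one (nat_lit 0x800000700800e010000e01011e020511)) (.one (nat_lit 0x900000200800e010000401013e420511))))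 (.br (Nat.shiftLeft (nat_lit 0x9000005) (nat_lit 100)) (.br (Nat.shiftLeft (nat_lit 0x2400001) (nat_lit 102)) (.one (nat_lit 0x900000300800e010000601013e420511)) (.one (nat_lit 0x900000400800e010000801013e420511))) (.br (Nat.shiftLeft (nat_lit 0x4800003) (nat_lit 101)) (.one (nat_lit 0x900000500800e010000a01013e420511)) (.one (nat_lit 0x900000600800e010000c01013e420511))))))
def t141 : k141.all (jb2 57 fl b0) = true := by decide +kernel
noncomputable def k142 : KT := (.br (Nat.shiftLeft (nat_lit 0xc000007) (nat_lit 100)) (.br (Nat.shiftLeft (nat_lit 0x2c00001) (nat_lit 102)) (.br (Nat.shiftLeft (nat_lit 0xa000005) (nat_lit 100)) (.br (Nat.shiftLeft (nat_lit 0xa000003) (nat_lit 100)) (.br (Nat.shiftLeft (nat_lit 0x5) (nat_lit 125)) (.one (nat_lit 0x900000700800e010000e01013e420511)) (.one (nat_lit 0xa00000200800e010000401015e820511))) (.br (Nat.shiftLeft (nat_lit 0x2800001) (nat_lit 102)) (.one (nat_lit 0xa00000300800e010000601015e820511)) (.one (nat_lit 0xa00000400800e010000801015e820511)))) (.br (Nat.shiftLeft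 (nat_lit 0xa000007) (nat_lit 100)) (.br (Nat.shiftLeft (nat_lit 0x5000003) (nat_lit 101)) (.one (nat_lit 0xa00000500800e010000a01015e820511)) (.one (nat_lit 0xa00000600800e010000c01015e820511))) (.br (Nat.shiftLeft (nat_lit 0xb) (nat_lit 124)) (.one (nat_lit 0xa00000700800e010000e01015e820511)) (.br (Nat.shiftLeft (nat_lit 0xb000003) (nat_lit 100)) (.one (nat_lit 0xb00000200800e010000401017ec20511)) (.one (nat_lit 0xb00000300800e010000601017ec20511)))))) (.br (Nat.shiftLeft (nat_lit 0x3) (nat_lit 126)) (.br (Nat.shiftLeft (nat_lit 0x5800003) (nat_lit 101)) (.br (Nat.shiftLeft (nat_lit 0xb000005) (nat_lit 100)) (.one (nat_lit 0xb00000400800e010000801017ec20511)) (.one (nat_lit 0xb00000500800e010000a01017ec20511))) (.br (Nat.shiftLeft (nat_lit 0xb000007) (nat_lit 100)) (.one (nat_lit 0xb00000600800e010000c01017ec20511)) (.one (nat_lit 0xb00000700800e010000e01017ec20511)))) (.br (Nat.shiftLeft (nat_lit 0x3000001) (nat_lit 102)) (.br (Nat.shiftLeft (nat_lit 0xc000003) (nat_lit 100)) (.one (nat_lit 0xc00000200800e010000401019f020511))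 (.one (nat_lit 0xc00000300800e010000601019f020511))) (.br (Nat.shiftLeft (nat_lit 0xc000005) (nat_lit 100)) (.one (nat_lit 0xc00000400800e010000801019f020511)) (.br (Nat.shiftLeft (nat_lit 0x6000003) (nat_lit 101)) (.one (nat_lit 0xc00000500800e010000a01019f020511)) (.one (nat_lit 0xc00000600800e010000c01019f020511))))))) (.br (Nat.shiftLeft (nat_lit 0xe000005) (nat_lit 100)) (.br (Nat.shiftLeft (nat_lit 0xd000005) (nat_lit 100)) (.br (Nat.shiftLeft (nat_lit 0xd000003) (nat_lit 100)) (.br (Nat.shiftLeft (nat_lit 0xd) (nat_lit 124)) (.one (nat_lit 0xc00000700800e010000e01019f020511)) (.one (nat_lit 0xd00000200800e01000040101bf420511))) (.br (Nat.shiftLeft (nat_lit 0x3400001) (nat_lit 102)) (.one (nat_lit 0xd00000300800e01000060101bf420511)) (.one (nat_lit 0xd00000400800e01000080101bf420511)))) (.br (Nat.shiftLeft (nat_lit 0x7) (nat_lit 125)) (.br (Nat.shiftLeft (nat_lit 0x6800003) (nat_lit 101)) (.one (nat_lit 0xd00000500800e010000a0101bf420511)) (.one (nat_lit 0xd00000600800e010000c0101bf420511))) (.br (Nat.shiftLeft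 (nat_lit 0xe000003) (nat_lit 100)) (.one (nat_lit 0xe00000200800e01000040101df820511)) (.br (Nat.shiftLeft (nat_lit 0x3800001) (nat_lit 102)) (.one (nat_lit 0xe00000300800e01000060101df820511)) (.one (nat_lit 0xe00000400800e01000080101df820511)))))) (.br (Nat.shiftLeft (nat_lit 0x3) (nat_lit 136)) (.br (Nat.shiftLeft (nat_lit 0x800001) (nat_lit 113)) (.br (Nat.shiftLeft (nat_lit 0x1) (nat_lit 136)) (.one (nat_lit 0xe00000500800e010000a0101df820511)) (.one (nat_lit 0x100000100200800e010200403041c020611))) (.br (Nat.shiftLeft (nat_lit 0x1) (nat_lit 137)) (.one (nat_lit 0x100000200300800e010400603041c020611)) (.br (Nat.shiftLeft (nat_lit 0x1000001) (nat_lit 113)) (.one (nat_lit 0x200000100200800e010200405081c020611)) (.one (nat_lit 0x200000200300800e010400605081c020611))))) (.br (Nat.shiftLeft (nat_lit 0x1) (nat_lit 138)) (.br (Nat.shiftLeft (nat_lit 0x1800001) (nat_lit 113)) (.one (nat_lit 0x300000100200800e0102004070c1c020611)) (.one (nat_lit 0x300000200300800e0104006070c1c020611))) (.br (Nat.shiftLeft (nat_lit 0x2000001)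 (nat_lit 113)) (.one (nat_lit 0x400000100200800e010200409101c020611)) (.br (Nat.shiftLeft (nat_lit 0x5) (nat_lit 136)) (.one (nat_lit 0x400000200300800e010400609101c020611)) (.one (nat_lit 0x500000100200800e01020040b141c020611))))))))
def t142 : k142.all (jb2 57 fl b0) = true := by decide +kernel
noncomputable def k143 : KT := (.br (Nat.shiftLeft (nat_lit 0x7) (nat_lit 136)) (.br (Nat.shiftLeft (nat_lit 0x3) (nat_lit 137)) (.one (nat_lit 0x500000200300800e01040060b141c020611)) (.br (Nat.shiftLeft (nat_lit 0x3000001) (nat_lit 113)) (.one (nat_lit 0x600000100200800e01020040d181c020611)) (.one (nat_lit 0x600000200300800e01040060d181c020611)))) (.br (Nat.shiftLeft (nat_lit 0x1) (nat_lit 139)) (.br (Nat.shiftLeft (nat_lit 0x3800001) (nat_lit 113)) (.one (nat_lit 0x700000100200800e01020040f1c1c020611)) (.one (nat_lit 0x700000200300800e01040060f1c1c020611))) (.br (Nat.shiftLeft (nat_lit 0x4000001) (nat_lit 113)) (.one (nat_lit 0x800000100200800e010200411201c020611)) (.one (nat_lit 0x800000200300800e010400611201c020611)))))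
def t143 : k143.all (jb2 57 fl b0) = true := by decide +kernel
noncomputable def k144 : KT := (.br (Nat.shiftLeft (nat_lit 0x3) (nat_lit 138)) (.br (Nat.shiftLeft (nat_lit 0x5000001) (nat_lit 113)) (.br (Nat.shiftLeft (nat_lit 0x4800001) (nat_lit 113)) (.one (nat_lit 0x900000100200800e010200413241c020611)) (.br (Nat.shiftLeft (nat_lit 0x5) (nat_lit 137)) (.one (nat_lit 0x900000200300800e010400613241c020611)) (.one (nat_lit 0xa00000100200800e010200415281c020611)))) (.br (Nat.shiftLeft (nat_lit 0xb) (nat_lit 136)) (.one (nat_lit 0xa00000200300800e010400615281c020611)) (.br (Nat.shiftLeft (nat_lit 0x5800001) (nat_lit 113)) (.one (nat_lit 0xb00000100200800e0102004172c1c020611)) (.one (nat_lit 0xb00000200300800e0104006172c1c020611))))) (.br (Nat.shiftLeft (nat_lit 0x6800001) (nat_lit 113)) (.br (Nat.shiftLeft (nat_lit 0x6000001) (nat_lit 113)) (.one (nat_lit 0xc00000100200800e010200419301c020611)) (.br (Nat.shiftLeft (nat_lit 0xd) (nat_lit 136)) (.one (nat_lit 0xc00000200300800e010400619301c020611)) (.one (nat_lit 0xd00000100200800e01020041b341c020611))))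 (.br (Nat.shiftLeft (nat_lit 0x7) (nat_lit 137)) (.one (nat_lit 0xd00000200300800e01040061b341c020611)) (.br (Nat.shiftLeft (nat_lit 0x7000001) (nat_lit 113)) (.one (nat_lit 0xe00000100200800e01020041d381c020611)) (.one (nat_lit 0xe00000200300800e01040061d381c020611))))))
def t144 : k144.all (jb2 57 fl b0) = true := by decide +kernel
noncomputable def s6 : KT := (.br (nat_lit 0x300600800e010600c01001c020650) (.br (nat_lit 0x200300800e010400601001c021600) (.br (nat_lit 0x100300800e010200601001c020650) (.br (nat_lit 0x100200800e010200401001c021600) k126 k127) (.br (nat_lit 0x100400800e010200801001c020650) k128 k129)) (.br (nat_lit 0x200600800e010400c01001c020650) (.br (nat_lit 0x200400800e010400801001c020650) k130 k131) (.br (nat_lit 0x300000800e010600001001c020411) k132 (.br (nat_lit 0x300400800e010600801001c020650) k133 k134)))) (.br (nat_lit 0x600000300800e01000060100dd820511) (.br (nat_lit 0x500600800e010a00c01001c020650) (.br (nat_lit 0x400500800e010800a01001c020650) k135 k136) (.br (nat_lit 0x100000700800e010000e01003c420511)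 k137 (.br (nat_lit 0x400000700800e010000e01009d020511) k138 k139))) (.br (nat_lit 0x900000600800e010000c01013e420511) (.br (nat_lit 0x700000500800e010000a0100fdc20511) k140 k141) (.br (nat_lit 0x500000100200800e01020040b141c020611) k142 (.br (nat_lit 0x800000200300800e010400611201c020611) k143 k144)))))
noncomputable def u6 : KT := (.one (nat_lit 0x800e010000001001c020430))
def w6 : u6.all (wj 57 s6) = true := by decide +kernel
def o6 : OkW 57 (jb2 57 fl) u6 := .lift s6 _ (.br _ _ _ (.br _ _ _ (.br _ _ _ (.br _ _ _ (.leaf b0 k126 t126) (.leaf b0 k127 t127)) (.br _ _ _ (.leaf b0 k128 t128) (.leaf b0 k129 t129))) (.br _ _ _ (.br _ _ _ (.leaf b0 k130 t130) (.leaf b0 k131 t131)) (.br _ _ _ (.leaf b0 k132 t132) (.br _ _ _ (.leaf b0 k133 t133) (.leaf b0 k134 t134))))) (.br _ _ _ (.br _ _ _ (.br _ _ _ (.leaf b0 k135 t135) (.leaf b0 k136 t136)) (.br _ _ _ (.leaf b0 k137 t137) (.br _ _ _ (.leaf b0 k138 t138) (.leaf b0 k139 t139)))) (.br _ _ _ (.br _ _ _ (.leaf b0 k140 t140) (.leaf b0 k141 t141)) (.br _ _ _ (.leaf b0 k142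 t142) (.br _ _ _ (.leaf b0 k143 t143) (.leaf b0 k144 t144)))))) w6
noncomputable def k145 : KT := (.br (Nat.shiftLeft (nat_lit 0x4007009) (nat_lit 65)) (.one (nat_lit 0x800e011000001001c023400)) (.br (Nat.shiftLeft (nat_lit 0x1) (nat_lit 100)) (.one (nat_lit 0x800e012000001001c025400)) (.one (nat_lit 0x100800e011000201001c022540))))
def t145 : k145.all (jb2 57 fl b0) = true := by decide +kernel
noncomputable def k146 : KT := (.br (Nat.shiftLeft (nat_lit 0x2004007009) (nat_lit 65)) (.br (Nat.shiftLeft (nat_lit 0x3) (nat_lit 100)) (.br (Nat.shiftLeft (nat_lit 0x1) (nat_lit 101)) (.one (nat_lit 0x100800e012000201001c024540)) (.br (Nat.shiftLeft (nat_lit 0x1004007009) (nat_lit 65)) (.one (nat_lit 0x200800e011000401001c023500)) (.one (nat_lit 0x200800e012000401001c025500)))) (.br (Nat.shiftLeft (nat_lit 0x1804007009) (nat_lit 65)) (.one (nat_lit 0x300800e011000601001c023500)) (.br (Nat.shiftLeft (nat_lit 0x1) (nat_lit 102)) (.one (nat_lit 0x300800e012000601001c025500)) (.one (nat_lit 0x400800e011000801001c023500)))))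 (.br (Nat.shiftLeft (nat_lit 0x3) (nat_lit 101)) (.br (Nat.shiftLeft (nat_lit 0x5) (nat_lit 100)) (.one (nat_lit 0x400800e012000801001c025500)) (.br (Nat.shiftLeft (nat_lit 0x2804007009) (nat_lit 65)) (.one (nat_lit 0x500800e011000a01001c023500)) (.one (nat_lit 0x500800e012000a01001c025500)))) (.br (Nat.shiftLeft (nat_lit 0x3004007009) (nat_lit 65)) (.one (nat_lit 0x600800e011000c01001c023500)) (.br (Nat.shiftLeft (nat_lit 0x7) (nat_lit 100)) (.one (nat_lit 0x600800e012000c01001c025500)) (.one (nat_lit 0x700800e011000e01001c023500))))))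
def t146 : k146.all (jb2 57 fl b0) = true := by decide +kernel
noncomputable def k147 : KT := (.br (Nat.shiftLeft (nat_lit 0x1) (nat_lit 112)) (.one (nat_lit 0x700800e012000e01001c024540)) (.br (Nat.shiftLeft (nat_lit 0x800004007009) (nat_lit 65)) (.one (nat_lit 0x100000800e011200001001c022411)) (.one (nat_lit 0x100000800e012200001001c024411))))
def t147 : k147.all (jb2 57 fl b0) = true := by decide +kernel
noncomputable def k148 : KT := (.one (nat_lit 0x100200800e011200401001c022650))
def t148 : k148.all (jb2 57 fl b0) = true := by decide +kernel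
noncomputable def k149 : KT := (.one (nat_lit 0x100200800e012200401001c024650))
def t149 : k149.all (jb2 57 fl b0) = true := by decide +kernel
noncomputable def k150 : KT := (.one (nat_lit 0x100300800e011200601001c022650))
def t150 : k150.all (jb2 57 fl b0) = true := by decide +kernel
noncomputable def k151 : KT := (.br (Nat.shiftLeft (nat_lit 0x401) (nat_lit 102)) (.one (nat_lit 0x100300800e012200601001c024650)) (.one (nat_lit 0x100400800e011200801001c022650)))
def t151 : k151.all (jb2 57 fl b0) = true := by decide +kernel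
noncomputable def k152 : KT := (.br (Nat.shiftLeft (nat_lit 0x1005) (nat_lit 100)) (.one (nat_lit 0x100400800e012200801001c024650)) (.br (Nat.shiftLeft (nat_lit 0x802804007009) (nat_lit 65)) (.one (nat_lit 0x100500800e011200a01001c022650)) (.one (nat_lit 0x100500800e012200a01001c024650))))
def t152 : k152.all (jb2 57 fl b0) = true := by decide +kernel
noncomputable def k153 : KT := (.br (Nat.shiftLeft (nat_lit 0x1007) (nat_lit 100)) (.br (Nat.shiftLeft (nat_lit 0x803004007009) (nat_lit 65)) (.one (nat_lit 0x100600800e011200c01001c022650)) (.one (nat_lit 0x100600800e012200c01001c024650))) (.br (Nat.shiftLeft (nat_lit 0x1) (nat_lit 113)) (.one (nat_lit 0x100700800e011200e01001c022650)) (.br (Nat.shiftLeft (nat_lit 0x1000004007009) (nat_lit 65)) (.one (nat_lit 0x200000800e011400001001c022411)) (.one (nat_lit 0x200000800e012400001001c024411)))))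
def t153 : k153.all (jb2 57 fl b0) = true := by decide +kernel
noncomputable def k154 : KT := (.one (nat_lit 0x200300800e011400601001c022650))
def t154 : k154.all (jb2 57 fl b0) = true := by decide +kernel
noncomputable def k155 : KT := (.one (nat_lit 0x200300800e012400601001c024650))
def t155 : k155.all (jb2 57 fl b0) = true := by decide +kernel
noncomputable def k156 : KT := (.br (Nat.shiftLeft (nat_lit 0x1002004007009) (nat_lit 65)) (.one (nat_lit 0x200400800e011400801001c022650)) (.one (nat_lit 0x200400800e012400801001c024650)))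
def t156 : k156.all (jb2 57 fl b0) = true := by decide +kernel
noncomputable def k157 : KT := (.br (Nat.shiftLeft (nat_lit 0x1002804007009) (nat_lit 65)) (.one (nat_lit 0x200500800e011400a01001c022650)) (.br (Nat.shiftLeft (nat_lit 0x1003) (nat_lit 101)) (.one (nat_lit 0x200500800e012400a01001c024650)) (.one (nat_lit 0x200600800e011400c01001c022650))))
def t157 : k157.all (jb2 57 fl b0) = true := by decide +kernel
noncomputable def k158 : KT := (.br (Nat.shiftLeft (nat_lit 0x3) (nat_lit 112)) (.br (Nat.shiftLeft (nat_lit 0x2007) (nat_lit 100)) (.one (nat_lit 0x200600800e012400c01001c024650)) (.one (nat_lit 0x200700800e011400e01001c022650))) (.br (Nat.shiftLeft (nat_lit 0x1800004007009) (nat_lit 65)) (.one (nat_lit 0x300000800e011600001001c022411)) (.br (Nat.shiftLeft (nat_lit 0xc01) (nat_lit 102)) (.one (nat_lit 0x300000800e012600001001c024411)) (.one (nat_lit 0x300400800e011600801001c022650)))))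
def t158 : k158.all (jb2 57 fl b0) = true := by decide +kernel
noncomputable def k159 : KT := (.br (Nat.shiftLeft (nat_lit 0x3005) (nat_lit 100)) (.one (nat_lit 0x300400800e012600801001c024650)) (.one (nat_lit 0x300500800e011600a01001c022650)))
def t159 : k159.all (jb2 57 fl b0) = true := by decide +kernel
noncomputable def k160 : KT := (.br (Nat.shiftLeft (nat_lit 0x3007) (nat_lit 100)) (.br (Nat.shiftLeft (nat_lit 0x1803) (nat_lit 101)) (.one (nat_lit 0x300500800e012600a01001c024650)) (.br (Nat.shiftLeft (nat_lit 0x1803004007009) (nat_lit 65)) (.one (nat_lit 0x300600800e011600c01001c022650)) (.one (nat_lit 0x300600800e012600c01001c024650)))) (.br (Nat.shiftLeft (nat_lit 0x1) (nat_lit 114)) (.one (nat_lit 0x300700800e011600e01001c022650)) (.br (Nat.shiftLeft (nat_lit 0x2000004007009) (nat_lit 65)) (.one (nat_lit 0x400000800e011800001001c022411)) (.one (nat_lit 0x400000800e012800001001c024411)))))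
def t160 : k160.all (jb2 57 fl b0) = true := by decide +kernel
noncomputable def k161 : KT := (.br (Nat.shiftLeft (nat_lit 0x2002804007009) (nat_lit 65)) (.one (nat_lit 0x400500800e011800a01001c022650)) (.br (Nat.shiftLeft (nat_lit 0x2003) (nat_lit 101)) (.one (nat_lit 0x400500800e012800a01001c024650)) (.one (nat_lit 0x400600800e011800c01001c022650))))
def t161 : k161.all (jb2 57 fl b0) = true := by decide +kernel
noncomputable def k162 : KT := (.br (Nat.shiftLeft (nat_lit 0x2803004007009) (nat_lit 65)) (.br (Nat.shiftLeft (nat_lit 0x5) (nat_lit 112)) (.br (Nat.shiftLeft (nat_lit 0x4007) (nat_lit 100)) (.one (nat_lit 0x400600800e012800c01001c024650)) (.one (nat_lit 0x400700800e011800e01001c022650))) (.br (Nat.shiftLeft (nat_lit 0x2800004007009) (nat_lit 65)) (.one (nat_lit 0x500000800e011a00001001c022411)) (.br (Nat.shiftLeft (nat_lit 0x1401) (nat_lit 102)) (.one (nat_lit 0x500000800e012a00001001c024411)) (.one (nat_lit 0x500600800e011a00c01001c022650))))) (.br (Nat.shiftLeft (nat_lit 0x3) (nat_lit 113)) (.br (Nat.shiftLeft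 (nat_lit 0x5007) (nat_lit 100)) (.one (nat_lit 0x500600800e012a00c01001c024650)) (.one (nat_lit 0x500700800e011a00e01001c022650))) (.br (Nat.shiftLeft (nat_lit 0x3000004007009) (nat_lit 65)) (.one (nat_lit 0x600000800e011c00001001c022411)) (.br (Nat.shiftLeft (nat_lit 0x1801) (nat_lit 102)) (.one (nat_lit 0x600000800e012c00001001c024411)) (.one (nat_lit 0x600700800e011c00e01001c022650))))))
def t162 : k162.all (jb2 57 fl b0) = true := by decide +kernel
noncomputable def k163 : KT := (.br (Nat.shiftLeft (nat_lit 0x400001) (nat_lit 102)) (.br (Nat.shiftLeft (nat_lit 0x3) (nat_lit 114)) (.br (Nat.shiftLeft (nat_lit 0x4800004007009) (nat_lit 65)) (.br (Nat.shiftLeft (nat_lit 0x1) (nat_lit 115)) (.br (Nat.shiftLeft (nat_lit 0x3800004007009) (nat_lit 65)) (.one (nat_lit 0x700000800e011e00001001c022411)) (.one (nat_lit 0x700000800e012e00001001c024411))) (.br (Nat.shiftLeft (nat_lit 0x4000004007009) (nat_lit 65)) (.one (nat_lit 0x800000800e011000001001c124411)) (.br (Nat.shiftLeft (nat_lit 0x9) (nat_lit 112)) (.one (nat_lit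 0x800000800e012000001001c126411)) (.one (nat_lit 0x900000800e011200001001c124411))))) (.br (Nat.shiftLeft (nat_lit 0x5000004007009) (nat_lit 65)) (.br (Nat.shiftLeft (nat_lit 0x5) (nat_lit 113)) (.one (nat_lit 0x900000800e012200001001c126411)) (.one (nat_lit 0xa00000800e011400001001c124411))) (.br (Nat.shiftLeft (nat_lit 0xb) (nat_lit 112)) (.one (nat_lit 0xa00000800e012400001001c126411)) (.br (Nat.shiftLeft (nat_lit 0x5800004007009) (nat_lit 65)) (.one (nat_lit 0xb00000800e011600001001c124411)) (.one (nat_lit 0xb00000800e012600001001c126411)))))) (.br (Nat.shiftLeft (nat_lit 0x7000004007009) (nat_lit 65)) (.br (Nat.shiftLeft (nat_lit 0xd) (nat_lit 112)) (.br (Nat.shiftLeft (nat_lit 0x6000004007009) (nat_lit 65)) (.one (nat_lit 0xc00000800e011800001001c124411)) (.one (nat_lit 0xc00000800e012800001001c126411))) (.br (Nat.shiftLeft (nat_lit 0x6800004007009) (nat_lit 65)) (.one (nat_lit 0xd00000800e011a00001001c124411)) (.br (Nat.shiftLeft (nat_lit 0x7) (nat_lit 113)) (.one (nat_lit 0xd00000800e012a00001001c126411))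 (.one (nat_lit 0xe00000800e011c00001001c124411))))) (.br (Nat.shiftLeft (nat_lit 0x800001004007009) (nat_lit 65)) (.br (Nat.shiftLeft (nat_lit 0x1) (nat_lit 124)) (.one (nat_lit 0xe00000800e012c00001001c126411)) (.one (nat_lit 0x100000200800e011000401003c422511))) (.br (Nat.shiftLeft (nat_lit 0x1000003) (nat_lit 100)) (.one (nat_lit 0x100000200800e012000401003c424511)) (.br (Nat.shiftLeft (nat_lit 0x800001804007009) (nat_lit 65)) (.one (nat_lit 0x100000300800e011000601003c422511)) (.one (nat_lit 0x100000300800e012000601003c424511))))))) (.br (Nat.shiftLeft (nat_lit 0x1000001804007009) (nat_lit 65)) (.br (Nat.shiftLeft (nat_lit 0x800003004007009) (nat_lit 65)) (.br (Nat.shiftLeft (nat_lit 0x1000005) (nat_lit 100)) (.br (Nat.shiftLeft (nat_lit 0x800002004007009) (nat_lit 65)) (.one (nat_lit 0x100000400800e011000801003c422511)) (.one (nat_lit 0x100000400800e012000801003c424511))) (.br (Nat.shiftLeft (nat_lit 0x800002804007009) (nat_lit 65)) (.one (nat_lit 0x100000500800e011000a01003c422511)) (.br (Nat.shiftLeft (nat_lit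 0x800003) (nat_lit 101)) (.one (nat_lit 0x100000500800e012000a01003c424511)) (.one (nat_lit 0x100000600800e011000c01003c422511))))) (.br (Nat.shiftLeft (nat_lit 0x1) (nat_lit 125)) (.br (Nat.shiftLeft (nat_lit 0x1000007) (nat_lit 100)) (.one (nat_lit 0x100000600800e012000c01003c424511)) (.one (nat_lit 0x100000700800e011000e01003c422511))) (.br (Nat.shiftLeft (nat_lit 0x1000001004007009) (nat_lit 65)) (.one (nat_lit 0x200000200800e011000401005c822511)) (.br (Nat.shiftLeft (nat_lit 0x2000003) (nat_lit 100)) (.one (nat_lit 0x200000200800e012000401005c824511)) (.one (nat_lit 0x200000300800e011000601005c822511)))))) (.br (Nat.shiftLeft (nat_lit 0x1000003) (nat_lit 101)) (.br (Nat.shiftLeft (nat_lit 0x1000002004007009) (nat_lit 65)) (.br (Nat.shiftLeft (nat_lit 0x800001) (nat_lit 102)) (.one (nat_lit 0x200000300800e012000601005c824511)) (.one (nat_lit 0x200000400800e011000801005c822511))) (.br (Nat.shiftLeft (nat_lit 0x2000005) (nat_lit 100)) (.one (nat_lit 0x200000400800e012000801005c824511)) (.br (Nat.shiftLeft (nat_lit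 0x1000002804007009) (nat_lit 65)) (.one (nat_lit 0x200000500800e011000a01005c822511)) (.one (nat_lit 0x200000500800e012000a01005c824511))))) (.br (Nat.shiftLeft (nat_lit 0x2000007) (nat_lit 100)) (.br (Nat.shiftLeft (nat_lit 0x1000003004007009) (nat_lit 65)) (.one (nat_lit 0x200000600800e011000c01005c822511)) (.one (nat_lit 0x200000600800e012000c01005c824511))) (.br (Nat.shiftLeft (nat_lit 0x3) (nat_lit 124)) (.one (nat_lit 0x200000700800e011000e01005c822511)) (.br (Nat.shiftLeft (nat_lit 0x1800001004007009) (nat_lit 65)) (.one (nat_lit 0x300000200800e011000401007cc22511)) (.one (nat_lit 0x300000200800e012000401007cc24511))))))))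
def t163 : k163.all (jb2 57 fl b0) = true := by decide +kernel
noncomputable def k164 : KT := (.br (Nat.shiftLeft (nat_lit 0x2000001004007009) (nat_lit 65)) (.br (Nat.shiftLeft (nat_lit 0x1800002804007009) (nat_lit 65)) (.br (Nat.shiftLeft (nat_lit 0xc00001) (nat_lit 102)) (.br (Nat.shiftLeft (nat_lit 0x1800001804007009) (nat_lit 65)) (.one (nat_lit 0x300000300800e011000601007cc22511)) (.one (nat_lit 0x300000300800e012000601007cc24511))) (.br (Nat.shiftLeft (nat_lit 0x1800002004007009) (nat_lit 65)) (.one (nat_lit 0x300000400800e011000801007cc22511)) (.br (Nat.shiftLeft (nat_lit 0x3000005) (nat_lit 100)) (.one (nat_lit 0x300000400800e012000801007cc24511)) (.one (nat_lit 0x300000500800e011000a01007cc22511))))) (.br (Nat.shiftLeft (nat_lit 0x1800003004007009) (nat_lit 65)) (.br (Nat.shiftLeft (nat_lit 0x1800003) (nat_lit 101)) (.one (nat_lit 0x300000500800e012000a01007cc24511)) (.one (nat_lit 0x300000600800e011000c01007cc22511))) (.br (Nat.shiftLeft (nat_lit 0x3000007) (nat_lit 100)) (.one (nat_lit 0x300000600800e012000c01007cc24511))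 (.br (Nat.shiftLeft (nat_lit 0x1) (nat_lit 126)) (.one (nat_lit 0x300000700800e011000e01007cc22511)) (.one (nat_lit 0x400000200800e011000401009d022511)))))) (.br (Nat.shiftLeft (nat_lit 0x4000005) (nat_lit 100)) (.br (Nat.shiftLeft (nat_lit 0x2000001804007009) (nat_lit 65)) (.br (Nat.shiftLeft (nat_lit 0x4000003) (nat_lit 100)) (.one (nat_lit 0x400000200800e012000401009d024511)) (.one (nat_lit 0x400000300800e011000601009d022511))) (.br (Nat.shiftLeft (nat_lit 0x1000001) (nat_lit 102)) (.one (nat_lit 0x400000300800e012000601009d024511)) (.br (Nat.shiftLeft (nat_lit 0x2000002004007009) (nat_lit 65)) (.one (nat_lit 0x400000400800e011000801009d022511)) (.one (nat_lit 0x400000400800e012000801009d024511))))) (.br (Nat.shiftLeft (nat_lit 0x2000003004007009) (nat_lit 65)) (.br (Nat.shiftLeft (nat_lit 0x2000002804007009) (nat_lit 65)) (.one (nat_lit 0x400000500800e011000a01009d022511)) (.br (Nat.shiftLeft (nat_lit 0x2000003) (nat_lit 101)) (.one (nat_lit 0x400000500800e012000a01009d024511)) (.one (nat_lit 0x400000600800e011000c01009d022511))))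 (.br (Nat.shiftLeft (nat_lit 0x4000007) (nat_lit 100)) (.one (nat_lit 0x400000600800e012000c01009d024511)) (.br (Nat.shiftLeft (nat_lit 0x5) (nat_lit 124)) (.one (nat_lit 0x400000700800e011000e01009d022511)) (.one (nat_lit 0x500000200800e01100040100bd422511)))))))
def t164 : k164.all (jb2 57 fl b0) = true := by decide +kernel
noncomputable def k165 : KT := (.br (Nat.shiftLeft (nat_lit 0x5000005) (nat_lit 100)) (.br (Nat.shiftLeft (nat_lit 0x2800001804007009) (nat_lit 65)) (.br (Nat.shiftLeft (nat_lit 0x5000003) (nat_lit 100)) (.one (nat_lit 0x500000200800e01200040100bd424511)) (.one (nat_lit 0x500000300800e01100060100bd422511))) (.br (Nat.shiftLeft (nat_lit 0x1400001) (nat_lit 102)) (.one (nat_lit 0x500000300800e01200060100bd424511)) (.br (Nat.shiftLeft (nat_lit 0x2800002004007009) (nat_lit 65)) (.one (nat_lit 0x500000400800e01100080100bd422511)) (.one (nat_lit 0x500000400800e01200080100bd424511))))) (.br (Nat.shiftLeft (nat_lit 0x2800003004007009) (nat_lit 65)) (.br (Nat.shiftLeft (nat_lit 0x2800002804007009) (nat_lit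 65)) (.one (nat_lit 0x500000500800e011000a0100bd422511)) (.br (Nat.shiftLeft (nat_lit 0x2800003) (nat_lit 101)) (.one (nat_lit 0x500000500800e012000a0100bd424511)) (.one (nat_lit 0x500000600800e011000c0100bd422511)))) (.br (Nat.shiftLeft (nat_lit 0x5000007) (nat_lit 100)) (.one (nat_lit 0x500000600800e012000c0100bd424511)) (.br (Nat.shiftLeft (nat_lit 0x3) (nat_lit 125)) (.one (nat_lit 0x500000700800e011000e0100bd422511)) (.one (nat_lit 0x600000200800e01100040100dd822511))))))
def t165 : k165.all (jb2 57 fl b0) = true := by decide +kernel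
noncomputable def k166 : KT := (.br (Nat.shiftLeft (nat_lit 0x6000005) (nat_lit 100)) (.br (Nat.shiftLeft (nat_lit 0x3000001804007009) (nat_lit 65)) (.br (Nat.shiftLeft (nat_lit 0x6000003) (nat_lit 100)) (.one (nat_lit 0x600000200800e01200040100dd824511)) (.one (nat_lit 0x600000300800e01100060100dd822511))) (.br (Nat.shiftLeft (nat_lit 0x1800001) (nat_lit 102)) (.one (nat_lit 0x600000300800e01200060100dd824511)) (.br (Nat.shiftLeft (nat_lit 0x3000002004007009) (nat_lit 65)) (.one (nat_lit 0x600000400800e01100080100dd822511)) (.one (nat_lit 0x600000400800e01200080100dd824511))))) (.br (Nat.shiftLeft (nat_lit 0x3000003004007009) (nat_lit 65)) (.br (Nat.shiftLeft (nat_lit 0x3000002804007009) (nat_lit 65)) (.one (nat_lit 0x600000500800e011000a0100dd822511)) (.br (Nat.shiftLeft (nat_lit 0x3000003) (nat_lit 101)) (.one (nat_lit 0x600000500800e012000a0100dd824511)) (.one (nat_lit 0x600000600800e011000c0100dd822511)))) (.br (Nat.shiftLeft (nat_lit 0x6000007) (nat_lit 100)) (.one (nat_lit 0x600000600800e012000c0100dd824511))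 (.br (Nat.shiftLeft (nat_lit 0x7) (nat_lit 124)) (.one (nat_lit 0x600000700800e011000e0100dd822511)) (.one (nat_lit 0x700000200800e01100040100fdc22511))))))
def t166 : k166.all (jb2 57 fl b0) = true := by decide +kernel
noncomputable def k167 : KT := (.br (Nat.shiftLeft (nat_lit 0x3800002804007009) (nat_lit 65)) (.br (Nat.shiftLeft (nat_lit 0x1c00001) (nat_lit 102)) (.br (Nat.shiftLeft (nat_lit 0x7000003) (nat_lit 100)) (.one (nat_lit 0x700000200800e01200040100fdc24511)) (.br (Nat.shiftLeft (nat_lit 0x3800001804007009) (nat_lit 65)) (.one (nat_lit 0x700000300800e01100060100fdc22511)) (.one (nat_lit 0x700000300800e01200060100fdc24511)))) (.br (Nat.shiftLeft (nat_lit 0x3800002004007009) (nat_lit 65)) (.one (nat_lit 0x700000400800e01100080100fdc22511)) (.br (Nat.shiftLeft (nat_lit 0x7000005) (nat_lit 100)) (.one (nat_lit 0x700000400800e01200080100fdc24511)) (.one (nat_lit 0x700000500800e011000a0100fdc22511))))) (.br (Nat.shiftLeft (nat_lit 0x7000007) (nat_lit 100)) (.br (Nat.shiftLeft (nat_lit 0x3800003) (nat_lit 101))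 (.one (nat_lit 0x700000500800e012000a0100fdc24511)) (.br (Nat.shiftLeft (nat_lit 0x3800003004007009) (nat_lit 65)) (.one (nat_lit 0x700000600800e011000c0100fdc22511)) (.one (nat_lit 0x700000600800e012000c0100fdc24511)))) (.br (Nat.shiftLeft (nat_lit 0x4000001004007009) (nat_lit 65)) (.br (Nat.shiftLeft (nat_lit 0x1) (nat_lit 127)) (.one (nat_lit 0x700000700800e011000e0100fdc22511)) (.one (nat_lit 0x800000200800e011000401011e022511))) (.br (Nat.shiftLeft (nat_lit 0x8000003) (nat_lit 100)) (.one (nat_lit 0x800000200800e012000401011e024511)) (.one (nat_lit 0x800000300800e011000601011e022511))))))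
def t167 : k167.all (jb2 57 fl b0) = true := by decide +kernel
noncomputable def k168 : KT := (.br (Nat.shiftLeft (nat_lit 0x9000007) (nat_lit 100)) (.br (Nat.shiftLeft (nat_lit 0x4800001004007009) (nat_lit 65)) (.br (Nat.shiftLeft (nat_lit 0x4000002804007009) (nat_lit 65)) (.br (Nat.shiftLeft (nat_lit 0x4000002004007009) (nat_lit 65)) (.br (Nat.shiftLeft (nat_lit 0x2000001) (nat_lit 102)) (.one (nat_lit 0x800000300800e012000601011e024511)) (.one (nat_lit 0x800000400800e011000801011e022511))) (.br (Nat.shiftLeft (nat_lit 0x8000005) (nat_lit 100)) (.one (nat_lit 0x800000400800e012000801011e024511)) (.one (nat_lit 0x800000500800e011000a01011e022511)))) (.br (Nat.shiftLeft (nat_lit 0x4000003004007009) (nat_lit 65)) (.br (Nat.shiftLeft (nat_lit 0x4000003) (nat_lit 101)) (.one (nat_lit 0x800000500800e012000a01011e024511)) (.one (nat_lit 0x800000600800e011000c01011e022511))) (.br (Nat.shiftLeft (nat_lit 0x8000007) (nat_lit 100)) (.one (nat_lit 0x800000600800e012000c01011e024511)) (.br (Nat.shiftLeft (nat_lit 0x9) (nat_lit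 124)) (.one (nat_lit 0x800000700800e011000e01011e022511)) (.one (nat_lit 0x900000200800e011000401013e422511)))))) (.br (Nat.shiftLeft (nat_lit 0x4800002004007009) (nat_lit 65)) (.br (Nat.shiftLeft (nat_lit 0x4800001804007009) (nat_lit 65)) (.br (Nat.shiftLeft (nat_lit 0x9000003) (nat_lit 100)) (.one (nat_lit 0x900000200800e012000401013e424511)) (.one (nat_lit 0x900000300800e011000601013e422511))) (.br (Nat.shiftLeft (nat_lit 0x2400001) (nat_lit 102)) (.one (nat_lit 0x900000300800e012000601013e424511)) (.one (nat_lit 0x900000400800e011000801013e422511)))) (.br (Nat.shiftLeft (nat_lit 0x4800002804007009) (nat_lit 65)) (.br (Nat.shiftLeft (nat_lit 0x9000005) (nat_lit 100)) (.one (nat_lit 0x900000400800e012000801013e424511)) (.one (nat_lit 0x900000500800e011000a01013e422511))) (.br (Nat.shiftLeft (nat_lit 0x4800003) (nat_lit 101)) (.one (nat_lit 0x900000500800e012000a01013e424511)) (.br (Nat.shiftLeft (nat_lit 0x4800003004007009) (nat_lit 65)) (.one (nat_lit 0x900000600800e011000c01013e422511)) (.one (nat_lit 0x900000600800e012000c01013e424511)))))))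 (.br (Nat.shiftLeft (nat_lit 0x5000003) (nat_lit 101)) (.br (Nat.shiftLeft (nat_lit 0x5000001804007009) (nat_lit 65)) (.br (Nat.shiftLeft (nat_lit 0x5000001004007009) (nat_lit 65)) (.br (Nat.shiftLeft (nat_lit 0x5) (nat_lit 125)) (.one (nat_lit 0x900000700800e011000e01013e422511)) (.one (nat_lit 0xa00000200800e011000401015e822511))) (.br (Nat.shiftLeft (nat_lit 0xa000003) (nat_lit 100)) (.one (nat_lit 0xa00000200800e012000401015e824511)) (.one (nat_lit 0xa00000300800e011000601015e822511)))) (.br (Nat.shiftLeft (nat_lit 0x5000002004007009) (nat_lit 65)) (.br (Nat.shiftLeft (nat_lit 0x2800001) (nat_lit 102)) (.one (nat_lit 0xa00000300800e012000601015e824511)) (.one (nat_lit 0xa00000400800e011000801015e822511))) (.br (Nat.shiftLeft (nat_lit 0xa000005) (nat_lit 100)) (.one (nat_lit 0xa00000400800e012000801015e824511)) (.br (Nat.shiftLeft (nat_lit 0x5000002804007009) (nat_lit 65)) (.one (nat_lit 0xa00000500800e011000a01015e822511)) (.one (nat_lit 0xa00000500800e012000a01015e824511)))))) (.br (Nat.shiftLeft (nat_lit 0x5800001004007009)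 (nat_lit 65)) (.br (Nat.shiftLeft (nat_lit 0xa000007) (nat_lit 100)) (.br (Nat.shiftLeft (nat_lit 0x5000003004007009) (nat_lit 65)) (.one (nat_lit 0xa00000600800e011000c01015e822511)) (.one (nat_lit 0xa00000600800e012000c01015e824511))) (.br (Nat.shiftLeft (nat_lit 0xb) (nat_lit 124)) (.one (nat_lit 0xa00000700800e011000e01015e822511)) (.one (nat_lit 0xb00000200800e011000401017ec22511)))) (.br (Nat.shiftLeft (nat_lit 0x5800001804007009) (nat_lit 65)) (.br (Nat.shiftLeft (nat_lit 0xb000003) (nat_lit 100)) (.one (nat_lit 0xb00000200800e012000401017ec24511)) (.one (nat_lit 0xb00000300800e011000601017ec22511))) (.br (Nat.shiftLeft (nat_lit 0x2c00001) (nat_lit 102)) (.one (nat_lit 0xb00000300800e012000601017ec24511)) (.br (Nat.shiftLeft (nat_lit 0x5800002004007009) (nat_lit 65)) (.one (nat_lit 0xb00000400800e011000801017ec22511)) (.one (nat_lit 0xb00000400800e012000801017ec24511))))))))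
def t168 : k168.all (jb2 57 fl b0) = true := by decide +kernel
noncomputable def k169 : KT := (.br (Nat.shiftLeft (nat_lit 0x6000003) (nat_lit 101)) (.br (Nat.shiftLeft (nat_lit 0x6000001004007009) (nat_lit 65)) (.br (Nat.shiftLeft (nat_lit 0x5800003004007009) (nat_lit 65)) (.br (Nat.shiftLeft (nat_lit 0x5800002804007009) (nat_lit 65)) (.one (nat_lit 0xb00000500800e011000a01017ec22511)) (.br (Nat.shiftLeft (nat_lit 0x5800003) (nat_lit 101)) (.one (nat_lit 0xb00000500800e012000a01017ec24511)) (.one (nat_lit 0xb00000600800e011000c01017ec22511)))) (.br (Nat.shiftLeft (nat_lit 0xb000007) (nat_lit 100)) (.one (nat_lit 0xb00000600800e012000c01017ec24511)) (.br (Nat.shiftLeft (nat_lit 0x3) (nat_lit 126)) (.one (nat_lit 0xb00000700800e011000e01017ec22511)) (.one (nat_lit 0xc00000200800e011000401019f022511))))) (.br (Nat.shiftLeft (nat_lit 0x3000001) (nat_lit 102)) (.br (Nat.shiftLeft (nat_lit 0xc000003) (nat_lit 100)) (.one (nat_lit 0xc00000200800e012000401019f024511)) (.br (Nat.shiftLeft (nat_lit 0x6000001804007009) (nat_lit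 65)) (.one (nat_lit 0xc00000300800e011000601019f022511)) (.one (nat_lit 0xc00000300800e012000601019f024511)))) (.br (Nat.shiftLeft (nat_lit 0xc000005) (nat_lit 100)) (.br (Nat.shiftLeft (nat_lit 0x6000002004007009) (nat_lit 65)) (.one (nat_lit 0xc00000400800e011000801019f022511)) (.one (nat_lit 0xc00000400800e012000801019f024511))) (.br (Nat.shiftLeft (nat_lit 0x6000002804007009) (nat_lit 65)) (.one (nat_lit 0xc00000500800e011000a01019f022511)) (.one (nat_lit 0xc00000500800e012000a01019f024511)))))) (.br (Nat.shiftLeft (nat_lit 0x6800002004007009) (nat_lit 65)) (.br (Nat.shiftLeft (nat_lit 0xd000003) (nat_lit 100)) (.br (Nat.shiftLeft (nat_lit 0xd) (nat_lit 124)) (.one (nat_lit 0xc00000600800e011000c01019f022511)) (.br (Nat.shiftLeft (nat_lit 0x6800001004007009) (nat_lit 65)) (.one (nat_lit 0xd00000200800e01100040101bf422511)) (.one (nat_lit 0xd00000200800e01200040101bf424511)))) (.br (Nat.shiftLeft (nat_lit 0x6800001804007009) (nat_lit 65)) (.one (nat_lit 0xd00000300800e01100060101bf422511)) (.br (Nat.shiftLeft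 (nat_lit 0x3400001) (nat_lit 102)) (.one (nat_lit 0xd00000300800e01200060101bf424511)) (.one (nat_lit 0xd00000400800e01100080101bf422511))))) (.br (Nat.shiftLeft (nat_lit 0x7000001004007009) (nat_lit 65)) (.br (Nat.shiftLeft (nat_lit 0xd000005) (nat_lit 100)) (.one (nat_lit 0xd00000400800e01200080101bf424511)) (.br (Nat.shiftLeft (nat_lit 0x7) (nat_lit 125)) (.one (nat_lit 0xd00000500800e011000a0101bf422511)) (.one (nat_lit 0xe00000200800e01100040101df822511)))) (.br (Nat.shiftLeft (nat_lit 0x7000001804007009) (nat_lit 65)) (.br (Nat.shiftLeft (nat_lit 0xe000003) (nat_lit 100)) (.one (nat_lit 0xe00000200800e01200040101df824511)) (.one (nat_lit 0xe00000300800e01100060101df822511))) (.br (Nat.shiftLeft (nat_lit 0x3800001) (nat_lit 102)) (.one (nat_lit 0xe00000300800e01200060101df824511)) (.one (nat_lit 0xe00000400800e01100080101df822511)))))))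
def t169 : k169.all (jb2 57 fl b0) = true := by decide +kernel
noncomputable def s7 : KT := (.br (nat_lit 0x200400800e012400801001c024650) (.br (nat_lit 0x100300800e011200601001c022650) (.br (nat_lit 0x100000800e012200001001c024411) (.br (nat_lit 0x100800e011000201001c022540) k145 (.br (nat_lit 0x700800e011000e01001c023500) k146 k147)) (.br (nat_lit 0x100200800e011200401001c022650) k148 (.br (nat_lit 0x100200800e012200401001c024650) k149 k150))) (.br (nat_lit 0x200000800e012400001001c024411) (.br (nat_lit 0x100400800e011200801001c022650) k151 (.br (nat_lit 0x100500800e012200a01001c024650) k152 k153)) (.br (nat_lit 0x200300800e011400601001c022650) k154 (.br (nat_lit 0x200300800e012400601001c024650) k155 k156)))) (.br (nat_lit 0x600700800e011c00e01001c022650) (.br (nat_lit 0x300500800e011600a01001c022650) (.br (nat_lit 0x200600800e011400c01001c022650) k157 (.br (nat_lit 0x300400800e011600801001c022650) k158 k159)) (.br (nat_lit 0x400000800e012800001001c024411) k160 (.br (nat_lit 0x400600800e011800c01001c022650) k161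 k162))) (.br (nat_lit 0x600000200800e01100040100dd822511) (.br (nat_lit 0x300000200800e012000401007cc24511) k163 (.br (nat_lit 0x500000200800e01100040100bd422511) k164 k165)) (.br (nat_lit 0x800000300800e011000601011e022511) (.br (nat_lit 0x700000200800e01100040100fdc22511) k166 k167) (.br (nat_lit 0xb00000400800e012000801017ec24511) k168 k169)))))
noncomputable def u7 : KT := (.br (Nat.shiftLeft (nat_lit 0x4007009) (nat_lit 65)) (.one (nat_lit 0x800e011000001001c022430)) (.one (nat_lit 0x800e012000001001c024430)))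
def w7 : u7.all (wj 57 s7) = true := by decide +kernel
def o7 : OkW 57 (jb2 57 fl) u7 := .lift s7 _ (.br _ _ _ (.br _ _ _ (.br _ _ _ (.br _ _ _ (.leaf b0 k145 t145) (.br _ _ _ (.leaf b0 k146 t146) (.leaf b0 k147 t147))) (.br _ _ _ (.leaf b0 k148 t148) (.br _ _ _ (.leaf b0 k149 t149) (.leaf b0 k150 t150)))) (.br _ _ _ (.br _ _ _ (.leaf b0 k151 t151) (.br _ _ _ (.leaf b0 k152 t152) (.leaf b0 k153 t153))) (.br _ _ _ (.leaf b0 k154 t154) (.br _ _ _ (.leaf b0 k155 t155) (.leaf b0 k156 t156))))) (.br _ _ _ (.br _ _ _ (.br _ _ _ (.leaf b0 k157 t157) (.br _ _ _ (.leaf b0 k158 t158) (.leaf b0 k159 t159))) (.br _ _ _ (.leaf b0 k160 t160) (.br _ _ _ (.leaf b0 k161 t161) (.leaf b0 k162 t162)))) (.br _ _ _ (.br _ _ _ (.leaf b0 k163 t163) (.br _ _ _ (.leaf b0 k164 t164) (.leaf b0 k165 t165))) (.br _ _ _ (.br _ _ _ (.leaf b0 k166 t166) (.leaf b0 k167 t167)) (.br _ _ _ (.leaf b0 k168 t168) (.leaf b0 k169 t169)))))) w7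
noncomputable def k170 : KT := (.br (Nat.shiftLeft (nat_lit 0x400700b) (nat_lit 65)) (.br (Nat.shiftLeft (nat_lit 0x2003805) (nat_lit 66)) (.one (nat_lit 0x800e013000001001c027400)) (.br (Nat.shiftLeft (nat_lit 0x800e015) (nat_lit 64)) (.one (nat_lit 0x800e014000001001c029400)) (.one (nat_lit 0x800e015000001001c02b400)))) (.br (Nat.shiftLeft (nat_lit 0x1) (nat_lit 100)) (.one (nat_lit 0x800e016000001001c02d400)) (.br (Nat.shiftLeft (nat_lit 0x402003805) (nat_lit 66)) (.one (nat_lit 0x100800e013000201001c026540)) (.one (nat_lit 0x100800e014000201001c028540)))))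
def t170 : k170.all (jb2 57 fl b0) = true := by decide +kernel
noncomputable def k171 : KT := (.br (Nat.shiftLeft (nat_lit 0x80400700b) (nat_lit 65)) (.one (nat_lit 0x100800e015000201001c02a540)) (.one (nat_lit 0x100800e016000201001c02c540)))
def t171 : k171.all (jb2 57 fl b0) = true := by decide +kernel
noncomputable def k172 : KT := (.one (nat_lit 0x200800e013000401001c026540))
def t172 : k172.all (jb2 57 fl b0) = true := by decide +kernel
noncomputable def k173 : KT := (.one (nat_lit 0x200800e014000401001c028540))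
def t173 : k173.all (jb2 57 fl b0) = true := by decide +kernel
noncomputable def k174 : KT := (.br (Nat.shiftLeft (nat_lit 0x100400700b) (nat_lit 65)) (.one (nat_lit 0x200800e015000401001c02a540)) (.br (Nat.shiftLeft (nat_lit 0x3) (nat_lit 100)) (.one (nat_lit 0x200800e016000401001c02c540)) (.one (nat_lit 0x300800e013000601001c027500))))
def t174 : k174.all (jb2 57 fl b0) = true := by decide +kernel
noncomputable def k175 : KT := (.one (nat_lit 0x300800e014000601001c028540))
def t175 : k175.all (jb2 57 fl b0) = true := by decide +kernel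
noncomputable def k176 : KT := (.br (Nat.shiftLeft (nat_lit 0x180400700b) (nat_lit 65)) (.one (nat_lit 0x300800e015000601001c02a540)) (.br (Nat.shiftLeft (nat_lit 0x1) (nat_lit 102)) (.one (nat_lit 0x300800e016000601001c02c540)) (.one (nat_lit 0x400800e013000801001c027500))))
def t176 : k176.all (jb2 57 fl b0) = true := by decide +kernel
noncomputable def k177 : KT := (.one (nat_lit 0x400800e014000801001c028540))
def t177 : k177.all (jb2 57 fl b0) = true := by decide +kernel
noncomputable def k178 : KT := (.br (Nat.shiftLeft (nat_lit 0x200400700b) (nat_lit 65)) (.one (nat_lit 0x400800e015000801001c02a540)) (.one (nat_lit 0x400800e016000801001c02c540)))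
def t178 : k178.all (jb2 57 fl b0) = true := by decide +kernel
noncomputable def k179 : KT := (.one (nat_lit 0x500800e013000a01001c026540))
def t179 : k179.all (jb2 57 fl b0) = true := by decide +kernel
noncomputable def k180 : KT := (.one (nat_lit 0x500800e014000a01001c028540))
def t180 : k180.all (jb2 57 fl b0) = true := by decide +kernel
noncomputable def k181 : KT := (.br (Nat.shiftLeft (nat_lit 0x280400700b) (nat_lit 65)) (.one (nat_lit 0x500800e015000a01001c02a540)) (.one (nat_lit 0x500800e016000a01001c02c540)))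
def t181 : k181.all (jb2 57 fl b0) = true := by decide +kernel
noncomputable def k182 : KT := (.one (nat_lit 0x600800e013000c01001c026540))
def t182 : k182.all (jb2 57 fl b0) = true := by decide +kernel
noncomputable def k183 : KT := (.br (Nat.shiftLeft (nat_lit 0x600800e015) (nat_lit 64)) (.one (nat_lit 0x600800e014000c01001c028540)) (.br (Nat.shiftLeft (nat_lit 0x300400700b) (nat_lit 65)) (.one (nat_lit 0x600800e015000c01001c02a540)) (.one (nat_lit 0x600800e016000c01001c02c540))))
def t183 : k183.all (jb2 57 fl b0) = true := by decide +kernel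
noncomputable def k184 : KT := (.br (Nat.shiftLeft (nat_lit 0x1c02003805) (nat_lit 66)) (.one (nat_lit 0x700800e013000e01001c026540)) (.one (nat_lit 0x700800e014000e01001c028540)))
def t184 : k184.all (jb2 57 fl b0) = true := by decide +kernel
noncomputable def k185 : KT := (.br (Nat.shiftLeft (nat_lit 0x801) (nat_lit 101)) (.br (Nat.shiftLeft (nat_lit 0x400002003805) (nat_lit 66)) (.br (Nat.shiftLeft (nat_lit 0x380400700b) (nat_lit 65)) (.one (nat_lit 0x700800e015000e01001c02a540)) (.br (Nat.shiftLeft (nat_lit 0x1) (nat_lit 112)) (.one (nat_lit 0x700800e016000e01001c02c540)) (.one (nat_lit 0x100000800e013200001001c026411)))) (.br (Nat.shiftLeft (nat_lit 0x100000800e015) (nat_lit 64)) (.one (nat_lit 0x100000800e014200001001c028411)) (.br (Nat.shiftLeft (nat_lit 0x80000400700b) (nat_lit 65)) (.one (nat_lit 0x100000800e015200001001c02a411)) (.one (nat_lit 0x100000800e016200001001c02c411))))) (.br (Nat.shiftLeft (nat_lit 0x800002003805) (nat_lit 66)) (.br (Nat.shiftLeft (nat_lit 0x401) (nat_lit 102)) (.one (nat_lit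 0x100300800e013200601001c026650)) (.br (Nat.shiftLeft (nat_lit 0x1) (nat_lit 113)) (.one (nat_lit 0x100400800e013200801001c026650)) (.one (nat_lit 0x200000800e013400001001c026411)))) (.br (Nat.shiftLeft (nat_lit 0x200000800e015) (nat_lit 64)) (.one (nat_lit 0x200000800e014400001001c028411)) (.br (Nat.shiftLeft (nat_lit 0x100000400700b) (nat_lit 65)) (.one (nat_lit 0x200000800e015400001001c02a411)) (.one (nat_lit 0x200000800e016400001001c02c411))))))
def t185 : k185.all (jb2 57 fl b0) = true := by decide +kernel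
noncomputable def k186 : KT := (.br (Nat.shiftLeft (nat_lit 0x300000800e015) (nat_lit 64)) (.br (Nat.shiftLeft (nat_lit 0x3) (nat_lit 112)) (.br (Nat.shiftLeft (nat_lit 0x801) (nat_lit 102)) (.one (nat_lit 0x200300800e013400601001c026650)) (.one (nat_lit 0x200400800e013400801001c026650))) (.br (Nat.shiftLeft (nat_lit 0xc00002003805) (nat_lit 66)) (.one (nat_lit 0x300000800e013600001001c026411)) (.one (nat_lit 0x300000800e014600001001c028411)))) (.br (Nat.shiftLeft (nat_lit 0xc01) (nat_lit 102)) (.br (Nat.shiftLeft (nat_lit 0x180000400700b) (nat_lit 65)) (.one (nat_lit 0x300000800e015600001001c02a411)) (.one (nat_lit 0x300000800e016600001001c02c411))) (.br (Nat.shiftLeft (nat_lit 0x1) (nat_lit 114)) (.one (nat_lit 0x300400800e013600801001c026650)) (.br (Nat.shiftLeft (nat_lit 0x1000002003805) (nat_lit 66)) (.one (nat_lit 0x400000800e013800001001c026411)) (.one (nat_lit 0x400000800e014800001001c028411))))))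
def t186 : k186.all (jb2 57 fl b0) = true := by decide +kernel
noncomputable def k187 : KT := (.br (Nat.shiftLeft (nat_lit 0x900000800e015) (nat_lit 64)) (.br (Nat.shiftLeft (nat_lit 0x7) (nat_lit 112)) (.br (Nat.shiftLeft (nat_lit 0x280000400700b) (nat_lit 65)) (.br (Nat.shiftLeft (nat_lit 0x5) (nat_lit 112)) (.br (Nat.shiftLeft (nat_lit 0x200000400700b) (nat_lit 65)) (.one (nat_lit 0x400000800e015800001001c02a411)) (.one (nat_lit 0x400000800e016800001001c02c411))) (.br (Nat.shiftLeft (nat_lit 0x1400002003805) (nat_lit 66)) (.one (nat_lit 0x500000800e013a00001001c026411)) (.br (Nat.shiftLeft (nat_lit 0x500000800e015) (nat_lit 64)) (.one (nat_lit 0x500000800e014a00001001c028411)) (.one (nat_lit 0x500000800e015a00001001c02a411))))) (.br (Nat.shiftLeft (nat_lit 0x1800002003805) (nat_lit 66)) (.br (Nat.shiftLeft (nat_lit 0x3) (nat_lit 113)) (.one (nat_lit 0x500000800e016a00001001c02c411)) (.one (nat_lit 0x600000800e013c00001001c026411))) (.br (Nat.shiftLeft (nat_lit 0x600000800e015) (nat_lit 64)) (.one (nat_lit 0x600000800e014c00001001c028411))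 (.br (Nat.shiftLeft (nat_lit 0x300000400700b) (nat_lit 65)) (.one (nat_lit 0x600000800e015c00001001c02a411)) (.one (nat_lit 0x600000800e016c00001001c02c411)))))) (.br (Nat.shiftLeft (nat_lit 0x2000002003805) (nat_lit 66)) (.br (Nat.shiftLeft (nat_lit 0x700000800e015) (nat_lit 64)) (.br (Nat.shiftLeft (nat_lit 0x1c00002003805) (nat_lit 66)) (.one (nat_lit 0x700000800e013e00001001c026411)) (.one (nat_lit 0x700000800e014e00001001c028411))) (.br (Nat.shiftLeft (nat_lit 0x380000400700b) (nat_lit 65)) (.one (nat_lit 0x700000800e015e00001001c02a411)) (.br (Nat.shiftLeft (nat_lit 0x1) (nat_lit 115)) (.one (nat_lit 0x700000800e016e00001001c02c411)) (.one (nat_lit 0x800000800e013000001001c128411))))) (.br (Nat.shiftLeft (nat_lit 0x400000400700b) (nat_lit 65)) (.br (Nat.shiftLeft (nat_lit 0x800000800e015) (nat_lit 64)) (.one (nat_lit 0x800000800e014000001001c12a411)) (.one (nat_lit 0x800000800e015000001001c12c411))) (.br (Nat.shiftLeft (nat_lit 0x9) (nat_lit 112)) (.one (nat_lit 0x800000800e016000001001c12e411)) (.br (Nat.shiftLeft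 (nat_lit 0x2400002003805) (nat_lit 66)) (.one (nat_lit 0x900000800e013200001001c128411)) (.one (nat_lit 0x900000800e014200001001c12a411))))))) (.br (Nat.shiftLeft (nat_lit 0x3) (nat_lit 114)) (.br (Nat.shiftLeft (nat_lit 0x500000400700b) (nat_lit 65)) (.br (Nat.shiftLeft (nat_lit 0x5) (nat_lit 113)) (.br (Nat.shiftLeft (nat_lit 0x480000400700b) (nat_lit 65)) (.one (nat_lit 0x900000800e015200001001c12c411)) (.one (nat_lit 0x900000800e016200001001c12e411))) (.br (Nat.shiftLeft (nat_lit 0x2800002003805) (nat_lit 66)) (.one (nat_lit 0xa00000800e013400001001c128411)) (.br (Nat.shiftLeft (nat_lit 0xa00000800e015) (nat_lit 64)) (.one (nat_lit 0xa00000800e014400001001c12a411)) (.one (nat_lit 0xa00000800e015400001001c12c411))))) (.br (Nat.shiftLeft (nat_lit 0x2c00002003805) (nat_lit 66)) (.br (Nat.shiftLeft (nat_lit 0xb) (nat_lit 112)) (.one (nat_lit 0xa00000800e016400001001c12e411)) (.one (nat_lit 0xb00000800e013600001001c128411))) (.br (Nat.shiftLeft (nat_lit 0xb00000800e015) (nat_lit 64)) (.one (nat_lit 0xb00000800e014600001001c12a411))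 (.br (Nat.shiftLeft (nat_lit 0x580000400700b) (nat_lit 65)) (.one (nat_lit 0xb00000800e015600001001c12c411)) (.one (nat_lit 0xb00000800e016600001001c12e411)))))) (.br (Nat.shiftLeft (nat_lit 0x3400002003805) (nat_lit 66)) (.br (Nat.shiftLeft (nat_lit 0xc00000800e015) (nat_lit 64)) (.br (Nat.shiftLeft (nat_lit 0x3000002003805) (nat_lit 66)) (.one (nat_lit 0xc00000800e013800001001c128411)) (.one (nat_lit 0xc00000800e014800001001c12a411))) (.br (Nat.shiftLeft (nat_lit 0x600000400700b) (nat_lit 65)) (.one (nat_lit 0xc00000800e015800001001c12c411)) (.br (Nat.shiftLeft (nat_lit 0xd) (nat_lit 112)) (.one (nat_lit 0xc00000800e016800001001c12e411)) (.one (nat_lit 0xd00000800e013a00001001c128411))))) (.br (Nat.shiftLeft (nat_lit 0x680000400700b) (nat_lit 65)) (.br (Nat.shiftLeft (nat_lit 0xd00000800e015) (nat_lit 64)) (.one (nat_lit 0xd00000800e014a00001001c12a411)) (.one (nat_lit 0xd00000800e015a00001001c12c411))) (.br (Nat.shiftLeft (nat_lit 0x7) (nat_lit 113)) (.one (nat_lit 0xd00000800e016a00001001c12e411)) (.br (Nat.shiftLeft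 (nat_lit 0x3800002003805) (nat_lit 66)) (.one (nat_lit 0xe00000800e013c00001001c128411)) (.one (nat_lit 0xe00000800e014c00001001c12a411))))))))
def t187 : k187.all (jb2 57 fl b0) = true := by decide +kernel
noncomputable def k188 : KT := (.br (Nat.shiftLeft (nat_lit 0x7) (nat_lit 124)) (.br (Nat.shiftLeft (nat_lit 0xc00001) (nat_lit 102)) (.br (Nat.shiftLeft (nat_lit 0x1) (nat_lit 125)) (.br (Nat.shiftLeft (nat_lit 0x1) (nat_lit 124)) (.one (nat_lit 0xe00000800e015c00001001c12c411)) (.br (Nat.shiftLeft (nat_lit 0x400001) (nat_lit 102)) (.one (nat_lit 0x100000300800e013000601003c426511)) (.one (nat_lit 0x100000400800e013000801003c426511)))) (.br (Nat.shiftLeft (nat_lit 0x800001) (nat_lit 102)) (.one (nat_lit 0x200000300800e013000601005c826511)) (.br (Nat.shiftLeft (nat_lit 0x3) (nat_lit 124)) (.one (nat_lit 0x200000400800e013000801005c826511)) (.one (nat_lit 0x300000300800e013000601007cc26511))))) (.br (Nat.shiftLeft (nat_lit 0x5) (nat_lit 124)) (.br (Nat.shiftLeft (nat_lit 0x1) (nat_lit 126)) (.one (nat_lit 0x300000400800e013000801007cc26511))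 (.br (Nat.shiftLeft (nat_lit 0x1000001) (nat_lit 102)) (.one (nat_lit 0x400000300800e013000601009d026511)) (.one (nat_lit 0x400000400800e013000801009d026511)))) (.br (Nat.shiftLeft (nat_lit 0x3) (nat_lit 125)) (.br (Nat.shiftLeft (nat_lit 0x1400001) (nat_lit 102)) (.one (nat_lit 0x500000300800e01300060100bd426511)) (.one (nat_lit 0x500000400800e01300080100bd426511))) (.br (Nat.shiftLeft (nat_lit 0x1800001) (nat_lit 102)) (.one (nat_lit 0x600000300800e01300060100dd826511)) (.one (nat_lit 0x600000400800e01300080100dd826511)))))) (.br (Nat.shiftLeft (nat_lit 0x5) (nat_lit 125)) (.br (Nat.shiftLeft (nat_lit 0x2000001) (nat_lit 102)) (.br (Nat.shiftLeft (nat_lit 0x1c00001) (nat_lit 102)) (.one (nat_lit 0x700000300800e01300060100fdc26511)) (.br (Nat.shiftLeft (nat_lit 0x1) (nat_lit 127)) (.one (nat_lit 0x700000400800e01300080100fdc26511)) (.one (nat_lit 0x800000300800e013000601011e026511)))) (.br (Nat.shiftLeft (nat_lit 0x9) (nat_lit 124)) (.one (nat_lit 0x800000400800e013000801011e026511)) (.br (Nat.shiftLeft (nat_lit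 0x2400001) (nat_lit 102)) (.one (nat_lit 0x900000300800e013000601013e426511)) (.one (nat_lit 0x900000400800e013000801013e426511))))) (.br (Nat.shiftLeft (nat_lit 0x2c00001) (nat_lit 102)) (.br (Nat.shiftLeft (nat_lit 0x2800001) (nat_lit 102)) (.one (nat_lit 0xa00000300800e013000601015e826511)) (.br (Nat.shiftLeft (nat_lit 0xb) (nat_lit 124)) (.one (nat_lit 0xa00000400800e013000801015e826511)) (.one (nat_lit 0xb00000300800e013000601017ec26511)))) (.br (Nat.shiftLeft (nat_lit 0x3000001) (nat_lit 102)) (.br (Nat.shiftLeft (nat_lit 0x3) (nat_lit 126)) (.one (nat_lit 0xb00000400800e013000801017ec26511)) (.one (nat_lit 0xc00000300800e013000601019f026511))) (.br (Nat.shiftLeft (nat_lit 0xd) (nat_lit 124)) (.one (nat_lit 0xc00000400800e013000801019f026511)) (.one (nat_lit 0xd00000300800e01300060101bf426511)))))))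
def t188 : k188.all (jb2 57 fl b0) = true := by decide +kernel
noncomputable def s8 : KT := (.br (nat_lit 0x400800e016000801001c02c540) (.br (nat_lit 0x200800e014000401001c028540) (.br (nat_lit 0x100800e016000201001c02c540) (.br (nat_lit 0x100800e014000201001c028540) k170 k171) (.br (nat_lit 0x200800e013000401001c026540) k172 k173)) (.br (nat_lit 0x300800e014000601001c028540) (.br (nat_lit 0x300800e013000601001c027500) k174 k175) (.br (nat_lit 0x400800e013000801001c027500) k176 (.br (nat_lit 0x400800e014000801001c028540) k177 k178)))) (.br (nat_lit 0x600800e016000c01001c02c540) (.br (nat_lit 0x500800e014000a01001c028540) (.br (nat_lit 0x500800e013000a01001c026540) k179 k180) (.br (nat_lit 0x500800e016000a01001c02c540) k181 (.br (nat_lit 0x600800e013000c01001c026540) k182 k183))) (.br (nat_lit 0x200000800e016400001001c02c411) (.br (nat_lit 0x700800e014000e01001c028540) k184 k185) (.br (nat_lit 0x400000800e014800001001c028411) k186 (.br (nat_lit 0xe00000800e014c00001001c12a411) k187 k188)))))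
noncomputable def u8 : KT := (.br (Nat.shiftLeft (nat_lit 0x800e015) (nat_lit 64)) (.br (Nat.shiftLeft (nat_lit 0x2003805) (nat_lit 66)) (.one (nat_lit 0x800e013000001001c026430)) (.one (nat_lit 0x800e014000001001c028430))) (.br (Nat.shiftLeft (nat_lit 0x400700b) (nat_lit 65)) (.one (nat_lit 0x800e015000001001c02a430)) (.one (nat_lit 0x800e016000001001c02c430))))
def w8 : u8.all (wj 57 s8) = true := by decide +kernel
def o8 : OkW 57 (jb2 57 fl) u8 := .lift s8 _ (.br _ _ _ (.br _ _ _ (.br _ _ _ (.br _ _ _ (.leaf b0 k170 t170) (.leaf b0 k171 t171)) (.br _ _ _ (.leaf b0 k172 t172) (.leaf b0 k173 t173))) (.br _ _ _ (.br _ _ _ (.leaf b0 k174 t174) (.leaf b0 k175 t175)) (.br _ _ _ (.leaf b0 k176 t176) (.br _ _ _ (.leaf b0 k177 t177) (.leaf b0 k178 t178))))) (.br _ _ _ (.br _ _ _ (.br _ _ _ (.leaf b0 k179 t179) (.leaf b0 k180 t180)) (.br _ _ _ (.leaf b0 k181 t181) (.br _ _ _ (.leaf b0 k182 t182) (.leaf b0 k183 t183)))) (.br _ _ _ (.br _ _ _ (.leaf b0 k184 t184) (.leaf b0 k185 t185)) (.br _ _ _ (.leaf b0 k186 t186) (.br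 _ _ _ (.leaf b0 k187 t187) (.leaf b0 k188 t188)))))) w8
noncomputable def k189 : KT := (.br (Nat.shiftLeft (nat_lit 0x800f011) (nat_lit 64)) (.one (nat_lit 0x800f010000001001e021400)) (.br (Nat.shiftLeft (nat_lit 0x1) (nat_lit 100)) (.one (nat_lit 0x800f011000001001e023400)) (.one (nat_lit 0x100800f010000201001e020540))))
def t189 : k189.all (jb2 57 fl b0) = true := by decide +kernel
noncomputable def k190 : KT := (.br (Nat.shiftLeft (nat_lit 0x400800f011) (nat_lit 64)) (.br (Nat.shiftLeft (nat_lit 0x3) (nat_lit 100)) (.br (Nat.shiftLeft (nat_lit 0x1) (nat_lit 101)) (.one (nat_lit 0x100800f011000201001e022540)) (.br (Nat.shiftLeft (nat_lit 0x200800f011) (nat_lit 64)) (.one (nat_lit 0x200800f010000401001e021500)) (.one (nat_lit 0x200800f011000401001e023500)))) (.br (Nat.shiftLeft (nat_lit 0x300800f011) (nat_lit 64)) (.one (nat_lit 0x300800f010000601001e021500)) (.br (Nat.shiftLeft (nat_lit 0x1) (nat_lit 102)) (.one (nat_lit 0x300800f011000601001e023500)) (.one (nat_lit 0x400800f010000801001e021500))))) (.br (Nat.shiftLeft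 (nat_lit 0x3) (nat_lit 101)) (.br (Nat.shiftLeft (nat_lit 0x5) (nat_lit 100)) (.one (nat_lit 0x400800f011000801001e023500)) (.br (Nat.shiftLeft (nat_lit 0x500800f011) (nat_lit 64)) (.one (nat_lit 0x500800f010000a01001e021500)) (.one (nat_lit 0x500800f011000a01001e023500)))) (.br (Nat.shiftLeft (nat_lit 0x600800f011) (nat_lit 64)) (.one (nat_lit 0x600800f010000c01001e021500)) (.br (Nat.shiftLeft (nat_lit 0x7) (nat_lit 100)) (.one (nat_lit 0x600800f011000c01001e023500)) (.one (nat_lit 0x700800f010000e01001e021500))))))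
def t190 : k190.all (jb2 57 fl b0) = true := by decide +kernel
noncomputable def k191 : KT := (.br (Nat.shiftLeft (nat_lit 0x1) (nat_lit 112)) (.one (nat_lit 0x700800f011000e01001e022540)) (.br (Nat.shiftLeft (nat_lit 0x100000800f011) (nat_lit 64)) (.one (nat_lit 0x100000800f010200001001e020411)) (.one (nat_lit 0x100000800f011200001001e022411))))
def t191 : k191.all (jb2 57 fl b0) = true := by decide +kernel
noncomputable def k192 : KT := (.one (nat_lit 0x100200800f010200401001e020650))
def t192 : k192.all (jb2 57 fl b0) = true := by decide +kernel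
noncomputable def k193 : KT := (.one (nat_lit 0x100200800f011200401001e022650))
def t193 : k193.all (jb2 57 fl b0) = true := by decide +kernel
noncomputable def k194 : KT := (.one (nat_lit 0x100300800f010200601001e020650))
def t194 : k194.all (jb2 57 fl b0) = true := by decide +kernel
noncomputable def k195 : KT := (.br (Nat.shiftLeft (nat_lit 0x401) (nat_lit 102)) (.one (nat_lit 0x100300800f011200601001e022650)) (.one (nat_lit 0x100400800f010200801001e020650)))
def t195 : k195.all (jb2 57 fl b0) = true := by decide +kernel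
noncomputable def k196 : KT := (.br (Nat.shiftLeft (nat_lit 0x1005) (nat_lit 100)) (.one (nat_lit 0x100400800f011200801001e022650)) (.br (Nat.shiftLeft (nat_lit 0x100500800f011) (nat_lit 64)) (.one (nat_lit 0x100500800f010200a01001e020650)) (.one (nat_lit 0x100500800f011200a01001e022650))))
def t196 : k196.all (jb2 57 fl b0) = true := by decide +kernel
noncomputable def k197 : KT := (.br (Nat.shiftLeft (nat_lit 0x1007) (nat_lit 100)) (.br (Nat.shiftLeft (nat_lit 0x100600800f011) (nat_lit 64)) (.one (nat_lit 0x100600800f010200c01001e020650)) (.one (nat_lit 0x100600800f011200c01001e022650))) (.br (Nat.shiftLeft (nat_lit 0x1) (nat_lit 113)) (.one (nat_lit 0x100700800f010200e01001e020650)) (.br (Nat.shiftLeft (nat_lit 0x200000800f011) (nat_lit 64)) (.one (nat_lit 0x200000800f010400001001e020411)) (.one (nat_lit 0x200000800f011400001001e022411)))))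
def t197 : k197.all (jb2 57 fl b0) = true := by decide +kernel
noncomputable def k198 : KT := (.one (nat_lit 0x200300800f010400601001e020650))
def t198 : k198.all (jb2 57 fl b0) = true := by decide +kernel
noncomputable def k199 : KT := (.one (nat_lit 0x200300800f011400601001e022650))
def t199 : k199.all (jb2 57 fl b0) = true := by decide +kernel
noncomputable def k200 : KT := (.br (Nat.shiftLeft (nat_lit 0x200400800f011) (nat_lit 64)) (.one (nat_lit 0x200400800f010400801001e020650)) (.one (nat_lit 0x200400800f011400801001e022650)))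
def t200 : k200.all (jb2 57 fl b0) = true := by decide +kernel
noncomputable def k201 : KT := (.br (Nat.shiftLeft (nat_lit 0x200500800f011) (nat_lit 64)) (.one (nat_lit 0x200500800f010400a01001e020650)) (.br (Nat.shiftLeft (nat_lit 0x1003) (nat_lit 101)) (.one (nat_lit 0x200500800f011400a01001e022650)) (.one (nat_lit 0x200600800f010400c01001e020650))))
def t201 : k201.all (jb2 57 fl b0) = true := by decide +kernel
noncomputable def k202 : KT := (.br (Nat.shiftLeft (nat_lit 0x3) (nat_lit 112)) (.br (Nat.shiftLeft (nat_lit 0x2007) (nat_lit 100)) (.one (nat_lit 0x200600800f011400c01001e022650)) (.one (nat_lit 0x200700800f010400e01001e020650))) (.br (Nat.shiftLeft (nat_lit 0x300000800f011) (nat_lit 64)) (.one (nat_lit 0x300000800f010600001001e020411)) (.br (Nat.shiftLeft (nat_lit 0xc01) (nat_lit 102)) (.one (nat_lit 0x300000800f011600001001e022411)) (.one (nat_lit 0x300400800f010600801001e020650)))))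
def t202 : k202.all (jb2 57 fl b0) = true := by decide +kernel
noncomputable def k203 : KT := (.br (Nat.shiftLeft (nat_lit 0x3005) (nat_lit 100)) (.one (nat_lit 0x300400800f011600801001e022650)) (.one (nat_lit 0x300500800f010600a01001e020650)))
def t203 : k203.all (jb2 57 fl b0) = true := by decide +kernel
noncomputable def k204 : KT := (.br (Nat.shiftLeft (nat_lit 0x3007) (nat_lit 100)) (.br (Nat.shiftLeft (nat_lit 0x1803) (nat_lit 101)) (.one (nat_lit 0x300500800f011600a01001e022650)) (.br (Nat.shiftLeft (nat_lit 0x300600800f011) (nat_lit 64)) (.one (nat_lit 0x300600800f010600c01001e020650)) (.one (nat_lit 0x300600800f011600c01001e022650)))) (.br (Nat.shiftLeft (nat_lit 0x1) (nat_lit 114)) (.one (nat_lit 0x300700800f010600e01001e020650)) (.br (Nat.shiftLeft (nat_lit 0x400000800f011) (nat_lit 64)) (.one (nat_lit 0x400000800f010800001001e020411)) (.one (nat_lit 0x400000800f011800001001e022411)))))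
def t204 : k204.all (jb2 57 fl b0) = true := by decide +kernel
noncomputable def k205 : KT := (.br (Nat.shiftLeft (nat_lit 0x400500800f011) (nat_lit 64)) (.one (nat_lit 0x400500800f010800a01001e020650)) (.br (Nat.shiftLeft (nat_lit 0x2003) (nat_lit 101)) (.one (nat_lit 0x400500800f011800a01001e022650)) (.one (nat_lit 0x400600800f010800c01001e020650))))
def t205 : k205.all (jb2 57 fl b0) = true := by decide +kernel
noncomputable def k206 : KT := (.br (Nat.shiftLeft (nat_lit 0x500600800f011) (nat_lit 64)) (.br (Nat.shiftLeft (nat_lit 0x5) (nat_lit 112)) (.br (Nat.shiftLeft (nat_lit 0x4007) (nat_lit 100)) (.one (nat_lit 0x400600800f011800c01001e022650)) (.one (nat_lit 0x400700800f010800e01001e020650))) (.br (Nat.shiftLeft (nat_lit 0x500000800f011) (nat_lit 64)) (.one (nat_lit 0x500000800f010a00001001e020411)) (.br (Nat.shiftLeft (nat_lit 0x1401) (nat_lit 102)) (.one (nat_lit 0x500000800f011a00001001e022411)) (.one (nat_lit 0x500600800f010a00c01001e020650))))) (.br (Nat.shiftLeft (nat_lit 0x3) (nat_lit 113)) (.br (Nat.shiftLeft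 (nat_lit 0x5007) (nat_lit 100)) (.one (nat_lit 0x500600800f011a00c01001e022650)) (.one (nat_lit 0x500700800f010a00e01001e020650))) (.br (Nat.shiftLeft (nat_lit 0x600000800f011) (nat_lit 64)) (.one (nat_lit 0x600000800f010c00001001e020411)) (.br (Nat.shiftLeft (nat_lit 0x1801) (nat_lit 102)) (.one (nat_lit 0x600000800f011c00001001e022411)) (.one (nat_lit 0x600700800f010c00e01001e020650))))))
def t206 : k206.all (jb2 57 fl b0) = true := by decide +kernel
noncomputable def k207 : KT := (.br (Nat.shiftLeft (nat_lit 0x1000003) (nat_lit 100)) (.br (Nat.shiftLeft (nat_lit 0x3) (nat_lit 114)) (.br (Nat.shiftLeft (nat_lit 0x900000800f011) (nat_lit 64)) (.br (Nat.shiftLeft (nat_lit 0x1) (nat_lit 115)) (.br (Nat.shiftLeft (nat_lit 0x700000800f011) (nat_lit 64)) (.one (nat_lit 0x700000800f010e00001001e020411)) (.one (nat_lit 0x700000800f011e00001001e022411))) (.br (Nat.shiftLeft (nat_lit 0x800000800f011) (nat_lit 64)) (.one (nat_lit 0x800000800f010000001001e122411)) (.br (Nat.shiftLeft (nat_lit 0x9) (nat_lit 112)) (.one (nat_lit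 0x800000800f011000001001e124411)) (.one (nat_lit 0x900000800f010200001001e122411))))) (.br (Nat.shiftLeft (nat_lit 0xa00000800f011) (nat_lit 64)) (.br (Nat.shiftLeft (nat_lit 0x5) (nat_lit 113)) (.one (nat_lit 0x900000800f011200001001e124411)) (.one (nat_lit 0xa00000800f010400001001e122411))) (.br (Nat.shiftLeft (nat_lit 0xb) (nat_lit 112)) (.one (nat_lit 0xa00000800f011400001001e124411)) (.br (Nat.shiftLeft (nat_lit 0xb00000800f011) (nat_lit 64)) (.one (nat_lit 0xb00000800f010600001001e122411)) (.one (nat_lit 0xb00000800f011600001001e124411)))))) (.br (Nat.shiftLeft (nat_lit 0xe00000800f011) (nat_lit 64)) (.br (Nat.shiftLeft (nat_lit 0xd) (nat_lit 112)) (.br (Nat.shiftLeft (nat_lit 0xc00000800f011) (nat_lit 64)) (.one (nat_lit 0xc00000800f010800001001e122411)) (.one (nat_lit 0xc00000800f011800001001e124411))) (.br (Nat.shiftLeft (nat_lit 0xd00000800f011) (nat_lit 64)) (.one (nat_lit 0xd00000800f010a00001001e122411)) (.br (Nat.shiftLeft (nat_lit 0x7) (nat_lit 113)) (.one (nat_lit 0xd00000800f011a00001001e124411))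 (.one (nat_lit 0xe00000800f010c00001001e122411))))) (.br (Nat.shiftLeft (nat_lit 0xf00000800f011) (nat_lit 64)) (.br (Nat.shiftLeft (nat_lit 0xf) (nat_lit 112)) (.one (nat_lit 0xe00000800f011c00001001e124411)) (.one (nat_lit 0xf00000800f010e00001001e122411))) (.br (Nat.shiftLeft (nat_lit 0x1) (nat_lit 124)) (.one (nat_lit 0xf00000800f011e00001001e124411)) (.br (Nat.shiftLeft (nat_lit 0x100000200800f011) (nat_lit 64)) (.one (nat_lit 0x100000200800f010000401003e420511)) (.one (nat_lit 0x100000200800f011000401003e422511))))))) (.br (Nat.shiftLeft (nat_lit 0x200000200800f011) (nat_lit 64)) (.br (Nat.shiftLeft (nat_lit 0x100000500800f011) (nat_lit 64)) (.br (Nat.shiftLeft (nat_lit 0x400001) (nat_lit 102)) (.br (Nat.shiftLeft (nat_lit 0x100000300800f011) (nat_lit 64)) (.one (nat_lit 0x100000300800f010000601003e420511)) (.one (nat_lit 0x100000300800f011000601003e422511))) (.br (Nat.shiftLeft (nat_lit 0x100000400800f011) (nat_lit 64)) (.one (nat_lit 0x100000400800f010000801003e420511)) (.br (Nat.shiftLeft (nat_lit 0x1000005)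 (nat_lit 100)) (.one (nat_lit 0x100000400800f011000801003e422511)) (.one (nat_lit 0x100000500800f010000a01003e420511))))) (.br (Nat.shiftLeft (nat_lit 0x100000600800f011) (nat_lit 64)) (.br (Nat.shiftLeft (nat_lit 0x800003) (nat_lit 101)) (.one (nat_lit 0x100000500800f011000a01003e422511)) (.one (nat_lit 0x100000600800f010000c01003e420511))) (.br (Nat.shiftLeft (nat_lit 0x1000007) (nat_lit 100)) (.one (nat_lit 0x100000600800f011000c01003e422511)) (.br (Nat.shiftLeft (nat_lit 0x1) (nat_lit 125)) (.one (nat_lit 0x100000700800f010000e01003e420511)) (.one (nat_lit 0x200000200800f010000401005e820511)))))) (.br (Nat.shiftLeft (nat_lit 0x2000005) (nat_lit 100)) (.br (Nat.shiftLeft (nat_lit 0x200000300800f011) (nat_lit 64)) (.br (Nat.shiftLeft (nat_lit 0x2000003) (nat_lit 100)) (.one (nat_lit 0x200000200800f011000401005e822511)) (.one (nat_lit 0x200000300800f010000601005e820511))) (.br (Nat.shiftLeft (nat_lit 0x800001) (nat_lit 102)) (.one (nat_lit 0x200000300800f011000601005e822511)) (.br (Nat.shiftLeft (nat_lit 0x200000400800f011)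 (nat_lit 64)) (.one (nat_lit 0x200000400800f010000801005e820511)) (.one (nat_lit 0x200000400800f011000801005e822511))))) (.br (Nat.shiftLeft (nat_lit 0x1000003) (nat_lit 101)) (.br (Nat.shiftLeft (nat_lit 0x200000500800f011) (nat_lit 64)) (.one (nat_lit 0x200000500800f010000a01005e820511)) (.one (nat_lit 0x200000500800f011000a01005e822511))) (.br (Nat.shiftLeft (nat_lit 0x200000600800f011) (nat_lit 64)) (.one (nat_lit 0x200000600800f010000c01005e820511)) (.br (Nat.shiftLeft (nat_lit 0x2000007) (nat_lit 100)) (.one (nat_lit 0x200000600800f011000c01005e822511)) (.one (nat_lit 0x200000700800f010000e01005e820511))))))))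
def t207 : k207.all (jb2 57 fl b0) = true := by decide +kernel
noncomputable def k208 : KT := (.br (Nat.shiftLeft (nat_lit 0x1) (nat_lit 126)) (.br (Nat.shiftLeft (nat_lit 0x300000400800f011) (nat_lit 64)) (.br (Nat.shiftLeft (nat_lit 0x3000003) (nat_lit 100)) (.br (Nat.shiftLeft (nat_lit 0x300000200800f011) (nat_lit 64)) (.one (nat_lit 0x300000200800f010000401007ec20511)) (.one (nat_lit 0x300000200800f011000401007ec22511))) (.br (Nat.shiftLeft (nat_lit 0x300000300800f011) (nat_lit 64)) (.one (nat_lit 0x300000300800f010000601007ec20511)) (.br (Nat.shiftLeft (nat_lit 0xc00001) (nat_lit 102)) (.one (nat_lit 0x300000300800f011000601007ec22511)) (.one (nat_lit 0x300000400800f010000801007ec20511))))) (.br (Nat.shiftLeft (nat_lit 0x1800003) (nat_lit 101)) (.br (Nat.shiftLeft (nat_lit 0x3000005) (nat_lit 100)) (.one (nat_lit 0x300000400800f011000801007ec22511)) (.br (Nat.shiftLeft (nat_lit 0x300000500800f011) (nat_lit 64)) (.one (nat_lit 0x300000500800f010000a01007ec20511)) (.one (nat_lit 0x300000500800f011000a01007ec22511))))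 (.br (Nat.shiftLeft (nat_lit 0x300000600800f011) (nat_lit 64)) (.one (nat_lit 0x300000600800f010000c01007ec20511)) (.br (Nat.shiftLeft (nat_lit 0x3000007) (nat_lit 100)) (.one (nat_lit 0x300000600800f011000c01007ec22511)) (.one (nat_lit 0x300000700800f010000e01007ec20511)))))) (.br (Nat.shiftLeft (nat_lit 0x4000005) (nat_lit 100)) (.br (Nat.shiftLeft (nat_lit 0x400000300800f011) (nat_lit 64)) (.br (Nat.shiftLeft (nat_lit 0x400000200800f011) (nat_lit 64)) (.one (nat_lit 0x400000200800f010000401009f020511)) (.br (Nat.shiftLeft (nat_lit 0x4000003) (nat_lit 100)) (.one (nat_lit 0x400000200800f011000401009f022511)) (.one (nat_lit 0x400000300800f010000601009f020511)))) (.br (Nat.shiftLeft (nat_lit 0x1000001) (nat_lit 102)) (.one (nat_lit 0x400000300800f011000601009f022511)) (.br (Nat.shiftLeft (nat_lit 0x400000400800f011) (nat_lit 64)) (.one (nat_lit 0x400000400800f010000801009f020511)) (.one (nat_lit 0x400000400800f011000801009f022511))))) (.br (Nat.shiftLeft (nat_lit 0x400000600800f011) (nat_lit 64)) (.br (Nat.shiftLeft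 (nat_lit 0x400000500800f011) (nat_lit 64)) (.one (nat_lit 0x400000500800f010000a01009f020511)) (.br (Nat.shiftLeft (nat_lit 0x2000003) (nat_lit 101)) (.one (nat_lit 0x400000500800f011000a01009f022511)) (.one (nat_lit 0x400000600800f010000c01009f020511)))) (.br (Nat.shiftLeft (nat_lit 0x4000007) (nat_lit 100)) (.one (nat_lit 0x400000600800f011000c01009f022511)) (.br (Nat.shiftLeft (nat_lit 0x5) (nat_lit 124)) (.one (nat_lit 0x400000700800f010000e01009f020511)) (.one (nat_lit 0x500000200800f01000040100bf420511)))))))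
def t208 : k208.all (jb2 57 fl b0) = true := by decide +kernel
noncomputable def k209 : KT := (.br (Nat.shiftLeft (nat_lit 0x5000005) (nat_lit 100)) (.br (Nat.shiftLeft (nat_lit 0x500000300800f011) (nat_lit 64)) (.br (Nat.shiftLeft (nat_lit 0x5000003) (nat_lit 100)) (.one (nat_lit 0x500000200800f01100040100bf422511)) (.one (nat_lit 0x500000300800f01000060100bf420511))) (.br (Nat.shiftLeft (nat_lit 0x1400001) (nat_lit 102)) (.one (nat_lit 0x500000300800f01100060100bf422511)) (.br (Nat.shiftLeft (nat_lit 0x500000400800f011) (nat_lit 64)) (.one (nat_lit 0x500000400800f01000080100bf420511)) (.one (nat_lit 0x500000400800f01100080100bf422511))))) (.br (Nat.shiftLeft (nat_lit 0x500000600800f011) (nat_lit 64)) (.br (Nat.shiftLeft (nat_lit 0x500000500800f011) (nat_lit 64)) (.one (nat_lit 0x500000500800f010000a0100bf420511)) (.br (Nat.shiftLeft (nat_lit 0x2800003) (nat_lit 101)) (.one (nat_lit 0x500000500800f011000a0100bf422511)) (.one (nat_lit 0x500000600800f010000c0100bf420511)))) (.br (Nat.shiftLeft (nat_lit 0x5000007)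 (nat_lit 100)) (.one (nat_lit 0x500000600800f011000c0100bf422511)) (.br (Nat.shiftLeft (nat_lit 0x3) (nat_lit 125)) (.one (nat_lit 0x500000700800f010000e0100bf420511)) (.one (nat_lit 0x600000200800f01000040100df820511))))))
def t209 : k209.all (jb2 57 fl b0) = true := by decide +kernel
noncomputable def k210 : KT := (.br (Nat.shiftLeft (nat_lit 0x6000005) (nat_lit 100)) (.br (Nat.shiftLeft (nat_lit 0x600000300800f011) (nat_lit 64)) (.br (Nat.shiftLeft (nat_lit 0x6000003) (nat_lit 100)) (.one (nat_lit 0x600000200800f01100040100df822511)) (.one (nat_lit 0x600000300800f01000060100df820511))) (.br (Nat.shiftLeft (nat_lit 0x1800001) (nat_lit 102)) (.one (nat_lit 0x600000300800f01100060100df822511)) (.br (Nat.shiftLeft (nat_lit 0x600000400800f011) (nat_lit 64)) (.one (nat_lit 0x600000400800f01000080100df820511)) (.one (nat_lit 0x600000400800f01100080100df822511))))) (.br (Nat.shiftLeft (nat_lit 0x600000600800f011) (nat_lit 64)) (.br (Nat.shiftLeft (nat_lit 0x600000500800f011) (nat_lit 64)) (.one (nat_lit 0x600000500800f010000a0100df820511))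 (.br (Nat.shiftLeft (nat_lit 0x3000003) (nat_lit 101)) (.one (nat_lit 0x600000500800f011000a0100df822511)) (.one (nat_lit 0x600000600800f010000c0100df820511)))) (.br (Nat.shiftLeft (nat_lit 0x6000007) (nat_lit 100)) (.one (nat_lit 0x600000600800f011000c0100df822511)) (.br (Nat.shiftLeft (nat_lit 0x7) (nat_lit 124)) (.one (nat_lit 0x600000700800f010000e0100df820511)) (.one (nat_lit 0x700000200800f01000040100ffc20511))))))
def t210 : k210.all (jb2 57 fl b0) = true := by decide +kernel
noncomputable def k211 : KT := (.br (Nat.shiftLeft (nat_lit 0x3800003) (nat_lit 101)) (.br (Nat.shiftLeft (nat_lit 0x1c00001) (nat_lit 102)) (.br (Nat.shiftLeft (nat_lit 0x7000003) (nat_lit 100)) (.one (nat_lit 0x700000200800f01100040100ffc22511)) (.br (Nat.shiftLeft (nat_lit 0x700000300800f011) (nat_lit 64)) (.one (nat_lit 0x700000300800f01000060100ffc20511)) (.one (nat_lit 0x700000300800f01100060100ffc22511)))) (.br (Nat.shiftLeft (nat_lit 0x7000005) (nat_lit 100)) (.br (Nat.shiftLeft (nat_lit 0x700000400800f011) (nat_lit 64)) (.one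 (nat_lit 0x700000400800f01000080100ffc20511)) (.one (nat_lit 0x700000400800f01100080100ffc22511))) (.br (Nat.shiftLeft (nat_lit 0x700000500800f011) (nat_lit 64)) (.one (nat_lit 0x700000500800f010000a0100ffc20511)) (.one (nat_lit 0x700000500800f011000a0100ffc22511))))) (.br (Nat.shiftLeft (nat_lit 0x1) (nat_lit 127)) (.br (Nat.shiftLeft (nat_lit 0x700000600800f011) (nat_lit 64)) (.one (nat_lit 0x700000600800f010000c0100ffc20511)) (.br (Nat.shiftLeft (nat_lit 0x7000007) (nat_lit 100)) (.one (nat_lit 0x700000600800f011000c0100ffc22511)) (.one (nat_lit 0x700000700800f010000e0100ffc20511)))) (.br (Nat.shiftLeft (nat_lit 0x8000003) (nat_lit 100)) (.br (Nat.shiftLeft (nat_lit 0x800000200800f011) (nat_lit 64)) (.one (nat_lit 0x800000200800f0100004010120020511)) (.one (nat_lit 0x800000200800f0110004010120022511))) (.br (Nat.shiftLeft (nat_lit 0x800000300800f011) (nat_lit 64)) (.one (nat_lit 0x800000300800f0100006010120020511)) (.one (nat_lit 0x800000300800f0110006010120022511))))))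
def t211 : k211.all (jb2 57 fl b0) = true := by decide +kernel
noncomputable def k212 : KT := (.br (Nat.shiftLeft (nat_lit 0xa000003) (nat_lit 100)) (.br (Nat.shiftLeft (nat_lit 0x900000300800f011) (nat_lit 64)) (.br (Nat.shiftLeft (nat_lit 0x800000600800f011) (nat_lit 64)) (.br (Nat.shiftLeft (nat_lit 0x8000005) (nat_lit 100)) (.br (Nat.shiftLeft (nat_lit 0x800000400800f011) (nat_lit 64)) (.one (nat_lit 0x800000400800f0100008010120020511)) (.one (nat_lit 0x800000400800f0110008010120022511))) (.br (Nat.shiftLeft (nat_lit 0x800000500800f011) (nat_lit 64)) (.one (nat_lit 0x800000500800f010000a010120020511)) (.br (Nat.shiftLeft (nat_lit 0x4000003) (nat_lit 101)) (.one (nat_lit 0x800000500800f011000a010120022511)) (.one (nat_lit 0x800000600800f010000c010120020511))))) (.br (Nat.shiftLeft (nat_lit 0x9) (nat_lit 124)) (.br (Nat.shiftLeft (nat_lit 0x8000007) (nat_lit 100)) (.one (nat_lit 0x800000600800f011000c010120022511)) (.one (nat_lit 0x800000700800f010000e010120020511))) (.br (Nat.shiftLeft (nat_lit 0x900000200800f011)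 (nat_lit 64)) (.one (nat_lit 0x900000200800f0100004010140420511)) (.br (Nat.shiftLeft (nat_lit 0x9000003) (nat_lit 100)) (.one (nat_lit 0x900000200800f0110004010140422511)) (.one (nat_lit 0x900000300800f0100006010140420511)))))) (.br (Nat.shiftLeft (nat_lit 0x4800003) (nat_lit 101)) (.br (Nat.shiftLeft (nat_lit 0x900000400800f011) (nat_lit 64)) (.br (Nat.shiftLeft (nat_lit 0x2400001) (nat_lit 102)) (.one (nat_lit 0x900000300800f0110006010140422511)) (.one (nat_lit 0x900000400800f0100008010140420511))) (.br (Nat.shiftLeft (nat_lit 0x9000005) (nat_lit 100)) (.one (nat_lit 0x900000400800f0110008010140422511)) (.br (Nat.shiftLeft (nat_lit 0x900000500800f011) (nat_lit 64)) (.one (nat_lit 0x900000500800f010000a010140420511)) (.one (nat_lit 0x900000500800f011000a010140422511))))) (.br (Nat.shiftLeft (nat_lit 0x9000007) (nat_lit 100)) (.br (Nat.shiftLeft (nat_lit 0x900000600800f011) (nat_lit 64)) (.one (nat_lit 0x900000600800f010000c010140420511)) (.one (nat_lit 0x900000600800f011000c010140422511))) (.br (Nat.shiftLeft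 (nat_lit 0x5) (nat_lit 125)) (.one (nat_lit 0x900000700800f010000e010140420511)) (.br (Nat.shiftLeft (nat_lit 0xa00000200800f011) (nat_lit 64)) (.one (nat_lit 0xa00000200800f0100004010160820511)) (.one (nat_lit 0xa00000200800f0110004010160822511))))))) (.br (Nat.shiftLeft (nat_lit 0xb00000200800f011) (nat_lit 64)) (.br (Nat.shiftLeft (nat_lit 0xa00000500800f011) (nat_lit 64)) (.br (Nat.shiftLeft (nat_lit 0x2800001) (nat_lit 102)) (.br (Nat.shiftLeft (nat_lit 0xa00000300800f011) (nat_lit 64)) (.one (nat_lit 0xa00000300800f0100006010160820511)) (.one (nat_lit 0xa00000300800f0110006010160822511))) (.br (Nat.shiftLeft (nat_lit 0xa00000400800f011) (nat_lit 64)) (.one (nat_lit 0xa00000400800f0100008010160820511)) (.br (Nat.shiftLeft (nat_lit 0xa000005) (nat_lit 100)) (.one (nat_lit 0xa00000400800f0110008010160822511)) (.one (nat_lit 0xa00000500800f010000a010160820511))))) (.br (Nat.shiftLeft (nat_lit 0xa00000600800f011) (nat_lit 64)) (.br (Nat.shiftLeft (nat_lit 0x5000003) (nat_lit 101)) (.one (nat_lit 0xa00000500800f011000a010160822511))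 (.one (nat_lit 0xa00000600800f010000c010160820511))) (.br (Nat.shiftLeft (nat_lit 0xa000007) (nat_lit 100)) (.one (nat_lit 0xa00000600800f011000c010160822511)) (.br (Nat.shiftLeft (nat_lit 0xb) (nat_lit 124)) (.one (nat_lit 0xa00000700800f010000e010160820511)) (.one (nat_lit 0xb00000200800f0100004010180c20511)))))) (.br (Nat.shiftLeft (nat_lit 0xb000005) (nat_lit 100)) (.br (Nat.shiftLeft (nat_lit 0xb00000300800f011) (nat_lit 64)) (.br (Nat.shiftLeft (nat_lit 0xb000003) (nat_lit 100)) (.one (nat_lit 0xb00000200800f0110004010180c22511)) (.one (nat_lit 0xb00000300800f0100006010180c20511))) (.br (Nat.shiftLeft (nat_lit 0x2c00001) (nat_lit 102)) (.one (nat_lit 0xb00000300800f0110006010180c22511)) (.br (Nat.shiftLeft (nat_lit 0xb00000400800f011) (nat_lit 64)) (.one (nat_lit 0xb00000400800f0100008010180c20511)) (.one (nat_lit 0xb00000400800f0110008010180c22511))))) (.br (Nat.shiftLeft (nat_lit 0x5800003) (nat_lit 101)) (.br (Nat.shiftLeft (nat_lit 0xb00000500800f011) (nat_lit 64)) (.one (nat_lit 0xb00000500800f010000a010180c20511))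 (.one (nat_lit 0xb00000500800f011000a010180c22511))) (.br (Nat.shiftLeft (nat_lit 0xb00000600800f011) (nat_lit 64)) (.one (nat_lit 0xb00000600800f010000c010180c20511)) (.br (Nat.shiftLeft (nat_lit 0xb000007) (nat_lit 100)) (.one (nat_lit 0xb00000600800f011000c010180c22511)) (.one (nat_lit 0xb00000700800f010000e010180c20511))))))))
def t212 : k212.all (jb2 57 fl b0) = true := by decide +kernel
noncomputable def k213 : KT := (.br (Nat.shiftLeft (nat_lit 0xd00000300800f011) (nat_lit 64)) (.br (Nat.shiftLeft (nat_lit 0xc000005) (nat_lit 100)) (.br (Nat.shiftLeft (nat_lit 0xc00000300800f011) (nat_lit 64)) (.br (Nat.shiftLeft (nat_lit 0xc00000200800f011) (nat_lit 64)) (.one (nat_lit 0xc00000200800f01000040101a1020511)) (.br (Nat.shiftLeft (nat_lit 0xc000003) (nat_lit 100)) (.one (nat_lit 0xc00000200800f01100040101a1022511)) (.one (nat_lit 0xc00000300800f01000060101a1020511)))) (.br (Nat.shiftLeft (nat_lit 0x3000001) (nat_lit 102)) (.one (nat_lit 0xc00000300800f01100060101a1022511)) (.br (Nat.shiftLeft (nat_lit 0xc00000400800f011)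 (nat_lit 64)) (.one (nat_lit 0xc00000400800f01000080101a1020511)) (.one (nat_lit 0xc00000400800f01100080101a1022511))))) (.br (Nat.shiftLeft (nat_lit 0xd) (nat_lit 124)) (.br (Nat.shiftLeft (nat_lit 0xc00000500800f011) (nat_lit 64)) (.one (nat_lit 0xc00000500800f010000a0101a1020511)) (.br (Nat.shiftLeft (nat_lit 0x6000003) (nat_lit 101)) (.one (nat_lit 0xc00000500800f011000a0101a1022511)) (.one (nat_lit 0xc00000600800f010000c0101a1020511)))) (.br (Nat.shiftLeft (nat_lit 0xd00000200800f011) (nat_lit 64)) (.one (nat_lit 0xd00000200800f01000040101c1420511)) (.br (Nat.shiftLeft (nat_lit 0xd000003) (nat_lit 100)) (.one (nat_lit 0xd00000200800f01100040101c1422511)) (.one (nat_lit 0xd00000300800f01000060101c1420511)))))) (.br (Nat.shiftLeft (nat_lit 0xe000003) (nat_lit 100)) (.br (Nat.shiftLeft (nat_lit 0xd000005) (nat_lit 100)) (.br (Nat.shiftLeft (nat_lit 0x3400001) (nat_lit 102)) (.one (nat_lit 0xd00000300800f01100060101c1422511)) (.br (Nat.shiftLeft (nat_lit 0xd00000400800f011) (nat_lit 64)) (.one (nat_lit 0xd00000400800f01000080101c1420511))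 (.one (nat_lit 0xd00000400800f01100080101c1422511)))) (.br (Nat.shiftLeft (nat_lit 0x7) (nat_lit 125)) (.one (nat_lit 0xd00000500800f010000a0101c1420511)) (.br (Nat.shiftLeft (nat_lit 0xe00000200800f011) (nat_lit 64)) (.one (nat_lit 0xe00000200800f01000040101e1820511)) (.one (nat_lit 0xe00000200800f01100040101e1822511))))) (.br (Nat.shiftLeft (nat_lit 0xf) (nat_lit 124)) (.br (Nat.shiftLeft (nat_lit 0xe00000300800f011) (nat_lit 64)) (.one (nat_lit 0xe00000300800f01000060101e1820511)) (.br (Nat.shiftLeft (nat_lit 0x3800001) (nat_lit 102)) (.one (nat_lit 0xe00000300800f01100060101e1822511)) (.one (nat_lit 0xe00000400800f01000080101e1820511)))) (.br (Nat.shiftLeft (nat_lit 0xf00000200800f011) (nat_lit 64)) (.one (nat_lit 0xf00000200800f0100004010201c20511)) (.br (Nat.shiftLeft (nat_lit 0xf000003) (nat_lit 100)) (.one (nat_lit 0xf00000200800f0110004010201c22511)) (.one (nat_lit 0xf00000300800f0100006010201c20511)))))))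
def t213 : k213.all (jb2 57 fl b0) = true := by decide +kernel
noncomputable def s9 : KT := (.br (nat_lit 0x200400800f011400801001e022650) (.br (nat_lit 0x100300800f010200601001e020650) (.br (nat_lit 0x100000800f011200001001e022411) (.br (nat_lit 0x100800f010000201001e020540) k189 (.br (nat_lit 0x700800f010000e01001e021500) k190 k191)) (.br (nat_lit 0x100200800f010200401001e020650) k192 (.br (nat_lit 0x100200800f011200401001e022650) k193 k194))) (.br (nat_lit 0x200000800f011400001001e022411) (.br (nat_lit 0x100400800f010200801001e020650) k195 (.br (nat_lit 0x100500800f011200a01001e022650) k196 k197)) (.br (nat_lit 0x200300800f010400601001e020650) k198 (.br (nat_lit 0x200300800f011400601001e022650) k199 k200)))) (.br (nat_lit 0x600700800f010c00e01001e020650) (.br (nat_lit 0x300500800f010600a01001e020650) (.br (nat_lit 0x200600800f010400c01001e020650) k201 (.br (nat_lit 0x300400800f010600801001e020650) k202 k203)) (.br (nat_lit 0x400000800f011800001001e022411) k204 (.br (nat_lit 0x400600800f010800c01001e020650) k205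 k206))) (.br (nat_lit 0x600000200800f01000040100df820511) (.br (nat_lit 0x200000700800f010000e01005e820511) k207 (.br (nat_lit 0x500000200800f01000040100bf420511) k208 k209)) (.br (nat_lit 0x800000300800f0110006010120022511) (.br (nat_lit 0x700000200800f01000040100ffc20511) k210 k211) (.br (nat_lit 0xb00000700800f010000e010180c20511) k212 k213)))))
noncomputable def u9 : KT := (.br (Nat.shiftLeft (nat_lit 0x800f011) (nat_lit 64)) (.one (nat_lit 0x800f010000001001e020430)) (.one (nat_lit 0x800f011000001001e022430)))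
def w9 : u9.all (wj 57 s9) = true := by decide +kernel
def o9 : OkW 57 (jb2 57 fl) u9 := .lift s9 _ (.br _ _ _ (.br _ _ _ (.br _ _ _ (.br _ _ _ (.leaf b0 k189 t189) (.br _ _ _ (.leaf b0 k190 t190) (.leaf b0 k191 t191))) (.br _ _ _ (.leaf b0 k192 t192) (.br _ _ _ (.leaf b0 k193 t193) (.leaf b0 k194 t194)))) (.br _ _ _ (.br _ _ _ (.leaf b0 k195 t195) (.br _ _ _ (.leaf b0 k196 t196) (.leaf b0 k197 t197))) (.br _ _ _ (.leaf b0 k198 t198) (.br _ _ _ (.leaf b0 k199 t199) (.leaf b0 k200 t200))))) (.br _ _ _ (.br _ _ _ (.br _ _ _ (.leaf b0 k201 t201) (.br _ _ _ (.leaf b0 k202 t202) (.leaf b0 k203 t203))) (.br _ _ _ (.leaf b0 k204 t204) (.br _ _ _ (.leaf b0 k205 t205) (.leaf b0 k206 t206)))) (.br _ _ _ (.br _ _ _ (.leaf b0 k207 t207) (.br _ _ _ (.leaf b0 k208 t208) (.leaf b0 k209 t209))) (.br _ _ _ (.br _ _ _ (.leaf b0 k210 t210) (.leaf b0 k211 t211)) (.br _ _ _ (.leaf b0 k212 t212) (.leaf b0 k213 t213)))))) w9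
noncomputable def k214 : KT := (.br (Nat.shiftLeft (nat_lit 0x800f015) (nat_lit 64)) (.br (Nat.shiftLeft (nat_lit 0x800f013) (nat_lit 64)) (.one (nat_lit 0x800f012000001001e025400)) (.br (Nat.shiftLeft (nat_lit 0x2003c05) (nat_lit 66)) (.one (nat_lit 0x800f013000001001e027400)) (.one (nat_lit 0x800f014000001001e029400)))) (.br (Nat.shiftLeft (nat_lit 0x1) (nat_lit 100)) (.one (nat_lit 0x800f015000001001e02b400)) (.br (Nat.shiftLeft (nat_lit 0x100800f013) (nat_lit 64)) (.one (nat_lit 0x100800f012000201001e024540)) (.one (nat_lit 0x100800f013000201001e026540)))))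
def t214 : k214.all (jb2 57 fl b0) = true := by decide +kernel
noncomputable def k215 : KT := (.br (Nat.shiftLeft (nat_lit 0x100800f015) (nat_lit 64)) (.one (nat_lit 0x100800f014000201001e028540)) (.one (nat_lit 0x100800f015000201001e02a540)))
def t215 : k215.all (jb2 57 fl b0) = true := by decide +kernel
noncomputable def k216 : KT := (.one (nat_lit 0x200800f012000401001e024540))
def t216 : k216.all (jb2 57 fl b0) = true := by decide +kernel
noncomputable def k217 : KT := (.one (nat_lit 0x200800f013000401001e026540))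
def t217 : k217.all (jb2 57 fl b0) = true := by decide +kernel
noncomputable def k218 : KT := (.br (Nat.shiftLeft (nat_lit 0x200800f015) (nat_lit 64)) (.one (nat_lit 0x200800f014000401001e028540)) (.br (Nat.shiftLeft (nat_lit 0x3) (nat_lit 100)) (.one (nat_lit 0x200800f015000401001e02a540)) (.one (nat_lit 0x300800f012000601001e025500))))
def t218 : k218.all (jb2 57 fl b0) = true := by decide +kernel
noncomputable def k219 : KT := (.one (nat_lit 0x300800f013000601001e026540))
def t219 : k219.all (jb2 57 fl b0) = true := by decide +kernel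
noncomputable def k220 : KT := (.br (Nat.shiftLeft (nat_lit 0x300800f015) (nat_lit 64)) (.one (nat_lit 0x300800f014000601001e028540)) (.br (Nat.shiftLeft (nat_lit 0x1) (nat_lit 102)) (.one (nat_lit 0x300800f015000601001e02a540)) (.one (nat_lit 0x400800f012000801001e025500))))
def t220 : k220.all (jb2 57 fl b0) = true := by decide +kernel
noncomputable def k221 : KT := (.one (nat_lit 0x400800f013000801001e026540))
def t221 : k221.all (jb2 57 fl b0) = true := by decide +kernel
noncomputable def k222 : KT := (.br (Nat.shiftLeft (nat_lit 0x400800f015) (nat_lit 64)) (.one (nat_lit 0x400800f014000801001e028540)) (.one (nat_lit 0x400800f015000801001e02a540)))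
def t222 : k222.all (jb2 57 fl b0) = true := by decide +kernel
noncomputable def k223 : KT := (.one (nat_lit 0x500800f012000a01001e024540))
def t223 : k223.all (jb2 57 fl b0) = true := by decide +kernel
noncomputable def k224 : KT := (.one (nat_lit 0x500800f013000a01001e026540))
def t224 : k224.all (jb2 57 fl b0) = true := by decide +kernel
noncomputable def k225 : KT := (.br (Nat.shiftLeft (nat_lit 0x500800f015) (nat_lit 64)) (.one (nat_lit 0x500800f014000a01001e028540)) (.one (nat_lit 0x500800f015000a01001e02a540)))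
def t225 : k225.all (jb2 57 fl b0) = true := by decide +kernel
noncomputable def k226 : KT := (.one (nat_lit 0x600800f012000c01001e024540))
def t226 : k226.all (jb2 57 fl b0) = true := by decide +kernel
noncomputable def k227 : KT := (.br (Nat.shiftLeft (nat_lit 0x1802003c05) (nat_lit 66)) (.one (nat_lit 0x600800f013000c01001e026540)) (.br (Nat.shiftLeft (nat_lit 0x600800f015) (nat_lit 64)) (.one (nat_lit 0x600800f014000c01001e028540)) (.one (nat_lit 0x600800f015000c01001e02a540))))
def t227 : k227.all (jb2 57 fl b0) = true := by decide +kernel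
noncomputable def k228 : KT := (.br (Nat.shiftLeft (nat_lit 0x700800f013) (nat_lit 64)) (.one (nat_lit 0x700800f012000e01001e024540)) (.one (nat_lit 0x700800f013000e01001e026540)))
def t228 : k228.all (jb2 57 fl b0) = true := by decide +kernel
noncomputable def k229 : KT := (.br (Nat.shiftLeft (nat_lit 0x801) (nat_lit 101)) (.br (Nat.shiftLeft (nat_lit 0x100000800f013) (nat_lit 64)) (.br (Nat.shiftLeft (nat_lit 0x700800f015) (nat_lit 64)) (.one (nat_lit 0x700800f014000e01001e028540)) (.br (Nat.shiftLeft (nat_lit 0x1) (nat_lit 112)) (.one (nat_lit 0x700800f015000e01001e02a540)) (.one (nat_lit 0x100000800f012200001001e024411)))) (.br (Nat.shiftLeft (nat_lit 0x400002003c05) (nat_lit 66)) (.one (nat_lit 0x100000800f013200001001e026411)) (.br (Nat.shiftLeft (nat_lit 0x100000800f015) (nat_lit 64)) (.one (nat_lit 0x100000800f014200001001e028411)) (.one (nat_lit 0x100000800f015200001001e02a411))))) (.br (Nat.shiftLeft (nat_lit 0x200000800f013) (nat_lit 64)) (.br (Nat.shiftLeft (nat_lit 0x401) (nat_lit 102)) (.one (nat_lit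 0x100300800f012200601001e024650)) (.br (Nat.shiftLeft (nat_lit 0x1) (nat_lit 113)) (.one (nat_lit 0x100400800f012200801001e024650)) (.one (nat_lit 0x200000800f012400001001e024411)))) (.br (Nat.shiftLeft (nat_lit 0x800002003c05) (nat_lit 66)) (.one (nat_lit 0x200000800f013400001001e026411)) (.br (Nat.shiftLeft (nat_lit 0x200000800f015) (nat_lit 64)) (.one (nat_lit 0x200000800f014400001001e028411)) (.one (nat_lit 0x200000800f015400001001e02a411))))))
def t229 : k229.all (jb2 57 fl b0) = true := by decide +kernel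
noncomputable def k230 : KT := (.br (Nat.shiftLeft (nat_lit 0xc00002003c05) (nat_lit 66)) (.br (Nat.shiftLeft (nat_lit 0x3) (nat_lit 112)) (.br (Nat.shiftLeft (nat_lit 0x801) (nat_lit 102)) (.one (nat_lit 0x200300800f012400601001e024650)) (.one (nat_lit 0x200400800f012400801001e024650))) (.br (Nat.shiftLeft (nat_lit 0x300000800f013) (nat_lit 64)) (.one (nat_lit 0x300000800f012600001001e024411)) (.one (nat_lit 0x300000800f013600001001e026411)))) (.br (Nat.shiftLeft (nat_lit 0xc01) (nat_lit 102)) (.br (Nat.shiftLeft (nat_lit 0x300000800f015) (nat_lit 64)) (.one (nat_lit 0x300000800f014600001001e028411)) (.one (nat_lit 0x300000800f015600001001e02a411))) (.br (Nat.shiftLeft (nat_lit 0x1) (nat_lit 114)) (.one (nat_lit 0x300400800f012600801001e024650)) (.br (Nat.shiftLeft (nat_lit 0x400000800f013) (nat_lit 64)) (.one (nat_lit 0x400000800f012800001001e024411)) (.one (nat_lit 0x400000800f013800001001e026411))))))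
def t230 : k230.all (jb2 57 fl b0) = true := by decide +kernel
noncomputable def k231 : KT := (.br (Nat.shiftLeft (nat_lit 0x2400002003c05) (nat_lit 66)) (.br (Nat.shiftLeft (nat_lit 0x7) (nat_lit 112)) (.br (Nat.shiftLeft (nat_lit 0x500000800f015) (nat_lit 64)) (.br (Nat.shiftLeft (nat_lit 0x5) (nat_lit 112)) (.br (Nat.shiftLeft (nat_lit 0x400000800f015) (nat_lit 64)) (.one (nat_lit 0x400000800f014800001001e028411)) (.one (nat_lit 0x400000800f015800001001e02a411))) (.br (Nat.shiftLeft (nat_lit 0x500000800f013) (nat_lit 64)) (.one (nat_lit 0x500000800f012a00001001e024411)) (.br (Nat.shiftLeft (nat_lit 0x1400002003c05) (nat_lit 66)) (.one (nat_lit 0x500000800f013a00001001e026411)) (.one (nat_lit 0x500000800f014a00001001e028411))))) (.br (Nat.shiftLeft (nat_lit 0x600000800f013) (nat_lit 64)) (.br (Nat.shiftLeft (nat_lit 0x3) (nat_lit 113)) (.one (nat_lit 0x500000800f015a00001001e02a411)) (.one (nat_lit 0x600000800f012c00001001e024411))) (.br (Nat.shiftLeft (nat_lit 0x1800002003c05) (nat_lit 66)) (.one (nat_lit 0x600000800f013c00001001e026411))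 (.br (Nat.shiftLeft (nat_lit 0x600000800f015) (nat_lit 64)) (.one (nat_lit 0x600000800f014c00001001e028411)) (.one (nat_lit 0x600000800f015c00001001e02a411)))))) (.br (Nat.shiftLeft (nat_lit 0x800000800f013) (nat_lit 64)) (.br (Nat.shiftLeft (nat_lit 0x1c00002003c05) (nat_lit 66)) (.br (Nat.shiftLeft (nat_lit 0x700000800f013) (nat_lit 64)) (.one (nat_lit 0x700000800f012e00001001e024411)) (.one (nat_lit 0x700000800f013e00001001e026411))) (.br (Nat.shiftLeft (nat_lit 0x700000800f015) (nat_lit 64)) (.one (nat_lit 0x700000800f014e00001001e028411)) (.br (Nat.shiftLeft (nat_lit 0x1) (nat_lit 115)) (.one (nat_lit 0x700000800f015e00001001e02a411)) (.one (nat_lit 0x800000800f012000001001e126411))))) (.br (Nat.shiftLeft (nat_lit 0x800000800f015) (nat_lit 64)) (.br (Nat.shiftLeft (nat_lit 0x2000002003c05) (nat_lit 66)) (.one (nat_lit 0x800000800f013000001001e128411)) (.one (nat_lit 0x800000800f014000001001e12a411))) (.br (Nat.shiftLeft (nat_lit 0x9) (nat_lit 112)) (.one (nat_lit 0x800000800f015000001001e12c411)) (.br (Nat.shiftLeft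 (nat_lit 0x900000800f013) (nat_lit 64)) (.one (nat_lit 0x900000800f012200001001e126411)) (.one (nat_lit 0x900000800f013200001001e128411))))))) (.br (Nat.shiftLeft (nat_lit 0x3) (nat_lit 114)) (.br (Nat.shiftLeft (nat_lit 0xa00000800f015) (nat_lit 64)) (.br (Nat.shiftLeft (nat_lit 0x5) (nat_lit 113)) (.br (Nat.shiftLeft (nat_lit 0x900000800f015) (nat_lit 64)) (.one (nat_lit 0x900000800f014200001001e12a411)) (.one (nat_lit 0x900000800f015200001001e12c411))) (.br (Nat.shiftLeft (nat_lit 0xa00000800f013) (nat_lit 64)) (.one (nat_lit 0xa00000800f012400001001e126411)) (.br (Nat.shiftLeft (nat_lit 0x2800002003c05) (nat_lit 66)) (.one (nat_lit 0xa00000800f013400001001e128411)) (.one (nat_lit 0xa00000800f014400001001e12a411))))) (.br (Nat.shiftLeft (nat_lit 0xb00000800f013) (nat_lit 64)) (.br (Nat.shiftLeft (nat_lit 0xb) (nat_lit 112)) (.one (nat_lit 0xa00000800f015400001001e12c411)) (.one (nat_lit 0xb00000800f012600001001e126411))) (.br (Nat.shiftLeft (nat_lit 0x2c00002003c05) (nat_lit 66)) (.one (nat_lit 0xb00000800f013600001001e128411))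 (.br (Nat.shiftLeft (nat_lit 0xb00000800f015) (nat_lit 64)) (.one (nat_lit 0xb00000800f014600001001e12a411)) (.one (nat_lit 0xb00000800f015600001001e12c411)))))) (.br (Nat.shiftLeft (nat_lit 0xd00000800f013) (nat_lit 64)) (.br (Nat.shiftLeft (nat_lit 0x3000002003c05) (nat_lit 66)) (.br (Nat.shiftLeft (nat_lit 0xc00000800f013) (nat_lit 64)) (.one (nat_lit 0xc00000800f012800001001e126411)) (.one (nat_lit 0xc00000800f013800001001e128411))) (.br (Nat.shiftLeft (nat_lit 0xc00000800f015) (nat_lit 64)) (.one (nat_lit 0xc00000800f014800001001e12a411)) (.br (Nat.shiftLeft (nat_lit 0xd) (nat_lit 112)) (.one (nat_lit 0xc00000800f015800001001e12c411)) (.one (nat_lit 0xd00000800f012a00001001e126411))))) (.br (Nat.shiftLeft (nat_lit 0xd00000800f015) (nat_lit 64)) (.br (Nat.shiftLeft (nat_lit 0x3400002003c05) (nat_lit 66)) (.one (nat_lit 0xd00000800f013a00001001e128411)) (.one (nat_lit 0xd00000800f014a00001001e12a411))) (.br (Nat.shiftLeft (nat_lit 0x7) (nat_lit 113)) (.one (nat_lit 0xd00000800f015a00001001e12c411)) (.br (Nat.shiftLeft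 (nat_lit 0xe00000800f013) (nat_lit 64)) (.one (nat_lit 0xe00000800f012c00001001e126411)) (.one (nat_lit 0xe00000800f013c00001001e128411))))))))
def t231 : k231.all (jb2 57 fl b0) = true := by decide +kernel
noncomputable def k232 : KT := (.br (Nat.shiftLeft (nat_lit 0x1800001) (nat_lit 102)) (.br (Nat.shiftLeft (nat_lit 0x3) (nat_lit 124)) (.br (Nat.shiftLeft (nat_lit 0x1) (nat_lit 124)) (.br (Nat.shiftLeft (nat_lit 0xf) (nat_lit 112)) (.one (nat_lit 0xe00000800f014c00001001e12a411)) (.br (Nat.shiftLeft (nat_lit 0xf00000800f013) (nat_lit 64)) (.one (nat_lit 0xf00000800f012e00001001e126411)) (.one (nat_lit 0xf00000800f013e00001001e128411)))) (.br (Nat.shiftLeft (nat_lit 0x1) (nat_lit 125)) (.br (Nat.shiftLeft (nat_lit 0x400001) (nat_lit 102)) (.one (nat_lit 0x100000300800f012000601003e424511)) (.one (nat_lit 0x100000400800f012000801003e424511))) (.br (Nat.shiftLeft (nat_lit 0x800001) (nat_lit 102)) (.one (nat_lit 0x200000300800f012000601005e824511)) (.one (nat_lit 0x200000400800f012000801005e824511))))) (.br (Nat.shiftLeft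 (nat_lit 0x1000001) (nat_lit 102)) (.br (Nat.shiftLeft (nat_lit 0xc00001) (nat_lit 102)) (.one (nat_lit 0x300000300800f012000601007ec24511)) (.br (Nat.shiftLeft (nat_lit 0x1) (nat_lit 126)) (.one (nat_lit 0x300000400800f012000801007ec24511)) (.one (nat_lit 0x400000300800f012000601009f024511)))) (.br (Nat.shiftLeft (nat_lit 0x1400001) (nat_lit 102)) (.br (Nat.shiftLeft (nat_lit 0x5) (nat_lit 124)) (.one (nat_lit 0x400000400800f012000801009f024511)) (.one (nat_lit 0x500000300800f01200060100bf424511))) (.br (Nat.shiftLeft (nat_lit 0x3) (nat_lit 125)) (.one (nat_lit 0x500000400800f01200080100bf424511)) (.one (nat_lit 0x600000300800f01200060100df824511)))))) (.br (Nat.shiftLeft (nat_lit 0x5) (nat_lit 125)) (.br (Nat.shiftLeft (nat_lit 0x1) (nat_lit 127)) (.br (Nat.shiftLeft (nat_lit 0x7) (nat_lit 124)) (.one (nat_lit 0x600000400800f01200080100df824511)) (.br (Nat.shiftLeft (nat_lit 0x1c00001) (nat_lit 102)) (.one (nat_lit 0x700000300800f01200060100ffc24511)) (.one (nat_lit 0x700000400800f01200080100ffc24511)))) (.br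 (Nat.shiftLeft (nat_lit 0x9) (nat_lit 124)) (.br (Nat.shiftLeft (nat_lit 0x2000001) (nat_lit 102)) (.one (nat_lit 0x800000300800f0120006010120024511)) (.one (nat_lit 0x800000400800f0120008010120024511))) (.br (Nat.shiftLeft (nat_lit 0x2400001) (nat_lit 102)) (.one (nat_lit 0x900000300800f0120006010140424511)) (.one (nat_lit 0x900000400800f0120008010140424511))))) (.br (Nat.shiftLeft (nat_lit 0x2c00001) (nat_lit 102)) (.br (Nat.shiftLeft (nat_lit 0x2800001) (nat_lit 102)) (.one (nat_lit 0xa00000300800f0120006010160824511)) (.br (Nat.shiftLeft (nat_lit 0xb) (nat_lit 124)) (.one (nat_lit 0xa00000400800f0120008010160824511)) (.one (nat_lit 0xb00000300800f0120006010180c24511)))) (.br (Nat.shiftLeft (nat_lit 0x3000001) (nat_lit 102)) (.br (Nat.shiftLeft (nat_lit 0x3) (nat_lit 126)) (.one (nat_lit 0xb00000400800f0120008010180c24511)) (.one (nat_lit 0xc00000300800f01200060101a1024511))) (.br (Nat.shiftLeft (nat_lit 0xd) (nat_lit 124)) (.one (nat_lit 0xc00000400800f01200080101a1024511)) (.one (nat_lit 0xd00000300800f01200060101c1424511)))))))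
def t232 : k232.all (jb2 57 fl b0) = true := by decide +kernel
noncomputable def s10 : KT := (.br (nat_lit 0x400800f015000801001e02a540) (.br (nat_lit 0x200800f013000401001e026540) (.br (nat_lit 0x100800f015000201001e02a540) (.br (nat_lit 0x100800f013000201001e026540) k214 k215) (.br (nat_lit 0x200800f012000401001e024540) k216 k217)) (.br (nat_lit 0x300800f013000601001e026540) (.br (nat_lit 0x300800f012000601001e025500) k218 k219) (.br (nat_lit 0x400800f012000801001e025500) k220 (.br (nat_lit 0x400800f013000801001e026540) k221 k222)))) (.br (nat_lit 0x600800f015000c01001e02a540) (.br (nat_lit 0x500800f013000a01001e026540) (.br (nat_lit 0x500800f012000a01001e024540) k223 k224) (.br (nat_lit 0x500800f015000a01001e02a540) k225 (.br (nat_lit 0x600800f012000c01001e024540) k226 k227))) (.br (nat_lit 0x200000800f015400001001e02a411) (.br (nat_lit 0x700800f013000e01001e026540) k228 k229) (.br (nat_lit 0x400000800f013800001001e026411) k230 (.br (nat_lit 0xe00000800f013c00001001e128411) k231 k232)))))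
noncomputable def u10 : KT := (.br (Nat.shiftLeft (nat_lit 0x2003c05) (nat_lit 66)) (.br (Nat.shiftLeft (nat_lit 0x800f013) (nat_lit 64)) (.one (nat_lit 0x800f012000001001e024430)) (.one (nat_lit 0x800f013000001001e026430))) (.br (Nat.shiftLeft (nat_lit 0x800f015) (nat_lit 64)) (.one (nat_lit 0x800f014000001001e028430)) (.one (nat_lit 0x800f015000001001e02a430))))
def w10 : u10.all (wj 57 s10) = true := by decide +kernel
def o10 : OkW 57 (jb2 57 fl) u10 := .lift s10 _ (.br _ _ _ (.br _ _ _ (.br _ _ _ (.br _ _ _ (.leaf b0 k214 t214) (.leaf b0 k215 t215)) (.br _ _ _ (.leaf b0 k216 t216) (.leaf b0 k217 t217))) (.br _ _ _ (.br _ _ _ (.leaf b0 k218 t218) (.leaf b0 k219 t219)) (.br _ _ _ (.leaf b0 k220 t220) (.br _ _ _ (.leaf b0 k221 t221) (.leaf b0 k222 t222))))) (.br _ _ _ (.br _ _ _ (.br _ _ _ (.leaf b0 k223 t223) (.leaf b0 k224 t224)) (.br _ _ _ (.leaf b0 k225 t225) (.br _ _ _ (.leaf b0 k226 t226) (.leaf b0 k227 t227)))) (.br _ _ _ (.br _ _ _ (.leaf b0 k228 t228) (.leaf b0 k229 t229)) (.br _ _ _ (.leaf b0 k230 t230)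 (.br _ _ _ (.leaf b0 k231 t231) (.leaf b0 k232 t232)))))) w10
noncomputable def k233 : KT := (.br (Nat.shiftLeft (nat_lit 0x2004005) (nat_lit 66)) (.br (Nat.shiftLeft (nat_lit 0x4008009) (nat_lit 65)) (.one (nat_lit 0x80100110000010020023400)) (.br (Nat.shiftLeft (nat_lit 0x8010013) (nat_lit 64)) (.one (nat_lit 0x80100120000010020025400)) (.one (nat_lit 0x80100130000010020027400)))) (.br (Nat.shiftLeft (nat_lit 0x1) (nat_lit 100)) (.br (Nat.shiftLeft (nat_lit 0x8011) (nat_lit 76)) (.one (nat_lit 0x80100140000010020029400)) (.one (nat_lit 0x80110120000010022025400))) (.br (Nat.shiftLeft (nat_lit 0x804008009) (nat_lit 65)) (.one (nat_lit 0x10080100110002010020022540)) (.one (nat_lit 0x10080100120002010020024540)))))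
def t233 : k233.all (jb2 57 fl b0) = true := by decide +kernel
noncomputable def k234 : KT := (.br (Nat.shiftLeft (nat_lit 0x402004005) (nat_lit 66)) (.one (nat_lit 0x10080100130002010020026540)) (.br (Nat.shiftLeft (nat_lit 0x1008011) (nat_lit 76)) (.one (nat_lit 0x10080100140002010020028540)) (.one (nat_lit 0x10080110120002010022024540))))
def t234 : k234.all (jb2 57 fl b0) = true := by decide +kernel
noncomputable def k235 : KT := (.one (nat_lit 0x20080100110004010020022540))
def t235 : k235.all (jb2 57 fl b0) = true := by decide +kernel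
noncomputable def k236 : KT := (.one (nat_lit 0x20080100120004010020024540))
def t236 : k236.all (jb2 57 fl b0) = true := by decide +kernel
noncomputable def k237 : KT := (.br (Nat.shiftLeft (nat_lit 0x802004005) (nat_lit 66)) (.one (nat_lit 0x20080100130004010020026540)) (.one (nat_lit 0x20080100140004010020028540)))
def t237 : k237.all (jb2 57 fl b0) = true := by decide +kernel
noncomputable def k238 : KT := (.br (Nat.shiftLeft (nat_lit 0x3) (nat_lit 100)) (.one (nat_lit 0x20080110120004010022024540)) (.one (nat_lit 0x30080100110006010020023500)))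
def t238 : k238.all (jb2 57 fl b0) = true := by decide +kernel
noncomputable def k239 : KT := (.one (nat_lit 0x30080100120006010020024540))
def t239 : k239.all (jb2 57 fl b0) = true := by decide +kernel
noncomputable def k240 : KT := (.br (Nat.shiftLeft (nat_lit 0xc02004005) (nat_lit 66)) (.one (nat_lit 0x30080100130006010020026540)) (.one (nat_lit 0x30080100140006010020028540)))
def t240 : k240.all (jb2 57 fl b0) = true := by decide +kernel
noncomputable def k241 : KT := (.br (Nat.shiftLeft (nat_lit 0x1) (nat_lit 102)) (.one (nat_lit 0x30080110120006010022024540)) (.one (nat_lit 0x40080100110008010020023500)))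
def t241 : k241.all (jb2 57 fl b0) = true := by decide +kernel
noncomputable def k242 : KT := (.one (nat_lit 0x40080100120008010020024540))
def t242 : k242.all (jb2 57 fl b0) = true := by decide +kernel
noncomputable def k243 : KT := (.br (Nat.shiftLeft (nat_lit 0x1002004005) (nat_lit 66)) (.one (nat_lit 0x40080100130008010020026540)) (.one (nat_lit 0x40080100140008010020028540)))
def t243 : k243.all (jb2 57 fl b0) = true := by decide +kernel
noncomputable def k244 : KT := (.one (nat_lit 0x40080110120008010022024540))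
def t244 : k244.all (jb2 57 fl b0) = true := by decide +kernel
noncomputable def k245 : KT := (.one (nat_lit 0x5008010011000a010020022540))
def t245 : k245.all (jb2 57 fl b0) = true := by decide +kernel
noncomputable def k246 : KT := (.one (nat_lit 0x5008010012000a010020024540))
def t246 : k246.all (jb2 57 fl b0) = true := by decide +kernel
noncomputable def k247 : KT := (.br (Nat.shiftLeft (nat_lit 0x1402004005) (nat_lit 66)) (.one (nat_lit 0x5008010013000a010020026540)) (.one (nat_lit 0x5008010014000a010020028540)))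
def t247 : k247.all (jb2 57 fl b0) = true := by decide +kernel
noncomputable def k248 : KT := (.one (nat_lit 0x5008011012000a010022024540))
def t248 : k248.all (jb2 57 fl b0) = true := by decide +kernel
noncomputable def k249 : KT := (.one (nat_lit 0x6008010011000c010020022540))
def t249 : k249.all (jb2 57 fl b0) = true := by decide +kernel
noncomputable def k250 : KT := (.br (Nat.shiftLeft (nat_lit 0x6008010013) (nat_lit 64)) (.one (nat_lit 0x6008010012000c010020024540)) (.br (Nat.shiftLeft (nat_lit 0x1802004005) (nat_lit 66)) (.one (nat_lit 0x6008010013000c010020026540)) (.one (nat_lit 0x6008010014000c010020028540))))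
def t250 : k250.all (jb2 57 fl b0) = true := by decide +kernel
noncomputable def k251 : KT := (.br (Nat.shiftLeft (nat_lit 0x7) (nat_lit 100)) (.one (nat_lit 0x6008011012000c010022024540)) (.one (nat_lit 0x7008010011000e010020022540)))
def t251 : k251.all (jb2 57 fl b0) = true := by decide +kernel
noncomputable def k252 : KT := (.br (Nat.shiftLeft (nat_lit 0x1) (nat_lit 112)) (.br (Nat.shiftLeft (nat_lit 0x1c02004005) (nat_lit 66)) (.br (Nat.shiftLeft (nat_lit 0x7008010013) (nat_lit 64)) (.one (nat_lit 0x7008010012000e010020024540)) (.one (nat_lit 0x7008010013000e010020026540))) (.br (Nat.shiftLeft (nat_lit 0x7008011) (nat_lit 76)) (.one (nat_lit 0x7008010014000e010020028540)) (.one (nat_lit 0x7008011012000e010022024540)))) (.br (Nat.shiftLeft (nat_lit 0x1000008010013) (nat_lit 64)) (.br (Nat.shiftLeft (nat_lit 0x800004008009) (nat_lit 65)) (.one (nat_lit 0x10000080100112000010020022411)) (.one (nat_lit 0x10000080100122000010020024411))) (.br (Nat.shiftLeft (nat_lit 0x400002004005) (nat_lit 66)) (.one (nat_lit 0x10000080100132000010020026411))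 (.br (Nat.shiftLeft (nat_lit 0x1000008011) (nat_lit 76)) (.one (nat_lit 0x10000080100142000010020028411)) (.one (nat_lit 0x10000080110122000010022024411))))))
def t252 : k252.all (jb2 57 fl b0) = true := by decide +kernel
noncomputable def k253 : KT := (.br (Nat.shiftLeft (nat_lit 0x2000008010013) (nat_lit 64)) (.br (Nat.shiftLeft (nat_lit 0x1) (nat_lit 113)) (.br (Nat.shiftLeft (nat_lit 0x401) (nat_lit 102)) (.one (nat_lit 0x10030080100112006010020022650)) (.one (nat_lit 0x10040080100112008010020022650))) (.br (Nat.shiftLeft (nat_lit 0x1000004008009) (nat_lit 65)) (.one (nat_lit 0x20000080100114000010020022411)) (.one (nat_lit 0x20000080100124000010020024411)))) (.br (Nat.shiftLeft (nat_lit 0x2000008011) (nat_lit 76)) (.br (Nat.shiftLeft (nat_lit 0x800002004005) (nat_lit 66)) (.one (nat_lit 0x20000080100134000010020026411)) (.one (nat_lit 0x20000080100144000010020028411))) (.br (Nat.shiftLeft (nat_lit 0x1001) (nat_lit 101)) (.one (nat_lit 0x20000080110124000010022024411)) (.one (nat_lit 0x20030080100114006010020022650)))))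
def t253 : k253.all (jb2 57 fl b0) = true := by decide +kernel
noncomputable def k254 : KT := (.br (Nat.shiftLeft (nat_lit 0x1000002004005) (nat_lit 66)) (.br (Nat.shiftLeft (nat_lit 0x3000008011) (nat_lit 76)) (.br (Nat.shiftLeft (nat_lit 0x1800004008009) (nat_lit 65)) (.br (Nat.shiftLeft (nat_lit 0x3) (nat_lit 112)) (.one (nat_lit 0x20040080100114008010020022650)) (.one (nat_lit 0x30000080100116000010020022411))) (.br (Nat.shiftLeft (nat_lit 0x3000008010013) (nat_lit 64)) (.one (nat_lit 0x30000080100126000010020024411)) (.br (Nat.shiftLeft (nat_lit 0xc00002004005) (nat_lit 66)) (.one (nat_lit 0x30000080100136000010020026411)) (.one (nat_lit 0x30000080100146000010020028411))))) (.br (Nat.shiftLeft (nat_lit 0x1) (nat_lit 114)) (.br (Nat.shiftLeft (nat_lit 0xc01) (nat_lit 102)) (.one (nat_lit 0x30000080110126000010022024411)) (.one (nat_lit 0x30040080100116008010020022650))) (.br (Nat.shiftLeft (nat_lit 0x2000004008009) (nat_lit 65)) (.one (nat_lit 0x40000080100118000010020022411)) (.br (Nat.shiftLeft (nat_lit 0x4000008010013)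 (nat_lit 64)) (.one (nat_lit 0x40000080100128000010020024411)) (.one (nat_lit 0x40000080100138000010020026411)))))) (.br (Nat.shiftLeft (nat_lit 0x1400002004005) (nat_lit 66)) (.br (Nat.shiftLeft (nat_lit 0x5) (nat_lit 112)) (.br (Nat.shiftLeft (nat_lit 0x4000008011) (nat_lit 76)) (.one (nat_lit 0x40000080100148000010020028411)) (.one (nat_lit 0x40000080110128000010022024411))) (.br (Nat.shiftLeft (nat_lit 0x2800004008009) (nat_lit 65)) (.one (nat_lit 0x5000008010011a000010020022411)) (.br (Nat.shiftLeft (nat_lit 0x5000008010013) (nat_lit 64)) (.one (nat_lit 0x5000008010012a000010020024411)) (.one (nat_lit 0x5000008010013a000010020026411))))) (.br (Nat.shiftLeft (nat_lit 0x3000004008009) (nat_lit 65)) (.br (Nat.shiftLeft (nat_lit 0x5000008011) (nat_lit 76)) (.one (nat_lit 0x5000008010014a000010020028411)) (.br (Nat.shiftLeft (nat_lit 0x3) (nat_lit 113)) (.one (nat_lit 0x5000008011012a000010022024411)) (.one (nat_lit 0x6000008010011c000010020022411)))) (.br (Nat.shiftLeft (nat_lit 0x6000008010013) (nat_lit 64)) (.one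 (nat_lit 0x6000008010012c000010020024411)) (.br (Nat.shiftLeft (nat_lit 0x1800002004005) (nat_lit 66)) (.one (nat_lit 0x6000008010013c000010020026411)) (.one (nat_lit 0x6000008010014c000010020028411)))))))
def t254 : k254.all (jb2 57 fl b0) = true := by decide +kernel
noncomputable def k255 : KT := (.br (Nat.shiftLeft (nat_lit 0xa000008011) (nat_lit 76)) (.br (Nat.shiftLeft (nat_lit 0x8000008011) (nat_lit 76)) (.br (Nat.shiftLeft (nat_lit 0x7000008011) (nat_lit 76)) (.br (Nat.shiftLeft (nat_lit 0x3800004008009) (nat_lit 65)) (.br (Nat.shiftLeft (nat_lit 0x7) (nat_lit 112)) (.one (nat_lit 0x6000008011012c000010022024411)) (.one (nat_lit 0x7000008010011e000010020022411))) (.br (Nat.shiftLeft (nat_lit 0x7000008010013) (nat_lit 64)) (.one (nat_lit 0x7000008010012e000010020024411)) (.br (Nat.shiftLeft (nat_lit 0x1c00002004005) (nat_lit 66)) (.one (nat_lit 0x7000008010013e000010020026411)) (.one (nat_lit 0x7000008010014e000010020028411))))) (.br (Nat.shiftLeft (nat_lit 0x4000004008009) (nat_lit 65)) (.br (Nat.shiftLeft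 (nat_lit 0x1) (nat_lit 115)) (.one (nat_lit 0x7000008011012e000010022024411)) (.one (nat_lit 0x80000080100110000010020124411))) (.br (Nat.shiftLeft (nat_lit 0x8000008010013) (nat_lit 64)) (.one (nat_lit 0x80000080100120000010020126411)) (.br (Nat.shiftLeft (nat_lit 0x2000002004005) (nat_lit 66)) (.one (nat_lit 0x80000080100130000010020128411)) (.one (nat_lit 0x8000008010014000001002012a411)))))) (.br (Nat.shiftLeft (nat_lit 0x9000008011) (nat_lit 76)) (.br (Nat.shiftLeft (nat_lit 0x4800004008009) (nat_lit 65)) (.br (Nat.shiftLeft (nat_lit 0x9) (nat_lit 112)) (.one (nat_lit 0x80000080110120000010022126411)) (.one (nat_lit 0x90000080100112000010020124411))) (.br (Nat.shiftLeft (nat_lit 0x9000008010013) (nat_lit 64)) (.one (nat_lit 0x90000080100122000010020126411)) (.br (Nat.shiftLeft (nat_lit 0x2400002004005) (nat_lit 66)) (.one (nat_lit 0x90000080100132000010020128411)) (.one (nat_lit 0x9000008010014200001002012a411))))) (.br (Nat.shiftLeft (nat_lit 0x5000004008009) (nat_lit 65)) (.br (Nat.shiftLeft (nat_lit 0x5)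 (nat_lit 113)) (.one (nat_lit 0x90000080110122000010022126411)) (.one (nat_lit 0xa0000080100114000010020124411))) (.br (Nat.shiftLeft (nat_lit 0xa000008010013) (nat_lit 64)) (.one (nat_lit 0xa0000080100124000010020126411)) (.br (Nat.shiftLeft (nat_lit 0x2800002004005) (nat_lit 66)) (.one (nat_lit 0xa0000080100134000010020128411)) (.one (nat_lit 0xa000008010014400001002012a411))))))) (.br (Nat.shiftLeft (nat_lit 0xc000008011) (nat_lit 76)) (.br (Nat.shiftLeft (nat_lit 0xb000008011) (nat_lit 76)) (.br (Nat.shiftLeft (nat_lit 0x5800004008009) (nat_lit 65)) (.br (Nat.shiftLeft (nat_lit 0xb) (nat_lit 112)) (.one (nat_lit 0xa0000080110124000010022126411)) (.one (nat_lit 0xb0000080100116000010020124411))) (.br (Nat.shiftLeft (nat_lit 0xb000008010013) (nat_lit 64)) (.one (nat_lit 0xb0000080100126000010020126411)) (.br (Nat.shiftLeft (nat_lit 0x2c00002004005) (nat_lit 66)) (.one (nat_lit 0xb0000080100136000010020128411)) (.one (nat_lit 0xb000008010014600001002012a411))))) (.br (Nat.shiftLeft (nat_lit 0x6000004008009) (nat_lit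 65)) (.br (Nat.shiftLeft (nat_lit 0x3) (nat_lit 114)) (.one (nat_lit 0xb0000080110126000010022126411)) (.one (nat_lit 0xc0000080100118000010020124411))) (.br (Nat.shiftLeft (nat_lit 0xc000008010013) (nat_lit 64)) (.one (nat_lit 0xc0000080100128000010020126411)) (.br (Nat.shiftLeft (nat_lit 0x3000002004005) (nat_lit 66)) (.one (nat_lit 0xc0000080100138000010020128411)) (.one (nat_lit 0xc000008010014800001002012a411)))))) (.br (Nat.shiftLeft (nat_lit 0xd000008011) (nat_lit 76)) (.br (Nat.shiftLeft (nat_lit 0x6800004008009) (nat_lit 65)) (.br (Nat.shiftLeft (nat_lit 0xd) (nat_lit 112)) (.one (nat_lit 0xc0000080110128000010022126411)) (.one (nat_lit 0xd000008010011a000010020124411))) (.br (Nat.shiftLeft (nat_lit 0xd000008010013) (nat_lit 64)) (.one (nat_lit 0xd000008010012a000010020126411)) (.br (Nat.shiftLeft (nat_lit 0x3400002004005) (nat_lit 66)) (.one (nat_lit 0xd000008010013a000010020128411)) (.one (nat_lit 0xd000008010014a00001002012a411))))) (.br (Nat.shiftLeft (nat_lit 0x7000004008009) (nat_lit 65)) (.br (Nat.shiftLeft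 (nat_lit 0x7) (nat_lit 113)) (.one (nat_lit 0xd000008011012a000010022126411)) (.one (nat_lit 0xe000008010011c000010020124411))) (.br (Nat.shiftLeft (nat_lit 0xe000008010013) (nat_lit 64)) (.one (nat_lit 0xe000008010012c000010020126411)) (.br (Nat.shiftLeft (nat_lit 0xe000008011) (nat_lit 76)) (.one (nat_lit 0xe000008010013c000010020128411)) (.one (nat_lit 0xe000008011012c000010022126411))))))))
def t255 : k255.all (jb2 57 fl b0) = true := by decide +kernel
noncomputable def k256 : KT := (.br (Nat.shiftLeft (nat_lit 0x1800001) (nat_lit 102)) (.br (Nat.shiftLeft (nat_lit 0x3) (nat_lit 124)) (.br (Nat.shiftLeft (nat_lit 0x1) (nat_lit 124)) (.br (Nat.shiftLeft (nat_lit 0x7800004008009) (nat_lit 65)) (.one (nat_lit 0xf000008010011e000010020124411)) (.br (Nat.shiftLeft (nat_lit 0x1) (nat_lit 116)) (.one (nat_lit 0xf000008010012e000010020126411)) (.one (nat_lit 0x100000080100110000010020226411)))) (.br (Nat.shiftLeft (nat_lit 0x1) (nat_lit 125)) (.br (Nat.shiftLeft (nat_lit 0x400001) (nat_lit 102)) (.one (nat_lit 0x10000030080100110006010040422511))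 (.one (nat_lit 0x10000040080100110008010040422511))) (.br (Nat.shiftLeft (nat_lit 0x800001) (nat_lit 102)) (.one (nat_lit 0x20000030080100110006010060822511)) (.one (nat_lit 0x20000040080100110008010060822511))))) (.br (Nat.shiftLeft (nat_lit 0x1000001) (nat_lit 102)) (.br (Nat.shiftLeft (nat_lit 0xc00001) (nat_lit 102)) (.one (nat_lit 0x30000030080100110006010080c22511)) (.br (Nat.shiftLeft (nat_lit 0x1) (nat_lit 126)) (.one (nat_lit 0x30000040080100110008010080c22511)) (.one (nat_lit 0x400000300801001100060100a1022511)))) (.br (Nat.shiftLeft (nat_lit 0x1400001) (nat_lit 102)) (.br (Nat.shiftLeft (nat_lit 0x5) (nat_lit 124)) (.one (nat_lit 0x400000400801001100080100a1022511)) (.one (nat_lit 0x500000300801001100060100c1422511))) (.br (Nat.shiftLeft (nat_lit 0x3) (nat_lit 125)) (.one (nat_lit 0x500000400801001100080100c1422511)) (.one (nat_lit 0x600000300801001100060100e1822511)))))) (.br (Nat.shiftLeft (nat_lit 0x5) (nat_lit 125)) (.br (Nat.shiftLeft (nat_lit 0x1) (nat_lit 127)) (.br (Nat.shiftLeft (nat_lit 0x7)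 (nat_lit 124)) (.one (nat_lit 0x600000400801001100080100e1822511)) (.br (Nat.shiftLeft (nat_lit 0x1c00001) (nat_lit 102)) (.one (nat_lit 0x70000030080100110006010101c22511)) (.one (nat_lit 0x70000040080100110008010101c22511)))) (.br (Nat.shiftLeft (nat_lit 0x9) (nat_lit 124)) (.br (Nat.shiftLeft (nat_lit 0x2000001) (nat_lit 102)) (.one (nat_lit 0x80000030080100110006010122022511)) (.one (nat_lit 0x80000040080100110008010122022511))) (.br (Nat.shiftLeft (nat_lit 0x2400001) (nat_lit 102)) (.one (nat_lit 0x90000030080100110006010142422511)) (.one (nat_lit 0x90000040080100110008010142422511))))) (.br (Nat.shiftLeft (nat_lit 0x2c00001) (nat_lit 102)) (.br (Nat.shiftLeft (nat_lit 0x2800001) (nat_lit 102)) (.one (nat_lit 0xa0000030080100110006010162822511)) (.br (Nat.shiftLeft (nat_lit 0xb) (nat_lit 124)) (.one (nat_lit 0xa0000040080100110008010162822511)) (.one (nat_lit 0xb0000030080100110006010182c22511)))) (.br (Nat.shiftLeft (nat_lit 0x3000001) (nat_lit 102)) (.br (Nat.shiftLeft (nat_lit 0x3) (nat_lit 126)) (.one (nat_lit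 0xb0000040080100110008010182c22511)) (.one (nat_lit 0xc00000300801001100060101a3022511))) (.br (Nat.shiftLeft (nat_lit 0xd) (nat_lit 124)) (.one (nat_lit 0xc00000400801001100080101a3022511)) (.one (nat_lit 0xd00000300801001100060101c3422511)))))))
def t256 : k256.all (jb2 57 fl b0) = true := by decide +kernel
noncomputable def s11 : KT := (.br (nat_lit 0x40080110120008010022024540) (.br (nat_lit 0x30080100110006010020023500) (.br (nat_lit 0x20080100110004010020022540) (.br (nat_lit 0x10080100120002010020024540) k233 (.br (nat_lit 0x10080110120002010022024540) k234 k235)) (.br (nat_lit 0x20080100120004010020024540) k236 (.br (nat_lit 0x20080100140004010020028540) k237 k238))) (.br (nat_lit 0x40080100110008010020023500) (.br (nat_lit 0x30080100120006010020024540) k239 (.br (nat_lit 0x30080100140006010020028540) k240 k241)) (.br (nat_lit 0x40080100120008010020024540) k242 (.br (nat_lit 0x40080100140008010020028540) k243 k244)))) (.br (nat_lit 0x6008010014000c010020028540) (.br (nat_lit 0x5008010014000a010020028540)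 (.br (nat_lit 0x5008010011000a010020022540) k245 (.br (nat_lit 0x5008010012000a010020024540) k246 k247)) (.br (nat_lit 0x5008011012000a010022024540) k248 (.br (nat_lit 0x6008010011000c010020022540) k249 k250))) (.br (nat_lit 0x20030080100114006010020022650) (.br (nat_lit 0x7008010011000e010020022540) k251 (.br (nat_lit 0x10000080110122000010022024411) k252 k253)) (.br (nat_lit 0x6000008010014c000010020028411) k254 (.br (nat_lit 0xe000008011012c000010022126411) k255 k256)))))
noncomputable def u11 : KT := (.br (Nat.shiftLeft (nat_lit 0x8010013) (nat_lit 64)) (.br (Nat.shiftLeft (nat_lit 0x4008009) (nat_lit 65)) (.one (nat_lit 0x80100110000010020022430)) (.one (nat_lit 0x80100120000010020024430))) (.br (Nat.shiftLeft (nat_lit 0x2004005) (nat_lit 66)) (.one (nat_lit 0x80100130000010020026430)) (.br (Nat.shiftLeft (nat_lit 0x8011) (nat_lit 76)) (.one (nat_lit 0x80100140000010020028430)) (.one (nat_lit 0x80110120000010022024430)))))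
def w11 : u11.all (wj 57 s11) = true := by decide +kernel
def o11 : OkW 57 (jb2 57 fl) u11 := .lift s11 _ (.br _ _ _ (.br _ _ _ (.br _ _ _ (.br _ _ _ (.leaf b0 k233 t233) (.br _ _ _ (.leaf b0 k234 t234) (.leaf b0 k235 t235))) (.br _ _ _ (.leaf b0 k236 t236) (.br _ _ _ (.leaf b0 k237 t237) (.leaf b0 k238 t238)))) (.br _ _ _ (.br _ _ _ (.leaf b0 k239 t239) (.br _ _ _ (.leaf b0 k240 t240) (.leaf b0 k241 t241))) (.br _ _ _ (.leaf b0 k242 t242) (.br _ _ _ (.leaf b0 k243 t243) (.leaf b0 k244 t244))))) (.br _ _ _ (.br _ _ _ (.br _ _ _ (.leaf b0 k245 t245) (.br _ _ _ (.leaf b0 k246 t246) (.leaf b0 k247 t247))) (.br _ _ _ (.leaf b0 k248 t248) (.br _ _ _ (.leaf b0 k249 t249) (.leaf b0 k250 t250)))) (.br _ _ _ (.br _ _ _ (.leaf b0 k251 t251) (.br _ _ _ (.leaf b0 k252 t252) (.leaf b0 k253 t253))) (.br _ _ _ (.leaf b0 k254 t254) (.br _ _ _ (.leaf b0 k255 t255) (.leaf b0 k256 t256)))))) w11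
noncomputable def k257 : KT := (.br (Nat.shiftLeft (nat_lit 0x900a01) (nat_lit 68)) (.br (Nat.shiftLeft (nat_lit 0x4805007) (nat_lit 65)) (.br (Nat.shiftLeft (nat_lit 0x9) (nat_lit 88)) (.one (nat_lit 0x80110130000010022027400)) (.one (nat_lit 0x900a00d000001201401b400))) (.br (Nat.shiftLeft (nat_lit 0x900a00f) (nat_lit 64)) (.one (nat_lit 0x900a00e000001201401d400)) (.one (nat_lit 0x900a00f000001201401f400)))) (.br (Nat.shiftLeft (nat_lit 0x4805009) (nat_lit 65)) (.br (Nat.shiftLeft (nat_lit 0x900a011) (nat_lit 64)) (.one (nat_lit 0x900a0100000012014021400)) (.one (nat_lit 0x900a0110000012014023400))) (.br (Nat.shiftLeft (nat_lit 0x900a013) (nat_lit 64)) (.one (nat_lit 0x900a0120000012014025400)) (.br (Nat.shiftLeft (nat_lit 0x1) (nat_lit 100)) (.one (nat_lit 0x900a0130000012014027400)) (.one (nat_lit 0x10080110130002010022026540))))))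
def t257 : k257.all (jb2 57 fl b0) = true := by decide +kernel
noncomputable def k258 : KT := (.one (nat_lit 0x100900a0130002012014026540))
def t258 : k258.all (jb2 57 fl b0) = true := by decide +kernel
noncomputable def k259 : KT := (.br (Nat.shiftLeft (nat_lit 0x3) (nat_lit 100)) (.br (Nat.shiftLeft (nat_lit 0x2009) (nat_lit 88)) (.one (nat_lit 0x20080110130004010022026540)) (.one (nat_lit 0x200900a0130004012014027500))) (.br (Nat.shiftLeft (nat_lit 0x3009) (nat_lit 88)) (.one (nat_lit 0x30080110130006010022026540)) (.one (nat_lit 0x300900a0130006012014027500))))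
def t259 : k259.all (jb2 57 fl b0) = true := by decide +kernel
noncomputable def k260 : KT := (.br (Nat.shiftLeft (nat_lit 0x6009) (nat_lit 88)) (.br (Nat.shiftLeft (nat_lit 0x5) (nat_lit 100)) (.br (Nat.shiftLeft (nat_lit 0x4009) (nat_lit 88)) (.one (nat_lit 0x40080110130008010022026540)) (.one (nat_lit 0x400900a0130008012014027500))) (.br (Nat.shiftLeft (nat_lit 0x5009) (nat_lit 88)) (.one (nat_lit 0x5008011013000a010022026540)) (.br (Nat.shiftLeft (nat_lit 0x3) (nat_lit 101)) (.one (nat_lit 0x500900a013000a012014027500)) (.one (nat_lit 0x6008011013000c010022026540))))) (.br (Nat.shiftLeft (nat_lit 0x1) (nat_lit 103)) (.br (Nat.shiftLeft (nat_lit 0x7) (nat_lit 100)) (.one (nat_lit 0x600900a013000c012014027500)) (.br (Nat.shiftLeft (nat_lit 0x7009) (nat_lit 88)) (.one (nat_lit 0x7008011013000e010022026540)) (.one (nat_lit 0x700900a013000e012014027500)))) (.br (Nat.shiftLeft (nat_lit 0x1) (nat_lit 112)) (.one (nat_lit 0x800900a0130010012014027500)) (.br (Nat.shiftLeft (nat_lit 0x1000009) (nat_lit 88)) (.one (nat_lit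 0x10000080110132000010022026411)) (.one (nat_lit 0x100000900a0132000012014026411))))))
def t260 : k260.all (jb2 57 fl b0) = true := by decide +kernel
noncomputable def k261 : KT := (.one (nat_lit 0x100200900a0132004012014026650))
def t261 : k261.all (jb2 57 fl b0) = true := by decide +kernel
noncomputable def k262 : KT := (.one (nat_lit 0x100300900a0132006012014026650))
def t262 : k262.all (jb2 57 fl b0) = true := by decide +kernel
noncomputable def k263 : KT := (.br (Nat.shiftLeft (nat_lit 0x1005) (nat_lit 100)) (.one (nat_lit 0x100400900a0132008012014026650)) (.one (nat_lit 0x100500900a013200a012014026650)))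
def t263 : k263.all (jb2 57 fl b0) = true := by decide +kernel
noncomputable def k264 : KT := (.br (Nat.shiftLeft (nat_lit 0x201) (nat_lit 103)) (.br (Nat.shiftLeft (nat_lit 0x1007) (nat_lit 100)) (.one (nat_lit 0x100600900a013200c012014026650)) (.one (nat_lit 0x100700900a013200e012014026650))) (.br (Nat.shiftLeft (nat_lit 0x1) (nat_lit 113)) (.one (nat_lit 0x100800900a0132010012014026650)) (.br (Nat.shiftLeft (nat_lit 0x2000009) (nat_lit 88)) (.one (nat_lit 0x20000080110134000010022026411)) (.one (nat_lit 0x200000900a0134000012014026411)))))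
def t264 : k264.all (jb2 57 fl b0) = true := by decide +kernel
noncomputable def k265 : KT := (.one (nat_lit 0x200300900a0134006012014026650))
def t265 : k265.all (jb2 57 fl b0) = true := by decide +kernel
noncomputable def k266 : KT := (.one (nat_lit 0x200400900a0134008012014026650))
def t266 : k266.all (jb2 57 fl b0) = true := by decide +kernel
noncomputable def k267 : KT := (.br (Nat.shiftLeft (nat_lit 0x1003) (nat_lit 101)) (.one (nat_lit 0x200500900a013400a012014026650)) (.one (nat_lit 0x200600900a013400c012014026650)))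
def t267 : k267.all (jb2 57 fl b0) = true := by decide +kernel
noncomputable def k268 : KT := (.br (Nat.shiftLeft (nat_lit 0x3) (nat_lit 112)) (.br (Nat.shiftLeft (nat_lit 0x401) (nat_lit 103)) (.one (nat_lit 0x200700900a013400e012014026650)) (.one (nat_lit 0x200800900a0134010012014026650))) (.br (Nat.shiftLeft (nat_lit 0x3000009) (nat_lit 88)) (.one (nat_lit 0x30000080110136000010022026411)) (.one (nat_lit 0x300000900a0136000012014026411))))
def t268 : k268.all (jb2 57 fl b0) = true := by decide +kernel
noncomputable def k269 : KT := (.one (nat_lit 0x300400900a0136008012014026650))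
def t269 : k269.all (jb2 57 fl b0) = true := by decide +kernel
noncomputable def k270 : KT := (.br (Nat.shiftLeft (nat_lit 0x1803) (nat_lit 101)) (.one (nat_lit 0x300500900a013600a012014026650)) (.one (nat_lit 0x300600900a013600c012014026650)))
def t270 : k270.all (jb2 57 fl b0) = true := by decide +kernel
noncomputable def k271 : KT := (.br (Nat.shiftLeft (nat_lit 0x1) (nat_lit 114)) (.br (Nat.shiftLeft (nat_lit 0x601) (nat_lit 103)) (.one (nat_lit 0x300700900a013600e012014026650)) (.one (nat_lit 0x300800900a0136010012014026650))) (.br (Nat.shiftLeft (nat_lit 0x4000009) (nat_lit 88)) (.one (nat_lit 0x40000080110138000010022026411)) (.one (nat_lit 0x400000900a0138000012014026411))))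
def t271 : k271.all (jb2 57 fl b0) = true := by decide +kernel
noncomputable def k272 : KT := (.br (Nat.shiftLeft (nat_lit 0x2003) (nat_lit 101)) (.one (nat_lit 0x400500900a013800a012014026650)) (.one (nat_lit 0x400600900a013800c012014026650)))
def t272 : k272.all (jb2 57 fl b0) = true := by decide +kernel
noncomputable def k273 : KT := (.br (Nat.shiftLeft (nat_lit 0x5000009) (nat_lit 88)) (.br (Nat.shiftLeft (nat_lit 0x801) (nat_lit 103)) (.one (nat_lit 0x400700900a013800e012014026650)) (.br (Nat.shiftLeft (nat_lit 0x5) (nat_lit 112)) (.one (nat_lit 0x400800900a0138010012014026650)) (.one (nat_lit 0x5000008011013a000010022026411)))) (.br (Nat.shiftLeft (nat_lit 0x1401) (nat_lit 102)) (.one (nat_lit 0x500000900a013a000012014026411)) (.br (Nat.shiftLeft (nat_lit 0x5007) (nat_lit 100)) (.one (nat_lit 0x500600900a013a00c012014026650)) (.one (nat_lit 0x500700900a013a00e012014026650)))))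
def t273 : k273.all (jb2 57 fl b0) = true := by decide +kernel
noncomputable def k274 : KT := (.br (Nat.shiftLeft (nat_lit 0x400001) (nat_lit 102)) (.br (Nat.shiftLeft (nat_lit 0x8000009) (nat_lit 88)) (.br (Nat.shiftLeft (nat_lit 0xc01) (nat_lit 103)) (.br (Nat.shiftLeft (nat_lit 0x6000009) (nat_lit 88)) (.br (Nat.shiftLeft (nat_lit 0x3) (nat_lit 113)) (.one (nat_lit 0x500800900a013a010012014026650)) (.one (nat_lit 0x6000008011013c000010022026411))) (.br (Nat.shiftLeft (nat_lit 0x1801) (nat_lit 102)) (.one (nat_lit 0x600000900a013c000012014026411)) (.one (nat_lit 0x600700900a013c00e012014026650)))) (.br (Nat.shiftLeft (nat_lit 0x7000009) (nat_lit 88)) (.br (Nat.shiftLeft (nat_lit 0x7) (nat_lit 112)) (.one (nat_lit 0x600800900a013c010012014026650)) (.one (nat_lit 0x7000008011013e000010022026411))) (.br (Nat.shiftLeft (nat_lit 0xe01) (nat_lit 103)) (.one (nat_lit 0x700000900a013e000012014026411)) (.br (Nat.shiftLeft (nat_lit 0x1) (nat_lit 115)) (.one (nat_lit 0x700800900a013e010012014026650)) (.one (nat_lit 0x80000080110130000010022128411))))))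 (.br (Nat.shiftLeft (nat_lit 0xb) (nat_lit 112)) (.br (Nat.shiftLeft (nat_lit 0x9000009) (nat_lit 88)) (.br (Nat.shiftLeft (nat_lit 0x9) (nat_lit 112)) (.one (nat_lit 0x800000900a0130000012014128411)) (.one (nat_lit 0x90000080110132000010022128411))) (.br (Nat.shiftLeft (nat_lit 0x5) (nat_lit 113)) (.one (nat_lit 0x900000900a0132000012014128411)) (.br (Nat.shiftLeft (nat_lit 0xa000009) (nat_lit 88)) (.one (nat_lit 0xa0000080110134000010022128411)) (.one (nat_lit 0xa00000900a0134000012014128411))))) (.br (Nat.shiftLeft (nat_lit 0xd) (nat_lit 112)) (.br (Nat.shiftLeft (nat_lit 0x3) (nat_lit 114)) (.one (nat_lit 0xb0000080110136000010022128411)) (.one (nat_lit 0xc0000080110138000010022128411))) (.br (Nat.shiftLeft (nat_lit 0x1) (nat_lit 124)) (.one (nat_lit 0xd000008011013a000010022128411)) (.br (Nat.shiftLeft (nat_lit 0x1000003) (nat_lit 100)) (.one (nat_lit 0x100000200900a0130004012034426511)) (.one (nat_lit 0x100000300900a0130006012034426511))))))) (.br (Nat.shiftLeft (nat_lit 0x1000003) (nat_lit 101)) (.br (Nat.shiftLeft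 (nat_lit 0x200001) (nat_lit 103)) (.br (Nat.shiftLeft (nat_lit 0x800003) (nat_lit 101)) (.br (Nat.shiftLeft (nat_lit 0x1000005) (nat_lit 100)) (.one (nat_lit 0x100000400900a0130008012034426511)) (.one (nat_lit 0x100000500900a013000a012034426511))) (.br (Nat.shiftLeft (nat_lit 0x1000007) (nat_lit 100)) (.one (nat_lit 0x100000600900a013000c012034426511)) (.one (nat_lit 0x100000700900a013000e012034426511)))) (.br (Nat.shiftLeft (nat_lit 0x2000003) (nat_lit 100)) (.br (Nat.shiftLeft (nat_lit 0x1) (nat_lit 125)) (.one (nat_lit 0x100000800900a0130010012034426511)) (.one (nat_lit 0x200000200900a0130004012054826511))) (.br (Nat.shiftLeft (nat_lit 0x800001) (nat_lit 102)) (.one (nat_lit 0x200000300900a0130006012054826511)) (.br (Nat.shiftLeft (nat_lit 0x2000005) (nat_lit 100)) (.one (nat_lit 0x200000400900a0130008012054826511)) (.one (nat_lit 0x200000500900a013000a012054826511)))))) (.br (Nat.shiftLeft (nat_lit 0xc00001) (nat_lit 102)) (.br (Nat.shiftLeft (nat_lit 0x400001) (nat_lit 103)) (.br (Nat.shiftLeft (nat_lit 0x2000007)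 (nat_lit 100)) (.one (nat_lit 0x200000600900a013000c012054826511)) (.one (nat_lit 0x200000700900a013000e012054826511))) (.br (Nat.shiftLeft (nat_lit 0x3) (nat_lit 124)) (.one (nat_lit 0x200000800900a0130010012054826511)) (.br (Nat.shiftLeft (nat_lit 0x3000003) (nat_lit 100)) (.one (nat_lit 0x300000200900a0130004012074c26511)) (.one (nat_lit 0x300000300900a0130006012074c26511))))) (.br (Nat.shiftLeft (nat_lit 0x1800003) (nat_lit 101)) (.br (Nat.shiftLeft (nat_lit 0x3000005) (nat_lit 100)) (.one (nat_lit 0x300000400900a0130008012074c26511)) (.one (nat_lit 0x300000500900a013000a012074c26511))) (.br (Nat.shiftLeft (nat_lit 0x3000007) (nat_lit 100)) (.one (nat_lit 0x300000600900a013000c012074c26511)) (.br (Nat.shiftLeft (nat_lit 0x600001) (nat_lit 103)) (.one (nat_lit 0x300000700900a013000e012074c26511)) (.one (nat_lit 0x300000800900a0130010012074c26511))))))))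
def t274 : k274.all (jb2 57 fl b0) = true := by decide +kernel
noncomputable def k275 : KT := (.br (Nat.shiftLeft (nat_lit 0x800001) (nat_lit 103)) (.br (Nat.shiftLeft (nat_lit 0x4000005) (nat_lit 100)) (.br (Nat.shiftLeft (nat_lit 0x4000003) (nat_lit 100)) (.one (nat_lit 0x400000200900a0130004012095026511)) (.br (Nat.shiftLeft (nat_lit 0x1000001) (nat_lit 102)) (.one (nat_lit 0x400000300900a0130006012095026511)) (.one (nat_lit 0x400000400900a0130008012095026511)))) (.br (Nat.shiftLeft (nat_lit 0x2000003) (nat_lit 101)) (.one (nat_lit 0x400000500900a013000a012095026511)) (.br (Nat.shiftLeft (nat_lit 0x4000007) (nat_lit 100)) (.one (nat_lit 0x400000600900a013000c012095026511)) (.one (nat_lit 0x400000700900a013000e012095026511))))) (.br (Nat.shiftLeft (nat_lit 0x1400001) (nat_lit 102)) (.br (Nat.shiftLeft (nat_lit 0x5) (nat_lit 124)) (.one (nat_lit 0x400000800900a0130010012095026511)) (.br (Nat.shiftLeft (nat_lit 0x5000003) (nat_lit 100)) (.one (nat_lit 0x500000200900a01300040120b5426511)) (.one (nat_lit 0x500000300900a01300060120b5426511))))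 (.br (Nat.shiftLeft (nat_lit 0x5000005) (nat_lit 100)) (.one (nat_lit 0x500000400900a01300080120b5426511)) (.br (Nat.shiftLeft (nat_lit 0x2800003) (nat_lit 101)) (.one (nat_lit 0x500000500900a013000a0120b5426511)) (.one (nat_lit 0x500000600900a013000c0120b5426511))))))
def t275 : k275.all (jb2 57 fl b0) = true := by decide +kernel
noncomputable def k276 : KT := (.br (Nat.shiftLeft (nat_lit 0x1800001) (nat_lit 102)) (.br (Nat.shiftLeft (nat_lit 0x3) (nat_lit 125)) (.br (Nat.shiftLeft (nat_lit 0xa00001) (nat_lit 103)) (.one (nat_lit 0x500000700900a013000e0120b5426511)) (.one (nat_lit 0x500000800900a01300100120b5426511))) (.br (Nat.shiftLeft (nat_lit 0x6000003) (nat_lit 100)) (.one (nat_lit 0x600000200900a01300040120d5826511)) (.one (nat_lit 0x600000300900a01300060120d5826511)))) (.br (Nat.shiftLeft (nat_lit 0x3000003) (nat_lit 101)) (.br (Nat.shiftLeft (nat_lit 0x6000005) (nat_lit 100)) (.one (nat_lit 0x600000400900a01300080120d5826511)) (.one (nat_lit 0x600000500900a013000a0120d5826511))) (.br (Nat.shiftLeft (nat_lit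 0x6000007) (nat_lit 100)) (.one (nat_lit 0x600000600900a013000c0120d5826511)) (.br (Nat.shiftLeft (nat_lit 0xc00001) (nat_lit 103)) (.one (nat_lit 0x600000700900a013000e0120d5826511)) (.one (nat_lit 0x600000800900a01300100120d5826511))))))
def t276 : k276.all (jb2 57 fl b0) = true := by decide +kernel
noncomputable def k277 : KT := (.br (Nat.shiftLeft (nat_lit 0x7000007) (nat_lit 100)) (.br (Nat.shiftLeft (nat_lit 0x1c00001) (nat_lit 102)) (.br (Nat.shiftLeft (nat_lit 0x7000003) (nat_lit 100)) (.one (nat_lit 0x700000200900a01300040120f5c26511)) (.one (nat_lit 0x700000300900a01300060120f5c26511))) (.br (Nat.shiftLeft (nat_lit 0x7000005) (nat_lit 100)) (.one (nat_lit 0x700000400900a01300080120f5c26511)) (.br (Nat.shiftLeft (nat_lit 0x3800003) (nat_lit 101)) (.one (nat_lit 0x700000500900a013000a0120f5c26511)) (.one (nat_lit 0x700000600900a013000c0120f5c26511))))) (.br (Nat.shiftLeft (nat_lit 0x1) (nat_lit 127)) (.br (Nat.shiftLeft (nat_lit 0xe00001) (nat_lit 103)) (.one (nat_lit 0x700000700900a013000e0120f5c26511))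 (.one (nat_lit 0x700000800900a01300100120f5c26511))) (.br (Nat.shiftLeft (nat_lit 0x8000003) (nat_lit 100)) (.one (nat_lit 0x800000200900a0130004012116026511)) (.br (Nat.shiftLeft (nat_lit 0x2000001) (nat_lit 102)) (.one (nat_lit 0x800000300900a0130006012116026511)) (.one (nat_lit 0x800000400900a0130008012116026511))))))
def t277 : k277.all (jb2 57 fl b0) = true := by decide +kernel
noncomputable def k278 : KT := (.br (Nat.shiftLeft (nat_lit 0x9000007) (nat_lit 100)) (.br (Nat.shiftLeft (nat_lit 0x9) (nat_lit 124)) (.br (Nat.shiftLeft (nat_lit 0x8000007) (nat_lit 100)) (.br (Nat.shiftLeft (nat_lit 0x4000003) (nat_lit 101)) (.one (nat_lit 0x800000500900a013000a012116026511)) (.one (nat_lit 0x800000600900a013000c012116026511))) (.br (Nat.shiftLeft (nat_lit 0x1000001) (nat_lit 103)) (.one (nat_lit 0x800000700900a013000e012116026511)) (.one (nat_lit 0x800000800900a0130010012116026511)))) (.br (Nat.shiftLeft (nat_lit 0x2400001) (nat_lit 102)) (.br (Nat.shiftLeft (nat_lit 0x9000003) (nat_lit 100)) (.one (nat_lit 0x900000200900a0130004012136426511))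 (.one (nat_lit 0x900000300900a0130006012136426511))) (.br (Nat.shiftLeft (nat_lit 0x9000005) (nat_lit 100)) (.one (nat_lit 0x900000400900a0130008012136426511)) (.br (Nat.shiftLeft (nat_lit 0x4800003) (nat_lit 101)) (.one (nat_lit 0x900000500900a013000a012136426511)) (.one (nat_lit 0x900000600900a013000c012136426511)))))) (.br (Nat.shiftLeft (nat_lit 0x2800001) (nat_lit 102)) (.br (Nat.shiftLeft (nat_lit 0x5) (nat_lit 125)) (.br (Nat.shiftLeft (nat_lit 0x1200001) (nat_lit 103)) (.one (nat_lit 0x900000700900a013000e012136426511)) (.one (nat_lit 0x900000800900a0130010012136426511))) (.br (Nat.shiftLeft (nat_lit 0xa000003) (nat_lit 100)) (.one (nat_lit 0xa00000200900a0130004012156826511)) (.one (nat_lit 0xa00000300900a0130006012156826511)))) (.br (Nat.shiftLeft (nat_lit 0x5000003) (nat_lit 101)) (.br (Nat.shiftLeft (nat_lit 0xa000005) (nat_lit 100)) (.one (nat_lit 0xa00000400900a0130008012156826511)) (.one (nat_lit 0xa00000500900a013000a012156826511))) (.br (Nat.shiftLeft (nat_lit 0xa000007) (nat_lit 100)) (.one (nat_lit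 0xa00000600900a013000c012156826511)) (.br (Nat.shiftLeft (nat_lit 0x1400001) (nat_lit 103)) (.one (nat_lit 0xa00000700900a013000e012156826511)) (.one (nat_lit 0xa00000800900a0130010012156826511)))))))
def t278 : k278.all (jb2 57 fl b0) = true := by decide +kernel
noncomputable def s12 : KT := (.br (nat_lit 0x200600900a013400c012014026650) (.br (nat_lit 0x100200900a0132004012014026650) (.br (nat_lit 0x100900a0130002012014026540) (.br (nat_lit 0x10080110130002010022026540) k257 k258) (.br (nat_lit 0x300900a0130006012014027500) k259 (.br (nat_lit 0x100000900a0132000012014026411) k260 k261))) (.br (nat_lit 0x200000900a0134000012014026411) (.br (nat_lit 0x100300900a0132006012014026650) k262 (.br (nat_lit 0x100500900a013200a012014026650) k263 k264)) (.br (nat_lit 0x200300900a0134006012014026650) k265 (.br (nat_lit 0x200400900a0134008012014026650) k266 k267)))) (.br (nat_lit 0x400600900a013800c012014026650) (.br (nat_lit 0x300400900a0136008012014026650) (.br (nat_lit 0x300000900a0136000012014026411) k268 k269) (.br (nat_lit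 0x300600900a013600c012014026650) k270 (.br (nat_lit 0x400000900a0138000012014026411) k271 k272))) (.br (nat_lit 0x500000600900a013000c0120b5426511) (.br (nat_lit 0x500700900a013a00e012014026650) k273 (.br (nat_lit 0x300000800900a0130010012074c26511) k274 k275)) (.br (nat_lit 0x600000800900a01300100120d5826511) k276 (.br (nat_lit 0x800000400900a0130008012116026511) k277 k278)))))
noncomputable def u12 : KT := (.br (Nat.shiftLeft (nat_lit 0x900a01) (nat_lit 68)) (.br (Nat.shiftLeft (nat_lit 0x4805007) (nat_lit 65)) (.br (Nat.shiftLeft (nat_lit 0x9) (nat_lit 88)) (.one (nat_lit 0x80110130000010022026430)) (.one (nat_lit 0x900a00d000001201401b400))) (.br (Nat.shiftLeft (nat_lit 0x900a00f) (nat_lit 64)) (.one (nat_lit 0x900a00e000001201401d400)) (.one (nat_lit 0x900a00f000001201401f400)))) (.br (Nat.shiftLeft (nat_lit 0x4805009) (nat_lit 65)) (.br (Nat.shiftLeft (nat_lit 0x900a011) (nat_lit 64)) (.one (nat_lit 0x900a0100000012014021400)) (.one (nat_lit 0x900a0110000012014023400))) (.br (Nat.shiftLeft (nat_lit 0x900a013)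 (nat_lit 64)) (.one (nat_lit 0x900a0120000012014025400)) (.one (nat_lit 0x900a0130000012014026430)))))
def w12 : u12.all (wj 57 s12) = true := by decide +kernel
def o12 : OkW 57 (jb2 57 fl) u12 := .lift s12 _ (.br _ _ _ (.br _ _ _ (.br _ _ _ (.br _ _ _ (.leaf b0 k257 t257) (.leaf b0 k258 t258)) (.br _ _ _ (.leaf b0 k259 t259) (.br _ _ _ (.leaf b0 k260 t260) (.leaf b0 k261 t261)))) (.br _ _ _ (.br _ _ _ (.leaf b0 k262 t262) (.br _ _ _ (.leaf b0 k263 t263) (.leaf b0 k264 t264))) (.br _ _ _ (.leaf b0 k265 t265) (.br _ _ _ (.leaf b0 k266 t266) (.leaf b0 k267 t267))))) (.br _ _ _ (.br _ _ _ (.br _ _ _ (.leaf b0 k268 t268) (.leaf b0 k269 t269)) (.br _ _ _ (.leaf b0 k270 t270) (.br _ _ _ (.leaf b0 k271 t271) (.leaf b0 k272 t272)))) (.br _ _ _ (.br _ _ _ (.leaf b0 k273 t273) (.br _ _ _ (.leaf b0 k274 t274) (.leaf b0 k275 t275))) (.br _ _ _ (.leaf b0 k276 t276) (.br _ _ _ (.leaf b0 k277 t277) (.leaf b0 k278 t278)))))) w12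
noncomputable def k279 : KT := (.br (Nat.shiftLeft (nat_lit 0x900a015) (nat_lit 64)) (.one (nat_lit 0x900a0140000012014029400)) (.br (Nat.shiftLeft (nat_lit 0x1) (nat_lit 100)) (.one (nat_lit 0x900a015000001201402b400)) (.one (nat_lit 0x100900a0140002012014028540))))
def t279 : k279.all (jb2 57 fl b0) = true := by decide +kernel
noncomputable def k280 : KT := (.br (Nat.shiftLeft (nat_lit 0x400900a015) (nat_lit 64)) (.br (Nat.shiftLeft (nat_lit 0x3) (nat_lit 100)) (.br (Nat.shiftLeft (nat_lit 0x1) (nat_lit 101)) (.one (nat_lit 0x100900a015000201201402a540)) (.br (Nat.shiftLeft (nat_lit 0x200900a015) (nat_lit 64)) (.one (nat_lit 0x200900a0140004012014029500)) (.one (nat_lit 0x200900a015000401201402b500)))) (.br (Nat.shiftLeft (nat_lit 0x300900a015) (nat_lit 64)) (.one (nat_lit 0x300900a0140006012014029500)) (.br (Nat.shiftLeft (nat_lit 0x1) (nat_lit 102)) (.one (nat_lit 0x300900a015000601201402b500)) (.one (nat_lit 0x400900a0140008012014029500))))) (.br (Nat.shiftLeft (nat_lit 0x3) (nat_lit 101)) (.br (Nat.shiftLeft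 (nat_lit 0x5) (nat_lit 100)) (.one (nat_lit 0x400900a015000801201402b500)) (.br (Nat.shiftLeft (nat_lit 0x500900a015) (nat_lit 64)) (.one (nat_lit 0x500900a014000a012014029500)) (.one (nat_lit 0x500900a015000a01201402b500)))) (.br (Nat.shiftLeft (nat_lit 0x600900a015) (nat_lit 64)) (.one (nat_lit 0x600900a014000c012014029500)) (.br (Nat.shiftLeft (nat_lit 0x7) (nat_lit 100)) (.one (nat_lit 0x600900a015000c01201402b500)) (.one (nat_lit 0x700900a014000e012014029500))))))
def t280 : k280.all (jb2 57 fl b0) = true := by decide +kernel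
noncomputable def k281 : KT := (.one (nat_lit 0x700900a015000e01201402a540))
def t281 : k281.all (jb2 57 fl b0) = true := by decide +kernel
noncomputable def k282 : KT := (.one (nat_lit 0x800900a0140010012014028540))
def t282 : k282.all (jb2 57 fl b0) = true := by decide +kernel
noncomputable def k283 : KT := (.br (Nat.shiftLeft (nat_lit 0x1) (nat_lit 112)) (.one (nat_lit 0x800900a015001001201402a540)) (.br (Nat.shiftLeft (nat_lit 0x100000900a015) (nat_lit 64)) (.one (nat_lit 0x100000900a0142000012014028411)) (.one (nat_lit 0x100000900a015200001201402a411))))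
def t283 : k283.all (jb2 57 fl b0) = true := by decide +kernel
noncomputable def k284 : KT := (.one (nat_lit 0x100200900a0142004012014028650))
def t284 : k284.all (jb2 57 fl b0) = true := by decide +kernel
noncomputable def k285 : KT := (.one (nat_lit 0x100200900a015200401201402a650))
def t285 : k285.all (jb2 57 fl b0) = true := by decide +kernel
noncomputable def k286 : KT := (.br (Nat.shiftLeft (nat_lit 0x100300900a015) (nat_lit 64)) (.one (nat_lit 0x100300900a0142006012014028650)) (.one (nat_lit 0x100300900a015200601201402a650)))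
def t286 : k286.all (jb2 57 fl b0) = true := by decide +kernel
noncomputable def k287 : KT := (.br (Nat.shiftLeft (nat_lit 0x100400900a015) (nat_lit 64)) (.one (nat_lit 0x100400900a0142008012014028650)) (.one (nat_lit 0x100400900a015200801201402a650)))
def t287 : k287.all (jb2 57 fl b0) = true := by decide +kernel
noncomputable def k288 : KT := (.br (Nat.shiftLeft (nat_lit 0x803) (nat_lit 101)) (.br (Nat.shiftLeft (nat_lit 0x100500900a015) (nat_lit 64)) (.one (nat_lit 0x100500900a014200a012014028650)) (.one (nat_lit 0x100500900a015200a01201402a650))) (.br (Nat.shiftLeft (nat_lit 0x100600900a015) (nat_lit 64)) (.one (nat_lit 0x100600900a014200c012014028650)) (.one (nat_lit 0x100600900a015200c01201402a650))))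
def t288 : k288.all (jb2 57 fl b0) = true := by decide +kernel
noncomputable def k289 : KT := (.br (Nat.shiftLeft (nat_lit 0x200000900a015) (nat_lit 64)) (.br (Nat.shiftLeft (nat_lit 0x1) (nat_lit 113)) (.one (nat_lit 0x100700900a014200e012014028650)) (.one (nat_lit 0x200000900a0144000012014028411))) (.br (Nat.shiftLeft (nat_lit 0x1001) (nat_lit 101)) (.one (nat_lit 0x200000900a015400001201402a411)) (.one (nat_lit 0x200300900a0144006012014028650))))
def t289 : k289.all (jb2 57 fl b0) = true := by decide +kernel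
noncomputable def k290 : KT := (.one (nat_lit 0x200300900a015400601201402a650))
def t290 : k290.all (jb2 57 fl b0) = true := by decide +kernel
noncomputable def k291 : KT := (.br (Nat.shiftLeft (nat_lit 0x200400900a015) (nat_lit 64)) (.one (nat_lit 0x200400900a0144008012014028650)) (.one (nat_lit 0x200400900a015400801201402a650)))
def t291 : k291.all (jb2 57 fl b0) = true := by decide +kernel
noncomputable def k292 : KT := (.br (Nat.shiftLeft (nat_lit 0x200500900a015) (nat_lit 64)) (.one (nat_lit 0x200500900a014400a012014028650)) (.br (Nat.shiftLeft (nat_lit 0x1003) (nat_lit 101)) (.one (nat_lit 0x200500900a015400a01201402a650)) (.one (nat_lit 0x200600900a014400c012014028650))))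
def t292 : k292.all (jb2 57 fl b0) = true := by decide +kernel
noncomputable def k293 : KT := (.br (Nat.shiftLeft (nat_lit 0x3) (nat_lit 112)) (.br (Nat.shiftLeft (nat_lit 0x2007) (nat_lit 100)) (.one (nat_lit 0x200600900a015400c01201402a650)) (.one (nat_lit 0x200700900a014400e012014028650))) (.br (Nat.shiftLeft (nat_lit 0x300000900a015) (nat_lit 64)) (.one (nat_lit 0x300000900a0146000012014028411)) (.br (Nat.shiftLeft (nat_lit 0xc01) (nat_lit 102)) (.one (nat_lit 0x300000900a015600001201402a411)) (.one (nat_lit 0x300400900a0146008012014028650)))))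
def t293 : k293.all (jb2 57 fl b0) = true := by decide +kernel
noncomputable def k294 : KT := (.br (Nat.shiftLeft (nat_lit 0x3005) (nat_lit 100)) (.one (nat_lit 0x300400900a015600801201402a650)) (.one (nat_lit 0x300500900a014600a012014028650)))
def t294 : k294.all (jb2 57 fl b0) = true := by decide +kernel
noncomputable def k295 : KT := (.br (Nat.shiftLeft (nat_lit 0x3007) (nat_lit 100)) (.br (Nat.shiftLeft (nat_lit 0x1803) (nat_lit 101)) (.one (nat_lit 0x300500900a015600a01201402a650)) (.br (Nat.shiftLeft (nat_lit 0x300600900a015) (nat_lit 64)) (.one (nat_lit 0x300600900a014600c012014028650)) (.one (nat_lit 0x300600900a015600c01201402a650)))) (.br (Nat.shiftLeft (nat_lit 0x1) (nat_lit 114)) (.one (nat_lit 0x300700900a014600e012014028650)) (.br (Nat.shiftLeft (nat_lit 0x400000900a015) (nat_lit 64)) (.one (nat_lit 0x400000900a0148000012014028411)) (.one (nat_lit 0x400000900a015800001201402a411)))))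
def t295 : k295.all (jb2 57 fl b0) = true := by decide +kernel
noncomputable def k296 : KT := (.br (Nat.shiftLeft (nat_lit 0x400500900a015) (nat_lit 64)) (.one (nat_lit 0x400500900a014800a012014028650)) (.br (Nat.shiftLeft (nat_lit 0x2003) (nat_lit 101)) (.one (nat_lit 0x400500900a015800a01201402a650)) (.one (nat_lit 0x400600900a014800c012014028650))))
def t296 : k296.all (jb2 57 fl b0) = true := by decide +kernel
noncomputable def k297 : KT := (.br (Nat.shiftLeft (nat_lit 0x500600900a015) (nat_lit 64)) (.br (Nat.shiftLeft (nat_lit 0x5) (nat_lit 112)) (.br (Nat.shiftLeft (nat_lit 0x4007) (nat_lit 100)) (.one (nat_lit 0x400600900a015800c01201402a650)) (.one (nat_lit 0x400700900a014800e012014028650))) (.br (Nat.shiftLeft (nat_lit 0x500000900a015) (nat_lit 64)) (.one (nat_lit 0x500000900a014a000012014028411)) (.br (Nat.shiftLeft (nat_lit 0x1401) (nat_lit 102)) (.one (nat_lit 0x500000900a015a00001201402a411)) (.one (nat_lit 0x500600900a014a00c012014028650))))) (.br (Nat.shiftLeft (nat_lit 0x3) (nat_lit 113)) (.br (Nat.shiftLeft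 (nat_lit 0x5007) (nat_lit 100)) (.one (nat_lit 0x500600900a015a00c01201402a650)) (.one (nat_lit 0x500700900a014a00e012014028650))) (.br (Nat.shiftLeft (nat_lit 0x600000900a015) (nat_lit 64)) (.one (nat_lit 0x600000900a014c000012014028411)) (.br (Nat.shiftLeft (nat_lit 0x1801) (nat_lit 102)) (.one (nat_lit 0x600000900a015c00001201402a411)) (.one (nat_lit 0x600700900a014c00e012014028650))))))
def t297 : k297.all (jb2 57 fl b0) = true := by decide +kernel
noncomputable def k298 : KT := (.br (Nat.shiftLeft (nat_lit 0x200000200900a015) (nat_lit 64)) (.br (Nat.shiftLeft (nat_lit 0x1000003) (nat_lit 100)) (.br (Nat.shiftLeft (nat_lit 0x900000900a015) (nat_lit 64)) (.br (Nat.shiftLeft (nat_lit 0x1) (nat_lit 115)) (.br (Nat.shiftLeft (nat_lit 0x700000900a015) (nat_lit 64)) (.one (nat_lit 0x700000900a014e000012014028411)) (.one (nat_lit 0x700000900a015e00001201402a411))) (.br (Nat.shiftLeft (nat_lit 0x800000900a015) (nat_lit 64)) (.one (nat_lit 0x800000900a014000001201412a411)) (.br (Nat.shiftLeft (nat_lit 0x9) (nat_lit 112))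 (.one (nat_lit 0x800000900a015000001201412c411)) (.one (nat_lit 0x900000900a014200001201412a411))))) (.br (Nat.shiftLeft (nat_lit 0xa00000900a015) (nat_lit 64)) (.br (Nat.shiftLeft (nat_lit 0x5) (nat_lit 113)) (.one (nat_lit 0x900000900a015200001201412c411)) (.one (nat_lit 0xa00000900a014400001201412a411))) (.br (Nat.shiftLeft (nat_lit 0x1) (nat_lit 124)) (.one (nat_lit 0xa00000900a015400001201412c411)) (.br (Nat.shiftLeft (nat_lit 0x100000200900a015) (nat_lit 64)) (.one (nat_lit 0x100000200900a0140004012034428511)) (.one (nat_lit 0x100000200900a015000401203442a511)))))) (.br (Nat.shiftLeft (nat_lit 0x100000500900a015) (nat_lit 64)) (.br (Nat.shiftLeft (nat_lit 0x400001) (nat_lit 102)) (.br (Nat.shiftLeft (nat_lit 0x100000300900a015) (nat_lit 64)) (.one (nat_lit 0x100000300900a0140006012034428511)) (.one (nat_lit 0x100000300900a015000601203442a511))) (.br (Nat.shiftLeft (nat_lit 0x100000400900a015) (nat_lit 64)) (.one (nat_lit 0x100000400900a0140008012034428511)) (.br (Nat.shiftLeft (nat_lit 0x1000005) (nat_lit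 100)) (.one (nat_lit 0x100000400900a015000801203442a511)) (.one (nat_lit 0x100000500900a014000a012034428511))))) (.br (Nat.shiftLeft (nat_lit 0x100000600900a015) (nat_lit 64)) (.br (Nat.shiftLeft (nat_lit 0x800003) (nat_lit 101)) (.one (nat_lit 0x100000500900a015000a01203442a511)) (.one (nat_lit 0x100000600900a014000c012034428511))) (.br (Nat.shiftLeft (nat_lit 0x1000007) (nat_lit 100)) (.one (nat_lit 0x100000600900a015000c01203442a511)) (.br (Nat.shiftLeft (nat_lit 0x1) (nat_lit 125)) (.one (nat_lit 0x100000700900a014000e012034428511)) (.one (nat_lit 0x200000200900a0140004012054828511))))))) (.br (Nat.shiftLeft (nat_lit 0x3) (nat_lit 124)) (.br (Nat.shiftLeft (nat_lit 0x2000005) (nat_lit 100)) (.br (Nat.shiftLeft (nat_lit 0x200000300900a015) (nat_lit 64)) (.br (Nat.shiftLeft (nat_lit 0x2000003) (nat_lit 100)) (.one (nat_lit 0x200000200900a015000401205482a511)) (.one (nat_lit 0x200000300900a0140006012054828511))) (.br (Nat.shiftLeft (nat_lit 0x800001) (nat_lit 102)) (.one (nat_lit 0x200000300900a015000601205482a511))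 (.br (Nat.shiftLeft (nat_lit 0x200000400900a015) (nat_lit 64)) (.one (nat_lit 0x200000400900a0140008012054828511)) (.one (nat_lit 0x200000400900a015000801205482a511))))) (.br (Nat.shiftLeft (nat_lit 0x1000003) (nat_lit 101)) (.br (Nat.shiftLeft (nat_lit 0x200000500900a015) (nat_lit 64)) (.one (nat_lit 0x200000500900a014000a012054828511)) (.one (nat_lit 0x200000500900a015000a01205482a511))) (.br (Nat.shiftLeft (nat_lit 0x200000600900a015) (nat_lit 64)) (.one (nat_lit 0x200000600900a014000c012054828511)) (.br (Nat.shiftLeft (nat_lit 0x2000007) (nat_lit 100)) (.one (nat_lit 0x200000600900a015000c01205482a511)) (.one (nat_lit 0x200000700900a014000e012054828511)))))) (.br (Nat.shiftLeft (nat_lit 0x300000400900a015) (nat_lit 64)) (.br (Nat.shiftLeft (nat_lit 0x3000003) (nat_lit 100)) (.br (Nat.shiftLeft (nat_lit 0x300000200900a015) (nat_lit 64)) (.one (nat_lit 0x300000200900a0140004012074c28511)) (.one (nat_lit 0x300000200900a0150004012074c2a511))) (.br (Nat.shiftLeft (nat_lit 0x300000300900a015) (nat_lit 64)) (.one (nat_lit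 0x300000300900a0140006012074c28511)) (.br (Nat.shiftLeft (nat_lit 0xc00001) (nat_lit 102)) (.one (nat_lit 0x300000300900a0150006012074c2a511)) (.one (nat_lit 0x300000400900a0140008012074c28511))))) (.br (Nat.shiftLeft (nat_lit 0x300000500900a015) (nat_lit 64)) (.br (Nat.shiftLeft (nat_lit 0x3000005) (nat_lit 100)) (.one (nat_lit 0x300000400900a0150008012074c2a511)) (.one (nat_lit 0x300000500900a014000a012074c28511))) (.br (Nat.shiftLeft (nat_lit 0x1800003) (nat_lit 101)) (.one (nat_lit 0x300000500900a015000a012074c2a511)) (.br (Nat.shiftLeft (nat_lit 0x300000600900a015) (nat_lit 64)) (.one (nat_lit 0x300000600900a014000c012074c28511)) (.one (nat_lit 0x300000600900a015000c012074c2a511))))))))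
def t298 : k298.all (jb2 57 fl b0) = true := by decide +kernel
noncomputable def k299 : KT := (.br (Nat.shiftLeft (nat_lit 0x4000005) (nat_lit 100)) (.br (Nat.shiftLeft (nat_lit 0x4000003) (nat_lit 100)) (.br (Nat.shiftLeft (nat_lit 0x1) (nat_lit 126)) (.one (nat_lit 0x300000700900a014000e012074c28511)) (.br (Nat.shiftLeft (nat_lit 0x400000200900a015) (nat_lit 64)) (.one (nat_lit 0x400000200900a0140004012095028511)) (.one (nat_lit 0x400000200900a015000401209502a511)))) (.br (Nat.shiftLeft (nat_lit 0x1000001) (nat_lit 102)) (.br (Nat.shiftLeft (nat_lit 0x400000300900a015) (nat_lit 64)) (.one (nat_lit 0x400000300900a0140006012095028511)) (.one (nat_lit 0x400000300900a015000601209502a511))) (.br (Nat.shiftLeft (nat_lit 0x400000400900a015) (nat_lit 64)) (.one (nat_lit 0x400000400900a0140008012095028511)) (.one (nat_lit 0x400000400900a015000801209502a511))))) (.br (Nat.shiftLeft (nat_lit 0x4000007) (nat_lit 100)) (.br (Nat.shiftLeft (nat_lit 0x2000003) (nat_lit 101)) (.br (Nat.shiftLeft (nat_lit 0x400000500900a015) (nat_lit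 64)) (.one (nat_lit 0x400000500900a014000a012095028511)) (.one (nat_lit 0x400000500900a015000a01209502a511))) (.br (Nat.shiftLeft (nat_lit 0x400000600900a015) (nat_lit 64)) (.one (nat_lit 0x400000600900a014000c012095028511)) (.one (nat_lit 0x400000600900a015000c01209502a511)))) (.br (Nat.shiftLeft (nat_lit 0x500000200900a015) (nat_lit 64)) (.br (Nat.shiftLeft (nat_lit 0x5) (nat_lit 124)) (.one (nat_lit 0x400000700900a014000e012095028511)) (.one (nat_lit 0x500000200900a01400040120b5428511))) (.br (Nat.shiftLeft (nat_lit 0x5000003) (nat_lit 100)) (.one (nat_lit 0x500000200900a01500040120b542a511)) (.one (nat_lit 0x500000300900a01400060120b5428511))))))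
def t299 : k299.all (jb2 57 fl b0) = true := by decide +kernel
noncomputable def k300 : KT := (.br (Nat.shiftLeft (nat_lit 0x2800003) (nat_lit 101)) (.br (Nat.shiftLeft (nat_lit 0x500000400900a015) (nat_lit 64)) (.br (Nat.shiftLeft (nat_lit 0x1400001) (nat_lit 102)) (.one (nat_lit 0x500000300900a01500060120b542a511)) (.one (nat_lit 0x500000400900a01400080120b5428511))) (.br (Nat.shiftLeft (nat_lit 0x5000005) (nat_lit 100)) (.one (nat_lit 0x500000400900a01500080120b542a511)) (.br (Nat.shiftLeft (nat_lit 0x500000500900a015) (nat_lit 64)) (.one (nat_lit 0x500000500900a014000a0120b5428511)) (.one (nat_lit 0x500000500900a015000a0120b542a511))))) (.br (Nat.shiftLeft (nat_lit 0x3) (nat_lit 125)) (.br (Nat.shiftLeft (nat_lit 0x500000600900a015) (nat_lit 64)) (.one (nat_lit 0x500000600900a014000c0120b5428511)) (.br (Nat.shiftLeft (nat_lit 0x5000007) (nat_lit 100)) (.one (nat_lit 0x500000600900a015000c0120b542a511)) (.one (nat_lit 0x500000700900a014000e0120b5428511)))) (.br (Nat.shiftLeft (nat_lit 0x600000200900a015) (nat_lit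 64)) (.one (nat_lit 0x600000200900a01400040120d5828511)) (.br (Nat.shiftLeft (nat_lit 0x6000003) (nat_lit 100)) (.one (nat_lit 0x600000200900a01500040120d582a511)) (.one (nat_lit 0x600000300900a01400060120d5828511))))))
def t300 : k300.all (jb2 57 fl b0) = true := by decide +kernel
noncomputable def k301 : KT := (.br (Nat.shiftLeft (nat_lit 0x600000600900a015) (nat_lit 64)) (.br (Nat.shiftLeft (nat_lit 0x6000005) (nat_lit 100)) (.br (Nat.shiftLeft (nat_lit 0x1800001) (nat_lit 102)) (.one (nat_lit 0x600000300900a01500060120d582a511)) (.br (Nat.shiftLeft (nat_lit 0x600000400900a015) (nat_lit 64)) (.one (nat_lit 0x600000400900a01400080120d5828511)) (.one (nat_lit 0x600000400900a01500080120d582a511)))) (.br (Nat.shiftLeft (nat_lit 0x600000500900a015) (nat_lit 64)) (.one (nat_lit 0x600000500900a014000a0120d5828511)) (.br (Nat.shiftLeft (nat_lit 0x3000003) (nat_lit 101)) (.one (nat_lit 0x600000500900a015000a0120d582a511)) (.one (nat_lit 0x600000600900a014000c0120d5828511))))) (.br (Nat.shiftLeft (nat_lit 0x700000200900a015)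 (nat_lit 64)) (.br (Nat.shiftLeft (nat_lit 0x6000007) (nat_lit 100)) (.one (nat_lit 0x600000600900a015000c0120d582a511)) (.br (Nat.shiftLeft (nat_lit 0x7) (nat_lit 124)) (.one (nat_lit 0x600000700900a014000e0120d5828511)) (.one (nat_lit 0x700000200900a01400040120f5c28511)))) (.br (Nat.shiftLeft (nat_lit 0x7000003) (nat_lit 100)) (.one (nat_lit 0x700000200900a01500040120f5c2a511)) (.br (Nat.shiftLeft (nat_lit 0x700000300900a015) (nat_lit 64)) (.one (nat_lit 0x700000300900a01400060120f5c28511)) (.one (nat_lit 0x700000300900a01500060120f5c2a511))))))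
def t301 : k301.all (jb2 57 fl b0) = true := by decide +kernel
noncomputable def k302 : KT := (.br (Nat.shiftLeft (nat_lit 0x800000300900a015) (nat_lit 64)) (.br (Nat.shiftLeft (nat_lit 0x700000600900a015) (nat_lit 64)) (.br (Nat.shiftLeft (nat_lit 0x7000005) (nat_lit 100)) (.br (Nat.shiftLeft (nat_lit 0x700000400900a015) (nat_lit 64)) (.one (nat_lit 0x700000400900a01400080120f5c28511)) (.one (nat_lit 0x700000400900a01500080120f5c2a511))) (.br (Nat.shiftLeft (nat_lit 0x700000500900a015) (nat_lit 64)) (.one (nat_lit 0x700000500900a014000a0120f5c28511)) (.br (Nat.shiftLeft (nat_lit 0x3800003) (nat_lit 101)) (.one (nat_lit 0x700000500900a015000a0120f5c2a511)) (.one (nat_lit 0x700000600900a014000c0120f5c28511))))) (.br (Nat.shiftLeft (nat_lit 0x1) (nat_lit 127)) (.br (Nat.shiftLeft (nat_lit 0x7000007) (nat_lit 100)) (.one (nat_lit 0x700000600900a015000c0120f5c2a511)) (.one (nat_lit 0x700000700900a014000e0120f5c28511))) (.br (Nat.shiftLeft (nat_lit 0x800000200900a015) (nat_lit 64)) (.one (nat_lit 0x800000200900a0140004012116028511))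 (.br (Nat.shiftLeft (nat_lit 0x8000003) (nat_lit 100)) (.one (nat_lit 0x800000200900a015000401211602a511)) (.one (nat_lit 0x800000300900a0140006012116028511)))))) (.br (Nat.shiftLeft (nat_lit 0x4000003) (nat_lit 101)) (.br (Nat.shiftLeft (nat_lit 0x800000400900a015) (nat_lit 64)) (.br (Nat.shiftLeft (nat_lit 0x2000001) (nat_lit 102)) (.one (nat_lit 0x800000300900a015000601211602a511)) (.one (nat_lit 0x800000400900a0140008012116028511))) (.br (Nat.shiftLeft (nat_lit 0x8000005) (nat_lit 100)) (.one (nat_lit 0x800000400900a015000801211602a511)) (.br (Nat.shiftLeft (nat_lit 0x800000500900a015) (nat_lit 64)) (.one (nat_lit 0x800000500900a014000a012116028511)) (.one (nat_lit 0x800000500900a015000a01211602a511))))) (.br (Nat.shiftLeft (nat_lit 0x8000007) (nat_lit 100)) (.br (Nat.shiftLeft (nat_lit 0x800000600900a015) (nat_lit 64)) (.one (nat_lit 0x800000600900a014000c012116028511)) (.one (nat_lit 0x800000600900a015000c01211602a511))) (.br (Nat.shiftLeft (nat_lit 0x9) (nat_lit 124)) (.one (nat_lit 0x800000700900a014000e012116028511))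 (.br (Nat.shiftLeft (nat_lit 0x900000200900a015) (nat_lit 64)) (.one (nat_lit 0x900000200900a0140004012136428511)) (.one (nat_lit 0x900000200900a015000401213642a511)))))))
def t302 : k302.all (jb2 57 fl b0) = true := by decide +kernel
noncomputable def k303 : KT := (.br (Nat.shiftLeft (nat_lit 0xa00000200900a015) (nat_lit 64)) (.br (Nat.shiftLeft (nat_lit 0x900000500900a015) (nat_lit 64)) (.br (Nat.shiftLeft (nat_lit 0x2400001) (nat_lit 102)) (.br (Nat.shiftLeft (nat_lit 0x900000300900a015) (nat_lit 64)) (.one (nat_lit 0x900000300900a0140006012136428511)) (.one (nat_lit 0x900000300900a015000601213642a511))) (.br (Nat.shiftLeft (nat_lit 0x900000400900a015) (nat_lit 64)) (.one (nat_lit 0x900000400900a0140008012136428511)) (.br (Nat.shiftLeft (nat_lit 0x9000005) (nat_lit 100)) (.one (nat_lit 0x900000400900a015000801213642a511)) (.one (nat_lit 0x900000500900a014000a012136428511))))) (.br (Nat.shiftLeft (nat_lit 0x900000600900a015) (nat_lit 64)) (.br (Nat.shiftLeft (nat_lit 0x4800003) (nat_lit 101)) (.one (nat_lit 0x900000500900a015000a01213642a511))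 (.one (nat_lit 0x900000600900a014000c012136428511))) (.br (Nat.shiftLeft (nat_lit 0x9000007) (nat_lit 100)) (.one (nat_lit 0x900000600900a015000c01213642a511)) (.br (Nat.shiftLeft (nat_lit 0x5) (nat_lit 125)) (.one (nat_lit 0x900000700900a014000e012136428511)) (.one (nat_lit 0xa00000200900a0140004012156828511)))))) (.br (Nat.shiftLeft (nat_lit 0xa000005) (nat_lit 100)) (.br (Nat.shiftLeft (nat_lit 0xa00000300900a015) (nat_lit 64)) (.br (Nat.shiftLeft (nat_lit 0xa000003) (nat_lit 100)) (.one (nat_lit 0xa00000200900a015000401215682a511)) (.one (nat_lit 0xa00000300900a0140006012156828511))) (.br (Nat.shiftLeft (nat_lit 0x2800001) (nat_lit 102)) (.one (nat_lit 0xa00000300900a015000601215682a511)) (.br (Nat.shiftLeft (nat_lit 0xa00000400900a015) (nat_lit 64)) (.one (nat_lit 0xa00000400900a0140008012156828511)) (.one (nat_lit 0xa00000400900a015000801215682a511))))) (.br (Nat.shiftLeft (nat_lit 0x5000003) (nat_lit 101)) (.br (Nat.shiftLeft (nat_lit 0xa00000500900a015) (nat_lit 64)) (.one (nat_lit 0xa00000500900a014000a012156828511))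 (.one (nat_lit 0xa00000500900a015000a01215682a511))) (.br (Nat.shiftLeft (nat_lit 0xa00000600900a015) (nat_lit 64)) (.one (nat_lit 0xa00000600900a014000c012156828511)) (.br (Nat.shiftLeft (nat_lit 0xa000007) (nat_lit 100)) (.one (nat_lit 0xa00000600900a015000c01215682a511)) (.one (nat_lit 0xa00000700900a014000e012156828511)))))))
def t303 : k303.all (jb2 57 fl b0) = true := by decide +kernel
noncomputable def s13 : KT := (.br (nat_lit 0x200300900a015400601201402a650) (.br (nat_lit 0x100200900a0142004012014028650) (.br (nat_lit 0x700900a015000e01201402a540) (.br (nat_lit 0x100900a0140002012014028540) k279 (.br (nat_lit 0x700900a014000e012014029500) k280 k281)) (.br (nat_lit 0x800900a0140010012014028540) k282 (.br (nat_lit 0x100000900a015200001201402a411) k283 k284))) (.br (nat_lit 0x100400900a015200801201402a650) (.br (nat_lit 0x100200900a015200401201402a650) k285 (.br (nat_lit 0x100300900a015200601201402a650) k286 k287)) (.br (nat_lit 0x100600900a015200c01201402a650) k288 (.br (nat_lit 0x200300900a0144006012014028650)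 k289 k290)))) (.br (nat_lit 0x400600900a014800c012014028650) (.br (nat_lit 0x300400900a0146008012014028650) (.br (nat_lit 0x200400900a015400801201402a650) k291 (.br (nat_lit 0x200600900a014400c012014028650) k292 k293)) (.br (nat_lit 0x300500900a014600a012014028650) k294 (.br (nat_lit 0x400000900a015800001201402a411) k295 k296))) (.br (nat_lit 0x500000300900a01400060120b5428511) (.br (nat_lit 0x600700900a014c00e012014028650) k297 (.br (nat_lit 0x300000600900a015000c012074c2a511) k298 k299)) (.br (nat_lit 0x700000300900a01500060120f5c2a511) (.br (nat_lit 0x600000300900a01400060120d5828511) k300 k301) (.br (nat_lit 0x900000200900a015000401213642a511) k302 k303)))))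
noncomputable def u13 : KT := (.br (Nat.shiftLeft (nat_lit 0x900a015) (nat_lit 64)) (.one (nat_lit 0x900a0140000012014028430)) (.one (nat_lit 0x900a015000001201402a430)))
def w13 : u13.all (wj 57 s13) = true := by decide +kernel
def o13 : OkW 57 (jb2 57 fl) u13 := .lift s13 _ (.br _ _ _ (.br _ _ _ (.br _ _ _ (.br _ _ _ (.leaf b0 k279 t279) (.br _ _ _ (.leaf b0 k280 t280) (.leaf b0 k281 t281))) (.br _ _ _ (.leaf b0 k282 t282) (.br _ _ _ (.leaf b0 k283 t283) (.leaf b0 k284 t284)))) (.br _ _ _ (.br _ _ _ (.leaf b0 k285 t285) (.br _ _ _ (.leaf b0 k286 t286) (.leaf b0 k287 t287))) (.br _ _ _ (.leaf b0 k288 t288) (.br _ _ _ (.leaf b0 k289 t289) (.leaf b0 k290 t290))))) (.br _ _ _ (.br _ _ _ (.br _ _ _ (.leaf b0 k291 t291) (.br _ _ _ (.leaf b0 k292 t292) (.leaf b0 k293 t293))) (.br _ _ _ (.leaf b0 k294 t294) (.br _ _ _ (.leaf b0 k295 t295) (.leaf b0 k296 t296)))) (.br _ _ _ (.br _ _ _ (.leaf b0 k297 t297) (.br _ _ _ (.leaf b0 k298 t298) (.leaf b0 k299 t299))) (.br _ _ _ (.br _ _ _ (.leaf b0 k300 t300) (.leaf b0 k301 t301))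 (.br _ _ _ (.leaf b0 k302 t302) (.leaf b0 k303 t303)))))) w13
noncomputable def k304 : KT := (.br (Nat.shiftLeft (nat_lit 0x4805807) (nat_lit 65)) (.br (Nat.shiftLeft (nat_lit 0x900a019) (nat_lit 64)) (.br (Nat.shiftLeft (nat_lit 0x900a017) (nat_lit 64)) (.one (nat_lit 0x900a016000001201402d400)) (.br (Nat.shiftLeft (nat_lit 0x1201403) (nat_lit 67)) (.one (nat_lit 0x900a017000001201402f400)) (.one (nat_lit 0x900a0180000012014031400)))) (.br (Nat.shiftLeft (nat_lit 0x900b) (nat_lit 76)) (.one (nat_lit 0x900a0190000012014033400)) (.br (Nat.shiftLeft (nat_lit 0x900b00d) (nat_lit 64)) (.one (nat_lit 0x900b00c0000012016019400)) (.one (nat_lit 0x900b00d000001201601b400))))) (.br (Nat.shiftLeft (nat_lit 0x900b011) (nat_lit 64)) (.br (Nat.shiftLeft (nat_lit 0x900b00f) (nat_lit 64)) (.one (nat_lit 0x900b00e000001201601d400)) (.br (Nat.shiftLeft (nat_lit 0x900b01) (nat_lit 68)) (.one (nat_lit 0x900b00f000001201601f400)) (.one (nat_lit 0x900b0100000012016021400)))) (.br (Nat.shiftLeft (nat_lit 0x1) (nat_lit 100)) (.one (nat_lit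 0x900b0110000012016023400)) (.br (Nat.shiftLeft (nat_lit 0x100900a017) (nat_lit 64)) (.one (nat_lit 0x100900a016000201201402c540)) (.one (nat_lit 0x100900a017000201201402e540))))))
def t304 : k304.all (jb2 57 fl b0) = true := by decide +kernel
noncomputable def k305 : KT := (.br (Nat.shiftLeft (nat_lit 0x100900a019) (nat_lit 64)) (.one (nat_lit 0x100900a0180002012014030540)) (.one (nat_lit 0x100900a0190002012014032540)))
def t305 : k305.all (jb2 57 fl b0) = true := by decide +kernel
noncomputable def k306 : KT := (.one (nat_lit 0x200900a016000401201402c540))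
def t306 : k306.all (jb2 57 fl b0) = true := by decide +kernel
noncomputable def k307 : KT := (.one (nat_lit 0x200900a017000401201402e540))
def t307 : k307.all (jb2 57 fl b0) = true := by decide +kernel
noncomputable def k308 : KT := (.br (Nat.shiftLeft (nat_lit 0x200900a019) (nat_lit 64)) (.one (nat_lit 0x200900a0180004012014030540)) (.br (Nat.shiftLeft (nat_lit 0x3) (nat_lit 100)) (.one (nat_lit 0x200900a0190004012014032540)) (.one (nat_lit 0x300900a016000601201402d500))))
def t308 : k308.all (jb2 57 fl b0) = true := by decide +kernel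
noncomputable def k309 : KT := (.one (nat_lit 0x300900a017000601201402e540))
def t309 : k309.all (jb2 57 fl b0) = true := by decide +kernel
noncomputable def k310 : KT := (.br (Nat.shiftLeft (nat_lit 0x300900a019) (nat_lit 64)) (.one (nat_lit 0x300900a0180006012014030540)) (.br (Nat.shiftLeft (nat_lit 0x1) (nat_lit 102)) (.one (nat_lit 0x300900a0190006012014032540)) (.one (nat_lit 0x400900a016000801201402d500))))
def t310 : k310.all (jb2 57 fl b0) = true := by decide +kernel
noncomputable def k311 : KT := (.one (nat_lit 0x400900a017000801201402e540))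
def t311 : k311.all (jb2 57 fl b0) = true := by decide +kernel
noncomputable def k312 : KT := (.br (Nat.shiftLeft (nat_lit 0x400900a019) (nat_lit 64)) (.one (nat_lit 0x400900a0180008012014030540)) (.one (nat_lit 0x400900a0190008012014032540)))
def t312 : k312.all (jb2 57 fl b0) = true := by decide +kernel
noncomputable def k313 : KT := (.one (nat_lit 0x500900a016000a01201402c540))
def t313 : k313.all (jb2 57 fl b0) = true := by decide +kernel
noncomputable def k314 : KT := (.one (nat_lit 0x500900a017000a01201402e540))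
def t314 : k314.all (jb2 57 fl b0) = true := by decide +kernel
noncomputable def k315 : KT := (.br (Nat.shiftLeft (nat_lit 0x500900a019) (nat_lit 64)) (.one (nat_lit 0x500900a018000a012014030540)) (.one (nat_lit 0x500900a019000a012014032540)))
def t315 : k315.all (jb2 57 fl b0) = true := by decide +kernel
noncomputable def k316 : KT := (.one (nat_lit 0x600900a016000c01201402c540))
def t316 : k316.all (jb2 57 fl b0) = true := by decide +kernel
noncomputable def k317 : KT := (.br (Nat.shiftLeft (nat_lit 0xc01201403) (nat_lit 67)) (.one (nat_lit 0x600900a017000c01201402e540)) (.br (Nat.shiftLeft (nat_lit 0x600900a019) (nat_lit 64)) (.one (nat_lit 0x600900a018000c012014030540)) (.one (nat_lit 0x600900a019000c012014032540))))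
def t317 : k317.all (jb2 57 fl b0) = true := by decide +kernel
noncomputable def k318 : KT := (.br (Nat.shiftLeft (nat_lit 0x700900a017) (nat_lit 64)) (.one (nat_lit 0x700900a016000e01201402c540)) (.one (nat_lit 0x700900a017000e01201402e540)))
def t318 : k318.all (jb2 57 fl b0) = true := by decide +kernel
noncomputable def k319 : KT := (.br (Nat.shiftLeft (nat_lit 0x1) (nat_lit 103)) (.br (Nat.shiftLeft (nat_lit 0x700900a019) (nat_lit 64)) (.one (nat_lit 0x700900a018000e012014030540)) (.one (nat_lit 0x700900a019000e012014032540))) (.br (Nat.shiftLeft (nat_lit 0x800900a017) (nat_lit 64)) (.one (nat_lit 0x800900a016001001201402c540)) (.br (Nat.shiftLeft (nat_lit 0x1001201403) (nat_lit 67)) (.one (nat_lit 0x800900a017001001201402e540)) (.one (nat_lit 0x800900a0180010012014030540)))))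
def t319 : k319.all (jb2 57 fl b0) = true := by decide +kernel
noncomputable def k320 : KT := (.br (Nat.shiftLeft (nat_lit 0x401) (nat_lit 102)) (.br (Nat.shiftLeft (nat_lit 0x200001201403) (nat_lit 67)) (.br (Nat.shiftLeft (nat_lit 0x1) (nat_lit 112)) (.one (nat_lit 0x800900a0190010012014032540)) (.br (Nat.shiftLeft (nat_lit 0x100000900a017) (nat_lit 64)) (.one (nat_lit 0x100000900a016200001201402c411)) (.one (nat_lit 0x100000900a017200001201402e411)))) (.br (Nat.shiftLeft (nat_lit 0x100000900a019) (nat_lit 64)) (.one (nat_lit 0x100000900a0182000012014030411)) (.br (Nat.shiftLeft (nat_lit 0x801) (nat_lit 101)) (.one (nat_lit 0x100000900a0192000012014032411)) (.one (nat_lit 0x100300900a016200601201402c650))))) (.br (Nat.shiftLeft (nat_lit 0x400001201403) (nat_lit 67)) (.br (Nat.shiftLeft (nat_lit 0x1) (nat_lit 113)) (.one (nat_lit 0x100400900a016200801201402c650)) (.br (Nat.shiftLeft (nat_lit 0x200000900a017) (nat_lit 64)) (.one (nat_lit 0x200000900a016400001201402c411)) (.one (nat_lit 0x200000900a017400001201402e411))))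 (.br (Nat.shiftLeft (nat_lit 0x200000900a019) (nat_lit 64)) (.one (nat_lit 0x200000900a0184000012014030411)) (.br (Nat.shiftLeft (nat_lit 0x1001) (nat_lit 101)) (.one (nat_lit 0x200000900a0194000012014032411)) (.one (nat_lit 0x200300900a016400601201402c650))))))
def t320 : k320.all (jb2 57 fl b0) = true := by decide +kernel
noncomputable def k321 : KT := (.br (Nat.shiftLeft (nat_lit 0x400000900a019) (nat_lit 64)) (.br (Nat.shiftLeft (nat_lit 0x300000900a019) (nat_lit 64)) (.br (Nat.shiftLeft (nat_lit 0x300000900a017) (nat_lit 64)) (.br (Nat.shiftLeft (nat_lit 0x3) (nat_lit 112)) (.one (nat_lit 0x200400900a016400801201402c650)) (.one (nat_lit 0x300000900a016600001201402c411))) (.br (Nat.shiftLeft (nat_lit 0x600001201403) (nat_lit 67)) (.one (nat_lit 0x300000900a017600001201402e411)) (.one (nat_lit 0x300000900a0186000012014030411)))) (.br (Nat.shiftLeft (nat_lit 0x1) (nat_lit 114)) (.br (Nat.shiftLeft (nat_lit 0xc01) (nat_lit 102)) (.one (nat_lit 0x300000900a0196000012014032411)) (.one (nat_lit 0x300400900a016600801201402c650)))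 (.br (Nat.shiftLeft (nat_lit 0x400000900a017) (nat_lit 64)) (.one (nat_lit 0x400000900a016800001201402c411)) (.br (Nat.shiftLeft (nat_lit 0x800001201403) (nat_lit 67)) (.one (nat_lit 0x400000900a017800001201402e411)) (.one (nat_lit 0x400000900a0188000012014030411)))))) (.br (Nat.shiftLeft (nat_lit 0x3) (nat_lit 113)) (.br (Nat.shiftLeft (nat_lit 0x500000900a017) (nat_lit 64)) (.br (Nat.shiftLeft (nat_lit 0x5) (nat_lit 112)) (.one (nat_lit 0x400000900a0198000012014032411)) (.one (nat_lit 0x500000900a016a00001201402c411))) (.br (Nat.shiftLeft (nat_lit 0xa00001201403) (nat_lit 67)) (.one (nat_lit 0x500000900a017a00001201402e411)) (.br (Nat.shiftLeft (nat_lit 0x500000900a019) (nat_lit 64)) (.one (nat_lit 0x500000900a018a000012014030411)) (.one (nat_lit 0x500000900a019a000012014032411))))) (.br (Nat.shiftLeft (nat_lit 0xc00001201403) (nat_lit 67)) (.br (Nat.shiftLeft (nat_lit 0x600000900a017) (nat_lit 64)) (.one (nat_lit 0x600000900a016c00001201402c411)) (.one (nat_lit 0x600000900a017c00001201402e411))) (.br (Nat.shiftLeft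 (nat_lit 0x600000900a019) (nat_lit 64)) (.one (nat_lit 0x600000900a018c000012014030411)) (.br (Nat.shiftLeft (nat_lit 0x7) (nat_lit 112)) (.one (nat_lit 0x600000900a019c000012014032411)) (.one (nat_lit 0x700000900a016e00001201402c411)))))))
def t321 : k321.all (jb2 57 fl b0) = true := by decide +kernel
noncomputable def k322 : KT := (.br (Nat.shiftLeft (nat_lit 0xa00000900a019) (nat_lit 64)) (.br (Nat.shiftLeft (nat_lit 0x9) (nat_lit 112)) (.br (Nat.shiftLeft (nat_lit 0x1) (nat_lit 115)) (.br (Nat.shiftLeft (nat_lit 0xe00001201403) (nat_lit 67)) (.one (nat_lit 0x700000900a017e00001201402e411)) (.br (Nat.shiftLeft (nat_lit 0x700000900a019) (nat_lit 64)) (.one (nat_lit 0x700000900a018e000012014030411)) (.one (nat_lit 0x700000900a019e000012014032411)))) (.br (Nat.shiftLeft (nat_lit 0x1000001201403) (nat_lit 67)) (.br (Nat.shiftLeft (nat_lit 0x800000900a017) (nat_lit 64)) (.one (nat_lit 0x800000900a016000001201412e411)) (.one (nat_lit 0x800000900a0170000012014130411))) (.br (Nat.shiftLeft (nat_lit 0x800000900a019) (nat_lit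 64)) (.one (nat_lit 0x800000900a0180000012014132411)) (.one (nat_lit 0x800000900a0190000012014134411))))) (.br (Nat.shiftLeft (nat_lit 0x900000900a019) (nat_lit 64)) (.br (Nat.shiftLeft (nat_lit 0x900000900a017) (nat_lit 64)) (.one (nat_lit 0x900000900a016200001201412e411)) (.br (Nat.shiftLeft (nat_lit 0x1200001201403) (nat_lit 67)) (.one (nat_lit 0x900000900a0172000012014130411)) (.one (nat_lit 0x900000900a0182000012014132411)))) (.br (Nat.shiftLeft (nat_lit 0xa00000900a017) (nat_lit 64)) (.br (Nat.shiftLeft (nat_lit 0x5) (nat_lit 113)) (.one (nat_lit 0x900000900a0192000012014134411)) (.one (nat_lit 0xa00000900a016400001201412e411))) (.br (Nat.shiftLeft (nat_lit 0x1400001201403) (nat_lit 67)) (.one (nat_lit 0xa00000900a0174000012014130411)) (.one (nat_lit 0xa00000900a0184000012014132411)))))) (.br (Nat.shiftLeft (nat_lit 0x1) (nat_lit 126)) (.br (Nat.shiftLeft (nat_lit 0x1) (nat_lit 125)) (.br (Nat.shiftLeft (nat_lit 0x1) (nat_lit 124)) (.one (nat_lit 0xa00000900a0194000012014134411)) (.br (Nat.shiftLeft (nat_lit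 0x400001) (nat_lit 102)) (.one (nat_lit 0x100000300900a016000601203442c511)) (.one (nat_lit 0x100000400900a016000801203442c511)))) (.br (Nat.shiftLeft (nat_lit 0x3) (nat_lit 124)) (.br (Nat.shiftLeft (nat_lit 0x800001) (nat_lit 102)) (.one (nat_lit 0x200000300900a016000601205482c511)) (.one (nat_lit 0x200000400900a016000801205482c511))) (.br (Nat.shiftLeft (nat_lit 0xc00001) (nat_lit 102)) (.one (nat_lit 0x300000300900a0160006012074c2c511)) (.one (nat_lit 0x300000400900a0160008012074c2c511))))) (.br (Nat.shiftLeft (nat_lit 0x3) (nat_lit 125)) (.br (Nat.shiftLeft (nat_lit 0x5) (nat_lit 124)) (.br (Nat.shiftLeft (nat_lit 0x1000001) (nat_lit 102)) (.one (nat_lit 0x400000300900a016000601209502c511)) (.one (nat_lit 0x400000400900a016000801209502c511))) (.br (Nat.shiftLeft (nat_lit 0x1400001) (nat_lit 102)) (.one (nat_lit 0x500000300900a01600060120b542c511)) (.one (nat_lit 0x500000400900a01600080120b542c511)))) (.br (Nat.shiftLeft (nat_lit 0x7) (nat_lit 124)) (.br (Nat.shiftLeft (nat_lit 0x1800001) (nat_lit 102)) (.one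 (nat_lit 0x600000300900a01600060120d582c511)) (.one (nat_lit 0x600000400900a01600080120d582c511))) (.br (Nat.shiftLeft (nat_lit 0x1c00001) (nat_lit 102)) (.one (nat_lit 0x700000300900a01600060120f5c2c511)) (.one (nat_lit 0x700000400900a01600080120f5c2c511)))))))
def t322 : k322.all (jb2 57 fl b0) = true := by decide +kernel
noncomputable def k323 : KT := (.br (Nat.shiftLeft (nat_lit 0x2400001) (nat_lit 102)) (.br (Nat.shiftLeft (nat_lit 0x2000001) (nat_lit 102)) (.one (nat_lit 0x800000300900a016000601211602c511)) (.br (Nat.shiftLeft (nat_lit 0x9) (nat_lit 124)) (.one (nat_lit 0x800000400900a016000801211602c511)) (.one (nat_lit 0x900000300900a016000601213642c511)))) (.br (Nat.shiftLeft (nat_lit 0x5) (nat_lit 125)) (.one (nat_lit 0x900000400900a016000801213642c511)) (.br (Nat.shiftLeft (nat_lit 0x2800001) (nat_lit 102)) (.one (nat_lit 0xa00000300900a016000601215682c511)) (.one (nat_lit 0xa00000400900a016000801215682c511)))))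
def t323 : k323.all (jb2 57 fl b0) = true := by decide +kernel
noncomputable def s14 : KT := (.br (nat_lit 0x500900a016000a01201402c540) (.br (nat_lit 0x300900a016000601201402d500) (.br (nat_lit 0x100900a0190002012014032540) (.br (nat_lit 0x100900a017000201201402e540) k304 k305) (.br (nat_lit 0x200900a016000401201402c540) k306 (.br (nat_lit 0x200900a017000401201402e540) k307 k308))) (.br (nat_lit 0x400900a016000801201402d500) (.br (nat_lit 0x300900a017000601201402e540) k309 k310) (.br (nat_lit 0x400900a017000801201402e540) k311 (.br (nat_lit 0x400900a0190008012014032540) k312 k313)))) (.br (nat_lit 0x700900a017000e01201402e540) (.br (nat_lit 0x500900a019000a012014032540) (.br (nat_lit 0x500900a017000a01201402e540) k314 k315) (.br (nat_lit 0x600900a016000c01201402c540) k316 (.br (nat_lit 0x600900a019000c012014032540) k317 k318))) (.br (nat_lit 0x200300900a016400601201402c650) (.br (nat_lit 0x800900a0180010012014030540) k319 k320) (.br (nat_lit 0x700000900a016e00001201402c411) k321 (.br (nat_lit 0x700000400900a01600080120f5c2c511)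 k322 k323)))))
noncomputable def u14 : KT := (.br (Nat.shiftLeft (nat_lit 0x900b00d) (nat_lit 64)) (.br (Nat.shiftLeft (nat_lit 0x1201403) (nat_lit 67)) (.br (Nat.shiftLeft (nat_lit 0x900a017) (nat_lit 64)) (.one (nat_lit 0x900a016000001201402c430)) (.one (nat_lit 0x900a017000001201402e430))) (.br (Nat.shiftLeft (nat_lit 0x900a019) (nat_lit 64)) (.one (nat_lit 0x900a0180000012014030430)) (.br (Nat.shiftLeft (nat_lit 0x900b) (nat_lit 76)) (.one (nat_lit 0x900a0190000012014032430)) (.one (nat_lit 0x900b00c0000012016019400))))) (.br (Nat.shiftLeft (nat_lit 0x900b00f) (nat_lit 64)) (.br (Nat.shiftLeft (nat_lit 0x4805807) (nat_lit 65)) (.one (nat_lit 0x900b00d000001201601b400)) (.one (nat_lit 0x900b00e000001201601d400))) (.br (Nat.shiftLeft (nat_lit 0x900b01) (nat_lit 68)) (.one (nat_lit 0x900b00f000001201601f400)) (.br (Nat.shiftLeft (nat_lit 0x900b011) (nat_lit 64)) (.one (nat_lit 0x900b0100000012016021400)) (.one (nat_lit 0x900b0110000012016023400))))))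
def w14 : u14.all (wj 57 s14) = true := by decide +kernel
def o14 : OkW 57 (jb2 57 fl) u14 := .lift s14 _ (.br _ _ _ (.br _ _ _ (.br _ _ _ (.br _ _ _ (.leaf b0 k304 t304) (.leaf b0 k305 t305)) (.br _ _ _ (.leaf b0 k306 t306) (.br _ _ _ (.leaf b0 k307 t307) (.leaf b0 k308 t308)))) (.br _ _ _ (.br _ _ _ (.leaf b0 k309 t309) (.leaf b0 k310 t310)) (.br _ _ _ (.leaf b0 k311 t311) (.br _ _ _ (.leaf b0 k312 t312) (.leaf b0 k313 t313))))) (.br _ _ _ (.br _ _ _ (.br _ _ _ (.leaf b0 k314 t314) (.leaf b0 k315 t315)) (.br _ _ _ (.leaf b0 k316 t316) (.br _ _ _ (.leaf b0 k317 t317) (.leaf b0 k318 t318)))) (.br _ _ _ (.br _ _ _ (.leaf b0 k319 t319) (.leaf b0 k320 t320)) (.br _ _ _ (.leaf b0 k321 t321) (.br _ _ _ (.leaf b0 k322 t322) (.leaf b0 k323 t323)))))) w14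
noncomputable def k324 : KT := (.br (Nat.shiftLeft (nat_lit 0x5) (nat_lit 100)) (.br (Nat.shiftLeft (nat_lit 0x1) (nat_lit 101)) (.br (Nat.shiftLeft (nat_lit 0x1) (nat_lit 100)) (.one (nat_lit 0x900b0120000012016025400)) (.one (nat_lit 0x100900b0120002012016024540))) (.br (Nat.shiftLeft (nat_lit 0x3) (nat_lit 100)) (.one (nat_lit 0x200900b0120004012016025500)) (.br (Nat.shiftLeft (nat_lit 0x1) (nat_lit 102)) (.one (nat_lit 0x300900b0120006012016025500)) (.one (nat_lit 0x400900b0120008012016025500))))) (.br (Nat.shiftLeft (nat_lit 0x1) (nat_lit 103)) (.br (Nat.shiftLeft (nat_lit 0x3) (nat_lit 101)) (.one (nat_lit 0x500900b012000a012016025500)) (.br (Nat.shiftLeft (nat_lit 0x7) (nat_lit 100)) (.one (nat_lit 0x600900b012000c012016025500)) (.one (nat_lit 0x700900b012000e012016025500)))) (.br (Nat.shiftLeft (nat_lit 0x1) (nat_lit 112)) (.one (nat_lit 0x800900b0120010012016025500)) (.br (Nat.shiftLeft (nat_lit 0x801) (nat_lit 101)) (.one (nat_lit 0x100000900b0122000012016024411)) (.one (nat_lit 0x100200900b0122004012016025600))))))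
def t324 : k324.all (jb2 57 fl b0) = true := by decide +kernel
noncomputable def k325 : KT := (.one (nat_lit 0x100300900b0122006012016024650))
def t325 : k325.all (jb2 57 fl b0) = true := by decide +kernel
noncomputable def k326 : KT := (.one (nat_lit 0x100400900b0122008012016024650))
def t326 : k326.all (jb2 57 fl b0) = true := by decide +kernel
noncomputable def k327 : KT := (.br (Nat.shiftLeft (nat_lit 0x803) (nat_lit 101)) (.one (nat_lit 0x100500900b012200a012016024650)) (.br (Nat.shiftLeft (nat_lit 0x1007) (nat_lit 100)) (.one (nat_lit 0x100600900b012200c012016024650)) (.one (nat_lit 0x100700900b012200e012016024650))))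
def t327 : k327.all (jb2 57 fl b0) = true := by decide +kernel
noncomputable def k328 : KT := (.br (Nat.shiftLeft (nat_lit 0x1001) (nat_lit 101)) (.br (Nat.shiftLeft (nat_lit 0x1) (nat_lit 113)) (.one (nat_lit 0x100800900b0122010012016024650)) (.one (nat_lit 0x200000900b0124000012016024411))) (.br (Nat.shiftLeft (nat_lit 0x801) (nat_lit 102)) (.one (nat_lit 0x200300900b0124006012016025600)) (.one (nat_lit 0x200400900b0124008012016024650))))
def t328 : k328.all (jb2 57 fl b0) = true := by decide +kernel
noncomputable def k329 : KT := (.br (Nat.shiftLeft (nat_lit 0x1003) (nat_lit 101)) (.one (nat_lit 0x200500900b012400a012016024650)) (.one (nat_lit 0x200600900b012400c012016024650)))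
def t329 : k329.all (jb2 57 fl b0) = true := by decide +kernel
noncomputable def k330 : KT := (.br (Nat.shiftLeft (nat_lit 0x401) (nat_lit 103)) (.one (nat_lit 0x200700900b012400e012016024650)) (.br (Nat.shiftLeft (nat_lit 0x3) (nat_lit 112)) (.one (nat_lit 0x200800900b0124010012016024650)) (.one (nat_lit 0x300000900b0126000012016024411))))
def t330 : k330.all (jb2 57 fl b0) = true := by decide +kernel
noncomputable def k331 : KT := (.one (nat_lit 0x300400900b0126008012016024650))
def t331 : k331.all (jb2 57 fl b0) = true := by decide +kernel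
noncomputable def k332 : KT := (.br (Nat.shiftLeft (nat_lit 0x1803) (nat_lit 101)) (.one (nat_lit 0x300500900b012600a012016024650)) (.one (nat_lit 0x300600900b012600c012016024650)))
def t332 : k332.all (jb2 57 fl b0) = true := by decide +kernel
noncomputable def k333 : KT := (.br (Nat.shiftLeft (nat_lit 0x601) (nat_lit 103)) (.one (nat_lit 0x300700900b012600e012016024650)) (.br (Nat.shiftLeft (nat_lit 0x1) (nat_lit 114)) (.one (nat_lit 0x300800900b0126010012016024650)) (.one (nat_lit 0x400000900b0128000012016024411))))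
def t333 : k333.all (jb2 57 fl b0) = true := by decide +kernel
noncomputable def k334 : KT := (.br (Nat.shiftLeft (nat_lit 0x2003) (nat_lit 101)) (.one (nat_lit 0x400500900b012800a012016024650)) (.one (nat_lit 0x400600900b012800c012016024650)))
def t334 : k334.all (jb2 57 fl b0) = true := by decide +kernel
noncomputable def k335 : KT := (.br (Nat.shiftLeft (nat_lit 0x5) (nat_lit 112)) (.br (Nat.shiftLeft (nat_lit 0x801) (nat_lit 103)) (.one (nat_lit 0x400700900b012800e012016024650)) (.one (nat_lit 0x400800900b0128010012016024650))) (.br (Nat.shiftLeft (nat_lit 0x1401) (nat_lit 102)) (.one (nat_lit 0x500000900b012a000012016024411)) (.br (Nat.shiftLeft (nat_lit 0x5007) (nat_lit 100)) (.one (nat_lit 0x500600900b012a00c012016024650)) (.one (nat_lit 0x500700900b012a00e012016024650)))))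
def t335 : k335.all (jb2 57 fl b0) = true := by decide +kernel
noncomputable def k336 : KT := (.br (Nat.shiftLeft (nat_lit 0x5) (nat_lit 113)) (.br (Nat.shiftLeft (nat_lit 0x7) (nat_lit 112)) (.br (Nat.shiftLeft (nat_lit 0x1801) (nat_lit 102)) (.br (Nat.shiftLeft (nat_lit 0x3) (nat_lit 113)) (.one (nat_lit 0x500800900b012a010012016024650)) (.one (nat_lit 0x600000900b012c000012016024411))) (.br (Nat.shiftLeft (nat_lit 0xc01) (nat_lit 103)) (.one (nat_lit 0x600700900b012c00e012016024650)) (.one (nat_lit 0x600800900b012c010012016024650)))) (.br (Nat.shiftLeft (nat_lit 0x1) (nat_lit 115)) (.br (Nat.shiftLeft (nat_lit 0xe01) (nat_lit 103)) (.one (nat_lit 0x700000900b012e000012016024411)) (.one (nat_lit 0x700800900b012e010012016024650))) (.br (Nat.shiftLeft (nat_lit 0x9) (nat_lit 112)) (.one (nat_lit 0x800000900b0120000012016126411)) (.one (nat_lit 0x900000900b0122000012016126411))))) (.br (Nat.shiftLeft (nat_lit 0x400001) (nat_lit 102)) (.br (Nat.shiftLeft (nat_lit 0x1) (nat_lit 124)) (.br (Nat.shiftLeft (nat_lit 0xb)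 (nat_lit 112)) (.one (nat_lit 0xa00000900b0124000012016126411)) (.one (nat_lit 0xb00000900b0126000012016126411))) (.br (Nat.shiftLeft (nat_lit 0x1000003) (nat_lit 100)) (.one (nat_lit 0x100000200900b0120004012036424511)) (.one (nat_lit 0x100000300900b0120006012036424511)))) (.br (Nat.shiftLeft (nat_lit 0x800003) (nat_lit 101)) (.br (Nat.shiftLeft (nat_lit 0x1000005) (nat_lit 100)) (.one (nat_lit 0x100000400900b0120008012036424511)) (.one (nat_lit 0x100000500900b012000a012036424511))) (.br (Nat.shiftLeft (nat_lit 0x1000007) (nat_lit 100)) (.one (nat_lit 0x100000600900b012000c012036424511)) (.br (Nat.shiftLeft (nat_lit 0x200001) (nat_lit 103)) (.one (nat_lit 0x100000700900b012000e012036424511)) (.one (nat_lit 0x100000800900b0120010012036424511)))))))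
def t336 : k336.all (jb2 57 fl b0) = true := by decide +kernel
noncomputable def k337 : KT := (.br (Nat.shiftLeft (nat_lit 0xc00001) (nat_lit 102)) (.br (Nat.shiftLeft (nat_lit 0x1000003) (nat_lit 101)) (.br (Nat.shiftLeft (nat_lit 0x2000003) (nat_lit 100)) (.br (Nat.shiftLeft (nat_lit 0x1) (nat_lit 125)) (.one (nat_lit 0x100200300900b0124006012036424760)) (.one (nat_lit 0x200000200900b0120004012056824511))) (.br (Nat.shiftLeft (nat_lit 0x800001) (nat_lit 102)) (.one (nat_lit 0x200000300900b0120006012056824511)) (.br (Nat.shiftLeft (nat_lit 0x2000005) (nat_lit 100)) (.one (nat_lit 0x200000400900b0120008012056824511)) (.one (nat_lit 0x200000500900b012000a012056824511))))) (.br (Nat.shiftLeft (nat_lit 0x400001) (nat_lit 103)) (.br (Nat.shiftLeft (nat_lit 0x2000007) (nat_lit 100)) (.one (nat_lit 0x200000600900b012000c012056824511)) (.one (nat_lit 0x200000700900b012000e012056824511))) (.br (Nat.shiftLeft (nat_lit 0x3) (nat_lit 124)) (.one (nat_lit 0x200000800900b0120010012056824511)) (.br (Nat.shiftLeft (nat_lit 0x3000003)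 (nat_lit 100)) (.one (nat_lit 0x300000200900b0120004012076c24511)) (.one (nat_lit 0x300000300900b0120006012076c24511)))))) (.br (Nat.shiftLeft (nat_lit 0x1) (nat_lit 126)) (.br (Nat.shiftLeft (nat_lit 0x1800003) (nat_lit 101)) (.br (Nat.shiftLeft (nat_lit 0x3000005) (nat_lit 100)) (.one (nat_lit 0x300000400900b0120008012076c24511)) (.one (nat_lit 0x300000500900b012000a012076c24511))) (.br (Nat.shiftLeft (nat_lit 0x3000007) (nat_lit 100)) (.one (nat_lit 0x300000600900b012000c012076c24511)) (.br (Nat.shiftLeft (nat_lit 0x600001) (nat_lit 103)) (.one (nat_lit 0x300000700900b012000e012076c24511)) (.one (nat_lit 0x300000800900b0120010012076c24511))))) (.br (Nat.shiftLeft (nat_lit 0x1000001) (nat_lit 102)) (.br (Nat.shiftLeft (nat_lit 0x4000003) (nat_lit 100)) (.one (nat_lit 0x400000200900b0120004012097024511)) (.one (nat_lit 0x400000300900b0120006012097024511))) (.br (Nat.shiftLeft (nat_lit 0x4000005) (nat_lit 100)) (.one (nat_lit 0x400000400900b0120008012097024511)) (.br (Nat.shiftLeft (nat_lit 0x2000003) (nat_lit 101))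 (.one (nat_lit 0x400000500900b012000a012097024511)) (.one (nat_lit 0x400000600900b012000c012097024511)))))))
def t337 : k337.all (jb2 57 fl b0) = true := by decide +kernel
noncomputable def k338 : KT := (.br (Nat.shiftLeft (nat_lit 0x5000005) (nat_lit 100)) (.br (Nat.shiftLeft (nat_lit 0x5) (nat_lit 124)) (.br (Nat.shiftLeft (nat_lit 0x800001) (nat_lit 103)) (.one (nat_lit 0x400000700900b012000e012097024511)) (.one (nat_lit 0x400000800900b0120010012097024511))) (.br (Nat.shiftLeft (nat_lit 0x5000003) (nat_lit 100)) (.one (nat_lit 0x500000200900b01200040120b7424511)) (.br (Nat.shiftLeft (nat_lit 0x1400001) (nat_lit 102)) (.one (nat_lit 0x500000300900b01200060120b7424511)) (.one (nat_lit 0x500000400900b01200080120b7424511))))) (.br (Nat.shiftLeft (nat_lit 0x5000007) (nat_lit 100)) (.br (Nat.shiftLeft (nat_lit 0x2800003) (nat_lit 101)) (.one (nat_lit 0x500000500900b012000a0120b7424511)) (.one (nat_lit 0x500000600900b012000c0120b7424511))) (.br (Nat.shiftLeft (nat_lit 0xa00001) (nat_lit 103)) (.one (nat_lit 0x500000700900b012000e0120b7424511))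 (.br (Nat.shiftLeft (nat_lit 0x3) (nat_lit 125)) (.one (nat_lit 0x500000800900b01200100120b7424511)) (.one (nat_lit 0x600000200900b01200040120d7824511))))))
def t338 : k338.all (jb2 57 fl b0) = true := by decide +kernel
noncomputable def k339 : KT := (.br (Nat.shiftLeft (nat_lit 0x6000007) (nat_lit 100)) (.br (Nat.shiftLeft (nat_lit 0x6000005) (nat_lit 100)) (.br (Nat.shiftLeft (nat_lit 0x1800001) (nat_lit 102)) (.one (nat_lit 0x600000300900b01200060120d7824511)) (.one (nat_lit 0x600000400900b01200080120d7824511))) (.br (Nat.shiftLeft (nat_lit 0x3000003) (nat_lit 101)) (.one (nat_lit 0x600000500900b012000a0120d7824511)) (.one (nat_lit 0x600000600900b012000c0120d7824511)))) (.br (Nat.shiftLeft (nat_lit 0x7) (nat_lit 124)) (.br (Nat.shiftLeft (nat_lit 0xc00001) (nat_lit 103)) (.one (nat_lit 0x600000700900b012000e0120d7824511)) (.one (nat_lit 0x600000800900b01200100120d7824511))) (.br (Nat.shiftLeft (nat_lit 0x7000003) (nat_lit 100)) (.one (nat_lit 0x700000200900b01200040120f7c24511)) (.one (nat_lit 0x700000300900b01200060120f7c24511)))))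
def t339 : k339.all (jb2 57 fl b0) = true := by decide +kernel
noncomputable def k340 : KT := (.br (Nat.shiftLeft (nat_lit 0x8000003) (nat_lit 100)) (.br (Nat.shiftLeft (nat_lit 0x7000007) (nat_lit 100)) (.br (Nat.shiftLeft (nat_lit 0x7000005) (nat_lit 100)) (.one (nat_lit 0x700000400900b01200080120f7c24511)) (.br (Nat.shiftLeft (nat_lit 0x3800003) (nat_lit 101)) (.one (nat_lit 0x700000500900b012000a0120f7c24511)) (.one (nat_lit 0x700000600900b012000c0120f7c24511)))) (.br (Nat.shiftLeft (nat_lit 0xe00001) (nat_lit 103)) (.one (nat_lit 0x700000700900b012000e0120f7c24511)) (.br (Nat.shiftLeft (nat_lit 0x1) (nat_lit 127)) (.one (nat_lit 0x700000800900b01200100120f7c24511)) (.one (nat_lit 0x800000200900b0120004012118024511))))) (.br (Nat.shiftLeft (nat_lit 0x4000003) (nat_lit 101)) (.br (Nat.shiftLeft (nat_lit 0x2000001) (nat_lit 102)) (.one (nat_lit 0x800000300900b0120006012118024511)) (.br (Nat.shiftLeft (nat_lit 0x8000005) (nat_lit 100)) (.one (nat_lit 0x800000400900b0120008012118024511)) (.one (nat_lit 0x800000500900b012000a012118024511))))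 (.br (Nat.shiftLeft (nat_lit 0x8000007) (nat_lit 100)) (.one (nat_lit 0x800000600900b012000c012118024511)) (.br (Nat.shiftLeft (nat_lit 0x1000001) (nat_lit 103)) (.one (nat_lit 0x800000700900b012000e012118024511)) (.one (nat_lit 0x800000800900b0120010012118024511))))))
def t340 : k340.all (jb2 57 fl b0) = true := by decide +kernel
noncomputable def k341 : KT := (.br (Nat.shiftLeft (nat_lit 0xb) (nat_lit 124)) (.br (Nat.shiftLeft (nat_lit 0x5) (nat_lit 125)) (.br (Nat.shiftLeft (nat_lit 0x9000005) (nat_lit 100)) (.br (Nat.shiftLeft (nat_lit 0x9000003) (nat_lit 100)) (.one (nat_lit 0x900000200900b0120004012138424511)) (.br (Nat.shiftLeft (nat_lit 0x2400001) (nat_lit 102)) (.one (nat_lit 0x900000300900b0120006012138424511)) (.one (nat_lit 0x900000400900b0120008012138424511)))) (.br (Nat.shiftLeft (nat_lit 0x9000007) (nat_lit 100)) (.br (Nat.shiftLeft (nat_lit 0x4800003) (nat_lit 101)) (.one (nat_lit 0x900000500900b012000a012138424511)) (.one (nat_lit 0x900000600900b012000c012138424511))) (.br (Nat.shiftLeft (nat_lit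 0x1200001) (nat_lit 103)) (.one (nat_lit 0x900000700900b012000e012138424511)) (.one (nat_lit 0x900000800900b0120010012138424511))))) (.br (Nat.shiftLeft (nat_lit 0xa000005) (nat_lit 100)) (.br (Nat.shiftLeft (nat_lit 0xa000003) (nat_lit 100)) (.one (nat_lit 0xa00000200900b0120004012158824511)) (.br (Nat.shiftLeft (nat_lit 0x2800001) (nat_lit 102)) (.one (nat_lit 0xa00000300900b0120006012158824511)) (.one (nat_lit 0xa00000400900b0120008012158824511)))) (.br (Nat.shiftLeft (nat_lit 0xa000007) (nat_lit 100)) (.br (Nat.shiftLeft (nat_lit 0x5000003) (nat_lit 101)) (.one (nat_lit 0xa00000500900b012000a012158824511)) (.one (nat_lit 0xa00000600900b012000c012158824511))) (.br (Nat.shiftLeft (nat_lit 0x1400001) (nat_lit 103)) (.one (nat_lit 0xa00000700900b012000e012158824511)) (.one (nat_lit 0xa00000800900b0120010012158824511)))))) (.br (Nat.shiftLeft (nat_lit 0x1) (nat_lit 136)) (.br (Nat.shiftLeft (nat_lit 0xb000005) (nat_lit 100)) (.br (Nat.shiftLeft (nat_lit 0xb000003) (nat_lit 100)) (.one (nat_lit 0xb00000200900b0120004012178c24511))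 (.br (Nat.shiftLeft (nat_lit 0x2c00001) (nat_lit 102)) (.one (nat_lit 0xb00000300900b0120006012178c24511)) (.one (nat_lit 0xb00000400900b0120008012178c24511)))) (.br (Nat.shiftLeft (nat_lit 0xb000007) (nat_lit 100)) (.br (Nat.shiftLeft (nat_lit 0x5800003) (nat_lit 101)) (.one (nat_lit 0xb00000500900b012000a012178c24511)) (.one (nat_lit 0xb00000600900b012000c012178c24511))) (.br (Nat.shiftLeft (nat_lit 0x1600001) (nat_lit 103)) (.one (nat_lit 0xb00000700900b012000e012178c24511)) (.one (nat_lit 0xb00000800900b0120010012178c24511))))) (.br (Nat.shiftLeft (nat_lit 0x1000001) (nat_lit 113)) (.br (Nat.shiftLeft (nat_lit 0x800001) (nat_lit 113)) (.one (nat_lit 0x100000100200900b0122004032416024611)) (.br (Nat.shiftLeft (nat_lit 0x1) (nat_lit 137)) (.one (nat_lit 0x100000200300900b0124006032416024611)) (.one (nat_lit 0x200000100200900b0122004052816024611)))) (.br (Nat.shiftLeft (nat_lit 0x1800001) (nat_lit 113)) (.br (Nat.shiftLeft (nat_lit 0x3) (nat_lit 136)) (.one (nat_lit 0x200000200300900b0124006052816024611)) (.one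 (nat_lit 0x300000100200900b0122004072c16024611))) (.br (Nat.shiftLeft (nat_lit 0x1) (nat_lit 138)) (.one (nat_lit 0x300000200300900b0124006072c16024611)) (.one (nat_lit 0x400000100200900b0122004093016024611)))))))
def t341 : k341.all (jb2 57 fl b0) = true := by decide +kernel
noncomputable def k342 : KT := (.br (Nat.shiftLeft (nat_lit 0x3) (nat_lit 137)) (.br (Nat.shiftLeft (nat_lit 0x5) (nat_lit 136)) (.one (nat_lit 0x400000200300900b0124006093016024611)) (.br (Nat.shiftLeft (nat_lit 0x2800001) (nat_lit 113)) (.one (nat_lit 0x500000100200900b01220040b3416024611)) (.one (nat_lit 0x500000200300900b01240060b3416024611)))) (.br (Nat.shiftLeft (nat_lit 0x7) (nat_lit 136)) (.br (Nat.shiftLeft (nat_lit 0x3000001) (nat_lit 113)) (.one (nat_lit 0x600000100200900b01220040d3816024611)) (.one (nat_lit 0x600000200300900b01240060d3816024611))) (.br (Nat.shiftLeft (nat_lit 0x3800001) (nat_lit 113)) (.one (nat_lit 0x700000100200900b01220040f3c16024611)) (.one (nat_lit 0x700000200300900b01240060f3c16024611)))))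
def t342 : k342.all (jb2 57 fl b0) = true := by decide +kernel
noncomputable def k343 : KT := (.br (Nat.shiftLeft (nat_lit 0x5) (nat_lit 137)) (.br (Nat.shiftLeft (nat_lit 0x9) (nat_lit 136)) (.br (Nat.shiftLeft (nat_lit 0x4000001) (nat_lit 113)) (.one (nat_lit 0x800000100200900b0122004114016024611)) (.one (nat_lit 0x800000200300900b0124006114016024611))) (.br (Nat.shiftLeft (nat_lit 0x4800001) (nat_lit 113)) (.one (nat_lit 0x900000100200900b0122004134416024611)) (.one (nat_lit 0x900000200300900b0124006134416024611)))) (.br (Nat.shiftLeft (nat_lit 0xb) (nat_lit 136)) (.br (Nat.shiftLeft (nat_lit 0x5000001) (nat_lit 113)) (.one (nat_lit 0xa00000100200900b0122004154816024611)) (.one (nat_lit 0xa00000200300900b0124006154816024611))) (.br (Nat.shiftLeft (nat_lit 0x5800001) (nat_lit 113)) (.one (nat_lit 0xb00000100200900b0122004174c16024611)) (.one (nat_lit 0xb00000200300900b0124006174c16024611)))))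
def t343 : k343.all (jb2 57 fl b0) = true := by decide +kernel
noncomputable def s15 : KT := (.br (nat_lit 0x400000900b0128000012016024411) (.br (nat_lit 0x200400900b0124008012016024650) (.br (nat_lit 0x100300900b0122006012016024650) (.br (nat_lit 0x100200900b0122004012016025600) k324 k325) (.br (nat_lit 0x100400900b0122008012016024650) k326 (.br (nat_lit 0x100700900b012200e012016024650) k327 k328))) (.br (nat_lit 0x300000900b0126000012016024411) (.br (nat_lit 0x200600900b012400c012016024650) k329 k330) (.br (nat_lit 0x300400900b0126008012016024650) k331 (.br (nat_lit 0x300600900b012600c012016024650) k332 k333)))) (.br (nat_lit 0x600000200900b01200040120d7824511) (.br (nat_lit 0x500700900b012a00e012016024650) (.br (nat_lit 0x400600900b012800c012016024650) k334 k335) (.br (nat_lit 0x100000800900b0120010012036424511) k336 (.br (nat_lit 0x400000600900b012000c012097024511) k337 k338))) (.br (nat_lit 0x800000800900b0120010012118024511) (.br (nat_lit 0x700000300900b01200060120f7c24511) k339 k340) (.br (nat_lit 0x400000100200900b0122004093016024611)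 k341 (.br (nat_lit 0x700000200300900b01240060f3c16024611) k342 k343)))))
noncomputable def u15 : KT := (.one (nat_lit 0x900b0120000012016024430))
def w15 : u15.all (wj 57 s15) = true := by decide +kernel
def o15 : OkW 57 (jb2 57 fl) u15 := .lift s15 _ (.br _ _ _ (.br _ _ _ (.br _ _ _ (.br _ _ _ (.leaf b0 k324 t324) (.leaf b0 k325 t325)) (.br _ _ _ (.leaf b0 k326 t326) (.br _ _ _ (.leaf b0 k327 t327) (.leaf b0 k328 t328)))) (.br _ _ _ (.br _ _ _ (.leaf b0 k329 t329) (.leaf b0 k330 t330)) (.br _ _ _ (.leaf b0 k331 t331) (.br _ _ _ (.leaf b0 k332 t332) (.leaf b0 k333 t333))))) (.br _ _ _ (.br _ _ _ (.br _ _ _ (.leaf b0 k334 t334) (.leaf b0 k335 t335)) (.br _ _ _ (.leaf b0 k336 t336) (.br _ _ _ (.leaf b0 k337 t337) (.leaf b0 k338 t338)))) (.br _ _ _ (.br _ _ _ (.leaf b0 k339 t339) (.leaf b0 k340 t340)) (.br _ _ _ (.leaf b0 k341 t341) (.br _ _ _ (.leaf b0 k342 t342) (.leaf b0 k343 t343)))))) w15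
noncomputable def k344 : KT := (.br (Nat.shiftLeft (nat_lit 0x1) (nat_lit 102)) (.br (Nat.shiftLeft (nat_lit 0x1) (nat_lit 101)) (.br (Nat.shiftLeft (nat_lit 0x1) (nat_lit 100)) (.one (nat_lit 0x900b0130000012016027400)) (.one (nat_lit 0x100900b0130002012016026540))) (.br (Nat.shiftLeft (nat_lit 0x3) (nat_lit 100)) (.one (nat_lit 0x200900b0130004012016027500)) (.one (nat_lit 0x300900b0130006012016027500)))) (.br (Nat.shiftLeft (nat_lit 0x3) (nat_lit 101)) (.br (Nat.shiftLeft (nat_lit 0x5) (nat_lit 100)) (.one (nat_lit 0x400900b0130008012016027500)) (.one (nat_lit 0x500900b013000a012016027500))) (.br (Nat.shiftLeft (nat_lit 0x7) (nat_lit 100)) (.one (nat_lit 0x600900b013000c012016027500)) (.one (nat_lit 0x700900b013000e012016027500)))))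
def t344 : k344.all (jb2 57 fl b0) = true := by decide +kernel
noncomputable def k345 : KT := (.br (Nat.shiftLeft (nat_lit 0x1) (nat_lit 112)) (.one (nat_lit 0x800900b0130010012016026540)) (.one (nat_lit 0x100000900b0132000012016026411)))
def t345 : k345.all (jb2 57 fl b0) = true := by decide +kernel
noncomputable def k346 : KT := (.one (nat_lit 0x100200900b0132004012016026650))
def t346 : k346.all (jb2 57 fl b0) = true := by decide +kernel
noncomputable def k347 : KT := (.one (nat_lit 0x100300900b0132006012016026650))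
def t347 : k347.all (jb2 57 fl b0) = true := by decide +kernel
noncomputable def k348 : KT := (.br (Nat.shiftLeft (nat_lit 0x1005) (nat_lit 100)) (.one (nat_lit 0x100400900b0132008012016026650)) (.br (Nat.shiftLeft (nat_lit 0x803) (nat_lit 101)) (.one (nat_lit 0x100500900b013200a012016026650)) (.one (nat_lit 0x100600900b013200c012016026650))))
def t348 : k348.all (jb2 57 fl b0) = true := by decide +kernel
noncomputable def k349 : KT := (.br (Nat.shiftLeft (nat_lit 0x1) (nat_lit 113)) (.one (nat_lit 0x100700900b013200e012016026650)) (.br (Nat.shiftLeft (nat_lit 0x1001) (nat_lit 101)) (.one (nat_lit 0x200000900b0134000012016026411)) (.one (nat_lit 0x200300900b0134006012016026650))))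
def t349 : k349.all (jb2 57 fl b0) = true := by decide +kernel
noncomputable def k350 : KT := (.br (Nat.shiftLeft (nat_lit 0x2005) (nat_lit 100)) (.one (nat_lit 0x200400900b0134008012016026650)) (.one (nat_lit 0x200500900b013400a012016026650)))
def t350 : k350.all (jb2 57 fl b0) = true := by decide +kernel
noncomputable def k351 : KT := (.br (Nat.shiftLeft (nat_lit 0x2007) (nat_lit 100)) (.one (nat_lit 0x200600900b013400c012016026650)) (.br (Nat.shiftLeft (nat_lit 0x3) (nat_lit 112)) (.one (nat_lit 0x200700900b013400e012016026650)) (.one (nat_lit 0x300000900b0136000012016026411))))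
def t351 : k351.all (jb2 57 fl b0) = true := by decide +kernel
noncomputable def k352 : KT := (.br (Nat.shiftLeft (nat_lit 0x3005) (nat_lit 100)) (.one (nat_lit 0x300400900b0136008012016026650)) (.one (nat_lit 0x300500900b013600a012016026650)))
def t352 : k352.all (jb2 57 fl b0) = true := by decide +kernel
noncomputable def k353 : KT := (.br (Nat.shiftLeft (nat_lit 0x1) (nat_lit 114)) (.br (Nat.shiftLeft (nat_lit 0x3007) (nat_lit 100)) (.one (nat_lit 0x300600900b013600c012016026650)) (.one (nat_lit 0x300700900b013600e012016026650))) (.br (Nat.shiftLeft (nat_lit 0x1001) (nat_lit 102)) (.one (nat_lit 0x400000900b0138000012016026411)) (.one (nat_lit 0x400500900b013800a012016026650))))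
def t353 : k353.all (jb2 57 fl b0) = true := by decide +kernel
noncomputable def k354 : KT := (.br (Nat.shiftLeft (nat_lit 0x5007) (nat_lit 100)) (.br (Nat.shiftLeft (nat_lit 0x5) (nat_lit 112)) (.br (Nat.shiftLeft (nat_lit 0x4007) (nat_lit 100)) (.one (nat_lit 0x400600900b013800c012016026650)) (.one (nat_lit 0x400700900b013800e012016026650))) (.br (Nat.shiftLeft (nat_lit 0x1401) (nat_lit 102)) (.one (nat_lit 0x500000900b013a000012016026411)) (.one (nat_lit 0x500600900b013a00c012016026650)))) (.br (Nat.shiftLeft (nat_lit 0x1801) (nat_lit 102)) (.br (Nat.shiftLeft (nat_lit 0x3) (nat_lit 113)) (.one (nat_lit 0x500700900b013a00e012016026650)) (.one (nat_lit 0x600000900b013c000012016026411))) (.br (Nat.shiftLeft (nat_lit 0x7) (nat_lit 112)) (.one (nat_lit 0x600700900b013c00e012016026650)) (.br (Nat.shiftLeft (nat_lit 0x1) (nat_lit 115)) (.one (nat_lit 0x700000900b013e000012016026411)) (.one (nat_lit 0x800000900b0130000012016128411))))))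
def t354 : k354.all (jb2 57 fl b0) = true := by decide +kernel
noncomputable def k355 : KT := (.br (Nat.shiftLeft (nat_lit 0x2000007) (nat_lit 100)) (.br (Nat.shiftLeft (nat_lit 0x800003) (nat_lit 101)) (.br (Nat.shiftLeft (nat_lit 0x1) (nat_lit 124)) (.br (Nat.shiftLeft (nat_lit 0x5) (nat_lit 113)) (.one (nat_lit 0x900000900b0132000012016128411)) (.br (Nat.shiftLeft (nat_lit 0xb) (nat_lit 112)) (.one (nat_lit 0xa00000900b0134000012016128411)) (.one (nat_lit 0xb00000900b0136000012016128411)))) (.br (Nat.shiftLeft (nat_lit 0x400001) (nat_lit 102)) (.br (Nat.shiftLeft (nat_lit 0x1000003) (nat_lit 100)) (.one (nat_lit 0x100000200900b0130004012036426511)) (.one (nat_lit 0x100000300900b0130006012036426511))) (.br (Nat.shiftLeft (nat_lit 0x1000005) (nat_lit 100)) (.one (nat_lit 0x100000400900b0130008012036426511)) (.one (nat_lit 0x100000500900b013000a012036426511))))) (.br (Nat.shiftLeft (nat_lit 0x2000003) (nat_lit 100)) (.br (Nat.shiftLeft (nat_lit 0x1000007) (nat_lit 100)) (.one (nat_lit 0x100000600900b013000c012036426511))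 (.br (Nat.shiftLeft (nat_lit 0x1) (nat_lit 125)) (.one (nat_lit 0x100000700900b013000e012036426511)) (.one (nat_lit 0x200000200900b0130004012056826511)))) (.br (Nat.shiftLeft (nat_lit 0x2000005) (nat_lit 100)) (.br (Nat.shiftLeft (nat_lit 0x800001) (nat_lit 102)) (.one (nat_lit 0x200000300900b0130006012056826511)) (.one (nat_lit 0x200000400900b0130008012056826511))) (.br (Nat.shiftLeft (nat_lit 0x1000003) (nat_lit 101)) (.one (nat_lit 0x200000500900b013000a012056826511)) (.one (nat_lit 0x200000600900b013000c012056826511)))))) (.br (Nat.shiftLeft (nat_lit 0x1) (nat_lit 126)) (.br (Nat.shiftLeft (nat_lit 0xc00001) (nat_lit 102)) (.br (Nat.shiftLeft (nat_lit 0x3) (nat_lit 124)) (.one (nat_lit 0x200000700900b013000e012056826511)) (.br (Nat.shiftLeft (nat_lit 0x3000003) (nat_lit 100)) (.one (nat_lit 0x300000200900b0130004012076c26511)) (.one (nat_lit 0x300000300900b0130006012076c26511)))) (.br (Nat.shiftLeft (nat_lit 0x1800003) (nat_lit 101)) (.br (Nat.shiftLeft (nat_lit 0x3000005) (nat_lit 100)) (.one (nat_lit 0x300000400900b0130008012076c26511))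 (.one (nat_lit 0x300000500900b013000a012076c26511))) (.br (Nat.shiftLeft (nat_lit 0x3000007) (nat_lit 100)) (.one (nat_lit 0x300000600900b013000c012076c26511)) (.one (nat_lit 0x300000700900b013000e012076c26511))))) (.br (Nat.shiftLeft (nat_lit 0x2000003) (nat_lit 101)) (.br (Nat.shiftLeft (nat_lit 0x1000001) (nat_lit 102)) (.br (Nat.shiftLeft (nat_lit 0x4000003) (nat_lit 100)) (.one (nat_lit 0x400000200900b0130004012097026511)) (.one (nat_lit 0x400000300900b0130006012097026511))) (.br (Nat.shiftLeft (nat_lit 0x4000005) (nat_lit 100)) (.one (nat_lit 0x400000400900b0130008012097026511)) (.one (nat_lit 0x400000500900b013000a012097026511)))) (.br (Nat.shiftLeft (nat_lit 0x5) (nat_lit 124)) (.br (Nat.shiftLeft (nat_lit 0x4000007) (nat_lit 100)) (.one (nat_lit 0x400000600900b013000c012097026511)) (.one (nat_lit 0x400000700900b013000e012097026511))) (.br (Nat.shiftLeft (nat_lit 0x5000003) (nat_lit 100)) (.one (nat_lit 0x500000200900b01300040120b7426511)) (.one (nat_lit 0x500000300900b01300060120b7426511)))))))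
def t355 : k355.all (jb2 57 fl b0) = true := by decide +kernel
noncomputable def k356 : KT := (.br (Nat.shiftLeft (nat_lit 0x6000003) (nat_lit 100)) (.br (Nat.shiftLeft (nat_lit 0x2800003) (nat_lit 101)) (.br (Nat.shiftLeft (nat_lit 0x5000005) (nat_lit 100)) (.one (nat_lit 0x500000400900b01300080120b7426511)) (.one (nat_lit 0x500000500900b013000a0120b7426511))) (.br (Nat.shiftLeft (nat_lit 0x5000007) (nat_lit 100)) (.one (nat_lit 0x500000600900b013000c0120b7426511)) (.br (Nat.shiftLeft (nat_lit 0x3) (nat_lit 125)) (.one (nat_lit 0x500000700900b013000e0120b7426511)) (.one (nat_lit 0x600000200900b01300040120d7826511))))) (.br (Nat.shiftLeft (nat_lit 0x3000003) (nat_lit 101)) (.br (Nat.shiftLeft (nat_lit 0x1800001) (nat_lit 102)) (.one (nat_lit 0x600000300900b01300060120d7826511)) (.br (Nat.shiftLeft (nat_lit 0x6000005) (nat_lit 100)) (.one (nat_lit 0x600000400900b01300080120d7826511)) (.one (nat_lit 0x600000500900b013000a0120d7826511)))) (.br (Nat.shiftLeft (nat_lit 0x6000007) (nat_lit 100)) (.one (nat_lit 0x600000600900b013000c0120d7826511))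 (.br (Nat.shiftLeft (nat_lit 0x7) (nat_lit 124)) (.one (nat_lit 0x600000700900b013000e0120d7826511)) (.one (nat_lit 0x700000200900b01300040120f7c26511))))))
def t356 : k356.all (jb2 57 fl b0) = true := by decide +kernel
noncomputable def k357 : KT := (.br (Nat.shiftLeft (nat_lit 0x4000003) (nat_lit 101)) (.br (Nat.shiftLeft (nat_lit 0x7000007) (nat_lit 100)) (.br (Nat.shiftLeft (nat_lit 0x7000005) (nat_lit 100)) (.br (Nat.shiftLeft (nat_lit 0x1c00001) (nat_lit 102)) (.one (nat_lit 0x700000300900b01300060120f7c26511)) (.one (nat_lit 0x700000400900b01300080120f7c26511))) (.br (Nat.shiftLeft (nat_lit 0x3800003) (nat_lit 101)) (.one (nat_lit 0x700000500900b013000a0120f7c26511)) (.one (nat_lit 0x700000600900b013000c0120f7c26511)))) (.br (Nat.shiftLeft (nat_lit 0x8000003) (nat_lit 100)) (.br (Nat.shiftLeft (nat_lit 0x1) (nat_lit 127)) (.one (nat_lit 0x700000700900b013000e0120f7c26511)) (.one (nat_lit 0x800000200900b0130004012118026511))) (.br (Nat.shiftLeft (nat_lit 0x2000001) (nat_lit 102)) (.one (nat_lit 0x800000300900b0130006012118026511))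 (.br (Nat.shiftLeft (nat_lit 0x8000005) (nat_lit 100)) (.one (nat_lit 0x800000400900b0130008012118026511)) (.one (nat_lit 0x800000500900b013000a012118026511)))))) (.br (Nat.shiftLeft (nat_lit 0x2400001) (nat_lit 102)) (.br (Nat.shiftLeft (nat_lit 0x9) (nat_lit 124)) (.br (Nat.shiftLeft (nat_lit 0x8000007) (nat_lit 100)) (.one (nat_lit 0x800000600900b013000c012118026511)) (.one (nat_lit 0x800000700900b013000e012118026511))) (.br (Nat.shiftLeft (nat_lit 0x9000003) (nat_lit 100)) (.one (nat_lit 0x900000200900b0130004012138426511)) (.one (nat_lit 0x900000300900b0130006012138426511)))) (.br (Nat.shiftLeft (nat_lit 0x4800003) (nat_lit 101)) (.br (Nat.shiftLeft (nat_lit 0x9000005) (nat_lit 100)) (.one (nat_lit 0x900000400900b0130008012138426511)) (.one (nat_lit 0x900000500900b013000a012138426511))) (.br (Nat.shiftLeft (nat_lit 0x9000007) (nat_lit 100)) (.one (nat_lit 0x900000600900b013000c012138426511)) (.br (Nat.shiftLeft (nat_lit 0x5) (nat_lit 125)) (.one (nat_lit 0x900000700900b013000e012138426511)) (.one (nat_lit 0xa00000200900b0130004012158826511)))))))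
def t357 : k357.all (jb2 57 fl b0) = true := by decide +kernel
noncomputable def k358 : KT := (.br (Nat.shiftLeft (nat_lit 0xb) (nat_lit 124)) (.br (Nat.shiftLeft (nat_lit 0xa000005) (nat_lit 100)) (.br (Nat.shiftLeft (nat_lit 0x2800001) (nat_lit 102)) (.one (nat_lit 0xa00000300900b0130006012158826511)) (.one (nat_lit 0xa00000400900b0130008012158826511))) (.br (Nat.shiftLeft (nat_lit 0x5000003) (nat_lit 101)) (.one (nat_lit 0xa00000500900b013000a012158826511)) (.br (Nat.shiftLeft (nat_lit 0xa000007) (nat_lit 100)) (.one (nat_lit 0xa00000600900b013000c012158826511)) (.one (nat_lit 0xa00000700900b013000e012158826511))))) (.br (Nat.shiftLeft (nat_lit 0xb000005) (nat_lit 100)) (.br (Nat.shiftLeft (nat_lit 0xb000003) (nat_lit 100)) (.one (nat_lit 0xb00000200900b0130004012178c26511)) (.br (Nat.shiftLeft (nat_lit 0x2c00001) (nat_lit 102)) (.one (nat_lit 0xb00000300900b0130006012178c26511)) (.one (nat_lit 0xb00000400900b0130008012178c26511)))) (.br (Nat.shiftLeft (nat_lit 0x5800003) (nat_lit 101)) (.one (nat_lit 0xb00000500900b013000a012178c26511))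 (.br (Nat.shiftLeft (nat_lit 0xb000007) (nat_lit 100)) (.one (nat_lit 0xb00000600900b013000c012178c26511)) (.one (nat_lit 0xb00000700900b013000e012178c26511))))))
def t358 : k358.all (jb2 57 fl b0) = true := by decide +kernel
noncomputable def s16 : KT := (.br (nat_lit 0x200500900b013400a012016026650) (.br (nat_lit 0x100200900b0132004012016026650) (.br (nat_lit 0x700900b013000e012016027500) k344 (.br (nat_lit 0x100000900b0132000012016026411) k345 k346)) (.br (nat_lit 0x100600900b013200c012016026650) (.br (nat_lit 0x100300900b0132006012016026650) k347 k348) (.br (nat_lit 0x200300900b0134006012016026650) k349 k350))) (.br (nat_lit 0x800000900b0130000012016128411) (.br (nat_lit 0x300500900b013600a012016026650) (.br (nat_lit 0x300000900b0136000012016026411) k351 k352) (.br (nat_lit 0x400500900b013800a012016026650) k353 k354)) (.br (nat_lit 0x700000200900b01300040120f7c26511) (.br (nat_lit 0x500000300900b01300060120b7426511) k355 k356) (.br (nat_lit 0xa00000200900b0130004012158826511) k357 k358))))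
noncomputable def u16 : KT := (.one (nat_lit 0x900b0130000012016026430))
def w16 : u16.all (wj 57 s16) = true := by decide +kernel
def o16 : OkW 57 (jb2 57 fl) u16 := .lift s16 _ (.br _ _ _ (.br _ _ _ (.br _ _ _ (.leaf b0 k344 t344) (.br _ _ _ (.leaf b0 k345 t345) (.leaf b0 k346 t346))) (.br _ _ _ (.br _ _ _ (.leaf b0 k347 t347) (.leaf b0 k348 t348)) (.br _ _ _ (.leaf b0 k349 t349) (.leaf b0 k350 t350)))) (.br _ _ _ (.br _ _ _ (.br _ _ _ (.leaf b0 k351 t351) (.leaf b0 k352 t352)) (.br _ _ _ (.leaf b0 k353 t353) (.leaf b0 k354 t354))) (.br _ _ _ (.br _ _ _ (.leaf b0 k355 t355) (.leaf b0 k356 t356)) (.br _ _ _ (.leaf b0 k357 t357) (.leaf b0 k358 t358))))) w16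
noncomputable def k : KT := (.br (nat_lit 0x800e012000001001c024430) (.br (nat_lit 0x800d011000001001a022430) (.br (nat_lit 0x800c0140000010018028430) (.br (nat_lit 0x800c0120000010018024430) u0 u1) (.br (nat_lit 0x800d010000001001a021400) u2 u3)) (.br (nat_lit 0x800e00f000001001c01f400) (.br (nat_lit 0x800d013000001001a026430) u4 u5) (.br (nat_lit 0x800e010000001001c020430) u6 u7))) (.br (nat_lit 0x80110120000010022024430) (.br (nat_lit 0x800f011000001001e022430) (.br (nat_lit 0x800e016000001001c02c430) u8 u9) (.br (nat_lit 0x800f015000001001e02a430) u10 u11)) (.br (nat_lit 0x900a015000001201402a430) (.br (nat_lit 0x900a0130000012014026430) u12 u13) (.br (nat_lit 0x900b0110000012016023400) u14 (.br (nat_lit 0x900b0120000012016024430) u15 u16)))))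
theorem ok : OkW 57 (jb2 57 fl) k := (.br _ _ _ (.br _ _ _ (.br _ _ _ (.br _ _ _ o0 o1) (.br _ _ _ o2 o3)) (.br _ _ _ (.br _ _ _ o4 o5) (.br _ _ _ o6 o7))) (.br _ _ _ (.br _ _ _ (.br _ _ _ o8 o9) (.br _ _ _ o10 o11)) (.br _ _ _ (.br _ _ _ o12 o13) (.br _ _ _ o14 (.br _ _ _ o15 o16)))))

end Pool.Agent.Lib.MP_ed43e6_ag.Q.Y57.R14
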