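import Pool.Agent.Lib.MP_ed43e6_ag.Y57.Fl

namespace Pool.Agent.Lib.MP_ed43e6_ag.Q.Y57.R15

set_option linter.defProp false

noncomputable def b0 : BT := .node (nat_lit 1) (nat_lit 0) .leaf .leaf
noncomputable def k0 : KT := (.br (Nat.shiftLeft (nat_lit 0x480580b) (nat_lit 65)) (.br (Nat.shiftLeft (nat_lit 0x900b015) (nat_lit 64)) (.one (nat_lit 0x900b0140000012016029400)) (.one (nat_lit 0x900b015000001201602b400))) (.br (Nat.shiftLeft (nat_lit 0x1) (nat_lit 100)) (.one (nat_lit 0x900b016000001201602d400)) (.one (nat_lit 0x100900b0140002012016028540))))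
def t0 : k0.all (jb2 57 fl b0) = true := by decide +kernel
noncomputable def k1 : KT := (.br (Nat.shiftLeft (nat_lit 0x80480580b) (nat_lit 65)) (.one (nat_lit 0x100900b015000201201602a540)) (.br (Nat.shiftLeft (nat_lit 0x1) (nat_lit 101)) (.one (nat_lit 0x100900b016000201201602c540)) (.one (nat_lit 0x200900b0140004012016029500))))
def t1 : k1.all (jb2 57 fl b0) = true := by decide +kernel
noncomputable def k2 : KT := (.one (nat_lit 0x200900b015000401201602a540))
def t2 : k2.all (jb2 57 fl b0) = true := by decide +kernel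
noncomputable def k3 : KT := (.br (Nat.shiftLeft (nat_lit 0x3) (nat_lit 100)) (.one (nat_lit 0x200900b016000401201602c540)) (.br (Nat.shiftLeft (nat_lit 0x300900b015) (nat_lit 64)) (.one (nat_lit 0x300900b0140006012016029500)) (.one (nat_lit 0x300900b015000601201602b500))))
def t3 : k3.all (jb2 57 fl b0) = true := by decide +kernel
noncomputable def k4 : KT := (.br (Nat.shiftLeft (nat_lit 0x1) (nat_lit 102)) (.one (nat_lit 0x300900b016000601201602c540)) (.br (Nat.shiftLeft (nat_lit 0x400900b015) (nat_lit 64)) (.one (nat_lit 0x400900b0140008012016029500)) (.one (nat_lit 0x400900b015000801201602b500))))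
def t4 : k4.all (jb2 57 fl b0) = true := by decide +kernel
noncomputable def k5 : KT := (.br (Nat.shiftLeft (nat_lit 0x5) (nat_lit 100)) (.one (nat_lit 0x400900b016000801201602c540)) (.one (nat_lit 0x500900b014000a012016029500)))
def t5 : k5.all (jb2 57 fl b0) = true := by decide +kernel
noncomputable def k6 : KT := (.one (nat_lit 0x500900b015000a01201602a540))
def t6 : k6.all (jb2 57 fl b0) = true := by decide +kernel
noncomputable def k7 : KT := (.br (Nat.shiftLeft (nat_lit 0x3) (nat_lit 101)) (.one (nat_lit 0x500900b016000a01201602c540)) (.one (nat_lit 0x600900b014000c012016029500)))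
def t7 : k7.all (jb2 57 fl b0) = true := by decide +kernel
noncomputable def k8 : KT := (.one (nat_lit 0x600900b015000c01201602a540))
def t8 : k8.all (jb2 57 fl b0) = true := by decide +kernel
noncomputable def k9 : KT := (.one (nat_lit 0x600900b016000c01201602c540))
def t9 : k9.all (jb2 57 fl b0) = true := by decide +kernel
noncomputable def k10 : KT := (.one (nat_lit 0x700900b014000e012016028540))
def t10 : k10.all (jb2 57 fl b0) = true := by decide +kernel
noncomputable def k11 : KT := (.br (Nat.shiftLeft (nat_lit 0x380480580b) (nat_lit 65)) (.one (nat_lit 0x700900b015000e01201602a540)) (.one (nat_lit 0x700900b016000e01201602c540)))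
def t11 : k11.all (jb2 57 fl b0) = true := by decide +kernel
noncomputable def k12 : KT := (.br (Nat.shiftLeft (nat_lit 0x800900b015) (nat_lit 64)) (.one (nat_lit 0x800900b0140010012016028540)) (.one (nat_lit 0x800900b015001001201602a540)))
def t12 : k12.all (jb2 57 fl b0) = true := by decide +kernel
noncomputable def k13 : KT := (.br (Nat.shiftLeft (nat_lit 0x100000900b015) (nat_lit 64)) (.br (Nat.shiftLeft (nat_lit 0x1) (nat_lit 112)) (.one (nat_lit 0x800900b016001001201602c540)) (.one (nat_lit 0x100000900b0142000012016028411))) (.br (Nat.shiftLeft (nat_lit 0x80000480580b) (nat_lit 65)) (.one (nat_lit 0x100000900b015200001201602a411)) (.br (Nat.shiftLeft (nat_lit 0x801) (nat_lit 101)) (.one (nat_lit 0x100000900b016200001201602c411)) (.one (nat_lit 0x100200900b0142004012016028650)))))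
def t13 : k13.all (jb2 57 fl b0) = true := by decide +kernel
noncomputable def k14 : KT := (.br (Nat.shiftLeft (nat_lit 0x100300900b015) (nat_lit 64)) (.one (nat_lit 0x100300900b0142006012016028650)) (.one (nat_lit 0x100300900b015200601201602a650)))
def t14 : k14.all (jb2 57 fl b0) = true := by decide +kernel
noncomputable def k15 : KT := (.br (Nat.shiftLeft (nat_lit 0x803) (nat_lit 101)) (.br (Nat.shiftLeft (nat_lit 0x100400900b015) (nat_lit 64)) (.one (nat_lit 0x100400900b0142008012016028650)) (.br (Nat.shiftLeft (nat_lit 0x1005) (nat_lit 100)) (.one (nat_lit 0x100400900b015200801201602a650)) (.one (nat_lit 0x100500900b014200a012016028650)))) (.br (Nat.shiftLeft (nat_lit 0x200000900b015) (nat_lit 64)) (.br (Nat.shiftLeft (nat_lit 0x1) (nat_lit 113)) (.one (nat_lit 0x100600900b014200c012016028650)) (.one (nat_lit 0x200000900b0144000012016028411))) (.br (Nat.shiftLeft (nat_lit 0x100000480580b) (nat_lit 65)) (.one (nat_lit 0x200000900b015400001201602a411)) (.one (nat_lit 0x200000900b016400001201602c411)))))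
def t15 : k15.all (jb2 57 fl b0) = true := by decide +kernel
noncomputable def k16 : KT := (.br (Nat.shiftLeft (nat_lit 0x200300900b015) (nat_lit 64)) (.one (nat_lit 0x200300900b0144006012016028650)) (.one (nat_lit 0x200300900b015400601201602a650)))
def t16 : k16.all (jb2 57 fl b0) = true := by decide +kernel
noncomputable def k17 : KT := (.br (Nat.shiftLeft (nat_lit 0x200400900b015) (nat_lit 64)) (.one (nat_lit 0x200400900b0144008012016028650)) (.br (Nat.shiftLeft (nat_lit 0x2005) (nat_lit 100)) (.one (nat_lit 0x200400900b015400801201602a650)) (.one (nat_lit 0x200500900b014400a012016028650))))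
def t17 : k17.all (jb2 57 fl b0) = true := by decide +kernel
noncomputable def k18 : KT := (.br (Nat.shiftLeft (nat_lit 0x180000480580b) (nat_lit 65)) (.br (Nat.shiftLeft (nat_lit 0x3) (nat_lit 112)) (.one (nat_lit 0x200600900b014400c012016028650)) (.br (Nat.shiftLeft (nat_lit 0x300000900b015) (nat_lit 64)) (.one (nat_lit 0x300000900b0146000012016028411)) (.one (nat_lit 0x300000900b015600001201602a411)))) (.br (Nat.shiftLeft (nat_lit 0xc01) (nat_lit 102)) (.one (nat_lit 0x300000900b016600001201602c411)) (.br (Nat.shiftLeft (nat_lit 0x300400900b015) (nat_lit 64)) (.one (nat_lit 0x300400900b0146008012016028650)) (.one (nat_lit 0x300400900b015600801201602a650)))))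
def t18 : k18.all (jb2 57 fl b0) = true := by decide +kernel
noncomputable def k19 : KT := (.br (Nat.shiftLeft (nat_lit 0x200000480580b) (nat_lit 65)) (.br (Nat.shiftLeft (nat_lit 0x1) (nat_lit 114)) (.br (Nat.shiftLeft (nat_lit 0x1803) (nat_lit 101)) (.one (nat_lit 0x300500900b014600a012016028650)) (.one (nat_lit 0x300600900b014600c012016028650))) (.br (Nat.shiftLeft (nat_lit 0x400000900b015) (nat_lit 64)) (.one (nat_lit 0x400000900b0148000012016028411)) (.one (nat_lit 0x400000900b015800001201602a411)))) (.br (Nat.shiftLeft (nat_lit 0x2003) (nat_lit 101)) (.br (Nat.shiftLeft (nat_lit 0x1001) (nat_lit 102)) (.one (nat_lit 0x400000900b016800001201602c411)) (.one (nat_lit 0x400500900b014800a012016028650))) (.br (Nat.shiftLeft (nat_lit 0x5) (nat_lit 112)) (.one (nat_lit 0x400600900b014800c012016028650)) (.br (Nat.shiftLeft (nat_lit 0x500000900b015) (nat_lit 64)) (.one (nat_lit 0x500000900b014a000012016028411)) (.one (nat_lit 0x500000900b015a00001201602a411))))))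
def t19 : k19.all (jb2 57 fl b0) = true := by decide +kernel
noncomputable def k20 : KT := (.br (Nat.shiftLeft (nat_lit 0x580000480580b) (nat_lit 65)) (.br (Nat.shiftLeft (nat_lit 0x800000900b015) (nat_lit 64)) (.br (Nat.shiftLeft (nat_lit 0x300000480580b) (nat_lit 65)) (.br (Nat.shiftLeft (nat_lit 0x3) (nat_lit 113)) (.br (Nat.shiftLeft (nat_lit 0x1401) (nat_lit 102)) (.one (nat_lit 0x500000900b016a00001201602c411)) (.one (nat_lit 0x500600900b014a00c012016028650))) (.br (Nat.shiftLeft (nat_lit 0x600000900b015) (nat_lit 64)) (.one (nat_lit 0x600000900b014c000012016028411)) (.one (nat_lit 0x600000900b015c00001201602a411)))) (.br (Nat.shiftLeft (nat_lit 0x700000900b015) (nat_lit 64)) (.br (Nat.shiftLeft (nat_lit 0x7) (nat_lit 112)) (.one (nat_lit 0x600000900b016c00001201602c411)) (.one (nat_lit 0x700000900b014e000012016028411))) (.br (Nat.shiftLeft (nat_lit 0x380000480580b) (nat_lit 65)) (.one (nat_lit 0x700000900b015e00001201602a411)) (.br (Nat.shiftLeft (nat_lit 0x1) (nat_lit 115)) (.one (nat_lit 0x700000900b016e00001201602c411))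 (.one (nat_lit 0x800000900b014000001201612a411)))))) (.br (Nat.shiftLeft (nat_lit 0x5) (nat_lit 113)) (.br (Nat.shiftLeft (nat_lit 0x9) (nat_lit 112)) (.br (Nat.shiftLeft (nat_lit 0x400000480580b) (nat_lit 65)) (.one (nat_lit 0x800000900b015000001201612c411)) (.one (nat_lit 0x800000900b016000001201612e411))) (.br (Nat.shiftLeft (nat_lit 0x900000900b015) (nat_lit 64)) (.one (nat_lit 0x900000900b014200001201612a411)) (.br (Nat.shiftLeft (nat_lit 0x480000480580b) (nat_lit 65)) (.one (nat_lit 0x900000900b015200001201612c411)) (.one (nat_lit 0x900000900b016200001201612e411))))) (.br (Nat.shiftLeft (nat_lit 0x500000480580b) (nat_lit 65)) (.br (Nat.shiftLeft (nat_lit 0xa00000900b015) (nat_lit 64)) (.one (nat_lit 0xa00000900b014400001201612a411)) (.one (nat_lit 0xa00000900b015400001201612c411))) (.br (Nat.shiftLeft (nat_lit 0xb) (nat_lit 112)) (.one (nat_lit 0xa00000900b016400001201612e411)) (.br (Nat.shiftLeft (nat_lit 0xb00000900b015) (nat_lit 64)) (.one (nat_lit 0xb00000900b014600001201612a411)) (.one (nat_lit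 0xb00000900b015600001201612c411))))))) (.br (Nat.shiftLeft (nat_lit 0x200000300900b015) (nat_lit 64)) (.br (Nat.shiftLeft (nat_lit 0x100000400900b015) (nat_lit 64)) (.br (Nat.shiftLeft (nat_lit 0x1000003) (nat_lit 100)) (.br (Nat.shiftLeft (nat_lit 0x1) (nat_lit 124)) (.one (nat_lit 0xb00000900b016600001201612e411)) (.one (nat_lit 0x100000200900b0140004012036428511))) (.br (Nat.shiftLeft (nat_lit 0x100000300900b015) (nat_lit 64)) (.one (nat_lit 0x100000300900b0140006012036428511)) (.br (Nat.shiftLeft (nat_lit 0x400001) (nat_lit 102)) (.one (nat_lit 0x100000300900b015000601203642a511)) (.one (nat_lit 0x100000400900b0140008012036428511))))) (.br (Nat.shiftLeft (nat_lit 0x800003) (nat_lit 101)) (.br (Nat.shiftLeft (nat_lit 0x1000005) (nat_lit 100)) (.one (nat_lit 0x100000400900b015000801203642a511)) (.one (nat_lit 0x100000500900b014000a012036428511))) (.br (Nat.shiftLeft (nat_lit 0x1) (nat_lit 125)) (.one (nat_lit 0x100000600900b014000c012036428511)) (.br (Nat.shiftLeft (nat_lit 0x2000003) (nat_lit 100)) (.one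 (nat_lit 0x200000200900b0140004012056828511)) (.one (nat_lit 0x200000300900b0140006012056828511)))))) (.br (Nat.shiftLeft (nat_lit 0x3) (nat_lit 124)) (.br (Nat.shiftLeft (nat_lit 0x200000400900b015) (nat_lit 64)) (.br (Nat.shiftLeft (nat_lit 0x800001) (nat_lit 102)) (.one (nat_lit 0x200000300900b015000601205682a511)) (.one (nat_lit 0x200000400900b0140008012056828511))) (.br (Nat.shiftLeft (nat_lit 0x2000005) (nat_lit 100)) (.one (nat_lit 0x200000400900b015000801205682a511)) (.br (Nat.shiftLeft (nat_lit 0x1000003) (nat_lit 101)) (.one (nat_lit 0x200000500900b014000a012056828511)) (.one (nat_lit 0x200000600900b014000c012056828511))))) (.br (Nat.shiftLeft (nat_lit 0x300000300900b015) (nat_lit 64)) (.br (Nat.shiftLeft (nat_lit 0x3000003) (nat_lit 100)) (.one (nat_lit 0x300000200900b0140004012076c28511)) (.one (nat_lit 0x300000300900b0140006012076c28511))) (.br (Nat.shiftLeft (nat_lit 0xc00001) (nat_lit 102)) (.one (nat_lit 0x300000300900b0150006012076c2a511)) (.br (Nat.shiftLeft (nat_lit 0x300000400900b015)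 (nat_lit 64)) (.one (nat_lit 0x300000400900b0140008012076c28511)) (.one (nat_lit 0x300000400900b0150008012076c2a511))))))))
def t20 : k20.all (jb2 57 fl b0) = true := by decide +kernel
noncomputable def k21 : KT := (.br (Nat.shiftLeft (nat_lit 0x2000003) (nat_lit 101)) (.br (Nat.shiftLeft (nat_lit 0x400000300900b015) (nat_lit 64)) (.br (Nat.shiftLeft (nat_lit 0x1) (nat_lit 126)) (.br (Nat.shiftLeft (nat_lit 0x1800003) (nat_lit 101)) (.one (nat_lit 0x300000500900b014000a012076c28511)) (.one (nat_lit 0x300000600900b014000c012076c28511))) (.br (Nat.shiftLeft (nat_lit 0x4000003) (nat_lit 100)) (.one (nat_lit 0x400000200900b0140004012097028511)) (.one (nat_lit 0x400000300900b0140006012097028511)))) (.br (Nat.shiftLeft (nat_lit 0x400000400900b015) (nat_lit 64)) (.br (Nat.shiftLeft (nat_lit 0x1000001) (nat_lit 102)) (.one (nat_lit 0x400000300900b015000601209702a511)) (.one (nat_lit 0x400000400900b0140008012097028511))) (.br (Nat.shiftLeft (nat_lit 0x4000005) (nat_lit 100)) (.one (nat_lit 0x400000400900b015000801209702a511))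 (.one (nat_lit 0x400000500900b014000a012097028511))))) (.br (Nat.shiftLeft (nat_lit 0x1400001) (nat_lit 102)) (.br (Nat.shiftLeft (nat_lit 0x5000003) (nat_lit 100)) (.br (Nat.shiftLeft (nat_lit 0x5) (nat_lit 124)) (.one (nat_lit 0x400000600900b014000c012097028511)) (.one (nat_lit 0x500000200900b01400040120b7428511))) (.br (Nat.shiftLeft (nat_lit 0x500000300900b015) (nat_lit 64)) (.one (nat_lit 0x500000300900b01400060120b7428511)) (.one (nat_lit 0x500000300900b01500060120b742a511)))) (.br (Nat.shiftLeft (nat_lit 0x5000005) (nat_lit 100)) (.br (Nat.shiftLeft (nat_lit 0x500000400900b015) (nat_lit 64)) (.one (nat_lit 0x500000400900b01400080120b7428511)) (.one (nat_lit 0x500000400900b01500080120b742a511))) (.br (Nat.shiftLeft (nat_lit 0x2800003) (nat_lit 101)) (.one (nat_lit 0x500000500900b014000a0120b7428511)) (.one (nat_lit 0x500000600900b014000c0120b7428511))))))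
def t21 : k21.all (jb2 57 fl b0) = true := by decide +kernel
noncomputable def k22 : KT := (.br (Nat.shiftLeft (nat_lit 0x7) (nat_lit 124)) (.br (Nat.shiftLeft (nat_lit 0x1800001) (nat_lit 102)) (.br (Nat.shiftLeft (nat_lit 0x6000003) (nat_lit 100)) (.one (nat_lit 0x600000200900b01400040120d7828511)) (.br (Nat.shiftLeft (nat_lit 0x600000300900b015) (nat_lit 64)) (.one (nat_lit 0x600000300900b01400060120d7828511)) (.one (nat_lit 0x600000300900b01500060120d782a511)))) (.br (Nat.shiftLeft (nat_lit 0x6000005) (nat_lit 100)) (.br (Nat.shiftLeft (nat_lit 0x600000400900b015) (nat_lit 64)) (.one (nat_lit 0x600000400900b01400080120d7828511)) (.one (nat_lit 0x600000400900b01500080120d782a511))) (.br (Nat.shiftLeft (nat_lit 0x3000003) (nat_lit 101)) (.one (nat_lit 0x600000500900b014000a0120d7828511)) (.one (nat_lit 0x600000600900b014000c0120d7828511))))) (.br (Nat.shiftLeft (nat_lit 0x1c00001) (nat_lit 102)) (.br (Nat.shiftLeft (nat_lit 0x7000003) (nat_lit 100)) (.one (nat_lit 0x700000200900b01400040120f7c28511)) (.br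 (Nat.shiftLeft (nat_lit 0x700000300900b015) (nat_lit 64)) (.one (nat_lit 0x700000300900b01400060120f7c28511)) (.one (nat_lit 0x700000300900b01500060120f7c2a511)))) (.br (Nat.shiftLeft (nat_lit 0x7000005) (nat_lit 100)) (.br (Nat.shiftLeft (nat_lit 0x700000400900b015) (nat_lit 64)) (.one (nat_lit 0x700000400900b01400080120f7c28511)) (.one (nat_lit 0x700000400900b01500080120f7c2a511))) (.br (Nat.shiftLeft (nat_lit 0x3800003) (nat_lit 101)) (.one (nat_lit 0x700000500900b014000a0120f7c28511)) (.one (nat_lit 0x700000600900b014000c0120f7c28511))))))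
def t22 : k22.all (jb2 57 fl b0) = true := by decide +kernel
noncomputable def k23 : KT := (.br (Nat.shiftLeft (nat_lit 0x5) (nat_lit 125)) (.br (Nat.shiftLeft (nat_lit 0x9) (nat_lit 124)) (.br (Nat.shiftLeft (nat_lit 0x2000001) (nat_lit 102)) (.br (Nat.shiftLeft (nat_lit 0x8000003) (nat_lit 100)) (.one (nat_lit 0x800000200900b0140004012118028511)) (.br (Nat.shiftLeft (nat_lit 0x800000300900b015) (nat_lit 64)) (.one (nat_lit 0x800000300900b0140006012118028511)) (.one (nat_lit 0x800000300900b015000601211802a511)))) (.br (Nat.shiftLeft (nat_lit 0x8000005) (nat_lit 100)) (.br (Nat.shiftLeft (nat_lit 0x800000400900b015) (nat_lit 64)) (.one (nat_lit 0x800000400900b0140008012118028511)) (.one (nat_lit 0x800000400900b015000801211802a511))) (.br (Nat.shiftLeft (nat_lit 0x4000003) (nat_lit 101)) (.one (nat_lit 0x800000500900b014000a012118028511)) (.one (nat_lit 0x800000600900b014000c012118028511))))) (.br (Nat.shiftLeft (nat_lit 0x2400001) (nat_lit 102)) (.br (Nat.shiftLeft (nat_lit 0x9000003) (nat_lit 100)) (.one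 (nat_lit 0x900000200900b0140004012138428511)) (.br (Nat.shiftLeft (nat_lit 0x900000300900b015) (nat_lit 64)) (.one (nat_lit 0x900000300900b0140006012138428511)) (.one (nat_lit 0x900000300900b015000601213842a511)))) (.br (Nat.shiftLeft (nat_lit 0x9000005) (nat_lit 100)) (.br (Nat.shiftLeft (nat_lit 0x900000400900b015) (nat_lit 64)) (.one (nat_lit 0x900000400900b0140008012138428511)) (.one (nat_lit 0x900000400900b015000801213842a511))) (.br (Nat.shiftLeft (nat_lit 0x4800003) (nat_lit 101)) (.one (nat_lit 0x900000500900b014000a012138428511)) (.one (nat_lit 0x900000600900b014000c012138428511)))))) (.br (Nat.shiftLeft (nat_lit 0xb) (nat_lit 124)) (.br (Nat.shiftLeft (nat_lit 0x2800001) (nat_lit 102)) (.br (Nat.shiftLeft (nat_lit 0xa000003) (nat_lit 100)) (.one (nat_lit 0xa00000200900b0140004012158828511)) (.br (Nat.shiftLeft (nat_lit 0xa00000300900b015) (nat_lit 64)) (.one (nat_lit 0xa00000300900b0140006012158828511)) (.one (nat_lit 0xa00000300900b015000601215882a511)))) (.br (Nat.shiftLeft (nat_lit 0xa000005)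 (nat_lit 100)) (.br (Nat.shiftLeft (nat_lit 0xa00000400900b015) (nat_lit 64)) (.one (nat_lit 0xa00000400900b0140008012158828511)) (.one (nat_lit 0xa00000400900b015000801215882a511))) (.br (Nat.shiftLeft (nat_lit 0x5000003) (nat_lit 101)) (.one (nat_lit 0xa00000500900b014000a012158828511)) (.one (nat_lit 0xa00000600900b014000c012158828511))))) (.br (Nat.shiftLeft (nat_lit 0x2c00001) (nat_lit 102)) (.br (Nat.shiftLeft (nat_lit 0xb000003) (nat_lit 100)) (.one (nat_lit 0xb00000200900b0140004012178c28511)) (.br (Nat.shiftLeft (nat_lit 0xb00000300900b015) (nat_lit 64)) (.one (nat_lit 0xb00000300900b0140006012178c28511)) (.one (nat_lit 0xb00000300900b0150006012178c2a511)))) (.br (Nat.shiftLeft (nat_lit 0xb000005) (nat_lit 100)) (.br (Nat.shiftLeft (nat_lit 0xb00000400900b015) (nat_lit 64)) (.one (nat_lit 0xb00000400900b0140008012178c28511)) (.one (nat_lit 0xb00000400900b0150008012178c2a511))) (.br (Nat.shiftLeft (nat_lit 0x5800003) (nat_lit 101)) (.one (nat_lit 0xb00000500900b014000a012178c28511)) (.one (nat_lit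 0xb00000600900b014000c012178c28511)))))))
def t23 : k23.all (jb2 57 fl b0) = true := by decide +kernel
noncomputable def s0 : KT := (.br (nat_lit 0x700900b016000e01201602c540) (.br (nat_lit 0x500900b014000a012016029500) (.br (nat_lit 0x200900b015000401201602a540) (.br (nat_lit 0x100900b0140002012016028540) k0 (.br (nat_lit 0x200900b0140004012016029500) k1 k2)) (.br (nat_lit 0x300900b015000601201602b500) k3 (.br (nat_lit 0x400900b015000801201602b500) k4 k5))) (.br (nat_lit 0x600900b015000c01201602a540) (.br (nat_lit 0x500900b015000a01201602a540) k6 (.br (nat_lit 0x600900b014000c012016029500) k7 k8)) (.br (nat_lit 0x600900b016000c01201602c540) k9 (.br (nat_lit 0x700900b014000e012016028540) k10 k11)))) (.br (nat_lit 0x200500900b014400a012016028650) (.br (nat_lit 0x100300900b015200601201602a650) (.br (nat_lit 0x800900b015001001201602a540) k12 (.br (nat_lit 0x100200900b0142004012016028650) k13 k14)) (.br (nat_lit 0x200000900b016400001201602c411) k15 (.br (nat_lit 0x200300900b015400601201602a650) k16 k17))) (.br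 (nat_lit 0x300000400900b0150008012076c2a511) (.br (nat_lit 0x300400900b015600801201602a650) k18 (.br (nat_lit 0x500000900b015a00001201602a411) k19 k20)) (.br (nat_lit 0x500000600900b014000c0120b7428511) k21 (.br (nat_lit 0x700000600900b014000c0120f7c28511) k22 k23)))))
noncomputable def u0 : KT := (.br (Nat.shiftLeft (nat_lit 0x900b015) (nat_lit 64)) (.one (nat_lit 0x900b0140000012016028430)) (.br (Nat.shiftLeft (nat_lit 0x480580b) (nat_lit 65)) (.one (nat_lit 0x900b015000001201602a430)) (.one (nat_lit 0x900b016000001201602c430))))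
def w0 : u0.all (wj 57 s0) = true := by decide +kernel
def o0 : OkW 57 (jb2 57 fl) u0 := .lift s0 _ (.br _ _ _ (.br _ _ _ (.br _ _ _ (.br _ _ _ (.leaf b0 k0 t0) (.br _ _ _ (.leaf b0 k1 t1) (.leaf b0 k2 t2))) (.br _ _ _ (.leaf b0 k3 t3) (.br _ _ _ (.leaf b0 k4 t4) (.leaf b0 k5 t5)))) (.br _ _ _ (.br _ _ _ (.leaf b0 k6 t6) (.br _ _ _ (.leaf b0 k7 t7) (.leaf b0 k8 t8))) (.br _ _ _ (.leaf b0 k9 t9) (.br _ _ _ (.leaf b0 k10 t10) (.leaf b0 k11 t11))))) (.br _ _ _ (.br _ _ _ (.br _ _ _ (.leaf b0 k12 t12) (.br _ _ _ (.leaf b0 k13 t13) (.leaf b0 k14 t14))) (.br _ _ _ (.leaf b0 k15 t15) (.br _ _ _ (.leaf b0 k16 t16) (.leaf b0 k17 t17)))) (.br _ _ _ (.br _ _ _ (.leaf b0 k18 t18) (.br _ _ _ (.leaf b0 k19 t19) (.leaf b0 k20 t20))) (.br _ _ _ (.leaf b0 k21 t21) (.br _ _ _ (.leaf b0 k22 t22) (.leaf b0 k23 t23)))))) w0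
noncomputable def k24 : KT := (.br (Nat.shiftLeft (nat_lit 0x900c00f) (nat_lit 64)) (.br (Nat.shiftLeft (nat_lit 0x2403) (nat_lit 78)) (.br (Nat.shiftLeft (nat_lit 0x1201603) (nat_lit 67)) (.one (nat_lit 0x900b017000001201602f400)) (.one (nat_lit 0x900b0180000012016031400))) (.br (Nat.shiftLeft (nat_lit 0x4806007) (nat_lit 65)) (.one (nat_lit 0x900c00d000001201801b400)) (.one (nat_lit 0x900c00e000001201801d400)))) (.br (Nat.shiftLeft (nat_lit 0x1) (nat_lit 100)) (.br (Nat.shiftLeft (nat_lit 0x900c01) (nat_lit 68)) (.one (nat_lit 0x900c00f000001201801f400)) (.one (nat_lit 0x900c0100000012018021400))) (.br (Nat.shiftLeft (nat_lit 0x201201603) (nat_lit 67)) (.one (nat_lit 0x100900b017000201201602e540)) (.one (nat_lit 0x100900b0180002012016030540)))))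
def t24 : k24.all (jb2 57 fl b0) = true := by decide +kernel
noncomputable def k25 : KT := (.br (Nat.shiftLeft (nat_lit 0x401201603) (nat_lit 67)) (.one (nat_lit 0x200900b017000401201602e540)) (.one (nat_lit 0x200900b0180004012016030540)))
def t25 : k25.all (jb2 57 fl b0) = true := by decide +kernel
noncomputable def k26 : KT := (.br (Nat.shiftLeft (nat_lit 0x601201603) (nat_lit 67)) (.one (nat_lit 0x300900b017000601201602e540)) (.one (nat_lit 0x300900b0180006012016030540)))
def t26 : k26.all (jb2 57 fl b0) = true := by decide +kernel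
noncomputable def k27 : KT := (.br (Nat.shiftLeft (nat_lit 0x801201603) (nat_lit 67)) (.one (nat_lit 0x400900b017000801201602e540)) (.one (nat_lit 0x400900b0180008012016030540)))
def t27 : k27.all (jb2 57 fl b0) = true := by decide +kernel
noncomputable def k28 : KT := (.br (Nat.shiftLeft (nat_lit 0xa01201603) (nat_lit 67)) (.one (nat_lit 0x500900b017000a01201602e540)) (.one (nat_lit 0x500900b018000a012016030540)))
def t28 : k28.all (jb2 57 fl b0) = true := by decide +kernel
noncomputable def k29 : KT := (.br (Nat.shiftLeft (nat_lit 0x7) (nat_lit 100)) (.br (Nat.shiftLeft (nat_lit 0xc01201603) (nat_lit 67)) (.one (nat_lit 0x600900b017000c01201602e540)) (.one (nat_lit 0x600900b018000c012016030540))) (.br (Nat.shiftLeft (nat_lit 0xe01201603) (nat_lit 67)) (.one (nat_lit 0x700900b017000e01201602e540)) (.br (Nat.shiftLeft (nat_lit 0x1) (nat_lit 103)) (.one (nat_lit 0x700900b018000e012016030540)) (.one (nat_lit 0x800900b017001001201602e540)))))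
def t29 : k29.all (jb2 57 fl b0) = true := by decide +kernel
noncomputable def k30 : KT := (.br (Nat.shiftLeft (nat_lit 0x3) (nat_lit 113)) (.br (Nat.shiftLeft (nat_lit 0x3) (nat_lit 112)) (.br (Nat.shiftLeft (nat_lit 0x200001201603) (nat_lit 67)) (.br (Nat.shiftLeft (nat_lit 0x1) (nat_lit 112)) (.one (nat_lit 0x800900b0180010012016030540)) (.one (nat_lit 0x100000900b017200001201602e411))) (.br (Nat.shiftLeft (nat_lit 0x1) (nat_lit 113)) (.one (nat_lit 0x100000900b0182000012016030411)) (.br (Nat.shiftLeft (nat_lit 0x400001201603) (nat_lit 67)) (.one (nat_lit 0x200000900b017400001201602e411)) (.one (nat_lit 0x200000900b0184000012016030411))))) (.br (Nat.shiftLeft (nat_lit 0x800001201603) (nat_lit 67)) (.br (Nat.shiftLeft (nat_lit 0x600001201603) (nat_lit 67)) (.one (nat_lit 0x300000900b017600001201602e411)) (.br (Nat.shiftLeft (nat_lit 0x1) (nat_lit 114)) (.one (nat_lit 0x300000900b0186000012016030411)) (.one (nat_lit 0x400000900b017800001201602e411)))) (.br (Nat.shiftLeft (nat_lit 0x5) (nat_lit 112)) (.one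 (nat_lit 0x400000900b0188000012016030411)) (.br (Nat.shiftLeft (nat_lit 0xa00001201603) (nat_lit 67)) (.one (nat_lit 0x500000900b017a00001201602e411)) (.one (nat_lit 0x500000900b018a000012016030411)))))) (.br (Nat.shiftLeft (nat_lit 0x9) (nat_lit 112)) (.br (Nat.shiftLeft (nat_lit 0xe00001201603) (nat_lit 67)) (.br (Nat.shiftLeft (nat_lit 0xc00001201603) (nat_lit 67)) (.one (nat_lit 0x600000900b017c00001201602e411)) (.br (Nat.shiftLeft (nat_lit 0x7) (nat_lit 112)) (.one (nat_lit 0x600000900b018c000012016030411)) (.one (nat_lit 0x700000900b017e00001201602e411)))) (.br (Nat.shiftLeft (nat_lit 0x1) (nat_lit 115)) (.one (nat_lit 0x700000900b018e000012016030411)) (.br (Nat.shiftLeft (nat_lit 0x1000001201603) (nat_lit 67)) (.one (nat_lit 0x800000900b0170000012016130411)) (.one (nat_lit 0x800000900b0180000012016132411))))) (.br (Nat.shiftLeft (nat_lit 0x1400001201603) (nat_lit 67)) (.br (Nat.shiftLeft (nat_lit 0x1200001201603) (nat_lit 67)) (.one (nat_lit 0x900000900b0172000012016130411)) (.br (Nat.shiftLeft (nat_lit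 0x5) (nat_lit 113)) (.one (nat_lit 0x900000900b0182000012016132411)) (.one (nat_lit 0xa00000900b0174000012016130411)))) (.br (Nat.shiftLeft (nat_lit 0xb) (nat_lit 112)) (.one (nat_lit 0xa00000900b0184000012016132411)) (.br (Nat.shiftLeft (nat_lit 0x1600001201603) (nat_lit 67)) (.one (nat_lit 0xb00000900b0176000012016130411)) (.one (nat_lit 0xb00000900b0186000012016132411)))))))
def t30 : k30.all (jb2 57 fl b0) = true := by decide +kernel
noncomputable def s1 : KT := (.br (nat_lit 0x300900b0180006012016030540) (.br (nat_lit 0x100900b0180002012016030540) k24 (.br (nat_lit 0x200900b0180004012016030540) k25 k26)) (.br (nat_lit 0x500900b018000a012016030540) (.br (nat_lit 0x400900b0180008012016030540) k27 k28) (.br (nat_lit 0x800900b017001001201602e540) k29 k30)))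
noncomputable def u1 : KT := (.br (Nat.shiftLeft (nat_lit 0x4806007) (nat_lit 65)) (.br (Nat.shiftLeft (nat_lit 0x1201603) (nat_lit 67)) (.one (nat_lit 0x900b017000001201602e430)) (.br (Nat.shiftLeft (nat_lit 0x2403) (nat_lit 78)) (.one (nat_lit 0x900b0180000012016030430)) (.one (nat_lit 0x900c00d000001201801b400)))) (.br (Nat.shiftLeft (nat_lit 0x900c00f) (nat_lit 64)) (.one (nat_lit 0x900c00e000001201801d400)) (.br (Nat.shiftLeft (nat_lit 0x900c01) (nat_lit 68)) (.one (nat_lit 0x900c00f000001201801f400)) (.one (nat_lit 0x900c0100000012018021400)))))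
def w1 : u1.all (wj 57 s1) = true := by decide +kernel
def o1 : OkW 57 (jb2 57 fl) u1 := .lift s1 _ (.br _ _ _ (.br _ _ _ (.leaf b0 k24 t24) (.br _ _ _ (.leaf b0 k25 t25) (.leaf b0 k26 t26))) (.br _ _ _ (.br _ _ _ (.leaf b0 k27 t27) (.leaf b0 k28 t28)) (.br _ _ _ (.leaf b0 k29 t29) (.leaf b0 k30 t30)))) w1
noncomputable def k31 : KT := (.br (Nat.shiftLeft (nat_lit 0x1) (nat_lit 101)) (.br (Nat.shiftLeft (nat_lit 0x1) (nat_lit 100)) (.one (nat_lit 0x900c0110000012018023400)) (.one (nat_lit 0x100900c0110002012018022540))) (.br (Nat.shiftLeft (nat_lit 0x3) (nat_lit 100)) (.one (nat_lit 0x200900c0110004012018023500)) (.br (Nat.shiftLeft (nat_lit 0x1) (nat_lit 102)) (.one (nat_lit 0x300900c0110006012018023500)) (.one (nat_lit 0x400900c0110008012018023500)))))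
noncomputable def b32 : BT := .node (nat_lit 0x1) (nat_lit 0x963274945c003a5c000ac7010008800028) .leaf .leaf
def t31 : k31.all (jb2 57 fl b32) = true := by decide +kernel
noncomputable def k32 : KT := (.br (Nat.shiftLeft (nat_lit 0x1) (nat_lit 103)) (.br (Nat.shiftLeft (nat_lit 0x3) (nat_lit 101)) (.one (nat_lit 0x500900c011000a012018023500)) (.br (Nat.shiftLeft (nat_lit 0x7) (nat_lit 100)) (.one (nat_lit 0x600900c011000c012018023500)) (.one (nat_lit 0x700900c011000e012018023500)))) (.br (Nat.shiftLeft (nat_lit 0x801) (nat_lit 101)) (.br (Nat.shiftLeft (nat_lit 0x1) (nat_lit 112)) (.one (nat_lit 0x800900c0110010012018023500)) (.one (nat_lit 0x100000900c0112000012018022411))) (.br (Nat.shiftLeft (nat_lit 0x1003) (nat_lit 100)) (.one (nat_lit 0x100200900c0112004012018023600)) (.one (nat_lit 0x100300900c0112006012018022650)))))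
def t32 : k32.all (jb2 57 fl b0) = true := by decide +kernel
noncomputable def k33 : KT := (.one (nat_lit 0x100400900c0112008012018022650))
def t33 : k33.all (jb2 57 fl b0) = true := by decide +kernel
noncomputable def k34 : KT := (.br (Nat.shiftLeft (nat_lit 0x803) (nat_lit 101)) (.one (nat_lit 0x100500900c011200a012018022650)) (.br (Nat.shiftLeft (nat_lit 0x1007) (nat_lit 100)) (.one (nat_lit 0x100600900c011200c012018022650)) (.one (nat_lit 0x100700900c011200e012018022650))))
def t34 : k34.all (jb2 57 fl b0) = true := by decide +kernel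
noncomputable def k35 : KT := (.br (Nat.shiftLeft (nat_lit 0x1001) (nat_lit 101)) (.br (Nat.shiftLeft (nat_lit 0x1) (nat_lit 113)) (.one (nat_lit 0x100800900c0112010012018022650)) (.one (nat_lit 0x200000900c0114000012018022411))) (.br (Nat.shiftLeft (nat_lit 0x801) (nat_lit 102)) (.one (nat_lit 0x200300900c0114006012018023600)) (.one (nat_lit 0x200400900c0114008012018022650))))
def t35 : k35.all (jb2 57 fl b0) = true := by decide +kernel
noncomputable def k36 : KT := (.br (Nat.shiftLeft (nat_lit 0x1003) (nat_lit 101)) (.one (nat_lit 0x200500900c011400a012018022650)) (.one (nat_lit 0x200600900c011400c012018022650)))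
def t36 : k36.all (jb2 57 fl b0) = true := by decide +kernel
noncomputable def k37 : KT := (.br (Nat.shiftLeft (nat_lit 0x401) (nat_lit 103)) (.one (nat_lit 0x200700900c011400e012018022650)) (.br (Nat.shiftLeft (nat_lit 0x3) (nat_lit 112)) (.one (nat_lit 0x200800900c0114010012018022650)) (.one (nat_lit 0x300000900c0116000012018022411))))
def t37 : k37.all (jb2 57 fl b0) = true := by decide +kernel
noncomputable def k38 : KT := (.one (nat_lit 0x300400900c0116008012018022650))
def t38 : k38.all (jb2 57 fl b0) = true := by decide +kernel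
noncomputable def k39 : KT := (.br (Nat.shiftLeft (nat_lit 0x1803) (nat_lit 101)) (.one (nat_lit 0x300500900c011600a012018022650)) (.one (nat_lit 0x300600900c011600c012018022650)))
def t39 : k39.all (jb2 57 fl b0) = true := by decide +kernel
noncomputable def k40 : KT := (.br (Nat.shiftLeft (nat_lit 0x601) (nat_lit 103)) (.one (nat_lit 0x300700900c011600e012018022650)) (.br (Nat.shiftLeft (nat_lit 0x1) (nat_lit 114)) (.one (nat_lit 0x300800900c0116010012018022650)) (.one (nat_lit 0x400000900c0118000012018022411))))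
def t40 : k40.all (jb2 57 fl b0) = true := by decide +kernel
noncomputable def k41 : KT := (.br (Nat.shiftLeft (nat_lit 0x2003) (nat_lit 101)) (.one (nat_lit 0x400500900c011800a012018022650)) (.one (nat_lit 0x400600900c011800c012018022650)))
def t41 : k41.all (jb2 57 fl b0) = true := by decide +kernel
noncomputable def k42 : KT := (.br (Nat.shiftLeft (nat_lit 0x5) (nat_lit 112)) (.br (Nat.shiftLeft (nat_lit 0x801) (nat_lit 103)) (.one (nat_lit 0x400700900c011800e012018022650)) (.one (nat_lit 0x400800900c0118010012018022650))) (.br (Nat.shiftLeft (nat_lit 0x1401) (nat_lit 102)) (.one (nat_lit 0x500000900c011a000012018022411)) (.br (Nat.shiftLeft (nat_lit 0x5007) (nat_lit 100)) (.one (nat_lit 0x500600900c011a00c012018022650)) (.one (nat_lit 0x500700900c011a00e012018022650)))))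
def t42 : k42.all (jb2 57 fl b0) = true := by decide +kernel
noncomputable def k43 : KT := (.br (Nat.shiftLeft (nat_lit 0xb) (nat_lit 112)) (.br (Nat.shiftLeft (nat_lit 0x7) (nat_lit 112)) (.br (Nat.shiftLeft (nat_lit 0x1801) (nat_lit 102)) (.br (Nat.shiftLeft (nat_lit 0x3) (nat_lit 113)) (.one (nat_lit 0x500800900c011a010012018022650)) (.one (nat_lit 0x600000900c011c000012018022411))) (.br (Nat.shiftLeft (nat_lit 0xc01) (nat_lit 103)) (.one (nat_lit 0x600700900c011c00e012018022650)) (.one (nat_lit 0x600800900c011c010012018022650)))) (.br (Nat.shiftLeft (nat_lit 0x1) (nat_lit 115)) (.br (Nat.shiftLeft (nat_lit 0xe01) (nat_lit 103)) (.one (nat_lit 0x700000900c011e000012018022411)) (.one (nat_lit 0x700800900c011e010012018022650))) (.br (Nat.shiftLeft (nat_lit 0x9) (nat_lit 112)) (.one (nat_lit 0x800000900c0110000012018124411)) (.br (Nat.shiftLeft (nat_lit 0x5) (nat_lit 113)) (.one (nat_lit 0x900000900c0112000012018124411)) (.one (nat_lit 0xa00000900c0114000012018124411)))))) (.br (Nat.shiftLeft (nat_lit 0x400001)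 (nat_lit 102)) (.br (Nat.shiftLeft (nat_lit 0x1) (nat_lit 124)) (.br (Nat.shiftLeft (nat_lit 0x3) (nat_lit 114)) (.one (nat_lit 0xb00000900c0116000012018124411)) (.one (nat_lit 0xc00000900c0118000012018124411))) (.br (Nat.shiftLeft (nat_lit 0x1000003) (nat_lit 100)) (.one (nat_lit 0x100000200900c0110004012038422511)) (.one (nat_lit 0x100000300900c0110006012038422511)))) (.br (Nat.shiftLeft (nat_lit 0x800003) (nat_lit 101)) (.br (Nat.shiftLeft (nat_lit 0x1000005) (nat_lit 100)) (.one (nat_lit 0x100000400900c0110008012038422511)) (.one (nat_lit 0x100000500900c011000a012038422511))) (.br (Nat.shiftLeft (nat_lit 0x1000007) (nat_lit 100)) (.one (nat_lit 0x100000600900c011000c012038422511)) (.br (Nat.shiftLeft (nat_lit 0x200001) (nat_lit 103)) (.one (nat_lit 0x100000700900c011000e012038422511)) (.one (nat_lit 0x100000800900c0110010012038422511)))))))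
def t43 : k43.all (jb2 57 fl b0) = true := by decide +kernel
noncomputable def k44 : KT := (.br (Nat.shiftLeft (nat_lit 0xc00001) (nat_lit 102)) (.br (Nat.shiftLeft (nat_lit 0x1000003) (nat_lit 101)) (.br (Nat.shiftLeft (nat_lit 0x2000003) (nat_lit 100)) (.br (Nat.shiftLeft (nat_lit 0x1) (nat_lit 125)) (.one (nat_lit 0x100200300900c0114006012038422760)) (.one (nat_lit 0x200000200900c0110004012058822511))) (.br (Nat.shiftLeft (nat_lit 0x800001) (nat_lit 102)) (.one (nat_lit 0x200000300900c0110006012058822511)) (.br (Nat.shiftLeft (nat_lit 0x2000005) (nat_lit 100)) (.one (nat_lit 0x200000400900c0110008012058822511)) (.one (nat_lit 0x200000500900c011000a012058822511))))) (.br (Nat.shiftLeft (nat_lit 0x400001) (nat_lit 103)) (.br (Nat.shiftLeft (nat_lit 0x2000007) (nat_lit 100)) (.one (nat_lit 0x200000600900c011000c012058822511)) (.one (nat_lit 0x200000700900c011000e012058822511))) (.br (Nat.shiftLeft (nat_lit 0x3) (nat_lit 124)) (.one (nat_lit 0x200000800900c0110010012058822511)) (.br (Nat.shiftLeft (nat_lit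 0x3000003) (nat_lit 100)) (.one (nat_lit 0x300000200900c0110004012078c22511)) (.one (nat_lit 0x300000300900c0110006012078c22511)))))) (.br (Nat.shiftLeft (nat_lit 0x1) (nat_lit 126)) (.br (Nat.shiftLeft (nat_lit 0x1800003) (nat_lit 101)) (.br (Nat.shiftLeft (nat_lit 0x3000005) (nat_lit 100)) (.one (nat_lit 0x300000400900c0110008012078c22511)) (.one (nat_lit 0x300000500900c011000a012078c22511))) (.br (Nat.shiftLeft (nat_lit 0x3000007) (nat_lit 100)) (.one (nat_lit 0x300000600900c011000c012078c22511)) (.br (Nat.shiftLeft (nat_lit 0x600001) (nat_lit 103)) (.one (nat_lit 0x300000700900c011000e012078c22511)) (.one (nat_lit 0x300000800900c0110010012078c22511))))) (.br (Nat.shiftLeft (nat_lit 0x1000001) (nat_lit 102)) (.br (Nat.shiftLeft (nat_lit 0x4000003) (nat_lit 100)) (.one (nat_lit 0x400000200900c0110004012099022511)) (.one (nat_lit 0x400000300900c0110006012099022511))) (.br (Nat.shiftLeft (nat_lit 0x4000005) (nat_lit 100)) (.one (nat_lit 0x400000400900c0110008012099022511)) (.br (Nat.shiftLeft (nat_lit 0x2000003)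 (nat_lit 101)) (.one (nat_lit 0x400000500900c011000a012099022511)) (.one (nat_lit 0x400000600900c011000c012099022511)))))))
def t44 : k44.all (jb2 57 fl b0) = true := by decide +kernel
noncomputable def k45 : KT := (.br (Nat.shiftLeft (nat_lit 0x5000005) (nat_lit 100)) (.br (Nat.shiftLeft (nat_lit 0x5) (nat_lit 124)) (.br (Nat.shiftLeft (nat_lit 0x800001) (nat_lit 103)) (.one (nat_lit 0x400000700900c011000e012099022511)) (.one (nat_lit 0x400000800900c0110010012099022511))) (.br (Nat.shiftLeft (nat_lit 0x5000003) (nat_lit 100)) (.one (nat_lit 0x500000200900c01100040120b9422511)) (.br (Nat.shiftLeft (nat_lit 0x1400001) (nat_lit 102)) (.one (nat_lit 0x500000300900c01100060120b9422511)) (.one (nat_lit 0x500000400900c01100080120b9422511))))) (.br (Nat.shiftLeft (nat_lit 0x5000007) (nat_lit 100)) (.br (Nat.shiftLeft (nat_lit 0x2800003) (nat_lit 101)) (.one (nat_lit 0x500000500900c011000a0120b9422511)) (.one (nat_lit 0x500000600900c011000c0120b9422511))) (.br (Nat.shiftLeft (nat_lit 0xa00001) (nat_lit 103)) (.one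 (nat_lit 0x500000700900c011000e0120b9422511)) (.br (Nat.shiftLeft (nat_lit 0x3) (nat_lit 125)) (.one (nat_lit 0x500000800900c01100100120b9422511)) (.one (nat_lit 0x600000200900c01100040120d9822511))))))
def t45 : k45.all (jb2 57 fl b0) = true := by decide +kernel
noncomputable def k46 : KT := (.br (Nat.shiftLeft (nat_lit 0x3000003) (nat_lit 101)) (.br (Nat.shiftLeft (nat_lit 0x1800001) (nat_lit 102)) (.one (nat_lit 0x600000300900c01100060120d9822511)) (.br (Nat.shiftLeft (nat_lit 0x6000005) (nat_lit 100)) (.one (nat_lit 0x600000400900c01100080120d9822511)) (.one (nat_lit 0x600000500900c011000a0120d9822511)))) (.br (Nat.shiftLeft (nat_lit 0xc00001) (nat_lit 103)) (.br (Nat.shiftLeft (nat_lit 0x6000007) (nat_lit 100)) (.one (nat_lit 0x600000600900c011000c0120d9822511)) (.one (nat_lit 0x600000700900c011000e0120d9822511))) (.br (Nat.shiftLeft (nat_lit 0x7) (nat_lit 124)) (.one (nat_lit 0x600000800900c01100100120d9822511)) (.one (nat_lit 0x700000200900c01100040120f9c22511)))))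
def t46 : k46.all (jb2 57 fl b0) = true := by decide +kernel
noncomputable def k47 : KT := (.br (Nat.shiftLeft (nat_lit 0x7000007) (nat_lit 100)) (.br (Nat.shiftLeft (nat_lit 0x7000005) (nat_lit 100)) (.br (Nat.shiftLeft (nat_lit 0x1c00001) (nat_lit 102)) (.one (nat_lit 0x700000300900c01100060120f9c22511)) (.one (nat_lit 0x700000400900c01100080120f9c22511))) (.br (Nat.shiftLeft (nat_lit 0x3800003) (nat_lit 101)) (.one (nat_lit 0x700000500900c011000a0120f9c22511)) (.one (nat_lit 0x700000600900c011000c0120f9c22511)))) (.br (Nat.shiftLeft (nat_lit 0x1) (nat_lit 127)) (.br (Nat.shiftLeft (nat_lit 0xe00001) (nat_lit 103)) (.one (nat_lit 0x700000700900c011000e0120f9c22511)) (.one (nat_lit 0x700000800900c01100100120f9c22511))) (.br (Nat.shiftLeft (nat_lit 0x8000003) (nat_lit 100)) (.one (nat_lit 0x800000200900c011000401211a022511)) (.br (Nat.shiftLeft (nat_lit 0x2000001) (nat_lit 102)) (.one (nat_lit 0x800000300900c011000601211a022511)) (.one (nat_lit 0x800000400900c011000801211a022511))))))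
def t47 : k47.all (jb2 57 fl b0) = true := by decide +kernel
noncomputable def k48 : KT := (.br (Nat.shiftLeft (nat_lit 0x2800001) (nat_lit 102)) (.br (Nat.shiftLeft (nat_lit 0x2400001) (nat_lit 102)) (.br (Nat.shiftLeft (nat_lit 0x1000001) (nat_lit 103)) (.br (Nat.shiftLeft (nat_lit 0x4000003) (nat_lit 101)) (.one (nat_lit 0x800000500900c011000a01211a022511)) (.br (Nat.shiftLeft (nat_lit 0x8000007) (nat_lit 100)) (.one (nat_lit 0x800000600900c011000c01211a022511)) (.one (nat_lit 0x800000700900c011000e01211a022511)))) (.br (Nat.shiftLeft (nat_lit 0x9) (nat_lit 124)) (.one (nat_lit 0x800000800900c011001001211a022511)) (.br (Nat.shiftLeft (nat_lit 0x9000003) (nat_lit 100)) (.one (nat_lit 0x900000200900c011000401213a422511)) (.one (nat_lit 0x900000300900c011000601213a422511))))) (.br (Nat.shiftLeft (nat_lit 0x9000007) (nat_lit 100)) (.br (Nat.shiftLeft (nat_lit 0x9000005) (nat_lit 100)) (.one (nat_lit 0x900000400900c011000801213a422511)) (.br (Nat.shiftLeft (nat_lit 0x4800003) (nat_lit 101)) (.one (nat_lit 0x900000500900c011000a01213a422511))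 (.one (nat_lit 0x900000600900c011000c01213a422511)))) (.br (Nat.shiftLeft (nat_lit 0x5) (nat_lit 125)) (.br (Nat.shiftLeft (nat_lit 0x1200001) (nat_lit 103)) (.one (nat_lit 0x900000700900c011000e01213a422511)) (.one (nat_lit 0x900000800900c011001001213a422511))) (.br (Nat.shiftLeft (nat_lit 0xa000003) (nat_lit 100)) (.one (nat_lit 0xa00000200900c011000401215a822511)) (.one (nat_lit 0xa00000300900c011000601215a822511)))))) (.br (Nat.shiftLeft (nat_lit 0xb000003) (nat_lit 100)) (.br (Nat.shiftLeft (nat_lit 0xa000007) (nat_lit 100)) (.br (Nat.shiftLeft (nat_lit 0xa000005) (nat_lit 100)) (.one (nat_lit 0xa00000400900c011000801215a822511)) (.br (Nat.shiftLeft (nat_lit 0x5000003) (nat_lit 101)) (.one (nat_lit 0xa00000500900c011000a01215a822511)) (.one (nat_lit 0xa00000600900c011000c01215a822511)))) (.br (Nat.shiftLeft (nat_lit 0x1400001) (nat_lit 103)) (.one (nat_lit 0xa00000700900c011000e01215a822511)) (.br (Nat.shiftLeft (nat_lit 0xb) (nat_lit 124)) (.one (nat_lit 0xa00000800900c011001001215a822511)) (.one (nat_lit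 0xb00000200900c011000401217ac22511))))) (.br (Nat.shiftLeft (nat_lit 0x5800003) (nat_lit 101)) (.br (Nat.shiftLeft (nat_lit 0x2c00001) (nat_lit 102)) (.one (nat_lit 0xb00000300900c011000601217ac22511)) (.br (Nat.shiftLeft (nat_lit 0xb000005) (nat_lit 100)) (.one (nat_lit 0xb00000400900c011000801217ac22511)) (.one (nat_lit 0xb00000500900c011000a01217ac22511)))) (.br (Nat.shiftLeft (nat_lit 0x1600001) (nat_lit 103)) (.br (Nat.shiftLeft (nat_lit 0xb000007) (nat_lit 100)) (.one (nat_lit 0xb00000600900c011000c01217ac22511)) (.one (nat_lit 0xb00000700900c011000e01217ac22511))) (.br (Nat.shiftLeft (nat_lit 0x3) (nat_lit 126)) (.one (nat_lit 0xb00000800900c011001001217ac22511)) (.one (nat_lit 0xc00000200900c011000401219b022511)))))))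
def t48 : k48.all (jb2 57 fl b0) = true := by decide +kernel
noncomputable def k49 : KT := (.br (Nat.shiftLeft (nat_lit 0x1000001) (nat_lit 113)) (.br (Nat.shiftLeft (nat_lit 0xc000007) (nat_lit 100)) (.br (Nat.shiftLeft (nat_lit 0xc000005) (nat_lit 100)) (.br (Nat.shiftLeft (nat_lit 0x3000001) (nat_lit 102)) (.one (nat_lit 0xc00000300900c011000601219b022511)) (.one (nat_lit 0xc00000400900c011000801219b022511))) (.br (Nat.shiftLeft (nat_lit 0x6000003) (nat_lit 101)) (.one (nat_lit 0xc00000500900c011000a01219b022511)) (.one (nat_lit 0xc00000600900c011000c01219b022511)))) (.br (Nat.shiftLeft (nat_lit 0x800001) (nat_lit 113)) (.br (Nat.shiftLeft (nat_lit 0x1) (nat_lit 136)) (.one (nat_lit 0xc00000700900c011000e01219b022511)) (.one (nat_lit 0x100000100200900c0112004032418022611))) (.br (Nat.shiftLeft (nat_lit 0x1) (nat_lit 137)) (.one (nat_lit 0x100000200300900c0114006032418022611)) (.one (nat_lit 0x200000100200900c0112004052818022611))))) (.br (Nat.shiftLeft (nat_lit 0x2000001) (nat_lit 113)) (.br (Nat.shiftLeft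 (nat_lit 0x1800001) (nat_lit 113)) (.br (Nat.shiftLeft (nat_lit 0x3) (nat_lit 136)) (.one (nat_lit 0x200000200300900c0114006052818022611)) (.one (nat_lit 0x300000100200900c0112004072c18022611))) (.br (Nat.shiftLeft (nat_lit 0x1) (nat_lit 138)) (.one (nat_lit 0x300000200300900c0114006072c18022611)) (.one (nat_lit 0x400000100200900c0112004093018022611)))) (.br (Nat.shiftLeft (nat_lit 0x2800001) (nat_lit 113)) (.br (Nat.shiftLeft (nat_lit 0x5) (nat_lit 136)) (.one (nat_lit 0x400000200300900c0114006093018022611)) (.one (nat_lit 0x500000100200900c01120040b3418022611))) (.br (Nat.shiftLeft (nat_lit 0x3) (nat_lit 137)) (.one (nat_lit 0x500000200300900c01140060b3418022611)) (.br (Nat.shiftLeft (nat_lit 0x3000001) (nat_lit 113)) (.one (nat_lit 0x600000100200900c01120040d3818022611)) (.one (nat_lit 0x600000200300900c01140060d3818022611)))))))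
def t49 : k49.all (jb2 57 fl b0) = true := by decide +kernel
noncomputable def k50 : KT := (.br (Nat.shiftLeft (nat_lit 0x5) (nat_lit 137)) (.br (Nat.shiftLeft (nat_lit 0x4000001) (nat_lit 113)) (.br (Nat.shiftLeft (nat_lit 0x3800001) (nat_lit 113)) (.one (nat_lit 0x700000100200900c01120040f3c18022611)) (.br (Nat.shiftLeft (nat_lit 0x1) (nat_lit 139)) (.one (nat_lit 0x700000200300900c01140060f3c18022611)) (.one (nat_lit 0x800000100200900c0112004114018022611)))) (.br (Nat.shiftLeft (nat_lit 0x9) (nat_lit 136)) (.one (nat_lit 0x800000200300900c0114006114018022611)) (.br (Nat.shiftLeft (nat_lit 0x4800001) (nat_lit 113)) (.one (nat_lit 0x900000100200900c0112004134418022611)) (.one (nat_lit 0x900000200300900c0114006134418022611))))) (.br (Nat.shiftLeft (nat_lit 0x5800001) (nat_lit 113)) (.br (Nat.shiftLeft (nat_lit 0x5000001) (nat_lit 113)) (.one (nat_lit 0xa00000100200900c0112004154818022611)) (.br (Nat.shiftLeft (nat_lit 0xb) (nat_lit 136)) (.one (nat_lit 0xa00000200300900c0114006154818022611)) (.one (nat_lit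 0xb00000100200900c0112004174c18022611)))) (.br (Nat.shiftLeft (nat_lit 0x3) (nat_lit 138)) (.one (nat_lit 0xb00000200300900c0114006174c18022611)) (.br (Nat.shiftLeft (nat_lit 0x6000001) (nat_lit 113)) (.one (nat_lit 0xc00000100200900c0112004195018022611)) (.one (nat_lit 0xc00000200300900c0114006195018022611))))))
def t50 : k50.all (jb2 57 fl b0) = true := by decide +kernel
noncomputable def s2 : KT := (.br (nat_lit 0x400000900c0118000012018022411) (.br (nat_lit 0x200400900c0114008012018022650) (.br (nat_lit 0x100300900c0112006012018022650) (.br (nat_lit 0x400900c0110008012018023500) k31 k32) (.br (nat_lit 0x100400900c0112008012018022650) k33 (.br (nat_lit 0x100700900c011200e012018022650) k34 k35))) (.br (nat_lit 0x300000900c0116000012018022411) (.br (nat_lit 0x200600900c011400c012018022650) k36 k37) (.br (nat_lit 0x300400900c0116008012018022650) k38 (.br (nat_lit 0x300600900c011600c012018022650) k39 k40)))) (.br (nat_lit 0x600000200900c01100040120d9822511) (.br (nat_lit 0x500700900c011a00e012018022650) (.br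 (nat_lit 0x400600900c011800c012018022650) k41 k42) (.br (nat_lit 0x100000800900c0110010012038422511) k43 (.br (nat_lit 0x400000600900c011000c012099022511) k44 k45))) (.br (nat_lit 0x800000400900c011000801211a022511) (.br (nat_lit 0x700000200900c01100040120f9c22511) k46 k47) (.br (nat_lit 0xc00000200900c011000401219b022511) k48 (.br (nat_lit 0x600000200300900c01140060d3818022611) k49 k50)))))
noncomputable def u2 : KT := (.one (nat_lit 0x900c0110000012018022430))
def w2 : u2.all (wj 57 s2) = true := by decide +kernel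
def o2 : OkW 57 (jb2 57 fl) u2 := .lift s2 _ (.br _ _ _ (.br _ _ _ (.br _ _ _ (.br _ _ _ (.leaf b32 k31 t31) (.leaf b0 k32 t32)) (.br _ _ _ (.leaf b0 k33 t33) (.br _ _ _ (.leaf b0 k34 t34) (.leaf b0 k35 t35)))) (.br _ _ _ (.br _ _ _ (.leaf b0 k36 t36) (.leaf b0 k37 t37)) (.br _ _ _ (.leaf b0 k38 t38) (.br _ _ _ (.leaf b0 k39 t39) (.leaf b0 k40 t40))))) (.br _ _ _ (.br _ _ _ (.br _ _ _ (.leaf b0 k41 t41) (.leaf b0 k42 t42)) (.br _ _ _ (.leaf b0 k43 t43) (.br _ _ _ (.leaf b0 k44 t44) (.leaf b0 k45 t45)))) (.br _ _ _ (.br _ _ _ (.leaf b0 k46 t46) (.leaf b0 k47 t47)) (.br _ _ _ (.leaf b0 k48 t48) (.br _ _ _ (.leaf b0 k49 t49) (.leaf b0 k50 t50)))))) w2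
noncomputable def k51 : KT := (.br (Nat.shiftLeft (nat_lit 0x1) (nat_lit 102)) (.br (Nat.shiftLeft (nat_lit 0x1) (nat_lit 101)) (.br (Nat.shiftLeft (nat_lit 0x1) (nat_lit 100)) (.one (nat_lit 0x900c0120000012018025400)) (.one (nat_lit 0x100900c0120002012018024540))) (.br (Nat.shiftLeft (nat_lit 0x3) (nat_lit 100)) (.one (nat_lit 0x200900c0120004012018025500)) (.one (nat_lit 0x300900c0120006012018025500)))) (.br (Nat.shiftLeft (nat_lit 0x3) (nat_lit 101)) (.br (Nat.shiftLeft (nat_lit 0x5) (nat_lit 100)) (.one (nat_lit 0x400900c0120008012018025500)) (.one (nat_lit 0x500900c012000a012018025500))) (.br (Nat.shiftLeft (nat_lit 0x7) (nat_lit 100)) (.one (nat_lit 0x600900c012000c012018025500)) (.one (nat_lit 0x700900c012000e012018025500)))))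
def t51 : k51.all (jb2 57 fl b0) = true := by decide +kernel
noncomputable def k52 : KT := (.br (Nat.shiftLeft (nat_lit 0x1) (nat_lit 112)) (.one (nat_lit 0x800900c0120010012018024540)) (.one (nat_lit 0x100000900c0122000012018024411)))
def t52 : k52.all (jb2 57 fl b0) = true := by decide +kernel
noncomputable def k53 : KT := (.one (nat_lit 0x100200900c0122004012018024650))
def t53 : k53.all (jb2 57 fl b0) = true := by decide +kernel
noncomputable def k54 : KT := (.one (nat_lit 0x100300900c0122006012018024650))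
def t54 : k54.all (jb2 57 fl b0) = true := by decide +kernel
noncomputable def k55 : KT := (.br (Nat.shiftLeft (nat_lit 0x1005) (nat_lit 100)) (.one (nat_lit 0x100400900c0122008012018024650)) (.br (Nat.shiftLeft (nat_lit 0x803) (nat_lit 101)) (.one (nat_lit 0x100500900c012200a012018024650)) (.one (nat_lit 0x100600900c012200c012018024650))))
def t55 : k55.all (jb2 57 fl b0) = true := by decide +kernel
noncomputable def k56 : KT := (.br (Nat.shiftLeft (nat_lit 0x1) (nat_lit 113)) (.one (nat_lit 0x100700900c012200e012018024650)) (.br (Nat.shiftLeft (nat_lit 0x1001) (nat_lit 101)) (.one (nat_lit 0x200000900c0124000012018024411)) (.one (nat_lit 0x200300900c0124006012018024650))))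
def t56 : k56.all (jb2 57 fl b0) = true := by decide +kernel
noncomputable def k57 : KT := (.br (Nat.shiftLeft (nat_lit 0x2005) (nat_lit 100)) (.one (nat_lit 0x200400900c0124008012018024650)) (.one (nat_lit 0x200500900c012400a012018024650)))
def t57 : k57.all (jb2 57 fl b0) = true := by decide +kernel
noncomputable def k58 : KT := (.br (Nat.shiftLeft (nat_lit 0x2007) (nat_lit 100)) (.one (nat_lit 0x200600900c012400c012018024650)) (.br (Nat.shiftLeft (nat_lit 0x3) (nat_lit 112)) (.one (nat_lit 0x200700900c012400e012018024650)) (.one (nat_lit 0x300000900c0126000012018024411))))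
def t58 : k58.all (jb2 57 fl b0) = true := by decide +kernel
noncomputable def k59 : KT := (.br (Nat.shiftLeft (nat_lit 0x3005) (nat_lit 100)) (.one (nat_lit 0x300400900c0126008012018024650)) (.one (nat_lit 0x300500900c012600a012018024650)))
def t59 : k59.all (jb2 57 fl b0) = true := by decide +kernel
noncomputable def k60 : KT := (.br (Nat.shiftLeft (nat_lit 0x1) (nat_lit 114)) (.br (Nat.shiftLeft (nat_lit 0x3007) (nat_lit 100)) (.one (nat_lit 0x300600900c012600c012018024650)) (.one (nat_lit 0x300700900c012600e012018024650))) (.br (Nat.shiftLeft (nat_lit 0x1001) (nat_lit 102)) (.one (nat_lit 0x400000900c0128000012018024411)) (.one (nat_lit 0x400500900c012800a012018024650))))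
def t60 : k60.all (jb2 57 fl b0) = true := by decide +kernel
noncomputable def k61 : KT := (.br (Nat.shiftLeft (nat_lit 0x5007) (nat_lit 100)) (.br (Nat.shiftLeft (nat_lit 0x5) (nat_lit 112)) (.br (Nat.shiftLeft (nat_lit 0x4007) (nat_lit 100)) (.one (nat_lit 0x400600900c012800c012018024650)) (.one (nat_lit 0x400700900c012800e012018024650))) (.br (Nat.shiftLeft (nat_lit 0x1401) (nat_lit 102)) (.one (nat_lit 0x500000900c012a000012018024411)) (.one (nat_lit 0x500600900c012a00c012018024650)))) (.br (Nat.shiftLeft (nat_lit 0x1801) (nat_lit 102)) (.br (Nat.shiftLeft (nat_lit 0x3) (nat_lit 113)) (.one (nat_lit 0x500700900c012a00e012018024650)) (.one (nat_lit 0x600000900c012c000012018024411))) (.br (Nat.shiftLeft (nat_lit 0x7) (nat_lit 112)) (.one (nat_lit 0x600700900c012c00e012018024650)) (.br (Nat.shiftLeft (nat_lit 0x1) (nat_lit 115)) (.one (nat_lit 0x700000900c012e000012018024411)) (.one (nat_lit 0x800000900c0120000012018126411))))))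
def t61 : k61.all (jb2 57 fl b0) = true := by decide +kernel
noncomputable def k62 : KT := (.br (Nat.shiftLeft (nat_lit 0x2000007) (nat_lit 100)) (.br (Nat.shiftLeft (nat_lit 0x1000005) (nat_lit 100)) (.br (Nat.shiftLeft (nat_lit 0x3) (nat_lit 114)) (.br (Nat.shiftLeft (nat_lit 0x5) (nat_lit 113)) (.one (nat_lit 0x900000900c0122000012018126411)) (.br (Nat.shiftLeft (nat_lit 0xb) (nat_lit 112)) (.one (nat_lit 0xa00000900c0124000012018126411)) (.one (nat_lit 0xb00000900c0126000012018126411)))) (.br (Nat.shiftLeft (nat_lit 0x1000003) (nat_lit 100)) (.br (Nat.shiftLeft (nat_lit 0x1) (nat_lit 124)) (.one (nat_lit 0xc00000900c0128000012018126411)) (.one (nat_lit 0x100000200900c0120004012038424511))) (.br (Nat.shiftLeft (nat_lit 0x400001) (nat_lit 102)) (.one (nat_lit 0x100000300900c0120006012038424511)) (.one (nat_lit 0x100000400900c0120008012038424511))))) (.br (Nat.shiftLeft (nat_lit 0x2000003) (nat_lit 100)) (.br (Nat.shiftLeft (nat_lit 0x1000007) (nat_lit 100)) (.br (Nat.shiftLeft (nat_lit 0x800003) (nat_lit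 101)) (.one (nat_lit 0x100000500900c012000a012038424511)) (.one (nat_lit 0x100000600900c012000c012038424511))) (.br (Nat.shiftLeft (nat_lit 0x1) (nat_lit 125)) (.one (nat_lit 0x100000700900c012000e012038424511)) (.one (nat_lit 0x200000200900c0120004012058824511)))) (.br (Nat.shiftLeft (nat_lit 0x2000005) (nat_lit 100)) (.br (Nat.shiftLeft (nat_lit 0x800001) (nat_lit 102)) (.one (nat_lit 0x200000300900c0120006012058824511)) (.one (nat_lit 0x200000400900c0120008012058824511))) (.br (Nat.shiftLeft (nat_lit 0x1000003) (nat_lit 101)) (.one (nat_lit 0x200000500900c012000a012058824511)) (.one (nat_lit 0x200000600900c012000c012058824511)))))) (.br (Nat.shiftLeft (nat_lit 0x1) (nat_lit 126)) (.br (Nat.shiftLeft (nat_lit 0xc00001) (nat_lit 102)) (.br (Nat.shiftLeft (nat_lit 0x3) (nat_lit 124)) (.one (nat_lit 0x200000700900c012000e012058824511)) (.br (Nat.shiftLeft (nat_lit 0x3000003) (nat_lit 100)) (.one (nat_lit 0x300000200900c0120004012078c24511)) (.one (nat_lit 0x300000300900c0120006012078c24511)))) (.br (Nat.shiftLeft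 (nat_lit 0x1800003) (nat_lit 101)) (.br (Nat.shiftLeft (nat_lit 0x3000005) (nat_lit 100)) (.one (nat_lit 0x300000400900c0120008012078c24511)) (.one (nat_lit 0x300000500900c012000a012078c24511))) (.br (Nat.shiftLeft (nat_lit 0x3000007) (nat_lit 100)) (.one (nat_lit 0x300000600900c012000c012078c24511)) (.one (nat_lit 0x300000700900c012000e012078c24511))))) (.br (Nat.shiftLeft (nat_lit 0x2000003) (nat_lit 101)) (.br (Nat.shiftLeft (nat_lit 0x1000001) (nat_lit 102)) (.br (Nat.shiftLeft (nat_lit 0x4000003) (nat_lit 100)) (.one (nat_lit 0x400000200900c0120004012099024511)) (.one (nat_lit 0x400000300900c0120006012099024511))) (.br (Nat.shiftLeft (nat_lit 0x4000005) (nat_lit 100)) (.one (nat_lit 0x400000400900c0120008012099024511)) (.one (nat_lit 0x400000500900c012000a012099024511)))) (.br (Nat.shiftLeft (nat_lit 0x5) (nat_lit 124)) (.br (Nat.shiftLeft (nat_lit 0x4000007) (nat_lit 100)) (.one (nat_lit 0x400000600900c012000c012099024511)) (.one (nat_lit 0x400000700900c012000e012099024511))) (.br (Nat.shiftLeft (nat_lit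 0x5000003) (nat_lit 100)) (.one (nat_lit 0x500000200900c01200040120b9424511)) (.one (nat_lit 0x500000300900c01200060120b9424511)))))))
def t62 : k62.all (jb2 57 fl b0) = true := by decide +kernel
noncomputable def k63 : KT := (.br (Nat.shiftLeft (nat_lit 0x6000003) (nat_lit 100)) (.br (Nat.shiftLeft (nat_lit 0x2800003) (nat_lit 101)) (.br (Nat.shiftLeft (nat_lit 0x5000005) (nat_lit 100)) (.one (nat_lit 0x500000400900c01200080120b9424511)) (.one (nat_lit 0x500000500900c012000a0120b9424511))) (.br (Nat.shiftLeft (nat_lit 0x5000007) (nat_lit 100)) (.one (nat_lit 0x500000600900c012000c0120b9424511)) (.br (Nat.shiftLeft (nat_lit 0x3) (nat_lit 125)) (.one (nat_lit 0x500000700900c012000e0120b9424511)) (.one (nat_lit 0x600000200900c01200040120d9824511))))) (.br (Nat.shiftLeft (nat_lit 0x6000005) (nat_lit 100)) (.br (Nat.shiftLeft (nat_lit 0x1800001) (nat_lit 102)) (.one (nat_lit 0x600000300900c01200060120d9824511)) (.one (nat_lit 0x600000400900c01200080120d9824511))) (.br (Nat.shiftLeft (nat_lit 0x3000003) (nat_lit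 101)) (.one (nat_lit 0x600000500900c012000a0120d9824511)) (.br (Nat.shiftLeft (nat_lit 0x6000007) (nat_lit 100)) (.one (nat_lit 0x600000600900c012000c0120d9824511)) (.one (nat_lit 0x600000700900c012000e0120d9824511))))))
def t63 : k63.all (jb2 57 fl b0) = true := by decide +kernel
noncomputable def k64 : KT := (.br (Nat.shiftLeft (nat_lit 0x1) (nat_lit 127)) (.br (Nat.shiftLeft (nat_lit 0x7000005) (nat_lit 100)) (.br (Nat.shiftLeft (nat_lit 0x7000003) (nat_lit 100)) (.one (nat_lit 0x700000200900c01200040120f9c24511)) (.br (Nat.shiftLeft (nat_lit 0x1c00001) (nat_lit 102)) (.one (nat_lit 0x700000300900c01200060120f9c24511)) (.one (nat_lit 0x700000400900c01200080120f9c24511)))) (.br (Nat.shiftLeft (nat_lit 0x3800003) (nat_lit 101)) (.one (nat_lit 0x700000500900c012000a0120f9c24511)) (.br (Nat.shiftLeft (nat_lit 0x7000007) (nat_lit 100)) (.one (nat_lit 0x700000600900c012000c0120f9c24511)) (.one (nat_lit 0x700000700900c012000e0120f9c24511))))) (.br (Nat.shiftLeft (nat_lit 0x8000005) (nat_lit 100)) (.br (Nat.shiftLeft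 (nat_lit 0x8000003) (nat_lit 100)) (.one (nat_lit 0x800000200900c012000401211a024511)) (.br (Nat.shiftLeft (nat_lit 0x2000001) (nat_lit 102)) (.one (nat_lit 0x800000300900c012000601211a024511)) (.one (nat_lit 0x800000400900c012000801211a024511)))) (.br (Nat.shiftLeft (nat_lit 0x8000007) (nat_lit 100)) (.br (Nat.shiftLeft (nat_lit 0x4000003) (nat_lit 101)) (.one (nat_lit 0x800000500900c012000a01211a024511)) (.one (nat_lit 0x800000600900c012000c01211a024511))) (.br (Nat.shiftLeft (nat_lit 0x9) (nat_lit 124)) (.one (nat_lit 0x800000700900c012000e01211a024511)) (.one (nat_lit 0x900000200900c012000401213a424511))))))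
def t64 : k64.all (jb2 57 fl b0) = true := by decide +kernel
noncomputable def k65 : KT := (.br (Nat.shiftLeft (nat_lit 0xb) (nat_lit 124)) (.br (Nat.shiftLeft (nat_lit 0x5) (nat_lit 125)) (.br (Nat.shiftLeft (nat_lit 0x9000005) (nat_lit 100)) (.br (Nat.shiftLeft (nat_lit 0x2400001) (nat_lit 102)) (.one (nat_lit 0x900000300900c012000601213a424511)) (.one (nat_lit 0x900000400900c012000801213a424511))) (.br (Nat.shiftLeft (nat_lit 0x4800003) (nat_lit 101)) (.one (nat_lit 0x900000500900c012000a01213a424511)) (.br (Nat.shiftLeft (nat_lit 0x9000007) (nat_lit 100)) (.one (nat_lit 0x900000600900c012000c01213a424511)) (.one (nat_lit 0x900000700900c012000e01213a424511))))) (.br (Nat.shiftLeft (nat_lit 0xa000005) (nat_lit 100)) (.br (Nat.shiftLeft (nat_lit 0xa000003) (nat_lit 100)) (.one (nat_lit 0xa00000200900c012000401215a824511)) (.br (Nat.shiftLeft (nat_lit 0x2800001) (nat_lit 102)) (.one (nat_lit 0xa00000300900c012000601215a824511)) (.one (nat_lit 0xa00000400900c012000801215a824511)))) (.br (Nat.shiftLeft (nat_lit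 0x5000003) (nat_lit 101)) (.one (nat_lit 0xa00000500900c012000a01215a824511)) (.br (Nat.shiftLeft (nat_lit 0xa000007) (nat_lit 100)) (.one (nat_lit 0xa00000600900c012000c01215a824511)) (.one (nat_lit 0xa00000700900c012000e01215a824511)))))) (.br (Nat.shiftLeft (nat_lit 0xb000007) (nat_lit 100)) (.br (Nat.shiftLeft (nat_lit 0x2c00001) (nat_lit 102)) (.br (Nat.shiftLeft (nat_lit 0xb000003) (nat_lit 100)) (.one (nat_lit 0xb00000200900c012000401217ac24511)) (.one (nat_lit 0xb00000300900c012000601217ac24511))) (.br (Nat.shiftLeft (nat_lit 0xb000005) (nat_lit 100)) (.one (nat_lit 0xb00000400900c012000801217ac24511)) (.br (Nat.shiftLeft (nat_lit 0x5800003) (nat_lit 101)) (.one (nat_lit 0xb00000500900c012000a01217ac24511)) (.one (nat_lit 0xb00000600900c012000c01217ac24511))))) (.br (Nat.shiftLeft (nat_lit 0x3000001) (nat_lit 102)) (.br (Nat.shiftLeft (nat_lit 0x3) (nat_lit 126)) (.one (nat_lit 0xb00000700900c012000e01217ac24511)) (.br (Nat.shiftLeft (nat_lit 0xc000003) (nat_lit 100)) (.one (nat_lit 0xc00000200900c012000401219b024511))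 (.one (nat_lit 0xc00000300900c012000601219b024511)))) (.br (Nat.shiftLeft (nat_lit 0xc000005) (nat_lit 100)) (.one (nat_lit 0xc00000400900c012000801219b024511)) (.br (Nat.shiftLeft (nat_lit 0x6000003) (nat_lit 101)) (.one (nat_lit 0xc00000500900c012000a01219b024511)) (.one (nat_lit 0xc00000600900c012000c01219b024511)))))))
def t65 : k65.all (jb2 57 fl b0) = true := by decide +kernel
noncomputable def s3 : KT := (.br (nat_lit 0x200500900c012400a012018024650) (.br (nat_lit 0x100200900c0122004012018024650) (.br (nat_lit 0x700900c012000e012018025500) k51 (.br (nat_lit 0x100000900c0122000012018024411) k52 k53)) (.br (nat_lit 0x100600900c012200c012018024650) (.br (nat_lit 0x100300900c0122006012018024650) k54 k55) (.br (nat_lit 0x200300900c0124006012018024650) k56 k57))) (.br (nat_lit 0x800000900c0120000012018126411) (.br (nat_lit 0x300500900c012600a012018024650) (.br (nat_lit 0x300000900c0126000012018024411) k58 k59) (.br (nat_lit 0x400500900c012800a012018024650) k60 k61)) (.br (nat_lit 0x600000700900c012000e0120d9824511)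 (.br (nat_lit 0x500000300900c01200060120b9424511) k62 k63) (.br (nat_lit 0x900000200900c012000401213a424511) k64 k65))))
noncomputable def u3 : KT := (.one (nat_lit 0x900c0120000012018024430))
def w3 : u3.all (wj 57 s3) = true := by decide +kernel
def o3 : OkW 57 (jb2 57 fl) u3 := .lift s3 _ (.br _ _ _ (.br _ _ _ (.br _ _ _ (.leaf b0 k51 t51) (.br _ _ _ (.leaf b0 k52 t52) (.leaf b0 k53 t53))) (.br _ _ _ (.br _ _ _ (.leaf b0 k54 t54) (.leaf b0 k55 t55)) (.br _ _ _ (.leaf b0 k56 t56) (.leaf b0 k57 t57)))) (.br _ _ _ (.br _ _ _ (.br _ _ _ (.leaf b0 k58 t58) (.leaf b0 k59 t59)) (.br _ _ _ (.leaf b0 k60 t60) (.leaf b0 k61 t61))) (.br _ _ _ (.br _ _ _ (.leaf b0 k62 t62) (.leaf b0 k63 t63)) (.br _ _ _ (.leaf b0 k64 t64) (.leaf b0 k65 t65))))) w3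
noncomputable def k66 : KT := (.br (Nat.shiftLeft (nat_lit 0x900c015) (nat_lit 64)) (.br (Nat.shiftLeft (nat_lit 0x2403005) (nat_lit 66)) (.one (nat_lit 0x900c0130000012018027400)) (.one (nat_lit 0x900c0140000012018029400))) (.br (Nat.shiftLeft (nat_lit 0x1) (nat_lit 100)) (.one (nat_lit 0x900c015000001201802b400)) (.one (nat_lit 0x100900c0130002012018026540))))
def t66 : k66.all (jb2 57 fl b0) = true := by decide +kernel
noncomputable def k67 : KT := (.br (Nat.shiftLeft (nat_lit 0x100900c015) (nat_lit 64)) (.one (nat_lit 0x100900c0140002012018028540)) (.br (Nat.shiftLeft (nat_lit 0x1) (nat_lit 101)) (.one (nat_lit 0x100900c015000201201802a540)) (.one (nat_lit 0x200900c0130004012018027500))))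
def t67 : k67.all (jb2 57 fl b0) = true := by decide +kernel
noncomputable def k68 : KT := (.one (nat_lit 0x200900c0140004012018028540))
def t68 : k68.all (jb2 57 fl b0) = true := by decide +kernel
noncomputable def k69 : KT := (.br (Nat.shiftLeft (nat_lit 0x3) (nat_lit 100)) (.one (nat_lit 0x200900c015000401201802a540)) (.br (Nat.shiftLeft (nat_lit 0xc02403005) (nat_lit 66)) (.one (nat_lit 0x300900c0130006012018027500)) (.one (nat_lit 0x300900c0140006012018029500))))
def t69 : k69.all (jb2 57 fl b0) = true := by decide +kernel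
noncomputable def k70 : KT := (.br (Nat.shiftLeft (nat_lit 0x1) (nat_lit 102)) (.one (nat_lit 0x300900c015000601201802a540)) (.br (Nat.shiftLeft (nat_lit 0x1002403005) (nat_lit 66)) (.one (nat_lit 0x400900c0130008012018027500)) (.one (nat_lit 0x400900c0140008012018029500))))
def t70 : k70.all (jb2 57 fl b0) = true := by decide +kernel
noncomputable def k71 : KT := (.br (Nat.shiftLeft (nat_lit 0x5) (nat_lit 100)) (.one (nat_lit 0x400900c015000801201802a540)) (.one (nat_lit 0x500900c013000a012018027500)))
def t71 : k71.all (jb2 57 fl b0) = true := by decide +kernel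
noncomputable def k72 : KT := (.one (nat_lit 0x500900c014000a012018028540))
def t72 : k72.all (jb2 57 fl b0) = true := by decide +kernel
noncomputable def k73 : KT := (.br (Nat.shiftLeft (nat_lit 0x3) (nat_lit 101)) (.one (nat_lit 0x500900c015000a01201802a540)) (.one (nat_lit 0x600900c013000c012018027500)))
def t73 : k73.all (jb2 57 fl b0) = true := by decide +kernel
noncomputable def k74 : KT := (.one (nat_lit 0x600900c014000c012018028540))
def t74 : k74.all (jb2 57 fl b0) = true := by decide +kernel
noncomputable def k75 : KT := (.one (nat_lit 0x600900c015000c01201802a540))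
def t75 : k75.all (jb2 57 fl b0) = true := by decide +kernel
noncomputable def k76 : KT := (.one (nat_lit 0x700900c013000e012018026540))
def t76 : k76.all (jb2 57 fl b0) = true := by decide +kernel
noncomputable def k77 : KT := (.br (Nat.shiftLeft (nat_lit 0x700900c015) (nat_lit 64)) (.one (nat_lit 0x700900c014000e012018028540)) (.one (nat_lit 0x700900c015000e01201802a540)))
def t77 : k77.all (jb2 57 fl b0) = true := by decide +kernel
noncomputable def k78 : KT := (.br (Nat.shiftLeft (nat_lit 0x2002403005) (nat_lit 66)) (.one (nat_lit 0x800900c0130010012018026540)) (.one (nat_lit 0x800900c0140010012018028540)))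
def t78 : k78.all (jb2 57 fl b0) = true := by decide +kernel
noncomputable def k79 : KT := (.br (Nat.shiftLeft (nat_lit 0x400002403005) (nat_lit 66)) (.br (Nat.shiftLeft (nat_lit 0x1) (nat_lit 112)) (.one (nat_lit 0x800900c015001001201802a540)) (.one (nat_lit 0x100000900c0132000012018026411))) (.br (Nat.shiftLeft (nat_lit 0x100000900c015) (nat_lit 64)) (.one (nat_lit 0x100000900c0142000012018028411)) (.br (Nat.shiftLeft (nat_lit 0x801) (nat_lit 101)) (.one (nat_lit 0x100000900c015200001201802a411)) (.one (nat_lit 0x100200900c0132004012018026650)))))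
def t79 : k79.all (jb2 57 fl b0) = true := by decide +kernel
noncomputable def k80 : KT := (.br (Nat.shiftLeft (nat_lit 0x400c02403005) (nat_lit 66)) (.one (nat_lit 0x100300900c0132006012018026650)) (.one (nat_lit 0x100300900c0142006012018028650)))
def t80 : k80.all (jb2 57 fl b0) = true := by decide +kernel
noncomputable def k81 : KT := (.br (Nat.shiftLeft (nat_lit 0x803) (nat_lit 101)) (.br (Nat.shiftLeft (nat_lit 0x401002403005) (nat_lit 66)) (.one (nat_lit 0x100400900c0132008012018026650)) (.br (Nat.shiftLeft (nat_lit 0x1005) (nat_lit 100)) (.one (nat_lit 0x100400900c0142008012018028650)) (.one (nat_lit 0x100500900c013200a012018026650)))) (.br (Nat.shiftLeft (nat_lit 0x800002403005) (nat_lit 66)) (.br (Nat.shiftLeft (nat_lit 0x1) (nat_lit 113)) (.one (nat_lit 0x100600900c013200c012018026650)) (.one (nat_lit 0x200000900c0134000012018026411))) (.br (Nat.shiftLeft (nat_lit 0x200000900c015) (nat_lit 64)) (.one (nat_lit 0x200000900c0144000012018028411)) (.one (nat_lit 0x200000900c015400001201802a411)))))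
def t81 : k81.all (jb2 57 fl b0) = true := by decide +kernel
noncomputable def k82 : KT := (.br (Nat.shiftLeft (nat_lit 0x800c02403005) (nat_lit 66)) (.one (nat_lit 0x200300900c0134006012018026650)) (.one (nat_lit 0x200300900c0144006012018028650)))
def t82 : k82.all (jb2 57 fl b0) = true := by decide +kernel
noncomputable def k83 : KT := (.br (Nat.shiftLeft (nat_lit 0x801002403005) (nat_lit 66)) (.one (nat_lit 0x200400900c0134008012018026650)) (.br (Nat.shiftLeft (nat_lit 0x2005) (nat_lit 100)) (.one (nat_lit 0x200400900c0144008012018028650)) (.one (nat_lit 0x200500900c013400a012018026650))))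
def t83 : k83.all (jb2 57 fl b0) = true := by decide +kernel
noncomputable def k84 : KT := (.br (Nat.shiftLeft (nat_lit 0x300000900c015) (nat_lit 64)) (.br (Nat.shiftLeft (nat_lit 0x3) (nat_lit 112)) (.one (nat_lit 0x200600900c013400c012018026650)) (.br (Nat.shiftLeft (nat_lit 0xc00002403005) (nat_lit 66)) (.one (nat_lit 0x300000900c0136000012018026411)) (.one (nat_lit 0x300000900c0146000012018028411)))) (.br (Nat.shiftLeft (nat_lit 0xc01) (nat_lit 102)) (.one (nat_lit 0x300000900c015600001201802a411)) (.br (Nat.shiftLeft (nat_lit 0xc01002403005) (nat_lit 66)) (.one (nat_lit 0x300400900c0136008012018026650)) (.one (nat_lit 0x300400900c0146008012018028650)))))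
def t84 : k84.all (jb2 57 fl b0) = true := by decide +kernel
noncomputable def k85 : KT := (.br (Nat.shiftLeft (nat_lit 0x400000900c015) (nat_lit 64)) (.br (Nat.shiftLeft (nat_lit 0x1) (nat_lit 114)) (.br (Nat.shiftLeft (nat_lit 0x1803) (nat_lit 101)) (.one (nat_lit 0x300500900c013600a012018026650)) (.one (nat_lit 0x300600900c013600c012018026650))) (.br (Nat.shiftLeft (nat_lit 0x1000002403005) (nat_lit 66)) (.one (nat_lit 0x400000900c0138000012018026411)) (.one (nat_lit 0x400000900c0148000012018028411)))) (.br (Nat.shiftLeft (nat_lit 0x2003) (nat_lit 101)) (.br (Nat.shiftLeft (nat_lit 0x1001) (nat_lit 102)) (.one (nat_lit 0x400000900c015800001201802a411)) (.one (nat_lit 0x400500900c013800a012018026650))) (.br (Nat.shiftLeft (nat_lit 0x5) (nat_lit 112)) (.one (nat_lit 0x400600900c013800c012018026650)) (.br (Nat.shiftLeft (nat_lit 0x1400002403005) (nat_lit 66)) (.one (nat_lit 0x500000900c013a000012018026411)) (.one (nat_lit 0x500000900c014a000012018028411))))))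
def t85 : k85.all (jb2 57 fl b0) = true := by decide +kernel
noncomputable def k86 : KT := (.br (Nat.shiftLeft (nat_lit 0xb00000900c015) (nat_lit 64)) (.br (Nat.shiftLeft (nat_lit 0x2000002403005) (nat_lit 66)) (.br (Nat.shiftLeft (nat_lit 0x600000900c015) (nat_lit 64)) (.br (Nat.shiftLeft (nat_lit 0x3) (nat_lit 113)) (.br (Nat.shiftLeft (nat_lit 0x1401) (nat_lit 102)) (.one (nat_lit 0x500000900c015a00001201802a411)) (.one (nat_lit 0x500600900c013a00c012018026650))) (.br (Nat.shiftLeft (nat_lit 0x1800002403005) (nat_lit 66)) (.one (nat_lit 0x600000900c013c000012018026411)) (.one (nat_lit 0x600000900c014c000012018028411)))) (.br (Nat.shiftLeft (nat_lit 0x1c00002403005) (nat_lit 66)) (.br (Nat.shiftLeft (nat_lit 0x7) (nat_lit 112)) (.one (nat_lit 0x600000900c015c00001201802a411)) (.one (nat_lit 0x700000900c013e000012018026411))) (.br (Nat.shiftLeft (nat_lit 0x700000900c015) (nat_lit 64)) (.one (nat_lit 0x700000900c014e000012018028411)) (.br (Nat.shiftLeft (nat_lit 0x1) (nat_lit 115)) (.one (nat_lit 0x700000900c015e00001201802a411))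 (.one (nat_lit 0x800000900c0130000012018128411)))))) (.br (Nat.shiftLeft (nat_lit 0x5) (nat_lit 113)) (.br (Nat.shiftLeft (nat_lit 0x9) (nat_lit 112)) (.br (Nat.shiftLeft (nat_lit 0x800000900c015) (nat_lit 64)) (.one (nat_lit 0x800000900c014000001201812a411)) (.one (nat_lit 0x800000900c015000001201812c411))) (.br (Nat.shiftLeft (nat_lit 0x2400002403005) (nat_lit 66)) (.one (nat_lit 0x900000900c0132000012018128411)) (.br (Nat.shiftLeft (nat_lit 0x900000900c015) (nat_lit 64)) (.one (nat_lit 0x900000900c014200001201812a411)) (.one (nat_lit 0x900000900c015200001201812c411))))) (.br (Nat.shiftLeft (nat_lit 0xa00000900c015) (nat_lit 64)) (.br (Nat.shiftLeft (nat_lit 0x2800002403005) (nat_lit 66)) (.one (nat_lit 0xa00000900c0134000012018128411)) (.one (nat_lit 0xa00000900c014400001201812a411))) (.br (Nat.shiftLeft (nat_lit 0xb) (nat_lit 112)) (.one (nat_lit 0xa00000900c015400001201812c411)) (.br (Nat.shiftLeft (nat_lit 0x2c00002403005) (nat_lit 66)) (.one (nat_lit 0xb00000900c0136000012018128411)) (.one (nat_lit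 0xb00000900c014600001201812a411))))))) (.br (Nat.shiftLeft (nat_lit 0x1000005) (nat_lit 100)) (.br (Nat.shiftLeft (nat_lit 0x1) (nat_lit 124)) (.br (Nat.shiftLeft (nat_lit 0x3000002403005) (nat_lit 66)) (.br (Nat.shiftLeft (nat_lit 0x3) (nat_lit 114)) (.one (nat_lit 0xb00000900c015600001201812c411)) (.one (nat_lit 0xc00000900c0138000012018128411))) (.br (Nat.shiftLeft (nat_lit 0xc00000900c015) (nat_lit 64)) (.one (nat_lit 0xc00000900c014800001201812a411)) (.one (nat_lit 0xc00000900c015800001201812c411)))) (.br (Nat.shiftLeft (nat_lit 0x400000c02403005) (nat_lit 66)) (.br (Nat.shiftLeft (nat_lit 0x1000003) (nat_lit 100)) (.one (nat_lit 0x100000200900c0130004012038426511)) (.one (nat_lit 0x100000300900c0130006012038426511))) (.br (Nat.shiftLeft (nat_lit 0x400001) (nat_lit 102)) (.one (nat_lit 0x100000300900c0140006012038428511)) (.br (Nat.shiftLeft (nat_lit 0x400001002403005) (nat_lit 66)) (.one (nat_lit 0x100000400900c0130008012038426511)) (.one (nat_lit 0x100000400900c0140008012038428511)))))) (.br (Nat.shiftLeft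 (nat_lit 0x800001) (nat_lit 102)) (.br (Nat.shiftLeft (nat_lit 0x1) (nat_lit 125)) (.br (Nat.shiftLeft (nat_lit 0x800003) (nat_lit 101)) (.one (nat_lit 0x100000500900c013000a012038426511)) (.one (nat_lit 0x100000600900c013000c012038426511))) (.br (Nat.shiftLeft (nat_lit 0x2000003) (nat_lit 100)) (.one (nat_lit 0x200000200900c0130004012058826511)) (.br (Nat.shiftLeft (nat_lit 0x800000c02403005) (nat_lit 66)) (.one (nat_lit 0x200000300900c0130006012058826511)) (.one (nat_lit 0x200000300900c0140006012058828511))))) (.br (Nat.shiftLeft (nat_lit 0x2000005) (nat_lit 100)) (.br (Nat.shiftLeft (nat_lit 0x800001002403005) (nat_lit 66)) (.one (nat_lit 0x200000400900c0130008012058826511)) (.one (nat_lit 0x200000400900c0140008012058828511))) (.br (Nat.shiftLeft (nat_lit 0x1000003) (nat_lit 101)) (.one (nat_lit 0x200000500900c013000a012058826511)) (.br (Nat.shiftLeft (nat_lit 0x3) (nat_lit 124)) (.one (nat_lit 0x200000600900c013000c012058826511)) (.one (nat_lit 0x300000200900c0130004012078c26511))))))))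
def t86 : k86.all (jb2 57 fl b0) = true := by decide +kernel
noncomputable def k87 : KT := (.br (Nat.shiftLeft (nat_lit 0x1000001) (nat_lit 102)) (.br (Nat.shiftLeft (nat_lit 0x3000005) (nat_lit 100)) (.br (Nat.shiftLeft (nat_lit 0xc00001) (nat_lit 102)) (.br (Nat.shiftLeft (nat_lit 0xc00000c02403005) (nat_lit 66)) (.one (nat_lit 0x300000300900c0130006012078c26511)) (.one (nat_lit 0x300000300900c0140006012078c28511))) (.br (Nat.shiftLeft (nat_lit 0xc00001002403005) (nat_lit 66)) (.one (nat_lit 0x300000400900c0130008012078c26511)) (.one (nat_lit 0x300000400900c0140008012078c28511)))) (.br (Nat.shiftLeft (nat_lit 0x1) (nat_lit 126)) (.br (Nat.shiftLeft (nat_lit 0x1800003) (nat_lit 101)) (.one (nat_lit 0x300000500900c013000a012078c26511)) (.one (nat_lit 0x300000600900c013000c012078c26511))) (.br (Nat.shiftLeft (nat_lit 0x4000003) (nat_lit 100)) (.one (nat_lit 0x400000200900c0130004012099026511)) (.br (Nat.shiftLeft (nat_lit 0x1000000c02403005) (nat_lit 66)) (.one (nat_lit 0x400000300900c0130006012099026511))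 (.one (nat_lit 0x400000300900c0140006012099028511)))))) (.br (Nat.shiftLeft (nat_lit 0x5) (nat_lit 124)) (.br (Nat.shiftLeft (nat_lit 0x4000005) (nat_lit 100)) (.br (Nat.shiftLeft (nat_lit 0x1000001002403005) (nat_lit 66)) (.one (nat_lit 0x400000400900c0130008012099026511)) (.one (nat_lit 0x400000400900c0140008012099028511))) (.br (Nat.shiftLeft (nat_lit 0x2000003) (nat_lit 101)) (.one (nat_lit 0x400000500900c013000a012099026511)) (.one (nat_lit 0x400000600900c013000c012099026511)))) (.br (Nat.shiftLeft (nat_lit 0x1400000c02403005) (nat_lit 66)) (.br (Nat.shiftLeft (nat_lit 0x5000003) (nat_lit 100)) (.one (nat_lit 0x500000200900c01300040120b9426511)) (.one (nat_lit 0x500000300900c01300060120b9426511))) (.br (Nat.shiftLeft (nat_lit 0x1400001) (nat_lit 102)) (.one (nat_lit 0x500000300900c01400060120b9428511)) (.br (Nat.shiftLeft (nat_lit 0x1400001002403005) (nat_lit 66)) (.one (nat_lit 0x500000400900c01300080120b9426511)) (.one (nat_lit 0x500000400900c01400080120b9428511)))))))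
def t87 : k87.all (jb2 57 fl b0) = true := by decide +kernel
noncomputable def k88 : KT := (.br (Nat.shiftLeft (nat_lit 0x6000005) (nat_lit 100)) (.br (Nat.shiftLeft (nat_lit 0x6000003) (nat_lit 100)) (.br (Nat.shiftLeft (nat_lit 0x2800003) (nat_lit 101)) (.one (nat_lit 0x500000500900c013000a0120b9426511)) (.br (Nat.shiftLeft (nat_lit 0x3) (nat_lit 125)) (.one (nat_lit 0x500000600900c013000c0120b9426511)) (.one (nat_lit 0x600000200900c01300040120d9826511)))) (.br (Nat.shiftLeft (nat_lit 0x1800001) (nat_lit 102)) (.br (Nat.shiftLeft (nat_lit 0x1800000c02403005) (nat_lit 66)) (.one (nat_lit 0x600000300900c01300060120d9826511)) (.one (nat_lit 0x600000300900c01400060120d9828511))) (.br (Nat.shiftLeft (nat_lit 0x1800001002403005) (nat_lit 66)) (.one (nat_lit 0x600000400900c01300080120d9826511)) (.one (nat_lit 0x600000400900c01400080120d9828511))))) (.br (Nat.shiftLeft (nat_lit 0x7000003) (nat_lit 100)) (.br (Nat.shiftLeft (nat_lit 0x3000003) (nat_lit 101)) (.one (nat_lit 0x600000500900c013000a0120d9826511)) (.br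 (Nat.shiftLeft (nat_lit 0x7) (nat_lit 124)) (.one (nat_lit 0x600000600900c013000c0120d9826511)) (.one (nat_lit 0x700000200900c01300040120f9c26511)))) (.br (Nat.shiftLeft (nat_lit 0x1c00001) (nat_lit 102)) (.br (Nat.shiftLeft (nat_lit 0x1c00000c02403005) (nat_lit 66)) (.one (nat_lit 0x700000300900c01300060120f9c26511)) (.one (nat_lit 0x700000300900c01400060120f9c28511))) (.br (Nat.shiftLeft (nat_lit 0x1c00001002403005) (nat_lit 66)) (.one (nat_lit 0x700000400900c01300080120f9c26511)) (.one (nat_lit 0x700000400900c01400080120f9c28511))))))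
def t88 : k88.all (jb2 57 fl b0) = true := by decide +kernel
noncomputable def k89 : KT := (.br (Nat.shiftLeft (nat_lit 0x2800000c02403005) (nat_lit 66)) (.br (Nat.shiftLeft (nat_lit 0x9) (nat_lit 124)) (.br (Nat.shiftLeft (nat_lit 0x2000000c02403005) (nat_lit 66)) (.br (Nat.shiftLeft (nat_lit 0x1) (nat_lit 127)) (.br (Nat.shiftLeft (nat_lit 0x3800003) (nat_lit 101)) (.one (nat_lit 0x700000500900c013000a0120f9c26511)) (.one (nat_lit 0x700000600900c013000c0120f9c26511))) (.br (Nat.shiftLeft (nat_lit 0x8000003) (nat_lit 100)) (.one (nat_lit 0x800000200900c013000401211a026511)) (.one (nat_lit 0x800000300900c013000601211a026511)))) (.br (Nat.shiftLeft (nat_lit 0x2000001002403005) (nat_lit 66)) (.br (Nat.shiftLeft (nat_lit 0x2000001) (nat_lit 102)) (.one (nat_lit 0x800000300900c014000601211a028511)) (.one (nat_lit 0x800000400900c013000801211a026511))) (.br (Nat.shiftLeft (nat_lit 0x8000005) (nat_lit 100)) (.one (nat_lit 0x800000400900c014000801211a028511)) (.br (Nat.shiftLeft (nat_lit 0x4000003) (nat_lit 101))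 (.one (nat_lit 0x800000500900c013000a01211a026511)) (.one (nat_lit 0x800000600900c013000c01211a026511)))))) (.br (Nat.shiftLeft (nat_lit 0x2400001002403005) (nat_lit 66)) (.br (Nat.shiftLeft (nat_lit 0x2400000c02403005) (nat_lit 66)) (.br (Nat.shiftLeft (nat_lit 0x9000003) (nat_lit 100)) (.one (nat_lit 0x900000200900c013000401213a426511)) (.one (nat_lit 0x900000300900c013000601213a426511))) (.br (Nat.shiftLeft (nat_lit 0x2400001) (nat_lit 102)) (.one (nat_lit 0x900000300900c014000601213a428511)) (.one (nat_lit 0x900000400900c013000801213a426511)))) (.br (Nat.shiftLeft (nat_lit 0x4800003) (nat_lit 101)) (.br (Nat.shiftLeft (nat_lit 0x9000005) (nat_lit 100)) (.one (nat_lit 0x900000400900c014000801213a428511)) (.one (nat_lit 0x900000500900c013000a01213a426511))) (.br (Nat.shiftLeft (nat_lit 0x5) (nat_lit 125)) (.one (nat_lit 0x900000600900c013000c01213a426511)) (.br (Nat.shiftLeft (nat_lit 0xa000003) (nat_lit 100)) (.one (nat_lit 0xa00000200900c013000401215a826511)) (.one (nat_lit 0xa00000300900c013000601215a826511)))))))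 (.br (Nat.shiftLeft (nat_lit 0x2c00001002403005) (nat_lit 66)) (.br (Nat.shiftLeft (nat_lit 0x5000003) (nat_lit 101)) (.br (Nat.shiftLeft (nat_lit 0x2800001002403005) (nat_lit 66)) (.br (Nat.shiftLeft (nat_lit 0x2800001) (nat_lit 102)) (.one (nat_lit 0xa00000300900c014000601215a828511)) (.one (nat_lit 0xa00000400900c013000801215a826511))) (.br (Nat.shiftLeft (nat_lit 0xa000005) (nat_lit 100)) (.one (nat_lit 0xa00000400900c014000801215a828511)) (.one (nat_lit 0xa00000500900c013000a01215a826511)))) (.br (Nat.shiftLeft (nat_lit 0xb000003) (nat_lit 100)) (.br (Nat.shiftLeft (nat_lit 0xb) (nat_lit 124)) (.one (nat_lit 0xa00000600900c013000c01215a826511)) (.one (nat_lit 0xb00000200900c013000401217ac26511))) (.br (Nat.shiftLeft (nat_lit 0x2c00000c02403005) (nat_lit 66)) (.one (nat_lit 0xb00000300900c013000601217ac26511)) (.br (Nat.shiftLeft (nat_lit 0x2c00001) (nat_lit 102)) (.one (nat_lit 0xb00000300900c014000601217ac28511)) (.one (nat_lit 0xb00000400900c013000801217ac26511)))))) (.br (Nat.shiftLeft (nat_lit 0xc000003)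 (nat_lit 100)) (.br (Nat.shiftLeft (nat_lit 0x5800003) (nat_lit 101)) (.br (Nat.shiftLeft (nat_lit 0xb000005) (nat_lit 100)) (.one (nat_lit 0xb00000400900c014000801217ac28511)) (.one (nat_lit 0xb00000500900c013000a01217ac26511))) (.br (Nat.shiftLeft (nat_lit 0x3) (nat_lit 126)) (.one (nat_lit 0xb00000600900c013000c01217ac26511)) (.one (nat_lit 0xc00000200900c013000401219b026511)))) (.br (Nat.shiftLeft (nat_lit 0x3000001) (nat_lit 102)) (.br (Nat.shiftLeft (nat_lit 0x3000000c02403005) (nat_lit 66)) (.one (nat_lit 0xc00000300900c013000601219b026511)) (.one (nat_lit 0xc00000300900c014000601219b028511))) (.br (Nat.shiftLeft (nat_lit 0x3000001002403005) (nat_lit 66)) (.one (nat_lit 0xc00000400900c013000801219b026511)) (.br (Nat.shiftLeft (nat_lit 0xc000005) (nat_lit 100)) (.one (nat_lit 0xc00000400900c014000801219b028511)) (.one (nat_lit 0xc00000500900c013000a01219b026511))))))))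
def t89 : k89.all (jb2 57 fl b0) = true := by decide +kernel
noncomputable def s4 : KT := (.br (nat_lit 0x700900c015000e01201802a540) (.br (nat_lit 0x500900c013000a012018027500) (.br (nat_lit 0x200900c0140004012018028540) (.br (nat_lit 0x100900c0130002012018026540) k66 (.br (nat_lit 0x200900c0130004012018027500) k67 k68)) (.br (nat_lit 0x300900c0140006012018029500) k69 (.br (nat_lit 0x400900c0140008012018029500) k70 k71))) (.br (nat_lit 0x600900c014000c012018028540) (.br (nat_lit 0x500900c014000a012018028540) k72 (.br (nat_lit 0x600900c013000c012018027500) k73 k74)) (.br (nat_lit 0x600900c015000c01201802a540) k75 (.br (nat_lit 0x700900c013000e012018026540) k76 k77)))) (.br (nat_lit 0x200500900c013400a012018026650) (.br (nat_lit 0x100300900c0142006012018028650) (.br (nat_lit 0x800900c0140010012018028540) k78 (.br (nat_lit 0x100200900c0132004012018026650) k79 k80)) (.br (nat_lit 0x200000900c015400001201802a411) k81 (.br (nat_lit 0x200300900c0144006012018028650) k82 k83))) (.br (nat_lit 0x300000200900c0130004012078c26511)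 (.br (nat_lit 0x300400900c0146008012018028650) k84 (.br (nat_lit 0x500000900c014a000012018028411) k85 k86)) (.br (nat_lit 0x500000400900c01400080120b9428511) k87 (.br (nat_lit 0x700000400900c01400080120f9c28511) k88 k89)))))
noncomputable def u4 : KT := (.br (Nat.shiftLeft (nat_lit 0x2403005) (nat_lit 66)) (.one (nat_lit 0x900c0130000012018026430)) (.br (Nat.shiftLeft (nat_lit 0x900c015) (nat_lit 64)) (.one (nat_lit 0x900c0140000012018028430)) (.one (nat_lit 0x900c015000001201802a430))))
def w4 : u4.all (wj 57 s4) = true := by decide +kernel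
def o4 : OkW 57 (jb2 57 fl) u4 := .lift s4 _ (.br _ _ _ (.br _ _ _ (.br _ _ _ (.br _ _ _ (.leaf b0 k66 t66) (.br _ _ _ (.leaf b0 k67 t67) (.leaf b0 k68 t68))) (.br _ _ _ (.leaf b0 k69 t69) (.br _ _ _ (.leaf b0 k70 t70) (.leaf b0 k71 t71)))) (.br _ _ _ (.br _ _ _ (.leaf b0 k72 t72) (.br _ _ _ (.leaf b0 k73 t73) (.leaf b0 k74 t74))) (.br _ _ _ (.leaf b0 k75 t75) (.br _ _ _ (.leaf b0 k76 t76) (.leaf b0 k77 t77))))) (.br _ _ _ (.br _ _ _ (.br _ _ _ (.leaf b0 k78 t78) (.br _ _ _ (.leaf b0 k79 t79) (.leaf b0 k80 t80))) (.br _ _ _ (.leaf b0 k81 t81) (.br _ _ _ (.leaf b0 k82 t82) (.leaf b0 k83 t83)))) (.br _ _ _ (.br _ _ _ (.leaf b0 k84 t84) (.br _ _ _ (.leaf b0 k85 t85) (.leaf b0 k86 t86))) (.br _ _ _ (.leaf b0 k87 t87) (.br _ _ _ (.leaf b0 k88 t88) (.leaf b0 k89 t89)))))) w4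
noncomputable def k90 : KT := (.br (Nat.shiftLeft (nat_lit 0x900d00f) (nat_lit 64)) (.br (Nat.shiftLeft (nat_lit 0x1201803) (nat_lit 67)) (.br (Nat.shiftLeft (nat_lit 0x900c017) (nat_lit 64)) (.one (nat_lit 0x900c016000001201802d400)) (.one (nat_lit 0x900c017000001201802f400))) (.br (Nat.shiftLeft (nat_lit 0x900d) (nat_lit 76)) (.one (nat_lit 0x900c0180000012018031400)) (.one (nat_lit 0x900d00e000001201a01d400)))) (.br (Nat.shiftLeft (nat_lit 0x100900c017) (nat_lit 64)) (.br (Nat.shiftLeft (nat_lit 0x1) (nat_lit 100)) (.one (nat_lit 0x900d00f000001201a01f400)) (.one (nat_lit 0x100900c016000201201802c540))) (.br (Nat.shiftLeft (nat_lit 0x201201803) (nat_lit 67)) (.one (nat_lit 0x100900c017000201201802e540)) (.one (nat_lit 0x100900c0180002012018030540)))))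
def t90 : k90.all (jb2 57 fl b0) = true := by decide +kernel
noncomputable def k91 : KT := (.br (Nat.shiftLeft (nat_lit 0x200900c017) (nat_lit 64)) (.one (nat_lit 0x200900c016000401201802c540)) (.one (nat_lit 0x200900c017000401201802e540)))
def t91 : k91.all (jb2 57 fl b0) = true := by decide +kernel
noncomputable def k92 : KT := (.br (Nat.shiftLeft (nat_lit 0x3) (nat_lit 100)) (.one (nat_lit 0x200900c0180004012018030540)) (.one (nat_lit 0x300900c016000601201802c540)))
def t92 : k92.all (jb2 57 fl b0) = true := by decide +kernel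
noncomputable def k93 : KT := (.br (Nat.shiftLeft (nat_lit 0x601201803) (nat_lit 67)) (.one (nat_lit 0x300900c017000601201802e540)) (.one (nat_lit 0x300900c0180006012018030540)))
def t93 : k93.all (jb2 57 fl b0) = true := by decide +kernel
noncomputable def k94 : KT := (.br (Nat.shiftLeft (nat_lit 0x400900c017) (nat_lit 64)) (.one (nat_lit 0x400900c016000801201802c540)) (.one (nat_lit 0x400900c017000801201802e540)))
def t94 : k94.all (jb2 57 fl b0) = true := by decide +kernel
noncomputable def k95 : KT := (.br (Nat.shiftLeft (nat_lit 0x5) (nat_lit 100)) (.one (nat_lit 0x400900c0180008012018030540)) (.br (Nat.shiftLeft (nat_lit 0x500900c017) (nat_lit 64)) (.one (nat_lit 0x500900c016000a01201802c540)) (.one (nat_lit 0x500900c017000a01201802e540))))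
def t95 : k95.all (jb2 57 fl b0) = true := by decide +kernel
noncomputable def k96 : KT := (.br (Nat.shiftLeft (nat_lit 0x600900c017) (nat_lit 64)) (.br (Nat.shiftLeft (nat_lit 0x3) (nat_lit 101)) (.one (nat_lit 0x500900c018000a012018030540)) (.one (nat_lit 0x600900c016000c01201802c540))) (.br (Nat.shiftLeft (nat_lit 0xc01201803) (nat_lit 67)) (.one (nat_lit 0x600900c017000c01201802e540)) (.one (nat_lit 0x600900c018000c012018030540))))
def t96 : k96.all (jb2 57 fl b0) = true := by decide +kernel
noncomputable def k97 : KT := (.br (Nat.shiftLeft (nat_lit 0x3) (nat_lit 112)) (.br (Nat.shiftLeft (nat_lit 0x1) (nat_lit 112)) (.br (Nat.shiftLeft (nat_lit 0x1) (nat_lit 103)) (.br (Nat.shiftLeft (nat_lit 0x700900c017) (nat_lit 64)) (.one (nat_lit 0x700900c016000e01201802c540)) (.br (Nat.shiftLeft (nat_lit 0xe01201803) (nat_lit 67)) (.one (nat_lit 0x700900c017000e01201802e540)) (.one (nat_lit 0x700900c018000e012018030540)))) (.br (Nat.shiftLeft (nat_lit 0x800900c017) (nat_lit 64)) (.one (nat_lit 0x800900c016001001201802c540))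 (.br (Nat.shiftLeft (nat_lit 0x1001201803) (nat_lit 67)) (.one (nat_lit 0x800900c017001001201802e540)) (.one (nat_lit 0x800900c0180010012018030540))))) (.br (Nat.shiftLeft (nat_lit 0x1) (nat_lit 113)) (.br (Nat.shiftLeft (nat_lit 0x100000900c017) (nat_lit 64)) (.one (nat_lit 0x100000900c016200001201802c411)) (.br (Nat.shiftLeft (nat_lit 0x200001201803) (nat_lit 67)) (.one (nat_lit 0x100000900c017200001201802e411)) (.one (nat_lit 0x100000900c0182000012018030411)))) (.br (Nat.shiftLeft (nat_lit 0x200000900c017) (nat_lit 64)) (.one (nat_lit 0x200000900c016400001201802c411)) (.br (Nat.shiftLeft (nat_lit 0x400001201803) (nat_lit 67)) (.one (nat_lit 0x200000900c017400001201802e411)) (.one (nat_lit 0x200000900c0184000012018030411)))))) (.br (Nat.shiftLeft (nat_lit 0x5) (nat_lit 112)) (.br (Nat.shiftLeft (nat_lit 0x1) (nat_lit 114)) (.br (Nat.shiftLeft (nat_lit 0x300000900c017) (nat_lit 64)) (.one (nat_lit 0x300000900c016600001201802c411)) (.br (Nat.shiftLeft (nat_lit 0x600001201803) (nat_lit 67)) (.one (nat_lit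 0x300000900c017600001201802e411)) (.one (nat_lit 0x300000900c0186000012018030411)))) (.br (Nat.shiftLeft (nat_lit 0x400000900c017) (nat_lit 64)) (.one (nat_lit 0x400000900c016800001201802c411)) (.br (Nat.shiftLeft (nat_lit 0x800001201803) (nat_lit 67)) (.one (nat_lit 0x400000900c017800001201802e411)) (.one (nat_lit 0x400000900c0188000012018030411))))) (.br (Nat.shiftLeft (nat_lit 0x3) (nat_lit 113)) (.br (Nat.shiftLeft (nat_lit 0x500000900c017) (nat_lit 64)) (.one (nat_lit 0x500000900c016a00001201802c411)) (.br (Nat.shiftLeft (nat_lit 0xa00001201803) (nat_lit 67)) (.one (nat_lit 0x500000900c017a00001201802e411)) (.one (nat_lit 0x500000900c018a000012018030411)))) (.br (Nat.shiftLeft (nat_lit 0xc00001201803) (nat_lit 67)) (.br (Nat.shiftLeft (nat_lit 0x600000900c017) (nat_lit 64)) (.one (nat_lit 0x600000900c016c00001201802c411)) (.one (nat_lit 0x600000900c017c00001201802e411))) (.br (Nat.shiftLeft (nat_lit 0x7) (nat_lit 112)) (.one (nat_lit 0x600000900c018c000012018030411)) (.one (nat_lit 0x700000900c016e00001201802c411)))))))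
def t97 : k97.all (jb2 57 fl b0) = true := by decide +kernel
noncomputable def k98 : KT := (.br (Nat.shiftLeft (nat_lit 0x5) (nat_lit 113)) (.br (Nat.shiftLeft (nat_lit 0x1000001201803) (nat_lit 67)) (.br (Nat.shiftLeft (nat_lit 0x1) (nat_lit 115)) (.br (Nat.shiftLeft (nat_lit 0xe00001201803) (nat_lit 67)) (.one (nat_lit 0x700000900c017e00001201802e411)) (.one (nat_lit 0x700000900c018e000012018030411))) (.br (Nat.shiftLeft (nat_lit 0x800000900c017) (nat_lit 64)) (.one (nat_lit 0x800000900c016000001201812e411)) (.one (nat_lit 0x800000900c0170000012018130411)))) (.br (Nat.shiftLeft (nat_lit 0x900000900c017) (nat_lit 64)) (.br (Nat.shiftLeft (nat_lit 0x9) (nat_lit 112)) (.one (nat_lit 0x800000900c0180000012018132411)) (.one (nat_lit 0x900000900c016200001201812e411))) (.br (Nat.shiftLeft (nat_lit 0x1200001201803) (nat_lit 67)) (.one (nat_lit 0x900000900c0172000012018130411)) (.one (nat_lit 0x900000900c0182000012018132411))))) (.br (Nat.shiftLeft (nat_lit 0xb00000900c017) (nat_lit 64)) (.br (Nat.shiftLeft (nat_lit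 0x1400001201803) (nat_lit 67)) (.br (Nat.shiftLeft (nat_lit 0xa00000900c017) (nat_lit 64)) (.one (nat_lit 0xa00000900c016400001201812e411)) (.one (nat_lit 0xa00000900c0174000012018130411))) (.br (Nat.shiftLeft (nat_lit 0xb) (nat_lit 112)) (.one (nat_lit 0xa00000900c0184000012018132411)) (.one (nat_lit 0xb00000900c016600001201812e411)))) (.br (Nat.shiftLeft (nat_lit 0x3) (nat_lit 114)) (.br (Nat.shiftLeft (nat_lit 0x1600001201803) (nat_lit 67)) (.one (nat_lit 0xb00000900c0176000012018130411)) (.one (nat_lit 0xb00000900c0186000012018132411))) (.br (Nat.shiftLeft (nat_lit 0xc00000900c017) (nat_lit 64)) (.one (nat_lit 0xc00000900c016800001201812e411)) (.br (Nat.shiftLeft (nat_lit 0x1800001201803) (nat_lit 67)) (.one (nat_lit 0xc00000900c0178000012018130411)) (.one (nat_lit 0xc00000900c0188000012018132411)))))))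
def t98 : k98.all (jb2 57 fl b0) = true := by decide +kernel
noncomputable def s5 : KT := (.br (nat_lit 0x300900c0180006012018030540) (.br (nat_lit 0x200900c017000401201802e540) (.br (nat_lit 0x100900c0180002012018030540) k90 k91) (.br (nat_lit 0x300900c016000601201802c540) k92 k93)) (.br (nat_lit 0x500900c017000a01201802e540) (.br (nat_lit 0x400900c017000801201802e540) k94 k95) (.br (nat_lit 0x600900c018000c012018030540) k96 (.br (nat_lit 0x700000900c016e00001201802c411) k97 k98))))
noncomputable def u5 : KT := (.br (Nat.shiftLeft (nat_lit 0x1201803) (nat_lit 67)) (.br (Nat.shiftLeft (nat_lit 0x900c017) (nat_lit 64)) (.one (nat_lit 0x900c016000001201802c430)) (.one (nat_lit 0x900c017000001201802e430))) (.br (Nat.shiftLeft (nat_lit 0x900d) (nat_lit 76)) (.one (nat_lit 0x900c0180000012018030430)) (.br (Nat.shiftLeft (nat_lit 0x900d00f) (nat_lit 64)) (.one (nat_lit 0x900d00e000001201a01d400)) (.one (nat_lit 0x900d00f000001201a01f400)))))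
def w5 : u5.all (wj 57 s5) = true := by decide +kernel
def o5 : OkW 57 (jb2 57 fl) u5 := .lift s5 _ (.br _ _ _ (.br _ _ _ (.br _ _ _ (.leaf b0 k90 t90) (.leaf b0 k91 t91)) (.br _ _ _ (.leaf b0 k92 t92) (.leaf b0 k93 t93))) (.br _ _ _ (.br _ _ _ (.leaf b0 k94 t94) (.leaf b0 k95 t95)) (.br _ _ _ (.leaf b0 k96 t96) (.br _ _ _ (.leaf b0 k97 t97) (.leaf b0 k98 t98))))) w5
noncomputable def k99 : KT := (.br (Nat.shiftLeft (nat_lit 0x3) (nat_lit 100)) (.br (Nat.shiftLeft (nat_lit 0x1) (nat_lit 100)) (.one (nat_lit 0x900d010000001201a021400)) (.br (Nat.shiftLeft (nat_lit 0x1) (nat_lit 101)) (.one (nat_lit 0x100900d010000201201a020540)) (.one (nat_lit 0x200900d010000401201a021500)))) (.br (Nat.shiftLeft (nat_lit 0x1) (nat_lit 102)) (.one (nat_lit 0x300900d010000601201a021500)) (.br (Nat.shiftLeft (nat_lit 0x5) (nat_lit 100)) (.one (nat_lit 0x400900d010000801201a021500)) (.one (nat_lit 0x500900d010000a01201a021500)))))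
def t99 : k99.all (jb2 57 fl b0) = true := by decide +kernel
noncomputable def k100 : KT := (.br (Nat.shiftLeft (nat_lit 0x1) (nat_lit 112)) (.br (Nat.shiftLeft (nat_lit 0x7) (nat_lit 100)) (.one (nat_lit 0x600900d010000c01201a021500)) (.br (Nat.shiftLeft (nat_lit 0x1) (nat_lit 103)) (.one (nat_lit 0x700900d010000e01201a021500)) (.one (nat_lit 0x800900d010001001201a021500)))) (.br (Nat.shiftLeft (nat_lit 0x801) (nat_lit 101)) (.one (nat_lit 0x100000900d010200001201a020411)) (.br (Nat.shiftLeft (nat_lit 0x1003) (nat_lit 100)) (.one (nat_lit 0x100200900d010200401201a021600)) (.one (nat_lit 0x100300900d010200601201a020650)))))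
def t100 : k100.all (jb2 57 fl b0) = true := by decide +kernel
noncomputable def k101 : KT := (.one (nat_lit 0x100400900d010200801201a020650))
def t101 : k101.all (jb2 57 fl b0) = true := by decide +kernel
noncomputable def k102 : KT := (.br (Nat.shiftLeft (nat_lit 0x803) (nat_lit 101)) (.one (nat_lit 0x100500900d010200a01201a020650)) (.br (Nat.shiftLeft (nat_lit 0x1007) (nat_lit 100)) (.one (nat_lit 0x100600900d010200c01201a020650)) (.one (nat_lit 0x100700900d010200e01201a020650))))
def t102 : k102.all (jb2 57 fl b0) = true := by decide +kernel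
noncomputable def k103 : KT := (.br (Nat.shiftLeft (nat_lit 0x1001) (nat_lit 101)) (.br (Nat.shiftLeft (nat_lit 0x1) (nat_lit 113)) (.one (nat_lit 0x100800900d010201001201a020650)) (.one (nat_lit 0x200000900d010400001201a020411))) (.br (Nat.shiftLeft (nat_lit 0x801) (nat_lit 102)) (.one (nat_lit 0x200300900d010400601201a021600)) (.one (nat_lit 0x200400900d010400801201a020650))))
def t103 : k103.all (jb2 57 fl b0) = true := by decide +kernel
noncomputable def k104 : KT := (.br (Nat.shiftLeft (nat_lit 0x1003) (nat_lit 101)) (.one (nat_lit 0x200500900d010400a01201a020650)) (.one (nat_lit 0x200600900d010400c01201a020650)))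
def t104 : k104.all (jb2 57 fl b0) = true := by decide +kernel
noncomputable def k105 : KT := (.br (Nat.shiftLeft (nat_lit 0x401) (nat_lit 103)) (.one (nat_lit 0x200700900d010400e01201a020650)) (.br (Nat.shiftLeft (nat_lit 0x3) (nat_lit 112)) (.one (nat_lit 0x200800900d010401001201a020650)) (.one (nat_lit 0x300000900d010600001201a020411))))
def t105 : k105.all (jb2 57 fl b0) = true := by decide +kernel
noncomputable def k106 : KT := (.one (nat_lit 0x300400900d010600801201a020650))
def t106 : k106.all (jb2 57 fl b0) = true := by decide +kernel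
noncomputable def k107 : KT := (.br (Nat.shiftLeft (nat_lit 0x1803) (nat_lit 101)) (.one (nat_lit 0x300500900d010600a01201a020650)) (.one (nat_lit 0x300600900d010600c01201a020650)))
def t107 : k107.all (jb2 57 fl b0) = true := by decide +kernel
noncomputable def k108 : KT := (.br (Nat.shiftLeft (nat_lit 0x601) (nat_lit 103)) (.one (nat_lit 0x300700900d010600e01201a020650)) (.br (Nat.shiftLeft (nat_lit 0x1) (nat_lit 114)) (.one (nat_lit 0x300800900d010601001201a020650)) (.one (nat_lit 0x400000900d010800001201a020411))))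
def t108 : k108.all (jb2 57 fl b0) = true := by decide +kernel
noncomputable def k109 : KT := (.br (Nat.shiftLeft (nat_lit 0x2003) (nat_lit 101)) (.one (nat_lit 0x400500900d010800a01201a020650)) (.one (nat_lit 0x400600900d010800c01201a020650)))
def t109 : k109.all (jb2 57 fl b0) = true := by decide +kernel
noncomputable def k110 : KT := (.br (Nat.shiftLeft (nat_lit 0x5) (nat_lit 112)) (.br (Nat.shiftLeft (nat_lit 0x801) (nat_lit 103)) (.one (nat_lit 0x400700900d010800e01201a020650)) (.one (nat_lit 0x400800900d010801001201a020650))) (.br (Nat.shiftLeft (nat_lit 0x1401) (nat_lit 102)) (.one (nat_lit 0x500000900d010a00001201a020411)) (.br (Nat.shiftLeft (nat_lit 0x5007) (nat_lit 100)) (.one (nat_lit 0x500600900d010a00c01201a020650)) (.one (nat_lit 0x500700900d010a00e01201a020650)))))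
def t110 : k110.all (jb2 57 fl b0) = true := by decide +kernel
noncomputable def k111 : KT := (.br (Nat.shiftLeft (nat_lit 0xb) (nat_lit 112)) (.br (Nat.shiftLeft (nat_lit 0x7) (nat_lit 112)) (.br (Nat.shiftLeft (nat_lit 0x1801) (nat_lit 102)) (.br (Nat.shiftLeft (nat_lit 0x3) (nat_lit 113)) (.one (nat_lit 0x500800900d010a01001201a020650)) (.one (nat_lit 0x600000900d010c00001201a020411))) (.br (Nat.shiftLeft (nat_lit 0xc01) (nat_lit 103)) (.one (nat_lit 0x600700900d010c00e01201a020650)) (.one (nat_lit 0x600800900d010c01001201a020650)))) (.br (Nat.shiftLeft (nat_lit 0x1) (nat_lit 115)) (.br (Nat.shiftLeft (nat_lit 0xe01) (nat_lit 103)) (.one (nat_lit 0x700000900d010e00001201a020411)) (.one (nat_lit 0x700800900d010e01001201a020650))) (.br (Nat.shiftLeft (nat_lit 0x9) (nat_lit 112)) (.one (nat_lit 0x800000900d010000001201a122411)) (.br (Nat.shiftLeft (nat_lit 0x5) (nat_lit 113)) (.one (nat_lit 0x900000900d010200001201a122411)) (.one (nat_lit 0xa00000900d010400001201a122411)))))) (.br (Nat.shiftLeft (nat_lit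 0x400001) (nat_lit 102)) (.br (Nat.shiftLeft (nat_lit 0xd) (nat_lit 112)) (.br (Nat.shiftLeft (nat_lit 0x3) (nat_lit 114)) (.one (nat_lit 0xb00000900d010600001201a122411)) (.one (nat_lit 0xc00000900d010800001201a122411))) (.br (Nat.shiftLeft (nat_lit 0x1) (nat_lit 124)) (.one (nat_lit 0xd00000900d010a00001201a122411)) (.br (Nat.shiftLeft (nat_lit 0x1000003) (nat_lit 100)) (.one (nat_lit 0x100000200900d010000401203a420511)) (.one (nat_lit 0x100000300900d010000601203a420511))))) (.br (Nat.shiftLeft (nat_lit 0x800003) (nat_lit 101)) (.br (Nat.shiftLeft (nat_lit 0x1000005) (nat_lit 100)) (.one (nat_lit 0x100000400900d010000801203a420511)) (.one (nat_lit 0x100000500900d010000a01203a420511))) (.br (Nat.shiftLeft (nat_lit 0x1000007) (nat_lit 100)) (.one (nat_lit 0x100000600900d010000c01203a420511)) (.br (Nat.shiftLeft (nat_lit 0x200001) (nat_lit 103)) (.one (nat_lit 0x100000700900d010000e01203a420511)) (.one (nat_lit 0x100000800900d010001001203a420511)))))))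
def t111 : k111.all (jb2 57 fl b0) = true := by decide +kernel
noncomputable def k112 : KT := (.br (Nat.shiftLeft (nat_lit 0xc00001) (nat_lit 102)) (.br (Nat.shiftLeft (nat_lit 0x1000003) (nat_lit 101)) (.br (Nat.shiftLeft (nat_lit 0x2000003) (nat_lit 100)) (.br (Nat.shiftLeft (nat_lit 0x1) (nat_lit 125)) (.one (nat_lit 0x100200300900d010400601203a420760)) (.one (nat_lit 0x200000200900d010000401205a820511))) (.br (Nat.shiftLeft (nat_lit 0x800001) (nat_lit 102)) (.one (nat_lit 0x200000300900d010000601205a820511)) (.br (Nat.shiftLeft (nat_lit 0x2000005) (nat_lit 100)) (.one (nat_lit 0x200000400900d010000801205a820511)) (.one (nat_lit 0x200000500900d010000a01205a820511))))) (.br (Nat.shiftLeft (nat_lit 0x400001) (nat_lit 103)) (.br (Nat.shiftLeft (nat_lit 0x2000007) (nat_lit 100)) (.one (nat_lit 0x200000600900d010000c01205a820511)) (.one (nat_lit 0x200000700900d010000e01205a820511))) (.br (Nat.shiftLeft (nat_lit 0x3) (nat_lit 124)) (.one (nat_lit 0x200000800900d010001001205a820511)) (.br (Nat.shiftLeft (nat_lit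 0x3000003) (nat_lit 100)) (.one (nat_lit 0x300000200900d010000401207ac20511)) (.one (nat_lit 0x300000300900d010000601207ac20511)))))) (.br (Nat.shiftLeft (nat_lit 0x1) (nat_lit 126)) (.br (Nat.shiftLeft (nat_lit 0x1800003) (nat_lit 101)) (.br (Nat.shiftLeft (nat_lit 0x3000005) (nat_lit 100)) (.one (nat_lit 0x300000400900d010000801207ac20511)) (.one (nat_lit 0x300000500900d010000a01207ac20511))) (.br (Nat.shiftLeft (nat_lit 0x3000007) (nat_lit 100)) (.one (nat_lit 0x300000600900d010000c01207ac20511)) (.br (Nat.shiftLeft (nat_lit 0x600001) (nat_lit 103)) (.one (nat_lit 0x300000700900d010000e01207ac20511)) (.one (nat_lit 0x300000800900d010001001207ac20511))))) (.br (Nat.shiftLeft (nat_lit 0x1000001) (nat_lit 102)) (.br (Nat.shiftLeft (nat_lit 0x4000003) (nat_lit 100)) (.one (nat_lit 0x400000200900d010000401209b020511)) (.one (nat_lit 0x400000300900d010000601209b020511))) (.br (Nat.shiftLeft (nat_lit 0x4000005) (nat_lit 100)) (.one (nat_lit 0x400000400900d010000801209b020511)) (.br (Nat.shiftLeft (nat_lit 0x2000003)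 (nat_lit 101)) (.one (nat_lit 0x400000500900d010000a01209b020511)) (.one (nat_lit 0x400000600900d010000c01209b020511)))))))
def t112 : k112.all (jb2 57 fl b0) = true := by decide +kernel
noncomputable def k113 : KT := (.br (Nat.shiftLeft (nat_lit 0x5000005) (nat_lit 100)) (.br (Nat.shiftLeft (nat_lit 0x5) (nat_lit 124)) (.br (Nat.shiftLeft (nat_lit 0x800001) (nat_lit 103)) (.one (nat_lit 0x400000700900d010000e01209b020511)) (.one (nat_lit 0x400000800900d010001001209b020511))) (.br (Nat.shiftLeft (nat_lit 0x5000003) (nat_lit 100)) (.one (nat_lit 0x500000200900d01000040120bb420511)) (.br (Nat.shiftLeft (nat_lit 0x1400001) (nat_lit 102)) (.one (nat_lit 0x500000300900d01000060120bb420511)) (.one (nat_lit 0x500000400900d01000080120bb420511))))) (.br (Nat.shiftLeft (nat_lit 0x5000007) (nat_lit 100)) (.br (Nat.shiftLeft (nat_lit 0x2800003) (nat_lit 101)) (.one (nat_lit 0x500000500900d010000a0120bb420511)) (.one (nat_lit 0x500000600900d010000c0120bb420511))) (.br (Nat.shiftLeft (nat_lit 0xa00001) (nat_lit 103)) (.one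 (nat_lit 0x500000700900d010000e0120bb420511)) (.br (Nat.shiftLeft (nat_lit 0x3) (nat_lit 125)) (.one (nat_lit 0x500000800900d01000100120bb420511)) (.one (nat_lit 0x600000200900d01000040120db820511))))))
def t113 : k113.all (jb2 57 fl b0) = true := by decide +kernel
noncomputable def k114 : KT := (.br (Nat.shiftLeft (nat_lit 0x3000003) (nat_lit 101)) (.br (Nat.shiftLeft (nat_lit 0x1800001) (nat_lit 102)) (.one (nat_lit 0x600000300900d01000060120db820511)) (.br (Nat.shiftLeft (nat_lit 0x6000005) (nat_lit 100)) (.one (nat_lit 0x600000400900d01000080120db820511)) (.one (nat_lit 0x600000500900d010000a0120db820511)))) (.br (Nat.shiftLeft (nat_lit 0xc00001) (nat_lit 103)) (.br (Nat.shiftLeft (nat_lit 0x6000007) (nat_lit 100)) (.one (nat_lit 0x600000600900d010000c0120db820511)) (.one (nat_lit 0x600000700900d010000e0120db820511))) (.br (Nat.shiftLeft (nat_lit 0x7) (nat_lit 124)) (.one (nat_lit 0x600000800900d01000100120db820511)) (.one (nat_lit 0x700000200900d01000040120fbc20511)))))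
def t114 : k114.all (jb2 57 fl b0) = true := by decide +kernel
noncomputable def k115 : KT := (.br (Nat.shiftLeft (nat_lit 0x7000007) (nat_lit 100)) (.br (Nat.shiftLeft (nat_lit 0x7000005) (nat_lit 100)) (.br (Nat.shiftLeft (nat_lit 0x1c00001) (nat_lit 102)) (.one (nat_lit 0x700000300900d01000060120fbc20511)) (.one (nat_lit 0x700000400900d01000080120fbc20511))) (.br (Nat.shiftLeft (nat_lit 0x3800003) (nat_lit 101)) (.one (nat_lit 0x700000500900d010000a0120fbc20511)) (.one (nat_lit 0x700000600900d010000c0120fbc20511)))) (.br (Nat.shiftLeft (nat_lit 0x1) (nat_lit 127)) (.br (Nat.shiftLeft (nat_lit 0xe00001) (nat_lit 103)) (.one (nat_lit 0x700000700900d010000e0120fbc20511)) (.one (nat_lit 0x700000800900d01000100120fbc20511))) (.br (Nat.shiftLeft (nat_lit 0x8000003) (nat_lit 100)) (.one (nat_lit 0x800000200900d010000401211c020511)) (.br (Nat.shiftLeft (nat_lit 0x2000001) (nat_lit 102)) (.one (nat_lit 0x800000300900d010000601211c020511)) (.one (nat_lit 0x800000400900d010000801211c020511))))))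
def t115 : k115.all (jb2 57 fl b0) = true := by decide +kernel
noncomputable def k116 : KT := (.br (Nat.shiftLeft (nat_lit 0xa000005) (nat_lit 100)) (.br (Nat.shiftLeft (nat_lit 0x9000005) (nat_lit 100)) (.br (Nat.shiftLeft (nat_lit 0x1000001) (nat_lit 103)) (.br (Nat.shiftLeft (nat_lit 0x4000003) (nat_lit 101)) (.one (nat_lit 0x800000500900d010000a01211c020511)) (.br (Nat.shiftLeft (nat_lit 0x8000007) (nat_lit 100)) (.one (nat_lit 0x800000600900d010000c01211c020511)) (.one (nat_lit 0x800000700900d010000e01211c020511)))) (.br (Nat.shiftLeft (nat_lit 0x9000003) (nat_lit 100)) (.br (Nat.shiftLeft (nat_lit 0x9) (nat_lit 124)) (.one (nat_lit 0x800000800900d010001001211c020511)) (.one (nat_lit 0x900000200900d010000401213c420511))) (.br (Nat.shiftLeft (nat_lit 0x2400001) (nat_lit 102)) (.one (nat_lit 0x900000300900d010000601213c420511)) (.one (nat_lit 0x900000400900d010000801213c420511))))) (.br (Nat.shiftLeft (nat_lit 0x1200001) (nat_lit 103)) (.br (Nat.shiftLeft (nat_lit 0x4800003) (nat_lit 101)) (.one (nat_lit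 0x900000500900d010000a01213c420511)) (.br (Nat.shiftLeft (nat_lit 0x9000007) (nat_lit 100)) (.one (nat_lit 0x900000600900d010000c01213c420511)) (.one (nat_lit 0x900000700900d010000e01213c420511)))) (.br (Nat.shiftLeft (nat_lit 0xa000003) (nat_lit 100)) (.br (Nat.shiftLeft (nat_lit 0x5) (nat_lit 125)) (.one (nat_lit 0x900000800900d010001001213c420511)) (.one (nat_lit 0xa00000200900d010000401215c820511))) (.br (Nat.shiftLeft (nat_lit 0x2800001) (nat_lit 102)) (.one (nat_lit 0xa00000300900d010000601215c820511)) (.one (nat_lit 0xa00000400900d010000801215c820511)))))) (.br (Nat.shiftLeft (nat_lit 0xb000005) (nat_lit 100)) (.br (Nat.shiftLeft (nat_lit 0x1400001) (nat_lit 103)) (.br (Nat.shiftLeft (nat_lit 0x5000003) (nat_lit 101)) (.one (nat_lit 0xa00000500900d010000a01215c820511)) (.br (Nat.shiftLeft (nat_lit 0xa000007) (nat_lit 100)) (.one (nat_lit 0xa00000600900d010000c01215c820511)) (.one (nat_lit 0xa00000700900d010000e01215c820511)))) (.br (Nat.shiftLeft (nat_lit 0xb000003) (nat_lit 100)) (.br (Nat.shiftLeft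 (nat_lit 0xb) (nat_lit 124)) (.one (nat_lit 0xa00000800900d010001001215c820511)) (.one (nat_lit 0xb00000200900d010000401217cc20511))) (.br (Nat.shiftLeft (nat_lit 0x2c00001) (nat_lit 102)) (.one (nat_lit 0xb00000300900d010000601217cc20511)) (.one (nat_lit 0xb00000400900d010000801217cc20511))))) (.br (Nat.shiftLeft (nat_lit 0x1600001) (nat_lit 103)) (.br (Nat.shiftLeft (nat_lit 0x5800003) (nat_lit 101)) (.one (nat_lit 0xb00000500900d010000a01217cc20511)) (.br (Nat.shiftLeft (nat_lit 0xb000007) (nat_lit 100)) (.one (nat_lit 0xb00000600900d010000c01217cc20511)) (.one (nat_lit 0xb00000700900d010000e01217cc20511)))) (.br (Nat.shiftLeft (nat_lit 0xc000003) (nat_lit 100)) (.br (Nat.shiftLeft (nat_lit 0x3) (nat_lit 126)) (.one (nat_lit 0xb00000800900d010001001217cc20511)) (.one (nat_lit 0xc00000200900d010000401219d020511))) (.br (Nat.shiftLeft (nat_lit 0x3000001) (nat_lit 102)) (.one (nat_lit 0xc00000300900d010000601219d020511)) (.one (nat_lit 0xc00000400900d010000801219d020511)))))))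
def t116 : k116.all (jb2 57 fl b0) = true := by decide +kernel
noncomputable def k117 : KT := (.br (Nat.shiftLeft (nat_lit 0x1) (nat_lit 137)) (.br (Nat.shiftLeft (nat_lit 0x3400001) (nat_lit 102)) (.br (Nat.shiftLeft (nat_lit 0xc000007) (nat_lit 100)) (.br (Nat.shiftLeft (nat_lit 0x6000003) (nat_lit 101)) (.one (nat_lit 0xc00000500900d010000a01219d020511)) (.one (nat_lit 0xc00000600900d010000c01219d020511))) (.br (Nat.shiftLeft (nat_lit 0xd) (nat_lit 124)) (.one (nat_lit 0xc00000700900d010000e01219d020511)) (.br (Nat.shiftLeft (nat_lit 0xd000003) (nat_lit 100)) (.one (nat_lit 0xd00000200900d01000040121bd420511)) (.one (nat_lit 0xd00000300900d01000060121bd420511))))) (.br (Nat.shiftLeft (nat_lit 0x6800003) (nat_lit 101)) (.br (Nat.shiftLeft (nat_lit 0xd000005) (nat_lit 100)) (.one (nat_lit 0xd00000400900d01000080121bd420511)) (.one (nat_lit 0xd00000500900d010000a0121bd420511))) (.br (Nat.shiftLeft (nat_lit 0x1) (nat_lit 136)) (.one (nat_lit 0xd00000600900d010000c0121bd420511)) (.br (Nat.shiftLeft (nat_lit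 0x800001) (nat_lit 113)) (.one (nat_lit 0x100000100200900d010200403241a020611)) (.one (nat_lit 0x100000200300900d010400603241a020611)))))) (.br (Nat.shiftLeft (nat_lit 0x2000001) (nat_lit 113)) (.br (Nat.shiftLeft (nat_lit 0x3) (nat_lit 136)) (.br (Nat.shiftLeft (nat_lit 0x1000001) (nat_lit 113)) (.one (nat_lit 0x200000100200900d010200405281a020611)) (.one (nat_lit 0x200000200300900d010400605281a020611))) (.br (Nat.shiftLeft (nat_lit 0x1800001) (nat_lit 113)) (.one (nat_lit 0x300000100200900d0102004072c1a020611)) (.br (Nat.shiftLeft (nat_lit 0x1) (nat_lit 138)) (.one (nat_lit 0x300000200300900d0104006072c1a020611)) (.one (nat_lit 0x400000100200900d010200409301a020611))))) (.br (Nat.shiftLeft (nat_lit 0x2800001) (nat_lit 113)) (.br (Nat.shiftLeft (nat_lit 0x5) (nat_lit 136)) (.one (nat_lit 0x400000200300900d010400609301a020611)) (.one (nat_lit 0x500000100200900d01020040b341a020611))) (.br (Nat.shiftLeft (nat_lit 0x3) (nat_lit 137)) (.one (nat_lit 0x500000200300900d01040060b341a020611)) (.br (Nat.shiftLeft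 (nat_lit 0x3000001) (nat_lit 113)) (.one (nat_lit 0x600000100200900d01020040d381a020611)) (.one (nat_lit 0x600000200300900d01040060d381a020611)))))))
def t117 : k117.all (jb2 57 fl b0) = true := by decide +kernel
noncomputable def k118 : KT := (.br (Nat.shiftLeft (nat_lit 0x5000001) (nat_lit 113)) (.br (Nat.shiftLeft (nat_lit 0x4000001) (nat_lit 113)) (.br (Nat.shiftLeft (nat_lit 0x3800001) (nat_lit 113)) (.one (nat_lit 0x700000100200900d01020040f3c1a020611)) (.br (Nat.shiftLeft (nat_lit 0x1) (nat_lit 139)) (.one (nat_lit 0x700000200300900d01040060f3c1a020611)) (.one (nat_lit 0x800000100200900d010200411401a020611)))) (.br (Nat.shiftLeft (nat_lit 0x4800001) (nat_lit 113)) (.br (Nat.shiftLeft (nat_lit 0x9) (nat_lit 136)) (.one (nat_lit 0x800000200300900d010400611401a020611)) (.one (nat_lit 0x900000100200900d010200413441a020611))) (.br (Nat.shiftLeft (nat_lit 0x5) (nat_lit 137)) (.one (nat_lit 0x900000200300900d010400613441a020611)) (.one (nat_lit 0xa00000100200900d010200415481a020611))))) (.br (Nat.shiftLeft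 (nat_lit 0x3) (nat_lit 138)) (.br (Nat.shiftLeft (nat_lit 0xb) (nat_lit 136)) (.one (nat_lit 0xa00000200300900d010400615481a020611)) (.br (Nat.shiftLeft (nat_lit 0x5800001) (nat_lit 113)) (.one (nat_lit 0xb00000100200900d0102004174c1a020611)) (.one (nat_lit 0xb00000200300900d0104006174c1a020611)))) (.br (Nat.shiftLeft (nat_lit 0xd) (nat_lit 136)) (.br (Nat.shiftLeft (nat_lit 0x6000001) (nat_lit 113)) (.one (nat_lit 0xc00000100200900d010200419501a020611)) (.one (nat_lit 0xc00000200300900d010400619501a020611))) (.br (Nat.shiftLeft (nat_lit 0x6800001) (nat_lit 113)) (.one (nat_lit 0xd00000100200900d01020041b541a020611)) (.one (nat_lit 0xd00000200300900d01040061b541a020611))))))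
def t118 : k118.all (jb2 57 fl b0) = true := by decide +kernel
noncomputable def s6 : KT := (.br (nat_lit 0x400000900d010800001201a020411) (.br (nat_lit 0x200400900d010400801201a020650) (.br (nat_lit 0x100300900d010200601201a020650) (.br (nat_lit 0x500900d010000a01201a021500) k99 k100) (.br (nat_lit 0x100400900d010200801201a020650) k101 (.br (nat_lit 0x100700900d010200e01201a020650) k102 k103))) (.br (nat_lit 0x300000900d010600001201a020411) (.br (nat_lit 0x200600900d010400c01201a020650) k104 k105) (.br (nat_lit 0x300400900d010600801201a020650) k106 (.br (nat_lit 0x300600900d010600c01201a020650) k107 k108)))) (.br (nat_lit 0x600000200900d01000040120db820511) (.br (nat_lit 0x500700900d010a00e01201a020650) (.br (nat_lit 0x400600900d010800c01201a020650) k109 k110) (.br (nat_lit 0x100000800900d010001001203a420511) k111 (.br (nat_lit 0x400000600900d010000c01209b020511) k112 k113))) (.br (nat_lit 0x800000400900d010000801211c020511) (.br (nat_lit 0x700000200900d01000040120fbc20511) k114 k115) (.br (nat_lit 0xc00000400900d010000801219d020511)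 k116 (.br (nat_lit 0x600000200300900d01040060d381a020611) k117 k118)))))
noncomputable def u6 : KT := (.one (nat_lit 0x900d010000001201a020430))
def w6 : u6.all (wj 57 s6) = true := by decide +kernel
def o6 : OkW 57 (jb2 57 fl) u6 := .lift s6 _ (.br _ _ _ (.br _ _ _ (.br _ _ _ (.br _ _ _ (.leaf b0 k99 t99) (.leaf b0 k100 t100)) (.br _ _ _ (.leaf b0 k101 t101) (.br _ _ _ (.leaf b0 k102 t102) (.leaf b0 k103 t103)))) (.br _ _ _ (.br _ _ _ (.leaf b0 k104 t104) (.leaf b0 k105 t105)) (.br _ _ _ (.leaf b0 k106 t106) (.br _ _ _ (.leaf b0 k107 t107) (.leaf b0 k108 t108))))) (.br _ _ _ (.br _ _ _ (.br _ _ _ (.leaf b0 k109 t109) (.leaf b0 k110 t110)) (.br _ _ _ (.leaf b0 k111 t111) (.br _ _ _ (.leaf b0 k112 t112) (.leaf b0 k113 t113)))) (.br _ _ _ (.br _ _ _ (.leaf b0 k114 t114) (.leaf b0 k115 t115)) (.br _ _ _ (.leaf b0 k116 t116) (.br _ _ _ (.leaf b0 k117 t117) (.leaf b0 k118 t118)))))) w6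
noncomputable def k119 : KT := (.br (Nat.shiftLeft (nat_lit 0x1) (nat_lit 102)) (.br (Nat.shiftLeft (nat_lit 0x1) (nat_lit 101)) (.br (Nat.shiftLeft (nat_lit 0x1) (nat_lit 100)) (.one (nat_lit 0x900d011000001201a023400)) (.one (nat_lit 0x100900d011000201201a022540))) (.br (Nat.shiftLeft (nat_lit 0x3) (nat_lit 100)) (.one (nat_lit 0x200900d011000401201a023500)) (.one (nat_lit 0x300900d011000601201a023500)))) (.br (Nat.shiftLeft (nat_lit 0x3) (nat_lit 101)) (.br (Nat.shiftLeft (nat_lit 0x5) (nat_lit 100)) (.one (nat_lit 0x400900d011000801201a023500)) (.one (nat_lit 0x500900d011000a01201a023500))) (.br (Nat.shiftLeft (nat_lit 0x7) (nat_lit 100)) (.one (nat_lit 0x600900d011000c01201a023500)) (.one (nat_lit 0x700900d011000e01201a023500)))))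
def t119 : k119.all (jb2 57 fl b0) = true := by decide +kernel
noncomputable def k120 : KT := (.br (Nat.shiftLeft (nat_lit 0x1) (nat_lit 112)) (.one (nat_lit 0x800900d011001001201a022540)) (.one (nat_lit 0x100000900d011200001201a022411)))
def t120 : k120.all (jb2 57 fl b0) = true := by decide +kernel
noncomputable def k121 : KT := (.one (nat_lit 0x100200900d011200401201a022650))
def t121 : k121.all (jb2 57 fl b0) = true := by decide +kernel
noncomputable def k122 : KT := (.one (nat_lit 0x100300900d011200601201a022650))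
def t122 : k122.all (jb2 57 fl b0) = true := by decide +kernel
noncomputable def k123 : KT := (.br (Nat.shiftLeft (nat_lit 0x1005) (nat_lit 100)) (.one (nat_lit 0x100400900d011200801201a022650)) (.br (Nat.shiftLeft (nat_lit 0x803) (nat_lit 101)) (.one (nat_lit 0x100500900d011200a01201a022650)) (.one (nat_lit 0x100600900d011200c01201a022650))))
def t123 : k123.all (jb2 57 fl b0) = true := by decide +kernel
noncomputable def k124 : KT := (.br (Nat.shiftLeft (nat_lit 0x1) (nat_lit 113)) (.one (nat_lit 0x100700900d011200e01201a022650)) (.br (Nat.shiftLeft (nat_lit 0x1001) (nat_lit 101)) (.one (nat_lit 0x200000900d011400001201a022411)) (.one (nat_lit 0x200300900d011400601201a022650))))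
def t124 : k124.all (jb2 57 fl b0) = true := by decide +kernel
noncomputable def k125 : KT := (.br (Nat.shiftLeft (nat_lit 0x2005) (nat_lit 100)) (.one (nat_lit 0x200400900d011400801201a022650)) (.one (nat_lit 0x200500900d011400a01201a022650)))
def t125 : k125.all (jb2 57 fl b0) = true := by decide +kernel
noncomputable def k126 : KT := (.br (Nat.shiftLeft (nat_lit 0x2007) (nat_lit 100)) (.one (nat_lit 0x200600900d011400c01201a022650)) (.br (Nat.shiftLeft (nat_lit 0x3) (nat_lit 112)) (.one (nat_lit 0x200700900d011400e01201a022650)) (.one (nat_lit 0x300000900d011600001201a022411))))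
def t126 : k126.all (jb2 57 fl b0) = true := by decide +kernel
noncomputable def k127 : KT := (.br (Nat.shiftLeft (nat_lit 0x3005) (nat_lit 100)) (.one (nat_lit 0x300400900d011600801201a022650)) (.one (nat_lit 0x300500900d011600a01201a022650)))
def t127 : k127.all (jb2 57 fl b0) = true := by decide +kernel
noncomputable def k128 : KT := (.br (Nat.shiftLeft (nat_lit 0x1) (nat_lit 114)) (.br (Nat.shiftLeft (nat_lit 0x3007) (nat_lit 100)) (.one (nat_lit 0x300600900d011600c01201a022650)) (.one (nat_lit 0x300700900d011600e01201a022650))) (.br (Nat.shiftLeft (nat_lit 0x1001) (nat_lit 102)) (.one (nat_lit 0x400000900d011800001201a022411)) (.one (nat_lit 0x400500900d011800a01201a022650))))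
def t128 : k128.all (jb2 57 fl b0) = true := by decide +kernel
noncomputable def k129 : KT := (.br (Nat.shiftLeft (nat_lit 0x5007) (nat_lit 100)) (.br (Nat.shiftLeft (nat_lit 0x5) (nat_lit 112)) (.br (Nat.shiftLeft (nat_lit 0x4007) (nat_lit 100)) (.one (nat_lit 0x400600900d011800c01201a022650)) (.one (nat_lit 0x400700900d011800e01201a022650))) (.br (Nat.shiftLeft (nat_lit 0x1401) (nat_lit 102)) (.one (nat_lit 0x500000900d011a00001201a022411)) (.one (nat_lit 0x500600900d011a00c01201a022650)))) (.br (Nat.shiftLeft (nat_lit 0x1801) (nat_lit 102)) (.br (Nat.shiftLeft (nat_lit 0x3) (nat_lit 113)) (.one (nat_lit 0x500700900d011a00e01201a022650)) (.one (nat_lit 0x600000900d011c00001201a022411))) (.br (Nat.shiftLeft (nat_lit 0x7) (nat_lit 112)) (.one (nat_lit 0x600700900d011c00e01201a022650)) (.br (Nat.shiftLeft (nat_lit 0x1) (nat_lit 115)) (.one (nat_lit 0x700000900d011e00001201a022411)) (.one (nat_lit 0x800000900d011000001201a124411))))))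
def t129 : k129.all (jb2 57 fl b0) = true := by decide +kernel
noncomputable def k130 : KT := (.br (Nat.shiftLeft (nat_lit 0x1000003) (nat_lit 101)) (.br (Nat.shiftLeft (nat_lit 0x400001) (nat_lit 102)) (.br (Nat.shiftLeft (nat_lit 0x3) (nat_lit 114)) (.br (Nat.shiftLeft (nat_lit 0x5) (nat_lit 113)) (.one (nat_lit 0x900000900d011200001201a124411)) (.br (Nat.shiftLeft (nat_lit 0xb) (nat_lit 112)) (.one (nat_lit 0xa00000900d011400001201a124411)) (.one (nat_lit 0xb00000900d011600001201a124411)))) (.br (Nat.shiftLeft (nat_lit 0x1) (nat_lit 124)) (.br (Nat.shiftLeft (nat_lit 0xd) (nat_lit 112)) (.one (nat_lit 0xc00000900d011800001201a124411)) (.one (nat_lit 0xd00000900d011a00001201a124411))) (.br (Nat.shiftLeft (nat_lit 0x1000003) (nat_lit 100)) (.one (nat_lit 0x100000200900d011000401203a422511)) (.one (nat_lit 0x100000300900d011000601203a422511))))) (.br (Nat.shiftLeft (nat_lit 0x1) (nat_lit 125)) (.br (Nat.shiftLeft (nat_lit 0x800003) (nat_lit 101)) (.br (Nat.shiftLeft (nat_lit 0x1000005) (nat_lit 100)) (.one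 (nat_lit 0x100000400900d011000801203a422511)) (.one (nat_lit 0x100000500900d011000a01203a422511))) (.br (Nat.shiftLeft (nat_lit 0x1000007) (nat_lit 100)) (.one (nat_lit 0x100000600900d011000c01203a422511)) (.one (nat_lit 0x100000700900d011000e01203a422511)))) (.br (Nat.shiftLeft (nat_lit 0x800001) (nat_lit 102)) (.br (Nat.shiftLeft (nat_lit 0x2000003) (nat_lit 100)) (.one (nat_lit 0x200000200900d011000401205a822511)) (.one (nat_lit 0x200000300900d011000601205a822511))) (.br (Nat.shiftLeft (nat_lit 0x2000005) (nat_lit 100)) (.one (nat_lit 0x200000400900d011000801205a822511)) (.one (nat_lit 0x200000500900d011000a01205a822511)))))) (.br (Nat.shiftLeft (nat_lit 0x1) (nat_lit 126)) (.br (Nat.shiftLeft (nat_lit 0xc00001) (nat_lit 102)) (.br (Nat.shiftLeft (nat_lit 0x3) (nat_lit 124)) (.br (Nat.shiftLeft (nat_lit 0x2000007) (nat_lit 100)) (.one (nat_lit 0x200000600900d011000c01205a822511)) (.one (nat_lit 0x200000700900d011000e01205a822511))) (.br (Nat.shiftLeft (nat_lit 0x3000003) (nat_lit 100)) (.one (nat_lit 0x300000200900d011000401207ac22511))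 (.one (nat_lit 0x300000300900d011000601207ac22511)))) (.br (Nat.shiftLeft (nat_lit 0x1800003) (nat_lit 101)) (.br (Nat.shiftLeft (nat_lit 0x3000005) (nat_lit 100)) (.one (nat_lit 0x300000400900d011000801207ac22511)) (.one (nat_lit 0x300000500900d011000a01207ac22511))) (.br (Nat.shiftLeft (nat_lit 0x3000007) (nat_lit 100)) (.one (nat_lit 0x300000600900d011000c01207ac22511)) (.one (nat_lit 0x300000700900d011000e01207ac22511))))) (.br (Nat.shiftLeft (nat_lit 0x2000003) (nat_lit 101)) (.br (Nat.shiftLeft (nat_lit 0x1000001) (nat_lit 102)) (.br (Nat.shiftLeft (nat_lit 0x4000003) (nat_lit 100)) (.one (nat_lit 0x400000200900d011000401209b022511)) (.one (nat_lit 0x400000300900d011000601209b022511))) (.br (Nat.shiftLeft (nat_lit 0x4000005) (nat_lit 100)) (.one (nat_lit 0x400000400900d011000801209b022511)) (.one (nat_lit 0x400000500900d011000a01209b022511)))) (.br (Nat.shiftLeft (nat_lit 0x5) (nat_lit 124)) (.br (Nat.shiftLeft (nat_lit 0x4000007) (nat_lit 100)) (.one (nat_lit 0x400000600900d011000c01209b022511)) (.one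 (nat_lit 0x400000700900d011000e01209b022511))) (.br (Nat.shiftLeft (nat_lit 0x5000003) (nat_lit 100)) (.one (nat_lit 0x500000200900d01100040120bb422511)) (.one (nat_lit 0x500000300900d01100060120bb422511)))))))
def t130 : k130.all (jb2 57 fl b0) = true := by decide +kernel
noncomputable def k131 : KT := (.br (Nat.shiftLeft (nat_lit 0x6000003) (nat_lit 100)) (.br (Nat.shiftLeft (nat_lit 0x2800003) (nat_lit 101)) (.br (Nat.shiftLeft (nat_lit 0x5000005) (nat_lit 100)) (.one (nat_lit 0x500000400900d01100080120bb422511)) (.one (nat_lit 0x500000500900d011000a0120bb422511))) (.br (Nat.shiftLeft (nat_lit 0x5000007) (nat_lit 100)) (.one (nat_lit 0x500000600900d011000c0120bb422511)) (.br (Nat.shiftLeft (nat_lit 0x3) (nat_lit 125)) (.one (nat_lit 0x500000700900d011000e0120bb422511)) (.one (nat_lit 0x600000200900d01100040120db822511))))) (.br (Nat.shiftLeft (nat_lit 0x6000005) (nat_lit 100)) (.br (Nat.shiftLeft (nat_lit 0x1800001) (nat_lit 102)) (.one (nat_lit 0x600000300900d01100060120db822511)) (.one (nat_lit 0x600000400900d01100080120db822511)))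 (.br (Nat.shiftLeft (nat_lit 0x3000003) (nat_lit 101)) (.one (nat_lit 0x600000500900d011000a0120db822511)) (.br (Nat.shiftLeft (nat_lit 0x6000007) (nat_lit 100)) (.one (nat_lit 0x600000600900d011000c0120db822511)) (.one (nat_lit 0x600000700900d011000e0120db822511))))))
def t131 : k131.all (jb2 57 fl b0) = true := by decide +kernel
noncomputable def k132 : KT := (.br (Nat.shiftLeft (nat_lit 0x1) (nat_lit 127)) (.br (Nat.shiftLeft (nat_lit 0x7000005) (nat_lit 100)) (.br (Nat.shiftLeft (nat_lit 0x7000003) (nat_lit 100)) (.one (nat_lit 0x700000200900d01100040120fbc22511)) (.br (Nat.shiftLeft (nat_lit 0x1c00001) (nat_lit 102)) (.one (nat_lit 0x700000300900d01100060120fbc22511)) (.one (nat_lit 0x700000400900d01100080120fbc22511)))) (.br (Nat.shiftLeft (nat_lit 0x3800003) (nat_lit 101)) (.one (nat_lit 0x700000500900d011000a0120fbc22511)) (.br (Nat.shiftLeft (nat_lit 0x7000007) (nat_lit 100)) (.one (nat_lit 0x700000600900d011000c0120fbc22511)) (.one (nat_lit 0x700000700900d011000e0120fbc22511))))) (.br (Nat.shiftLeft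 (nat_lit 0x8000005) (nat_lit 100)) (.br (Nat.shiftLeft (nat_lit 0x8000003) (nat_lit 100)) (.one (nat_lit 0x800000200900d011000401211c022511)) (.br (Nat.shiftLeft (nat_lit 0x2000001) (nat_lit 102)) (.one (nat_lit 0x800000300900d011000601211c022511)) (.one (nat_lit 0x800000400900d011000801211c022511)))) (.br (Nat.shiftLeft (nat_lit 0x8000007) (nat_lit 100)) (.br (Nat.shiftLeft (nat_lit 0x4000003) (nat_lit 101)) (.one (nat_lit 0x800000500900d011000a01211c022511)) (.one (nat_lit 0x800000600900d011000c01211c022511))) (.br (Nat.shiftLeft (nat_lit 0x9) (nat_lit 124)) (.one (nat_lit 0x800000700900d011000e01211c022511)) (.one (nat_lit 0x900000200900d011000401213c422511))))))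
def t132 : k132.all (jb2 57 fl b0) = true := by decide +kernel
noncomputable def k133 : KT := (.br (Nat.shiftLeft (nat_lit 0x2c00001) (nat_lit 102)) (.br (Nat.shiftLeft (nat_lit 0xa000003) (nat_lit 100)) (.br (Nat.shiftLeft (nat_lit 0x4800003) (nat_lit 101)) (.br (Nat.shiftLeft (nat_lit 0x2400001) (nat_lit 102)) (.one (nat_lit 0x900000300900d011000601213c422511)) (.br (Nat.shiftLeft (nat_lit 0x9000005) (nat_lit 100)) (.one (nat_lit 0x900000400900d011000801213c422511)) (.one (nat_lit 0x900000500900d011000a01213c422511)))) (.br (Nat.shiftLeft (nat_lit 0x9000007) (nat_lit 100)) (.one (nat_lit 0x900000600900d011000c01213c422511)) (.br (Nat.shiftLeft (nat_lit 0x5) (nat_lit 125)) (.one (nat_lit 0x900000700900d011000e01213c422511)) (.one (nat_lit 0xa00000200900d011000401215c822511))))) (.br (Nat.shiftLeft (nat_lit 0x5000003) (nat_lit 101)) (.br (Nat.shiftLeft (nat_lit 0x2800001) (nat_lit 102)) (.one (nat_lit 0xa00000300900d011000601215c822511)) (.br (Nat.shiftLeft (nat_lit 0xa000005) (nat_lit 100)) (.one (nat_lit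 0xa00000400900d011000801215c822511)) (.one (nat_lit 0xa00000500900d011000a01215c822511)))) (.br (Nat.shiftLeft (nat_lit 0xb) (nat_lit 124)) (.br (Nat.shiftLeft (nat_lit 0xa000007) (nat_lit 100)) (.one (nat_lit 0xa00000600900d011000c01215c822511)) (.one (nat_lit 0xa00000700900d011000e01215c822511))) (.br (Nat.shiftLeft (nat_lit 0xb000003) (nat_lit 100)) (.one (nat_lit 0xb00000200900d011000401217cc22511)) (.one (nat_lit 0xb00000300900d011000601217cc22511)))))) (.br (Nat.shiftLeft (nat_lit 0x3000001) (nat_lit 102)) (.br (Nat.shiftLeft (nat_lit 0xb000007) (nat_lit 100)) (.br (Nat.shiftLeft (nat_lit 0xb000005) (nat_lit 100)) (.one (nat_lit 0xb00000400900d011000801217cc22511)) (.br (Nat.shiftLeft (nat_lit 0x5800003) (nat_lit 101)) (.one (nat_lit 0xb00000500900d011000a01217cc22511)) (.one (nat_lit 0xb00000600900d011000c01217cc22511)))) (.br (Nat.shiftLeft (nat_lit 0x3) (nat_lit 126)) (.one (nat_lit 0xb00000700900d011000e01217cc22511)) (.br (Nat.shiftLeft (nat_lit 0xc000003) (nat_lit 100)) (.one (nat_lit 0xc00000200900d011000401219d022511))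 (.one (nat_lit 0xc00000300900d011000601219d022511))))) (.br (Nat.shiftLeft (nat_lit 0xd) (nat_lit 124)) (.br (Nat.shiftLeft (nat_lit 0xc000005) (nat_lit 100)) (.one (nat_lit 0xc00000400900d011000801219d022511)) (.br (Nat.shiftLeft (nat_lit 0x6000003) (nat_lit 101)) (.one (nat_lit 0xc00000500900d011000a01219d022511)) (.one (nat_lit 0xc00000600900d011000c01219d022511)))) (.br (Nat.shiftLeft (nat_lit 0x3400001) (nat_lit 102)) (.br (Nat.shiftLeft (nat_lit 0xd000003) (nat_lit 100)) (.one (nat_lit 0xd00000200900d01100040121bd422511)) (.one (nat_lit 0xd00000300900d01100060121bd422511))) (.br (Nat.shiftLeft (nat_lit 0xd000005) (nat_lit 100)) (.one (nat_lit 0xd00000400900d01100080121bd422511)) (.one (nat_lit 0xd00000500900d011000a0121bd422511)))))))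
def t133 : k133.all (jb2 57 fl b0) = true := by decide +kernel
noncomputable def s7 : KT := (.br (nat_lit 0x200500900d011400a01201a022650) (.br (nat_lit 0x100200900d011200401201a022650) (.br (nat_lit 0x700900d011000e01201a023500) k119 (.br (nat_lit 0x100000900d011200001201a022411) k120 k121)) (.br (nat_lit 0x100600900d011200c01201a022650) (.br (nat_lit 0x100300900d011200601201a022650) k122 k123) (.br (nat_lit 0x200300900d011400601201a022650) k124 k125))) (.br (nat_lit 0x800000900d011000001201a124411) (.br (nat_lit 0x300500900d011600a01201a022650) (.br (nat_lit 0x300000900d011600001201a022411) k126 k127) (.br (nat_lit 0x400500900d011800a01201a022650) k128 k129)) (.br (nat_lit 0x600000700900d011000e0120db822511) (.br (nat_lit 0x500000300900d01100060120bb422511) k130 k131) (.br (nat_lit 0x900000200900d011000401213c422511) k132 k133))))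
noncomputable def u7 : KT := (.one (nat_lit 0x900d011000001201a022430))
def w7 : u7.all (wj 57 s7) = true := by decide +kernel
def o7 : OkW 57 (jb2 57 fl) u7 := .lift s7 _ (.br _ _ _ (.br _ _ _ (.br _ _ _ (.leaf b0 k119 t119) (.br _ _ _ (.leaf b0 k120 t120) (.leaf b0 k121 t121))) (.br _ _ _ (.br _ _ _ (.leaf b0 k122 t122) (.leaf b0 k123 t123)) (.br _ _ _ (.leaf b0 k124 t124) (.leaf b0 k125 t125)))) (.br _ _ _ (.br _ _ _ (.br _ _ _ (.leaf b0 k126 t126) (.leaf b0 k127 t127)) (.br _ _ _ (.leaf b0 k128 t128) (.leaf b0 k129 t129))) (.br _ _ _ (.br _ _ _ (.leaf b0 k130 t130) (.leaf b0 k131 t131)) (.br _ _ _ (.leaf b0 k132 t132) (.leaf b0 k133 t133))))) w7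
noncomputable def k134 : KT := (.br (Nat.shiftLeft (nat_lit 0x2403405) (nat_lit 66)) (.br (Nat.shiftLeft (nat_lit 0x900d013) (nat_lit 64)) (.one (nat_lit 0x900d012000001201a025400)) (.one (nat_lit 0x900d013000001201a027400))) (.br (Nat.shiftLeft (nat_lit 0x1) (nat_lit 100)) (.one (nat_lit 0x900d014000001201a029400)) (.one (nat_lit 0x100900d012000201201a024540))))
def t134 : k134.all (jb2 57 fl b0) = true := by decide +kernel
noncomputable def k135 : KT := (.br (Nat.shiftLeft (nat_lit 0x402403405) (nat_lit 66)) (.one (nat_lit 0x100900d013000201201a026540)) (.br (Nat.shiftLeft (nat_lit 0x1) (nat_lit 101)) (.one (nat_lit 0x100900d014000201201a028540)) (.one (nat_lit 0x200900d012000401201a025500))))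
def t135 : k135.all (jb2 57 fl b0) = true := by decide +kernel
noncomputable def k136 : KT := (.one (nat_lit 0x200900d013000401201a026540))
def t136 : k136.all (jb2 57 fl b0) = true := by decide +kernel
noncomputable def k137 : KT := (.br (Nat.shiftLeft (nat_lit 0x3) (nat_lit 100)) (.one (nat_lit 0x200900d014000401201a028540)) (.br (Nat.shiftLeft (nat_lit 0x300900d013) (nat_lit 64)) (.one (nat_lit 0x300900d012000601201a025500)) (.one (nat_lit 0x300900d013000601201a027500))))
def t137 : k137.all (jb2 57 fl b0) = true := by decide +kernel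
noncomputable def k138 : KT := (.br (Nat.shiftLeft (nat_lit 0x1) (nat_lit 102)) (.one (nat_lit 0x300900d014000601201a028540)) (.br (Nat.shiftLeft (nat_lit 0x400900d013) (nat_lit 64)) (.one (nat_lit 0x400900d012000801201a025500)) (.one (nat_lit 0x400900d013000801201a027500))))
def t138 : k138.all (jb2 57 fl b0) = true := by decide +kernel
noncomputable def k139 : KT := (.br (Nat.shiftLeft (nat_lit 0x5) (nat_lit 100)) (.one (nat_lit 0x400900d014000801201a028540)) (.one (nat_lit 0x500900d012000a01201a025500)))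
def t139 : k139.all (jb2 57 fl b0) = true := by decide +kernel
noncomputable def k140 : KT := (.one (nat_lit 0x500900d013000a01201a026540))
def t140 : k140.all (jb2 57 fl b0) = true := by decide +kernel
noncomputable def k141 : KT := (.br (Nat.shiftLeft (nat_lit 0x3) (nat_lit 101)) (.one (nat_lit 0x500900d014000a01201a028540)) (.one (nat_lit 0x600900d012000c01201a025500)))
def t141 : k141.all (jb2 57 fl b0) = true := by decide +kernel
noncomputable def k142 : KT := (.one (nat_lit 0x600900d013000c01201a026540))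
def t142 : k142.all (jb2 57 fl b0) = true := by decide +kernel
noncomputable def k143 : KT := (.one (nat_lit 0x600900d014000c01201a028540))
def t143 : k143.all (jb2 57 fl b0) = true := by decide +kernel
noncomputable def k144 : KT := (.one (nat_lit 0x700900d012000e01201a024540))
def t144 : k144.all (jb2 57 fl b0) = true := by decide +kernel
noncomputable def k145 : KT := (.br (Nat.shiftLeft (nat_lit 0x1c02403405) (nat_lit 66)) (.one (nat_lit 0x700900d013000e01201a026540)) (.one (nat_lit 0x700900d014000e01201a028540)))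
def t145 : k145.all (jb2 57 fl b0) = true := by decide +kernel
noncomputable def k146 : KT := (.br (Nat.shiftLeft (nat_lit 0x800900d013) (nat_lit 64)) (.one (nat_lit 0x800900d012001001201a024540)) (.one (nat_lit 0x800900d013001001201a026540)))
def t146 : k146.all (jb2 57 fl b0) = true := by decide +kernel
noncomputable def k147 : KT := (.br (Nat.shiftLeft (nat_lit 0x100000900d013) (nat_lit 64)) (.br (Nat.shiftLeft (nat_lit 0x1) (nat_lit 112)) (.one (nat_lit 0x800900d014001001201a028540)) (.one (nat_lit 0x100000900d012200001201a024411))) (.br (Nat.shiftLeft (nat_lit 0x400002403405) (nat_lit 66)) (.one (nat_lit 0x100000900d013200001201a026411)) (.br (Nat.shiftLeft (nat_lit 0x801) (nat_lit 101)) (.one (nat_lit 0x100000900d014200001201a028411)) (.one (nat_lit 0x100200900d012200401201a024650)))))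
def t147 : k147.all (jb2 57 fl b0) = true := by decide +kernel
noncomputable def k148 : KT := (.br (Nat.shiftLeft (nat_lit 0x100300900d013) (nat_lit 64)) (.one (nat_lit 0x100300900d012200601201a024650)) (.one (nat_lit 0x100300900d013200601201a026650)))
def t148 : k148.all (jb2 57 fl b0) = true := by decide +kernel
noncomputable def k149 : KT := (.br (Nat.shiftLeft (nat_lit 0x803) (nat_lit 101)) (.br (Nat.shiftLeft (nat_lit 0x100400900d013) (nat_lit 64)) (.one (nat_lit 0x100400900d012200801201a024650)) (.br (Nat.shiftLeft (nat_lit 0x1005) (nat_lit 100)) (.one (nat_lit 0x100400900d013200801201a026650)) (.one (nat_lit 0x100500900d012200a01201a024650)))) (.br (Nat.shiftLeft (nat_lit 0x200000900d013) (nat_lit 64)) (.br (Nat.shiftLeft (nat_lit 0x1) (nat_lit 113)) (.one (nat_lit 0x100600900d012200c01201a024650)) (.one (nat_lit 0x200000900d012400001201a024411))) (.br (Nat.shiftLeft (nat_lit 0x800002403405) (nat_lit 66)) (.one (nat_lit 0x200000900d013400001201a026411)) (.one (nat_lit 0x200000900d014400001201a028411)))))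
def t149 : k149.all (jb2 57 fl b0) = true := by decide +kernel
noncomputable def k150 : KT := (.br (Nat.shiftLeft (nat_lit 0x200300900d013) (nat_lit 64)) (.one (nat_lit 0x200300900d012400601201a024650)) (.one (nat_lit 0x200300900d013400601201a026650)))
def t150 : k150.all (jb2 57 fl b0) = true := by decide +kernel
noncomputable def k151 : KT := (.br (Nat.shiftLeft (nat_lit 0x200400900d013) (nat_lit 64)) (.one (nat_lit 0x200400900d012400801201a024650)) (.br (Nat.shiftLeft (nat_lit 0x2005) (nat_lit 100)) (.one (nat_lit 0x200400900d013400801201a026650)) (.one (nat_lit 0x200500900d012400a01201a024650))))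
def t151 : k151.all (jb2 57 fl b0) = true := by decide +kernel
noncomputable def k152 : KT := (.br (Nat.shiftLeft (nat_lit 0xc00002403405) (nat_lit 66)) (.br (Nat.shiftLeft (nat_lit 0x3) (nat_lit 112)) (.one (nat_lit 0x200600900d012400c01201a024650)) (.br (Nat.shiftLeft (nat_lit 0x300000900d013) (nat_lit 64)) (.one (nat_lit 0x300000900d012600001201a024411)) (.one (nat_lit 0x300000900d013600001201a026411)))) (.br (Nat.shiftLeft (nat_lit 0xc01) (nat_lit 102)) (.one (nat_lit 0x300000900d014600001201a028411)) (.br (Nat.shiftLeft (nat_lit 0x300400900d013) (nat_lit 64)) (.one (nat_lit 0x300400900d012600801201a024650)) (.one (nat_lit 0x300400900d013600801201a026650)))))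
def t152 : k152.all (jb2 57 fl b0) = true := by decide +kernel
noncomputable def k153 : KT := (.br (Nat.shiftLeft (nat_lit 0x1000002403405) (nat_lit 66)) (.br (Nat.shiftLeft (nat_lit 0x1) (nat_lit 114)) (.br (Nat.shiftLeft (nat_lit 0x1803) (nat_lit 101)) (.one (nat_lit 0x300500900d012600a01201a024650)) (.one (nat_lit 0x300600900d012600c01201a024650))) (.br (Nat.shiftLeft (nat_lit 0x400000900d013) (nat_lit 64)) (.one (nat_lit 0x400000900d012800001201a024411)) (.one (nat_lit 0x400000900d013800001201a026411)))) (.br (Nat.shiftLeft (nat_lit 0x2003) (nat_lit 101)) (.br (Nat.shiftLeft (nat_lit 0x1001) (nat_lit 102)) (.one (nat_lit 0x400000900d014800001201a028411)) (.one (nat_lit 0x400500900d012800a01201a024650))) (.br (Nat.shiftLeft (nat_lit 0x5) (nat_lit 112)) (.one (nat_lit 0x400600900d012800c01201a024650)) (.br (Nat.shiftLeft (nat_lit 0x500000900d013) (nat_lit 64)) (.one (nat_lit 0x500000900d012a00001201a024411)) (.one (nat_lit 0x500000900d013a00001201a026411))))))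
def t153 : k153.all (jb2 57 fl b0) = true := by decide +kernel
noncomputable def k154 : KT := (.br (Nat.shiftLeft (nat_lit 0x2c00002403405) (nat_lit 66)) (.br (Nat.shiftLeft (nat_lit 0x800000900d013) (nat_lit 64)) (.br (Nat.shiftLeft (nat_lit 0x1800002403405) (nat_lit 66)) (.br (Nat.shiftLeft (nat_lit 0x3) (nat_lit 113)) (.br (Nat.shiftLeft (nat_lit 0x1401) (nat_lit 102)) (.one (nat_lit 0x500000900d014a00001201a028411)) (.one (nat_lit 0x500600900d012a00c01201a024650))) (.br (Nat.shiftLeft (nat_lit 0x600000900d013) (nat_lit 64)) (.one (nat_lit 0x600000900d012c00001201a024411)) (.one (nat_lit 0x600000900d013c00001201a026411)))) (.br (Nat.shiftLeft (nat_lit 0x700000900d013) (nat_lit 64)) (.br (Nat.shiftLeft (nat_lit 0x7) (nat_lit 112)) (.one (nat_lit 0x600000900d014c00001201a028411)) (.one (nat_lit 0x700000900d012e00001201a024411))) (.br (Nat.shiftLeft (nat_lit 0x1c00002403405) (nat_lit 66)) (.one (nat_lit 0x700000900d013e00001201a026411)) (.br (Nat.shiftLeft (nat_lit 0x1) (nat_lit 115)) (.one (nat_lit 0x700000900d014e00001201a028411))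 (.one (nat_lit 0x800000900d012000001201a126411)))))) (.br (Nat.shiftLeft (nat_lit 0x5) (nat_lit 113)) (.br (Nat.shiftLeft (nat_lit 0x9) (nat_lit 112)) (.br (Nat.shiftLeft (nat_lit 0x2000002403405) (nat_lit 66)) (.one (nat_lit 0x800000900d013000001201a128411)) (.one (nat_lit 0x800000900d014000001201a12a411))) (.br (Nat.shiftLeft (nat_lit 0x900000900d013) (nat_lit 64)) (.one (nat_lit 0x900000900d012200001201a126411)) (.br (Nat.shiftLeft (nat_lit 0x2400002403405) (nat_lit 66)) (.one (nat_lit 0x900000900d013200001201a128411)) (.one (nat_lit 0x900000900d014200001201a12a411))))) (.br (Nat.shiftLeft (nat_lit 0x2800002403405) (nat_lit 66)) (.br (Nat.shiftLeft (nat_lit 0xa00000900d013) (nat_lit 64)) (.one (nat_lit 0xa00000900d012400001201a126411)) (.one (nat_lit 0xa00000900d013400001201a128411))) (.br (Nat.shiftLeft (nat_lit 0xb) (nat_lit 112)) (.one (nat_lit 0xa00000900d014400001201a12a411)) (.br (Nat.shiftLeft (nat_lit 0xb00000900d013) (nat_lit 64)) (.one (nat_lit 0xb00000900d012600001201a126411)) (.one (nat_lit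 0xb00000900d013600001201a128411))))))) (.br (Nat.shiftLeft (nat_lit 0x400001) (nat_lit 102)) (.br (Nat.shiftLeft (nat_lit 0xd00000900d013) (nat_lit 64)) (.br (Nat.shiftLeft (nat_lit 0xc00000900d013) (nat_lit 64)) (.br (Nat.shiftLeft (nat_lit 0x3) (nat_lit 114)) (.one (nat_lit 0xb00000900d014600001201a12a411)) (.one (nat_lit 0xc00000900d012800001201a126411))) (.br (Nat.shiftLeft (nat_lit 0x3000002403405) (nat_lit 66)) (.one (nat_lit 0xc00000900d013800001201a128411)) (.br (Nat.shiftLeft (nat_lit 0xd) (nat_lit 112)) (.one (nat_lit 0xc00000900d014800001201a12a411)) (.one (nat_lit 0xd00000900d012a00001201a126411))))) (.br (Nat.shiftLeft (nat_lit 0x1) (nat_lit 124)) (.br (Nat.shiftLeft (nat_lit 0x3400002403405) (nat_lit 66)) (.one (nat_lit 0xd00000900d013a00001201a128411)) (.one (nat_lit 0xd00000900d014a00001201a12a411))) (.br (Nat.shiftLeft (nat_lit 0x1000003) (nat_lit 100)) (.one (nat_lit 0x100000200900d012000401203a424511)) (.br (Nat.shiftLeft (nat_lit 0x100000300900d013) (nat_lit 64)) (.one (nat_lit 0x100000300900d012000601203a424511))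 (.one (nat_lit 0x100000300900d013000601203a426511)))))) (.br (Nat.shiftLeft (nat_lit 0x2000003) (nat_lit 100)) (.br (Nat.shiftLeft (nat_lit 0x1000005) (nat_lit 100)) (.br (Nat.shiftLeft (nat_lit 0x100000400900d013) (nat_lit 64)) (.one (nat_lit 0x100000400900d012000801203a424511)) (.one (nat_lit 0x100000400900d013000801203a426511))) (.br (Nat.shiftLeft (nat_lit 0x800003) (nat_lit 101)) (.one (nat_lit 0x100000500900d012000a01203a424511)) (.br (Nat.shiftLeft (nat_lit 0x1) (nat_lit 125)) (.one (nat_lit 0x100000600900d012000c01203a424511)) (.one (nat_lit 0x200000200900d012000401205a824511))))) (.br (Nat.shiftLeft (nat_lit 0x800001) (nat_lit 102)) (.br (Nat.shiftLeft (nat_lit 0x200000300900d013) (nat_lit 64)) (.one (nat_lit 0x200000300900d012000601205a824511)) (.one (nat_lit 0x200000300900d013000601205a826511))) (.br (Nat.shiftLeft (nat_lit 0x200000400900d013) (nat_lit 64)) (.one (nat_lit 0x200000400900d012000801205a824511)) (.br (Nat.shiftLeft (nat_lit 0x2000005) (nat_lit 100)) (.one (nat_lit 0x200000400900d013000801205a826511))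 (.one (nat_lit 0x200000500900d012000a01205a824511))))))))
def t154 : k154.all (jb2 57 fl b0) = true := by decide +kernel
noncomputable def k155 : KT := (.br (Nat.shiftLeft (nat_lit 0x400000300900d013) (nat_lit 64)) (.br (Nat.shiftLeft (nat_lit 0x300000400900d013) (nat_lit 64)) (.br (Nat.shiftLeft (nat_lit 0x3000003) (nat_lit 100)) (.br (Nat.shiftLeft (nat_lit 0x3) (nat_lit 124)) (.one (nat_lit 0x200000600900d012000c01205a824511)) (.one (nat_lit 0x300000200900d012000401207ac24511))) (.br (Nat.shiftLeft (nat_lit 0x300000300900d013) (nat_lit 64)) (.one (nat_lit 0x300000300900d012000601207ac24511)) (.br (Nat.shiftLeft (nat_lit 0xc00001) (nat_lit 102)) (.one (nat_lit 0x300000300900d013000601207ac26511)) (.one (nat_lit 0x300000400900d012000801207ac24511))))) (.br (Nat.shiftLeft (nat_lit 0x1800003) (nat_lit 101)) (.br (Nat.shiftLeft (nat_lit 0x3000005) (nat_lit 100)) (.one (nat_lit 0x300000400900d013000801207ac26511)) (.one (nat_lit 0x300000500900d012000a01207ac24511))) (.br (Nat.shiftLeft (nat_lit 0x1) (nat_lit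 126)) (.one (nat_lit 0x300000600900d012000c01207ac24511)) (.br (Nat.shiftLeft (nat_lit 0x4000003) (nat_lit 100)) (.one (nat_lit 0x400000200900d012000401209b024511)) (.one (nat_lit 0x400000300900d012000601209b024511)))))) (.br (Nat.shiftLeft (nat_lit 0x5) (nat_lit 124)) (.br (Nat.shiftLeft (nat_lit 0x400000400900d013) (nat_lit 64)) (.br (Nat.shiftLeft (nat_lit 0x1000001) (nat_lit 102)) (.one (nat_lit 0x400000300900d013000601209b026511)) (.one (nat_lit 0x400000400900d012000801209b024511))) (.br (Nat.shiftLeft (nat_lit 0x4000005) (nat_lit 100)) (.one (nat_lit 0x400000400900d013000801209b026511)) (.br (Nat.shiftLeft (nat_lit 0x2000003) (nat_lit 101)) (.one (nat_lit 0x400000500900d012000a01209b024511)) (.one (nat_lit 0x400000600900d012000c01209b024511))))) (.br (Nat.shiftLeft (nat_lit 0x500000300900d013) (nat_lit 64)) (.br (Nat.shiftLeft (nat_lit 0x5000003) (nat_lit 100)) (.one (nat_lit 0x500000200900d01200040120bb424511)) (.one (nat_lit 0x500000300900d01200060120bb424511))) (.br (Nat.shiftLeft (nat_lit 0x1400001)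 (nat_lit 102)) (.one (nat_lit 0x500000300900d01300060120bb426511)) (.br (Nat.shiftLeft (nat_lit 0x500000400900d013) (nat_lit 64)) (.one (nat_lit 0x500000400900d01200080120bb424511)) (.one (nat_lit 0x500000400900d01300080120bb426511)))))))
def t155 : k155.all (jb2 57 fl b0) = true := by decide +kernel
noncomputable def k156 : KT := (.br (Nat.shiftLeft (nat_lit 0x6000005) (nat_lit 100)) (.br (Nat.shiftLeft (nat_lit 0x6000003) (nat_lit 100)) (.br (Nat.shiftLeft (nat_lit 0x2800003) (nat_lit 101)) (.one (nat_lit 0x500000500900d012000a0120bb424511)) (.br (Nat.shiftLeft (nat_lit 0x3) (nat_lit 125)) (.one (nat_lit 0x500000600900d012000c0120bb424511)) (.one (nat_lit 0x600000200900d01200040120db824511)))) (.br (Nat.shiftLeft (nat_lit 0x1800001) (nat_lit 102)) (.br (Nat.shiftLeft (nat_lit 0x600000300900d013) (nat_lit 64)) (.one (nat_lit 0x600000300900d01200060120db824511)) (.one (nat_lit 0x600000300900d01300060120db826511))) (.br (Nat.shiftLeft (nat_lit 0x600000400900d013) (nat_lit 64)) (.one (nat_lit 0x600000400900d01200080120db824511))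 (.one (nat_lit 0x600000400900d01300080120db826511))))) (.br (Nat.shiftLeft (nat_lit 0x7000003) (nat_lit 100)) (.br (Nat.shiftLeft (nat_lit 0x3000003) (nat_lit 101)) (.one (nat_lit 0x600000500900d012000a0120db824511)) (.br (Nat.shiftLeft (nat_lit 0x7) (nat_lit 124)) (.one (nat_lit 0x600000600900d012000c0120db824511)) (.one (nat_lit 0x700000200900d01200040120fbc24511)))) (.br (Nat.shiftLeft (nat_lit 0x1c00001) (nat_lit 102)) (.br (Nat.shiftLeft (nat_lit 0x700000300900d013) (nat_lit 64)) (.one (nat_lit 0x700000300900d01200060120fbc24511)) (.one (nat_lit 0x700000300900d01300060120fbc26511))) (.br (Nat.shiftLeft (nat_lit 0x700000400900d013) (nat_lit 64)) (.one (nat_lit 0x700000400900d01200080120fbc24511)) (.one (nat_lit 0x700000400900d01300080120fbc26511))))))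
def t156 : k156.all (jb2 57 fl b0) = true := by decide +kernel
noncomputable def k157 : KT := (.br (Nat.shiftLeft (nat_lit 0xa00000400900d013) (nat_lit 64)) (.br (Nat.shiftLeft (nat_lit 0x9000003) (nat_lit 100)) (.br (Nat.shiftLeft (nat_lit 0x2000001) (nat_lit 102)) (.br (Nat.shiftLeft (nat_lit 0x1) (nat_lit 127)) (.br (Nat.shiftLeft (nat_lit 0x3800003) (nat_lit 101)) (.one (nat_lit 0x700000500900d012000a0120fbc24511)) (.one (nat_lit 0x700000600900d012000c0120fbc24511))) (.br (Nat.shiftLeft (nat_lit 0x8000003) (nat_lit 100)) (.one (nat_lit 0x800000200900d012000401211c024511)) (.br (Nat.shiftLeft (nat_lit 0x800000300900d013) (nat_lit 64)) (.one (nat_lit 0x800000300900d012000601211c024511)) (.one (nat_lit 0x800000300900d013000601211c026511))))) (.br (Nat.shiftLeft (nat_lit 0x8000005) (nat_lit 100)) (.br (Nat.shiftLeft (nat_lit 0x800000400900d013) (nat_lit 64)) (.one (nat_lit 0x800000400900d012000801211c024511)) (.one (nat_lit 0x800000400900d013000801211c026511))) (.br (Nat.shiftLeft (nat_lit 0x4000003) (nat_lit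 101)) (.one (nat_lit 0x800000500900d012000a01211c024511)) (.br (Nat.shiftLeft (nat_lit 0x9) (nat_lit 124)) (.one (nat_lit 0x800000600900d012000c01211c024511)) (.one (nat_lit 0x900000200900d012000401213c424511)))))) (.br (Nat.shiftLeft (nat_lit 0x4800003) (nat_lit 101)) (.br (Nat.shiftLeft (nat_lit 0x2400001) (nat_lit 102)) (.br (Nat.shiftLeft (nat_lit 0x900000300900d013) (nat_lit 64)) (.one (nat_lit 0x900000300900d012000601213c424511)) (.one (nat_lit 0x900000300900d013000601213c426511))) (.br (Nat.shiftLeft (nat_lit 0x900000400900d013) (nat_lit 64)) (.one (nat_lit 0x900000400900d012000801213c424511)) (.br (Nat.shiftLeft (nat_lit 0x9000005) (nat_lit 100)) (.one (nat_lit 0x900000400900d013000801213c426511)) (.one (nat_lit 0x900000500900d012000a01213c424511))))) (.br (Nat.shiftLeft (nat_lit 0xa000003) (nat_lit 100)) (.br (Nat.shiftLeft (nat_lit 0x5) (nat_lit 125)) (.one (nat_lit 0x900000600900d012000c01213c424511)) (.one (nat_lit 0xa00000200900d012000401215c824511))) (.br (Nat.shiftLeft (nat_lit 0xa00000300900d013)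 (nat_lit 64)) (.one (nat_lit 0xa00000300900d012000601215c824511)) (.br (Nat.shiftLeft (nat_lit 0x2800001) (nat_lit 102)) (.one (nat_lit 0xa00000300900d013000601215c826511)) (.one (nat_lit 0xa00000400900d012000801215c824511))))))) (.br (Nat.shiftLeft (nat_lit 0x3) (nat_lit 126)) (.br (Nat.shiftLeft (nat_lit 0xb00000300900d013) (nat_lit 64)) (.br (Nat.shiftLeft (nat_lit 0x5000003) (nat_lit 101)) (.br (Nat.shiftLeft (nat_lit 0xa000005) (nat_lit 100)) (.one (nat_lit 0xa00000400900d013000801215c826511)) (.one (nat_lit 0xa00000500900d012000a01215c824511))) (.br (Nat.shiftLeft (nat_lit 0xb) (nat_lit 124)) (.one (nat_lit 0xa00000600900d012000c01215c824511)) (.br (Nat.shiftLeft (nat_lit 0xb000003) (nat_lit 100)) (.one (nat_lit 0xb00000200900d012000401217cc24511)) (.one (nat_lit 0xb00000300900d012000601217cc24511))))) (.br (Nat.shiftLeft (nat_lit 0xb00000400900d013) (nat_lit 64)) (.br (Nat.shiftLeft (nat_lit 0x2c00001) (nat_lit 102)) (.one (nat_lit 0xb00000300900d013000601217cc26511)) (.one (nat_lit 0xb00000400900d012000801217cc24511)))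 (.br (Nat.shiftLeft (nat_lit 0xb000005) (nat_lit 100)) (.one (nat_lit 0xb00000400900d013000801217cc26511)) (.br (Nat.shiftLeft (nat_lit 0x5800003) (nat_lit 101)) (.one (nat_lit 0xb00000500900d012000a01217cc24511)) (.one (nat_lit 0xb00000600900d012000c01217cc24511)))))) (.br (Nat.shiftLeft (nat_lit 0xc000005) (nat_lit 100)) (.br (Nat.shiftLeft (nat_lit 0xc00000300900d013) (nat_lit 64)) (.br (Nat.shiftLeft (nat_lit 0xc000003) (nat_lit 100)) (.one (nat_lit 0xc00000200900d012000401219d024511)) (.one (nat_lit 0xc00000300900d012000601219d024511))) (.br (Nat.shiftLeft (nat_lit 0x3000001) (nat_lit 102)) (.one (nat_lit 0xc00000300900d013000601219d026511)) (.br (Nat.shiftLeft (nat_lit 0xc00000400900d013) (nat_lit 64)) (.one (nat_lit 0xc00000400900d012000801219d024511)) (.one (nat_lit 0xc00000400900d013000801219d026511))))) (.br (Nat.shiftLeft (nat_lit 0xd000003) (nat_lit 100)) (.br (Nat.shiftLeft (nat_lit 0xd) (nat_lit 124)) (.one (nat_lit 0xc00000500900d012000a01219d024511)) (.one (nat_lit 0xd00000200900d01200040121bd424511)))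 (.br (Nat.shiftLeft (nat_lit 0xd00000300900d013) (nat_lit 64)) (.one (nat_lit 0xd00000300900d01200060121bd424511)) (.br (Nat.shiftLeft (nat_lit 0x3400001) (nat_lit 102)) (.one (nat_lit 0xd00000300900d01300060121bd426511)) (.one (nat_lit 0xd00000400900d01200080121bd424511))))))))
def t157 : k157.all (jb2 57 fl b0) = true := by decide +kernel
noncomputable def s8 : KT := (.br (nat_lit 0x700900d014000e01201a028540) (.br (nat_lit 0x500900d012000a01201a025500) (.br (nat_lit 0x200900d013000401201a026540) (.br (nat_lit 0x100900d012000201201a024540) k134 (.br (nat_lit 0x200900d012000401201a025500) k135 k136)) (.br (nat_lit 0x300900d013000601201a027500) k137 (.br (nat_lit 0x400900d013000801201a027500) k138 k139))) (.br (nat_lit 0x600900d013000c01201a026540) (.br (nat_lit 0x500900d013000a01201a026540) k140 (.br (nat_lit 0x600900d012000c01201a025500) k141 k142)) (.br (nat_lit 0x600900d014000c01201a028540) k143 (.br (nat_lit 0x700900d012000e01201a024540) k144 k145)))) (.br (nat_lit 0x200500900d012400a01201a024650) (.br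 (nat_lit 0x100300900d013200601201a026650) (.br (nat_lit 0x800900d013001001201a026540) k146 (.br (nat_lit 0x100200900d012200401201a024650) k147 k148)) (.br (nat_lit 0x200000900d014400001201a028411) k149 (.br (nat_lit 0x200300900d013400601201a026650) k150 k151))) (.br (nat_lit 0x200000500900d012000a01205a824511) (.br (nat_lit 0x300400900d013600801201a026650) k152 (.br (nat_lit 0x500000900d013a00001201a026411) k153 k154)) (.br (nat_lit 0x500000400900d01300080120bb426511) k155 (.br (nat_lit 0x700000400900d01300080120fbc26511) k156 k157)))))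
noncomputable def u8 : KT := (.br (Nat.shiftLeft (nat_lit 0x900d013) (nat_lit 64)) (.one (nat_lit 0x900d012000001201a024430)) (.br (Nat.shiftLeft (nat_lit 0x2403405) (nat_lit 66)) (.one (nat_lit 0x900d013000001201a026430)) (.one (nat_lit 0x900d014000001201a028430))))
def w8 : u8.all (wj 57 s8) = true := by decide +kernel
def o8 : OkW 57 (jb2 57 fl) u8 := .lift s8 _ (.br _ _ _ (.br _ _ _ (.br _ _ _ (.br _ _ _ (.leaf b0 k134 t134) (.br _ _ _ (.leaf b0 k135 t135) (.leaf b0 k136 t136))) (.br _ _ _ (.leaf b0 k137 t137) (.br _ _ _ (.leaf b0 k138 t138) (.leaf b0 k139 t139)))) (.br _ _ _ (.br _ _ _ (.leaf b0 k140 t140) (.br _ _ _ (.leaf b0 k141 t141) (.leaf b0 k142 t142))) (.br _ _ _ (.leaf b0 k143 t143) (.br _ _ _ (.leaf b0 k144 t144) (.leaf b0 k145 t145))))) (.br _ _ _ (.br _ _ _ (.br _ _ _ (.leaf b0 k146 t146) (.br _ _ _ (.leaf b0 k147 t147) (.leaf b0 k148 t148))) (.br _ _ _ (.leaf b0 k149 t149) (.br _ _ _ (.leaf b0 k150 t150) (.leaf b0 k151 t151)))) (.br _ _ _ (.br _ _ _ (.leaf b0 k152 t152) (.br _ _ _ (.leaf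 b0 k153 t153) (.leaf b0 k154 t154))) (.br _ _ _ (.leaf b0 k155 t155) (.br _ _ _ (.leaf b0 k156 t156) (.leaf b0 k157 t157)))))) w8
noncomputable def k158 : KT := (.br (Nat.shiftLeft (nat_lit 0x1) (nat_lit 100)) (.br (Nat.shiftLeft (nat_lit 0x480680b) (nat_lit 65)) (.one (nat_lit 0x900d015000001201a02b400)) (.br (Nat.shiftLeft (nat_lit 0x900d017) (nat_lit 64)) (.one (nat_lit 0x900d016000001201a02d400)) (.one (nat_lit 0x900d017000001201a02f400)))) (.br (Nat.shiftLeft (nat_lit 0x80480680b) (nat_lit 65)) (.one (nat_lit 0x100900d015000201201a02a540)) (.br (Nat.shiftLeft (nat_lit 0x100900d017) (nat_lit 64)) (.one (nat_lit 0x100900d016000201201a02c540)) (.one (nat_lit 0x100900d017000201201a02e540)))))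
def t158 : k158.all (jb2 57 fl b0) = true := by decide +kernel
noncomputable def k159 : KT := (.br (Nat.shiftLeft (nat_lit 0x100480680b) (nat_lit 65)) (.one (nat_lit 0x200900d015000401201a02a540)) (.one (nat_lit 0x200900d016000401201a02c540)))
def t159 : k159.all (jb2 57 fl b0) = true := by decide +kernel
noncomputable def k160 : KT := (.br (Nat.shiftLeft (nat_lit 0x3) (nat_lit 100)) (.one (nat_lit 0x200900d017000401201a02e540)) (.one (nat_lit 0x300900d015000601201a02a540)))
def t160 : k160.all (jb2 57 fl b0) = true := by decide +kernel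
noncomputable def k161 : KT := (.br (Nat.shiftLeft (nat_lit 0x300900d017) (nat_lit 64)) (.one (nat_lit 0x300900d016000601201a02c540)) (.one (nat_lit 0x300900d017000601201a02e540)))
def t161 : k161.all (jb2 57 fl b0) = true := by decide +kernel
noncomputable def k162 : KT := (.br (Nat.shiftLeft (nat_lit 0x200480680b) (nat_lit 65)) (.one (nat_lit 0x400900d015000801201a02a540)) (.one (nat_lit 0x400900d016000801201a02c540)))
def t162 : k162.all (jb2 57 fl b0) = true := by decide +kernel
noncomputable def k163 : KT := (.br (Nat.shiftLeft (nat_lit 0x5) (nat_lit 100)) (.one (nat_lit 0x400900d017000801201a02e540)) (.br (Nat.shiftLeft (nat_lit 0x280480680b) (nat_lit 65)) (.one (nat_lit 0x500900d015000a01201a02a540)) (.one (nat_lit 0x500900d016000a01201a02c540))))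
def t163 : k163.all (jb2 57 fl b0) = true := by decide +kernel
noncomputable def k164 : KT := (.br (Nat.shiftLeft (nat_lit 0x300480680b) (nat_lit 65)) (.br (Nat.shiftLeft (nat_lit 0x3) (nat_lit 101)) (.one (nat_lit 0x500900d017000a01201a02e540)) (.one (nat_lit 0x600900d015000c01201a02a540))) (.br (Nat.shiftLeft (nat_lit 0x600900d017) (nat_lit 64)) (.one (nat_lit 0x600900d016000c01201a02c540)) (.one (nat_lit 0x600900d017000c01201a02e540))))
def t164 : k164.all (jb2 57 fl b0) = true := by decide +kernel
noncomputable def k165 : KT := (.br (Nat.shiftLeft (nat_lit 0x3) (nat_lit 112)) (.br (Nat.shiftLeft (nat_lit 0x1) (nat_lit 112)) (.br (Nat.shiftLeft (nat_lit 0x1) (nat_lit 103)) (.br (Nat.shiftLeft (nat_lit 0x380480680b) (nat_lit 65)) (.one (nat_lit 0x700900d015000e01201a02a540)) (.br (Nat.shiftLeft (nat_lit 0x700900d017) (nat_lit 64)) (.one (nat_lit 0x700900d016000e01201a02c540)) (.one (nat_lit 0x700900d017000e01201a02e540)))) (.br (Nat.shiftLeft (nat_lit 0x400480680b) (nat_lit 65)) (.one (nat_lit 0x800900d015001001201a02a540))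 (.br (Nat.shiftLeft (nat_lit 0x800900d017) (nat_lit 64)) (.one (nat_lit 0x800900d016001001201a02c540)) (.one (nat_lit 0x800900d017001001201a02e540))))) (.br (Nat.shiftLeft (nat_lit 0x1) (nat_lit 113)) (.br (Nat.shiftLeft (nat_lit 0x80000480680b) (nat_lit 65)) (.one (nat_lit 0x100000900d015200001201a02a411)) (.br (Nat.shiftLeft (nat_lit 0x100000900d017) (nat_lit 64)) (.one (nat_lit 0x100000900d016200001201a02c411)) (.one (nat_lit 0x100000900d017200001201a02e411)))) (.br (Nat.shiftLeft (nat_lit 0x100000480680b) (nat_lit 65)) (.one (nat_lit 0x200000900d015400001201a02a411)) (.br (Nat.shiftLeft (nat_lit 0x200000900d017) (nat_lit 64)) (.one (nat_lit 0x200000900d016400001201a02c411)) (.one (nat_lit 0x200000900d017400001201a02e411)))))) (.br (Nat.shiftLeft (nat_lit 0x5) (nat_lit 112)) (.br (Nat.shiftLeft (nat_lit 0x1) (nat_lit 114)) (.br (Nat.shiftLeft (nat_lit 0x180000480680b) (nat_lit 65)) (.one (nat_lit 0x300000900d015600001201a02a411)) (.br (Nat.shiftLeft (nat_lit 0x300000900d017) (nat_lit 64)) (.one (nat_lit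 0x300000900d016600001201a02c411)) (.one (nat_lit 0x300000900d017600001201a02e411)))) (.br (Nat.shiftLeft (nat_lit 0x200000480680b) (nat_lit 65)) (.one (nat_lit 0x400000900d015800001201a02a411)) (.br (Nat.shiftLeft (nat_lit 0x400000900d017) (nat_lit 64)) (.one (nat_lit 0x400000900d016800001201a02c411)) (.one (nat_lit 0x400000900d017800001201a02e411))))) (.br (Nat.shiftLeft (nat_lit 0x3) (nat_lit 113)) (.br (Nat.shiftLeft (nat_lit 0x280000480680b) (nat_lit 65)) (.one (nat_lit 0x500000900d015a00001201a02a411)) (.br (Nat.shiftLeft (nat_lit 0x500000900d017) (nat_lit 64)) (.one (nat_lit 0x500000900d016a00001201a02c411)) (.one (nat_lit 0x500000900d017a00001201a02e411)))) (.br (Nat.shiftLeft (nat_lit 0x600000900d017) (nat_lit 64)) (.br (Nat.shiftLeft (nat_lit 0x300000480680b) (nat_lit 65)) (.one (nat_lit 0x600000900d015c00001201a02a411)) (.one (nat_lit 0x600000900d016c00001201a02c411))) (.br (Nat.shiftLeft (nat_lit 0x7) (nat_lit 112)) (.one (nat_lit 0x600000900d017c00001201a02e411)) (.one (nat_lit 0x700000900d015e00001201a02a411)))))))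
def t165 : k165.all (jb2 57 fl b0) = true := by decide +kernel
noncomputable def k166 : KT := (.br (Nat.shiftLeft (nat_lit 0x500000480680b) (nat_lit 65)) (.br (Nat.shiftLeft (nat_lit 0x800000900d017) (nat_lit 64)) (.br (Nat.shiftLeft (nat_lit 0x1) (nat_lit 115)) (.br (Nat.shiftLeft (nat_lit 0x700000900d017) (nat_lit 64)) (.one (nat_lit 0x700000900d016e00001201a02c411)) (.one (nat_lit 0x700000900d017e00001201a02e411))) (.br (Nat.shiftLeft (nat_lit 0x400000480680b) (nat_lit 65)) (.one (nat_lit 0x800000900d015000001201a12c411)) (.one (nat_lit 0x800000900d016000001201a12e411)))) (.br (Nat.shiftLeft (nat_lit 0x480000480680b) (nat_lit 65)) (.br (Nat.shiftLeft (nat_lit 0x9) (nat_lit 112)) (.one (nat_lit 0x800000900d017000001201a130411)) (.one (nat_lit 0x900000900d015200001201a12c411))) (.br (Nat.shiftLeft (nat_lit 0x900000900d017) (nat_lit 64)) (.one (nat_lit 0x900000900d016200001201a12e411)) (.br (Nat.shiftLeft (nat_lit 0x5) (nat_lit 113)) (.one (nat_lit 0x900000900d017200001201a130411)) (.one (nat_lit 0xa00000900d015400001201a12c411))))))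 (.br (Nat.shiftLeft (nat_lit 0x3) (nat_lit 114)) (.br (Nat.shiftLeft (nat_lit 0xb) (nat_lit 112)) (.br (Nat.shiftLeft (nat_lit 0xa00000900d017) (nat_lit 64)) (.one (nat_lit 0xa00000900d016400001201a12e411)) (.one (nat_lit 0xa00000900d017400001201a130411))) (.br (Nat.shiftLeft (nat_lit 0x580000480680b) (nat_lit 65)) (.one (nat_lit 0xb00000900d015600001201a12c411)) (.br (Nat.shiftLeft (nat_lit 0xb00000900d017) (nat_lit 64)) (.one (nat_lit 0xb00000900d016600001201a12e411)) (.one (nat_lit 0xb00000900d017600001201a130411))))) (.br (Nat.shiftLeft (nat_lit 0xc00000900d017) (nat_lit 64)) (.br (Nat.shiftLeft (nat_lit 0x600000480680b) (nat_lit 65)) (.one (nat_lit 0xc00000900d015800001201a12c411)) (.one (nat_lit 0xc00000900d016800001201a12e411))) (.br (Nat.shiftLeft (nat_lit 0xd) (nat_lit 112)) (.one (nat_lit 0xc00000900d017800001201a130411)) (.br (Nat.shiftLeft (nat_lit 0x680000480680b) (nat_lit 65)) (.one (nat_lit 0xd00000900d015a00001201a12c411)) (.one (nat_lit 0xd00000900d016a00001201a12e411)))))))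
def t166 : k166.all (jb2 57 fl b0) = true := by decide +kernel
noncomputable def s9 : KT := (.br (nat_lit 0x300900d017000601201a02e540) (.br (nat_lit 0x200900d016000401201a02c540) (.br (nat_lit 0x100900d017000201201a02e540) k158 k159) (.br (nat_lit 0x300900d015000601201a02a540) k160 k161)) (.br (nat_lit 0x500900d016000a01201a02c540) (.br (nat_lit 0x400900d016000801201a02c540) k162 k163) (.br (nat_lit 0x600900d017000c01201a02e540) k164 (.br (nat_lit 0x700000900d015e00001201a02a411) k165 k166))))
noncomputable def u9 : KT := (.br (Nat.shiftLeft (nat_lit 0x480680b) (nat_lit 65)) (.one (nat_lit 0x900d015000001201a02a430)) (.br (Nat.shiftLeft (nat_lit 0x900d017) (nat_lit 64)) (.one (nat_lit 0x900d016000001201a02c430)) (.one (nat_lit 0x900d017000001201a02e430))))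
def w9 : u9.all (wj 57 s9) = true := by decide +kernel
def o9 : OkW 57 (jb2 57 fl) u9 := .lift s9 _ (.br _ _ _ (.br _ _ _ (.br _ _ _ (.leaf b0 k158 t158) (.leaf b0 k159 t159)) (.br _ _ _ (.leaf b0 k160 t160) (.leaf b0 k161 t161))) (.br _ _ _ (.br _ _ _ (.leaf b0 k162 t162) (.leaf b0 k163 t163)) (.br _ _ _ (.leaf b0 k164 t164) (.br _ _ _ (.leaf b0 k165 t165) (.leaf b0 k166 t166))))) w9
noncomputable def k167 : KT := (.br (Nat.shiftLeft (nat_lit 0x5) (nat_lit 100)) (.br (Nat.shiftLeft (nat_lit 0x1) (nat_lit 101)) (.br (Nat.shiftLeft (nat_lit 0x1) (nat_lit 100)) (.one (nat_lit 0x900e00f000001201c01f400)) (.one (nat_lit 0x100900e00f000201201c01e540))) (.br (Nat.shiftLeft (nat_lit 0x3) (nat_lit 100)) (.one (nat_lit 0x200900e00f000401201c01f500)) (.br (Nat.shiftLeft (nat_lit 0x1) (nat_lit 102)) (.one (nat_lit 0x300900e00f000601201c01f500)) (.one (nat_lit 0x400900e00f000801201c01f500))))) (.br (Nat.shiftLeft (nat_lit 0x7) (nat_lit 100)) (.br (Nat.shiftLeft (nat_lit 0x3) (nat_lit 101)) (.one (nat_lit 0x500900e00f000a01201c01f500))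 (.one (nat_lit 0x600900e00f000c01201c01f500))) (.br (Nat.shiftLeft (nat_lit 0x1) (nat_lit 103)) (.one (nat_lit 0x700900e00f000e01201c01f500)) (.br (Nat.shiftLeft (nat_lit 0x1) (nat_lit 112)) (.one (nat_lit 0x800900e00f001001201c01f500)) (.one (nat_lit 0x100000900e00f200001201c01e411))))))
def t167 : k167.all (jb2 57 fl b0) = true := by decide +kernel
noncomputable def k168 : KT := (.one (nat_lit 0x100200900e00f200401201c01e650))
def t168 : k168.all (jb2 57 fl b0) = true := by decide +kernel
noncomputable def k169 : KT := (.one (nat_lit 0x100300900e00f200601201c01e650))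
def t169 : k169.all (jb2 57 fl b0) = true := by decide +kernel
noncomputable def k170 : KT := (.one (nat_lit 0x100400900e00f200801201c01e650))
def t170 : k170.all (jb2 57 fl b0) = true := by decide +kernel
noncomputable def k171 : KT := (.br (Nat.shiftLeft (nat_lit 0x803) (nat_lit 101)) (.one (nat_lit 0x100500900e00f200a01201c01e650)) (.br (Nat.shiftLeft (nat_lit 0x1007) (nat_lit 100)) (.one (nat_lit 0x100600900e00f200c01201c01e650)) (.one (nat_lit 0x100700900e00f200e01201c01e650))))
def t171 : k171.all (jb2 57 fl b0) = true := by decide +kernel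
noncomputable def k172 : KT := (.br (Nat.shiftLeft (nat_lit 0x1001) (nat_lit 101)) (.br (Nat.shiftLeft (nat_lit 0x1) (nat_lit 113)) (.one (nat_lit 0x100800900e00f201001201c01e650)) (.one (nat_lit 0x200000900e00f400001201c01e411))) (.br (Nat.shiftLeft (nat_lit 0x801) (nat_lit 102)) (.one (nat_lit 0x200300900e00f400601201c01f600)) (.one (nat_lit 0x200400900e00f400801201c01e650))))
def t172 : k172.all (jb2 57 fl b0) = true := by decide +kernel
noncomputable def k173 : KT := (.br (Nat.shiftLeft (nat_lit 0x1003) (nat_lit 101)) (.one (nat_lit 0x200500900e00f400a01201c01e650)) (.one (nat_lit 0x200600900e00f400c01201c01e650)))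
def t173 : k173.all (jb2 57 fl b0) = true := by decide +kernel
noncomputable def k174 : KT := (.br (Nat.shiftLeft (nat_lit 0x401) (nat_lit 103)) (.one (nat_lit 0x200700900e00f400e01201c01e650)) (.br (Nat.shiftLeft (nat_lit 0x3) (nat_lit 112)) (.one (nat_lit 0x200800900e00f401001201c01e650)) (.one (nat_lit 0x300000900e00f600001201c01e411))))
def t174 : k174.all (jb2 57 fl b0) = true := by decide +kernel
noncomputable def k175 : KT := (.one (nat_lit 0x300400900e00f600801201c01e650))
def t175 : k175.all (jb2 57 fl b0) = true := by decide +kernel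
noncomputable def k176 : KT := (.br (Nat.shiftLeft (nat_lit 0x1803) (nat_lit 101)) (.one (nat_lit 0x300500900e00f600a01201c01e650)) (.one (nat_lit 0x300600900e00f600c01201c01e650)))
def t176 : k176.all (jb2 57 fl b0) = true := by decide +kernel
noncomputable def k177 : KT := (.br (Nat.shiftLeft (nat_lit 0x601) (nat_lit 103)) (.one (nat_lit 0x300700900e00f600e01201c01e650)) (.br (Nat.shiftLeft (nat_lit 0x1) (nat_lit 114)) (.one (nat_lit 0x300800900e00f601001201c01e650)) (.one (nat_lit 0x400000900e00f800001201c01e411))))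
def t177 : k177.all (jb2 57 fl b0) = true := by decide +kernel
noncomputable def k178 : KT := (.br (Nat.shiftLeft (nat_lit 0x2003) (nat_lit 101)) (.one (nat_lit 0x400500900e00f800a01201c01e650)) (.one (nat_lit 0x400600900e00f800c01201c01e650)))
def t178 : k178.all (jb2 57 fl b0) = true := by decide +kernel
noncomputable def k179 : KT := (.br (Nat.shiftLeft (nat_lit 0x5) (nat_lit 112)) (.br (Nat.shiftLeft (nat_lit 0x801) (nat_lit 103)) (.one (nat_lit 0x400700900e00f800e01201c01e650)) (.one (nat_lit 0x400800900e00f801001201c01e650))) (.br (Nat.shiftLeft (nat_lit 0x1401) (nat_lit 102)) (.one (nat_lit 0x500000900e00fa00001201c01e411)) (.br (Nat.shiftLeft (nat_lit 0x5007) (nat_lit 100)) (.one (nat_lit 0x500600900e00fa00c01201c01e650)) (.one (nat_lit 0x500700900e00fa00e01201c01e650)))))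
def t179 : k179.all (jb2 57 fl b0) = true := by decide +kernel
noncomputable def k180 : KT := (.br (Nat.shiftLeft (nat_lit 0x3) (nat_lit 114)) (.br (Nat.shiftLeft (nat_lit 0xe01) (nat_lit 103)) (.br (Nat.shiftLeft (nat_lit 0x1801) (nat_lit 102)) (.br (Nat.shiftLeft (nat_lit 0x3) (nat_lit 113)) (.one (nat_lit 0x500800900e00fa01001201c01e650)) (.one (nat_lit 0x600000900e00fc00001201c01e411))) (.br (Nat.shiftLeft (nat_lit 0xc01) (nat_lit 103)) (.one (nat_lit 0x600700900e00fc00e01201c01e650)) (.br (Nat.shiftLeft (nat_lit 0x7) (nat_lit 112)) (.one (nat_lit 0x600800900e00fc01001201c01e650)) (.one (nat_lit 0x700000900e00fe00001201c01e411))))) (.br (Nat.shiftLeft (nat_lit 0x9) (nat_lit 112)) (.br (Nat.shiftLeft (nat_lit 0x1) (nat_lit 115)) (.one (nat_lit 0x700800900e00fe01001201c01e650)) (.one (nat_lit 0x800000900e00f000001201c120411))) (.br (Nat.shiftLeft (nat_lit 0x5) (nat_lit 113)) (.one (nat_lit 0x900000900e00f200001201c120411)) (.br (Nat.shiftLeft (nat_lit 0xb) (nat_lit 112)) (.one (nat_lit 0xa00000900e00f400001201c120411))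 (.one (nat_lit 0xb00000900e00f600001201c120411)))))) (.br (Nat.shiftLeft (nat_lit 0x400001) (nat_lit 102)) (.br (Nat.shiftLeft (nat_lit 0x7) (nat_lit 113)) (.br (Nat.shiftLeft (nat_lit 0xd) (nat_lit 112)) (.one (nat_lit 0xc00000900e00f800001201c120411)) (.one (nat_lit 0xd00000900e00fa00001201c120411))) (.br (Nat.shiftLeft (nat_lit 0x1) (nat_lit 124)) (.one (nat_lit 0xe00000900e00fc00001201c120411)) (.br (Nat.shiftLeft (nat_lit 0x1000003) (nat_lit 100)) (.one (nat_lit 0x100000200900e00f000401203c41e511)) (.one (nat_lit 0x100000300900e00f000601203c41e511))))) (.br (Nat.shiftLeft (nat_lit 0x800003) (nat_lit 101)) (.br (Nat.shiftLeft (nat_lit 0x1000005) (nat_lit 100)) (.one (nat_lit 0x100000400900e00f000801203c41e511)) (.one (nat_lit 0x100000500900e00f000a01203c41e511))) (.br (Nat.shiftLeft (nat_lit 0x1000007) (nat_lit 100)) (.one (nat_lit 0x100000600900e00f000c01203c41e511)) (.br (Nat.shiftLeft (nat_lit 0x200001) (nat_lit 103)) (.one (nat_lit 0x100000700900e00f000e01203c41e511)) (.one (nat_lit 0x100000800900e00f001001203c41e511)))))))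
def t180 : k180.all (jb2 57 fl b0) = true := by decide +kernel
noncomputable def k181 : KT := (.br (Nat.shiftLeft (nat_lit 0xc00001) (nat_lit 102)) (.br (Nat.shiftLeft (nat_lit 0x1000003) (nat_lit 101)) (.br (Nat.shiftLeft (nat_lit 0x2000003) (nat_lit 100)) (.br (Nat.shiftLeft (nat_lit 0x1) (nat_lit 125)) (.one (nat_lit 0x100200300900e00f400601203c41e760)) (.one (nat_lit 0x200000200900e00f000401205c81e511))) (.br (Nat.shiftLeft (nat_lit 0x800001) (nat_lit 102)) (.one (nat_lit 0x200000300900e00f000601205c81e511)) (.br (Nat.shiftLeft (nat_lit 0x2000005) (nat_lit 100)) (.one (nat_lit 0x200000400900e00f000801205c81e511)) (.one (nat_lit 0x200000500900e00f000a01205c81e511))))) (.br (Nat.shiftLeft (nat_lit 0x400001) (nat_lit 103)) (.br (Nat.shiftLeft (nat_lit 0x2000007) (nat_lit 100)) (.one (nat_lit 0x200000600900e00f000c01205c81e511)) (.one (nat_lit 0x200000700900e00f000e01205c81e511))) (.br (Nat.shiftLeft (nat_lit 0x3) (nat_lit 124)) (.one (nat_lit 0x200000800900e00f001001205c81e511)) (.br (Nat.shiftLeft (nat_lit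 0x3000003) (nat_lit 100)) (.one (nat_lit 0x300000200900e00f000401207cc1e511)) (.one (nat_lit 0x300000300900e00f000601207cc1e511)))))) (.br (Nat.shiftLeft (nat_lit 0x1) (nat_lit 126)) (.br (Nat.shiftLeft (nat_lit 0x1800003) (nat_lit 101)) (.br (Nat.shiftLeft (nat_lit 0x3000005) (nat_lit 100)) (.one (nat_lit 0x300000400900e00f000801207cc1e511)) (.one (nat_lit 0x300000500900e00f000a01207cc1e511))) (.br (Nat.shiftLeft (nat_lit 0x3000007) (nat_lit 100)) (.one (nat_lit 0x300000600900e00f000c01207cc1e511)) (.br (Nat.shiftLeft (nat_lit 0x600001) (nat_lit 103)) (.one (nat_lit 0x300000700900e00f000e01207cc1e511)) (.one (nat_lit 0x300000800900e00f001001207cc1e511))))) (.br (Nat.shiftLeft (nat_lit 0x4000005) (nat_lit 100)) (.br (Nat.shiftLeft (nat_lit 0x4000003) (nat_lit 100)) (.one (nat_lit 0x400000200900e00f000401209d01e511)) (.br (Nat.shiftLeft (nat_lit 0x1000001) (nat_lit 102)) (.one (nat_lit 0x400000300900e00f000601209d01e511)) (.one (nat_lit 0x400000400900e00f000801209d01e511)))) (.br (Nat.shiftLeft (nat_lit 0x2000003)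 (nat_lit 101)) (.one (nat_lit 0x400000500900e00f000a01209d01e511)) (.br (Nat.shiftLeft (nat_lit 0x4000007) (nat_lit 100)) (.one (nat_lit 0x400000600900e00f000c01209d01e511)) (.one (nat_lit 0x400000700900e00f000e01209d01e511)))))))
def t181 : k181.all (jb2 57 fl b0) = true := by decide +kernel
noncomputable def k182 : KT := (.br (Nat.shiftLeft (nat_lit 0x5000005) (nat_lit 100)) (.br (Nat.shiftLeft (nat_lit 0x5000003) (nat_lit 100)) (.br (Nat.shiftLeft (nat_lit 0x5) (nat_lit 124)) (.one (nat_lit 0x400000800900e00f001001209d01e511)) (.one (nat_lit 0x500000200900e00f00040120bd41e511))) (.br (Nat.shiftLeft (nat_lit 0x1400001) (nat_lit 102)) (.one (nat_lit 0x500000300900e00f00060120bd41e511)) (.one (nat_lit 0x500000400900e00f00080120bd41e511)))) (.br (Nat.shiftLeft (nat_lit 0x5000007) (nat_lit 100)) (.br (Nat.shiftLeft (nat_lit 0x2800003) (nat_lit 101)) (.one (nat_lit 0x500000500900e00f000a0120bd41e511)) (.one (nat_lit 0x500000600900e00f000c0120bd41e511))) (.br (Nat.shiftLeft (nat_lit 0xa00001) (nat_lit 103)) (.one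 (nat_lit 0x500000700900e00f000e0120bd41e511)) (.br (Nat.shiftLeft (nat_lit 0x3) (nat_lit 125)) (.one (nat_lit 0x500000800900e00f00100120bd41e511)) (.one (nat_lit 0x600000200900e00f00040120dd81e511))))))
def t182 : k182.all (jb2 57 fl b0) = true := by decide +kernel
noncomputable def k183 : KT := (.br (Nat.shiftLeft (nat_lit 0x6000007) (nat_lit 100)) (.br (Nat.shiftLeft (nat_lit 0x6000005) (nat_lit 100)) (.br (Nat.shiftLeft (nat_lit 0x1800001) (nat_lit 102)) (.one (nat_lit 0x600000300900e00f00060120dd81e511)) (.one (nat_lit 0x600000400900e00f00080120dd81e511))) (.br (Nat.shiftLeft (nat_lit 0x3000003) (nat_lit 101)) (.one (nat_lit 0x600000500900e00f000a0120dd81e511)) (.one (nat_lit 0x600000600900e00f000c0120dd81e511)))) (.br (Nat.shiftLeft (nat_lit 0x7) (nat_lit 124)) (.br (Nat.shiftLeft (nat_lit 0xc00001) (nat_lit 103)) (.one (nat_lit 0x600000700900e00f000e0120dd81e511)) (.one (nat_lit 0x600000800900e00f00100120dd81e511))) (.br (Nat.shiftLeft (nat_lit 0x7000003) (nat_lit 100)) (.one (nat_lit 0x700000200900e00f00040120fdc1e511))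 (.br (Nat.shiftLeft (nat_lit 0x1c00001) (nat_lit 102)) (.one (nat_lit 0x700000300900e00f00060120fdc1e511)) (.one (nat_lit 0x700000400900e00f00080120fdc1e511))))))
def t183 : k183.all (jb2 57 fl b0) = true := by decide +kernel
noncomputable def k184 : KT := (.br (Nat.shiftLeft (nat_lit 0x8000005) (nat_lit 100)) (.br (Nat.shiftLeft (nat_lit 0xe00001) (nat_lit 103)) (.br (Nat.shiftLeft (nat_lit 0x3800003) (nat_lit 101)) (.one (nat_lit 0x700000500900e00f000a0120fdc1e511)) (.br (Nat.shiftLeft (nat_lit 0x7000007) (nat_lit 100)) (.one (nat_lit 0x700000600900e00f000c0120fdc1e511)) (.one (nat_lit 0x700000700900e00f000e0120fdc1e511)))) (.br (Nat.shiftLeft (nat_lit 0x8000003) (nat_lit 100)) (.br (Nat.shiftLeft (nat_lit 0x1) (nat_lit 127)) (.one (nat_lit 0x700000800900e00f00100120fdc1e511)) (.one (nat_lit 0x800000200900e00f000401211e01e511))) (.br (Nat.shiftLeft (nat_lit 0x2000001) (nat_lit 102)) (.one (nat_lit 0x800000300900e00f000601211e01e511)) (.one (nat_lit 0x800000400900e00f000801211e01e511))))) (.br (Nat.shiftLeft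 (nat_lit 0x9) (nat_lit 124)) (.br (Nat.shiftLeft (nat_lit 0x8000007) (nat_lit 100)) (.br (Nat.shiftLeft (nat_lit 0x4000003) (nat_lit 101)) (.one (nat_lit 0x800000500900e00f000a01211e01e511)) (.one (nat_lit 0x800000600900e00f000c01211e01e511))) (.br (Nat.shiftLeft (nat_lit 0x1000001) (nat_lit 103)) (.one (nat_lit 0x800000700900e00f000e01211e01e511)) (.one (nat_lit 0x800000800900e00f001001211e01e511)))) (.br (Nat.shiftLeft (nat_lit 0x2400001) (nat_lit 102)) (.br (Nat.shiftLeft (nat_lit 0x9000003) (nat_lit 100)) (.one (nat_lit 0x900000200900e00f000401213e41e511)) (.one (nat_lit 0x900000300900e00f000601213e41e511))) (.br (Nat.shiftLeft (nat_lit 0x9000005) (nat_lit 100)) (.one (nat_lit 0x900000400900e00f000801213e41e511)) (.one (nat_lit 0x900000500900e00f000a01213e41e511))))))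
def t184 : k184.all (jb2 57 fl b0) = true := by decide +kernel
noncomputable def k185 : KT := (.br (Nat.shiftLeft (nat_lit 0x3000001) (nat_lit 102)) (.br (Nat.shiftLeft (nat_lit 0x1400001) (nat_lit 103)) (.br (Nat.shiftLeft (nat_lit 0xa000003) (nat_lit 100)) (.br (Nat.shiftLeft (nat_lit 0x1200001) (nat_lit 103)) (.br (Nat.shiftLeft (nat_lit 0x9000007) (nat_lit 100)) (.one (nat_lit 0x900000600900e00f000c01213e41e511)) (.one (nat_lit 0x900000700900e00f000e01213e41e511))) (.br (Nat.shiftLeft (nat_lit 0x5) (nat_lit 125)) (.one (nat_lit 0x900000800900e00f001001213e41e511)) (.one (nat_lit 0xa00000200900e00f000401215e81e511)))) (.br (Nat.shiftLeft (nat_lit 0xa000005) (nat_lit 100)) (.br (Nat.shiftLeft (nat_lit 0x2800001) (nat_lit 102)) (.one (nat_lit 0xa00000300900e00f000601215e81e511)) (.one (nat_lit 0xa00000400900e00f000801215e81e511))) (.br (Nat.shiftLeft (nat_lit 0x5000003) (nat_lit 101)) (.one (nat_lit 0xa00000500900e00f000a01215e81e511)) (.br (Nat.shiftLeft (nat_lit 0xa000007) (nat_lit 100)) (.one (nat_lit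 0xa00000600900e00f000c01215e81e511)) (.one (nat_lit 0xa00000700900e00f000e01215e81e511)))))) (.br (Nat.shiftLeft (nat_lit 0x5800003) (nat_lit 101)) (.br (Nat.shiftLeft (nat_lit 0xb000003) (nat_lit 100)) (.br (Nat.shiftLeft (nat_lit 0xb) (nat_lit 124)) (.one (nat_lit 0xa00000800900e00f001001215e81e511)) (.one (nat_lit 0xb00000200900e00f000401217ec1e511))) (.br (Nat.shiftLeft (nat_lit 0x2c00001) (nat_lit 102)) (.one (nat_lit 0xb00000300900e00f000601217ec1e511)) (.br (Nat.shiftLeft (nat_lit 0xb000005) (nat_lit 100)) (.one (nat_lit 0xb00000400900e00f000801217ec1e511)) (.one (nat_lit 0xb00000500900e00f000a01217ec1e511))))) (.br (Nat.shiftLeft (nat_lit 0x1600001) (nat_lit 103)) (.br (Nat.shiftLeft (nat_lit 0xb000007) (nat_lit 100)) (.one (nat_lit 0xb00000600900e00f000c01217ec1e511)) (.one (nat_lit 0xb00000700900e00f000e01217ec1e511))) (.br (Nat.shiftLeft (nat_lit 0x3) (nat_lit 126)) (.one (nat_lit 0xb00000800900e00f001001217ec1e511)) (.br (Nat.shiftLeft (nat_lit 0xc000003) (nat_lit 100)) (.one (nat_lit 0xc00000200900e00f000401219f01e511))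 (.one (nat_lit 0xc00000300900e00f000601219f01e511))))))) (.br (Nat.shiftLeft (nat_lit 0x7) (nat_lit 125)) (.br (Nat.shiftLeft (nat_lit 0xd) (nat_lit 124)) (.br (Nat.shiftLeft (nat_lit 0x6000003) (nat_lit 101)) (.br (Nat.shiftLeft (nat_lit 0xc000005) (nat_lit 100)) (.one (nat_lit 0xc00000400900e00f000801219f01e511)) (.one (nat_lit 0xc00000500900e00f000a01219f01e511))) (.br (Nat.shiftLeft (nat_lit 0xc000007) (nat_lit 100)) (.one (nat_lit 0xc00000600900e00f000c01219f01e511)) (.one (nat_lit 0xc00000700900e00f000e01219f01e511)))) (.br (Nat.shiftLeft (nat_lit 0x3400001) (nat_lit 102)) (.br (Nat.shiftLeft (nat_lit 0xd000003) (nat_lit 100)) (.one (nat_lit 0xd00000200900e00f00040121bf41e511)) (.one (nat_lit 0xd00000300900e00f00060121bf41e511))) (.br (Nat.shiftLeft (nat_lit 0xd000005) (nat_lit 100)) (.one (nat_lit 0xd00000400900e00f00080121bf41e511)) (.br (Nat.shiftLeft (nat_lit 0x6800003) (nat_lit 101)) (.one (nat_lit 0xd00000500900e00f000a0121bf41e511)) (.one (nat_lit 0xd00000600900e00f000c0121bf41e511)))))) (.br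 (Nat.shiftLeft (nat_lit 0x1) (nat_lit 137)) (.br (Nat.shiftLeft (nat_lit 0x3800001) (nat_lit 102)) (.br (Nat.shiftLeft (nat_lit 0xe000003) (nat_lit 100)) (.one (nat_lit 0xe00000200900e00f00040121df81e511)) (.one (nat_lit 0xe00000300900e00f00060121df81e511))) (.br (Nat.shiftLeft (nat_lit 0xe000005) (nat_lit 100)) (.one (nat_lit 0xe00000400900e00f00080121df81e511)) (.br (Nat.shiftLeft (nat_lit 0x1) (nat_lit 136)) (.one (nat_lit 0xe00000500900e00f000a0121df81e511)) (.one (nat_lit 0x100000200300900e00f400603241c01e611))))) (.br (Nat.shiftLeft (nat_lit 0x1) (nat_lit 138)) (.br (Nat.shiftLeft (nat_lit 0x3) (nat_lit 136)) (.one (nat_lit 0x200000200300900e00f400605281c01e611)) (.one (nat_lit 0x300000200300900e00f4006072c1c01e611))) (.br (Nat.shiftLeft (nat_lit 0x5) (nat_lit 136)) (.one (nat_lit 0x400000200300900e00f400609301c01e611)) (.br (Nat.shiftLeft (nat_lit 0x3) (nat_lit 137)) (.one (nat_lit 0x500000200300900e00f40060b341c01e611)) (.one (nat_lit 0x600000200300900e00f40060d381c01e611))))))))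
def t185 : k185.all (jb2 57 fl b0) = true := by decide +kernel
noncomputable def k186 : KT := (.br (Nat.shiftLeft (nat_lit 0xb) (nat_lit 136)) (.br (Nat.shiftLeft (nat_lit 0x9) (nat_lit 136)) (.br (Nat.shiftLeft (nat_lit 0x1) (nat_lit 139)) (.one (nat_lit 0x700000200300900e00f40060f3c1c01e611)) (.one (nat_lit 0x800000200300900e00f400611401c01e611))) (.br (Nat.shiftLeft (nat_lit 0x5) (nat_lit 137)) (.one (nat_lit 0x900000200300900e00f400613441c01e611)) (.one (nat_lit 0xa00000200300900e00f400615481c01e611)))) (.br (Nat.shiftLeft (nat_lit 0xd) (nat_lit 136)) (.br (Nat.shiftLeft (nat_lit 0x3) (nat_lit 138)) (.one (nat_lit 0xb00000200300900e00f4006174c1c01e611)) (.one (nat_lit 0xc00000200300900e00f400619501c01e611))) (.br (Nat.shiftLeft (nat_lit 0x7) (nat_lit 137)) (.one (nat_lit 0xd00000200300900e00f40061b541c01e611)) (.one (nat_lit 0xe00000200300900e00f40061d581c01e611)))))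
def t186 : k186.all (jb2 57 fl b0) = true := by decide +kernel
noncomputable def s10 : KT := (.br (nat_lit 0x300600900e00f600c01201c01e650) (.br (nat_lit 0x100700900e00f200e01201c01e650) (.br (nat_lit 0x100200900e00f200401201c01e650) (.br (nat_lit 0x100000900e00f200001201c01e411) k167 k168) (.br (nat_lit 0x100300900e00f200601201c01e650) k169 (.br (nat_lit 0x100400900e00f200801201c01e650) k170 k171))) (.br (nat_lit 0x200600900e00f400c01201c01e650) (.br (nat_lit 0x200400900e00f400801201c01e650) k172 k173) (.br (nat_lit 0x300000900e00f600001201c01e411) k174 (.br (nat_lit 0x300400900e00f600801201c01e650) k175 k176)))) (.br (nat_lit 0x400000700900e00f000e01209d01e511) (.br (nat_lit 0x400600900e00f800c01201c01e650) (.br (nat_lit 0x400000900e00f800001201c01e411) k177 k178) (.br (nat_lit 0x500700900e00fa00e01201c01e650) k179 (.br (nat_lit 0x100000800900e00f001001203c41e511) k180 k181))) (.br (nat_lit 0x700000400900e00f00080120fdc1e511) (.br (nat_lit 0x600000200900e00f00040120dd81e511) k182 k183) (.br (nat_lit 0x900000500900e00f000a01213e41e511)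 k184 (.br (nat_lit 0x600000200300900e00f40060d381c01e611) k185 k186)))))
noncomputable def u10 : KT := (.one (nat_lit 0x900e00f000001201c01e430))
def w10 : u10.all (wj 57 s10) = true := by decide +kernel
def o10 : OkW 57 (jb2 57 fl) u10 := .lift s10 _ (.br _ _ _ (.br _ _ _ (.br _ _ _ (.br _ _ _ (.leaf b0 k167 t167) (.leaf b0 k168 t168)) (.br _ _ _ (.leaf b0 k169 t169) (.br _ _ _ (.leaf b0 k170 t170) (.leaf b0 k171 t171)))) (.br _ _ _ (.br _ _ _ (.leaf b0 k172 t172) (.leaf b0 k173 t173)) (.br _ _ _ (.leaf b0 k174 t174) (.br _ _ _ (.leaf b0 k175 t175) (.leaf b0 k176 t176))))) (.br _ _ _ (.br _ _ _ (.br _ _ _ (.leaf b0 k177 t177) (.leaf b0 k178 t178)) (.br _ _ _ (.leaf b0 k179 t179) (.br _ _ _ (.leaf b0 k180 t180) (.leaf b0 k181 t181)))) (.br _ _ _ (.br _ _ _ (.leaf b0 k182 t182) (.leaf b0 k183 t183)) (.br _ _ _ (.leaf b0 k184 t184) (.br _ _ _ (.leaf b0 k185 t185) (.leaf b0 k186 t186)))))) w10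
noncomputable def k187 : KT := (.br (Nat.shiftLeft (nat_lit 0x1) (nat_lit 102)) (.br (Nat.shiftLeft (nat_lit 0x1) (nat_lit 101)) (.br (Nat.shiftLeft (nat_lit 0x1) (nat_lit 100)) (.one (nat_lit 0x900e010000001201c021400)) (.one (nat_lit 0x100900e010000201201c020540))) (.br (Nat.shiftLeft (nat_lit 0x3) (nat_lit 100)) (.one (nat_lit 0x200900e010000401201c021500)) (.one (nat_lit 0x300900e010000601201c021500)))) (.br (Nat.shiftLeft (nat_lit 0x3) (nat_lit 101)) (.br (Nat.shiftLeft (nat_lit 0x5) (nat_lit 100)) (.one (nat_lit 0x400900e010000801201c021500)) (.one (nat_lit 0x500900e010000a01201c021500))) (.br (Nat.shiftLeft (nat_lit 0x7) (nat_lit 100)) (.one (nat_lit 0x600900e010000c01201c021500)) (.one (nat_lit 0x700900e010000e01201c021500)))))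
def t187 : k187.all (jb2 57 fl b0) = true := by decide +kernel
noncomputable def k188 : KT := (.br (Nat.shiftLeft (nat_lit 0x1) (nat_lit 112)) (.one (nat_lit 0x800900e010001001201c020540)) (.one (nat_lit 0x100000900e010200001201c020411)))
def t188 : k188.all (jb2 57 fl b0) = true := by decide +kernel
noncomputable def k189 : KT := (.one (nat_lit 0x100200900e010200401201c020650))
def t189 : k189.all (jb2 57 fl b0) = true := by decide +kernel
noncomputable def k190 : KT := (.one (nat_lit 0x100300900e010200601201c020650))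
def t190 : k190.all (jb2 57 fl b0) = true := by decide +kernel
noncomputable def k191 : KT := (.br (Nat.shiftLeft (nat_lit 0x1005) (nat_lit 100)) (.one (nat_lit 0x100400900e010200801201c020650)) (.br (Nat.shiftLeft (nat_lit 0x803) (nat_lit 101)) (.one (nat_lit 0x100500900e010200a01201c020650)) (.one (nat_lit 0x100600900e010200c01201c020650))))
def t191 : k191.all (jb2 57 fl b0) = true := by decide +kernel
noncomputable def k192 : KT := (.br (Nat.shiftLeft (nat_lit 0x1) (nat_lit 113)) (.one (nat_lit 0x100700900e010200e01201c020650)) (.br (Nat.shiftLeft (nat_lit 0x1001) (nat_lit 101)) (.one (nat_lit 0x200000900e010400001201c020411)) (.one (nat_lit 0x200300900e010400601201c020650))))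
def t192 : k192.all (jb2 57 fl b0) = true := by decide +kernel
noncomputable def k193 : KT := (.br (Nat.shiftLeft (nat_lit 0x2005) (nat_lit 100)) (.one (nat_lit 0x200400900e010400801201c020650)) (.one (nat_lit 0x200500900e010400a01201c020650)))
def t193 : k193.all (jb2 57 fl b0) = true := by decide +kernel
noncomputable def k194 : KT := (.br (Nat.shiftLeft (nat_lit 0x2007) (nat_lit 100)) (.one (nat_lit 0x200600900e010400c01201c020650)) (.br (Nat.shiftLeft (nat_lit 0x3) (nat_lit 112)) (.one (nat_lit 0x200700900e010400e01201c020650)) (.one (nat_lit 0x300000900e010600001201c020411))))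
def t194 : k194.all (jb2 57 fl b0) = true := by decide +kernel
noncomputable def k195 : KT := (.br (Nat.shiftLeft (nat_lit 0x3005) (nat_lit 100)) (.one (nat_lit 0x300400900e010600801201c020650)) (.one (nat_lit 0x300500900e010600a01201c020650)))
def t195 : k195.all (jb2 57 fl b0) = true := by decide +kernel
noncomputable def k196 : KT := (.br (Nat.shiftLeft (nat_lit 0x1) (nat_lit 114)) (.br (Nat.shiftLeft (nat_lit 0x3007) (nat_lit 100)) (.one (nat_lit 0x300600900e010600c01201c020650)) (.one (nat_lit 0x300700900e010600e01201c020650))) (.br (Nat.shiftLeft (nat_lit 0x1001) (nat_lit 102)) (.one (nat_lit 0x400000900e010800001201c020411)) (.one (nat_lit 0x400500900e010800a01201c020650))))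
def t196 : k196.all (jb2 57 fl b0) = true := by decide +kernel
noncomputable def k197 : KT := (.br (Nat.shiftLeft (nat_lit 0x5007) (nat_lit 100)) (.br (Nat.shiftLeft (nat_lit 0x5) (nat_lit 112)) (.br (Nat.shiftLeft (nat_lit 0x4007) (nat_lit 100)) (.one (nat_lit 0x400600900e010800c01201c020650)) (.one (nat_lit 0x400700900e010800e01201c020650))) (.br (Nat.shiftLeft (nat_lit 0x1401) (nat_lit 102)) (.one (nat_lit 0x500000900e010a00001201c020411)) (.one (nat_lit 0x500600900e010a00c01201c020650)))) (.br (Nat.shiftLeft (nat_lit 0x1801) (nat_lit 102)) (.br (Nat.shiftLeft (nat_lit 0x3) (nat_lit 113)) (.one (nat_lit 0x500700900e010a00e01201c020650)) (.one (nat_lit 0x600000900e010c00001201c020411))) (.br (Nat.shiftLeft (nat_lit 0x7) (nat_lit 112)) (.one (nat_lit 0x600700900e010c00e01201c020650)) (.br (Nat.shiftLeft (nat_lit 0x1) (nat_lit 115)) (.one (nat_lit 0x700000900e010e00001201c020411)) (.one (nat_lit 0x800000900e010000001201c122411))))))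
def t197 : k197.all (jb2 57 fl b0) = true := by decide +kernel
noncomputable def k198 : KT := (.br (Nat.shiftLeft (nat_lit 0x1000003) (nat_lit 101)) (.br (Nat.shiftLeft (nat_lit 0x400001) (nat_lit 102)) (.br (Nat.shiftLeft (nat_lit 0xd) (nat_lit 112)) (.br (Nat.shiftLeft (nat_lit 0xb) (nat_lit 112)) (.br (Nat.shiftLeft (nat_lit 0x5) (nat_lit 113)) (.one (nat_lit 0x900000900e010200001201c122411)) (.one (nat_lit 0xa00000900e010400001201c122411))) (.br (Nat.shiftLeft (nat_lit 0x3) (nat_lit 114)) (.one (nat_lit 0xb00000900e010600001201c122411)) (.one (nat_lit 0xc00000900e010800001201c122411)))) (.br (Nat.shiftLeft (nat_lit 0x1) (nat_lit 124)) (.br (Nat.shiftLeft (nat_lit 0x7) (nat_lit 113)) (.one (nat_lit 0xd00000900e010a00001201c122411)) (.one (nat_lit 0xe00000900e010c00001201c122411))) (.br (Nat.shiftLeft (nat_lit 0x1000003) (nat_lit 100)) (.one (nat_lit 0x100000200900e010000401203c420511)) (.one (nat_lit 0x100000300900e010000601203c420511))))) (.br (Nat.shiftLeft (nat_lit 0x1) (nat_lit 125)) (.br (Nat.shiftLeft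 (nat_lit 0x800003) (nat_lit 101)) (.br (Nat.shiftLeft (nat_lit 0x1000005) (nat_lit 100)) (.one (nat_lit 0x100000400900e010000801203c420511)) (.one (nat_lit 0x100000500900e010000a01203c420511))) (.br (Nat.shiftLeft (nat_lit 0x1000007) (nat_lit 100)) (.one (nat_lit 0x100000600900e010000c01203c420511)) (.one (nat_lit 0x100000700900e010000e01203c420511)))) (.br (Nat.shiftLeft (nat_lit 0x800001) (nat_lit 102)) (.br (Nat.shiftLeft (nat_lit 0x2000003) (nat_lit 100)) (.one (nat_lit 0x200000200900e010000401205c820511)) (.one (nat_lit 0x200000300900e010000601205c820511))) (.br (Nat.shiftLeft (nat_lit 0x2000005) (nat_lit 100)) (.one (nat_lit 0x200000400900e010000801205c820511)) (.one (nat_lit 0x200000500900e010000a01205c820511)))))) (.br (Nat.shiftLeft (nat_lit 0x1) (nat_lit 126)) (.br (Nat.shiftLeft (nat_lit 0xc00001) (nat_lit 102)) (.br (Nat.shiftLeft (nat_lit 0x3) (nat_lit 124)) (.br (Nat.shiftLeft (nat_lit 0x2000007) (nat_lit 100)) (.one (nat_lit 0x200000600900e010000c01205c820511)) (.one (nat_lit 0x200000700900e010000e01205c820511)))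 (.br (Nat.shiftLeft (nat_lit 0x3000003) (nat_lit 100)) (.one (nat_lit 0x300000200900e010000401207cc20511)) (.one (nat_lit 0x300000300900e010000601207cc20511)))) (.br (Nat.shiftLeft (nat_lit 0x1800003) (nat_lit 101)) (.br (Nat.shiftLeft (nat_lit 0x3000005) (nat_lit 100)) (.one (nat_lit 0x300000400900e010000801207cc20511)) (.one (nat_lit 0x300000500900e010000a01207cc20511))) (.br (Nat.shiftLeft (nat_lit 0x3000007) (nat_lit 100)) (.one (nat_lit 0x300000600900e010000c01207cc20511)) (.one (nat_lit 0x300000700900e010000e01207cc20511))))) (.br (Nat.shiftLeft (nat_lit 0x2000003) (nat_lit 101)) (.br (Nat.shiftLeft (nat_lit 0x1000001) (nat_lit 102)) (.br (Nat.shiftLeft (nat_lit 0x4000003) (nat_lit 100)) (.one (nat_lit 0x400000200900e010000401209d020511)) (.one (nat_lit 0x400000300900e010000601209d020511))) (.br (Nat.shiftLeft (nat_lit 0x4000005) (nat_lit 100)) (.one (nat_lit 0x400000400900e010000801209d020511)) (.one (nat_lit 0x400000500900e010000a01209d020511)))) (.br (Nat.shiftLeft (nat_lit 0x5) (nat_lit 124)) (.br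 (Nat.shiftLeft (nat_lit 0x4000007) (nat_lit 100)) (.one (nat_lit 0x400000600900e010000c01209d020511)) (.one (nat_lit 0x400000700900e010000e01209d020511))) (.br (Nat.shiftLeft (nat_lit 0x5000003) (nat_lit 100)) (.one (nat_lit 0x500000200900e01000040120bd420511)) (.one (nat_lit 0x500000300900e01000060120bd420511)))))))
def t198 : k198.all (jb2 57 fl b0) = true := by decide +kernel
noncomputable def k199 : KT := (.br (Nat.shiftLeft (nat_lit 0x6000003) (nat_lit 100)) (.br (Nat.shiftLeft (nat_lit 0x2800003) (nat_lit 101)) (.br (Nat.shiftLeft (nat_lit 0x5000005) (nat_lit 100)) (.one (nat_lit 0x500000400900e01000080120bd420511)) (.one (nat_lit 0x500000500900e010000a0120bd420511))) (.br (Nat.shiftLeft (nat_lit 0x5000007) (nat_lit 100)) (.one (nat_lit 0x500000600900e010000c0120bd420511)) (.br (Nat.shiftLeft (nat_lit 0x3) (nat_lit 125)) (.one (nat_lit 0x500000700900e010000e0120bd420511)) (.one (nat_lit 0x600000200900e01000040120dd820511))))) (.br (Nat.shiftLeft (nat_lit 0x3000003) (nat_lit 101)) (.br (Nat.shiftLeft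 (nat_lit 0x1800001) (nat_lit 102)) (.one (nat_lit 0x600000300900e01000060120dd820511)) (.br (Nat.shiftLeft (nat_lit 0x6000005) (nat_lit 100)) (.one (nat_lit 0x600000400900e01000080120dd820511)) (.one (nat_lit 0x600000500900e010000a0120dd820511)))) (.br (Nat.shiftLeft (nat_lit 0x6000007) (nat_lit 100)) (.one (nat_lit 0x600000600900e010000c0120dd820511)) (.br (Nat.shiftLeft (nat_lit 0x7) (nat_lit 124)) (.one (nat_lit 0x600000700900e010000e0120dd820511)) (.one (nat_lit 0x700000200900e01000040120fdc20511))))))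
def t199 : k199.all (jb2 57 fl b0) = true := by decide +kernel
noncomputable def k200 : KT := (.br (Nat.shiftLeft (nat_lit 0x4000003) (nat_lit 101)) (.br (Nat.shiftLeft (nat_lit 0x7000007) (nat_lit 100)) (.br (Nat.shiftLeft (nat_lit 0x7000005) (nat_lit 100)) (.br (Nat.shiftLeft (nat_lit 0x1c00001) (nat_lit 102)) (.one (nat_lit 0x700000300900e01000060120fdc20511)) (.one (nat_lit 0x700000400900e01000080120fdc20511))) (.br (Nat.shiftLeft (nat_lit 0x3800003) (nat_lit 101)) (.one (nat_lit 0x700000500900e010000a0120fdc20511)) (.one (nat_lit 0x700000600900e010000c0120fdc20511)))) (.br (Nat.shiftLeft (nat_lit 0x8000003) (nat_lit 100)) (.br (Nat.shiftLeft (nat_lit 0x1) (nat_lit 127)) (.one (nat_lit 0x700000700900e010000e0120fdc20511)) (.one (nat_lit 0x800000200900e010000401211e020511))) (.br (Nat.shiftLeft (nat_lit 0x2000001) (nat_lit 102)) (.one (nat_lit 0x800000300900e010000601211e020511)) (.br (Nat.shiftLeft (nat_lit 0x8000005) (nat_lit 100)) (.one (nat_lit 0x800000400900e010000801211e020511)) (.one (nat_lit 0x800000500900e010000a01211e020511))))))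 (.br (Nat.shiftLeft (nat_lit 0x9000005) (nat_lit 100)) (.br (Nat.shiftLeft (nat_lit 0x9) (nat_lit 124)) (.br (Nat.shiftLeft (nat_lit 0x8000007) (nat_lit 100)) (.one (nat_lit 0x800000600900e010000c01211e020511)) (.one (nat_lit 0x800000700900e010000e01211e020511))) (.br (Nat.shiftLeft (nat_lit 0x9000003) (nat_lit 100)) (.one (nat_lit 0x900000200900e010000401213e420511)) (.br (Nat.shiftLeft (nat_lit 0x2400001) (nat_lit 102)) (.one (nat_lit 0x900000300900e010000601213e420511)) (.one (nat_lit 0x900000400900e010000801213e420511))))) (.br (Nat.shiftLeft (nat_lit 0x9000007) (nat_lit 100)) (.br (Nat.shiftLeft (nat_lit 0x4800003) (nat_lit 101)) (.one (nat_lit 0x900000500900e010000a01213e420511)) (.one (nat_lit 0x900000600900e010000c01213e420511))) (.br (Nat.shiftLeft (nat_lit 0x5) (nat_lit 125)) (.one (nat_lit 0x900000700900e010000e01213e420511)) (.br (Nat.shiftLeft (nat_lit 0xa000003) (nat_lit 100)) (.one (nat_lit 0xa00000200900e010000401215e820511)) (.one (nat_lit 0xa00000300900e010000601215e820511)))))))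
def t200 : k200.all (jb2 57 fl b0) = true := by decide +kernel
noncomputable def k201 : KT := (.br (Nat.shiftLeft (nat_lit 0xc000003) (nat_lit 100)) (.br (Nat.shiftLeft (nat_lit 0xb000003) (nat_lit 100)) (.br (Nat.shiftLeft (nat_lit 0x5000003) (nat_lit 101)) (.br (Nat.shiftLeft (nat_lit 0xa000005) (nat_lit 100)) (.one (nat_lit 0xa00000400900e010000801215e820511)) (.one (nat_lit 0xa00000500900e010000a01215e820511))) (.br (Nat.shiftLeft (nat_lit 0xa000007) (nat_lit 100)) (.one (nat_lit 0xa00000600900e010000c01215e820511)) (.br (Nat.shiftLeft (nat_lit 0xb) (nat_lit 124)) (.one (nat_lit 0xa00000700900e010000e01215e820511)) (.one (nat_lit 0xb00000200900e010000401217ec20511))))) (.br (Nat.shiftLeft (nat_lit 0x5800003) (nat_lit 101)) (.br (Nat.shiftLeft (nat_lit 0x2c00001) (nat_lit 102)) (.one (nat_lit 0xb00000300900e010000601217ec20511)) (.br (Nat.shiftLeft (nat_lit 0xb000005) (nat_lit 100)) (.one (nat_lit 0xb00000400900e010000801217ec20511)) (.one (nat_lit 0xb00000500900e010000a01217ec20511)))) (.br (Nat.shiftLeft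 (nat_lit 0xb000007) (nat_lit 100)) (.one (nat_lit 0xb00000600900e010000c01217ec20511)) (.br (Nat.shiftLeft (nat_lit 0x3) (nat_lit 126)) (.one (nat_lit 0xb00000700900e010000e01217ec20511)) (.one (nat_lit 0xc00000200900e010000401219f020511)))))) (.br (Nat.shiftLeft (nat_lit 0xd000003) (nat_lit 100)) (.br (Nat.shiftLeft (nat_lit 0xc000005) (nat_lit 100)) (.br (Nat.shiftLeft (nat_lit 0x3000001) (nat_lit 102)) (.one (nat_lit 0xc00000300900e010000601219f020511)) (.one (nat_lit 0xc00000400900e010000801219f020511))) (.br (Nat.shiftLeft (nat_lit 0x6000003) (nat_lit 101)) (.one (nat_lit 0xc00000500900e010000a01219f020511)) (.br (Nat.shiftLeft (nat_lit 0xd) (nat_lit 124)) (.one (nat_lit 0xc00000600900e010000c01219f020511)) (.one (nat_lit 0xd00000200900e01000040121bf420511))))) (.br (Nat.shiftLeft (nat_lit 0x7) (nat_lit 125)) (.br (Nat.shiftLeft (nat_lit 0x3400001) (nat_lit 102)) (.one (nat_lit 0xd00000300900e01000060121bf420511)) (.br (Nat.shiftLeft (nat_lit 0xd000005) (nat_lit 100)) (.one (nat_lit 0xd00000400900e01000080121bf420511))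 (.one (nat_lit 0xd00000500900e010000a0121bf420511)))) (.br (Nat.shiftLeft (nat_lit 0xe000003) (nat_lit 100)) (.one (nat_lit 0xe00000200900e01000040121df820511)) (.br (Nat.shiftLeft (nat_lit 0x3800001) (nat_lit 102)) (.one (nat_lit 0xe00000300900e01000060121df820511)) (.one (nat_lit 0xe00000400900e01000080121df820511)))))))
def t201 : k201.all (jb2 57 fl b0) = true := by decide +kernel
noncomputable def s11 : KT := (.br (nat_lit 0x200500900e010400a01201c020650) (.br (nat_lit 0x100200900e010200401201c020650) (.br (nat_lit 0x700900e010000e01201c021500) k187 (.br (nat_lit 0x100000900e010200001201c020411) k188 k189)) (.br (nat_lit 0x100600900e010200c01201c020650) (.br (nat_lit 0x100300900e010200601201c020650) k190 k191) (.br (nat_lit 0x200300900e010400601201c020650) k192 k193))) (.br (nat_lit 0x800000900e010000001201c122411) (.br (nat_lit 0x300500900e010600a01201c020650) (.br (nat_lit 0x300000900e010600001201c020411) k194 k195) (.br (nat_lit 0x400500900e010800a01201c020650) k196 k197)) (.br (nat_lit 0x700000200900e01000040120fdc20511)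 (.br (nat_lit 0x500000300900e01000060120bd420511) k198 k199) (.br (nat_lit 0xa00000300900e010000601215e820511) k200 k201))))
noncomputable def u11 : KT := (.one (nat_lit 0x900e010000001201c020430))
def w11 : u11.all (wj 57 s11) = true := by decide +kernel
def o11 : OkW 57 (jb2 57 fl) u11 := .lift s11 _ (.br _ _ _ (.br _ _ _ (.br _ _ _ (.leaf b0 k187 t187) (.br _ _ _ (.leaf b0 k188 t188) (.leaf b0 k189 t189))) (.br _ _ _ (.br _ _ _ (.leaf b0 k190 t190) (.leaf b0 k191 t191)) (.br _ _ _ (.leaf b0 k192 t192) (.leaf b0 k193 t193)))) (.br _ _ _ (.br _ _ _ (.br _ _ _ (.leaf b0 k194 t194) (.leaf b0 k195 t195)) (.br _ _ _ (.leaf b0 k196 t196) (.leaf b0 k197 t197))) (.br _ _ _ (.br _ _ _ (.leaf b0 k198 t198) (.leaf b0 k199 t199)) (.br _ _ _ (.leaf b0 k200 t200) (.leaf b0 k201 t201))))) w11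
noncomputable def k202 : KT := (.br (Nat.shiftLeft (nat_lit 0x900e013) (nat_lit 64)) (.br (Nat.shiftLeft (nat_lit 0x4807009) (nat_lit 65)) (.one (nat_lit 0x900e011000001201c023400)) (.one (nat_lit 0x900e012000001201c025400))) (.br (Nat.shiftLeft (nat_lit 0x1) (nat_lit 100)) (.one (nat_lit 0x900e013000001201c027400)) (.one (nat_lit 0x100900e011000201201c022540))))
def t202 : k202.all (jb2 57 fl b0) = true := by decide +kernel
noncomputable def k203 : KT := (.br (Nat.shiftLeft (nat_lit 0x100900e013) (nat_lit 64)) (.one (nat_lit 0x100900e012000201201c024540)) (.br (Nat.shiftLeft (nat_lit 0x1) (nat_lit 101)) (.one (nat_lit 0x100900e013000201201c026540)) (.one (nat_lit 0x200900e011000401201c023500))))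
def t203 : k203.all (jb2 57 fl b0) = true := by decide +kernel
noncomputable def k204 : KT := (.one (nat_lit 0x200900e012000401201c024540))
def t204 : k204.all (jb2 57 fl b0) = true := by decide +kernel
noncomputable def k205 : KT := (.br (Nat.shiftLeft (nat_lit 0x3) (nat_lit 100)) (.one (nat_lit 0x200900e013000401201c026540)) (.br (Nat.shiftLeft (nat_lit 0x1804807009) (nat_lit 65)) (.one (nat_lit 0x300900e011000601201c023500)) (.one (nat_lit 0x300900e012000601201c025500))))
def t205 : k205.all (jb2 57 fl b0) = true := by decide +kernel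
noncomputable def k206 : KT := (.br (Nat.shiftLeft (nat_lit 0x1) (nat_lit 102)) (.one (nat_lit 0x300900e013000601201c026540)) (.br (Nat.shiftLeft (nat_lit 0x2004807009) (nat_lit 65)) (.one (nat_lit 0x400900e011000801201c023500)) (.one (nat_lit 0x400900e012000801201c025500))))
def t206 : k206.all (jb2 57 fl b0) = true := by decide +kernel
noncomputable def k207 : KT := (.br (Nat.shiftLeft (nat_lit 0x5) (nat_lit 100)) (.one (nat_lit 0x400900e013000801201c026540)) (.one (nat_lit 0x500900e011000a01201c023500)))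
def t207 : k207.all (jb2 57 fl b0) = true := by decide +kernel
noncomputable def k208 : KT := (.one (nat_lit 0x500900e012000a01201c024540))
def t208 : k208.all (jb2 57 fl b0) = true := by decide +kernel
noncomputable def k209 : KT := (.br (Nat.shiftLeft (nat_lit 0x3) (nat_lit 101)) (.one (nat_lit 0x500900e013000a01201c026540)) (.one (nat_lit 0x600900e011000c01201c023500)))
def t209 : k209.all (jb2 57 fl b0) = true := by decide +kernel
noncomputable def k210 : KT := (.one (nat_lit 0x600900e012000c01201c024540))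
def t210 : k210.all (jb2 57 fl b0) = true := by decide +kernel
noncomputable def k211 : KT := (.one (nat_lit 0x600900e013000c01201c026540))
def t211 : k211.all (jb2 57 fl b0) = true := by decide +kernel
noncomputable def k212 : KT := (.one (nat_lit 0x700900e011000e01201c022540))
def t212 : k212.all (jb2 57 fl b0) = true := by decide +kernel
noncomputable def k213 : KT := (.br (Nat.shiftLeft (nat_lit 0x700900e013) (nat_lit 64)) (.one (nat_lit 0x700900e012000e01201c024540)) (.one (nat_lit 0x700900e013000e01201c026540)))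
def t213 : k213.all (jb2 57 fl b0) = true := by decide +kernel
noncomputable def k214 : KT := (.br (Nat.shiftLeft (nat_lit 0x4004807009) (nat_lit 65)) (.one (nat_lit 0x800900e011001001201c022540)) (.one (nat_lit 0x800900e012001001201c024540)))
def t214 : k214.all (jb2 57 fl b0) = true := by decide +kernel
noncomputable def k215 : KT := (.br (Nat.shiftLeft (nat_lit 0x800004807009) (nat_lit 65)) (.br (Nat.shiftLeft (nat_lit 0x1) (nat_lit 112)) (.one (nat_lit 0x800900e013001001201c026540)) (.one (nat_lit 0x100000900e011200001201c022411))) (.br (Nat.shiftLeft (nat_lit 0x100000900e013) (nat_lit 64)) (.one (nat_lit 0x100000900e012200001201c024411)) (.br (Nat.shiftLeft (nat_lit 0x801) (nat_lit 101)) (.one (nat_lit 0x100000900e013200001201c026411)) (.one (nat_lit 0x100200900e011200401201c022650)))))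
def t215 : k215.all (jb2 57 fl b0) = true := by decide +kernel
noncomputable def k216 : KT := (.br (Nat.shiftLeft (nat_lit 0x801804807009) (nat_lit 65)) (.one (nat_lit 0x100300900e011200601201c022650)) (.one (nat_lit 0x100300900e012200601201c024650)))
def t216 : k216.all (jb2 57 fl b0) = true := by decide +kernel
noncomputable def k217 : KT := (.br (Nat.shiftLeft (nat_lit 0x803) (nat_lit 101)) (.br (Nat.shiftLeft (nat_lit 0x802004807009) (nat_lit 65)) (.one (nat_lit 0x100400900e011200801201c022650)) (.br (Nat.shiftLeft (nat_lit 0x1005) (nat_lit 100)) (.one (nat_lit 0x100400900e012200801201c024650)) (.one (nat_lit 0x100500900e011200a01201c022650)))) (.br (Nat.shiftLeft (nat_lit 0x1000004807009) (nat_lit 65)) (.br (Nat.shiftLeft (nat_lit 0x1) (nat_lit 113)) (.one (nat_lit 0x100600900e011200c01201c022650)) (.one (nat_lit 0x200000900e011400001201c022411))) (.br (Nat.shiftLeft (nat_lit 0x200000900e013) (nat_lit 64)) (.one (nat_lit 0x200000900e012400001201c024411)) (.one (nat_lit 0x200000900e013400001201c026411)))))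
def t217 : k217.all (jb2 57 fl b0) = true := by decide +kernel
noncomputable def k218 : KT := (.br (Nat.shiftLeft (nat_lit 0x1001804807009) (nat_lit 65)) (.one (nat_lit 0x200300900e011400601201c022650)) (.one (nat_lit 0x200300900e012400601201c024650)))
def t218 : k218.all (jb2 57 fl b0) = true := by decide +kernel
noncomputable def k219 : KT := (.br (Nat.shiftLeft (nat_lit 0x1002004807009) (nat_lit 65)) (.one (nat_lit 0x200400900e011400801201c022650)) (.br (Nat.shiftLeft (nat_lit 0x2005) (nat_lit 100)) (.one (nat_lit 0x200400900e012400801201c024650)) (.one (nat_lit 0x200500900e011400a01201c022650))))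
def t219 : k219.all (jb2 57 fl b0) = true := by decide +kernel
noncomputable def k220 : KT := (.br (Nat.shiftLeft (nat_lit 0x300000900e013) (nat_lit 64)) (.br (Nat.shiftLeft (nat_lit 0x3) (nat_lit 112)) (.one (nat_lit 0x200600900e011400c01201c022650)) (.br (Nat.shiftLeft (nat_lit 0x1800004807009) (nat_lit 65)) (.one (nat_lit 0x300000900e011600001201c022411)) (.one (nat_lit 0x300000900e012600001201c024411)))) (.br (Nat.shiftLeft (nat_lit 0xc01) (nat_lit 102)) (.one (nat_lit 0x300000900e013600001201c026411)) (.br (Nat.shiftLeft (nat_lit 0x1802004807009) (nat_lit 65)) (.one (nat_lit 0x300400900e011600801201c022650)) (.one (nat_lit 0x300400900e012600801201c024650)))))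
def t220 : k220.all (jb2 57 fl b0) = true := by decide +kernel
noncomputable def k221 : KT := (.br (Nat.shiftLeft (nat_lit 0x400000900e013) (nat_lit 64)) (.br (Nat.shiftLeft (nat_lit 0x1) (nat_lit 114)) (.br (Nat.shiftLeft (nat_lit 0x1803) (nat_lit 101)) (.one (nat_lit 0x300500900e011600a01201c022650)) (.one (nat_lit 0x300600900e011600c01201c022650))) (.br (Nat.shiftLeft (nat_lit 0x2000004807009) (nat_lit 65)) (.one (nat_lit 0x400000900e011800001201c022411)) (.one (nat_lit 0x400000900e012800001201c024411)))) (.br (Nat.shiftLeft (nat_lit 0x2003) (nat_lit 101)) (.br (Nat.shiftLeft (nat_lit 0x1001) (nat_lit 102)) (.one (nat_lit 0x400000900e013800001201c026411)) (.one (nat_lit 0x400500900e011800a01201c022650))) (.br (Nat.shiftLeft (nat_lit 0x5) (nat_lit 112)) (.one (nat_lit 0x400600900e011800c01201c022650)) (.br (Nat.shiftLeft (nat_lit 0x2800004807009) (nat_lit 65)) (.one (nat_lit 0x500000900e011a00001201c022411)) (.one (nat_lit 0x500000900e012a00001201c024411))))))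
def t221 : k221.all (jb2 57 fl b0) = true := by decide +kernel
noncomputable def k222 : KT := (.br (Nat.shiftLeft (nat_lit 0x3) (nat_lit 114)) (.br (Nat.shiftLeft (nat_lit 0x800000900e013) (nat_lit 64)) (.br (Nat.shiftLeft (nat_lit 0x7) (nat_lit 112)) (.br (Nat.shiftLeft (nat_lit 0x3) (nat_lit 113)) (.br (Nat.shiftLeft (nat_lit 0x1401) (nat_lit 102)) (.one (nat_lit 0x500000900e013a00001201c026411)) (.one (nat_lit 0x500600900e011a00c01201c022650))) (.br (Nat.shiftLeft (nat_lit 0x3000004807009) (nat_lit 65)) (.one (nat_lit 0x600000900e011c00001201c022411)) (.br (Nat.shiftLeft (nat_lit 0x600000900e013) (nat_lit 64)) (.one (nat_lit 0x600000900e012c00001201c024411)) (.one (nat_lit 0x600000900e013c00001201c026411))))) (.br (Nat.shiftLeft (nat_lit 0x700000900e013) (nat_lit 64)) (.br (Nat.shiftLeft (nat_lit 0x3800004807009) (nat_lit 65)) (.one (nat_lit 0x700000900e011e00001201c022411)) (.one (nat_lit 0x700000900e012e00001201c024411))) (.br (Nat.shiftLeft (nat_lit 0x1) (nat_lit 115)) (.one (nat_lit 0x700000900e013e00001201c026411))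 (.br (Nat.shiftLeft (nat_lit 0x4000004807009) (nat_lit 65)) (.one (nat_lit 0x800000900e011000001201c124411)) (.one (nat_lit 0x800000900e012000001201c126411)))))) (.br (Nat.shiftLeft (nat_lit 0x5000004807009) (nat_lit 65)) (.br (Nat.shiftLeft (nat_lit 0x4800004807009) (nat_lit 65)) (.br (Nat.shiftLeft (nat_lit 0x9) (nat_lit 112)) (.one (nat_lit 0x800000900e013000001201c128411)) (.one (nat_lit 0x900000900e011200001201c124411))) (.br (Nat.shiftLeft (nat_lit 0x900000900e013) (nat_lit 64)) (.one (nat_lit 0x900000900e012200001201c126411)) (.br (Nat.shiftLeft (nat_lit 0x5) (nat_lit 113)) (.one (nat_lit 0x900000900e013200001201c128411)) (.one (nat_lit 0xa00000900e011400001201c124411))))) (.br (Nat.shiftLeft (nat_lit 0xb) (nat_lit 112)) (.br (Nat.shiftLeft (nat_lit 0xa00000900e013) (nat_lit 64)) (.one (nat_lit 0xa00000900e012400001201c126411)) (.one (nat_lit 0xa00000900e013400001201c128411))) (.br (Nat.shiftLeft (nat_lit 0x5800004807009) (nat_lit 65)) (.one (nat_lit 0xb00000900e011600001201c124411)) (.br (Nat.shiftLeft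 (nat_lit 0xb00000900e013) (nat_lit 64)) (.one (nat_lit 0xb00000900e012600001201c126411)) (.one (nat_lit 0xb00000900e013600001201c128411))))))) (.br (Nat.shiftLeft (nat_lit 0x1000003) (nat_lit 100)) (.br (Nat.shiftLeft (nat_lit 0xd00000900e013) (nat_lit 64)) (.br (Nat.shiftLeft (nat_lit 0xc00000900e013) (nat_lit 64)) (.br (Nat.shiftLeft (nat_lit 0x6000004807009) (nat_lit 65)) (.one (nat_lit 0xc00000900e011800001201c124411)) (.one (nat_lit 0xc00000900e012800001201c126411))) (.br (Nat.shiftLeft (nat_lit 0xd) (nat_lit 112)) (.one (nat_lit 0xc00000900e013800001201c128411)) (.br (Nat.shiftLeft (nat_lit 0x6800004807009) (nat_lit 65)) (.one (nat_lit 0xd00000900e011a00001201c124411)) (.one (nat_lit 0xd00000900e012a00001201c126411))))) (.br (Nat.shiftLeft (nat_lit 0x7000004807009) (nat_lit 65)) (.br (Nat.shiftLeft (nat_lit 0x7) (nat_lit 113)) (.one (nat_lit 0xd00000900e013a00001201c128411)) (.one (nat_lit 0xe00000900e011c00001201c124411))) (.br (Nat.shiftLeft (nat_lit 0xe00000900e013) (nat_lit 64)) (.one (nat_lit 0xe00000900e012c00001201c126411))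 (.br (Nat.shiftLeft (nat_lit 0x1) (nat_lit 124)) (.one (nat_lit 0xe00000900e013c00001201c128411)) (.one (nat_lit 0x100000200900e011000401203c422511)))))) (.br (Nat.shiftLeft (nat_lit 0x800003) (nat_lit 101)) (.br (Nat.shiftLeft (nat_lit 0x400001) (nat_lit 102)) (.br (Nat.shiftLeft (nat_lit 0x800001804807009) (nat_lit 65)) (.one (nat_lit 0x100000300900e011000601203c422511)) (.one (nat_lit 0x100000300900e012000601203c424511))) (.br (Nat.shiftLeft (nat_lit 0x800002004807009) (nat_lit 65)) (.one (nat_lit 0x100000400900e011000801203c422511)) (.br (Nat.shiftLeft (nat_lit 0x1000005) (nat_lit 100)) (.one (nat_lit 0x100000400900e012000801203c424511)) (.one (nat_lit 0x100000500900e011000a01203c422511))))) (.br (Nat.shiftLeft (nat_lit 0x2000003) (nat_lit 100)) (.br (Nat.shiftLeft (nat_lit 0x1) (nat_lit 125)) (.one (nat_lit 0x100000600900e011000c01203c422511)) (.one (nat_lit 0x200000200900e011000401205c822511))) (.br (Nat.shiftLeft (nat_lit 0x1000001804807009) (nat_lit 65)) (.one (nat_lit 0x200000300900e011000601205c822511))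 (.br (Nat.shiftLeft (nat_lit 0x800001) (nat_lit 102)) (.one (nat_lit 0x200000300900e012000601205c824511)) (.one (nat_lit 0x200000400900e011000801205c822511))))))))
def t222 : k222.all (jb2 57 fl b0) = true := by decide +kernel
noncomputable def k223 : KT := (.br (Nat.shiftLeft (nat_lit 0x4000003) (nat_lit 100)) (.br (Nat.shiftLeft (nat_lit 0x1800001804807009) (nat_lit 65)) (.br (Nat.shiftLeft (nat_lit 0x1000003) (nat_lit 101)) (.br (Nat.shiftLeft (nat_lit 0x2000005) (nat_lit 100)) (.one (nat_lit 0x200000400900e012000801205c824511)) (.one (nat_lit 0x200000500900e011000a01205c822511))) (.br (Nat.shiftLeft (nat_lit 0x3) (nat_lit 124)) (.one (nat_lit 0x200000600900e011000c01205c822511)) (.br (Nat.shiftLeft (nat_lit 0x3000003) (nat_lit 100)) (.one (nat_lit 0x300000200900e011000401207cc22511)) (.one (nat_lit 0x300000300900e011000601207cc22511))))) (.br (Nat.shiftLeft (nat_lit 0x3000005) (nat_lit 100)) (.br (Nat.shiftLeft (nat_lit 0xc00001) (nat_lit 102)) (.one (nat_lit 0x300000300900e012000601207cc24511)) (.br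 (Nat.shiftLeft (nat_lit 0x1800002004807009) (nat_lit 65)) (.one (nat_lit 0x300000400900e011000801207cc22511)) (.one (nat_lit 0x300000400900e012000801207cc24511)))) (.br (Nat.shiftLeft (nat_lit 0x1800003) (nat_lit 101)) (.one (nat_lit 0x300000500900e011000a01207cc22511)) (.br (Nat.shiftLeft (nat_lit 0x1) (nat_lit 126)) (.one (nat_lit 0x300000600900e011000c01207cc22511)) (.one (nat_lit 0x400000200900e011000401209d022511)))))) (.br (Nat.shiftLeft (nat_lit 0x2000003) (nat_lit 101)) (.br (Nat.shiftLeft (nat_lit 0x1000001) (nat_lit 102)) (.br (Nat.shiftLeft (nat_lit 0x2000001804807009) (nat_lit 65)) (.one (nat_lit 0x400000300900e011000601209d022511)) (.one (nat_lit 0x400000300900e012000601209d024511))) (.br (Nat.shiftLeft (nat_lit 0x2000002004807009) (nat_lit 65)) (.one (nat_lit 0x400000400900e011000801209d022511)) (.br (Nat.shiftLeft (nat_lit 0x4000005) (nat_lit 100)) (.one (nat_lit 0x400000400900e012000801209d024511)) (.one (nat_lit 0x400000500900e011000a01209d022511))))) (.br (Nat.shiftLeft (nat_lit 0x2800001804807009)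 (nat_lit 65)) (.br (Nat.shiftLeft (nat_lit 0x5) (nat_lit 124)) (.one (nat_lit 0x400000600900e011000c01209d022511)) (.br (Nat.shiftLeft (nat_lit 0x5000003) (nat_lit 100)) (.one (nat_lit 0x500000200900e01100040120bd422511)) (.one (nat_lit 0x500000300900e01100060120bd422511)))) (.br (Nat.shiftLeft (nat_lit 0x1400001) (nat_lit 102)) (.one (nat_lit 0x500000300900e01200060120bd424511)) (.br (Nat.shiftLeft (nat_lit 0x2800002004807009) (nat_lit 65)) (.one (nat_lit 0x500000400900e01100080120bd422511)) (.one (nat_lit 0x500000400900e01200080120bd424511)))))))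
def t223 : k223.all (jb2 57 fl b0) = true := by decide +kernel
noncomputable def k224 : KT := (.br (Nat.shiftLeft (nat_lit 0x6000005) (nat_lit 100)) (.br (Nat.shiftLeft (nat_lit 0x6000003) (nat_lit 100)) (.br (Nat.shiftLeft (nat_lit 0x2800003) (nat_lit 101)) (.one (nat_lit 0x500000500900e011000a0120bd422511)) (.br (Nat.shiftLeft (nat_lit 0x3) (nat_lit 125)) (.one (nat_lit 0x500000600900e011000c0120bd422511)) (.one (nat_lit 0x600000200900e01100040120dd822511)))) (.br (Nat.shiftLeft (nat_lit 0x1800001) (nat_lit 102)) (.br (Nat.shiftLeft (nat_lit 0x3000001804807009) (nat_lit 65)) (.one (nat_lit 0x600000300900e01100060120dd822511)) (.one (nat_lit 0x600000300900e01200060120dd824511))) (.br (Nat.shiftLeft (nat_lit 0x3000002004807009) (nat_lit 65)) (.one (nat_lit 0x600000400900e01100080120dd822511)) (.one (nat_lit 0x600000400900e01200080120dd824511))))) (.br (Nat.shiftLeft (nat_lit 0x7000003) (nat_lit 100)) (.br (Nat.shiftLeft (nat_lit 0x3000003) (nat_lit 101)) (.one (nat_lit 0x600000500900e011000a0120dd822511))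 (.br (Nat.shiftLeft (nat_lit 0x7) (nat_lit 124)) (.one (nat_lit 0x600000600900e011000c0120dd822511)) (.one (nat_lit 0x700000200900e01100040120fdc22511)))) (.br (Nat.shiftLeft (nat_lit 0x1c00001) (nat_lit 102)) (.br (Nat.shiftLeft (nat_lit 0x3800001804807009) (nat_lit 65)) (.one (nat_lit 0x700000300900e01100060120fdc22511)) (.one (nat_lit 0x700000300900e01200060120fdc24511))) (.br (Nat.shiftLeft (nat_lit 0x3800002004807009) (nat_lit 65)) (.one (nat_lit 0x700000400900e01100080120fdc22511)) (.one (nat_lit 0x700000400900e01200080120fdc24511))))))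
def t224 : k224.all (jb2 57 fl b0) = true := by decide +kernel
noncomputable def k225 : KT := (.br (Nat.shiftLeft (nat_lit 0x5000002004807009) (nat_lit 65)) (.br (Nat.shiftLeft (nat_lit 0x9000003) (nat_lit 100)) (.br (Nat.shiftLeft (nat_lit 0x2000001) (nat_lit 102)) (.br (Nat.shiftLeft (nat_lit 0x1) (nat_lit 127)) (.br (Nat.shiftLeft (nat_lit 0x3800003) (nat_lit 101)) (.one (nat_lit 0x700000500900e011000a0120fdc22511)) (.one (nat_lit 0x700000600900e011000c0120fdc22511))) (.br (Nat.shiftLeft (nat_lit 0x8000003) (nat_lit 100)) (.one (nat_lit 0x800000200900e011000401211e022511)) (.br (Nat.shiftLeft (nat_lit 0x4000001804807009) (nat_lit 65)) (.one (nat_lit 0x800000300900e011000601211e022511)) (.one (nat_lit 0x800000300900e012000601211e024511))))) (.br (Nat.shiftLeft (nat_lit 0x8000005) (nat_lit 100)) (.br (Nat.shiftLeft (nat_lit 0x4000002004807009) (nat_lit 65)) (.one (nat_lit 0x800000400900e011000801211e022511)) (.one (nat_lit 0x800000400900e012000801211e024511))) (.br (Nat.shiftLeft (nat_lit 0x4000003) (nat_lit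 101)) (.one (nat_lit 0x800000500900e011000a01211e022511)) (.br (Nat.shiftLeft (nat_lit 0x9) (nat_lit 124)) (.one (nat_lit 0x800000600900e011000c01211e022511)) (.one (nat_lit 0x900000200900e011000401213e422511)))))) (.br (Nat.shiftLeft (nat_lit 0x4800003) (nat_lit 101)) (.br (Nat.shiftLeft (nat_lit 0x2400001) (nat_lit 102)) (.br (Nat.shiftLeft (nat_lit 0x4800001804807009) (nat_lit 65)) (.one (nat_lit 0x900000300900e011000601213e422511)) (.one (nat_lit 0x900000300900e012000601213e424511))) (.br (Nat.shiftLeft (nat_lit 0x4800002004807009) (nat_lit 65)) (.one (nat_lit 0x900000400900e011000801213e422511)) (.br (Nat.shiftLeft (nat_lit 0x9000005) (nat_lit 100)) (.one (nat_lit 0x900000400900e012000801213e424511)) (.one (nat_lit 0x900000500900e011000a01213e422511))))) (.br (Nat.shiftLeft (nat_lit 0xa000003) (nat_lit 100)) (.br (Nat.shiftLeft (nat_lit 0x5) (nat_lit 125)) (.one (nat_lit 0x900000600900e011000c01213e422511)) (.one (nat_lit 0xa00000200900e011000401215e822511))) (.br (Nat.shiftLeft (nat_lit 0x5000001804807009)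 (nat_lit 65)) (.one (nat_lit 0xa00000300900e011000601215e822511)) (.br (Nat.shiftLeft (nat_lit 0x2800001) (nat_lit 102)) (.one (nat_lit 0xa00000300900e012000601215e824511)) (.one (nat_lit 0xa00000400900e011000801215e822511))))))) (.br (Nat.shiftLeft (nat_lit 0x3) (nat_lit 126)) (.br (Nat.shiftLeft (nat_lit 0x5800001804807009) (nat_lit 65)) (.br (Nat.shiftLeft (nat_lit 0x5000003) (nat_lit 101)) (.br (Nat.shiftLeft (nat_lit 0xa000005) (nat_lit 100)) (.one (nat_lit 0xa00000400900e012000801215e824511)) (.one (nat_lit 0xa00000500900e011000a01215e822511))) (.br (Nat.shiftLeft (nat_lit 0xb) (nat_lit 124)) (.one (nat_lit 0xa00000600900e011000c01215e822511)) (.br (Nat.shiftLeft (nat_lit 0xb000003) (nat_lit 100)) (.one (nat_lit 0xb00000200900e011000401217ec22511)) (.one (nat_lit 0xb00000300900e011000601217ec22511))))) (.br (Nat.shiftLeft (nat_lit 0x5800002004807009) (nat_lit 65)) (.br (Nat.shiftLeft (nat_lit 0x2c00001) (nat_lit 102)) (.one (nat_lit 0xb00000300900e012000601217ec24511)) (.one (nat_lit 0xb00000400900e011000801217ec22511)))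 (.br (Nat.shiftLeft (nat_lit 0xb000005) (nat_lit 100)) (.one (nat_lit 0xb00000400900e012000801217ec24511)) (.br (Nat.shiftLeft (nat_lit 0x5800003) (nat_lit 101)) (.one (nat_lit 0xb00000500900e011000a01217ec22511)) (.one (nat_lit 0xb00000600900e011000c01217ec22511)))))) (.br (Nat.shiftLeft (nat_lit 0xc000005) (nat_lit 100)) (.br (Nat.shiftLeft (nat_lit 0x6000001804807009) (nat_lit 65)) (.br (Nat.shiftLeft (nat_lit 0xc000003) (nat_lit 100)) (.one (nat_lit 0xc00000200900e011000401219f022511)) (.one (nat_lit 0xc00000300900e011000601219f022511))) (.br (Nat.shiftLeft (nat_lit 0x3000001) (nat_lit 102)) (.one (nat_lit 0xc00000300900e012000601219f024511)) (.br (Nat.shiftLeft (nat_lit 0x6000002004807009) (nat_lit 65)) (.one (nat_lit 0xc00000400900e011000801219f022511)) (.one (nat_lit 0xc00000400900e012000801219f024511))))) (.br (Nat.shiftLeft (nat_lit 0xd000003) (nat_lit 100)) (.br (Nat.shiftLeft (nat_lit 0xd) (nat_lit 124)) (.one (nat_lit 0xc00000500900e011000a01219f022511)) (.one (nat_lit 0xd00000200900e01100040121bf422511)))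 (.br (Nat.shiftLeft (nat_lit 0x6800001804807009) (nat_lit 65)) (.one (nat_lit 0xd00000300900e01100060121bf422511)) (.br (Nat.shiftLeft (nat_lit 0x3400001) (nat_lit 102)) (.one (nat_lit 0xd00000300900e01200060121bf424511)) (.one (nat_lit 0xd00000400900e01100080121bf422511))))))))
def t225 : k225.all (jb2 57 fl b0) = true := by decide +kernel
noncomputable def k226 : KT := (.br (Nat.shiftLeft (nat_lit 0xe000003) (nat_lit 100)) (.one (nat_lit 0xe00000200900e01100040121df822511)) (.one (nat_lit 0xe00000300900e01100060121df822511)))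
def t226 : k226.all (jb2 57 fl b0) = true := by decide +kernel
noncomputable def s12 : KT := (.br (nat_lit 0x700900e013000e01201c026540) (.br (nat_lit 0x500900e011000a01201c023500) (.br (nat_lit 0x200900e012000401201c024540) (.br (nat_lit 0x100900e011000201201c022540) k202 (.br (nat_lit 0x200900e011000401201c023500) k203 k204)) (.br (nat_lit 0x300900e012000601201c025500) k205 (.br (nat_lit 0x400900e012000801201c025500) k206 k207))) (.br (nat_lit 0x600900e012000c01201c024540) (.br (nat_lit 0x500900e012000a01201c024540) k208 (.br (nat_lit 0x600900e011000c01201c023500) k209 k210)) (.br (nat_lit 0x600900e013000c01201c026540) k211 (.br (nat_lit 0x700900e011000e01201c022540) k212 k213)))) (.br (nat_lit 0x200500900e011400a01201c022650) (.br (nat_lit 0x100300900e012200601201c024650) (.br (nat_lit 0x800900e012001001201c024540) k214 (.br (nat_lit 0x100200900e011200401201c022650) k215 k216)) (.br (nat_lit 0x200000900e013400001201c026411) k217 (.br (nat_lit 0x200300900e012400601201c024650) k218 k219))) (.br (nat_lit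 0x200000400900e011000801205c822511) (.br (nat_lit 0x300400900e012600801201c024650) k220 (.br (nat_lit 0x500000900e012a00001201c024411) k221 k222)) (.br (nat_lit 0x700000400900e01200080120fdc24511) (.br (nat_lit 0x500000400900e01200080120bd424511) k223 k224) (.br (nat_lit 0xd00000400900e01100080121bf422511) k225 k226)))))
noncomputable def u12 : KT := (.br (Nat.shiftLeft (nat_lit 0x4807009) (nat_lit 65)) (.one (nat_lit 0x900e011000001201c022430)) (.br (Nat.shiftLeft (nat_lit 0x900e013) (nat_lit 64)) (.one (nat_lit 0x900e012000001201c024430)) (.one (nat_lit 0x900e013000001201c026430))))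
def w12 : u12.all (wj 57 s12) = true := by decide +kernel
def o12 : OkW 57 (jb2 57 fl) u12 := .lift s12 _ (.br _ _ _ (.br _ _ _ (.br _ _ _ (.br _ _ _ (.leaf b0 k202 t202) (.br _ _ _ (.leaf b0 k203 t203) (.leaf b0 k204 t204))) (.br _ _ _ (.leaf b0 k205 t205) (.br _ _ _ (.leaf b0 k206 t206) (.leaf b0 k207 t207)))) (.br _ _ _ (.br _ _ _ (.leaf b0 k208 t208) (.br _ _ _ (.leaf b0 k209 t209) (.leaf b0 k210 t210))) (.br _ _ _ (.leaf b0 k211 t211) (.br _ _ _ (.leaf b0 k212 t212) (.leaf b0 k213 t213))))) (.br _ _ _ (.br _ _ _ (.br _ _ _ (.leaf b0 k214 t214) (.br _ _ _ (.leaf b0 k215 t215) (.leaf b0 k216 t216))) (.br _ _ _ (.leaf b0 k217 t217) (.br _ _ _ (.leaf b0 k218 t218) (.leaf b0 k219 t219)))) (.br _ _ _ (.br _ _ _ (.leaf b0 k220 t220) (.br _ _ _ (.leaf b0 k221 t221) (.leaf b0 k222 t222))) (.br _ _ _ (.br _ _ _ (.leaf b0 k223 t223) (.leaf b0 k224 t224)) (.br _ _ _ (.leaf b0 k225 t225) (.leaf b0 k226 t226)))))) w12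
noncomputable def k227 : KT := (.br (Nat.shiftLeft (nat_lit 0x900f) (nat_lit 76)) (.br (Nat.shiftLeft (nat_lit 0x900e015) (nat_lit 64)) (.one (nat_lit 0x900e014000001201c029400)) (.br (Nat.shiftLeft (nat_lit 0x480700b) (nat_lit 65)) (.one (nat_lit 0x900e015000001201c02b400)) (.one (nat_lit 0x900e016000001201c02d400)))) (.br (Nat.shiftLeft (nat_lit 0x100900e015) (nat_lit 64)) (.br (Nat.shiftLeft (nat_lit 0x1) (nat_lit 100)) (.one (nat_lit 0x900f010000001201e021400)) (.one (nat_lit 0x100900e014000201201c028540))) (.br (Nat.shiftLeft (nat_lit 0x80480700b) (nat_lit 65)) (.one (nat_lit 0x100900e015000201201c02a540)) (.one (nat_lit 0x100900e016000201201c02c540)))))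
def t227 : k227.all (jb2 57 fl b0) = true := by decide +kernel
noncomputable def k228 : KT := (.one (nat_lit 0x100900f010000201201e020540))
def t228 : k228.all (jb2 57 fl b0) = true := by decide +kernel
noncomputable def k229 : KT := (.br (Nat.shiftLeft (nat_lit 0x200900e015) (nat_lit 64)) (.one (nat_lit 0x200900e014000401201c028540)) (.one (nat_lit 0x200900e015000401201c02a540)))
def t229 : k229.all (jb2 57 fl b0) = true := by decide +kernel
noncomputable def k230 : KT := (.br (Nat.shiftLeft (nat_lit 0x200900f) (nat_lit 76)) (.one (nat_lit 0x200900e016000401201c02c540)) (.br (Nat.shiftLeft (nat_lit 0x3) (nat_lit 100)) (.one (nat_lit 0x200900f010000401201e021500)) (.one (nat_lit 0x300900e014000601201c028540))))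
def t230 : k230.all (jb2 57 fl b0) = true := by decide +kernel
noncomputable def k231 : KT := (.br (Nat.shiftLeft (nat_lit 0x180480700b) (nat_lit 65)) (.one (nat_lit 0x300900e015000601201c02a540)) (.br (Nat.shiftLeft (nat_lit 0x300900f) (nat_lit 76)) (.one (nat_lit 0x300900e016000601201c02c540)) (.one (nat_lit 0x300900f010000601201e021500))))
def t231 : k231.all (jb2 57 fl b0) = true := by decide +kernel
noncomputable def k232 : KT := (.br (Nat.shiftLeft (nat_lit 0x400900e015) (nat_lit 64)) (.one (nat_lit 0x400900e014000801201c028540)) (.one (nat_lit 0x400900e015000801201c02a540)))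
def t232 : k232.all (jb2 57 fl b0) = true := by decide +kernel
noncomputable def k233 : KT := (.br (Nat.shiftLeft (nat_lit 0x5) (nat_lit 100)) (.br (Nat.shiftLeft (nat_lit 0x400900f) (nat_lit 76)) (.one (nat_lit 0x400900e016000801201c02c540)) (.one (nat_lit 0x400900f010000801201e021500))) (.br (Nat.shiftLeft (nat_lit 0x500900e015) (nat_lit 64)) (.one (nat_lit 0x500900e014000a01201c028540)) (.one (nat_lit 0x500900e015000a01201c02a540))))
def t233 : k233.all (jb2 57 fl b0) = true := by decide +kernel
noncomputable def k234 : KT := (.br (Nat.shiftLeft (nat_lit 0x600900e015) (nat_lit 64)) (.br (Nat.shiftLeft (nat_lit 0x500900f) (nat_lit 76)) (.one (nat_lit 0x500900e016000a01201c02c540)) (.br (Nat.shiftLeft (nat_lit 0x3) (nat_lit 101)) (.one (nat_lit 0x500900f010000a01201e021500)) (.one (nat_lit 0x600900e014000c01201c028540)))) (.br (Nat.shiftLeft (nat_lit 0x300480700b) (nat_lit 65)) (.one (nat_lit 0x600900e015000c01201c02a540)) (.br (Nat.shiftLeft (nat_lit 0x600900f) (nat_lit 76)) (.one (nat_lit 0x600900e016000c01201c02c540))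 (.one (nat_lit 0x600900f010000c01201e021500)))))
def t234 : k234.all (jb2 57 fl b0) = true := by decide +kernel
noncomputable def k235 : KT := (.br (Nat.shiftLeft (nat_lit 0x700900e015) (nat_lit 64)) (.one (nat_lit 0x700900e014000e01201c028540)) (.br (Nat.shiftLeft (nat_lit 0x380480700b) (nat_lit 65)) (.one (nat_lit 0x700900e015000e01201c02a540)) (.one (nat_lit 0x700900e016000e01201c02c540))))
def t235 : k235.all (jb2 57 fl b0) = true := by decide +kernel
noncomputable def k236 : KT := (.br (Nat.shiftLeft (nat_lit 0x800900e015) (nat_lit 64)) (.br (Nat.shiftLeft (nat_lit 0x1) (nat_lit 103)) (.one (nat_lit 0x700900f010000e01201e020540)) (.one (nat_lit 0x800900e014001001201c028540))) (.br (Nat.shiftLeft (nat_lit 0x400480700b) (nat_lit 65)) (.one (nat_lit 0x800900e015001001201c02a540)) (.one (nat_lit 0x800900e016001001201c02c540))))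
def t236 : k236.all (jb2 57 fl b0) = true := by decide +kernel
noncomputable def k237 : KT := (.br (Nat.shiftLeft (nat_lit 0x100000900e015) (nat_lit 64)) (.br (Nat.shiftLeft (nat_lit 0x1) (nat_lit 112)) (.one (nat_lit 0x800900f010001001201e020540)) (.one (nat_lit 0x100000900e014200001201c028411))) (.br (Nat.shiftLeft (nat_lit 0x80000480700b) (nat_lit 65)) (.one (nat_lit 0x100000900e015200001201c02a411)) (.br (Nat.shiftLeft (nat_lit 0x100000900f) (nat_lit 76)) (.one (nat_lit 0x100000900e016200001201c02c411)) (.one (nat_lit 0x100000900f010200001201e020411)))))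
def t237 : k237.all (jb2 57 fl b0) = true := by decide +kernel
noncomputable def k238 : KT := (.br (Nat.shiftLeft (nat_lit 0x1003) (nat_lit 100)) (.one (nat_lit 0x100200900f010200401201e020650)) (.one (nat_lit 0x100300900f010200601201e020650)))
def t238 : k238.all (jb2 57 fl b0) = true := by decide +kernel
noncomputable def k239 : KT := (.br (Nat.shiftLeft (nat_lit 0x1) (nat_lit 113)) (.br (Nat.shiftLeft (nat_lit 0x1005) (nat_lit 100)) (.one (nat_lit 0x100400900f010200801201e020650)) (.br (Nat.shiftLeft (nat_lit 0x803) (nat_lit 101)) (.one (nat_lit 0x100500900f010200a01201e020650)) (.one (nat_lit 0x100600900f010200c01201e020650)))) (.br (Nat.shiftLeft (nat_lit 0x100000480700b) (nat_lit 65)) (.br (Nat.shiftLeft (nat_lit 0x200000900e015) (nat_lit 64)) (.one (nat_lit 0x200000900e014400001201c028411)) (.one (nat_lit 0x200000900e015400001201c02a411))) (.br (Nat.shiftLeft (nat_lit 0x200000900f) (nat_lit 76)) (.one (nat_lit 0x200000900e016400001201c02c411)) (.one (nat_lit 0x200000900f010400001201e020411)))))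
def t239 : k239.all (jb2 57 fl b0) = true := by decide +kernel
noncomputable def k240 : KT := (.br (Nat.shiftLeft (nat_lit 0x801) (nat_lit 102)) (.one (nat_lit 0x200300900f010400601201e020650)) (.one (nat_lit 0x200400900f010400801201e020650)))
def t240 : k240.all (jb2 57 fl b0) = true := by decide +kernel
noncomputable def k241 : KT := (.br (Nat.shiftLeft (nat_lit 0x300000900e015) (nat_lit 64)) (.br (Nat.shiftLeft (nat_lit 0x1003) (nat_lit 101)) (.one (nat_lit 0x200500900f010400a01201e020650)) (.br (Nat.shiftLeft (nat_lit 0x3) (nat_lit 112)) (.one (nat_lit 0x200600900f010400c01201e020650)) (.one (nat_lit 0x300000900e014600001201c028411)))) (.br (Nat.shiftLeft (nat_lit 0x300000900f) (nat_lit 76)) (.br (Nat.shiftLeft (nat_lit 0x180000480700b) (nat_lit 65)) (.one (nat_lit 0x300000900e015600001201c02a411)) (.one (nat_lit 0x300000900e016600001201c02c411))) (.br (Nat.shiftLeft (nat_lit 0xc01) (nat_lit 102)) (.one (nat_lit 0x300000900f010600001201e020411)) (.one (nat_lit 0x300400900f010600801201e020650)))))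
def t241 : k241.all (jb2 57 fl b0) = true := by decide +kernel
noncomputable def k242 : KT := (.br (Nat.shiftLeft (nat_lit 0x200000480700b) (nat_lit 65)) (.br (Nat.shiftLeft (nat_lit 0x1) (nat_lit 114)) (.br (Nat.shiftLeft (nat_lit 0x1803) (nat_lit 101)) (.one (nat_lit 0x300500900f010600a01201e020650)) (.one (nat_lit 0x300600900f010600c01201e020650))) (.br (Nat.shiftLeft (nat_lit 0x400000900e015) (nat_lit 64)) (.one (nat_lit 0x400000900e014800001201c028411)) (.one (nat_lit 0x400000900e015800001201c02a411)))) (.br (Nat.shiftLeft (nat_lit 0x1001) (nat_lit 102)) (.br (Nat.shiftLeft (nat_lit 0x400000900f) (nat_lit 76)) (.one (nat_lit 0x400000900e016800001201c02c411)) (.one (nat_lit 0x400000900f010800001201e020411))) (.br (Nat.shiftLeft (nat_lit 0x2003) (nat_lit 101)) (.one (nat_lit 0x400500900f010800a01201e020650)) (.br (Nat.shiftLeft (nat_lit 0x5) (nat_lit 112)) (.one (nat_lit 0x400600900f010800c01201e020650)) (.one (nat_lit 0x500000900e014a00001201c028411))))))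
def t242 : k242.all (jb2 57 fl b0) = true := by decide +kernel
noncomputable def k243 : KT := (.br (Nat.shiftLeft (nat_lit 0x5) (nat_lit 113)) (.br (Nat.shiftLeft (nat_lit 0x380000480700b) (nat_lit 65)) (.br (Nat.shiftLeft (nat_lit 0x600000900e015) (nat_lit 64)) (.br (Nat.shiftLeft (nat_lit 0x500000900f) (nat_lit 76)) (.br (Nat.shiftLeft (nat_lit 0x280000480700b) (nat_lit 65)) (.one (nat_lit 0x500000900e015a00001201c02a411)) (.one (nat_lit 0x500000900e016a00001201c02c411))) (.br (Nat.shiftLeft (nat_lit 0x1401) (nat_lit 102)) (.one (nat_lit 0x500000900f010a00001201e020411)) (.br (Nat.shiftLeft (nat_lit 0x3) (nat_lit 113)) (.one (nat_lit 0x500600900f010a00c01201e020650)) (.one (nat_lit 0x600000900e014c00001201c028411))))) (.br (Nat.shiftLeft (nat_lit 0x600000900f) (nat_lit 76)) (.br (Nat.shiftLeft (nat_lit 0x300000480700b) (nat_lit 65)) (.one (nat_lit 0x600000900e015c00001201c02a411)) (.one (nat_lit 0x600000900e016c00001201c02c411))) (.br (Nat.shiftLeft (nat_lit 0x7) (nat_lit 112)) (.one (nat_lit 0x600000900f010c00001201e020411))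 (.br (Nat.shiftLeft (nat_lit 0x700000900e015) (nat_lit 64)) (.one (nat_lit 0x700000900e014e00001201c028411)) (.one (nat_lit 0x700000900e015e00001201c02a411)))))) (.br (Nat.shiftLeft (nat_lit 0x800000900f) (nat_lit 76)) (.br (Nat.shiftLeft (nat_lit 0x1) (nat_lit 115)) (.br (Nat.shiftLeft (nat_lit 0x700000900f) (nat_lit 76)) (.one (nat_lit 0x700000900e016e00001201c02c411)) (.one (nat_lit 0x700000900f010e00001201e020411))) (.br (Nat.shiftLeft (nat_lit 0x800000900e015) (nat_lit 64)) (.one (nat_lit 0x800000900e014000001201c12a411)) (.br (Nat.shiftLeft (nat_lit 0x400000480700b) (nat_lit 65)) (.one (nat_lit 0x800000900e015000001201c12c411)) (.one (nat_lit 0x800000900e016000001201c12e411))))) (.br (Nat.shiftLeft (nat_lit 0x900000900e015) (nat_lit 64)) (.br (Nat.shiftLeft (nat_lit 0x9) (nat_lit 112)) (.one (nat_lit 0x800000900f010000001201e122411)) (.one (nat_lit 0x900000900e014200001201c12a411))) (.br (Nat.shiftLeft (nat_lit 0x480000480700b) (nat_lit 65)) (.one (nat_lit 0x900000900e015200001201c12c411)) (.br (Nat.shiftLeft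 (nat_lit 0x900000900f) (nat_lit 76)) (.one (nat_lit 0x900000900e016200001201c12e411)) (.one (nat_lit 0x900000900f010200001201e122411))))))) (.br (Nat.shiftLeft (nat_lit 0x600000480700b) (nat_lit 65)) (.br (Nat.shiftLeft (nat_lit 0xb00000900e015) (nat_lit 64)) (.br (Nat.shiftLeft (nat_lit 0x500000480700b) (nat_lit 65)) (.br (Nat.shiftLeft (nat_lit 0xa00000900e015) (nat_lit 64)) (.one (nat_lit 0xa00000900e014400001201c12a411)) (.one (nat_lit 0xa00000900e015400001201c12c411))) (.br (Nat.shiftLeft (nat_lit 0xa00000900f) (nat_lit 76)) (.one (nat_lit 0xa00000900e016400001201c12e411)) (.br (Nat.shiftLeft (nat_lit 0xb) (nat_lit 112)) (.one (nat_lit 0xa00000900f010400001201e122411)) (.one (nat_lit 0xb00000900e014600001201c12a411))))) (.br (Nat.shiftLeft (nat_lit 0xb00000900f) (nat_lit 76)) (.br (Nat.shiftLeft (nat_lit 0x580000480700b) (nat_lit 65)) (.one (nat_lit 0xb00000900e015600001201c12c411)) (.one (nat_lit 0xb00000900e016600001201c12e411))) (.br (Nat.shiftLeft (nat_lit 0x3) (nat_lit 114)) (.one (nat_lit 0xb00000900f010600001201e122411))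 (.br (Nat.shiftLeft (nat_lit 0xc00000900e015) (nat_lit 64)) (.one (nat_lit 0xc00000900e014800001201c12a411)) (.one (nat_lit 0xc00000900e015800001201c12c411)))))) (.br (Nat.shiftLeft (nat_lit 0x7) (nat_lit 113)) (.br (Nat.shiftLeft (nat_lit 0xd) (nat_lit 112)) (.br (Nat.shiftLeft (nat_lit 0xc00000900f) (nat_lit 76)) (.one (nat_lit 0xc00000900e016800001201c12e411)) (.one (nat_lit 0xc00000900f010800001201e122411))) (.br (Nat.shiftLeft (nat_lit 0xd00000900e015) (nat_lit 64)) (.one (nat_lit 0xd00000900e014a00001201c12a411)) (.br (Nat.shiftLeft (nat_lit 0xd00000900f) (nat_lit 76)) (.one (nat_lit 0xd00000900e015a00001201c12c411)) (.one (nat_lit 0xd00000900f010a00001201e122411))))) (.br (Nat.shiftLeft (nat_lit 0xf) (nat_lit 112)) (.br (Nat.shiftLeft (nat_lit 0xe00000900f) (nat_lit 76)) (.one (nat_lit 0xe00000900e014c00001201c12a411)) (.one (nat_lit 0xe00000900f010c00001201e122411))) (.br (Nat.shiftLeft (nat_lit 0x1) (nat_lit 124)) (.one (nat_lit 0xf00000900f010e00001201e122411)) (.br (Nat.shiftLeft (nat_lit 0x1000003)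 (nat_lit 100)) (.one (nat_lit 0x100000200900f010000401203e420511)) (.one (nat_lit 0x100000300900f010000601203e420511))))))))
def t243 : k243.all (jb2 57 fl b0) = true := by decide +kernel
noncomputable def k244 : KT := (.br (Nat.shiftLeft (nat_lit 0x1800003) (nat_lit 101)) (.br (Nat.shiftLeft (nat_lit 0x2000005) (nat_lit 100)) (.br (Nat.shiftLeft (nat_lit 0x1) (nat_lit 125)) (.br (Nat.shiftLeft (nat_lit 0x1000005) (nat_lit 100)) (.one (nat_lit 0x100000400900f010000801203e420511)) (.br (Nat.shiftLeft (nat_lit 0x800003) (nat_lit 101)) (.one (nat_lit 0x100000500900f010000a01203e420511)) (.one (nat_lit 0x100000600900f010000c01203e420511)))) (.br (Nat.shiftLeft (nat_lit 0x2000003) (nat_lit 100)) (.one (nat_lit 0x200000200900f010000401205e820511)) (.br (Nat.shiftLeft (nat_lit 0x800001) (nat_lit 102)) (.one (nat_lit 0x200000300900f010000601205e820511)) (.one (nat_lit 0x200000400900f010000801205e820511))))) (.br (Nat.shiftLeft (nat_lit 0x3000003) (nat_lit 100)) (.br (Nat.shiftLeft (nat_lit 0x1000003) (nat_lit 101))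 (.one (nat_lit 0x200000500900f010000a01205e820511)) (.br (Nat.shiftLeft (nat_lit 0x3) (nat_lit 124)) (.one (nat_lit 0x200000600900f010000c01205e820511)) (.one (nat_lit 0x300000200900f010000401207ec20511)))) (.br (Nat.shiftLeft (nat_lit 0xc00001) (nat_lit 102)) (.one (nat_lit 0x300000300900f010000601207ec20511)) (.br (Nat.shiftLeft (nat_lit 0x3000005) (nat_lit 100)) (.one (nat_lit 0x300000400900f010000801207ec20511)) (.one (nat_lit 0x300000500900f010000a01207ec20511)))))) (.br (Nat.shiftLeft (nat_lit 0x5) (nat_lit 124)) (.br (Nat.shiftLeft (nat_lit 0x1000001) (nat_lit 102)) (.br (Nat.shiftLeft (nat_lit 0x1) (nat_lit 126)) (.one (nat_lit 0x300000600900f010000c01207ec20511)) (.br (Nat.shiftLeft (nat_lit 0x4000003) (nat_lit 100)) (.one (nat_lit 0x400000200900f010000401209f020511)) (.one (nat_lit 0x400000300900f010000601209f020511)))) (.br (Nat.shiftLeft (nat_lit 0x4000005) (nat_lit 100)) (.one (nat_lit 0x400000400900f010000801209f020511)) (.br (Nat.shiftLeft (nat_lit 0x2000003) (nat_lit 101)) (.one (nat_lit 0x400000500900f010000a01209f020511))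 (.one (nat_lit 0x400000600900f010000c01209f020511))))) (.br (Nat.shiftLeft (nat_lit 0x5000005) (nat_lit 100)) (.br (Nat.shiftLeft (nat_lit 0x5000003) (nat_lit 100)) (.one (nat_lit 0x500000200900f01000040120bf420511)) (.br (Nat.shiftLeft (nat_lit 0x1400001) (nat_lit 102)) (.one (nat_lit 0x500000300900f01000060120bf420511)) (.one (nat_lit 0x500000400900f01000080120bf420511)))) (.br (Nat.shiftLeft (nat_lit 0x2800003) (nat_lit 101)) (.one (nat_lit 0x500000500900f010000a0120bf420511)) (.br (Nat.shiftLeft (nat_lit 0x3) (nat_lit 125)) (.one (nat_lit 0x500000600900f010000c0120bf420511)) (.one (nat_lit 0x600000200900f01000040120df820511)))))))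
def t244 : k244.all (jb2 57 fl b0) = true := by decide +kernel
noncomputable def k245 : KT := (.br (Nat.shiftLeft (nat_lit 0x8000003) (nat_lit 100)) (.br (Nat.shiftLeft (nat_lit 0x7000003) (nat_lit 100)) (.br (Nat.shiftLeft (nat_lit 0x6000005) (nat_lit 100)) (.br (Nat.shiftLeft (nat_lit 0x1800001) (nat_lit 102)) (.one (nat_lit 0x600000300900f01000060120df820511)) (.one (nat_lit 0x600000400900f01000080120df820511))) (.br (Nat.shiftLeft (nat_lit 0x3000003) (nat_lit 101)) (.one (nat_lit 0x600000500900f010000a0120df820511)) (.br (Nat.shiftLeft (nat_lit 0x7) (nat_lit 124)) (.one (nat_lit 0x600000600900f010000c0120df820511)) (.one (nat_lit 0x700000200900f01000040120ffc20511))))) (.br (Nat.shiftLeft (nat_lit 0x7000005) (nat_lit 100)) (.br (Nat.shiftLeft (nat_lit 0x1c00001) (nat_lit 102)) (.one (nat_lit 0x700000300900f01000060120ffc20511)) (.one (nat_lit 0x700000400900f01000080120ffc20511))) (.br (Nat.shiftLeft (nat_lit 0x3800003) (nat_lit 101)) (.one (nat_lit 0x700000500900f010000a0120ffc20511)) (.br (Nat.shiftLeft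 (nat_lit 0x1) (nat_lit 127)) (.one (nat_lit 0x700000600900f010000c0120ffc20511)) (.one (nat_lit 0x800000200900f0100004012120020511)))))) (.br (Nat.shiftLeft (nat_lit 0x9000003) (nat_lit 100)) (.br (Nat.shiftLeft (nat_lit 0x8000005) (nat_lit 100)) (.br (Nat.shiftLeft (nat_lit 0x2000001) (nat_lit 102)) (.one (nat_lit 0x800000300900f0100006012120020511)) (.one (nat_lit 0x800000400900f0100008012120020511))) (.br (Nat.shiftLeft (nat_lit 0x4000003) (nat_lit 101)) (.one (nat_lit 0x800000500900f010000a012120020511)) (.br (Nat.shiftLeft (nat_lit 0x9) (nat_lit 124)) (.one (nat_lit 0x800000600900f010000c012120020511)) (.one (nat_lit 0x900000200900f0100004012140420511))))) (.br (Nat.shiftLeft (nat_lit 0x4800003) (nat_lit 101)) (.br (Nat.shiftLeft (nat_lit 0x2400001) (nat_lit 102)) (.one (nat_lit 0x900000300900f0100006012140420511)) (.br (Nat.shiftLeft (nat_lit 0x9000005) (nat_lit 100)) (.one (nat_lit 0x900000400900f0100008012140420511)) (.one (nat_lit 0x900000500900f010000a012140420511)))) (.br (Nat.shiftLeft (nat_lit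 0x5) (nat_lit 125)) (.one (nat_lit 0x900000600900f010000c012140420511)) (.br (Nat.shiftLeft (nat_lit 0xa000003) (nat_lit 100)) (.one (nat_lit 0xa00000200900f0100004012160820511)) (.one (nat_lit 0xa00000300900f0100006012160820511)))))))
def t245 : k245.all (jb2 57 fl b0) = true := by decide +kernel
noncomputable def k246 : KT := (.br (Nat.shiftLeft (nat_lit 0xc000003) (nat_lit 100)) (.br (Nat.shiftLeft (nat_lit 0xb000003) (nat_lit 100)) (.br (Nat.shiftLeft (nat_lit 0x5000003) (nat_lit 101)) (.br (Nat.shiftLeft (nat_lit 0xa000005) (nat_lit 100)) (.one (nat_lit 0xa00000400900f0100008012160820511)) (.one (nat_lit 0xa00000500900f010000a012160820511))) (.br (Nat.shiftLeft (nat_lit 0xb) (nat_lit 124)) (.one (nat_lit 0xa00000600900f010000c012160820511)) (.one (nat_lit 0xb00000200900f0100004012180c20511)))) (.br (Nat.shiftLeft (nat_lit 0xb000005) (nat_lit 100)) (.br (Nat.shiftLeft (nat_lit 0x2c00001) (nat_lit 102)) (.one (nat_lit 0xb00000300900f0100006012180c20511)) (.one (nat_lit 0xb00000400900f0100008012180c20511)))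 (.br (Nat.shiftLeft (nat_lit 0x5800003) (nat_lit 101)) (.one (nat_lit 0xb00000500900f010000a012180c20511)) (.br (Nat.shiftLeft (nat_lit 0x3) (nat_lit 126)) (.one (nat_lit 0xb00000600900f010000c012180c20511)) (.one (nat_lit 0xc00000200900f01000040121a1020511)))))) (.br (Nat.shiftLeft (nat_lit 0xd000003) (nat_lit 100)) (.br (Nat.shiftLeft (nat_lit 0xc000005) (nat_lit 100)) (.br (Nat.shiftLeft (nat_lit 0x3000001) (nat_lit 102)) (.one (nat_lit 0xc00000300900f01000060121a1020511)) (.one (nat_lit 0xc00000400900f01000080121a1020511))) (.br (Nat.shiftLeft (nat_lit 0xd) (nat_lit 124)) (.one (nat_lit 0xc00000500900f010000a0121a1020511)) (.one (nat_lit 0xd00000200900f01000040121c1420511)))) (.br (Nat.shiftLeft (nat_lit 0x7) (nat_lit 125)) (.br (Nat.shiftLeft (nat_lit 0x3400001) (nat_lit 102)) (.one (nat_lit 0xd00000300900f01000060121c1420511)) (.one (nat_lit 0xd00000400900f01000080121c1420511))) (.br (Nat.shiftLeft (nat_lit 0xe000003) (nat_lit 100)) (.one (nat_lit 0xe00000200900f01000040121e1820511)) (.br (Nat.shiftLeft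 (nat_lit 0xf) (nat_lit 124)) (.one (nat_lit 0xe00000300900f01000060121e1820511)) (.one (nat_lit 0xf00000200900f0100004012201c20511)))))))
def t246 : k246.all (jb2 57 fl b0) = true := by decide +kernel
noncomputable def s13 : KT := (.br (nat_lit 0x800900e016001001201c02c540) (.br (nat_lit 0x300900f010000601201e021500) (.br (nat_lit 0x100900f010000201201e020540) (.br (nat_lit 0x100900e016000201201c02c540) k227 k228) (.br (nat_lit 0x200900e015000401201c02a540) k229 (.br (nat_lit 0x300900e014000601201c028540) k230 k231))) (.br (nat_lit 0x500900e015000a01201c02a540) (.br (nat_lit 0x400900e015000801201c02a540) k232 k233) (.br (nat_lit 0x600900f010000c01201e021500) k234 (.br (nat_lit 0x700900e016000e01201c02c540) k235 k236)))) (.br (nat_lit 0x300400900f010600801201e020650) (.br (nat_lit 0x100300900f010200601201e020650) (.br (nat_lit 0x100000900f010200001201e020411) k237 k238) (.br (nat_lit 0x200000900f010400001201e020411) k239 (.br (nat_lit 0x200400900f010400801201e020650) k240 k241))) (.br (nat_lit 0x100000300900f010000601203e420511)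 (.br (nat_lit 0x500000900e014a00001201c028411) k242 k243) (.br (nat_lit 0x600000200900f01000040120df820511) k244 (.br (nat_lit 0xa00000300900f0100006012160820511) k245 k246)))))
noncomputable def u13 : KT := (.br (Nat.shiftLeft (nat_lit 0x480700b) (nat_lit 65)) (.br (Nat.shiftLeft (nat_lit 0x900e015) (nat_lit 64)) (.one (nat_lit 0x900e014000001201c028430)) (.one (nat_lit 0x900e015000001201c02a430))) (.br (Nat.shiftLeft (nat_lit 0x900f) (nat_lit 76)) (.one (nat_lit 0x900e016000001201c02c430)) (.one (nat_lit 0x900f010000001201e020430))))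
def w13 : u13.all (wj 57 s13) = true := by decide +kernel
def o13 : OkW 57 (jb2 57 fl) u13 := .lift s13 _ (.br _ _ _ (.br _ _ _ (.br _ _ _ (.br _ _ _ (.leaf b0 k227 t227) (.leaf b0 k228 t228)) (.br _ _ _ (.leaf b0 k229 t229) (.br _ _ _ (.leaf b0 k230 t230) (.leaf b0 k231 t231)))) (.br _ _ _ (.br _ _ _ (.leaf b0 k232 t232) (.leaf b0 k233 t233)) (.br _ _ _ (.leaf b0 k234 t234) (.br _ _ _ (.leaf b0 k235 t235) (.leaf b0 k236 t236))))) (.br _ _ _ (.br _ _ _ (.br _ _ _ (.leaf b0 k237 t237) (.leaf b0 k238 t238)) (.br _ _ _ (.leaf b0 k239 t239) (.br _ _ _ (.leaf b0 k240 t240) (.leaf b0 k241 t241)))) (.br _ _ _ (.br _ _ _ (.leaf b0 k242 t242) (.leaf b0 k243 t243)) (.br _ _ _ (.leaf b0 k244 t244) (.br _ _ _ (.leaf b0 k245 t245) (.leaf b0 k246 t246)))))) w13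
noncomputable def k247 : KT := (.br (Nat.shiftLeft (nat_lit 0x2403c05) (nat_lit 66)) (.br (Nat.shiftLeft (nat_lit 0x4807809) (nat_lit 65)) (.one (nat_lit 0x900f011000001201e023400)) (.br (Nat.shiftLeft (nat_lit 0x900f013) (nat_lit 64)) (.one (nat_lit 0x900f012000001201e025400)) (.one (nat_lit 0x900f013000001201e027400)))) (.br (Nat.shiftLeft (nat_lit 0x1) (nat_lit 100)) (.br (Nat.shiftLeft (nat_lit 0x900f015) (nat_lit 64)) (.one (nat_lit 0x900f014000001201e029400)) (.one (nat_lit 0x900f015000001201e02b400))) (.br (Nat.shiftLeft (nat_lit 0x804807809) (nat_lit 65)) (.one (nat_lit 0x100900f011000201201e022540)) (.one (nat_lit 0x100900f012000201201e024540)))))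
def t247 : k247.all (jb2 57 fl b0) = true := by decide +kernel
noncomputable def k248 : KT := (.br (Nat.shiftLeft (nat_lit 0x402403c05) (nat_lit 66)) (.one (nat_lit 0x100900f013000201201e026540)) (.br (Nat.shiftLeft (nat_lit 0x100900f015) (nat_lit 64)) (.one (nat_lit 0x100900f014000201201e028540)) (.one (nat_lit 0x100900f015000201201e02a540))))
def t248 : k248.all (jb2 57 fl b0) = true := by decide +kernel
noncomputable def k249 : KT := (.one (nat_lit 0x200900f011000401201e022540))
def t249 : k249.all (jb2 57 fl b0) = true := by decide +kernel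
noncomputable def k250 : KT := (.one (nat_lit 0x200900f012000401201e024540))
def t250 : k250.all (jb2 57 fl b0) = true := by decide +kernel
noncomputable def k251 : KT := (.br (Nat.shiftLeft (nat_lit 0x802403c05) (nat_lit 66)) (.one (nat_lit 0x200900f013000401201e026540)) (.one (nat_lit 0x200900f014000401201e028540)))
def t251 : k251.all (jb2 57 fl b0) = true := by decide +kernel
noncomputable def k252 : KT := (.br (Nat.shiftLeft (nat_lit 0x3) (nat_lit 100)) (.one (nat_lit 0x200900f015000401201e02a540)) (.one (nat_lit 0x300900f011000601201e023500)))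
def t252 : k252.all (jb2 57 fl b0) = true := by decide +kernel
noncomputable def k253 : KT := (.one (nat_lit 0x300900f012000601201e024540))
def t253 : k253.all (jb2 57 fl b0) = true := by decide +kernel
noncomputable def k254 : KT := (.br (Nat.shiftLeft (nat_lit 0xc02403c05) (nat_lit 66)) (.one (nat_lit 0x300900f013000601201e026540)) (.one (nat_lit 0x300900f014000601201e028540)))
def t254 : k254.all (jb2 57 fl b0) = true := by decide +kernel
noncomputable def k255 : KT := (.br (Nat.shiftLeft (nat_lit 0x1) (nat_lit 102)) (.one (nat_lit 0x300900f015000601201e02a540)) (.one (nat_lit 0x400900f011000801201e023500)))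
def t255 : k255.all (jb2 57 fl b0) = true := by decide +kernel
noncomputable def k256 : KT := (.one (nat_lit 0x400900f012000801201e024540))
def t256 : k256.all (jb2 57 fl b0) = true := by decide +kernel
noncomputable def k257 : KT := (.br (Nat.shiftLeft (nat_lit 0x1002403c05) (nat_lit 66)) (.one (nat_lit 0x400900f013000801201e026540)) (.one (nat_lit 0x400900f014000801201e028540)))
def t257 : k257.all (jb2 57 fl b0) = true := by decide +kernel
noncomputable def k258 : KT := (.one (nat_lit 0x400900f015000801201e02a540))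
def t258 : k258.all (jb2 57 fl b0) = true := by decide +kernel
noncomputable def k259 : KT := (.one (nat_lit 0x500900f011000a01201e022540))
def t259 : k259.all (jb2 57 fl b0) = true := by decide +kernel
noncomputable def k260 : KT := (.one (nat_lit 0x500900f012000a01201e024540))
def t260 : k260.all (jb2 57 fl b0) = true := by decide +kernel
noncomputable def k261 : KT := (.br (Nat.shiftLeft (nat_lit 0x1402403c05) (nat_lit 66)) (.one (nat_lit 0x500900f013000a01201e026540)) (.br (Nat.shiftLeft (nat_lit 0x500900f015) (nat_lit 64)) (.one (nat_lit 0x500900f014000a01201e028540)) (.one (nat_lit 0x500900f015000a01201e02a540))))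
def t261 : k261.all (jb2 57 fl b0) = true := by decide +kernel
noncomputable def k262 : KT := (.one (nat_lit 0x600900f011000c01201e022540))
def t262 : k262.all (jb2 57 fl b0) = true := by decide +kernel
noncomputable def k263 : KT := (.br (Nat.shiftLeft (nat_lit 0x600900f013) (nat_lit 64)) (.one (nat_lit 0x600900f012000c01201e024540)) (.br (Nat.shiftLeft (nat_lit 0x1802403c05) (nat_lit 66)) (.one (nat_lit 0x600900f013000c01201e026540)) (.one (nat_lit 0x600900f014000c01201e028540))))
def t263 : k263.all (jb2 57 fl b0) = true := by decide +kernel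
noncomputable def k264 : KT := (.br (Nat.shiftLeft (nat_lit 0x7) (nat_lit 100)) (.one (nat_lit 0x600900f015000c01201e02a540)) (.br (Nat.shiftLeft (nat_lit 0x3804807809) (nat_lit 65)) (.one (nat_lit 0x700900f011000e01201e022540)) (.one (nat_lit 0x700900f012000e01201e024540))))
def t264 : k264.all (jb2 57 fl b0) = true := by decide +kernel
noncomputable def k265 : KT := (.br (Nat.shiftLeft (nat_lit 0x700900f015) (nat_lit 64)) (.br (Nat.shiftLeft (nat_lit 0x1c02403c05) (nat_lit 66)) (.one (nat_lit 0x700900f013000e01201e026540)) (.one (nat_lit 0x700900f014000e01201e028540))) (.br (Nat.shiftLeft (nat_lit 0x1) (nat_lit 103)) (.one (nat_lit 0x700900f015000e01201e02a540)) (.br (Nat.shiftLeft (nat_lit 0x4004807809) (nat_lit 65)) (.one (nat_lit 0x800900f011001001201e022540)) (.one (nat_lit 0x800900f012001001201e024540)))))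
def t265 : k265.all (jb2 57 fl b0) = true := by decide +kernel
noncomputable def k266 : KT := (.br (Nat.shiftLeft (nat_lit 0x100000900f015) (nat_lit 64)) (.br (Nat.shiftLeft (nat_lit 0x1) (nat_lit 112)) (.br (Nat.shiftLeft (nat_lit 0x2002403c05) (nat_lit 66)) (.one (nat_lit 0x800900f013001001201e026540)) (.br (Nat.shiftLeft (nat_lit 0x800900f015) (nat_lit 64)) (.one (nat_lit 0x800900f014001001201e028540)) (.one (nat_lit 0x800900f015001001201e02a540)))) (.br (Nat.shiftLeft (nat_lit 0x100000900f013) (nat_lit 64)) (.br (Nat.shiftLeft (nat_lit 0x800004807809) (nat_lit 65)) (.one (nat_lit 0x100000900f011200001201e022411)) (.one (nat_lit 0x100000900f012200001201e024411))) (.br (Nat.shiftLeft (nat_lit 0x400002403c05) (nat_lit 66)) (.one (nat_lit 0x100000900f013200001201e026411)) (.one (nat_lit 0x100000900f014200001201e028411))))) (.br (Nat.shiftLeft (nat_lit 0x1000004807809) (nat_lit 65)) (.br (Nat.shiftLeft (nat_lit 0x401) (nat_lit 102)) (.br (Nat.shiftLeft (nat_lit 0x801) (nat_lit 101)) (.one (nat_lit 0x100000900f015200001201e02a411))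 (.one (nat_lit 0x100300900f011200601201e022650))) (.br (Nat.shiftLeft (nat_lit 0x1) (nat_lit 113)) (.one (nat_lit 0x100400900f011200801201e022650)) (.one (nat_lit 0x200000900f011400001201e022411)))) (.br (Nat.shiftLeft (nat_lit 0x800002403c05) (nat_lit 66)) (.br (Nat.shiftLeft (nat_lit 0x200000900f013) (nat_lit 64)) (.one (nat_lit 0x200000900f012400001201e024411)) (.one (nat_lit 0x200000900f013400001201e026411))) (.br (Nat.shiftLeft (nat_lit 0x200000900f015) (nat_lit 64)) (.one (nat_lit 0x200000900f014400001201e028411)) (.one (nat_lit 0x200000900f015400001201e02a411))))))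
def t266 : k266.all (jb2 57 fl b0) = true := by decide +kernel
noncomputable def k267 : KT := (.br (Nat.shiftLeft (nat_lit 0x300000900f013) (nat_lit 64)) (.br (Nat.shiftLeft (nat_lit 0x3) (nat_lit 112)) (.br (Nat.shiftLeft (nat_lit 0x801) (nat_lit 102)) (.one (nat_lit 0x200300900f011400601201e022650)) (.one (nat_lit 0x200400900f011400801201e022650))) (.br (Nat.shiftLeft (nat_lit 0x1800004807809) (nat_lit 65)) (.one (nat_lit 0x300000900f011600001201e022411)) (.one (nat_lit 0x300000900f012600001201e024411)))) (.br (Nat.shiftLeft (nat_lit 0x300000900f015) (nat_lit 64)) (.br (Nat.shiftLeft (nat_lit 0xc00002403c05) (nat_lit 66)) (.one (nat_lit 0x300000900f013600001201e026411)) (.one (nat_lit 0x300000900f014600001201e028411))) (.br (Nat.shiftLeft (nat_lit 0xc01) (nat_lit 102)) (.one (nat_lit 0x300000900f015600001201e02a411)) (.br (Nat.shiftLeft (nat_lit 0x1) (nat_lit 114)) (.one (nat_lit 0x300400900f011600801201e022650)) (.one (nat_lit 0x400000900f011800001201e022411))))))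
def t267 : k267.all (jb2 57 fl b0) = true := by decide +kernel
noncomputable def k268 : KT := (.br (Nat.shiftLeft (nat_lit 0x700000900f015) (nat_lit 64)) (.br (Nat.shiftLeft (nat_lit 0x3) (nat_lit 113)) (.br (Nat.shiftLeft (nat_lit 0x5) (nat_lit 112)) (.br (Nat.shiftLeft (nat_lit 0x1000002403c05) (nat_lit 66)) (.br (Nat.shiftLeft (nat_lit 0x400000900f013) (nat_lit 64)) (.one (nat_lit 0x400000900f012800001201e024411)) (.one (nat_lit 0x400000900f013800001201e026411))) (.br (Nat.shiftLeft (nat_lit 0x400000900f015) (nat_lit 64)) (.one (nat_lit 0x400000900f014800001201e028411)) (.one (nat_lit 0x400000900f015800001201e02a411)))) (.br (Nat.shiftLeft (nat_lit 0x500000900f013) (nat_lit 64)) (.br (Nat.shiftLeft (nat_lit 0x2800004807809) (nat_lit 65)) (.one (nat_lit 0x500000900f011a00001201e022411)) (.one (nat_lit 0x500000900f012a00001201e024411))) (.br (Nat.shiftLeft (nat_lit 0x1400002403c05) (nat_lit 66)) (.one (nat_lit 0x500000900f013a00001201e026411)) (.br (Nat.shiftLeft (nat_lit 0x500000900f015) (nat_lit 64)) (.one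 (nat_lit 0x500000900f014a00001201e028411)) (.one (nat_lit 0x500000900f015a00001201e02a411)))))) (.br (Nat.shiftLeft (nat_lit 0x600000900f015) (nat_lit 64)) (.br (Nat.shiftLeft (nat_lit 0x600000900f013) (nat_lit 64)) (.br (Nat.shiftLeft (nat_lit 0x3000004807809) (nat_lit 65)) (.one (nat_lit 0x600000900f011c00001201e022411)) (.one (nat_lit 0x600000900f012c00001201e024411))) (.br (Nat.shiftLeft (nat_lit 0x1800002403c05) (nat_lit 66)) (.one (nat_lit 0x600000900f013c00001201e026411)) (.one (nat_lit 0x600000900f014c00001201e028411)))) (.br (Nat.shiftLeft (nat_lit 0x3800004807809) (nat_lit 65)) (.br (Nat.shiftLeft (nat_lit 0x7) (nat_lit 112)) (.one (nat_lit 0x600000900f015c00001201e02a411)) (.one (nat_lit 0x700000900f011e00001201e022411))) (.br (Nat.shiftLeft (nat_lit 0x700000900f013) (nat_lit 64)) (.one (nat_lit 0x700000900f012e00001201e024411)) (.br (Nat.shiftLeft (nat_lit 0x1c00002403c05) (nat_lit 66)) (.one (nat_lit 0x700000900f013e00001201e026411)) (.one (nat_lit 0x700000900f014e00001201e028411))))))) (.br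 (Nat.shiftLeft (nat_lit 0x2400002403c05) (nat_lit 66)) (.br (Nat.shiftLeft (nat_lit 0x2000002403c05) (nat_lit 66)) (.br (Nat.shiftLeft (nat_lit 0x4000004807809) (nat_lit 65)) (.br (Nat.shiftLeft (nat_lit 0x1) (nat_lit 115)) (.one (nat_lit 0x700000900f015e00001201e02a411)) (.one (nat_lit 0x800000900f011000001201e124411))) (.br (Nat.shiftLeft (nat_lit 0x800000900f013) (nat_lit 64)) (.one (nat_lit 0x800000900f012000001201e126411)) (.one (nat_lit 0x800000900f013000001201e128411)))) (.br (Nat.shiftLeft (nat_lit 0x9) (nat_lit 112)) (.br (Nat.shiftLeft (nat_lit 0x800000900f015) (nat_lit 64)) (.one (nat_lit 0x800000900f014000001201e12a411)) (.one (nat_lit 0x800000900f015000001201e12c411))) (.br (Nat.shiftLeft (nat_lit 0x4800004807809) (nat_lit 65)) (.one (nat_lit 0x900000900f011200001201e124411)) (.br (Nat.shiftLeft (nat_lit 0x900000900f013) (nat_lit 64)) (.one (nat_lit 0x900000900f012200001201e126411)) (.one (nat_lit 0x900000900f013200001201e128411)))))) (.br (Nat.shiftLeft (nat_lit 0xa00000900f013) (nat_lit 64))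 (.br (Nat.shiftLeft (nat_lit 0x5) (nat_lit 113)) (.br (Nat.shiftLeft (nat_lit 0x900000900f015) (nat_lit 64)) (.one (nat_lit 0x900000900f014200001201e12a411)) (.one (nat_lit 0x900000900f015200001201e12c411))) (.br (Nat.shiftLeft (nat_lit 0x5000004807809) (nat_lit 65)) (.one (nat_lit 0xa00000900f011400001201e124411)) (.one (nat_lit 0xa00000900f012400001201e126411)))) (.br (Nat.shiftLeft (nat_lit 0xa00000900f015) (nat_lit 64)) (.br (Nat.shiftLeft (nat_lit 0x2800002403c05) (nat_lit 66)) (.one (nat_lit 0xa00000900f013400001201e128411)) (.one (nat_lit 0xa00000900f014400001201e12a411))) (.br (Nat.shiftLeft (nat_lit 0xb) (nat_lit 112)) (.one (nat_lit 0xa00000900f015400001201e12c411)) (.br (Nat.shiftLeft (nat_lit 0x5800004807809) (nat_lit 65)) (.one (nat_lit 0xb00000900f011600001201e124411)) (.one (nat_lit 0xb00000900f012600001201e126411))))))))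
def t268 : k268.all (jb2 57 fl b0) = true := by decide +kernel
noncomputable def k269 : KT := (.br (Nat.shiftLeft (nat_lit 0x800001) (nat_lit 102)) (.br (Nat.shiftLeft (nat_lit 0xd00000900f013) (nat_lit 64)) (.br (Nat.shiftLeft (nat_lit 0xc00000900f013) (nat_lit 64)) (.br (Nat.shiftLeft (nat_lit 0xb00000900f015) (nat_lit 64)) (.br (Nat.shiftLeft (nat_lit 0x2c00002403c05) (nat_lit 66)) (.one (nat_lit 0xb00000900f013600001201e128411)) (.one (nat_lit 0xb00000900f014600001201e12a411))) (.br (Nat.shiftLeft (nat_lit 0x3) (nat_lit 114)) (.one (nat_lit 0xb00000900f015600001201e12c411)) (.br (Nat.shiftLeft (nat_lit 0x6000004807809) (nat_lit 65)) (.one (nat_lit 0xc00000900f011800001201e124411)) (.one (nat_lit 0xc00000900f012800001201e126411))))) (.br (Nat.shiftLeft (nat_lit 0xc00000900f015) (nat_lit 64)) (.br (Nat.shiftLeft (nat_lit 0x3000002403c05) (nat_lit 66)) (.one (nat_lit 0xc00000900f013800001201e128411)) (.one (nat_lit 0xc00000900f014800001201e12a411))) (.br (Nat.shiftLeft (nat_lit 0xd) (nat_lit 112)) (.one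 (nat_lit 0xc00000900f015800001201e12c411)) (.br (Nat.shiftLeft (nat_lit 0x6800004807809) (nat_lit 65)) (.one (nat_lit 0xd00000900f011a00001201e124411)) (.one (nat_lit 0xd00000900f012a00001201e126411)))))) (.br (Nat.shiftLeft (nat_lit 0xf) (nat_lit 112)) (.br (Nat.shiftLeft (nat_lit 0x7) (nat_lit 113)) (.br (Nat.shiftLeft (nat_lit 0x3400002403c05) (nat_lit 66)) (.one (nat_lit 0xd00000900f013a00001201e128411)) (.one (nat_lit 0xd00000900f014a00001201e12a411))) (.br (Nat.shiftLeft (nat_lit 0x7000004807809) (nat_lit 65)) (.one (nat_lit 0xe00000900f011c00001201e124411)) (.br (Nat.shiftLeft (nat_lit 0xe00000900f013) (nat_lit 64)) (.one (nat_lit 0xe00000900f012c00001201e126411)) (.one (nat_lit 0xe00000900f013c00001201e128411))))) (.br (Nat.shiftLeft (nat_lit 0x1) (nat_lit 124)) (.br (Nat.shiftLeft (nat_lit 0x7800004807809) (nat_lit 65)) (.one (nat_lit 0xf00000900f011e00001201e124411)) (.one (nat_lit 0xf00000900f012e00001201e126411))) (.br (Nat.shiftLeft (nat_lit 0x400001) (nat_lit 102)) (.one (nat_lit 0x100000300900f011000601203e422511))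 (.br (Nat.shiftLeft (nat_lit 0x1) (nat_lit 125)) (.one (nat_lit 0x100000400900f011000801203e422511)) (.one (nat_lit 0x200000300900f011000601205e822511))))))) (.br (Nat.shiftLeft (nat_lit 0x1c00001) (nat_lit 102)) (.br (Nat.shiftLeft (nat_lit 0x5) (nat_lit 124)) (.br (Nat.shiftLeft (nat_lit 0xc00001) (nat_lit 102)) (.br (Nat.shiftLeft (nat_lit 0x3) (nat_lit 124)) (.one (nat_lit 0x200000400900f011000801205e822511)) (.one (nat_lit 0x300000300900f011000601207ec22511))) (.br (Nat.shiftLeft (nat_lit 0x1) (nat_lit 126)) (.one (nat_lit 0x300000400900f011000801207ec22511)) (.br (Nat.shiftLeft (nat_lit 0x1000001) (nat_lit 102)) (.one (nat_lit 0x400000300900f011000601209f022511)) (.one (nat_lit 0x400000400900f011000801209f022511))))) (.br (Nat.shiftLeft (nat_lit 0x3) (nat_lit 125)) (.br (Nat.shiftLeft (nat_lit 0x1400001) (nat_lit 102)) (.one (nat_lit 0x500000300900f01100060120bf422511)) (.one (nat_lit 0x500000400900f01100080120bf422511))) (.br (Nat.shiftLeft (nat_lit 0x1800001) (nat_lit 102)) (.one (nat_lit 0x600000300900f01100060120df822511))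 (.br (Nat.shiftLeft (nat_lit 0x7) (nat_lit 124)) (.one (nat_lit 0x600000400900f01100080120df822511)) (.one (nat_lit 0x700000300900f01100060120ffc22511)))))) (.br (Nat.shiftLeft (nat_lit 0x5) (nat_lit 125)) (.br (Nat.shiftLeft (nat_lit 0x2000001) (nat_lit 102)) (.br (Nat.shiftLeft (nat_lit 0x1) (nat_lit 127)) (.one (nat_lit 0x700000400900f01100080120ffc22511)) (.one (nat_lit 0x800000300900f0110006012120022511))) (.br (Nat.shiftLeft (nat_lit 0x9) (nat_lit 124)) (.one (nat_lit 0x800000400900f0110008012120022511)) (.br (Nat.shiftLeft (nat_lit 0x2400001) (nat_lit 102)) (.one (nat_lit 0x900000300900f0110006012140422511)) (.one (nat_lit 0x900000400900f0110008012140422511))))) (.br (Nat.shiftLeft (nat_lit 0xb) (nat_lit 124)) (.br (Nat.shiftLeft (nat_lit 0x2800001) (nat_lit 102)) (.one (nat_lit 0xa00000300900f0110006012160822511)) (.one (nat_lit 0xa00000400900f0110008012160822511))) (.br (Nat.shiftLeft (nat_lit 0x2c00001) (nat_lit 102)) (.one (nat_lit 0xb00000300900f0110006012180c22511)) (.br (Nat.shiftLeft (nat_lit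 0x3) (nat_lit 126)) (.one (nat_lit 0xb00000400900f0110008012180c22511)) (.one (nat_lit 0xc00000300900f01100060121a1022511))))))))
def t269 : k269.all (jb2 57 fl b0) = true := by decide +kernel
noncomputable def k270 : KT := (.br (Nat.shiftLeft (nat_lit 0xd) (nat_lit 124)) (.one (nat_lit 0xc00000400900f01100080121a1022511)) (.one (nat_lit 0xd00000300900f01100060121c1422511)))
def t270 : k270.all (jb2 57 fl b0) = true := by decide +kernel
noncomputable def s14 : KT := (.br (nat_lit 0x400900f015000801201e02a540) (.br (nat_lit 0x300900f011000601201e023500) (.br (nat_lit 0x200900f011000401201e022540) (.br (nat_lit 0x100900f012000201201e024540) k247 (.br (nat_lit 0x100900f015000201201e02a540) k248 k249)) (.br (nat_lit 0x200900f012000401201e024540) k250 (.br (nat_lit 0x200900f014000401201e028540) k251 k252))) (.br (nat_lit 0x400900f011000801201e023500) (.br (nat_lit 0x300900f012000601201e024540) k253 (.br (nat_lit 0x300900f014000601201e028540) k254 k255)) (.br (nat_lit 0x400900f012000801201e024540) k256 (.br (nat_lit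 0x400900f014000801201e028540) k257 k258)))) (.br (nat_lit 0x700900f012000e01201e024540) (.br (nat_lit 0x500900f015000a01201e02a540) (.br (nat_lit 0x500900f011000a01201e022540) k259 (.br (nat_lit 0x500900f012000a01201e024540) k260 k261)) (.br (nat_lit 0x600900f011000c01201e022540) k262 (.br (nat_lit 0x600900f014000c01201e028540) k263 k264))) (.br (nat_lit 0x400000900f011800001201e022411) (.br (nat_lit 0x800900f012001001201e024540) k265 (.br (nat_lit 0x200000900f015400001201e02a411) k266 k267)) (.br (nat_lit 0xb00000900f012600001201e126411) k268 (.br (nat_lit 0xc00000300900f01100060121a1022511) k269 k270)))))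
noncomputable def u14 : KT := (.br (Nat.shiftLeft (nat_lit 0x900f013) (nat_lit 64)) (.br (Nat.shiftLeft (nat_lit 0x4807809) (nat_lit 65)) (.one (nat_lit 0x900f011000001201e022430)) (.one (nat_lit 0x900f012000001201e024430))) (.br (Nat.shiftLeft (nat_lit 0x2403c05) (nat_lit 66)) (.one (nat_lit 0x900f013000001201e026430)) (.br (Nat.shiftLeft (nat_lit 0x900f015) (nat_lit 64)) (.one (nat_lit 0x900f014000001201e028430)) (.one (nat_lit 0x900f015000001201e02a430)))))
def w14 : u14.all (wj 57 s14) = true := by decide +kernel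
def o14 : OkW 57 (jb2 57 fl) u14 := .lift s14 _ (.br _ _ _ (.br _ _ _ (.br _ _ _ (.br _ _ _ (.leaf b0 k247 t247) (.br _ _ _ (.leaf b0 k248 t248) (.leaf b0 k249 t249))) (.br _ _ _ (.leaf b0 k250 t250) (.br _ _ _ (.leaf b0 k251 t251) (.leaf b0 k252 t252)))) (.br _ _ _ (.br _ _ _ (.leaf b0 k253 t253) (.br _ _ _ (.leaf b0 k254 t254) (.leaf b0 k255 t255))) (.br _ _ _ (.leaf b0 k256 t256) (.br _ _ _ (.leaf b0 k257 t257) (.leaf b0 k258 t258))))) (.br _ _ _ (.br _ _ _ (.br _ _ _ (.leaf b0 k259 t259) (.br _ _ _ (.leaf b0 k260 t260) (.leaf b0 k261 t261))) (.br _ _ _ (.leaf b0 k262 t262) (.br _ _ _ (.leaf b0 k263 t263) (.leaf b0 k264 t264)))) (.br _ _ _ (.br _ _ _ (.leaf b0 k265 t265) (.br _ _ _ (.leaf b0 k266 t266) (.leaf b0 k267 t267))) (.br _ _ _ (.leaf b0 k268 t268) (.br _ _ _ (.leaf b0 k269 t269) (.leaf b0 k270 t270)))))) w14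
noncomputable def k271 : KT := (.br (Nat.shiftLeft (nat_lit 0x5) (nat_lit 89)) (.br (Nat.shiftLeft (nat_lit 0x2404005) (nat_lit 66)) (.br (Nat.shiftLeft (nat_lit 0x4808009) (nat_lit 65)) (.one (nat_lit 0x90100110000012020023400)) (.br (Nat.shiftLeft (nat_lit 0x9010013) (nat_lit 64)) (.one (nat_lit 0x90100120000012020025400)) (.one (nat_lit 0x90100130000012020027400)))) (.br (Nat.shiftLeft (nat_lit 0x9011) (nat_lit 76)) (.one (nat_lit 0x90100140000012020029400)) (.br (Nat.shiftLeft (nat_lit 0x9011013) (nat_lit 64)) (.one (nat_lit 0x90110120000012022025400)) (.one (nat_lit 0x90110130000012022027400))))) (.br (Nat.shiftLeft (nat_lit 0xa00b00f) (nat_lit 64)) (.br (Nat.shiftLeft (nat_lit 0xa00b00d) (nat_lit 64)) (.one (nat_lit 0xa00b00c0000014016019400)) (.br (Nat.shiftLeft (nat_lit 0x5005807) (nat_lit 65)) (.one (nat_lit 0xa00b00d000001401601b400)) (.one (nat_lit 0xa00b00e000001401601d400)))) (.br (Nat.shiftLeft (nat_lit 0x1) (nat_lit 100)) (.br (Nat.shiftLeft (nat_lit 0xa00b01) (nat_lit 68)) (.one (nat_lit 0xa00b00f000001401601f400))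 (.one (nat_lit 0xa00b0100000014016021400))) (.br (Nat.shiftLeft (nat_lit 0x804808009) (nat_lit 65)) (.one (nat_lit 0x10090100110002012020022540)) (.one (nat_lit 0x10090100120002012020024540))))))
def t271 : k271.all (jb2 57 fl b0) = true := by decide +kernel
noncomputable def k272 : KT := (.br (Nat.shiftLeft (nat_lit 0x1009011) (nat_lit 76)) (.br (Nat.shiftLeft (nat_lit 0x402404005) (nat_lit 66)) (.one (nat_lit 0x10090100130002012020026540)) (.one (nat_lit 0x10090100140002012020028540))) (.br (Nat.shiftLeft (nat_lit 0x1009011013) (nat_lit 64)) (.one (nat_lit 0x10090110120002012022024540)) (.one (nat_lit 0x10090110130002012022026540))))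
def t272 : k272.all (jb2 57 fl b0) = true := by decide +kernel
noncomputable def k273 : KT := (.one (nat_lit 0x20090100110004012020022540))
def t273 : k273.all (jb2 57 fl b0) = true := by decide +kernel
noncomputable def k274 : KT := (.br (Nat.shiftLeft (nat_lit 0x2009010013) (nat_lit 64)) (.one (nat_lit 0x20090100120004012020024540)) (.one (nat_lit 0x20090100130004012020026540)))
def t274 : k274.all (jb2 57 fl b0) = true := by decide +kernel
noncomputable def k275 : KT := (.br (Nat.shiftLeft (nat_lit 0x2009011) (nat_lit 76)) (.one (nat_lit 0x20090100140004012020028540)) (.br (Nat.shiftLeft (nat_lit 0x2009011013) (nat_lit 64)) (.one (nat_lit 0x20090110120004012022024540)) (.one (nat_lit 0x20090110130004012022026540))))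
def t275 : k275.all (jb2 57 fl b0) = true := by decide +kernel
noncomputable def k276 : KT := (.one (nat_lit 0x30090100110006012020022540))
def t276 : k276.all (jb2 57 fl b0) = true := by decide +kernel
noncomputable def k277 : KT := (.br (Nat.shiftLeft (nat_lit 0x3009010013) (nat_lit 64)) (.one (nat_lit 0x30090100120006012020024540)) (.one (nat_lit 0x30090100130006012020026540)))
def t277 : k277.all (jb2 57 fl b0) = true := by decide +kernel
noncomputable def k278 : KT := (.br (Nat.shiftLeft (nat_lit 0x3009011) (nat_lit 76)) (.one (nat_lit 0x30090100140006012020028540)) (.br (Nat.shiftLeft (nat_lit 0x3009011013) (nat_lit 64)) (.one (nat_lit 0x30090110120006012022024540)) (.one (nat_lit 0x30090110130006012022026540))))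
def t278 : k278.all (jb2 57 fl b0) = true := by decide +kernel
noncomputable def k279 : KT := (.one (nat_lit 0x40090100110008012020022540))
def t279 : k279.all (jb2 57 fl b0) = true := by decide +kernel
noncomputable def k280 : KT := (.br (Nat.shiftLeft (nat_lit 0x4009010013) (nat_lit 64)) (.one (nat_lit 0x40090100120008012020024540)) (.one (nat_lit 0x40090100130008012020026540)))
def t280 : k280.all (jb2 57 fl b0) = true := by decide +kernel
noncomputable def k281 : KT := (.br (Nat.shiftLeft (nat_lit 0x4009011) (nat_lit 76)) (.one (nat_lit 0x40090100140008012020028540)) (.br (Nat.shiftLeft (nat_lit 0x4009011013) (nat_lit 64)) (.one (nat_lit 0x40090110120008012022024540)) (.one (nat_lit 0x40090110130008012022026540))))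
def t281 : k281.all (jb2 57 fl b0) = true := by decide +kernel
noncomputable def k282 : KT := (.one (nat_lit 0x5009010011000a012020022540))
def t282 : k282.all (jb2 57 fl b0) = true := by decide +kernel
noncomputable def k283 : KT := (.br (Nat.shiftLeft (nat_lit 0x5009010013) (nat_lit 64)) (.one (nat_lit 0x5009010012000a012020024540)) (.br (Nat.shiftLeft (nat_lit 0x1402404005) (nat_lit 66)) (.one (nat_lit 0x5009010013000a012020026540)) (.one (nat_lit 0x5009010014000a012020028540))))
def t283 : k283.all (jb2 57 fl b0) = true := by decide +kernel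
noncomputable def k284 : KT := (.br (Nat.shiftLeft (nat_lit 0x5009011013) (nat_lit 64)) (.one (nat_lit 0x5009011012000a012022024540)) (.br (Nat.shiftLeft (nat_lit 0x3) (nat_lit 101)) (.one (nat_lit 0x5009011013000a012022026540)) (.one (nat_lit 0x6009010011000c012020022540))))
def t284 : k284.all (jb2 57 fl b0) = true := by decide +kernel
noncomputable def k285 : KT := (.br (Nat.shiftLeft (nat_lit 0x1802404005) (nat_lit 66)) (.br (Nat.shiftLeft (nat_lit 0x6009010013) (nat_lit 64)) (.one (nat_lit 0x6009010012000c012020024540)) (.one (nat_lit 0x6009010013000c012020026540))) (.br (Nat.shiftLeft (nat_lit 0x6009011) (nat_lit 76)) (.one (nat_lit 0x6009010014000c012020028540)) (.br (Nat.shiftLeft (nat_lit 0x6009011013) (nat_lit 64)) (.one (nat_lit 0x6009011012000c012022024540)) (.one (nat_lit 0x6009011013000c012022026540)))))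
def t285 : k285.all (jb2 57 fl b0) = true := by decide +kernel
noncomputable def k286 : KT := (.br (Nat.shiftLeft (nat_lit 0x1c02404005) (nat_lit 66)) (.br (Nat.shiftLeft (nat_lit 0x3804808009) (nat_lit 65)) (.one (nat_lit 0x7009010011000e012020022540)) (.br (Nat.shiftLeft (nat_lit 0x7009010013) (nat_lit 64)) (.one (nat_lit 0x7009010012000e012020024540)) (.one (nat_lit 0x7009010013000e012020026540)))) (.br (Nat.shiftLeft (nat_lit 0x7009011) (nat_lit 76)) (.one (nat_lit 0x7009010014000e012020028540)) (.br (Nat.shiftLeft (nat_lit 0x7009011013) (nat_lit 64)) (.one (nat_lit 0x7009011012000e012022024540)) (.one (nat_lit 0x7009011013000e012022026540)))))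
def t286 : k286.all (jb2 57 fl b0) = true := by decide +kernel
noncomputable def k287 : KT := (.br (Nat.shiftLeft (nat_lit 0x3) (nat_lit 112)) (.br (Nat.shiftLeft (nat_lit 0x400002404005) (nat_lit 66)) (.br (Nat.shiftLeft (nat_lit 0x8009011) (nat_lit 76)) (.br (Nat.shiftLeft (nat_lit 0x8009010013) (nat_lit 64)) (.br (Nat.shiftLeft (nat_lit 0x4004808009) (nat_lit 65)) (.one (nat_lit 0x80090100110010012020022540)) (.one (nat_lit 0x80090100120010012020024540))) (.br (Nat.shiftLeft (nat_lit 0x2002404005) (nat_lit 66)) (.one (nat_lit 0x80090100130010012020026540)) (.one (nat_lit 0x80090100140010012020028540)))) (.br (Nat.shiftLeft (nat_lit 0x1) (nat_lit 112)) (.br (Nat.shiftLeft (nat_lit 0x8009011013) (nat_lit 64)) (.one (nat_lit 0x80090110120010012022024540)) (.one (nat_lit 0x80090110130010012022026540))) (.br (Nat.shiftLeft (nat_lit 0x800004808009) (nat_lit 65)) (.one (nat_lit 0x10000090100112000012020022411)) (.br (Nat.shiftLeft (nat_lit 0x1000009010013) (nat_lit 64)) (.one (nat_lit 0x10000090100122000012020024411))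 (.one (nat_lit 0x10000090100132000012020026411)))))) (.br (Nat.shiftLeft (nat_lit 0x1000004808009) (nat_lit 65)) (.br (Nat.shiftLeft (nat_lit 0x1000009011013) (nat_lit 64)) (.br (Nat.shiftLeft (nat_lit 0x1000009011) (nat_lit 76)) (.one (nat_lit 0x10000090100142000012020028411)) (.one (nat_lit 0x10000090110122000012022024411))) (.br (Nat.shiftLeft (nat_lit 0x1) (nat_lit 113)) (.one (nat_lit 0x10000090110132000012022026411)) (.one (nat_lit 0x20000090100114000012020022411)))) (.br (Nat.shiftLeft (nat_lit 0x800002404005) (nat_lit 66)) (.br (Nat.shiftLeft (nat_lit 0x2000009010013) (nat_lit 64)) (.one (nat_lit 0x20000090100124000012020024411)) (.one (nat_lit 0x20000090100134000012020026411))) (.br (Nat.shiftLeft (nat_lit 0x2000009011) (nat_lit 76)) (.one (nat_lit 0x20000090100144000012020028411)) (.br (Nat.shiftLeft (nat_lit 0x2000009011013) (nat_lit 64)) (.one (nat_lit 0x20000090110124000012022024411)) (.one (nat_lit 0x20000090110134000012022026411))))))) (.br (Nat.shiftLeft (nat_lit 0x1000002404005) (nat_lit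 66)) (.br (Nat.shiftLeft (nat_lit 0x3000009011) (nat_lit 76)) (.br (Nat.shiftLeft (nat_lit 0x3000009010013) (nat_lit 64)) (.br (Nat.shiftLeft (nat_lit 0x1800004808009) (nat_lit 65)) (.one (nat_lit 0x30000090100116000012020022411)) (.one (nat_lit 0x30000090100126000012020024411))) (.br (Nat.shiftLeft (nat_lit 0xc00002404005) (nat_lit 66)) (.one (nat_lit 0x30000090100136000012020026411)) (.one (nat_lit 0x30000090100146000012020028411)))) (.br (Nat.shiftLeft (nat_lit 0x1) (nat_lit 114)) (.br (Nat.shiftLeft (nat_lit 0x3000009011013) (nat_lit 64)) (.one (nat_lit 0x30000090110126000012022024411)) (.one (nat_lit 0x30000090110136000012022026411))) (.br (Nat.shiftLeft (nat_lit 0x2000004808009) (nat_lit 65)) (.one (nat_lit 0x40000090100118000012020022411)) (.br (Nat.shiftLeft (nat_lit 0x4000009010013) (nat_lit 64)) (.one (nat_lit 0x40000090100128000012020024411)) (.one (nat_lit 0x40000090100138000012020026411)))))) (.br (Nat.shiftLeft (nat_lit 0x2800004808009) (nat_lit 65)) (.br (Nat.shiftLeft (nat_lit 0x4000009011013)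 (nat_lit 64)) (.br (Nat.shiftLeft (nat_lit 0x4000009011) (nat_lit 76)) (.one (nat_lit 0x40000090100148000012020028411)) (.one (nat_lit 0x40000090110128000012022024411))) (.br (Nat.shiftLeft (nat_lit 0x5) (nat_lit 112)) (.one (nat_lit 0x40000090110138000012022026411)) (.one (nat_lit 0x5000009010011a000012020022411)))) (.br (Nat.shiftLeft (nat_lit 0x1400002404005) (nat_lit 66)) (.br (Nat.shiftLeft (nat_lit 0x5000009010013) (nat_lit 64)) (.one (nat_lit 0x5000009010012a000012020024411)) (.one (nat_lit 0x5000009010013a000012020026411))) (.br (Nat.shiftLeft (nat_lit 0x5000009011) (nat_lit 76)) (.one (nat_lit 0x5000009010014a000012020028411)) (.br (Nat.shiftLeft (nat_lit 0x5000009011013) (nat_lit 64)) (.one (nat_lit 0x5000009011012a000012022024411)) (.one (nat_lit 0x5000009011013a000012022026411))))))))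
def t287 : k287.all (jb2 57 fl b0) = true := by decide +kernel
noncomputable def k288 : KT := (.br (Nat.shiftLeft (nat_lit 0x9000009010013) (nat_lit 64)) (.br (Nat.shiftLeft (nat_lit 0x7000009011) (nat_lit 76)) (.br (Nat.shiftLeft (nat_lit 0x6000009011013) (nat_lit 64)) (.br (Nat.shiftLeft (nat_lit 0x6000009010013) (nat_lit 64)) (.br (Nat.shiftLeft (nat_lit 0x3000004808009) (nat_lit 65)) (.one (nat_lit 0x6000009010011c000012020022411)) (.one (nat_lit 0x6000009010012c000012020024411))) (.br (Nat.shiftLeft (nat_lit 0x1800002404005) (nat_lit 66)) (.one (nat_lit 0x6000009010013c000012020026411)) (.br (Nat.shiftLeft (nat_lit 0x6000009011) (nat_lit 76)) (.one (nat_lit 0x6000009010014c000012020028411)) (.one (nat_lit 0x6000009011012c000012022024411))))) (.br (Nat.shiftLeft (nat_lit 0x3800004808009) (nat_lit 65)) (.br (Nat.shiftLeft (nat_lit 0x7) (nat_lit 112)) (.one (nat_lit 0x6000009011013c000012022026411)) (.one (nat_lit 0x7000009010011e000012020022411))) (.br (Nat.shiftLeft (nat_lit 0x7000009010013) (nat_lit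 64)) (.one (nat_lit 0x7000009010012e000012020024411)) (.br (Nat.shiftLeft (nat_lit 0x1c00002404005) (nat_lit 66)) (.one (nat_lit 0x7000009010013e000012020026411)) (.one (nat_lit 0x7000009010014e000012020028411)))))) (.br (Nat.shiftLeft (nat_lit 0x2000002404005) (nat_lit 66)) (.br (Nat.shiftLeft (nat_lit 0x1) (nat_lit 115)) (.br (Nat.shiftLeft (nat_lit 0x7000009011013) (nat_lit 64)) (.one (nat_lit 0x7000009011012e000012022024411)) (.one (nat_lit 0x7000009011013e000012022026411))) (.br (Nat.shiftLeft (nat_lit 0x4000004808009) (nat_lit 65)) (.one (nat_lit 0x80000090100110000012020124411)) (.br (Nat.shiftLeft (nat_lit 0x8000009010013) (nat_lit 64)) (.one (nat_lit 0x80000090100120000012020126411)) (.one (nat_lit 0x80000090100130000012020128411))))) (.br (Nat.shiftLeft (nat_lit 0x8000009011013) (nat_lit 64)) (.br (Nat.shiftLeft (nat_lit 0x8000009011) (nat_lit 76)) (.one (nat_lit 0x8000009010014000001202012a411)) (.one (nat_lit 0x80000090110120000012022126411))) (.br (Nat.shiftLeft (nat_lit 0x9) (nat_lit 112)) (.one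 (nat_lit 0x80000090110130000012022128411)) (.br (Nat.shiftLeft (nat_lit 0x4800004808009) (nat_lit 65)) (.one (nat_lit 0x90000090100112000012020124411)) (.one (nat_lit 0x90000090100122000012020126411))))))) (.br (Nat.shiftLeft (nat_lit 0xb) (nat_lit 112)) (.br (Nat.shiftLeft (nat_lit 0x5000004808009) (nat_lit 65)) (.br (Nat.shiftLeft (nat_lit 0x9000009011) (nat_lit 76)) (.br (Nat.shiftLeft (nat_lit 0x2400002404005) (nat_lit 66)) (.one (nat_lit 0x90000090100132000012020128411)) (.one (nat_lit 0x9000009010014200001202012a411))) (.br (Nat.shiftLeft (nat_lit 0x9000009011013) (nat_lit 64)) (.one (nat_lit 0x90000090110122000012022126411)) (.br (Nat.shiftLeft (nat_lit 0x5) (nat_lit 113)) (.one (nat_lit 0x90000090110132000012022128411)) (.one (nat_lit 0xa0000090100114000012020124411))))) (.br (Nat.shiftLeft (nat_lit 0x2800002404005) (nat_lit 66)) (.br (Nat.shiftLeft (nat_lit 0xa000009010013) (nat_lit 64)) (.one (nat_lit 0xa0000090100124000012020126411)) (.one (nat_lit 0xa0000090100134000012020128411))) (.br (Nat.shiftLeft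 (nat_lit 0xa000009011) (nat_lit 76)) (.one (nat_lit 0xa000009010014400001202012a411)) (.br (Nat.shiftLeft (nat_lit 0xa000009011013) (nat_lit 64)) (.one (nat_lit 0xa0000090110124000012022126411)) (.one (nat_lit 0xa0000090110134000012022128411)))))) (.br (Nat.shiftLeft (nat_lit 0xb000009011013) (nat_lit 64)) (.br (Nat.shiftLeft (nat_lit 0xb000009010013) (nat_lit 64)) (.br (Nat.shiftLeft (nat_lit 0x5800004808009) (nat_lit 65)) (.one (nat_lit 0xb0000090100116000012020124411)) (.one (nat_lit 0xb0000090100126000012020126411))) (.br (Nat.shiftLeft (nat_lit 0x2c00002404005) (nat_lit 66)) (.one (nat_lit 0xb0000090100136000012020128411)) (.br (Nat.shiftLeft (nat_lit 0xb000009011) (nat_lit 76)) (.one (nat_lit 0xb000009010014600001202012a411)) (.one (nat_lit 0xb0000090110126000012022126411))))) (.br (Nat.shiftLeft (nat_lit 0x6000004808009) (nat_lit 65)) (.br (Nat.shiftLeft (nat_lit 0x3) (nat_lit 114)) (.one (nat_lit 0xb0000090110136000012022128411)) (.one (nat_lit 0xc0000090100118000012020124411))) (.br (Nat.shiftLeft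 (nat_lit 0xc000009010013) (nat_lit 64)) (.one (nat_lit 0xc0000090100128000012020126411)) (.br (Nat.shiftLeft (nat_lit 0x3000002404005) (nat_lit 66)) (.one (nat_lit 0xc0000090100138000012020128411)) (.one (nat_lit 0xc000009010014800001202012a411))))))))
def t288 : k288.all (jb2 57 fl b0) = true := by decide +kernel
noncomputable def k289 : KT := (.br (Nat.shiftLeft (nat_lit 0xd000009010013) (nat_lit 64)) (.br (Nat.shiftLeft (nat_lit 0xd) (nat_lit 112)) (.br (Nat.shiftLeft (nat_lit 0xc000009011013) (nat_lit 64)) (.one (nat_lit 0xc0000090110128000012022126411)) (.one (nat_lit 0xc0000090110138000012022128411))) (.br (Nat.shiftLeft (nat_lit 0x6800004808009) (nat_lit 65)) (.one (nat_lit 0xd000009010011a000012020124411)) (.one (nat_lit 0xd000009010012a000012020126411)))) (.br (Nat.shiftLeft (nat_lit 0x7) (nat_lit 113)) (.br (Nat.shiftLeft (nat_lit 0xd000009011) (nat_lit 76)) (.one (nat_lit 0xd000009010013a000012020128411)) (.one (nat_lit 0xd000009011012a000012022126411))) (.br (Nat.shiftLeft (nat_lit 0x7000004808009)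 (nat_lit 65)) (.one (nat_lit 0xe000009010011c000012020124411)) (.br (Nat.shiftLeft (nat_lit 0xf) (nat_lit 112)) (.one (nat_lit 0xe000009010012c000012020126411)) (.one (nat_lit 0xf000009010011e000012020124411))))))
def t289 : k289.all (jb2 57 fl b0) = true := by decide +kernel
noncomputable def s15 : KT := (.br (nat_lit 0x40090100110008012020022540) (.br (nat_lit 0x20090100130004012020026540) (.br (nat_lit 0x10090110130002012022026540) (.br (nat_lit 0x10090100120002012020024540) k271 k272) (.br (nat_lit 0x20090100110004012020022540) k273 k274)) (.br (nat_lit 0x30090100110006012020022540) (.br (nat_lit 0x20090110130004012022026540) k275 k276) (.br (nat_lit 0x30090100130006012020026540) k277 (.br (nat_lit 0x30090110130006012022026540) k278 k279)))) (.br (nat_lit 0x6009010011000c012020022540) (.br (nat_lit 0x40090110130008012022026540) (.br (nat_lit 0x40090100130008012020026540) k280 k281) (.br (nat_lit 0x5009010011000a012020022540) k282 (.br (nat_lit 0x5009010014000a012020028540) k283 k284))) (.br (nat_lit 0x7009011013000e012022026540)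 (.br (nat_lit 0x6009011013000c012022026540) k285 k286) (.br (nat_lit 0x5000009011013a000012022026411) k287 (.br (nat_lit 0xc000009010014800001202012a411) k288 k289)))))
noncomputable def u15 : KT := (.br (Nat.shiftLeft (nat_lit 0x9011013) (nat_lit 64)) (.br (Nat.shiftLeft (nat_lit 0x9010013) (nat_lit 64)) (.br (Nat.shiftLeft (nat_lit 0x4808009) (nat_lit 65)) (.one (nat_lit 0x90100110000012020022430)) (.one (nat_lit 0x90100120000012020024430))) (.br (Nat.shiftLeft (nat_lit 0x2404005) (nat_lit 66)) (.one (nat_lit 0x90100130000012020026430)) (.br (Nat.shiftLeft (nat_lit 0x9011) (nat_lit 76)) (.one (nat_lit 0x90100140000012020028430)) (.one (nat_lit 0x90110120000012022024430))))) (.br (Nat.shiftLeft (nat_lit 0x5005807) (nat_lit 65)) (.br (Nat.shiftLeft (nat_lit 0x5) (nat_lit 89)) (.one (nat_lit 0x90110130000012022026430)) (.br (Nat.shiftLeft (nat_lit 0xa00b00d) (nat_lit 64)) (.one (nat_lit 0xa00b00c0000014016019400)) (.one (nat_lit 0xa00b00d000001401601b400)))) (.br (Nat.shiftLeft (nat_lit 0xa00b00f) (nat_lit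 64)) (.one (nat_lit 0xa00b00e000001401601d400)) (.br (Nat.shiftLeft (nat_lit 0xa00b01) (nat_lit 68)) (.one (nat_lit 0xa00b00f000001401601f400)) (.one (nat_lit 0xa00b0100000014016021400))))))
def w15 : u15.all (wj 57 s15) = true := by decide +kernel
def o15 : OkW 57 (jb2 57 fl) u15 := .lift s15 _ (.br _ _ _ (.br _ _ _ (.br _ _ _ (.br _ _ _ (.leaf b0 k271 t271) (.leaf b0 k272 t272)) (.br _ _ _ (.leaf b0 k273 t273) (.leaf b0 k274 t274))) (.br _ _ _ (.br _ _ _ (.leaf b0 k275 t275) (.leaf b0 k276 t276)) (.br _ _ _ (.leaf b0 k277 t277) (.br _ _ _ (.leaf b0 k278 t278) (.leaf b0 k279 t279))))) (.br _ _ _ (.br _ _ _ (.br _ _ _ (.leaf b0 k280 t280) (.leaf b0 k281 t281)) (.br _ _ _ (.leaf b0 k282 t282) (.br _ _ _ (.leaf b0 k283 t283) (.leaf b0 k284 t284)))) (.br _ _ _ (.br _ _ _ (.leaf b0 k285 t285) (.leaf b0 k286 t286)) (.br _ _ _ (.leaf b0 k287 t287) (.br _ _ _ (.leaf b0 k288 t288) (.leaf b0 k289 t289)))))) w15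
noncomputable def k290 : KT := (.br (Nat.shiftLeft (nat_lit 0x1) (nat_lit 102)) (.br (Nat.shiftLeft (nat_lit 0x1) (nat_lit 101)) (.br (Nat.shiftLeft (nat_lit 0x1) (nat_lit 100)) (.one (nat_lit 0xa00b0110000014016023400)) (.one (nat_lit 0x100a00b0110002014016022540))) (.br (Nat.shiftLeft (nat_lit 0x3) (nat_lit 100)) (.one (nat_lit 0x200a00b0110004014016023500)) (.one (nat_lit 0x300a00b0110006014016023500)))) (.br (Nat.shiftLeft (nat_lit 0x3) (nat_lit 101)) (.br (Nat.shiftLeft (nat_lit 0x5) (nat_lit 100)) (.one (nat_lit 0x400a00b0110008014016023500)) (.one (nat_lit 0x500a00b011000a014016023500))) (.br (Nat.shiftLeft (nat_lit 0x7) (nat_lit 100)) (.one (nat_lit 0x600a00b011000c014016023500)) (.br (Nat.shiftLeft (nat_lit 0x1) (nat_lit 103)) (.one (nat_lit 0x700a00b011000e014016023500)) (.one (nat_lit 0x800a00b0110010014016023500))))))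
def t290 : k290.all (jb2 57 fl b0) = true := by decide +kernel
noncomputable def k291 : KT := (.br (Nat.shiftLeft (nat_lit 0x1) (nat_lit 112)) (.one (nat_lit 0x900a00b0110012014016022540)) (.one (nat_lit 0x100000a00b0112000014016022411)))
def t291 : k291.all (jb2 57 fl b0) = true := by decide +kernel
noncomputable def k292 : KT := (.one (nat_lit 0x100200a00b0112004014016022650))
def t292 : k292.all (jb2 57 fl b0) = true := by decide +kernel
noncomputable def k293 : KT := (.one (nat_lit 0x100300a00b0112006014016022650))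
def t293 : k293.all (jb2 57 fl b0) = true := by decide +kernel
noncomputable def k294 : KT := (.br (Nat.shiftLeft (nat_lit 0x1005) (nat_lit 100)) (.one (nat_lit 0x100400a00b0112008014016022650)) (.one (nat_lit 0x100500a00b011200a014016022650)))
def t294 : k294.all (jb2 57 fl b0) = true := by decide +kernel
noncomputable def k295 : KT := (.br (Nat.shiftLeft (nat_lit 0x201) (nat_lit 103)) (.br (Nat.shiftLeft (nat_lit 0x1007) (nat_lit 100)) (.one (nat_lit 0x100600a00b011200c014016022650)) (.one (nat_lit 0x100700a00b011200e014016022650))) (.br (Nat.shiftLeft (nat_lit 0x1) (nat_lit 113)) (.one (nat_lit 0x100800a00b0112010014016022650)) (.br (Nat.shiftLeft (nat_lit 0x1001) (nat_lit 101)) (.one (nat_lit 0x200000a00b0114000014016022411)) (.one (nat_lit 0x200300a00b0114006014016023600)))))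
def t295 : k295.all (jb2 57 fl b0) = true := by decide +kernel
noncomputable def k296 : KT := (.one (nat_lit 0x200400a00b0114008014016022650))
def t296 : k296.all (jb2 57 fl b0) = true := by decide +kernel
noncomputable def k297 : KT := (.br (Nat.shiftLeft (nat_lit 0x1003) (nat_lit 101)) (.one (nat_lit 0x200500a00b011400a014016022650)) (.one (nat_lit 0x200600a00b011400c014016022650)))
def t297 : k297.all (jb2 57 fl b0) = true := by decide +kernel
noncomputable def k298 : KT := (.br (Nat.shiftLeft (nat_lit 0x401) (nat_lit 103)) (.one (nat_lit 0x200700a00b011400e014016022650)) (.br (Nat.shiftLeft (nat_lit 0x3) (nat_lit 112)) (.one (nat_lit 0x200800a00b0114010014016022650)) (.one (nat_lit 0x300000a00b0116000014016022411))))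
def t298 : k298.all (jb2 57 fl b0) = true := by decide +kernel
noncomputable def k299 : KT := (.one (nat_lit 0x300400a00b0116008014016022650))
def t299 : k299.all (jb2 57 fl b0) = true := by decide +kernel
noncomputable def k300 : KT := (.br (Nat.shiftLeft (nat_lit 0x1803) (nat_lit 101)) (.one (nat_lit 0x300500a00b011600a014016022650)) (.one (nat_lit 0x300600a00b011600c014016022650)))
def t300 : k300.all (jb2 57 fl b0) = true := by decide +kernel
noncomputable def k301 : KT := (.br (Nat.shiftLeft (nat_lit 0x601) (nat_lit 103)) (.one (nat_lit 0x300700a00b011600e014016022650)) (.br (Nat.shiftLeft (nat_lit 0x1) (nat_lit 114)) (.one (nat_lit 0x300800a00b0116010014016022650)) (.one (nat_lit 0x400000a00b0118000014016022411))))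
def t301 : k301.all (jb2 57 fl b0) = true := by decide +kernel
noncomputable def k302 : KT := (.br (Nat.shiftLeft (nat_lit 0x2003) (nat_lit 101)) (.one (nat_lit 0x400500a00b011800a014016022650)) (.one (nat_lit 0x400600a00b011800c014016022650)))
def t302 : k302.all (jb2 57 fl b0) = true := by decide +kernel
noncomputable def k303 : KT := (.br (Nat.shiftLeft (nat_lit 0x5) (nat_lit 112)) (.br (Nat.shiftLeft (nat_lit 0x801) (nat_lit 103)) (.one (nat_lit 0x400700a00b011800e014016022650)) (.one (nat_lit 0x400800a00b0118010014016022650))) (.br (Nat.shiftLeft (nat_lit 0x1401) (nat_lit 102)) (.one (nat_lit 0x500000a00b011a000014016022411)) (.br (Nat.shiftLeft (nat_lit 0x5007) (nat_lit 100)) (.one (nat_lit 0x500600a00b011a00c014016022650)) (.one (nat_lit 0x500700a00b011a00e014016022650)))))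
def t303 : k303.all (jb2 57 fl b0) = true := by decide +kernel
noncomputable def k304 : KT := (.br (Nat.shiftLeft (nat_lit 0x5) (nat_lit 113)) (.br (Nat.shiftLeft (nat_lit 0x7) (nat_lit 112)) (.br (Nat.shiftLeft (nat_lit 0x1801) (nat_lit 102)) (.br (Nat.shiftLeft (nat_lit 0x3) (nat_lit 113)) (.one (nat_lit 0x500800a00b011a010014016022650)) (.one (nat_lit 0x600000a00b011c000014016022411))) (.br (Nat.shiftLeft (nat_lit 0xc01) (nat_lit 103)) (.one (nat_lit 0x600700a00b011c00e014016022650)) (.one (nat_lit 0x600800a00b011c010014016022650)))) (.br (Nat.shiftLeft (nat_lit 0x1) (nat_lit 115)) (.br (Nat.shiftLeft (nat_lit 0xe01) (nat_lit 103)) (.one (nat_lit 0x700000a00b011e000014016022411)) (.one (nat_lit 0x700800a00b011e010014016022650))) (.br (Nat.shiftLeft (nat_lit 0x9) (nat_lit 112)) (.one (nat_lit 0x800000a00b0110000014016124411)) (.one (nat_lit 0x900000a00b0112000014016124411))))) (.br (Nat.shiftLeft (nat_lit 0x400001) (nat_lit 102)) (.br (Nat.shiftLeft (nat_lit 0x1) (nat_lit 124)) (.br (Nat.shiftLeft (nat_lit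 0xb) (nat_lit 112)) (.one (nat_lit 0xa00000a00b0114000014016124411)) (.one (nat_lit 0xb00000a00b0116000014016124411))) (.br (Nat.shiftLeft (nat_lit 0x1000003) (nat_lit 100)) (.one (nat_lit 0x100000200a00b0110004014036422511)) (.one (nat_lit 0x100000300a00b0110006014036422511)))) (.br (Nat.shiftLeft (nat_lit 0x800003) (nat_lit 101)) (.br (Nat.shiftLeft (nat_lit 0x1000005) (nat_lit 100)) (.one (nat_lit 0x100000400a00b0110008014036422511)) (.one (nat_lit 0x100000500a00b011000a014036422511))) (.br (Nat.shiftLeft (nat_lit 0x1000007) (nat_lit 100)) (.one (nat_lit 0x100000600a00b011000c014036422511)) (.br (Nat.shiftLeft (nat_lit 0x200001) (nat_lit 103)) (.one (nat_lit 0x100000700a00b011000e014036422511)) (.one (nat_lit 0x100000800a00b0110010014036422511)))))))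
def t304 : k304.all (jb2 57 fl b0) = true := by decide +kernel
noncomputable def k305 : KT := (.br (Nat.shiftLeft (nat_lit 0xc00001) (nat_lit 102)) (.br (Nat.shiftLeft (nat_lit 0x1000003) (nat_lit 101)) (.br (Nat.shiftLeft (nat_lit 0x2000003) (nat_lit 100)) (.br (Nat.shiftLeft (nat_lit 0x1) (nat_lit 125)) (.one (nat_lit 0x100200300a00b0114006014036422760)) (.one (nat_lit 0x200000200a00b0110004014056822511))) (.br (Nat.shiftLeft (nat_lit 0x800001) (nat_lit 102)) (.one (nat_lit 0x200000300a00b0110006014056822511)) (.br (Nat.shiftLeft (nat_lit 0x2000005) (nat_lit 100)) (.one (nat_lit 0x200000400a00b0110008014056822511)) (.one (nat_lit 0x200000500a00b011000a014056822511))))) (.br (Nat.shiftLeft (nat_lit 0x400001) (nat_lit 103)) (.br (Nat.shiftLeft (nat_lit 0x2000007) (nat_lit 100)) (.one (nat_lit 0x200000600a00b011000c014056822511)) (.one (nat_lit 0x200000700a00b011000e014056822511))) (.br (Nat.shiftLeft (nat_lit 0x3) (nat_lit 124)) (.one (nat_lit 0x200000800a00b0110010014056822511)) (.br (Nat.shiftLeft (nat_lit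 0x3000003) (nat_lit 100)) (.one (nat_lit 0x300000200a00b0110004014076c22511)) (.one (nat_lit 0x300000300a00b0110006014076c22511)))))) (.br (Nat.shiftLeft (nat_lit 0x1) (nat_lit 126)) (.br (Nat.shiftLeft (nat_lit 0x1800003) (nat_lit 101)) (.br (Nat.shiftLeft (nat_lit 0x3000005) (nat_lit 100)) (.one (nat_lit 0x300000400a00b0110008014076c22511)) (.one (nat_lit 0x300000500a00b011000a014076c22511))) (.br (Nat.shiftLeft (nat_lit 0x3000007) (nat_lit 100)) (.one (nat_lit 0x300000600a00b011000c014076c22511)) (.br (Nat.shiftLeft (nat_lit 0x600001) (nat_lit 103)) (.one (nat_lit 0x300000700a00b011000e014076c22511)) (.one (nat_lit 0x300000800a00b0110010014076c22511))))) (.br (Nat.shiftLeft (nat_lit 0x4000005) (nat_lit 100)) (.br (Nat.shiftLeft (nat_lit 0x4000003) (nat_lit 100)) (.one (nat_lit 0x400000200a00b0110004014097022511)) (.br (Nat.shiftLeft (nat_lit 0x1000001) (nat_lit 102)) (.one (nat_lit 0x400000300a00b0110006014097022511)) (.one (nat_lit 0x400000400a00b0110008014097022511)))) (.br (Nat.shiftLeft (nat_lit 0x2000003)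 (nat_lit 101)) (.one (nat_lit 0x400000500a00b011000a014097022511)) (.br (Nat.shiftLeft (nat_lit 0x4000007) (nat_lit 100)) (.one (nat_lit 0x400000600a00b011000c014097022511)) (.one (nat_lit 0x400000700a00b011000e014097022511)))))))
def t305 : k305.all (jb2 57 fl b0) = true := by decide +kernel
noncomputable def k306 : KT := (.br (Nat.shiftLeft (nat_lit 0x5000005) (nat_lit 100)) (.br (Nat.shiftLeft (nat_lit 0x5000003) (nat_lit 100)) (.br (Nat.shiftLeft (nat_lit 0x5) (nat_lit 124)) (.one (nat_lit 0x400000800a00b0110010014097022511)) (.one (nat_lit 0x500000200a00b01100040140b7422511))) (.br (Nat.shiftLeft (nat_lit 0x1400001) (nat_lit 102)) (.one (nat_lit 0x500000300a00b01100060140b7422511)) (.one (nat_lit 0x500000400a00b01100080140b7422511)))) (.br (Nat.shiftLeft (nat_lit 0x5000007) (nat_lit 100)) (.br (Nat.shiftLeft (nat_lit 0x2800003) (nat_lit 101)) (.one (nat_lit 0x500000500a00b011000a0140b7422511)) (.one (nat_lit 0x500000600a00b011000c0140b7422511))) (.br (Nat.shiftLeft (nat_lit 0xa00001) (nat_lit 103)) (.one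 (nat_lit 0x500000700a00b011000e0140b7422511)) (.br (Nat.shiftLeft (nat_lit 0x3) (nat_lit 125)) (.one (nat_lit 0x500000800a00b01100100140b7422511)) (.one (nat_lit 0x600000200a00b01100040140d7822511))))))
def t306 : k306.all (jb2 57 fl b0) = true := by decide +kernel
noncomputable def k307 : KT := (.br (Nat.shiftLeft (nat_lit 0x6000007) (nat_lit 100)) (.br (Nat.shiftLeft (nat_lit 0x6000005) (nat_lit 100)) (.br (Nat.shiftLeft (nat_lit 0x1800001) (nat_lit 102)) (.one (nat_lit 0x600000300a00b01100060140d7822511)) (.one (nat_lit 0x600000400a00b01100080140d7822511))) (.br (Nat.shiftLeft (nat_lit 0x3000003) (nat_lit 101)) (.one (nat_lit 0x600000500a00b011000a0140d7822511)) (.one (nat_lit 0x600000600a00b011000c0140d7822511)))) (.br (Nat.shiftLeft (nat_lit 0x7) (nat_lit 124)) (.br (Nat.shiftLeft (nat_lit 0xc00001) (nat_lit 103)) (.one (nat_lit 0x600000700a00b011000e0140d7822511)) (.one (nat_lit 0x600000800a00b01100100140d7822511))) (.br (Nat.shiftLeft (nat_lit 0x7000003) (nat_lit 100)) (.one (nat_lit 0x700000200a00b01100040140f7c22511))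 (.br (Nat.shiftLeft (nat_lit 0x1c00001) (nat_lit 102)) (.one (nat_lit 0x700000300a00b01100060140f7c22511)) (.one (nat_lit 0x700000400a00b01100080140f7c22511))))))
def t307 : k307.all (jb2 57 fl b0) = true := by decide +kernel
noncomputable def k308 : KT := (.br (Nat.shiftLeft (nat_lit 0x8000005) (nat_lit 100)) (.br (Nat.shiftLeft (nat_lit 0xe00001) (nat_lit 103)) (.br (Nat.shiftLeft (nat_lit 0x3800003) (nat_lit 101)) (.one (nat_lit 0x700000500a00b011000a0140f7c22511)) (.br (Nat.shiftLeft (nat_lit 0x7000007) (nat_lit 100)) (.one (nat_lit 0x700000600a00b011000c0140f7c22511)) (.one (nat_lit 0x700000700a00b011000e0140f7c22511)))) (.br (Nat.shiftLeft (nat_lit 0x8000003) (nat_lit 100)) (.br (Nat.shiftLeft (nat_lit 0x1) (nat_lit 127)) (.one (nat_lit 0x700000800a00b01100100140f7c22511)) (.one (nat_lit 0x800000200a00b0110004014118022511))) (.br (Nat.shiftLeft (nat_lit 0x2000001) (nat_lit 102)) (.one (nat_lit 0x800000300a00b0110006014118022511)) (.one (nat_lit 0x800000400a00b0110008014118022511))))) (.br (Nat.shiftLeft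 (nat_lit 0x9) (nat_lit 124)) (.br (Nat.shiftLeft (nat_lit 0x8000007) (nat_lit 100)) (.br (Nat.shiftLeft (nat_lit 0x4000003) (nat_lit 101)) (.one (nat_lit 0x800000500a00b011000a014118022511)) (.one (nat_lit 0x800000600a00b011000c014118022511))) (.br (Nat.shiftLeft (nat_lit 0x1000001) (nat_lit 103)) (.one (nat_lit 0x800000700a00b011000e014118022511)) (.one (nat_lit 0x800000800a00b0110010014118022511)))) (.br (Nat.shiftLeft (nat_lit 0x2400001) (nat_lit 102)) (.br (Nat.shiftLeft (nat_lit 0x9000003) (nat_lit 100)) (.one (nat_lit 0x900000200a00b0110004014138422511)) (.one (nat_lit 0x900000300a00b0110006014138422511))) (.br (Nat.shiftLeft (nat_lit 0x9000005) (nat_lit 100)) (.one (nat_lit 0x900000400a00b0110008014138422511)) (.one (nat_lit 0x900000500a00b011000a014138422511))))))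
def t308 : k308.all (jb2 57 fl b0) = true := by decide +kernel
noncomputable def k309 : KT := (.br (Nat.shiftLeft (nat_lit 0x5800003) (nat_lit 101)) (.br (Nat.shiftLeft (nat_lit 0x5000003) (nat_lit 101)) (.br (Nat.shiftLeft (nat_lit 0x5) (nat_lit 125)) (.br (Nat.shiftLeft (nat_lit 0x9000007) (nat_lit 100)) (.one (nat_lit 0x900000600a00b011000c014138422511)) (.br (Nat.shiftLeft (nat_lit 0x1200001) (nat_lit 103)) (.one (nat_lit 0x900000700a00b011000e014138422511)) (.one (nat_lit 0x900000800a00b0110010014138422511)))) (.br (Nat.shiftLeft (nat_lit 0x2800001) (nat_lit 102)) (.br (Nat.shiftLeft (nat_lit 0xa000003) (nat_lit 100)) (.one (nat_lit 0xa00000200a00b0110004014158822511)) (.one (nat_lit 0xa00000300a00b0110006014158822511))) (.br (Nat.shiftLeft (nat_lit 0xa000005) (nat_lit 100)) (.one (nat_lit 0xa00000400a00b0110008014158822511)) (.one (nat_lit 0xa00000500a00b011000a014158822511))))) (.br (Nat.shiftLeft (nat_lit 0xb) (nat_lit 124)) (.br (Nat.shiftLeft (nat_lit 0xa000007) (nat_lit 100)) (.one (nat_lit 0xa00000600a00b011000c014158822511))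 (.br (Nat.shiftLeft (nat_lit 0x1400001) (nat_lit 103)) (.one (nat_lit 0xa00000700a00b011000e014158822511)) (.one (nat_lit 0xa00000800a00b0110010014158822511)))) (.br (Nat.shiftLeft (nat_lit 0x2c00001) (nat_lit 102)) (.br (Nat.shiftLeft (nat_lit 0xb000003) (nat_lit 100)) (.one (nat_lit 0xb00000200a00b0110004014178c22511)) (.one (nat_lit 0xb00000300a00b0110006014178c22511))) (.br (Nat.shiftLeft (nat_lit 0xb000005) (nat_lit 100)) (.one (nat_lit 0xb00000400a00b0110008014178c22511)) (.one (nat_lit 0xb00000500a00b011000a014178c22511)))))) (.br (Nat.shiftLeft (nat_lit 0x5) (nat_lit 136)) (.br (Nat.shiftLeft (nat_lit 0x1) (nat_lit 136)) (.br (Nat.shiftLeft (nat_lit 0xb000007) (nat_lit 100)) (.one (nat_lit 0xb00000600a00b011000c014178c22511)) (.br (Nat.shiftLeft (nat_lit 0x1600001) (nat_lit 103)) (.one (nat_lit 0xb00000700a00b011000e014178c22511)) (.one (nat_lit 0xb00000800a00b0110010014178c22511)))) (.br (Nat.shiftLeft (nat_lit 0x3) (nat_lit 136)) (.br (Nat.shiftLeft (nat_lit 0x1) (nat_lit 137)) (.one (nat_lit 0x100000200300a00b0114006034416022611))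 (.one (nat_lit 0x200000200300a00b0114006054816022611))) (.br (Nat.shiftLeft (nat_lit 0x1) (nat_lit 138)) (.one (nat_lit 0x300000200300a00b0114006074c16022611)) (.one (nat_lit 0x400000200300a00b0114006095016022611))))) (.br (Nat.shiftLeft (nat_lit 0x1) (nat_lit 139)) (.br (Nat.shiftLeft (nat_lit 0x3) (nat_lit 137)) (.one (nat_lit 0x500000200300a00b01140060b5416022611)) (.br (Nat.shiftLeft (nat_lit 0x7) (nat_lit 136)) (.one (nat_lit 0x600000200300a00b01140060d5816022611)) (.one (nat_lit 0x700000200300a00b01140060f5c16022611)))) (.br (Nat.shiftLeft (nat_lit 0x5) (nat_lit 137)) (.br (Nat.shiftLeft (nat_lit 0x9) (nat_lit 136)) (.one (nat_lit 0x800000200300a00b0114006116016022611)) (.one (nat_lit 0x900000200300a00b0114006136416022611))) (.br (Nat.shiftLeft (nat_lit 0xb) (nat_lit 136)) (.one (nat_lit 0xa00000200300a00b0114006156816022611)) (.one (nat_lit 0xb00000200300a00b0114006176c16022611)))))))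
def t309 : k309.all (jb2 57 fl b0) = true := by decide +kernel
noncomputable def s16 : KT := (.br (nat_lit 0x300400a00b0116008014016022650) (.br (nat_lit 0x100500a00b011200a014016022650) (.br (nat_lit 0x100000a00b0112000014016022411) (.br (nat_lit 0x800a00b0110010014016023500) k290 k291) (.br (nat_lit 0x100200a00b0112004014016022650) k292 (.br (nat_lit 0x100300a00b0112006014016022650) k293 k294))) (.br (nat_lit 0x200400a00b0114008014016022650) (.br (nat_lit 0x200300a00b0114006014016023600) k295 k296) (.br (nat_lit 0x200600a00b011400c014016022650) k297 (.br (nat_lit 0x300000a00b0116000014016022411) k298 k299)))) (.br (nat_lit 0x100000800a00b0110010014036422511) (.br (nat_lit 0x400000a00b0118000014016022411) (.br (nat_lit 0x300600a00b011600c014016022650) k300 k301) (.br (nat_lit 0x400600a00b011800c014016022650) k302 (.br (nat_lit 0x500700a00b011a00e014016022650) k303 k304))) (.br (nat_lit 0x600000200a00b01100040140d7822511) (.br (nat_lit 0x400000700a00b011000e014097022511) k305 k306) (.br (nat_lit 0x700000400a00b01100080140f7c22511)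 k307 (.br (nat_lit 0x900000500a00b011000a014138422511) k308 k309)))))
noncomputable def u16 : KT := (.one (nat_lit 0xa00b0110000014016022430))
def w16 : u16.all (wj 57 s16) = true := by decide +kernel
def o16 : OkW 57 (jb2 57 fl) u16 := .lift s16 _ (.br _ _ _ (.br _ _ _ (.br _ _ _ (.br _ _ _ (.leaf b0 k290 t290) (.leaf b0 k291 t291)) (.br _ _ _ (.leaf b0 k292 t292) (.br _ _ _ (.leaf b0 k293 t293) (.leaf b0 k294 t294)))) (.br _ _ _ (.br _ _ _ (.leaf b0 k295 t295) (.leaf b0 k296 t296)) (.br _ _ _ (.leaf b0 k297 t297) (.br _ _ _ (.leaf b0 k298 t298) (.leaf b0 k299 t299))))) (.br _ _ _ (.br _ _ _ (.br _ _ _ (.leaf b0 k300 t300) (.leaf b0 k301 t301)) (.br _ _ _ (.leaf b0 k302 t302) (.br _ _ _ (.leaf b0 k303 t303) (.leaf b0 k304 t304)))) (.br _ _ _ (.br _ _ _ (.leaf b0 k305 t305) (.leaf b0 k306 t306)) (.br _ _ _ (.leaf b0 k307 t307) (.br _ _ _ (.leaf b0 k308 t308) (.leaf b0 k309 t309)))))) w16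
noncomputable def k310 : KT := (.br (Nat.shiftLeft (nat_lit 0x1) (nat_lit 102)) (.br (Nat.shiftLeft (nat_lit 0x1) (nat_lit 101)) (.br (Nat.shiftLeft (nat_lit 0x1) (nat_lit 100)) (.one (nat_lit 0xa00b0120000014016025400)) (.one (nat_lit 0x100a00b0120002014016024540))) (.br (Nat.shiftLeft (nat_lit 0x3) (nat_lit 100)) (.one (nat_lit 0x200a00b0120004014016025500)) (.one (nat_lit 0x300a00b0120006014016025500)))) (.br (Nat.shiftLeft (nat_lit 0x3) (nat_lit 101)) (.br (Nat.shiftLeft (nat_lit 0x5) (nat_lit 100)) (.one (nat_lit 0x400a00b0120008014016025500)) (.one (nat_lit 0x500a00b012000a014016025500))) (.br (Nat.shiftLeft (nat_lit 0x7) (nat_lit 100)) (.one (nat_lit 0x600a00b012000c014016025500)) (.one (nat_lit 0x700a00b012000e014016025500)))))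
def t310 : k310.all (jb2 57 fl b0) = true := by decide +kernel
noncomputable def k311 : KT := (.one (nat_lit 0x800a00b0120010014016024540))
def t311 : k311.all (jb2 57 fl b0) = true := by decide +kernel
noncomputable def k312 : KT := (.br (Nat.shiftLeft (nat_lit 0x1) (nat_lit 112)) (.one (nat_lit 0x900a00b0120012014016024540)) (.one (nat_lit 0x100000a00b0122000014016024411)))
def t312 : k312.all (jb2 57 fl b0) = true := by decide +kernel
noncomputable def k313 : KT := (.one (nat_lit 0x100200a00b0122004014016024650))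
def t313 : k313.all (jb2 57 fl b0) = true := by decide +kernel
noncomputable def k314 : KT := (.br (Nat.shiftLeft (nat_lit 0x401) (nat_lit 102)) (.one (nat_lit 0x100300a00b0122006014016024650)) (.one (nat_lit 0x100400a00b0122008014016024650)))
def t314 : k314.all (jb2 57 fl b0) = true := by decide +kernel
noncomputable def k315 : KT := (.br (Nat.shiftLeft (nat_lit 0x1007) (nat_lit 100)) (.br (Nat.shiftLeft (nat_lit 0x803) (nat_lit 101)) (.one (nat_lit 0x100500a00b012200a014016024650)) (.one (nat_lit 0x100600a00b012200c014016024650))) (.br (Nat.shiftLeft (nat_lit 0x1) (nat_lit 113)) (.one (nat_lit 0x100700a00b012200e014016024650)) (.one (nat_lit 0x200000a00b0124000014016024411))))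
def t315 : k315.all (jb2 57 fl b0) = true := by decide +kernel
noncomputable def k316 : KT := (.one (nat_lit 0x200300a00b0124006014016024650))
def t316 : k316.all (jb2 57 fl b0) = true := by decide +kernel
noncomputable def k317 : KT := (.br (Nat.shiftLeft (nat_lit 0x2005) (nat_lit 100)) (.one (nat_lit 0x200400a00b0124008014016024650)) (.one (nat_lit 0x200500a00b012400a014016024650)))
def t317 : k317.all (jb2 57 fl b0) = true := by decide +kernel
noncomputable def k318 : KT := (.br (Nat.shiftLeft (nat_lit 0x2007) (nat_lit 100)) (.one (nat_lit 0x200600a00b012400c014016024650)) (.br (Nat.shiftLeft (nat_lit 0x3) (nat_lit 112)) (.one (nat_lit 0x200700a00b012400e014016024650)) (.one (nat_lit 0x300000a00b0126000014016024411))))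
def t318 : k318.all (jb2 57 fl b0) = true := by decide +kernel
noncomputable def k319 : KT := (.br (Nat.shiftLeft (nat_lit 0x3005) (nat_lit 100)) (.one (nat_lit 0x300400a00b0126008014016024650)) (.one (nat_lit 0x300500a00b012600a014016024650)))
def t319 : k319.all (jb2 57 fl b0) = true := by decide +kernel
noncomputable def k320 : KT := (.br (Nat.shiftLeft (nat_lit 0x1) (nat_lit 114)) (.br (Nat.shiftLeft (nat_lit 0x3007) (nat_lit 100)) (.one (nat_lit 0x300600a00b012600c014016024650)) (.one (nat_lit 0x300700a00b012600e014016024650))) (.br (Nat.shiftLeft (nat_lit 0x1001) (nat_lit 102)) (.one (nat_lit 0x400000a00b0128000014016024411)) (.one (nat_lit 0x400500a00b012800a014016024650))))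
def t320 : k320.all (jb2 57 fl b0) = true := by decide +kernel
noncomputable def k321 : KT := (.br (Nat.shiftLeft (nat_lit 0x5007) (nat_lit 100)) (.br (Nat.shiftLeft (nat_lit 0x5) (nat_lit 112)) (.br (Nat.shiftLeft (nat_lit 0x4007) (nat_lit 100)) (.one (nat_lit 0x400600a00b012800c014016024650)) (.one (nat_lit 0x400700a00b012800e014016024650))) (.br (Nat.shiftLeft (nat_lit 0x1401) (nat_lit 102)) (.one (nat_lit 0x500000a00b012a000014016024411)) (.one (nat_lit 0x500600a00b012a00c014016024650)))) (.br (Nat.shiftLeft (nat_lit 0x1801) (nat_lit 102)) (.br (Nat.shiftLeft (nat_lit 0x3) (nat_lit 113)) (.one (nat_lit 0x500700a00b012a00e014016024650)) (.one (nat_lit 0x600000a00b012c000014016024411))) (.br (Nat.shiftLeft (nat_lit 0x7) (nat_lit 112)) (.one (nat_lit 0x600700a00b012c00e014016024650)) (.br (Nat.shiftLeft (nat_lit 0x1) (nat_lit 115)) (.one (nat_lit 0x700000a00b012e000014016024411)) (.one (nat_lit 0x800000a00b0120000014016126411))))))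
def t321 : k321.all (jb2 57 fl b0) = true := by decide +kernel
noncomputable def k322 : KT := (.br (Nat.shiftLeft (nat_lit 0x2000007) (nat_lit 100)) (.br (Nat.shiftLeft (nat_lit 0x800003) (nat_lit 101)) (.br (Nat.shiftLeft (nat_lit 0x1) (nat_lit 124)) (.br (Nat.shiftLeft (nat_lit 0x5) (nat_lit 113)) (.one (nat_lit 0x900000a00b0122000014016126411)) (.br (Nat.shiftLeft (nat_lit 0xb) (nat_lit 112)) (.one (nat_lit 0xa00000a00b0124000014016126411)) (.one (nat_lit 0xb00000a00b0126000014016126411)))) (.br (Nat.shiftLeft (nat_lit 0x400001) (nat_lit 102)) (.br (Nat.shiftLeft (nat_lit 0x1000003) (nat_lit 100)) (.one (nat_lit 0x100000200a00b0120004014036424511)) (.one (nat_lit 0x100000300a00b0120006014036424511))) (.br (Nat.shiftLeft (nat_lit 0x1000005) (nat_lit 100)) (.one (nat_lit 0x100000400a00b0120008014036424511)) (.one (nat_lit 0x100000500a00b012000a014036424511))))) (.br (Nat.shiftLeft (nat_lit 0x2000003) (nat_lit 100)) (.br (Nat.shiftLeft (nat_lit 0x1000007) (nat_lit 100)) (.one (nat_lit 0x100000600a00b012000c014036424511))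 (.br (Nat.shiftLeft (nat_lit 0x1) (nat_lit 125)) (.one (nat_lit 0x100000700a00b012000e014036424511)) (.one (nat_lit 0x200000200a00b0120004014056824511)))) (.br (Nat.shiftLeft (nat_lit 0x2000005) (nat_lit 100)) (.br (Nat.shiftLeft (nat_lit 0x800001) (nat_lit 102)) (.one (nat_lit 0x200000300a00b0120006014056824511)) (.one (nat_lit 0x200000400a00b0120008014056824511))) (.br (Nat.shiftLeft (nat_lit 0x1000003) (nat_lit 101)) (.one (nat_lit 0x200000500a00b012000a014056824511)) (.one (nat_lit 0x200000600a00b012000c014056824511)))))) (.br (Nat.shiftLeft (nat_lit 0x1) (nat_lit 126)) (.br (Nat.shiftLeft (nat_lit 0xc00001) (nat_lit 102)) (.br (Nat.shiftLeft (nat_lit 0x3) (nat_lit 124)) (.one (nat_lit 0x200000700a00b012000e014056824511)) (.br (Nat.shiftLeft (nat_lit 0x3000003) (nat_lit 100)) (.one (nat_lit 0x300000200a00b0120004014076c24511)) (.one (nat_lit 0x300000300a00b0120006014076c24511)))) (.br (Nat.shiftLeft (nat_lit 0x1800003) (nat_lit 101)) (.br (Nat.shiftLeft (nat_lit 0x3000005) (nat_lit 100)) (.one (nat_lit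 0x300000400a00b0120008014076c24511)) (.one (nat_lit 0x300000500a00b012000a014076c24511))) (.br (Nat.shiftLeft (nat_lit 0x3000007) (nat_lit 100)) (.one (nat_lit 0x300000600a00b012000c014076c24511)) (.one (nat_lit 0x300000700a00b012000e014076c24511))))) (.br (Nat.shiftLeft (nat_lit 0x2000003) (nat_lit 101)) (.br (Nat.shiftLeft (nat_lit 0x1000001) (nat_lit 102)) (.br (Nat.shiftLeft (nat_lit 0x4000003) (nat_lit 100)) (.one (nat_lit 0x400000200a00b0120004014097024511)) (.one (nat_lit 0x400000300a00b0120006014097024511))) (.br (Nat.shiftLeft (nat_lit 0x4000005) (nat_lit 100)) (.one (nat_lit 0x400000400a00b0120008014097024511)) (.one (nat_lit 0x400000500a00b012000a014097024511)))) (.br (Nat.shiftLeft (nat_lit 0x5) (nat_lit 124)) (.br (Nat.shiftLeft (nat_lit 0x4000007) (nat_lit 100)) (.one (nat_lit 0x400000600a00b012000c014097024511)) (.one (nat_lit 0x400000700a00b012000e014097024511))) (.br (Nat.shiftLeft (nat_lit 0x5000003) (nat_lit 100)) (.one (nat_lit 0x500000200a00b01200040140b7424511)) (.one (nat_lit 0x500000300a00b01200060140b7424511)))))))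
def t322 : k322.all (jb2 57 fl b0) = true := by decide +kernel
noncomputable def k323 : KT := (.br (Nat.shiftLeft (nat_lit 0x6000003) (nat_lit 100)) (.br (Nat.shiftLeft (nat_lit 0x2800003) (nat_lit 101)) (.br (Nat.shiftLeft (nat_lit 0x5000005) (nat_lit 100)) (.one (nat_lit 0x500000400a00b01200080140b7424511)) (.one (nat_lit 0x500000500a00b012000a0140b7424511))) (.br (Nat.shiftLeft (nat_lit 0x5000007) (nat_lit 100)) (.one (nat_lit 0x500000600a00b012000c0140b7424511)) (.br (Nat.shiftLeft (nat_lit 0x3) (nat_lit 125)) (.one (nat_lit 0x500000700a00b012000e0140b7424511)) (.one (nat_lit 0x600000200a00b01200040140d7824511))))) (.br (Nat.shiftLeft (nat_lit 0x3000003) (nat_lit 101)) (.br (Nat.shiftLeft (nat_lit 0x1800001) (nat_lit 102)) (.one (nat_lit 0x600000300a00b01200060140d7824511)) (.br (Nat.shiftLeft (nat_lit 0x6000005) (nat_lit 100)) (.one (nat_lit 0x600000400a00b01200080140d7824511)) (.one (nat_lit 0x600000500a00b012000a0140d7824511)))) (.br (Nat.shiftLeft (nat_lit 0x6000007) (nat_lit 100)) (.one (nat_lit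 0x600000600a00b012000c0140d7824511)) (.br (Nat.shiftLeft (nat_lit 0x7) (nat_lit 124)) (.one (nat_lit 0x600000700a00b012000e0140d7824511)) (.one (nat_lit 0x700000200a00b01200040140f7c24511))))))
def t323 : k323.all (jb2 57 fl b0) = true := by decide +kernel
noncomputable def k324 : KT := (.br (Nat.shiftLeft (nat_lit 0x9) (nat_lit 124)) (.br (Nat.shiftLeft (nat_lit 0x1) (nat_lit 127)) (.br (Nat.shiftLeft (nat_lit 0x7000005) (nat_lit 100)) (.br (Nat.shiftLeft (nat_lit 0x1c00001) (nat_lit 102)) (.one (nat_lit 0x700000300a00b01200060140f7c24511)) (.one (nat_lit 0x700000400a00b01200080140f7c24511))) (.br (Nat.shiftLeft (nat_lit 0x3800003) (nat_lit 101)) (.one (nat_lit 0x700000500a00b012000a0140f7c24511)) (.br (Nat.shiftLeft (nat_lit 0x7000007) (nat_lit 100)) (.one (nat_lit 0x700000600a00b012000c0140f7c24511)) (.one (nat_lit 0x700000700a00b012000e0140f7c24511))))) (.br (Nat.shiftLeft (nat_lit 0x8000005) (nat_lit 100)) (.br (Nat.shiftLeft (nat_lit 0x8000003) (nat_lit 100)) (.one (nat_lit 0x800000200a00b0120004014118024511))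 (.br (Nat.shiftLeft (nat_lit 0x2000001) (nat_lit 102)) (.one (nat_lit 0x800000300a00b0120006014118024511)) (.one (nat_lit 0x800000400a00b0120008014118024511)))) (.br (Nat.shiftLeft (nat_lit 0x4000003) (nat_lit 101)) (.one (nat_lit 0x800000500a00b012000a014118024511)) (.br (Nat.shiftLeft (nat_lit 0x8000007) (nat_lit 100)) (.one (nat_lit 0x800000600a00b012000c014118024511)) (.one (nat_lit 0x800000700a00b012000e014118024511)))))) (.br (Nat.shiftLeft (nat_lit 0x9000007) (nat_lit 100)) (.br (Nat.shiftLeft (nat_lit 0x2400001) (nat_lit 102)) (.br (Nat.shiftLeft (nat_lit 0x9000003) (nat_lit 100)) (.one (nat_lit 0x900000200a00b0120004014138424511)) (.one (nat_lit 0x900000300a00b0120006014138424511))) (.br (Nat.shiftLeft (nat_lit 0x9000005) (nat_lit 100)) (.one (nat_lit 0x900000400a00b0120008014138424511)) (.br (Nat.shiftLeft (nat_lit 0x4800003) (nat_lit 101)) (.one (nat_lit 0x900000500a00b012000a014138424511)) (.one (nat_lit 0x900000600a00b012000c014138424511))))) (.br (Nat.shiftLeft (nat_lit 0x2800001) (nat_lit 102))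 (.br (Nat.shiftLeft (nat_lit 0x5) (nat_lit 125)) (.one (nat_lit 0x900000700a00b012000e014138424511)) (.br (Nat.shiftLeft (nat_lit 0xa000003) (nat_lit 100)) (.one (nat_lit 0xa00000200a00b0120004014158824511)) (.one (nat_lit 0xa00000300a00b0120006014158824511)))) (.br (Nat.shiftLeft (nat_lit 0xa000005) (nat_lit 100)) (.one (nat_lit 0xa00000400a00b0120008014158824511)) (.br (Nat.shiftLeft (nat_lit 0x5000003) (nat_lit 101)) (.one (nat_lit 0xa00000500a00b012000a014158824511)) (.one (nat_lit 0xa00000600a00b012000c014158824511)))))))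
def t324 : k324.all (jb2 57 fl b0) = true := by decide +kernel
noncomputable def k325 : KT := (.br (Nat.shiftLeft (nat_lit 0x2c00001) (nat_lit 102)) (.br (Nat.shiftLeft (nat_lit 0xb) (nat_lit 124)) (.one (nat_lit 0xa00000700a00b012000e014158824511)) (.br (Nat.shiftLeft (nat_lit 0xb000003) (nat_lit 100)) (.one (nat_lit 0xb00000200a00b0120004014178c24511)) (.one (nat_lit 0xb00000300a00b0120006014178c24511)))) (.br (Nat.shiftLeft (nat_lit 0x5800003) (nat_lit 101)) (.br (Nat.shiftLeft (nat_lit 0xb000005) (nat_lit 100)) (.one (nat_lit 0xb00000400a00b0120008014178c24511)) (.one (nat_lit 0xb00000500a00b012000a014178c24511))) (.br (Nat.shiftLeft (nat_lit 0xb000007) (nat_lit 100)) (.one (nat_lit 0xb00000600a00b012000c014178c24511)) (.one (nat_lit 0xb00000700a00b012000e014178c24511)))))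
def t325 : k325.all (jb2 57 fl b0) = true := by decide +kernel
noncomputable def s17 : KT := (.br (nat_lit 0x200500a00b012400a014016024650) (.br (nat_lit 0x100200a00b0122004014016024650) (.br (nat_lit 0x800a00b0120010014016024540) (.br (nat_lit 0x700a00b012000e014016025500) k310 k311) (.br (nat_lit 0x100000a00b0122000014016024411) k312 k313)) (.br (nat_lit 0x200000a00b0124000014016024411) (.br (nat_lit 0x100400a00b0122008014016024650) k314 k315) (.br (nat_lit 0x200300a00b0124006014016024650) k316 k317))) (.br (nat_lit 0x800000a00b0120000014016126411) (.br (nat_lit 0x300500a00b012600a014016024650) (.br (nat_lit 0x300000a00b0126000014016024411) k318 k319) (.br (nat_lit 0x400500a00b012800a014016024650) k320 k321)) (.br (nat_lit 0x700000200a00b01200040140f7c24511) (.br (nat_lit 0x500000300a00b01200060140b7424511) k322 k323) (.br (nat_lit 0xa00000600a00b012000c014158824511) k324 k325))))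
noncomputable def u17 : KT := (.one (nat_lit 0xa00b0120000014016024430))
def w17 : u17.all (wj 57 s17) = true := by decide +kernel
def o17 : OkW 57 (jb2 57 fl) u17 := .lift s17 _ (.br _ _ _ (.br _ _ _ (.br _ _ _ (.br _ _ _ (.leaf b0 k310 t310) (.leaf b0 k311 t311)) (.br _ _ _ (.leaf b0 k312 t312) (.leaf b0 k313 t313))) (.br _ _ _ (.br _ _ _ (.leaf b0 k314 t314) (.leaf b0 k315 t315)) (.br _ _ _ (.leaf b0 k316 t316) (.leaf b0 k317 t317)))) (.br _ _ _ (.br _ _ _ (.br _ _ _ (.leaf b0 k318 t318) (.leaf b0 k319 t319)) (.br _ _ _ (.leaf b0 k320 t320) (.leaf b0 k321 t321))) (.br _ _ _ (.br _ _ _ (.leaf b0 k322 t322) (.leaf b0 k323 t323)) (.br _ _ _ (.leaf b0 k324 t324) (.leaf b0 k325 t325))))) w17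
noncomputable def k326 : KT := (.br (Nat.shiftLeft (nat_lit 0xa00b015) (nat_lit 64)) (.br (Nat.shiftLeft (nat_lit 0x2802c05) (nat_lit 66)) (.one (nat_lit 0xa00b0130000014016027400)) (.one (nat_lit 0xa00b0140000014016029400))) (.br (Nat.shiftLeft (nat_lit 0x1) (nat_lit 100)) (.one (nat_lit 0xa00b015000001401602b400)) (.one (nat_lit 0x100a00b0130002014016026540))))
def t326 : k326.all (jb2 57 fl b0) = true := by decide +kernel
noncomputable def k327 : KT := (.br (Nat.shiftLeft (nat_lit 0x100a00b015) (nat_lit 64)) (.one (nat_lit 0x100a00b0140002014016028540)) (.br (Nat.shiftLeft (nat_lit 0x1) (nat_lit 101)) (.one (nat_lit 0x100a00b015000201401602a540)) (.one (nat_lit 0x200a00b0130004014016027500))))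
def t327 : k327.all (jb2 57 fl b0) = true := by decide +kernel
noncomputable def k328 : KT := (.one (nat_lit 0x200a00b0140004014016028540))
def t328 : k328.all (jb2 57 fl b0) = true := by decide +kernel
noncomputable def k329 : KT := (.br (Nat.shiftLeft (nat_lit 0x3) (nat_lit 100)) (.one (nat_lit 0x200a00b015000401401602a540)) (.br (Nat.shiftLeft (nat_lit 0xc02802c05) (nat_lit 66)) (.one (nat_lit 0x300a00b0130006014016027500)) (.one (nat_lit 0x300a00b0140006014016029500))))
def t329 : k329.all (jb2 57 fl b0) = true := by decide +kernel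
noncomputable def k330 : KT := (.br (Nat.shiftLeft (nat_lit 0x1) (nat_lit 102)) (.one (nat_lit 0x300a00b015000601401602a540)) (.br (Nat.shiftLeft (nat_lit 0x1002802c05) (nat_lit 66)) (.one (nat_lit 0x400a00b0130008014016027500)) (.one (nat_lit 0x400a00b0140008014016029500))))
def t330 : k330.all (jb2 57 fl b0) = true := by decide +kernel
noncomputable def k331 : KT := (.br (Nat.shiftLeft (nat_lit 0x5) (nat_lit 100)) (.one (nat_lit 0x400a00b015000801401602a540)) (.one (nat_lit 0x500a00b013000a014016027500)))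
def t331 : k331.all (jb2 57 fl b0) = true := by decide +kernel
noncomputable def k332 : KT := (.one (nat_lit 0x500a00b014000a014016028540))
def t332 : k332.all (jb2 57 fl b0) = true := by decide +kernel
noncomputable def k333 : KT := (.br (Nat.shiftLeft (nat_lit 0x3) (nat_lit 101)) (.one (nat_lit 0x500a00b015000a01401602a540)) (.one (nat_lit 0x600a00b013000c014016027500)))
def t333 : k333.all (jb2 57 fl b0) = true := by decide +kernel
noncomputable def k334 : KT := (.one (nat_lit 0x600a00b014000c014016028540))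
def t334 : k334.all (jb2 57 fl b0) = true := by decide +kernel
noncomputable def k335 : KT := (.one (nat_lit 0x600a00b015000c01401602a540))
def t335 : k335.all (jb2 57 fl b0) = true := by decide +kernel
noncomputable def k336 : KT := (.one (nat_lit 0x700a00b013000e014016026540))
def t336 : k336.all (jb2 57 fl b0) = true := by decide +kernel
noncomputable def k337 : KT := (.br (Nat.shiftLeft (nat_lit 0x700a00b015) (nat_lit 64)) (.one (nat_lit 0x700a00b014000e014016028540)) (.one (nat_lit 0x700a00b015000e01401602a540)))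
def t337 : k337.all (jb2 57 fl b0) = true := by decide +kernel
noncomputable def k338 : KT := (.br (Nat.shiftLeft (nat_lit 0x2002802c05) (nat_lit 66)) (.one (nat_lit 0x800a00b0130010014016026540)) (.one (nat_lit 0x800a00b0140010014016028540)))
def t338 : k338.all (jb2 57 fl b0) = true := by decide +kernel
noncomputable def k339 : KT := (.br (Nat.shiftLeft (nat_lit 0x900a00b015) (nat_lit 64)) (.br (Nat.shiftLeft (nat_lit 0x9) (nat_lit 100)) (.one (nat_lit 0x800a00b015001001401602a540)) (.br (Nat.shiftLeft (nat_lit 0x2402802c05) (nat_lit 66)) (.one (nat_lit 0x900a00b0130012014016026540)) (.one (nat_lit 0x900a00b0140012014016028540)))) (.br (Nat.shiftLeft (nat_lit 0x400002802c05) (nat_lit 66)) (.br (Nat.shiftLeft (nat_lit 0x1) (nat_lit 112)) (.one (nat_lit 0x900a00b015001201401602a540)) (.one (nat_lit 0x100000a00b0132000014016026411))) (.br (Nat.shiftLeft (nat_lit 0x100000a00b015) (nat_lit 64)) (.one (nat_lit 0x100000a00b0142000014016028411)) (.one (nat_lit 0x100000a00b015200001401602a411)))))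
def t339 : k339.all (jb2 57 fl b0) = true := by decide +kernel
noncomputable def k340 : KT := (.br (Nat.shiftLeft (nat_lit 0x1003) (nat_lit 100)) (.one (nat_lit 0x100200a00b0132004014016026650)) (.one (nat_lit 0x100300a00b0132006014016026650)))
def t340 : k340.all (jb2 57 fl b0) = true := by decide +kernel
noncomputable def k341 : KT := (.br (Nat.shiftLeft (nat_lit 0x401) (nat_lit 102)) (.one (nat_lit 0x100300a00b0142006014016028650)) (.br (Nat.shiftLeft (nat_lit 0x401002802c05) (nat_lit 66)) (.one (nat_lit 0x100400a00b0132008014016026650)) (.one (nat_lit 0x100400a00b0142008014016028650))))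
def t341 : k341.all (jb2 57 fl b0) = true := by decide +kernel
noncomputable def k342 : KT := (.br (Nat.shiftLeft (nat_lit 0x800002802c05) (nat_lit 66)) (.br (Nat.shiftLeft (nat_lit 0x803) (nat_lit 101)) (.one (nat_lit 0x100500a00b013200a014016026650)) (.br (Nat.shiftLeft (nat_lit 0x1) (nat_lit 113)) (.one (nat_lit 0x100600a00b013200c014016026650)) (.one (nat_lit 0x200000a00b0134000014016026411)))) (.br (Nat.shiftLeft (nat_lit 0x200000a00b015) (nat_lit 64)) (.one (nat_lit 0x200000a00b0144000014016028411)) (.br (Nat.shiftLeft (nat_lit 0x1001) (nat_lit 101)) (.one (nat_lit 0x200000a00b015400001401602a411)) (.one (nat_lit 0x200300a00b0134006014016026650)))))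
def t342 : k342.all (jb2 57 fl b0) = true := by decide +kernel
noncomputable def k343 : KT := (.br (Nat.shiftLeft (nat_lit 0x801) (nat_lit 102)) (.one (nat_lit 0x200300a00b0144006014016028650)) (.one (nat_lit 0x200400a00b0134008014016026650)))
def t343 : k343.all (jb2 57 fl b0) = true := by decide +kernel
noncomputable def k344 : KT := (.br (Nat.shiftLeft (nat_lit 0x3) (nat_lit 112)) (.br (Nat.shiftLeft (nat_lit 0x2005) (nat_lit 100)) (.one (nat_lit 0x200400a00b0144008014016028650)) (.br (Nat.shiftLeft (nat_lit 0x1003) (nat_lit 101)) (.one (nat_lit 0x200500a00b013400a014016026650)) (.one (nat_lit 0x200600a00b013400c014016026650)))) (.br (Nat.shiftLeft (nat_lit 0xc00002802c05) (nat_lit 66)) (.one (nat_lit 0x300000a00b0136000014016026411)) (.br (Nat.shiftLeft (nat_lit 0x300000a00b015) (nat_lit 64)) (.one (nat_lit 0x300000a00b0146000014016028411)) (.one (nat_lit 0x300000a00b015600001401602a411)))))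
def t344 : k344.all (jb2 57 fl b0) = true := by decide +kernel
noncomputable def k345 : KT := (.br (Nat.shiftLeft (nat_lit 0xc01002802c05) (nat_lit 66)) (.one (nat_lit 0x300400a00b0136008014016026650)) (.br (Nat.shiftLeft (nat_lit 0x3005) (nat_lit 100)) (.one (nat_lit 0x300400a00b0146008014016028650)) (.one (nat_lit 0x300500a00b013600a014016026650))))
def t345 : k345.all (jb2 57 fl b0) = true := by decide +kernel
noncomputable def k346 : KT := (.br (Nat.shiftLeft (nat_lit 0x5) (nat_lit 112)) (.br (Nat.shiftLeft (nat_lit 0x400000a00b015) (nat_lit 64)) (.br (Nat.shiftLeft (nat_lit 0x1) (nat_lit 114)) (.one (nat_lit 0x300600a00b013600c014016026650)) (.br (Nat.shiftLeft (nat_lit 0x1000002802c05) (nat_lit 66)) (.one (nat_lit 0x400000a00b0138000014016026411)) (.one (nat_lit 0x400000a00b0148000014016028411)))) (.br (Nat.shiftLeft (nat_lit 0x1001) (nat_lit 102)) (.one (nat_lit 0x400000a00b015800001401602a411)) (.br (Nat.shiftLeft (nat_lit 0x2003) (nat_lit 101)) (.one (nat_lit 0x400500a00b013800a014016026650)) (.one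 (nat_lit 0x400600a00b013800c014016026650))))) (.br (Nat.shiftLeft (nat_lit 0x1401) (nat_lit 102)) (.br (Nat.shiftLeft (nat_lit 0x1400002802c05) (nat_lit 66)) (.one (nat_lit 0x500000a00b013a000014016026411)) (.br (Nat.shiftLeft (nat_lit 0x500000a00b015) (nat_lit 64)) (.one (nat_lit 0x500000a00b014a000014016028411)) (.one (nat_lit 0x500000a00b015a00001401602a411)))) (.br (Nat.shiftLeft (nat_lit 0x1800002802c05) (nat_lit 66)) (.br (Nat.shiftLeft (nat_lit 0x3) (nat_lit 113)) (.one (nat_lit 0x500600a00b013a00c014016026650)) (.one (nat_lit 0x600000a00b013c000014016026411))) (.br (Nat.shiftLeft (nat_lit 0x600000a00b015) (nat_lit 64)) (.one (nat_lit 0x600000a00b014c000014016028411)) (.one (nat_lit 0x600000a00b015c00001401602a411))))))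
def t346 : k346.all (jb2 57 fl b0) = true := by decide +kernel
noncomputable def k347 : KT := (.br (Nat.shiftLeft (nat_lit 0x400001002802c05) (nat_lit 66)) (.br (Nat.shiftLeft (nat_lit 0x5) (nat_lit 113)) (.br (Nat.shiftLeft (nat_lit 0x2000002802c05) (nat_lit 66)) (.br (Nat.shiftLeft (nat_lit 0x700000a00b015) (nat_lit 64)) (.br (Nat.shiftLeft (nat_lit 0x1c00002802c05) (nat_lit 66)) (.one (nat_lit 0x700000a00b013e000014016026411)) (.one (nat_lit 0x700000a00b014e000014016028411))) (.br (Nat.shiftLeft (nat_lit 0x1) (nat_lit 115)) (.one (nat_lit 0x700000a00b015e00001401602a411)) (.one (nat_lit 0x800000a00b0130000014016128411)))) (.br (Nat.shiftLeft (nat_lit 0x9) (nat_lit 112)) (.br (Nat.shiftLeft (nat_lit 0x800000a00b015) (nat_lit 64)) (.one (nat_lit 0x800000a00b014000001401612a411)) (.one (nat_lit 0x800000a00b015000001401612c411))) (.br (Nat.shiftLeft (nat_lit 0x2400002802c05) (nat_lit 66)) (.one (nat_lit 0x900000a00b0132000014016128411)) (.br (Nat.shiftLeft (nat_lit 0x900000a00b015) (nat_lit 64)) (.one (nat_lit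 0x900000a00b014200001401612a411)) (.one (nat_lit 0x900000a00b015200001401612c411)))))) (.br (Nat.shiftLeft (nat_lit 0xb00000a00b015) (nat_lit 64)) (.br (Nat.shiftLeft (nat_lit 0xa00000a00b015) (nat_lit 64)) (.br (Nat.shiftLeft (nat_lit 0x2800002802c05) (nat_lit 66)) (.one (nat_lit 0xa00000a00b0134000014016128411)) (.one (nat_lit 0xa00000a00b014400001401612a411))) (.br (Nat.shiftLeft (nat_lit 0xb) (nat_lit 112)) (.one (nat_lit 0xa00000a00b015400001401612c411)) (.br (Nat.shiftLeft (nat_lit 0x2c00002802c05) (nat_lit 66)) (.one (nat_lit 0xb00000a00b0136000014016128411)) (.one (nat_lit 0xb00000a00b014600001401612a411))))) (.br (Nat.shiftLeft (nat_lit 0x1000003) (nat_lit 100)) (.br (Nat.shiftLeft (nat_lit 0x1) (nat_lit 124)) (.one (nat_lit 0xb00000a00b015600001401612c411)) (.one (nat_lit 0x100000200a00b0130004014036426511))) (.br (Nat.shiftLeft (nat_lit 0x400000c02802c05) (nat_lit 66)) (.one (nat_lit 0x100000300a00b0130006014036426511)) (.br (Nat.shiftLeft (nat_lit 0x400001) (nat_lit 102)) (.one (nat_lit 0x100000300a00b0140006014036428511))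 (.one (nat_lit 0x100000400a00b0130008014036426511))))))) (.br (Nat.shiftLeft (nat_lit 0x3) (nat_lit 124)) (.br (Nat.shiftLeft (nat_lit 0x800000c02802c05) (nat_lit 66)) (.br (Nat.shiftLeft (nat_lit 0x800003) (nat_lit 101)) (.br (Nat.shiftLeft (nat_lit 0x1000005) (nat_lit 100)) (.one (nat_lit 0x100000400a00b0140008014036428511)) (.one (nat_lit 0x100000500a00b013000a014036426511))) (.br (Nat.shiftLeft (nat_lit 0x1) (nat_lit 125)) (.one (nat_lit 0x100000600a00b013000c014036426511)) (.br (Nat.shiftLeft (nat_lit 0x2000003) (nat_lit 100)) (.one (nat_lit 0x200000200a00b0130004014056826511)) (.one (nat_lit 0x200000300a00b0130006014056826511))))) (.br (Nat.shiftLeft (nat_lit 0x800001002802c05) (nat_lit 66)) (.br (Nat.shiftLeft (nat_lit 0x800001) (nat_lit 102)) (.one (nat_lit 0x200000300a00b0140006014056828511)) (.one (nat_lit 0x200000400a00b0130008014056826511))) (.br (Nat.shiftLeft (nat_lit 0x2000005) (nat_lit 100)) (.one (nat_lit 0x200000400a00b0140008014056828511)) (.br (Nat.shiftLeft (nat_lit 0x1000003) (nat_lit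 101)) (.one (nat_lit 0x200000500a00b013000a014056826511)) (.one (nat_lit 0x200000600a00b013000c014056826511)))))) (.br (Nat.shiftLeft (nat_lit 0x3000005) (nat_lit 100)) (.br (Nat.shiftLeft (nat_lit 0xc00000c02802c05) (nat_lit 66)) (.br (Nat.shiftLeft (nat_lit 0x3000003) (nat_lit 100)) (.one (nat_lit 0x300000200a00b0130004014076c26511)) (.one (nat_lit 0x300000300a00b0130006014076c26511))) (.br (Nat.shiftLeft (nat_lit 0xc00001) (nat_lit 102)) (.one (nat_lit 0x300000300a00b0140006014076c28511)) (.br (Nat.shiftLeft (nat_lit 0xc00001002802c05) (nat_lit 66)) (.one (nat_lit 0x300000400a00b0130008014076c26511)) (.one (nat_lit 0x300000400a00b0140008014076c28511))))) (.br (Nat.shiftLeft (nat_lit 0x1) (nat_lit 126)) (.br (Nat.shiftLeft (nat_lit 0x1800003) (nat_lit 101)) (.one (nat_lit 0x300000500a00b013000a014076c26511)) (.one (nat_lit 0x300000600a00b013000c014076c26511))) (.br (Nat.shiftLeft (nat_lit 0x4000003) (nat_lit 100)) (.one (nat_lit 0x400000200a00b0130004014097026511)) (.br (Nat.shiftLeft (nat_lit 0x1000000c02802c05)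 (nat_lit 66)) (.one (nat_lit 0x400000300a00b0130006014097026511)) (.one (nat_lit 0x400000300a00b0140006014097028511))))))))
def t347 : k347.all (jb2 57 fl b0) = true := by decide +kernel
noncomputable def k348 : KT := (.br (Nat.shiftLeft (nat_lit 0x1400000c02802c05) (nat_lit 66)) (.br (Nat.shiftLeft (nat_lit 0x2000003) (nat_lit 101)) (.br (Nat.shiftLeft (nat_lit 0x1000001002802c05) (nat_lit 66)) (.one (nat_lit 0x400000400a00b0130008014097026511)) (.br (Nat.shiftLeft (nat_lit 0x4000005) (nat_lit 100)) (.one (nat_lit 0x400000400a00b0140008014097028511)) (.one (nat_lit 0x400000500a00b013000a014097026511)))) (.br (Nat.shiftLeft (nat_lit 0x5) (nat_lit 124)) (.one (nat_lit 0x400000600a00b013000c014097026511)) (.br (Nat.shiftLeft (nat_lit 0x5000003) (nat_lit 100)) (.one (nat_lit 0x500000200a00b01300040140b7426511)) (.one (nat_lit 0x500000300a00b01300060140b7426511))))) (.br (Nat.shiftLeft (nat_lit 0x5000005) (nat_lit 100)) (.br (Nat.shiftLeft (nat_lit 0x1400001) (nat_lit 102)) (.one (nat_lit 0x500000300a00b01400060140b7428511))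 (.br (Nat.shiftLeft (nat_lit 0x1400001002802c05) (nat_lit 66)) (.one (nat_lit 0x500000400a00b01300080140b7426511)) (.one (nat_lit 0x500000400a00b01400080140b7428511)))) (.br (Nat.shiftLeft (nat_lit 0x3) (nat_lit 125)) (.br (Nat.shiftLeft (nat_lit 0x2800003) (nat_lit 101)) (.one (nat_lit 0x500000500a00b013000a0140b7426511)) (.one (nat_lit 0x500000600a00b013000c0140b7426511))) (.br (Nat.shiftLeft (nat_lit 0x6000003) (nat_lit 100)) (.one (nat_lit 0x600000200a00b01300040140d7826511)) (.one (nat_lit 0x600000300a00b01300060140d7826511))))))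
def t348 : k348.all (jb2 57 fl b0) = true := by decide +kernel
noncomputable def k349 : KT := (.br (Nat.shiftLeft (nat_lit 0x1c00001002802c05) (nat_lit 66)) (.br (Nat.shiftLeft (nat_lit 0x3000003) (nat_lit 101)) (.br (Nat.shiftLeft (nat_lit 0x1800001002802c05) (nat_lit 66)) (.br (Nat.shiftLeft (nat_lit 0x1800001) (nat_lit 102)) (.one (nat_lit 0x600000300a00b01400060140d7828511)) (.one (nat_lit 0x600000400a00b01300080140d7826511))) (.br (Nat.shiftLeft (nat_lit 0x6000005) (nat_lit 100)) (.one (nat_lit 0x600000400a00b01400080140d7828511)) (.one (nat_lit 0x600000500a00b013000a0140d7826511)))) (.br (Nat.shiftLeft (nat_lit 0x7000003) (nat_lit 100)) (.br (Nat.shiftLeft (nat_lit 0x7) (nat_lit 124)) (.one (nat_lit 0x600000600a00b013000c0140d7826511)) (.one (nat_lit 0x700000200a00b01300040140f7c26511))) (.br (Nat.shiftLeft (nat_lit 0x1c00000c02802c05) (nat_lit 66)) (.one (nat_lit 0x700000300a00b01300060140f7c26511)) (.br (Nat.shiftLeft (nat_lit 0x1c00001) (nat_lit 102)) (.one (nat_lit 0x700000300a00b01400060140f7c28511))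 (.one (nat_lit 0x700000400a00b01300080140f7c26511)))))) (.br (Nat.shiftLeft (nat_lit 0x2000000c02802c05) (nat_lit 66)) (.br (Nat.shiftLeft (nat_lit 0x3800003) (nat_lit 101)) (.br (Nat.shiftLeft (nat_lit 0x7000005) (nat_lit 100)) (.one (nat_lit 0x700000400a00b01400080140f7c28511)) (.one (nat_lit 0x700000500a00b013000a0140f7c26511))) (.br (Nat.shiftLeft (nat_lit 0x1) (nat_lit 127)) (.one (nat_lit 0x700000600a00b013000c0140f7c26511)) (.br (Nat.shiftLeft (nat_lit 0x8000003) (nat_lit 100)) (.one (nat_lit 0x800000200a00b0130004014118026511)) (.one (nat_lit 0x800000300a00b0130006014118026511))))) (.br (Nat.shiftLeft (nat_lit 0x2000001002802c05) (nat_lit 66)) (.br (Nat.shiftLeft (nat_lit 0x2000001) (nat_lit 102)) (.one (nat_lit 0x800000300a00b0140006014118028511)) (.one (nat_lit 0x800000400a00b0130008014118026511))) (.br (Nat.shiftLeft (nat_lit 0x8000005) (nat_lit 100)) (.one (nat_lit 0x800000400a00b0140008014118028511)) (.br (Nat.shiftLeft (nat_lit 0x4000003) (nat_lit 101)) (.one (nat_lit 0x800000500a00b013000a014118026511))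 (.one (nat_lit 0x800000600a00b013000c014118026511)))))))
def t349 : k349.all (jb2 57 fl b0) = true := by decide +kernel
noncomputable def k350 : KT := (.br (Nat.shiftLeft (nat_lit 0x2800001) (nat_lit 102)) (.br (Nat.shiftLeft (nat_lit 0x9000005) (nat_lit 100)) (.br (Nat.shiftLeft (nat_lit 0x2400000c02802c05) (nat_lit 66)) (.br (Nat.shiftLeft (nat_lit 0x9000003) (nat_lit 100)) (.one (nat_lit 0x900000200a00b0130004014138426511)) (.one (nat_lit 0x900000300a00b0130006014138426511))) (.br (Nat.shiftLeft (nat_lit 0x2400001) (nat_lit 102)) (.one (nat_lit 0x900000300a00b0140006014138428511)) (.br (Nat.shiftLeft (nat_lit 0x2400001002802c05) (nat_lit 66)) (.one (nat_lit 0x900000400a00b0130008014138426511)) (.one (nat_lit 0x900000400a00b0140008014138428511))))) (.br (Nat.shiftLeft (nat_lit 0x5) (nat_lit 125)) (.br (Nat.shiftLeft (nat_lit 0x4800003) (nat_lit 101)) (.one (nat_lit 0x900000500a00b013000a014138426511)) (.one (nat_lit 0x900000600a00b013000c014138426511))) (.br (Nat.shiftLeft (nat_lit 0xa000003) (nat_lit 100))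 (.one (nat_lit 0xa00000200a00b0130004014158826511)) (.br (Nat.shiftLeft (nat_lit 0x2800000c02802c05) (nat_lit 66)) (.one (nat_lit 0xa00000300a00b0130006014158826511)) (.one (nat_lit 0xa00000300a00b0140006014158828511)))))) (.br (Nat.shiftLeft (nat_lit 0xb000003) (nat_lit 100)) (.br (Nat.shiftLeft (nat_lit 0xa000005) (nat_lit 100)) (.br (Nat.shiftLeft (nat_lit 0x2800001002802c05) (nat_lit 66)) (.one (nat_lit 0xa00000400a00b0130008014158826511)) (.one (nat_lit 0xa00000400a00b0140008014158828511))) (.br (Nat.shiftLeft (nat_lit 0x5000003) (nat_lit 101)) (.one (nat_lit 0xa00000500a00b013000a014158826511)) (.br (Nat.shiftLeft (nat_lit 0xb) (nat_lit 124)) (.one (nat_lit 0xa00000600a00b013000c014158826511)) (.one (nat_lit 0xb00000200a00b0130004014178c26511))))) (.br (Nat.shiftLeft (nat_lit 0x2c00001002802c05) (nat_lit 66)) (.br (Nat.shiftLeft (nat_lit 0x2c00000c02802c05) (nat_lit 66)) (.one (nat_lit 0xb00000300a00b0130006014178c26511)) (.br (Nat.shiftLeft (nat_lit 0x2c00001) (nat_lit 102)) (.one (nat_lit 0xb00000300a00b0140006014178c28511))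 (.one (nat_lit 0xb00000400a00b0130008014178c26511)))) (.br (Nat.shiftLeft (nat_lit 0xb000005) (nat_lit 100)) (.one (nat_lit 0xb00000400a00b0140008014178c28511)) (.br (Nat.shiftLeft (nat_lit 0x5800003) (nat_lit 101)) (.one (nat_lit 0xb00000500a00b013000a014178c26511)) (.one (nat_lit 0xb00000600a00b013000c014178c26511)))))))
def t350 : k350.all (jb2 57 fl b0) = true := by decide +kernel
noncomputable def s18 : KT := (.br (nat_lit 0x700a00b015000e01401602a540) (.br (nat_lit 0x500a00b013000a014016027500) (.br (nat_lit 0x200a00b0140004014016028540) (.br (nat_lit 0x100a00b0130002014016026540) k326 (.br (nat_lit 0x200a00b0130004014016027500) k327 k328)) (.br (nat_lit 0x300a00b0140006014016029500) k329 (.br (nat_lit 0x400a00b0140008014016029500) k330 k331))) (.br (nat_lit 0x600a00b014000c014016028540) (.br (nat_lit 0x500a00b014000a014016028540) k332 (.br (nat_lit 0x600a00b013000c014016027500) k333 k334)) (.br (nat_lit 0x600a00b015000c01401602a540) k335 (.br (nat_lit 0x700a00b013000e014016026540) k336 k337)))) (.br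 (nat_lit 0x200400a00b0134008014016026650) (.br (nat_lit 0x100300a00b0132006014016026650) (.br (nat_lit 0x800a00b0140010014016028540) k338 (.br (nat_lit 0x100000a00b015200001401602a411) k339 k340)) (.br (nat_lit 0x100400a00b0142008014016028650) k341 (.br (nat_lit 0x200300a00b0134006014016026650) k342 k343))) (.br (nat_lit 0x600000a00b015c00001401602a411) (.br (nat_lit 0x300000a00b015600001401602a411) k344 (.br (nat_lit 0x300500a00b013600a014016026650) k345 k346)) (.br (nat_lit 0x600000300a00b01300060140d7826511) (.br (nat_lit 0x400000300a00b0140006014097028511) k347 k348) (.br (nat_lit 0x800000600a00b013000c014118026511) k349 k350)))))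
noncomputable def u18 : KT := (.br (Nat.shiftLeft (nat_lit 0x2802c05) (nat_lit 66)) (.one (nat_lit 0xa00b0130000014016026430)) (.br (Nat.shiftLeft (nat_lit 0xa00b015) (nat_lit 64)) (.one (nat_lit 0xa00b0140000014016028430)) (.one (nat_lit 0xa00b015000001401602a430))))
def w18 : u18.all (wj 57 s18) = true := by decide +kernel
def o18 : OkW 57 (jb2 57 fl) u18 := .lift s18 _ (.br _ _ _ (.br _ _ _ (.br _ _ _ (.br _ _ _ (.leaf b0 k326 t326) (.br _ _ _ (.leaf b0 k327 t327) (.leaf b0 k328 t328))) (.br _ _ _ (.leaf b0 k329 t329) (.br _ _ _ (.leaf b0 k330 t330) (.leaf b0 k331 t331)))) (.br _ _ _ (.br _ _ _ (.leaf b0 k332 t332) (.br _ _ _ (.leaf b0 k333 t333) (.leaf b0 k334 t334))) (.br _ _ _ (.leaf b0 k335 t335) (.br _ _ _ (.leaf b0 k336 t336) (.leaf b0 k337 t337))))) (.br _ _ _ (.br _ _ _ (.br _ _ _ (.leaf b0 k338 t338) (.br _ _ _ (.leaf b0 k339 t339) (.leaf b0 k340 t340))) (.br _ _ _ (.leaf b0 k341 t341) (.br _ _ _ (.leaf b0 k342 t342) (.leaf b0 k343 t343)))) (.br _ _ _ (.br _ _ _ (.leaf b0 k344 t344) (.br _ _ _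 (.leaf b0 k345 t345) (.leaf b0 k346 t346))) (.br _ _ _ (.br _ _ _ (.leaf b0 k347 t347) (.leaf b0 k348 t348)) (.br _ _ _ (.leaf b0 k349 t349) (.leaf b0 k350 t350)))))) w18
noncomputable def k351 : KT := (.br (Nat.shiftLeft (nat_lit 0x5006007) (nat_lit 65)) (.br (Nat.shiftLeft (nat_lit 0x1401603) (nat_lit 67)) (.br (Nat.shiftLeft (nat_lit 0xa00b017) (nat_lit 64)) (.one (nat_lit 0xa00b016000001401602d400)) (.one (nat_lit 0xa00b017000001401602f400))) (.br (Nat.shiftLeft (nat_lit 0x2803) (nat_lit 78)) (.one (nat_lit 0xa00b0180000014016031400)) (.one (nat_lit 0xa00c00d000001401801b400)))) (.br (Nat.shiftLeft (nat_lit 0x1) (nat_lit 100)) (.br (Nat.shiftLeft (nat_lit 0xa00c00f) (nat_lit 64)) (.one (nat_lit 0xa00c00e000001401801d400)) (.one (nat_lit 0xa00c00f000001401801f400))) (.br (Nat.shiftLeft (nat_lit 0x100a00b017) (nat_lit 64)) (.one (nat_lit 0x100a00b016000201401602c540)) (.br (Nat.shiftLeft (nat_lit 0x201401603) (nat_lit 67)) (.one (nat_lit 0x100a00b017000201401602e540)) (.one (nat_lit 0x100a00b0180002014016030540))))))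
def t351 : k351.all (jb2 57 fl b0) = true := by decide +kernel
noncomputable def k352 : KT := (.br (Nat.shiftLeft (nat_lit 0x200a00b017) (nat_lit 64)) (.one (nat_lit 0x200a00b016000401401602c540)) (.one (nat_lit 0x200a00b017000401401602e540)))
def t352 : k352.all (jb2 57 fl b0) = true := by decide +kernel
noncomputable def k353 : KT := (.br (Nat.shiftLeft (nat_lit 0x3) (nat_lit 100)) (.one (nat_lit 0x200a00b0180004014016030540)) (.one (nat_lit 0x300a00b016000601401602c540)))
def t353 : k353.all (jb2 57 fl b0) = true := by decide +kernel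
noncomputable def k354 : KT := (.br (Nat.shiftLeft (nat_lit 0x601401603) (nat_lit 67)) (.one (nat_lit 0x300a00b017000601401602e540)) (.one (nat_lit 0x300a00b0180006014016030540)))
def t354 : k354.all (jb2 57 fl b0) = true := by decide +kernel
noncomputable def k355 : KT := (.br (Nat.shiftLeft (nat_lit 0x400a00b017) (nat_lit 64)) (.one (nat_lit 0x400a00b016000801401602c540)) (.one (nat_lit 0x400a00b017000801401602e540)))
def t355 : k355.all (jb2 57 fl b0) = true := by decide +kernel
noncomputable def k356 : KT := (.br (Nat.shiftLeft (nat_lit 0x5) (nat_lit 100)) (.one (nat_lit 0x400a00b0180008014016030540)) (.br (Nat.shiftLeft (nat_lit 0x500a00b017) (nat_lit 64)) (.one (nat_lit 0x500a00b016000a01401602c540)) (.one (nat_lit 0x500a00b017000a01401602e540))))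
def t356 : k356.all (jb2 57 fl b0) = true := by decide +kernel
noncomputable def k357 : KT := (.br (Nat.shiftLeft (nat_lit 0x600a00b017) (nat_lit 64)) (.br (Nat.shiftLeft (nat_lit 0x3) (nat_lit 101)) (.one (nat_lit 0x500a00b018000a014016030540)) (.one (nat_lit 0x600a00b016000c01401602c540))) (.br (Nat.shiftLeft (nat_lit 0xc01401603) (nat_lit 67)) (.one (nat_lit 0x600a00b017000c01401602e540)) (.one (nat_lit 0x600a00b018000c014016030540))))
def t357 : k357.all (jb2 57 fl b0) = true := by decide +kernel
noncomputable def k358 : KT := (.br (Nat.shiftLeft (nat_lit 0x1) (nat_lit 113)) (.br (Nat.shiftLeft (nat_lit 0x9) (nat_lit 100)) (.br (Nat.shiftLeft (nat_lit 0x1) (nat_lit 103)) (.br (Nat.shiftLeft (nat_lit 0x700a00b017) (nat_lit 64)) (.one (nat_lit 0x700a00b016000e01401602c540)) (.br (Nat.shiftLeft (nat_lit 0xe01401603) (nat_lit 67)) (.one (nat_lit 0x700a00b017000e01401602e540)) (.one (nat_lit 0x700a00b018000e014016030540)))) (.br (Nat.shiftLeft (nat_lit 0x800a00b017) (nat_lit 64)) (.one (nat_lit 0x800a00b016001001401602c540))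 (.br (Nat.shiftLeft (nat_lit 0x1001401603) (nat_lit 67)) (.one (nat_lit 0x800a00b017001001401602e540)) (.one (nat_lit 0x800a00b0180010014016030540))))) (.br (Nat.shiftLeft (nat_lit 0x1) (nat_lit 112)) (.br (Nat.shiftLeft (nat_lit 0x900a00b017) (nat_lit 64)) (.one (nat_lit 0x900a00b016001201401602c540)) (.br (Nat.shiftLeft (nat_lit 0x1201401603) (nat_lit 67)) (.one (nat_lit 0x900a00b017001201401602e540)) (.one (nat_lit 0x900a00b0180012014016030540)))) (.br (Nat.shiftLeft (nat_lit 0x100000a00b017) (nat_lit 64)) (.one (nat_lit 0x100000a00b016200001401602c411)) (.br (Nat.shiftLeft (nat_lit 0x200001401603) (nat_lit 67)) (.one (nat_lit 0x100000a00b017200001401602e411)) (.one (nat_lit 0x100000a00b0182000014016030411)))))) (.br (Nat.shiftLeft (nat_lit 0x1) (nat_lit 114)) (.br (Nat.shiftLeft (nat_lit 0x3) (nat_lit 112)) (.br (Nat.shiftLeft (nat_lit 0x200000a00b017) (nat_lit 64)) (.one (nat_lit 0x200000a00b016400001401602c411)) (.br (Nat.shiftLeft (nat_lit 0x400001401603) (nat_lit 67)) (.one (nat_lit 0x200000a00b017400001401602e411))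 (.one (nat_lit 0x200000a00b0184000014016030411)))) (.br (Nat.shiftLeft (nat_lit 0x300000a00b017) (nat_lit 64)) (.one (nat_lit 0x300000a00b016600001401602c411)) (.br (Nat.shiftLeft (nat_lit 0x600001401603) (nat_lit 67)) (.one (nat_lit 0x300000a00b017600001401602e411)) (.one (nat_lit 0x300000a00b0186000014016030411))))) (.br (Nat.shiftLeft (nat_lit 0x5) (nat_lit 112)) (.br (Nat.shiftLeft (nat_lit 0x400000a00b017) (nat_lit 64)) (.one (nat_lit 0x400000a00b016800001401602c411)) (.br (Nat.shiftLeft (nat_lit 0x800001401603) (nat_lit 67)) (.one (nat_lit 0x400000a00b017800001401602e411)) (.one (nat_lit 0x400000a00b0188000014016030411)))) (.br (Nat.shiftLeft (nat_lit 0x500000a00b017) (nat_lit 64)) (.one (nat_lit 0x500000a00b016a00001401602c411)) (.br (Nat.shiftLeft (nat_lit 0xa00001401603) (nat_lit 67)) (.one (nat_lit 0x500000a00b017a00001401602e411)) (.one (nat_lit 0x500000a00b018a000014016030411)))))))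
def t358 : k358.all (jb2 57 fl b0) = true := by decide +kernel
noncomputable def k359 : KT := (.br (Nat.shiftLeft (nat_lit 0x9) (nat_lit 112)) (.br (Nat.shiftLeft (nat_lit 0x700000a00b017) (nat_lit 64)) (.br (Nat.shiftLeft (nat_lit 0xc00001401603) (nat_lit 67)) (.br (Nat.shiftLeft (nat_lit 0x600000a00b017) (nat_lit 64)) (.one (nat_lit 0x600000a00b016c00001401602c411)) (.one (nat_lit 0x600000a00b017c00001401602e411))) (.br (Nat.shiftLeft (nat_lit 0x7) (nat_lit 112)) (.one (nat_lit 0x600000a00b018c000014016030411)) (.one (nat_lit 0x700000a00b016e00001401602c411)))) (.br (Nat.shiftLeft (nat_lit 0x1) (nat_lit 115)) (.br (Nat.shiftLeft (nat_lit 0xe00001401603) (nat_lit 67)) (.one (nat_lit 0x700000a00b017e00001401602e411)) (.one (nat_lit 0x700000a00b018e000014016030411))) (.br (Nat.shiftLeft (nat_lit 0x800000a00b017) (nat_lit 64)) (.one (nat_lit 0x800000a00b016000001401612e411)) (.br (Nat.shiftLeft (nat_lit 0x1000001401603) (nat_lit 67)) (.one (nat_lit 0x800000a00b0170000014016130411)) (.one (nat_lit 0x800000a00b0180000014016132411))))))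 (.br (Nat.shiftLeft (nat_lit 0xa00000a00b017) (nat_lit 64)) (.br (Nat.shiftLeft (nat_lit 0x1200001401603) (nat_lit 67)) (.br (Nat.shiftLeft (nat_lit 0x900000a00b017) (nat_lit 64)) (.one (nat_lit 0x900000a00b016200001401612e411)) (.one (nat_lit 0x900000a00b0172000014016130411))) (.br (Nat.shiftLeft (nat_lit 0x5) (nat_lit 113)) (.one (nat_lit 0x900000a00b0182000014016132411)) (.one (nat_lit 0xa00000a00b016400001401612e411)))) (.br (Nat.shiftLeft (nat_lit 0xb) (nat_lit 112)) (.br (Nat.shiftLeft (nat_lit 0x1400001401603) (nat_lit 67)) (.one (nat_lit 0xa00000a00b0174000014016130411)) (.one (nat_lit 0xa00000a00b0184000014016132411))) (.br (Nat.shiftLeft (nat_lit 0xb00000a00b017) (nat_lit 64)) (.one (nat_lit 0xb00000a00b016600001401612e411)) (.br (Nat.shiftLeft (nat_lit 0x1600001401603) (nat_lit 67)) (.one (nat_lit 0xb00000a00b0176000014016130411)) (.one (nat_lit 0xb00000a00b0186000014016132411)))))))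
def t359 : k359.all (jb2 57 fl b0) = true := by decide +kernel
noncomputable def s19 : KT := (.br (nat_lit 0x300a00b0180006014016030540) (.br (nat_lit 0x200a00b017000401401602e540) (.br (nat_lit 0x100a00b0180002014016030540) k351 k352) (.br (nat_lit 0x300a00b016000601401602c540) k353 k354)) (.br (nat_lit 0x500a00b017000a01401602e540) (.br (nat_lit 0x400a00b017000801401602e540) k355 k356) (.br (nat_lit 0x600a00b018000c014016030540) k357 (.br (nat_lit 0x500000a00b018a000014016030411) k358 k359))))
noncomputable def u19 : KT := (.br (Nat.shiftLeft (nat_lit 0x2803) (nat_lit 78)) (.br (Nat.shiftLeft (nat_lit 0xa00b017) (nat_lit 64)) (.one (nat_lit 0xa00b016000001401602c430)) (.br (Nat.shiftLeft (nat_lit 0x1401603) (nat_lit 67)) (.one (nat_lit 0xa00b017000001401602e430)) (.one (nat_lit 0xa00b0180000014016030430)))) (.br (Nat.shiftLeft (nat_lit 0x5006007) (nat_lit 65)) (.one (nat_lit 0xa00c00d000001401801b400)) (.br (Nat.shiftLeft (nat_lit 0xa00c00f) (nat_lit 64)) (.one (nat_lit 0xa00c00e000001401801d400)) (.one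 (nat_lit 0xa00c00f000001401801f400)))))
def w19 : u19.all (wj 57 s19) = true := by decide +kernel
def o19 : OkW 57 (jb2 57 fl) u19 := .lift s19 _ (.br _ _ _ (.br _ _ _ (.br _ _ _ (.leaf b0 k351 t351) (.leaf b0 k352 t352)) (.br _ _ _ (.leaf b0 k353 t353) (.leaf b0 k354 t354))) (.br _ _ _ (.br _ _ _ (.leaf b0 k355 t355) (.leaf b0 k356 t356)) (.br _ _ _ (.leaf b0 k357 t357) (.br _ _ _ (.leaf b0 k358 t358) (.leaf b0 k359 t359))))) w19
noncomputable def k360 : KT := (.br (Nat.shiftLeft (nat_lit 0x1) (nat_lit 102)) (.br (Nat.shiftLeft (nat_lit 0x1) (nat_lit 101)) (.br (Nat.shiftLeft (nat_lit 0x1) (nat_lit 100)) (.one (nat_lit 0xa00c0100000014018021400)) (.one (nat_lit 0x100a00c0100002014018020540))) (.br (Nat.shiftLeft (nat_lit 0x3) (nat_lit 100)) (.one (nat_lit 0x200a00c0100004014018021500)) (.one (nat_lit 0x300a00c0100006014018021500)))) (.br (Nat.shiftLeft (nat_lit 0x3) (nat_lit 101)) (.br (Nat.shiftLeft (nat_lit 0x5) (nat_lit 100)) (.one (nat_lit 0x400a00c0100008014018021500)) (.one (nat_lit 0x500a00c010000a014018021500)))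 (.br (Nat.shiftLeft (nat_lit 0x7) (nat_lit 100)) (.one (nat_lit 0x600a00c010000c014018021500)) (.br (Nat.shiftLeft (nat_lit 0x1) (nat_lit 103)) (.one (nat_lit 0x700a00c010000e014018021500)) (.one (nat_lit 0x800a00c0100010014018021500))))))
def t360 : k360.all (jb2 57 fl b0) = true := by decide +kernel
noncomputable def k361 : KT := (.br (Nat.shiftLeft (nat_lit 0x1) (nat_lit 112)) (.one (nat_lit 0x900a00c0100012014018020540)) (.br (Nat.shiftLeft (nat_lit 0x801) (nat_lit 101)) (.one (nat_lit 0x100000a00c0102000014018020411)) (.one (nat_lit 0x100200a00c0102004014018021600))))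
def t361 : k361.all (jb2 57 fl b0) = true := by decide +kernel
noncomputable def k362 : KT := (.one (nat_lit 0x100300a00c0102006014018020650))
def t362 : k362.all (jb2 57 fl b0) = true := by decide +kernel
noncomputable def k363 : KT := (.one (nat_lit 0x100400a00c0102008014018020650))
def t363 : k363.all (jb2 57 fl b0) = true := by decide +kernel
noncomputable def k364 : KT := (.br (Nat.shiftLeft (nat_lit 0x803) (nat_lit 101)) (.one (nat_lit 0x100500a00c010200a014018020650)) (.br (Nat.shiftLeft (nat_lit 0x1007) (nat_lit 100)) (.one (nat_lit 0x100600a00c010200c014018020650)) (.one (nat_lit 0x100700a00c010200e014018020650))))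
def t364 : k364.all (jb2 57 fl b0) = true := by decide +kernel
noncomputable def k365 : KT := (.br (Nat.shiftLeft (nat_lit 0x1001) (nat_lit 101)) (.br (Nat.shiftLeft (nat_lit 0x1) (nat_lit 113)) (.one (nat_lit 0x100800a00c0102010014018020650)) (.one (nat_lit 0x200000a00c0104000014018020411))) (.br (Nat.shiftLeft (nat_lit 0x801) (nat_lit 102)) (.one (nat_lit 0x200300a00c0104006014018021600)) (.one (nat_lit 0x200400a00c0104008014018020650))))
def t365 : k365.all (jb2 57 fl b0) = true := by decide +kernel
noncomputable def k366 : KT := (.br (Nat.shiftLeft (nat_lit 0x1003) (nat_lit 101)) (.one (nat_lit 0x200500a00c010400a014018020650)) (.one (nat_lit 0x200600a00c010400c014018020650)))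
def t366 : k366.all (jb2 57 fl b0) = true := by decide +kernel
noncomputable def k367 : KT := (.br (Nat.shiftLeft (nat_lit 0x401) (nat_lit 103)) (.one (nat_lit 0x200700a00c010400e014018020650)) (.br (Nat.shiftLeft (nat_lit 0x3) (nat_lit 112)) (.one (nat_lit 0x200800a00c0104010014018020650)) (.one (nat_lit 0x300000a00c0106000014018020411))))
def t367 : k367.all (jb2 57 fl b0) = true := by decide +kernel
noncomputable def k368 : KT := (.one (nat_lit 0x300400a00c0106008014018020650))
def t368 : k368.all (jb2 57 fl b0) = true := by decide +kernel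
noncomputable def k369 : KT := (.br (Nat.shiftLeft (nat_lit 0x1803) (nat_lit 101)) (.one (nat_lit 0x300500a00c010600a014018020650)) (.one (nat_lit 0x300600a00c010600c014018020650)))
def t369 : k369.all (jb2 57 fl b0) = true := by decide +kernel
noncomputable def k370 : KT := (.br (Nat.shiftLeft (nat_lit 0x601) (nat_lit 103)) (.one (nat_lit 0x300700a00c010600e014018020650)) (.br (Nat.shiftLeft (nat_lit 0x1) (nat_lit 114)) (.one (nat_lit 0x300800a00c0106010014018020650)) (.one (nat_lit 0x400000a00c0108000014018020411))))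
def t370 : k370.all (jb2 57 fl b0) = true := by decide +kernel
noncomputable def k371 : KT := (.br (Nat.shiftLeft (nat_lit 0x2003) (nat_lit 101)) (.one (nat_lit 0x400500a00c010800a014018020650)) (.one (nat_lit 0x400600a00c010800c014018020650)))
def t371 : k371.all (jb2 57 fl b0) = true := by decide +kernel
noncomputable def k372 : KT := (.br (Nat.shiftLeft (nat_lit 0x5) (nat_lit 112)) (.br (Nat.shiftLeft (nat_lit 0x801) (nat_lit 103)) (.one (nat_lit 0x400700a00c010800e014018020650)) (.one (nat_lit 0x400800a00c0108010014018020650))) (.br (Nat.shiftLeft (nat_lit 0x1401) (nat_lit 102)) (.one (nat_lit 0x500000a00c010a000014018020411)) (.br (Nat.shiftLeft (nat_lit 0x5007) (nat_lit 100)) (.one (nat_lit 0x500600a00c010a00c014018020650)) (.one (nat_lit 0x500700a00c010a00e014018020650)))))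
def t372 : k372.all (jb2 57 fl b0) = true := by decide +kernel
noncomputable def k373 : KT := (.br (Nat.shiftLeft (nat_lit 0xb) (nat_lit 112)) (.br (Nat.shiftLeft (nat_lit 0x7) (nat_lit 112)) (.br (Nat.shiftLeft (nat_lit 0x1801) (nat_lit 102)) (.br (Nat.shiftLeft (nat_lit 0x3) (nat_lit 113)) (.one (nat_lit 0x500800a00c010a010014018020650)) (.one (nat_lit 0x600000a00c010c000014018020411))) (.br (Nat.shiftLeft (nat_lit 0xc01) (nat_lit 103)) (.one (nat_lit 0x600700a00c010c00e014018020650)) (.one (nat_lit 0x600800a00c010c010014018020650)))) (.br (Nat.shiftLeft (nat_lit 0x1) (nat_lit 115)) (.br (Nat.shiftLeft (nat_lit 0xe01) (nat_lit 103)) (.one (nat_lit 0x700000a00c010e000014018020411)) (.one (nat_lit 0x700800a00c010e010014018020650))) (.br (Nat.shiftLeft (nat_lit 0x9) (nat_lit 112)) (.one (nat_lit 0x800000a00c0100000014018122411)) (.br (Nat.shiftLeft (nat_lit 0x5) (nat_lit 113)) (.one (nat_lit 0x900000a00c0102000014018122411)) (.one (nat_lit 0xa00000a00c0104000014018122411)))))) (.br (Nat.shiftLeft (nat_lit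 0x400001) (nat_lit 102)) (.br (Nat.shiftLeft (nat_lit 0x1) (nat_lit 124)) (.br (Nat.shiftLeft (nat_lit 0x3) (nat_lit 114)) (.one (nat_lit 0xb00000a00c0106000014018122411)) (.one (nat_lit 0xc00000a00c0108000014018122411))) (.br (Nat.shiftLeft (nat_lit 0x1000003) (nat_lit 100)) (.one (nat_lit 0x100000200a00c0100004014038420511)) (.one (nat_lit 0x100000300a00c0100006014038420511)))) (.br (Nat.shiftLeft (nat_lit 0x800003) (nat_lit 101)) (.br (Nat.shiftLeft (nat_lit 0x1000005) (nat_lit 100)) (.one (nat_lit 0x100000400a00c0100008014038420511)) (.one (nat_lit 0x100000500a00c010000a014038420511))) (.br (Nat.shiftLeft (nat_lit 0x1000007) (nat_lit 100)) (.one (nat_lit 0x100000600a00c010000c014038420511)) (.br (Nat.shiftLeft (nat_lit 0x200001) (nat_lit 103)) (.one (nat_lit 0x100000700a00c010000e014038420511)) (.one (nat_lit 0x100000800a00c0100010014038420511)))))))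
def t373 : k373.all (jb2 57 fl b0) = true := by decide +kernel
noncomputable def k374 : KT := (.br (Nat.shiftLeft (nat_lit 0xc00001) (nat_lit 102)) (.br (Nat.shiftLeft (nat_lit 0x1000003) (nat_lit 101)) (.br (Nat.shiftLeft (nat_lit 0x2000003) (nat_lit 100)) (.br (Nat.shiftLeft (nat_lit 0x1) (nat_lit 125)) (.one (nat_lit 0x100200300a00c0104006014038420760)) (.one (nat_lit 0x200000200a00c0100004014058820511))) (.br (Nat.shiftLeft (nat_lit 0x800001) (nat_lit 102)) (.one (nat_lit 0x200000300a00c0100006014058820511)) (.br (Nat.shiftLeft (nat_lit 0x2000005) (nat_lit 100)) (.one (nat_lit 0x200000400a00c0100008014058820511)) (.one (nat_lit 0x200000500a00c010000a014058820511))))) (.br (Nat.shiftLeft (nat_lit 0x400001) (nat_lit 103)) (.br (Nat.shiftLeft (nat_lit 0x2000007) (nat_lit 100)) (.one (nat_lit 0x200000600a00c010000c014058820511)) (.one (nat_lit 0x200000700a00c010000e014058820511))) (.br (Nat.shiftLeft (nat_lit 0x3) (nat_lit 124)) (.one (nat_lit 0x200000800a00c0100010014058820511)) (.br (Nat.shiftLeft (nat_lit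 0x3000003) (nat_lit 100)) (.one (nat_lit 0x300000200a00c0100004014078c20511)) (.one (nat_lit 0x300000300a00c0100006014078c20511)))))) (.br (Nat.shiftLeft (nat_lit 0x1) (nat_lit 126)) (.br (Nat.shiftLeft (nat_lit 0x1800003) (nat_lit 101)) (.br (Nat.shiftLeft (nat_lit 0x3000005) (nat_lit 100)) (.one (nat_lit 0x300000400a00c0100008014078c20511)) (.one (nat_lit 0x300000500a00c010000a014078c20511))) (.br (Nat.shiftLeft (nat_lit 0x3000007) (nat_lit 100)) (.one (nat_lit 0x300000600a00c010000c014078c20511)) (.br (Nat.shiftLeft (nat_lit 0x600001) (nat_lit 103)) (.one (nat_lit 0x300000700a00c010000e014078c20511)) (.one (nat_lit 0x300000800a00c0100010014078c20511))))) (.br (Nat.shiftLeft (nat_lit 0x4000005) (nat_lit 100)) (.br (Nat.shiftLeft (nat_lit 0x4000003) (nat_lit 100)) (.one (nat_lit 0x400000200a00c0100004014099020511)) (.br (Nat.shiftLeft (nat_lit 0x1000001) (nat_lit 102)) (.one (nat_lit 0x400000300a00c0100006014099020511)) (.one (nat_lit 0x400000400a00c0100008014099020511)))) (.br (Nat.shiftLeft (nat_lit 0x2000003)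 (nat_lit 101)) (.one (nat_lit 0x400000500a00c010000a014099020511)) (.br (Nat.shiftLeft (nat_lit 0x4000007) (nat_lit 100)) (.one (nat_lit 0x400000600a00c010000c014099020511)) (.one (nat_lit 0x400000700a00c010000e014099020511)))))))
def t374 : k374.all (jb2 57 fl b0) = true := by decide +kernel
noncomputable def k375 : KT := (.br (Nat.shiftLeft (nat_lit 0x5000005) (nat_lit 100)) (.br (Nat.shiftLeft (nat_lit 0x5000003) (nat_lit 100)) (.br (Nat.shiftLeft (nat_lit 0x5) (nat_lit 124)) (.one (nat_lit 0x400000800a00c0100010014099020511)) (.one (nat_lit 0x500000200a00c01000040140b9420511))) (.br (Nat.shiftLeft (nat_lit 0x1400001) (nat_lit 102)) (.one (nat_lit 0x500000300a00c01000060140b9420511)) (.one (nat_lit 0x500000400a00c01000080140b9420511)))) (.br (Nat.shiftLeft (nat_lit 0x5000007) (nat_lit 100)) (.br (Nat.shiftLeft (nat_lit 0x2800003) (nat_lit 101)) (.one (nat_lit 0x500000500a00c010000a0140b9420511)) (.one (nat_lit 0x500000600a00c010000c0140b9420511))) (.br (Nat.shiftLeft (nat_lit 0xa00001) (nat_lit 103)) (.one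 (nat_lit 0x500000700a00c010000e0140b9420511)) (.br (Nat.shiftLeft (nat_lit 0x3) (nat_lit 125)) (.one (nat_lit 0x500000800a00c01000100140b9420511)) (.one (nat_lit 0x600000200a00c01000040140d9820511))))))
def t375 : k375.all (jb2 57 fl b0) = true := by decide +kernel
noncomputable def k376 : KT := (.br (Nat.shiftLeft (nat_lit 0x6000007) (nat_lit 100)) (.br (Nat.shiftLeft (nat_lit 0x6000005) (nat_lit 100)) (.br (Nat.shiftLeft (nat_lit 0x1800001) (nat_lit 102)) (.one (nat_lit 0x600000300a00c01000060140d9820511)) (.one (nat_lit 0x600000400a00c01000080140d9820511))) (.br (Nat.shiftLeft (nat_lit 0x3000003) (nat_lit 101)) (.one (nat_lit 0x600000500a00c010000a0140d9820511)) (.one (nat_lit 0x600000600a00c010000c0140d9820511)))) (.br (Nat.shiftLeft (nat_lit 0x7) (nat_lit 124)) (.br (Nat.shiftLeft (nat_lit 0xc00001) (nat_lit 103)) (.one (nat_lit 0x600000700a00c010000e0140d9820511)) (.one (nat_lit 0x600000800a00c01000100140d9820511))) (.br (Nat.shiftLeft (nat_lit 0x7000003) (nat_lit 100)) (.one (nat_lit 0x700000200a00c01000040140f9c20511))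 (.one (nat_lit 0x700000300a00c01000060140f9c20511)))))
def t376 : k376.all (jb2 57 fl b0) = true := by decide +kernel
noncomputable def k377 : KT := (.br (Nat.shiftLeft (nat_lit 0x8000003) (nat_lit 100)) (.br (Nat.shiftLeft (nat_lit 0x7000007) (nat_lit 100)) (.br (Nat.shiftLeft (nat_lit 0x7000005) (nat_lit 100)) (.one (nat_lit 0x700000400a00c01000080140f9c20511)) (.br (Nat.shiftLeft (nat_lit 0x3800003) (nat_lit 101)) (.one (nat_lit 0x700000500a00c010000a0140f9c20511)) (.one (nat_lit 0x700000600a00c010000c0140f9c20511)))) (.br (Nat.shiftLeft (nat_lit 0xe00001) (nat_lit 103)) (.one (nat_lit 0x700000700a00c010000e0140f9c20511)) (.br (Nat.shiftLeft (nat_lit 0x1) (nat_lit 127)) (.one (nat_lit 0x700000800a00c01000100140f9c20511)) (.one (nat_lit 0x800000200a00c010000401411a020511))))) (.br (Nat.shiftLeft (nat_lit 0x4000003) (nat_lit 101)) (.br (Nat.shiftLeft (nat_lit 0x2000001) (nat_lit 102)) (.one (nat_lit 0x800000300a00c010000601411a020511)) (.br (Nat.shiftLeft (nat_lit 0x8000005) (nat_lit 100)) (.one (nat_lit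 0x800000400a00c010000801411a020511)) (.one (nat_lit 0x800000500a00c010000a01411a020511)))) (.br (Nat.shiftLeft (nat_lit 0x1000001) (nat_lit 103)) (.br (Nat.shiftLeft (nat_lit 0x8000007) (nat_lit 100)) (.one (nat_lit 0x800000600a00c010000c01411a020511)) (.one (nat_lit 0x800000700a00c010000e01411a020511))) (.br (Nat.shiftLeft (nat_lit 0x9) (nat_lit 124)) (.one (nat_lit 0x800000800a00c010001001411a020511)) (.one (nat_lit 0x900000200a00c010000401413a420511))))))
def t377 : k377.all (jb2 57 fl b0) = true := by decide +kernel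
noncomputable def k378 : KT := (.br (Nat.shiftLeft (nat_lit 0x5800003) (nat_lit 101)) (.br (Nat.shiftLeft (nat_lit 0x2800001) (nat_lit 102)) (.br (Nat.shiftLeft (nat_lit 0x9000007) (nat_lit 100)) (.br (Nat.shiftLeft (nat_lit 0x9000005) (nat_lit 100)) (.br (Nat.shiftLeft (nat_lit 0x2400001) (nat_lit 102)) (.one (nat_lit 0x900000300a00c010000601413a420511)) (.one (nat_lit 0x900000400a00c010000801413a420511))) (.br (Nat.shiftLeft (nat_lit 0x4800003) (nat_lit 101)) (.one (nat_lit 0x900000500a00c010000a01413a420511)) (.one (nat_lit 0x900000600a00c010000c01413a420511)))) (.br (Nat.shiftLeft (nat_lit 0x5) (nat_lit 125)) (.br (Nat.shiftLeft (nat_lit 0x1200001) (nat_lit 103)) (.one (nat_lit 0x900000700a00c010000e01413a420511)) (.one (nat_lit 0x900000800a00c010001001413a420511))) (.br (Nat.shiftLeft (nat_lit 0xa000003) (nat_lit 100)) (.one (nat_lit 0xa00000200a00c010000401415a820511)) (.one (nat_lit 0xa00000300a00c010000601415a820511))))) (.br (Nat.shiftLeft (nat_lit 0x1400001) (nat_lit 103)) (.br (Nat.shiftLeft (nat_lit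 0x5000003) (nat_lit 101)) (.br (Nat.shiftLeft (nat_lit 0xa000005) (nat_lit 100)) (.one (nat_lit 0xa00000400a00c010000801415a820511)) (.one (nat_lit 0xa00000500a00c010000a01415a820511))) (.br (Nat.shiftLeft (nat_lit 0xa000007) (nat_lit 100)) (.one (nat_lit 0xa00000600a00c010000c01415a820511)) (.one (nat_lit 0xa00000700a00c010000e01415a820511)))) (.br (Nat.shiftLeft (nat_lit 0xb000003) (nat_lit 100)) (.br (Nat.shiftLeft (nat_lit 0xb) (nat_lit 124)) (.one (nat_lit 0xa00000800a00c010001001415a820511)) (.one (nat_lit 0xb00000200a00c010000401417ac20511))) (.br (Nat.shiftLeft (nat_lit 0x2c00001) (nat_lit 102)) (.one (nat_lit 0xb00000300a00c010000601417ac20511)) (.br (Nat.shiftLeft (nat_lit 0xb000005) (nat_lit 100)) (.one (nat_lit 0xb00000400a00c010000801417ac20511)) (.one (nat_lit 0xb00000500a00c010000a01417ac20511))))))) (.br (Nat.shiftLeft (nat_lit 0xc000007) (nat_lit 100)) (.br (Nat.shiftLeft (nat_lit 0xc000003) (nat_lit 100)) (.br (Nat.shiftLeft (nat_lit 0x1600001) (nat_lit 103)) (.br (Nat.shiftLeft (nat_lit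 0xb000007) (nat_lit 100)) (.one (nat_lit 0xb00000600a00c010000c01417ac20511)) (.one (nat_lit 0xb00000700a00c010000e01417ac20511))) (.br (Nat.shiftLeft (nat_lit 0x3) (nat_lit 126)) (.one (nat_lit 0xb00000800a00c010001001417ac20511)) (.one (nat_lit 0xc00000200a00c010000401419b020511)))) (.br (Nat.shiftLeft (nat_lit 0xc000005) (nat_lit 100)) (.br (Nat.shiftLeft (nat_lit 0x3000001) (nat_lit 102)) (.one (nat_lit 0xc00000300a00c010000601419b020511)) (.one (nat_lit 0xc00000400a00c010000801419b020511))) (.br (Nat.shiftLeft (nat_lit 0x6000003) (nat_lit 101)) (.one (nat_lit 0xc00000500a00c010000a01419b020511)) (.one (nat_lit 0xc00000600a00c010000c01419b020511))))) (.br (Nat.shiftLeft (nat_lit 0x1000001) (nat_lit 113)) (.br (Nat.shiftLeft (nat_lit 0x800001) (nat_lit 113)) (.br (Nat.shiftLeft (nat_lit 0x1) (nat_lit 136)) (.one (nat_lit 0xc00000700a00c010000e01419b020511)) (.one (nat_lit 0x100000100200a00c0102004034418020611))) (.br (Nat.shiftLeft (nat_lit 0x1) (nat_lit 137)) (.one (nat_lit 0x100000200300a00c0104006034418020611))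 (.one (nat_lit 0x200000100200a00c0102004054818020611)))) (.br (Nat.shiftLeft (nat_lit 0x1800001) (nat_lit 113)) (.br (Nat.shiftLeft (nat_lit 0x3) (nat_lit 136)) (.one (nat_lit 0x200000200300a00c0104006054818020611)) (.one (nat_lit 0x300000100200a00c0102004074c18020611))) (.br (Nat.shiftLeft (nat_lit 0x1) (nat_lit 138)) (.one (nat_lit 0x300000200300a00c0104006074c18020611)) (.br (Nat.shiftLeft (nat_lit 0x2000001) (nat_lit 113)) (.one (nat_lit 0x400000100200a00c0102004095018020611)) (.one (nat_lit 0x400000200300a00c0104006095018020611))))))))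
def t378 : k378.all (jb2 57 fl b0) = true := by decide +kernel
noncomputable def k379 : KT := (.br (Nat.shiftLeft (nat_lit 0x3000001) (nat_lit 113)) (.br (Nat.shiftLeft (nat_lit 0x2800001) (nat_lit 113)) (.one (nat_lit 0x500000100200a00c01020040b5418020611)) (.br (Nat.shiftLeft (nat_lit 0x3) (nat_lit 137)) (.one (nat_lit 0x500000200300a00c01040060b5418020611)) (.one (nat_lit 0x600000100200a00c01020040d5818020611)))) (.br (Nat.shiftLeft (nat_lit 0x7) (nat_lit 136)) (.one (nat_lit 0x600000200300a00c01040060d5818020611)) (.br (Nat.shiftLeft (nat_lit 0x3800001) (nat_lit 113)) (.one (nat_lit 0x700000100200a00c01020040f5c18020611)) (.one (nat_lit 0x700000200300a00c01040060f5c18020611)))))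
def t379 : k379.all (jb2 57 fl b0) = true := by decide +kernel
noncomputable def k380 : KT := (.br (Nat.shiftLeft (nat_lit 0x5000001) (nat_lit 113)) (.br (Nat.shiftLeft (nat_lit 0x9) (nat_lit 136)) (.br (Nat.shiftLeft (nat_lit 0x4000001) (nat_lit 113)) (.one (nat_lit 0x800000100200a00c0102004116018020611)) (.one (nat_lit 0x800000200300a00c0104006116018020611))) (.br (Nat.shiftLeft (nat_lit 0x4800001) (nat_lit 113)) (.one (nat_lit 0x900000100200a00c0102004136418020611)) (.br (Nat.shiftLeft (nat_lit 0x5) (nat_lit 137)) (.one (nat_lit 0x900000200300a00c0104006136418020611)) (.one (nat_lit 0xa00000100200a00c0102004156818020611))))) (.br (Nat.shiftLeft (nat_lit 0x5800001) (nat_lit 113)) (.br (Nat.shiftLeft (nat_lit 0xb) (nat_lit 136)) (.one (nat_lit 0xa00000200300a00c0104006156818020611)) (.one (nat_lit 0xb00000100200a00c0102004176c18020611))) (.br (Nat.shiftLeft (nat_lit 0x3) (nat_lit 138)) (.one (nat_lit 0xb00000200300a00c0104006176c18020611)) (.br (Nat.shiftLeft (nat_lit 0x6000001) (nat_lit 113)) (.one (nat_lit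 0xc00000100200a00c0102004197018020611)) (.one (nat_lit 0xc00000200300a00c0104006197018020611))))))
def t380 : k380.all (jb2 57 fl b0) = true := by decide +kernel
noncomputable def s20 : KT := (.br (nat_lit 0x300600a00c010600c014018020650) (.br (nat_lit 0x100700a00c010200e014018020650) (.br (nat_lit 0x100200a00c0102004014018021600) (.br (nat_lit 0x800a00c0100010014018021500) k360 k361) (.br (nat_lit 0x100300a00c0102006014018020650) k362 (.br (nat_lit 0x100400a00c0102008014018020650) k363 k364))) (.br (nat_lit 0x200600a00c010400c014018020650) (.br (nat_lit 0x200400a00c0104008014018020650) k365 k366) (.br (nat_lit 0x300000a00c0106000014018020411) k367 (.br (nat_lit 0x300400a00c0106008014018020650) k368 k369)))) (.br (nat_lit 0x400000700a00c010000e014099020511) (.br (nat_lit 0x400600a00c010800c014018020650) (.br (nat_lit 0x400000a00c0108000014018020411) k370 k371) (.br (nat_lit 0x500700a00c010a00e014018020650) k372 (.br (nat_lit 0x100000800a00c0100010014038420511) k373 k374))) (.br (nat_lit 0x900000200a00c010000401413a420511)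 (.br (nat_lit 0x600000200a00c01000040140d9820511) k375 (.br (nat_lit 0x700000300a00c01000060140f9c20511) k376 k377)) (.br (nat_lit 0x400000200300a00c0104006095018020611) k378 (.br (nat_lit 0x700000200300a00c01040060f5c18020611) k379 k380)))))
noncomputable def u20 : KT := (.one (nat_lit 0xa00c0100000014018020430))
def w20 : u20.all (wj 57 s20) = true := by decide +kernel
def o20 : OkW 57 (jb2 57 fl) u20 := .lift s20 _ (.br _ _ _ (.br _ _ _ (.br _ _ _ (.br _ _ _ (.leaf b0 k360 t360) (.leaf b0 k361 t361)) (.br _ _ _ (.leaf b0 k362 t362) (.br _ _ _ (.leaf b0 k363 t363) (.leaf b0 k364 t364)))) (.br _ _ _ (.br _ _ _ (.leaf b0 k365 t365) (.leaf b0 k366 t366)) (.br _ _ _ (.leaf b0 k367 t367) (.br _ _ _ (.leaf b0 k368 t368) (.leaf b0 k369 t369))))) (.br _ _ _ (.br _ _ _ (.br _ _ _ (.leaf b0 k370 t370) (.leaf b0 k371 t371)) (.br _ _ _ (.leaf b0 k372 t372) (.br _ _ _ (.leaf b0 k373 t373) (.leaf b0 k374 t374)))) (.br _ _ _ (.br _ _ _ (.leaf b0 k375 t375) (.br _ _ _ (.leaf b0 k376 t376) (.leaf b0 k377 t377))) (.br _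 _ _ (.leaf b0 k378 t378) (.br _ _ _ (.leaf b0 k379 t379) (.leaf b0 k380 t380)))))) w20
noncomputable def k : KT := (.br (nat_lit 0x900d017000001201a02e430) (.br (nat_lit 0x900c015000001201802a430) (.br (nat_lit 0x900c0100000012018021400) (.br (nat_lit 0x900b016000001201602c430) u0 u1) (.br (nat_lit 0x900c0110000012018022430) u2 (.br (nat_lit 0x900c0120000012018024430) u3 u4))) (.br (nat_lit 0x900d010000001201a020430) (.br (nat_lit 0x900d00f000001201a01f400) u5 u6) (.br (nat_lit 0x900d011000001201a022430) u7 (.br (nat_lit 0x900d014000001201a028430) u8 u9)))) (.br (nat_lit 0x900f015000001201e02a430) (.br (nat_lit 0x900e010000001201c020430) (.br (nat_lit 0x900e00f000001201c01e430) u10 u11) (.br (nat_lit 0x900e013000001201c026430) u12 (.br (nat_lit 0x900f010000001201e020430) u13 u14))) (.br (nat_lit 0xa00b0120000014016024430) (.br (nat_lit 0xa00b0100000014016021400) u15 (.br (nat_lit 0xa00b0110000014016022430) u16 u17)) (.br (nat_lit 0xa00b015000001401602a430) u18 (.br (nat_lit 0xa00c00f000001401801f400) u19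 u20)))))
theorem ok : OkW 57 (jb2 57 fl) k := (.br _ _ _ (.br _ _ _ (.br _ _ _ (.br _ _ _ o0 o1) (.br _ _ _ o2 (.br _ _ _ o3 o4))) (.br _ _ _ (.br _ _ _ o5 o6) (.br _ _ _ o7 (.br _ _ _ o8 o9)))) (.br _ _ _ (.br _ _ _ (.br _ _ _ o10 o11) (.br _ _ _ o12 (.br _ _ _ o13 o14))) (.br _ _ _ (.br _ _ _ o15 (.br _ _ _ o16 o17)) (.br _ _ _ o18 (.br _ _ _ o19 o20)))))

end Pool.Agent.Lib.MP_ed43e6_ag.Q.Y57.R15
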