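import Pool.Agent.Lib.MP_ed43e6_ag.Y57.Fl

namespace Pool.Agent.Lib.MP_ed43e6_ag.Q.Y57.R16

set_option linter.defProp false

noncomputable def b0 : BT := .node (nat_lit 1) (nat_lit 0) .leaf .leaf
noncomputable def k0 : KT := (.br (Nat.shiftLeft (nat_lit 0x1) (nat_lit 102)) (.br (Nat.shiftLeft (nat_lit 0x1) (nat_lit 101)) (.br (Nat.shiftLeft (nat_lit 0x1) (nat_lit 100)) (.one (nat_lit 0xa00c0110000014018023400)) (.one (nat_lit 0x100a00c0110002014018022540))) (.br (Nat.shiftLeft (nat_lit 0x3) (nat_lit 100)) (.one (nat_lit 0x200a00c0110004014018023500)) (.one (nat_lit 0x300a00c0110006014018023500)))) (.br (Nat.shiftLeft (nat_lit 0x3) (nat_lit 101)) (.br (Nat.shiftLeft (nat_lit 0x5) (nat_lit 100)) (.one (nat_lit 0x400a00c0110008014018023500)) (.one (nat_lit 0x500a00c011000a014018023500))) (.br (Nat.shiftLeft (nat_lit 0x7) (nat_lit 100)) (.one (nat_lit 0x600a00c011000c014018023500)) (.one (nat_lit 0x700a00c011000e014018023500)))))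
def t0 : k0.all (jb2 57 fl b0) = true := by decide +kernel
noncomputable def k1 : KT := (.one (nat_lit 0x800a00c0110010014018022540))
def t1 : k1.all (jb2 57 fl b0) = true := by decide +kernel
noncomputable def k2 : KT := (.br (Nat.shiftLeft (nat_lit 0x1) (nat_lit 112)) (.one (nat_lit 0x900a00c0110012014018022540)) (.one (nat_lit 0x100000a00c0112000014018022411)))
def t2 : k2.all (jb2 57 fl b0) = true := by decide +kernel
noncomputable def k3 : KT := (.one (nat_lit 0x100200a00c0112004014018022650))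
def t3 : k3.all (jb2 57 fl b0) = true := by decide +kernel
noncomputable def k4 : KT := (.one (nat_lit 0x100300a00c0112006014018022650))
def t4 : k4.all (jb2 57 fl b0) = true := by decide +kernel
noncomputable def k5 : KT := (.br (Nat.shiftLeft (nat_lit 0x1005) (nat_lit 100)) (.one (nat_lit 0x100400a00c0112008014018022650)) (.br (Nat.shiftLeft (nat_lit 0x803) (nat_lit 101)) (.one (nat_lit 0x100500a00c011200a014018022650)) (.one (nat_lit 0x100600a00c011200c014018022650))))
def t5 : k5.all (jb2 57 fl b0) = true := by decide +kernel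
noncomputable def k6 : KT := (.br (Nat.shiftLeft (nat_lit 0x1) (nat_lit 113)) (.one (nat_lit 0x100700a00c011200e014018022650)) (.br (Nat.shiftLeft (nat_lit 0x1001) (nat_lit 101)) (.one (nat_lit 0x200000a00c0114000014018022411)) (.one (nat_lit 0x200300a00c0114006014018022650))))
def t6 : k6.all (jb2 57 fl b0) = true := by decide +kernel
noncomputable def k7 : KT := (.br (Nat.shiftLeft (nat_lit 0x2005) (nat_lit 100)) (.one (nat_lit 0x200400a00c0114008014018022650)) (.one (nat_lit 0x200500a00c011400a014018022650)))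
def t7 : k7.all (jb2 57 fl b0) = true := by decide +kernel
noncomputable def k8 : KT := (.br (Nat.shiftLeft (nat_lit 0x2007) (nat_lit 100)) (.one (nat_lit 0x200600a00c011400c014018022650)) (.br (Nat.shiftLeft (nat_lit 0x3) (nat_lit 112)) (.one (nat_lit 0x200700a00c011400e014018022650)) (.one (nat_lit 0x300000a00c0116000014018022411))))
def t8 : k8.all (jb2 57 fl b0) = true := by decide +kernel
noncomputable def k9 : KT := (.br (Nat.shiftLeft (nat_lit 0x3005) (nat_lit 100)) (.one (nat_lit 0x300400a00c0116008014018022650)) (.one (nat_lit 0x300500a00c011600a014018022650)))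
def t9 : k9.all (jb2 57 fl b0) = true := by decide +kernel
noncomputable def k10 : KT := (.br (Nat.shiftLeft (nat_lit 0x1) (nat_lit 114)) (.br (Nat.shiftLeft (nat_lit 0x3007) (nat_lit 100)) (.one (nat_lit 0x300600a00c011600c014018022650)) (.one (nat_lit 0x300700a00c011600e014018022650))) (.br (Nat.shiftLeft (nat_lit 0x1001) (nat_lit 102)) (.one (nat_lit 0x400000a00c0118000014018022411)) (.one (nat_lit 0x400500a00c011800a014018022650))))
def t10 : k10.all (jb2 57 fl b0) = true := by decide +kernel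
noncomputable def k11 : KT := (.br (Nat.shiftLeft (nat_lit 0x5007) (nat_lit 100)) (.br (Nat.shiftLeft (nat_lit 0x5) (nat_lit 112)) (.br (Nat.shiftLeft (nat_lit 0x4007) (nat_lit 100)) (.one (nat_lit 0x400600a00c011800c014018022650)) (.one (nat_lit 0x400700a00c011800e014018022650))) (.br (Nat.shiftLeft (nat_lit 0x1401) (nat_lit 102)) (.one (nat_lit 0x500000a00c011a000014018022411)) (.one (nat_lit 0x500600a00c011a00c014018022650)))) (.br (Nat.shiftLeft (nat_lit 0x1801) (nat_lit 102)) (.br (Nat.shiftLeft (nat_lit 0x3) (nat_lit 113)) (.one (nat_lit 0x500700a00c011a00e014018022650)) (.one (nat_lit 0x600000a00c011c000014018022411))) (.br (Nat.shiftLeft (nat_lit 0x7) (nat_lit 112)) (.one (nat_lit 0x600700a00c011c00e014018022650)) (.br (Nat.shiftLeft (nat_lit 0x1) (nat_lit 115)) (.one (nat_lit 0x700000a00c011e000014018022411)) (.one (nat_lit 0x800000a00c0110000014018124411))))))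
def t11 : k11.all (jb2 57 fl b0) = true := by decide +kernel
noncomputable def k12 : KT := (.br (Nat.shiftLeft (nat_lit 0x2000007) (nat_lit 100)) (.br (Nat.shiftLeft (nat_lit 0x1000005) (nat_lit 100)) (.br (Nat.shiftLeft (nat_lit 0x3) (nat_lit 114)) (.br (Nat.shiftLeft (nat_lit 0x5) (nat_lit 113)) (.one (nat_lit 0x900000a00c0112000014018124411)) (.br (Nat.shiftLeft (nat_lit 0xb) (nat_lit 112)) (.one (nat_lit 0xa00000a00c0114000014018124411)) (.one (nat_lit 0xb00000a00c0116000014018124411)))) (.br (Nat.shiftLeft (nat_lit 0x1000003) (nat_lit 100)) (.br (Nat.shiftLeft (nat_lit 0x1) (nat_lit 124)) (.one (nat_lit 0xc00000a00c0118000014018124411)) (.one (nat_lit 0x100000200a00c0110004014038422511))) (.br (Nat.shiftLeft (nat_lit 0x400001) (nat_lit 102)) (.one (nat_lit 0x100000300a00c0110006014038422511)) (.one (nat_lit 0x100000400a00c0110008014038422511))))) (.br (Nat.shiftLeft (nat_lit 0x2000003) (nat_lit 100)) (.br (Nat.shiftLeft (nat_lit 0x1000007) (nat_lit 100)) (.br (Nat.shiftLeft (nat_lit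 0x800003) (nat_lit 101)) (.one (nat_lit 0x100000500a00c011000a014038422511)) (.one (nat_lit 0x100000600a00c011000c014038422511))) (.br (Nat.shiftLeft (nat_lit 0x1) (nat_lit 125)) (.one (nat_lit 0x100000700a00c011000e014038422511)) (.one (nat_lit 0x200000200a00c0110004014058822511)))) (.br (Nat.shiftLeft (nat_lit 0x2000005) (nat_lit 100)) (.br (Nat.shiftLeft (nat_lit 0x800001) (nat_lit 102)) (.one (nat_lit 0x200000300a00c0110006014058822511)) (.one (nat_lit 0x200000400a00c0110008014058822511))) (.br (Nat.shiftLeft (nat_lit 0x1000003) (nat_lit 101)) (.one (nat_lit 0x200000500a00c011000a014058822511)) (.one (nat_lit 0x200000600a00c011000c014058822511)))))) (.br (Nat.shiftLeft (nat_lit 0x1) (nat_lit 126)) (.br (Nat.shiftLeft (nat_lit 0xc00001) (nat_lit 102)) (.br (Nat.shiftLeft (nat_lit 0x3) (nat_lit 124)) (.one (nat_lit 0x200000700a00c011000e014058822511)) (.br (Nat.shiftLeft (nat_lit 0x3000003) (nat_lit 100)) (.one (nat_lit 0x300000200a00c0110004014078c22511)) (.one (nat_lit 0x300000300a00c0110006014078c22511))))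 (.br (Nat.shiftLeft (nat_lit 0x1800003) (nat_lit 101)) (.br (Nat.shiftLeft (nat_lit 0x3000005) (nat_lit 100)) (.one (nat_lit 0x300000400a00c0110008014078c22511)) (.one (nat_lit 0x300000500a00c011000a014078c22511))) (.br (Nat.shiftLeft (nat_lit 0x3000007) (nat_lit 100)) (.one (nat_lit 0x300000600a00c011000c014078c22511)) (.one (nat_lit 0x300000700a00c011000e014078c22511))))) (.br (Nat.shiftLeft (nat_lit 0x2000003) (nat_lit 101)) (.br (Nat.shiftLeft (nat_lit 0x1000001) (nat_lit 102)) (.br (Nat.shiftLeft (nat_lit 0x4000003) (nat_lit 100)) (.one (nat_lit 0x400000200a00c0110004014099022511)) (.one (nat_lit 0x400000300a00c0110006014099022511))) (.br (Nat.shiftLeft (nat_lit 0x4000005) (nat_lit 100)) (.one (nat_lit 0x400000400a00c0110008014099022511)) (.one (nat_lit 0x400000500a00c011000a014099022511)))) (.br (Nat.shiftLeft (nat_lit 0x5) (nat_lit 124)) (.br (Nat.shiftLeft (nat_lit 0x4000007) (nat_lit 100)) (.one (nat_lit 0x400000600a00c011000c014099022511)) (.one (nat_lit 0x400000700a00c011000e014099022511)))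 (.br (Nat.shiftLeft (nat_lit 0x5000003) (nat_lit 100)) (.one (nat_lit 0x500000200a00c01100040140b9422511)) (.one (nat_lit 0x500000300a00c01100060140b9422511)))))))
def t12 : k12.all (jb2 57 fl b0) = true := by decide +kernel
noncomputable def k13 : KT := (.br (Nat.shiftLeft (nat_lit 0x6000003) (nat_lit 100)) (.br (Nat.shiftLeft (nat_lit 0x2800003) (nat_lit 101)) (.br (Nat.shiftLeft (nat_lit 0x5000005) (nat_lit 100)) (.one (nat_lit 0x500000400a00c01100080140b9422511)) (.one (nat_lit 0x500000500a00c011000a0140b9422511))) (.br (Nat.shiftLeft (nat_lit 0x5000007) (nat_lit 100)) (.one (nat_lit 0x500000600a00c011000c0140b9422511)) (.br (Nat.shiftLeft (nat_lit 0x3) (nat_lit 125)) (.one (nat_lit 0x500000700a00c011000e0140b9422511)) (.one (nat_lit 0x600000200a00c01100040140d9822511))))) (.br (Nat.shiftLeft (nat_lit 0x3000003) (nat_lit 101)) (.br (Nat.shiftLeft (nat_lit 0x1800001) (nat_lit 102)) (.one (nat_lit 0x600000300a00c01100060140d9822511)) (.br (Nat.shiftLeft (nat_lit 0x6000005) (nat_lit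 100)) (.one (nat_lit 0x600000400a00c01100080140d9822511)) (.one (nat_lit 0x600000500a00c011000a0140d9822511)))) (.br (Nat.shiftLeft (nat_lit 0x6000007) (nat_lit 100)) (.one (nat_lit 0x600000600a00c011000c0140d9822511)) (.br (Nat.shiftLeft (nat_lit 0x7) (nat_lit 124)) (.one (nat_lit 0x600000700a00c011000e0140d9822511)) (.one (nat_lit 0x700000200a00c01100040140f9c22511))))))
def t13 : k13.all (jb2 57 fl b0) = true := by decide +kernel
noncomputable def k14 : KT := (.br (Nat.shiftLeft (nat_lit 0x4000003) (nat_lit 101)) (.br (Nat.shiftLeft (nat_lit 0x7000007) (nat_lit 100)) (.br (Nat.shiftLeft (nat_lit 0x7000005) (nat_lit 100)) (.br (Nat.shiftLeft (nat_lit 0x1c00001) (nat_lit 102)) (.one (nat_lit 0x700000300a00c01100060140f9c22511)) (.one (nat_lit 0x700000400a00c01100080140f9c22511))) (.br (Nat.shiftLeft (nat_lit 0x3800003) (nat_lit 101)) (.one (nat_lit 0x700000500a00c011000a0140f9c22511)) (.one (nat_lit 0x700000600a00c011000c0140f9c22511)))) (.br (Nat.shiftLeft (nat_lit 0x8000003) (nat_lit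 100)) (.br (Nat.shiftLeft (nat_lit 0x1) (nat_lit 127)) (.one (nat_lit 0x700000700a00c011000e0140f9c22511)) (.one (nat_lit 0x800000200a00c011000401411a022511))) (.br (Nat.shiftLeft (nat_lit 0x2000001) (nat_lit 102)) (.one (nat_lit 0x800000300a00c011000601411a022511)) (.br (Nat.shiftLeft (nat_lit 0x8000005) (nat_lit 100)) (.one (nat_lit 0x800000400a00c011000801411a022511)) (.one (nat_lit 0x800000500a00c011000a01411a022511)))))) (.br (Nat.shiftLeft (nat_lit 0x9000005) (nat_lit 100)) (.br (Nat.shiftLeft (nat_lit 0x9) (nat_lit 124)) (.br (Nat.shiftLeft (nat_lit 0x8000007) (nat_lit 100)) (.one (nat_lit 0x800000600a00c011000c01411a022511)) (.one (nat_lit 0x800000700a00c011000e01411a022511))) (.br (Nat.shiftLeft (nat_lit 0x9000003) (nat_lit 100)) (.one (nat_lit 0x900000200a00c011000401413a422511)) (.br (Nat.shiftLeft (nat_lit 0x2400001) (nat_lit 102)) (.one (nat_lit 0x900000300a00c011000601413a422511)) (.one (nat_lit 0x900000400a00c011000801413a422511))))) (.br (Nat.shiftLeft (nat_lit 0x9000007)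 (nat_lit 100)) (.br (Nat.shiftLeft (nat_lit 0x4800003) (nat_lit 101)) (.one (nat_lit 0x900000500a00c011000a01413a422511)) (.one (nat_lit 0x900000600a00c011000c01413a422511))) (.br (Nat.shiftLeft (nat_lit 0x5) (nat_lit 125)) (.one (nat_lit 0x900000700a00c011000e01413a422511)) (.br (Nat.shiftLeft (nat_lit 0xa000003) (nat_lit 100)) (.one (nat_lit 0xa00000200a00c011000401415a822511)) (.one (nat_lit 0xa00000300a00c011000601415a822511)))))))
def t14 : k14.all (jb2 57 fl b0) = true := by decide +kernel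
noncomputable def k15 : KT := (.br (Nat.shiftLeft (nat_lit 0xb000005) (nat_lit 100)) (.br (Nat.shiftLeft (nat_lit 0xa000007) (nat_lit 100)) (.br (Nat.shiftLeft (nat_lit 0xa000005) (nat_lit 100)) (.one (nat_lit 0xa00000400a00c011000801415a822511)) (.br (Nat.shiftLeft (nat_lit 0x5000003) (nat_lit 101)) (.one (nat_lit 0xa00000500a00c011000a01415a822511)) (.one (nat_lit 0xa00000600a00c011000c01415a822511)))) (.br (Nat.shiftLeft (nat_lit 0xb000003) (nat_lit 100)) (.br (Nat.shiftLeft (nat_lit 0xb) (nat_lit 124)) (.one (nat_lit 0xa00000700a00c011000e01415a822511)) (.one (nat_lit 0xb00000200a00c011000401417ac22511))) (.br (Nat.shiftLeft (nat_lit 0x2c00001) (nat_lit 102)) (.one (nat_lit 0xb00000300a00c011000601417ac22511)) (.one (nat_lit 0xb00000400a00c011000801417ac22511))))) (.br (Nat.shiftLeft (nat_lit 0xc000003) (nat_lit 100)) (.br (Nat.shiftLeft (nat_lit 0xb000007) (nat_lit 100)) (.br (Nat.shiftLeft (nat_lit 0x5800003) (nat_lit 101)) (.one (nat_lit 0xb00000500a00c011000a01417ac22511)) (.one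 (nat_lit 0xb00000600a00c011000c01417ac22511))) (.br (Nat.shiftLeft (nat_lit 0x3) (nat_lit 126)) (.one (nat_lit 0xb00000700a00c011000e01417ac22511)) (.one (nat_lit 0xc00000200a00c011000401419b022511)))) (.br (Nat.shiftLeft (nat_lit 0xc000005) (nat_lit 100)) (.br (Nat.shiftLeft (nat_lit 0x3000001) (nat_lit 102)) (.one (nat_lit 0xc00000300a00c011000601419b022511)) (.one (nat_lit 0xc00000400a00c011000801419b022511))) (.br (Nat.shiftLeft (nat_lit 0x6000003) (nat_lit 101)) (.one (nat_lit 0xc00000500a00c011000a01419b022511)) (.one (nat_lit 0xc00000600a00c011000c01419b022511))))))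
def t15 : k15.all (jb2 57 fl b0) = true := by decide +kernel
noncomputable def s0 : KT := (.br (nat_lit 0x200500a00c011400a014018022650) (.br (nat_lit 0x100200a00c0112004014018022650) (.br (nat_lit 0x800a00c0110010014018022540) (.br (nat_lit 0x700a00c011000e014018023500) k0 k1) (.br (nat_lit 0x100000a00c0112000014018022411) k2 k3)) (.br (nat_lit 0x100600a00c011200c014018022650) (.br (nat_lit 0x100300a00c0112006014018022650) k4 k5) (.br (nat_lit 0x200300a00c0114006014018022650) k6 k7))) (.br (nat_lit 0x800000a00c0110000014018124411) (.br (nat_lit 0x300500a00c011600a014018022650) (.br (nat_lit 0x300000a00c0116000014018022411) k8 k9) (.br (nat_lit 0x400500a00c011800a014018022650) k10 k11)) (.br (nat_lit 0x700000200a00c01100040140f9c22511) (.br (nat_lit 0x500000300a00c01100060140b9422511) k12 k13) (.br (nat_lit 0xa00000300a00c011000601415a822511) k14 k15))))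
noncomputable def u0 : KT := (.one (nat_lit 0xa00c0110000014018022430))
def w0 : u0.all (wj 57 s0) = true := by decide +kernel
def o0 : OkW 57 (jb2 57 fl) u0 := .lift s0 _ (.br _ _ _ (.br _ _ _ (.br _ _ _ (.br _ _ _ (.leaf b0 k0 t0) (.leaf b0 k1 t1)) (.br _ _ _ (.leaf b0 k2 t2) (.leaf b0 k3 t3))) (.br _ _ _ (.br _ _ _ (.leaf b0 k4 t4) (.leaf b0 k5 t5)) (.br _ _ _ (.leaf b0 k6 t6) (.leaf b0 k7 t7)))) (.br _ _ _ (.br _ _ _ (.br _ _ _ (.leaf b0 k8 t8) (.leaf b0 k9 t9)) (.br _ _ _ (.leaf b0 k10 t10) (.leaf b0 k11 t11))) (.br _ _ _ (.br _ _ _ (.leaf b0 k12 t12) (.leaf b0 k13 t13)) (.br _ _ _ (.leaf b0 k14 t14) (.leaf b0 k15 t15))))) w0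
noncomputable def k16 : KT := (.br (Nat.shiftLeft (nat_lit 0xa00c013) (nat_lit 64)) (.one (nat_lit 0xa00c0120000014018025400)) (.br (Nat.shiftLeft (nat_lit 0x1) (nat_lit 100)) (.one (nat_lit 0xa00c0130000014018027400)) (.one (nat_lit 0x100a00c0120002014018024540))))
def t16 : k16.all (jb2 57 fl b0) = true := by decide +kernel
noncomputable def k17 : KT := (.br (Nat.shiftLeft (nat_lit 0x1) (nat_lit 101)) (.one (nat_lit 0x100a00c0130002014018026540)) (.one (nat_lit 0x200a00c0120004014018025500)))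
def t17 : k17.all (jb2 57 fl b0) = true := by decide +kernel
noncomputable def k18 : KT := (.br (Nat.shiftLeft (nat_lit 0x1) (nat_lit 102)) (.br (Nat.shiftLeft (nat_lit 0x3) (nat_lit 100)) (.one (nat_lit 0x200a00c0130004014018026540)) (.br (Nat.shiftLeft (nat_lit 0x300a00c013) (nat_lit 64)) (.one (nat_lit 0x300a00c0120006014018025500)) (.one (nat_lit 0x300a00c0130006014018027500)))) (.br (Nat.shiftLeft (nat_lit 0x400a00c013) (nat_lit 64)) (.one (nat_lit 0x400a00c0120008014018025500)) (.br (Nat.shiftLeft (nat_lit 0x5) (nat_lit 100)) (.one (nat_lit 0x400a00c0130008014018027500)) (.one (nat_lit 0x500a00c012000a014018025500)))))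
def t18 : k18.all (jb2 57 fl b0) = true := by decide +kernel
noncomputable def k19 : KT := (.br (Nat.shiftLeft (nat_lit 0x3) (nat_lit 101)) (.one (nat_lit 0x500a00c013000a014018026540)) (.one (nat_lit 0x600a00c012000c014018025500)))
def t19 : k19.all (jb2 57 fl b0) = true := by decide +kernel
noncomputable def k20 : KT := (.one (nat_lit 0x600a00c013000c014018026540))
def t20 : k20.all (jb2 57 fl b0) = true := by decide +kernel
noncomputable def k21 : KT := (.one (nat_lit 0x700a00c012000e014018024540))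
def t21 : k21.all (jb2 57 fl b0) = true := by decide +kernel
noncomputable def k22 : KT := (.br (Nat.shiftLeft (nat_lit 0x1) (nat_lit 103)) (.one (nat_lit 0x700a00c013000e014018026540)) (.one (nat_lit 0x800a00c0120010014018024540)))
def t22 : k22.all (jb2 57 fl b0) = true := by decide +kernel
noncomputable def k23 : KT := (.br (Nat.shiftLeft (nat_lit 0x900a00c013) (nat_lit 64)) (.br (Nat.shiftLeft (nat_lit 0x9) (nat_lit 100)) (.one (nat_lit 0x800a00c0130010014018026540)) (.one (nat_lit 0x900a00c0120012014018024540))) (.br (Nat.shiftLeft (nat_lit 0x1) (nat_lit 112)) (.one (nat_lit 0x900a00c0130012014018026540)) (.br (Nat.shiftLeft (nat_lit 0x100000a00c013) (nat_lit 64)) (.one (nat_lit 0x100000a00c0122000014018024411)) (.one (nat_lit 0x100000a00c0132000014018026411)))))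
def t23 : k23.all (jb2 57 fl b0) = true := by decide +kernel
noncomputable def k24 : KT := (.br (Nat.shiftLeft (nat_lit 0x1003) (nat_lit 100)) (.one (nat_lit 0x100200a00c0122004014018024650)) (.one (nat_lit 0x100300a00c0122006014018024650)))
def t24 : k24.all (jb2 57 fl b0) = true := by decide +kernel
noncomputable def k25 : KT := (.br (Nat.shiftLeft (nat_lit 0x401) (nat_lit 102)) (.one (nat_lit 0x100300a00c0132006014018026650)) (.br (Nat.shiftLeft (nat_lit 0x100400a00c013) (nat_lit 64)) (.one (nat_lit 0x100400a00c0122008014018024650)) (.one (nat_lit 0x100400a00c0132008014018026650))))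
def t25 : k25.all (jb2 57 fl b0) = true := by decide +kernel
noncomputable def k26 : KT := (.br (Nat.shiftLeft (nat_lit 0x1) (nat_lit 113)) (.br (Nat.shiftLeft (nat_lit 0x803) (nat_lit 101)) (.one (nat_lit 0x100500a00c012200a014018024650)) (.one (nat_lit 0x100600a00c012200c014018024650))) (.br (Nat.shiftLeft (nat_lit 0x200000a00c013) (nat_lit 64)) (.one (nat_lit 0x200000a00c0124000014018024411)) (.br (Nat.shiftLeft (nat_lit 0x1001) (nat_lit 101)) (.one (nat_lit 0x200000a00c0134000014018026411)) (.one (nat_lit 0x200300a00c0124006014018024650)))))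
def t26 : k26.all (jb2 57 fl b0) = true := by decide +kernel
noncomputable def k27 : KT := (.br (Nat.shiftLeft (nat_lit 0x801) (nat_lit 102)) (.one (nat_lit 0x200300a00c0134006014018026650)) (.one (nat_lit 0x200400a00c0124008014018024650)))
def t27 : k27.all (jb2 57 fl b0) = true := by decide +kernel
noncomputable def k28 : KT := (.br (Nat.shiftLeft (nat_lit 0x1003) (nat_lit 101)) (.br (Nat.shiftLeft (nat_lit 0x2005) (nat_lit 100)) (.one (nat_lit 0x200400a00c0134008014018026650)) (.one (nat_lit 0x200500a00c012400a014018024650))) (.br (Nat.shiftLeft (nat_lit 0x3) (nat_lit 112)) (.one (nat_lit 0x200600a00c012400c014018024650)) (.br (Nat.shiftLeft (nat_lit 0x300000a00c013) (nat_lit 64)) (.one (nat_lit 0x300000a00c0126000014018024411)) (.one (nat_lit 0x300000a00c0136000014018026411)))))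
def t28 : k28.all (jb2 57 fl b0) = true := by decide +kernel
noncomputable def k29 : KT := (.br (Nat.shiftLeft (nat_lit 0x300400a00c013) (nat_lit 64)) (.one (nat_lit 0x300400a00c0126008014018024650)) (.br (Nat.shiftLeft (nat_lit 0x3005) (nat_lit 100)) (.one (nat_lit 0x300400a00c0136008014018026650)) (.one (nat_lit 0x300500a00c012600a014018024650))))
def t29 : k29.all (jb2 57 fl b0) = true := by decide +kernel
noncomputable def k30 : KT := (.br (Nat.shiftLeft (nat_lit 0x500000a00c013) (nat_lit 64)) (.br (Nat.shiftLeft (nat_lit 0x1001) (nat_lit 102)) (.br (Nat.shiftLeft (nat_lit 0x1) (nat_lit 114)) (.one (nat_lit 0x300600a00c012600c014018024650)) (.br (Nat.shiftLeft (nat_lit 0x400000a00c013) (nat_lit 64)) (.one (nat_lit 0x400000a00c0128000014018024411)) (.one (nat_lit 0x400000a00c0138000014018026411)))) (.br (Nat.shiftLeft (nat_lit 0x2003) (nat_lit 101)) (.one (nat_lit 0x400500a00c012800a014018024650)) (.br (Nat.shiftLeft (nat_lit 0x5) (nat_lit 112)) (.one (nat_lit 0x400600a00c012800c014018024650))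 (.one (nat_lit 0x500000a00c012a000014018024411))))) (.br (Nat.shiftLeft (nat_lit 0x600000a00c013) (nat_lit 64)) (.br (Nat.shiftLeft (nat_lit 0x1401) (nat_lit 102)) (.one (nat_lit 0x500000a00c013a000014018026411)) (.br (Nat.shiftLeft (nat_lit 0x3) (nat_lit 113)) (.one (nat_lit 0x500600a00c012a00c014018024650)) (.one (nat_lit 0x600000a00c012c000014018024411)))) (.br (Nat.shiftLeft (nat_lit 0x7) (nat_lit 112)) (.one (nat_lit 0x600000a00c013c000014018026411)) (.br (Nat.shiftLeft (nat_lit 0x700000a00c013) (nat_lit 64)) (.one (nat_lit 0x700000a00c012e000014018024411)) (.one (nat_lit 0x700000a00c013e000014018026411))))))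
def t30 : k30.all (jb2 57 fl b0) = true := by decide +kernel
noncomputable def k31 : KT := (.br (Nat.shiftLeft (nat_lit 0x200000300a00c013) (nat_lit 64)) (.br (Nat.shiftLeft (nat_lit 0xc00000a00c013) (nat_lit 64)) (.br (Nat.shiftLeft (nat_lit 0x5) (nat_lit 113)) (.br (Nat.shiftLeft (nat_lit 0x9) (nat_lit 112)) (.br (Nat.shiftLeft (nat_lit 0x800000a00c013) (nat_lit 64)) (.one (nat_lit 0x800000a00c0120000014018126411)) (.one (nat_lit 0x800000a00c0130000014018128411))) (.br (Nat.shiftLeft (nat_lit 0x900000a00c013) (nat_lit 64)) (.one (nat_lit 0x900000a00c0122000014018126411)) (.one (nat_lit 0x900000a00c0132000014018128411)))) (.br (Nat.shiftLeft (nat_lit 0xb) (nat_lit 112)) (.br (Nat.shiftLeft (nat_lit 0xa00000a00c013) (nat_lit 64)) (.one (nat_lit 0xa00000a00c0124000014018126411)) (.one (nat_lit 0xa00000a00c0134000014018128411))) (.br (Nat.shiftLeft (nat_lit 0xb00000a00c013) (nat_lit 64)) (.one (nat_lit 0xb00000a00c0126000014018126411)) (.br (Nat.shiftLeft (nat_lit 0x3) (nat_lit 114)) (.one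 (nat_lit 0xb00000a00c0136000014018128411)) (.one (nat_lit 0xc00000a00c0128000014018126411)))))) (.br (Nat.shiftLeft (nat_lit 0x100000400a00c013) (nat_lit 64)) (.br (Nat.shiftLeft (nat_lit 0x1000003) (nat_lit 100)) (.br (Nat.shiftLeft (nat_lit 0x1) (nat_lit 124)) (.one (nat_lit 0xc00000a00c0138000014018128411)) (.one (nat_lit 0x100000200a00c0120004014038424511))) (.br (Nat.shiftLeft (nat_lit 0x100000300a00c013) (nat_lit 64)) (.one (nat_lit 0x100000300a00c0120006014038424511)) (.br (Nat.shiftLeft (nat_lit 0x400001) (nat_lit 102)) (.one (nat_lit 0x100000300a00c0130006014038426511)) (.one (nat_lit 0x100000400a00c0120008014038424511))))) (.br (Nat.shiftLeft (nat_lit 0x800003) (nat_lit 101)) (.br (Nat.shiftLeft (nat_lit 0x1000005) (nat_lit 100)) (.one (nat_lit 0x100000400a00c0130008014038426511)) (.one (nat_lit 0x100000500a00c012000a014038424511))) (.br (Nat.shiftLeft (nat_lit 0x1) (nat_lit 125)) (.one (nat_lit 0x100000600a00c012000c014038424511)) (.br (Nat.shiftLeft (nat_lit 0x2000003) (nat_lit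 100)) (.one (nat_lit 0x200000200a00c0120004014058824511)) (.one (nat_lit 0x200000300a00c0120006014058824511))))))) (.br (Nat.shiftLeft (nat_lit 0x300000400a00c013) (nat_lit 64)) (.br (Nat.shiftLeft (nat_lit 0x1000003) (nat_lit 101)) (.br (Nat.shiftLeft (nat_lit 0x200000400a00c013) (nat_lit 64)) (.br (Nat.shiftLeft (nat_lit 0x800001) (nat_lit 102)) (.one (nat_lit 0x200000300a00c0130006014058826511)) (.one (nat_lit 0x200000400a00c0120008014058824511))) (.br (Nat.shiftLeft (nat_lit 0x2000005) (nat_lit 100)) (.one (nat_lit 0x200000400a00c0130008014058826511)) (.one (nat_lit 0x200000500a00c012000a014058824511)))) (.br (Nat.shiftLeft (nat_lit 0x3000003) (nat_lit 100)) (.br (Nat.shiftLeft (nat_lit 0x3) (nat_lit 124)) (.one (nat_lit 0x200000600a00c012000c014058824511)) (.one (nat_lit 0x300000200a00c0120004014078c24511))) (.br (Nat.shiftLeft (nat_lit 0x300000300a00c013) (nat_lit 64)) (.one (nat_lit 0x300000300a00c0120006014078c24511)) (.br (Nat.shiftLeft (nat_lit 0xc00001) (nat_lit 102)) (.one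 (nat_lit 0x300000300a00c0130006014078c26511)) (.one (nat_lit 0x300000400a00c0120008014078c24511)))))) (.br (Nat.shiftLeft (nat_lit 0x400000300a00c013) (nat_lit 64)) (.br (Nat.shiftLeft (nat_lit 0x1800003) (nat_lit 101)) (.br (Nat.shiftLeft (nat_lit 0x3000005) (nat_lit 100)) (.one (nat_lit 0x300000400a00c0130008014078c26511)) (.one (nat_lit 0x300000500a00c012000a014078c24511))) (.br (Nat.shiftLeft (nat_lit 0x1) (nat_lit 126)) (.one (nat_lit 0x300000600a00c012000c014078c24511)) (.br (Nat.shiftLeft (nat_lit 0x4000003) (nat_lit 100)) (.one (nat_lit 0x400000200a00c0120004014099024511)) (.one (nat_lit 0x400000300a00c0120006014099024511))))) (.br (Nat.shiftLeft (nat_lit 0x400000400a00c013) (nat_lit 64)) (.br (Nat.shiftLeft (nat_lit 0x1000001) (nat_lit 102)) (.one (nat_lit 0x400000300a00c0130006014099026511)) (.one (nat_lit 0x400000400a00c0120008014099024511))) (.br (Nat.shiftLeft (nat_lit 0x4000005) (nat_lit 100)) (.one (nat_lit 0x400000400a00c0130008014099026511)) (.br (Nat.shiftLeft (nat_lit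 0x2000003) (nat_lit 101)) (.one (nat_lit 0x400000500a00c012000a014099024511)) (.one (nat_lit 0x400000600a00c012000c014099024511))))))))
def t31 : k31.all (jb2 57 fl b0) = true := by decide +kernel
noncomputable def k32 : KT := (.br (Nat.shiftLeft (nat_lit 0x2800003) (nat_lit 101)) (.br (Nat.shiftLeft (nat_lit 0x1400001) (nat_lit 102)) (.br (Nat.shiftLeft (nat_lit 0x5000003) (nat_lit 100)) (.one (nat_lit 0x500000200a00c01200040140b9424511)) (.br (Nat.shiftLeft (nat_lit 0x500000300a00c013) (nat_lit 64)) (.one (nat_lit 0x500000300a00c01200060140b9424511)) (.one (nat_lit 0x500000300a00c01300060140b9426511)))) (.br (Nat.shiftLeft (nat_lit 0x500000400a00c013) (nat_lit 64)) (.one (nat_lit 0x500000400a00c01200080140b9424511)) (.br (Nat.shiftLeft (nat_lit 0x5000005) (nat_lit 100)) (.one (nat_lit 0x500000400a00c01300080140b9426511)) (.one (nat_lit 0x500000500a00c012000a0140b9424511))))) (.br (Nat.shiftLeft (nat_lit 0x600000300a00c013) (nat_lit 64)) (.br (Nat.shiftLeft (nat_lit 0x3) (nat_lit 125))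 (.one (nat_lit 0x500000600a00c012000c0140b9424511)) (.br (Nat.shiftLeft (nat_lit 0x6000003) (nat_lit 100)) (.one (nat_lit 0x600000200a00c01200040140d9824511)) (.one (nat_lit 0x600000300a00c01200060140d9824511)))) (.br (Nat.shiftLeft (nat_lit 0x1800001) (nat_lit 102)) (.one (nat_lit 0x600000300a00c01300060140d9826511)) (.br (Nat.shiftLeft (nat_lit 0x600000400a00c013) (nat_lit 64)) (.one (nat_lit 0x600000400a00c01200080140d9824511)) (.one (nat_lit 0x600000400a00c01300080140d9826511))))))
def t32 : k32.all (jb2 57 fl b0) = true := by decide +kernel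
noncomputable def k33 : KT := (.br (Nat.shiftLeft (nat_lit 0x2000001) (nat_lit 102)) (.br (Nat.shiftLeft (nat_lit 0x700000400a00c013) (nat_lit 64)) (.br (Nat.shiftLeft (nat_lit 0x7000003) (nat_lit 100)) (.br (Nat.shiftLeft (nat_lit 0x3000003) (nat_lit 101)) (.one (nat_lit 0x600000500a00c012000a0140d9824511)) (.br (Nat.shiftLeft (nat_lit 0x7) (nat_lit 124)) (.one (nat_lit 0x600000600a00c012000c0140d9824511)) (.one (nat_lit 0x700000200a00c01200040140f9c24511)))) (.br (Nat.shiftLeft (nat_lit 0x700000300a00c013) (nat_lit 64)) (.one (nat_lit 0x700000300a00c01200060140f9c24511)) (.br (Nat.shiftLeft (nat_lit 0x1c00001) (nat_lit 102)) (.one (nat_lit 0x700000300a00c01300060140f9c26511)) (.one (nat_lit 0x700000400a00c01200080140f9c24511))))) (.br (Nat.shiftLeft (nat_lit 0x1) (nat_lit 127)) (.br (Nat.shiftLeft (nat_lit 0x7000005) (nat_lit 100)) (.one (nat_lit 0x700000400a00c01300080140f9c26511)) (.br (Nat.shiftLeft (nat_lit 0x3800003) (nat_lit 101)) (.one (nat_lit 0x700000500a00c012000a0140f9c24511))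 (.one (nat_lit 0x700000600a00c012000c0140f9c24511)))) (.br (Nat.shiftLeft (nat_lit 0x8000003) (nat_lit 100)) (.one (nat_lit 0x800000200a00c012000401411a024511)) (.br (Nat.shiftLeft (nat_lit 0x800000300a00c013) (nat_lit 64)) (.one (nat_lit 0x800000300a00c012000601411a024511)) (.one (nat_lit 0x800000300a00c013000601411a026511)))))) (.br (Nat.shiftLeft (nat_lit 0x900000300a00c013) (nat_lit 64)) (.br (Nat.shiftLeft (nat_lit 0x4000003) (nat_lit 101)) (.br (Nat.shiftLeft (nat_lit 0x800000400a00c013) (nat_lit 64)) (.one (nat_lit 0x800000400a00c012000801411a024511)) (.br (Nat.shiftLeft (nat_lit 0x8000005) (nat_lit 100)) (.one (nat_lit 0x800000400a00c013000801411a026511)) (.one (nat_lit 0x800000500a00c012000a01411a024511)))) (.br (Nat.shiftLeft (nat_lit 0x9) (nat_lit 124)) (.one (nat_lit 0x800000600a00c012000c01411a024511)) (.br (Nat.shiftLeft (nat_lit 0x9000003) (nat_lit 100)) (.one (nat_lit 0x900000200a00c012000401413a424511)) (.one (nat_lit 0x900000300a00c012000601413a424511))))) (.br (Nat.shiftLeft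 (nat_lit 0x9000005) (nat_lit 100)) (.br (Nat.shiftLeft (nat_lit 0x2400001) (nat_lit 102)) (.one (nat_lit 0x900000300a00c013000601413a426511)) (.br (Nat.shiftLeft (nat_lit 0x900000400a00c013) (nat_lit 64)) (.one (nat_lit 0x900000400a00c012000801413a424511)) (.one (nat_lit 0x900000400a00c013000801413a426511)))) (.br (Nat.shiftLeft (nat_lit 0x4800003) (nat_lit 101)) (.one (nat_lit 0x900000500a00c012000a01413a424511)) (.br (Nat.shiftLeft (nat_lit 0x5) (nat_lit 125)) (.one (nat_lit 0x900000600a00c012000c01413a424511)) (.one (nat_lit 0xa00000200a00c012000401415a824511)))))))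
def t33 : k33.all (jb2 57 fl b0) = true := by decide +kernel
noncomputable def k34 : KT := (.br (Nat.shiftLeft (nat_lit 0x2c00001) (nat_lit 102)) (.br (Nat.shiftLeft (nat_lit 0xa000005) (nat_lit 100)) (.br (Nat.shiftLeft (nat_lit 0x2800001) (nat_lit 102)) (.br (Nat.shiftLeft (nat_lit 0xa00000300a00c013) (nat_lit 64)) (.one (nat_lit 0xa00000300a00c012000601415a824511)) (.one (nat_lit 0xa00000300a00c013000601415a826511))) (.br (Nat.shiftLeft (nat_lit 0xa00000400a00c013) (nat_lit 64)) (.one (nat_lit 0xa00000400a00c012000801415a824511)) (.one (nat_lit 0xa00000400a00c013000801415a826511)))) (.br (Nat.shiftLeft (nat_lit 0xb) (nat_lit 124)) (.br (Nat.shiftLeft (nat_lit 0x5000003) (nat_lit 101)) (.one (nat_lit 0xa00000500a00c012000a01415a824511)) (.one (nat_lit 0xa00000600a00c012000c01415a824511))) (.br (Nat.shiftLeft (nat_lit 0xb000003) (nat_lit 100)) (.one (nat_lit 0xb00000200a00c012000401417ac24511)) (.br (Nat.shiftLeft (nat_lit 0xb00000300a00c013) (nat_lit 64)) (.one (nat_lit 0xb00000300a00c012000601417ac24511))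 (.one (nat_lit 0xb00000300a00c013000601417ac26511)))))) (.br (Nat.shiftLeft (nat_lit 0xc000003) (nat_lit 100)) (.br (Nat.shiftLeft (nat_lit 0xb000005) (nat_lit 100)) (.br (Nat.shiftLeft (nat_lit 0xb00000400a00c013) (nat_lit 64)) (.one (nat_lit 0xb00000400a00c012000801417ac24511)) (.one (nat_lit 0xb00000400a00c013000801417ac26511))) (.br (Nat.shiftLeft (nat_lit 0x5800003) (nat_lit 101)) (.one (nat_lit 0xb00000500a00c012000a01417ac24511)) (.br (Nat.shiftLeft (nat_lit 0x3) (nat_lit 126)) (.one (nat_lit 0xb00000600a00c012000c01417ac24511)) (.one (nat_lit 0xc00000200a00c012000401419b024511))))) (.br (Nat.shiftLeft (nat_lit 0x3000001) (nat_lit 102)) (.br (Nat.shiftLeft (nat_lit 0xc00000300a00c013) (nat_lit 64)) (.one (nat_lit 0xc00000300a00c012000601419b024511)) (.one (nat_lit 0xc00000300a00c013000601419b026511))) (.br (Nat.shiftLeft (nat_lit 0xc00000400a00c013) (nat_lit 64)) (.one (nat_lit 0xc00000400a00c012000801419b024511)) (.br (Nat.shiftLeft (nat_lit 0xc000005) (nat_lit 100)) (.one (nat_lit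 0xc00000400a00c013000801419b026511)) (.one (nat_lit 0xc00000500a00c012000a01419b024511)))))))
def t34 : k34.all (jb2 57 fl b0) = true := by decide +kernel
noncomputable def s1 : KT := (.br (nat_lit 0x100300a00c0122006014018024650) (.br (nat_lit 0x600a00c012000c014018025500) (.br (nat_lit 0x200a00c0120004014018025500) (.br (nat_lit 0x100a00c0120002014018024540) k16 k17) (.br (nat_lit 0x500a00c012000a014018025500) k18 k19)) (.br (nat_lit 0x700a00c012000e014018024540) (.br (nat_lit 0x600a00c013000c014018026540) k20 k21) (.br (nat_lit 0x800a00c0120010014018024540) k22 (.br (nat_lit 0x100000a00c0132000014018026411) k23 k24)))) (.br (nat_lit 0x300500a00c012600a014018024650) (.br (nat_lit 0x200300a00c0124006014018024650) (.br (nat_lit 0x100400a00c0132008014018026650) k25 k26) (.br (nat_lit 0x200400a00c0124008014018024650) k27 (.br (nat_lit 0x300000a00c0136000014018026411) k28 k29))) (.br (nat_lit 0x400000600a00c012000c014099024511) (.br (nat_lit 0x700000a00c013e000014018026411) k30 k31) (.br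 (nat_lit 0x600000400a00c01300080140d9826511) k32 (.br (nat_lit 0xa00000200a00c012000401415a824511) k33 k34)))))
noncomputable def u1 : KT := (.br (Nat.shiftLeft (nat_lit 0xa00c013) (nat_lit 64)) (.one (nat_lit 0xa00c0120000014018024430)) (.one (nat_lit 0xa00c0130000014018026430)))
def w1 : u1.all (wj 57 s1) = true := by decide +kernel
def o1 : OkW 57 (jb2 57 fl) u1 := .lift s1 _ (.br _ _ _ (.br _ _ _ (.br _ _ _ (.br _ _ _ (.leaf b0 k16 t16) (.leaf b0 k17 t17)) (.br _ _ _ (.leaf b0 k18 t18) (.leaf b0 k19 t19))) (.br _ _ _ (.br _ _ _ (.leaf b0 k20 t20) (.leaf b0 k21 t21)) (.br _ _ _ (.leaf b0 k22 t22) (.br _ _ _ (.leaf b0 k23 t23) (.leaf b0 k24 t24))))) (.br _ _ _ (.br _ _ _ (.br _ _ _ (.leaf b0 k25 t25) (.leaf b0 k26 t26)) (.br _ _ _ (.leaf b0 k27 t27) (.br _ _ _ (.leaf b0 k28 t28) (.leaf b0 k29 t29)))) (.br _ _ _ (.br _ _ _ (.leaf b0 k30 t30) (.leaf b0 k31 t31)) (.br _ _ _ (.leaf b0 k32 t32) (.br _ _ _ (.leaf b0 k33 t33) (.leaf b0 k34 t34)))))) w1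
noncomputable def k35 : KT := (.br (Nat.shiftLeft (nat_lit 0x1401803) (nat_lit 67)) (.br (Nat.shiftLeft (nat_lit 0x500600b) (nat_lit 65)) (.br (Nat.shiftLeft (nat_lit 0xa00c015) (nat_lit 64)) (.one (nat_lit 0xa00c0140000014018029400)) (.one (nat_lit 0xa00c015000001401802b400))) (.br (Nat.shiftLeft (nat_lit 0xa00c017) (nat_lit 64)) (.one (nat_lit 0xa00c016000001401802d400)) (.one (nat_lit 0xa00c017000001401802f400)))) (.br (Nat.shiftLeft (nat_lit 0x1) (nat_lit 100)) (.br (Nat.shiftLeft (nat_lit 0xa00d) (nat_lit 76)) (.one (nat_lit 0xa00c0180000014018031400)) (.one (nat_lit 0xa00d00e000001401a01d400))) (.br (Nat.shiftLeft (nat_lit 0x100a00c015) (nat_lit 64)) (.one (nat_lit 0x100a00c0140002014018028540)) (.one (nat_lit 0x100a00c015000201401802a540)))))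
def t35 : k35.all (jb2 57 fl b0) = true := by decide +kernel
noncomputable def k36 : KT := (.br (Nat.shiftLeft (nat_lit 0x100a00c017) (nat_lit 64)) (.one (nat_lit 0x100a00c016000201401802c540)) (.br (Nat.shiftLeft (nat_lit 0x201401803) (nat_lit 67)) (.one (nat_lit 0x100a00c017000201401802e540)) (.one (nat_lit 0x100a00c0180002014018030540))))
def t36 : k36.all (jb2 57 fl b0) = true := by decide +kernel
noncomputable def k37 : KT := (.one (nat_lit 0x200a00c0140004014018028540))
def t37 : k37.all (jb2 57 fl b0) = true := by decide +kernel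
noncomputable def k38 : KT := (.br (Nat.shiftLeft (nat_lit 0x100500600b) (nat_lit 65)) (.one (nat_lit 0x200a00c015000401401802a540)) (.one (nat_lit 0x200a00c016000401401802c540)))
def t38 : k38.all (jb2 57 fl b0) = true := by decide +kernel
noncomputable def k39 : KT := (.br (Nat.shiftLeft (nat_lit 0x401401803) (nat_lit 67)) (.one (nat_lit 0x200a00c017000401401802e540)) (.one (nat_lit 0x200a00c0180004014018030540)))
def t39 : k39.all (jb2 57 fl b0) = true := by decide +kernel
noncomputable def k40 : KT := (.one (nat_lit 0x300a00c0140006014018028540))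
def t40 : k40.all (jb2 57 fl b0) = true := by decide +kernel
noncomputable def k41 : KT := (.br (Nat.shiftLeft (nat_lit 0x180500600b) (nat_lit 65)) (.one (nat_lit 0x300a00c015000601401802a540)) (.one (nat_lit 0x300a00c016000601401802c540)))
def t41 : k41.all (jb2 57 fl b0) = true := by decide +kernel
noncomputable def k42 : KT := (.br (Nat.shiftLeft (nat_lit 0x601401803) (nat_lit 67)) (.one (nat_lit 0x300a00c017000601401802e540)) (.one (nat_lit 0x300a00c0180006014018030540)))
def t42 : k42.all (jb2 57 fl b0) = true := by decide +kernel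
noncomputable def k43 : KT := (.one (nat_lit 0x400a00c0140008014018028540))
def t43 : k43.all (jb2 57 fl b0) = true := by decide +kernel
noncomputable def k44 : KT := (.br (Nat.shiftLeft (nat_lit 0x200500600b) (nat_lit 65)) (.one (nat_lit 0x400a00c015000801401802a540)) (.one (nat_lit 0x400a00c016000801401802c540)))
def t44 : k44.all (jb2 57 fl b0) = true := by decide +kernel
noncomputable def k45 : KT := (.br (Nat.shiftLeft (nat_lit 0x801401803) (nat_lit 67)) (.one (nat_lit 0x400a00c017000801401802e540)) (.one (nat_lit 0x400a00c0180008014018030540)))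
def t45 : k45.all (jb2 57 fl b0) = true := by decide +kernel
noncomputable def k46 : KT := (.one (nat_lit 0x500a00c014000a014018028540))
def t46 : k46.all (jb2 57 fl b0) = true := by decide +kernel
noncomputable def k47 : KT := (.br (Nat.shiftLeft (nat_lit 0x280500600b) (nat_lit 65)) (.one (nat_lit 0x500a00c015000a01401802a540)) (.br (Nat.shiftLeft (nat_lit 0x500a00c017) (nat_lit 64)) (.one (nat_lit 0x500a00c016000a01401802c540)) (.one (nat_lit 0x500a00c017000a01401802e540))))
def t47 : k47.all (jb2 57 fl b0) = true := by decide +kernel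
noncomputable def k48 : KT := (.br (Nat.shiftLeft (nat_lit 0x3) (nat_lit 101)) (.one (nat_lit 0x500a00c018000a014018030540)) (.br (Nat.shiftLeft (nat_lit 0x600a00c015) (nat_lit 64)) (.one (nat_lit 0x600a00c014000c014018028540)) (.one (nat_lit 0x600a00c015000c01401802a540))))
def t48 : k48.all (jb2 57 fl b0) = true := by decide +kernel
noncomputable def k49 : KT := (.br (Nat.shiftLeft (nat_lit 0xc01401803) (nat_lit 67)) (.br (Nat.shiftLeft (nat_lit 0x600a00c017) (nat_lit 64)) (.one (nat_lit 0x600a00c016000c01401802c540)) (.one (nat_lit 0x600a00c017000c01401802e540))) (.br (Nat.shiftLeft (nat_lit 0x7) (nat_lit 100)) (.one (nat_lit 0x600a00c018000c014018030540)) (.br (Nat.shiftLeft (nat_lit 0x700a00c015) (nat_lit 64)) (.one (nat_lit 0x700a00c014000e014018028540)) (.one (nat_lit 0x700a00c015000e01401802a540)))))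
def t49 : k49.all (jb2 57 fl b0) = true := by decide +kernel
noncomputable def k50 : KT := (.br (Nat.shiftLeft (nat_lit 0x900a00c015) (nat_lit 64)) (.br (Nat.shiftLeft (nat_lit 0x800a00c015) (nat_lit 64)) (.br (Nat.shiftLeft (nat_lit 0xe01401803) (nat_lit 67)) (.br (Nat.shiftLeft (nat_lit 0x700a00c017) (nat_lit 64)) (.one (nat_lit 0x700a00c016000e01401802c540)) (.one (nat_lit 0x700a00c017000e01401802e540))) (.br (Nat.shiftLeft (nat_lit 0x1) (nat_lit 103)) (.one (nat_lit 0x700a00c018000e014018030540)) (.one (nat_lit 0x800a00c0140010014018028540)))) (.br (Nat.shiftLeft (nat_lit 0x800a00c017) (nat_lit 64)) (.br (Nat.shiftLeft (nat_lit 0x400500600b) (nat_lit 65)) (.one (nat_lit 0x800a00c015001001401802a540)) (.one (nat_lit 0x800a00c016001001401802c540))) (.br (Nat.shiftLeft (nat_lit 0x1001401803) (nat_lit 67)) (.one (nat_lit 0x800a00c017001001401802e540)) (.br (Nat.shiftLeft (nat_lit 0x9) (nat_lit 100)) (.one (nat_lit 0x800a00c0180010014018030540)) (.one (nat_lit 0x900a00c0140012014018028540))))))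 (.br (Nat.shiftLeft (nat_lit 0x1) (nat_lit 112)) (.br (Nat.shiftLeft (nat_lit 0x900a00c017) (nat_lit 64)) (.br (Nat.shiftLeft (nat_lit 0x480500600b) (nat_lit 65)) (.one (nat_lit 0x900a00c015001201401802a540)) (.one (nat_lit 0x900a00c016001201401802c540))) (.br (Nat.shiftLeft (nat_lit 0x1201401803) (nat_lit 67)) (.one (nat_lit 0x900a00c017001201401802e540)) (.one (nat_lit 0x900a00c0180012014018030540)))) (.br (Nat.shiftLeft (nat_lit 0x80000500600b) (nat_lit 65)) (.br (Nat.shiftLeft (nat_lit 0x100000a00c015) (nat_lit 64)) (.one (nat_lit 0x100000a00c0142000014018028411)) (.one (nat_lit 0x100000a00c015200001401802a411))) (.br (Nat.shiftLeft (nat_lit 0x100000a00c017) (nat_lit 64)) (.one (nat_lit 0x100000a00c016200001401802c411)) (.br (Nat.shiftLeft (nat_lit 0x200001401803) (nat_lit 67)) (.one (nat_lit 0x100000a00c017200001401802e411)) (.one (nat_lit 0x100000a00c0182000014018030411)))))))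
def t50 : k50.all (jb2 57 fl b0) = true := by decide +kernel
noncomputable def k51 : KT := (.br (Nat.shiftLeft (nat_lit 0x3) (nat_lit 113)) (.br (Nat.shiftLeft (nat_lit 0x1) (nat_lit 114)) (.br (Nat.shiftLeft (nat_lit 0x3) (nat_lit 112)) (.br (Nat.shiftLeft (nat_lit 0x100000500600b) (nat_lit 65)) (.br (Nat.shiftLeft (nat_lit 0x200000a00c015) (nat_lit 64)) (.one (nat_lit 0x200000a00c0144000014018028411)) (.one (nat_lit 0x200000a00c015400001401802a411))) (.br (Nat.shiftLeft (nat_lit 0x200000a00c017) (nat_lit 64)) (.one (nat_lit 0x200000a00c016400001401802c411)) (.br (Nat.shiftLeft (nat_lit 0x400001401803) (nat_lit 67)) (.one (nat_lit 0x200000a00c017400001401802e411)) (.one (nat_lit 0x200000a00c0184000014018030411))))) (.br (Nat.shiftLeft (nat_lit 0x180000500600b) (nat_lit 65)) (.br (Nat.shiftLeft (nat_lit 0x300000a00c015) (nat_lit 64)) (.one (nat_lit 0x300000a00c0146000014018028411)) (.one (nat_lit 0x300000a00c015600001401802a411))) (.br (Nat.shiftLeft (nat_lit 0x300000a00c017) (nat_lit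 64)) (.one (nat_lit 0x300000a00c016600001401802c411)) (.br (Nat.shiftLeft (nat_lit 0x600001401803) (nat_lit 67)) (.one (nat_lit 0x300000a00c017600001401802e411)) (.one (nat_lit 0x300000a00c0186000014018030411)))))) (.br (Nat.shiftLeft (nat_lit 0x5) (nat_lit 112)) (.br (Nat.shiftLeft (nat_lit 0x200000500600b) (nat_lit 65)) (.br (Nat.shiftLeft (nat_lit 0x400000a00c015) (nat_lit 64)) (.one (nat_lit 0x400000a00c0148000014018028411)) (.one (nat_lit 0x400000a00c015800001401802a411))) (.br (Nat.shiftLeft (nat_lit 0x400000a00c017) (nat_lit 64)) (.one (nat_lit 0x400000a00c016800001401802c411)) (.br (Nat.shiftLeft (nat_lit 0x800001401803) (nat_lit 67)) (.one (nat_lit 0x400000a00c017800001401802e411)) (.one (nat_lit 0x400000a00c0188000014018030411))))) (.br (Nat.shiftLeft (nat_lit 0x280000500600b) (nat_lit 65)) (.br (Nat.shiftLeft (nat_lit 0x500000a00c015) (nat_lit 64)) (.one (nat_lit 0x500000a00c014a000014018028411)) (.one (nat_lit 0x500000a00c015a00001401802a411))) (.br (Nat.shiftLeft (nat_lit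 0x500000a00c017) (nat_lit 64)) (.one (nat_lit 0x500000a00c016a00001401802c411)) (.br (Nat.shiftLeft (nat_lit 0xa00001401803) (nat_lit 67)) (.one (nat_lit 0x500000a00c017a00001401802e411)) (.one (nat_lit 0x500000a00c018a000014018030411))))))) (.br (Nat.shiftLeft (nat_lit 0x1) (nat_lit 115)) (.br (Nat.shiftLeft (nat_lit 0x7) (nat_lit 112)) (.br (Nat.shiftLeft (nat_lit 0x300000500600b) (nat_lit 65)) (.br (Nat.shiftLeft (nat_lit 0x600000a00c015) (nat_lit 64)) (.one (nat_lit 0x600000a00c014c000014018028411)) (.one (nat_lit 0x600000a00c015c00001401802a411))) (.br (Nat.shiftLeft (nat_lit 0x600000a00c017) (nat_lit 64)) (.one (nat_lit 0x600000a00c016c00001401802c411)) (.br (Nat.shiftLeft (nat_lit 0xc00001401803) (nat_lit 67)) (.one (nat_lit 0x600000a00c017c00001401802e411)) (.one (nat_lit 0x600000a00c018c000014018030411))))) (.br (Nat.shiftLeft (nat_lit 0x380000500600b) (nat_lit 65)) (.br (Nat.shiftLeft (nat_lit 0x700000a00c015) (nat_lit 64)) (.one (nat_lit 0x700000a00c014e000014018028411)) (.one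 (nat_lit 0x700000a00c015e00001401802a411))) (.br (Nat.shiftLeft (nat_lit 0x700000a00c017) (nat_lit 64)) (.one (nat_lit 0x700000a00c016e00001401802c411)) (.br (Nat.shiftLeft (nat_lit 0xe00001401803) (nat_lit 67)) (.one (nat_lit 0x700000a00c017e00001401802e411)) (.one (nat_lit 0x700000a00c018e000014018030411)))))) (.br (Nat.shiftLeft (nat_lit 0x9) (nat_lit 112)) (.br (Nat.shiftLeft (nat_lit 0x400000500600b) (nat_lit 65)) (.br (Nat.shiftLeft (nat_lit 0x800000a00c015) (nat_lit 64)) (.one (nat_lit 0x800000a00c014000001401812a411)) (.one (nat_lit 0x800000a00c015000001401812c411))) (.br (Nat.shiftLeft (nat_lit 0x800000a00c017) (nat_lit 64)) (.one (nat_lit 0x800000a00c016000001401812e411)) (.br (Nat.shiftLeft (nat_lit 0x1000001401803) (nat_lit 67)) (.one (nat_lit 0x800000a00c0170000014018130411)) (.one (nat_lit 0x800000a00c0180000014018132411))))) (.br (Nat.shiftLeft (nat_lit 0x480000500600b) (nat_lit 65)) (.br (Nat.shiftLeft (nat_lit 0x900000a00c015) (nat_lit 64)) (.one (nat_lit 0x900000a00c014200001401812a411))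 (.one (nat_lit 0x900000a00c015200001401812c411))) (.br (Nat.shiftLeft (nat_lit 0x900000a00c017) (nat_lit 64)) (.one (nat_lit 0x900000a00c016200001401812e411)) (.br (Nat.shiftLeft (nat_lit 0x1200001401803) (nat_lit 67)) (.one (nat_lit 0x900000a00c0172000014018130411)) (.one (nat_lit 0x900000a00c0182000014018132411))))))))
def t51 : k51.all (jb2 57 fl b0) = true := by decide +kernel
noncomputable def k52 : KT := (.br (Nat.shiftLeft (nat_lit 0x580000500600b) (nat_lit 65)) (.br (Nat.shiftLeft (nat_lit 0xa00000a00c017) (nat_lit 64)) (.br (Nat.shiftLeft (nat_lit 0xa00000a00c015) (nat_lit 64)) (.one (nat_lit 0xa00000a00c014400001401812a411)) (.br (Nat.shiftLeft (nat_lit 0x500000500600b) (nat_lit 65)) (.one (nat_lit 0xa00000a00c015400001401812c411)) (.one (nat_lit 0xa00000a00c016400001401812e411)))) (.br (Nat.shiftLeft (nat_lit 0xb) (nat_lit 112)) (.br (Nat.shiftLeft (nat_lit 0x1400001401803) (nat_lit 67)) (.one (nat_lit 0xa00000a00c0174000014018130411)) (.one (nat_lit 0xa00000a00c0184000014018132411)))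 (.br (Nat.shiftLeft (nat_lit 0xb00000a00c015) (nat_lit 64)) (.one (nat_lit 0xb00000a00c014600001401812a411)) (.one (nat_lit 0xb00000a00c015600001401812c411))))) (.br (Nat.shiftLeft (nat_lit 0x3) (nat_lit 114)) (.br (Nat.shiftLeft (nat_lit 0xb00000a00c017) (nat_lit 64)) (.one (nat_lit 0xb00000a00c016600001401812e411)) (.br (Nat.shiftLeft (nat_lit 0x1600001401803) (nat_lit 67)) (.one (nat_lit 0xb00000a00c0176000014018130411)) (.one (nat_lit 0xb00000a00c0186000014018132411)))) (.br (Nat.shiftLeft (nat_lit 0x600000500600b) (nat_lit 65)) (.br (Nat.shiftLeft (nat_lit 0xc00000a00c015) (nat_lit 64)) (.one (nat_lit 0xc00000a00c014800001401812a411)) (.one (nat_lit 0xc00000a00c015800001401812c411))) (.br (Nat.shiftLeft (nat_lit 0xc00000a00c017) (nat_lit 64)) (.one (nat_lit 0xc00000a00c016800001401812e411)) (.one (nat_lit 0xc00000a00c0178000014018130411))))))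
def t52 : k52.all (jb2 57 fl b0) = true := by decide +kernel
noncomputable def s2 : KT := (.br (nat_lit 0x400a00c0140008014018028540) (.br (nat_lit 0x200a00c016000401401802c540) (.br (nat_lit 0x100a00c0180002014018030540) (.br (nat_lit 0x100a00c015000201401802a540) k35 k36) (.br (nat_lit 0x200a00c0140004014018028540) k37 k38)) (.br (nat_lit 0x300a00c0140006014018028540) (.br (nat_lit 0x200a00c0180004014018030540) k39 k40) (.br (nat_lit 0x300a00c016000601401802c540) k41 (.br (nat_lit 0x300a00c0180006014018030540) k42 k43)))) (.br (nat_lit 0x500a00c017000a01401802e540) (.br (nat_lit 0x400a00c0180008014018030540) (.br (nat_lit 0x400a00c016000801401802c540) k44 k45) (.br (nat_lit 0x500a00c014000a014018028540) k46 k47)) (.br (nat_lit 0x700a00c015000e01401802a540) (.br (nat_lit 0x600a00c015000c01401802a540) k48 k49) (.br (nat_lit 0x100000a00c0182000014018030411) k50 (.br (nat_lit 0x900000a00c0182000014018132411) k51 k52)))))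
noncomputable def u2 : KT := (.br (Nat.shiftLeft (nat_lit 0xa00c017) (nat_lit 64)) (.br (Nat.shiftLeft (nat_lit 0xa00c015) (nat_lit 64)) (.one (nat_lit 0xa00c0140000014018028430)) (.br (Nat.shiftLeft (nat_lit 0x500600b) (nat_lit 65)) (.one (nat_lit 0xa00c015000001401802a430)) (.one (nat_lit 0xa00c016000001401802c430)))) (.br (Nat.shiftLeft (nat_lit 0x1401803) (nat_lit 67)) (.one (nat_lit 0xa00c017000001401802e430)) (.br (Nat.shiftLeft (nat_lit 0xa00d) (nat_lit 76)) (.one (nat_lit 0xa00c0180000014018030430)) (.one (nat_lit 0xa00d00e000001401a01d400)))))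
def w2 : u2.all (wj 57 s2) = true := by decide +kernel
def o2 : OkW 57 (jb2 57 fl) u2 := .lift s2 _ (.br _ _ _ (.br _ _ _ (.br _ _ _ (.br _ _ _ (.leaf b0 k35 t35) (.leaf b0 k36 t36)) (.br _ _ _ (.leaf b0 k37 t37) (.leaf b0 k38 t38))) (.br _ _ _ (.br _ _ _ (.leaf b0 k39 t39) (.leaf b0 k40 t40)) (.br _ _ _ (.leaf b0 k41 t41) (.br _ _ _ (.leaf b0 k42 t42) (.leaf b0 k43 t43))))) (.br _ _ _ (.br _ _ _ (.br _ _ _ (.leaf b0 k44 t44) (.leaf b0 k45 t45)) (.br _ _ _ (.leaf b0 k46 t46) (.leaf b0 k47 t47))) (.br _ _ _ (.br _ _ _ (.leaf b0 k48 t48) (.leaf b0 k49 t49)) (.br _ _ _ (.leaf b0 k50 t50) (.br _ _ _ (.leaf b0 k51 t51) (.leaf b0 k52 t52)))))) w2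
noncomputable def k53 : KT := (.br (Nat.shiftLeft (nat_lit 0x1) (nat_lit 102)) (.br (Nat.shiftLeft (nat_lit 0x1) (nat_lit 101)) (.br (Nat.shiftLeft (nat_lit 0x1) (nat_lit 100)) (.one (nat_lit 0xa00d00f000001401a01f400)) (.one (nat_lit 0x100a00d00f000201401a01e540))) (.br (Nat.shiftLeft (nat_lit 0x3) (nat_lit 100)) (.one (nat_lit 0x200a00d00f000401401a01f500)) (.one (nat_lit 0x300a00d00f000601401a01f500)))) (.br (Nat.shiftLeft (nat_lit 0x3) (nat_lit 101)) (.br (Nat.shiftLeft (nat_lit 0x5) (nat_lit 100)) (.one (nat_lit 0x400a00d00f000801401a01f500)) (.one (nat_lit 0x500a00d00f000a01401a01f500))) (.br (Nat.shiftLeft (nat_lit 0x7) (nat_lit 100)) (.one (nat_lit 0x600a00d00f000c01401a01f500)) (.br (Nat.shiftLeft (nat_lit 0x1) (nat_lit 103)) (.one (nat_lit 0x700a00d00f000e01401a01f500)) (.one (nat_lit 0x800a00d00f001001401a01f500))))))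
def t53 : k53.all (jb2 57 fl b0) = true := by decide +kernel
noncomputable def k54 : KT := (.br (Nat.shiftLeft (nat_lit 0x1) (nat_lit 112)) (.one (nat_lit 0x900a00d00f001201401a01e540)) (.br (Nat.shiftLeft (nat_lit 0x801) (nat_lit 101)) (.one (nat_lit 0x100000a00d00f200001401a01e411)) (.one (nat_lit 0x100200a00d00f200401401a01f600))))
def t54 : k54.all (jb2 57 fl b0) = true := by decide +kernel
noncomputable def k55 : KT := (.one (nat_lit 0x100300a00d00f200601401a01e650))
def t55 : k55.all (jb2 57 fl b0) = true := by decide +kernel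
noncomputable def k56 : KT := (.one (nat_lit 0x100400a00d00f200801401a01e650))
def t56 : k56.all (jb2 57 fl b0) = true := by decide +kernel
noncomputable def k57 : KT := (.br (Nat.shiftLeft (nat_lit 0x803) (nat_lit 101)) (.one (nat_lit 0x100500a00d00f200a01401a01e650)) (.br (Nat.shiftLeft (nat_lit 0x1007) (nat_lit 100)) (.one (nat_lit 0x100600a00d00f200c01401a01e650)) (.one (nat_lit 0x100700a00d00f200e01401a01e650))))
def t57 : k57.all (jb2 57 fl b0) = true := by decide +kernel
noncomputable def k58 : KT := (.br (Nat.shiftLeft (nat_lit 0x1001) (nat_lit 101)) (.br (Nat.shiftLeft (nat_lit 0x1) (nat_lit 113)) (.one (nat_lit 0x100800a00d00f201001401a01e650)) (.one (nat_lit 0x200000a00d00f400001401a01e411))) (.br (Nat.shiftLeft (nat_lit 0x801) (nat_lit 102)) (.one (nat_lit 0x200300a00d00f400601401a01f600)) (.one (nat_lit 0x200400a00d00f400801401a01e650))))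
def t58 : k58.all (jb2 57 fl b0) = true := by decide +kernel
noncomputable def k59 : KT := (.br (Nat.shiftLeft (nat_lit 0x1003) (nat_lit 101)) (.one (nat_lit 0x200500a00d00f400a01401a01e650)) (.one (nat_lit 0x200600a00d00f400c01401a01e650)))
def t59 : k59.all (jb2 57 fl b0) = true := by decide +kernel
noncomputable def k60 : KT := (.br (Nat.shiftLeft (nat_lit 0x401) (nat_lit 103)) (.one (nat_lit 0x200700a00d00f400e01401a01e650)) (.br (Nat.shiftLeft (nat_lit 0x3) (nat_lit 112)) (.one (nat_lit 0x200800a00d00f401001401a01e650)) (.one (nat_lit 0x300000a00d00f600001401a01e411))))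
def t60 : k60.all (jb2 57 fl b0) = true := by decide +kernel
noncomputable def k61 : KT := (.one (nat_lit 0x300400a00d00f600801401a01e650))
def t61 : k61.all (jb2 57 fl b0) = true := by decide +kernel
noncomputable def k62 : KT := (.br (Nat.shiftLeft (nat_lit 0x1803) (nat_lit 101)) (.one (nat_lit 0x300500a00d00f600a01401a01e650)) (.one (nat_lit 0x300600a00d00f600c01401a01e650)))
def t62 : k62.all (jb2 57 fl b0) = true := by decide +kernel
noncomputable def k63 : KT := (.br (Nat.shiftLeft (nat_lit 0x601) (nat_lit 103)) (.one (nat_lit 0x300700a00d00f600e01401a01e650)) (.br (Nat.shiftLeft (nat_lit 0x1) (nat_lit 114)) (.one (nat_lit 0x300800a00d00f601001401a01e650)) (.one (nat_lit 0x400000a00d00f800001401a01e411))))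
def t63 : k63.all (jb2 57 fl b0) = true := by decide +kernel
noncomputable def k64 : KT := (.br (Nat.shiftLeft (nat_lit 0x2003) (nat_lit 101)) (.one (nat_lit 0x400500a00d00f800a01401a01e650)) (.one (nat_lit 0x400600a00d00f800c01401a01e650)))
def t64 : k64.all (jb2 57 fl b0) = true := by decide +kernel
noncomputable def k65 : KT := (.br (Nat.shiftLeft (nat_lit 0x5) (nat_lit 112)) (.br (Nat.shiftLeft (nat_lit 0x801) (nat_lit 103)) (.one (nat_lit 0x400700a00d00f800e01401a01e650)) (.one (nat_lit 0x400800a00d00f801001401a01e650))) (.br (Nat.shiftLeft (nat_lit 0x1401) (nat_lit 102)) (.one (nat_lit 0x500000a00d00fa00001401a01e411)) (.br (Nat.shiftLeft (nat_lit 0x5007) (nat_lit 100)) (.one (nat_lit 0x500600a00d00fa00c01401a01e650)) (.one (nat_lit 0x500700a00d00fa00e01401a01e650)))))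
def t65 : k65.all (jb2 57 fl b0) = true := by decide +kernel
noncomputable def k66 : KT := (.br (Nat.shiftLeft (nat_lit 0xb) (nat_lit 112)) (.br (Nat.shiftLeft (nat_lit 0x7) (nat_lit 112)) (.br (Nat.shiftLeft (nat_lit 0x1801) (nat_lit 102)) (.br (Nat.shiftLeft (nat_lit 0x3) (nat_lit 113)) (.one (nat_lit 0x500800a00d00fa01001401a01e650)) (.one (nat_lit 0x600000a00d00fc00001401a01e411))) (.br (Nat.shiftLeft (nat_lit 0xc01) (nat_lit 103)) (.one (nat_lit 0x600700a00d00fc00e01401a01e650)) (.one (nat_lit 0x600800a00d00fc01001401a01e650)))) (.br (Nat.shiftLeft (nat_lit 0x1) (nat_lit 115)) (.br (Nat.shiftLeft (nat_lit 0xe01) (nat_lit 103)) (.one (nat_lit 0x700000a00d00fe00001401a01e411)) (.one (nat_lit 0x700800a00d00fe01001401a01e650))) (.br (Nat.shiftLeft (nat_lit 0x9) (nat_lit 112)) (.one (nat_lit 0x800000a00d00f000001401a120411)) (.br (Nat.shiftLeft (nat_lit 0x5) (nat_lit 113)) (.one (nat_lit 0x900000a00d00f200001401a120411)) (.one (nat_lit 0xa00000a00d00f400001401a120411)))))) (.br (Nat.shiftLeft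 (nat_lit 0x400001) (nat_lit 102)) (.br (Nat.shiftLeft (nat_lit 0xd) (nat_lit 112)) (.br (Nat.shiftLeft (nat_lit 0x3) (nat_lit 114)) (.one (nat_lit 0xb00000a00d00f600001401a120411)) (.one (nat_lit 0xc00000a00d00f800001401a120411))) (.br (Nat.shiftLeft (nat_lit 0x1) (nat_lit 124)) (.one (nat_lit 0xd00000a00d00fa00001401a120411)) (.br (Nat.shiftLeft (nat_lit 0x1000003) (nat_lit 100)) (.one (nat_lit 0x100000200a00d00f000401403a41e511)) (.one (nat_lit 0x100000300a00d00f000601403a41e511))))) (.br (Nat.shiftLeft (nat_lit 0x800003) (nat_lit 101)) (.br (Nat.shiftLeft (nat_lit 0x1000005) (nat_lit 100)) (.one (nat_lit 0x100000400a00d00f000801403a41e511)) (.one (nat_lit 0x100000500a00d00f000a01403a41e511))) (.br (Nat.shiftLeft (nat_lit 0x1000007) (nat_lit 100)) (.one (nat_lit 0x100000600a00d00f000c01403a41e511)) (.br (Nat.shiftLeft (nat_lit 0x200001) (nat_lit 103)) (.one (nat_lit 0x100000700a00d00f000e01403a41e511)) (.one (nat_lit 0x100000800a00d00f001001403a41e511)))))))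
def t66 : k66.all (jb2 57 fl b0) = true := by decide +kernel
noncomputable def k67 : KT := (.br (Nat.shiftLeft (nat_lit 0xc00001) (nat_lit 102)) (.br (Nat.shiftLeft (nat_lit 0x1000003) (nat_lit 101)) (.br (Nat.shiftLeft (nat_lit 0x2000003) (nat_lit 100)) (.br (Nat.shiftLeft (nat_lit 0x1) (nat_lit 125)) (.one (nat_lit 0x100200300a00d00f400601403a41e760)) (.one (nat_lit 0x200000200a00d00f000401405a81e511))) (.br (Nat.shiftLeft (nat_lit 0x800001) (nat_lit 102)) (.one (nat_lit 0x200000300a00d00f000601405a81e511)) (.br (Nat.shiftLeft (nat_lit 0x2000005) (nat_lit 100)) (.one (nat_lit 0x200000400a00d00f000801405a81e511)) (.one (nat_lit 0x200000500a00d00f000a01405a81e511))))) (.br (Nat.shiftLeft (nat_lit 0x400001) (nat_lit 103)) (.br (Nat.shiftLeft (nat_lit 0x2000007) (nat_lit 100)) (.one (nat_lit 0x200000600a00d00f000c01405a81e511)) (.one (nat_lit 0x200000700a00d00f000e01405a81e511))) (.br (Nat.shiftLeft (nat_lit 0x3) (nat_lit 124)) (.one (nat_lit 0x200000800a00d00f001001405a81e511)) (.br (Nat.shiftLeft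 (nat_lit 0x3000003) (nat_lit 100)) (.one (nat_lit 0x300000200a00d00f000401407ac1e511)) (.one (nat_lit 0x300000300a00d00f000601407ac1e511)))))) (.br (Nat.shiftLeft (nat_lit 0x1) (nat_lit 126)) (.br (Nat.shiftLeft (nat_lit 0x1800003) (nat_lit 101)) (.br (Nat.shiftLeft (nat_lit 0x3000005) (nat_lit 100)) (.one (nat_lit 0x300000400a00d00f000801407ac1e511)) (.one (nat_lit 0x300000500a00d00f000a01407ac1e511))) (.br (Nat.shiftLeft (nat_lit 0x3000007) (nat_lit 100)) (.one (nat_lit 0x300000600a00d00f000c01407ac1e511)) (.br (Nat.shiftLeft (nat_lit 0x600001) (nat_lit 103)) (.one (nat_lit 0x300000700a00d00f000e01407ac1e511)) (.one (nat_lit 0x300000800a00d00f001001407ac1e511))))) (.br (Nat.shiftLeft (nat_lit 0x4000005) (nat_lit 100)) (.br (Nat.shiftLeft (nat_lit 0x4000003) (nat_lit 100)) (.one (nat_lit 0x400000200a00d00f000401409b01e511)) (.br (Nat.shiftLeft (nat_lit 0x1000001) (nat_lit 102)) (.one (nat_lit 0x400000300a00d00f000601409b01e511)) (.one (nat_lit 0x400000400a00d00f000801409b01e511))))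 (.br (Nat.shiftLeft (nat_lit 0x2000003) (nat_lit 101)) (.one (nat_lit 0x400000500a00d00f000a01409b01e511)) (.br (Nat.shiftLeft (nat_lit 0x4000007) (nat_lit 100)) (.one (nat_lit 0x400000600a00d00f000c01409b01e511)) (.one (nat_lit 0x400000700a00d00f000e01409b01e511)))))))
def t67 : k67.all (jb2 57 fl b0) = true := by decide +kernel
noncomputable def k68 : KT := (.br (Nat.shiftLeft (nat_lit 0x5000005) (nat_lit 100)) (.br (Nat.shiftLeft (nat_lit 0x5000003) (nat_lit 100)) (.br (Nat.shiftLeft (nat_lit 0x5) (nat_lit 124)) (.one (nat_lit 0x400000800a00d00f001001409b01e511)) (.one (nat_lit 0x500000200a00d00f00040140bb41e511))) (.br (Nat.shiftLeft (nat_lit 0x1400001) (nat_lit 102)) (.one (nat_lit 0x500000300a00d00f00060140bb41e511)) (.one (nat_lit 0x500000400a00d00f00080140bb41e511)))) (.br (Nat.shiftLeft (nat_lit 0x5000007) (nat_lit 100)) (.br (Nat.shiftLeft (nat_lit 0x2800003) (nat_lit 101)) (.one (nat_lit 0x500000500a00d00f000a0140bb41e511)) (.one (nat_lit 0x500000600a00d00f000c0140bb41e511)))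 (.br (Nat.shiftLeft (nat_lit 0xa00001) (nat_lit 103)) (.one (nat_lit 0x500000700a00d00f000e0140bb41e511)) (.br (Nat.shiftLeft (nat_lit 0x3) (nat_lit 125)) (.one (nat_lit 0x500000800a00d00f00100140bb41e511)) (.one (nat_lit 0x600000200a00d00f00040140db81e511))))))
def t68 : k68.all (jb2 57 fl b0) = true := by decide +kernel
noncomputable def k69 : KT := (.br (Nat.shiftLeft (nat_lit 0x6000007) (nat_lit 100)) (.br (Nat.shiftLeft (nat_lit 0x6000005) (nat_lit 100)) (.br (Nat.shiftLeft (nat_lit 0x1800001) (nat_lit 102)) (.one (nat_lit 0x600000300a00d00f00060140db81e511)) (.one (nat_lit 0x600000400a00d00f00080140db81e511))) (.br (Nat.shiftLeft (nat_lit 0x3000003) (nat_lit 101)) (.one (nat_lit 0x600000500a00d00f000a0140db81e511)) (.one (nat_lit 0x600000600a00d00f000c0140db81e511)))) (.br (Nat.shiftLeft (nat_lit 0x7) (nat_lit 124)) (.br (Nat.shiftLeft (nat_lit 0xc00001) (nat_lit 103)) (.one (nat_lit 0x600000700a00d00f000e0140db81e511)) (.one (nat_lit 0x600000800a00d00f00100140db81e511))) (.br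 (Nat.shiftLeft (nat_lit 0x7000003) (nat_lit 100)) (.one (nat_lit 0x700000200a00d00f00040140fbc1e511)) (.one (nat_lit 0x700000300a00d00f00060140fbc1e511)))))
def t69 : k69.all (jb2 57 fl b0) = true := by decide +kernel
noncomputable def k70 : KT := (.br (Nat.shiftLeft (nat_lit 0x8000003) (nat_lit 100)) (.br (Nat.shiftLeft (nat_lit 0x7000007) (nat_lit 100)) (.br (Nat.shiftLeft (nat_lit 0x7000005) (nat_lit 100)) (.one (nat_lit 0x700000400a00d00f00080140fbc1e511)) (.br (Nat.shiftLeft (nat_lit 0x3800003) (nat_lit 101)) (.one (nat_lit 0x700000500a00d00f000a0140fbc1e511)) (.one (nat_lit 0x700000600a00d00f000c0140fbc1e511)))) (.br (Nat.shiftLeft (nat_lit 0xe00001) (nat_lit 103)) (.one (nat_lit 0x700000700a00d00f000e0140fbc1e511)) (.br (Nat.shiftLeft (nat_lit 0x1) (nat_lit 127)) (.one (nat_lit 0x700000800a00d00f00100140fbc1e511)) (.one (nat_lit 0x800000200a00d00f000401411c01e511))))) (.br (Nat.shiftLeft (nat_lit 0x4000003) (nat_lit 101)) (.br (Nat.shiftLeft (nat_lit 0x2000001) (nat_lit 102))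 (.one (nat_lit 0x800000300a00d00f000601411c01e511)) (.br (Nat.shiftLeft (nat_lit 0x8000005) (nat_lit 100)) (.one (nat_lit 0x800000400a00d00f000801411c01e511)) (.one (nat_lit 0x800000500a00d00f000a01411c01e511)))) (.br (Nat.shiftLeft (nat_lit 0x1000001) (nat_lit 103)) (.br (Nat.shiftLeft (nat_lit 0x8000007) (nat_lit 100)) (.one (nat_lit 0x800000600a00d00f000c01411c01e511)) (.one (nat_lit 0x800000700a00d00f000e01411c01e511))) (.br (Nat.shiftLeft (nat_lit 0x9) (nat_lit 124)) (.one (nat_lit 0x800000800a00d00f001001411c01e511)) (.one (nat_lit 0x900000200a00d00f000401413c41e511))))))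
def t70 : k70.all (jb2 57 fl b0) = true := by decide +kernel
noncomputable def k71 : KT := (.br (Nat.shiftLeft (nat_lit 0x1600001) (nat_lit 103)) (.br (Nat.shiftLeft (nat_lit 0xa000005) (nat_lit 100)) (.br (Nat.shiftLeft (nat_lit 0x9000007) (nat_lit 100)) (.br (Nat.shiftLeft (nat_lit 0x9000005) (nat_lit 100)) (.br (Nat.shiftLeft (nat_lit 0x2400001) (nat_lit 102)) (.one (nat_lit 0x900000300a00d00f000601413c41e511)) (.one (nat_lit 0x900000400a00d00f000801413c41e511))) (.br (Nat.shiftLeft (nat_lit 0x4800003) (nat_lit 101)) (.one (nat_lit 0x900000500a00d00f000a01413c41e511)) (.one (nat_lit 0x900000600a00d00f000c01413c41e511)))) (.br (Nat.shiftLeft (nat_lit 0x5) (nat_lit 125)) (.br (Nat.shiftLeft (nat_lit 0x1200001) (nat_lit 103)) (.one (nat_lit 0x900000700a00d00f000e01413c41e511)) (.one (nat_lit 0x900000800a00d00f001001413c41e511))) (.br (Nat.shiftLeft (nat_lit 0xa000003) (nat_lit 100)) (.one (nat_lit 0xa00000200a00d00f000401415c81e511)) (.br (Nat.shiftLeft (nat_lit 0x2800001) (nat_lit 102))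 (.one (nat_lit 0xa00000300a00d00f000601415c81e511)) (.one (nat_lit 0xa00000400a00d00f000801415c81e511)))))) (.br (Nat.shiftLeft (nat_lit 0xb000003) (nat_lit 100)) (.br (Nat.shiftLeft (nat_lit 0xa000007) (nat_lit 100)) (.br (Nat.shiftLeft (nat_lit 0x5000003) (nat_lit 101)) (.one (nat_lit 0xa00000500a00d00f000a01415c81e511)) (.one (nat_lit 0xa00000600a00d00f000c01415c81e511))) (.br (Nat.shiftLeft (nat_lit 0x1400001) (nat_lit 103)) (.one (nat_lit 0xa00000700a00d00f000e01415c81e511)) (.br (Nat.shiftLeft (nat_lit 0xb) (nat_lit 124)) (.one (nat_lit 0xa00000800a00d00f001001415c81e511)) (.one (nat_lit 0xb00000200a00d00f000401417cc1e511))))) (.br (Nat.shiftLeft (nat_lit 0xb000005) (nat_lit 100)) (.br (Nat.shiftLeft (nat_lit 0x2c00001) (nat_lit 102)) (.one (nat_lit 0xb00000300a00d00f000601417cc1e511)) (.one (nat_lit 0xb00000400a00d00f000801417cc1e511))) (.br (Nat.shiftLeft (nat_lit 0x5800003) (nat_lit 101)) (.one (nat_lit 0xb00000500a00d00f000a01417cc1e511)) (.br (Nat.shiftLeft (nat_lit 0xb000007)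 (nat_lit 100)) (.one (nat_lit 0xb00000600a00d00f000c01417cc1e511)) (.one (nat_lit 0xb00000700a00d00f000e01417cc1e511))))))) (.br (Nat.shiftLeft (nat_lit 0xd000005) (nat_lit 100)) (.br (Nat.shiftLeft (nat_lit 0x6000003) (nat_lit 101)) (.br (Nat.shiftLeft (nat_lit 0xc000003) (nat_lit 100)) (.br (Nat.shiftLeft (nat_lit 0x3) (nat_lit 126)) (.one (nat_lit 0xb00000800a00d00f001001417cc1e511)) (.one (nat_lit 0xc00000200a00d00f000401419d01e511))) (.br (Nat.shiftLeft (nat_lit 0x3000001) (nat_lit 102)) (.one (nat_lit 0xc00000300a00d00f000601419d01e511)) (.br (Nat.shiftLeft (nat_lit 0xc000005) (nat_lit 100)) (.one (nat_lit 0xc00000400a00d00f000801419d01e511)) (.one (nat_lit 0xc00000500a00d00f000a01419d01e511))))) (.br (Nat.shiftLeft (nat_lit 0xd) (nat_lit 124)) (.br (Nat.shiftLeft (nat_lit 0xc000007) (nat_lit 100)) (.one (nat_lit 0xc00000600a00d00f000c01419d01e511)) (.one (nat_lit 0xc00000700a00d00f000e01419d01e511))) (.br (Nat.shiftLeft (nat_lit 0xd000003) (nat_lit 100)) (.one (nat_lit 0xd00000200a00d00f00040141bd41e511))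 (.br (Nat.shiftLeft (nat_lit 0x3400001) (nat_lit 102)) (.one (nat_lit 0xd00000300a00d00f00060141bd41e511)) (.one (nat_lit 0xd00000400a00d00f00080141bd41e511)))))) (.br (Nat.shiftLeft (nat_lit 0x1000001) (nat_lit 113)) (.br (Nat.shiftLeft (nat_lit 0x1) (nat_lit 136)) (.br (Nat.shiftLeft (nat_lit 0x6800003) (nat_lit 101)) (.one (nat_lit 0xd00000500a00d00f000a0141bd41e511)) (.one (nat_lit 0xd00000600a00d00f000c0141bd41e511))) (.br (Nat.shiftLeft (nat_lit 0x800001) (nat_lit 113)) (.one (nat_lit 0x100000100200a00d00f200403441a01e611)) (.br (Nat.shiftLeft (nat_lit 0x1) (nat_lit 137)) (.one (nat_lit 0x100000200300a00d00f400603441a01e611)) (.one (nat_lit 0x200000100200a00d00f200405481a01e611))))) (.br (Nat.shiftLeft (nat_lit 0x1800001) (nat_lit 113)) (.br (Nat.shiftLeft (nat_lit 0x3) (nat_lit 136)) (.one (nat_lit 0x200000200300a00d00f400605481a01e611)) (.one (nat_lit 0x300000100200a00d00f2004074c1a01e611))) (.br (Nat.shiftLeft (nat_lit 0x1) (nat_lit 138)) (.one (nat_lit 0x300000200300a00d00f4006074c1a01e611))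 (.br (Nat.shiftLeft (nat_lit 0x2000001) (nat_lit 113)) (.one (nat_lit 0x400000100200a00d00f200409501a01e611)) (.one (nat_lit 0x400000200300a00d00f400609501a01e611))))))))
def t71 : k71.all (jb2 57 fl b0) = true := by decide +kernel
noncomputable def k72 : KT := (.br (Nat.shiftLeft (nat_lit 0x3000001) (nat_lit 113)) (.br (Nat.shiftLeft (nat_lit 0x2800001) (nat_lit 113)) (.one (nat_lit 0x500000100200a00d00f20040b541a01e611)) (.br (Nat.shiftLeft (nat_lit 0x3) (nat_lit 137)) (.one (nat_lit 0x500000200300a00d00f40060b541a01e611)) (.one (nat_lit 0x600000100200a00d00f20040d581a01e611)))) (.br (Nat.shiftLeft (nat_lit 0x7) (nat_lit 136)) (.one (nat_lit 0x600000200300a00d00f40060d581a01e611)) (.br (Nat.shiftLeft (nat_lit 0x3800001) (nat_lit 113)) (.one (nat_lit 0x700000100200a00d00f20040f5c1a01e611)) (.one (nat_lit 0x700000200300a00d00f40060f5c1a01e611)))))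
def t72 : k72.all (jb2 57 fl b0) = true := by decide +kernel
noncomputable def k73 : KT := (.br (Nat.shiftLeft (nat_lit 0xb) (nat_lit 136)) (.br (Nat.shiftLeft (nat_lit 0x4800001) (nat_lit 113)) (.br (Nat.shiftLeft (nat_lit 0x4000001) (nat_lit 113)) (.one (nat_lit 0x800000100200a00d00f200411601a01e611)) (.br (Nat.shiftLeft (nat_lit 0x9) (nat_lit 136)) (.one (nat_lit 0x800000200300a00d00f400611601a01e611)) (.one (nat_lit 0x900000100200a00d00f200413641a01e611)))) (.br (Nat.shiftLeft (nat_lit 0x5) (nat_lit 137)) (.one (nat_lit 0x900000200300a00d00f400613641a01e611)) (.br (Nat.shiftLeft (nat_lit 0x5000001) (nat_lit 113)) (.one (nat_lit 0xa00000100200a00d00f200415681a01e611)) (.one (nat_lit 0xa00000200300a00d00f400615681a01e611))))) (.br (Nat.shiftLeft (nat_lit 0x6000001) (nat_lit 113)) (.br (Nat.shiftLeft (nat_lit 0x5800001) (nat_lit 113)) (.one (nat_lit 0xb00000100200a00d00f2004176c1a01e611)) (.br (Nat.shiftLeft (nat_lit 0x3) (nat_lit 138)) (.one (nat_lit 0xb00000200300a00d00f4006176c1a01e611))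 (.one (nat_lit 0xc00000100200a00d00f200419701a01e611)))) (.br (Nat.shiftLeft (nat_lit 0xd) (nat_lit 136)) (.one (nat_lit 0xc00000200300a00d00f400619701a01e611)) (.br (Nat.shiftLeft (nat_lit 0x6800001) (nat_lit 113)) (.one (nat_lit 0xd00000100200a00d00f20041b741a01e611)) (.one (nat_lit 0xd00000200300a00d00f40061b741a01e611))))))
def t73 : k73.all (jb2 57 fl b0) = true := by decide +kernel
noncomputable def s3 : KT := (.br (nat_lit 0x300600a00d00f600c01401a01e650) (.br (nat_lit 0x100700a00d00f200e01401a01e650) (.br (nat_lit 0x100200a00d00f200401401a01f600) (.br (nat_lit 0x800a00d00f001001401a01f500) k53 k54) (.br (nat_lit 0x100300a00d00f200601401a01e650) k55 (.br (nat_lit 0x100400a00d00f200801401a01e650) k56 k57))) (.br (nat_lit 0x200600a00d00f400c01401a01e650) (.br (nat_lit 0x200400a00d00f400801401a01e650) k58 k59) (.br (nat_lit 0x300000a00d00f600001401a01e411) k60 (.br (nat_lit 0x300400a00d00f600801401a01e650) k61 k62)))) (.br (nat_lit 0x400000700a00d00f000e01409b01e511) (.br (nat_lit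 0x400600a00d00f800c01401a01e650) (.br (nat_lit 0x400000a00d00f800001401a01e411) k63 k64) (.br (nat_lit 0x500700a00d00fa00e01401a01e650) k65 (.br (nat_lit 0x100000800a00d00f001001403a41e511) k66 k67))) (.br (nat_lit 0x900000200a00d00f000401413c41e511) (.br (nat_lit 0x600000200a00d00f00040140db81e511) k68 (.br (nat_lit 0x700000300a00d00f00060140fbc1e511) k69 k70)) (.br (nat_lit 0x400000200300a00d00f400609501a01e611) k71 (.br (nat_lit 0x700000200300a00d00f40060f5c1a01e611) k72 k73)))))
noncomputable def u3 : KT := (.one (nat_lit 0xa00d00f000001401a01e430))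
def w3 : u3.all (wj 57 s3) = true := by decide +kernel
def o3 : OkW 57 (jb2 57 fl) u3 := .lift s3 _ (.br _ _ _ (.br _ _ _ (.br _ _ _ (.br _ _ _ (.leaf b0 k53 t53) (.leaf b0 k54 t54)) (.br _ _ _ (.leaf b0 k55 t55) (.br _ _ _ (.leaf b0 k56 t56) (.leaf b0 k57 t57)))) (.br _ _ _ (.br _ _ _ (.leaf b0 k58 t58) (.leaf b0 k59 t59)) (.br _ _ _ (.leaf b0 k60 t60) (.br _ _ _ (.leaf b0 k61 t61) (.leaf b0 k62 t62))))) (.br _ _ _ (.br _ _ _ (.br _ _ _ (.leaf b0 k63 t63) (.leaf b0 k64 t64)) (.br _ _ _ (.leaf b0 k65 t65) (.br _ _ _ (.leaf b0 k66 t66) (.leaf b0 k67 t67)))) (.br _ _ _ (.br _ _ _ (.leaf b0 k68 t68) (.br _ _ _ (.leaf b0 k69 t69) (.leaf b0 k70 t70))) (.br _ _ _ (.leaf b0 k71 t71) (.br _ _ _ (.leaf b0 k72 t72) (.leaf b0 k73 t73)))))) w3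
noncomputable def k74 : KT := (.br (Nat.shiftLeft (nat_lit 0x1) (nat_lit 102)) (.br (Nat.shiftLeft (nat_lit 0x1) (nat_lit 101)) (.br (Nat.shiftLeft (nat_lit 0x1) (nat_lit 100)) (.one (nat_lit 0xa00d010000001401a021400)) (.one (nat_lit 0x100a00d010000201401a020540))) (.br (Nat.shiftLeft (nat_lit 0x3) (nat_lit 100)) (.one (nat_lit 0x200a00d010000401401a021500)) (.one (nat_lit 0x300a00d010000601401a021500)))) (.br (Nat.shiftLeft (nat_lit 0x3) (nat_lit 101)) (.br (Nat.shiftLeft (nat_lit 0x5) (nat_lit 100)) (.one (nat_lit 0x400a00d010000801401a021500)) (.one (nat_lit 0x500a00d010000a01401a021500))) (.br (Nat.shiftLeft (nat_lit 0x7) (nat_lit 100)) (.one (nat_lit 0x600a00d010000c01401a021500)) (.one (nat_lit 0x700a00d010000e01401a021500)))))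
def t74 : k74.all (jb2 57 fl b0) = true := by decide +kernel
noncomputable def k75 : KT := (.one (nat_lit 0x800a00d010001001401a020540))
def t75 : k75.all (jb2 57 fl b0) = true := by decide +kernel
noncomputable def k76 : KT := (.br (Nat.shiftLeft (nat_lit 0x1) (nat_lit 112)) (.one (nat_lit 0x900a00d010001201401a020540)) (.one (nat_lit 0x100000a00d010200001401a020411)))
def t76 : k76.all (jb2 57 fl b0) = true := by decide +kernel
noncomputable def k77 : KT := (.one (nat_lit 0x100200a00d010200401401a020650))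
def t77 : k77.all (jb2 57 fl b0) = true := by decide +kernel
noncomputable def k78 : KT := (.one (nat_lit 0x100300a00d010200601401a020650))
def t78 : k78.all (jb2 57 fl b0) = true := by decide +kernel
noncomputable def k79 : KT := (.br (Nat.shiftLeft (nat_lit 0x1005) (nat_lit 100)) (.one (nat_lit 0x100400a00d010200801401a020650)) (.br (Nat.shiftLeft (nat_lit 0x803) (nat_lit 101)) (.one (nat_lit 0x100500a00d010200a01401a020650)) (.one (nat_lit 0x100600a00d010200c01401a020650))))
def t79 : k79.all (jb2 57 fl b0) = true := by decide +kernel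
noncomputable def k80 : KT := (.br (Nat.shiftLeft (nat_lit 0x1) (nat_lit 113)) (.one (nat_lit 0x100700a00d010200e01401a020650)) (.br (Nat.shiftLeft (nat_lit 0x1001) (nat_lit 101)) (.one (nat_lit 0x200000a00d010400001401a020411)) (.one (nat_lit 0x200300a00d010400601401a020650))))
def t80 : k80.all (jb2 57 fl b0) = true := by decide +kernel
noncomputable def k81 : KT := (.br (Nat.shiftLeft (nat_lit 0x2005) (nat_lit 100)) (.one (nat_lit 0x200400a00d010400801401a020650)) (.one (nat_lit 0x200500a00d010400a01401a020650)))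
def t81 : k81.all (jb2 57 fl b0) = true := by decide +kernel
noncomputable def k82 : KT := (.br (Nat.shiftLeft (nat_lit 0x2007) (nat_lit 100)) (.one (nat_lit 0x200600a00d010400c01401a020650)) (.br (Nat.shiftLeft (nat_lit 0x3) (nat_lit 112)) (.one (nat_lit 0x200700a00d010400e01401a020650)) (.one (nat_lit 0x300000a00d010600001401a020411))))
def t82 : k82.all (jb2 57 fl b0) = true := by decide +kernel
noncomputable def k83 : KT := (.br (Nat.shiftLeft (nat_lit 0x3005) (nat_lit 100)) (.one (nat_lit 0x300400a00d010600801401a020650)) (.one (nat_lit 0x300500a00d010600a01401a020650)))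
def t83 : k83.all (jb2 57 fl b0) = true := by decide +kernel
noncomputable def k84 : KT := (.br (Nat.shiftLeft (nat_lit 0x1) (nat_lit 114)) (.br (Nat.shiftLeft (nat_lit 0x3007) (nat_lit 100)) (.one (nat_lit 0x300600a00d010600c01401a020650)) (.one (nat_lit 0x300700a00d010600e01401a020650))) (.br (Nat.shiftLeft (nat_lit 0x1001) (nat_lit 102)) (.one (nat_lit 0x400000a00d010800001401a020411)) (.one (nat_lit 0x400500a00d010800a01401a020650))))
def t84 : k84.all (jb2 57 fl b0) = true := by decide +kernel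
noncomputable def k85 : KT := (.br (Nat.shiftLeft (nat_lit 0x5007) (nat_lit 100)) (.br (Nat.shiftLeft (nat_lit 0x5) (nat_lit 112)) (.br (Nat.shiftLeft (nat_lit 0x4007) (nat_lit 100)) (.one (nat_lit 0x400600a00d010800c01401a020650)) (.one (nat_lit 0x400700a00d010800e01401a020650))) (.br (Nat.shiftLeft (nat_lit 0x1401) (nat_lit 102)) (.one (nat_lit 0x500000a00d010a00001401a020411)) (.one (nat_lit 0x500600a00d010a00c01401a020650)))) (.br (Nat.shiftLeft (nat_lit 0x1801) (nat_lit 102)) (.br (Nat.shiftLeft (nat_lit 0x3) (nat_lit 113)) (.one (nat_lit 0x500700a00d010a00e01401a020650)) (.one (nat_lit 0x600000a00d010c00001401a020411))) (.br (Nat.shiftLeft (nat_lit 0x7) (nat_lit 112)) (.one (nat_lit 0x600700a00d010c00e01401a020650)) (.br (Nat.shiftLeft (nat_lit 0x1) (nat_lit 115)) (.one (nat_lit 0x700000a00d010e00001401a020411)) (.one (nat_lit 0x800000a00d010000001401a122411))))))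
def t85 : k85.all (jb2 57 fl b0) = true := by decide +kernel
noncomputable def k86 : KT := (.br (Nat.shiftLeft (nat_lit 0x1000003) (nat_lit 101)) (.br (Nat.shiftLeft (nat_lit 0x400001) (nat_lit 102)) (.br (Nat.shiftLeft (nat_lit 0x3) (nat_lit 114)) (.br (Nat.shiftLeft (nat_lit 0x5) (nat_lit 113)) (.one (nat_lit 0x900000a00d010200001401a122411)) (.br (Nat.shiftLeft (nat_lit 0xb) (nat_lit 112)) (.one (nat_lit 0xa00000a00d010400001401a122411)) (.one (nat_lit 0xb00000a00d010600001401a122411)))) (.br (Nat.shiftLeft (nat_lit 0x1) (nat_lit 124)) (.br (Nat.shiftLeft (nat_lit 0xd) (nat_lit 112)) (.one (nat_lit 0xc00000a00d010800001401a122411)) (.one (nat_lit 0xd00000a00d010a00001401a122411))) (.br (Nat.shiftLeft (nat_lit 0x1000003) (nat_lit 100)) (.one (nat_lit 0x100000200a00d010000401403a420511)) (.one (nat_lit 0x100000300a00d010000601403a420511))))) (.br (Nat.shiftLeft (nat_lit 0x1) (nat_lit 125)) (.br (Nat.shiftLeft (nat_lit 0x800003) (nat_lit 101)) (.br (Nat.shiftLeft (nat_lit 0x1000005)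 (nat_lit 100)) (.one (nat_lit 0x100000400a00d010000801403a420511)) (.one (nat_lit 0x100000500a00d010000a01403a420511))) (.br (Nat.shiftLeft (nat_lit 0x1000007) (nat_lit 100)) (.one (nat_lit 0x100000600a00d010000c01403a420511)) (.one (nat_lit 0x100000700a00d010000e01403a420511)))) (.br (Nat.shiftLeft (nat_lit 0x800001) (nat_lit 102)) (.br (Nat.shiftLeft (nat_lit 0x2000003) (nat_lit 100)) (.one (nat_lit 0x200000200a00d010000401405a820511)) (.one (nat_lit 0x200000300a00d010000601405a820511))) (.br (Nat.shiftLeft (nat_lit 0x2000005) (nat_lit 100)) (.one (nat_lit 0x200000400a00d010000801405a820511)) (.one (nat_lit 0x200000500a00d010000a01405a820511)))))) (.br (Nat.shiftLeft (nat_lit 0x1) (nat_lit 126)) (.br (Nat.shiftLeft (nat_lit 0xc00001) (nat_lit 102)) (.br (Nat.shiftLeft (nat_lit 0x3) (nat_lit 124)) (.br (Nat.shiftLeft (nat_lit 0x2000007) (nat_lit 100)) (.one (nat_lit 0x200000600a00d010000c01405a820511)) (.one (nat_lit 0x200000700a00d010000e01405a820511))) (.br (Nat.shiftLeft (nat_lit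 0x3000003) (nat_lit 100)) (.one (nat_lit 0x300000200a00d010000401407ac20511)) (.one (nat_lit 0x300000300a00d010000601407ac20511)))) (.br (Nat.shiftLeft (nat_lit 0x1800003) (nat_lit 101)) (.br (Nat.shiftLeft (nat_lit 0x3000005) (nat_lit 100)) (.one (nat_lit 0x300000400a00d010000801407ac20511)) (.one (nat_lit 0x300000500a00d010000a01407ac20511))) (.br (Nat.shiftLeft (nat_lit 0x3000007) (nat_lit 100)) (.one (nat_lit 0x300000600a00d010000c01407ac20511)) (.one (nat_lit 0x300000700a00d010000e01407ac20511))))) (.br (Nat.shiftLeft (nat_lit 0x2000003) (nat_lit 101)) (.br (Nat.shiftLeft (nat_lit 0x1000001) (nat_lit 102)) (.br (Nat.shiftLeft (nat_lit 0x4000003) (nat_lit 100)) (.one (nat_lit 0x400000200a00d010000401409b020511)) (.one (nat_lit 0x400000300a00d010000601409b020511))) (.br (Nat.shiftLeft (nat_lit 0x4000005) (nat_lit 100)) (.one (nat_lit 0x400000400a00d010000801409b020511)) (.one (nat_lit 0x400000500a00d010000a01409b020511)))) (.br (Nat.shiftLeft (nat_lit 0x5) (nat_lit 124)) (.br (Nat.shiftLeft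 (nat_lit 0x4000007) (nat_lit 100)) (.one (nat_lit 0x400000600a00d010000c01409b020511)) (.one (nat_lit 0x400000700a00d010000e01409b020511))) (.br (Nat.shiftLeft (nat_lit 0x5000003) (nat_lit 100)) (.one (nat_lit 0x500000200a00d01000040140bb420511)) (.one (nat_lit 0x500000300a00d01000060140bb420511)))))))
def t86 : k86.all (jb2 57 fl b0) = true := by decide +kernel
noncomputable def k87 : KT := (.br (Nat.shiftLeft (nat_lit 0x6000003) (nat_lit 100)) (.br (Nat.shiftLeft (nat_lit 0x2800003) (nat_lit 101)) (.br (Nat.shiftLeft (nat_lit 0x5000005) (nat_lit 100)) (.one (nat_lit 0x500000400a00d01000080140bb420511)) (.one (nat_lit 0x500000500a00d010000a0140bb420511))) (.br (Nat.shiftLeft (nat_lit 0x5000007) (nat_lit 100)) (.one (nat_lit 0x500000600a00d010000c0140bb420511)) (.br (Nat.shiftLeft (nat_lit 0x3) (nat_lit 125)) (.one (nat_lit 0x500000700a00d010000e0140bb420511)) (.one (nat_lit 0x600000200a00d01000040140db820511))))) (.br (Nat.shiftLeft (nat_lit 0x3000003) (nat_lit 101)) (.br (Nat.shiftLeft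 (nat_lit 0x1800001) (nat_lit 102)) (.one (nat_lit 0x600000300a00d01000060140db820511)) (.br (Nat.shiftLeft (nat_lit 0x6000005) (nat_lit 100)) (.one (nat_lit 0x600000400a00d01000080140db820511)) (.one (nat_lit 0x600000500a00d010000a0140db820511)))) (.br (Nat.shiftLeft (nat_lit 0x6000007) (nat_lit 100)) (.one (nat_lit 0x600000600a00d010000c0140db820511)) (.br (Nat.shiftLeft (nat_lit 0x7) (nat_lit 124)) (.one (nat_lit 0x600000700a00d010000e0140db820511)) (.one (nat_lit 0x700000200a00d01000040140fbc20511))))))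
def t87 : k87.all (jb2 57 fl b0) = true := by decide +kernel
noncomputable def k88 : KT := (.br (Nat.shiftLeft (nat_lit 0x4000003) (nat_lit 101)) (.br (Nat.shiftLeft (nat_lit 0x7000007) (nat_lit 100)) (.br (Nat.shiftLeft (nat_lit 0x7000005) (nat_lit 100)) (.br (Nat.shiftLeft (nat_lit 0x1c00001) (nat_lit 102)) (.one (nat_lit 0x700000300a00d01000060140fbc20511)) (.one (nat_lit 0x700000400a00d01000080140fbc20511))) (.br (Nat.shiftLeft (nat_lit 0x3800003) (nat_lit 101)) (.one (nat_lit 0x700000500a00d010000a0140fbc20511)) (.one (nat_lit 0x700000600a00d010000c0140fbc20511)))) (.br (Nat.shiftLeft (nat_lit 0x8000003) (nat_lit 100)) (.br (Nat.shiftLeft (nat_lit 0x1) (nat_lit 127)) (.one (nat_lit 0x700000700a00d010000e0140fbc20511)) (.one (nat_lit 0x800000200a00d010000401411c020511))) (.br (Nat.shiftLeft (nat_lit 0x2000001) (nat_lit 102)) (.one (nat_lit 0x800000300a00d010000601411c020511)) (.br (Nat.shiftLeft (nat_lit 0x8000005) (nat_lit 100)) (.one (nat_lit 0x800000400a00d010000801411c020511))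 (.one (nat_lit 0x800000500a00d010000a01411c020511)))))) (.br (Nat.shiftLeft (nat_lit 0x9000005) (nat_lit 100)) (.br (Nat.shiftLeft (nat_lit 0x9) (nat_lit 124)) (.br (Nat.shiftLeft (nat_lit 0x8000007) (nat_lit 100)) (.one (nat_lit 0x800000600a00d010000c01411c020511)) (.one (nat_lit 0x800000700a00d010000e01411c020511))) (.br (Nat.shiftLeft (nat_lit 0x9000003) (nat_lit 100)) (.one (nat_lit 0x900000200a00d010000401413c420511)) (.br (Nat.shiftLeft (nat_lit 0x2400001) (nat_lit 102)) (.one (nat_lit 0x900000300a00d010000601413c420511)) (.one (nat_lit 0x900000400a00d010000801413c420511))))) (.br (Nat.shiftLeft (nat_lit 0x9000007) (nat_lit 100)) (.br (Nat.shiftLeft (nat_lit 0x4800003) (nat_lit 101)) (.one (nat_lit 0x900000500a00d010000a01413c420511)) (.one (nat_lit 0x900000600a00d010000c01413c420511))) (.br (Nat.shiftLeft (nat_lit 0x5) (nat_lit 125)) (.one (nat_lit 0x900000700a00d010000e01413c420511)) (.br (Nat.shiftLeft (nat_lit 0xa000003) (nat_lit 100)) (.one (nat_lit 0xa00000200a00d010000401415c820511))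 (.one (nat_lit 0xa00000300a00d010000601415c820511)))))))
def t88 : k88.all (jb2 57 fl b0) = true := by decide +kernel
noncomputable def k89 : KT := (.br (Nat.shiftLeft (nat_lit 0xb000007) (nat_lit 100)) (.br (Nat.shiftLeft (nat_lit 0xb) (nat_lit 124)) (.br (Nat.shiftLeft (nat_lit 0x5000003) (nat_lit 101)) (.br (Nat.shiftLeft (nat_lit 0xa000005) (nat_lit 100)) (.one (nat_lit 0xa00000400a00d010000801415c820511)) (.one (nat_lit 0xa00000500a00d010000a01415c820511))) (.br (Nat.shiftLeft (nat_lit 0xa000007) (nat_lit 100)) (.one (nat_lit 0xa00000600a00d010000c01415c820511)) (.one (nat_lit 0xa00000700a00d010000e01415c820511)))) (.br (Nat.shiftLeft (nat_lit 0x2c00001) (nat_lit 102)) (.br (Nat.shiftLeft (nat_lit 0xb000003) (nat_lit 100)) (.one (nat_lit 0xb00000200a00d010000401417cc20511)) (.one (nat_lit 0xb00000300a00d010000601417cc20511))) (.br (Nat.shiftLeft (nat_lit 0xb000005) (nat_lit 100)) (.one (nat_lit 0xb00000400a00d010000801417cc20511)) (.br (Nat.shiftLeft (nat_lit 0x5800003) (nat_lit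 101)) (.one (nat_lit 0xb00000500a00d010000a01417cc20511)) (.one (nat_lit 0xb00000600a00d010000c01417cc20511)))))) (.br (Nat.shiftLeft (nat_lit 0x6000003) (nat_lit 101)) (.br (Nat.shiftLeft (nat_lit 0xc000003) (nat_lit 100)) (.br (Nat.shiftLeft (nat_lit 0x3) (nat_lit 126)) (.one (nat_lit 0xb00000700a00d010000e01417cc20511)) (.one (nat_lit 0xc00000200a00d010000401419d020511))) (.br (Nat.shiftLeft (nat_lit 0x3000001) (nat_lit 102)) (.one (nat_lit 0xc00000300a00d010000601419d020511)) (.br (Nat.shiftLeft (nat_lit 0xc000005) (nat_lit 100)) (.one (nat_lit 0xc00000400a00d010000801419d020511)) (.one (nat_lit 0xc00000500a00d010000a01419d020511))))) (.br (Nat.shiftLeft (nat_lit 0xd000003) (nat_lit 100)) (.br (Nat.shiftLeft (nat_lit 0xd) (nat_lit 124)) (.one (nat_lit 0xc00000600a00d010000c01419d020511)) (.one (nat_lit 0xd00000200a00d01000040141bd420511))) (.br (Nat.shiftLeft (nat_lit 0x3400001) (nat_lit 102)) (.one (nat_lit 0xd00000300a00d01000060141bd420511)) (.br (Nat.shiftLeft (nat_lit 0xd000005)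 (nat_lit 100)) (.one (nat_lit 0xd00000400a00d01000080141bd420511)) (.one (nat_lit 0xd00000500a00d010000a0141bd420511)))))))
def t89 : k89.all (jb2 57 fl b0) = true := by decide +kernel
noncomputable def s4 : KT := (.br (nat_lit 0x200500a00d010400a01401a020650) (.br (nat_lit 0x100200a00d010200401401a020650) (.br (nat_lit 0x800a00d010001001401a020540) (.br (nat_lit 0x700a00d010000e01401a021500) k74 k75) (.br (nat_lit 0x100000a00d010200001401a020411) k76 k77)) (.br (nat_lit 0x100600a00d010200c01401a020650) (.br (nat_lit 0x100300a00d010200601401a020650) k78 k79) (.br (nat_lit 0x200300a00d010400601401a020650) k80 k81))) (.br (nat_lit 0x800000a00d010000001401a122411) (.br (nat_lit 0x300500a00d010600a01401a020650) (.br (nat_lit 0x300000a00d010600001401a020411) k82 k83) (.br (nat_lit 0x400500a00d010800a01401a020650) k84 k85)) (.br (nat_lit 0x700000200a00d01000040140fbc20511) (.br (nat_lit 0x500000300a00d01000060140bb420511) k86 k87) (.br (nat_lit 0xa00000300a00d010000601415c820511) k88 k89))))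
noncomputable def u4 : KT := (.one (nat_lit 0xa00d010000001401a020430))
def w4 : u4.all (wj 57 s4) = true := by decide +kernel
def o4 : OkW 57 (jb2 57 fl) u4 := .lift s4 _ (.br _ _ _ (.br _ _ _ (.br _ _ _ (.br _ _ _ (.leaf b0 k74 t74) (.leaf b0 k75 t75)) (.br _ _ _ (.leaf b0 k76 t76) (.leaf b0 k77 t77))) (.br _ _ _ (.br _ _ _ (.leaf b0 k78 t78) (.leaf b0 k79 t79)) (.br _ _ _ (.leaf b0 k80 t80) (.leaf b0 k81 t81)))) (.br _ _ _ (.br _ _ _ (.br _ _ _ (.leaf b0 k82 t82) (.leaf b0 k83 t83)) (.br _ _ _ (.leaf b0 k84 t84) (.leaf b0 k85 t85))) (.br _ _ _ (.br _ _ _ (.leaf b0 k86 t86) (.leaf b0 k87 t87)) (.br _ _ _ (.leaf b0 k88 t88) (.leaf b0 k89 t89))))) w4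
noncomputable def k90 : KT := (.br (Nat.shiftLeft (nat_lit 0x5006809) (nat_lit 65)) (.one (nat_lit 0xa00d011000001401a023400)) (.br (Nat.shiftLeft (nat_lit 0x1) (nat_lit 100)) (.one (nat_lit 0xa00d012000001401a025400)) (.one (nat_lit 0x100a00d011000201401a022540))))
def t90 : k90.all (jb2 57 fl b0) = true := by decide +kernel
noncomputable def k91 : KT := (.br (Nat.shiftLeft (nat_lit 0x1) (nat_lit 101)) (.one (nat_lit 0x100a00d012000201401a024540)) (.one (nat_lit 0x200a00d011000401401a023500)))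
def t91 : k91.all (jb2 57 fl b0) = true := by decide +kernel
noncomputable def k92 : KT := (.br (Nat.shiftLeft (nat_lit 0x1) (nat_lit 102)) (.br (Nat.shiftLeft (nat_lit 0x3) (nat_lit 100)) (.one (nat_lit 0x200a00d012000401401a024540)) (.br (Nat.shiftLeft (nat_lit 0x1805006809) (nat_lit 65)) (.one (nat_lit 0x300a00d011000601401a023500)) (.one (nat_lit 0x300a00d012000601401a025500)))) (.br (Nat.shiftLeft (nat_lit 0x2005006809) (nat_lit 65)) (.one (nat_lit 0x400a00d011000801401a023500)) (.br (Nat.shiftLeft (nat_lit 0x5) (nat_lit 100)) (.one (nat_lit 0x400a00d012000801401a025500)) (.one (nat_lit 0x500a00d011000a01401a023500)))))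
def t92 : k92.all (jb2 57 fl b0) = true := by decide +kernel
noncomputable def k93 : KT := (.br (Nat.shiftLeft (nat_lit 0x3) (nat_lit 101)) (.one (nat_lit 0x500a00d012000a01401a024540)) (.one (nat_lit 0x600a00d011000c01401a023500)))
def t93 : k93.all (jb2 57 fl b0) = true := by decide +kernel
noncomputable def k94 : KT := (.one (nat_lit 0x600a00d012000c01401a024540))
def t94 : k94.all (jb2 57 fl b0) = true := by decide +kernel
noncomputable def k95 : KT := (.one (nat_lit 0x700a00d011000e01401a022540))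
def t95 : k95.all (jb2 57 fl b0) = true := by decide +kernel
noncomputable def k96 : KT := (.br (Nat.shiftLeft (nat_lit 0x1) (nat_lit 103)) (.one (nat_lit 0x700a00d012000e01401a024540)) (.one (nat_lit 0x800a00d011001001401a022540)))
def t96 : k96.all (jb2 57 fl b0) = true := by decide +kernel
noncomputable def k97 : KT := (.br (Nat.shiftLeft (nat_lit 0x4805006809) (nat_lit 65)) (.br (Nat.shiftLeft (nat_lit 0x9) (nat_lit 100)) (.one (nat_lit 0x800a00d012001001401a024540)) (.one (nat_lit 0x900a00d011001201401a022540))) (.br (Nat.shiftLeft (nat_lit 0x1) (nat_lit 112)) (.one (nat_lit 0x900a00d012001201401a024540)) (.br (Nat.shiftLeft (nat_lit 0x800005006809) (nat_lit 65)) (.one (nat_lit 0x100000a00d011200001401a022411)) (.one (nat_lit 0x100000a00d012200001401a024411)))))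
def t97 : k97.all (jb2 57 fl b0) = true := by decide +kernel
noncomputable def k98 : KT := (.br (Nat.shiftLeft (nat_lit 0x1003) (nat_lit 100)) (.one (nat_lit 0x100200a00d011200401401a022650)) (.one (nat_lit 0x100300a00d011200601401a022650)))
def t98 : k98.all (jb2 57 fl b0) = true := by decide +kernel
noncomputable def k99 : KT := (.br (Nat.shiftLeft (nat_lit 0x401) (nat_lit 102)) (.one (nat_lit 0x100300a00d012200601401a024650)) (.br (Nat.shiftLeft (nat_lit 0x802005006809) (nat_lit 65)) (.one (nat_lit 0x100400a00d011200801401a022650)) (.one (nat_lit 0x100400a00d012200801401a024650))))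
def t99 : k99.all (jb2 57 fl b0) = true := by decide +kernel
noncomputable def k100 : KT := (.br (Nat.shiftLeft (nat_lit 0x1) (nat_lit 113)) (.br (Nat.shiftLeft (nat_lit 0x803) (nat_lit 101)) (.one (nat_lit 0x100500a00d011200a01401a022650)) (.one (nat_lit 0x100600a00d011200c01401a022650))) (.br (Nat.shiftLeft (nat_lit 0x1000005006809) (nat_lit 65)) (.one (nat_lit 0x200000a00d011400001401a022411)) (.br (Nat.shiftLeft (nat_lit 0x1001) (nat_lit 101)) (.one (nat_lit 0x200000a00d012400001401a024411)) (.one (nat_lit 0x200300a00d011400601401a022650)))))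
def t100 : k100.all (jb2 57 fl b0) = true := by decide +kernel
noncomputable def k101 : KT := (.br (Nat.shiftLeft (nat_lit 0x801) (nat_lit 102)) (.one (nat_lit 0x200300a00d012400601401a024650)) (.one (nat_lit 0x200400a00d011400801401a022650)))
def t101 : k101.all (jb2 57 fl b0) = true := by decide +kernel
noncomputable def k102 : KT := (.br (Nat.shiftLeft (nat_lit 0x1003) (nat_lit 101)) (.br (Nat.shiftLeft (nat_lit 0x2005) (nat_lit 100)) (.one (nat_lit 0x200400a00d012400801401a024650)) (.one (nat_lit 0x200500a00d011400a01401a022650))) (.br (Nat.shiftLeft (nat_lit 0x3) (nat_lit 112)) (.one (nat_lit 0x200600a00d011400c01401a022650)) (.br (Nat.shiftLeft (nat_lit 0x1800005006809) (nat_lit 65)) (.one (nat_lit 0x300000a00d011600001401a022411)) (.one (nat_lit 0x300000a00d012600001401a024411)))))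
def t102 : k102.all (jb2 57 fl b0) = true := by decide +kernel
noncomputable def k103 : KT := (.br (Nat.shiftLeft (nat_lit 0x1802005006809) (nat_lit 65)) (.one (nat_lit 0x300400a00d011600801401a022650)) (.br (Nat.shiftLeft (nat_lit 0x3005) (nat_lit 100)) (.one (nat_lit 0x300400a00d012600801401a024650)) (.one (nat_lit 0x300500a00d011600a01401a022650))))
def t103 : k103.all (jb2 57 fl b0) = true := by decide +kernel
noncomputable def k104 : KT := (.br (Nat.shiftLeft (nat_lit 0x2800005006809) (nat_lit 65)) (.br (Nat.shiftLeft (nat_lit 0x1001) (nat_lit 102)) (.br (Nat.shiftLeft (nat_lit 0x1) (nat_lit 114)) (.one (nat_lit 0x300600a00d011600c01401a022650)) (.br (Nat.shiftLeft (nat_lit 0x2000005006809) (nat_lit 65)) (.one (nat_lit 0x400000a00d011800001401a022411)) (.one (nat_lit 0x400000a00d012800001401a024411)))) (.br (Nat.shiftLeft (nat_lit 0x2003) (nat_lit 101)) (.one (nat_lit 0x400500a00d011800a01401a022650)) (.br (Nat.shiftLeft (nat_lit 0x5) (nat_lit 112)) (.one (nat_lit 0x400600a00d011800c01401a022650))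 (.one (nat_lit 0x500000a00d011a00001401a022411))))) (.br (Nat.shiftLeft (nat_lit 0x3000005006809) (nat_lit 65)) (.br (Nat.shiftLeft (nat_lit 0x1401) (nat_lit 102)) (.one (nat_lit 0x500000a00d012a00001401a024411)) (.br (Nat.shiftLeft (nat_lit 0x3) (nat_lit 113)) (.one (nat_lit 0x500600a00d011a00c01401a022650)) (.one (nat_lit 0x600000a00d011c00001401a022411)))) (.br (Nat.shiftLeft (nat_lit 0x7) (nat_lit 112)) (.one (nat_lit 0x600000a00d012c00001401a024411)) (.br (Nat.shiftLeft (nat_lit 0x3800005006809) (nat_lit 65)) (.one (nat_lit 0x700000a00d011e00001401a022411)) (.one (nat_lit 0x700000a00d012e00001401a024411))))))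
def t104 : k104.all (jb2 57 fl b0) = true := by decide +kernel
noncomputable def k105 : KT := (.br (Nat.shiftLeft (nat_lit 0x2000003) (nat_lit 100)) (.br (Nat.shiftLeft (nat_lit 0xd) (nat_lit 112)) (.br (Nat.shiftLeft (nat_lit 0x5000005006809) (nat_lit 65)) (.br (Nat.shiftLeft (nat_lit 0x9) (nat_lit 112)) (.br (Nat.shiftLeft (nat_lit 0x4000005006809) (nat_lit 65)) (.one (nat_lit 0x800000a00d011000001401a124411)) (.one (nat_lit 0x800000a00d012000001401a126411))) (.br (Nat.shiftLeft (nat_lit 0x4800005006809) (nat_lit 65)) (.one (nat_lit 0x900000a00d011200001401a124411)) (.br (Nat.shiftLeft (nat_lit 0x5) (nat_lit 113)) (.one (nat_lit 0x900000a00d012200001401a126411)) (.one (nat_lit 0xa00000a00d011400001401a124411))))) (.br (Nat.shiftLeft (nat_lit 0x5800005006809) (nat_lit 65)) (.br (Nat.shiftLeft (nat_lit 0xb) (nat_lit 112)) (.one (nat_lit 0xa00000a00d012400001401a126411)) (.one (nat_lit 0xb00000a00d011600001401a124411))) (.br (Nat.shiftLeft (nat_lit 0x3) (nat_lit 114)) (.one (nat_lit 0xb00000a00d012600001401a126411))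 (.br (Nat.shiftLeft (nat_lit 0x6000005006809) (nat_lit 65)) (.one (nat_lit 0xc00000a00d011800001401a124411)) (.one (nat_lit 0xc00000a00d012800001401a126411)))))) (.br (Nat.shiftLeft (nat_lit 0x400001) (nat_lit 102)) (.br (Nat.shiftLeft (nat_lit 0x1) (nat_lit 124)) (.br (Nat.shiftLeft (nat_lit 0x6800005006809) (nat_lit 65)) (.one (nat_lit 0xd00000a00d011a00001401a124411)) (.one (nat_lit 0xd00000a00d012a00001401a126411))) (.br (Nat.shiftLeft (nat_lit 0x1000003) (nat_lit 100)) (.one (nat_lit 0x100000200a00d011000401403a422511)) (.br (Nat.shiftLeft (nat_lit 0x800001805006809) (nat_lit 65)) (.one (nat_lit 0x100000300a00d011000601403a422511)) (.one (nat_lit 0x100000300a00d012000601403a424511))))) (.br (Nat.shiftLeft (nat_lit 0x1000005) (nat_lit 100)) (.br (Nat.shiftLeft (nat_lit 0x800002005006809) (nat_lit 65)) (.one (nat_lit 0x100000400a00d011000801403a422511)) (.one (nat_lit 0x100000400a00d012000801403a424511))) (.br (Nat.shiftLeft (nat_lit 0x800003) (nat_lit 101)) (.one (nat_lit 0x100000500a00d011000a01403a422511))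 (.br (Nat.shiftLeft (nat_lit 0x1) (nat_lit 125)) (.one (nat_lit 0x100000600a00d011000c01403a422511)) (.one (nat_lit 0x200000200a00d011000401405a822511))))))) (.br (Nat.shiftLeft (nat_lit 0x1800002005006809) (nat_lit 65)) (.br (Nat.shiftLeft (nat_lit 0x1000003) (nat_lit 101)) (.br (Nat.shiftLeft (nat_lit 0x800001) (nat_lit 102)) (.br (Nat.shiftLeft (nat_lit 0x1000001805006809) (nat_lit 65)) (.one (nat_lit 0x200000300a00d011000601405a822511)) (.one (nat_lit 0x200000300a00d012000601405a824511))) (.br (Nat.shiftLeft (nat_lit 0x1000002005006809) (nat_lit 65)) (.one (nat_lit 0x200000400a00d011000801405a822511)) (.br (Nat.shiftLeft (nat_lit 0x2000005) (nat_lit 100)) (.one (nat_lit 0x200000400a00d012000801405a824511)) (.one (nat_lit 0x200000500a00d011000a01405a822511))))) (.br (Nat.shiftLeft (nat_lit 0x3000003) (nat_lit 100)) (.br (Nat.shiftLeft (nat_lit 0x3) (nat_lit 124)) (.one (nat_lit 0x200000600a00d011000c01405a822511)) (.one (nat_lit 0x300000200a00d011000401407ac22511))) (.br (Nat.shiftLeft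 (nat_lit 0x1800001805006809) (nat_lit 65)) (.one (nat_lit 0x300000300a00d011000601407ac22511)) (.br (Nat.shiftLeft (nat_lit 0xc00001) (nat_lit 102)) (.one (nat_lit 0x300000300a00d012000601407ac24511)) (.one (nat_lit 0x300000400a00d011000801407ac22511)))))) (.br (Nat.shiftLeft (nat_lit 0x2000001805006809) (nat_lit 65)) (.br (Nat.shiftLeft (nat_lit 0x1800003) (nat_lit 101)) (.br (Nat.shiftLeft (nat_lit 0x3000005) (nat_lit 100)) (.one (nat_lit 0x300000400a00d012000801407ac24511)) (.one (nat_lit 0x300000500a00d011000a01407ac22511))) (.br (Nat.shiftLeft (nat_lit 0x1) (nat_lit 126)) (.one (nat_lit 0x300000600a00d011000c01407ac22511)) (.br (Nat.shiftLeft (nat_lit 0x4000003) (nat_lit 100)) (.one (nat_lit 0x400000200a00d011000401409b022511)) (.one (nat_lit 0x400000300a00d011000601409b022511))))) (.br (Nat.shiftLeft (nat_lit 0x2000002005006809) (nat_lit 65)) (.br (Nat.shiftLeft (nat_lit 0x1000001) (nat_lit 102)) (.one (nat_lit 0x400000300a00d012000601409b024511)) (.one (nat_lit 0x400000400a00d011000801409b022511)))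 (.br (Nat.shiftLeft (nat_lit 0x4000005) (nat_lit 100)) (.one (nat_lit 0x400000400a00d012000801409b024511)) (.br (Nat.shiftLeft (nat_lit 0x2000003) (nat_lit 101)) (.one (nat_lit 0x400000500a00d011000a01409b022511)) (.one (nat_lit 0x400000600a00d011000c01409b022511))))))))
def t105 : k105.all (jb2 57 fl b0) = true := by decide +kernel
noncomputable def k106 : KT := (.br (Nat.shiftLeft (nat_lit 0x2800003) (nat_lit 101)) (.br (Nat.shiftLeft (nat_lit 0x1400001) (nat_lit 102)) (.br (Nat.shiftLeft (nat_lit 0x5000003) (nat_lit 100)) (.one (nat_lit 0x500000200a00d01100040140bb422511)) (.br (Nat.shiftLeft (nat_lit 0x2800001805006809) (nat_lit 65)) (.one (nat_lit 0x500000300a00d01100060140bb422511)) (.one (nat_lit 0x500000300a00d01200060140bb424511)))) (.br (Nat.shiftLeft (nat_lit 0x2800002005006809) (nat_lit 65)) (.one (nat_lit 0x500000400a00d01100080140bb422511)) (.br (Nat.shiftLeft (nat_lit 0x5000005) (nat_lit 100)) (.one (nat_lit 0x500000400a00d01200080140bb424511)) (.one (nat_lit 0x500000500a00d011000a0140bb422511)))))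 (.br (Nat.shiftLeft (nat_lit 0x3000001805006809) (nat_lit 65)) (.br (Nat.shiftLeft (nat_lit 0x3) (nat_lit 125)) (.one (nat_lit 0x500000600a00d011000c0140bb422511)) (.br (Nat.shiftLeft (nat_lit 0x6000003) (nat_lit 100)) (.one (nat_lit 0x600000200a00d01100040140db822511)) (.one (nat_lit 0x600000300a00d01100060140db822511)))) (.br (Nat.shiftLeft (nat_lit 0x1800001) (nat_lit 102)) (.one (nat_lit 0x600000300a00d01200060140db824511)) (.br (Nat.shiftLeft (nat_lit 0x3000002005006809) (nat_lit 65)) (.one (nat_lit 0x600000400a00d01100080140db822511)) (.one (nat_lit 0x600000400a00d01200080140db824511))))))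
def t106 : k106.all (jb2 57 fl b0) = true := by decide +kernel
noncomputable def k107 : KT := (.br (Nat.shiftLeft (nat_lit 0x2000001) (nat_lit 102)) (.br (Nat.shiftLeft (nat_lit 0x3800002005006809) (nat_lit 65)) (.br (Nat.shiftLeft (nat_lit 0x7000003) (nat_lit 100)) (.br (Nat.shiftLeft (nat_lit 0x3000003) (nat_lit 101)) (.one (nat_lit 0x600000500a00d011000a0140db822511)) (.br (Nat.shiftLeft (nat_lit 0x7) (nat_lit 124)) (.one (nat_lit 0x600000600a00d011000c0140db822511)) (.one (nat_lit 0x700000200a00d01100040140fbc22511)))) (.br (Nat.shiftLeft (nat_lit 0x3800001805006809) (nat_lit 65)) (.one (nat_lit 0x700000300a00d01100060140fbc22511)) (.br (Nat.shiftLeft (nat_lit 0x1c00001) (nat_lit 102)) (.one (nat_lit 0x700000300a00d01200060140fbc24511)) (.one (nat_lit 0x700000400a00d01100080140fbc22511))))) (.br (Nat.shiftLeft (nat_lit 0x1) (nat_lit 127)) (.br (Nat.shiftLeft (nat_lit 0x7000005) (nat_lit 100)) (.one (nat_lit 0x700000400a00d01200080140fbc24511)) (.br (Nat.shiftLeft (nat_lit 0x3800003)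 (nat_lit 101)) (.one (nat_lit 0x700000500a00d011000a0140fbc22511)) (.one (nat_lit 0x700000600a00d011000c0140fbc22511)))) (.br (Nat.shiftLeft (nat_lit 0x8000003) (nat_lit 100)) (.one (nat_lit 0x800000200a00d011000401411c022511)) (.br (Nat.shiftLeft (nat_lit 0x4000001805006809) (nat_lit 65)) (.one (nat_lit 0x800000300a00d011000601411c022511)) (.one (nat_lit 0x800000300a00d012000601411c024511)))))) (.br (Nat.shiftLeft (nat_lit 0x4800001805006809) (nat_lit 65)) (.br (Nat.shiftLeft (nat_lit 0x4000003) (nat_lit 101)) (.br (Nat.shiftLeft (nat_lit 0x4000002005006809) (nat_lit 65)) (.one (nat_lit 0x800000400a00d011000801411c022511)) (.br (Nat.shiftLeft (nat_lit 0x8000005) (nat_lit 100)) (.one (nat_lit 0x800000400a00d012000801411c024511)) (.one (nat_lit 0x800000500a00d011000a01411c022511)))) (.br (Nat.shiftLeft (nat_lit 0x9) (nat_lit 124)) (.one (nat_lit 0x800000600a00d011000c01411c022511)) (.br (Nat.shiftLeft (nat_lit 0x9000003) (nat_lit 100)) (.one (nat_lit 0x900000200a00d011000401413c422511))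 (.one (nat_lit 0x900000300a00d011000601413c422511))))) (.br (Nat.shiftLeft (nat_lit 0x9000005) (nat_lit 100)) (.br (Nat.shiftLeft (nat_lit 0x2400001) (nat_lit 102)) (.one (nat_lit 0x900000300a00d012000601413c424511)) (.br (Nat.shiftLeft (nat_lit 0x4800002005006809) (nat_lit 65)) (.one (nat_lit 0x900000400a00d011000801413c422511)) (.one (nat_lit 0x900000400a00d012000801413c424511)))) (.br (Nat.shiftLeft (nat_lit 0x4800003) (nat_lit 101)) (.one (nat_lit 0x900000500a00d011000a01413c422511)) (.br (Nat.shiftLeft (nat_lit 0x5) (nat_lit 125)) (.one (nat_lit 0x900000600a00d011000c01413c422511)) (.one (nat_lit 0xa00000200a00d011000401415c822511)))))))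
def t107 : k107.all (jb2 57 fl b0) = true := by decide +kernel
noncomputable def k108 : KT := (.br (Nat.shiftLeft (nat_lit 0xb000005) (nat_lit 100)) (.br (Nat.shiftLeft (nat_lit 0x5000003) (nat_lit 101)) (.br (Nat.shiftLeft (nat_lit 0x2800001) (nat_lit 102)) (.br (Nat.shiftLeft (nat_lit 0x5000001805006809) (nat_lit 65)) (.one (nat_lit 0xa00000300a00d011000601415c822511)) (.one (nat_lit 0xa00000300a00d012000601415c824511))) (.br (Nat.shiftLeft (nat_lit 0x5000002005006809) (nat_lit 65)) (.one (nat_lit 0xa00000400a00d011000801415c822511)) (.br (Nat.shiftLeft (nat_lit 0xa000005) (nat_lit 100)) (.one (nat_lit 0xa00000400a00d012000801415c824511)) (.one (nat_lit 0xa00000500a00d011000a01415c822511))))) (.br (Nat.shiftLeft (nat_lit 0x5800001805006809) (nat_lit 65)) (.br (Nat.shiftLeft (nat_lit 0xb) (nat_lit 124)) (.one (nat_lit 0xa00000600a00d011000c01415c822511)) (.br (Nat.shiftLeft (nat_lit 0xb000003) (nat_lit 100)) (.one (nat_lit 0xb00000200a00d011000401417cc22511)) (.one (nat_lit 0xb00000300a00d011000601417cc22511))))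 (.br (Nat.shiftLeft (nat_lit 0x2c00001) (nat_lit 102)) (.one (nat_lit 0xb00000300a00d012000601417cc24511)) (.br (Nat.shiftLeft (nat_lit 0x5800002005006809) (nat_lit 65)) (.one (nat_lit 0xb00000400a00d011000801417cc22511)) (.one (nat_lit 0xb00000400a00d012000801417cc24511)))))) (.br (Nat.shiftLeft (nat_lit 0x6000002005006809) (nat_lit 65)) (.br (Nat.shiftLeft (nat_lit 0xc000003) (nat_lit 100)) (.br (Nat.shiftLeft (nat_lit 0x5800003) (nat_lit 101)) (.one (nat_lit 0xb00000500a00d011000a01417cc22511)) (.br (Nat.shiftLeft (nat_lit 0x3) (nat_lit 126)) (.one (nat_lit 0xb00000600a00d011000c01417cc22511)) (.one (nat_lit 0xc00000200a00d011000401419d022511)))) (.br (Nat.shiftLeft (nat_lit 0x6000001805006809) (nat_lit 65)) (.one (nat_lit 0xc00000300a00d011000601419d022511)) (.br (Nat.shiftLeft (nat_lit 0x3000001) (nat_lit 102)) (.one (nat_lit 0xc00000300a00d012000601419d024511)) (.one (nat_lit 0xc00000400a00d011000801419d022511))))) (.br (Nat.shiftLeft (nat_lit 0xd000003) (nat_lit 100)) (.br (Nat.shiftLeft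 (nat_lit 0xc000005) (nat_lit 100)) (.one (nat_lit 0xc00000400a00d012000801419d024511)) (.br (Nat.shiftLeft (nat_lit 0xd) (nat_lit 124)) (.one (nat_lit 0xc00000500a00d011000a01419d022511)) (.one (nat_lit 0xd00000200a00d01100040141bd422511)))) (.br (Nat.shiftLeft (nat_lit 0x6800001805006809) (nat_lit 65)) (.one (nat_lit 0xd00000300a00d01100060141bd422511)) (.br (Nat.shiftLeft (nat_lit 0x3400001) (nat_lit 102)) (.one (nat_lit 0xd00000300a00d01200060141bd424511)) (.one (nat_lit 0xd00000400a00d01100080141bd422511)))))))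
def t108 : k108.all (jb2 57 fl b0) = true := by decide +kernel
noncomputable def s5 : KT := (.br (nat_lit 0x100300a00d011200601401a022650) (.br (nat_lit 0x600a00d011000c01401a023500) (.br (nat_lit 0x200a00d011000401401a023500) (.br (nat_lit 0x100a00d011000201401a022540) k90 k91) (.br (nat_lit 0x500a00d011000a01401a023500) k92 k93)) (.br (nat_lit 0x700a00d011000e01401a022540) (.br (nat_lit 0x600a00d012000c01401a024540) k94 k95) (.br (nat_lit 0x800a00d011001001401a022540) k96 (.br (nat_lit 0x100000a00d012200001401a024411) k97 k98)))) (.br (nat_lit 0x300500a00d011600a01401a022650) (.br (nat_lit 0x200300a00d011400601401a022650) (.br (nat_lit 0x100400a00d012200801401a024650) k99 k100) (.br (nat_lit 0x200400a00d011400801401a022650) k101 (.br (nat_lit 0x300000a00d012600001401a024411) k102 k103))) (.br (nat_lit 0x400000600a00d011000c01409b022511) (.br (nat_lit 0x700000a00d012e00001401a024411) k104 k105) (.br (nat_lit 0x600000400a00d01200080140db824511) k106 (.br (nat_lit 0xa00000200a00d011000401415c822511)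 k107 k108)))))
noncomputable def u5 : KT := (.br (Nat.shiftLeft (nat_lit 0x5006809) (nat_lit 65)) (.one (nat_lit 0xa00d011000001401a022430)) (.one (nat_lit 0xa00d012000001401a024430)))
def w5 : u5.all (wj 57 s5) = true := by decide +kernel
def o5 : OkW 57 (jb2 57 fl) u5 := .lift s5 _ (.br _ _ _ (.br _ _ _ (.br _ _ _ (.br _ _ _ (.leaf b0 k90 t90) (.leaf b0 k91 t91)) (.br _ _ _ (.leaf b0 k92 t92) (.leaf b0 k93 t93))) (.br _ _ _ (.br _ _ _ (.leaf b0 k94 t94) (.leaf b0 k95 t95)) (.br _ _ _ (.leaf b0 k96 t96) (.br _ _ _ (.leaf b0 k97 t97) (.leaf b0 k98 t98))))) (.br _ _ _ (.br _ _ _ (.br _ _ _ (.leaf b0 k99 t99) (.leaf b0 k100 t100)) (.br _ _ _ (.leaf b0 k101 t101) (.br _ _ _ (.leaf b0 k102 t102) (.leaf b0 k103 t103)))) (.br _ _ _ (.br _ _ _ (.leaf b0 k104 t104) (.leaf b0 k105 t105)) (.br _ _ _ (.leaf b0 k106 t106) (.br _ _ _ (.leaf b0 k107 t107) (.leaf b0 k108 t108)))))) w5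
noncomputable def k109 : KT := (.br (Nat.shiftLeft (nat_lit 0x500680b) (nat_lit 65)) (.br (Nat.shiftLeft (nat_lit 0x2803405) (nat_lit 66)) (.one (nat_lit 0xa00d013000001401a027400)) (.br (Nat.shiftLeft (nat_lit 0xa00d015) (nat_lit 64)) (.one (nat_lit 0xa00d014000001401a029400)) (.one (nat_lit 0xa00d015000001401a02b400)))) (.br (Nat.shiftLeft (nat_lit 0x1) (nat_lit 100)) (.br (Nat.shiftLeft (nat_lit 0xa00d017) (nat_lit 64)) (.one (nat_lit 0xa00d016000001401a02d400)) (.one (nat_lit 0xa00d017000001401a02f400))) (.br (Nat.shiftLeft (nat_lit 0x402803405) (nat_lit 66)) (.one (nat_lit 0x100a00d013000201401a026540)) (.one (nat_lit 0x100a00d014000201401a028540)))))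
def t109 : k109.all (jb2 57 fl b0) = true := by decide +kernel
noncomputable def k110 : KT := (.br (Nat.shiftLeft (nat_lit 0x80500680b) (nat_lit 65)) (.one (nat_lit 0x100a00d015000201401a02a540)) (.br (Nat.shiftLeft (nat_lit 0x100a00d017) (nat_lit 64)) (.one (nat_lit 0x100a00d016000201401a02c540)) (.one (nat_lit 0x100a00d017000201401a02e540))))
def t110 : k110.all (jb2 57 fl b0) = true := by decide +kernel
noncomputable def k111 : KT := (.one (nat_lit 0x200a00d013000401401a026540))
def t111 : k111.all (jb2 57 fl b0) = true := by decide +kernel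
noncomputable def k112 : KT := (.br (Nat.shiftLeft (nat_lit 0x200a00d015) (nat_lit 64)) (.one (nat_lit 0x200a00d014000401401a028540)) (.one (nat_lit 0x200a00d015000401401a02a540)))
def t112 : k112.all (jb2 57 fl b0) = true := by decide +kernel
noncomputable def k113 : KT := (.br (Nat.shiftLeft (nat_lit 0x200a00d017) (nat_lit 64)) (.one (nat_lit 0x200a00d016000401401a02c540)) (.one (nat_lit 0x200a00d017000401401a02e540)))
def t113 : k113.all (jb2 57 fl b0) = true := by decide +kernel
noncomputable def k114 : KT := (.one (nat_lit 0x300a00d013000601401a026540))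
def t114 : k114.all (jb2 57 fl b0) = true := by decide +kernel
noncomputable def k115 : KT := (.br (Nat.shiftLeft (nat_lit 0x300a00d015) (nat_lit 64)) (.one (nat_lit 0x300a00d014000601401a028540)) (.one (nat_lit 0x300a00d015000601401a02a540)))
def t115 : k115.all (jb2 57 fl b0) = true := by decide +kernel
noncomputable def k116 : KT := (.br (Nat.shiftLeft (nat_lit 0x300a00d017) (nat_lit 64)) (.one (nat_lit 0x300a00d016000601401a02c540)) (.one (nat_lit 0x300a00d017000601401a02e540)))
def t116 : k116.all (jb2 57 fl b0) = true := by decide +kernel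
noncomputable def k117 : KT := (.one (nat_lit 0x400a00d013000801401a026540))
def t117 : k117.all (jb2 57 fl b0) = true := by decide +kernel
noncomputable def k118 : KT := (.br (Nat.shiftLeft (nat_lit 0x400a00d015) (nat_lit 64)) (.one (nat_lit 0x400a00d014000801401a028540)) (.one (nat_lit 0x400a00d015000801401a02a540)))
def t118 : k118.all (jb2 57 fl b0) = true := by decide +kernel
noncomputable def k119 : KT := (.br (Nat.shiftLeft (nat_lit 0x400a00d017) (nat_lit 64)) (.one (nat_lit 0x400a00d016000801401a02c540)) (.one (nat_lit 0x400a00d017000801401a02e540)))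
def t119 : k119.all (jb2 57 fl b0) = true := by decide +kernel
noncomputable def k120 : KT := (.one (nat_lit 0x500a00d013000a01401a026540))
def t120 : k120.all (jb2 57 fl b0) = true := by decide +kernel
noncomputable def k121 : KT := (.br (Nat.shiftLeft (nat_lit 0x500a00d015) (nat_lit 64)) (.one (nat_lit 0x500a00d014000a01401a028540)) (.br (Nat.shiftLeft (nat_lit 0x280500680b) (nat_lit 65)) (.one (nat_lit 0x500a00d015000a01401a02a540)) (.one (nat_lit 0x500a00d016000a01401a02c540))))
def t121 : k121.all (jb2 57 fl b0) = true := by decide +kernel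
noncomputable def k122 : KT := (.br (Nat.shiftLeft (nat_lit 0x3) (nat_lit 101)) (.one (nat_lit 0x500a00d017000a01401a02e540)) (.br (Nat.shiftLeft (nat_lit 0x1802803405) (nat_lit 66)) (.one (nat_lit 0x600a00d013000c01401a026540)) (.one (nat_lit 0x600a00d014000c01401a028540))))
def t122 : k122.all (jb2 57 fl b0) = true := by decide +kernel
noncomputable def k123 : KT := (.br (Nat.shiftLeft (nat_lit 0x600a00d017) (nat_lit 64)) (.br (Nat.shiftLeft (nat_lit 0x300500680b) (nat_lit 65)) (.one (nat_lit 0x600a00d015000c01401a02a540)) (.one (nat_lit 0x600a00d016000c01401a02c540))) (.br (Nat.shiftLeft (nat_lit 0x7) (nat_lit 100)) (.one (nat_lit 0x600a00d017000c01401a02e540)) (.br (Nat.shiftLeft (nat_lit 0x1c02803405) (nat_lit 66)) (.one (nat_lit 0x700a00d013000e01401a026540)) (.one (nat_lit 0x700a00d014000e01401a028540)))))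
def t123 : k123.all (jb2 57 fl b0) = true := by decide +kernel
noncomputable def k124 : KT := (.br (Nat.shiftLeft (nat_lit 0x2402803405) (nat_lit 66)) (.br (Nat.shiftLeft (nat_lit 0x2002803405) (nat_lit 66)) (.br (Nat.shiftLeft (nat_lit 0x700a00d017) (nat_lit 64)) (.br (Nat.shiftLeft (nat_lit 0x380500680b) (nat_lit 65)) (.one (nat_lit 0x700a00d015000e01401a02a540)) (.one (nat_lit 0x700a00d016000e01401a02c540))) (.br (Nat.shiftLeft (nat_lit 0x1) (nat_lit 103)) (.one (nat_lit 0x700a00d017000e01401a02e540)) (.one (nat_lit 0x800a00d013001001401a026540)))) (.br (Nat.shiftLeft (nat_lit 0x400500680b) (nat_lit 65)) (.br (Nat.shiftLeft (nat_lit 0x800a00d015) (nat_lit 64)) (.one (nat_lit 0x800a00d014001001401a028540)) (.one (nat_lit 0x800a00d015001001401a02a540))) (.br (Nat.shiftLeft (nat_lit 0x800a00d017) (nat_lit 64)) (.one (nat_lit 0x800a00d016001001401a02c540)) (.br (Nat.shiftLeft (nat_lit 0x9) (nat_lit 100)) (.one (nat_lit 0x800a00d017001001401a02e540)) (.one (nat_lit 0x900a00d013001201401a026540))))))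 (.br (Nat.shiftLeft (nat_lit 0x1) (nat_lit 112)) (.br (Nat.shiftLeft (nat_lit 0x480500680b) (nat_lit 65)) (.br (Nat.shiftLeft (nat_lit 0x900a00d015) (nat_lit 64)) (.one (nat_lit 0x900a00d014001201401a028540)) (.one (nat_lit 0x900a00d015001201401a02a540))) (.br (Nat.shiftLeft (nat_lit 0x900a00d017) (nat_lit 64)) (.one (nat_lit 0x900a00d016001201401a02c540)) (.one (nat_lit 0x900a00d017001201401a02e540)))) (.br (Nat.shiftLeft (nat_lit 0x100000a00d015) (nat_lit 64)) (.br (Nat.shiftLeft (nat_lit 0x400002803405) (nat_lit 66)) (.one (nat_lit 0x100000a00d013200001401a026411)) (.one (nat_lit 0x100000a00d014200001401a028411))) (.br (Nat.shiftLeft (nat_lit 0x80000500680b) (nat_lit 65)) (.one (nat_lit 0x100000a00d015200001401a02a411)) (.br (Nat.shiftLeft (nat_lit 0x100000a00d017) (nat_lit 64)) (.one (nat_lit 0x100000a00d016200001401a02c411)) (.one (nat_lit 0x100000a00d017200001401a02e411)))))))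
def t124 : k124.all (jb2 57 fl b0) = true := by decide +kernel
noncomputable def k125 : KT := (.br (Nat.shiftLeft (nat_lit 0x3) (nat_lit 113)) (.br (Nat.shiftLeft (nat_lit 0x1) (nat_lit 114)) (.br (Nat.shiftLeft (nat_lit 0x3) (nat_lit 112)) (.br (Nat.shiftLeft (nat_lit 0x200000a00d015) (nat_lit 64)) (.br (Nat.shiftLeft (nat_lit 0x800002803405) (nat_lit 66)) (.one (nat_lit 0x200000a00d013400001401a026411)) (.one (nat_lit 0x200000a00d014400001401a028411))) (.br (Nat.shiftLeft (nat_lit 0x100000500680b) (nat_lit 65)) (.one (nat_lit 0x200000a00d015400001401a02a411)) (.br (Nat.shiftLeft (nat_lit 0x200000a00d017) (nat_lit 64)) (.one (nat_lit 0x200000a00d016400001401a02c411)) (.one (nat_lit 0x200000a00d017400001401a02e411))))) (.br (Nat.shiftLeft (nat_lit 0x300000a00d015) (nat_lit 64)) (.br (Nat.shiftLeft (nat_lit 0xc00002803405) (nat_lit 66)) (.one (nat_lit 0x300000a00d013600001401a026411)) (.one (nat_lit 0x300000a00d014600001401a028411))) (.br (Nat.shiftLeft (nat_lit 0x180000500680b) (nat_lit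 65)) (.one (nat_lit 0x300000a00d015600001401a02a411)) (.br (Nat.shiftLeft (nat_lit 0x300000a00d017) (nat_lit 64)) (.one (nat_lit 0x300000a00d016600001401a02c411)) (.one (nat_lit 0x300000a00d017600001401a02e411)))))) (.br (Nat.shiftLeft (nat_lit 0x5) (nat_lit 112)) (.br (Nat.shiftLeft (nat_lit 0x400000a00d015) (nat_lit 64)) (.br (Nat.shiftLeft (nat_lit 0x1000002803405) (nat_lit 66)) (.one (nat_lit 0x400000a00d013800001401a026411)) (.one (nat_lit 0x400000a00d014800001401a028411))) (.br (Nat.shiftLeft (nat_lit 0x200000500680b) (nat_lit 65)) (.one (nat_lit 0x400000a00d015800001401a02a411)) (.br (Nat.shiftLeft (nat_lit 0x400000a00d017) (nat_lit 64)) (.one (nat_lit 0x400000a00d016800001401a02c411)) (.one (nat_lit 0x400000a00d017800001401a02e411))))) (.br (Nat.shiftLeft (nat_lit 0x500000a00d015) (nat_lit 64)) (.br (Nat.shiftLeft (nat_lit 0x1400002803405) (nat_lit 66)) (.one (nat_lit 0x500000a00d013a00001401a026411)) (.one (nat_lit 0x500000a00d014a00001401a028411))) (.br (Nat.shiftLeft (nat_lit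 0x280000500680b) (nat_lit 65)) (.one (nat_lit 0x500000a00d015a00001401a02a411)) (.br (Nat.shiftLeft (nat_lit 0x500000a00d017) (nat_lit 64)) (.one (nat_lit 0x500000a00d016a00001401a02c411)) (.one (nat_lit 0x500000a00d017a00001401a02e411))))))) (.br (Nat.shiftLeft (nat_lit 0x1) (nat_lit 115)) (.br (Nat.shiftLeft (nat_lit 0x7) (nat_lit 112)) (.br (Nat.shiftLeft (nat_lit 0x600000a00d015) (nat_lit 64)) (.br (Nat.shiftLeft (nat_lit 0x1800002803405) (nat_lit 66)) (.one (nat_lit 0x600000a00d013c00001401a026411)) (.one (nat_lit 0x600000a00d014c00001401a028411))) (.br (Nat.shiftLeft (nat_lit 0x300000500680b) (nat_lit 65)) (.one (nat_lit 0x600000a00d015c00001401a02a411)) (.br (Nat.shiftLeft (nat_lit 0x600000a00d017) (nat_lit 64)) (.one (nat_lit 0x600000a00d016c00001401a02c411)) (.one (nat_lit 0x600000a00d017c00001401a02e411))))) (.br (Nat.shiftLeft (nat_lit 0x700000a00d015) (nat_lit 64)) (.br (Nat.shiftLeft (nat_lit 0x1c00002803405) (nat_lit 66)) (.one (nat_lit 0x700000a00d013e00001401a026411))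 (.one (nat_lit 0x700000a00d014e00001401a028411))) (.br (Nat.shiftLeft (nat_lit 0x380000500680b) (nat_lit 65)) (.one (nat_lit 0x700000a00d015e00001401a02a411)) (.br (Nat.shiftLeft (nat_lit 0x700000a00d017) (nat_lit 64)) (.one (nat_lit 0x700000a00d016e00001401a02c411)) (.one (nat_lit 0x700000a00d017e00001401a02e411)))))) (.br (Nat.shiftLeft (nat_lit 0x9) (nat_lit 112)) (.br (Nat.shiftLeft (nat_lit 0x800000a00d015) (nat_lit 64)) (.br (Nat.shiftLeft (nat_lit 0x2000002803405) (nat_lit 66)) (.one (nat_lit 0x800000a00d013000001401a128411)) (.one (nat_lit 0x800000a00d014000001401a12a411))) (.br (Nat.shiftLeft (nat_lit 0x400000500680b) (nat_lit 65)) (.one (nat_lit 0x800000a00d015000001401a12c411)) (.br (Nat.shiftLeft (nat_lit 0x800000a00d017) (nat_lit 64)) (.one (nat_lit 0x800000a00d016000001401a12e411)) (.one (nat_lit 0x800000a00d017000001401a130411))))) (.br (Nat.shiftLeft (nat_lit 0x900000a00d015) (nat_lit 64)) (.br (Nat.shiftLeft (nat_lit 0x2400002803405) (nat_lit 66)) (.one (nat_lit 0x900000a00d013200001401a128411))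 (.one (nat_lit 0x900000a00d014200001401a12a411))) (.br (Nat.shiftLeft (nat_lit 0x480000500680b) (nat_lit 65)) (.one (nat_lit 0x900000a00d015200001401a12c411)) (.br (Nat.shiftLeft (nat_lit 0x900000a00d017) (nat_lit 64)) (.one (nat_lit 0x900000a00d016200001401a12e411)) (.one (nat_lit 0x900000a00d017200001401a130411))))))))
def t125 : k125.all (jb2 57 fl b0) = true := by decide +kernel
noncomputable def k126 : KT := (.br (Nat.shiftLeft (nat_lit 0x580000500680b) (nat_lit 65)) (.br (Nat.shiftLeft (nat_lit 0xa00000a00d017) (nat_lit 64)) (.br (Nat.shiftLeft (nat_lit 0xa00000a00d015) (nat_lit 64)) (.br (Nat.shiftLeft (nat_lit 0x2800002803405) (nat_lit 66)) (.one (nat_lit 0xa00000a00d013400001401a128411)) (.one (nat_lit 0xa00000a00d014400001401a12a411))) (.br (Nat.shiftLeft (nat_lit 0x500000500680b) (nat_lit 65)) (.one (nat_lit 0xa00000a00d015400001401a12c411)) (.one (nat_lit 0xa00000a00d016400001401a12e411)))) (.br (Nat.shiftLeft (nat_lit 0x2c00002803405) (nat_lit 66)) (.br (Nat.shiftLeft (nat_lit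 0xb) (nat_lit 112)) (.one (nat_lit 0xa00000a00d017400001401a130411)) (.one (nat_lit 0xb00000a00d013600001401a128411))) (.br (Nat.shiftLeft (nat_lit 0xb00000a00d015) (nat_lit 64)) (.one (nat_lit 0xb00000a00d014600001401a12a411)) (.one (nat_lit 0xb00000a00d015600001401a12c411))))) (.br (Nat.shiftLeft (nat_lit 0xc00000a00d015) (nat_lit 64)) (.br (Nat.shiftLeft (nat_lit 0x3) (nat_lit 114)) (.br (Nat.shiftLeft (nat_lit 0xb00000a00d017) (nat_lit 64)) (.one (nat_lit 0xb00000a00d016600001401a12e411)) (.one (nat_lit 0xb00000a00d017600001401a130411))) (.br (Nat.shiftLeft (nat_lit 0x3000002803405) (nat_lit 66)) (.one (nat_lit 0xc00000a00d013800001401a128411)) (.one (nat_lit 0xc00000a00d014800001401a12a411)))) (.br (Nat.shiftLeft (nat_lit 0xd) (nat_lit 112)) (.br (Nat.shiftLeft (nat_lit 0x600000500680b) (nat_lit 65)) (.one (nat_lit 0xc00000a00d015800001401a12c411)) (.one (nat_lit 0xc00000a00d016800001401a12e411))) (.br (Nat.shiftLeft (nat_lit 0x3400002803405) (nat_lit 66)) (.one (nat_lit 0xd00000a00d013a00001401a128411))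 (.br (Nat.shiftLeft (nat_lit 0xd00000a00d015) (nat_lit 64)) (.one (nat_lit 0xd00000a00d014a00001401a12a411)) (.one (nat_lit 0xd00000a00d015a00001401a12c411)))))))
def t126 : k126.all (jb2 57 fl b0) = true := by decide +kernel
noncomputable def s6 : KT := (.br (nat_lit 0x400a00d013000801401a026540) (.br (nat_lit 0x200a00d015000401401a02a540) (.br (nat_lit 0x100a00d017000201401a02e540) (.br (nat_lit 0x100a00d014000201401a028540) k109 k110) (.br (nat_lit 0x200a00d013000401401a026540) k111 k112)) (.br (nat_lit 0x300a00d013000601401a026540) (.br (nat_lit 0x200a00d017000401401a02e540) k113 k114) (.br (nat_lit 0x300a00d015000601401a02a540) k115 (.br (nat_lit 0x300a00d017000601401a02e540) k116 k117)))) (.br (nat_lit 0x500a00d016000a01401a02c540) (.br (nat_lit 0x400a00d017000801401a02e540) (.br (nat_lit 0x400a00d015000801401a02a540) k118 k119) (.br (nat_lit 0x500a00d013000a01401a026540) k120 k121)) (.br (nat_lit 0x700a00d014000e01401a028540) (.br (nat_lit 0x600a00d014000c01401a028540) k122 k123)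 (.br (nat_lit 0x100000a00d017200001401a02e411) k124 (.br (nat_lit 0x900000a00d017200001401a130411) k125 k126)))))
noncomputable def u6 : KT := (.br (Nat.shiftLeft (nat_lit 0xa00d015) (nat_lit 64)) (.br (Nat.shiftLeft (nat_lit 0x2803405) (nat_lit 66)) (.one (nat_lit 0xa00d013000001401a026430)) (.one (nat_lit 0xa00d014000001401a028430))) (.br (Nat.shiftLeft (nat_lit 0x500680b) (nat_lit 65)) (.one (nat_lit 0xa00d015000001401a02a430)) (.br (Nat.shiftLeft (nat_lit 0xa00d017) (nat_lit 64)) (.one (nat_lit 0xa00d016000001401a02c430)) (.one (nat_lit 0xa00d017000001401a02e430)))))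
def w6 : u6.all (wj 57 s6) = true := by decide +kernel
def o6 : OkW 57 (jb2 57 fl) u6 := .lift s6 _ (.br _ _ _ (.br _ _ _ (.br _ _ _ (.br _ _ _ (.leaf b0 k109 t109) (.leaf b0 k110 t110)) (.br _ _ _ (.leaf b0 k111 t111) (.leaf b0 k112 t112))) (.br _ _ _ (.br _ _ _ (.leaf b0 k113 t113) (.leaf b0 k114 t114)) (.br _ _ _ (.leaf b0 k115 t115) (.br _ _ _ (.leaf b0 k116 t116) (.leaf b0 k117 t117))))) (.br _ _ _ (.br _ _ _ (.br _ _ _ (.leaf b0 k118 t118) (.leaf b0 k119 t119)) (.br _ _ _ (.leaf b0 k120 t120) (.leaf b0 k121 t121))) (.br _ _ _ (.br _ _ _ (.leaf b0 k122 t122) (.leaf b0 k123 t123)) (.br _ _ _ (.leaf b0 k124 t124) (.br _ _ _ (.leaf b0 k125 t125) (.leaf b0 k126 t126)))))) w6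
noncomputable def k127 : KT := (.br (Nat.shiftLeft (nat_lit 0x1) (nat_lit 102)) (.br (Nat.shiftLeft (nat_lit 0x1) (nat_lit 101)) (.br (Nat.shiftLeft (nat_lit 0x1) (nat_lit 100)) (.one (nat_lit 0xa00e00f000001401c01f400)) (.one (nat_lit 0x100a00e00f000201401c01e540))) (.br (Nat.shiftLeft (nat_lit 0x3) (nat_lit 100)) (.one (nat_lit 0x200a00e00f000401401c01f500)) (.one (nat_lit 0x300a00e00f000601401c01f500)))) (.br (Nat.shiftLeft (nat_lit 0x3) (nat_lit 101)) (.br (Nat.shiftLeft (nat_lit 0x5) (nat_lit 100)) (.one (nat_lit 0x400a00e00f000801401c01f500)) (.one (nat_lit 0x500a00e00f000a01401c01f500))) (.br (Nat.shiftLeft (nat_lit 0x7) (nat_lit 100)) (.one (nat_lit 0x600a00e00f000c01401c01f500)) (.one (nat_lit 0x700a00e00f000e01401c01f500)))))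
def t127 : k127.all (jb2 57 fl b0) = true := by decide +kernel
noncomputable def k128 : KT := (.one (nat_lit 0x800a00e00f001001401c01e540))
def t128 : k128.all (jb2 57 fl b0) = true := by decide +kernel
noncomputable def k129 : KT := (.br (Nat.shiftLeft (nat_lit 0x1) (nat_lit 112)) (.one (nat_lit 0x900a00e00f001201401c01e540)) (.one (nat_lit 0x100000a00e00f200001401c01e411)))
def t129 : k129.all (jb2 57 fl b0) = true := by decide +kernel
noncomputable def k130 : KT := (.one (nat_lit 0x100200a00e00f200401401c01e650))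
def t130 : k130.all (jb2 57 fl b0) = true := by decide +kernel
noncomputable def k131 : KT := (.one (nat_lit 0x100300a00e00f200601401c01e650))
def t131 : k131.all (jb2 57 fl b0) = true := by decide +kernel
noncomputable def k132 : KT := (.br (Nat.shiftLeft (nat_lit 0x1005) (nat_lit 100)) (.one (nat_lit 0x100400a00e00f200801401c01e650)) (.br (Nat.shiftLeft (nat_lit 0x803) (nat_lit 101)) (.one (nat_lit 0x100500a00e00f200a01401c01e650)) (.one (nat_lit 0x100600a00e00f200c01401c01e650))))
def t132 : k132.all (jb2 57 fl b0) = true := by decide +kernel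
noncomputable def k133 : KT := (.br (Nat.shiftLeft (nat_lit 0x1) (nat_lit 113)) (.one (nat_lit 0x100700a00e00f200e01401c01e650)) (.br (Nat.shiftLeft (nat_lit 0x1001) (nat_lit 101)) (.one (nat_lit 0x200000a00e00f400001401c01e411)) (.one (nat_lit 0x200300a00e00f400601401c01e650))))
def t133 : k133.all (jb2 57 fl b0) = true := by decide +kernel
noncomputable def k134 : KT := (.br (Nat.shiftLeft (nat_lit 0x2005) (nat_lit 100)) (.one (nat_lit 0x200400a00e00f400801401c01e650)) (.one (nat_lit 0x200500a00e00f400a01401c01e650)))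
def t134 : k134.all (jb2 57 fl b0) = true := by decide +kernel
noncomputable def k135 : KT := (.br (Nat.shiftLeft (nat_lit 0x2007) (nat_lit 100)) (.one (nat_lit 0x200600a00e00f400c01401c01e650)) (.br (Nat.shiftLeft (nat_lit 0x3) (nat_lit 112)) (.one (nat_lit 0x200700a00e00f400e01401c01e650)) (.one (nat_lit 0x300000a00e00f600001401c01e411))))
def t135 : k135.all (jb2 57 fl b0) = true := by decide +kernel
noncomputable def k136 : KT := (.br (Nat.shiftLeft (nat_lit 0x3005) (nat_lit 100)) (.one (nat_lit 0x300400a00e00f600801401c01e650)) (.one (nat_lit 0x300500a00e00f600a01401c01e650)))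
def t136 : k136.all (jb2 57 fl b0) = true := by decide +kernel
noncomputable def k137 : KT := (.br (Nat.shiftLeft (nat_lit 0x1) (nat_lit 114)) (.br (Nat.shiftLeft (nat_lit 0x3007) (nat_lit 100)) (.one (nat_lit 0x300600a00e00f600c01401c01e650)) (.one (nat_lit 0x300700a00e00f600e01401c01e650))) (.br (Nat.shiftLeft (nat_lit 0x1001) (nat_lit 102)) (.one (nat_lit 0x400000a00e00f800001401c01e411)) (.one (nat_lit 0x400500a00e00f800a01401c01e650))))
def t137 : k137.all (jb2 57 fl b0) = true := by decide +kernel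
noncomputable def k138 : KT := (.br (Nat.shiftLeft (nat_lit 0x5007) (nat_lit 100)) (.br (Nat.shiftLeft (nat_lit 0x5) (nat_lit 112)) (.br (Nat.shiftLeft (nat_lit 0x4007) (nat_lit 100)) (.one (nat_lit 0x400600a00e00f800c01401c01e650)) (.one (nat_lit 0x400700a00e00f800e01401c01e650))) (.br (Nat.shiftLeft (nat_lit 0x1401) (nat_lit 102)) (.one (nat_lit 0x500000a00e00fa00001401c01e411)) (.one (nat_lit 0x500600a00e00fa00c01401c01e650)))) (.br (Nat.shiftLeft (nat_lit 0x1801) (nat_lit 102)) (.br (Nat.shiftLeft (nat_lit 0x3) (nat_lit 113)) (.one (nat_lit 0x500700a00e00fa00e01401c01e650)) (.one (nat_lit 0x600000a00e00fc00001401c01e411))) (.br (Nat.shiftLeft (nat_lit 0x7) (nat_lit 112)) (.one (nat_lit 0x600700a00e00fc00e01401c01e650)) (.br (Nat.shiftLeft (nat_lit 0x1) (nat_lit 115)) (.one (nat_lit 0x700000a00e00fe00001401c01e411)) (.one (nat_lit 0x800000a00e00f000001401c120411))))))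
def t138 : k138.all (jb2 57 fl b0) = true := by decide +kernel
noncomputable def k139 : KT := (.br (Nat.shiftLeft (nat_lit 0x1000003) (nat_lit 101)) (.br (Nat.shiftLeft (nat_lit 0x400001) (nat_lit 102)) (.br (Nat.shiftLeft (nat_lit 0xd) (nat_lit 112)) (.br (Nat.shiftLeft (nat_lit 0xb) (nat_lit 112)) (.br (Nat.shiftLeft (nat_lit 0x5) (nat_lit 113)) (.one (nat_lit 0x900000a00e00f200001401c120411)) (.one (nat_lit 0xa00000a00e00f400001401c120411))) (.br (Nat.shiftLeft (nat_lit 0x3) (nat_lit 114)) (.one (nat_lit 0xb00000a00e00f600001401c120411)) (.one (nat_lit 0xc00000a00e00f800001401c120411)))) (.br (Nat.shiftLeft (nat_lit 0x1) (nat_lit 124)) (.br (Nat.shiftLeft (nat_lit 0x7) (nat_lit 113)) (.one (nat_lit 0xd00000a00e00fa00001401c120411)) (.one (nat_lit 0xe00000a00e00fc00001401c120411))) (.br (Nat.shiftLeft (nat_lit 0x1000003) (nat_lit 100)) (.one (nat_lit 0x100000200a00e00f000401403c41e511)) (.one (nat_lit 0x100000300a00e00f000601403c41e511))))) (.br (Nat.shiftLeft (nat_lit 0x1) (nat_lit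 125)) (.br (Nat.shiftLeft (nat_lit 0x800003) (nat_lit 101)) (.br (Nat.shiftLeft (nat_lit 0x1000005) (nat_lit 100)) (.one (nat_lit 0x100000400a00e00f000801403c41e511)) (.one (nat_lit 0x100000500a00e00f000a01403c41e511))) (.br (Nat.shiftLeft (nat_lit 0x1000007) (nat_lit 100)) (.one (nat_lit 0x100000600a00e00f000c01403c41e511)) (.one (nat_lit 0x100000700a00e00f000e01403c41e511)))) (.br (Nat.shiftLeft (nat_lit 0x800001) (nat_lit 102)) (.br (Nat.shiftLeft (nat_lit 0x2000003) (nat_lit 100)) (.one (nat_lit 0x200000200a00e00f000401405c81e511)) (.one (nat_lit 0x200000300a00e00f000601405c81e511))) (.br (Nat.shiftLeft (nat_lit 0x2000005) (nat_lit 100)) (.one (nat_lit 0x200000400a00e00f000801405c81e511)) (.one (nat_lit 0x200000500a00e00f000a01405c81e511)))))) (.br (Nat.shiftLeft (nat_lit 0x1) (nat_lit 126)) (.br (Nat.shiftLeft (nat_lit 0xc00001) (nat_lit 102)) (.br (Nat.shiftLeft (nat_lit 0x3) (nat_lit 124)) (.br (Nat.shiftLeft (nat_lit 0x2000007) (nat_lit 100)) (.one (nat_lit 0x200000600a00e00f000c01405c81e511))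 (.one (nat_lit 0x200000700a00e00f000e01405c81e511))) (.br (Nat.shiftLeft (nat_lit 0x3000003) (nat_lit 100)) (.one (nat_lit 0x300000200a00e00f000401407cc1e511)) (.one (nat_lit 0x300000300a00e00f000601407cc1e511)))) (.br (Nat.shiftLeft (nat_lit 0x1800003) (nat_lit 101)) (.br (Nat.shiftLeft (nat_lit 0x3000005) (nat_lit 100)) (.one (nat_lit 0x300000400a00e00f000801407cc1e511)) (.one (nat_lit 0x300000500a00e00f000a01407cc1e511))) (.br (Nat.shiftLeft (nat_lit 0x3000007) (nat_lit 100)) (.one (nat_lit 0x300000600a00e00f000c01407cc1e511)) (.one (nat_lit 0x300000700a00e00f000e01407cc1e511))))) (.br (Nat.shiftLeft (nat_lit 0x2000003) (nat_lit 101)) (.br (Nat.shiftLeft (nat_lit 0x1000001) (nat_lit 102)) (.br (Nat.shiftLeft (nat_lit 0x4000003) (nat_lit 100)) (.one (nat_lit 0x400000200a00e00f000401409d01e511)) (.one (nat_lit 0x400000300a00e00f000601409d01e511))) (.br (Nat.shiftLeft (nat_lit 0x4000005) (nat_lit 100)) (.one (nat_lit 0x400000400a00e00f000801409d01e511)) (.one (nat_lit 0x400000500a00e00f000a01409d01e511))))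 (.br (Nat.shiftLeft (nat_lit 0x5) (nat_lit 124)) (.br (Nat.shiftLeft (nat_lit 0x4000007) (nat_lit 100)) (.one (nat_lit 0x400000600a00e00f000c01409d01e511)) (.one (nat_lit 0x400000700a00e00f000e01409d01e511))) (.br (Nat.shiftLeft (nat_lit 0x5000003) (nat_lit 100)) (.one (nat_lit 0x500000200a00e00f00040140bd41e511)) (.one (nat_lit 0x500000300a00e00f00060140bd41e511)))))))
def t139 : k139.all (jb2 57 fl b0) = true := by decide +kernel
noncomputable def k140 : KT := (.br (Nat.shiftLeft (nat_lit 0x6000003) (nat_lit 100)) (.br (Nat.shiftLeft (nat_lit 0x2800003) (nat_lit 101)) (.br (Nat.shiftLeft (nat_lit 0x5000005) (nat_lit 100)) (.one (nat_lit 0x500000400a00e00f00080140bd41e511)) (.one (nat_lit 0x500000500a00e00f000a0140bd41e511))) (.br (Nat.shiftLeft (nat_lit 0x5000007) (nat_lit 100)) (.one (nat_lit 0x500000600a00e00f000c0140bd41e511)) (.br (Nat.shiftLeft (nat_lit 0x3) (nat_lit 125)) (.one (nat_lit 0x500000700a00e00f000e0140bd41e511)) (.one (nat_lit 0x600000200a00e00f00040140dd81e511)))))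 (.br (Nat.shiftLeft (nat_lit 0x3000003) (nat_lit 101)) (.br (Nat.shiftLeft (nat_lit 0x1800001) (nat_lit 102)) (.one (nat_lit 0x600000300a00e00f00060140dd81e511)) (.br (Nat.shiftLeft (nat_lit 0x6000005) (nat_lit 100)) (.one (nat_lit 0x600000400a00e00f00080140dd81e511)) (.one (nat_lit 0x600000500a00e00f000a0140dd81e511)))) (.br (Nat.shiftLeft (nat_lit 0x6000007) (nat_lit 100)) (.one (nat_lit 0x600000600a00e00f000c0140dd81e511)) (.br (Nat.shiftLeft (nat_lit 0x7) (nat_lit 124)) (.one (nat_lit 0x600000700a00e00f000e0140dd81e511)) (.one (nat_lit 0x700000200a00e00f00040140fdc1e511))))))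
def t140 : k140.all (jb2 57 fl b0) = true := by decide +kernel
noncomputable def k141 : KT := (.br (Nat.shiftLeft (nat_lit 0x9) (nat_lit 124)) (.br (Nat.shiftLeft (nat_lit 0x1) (nat_lit 127)) (.br (Nat.shiftLeft (nat_lit 0x7000005) (nat_lit 100)) (.br (Nat.shiftLeft (nat_lit 0x1c00001) (nat_lit 102)) (.one (nat_lit 0x700000300a00e00f00060140fdc1e511)) (.one (nat_lit 0x700000400a00e00f00080140fdc1e511))) (.br (Nat.shiftLeft (nat_lit 0x3800003) (nat_lit 101)) (.one (nat_lit 0x700000500a00e00f000a0140fdc1e511)) (.br (Nat.shiftLeft (nat_lit 0x7000007) (nat_lit 100)) (.one (nat_lit 0x700000600a00e00f000c0140fdc1e511)) (.one (nat_lit 0x700000700a00e00f000e0140fdc1e511))))) (.br (Nat.shiftLeft (nat_lit 0x8000005) (nat_lit 100)) (.br (Nat.shiftLeft (nat_lit 0x8000003) (nat_lit 100)) (.one (nat_lit 0x800000200a00e00f000401411e01e511)) (.br (Nat.shiftLeft (nat_lit 0x2000001) (nat_lit 102)) (.one (nat_lit 0x800000300a00e00f000601411e01e511)) (.one (nat_lit 0x800000400a00e00f000801411e01e511))))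 (.br (Nat.shiftLeft (nat_lit 0x4000003) (nat_lit 101)) (.one (nat_lit 0x800000500a00e00f000a01411e01e511)) (.br (Nat.shiftLeft (nat_lit 0x8000007) (nat_lit 100)) (.one (nat_lit 0x800000600a00e00f000c01411e01e511)) (.one (nat_lit 0x800000700a00e00f000e01411e01e511)))))) (.br (Nat.shiftLeft (nat_lit 0x9000007) (nat_lit 100)) (.br (Nat.shiftLeft (nat_lit 0x2400001) (nat_lit 102)) (.br (Nat.shiftLeft (nat_lit 0x9000003) (nat_lit 100)) (.one (nat_lit 0x900000200a00e00f000401413e41e511)) (.one (nat_lit 0x900000300a00e00f000601413e41e511))) (.br (Nat.shiftLeft (nat_lit 0x9000005) (nat_lit 100)) (.one (nat_lit 0x900000400a00e00f000801413e41e511)) (.br (Nat.shiftLeft (nat_lit 0x4800003) (nat_lit 101)) (.one (nat_lit 0x900000500a00e00f000a01413e41e511)) (.one (nat_lit 0x900000600a00e00f000c01413e41e511))))) (.br (Nat.shiftLeft (nat_lit 0x2800001) (nat_lit 102)) (.br (Nat.shiftLeft (nat_lit 0x5) (nat_lit 125)) (.one (nat_lit 0x900000700a00e00f000e01413e41e511)) (.br (Nat.shiftLeft (nat_lit 0xa000003)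 (nat_lit 100)) (.one (nat_lit 0xa00000200a00e00f000401415e81e511)) (.one (nat_lit 0xa00000300a00e00f000601415e81e511)))) (.br (Nat.shiftLeft (nat_lit 0xa000005) (nat_lit 100)) (.one (nat_lit 0xa00000400a00e00f000801415e81e511)) (.br (Nat.shiftLeft (nat_lit 0x5000003) (nat_lit 101)) (.one (nat_lit 0xa00000500a00e00f000a01415e81e511)) (.one (nat_lit 0xa00000600a00e00f000c01415e81e511)))))))
def t141 : k141.all (jb2 57 fl b0) = true := by decide +kernel
noncomputable def k142 : KT := (.br (Nat.shiftLeft (nat_lit 0x3000001) (nat_lit 102)) (.br (Nat.shiftLeft (nat_lit 0xb000005) (nat_lit 100)) (.br (Nat.shiftLeft (nat_lit 0xb000003) (nat_lit 100)) (.br (Nat.shiftLeft (nat_lit 0xb) (nat_lit 124)) (.one (nat_lit 0xa00000700a00e00f000e01415e81e511)) (.one (nat_lit 0xb00000200a00e00f000401417ec1e511))) (.br (Nat.shiftLeft (nat_lit 0x2c00001) (nat_lit 102)) (.one (nat_lit 0xb00000300a00e00f000601417ec1e511)) (.one (nat_lit 0xb00000400a00e00f000801417ec1e511)))) (.br (Nat.shiftLeft (nat_lit 0xb000007)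 (nat_lit 100)) (.br (Nat.shiftLeft (nat_lit 0x5800003) (nat_lit 101)) (.one (nat_lit 0xb00000500a00e00f000a01417ec1e511)) (.one (nat_lit 0xb00000600a00e00f000c01417ec1e511))) (.br (Nat.shiftLeft (nat_lit 0x3) (nat_lit 126)) (.one (nat_lit 0xb00000700a00e00f000e01417ec1e511)) (.br (Nat.shiftLeft (nat_lit 0xc000003) (nat_lit 100)) (.one (nat_lit 0xc00000200a00e00f000401419f01e511)) (.one (nat_lit 0xc00000300a00e00f000601419f01e511)))))) (.br (Nat.shiftLeft (nat_lit 0x3400001) (nat_lit 102)) (.br (Nat.shiftLeft (nat_lit 0x6000003) (nat_lit 101)) (.br (Nat.shiftLeft (nat_lit 0xc000005) (nat_lit 100)) (.one (nat_lit 0xc00000400a00e00f000801419f01e511)) (.one (nat_lit 0xc00000500a00e00f000a01419f01e511))) (.br (Nat.shiftLeft (nat_lit 0xd) (nat_lit 124)) (.one (nat_lit 0xc00000600a00e00f000c01419f01e511)) (.br (Nat.shiftLeft (nat_lit 0xd000003) (nat_lit 100)) (.one (nat_lit 0xd00000200a00e00f00040141bf41e511)) (.one (nat_lit 0xd00000300a00e00f00060141bf41e511))))) (.br (Nat.shiftLeft (nat_lit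 0x7) (nat_lit 125)) (.br (Nat.shiftLeft (nat_lit 0xd000005) (nat_lit 100)) (.one (nat_lit 0xd00000400a00e00f00080141bf41e511)) (.one (nat_lit 0xd00000500a00e00f000a0141bf41e511))) (.br (Nat.shiftLeft (nat_lit 0xe000003) (nat_lit 100)) (.one (nat_lit 0xe00000200a00e00f00040141df81e511)) (.br (Nat.shiftLeft (nat_lit 0x3800001) (nat_lit 102)) (.one (nat_lit 0xe00000300a00e00f00060141df81e511)) (.one (nat_lit 0xe00000400a00e00f00080141df81e511)))))))
def t142 : k142.all (jb2 57 fl b0) = true := by decide +kernel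
noncomputable def s7 : KT := (.br (nat_lit 0x200500a00e00f400a01401c01e650) (.br (nat_lit 0x100200a00e00f200401401c01e650) (.br (nat_lit 0x800a00e00f001001401c01e540) (.br (nat_lit 0x700a00e00f000e01401c01f500) k127 k128) (.br (nat_lit 0x100000a00e00f200001401c01e411) k129 k130)) (.br (nat_lit 0x100600a00e00f200c01401c01e650) (.br (nat_lit 0x100300a00e00f200601401c01e650) k131 k132) (.br (nat_lit 0x200300a00e00f400601401c01e650) k133 k134))) (.br (nat_lit 0x800000a00e00f000001401c120411) (.br (nat_lit 0x300500a00e00f600a01401c01e650) (.br (nat_lit 0x300000a00e00f600001401c01e411) k135 k136) (.br (nat_lit 0x400500a00e00f800a01401c01e650) k137 k138)) (.br (nat_lit 0x700000200a00e00f00040140fdc1e511) (.br (nat_lit 0x500000300a00e00f00060140bd41e511) k139 k140) (.br (nat_lit 0xa00000600a00e00f000c01415e81e511) k141 k142))))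
noncomputable def u7 : KT := (.one (nat_lit 0xa00e00f000001401c01e430))
def w7 : u7.all (wj 57 s7) = true := by decide +kernel
def o7 : OkW 57 (jb2 57 fl) u7 := .lift s7 _ (.br _ _ _ (.br _ _ _ (.br _ _ _ (.br _ _ _ (.leaf b0 k127 t127) (.leaf b0 k128 t128)) (.br _ _ _ (.leaf b0 k129 t129) (.leaf b0 k130 t130))) (.br _ _ _ (.br _ _ _ (.leaf b0 k131 t131) (.leaf b0 k132 t132)) (.br _ _ _ (.leaf b0 k133 t133) (.leaf b0 k134 t134)))) (.br _ _ _ (.br _ _ _ (.br _ _ _ (.leaf b0 k135 t135) (.leaf b0 k136 t136)) (.br _ _ _ (.leaf b0 k137 t137) (.leaf b0 k138 t138))) (.br _ _ _ (.br _ _ _ (.leaf b0 k139 t139) (.leaf b0 k140 t140)) (.br _ _ _ (.leaf b0 k141 t141) (.leaf b0 k142 t142))))) w7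
noncomputable def k143 : KT := (.br (Nat.shiftLeft (nat_lit 0xa00e011) (nat_lit 64)) (.one (nat_lit 0xa00e010000001401c021400)) (.br (Nat.shiftLeft (nat_lit 0x1) (nat_lit 100)) (.one (nat_lit 0xa00e011000001401c023400)) (.one (nat_lit 0x100a00e010000201401c020540))))
def t143 : k143.all (jb2 57 fl b0) = true := by decide +kernel
noncomputable def k144 : KT := (.br (Nat.shiftLeft (nat_lit 0x1) (nat_lit 101)) (.one (nat_lit 0x100a00e011000201401c022540)) (.one (nat_lit 0x200a00e010000401401c021500)))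
def t144 : k144.all (jb2 57 fl b0) = true := by decide +kernel
noncomputable def k145 : KT := (.br (Nat.shiftLeft (nat_lit 0x1) (nat_lit 102)) (.br (Nat.shiftLeft (nat_lit 0x3) (nat_lit 100)) (.one (nat_lit 0x200a00e011000401401c022540)) (.br (Nat.shiftLeft (nat_lit 0x300a00e011) (nat_lit 64)) (.one (nat_lit 0x300a00e010000601401c021500)) (.one (nat_lit 0x300a00e011000601401c023500)))) (.br (Nat.shiftLeft (nat_lit 0x400a00e011) (nat_lit 64)) (.one (nat_lit 0x400a00e010000801401c021500)) (.br (Nat.shiftLeft (nat_lit 0x5) (nat_lit 100)) (.one (nat_lit 0x400a00e011000801401c023500)) (.one (nat_lit 0x500a00e010000a01401c021500)))))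
def t145 : k145.all (jb2 57 fl b0) = true := by decide +kernel
noncomputable def k146 : KT := (.br (Nat.shiftLeft (nat_lit 0x3) (nat_lit 101)) (.one (nat_lit 0x500a00e011000a01401c022540)) (.one (nat_lit 0x600a00e010000c01401c021500)))
def t146 : k146.all (jb2 57 fl b0) = true := by decide +kernel
noncomputable def k147 : KT := (.one (nat_lit 0x600a00e011000c01401c022540))
def t147 : k147.all (jb2 57 fl b0) = true := by decide +kernel
noncomputable def k148 : KT := (.one (nat_lit 0x700a00e010000e01401c020540))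
def t148 : k148.all (jb2 57 fl b0) = true := by decide +kernel
noncomputable def k149 : KT := (.br (Nat.shiftLeft (nat_lit 0x1) (nat_lit 103)) (.one (nat_lit 0x700a00e011000e01401c022540)) (.one (nat_lit 0x800a00e010001001401c020540)))
def t149 : k149.all (jb2 57 fl b0) = true := by decide +kernel
noncomputable def k150 : KT := (.br (Nat.shiftLeft (nat_lit 0x900a00e011) (nat_lit 64)) (.br (Nat.shiftLeft (nat_lit 0x9) (nat_lit 100)) (.one (nat_lit 0x800a00e011001001401c022540)) (.one (nat_lit 0x900a00e010001201401c020540))) (.br (Nat.shiftLeft (nat_lit 0x1) (nat_lit 112)) (.one (nat_lit 0x900a00e011001201401c022540)) (.br (Nat.shiftLeft (nat_lit 0x100000a00e011) (nat_lit 64)) (.one (nat_lit 0x100000a00e010200001401c020411)) (.one (nat_lit 0x100000a00e011200001401c022411)))))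
def t150 : k150.all (jb2 57 fl b0) = true := by decide +kernel
noncomputable def k151 : KT := (.br (Nat.shiftLeft (nat_lit 0x1003) (nat_lit 100)) (.one (nat_lit 0x100200a00e010200401401c020650)) (.one (nat_lit 0x100300a00e010200601401c020650)))
def t151 : k151.all (jb2 57 fl b0) = true := by decide +kernel
noncomputable def k152 : KT := (.br (Nat.shiftLeft (nat_lit 0x401) (nat_lit 102)) (.one (nat_lit 0x100300a00e011200601401c022650)) (.br (Nat.shiftLeft (nat_lit 0x100400a00e011) (nat_lit 64)) (.one (nat_lit 0x100400a00e010200801401c020650)) (.one (nat_lit 0x100400a00e011200801401c022650))))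
def t152 : k152.all (jb2 57 fl b0) = true := by decide +kernel
noncomputable def k153 : KT := (.br (Nat.shiftLeft (nat_lit 0x1) (nat_lit 113)) (.br (Nat.shiftLeft (nat_lit 0x803) (nat_lit 101)) (.one (nat_lit 0x100500a00e010200a01401c020650)) (.one (nat_lit 0x100600a00e010200c01401c020650))) (.br (Nat.shiftLeft (nat_lit 0x200000a00e011) (nat_lit 64)) (.one (nat_lit 0x200000a00e010400001401c020411)) (.br (Nat.shiftLeft (nat_lit 0x1001) (nat_lit 101)) (.one (nat_lit 0x200000a00e011400001401c022411)) (.one (nat_lit 0x200300a00e010400601401c020650)))))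
def t153 : k153.all (jb2 57 fl b0) = true := by decide +kernel
noncomputable def k154 : KT := (.br (Nat.shiftLeft (nat_lit 0x801) (nat_lit 102)) (.one (nat_lit 0x200300a00e011400601401c022650)) (.one (nat_lit 0x200400a00e010400801401c020650)))
def t154 : k154.all (jb2 57 fl b0) = true := by decide +kernel
noncomputable def k155 : KT := (.br (Nat.shiftLeft (nat_lit 0x1003) (nat_lit 101)) (.br (Nat.shiftLeft (nat_lit 0x2005) (nat_lit 100)) (.one (nat_lit 0x200400a00e011400801401c022650)) (.one (nat_lit 0x200500a00e010400a01401c020650))) (.br (Nat.shiftLeft (nat_lit 0x3) (nat_lit 112)) (.one (nat_lit 0x200600a00e010400c01401c020650)) (.br (Nat.shiftLeft (nat_lit 0x300000a00e011) (nat_lit 64)) (.one (nat_lit 0x300000a00e010600001401c020411)) (.one (nat_lit 0x300000a00e011600001401c022411)))))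
def t155 : k155.all (jb2 57 fl b0) = true := by decide +kernel
noncomputable def k156 : KT := (.br (Nat.shiftLeft (nat_lit 0x300400a00e011) (nat_lit 64)) (.one (nat_lit 0x300400a00e010600801401c020650)) (.br (Nat.shiftLeft (nat_lit 0x3005) (nat_lit 100)) (.one (nat_lit 0x300400a00e011600801401c022650)) (.one (nat_lit 0x300500a00e010600a01401c020650))))
def t156 : k156.all (jb2 57 fl b0) = true := by decide +kernel
noncomputable def k157 : KT := (.br (Nat.shiftLeft (nat_lit 0x500000a00e011) (nat_lit 64)) (.br (Nat.shiftLeft (nat_lit 0x1001) (nat_lit 102)) (.br (Nat.shiftLeft (nat_lit 0x1) (nat_lit 114)) (.one (nat_lit 0x300600a00e010600c01401c020650)) (.br (Nat.shiftLeft (nat_lit 0x400000a00e011) (nat_lit 64)) (.one (nat_lit 0x400000a00e010800001401c020411)) (.one (nat_lit 0x400000a00e011800001401c022411)))) (.br (Nat.shiftLeft (nat_lit 0x2003) (nat_lit 101)) (.one (nat_lit 0x400500a00e010800a01401c020650)) (.br (Nat.shiftLeft (nat_lit 0x5) (nat_lit 112)) (.one (nat_lit 0x400600a00e010800c01401c020650))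 (.one (nat_lit 0x500000a00e010a00001401c020411))))) (.br (Nat.shiftLeft (nat_lit 0x600000a00e011) (nat_lit 64)) (.br (Nat.shiftLeft (nat_lit 0x1401) (nat_lit 102)) (.one (nat_lit 0x500000a00e011a00001401c022411)) (.br (Nat.shiftLeft (nat_lit 0x3) (nat_lit 113)) (.one (nat_lit 0x500600a00e010a00c01401c020650)) (.one (nat_lit 0x600000a00e010c00001401c020411)))) (.br (Nat.shiftLeft (nat_lit 0x7) (nat_lit 112)) (.one (nat_lit 0x600000a00e011c00001401c022411)) (.br (Nat.shiftLeft (nat_lit 0x700000a00e011) (nat_lit 64)) (.one (nat_lit 0x700000a00e010e00001401c020411)) (.one (nat_lit 0x700000a00e011e00001401c022411))))))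
def t157 : k157.all (jb2 57 fl b0) = true := by decide +kernel
noncomputable def k158 : KT := (.br (Nat.shiftLeft (nat_lit 0x800003) (nat_lit 101)) (.br (Nat.shiftLeft (nat_lit 0xd) (nat_lit 112)) (.br (Nat.shiftLeft (nat_lit 0xa00000a00e011) (nat_lit 64)) (.br (Nat.shiftLeft (nat_lit 0x9) (nat_lit 112)) (.br (Nat.shiftLeft (nat_lit 0x800000a00e011) (nat_lit 64)) (.one (nat_lit 0x800000a00e010000001401c122411)) (.one (nat_lit 0x800000a00e011000001401c124411))) (.br (Nat.shiftLeft (nat_lit 0x900000a00e011) (nat_lit 64)) (.one (nat_lit 0x900000a00e010200001401c122411)) (.br (Nat.shiftLeft (nat_lit 0x5) (nat_lit 113)) (.one (nat_lit 0x900000a00e011200001401c124411)) (.one (nat_lit 0xa00000a00e010400001401c122411))))) (.br (Nat.shiftLeft (nat_lit 0xb00000a00e011) (nat_lit 64)) (.br (Nat.shiftLeft (nat_lit 0xb) (nat_lit 112)) (.one (nat_lit 0xa00000a00e011400001401c124411)) (.one (nat_lit 0xb00000a00e010600001401c122411))) (.br (Nat.shiftLeft (nat_lit 0x3) (nat_lit 114)) (.one (nat_lit 0xb00000a00e011600001401c124411))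 (.br (Nat.shiftLeft (nat_lit 0xc00000a00e011) (nat_lit 64)) (.one (nat_lit 0xc00000a00e010800001401c122411)) (.one (nat_lit 0xc00000a00e011800001401c124411)))))) (.br (Nat.shiftLeft (nat_lit 0x1000003) (nat_lit 100)) (.br (Nat.shiftLeft (nat_lit 0x7) (nat_lit 113)) (.br (Nat.shiftLeft (nat_lit 0xd00000a00e011) (nat_lit 64)) (.one (nat_lit 0xd00000a00e010a00001401c122411)) (.one (nat_lit 0xd00000a00e011a00001401c124411))) (.br (Nat.shiftLeft (nat_lit 0xe00000a00e011) (nat_lit 64)) (.one (nat_lit 0xe00000a00e010c00001401c122411)) (.br (Nat.shiftLeft (nat_lit 0x1) (nat_lit 124)) (.one (nat_lit 0xe00000a00e011c00001401c124411)) (.one (nat_lit 0x100000200a00e010000401403c420511))))) (.br (Nat.shiftLeft (nat_lit 0x400001) (nat_lit 102)) (.br (Nat.shiftLeft (nat_lit 0x100000300a00e011) (nat_lit 64)) (.one (nat_lit 0x100000300a00e010000601403c420511)) (.one (nat_lit 0x100000300a00e011000601403c422511))) (.br (Nat.shiftLeft (nat_lit 0x100000400a00e011) (nat_lit 64)) (.one (nat_lit 0x100000400a00e010000801403c420511))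 (.br (Nat.shiftLeft (nat_lit 0x1000005) (nat_lit 100)) (.one (nat_lit 0x100000400a00e011000801403c422511)) (.one (nat_lit 0x100000500a00e010000a01403c420511))))))) (.br (Nat.shiftLeft (nat_lit 0x300000300a00e011) (nat_lit 64)) (.br (Nat.shiftLeft (nat_lit 0x200000400a00e011) (nat_lit 64)) (.br (Nat.shiftLeft (nat_lit 0x2000003) (nat_lit 100)) (.br (Nat.shiftLeft (nat_lit 0x1) (nat_lit 125)) (.one (nat_lit 0x100000600a00e010000c01403c420511)) (.one (nat_lit 0x200000200a00e010000401405c820511))) (.br (Nat.shiftLeft (nat_lit 0x200000300a00e011) (nat_lit 64)) (.one (nat_lit 0x200000300a00e010000601405c820511)) (.br (Nat.shiftLeft (nat_lit 0x800001) (nat_lit 102)) (.one (nat_lit 0x200000300a00e011000601405c822511)) (.one (nat_lit 0x200000400a00e010000801405c820511))))) (.br (Nat.shiftLeft (nat_lit 0x1000003) (nat_lit 101)) (.br (Nat.shiftLeft (nat_lit 0x2000005) (nat_lit 100)) (.one (nat_lit 0x200000400a00e011000801405c822511)) (.one (nat_lit 0x200000500a00e010000a01405c820511))) (.br (Nat.shiftLeft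 (nat_lit 0x3) (nat_lit 124)) (.one (nat_lit 0x200000600a00e010000c01405c820511)) (.br (Nat.shiftLeft (nat_lit 0x3000003) (nat_lit 100)) (.one (nat_lit 0x300000200a00e010000401407cc20511)) (.one (nat_lit 0x300000300a00e010000601407cc20511)))))) (.br (Nat.shiftLeft (nat_lit 0x1) (nat_lit 126)) (.br (Nat.shiftLeft (nat_lit 0x300000400a00e011) (nat_lit 64)) (.br (Nat.shiftLeft (nat_lit 0xc00001) (nat_lit 102)) (.one (nat_lit 0x300000300a00e011000601407cc22511)) (.one (nat_lit 0x300000400a00e010000801407cc20511))) (.br (Nat.shiftLeft (nat_lit 0x3000005) (nat_lit 100)) (.one (nat_lit 0x300000400a00e011000801407cc22511)) (.br (Nat.shiftLeft (nat_lit 0x1800003) (nat_lit 101)) (.one (nat_lit 0x300000500a00e010000a01407cc20511)) (.one (nat_lit 0x300000600a00e010000c01407cc20511))))) (.br (Nat.shiftLeft (nat_lit 0x400000300a00e011) (nat_lit 64)) (.br (Nat.shiftLeft (nat_lit 0x4000003) (nat_lit 100)) (.one (nat_lit 0x400000200a00e010000401409d020511)) (.one (nat_lit 0x400000300a00e010000601409d020511)))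 (.br (Nat.shiftLeft (nat_lit 0x1000001) (nat_lit 102)) (.one (nat_lit 0x400000300a00e011000601409d022511)) (.br (Nat.shiftLeft (nat_lit 0x400000400a00e011) (nat_lit 64)) (.one (nat_lit 0x400000400a00e010000801409d020511)) (.one (nat_lit 0x400000400a00e011000801409d022511))))))))
def t158 : k158.all (jb2 57 fl b0) = true := by decide +kernel
noncomputable def k159 : KT := (.br (Nat.shiftLeft (nat_lit 0x500000400a00e011) (nat_lit 64)) (.br (Nat.shiftLeft (nat_lit 0x5000003) (nat_lit 100)) (.br (Nat.shiftLeft (nat_lit 0x2000003) (nat_lit 101)) (.one (nat_lit 0x400000500a00e010000a01409d020511)) (.br (Nat.shiftLeft (nat_lit 0x5) (nat_lit 124)) (.one (nat_lit 0x400000600a00e010000c01409d020511)) (.one (nat_lit 0x500000200a00e01000040140bd420511)))) (.br (Nat.shiftLeft (nat_lit 0x500000300a00e011) (nat_lit 64)) (.one (nat_lit 0x500000300a00e01000060140bd420511)) (.br (Nat.shiftLeft (nat_lit 0x1400001) (nat_lit 102)) (.one (nat_lit 0x500000300a00e01100060140bd422511)) (.one (nat_lit 0x500000400a00e01000080140bd420511)))))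 (.br (Nat.shiftLeft (nat_lit 0x3) (nat_lit 125)) (.br (Nat.shiftLeft (nat_lit 0x5000005) (nat_lit 100)) (.one (nat_lit 0x500000400a00e01100080140bd422511)) (.br (Nat.shiftLeft (nat_lit 0x2800003) (nat_lit 101)) (.one (nat_lit 0x500000500a00e010000a0140bd420511)) (.one (nat_lit 0x500000600a00e010000c0140bd420511)))) (.br (Nat.shiftLeft (nat_lit 0x6000003) (nat_lit 100)) (.one (nat_lit 0x600000200a00e01000040140dd820511)) (.br (Nat.shiftLeft (nat_lit 0x600000300a00e011) (nat_lit 64)) (.one (nat_lit 0x600000300a00e01000060140dd820511)) (.one (nat_lit 0x600000300a00e01100060140dd822511))))))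
def t159 : k159.all (jb2 57 fl b0) = true := by decide +kernel
noncomputable def k160 : KT := (.br (Nat.shiftLeft (nat_lit 0x3800003) (nat_lit 101)) (.br (Nat.shiftLeft (nat_lit 0x7000003) (nat_lit 100)) (.br (Nat.shiftLeft (nat_lit 0x6000005) (nat_lit 100)) (.br (Nat.shiftLeft (nat_lit 0x600000400a00e011) (nat_lit 64)) (.one (nat_lit 0x600000400a00e01000080140dd820511)) (.one (nat_lit 0x600000400a00e01100080140dd822511))) (.br (Nat.shiftLeft (nat_lit 0x3000003) (nat_lit 101)) (.one (nat_lit 0x600000500a00e010000a0140dd820511)) (.br (Nat.shiftLeft (nat_lit 0x7) (nat_lit 124)) (.one (nat_lit 0x600000600a00e010000c0140dd820511)) (.one (nat_lit 0x700000200a00e01000040140fdc20511))))) (.br (Nat.shiftLeft (nat_lit 0x1c00001) (nat_lit 102)) (.br (Nat.shiftLeft (nat_lit 0x700000300a00e011) (nat_lit 64)) (.one (nat_lit 0x700000300a00e01000060140fdc20511)) (.one (nat_lit 0x700000300a00e01100060140fdc22511))) (.br (Nat.shiftLeft (nat_lit 0x700000400a00e011) (nat_lit 64)) (.one (nat_lit 0x700000400a00e01000080140fdc20511))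 (.br (Nat.shiftLeft (nat_lit 0x7000005) (nat_lit 100)) (.one (nat_lit 0x700000400a00e01100080140fdc22511)) (.one (nat_lit 0x700000500a00e010000a0140fdc20511)))))) (.br (Nat.shiftLeft (nat_lit 0x800000400a00e011) (nat_lit 64)) (.br (Nat.shiftLeft (nat_lit 0x8000003) (nat_lit 100)) (.br (Nat.shiftLeft (nat_lit 0x1) (nat_lit 127)) (.one (nat_lit 0x700000600a00e010000c0140fdc20511)) (.one (nat_lit 0x800000200a00e010000401411e020511))) (.br (Nat.shiftLeft (nat_lit 0x800000300a00e011) (nat_lit 64)) (.one (nat_lit 0x800000300a00e010000601411e020511)) (.br (Nat.shiftLeft (nat_lit 0x2000001) (nat_lit 102)) (.one (nat_lit 0x800000300a00e011000601411e022511)) (.one (nat_lit 0x800000400a00e010000801411e020511))))) (.br (Nat.shiftLeft (nat_lit 0x4000003) (nat_lit 101)) (.br (Nat.shiftLeft (nat_lit 0x8000005) (nat_lit 100)) (.one (nat_lit 0x800000400a00e011000801411e022511)) (.one (nat_lit 0x800000500a00e010000a01411e020511))) (.br (Nat.shiftLeft (nat_lit 0x9) (nat_lit 124)) (.one (nat_lit 0x800000600a00e010000c01411e020511))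 (.br (Nat.shiftLeft (nat_lit 0x9000003) (nat_lit 100)) (.one (nat_lit 0x900000200a00e010000401413e420511)) (.one (nat_lit 0x900000300a00e010000601413e420511)))))))
def t160 : k160.all (jb2 57 fl b0) = true := by decide +kernel
noncomputable def k161 : KT := (.br (Nat.shiftLeft (nat_lit 0x2c00001) (nat_lit 102)) (.br (Nat.shiftLeft (nat_lit 0xa00000300a00e011) (nat_lit 64)) (.br (Nat.shiftLeft (nat_lit 0x9000005) (nat_lit 100)) (.br (Nat.shiftLeft (nat_lit 0x2400001) (nat_lit 102)) (.one (nat_lit 0x900000300a00e011000601413e422511)) (.br (Nat.shiftLeft (nat_lit 0x900000400a00e011) (nat_lit 64)) (.one (nat_lit 0x900000400a00e010000801413e420511)) (.one (nat_lit 0x900000400a00e011000801413e422511)))) (.br (Nat.shiftLeft (nat_lit 0x5) (nat_lit 125)) (.br (Nat.shiftLeft (nat_lit 0x4800003) (nat_lit 101)) (.one (nat_lit 0x900000500a00e010000a01413e420511)) (.one (nat_lit 0x900000600a00e010000c01413e420511))) (.br (Nat.shiftLeft (nat_lit 0xa000003) (nat_lit 100)) (.one (nat_lit 0xa00000200a00e010000401415e820511))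 (.one (nat_lit 0xa00000300a00e010000601415e820511))))) (.br (Nat.shiftLeft (nat_lit 0x5000003) (nat_lit 101)) (.br (Nat.shiftLeft (nat_lit 0xa00000400a00e011) (nat_lit 64)) (.br (Nat.shiftLeft (nat_lit 0x2800001) (nat_lit 102)) (.one (nat_lit 0xa00000300a00e011000601415e822511)) (.one (nat_lit 0xa00000400a00e010000801415e820511))) (.br (Nat.shiftLeft (nat_lit 0xa000005) (nat_lit 100)) (.one (nat_lit 0xa00000400a00e011000801415e822511)) (.one (nat_lit 0xa00000500a00e010000a01415e820511)))) (.br (Nat.shiftLeft (nat_lit 0xb000003) (nat_lit 100)) (.br (Nat.shiftLeft (nat_lit 0xb) (nat_lit 124)) (.one (nat_lit 0xa00000600a00e010000c01415e820511)) (.one (nat_lit 0xb00000200a00e010000401417ec20511))) (.br (Nat.shiftLeft (nat_lit 0xb00000300a00e011) (nat_lit 64)) (.one (nat_lit 0xb00000300a00e010000601417ec20511)) (.one (nat_lit 0xb00000300a00e011000601417ec22511)))))) (.br (Nat.shiftLeft (nat_lit 0xc00000400a00e011) (nat_lit 64)) (.br (Nat.shiftLeft (nat_lit 0x3) (nat_lit 126)) (.br (Nat.shiftLeft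 (nat_lit 0xb000005) (nat_lit 100)) (.br (Nat.shiftLeft (nat_lit 0xb00000400a00e011) (nat_lit 64)) (.one (nat_lit 0xb00000400a00e010000801417ec20511)) (.one (nat_lit 0xb00000400a00e011000801417ec22511))) (.br (Nat.shiftLeft (nat_lit 0x5800003) (nat_lit 101)) (.one (nat_lit 0xb00000500a00e010000a01417ec20511)) (.one (nat_lit 0xb00000600a00e010000c01417ec20511)))) (.br (Nat.shiftLeft (nat_lit 0xc00000300a00e011) (nat_lit 64)) (.br (Nat.shiftLeft (nat_lit 0xc000003) (nat_lit 100)) (.one (nat_lit 0xc00000200a00e010000401419f020511)) (.one (nat_lit 0xc00000300a00e010000601419f020511))) (.br (Nat.shiftLeft (nat_lit 0x3000001) (nat_lit 102)) (.one (nat_lit 0xc00000300a00e011000601419f022511)) (.one (nat_lit 0xc00000400a00e010000801419f020511))))) (.br (Nat.shiftLeft (nat_lit 0xd00000300a00e011) (nat_lit 64)) (.br (Nat.shiftLeft (nat_lit 0xd) (nat_lit 124)) (.br (Nat.shiftLeft (nat_lit 0xc000005) (nat_lit 100)) (.one (nat_lit 0xc00000400a00e011000801419f022511)) (.one (nat_lit 0xc00000500a00e010000a01419f020511)))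 (.br (Nat.shiftLeft (nat_lit 0xd000003) (nat_lit 100)) (.one (nat_lit 0xd00000200a00e01000040141bf420511)) (.one (nat_lit 0xd00000300a00e01000060141bf420511)))) (.br (Nat.shiftLeft (nat_lit 0x7) (nat_lit 125)) (.br (Nat.shiftLeft (nat_lit 0x3400001) (nat_lit 102)) (.one (nat_lit 0xd00000300a00e01100060141bf422511)) (.one (nat_lit 0xd00000400a00e01000080141bf420511))) (.br (Nat.shiftLeft (nat_lit 0xe000003) (nat_lit 100)) (.one (nat_lit 0xe00000200a00e01000040141df820511)) (.one (nat_lit 0xe00000300a00e01000060141df820511)))))))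
def t161 : k161.all (jb2 57 fl b0) = true := by decide +kernel
noncomputable def s8 : KT := (.br (nat_lit 0x100300a00e010200601401c020650) (.br (nat_lit 0x600a00e010000c01401c021500) (.br (nat_lit 0x200a00e010000401401c021500) (.br (nat_lit 0x100a00e010000201401c020540) k143 k144) (.br (nat_lit 0x500a00e010000a01401c021500) k145 k146)) (.br (nat_lit 0x700a00e010000e01401c020540) (.br (nat_lit 0x600a00e011000c01401c022540) k147 k148) (.br (nat_lit 0x800a00e010001001401c020540) k149 (.br (nat_lit 0x100000a00e011200001401c022411) k150 k151)))) (.br (nat_lit 0x300500a00e010600a01401c020650) (.br (nat_lit 0x200300a00e010400601401c020650) (.br (nat_lit 0x100400a00e011200801401c022650) k152 k153) (.br (nat_lit 0x200400a00e010400801401c020650) k154 (.br (nat_lit 0x300000a00e011600001401c022411) k155 k156))) (.br (nat_lit 0x400000400a00e011000801409d022511) (.br (nat_lit 0x700000a00e011e00001401c022411) k157 k158) (.br (nat_lit 0x600000300a00e01100060140dd822511) k159 (.br (nat_lit 0x900000300a00e010000601413e420511)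 k160 k161)))))
noncomputable def u8 : KT := (.br (Nat.shiftLeft (nat_lit 0xa00e011) (nat_lit 64)) (.one (nat_lit 0xa00e010000001401c020430)) (.one (nat_lit 0xa00e011000001401c022430)))
def w8 : u8.all (wj 57 s8) = true := by decide +kernel
def o8 : OkW 57 (jb2 57 fl) u8 := .lift s8 _ (.br _ _ _ (.br _ _ _ (.br _ _ _ (.br _ _ _ (.leaf b0 k143 t143) (.leaf b0 k144 t144)) (.br _ _ _ (.leaf b0 k145 t145) (.leaf b0 k146 t146))) (.br _ _ _ (.br _ _ _ (.leaf b0 k147 t147) (.leaf b0 k148 t148)) (.br _ _ _ (.leaf b0 k149 t149) (.br _ _ _ (.leaf b0 k150 t150) (.leaf b0 k151 t151))))) (.br _ _ _ (.br _ _ _ (.br _ _ _ (.leaf b0 k152 t152) (.leaf b0 k153 t153)) (.br _ _ _ (.leaf b0 k154 t154) (.br _ _ _ (.leaf b0 k155 t155) (.leaf b0 k156 t156)))) (.br _ _ _ (.br _ _ _ (.leaf b0 k157 t157) (.leaf b0 k158 t158)) (.br _ _ _ (.leaf b0 k159 t159) (.br _ _ _ (.leaf b0 k160 t160) (.leaf b0 k161 t161)))))) w8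
noncomputable def k162 : KT := (.br (Nat.shiftLeft (nat_lit 0x500700b) (nat_lit 65)) (.br (Nat.shiftLeft (nat_lit 0x2803805) (nat_lit 66)) (.br (Nat.shiftLeft (nat_lit 0xa00e013) (nat_lit 64)) (.one (nat_lit 0xa00e012000001401c025400)) (.one (nat_lit 0xa00e013000001401c027400))) (.br (Nat.shiftLeft (nat_lit 0xa00e015) (nat_lit 64)) (.one (nat_lit 0xa00e014000001401c029400)) (.one (nat_lit 0xa00e015000001401c02b400)))) (.br (Nat.shiftLeft (nat_lit 0x1) (nat_lit 100)) (.br (Nat.shiftLeft (nat_lit 0xa00f) (nat_lit 76)) (.one (nat_lit 0xa00e016000001401c02d400)) (.one (nat_lit 0xa00f010000001401e021400))) (.br (Nat.shiftLeft (nat_lit 0x100a00e013) (nat_lit 64)) (.one (nat_lit 0x100a00e012000201401c024540)) (.one (nat_lit 0x100a00e013000201401c026540)))))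
def t162 : k162.all (jb2 57 fl b0) = true := by decide +kernel
noncomputable def k163 : KT := (.br (Nat.shiftLeft (nat_lit 0x100a00e015) (nat_lit 64)) (.one (nat_lit 0x100a00e014000201401c028540)) (.br (Nat.shiftLeft (nat_lit 0x80500700b) (nat_lit 65)) (.one (nat_lit 0x100a00e015000201401c02a540)) (.one (nat_lit 0x100a00e016000201401c02c540))))
def t163 : k163.all (jb2 57 fl b0) = true := by decide +kernel
noncomputable def k164 : KT := (.one (nat_lit 0x100a00f010000201401e020540))
def t164 : k164.all (jb2 57 fl b0) = true := by decide +kernel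
noncomputable def k165 : KT := (.one (nat_lit 0x200a00e012000401401c024540))
def t165 : k165.all (jb2 57 fl b0) = true := by decide +kernel
noncomputable def k166 : KT := (.br (Nat.shiftLeft (nat_lit 0x802803805) (nat_lit 66)) (.one (nat_lit 0x200a00e013000401401c026540)) (.one (nat_lit 0x200a00e014000401401c028540)))
def t166 : k166.all (jb2 57 fl b0) = true := by decide +kernel
noncomputable def k167 : KT := (.br (Nat.shiftLeft (nat_lit 0x100500700b) (nat_lit 65)) (.one (nat_lit 0x200a00e015000401401c02a540)) (.one (nat_lit 0x200a00e016000401401c02c540)))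
def t167 : k167.all (jb2 57 fl b0) = true := by decide +kernel
noncomputable def k168 : KT := (.one (nat_lit 0x200a00f010000401401e020540))
def t168 : k168.all (jb2 57 fl b0) = true := by decide +kernel
noncomputable def k169 : KT := (.one (nat_lit 0x300a00e012000601401c024540))
def t169 : k169.all (jb2 57 fl b0) = true := by decide +kernel
noncomputable def k170 : KT := (.br (Nat.shiftLeft (nat_lit 0xc02803805) (nat_lit 66)) (.one (nat_lit 0x300a00e013000601401c026540)) (.one (nat_lit 0x300a00e014000601401c028540)))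
def t170 : k170.all (jb2 57 fl b0) = true := by decide +kernel
noncomputable def k171 : KT := (.br (Nat.shiftLeft (nat_lit 0x180500700b) (nat_lit 65)) (.one (nat_lit 0x300a00e015000601401c02a540)) (.br (Nat.shiftLeft (nat_lit 0x300a00f) (nat_lit 76)) (.one (nat_lit 0x300a00e016000601401c02c540)) (.one (nat_lit 0x300a00f010000601401e021500))))
def t171 : k171.all (jb2 57 fl b0) = true := by decide +kernel
noncomputable def k172 : KT := (.one (nat_lit 0x400a00e012000801401c024540))
def t172 : k172.all (jb2 57 fl b0) = true := by decide +kernel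
noncomputable def k173 : KT := (.br (Nat.shiftLeft (nat_lit 0x1002803805) (nat_lit 66)) (.one (nat_lit 0x400a00e013000801401c026540)) (.one (nat_lit 0x400a00e014000801401c028540)))
def t173 : k173.all (jb2 57 fl b0) = true := by decide +kernel
noncomputable def k174 : KT := (.br (Nat.shiftLeft (nat_lit 0x200500700b) (nat_lit 65)) (.one (nat_lit 0x400a00e015000801401c02a540)) (.br (Nat.shiftLeft (nat_lit 0x400a00f) (nat_lit 76)) (.one (nat_lit 0x400a00e016000801401c02c540)) (.one (nat_lit 0x400a00f010000801401e021500))))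
def t174 : k174.all (jb2 57 fl b0) = true := by decide +kernel
noncomputable def k175 : KT := (.one (nat_lit 0x500a00e012000a01401c024540))
def t175 : k175.all (jb2 57 fl b0) = true := by decide +kernel
noncomputable def k176 : KT := (.br (Nat.shiftLeft (nat_lit 0x1402803805) (nat_lit 66)) (.one (nat_lit 0x500a00e013000a01401c026540)) (.br (Nat.shiftLeft (nat_lit 0x500a00e015) (nat_lit 64)) (.one (nat_lit 0x500a00e014000a01401c028540)) (.one (nat_lit 0x500a00e015000a01401c02a540))))
def t176 : k176.all (jb2 57 fl b0) = true := by decide +kernel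
noncomputable def k177 : KT := (.one (nat_lit 0x500a00e016000a01401c02c540))
def t177 : k177.all (jb2 57 fl b0) = true := by decide +kernel
noncomputable def k178 : KT := (.one (nat_lit 0x500a00f010000a01401e020540))
def t178 : k178.all (jb2 57 fl b0) = true := by decide +kernel
noncomputable def k179 : KT := (.br (Nat.shiftLeft (nat_lit 0x600a00e013) (nat_lit 64)) (.one (nat_lit 0x600a00e012000c01401c024540)) (.br (Nat.shiftLeft (nat_lit 0x1802803805) (nat_lit 66)) (.one (nat_lit 0x600a00e013000c01401c026540)) (.one (nat_lit 0x600a00e014000c01401c028540))))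
def t179 : k179.all (jb2 57 fl b0) = true := by decide +kernel
noncomputable def k180 : KT := (.br (Nat.shiftLeft (nat_lit 0x300500700b) (nat_lit 65)) (.one (nat_lit 0x600a00e015000c01401c02a540)) (.br (Nat.shiftLeft (nat_lit 0x600a00f) (nat_lit 76)) (.one (nat_lit 0x600a00e016000c01401c02c540)) (.one (nat_lit 0x600a00f010000c01401e020540))))
def t180 : k180.all (jb2 57 fl b0) = true := by decide +kernel
noncomputable def k181 : KT := (.br (Nat.shiftLeft (nat_lit 0x1c02803805) (nat_lit 66)) (.br (Nat.shiftLeft (nat_lit 0x700a00e013) (nat_lit 64)) (.one (nat_lit 0x700a00e012000e01401c024540)) (.one (nat_lit 0x700a00e013000e01401c026540))) (.br (Nat.shiftLeft (nat_lit 0x700a00e015) (nat_lit 64)) (.one (nat_lit 0x700a00e014000e01401c028540)) (.br (Nat.shiftLeft (nat_lit 0x380500700b) (nat_lit 65)) (.one (nat_lit 0x700a00e015000e01401c02a540)) (.one (nat_lit 0x700a00e016000e01401c02c540)))))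
def t181 : k181.all (jb2 57 fl b0) = true := by decide +kernel
noncomputable def k182 : KT := (.br (Nat.shiftLeft (nat_lit 0x2002803805) (nat_lit 66)) (.br (Nat.shiftLeft (nat_lit 0x1) (nat_lit 103)) (.one (nat_lit 0x700a00f010000e01401e020540)) (.br (Nat.shiftLeft (nat_lit 0x800a00e013) (nat_lit 64)) (.one (nat_lit 0x800a00e012001001401c024540)) (.one (nat_lit 0x800a00e013001001401c026540)))) (.br (Nat.shiftLeft (nat_lit 0x800a00e015) (nat_lit 64)) (.one (nat_lit 0x800a00e014001001401c028540)) (.br (Nat.shiftLeft (nat_lit 0x400500700b) (nat_lit 65)) (.one (nat_lit 0x800a00e015001001401c02a540)) (.one (nat_lit 0x800a00e016001001401c02c540)))))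
def t182 : k182.all (jb2 57 fl b0) = true := by decide +kernel
noncomputable def k183 : KT := (.br (Nat.shiftLeft (nat_lit 0x900a00f) (nat_lit 76)) (.br (Nat.shiftLeft (nat_lit 0x2402803805) (nat_lit 66)) (.br (Nat.shiftLeft (nat_lit 0x9) (nat_lit 100)) (.one (nat_lit 0x800a00f010001001401e020540)) (.br (Nat.shiftLeft (nat_lit 0x900a00e013) (nat_lit 64)) (.one (nat_lit 0x900a00e012001201401c024540)) (.one (nat_lit 0x900a00e013001201401c026540)))) (.br (Nat.shiftLeft (nat_lit 0x900a00e015) (nat_lit 64)) (.one (nat_lit 0x900a00e014001201401c028540)) (.br (Nat.shiftLeft (nat_lit 0x480500700b) (nat_lit 65)) (.one (nat_lit 0x900a00e015001201401c02a540)) (.one (nat_lit 0x900a00e016001201401c02c540))))) (.br (Nat.shiftLeft (nat_lit 0x400002803805) (nat_lit 66)) (.br (Nat.shiftLeft (nat_lit 0x1) (nat_lit 112)) (.one (nat_lit 0x900a00f010001201401e020540)) (.br (Nat.shiftLeft (nat_lit 0x100000a00e013) (nat_lit 64)) (.one (nat_lit 0x100000a00e012200001401c024411)) (.one (nat_lit 0x100000a00e013200001401c026411))))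 (.br (Nat.shiftLeft (nat_lit 0x80000500700b) (nat_lit 65)) (.br (Nat.shiftLeft (nat_lit 0x100000a00e015) (nat_lit 64)) (.one (nat_lit 0x100000a00e014200001401c028411)) (.one (nat_lit 0x100000a00e015200001401c02a411))) (.br (Nat.shiftLeft (nat_lit 0x100000a00f) (nat_lit 76)) (.one (nat_lit 0x100000a00e016200001401c02c411)) (.one (nat_lit 0x100000a00f010200001401e020411))))))
def t183 : k183.all (jb2 57 fl b0) = true := by decide +kernel
noncomputable def k184 : KT := (.br (Nat.shiftLeft (nat_lit 0x800002803805) (nat_lit 66)) (.br (Nat.shiftLeft (nat_lit 0x1) (nat_lit 113)) (.br (Nat.shiftLeft (nat_lit 0x401) (nat_lit 102)) (.one (nat_lit 0x100300a00f010200601401e020650)) (.one (nat_lit 0x100400a00f010200801401e020650))) (.br (Nat.shiftLeft (nat_lit 0x200000a00e013) (nat_lit 64)) (.one (nat_lit 0x200000a00e012400001401c024411)) (.one (nat_lit 0x200000a00e013400001401c026411)))) (.br (Nat.shiftLeft (nat_lit 0x100000500700b) (nat_lit 65)) (.br (Nat.shiftLeft (nat_lit 0x200000a00e015) (nat_lit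 64)) (.one (nat_lit 0x200000a00e014400001401c028411)) (.one (nat_lit 0x200000a00e015400001401c02a411))) (.br (Nat.shiftLeft (nat_lit 0x200000a00f) (nat_lit 76)) (.one (nat_lit 0x200000a00e016400001401c02c411)) (.br (Nat.shiftLeft (nat_lit 0x1001) (nat_lit 101)) (.one (nat_lit 0x200000a00f010400001401e020411)) (.one (nat_lit 0x200300a00f010400601401e020650))))))
def t184 : k184.all (jb2 57 fl b0) = true := by decide +kernel
noncomputable def k185 : KT := (.br (Nat.shiftLeft (nat_lit 0x400000a00e015) (nat_lit 64)) (.br (Nat.shiftLeft (nat_lit 0x180000500700b) (nat_lit 65)) (.br (Nat.shiftLeft (nat_lit 0x300000a00e013) (nat_lit 64)) (.br (Nat.shiftLeft (nat_lit 0x3) (nat_lit 112)) (.one (nat_lit 0x200400a00f010400801401e020650)) (.one (nat_lit 0x300000a00e012600001401c024411))) (.br (Nat.shiftLeft (nat_lit 0xc00002803805) (nat_lit 66)) (.one (nat_lit 0x300000a00e013600001401c026411)) (.br (Nat.shiftLeft (nat_lit 0x300000a00e015) (nat_lit 64)) (.one (nat_lit 0x300000a00e014600001401c028411))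 (.one (nat_lit 0x300000a00e015600001401c02a411))))) (.br (Nat.shiftLeft (nat_lit 0x1) (nat_lit 114)) (.br (Nat.shiftLeft (nat_lit 0x300000a00f) (nat_lit 76)) (.one (nat_lit 0x300000a00e016600001401c02c411)) (.br (Nat.shiftLeft (nat_lit 0xc01) (nat_lit 102)) (.one (nat_lit 0x300000a00f010600001401e020411)) (.one (nat_lit 0x300400a00f010600801401e020650)))) (.br (Nat.shiftLeft (nat_lit 0x400000a00e013) (nat_lit 64)) (.one (nat_lit 0x400000a00e012800001401c024411)) (.br (Nat.shiftLeft (nat_lit 0x1000002803805) (nat_lit 66)) (.one (nat_lit 0x400000a00e013800001401c026411)) (.one (nat_lit 0x400000a00e014800001401c028411)))))) (.br (Nat.shiftLeft (nat_lit 0x1400002803805) (nat_lit 66)) (.br (Nat.shiftLeft (nat_lit 0x400000a00f) (nat_lit 76)) (.br (Nat.shiftLeft (nat_lit 0x200000500700b) (nat_lit 65)) (.one (nat_lit 0x400000a00e015800001401c02a411)) (.one (nat_lit 0x400000a00e016800001401c02c411))) (.br (Nat.shiftLeft (nat_lit 0x5) (nat_lit 112)) (.one (nat_lit 0x400000a00f010800001401e020411))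 (.br (Nat.shiftLeft (nat_lit 0x500000a00e013) (nat_lit 64)) (.one (nat_lit 0x500000a00e012a00001401c024411)) (.one (nat_lit 0x500000a00e013a00001401c026411))))) (.br (Nat.shiftLeft (nat_lit 0x500000a00f) (nat_lit 76)) (.br (Nat.shiftLeft (nat_lit 0x500000a00e015) (nat_lit 64)) (.one (nat_lit 0x500000a00e014a00001401c028411)) (.br (Nat.shiftLeft (nat_lit 0x280000500700b) (nat_lit 65)) (.one (nat_lit 0x500000a00e015a00001401c02a411)) (.one (nat_lit 0x500000a00e016a00001401c02c411)))) (.br (Nat.shiftLeft (nat_lit 0x3) (nat_lit 113)) (.one (nat_lit 0x500000a00f010a00001401e020411)) (.br (Nat.shiftLeft (nat_lit 0x600000a00e013) (nat_lit 64)) (.one (nat_lit 0x600000a00e012c00001401c024411)) (.one (nat_lit 0x600000a00e013c00001401c026411)))))))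
def t185 : k185.all (jb2 57 fl b0) = true := by decide +kernel
noncomputable def k186 : KT := (.br (Nat.shiftLeft (nat_lit 0x480000500700b) (nat_lit 65)) (.br (Nat.shiftLeft (nat_lit 0x1) (nat_lit 115)) (.br (Nat.shiftLeft (nat_lit 0x700000a00e013) (nat_lit 64)) (.br (Nat.shiftLeft (nat_lit 0x300000500700b) (nat_lit 65)) (.br (Nat.shiftLeft (nat_lit 0x600000a00e015) (nat_lit 64)) (.one (nat_lit 0x600000a00e014c00001401c028411)) (.one (nat_lit 0x600000a00e015c00001401c02a411))) (.br (Nat.shiftLeft (nat_lit 0x600000a00f) (nat_lit 76)) (.one (nat_lit 0x600000a00e016c00001401c02c411)) (.br (Nat.shiftLeft (nat_lit 0x7) (nat_lit 112)) (.one (nat_lit 0x600000a00f010c00001401e020411)) (.one (nat_lit 0x700000a00e012e00001401c024411))))) (.br (Nat.shiftLeft (nat_lit 0x700000a00e015) (nat_lit 64)) (.br (Nat.shiftLeft (nat_lit 0x1c00002803805) (nat_lit 66)) (.one (nat_lit 0x700000a00e013e00001401c026411)) (.one (nat_lit 0x700000a00e014e00001401c028411))) (.br (Nat.shiftLeft (nat_lit 0x380000500700b)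 (nat_lit 65)) (.one (nat_lit 0x700000a00e015e00001401c02a411)) (.br (Nat.shiftLeft (nat_lit 0x700000a00f) (nat_lit 76)) (.one (nat_lit 0x700000a00e016e00001401c02c411)) (.one (nat_lit 0x700000a00f010e00001401e020411)))))) (.br (Nat.shiftLeft (nat_lit 0x800000a00f) (nat_lit 76)) (.br (Nat.shiftLeft (nat_lit 0x2000002803805) (nat_lit 66)) (.br (Nat.shiftLeft (nat_lit 0x800000a00e013) (nat_lit 64)) (.one (nat_lit 0x800000a00e012000001401c126411)) (.one (nat_lit 0x800000a00e013000001401c128411))) (.br (Nat.shiftLeft (nat_lit 0x800000a00e015) (nat_lit 64)) (.one (nat_lit 0x800000a00e014000001401c12a411)) (.br (Nat.shiftLeft (nat_lit 0x400000500700b) (nat_lit 65)) (.one (nat_lit 0x800000a00e015000001401c12c411)) (.one (nat_lit 0x800000a00e016000001401c12e411))))) (.br (Nat.shiftLeft (nat_lit 0x900000a00e013) (nat_lit 64)) (.br (Nat.shiftLeft (nat_lit 0x9) (nat_lit 112)) (.one (nat_lit 0x800000a00f010000001401e122411)) (.one (nat_lit 0x900000a00e012200001401c126411))) (.br (Nat.shiftLeft (nat_lit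 0x2400002803805) (nat_lit 66)) (.one (nat_lit 0x900000a00e013200001401c128411)) (.br (Nat.shiftLeft (nat_lit 0x900000a00e015) (nat_lit 64)) (.one (nat_lit 0x900000a00e014200001401c12a411)) (.one (nat_lit 0x900000a00e015200001401c12c411))))))) (.br (Nat.shiftLeft (nat_lit 0x2c00002803805) (nat_lit 66)) (.br (Nat.shiftLeft (nat_lit 0xa00000a00e015) (nat_lit 64)) (.br (Nat.shiftLeft (nat_lit 0x5) (nat_lit 113)) (.br (Nat.shiftLeft (nat_lit 0x900000a00f) (nat_lit 76)) (.one (nat_lit 0x900000a00e016200001401c12e411)) (.one (nat_lit 0x900000a00f010200001401e122411))) (.br (Nat.shiftLeft (nat_lit 0xa00000a00e013) (nat_lit 64)) (.one (nat_lit 0xa00000a00e012400001401c126411)) (.br (Nat.shiftLeft (nat_lit 0x2800002803805) (nat_lit 66)) (.one (nat_lit 0xa00000a00e013400001401c128411)) (.one (nat_lit 0xa00000a00e014400001401c12a411))))) (.br (Nat.shiftLeft (nat_lit 0xa00000a00f) (nat_lit 76)) (.br (Nat.shiftLeft (nat_lit 0x500000500700b) (nat_lit 65)) (.one (nat_lit 0xa00000a00e015400001401c12c411))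 (.one (nat_lit 0xa00000a00e016400001401c12e411))) (.br (Nat.shiftLeft (nat_lit 0xb) (nat_lit 112)) (.one (nat_lit 0xa00000a00f010400001401e122411)) (.br (Nat.shiftLeft (nat_lit 0xb00000a00e013) (nat_lit 64)) (.one (nat_lit 0xb00000a00e012600001401c126411)) (.one (nat_lit 0xb00000a00e013600001401c128411)))))) (.br (Nat.shiftLeft (nat_lit 0xc00000a00e013) (nat_lit 64)) (.br (Nat.shiftLeft (nat_lit 0x580000500700b) (nat_lit 65)) (.br (Nat.shiftLeft (nat_lit 0xb00000a00e015) (nat_lit 64)) (.one (nat_lit 0xb00000a00e014600001401c12a411)) (.one (nat_lit 0xb00000a00e015600001401c12c411))) (.br (Nat.shiftLeft (nat_lit 0xb00000a00f) (nat_lit 76)) (.one (nat_lit 0xb00000a00e016600001401c12e411)) (.br (Nat.shiftLeft (nat_lit 0x3) (nat_lit 114)) (.one (nat_lit 0xb00000a00f010600001401e122411)) (.one (nat_lit 0xc00000a00e012800001401c126411))))) (.br (Nat.shiftLeft (nat_lit 0xc00000a00e015) (nat_lit 64)) (.br (Nat.shiftLeft (nat_lit 0x3000002803805) (nat_lit 66)) (.one (nat_lit 0xc00000a00e013800001401c128411))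 (.one (nat_lit 0xc00000a00e014800001401c12a411))) (.br (Nat.shiftLeft (nat_lit 0xc00000a00f) (nat_lit 76)) (.one (nat_lit 0xc00000a00e015800001401c12c411)) (.br (Nat.shiftLeft (nat_lit 0xd) (nat_lit 112)) (.one (nat_lit 0xc00000a00f010800001401e122411)) (.one (nat_lit 0xd00000a00e012a00001401c126411))))))))
def t186 : k186.all (jb2 57 fl b0) = true := by decide +kernel
noncomputable def k187 : KT := (.br (Nat.shiftLeft (nat_lit 0x1400001) (nat_lit 102)) (.br (Nat.shiftLeft (nat_lit 0x400001) (nat_lit 102)) (.br (Nat.shiftLeft (nat_lit 0xe00000a00e013) (nat_lit 64)) (.br (Nat.shiftLeft (nat_lit 0xd00000a00f) (nat_lit 76)) (.br (Nat.shiftLeft (nat_lit 0x3400002803805) (nat_lit 66)) (.one (nat_lit 0xd00000a00e013a00001401c128411)) (.one (nat_lit 0xd00000a00e014a00001401c12a411))) (.br (Nat.shiftLeft (nat_lit 0x7) (nat_lit 113)) (.one (nat_lit 0xd00000a00f010a00001401e122411)) (.one (nat_lit 0xe00000a00e012c00001401c126411)))) (.br (Nat.shiftLeft (nat_lit 0xf) (nat_lit 112)) (.br (Nat.shiftLeft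 (nat_lit 0xe00000a00f) (nat_lit 76)) (.one (nat_lit 0xe00000a00e013c00001401c128411)) (.one (nat_lit 0xe00000a00f010c00001401e122411))) (.br (Nat.shiftLeft (nat_lit 0x1) (nat_lit 124)) (.one (nat_lit 0xf00000a00f010e00001401e122411)) (.one (nat_lit 0x100000300a00f010000601403e420511))))) (.br (Nat.shiftLeft (nat_lit 0xc00001) (nat_lit 102)) (.br (Nat.shiftLeft (nat_lit 0x800001) (nat_lit 102)) (.br (Nat.shiftLeft (nat_lit 0x1) (nat_lit 125)) (.one (nat_lit 0x100000400a00f010000801403e420511)) (.one (nat_lit 0x200000300a00f010000601405e820511))) (.br (Nat.shiftLeft (nat_lit 0x3) (nat_lit 124)) (.one (nat_lit 0x200000400a00f010000801405e820511)) (.one (nat_lit 0x300000300a00f010000601407ec20511)))) (.br (Nat.shiftLeft (nat_lit 0x1000001) (nat_lit 102)) (.br (Nat.shiftLeft (nat_lit 0x1) (nat_lit 126)) (.one (nat_lit 0x300000400a00f010000801407ec20511)) (.one (nat_lit 0x400000300a00f010000601409f020511))) (.br (Nat.shiftLeft (nat_lit 0x5) (nat_lit 124)) (.one (nat_lit 0x400000400a00f010000801409f020511))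 (.one (nat_lit 0x500000300a00f01000060140bf420511)))))) (.br (Nat.shiftLeft (nat_lit 0x2400001) (nat_lit 102)) (.br (Nat.shiftLeft (nat_lit 0x1c00001) (nat_lit 102)) (.br (Nat.shiftLeft (nat_lit 0x1800001) (nat_lit 102)) (.br (Nat.shiftLeft (nat_lit 0x3) (nat_lit 125)) (.one (nat_lit 0x500000400a00f01000080140bf420511)) (.one (nat_lit 0x600000300a00f01000060140df820511))) (.br (Nat.shiftLeft (nat_lit 0x7) (nat_lit 124)) (.one (nat_lit 0x600000400a00f01000080140df820511)) (.one (nat_lit 0x700000300a00f01000060140ffc20511)))) (.br (Nat.shiftLeft (nat_lit 0x2000001) (nat_lit 102)) (.br (Nat.shiftLeft (nat_lit 0x1) (nat_lit 127)) (.one (nat_lit 0x700000400a00f01000080140ffc20511)) (.one (nat_lit 0x800000300a00f0100006014120020511))) (.br (Nat.shiftLeft (nat_lit 0x9) (nat_lit 124)) (.one (nat_lit 0x800000400a00f0100008014120020511)) (.one (nat_lit 0x900000300a00f0100006014140420511))))) (.br (Nat.shiftLeft (nat_lit 0x2c00001) (nat_lit 102)) (.br (Nat.shiftLeft (nat_lit 0x2800001) (nat_lit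 102)) (.br (Nat.shiftLeft (nat_lit 0x5) (nat_lit 125)) (.one (nat_lit 0x900000400a00f0100008014140420511)) (.one (nat_lit 0xa00000300a00f0100006014160820511))) (.br (Nat.shiftLeft (nat_lit 0xb) (nat_lit 124)) (.one (nat_lit 0xa00000400a00f0100008014160820511)) (.one (nat_lit 0xb00000300a00f0100006014180c20511)))) (.br (Nat.shiftLeft (nat_lit 0x3000001) (nat_lit 102)) (.br (Nat.shiftLeft (nat_lit 0x3) (nat_lit 126)) (.one (nat_lit 0xb00000400a00f0100008014180c20511)) (.one (nat_lit 0xc00000300a00f01000060141a1020511))) (.br (Nat.shiftLeft (nat_lit 0xd) (nat_lit 124)) (.one (nat_lit 0xc00000400a00f01000080141a1020511)) (.one (nat_lit 0xd00000300a00f01000060141c1420511)))))))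
def t187 : k187.all (jb2 57 fl b0) = true := by decide +kernel
noncomputable def s9 : KT := (.br (nat_lit 0x400a00f010000801401e021500) (.br (nat_lit 0x200a00e016000401401c02c540) (.br (nat_lit 0x100a00f010000201401e020540) (.br (nat_lit 0x100a00e013000201401c026540) k162 (.br (nat_lit 0x100a00e016000201401c02c540) k163 k164)) (.br (nat_lit 0x200a00e012000401401c024540) k165 (.br (nat_lit 0x200a00e014000401401c028540) k166 k167))) (.br (nat_lit 0x300a00e014000601401c028540) (.br (nat_lit 0x200a00f010000401401e020540) k168 (.br (nat_lit 0x300a00e012000601401c024540) k169 k170)) (.br (nat_lit 0x400a00e012000801401c024540) (.br (nat_lit 0x300a00f010000601401e021500) k171 k172) (.br (nat_lit 0x400a00e014000801401c028540) k173 k174)))) (.br (nat_lit 0x600a00f010000c01401e020540) (.br (nat_lit 0x500a00e016000a01401c02c540) (.br (nat_lit 0x500a00e012000a01401c024540) k175 (.br (nat_lit 0x500a00e015000a01401c02a540) k176 k177)) (.br (nat_lit 0x500a00f010000a01401e020540) k178 (.br (nat_lit 0x600a00e014000c01401c028540)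 k179 k180))) (.br (nat_lit 0x100000a00f010200001401e020411) (.br (nat_lit 0x700a00e016000e01401c02c540) k181 (.br (nat_lit 0x800a00e016001001401c02c540) k182 k183)) (.br (nat_lit 0x600000a00e013c00001401c026411) (.br (nat_lit 0x200300a00f010400601401e020650) k184 k185) (.br (nat_lit 0xd00000a00e012a00001401c126411) k186 k187)))))
noncomputable def u9 : KT := (.br (Nat.shiftLeft (nat_lit 0xa00e015) (nat_lit 64)) (.br (Nat.shiftLeft (nat_lit 0xa00e013) (nat_lit 64)) (.one (nat_lit 0xa00e012000001401c024430)) (.br (Nat.shiftLeft (nat_lit 0x2803805) (nat_lit 66)) (.one (nat_lit 0xa00e013000001401c026430)) (.one (nat_lit 0xa00e014000001401c028430)))) (.br (Nat.shiftLeft (nat_lit 0x500700b) (nat_lit 65)) (.one (nat_lit 0xa00e015000001401c02a430)) (.br (Nat.shiftLeft (nat_lit 0xa00f) (nat_lit 76)) (.one (nat_lit 0xa00e016000001401c02c430)) (.one (nat_lit 0xa00f010000001401e020430)))))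
def w9 : u9.all (wj 57 s9) = true := by decide +kernel
def o9 : OkW 57 (jb2 57 fl) u9 := .lift s9 _ (.br _ _ _ (.br _ _ _ (.br _ _ _ (.br _ _ _ (.leaf b0 k162 t162) (.br _ _ _ (.leaf b0 k163 t163) (.leaf b0 k164 t164))) (.br _ _ _ (.leaf b0 k165 t165) (.br _ _ _ (.leaf b0 k166 t166) (.leaf b0 k167 t167)))) (.br _ _ _ (.br _ _ _ (.leaf b0 k168 t168) (.br _ _ _ (.leaf b0 k169 t169) (.leaf b0 k170 t170))) (.br _ _ _ (.br _ _ _ (.leaf b0 k171 t171) (.leaf b0 k172 t172)) (.br _ _ _ (.leaf b0 k173 t173) (.leaf b0 k174 t174))))) (.br _ _ _ (.br _ _ _ (.br _ _ _ (.leaf b0 k175 t175) (.br _ _ _ (.leaf b0 k176 t176) (.leaf b0 k177 t177))) (.br _ _ _ (.leaf b0 k178 t178) (.br _ _ _ (.leaf b0 k179 t179) (.leaf b0 k180 t180)))) (.br _ _ _ (.br _ _ _ (.leaf b0 k181 t181) (.br _ _ _ (.leaf b0 k182 t182) (.leaf b0 k183 t183))) (.br _ _ _ (.br _ _ _ (.leaf b0 k184 t184) (.leaf b0 k185 t185)) (.br _ _ _ (.leaf b0 k186 t186) (.leaf b0 k187 t187)))))) w9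
noncomputable def k188 : KT := (.br (Nat.shiftLeft (nat_lit 0xa00f015) (nat_lit 64)) (.br (Nat.shiftLeft (nat_lit 0xa00f013) (nat_lit 64)) (.br (Nat.shiftLeft (nat_lit 0x5007809) (nat_lit 65)) (.one (nat_lit 0xa00f011000001401e023400)) (.one (nat_lit 0xa00f012000001401e025400))) (.br (Nat.shiftLeft (nat_lit 0x2803c05) (nat_lit 66)) (.one (nat_lit 0xa00f013000001401e027400)) (.one (nat_lit 0xa00f014000001401e029400)))) (.br (Nat.shiftLeft (nat_lit 0x5008009) (nat_lit 65)) (.br (Nat.shiftLeft (nat_lit 0xa01) (nat_lit 80)) (.one (nat_lit 0xa00f015000001401e02b400)) (.one (nat_lit 0xa0100110000014020023400))) (.br (Nat.shiftLeft (nat_lit 0x1) (nat_lit 100)) (.one (nat_lit 0xa0100120000014020025400)) (.br (Nat.shiftLeft (nat_lit 0x805007809) (nat_lit 65)) (.one (nat_lit 0x100a00f011000201401e022540)) (.one (nat_lit 0x100a00f012000201401e024540))))))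
def t188 : k188.all (jb2 57 fl b0) = true := by decide +kernel
noncomputable def k189 : KT := (.br (Nat.shiftLeft (nat_lit 0x100a00f015) (nat_lit 64)) (.br (Nat.shiftLeft (nat_lit 0x402803c05) (nat_lit 66)) (.one (nat_lit 0x100a00f013000201401e026540)) (.one (nat_lit 0x100a00f014000201401e028540))) (.br (Nat.shiftLeft (nat_lit 0x100a01) (nat_lit 80)) (.one (nat_lit 0x100a00f015000201401e02a540)) (.one (nat_lit 0x100a0100110002014020022540))))
def t189 : k189.all (jb2 57 fl b0) = true := by decide +kernel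
noncomputable def k190 : KT := (.br (Nat.shiftLeft (nat_lit 0x1) (nat_lit 101)) (.one (nat_lit 0x100a0100120002014020024540)) (.one (nat_lit 0x200a00f011000401401e022540)))
def t190 : k190.all (jb2 57 fl b0) = true := by decide +kernel
noncomputable def k191 : KT := (.br (Nat.shiftLeft (nat_lit 0x200a00f013) (nat_lit 64)) (.one (nat_lit 0x200a00f012000401401e024540)) (.one (nat_lit 0x200a00f013000401401e026540)))
def t191 : k191.all (jb2 57 fl b0) = true := by decide +kernel
noncomputable def k192 : KT := (.br (Nat.shiftLeft (nat_lit 0x200a00f015) (nat_lit 64)) (.one (nat_lit 0x200a00f014000401401e028540)) (.br (Nat.shiftLeft (nat_lit 0x200a01) (nat_lit 80)) (.one (nat_lit 0x200a00f015000401401e02a540)) (.one (nat_lit 0x200a0100110004014020022540))))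
def t192 : k192.all (jb2 57 fl b0) = true := by decide +kernel
noncomputable def k193 : KT := (.one (nat_lit 0x200a0100120004014020024540))
def t193 : k193.all (jb2 57 fl b0) = true := by decide +kernel
noncomputable def k194 : KT := (.one (nat_lit 0x300a00f011000601401e022540))
def t194 : k194.all (jb2 57 fl b0) = true := by decide +kernel
noncomputable def k195 : KT := (.br (Nat.shiftLeft (nat_lit 0x300a00f013) (nat_lit 64)) (.one (nat_lit 0x300a00f012000601401e024540)) (.one (nat_lit 0x300a00f013000601401e026540)))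
def t195 : k195.all (jb2 57 fl b0) = true := by decide +kernel
noncomputable def k196 : KT := (.br (Nat.shiftLeft (nat_lit 0x300a00f015) (nat_lit 64)) (.one (nat_lit 0x300a00f014000601401e028540)) (.one (nat_lit 0x300a00f015000601401e02a540)))
def t196 : k196.all (jb2 57 fl b0) = true := by decide +kernel
noncomputable def k197 : KT := (.br (Nat.shiftLeft (nat_lit 0x1805008009) (nat_lit 65)) (.one (nat_lit 0x300a0100110006014020022540)) (.one (nat_lit 0x300a0100120006014020024540)))
def t197 : k197.all (jb2 57 fl b0) = true := by decide +kernel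
noncomputable def k198 : KT := (.one (nat_lit 0x400a00f011000801401e022540))
def t198 : k198.all (jb2 57 fl b0) = true := by decide +kernel
noncomputable def k199 : KT := (.br (Nat.shiftLeft (nat_lit 0x400a00f013) (nat_lit 64)) (.one (nat_lit 0x400a00f012000801401e024540)) (.one (nat_lit 0x400a00f013000801401e026540)))
def t199 : k199.all (jb2 57 fl b0) = true := by decide +kernel
noncomputable def k200 : KT := (.br (Nat.shiftLeft (nat_lit 0x400a00f015) (nat_lit 64)) (.one (nat_lit 0x400a00f014000801401e028540)) (.br (Nat.shiftLeft (nat_lit 0x400a01) (nat_lit 80)) (.one (nat_lit 0x400a00f015000801401e02a540)) (.one (nat_lit 0x400a0100110008014020022540))))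
def t200 : k200.all (jb2 57 fl b0) = true := by decide +kernel
noncomputable def k201 : KT := (.br (Nat.shiftLeft (nat_lit 0x5) (nat_lit 100)) (.one (nat_lit 0x400a0100120008014020024540)) (.one (nat_lit 0x500a00f011000a01401e022540)))
def t201 : k201.all (jb2 57 fl b0) = true := by decide +kernel
noncomputable def k202 : KT := (.br (Nat.shiftLeft (nat_lit 0x500a00f013) (nat_lit 64)) (.one (nat_lit 0x500a00f012000a01401e024540)) (.br (Nat.shiftLeft (nat_lit 0x1402803c05) (nat_lit 66)) (.one (nat_lit 0x500a00f013000a01401e026540)) (.one (nat_lit 0x500a00f014000a01401e028540))))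
def t202 : k202.all (jb2 57 fl b0) = true := by decide +kernel
noncomputable def k203 : KT := (.br (Nat.shiftLeft (nat_lit 0x500a01) (nat_lit 80)) (.one (nat_lit 0x500a00f015000a01401e02a540)) (.br (Nat.shiftLeft (nat_lit 0x2805008009) (nat_lit 65)) (.one (nat_lit 0x500a010011000a014020022540)) (.one (nat_lit 0x500a010012000a014020024540))))
def t203 : k203.all (jb2 57 fl b0) = true := by decide +kernel
noncomputable def k204 : KT := (.br (Nat.shiftLeft (nat_lit 0x3005007809) (nat_lit 65)) (.one (nat_lit 0x600a00f011000c01401e022540)) (.br (Nat.shiftLeft (nat_lit 0x600a00f013) (nat_lit 64)) (.one (nat_lit 0x600a00f012000c01401e024540)) (.one (nat_lit 0x600a00f013000c01401e026540))))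
def t204 : k204.all (jb2 57 fl b0) = true := by decide +kernel
noncomputable def k205 : KT := (.br (Nat.shiftLeft (nat_lit 0x600a01) (nat_lit 80)) (.br (Nat.shiftLeft (nat_lit 0x600a00f015) (nat_lit 64)) (.one (nat_lit 0x600a00f014000c01401e028540)) (.one (nat_lit 0x600a00f015000c01401e02a540))) (.br (Nat.shiftLeft (nat_lit 0x3005008009) (nat_lit 65)) (.one (nat_lit 0x600a010011000c014020022540)) (.one (nat_lit 0x600a010012000c014020024540))))
def t205 : k205.all (jb2 57 fl b0) = true := by decide +kernel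
noncomputable def k206 : KT := (.br (Nat.shiftLeft (nat_lit 0x1c02803c05) (nat_lit 66)) (.br (Nat.shiftLeft (nat_lit 0x3805007809) (nat_lit 65)) (.one (nat_lit 0x700a00f011000e01401e022540)) (.br (Nat.shiftLeft (nat_lit 0x700a00f013) (nat_lit 64)) (.one (nat_lit 0x700a00f012000e01401e024540)) (.one (nat_lit 0x700a00f013000e01401e026540)))) (.br (Nat.shiftLeft (nat_lit 0x700a00f015) (nat_lit 64)) (.one (nat_lit 0x700a00f014000e01401e028540)) (.br (Nat.shiftLeft (nat_lit 0x700a01) (nat_lit 80)) (.one (nat_lit 0x700a00f015000e01401e02a540)) (.one (nat_lit 0x700a010011000e014020022540)))))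
def t206 : k206.all (jb2 57 fl b0) = true := by decide +kernel
noncomputable def k207 : KT := (.br (Nat.shiftLeft (nat_lit 0x800a00f015) (nat_lit 64)) (.br (Nat.shiftLeft (nat_lit 0x4005007809) (nat_lit 65)) (.br (Nat.shiftLeft (nat_lit 0x1) (nat_lit 103)) (.one (nat_lit 0x700a010012000e014020024540)) (.one (nat_lit 0x800a00f011001001401e022540))) (.br (Nat.shiftLeft (nat_lit 0x800a00f013) (nat_lit 64)) (.one (nat_lit 0x800a00f012001001401e024540)) (.br (Nat.shiftLeft (nat_lit 0x2002803c05) (nat_lit 66)) (.one (nat_lit 0x800a00f013001001401e026540)) (.one (nat_lit 0x800a00f014001001401e028540))))) (.br (Nat.shiftLeft (nat_lit 0x4005008009) (nat_lit 65)) (.br (Nat.shiftLeft (nat_lit 0x800a01) (nat_lit 80)) (.one (nat_lit 0x800a00f015001001401e02a540)) (.one (nat_lit 0x800a0100110010014020022540))) (.br (Nat.shiftLeft (nat_lit 0x9) (nat_lit 100)) (.one (nat_lit 0x800a0100120010014020024540)) (.br (Nat.shiftLeft (nat_lit 0x4805007809) (nat_lit 65)) (.one (nat_lit 0x900a00f011001201401e022540))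 (.one (nat_lit 0x900a00f012001201401e024540))))))
def t207 : k207.all (jb2 57 fl b0) = true := by decide +kernel
noncomputable def k208 : KT := (.br (Nat.shiftLeft (nat_lit 0x1800005007809) (nat_lit 65)) (.br (Nat.shiftLeft (nat_lit 0x100000a01) (nat_lit 80)) (.br (Nat.shiftLeft (nat_lit 0x1) (nat_lit 112)) (.br (Nat.shiftLeft (nat_lit 0x900a00f015) (nat_lit 64)) (.br (Nat.shiftLeft (nat_lit 0x2402803c05) (nat_lit 66)) (.one (nat_lit 0x900a00f013001201401e026540)) (.one (nat_lit 0x900a00f014001201401e028540))) (.br (Nat.shiftLeft (nat_lit 0x900a01) (nat_lit 80)) (.one (nat_lit 0x900a00f015001201401e02a540)) (.br (Nat.shiftLeft (nat_lit 0x4805008009) (nat_lit 65)) (.one (nat_lit 0x900a0100110012014020022540)) (.one (nat_lit 0x900a0100120012014020024540))))) (.br (Nat.shiftLeft (nat_lit 0x100000a00f013) (nat_lit 64)) (.br (Nat.shiftLeft (nat_lit 0x800005007809) (nat_lit 65)) (.one (nat_lit 0x100000a00f011200001401e022411)) (.one (nat_lit 0x100000a00f012200001401e024411))) (.br (Nat.shiftLeft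 (nat_lit 0x400002803c05) (nat_lit 66)) (.one (nat_lit 0x100000a00f013200001401e026411)) (.br (Nat.shiftLeft (nat_lit 0x100000a00f015) (nat_lit 64)) (.one (nat_lit 0x100000a00f014200001401e028411)) (.one (nat_lit 0x100000a00f015200001401e02a411)))))) (.br (Nat.shiftLeft (nat_lit 0x800002803c05) (nat_lit 66)) (.br (Nat.shiftLeft (nat_lit 0x1) (nat_lit 113)) (.br (Nat.shiftLeft (nat_lit 0x800005008009) (nat_lit 65)) (.one (nat_lit 0x100000a0100112000014020022411)) (.one (nat_lit 0x100000a0100122000014020024411))) (.br (Nat.shiftLeft (nat_lit 0x1000005007809) (nat_lit 65)) (.one (nat_lit 0x200000a00f011400001401e022411)) (.br (Nat.shiftLeft (nat_lit 0x200000a00f013) (nat_lit 64)) (.one (nat_lit 0x200000a00f012400001401e024411)) (.one (nat_lit 0x200000a00f013400001401e026411))))) (.br (Nat.shiftLeft (nat_lit 0x200000a01) (nat_lit 80)) (.br (Nat.shiftLeft (nat_lit 0x200000a00f015) (nat_lit 64)) (.one (nat_lit 0x200000a00f014400001401e028411)) (.one (nat_lit 0x200000a00f015400001401e02a411)))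 (.br (Nat.shiftLeft (nat_lit 0x1000005008009) (nat_lit 65)) (.one (nat_lit 0x200000a0100114000014020022411)) (.br (Nat.shiftLeft (nat_lit 0x3) (nat_lit 112)) (.one (nat_lit 0x200000a0100124000014020024411)) (.one (nat_lit 0x300000a00f011600001401e022411))))))) (.br (Nat.shiftLeft (nat_lit 0x400000a00f015) (nat_lit 64)) (.br (Nat.shiftLeft (nat_lit 0x1800005008009) (nat_lit 65)) (.br (Nat.shiftLeft (nat_lit 0xc00002803c05) (nat_lit 66)) (.br (Nat.shiftLeft (nat_lit 0x300000a00f013) (nat_lit 64)) (.one (nat_lit 0x300000a00f012600001401e024411)) (.one (nat_lit 0x300000a00f013600001401e026411))) (.br (Nat.shiftLeft (nat_lit 0x300000a00f015) (nat_lit 64)) (.one (nat_lit 0x300000a00f014600001401e028411)) (.br (Nat.shiftLeft (nat_lit 0x300000a01) (nat_lit 80)) (.one (nat_lit 0x300000a00f015600001401e02a411)) (.one (nat_lit 0x300000a0100116000014020022411))))) (.br (Nat.shiftLeft (nat_lit 0x2000005007809) (nat_lit 65)) (.br (Nat.shiftLeft (nat_lit 0x1) (nat_lit 114)) (.one (nat_lit 0x300000a0100126000014020024411))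 (.one (nat_lit 0x400000a00f011800001401e022411))) (.br (Nat.shiftLeft (nat_lit 0x400000a00f013) (nat_lit 64)) (.one (nat_lit 0x400000a00f012800001401e024411)) (.br (Nat.shiftLeft (nat_lit 0x1000002803c05) (nat_lit 66)) (.one (nat_lit 0x400000a00f013800001401e026411)) (.one (nat_lit 0x400000a00f014800001401e028411)))))) (.br (Nat.shiftLeft (nat_lit 0x500000a00f013) (nat_lit 64)) (.br (Nat.shiftLeft (nat_lit 0x2000005008009) (nat_lit 65)) (.br (Nat.shiftLeft (nat_lit 0x400000a01) (nat_lit 80)) (.one (nat_lit 0x400000a00f015800001401e02a411)) (.one (nat_lit 0x400000a0100118000014020022411))) (.br (Nat.shiftLeft (nat_lit 0x5) (nat_lit 112)) (.one (nat_lit 0x400000a0100128000014020024411)) (.br (Nat.shiftLeft (nat_lit 0x2800005007809) (nat_lit 65)) (.one (nat_lit 0x500000a00f011a00001401e022411)) (.one (nat_lit 0x500000a00f012a00001401e024411))))) (.br (Nat.shiftLeft (nat_lit 0x500000a00f015) (nat_lit 64)) (.br (Nat.shiftLeft (nat_lit 0x1400002803c05) (nat_lit 66)) (.one (nat_lit 0x500000a00f013a00001401e026411))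 (.one (nat_lit 0x500000a00f014a00001401e028411))) (.br (Nat.shiftLeft (nat_lit 0x500000a01) (nat_lit 80)) (.one (nat_lit 0x500000a00f015a00001401e02a411)) (.br (Nat.shiftLeft (nat_lit 0x2800005008009) (nat_lit 65)) (.one (nat_lit 0x500000a010011a000014020022411)) (.one (nat_lit 0x500000a010012a000014020024411))))))))
def t208 : k208.all (jb2 57 fl b0) = true := by decide +kernel
noncomputable def k209 : KT := (.br (Nat.shiftLeft (nat_lit 0x4000005008009) (nat_lit 65)) (.br (Nat.shiftLeft (nat_lit 0x1c00002803c05) (nat_lit 66)) (.br (Nat.shiftLeft (nat_lit 0x600000a01) (nat_lit 80)) (.br (Nat.shiftLeft (nat_lit 0x600000a00f013) (nat_lit 64)) (.br (Nat.shiftLeft (nat_lit 0x3000005007809) (nat_lit 65)) (.one (nat_lit 0x600000a00f011c00001401e022411)) (.one (nat_lit 0x600000a00f012c00001401e024411))) (.br (Nat.shiftLeft (nat_lit 0x1800002803c05) (nat_lit 66)) (.one (nat_lit 0x600000a00f013c00001401e026411)) (.br (Nat.shiftLeft (nat_lit 0x600000a00f015) (nat_lit 64)) (.one (nat_lit 0x600000a00f014c00001401e028411))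 (.one (nat_lit 0x600000a00f015c00001401e02a411))))) (.br (Nat.shiftLeft (nat_lit 0x7) (nat_lit 112)) (.br (Nat.shiftLeft (nat_lit 0x3000005008009) (nat_lit 65)) (.one (nat_lit 0x600000a010011c000014020022411)) (.one (nat_lit 0x600000a010012c000014020024411))) (.br (Nat.shiftLeft (nat_lit 0x3800005007809) (nat_lit 65)) (.one (nat_lit 0x700000a00f011e00001401e022411)) (.br (Nat.shiftLeft (nat_lit 0x700000a00f013) (nat_lit 64)) (.one (nat_lit 0x700000a00f012e00001401e024411)) (.one (nat_lit 0x700000a00f013e00001401e026411)))))) (.br (Nat.shiftLeft (nat_lit 0x4000005007809) (nat_lit 65)) (.br (Nat.shiftLeft (nat_lit 0x700000a01) (nat_lit 80)) (.br (Nat.shiftLeft (nat_lit 0x700000a00f015) (nat_lit 64)) (.one (nat_lit 0x700000a00f014e00001401e028411)) (.one (nat_lit 0x700000a00f015e00001401e02a411))) (.br (Nat.shiftLeft (nat_lit 0x3800005008009) (nat_lit 65)) (.one (nat_lit 0x700000a010011e000014020022411)) (.br (Nat.shiftLeft (nat_lit 0x1) (nat_lit 115)) (.one (nat_lit 0x700000a010012e000014020024411))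 (.one (nat_lit 0x800000a00f011000001401e124411))))) (.br (Nat.shiftLeft (nat_lit 0x2000002803c05) (nat_lit 66)) (.br (Nat.shiftLeft (nat_lit 0x800000a00f013) (nat_lit 64)) (.one (nat_lit 0x800000a00f012000001401e126411)) (.one (nat_lit 0x800000a00f013000001401e128411))) (.br (Nat.shiftLeft (nat_lit 0x800000a00f015) (nat_lit 64)) (.one (nat_lit 0x800000a00f014000001401e12a411)) (.br (Nat.shiftLeft (nat_lit 0x800000a01) (nat_lit 80)) (.one (nat_lit 0x800000a00f015000001401e12c411)) (.one (nat_lit 0x800000a0100110000014020124411))))))) (.br (Nat.shiftLeft (nat_lit 0xa00000a00f013) (nat_lit 64)) (.br (Nat.shiftLeft (nat_lit 0x900000a00f015) (nat_lit 64)) (.br (Nat.shiftLeft (nat_lit 0x4800005007809) (nat_lit 65)) (.br (Nat.shiftLeft (nat_lit 0x9) (nat_lit 112)) (.one (nat_lit 0x800000a0100120000014020126411)) (.one (nat_lit 0x900000a00f011200001401e124411))) (.br (Nat.shiftLeft (nat_lit 0x900000a00f013) (nat_lit 64)) (.one (nat_lit 0x900000a00f012200001401e126411)) (.br (Nat.shiftLeft (nat_lit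 0x2400002803c05) (nat_lit 66)) (.one (nat_lit 0x900000a00f013200001401e128411)) (.one (nat_lit 0x900000a00f014200001401e12a411))))) (.br (Nat.shiftLeft (nat_lit 0x4800005008009) (nat_lit 65)) (.br (Nat.shiftLeft (nat_lit 0x900000a01) (nat_lit 80)) (.one (nat_lit 0x900000a00f015200001401e12c411)) (.one (nat_lit 0x900000a0100112000014020124411))) (.br (Nat.shiftLeft (nat_lit 0x5) (nat_lit 113)) (.one (nat_lit 0x900000a0100122000014020126411)) (.br (Nat.shiftLeft (nat_lit 0x5000005007809) (nat_lit 65)) (.one (nat_lit 0xa00000a00f011400001401e124411)) (.one (nat_lit 0xa00000a00f012400001401e126411)))))) (.br (Nat.shiftLeft (nat_lit 0xb) (nat_lit 112)) (.br (Nat.shiftLeft (nat_lit 0xa00000a00f015) (nat_lit 64)) (.br (Nat.shiftLeft (nat_lit 0x2800002803c05) (nat_lit 66)) (.one (nat_lit 0xa00000a00f013400001401e128411)) (.one (nat_lit 0xa00000a00f014400001401e12a411))) (.br (Nat.shiftLeft (nat_lit 0xa00000a01) (nat_lit 80)) (.one (nat_lit 0xa00000a00f015400001401e12c411)) (.br (Nat.shiftLeft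 (nat_lit 0x5000005008009) (nat_lit 65)) (.one (nat_lit 0xa00000a0100114000014020124411)) (.one (nat_lit 0xa00000a0100124000014020126411))))) (.br (Nat.shiftLeft (nat_lit 0xb00000a00f013) (nat_lit 64)) (.br (Nat.shiftLeft (nat_lit 0x5800005007809) (nat_lit 65)) (.one (nat_lit 0xb00000a00f011600001401e124411)) (.one (nat_lit 0xb00000a00f012600001401e126411))) (.br (Nat.shiftLeft (nat_lit 0x2c00002803c05) (nat_lit 66)) (.one (nat_lit 0xb00000a00f013600001401e128411)) (.br (Nat.shiftLeft (nat_lit 0xb00000a00f015) (nat_lit 64)) (.one (nat_lit 0xb00000a00f014600001401e12a411)) (.one (nat_lit 0xb00000a00f015600001401e12c411))))))))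
def t209 : k209.all (jb2 57 fl b0) = true := by decide +kernel
noncomputable def k210 : KT := (.br (Nat.shiftLeft (nat_lit 0xd) (nat_lit 112)) (.br (Nat.shiftLeft (nat_lit 0xc00000a00f013) (nat_lit 64)) (.br (Nat.shiftLeft (nat_lit 0x3) (nat_lit 114)) (.br (Nat.shiftLeft (nat_lit 0x5800005008009) (nat_lit 65)) (.one (nat_lit 0xb00000a0100116000014020124411)) (.one (nat_lit 0xb00000a0100126000014020126411))) (.br (Nat.shiftLeft (nat_lit 0x6000005007809) (nat_lit 65)) (.one (nat_lit 0xc00000a00f011800001401e124411)) (.one (nat_lit 0xc00000a00f012800001401e126411)))) (.br (Nat.shiftLeft (nat_lit 0xc00000a01) (nat_lit 80)) (.br (Nat.shiftLeft (nat_lit 0x3000002803c05) (nat_lit 66)) (.one (nat_lit 0xc00000a00f013800001401e128411)) (.one (nat_lit 0xc00000a00f014800001401e12a411))) (.br (Nat.shiftLeft (nat_lit 0x6000005008009) (nat_lit 65)) (.one (nat_lit 0xc00000a0100118000014020124411)) (.one (nat_lit 0xc00000a0100128000014020126411))))) (.br (Nat.shiftLeft (nat_lit 0x6800005008009) (nat_lit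 65)) (.br (Nat.shiftLeft (nat_lit 0xd00000a00f013) (nat_lit 64)) (.br (Nat.shiftLeft (nat_lit 0x6800005007809) (nat_lit 65)) (.one (nat_lit 0xd00000a00f011a00001401e124411)) (.one (nat_lit 0xd00000a00f012a00001401e126411))) (.br (Nat.shiftLeft (nat_lit 0xd00000a01) (nat_lit 80)) (.one (nat_lit 0xd00000a00f013a00001401e128411)) (.one (nat_lit 0xd00000a010011a000014020124411)))) (.br (Nat.shiftLeft (nat_lit 0x7000005007809) (nat_lit 65)) (.br (Nat.shiftLeft (nat_lit 0x7) (nat_lit 113)) (.one (nat_lit 0xd00000a010012a000014020126411)) (.one (nat_lit 0xe00000a00f011c00001401e124411))) (.br (Nat.shiftLeft (nat_lit 0xe00000a01) (nat_lit 80)) (.one (nat_lit 0xe00000a00f012c00001401e126411)) (.br (Nat.shiftLeft (nat_lit 0xf) (nat_lit 112)) (.one (nat_lit 0xe00000a010011c000014020124411)) (.one (nat_lit 0xf00000a00f011e00001401e124411)))))))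
def t210 : k210.all (jb2 57 fl b0) = true := by decide +kernel
noncomputable def s10 : KT := (.br (nat_lit 0x400a00f011000801401e022540) (.br (nat_lit 0x200a0100110004014020022540) (.br (nat_lit 0x100a0100110002014020022540) (.br (nat_lit 0x100a00f012000201401e024540) k188 k189) (.br (nat_lit 0x200a00f011000401401e022540) k190 (.br (nat_lit 0x200a00f013000401401e026540) k191 k192))) (.br (nat_lit 0x300a00f013000601401e026540) (.br (nat_lit 0x200a0100120004014020024540) k193 (.br (nat_lit 0x300a00f011000601401e022540) k194 k195)) (.br (nat_lit 0x300a00f015000601401e02a540) k196 (.br (nat_lit 0x300a0100120006014020024540) k197 k198)))) (.br (nat_lit 0x600a00f013000c01401e026540) (.br (nat_lit 0x500a00f011000a01401e022540) (.br (nat_lit 0x400a00f013000801401e026540) k199 (.br (nat_lit 0x400a0100110008014020022540) k200 k201)) (.br (nat_lit 0x500a00f014000a01401e028540) k202 (.br (nat_lit 0x500a010012000a014020024540) k203 k204))) (.br (nat_lit 0x900a00f012001201401e024540) (.br (nat_lit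 0x600a010012000c014020024540) k205 (.br (nat_lit 0x700a010011000e014020022540) k206 k207)) (.br (nat_lit 0x500000a010012a000014020024411) k208 (.br (nat_lit 0xb00000a00f015600001401e12c411) k209 k210)))))
noncomputable def u10 : KT := (.br (Nat.shiftLeft (nat_lit 0x2803c05) (nat_lit 66)) (.br (Nat.shiftLeft (nat_lit 0x5007809) (nat_lit 65)) (.one (nat_lit 0xa00f011000001401e022430)) (.br (Nat.shiftLeft (nat_lit 0xa00f013) (nat_lit 64)) (.one (nat_lit 0xa00f012000001401e024430)) (.one (nat_lit 0xa00f013000001401e026430)))) (.br (Nat.shiftLeft (nat_lit 0xa01) (nat_lit 80)) (.br (Nat.shiftLeft (nat_lit 0xa00f015) (nat_lit 64)) (.one (nat_lit 0xa00f014000001401e028430)) (.one (nat_lit 0xa00f015000001401e02a430))) (.br (Nat.shiftLeft (nat_lit 0x5008009) (nat_lit 65)) (.one (nat_lit 0xa0100110000014020022430)) (.one (nat_lit 0xa0100120000014020024430)))))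
def w10 : u10.all (wj 57 s10) = true := by decide +kernel
def o10 : OkW 57 (jb2 57 fl) u10 := .lift s10 _ (.br _ _ _ (.br _ _ _ (.br _ _ _ (.br _ _ _ (.leaf b0 k188 t188) (.leaf b0 k189 t189)) (.br _ _ _ (.leaf b0 k190 t190) (.br _ _ _ (.leaf b0 k191 t191) (.leaf b0 k192 t192)))) (.br _ _ _ (.br _ _ _ (.leaf b0 k193 t193) (.br _ _ _ (.leaf b0 k194 t194) (.leaf b0 k195 t195))) (.br _ _ _ (.leaf b0 k196 t196) (.br _ _ _ (.leaf b0 k197 t197) (.leaf b0 k198 t198))))) (.br _ _ _ (.br _ _ _ (.br _ _ _ (.leaf b0 k199 t199) (.br _ _ _ (.leaf b0 k200 t200) (.leaf b0 k201 t201))) (.br _ _ _ (.leaf b0 k202 t202) (.br _ _ _ (.leaf b0 k203 t203) (.leaf b0 k204 t204)))) (.br _ _ _ (.br _ _ _ (.leaf b0 k205 t205) (.br _ _ _ (.leaf b0 k206 t206) (.leaf b0 k207 t207))) (.br _ _ _ (.leaf b0 k208 t208) (.br _ _ _ (.leaf b0 k209 t209) (.leaf b0 k210 t210)))))) w10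
noncomputable def k211 : KT := (.br (Nat.shiftLeft (nat_lit 0x5806007) (nat_lit 65)) (.br (Nat.shiftLeft (nat_lit 0xa011) (nat_lit 76)) (.br (Nat.shiftLeft (nat_lit 0x2804005) (nat_lit 66)) (.one (nat_lit 0xa0100130000014020027400)) (.one (nat_lit 0xa0100140000014020029400))) (.br (Nat.shiftLeft (nat_lit 0xa011013) (nat_lit 64)) (.one (nat_lit 0xa0110120000014022025400)) (.br (Nat.shiftLeft (nat_lit 0xb) (nat_lit 88)) (.one (nat_lit 0xa0110130000014022027400)) (.one (nat_lit 0xb00c00d000001601801b400))))) (.br (Nat.shiftLeft (nat_lit 0x100a011) (nat_lit 76)) (.br (Nat.shiftLeft (nat_lit 0x1) (nat_lit 100)) (.one (nat_lit 0xb00c00e000001601801d400)) (.br (Nat.shiftLeft (nat_lit 0x402804005) (nat_lit 66)) (.one (nat_lit 0x100a0100130002014020026540)) (.one (nat_lit 0x100a0100140002014020028540)))) (.br (Nat.shiftLeft (nat_lit 0x100a011013) (nat_lit 64)) (.one (nat_lit 0x100a0110120002014022024540)) (.br (Nat.shiftLeft (nat_lit 0x1) (nat_lit 101)) (.one (nat_lit 0x100a0110130002014022026540))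 (.one (nat_lit 0x200a0100130004014020026540))))))
def t211 : k211.all (jb2 57 fl b0) = true := by decide +kernel
noncomputable def k212 : KT := (.br (Nat.shiftLeft (nat_lit 0x200a011013) (nat_lit 64)) (.br (Nat.shiftLeft (nat_lit 0x200a011) (nat_lit 76)) (.one (nat_lit 0x200a0100140004014020028540)) (.one (nat_lit 0x200a0110120004014022024540))) (.br (Nat.shiftLeft (nat_lit 0x3) (nat_lit 100)) (.one (nat_lit 0x200a0110130004014022026540)) (.one (nat_lit 0x300a0100130006014020026540))))
def t212 : k212.all (jb2 57 fl b0) = true := by decide +kernel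
noncomputable def k213 : KT := (.br (Nat.shiftLeft (nat_lit 0x300a011013) (nat_lit 64)) (.br (Nat.shiftLeft (nat_lit 0x300a011) (nat_lit 76)) (.one (nat_lit 0x300a0100140006014020028540)) (.one (nat_lit 0x300a0110120006014022024540))) (.br (Nat.shiftLeft (nat_lit 0x1) (nat_lit 102)) (.one (nat_lit 0x300a0110130006014022026540)) (.one (nat_lit 0x400a0100130008014020026540))))
def t213 : k213.all (jb2 57 fl b0) = true := by decide +kernel
noncomputable def k214 : KT := (.br (Nat.shiftLeft (nat_lit 0x400a011013) (nat_lit 64)) (.br (Nat.shiftLeft (nat_lit 0x400a011) (nat_lit 76)) (.one (nat_lit 0x400a0100140008014020028540)) (.one (nat_lit 0x400a0110120008014022024540))) (.br (Nat.shiftLeft (nat_lit 0x5) (nat_lit 100)) (.one (nat_lit 0x400a0110130008014022026540)) (.br (Nat.shiftLeft (nat_lit 0x1402804005) (nat_lit 66)) (.one (nat_lit 0x500a010013000a014020026540)) (.one (nat_lit 0x500a010014000a014020028540)))))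
def t214 : k214.all (jb2 57 fl b0) = true := by decide +kernel
noncomputable def k215 : KT := (.br (Nat.shiftLeft (nat_lit 0x7) (nat_lit 100)) (.br (Nat.shiftLeft (nat_lit 0x1802804005) (nat_lit 66)) (.br (Nat.shiftLeft (nat_lit 0x500a011013) (nat_lit 64)) (.one (nat_lit 0x500a011012000a014022024540)) (.br (Nat.shiftLeft (nat_lit 0x3) (nat_lit 101)) (.one (nat_lit 0x500a011013000a014022026540)) (.one (nat_lit 0x600a010013000c014020026540)))) (.br (Nat.shiftLeft (nat_lit 0x600a011) (nat_lit 76)) (.one (nat_lit 0x600a010014000c014020028540)) (.br (Nat.shiftLeft (nat_lit 0x600a011013) (nat_lit 64)) (.one (nat_lit 0x600a011012000c014022024540)) (.one (nat_lit 0x600a011013000c014022026540))))) (.br (Nat.shiftLeft (nat_lit 0x700a011013) (nat_lit 64)) (.br (Nat.shiftLeft (nat_lit 0x1c02804005) (nat_lit 66)) (.one (nat_lit 0x700a010013000e014020026540)) (.br (Nat.shiftLeft (nat_lit 0x700a011) (nat_lit 76)) (.one (nat_lit 0x700a010014000e014020028540)) (.one (nat_lit 0x700a011012000e014022024540))))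 (.br (Nat.shiftLeft (nat_lit 0x1) (nat_lit 103)) (.one (nat_lit 0x700a011013000e014022026540)) (.br (Nat.shiftLeft (nat_lit 0x2002804005) (nat_lit 66)) (.one (nat_lit 0x800a0100130010014020026540)) (.one (nat_lit 0x800a0100140010014020028540))))))
def t215 : k215.all (jb2 57 fl b0) = true := by decide +kernel
noncomputable def k216 : KT := (.br (Nat.shiftLeft (nat_lit 0x400000a011) (nat_lit 76)) (.br (Nat.shiftLeft (nat_lit 0x1) (nat_lit 113)) (.br (Nat.shiftLeft (nat_lit 0x900a011013) (nat_lit 64)) (.br (Nat.shiftLeft (nat_lit 0x9) (nat_lit 100)) (.br (Nat.shiftLeft (nat_lit 0x800a011013) (nat_lit 64)) (.one (nat_lit 0x800a0110120010014022024540)) (.one (nat_lit 0x800a0110130010014022026540))) (.br (Nat.shiftLeft (nat_lit 0x2402804005) (nat_lit 66)) (.one (nat_lit 0x900a0100130012014020026540)) (.br (Nat.shiftLeft (nat_lit 0x900a011) (nat_lit 76)) (.one (nat_lit 0x900a0100140012014020028540)) (.one (nat_lit 0x900a0110120012014022024540))))) (.br (Nat.shiftLeft (nat_lit 0x400002804005)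 (nat_lit 66)) (.br (Nat.shiftLeft (nat_lit 0x1) (nat_lit 112)) (.one (nat_lit 0x900a0110130012014022026540)) (.one (nat_lit 0x100000a0100132000014020026411))) (.br (Nat.shiftLeft (nat_lit 0x100000a011) (nat_lit 76)) (.one (nat_lit 0x100000a0100142000014020028411)) (.br (Nat.shiftLeft (nat_lit 0x100000a011013) (nat_lit 64)) (.one (nat_lit 0x100000a0110122000014022024411)) (.one (nat_lit 0x100000a0110132000014022026411)))))) (.br (Nat.shiftLeft (nat_lit 0xc00002804005) (nat_lit 66)) (.br (Nat.shiftLeft (nat_lit 0x200000a011) (nat_lit 76)) (.br (Nat.shiftLeft (nat_lit 0x800002804005) (nat_lit 66)) (.one (nat_lit 0x200000a0100134000014020026411)) (.one (nat_lit 0x200000a0100144000014020028411))) (.br (Nat.shiftLeft (nat_lit 0x200000a011013) (nat_lit 64)) (.one (nat_lit 0x200000a0110124000014022024411)) (.br (Nat.shiftLeft (nat_lit 0x3) (nat_lit 112)) (.one (nat_lit 0x200000a0110134000014022026411)) (.one (nat_lit 0x300000a0100136000014020026411))))) (.br (Nat.shiftLeft (nat_lit 0x300000a011013)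 (nat_lit 64)) (.br (Nat.shiftLeft (nat_lit 0x300000a011) (nat_lit 76)) (.one (nat_lit 0x300000a0100146000014020028411)) (.one (nat_lit 0x300000a0110126000014022024411))) (.br (Nat.shiftLeft (nat_lit 0x1) (nat_lit 114)) (.one (nat_lit 0x300000a0110136000014022026411)) (.br (Nat.shiftLeft (nat_lit 0x1000002804005) (nat_lit 66)) (.one (nat_lit 0x400000a0100138000014020026411)) (.one (nat_lit 0x400000a0100148000014020028411))))))) (.br (Nat.shiftLeft (nat_lit 0x7) (nat_lit 112)) (.br (Nat.shiftLeft (nat_lit 0x500000a011013) (nat_lit 64)) (.br (Nat.shiftLeft (nat_lit 0x5) (nat_lit 112)) (.br (Nat.shiftLeft (nat_lit 0x400000a011013) (nat_lit 64)) (.one (nat_lit 0x400000a0110128000014022024411)) (.one (nat_lit 0x400000a0110138000014022026411))) (.br (Nat.shiftLeft (nat_lit 0x1400002804005) (nat_lit 66)) (.one (nat_lit 0x500000a010013a000014020026411)) (.br (Nat.shiftLeft (nat_lit 0x500000a011) (nat_lit 76)) (.one (nat_lit 0x500000a010014a000014020028411)) (.one (nat_lit 0x500000a011012a000014022024411)))))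 (.br (Nat.shiftLeft (nat_lit 0x1800002804005) (nat_lit 66)) (.br (Nat.shiftLeft (nat_lit 0x3) (nat_lit 113)) (.one (nat_lit 0x500000a011013a000014022026411)) (.one (nat_lit 0x600000a010013c000014020026411))) (.br (Nat.shiftLeft (nat_lit 0x600000a011) (nat_lit 76)) (.one (nat_lit 0x600000a010014c000014020028411)) (.br (Nat.shiftLeft (nat_lit 0x600000a011013) (nat_lit 64)) (.one (nat_lit 0x600000a011012c000014022024411)) (.one (nat_lit 0x600000a011013c000014022026411)))))) (.br (Nat.shiftLeft (nat_lit 0x2000002804005) (nat_lit 66)) (.br (Nat.shiftLeft (nat_lit 0x700000a011) (nat_lit 76)) (.br (Nat.shiftLeft (nat_lit 0x1c00002804005) (nat_lit 66)) (.one (nat_lit 0x700000a010013e000014020026411)) (.one (nat_lit 0x700000a010014e000014020028411))) (.br (Nat.shiftLeft (nat_lit 0x700000a011013) (nat_lit 64)) (.one (nat_lit 0x700000a011012e000014022024411)) (.br (Nat.shiftLeft (nat_lit 0x1) (nat_lit 115)) (.one (nat_lit 0x700000a011013e000014022026411)) (.one (nat_lit 0x800000a0100130000014020128411)))))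 (.br (Nat.shiftLeft (nat_lit 0x800000a011013) (nat_lit 64)) (.br (Nat.shiftLeft (nat_lit 0x800000a011) (nat_lit 76)) (.one (nat_lit 0x800000a010014000001402012a411)) (.one (nat_lit 0x800000a0110120000014022126411))) (.br (Nat.shiftLeft (nat_lit 0x9) (nat_lit 112)) (.one (nat_lit 0x800000a0110130000014022128411)) (.br (Nat.shiftLeft (nat_lit 0x2400002804005) (nat_lit 66)) (.one (nat_lit 0x900000a0100132000014020128411)) (.one (nat_lit 0x900000a010014200001402012a411))))))))
def t216 : k216.all (jb2 57 fl b0) = true := by decide +kernel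
noncomputable def k217 : KT := (.br (Nat.shiftLeft (nat_lit 0xb) (nat_lit 112)) (.br (Nat.shiftLeft (nat_lit 0x2800002804005) (nat_lit 66)) (.br (Nat.shiftLeft (nat_lit 0x900000a011013) (nat_lit 64)) (.one (nat_lit 0x900000a0110122000014022126411)) (.br (Nat.shiftLeft (nat_lit 0x5) (nat_lit 113)) (.one (nat_lit 0x900000a0110132000014022128411)) (.one (nat_lit 0xa00000a0100134000014020128411)))) (.br (Nat.shiftLeft (nat_lit 0xa00000a011) (nat_lit 76)) (.one (nat_lit 0xa00000a010014400001402012a411)) (.br (Nat.shiftLeft (nat_lit 0xa00000a011013) (nat_lit 64)) (.one (nat_lit 0xa00000a0110124000014022126411)) (.one (nat_lit 0xa00000a0110134000014022128411))))) (.br (Nat.shiftLeft (nat_lit 0xb00000a011013) (nat_lit 64)) (.br (Nat.shiftLeft (nat_lit 0x2c00002804005) (nat_lit 66)) (.one (nat_lit 0xb00000a0100136000014020128411)) (.br (Nat.shiftLeft (nat_lit 0xb00000a011) (nat_lit 76)) (.one (nat_lit 0xb00000a010014600001402012a411)) (.one (nat_lit 0xb00000a0110126000014022126411)))) (.br (Nat.shiftLeft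 (nat_lit 0x3) (nat_lit 114)) (.one (nat_lit 0xb00000a0110136000014022128411)) (.br (Nat.shiftLeft (nat_lit 0xc00000a011) (nat_lit 76)) (.one (nat_lit 0xc00000a0100138000014020128411)) (.one (nat_lit 0xc00000a0110128000014022126411))))))
def t217 : k217.all (jb2 57 fl b0) = true := by decide +kernel
noncomputable def s11 : KT := (.br (nat_lit 0x400a0100130008014020026540) (.br (nat_lit 0x200a0100130004014020026540) k211 (.br (nat_lit 0x300a0100130006014020026540) k212 k213)) (.br (nat_lit 0x800a0100140010014020028540) (.br (nat_lit 0x500a010014000a014020028540) k214 k215) (.br (nat_lit 0x900000a010014200001402012a411) k216 k217)))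
noncomputable def u11 : KT := (.br (Nat.shiftLeft (nat_lit 0xa011013) (nat_lit 64)) (.br (Nat.shiftLeft (nat_lit 0x2804005) (nat_lit 66)) (.one (nat_lit 0xa0100130000014020026430)) (.br (Nat.shiftLeft (nat_lit 0xa011) (nat_lit 76)) (.one (nat_lit 0xa0100140000014020028430)) (.one (nat_lit 0xa0110120000014022024430)))) (.br (Nat.shiftLeft (nat_lit 0xb) (nat_lit 88)) (.one (nat_lit 0xa0110130000014022026430)) (.br (Nat.shiftLeft (nat_lit 0x5806007) (nat_lit 65)) (.one (nat_lit 0xb00c00d000001601801b400)) (.one (nat_lit 0xb00c00e000001601801d400)))))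
def w11 : u11.all (wj 57 s11) = true := by decide +kernel
def o11 : OkW 57 (jb2 57 fl) u11 := .lift s11 _ (.br _ _ _ (.br _ _ _ (.leaf b0 k211 t211) (.br _ _ _ (.leaf b0 k212 t212) (.leaf b0 k213 t213))) (.br _ _ _ (.br _ _ _ (.leaf b0 k214 t214) (.leaf b0 k215 t215)) (.br _ _ _ (.leaf b0 k216 t216) (.leaf b0 k217 t217)))) w11
noncomputable def k218 : KT := (.br (Nat.shiftLeft (nat_lit 0x1) (nat_lit 102)) (.br (Nat.shiftLeft (nat_lit 0x1) (nat_lit 101)) (.br (Nat.shiftLeft (nat_lit 0x1) (nat_lit 100)) (.one (nat_lit 0xb00c00f000001601801f400)) (.one (nat_lit 0x100b00c00f000201601801e540))) (.br (Nat.shiftLeft (nat_lit 0x3) (nat_lit 100)) (.one (nat_lit 0x200b00c00f000401601801f500)) (.one (nat_lit 0x300b00c00f000601601801f500)))) (.br (Nat.shiftLeft (nat_lit 0x3) (nat_lit 101)) (.br (Nat.shiftLeft (nat_lit 0x5) (nat_lit 100)) (.one (nat_lit 0x400b00c00f000801601801f500)) (.one (nat_lit 0x500b00c00f000a01601801f500))) (.br (Nat.shiftLeft (nat_lit 0x7) (nat_lit 100)) (.one (nat_lit 0x600b00c00f000c01601801f500))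 (.br (Nat.shiftLeft (nat_lit 0x1) (nat_lit 103)) (.one (nat_lit 0x700b00c00f000e01601801f500)) (.one (nat_lit 0x800b00c00f001001601801f500))))))
def t218 : k218.all (jb2 57 fl b0) = true := by decide +kernel
noncomputable def k219 : KT := (.one (nat_lit 0x900b00c00f001201601801e540))
def t219 : k219.all (jb2 57 fl b0) = true := by decide +kernel
noncomputable def k220 : KT := (.br (Nat.shiftLeft (nat_lit 0x1) (nat_lit 112)) (.one (nat_lit 0xa00b00c00f001401601801e540)) (.one (nat_lit 0x100000b00c00f200001601801e411)))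
def t220 : k220.all (jb2 57 fl b0) = true := by decide +kernel
noncomputable def k221 : KT := (.one (nat_lit 0x100200b00c00f200401601801e650))
def t221 : k221.all (jb2 57 fl b0) = true := by decide +kernel
noncomputable def k222 : KT := (.one (nat_lit 0x100300b00c00f200601601801e650))
def t222 : k222.all (jb2 57 fl b0) = true := by decide +kernel
noncomputable def k223 : KT := (.br (Nat.shiftLeft (nat_lit 0x1005) (nat_lit 100)) (.one (nat_lit 0x100400b00c00f200801601801e650)) (.one (nat_lit 0x100500b00c00f200a01601801e650)))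
def t223 : k223.all (jb2 57 fl b0) = true := by decide +kernel
noncomputable def k224 : KT := (.br (Nat.shiftLeft (nat_lit 0x201) (nat_lit 103)) (.br (Nat.shiftLeft (nat_lit 0x1007) (nat_lit 100)) (.one (nat_lit 0x100600b00c00f200c01601801e650)) (.one (nat_lit 0x100700b00c00f200e01601801e650))) (.br (Nat.shiftLeft (nat_lit 0x1) (nat_lit 113)) (.one (nat_lit 0x100800b00c00f201001601801e650)) (.br (Nat.shiftLeft (nat_lit 0x1001) (nat_lit 101)) (.one (nat_lit 0x200000b00c00f400001601801e411)) (.one (nat_lit 0x200300b00c00f400601601801f600)))))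
def t224 : k224.all (jb2 57 fl b0) = true := by decide +kernel
noncomputable def k225 : KT := (.one (nat_lit 0x200400b00c00f400801601801e650))
def t225 : k225.all (jb2 57 fl b0) = true := by decide +kernel
noncomputable def k226 : KT := (.br (Nat.shiftLeft (nat_lit 0x1003) (nat_lit 101)) (.one (nat_lit 0x200500b00c00f400a01601801e650)) (.one (nat_lit 0x200600b00c00f400c01601801e650)))
def t226 : k226.all (jb2 57 fl b0) = true := by decide +kernel
noncomputable def k227 : KT := (.br (Nat.shiftLeft (nat_lit 0x401) (nat_lit 103)) (.one (nat_lit 0x200700b00c00f400e01601801e650)) (.br (Nat.shiftLeft (nat_lit 0x3) (nat_lit 112)) (.one (nat_lit 0x200800b00c00f401001601801e650)) (.one (nat_lit 0x300000b00c00f600001601801e411))))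
def t227 : k227.all (jb2 57 fl b0) = true := by decide +kernel
noncomputable def k228 : KT := (.one (nat_lit 0x300400b00c00f600801601801e650))
def t228 : k228.all (jb2 57 fl b0) = true := by decide +kernel
noncomputable def k229 : KT := (.br (Nat.shiftLeft (nat_lit 0x1803) (nat_lit 101)) (.one (nat_lit 0x300500b00c00f600a01601801e650)) (.one (nat_lit 0x300600b00c00f600c01601801e650)))
def t229 : k229.all (jb2 57 fl b0) = true := by decide +kernel
noncomputable def k230 : KT := (.br (Nat.shiftLeft (nat_lit 0x601) (nat_lit 103)) (.one (nat_lit 0x300700b00c00f600e01601801e650)) (.br (Nat.shiftLeft (nat_lit 0x1) (nat_lit 114)) (.one (nat_lit 0x300800b00c00f601001601801e650)) (.one (nat_lit 0x400000b00c00f800001601801e411))))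
def t230 : k230.all (jb2 57 fl b0) = true := by decide +kernel
noncomputable def k231 : KT := (.br (Nat.shiftLeft (nat_lit 0x2003) (nat_lit 101)) (.one (nat_lit 0x400500b00c00f800a01601801e650)) (.one (nat_lit 0x400600b00c00f800c01601801e650)))
def t231 : k231.all (jb2 57 fl b0) = true := by decide +kernel
noncomputable def k232 : KT := (.br (Nat.shiftLeft (nat_lit 0x5) (nat_lit 112)) (.br (Nat.shiftLeft (nat_lit 0x801) (nat_lit 103)) (.one (nat_lit 0x400700b00c00f800e01601801e650)) (.one (nat_lit 0x400800b00c00f801001601801e650))) (.br (Nat.shiftLeft (nat_lit 0x1401) (nat_lit 102)) (.one (nat_lit 0x500000b00c00fa00001601801e411)) (.br (Nat.shiftLeft (nat_lit 0x5007) (nat_lit 100)) (.one (nat_lit 0x500600b00c00fa00c01601801e650)) (.one (nat_lit 0x500700b00c00fa00e01601801e650)))))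
def t232 : k232.all (jb2 57 fl b0) = true := by decide +kernel
noncomputable def k233 : KT := (.br (Nat.shiftLeft (nat_lit 0xb) (nat_lit 112)) (.br (Nat.shiftLeft (nat_lit 0x7) (nat_lit 112)) (.br (Nat.shiftLeft (nat_lit 0x1801) (nat_lit 102)) (.br (Nat.shiftLeft (nat_lit 0x3) (nat_lit 113)) (.one (nat_lit 0x500800b00c00fa01001601801e650)) (.one (nat_lit 0x600000b00c00fc00001601801e411))) (.br (Nat.shiftLeft (nat_lit 0xc01) (nat_lit 103)) (.one (nat_lit 0x600700b00c00fc00e01601801e650)) (.one (nat_lit 0x600800b00c00fc01001601801e650)))) (.br (Nat.shiftLeft (nat_lit 0x1) (nat_lit 115)) (.br (Nat.shiftLeft (nat_lit 0xe01) (nat_lit 103)) (.one (nat_lit 0x700000b00c00fe00001601801e411)) (.one (nat_lit 0x700800b00c00fe01001601801e650))) (.br (Nat.shiftLeft (nat_lit 0x9) (nat_lit 112)) (.one (nat_lit 0x800000b00c00f0000016018120411)) (.br (Nat.shiftLeft (nat_lit 0x5) (nat_lit 113)) (.one (nat_lit 0x900000b00c00f2000016018120411)) (.one (nat_lit 0xa00000b00c00f4000016018120411)))))) (.br (Nat.shiftLeft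 (nat_lit 0x400001) (nat_lit 102)) (.br (Nat.shiftLeft (nat_lit 0x1) (nat_lit 124)) (.br (Nat.shiftLeft (nat_lit 0x3) (nat_lit 114)) (.one (nat_lit 0xb00000b00c00f6000016018120411)) (.one (nat_lit 0xc00000b00c00f8000016018120411))) (.br (Nat.shiftLeft (nat_lit 0x1000003) (nat_lit 100)) (.one (nat_lit 0x100000200b00c00f000401603841e511)) (.one (nat_lit 0x100000300b00c00f000601603841e511)))) (.br (Nat.shiftLeft (nat_lit 0x800003) (nat_lit 101)) (.br (Nat.shiftLeft (nat_lit 0x1000005) (nat_lit 100)) (.one (nat_lit 0x100000400b00c00f000801603841e511)) (.one (nat_lit 0x100000500b00c00f000a01603841e511))) (.br (Nat.shiftLeft (nat_lit 0x1000007) (nat_lit 100)) (.one (nat_lit 0x100000600b00c00f000c01603841e511)) (.br (Nat.shiftLeft (nat_lit 0x200001) (nat_lit 103)) (.one (nat_lit 0x100000700b00c00f000e01603841e511)) (.one (nat_lit 0x100000800b00c00f001001603841e511)))))))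
def t233 : k233.all (jb2 57 fl b0) = true := by decide +kernel
noncomputable def k234 : KT := (.br (Nat.shiftLeft (nat_lit 0xc00001) (nat_lit 102)) (.br (Nat.shiftLeft (nat_lit 0x1000003) (nat_lit 101)) (.br (Nat.shiftLeft (nat_lit 0x2000003) (nat_lit 100)) (.br (Nat.shiftLeft (nat_lit 0x1) (nat_lit 125)) (.one (nat_lit 0x100200300b00c00f400601603841e760)) (.one (nat_lit 0x200000200b00c00f000401605881e511))) (.br (Nat.shiftLeft (nat_lit 0x800001) (nat_lit 102)) (.one (nat_lit 0x200000300b00c00f000601605881e511)) (.br (Nat.shiftLeft (nat_lit 0x2000005) (nat_lit 100)) (.one (nat_lit 0x200000400b00c00f000801605881e511)) (.one (nat_lit 0x200000500b00c00f000a01605881e511))))) (.br (Nat.shiftLeft (nat_lit 0x400001) (nat_lit 103)) (.br (Nat.shiftLeft (nat_lit 0x2000007) (nat_lit 100)) (.one (nat_lit 0x200000600b00c00f000c01605881e511)) (.one (nat_lit 0x200000700b00c00f000e01605881e511))) (.br (Nat.shiftLeft (nat_lit 0x3) (nat_lit 124)) (.one (nat_lit 0x200000800b00c00f001001605881e511)) (.br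 (Nat.shiftLeft (nat_lit 0x3000003) (nat_lit 100)) (.one (nat_lit 0x300000200b00c00f0004016078c1e511)) (.one (nat_lit 0x300000300b00c00f0006016078c1e511)))))) (.br (Nat.shiftLeft (nat_lit 0x1) (nat_lit 126)) (.br (Nat.shiftLeft (nat_lit 0x1800003) (nat_lit 101)) (.br (Nat.shiftLeft (nat_lit 0x3000005) (nat_lit 100)) (.one (nat_lit 0x300000400b00c00f0008016078c1e511)) (.one (nat_lit 0x300000500b00c00f000a016078c1e511))) (.br (Nat.shiftLeft (nat_lit 0x3000007) (nat_lit 100)) (.one (nat_lit 0x300000600b00c00f000c016078c1e511)) (.br (Nat.shiftLeft (nat_lit 0x600001) (nat_lit 103)) (.one (nat_lit 0x300000700b00c00f000e016078c1e511)) (.one (nat_lit 0x300000800b00c00f0010016078c1e511))))) (.br (Nat.shiftLeft (nat_lit 0x4000005) (nat_lit 100)) (.br (Nat.shiftLeft (nat_lit 0x4000003) (nat_lit 100)) (.one (nat_lit 0x400000200b00c00f000401609901e511)) (.br (Nat.shiftLeft (nat_lit 0x1000001) (nat_lit 102)) (.one (nat_lit 0x400000300b00c00f000601609901e511)) (.one (nat_lit 0x400000400b00c00f000801609901e511))))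 (.br (Nat.shiftLeft (nat_lit 0x2000003) (nat_lit 101)) (.one (nat_lit 0x400000500b00c00f000a01609901e511)) (.br (Nat.shiftLeft (nat_lit 0x4000007) (nat_lit 100)) (.one (nat_lit 0x400000600b00c00f000c01609901e511)) (.one (nat_lit 0x400000700b00c00f000e01609901e511)))))))
def t234 : k234.all (jb2 57 fl b0) = true := by decide +kernel
noncomputable def k235 : KT := (.br (Nat.shiftLeft (nat_lit 0x5000005) (nat_lit 100)) (.br (Nat.shiftLeft (nat_lit 0x5000003) (nat_lit 100)) (.br (Nat.shiftLeft (nat_lit 0x5) (nat_lit 124)) (.one (nat_lit 0x400000800b00c00f001001609901e511)) (.one (nat_lit 0x500000200b00c00f00040160b941e511))) (.br (Nat.shiftLeft (nat_lit 0x1400001) (nat_lit 102)) (.one (nat_lit 0x500000300b00c00f00060160b941e511)) (.one (nat_lit 0x500000400b00c00f00080160b941e511)))) (.br (Nat.shiftLeft (nat_lit 0x5000007) (nat_lit 100)) (.br (Nat.shiftLeft (nat_lit 0x2800003) (nat_lit 101)) (.one (nat_lit 0x500000500b00c00f000a0160b941e511)) (.one (nat_lit 0x500000600b00c00f000c0160b941e511)))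 (.br (Nat.shiftLeft (nat_lit 0xa00001) (nat_lit 103)) (.one (nat_lit 0x500000700b00c00f000e0160b941e511)) (.br (Nat.shiftLeft (nat_lit 0x3) (nat_lit 125)) (.one (nat_lit 0x500000800b00c00f00100160b941e511)) (.one (nat_lit 0x600000200b00c00f00040160d981e511))))))
def t235 : k235.all (jb2 57 fl b0) = true := by decide +kernel
noncomputable def k236 : KT := (.br (Nat.shiftLeft (nat_lit 0x6000007) (nat_lit 100)) (.br (Nat.shiftLeft (nat_lit 0x6000005) (nat_lit 100)) (.br (Nat.shiftLeft (nat_lit 0x1800001) (nat_lit 102)) (.one (nat_lit 0x600000300b00c00f00060160d981e511)) (.one (nat_lit 0x600000400b00c00f00080160d981e511))) (.br (Nat.shiftLeft (nat_lit 0x3000003) (nat_lit 101)) (.one (nat_lit 0x600000500b00c00f000a0160d981e511)) (.one (nat_lit 0x600000600b00c00f000c0160d981e511)))) (.br (Nat.shiftLeft (nat_lit 0x7) (nat_lit 124)) (.br (Nat.shiftLeft (nat_lit 0xc00001) (nat_lit 103)) (.one (nat_lit 0x600000700b00c00f000e0160d981e511)) (.one (nat_lit 0x600000800b00c00f00100160d981e511))) (.br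 (Nat.shiftLeft (nat_lit 0x7000003) (nat_lit 100)) (.one (nat_lit 0x700000200b00c00f00040160f9c1e511)) (.br (Nat.shiftLeft (nat_lit 0x1c00001) (nat_lit 102)) (.one (nat_lit 0x700000300b00c00f00060160f9c1e511)) (.one (nat_lit 0x700000400b00c00f00080160f9c1e511))))))
def t236 : k236.all (jb2 57 fl b0) = true := by decide +kernel
noncomputable def k237 : KT := (.br (Nat.shiftLeft (nat_lit 0x4000003) (nat_lit 101)) (.br (Nat.shiftLeft (nat_lit 0x1) (nat_lit 127)) (.br (Nat.shiftLeft (nat_lit 0x7000007) (nat_lit 100)) (.br (Nat.shiftLeft (nat_lit 0x3800003) (nat_lit 101)) (.one (nat_lit 0x700000500b00c00f000a0160f9c1e511)) (.one (nat_lit 0x700000600b00c00f000c0160f9c1e511))) (.br (Nat.shiftLeft (nat_lit 0xe00001) (nat_lit 103)) (.one (nat_lit 0x700000700b00c00f000e0160f9c1e511)) (.one (nat_lit 0x700000800b00c00f00100160f9c1e511)))) (.br (Nat.shiftLeft (nat_lit 0x2000001) (nat_lit 102)) (.br (Nat.shiftLeft (nat_lit 0x8000003) (nat_lit 100)) (.one (nat_lit 0x800000200b00c00f000401611a01e511))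 (.one (nat_lit 0x800000300b00c00f000601611a01e511))) (.br (Nat.shiftLeft (nat_lit 0x8000005) (nat_lit 100)) (.one (nat_lit 0x800000400b00c00f000801611a01e511)) (.one (nat_lit 0x800000500b00c00f000a01611a01e511))))) (.br (Nat.shiftLeft (nat_lit 0x9000003) (nat_lit 100)) (.br (Nat.shiftLeft (nat_lit 0x1000001) (nat_lit 103)) (.br (Nat.shiftLeft (nat_lit 0x8000007) (nat_lit 100)) (.one (nat_lit 0x800000600b00c00f000c01611a01e511)) (.one (nat_lit 0x800000700b00c00f000e01611a01e511))) (.br (Nat.shiftLeft (nat_lit 0x9) (nat_lit 124)) (.one (nat_lit 0x800000800b00c00f001001611a01e511)) (.one (nat_lit 0x900000200b00c00f000401613a41e511)))) (.br (Nat.shiftLeft (nat_lit 0x9000005) (nat_lit 100)) (.br (Nat.shiftLeft (nat_lit 0x2400001) (nat_lit 102)) (.one (nat_lit 0x900000300b00c00f000601613a41e511)) (.one (nat_lit 0x900000400b00c00f000801613a41e511))) (.br (Nat.shiftLeft (nat_lit 0x4800003) (nat_lit 101)) (.one (nat_lit 0x900000500b00c00f000a01613a41e511)) (.one (nat_lit 0x900000600b00c00f000c01613a41e511))))))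
def t237 : k237.all (jb2 57 fl b0) = true := by decide +kernel
noncomputable def k238 : KT := (.br (Nat.shiftLeft (nat_lit 0x1600001) (nat_lit 103)) (.br (Nat.shiftLeft (nat_lit 0xa000007) (nat_lit 100)) (.br (Nat.shiftLeft (nat_lit 0xa000003) (nat_lit 100)) (.br (Nat.shiftLeft (nat_lit 0x1200001) (nat_lit 103)) (.one (nat_lit 0x900000700b00c00f000e01613a41e511)) (.br (Nat.shiftLeft (nat_lit 0x5) (nat_lit 125)) (.one (nat_lit 0x900000800b00c00f001001613a41e511)) (.one (nat_lit 0xa00000200b00c00f000401615a81e511)))) (.br (Nat.shiftLeft (nat_lit 0xa000005) (nat_lit 100)) (.br (Nat.shiftLeft (nat_lit 0x2800001) (nat_lit 102)) (.one (nat_lit 0xa00000300b00c00f000601615a81e511)) (.one (nat_lit 0xa00000400b00c00f000801615a81e511))) (.br (Nat.shiftLeft (nat_lit 0x5000003) (nat_lit 101)) (.one (nat_lit 0xa00000500b00c00f000a01615a81e511)) (.one (nat_lit 0xa00000600b00c00f000c01615a81e511))))) (.br (Nat.shiftLeft (nat_lit 0x2c00001) (nat_lit 102)) (.br (Nat.shiftLeft (nat_lit 0xb) (nat_lit 124))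 (.br (Nat.shiftLeft (nat_lit 0x1400001) (nat_lit 103)) (.one (nat_lit 0xa00000700b00c00f000e01615a81e511)) (.one (nat_lit 0xa00000800b00c00f001001615a81e511))) (.br (Nat.shiftLeft (nat_lit 0xb000003) (nat_lit 100)) (.one (nat_lit 0xb00000200b00c00f000401617ac1e511)) (.one (nat_lit 0xb00000300b00c00f000601617ac1e511)))) (.br (Nat.shiftLeft (nat_lit 0x5800003) (nat_lit 101)) (.br (Nat.shiftLeft (nat_lit 0xb000005) (nat_lit 100)) (.one (nat_lit 0xb00000400b00c00f000801617ac1e511)) (.one (nat_lit 0xb00000500b00c00f000a01617ac1e511))) (.br (Nat.shiftLeft (nat_lit 0xb000007) (nat_lit 100)) (.one (nat_lit 0xb00000600b00c00f000c01617ac1e511)) (.one (nat_lit 0xb00000700b00c00f000e01617ac1e511)))))) (.br (Nat.shiftLeft (nat_lit 0x1) (nat_lit 136)) (.br (Nat.shiftLeft (nat_lit 0x3000001) (nat_lit 102)) (.br (Nat.shiftLeft (nat_lit 0x3) (nat_lit 126)) (.one (nat_lit 0xb00000800b00c00f001001617ac1e511)) (.br (Nat.shiftLeft (nat_lit 0xc000003) (nat_lit 100)) (.one (nat_lit 0xc00000200b00c00f000401619b01e511))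 (.one (nat_lit 0xc00000300b00c00f000601619b01e511)))) (.br (Nat.shiftLeft (nat_lit 0x6000003) (nat_lit 101)) (.br (Nat.shiftLeft (nat_lit 0xc000005) (nat_lit 100)) (.one (nat_lit 0xc00000400b00c00f000801619b01e511)) (.one (nat_lit 0xc00000500b00c00f000a01619b01e511))) (.br (Nat.shiftLeft (nat_lit 0xc000007) (nat_lit 100)) (.one (nat_lit 0xc00000600b00c00f000c01619b01e511)) (.one (nat_lit 0xc00000700b00c00f000e01619b01e511))))) (.br (Nat.shiftLeft (nat_lit 0x5) (nat_lit 136)) (.br (Nat.shiftLeft (nat_lit 0x3) (nat_lit 136)) (.br (Nat.shiftLeft (nat_lit 0x1) (nat_lit 137)) (.one (nat_lit 0x100000200300b00c00f400603641801e611)) (.one (nat_lit 0x200000200300b00c00f400605681801e611))) (.br (Nat.shiftLeft (nat_lit 0x1) (nat_lit 138)) (.one (nat_lit 0x300000200300b00c00f4006076c1801e611)) (.one (nat_lit 0x400000200300b00c00f400609701801e611)))) (.br (Nat.shiftLeft (nat_lit 0x7) (nat_lit 136)) (.br (Nat.shiftLeft (nat_lit 0x3) (nat_lit 137)) (.one (nat_lit 0x500000200300b00c00f40060b741801e611))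 (.one (nat_lit 0x600000200300b00c00f40060d781801e611))) (.br (Nat.shiftLeft (nat_lit 0x1) (nat_lit 139)) (.one (nat_lit 0x700000200300b00c00f40060f7c1801e611)) (.one (nat_lit 0x800000200300b00c00f400611801801e611)))))))
def t238 : k238.all (jb2 57 fl b0) = true := by decide +kernel
noncomputable def k239 : KT := (.br (Nat.shiftLeft (nat_lit 0xb) (nat_lit 136)) (.br (Nat.shiftLeft (nat_lit 0x5) (nat_lit 137)) (.one (nat_lit 0x900000200300b00c00f400613841801e611)) (.one (nat_lit 0xa00000200300b00c00f400615881801e611))) (.br (Nat.shiftLeft (nat_lit 0x3) (nat_lit 138)) (.one (nat_lit 0xb00000200300b00c00f4006178c1801e611)) (.one (nat_lit 0xc00000200300b00c00f400619901801e611))))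
def t239 : k239.all (jb2 57 fl b0) = true := by decide +kernel
noncomputable def s12 : KT := (.br (nat_lit 0x300400b00c00f600801601801e650) (.br (nat_lit 0x100300b00c00f200601601801e650) (.br (nat_lit 0x900b00c00f001201601801e540) (.br (nat_lit 0x800b00c00f001001601801f500) k218 k219) (.br (nat_lit 0x100000b00c00f200001601801e411) k220 (.br (nat_lit 0x100200b00c00f200401601801e650) k221 k222))) (.br (nat_lit 0x200400b00c00f400801601801e650) (.br (nat_lit 0x100500b00c00f200a01601801e650) k223 (.br (nat_lit 0x200300b00c00f400601601801f600) k224 k225)) (.br (nat_lit 0x200600b00c00f400c01601801e650) k226 (.br (nat_lit 0x300000b00c00f600001601801e411) k227 k228)))) (.br (nat_lit 0x100000800b00c00f001001603841e511) (.br (nat_lit 0x400000b00c00f800001601801e411) (.br (nat_lit 0x300600b00c00f600c01601801e650) k229 k230) (.br (nat_lit 0x400600b00c00f800c01601801e650) k231 (.br (nat_lit 0x500700b00c00fa00e01601801e650) k232 k233))) (.br (nat_lit 0x700000400b00c00f00080160f9c1e511) (.br (nat_lit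 0x400000700b00c00f000e01609901e511) k234 (.br (nat_lit 0x600000200b00c00f00040160d981e511) k235 k236)) (.br (nat_lit 0x900000600b00c00f000c01613a41e511) k237 (.br (nat_lit 0x800000200300b00c00f400611801801e611) k238 k239)))))
noncomputable def u12 : KT := (.one (nat_lit 0xb00c00f000001601801e430))
def w12 : u12.all (wj 57 s12) = true := by decide +kernel
def o12 : OkW 57 (jb2 57 fl) u12 := .lift s12 _ (.br _ _ _ (.br _ _ _ (.br _ _ _ (.br _ _ _ (.leaf b0 k218 t218) (.leaf b0 k219 t219)) (.br _ _ _ (.leaf b0 k220 t220) (.br _ _ _ (.leaf b0 k221 t221) (.leaf b0 k222 t222)))) (.br _ _ _ (.br _ _ _ (.leaf b0 k223 t223) (.br _ _ _ (.leaf b0 k224 t224) (.leaf b0 k225 t225))) (.br _ _ _ (.leaf b0 k226 t226) (.br _ _ _ (.leaf b0 k227 t227) (.leaf b0 k228 t228))))) (.br _ _ _ (.br _ _ _ (.br _ _ _ (.leaf b0 k229 t229) (.leaf b0 k230 t230)) (.br _ _ _ (.leaf b0 k231 t231) (.br _ _ _ (.leaf b0 k232 t232) (.leaf b0 k233 t233)))) (.br _ _ _ (.br _ _ _ (.leaf b0 k234 t234) (.br _ _ _ (.leaf b0 k235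 t235) (.leaf b0 k236 t236))) (.br _ _ _ (.leaf b0 k237 t237) (.br _ _ _ (.leaf b0 k238 t238) (.leaf b0 k239 t239)))))) w12
noncomputable def k240 : KT := (.br (Nat.shiftLeft (nat_lit 0x1) (nat_lit 102)) (.br (Nat.shiftLeft (nat_lit 0x1) (nat_lit 101)) (.br (Nat.shiftLeft (nat_lit 0x1) (nat_lit 100)) (.one (nat_lit 0xb00c0100000016018021400)) (.one (nat_lit 0x100b00c0100002016018020540))) (.br (Nat.shiftLeft (nat_lit 0x3) (nat_lit 100)) (.one (nat_lit 0x200b00c0100004016018021500)) (.one (nat_lit 0x300b00c0100006016018021500)))) (.br (Nat.shiftLeft (nat_lit 0x3) (nat_lit 101)) (.br (Nat.shiftLeft (nat_lit 0x5) (nat_lit 100)) (.one (nat_lit 0x400b00c0100008016018021500)) (.one (nat_lit 0x500b00c010000a016018021500))) (.br (Nat.shiftLeft (nat_lit 0x7) (nat_lit 100)) (.one (nat_lit 0x600b00c010000c016018021500)) (.one (nat_lit 0x700b00c010000e016018021500)))))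
def t240 : k240.all (jb2 57 fl b0) = true := by decide +kernel
noncomputable def k241 : KT := (.one (nat_lit 0x800b00c0100010016018020540))
def t241 : k241.all (jb2 57 fl b0) = true := by decide +kernel
noncomputable def k242 : KT := (.br (Nat.shiftLeft (nat_lit 0x5) (nat_lit 101)) (.one (nat_lit 0x900b00c0100012016018020540)) (.br (Nat.shiftLeft (nat_lit 0x1) (nat_lit 112)) (.one (nat_lit 0xa00b00c0100014016018020540)) (.one (nat_lit 0x100000b00c0102000016018020411))))
def t242 : k242.all (jb2 57 fl b0) = true := by decide +kernel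
noncomputable def k243 : KT := (.one (nat_lit 0x100200b00c0102004016018020650))
def t243 : k243.all (jb2 57 fl b0) = true := by decide +kernel
noncomputable def k244 : KT := (.br (Nat.shiftLeft (nat_lit 0x401) (nat_lit 102)) (.one (nat_lit 0x100300b00c0102006016018020650)) (.one (nat_lit 0x100400b00c0102008016018020650)))
def t244 : k244.all (jb2 57 fl b0) = true := by decide +kernel
noncomputable def k245 : KT := (.br (Nat.shiftLeft (nat_lit 0x1007) (nat_lit 100)) (.br (Nat.shiftLeft (nat_lit 0x803) (nat_lit 101)) (.one (nat_lit 0x100500b00c010200a016018020650)) (.one (nat_lit 0x100600b00c010200c016018020650))) (.br (Nat.shiftLeft (nat_lit 0x1) (nat_lit 113)) (.one (nat_lit 0x100700b00c010200e016018020650)) (.one (nat_lit 0x200000b00c0104000016018020411))))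
def t245 : k245.all (jb2 57 fl b0) = true := by decide +kernel
noncomputable def k246 : KT := (.one (nat_lit 0x200300b00c0104006016018020650))
def t246 : k246.all (jb2 57 fl b0) = true := by decide +kernel
noncomputable def k247 : KT := (.br (Nat.shiftLeft (nat_lit 0x2005) (nat_lit 100)) (.one (nat_lit 0x200400b00c0104008016018020650)) (.one (nat_lit 0x200500b00c010400a016018020650)))
def t247 : k247.all (jb2 57 fl b0) = true := by decide +kernel
noncomputable def k248 : KT := (.br (Nat.shiftLeft (nat_lit 0x2007) (nat_lit 100)) (.one (nat_lit 0x200600b00c010400c016018020650)) (.br (Nat.shiftLeft (nat_lit 0x3) (nat_lit 112)) (.one (nat_lit 0x200700b00c010400e016018020650)) (.one (nat_lit 0x300000b00c0106000016018020411))))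
def t248 : k248.all (jb2 57 fl b0) = true := by decide +kernel
noncomputable def k249 : KT := (.br (Nat.shiftLeft (nat_lit 0x3005) (nat_lit 100)) (.one (nat_lit 0x300400b00c0106008016018020650)) (.one (nat_lit 0x300500b00c010600a016018020650)))
def t249 : k249.all (jb2 57 fl b0) = true := by decide +kernel
noncomputable def k250 : KT := (.br (Nat.shiftLeft (nat_lit 0x1) (nat_lit 114)) (.br (Nat.shiftLeft (nat_lit 0x3007) (nat_lit 100)) (.one (nat_lit 0x300600b00c010600c016018020650)) (.one (nat_lit 0x300700b00c010600e016018020650))) (.br (Nat.shiftLeft (nat_lit 0x1001) (nat_lit 102)) (.one (nat_lit 0x400000b00c0108000016018020411)) (.one (nat_lit 0x400500b00c010800a016018020650))))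
def t250 : k250.all (jb2 57 fl b0) = true := by decide +kernel
noncomputable def k251 : KT := (.br (Nat.shiftLeft (nat_lit 0x5007) (nat_lit 100)) (.br (Nat.shiftLeft (nat_lit 0x5) (nat_lit 112)) (.br (Nat.shiftLeft (nat_lit 0x4007) (nat_lit 100)) (.one (nat_lit 0x400600b00c010800c016018020650)) (.one (nat_lit 0x400700b00c010800e016018020650))) (.br (Nat.shiftLeft (nat_lit 0x1401) (nat_lit 102)) (.one (nat_lit 0x500000b00c010a000016018020411)) (.one (nat_lit 0x500600b00c010a00c016018020650)))) (.br (Nat.shiftLeft (nat_lit 0x1801) (nat_lit 102)) (.br (Nat.shiftLeft (nat_lit 0x3) (nat_lit 113)) (.one (nat_lit 0x500700b00c010a00e016018020650)) (.one (nat_lit 0x600000b00c010c000016018020411))) (.br (Nat.shiftLeft (nat_lit 0x7) (nat_lit 112)) (.one (nat_lit 0x600700b00c010c00e016018020650)) (.br (Nat.shiftLeft (nat_lit 0x1) (nat_lit 115)) (.one (nat_lit 0x700000b00c010e000016018020411)) (.one (nat_lit 0x800000b00c0100000016018122411))))))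
def t251 : k251.all (jb2 57 fl b0) = true := by decide +kernel
noncomputable def k252 : KT := (.br (Nat.shiftLeft (nat_lit 0x2000007) (nat_lit 100)) (.br (Nat.shiftLeft (nat_lit 0x1000005) (nat_lit 100)) (.br (Nat.shiftLeft (nat_lit 0x3) (nat_lit 114)) (.br (Nat.shiftLeft (nat_lit 0x5) (nat_lit 113)) (.one (nat_lit 0x900000b00c0102000016018122411)) (.br (Nat.shiftLeft (nat_lit 0xb) (nat_lit 112)) (.one (nat_lit 0xa00000b00c0104000016018122411)) (.one (nat_lit 0xb00000b00c0106000016018122411)))) (.br (Nat.shiftLeft (nat_lit 0x1000003) (nat_lit 100)) (.br (Nat.shiftLeft (nat_lit 0x1) (nat_lit 124)) (.one (nat_lit 0xc00000b00c0108000016018122411)) (.one (nat_lit 0x100000200b00c0100004016038420511))) (.br (Nat.shiftLeft (nat_lit 0x400001) (nat_lit 102)) (.one (nat_lit 0x100000300b00c0100006016038420511)) (.one (nat_lit 0x100000400b00c0100008016038420511))))) (.br (Nat.shiftLeft (nat_lit 0x2000003) (nat_lit 100)) (.br (Nat.shiftLeft (nat_lit 0x1000007) (nat_lit 100)) (.br (Nat.shiftLeft (nat_lit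 0x800003) (nat_lit 101)) (.one (nat_lit 0x100000500b00c010000a016038420511)) (.one (nat_lit 0x100000600b00c010000c016038420511))) (.br (Nat.shiftLeft (nat_lit 0x1) (nat_lit 125)) (.one (nat_lit 0x100000700b00c010000e016038420511)) (.one (nat_lit 0x200000200b00c0100004016058820511)))) (.br (Nat.shiftLeft (nat_lit 0x2000005) (nat_lit 100)) (.br (Nat.shiftLeft (nat_lit 0x800001) (nat_lit 102)) (.one (nat_lit 0x200000300b00c0100006016058820511)) (.one (nat_lit 0x200000400b00c0100008016058820511))) (.br (Nat.shiftLeft (nat_lit 0x1000003) (nat_lit 101)) (.one (nat_lit 0x200000500b00c010000a016058820511)) (.one (nat_lit 0x200000600b00c010000c016058820511)))))) (.br (Nat.shiftLeft (nat_lit 0x1) (nat_lit 126)) (.br (Nat.shiftLeft (nat_lit 0xc00001) (nat_lit 102)) (.br (Nat.shiftLeft (nat_lit 0x3) (nat_lit 124)) (.one (nat_lit 0x200000700b00c010000e016058820511)) (.br (Nat.shiftLeft (nat_lit 0x3000003) (nat_lit 100)) (.one (nat_lit 0x300000200b00c0100004016078c20511)) (.one (nat_lit 0x300000300b00c0100006016078c20511))))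 (.br (Nat.shiftLeft (nat_lit 0x1800003) (nat_lit 101)) (.br (Nat.shiftLeft (nat_lit 0x3000005) (nat_lit 100)) (.one (nat_lit 0x300000400b00c0100008016078c20511)) (.one (nat_lit 0x300000500b00c010000a016078c20511))) (.br (Nat.shiftLeft (nat_lit 0x3000007) (nat_lit 100)) (.one (nat_lit 0x300000600b00c010000c016078c20511)) (.one (nat_lit 0x300000700b00c010000e016078c20511))))) (.br (Nat.shiftLeft (nat_lit 0x2000003) (nat_lit 101)) (.br (Nat.shiftLeft (nat_lit 0x1000001) (nat_lit 102)) (.br (Nat.shiftLeft (nat_lit 0x4000003) (nat_lit 100)) (.one (nat_lit 0x400000200b00c0100004016099020511)) (.one (nat_lit 0x400000300b00c0100006016099020511))) (.br (Nat.shiftLeft (nat_lit 0x4000005) (nat_lit 100)) (.one (nat_lit 0x400000400b00c0100008016099020511)) (.one (nat_lit 0x400000500b00c010000a016099020511)))) (.br (Nat.shiftLeft (nat_lit 0x5) (nat_lit 124)) (.br (Nat.shiftLeft (nat_lit 0x4000007) (nat_lit 100)) (.one (nat_lit 0x400000600b00c010000c016099020511)) (.one (nat_lit 0x400000700b00c010000e016099020511)))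 (.br (Nat.shiftLeft (nat_lit 0x5000003) (nat_lit 100)) (.one (nat_lit 0x500000200b00c01000040160b9420511)) (.one (nat_lit 0x500000300b00c01000060160b9420511)))))))
def t252 : k252.all (jb2 57 fl b0) = true := by decide +kernel
noncomputable def k253 : KT := (.br (Nat.shiftLeft (nat_lit 0x6000003) (nat_lit 100)) (.br (Nat.shiftLeft (nat_lit 0x2800003) (nat_lit 101)) (.br (Nat.shiftLeft (nat_lit 0x5000005) (nat_lit 100)) (.one (nat_lit 0x500000400b00c01000080160b9420511)) (.one (nat_lit 0x500000500b00c010000a0160b9420511))) (.br (Nat.shiftLeft (nat_lit 0x5000007) (nat_lit 100)) (.one (nat_lit 0x500000600b00c010000c0160b9420511)) (.br (Nat.shiftLeft (nat_lit 0x3) (nat_lit 125)) (.one (nat_lit 0x500000700b00c010000e0160b9420511)) (.one (nat_lit 0x600000200b00c01000040160d9820511))))) (.br (Nat.shiftLeft (nat_lit 0x3000003) (nat_lit 101)) (.br (Nat.shiftLeft (nat_lit 0x1800001) (nat_lit 102)) (.one (nat_lit 0x600000300b00c01000060160d9820511)) (.br (Nat.shiftLeft (nat_lit 0x6000005) (nat_lit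 100)) (.one (nat_lit 0x600000400b00c01000080160d9820511)) (.one (nat_lit 0x600000500b00c010000a0160d9820511)))) (.br (Nat.shiftLeft (nat_lit 0x6000007) (nat_lit 100)) (.one (nat_lit 0x600000600b00c010000c0160d9820511)) (.br (Nat.shiftLeft (nat_lit 0x7) (nat_lit 124)) (.one (nat_lit 0x600000700b00c010000e0160d9820511)) (.one (nat_lit 0x700000200b00c01000040160f9c20511))))))
def t253 : k253.all (jb2 57 fl b0) = true := by decide +kernel
noncomputable def k254 : KT := (.br (Nat.shiftLeft (nat_lit 0x9) (nat_lit 124)) (.br (Nat.shiftLeft (nat_lit 0x1) (nat_lit 127)) (.br (Nat.shiftLeft (nat_lit 0x7000005) (nat_lit 100)) (.br (Nat.shiftLeft (nat_lit 0x1c00001) (nat_lit 102)) (.one (nat_lit 0x700000300b00c01000060160f9c20511)) (.one (nat_lit 0x700000400b00c01000080160f9c20511))) (.br (Nat.shiftLeft (nat_lit 0x3800003) (nat_lit 101)) (.one (nat_lit 0x700000500b00c010000a0160f9c20511)) (.br (Nat.shiftLeft (nat_lit 0x7000007) (nat_lit 100)) (.one (nat_lit 0x700000600b00c010000c0160f9c20511)) (.one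 (nat_lit 0x700000700b00c010000e0160f9c20511))))) (.br (Nat.shiftLeft (nat_lit 0x8000005) (nat_lit 100)) (.br (Nat.shiftLeft (nat_lit 0x8000003) (nat_lit 100)) (.one (nat_lit 0x800000200b00c010000401611a020511)) (.br (Nat.shiftLeft (nat_lit 0x2000001) (nat_lit 102)) (.one (nat_lit 0x800000300b00c010000601611a020511)) (.one (nat_lit 0x800000400b00c010000801611a020511)))) (.br (Nat.shiftLeft (nat_lit 0x4000003) (nat_lit 101)) (.one (nat_lit 0x800000500b00c010000a01611a020511)) (.br (Nat.shiftLeft (nat_lit 0x8000007) (nat_lit 100)) (.one (nat_lit 0x800000600b00c010000c01611a020511)) (.one (nat_lit 0x800000700b00c010000e01611a020511)))))) (.br (Nat.shiftLeft (nat_lit 0x9000007) (nat_lit 100)) (.br (Nat.shiftLeft (nat_lit 0x2400001) (nat_lit 102)) (.br (Nat.shiftLeft (nat_lit 0x9000003) (nat_lit 100)) (.one (nat_lit 0x900000200b00c010000401613a420511)) (.one (nat_lit 0x900000300b00c010000601613a420511))) (.br (Nat.shiftLeft (nat_lit 0x9000005) (nat_lit 100)) (.one (nat_lit 0x900000400b00c010000801613a420511))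 (.br (Nat.shiftLeft (nat_lit 0x4800003) (nat_lit 101)) (.one (nat_lit 0x900000500b00c010000a01613a420511)) (.one (nat_lit 0x900000600b00c010000c01613a420511))))) (.br (Nat.shiftLeft (nat_lit 0x2800001) (nat_lit 102)) (.br (Nat.shiftLeft (nat_lit 0x5) (nat_lit 125)) (.one (nat_lit 0x900000700b00c010000e01613a420511)) (.br (Nat.shiftLeft (nat_lit 0xa000003) (nat_lit 100)) (.one (nat_lit 0xa00000200b00c010000401615a820511)) (.one (nat_lit 0xa00000300b00c010000601615a820511)))) (.br (Nat.shiftLeft (nat_lit 0xa000005) (nat_lit 100)) (.one (nat_lit 0xa00000400b00c010000801615a820511)) (.br (Nat.shiftLeft (nat_lit 0x5000003) (nat_lit 101)) (.one (nat_lit 0xa00000500b00c010000a01615a820511)) (.one (nat_lit 0xa00000600b00c010000c01615a820511)))))))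
def t254 : k254.all (jb2 57 fl b0) = true := by decide +kernel
noncomputable def k255 : KT := (.br (Nat.shiftLeft (nat_lit 0xb000007) (nat_lit 100)) (.br (Nat.shiftLeft (nat_lit 0x2c00001) (nat_lit 102)) (.br (Nat.shiftLeft (nat_lit 0xb) (nat_lit 124)) (.one (nat_lit 0xa00000700b00c010000e01615a820511)) (.br (Nat.shiftLeft (nat_lit 0xb000003) (nat_lit 100)) (.one (nat_lit 0xb00000200b00c010000401617ac20511)) (.one (nat_lit 0xb00000300b00c010000601617ac20511)))) (.br (Nat.shiftLeft (nat_lit 0xb000005) (nat_lit 100)) (.one (nat_lit 0xb00000400b00c010000801617ac20511)) (.br (Nat.shiftLeft (nat_lit 0x5800003) (nat_lit 101)) (.one (nat_lit 0xb00000500b00c010000a01617ac20511)) (.one (nat_lit 0xb00000600b00c010000c01617ac20511))))) (.br (Nat.shiftLeft (nat_lit 0x3000001) (nat_lit 102)) (.br (Nat.shiftLeft (nat_lit 0x3) (nat_lit 126)) (.one (nat_lit 0xb00000700b00c010000e01617ac20511)) (.br (Nat.shiftLeft (nat_lit 0xc000003) (nat_lit 100)) (.one (nat_lit 0xc00000200b00c010000401619b020511))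 (.one (nat_lit 0xc00000300b00c010000601619b020511)))) (.br (Nat.shiftLeft (nat_lit 0xc000005) (nat_lit 100)) (.one (nat_lit 0xc00000400b00c010000801619b020511)) (.br (Nat.shiftLeft (nat_lit 0x6000003) (nat_lit 101)) (.one (nat_lit 0xc00000500b00c010000a01619b020511)) (.one (nat_lit 0xc00000600b00c010000c01619b020511))))))
def t255 : k255.all (jb2 57 fl b0) = true := by decide +kernel
noncomputable def s13 : KT := (.br (nat_lit 0x200500b00c010400a016018020650) (.br (nat_lit 0x100200b00c0102004016018020650) (.br (nat_lit 0x800b00c0100010016018020540) (.br (nat_lit 0x700b00c010000e016018021500) k240 k241) (.br (nat_lit 0x100000b00c0102000016018020411) k242 k243)) (.br (nat_lit 0x200000b00c0104000016018020411) (.br (nat_lit 0x100400b00c0102008016018020650) k244 k245) (.br (nat_lit 0x200300b00c0104006016018020650) k246 k247))) (.br (nat_lit 0x800000b00c0100000016018122411) (.br (nat_lit 0x300500b00c010600a016018020650) (.br (nat_lit 0x300000b00c0106000016018020411) k248 k249) (.br (nat_lit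 0x400500b00c010800a016018020650) k250 k251)) (.br (nat_lit 0x700000200b00c01000040160f9c20511) (.br (nat_lit 0x500000300b00c01000060160b9420511) k252 k253) (.br (nat_lit 0xa00000600b00c010000c01615a820511) k254 k255))))
noncomputable def u13 : KT := (.one (nat_lit 0xb00c0100000016018020430))
def w13 : u13.all (wj 57 s13) = true := by decide +kernel
def o13 : OkW 57 (jb2 57 fl) u13 := .lift s13 _ (.br _ _ _ (.br _ _ _ (.br _ _ _ (.br _ _ _ (.leaf b0 k240 t240) (.leaf b0 k241 t241)) (.br _ _ _ (.leaf b0 k242 t242) (.leaf b0 k243 t243))) (.br _ _ _ (.br _ _ _ (.leaf b0 k244 t244) (.leaf b0 k245 t245)) (.br _ _ _ (.leaf b0 k246 t246) (.leaf b0 k247 t247)))) (.br _ _ _ (.br _ _ _ (.br _ _ _ (.leaf b0 k248 t248) (.leaf b0 k249 t249)) (.br _ _ _ (.leaf b0 k250 t250) (.leaf b0 k251 t251))) (.br _ _ _ (.br _ _ _ (.leaf b0 k252 t252) (.leaf b0 k253 t253)) (.br _ _ _ (.leaf b0 k254 t254) (.leaf b0 k255 t255))))) w13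
noncomputable def k256 : KT := (.br (Nat.shiftLeft (nat_lit 0x5806009) (nat_lit 65)) (.one (nat_lit 0xb00c0110000016018023400)) (.br (Nat.shiftLeft (nat_lit 0x1) (nat_lit 100)) (.one (nat_lit 0xb00c0120000016018025400)) (.one (nat_lit 0x100b00c0110002016018022540))))
def t256 : k256.all (jb2 57 fl b0) = true := by decide +kernel
noncomputable def k257 : KT := (.br (Nat.shiftLeft (nat_lit 0x1) (nat_lit 101)) (.one (nat_lit 0x100b00c0120002016018024540)) (.one (nat_lit 0x200b00c0110004016018023500)))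
def t257 : k257.all (jb2 57 fl b0) = true := by decide +kernel
noncomputable def k258 : KT := (.br (Nat.shiftLeft (nat_lit 0x1) (nat_lit 102)) (.br (Nat.shiftLeft (nat_lit 0x3) (nat_lit 100)) (.one (nat_lit 0x200b00c0120004016018024540)) (.br (Nat.shiftLeft (nat_lit 0x1805806009) (nat_lit 65)) (.one (nat_lit 0x300b00c0110006016018023500)) (.one (nat_lit 0x300b00c0120006016018025500)))) (.br (Nat.shiftLeft (nat_lit 0x2005806009) (nat_lit 65)) (.one (nat_lit 0x400b00c0110008016018023500)) (.br (Nat.shiftLeft (nat_lit 0x5) (nat_lit 100)) (.one (nat_lit 0x400b00c0120008016018025500)) (.one (nat_lit 0x500b00c011000a016018023500)))))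
def t258 : k258.all (jb2 57 fl b0) = true := by decide +kernel
noncomputable def k259 : KT := (.br (Nat.shiftLeft (nat_lit 0x3) (nat_lit 101)) (.one (nat_lit 0x500b00c012000a016018024540)) (.one (nat_lit 0x600b00c011000c016018023500)))
def t259 : k259.all (jb2 57 fl b0) = true := by decide +kernel
noncomputable def k260 : KT := (.one (nat_lit 0x600b00c012000c016018024540))
def t260 : k260.all (jb2 57 fl b0) = true := by decide +kernel
noncomputable def k261 : KT := (.one (nat_lit 0x700b00c011000e016018022540))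
def t261 : k261.all (jb2 57 fl b0) = true := by decide +kernel
noncomputable def k262 : KT := (.br (Nat.shiftLeft (nat_lit 0x1) (nat_lit 103)) (.one (nat_lit 0x700b00c012000e016018024540)) (.one (nat_lit 0x800b00c0110010016018022540)))
def t262 : k262.all (jb2 57 fl b0) = true := by decide +kernel
noncomputable def k263 : KT := (.br (Nat.shiftLeft (nat_lit 0x9) (nat_lit 100)) (.one (nat_lit 0x800b00c0120010016018024540)) (.br (Nat.shiftLeft (nat_lit 0x4805806009) (nat_lit 65)) (.one (nat_lit 0x900b00c0110012016018022540)) (.one (nat_lit 0x900b00c0120012016018024540))))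
def t263 : k263.all (jb2 57 fl b0) = true := by decide +kernel
noncomputable def k264 : KT := (.br (Nat.shiftLeft (nat_lit 0x1) (nat_lit 112)) (.br (Nat.shiftLeft (nat_lit 0x5005806009) (nat_lit 65)) (.one (nat_lit 0xa00b00c0110014016018022540)) (.one (nat_lit 0xa00b00c0120014016018024540))) (.br (Nat.shiftLeft (nat_lit 0x800005806009) (nat_lit 65)) (.one (nat_lit 0x100000b00c0112000016018022411)) (.br (Nat.shiftLeft (nat_lit 0x801) (nat_lit 101)) (.one (nat_lit 0x100000b00c0122000016018024411)) (.one (nat_lit 0x100200b00c0112004016018022650)))))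
def t264 : k264.all (jb2 57 fl b0) = true := by decide +kernel
noncomputable def k265 : KT := (.br (Nat.shiftLeft (nat_lit 0x801805806009) (nat_lit 65)) (.one (nat_lit 0x100300b00c0112006016018022650)) (.one (nat_lit 0x100300b00c0122006016018024650)))
def t265 : k265.all (jb2 57 fl b0) = true := by decide +kernel
noncomputable def k266 : KT := (.br (Nat.shiftLeft (nat_lit 0x803) (nat_lit 101)) (.br (Nat.shiftLeft (nat_lit 0x802005806009) (nat_lit 65)) (.one (nat_lit 0x100400b00c0112008016018022650)) (.br (Nat.shiftLeft (nat_lit 0x1005) (nat_lit 100)) (.one (nat_lit 0x100400b00c0122008016018024650)) (.one (nat_lit 0x100500b00c011200a016018022650)))) (.br (Nat.shiftLeft (nat_lit 0x1) (nat_lit 113)) (.one (nat_lit 0x100600b00c011200c016018022650)) (.br (Nat.shiftLeft (nat_lit 0x1000005806009) (nat_lit 65)) (.one (nat_lit 0x200000b00c0114000016018022411)) (.one (nat_lit 0x200000b00c0124000016018024411)))))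
def t266 : k266.all (jb2 57 fl b0) = true := by decide +kernel
noncomputable def k267 : KT := (.br (Nat.shiftLeft (nat_lit 0x1001805806009) (nat_lit 65)) (.one (nat_lit 0x200300b00c0114006016018022650)) (.one (nat_lit 0x200300b00c0124006016018024650)))
def t267 : k267.all (jb2 57 fl b0) = true := by decide +kernel
noncomputable def k268 : KT := (.br (Nat.shiftLeft (nat_lit 0x1002005806009) (nat_lit 65)) (.one (nat_lit 0x200400b00c0114008016018022650)) (.br (Nat.shiftLeft (nat_lit 0x2005) (nat_lit 100)) (.one (nat_lit 0x200400b00c0124008016018024650)) (.one (nat_lit 0x200500b00c011400a016018022650))))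
def t268 : k268.all (jb2 57 fl b0) = true := by decide +kernel
noncomputable def k269 : KT := (.br (Nat.shiftLeft (nat_lit 0x1800005806009) (nat_lit 65)) (.br (Nat.shiftLeft (nat_lit 0x3) (nat_lit 112)) (.one (nat_lit 0x200600b00c011400c016018022650)) (.one (nat_lit 0x300000b00c0116000016018022411))) (.br (Nat.shiftLeft (nat_lit 0xc01) (nat_lit 102)) (.one (nat_lit 0x300000b00c0126000016018024411)) (.br (Nat.shiftLeft (nat_lit 0x1802005806009) (nat_lit 65)) (.one (nat_lit 0x300400b00c0116008016018022650)) (.one (nat_lit 0x300400b00c0126008016018024650)))))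
def t269 : k269.all (jb2 57 fl b0) = true := by decide +kernel
noncomputable def k270 : KT := (.br (Nat.shiftLeft (nat_lit 0x1001) (nat_lit 102)) (.br (Nat.shiftLeft (nat_lit 0x1) (nat_lit 114)) (.br (Nat.shiftLeft (nat_lit 0x1803) (nat_lit 101)) (.one (nat_lit 0x300500b00c011600a016018022650)) (.one (nat_lit 0x300600b00c011600c016018022650))) (.br (Nat.shiftLeft (nat_lit 0x2000005806009) (nat_lit 65)) (.one (nat_lit 0x400000b00c0118000016018022411)) (.one (nat_lit 0x400000b00c0128000016018024411)))) (.br (Nat.shiftLeft (nat_lit 0x5) (nat_lit 112)) (.br (Nat.shiftLeft (nat_lit 0x2003) (nat_lit 101)) (.one (nat_lit 0x400500b00c011800a016018022650)) (.one (nat_lit 0x400600b00c011800c016018022650))) (.br (Nat.shiftLeft (nat_lit 0x2800005806009) (nat_lit 65)) (.one (nat_lit 0x500000b00c011a000016018022411)) (.one (nat_lit 0x500000b00c012a000016018024411)))))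
def t270 : k270.all (jb2 57 fl b0) = true := by decide +kernel
noncomputable def k271 : KT := (.br (Nat.shiftLeft (nat_lit 0x800002005806009) (nat_lit 65)) (.br (Nat.shiftLeft (nat_lit 0x5) (nat_lit 113)) (.br (Nat.shiftLeft (nat_lit 0x3800005806009) (nat_lit 65)) (.br (Nat.shiftLeft (nat_lit 0x3000005806009) (nat_lit 65)) (.br (Nat.shiftLeft (nat_lit 0x3) (nat_lit 113)) (.one (nat_lit 0x500600b00c011a00c016018022650)) (.one (nat_lit 0x600000b00c011c000016018022411))) (.br (Nat.shiftLeft (nat_lit 0x7) (nat_lit 112)) (.one (nat_lit 0x600000b00c012c000016018024411)) (.one (nat_lit 0x700000b00c011e000016018022411)))) (.br (Nat.shiftLeft (nat_lit 0x4000005806009) (nat_lit 65)) (.br (Nat.shiftLeft (nat_lit 0x1) (nat_lit 115)) (.one (nat_lit 0x700000b00c012e000016018024411)) (.one (nat_lit 0x800000b00c0110000016018124411))) (.br (Nat.shiftLeft (nat_lit 0x9) (nat_lit 112)) (.one (nat_lit 0x800000b00c0120000016018126411)) (.br (Nat.shiftLeft (nat_lit 0x4800005806009) (nat_lit 65)) (.one (nat_lit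 0x900000b00c0112000016018124411)) (.one (nat_lit 0x900000b00c0122000016018126411)))))) (.br (Nat.shiftLeft (nat_lit 0x6000005806009) (nat_lit 65)) (.br (Nat.shiftLeft (nat_lit 0xb) (nat_lit 112)) (.br (Nat.shiftLeft (nat_lit 0x5000005806009) (nat_lit 65)) (.one (nat_lit 0xa00000b00c0114000016018124411)) (.one (nat_lit 0xa00000b00c0124000016018126411))) (.br (Nat.shiftLeft (nat_lit 0x5800005806009) (nat_lit 65)) (.one (nat_lit 0xb00000b00c0116000016018124411)) (.br (Nat.shiftLeft (nat_lit 0x3) (nat_lit 114)) (.one (nat_lit 0xb00000b00c0126000016018126411)) (.one (nat_lit 0xc00000b00c0118000016018124411))))) (.br (Nat.shiftLeft (nat_lit 0x1000003) (nat_lit 100)) (.br (Nat.shiftLeft (nat_lit 0x1) (nat_lit 124)) (.one (nat_lit 0xc00000b00c0128000016018126411)) (.one (nat_lit 0x100000200b00c0110004016038422511))) (.br (Nat.shiftLeft (nat_lit 0x800001805806009) (nat_lit 65)) (.one (nat_lit 0x100000300b00c0110006016038422511)) (.br (Nat.shiftLeft (nat_lit 0x400001) (nat_lit 102)) (.one (nat_lit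 0x100000300b00c0120006016038424511)) (.one (nat_lit 0x100000400b00c0110008016038422511))))))) (.br (Nat.shiftLeft (nat_lit 0x1000003) (nat_lit 101)) (.br (Nat.shiftLeft (nat_lit 0x2000003) (nat_lit 100)) (.br (Nat.shiftLeft (nat_lit 0x800003) (nat_lit 101)) (.br (Nat.shiftLeft (nat_lit 0x1000005) (nat_lit 100)) (.one (nat_lit 0x100000400b00c0120008016038424511)) (.one (nat_lit 0x100000500b00c011000a016038422511))) (.br (Nat.shiftLeft (nat_lit 0x1) (nat_lit 125)) (.one (nat_lit 0x100000600b00c011000c016038422511)) (.one (nat_lit 0x200000200b00c0110004016058822511)))) (.br (Nat.shiftLeft (nat_lit 0x800001) (nat_lit 102)) (.br (Nat.shiftLeft (nat_lit 0x1000001805806009) (nat_lit 65)) (.one (nat_lit 0x200000300b00c0110006016058822511)) (.one (nat_lit 0x200000300b00c0120006016058824511))) (.br (Nat.shiftLeft (nat_lit 0x1000002005806009) (nat_lit 65)) (.one (nat_lit 0x200000400b00c0110008016058822511)) (.br (Nat.shiftLeft (nat_lit 0x2000005) (nat_lit 100)) (.one (nat_lit 0x200000400b00c0120008016058824511))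 (.one (nat_lit 0x200000500b00c011000a016058822511)))))) (.br (Nat.shiftLeft (nat_lit 0x1800002005806009) (nat_lit 65)) (.br (Nat.shiftLeft (nat_lit 0x3000003) (nat_lit 100)) (.br (Nat.shiftLeft (nat_lit 0x3) (nat_lit 124)) (.one (nat_lit 0x200000600b00c011000c016058822511)) (.one (nat_lit 0x300000200b00c0110004016078c22511))) (.br (Nat.shiftLeft (nat_lit 0x1800001805806009) (nat_lit 65)) (.one (nat_lit 0x300000300b00c0110006016078c22511)) (.br (Nat.shiftLeft (nat_lit 0xc00001) (nat_lit 102)) (.one (nat_lit 0x300000300b00c0120006016078c24511)) (.one (nat_lit 0x300000400b00c0110008016078c22511))))) (.br (Nat.shiftLeft (nat_lit 0x1800003) (nat_lit 101)) (.br (Nat.shiftLeft (nat_lit 0x3000005) (nat_lit 100)) (.one (nat_lit 0x300000400b00c0120008016078c24511)) (.one (nat_lit 0x300000500b00c011000a016078c22511))) (.br (Nat.shiftLeft (nat_lit 0x1) (nat_lit 126)) (.one (nat_lit 0x300000600b00c011000c016078c22511)) (.br (Nat.shiftLeft (nat_lit 0x4000003) (nat_lit 100)) (.one (nat_lit 0x400000200b00c0110004016099022511))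 (.one (nat_lit 0x400000300b00c0110006016099022511))))))))
def t271 : k271.all (jb2 57 fl b0) = true := by decide +kernel
noncomputable def k272 : KT := (.br (Nat.shiftLeft (nat_lit 0x5000003) (nat_lit 100)) (.br (Nat.shiftLeft (nat_lit 0x4000005) (nat_lit 100)) (.br (Nat.shiftLeft (nat_lit 0x1000001) (nat_lit 102)) (.one (nat_lit 0x400000300b00c0120006016099024511)) (.br (Nat.shiftLeft (nat_lit 0x2000002005806009) (nat_lit 65)) (.one (nat_lit 0x400000400b00c0110008016099022511)) (.one (nat_lit 0x400000400b00c0120008016099024511)))) (.br (Nat.shiftLeft (nat_lit 0x2000003) (nat_lit 101)) (.one (nat_lit 0x400000500b00c011000a016099022511)) (.br (Nat.shiftLeft (nat_lit 0x5) (nat_lit 124)) (.one (nat_lit 0x400000600b00c011000c016099022511)) (.one (nat_lit 0x500000200b00c01100040160b9422511))))) (.br (Nat.shiftLeft (nat_lit 0x2800002005806009) (nat_lit 65)) (.br (Nat.shiftLeft (nat_lit 0x2800001805806009) (nat_lit 65)) (.one (nat_lit 0x500000300b00c01100060160b9422511)) (.br (Nat.shiftLeft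 (nat_lit 0x1400001) (nat_lit 102)) (.one (nat_lit 0x500000300b00c01200060160b9424511)) (.one (nat_lit 0x500000400b00c01100080160b9422511)))) (.br (Nat.shiftLeft (nat_lit 0x2800003) (nat_lit 101)) (.br (Nat.shiftLeft (nat_lit 0x5000005) (nat_lit 100)) (.one (nat_lit 0x500000400b00c01200080160b9424511)) (.one (nat_lit 0x500000500b00c011000a0160b9422511))) (.br (Nat.shiftLeft (nat_lit 0x3) (nat_lit 125)) (.one (nat_lit 0x500000600b00c011000c0160b9422511)) (.one (nat_lit 0x600000200b00c01100040160d9822511))))))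
def t272 : k272.all (jb2 57 fl b0) = true := by decide +kernel
noncomputable def k273 : KT := (.br (Nat.shiftLeft (nat_lit 0x3800001805806009) (nat_lit 65)) (.br (Nat.shiftLeft (nat_lit 0x6000005) (nat_lit 100)) (.br (Nat.shiftLeft (nat_lit 0x1800001) (nat_lit 102)) (.br (Nat.shiftLeft (nat_lit 0x3000001805806009) (nat_lit 65)) (.one (nat_lit 0x600000300b00c01100060160d9822511)) (.one (nat_lit 0x600000300b00c01200060160d9824511))) (.br (Nat.shiftLeft (nat_lit 0x3000002005806009) (nat_lit 65)) (.one (nat_lit 0x600000400b00c01100080160d9822511)) (.one (nat_lit 0x600000400b00c01200080160d9824511)))) (.br (Nat.shiftLeft (nat_lit 0x7) (nat_lit 124)) (.br (Nat.shiftLeft (nat_lit 0x3000003) (nat_lit 101)) (.one (nat_lit 0x600000500b00c011000a0160d9822511)) (.one (nat_lit 0x600000600b00c011000c0160d9822511))) (.br (Nat.shiftLeft (nat_lit 0x7000003) (nat_lit 100)) (.one (nat_lit 0x700000200b00c01100040160f9c22511)) (.one (nat_lit 0x700000300b00c01100060160f9c22511))))) (.br (Nat.shiftLeft (nat_lit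 0x3800003) (nat_lit 101)) (.br (Nat.shiftLeft (nat_lit 0x3800002005806009) (nat_lit 65)) (.br (Nat.shiftLeft (nat_lit 0x1c00001) (nat_lit 102)) (.one (nat_lit 0x700000300b00c01200060160f9c24511)) (.one (nat_lit 0x700000400b00c01100080160f9c22511))) (.br (Nat.shiftLeft (nat_lit 0x7000005) (nat_lit 100)) (.one (nat_lit 0x700000400b00c01200080160f9c24511)) (.one (nat_lit 0x700000500b00c011000a0160f9c22511)))) (.br (Nat.shiftLeft (nat_lit 0x8000003) (nat_lit 100)) (.br (Nat.shiftLeft (nat_lit 0x1) (nat_lit 127)) (.one (nat_lit 0x700000600b00c011000c0160f9c22511)) (.one (nat_lit 0x800000200b00c011000401611a022511))) (.br (Nat.shiftLeft (nat_lit 0x4000001805806009) (nat_lit 65)) (.one (nat_lit 0x800000300b00c011000601611a022511)) (.one (nat_lit 0x800000300b00c012000601611a024511))))))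
def t273 : k273.all (jb2 57 fl b0) = true := by decide +kernel
noncomputable def k274 : KT := (.br (Nat.shiftLeft (nat_lit 0x5000002005806009) (nat_lit 65)) (.br (Nat.shiftLeft (nat_lit 0x2400001) (nat_lit 102)) (.br (Nat.shiftLeft (nat_lit 0x4000003) (nat_lit 101)) (.br (Nat.shiftLeft (nat_lit 0x4000002005806009) (nat_lit 65)) (.one (nat_lit 0x800000400b00c011000801611a022511)) (.br (Nat.shiftLeft (nat_lit 0x8000005) (nat_lit 100)) (.one (nat_lit 0x800000400b00c012000801611a024511)) (.one (nat_lit 0x800000500b00c011000a01611a022511)))) (.br (Nat.shiftLeft (nat_lit 0x9000003) (nat_lit 100)) (.br (Nat.shiftLeft (nat_lit 0x9) (nat_lit 124)) (.one (nat_lit 0x800000600b00c011000c01611a022511)) (.one (nat_lit 0x900000200b00c011000401613a422511))) (.br (Nat.shiftLeft (nat_lit 0x4800001805806009) (nat_lit 65)) (.one (nat_lit 0x900000300b00c011000601613a422511)) (.one (nat_lit 0x900000300b00c012000601613a424511))))) (.br (Nat.shiftLeft (nat_lit 0x5) (nat_lit 125)) (.br (Nat.shiftLeft (nat_lit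 0x9000005) (nat_lit 100)) (.br (Nat.shiftLeft (nat_lit 0x4800002005806009) (nat_lit 65)) (.one (nat_lit 0x900000400b00c011000801613a422511)) (.one (nat_lit 0x900000400b00c012000801613a424511))) (.br (Nat.shiftLeft (nat_lit 0x4800003) (nat_lit 101)) (.one (nat_lit 0x900000500b00c011000a01613a422511)) (.one (nat_lit 0x900000600b00c011000c01613a422511)))) (.br (Nat.shiftLeft (nat_lit 0x5000001805806009) (nat_lit 65)) (.br (Nat.shiftLeft (nat_lit 0xa000003) (nat_lit 100)) (.one (nat_lit 0xa00000200b00c011000401615a822511)) (.one (nat_lit 0xa00000300b00c011000601615a822511))) (.br (Nat.shiftLeft (nat_lit 0x2800001) (nat_lit 102)) (.one (nat_lit 0xa00000300b00c012000601615a824511)) (.one (nat_lit 0xa00000400b00c011000801615a822511)))))) (.br (Nat.shiftLeft (nat_lit 0xb000005) (nat_lit 100)) (.br (Nat.shiftLeft (nat_lit 0xb000003) (nat_lit 100)) (.br (Nat.shiftLeft (nat_lit 0x5000003) (nat_lit 101)) (.br (Nat.shiftLeft (nat_lit 0xa000005) (nat_lit 100)) (.one (nat_lit 0xa00000400b00c012000801615a824511))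 (.one (nat_lit 0xa00000500b00c011000a01615a822511))) (.br (Nat.shiftLeft (nat_lit 0xb) (nat_lit 124)) (.one (nat_lit 0xa00000600b00c011000c01615a822511)) (.one (nat_lit 0xb00000200b00c011000401617ac22511)))) (.br (Nat.shiftLeft (nat_lit 0x2c00001) (nat_lit 102)) (.br (Nat.shiftLeft (nat_lit 0x5800001805806009) (nat_lit 65)) (.one (nat_lit 0xb00000300b00c011000601617ac22511)) (.one (nat_lit 0xb00000300b00c012000601617ac24511))) (.br (Nat.shiftLeft (nat_lit 0x5800002005806009) (nat_lit 65)) (.one (nat_lit 0xb00000400b00c011000801617ac22511)) (.one (nat_lit 0xb00000400b00c012000801617ac24511))))) (.br (Nat.shiftLeft (nat_lit 0x6000001805806009) (nat_lit 65)) (.br (Nat.shiftLeft (nat_lit 0x3) (nat_lit 126)) (.br (Nat.shiftLeft (nat_lit 0x5800003) (nat_lit 101)) (.one (nat_lit 0xb00000500b00c011000a01617ac22511)) (.one (nat_lit 0xb00000600b00c011000c01617ac22511))) (.br (Nat.shiftLeft (nat_lit 0xc000003) (nat_lit 100)) (.one (nat_lit 0xc00000200b00c011000401619b022511)) (.one (nat_lit 0xc00000300b00c011000601619b022511))))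 (.br (Nat.shiftLeft (nat_lit 0x6000002005806009) (nat_lit 65)) (.br (Nat.shiftLeft (nat_lit 0x3000001) (nat_lit 102)) (.one (nat_lit 0xc00000300b00c012000601619b024511)) (.one (nat_lit 0xc00000400b00c011000801619b022511))) (.br (Nat.shiftLeft (nat_lit 0xc000005) (nat_lit 100)) (.one (nat_lit 0xc00000400b00c012000801619b024511)) (.one (nat_lit 0xc00000500b00c011000a01619b022511)))))))
def t274 : k274.all (jb2 57 fl b0) = true := by decide +kernel
noncomputable def s14 : KT := (.br (nat_lit 0x100200b00c0112004016018022650) (.br (nat_lit 0x600b00c011000c016018023500) (.br (nat_lit 0x200b00c0110004016018023500) (.br (nat_lit 0x100b00c0110002016018022540) k256 k257) (.br (nat_lit 0x500b00c011000a016018023500) k258 k259)) (.br (nat_lit 0x700b00c011000e016018022540) (.br (nat_lit 0x600b00c012000c016018024540) k260 k261) (.br (nat_lit 0x800b00c0110010016018022540) k262 (.br (nat_lit 0x900b00c0120012016018024540) k263 k264)))) (.br (nat_lit 0x300400b00c0126008016018024650) (.br (nat_lit 0x200000b00c0124000016018024411)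 (.br (nat_lit 0x100300b00c0122006016018024650) k265 k266) (.br (nat_lit 0x200300b00c0124006016018024650) k267 (.br (nat_lit 0x200500b00c011400a016018022650) k268 k269))) (.br (nat_lit 0x400000300b00c0110006016099022511) (.br (nat_lit 0x500000b00c012a000016018024411) k270 k271) (.br (nat_lit 0x600000200b00c01100040160d9822511) k272 (.br (nat_lit 0x800000300b00c012000601611a024511) k273 k274)))))
noncomputable def u14 : KT := (.br (Nat.shiftLeft (nat_lit 0x5806009) (nat_lit 65)) (.one (nat_lit 0xb00c0110000016018022430)) (.one (nat_lit 0xb00c0120000016018024430)))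
def w14 : u14.all (wj 57 s14) = true := by decide +kernel
def o14 : OkW 57 (jb2 57 fl) u14 := .lift s14 _ (.br _ _ _ (.br _ _ _ (.br _ _ _ (.br _ _ _ (.leaf b0 k256 t256) (.leaf b0 k257 t257)) (.br _ _ _ (.leaf b0 k258 t258) (.leaf b0 k259 t259))) (.br _ _ _ (.br _ _ _ (.leaf b0 k260 t260) (.leaf b0 k261 t261)) (.br _ _ _ (.leaf b0 k262 t262) (.br _ _ _ (.leaf b0 k263 t263) (.leaf b0 k264 t264))))) (.br _ _ _ (.br _ _ _ (.br _ _ _ (.leaf b0 k265 t265) (.leaf b0 k266 t266)) (.br _ _ _ (.leaf b0 k267 t267) (.br _ _ _ (.leaf b0 k268 t268) (.leaf b0 k269 t269)))) (.br _ _ _ (.br _ _ _ (.leaf b0 k270 t270) (.leaf b0 k271 t271)) (.br _ _ _ (.leaf b0 k272 t272) (.br _ _ _ (.leaf b0 k273 t273) (.leaf b0 k274 t274)))))) w14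
noncomputable def k275 : KT := (.br (Nat.shiftLeft (nat_lit 0x580600b) (nat_lit 65)) (.br (Nat.shiftLeft (nat_lit 0x2c03005) (nat_lit 66)) (.one (nat_lit 0xb00c0130000016018027400)) (.br (Nat.shiftLeft (nat_lit 0xb00c015) (nat_lit 64)) (.one (nat_lit 0xb00c0140000016018029400)) (.one (nat_lit 0xb00c015000001601802b400)))) (.br (Nat.shiftLeft (nat_lit 0xb00c017) (nat_lit 64)) (.one (nat_lit 0xb00c016000001601802d400)) (.br (Nat.shiftLeft (nat_lit 0x1601803) (nat_lit 67)) (.one (nat_lit 0xb00c017000001601802f400)) (.one (nat_lit 0xb00c0180000016018030430)))))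
def t275 : k275.all (jb2 57 fl b0) = true := by decide +kernel
noncomputable def k276 : KT := (.br (Nat.shiftLeft (nat_lit 0x402c03005) (nat_lit 66)) (.one (nat_lit 0x100b00c0130002016018026540)) (.one (nat_lit 0x100b00c0140002016018028540)))
def t276 : k276.all (jb2 57 fl b0) = true := by decide +kernel
noncomputable def k277 : KT := (.br (Nat.shiftLeft (nat_lit 0x80580600b) (nat_lit 65)) (.one (nat_lit 0x100b00c015000201601802a540)) (.br (Nat.shiftLeft (nat_lit 0x100b00c017) (nat_lit 64)) (.one (nat_lit 0x100b00c016000201601802c540)) (.one (nat_lit 0x100b00c017000201601802e540))))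
def t277 : k277.all (jb2 57 fl b0) = true := by decide +kernel
noncomputable def k278 : KT := (.one (nat_lit 0x200b00c0130004016018026540))
def t278 : k278.all (jb2 57 fl b0) = true := by decide +kernel
noncomputable def k279 : KT := (.br (Nat.shiftLeft (nat_lit 0x200b00c015) (nat_lit 64)) (.one (nat_lit 0x200b00c0140004016018028540)) (.one (nat_lit 0x200b00c015000401601802a540)))
def t279 : k279.all (jb2 57 fl b0) = true := by decide +kernel
noncomputable def k280 : KT := (.br (Nat.shiftLeft (nat_lit 0x200b00c017) (nat_lit 64)) (.one (nat_lit 0x200b00c016000401601802c540)) (.one (nat_lit 0x200b00c017000401601802e540)))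
def t280 : k280.all (jb2 57 fl b0) = true := by decide +kernel
noncomputable def k281 : KT := (.one (nat_lit 0x300b00c0130006016018026540))
def t281 : k281.all (jb2 57 fl b0) = true := by decide +kernel
noncomputable def k282 : KT := (.br (Nat.shiftLeft (nat_lit 0x300b00c015) (nat_lit 64)) (.one (nat_lit 0x300b00c0140006016018028540)) (.one (nat_lit 0x300b00c015000601601802a540)))
def t282 : k282.all (jb2 57 fl b0) = true := by decide +kernel
noncomputable def k283 : KT := (.br (Nat.shiftLeft (nat_lit 0x300b00c017) (nat_lit 64)) (.one (nat_lit 0x300b00c016000601601802c540)) (.one (nat_lit 0x300b00c017000601601802e540)))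
def t283 : k283.all (jb2 57 fl b0) = true := by decide +kernel
noncomputable def k284 : KT := (.one (nat_lit 0x400b00c0130008016018026540))
def t284 : k284.all (jb2 57 fl b0) = true := by decide +kernel
noncomputable def k285 : KT := (.br (Nat.shiftLeft (nat_lit 0x400b00c015) (nat_lit 64)) (.one (nat_lit 0x400b00c0140008016018028540)) (.one (nat_lit 0x400b00c015000801601802a540)))
def t285 : k285.all (jb2 57 fl b0) = true := by decide +kernel
noncomputable def k286 : KT := (.br (Nat.shiftLeft (nat_lit 0x400b00c017) (nat_lit 64)) (.one (nat_lit 0x400b00c016000801601802c540)) (.one (nat_lit 0x400b00c017000801601802e540)))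
def t286 : k286.all (jb2 57 fl b0) = true := by decide +kernel
noncomputable def k287 : KT := (.one (nat_lit 0x500b00c013000a016018026540))
def t287 : k287.all (jb2 57 fl b0) = true := by decide +kernel
noncomputable def k288 : KT := (.br (Nat.shiftLeft (nat_lit 0x500b00c015) (nat_lit 64)) (.one (nat_lit 0x500b00c014000a016018028540)) (.br (Nat.shiftLeft (nat_lit 0x280580600b) (nat_lit 65)) (.one (nat_lit 0x500b00c015000a01601802a540)) (.one (nat_lit 0x500b00c016000a01601802c540))))
def t288 : k288.all (jb2 57 fl b0) = true := by decide +kernel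
noncomputable def k289 : KT := (.br (Nat.shiftLeft (nat_lit 0x3) (nat_lit 101)) (.one (nat_lit 0x500b00c017000a01601802e540)) (.br (Nat.shiftLeft (nat_lit 0x1802c03005) (nat_lit 66)) (.one (nat_lit 0x600b00c013000c016018026540)) (.one (nat_lit 0x600b00c014000c016018028540))))
def t289 : k289.all (jb2 57 fl b0) = true := by decide +kernel
noncomputable def k290 : KT := (.br (Nat.shiftLeft (nat_lit 0x600b00c017) (nat_lit 64)) (.br (Nat.shiftLeft (nat_lit 0x300580600b) (nat_lit 65)) (.one (nat_lit 0x600b00c015000c01601802a540)) (.one (nat_lit 0x600b00c016000c01601802c540))) (.br (Nat.shiftLeft (nat_lit 0x7) (nat_lit 100)) (.one (nat_lit 0x600b00c017000c01601802e540)) (.br (Nat.shiftLeft (nat_lit 0x1c02c03005) (nat_lit 66)) (.one (nat_lit 0x700b00c013000e016018026540)) (.one (nat_lit 0x700b00c014000e016018028540)))))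
def t290 : k290.all (jb2 57 fl b0) = true := by decide +kernel
noncomputable def k291 : KT := (.br (Nat.shiftLeft (nat_lit 0x400580600b) (nat_lit 65)) (.br (Nat.shiftLeft (nat_lit 0x1) (nat_lit 103)) (.br (Nat.shiftLeft (nat_lit 0x380580600b) (nat_lit 65)) (.one (nat_lit 0x700b00c015000e01601802a540)) (.br (Nat.shiftLeft (nat_lit 0x700b00c017) (nat_lit 64)) (.one (nat_lit 0x700b00c016000e01601802c540)) (.one (nat_lit 0x700b00c017000e01601802e540)))) (.br (Nat.shiftLeft (nat_lit 0x2002c03005) (nat_lit 66)) (.one (nat_lit 0x800b00c0130010016018026540)) (.br (Nat.shiftLeft (nat_lit 0x800b00c015) (nat_lit 64)) (.one (nat_lit 0x800b00c0140010016018028540)) (.one (nat_lit 0x800b00c015001001601802a540))))) (.br (Nat.shiftLeft (nat_lit 0x2402c03005) (nat_lit 66)) (.br (Nat.shiftLeft (nat_lit 0x800b00c017) (nat_lit 64)) (.one (nat_lit 0x800b00c016001001601802c540)) (.br (Nat.shiftLeft (nat_lit 0x9) (nat_lit 100)) (.one (nat_lit 0x800b00c017001001601802e540)) (.one (nat_lit 0x900b00c0130012016018026540))))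 (.br (Nat.shiftLeft (nat_lit 0x480580600b) (nat_lit 65)) (.br (Nat.shiftLeft (nat_lit 0x900b00c015) (nat_lit 64)) (.one (nat_lit 0x900b00c0140012016018028540)) (.one (nat_lit 0x900b00c015001201601802a540))) (.br (Nat.shiftLeft (nat_lit 0x900b00c017) (nat_lit 64)) (.one (nat_lit 0x900b00c016001201601802c540)) (.one (nat_lit 0x900b00c017001201601802e540))))))
def t291 : k291.all (jb2 57 fl b0) = true := by decide +kernel
noncomputable def k292 : KT := (.br (Nat.shiftLeft (nat_lit 0x1) (nat_lit 114)) (.br (Nat.shiftLeft (nat_lit 0x1) (nat_lit 113)) (.br (Nat.shiftLeft (nat_lit 0x1) (nat_lit 112)) (.br (Nat.shiftLeft (nat_lit 0xa00b00c015) (nat_lit 64)) (.br (Nat.shiftLeft (nat_lit 0x2802c03005) (nat_lit 66)) (.one (nat_lit 0xa00b00c0130014016018026540)) (.one (nat_lit 0xa00b00c0140014016018028540))) (.br (Nat.shiftLeft (nat_lit 0x500580600b) (nat_lit 65)) (.one (nat_lit 0xa00b00c015001401601802a540)) (.br (Nat.shiftLeft (nat_lit 0xa00b00c017) (nat_lit 64)) (.one (nat_lit 0xa00b00c016001401601802c540))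 (.one (nat_lit 0xa00b00c017001401601802e540))))) (.br (Nat.shiftLeft (nat_lit 0x100000b00c015) (nat_lit 64)) (.br (Nat.shiftLeft (nat_lit 0x400002c03005) (nat_lit 66)) (.one (nat_lit 0x100000b00c0132000016018026411)) (.one (nat_lit 0x100000b00c0142000016018028411))) (.br (Nat.shiftLeft (nat_lit 0x80000580600b) (nat_lit 65)) (.one (nat_lit 0x100000b00c015200001601802a411)) (.br (Nat.shiftLeft (nat_lit 0x100000b00c017) (nat_lit 64)) (.one (nat_lit 0x100000b00c016200001601802c411)) (.one (nat_lit 0x100000b00c017200001601802e411)))))) (.br (Nat.shiftLeft (nat_lit 0x3) (nat_lit 112)) (.br (Nat.shiftLeft (nat_lit 0x200000b00c015) (nat_lit 64)) (.br (Nat.shiftLeft (nat_lit 0x800002c03005) (nat_lit 66)) (.one (nat_lit 0x200000b00c0134000016018026411)) (.one (nat_lit 0x200000b00c0144000016018028411))) (.br (Nat.shiftLeft (nat_lit 0x100000580600b) (nat_lit 65)) (.one (nat_lit 0x200000b00c015400001601802a411)) (.br (Nat.shiftLeft (nat_lit 0x200000b00c017) (nat_lit 64)) (.one (nat_lit 0x200000b00c016400001601802c411))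 (.one (nat_lit 0x200000b00c017400001601802e411))))) (.br (Nat.shiftLeft (nat_lit 0x300000b00c015) (nat_lit 64)) (.br (Nat.shiftLeft (nat_lit 0xc00002c03005) (nat_lit 66)) (.one (nat_lit 0x300000b00c0136000016018026411)) (.one (nat_lit 0x300000b00c0146000016018028411))) (.br (Nat.shiftLeft (nat_lit 0x180000580600b) (nat_lit 65)) (.one (nat_lit 0x300000b00c015600001601802a411)) (.br (Nat.shiftLeft (nat_lit 0x300000b00c017) (nat_lit 64)) (.one (nat_lit 0x300000b00c016600001601802c411)) (.one (nat_lit 0x300000b00c017600001601802e411))))))) (.br (Nat.shiftLeft (nat_lit 0x3) (nat_lit 113)) (.br (Nat.shiftLeft (nat_lit 0x5) (nat_lit 112)) (.br (Nat.shiftLeft (nat_lit 0x400000b00c015) (nat_lit 64)) (.br (Nat.shiftLeft (nat_lit 0x1000002c03005) (nat_lit 66)) (.one (nat_lit 0x400000b00c0138000016018026411)) (.one (nat_lit 0x400000b00c0148000016018028411))) (.br (Nat.shiftLeft (nat_lit 0x200000580600b) (nat_lit 65)) (.one (nat_lit 0x400000b00c015800001601802a411)) (.br (Nat.shiftLeft (nat_lit 0x400000b00c017)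 (nat_lit 64)) (.one (nat_lit 0x400000b00c016800001601802c411)) (.one (nat_lit 0x400000b00c017800001601802e411))))) (.br (Nat.shiftLeft (nat_lit 0x500000b00c015) (nat_lit 64)) (.br (Nat.shiftLeft (nat_lit 0x1400002c03005) (nat_lit 66)) (.one (nat_lit 0x500000b00c013a000016018026411)) (.one (nat_lit 0x500000b00c014a000016018028411))) (.br (Nat.shiftLeft (nat_lit 0x280000580600b) (nat_lit 65)) (.one (nat_lit 0x500000b00c015a00001601802a411)) (.br (Nat.shiftLeft (nat_lit 0x500000b00c017) (nat_lit 64)) (.one (nat_lit 0x500000b00c016a00001601802c411)) (.one (nat_lit 0x500000b00c017a00001601802e411)))))) (.br (Nat.shiftLeft (nat_lit 0x7) (nat_lit 112)) (.br (Nat.shiftLeft (nat_lit 0x600000b00c015) (nat_lit 64)) (.br (Nat.shiftLeft (nat_lit 0x1800002c03005) (nat_lit 66)) (.one (nat_lit 0x600000b00c013c000016018026411)) (.one (nat_lit 0x600000b00c014c000016018028411))) (.br (Nat.shiftLeft (nat_lit 0x300000580600b) (nat_lit 65)) (.one (nat_lit 0x600000b00c015c00001601802a411)) (.br (Nat.shiftLeft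 (nat_lit 0x600000b00c017) (nat_lit 64)) (.one (nat_lit 0x600000b00c016c00001601802c411)) (.one (nat_lit 0x600000b00c017c00001601802e411))))) (.br (Nat.shiftLeft (nat_lit 0x700000b00c015) (nat_lit 64)) (.br (Nat.shiftLeft (nat_lit 0x1c00002c03005) (nat_lit 66)) (.one (nat_lit 0x700000b00c013e000016018026411)) (.one (nat_lit 0x700000b00c014e000016018028411))) (.br (Nat.shiftLeft (nat_lit 0x380000580600b) (nat_lit 65)) (.one (nat_lit 0x700000b00c015e00001601802a411)) (.br (Nat.shiftLeft (nat_lit 0x700000b00c017) (nat_lit 64)) (.one (nat_lit 0x700000b00c016e00001601802c411)) (.one (nat_lit 0x700000b00c017e00001601802e411))))))))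
def t292 : k292.all (jb2 57 fl b0) = true := by decide +kernel
noncomputable def k293 : KT := (.br (Nat.shiftLeft (nat_lit 0xa00000b00c015) (nat_lit 64)) (.br (Nat.shiftLeft (nat_lit 0x2400002c03005) (nat_lit 66)) (.br (Nat.shiftLeft (nat_lit 0x400000580600b) (nat_lit 65)) (.br (Nat.shiftLeft (nat_lit 0x2000002c03005) (nat_lit 66)) (.one (nat_lit 0x800000b00c0130000016018128411)) (.br (Nat.shiftLeft (nat_lit 0x800000b00c015) (nat_lit 64)) (.one (nat_lit 0x800000b00c014000001601812a411)) (.one (nat_lit 0x800000b00c015000001601812c411)))) (.br (Nat.shiftLeft (nat_lit 0x800000b00c017) (nat_lit 64)) (.one (nat_lit 0x800000b00c016000001601812e411)) (.br (Nat.shiftLeft (nat_lit 0x9) (nat_lit 112)) (.one (nat_lit 0x800000b00c0170000016018130411)) (.one (nat_lit 0x900000b00c0132000016018128411))))) (.br (Nat.shiftLeft (nat_lit 0x900000b00c017) (nat_lit 64)) (.br (Nat.shiftLeft (nat_lit 0x900000b00c015) (nat_lit 64)) (.one (nat_lit 0x900000b00c014200001601812a411)) (.br (Nat.shiftLeft (nat_lit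 0x480000580600b) (nat_lit 65)) (.one (nat_lit 0x900000b00c015200001601812c411)) (.one (nat_lit 0x900000b00c016200001601812e411)))) (.br (Nat.shiftLeft (nat_lit 0x5) (nat_lit 113)) (.one (nat_lit 0x900000b00c0172000016018130411)) (.br (Nat.shiftLeft (nat_lit 0x2800002c03005) (nat_lit 66)) (.one (nat_lit 0xa00000b00c0134000016018128411)) (.one (nat_lit 0xa00000b00c014400001601812a411)))))) (.br (Nat.shiftLeft (nat_lit 0x580000580600b) (nat_lit 65)) (.br (Nat.shiftLeft (nat_lit 0xb) (nat_lit 112)) (.br (Nat.shiftLeft (nat_lit 0x500000580600b) (nat_lit 65)) (.one (nat_lit 0xa00000b00c015400001601812c411)) (.br (Nat.shiftLeft (nat_lit 0xa00000b00c017) (nat_lit 64)) (.one (nat_lit 0xa00000b00c016400001601812e411)) (.one (nat_lit 0xa00000b00c0174000016018130411)))) (.br (Nat.shiftLeft (nat_lit 0x2c00002c03005) (nat_lit 66)) (.one (nat_lit 0xb00000b00c0136000016018128411)) (.br (Nat.shiftLeft (nat_lit 0xb00000b00c015) (nat_lit 64)) (.one (nat_lit 0xb00000b00c014600001601812a411)) (.one (nat_lit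 0xb00000b00c015600001601812c411))))) (.br (Nat.shiftLeft (nat_lit 0x3000002c03005) (nat_lit 66)) (.br (Nat.shiftLeft (nat_lit 0xb00000b00c017) (nat_lit 64)) (.one (nat_lit 0xb00000b00c016600001601812e411)) (.br (Nat.shiftLeft (nat_lit 0x3) (nat_lit 114)) (.one (nat_lit 0xb00000b00c0176000016018130411)) (.one (nat_lit 0xc00000b00c0138000016018128411)))) (.br (Nat.shiftLeft (nat_lit 0xc00000b00c015) (nat_lit 64)) (.one (nat_lit 0xc00000b00c014800001601812a411)) (.br (Nat.shiftLeft (nat_lit 0x600000580600b) (nat_lit 65)) (.one (nat_lit 0xc00000b00c015800001601812c411)) (.one (nat_lit 0xc00000b00c016800001601812e411)))))))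
def t293 : k293.all (jb2 57 fl b0) = true := by decide +kernel
noncomputable def s15 : KT := (.br (nat_lit 0x300b00c017000601601802e540) (.br (nat_lit 0x200b00c0130004016018026540) (.br (nat_lit 0x100b00c0140002016018028540) (.br (nat_lit 0xb00c0180000016018030430) k275 k276) (.br (nat_lit 0x100b00c017000201601802e540) k277 k278)) (.br (nat_lit 0x200b00c017000401601802e540) (.br (nat_lit 0x200b00c015000401601802a540) k279 k280) (.br (nat_lit 0x300b00c0130006016018026540) k281 (.br (nat_lit 0x300b00c015000601601802a540) k282 k283)))) (.br (nat_lit 0x500b00c016000a01601802c540) (.br (nat_lit 0x400b00c015000801601802a540) (.br (nat_lit 0x400b00c0130008016018026540) k284 k285) (.br (nat_lit 0x400b00c017000801601802e540) k286 (.br (nat_lit 0x500b00c013000a016018026540) k287 k288))) (.br (nat_lit 0x700b00c014000e016018028540) (.br (nat_lit 0x600b00c014000c016018028540) k289 k290) (.br (nat_lit 0x900b00c017001201601802e540) k291 (.br (nat_lit 0x700000b00c017e00001601802e411) k292 k293)))))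
noncomputable def u15 : KT := (.br (Nat.shiftLeft (nat_lit 0x580600b) (nat_lit 65)) (.br (Nat.shiftLeft (nat_lit 0x2c03005) (nat_lit 66)) (.one (nat_lit 0xb00c0130000016018026430)) (.br (Nat.shiftLeft (nat_lit 0xb00c015) (nat_lit 64)) (.one (nat_lit 0xb00c0140000016018028430)) (.one (nat_lit 0xb00c015000001601802a430)))) (.br (Nat.shiftLeft (nat_lit 0xb00c017) (nat_lit 64)) (.one (nat_lit 0xb00c016000001601802c430)) (.br (Nat.shiftLeft (nat_lit 0x1601803) (nat_lit 67)) (.one (nat_lit 0xb00c017000001601802e430)) (.one (nat_lit 0xb00c0180000016018030430)))))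
def w15 : u15.all (wj 57 s15) = true := by decide +kernel
def o15 : OkW 57 (jb2 57 fl) u15 := .lift s15 _ (.br _ _ _ (.br _ _ _ (.br _ _ _ (.br _ _ _ (.leaf b0 k275 t275) (.leaf b0 k276 t276)) (.br _ _ _ (.leaf b0 k277 t277) (.leaf b0 k278 t278))) (.br _ _ _ (.br _ _ _ (.leaf b0 k279 t279) (.leaf b0 k280 t280)) (.br _ _ _ (.leaf b0 k281 t281) (.br _ _ _ (.leaf b0 k282 t282) (.leaf b0 k283 t283))))) (.br _ _ _ (.br _ _ _ (.br _ _ _ (.leaf b0 k284 t284) (.leaf b0 k285 t285)) (.br _ _ _ (.leaf b0 k286 t286) (.br _ _ _ (.leaf b0 k287 t287) (.leaf b0 k288 t288)))) (.br _ _ _ (.br _ _ _ (.leaf b0 k289 t289) (.leaf b0 k290 t290)) (.br _ _ _ (.leaf b0 k291 t291) (.br _ _ _ (.leaf b0 k292 t292) (.leaf b0 k293 t293)))))) w15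
noncomputable def k294 : KT := (.br (Nat.shiftLeft (nat_lit 0x1) (nat_lit 102)) (.br (Nat.shiftLeft (nat_lit 0x1) (nat_lit 101)) (.br (Nat.shiftLeft (nat_lit 0x1) (nat_lit 100)) (.one (nat_lit 0xb00d00e000001601a01d400)) (.one (nat_lit 0x100b00d00e000201601a01c540))) (.br (Nat.shiftLeft (nat_lit 0x3) (nat_lit 100)) (.one (nat_lit 0x200b00d00e000401601a01d500)) (.one (nat_lit 0x300b00d00e000601601a01d500)))) (.br (Nat.shiftLeft (nat_lit 0x3) (nat_lit 101)) (.br (Nat.shiftLeft (nat_lit 0x5) (nat_lit 100)) (.one (nat_lit 0x400b00d00e000801601a01d500)) (.one (nat_lit 0x500b00d00e000a01601a01d500))) (.br (Nat.shiftLeft (nat_lit 0x7) (nat_lit 100)) (.one (nat_lit 0x600b00d00e000c01601a01d500)) (.br (Nat.shiftLeft (nat_lit 0x1) (nat_lit 103)) (.one (nat_lit 0x700b00d00e000e01601a01d500)) (.one (nat_lit 0x800b00d00e001001601a01d500))))))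
def t294 : k294.all (jb2 57 fl b0) = true := by decide +kernel
noncomputable def k295 : KT := (.one (nat_lit 0x900b00d00e001201601a01c540))
def t295 : k295.all (jb2 57 fl b0) = true := by decide +kernel
noncomputable def k296 : KT := (.br (Nat.shiftLeft (nat_lit 0x1) (nat_lit 112)) (.one (nat_lit 0xa00b00d00e001401601a01c540)) (.one (nat_lit 0x100000b00d00e200001601a01c411)))
def t296 : k296.all (jb2 57 fl b0) = true := by decide +kernel
noncomputable def k297 : KT := (.one (nat_lit 0x100200b00d00e200401601a01c650))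
def t297 : k297.all (jb2 57 fl b0) = true := by decide +kernel
noncomputable def k298 : KT := (.one (nat_lit 0x100300b00d00e200601601a01c650))
def t298 : k298.all (jb2 57 fl b0) = true := by decide +kernel
noncomputable def k299 : KT := (.one (nat_lit 0x100400b00d00e200801601a01c650))
def t299 : k299.all (jb2 57 fl b0) = true := by decide +kernel
noncomputable def k300 : KT := (.br (Nat.shiftLeft (nat_lit 0x803) (nat_lit 101)) (.one (nat_lit 0x100500b00d00e200a01601a01c650)) (.br (Nat.shiftLeft (nat_lit 0x1007) (nat_lit 100)) (.one (nat_lit 0x100600b00d00e200c01601a01c650)) (.one (nat_lit 0x100700b00d00e200e01601a01c650))))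
def t300 : k300.all (jb2 57 fl b0) = true := by decide +kernel
noncomputable def k301 : KT := (.br (Nat.shiftLeft (nat_lit 0x1001) (nat_lit 101)) (.br (Nat.shiftLeft (nat_lit 0x1) (nat_lit 113)) (.one (nat_lit 0x100800b00d00e201001601a01c650)) (.one (nat_lit 0x200000b00d00e400001601a01c411))) (.br (Nat.shiftLeft (nat_lit 0x801) (nat_lit 102)) (.one (nat_lit 0x200300b00d00e400601601a01d600)) (.one (nat_lit 0x200400b00d00e400801601a01c650))))
def t301 : k301.all (jb2 57 fl b0) = true := by decide +kernel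
noncomputable def k302 : KT := (.br (Nat.shiftLeft (nat_lit 0x1003) (nat_lit 101)) (.one (nat_lit 0x200500b00d00e400a01601a01c650)) (.one (nat_lit 0x200600b00d00e400c01601a01c650)))
def t302 : k302.all (jb2 57 fl b0) = true := by decide +kernel
noncomputable def k303 : KT := (.br (Nat.shiftLeft (nat_lit 0x401) (nat_lit 103)) (.one (nat_lit 0x200700b00d00e400e01601a01c650)) (.br (Nat.shiftLeft (nat_lit 0x3) (nat_lit 112)) (.one (nat_lit 0x200800b00d00e401001601a01c650)) (.one (nat_lit 0x300000b00d00e600001601a01c411))))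
def t303 : k303.all (jb2 57 fl b0) = true := by decide +kernel
noncomputable def k304 : KT := (.one (nat_lit 0x300400b00d00e600801601a01c650))
def t304 : k304.all (jb2 57 fl b0) = true := by decide +kernel
noncomputable def k305 : KT := (.br (Nat.shiftLeft (nat_lit 0x1803) (nat_lit 101)) (.one (nat_lit 0x300500b00d00e600a01601a01c650)) (.one (nat_lit 0x300600b00d00e600c01601a01c650)))
def t305 : k305.all (jb2 57 fl b0) = true := by decide +kernel
noncomputable def k306 : KT := (.br (Nat.shiftLeft (nat_lit 0x601) (nat_lit 103)) (.one (nat_lit 0x300700b00d00e600e01601a01c650)) (.br (Nat.shiftLeft (nat_lit 0x1) (nat_lit 114)) (.one (nat_lit 0x300800b00d00e601001601a01c650)) (.one (nat_lit 0x400000b00d00e800001601a01c411))))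
def t306 : k306.all (jb2 57 fl b0) = true := by decide +kernel
noncomputable def k307 : KT := (.br (Nat.shiftLeft (nat_lit 0x2003) (nat_lit 101)) (.one (nat_lit 0x400500b00d00e800a01601a01c650)) (.one (nat_lit 0x400600b00d00e800c01601a01c650)))
def t307 : k307.all (jb2 57 fl b0) = true := by decide +kernel
noncomputable def k308 : KT := (.br (Nat.shiftLeft (nat_lit 0x5) (nat_lit 112)) (.br (Nat.shiftLeft (nat_lit 0x801) (nat_lit 103)) (.one (nat_lit 0x400700b00d00e800e01601a01c650)) (.one (nat_lit 0x400800b00d00e801001601a01c650))) (.br (Nat.shiftLeft (nat_lit 0x1401) (nat_lit 102)) (.one (nat_lit 0x500000b00d00ea00001601a01c411)) (.br (Nat.shiftLeft (nat_lit 0x5007) (nat_lit 100)) (.one (nat_lit 0x500600b00d00ea00c01601a01c650)) (.one (nat_lit 0x500700b00d00ea00e01601a01c650)))))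
def t308 : k308.all (jb2 57 fl b0) = true := by decide +kernel
noncomputable def k309 : KT := (.br (Nat.shiftLeft (nat_lit 0xb) (nat_lit 112)) (.br (Nat.shiftLeft (nat_lit 0x7) (nat_lit 112)) (.br (Nat.shiftLeft (nat_lit 0x1801) (nat_lit 102)) (.br (Nat.shiftLeft (nat_lit 0x3) (nat_lit 113)) (.one (nat_lit 0x500800b00d00ea01001601a01c650)) (.one (nat_lit 0x600000b00d00ec00001601a01c411))) (.br (Nat.shiftLeft (nat_lit 0xc01) (nat_lit 103)) (.one (nat_lit 0x600700b00d00ec00e01601a01c650)) (.one (nat_lit 0x600800b00d00ec01001601a01c650)))) (.br (Nat.shiftLeft (nat_lit 0x1) (nat_lit 115)) (.br (Nat.shiftLeft (nat_lit 0xe01) (nat_lit 103)) (.one (nat_lit 0x700000b00d00ee00001601a01c411)) (.one (nat_lit 0x700800b00d00ee01001601a01c650))) (.br (Nat.shiftLeft (nat_lit 0x9) (nat_lit 112)) (.one (nat_lit 0x800000b00d00e000001601a11e411)) (.br (Nat.shiftLeft (nat_lit 0x5) (nat_lit 113)) (.one (nat_lit 0x900000b00d00e200001601a11e411)) (.one (nat_lit 0xa00000b00d00e400001601a11e411)))))) (.br (Nat.shiftLeft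 (nat_lit 0x400001) (nat_lit 102)) (.br (Nat.shiftLeft (nat_lit 0xd) (nat_lit 112)) (.br (Nat.shiftLeft (nat_lit 0x3) (nat_lit 114)) (.one (nat_lit 0xb00000b00d00e600001601a11e411)) (.one (nat_lit 0xc00000b00d00e800001601a11e411))) (.br (Nat.shiftLeft (nat_lit 0x1) (nat_lit 124)) (.one (nat_lit 0xd00000b00d00ea00001601a11e411)) (.br (Nat.shiftLeft (nat_lit 0x1000003) (nat_lit 100)) (.one (nat_lit 0x100000200b00d00e000401603a41c511)) (.one (nat_lit 0x100000300b00d00e000601603a41c511))))) (.br (Nat.shiftLeft (nat_lit 0x800003) (nat_lit 101)) (.br (Nat.shiftLeft (nat_lit 0x1000005) (nat_lit 100)) (.one (nat_lit 0x100000400b00d00e000801603a41c511)) (.one (nat_lit 0x100000500b00d00e000a01603a41c511))) (.br (Nat.shiftLeft (nat_lit 0x1000007) (nat_lit 100)) (.one (nat_lit 0x100000600b00d00e000c01603a41c511)) (.br (Nat.shiftLeft (nat_lit 0x200001) (nat_lit 103)) (.one (nat_lit 0x100000700b00d00e000e01603a41c511)) (.one (nat_lit 0x100000800b00d00e001001603a41c511)))))))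
def t309 : k309.all (jb2 57 fl b0) = true := by decide +kernel
noncomputable def k310 : KT := (.br (Nat.shiftLeft (nat_lit 0xc00001) (nat_lit 102)) (.br (Nat.shiftLeft (nat_lit 0x1000003) (nat_lit 101)) (.br (Nat.shiftLeft (nat_lit 0x2000003) (nat_lit 100)) (.br (Nat.shiftLeft (nat_lit 0x1) (nat_lit 125)) (.one (nat_lit 0x100200300b00d00e400601603a41c760)) (.one (nat_lit 0x200000200b00d00e000401605a81c511))) (.br (Nat.shiftLeft (nat_lit 0x800001) (nat_lit 102)) (.one (nat_lit 0x200000300b00d00e000601605a81c511)) (.br (Nat.shiftLeft (nat_lit 0x2000005) (nat_lit 100)) (.one (nat_lit 0x200000400b00d00e000801605a81c511)) (.one (nat_lit 0x200000500b00d00e000a01605a81c511))))) (.br (Nat.shiftLeft (nat_lit 0x400001) (nat_lit 103)) (.br (Nat.shiftLeft (nat_lit 0x2000007) (nat_lit 100)) (.one (nat_lit 0x200000600b00d00e000c01605a81c511)) (.one (nat_lit 0x200000700b00d00e000e01605a81c511))) (.br (Nat.shiftLeft (nat_lit 0x3) (nat_lit 124)) (.one (nat_lit 0x200000800b00d00e001001605a81c511)) (.br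 (Nat.shiftLeft (nat_lit 0x3000003) (nat_lit 100)) (.one (nat_lit 0x300000200b00d00e000401607ac1c511)) (.one (nat_lit 0x300000300b00d00e000601607ac1c511)))))) (.br (Nat.shiftLeft (nat_lit 0x1) (nat_lit 126)) (.br (Nat.shiftLeft (nat_lit 0x1800003) (nat_lit 101)) (.br (Nat.shiftLeft (nat_lit 0x3000005) (nat_lit 100)) (.one (nat_lit 0x300000400b00d00e000801607ac1c511)) (.one (nat_lit 0x300000500b00d00e000a01607ac1c511))) (.br (Nat.shiftLeft (nat_lit 0x3000007) (nat_lit 100)) (.one (nat_lit 0x300000600b00d00e000c01607ac1c511)) (.br (Nat.shiftLeft (nat_lit 0x600001) (nat_lit 103)) (.one (nat_lit 0x300000700b00d00e000e01607ac1c511)) (.one (nat_lit 0x300000800b00d00e001001607ac1c511))))) (.br (Nat.shiftLeft (nat_lit 0x4000005) (nat_lit 100)) (.br (Nat.shiftLeft (nat_lit 0x4000003) (nat_lit 100)) (.one (nat_lit 0x400000200b00d00e000401609b01c511)) (.br (Nat.shiftLeft (nat_lit 0x1000001) (nat_lit 102)) (.one (nat_lit 0x400000300b00d00e000601609b01c511)) (.one (nat_lit 0x400000400b00d00e000801609b01c511))))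 (.br (Nat.shiftLeft (nat_lit 0x2000003) (nat_lit 101)) (.one (nat_lit 0x400000500b00d00e000a01609b01c511)) (.br (Nat.shiftLeft (nat_lit 0x4000007) (nat_lit 100)) (.one (nat_lit 0x400000600b00d00e000c01609b01c511)) (.one (nat_lit 0x400000700b00d00e000e01609b01c511)))))))
def t310 : k310.all (jb2 57 fl b0) = true := by decide +kernel
noncomputable def k311 : KT := (.br (Nat.shiftLeft (nat_lit 0x5000005) (nat_lit 100)) (.br (Nat.shiftLeft (nat_lit 0x5000003) (nat_lit 100)) (.br (Nat.shiftLeft (nat_lit 0x5) (nat_lit 124)) (.one (nat_lit 0x400000800b00d00e001001609b01c511)) (.one (nat_lit 0x500000200b00d00e00040160bb41c511))) (.br (Nat.shiftLeft (nat_lit 0x1400001) (nat_lit 102)) (.one (nat_lit 0x500000300b00d00e00060160bb41c511)) (.one (nat_lit 0x500000400b00d00e00080160bb41c511)))) (.br (Nat.shiftLeft (nat_lit 0x5000007) (nat_lit 100)) (.br (Nat.shiftLeft (nat_lit 0x2800003) (nat_lit 101)) (.one (nat_lit 0x500000500b00d00e000a0160bb41c511)) (.one (nat_lit 0x500000600b00d00e000c0160bb41c511)))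 (.br (Nat.shiftLeft (nat_lit 0xa00001) (nat_lit 103)) (.one (nat_lit 0x500000700b00d00e000e0160bb41c511)) (.br (Nat.shiftLeft (nat_lit 0x3) (nat_lit 125)) (.one (nat_lit 0x500000800b00d00e00100160bb41c511)) (.one (nat_lit 0x600000200b00d00e00040160db81c511))))))
def t311 : k311.all (jb2 57 fl b0) = true := by decide +kernel
noncomputable def k312 : KT := (.br (Nat.shiftLeft (nat_lit 0x6000007) (nat_lit 100)) (.br (Nat.shiftLeft (nat_lit 0x6000005) (nat_lit 100)) (.br (Nat.shiftLeft (nat_lit 0x1800001) (nat_lit 102)) (.one (nat_lit 0x600000300b00d00e00060160db81c511)) (.one (nat_lit 0x600000400b00d00e00080160db81c511))) (.br (Nat.shiftLeft (nat_lit 0x3000003) (nat_lit 101)) (.one (nat_lit 0x600000500b00d00e000a0160db81c511)) (.one (nat_lit 0x600000600b00d00e000c0160db81c511)))) (.br (Nat.shiftLeft (nat_lit 0x7) (nat_lit 124)) (.br (Nat.shiftLeft (nat_lit 0xc00001) (nat_lit 103)) (.one (nat_lit 0x600000700b00d00e000e0160db81c511)) (.one (nat_lit 0x600000800b00d00e00100160db81c511))) (.br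 (Nat.shiftLeft (nat_lit 0x7000003) (nat_lit 100)) (.one (nat_lit 0x700000200b00d00e00040160fbc1c511)) (.br (Nat.shiftLeft (nat_lit 0x1c00001) (nat_lit 102)) (.one (nat_lit 0x700000300b00d00e00060160fbc1c511)) (.one (nat_lit 0x700000400b00d00e00080160fbc1c511))))))
def t312 : k312.all (jb2 57 fl b0) = true := by decide +kernel
noncomputable def k313 : KT := (.br (Nat.shiftLeft (nat_lit 0x4000003) (nat_lit 101)) (.br (Nat.shiftLeft (nat_lit 0x1) (nat_lit 127)) (.br (Nat.shiftLeft (nat_lit 0x7000007) (nat_lit 100)) (.br (Nat.shiftLeft (nat_lit 0x3800003) (nat_lit 101)) (.one (nat_lit 0x700000500b00d00e000a0160fbc1c511)) (.one (nat_lit 0x700000600b00d00e000c0160fbc1c511))) (.br (Nat.shiftLeft (nat_lit 0xe00001) (nat_lit 103)) (.one (nat_lit 0x700000700b00d00e000e0160fbc1c511)) (.one (nat_lit 0x700000800b00d00e00100160fbc1c511)))) (.br (Nat.shiftLeft (nat_lit 0x2000001) (nat_lit 102)) (.br (Nat.shiftLeft (nat_lit 0x8000003) (nat_lit 100)) (.one (nat_lit 0x800000200b00d00e000401611c01c511))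 (.one (nat_lit 0x800000300b00d00e000601611c01c511))) (.br (Nat.shiftLeft (nat_lit 0x8000005) (nat_lit 100)) (.one (nat_lit 0x800000400b00d00e000801611c01c511)) (.one (nat_lit 0x800000500b00d00e000a01611c01c511))))) (.br (Nat.shiftLeft (nat_lit 0x9000003) (nat_lit 100)) (.br (Nat.shiftLeft (nat_lit 0x1000001) (nat_lit 103)) (.br (Nat.shiftLeft (nat_lit 0x8000007) (nat_lit 100)) (.one (nat_lit 0x800000600b00d00e000c01611c01c511)) (.one (nat_lit 0x800000700b00d00e000e01611c01c511))) (.br (Nat.shiftLeft (nat_lit 0x9) (nat_lit 124)) (.one (nat_lit 0x800000800b00d00e001001611c01c511)) (.one (nat_lit 0x900000200b00d00e000401613c41c511)))) (.br (Nat.shiftLeft (nat_lit 0x9000005) (nat_lit 100)) (.br (Nat.shiftLeft (nat_lit 0x2400001) (nat_lit 102)) (.one (nat_lit 0x900000300b00d00e000601613c41c511)) (.one (nat_lit 0x900000400b00d00e000801613c41c511))) (.br (Nat.shiftLeft (nat_lit 0x4800003) (nat_lit 101)) (.one (nat_lit 0x900000500b00d00e000a01613c41c511)) (.one (nat_lit 0x900000600b00d00e000c01613c41c511))))))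
def t313 : k313.all (jb2 57 fl b0) = true := by decide +kernel
noncomputable def k314 : KT := (.br (Nat.shiftLeft (nat_lit 0xc000003) (nat_lit 100)) (.br (Nat.shiftLeft (nat_lit 0x1400001) (nat_lit 103)) (.br (Nat.shiftLeft (nat_lit 0x2800001) (nat_lit 102)) (.br (Nat.shiftLeft (nat_lit 0x5) (nat_lit 125)) (.br (Nat.shiftLeft (nat_lit 0x1200001) (nat_lit 103)) (.one (nat_lit 0x900000700b00d00e000e01613c41c511)) (.one (nat_lit 0x900000800b00d00e001001613c41c511))) (.br (Nat.shiftLeft (nat_lit 0xa000003) (nat_lit 100)) (.one (nat_lit 0xa00000200b00d00e000401615c81c511)) (.one (nat_lit 0xa00000300b00d00e000601615c81c511)))) (.br (Nat.shiftLeft (nat_lit 0x5000003) (nat_lit 101)) (.br (Nat.shiftLeft (nat_lit 0xa000005) (nat_lit 100)) (.one (nat_lit 0xa00000400b00d00e000801615c81c511)) (.one (nat_lit 0xa00000500b00d00e000a01615c81c511))) (.br (Nat.shiftLeft (nat_lit 0xa000007) (nat_lit 100)) (.one (nat_lit 0xa00000600b00d00e000c01615c81c511)) (.one (nat_lit 0xa00000700b00d00e000e01615c81c511)))))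 (.br (Nat.shiftLeft (nat_lit 0xb000005) (nat_lit 100)) (.br (Nat.shiftLeft (nat_lit 0xb000003) (nat_lit 100)) (.br (Nat.shiftLeft (nat_lit 0xb) (nat_lit 124)) (.one (nat_lit 0xa00000800b00d00e001001615c81c511)) (.one (nat_lit 0xb00000200b00d00e000401617cc1c511))) (.br (Nat.shiftLeft (nat_lit 0x2c00001) (nat_lit 102)) (.one (nat_lit 0xb00000300b00d00e000601617cc1c511)) (.one (nat_lit 0xb00000400b00d00e000801617cc1c511)))) (.br (Nat.shiftLeft (nat_lit 0xb000007) (nat_lit 100)) (.br (Nat.shiftLeft (nat_lit 0x5800003) (nat_lit 101)) (.one (nat_lit 0xb00000500b00d00e000a01617cc1c511)) (.one (nat_lit 0xb00000600b00d00e000c01617cc1c511))) (.br (Nat.shiftLeft (nat_lit 0x1600001) (nat_lit 103)) (.one (nat_lit 0xb00000700b00d00e000e01617cc1c511)) (.br (Nat.shiftLeft (nat_lit 0x3) (nat_lit 126)) (.one (nat_lit 0xb00000800b00d00e001001617cc1c511)) (.one (nat_lit 0xc00000200b00d00e000401619d01c511))))))) (.br (Nat.shiftLeft (nat_lit 0xd000005) (nat_lit 100)) (.br (Nat.shiftLeft (nat_lit 0xc000007)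 (nat_lit 100)) (.br (Nat.shiftLeft (nat_lit 0xc000005) (nat_lit 100)) (.br (Nat.shiftLeft (nat_lit 0x3000001) (nat_lit 102)) (.one (nat_lit 0xc00000300b00d00e000601619d01c511)) (.one (nat_lit 0xc00000400b00d00e000801619d01c511))) (.br (Nat.shiftLeft (nat_lit 0x6000003) (nat_lit 101)) (.one (nat_lit 0xc00000500b00d00e000a01619d01c511)) (.one (nat_lit 0xc00000600b00d00e000c01619d01c511)))) (.br (Nat.shiftLeft (nat_lit 0xd000003) (nat_lit 100)) (.br (Nat.shiftLeft (nat_lit 0xd) (nat_lit 124)) (.one (nat_lit 0xc00000700b00d00e000e01619d01c511)) (.one (nat_lit 0xd00000200b00d00e00040161bd41c511))) (.br (Nat.shiftLeft (nat_lit 0x3400001) (nat_lit 102)) (.one (nat_lit 0xd00000300b00d00e00060161bd41c511)) (.one (nat_lit 0xd00000400b00d00e00080161bd41c511))))) (.br (Nat.shiftLeft (nat_lit 0x3) (nat_lit 136)) (.br (Nat.shiftLeft (nat_lit 0x1) (nat_lit 136)) (.br (Nat.shiftLeft (nat_lit 0x6800003) (nat_lit 101)) (.one (nat_lit 0xd00000500b00d00e000a0161bd41c511)) (.one (nat_lit 0xd00000600b00d00e000c0161bd41c511)))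 (.br (Nat.shiftLeft (nat_lit 0x1) (nat_lit 137)) (.one (nat_lit 0x100000200300b00d00e400603641a01c611)) (.one (nat_lit 0x200000200300b00d00e400605681a01c611)))) (.br (Nat.shiftLeft (nat_lit 0x5) (nat_lit 136)) (.br (Nat.shiftLeft (nat_lit 0x1) (nat_lit 138)) (.one (nat_lit 0x300000200300b00d00e4006076c1a01c611)) (.one (nat_lit 0x400000200300b00d00e400609701a01c611))) (.br (Nat.shiftLeft (nat_lit 0x3) (nat_lit 137)) (.one (nat_lit 0x500000200300b00d00e40060b741a01c611)) (.br (Nat.shiftLeft (nat_lit 0x7) (nat_lit 136)) (.one (nat_lit 0x600000200300b00d00e40060d781a01c611)) (.one (nat_lit 0x700000200300b00d00e40060f7c1a01c611))))))))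
def t314 : k314.all (jb2 57 fl b0) = true := by decide +kernel
noncomputable def k315 : KT := (.br (Nat.shiftLeft (nat_lit 0xb) (nat_lit 136)) (.br (Nat.shiftLeft (nat_lit 0x9) (nat_lit 136)) (.one (nat_lit 0x800000200300b00d00e400611801a01c611)) (.br (Nat.shiftLeft (nat_lit 0x5) (nat_lit 137)) (.one (nat_lit 0x900000200300b00d00e400613841a01c611)) (.one (nat_lit 0xa00000200300b00d00e400615881a01c611)))) (.br (Nat.shiftLeft (nat_lit 0x3) (nat_lit 138)) (.one (nat_lit 0xb00000200300b00d00e4006178c1a01c611)) (.br (Nat.shiftLeft (nat_lit 0xd) (nat_lit 136)) (.one (nat_lit 0xc00000200300b00d00e400619901a01c611)) (.one (nat_lit 0xd00000200300b00d00e40061b941a01c611)))))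
def t315 : k315.all (jb2 57 fl b0) = true := by decide +kernel
noncomputable def s16 : KT := (.br (nat_lit 0x300400b00d00e600801601a01c650) (.br (nat_lit 0x100300b00d00e200601601a01c650) (.br (nat_lit 0x900b00d00e001201601a01c540) (.br (nat_lit 0x800b00d00e001001601a01d500) k294 k295) (.br (nat_lit 0x100000b00d00e200001601a01c411) k296 (.br (nat_lit 0x100200b00d00e200401601a01c650) k297 k298))) (.br (nat_lit 0x200400b00d00e400801601a01c650) (.br (nat_lit 0x100400b00d00e200801601a01c650) k299 (.br (nat_lit 0x100700b00d00e200e01601a01c650) k300 k301)) (.br (nat_lit 0x200600b00d00e400c01601a01c650) k302 (.br (nat_lit 0x300000b00d00e600001601a01c411) k303 k304)))) (.br (nat_lit 0x100000800b00d00e001001603a41c511) (.br (nat_lit 0x400000b00d00e800001601a01c411) (.br (nat_lit 0x300600b00d00e600c01601a01c650) k305 k306) (.br (nat_lit 0x400600b00d00e800c01601a01c650) k307 (.br (nat_lit 0x500700b00d00ea00e01601a01c650) k308 k309))) (.br (nat_lit 0x700000400b00d00e00080160fbc1c511) (.br (nat_lit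 0x400000700b00d00e000e01609b01c511) k310 (.br (nat_lit 0x600000200b00d00e00040160db81c511) k311 k312)) (.br (nat_lit 0x900000600b00d00e000c01613c41c511) k313 (.br (nat_lit 0x700000200300b00d00e40060f7c1a01c611) k314 k315)))))
noncomputable def u16 : KT := (.one (nat_lit 0xb00d00e000001601a01c430))
def w16 : u16.all (wj 57 s16) = true := by decide +kernel
def o16 : OkW 57 (jb2 57 fl) u16 := .lift s16 _ (.br _ _ _ (.br _ _ _ (.br _ _ _ (.br _ _ _ (.leaf b0 k294 t294) (.leaf b0 k295 t295)) (.br _ _ _ (.leaf b0 k296 t296) (.br _ _ _ (.leaf b0 k297 t297) (.leaf b0 k298 t298)))) (.br _ _ _ (.br _ _ _ (.leaf b0 k299 t299) (.br _ _ _ (.leaf b0 k300 t300) (.leaf b0 k301 t301))) (.br _ _ _ (.leaf b0 k302 t302) (.br _ _ _ (.leaf b0 k303 t303) (.leaf b0 k304 t304))))) (.br _ _ _ (.br _ _ _ (.br _ _ _ (.leaf b0 k305 t305) (.leaf b0 k306 t306)) (.br _ _ _ (.leaf b0 k307 t307) (.br _ _ _ (.leaf b0 k308 t308) (.leaf b0 k309 t309)))) (.br _ _ _ (.br _ _ _ (.leaf b0 k310 t310) (.br _ _ _ (.leaf b0 k311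 t311) (.leaf b0 k312 t312))) (.br _ _ _ (.leaf b0 k313 t313) (.br _ _ _ (.leaf b0 k314 t314) (.leaf b0 k315 t315)))))) w16
noncomputable def k316 : KT := (.br (Nat.shiftLeft (nat_lit 0x1) (nat_lit 102)) (.br (Nat.shiftLeft (nat_lit 0x1) (nat_lit 101)) (.br (Nat.shiftLeft (nat_lit 0x1) (nat_lit 100)) (.one (nat_lit 0xb00d00f000001601a01f400)) (.one (nat_lit 0x100b00d00f000201601a01e540))) (.br (Nat.shiftLeft (nat_lit 0x3) (nat_lit 100)) (.one (nat_lit 0x200b00d00f000401601a01f500)) (.one (nat_lit 0x300b00d00f000601601a01f500)))) (.br (Nat.shiftLeft (nat_lit 0x3) (nat_lit 101)) (.br (Nat.shiftLeft (nat_lit 0x5) (nat_lit 100)) (.one (nat_lit 0x400b00d00f000801601a01f500)) (.one (nat_lit 0x500b00d00f000a01601a01f500))) (.br (Nat.shiftLeft (nat_lit 0x7) (nat_lit 100)) (.one (nat_lit 0x600b00d00f000c01601a01f500)) (.one (nat_lit 0x700b00d00f000e01601a01f500)))))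
def t316 : k316.all (jb2 57 fl b0) = true := by decide +kernel
noncomputable def k317 : KT := (.one (nat_lit 0x800b00d00f001001601a01e540))
def t317 : k317.all (jb2 57 fl b0) = true := by decide +kernel
noncomputable def k318 : KT := (.br (Nat.shiftLeft (nat_lit 0x5) (nat_lit 101)) (.one (nat_lit 0x900b00d00f001201601a01e540)) (.br (Nat.shiftLeft (nat_lit 0x1) (nat_lit 112)) (.one (nat_lit 0xa00b00d00f001401601a01e540)) (.one (nat_lit 0x100000b00d00f200001601a01e411))))
def t318 : k318.all (jb2 57 fl b0) = true := by decide +kernel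
noncomputable def k319 : KT := (.one (nat_lit 0x100200b00d00f200401601a01e650))
def t319 : k319.all (jb2 57 fl b0) = true := by decide +kernel
noncomputable def k320 : KT := (.one (nat_lit 0x100300b00d00f200601601a01e650))
def t320 : k320.all (jb2 57 fl b0) = true := by decide +kernel
noncomputable def k321 : KT := (.br (Nat.shiftLeft (nat_lit 0x1005) (nat_lit 100)) (.one (nat_lit 0x100400b00d00f200801601a01e650)) (.br (Nat.shiftLeft (nat_lit 0x803) (nat_lit 101)) (.one (nat_lit 0x100500b00d00f200a01601a01e650)) (.one (nat_lit 0x100600b00d00f200c01601a01e650))))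
def t321 : k321.all (jb2 57 fl b0) = true := by decide +kernel
noncomputable def k322 : KT := (.br (Nat.shiftLeft (nat_lit 0x1) (nat_lit 113)) (.one (nat_lit 0x100700b00d00f200e01601a01e650)) (.br (Nat.shiftLeft (nat_lit 0x1001) (nat_lit 101)) (.one (nat_lit 0x200000b00d00f400001601a01e411)) (.one (nat_lit 0x200300b00d00f400601601a01e650))))
def t322 : k322.all (jb2 57 fl b0) = true := by decide +kernel
noncomputable def k323 : KT := (.br (Nat.shiftLeft (nat_lit 0x2005) (nat_lit 100)) (.one (nat_lit 0x200400b00d00f400801601a01e650)) (.one (nat_lit 0x200500b00d00f400a01601a01e650)))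
def t323 : k323.all (jb2 57 fl b0) = true := by decide +kernel
noncomputable def k324 : KT := (.br (Nat.shiftLeft (nat_lit 0x2007) (nat_lit 100)) (.one (nat_lit 0x200600b00d00f400c01601a01e650)) (.br (Nat.shiftLeft (nat_lit 0x3) (nat_lit 112)) (.one (nat_lit 0x200700b00d00f400e01601a01e650)) (.one (nat_lit 0x300000b00d00f600001601a01e411))))
def t324 : k324.all (jb2 57 fl b0) = true := by decide +kernel
noncomputable def k325 : KT := (.br (Nat.shiftLeft (nat_lit 0x3005) (nat_lit 100)) (.one (nat_lit 0x300400b00d00f600801601a01e650)) (.one (nat_lit 0x300500b00d00f600a01601a01e650)))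
def t325 : k325.all (jb2 57 fl b0) = true := by decide +kernel
noncomputable def k326 : KT := (.br (Nat.shiftLeft (nat_lit 0x1) (nat_lit 114)) (.br (Nat.shiftLeft (nat_lit 0x3007) (nat_lit 100)) (.one (nat_lit 0x300600b00d00f600c01601a01e650)) (.one (nat_lit 0x300700b00d00f600e01601a01e650))) (.br (Nat.shiftLeft (nat_lit 0x1001) (nat_lit 102)) (.one (nat_lit 0x400000b00d00f800001601a01e411)) (.one (nat_lit 0x400500b00d00f800a01601a01e650))))
def t326 : k326.all (jb2 57 fl b0) = true := by decide +kernel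
noncomputable def k327 : KT := (.br (Nat.shiftLeft (nat_lit 0x5007) (nat_lit 100)) (.br (Nat.shiftLeft (nat_lit 0x5) (nat_lit 112)) (.br (Nat.shiftLeft (nat_lit 0x4007) (nat_lit 100)) (.one (nat_lit 0x400600b00d00f800c01601a01e650)) (.one (nat_lit 0x400700b00d00f800e01601a01e650))) (.br (Nat.shiftLeft (nat_lit 0x1401) (nat_lit 102)) (.one (nat_lit 0x500000b00d00fa00001601a01e411)) (.one (nat_lit 0x500600b00d00fa00c01601a01e650)))) (.br (Nat.shiftLeft (nat_lit 0x1801) (nat_lit 102)) (.br (Nat.shiftLeft (nat_lit 0x3) (nat_lit 113)) (.one (nat_lit 0x500700b00d00fa00e01601a01e650)) (.one (nat_lit 0x600000b00d00fc00001601a01e411))) (.br (Nat.shiftLeft (nat_lit 0x7) (nat_lit 112)) (.one (nat_lit 0x600700b00d00fc00e01601a01e650)) (.br (Nat.shiftLeft (nat_lit 0x1) (nat_lit 115)) (.one (nat_lit 0x700000b00d00fe00001601a01e411)) (.one (nat_lit 0x800000b00d00f000001601a120411))))))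
def t327 : k327.all (jb2 57 fl b0) = true := by decide +kernel
noncomputable def k328 : KT := (.br (Nat.shiftLeft (nat_lit 0x1000003) (nat_lit 101)) (.br (Nat.shiftLeft (nat_lit 0x400001) (nat_lit 102)) (.br (Nat.shiftLeft (nat_lit 0x3) (nat_lit 114)) (.br (Nat.shiftLeft (nat_lit 0x5) (nat_lit 113)) (.one (nat_lit 0x900000b00d00f200001601a120411)) (.br (Nat.shiftLeft (nat_lit 0xb) (nat_lit 112)) (.one (nat_lit 0xa00000b00d00f400001601a120411)) (.one (nat_lit 0xb00000b00d00f600001601a120411)))) (.br (Nat.shiftLeft (nat_lit 0x1) (nat_lit 124)) (.br (Nat.shiftLeft (nat_lit 0xd) (nat_lit 112)) (.one (nat_lit 0xc00000b00d00f800001601a120411)) (.one (nat_lit 0xd00000b00d00fa00001601a120411))) (.br (Nat.shiftLeft (nat_lit 0x1000003) (nat_lit 100)) (.one (nat_lit 0x100000200b00d00f000401603a41e511)) (.one (nat_lit 0x100000300b00d00f000601603a41e511))))) (.br (Nat.shiftLeft (nat_lit 0x1) (nat_lit 125)) (.br (Nat.shiftLeft (nat_lit 0x800003) (nat_lit 101)) (.br (Nat.shiftLeft (nat_lit 0x1000005)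 (nat_lit 100)) (.one (nat_lit 0x100000400b00d00f000801603a41e511)) (.one (nat_lit 0x100000500b00d00f000a01603a41e511))) (.br (Nat.shiftLeft (nat_lit 0x1000007) (nat_lit 100)) (.one (nat_lit 0x100000600b00d00f000c01603a41e511)) (.one (nat_lit 0x100000700b00d00f000e01603a41e511)))) (.br (Nat.shiftLeft (nat_lit 0x800001) (nat_lit 102)) (.br (Nat.shiftLeft (nat_lit 0x2000003) (nat_lit 100)) (.one (nat_lit 0x200000200b00d00f000401605a81e511)) (.one (nat_lit 0x200000300b00d00f000601605a81e511))) (.br (Nat.shiftLeft (nat_lit 0x2000005) (nat_lit 100)) (.one (nat_lit 0x200000400b00d00f000801605a81e511)) (.one (nat_lit 0x200000500b00d00f000a01605a81e511)))))) (.br (Nat.shiftLeft (nat_lit 0x1) (nat_lit 126)) (.br (Nat.shiftLeft (nat_lit 0xc00001) (nat_lit 102)) (.br (Nat.shiftLeft (nat_lit 0x3) (nat_lit 124)) (.br (Nat.shiftLeft (nat_lit 0x2000007) (nat_lit 100)) (.one (nat_lit 0x200000600b00d00f000c01605a81e511)) (.one (nat_lit 0x200000700b00d00f000e01605a81e511))) (.br (Nat.shiftLeft (nat_lit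 0x3000003) (nat_lit 100)) (.one (nat_lit 0x300000200b00d00f000401607ac1e511)) (.one (nat_lit 0x300000300b00d00f000601607ac1e511)))) (.br (Nat.shiftLeft (nat_lit 0x1800003) (nat_lit 101)) (.br (Nat.shiftLeft (nat_lit 0x3000005) (nat_lit 100)) (.one (nat_lit 0x300000400b00d00f000801607ac1e511)) (.one (nat_lit 0x300000500b00d00f000a01607ac1e511))) (.br (Nat.shiftLeft (nat_lit 0x3000007) (nat_lit 100)) (.one (nat_lit 0x300000600b00d00f000c01607ac1e511)) (.one (nat_lit 0x300000700b00d00f000e01607ac1e511))))) (.br (Nat.shiftLeft (nat_lit 0x2000003) (nat_lit 101)) (.br (Nat.shiftLeft (nat_lit 0x1000001) (nat_lit 102)) (.br (Nat.shiftLeft (nat_lit 0x4000003) (nat_lit 100)) (.one (nat_lit 0x400000200b00d00f000401609b01e511)) (.one (nat_lit 0x400000300b00d00f000601609b01e511))) (.br (Nat.shiftLeft (nat_lit 0x4000005) (nat_lit 100)) (.one (nat_lit 0x400000400b00d00f000801609b01e511)) (.one (nat_lit 0x400000500b00d00f000a01609b01e511)))) (.br (Nat.shiftLeft (nat_lit 0x5) (nat_lit 124)) (.br (Nat.shiftLeft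 (nat_lit 0x4000007) (nat_lit 100)) (.one (nat_lit 0x400000600b00d00f000c01609b01e511)) (.one (nat_lit 0x400000700b00d00f000e01609b01e511))) (.br (Nat.shiftLeft (nat_lit 0x5000003) (nat_lit 100)) (.one (nat_lit 0x500000200b00d00f00040160bb41e511)) (.one (nat_lit 0x500000300b00d00f00060160bb41e511)))))))
def t328 : k328.all (jb2 57 fl b0) = true := by decide +kernel
noncomputable def k329 : KT := (.br (Nat.shiftLeft (nat_lit 0x6000003) (nat_lit 100)) (.br (Nat.shiftLeft (nat_lit 0x2800003) (nat_lit 101)) (.br (Nat.shiftLeft (nat_lit 0x5000005) (nat_lit 100)) (.one (nat_lit 0x500000400b00d00f00080160bb41e511)) (.one (nat_lit 0x500000500b00d00f000a0160bb41e511))) (.br (Nat.shiftLeft (nat_lit 0x5000007) (nat_lit 100)) (.one (nat_lit 0x500000600b00d00f000c0160bb41e511)) (.br (Nat.shiftLeft (nat_lit 0x3) (nat_lit 125)) (.one (nat_lit 0x500000700b00d00f000e0160bb41e511)) (.one (nat_lit 0x600000200b00d00f00040160db81e511))))) (.br (Nat.shiftLeft (nat_lit 0x3000003) (nat_lit 101)) (.br (Nat.shiftLeft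 (nat_lit 0x1800001) (nat_lit 102)) (.one (nat_lit 0x600000300b00d00f00060160db81e511)) (.br (Nat.shiftLeft (nat_lit 0x6000005) (nat_lit 100)) (.one (nat_lit 0x600000400b00d00f00080160db81e511)) (.one (nat_lit 0x600000500b00d00f000a0160db81e511)))) (.br (Nat.shiftLeft (nat_lit 0x6000007) (nat_lit 100)) (.one (nat_lit 0x600000600b00d00f000c0160db81e511)) (.br (Nat.shiftLeft (nat_lit 0x7) (nat_lit 124)) (.one (nat_lit 0x600000700b00d00f000e0160db81e511)) (.one (nat_lit 0x700000200b00d00f00040160fbc1e511))))))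
def t329 : k329.all (jb2 57 fl b0) = true := by decide +kernel
noncomputable def k330 : KT := (.br (Nat.shiftLeft (nat_lit 0x9) (nat_lit 124)) (.br (Nat.shiftLeft (nat_lit 0x1) (nat_lit 127)) (.br (Nat.shiftLeft (nat_lit 0x7000005) (nat_lit 100)) (.br (Nat.shiftLeft (nat_lit 0x1c00001) (nat_lit 102)) (.one (nat_lit 0x700000300b00d00f00060160fbc1e511)) (.one (nat_lit 0x700000400b00d00f00080160fbc1e511))) (.br (Nat.shiftLeft (nat_lit 0x3800003) (nat_lit 101)) (.one (nat_lit 0x700000500b00d00f000a0160fbc1e511)) (.br (Nat.shiftLeft (nat_lit 0x7000007) (nat_lit 100)) (.one (nat_lit 0x700000600b00d00f000c0160fbc1e511)) (.one (nat_lit 0x700000700b00d00f000e0160fbc1e511))))) (.br (Nat.shiftLeft (nat_lit 0x8000005) (nat_lit 100)) (.br (Nat.shiftLeft (nat_lit 0x8000003) (nat_lit 100)) (.one (nat_lit 0x800000200b00d00f000401611c01e511)) (.br (Nat.shiftLeft (nat_lit 0x2000001) (nat_lit 102)) (.one (nat_lit 0x800000300b00d00f000601611c01e511)) (.one (nat_lit 0x800000400b00d00f000801611c01e511))))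 (.br (Nat.shiftLeft (nat_lit 0x4000003) (nat_lit 101)) (.one (nat_lit 0x800000500b00d00f000a01611c01e511)) (.br (Nat.shiftLeft (nat_lit 0x8000007) (nat_lit 100)) (.one (nat_lit 0x800000600b00d00f000c01611c01e511)) (.one (nat_lit 0x800000700b00d00f000e01611c01e511)))))) (.br (Nat.shiftLeft (nat_lit 0x9000007) (nat_lit 100)) (.br (Nat.shiftLeft (nat_lit 0x2400001) (nat_lit 102)) (.br (Nat.shiftLeft (nat_lit 0x9000003) (nat_lit 100)) (.one (nat_lit 0x900000200b00d00f000401613c41e511)) (.one (nat_lit 0x900000300b00d00f000601613c41e511))) (.br (Nat.shiftLeft (nat_lit 0x9000005) (nat_lit 100)) (.one (nat_lit 0x900000400b00d00f000801613c41e511)) (.br (Nat.shiftLeft (nat_lit 0x4800003) (nat_lit 101)) (.one (nat_lit 0x900000500b00d00f000a01613c41e511)) (.one (nat_lit 0x900000600b00d00f000c01613c41e511))))) (.br (Nat.shiftLeft (nat_lit 0x2800001) (nat_lit 102)) (.br (Nat.shiftLeft (nat_lit 0x5) (nat_lit 125)) (.one (nat_lit 0x900000700b00d00f000e01613c41e511)) (.br (Nat.shiftLeft (nat_lit 0xa000003)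 (nat_lit 100)) (.one (nat_lit 0xa00000200b00d00f000401615c81e511)) (.one (nat_lit 0xa00000300b00d00f000601615c81e511)))) (.br (Nat.shiftLeft (nat_lit 0xa000005) (nat_lit 100)) (.one (nat_lit 0xa00000400b00d00f000801615c81e511)) (.br (Nat.shiftLeft (nat_lit 0x5000003) (nat_lit 101)) (.one (nat_lit 0xa00000500b00d00f000a01615c81e511)) (.one (nat_lit 0xa00000600b00d00f000c01615c81e511)))))))
def t330 : k330.all (jb2 57 fl b0) = true := by decide +kernel
noncomputable def k331 : KT := (.br (Nat.shiftLeft (nat_lit 0xc000003) (nat_lit 100)) (.br (Nat.shiftLeft (nat_lit 0xb000005) (nat_lit 100)) (.br (Nat.shiftLeft (nat_lit 0xb000003) (nat_lit 100)) (.br (Nat.shiftLeft (nat_lit 0xb) (nat_lit 124)) (.one (nat_lit 0xa00000700b00d00f000e01615c81e511)) (.one (nat_lit 0xb00000200b00d00f000401617cc1e511))) (.br (Nat.shiftLeft (nat_lit 0x2c00001) (nat_lit 102)) (.one (nat_lit 0xb00000300b00d00f000601617cc1e511)) (.one (nat_lit 0xb00000400b00d00f000801617cc1e511)))) (.br (Nat.shiftLeft (nat_lit 0xb000007)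 (nat_lit 100)) (.br (Nat.shiftLeft (nat_lit 0x5800003) (nat_lit 101)) (.one (nat_lit 0xb00000500b00d00f000a01617cc1e511)) (.one (nat_lit 0xb00000600b00d00f000c01617cc1e511))) (.br (Nat.shiftLeft (nat_lit 0x3) (nat_lit 126)) (.one (nat_lit 0xb00000700b00d00f000e01617cc1e511)) (.one (nat_lit 0xc00000200b00d00f000401619d01e511))))) (.br (Nat.shiftLeft (nat_lit 0xd) (nat_lit 124)) (.br (Nat.shiftLeft (nat_lit 0xc000005) (nat_lit 100)) (.br (Nat.shiftLeft (nat_lit 0x3000001) (nat_lit 102)) (.one (nat_lit 0xc00000300b00d00f000601619d01e511)) (.one (nat_lit 0xc00000400b00d00f000801619d01e511))) (.br (Nat.shiftLeft (nat_lit 0x6000003) (nat_lit 101)) (.one (nat_lit 0xc00000500b00d00f000a01619d01e511)) (.one (nat_lit 0xc00000600b00d00f000c01619d01e511)))) (.br (Nat.shiftLeft (nat_lit 0x3400001) (nat_lit 102)) (.br (Nat.shiftLeft (nat_lit 0xd000003) (nat_lit 100)) (.one (nat_lit 0xd00000200b00d00f00040161bd41e511)) (.one (nat_lit 0xd00000300b00d00f00060161bd41e511))) (.br (Nat.shiftLeft (nat_lit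 0xd000005) (nat_lit 100)) (.one (nat_lit 0xd00000400b00d00f00080161bd41e511)) (.one (nat_lit 0xd00000500b00d00f000a0161bd41e511))))))
def t331 : k331.all (jb2 57 fl b0) = true := by decide +kernel
noncomputable def s17 : KT := (.br (nat_lit 0x200500b00d00f400a01601a01e650) (.br (nat_lit 0x100200b00d00f200401601a01e650) (.br (nat_lit 0x800b00d00f001001601a01e540) (.br (nat_lit 0x700b00d00f000e01601a01f500) k316 k317) (.br (nat_lit 0x100000b00d00f200001601a01e411) k318 k319)) (.br (nat_lit 0x100600b00d00f200c01601a01e650) (.br (nat_lit 0x100300b00d00f200601601a01e650) k320 k321) (.br (nat_lit 0x200300b00d00f400601601a01e650) k322 k323))) (.br (nat_lit 0x800000b00d00f000001601a120411) (.br (nat_lit 0x300500b00d00f600a01601a01e650) (.br (nat_lit 0x300000b00d00f600001601a01e411) k324 k325) (.br (nat_lit 0x400500b00d00f800a01601a01e650) k326 k327)) (.br (nat_lit 0x700000200b00d00f00040160fbc1e511) (.br (nat_lit 0x500000300b00d00f00060160bb41e511) k328 k329) (.br (nat_lit 0xa00000600b00d00f000c01615c81e511)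 k330 k331))))
noncomputable def u17 : KT := (.one (nat_lit 0xb00d00f000001601a01e430))
def w17 : u17.all (wj 57 s17) = true := by decide +kernel
def o17 : OkW 57 (jb2 57 fl) u17 := .lift s17 _ (.br _ _ _ (.br _ _ _ (.br _ _ _ (.br _ _ _ (.leaf b0 k316 t316) (.leaf b0 k317 t317)) (.br _ _ _ (.leaf b0 k318 t318) (.leaf b0 k319 t319))) (.br _ _ _ (.br _ _ _ (.leaf b0 k320 t320) (.leaf b0 k321 t321)) (.br _ _ _ (.leaf b0 k322 t322) (.leaf b0 k323 t323)))) (.br _ _ _ (.br _ _ _ (.br _ _ _ (.leaf b0 k324 t324) (.leaf b0 k325 t325)) (.br _ _ _ (.leaf b0 k326 t326) (.leaf b0 k327 t327))) (.br _ _ _ (.br _ _ _ (.leaf b0 k328 t328) (.leaf b0 k329 t329)) (.br _ _ _ (.leaf b0 k330 t330) (.leaf b0 k331 t331))))) w17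
noncomputable def k332 : KT := (.br (Nat.shiftLeft (nat_lit 0xb00d011) (nat_lit 64)) (.one (nat_lit 0xb00d010000001601a021400)) (.br (Nat.shiftLeft (nat_lit 0x1) (nat_lit 100)) (.one (nat_lit 0xb00d011000001601a023400)) (.one (nat_lit 0x100b00d010000201601a020540))))
def t332 : k332.all (jb2 57 fl b0) = true := by decide +kernel
noncomputable def k333 : KT := (.br (Nat.shiftLeft (nat_lit 0x1) (nat_lit 101)) (.one (nat_lit 0x100b00d011000201601a022540)) (.one (nat_lit 0x200b00d010000401601a021500)))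
def t333 : k333.all (jb2 57 fl b0) = true := by decide +kernel
noncomputable def k334 : KT := (.br (Nat.shiftLeft (nat_lit 0x1) (nat_lit 102)) (.br (Nat.shiftLeft (nat_lit 0x3) (nat_lit 100)) (.one (nat_lit 0x200b00d011000401601a022540)) (.br (Nat.shiftLeft (nat_lit 0x300b00d011) (nat_lit 64)) (.one (nat_lit 0x300b00d010000601601a021500)) (.one (nat_lit 0x300b00d011000601601a023500)))) (.br (Nat.shiftLeft (nat_lit 0x400b00d011) (nat_lit 64)) (.one (nat_lit 0x400b00d010000801601a021500)) (.br (Nat.shiftLeft (nat_lit 0x5) (nat_lit 100)) (.one (nat_lit 0x400b00d011000801601a023500)) (.one (nat_lit 0x500b00d010000a01601a021500)))))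
def t334 : k334.all (jb2 57 fl b0) = true := by decide +kernel
noncomputable def k335 : KT := (.br (Nat.shiftLeft (nat_lit 0x3) (nat_lit 101)) (.one (nat_lit 0x500b00d011000a01601a022540)) (.one (nat_lit 0x600b00d010000c01601a021500)))
def t335 : k335.all (jb2 57 fl b0) = true := by decide +kernel
noncomputable def k336 : KT := (.one (nat_lit 0x600b00d011000c01601a022540))
def t336 : k336.all (jb2 57 fl b0) = true := by decide +kernel
noncomputable def k337 : KT := (.one (nat_lit 0x700b00d010000e01601a020540))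
def t337 : k337.all (jb2 57 fl b0) = true := by decide +kernel
noncomputable def k338 : KT := (.br (Nat.shiftLeft (nat_lit 0x1) (nat_lit 103)) (.one (nat_lit 0x700b00d011000e01601a022540)) (.one (nat_lit 0x800b00d010001001601a020540)))
def t338 : k338.all (jb2 57 fl b0) = true := by decide +kernel
noncomputable def k339 : KT := (.br (Nat.shiftLeft (nat_lit 0x9) (nat_lit 100)) (.one (nat_lit 0x800b00d011001001601a022540)) (.br (Nat.shiftLeft (nat_lit 0x900b00d011) (nat_lit 64)) (.one (nat_lit 0x900b00d010001201601a020540)) (.one (nat_lit 0x900b00d011001201601a022540))))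
def t339 : k339.all (jb2 57 fl b0) = true := by decide +kernel
noncomputable def k340 : KT := (.br (Nat.shiftLeft (nat_lit 0x1) (nat_lit 112)) (.br (Nat.shiftLeft (nat_lit 0xa00b00d011) (nat_lit 64)) (.one (nat_lit 0xa00b00d010001401601a020540)) (.one (nat_lit 0xa00b00d011001401601a022540))) (.br (Nat.shiftLeft (nat_lit 0x100000b00d011) (nat_lit 64)) (.one (nat_lit 0x100000b00d010200001601a020411)) (.br (Nat.shiftLeft (nat_lit 0x801) (nat_lit 101)) (.one (nat_lit 0x100000b00d011200001601a022411)) (.one (nat_lit 0x100200b00d010200401601a020650)))))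
def t340 : k340.all (jb2 57 fl b0) = true := by decide +kernel
noncomputable def k341 : KT := (.br (Nat.shiftLeft (nat_lit 0x100300b00d011) (nat_lit 64)) (.one (nat_lit 0x100300b00d010200601601a020650)) (.one (nat_lit 0x100300b00d011200601601a022650)))
def t341 : k341.all (jb2 57 fl b0) = true := by decide +kernel
noncomputable def k342 : KT := (.br (Nat.shiftLeft (nat_lit 0x803) (nat_lit 101)) (.br (Nat.shiftLeft (nat_lit 0x100400b00d011) (nat_lit 64)) (.one (nat_lit 0x100400b00d010200801601a020650)) (.br (Nat.shiftLeft (nat_lit 0x1005) (nat_lit 100)) (.one (nat_lit 0x100400b00d011200801601a022650)) (.one (nat_lit 0x100500b00d010200a01601a020650)))) (.br (Nat.shiftLeft (nat_lit 0x1) (nat_lit 113)) (.one (nat_lit 0x100600b00d010200c01601a020650)) (.br (Nat.shiftLeft (nat_lit 0x200000b00d011) (nat_lit 64)) (.one (nat_lit 0x200000b00d010400001601a020411)) (.one (nat_lit 0x200000b00d011400001601a022411)))))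
def t342 : k342.all (jb2 57 fl b0) = true := by decide +kernel
noncomputable def k343 : KT := (.br (Nat.shiftLeft (nat_lit 0x200300b00d011) (nat_lit 64)) (.one (nat_lit 0x200300b00d010400601601a020650)) (.one (nat_lit 0x200300b00d011400601601a022650)))
def t343 : k343.all (jb2 57 fl b0) = true := by decide +kernel
noncomputable def k344 : KT := (.br (Nat.shiftLeft (nat_lit 0x200400b00d011) (nat_lit 64)) (.one (nat_lit 0x200400b00d010400801601a020650)) (.br (Nat.shiftLeft (nat_lit 0x2005) (nat_lit 100)) (.one (nat_lit 0x200400b00d011400801601a022650)) (.one (nat_lit 0x200500b00d010400a01601a020650))))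
def t344 : k344.all (jb2 57 fl b0) = true := by decide +kernel
noncomputable def k345 : KT := (.br (Nat.shiftLeft (nat_lit 0x300000b00d011) (nat_lit 64)) (.br (Nat.shiftLeft (nat_lit 0x3) (nat_lit 112)) (.one (nat_lit 0x200600b00d010400c01601a020650)) (.one (nat_lit 0x300000b00d010600001601a020411))) (.br (Nat.shiftLeft (nat_lit 0xc01) (nat_lit 102)) (.one (nat_lit 0x300000b00d011600001601a022411)) (.br (Nat.shiftLeft (nat_lit 0x300400b00d011) (nat_lit 64)) (.one (nat_lit 0x300400b00d010600801601a020650)) (.one (nat_lit 0x300400b00d011600801601a022650)))))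
def t345 : k345.all (jb2 57 fl b0) = true := by decide +kernel
noncomputable def k346 : KT := (.br (Nat.shiftLeft (nat_lit 0x1001) (nat_lit 102)) (.br (Nat.shiftLeft (nat_lit 0x1) (nat_lit 114)) (.br (Nat.shiftLeft (nat_lit 0x1803) (nat_lit 101)) (.one (nat_lit 0x300500b00d010600a01601a020650)) (.one (nat_lit 0x300600b00d010600c01601a020650))) (.br (Nat.shiftLeft (nat_lit 0x400000b00d011) (nat_lit 64)) (.one (nat_lit 0x400000b00d010800001601a020411)) (.one (nat_lit 0x400000b00d011800001601a022411)))) (.br (Nat.shiftLeft (nat_lit 0x5) (nat_lit 112)) (.br (Nat.shiftLeft (nat_lit 0x2003) (nat_lit 101)) (.one (nat_lit 0x400500b00d010800a01601a020650)) (.one (nat_lit 0x400600b00d010800c01601a020650))) (.br (Nat.shiftLeft (nat_lit 0x500000b00d011) (nat_lit 64)) (.one (nat_lit 0x500000b00d010a00001601a020411)) (.one (nat_lit 0x500000b00d011a00001601a022411)))))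
def t346 : k346.all (jb2 57 fl b0) = true := by decide +kernel
noncomputable def k347 : KT := (.br (Nat.shiftLeft (nat_lit 0x100000300b00d011) (nat_lit 64)) (.br (Nat.shiftLeft (nat_lit 0x5) (nat_lit 113)) (.br (Nat.shiftLeft (nat_lit 0x700000b00d011) (nat_lit 64)) (.br (Nat.shiftLeft (nat_lit 0x600000b00d011) (nat_lit 64)) (.br (Nat.shiftLeft (nat_lit 0x3) (nat_lit 113)) (.one (nat_lit 0x500600b00d010a00c01601a020650)) (.one (nat_lit 0x600000b00d010c00001601a020411))) (.br (Nat.shiftLeft (nat_lit 0x7) (nat_lit 112)) (.one (nat_lit 0x600000b00d011c00001601a022411)) (.one (nat_lit 0x700000b00d010e00001601a020411)))) (.br (Nat.shiftLeft (nat_lit 0x800000b00d011) (nat_lit 64)) (.br (Nat.shiftLeft (nat_lit 0x1) (nat_lit 115)) (.one (nat_lit 0x700000b00d011e00001601a022411)) (.one (nat_lit 0x800000b00d010000001601a122411))) (.br (Nat.shiftLeft (nat_lit 0x9) (nat_lit 112)) (.one (nat_lit 0x800000b00d011000001601a124411)) (.br (Nat.shiftLeft (nat_lit 0x900000b00d011) (nat_lit 64)) (.one (nat_lit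 0x900000b00d010200001601a122411)) (.one (nat_lit 0x900000b00d011200001601a124411)))))) (.br (Nat.shiftLeft (nat_lit 0xc00000b00d011) (nat_lit 64)) (.br (Nat.shiftLeft (nat_lit 0xb) (nat_lit 112)) (.br (Nat.shiftLeft (nat_lit 0xa00000b00d011) (nat_lit 64)) (.one (nat_lit 0xa00000b00d010400001601a122411)) (.one (nat_lit 0xa00000b00d011400001601a124411))) (.br (Nat.shiftLeft (nat_lit 0xb00000b00d011) (nat_lit 64)) (.one (nat_lit 0xb00000b00d010600001601a122411)) (.br (Nat.shiftLeft (nat_lit 0x3) (nat_lit 114)) (.one (nat_lit 0xb00000b00d011600001601a124411)) (.one (nat_lit 0xc00000b00d010800001601a122411))))) (.br (Nat.shiftLeft (nat_lit 0xd00000b00d011) (nat_lit 64)) (.br (Nat.shiftLeft (nat_lit 0xd) (nat_lit 112)) (.one (nat_lit 0xc00000b00d011800001601a124411)) (.one (nat_lit 0xd00000b00d010a00001601a122411))) (.br (Nat.shiftLeft (nat_lit 0x1) (nat_lit 124)) (.one (nat_lit 0xd00000b00d011a00001601a124411)) (.br (Nat.shiftLeft (nat_lit 0x1000003) (nat_lit 100)) (.one (nat_lit 0x100000200b00d010000401603a420511))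 (.one (nat_lit 0x100000300b00d010000601603a420511))))))) (.br (Nat.shiftLeft (nat_lit 0x2000005) (nat_lit 100)) (.br (Nat.shiftLeft (nat_lit 0x1) (nat_lit 125)) (.br (Nat.shiftLeft (nat_lit 0x100000400b00d011) (nat_lit 64)) (.br (Nat.shiftLeft (nat_lit 0x400001) (nat_lit 102)) (.one (nat_lit 0x100000300b00d011000601603a422511)) (.one (nat_lit 0x100000400b00d010000801603a420511))) (.br (Nat.shiftLeft (nat_lit 0x1000005) (nat_lit 100)) (.one (nat_lit 0x100000400b00d011000801603a422511)) (.br (Nat.shiftLeft (nat_lit 0x800003) (nat_lit 101)) (.one (nat_lit 0x100000500b00d010000a01603a420511)) (.one (nat_lit 0x100000600b00d010000c01603a420511))))) (.br (Nat.shiftLeft (nat_lit 0x200000300b00d011) (nat_lit 64)) (.br (Nat.shiftLeft (nat_lit 0x2000003) (nat_lit 100)) (.one (nat_lit 0x200000200b00d010000401605a820511)) (.one (nat_lit 0x200000300b00d010000601605a820511))) (.br (Nat.shiftLeft (nat_lit 0x800001) (nat_lit 102)) (.one (nat_lit 0x200000300b00d011000601605a822511)) (.br (Nat.shiftLeft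 (nat_lit 0x200000400b00d011) (nat_lit 64)) (.one (nat_lit 0x200000400b00d010000801605a820511)) (.one (nat_lit 0x200000400b00d011000801605a822511)))))) (.br (Nat.shiftLeft (nat_lit 0xc00001) (nat_lit 102)) (.br (Nat.shiftLeft (nat_lit 0x3) (nat_lit 124)) (.br (Nat.shiftLeft (nat_lit 0x1000003) (nat_lit 101)) (.one (nat_lit 0x200000500b00d010000a01605a820511)) (.one (nat_lit 0x200000600b00d010000c01605a820511))) (.br (Nat.shiftLeft (nat_lit 0x3000003) (nat_lit 100)) (.one (nat_lit 0x300000200b00d010000401607ac20511)) (.br (Nat.shiftLeft (nat_lit 0x300000300b00d011) (nat_lit 64)) (.one (nat_lit 0x300000300b00d010000601607ac20511)) (.one (nat_lit 0x300000300b00d011000601607ac22511))))) (.br (Nat.shiftLeft (nat_lit 0x3000005) (nat_lit 100)) (.br (Nat.shiftLeft (nat_lit 0x300000400b00d011) (nat_lit 64)) (.one (nat_lit 0x300000400b00d010000801607ac20511)) (.one (nat_lit 0x300000400b00d011000801607ac22511))) (.br (Nat.shiftLeft (nat_lit 0x1800003) (nat_lit 101)) (.one (nat_lit 0x300000500b00d010000a01607ac20511))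 (.br (Nat.shiftLeft (nat_lit 0x1) (nat_lit 126)) (.one (nat_lit 0x300000600b00d010000c01607ac20511)) (.one (nat_lit 0x400000200b00d010000401609b020511))))))))
def t347 : k347.all (jb2 57 fl b0) = true := by decide +kernel
noncomputable def k348 : KT := (.br (Nat.shiftLeft (nat_lit 0x5000003) (nat_lit 100)) (.br (Nat.shiftLeft (nat_lit 0x400000400b00d011) (nat_lit 64)) (.br (Nat.shiftLeft (nat_lit 0x400000300b00d011) (nat_lit 64)) (.one (nat_lit 0x400000300b00d010000601609b020511)) (.br (Nat.shiftLeft (nat_lit 0x1000001) (nat_lit 102)) (.one (nat_lit 0x400000300b00d011000601609b022511)) (.one (nat_lit 0x400000400b00d010000801609b020511)))) (.br (Nat.shiftLeft (nat_lit 0x2000003) (nat_lit 101)) (.br (Nat.shiftLeft (nat_lit 0x4000005) (nat_lit 100)) (.one (nat_lit 0x400000400b00d011000801609b022511)) (.one (nat_lit 0x400000500b00d010000a01609b020511))) (.br (Nat.shiftLeft (nat_lit 0x5) (nat_lit 124)) (.one (nat_lit 0x400000600b00d010000c01609b020511)) (.one (nat_lit 0x500000200b00d01000040160bb420511)))))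 (.br (Nat.shiftLeft (nat_lit 0x500000400b00d011) (nat_lit 64)) (.br (Nat.shiftLeft (nat_lit 0x500000300b00d011) (nat_lit 64)) (.one (nat_lit 0x500000300b00d01000060160bb420511)) (.br (Nat.shiftLeft (nat_lit 0x1400001) (nat_lit 102)) (.one (nat_lit 0x500000300b00d01100060160bb422511)) (.one (nat_lit 0x500000400b00d01000080160bb420511)))) (.br (Nat.shiftLeft (nat_lit 0x2800003) (nat_lit 101)) (.br (Nat.shiftLeft (nat_lit 0x5000005) (nat_lit 100)) (.one (nat_lit 0x500000400b00d01100080160bb422511)) (.one (nat_lit 0x500000500b00d010000a0160bb420511))) (.br (Nat.shiftLeft (nat_lit 0x3) (nat_lit 125)) (.one (nat_lit 0x500000600b00d010000c0160bb420511)) (.one (nat_lit 0x600000200b00d01000040160db820511))))))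
def t348 : k348.all (jb2 57 fl b0) = true := by decide +kernel
noncomputable def k349 : KT := (.br (Nat.shiftLeft (nat_lit 0x700000300b00d011) (nat_lit 64)) (.br (Nat.shiftLeft (nat_lit 0x6000005) (nat_lit 100)) (.br (Nat.shiftLeft (nat_lit 0x1800001) (nat_lit 102)) (.br (Nat.shiftLeft (nat_lit 0x600000300b00d011) (nat_lit 64)) (.one (nat_lit 0x600000300b00d01000060160db820511)) (.one (nat_lit 0x600000300b00d01100060160db822511))) (.br (Nat.shiftLeft (nat_lit 0x600000400b00d011) (nat_lit 64)) (.one (nat_lit 0x600000400b00d01000080160db820511)) (.one (nat_lit 0x600000400b00d01100080160db822511)))) (.br (Nat.shiftLeft (nat_lit 0x7) (nat_lit 124)) (.br (Nat.shiftLeft (nat_lit 0x3000003) (nat_lit 101)) (.one (nat_lit 0x600000500b00d010000a0160db820511)) (.one (nat_lit 0x600000600b00d010000c0160db820511))) (.br (Nat.shiftLeft (nat_lit 0x7000003) (nat_lit 100)) (.one (nat_lit 0x700000200b00d01000040160fbc20511)) (.one (nat_lit 0x700000300b00d01000060160fbc20511))))) (.br (Nat.shiftLeft (nat_lit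 0x3800003) (nat_lit 101)) (.br (Nat.shiftLeft (nat_lit 0x700000400b00d011) (nat_lit 64)) (.br (Nat.shiftLeft (nat_lit 0x1c00001) (nat_lit 102)) (.one (nat_lit 0x700000300b00d01100060160fbc22511)) (.one (nat_lit 0x700000400b00d01000080160fbc20511))) (.br (Nat.shiftLeft (nat_lit 0x7000005) (nat_lit 100)) (.one (nat_lit 0x700000400b00d01100080160fbc22511)) (.one (nat_lit 0x700000500b00d010000a0160fbc20511)))) (.br (Nat.shiftLeft (nat_lit 0x8000003) (nat_lit 100)) (.br (Nat.shiftLeft (nat_lit 0x1) (nat_lit 127)) (.one (nat_lit 0x700000600b00d010000c0160fbc20511)) (.one (nat_lit 0x800000200b00d010000401611c020511))) (.br (Nat.shiftLeft (nat_lit 0x800000300b00d011) (nat_lit 64)) (.one (nat_lit 0x800000300b00d010000601611c020511)) (.one (nat_lit 0x800000300b00d011000601611c022511))))))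
def t349 : k349.all (jb2 57 fl b0) = true := by decide +kernel
noncomputable def k350 : KT := (.br (Nat.shiftLeft (nat_lit 0x5000003) (nat_lit 101)) (.br (Nat.shiftLeft (nat_lit 0x900000400b00d011) (nat_lit 64)) (.br (Nat.shiftLeft (nat_lit 0x9) (nat_lit 124)) (.br (Nat.shiftLeft (nat_lit 0x8000005) (nat_lit 100)) (.br (Nat.shiftLeft (nat_lit 0x800000400b00d011) (nat_lit 64)) (.one (nat_lit 0x800000400b00d010000801611c020511)) (.one (nat_lit 0x800000400b00d011000801611c022511))) (.br (Nat.shiftLeft (nat_lit 0x4000003) (nat_lit 101)) (.one (nat_lit 0x800000500b00d010000a01611c020511)) (.one (nat_lit 0x800000600b00d010000c01611c020511)))) (.br (Nat.shiftLeft (nat_lit 0x900000300b00d011) (nat_lit 64)) (.br (Nat.shiftLeft (nat_lit 0x9000003) (nat_lit 100)) (.one (nat_lit 0x900000200b00d010000401613c420511)) (.one (nat_lit 0x900000300b00d010000601613c420511))) (.br (Nat.shiftLeft (nat_lit 0x2400001) (nat_lit 102)) (.one (nat_lit 0x900000300b00d011000601613c422511)) (.one (nat_lit 0x900000400b00d010000801613c420511)))))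 (.br (Nat.shiftLeft (nat_lit 0xa000003) (nat_lit 100)) (.br (Nat.shiftLeft (nat_lit 0x4800003) (nat_lit 101)) (.br (Nat.shiftLeft (nat_lit 0x9000005) (nat_lit 100)) (.one (nat_lit 0x900000400b00d011000801613c422511)) (.one (nat_lit 0x900000500b00d010000a01613c420511))) (.br (Nat.shiftLeft (nat_lit 0x5) (nat_lit 125)) (.one (nat_lit 0x900000600b00d010000c01613c420511)) (.one (nat_lit 0xa00000200b00d010000401615c820511)))) (.br (Nat.shiftLeft (nat_lit 0x2800001) (nat_lit 102)) (.br (Nat.shiftLeft (nat_lit 0xa00000300b00d011) (nat_lit 64)) (.one (nat_lit 0xa00000300b00d010000601615c820511)) (.one (nat_lit 0xa00000300b00d011000601615c822511))) (.br (Nat.shiftLeft (nat_lit 0xa00000400b00d011) (nat_lit 64)) (.one (nat_lit 0xa00000400b00d010000801615c820511)) (.br (Nat.shiftLeft (nat_lit 0xa000005) (nat_lit 100)) (.one (nat_lit 0xa00000400b00d011000801615c822511)) (.one (nat_lit 0xa00000500b00d010000a01615c820511))))))) (.br (Nat.shiftLeft (nat_lit 0xc000003) (nat_lit 100)) (.br (Nat.shiftLeft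 (nat_lit 0x2c00001) (nat_lit 102)) (.br (Nat.shiftLeft (nat_lit 0xb000003) (nat_lit 100)) (.br (Nat.shiftLeft (nat_lit 0xb) (nat_lit 124)) (.one (nat_lit 0xa00000600b00d010000c01615c820511)) (.one (nat_lit 0xb00000200b00d010000401617cc20511))) (.br (Nat.shiftLeft (nat_lit 0xb00000300b00d011) (nat_lit 64)) (.one (nat_lit 0xb00000300b00d010000601617cc20511)) (.one (nat_lit 0xb00000300b00d011000601617cc22511)))) (.br (Nat.shiftLeft (nat_lit 0xb000005) (nat_lit 100)) (.br (Nat.shiftLeft (nat_lit 0xb00000400b00d011) (nat_lit 64)) (.one (nat_lit 0xb00000400b00d010000801617cc20511)) (.one (nat_lit 0xb00000400b00d011000801617cc22511))) (.br (Nat.shiftLeft (nat_lit 0x5800003) (nat_lit 101)) (.one (nat_lit 0xb00000500b00d010000a01617cc20511)) (.br (Nat.shiftLeft (nat_lit 0x3) (nat_lit 126)) (.one (nat_lit 0xb00000600b00d010000c01617cc20511)) (.one (nat_lit 0xc00000200b00d010000401619d020511)))))) (.br (Nat.shiftLeft (nat_lit 0xc000005) (nat_lit 100)) (.br (Nat.shiftLeft (nat_lit 0x3000001) (nat_lit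 102)) (.br (Nat.shiftLeft (nat_lit 0xc00000300b00d011) (nat_lit 64)) (.one (nat_lit 0xc00000300b00d010000601619d020511)) (.one (nat_lit 0xc00000300b00d011000601619d022511))) (.br (Nat.shiftLeft (nat_lit 0xc00000400b00d011) (nat_lit 64)) (.one (nat_lit 0xc00000400b00d010000801619d020511)) (.one (nat_lit 0xc00000400b00d011000801619d022511)))) (.br (Nat.shiftLeft (nat_lit 0xd000003) (nat_lit 100)) (.br (Nat.shiftLeft (nat_lit 0xd) (nat_lit 124)) (.one (nat_lit 0xc00000500b00d010000a01619d020511)) (.one (nat_lit 0xd00000200b00d01000040161bd420511))) (.br (Nat.shiftLeft (nat_lit 0xd00000300b00d011) (nat_lit 64)) (.one (nat_lit 0xd00000300b00d01000060161bd420511)) (.br (Nat.shiftLeft (nat_lit 0x3400001) (nat_lit 102)) (.one (nat_lit 0xd00000300b00d01100060161bd422511)) (.one (nat_lit 0xd00000400b00d01000080161bd420511))))))))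
def t350 : k350.all (jb2 57 fl b0) = true := by decide +kernel
noncomputable def s18 : KT := (.br (nat_lit 0x100200b00d010200401601a020650) (.br (nat_lit 0x600b00d010000c01601a021500) (.br (nat_lit 0x200b00d010000401601a021500) (.br (nat_lit 0x100b00d010000201601a020540) k332 k333) (.br (nat_lit 0x500b00d010000a01601a021500) k334 k335)) (.br (nat_lit 0x700b00d010000e01601a020540) (.br (nat_lit 0x600b00d011000c01601a022540) k336 k337) (.br (nat_lit 0x800b00d010001001601a020540) k338 (.br (nat_lit 0x900b00d011001201601a022540) k339 k340)))) (.br (nat_lit 0x300400b00d011600801601a022650) (.br (nat_lit 0x200000b00d011400001601a022411) (.br (nat_lit 0x100300b00d011200601601a022650) k341 k342) (.br (nat_lit 0x200300b00d011400601601a022650) k343 (.br (nat_lit 0x200500b00d010400a01601a020650) k344 k345))) (.br (nat_lit 0x400000200b00d010000401609b020511) (.br (nat_lit 0x500000b00d011a00001601a022411) k346 k347) (.br (nat_lit 0x600000200b00d01000040160db820511) k348 (.br (nat_lit 0x800000300b00d011000601611c022511)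 k349 k350)))))
noncomputable def u18 : KT := (.br (Nat.shiftLeft (nat_lit 0xb00d011) (nat_lit 64)) (.one (nat_lit 0xb00d010000001601a020430)) (.one (nat_lit 0xb00d011000001601a022430)))
def w18 : u18.all (wj 57 s18) = true := by decide +kernel
def o18 : OkW 57 (jb2 57 fl) u18 := .lift s18 _ (.br _ _ _ (.br _ _ _ (.br _ _ _ (.br _ _ _ (.leaf b0 k332 t332) (.leaf b0 k333 t333)) (.br _ _ _ (.leaf b0 k334 t334) (.leaf b0 k335 t335))) (.br _ _ _ (.br _ _ _ (.leaf b0 k336 t336) (.leaf b0 k337 t337)) (.br _ _ _ (.leaf b0 k338 t338) (.br _ _ _ (.leaf b0 k339 t339) (.leaf b0 k340 t340))))) (.br _ _ _ (.br _ _ _ (.br _ _ _ (.leaf b0 k341 t341) (.leaf b0 k342 t342)) (.br _ _ _ (.leaf b0 k343 t343) (.br _ _ _ (.leaf b0 k344 t344) (.leaf b0 k345 t345)))) (.br _ _ _ (.br _ _ _ (.leaf b0 k346 t346) (.leaf b0 k347 t347)) (.br _ _ _ (.leaf b0 k348 t348) (.br _ _ _ (.leaf b0 k349 t349) (.leaf b0 k350 t350)))))) w18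
noncomputable def k351 : KT := (.br (Nat.shiftLeft (nat_lit 0xb00d015) (nat_lit 64)) (.br (Nat.shiftLeft (nat_lit 0xb00d013) (nat_lit 64)) (.one (nat_lit 0xb00d012000001601a025400)) (.br (Nat.shiftLeft (nat_lit 0x2c03405) (nat_lit 66)) (.one (nat_lit 0xb00d013000001601a027400)) (.one (nat_lit 0xb00d014000001601a029400)))) (.br (Nat.shiftLeft (nat_lit 0x580680b) (nat_lit 65)) (.one (nat_lit 0xb00d015000001601a02b400)) (.br (Nat.shiftLeft (nat_lit 0xb00d017) (nat_lit 64)) (.one (nat_lit 0xb00d016000001601a02d400)) (.one (nat_lit 0xb00d017000001601a02e430)))))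
def t351 : k351.all (jb2 57 fl b0) = true := by decide +kernel
noncomputable def k352 : KT := (.br (Nat.shiftLeft (nat_lit 0x100b00d013) (nat_lit 64)) (.one (nat_lit 0x100b00d012000201601a024540)) (.one (nat_lit 0x100b00d013000201601a026540)))
def t352 : k352.all (jb2 57 fl b0) = true := by decide +kernel
noncomputable def k353 : KT := (.br (Nat.shiftLeft (nat_lit 0x100b00d015) (nat_lit 64)) (.one (nat_lit 0x100b00d014000201601a028540)) (.br (Nat.shiftLeft (nat_lit 0x80580680b) (nat_lit 65)) (.one (nat_lit 0x100b00d015000201601a02a540)) (.one (nat_lit 0x100b00d016000201601a02c540))))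
def t353 : k353.all (jb2 57 fl b0) = true := by decide +kernel
noncomputable def k354 : KT := (.one (nat_lit 0x200b00d012000401601a024540))
def t354 : k354.all (jb2 57 fl b0) = true := by decide +kernel
noncomputable def k355 : KT := (.br (Nat.shiftLeft (nat_lit 0x802c03405) (nat_lit 66)) (.one (nat_lit 0x200b00d013000401601a026540)) (.one (nat_lit 0x200b00d014000401601a028540)))
def t355 : k355.all (jb2 57 fl b0) = true := by decide +kernel
noncomputable def k356 : KT := (.br (Nat.shiftLeft (nat_lit 0x100580680b) (nat_lit 65)) (.one (nat_lit 0x200b00d015000401601a02a540)) (.one (nat_lit 0x200b00d016000401601a02c540)))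
def t356 : k356.all (jb2 57 fl b0) = true := by decide +kernel
noncomputable def k357 : KT := (.one (nat_lit 0x300b00d012000601601a024540))
def t357 : k357.all (jb2 57 fl b0) = true := by decide +kernel
noncomputable def k358 : KT := (.br (Nat.shiftLeft (nat_lit 0xc02c03405) (nat_lit 66)) (.one (nat_lit 0x300b00d013000601601a026540)) (.one (nat_lit 0x300b00d014000601601a028540)))
def t358 : k358.all (jb2 57 fl b0) = true := by decide +kernel
noncomputable def k359 : KT := (.br (Nat.shiftLeft (nat_lit 0x180580680b) (nat_lit 65)) (.one (nat_lit 0x300b00d015000601601a02a540)) (.one (nat_lit 0x300b00d016000601601a02c540)))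
def t359 : k359.all (jb2 57 fl b0) = true := by decide +kernel
noncomputable def k360 : KT := (.one (nat_lit 0x400b00d012000801601a024540))
def t360 : k360.all (jb2 57 fl b0) = true := by decide +kernel
noncomputable def k361 : KT := (.br (Nat.shiftLeft (nat_lit 0x1002c03405) (nat_lit 66)) (.one (nat_lit 0x400b00d013000801601a026540)) (.one (nat_lit 0x400b00d014000801601a028540)))
def t361 : k361.all (jb2 57 fl b0) = true := by decide +kernel
noncomputable def k362 : KT := (.br (Nat.shiftLeft (nat_lit 0x200580680b) (nat_lit 65)) (.one (nat_lit 0x400b00d015000801601a02a540)) (.one (nat_lit 0x400b00d016000801601a02c540)))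
def t362 : k362.all (jb2 57 fl b0) = true := by decide +kernel
noncomputable def k363 : KT := (.one (nat_lit 0x500b00d012000a01601a024540))
def t363 : k363.all (jb2 57 fl b0) = true := by decide +kernel
noncomputable def k364 : KT := (.br (Nat.shiftLeft (nat_lit 0x1402c03405) (nat_lit 66)) (.one (nat_lit 0x500b00d013000a01601a026540)) (.br (Nat.shiftLeft (nat_lit 0x500b00d015) (nat_lit 64)) (.one (nat_lit 0x500b00d014000a01601a028540)) (.one (nat_lit 0x500b00d015000a01601a02a540))))
def t364 : k364.all (jb2 57 fl b0) = true := by decide +kernel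
noncomputable def k365 : KT := (.br (Nat.shiftLeft (nat_lit 0x3) (nat_lit 101)) (.one (nat_lit 0x500b00d016000a01601a02c540)) (.br (Nat.shiftLeft (nat_lit 0x600b00d013) (nat_lit 64)) (.one (nat_lit 0x600b00d012000c01601a024540)) (.one (nat_lit 0x600b00d013000c01601a026540))))
def t365 : k365.all (jb2 57 fl b0) = true := by decide +kernel
noncomputable def k366 : KT := (.br (Nat.shiftLeft (nat_lit 0x300580680b) (nat_lit 65)) (.br (Nat.shiftLeft (nat_lit 0x600b00d015) (nat_lit 64)) (.one (nat_lit 0x600b00d014000c01601a028540)) (.one (nat_lit 0x600b00d015000c01601a02a540))) (.br (Nat.shiftLeft (nat_lit 0x7) (nat_lit 100)) (.one (nat_lit 0x600b00d016000c01601a02c540)) (.br (Nat.shiftLeft (nat_lit 0x700b00d013) (nat_lit 64)) (.one (nat_lit 0x700b00d012000e01601a024540)) (.one (nat_lit 0x700b00d013000e01601a026540)))))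
def t366 : k366.all (jb2 57 fl b0) = true := by decide +kernel
noncomputable def k367 : KT := (.br (Nat.shiftLeft (nat_lit 0x800b00d015) (nat_lit 64)) (.br (Nat.shiftLeft (nat_lit 0x1) (nat_lit 103)) (.br (Nat.shiftLeft (nat_lit 0x700b00d015) (nat_lit 64)) (.one (nat_lit 0x700b00d014000e01601a028540)) (.br (Nat.shiftLeft (nat_lit 0x380580680b) (nat_lit 65)) (.one (nat_lit 0x700b00d015000e01601a02a540)) (.one (nat_lit 0x700b00d016000e01601a02c540)))) (.br (Nat.shiftLeft (nat_lit 0x800b00d013) (nat_lit 64)) (.one (nat_lit 0x800b00d012001001601a024540)) (.br (Nat.shiftLeft (nat_lit 0x2002c03405) (nat_lit 66)) (.one (nat_lit 0x800b00d013001001601a026540)) (.one (nat_lit 0x800b00d014001001601a028540))))) (.br (Nat.shiftLeft (nat_lit 0x900b00d013) (nat_lit 64)) (.br (Nat.shiftLeft (nat_lit 0x400580680b) (nat_lit 65)) (.one (nat_lit 0x800b00d015001001601a02a540)) (.br (Nat.shiftLeft (nat_lit 0x9) (nat_lit 100)) (.one (nat_lit 0x800b00d016001001601a02c540)) (.one (nat_lit 0x900b00d012001201601a024540))))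 (.br (Nat.shiftLeft (nat_lit 0x900b00d015) (nat_lit 64)) (.br (Nat.shiftLeft (nat_lit 0x2402c03405) (nat_lit 66)) (.one (nat_lit 0x900b00d013001201601a026540)) (.one (nat_lit 0x900b00d014001201601a028540))) (.br (Nat.shiftLeft (nat_lit 0x480580680b) (nat_lit 65)) (.one (nat_lit 0x900b00d015001201601a02a540)) (.one (nat_lit 0x900b00d016001201601a02c540))))))
def t367 : k367.all (jb2 57 fl b0) = true := by decide +kernel
noncomputable def k368 : KT := (.br (Nat.shiftLeft (nat_lit 0x1) (nat_lit 114)) (.br (Nat.shiftLeft (nat_lit 0x1) (nat_lit 113)) (.br (Nat.shiftLeft (nat_lit 0x1) (nat_lit 112)) (.br (Nat.shiftLeft (nat_lit 0x2802c03405) (nat_lit 66)) (.br (Nat.shiftLeft (nat_lit 0xa00b00d013) (nat_lit 64)) (.one (nat_lit 0xa00b00d012001401601a024540)) (.one (nat_lit 0xa00b00d013001401601a026540))) (.br (Nat.shiftLeft (nat_lit 0xa00b00d015) (nat_lit 64)) (.one (nat_lit 0xa00b00d014001401601a028540)) (.br (Nat.shiftLeft (nat_lit 0x500580680b) (nat_lit 65)) (.one (nat_lit 0xa00b00d015001401601a02a540))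 (.one (nat_lit 0xa00b00d016001401601a02c540))))) (.br (Nat.shiftLeft (nat_lit 0x400002c03405) (nat_lit 66)) (.br (Nat.shiftLeft (nat_lit 0x100000b00d013) (nat_lit 64)) (.one (nat_lit 0x100000b00d012200001601a024411)) (.one (nat_lit 0x100000b00d013200001601a026411))) (.br (Nat.shiftLeft (nat_lit 0x100000b00d015) (nat_lit 64)) (.one (nat_lit 0x100000b00d014200001601a028411)) (.br (Nat.shiftLeft (nat_lit 0x80000580680b) (nat_lit 65)) (.one (nat_lit 0x100000b00d015200001601a02a411)) (.one (nat_lit 0x100000b00d016200001601a02c411)))))) (.br (Nat.shiftLeft (nat_lit 0x3) (nat_lit 112)) (.br (Nat.shiftLeft (nat_lit 0x800002c03405) (nat_lit 66)) (.br (Nat.shiftLeft (nat_lit 0x200000b00d013) (nat_lit 64)) (.one (nat_lit 0x200000b00d012400001601a024411)) (.one (nat_lit 0x200000b00d013400001601a026411))) (.br (Nat.shiftLeft (nat_lit 0x200000b00d015) (nat_lit 64)) (.one (nat_lit 0x200000b00d014400001601a028411)) (.br (Nat.shiftLeft (nat_lit 0x100000580680b) (nat_lit 65)) (.one (nat_lit 0x200000b00d015400001601a02a411))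 (.one (nat_lit 0x200000b00d016400001601a02c411))))) (.br (Nat.shiftLeft (nat_lit 0xc00002c03405) (nat_lit 66)) (.br (Nat.shiftLeft (nat_lit 0x300000b00d013) (nat_lit 64)) (.one (nat_lit 0x300000b00d012600001601a024411)) (.one (nat_lit 0x300000b00d013600001601a026411))) (.br (Nat.shiftLeft (nat_lit 0x300000b00d015) (nat_lit 64)) (.one (nat_lit 0x300000b00d014600001601a028411)) (.br (Nat.shiftLeft (nat_lit 0x180000580680b) (nat_lit 65)) (.one (nat_lit 0x300000b00d015600001601a02a411)) (.one (nat_lit 0x300000b00d016600001601a02c411))))))) (.br (Nat.shiftLeft (nat_lit 0x3) (nat_lit 113)) (.br (Nat.shiftLeft (nat_lit 0x5) (nat_lit 112)) (.br (Nat.shiftLeft (nat_lit 0x1000002c03405) (nat_lit 66)) (.br (Nat.shiftLeft (nat_lit 0x400000b00d013) (nat_lit 64)) (.one (nat_lit 0x400000b00d012800001601a024411)) (.one (nat_lit 0x400000b00d013800001601a026411))) (.br (Nat.shiftLeft (nat_lit 0x400000b00d015) (nat_lit 64)) (.one (nat_lit 0x400000b00d014800001601a028411)) (.br (Nat.shiftLeft (nat_lit 0x200000580680b)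 (nat_lit 65)) (.one (nat_lit 0x400000b00d015800001601a02a411)) (.one (nat_lit 0x400000b00d016800001601a02c411))))) (.br (Nat.shiftLeft (nat_lit 0x1400002c03405) (nat_lit 66)) (.br (Nat.shiftLeft (nat_lit 0x500000b00d013) (nat_lit 64)) (.one (nat_lit 0x500000b00d012a00001601a024411)) (.one (nat_lit 0x500000b00d013a00001601a026411))) (.br (Nat.shiftLeft (nat_lit 0x500000b00d015) (nat_lit 64)) (.one (nat_lit 0x500000b00d014a00001601a028411)) (.br (Nat.shiftLeft (nat_lit 0x280000580680b) (nat_lit 65)) (.one (nat_lit 0x500000b00d015a00001601a02a411)) (.one (nat_lit 0x500000b00d016a00001601a02c411)))))) (.br (Nat.shiftLeft (nat_lit 0x7) (nat_lit 112)) (.br (Nat.shiftLeft (nat_lit 0x1800002c03405) (nat_lit 66)) (.br (Nat.shiftLeft (nat_lit 0x600000b00d013) (nat_lit 64)) (.one (nat_lit 0x600000b00d012c00001601a024411)) (.one (nat_lit 0x600000b00d013c00001601a026411))) (.br (Nat.shiftLeft (nat_lit 0x600000b00d015) (nat_lit 64)) (.one (nat_lit 0x600000b00d014c00001601a028411)) (.br (Nat.shiftLeft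 (nat_lit 0x300000580680b) (nat_lit 65)) (.one (nat_lit 0x600000b00d015c00001601a02a411)) (.one (nat_lit 0x600000b00d016c00001601a02c411))))) (.br (Nat.shiftLeft (nat_lit 0x1c00002c03405) (nat_lit 66)) (.br (Nat.shiftLeft (nat_lit 0x700000b00d013) (nat_lit 64)) (.one (nat_lit 0x700000b00d012e00001601a024411)) (.one (nat_lit 0x700000b00d013e00001601a026411))) (.br (Nat.shiftLeft (nat_lit 0x700000b00d015) (nat_lit 64)) (.one (nat_lit 0x700000b00d014e00001601a028411)) (.br (Nat.shiftLeft (nat_lit 0x380000580680b) (nat_lit 65)) (.one (nat_lit 0x700000b00d015e00001601a02a411)) (.one (nat_lit 0x700000b00d016e00001601a02c411))))))))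
def t368 : k368.all (jb2 57 fl b0) = true := by decide +kernel
noncomputable def k369 : KT := (.br (Nat.shiftLeft (nat_lit 0xa00000b00d015) (nat_lit 64)) (.br (Nat.shiftLeft (nat_lit 0x900000b00d013) (nat_lit 64)) (.br (Nat.shiftLeft (nat_lit 0x800000b00d015) (nat_lit 64)) (.br (Nat.shiftLeft (nat_lit 0x800000b00d013) (nat_lit 64)) (.one (nat_lit 0x800000b00d012000001601a126411)) (.br (Nat.shiftLeft (nat_lit 0x2000002c03405) (nat_lit 66)) (.one (nat_lit 0x800000b00d013000001601a128411)) (.one (nat_lit 0x800000b00d014000001601a12a411)))) (.br (Nat.shiftLeft (nat_lit 0x400000580680b) (nat_lit 65)) (.one (nat_lit 0x800000b00d015000001601a12c411)) (.br (Nat.shiftLeft (nat_lit 0x9) (nat_lit 112)) (.one (nat_lit 0x800000b00d016000001601a12e411)) (.one (nat_lit 0x900000b00d012200001601a126411))))) (.br (Nat.shiftLeft (nat_lit 0x480000580680b) (nat_lit 65)) (.br (Nat.shiftLeft (nat_lit 0x2400002c03405) (nat_lit 66)) (.one (nat_lit 0x900000b00d013200001601a128411)) (.br (Nat.shiftLeft (nat_lit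 0x900000b00d015) (nat_lit 64)) (.one (nat_lit 0x900000b00d014200001601a12a411)) (.one (nat_lit 0x900000b00d015200001601a12c411)))) (.br (Nat.shiftLeft (nat_lit 0xa00000b00d013) (nat_lit 64)) (.br (Nat.shiftLeft (nat_lit 0x5) (nat_lit 113)) (.one (nat_lit 0x900000b00d016200001601a12e411)) (.one (nat_lit 0xa00000b00d012400001601a126411))) (.br (Nat.shiftLeft (nat_lit 0x2800002c03405) (nat_lit 66)) (.one (nat_lit 0xa00000b00d013400001601a128411)) (.one (nat_lit 0xa00000b00d014400001601a12a411)))))) (.br (Nat.shiftLeft (nat_lit 0x3) (nat_lit 114)) (.br (Nat.shiftLeft (nat_lit 0xb00000b00d013) (nat_lit 64)) (.br (Nat.shiftLeft (nat_lit 0x500000580680b) (nat_lit 65)) (.one (nat_lit 0xa00000b00d015400001601a12c411)) (.br (Nat.shiftLeft (nat_lit 0xb) (nat_lit 112)) (.one (nat_lit 0xa00000b00d016400001601a12e411)) (.one (nat_lit 0xb00000b00d012600001601a126411)))) (.br (Nat.shiftLeft (nat_lit 0xb00000b00d015) (nat_lit 64)) (.br (Nat.shiftLeft (nat_lit 0x2c00002c03405) (nat_lit 66)) (.one (nat_lit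 0xb00000b00d013600001601a128411)) (.one (nat_lit 0xb00000b00d014600001601a12a411))) (.br (Nat.shiftLeft (nat_lit 0x580000580680b) (nat_lit 65)) (.one (nat_lit 0xb00000b00d015600001601a12c411)) (.one (nat_lit 0xb00000b00d016600001601a12e411))))) (.br (Nat.shiftLeft (nat_lit 0xc00000b00d015) (nat_lit 64)) (.br (Nat.shiftLeft (nat_lit 0xc00000b00d013) (nat_lit 64)) (.one (nat_lit 0xc00000b00d012800001601a126411)) (.br (Nat.shiftLeft (nat_lit 0x3000002c03405) (nat_lit 66)) (.one (nat_lit 0xc00000b00d013800001601a128411)) (.one (nat_lit 0xc00000b00d014800001601a12a411)))) (.br (Nat.shiftLeft (nat_lit 0xd00000b00d013) (nat_lit 64)) (.br (Nat.shiftLeft (nat_lit 0xd) (nat_lit 112)) (.one (nat_lit 0xc00000b00d015800001601a12c411)) (.one (nat_lit 0xd00000b00d012a00001601a126411))) (.br (Nat.shiftLeft (nat_lit 0x3400002c03405) (nat_lit 66)) (.one (nat_lit 0xd00000b00d013a00001601a128411)) (.one (nat_lit 0xd00000b00d014a00001601a12a411)))))))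
def t369 : k369.all (jb2 57 fl b0) = true := by decide +kernel
noncomputable def s19 : KT := (.br (nat_lit 0x300b00d016000601601a02c540) (.br (nat_lit 0x200b00d012000401601a024540) (.br (nat_lit 0x100b00d013000201601a026540) (.br (nat_lit 0xb00d017000001601a02e430) k351 k352) (.br (nat_lit 0x100b00d016000201601a02c540) k353 k354)) (.br (nat_lit 0x200b00d016000401601a02c540) (.br (nat_lit 0x200b00d014000401601a028540) k355 k356) (.br (nat_lit 0x300b00d012000601601a024540) k357 (.br (nat_lit 0x300b00d014000601601a028540) k358 k359)))) (.br (nat_lit 0x500b00d015000a01601a02a540) (.br (nat_lit 0x400b00d014000801601a028540) (.br (nat_lit 0x400b00d012000801601a024540) k360 k361) (.br (nat_lit 0x400b00d016000801601a02c540) k362 (.br (nat_lit 0x500b00d012000a01601a024540) k363 k364))) (.br (nat_lit 0x700b00d013000e01601a026540) (.br (nat_lit 0x600b00d013000c01601a026540) k365 k366) (.br (nat_lit 0x900b00d016001201601a02c540) k367 (.br (nat_lit 0x700000b00d016e00001601a02c411) k368 k369)))))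
noncomputable def u19 : KT := (.br (Nat.shiftLeft (nat_lit 0xb00d015) (nat_lit 64)) (.br (Nat.shiftLeft (nat_lit 0xb00d013) (nat_lit 64)) (.one (nat_lit 0xb00d012000001601a024430)) (.br (Nat.shiftLeft (nat_lit 0x2c03405) (nat_lit 66)) (.one (nat_lit 0xb00d013000001601a026430)) (.one (nat_lit 0xb00d014000001601a028430)))) (.br (Nat.shiftLeft (nat_lit 0x580680b) (nat_lit 65)) (.one (nat_lit 0xb00d015000001601a02a430)) (.br (Nat.shiftLeft (nat_lit 0xb00d017) (nat_lit 64)) (.one (nat_lit 0xb00d016000001601a02c430)) (.one (nat_lit 0xb00d017000001601a02e430)))))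
def w19 : u19.all (wj 57 s19) = true := by decide +kernel
def o19 : OkW 57 (jb2 57 fl) u19 := .lift s19 _ (.br _ _ _ (.br _ _ _ (.br _ _ _ (.br _ _ _ (.leaf b0 k351 t351) (.leaf b0 k352 t352)) (.br _ _ _ (.leaf b0 k353 t353) (.leaf b0 k354 t354))) (.br _ _ _ (.br _ _ _ (.leaf b0 k355 t355) (.leaf b0 k356 t356)) (.br _ _ _ (.leaf b0 k357 t357) (.br _ _ _ (.leaf b0 k358 t358) (.leaf b0 k359 t359))))) (.br _ _ _ (.br _ _ _ (.br _ _ _ (.leaf b0 k360 t360) (.leaf b0 k361 t361)) (.br _ _ _ (.leaf b0 k362 t362) (.br _ _ _ (.leaf b0 k363 t363) (.leaf b0 k364 t364)))) (.br _ _ _ (.br _ _ _ (.leaf b0 k365 t365) (.leaf b0 k366 t366)) (.br _ _ _ (.leaf b0 k367 t367) (.br _ _ _ (.leaf b0 k368 t368) (.leaf b0 k369 t369)))))) w19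
noncomputable def k370 : KT := (.br (Nat.shiftLeft (nat_lit 0xb00e01) (nat_lit 68)) (.one (nat_lit 0xb00e00f000001601c01f400)) (.br (Nat.shiftLeft (nat_lit 0x1) (nat_lit 100)) (.one (nat_lit 0xb00e010000001601c021400)) (.one (nat_lit 0x100b00e00f000201601c01e540))))
def t370 : k370.all (jb2 57 fl b0) = true := by decide +kernel
noncomputable def k371 : KT := (.br (Nat.shiftLeft (nat_lit 0x1) (nat_lit 101)) (.one (nat_lit 0x100b00e010000201601c020540)) (.one (nat_lit 0x200b00e00f000401601c01f500)))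
def t371 : k371.all (jb2 57 fl b0) = true := by decide +kernel
noncomputable def k372 : KT := (.br (Nat.shiftLeft (nat_lit 0x1) (nat_lit 102)) (.br (Nat.shiftLeft (nat_lit 0x3) (nat_lit 100)) (.one (nat_lit 0x200b00e010000401601c020540)) (.br (Nat.shiftLeft (nat_lit 0x300b00e01) (nat_lit 68)) (.one (nat_lit 0x300b00e00f000601601c01f500)) (.one (nat_lit 0x300b00e010000601601c021500)))) (.br (Nat.shiftLeft (nat_lit 0x400b00e01) (nat_lit 68)) (.one (nat_lit 0x400b00e00f000801601c01f500)) (.br (Nat.shiftLeft (nat_lit 0x5) (nat_lit 100)) (.one (nat_lit 0x400b00e010000801601c021500)) (.one (nat_lit 0x500b00e00f000a01601c01f500)))))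
def t372 : k372.all (jb2 57 fl b0) = true := by decide +kernel
noncomputable def k373 : KT := (.br (Nat.shiftLeft (nat_lit 0x3) (nat_lit 101)) (.one (nat_lit 0x500b00e010000a01601c020540)) (.one (nat_lit 0x600b00e00f000c01601c01f500)))
def t373 : k373.all (jb2 57 fl b0) = true := by decide +kernel
noncomputable def k374 : KT := (.one (nat_lit 0x600b00e010000c01601c020540))
def t374 : k374.all (jb2 57 fl b0) = true := by decide +kernel
noncomputable def k375 : KT := (.one (nat_lit 0x700b00e00f000e01601c01e540))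
def t375 : k375.all (jb2 57 fl b0) = true := by decide +kernel
noncomputable def k376 : KT := (.br (Nat.shiftLeft (nat_lit 0x1) (nat_lit 103)) (.one (nat_lit 0x700b00e010000e01601c020540)) (.one (nat_lit 0x800b00e00f001001601c01e540)))
def t376 : k376.all (jb2 57 fl b0) = true := by decide +kernel
noncomputable def k377 : KT := (.br (Nat.shiftLeft (nat_lit 0x9) (nat_lit 100)) (.one (nat_lit 0x800b00e010001001601c020540)) (.br (Nat.shiftLeft (nat_lit 0x900b00e01) (nat_lit 68)) (.one (nat_lit 0x900b00e00f001201601c01e540)) (.one (nat_lit 0x900b00e010001201601c020540))))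
def t377 : k377.all (jb2 57 fl b0) = true := by decide +kernel
noncomputable def k378 : KT := (.br (Nat.shiftLeft (nat_lit 0x1) (nat_lit 112)) (.br (Nat.shiftLeft (nat_lit 0xa00b00e01) (nat_lit 68)) (.one (nat_lit 0xa00b00e00f001401601c01e540)) (.one (nat_lit 0xa00b00e010001401601c020540))) (.br (Nat.shiftLeft (nat_lit 0x100000b00e01) (nat_lit 68)) (.one (nat_lit 0x100000b00e00f200001601c01e411)) (.br (Nat.shiftLeft (nat_lit 0x801) (nat_lit 101)) (.one (nat_lit 0x100000b00e010200001601c020411)) (.one (nat_lit 0x100200b00e00f200401601c01e650)))))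
def t378 : k378.all (jb2 57 fl b0) = true := by decide +kernel
noncomputable def k379 : KT := (.br (Nat.shiftLeft (nat_lit 0x100300b00e01) (nat_lit 68)) (.one (nat_lit 0x100300b00e00f200601601c01e650)) (.one (nat_lit 0x100300b00e010200601601c020650)))
def t379 : k379.all (jb2 57 fl b0) = true := by decide +kernel
noncomputable def k380 : KT := (.br (Nat.shiftLeft (nat_lit 0x803) (nat_lit 101)) (.br (Nat.shiftLeft (nat_lit 0x100400b00e01) (nat_lit 68)) (.one (nat_lit 0x100400b00e00f200801601c01e650)) (.br (Nat.shiftLeft (nat_lit 0x1005) (nat_lit 100)) (.one (nat_lit 0x100400b00e010200801601c020650)) (.one (nat_lit 0x100500b00e00f200a01601c01e650)))) (.br (Nat.shiftLeft (nat_lit 0x1) (nat_lit 113)) (.one (nat_lit 0x100600b00e00f200c01601c01e650)) (.br (Nat.shiftLeft (nat_lit 0x200000b00e01) (nat_lit 68)) (.one (nat_lit 0x200000b00e00f400001601c01e411)) (.one (nat_lit 0x200000b00e010400001601c020411)))))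
def t380 : k380.all (jb2 57 fl b0) = true := by decide +kernel
noncomputable def k381 : KT := (.br (Nat.shiftLeft (nat_lit 0x200300b00e01) (nat_lit 68)) (.one (nat_lit 0x200300b00e00f400601601c01e650)) (.one (nat_lit 0x200300b00e010400601601c020650)))
def t381 : k381.all (jb2 57 fl b0) = true := by decide +kernel
noncomputable def k382 : KT := (.br (Nat.shiftLeft (nat_lit 0x200400b00e01) (nat_lit 68)) (.one (nat_lit 0x200400b00e00f400801601c01e650)) (.br (Nat.shiftLeft (nat_lit 0x2005) (nat_lit 100)) (.one (nat_lit 0x200400b00e010400801601c020650)) (.one (nat_lit 0x200500b00e00f400a01601c01e650))))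
def t382 : k382.all (jb2 57 fl b0) = true := by decide +kernel
noncomputable def k383 : KT := (.br (Nat.shiftLeft (nat_lit 0x300000b00e01) (nat_lit 68)) (.br (Nat.shiftLeft (nat_lit 0x3) (nat_lit 112)) (.one (nat_lit 0x200600b00e00f400c01601c01e650)) (.one (nat_lit 0x300000b00e00f600001601c01e411))) (.br (Nat.shiftLeft (nat_lit 0xc01) (nat_lit 102)) (.one (nat_lit 0x300000b00e010600001601c020411)) (.br (Nat.shiftLeft (nat_lit 0x300400b00e01) (nat_lit 68)) (.one (nat_lit 0x300400b00e00f600801601c01e650)) (.one (nat_lit 0x300400b00e010600801601c020650)))))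
def t383 : k383.all (jb2 57 fl b0) = true := by decide +kernel
noncomputable def k384 : KT := (.br (Nat.shiftLeft (nat_lit 0x1001) (nat_lit 102)) (.br (Nat.shiftLeft (nat_lit 0x1) (nat_lit 114)) (.br (Nat.shiftLeft (nat_lit 0x1803) (nat_lit 101)) (.one (nat_lit 0x300500b00e00f600a01601c01e650)) (.one (nat_lit 0x300600b00e00f600c01601c01e650))) (.br (Nat.shiftLeft (nat_lit 0x400000b00e01) (nat_lit 68)) (.one (nat_lit 0x400000b00e00f800001601c01e411)) (.one (nat_lit 0x400000b00e010800001601c020411)))) (.br (Nat.shiftLeft (nat_lit 0x5) (nat_lit 112)) (.br (Nat.shiftLeft (nat_lit 0x2003) (nat_lit 101)) (.one (nat_lit 0x400500b00e00f800a01601c01e650)) (.one (nat_lit 0x400600b00e00f800c01601c01e650))) (.br (Nat.shiftLeft (nat_lit 0x500000b00e01) (nat_lit 68)) (.one (nat_lit 0x500000b00e00fa00001601c01e411)) (.one (nat_lit 0x500000b00e010a00001601c020411)))))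
def t384 : k384.all (jb2 57 fl b0) = true := by decide +kernel
noncomputable def k385 : KT := (.br (Nat.shiftLeft (nat_lit 0x1000003) (nat_lit 100)) (.br (Nat.shiftLeft (nat_lit 0xa00000b00e01) (nat_lit 68)) (.br (Nat.shiftLeft (nat_lit 0x1) (nat_lit 115)) (.br (Nat.shiftLeft (nat_lit 0x600000b00e01) (nat_lit 68)) (.br (Nat.shiftLeft (nat_lit 0x3) (nat_lit 113)) (.one (nat_lit 0x500600b00e00fa00c01601c01e650)) (.one (nat_lit 0x600000b00e00fc00001601c01e411))) (.br (Nat.shiftLeft (nat_lit 0x7) (nat_lit 112)) (.one (nat_lit 0x600000b00e010c00001601c020411)) (.br (Nat.shiftLeft (nat_lit 0x700000b00e01) (nat_lit 68)) (.one (nat_lit 0x700000b00e00fe00001601c01e411)) (.one (nat_lit 0x700000b00e010e00001601c020411))))) (.br (Nat.shiftLeft (nat_lit 0x9) (nat_lit 112)) (.br (Nat.shiftLeft (nat_lit 0x800000b00e01) (nat_lit 68)) (.one (nat_lit 0x800000b00e00f000001601c120411)) (.one (nat_lit 0x800000b00e010000001601c122411))) (.br (Nat.shiftLeft (nat_lit 0x900000b00e01) (nat_lit 68)) (.one (nat_lit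 0x900000b00e00f200001601c120411)) (.br (Nat.shiftLeft (nat_lit 0x5) (nat_lit 113)) (.one (nat_lit 0x900000b00e010200001601c122411)) (.one (nat_lit 0xa00000b00e00f400001601c120411)))))) (.br (Nat.shiftLeft (nat_lit 0xd) (nat_lit 112)) (.br (Nat.shiftLeft (nat_lit 0xb00000b00e01) (nat_lit 68)) (.br (Nat.shiftLeft (nat_lit 0xb) (nat_lit 112)) (.one (nat_lit 0xa00000b00e010400001601c122411)) (.one (nat_lit 0xb00000b00e00f600001601c120411))) (.br (Nat.shiftLeft (nat_lit 0x3) (nat_lit 114)) (.one (nat_lit 0xb00000b00e010600001601c122411)) (.br (Nat.shiftLeft (nat_lit 0xc00000b00e01) (nat_lit 68)) (.one (nat_lit 0xc00000b00e00f800001601c120411)) (.one (nat_lit 0xc00000b00e010800001601c122411))))) (.br (Nat.shiftLeft (nat_lit 0x7) (nat_lit 113)) (.br (Nat.shiftLeft (nat_lit 0xd00000b00e01) (nat_lit 68)) (.one (nat_lit 0xd00000b00e00fa00001601c120411)) (.one (nat_lit 0xd00000b00e010a00001601c122411))) (.br (Nat.shiftLeft (nat_lit 0xe00000b00e01) (nat_lit 68)) (.one (nat_lit 0xe00000b00e00fc00001601c120411))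 (.br (Nat.shiftLeft (nat_lit 0x1) (nat_lit 124)) (.one (nat_lit 0xe00000b00e010c00001601c122411)) (.one (nat_lit 0x100000200b00e00f000401603c41e511))))))) (.br (Nat.shiftLeft (nat_lit 0x200000400b00e01) (nat_lit 68)) (.br (Nat.shiftLeft (nat_lit 0x800003) (nat_lit 101)) (.br (Nat.shiftLeft (nat_lit 0x400001) (nat_lit 102)) (.br (Nat.shiftLeft (nat_lit 0x100000300b00e01) (nat_lit 68)) (.one (nat_lit 0x100000300b00e00f000601603c41e511)) (.one (nat_lit 0x100000300b00e010000601603c420511))) (.br (Nat.shiftLeft (nat_lit 0x100000400b00e01) (nat_lit 68)) (.one (nat_lit 0x100000400b00e00f000801603c41e511)) (.br (Nat.shiftLeft (nat_lit 0x1000005) (nat_lit 100)) (.one (nat_lit 0x100000400b00e010000801603c420511)) (.one (nat_lit 0x100000500b00e00f000a01603c41e511))))) (.br (Nat.shiftLeft (nat_lit 0x2000003) (nat_lit 100)) (.br (Nat.shiftLeft (nat_lit 0x1) (nat_lit 125)) (.one (nat_lit 0x100000600b00e00f000c01603c41e511)) (.one (nat_lit 0x200000200b00e00f000401605c81e511))) (.br (Nat.shiftLeft (nat_lit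 0x200000300b00e01) (nat_lit 68)) (.one (nat_lit 0x200000300b00e00f000601605c81e511)) (.br (Nat.shiftLeft (nat_lit 0x800001) (nat_lit 102)) (.one (nat_lit 0x200000300b00e010000601605c820511)) (.one (nat_lit 0x200000400b00e00f000801605c81e511)))))) (.br (Nat.shiftLeft (nat_lit 0x300000300b00e01) (nat_lit 68)) (.br (Nat.shiftLeft (nat_lit 0x1000003) (nat_lit 101)) (.br (Nat.shiftLeft (nat_lit 0x2000005) (nat_lit 100)) (.one (nat_lit 0x200000400b00e010000801605c820511)) (.one (nat_lit 0x200000500b00e00f000a01605c81e511))) (.br (Nat.shiftLeft (nat_lit 0x3) (nat_lit 124)) (.one (nat_lit 0x200000600b00e00f000c01605c81e511)) (.br (Nat.shiftLeft (nat_lit 0x3000003) (nat_lit 100)) (.one (nat_lit 0x300000200b00e00f000401607cc1e511)) (.one (nat_lit 0x300000300b00e00f000601607cc1e511))))) (.br (Nat.shiftLeft (nat_lit 0x300000400b00e01) (nat_lit 68)) (.br (Nat.shiftLeft (nat_lit 0xc00001) (nat_lit 102)) (.one (nat_lit 0x300000300b00e010000601607cc20511)) (.one (nat_lit 0x300000400b00e00f000801607cc1e511)))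 (.br (Nat.shiftLeft (nat_lit 0x3000005) (nat_lit 100)) (.one (nat_lit 0x300000400b00e010000801607cc20511)) (.br (Nat.shiftLeft (nat_lit 0x1800003) (nat_lit 101)) (.one (nat_lit 0x300000500b00e00f000a01607cc1e511)) (.one (nat_lit 0x300000600b00e00f000c01607cc1e511))))))))
def t385 : k385.all (jb2 57 fl b0) = true := by decide +kernel
noncomputable def k386 : KT := (.br (Nat.shiftLeft (nat_lit 0x5) (nat_lit 124)) (.br (Nat.shiftLeft (nat_lit 0x1000001) (nat_lit 102)) (.br (Nat.shiftLeft (nat_lit 0x4000003) (nat_lit 100)) (.one (nat_lit 0x400000200b00e00f000401609d01e511)) (.br (Nat.shiftLeft (nat_lit 0x400000300b00e01) (nat_lit 68)) (.one (nat_lit 0x400000300b00e00f000601609d01e511)) (.one (nat_lit 0x400000300b00e010000601609d020511)))) (.br (Nat.shiftLeft (nat_lit 0x4000005) (nat_lit 100)) (.br (Nat.shiftLeft (nat_lit 0x400000400b00e01) (nat_lit 68)) (.one (nat_lit 0x400000400b00e00f000801609d01e511)) (.one (nat_lit 0x400000400b00e010000801609d020511))) (.br (Nat.shiftLeft (nat_lit 0x2000003)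 (nat_lit 101)) (.one (nat_lit 0x400000500b00e00f000a01609d01e511)) (.one (nat_lit 0x400000600b00e00f000c01609d01e511))))) (.br (Nat.shiftLeft (nat_lit 0x1400001) (nat_lit 102)) (.br (Nat.shiftLeft (nat_lit 0x5000003) (nat_lit 100)) (.one (nat_lit 0x500000200b00e00f00040160bd41e511)) (.br (Nat.shiftLeft (nat_lit 0x500000300b00e01) (nat_lit 68)) (.one (nat_lit 0x500000300b00e00f00060160bd41e511)) (.one (nat_lit 0x500000300b00e01000060160bd420511)))) (.br (Nat.shiftLeft (nat_lit 0x5000005) (nat_lit 100)) (.br (Nat.shiftLeft (nat_lit 0x500000400b00e01) (nat_lit 68)) (.one (nat_lit 0x500000400b00e00f00080160bd41e511)) (.one (nat_lit 0x500000400b00e01000080160bd420511))) (.br (Nat.shiftLeft (nat_lit 0x2800003) (nat_lit 101)) (.one (nat_lit 0x500000500b00e00f000a0160bd41e511)) (.one (nat_lit 0x500000600b00e00f000c0160bd41e511))))))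
def t386 : k386.all (jb2 57 fl b0) = true := by decide +kernel
noncomputable def k387 : KT := (.br (Nat.shiftLeft (nat_lit 0x7) (nat_lit 124)) (.br (Nat.shiftLeft (nat_lit 0x1800001) (nat_lit 102)) (.br (Nat.shiftLeft (nat_lit 0x6000003) (nat_lit 100)) (.one (nat_lit 0x600000200b00e00f00040160dd81e511)) (.br (Nat.shiftLeft (nat_lit 0x600000300b00e01) (nat_lit 68)) (.one (nat_lit 0x600000300b00e00f00060160dd81e511)) (.one (nat_lit 0x600000300b00e01000060160dd820511)))) (.br (Nat.shiftLeft (nat_lit 0x6000005) (nat_lit 100)) (.br (Nat.shiftLeft (nat_lit 0x600000400b00e01) (nat_lit 68)) (.one (nat_lit 0x600000400b00e00f00080160dd81e511)) (.one (nat_lit 0x600000400b00e01000080160dd820511))) (.br (Nat.shiftLeft (nat_lit 0x3000003) (nat_lit 101)) (.one (nat_lit 0x600000500b00e00f000a0160dd81e511)) (.one (nat_lit 0x600000600b00e00f000c0160dd81e511))))) (.br (Nat.shiftLeft (nat_lit 0x1c00001) (nat_lit 102)) (.br (Nat.shiftLeft (nat_lit 0x7000003) (nat_lit 100)) (.one (nat_lit 0x700000200b00e00f00040160fdc1e511))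 (.br (Nat.shiftLeft (nat_lit 0x700000300b00e01) (nat_lit 68)) (.one (nat_lit 0x700000300b00e00f00060160fdc1e511)) (.one (nat_lit 0x700000300b00e01000060160fdc20511)))) (.br (Nat.shiftLeft (nat_lit 0x7000005) (nat_lit 100)) (.br (Nat.shiftLeft (nat_lit 0x700000400b00e01) (nat_lit 68)) (.one (nat_lit 0x700000400b00e00f00080160fdc1e511)) (.one (nat_lit 0x700000400b00e01000080160fdc20511))) (.br (Nat.shiftLeft (nat_lit 0x3800003) (nat_lit 101)) (.one (nat_lit 0x700000500b00e00f000a0160fdc1e511)) (.one (nat_lit 0x700000600b00e00f000c0160fdc1e511))))))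
def t387 : k387.all (jb2 57 fl b0) = true := by decide +kernel
noncomputable def k388 : KT := (.br (Nat.shiftLeft (nat_lit 0x5000003) (nat_lit 101)) (.br (Nat.shiftLeft (nat_lit 0x2400001) (nat_lit 102)) (.br (Nat.shiftLeft (nat_lit 0x8000005) (nat_lit 100)) (.br (Nat.shiftLeft (nat_lit 0x800000300b00e01) (nat_lit 68)) (.br (Nat.shiftLeft (nat_lit 0x8000003) (nat_lit 100)) (.one (nat_lit 0x800000200b00e00f000401611e01e511)) (.one (nat_lit 0x800000300b00e00f000601611e01e511))) (.br (Nat.shiftLeft (nat_lit 0x2000001) (nat_lit 102)) (.one (nat_lit 0x800000300b00e010000601611e020511)) (.br (Nat.shiftLeft (nat_lit 0x800000400b00e01) (nat_lit 68)) (.one (nat_lit 0x800000400b00e00f000801611e01e511)) (.one (nat_lit 0x800000400b00e010000801611e020511))))) (.br (Nat.shiftLeft (nat_lit 0x9) (nat_lit 124)) (.br (Nat.shiftLeft (nat_lit 0x4000003) (nat_lit 101)) (.one (nat_lit 0x800000500b00e00f000a01611e01e511)) (.one (nat_lit 0x800000600b00e00f000c01611e01e511))) (.br (Nat.shiftLeft (nat_lit 0x9000003)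 (nat_lit 100)) (.one (nat_lit 0x900000200b00e00f000401613e41e511)) (.br (Nat.shiftLeft (nat_lit 0x900000300b00e01) (nat_lit 68)) (.one (nat_lit 0x900000300b00e00f000601613e41e511)) (.one (nat_lit 0x900000300b00e010000601613e420511)))))) (.br (Nat.shiftLeft (nat_lit 0xa000003) (nat_lit 100)) (.br (Nat.shiftLeft (nat_lit 0x9000005) (nat_lit 100)) (.br (Nat.shiftLeft (nat_lit 0x900000400b00e01) (nat_lit 68)) (.one (nat_lit 0x900000400b00e00f000801613e41e511)) (.one (nat_lit 0x900000400b00e010000801613e420511))) (.br (Nat.shiftLeft (nat_lit 0x4800003) (nat_lit 101)) (.one (nat_lit 0x900000500b00e00f000a01613e41e511)) (.br (Nat.shiftLeft (nat_lit 0x5) (nat_lit 125)) (.one (nat_lit 0x900000600b00e00f000c01613e41e511)) (.one (nat_lit 0xa00000200b00e00f000401615e81e511))))) (.br (Nat.shiftLeft (nat_lit 0x2800001) (nat_lit 102)) (.br (Nat.shiftLeft (nat_lit 0xa00000300b00e01) (nat_lit 68)) (.one (nat_lit 0xa00000300b00e00f000601615e81e511)) (.one (nat_lit 0xa00000300b00e010000601615e820511)))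 (.br (Nat.shiftLeft (nat_lit 0xa00000400b00e01) (nat_lit 68)) (.one (nat_lit 0xa00000400b00e00f000801615e81e511)) (.br (Nat.shiftLeft (nat_lit 0xa000005) (nat_lit 100)) (.one (nat_lit 0xa00000400b00e010000801615e820511)) (.one (nat_lit 0xa00000500b00e00f000a01615e81e511))))))) (.br (Nat.shiftLeft (nat_lit 0xc00000300b00e01) (nat_lit 68)) (.br (Nat.shiftLeft (nat_lit 0xb00000400b00e01) (nat_lit 68)) (.br (Nat.shiftLeft (nat_lit 0xb000003) (nat_lit 100)) (.br (Nat.shiftLeft (nat_lit 0xb) (nat_lit 124)) (.one (nat_lit 0xa00000600b00e00f000c01615e81e511)) (.one (nat_lit 0xb00000200b00e00f000401617ec1e511))) (.br (Nat.shiftLeft (nat_lit 0xb00000300b00e01) (nat_lit 68)) (.one (nat_lit 0xb00000300b00e00f000601617ec1e511)) (.br (Nat.shiftLeft (nat_lit 0x2c00001) (nat_lit 102)) (.one (nat_lit 0xb00000300b00e010000601617ec20511)) (.one (nat_lit 0xb00000400b00e00f000801617ec1e511))))) (.br (Nat.shiftLeft (nat_lit 0x5800003) (nat_lit 101)) (.br (Nat.shiftLeft (nat_lit 0xb000005) (nat_lit 100)) (.one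 (nat_lit 0xb00000400b00e010000801617ec20511)) (.one (nat_lit 0xb00000500b00e00f000a01617ec1e511))) (.br (Nat.shiftLeft (nat_lit 0x3) (nat_lit 126)) (.one (nat_lit 0xb00000600b00e00f000c01617ec1e511)) (.br (Nat.shiftLeft (nat_lit 0xc000003) (nat_lit 100)) (.one (nat_lit 0xc00000200b00e00f000401619f01e511)) (.one (nat_lit 0xc00000300b00e00f000601619f01e511)))))) (.br (Nat.shiftLeft (nat_lit 0xd000003) (nat_lit 100)) (.br (Nat.shiftLeft (nat_lit 0xc00000400b00e01) (nat_lit 68)) (.br (Nat.shiftLeft (nat_lit 0x3000001) (nat_lit 102)) (.one (nat_lit 0xc00000300b00e010000601619f020511)) (.one (nat_lit 0xc00000400b00e00f000801619f01e511))) (.br (Nat.shiftLeft (nat_lit 0xc000005) (nat_lit 100)) (.one (nat_lit 0xc00000400b00e010000801619f020511)) (.br (Nat.shiftLeft (nat_lit 0xd) (nat_lit 124)) (.one (nat_lit 0xc00000500b00e00f000a01619f01e511)) (.one (nat_lit 0xd00000200b00e00f00040161bf41e511))))) (.br (Nat.shiftLeft (nat_lit 0x3400001) (nat_lit 102)) (.br (Nat.shiftLeft (nat_lit 0xd00000300b00e01)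 (nat_lit 68)) (.one (nat_lit 0xd00000300b00e00f00060161bf41e511)) (.one (nat_lit 0xd00000300b00e01000060161bf420511))) (.br (Nat.shiftLeft (nat_lit 0x7) (nat_lit 125)) (.one (nat_lit 0xd00000400b00e00f00080161bf41e511)) (.br (Nat.shiftLeft (nat_lit 0xe000003) (nat_lit 100)) (.one (nat_lit 0xe00000200b00e00f00040161df81e511)) (.one (nat_lit 0xe00000300b00e00f00060161df81e511))))))))
def t388 : k388.all (jb2 57 fl b0) = true := by decide +kernel
noncomputable def s20 : KT := (.br (nat_lit 0x100200b00e00f200401601c01e650) (.br (nat_lit 0x600b00e00f000c01601c01f500) (.br (nat_lit 0x200b00e00f000401601c01f500) (.br (nat_lit 0x100b00e00f000201601c01e540) k370 k371) (.br (nat_lit 0x500b00e00f000a01601c01f500) k372 k373)) (.br (nat_lit 0x700b00e00f000e01601c01e540) (.br (nat_lit 0x600b00e010000c01601c020540) k374 k375) (.br (nat_lit 0x800b00e00f001001601c01e540) k376 (.br (nat_lit 0x900b00e010001201601c020540) k377 k378)))) (.br (nat_lit 0x300400b00e010600801601c020650) (.br (nat_lit 0x200000b00e010400001601c020411)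 (.br (nat_lit 0x100300b00e010200601601c020650) k379 k380) (.br (nat_lit 0x200300b00e010400601601c020650) k381 (.br (nat_lit 0x200500b00e00f400a01601c01e650) k382 k383))) (.br (nat_lit 0x300000600b00e00f000c01607cc1e511) (.br (nat_lit 0x500000b00e010a00001601c020411) k384 k385) (.br (nat_lit 0x500000600b00e00f000c0160bd41e511) k386 (.br (nat_lit 0x700000600b00e00f000c0160fdc1e511) k387 k388)))))
noncomputable def u20 : KT := (.br (Nat.shiftLeft (nat_lit 0xb00e01) (nat_lit 68)) (.one (nat_lit 0xb00e00f000001601c01e430)) (.one (nat_lit 0xb00e010000001601c020430)))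
def w20 : u20.all (wj 57 s20) = true := by decide +kernel
def o20 : OkW 57 (jb2 57 fl) u20 := .lift s20 _ (.br _ _ _ (.br _ _ _ (.br _ _ _ (.br _ _ _ (.leaf b0 k370 t370) (.leaf b0 k371 t371)) (.br _ _ _ (.leaf b0 k372 t372) (.leaf b0 k373 t373))) (.br _ _ _ (.br _ _ _ (.leaf b0 k374 t374) (.leaf b0 k375 t375)) (.br _ _ _ (.leaf b0 k376 t376) (.br _ _ _ (.leaf b0 k377 t377) (.leaf b0 k378 t378))))) (.br _ _ _ (.br _ _ _ (.br _ _ _ (.leaf b0 k379 t379) (.leaf b0 k380 t380)) (.br _ _ _ (.leaf b0 k381 t381) (.br _ _ _ (.leaf b0 k382 t382) (.leaf b0 k383 t383)))) (.br _ _ _ (.br _ _ _ (.leaf b0 k384 t384) (.leaf b0 k385 t385)) (.br _ _ _ (.leaf b0 k386 t386) (.br _ _ _ (.leaf b0 k387 t387) (.leaf b0 k388 t388)))))) w20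
noncomputable def k : KT := (.br (nat_lit 0xa00f010000001401e020430) (.br (nat_lit 0xa00d010000001401a020430) (.br (nat_lit 0xa00c0130000014018026430) (.br (nat_lit 0xa00c0110000014018022430) u0 u1) (.br (nat_lit 0xa00d00e000001401a01d400) u2 (.br (nat_lit 0xa00d00f000001401a01e430) u3 u4))) (.br (nat_lit 0xa00d017000001401a02e430) (.br (nat_lit 0xa00d012000001401a024430) u5 u6) (.br (nat_lit 0xa00e00f000001401c01e430) u7 (.br (nat_lit 0xa00e011000001401c022430) u8 u9)))) (.br (nat_lit 0xb00c0120000016018024430) (.br (nat_lit 0xb00c00e000001601801d400) (.br (nat_lit 0xa0100120000014020024430) u10 u11) (.br (nat_lit 0xb00c00f000001601801e430) u12 (.br (nat_lit 0xb00c0100000016018020430) u13 u14))) (.br (nat_lit 0xb00d00f000001601a01e430) (.br (nat_lit 0xb00c0180000016018030430) u15 (.br (nat_lit 0xb00d00e000001601a01c430) u16 u17)) (.br (nat_lit 0xb00d011000001601a022430) u18 (.br (nat_lit 0xb00d017000001601a02e430) u19 u20)))))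
theorem ok : OkW 57 (jb2 57 fl) k := (.br _ _ _ (.br _ _ _ (.br _ _ _ (.br _ _ _ o0 o1) (.br _ _ _ o2 (.br _ _ _ o3 o4))) (.br _ _ _ (.br _ _ _ o5 o6) (.br _ _ _ o7 (.br _ _ _ o8 o9)))) (.br _ _ _ (.br _ _ _ (.br _ _ _ o10 o11) (.br _ _ _ o12 (.br _ _ _ o13 o14))) (.br _ _ _ (.br _ _ _ o15 (.br _ _ _ o16 o17)) (.br _ _ _ o18 (.br _ _ _ o19 o20)))))

end Pool.Agent.Lib.MP_ed43e6_ag.Q.Y57.R16
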