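import Pool.Agent.Lib.MP_ed43e6_ag.Y57.Fl

namespace Pool.Agent.Lib.MP_ed43e6_ag.Q.Y57.R2

set_option linter.defProp false

noncomputable def b0 : BT := .node (nat_lit 1) (nat_lit 0) .leaf .leaf
noncomputable def k0 : KT := (.br (Nat.shiftLeft (nat_lit 0xc017) (nat_lit 64)) (.br (Nat.shiftLeft (nat_lit 0xb021) (nat_lit 64)) (.br (Nat.shiftLeft (nat_lit 0xb01f) (nat_lit 64)) (.br (Nat.shiftLeft (nat_lit 0x580f) (nat_lit 65)) (.one (nat_lit 0xb01d000000001603b300)) (.one (nat_lit 0xb01e000000001603d300))) (.br (Nat.shiftLeft (nat_lit 0x581) (nat_lit 69)) (.one (nat_lit 0xb01f000000001603f300)) (.one (nat_lit 0xb0200000000016041300)))) (.br (Nat.shiftLeft (nat_lit 0xc015) (nat_lit 64)) (.br (Nat.shiftLeft (nat_lit 0x3) (nat_lit 78)) (.one (nat_lit 0xb0210000000016043300)) (.one (nat_lit 0xc0140000000018029300))) (.br (Nat.shiftLeft (nat_lit 0x600b) (nat_lit 65)) (.one (nat_lit 0xc015000000001802b300)) (.one (nat_lit 0xc016000000001802d300))))) (.br (Nat.shiftLeft (nat_lit 0x100b01f)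 (nat_lit 64)) (.br (Nat.shiftLeft (nat_lit 0x1) (nat_lit 88)) (.br (Nat.shiftLeft (nat_lit 0x1803) (nat_lit 67)) (.one (nat_lit 0xc017000000001802f300)) (.one (nat_lit 0xc0180000000018031300))) (.br (Nat.shiftLeft (nat_lit 0x80580f) (nat_lit 65)) (.one (nat_lit 0x100b01d000000201603a430)) (.one (nat_lit 0x100b01e000000201603c430)))) (.br (Nat.shiftLeft (nat_lit 0x100b021) (nat_lit 64)) (.br (Nat.shiftLeft (nat_lit 0x80581) (nat_lit 69)) (.one (nat_lit 0x100b01f000000201603e430)) (.one (nat_lit 0x100b0200000002016040430))) (.br (Nat.shiftLeft (nat_lit 0x1) (nat_lit 89)) (.one (nat_lit 0x100b0210000002016042430)) (.br (Nat.shiftLeft (nat_lit 0x100580f) (nat_lit 65)) (.one (nat_lit 0x200b01d000000401603a430)) (.one (nat_lit 0x200b01e000000401603c430)))))))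
def t0 : k0.all (jb2 57 fl b0) = true := by decide +kernel
noncomputable def k1 : KT := (.br (Nat.shiftLeft (nat_lit 0x100581) (nat_lit 69)) (.one (nat_lit 0x200b01f000000401603e430)) (.br (Nat.shiftLeft (nat_lit 0x200b021) (nat_lit 64)) (.one (nat_lit 0x200b0200000004016040430)) (.one (nat_lit 0x200b0210000004016042430))))
def t1 : k1.all (jb2 57 fl b0) = true := by decide +kernel
noncomputable def k2 : KT := (.one (nat_lit 0x300b01d000000601603a430))
def t2 : k2.all (jb2 57 fl b0) = true := by decide +kernel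
noncomputable def k3 : KT := (.one (nat_lit 0x300b01e000000601603c430))
def t3 : k3.all (jb2 57 fl b0) = true := by decide +kernel
noncomputable def k4 : KT := (.one (nat_lit 0x300b01f000000601603e430))
def t4 : k4.all (jb2 57 fl b0) = true := by decide +kernel
noncomputable def k5 : KT := (.br (Nat.shiftLeft (nat_lit 0x300b021) (nat_lit 64)) (.one (nat_lit 0x300b0200000006016040430)) (.br (Nat.shiftLeft (nat_lit 0x1) (nat_lit 90)) (.one (nat_lit 0x300b0210000006016042430)) (.one (nat_lit 0x400b01d000000801603b400))))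
def t5 : k5.all (jb2 57 fl b0) = true := by decide +kernel
noncomputable def k6 : KT := (.one (nat_lit 0x400b01e000000801603c430))
def t6 : k6.all (jb2 57 fl b0) = true := by decide +kernel
noncomputable def k7 : KT := (.one (nat_lit 0x400b01f000000801603e430))
def t7 : k7.all (jb2 57 fl b0) = true := by decide +kernel
noncomputable def k8 : KT := (.br (Nat.shiftLeft (nat_lit 0x400b021) (nat_lit 64)) (.one (nat_lit 0x400b0200000008016040430)) (.br (Nat.shiftLeft (nat_lit 0x5) (nat_lit 88)) (.one (nat_lit 0x400b0210000008016042430)) (.one (nat_lit 0x500b01d000000a01603b400))))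
def t8 : k8.all (jb2 57 fl b0) = true := by decide +kernel
noncomputable def k9 : KT := (.one (nat_lit 0x500b01e000000a01603c430))
def t9 : k9.all (jb2 57 fl b0) = true := by decide +kernel
noncomputable def k10 : KT := (.br (Nat.shiftLeft (nat_lit 0x280581) (nat_lit 69)) (.one (nat_lit 0x500b01f000000a01603e430)) (.one (nat_lit 0x500b020000000a016040430)))
def t10 : k10.all (jb2 57 fl b0) = true := by decide +kernel
noncomputable def k11 : KT := (.one (nat_lit 0x500b021000000a016042430))
def t11 : k11.all (jb2 57 fl b0) = true := by decide +kernel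
noncomputable def k12 : KT := (.one (nat_lit 0x600b01d000000c01603a430))
def t12 : k12.all (jb2 57 fl b0) = true := by decide +kernel
noncomputable def k13 : KT := (.one (nat_lit 0x600b01e000000c01603c430))
def t13 : k13.all (jb2 57 fl b0) = true := by decide +kernel
noncomputable def k14 : KT := (.br (Nat.shiftLeft (nat_lit 0x300581) (nat_lit 69)) (.one (nat_lit 0x600b01f000000c01603e430)) (.br (Nat.shiftLeft (nat_lit 0x600b021) (nat_lit 64)) (.one (nat_lit 0x600b020000000c016040430)) (.one (nat_lit 0x600b021000000c016042430))))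
def t14 : k14.all (jb2 57 fl b0) = true := by decide +kernel
noncomputable def k15 : KT := (.one (nat_lit 0x700b01d000000e01603a430))
def t15 : k15.all (jb2 57 fl b0) = true := by decide +kernel
noncomputable def k16 : KT := (.br (Nat.shiftLeft (nat_lit 0x700b01f) (nat_lit 64)) (.one (nat_lit 0x700b01e000000e01603c430)) (.br (Nat.shiftLeft (nat_lit 0x380581) (nat_lit 69)) (.one (nat_lit 0x700b01f000000e01603e430)) (.one (nat_lit 0x700b020000000e016040430))))
def t16 : k16.all (jb2 57 fl b0) = true := by decide +kernel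
noncomputable def k17 : KT := (.br (Nat.shiftLeft (nat_lit 0x1) (nat_lit 91)) (.one (nat_lit 0x700b021000000e016042430)) (.br (Nat.shiftLeft (nat_lit 0x400580f) (nat_lit 65)) (.one (nat_lit 0x800b01d000001001603a430)) (.one (nat_lit 0x800b01e000001001603c430))))
def t17 : k17.all (jb2 57 fl b0) = true := by decide +kernel
noncomputable def k18 : KT := (.br (Nat.shiftLeft (nat_lit 0x800b021) (nat_lit 64)) (.br (Nat.shiftLeft (nat_lit 0x400581) (nat_lit 69)) (.one (nat_lit 0x800b01f000001001603e430)) (.one (nat_lit 0x800b0200000010016040430))) (.br (Nat.shiftLeft (nat_lit 0x9) (nat_lit 88)) (.one (nat_lit 0x800b0210000010016042430)) (.br (Nat.shiftLeft (nat_lit 0x480580f) (nat_lit 65)) (.one (nat_lit 0x900b01d000001201603a430)) (.one (nat_lit 0x900b01e000001201603c430)))))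
def t18 : k18.all (jb2 57 fl b0) = true := by decide +kernel
noncomputable def k19 : KT := (.br (Nat.shiftLeft (nat_lit 0xa00b021) (nat_lit 64)) (.br (Nat.shiftLeft (nat_lit 0x5) (nat_lit 89)) (.br (Nat.shiftLeft (nat_lit 0x480581) (nat_lit 69)) (.one (nat_lit 0x900b01f000001201603e430)) (.br (Nat.shiftLeft (nat_lit 0x900b021) (nat_lit 64)) (.one (nat_lit 0x900b0200000012016040430)) (.one (nat_lit 0x900b0210000012016042430)))) (.br (Nat.shiftLeft (nat_lit 0xa00b01f) (nat_lit 64)) (.br (Nat.shiftLeft (nat_lit 0x500580f) (nat_lit 65)) (.one (nat_lit 0xa00b01d000001401603a430)) (.one (nat_lit 0xa00b01e000001401603c430))) (.br (Nat.shiftLeft (nat_lit 0x500581) (nat_lit 69)) (.one (nat_lit 0xa00b01f000001401603e430)) (.one (nat_lit 0xa00b0200000014016040430))))) (.br (Nat.shiftLeft (nat_lit 0x100000b01f) (nat_lit 64)) (.br (Nat.shiftLeft (nat_lit 0x1) (nat_lit 100)) (.one (nat_lit 0xa00b0210000014016042430)) (.br (Nat.shiftLeft (nat_lit 0x80000580f) (nat_lit 65)) (.one (nat_lit 0x100000b01d000200001603a311))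 (.one (nat_lit 0x100000b01e000200001603c311)))) (.br (Nat.shiftLeft (nat_lit 0x100000b021) (nat_lit 64)) (.br (Nat.shiftLeft (nat_lit 0x80000581) (nat_lit 69)) (.one (nat_lit 0x100000b01f000200001603e311)) (.one (nat_lit 0x100000b0200002000016040311))) (.br (Nat.shiftLeft (nat_lit 0x401) (nat_lit 90)) (.one (nat_lit 0x100000b0210002000016042311)) (.one (nat_lit 0x100400b01d000200801603a540))))))
def t19 : k19.all (jb2 57 fl b0) = true := by decide +kernel
noncomputable def k20 : KT := (.br (Nat.shiftLeft (nat_lit 0x801) (nat_lit 90)) (.br (Nat.shiftLeft (nat_lit 0x200000b01f) (nat_lit 64)) (.br (Nat.shiftLeft (nat_lit 0x1) (nat_lit 101)) (.one (nat_lit 0x100500b01d000200a01603a540)) (.br (Nat.shiftLeft (nat_lit 0x100000580f) (nat_lit 65)) (.one (nat_lit 0x200000b01d000400001603a311)) (.one (nat_lit 0x200000b01e000400001603c311)))) (.br (Nat.shiftLeft (nat_lit 0x100000581) (nat_lit 69)) (.one (nat_lit 0x200000b01f000400001603e311)) (.br (Nat.shiftLeft (nat_lit 0x200000b021) (nat_lit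 64)) (.one (nat_lit 0x200000b0200004000016040311)) (.one (nat_lit 0x200000b0210004000016042311))))) (.br (Nat.shiftLeft (nat_lit 0x180000580f) (nat_lit 65)) (.br (Nat.shiftLeft (nat_lit 0x2005) (nat_lit 88)) (.one (nat_lit 0x200400b01d000400801603a540)) (.br (Nat.shiftLeft (nat_lit 0x3) (nat_lit 100)) (.one (nat_lit 0x200500b01d000400a01603a540)) (.one (nat_lit 0x300000b01d000600001603a311)))) (.br (Nat.shiftLeft (nat_lit 0x180000581) (nat_lit 69)) (.br (Nat.shiftLeft (nat_lit 0x300000b01f) (nat_lit 64)) (.one (nat_lit 0x300000b01e000600001603c311)) (.one (nat_lit 0x300000b01f000600001603e311))) (.br (Nat.shiftLeft (nat_lit 0x300000b021) (nat_lit 64)) (.one (nat_lit 0x300000b0200006000016040311)) (.one (nat_lit 0x300000b0210006000016042311))))))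
def t20 : k20.all (jb2 57 fl b0) = true := by decide +kernel
noncomputable def k21 : KT := (.br (Nat.shiftLeft (nat_lit 0x700000b01f) (nat_lit 64)) (.br (Nat.shiftLeft (nat_lit 0x500000b01f) (nat_lit 64)) (.br (Nat.shiftLeft (nat_lit 0x200000581) (nat_lit 69)) (.br (Nat.shiftLeft (nat_lit 0x1) (nat_lit 102)) (.br (Nat.shiftLeft (nat_lit 0x3005) (nat_lit 88)) (.one (nat_lit 0x300400b01d000600801603a540)) (.one (nat_lit 0x300500b01d000600a01603a540))) (.br (Nat.shiftLeft (nat_lit 0x200000580f) (nat_lit 65)) (.one (nat_lit 0x400000b01d000800001603a311)) (.br (Nat.shiftLeft (nat_lit 0x400000b01f) (nat_lit 64)) (.one (nat_lit 0x400000b01e000800001603c311)) (.one (nat_lit 0x400000b01f000800001603e311))))) (.br (Nat.shiftLeft (nat_lit 0x1001) (nat_lit 90)) (.br (Nat.shiftLeft (nat_lit 0x400000b021) (nat_lit 64)) (.one (nat_lit 0x400000b0200008000016040311)) (.one (nat_lit 0x400000b0210008000016042311))) (.br (Nat.shiftLeft (nat_lit 0x5) (nat_lit 100)) (.one (nat_lit 0x400500b01d000800a01603a540))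 (.br (Nat.shiftLeft (nat_lit 0x280000580f) (nat_lit 65)) (.one (nat_lit 0x500000b01d000a00001603a311)) (.one (nat_lit 0x500000b01e000a00001603c311)))))) (.br (Nat.shiftLeft (nat_lit 0x600000b01f) (nat_lit 64)) (.br (Nat.shiftLeft (nat_lit 0x500000b021) (nat_lit 64)) (.br (Nat.shiftLeft (nat_lit 0x280000581) (nat_lit 69)) (.one (nat_lit 0x500000b01f000a00001603e311)) (.one (nat_lit 0x500000b020000a000016040311))) (.br (Nat.shiftLeft (nat_lit 0x3) (nat_lit 101)) (.one (nat_lit 0x500000b021000a000016042311)) (.br (Nat.shiftLeft (nat_lit 0x300000580f) (nat_lit 65)) (.one (nat_lit 0x600000b01d000c00001603a311)) (.one (nat_lit 0x600000b01e000c00001603c311))))) (.br (Nat.shiftLeft (nat_lit 0x600000b021) (nat_lit 64)) (.br (Nat.shiftLeft (nat_lit 0x300000581) (nat_lit 69)) (.one (nat_lit 0x600000b01f000c00001603e311)) (.one (nat_lit 0x600000b020000c000016040311))) (.br (Nat.shiftLeft (nat_lit 0x7) (nat_lit 100)) (.one (nat_lit 0x600000b021000c000016042311)) (.br (Nat.shiftLeft (nat_lit 0x380000580f)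 (nat_lit 65)) (.one (nat_lit 0x700000b01d000e00001603a311)) (.one (nat_lit 0x700000b01e000e00001603c311))))))) (.br (Nat.shiftLeft (nat_lit 0x900000b01f) (nat_lit 64)) (.br (Nat.shiftLeft (nat_lit 0x800000b01f) (nat_lit 64)) (.br (Nat.shiftLeft (nat_lit 0x700000b021) (nat_lit 64)) (.br (Nat.shiftLeft (nat_lit 0x380000581) (nat_lit 69)) (.one (nat_lit 0x700000b01f000e00001603e311)) (.one (nat_lit 0x700000b020000e000016040311))) (.br (Nat.shiftLeft (nat_lit 0x1) (nat_lit 103)) (.one (nat_lit 0x700000b021000e000016042311)) (.br (Nat.shiftLeft (nat_lit 0x400000580f) (nat_lit 65)) (.one (nat_lit 0x800000b01d001000001603a311)) (.one (nat_lit 0x800000b01e001000001603c311))))) (.br (Nat.shiftLeft (nat_lit 0x800000b021) (nat_lit 64)) (.br (Nat.shiftLeft (nat_lit 0x400000581) (nat_lit 69)) (.one (nat_lit 0x800000b01f001000001603e311)) (.one (nat_lit 0x800000b0200010000016040311))) (.br (Nat.shiftLeft (nat_lit 0x9) (nat_lit 100)) (.one (nat_lit 0x800000b0210010000016042311)) (.br (Nat.shiftLeft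 (nat_lit 0x480000580f) (nat_lit 65)) (.one (nat_lit 0x900000b01d001200001603a311)) (.one (nat_lit 0x900000b01e001200001603c311)))))) (.br (Nat.shiftLeft (nat_lit 0xa00000b01f) (nat_lit 64)) (.br (Nat.shiftLeft (nat_lit 0x900000b021) (nat_lit 64)) (.br (Nat.shiftLeft (nat_lit 0x480000581) (nat_lit 69)) (.one (nat_lit 0x900000b01f001200001603e311)) (.one (nat_lit 0x900000b0200012000016040311))) (.br (Nat.shiftLeft (nat_lit 0x5) (nat_lit 101)) (.one (nat_lit 0x900000b0210012000016042311)) (.br (Nat.shiftLeft (nat_lit 0x500000580f) (nat_lit 65)) (.one (nat_lit 0xa00000b01d001400001603a311)) (.one (nat_lit 0xa00000b01e001400001603c311))))) (.br (Nat.shiftLeft (nat_lit 0xa00000b021) (nat_lit 64)) (.br (Nat.shiftLeft (nat_lit 0x500000581) (nat_lit 69)) (.one (nat_lit 0xa00000b01f001400001603e311)) (.one (nat_lit 0xa00000b0200014000016040311))) (.br (Nat.shiftLeft (nat_lit 0xb) (nat_lit 100)) (.one (nat_lit 0xa00000b0210014000016042311)) (.br (Nat.shiftLeft (nat_lit 0x580000580f) (nat_lit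 65)) (.one (nat_lit 0xb00000b01d001600001603a311)) (.one (nat_lit 0xb00000b01e001600001603c311))))))))
def t21 : k21.all (jb2 57 fl b0) = true := by decide +kernel
noncomputable def k22 : KT := (.br (Nat.shiftLeft (nat_lit 0x5000005) (nat_lit 88)) (.br (Nat.shiftLeft (nat_lit 0x2000005) (nat_lit 88)) (.br (Nat.shiftLeft (nat_lit 0x1) (nat_lit 112)) (.br (Nat.shiftLeft (nat_lit 0x580000581) (nat_lit 69)) (.one (nat_lit 0xb00000b01f001600001603e311)) (.br (Nat.shiftLeft (nat_lit 0xb00000b021) (nat_lit 64)) (.one (nat_lit 0xb00000b0200016000016040311)) (.one (nat_lit 0xb00000b0210016000016042311)))) (.br (Nat.shiftLeft (nat_lit 0x1000005) (nat_lit 88)) (.one (nat_lit 0x100000400b01d200000801603a411)) (.br (Nat.shiftLeft (nat_lit 0x1) (nat_lit 113)) (.one (nat_lit 0x100000500b01d200000a01603a411)) (.one (nat_lit 0x200000400b01d400000801603a411))))) (.br (Nat.shiftLeft (nat_lit 0x1) (nat_lit 114)) (.br (Nat.shiftLeft (nat_lit 0x3) (nat_lit 112)) (.one (nat_lit 0x200000500b01d400000a01603a411))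 (.br (Nat.shiftLeft (nat_lit 0x3000005) (nat_lit 88)) (.one (nat_lit 0x300000400b01d600000801603a411)) (.one (nat_lit 0x300000500b01d600000a01603a411)))) (.br (Nat.shiftLeft (nat_lit 0x4000005) (nat_lit 88)) (.one (nat_lit 0x400000400b01d800000801603a411)) (.br (Nat.shiftLeft (nat_lit 0x5) (nat_lit 112)) (.one (nat_lit 0x400000500b01d800000a01603a411)) (.one (nat_lit 0x500000400b01da00000801603a411)))))) (.br (Nat.shiftLeft (nat_lit 0x8000005) (nat_lit 88)) (.br (Nat.shiftLeft (nat_lit 0x7) (nat_lit 112)) (.br (Nat.shiftLeft (nat_lit 0x3) (nat_lit 113)) (.one (nat_lit 0x500000500b01da00000a01603a411)) (.br (Nat.shiftLeft (nat_lit 0x6000005) (nat_lit 88)) (.one (nat_lit 0x600000400b01dc00000801603a411)) (.one (nat_lit 0x600000500b01dc00000a01603a411)))) (.br (Nat.shiftLeft (nat_lit 0x7000005) (nat_lit 88)) (.one (nat_lit 0x700000400b01de00000801603a411)) (.br (Nat.shiftLeft (nat_lit 0x1) (nat_lit 115)) (.one (nat_lit 0x700000500b01de00000a01603a411)) (.one (nat_lit 0x800000400b01d000000801613c411)))))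 (.br (Nat.shiftLeft (nat_lit 0x5) (nat_lit 113)) (.br (Nat.shiftLeft (nat_lit 0x9) (nat_lit 112)) (.one (nat_lit 0x800000500b01d000000a01613c411)) (.br (Nat.shiftLeft (nat_lit 0x9000005) (nat_lit 88)) (.one (nat_lit 0x900000400b01d200000801613c411)) (.one (nat_lit 0x900000500b01d200000a01613c411)))) (.br (Nat.shiftLeft (nat_lit 0xb) (nat_lit 112)) (.br (Nat.shiftLeft (nat_lit 0xa000005) (nat_lit 88)) (.one (nat_lit 0xa00000400b01d400000801613c411)) (.one (nat_lit 0xa00000500b01d400000a01613c411))) (.br (Nat.shiftLeft (nat_lit 0xb000005) (nat_lit 88)) (.one (nat_lit 0xb00000400b01d600000801613c411)) (.one (nat_lit 0xb00000500b01d600000a01613c411)))))))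
def t22 : k22.all (jb2 57 fl b0) = true := by decide +kernel
noncomputable def s0 : KT := (.br (nat_lit 0x500b020000000a016040430) (.br (nat_lit 0x300b01f000000601603e430) (.br (nat_lit 0x200b0210000004016042430) (.br (nat_lit 0x200b01e000000401603c430) k0 k1) (.br (nat_lit 0x300b01d000000601603a430) k2 (.br (nat_lit 0x300b01e000000601603c430) k3 k4))) (.br (nat_lit 0x400b01f000000801603e430) (.br (nat_lit 0x400b01d000000801603b400) k5 (.br (nat_lit 0x400b01e000000801603c430) k6 k7)) (.br (nat_lit 0x500b01d000000a01603b400) k8 (.br (nat_lit 0x500b01e000000a01603c430) k9 k10)))) (.br (nat_lit 0x700b020000000e016040430) (.br (nat_lit 0x600b01e000000c01603c430) (.br (nat_lit 0x500b021000000a016042430) k11 (.br (nat_lit 0x600b01d000000c01603a430) k12 k13)) (.br (nat_lit 0x600b021000000c016042430) k14 (.br (nat_lit 0x700b01d000000e01603a430) k15 k16))) (.br (nat_lit 0x100400b01d000200801603a540) (.br (nat_lit 0x800b01e000001001603c430) k17 (.br (nat_lit 0x900b01e000001201603c430) k18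 k19)) (.br (nat_lit 0x300000b0210006000016042311) k20 (.br (nat_lit 0xb00000b01e001600001603c311) k21 k22)))))
noncomputable def u0 : KT := (.br (Nat.shiftLeft (nat_lit 0x3) (nat_lit 78)) (.br (Nat.shiftLeft (nat_lit 0xb01f) (nat_lit 64)) (.br (Nat.shiftLeft (nat_lit 0x580f) (nat_lit 65)) (.one (nat_lit 0xb01d000000001603a320)) (.one (nat_lit 0xb01e000000001603c320))) (.br (Nat.shiftLeft (nat_lit 0x581) (nat_lit 69)) (.one (nat_lit 0xb01f000000001603e320)) (.br (Nat.shiftLeft (nat_lit 0xb021) (nat_lit 64)) (.one (nat_lit 0xb0200000000016040320)) (.one (nat_lit 0xb0210000000016042320))))) (.br (Nat.shiftLeft (nat_lit 0x600b) (nat_lit 65)) (.br (Nat.shiftLeft (nat_lit 0xc015) (nat_lit 64)) (.one (nat_lit 0xc0140000000018029300)) (.one (nat_lit 0xc015000000001802b300))) (.br (Nat.shiftLeft (nat_lit 0xc017) (nat_lit 64)) (.one (nat_lit 0xc016000000001802d300)) (.br (Nat.shiftLeft (nat_lit 0x1803) (nat_lit 67)) (.one (nat_lit 0xc017000000001802f300)) (.one (nat_lit 0xc0180000000018031300))))))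
def w0 : u0.all (wj 57 s0) = true := by decide +kernel
def o0 : OkW 57 (jb2 57 fl) u0 := .lift s0 _ (.br _ _ _ (.br _ _ _ (.br _ _ _ (.br _ _ _ (.leaf b0 k0 t0) (.leaf b0 k1 t1)) (.br _ _ _ (.leaf b0 k2 t2) (.br _ _ _ (.leaf b0 k3 t3) (.leaf b0 k4 t4)))) (.br _ _ _ (.br _ _ _ (.leaf b0 k5 t5) (.br _ _ _ (.leaf b0 k6 t6) (.leaf b0 k7 t7))) (.br _ _ _ (.leaf b0 k8 t8) (.br _ _ _ (.leaf b0 k9 t9) (.leaf b0 k10 t10))))) (.br _ _ _ (.br _ _ _ (.br _ _ _ (.leaf b0 k11 t11) (.br _ _ _ (.leaf b0 k12 t12) (.leaf b0 k13 t13))) (.br _ _ _ (.leaf b0 k14 t14) (.br _ _ _ (.leaf b0 k15 t15) (.leaf b0 k16 t16)))) (.br _ _ _ (.br _ _ _ (.leaf b0 k17 t17) (.br _ _ _ (.leaf b0 k18 t18) (.leaf b0 k19 t19))) (.br _ _ _ (.leaf b0 k20 t20) (.br _ _ _ (.leaf b0 k21 t21) (.leaf b0 k22 t22)))))) w0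
noncomputable def k23 : KT := (.br (Nat.shiftLeft (nat_lit 0x5) (nat_lit 88)) (.br (Nat.shiftLeft (nat_lit 0x1) (nat_lit 89)) (.br (Nat.shiftLeft (nat_lit 0x1) (nat_lit 88)) (.one (nat_lit 0xc0190000000018033300)) (.one (nat_lit 0x100c0190000002018032430))) (.br (Nat.shiftLeft (nat_lit 0x3) (nat_lit 88)) (.one (nat_lit 0x200c0190000004018032430)) (.br (Nat.shiftLeft (nat_lit 0x1) (nat_lit 90)) (.one (nat_lit 0x300c0190000006018033400)) (.one (nat_lit 0x400c0190000008018033400))))) (.br (Nat.shiftLeft (nat_lit 0x7) (nat_lit 88)) (.br (Nat.shiftLeft (nat_lit 0x3) (nat_lit 89)) (.one (nat_lit 0x500c019000000a018033400)) (.one (nat_lit 0x600c019000000c018033400))) (.br (Nat.shiftLeft (nat_lit 0x1) (nat_lit 91)) (.one (nat_lit 0x700c019000000e018033400)) (.br (Nat.shiftLeft (nat_lit 0x9) (nat_lit 88)) (.one (nat_lit 0x800c0190000010018033400)) (.one (nat_lit 0x900c0190000012018033400))))))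
def t23 : k23.all (jb2 57 fl b0) = true := by decide +kernel
noncomputable def k24 : KT := (.one (nat_lit 0xa00c0190000014018032430))
def t24 : k24.all (jb2 57 fl b0) = true := by decide +kernel
noncomputable def k25 : KT := (.br (Nat.shiftLeft (nat_lit 0x1) (nat_lit 100)) (.one (nat_lit 0xb00c0190000016018032430)) (.br (Nat.shiftLeft (nat_lit 0x801) (nat_lit 89)) (.one (nat_lit 0x100000c0190002000018032311)) (.one (nat_lit 0x100300c0190002006018032540))))
def t25 : k25.all (jb2 57 fl b0) = true := by decide +kernel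
noncomputable def k26 : KT := (.br (Nat.shiftLeft (nat_lit 0x1005) (nat_lit 88)) (.one (nat_lit 0x100400c0190002008018032540)) (.one (nat_lit 0x100500c019000200a018032540)))
def t26 : k26.all (jb2 57 fl b0) = true := by decide +kernel
noncomputable def k27 : KT := (.br (Nat.shiftLeft (nat_lit 0x201) (nat_lit 91)) (.br (Nat.shiftLeft (nat_lit 0x1007) (nat_lit 88)) (.one (nat_lit 0x100600c019000200c018032540)) (.one (nat_lit 0x100700c019000200e018032540))) (.br (Nat.shiftLeft (nat_lit 0x1009) (nat_lit 88)) (.one (nat_lit 0x100800c0190002010018032540)) (.br (Nat.shiftLeft (nat_lit 0x1) (nat_lit 101)) (.one (nat_lit 0x100900c0190002012018032540)) (.one (nat_lit 0x200000c0190004000018032311)))))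
def t27 : k27.all (jb2 57 fl b0) = true := by decide +kernel
noncomputable def k28 : KT := (.one (nat_lit 0x200300c0190004006018032540))
def t28 : k28.all (jb2 57 fl b0) = true := by decide +kernel
noncomputable def k29 : KT := (.one (nat_lit 0x200400c0190004008018032540))
def t29 : k29.all (jb2 57 fl b0) = true := by decide +kernel
noncomputable def k30 : KT := (.one (nat_lit 0x200500c019000400a018032540))
def t30 : k30.all (jb2 57 fl b0) = true := by decide +kernel
noncomputable def k31 : KT := (.br (Nat.shiftLeft (nat_lit 0x2007) (nat_lit 88)) (.one (nat_lit 0x200600c019000400c018032540)) (.one (nat_lit 0x200700c019000400e018032540)))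
def t31 : k31.all (jb2 57 fl b0) = true := by decide +kernel
noncomputable def k32 : KT := (.br (Nat.shiftLeft (nat_lit 0x3) (nat_lit 100)) (.br (Nat.shiftLeft (nat_lit 0x2009) (nat_lit 88)) (.one (nat_lit 0x200800c0190004010018032540)) (.one (nat_lit 0x200900c0190004012018032540))) (.br (Nat.shiftLeft (nat_lit 0xc01) (nat_lit 90)) (.one (nat_lit 0x300000c0190006000018032311)) (.one (nat_lit 0x300400c0190006008018033500))))
def t32 : k32.all (jb2 57 fl b0) = true := by decide +kernel
noncomputable def k33 : KT := (.one (nat_lit 0x300500c019000600a018032540))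
def t33 : k33.all (jb2 57 fl b0) = true := by decide +kernel
noncomputable def k34 : KT := (.br (Nat.shiftLeft (nat_lit 0x3007) (nat_lit 88)) (.one (nat_lit 0x300600c019000600c018032540)) (.one (nat_lit 0x300700c019000600e018032540)))
def t34 : k34.all (jb2 57 fl b0) = true := by decide +kernel
noncomputable def k35 : KT := (.br (Nat.shiftLeft (nat_lit 0x3009) (nat_lit 88)) (.one (nat_lit 0x300800c0190006010018032540)) (.br (Nat.shiftLeft (nat_lit 0x1) (nat_lit 102)) (.one (nat_lit 0x300900c0190006012018032540)) (.one (nat_lit 0x400000c0190008000018032311))))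
def t35 : k35.all (jb2 57 fl b0) = true := by decide +kernel
noncomputable def k36 : KT := (.one (nat_lit 0x400500c019000800a018032540))
def t36 : k36.all (jb2 57 fl b0) = true := by decide +kernel
noncomputable def k37 : KT := (.br (Nat.shiftLeft (nat_lit 0x4007) (nat_lit 88)) (.one (nat_lit 0x400600c019000800c018032540)) (.one (nat_lit 0x400700c019000800e018032540)))
def t37 : k37.all (jb2 57 fl b0) = true := by decide +kernel
noncomputable def k38 : KT := (.br (Nat.shiftLeft (nat_lit 0x5) (nat_lit 100)) (.br (Nat.shiftLeft (nat_lit 0x4009) (nat_lit 88)) (.one (nat_lit 0x400800c0190008010018032540)) (.one (nat_lit 0x400900c0190008012018032540))) (.br (Nat.shiftLeft (nat_lit 0x1401) (nat_lit 90)) (.one (nat_lit 0x500000c019000a000018032311)) (.one (nat_lit 0x500600c019000a00c018032540))))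
def t38 : k38.all (jb2 57 fl b0) = true := by decide +kernel
noncomputable def k39 : KT := (.br (Nat.shiftLeft (nat_lit 0x1801) (nat_lit 90)) (.br (Nat.shiftLeft (nat_lit 0x5009) (nat_lit 88)) (.br (Nat.shiftLeft (nat_lit 0xa01) (nat_lit 91)) (.one (nat_lit 0x500700c019000a00e018032540)) (.one (nat_lit 0x500800c019000a010018032540))) (.br (Nat.shiftLeft (nat_lit 0x3) (nat_lit 101)) (.one (nat_lit 0x500900c019000a012018032540)) (.one (nat_lit 0x600000c019000c000018032311)))) (.br (Nat.shiftLeft (nat_lit 0x6009) (nat_lit 88)) (.br (Nat.shiftLeft (nat_lit 0xc01) (nat_lit 91)) (.one (nat_lit 0x600700c019000c00e018032540)) (.one (nat_lit 0x600800c019000c010018032540))) (.br (Nat.shiftLeft (nat_lit 0x7) (nat_lit 100)) (.one (nat_lit 0x600900c019000c012018032540)) (.one (nat_lit 0x700000c019000e000018032311)))))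
def t39 : k39.all (jb2 57 fl b0) = true := by decide +kernel
noncomputable def k40 : KT := (.br (Nat.shiftLeft (nat_lit 0x1) (nat_lit 113)) (.br (Nat.shiftLeft (nat_lit 0x1) (nat_lit 112)) (.br (Nat.shiftLeft (nat_lit 0x9) (nat_lit 100)) (.br (Nat.shiftLeft (nat_lit 0x1) (nat_lit 103)) (.br (Nat.shiftLeft (nat_lit 0x7009) (nat_lit 88)) (.one (nat_lit 0x700800c019000e010018032540)) (.one (nat_lit 0x700900c019000e012018032540))) (.br (Nat.shiftLeft (nat_lit 0x1001) (nat_lit 91)) (.one (nat_lit 0x800000c0190010000018032311)) (.one (nat_lit 0x800900c0190010012018032540)))) (.br (Nat.shiftLeft (nat_lit 0xb) (nat_lit 100)) (.br (Nat.shiftLeft (nat_lit 0x5) (nat_lit 101)) (.one (nat_lit 0x900000c0190012000018032311)) (.one (nat_lit 0xa00000c0190014000018032311))) (.br (Nat.shiftLeft (nat_lit 0x3) (nat_lit 102)) (.one (nat_lit 0xb00000c0190016000018032311)) (.one (nat_lit 0xc00000c0190018000018032311))))) (.br (Nat.shiftLeft (nat_lit 0x1000007) (nat_lit 88)) (.br (Nat.shiftLeft (nat_lit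 0x1000005) (nat_lit 88)) (.br (Nat.shiftLeft (nat_lit 0x400001) (nat_lit 90)) (.one (nat_lit 0x100000300c0192000006018032411)) (.one (nat_lit 0x100000400c0192000008018032411))) (.br (Nat.shiftLeft (nat_lit 0x800003) (nat_lit 89)) (.one (nat_lit 0x100000500c019200000a018032411)) (.one (nat_lit 0x100000600c019200000c018032411)))) (.br (Nat.shiftLeft (nat_lit 0x1000009) (nat_lit 88)) (.br (Nat.shiftLeft (nat_lit 0x200001) (nat_lit 91)) (.one (nat_lit 0x100000700c019200000e018032411)) (.one (nat_lit 0x100000800c0192000010018032411))) (.br (Nat.shiftLeft (nat_lit 0x801) (nat_lit 101)) (.one (nat_lit 0x100000900c0192000012018032411)) (.one (nat_lit 0x100300400c0192006008018032650)))))) (.br (Nat.shiftLeft (nat_lit 0x3) (nat_lit 112)) (.br (Nat.shiftLeft (nat_lit 0x2000007) (nat_lit 88)) (.br (Nat.shiftLeft (nat_lit 0x2000005) (nat_lit 88)) (.br (Nat.shiftLeft (nat_lit 0x800001) (nat_lit 90)) (.one (nat_lit 0x200000300c0194000006018032411)) (.one (nat_lit 0x200000400c0194000008018032411)))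 (.br (Nat.shiftLeft (nat_lit 0x1000003) (nat_lit 89)) (.one (nat_lit 0x200000500c019400000a018032411)) (.one (nat_lit 0x200000600c019400000c018032411)))) (.br (Nat.shiftLeft (nat_lit 0x2000009) (nat_lit 88)) (.br (Nat.shiftLeft (nat_lit 0x400001) (nat_lit 91)) (.one (nat_lit 0x200000700c019400000e018032411)) (.one (nat_lit 0x200000800c0194000010018032411))) (.br (Nat.shiftLeft (nat_lit 0x1001) (nat_lit 101)) (.one (nat_lit 0x200000900c0194000012018032411)) (.one (nat_lit 0x200300400c0194006008018032650))))) (.br (Nat.shiftLeft (nat_lit 0x3000007) (nat_lit 88)) (.br (Nat.shiftLeft (nat_lit 0x3000005) (nat_lit 88)) (.br (Nat.shiftLeft (nat_lit 0xc00001) (nat_lit 90)) (.one (nat_lit 0x300000300c0196000006018032411)) (.one (nat_lit 0x300000400c0196000008018032411))) (.br (Nat.shiftLeft (nat_lit 0x1800003) (nat_lit 89)) (.one (nat_lit 0x300000500c019600000a018032411)) (.one (nat_lit 0x300000600c019600000c018032411)))) (.br (Nat.shiftLeft (nat_lit 0x3000009) (nat_lit 88)) (.br (Nat.shiftLeft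 (nat_lit 0x600001) (nat_lit 91)) (.one (nat_lit 0x300000700c019600000e018032411)) (.one (nat_lit 0x300000800c0196000010018032411))) (.br (Nat.shiftLeft (nat_lit 0x1) (nat_lit 114)) (.one (nat_lit 0x300000900c0196000012018032411)) (.br (Nat.shiftLeft (nat_lit 0x1000001) (nat_lit 90)) (.one (nat_lit 0x400000300c0198000006018032411)) (.one (nat_lit 0x400000400c0198000008018032411))))))))
def t40 : k40.all (jb2 57 fl b0) = true := by decide +kernel
noncomputable def k41 : KT := (.br (Nat.shiftLeft (nat_lit 0x1c00001) (nat_lit 90)) (.br (Nat.shiftLeft (nat_lit 0xa00001) (nat_lit 91)) (.br (Nat.shiftLeft (nat_lit 0x5) (nat_lit 112)) (.br (Nat.shiftLeft (nat_lit 0x4000007) (nat_lit 88)) (.br (Nat.shiftLeft (nat_lit 0x2000003) (nat_lit 89)) (.one (nat_lit 0x400000500c019800000a018032411)) (.one (nat_lit 0x400000600c019800000c018032411))) (.br (Nat.shiftLeft (nat_lit 0x800001) (nat_lit 91)) (.one (nat_lit 0x400000700c019800000e018032411)) (.br (Nat.shiftLeft (nat_lit 0x4000009) (nat_lit 88))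 (.one (nat_lit 0x400000800c0198000010018032411)) (.one (nat_lit 0x400000900c0198000012018032411))))) (.br (Nat.shiftLeft (nat_lit 0x5000005) (nat_lit 88)) (.br (Nat.shiftLeft (nat_lit 0x1400001) (nat_lit 90)) (.one (nat_lit 0x500000300c019a000006018032411)) (.one (nat_lit 0x500000400c019a000008018032411))) (.br (Nat.shiftLeft (nat_lit 0x2800003) (nat_lit 89)) (.one (nat_lit 0x500000500c019a00000a018032411)) (.br (Nat.shiftLeft (nat_lit 0x5000007) (nat_lit 88)) (.one (nat_lit 0x500000600c019a00000c018032411)) (.one (nat_lit 0x500000700c019a00000e018032411)))))) (.br (Nat.shiftLeft (nat_lit 0x3000003) (nat_lit 89)) (.br (Nat.shiftLeft (nat_lit 0x3) (nat_lit 113)) (.br (Nat.shiftLeft (nat_lit 0x5000009) (nat_lit 88)) (.one (nat_lit 0x500000800c019a000010018032411)) (.one (nat_lit 0x500000900c019a000012018032411))) (.br (Nat.shiftLeft (nat_lit 0x1800001) (nat_lit 90)) (.one (nat_lit 0x600000300c019c000006018032411)) (.br (Nat.shiftLeft (nat_lit 0x6000005) (nat_lit 88)) (.one (nat_lit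 0x600000400c019c000008018032411)) (.one (nat_lit 0x600000500c019c00000a018032411))))) (.br (Nat.shiftLeft (nat_lit 0xc00001) (nat_lit 91)) (.br (Nat.shiftLeft (nat_lit 0x6000007) (nat_lit 88)) (.one (nat_lit 0x600000600c019c00000c018032411)) (.one (nat_lit 0x600000700c019c00000e018032411))) (.br (Nat.shiftLeft (nat_lit 0x6000009) (nat_lit 88)) (.one (nat_lit 0x600000800c019c000010018032411)) (.br (Nat.shiftLeft (nat_lit 0x7) (nat_lit 112)) (.one (nat_lit 0x600000900c019c000012018032411)) (.one (nat_lit 0x700000300c019e000006018032411))))))) (.br (Nat.shiftLeft (nat_lit 0x8000007) (nat_lit 88)) (.br (Nat.shiftLeft (nat_lit 0x7000009) (nat_lit 88)) (.br (Nat.shiftLeft (nat_lit 0x3800003) (nat_lit 89)) (.br (Nat.shiftLeft (nat_lit 0x7000005) (nat_lit 88)) (.one (nat_lit 0x700000400c019e000008018032411)) (.one (nat_lit 0x700000500c019e00000a018032411))) (.br (Nat.shiftLeft (nat_lit 0x7000007) (nat_lit 88)) (.one (nat_lit 0x700000600c019e00000c018032411)) (.br (Nat.shiftLeft (nat_lit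 0xe00001) (nat_lit 91)) (.one (nat_lit 0x700000700c019e00000e018032411)) (.one (nat_lit 0x700000800c019e000010018032411))))) (.br (Nat.shiftLeft (nat_lit 0x2000001) (nat_lit 90)) (.br (Nat.shiftLeft (nat_lit 0x1) (nat_lit 115)) (.one (nat_lit 0x700000900c019e000012018032411)) (.one (nat_lit 0x800000300c0190000006018134411))) (.br (Nat.shiftLeft (nat_lit 0x8000005) (nat_lit 88)) (.one (nat_lit 0x800000400c0190000008018134411)) (.br (Nat.shiftLeft (nat_lit 0x4000003) (nat_lit 89)) (.one (nat_lit 0x800000500c019000000a018134411)) (.one (nat_lit 0x800000600c019000000c018134411)))))) (.br (Nat.shiftLeft (nat_lit 0x9000005) (nat_lit 88)) (.br (Nat.shiftLeft (nat_lit 0x8000009) (nat_lit 88)) (.br (Nat.shiftLeft (nat_lit 0x1000001) (nat_lit 91)) (.one (nat_lit 0x800000700c019000000e018134411)) (.one (nat_lit 0x800000800c0190000010018134411))) (.br (Nat.shiftLeft (nat_lit 0x9) (nat_lit 112)) (.one (nat_lit 0x800000900c0190000012018134411)) (.br (Nat.shiftLeft (nat_lit 0x2400001) (nat_lit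 90)) (.one (nat_lit 0x900000300c0192000006018134411)) (.one (nat_lit 0x900000400c0192000008018134411))))) (.br (Nat.shiftLeft (nat_lit 0x9000007) (nat_lit 88)) (.br (Nat.shiftLeft (nat_lit 0x4800003) (nat_lit 89)) (.one (nat_lit 0x900000500c019200000a018134411)) (.one (nat_lit 0x900000600c019200000c018134411))) (.br (Nat.shiftLeft (nat_lit 0x1200001) (nat_lit 91)) (.one (nat_lit 0x900000700c019200000e018134411)) (.br (Nat.shiftLeft (nat_lit 0x9000009) (nat_lit 88)) (.one (nat_lit 0x900000800c0192000010018134411)) (.one (nat_lit 0x900000900c0192000012018134411))))))))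
def t41 : k41.all (jb2 57 fl b0) = true := by decide +kernel
noncomputable def k42 : KT := (.br (Nat.shiftLeft (nat_lit 0xc000005) (nat_lit 88)) (.br (Nat.shiftLeft (nat_lit 0x2c00001) (nat_lit 90)) (.br (Nat.shiftLeft (nat_lit 0xa000007) (nat_lit 88)) (.br (Nat.shiftLeft (nat_lit 0xa000005) (nat_lit 88)) (.br (Nat.shiftLeft (nat_lit 0x2800001) (nat_lit 90)) (.one (nat_lit 0xa00000300c0194000006018134411)) (.one (nat_lit 0xa00000400c0194000008018134411))) (.br (Nat.shiftLeft (nat_lit 0x5000003) (nat_lit 89)) (.one (nat_lit 0xa00000500c019400000a018134411)) (.one (nat_lit 0xa00000600c019400000c018134411)))) (.br (Nat.shiftLeft (nat_lit 0xa000009) (nat_lit 88)) (.br (Nat.shiftLeft (nat_lit 0x1400001) (nat_lit 91)) (.one (nat_lit 0xa00000700c019400000e018134411)) (.one (nat_lit 0xa00000800c0194000010018134411))) (.br (Nat.shiftLeft (nat_lit 0xb) (nat_lit 112)) (.one (nat_lit 0xa00000900c0194000012018134411)) (.one (nat_lit 0xb00000300c0196000006018134411))))) (.br (Nat.shiftLeft (nat_lit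 0x1600001) (nat_lit 91)) (.br (Nat.shiftLeft (nat_lit 0x5800003) (nat_lit 89)) (.br (Nat.shiftLeft (nat_lit 0xb000005) (nat_lit 88)) (.one (nat_lit 0xb00000400c0196000008018134411)) (.one (nat_lit 0xb00000500c019600000a018134411))) (.br (Nat.shiftLeft (nat_lit 0xb000007) (nat_lit 88)) (.one (nat_lit 0xb00000600c019600000c018134411)) (.one (nat_lit 0xb00000700c019600000e018134411)))) (.br (Nat.shiftLeft (nat_lit 0x3) (nat_lit 114)) (.br (Nat.shiftLeft (nat_lit 0xb000009) (nat_lit 88)) (.one (nat_lit 0xb00000800c0196000010018134411)) (.one (nat_lit 0xb00000900c0196000012018134411))) (.br (Nat.shiftLeft (nat_lit 0x3000001) (nat_lit 90)) (.one (nat_lit 0xc00000300c0198000006018134411)) (.one (nat_lit 0xc00000400c0198000008018134411)))))) (.br (Nat.shiftLeft (nat_lit 0x5) (nat_lit 124)) (.br (Nat.shiftLeft (nat_lit 0x1) (nat_lit 124)) (.br (Nat.shiftLeft (nat_lit 0xc000007) (nat_lit 88)) (.br (Nat.shiftLeft (nat_lit 0x6000003) (nat_lit 89)) (.one (nat_lit 0xc00000500c019800000a018134411))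 (.one (nat_lit 0xc00000600c019800000c018134411))) (.br (Nat.shiftLeft (nat_lit 0x1800001) (nat_lit 91)) (.one (nat_lit 0xc00000700c019800000e018134411)) (.one (nat_lit 0xc00000800c0198000010018134411)))) (.br (Nat.shiftLeft (nat_lit 0x3) (nat_lit 124)) (.br (Nat.shiftLeft (nat_lit 0x1) (nat_lit 125)) (.one (nat_lit 0x100000300400c0190006008038432511)) (.one (nat_lit 0x200000300400c0190006008058832511))) (.br (Nat.shiftLeft (nat_lit 0x1) (nat_lit 126)) (.one (nat_lit 0x300000300400c0190006008078c32511)) (.one (nat_lit 0x400000300400c0190006008099032511))))) (.br (Nat.shiftLeft (nat_lit 0x9) (nat_lit 124)) (.br (Nat.shiftLeft (nat_lit 0x7) (nat_lit 124)) (.br (Nat.shiftLeft (nat_lit 0x3) (nat_lit 125)) (.one (nat_lit 0x500000300400c01900060080b9432511)) (.one (nat_lit 0x600000300400c01900060080d9832511))) (.br (Nat.shiftLeft (nat_lit 0x1) (nat_lit 127)) (.one (nat_lit 0x700000300400c01900060080f9c32511)) (.one (nat_lit 0x800000300400c019000600811a032511)))) (.br (Nat.shiftLeft (nat_lit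 0xb) (nat_lit 124)) (.br (Nat.shiftLeft (nat_lit 0x5) (nat_lit 125)) (.one (nat_lit 0x900000300400c019000600813a432511)) (.one (nat_lit 0xa00000300400c019000600815a832511))) (.br (Nat.shiftLeft (nat_lit 0x3) (nat_lit 126)) (.one (nat_lit 0xb00000300400c019000600817ac32511)) (.one (nat_lit 0xc00000300400c019000600819b032511)))))))
def t42 : k42.all (jb2 57 fl b0) = true := by decide +kernel
noncomputable def s1 : KT := (.br (nat_lit 0x300400c0190006008018033500) (.br (nat_lit 0x200000c0190004000018032311) (.br (nat_lit 0xa00c0190000014018032430) (.br (nat_lit 0x900c0190000012018033400) k23 k24) (.br (nat_lit 0x100300c0190002006018032540) k25 (.br (nat_lit 0x100500c019000200a018032540) k26 k27))) (.br (nat_lit 0x200400c0190004008018032540) (.br (nat_lit 0x200300c0190004006018032540) k28 k29) (.br (nat_lit 0x200500c019000400a018032540) k30 (.br (nat_lit 0x200700c019000400e018032540) k31 k32)))) (.br (nat_lit 0x400700c019000800e018032540) (.br (nat_lit 0x300700c019000600e018032540) (.br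 (nat_lit 0x300500c019000600a018032540) k33 k34) (.br (nat_lit 0x400000c0190008000018032311) k35 (.br (nat_lit 0x400500c019000800a018032540) k36 k37))) (.br (nat_lit 0x700000c019000e000018032311) (.br (nat_lit 0x500600c019000a00c018032540) k38 k39) (.br (nat_lit 0x400000400c0198000008018032411) k40 (.br (nat_lit 0x900000900c0192000012018134411) k41 k42)))))
noncomputable def u1 : KT := (.one (nat_lit 0xc0190000000018032320))
def w1 : u1.all (wj 57 s1) = true := by decide +kernel
def o1 : OkW 57 (jb2 57 fl) u1 := .lift s1 _ (.br _ _ _ (.br _ _ _ (.br _ _ _ (.br _ _ _ (.leaf b0 k23 t23) (.leaf b0 k24 t24)) (.br _ _ _ (.leaf b0 k25 t25) (.br _ _ _ (.leaf b0 k26 t26) (.leaf b0 k27 t27)))) (.br _ _ _ (.br _ _ _ (.leaf b0 k28 t28) (.leaf b0 k29 t29)) (.br _ _ _ (.leaf b0 k30 t30) (.br _ _ _ (.leaf b0 k31 t31) (.leaf b0 k32 t32))))) (.br _ _ _ (.br _ _ _ (.br _ _ _ (.leaf b0 k33 t33) (.leaf b0 k34 t34)) (.br _ _ _ (.leaf b0 k35 t35) (.br _ _ _ (.leaf b0 k36 t36) (.leaf b0 k37 t37)))) (.br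 _ _ _ (.br _ _ _ (.leaf b0 k38 t38) (.leaf b0 k39 t39)) (.br _ _ _ (.leaf b0 k40 t40) (.br _ _ _ (.leaf b0 k41 t41) (.leaf b0 k42 t42)))))) w1
noncomputable def k43 : KT := (.br (Nat.shiftLeft (nat_lit 0x1) (nat_lit 90)) (.br (Nat.shiftLeft (nat_lit 0x1) (nat_lit 89)) (.br (Nat.shiftLeft (nat_lit 0x1) (nat_lit 88)) (.one (nat_lit 0xc01a0000000018035300)) (.one (nat_lit 0x100c01a0000002018034430))) (.br (Nat.shiftLeft (nat_lit 0x3) (nat_lit 88)) (.one (nat_lit 0x200c01a0000004018034430)) (.one (nat_lit 0x300c01a0000006018035400)))) (.br (Nat.shiftLeft (nat_lit 0x3) (nat_lit 89)) (.br (Nat.shiftLeft (nat_lit 0x5) (nat_lit 88)) (.one (nat_lit 0x400c01a0000008018035400)) (.one (nat_lit 0x500c01a000000a018035400))) (.br (Nat.shiftLeft (nat_lit 0x7) (nat_lit 88)) (.one (nat_lit 0x600c01a000000c018035400)) (.br (Nat.shiftLeft (nat_lit 0x1) (nat_lit 91)) (.one (nat_lit 0x700c01a000000e018035400)) (.one (nat_lit 0x800c01a0000010018035400))))))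
def t43 : k43.all (jb2 57 fl b0) = true := by decide +kernel
noncomputable def k44 : KT := (.one (nat_lit 0x900c01a0000012018034430))
def t44 : k44.all (jb2 57 fl b0) = true := by decide +kernel
noncomputable def k45 : KT := (.br (Nat.shiftLeft (nat_lit 0xb) (nat_lit 88)) (.one (nat_lit 0xa00c01a0000014018034430)) (.br (Nat.shiftLeft (nat_lit 0x1) (nat_lit 100)) (.one (nat_lit 0xb00c01a0000016018034430)) (.one (nat_lit 0x100000c01a0002000018034311))))
def t45 : k45.all (jb2 57 fl b0) = true := by decide +kernel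
noncomputable def k46 : KT := (.br (Nat.shiftLeft (nat_lit 0x401) (nat_lit 90)) (.one (nat_lit 0x100300c01a0002006018034540)) (.one (nat_lit 0x100400c01a0002008018034540)))
def t46 : k46.all (jb2 57 fl b0) = true := by decide +kernel
noncomputable def k47 : KT := (.br (Nat.shiftLeft (nat_lit 0x1007) (nat_lit 88)) (.br (Nat.shiftLeft (nat_lit 0x803) (nat_lit 89)) (.one (nat_lit 0x100500c01a000200a018034540)) (.one (nat_lit 0x100600c01a000200c018034540))) (.br (Nat.shiftLeft (nat_lit 0x201) (nat_lit 91)) (.one (nat_lit 0x100700c01a000200e018034540)) (.br (Nat.shiftLeft (nat_lit 0x1) (nat_lit 101)) (.one (nat_lit 0x100800c01a0002010018034540)) (.one (nat_lit 0x200000c01a0004000018034311)))))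
def t47 : k47.all (jb2 57 fl b0) = true := by decide +kernel
noncomputable def k48 : KT := (.one (nat_lit 0x200300c01a0004006018034540))
def t48 : k48.all (jb2 57 fl b0) = true := by decide +kernel
noncomputable def k49 : KT := (.one (nat_lit 0x200400c01a0004008018034540))
def t49 : k49.all (jb2 57 fl b0) = true := by decide +kernel
noncomputable def k50 : KT := (.br (Nat.shiftLeft (nat_lit 0x1003) (nat_lit 89)) (.one (nat_lit 0x200500c01a000400a018034540)) (.one (nat_lit 0x200600c01a000400c018034540)))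
def t50 : k50.all (jb2 57 fl b0) = true := by decide +kernel
noncomputable def k51 : KT := (.br (Nat.shiftLeft (nat_lit 0x401) (nat_lit 91)) (.one (nat_lit 0x200700c01a000400e018034540)) (.br (Nat.shiftLeft (nat_lit 0x3) (nat_lit 100)) (.one (nat_lit 0x200800c01a0004010018034540)) (.one (nat_lit 0x300000c01a0006000018034311))))
def t51 : k51.all (jb2 57 fl b0) = true := by decide +kernel
noncomputable def k52 : KT := (.one (nat_lit 0x300400c01a0006008018034540))
def t52 : k52.all (jb2 57 fl b0) = true := by decide +kernel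
noncomputable def k53 : KT := (.br (Nat.shiftLeft (nat_lit 0x1803) (nat_lit 89)) (.one (nat_lit 0x300500c01a000600a018034540)) (.one (nat_lit 0x300600c01a000600c018034540)))
def t53 : k53.all (jb2 57 fl b0) = true := by decide +kernel
noncomputable def k54 : KT := (.br (Nat.shiftLeft (nat_lit 0x1) (nat_lit 102)) (.br (Nat.shiftLeft (nat_lit 0x601) (nat_lit 91)) (.one (nat_lit 0x300700c01a000600e018034540)) (.one (nat_lit 0x300800c01a0006010018034540))) (.br (Nat.shiftLeft (nat_lit 0x1001) (nat_lit 90)) (.one (nat_lit 0x400000c01a0008000018034311)) (.one (nat_lit 0x400500c01a000800a018034540))))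
def t54 : k54.all (jb2 57 fl b0) = true := by decide +kernel
noncomputable def k55 : KT := (.br (Nat.shiftLeft (nat_lit 0x801) (nat_lit 91)) (.br (Nat.shiftLeft (nat_lit 0x4007) (nat_lit 88)) (.one (nat_lit 0x400600c01a000800c018034540)) (.one (nat_lit 0x400700c01a000800e018034540))) (.br (Nat.shiftLeft (nat_lit 0x5) (nat_lit 100)) (.one (nat_lit 0x400800c01a0008010018034540)) (.one (nat_lit 0x500000c01a000a000018034311))))
def t55 : k55.all (jb2 57 fl b0) = true := by decide +kernel
noncomputable def k56 : KT := (.br (Nat.shiftLeft (nat_lit 0x800003) (nat_lit 89)) (.br (Nat.shiftLeft (nat_lit 0x1) (nat_lit 103)) (.br (Nat.shiftLeft (nat_lit 0x1801) (nat_lit 90)) (.br (Nat.shiftLeft (nat_lit 0xa01) (nat_lit 91)) (.br (Nat.shiftLeft (nat_lit 0x5007) (nat_lit 88)) (.one (nat_lit 0x500600c01a000a00c018034540)) (.one (nat_lit 0x500700c01a000a00e018034540))) (.br (Nat.shiftLeft (nat_lit 0x3) (nat_lit 101)) (.one (nat_lit 0x500800c01a000a010018034540)) (.one (nat_lit 0x600000c01a000c000018034311))))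 (.br (Nat.shiftLeft (nat_lit 0x7) (nat_lit 100)) (.br (Nat.shiftLeft (nat_lit 0xc01) (nat_lit 91)) (.one (nat_lit 0x600700c01a000c00e018034540)) (.one (nat_lit 0x600800c01a000c010018034540))) (.br (Nat.shiftLeft (nat_lit 0xe01) (nat_lit 91)) (.one (nat_lit 0x700000c01a000e000018034311)) (.one (nat_lit 0x700800c01a000e010018034540))))) (.br (Nat.shiftLeft (nat_lit 0x3) (nat_lit 102)) (.br (Nat.shiftLeft (nat_lit 0x5) (nat_lit 101)) (.br (Nat.shiftLeft (nat_lit 0x9) (nat_lit 100)) (.one (nat_lit 0x800000c01a0010000018034311)) (.one (nat_lit 0x900000c01a0012000018034311))) (.br (Nat.shiftLeft (nat_lit 0xb) (nat_lit 100)) (.one (nat_lit 0xa00000c01a0014000018034311)) (.one (nat_lit 0xb00000c01a0016000018034311)))) (.br (Nat.shiftLeft (nat_lit 0x400001) (nat_lit 90)) (.br (Nat.shiftLeft (nat_lit 0x1) (nat_lit 112)) (.one (nat_lit 0xc00000c01a0018000018034311)) (.one (nat_lit 0x100000300c01a2000006018034411))) (.br (Nat.shiftLeft (nat_lit 0x1000005) (nat_lit 88)) (.one (nat_lit 0x100000400c01a2000008018034411))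 (.one (nat_lit 0x100000500c01a200000a018034411)))))) (.br (Nat.shiftLeft (nat_lit 0x400001) (nat_lit 91)) (.br (Nat.shiftLeft (nat_lit 0x800001) (nat_lit 90)) (.br (Nat.shiftLeft (nat_lit 0x200001) (nat_lit 91)) (.br (Nat.shiftLeft (nat_lit 0x1000007) (nat_lit 88)) (.one (nat_lit 0x100000600c01a200000c018034411)) (.one (nat_lit 0x100000700c01a200000e018034411))) (.br (Nat.shiftLeft (nat_lit 0x1) (nat_lit 113)) (.one (nat_lit 0x100000800c01a2000010018034411)) (.one (nat_lit 0x200000300c01a4000006018034411)))) (.br (Nat.shiftLeft (nat_lit 0x1000003) (nat_lit 89)) (.br (Nat.shiftLeft (nat_lit 0x2000005) (nat_lit 88)) (.one (nat_lit 0x200000400c01a4000008018034411)) (.one (nat_lit 0x200000500c01a400000a018034411))) (.br (Nat.shiftLeft (nat_lit 0x2000007) (nat_lit 88)) (.one (nat_lit 0x200000600c01a400000c018034411)) (.one (nat_lit 0x200000700c01a400000e018034411))))) (.br (Nat.shiftLeft (nat_lit 0x1800003) (nat_lit 89)) (.br (Nat.shiftLeft (nat_lit 0xc00001) (nat_lit 90)) (.br (Nat.shiftLeft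 (nat_lit 0x3) (nat_lit 112)) (.one (nat_lit 0x200000800c01a4000010018034411)) (.one (nat_lit 0x300000300c01a6000006018034411))) (.br (Nat.shiftLeft (nat_lit 0x3000005) (nat_lit 88)) (.one (nat_lit 0x300000400c01a6000008018034411)) (.one (nat_lit 0x300000500c01a600000a018034411)))) (.br (Nat.shiftLeft (nat_lit 0x600001) (nat_lit 91)) (.br (Nat.shiftLeft (nat_lit 0x3000007) (nat_lit 88)) (.one (nat_lit 0x300000600c01a600000c018034411)) (.one (nat_lit 0x300000700c01a600000e018034411))) (.br (Nat.shiftLeft (nat_lit 0x1) (nat_lit 114)) (.one (nat_lit 0x300000800c01a6000010018034411)) (.br (Nat.shiftLeft (nat_lit 0x1000001) (nat_lit 90)) (.one (nat_lit 0x400000300c01a8000006018034411)) (.one (nat_lit 0x400000400c01a8000008018034411))))))))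
def t56 : k56.all (jb2 57 fl b0) = true := by decide +kernel
noncomputable def k57 : KT := (.br (Nat.shiftLeft (nat_lit 0x7000007) (nat_lit 88)) (.br (Nat.shiftLeft (nat_lit 0x3) (nat_lit 113)) (.br (Nat.shiftLeft (nat_lit 0x1400001) (nat_lit 90)) (.br (Nat.shiftLeft (nat_lit 0x4000007) (nat_lit 88)) (.br (Nat.shiftLeft (nat_lit 0x2000003) (nat_lit 89)) (.one (nat_lit 0x400000500c01a800000a018034411)) (.one (nat_lit 0x400000600c01a800000c018034411))) (.br (Nat.shiftLeft (nat_lit 0x800001) (nat_lit 91)) (.one (nat_lit 0x400000700c01a800000e018034411)) (.br (Nat.shiftLeft (nat_lit 0x5) (nat_lit 112)) (.one (nat_lit 0x400000800c01a8000010018034411)) (.one (nat_lit 0x500000300c01aa000006018034411))))) (.br (Nat.shiftLeft (nat_lit 0x2800003) (nat_lit 89)) (.br (Nat.shiftLeft (nat_lit 0x5000005) (nat_lit 88)) (.one (nat_lit 0x500000400c01aa000008018034411)) (.one (nat_lit 0x500000500c01aa00000a018034411))) (.br (Nat.shiftLeft (nat_lit 0x5000007) (nat_lit 88)) (.one (nat_lit 0x500000600c01aa00000c018034411))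 (.br (Nat.shiftLeft (nat_lit 0xa00001) (nat_lit 91)) (.one (nat_lit 0x500000700c01aa00000e018034411)) (.one (nat_lit 0x500000800c01aa000010018034411)))))) (.br (Nat.shiftLeft (nat_lit 0xc00001) (nat_lit 91)) (.br (Nat.shiftLeft (nat_lit 0x6000005) (nat_lit 88)) (.br (Nat.shiftLeft (nat_lit 0x1800001) (nat_lit 90)) (.one (nat_lit 0x600000300c01ac000006018034411)) (.one (nat_lit 0x600000400c01ac000008018034411))) (.br (Nat.shiftLeft (nat_lit 0x3000003) (nat_lit 89)) (.one (nat_lit 0x600000500c01ac00000a018034411)) (.br (Nat.shiftLeft (nat_lit 0x6000007) (nat_lit 88)) (.one (nat_lit 0x600000600c01ac00000c018034411)) (.one (nat_lit 0x600000700c01ac00000e018034411))))) (.br (Nat.shiftLeft (nat_lit 0x1c00001) (nat_lit 90)) (.br (Nat.shiftLeft (nat_lit 0x7) (nat_lit 112)) (.one (nat_lit 0x600000800c01ac000010018034411)) (.one (nat_lit 0x700000300c01ae000006018034411))) (.br (Nat.shiftLeft (nat_lit 0x7000005) (nat_lit 88)) (.one (nat_lit 0x700000400c01ae000008018034411)) (.br (Nat.shiftLeft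 (nat_lit 0x3800003) (nat_lit 89)) (.one (nat_lit 0x700000500c01ae00000a018034411)) (.one (nat_lit 0x700000600c01ae00000c018034411))))))) (.br (Nat.shiftLeft (nat_lit 0x9000005) (nat_lit 88)) (.br (Nat.shiftLeft (nat_lit 0x4000003) (nat_lit 89)) (.br (Nat.shiftLeft (nat_lit 0x1) (nat_lit 115)) (.br (Nat.shiftLeft (nat_lit 0xe00001) (nat_lit 91)) (.one (nat_lit 0x700000700c01ae00000e018034411)) (.one (nat_lit 0x700000800c01ae000010018034411))) (.br (Nat.shiftLeft (nat_lit 0x2000001) (nat_lit 90)) (.one (nat_lit 0x800000300c01a0000006018136411)) (.br (Nat.shiftLeft (nat_lit 0x8000005) (nat_lit 88)) (.one (nat_lit 0x800000400c01a0000008018136411)) (.one (nat_lit 0x800000500c01a000000a018136411))))) (.br (Nat.shiftLeft (nat_lit 0x1000001) (nat_lit 91)) (.br (Nat.shiftLeft (nat_lit 0x8000007) (nat_lit 88)) (.one (nat_lit 0x800000600c01a000000c018136411)) (.one (nat_lit 0x800000700c01a000000e018136411))) (.br (Nat.shiftLeft (nat_lit 0x9) (nat_lit 112)) (.one (nat_lit 0x800000800c01a0000010018136411))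 (.br (Nat.shiftLeft (nat_lit 0x2400001) (nat_lit 90)) (.one (nat_lit 0x900000300c01a2000006018136411)) (.one (nat_lit 0x900000400c01a2000008018136411)))))) (.br (Nat.shiftLeft (nat_lit 0x2800001) (nat_lit 90)) (.br (Nat.shiftLeft (nat_lit 0x9000007) (nat_lit 88)) (.br (Nat.shiftLeft (nat_lit 0x4800003) (nat_lit 89)) (.one (nat_lit 0x900000500c01a200000a018136411)) (.one (nat_lit 0x900000600c01a200000c018136411))) (.br (Nat.shiftLeft (nat_lit 0x1200001) (nat_lit 91)) (.one (nat_lit 0x900000700c01a200000e018136411)) (.br (Nat.shiftLeft (nat_lit 0x5) (nat_lit 113)) (.one (nat_lit 0x900000800c01a2000010018136411)) (.one (nat_lit 0xa00000300c01a4000006018136411))))) (.br (Nat.shiftLeft (nat_lit 0x5000003) (nat_lit 89)) (.br (Nat.shiftLeft (nat_lit 0xa000005) (nat_lit 88)) (.one (nat_lit 0xa00000400c01a4000008018136411)) (.one (nat_lit 0xa00000500c01a400000a018136411))) (.br (Nat.shiftLeft (nat_lit 0xa000007) (nat_lit 88)) (.one (nat_lit 0xa00000600c01a400000c018136411)) (.br (Nat.shiftLeft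 (nat_lit 0x1400001) (nat_lit 91)) (.one (nat_lit 0xa00000700c01a400000e018136411)) (.one (nat_lit 0xa00000800c01a4000010018136411))))))))
def t57 : k57.all (jb2 57 fl b0) = true := by decide +kernel
noncomputable def k58 : KT := (.br (Nat.shiftLeft (nat_lit 0x1600001) (nat_lit 91)) (.br (Nat.shiftLeft (nat_lit 0xb000005) (nat_lit 88)) (.br (Nat.shiftLeft (nat_lit 0x2c00001) (nat_lit 90)) (.one (nat_lit 0xb00000300c01a6000006018136411)) (.one (nat_lit 0xb00000400c01a6000008018136411))) (.br (Nat.shiftLeft (nat_lit 0x5800003) (nat_lit 89)) (.one (nat_lit 0xb00000500c01a600000a018136411)) (.br (Nat.shiftLeft (nat_lit 0xb000007) (nat_lit 88)) (.one (nat_lit 0xb00000600c01a600000c018136411)) (.one (nat_lit 0xb00000700c01a600000e018136411))))) (.br (Nat.shiftLeft (nat_lit 0xc000005) (nat_lit 88)) (.br (Nat.shiftLeft (nat_lit 0x3) (nat_lit 114)) (.one (nat_lit 0xb00000800c01a6000010018136411)) (.br (Nat.shiftLeft (nat_lit 0x3000001) (nat_lit 90)) (.one (nat_lit 0xc00000300c01a8000006018136411))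 (.one (nat_lit 0xc00000400c01a8000008018136411)))) (.br (Nat.shiftLeft (nat_lit 0x6000003) (nat_lit 89)) (.one (nat_lit 0xc00000500c01a800000a018136411)) (.br (Nat.shiftLeft (nat_lit 0xc000007) (nat_lit 88)) (.one (nat_lit 0xc00000600c01a800000c018136411)) (.one (nat_lit 0xc00000700c01a800000e018136411))))))
def t58 : k58.all (jb2 57 fl b0) = true := by decide +kernel
noncomputable def s2 : KT := (.br (nat_lit 0x200600c01a000400c018034540) (.br (nat_lit 0x100400c01a0002008018034540) (.br (nat_lit 0x900c01a0000012018034430) (.br (nat_lit 0x800c01a0000010018035400) k43 k44) (.br (nat_lit 0x100000c01a0002000018034311) k45 k46)) (.br (nat_lit 0x200300c01a0004006018034540) (.br (nat_lit 0x200000c01a0004000018034311) k47 k48) (.br (nat_lit 0x200400c01a0004008018034540) k49 k50))) (.br (nat_lit 0x400500c01a000800a018034540) (.br (nat_lit 0x300400c01a0006008018034540) (.br (nat_lit 0x300000c01a0006000018034311) k51 k52) (.br (nat_lit 0x300600c01a000600c018034540) k53 k54)) (.br (nat_lit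 0x400000400c01a8000008018034411) (.br (nat_lit 0x500000c01a000a000018034311) k55 k56) (.br (nat_lit 0xa00000800c01a4000010018136411) k57 k58))))
noncomputable def u2 : KT := (.one (nat_lit 0xc01a0000000018034320))
def w2 : u2.all (wj 57 s2) = true := by decide +kernel
def o2 : OkW 57 (jb2 57 fl) u2 := .lift s2 _ (.br _ _ _ (.br _ _ _ (.br _ _ _ (.br _ _ _ (.leaf b0 k43 t43) (.leaf b0 k44 t44)) (.br _ _ _ (.leaf b0 k45 t45) (.leaf b0 k46 t46))) (.br _ _ _ (.br _ _ _ (.leaf b0 k47 t47) (.leaf b0 k48 t48)) (.br _ _ _ (.leaf b0 k49 t49) (.leaf b0 k50 t50)))) (.br _ _ _ (.br _ _ _ (.br _ _ _ (.leaf b0 k51 t51) (.leaf b0 k52 t52)) (.br _ _ _ (.leaf b0 k53 t53) (.leaf b0 k54 t54))) (.br _ _ _ (.br _ _ _ (.leaf b0 k55 t55) (.leaf b0 k56 t56)) (.br _ _ _ (.leaf b0 k57 t57) (.leaf b0 k58 t58))))) w2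
noncomputable def k59 : KT := (.br (Nat.shiftLeft (nat_lit 0x403007) (nat_lit 66)) (.br (Nat.shiftLeft (nat_lit 0xc01d) (nat_lit 64)) (.br (Nat.shiftLeft (nat_lit 0x3007) (nat_lit 66)) (.one (nat_lit 0xc01b0000000018037300)) (.one (nat_lit 0xc01c0000000018039300))) (.br (Nat.shiftLeft (nat_lit 0x1) (nat_lit 88)) (.one (nat_lit 0xc01d000000001803b300)) (.one (nat_lit 0x100c01b0000002018036430)))) (.br (Nat.shiftLeft (nat_lit 0x1) (nat_lit 89)) (.br (Nat.shiftLeft (nat_lit 0x100c01d) (nat_lit 64)) (.one (nat_lit 0x100c01c0000002018038430)) (.one (nat_lit 0x100c01d000000201803a430))) (.br (Nat.shiftLeft (nat_lit 0x803007) (nat_lit 66)) (.one (nat_lit 0x200c01b0000004018036430)) (.one (nat_lit 0x200c01c0000004018038430)))))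
def t59 : k59.all (jb2 57 fl b0) = true := by decide +kernel
noncomputable def k60 : KT := (.br (Nat.shiftLeft (nat_lit 0x3) (nat_lit 88)) (.one (nat_lit 0x200c01d000000401803a430)) (.one (nat_lit 0x300c01b0000006018037400)))
def t60 : k60.all (jb2 57 fl b0) = true := by decide +kernel
noncomputable def k61 : KT := (.one (nat_lit 0x300c01c0000006018038430))
def t61 : k61.all (jb2 57 fl b0) = true := by decide +kernel
noncomputable def k62 : KT := (.br (Nat.shiftLeft (nat_lit 0x1) (nat_lit 90)) (.one (nat_lit 0x300c01d000000601803a430)) (.br (Nat.shiftLeft (nat_lit 0x1003007) (nat_lit 66)) (.one (nat_lit 0x400c01b0000008018037400)) (.one (nat_lit 0x400c01c0000008018039400))))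
def t62 : k62.all (jb2 57 fl b0) = true := by decide +kernel
noncomputable def k63 : KT := (.br (Nat.shiftLeft (nat_lit 0x5) (nat_lit 88)) (.one (nat_lit 0x400c01d000000801803a430)) (.br (Nat.shiftLeft (nat_lit 0x1403007) (nat_lit 66)) (.one (nat_lit 0x500c01b000000a018037400)) (.one (nat_lit 0x500c01c000000a018039400))))
def t63 : k63.all (jb2 57 fl b0) = true := by decide +kernel
noncomputable def k64 : KT := (.br (Nat.shiftLeft (nat_lit 0x3) (nat_lit 89)) (.one (nat_lit 0x500c01d000000a01803a430)) (.one (nat_lit 0x600c01b000000c018037400)))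
def t64 : k64.all (jb2 57 fl b0) = true := by decide +kernel
noncomputable def k65 : KT := (.one (nat_lit 0x600c01c000000c018038430))
def t65 : k65.all (jb2 57 fl b0) = true := by decide +kernel
noncomputable def k66 : KT := (.br (Nat.shiftLeft (nat_lit 0x7) (nat_lit 88)) (.one (nat_lit 0x600c01d000000c01803a430)) (.one (nat_lit 0x700c01b000000e018037400)))
def t66 : k66.all (jb2 57 fl b0) = true := by decide +kernel
noncomputable def k67 : KT := (.one (nat_lit 0x700c01c000000e018038430))
def t67 : k67.all (jb2 57 fl b0) = true := by decide +kernel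
noncomputable def k68 : KT := (.one (nat_lit 0x700c01d000000e01803a430))
def t68 : k68.all (jb2 57 fl b0) = true := by decide +kernel
noncomputable def k69 : KT := (.one (nat_lit 0x800c01b0000010018036430))
def t69 : k69.all (jb2 57 fl b0) = true := by decide +kernel
noncomputable def k70 : KT := (.br (Nat.shiftLeft (nat_lit 0x800c01d) (nat_lit 64)) (.one (nat_lit 0x800c01c0000010018038430)) (.one (nat_lit 0x800c01d000001001803a430)))
def t70 : k70.all (jb2 57 fl b0) = true := by decide +kernel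
noncomputable def k71 : KT := (.br (Nat.shiftLeft (nat_lit 0x2403007) (nat_lit 66)) (.one (nat_lit 0x900c01b0000012018036430)) (.br (Nat.shiftLeft (nat_lit 0x900c01d) (nat_lit 64)) (.one (nat_lit 0x900c01c0000012018038430)) (.one (nat_lit 0x900c01d000001201803a430))))
def t71 : k71.all (jb2 57 fl b0) = true := by decide +kernel
noncomputable def k72 : KT := (.br (Nat.shiftLeft (nat_lit 0xa00c01d) (nat_lit 64)) (.br (Nat.shiftLeft (nat_lit 0x2803007) (nat_lit 66)) (.one (nat_lit 0xa00c01b0000014018036430)) (.one (nat_lit 0xa00c01c0000014018038430))) (.br (Nat.shiftLeft (nat_lit 0xb) (nat_lit 88)) (.one (nat_lit 0xa00c01d000001401803a430)) (.br (Nat.shiftLeft (nat_lit 0x2c03007) (nat_lit 66)) (.one (nat_lit 0xb00c01b0000016018036430)) (.one (nat_lit 0xb00c01c0000016018038430)))))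
def t72 : k72.all (jb2 57 fl b0) = true := by decide +kernel
noncomputable def k73 : KT := (.br (Nat.shiftLeft (nat_lit 0x100000c01d) (nat_lit 64)) (.br (Nat.shiftLeft (nat_lit 0x1) (nat_lit 100)) (.one (nat_lit 0xb00c01d000001601803a430)) (.br (Nat.shiftLeft (nat_lit 0x400003007) (nat_lit 66)) (.one (nat_lit 0x100000c01b0002000018036311)) (.one (nat_lit 0x100000c01c0002000018038311)))) (.br (Nat.shiftLeft (nat_lit 0x401) (nat_lit 90)) (.br (Nat.shiftLeft (nat_lit 0x801) (nat_lit 89)) (.one (nat_lit 0x100000c01d000200001803a311)) (.one (nat_lit 0x100300c01b0002006018036540))) (.br (Nat.shiftLeft (nat_lit 0x401003007) (nat_lit 66)) (.one (nat_lit 0x100400c01b0002008018036540)) (.one (nat_lit 0x100400c01c0002008018038540)))))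
def t73 : k73.all (jb2 57 fl b0) = true := by decide +kernel
noncomputable def k74 : KT := (.br (Nat.shiftLeft (nat_lit 0x1007) (nat_lit 88)) (.br (Nat.shiftLeft (nat_lit 0x401403007) (nat_lit 66)) (.one (nat_lit 0x100500c01b000200a018036540)) (.br (Nat.shiftLeft (nat_lit 0x803) (nat_lit 89)) (.one (nat_lit 0x100500c01c000200a018038540)) (.one (nat_lit 0x100600c01b000200c018036540)))) (.br (Nat.shiftLeft (nat_lit 0x800003007) (nat_lit 66)) (.br (Nat.shiftLeft (nat_lit 0x1) (nat_lit 101)) (.one (nat_lit 0x100700c01b000200e018036540)) (.one (nat_lit 0x200000c01b0004000018036311))) (.br (Nat.shiftLeft (nat_lit 0x200000c01d) (nat_lit 64)) (.one (nat_lit 0x200000c01c0004000018038311)) (.one (nat_lit 0x200000c01d000400001803a311)))))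
def t74 : k74.all (jb2 57 fl b0) = true := by decide +kernel
noncomputable def k75 : KT := (.one (nat_lit 0x200300c01b0004006018036540))
def t75 : k75.all (jb2 57 fl b0) = true := by decide +kernel
noncomputable def k76 : KT := (.br (Nat.shiftLeft (nat_lit 0x801003007) (nat_lit 66)) (.one (nat_lit 0x200400c01b0004008018036540)) (.one (nat_lit 0x200400c01c0004008018038540)))
def t76 : k76.all (jb2 57 fl b0) = true := by decide +kernel
noncomputable def k77 : KT := (.br (Nat.shiftLeft (nat_lit 0x801403007) (nat_lit 66)) (.one (nat_lit 0x200500c01b000400a018036540)) (.br (Nat.shiftLeft (nat_lit 0x1003) (nat_lit 89)) (.one (nat_lit 0x200500c01c000400a018038540)) (.one (nat_lit 0x200600c01b000400c018036540))))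
def t77 : k77.all (jb2 57 fl b0) = true := by decide +kernel
noncomputable def k78 : KT := (.br (Nat.shiftLeft (nat_lit 0xc00003007) (nat_lit 66)) (.br (Nat.shiftLeft (nat_lit 0x3) (nat_lit 100)) (.one (nat_lit 0x200700c01b000400e018036540)) (.one (nat_lit 0x300000c01b0006000018036311))) (.br (Nat.shiftLeft (nat_lit 0x300000c01d) (nat_lit 64)) (.one (nat_lit 0x300000c01c0006000018038311)) (.br (Nat.shiftLeft (nat_lit 0xc01) (nat_lit 90)) (.one (nat_lit 0x300000c01d000600001803a311)) (.one (nat_lit 0x300400c01b0006008018036540)))))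
def t78 : k78.all (jb2 57 fl b0) = true := by decide +kernel
noncomputable def k79 : KT := (.br (Nat.shiftLeft (nat_lit 0x3005) (nat_lit 88)) (.one (nat_lit 0x300400c01c0006008018038540)) (.one (nat_lit 0x300500c01b000600a018036540)))
def t79 : k79.all (jb2 57 fl b0) = true := by decide +kernel
noncomputable def k80 : KT := (.br (Nat.shiftLeft (nat_lit 0x1) (nat_lit 102)) (.br (Nat.shiftLeft (nat_lit 0x1803) (nat_lit 89)) (.one (nat_lit 0x300500c01c000600a018038540)) (.br (Nat.shiftLeft (nat_lit 0x3007) (nat_lit 88)) (.one (nat_lit 0x300600c01b000600c018036540)) (.one (nat_lit 0x300700c01b000600e018036540)))) (.br (Nat.shiftLeft (nat_lit 0x1000003007) (nat_lit 66)) (.one (nat_lit 0x400000c01b0008000018036311)) (.br (Nat.shiftLeft (nat_lit 0x400000c01d) (nat_lit 64)) (.one (nat_lit 0x400000c01c0008000018038311)) (.one (nat_lit 0x400000c01d000800001803a311)))))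
def t80 : k80.all (jb2 57 fl b0) = true := by decide +kernel
noncomputable def k81 : KT := (.br (Nat.shiftLeft (nat_lit 0x1001403007) (nat_lit 66)) (.one (nat_lit 0x400500c01b000800a018036540)) (.br (Nat.shiftLeft (nat_lit 0x2003) (nat_lit 89)) (.one (nat_lit 0x400500c01c000800a018038540)) (.one (nat_lit 0x400600c01b000800c018036540))))
def t81 : k81.all (jb2 57 fl b0) = true := by decide +kernel
noncomputable def k82 : KT := (.br (Nat.shiftLeft (nat_lit 0x2800003007) (nat_lit 66)) (.br (Nat.shiftLeft (nat_lit 0x7) (nat_lit 100)) (.br (Nat.shiftLeft (nat_lit 0x5007) (nat_lit 88)) (.br (Nat.shiftLeft (nat_lit 0x1400003007) (nat_lit 66)) (.br (Nat.shiftLeft (nat_lit 0x5) (nat_lit 100)) (.one (nat_lit 0x400700c01b000800e018036540)) (.one (nat_lit 0x500000c01b000a000018036311))) (.br (Nat.shiftLeft (nat_lit 0x500000c01d) (nat_lit 64)) (.one (nat_lit 0x500000c01c000a000018038311)) (.br (Nat.shiftLeft (nat_lit 0x1401) (nat_lit 90)) (.one (nat_lit 0x500000c01d000a00001803a311)) (.one (nat_lit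 0x500600c01b000a00c018036540))))) (.br (Nat.shiftLeft (nat_lit 0x1800003007) (nat_lit 66)) (.br (Nat.shiftLeft (nat_lit 0x3) (nat_lit 101)) (.one (nat_lit 0x500700c01b000a00e018036540)) (.one (nat_lit 0x600000c01b000c000018036311))) (.br (Nat.shiftLeft (nat_lit 0x600000c01d) (nat_lit 64)) (.one (nat_lit 0x600000c01c000c000018038311)) (.br (Nat.shiftLeft (nat_lit 0x1801) (nat_lit 90)) (.one (nat_lit 0x600000c01d000c00001803a311)) (.one (nat_lit 0x600700c01b000c00e018036540)))))) (.br (Nat.shiftLeft (nat_lit 0x800000c01d) (nat_lit 64)) (.br (Nat.shiftLeft (nat_lit 0x700000c01d) (nat_lit 64)) (.br (Nat.shiftLeft (nat_lit 0x1c00003007) (nat_lit 66)) (.one (nat_lit 0x700000c01b000e000018036311)) (.one (nat_lit 0x700000c01c000e000018038311))) (.br (Nat.shiftLeft (nat_lit 0x1) (nat_lit 103)) (.one (nat_lit 0x700000c01d000e00001803a311)) (.br (Nat.shiftLeft (nat_lit 0x2000003007) (nat_lit 66)) (.one (nat_lit 0x800000c01b0010000018036311)) (.one (nat_lit 0x800000c01c0010000018038311)))))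 (.br (Nat.shiftLeft (nat_lit 0x2400003007) (nat_lit 66)) (.br (Nat.shiftLeft (nat_lit 0x9) (nat_lit 100)) (.one (nat_lit 0x800000c01d001000001803a311)) (.one (nat_lit 0x900000c01b0012000018036311))) (.br (Nat.shiftLeft (nat_lit 0x900000c01d) (nat_lit 64)) (.one (nat_lit 0x900000c01c0012000018038311)) (.br (Nat.shiftLeft (nat_lit 0x5) (nat_lit 101)) (.one (nat_lit 0x900000c01d001200001803a311)) (.one (nat_lit 0xa00000c01b0014000018036311))))))) (.br (Nat.shiftLeft (nat_lit 0x400001003007) (nat_lit 66)) (.br (Nat.shiftLeft (nat_lit 0x3) (nat_lit 102)) (.br (Nat.shiftLeft (nat_lit 0xb) (nat_lit 100)) (.br (Nat.shiftLeft (nat_lit 0xa00000c01d) (nat_lit 64)) (.one (nat_lit 0xa00000c01c0014000018038311)) (.one (nat_lit 0xa00000c01d001400001803a311))) (.br (Nat.shiftLeft (nat_lit 0x2c00003007) (nat_lit 66)) (.one (nat_lit 0xb00000c01b0016000018036311)) (.br (Nat.shiftLeft (nat_lit 0xb00000c01d) (nat_lit 64)) (.one (nat_lit 0xb00000c01c0016000018038311)) (.one (nat_lit 0xb00000c01d001600001803a311)))))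 (.br (Nat.shiftLeft (nat_lit 0xc00000c01d) (nat_lit 64)) (.br (Nat.shiftLeft (nat_lit 0x3000003007) (nat_lit 66)) (.one (nat_lit 0xc00000c01b0018000018036311)) (.one (nat_lit 0xc00000c01c0018000018038311))) (.br (Nat.shiftLeft (nat_lit 0x1) (nat_lit 112)) (.one (nat_lit 0xc00000c01d001800001803a311)) (.br (Nat.shiftLeft (nat_lit 0x400001) (nat_lit 90)) (.one (nat_lit 0x100000300c01b2000006018036411)) (.one (nat_lit 0x100000400c01b2000008018036411)))))) (.br (Nat.shiftLeft (nat_lit 0x1) (nat_lit 113)) (.br (Nat.shiftLeft (nat_lit 0x400001403007) (nat_lit 66)) (.br (Nat.shiftLeft (nat_lit 0x1000005) (nat_lit 88)) (.one (nat_lit 0x100000400c01c2000008018038411)) (.one (nat_lit 0x100000500c01b200000a018036411))) (.br (Nat.shiftLeft (nat_lit 0x800003) (nat_lit 89)) (.one (nat_lit 0x100000500c01c200000a018038411)) (.br (Nat.shiftLeft (nat_lit 0x1000007) (nat_lit 88)) (.one (nat_lit 0x100000600c01b200000c018036411)) (.one (nat_lit 0x100000700c01b200000e018036411))))) (.br (Nat.shiftLeft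 (nat_lit 0x800001003007) (nat_lit 66)) (.br (Nat.shiftLeft (nat_lit 0x800001) (nat_lit 90)) (.one (nat_lit 0x200000300c01b4000006018036411)) (.one (nat_lit 0x200000400c01b4000008018036411))) (.br (Nat.shiftLeft (nat_lit 0x2000005) (nat_lit 88)) (.one (nat_lit 0x200000400c01c4000008018038411)) (.br (Nat.shiftLeft (nat_lit 0x800001403007) (nat_lit 66)) (.one (nat_lit 0x200000500c01b400000a018036411)) (.one (nat_lit 0x200000500c01c400000a018038411))))))))
def t82 : k82.all (jb2 57 fl b0) = true := by decide +kernel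
noncomputable def k83 : KT := (.br (Nat.shiftLeft (nat_lit 0x1400001403007) (nat_lit 66)) (.br (Nat.shiftLeft (nat_lit 0x1000001) (nat_lit 90)) (.br (Nat.shiftLeft (nat_lit 0x3000005) (nat_lit 88)) (.br (Nat.shiftLeft (nat_lit 0x3) (nat_lit 112)) (.br (Nat.shiftLeft (nat_lit 0x2000007) (nat_lit 88)) (.one (nat_lit 0x200000600c01b400000c018036411)) (.one (nat_lit 0x200000700c01b400000e018036411))) (.br (Nat.shiftLeft (nat_lit 0xc00001) (nat_lit 90)) (.one (nat_lit 0x300000300c01b6000006018036411)) (.br (Nat.shiftLeft (nat_lit 0xc00001003007) (nat_lit 66)) (.one (nat_lit 0x300000400c01b6000008018036411)) (.one (nat_lit 0x300000400c01c6000008018038411))))) (.br (Nat.shiftLeft (nat_lit 0x1800003) (nat_lit 89)) (.br (Nat.shiftLeft (nat_lit 0xc00001403007) (nat_lit 66)) (.one (nat_lit 0x300000500c01b600000a018036411)) (.one (nat_lit 0x300000500c01c600000a018038411))) (.br (Nat.shiftLeft (nat_lit 0x3000007) (nat_lit 88)) (.one (nat_lit 0x300000600c01b600000c018036411)) (.br (Nat.shiftLeft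 (nat_lit 0x1) (nat_lit 114)) (.one (nat_lit 0x300000700c01b600000e018036411)) (.one (nat_lit 0x400000300c01b8000006018036411)))))) (.br (Nat.shiftLeft (nat_lit 0x4000007) (nat_lit 88)) (.br (Nat.shiftLeft (nat_lit 0x4000005) (nat_lit 88)) (.br (Nat.shiftLeft (nat_lit 0x1000001003007) (nat_lit 66)) (.one (nat_lit 0x400000400c01b8000008018036411)) (.one (nat_lit 0x400000400c01c8000008018038411))) (.br (Nat.shiftLeft (nat_lit 0x1000001403007) (nat_lit 66)) (.one (nat_lit 0x400000500c01b800000a018036411)) (.br (Nat.shiftLeft (nat_lit 0x2000003) (nat_lit 89)) (.one (nat_lit 0x400000500c01c800000a018038411)) (.one (nat_lit 0x400000600c01b800000c018036411))))) (.br (Nat.shiftLeft (nat_lit 0x1400001) (nat_lit 90)) (.br (Nat.shiftLeft (nat_lit 0x5) (nat_lit 112)) (.one (nat_lit 0x400000700c01b800000e018036411)) (.one (nat_lit 0x500000300c01ba000006018036411))) (.br (Nat.shiftLeft (nat_lit 0x1400001003007) (nat_lit 66)) (.one (nat_lit 0x500000400c01ba000008018036411)) (.br (Nat.shiftLeft (nat_lit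 0x5000005) (nat_lit 88)) (.one (nat_lit 0x500000400c01ca000008018038411)) (.one (nat_lit 0x500000500c01ba00000a018036411))))))) (.br (Nat.shiftLeft (nat_lit 0x7) (nat_lit 112)) (.br (Nat.shiftLeft (nat_lit 0x1800001003007) (nat_lit 66)) (.br (Nat.shiftLeft (nat_lit 0x5000007) (nat_lit 88)) (.br (Nat.shiftLeft (nat_lit 0x2800003) (nat_lit 89)) (.one (nat_lit 0x500000500c01ca00000a018038411)) (.one (nat_lit 0x500000600c01ba00000c018036411))) (.br (Nat.shiftLeft (nat_lit 0x3) (nat_lit 113)) (.one (nat_lit 0x500000700c01ba00000e018036411)) (.br (Nat.shiftLeft (nat_lit 0x1800001) (nat_lit 90)) (.one (nat_lit 0x600000300c01bc000006018036411)) (.one (nat_lit 0x600000400c01bc000008018036411))))) (.br (Nat.shiftLeft (nat_lit 0x1800001403007) (nat_lit 66)) (.br (Nat.shiftLeft (nat_lit 0x6000005) (nat_lit 88)) (.one (nat_lit 0x600000400c01cc000008018038411)) (.one (nat_lit 0x600000500c01bc00000a018036411))) (.br (Nat.shiftLeft (nat_lit 0x3000003) (nat_lit 89)) (.one (nat_lit 0x600000500c01cc00000a018038411))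 (.br (Nat.shiftLeft (nat_lit 0x6000007) (nat_lit 88)) (.one (nat_lit 0x600000600c01bc00000c018036411)) (.one (nat_lit 0x600000700c01bc00000e018036411)))))) (.br (Nat.shiftLeft (nat_lit 0x3800003) (nat_lit 89)) (.br (Nat.shiftLeft (nat_lit 0x1c00001003007) (nat_lit 66)) (.br (Nat.shiftLeft (nat_lit 0x1c00001) (nat_lit 90)) (.one (nat_lit 0x700000300c01be000006018036411)) (.one (nat_lit 0x700000400c01be000008018036411))) (.br (Nat.shiftLeft (nat_lit 0x7000005) (nat_lit 88)) (.one (nat_lit 0x700000400c01ce000008018038411)) (.br (Nat.shiftLeft (nat_lit 0x1c00001403007) (nat_lit 66)) (.one (nat_lit 0x700000500c01be00000a018036411)) (.one (nat_lit 0x700000500c01ce00000a018038411))))) (.br (Nat.shiftLeft (nat_lit 0x1) (nat_lit 115)) (.br (Nat.shiftLeft (nat_lit 0x7000007) (nat_lit 88)) (.one (nat_lit 0x700000600c01be00000c018036411)) (.one (nat_lit 0x700000700c01be00000e018036411))) (.br (Nat.shiftLeft (nat_lit 0x2000001) (nat_lit 90)) (.one (nat_lit 0x800000300c01b0000006018138411)) (.br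 (Nat.shiftLeft (nat_lit 0x2000001003007) (nat_lit 66)) (.one (nat_lit 0x800000400c01b0000008018138411)) (.one (nat_lit 0x800000400c01c000000801813a411))))))))
def t83 : k83.all (jb2 57 fl b0) = true := by decide +kernel
noncomputable def k84 : KT := (.br (Nat.shiftLeft (nat_lit 0x2800001403007) (nat_lit 66)) (.br (Nat.shiftLeft (nat_lit 0x9000005) (nat_lit 88)) (.br (Nat.shiftLeft (nat_lit 0x8000007) (nat_lit 88)) (.br (Nat.shiftLeft (nat_lit 0x2000001403007) (nat_lit 66)) (.one (nat_lit 0x800000500c01b000000a018138411)) (.br (Nat.shiftLeft (nat_lit 0x4000003) (nat_lit 89)) (.one (nat_lit 0x800000500c01c000000a01813a411)) (.one (nat_lit 0x800000600c01b000000c018138411)))) (.br (Nat.shiftLeft (nat_lit 0x2400001) (nat_lit 90)) (.br (Nat.shiftLeft (nat_lit 0x9) (nat_lit 112)) (.one (nat_lit 0x800000700c01b000000e018138411)) (.one (nat_lit 0x900000300c01b2000006018138411))) (.br (Nat.shiftLeft (nat_lit 0x2400001003007) (nat_lit 66)) (.one (nat_lit 0x900000400c01b2000008018138411)) (.one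 (nat_lit 0x900000400c01c200000801813a411))))) (.br (Nat.shiftLeft (nat_lit 0x5) (nat_lit 113)) (.br (Nat.shiftLeft (nat_lit 0x4800003) (nat_lit 89)) (.br (Nat.shiftLeft (nat_lit 0x2400001403007) (nat_lit 66)) (.one (nat_lit 0x900000500c01b200000a018138411)) (.one (nat_lit 0x900000500c01c200000a01813a411))) (.br (Nat.shiftLeft (nat_lit 0x9000007) (nat_lit 88)) (.one (nat_lit 0x900000600c01b200000c018138411)) (.one (nat_lit 0x900000700c01b200000e018138411)))) (.br (Nat.shiftLeft (nat_lit 0x2800001003007) (nat_lit 66)) (.br (Nat.shiftLeft (nat_lit 0x2800001) (nat_lit 90)) (.one (nat_lit 0xa00000300c01b4000006018138411)) (.one (nat_lit 0xa00000400c01b4000008018138411))) (.br (Nat.shiftLeft (nat_lit 0xa000005) (nat_lit 88)) (.one (nat_lit 0xa00000400c01c400000801813a411)) (.one (nat_lit 0xa00000500c01b400000a018138411)))))) (.br (Nat.shiftLeft (nat_lit 0x5800003) (nat_lit 89)) (.br (Nat.shiftLeft (nat_lit 0x2c00001) (nat_lit 90)) (.br (Nat.shiftLeft (nat_lit 0xa000007) (nat_lit 88)) (.br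 (Nat.shiftLeft (nat_lit 0x5000003) (nat_lit 89)) (.one (nat_lit 0xa00000500c01c400000a01813a411)) (.one (nat_lit 0xa00000600c01b400000c018138411))) (.br (Nat.shiftLeft (nat_lit 0xb) (nat_lit 112)) (.one (nat_lit 0xa00000700c01b400000e018138411)) (.one (nat_lit 0xb00000300c01b6000006018138411)))) (.br (Nat.shiftLeft (nat_lit 0xb000005) (nat_lit 88)) (.br (Nat.shiftLeft (nat_lit 0x2c00001003007) (nat_lit 66)) (.one (nat_lit 0xb00000400c01b6000008018138411)) (.one (nat_lit 0xb00000400c01c600000801813a411))) (.br (Nat.shiftLeft (nat_lit 0x2c00001403007) (nat_lit 66)) (.one (nat_lit 0xb00000500c01b600000a018138411)) (.one (nat_lit 0xb00000500c01c600000a01813a411))))) (.br (Nat.shiftLeft (nat_lit 0x3000001003007) (nat_lit 66)) (.br (Nat.shiftLeft (nat_lit 0x3) (nat_lit 114)) (.br (Nat.shiftLeft (nat_lit 0xb000007) (nat_lit 88)) (.one (nat_lit 0xb00000600c01b600000c018138411)) (.one (nat_lit 0xb00000700c01b600000e018138411))) (.br (Nat.shiftLeft (nat_lit 0x3000001) (nat_lit 90)) (.one (nat_lit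 0xc00000300c01b8000006018138411)) (.one (nat_lit 0xc00000400c01b8000008018138411)))) (.br (Nat.shiftLeft (nat_lit 0x3000001403007) (nat_lit 66)) (.br (Nat.shiftLeft (nat_lit 0xc000005) (nat_lit 88)) (.one (nat_lit 0xc00000400c01c800000801813a411)) (.one (nat_lit 0xc00000500c01b800000a018138411))) (.br (Nat.shiftLeft (nat_lit 0x6000003) (nat_lit 89)) (.one (nat_lit 0xc00000500c01c800000a01813a411)) (.one (nat_lit 0xc00000600c01b800000c018138411)))))))
def t84 : k84.all (jb2 57 fl b0) = true := by decide +kernel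
noncomputable def s3 : KT := (.br (nat_lit 0x900c01d000001201803a430) (.br (nat_lit 0x600c01b000000c018037400) (.br (nat_lit 0x300c01c0000006018038430) (.br (nat_lit 0x200c01c0000004018038430) k59 (.br (nat_lit 0x300c01b0000006018037400) k60 k61)) (.br (nat_lit 0x400c01c0000008018039400) k62 (.br (nat_lit 0x500c01c000000a018039400) k63 k64))) (.br (nat_lit 0x700c01c000000e018038430) (.br (nat_lit 0x600c01c000000c018038430) k65 (.br (nat_lit 0x700c01b000000e018037400) k66 k67)) (.br (nat_lit 0x800c01b0000010018036430) (.br (nat_lit 0x700c01d000000e01803a430) k68 k69) (.br (nat_lit 0x800c01d000001001803a430) k70 k71)))) (.br (nat_lit 0x200600c01b000400c018036540) (.br (nat_lit 0x200000c01d000400001803a311) (.br (nat_lit 0xb00c01c0000016018038430) k72 (.br (nat_lit 0x100400c01c0002008018038540) k73 k74)) (.br (nat_lit 0x200300c01b0004006018036540) k75 (.br (nat_lit 0x200400c01c0004008018038540) k76 k77))) (.br (nat_lit 0x400000c01d000800001803a311) (.br (nat_lit 0x300400c01b0006008018036540)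 k78 (.br (nat_lit 0x300500c01b000600a018036540) k79 k80)) (.br (nat_lit 0x200000500c01c400000a018038411) (.br (nat_lit 0x400600c01b000800c018036540) k81 k82) (.br (nat_lit 0x800000400c01c000000801813a411) k83 k84)))))
noncomputable def u3 : KT := (.br (Nat.shiftLeft (nat_lit 0x3007) (nat_lit 66)) (.one (nat_lit 0xc01b0000000018036320)) (.br (Nat.shiftLeft (nat_lit 0xc01d) (nat_lit 64)) (.one (nat_lit 0xc01c0000000018038320)) (.one (nat_lit 0xc01d000000001803a320))))
def w3 : u3.all (wj 57 s3) = true := by decide +kernel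
def o3 : OkW 57 (jb2 57 fl) u3 := .lift s3 _ (.br _ _ _ (.br _ _ _ (.br _ _ _ (.br _ _ _ (.leaf b0 k59 t59) (.br _ _ _ (.leaf b0 k60 t60) (.leaf b0 k61 t61))) (.br _ _ _ (.leaf b0 k62 t62) (.br _ _ _ (.leaf b0 k63 t63) (.leaf b0 k64 t64)))) (.br _ _ _ (.br _ _ _ (.leaf b0 k65 t65) (.br _ _ _ (.leaf b0 k66 t66) (.leaf b0 k67 t67))) (.br _ _ _ (.br _ _ _ (.leaf b0 k68 t68) (.leaf b0 k69 t69)) (.br _ _ _ (.leaf b0 k70 t70) (.leaf b0 k71 t71))))) (.br _ _ _ (.br _ _ _ (.br _ _ _ (.leaf b0 k72 t72) (.br _ _ _ (.leaf b0 k73 t73) (.leaf b0 k74 t74))) (.br _ _ _ (.leaf b0 k75 t75) (.br _ _ _ (.leaf b0 k76 t76) (.leaf b0 k77 t77)))) (.br _ _ _ (.br _ _ _ (.leaf b0 k78 t78) (.br _ _ _ (.leaf b0 k79 t79) (.leaf b0 k80 t80))) (.br _ _ _ (.br _ _ _ (.leaf b0 k81 t81) (.leaf b0 k82 t82)) (.br _ _ _ (.leaf b0 k83 t83) (.leaf b0 k84 t84)))))) w3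
noncomputable def k85 : KT := (.br (Nat.shiftLeft (nat_lit 0xd017) (nat_lit 64)) (.br (Nat.shiftLeft (nat_lit 0xd) (nat_lit 76)) (.br (Nat.shiftLeft (nat_lit 0x601) (nat_lit 69)) (.br (Nat.shiftLeft (nat_lit 0xc01f) (nat_lit 64)) (.one (nat_lit 0xc01e000000001803d300)) (.one (nat_lit 0xc01f000000001803f300))) (.br (Nat.shiftLeft (nat_lit 0xc021) (nat_lit 64)) (.one (nat_lit 0xc0200000000018041300)) (.one (nat_lit 0xc0210000000018043300)))) (.br (Nat.shiftLeft (nat_lit 0xd015) (nat_lit 64)) (.br (Nat.shiftLeft (nat_lit 0x3405) (nat_lit 66)) (.one (nat_lit 0xd013000000001a027300)) (.one (nat_lit 0xd014000000001a029300))) (.br (Nat.shiftLeft (nat_lit 0x680b) (nat_lit 65)) (.one (nat_lit 0xd015000000001a02b300)) (.one (nat_lit 0xd016000000001a02d300))))) (.br (Nat.shiftLeft (nat_lit 0x100c021) (nat_lit 64)) (.br (Nat.shiftLeft (nat_lit 0x100c01f) (nat_lit 64)) (.br (Nat.shiftLeft (nat_lit 0x1) (nat_lit 88)) (.one (nat_lit 0xd017000000001a02f300)) (.one (nat_lit 0x100c01e000000201803c430)))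 (.br (Nat.shiftLeft (nat_lit 0x80601) (nat_lit 69)) (.one (nat_lit 0x100c01f000000201803e430)) (.one (nat_lit 0x100c0200000002018040430)))) (.br (Nat.shiftLeft (nat_lit 0x200c01f) (nat_lit 64)) (.br (Nat.shiftLeft (nat_lit 0x1) (nat_lit 89)) (.one (nat_lit 0x100c0210000002018042430)) (.one (nat_lit 0x200c01e000000401803c430))) (.br (Nat.shiftLeft (nat_lit 0x100601) (nat_lit 69)) (.one (nat_lit 0x200c01f000000401803e430)) (.one (nat_lit 0x200c0200000004018040430))))))
def t85 : k85.all (jb2 57 fl b0) = true := by decide +kernel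
noncomputable def k86 : KT := (.br (Nat.shiftLeft (nat_lit 0x3) (nat_lit 88)) (.one (nat_lit 0x200c0210000004018042430)) (.one (nat_lit 0x300c01e000000601803c430)))
def t86 : k86.all (jb2 57 fl b0) = true := by decide +kernel
noncomputable def k87 : KT := (.br (Nat.shiftLeft (nat_lit 0x180601) (nat_lit 69)) (.one (nat_lit 0x300c01f000000601803e430)) (.one (nat_lit 0x300c0200000006018040430)))
def t87 : k87.all (jb2 57 fl b0) = true := by decide +kernel
noncomputable def k88 : KT := (.br (Nat.shiftLeft (nat_lit 0x1) (nat_lit 90)) (.one (nat_lit 0x300c0210000006018042430)) (.one (nat_lit 0x400c01e000000801803c430)))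
def t88 : k88.all (jb2 57 fl b0) = true := by decide +kernel
noncomputable def k89 : KT := (.br (Nat.shiftLeft (nat_lit 0x200601) (nat_lit 69)) (.one (nat_lit 0x400c01f000000801803e430)) (.one (nat_lit 0x400c0200000008018040430)))
def t89 : k89.all (jb2 57 fl b0) = true := by decide +kernel
noncomputable def k90 : KT := (.br (Nat.shiftLeft (nat_lit 0x5) (nat_lit 88)) (.one (nat_lit 0x400c0210000008018042430)) (.one (nat_lit 0x500c01e000000a01803c430)))
def t90 : k90.all (jb2 57 fl b0) = true := by decide +kernel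
noncomputable def k91 : KT := (.br (Nat.shiftLeft (nat_lit 0x280601) (nat_lit 69)) (.one (nat_lit 0x500c01f000000a01803e430)) (.br (Nat.shiftLeft (nat_lit 0x500c021) (nat_lit 64)) (.one (nat_lit 0x500c020000000a018040430)) (.one (nat_lit 0x500c021000000a018042430))))
def t91 : k91.all (jb2 57 fl b0) = true := by decide +kernel
noncomputable def k92 : KT := (.br (Nat.shiftLeft (nat_lit 0x600c01f) (nat_lit 64)) (.one (nat_lit 0x600c01e000000c01803c430)) (.br (Nat.shiftLeft (nat_lit 0x300601) (nat_lit 69)) (.one (nat_lit 0x600c01f000000c01803e430)) (.one (nat_lit 0x600c020000000c018040430))))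
def t92 : k92.all (jb2 57 fl b0) = true := by decide +kernel
noncomputable def k93 : KT := (.br (Nat.shiftLeft (nat_lit 0x700c01f) (nat_lit 64)) (.br (Nat.shiftLeft (nat_lit 0x7) (nat_lit 88)) (.one (nat_lit 0x600c021000000c018042430)) (.one (nat_lit 0x700c01e000000e01803c430))) (.br (Nat.shiftLeft (nat_lit 0x380601) (nat_lit 69)) (.one (nat_lit 0x700c01f000000e01803e430)) (.br (Nat.shiftLeft (nat_lit 0x700c021) (nat_lit 64)) (.one (nat_lit 0x700c020000000e018040430)) (.one (nat_lit 0x700c021000000e018042430)))))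
def t93 : k93.all (jb2 57 fl b0) = true := by decide +kernel
noncomputable def k94 : KT := (.br (Nat.shiftLeft (nat_lit 0x1) (nat_lit 101)) (.br (Nat.shiftLeft (nat_lit 0x500601) (nat_lit 69)) (.br (Nat.shiftLeft (nat_lit 0x900c01f) (nat_lit 64)) (.br (Nat.shiftLeft (nat_lit 0x400601) (nat_lit 69)) (.br (Nat.shiftLeft (nat_lit 0x800c01f) (nat_lit 64)) (.one (nat_lit 0x800c01e000001001803c430)) (.one (nat_lit 0x800c01f000001001803e430))) (.br (Nat.shiftLeft (nat_lit 0x800c021) (nat_lit 64)) (.one (nat_lit 0x800c0200000010018040430)) (.br (Nat.shiftLeft (nat_lit 0x9) (nat_lit 88)) (.one (nat_lit 0x800c0210000010018042430)) (.one (nat_lit 0x900c01e000001201803c430))))) (.br (Nat.shiftLeft (nat_lit 0x900c021) (nat_lit 64)) (.br (Nat.shiftLeft (nat_lit 0x480601) (nat_lit 69)) (.one (nat_lit 0x900c01f000001201803e430)) (.one (nat_lit 0x900c0200000012018040430))) (.br (Nat.shiftLeft (nat_lit 0x5) (nat_lit 89)) (.one (nat_lit 0x900c0210000012018042430)) (.br (Nat.shiftLeft (nat_lit 0xa00c01f)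 (nat_lit 64)) (.one (nat_lit 0xa00c01e000001401803c430)) (.one (nat_lit 0xa00c01f000001401803e430)))))) (.br (Nat.shiftLeft (nat_lit 0xb00c021) (nat_lit 64)) (.br (Nat.shiftLeft (nat_lit 0xb) (nat_lit 88)) (.br (Nat.shiftLeft (nat_lit 0xa00c021) (nat_lit 64)) (.one (nat_lit 0xa00c0200000014018040430)) (.one (nat_lit 0xa00c0210000014018042430))) (.br (Nat.shiftLeft (nat_lit 0xb00c01f) (nat_lit 64)) (.one (nat_lit 0xb00c01e000001601803c430)) (.br (Nat.shiftLeft (nat_lit 0x580601) (nat_lit 69)) (.one (nat_lit 0xb00c01f000001601803e430)) (.one (nat_lit 0xb00c0200000016018040430))))) (.br (Nat.shiftLeft (nat_lit 0x100000c01f) (nat_lit 64)) (.br (Nat.shiftLeft (nat_lit 0x1) (nat_lit 100)) (.one (nat_lit 0xb00c0210000016018042430)) (.one (nat_lit 0x100000c01e000200001803c311))) (.br (Nat.shiftLeft (nat_lit 0x80000601) (nat_lit 69)) (.one (nat_lit 0x100000c01f000200001803e311)) (.br (Nat.shiftLeft (nat_lit 0x100000c021) (nat_lit 64)) (.one (nat_lit 0x100000c0200002000018040311)) (.one (nat_lit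 0x100000c0210002000018042311))))))) (.br (Nat.shiftLeft (nat_lit 0x200000601) (nat_lit 69)) (.br (Nat.shiftLeft (nat_lit 0x300000c01f) (nat_lit 64)) (.br (Nat.shiftLeft (nat_lit 0x100000601) (nat_lit 69)) (.br (Nat.shiftLeft (nat_lit 0x200000c01f) (nat_lit 64)) (.one (nat_lit 0x200000c01e000400001803c311)) (.one (nat_lit 0x200000c01f000400001803e311))) (.br (Nat.shiftLeft (nat_lit 0x200000c021) (nat_lit 64)) (.one (nat_lit 0x200000c0200004000018040311)) (.br (Nat.shiftLeft (nat_lit 0x3) (nat_lit 100)) (.one (nat_lit 0x200000c0210004000018042311)) (.one (nat_lit 0x300000c01e000600001803c311))))) (.br (Nat.shiftLeft (nat_lit 0x300000c021) (nat_lit 64)) (.br (Nat.shiftLeft (nat_lit 0x180000601) (nat_lit 69)) (.one (nat_lit 0x300000c01f000600001803e311)) (.one (nat_lit 0x300000c0200006000018040311))) (.br (Nat.shiftLeft (nat_lit 0x1) (nat_lit 102)) (.one (nat_lit 0x300000c0210006000018042311)) (.br (Nat.shiftLeft (nat_lit 0x400000c01f) (nat_lit 64)) (.one (nat_lit 0x400000c01e000800001803c311))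 (.one (nat_lit 0x400000c01f000800001803e311)))))) (.br (Nat.shiftLeft (nat_lit 0x500000c021) (nat_lit 64)) (.br (Nat.shiftLeft (nat_lit 0x5) (nat_lit 100)) (.br (Nat.shiftLeft (nat_lit 0x400000c021) (nat_lit 64)) (.one (nat_lit 0x400000c0200008000018040311)) (.one (nat_lit 0x400000c0210008000018042311))) (.br (Nat.shiftLeft (nat_lit 0x500000c01f) (nat_lit 64)) (.one (nat_lit 0x500000c01e000a00001803c311)) (.br (Nat.shiftLeft (nat_lit 0x280000601) (nat_lit 69)) (.one (nat_lit 0x500000c01f000a00001803e311)) (.one (nat_lit 0x500000c020000a000018040311))))) (.br (Nat.shiftLeft (nat_lit 0x600000c01f) (nat_lit 64)) (.br (Nat.shiftLeft (nat_lit 0x3) (nat_lit 101)) (.one (nat_lit 0x500000c021000a000018042311)) (.one (nat_lit 0x600000c01e000c00001803c311))) (.br (Nat.shiftLeft (nat_lit 0x300000601) (nat_lit 69)) (.one (nat_lit 0x600000c01f000c00001803e311)) (.br (Nat.shiftLeft (nat_lit 0x600000c021) (nat_lit 64)) (.one (nat_lit 0x600000c020000c000018040311)) (.one (nat_lit 0x600000c021000c000018042311))))))))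
def t94 : k94.all (jb2 57 fl b0) = true := by decide +kernel
noncomputable def k95 : KT := (.br (Nat.shiftLeft (nat_lit 0x5) (nat_lit 101)) (.br (Nat.shiftLeft (nat_lit 0x400000601) (nat_lit 69)) (.br (Nat.shiftLeft (nat_lit 0x700000c021) (nat_lit 64)) (.br (Nat.shiftLeft (nat_lit 0x700000c01f) (nat_lit 64)) (.one (nat_lit 0x700000c01e000e00001803c311)) (.br (Nat.shiftLeft (nat_lit 0x380000601) (nat_lit 69)) (.one (nat_lit 0x700000c01f000e00001803e311)) (.one (nat_lit 0x700000c020000e000018040311)))) (.br (Nat.shiftLeft (nat_lit 0x1) (nat_lit 103)) (.one (nat_lit 0x700000c021000e000018042311)) (.br (Nat.shiftLeft (nat_lit 0x800000c01f) (nat_lit 64)) (.one (nat_lit 0x800000c01e001000001803c311)) (.one (nat_lit 0x800000c01f001000001803e311))))) (.br (Nat.shiftLeft (nat_lit 0x900000c01f) (nat_lit 64)) (.br (Nat.shiftLeft (nat_lit 0x800000c021) (nat_lit 64)) (.one (nat_lit 0x800000c0200010000018040311)) (.br (Nat.shiftLeft (nat_lit 0x9) (nat_lit 100)) (.one (nat_lit 0x800000c0210010000018042311))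 (.one (nat_lit 0x900000c01e001200001803c311)))) (.br (Nat.shiftLeft (nat_lit 0x480000601) (nat_lit 69)) (.one (nat_lit 0x900000c01f001200001803e311)) (.br (Nat.shiftLeft (nat_lit 0x900000c021) (nat_lit 64)) (.one (nat_lit 0x900000c0200012000018040311)) (.one (nat_lit 0x900000c0210012000018042311)))))) (.br (Nat.shiftLeft (nat_lit 0x580000601) (nat_lit 69)) (.br (Nat.shiftLeft (nat_lit 0xa00000c021) (nat_lit 64)) (.br (Nat.shiftLeft (nat_lit 0xa00000c01f) (nat_lit 64)) (.one (nat_lit 0xa00000c01e001400001803c311)) (.br (Nat.shiftLeft (nat_lit 0x500000601) (nat_lit 69)) (.one (nat_lit 0xa00000c01f001400001803e311)) (.one (nat_lit 0xa00000c0200014000018040311)))) (.br (Nat.shiftLeft (nat_lit 0xb) (nat_lit 100)) (.one (nat_lit 0xa00000c0210014000018042311)) (.br (Nat.shiftLeft (nat_lit 0xb00000c01f) (nat_lit 64)) (.one (nat_lit 0xb00000c01e001600001803c311)) (.one (nat_lit 0xb00000c01f001600001803e311))))) (.br (Nat.shiftLeft (nat_lit 0xc00000c01f) (nat_lit 64)) (.br (Nat.shiftLeft (nat_lit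 0xb00000c021) (nat_lit 64)) (.one (nat_lit 0xb00000c0200016000018040311)) (.br (Nat.shiftLeft (nat_lit 0x3) (nat_lit 102)) (.one (nat_lit 0xb00000c0210016000018042311)) (.one (nat_lit 0xc00000c01e001800001803c311)))) (.br (Nat.shiftLeft (nat_lit 0x600000601) (nat_lit 69)) (.one (nat_lit 0xc00000c01f001800001803e311)) (.br (Nat.shiftLeft (nat_lit 0xc00000c021) (nat_lit 64)) (.one (nat_lit 0xc00000c0200018000018040311)) (.one (nat_lit 0xc00000c0210018000018042311)))))))
def t95 : k95.all (jb2 57 fl b0) = true := by decide +kernel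
noncomputable def s4 : KT := (.br (nat_lit 0x400c0200000008018040430) (.br (nat_lit 0x300c01e000000601803c430) (.br (nat_lit 0x200c0200000004018040430) k85 k86) (.br (nat_lit 0x300c0200000006018040430) k87 (.br (nat_lit 0x400c01e000000801803c430) k88 k89))) (.br (nat_lit 0x600c020000000c018040430) (.br (nat_lit 0x500c01e000000a01803c430) k90 (.br (nat_lit 0x500c021000000a018042430) k91 k92)) (.br (nat_lit 0x700c021000000e018042430) k93 (.br (nat_lit 0x600000c021000c000018042311) k94 k95))))
noncomputable def u4 : KT := (.br (Nat.shiftLeft (nat_lit 0xd) (nat_lit 76)) (.br (Nat.shiftLeft (nat_lit 0x601) (nat_lit 69)) (.br (Nat.shiftLeft (nat_lit 0xc01f) (nat_lit 64)) (.one (nat_lit 0xc01e000000001803c320)) (.one (nat_lit 0xc01f000000001803e320))) (.br (Nat.shiftLeft (nat_lit 0xc021) (nat_lit 64)) (.one (nat_lit 0xc0200000000018040320)) (.one (nat_lit 0xc0210000000018042320)))) (.br (Nat.shiftLeft (nat_lit 0xd015) (nat_lit 64)) (.br (Nat.shiftLeft (nat_lit 0x3405) (nat_lit 66)) (.one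 (nat_lit 0xd013000000001a027300)) (.one (nat_lit 0xd014000000001a029300))) (.br (Nat.shiftLeft (nat_lit 0x680b) (nat_lit 65)) (.one (nat_lit 0xd015000000001a02b300)) (.br (Nat.shiftLeft (nat_lit 0xd017) (nat_lit 64)) (.one (nat_lit 0xd016000000001a02d300)) (.one (nat_lit 0xd017000000001a02f300))))))
def w4 : u4.all (wj 57 s4) = true := by decide +kernel
def o4 : OkW 57 (jb2 57 fl) u4 := .lift s4 _ (.br _ _ _ (.br _ _ _ (.br _ _ _ (.leaf b0 k85 t85) (.leaf b0 k86 t86)) (.br _ _ _ (.leaf b0 k87 t87) (.br _ _ _ (.leaf b0 k88 t88) (.leaf b0 k89 t89)))) (.br _ _ _ (.br _ _ _ (.leaf b0 k90 t90) (.br _ _ _ (.leaf b0 k91 t91) (.leaf b0 k92 t92))) (.br _ _ _ (.leaf b0 k93 t93) (.br _ _ _ (.leaf b0 k94 t94) (.leaf b0 k95 t95))))) w4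
noncomputable def k96 : KT := (.br (Nat.shiftLeft (nat_lit 0x5) (nat_lit 88)) (.br (Nat.shiftLeft (nat_lit 0x1) (nat_lit 89)) (.br (Nat.shiftLeft (nat_lit 0x1) (nat_lit 88)) (.one (nat_lit 0xd018000000001a031300)) (.one (nat_lit 0x100d018000000201a030430))) (.br (Nat.shiftLeft (nat_lit 0x3) (nat_lit 88)) (.one (nat_lit 0x200d018000000401a030430)) (.br (Nat.shiftLeft (nat_lit 0x1) (nat_lit 90)) (.one (nat_lit 0x300d018000000601a031400)) (.one (nat_lit 0x400d018000000801a031400))))) (.br (Nat.shiftLeft (nat_lit 0x7) (nat_lit 88)) (.br (Nat.shiftLeft (nat_lit 0x3) (nat_lit 89)) (.one (nat_lit 0x500d018000000a01a031400)) (.one (nat_lit 0x600d018000000c01a031400))) (.br (Nat.shiftLeft (nat_lit 0x1) (nat_lit 91)) (.one (nat_lit 0x700d018000000e01a031400)) (.br (Nat.shiftLeft (nat_lit 0x9) (nat_lit 88)) (.one (nat_lit 0x800d018000001001a031400)) (.one (nat_lit 0x900d018000001201a031400))))))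
def t96 : k96.all (jb2 57 fl b0) = true := by decide +kernel
noncomputable def k97 : KT := (.one (nat_lit 0xa00d018000001401a030430))
def t97 : k97.all (jb2 57 fl b0) = true := by decide +kernel
noncomputable def k98 : KT := (.br (Nat.shiftLeft (nat_lit 0x3) (nat_lit 90)) (.one (nat_lit 0xb00d018000001601a030430)) (.br (Nat.shiftLeft (nat_lit 0x1) (nat_lit 100)) (.one (nat_lit 0xc00d018000001801a030430)) (.one (nat_lit 0x100000d018000200001a030311))))
def t98 : k98.all (jb2 57 fl b0) = true := by decide +kernel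
noncomputable def k99 : KT := (.br (Nat.shiftLeft (nat_lit 0x401) (nat_lit 90)) (.one (nat_lit 0x100300d018000200601a030540)) (.one (nat_lit 0x100400d018000200801a030540)))
def t99 : k99.all (jb2 57 fl b0) = true := by decide +kernel
noncomputable def k100 : KT := (.br (Nat.shiftLeft (nat_lit 0x803) (nat_lit 89)) (.one (nat_lit 0x100500d018000200a01a030540)) (.one (nat_lit 0x100600d018000200c01a030540)))
def t100 : k100.all (jb2 57 fl b0) = true := by decide +kernel
noncomputable def k101 : KT := (.br (Nat.shiftLeft (nat_lit 0x1009) (nat_lit 88)) (.br (Nat.shiftLeft (nat_lit 0x201) (nat_lit 91)) (.one (nat_lit 0x100700d018000200e01a030540)) (.one (nat_lit 0x100800d018000201001a030540))) (.br (Nat.shiftLeft (nat_lit 0x1) (nat_lit 101)) (.one (nat_lit 0x100900d018000201201a030540)) (.one (nat_lit 0x200000d018000400001a030311))))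
def t101 : k101.all (jb2 57 fl b0) = true := by decide +kernel
noncomputable def k102 : KT := (.one (nat_lit 0x200300d018000400601a030540))
def t102 : k102.all (jb2 57 fl b0) = true := by decide +kernel
noncomputable def k103 : KT := (.one (nat_lit 0x200400d018000400801a030540))
def t103 : k103.all (jb2 57 fl b0) = true := by decide +kernel
noncomputable def k104 : KT := (.one (nat_lit 0x200500d018000400a01a030540))
def t104 : k104.all (jb2 57 fl b0) = true := by decide +kernel
noncomputable def k105 : KT := (.br (Nat.shiftLeft (nat_lit 0x2007) (nat_lit 88)) (.one (nat_lit 0x200600d018000400c01a030540)) (.one (nat_lit 0x200700d018000400e01a030540)))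
def t105 : k105.all (jb2 57 fl b0) = true := by decide +kernel
noncomputable def k106 : KT := (.br (Nat.shiftLeft (nat_lit 0x3) (nat_lit 100)) (.br (Nat.shiftLeft (nat_lit 0x2009) (nat_lit 88)) (.one (nat_lit 0x200800d018000401001a030540)) (.one (nat_lit 0x200900d018000401201a030540))) (.br (Nat.shiftLeft (nat_lit 0xc01) (nat_lit 90)) (.one (nat_lit 0x300000d018000600001a030311)) (.one (nat_lit 0x300400d018000600801a031500))))
def t106 : k106.all (jb2 57 fl b0) = true := by decide +kernel
noncomputable def k107 : KT := (.one (nat_lit 0x300500d018000600a01a030540))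
def t107 : k107.all (jb2 57 fl b0) = true := by decide +kernel
noncomputable def k108 : KT := (.br (Nat.shiftLeft (nat_lit 0x3007) (nat_lit 88)) (.one (nat_lit 0x300600d018000600c01a030540)) (.one (nat_lit 0x300700d018000600e01a030540)))
def t108 : k108.all (jb2 57 fl b0) = true := by decide +kernel
noncomputable def k109 : KT := (.br (Nat.shiftLeft (nat_lit 0x3009) (nat_lit 88)) (.one (nat_lit 0x300800d018000601001a030540)) (.br (Nat.shiftLeft (nat_lit 0x1) (nat_lit 102)) (.one (nat_lit 0x300900d018000601201a030540)) (.one (nat_lit 0x400000d018000800001a030311))))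
def t109 : k109.all (jb2 57 fl b0) = true := by decide +kernel
noncomputable def k110 : KT := (.one (nat_lit 0x400500d018000800a01a030540))
def t110 : k110.all (jb2 57 fl b0) = true := by decide +kernel
noncomputable def k111 : KT := (.br (Nat.shiftLeft (nat_lit 0x4007) (nat_lit 88)) (.one (nat_lit 0x400600d018000800c01a030540)) (.one (nat_lit 0x400700d018000800e01a030540)))
def t111 : k111.all (jb2 57 fl b0) = true := by decide +kernel
noncomputable def k112 : KT := (.br (Nat.shiftLeft (nat_lit 0x5) (nat_lit 100)) (.br (Nat.shiftLeft (nat_lit 0x4009) (nat_lit 88)) (.one (nat_lit 0x400800d018000801001a030540)) (.one (nat_lit 0x400900d018000801201a030540))) (.br (Nat.shiftLeft (nat_lit 0x1401) (nat_lit 90)) (.one (nat_lit 0x500000d018000a00001a030311)) (.one (nat_lit 0x500600d018000a00c01a030540))))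
def t112 : k112.all (jb2 57 fl b0) = true := by decide +kernel
noncomputable def k113 : KT := (.br (Nat.shiftLeft (nat_lit 0x1801) (nat_lit 90)) (.br (Nat.shiftLeft (nat_lit 0x5009) (nat_lit 88)) (.br (Nat.shiftLeft (nat_lit 0xa01) (nat_lit 91)) (.one (nat_lit 0x500700d018000a00e01a030540)) (.one (nat_lit 0x500800d018000a01001a030540))) (.br (Nat.shiftLeft (nat_lit 0x3) (nat_lit 101)) (.one (nat_lit 0x500900d018000a01201a030540)) (.one (nat_lit 0x600000d018000c00001a030311)))) (.br (Nat.shiftLeft (nat_lit 0x6009) (nat_lit 88)) (.br (Nat.shiftLeft (nat_lit 0xc01) (nat_lit 91)) (.one (nat_lit 0x600700d018000c00e01a030540)) (.one (nat_lit 0x600800d018000c01001a030540))) (.br (Nat.shiftLeft (nat_lit 0x7) (nat_lit 100)) (.one (nat_lit 0x600900d018000c01201a030540)) (.one (nat_lit 0x700000d018000e00001a030311)))))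
def t113 : k113.all (jb2 57 fl b0) = true := by decide +kernel
noncomputable def k114 : KT := (.br (Nat.shiftLeft (nat_lit 0x1) (nat_lit 113)) (.br (Nat.shiftLeft (nat_lit 0xd) (nat_lit 100)) (.br (Nat.shiftLeft (nat_lit 0x9) (nat_lit 100)) (.br (Nat.shiftLeft (nat_lit 0x1) (nat_lit 103)) (.br (Nat.shiftLeft (nat_lit 0x7009) (nat_lit 88)) (.one (nat_lit 0x700800d018000e01001a030540)) (.one (nat_lit 0x700900d018000e01201a030540))) (.br (Nat.shiftLeft (nat_lit 0x1001) (nat_lit 91)) (.one (nat_lit 0x800000d018001000001a030311)) (.one (nat_lit 0x800900d018001001201a030540)))) (.br (Nat.shiftLeft (nat_lit 0xb) (nat_lit 100)) (.br (Nat.shiftLeft (nat_lit 0x5) (nat_lit 101)) (.one (nat_lit 0x900000d018001200001a030311)) (.one (nat_lit 0xa00000d018001400001a030311))) (.br (Nat.shiftLeft (nat_lit 0x3) (nat_lit 102)) (.one (nat_lit 0xb00000d018001600001a030311)) (.one (nat_lit 0xc00000d018001800001a030311))))) (.br (Nat.shiftLeft (nat_lit 0x800003) (nat_lit 89)) (.br (Nat.shiftLeft (nat_lit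 0x400001) (nat_lit 90)) (.br (Nat.shiftLeft (nat_lit 0x1) (nat_lit 112)) (.one (nat_lit 0xd00000d018001a00001a030311)) (.one (nat_lit 0x100000300d018200000601a030411))) (.br (Nat.shiftLeft (nat_lit 0x1000005) (nat_lit 88)) (.one (nat_lit 0x100000400d018200000801a030411)) (.one (nat_lit 0x100000500d018200000a01a030411)))) (.br (Nat.shiftLeft (nat_lit 0x200001) (nat_lit 91)) (.br (Nat.shiftLeft (nat_lit 0x1000007) (nat_lit 88)) (.one (nat_lit 0x100000600d018200000c01a030411)) (.one (nat_lit 0x100000700d018200000e01a030411))) (.br (Nat.shiftLeft (nat_lit 0x1000009) (nat_lit 88)) (.one (nat_lit 0x100000800d018200001001a030411)) (.br (Nat.shiftLeft (nat_lit 0x801) (nat_lit 101)) (.one (nat_lit 0x100000900d018200001201a030411)) (.one (nat_lit 0x100300400d018200600801a030650))))))) (.br (Nat.shiftLeft (nat_lit 0x3) (nat_lit 112)) (.br (Nat.shiftLeft (nat_lit 0x2000007) (nat_lit 88)) (.br (Nat.shiftLeft (nat_lit 0x2000005) (nat_lit 88)) (.br (Nat.shiftLeft (nat_lit 0x800001) (nat_lit 90))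 (.one (nat_lit 0x200000300d018400000601a030411)) (.one (nat_lit 0x200000400d018400000801a030411))) (.br (Nat.shiftLeft (nat_lit 0x1000003) (nat_lit 89)) (.one (nat_lit 0x200000500d018400000a01a030411)) (.one (nat_lit 0x200000600d018400000c01a030411)))) (.br (Nat.shiftLeft (nat_lit 0x2000009) (nat_lit 88)) (.br (Nat.shiftLeft (nat_lit 0x400001) (nat_lit 91)) (.one (nat_lit 0x200000700d018400000e01a030411)) (.one (nat_lit 0x200000800d018400001001a030411))) (.br (Nat.shiftLeft (nat_lit 0x1001) (nat_lit 101)) (.one (nat_lit 0x200000900d018400001201a030411)) (.one (nat_lit 0x200300400d018400600801a030650))))) (.br (Nat.shiftLeft (nat_lit 0x3000007) (nat_lit 88)) (.br (Nat.shiftLeft (nat_lit 0x3000005) (nat_lit 88)) (.br (Nat.shiftLeft (nat_lit 0xc00001) (nat_lit 90)) (.one (nat_lit 0x300000300d018600000601a030411)) (.one (nat_lit 0x300000400d018600000801a030411))) (.br (Nat.shiftLeft (nat_lit 0x1800003) (nat_lit 89)) (.one (nat_lit 0x300000500d018600000a01a030411)) (.one (nat_lit 0x300000600d018600000c01a030411))))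 (.br (Nat.shiftLeft (nat_lit 0x3000009) (nat_lit 88)) (.br (Nat.shiftLeft (nat_lit 0x600001) (nat_lit 91)) (.one (nat_lit 0x300000700d018600000e01a030411)) (.one (nat_lit 0x300000800d018600001001a030411))) (.br (Nat.shiftLeft (nat_lit 0x1) (nat_lit 114)) (.one (nat_lit 0x300000900d018600001201a030411)) (.br (Nat.shiftLeft (nat_lit 0x1000001) (nat_lit 90)) (.one (nat_lit 0x400000300d018800000601a030411)) (.one (nat_lit 0x400000400d018800000801a030411))))))))
def t114 : k114.all (jb2 57 fl b0) = true := by decide +kernel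
noncomputable def k115 : KT := (.br (Nat.shiftLeft (nat_lit 0x1c00001) (nat_lit 90)) (.br (Nat.shiftLeft (nat_lit 0xa00001) (nat_lit 91)) (.br (Nat.shiftLeft (nat_lit 0x5) (nat_lit 112)) (.br (Nat.shiftLeft (nat_lit 0x4000007) (nat_lit 88)) (.br (Nat.shiftLeft (nat_lit 0x2000003) (nat_lit 89)) (.one (nat_lit 0x400000500d018800000a01a030411)) (.one (nat_lit 0x400000600d018800000c01a030411))) (.br (Nat.shiftLeft (nat_lit 0x800001) (nat_lit 91)) (.one (nat_lit 0x400000700d018800000e01a030411)) (.br (Nat.shiftLeft (nat_lit 0x4000009) (nat_lit 88)) (.one (nat_lit 0x400000800d018800001001a030411)) (.one (nat_lit 0x400000900d018800001201a030411))))) (.br (Nat.shiftLeft (nat_lit 0x5000005) (nat_lit 88)) (.br (Nat.shiftLeft (nat_lit 0x1400001) (nat_lit 90)) (.one (nat_lit 0x500000300d018a00000601a030411)) (.one (nat_lit 0x500000400d018a00000801a030411))) (.br (Nat.shiftLeft (nat_lit 0x2800003) (nat_lit 89)) (.one (nat_lit 0x500000500d018a00000a01a030411)) (.br (Nat.shiftLeft (nat_lit 0x5000007)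 (nat_lit 88)) (.one (nat_lit 0x500000600d018a00000c01a030411)) (.one (nat_lit 0x500000700d018a00000e01a030411)))))) (.br (Nat.shiftLeft (nat_lit 0x3000003) (nat_lit 89)) (.br (Nat.shiftLeft (nat_lit 0x3) (nat_lit 113)) (.br (Nat.shiftLeft (nat_lit 0x5000009) (nat_lit 88)) (.one (nat_lit 0x500000800d018a00001001a030411)) (.one (nat_lit 0x500000900d018a00001201a030411))) (.br (Nat.shiftLeft (nat_lit 0x1800001) (nat_lit 90)) (.one (nat_lit 0x600000300d018c00000601a030411)) (.br (Nat.shiftLeft (nat_lit 0x6000005) (nat_lit 88)) (.one (nat_lit 0x600000400d018c00000801a030411)) (.one (nat_lit 0x600000500d018c00000a01a030411))))) (.br (Nat.shiftLeft (nat_lit 0xc00001) (nat_lit 91)) (.br (Nat.shiftLeft (nat_lit 0x6000007) (nat_lit 88)) (.one (nat_lit 0x600000600d018c00000c01a030411)) (.one (nat_lit 0x600000700d018c00000e01a030411))) (.br (Nat.shiftLeft (nat_lit 0x6000009) (nat_lit 88)) (.one (nat_lit 0x600000800d018c00001001a030411)) (.br (Nat.shiftLeft (nat_lit 0x7) (nat_lit 112)) (.one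 (nat_lit 0x600000900d018c00001201a030411)) (.one (nat_lit 0x700000300d018e00000601a030411))))))) (.br (Nat.shiftLeft (nat_lit 0x8000007) (nat_lit 88)) (.br (Nat.shiftLeft (nat_lit 0x7000009) (nat_lit 88)) (.br (Nat.shiftLeft (nat_lit 0x3800003) (nat_lit 89)) (.br (Nat.shiftLeft (nat_lit 0x7000005) (nat_lit 88)) (.one (nat_lit 0x700000400d018e00000801a030411)) (.one (nat_lit 0x700000500d018e00000a01a030411))) (.br (Nat.shiftLeft (nat_lit 0x7000007) (nat_lit 88)) (.one (nat_lit 0x700000600d018e00000c01a030411)) (.br (Nat.shiftLeft (nat_lit 0xe00001) (nat_lit 91)) (.one (nat_lit 0x700000700d018e00000e01a030411)) (.one (nat_lit 0x700000800d018e00001001a030411))))) (.br (Nat.shiftLeft (nat_lit 0x2000001) (nat_lit 90)) (.br (Nat.shiftLeft (nat_lit 0x1) (nat_lit 115)) (.one (nat_lit 0x700000900d018e00001201a030411)) (.one (nat_lit 0x800000300d018000000601a132411))) (.br (Nat.shiftLeft (nat_lit 0x8000005) (nat_lit 88)) (.one (nat_lit 0x800000400d018000000801a132411)) (.br (Nat.shiftLeft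 (nat_lit 0x4000003) (nat_lit 89)) (.one (nat_lit 0x800000500d018000000a01a132411)) (.one (nat_lit 0x800000600d018000000c01a132411)))))) (.br (Nat.shiftLeft (nat_lit 0x9000005) (nat_lit 88)) (.br (Nat.shiftLeft (nat_lit 0x8000009) (nat_lit 88)) (.br (Nat.shiftLeft (nat_lit 0x1000001) (nat_lit 91)) (.one (nat_lit 0x800000700d018000000e01a132411)) (.one (nat_lit 0x800000800d018000001001a132411))) (.br (Nat.shiftLeft (nat_lit 0x9) (nat_lit 112)) (.one (nat_lit 0x800000900d018000001201a132411)) (.br (Nat.shiftLeft (nat_lit 0x2400001) (nat_lit 90)) (.one (nat_lit 0x900000300d018200000601a132411)) (.one (nat_lit 0x900000400d018200000801a132411))))) (.br (Nat.shiftLeft (nat_lit 0x9000007) (nat_lit 88)) (.br (Nat.shiftLeft (nat_lit 0x4800003) (nat_lit 89)) (.one (nat_lit 0x900000500d018200000a01a132411)) (.one (nat_lit 0x900000600d018200000c01a132411))) (.br (Nat.shiftLeft (nat_lit 0x1200001) (nat_lit 91)) (.one (nat_lit 0x900000700d018200000e01a132411)) (.br (Nat.shiftLeft (nat_lit 0x9000009)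 (nat_lit 88)) (.one (nat_lit 0x900000800d018200001001a132411)) (.one (nat_lit 0x900000900d018200001201a132411))))))))
def t115 : k115.all (jb2 57 fl b0) = true := by decide +kernel
noncomputable def k116 : KT := (.br (Nat.shiftLeft (nat_lit 0x1800001) (nat_lit 91)) (.br (Nat.shiftLeft (nat_lit 0xb000005) (nat_lit 88)) (.br (Nat.shiftLeft (nat_lit 0xa000007) (nat_lit 88)) (.br (Nat.shiftLeft (nat_lit 0xa000005) (nat_lit 88)) (.br (Nat.shiftLeft (nat_lit 0x2800001) (nat_lit 90)) (.one (nat_lit 0xa00000300d018400000601a132411)) (.one (nat_lit 0xa00000400d018400000801a132411))) (.br (Nat.shiftLeft (nat_lit 0x5000003) (nat_lit 89)) (.one (nat_lit 0xa00000500d018400000a01a132411)) (.one (nat_lit 0xa00000600d018400000c01a132411)))) (.br (Nat.shiftLeft (nat_lit 0xa000009) (nat_lit 88)) (.br (Nat.shiftLeft (nat_lit 0x1400001) (nat_lit 91)) (.one (nat_lit 0xa00000700d018400000e01a132411)) (.one (nat_lit 0xa00000800d018400001001a132411))) (.br (Nat.shiftLeft (nat_lit 0xb) (nat_lit 112)) (.one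 (nat_lit 0xa00000900d018400001201a132411)) (.br (Nat.shiftLeft (nat_lit 0x2c00001) (nat_lit 90)) (.one (nat_lit 0xb00000300d018600000601a132411)) (.one (nat_lit 0xb00000400d018600000801a132411)))))) (.br (Nat.shiftLeft (nat_lit 0x3) (nat_lit 114)) (.br (Nat.shiftLeft (nat_lit 0xb000007) (nat_lit 88)) (.br (Nat.shiftLeft (nat_lit 0x5800003) (nat_lit 89)) (.one (nat_lit 0xb00000500d018600000a01a132411)) (.one (nat_lit 0xb00000600d018600000c01a132411))) (.br (Nat.shiftLeft (nat_lit 0x1600001) (nat_lit 91)) (.one (nat_lit 0xb00000700d018600000e01a132411)) (.br (Nat.shiftLeft (nat_lit 0xb000009) (nat_lit 88)) (.one (nat_lit 0xb00000800d018600001001a132411)) (.one (nat_lit 0xb00000900d018600001201a132411))))) (.br (Nat.shiftLeft (nat_lit 0xc000005) (nat_lit 88)) (.br (Nat.shiftLeft (nat_lit 0x3000001) (nat_lit 90)) (.one (nat_lit 0xc00000300d018800000601a132411)) (.one (nat_lit 0xc00000400d018800000801a132411))) (.br (Nat.shiftLeft (nat_lit 0x6000003) (nat_lit 89)) (.one (nat_lit 0xc00000500d018800000a01a132411))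 (.br (Nat.shiftLeft (nat_lit 0xc000007) (nat_lit 88)) (.one (nat_lit 0xc00000600d018800000c01a132411)) (.one (nat_lit 0xc00000700d018800000e01a132411))))))) (.br (Nat.shiftLeft (nat_lit 0x1) (nat_lit 126)) (.br (Nat.shiftLeft (nat_lit 0x6800003) (nat_lit 89)) (.br (Nat.shiftLeft (nat_lit 0x3400001) (nat_lit 90)) (.br (Nat.shiftLeft (nat_lit 0xd) (nat_lit 112)) (.one (nat_lit 0xc00000800d018800001001a132411)) (.one (nat_lit 0xd00000300d018a00000601a132411))) (.br (Nat.shiftLeft (nat_lit 0xd000005) (nat_lit 88)) (.one (nat_lit 0xd00000400d018a00000801a132411)) (.one (nat_lit 0xd00000500d018a00000a01a132411)))) (.br (Nat.shiftLeft (nat_lit 0x1) (nat_lit 124)) (.br (Nat.shiftLeft (nat_lit 0xd000007) (nat_lit 88)) (.one (nat_lit 0xd00000600d018a00000c01a132411)) (.one (nat_lit 0xd00000700d018a00000e01a132411))) (.br (Nat.shiftLeft (nat_lit 0x1) (nat_lit 125)) (.one (nat_lit 0x100000300400d018000600803a430511)) (.br (Nat.shiftLeft (nat_lit 0x3) (nat_lit 124)) (.one (nat_lit 0x200000300400d018000600805a830511))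 (.one (nat_lit 0x300000300400d018000600807ac30511)))))) (.br (Nat.shiftLeft (nat_lit 0x9) (nat_lit 124)) (.br (Nat.shiftLeft (nat_lit 0x3) (nat_lit 125)) (.br (Nat.shiftLeft (nat_lit 0x5) (nat_lit 124)) (.one (nat_lit 0x400000300400d018000600809b030511)) (.one (nat_lit 0x500000300400d01800060080bb430511))) (.br (Nat.shiftLeft (nat_lit 0x7) (nat_lit 124)) (.one (nat_lit 0x600000300400d01800060080db830511)) (.br (Nat.shiftLeft (nat_lit 0x1) (nat_lit 127)) (.one (nat_lit 0x700000300400d01800060080fbc30511)) (.one (nat_lit 0x800000300400d018000600811c030511))))) (.br (Nat.shiftLeft (nat_lit 0xb) (nat_lit 124)) (.br (Nat.shiftLeft (nat_lit 0x5) (nat_lit 125)) (.one (nat_lit 0x900000300400d018000600813c430511)) (.one (nat_lit 0xa00000300400d018000600815c830511))) (.br (Nat.shiftLeft (nat_lit 0x3) (nat_lit 126)) (.one (nat_lit 0xb00000300400d018000600817cc30511)) (.br (Nat.shiftLeft (nat_lit 0xd) (nat_lit 124)) (.one (nat_lit 0xc00000300400d018000600819d030511)) (.one (nat_lit 0xd00000300400d01800060081bd430511))))))))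
def t116 : k116.all (jb2 57 fl b0) = true := by decide +kernel
noncomputable def s5 : KT := (.br (nat_lit 0x200700d018000400e01a030540) (.br (nat_lit 0x100600d018000200c01a030540) (.br (nat_lit 0xa00d018000001401a030430) (.br (nat_lit 0x900d018000001201a031400) k96 k97) (.br (nat_lit 0x100000d018000200001a030311) k98 (.br (nat_lit 0x100400d018000200801a030540) k99 k100))) (.br (nat_lit 0x200300d018000400601a030540) (.br (nat_lit 0x200000d018000400001a030311) k101 k102) (.br (nat_lit 0x200400d018000400801a030540) k103 (.br (nat_lit 0x200500d018000400a01a030540) k104 k105)))) (.br (nat_lit 0x400500d018000800a01a030540) (.br (nat_lit 0x300500d018000600a01a030540) (.br (nat_lit 0x300400d018000600801a031500) k106 k107) (.br (nat_lit 0x300700d018000600e01a030540) k108 (.br (nat_lit 0x400000d018000800001a030311) k109 k110))) (.br (nat_lit 0x700000d018000e00001a030311) (.br (nat_lit 0x400700d018000800e01a030540) k111 (.br (nat_lit 0x500600d018000a00c01a030540) k112 k113)) (.br (nat_lit 0x400000400d018800000801a030411)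 k114 (.br (nat_lit 0x900000900d018200001201a132411) k115 k116)))))
noncomputable def u5 : KT := (.one (nat_lit 0xd018000000001a030320))
def w5 : u5.all (wj 57 s5) = true := by decide +kernel
def o5 : OkW 57 (jb2 57 fl) u5 := .lift s5 _ (.br _ _ _ (.br _ _ _ (.br _ _ _ (.br _ _ _ (.leaf b0 k96 t96) (.leaf b0 k97 t97)) (.br _ _ _ (.leaf b0 k98 t98) (.br _ _ _ (.leaf b0 k99 t99) (.leaf b0 k100 t100)))) (.br _ _ _ (.br _ _ _ (.leaf b0 k101 t101) (.leaf b0 k102 t102)) (.br _ _ _ (.leaf b0 k103 t103) (.br _ _ _ (.leaf b0 k104 t104) (.leaf b0 k105 t105))))) (.br _ _ _ (.br _ _ _ (.br _ _ _ (.leaf b0 k106 t106) (.leaf b0 k107 t107)) (.br _ _ _ (.leaf b0 k108 t108) (.br _ _ _ (.leaf b0 k109 t109) (.leaf b0 k110 t110)))) (.br _ _ _ (.br _ _ _ (.leaf b0 k111 t111) (.br _ _ _ (.leaf b0 k112 t112) (.leaf b0 k113 t113))) (.br _ _ _ (.leaf b0 k114 t114) (.br _ _ _ (.leaf b0 k115 t115) (.leaf b0 k116 t116)))))) w5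
noncomputable def k117 : KT := (.br (Nat.shiftLeft (nat_lit 0x1) (nat_lit 90)) (.br (Nat.shiftLeft (nat_lit 0x1) (nat_lit 89)) (.br (Nat.shiftLeft (nat_lit 0x1) (nat_lit 88)) (.one (nat_lit 0xd019000000001a033300)) (.one (nat_lit 0x100d019000000201a032430))) (.br (Nat.shiftLeft (nat_lit 0x3) (nat_lit 88)) (.one (nat_lit 0x200d019000000401a032430)) (.one (nat_lit 0x300d019000000601a033400)))) (.br (Nat.shiftLeft (nat_lit 0x3) (nat_lit 89)) (.br (Nat.shiftLeft (nat_lit 0x5) (nat_lit 88)) (.one (nat_lit 0x400d019000000801a033400)) (.one (nat_lit 0x500d019000000a01a033400))) (.br (Nat.shiftLeft (nat_lit 0x7) (nat_lit 88)) (.one (nat_lit 0x600d019000000c01a033400)) (.br (Nat.shiftLeft (nat_lit 0x1) (nat_lit 91)) (.one (nat_lit 0x700d019000000e01a033400)) (.one (nat_lit 0x800d019000001001a033400))))))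
def t117 : k117.all (jb2 57 fl b0) = true := by decide +kernel
noncomputable def k118 : KT := (.one (nat_lit 0x900d019000001201a032430))
def t118 : k118.all (jb2 57 fl b0) = true := by decide +kernel
noncomputable def k119 : KT := (.br (Nat.shiftLeft (nat_lit 0x3) (nat_lit 90)) (.br (Nat.shiftLeft (nat_lit 0xb) (nat_lit 88)) (.one (nat_lit 0xa00d019000001401a032430)) (.one (nat_lit 0xb00d019000001601a032430))) (.br (Nat.shiftLeft (nat_lit 0x1) (nat_lit 100)) (.one (nat_lit 0xc00d019000001801a032430)) (.one (nat_lit 0x100000d019000200001a032311))))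
def t119 : k119.all (jb2 57 fl b0) = true := by decide +kernel
noncomputable def k120 : KT := (.br (Nat.shiftLeft (nat_lit 0x401) (nat_lit 90)) (.one (nat_lit 0x100300d019000200601a032540)) (.one (nat_lit 0x100400d019000200801a032540)))
def t120 : k120.all (jb2 57 fl b0) = true := by decide +kernel
noncomputable def k121 : KT := (.br (Nat.shiftLeft (nat_lit 0x1007) (nat_lit 88)) (.br (Nat.shiftLeft (nat_lit 0x803) (nat_lit 89)) (.one (nat_lit 0x100500d019000200a01a032540)) (.one (nat_lit 0x100600d019000200c01a032540))) (.br (Nat.shiftLeft (nat_lit 0x201) (nat_lit 91)) (.one (nat_lit 0x100700d019000200e01a032540)) (.br (Nat.shiftLeft (nat_lit 0x1) (nat_lit 101)) (.one (nat_lit 0x100800d019000201001a032540)) (.one (nat_lit 0x200000d019000400001a032311)))))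
def t121 : k121.all (jb2 57 fl b0) = true := by decide +kernel
noncomputable def k122 : KT := (.one (nat_lit 0x200300d019000400601a032540))
def t122 : k122.all (jb2 57 fl b0) = true := by decide +kernel
noncomputable def k123 : KT := (.one (nat_lit 0x200400d019000400801a032540))
def t123 : k123.all (jb2 57 fl b0) = true := by decide +kernel
noncomputable def k124 : KT := (.br (Nat.shiftLeft (nat_lit 0x1003) (nat_lit 89)) (.one (nat_lit 0x200500d019000400a01a032540)) (.one (nat_lit 0x200600d019000400c01a032540)))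
def t124 : k124.all (jb2 57 fl b0) = true := by decide +kernel
noncomputable def k125 : KT := (.br (Nat.shiftLeft (nat_lit 0x401) (nat_lit 91)) (.one (nat_lit 0x200700d019000400e01a032540)) (.br (Nat.shiftLeft (nat_lit 0x3) (nat_lit 100)) (.one (nat_lit 0x200800d019000401001a032540)) (.one (nat_lit 0x300000d019000600001a032311))))
def t125 : k125.all (jb2 57 fl b0) = true := by decide +kernel
noncomputable def k126 : KT := (.one (nat_lit 0x300400d019000600801a032540))
def t126 : k126.all (jb2 57 fl b0) = true := by decide +kernel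
noncomputable def k127 : KT := (.br (Nat.shiftLeft (nat_lit 0x1803) (nat_lit 89)) (.one (nat_lit 0x300500d019000600a01a032540)) (.one (nat_lit 0x300600d019000600c01a032540)))
def t127 : k127.all (jb2 57 fl b0) = true := by decide +kernel
noncomputable def k128 : KT := (.br (Nat.shiftLeft (nat_lit 0x1) (nat_lit 102)) (.br (Nat.shiftLeft (nat_lit 0x601) (nat_lit 91)) (.one (nat_lit 0x300700d019000600e01a032540)) (.one (nat_lit 0x300800d019000601001a032540))) (.br (Nat.shiftLeft (nat_lit 0x1001) (nat_lit 90)) (.one (nat_lit 0x400000d019000800001a032311)) (.one (nat_lit 0x400500d019000800a01a032540))))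
def t128 : k128.all (jb2 57 fl b0) = true := by decide +kernel
noncomputable def k129 : KT := (.br (Nat.shiftLeft (nat_lit 0x801) (nat_lit 91)) (.br (Nat.shiftLeft (nat_lit 0x4007) (nat_lit 88)) (.one (nat_lit 0x400600d019000800c01a032540)) (.one (nat_lit 0x400700d019000800e01a032540))) (.br (Nat.shiftLeft (nat_lit 0x5) (nat_lit 100)) (.one (nat_lit 0x400800d019000801001a032540)) (.one (nat_lit 0x500000d019000a00001a032311))))
def t129 : k129.all (jb2 57 fl b0) = true := by decide +kernel
noncomputable def k130 : KT := (.br (Nat.shiftLeft (nat_lit 0x800003) (nat_lit 89)) (.br (Nat.shiftLeft (nat_lit 0x1) (nat_lit 103)) (.br (Nat.shiftLeft (nat_lit 0x1801) (nat_lit 90)) (.br (Nat.shiftLeft (nat_lit 0xa01) (nat_lit 91)) (.br (Nat.shiftLeft (nat_lit 0x5007) (nat_lit 88)) (.one (nat_lit 0x500600d019000a00c01a032540)) (.one (nat_lit 0x500700d019000a00e01a032540))) (.br (Nat.shiftLeft (nat_lit 0x3) (nat_lit 101)) (.one (nat_lit 0x500800d019000a01001a032540)) (.one (nat_lit 0x600000d019000c00001a032311))))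 (.br (Nat.shiftLeft (nat_lit 0x7) (nat_lit 100)) (.br (Nat.shiftLeft (nat_lit 0xc01) (nat_lit 91)) (.one (nat_lit 0x600700d019000c00e01a032540)) (.one (nat_lit 0x600800d019000c01001a032540))) (.br (Nat.shiftLeft (nat_lit 0xe01) (nat_lit 91)) (.one (nat_lit 0x700000d019000e00001a032311)) (.one (nat_lit 0x700800d019000e01001a032540))))) (.br (Nat.shiftLeft (nat_lit 0x3) (nat_lit 102)) (.br (Nat.shiftLeft (nat_lit 0x5) (nat_lit 101)) (.br (Nat.shiftLeft (nat_lit 0x9) (nat_lit 100)) (.one (nat_lit 0x800000d019001000001a032311)) (.one (nat_lit 0x900000d019001200001a032311))) (.br (Nat.shiftLeft (nat_lit 0xb) (nat_lit 100)) (.one (nat_lit 0xa00000d019001400001a032311)) (.one (nat_lit 0xb00000d019001600001a032311)))) (.br (Nat.shiftLeft (nat_lit 0x1) (nat_lit 112)) (.br (Nat.shiftLeft (nat_lit 0xd) (nat_lit 100)) (.one (nat_lit 0xc00000d019001800001a032311)) (.one (nat_lit 0xd00000d019001a00001a032311))) (.br (Nat.shiftLeft (nat_lit 0x400001) (nat_lit 90)) (.one (nat_lit 0x100000300d019200000601a032411))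 (.br (Nat.shiftLeft (nat_lit 0x1000005) (nat_lit 88)) (.one (nat_lit 0x100000400d019200000801a032411)) (.one (nat_lit 0x100000500d019200000a01a032411))))))) (.br (Nat.shiftLeft (nat_lit 0x400001) (nat_lit 91)) (.br (Nat.shiftLeft (nat_lit 0x800001) (nat_lit 90)) (.br (Nat.shiftLeft (nat_lit 0x200001) (nat_lit 91)) (.br (Nat.shiftLeft (nat_lit 0x1000007) (nat_lit 88)) (.one (nat_lit 0x100000600d019200000c01a032411)) (.one (nat_lit 0x100000700d019200000e01a032411))) (.br (Nat.shiftLeft (nat_lit 0x1) (nat_lit 113)) (.one (nat_lit 0x100000800d019200001001a032411)) (.one (nat_lit 0x200000300d019400000601a032411)))) (.br (Nat.shiftLeft (nat_lit 0x1000003) (nat_lit 89)) (.br (Nat.shiftLeft (nat_lit 0x2000005) (nat_lit 88)) (.one (nat_lit 0x200000400d019400000801a032411)) (.one (nat_lit 0x200000500d019400000a01a032411))) (.br (Nat.shiftLeft (nat_lit 0x2000007) (nat_lit 88)) (.one (nat_lit 0x200000600d019400000c01a032411)) (.one (nat_lit 0x200000700d019400000e01a032411))))) (.br (Nat.shiftLeft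 (nat_lit 0x1800003) (nat_lit 89)) (.br (Nat.shiftLeft (nat_lit 0xc00001) (nat_lit 90)) (.br (Nat.shiftLeft (nat_lit 0x3) (nat_lit 112)) (.one (nat_lit 0x200000800d019400001001a032411)) (.one (nat_lit 0x300000300d019600000601a032411))) (.br (Nat.shiftLeft (nat_lit 0x3000005) (nat_lit 88)) (.one (nat_lit 0x300000400d019600000801a032411)) (.one (nat_lit 0x300000500d019600000a01a032411)))) (.br (Nat.shiftLeft (nat_lit 0x600001) (nat_lit 91)) (.br (Nat.shiftLeft (nat_lit 0x3000007) (nat_lit 88)) (.one (nat_lit 0x300000600d019600000c01a032411)) (.one (nat_lit 0x300000700d019600000e01a032411))) (.br (Nat.shiftLeft (nat_lit 0x1) (nat_lit 114)) (.one (nat_lit 0x300000800d019600001001a032411)) (.br (Nat.shiftLeft (nat_lit 0x1000001) (nat_lit 90)) (.one (nat_lit 0x400000300d019800000601a032411)) (.one (nat_lit 0x400000400d019800000801a032411))))))))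
def t130 : k130.all (jb2 57 fl b0) = true := by decide +kernel
noncomputable def k131 : KT := (.br (Nat.shiftLeft (nat_lit 0x7000007) (nat_lit 88)) (.br (Nat.shiftLeft (nat_lit 0x3) (nat_lit 113)) (.br (Nat.shiftLeft (nat_lit 0x1400001) (nat_lit 90)) (.br (Nat.shiftLeft (nat_lit 0x4000007) (nat_lit 88)) (.br (Nat.shiftLeft (nat_lit 0x2000003) (nat_lit 89)) (.one (nat_lit 0x400000500d019800000a01a032411)) (.one (nat_lit 0x400000600d019800000c01a032411))) (.br (Nat.shiftLeft (nat_lit 0x800001) (nat_lit 91)) (.one (nat_lit 0x400000700d019800000e01a032411)) (.br (Nat.shiftLeft (nat_lit 0x5) (nat_lit 112)) (.one (nat_lit 0x400000800d019800001001a032411)) (.one (nat_lit 0x500000300d019a00000601a032411))))) (.br (Nat.shiftLeft (nat_lit 0x2800003) (nat_lit 89)) (.br (Nat.shiftLeft (nat_lit 0x5000005) (nat_lit 88)) (.one (nat_lit 0x500000400d019a00000801a032411)) (.one (nat_lit 0x500000500d019a00000a01a032411))) (.br (Nat.shiftLeft (nat_lit 0x5000007) (nat_lit 88)) (.one (nat_lit 0x500000600d019a00000c01a032411))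 (.br (Nat.shiftLeft (nat_lit 0xa00001) (nat_lit 91)) (.one (nat_lit 0x500000700d019a00000e01a032411)) (.one (nat_lit 0x500000800d019a00001001a032411)))))) (.br (Nat.shiftLeft (nat_lit 0xc00001) (nat_lit 91)) (.br (Nat.shiftLeft (nat_lit 0x6000005) (nat_lit 88)) (.br (Nat.shiftLeft (nat_lit 0x1800001) (nat_lit 90)) (.one (nat_lit 0x600000300d019c00000601a032411)) (.one (nat_lit 0x600000400d019c00000801a032411))) (.br (Nat.shiftLeft (nat_lit 0x3000003) (nat_lit 89)) (.one (nat_lit 0x600000500d019c00000a01a032411)) (.br (Nat.shiftLeft (nat_lit 0x6000007) (nat_lit 88)) (.one (nat_lit 0x600000600d019c00000c01a032411)) (.one (nat_lit 0x600000700d019c00000e01a032411))))) (.br (Nat.shiftLeft (nat_lit 0x1c00001) (nat_lit 90)) (.br (Nat.shiftLeft (nat_lit 0x7) (nat_lit 112)) (.one (nat_lit 0x600000800d019c00001001a032411)) (.one (nat_lit 0x700000300d019e00000601a032411))) (.br (Nat.shiftLeft (nat_lit 0x7000005) (nat_lit 88)) (.one (nat_lit 0x700000400d019e00000801a032411)) (.br (Nat.shiftLeft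 (nat_lit 0x3800003) (nat_lit 89)) (.one (nat_lit 0x700000500d019e00000a01a032411)) (.one (nat_lit 0x700000600d019e00000c01a032411))))))) (.br (Nat.shiftLeft (nat_lit 0x9000005) (nat_lit 88)) (.br (Nat.shiftLeft (nat_lit 0x4000003) (nat_lit 89)) (.br (Nat.shiftLeft (nat_lit 0x1) (nat_lit 115)) (.br (Nat.shiftLeft (nat_lit 0xe00001) (nat_lit 91)) (.one (nat_lit 0x700000700d019e00000e01a032411)) (.one (nat_lit 0x700000800d019e00001001a032411))) (.br (Nat.shiftLeft (nat_lit 0x2000001) (nat_lit 90)) (.one (nat_lit 0x800000300d019000000601a134411)) (.br (Nat.shiftLeft (nat_lit 0x8000005) (nat_lit 88)) (.one (nat_lit 0x800000400d019000000801a134411)) (.one (nat_lit 0x800000500d019000000a01a134411))))) (.br (Nat.shiftLeft (nat_lit 0x1000001) (nat_lit 91)) (.br (Nat.shiftLeft (nat_lit 0x8000007) (nat_lit 88)) (.one (nat_lit 0x800000600d019000000c01a134411)) (.one (nat_lit 0x800000700d019000000e01a134411))) (.br (Nat.shiftLeft (nat_lit 0x9) (nat_lit 112)) (.one (nat_lit 0x800000800d019000001001a134411))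 (.br (Nat.shiftLeft (nat_lit 0x2400001) (nat_lit 90)) (.one (nat_lit 0x900000300d019200000601a134411)) (.one (nat_lit 0x900000400d019200000801a134411)))))) (.br (Nat.shiftLeft (nat_lit 0x2800001) (nat_lit 90)) (.br (Nat.shiftLeft (nat_lit 0x9000007) (nat_lit 88)) (.br (Nat.shiftLeft (nat_lit 0x4800003) (nat_lit 89)) (.one (nat_lit 0x900000500d019200000a01a134411)) (.one (nat_lit 0x900000600d019200000c01a134411))) (.br (Nat.shiftLeft (nat_lit 0x1200001) (nat_lit 91)) (.one (nat_lit 0x900000700d019200000e01a134411)) (.br (Nat.shiftLeft (nat_lit 0x5) (nat_lit 113)) (.one (nat_lit 0x900000800d019200001001a134411)) (.one (nat_lit 0xa00000300d019400000601a134411))))) (.br (Nat.shiftLeft (nat_lit 0x5000003) (nat_lit 89)) (.br (Nat.shiftLeft (nat_lit 0xa000005) (nat_lit 88)) (.one (nat_lit 0xa00000400d019400000801a134411)) (.one (nat_lit 0xa00000500d019400000a01a134411))) (.br (Nat.shiftLeft (nat_lit 0xa000007) (nat_lit 88)) (.one (nat_lit 0xa00000600d019400000c01a134411)) (.br (Nat.shiftLeft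 (nat_lit 0x1400001) (nat_lit 91)) (.one (nat_lit 0xa00000700d019400000e01a134411)) (.one (nat_lit 0xa00000800d019400001001a134411))))))))
def t131 : k131.all (jb2 57 fl b0) = true := by decide +kernel
noncomputable def k132 : KT := (.br (Nat.shiftLeft (nat_lit 0x3000001) (nat_lit 90)) (.br (Nat.shiftLeft (nat_lit 0x5800003) (nat_lit 89)) (.br (Nat.shiftLeft (nat_lit 0x2c00001) (nat_lit 90)) (.one (nat_lit 0xb00000300d019600000601a134411)) (.br (Nat.shiftLeft (nat_lit 0xb000005) (nat_lit 88)) (.one (nat_lit 0xb00000400d019600000801a134411)) (.one (nat_lit 0xb00000500d019600000a01a134411)))) (.br (Nat.shiftLeft (nat_lit 0x1600001) (nat_lit 91)) (.br (Nat.shiftLeft (nat_lit 0xb000007) (nat_lit 88)) (.one (nat_lit 0xb00000600d019600000c01a134411)) (.one (nat_lit 0xb00000700d019600000e01a134411))) (.br (Nat.shiftLeft (nat_lit 0x3) (nat_lit 114)) (.one (nat_lit 0xb00000800d019600001001a134411)) (.one (nat_lit 0xc00000300d019800000601a134411))))) (.br (Nat.shiftLeft (nat_lit 0xd) (nat_lit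 112)) (.br (Nat.shiftLeft (nat_lit 0x6000003) (nat_lit 89)) (.br (Nat.shiftLeft (nat_lit 0xc000005) (nat_lit 88)) (.one (nat_lit 0xc00000400d019800000801a134411)) (.one (nat_lit 0xc00000500d019800000a01a134411))) (.br (Nat.shiftLeft (nat_lit 0xc000007) (nat_lit 88)) (.one (nat_lit 0xc00000600d019800000c01a134411)) (.one (nat_lit 0xc00000700d019800000e01a134411)))) (.br (Nat.shiftLeft (nat_lit 0xd000005) (nat_lit 88)) (.br (Nat.shiftLeft (nat_lit 0x3400001) (nat_lit 90)) (.one (nat_lit 0xd00000300d019a00000601a134411)) (.one (nat_lit 0xd00000400d019a00000801a134411))) (.br (Nat.shiftLeft (nat_lit 0x6800003) (nat_lit 89)) (.one (nat_lit 0xd00000500d019a00000a01a134411)) (.one (nat_lit 0xd00000600d019a00000c01a134411))))))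
def t132 : k132.all (jb2 57 fl b0) = true := by decide +kernel
noncomputable def s6 : KT := (.br (nat_lit 0x200600d019000400c01a032540) (.br (nat_lit 0x100400d019000200801a032540) (.br (nat_lit 0x900d019000001201a032430) (.br (nat_lit 0x800d019000001001a033400) k117 k118) (.br (nat_lit 0x100000d019000200001a032311) k119 k120)) (.br (nat_lit 0x200300d019000400601a032540) (.br (nat_lit 0x200000d019000400001a032311) k121 k122) (.br (nat_lit 0x200400d019000400801a032540) k123 k124))) (.br (nat_lit 0x400500d019000800a01a032540) (.br (nat_lit 0x300400d019000600801a032540) (.br (nat_lit 0x300000d019000600001a032311) k125 k126) (.br (nat_lit 0x300600d019000600c01a032540) k127 k128)) (.br (nat_lit 0x400000400d019800000801a032411) (.br (nat_lit 0x500000d019000a00001a032311) k129 k130) (.br (nat_lit 0xa00000800d019400001001a134411) k131 k132))))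
noncomputable def u6 : KT := (.one (nat_lit 0xd019000000001a032320))
def w6 : u6.all (wj 57 s6) = true := by decide +kernel
def o6 : OkW 57 (jb2 57 fl) u6 := .lift s6 _ (.br _ _ _ (.br _ _ _ (.br _ _ _ (.br _ _ _ (.leaf b0 k117 t117) (.leaf b0 k118 t118)) (.br _ _ _ (.leaf b0 k119 t119) (.leaf b0 k120 t120))) (.br _ _ _ (.br _ _ _ (.leaf b0 k121 t121) (.leaf b0 k122 t122)) (.br _ _ _ (.leaf b0 k123 t123) (.leaf b0 k124 t124)))) (.br _ _ _ (.br _ _ _ (.br _ _ _ (.leaf b0 k125 t125) (.leaf b0 k126 t126)) (.br _ _ _ (.leaf b0 k127 t127) (.leaf b0 k128 t128))) (.br _ _ _ (.br _ _ _ (.leaf b0 k129 t129) (.leaf b0 k130 t130)) (.br _ _ _ (.leaf b0 k131 t131) (.leaf b0 k132 t132))))) w6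
noncomputable def k133 : KT := (.br (Nat.shiftLeft (nat_lit 0x100d01b) (nat_lit 64)) (.br (Nat.shiftLeft (nat_lit 0x3407) (nat_lit 66)) (.br (Nat.shiftLeft (nat_lit 0xd01b) (nat_lit 64)) (.one (nat_lit 0xd01a000000001a035300)) (.one (nat_lit 0xd01b000000001a037300))) (.br (Nat.shiftLeft (nat_lit 0x1) (nat_lit 88)) (.one (nat_lit 0xd01c000000001a039300)) (.one (nat_lit 0x100d01a000000201a034430)))) (.br (Nat.shiftLeft (nat_lit 0x1) (nat_lit 89)) (.br (Nat.shiftLeft (nat_lit 0x403407) (nat_lit 66)) (.one (nat_lit 0x100d01b000000201a036430)) (.one (nat_lit 0x100d01c000000201a038430))) (.br (Nat.shiftLeft (nat_lit 0x200d01b) (nat_lit 64)) (.one (nat_lit 0x200d01a000000401a034430)) (.one (nat_lit 0x200d01b000000401a036430)))))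
def t133 : k133.all (jb2 57 fl b0) = true := by decide +kernel
noncomputable def k134 : KT := (.br (Nat.shiftLeft (nat_lit 0x3) (nat_lit 88)) (.one (nat_lit 0x200d01c000000401a038430)) (.one (nat_lit 0x300d01a000000601a035400)))
def t134 : k134.all (jb2 57 fl b0) = true := by decide +kernel
noncomputable def k135 : KT := (.one (nat_lit 0x300d01b000000601a036430))
def t135 : k135.all (jb2 57 fl b0) = true := by decide +kernel
noncomputable def k136 : KT := (.br (Nat.shiftLeft (nat_lit 0x1) (nat_lit 90)) (.one (nat_lit 0x300d01c000000601a038430)) (.br (Nat.shiftLeft (nat_lit 0x400d01b) (nat_lit 64)) (.one (nat_lit 0x400d01a000000801a035400)) (.one (nat_lit 0x400d01b000000801a037400))))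
def t136 : k136.all (jb2 57 fl b0) = true := by decide +kernel
noncomputable def k137 : KT := (.br (Nat.shiftLeft (nat_lit 0x5) (nat_lit 88)) (.one (nat_lit 0x400d01c000000801a038430)) (.br (Nat.shiftLeft (nat_lit 0x500d01b) (nat_lit 64)) (.one (nat_lit 0x500d01a000000a01a035400)) (.one (nat_lit 0x500d01b000000a01a037400))))
def t137 : k137.all (jb2 57 fl b0) = true := by decide +kernel
noncomputable def k138 : KT := (.br (Nat.shiftLeft (nat_lit 0x3) (nat_lit 89)) (.one (nat_lit 0x500d01c000000a01a038430)) (.one (nat_lit 0x600d01a000000c01a035400)))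
def t138 : k138.all (jb2 57 fl b0) = true := by decide +kernel
noncomputable def k139 : KT := (.one (nat_lit 0x600d01b000000c01a036430))
def t139 : k139.all (jb2 57 fl b0) = true := by decide +kernel
noncomputable def k140 : KT := (.br (Nat.shiftLeft (nat_lit 0x7) (nat_lit 88)) (.one (nat_lit 0x600d01c000000c01a038430)) (.one (nat_lit 0x700d01a000000e01a035400)))
def t140 : k140.all (jb2 57 fl b0) = true := by decide +kernel
noncomputable def k141 : KT := (.one (nat_lit 0x700d01b000000e01a036430))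
def t141 : k141.all (jb2 57 fl b0) = true := by decide +kernel
noncomputable def k142 : KT := (.one (nat_lit 0x700d01c000000e01a038430))
def t142 : k142.all (jb2 57 fl b0) = true := by decide +kernel
noncomputable def k143 : KT := (.one (nat_lit 0x800d01a000001001a034430))
def t143 : k143.all (jb2 57 fl b0) = true := by decide +kernel
noncomputable def k144 : KT := (.br (Nat.shiftLeft (nat_lit 0x2003407) (nat_lit 66)) (.one (nat_lit 0x800d01b000001001a036430)) (.one (nat_lit 0x800d01c000001001a038430)))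
def t144 : k144.all (jb2 57 fl b0) = true := by decide +kernel
noncomputable def k145 : KT := (.br (Nat.shiftLeft (nat_lit 0x900d01b) (nat_lit 64)) (.one (nat_lit 0x900d01a000001201a034430)) (.br (Nat.shiftLeft (nat_lit 0x2403407) (nat_lit 66)) (.one (nat_lit 0x900d01b000001201a036430)) (.one (nat_lit 0x900d01c000001201a038430))))
def t145 : k145.all (jb2 57 fl b0) = true := by decide +kernel
noncomputable def k146 : KT := (.br (Nat.shiftLeft (nat_lit 0x2803407) (nat_lit 66)) (.br (Nat.shiftLeft (nat_lit 0xa00d01b) (nat_lit 64)) (.one (nat_lit 0xa00d01a000001401a034430)) (.one (nat_lit 0xa00d01b000001401a036430))) (.br (Nat.shiftLeft (nat_lit 0xb) (nat_lit 88)) (.one (nat_lit 0xa00d01c000001401a038430)) (.br (Nat.shiftLeft (nat_lit 0xb00d01b) (nat_lit 64)) (.one (nat_lit 0xb00d01a000001601a034430)) (.one (nat_lit 0xb00d01b000001601a036430)))))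
def t146 : k146.all (jb2 57 fl b0) = true := by decide +kernel
noncomputable def k147 : KT := (.br (Nat.shiftLeft (nat_lit 0x1) (nat_lit 100)) (.br (Nat.shiftLeft (nat_lit 0xc00d01b) (nat_lit 64)) (.br (Nat.shiftLeft (nat_lit 0x3) (nat_lit 90)) (.one (nat_lit 0xb00d01c000001601a038430)) (.one (nat_lit 0xc00d01a000001801a034430))) (.br (Nat.shiftLeft (nat_lit 0x3003407) (nat_lit 66)) (.one (nat_lit 0xc00d01b000001801a036430)) (.one (nat_lit 0xc00d01c000001801a038430)))) (.br (Nat.shiftLeft (nat_lit 0x400003407) (nat_lit 66)) (.br (Nat.shiftLeft (nat_lit 0x100000d01b) (nat_lit 64)) (.one (nat_lit 0x100000d01a000200001a034311)) (.one (nat_lit 0x100000d01b000200001a036311))) (.br (Nat.shiftLeft (nat_lit 0x801) (nat_lit 89)) (.one (nat_lit 0x100000d01c000200001a038311)) (.br (Nat.shiftLeft (nat_lit 0x401) (nat_lit 90)) (.one (nat_lit 0x100300d01a000200601a034540)) (.one (nat_lit 0x100400d01a000200801a034540))))))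
def t147 : k147.all (jb2 57 fl b0) = true := by decide +kernel
noncomputable def k148 : KT := (.br (Nat.shiftLeft (nat_lit 0x100500d01b) (nat_lit 64)) (.br (Nat.shiftLeft (nat_lit 0x1005) (nat_lit 88)) (.one (nat_lit 0x100400d01b000200801a036540)) (.one (nat_lit 0x100500d01a000200a01a034540))) (.br (Nat.shiftLeft (nat_lit 0x803) (nat_lit 89)) (.one (nat_lit 0x100500d01b000200a01a036540)) (.one (nat_lit 0x100600d01a000200c01a034540))))
def t148 : k148.all (jb2 57 fl b0) = true := by decide +kernel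
noncomputable def k149 : KT := (.br (Nat.shiftLeft (nat_lit 0x200000d01b) (nat_lit 64)) (.br (Nat.shiftLeft (nat_lit 0x1) (nat_lit 101)) (.one (nat_lit 0x100700d01a000200e01a034540)) (.one (nat_lit 0x200000d01a000400001a034311))) (.br (Nat.shiftLeft (nat_lit 0x800003407) (nat_lit 66)) (.one (nat_lit 0x200000d01b000400001a036311)) (.br (Nat.shiftLeft (nat_lit 0x1001) (nat_lit 89)) (.one (nat_lit 0x200000d01c000400001a038311)) (.one (nat_lit 0x200300d01a000400601a034540)))))
def t149 : k149.all (jb2 57 fl b0) = true := by decide +kernel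
noncomputable def k150 : KT := (.br (Nat.shiftLeft (nat_lit 0x200400d01b) (nat_lit 64)) (.one (nat_lit 0x200400d01a000400801a034540)) (.one (nat_lit 0x200400d01b000400801a036540)))
def t150 : k150.all (jb2 57 fl b0) = true := by decide +kernel
noncomputable def k151 : KT := (.br (Nat.shiftLeft (nat_lit 0x200500d01b) (nat_lit 64)) (.one (nat_lit 0x200500d01a000400a01a034540)) (.br (Nat.shiftLeft (nat_lit 0x1003) (nat_lit 89)) (.one (nat_lit 0x200500d01b000400a01a036540)) (.one (nat_lit 0x200600d01a000400c01a034540))))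
def t151 : k151.all (jb2 57 fl b0) = true := by decide +kernel
noncomputable def k152 : KT := (.br (Nat.shiftLeft (nat_lit 0x300000d01b) (nat_lit 64)) (.br (Nat.shiftLeft (nat_lit 0x3) (nat_lit 100)) (.one (nat_lit 0x200700d01a000400e01a034540)) (.one (nat_lit 0x300000d01a000600001a034311))) (.br (Nat.shiftLeft (nat_lit 0xc00003407) (nat_lit 66)) (.one (nat_lit 0x300000d01b000600001a036311)) (.br (Nat.shiftLeft (nat_lit 0xc01) (nat_lit 90)) (.one (nat_lit 0x300000d01c000600001a038311)) (.one (nat_lit 0x300400d01a000600801a034540)))))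
def t152 : k152.all (jb2 57 fl b0) = true := by decide +kernel
noncomputable def k153 : KT := (.br (Nat.shiftLeft (nat_lit 0x3005) (nat_lit 88)) (.one (nat_lit 0x300400d01b000600801a036540)) (.one (nat_lit 0x300500d01a000600a01a034540)))
def t153 : k153.all (jb2 57 fl b0) = true := by decide +kernel
noncomputable def k154 : KT := (.br (Nat.shiftLeft (nat_lit 0x1) (nat_lit 102)) (.br (Nat.shiftLeft (nat_lit 0x1803) (nat_lit 89)) (.one (nat_lit 0x300500d01b000600a01a036540)) (.br (Nat.shiftLeft (nat_lit 0x3007) (nat_lit 88)) (.one (nat_lit 0x300600d01a000600c01a034540)) (.one (nat_lit 0x300700d01a000600e01a034540)))) (.br (Nat.shiftLeft (nat_lit 0x400000d01b) (nat_lit 64)) (.one (nat_lit 0x400000d01a000800001a034311)) (.br (Nat.shiftLeft (nat_lit 0x1000003407) (nat_lit 66)) (.one (nat_lit 0x400000d01b000800001a036311)) (.one (nat_lit 0x400000d01c000800001a038311)))))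
def t154 : k154.all (jb2 57 fl b0) = true := by decide +kernel
noncomputable def k155 : KT := (.br (Nat.shiftLeft (nat_lit 0x400500d01b) (nat_lit 64)) (.one (nat_lit 0x400500d01a000800a01a034540)) (.br (Nat.shiftLeft (nat_lit 0x2003) (nat_lit 89)) (.one (nat_lit 0x400500d01b000800a01a036540)) (.one (nat_lit 0x400600d01a000800c01a034540))))
def t155 : k155.all (jb2 57 fl b0) = true := by decide +kernel
noncomputable def k156 : KT := (.br (Nat.shiftLeft (nat_lit 0xa00000d01b) (nat_lit 64)) (.br (Nat.shiftLeft (nat_lit 0x7) (nat_lit 100)) (.br (Nat.shiftLeft (nat_lit 0x5007) (nat_lit 88)) (.br (Nat.shiftLeft (nat_lit 0x500000d01b) (nat_lit 64)) (.br (Nat.shiftLeft (nat_lit 0x5) (nat_lit 100)) (.one (nat_lit 0x400700d01a000800e01a034540)) (.one (nat_lit 0x500000d01a000a00001a034311))) (.br (Nat.shiftLeft (nat_lit 0x1400003407) (nat_lit 66)) (.one (nat_lit 0x500000d01b000a00001a036311)) (.br (Nat.shiftLeft (nat_lit 0x1401) (nat_lit 90)) (.one (nat_lit 0x500000d01c000a00001a038311)) (.one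 (nat_lit 0x500600d01a000a00c01a034540))))) (.br (Nat.shiftLeft (nat_lit 0x600000d01b) (nat_lit 64)) (.br (Nat.shiftLeft (nat_lit 0x3) (nat_lit 101)) (.one (nat_lit 0x500700d01a000a00e01a034540)) (.one (nat_lit 0x600000d01a000c00001a034311))) (.br (Nat.shiftLeft (nat_lit 0x1800003407) (nat_lit 66)) (.one (nat_lit 0x600000d01b000c00001a036311)) (.br (Nat.shiftLeft (nat_lit 0x1801) (nat_lit 90)) (.one (nat_lit 0x600000d01c000c00001a038311)) (.one (nat_lit 0x600700d01a000c00e01a034540)))))) (.br (Nat.shiftLeft (nat_lit 0x2000003407) (nat_lit 66)) (.br (Nat.shiftLeft (nat_lit 0x1c00003407) (nat_lit 66)) (.br (Nat.shiftLeft (nat_lit 0x700000d01b) (nat_lit 64)) (.one (nat_lit 0x700000d01a000e00001a034311)) (.one (nat_lit 0x700000d01b000e00001a036311))) (.br (Nat.shiftLeft (nat_lit 0x1) (nat_lit 103)) (.one (nat_lit 0x700000d01c000e00001a038311)) (.br (Nat.shiftLeft (nat_lit 0x800000d01b) (nat_lit 64)) (.one (nat_lit 0x800000d01a001000001a034311)) (.one (nat_lit 0x800000d01b001000001a036311)))))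 (.br (Nat.shiftLeft (nat_lit 0x900000d01b) (nat_lit 64)) (.br (Nat.shiftLeft (nat_lit 0x9) (nat_lit 100)) (.one (nat_lit 0x800000d01c001000001a038311)) (.one (nat_lit 0x900000d01a001200001a034311))) (.br (Nat.shiftLeft (nat_lit 0x2400003407) (nat_lit 66)) (.one (nat_lit 0x900000d01b001200001a036311)) (.br (Nat.shiftLeft (nat_lit 0x5) (nat_lit 101)) (.one (nat_lit 0x900000d01c001200001a038311)) (.one (nat_lit 0xa00000d01a001400001a034311))))))) (.br (Nat.shiftLeft (nat_lit 0x3400003407) (nat_lit 66)) (.br (Nat.shiftLeft (nat_lit 0x3) (nat_lit 102)) (.br (Nat.shiftLeft (nat_lit 0xb) (nat_lit 100)) (.br (Nat.shiftLeft (nat_lit 0x2800003407) (nat_lit 66)) (.one (nat_lit 0xa00000d01b001400001a036311)) (.one (nat_lit 0xa00000d01c001400001a038311))) (.br (Nat.shiftLeft (nat_lit 0xb00000d01b) (nat_lit 64)) (.one (nat_lit 0xb00000d01a001600001a034311)) (.br (Nat.shiftLeft (nat_lit 0x2c00003407) (nat_lit 66)) (.one (nat_lit 0xb00000d01b001600001a036311)) (.one (nat_lit 0xb00000d01c001600001a038311)))))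 (.br (Nat.shiftLeft (nat_lit 0x3000003407) (nat_lit 66)) (.br (Nat.shiftLeft (nat_lit 0xc00000d01b) (nat_lit 64)) (.one (nat_lit 0xc00000d01a001800001a034311)) (.one (nat_lit 0xc00000d01b001800001a036311))) (.br (Nat.shiftLeft (nat_lit 0xd) (nat_lit 100)) (.one (nat_lit 0xc00000d01c001800001a038311)) (.br (Nat.shiftLeft (nat_lit 0xd00000d01b) (nat_lit 64)) (.one (nat_lit 0xd00000d01a001a00001a034311)) (.one (nat_lit 0xd00000d01b001a00001a036311)))))) (.br (Nat.shiftLeft (nat_lit 0x100000500d01b) (nat_lit 64)) (.br (Nat.shiftLeft (nat_lit 0x400001) (nat_lit 90)) (.br (Nat.shiftLeft (nat_lit 0x1) (nat_lit 112)) (.one (nat_lit 0xd00000d01c001a00001a038311)) (.one (nat_lit 0x100000300d01a200000601a034411))) (.br (Nat.shiftLeft (nat_lit 0x100000400d01b) (nat_lit 64)) (.one (nat_lit 0x100000400d01a200000801a034411)) (.br (Nat.shiftLeft (nat_lit 0x1000005) (nat_lit 88)) (.one (nat_lit 0x100000400d01b200000801a036411)) (.one (nat_lit 0x100000500d01a200000a01a034411))))) (.br (Nat.shiftLeft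 (nat_lit 0x1000007) (nat_lit 88)) (.br (Nat.shiftLeft (nat_lit 0x800003) (nat_lit 89)) (.one (nat_lit 0x100000500d01b200000a01a036411)) (.one (nat_lit 0x100000600d01a200000c01a034411))) (.br (Nat.shiftLeft (nat_lit 0x1) (nat_lit 113)) (.one (nat_lit 0x100000700d01a200000e01a034411)) (.br (Nat.shiftLeft (nat_lit 0x800001) (nat_lit 90)) (.one (nat_lit 0x200000300d01a400000601a034411)) (.one (nat_lit 0x200000400d01a400000801a034411))))))))
def t156 : k156.all (jb2 57 fl b0) = true := by decide +kernel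
noncomputable def k157 : KT := (.br (Nat.shiftLeft (nat_lit 0x1400001) (nat_lit 90)) (.br (Nat.shiftLeft (nat_lit 0x1800003) (nat_lit 89)) (.br (Nat.shiftLeft (nat_lit 0x3) (nat_lit 112)) (.br (Nat.shiftLeft (nat_lit 0x200000500d01b) (nat_lit 64)) (.br (Nat.shiftLeft (nat_lit 0x2000005) (nat_lit 88)) (.one (nat_lit 0x200000400d01b400000801a036411)) (.one (nat_lit 0x200000500d01a400000a01a034411))) (.br (Nat.shiftLeft (nat_lit 0x1000003) (nat_lit 89)) (.one (nat_lit 0x200000500d01b400000a01a036411)) (.br (Nat.shiftLeft (nat_lit 0x2000007) (nat_lit 88)) (.one (nat_lit 0x200000600d01a400000c01a034411)) (.one (nat_lit 0x200000700d01a400000e01a034411))))) (.br (Nat.shiftLeft (nat_lit 0x300000400d01b) (nat_lit 64)) (.br (Nat.shiftLeft (nat_lit 0xc00001) (nat_lit 90)) (.one (nat_lit 0x300000300d01a600000601a034411)) (.one (nat_lit 0x300000400d01a600000801a034411))) (.br (Nat.shiftLeft (nat_lit 0x3000005) (nat_lit 88)) (.one (nat_lit 0x300000400d01b600000801a036411)) (.br (Nat.shiftLeft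 (nat_lit 0x300000500d01b) (nat_lit 64)) (.one (nat_lit 0x300000500d01a600000a01a034411)) (.one (nat_lit 0x300000500d01b600000a01a036411)))))) (.br (Nat.shiftLeft (nat_lit 0x4000005) (nat_lit 88)) (.br (Nat.shiftLeft (nat_lit 0x1) (nat_lit 114)) (.br (Nat.shiftLeft (nat_lit 0x3000007) (nat_lit 88)) (.one (nat_lit 0x300000600d01a600000c01a034411)) (.one (nat_lit 0x300000700d01a600000e01a034411))) (.br (Nat.shiftLeft (nat_lit 0x1000001) (nat_lit 90)) (.one (nat_lit 0x400000300d01a800000601a034411)) (.br (Nat.shiftLeft (nat_lit 0x400000400d01b) (nat_lit 64)) (.one (nat_lit 0x400000400d01a800000801a034411)) (.one (nat_lit 0x400000400d01b800000801a036411))))) (.br (Nat.shiftLeft (nat_lit 0x2000003) (nat_lit 89)) (.br (Nat.shiftLeft (nat_lit 0x400000500d01b) (nat_lit 64)) (.one (nat_lit 0x400000500d01a800000a01a034411)) (.one (nat_lit 0x400000500d01b800000a01a036411))) (.br (Nat.shiftLeft (nat_lit 0x4000007) (nat_lit 88)) (.one (nat_lit 0x400000600d01a800000c01a034411)) (.br (Nat.shiftLeft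 (nat_lit 0x5) (nat_lit 112)) (.one (nat_lit 0x400000700d01a800000e01a034411)) (.one (nat_lit 0x500000300d01aa00000601a034411))))))) (.br (Nat.shiftLeft (nat_lit 0x600000500d01b) (nat_lit 64)) (.br (Nat.shiftLeft (nat_lit 0x5000007) (nat_lit 88)) (.br (Nat.shiftLeft (nat_lit 0x5000005) (nat_lit 88)) (.br (Nat.shiftLeft (nat_lit 0x500000400d01b) (nat_lit 64)) (.one (nat_lit 0x500000400d01aa00000801a034411)) (.one (nat_lit 0x500000400d01ba00000801a036411))) (.br (Nat.shiftLeft (nat_lit 0x500000500d01b) (nat_lit 64)) (.one (nat_lit 0x500000500d01aa00000a01a034411)) (.br (Nat.shiftLeft (nat_lit 0x2800003) (nat_lit 89)) (.one (nat_lit 0x500000500d01ba00000a01a036411)) (.one (nat_lit 0x500000600d01aa00000c01a034411))))) (.br (Nat.shiftLeft (nat_lit 0x1800001) (nat_lit 90)) (.br (Nat.shiftLeft (nat_lit 0x3) (nat_lit 113)) (.one (nat_lit 0x500000700d01aa00000e01a034411)) (.one (nat_lit 0x600000300d01ac00000601a034411))) (.br (Nat.shiftLeft (nat_lit 0x600000400d01b) (nat_lit 64)) (.one (nat_lit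 0x600000400d01ac00000801a034411)) (.br (Nat.shiftLeft (nat_lit 0x6000005) (nat_lit 88)) (.one (nat_lit 0x600000400d01bc00000801a036411)) (.one (nat_lit 0x600000500d01ac00000a01a034411)))))) (.br (Nat.shiftLeft (nat_lit 0x700000400d01b) (nat_lit 64)) (.br (Nat.shiftLeft (nat_lit 0x6000007) (nat_lit 88)) (.br (Nat.shiftLeft (nat_lit 0x3000003) (nat_lit 89)) (.one (nat_lit 0x600000500d01bc00000a01a036411)) (.one (nat_lit 0x600000600d01ac00000c01a034411))) (.br (Nat.shiftLeft (nat_lit 0x7) (nat_lit 112)) (.one (nat_lit 0x600000700d01ac00000e01a034411)) (.br (Nat.shiftLeft (nat_lit 0x1c00001) (nat_lit 90)) (.one (nat_lit 0x700000300d01ae00000601a034411)) (.one (nat_lit 0x700000400d01ae00000801a034411))))) (.br (Nat.shiftLeft (nat_lit 0x700000500d01b) (nat_lit 64)) (.br (Nat.shiftLeft (nat_lit 0x7000005) (nat_lit 88)) (.one (nat_lit 0x700000400d01be00000801a036411)) (.one (nat_lit 0x700000500d01ae00000a01a034411))) (.br (Nat.shiftLeft (nat_lit 0x3800003) (nat_lit 89)) (.one (nat_lit 0x700000500d01be00000a01a036411))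 (.br (Nat.shiftLeft (nat_lit 0x7000007) (nat_lit 88)) (.one (nat_lit 0x700000600d01ae00000c01a034411)) (.one (nat_lit 0x700000700d01ae00000e01a034411))))))))
def t157 : k157.all (jb2 57 fl b0) = true := by decide +kernel
noncomputable def k158 : KT := (.br (Nat.shiftLeft (nat_lit 0x5000003) (nat_lit 89)) (.br (Nat.shiftLeft (nat_lit 0x900000400d01b) (nat_lit 64)) (.br (Nat.shiftLeft (nat_lit 0x800000500d01b) (nat_lit 64)) (.br (Nat.shiftLeft (nat_lit 0x800000400d01b) (nat_lit 64)) (.br (Nat.shiftLeft (nat_lit 0x2000001) (nat_lit 90)) (.one (nat_lit 0x800000300d01a000000601a136411)) (.one (nat_lit 0x800000400d01a000000801a136411))) (.br (Nat.shiftLeft (nat_lit 0x8000005) (nat_lit 88)) (.one (nat_lit 0x800000400d01b000000801a138411)) (.one (nat_lit 0x800000500d01a000000a01a136411)))) (.br (Nat.shiftLeft (nat_lit 0x8000007) (nat_lit 88)) (.br (Nat.shiftLeft (nat_lit 0x4000003) (nat_lit 89)) (.one (nat_lit 0x800000500d01b000000a01a138411)) (.one (nat_lit 0x800000600d01a000000c01a136411)))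 (.br (Nat.shiftLeft (nat_lit 0x9) (nat_lit 112)) (.one (nat_lit 0x800000700d01a000000e01a136411)) (.br (Nat.shiftLeft (nat_lit 0x2400001) (nat_lit 90)) (.one (nat_lit 0x900000300d01a200000601a136411)) (.one (nat_lit 0x900000400d01a200000801a136411)))))) (.br (Nat.shiftLeft (nat_lit 0x5) (nat_lit 113)) (.br (Nat.shiftLeft (nat_lit 0x900000500d01b) (nat_lit 64)) (.br (Nat.shiftLeft (nat_lit 0x9000005) (nat_lit 88)) (.one (nat_lit 0x900000400d01b200000801a138411)) (.one (nat_lit 0x900000500d01a200000a01a136411))) (.br (Nat.shiftLeft (nat_lit 0x4800003) (nat_lit 89)) (.one (nat_lit 0x900000500d01b200000a01a138411)) (.br (Nat.shiftLeft (nat_lit 0x9000007) (nat_lit 88)) (.one (nat_lit 0x900000600d01a200000c01a136411)) (.one (nat_lit 0x900000700d01a200000e01a136411))))) (.br (Nat.shiftLeft (nat_lit 0xa00000400d01b) (nat_lit 64)) (.br (Nat.shiftLeft (nat_lit 0x2800001) (nat_lit 90)) (.one (nat_lit 0xa00000300d01a400000601a136411)) (.one (nat_lit 0xa00000400d01a400000801a136411))) (.br (Nat.shiftLeft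 (nat_lit 0xa000005) (nat_lit 88)) (.one (nat_lit 0xa00000400d01b400000801a138411)) (.br (Nat.shiftLeft (nat_lit 0xa00000500d01b) (nat_lit 64)) (.one (nat_lit 0xa00000500d01a400000a01a136411)) (.one (nat_lit 0xa00000500d01b400000a01a138411))))))) (.br (Nat.shiftLeft (nat_lit 0x3) (nat_lit 114)) (.br (Nat.shiftLeft (nat_lit 0xb00000400d01b) (nat_lit 64)) (.br (Nat.shiftLeft (nat_lit 0xb) (nat_lit 112)) (.br (Nat.shiftLeft (nat_lit 0xa000007) (nat_lit 88)) (.one (nat_lit 0xa00000600d01a400000c01a136411)) (.one (nat_lit 0xa00000700d01a400000e01a136411))) (.br (Nat.shiftLeft (nat_lit 0x2c00001) (nat_lit 90)) (.one (nat_lit 0xb00000300d01a600000601a136411)) (.one (nat_lit 0xb00000400d01a600000801a136411)))) (.br (Nat.shiftLeft (nat_lit 0xb00000500d01b) (nat_lit 64)) (.br (Nat.shiftLeft (nat_lit 0xb000005) (nat_lit 88)) (.one (nat_lit 0xb00000400d01b600000801a138411)) (.one (nat_lit 0xb00000500d01a600000a01a136411))) (.br (Nat.shiftLeft (nat_lit 0x5800003) (nat_lit 89)) (.one (nat_lit 0xb00000500d01b600000a01a138411))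 (.br (Nat.shiftLeft (nat_lit 0xb000007) (nat_lit 88)) (.one (nat_lit 0xb00000600d01a600000c01a136411)) (.one (nat_lit 0xb00000700d01a600000e01a136411)))))) (.br (Nat.shiftLeft (nat_lit 0x6000003) (nat_lit 89)) (.br (Nat.shiftLeft (nat_lit 0xc00000400d01b) (nat_lit 64)) (.br (Nat.shiftLeft (nat_lit 0x3000001) (nat_lit 90)) (.one (nat_lit 0xc00000300d01a800000601a136411)) (.one (nat_lit 0xc00000400d01a800000801a136411))) (.br (Nat.shiftLeft (nat_lit 0xc000005) (nat_lit 88)) (.one (nat_lit 0xc00000400d01b800000801a138411)) (.br (Nat.shiftLeft (nat_lit 0xc00000500d01b) (nat_lit 64)) (.one (nat_lit 0xc00000500d01a800000a01a136411)) (.one (nat_lit 0xc00000500d01b800000a01a138411))))) (.br (Nat.shiftLeft (nat_lit 0x3400001) (nat_lit 90)) (.br (Nat.shiftLeft (nat_lit 0xd) (nat_lit 112)) (.one (nat_lit 0xc00000600d01a800000c01a136411)) (.one (nat_lit 0xd00000300d01aa00000601a136411))) (.br (Nat.shiftLeft (nat_lit 0xd00000400d01b) (nat_lit 64)) (.one (nat_lit 0xd00000400d01aa00000801a136411))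 (.br (Nat.shiftLeft (nat_lit 0xd000005) (nat_lit 88)) (.one (nat_lit 0xd00000400d01ba00000801a138411)) (.one (nat_lit 0xd00000500d01aa00000a01a136411))))))))
def t158 : k158.all (jb2 57 fl b0) = true := by decide +kernel
noncomputable def s7 : KT := (.br (nat_lit 0x900d01c000001201a038430) (.br (nat_lit 0x600d01a000000c01a035400) (.br (nat_lit 0x300d01b000000601a036430) (.br (nat_lit 0x200d01b000000401a036430) k133 (.br (nat_lit 0x300d01a000000601a035400) k134 k135)) (.br (nat_lit 0x400d01b000000801a037400) k136 (.br (nat_lit 0x500d01b000000a01a037400) k137 k138))) (.br (nat_lit 0x700d01b000000e01a036430) (.br (nat_lit 0x600d01b000000c01a036430) k139 (.br (nat_lit 0x700d01a000000e01a035400) k140 k141)) (.br (nat_lit 0x800d01a000001001a034430) (.br (nat_lit 0x700d01c000000e01a038430) k142 k143) (.br (nat_lit 0x800d01c000001001a038430) k144 k145)))) (.br (nat_lit 0x200600d01a000400c01a034540) (.br (nat_lit 0x100600d01a000200c01a034540) (.br (nat_lit 0xb00d01b000001601a036430) k146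 (.br (nat_lit 0x100400d01a000200801a034540) k147 k148)) (.br (nat_lit 0x200300d01a000400601a034540) k149 (.br (nat_lit 0x200400d01b000400801a036540) k150 k151))) (.br (nat_lit 0x400000d01c000800001a038311) (.br (nat_lit 0x300400d01a000600801a034540) k152 (.br (nat_lit 0x300500d01a000600a01a034540) k153 k154)) (.br (nat_lit 0x200000400d01a400000801a034411) (.br (nat_lit 0x400600d01a000800c01a034540) k155 k156) (.br (nat_lit 0x700000700d01ae00000e01a034411) k157 k158)))))
noncomputable def u7 : KT := (.br (Nat.shiftLeft (nat_lit 0xd01b) (nat_lit 64)) (.one (nat_lit 0xd01a000000001a034320)) (.br (Nat.shiftLeft (nat_lit 0x3407) (nat_lit 66)) (.one (nat_lit 0xd01b000000001a036320)) (.one (nat_lit 0xd01c000000001a038320))))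
def w7 : u7.all (wj 57 s7) = true := by decide +kernel
def o7 : OkW 57 (jb2 57 fl) u7 := .lift s7 _ (.br _ _ _ (.br _ _ _ (.br _ _ _ (.br _ _ _ (.leaf b0 k133 t133) (.br _ _ _ (.leaf b0 k134 t134) (.leaf b0 k135 t135))) (.br _ _ _ (.leaf b0 k136 t136) (.br _ _ _ (.leaf b0 k137 t137) (.leaf b0 k138 t138)))) (.br _ _ _ (.br _ _ _ (.leaf b0 k139 t139) (.br _ _ _ (.leaf b0 k140 t140) (.leaf b0 k141 t141))) (.br _ _ _ (.br _ _ _ (.leaf b0 k142 t142) (.leaf b0 k143 t143)) (.br _ _ _ (.leaf b0 k144 t144) (.leaf b0 k145 t145))))) (.br _ _ _ (.br _ _ _ (.br _ _ _ (.leaf b0 k146 t146) (.br _ _ _ (.leaf b0 k147 t147) (.leaf b0 k148 t148))) (.br _ _ _ (.leaf b0 k149 t149) (.br _ _ _ (.leaf b0 k150 t150) (.leaf b0 k151 t151)))) (.br _ _ _ (.br _ _ _ (.leaf b0 k152 t152) (.br _ _ _ (.leaf b0 k153 t153) (.leaf b0 k154 t154))) (.br _ _ _ (.br _ _ _ (.leaf b0 k155 t155) (.leaf b0 k156 t156)) (.br _ _ _ (.leaf b0 k157 t157) (.leaf b0 k158 t158)))))) w7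
noncomputable def k159 : KT := (.br (Nat.shiftLeft (nat_lit 0xe013) (nat_lit 64)) (.br (Nat.shiftLeft (nat_lit 0x681) (nat_lit 69)) (.br (Nat.shiftLeft (nat_lit 0x680f) (nat_lit 65)) (.one (nat_lit 0xd01d000000001a03b300)) (.br (Nat.shiftLeft (nat_lit 0xd01f) (nat_lit 64)) (.one (nat_lit 0xd01e000000001a03d300)) (.one (nat_lit 0xd01f000000001a03f300)))) (.br (Nat.shiftLeft (nat_lit 0xd021) (nat_lit 64)) (.one (nat_lit 0xd020000000001a041300)) (.br (Nat.shiftLeft (nat_lit 0x7) (nat_lit 77)) (.one (nat_lit 0xd021000000001a042320)) (.one (nat_lit 0xe012000000001c025300))))) (.br (Nat.shiftLeft (nat_lit 0x700b) (nat_lit 65)) (.br (Nat.shiftLeft (nat_lit 0x3805) (nat_lit 66)) (.one (nat_lit 0xe013000000001c027300)) (.br (Nat.shiftLeft (nat_lit 0xe015) (nat_lit 64)) (.one (nat_lit 0xe014000000001c029300)) (.one (nat_lit 0xe015000000001c02b300)))) (.br (Nat.shiftLeft (nat_lit 0x1) (nat_lit 88)) (.one (nat_lit 0xe016000000001c02d300)) (.br (Nat.shiftLeft (nat_lit 0x80680f) (nat_lit 65))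 (.one (nat_lit 0x100d01d000000201a03a430)) (.one (nat_lit 0x100d01e000000201a03c430))))))
def t159 : k159.all (jb2 57 fl b0) = true := by decide +kernel
noncomputable def k160 : KT := (.br (Nat.shiftLeft (nat_lit 0x100680f) (nat_lit 65)) (.br (Nat.shiftLeft (nat_lit 0x80681) (nat_lit 69)) (.one (nat_lit 0x100d01f000000201a03e430)) (.br (Nat.shiftLeft (nat_lit 0x1) (nat_lit 89)) (.one (nat_lit 0x100d020000000201a040430)) (.one (nat_lit 0x200d01d000000401a03a430)))) (.br (Nat.shiftLeft (nat_lit 0x200d01f) (nat_lit 64)) (.one (nat_lit 0x200d01e000000401a03c430)) (.br (Nat.shiftLeft (nat_lit 0x100681) (nat_lit 69)) (.one (nat_lit 0x200d01f000000401a03e430)) (.one (nat_lit 0x200d020000000401a040430)))))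
def t160 : k160.all (jb2 57 fl b0) = true := by decide +kernel
noncomputable def k161 : KT := (.one (nat_lit 0x300d01d000000601a03a430))
def t161 : k161.all (jb2 57 fl b0) = true := by decide +kernel
noncomputable def k162 : KT := (.br (Nat.shiftLeft (nat_lit 0x300d01f) (nat_lit 64)) (.one (nat_lit 0x300d01e000000601a03c430)) (.one (nat_lit 0x300d01f000000601a03e430)))
def t162 : k162.all (jb2 57 fl b0) = true := by decide +kernel
noncomputable def k163 : KT := (.br (Nat.shiftLeft (nat_lit 0x1) (nat_lit 90)) (.one (nat_lit 0x300d020000000601a040430)) (.one (nat_lit 0x400d01d000000801a03a430)))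
def t163 : k163.all (jb2 57 fl b0) = true := by decide +kernel
noncomputable def k164 : KT := (.br (Nat.shiftLeft (nat_lit 0x400d01f) (nat_lit 64)) (.one (nat_lit 0x400d01e000000801a03c430)) (.one (nat_lit 0x400d01f000000801a03e430)))
def t164 : k164.all (jb2 57 fl b0) = true := by decide +kernel
noncomputable def k165 : KT := (.br (Nat.shiftLeft (nat_lit 0x5) (nat_lit 88)) (.one (nat_lit 0x400d020000000801a040430)) (.one (nat_lit 0x500d01d000000a01a03a430)))
def t165 : k165.all (jb2 57 fl b0) = true := by decide +kernel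
noncomputable def k166 : KT := (.br (Nat.shiftLeft (nat_lit 0x500d01f) (nat_lit 64)) (.one (nat_lit 0x500d01e000000a01a03c430)) (.br (Nat.shiftLeft (nat_lit 0x280681) (nat_lit 69)) (.one (nat_lit 0x500d01f000000a01a03e430)) (.one (nat_lit 0x500d020000000a01a040430))))
def t166 : k166.all (jb2 57 fl b0) = true := by decide +kernel
noncomputable def k167 : KT := (.br (Nat.shiftLeft (nat_lit 0x300680f) (nat_lit 65)) (.one (nat_lit 0x600d01d000000c01a03a430)) (.br (Nat.shiftLeft (nat_lit 0x600d01f) (nat_lit 64)) (.one (nat_lit 0x600d01e000000c01a03c430)) (.one (nat_lit 0x600d01f000000c01a03e430))))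
def t167 : k167.all (jb2 57 fl b0) = true := by decide +kernel
noncomputable def k168 : KT := (.br (Nat.shiftLeft (nat_lit 0x380680f) (nat_lit 65)) (.br (Nat.shiftLeft (nat_lit 0x7) (nat_lit 88)) (.one (nat_lit 0x600d020000000c01a040430)) (.one (nat_lit 0x700d01d000000e01a03a430))) (.br (Nat.shiftLeft (nat_lit 0x700d01f) (nat_lit 64)) (.one (nat_lit 0x700d01e000000e01a03c430)) (.br (Nat.shiftLeft (nat_lit 0x380681) (nat_lit 69)) (.one (nat_lit 0x700d01f000000e01a03e430)) (.one (nat_lit 0x700d020000000e01a040430)))))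
def t168 : k168.all (jb2 57 fl b0) = true := by decide +kernel
noncomputable def k169 : KT := (.br (Nat.shiftLeft (nat_lit 0xb00d01f) (nat_lit 64)) (.br (Nat.shiftLeft (nat_lit 0x480681) (nat_lit 69)) (.br (Nat.shiftLeft (nat_lit 0x400681) (nat_lit 69)) (.br (Nat.shiftLeft (nat_lit 0x400680f) (nat_lit 65)) (.one (nat_lit 0x800d01d000001001a03a430)) (.br (Nat.shiftLeft (nat_lit 0x800d01f) (nat_lit 64)) (.one (nat_lit 0x800d01e000001001a03c430)) (.one (nat_lit 0x800d01f000001001a03e430)))) (.br (Nat.shiftLeft (nat_lit 0x480680f) (nat_lit 65)) (.br (Nat.shiftLeft (nat_lit 0x9) (nat_lit 88)) (.one (nat_lit 0x800d020000001001a040430)) (.one (nat_lit 0x900d01d000001201a03a430))) (.br (Nat.shiftLeft (nat_lit 0x900d01f) (nat_lit 64)) (.one (nat_lit 0x900d01e000001201a03c430)) (.one (nat_lit 0x900d01f000001201a03e430))))) (.br (Nat.shiftLeft (nat_lit 0xa00d01f) (nat_lit 64)) (.br (Nat.shiftLeft (nat_lit 0x5) (nat_lit 89)) (.one (nat_lit 0x900d020000001201a040430)) (.br (Nat.shiftLeft (nat_lit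 0x500680f) (nat_lit 65)) (.one (nat_lit 0xa00d01d000001401a03a430)) (.one (nat_lit 0xa00d01e000001401a03c430)))) (.br (Nat.shiftLeft (nat_lit 0xb) (nat_lit 88)) (.br (Nat.shiftLeft (nat_lit 0x500681) (nat_lit 69)) (.one (nat_lit 0xa00d01f000001401a03e430)) (.one (nat_lit 0xa00d020000001401a040430))) (.br (Nat.shiftLeft (nat_lit 0x580680f) (nat_lit 65)) (.one (nat_lit 0xb00d01d000001601a03a430)) (.one (nat_lit 0xb00d01e000001601a03c430)))))) (.br (Nat.shiftLeft (nat_lit 0x80000680f) (nat_lit 65)) (.br (Nat.shiftLeft (nat_lit 0x600680f) (nat_lit 65)) (.br (Nat.shiftLeft (nat_lit 0x580681) (nat_lit 69)) (.one (nat_lit 0xb00d01f000001601a03e430)) (.br (Nat.shiftLeft (nat_lit 0x3) (nat_lit 90)) (.one (nat_lit 0xb00d020000001601a040430)) (.one (nat_lit 0xc00d01d000001801a03a430)))) (.br (Nat.shiftLeft (nat_lit 0x600681) (nat_lit 69)) (.br (Nat.shiftLeft (nat_lit 0xc00d01f) (nat_lit 64)) (.one (nat_lit 0xc00d01e000001801a03c430)) (.one (nat_lit 0xc00d01f000001801a03e430))) (.br (Nat.shiftLeft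 (nat_lit 0x1) (nat_lit 100)) (.one (nat_lit 0xc00d020000001801a040430)) (.one (nat_lit 0x100000d01d000200001a03a311))))) (.br (Nat.shiftLeft (nat_lit 0x100000680f) (nat_lit 65)) (.br (Nat.shiftLeft (nat_lit 0x80000681) (nat_lit 69)) (.br (Nat.shiftLeft (nat_lit 0x100000d01f) (nat_lit 64)) (.one (nat_lit 0x100000d01e000200001a03c311)) (.one (nat_lit 0x100000d01f000200001a03e311))) (.br (Nat.shiftLeft (nat_lit 0x1) (nat_lit 101)) (.one (nat_lit 0x100000d020000200001a040311)) (.one (nat_lit 0x200000d01d000400001a03a311)))) (.br (Nat.shiftLeft (nat_lit 0x100000681) (nat_lit 69)) (.br (Nat.shiftLeft (nat_lit 0x200000d01f) (nat_lit 64)) (.one (nat_lit 0x200000d01e000400001a03c311)) (.one (nat_lit 0x200000d01f000400001a03e311))) (.br (Nat.shiftLeft (nat_lit 0x3) (nat_lit 100)) (.one (nat_lit 0x200000d020000400001a040311)) (.one (nat_lit 0x300000d01d000600001a03a311)))))))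
def t169 : k169.all (jb2 57 fl b0) = true := by decide +kernel
noncomputable def k170 : KT := (.br (Nat.shiftLeft (nat_lit 0x400000680f) (nat_lit 65)) (.br (Nat.shiftLeft (nat_lit 0x280000681) (nat_lit 69)) (.br (Nat.shiftLeft (nat_lit 0x400000d01f) (nat_lit 64)) (.br (Nat.shiftLeft (nat_lit 0x180000681) (nat_lit 69)) (.br (Nat.shiftLeft (nat_lit 0x300000d01f) (nat_lit 64)) (.one (nat_lit 0x300000d01e000600001a03c311)) (.one (nat_lit 0x300000d01f000600001a03e311))) (.br (Nat.shiftLeft (nat_lit 0x1) (nat_lit 102)) (.one (nat_lit 0x300000d020000600001a040311)) (.br (Nat.shiftLeft (nat_lit 0x200000680f) (nat_lit 65)) (.one (nat_lit 0x400000d01d000800001a03a311)) (.one (nat_lit 0x400000d01e000800001a03c311))))) (.br (Nat.shiftLeft (nat_lit 0x5) (nat_lit 100)) (.br (Nat.shiftLeft (nat_lit 0x200000681) (nat_lit 69)) (.one (nat_lit 0x400000d01f000800001a03e311)) (.one (nat_lit 0x400000d020000800001a040311))) (.br (Nat.shiftLeft (nat_lit 0x280000680f) (nat_lit 65)) (.one (nat_lit 0x500000d01d000a00001a03a311))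 (.br (Nat.shiftLeft (nat_lit 0x500000d01f) (nat_lit 64)) (.one (nat_lit 0x500000d01e000a00001a03c311)) (.one (nat_lit 0x500000d01f000a00001a03e311)))))) (.br (Nat.shiftLeft (nat_lit 0x7) (nat_lit 100)) (.br (Nat.shiftLeft (nat_lit 0x300000680f) (nat_lit 65)) (.br (Nat.shiftLeft (nat_lit 0x3) (nat_lit 101)) (.one (nat_lit 0x500000d020000a00001a040311)) (.one (nat_lit 0x600000d01d000c00001a03a311))) (.br (Nat.shiftLeft (nat_lit 0x600000d01f) (nat_lit 64)) (.one (nat_lit 0x600000d01e000c00001a03c311)) (.br (Nat.shiftLeft (nat_lit 0x300000681) (nat_lit 69)) (.one (nat_lit 0x600000d01f000c00001a03e311)) (.one (nat_lit 0x600000d020000c00001a040311))))) (.br (Nat.shiftLeft (nat_lit 0x700000d01f) (nat_lit 64)) (.br (Nat.shiftLeft (nat_lit 0x380000680f) (nat_lit 65)) (.one (nat_lit 0x700000d01d000e00001a03a311)) (.one (nat_lit 0x700000d01e000e00001a03c311))) (.br (Nat.shiftLeft (nat_lit 0x380000681) (nat_lit 69)) (.one (nat_lit 0x700000d01f000e00001a03e311)) (.br (Nat.shiftLeft (nat_lit 0x1)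 (nat_lit 103)) (.one (nat_lit 0x700000d020000e00001a040311)) (.one (nat_lit 0x800000d01d001000001a03a311))))))) (.br (Nat.shiftLeft (nat_lit 0x500000681) (nat_lit 69)) (.br (Nat.shiftLeft (nat_lit 0x900000d01f) (nat_lit 64)) (.br (Nat.shiftLeft (nat_lit 0x400000681) (nat_lit 69)) (.br (Nat.shiftLeft (nat_lit 0x800000d01f) (nat_lit 64)) (.one (nat_lit 0x800000d01e001000001a03c311)) (.one (nat_lit 0x800000d01f001000001a03e311))) (.br (Nat.shiftLeft (nat_lit 0x9) (nat_lit 100)) (.one (nat_lit 0x800000d020001000001a040311)) (.br (Nat.shiftLeft (nat_lit 0x480000680f) (nat_lit 65)) (.one (nat_lit 0x900000d01d001200001a03a311)) (.one (nat_lit 0x900000d01e001200001a03c311))))) (.br (Nat.shiftLeft (nat_lit 0x5) (nat_lit 101)) (.br (Nat.shiftLeft (nat_lit 0x480000681) (nat_lit 69)) (.one (nat_lit 0x900000d01f001200001a03e311)) (.one (nat_lit 0x900000d020001200001a040311))) (.br (Nat.shiftLeft (nat_lit 0x500000680f) (nat_lit 65)) (.one (nat_lit 0xa00000d01d001400001a03a311)) (.br (Nat.shiftLeft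 (nat_lit 0xa00000d01f) (nat_lit 64)) (.one (nat_lit 0xa00000d01e001400001a03c311)) (.one (nat_lit 0xa00000d01f001400001a03e311)))))) (.br (Nat.shiftLeft (nat_lit 0x3) (nat_lit 102)) (.br (Nat.shiftLeft (nat_lit 0x580000680f) (nat_lit 65)) (.br (Nat.shiftLeft (nat_lit 0xb) (nat_lit 100)) (.one (nat_lit 0xa00000d020001400001a040311)) (.one (nat_lit 0xb00000d01d001600001a03a311))) (.br (Nat.shiftLeft (nat_lit 0xb00000d01f) (nat_lit 64)) (.one (nat_lit 0xb00000d01e001600001a03c311)) (.br (Nat.shiftLeft (nat_lit 0x580000681) (nat_lit 69)) (.one (nat_lit 0xb00000d01f001600001a03e311)) (.one (nat_lit 0xb00000d020001600001a040311))))) (.br (Nat.shiftLeft (nat_lit 0xc00000d01f) (nat_lit 64)) (.br (Nat.shiftLeft (nat_lit 0x600000680f) (nat_lit 65)) (.one (nat_lit 0xc00000d01d001800001a03a311)) (.one (nat_lit 0xc00000d01e001800001a03c311))) (.br (Nat.shiftLeft (nat_lit 0x600000681) (nat_lit 69)) (.one (nat_lit 0xc00000d01f001800001a03e311)) (.br (Nat.shiftLeft (nat_lit 0xd) (nat_lit 100)) (.one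 (nat_lit 0xc00000d020001800001a040311)) (.one (nat_lit 0xd00000d01d001a00001a03a311))))))))
def t170 : k170.all (jb2 57 fl b0) = true := by decide +kernel
noncomputable def k171 : KT := (.br (Nat.shiftLeft (nat_lit 0xd00000d01f) (nat_lit 64)) (.one (nat_lit 0xd00000d01e001a00001a03c311)) (.one (nat_lit 0xd00000d01f001a00001a03e311)))
def t171 : k171.all (jb2 57 fl b0) = true := by decide +kernel
noncomputable def s8 : KT := (.br (nat_lit 0x400d01f000000801a03e430) (.br (nat_lit 0x300d01d000000601a03a430) (.br (nat_lit 0x100d01e000000201a03c430) k159 (.br (nat_lit 0x200d020000000401a040430) k160 k161)) (.br (nat_lit 0x300d01f000000601a03e430) k162 (.br (nat_lit 0x400d01d000000801a03a430) k163 k164))) (.br (nat_lit 0x600d01f000000c01a03e430) (.br (nat_lit 0x500d01d000000a01a03a430) k165 (.br (nat_lit 0x500d020000000a01a040430) k166 k167)) (.br (nat_lit 0x300000d01d000600001a03a311) (.br (nat_lit 0x700d020000000e01a040430) k168 k169) (.br (nat_lit 0xd00000d01d001a00001a03a311) k170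 k171))))
noncomputable def u8 : KT := (.br (Nat.shiftLeft (nat_lit 0x7) (nat_lit 77)) (.br (Nat.shiftLeft (nat_lit 0xd01f) (nat_lit 64)) (.br (Nat.shiftLeft (nat_lit 0x680f) (nat_lit 65)) (.one (nat_lit 0xd01d000000001a03a320)) (.one (nat_lit 0xd01e000000001a03c320))) (.br (Nat.shiftLeft (nat_lit 0x681) (nat_lit 69)) (.one (nat_lit 0xd01f000000001a03e320)) (.br (Nat.shiftLeft (nat_lit 0xd021) (nat_lit 64)) (.one (nat_lit 0xd020000000001a040320)) (.one (nat_lit 0xd021000000001a042320))))) (.br (Nat.shiftLeft (nat_lit 0x3805) (nat_lit 66)) (.br (Nat.shiftLeft (nat_lit 0xe013) (nat_lit 64)) (.one (nat_lit 0xe012000000001c025300)) (.one (nat_lit 0xe013000000001c027300))) (.br (Nat.shiftLeft (nat_lit 0xe015) (nat_lit 64)) (.one (nat_lit 0xe014000000001c029300)) (.br (Nat.shiftLeft (nat_lit 0x700b) (nat_lit 65)) (.one (nat_lit 0xe015000000001c02b300)) (.one (nat_lit 0xe016000000001c02d300))))))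
def w8 : u8.all (wj 57 s8) = true := by decide +kernel
def o8 : OkW 57 (jb2 57 fl) u8 := .lift s8 _ (.br _ _ _ (.br _ _ _ (.br _ _ _ (.leaf b0 k159 t159) (.br _ _ _ (.leaf b0 k160 t160) (.leaf b0 k161 t161))) (.br _ _ _ (.leaf b0 k162 t162) (.br _ _ _ (.leaf b0 k163 t163) (.leaf b0 k164 t164)))) (.br _ _ _ (.br _ _ _ (.leaf b0 k165 t165) (.br _ _ _ (.leaf b0 k166 t166) (.leaf b0 k167 t167))) (.br _ _ _ (.br _ _ _ (.leaf b0 k168 t168) (.leaf b0 k169 t169)) (.br _ _ _ (.leaf b0 k170 t170) (.leaf b0 k171 t171))))) w8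
noncomputable def k172 : KT := (.br (Nat.shiftLeft (nat_lit 0x5) (nat_lit 88)) (.br (Nat.shiftLeft (nat_lit 0x1) (nat_lit 89)) (.br (Nat.shiftLeft (nat_lit 0x1) (nat_lit 88)) (.one (nat_lit 0xe017000000001c02f300)) (.one (nat_lit 0x100e017000000201c02e430))) (.br (Nat.shiftLeft (nat_lit 0x3) (nat_lit 88)) (.one (nat_lit 0x200e017000000401c02e430)) (.br (Nat.shiftLeft (nat_lit 0x1) (nat_lit 90)) (.one (nat_lit 0x300e017000000601c02f400)) (.one (nat_lit 0x400e017000000801c02f400))))) (.br (Nat.shiftLeft (nat_lit 0x7) (nat_lit 88)) (.br (Nat.shiftLeft (nat_lit 0x3) (nat_lit 89)) (.one (nat_lit 0x500e017000000a01c02f400)) (.one (nat_lit 0x600e017000000c01c02f400))) (.br (Nat.shiftLeft (nat_lit 0x1) (nat_lit 91)) (.one (nat_lit 0x700e017000000e01c02f400)) (.br (Nat.shiftLeft (nat_lit 0x9) (nat_lit 88)) (.one (nat_lit 0x800e017000001001c02f400)) (.one (nat_lit 0x900e017000001201c02f400))))))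
def t172 : k172.all (jb2 57 fl b0) = true := by decide +kernel
noncomputable def k173 : KT := (.one (nat_lit 0xa00e017000001401c02e430))
def t173 : k173.all (jb2 57 fl b0) = true := by decide +kernel
noncomputable def k174 : KT := (.br (Nat.shiftLeft (nat_lit 0xd) (nat_lit 88)) (.br (Nat.shiftLeft (nat_lit 0x3) (nat_lit 90)) (.one (nat_lit 0xb00e017000001601c02e430)) (.one (nat_lit 0xc00e017000001801c02e430))) (.br (Nat.shiftLeft (nat_lit 0x1) (nat_lit 100)) (.one (nat_lit 0xd00e017000001a01c02e430)) (.one (nat_lit 0x100000e017000200001c02e311))))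
def t174 : k174.all (jb2 57 fl b0) = true := by decide +kernel
noncomputable def k175 : KT := (.br (Nat.shiftLeft (nat_lit 0x401) (nat_lit 90)) (.one (nat_lit 0x100300e017000200601c02e540)) (.one (nat_lit 0x100400e017000200801c02e540)))
def t175 : k175.all (jb2 57 fl b0) = true := by decide +kernel
noncomputable def k176 : KT := (.br (Nat.shiftLeft (nat_lit 0x803) (nat_lit 89)) (.one (nat_lit 0x100500e017000200a01c02e540)) (.one (nat_lit 0x100600e017000200c01c02e540)))
def t176 : k176.all (jb2 57 fl b0) = true := by decide +kernel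
noncomputable def k177 : KT := (.br (Nat.shiftLeft (nat_lit 0x1009) (nat_lit 88)) (.br (Nat.shiftLeft (nat_lit 0x201) (nat_lit 91)) (.one (nat_lit 0x100700e017000200e01c02e540)) (.one (nat_lit 0x100800e017000201001c02e540))) (.br (Nat.shiftLeft (nat_lit 0x1) (nat_lit 101)) (.one (nat_lit 0x100900e017000201201c02e540)) (.one (nat_lit 0x200000e017000400001c02e311))))
def t177 : k177.all (jb2 57 fl b0) = true := by decide +kernel
noncomputable def k178 : KT := (.one (nat_lit 0x200300e017000400601c02e540))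
def t178 : k178.all (jb2 57 fl b0) = true := by decide +kernel
noncomputable def k179 : KT := (.one (nat_lit 0x200400e017000400801c02e540))
def t179 : k179.all (jb2 57 fl b0) = true := by decide +kernel
noncomputable def k180 : KT := (.one (nat_lit 0x200500e017000400a01c02e540))
def t180 : k180.all (jb2 57 fl b0) = true := by decide +kernel
noncomputable def k181 : KT := (.br (Nat.shiftLeft (nat_lit 0x2007) (nat_lit 88)) (.one (nat_lit 0x200600e017000400c01c02e540)) (.one (nat_lit 0x200700e017000400e01c02e540)))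
def t181 : k181.all (jb2 57 fl b0) = true := by decide +kernel
noncomputable def k182 : KT := (.br (Nat.shiftLeft (nat_lit 0x3) (nat_lit 100)) (.br (Nat.shiftLeft (nat_lit 0x2009) (nat_lit 88)) (.one (nat_lit 0x200800e017000401001c02e540)) (.one (nat_lit 0x200900e017000401201c02e540))) (.br (Nat.shiftLeft (nat_lit 0xc01) (nat_lit 90)) (.one (nat_lit 0x300000e017000600001c02e311)) (.one (nat_lit 0x300400e017000600801c02f500))))
def t182 : k182.all (jb2 57 fl b0) = true := by decide +kernel
noncomputable def k183 : KT := (.one (nat_lit 0x300500e017000600a01c02e540))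
def t183 : k183.all (jb2 57 fl b0) = true := by decide +kernel
noncomputable def k184 : KT := (.br (Nat.shiftLeft (nat_lit 0x3007) (nat_lit 88)) (.one (nat_lit 0x300600e017000600c01c02e540)) (.one (nat_lit 0x300700e017000600e01c02e540)))
def t184 : k184.all (jb2 57 fl b0) = true := by decide +kernel
noncomputable def k185 : KT := (.br (Nat.shiftLeft (nat_lit 0x3009) (nat_lit 88)) (.one (nat_lit 0x300800e017000601001c02e540)) (.br (Nat.shiftLeft (nat_lit 0x1) (nat_lit 102)) (.one (nat_lit 0x300900e017000601201c02e540)) (.one (nat_lit 0x400000e017000800001c02e311))))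
def t185 : k185.all (jb2 57 fl b0) = true := by decide +kernel
noncomputable def k186 : KT := (.one (nat_lit 0x400500e017000800a01c02e540))
def t186 : k186.all (jb2 57 fl b0) = true := by decide +kernel
noncomputable def k187 : KT := (.br (Nat.shiftLeft (nat_lit 0x4007) (nat_lit 88)) (.one (nat_lit 0x400600e017000800c01c02e540)) (.one (nat_lit 0x400700e017000800e01c02e540)))
def t187 : k187.all (jb2 57 fl b0) = true := by decide +kernel
noncomputable def k188 : KT := (.br (Nat.shiftLeft (nat_lit 0x5) (nat_lit 100)) (.br (Nat.shiftLeft (nat_lit 0x4009) (nat_lit 88)) (.one (nat_lit 0x400800e017000801001c02e540)) (.one (nat_lit 0x400900e017000801201c02e540))) (.br (Nat.shiftLeft (nat_lit 0x1401) (nat_lit 90)) (.one (nat_lit 0x500000e017000a00001c02e311)) (.one (nat_lit 0x500600e017000a00c01c02e540))))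
def t188 : k188.all (jb2 57 fl b0) = true := by decide +kernel
noncomputable def k189 : KT := (.br (Nat.shiftLeft (nat_lit 0x1801) (nat_lit 90)) (.br (Nat.shiftLeft (nat_lit 0x5009) (nat_lit 88)) (.br (Nat.shiftLeft (nat_lit 0xa01) (nat_lit 91)) (.one (nat_lit 0x500700e017000a00e01c02e540)) (.one (nat_lit 0x500800e017000a01001c02e540))) (.br (Nat.shiftLeft (nat_lit 0x3) (nat_lit 101)) (.one (nat_lit 0x500900e017000a01201c02e540)) (.one (nat_lit 0x600000e017000c00001c02e311)))) (.br (Nat.shiftLeft (nat_lit 0x6009) (nat_lit 88)) (.br (Nat.shiftLeft (nat_lit 0xc01) (nat_lit 91)) (.one (nat_lit 0x600700e017000c00e01c02e540)) (.one (nat_lit 0x600800e017000c01001c02e540))) (.br (Nat.shiftLeft (nat_lit 0x7) (nat_lit 100)) (.one (nat_lit 0x600900e017000c01201c02e540)) (.one (nat_lit 0x700000e017000e00001c02e311)))))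
def t189 : k189.all (jb2 57 fl b0) = true := by decide +kernel
noncomputable def k190 : KT := (.br (Nat.shiftLeft (nat_lit 0x801) (nat_lit 101)) (.br (Nat.shiftLeft (nat_lit 0xd) (nat_lit 100)) (.br (Nat.shiftLeft (nat_lit 0x9) (nat_lit 100)) (.br (Nat.shiftLeft (nat_lit 0x1) (nat_lit 103)) (.br (Nat.shiftLeft (nat_lit 0x7009) (nat_lit 88)) (.one (nat_lit 0x700800e017000e01001c02e540)) (.one (nat_lit 0x700900e017000e01201c02e540))) (.br (Nat.shiftLeft (nat_lit 0x1001) (nat_lit 91)) (.one (nat_lit 0x800000e017001000001c02e311)) (.one (nat_lit 0x800900e017001001201c02e540)))) (.br (Nat.shiftLeft (nat_lit 0xb) (nat_lit 100)) (.br (Nat.shiftLeft (nat_lit 0x5) (nat_lit 101)) (.one (nat_lit 0x900000e017001200001c02e311)) (.one (nat_lit 0xa00000e017001400001c02e311))) (.br (Nat.shiftLeft (nat_lit 0x3) (nat_lit 102)) (.one (nat_lit 0xb00000e017001600001c02e311)) (.one (nat_lit 0xc00000e017001800001c02e311))))) (.br (Nat.shiftLeft (nat_lit 0x1000005) (nat_lit 88)) (.br (Nat.shiftLeft (nat_lit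 0x1) (nat_lit 112)) (.br (Nat.shiftLeft (nat_lit 0x7) (nat_lit 101)) (.one (nat_lit 0xd00000e017001a00001c02e311)) (.one (nat_lit 0xe00000e017001c00001c02e311))) (.br (Nat.shiftLeft (nat_lit 0x400001) (nat_lit 90)) (.one (nat_lit 0x100000300e017200000601c02e411)) (.one (nat_lit 0x100000400e017200000801c02e411)))) (.br (Nat.shiftLeft (nat_lit 0x1000007) (nat_lit 88)) (.br (Nat.shiftLeft (nat_lit 0x800003) (nat_lit 89)) (.one (nat_lit 0x100000500e017200000a01c02e411)) (.one (nat_lit 0x100000600e017200000c01c02e411))) (.br (Nat.shiftLeft (nat_lit 0x200001) (nat_lit 91)) (.one (nat_lit 0x100000700e017200000e01c02e411)) (.br (Nat.shiftLeft (nat_lit 0x1000009) (nat_lit 88)) (.one (nat_lit 0x100000800e017200001001c02e411)) (.one (nat_lit 0x100000900e017200001201c02e411))))))) (.br (Nat.shiftLeft (nat_lit 0x3) (nat_lit 112)) (.br (Nat.shiftLeft (nat_lit 0x1000003) (nat_lit 89)) (.br (Nat.shiftLeft (nat_lit 0x800001) (nat_lit 90)) (.br (Nat.shiftLeft (nat_lit 0x1) (nat_lit 113)) (.one (nat_lit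 0x100300400e017200600801c02e650)) (.one (nat_lit 0x200000300e017400000601c02e411))) (.br (Nat.shiftLeft (nat_lit 0x2000005) (nat_lit 88)) (.one (nat_lit 0x200000400e017400000801c02e411)) (.one (nat_lit 0x200000500e017400000a01c02e411)))) (.br (Nat.shiftLeft (nat_lit 0x400001) (nat_lit 91)) (.br (Nat.shiftLeft (nat_lit 0x2000007) (nat_lit 88)) (.one (nat_lit 0x200000600e017400000c01c02e411)) (.one (nat_lit 0x200000700e017400000e01c02e411))) (.br (Nat.shiftLeft (nat_lit 0x2000009) (nat_lit 88)) (.one (nat_lit 0x200000800e017400001001c02e411)) (.br (Nat.shiftLeft (nat_lit 0x1001) (nat_lit 101)) (.one (nat_lit 0x200000900e017400001201c02e411)) (.one (nat_lit 0x200300400e017400600801c02e650)))))) (.br (Nat.shiftLeft (nat_lit 0x3000007) (nat_lit 88)) (.br (Nat.shiftLeft (nat_lit 0x3000005) (nat_lit 88)) (.br (Nat.shiftLeft (nat_lit 0xc00001) (nat_lit 90)) (.one (nat_lit 0x300000300e017600000601c02e411)) (.one (nat_lit 0x300000400e017600000801c02e411))) (.br (Nat.shiftLeft (nat_lit 0x1800003)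 (nat_lit 89)) (.one (nat_lit 0x300000500e017600000a01c02e411)) (.one (nat_lit 0x300000600e017600000c01c02e411)))) (.br (Nat.shiftLeft (nat_lit 0x3000009) (nat_lit 88)) (.br (Nat.shiftLeft (nat_lit 0x600001) (nat_lit 91)) (.one (nat_lit 0x300000700e017600000e01c02e411)) (.one (nat_lit 0x300000800e017600001001c02e411))) (.br (Nat.shiftLeft (nat_lit 0x1) (nat_lit 114)) (.one (nat_lit 0x300000900e017600001201c02e411)) (.br (Nat.shiftLeft (nat_lit 0x1000001) (nat_lit 90)) (.one (nat_lit 0x400000300e017800000601c02e411)) (.one (nat_lit 0x400000400e017800000801c02e411))))))))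
def t190 : k190.all (jb2 57 fl b0) = true := by decide +kernel
noncomputable def k191 : KT := (.br (Nat.shiftLeft (nat_lit 0x1c00001) (nat_lit 90)) (.br (Nat.shiftLeft (nat_lit 0xa00001) (nat_lit 91)) (.br (Nat.shiftLeft (nat_lit 0x5) (nat_lit 112)) (.br (Nat.shiftLeft (nat_lit 0x4000007) (nat_lit 88)) (.br (Nat.shiftLeft (nat_lit 0x2000003) (nat_lit 89)) (.one (nat_lit 0x400000500e017800000a01c02e411)) (.one (nat_lit 0x400000600e017800000c01c02e411))) (.br (Nat.shiftLeft (nat_lit 0x800001) (nat_lit 91)) (.one (nat_lit 0x400000700e017800000e01c02e411)) (.br (Nat.shiftLeft (nat_lit 0x4000009) (nat_lit 88)) (.one (nat_lit 0x400000800e017800001001c02e411)) (.one (nat_lit 0x400000900e017800001201c02e411))))) (.br (Nat.shiftLeft (nat_lit 0x5000005) (nat_lit 88)) (.br (Nat.shiftLeft (nat_lit 0x1400001) (nat_lit 90)) (.one (nat_lit 0x500000300e017a00000601c02e411)) (.one (nat_lit 0x500000400e017a00000801c02e411))) (.br (Nat.shiftLeft (nat_lit 0x2800003) (nat_lit 89)) (.one (nat_lit 0x500000500e017a00000a01c02e411))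 (.br (Nat.shiftLeft (nat_lit 0x5000007) (nat_lit 88)) (.one (nat_lit 0x500000600e017a00000c01c02e411)) (.one (nat_lit 0x500000700e017a00000e01c02e411)))))) (.br (Nat.shiftLeft (nat_lit 0x3000003) (nat_lit 89)) (.br (Nat.shiftLeft (nat_lit 0x3) (nat_lit 113)) (.br (Nat.shiftLeft (nat_lit 0x5000009) (nat_lit 88)) (.one (nat_lit 0x500000800e017a00001001c02e411)) (.one (nat_lit 0x500000900e017a00001201c02e411))) (.br (Nat.shiftLeft (nat_lit 0x1800001) (nat_lit 90)) (.one (nat_lit 0x600000300e017c00000601c02e411)) (.br (Nat.shiftLeft (nat_lit 0x6000005) (nat_lit 88)) (.one (nat_lit 0x600000400e017c00000801c02e411)) (.one (nat_lit 0x600000500e017c00000a01c02e411))))) (.br (Nat.shiftLeft (nat_lit 0xc00001) (nat_lit 91)) (.br (Nat.shiftLeft (nat_lit 0x6000007) (nat_lit 88)) (.one (nat_lit 0x600000600e017c00000c01c02e411)) (.one (nat_lit 0x600000700e017c00000e01c02e411))) (.br (Nat.shiftLeft (nat_lit 0x6000009) (nat_lit 88)) (.one (nat_lit 0x600000800e017c00001001c02e411)) (.br (Nat.shiftLeft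 (nat_lit 0x7) (nat_lit 112)) (.one (nat_lit 0x600000900e017c00001201c02e411)) (.one (nat_lit 0x700000300e017e00000601c02e411))))))) (.br (Nat.shiftLeft (nat_lit 0x8000007) (nat_lit 88)) (.br (Nat.shiftLeft (nat_lit 0x7000009) (nat_lit 88)) (.br (Nat.shiftLeft (nat_lit 0x3800003) (nat_lit 89)) (.br (Nat.shiftLeft (nat_lit 0x7000005) (nat_lit 88)) (.one (nat_lit 0x700000400e017e00000801c02e411)) (.one (nat_lit 0x700000500e017e00000a01c02e411))) (.br (Nat.shiftLeft (nat_lit 0x7000007) (nat_lit 88)) (.one (nat_lit 0x700000600e017e00000c01c02e411)) (.br (Nat.shiftLeft (nat_lit 0xe00001) (nat_lit 91)) (.one (nat_lit 0x700000700e017e00000e01c02e411)) (.one (nat_lit 0x700000800e017e00001001c02e411))))) (.br (Nat.shiftLeft (nat_lit 0x2000001) (nat_lit 90)) (.br (Nat.shiftLeft (nat_lit 0x1) (nat_lit 115)) (.one (nat_lit 0x700000900e017e00001201c02e411)) (.one (nat_lit 0x800000300e017000000601c130411))) (.br (Nat.shiftLeft (nat_lit 0x8000005) (nat_lit 88)) (.one (nat_lit 0x800000400e017000000801c130411))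 (.br (Nat.shiftLeft (nat_lit 0x4000003) (nat_lit 89)) (.one (nat_lit 0x800000500e017000000a01c130411)) (.one (nat_lit 0x800000600e017000000c01c130411)))))) (.br (Nat.shiftLeft (nat_lit 0x9000005) (nat_lit 88)) (.br (Nat.shiftLeft (nat_lit 0x8000009) (nat_lit 88)) (.br (Nat.shiftLeft (nat_lit 0x1000001) (nat_lit 91)) (.one (nat_lit 0x800000700e017000000e01c130411)) (.one (nat_lit 0x800000800e017000001001c130411))) (.br (Nat.shiftLeft (nat_lit 0x9) (nat_lit 112)) (.one (nat_lit 0x800000900e017000001201c130411)) (.br (Nat.shiftLeft (nat_lit 0x2400001) (nat_lit 90)) (.one (nat_lit 0x900000300e017200000601c130411)) (.one (nat_lit 0x900000400e017200000801c130411))))) (.br (Nat.shiftLeft (nat_lit 0x9000007) (nat_lit 88)) (.br (Nat.shiftLeft (nat_lit 0x4800003) (nat_lit 89)) (.one (nat_lit 0x900000500e017200000a01c130411)) (.one (nat_lit 0x900000600e017200000c01c130411))) (.br (Nat.shiftLeft (nat_lit 0x1200001) (nat_lit 91)) (.one (nat_lit 0x900000700e017200000e01c130411)) (.br (Nat.shiftLeft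 (nat_lit 0x9000009) (nat_lit 88)) (.one (nat_lit 0x900000800e017200001001c130411)) (.one (nat_lit 0x900000900e017200001201c130411))))))))
def t191 : k191.all (jb2 57 fl b0) = true := by decide +kernel
noncomputable def k192 : KT := (.br (Nat.shiftLeft (nat_lit 0xd) (nat_lit 112)) (.br (Nat.shiftLeft (nat_lit 0x5800003) (nat_lit 89)) (.br (Nat.shiftLeft (nat_lit 0x1400001) (nat_lit 91)) (.br (Nat.shiftLeft (nat_lit 0xa000005) (nat_lit 88)) (.br (Nat.shiftLeft (nat_lit 0x2800001) (nat_lit 90)) (.one (nat_lit 0xa00000300e017400000601c130411)) (.one (nat_lit 0xa00000400e017400000801c130411))) (.br (Nat.shiftLeft (nat_lit 0x5000003) (nat_lit 89)) (.one (nat_lit 0xa00000500e017400000a01c130411)) (.br (Nat.shiftLeft (nat_lit 0xa000007) (nat_lit 88)) (.one (nat_lit 0xa00000600e017400000c01c130411)) (.one (nat_lit 0xa00000700e017400000e01c130411))))) (.br (Nat.shiftLeft (nat_lit 0xb) (nat_lit 112)) (.br (Nat.shiftLeft (nat_lit 0xa000009) (nat_lit 88)) (.one (nat_lit 0xa00000800e017400001001c130411))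 (.one (nat_lit 0xa00000900e017400001201c130411))) (.br (Nat.shiftLeft (nat_lit 0x2c00001) (nat_lit 90)) (.one (nat_lit 0xb00000300e017600000601c130411)) (.br (Nat.shiftLeft (nat_lit 0xb000005) (nat_lit 88)) (.one (nat_lit 0xb00000400e017600000801c130411)) (.one (nat_lit 0xb00000500e017600000a01c130411)))))) (.br (Nat.shiftLeft (nat_lit 0x3000001) (nat_lit 90)) (.br (Nat.shiftLeft (nat_lit 0x1600001) (nat_lit 91)) (.br (Nat.shiftLeft (nat_lit 0xb000007) (nat_lit 88)) (.one (nat_lit 0xb00000600e017600000c01c130411)) (.one (nat_lit 0xb00000700e017600000e01c130411))) (.br (Nat.shiftLeft (nat_lit 0xb000009) (nat_lit 88)) (.one (nat_lit 0xb00000800e017600001001c130411)) (.br (Nat.shiftLeft (nat_lit 0x3) (nat_lit 114)) (.one (nat_lit 0xb00000900e017600001201c130411)) (.one (nat_lit 0xc00000300e017800000601c130411))))) (.br (Nat.shiftLeft (nat_lit 0x6000003) (nat_lit 89)) (.br (Nat.shiftLeft (nat_lit 0xc000005) (nat_lit 88)) (.one (nat_lit 0xc00000400e017800000801c130411)) (.one (nat_lit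 0xc00000500e017800000a01c130411))) (.br (Nat.shiftLeft (nat_lit 0xc000007) (nat_lit 88)) (.one (nat_lit 0xc00000600e017800000c01c130411)) (.br (Nat.shiftLeft (nat_lit 0x1800001) (nat_lit 91)) (.one (nat_lit 0xc00000700e017800000e01c130411)) (.one (nat_lit 0xc00000800e017800001001c130411))))))) (.br (Nat.shiftLeft (nat_lit 0x1) (nat_lit 125)) (.br (Nat.shiftLeft (nat_lit 0x7) (nat_lit 113)) (.br (Nat.shiftLeft (nat_lit 0xd000005) (nat_lit 88)) (.br (Nat.shiftLeft (nat_lit 0x3400001) (nat_lit 90)) (.one (nat_lit 0xd00000300e017a00000601c130411)) (.one (nat_lit 0xd00000400e017a00000801c130411))) (.br (Nat.shiftLeft (nat_lit 0x6800003) (nat_lit 89)) (.one (nat_lit 0xd00000500e017a00000a01c130411)) (.br (Nat.shiftLeft (nat_lit 0xd000007) (nat_lit 88)) (.one (nat_lit 0xd00000600e017a00000c01c130411)) (.one (nat_lit 0xd00000700e017a00000e01c130411))))) (.br (Nat.shiftLeft (nat_lit 0xe000005) (nat_lit 88)) (.br (Nat.shiftLeft (nat_lit 0x3800001) (nat_lit 90)) (.one (nat_lit 0xe00000300e017c00000601c130411))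 (.one (nat_lit 0xe00000400e017c00000801c130411))) (.br (Nat.shiftLeft (nat_lit 0x7000003) (nat_lit 89)) (.one (nat_lit 0xe00000500e017c00000a01c130411)) (.br (Nat.shiftLeft (nat_lit 0x1) (nat_lit 124)) (.one (nat_lit 0xe00000600e017c00000c01c130411)) (.one (nat_lit 0x100000300400e017000600803c42e511)))))) (.br (Nat.shiftLeft (nat_lit 0x7) (nat_lit 124)) (.br (Nat.shiftLeft (nat_lit 0x1) (nat_lit 126)) (.br (Nat.shiftLeft (nat_lit 0x3) (nat_lit 124)) (.one (nat_lit 0x200000300400e017000600805c82e511)) (.one (nat_lit 0x300000300400e017000600807cc2e511))) (.br (Nat.shiftLeft (nat_lit 0x5) (nat_lit 124)) (.one (nat_lit 0x400000300400e017000600809d02e511)) (.br (Nat.shiftLeft (nat_lit 0x3) (nat_lit 125)) (.one (nat_lit 0x500000300400e01700060080bd42e511)) (.one (nat_lit 0x600000300400e01700060080dd82e511))))) (.br (Nat.shiftLeft (nat_lit 0x9) (nat_lit 124)) (.br (Nat.shiftLeft (nat_lit 0x1) (nat_lit 127)) (.one (nat_lit 0x700000300400e01700060080fdc2e511)) (.one (nat_lit 0x800000300400e017000600811e02e511)))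 (.br (Nat.shiftLeft (nat_lit 0x5) (nat_lit 125)) (.one (nat_lit 0x900000300400e017000600813e42e511)) (.br (Nat.shiftLeft (nat_lit 0xb) (nat_lit 124)) (.one (nat_lit 0xa00000300400e017000600815e82e511)) (.one (nat_lit 0xb00000300400e017000600817ec2e511))))))))
def t192 : k192.all (jb2 57 fl b0) = true := by decide +kernel
noncomputable def k193 : KT := (.br (Nat.shiftLeft (nat_lit 0xd) (nat_lit 124)) (.one (nat_lit 0xc00000300400e017000600819f02e511)) (.one (nat_lit 0xd00000300400e01700060081bf42e511)))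
def t193 : k193.all (jb2 57 fl b0) = true := by decide +kernel
noncomputable def s9 : KT := (.br (nat_lit 0x300400e017000600801c02f500) (.br (nat_lit 0x100600e017000200c01c02e540) (.br (nat_lit 0xa00e017000001401c02e430) (.br (nat_lit 0x900e017000001201c02f400) k172 k173) (.br (nat_lit 0x100000e017000200001c02e311) k174 (.br (nat_lit 0x100400e017000200801c02e540) k175 k176))) (.br (nat_lit 0x200400e017000400801c02e540) (.br (nat_lit 0x200000e017000400001c02e311) k177 (.br (nat_lit 0x200300e017000400601c02e540) k178 k179)) (.br (nat_lit 0x200500e017000400a01c02e540) k180 (.br (nat_lit 0x200700e017000400e01c02e540) k181 k182)))) (.br (nat_lit 0x400700e017000800e01c02e540) (.br (nat_lit 0x300700e017000600e01c02e540) (.br (nat_lit 0x300500e017000600a01c02e540) k183 k184) (.br (nat_lit 0x400000e017000800001c02e311) k185 (.br (nat_lit 0x400500e017000800a01c02e540) k186 k187))) (.br (nat_lit 0x400000400e017800000801c02e411) (.br (nat_lit 0x500600e017000a00c01c02e540) k188 (.br (nat_lit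 0x700000e017000e00001c02e311) k189 k190)) (.br (nat_lit 0x900000900e017200001201c130411) k191 (.br (nat_lit 0xb00000300400e017000600817ec2e511) k192 k193)))))
noncomputable def u9 : KT := (.one (nat_lit 0xe017000000001c02e320))
def w9 : u9.all (wj 57 s9) = true := by decide +kernel
def o9 : OkW 57 (jb2 57 fl) u9 := .lift s9 _ (.br _ _ _ (.br _ _ _ (.br _ _ _ (.br _ _ _ (.leaf b0 k172 t172) (.leaf b0 k173 t173)) (.br _ _ _ (.leaf b0 k174 t174) (.br _ _ _ (.leaf b0 k175 t175) (.leaf b0 k176 t176)))) (.br _ _ _ (.br _ _ _ (.leaf b0 k177 t177) (.br _ _ _ (.leaf b0 k178 t178) (.leaf b0 k179 t179))) (.br _ _ _ (.leaf b0 k180 t180) (.br _ _ _ (.leaf b0 k181 t181) (.leaf b0 k182 t182))))) (.br _ _ _ (.br _ _ _ (.br _ _ _ (.leaf b0 k183 t183) (.leaf b0 k184 t184)) (.br _ _ _ (.leaf b0 k185 t185) (.br _ _ _ (.leaf b0 k186 t186) (.leaf b0 k187 t187)))) (.br _ _ _ (.br _ _ _ (.leaf b0 k188 t188) (.br _ _ _ (.leaf b0 k189 t189) (.leaf b0 k190 t190))) (.br _ _ _ (.leaf b0 k191 t191) (.br _ _ _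 (.leaf b0 k192 t192) (.leaf b0 k193 t193)))))) w9
noncomputable def k194 : KT := (.br (Nat.shiftLeft (nat_lit 0x1) (nat_lit 90)) (.br (Nat.shiftLeft (nat_lit 0x1) (nat_lit 89)) (.br (Nat.shiftLeft (nat_lit 0x1) (nat_lit 88)) (.one (nat_lit 0xe018000000001c031300)) (.one (nat_lit 0x100e018000000201c030430))) (.br (Nat.shiftLeft (nat_lit 0x3) (nat_lit 88)) (.one (nat_lit 0x200e018000000401c030430)) (.one (nat_lit 0x300e018000000601c031400)))) (.br (Nat.shiftLeft (nat_lit 0x3) (nat_lit 89)) (.br (Nat.shiftLeft (nat_lit 0x5) (nat_lit 88)) (.one (nat_lit 0x400e018000000801c031400)) (.one (nat_lit 0x500e018000000a01c031400))) (.br (Nat.shiftLeft (nat_lit 0x7) (nat_lit 88)) (.one (nat_lit 0x600e018000000c01c031400)) (.br (Nat.shiftLeft (nat_lit 0x1) (nat_lit 91)) (.one (nat_lit 0x700e018000000e01c031400)) (.one (nat_lit 0x800e018000001001c031400))))))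
def t194 : k194.all (jb2 57 fl b0) = true := by decide +kernel
noncomputable def k195 : KT := (.one (nat_lit 0x900e018000001201c030430))
def t195 : k195.all (jb2 57 fl b0) = true := by decide +kernel
noncomputable def k196 : KT := (.br (Nat.shiftLeft (nat_lit 0xb) (nat_lit 88)) (.one (nat_lit 0xa00e018000001401c030430)) (.br (Nat.shiftLeft (nat_lit 0x3) (nat_lit 90)) (.one (nat_lit 0xb00e018000001601c030430)) (.one (nat_lit 0xc00e018000001801c030430))))
def t196 : k196.all (jb2 57 fl b0) = true := by decide +kernel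
noncomputable def k197 : KT := (.br (Nat.shiftLeft (nat_lit 0x801) (nat_lit 89)) (.br (Nat.shiftLeft (nat_lit 0x1) (nat_lit 100)) (.one (nat_lit 0xd00e018000001a01c030430)) (.one (nat_lit 0x100000e018000200001c030311))) (.br (Nat.shiftLeft (nat_lit 0x401) (nat_lit 90)) (.one (nat_lit 0x100300e018000200601c030540)) (.one (nat_lit 0x100400e018000200801c030540))))
def t197 : k197.all (jb2 57 fl b0) = true := by decide +kernel
noncomputable def k198 : KT := (.br (Nat.shiftLeft (nat_lit 0x1007) (nat_lit 88)) (.br (Nat.shiftLeft (nat_lit 0x803) (nat_lit 89)) (.one (nat_lit 0x100500e018000200a01c030540)) (.one (nat_lit 0x100600e018000200c01c030540))) (.br (Nat.shiftLeft (nat_lit 0x201) (nat_lit 91)) (.one (nat_lit 0x100700e018000200e01c030540)) (.br (Nat.shiftLeft (nat_lit 0x1) (nat_lit 101)) (.one (nat_lit 0x100800e018000201001c030540)) (.one (nat_lit 0x200000e018000400001c030311)))))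
def t198 : k198.all (jb2 57 fl b0) = true := by decide +kernel
noncomputable def k199 : KT := (.one (nat_lit 0x200300e018000400601c030540))
def t199 : k199.all (jb2 57 fl b0) = true := by decide +kernel
noncomputable def k200 : KT := (.one (nat_lit 0x200400e018000400801c030540))
def t200 : k200.all (jb2 57 fl b0) = true := by decide +kernel
noncomputable def k201 : KT := (.br (Nat.shiftLeft (nat_lit 0x1003) (nat_lit 89)) (.one (nat_lit 0x200500e018000400a01c030540)) (.one (nat_lit 0x200600e018000400c01c030540)))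
def t201 : k201.all (jb2 57 fl b0) = true := by decide +kernel
noncomputable def k202 : KT := (.br (Nat.shiftLeft (nat_lit 0x401) (nat_lit 91)) (.one (nat_lit 0x200700e018000400e01c030540)) (.br (Nat.shiftLeft (nat_lit 0x3) (nat_lit 100)) (.one (nat_lit 0x200800e018000401001c030540)) (.one (nat_lit 0x300000e018000600001c030311))))
def t202 : k202.all (jb2 57 fl b0) = true := by decide +kernel
noncomputable def k203 : KT := (.one (nat_lit 0x300400e018000600801c030540))
def t203 : k203.all (jb2 57 fl b0) = true := by decide +kernel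
noncomputable def k204 : KT := (.br (Nat.shiftLeft (nat_lit 0x1803) (nat_lit 89)) (.one (nat_lit 0x300500e018000600a01c030540)) (.one (nat_lit 0x300600e018000600c01c030540)))
def t204 : k204.all (jb2 57 fl b0) = true := by decide +kernel
noncomputable def k205 : KT := (.br (Nat.shiftLeft (nat_lit 0x1) (nat_lit 102)) (.br (Nat.shiftLeft (nat_lit 0x601) (nat_lit 91)) (.one (nat_lit 0x300700e018000600e01c030540)) (.one (nat_lit 0x300800e018000601001c030540))) (.br (Nat.shiftLeft (nat_lit 0x1001) (nat_lit 90)) (.one (nat_lit 0x400000e018000800001c030311)) (.one (nat_lit 0x400500e018000800a01c030540))))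
def t205 : k205.all (jb2 57 fl b0) = true := by decide +kernel
noncomputable def k206 : KT := (.br (Nat.shiftLeft (nat_lit 0x801) (nat_lit 91)) (.br (Nat.shiftLeft (nat_lit 0x4007) (nat_lit 88)) (.one (nat_lit 0x400600e018000800c01c030540)) (.one (nat_lit 0x400700e018000800e01c030540))) (.br (Nat.shiftLeft (nat_lit 0x5) (nat_lit 100)) (.one (nat_lit 0x400800e018000801001c030540)) (.one (nat_lit 0x500000e018000a00001c030311))))
def t206 : k206.all (jb2 57 fl b0) = true := by decide +kernel
noncomputable def k207 : KT := (.br (Nat.shiftLeft (nat_lit 0x1000005) (nat_lit 88)) (.br (Nat.shiftLeft (nat_lit 0x1) (nat_lit 103)) (.br (Nat.shiftLeft (nat_lit 0x1801) (nat_lit 90)) (.br (Nat.shiftLeft (nat_lit 0xa01) (nat_lit 91)) (.br (Nat.shiftLeft (nat_lit 0x5007) (nat_lit 88)) (.one (nat_lit 0x500600e018000a00c01c030540)) (.one (nat_lit 0x500700e018000a00e01c030540))) (.br (Nat.shiftLeft (nat_lit 0x3) (nat_lit 101)) (.one (nat_lit 0x500800e018000a01001c030540)) (.one (nat_lit 0x600000e018000c00001c030311))))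 (.br (Nat.shiftLeft (nat_lit 0x7) (nat_lit 100)) (.br (Nat.shiftLeft (nat_lit 0xc01) (nat_lit 91)) (.one (nat_lit 0x600700e018000c00e01c030540)) (.one (nat_lit 0x600800e018000c01001c030540))) (.br (Nat.shiftLeft (nat_lit 0xe01) (nat_lit 91)) (.one (nat_lit 0x700000e018000e00001c030311)) (.one (nat_lit 0x700800e018000e01001c030540))))) (.br (Nat.shiftLeft (nat_lit 0x3) (nat_lit 102)) (.br (Nat.shiftLeft (nat_lit 0x5) (nat_lit 101)) (.br (Nat.shiftLeft (nat_lit 0x9) (nat_lit 100)) (.one (nat_lit 0x800000e018001000001c030311)) (.one (nat_lit 0x900000e018001200001c030311))) (.br (Nat.shiftLeft (nat_lit 0xb) (nat_lit 100)) (.one (nat_lit 0xa00000e018001400001c030311)) (.one (nat_lit 0xb00000e018001600001c030311)))) (.br (Nat.shiftLeft (nat_lit 0x7) (nat_lit 101)) (.br (Nat.shiftLeft (nat_lit 0xd) (nat_lit 100)) (.one (nat_lit 0xc00000e018001800001c030311)) (.one (nat_lit 0xd00000e018001a00001c030311))) (.br (Nat.shiftLeft (nat_lit 0x1) (nat_lit 112)) (.one (nat_lit 0xe00000e018001c00001c030311))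 (.br (Nat.shiftLeft (nat_lit 0x400001) (nat_lit 90)) (.one (nat_lit 0x100000300e018200000601c030411)) (.one (nat_lit 0x100000400e018200000801c030411))))))) (.br (Nat.shiftLeft (nat_lit 0x400001) (nat_lit 91)) (.br (Nat.shiftLeft (nat_lit 0x1) (nat_lit 113)) (.br (Nat.shiftLeft (nat_lit 0x1000007) (nat_lit 88)) (.br (Nat.shiftLeft (nat_lit 0x800003) (nat_lit 89)) (.one (nat_lit 0x100000500e018200000a01c030411)) (.one (nat_lit 0x100000600e018200000c01c030411))) (.br (Nat.shiftLeft (nat_lit 0x200001) (nat_lit 91)) (.one (nat_lit 0x100000700e018200000e01c030411)) (.one (nat_lit 0x100000800e018200001001c030411)))) (.br (Nat.shiftLeft (nat_lit 0x2000005) (nat_lit 88)) (.br (Nat.shiftLeft (nat_lit 0x800001) (nat_lit 90)) (.one (nat_lit 0x200000300e018400000601c030411)) (.one (nat_lit 0x200000400e018400000801c030411))) (.br (Nat.shiftLeft (nat_lit 0x1000003) (nat_lit 89)) (.one (nat_lit 0x200000500e018400000a01c030411)) (.br (Nat.shiftLeft (nat_lit 0x2000007) (nat_lit 88)) (.one (nat_lit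 0x200000600e018400000c01c030411)) (.one (nat_lit 0x200000700e018400000e01c030411)))))) (.br (Nat.shiftLeft (nat_lit 0x1800003) (nat_lit 89)) (.br (Nat.shiftLeft (nat_lit 0xc00001) (nat_lit 90)) (.br (Nat.shiftLeft (nat_lit 0x3) (nat_lit 112)) (.one (nat_lit 0x200000800e018400001001c030411)) (.one (nat_lit 0x300000300e018600000601c030411))) (.br (Nat.shiftLeft (nat_lit 0x3000005) (nat_lit 88)) (.one (nat_lit 0x300000400e018600000801c030411)) (.one (nat_lit 0x300000500e018600000a01c030411)))) (.br (Nat.shiftLeft (nat_lit 0x600001) (nat_lit 91)) (.br (Nat.shiftLeft (nat_lit 0x3000007) (nat_lit 88)) (.one (nat_lit 0x300000600e018600000c01c030411)) (.one (nat_lit 0x300000700e018600000e01c030411))) (.br (Nat.shiftLeft (nat_lit 0x1) (nat_lit 114)) (.one (nat_lit 0x300000800e018600001001c030411)) (.br (Nat.shiftLeft (nat_lit 0x1000001) (nat_lit 90)) (.one (nat_lit 0x400000300e018800000601c030411)) (.one (nat_lit 0x400000400e018800000801c030411))))))))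
def t207 : k207.all (jb2 57 fl b0) = true := by decide +kernel
noncomputable def k208 : KT := (.br (Nat.shiftLeft (nat_lit 0x7000007) (nat_lit 88)) (.br (Nat.shiftLeft (nat_lit 0x3) (nat_lit 113)) (.br (Nat.shiftLeft (nat_lit 0x1400001) (nat_lit 90)) (.br (Nat.shiftLeft (nat_lit 0x4000007) (nat_lit 88)) (.br (Nat.shiftLeft (nat_lit 0x2000003) (nat_lit 89)) (.one (nat_lit 0x400000500e018800000a01c030411)) (.one (nat_lit 0x400000600e018800000c01c030411))) (.br (Nat.shiftLeft (nat_lit 0x800001) (nat_lit 91)) (.one (nat_lit 0x400000700e018800000e01c030411)) (.br (Nat.shiftLeft (nat_lit 0x5) (nat_lit 112)) (.one (nat_lit 0x400000800e018800001001c030411)) (.one (nat_lit 0x500000300e018a00000601c030411))))) (.br (Nat.shiftLeft (nat_lit 0x2800003) (nat_lit 89)) (.br (Nat.shiftLeft (nat_lit 0x5000005) (nat_lit 88)) (.one (nat_lit 0x500000400e018a00000801c030411)) (.one (nat_lit 0x500000500e018a00000a01c030411))) (.br (Nat.shiftLeft (nat_lit 0x5000007) (nat_lit 88)) (.one (nat_lit 0x500000600e018a00000c01c030411))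 (.br (Nat.shiftLeft (nat_lit 0xa00001) (nat_lit 91)) (.one (nat_lit 0x500000700e018a00000e01c030411)) (.one (nat_lit 0x500000800e018a00001001c030411)))))) (.br (Nat.shiftLeft (nat_lit 0xc00001) (nat_lit 91)) (.br (Nat.shiftLeft (nat_lit 0x6000005) (nat_lit 88)) (.br (Nat.shiftLeft (nat_lit 0x1800001) (nat_lit 90)) (.one (nat_lit 0x600000300e018c00000601c030411)) (.one (nat_lit 0x600000400e018c00000801c030411))) (.br (Nat.shiftLeft (nat_lit 0x3000003) (nat_lit 89)) (.one (nat_lit 0x600000500e018c00000a01c030411)) (.br (Nat.shiftLeft (nat_lit 0x6000007) (nat_lit 88)) (.one (nat_lit 0x600000600e018c00000c01c030411)) (.one (nat_lit 0x600000700e018c00000e01c030411))))) (.br (Nat.shiftLeft (nat_lit 0x1c00001) (nat_lit 90)) (.br (Nat.shiftLeft (nat_lit 0x7) (nat_lit 112)) (.one (nat_lit 0x600000800e018c00001001c030411)) (.one (nat_lit 0x700000300e018e00000601c030411))) (.br (Nat.shiftLeft (nat_lit 0x7000005) (nat_lit 88)) (.one (nat_lit 0x700000400e018e00000801c030411)) (.br (Nat.shiftLeft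 (nat_lit 0x3800003) (nat_lit 89)) (.one (nat_lit 0x700000500e018e00000a01c030411)) (.one (nat_lit 0x700000600e018e00000c01c030411))))))) (.br (Nat.shiftLeft (nat_lit 0x9000005) (nat_lit 88)) (.br (Nat.shiftLeft (nat_lit 0x4000003) (nat_lit 89)) (.br (Nat.shiftLeft (nat_lit 0x1) (nat_lit 115)) (.br (Nat.shiftLeft (nat_lit 0xe00001) (nat_lit 91)) (.one (nat_lit 0x700000700e018e00000e01c030411)) (.one (nat_lit 0x700000800e018e00001001c030411))) (.br (Nat.shiftLeft (nat_lit 0x2000001) (nat_lit 90)) (.one (nat_lit 0x800000300e018000000601c132411)) (.br (Nat.shiftLeft (nat_lit 0x8000005) (nat_lit 88)) (.one (nat_lit 0x800000400e018000000801c132411)) (.one (nat_lit 0x800000500e018000000a01c132411))))) (.br (Nat.shiftLeft (nat_lit 0x1000001) (nat_lit 91)) (.br (Nat.shiftLeft (nat_lit 0x8000007) (nat_lit 88)) (.one (nat_lit 0x800000600e018000000c01c132411)) (.one (nat_lit 0x800000700e018000000e01c132411))) (.br (Nat.shiftLeft (nat_lit 0x9) (nat_lit 112)) (.one (nat_lit 0x800000800e018000001001c132411))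 (.br (Nat.shiftLeft (nat_lit 0x2400001) (nat_lit 90)) (.one (nat_lit 0x900000300e018200000601c132411)) (.one (nat_lit 0x900000400e018200000801c132411)))))) (.br (Nat.shiftLeft (nat_lit 0x2800001) (nat_lit 90)) (.br (Nat.shiftLeft (nat_lit 0x9000007) (nat_lit 88)) (.br (Nat.shiftLeft (nat_lit 0x4800003) (nat_lit 89)) (.one (nat_lit 0x900000500e018200000a01c132411)) (.one (nat_lit 0x900000600e018200000c01c132411))) (.br (Nat.shiftLeft (nat_lit 0x1200001) (nat_lit 91)) (.one (nat_lit 0x900000700e018200000e01c132411)) (.br (Nat.shiftLeft (nat_lit 0x5) (nat_lit 113)) (.one (nat_lit 0x900000800e018200001001c132411)) (.one (nat_lit 0xa00000300e018400000601c132411))))) (.br (Nat.shiftLeft (nat_lit 0x5000003) (nat_lit 89)) (.br (Nat.shiftLeft (nat_lit 0xa000005) (nat_lit 88)) (.one (nat_lit 0xa00000400e018400000801c132411)) (.one (nat_lit 0xa00000500e018400000a01c132411))) (.br (Nat.shiftLeft (nat_lit 0xa000007) (nat_lit 88)) (.one (nat_lit 0xa00000600e018400000c01c132411)) (.br (Nat.shiftLeft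 (nat_lit 0x1400001) (nat_lit 91)) (.one (nat_lit 0xa00000700e018400000e01c132411)) (.one (nat_lit 0xa00000800e018400001001c132411))))))))
def t208 : k208.all (jb2 57 fl b0) = true := by decide +kernel
noncomputable def k209 : KT := (.br (Nat.shiftLeft (nat_lit 0x6000003) (nat_lit 89)) (.br (Nat.shiftLeft (nat_lit 0xb000007) (nat_lit 88)) (.br (Nat.shiftLeft (nat_lit 0xb000005) (nat_lit 88)) (.br (Nat.shiftLeft (nat_lit 0x2c00001) (nat_lit 90)) (.one (nat_lit 0xb00000300e018600000601c132411)) (.one (nat_lit 0xb00000400e018600000801c132411))) (.br (Nat.shiftLeft (nat_lit 0x5800003) (nat_lit 89)) (.one (nat_lit 0xb00000500e018600000a01c132411)) (.one (nat_lit 0xb00000600e018600000c01c132411)))) (.br (Nat.shiftLeft (nat_lit 0x3) (nat_lit 114)) (.br (Nat.shiftLeft (nat_lit 0x1600001) (nat_lit 91)) (.one (nat_lit 0xb00000700e018600000e01c132411)) (.one (nat_lit 0xb00000800e018600001001c132411))) (.br (Nat.shiftLeft (nat_lit 0x3000001) (nat_lit 90)) (.one (nat_lit 0xc00000300e018800000601c132411))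 (.br (Nat.shiftLeft (nat_lit 0xc000005) (nat_lit 88)) (.one (nat_lit 0xc00000400e018800000801c132411)) (.one (nat_lit 0xc00000500e018800000a01c132411)))))) (.br (Nat.shiftLeft (nat_lit 0xd000005) (nat_lit 88)) (.br (Nat.shiftLeft (nat_lit 0xd) (nat_lit 112)) (.br (Nat.shiftLeft (nat_lit 0xc000007) (nat_lit 88)) (.one (nat_lit 0xc00000600e018800000c01c132411)) (.one (nat_lit 0xc00000700e018800000e01c132411))) (.br (Nat.shiftLeft (nat_lit 0x3400001) (nat_lit 90)) (.one (nat_lit 0xd00000300e018a00000601c132411)) (.one (nat_lit 0xd00000400e018a00000801c132411)))) (.br (Nat.shiftLeft (nat_lit 0x7) (nat_lit 113)) (.br (Nat.shiftLeft (nat_lit 0x6800003) (nat_lit 89)) (.one (nat_lit 0xd00000500e018a00000a01c132411)) (.one (nat_lit 0xd00000600e018a00000c01c132411))) (.br (Nat.shiftLeft (nat_lit 0x3800001) (nat_lit 90)) (.one (nat_lit 0xe00000300e018c00000601c132411)) (.br (Nat.shiftLeft (nat_lit 0xe000005) (nat_lit 88)) (.one (nat_lit 0xe00000400e018c00000801c132411)) (.one (nat_lit 0xe00000500e018c00000a01c132411)))))))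
def t209 : k209.all (jb2 57 fl b0) = true := by decide +kernel
noncomputable def s10 : KT := (.br (nat_lit 0x200600e018000400c01c030540) (.br (nat_lit 0x100400e018000200801c030540) (.br (nat_lit 0x900e018000001201c030430) (.br (nat_lit 0x800e018000001001c031400) k194 k195) (.br (nat_lit 0xc00e018000001801c030430) k196 k197)) (.br (nat_lit 0x200300e018000400601c030540) (.br (nat_lit 0x200000e018000400001c030311) k198 k199) (.br (nat_lit 0x200400e018000400801c030540) k200 k201))) (.br (nat_lit 0x400500e018000800a01c030540) (.br (nat_lit 0x300400e018000600801c030540) (.br (nat_lit 0x300000e018000600001c030311) k202 k203) (.br (nat_lit 0x300600e018000600c01c030540) k204 k205)) (.br (nat_lit 0x400000400e018800000801c030411) (.br (nat_lit 0x500000e018000a00001c030311) k206 k207) (.br (nat_lit 0xa00000800e018400001001c132411) k208 k209))))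
noncomputable def u10 : KT := (.one (nat_lit 0xe018000000001c030320))
def w10 : u10.all (wj 57 s10) = true := by decide +kernel
def o10 : OkW 57 (jb2 57 fl) u10 := .lift s10 _ (.br _ _ _ (.br _ _ _ (.br _ _ _ (.br _ _ _ (.leaf b0 k194 t194) (.leaf b0 k195 t195)) (.br _ _ _ (.leaf b0 k196 t196) (.leaf b0 k197 t197))) (.br _ _ _ (.br _ _ _ (.leaf b0 k198 t198) (.leaf b0 k199 t199)) (.br _ _ _ (.leaf b0 k200 t200) (.leaf b0 k201 t201)))) (.br _ _ _ (.br _ _ _ (.br _ _ _ (.leaf b0 k202 t202) (.leaf b0 k203 t203)) (.br _ _ _ (.leaf b0 k204 t204) (.leaf b0 k205 t205))) (.br _ _ _ (.br _ _ _ (.leaf b0 k206 t206) (.leaf b0 k207 t207)) (.br _ _ _ (.leaf b0 k208 t208) (.leaf b0 k209 t209))))) w10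
noncomputable def k210 : KT := (.br (Nat.shiftLeft (nat_lit 0x80700d) (nat_lit 65)) (.br (Nat.shiftLeft (nat_lit 0x700d) (nat_lit 65)) (.one (nat_lit 0xe019000000001c033300)) (.br (Nat.shiftLeft (nat_lit 0x1) (nat_lit 88)) (.one (nat_lit 0xe01a000000001c035300)) (.one (nat_lit 0x100e019000000201c032430)))) (.br (Nat.shiftLeft (nat_lit 0x100700d) (nat_lit 65)) (.br (Nat.shiftLeft (nat_lit 0x1) (nat_lit 89)) (.one (nat_lit 0x100e01a000000201c034430)) (.one (nat_lit 0x200e019000000401c032430))) (.br (Nat.shiftLeft (nat_lit 0x3) (nat_lit 88)) (.one (nat_lit 0x200e01a000000401c034430)) (.one (nat_lit 0x300e019000000601c033400)))))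
def t210 : k210.all (jb2 57 fl b0) = true := by decide +kernel
noncomputable def k211 : KT := (.br (Nat.shiftLeft (nat_lit 0x5) (nat_lit 88)) (.br (Nat.shiftLeft (nat_lit 0x1) (nat_lit 90)) (.one (nat_lit 0x300e01a000000601c034430)) (.br (Nat.shiftLeft (nat_lit 0x200700d) (nat_lit 65)) (.one (nat_lit 0x400e019000000801c033400)) (.one (nat_lit 0x400e01a000000801c035400)))) (.br (Nat.shiftLeft (nat_lit 0x280700d) (nat_lit 65)) (.one (nat_lit 0x500e019000000a01c033400)) (.br (Nat.shiftLeft (nat_lit 0x3) (nat_lit 89)) (.one (nat_lit 0x500e01a000000a01c035400)) (.one (nat_lit 0x600e019000000c01c033400)))))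
def t211 : k211.all (jb2 57 fl b0) = true := by decide +kernel
noncomputable def k212 : KT := (.br (Nat.shiftLeft (nat_lit 0x7) (nat_lit 88)) (.one (nat_lit 0x600e01a000000c01c034430)) (.one (nat_lit 0x700e019000000e01c033400)))
def t212 : k212.all (jb2 57 fl b0) = true := by decide +kernel
noncomputable def k213 : KT := (.one (nat_lit 0x700e01a000000e01c034430))
def t213 : k213.all (jb2 57 fl b0) = true := by decide +kernel
noncomputable def k214 : KT := (.one (nat_lit 0x800e019000001001c032430))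
def t214 : k214.all (jb2 57 fl b0) = true := by decide +kernel
noncomputable def k215 : KT := (.br (Nat.shiftLeft (nat_lit 0x9) (nat_lit 88)) (.one (nat_lit 0x800e01a000001001c034430)) (.one (nat_lit 0x900e019000001201c032430)))
def t215 : k215.all (jb2 57 fl b0) = true := by decide +kernel
noncomputable def k216 : KT := (.br (Nat.shiftLeft (nat_lit 0x5) (nat_lit 89)) (.one (nat_lit 0x900e01a000001201c034430)) (.br (Nat.shiftLeft (nat_lit 0x500700d) (nat_lit 65)) (.one (nat_lit 0xa00e019000001401c032430)) (.one (nat_lit 0xa00e01a000001401c034430))))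
def t216 : k216.all (jb2 57 fl b0) = true := by decide +kernel
noncomputable def k217 : KT := (.br (Nat.shiftLeft (nat_lit 0xd) (nat_lit 88)) (.br (Nat.shiftLeft (nat_lit 0x3) (nat_lit 90)) (.br (Nat.shiftLeft (nat_lit 0x580700d) (nat_lit 65)) (.one (nat_lit 0xb00e019000001601c032430)) (.one (nat_lit 0xb00e01a000001601c034430))) (.br (Nat.shiftLeft (nat_lit 0x600700d) (nat_lit 65)) (.one (nat_lit 0xc00e019000001801c032430)) (.one (nat_lit 0xc00e01a000001801c034430)))) (.br (Nat.shiftLeft (nat_lit 0x1) (nat_lit 100)) (.br (Nat.shiftLeft (nat_lit 0x680700d) (nat_lit 65)) (.one (nat_lit 0xd00e019000001a01c032430)) (.one (nat_lit 0xd00e01a000001a01c034430))) (.br (Nat.shiftLeft (nat_lit 0x80000700d) (nat_lit 65)) (.one (nat_lit 0x100000e019000200001c032311)) (.br (Nat.shiftLeft (nat_lit 0x801) (nat_lit 89)) (.one (nat_lit 0x100000e01a000200001c034311)) (.one (nat_lit 0x100300e019000200601c032540))))))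
def t217 : k217.all (jb2 57 fl b0) = true := by decide +kernel
noncomputable def k218 : KT := (.br (Nat.shiftLeft (nat_lit 0x80200700d) (nat_lit 65)) (.one (nat_lit 0x100400e019000200801c032540)) (.br (Nat.shiftLeft (nat_lit 0x1005) (nat_lit 88)) (.one (nat_lit 0x100400e01a000200801c034540)) (.one (nat_lit 0x100500e019000200a01c032540))))
def t218 : k218.all (jb2 57 fl b0) = true := by decide +kernel
noncomputable def k219 : KT := (.br (Nat.shiftLeft (nat_lit 0x1007) (nat_lit 88)) (.br (Nat.shiftLeft (nat_lit 0x803) (nat_lit 89)) (.one (nat_lit 0x100500e01a000200a01c034540)) (.one (nat_lit 0x100600e019000200c01c032540))) (.br (Nat.shiftLeft (nat_lit 0x1) (nat_lit 101)) (.one (nat_lit 0x100700e019000200e01c032540)) (.br (Nat.shiftLeft (nat_lit 0x100000700d) (nat_lit 65)) (.one (nat_lit 0x200000e019000400001c032311)) (.one (nat_lit 0x200000e01a000400001c034311)))))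
def t219 : k219.all (jb2 57 fl b0) = true := by decide +kernel
noncomputable def k220 : KT := (.one (nat_lit 0x200300e019000400601c032540))
def t220 : k220.all (jb2 57 fl b0) = true := by decide +kernel
noncomputable def k221 : KT := (.br (Nat.shiftLeft (nat_lit 0x100200700d) (nat_lit 65)) (.one (nat_lit 0x200400e019000400801c032540)) (.one (nat_lit 0x200400e01a000400801c034540)))
def t221 : k221.all (jb2 57 fl b0) = true := by decide +kernel
noncomputable def k222 : KT := (.br (Nat.shiftLeft (nat_lit 0x100280700d) (nat_lit 65)) (.one (nat_lit 0x200500e019000400a01c032540)) (.br (Nat.shiftLeft (nat_lit 0x1003) (nat_lit 89)) (.one (nat_lit 0x200500e01a000400a01c034540)) (.one (nat_lit 0x200600e019000400c01c032540))))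
def t222 : k222.all (jb2 57 fl b0) = true := by decide +kernel
noncomputable def k223 : KT := (.br (Nat.shiftLeft (nat_lit 0x180000700d) (nat_lit 65)) (.br (Nat.shiftLeft (nat_lit 0x3) (nat_lit 100)) (.one (nat_lit 0x200700e019000400e01c032540)) (.one (nat_lit 0x300000e019000600001c032311))) (.br (Nat.shiftLeft (nat_lit 0xc01) (nat_lit 90)) (.one (nat_lit 0x300000e01a000600001c034311)) (.one (nat_lit 0x300400e019000600801c032540))))
def t223 : k223.all (jb2 57 fl b0) = true := by decide +kernel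
noncomputable def k224 : KT := (.br (Nat.shiftLeft (nat_lit 0x3005) (nat_lit 88)) (.one (nat_lit 0x300400e01a000600801c034540)) (.one (nat_lit 0x300500e019000600a01c032540)))
def t224 : k224.all (jb2 57 fl b0) = true := by decide +kernel
noncomputable def k225 : KT := (.br (Nat.shiftLeft (nat_lit 0x3007) (nat_lit 88)) (.br (Nat.shiftLeft (nat_lit 0x1803) (nat_lit 89)) (.one (nat_lit 0x300500e01a000600a01c034540)) (.one (nat_lit 0x300600e019000600c01c032540))) (.br (Nat.shiftLeft (nat_lit 0x1) (nat_lit 102)) (.one (nat_lit 0x300700e019000600e01c032540)) (.br (Nat.shiftLeft (nat_lit 0x200000700d) (nat_lit 65)) (.one (nat_lit 0x400000e019000800001c032311)) (.one (nat_lit 0x400000e01a000800001c034311)))))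
def t225 : k225.all (jb2 57 fl b0) = true := by decide +kernel
noncomputable def k226 : KT := (.br (Nat.shiftLeft (nat_lit 0x200280700d) (nat_lit 65)) (.one (nat_lit 0x400500e019000800a01c032540)) (.br (Nat.shiftLeft (nat_lit 0x2003) (nat_lit 89)) (.one (nat_lit 0x400500e01a000800a01c034540)) (.one (nat_lit 0x400600e019000800c01c032540))))
def t226 : k226.all (jb2 57 fl b0) = true := by decide +kernel
noncomputable def k227 : KT := (.br (Nat.shiftLeft (nat_lit 0xd) (nat_lit 100)) (.br (Nat.shiftLeft (nat_lit 0x1) (nat_lit 103)) (.br (Nat.shiftLeft (nat_lit 0x3) (nat_lit 101)) (.br (Nat.shiftLeft (nat_lit 0x280000700d) (nat_lit 65)) (.br (Nat.shiftLeft (nat_lit 0x5) (nat_lit 100)) (.one (nat_lit 0x400700e019000800e01c032540)) (.one (nat_lit 0x500000e019000a00001c032311))) (.br (Nat.shiftLeft (nat_lit 0x1401) (nat_lit 90)) (.one (nat_lit 0x500000e01a000a00001c034311)) (.br (Nat.shiftLeft (nat_lit 0x5007) (nat_lit 88)) (.one (nat_lit 0x500600e019000a00c01c032540)) (.one (nat_lit 0x500700e019000a00e01c032540)))))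 (.br (Nat.shiftLeft (nat_lit 0x1801) (nat_lit 90)) (.br (Nat.shiftLeft (nat_lit 0x300000700d) (nat_lit 65)) (.one (nat_lit 0x600000e019000c00001c032311)) (.one (nat_lit 0x600000e01a000c00001c034311))) (.br (Nat.shiftLeft (nat_lit 0x7) (nat_lit 100)) (.one (nat_lit 0x600700e019000c00e01c032540)) (.br (Nat.shiftLeft (nat_lit 0x380000700d) (nat_lit 65)) (.one (nat_lit 0x700000e019000e00001c032311)) (.one (nat_lit 0x700000e01a000e00001c034311)))))) (.br (Nat.shiftLeft (nat_lit 0x500000700d) (nat_lit 65)) (.br (Nat.shiftLeft (nat_lit 0x9) (nat_lit 100)) (.br (Nat.shiftLeft (nat_lit 0x400000700d) (nat_lit 65)) (.one (nat_lit 0x800000e019001000001c032311)) (.one (nat_lit 0x800000e01a001000001c034311))) (.br (Nat.shiftLeft (nat_lit 0x480000700d) (nat_lit 65)) (.one (nat_lit 0x900000e019001200001c032311)) (.br (Nat.shiftLeft (nat_lit 0x5) (nat_lit 101)) (.one (nat_lit 0x900000e01a001200001c034311)) (.one (nat_lit 0xa00000e019001400001c032311))))) (.br (Nat.shiftLeft (nat_lit 0x580000700d)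 (nat_lit 65)) (.br (Nat.shiftLeft (nat_lit 0xb) (nat_lit 100)) (.one (nat_lit 0xa00000e01a001400001c034311)) (.one (nat_lit 0xb00000e019001600001c032311))) (.br (Nat.shiftLeft (nat_lit 0x3) (nat_lit 102)) (.one (nat_lit 0xb00000e01a001600001c034311)) (.br (Nat.shiftLeft (nat_lit 0x600000700d) (nat_lit 65)) (.one (nat_lit 0xc00000e019001800001c032311)) (.one (nat_lit 0xc00000e01a001800001c034311))))))) (.br (Nat.shiftLeft (nat_lit 0x1000007) (nat_lit 88)) (.br (Nat.shiftLeft (nat_lit 0x400001) (nat_lit 90)) (.br (Nat.shiftLeft (nat_lit 0x7) (nat_lit 101)) (.br (Nat.shiftLeft (nat_lit 0x680000700d) (nat_lit 65)) (.one (nat_lit 0xd00000e019001a00001c032311)) (.one (nat_lit 0xd00000e01a001a00001c034311))) (.br (Nat.shiftLeft (nat_lit 0x700000700d) (nat_lit 65)) (.one (nat_lit 0xe00000e019001c00001c032311)) (.br (Nat.shiftLeft (nat_lit 0x1) (nat_lit 112)) (.one (nat_lit 0xe00000e01a001c00001c034311)) (.one (nat_lit 0x100000300e019200000601c032411))))) (.br (Nat.shiftLeft (nat_lit 0x1000005)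 (nat_lit 88)) (.br (Nat.shiftLeft (nat_lit 0x80000200700d) (nat_lit 65)) (.one (nat_lit 0x100000400e019200000801c032411)) (.one (nat_lit 0x100000400e01a200000801c034411))) (.br (Nat.shiftLeft (nat_lit 0x80000280700d) (nat_lit 65)) (.one (nat_lit 0x100000500e019200000a01c032411)) (.br (Nat.shiftLeft (nat_lit 0x800003) (nat_lit 89)) (.one (nat_lit 0x100000500e01a200000a01c034411)) (.one (nat_lit 0x100000600e019200000c01c032411)))))) (.br (Nat.shiftLeft (nat_lit 0x100000280700d) (nat_lit 65)) (.br (Nat.shiftLeft (nat_lit 0x800001) (nat_lit 90)) (.br (Nat.shiftLeft (nat_lit 0x1) (nat_lit 113)) (.one (nat_lit 0x100000700e019200000e01c032411)) (.one (nat_lit 0x200000300e019400000601c032411))) (.br (Nat.shiftLeft (nat_lit 0x100000200700d) (nat_lit 65)) (.one (nat_lit 0x200000400e019400000801c032411)) (.br (Nat.shiftLeft (nat_lit 0x2000005) (nat_lit 88)) (.one (nat_lit 0x200000400e01a400000801c034411)) (.one (nat_lit 0x200000500e019400000a01c032411))))) (.br (Nat.shiftLeft (nat_lit 0x2000007)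 (nat_lit 88)) (.br (Nat.shiftLeft (nat_lit 0x1000003) (nat_lit 89)) (.one (nat_lit 0x200000500e01a400000a01c034411)) (.one (nat_lit 0x200000600e019400000c01c032411))) (.br (Nat.shiftLeft (nat_lit 0x3) (nat_lit 112)) (.one (nat_lit 0x200000700e019400000e01c032411)) (.br (Nat.shiftLeft (nat_lit 0xc00001) (nat_lit 90)) (.one (nat_lit 0x300000300e019600000601c032411)) (.one (nat_lit 0x300000400e019600000801c032411))))))))
def t227 : k227.all (jb2 57 fl b0) = true := by decide +kernel
noncomputable def k228 : KT := (.br (Nat.shiftLeft (nat_lit 0x1800001) (nat_lit 90)) (.br (Nat.shiftLeft (nat_lit 0x2000003) (nat_lit 89)) (.br (Nat.shiftLeft (nat_lit 0x1) (nat_lit 114)) (.br (Nat.shiftLeft (nat_lit 0x180000280700d) (nat_lit 65)) (.br (Nat.shiftLeft (nat_lit 0x3000005) (nat_lit 88)) (.one (nat_lit 0x300000400e01a600000801c034411)) (.one (nat_lit 0x300000500e019600000a01c032411))) (.br (Nat.shiftLeft (nat_lit 0x1800003) (nat_lit 89)) (.one (nat_lit 0x300000500e01a600000a01c034411)) (.br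 (Nat.shiftLeft (nat_lit 0x3000007) (nat_lit 88)) (.one (nat_lit 0x300000600e019600000c01c032411)) (.one (nat_lit 0x300000700e019600000e01c032411))))) (.br (Nat.shiftLeft (nat_lit 0x200000200700d) (nat_lit 65)) (.br (Nat.shiftLeft (nat_lit 0x1000001) (nat_lit 90)) (.one (nat_lit 0x400000300e019800000601c032411)) (.one (nat_lit 0x400000400e019800000801c032411))) (.br (Nat.shiftLeft (nat_lit 0x4000005) (nat_lit 88)) (.one (nat_lit 0x400000400e01a800000801c034411)) (.br (Nat.shiftLeft (nat_lit 0x200000280700d) (nat_lit 65)) (.one (nat_lit 0x400000500e019800000a01c032411)) (.one (nat_lit 0x400000500e01a800000a01c034411)))))) (.br (Nat.shiftLeft (nat_lit 0x5000005) (nat_lit 88)) (.br (Nat.shiftLeft (nat_lit 0x5) (nat_lit 112)) (.br (Nat.shiftLeft (nat_lit 0x4000007) (nat_lit 88)) (.one (nat_lit 0x400000600e019800000c01c032411)) (.one (nat_lit 0x400000700e019800000e01c032411))) (.br (Nat.shiftLeft (nat_lit 0x1400001) (nat_lit 90)) (.one (nat_lit 0x500000300e019a00000601c032411)) (.br (Nat.shiftLeft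 (nat_lit 0x280000200700d) (nat_lit 65)) (.one (nat_lit 0x500000400e019a00000801c032411)) (.one (nat_lit 0x500000400e01aa00000801c034411))))) (.br (Nat.shiftLeft (nat_lit 0x2800003) (nat_lit 89)) (.br (Nat.shiftLeft (nat_lit 0x280000280700d) (nat_lit 65)) (.one (nat_lit 0x500000500e019a00000a01c032411)) (.one (nat_lit 0x500000500e01aa00000a01c034411))) (.br (Nat.shiftLeft (nat_lit 0x5000007) (nat_lit 88)) (.one (nat_lit 0x500000600e019a00000c01c032411)) (.br (Nat.shiftLeft (nat_lit 0x3) (nat_lit 113)) (.one (nat_lit 0x500000700e019a00000e01c032411)) (.one (nat_lit 0x600000300e019c00000601c032411))))))) (.br (Nat.shiftLeft (nat_lit 0x380000280700d) (nat_lit 65)) (.br (Nat.shiftLeft (nat_lit 0x6000007) (nat_lit 88)) (.br (Nat.shiftLeft (nat_lit 0x6000005) (nat_lit 88)) (.br (Nat.shiftLeft (nat_lit 0x300000200700d) (nat_lit 65)) (.one (nat_lit 0x600000400e019c00000801c032411)) (.one (nat_lit 0x600000400e01ac00000801c034411))) (.br (Nat.shiftLeft (nat_lit 0x300000280700d) (nat_lit 65))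 (.one (nat_lit 0x600000500e019c00000a01c032411)) (.br (Nat.shiftLeft (nat_lit 0x3000003) (nat_lit 89)) (.one (nat_lit 0x600000500e01ac00000a01c034411)) (.one (nat_lit 0x600000600e019c00000c01c032411))))) (.br (Nat.shiftLeft (nat_lit 0x1c00001) (nat_lit 90)) (.br (Nat.shiftLeft (nat_lit 0x7) (nat_lit 112)) (.one (nat_lit 0x600000700e019c00000e01c032411)) (.one (nat_lit 0x700000300e019e00000601c032411))) (.br (Nat.shiftLeft (nat_lit 0x380000200700d) (nat_lit 65)) (.one (nat_lit 0x700000400e019e00000801c032411)) (.br (Nat.shiftLeft (nat_lit 0x7000005) (nat_lit 88)) (.one (nat_lit 0x700000400e01ae00000801c034411)) (.one (nat_lit 0x700000500e019e00000a01c032411)))))) (.br (Nat.shiftLeft (nat_lit 0x400000200700d) (nat_lit 65)) (.br (Nat.shiftLeft (nat_lit 0x7000007) (nat_lit 88)) (.br (Nat.shiftLeft (nat_lit 0x3800003) (nat_lit 89)) (.one (nat_lit 0x700000500e01ae00000a01c034411)) (.one (nat_lit 0x700000600e019e00000c01c032411))) (.br (Nat.shiftLeft (nat_lit 0x1) (nat_lit 115)) (.one (nat_lit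 0x700000700e019e00000e01c032411)) (.br (Nat.shiftLeft (nat_lit 0x2000001) (nat_lit 90)) (.one (nat_lit 0x800000300e019000000601c134411)) (.one (nat_lit 0x800000400e019000000801c134411))))) (.br (Nat.shiftLeft (nat_lit 0x400000280700d) (nat_lit 65)) (.br (Nat.shiftLeft (nat_lit 0x8000005) (nat_lit 88)) (.one (nat_lit 0x800000400e01a000000801c136411)) (.one (nat_lit 0x800000500e019000000a01c134411))) (.br (Nat.shiftLeft (nat_lit 0x4000003) (nat_lit 89)) (.one (nat_lit 0x800000500e01a000000a01c136411)) (.br (Nat.shiftLeft (nat_lit 0x8000007) (nat_lit 88)) (.one (nat_lit 0x800000600e019000000c01c134411)) (.one (nat_lit 0x800000700e019000000e01c134411))))))))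
def t228 : k228.all (jb2 57 fl b0) = true := by decide +kernel
noncomputable def k229 : KT := (.br (Nat.shiftLeft (nat_lit 0x580000200700d) (nat_lit 65)) (.br (Nat.shiftLeft (nat_lit 0x2800001) (nat_lit 90)) (.br (Nat.shiftLeft (nat_lit 0x480000280700d) (nat_lit 65)) (.br (Nat.shiftLeft (nat_lit 0x480000200700d) (nat_lit 65)) (.br (Nat.shiftLeft (nat_lit 0x2400001) (nat_lit 90)) (.one (nat_lit 0x900000300e019200000601c134411)) (.one (nat_lit 0x900000400e019200000801c134411))) (.br (Nat.shiftLeft (nat_lit 0x9000005) (nat_lit 88)) (.one (nat_lit 0x900000400e01a200000801c136411)) (.one (nat_lit 0x900000500e019200000a01c134411)))) (.br (Nat.shiftLeft (nat_lit 0x9000007) (nat_lit 88)) (.br (Nat.shiftLeft (nat_lit 0x4800003) (nat_lit 89)) (.one (nat_lit 0x900000500e01a200000a01c136411)) (.one (nat_lit 0x900000600e019200000c01c134411))) (.br (Nat.shiftLeft (nat_lit 0x5) (nat_lit 113)) (.one (nat_lit 0x900000700e019200000e01c134411)) (.one (nat_lit 0xa00000300e019400000601c134411))))) (.br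 (Nat.shiftLeft (nat_lit 0x5000003) (nat_lit 89)) (.br (Nat.shiftLeft (nat_lit 0xa000005) (nat_lit 88)) (.br (Nat.shiftLeft (nat_lit 0x500000200700d) (nat_lit 65)) (.one (nat_lit 0xa00000400e019400000801c134411)) (.one (nat_lit 0xa00000400e01a400000801c136411))) (.br (Nat.shiftLeft (nat_lit 0x500000280700d) (nat_lit 65)) (.one (nat_lit 0xa00000500e019400000a01c134411)) (.one (nat_lit 0xa00000500e01a400000a01c136411)))) (.br (Nat.shiftLeft (nat_lit 0xb) (nat_lit 112)) (.br (Nat.shiftLeft (nat_lit 0xa000007) (nat_lit 88)) (.one (nat_lit 0xa00000600e019400000c01c134411)) (.one (nat_lit 0xa00000700e019400000e01c134411))) (.br (Nat.shiftLeft (nat_lit 0x2c00001) (nat_lit 90)) (.one (nat_lit 0xb00000300e019600000601c134411)) (.one (nat_lit 0xb00000400e019600000801c134411)))))) (.br (Nat.shiftLeft (nat_lit 0xc000005) (nat_lit 88)) (.br (Nat.shiftLeft (nat_lit 0xb000007) (nat_lit 88)) (.br (Nat.shiftLeft (nat_lit 0x580000280700d) (nat_lit 65)) (.br (Nat.shiftLeft (nat_lit 0xb000005) (nat_lit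 88)) (.one (nat_lit 0xb00000400e01a600000801c136411)) (.one (nat_lit 0xb00000500e019600000a01c134411))) (.br (Nat.shiftLeft (nat_lit 0x5800003) (nat_lit 89)) (.one (nat_lit 0xb00000500e01a600000a01c136411)) (.one (nat_lit 0xb00000600e019600000c01c134411)))) (.br (Nat.shiftLeft (nat_lit 0x3000001) (nat_lit 90)) (.br (Nat.shiftLeft (nat_lit 0x3) (nat_lit 114)) (.one (nat_lit 0xb00000700e019600000e01c134411)) (.one (nat_lit 0xc00000300e019800000601c134411))) (.br (Nat.shiftLeft (nat_lit 0x600000200700d) (nat_lit 65)) (.one (nat_lit 0xc00000400e019800000801c134411)) (.one (nat_lit 0xc00000400e01a800000801c136411))))) (.br (Nat.shiftLeft (nat_lit 0x3400001) (nat_lit 90)) (.br (Nat.shiftLeft (nat_lit 0x6000003) (nat_lit 89)) (.br (Nat.shiftLeft (nat_lit 0x600000280700d) (nat_lit 65)) (.one (nat_lit 0xc00000500e019800000a01c134411)) (.one (nat_lit 0xc00000500e01a800000a01c136411))) (.br (Nat.shiftLeft (nat_lit 0xd) (nat_lit 112)) (.one (nat_lit 0xc00000600e019800000c01c134411)) (.one (nat_lit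 0xd00000300e019a00000601c134411)))) (.br (Nat.shiftLeft (nat_lit 0xd000005) (nat_lit 88)) (.br (Nat.shiftLeft (nat_lit 0x680000200700d) (nat_lit 65)) (.one (nat_lit 0xd00000400e019a00000801c134411)) (.one (nat_lit 0xd00000400e01aa00000801c136411))) (.br (Nat.shiftLeft (nat_lit 0x7) (nat_lit 113)) (.one (nat_lit 0xd00000500e019a00000a01c134411)) (.br (Nat.shiftLeft (nat_lit 0x3800001) (nat_lit 90)) (.one (nat_lit 0xe00000300e019c00000601c134411)) (.one (nat_lit 0xe00000400e019c00000801c134411))))))))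
def t229 : k229.all (jb2 57 fl b0) = true := by decide +kernel
noncomputable def s11 : KT := (.br (nat_lit 0x200000e01a000400001c034311) (.br (nat_lit 0x800e019000001001c032430) (.br (nat_lit 0x600e019000000c01c033400) (.br (nat_lit 0x300e019000000601c033400) k210 k211) (.br (nat_lit 0x700e019000000e01c033400) k212 (.br (nat_lit 0x700e01a000000e01c034430) k213 k214))) (.br (nat_lit 0xa00e01a000001401c034430) (.br (nat_lit 0x900e019000001201c032430) k215 k216) (.br (nat_lit 0x100300e019000200601c032540) k217 (.br (nat_lit 0x100500e019000200a01c032540) k218 k219)))) (.br (nat_lit 0x300500e019000600a01c032540) (.br (nat_lit 0x200400e01a000400801c034540) (.br (nat_lit 0x200300e019000400601c032540) k220 k221) (.br (nat_lit 0x200600e019000400c01c032540) k222 (.br (nat_lit 0x300400e019000600801c032540) k223 k224))) (.br (nat_lit 0x400600e019000800c01c032540) (.br (nat_lit 0x400000e01a000800001c034311) k225 k226) (.br (nat_lit 0x300000400e019600000801c032411) k227 (.br (nat_lit 0x800000700e019000000e01c134411)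 k228 k229)))))
noncomputable def u11 : KT := (.br (Nat.shiftLeft (nat_lit 0x700d) (nat_lit 65)) (.one (nat_lit 0xe019000000001c032320)) (.one (nat_lit 0xe01a000000001c034320)))
def w11 : u11.all (wj 57 s11) = true := by decide +kernel
def o11 : OkW 57 (jb2 57 fl) u11 := .lift s11 _ (.br _ _ _ (.br _ _ _ (.br _ _ _ (.br _ _ _ (.leaf b0 k210 t210) (.leaf b0 k211 t211)) (.br _ _ _ (.leaf b0 k212 t212) (.br _ _ _ (.leaf b0 k213 t213) (.leaf b0 k214 t214)))) (.br _ _ _ (.br _ _ _ (.leaf b0 k215 t215) (.leaf b0 k216 t216)) (.br _ _ _ (.leaf b0 k217 t217) (.br _ _ _ (.leaf b0 k218 t218) (.leaf b0 k219 t219))))) (.br _ _ _ (.br _ _ _ (.br _ _ _ (.leaf b0 k220 t220) (.leaf b0 k221 t221)) (.br _ _ _ (.leaf b0 k222 t222) (.br _ _ _ (.leaf b0 k223 t223) (.leaf b0 k224 t224)))) (.br _ _ _ (.br _ _ _ (.leaf b0 k225 t225) (.leaf b0 k226 t226)) (.br _ _ _ (.leaf b0 k227 t227) (.br _ _ _ (.leaf b0 k228 t228) (.leaf b0 k229 t229)))))) w11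
noncomputable def k230 : KT := (.br (Nat.shiftLeft (nat_lit 0x700f) (nat_lit 65)) (.br (Nat.shiftLeft (nat_lit 0x3807) (nat_lit 66)) (.one (nat_lit 0xe01b000000001c037300)) (.br (Nat.shiftLeft (nat_lit 0xe01d) (nat_lit 64)) (.one (nat_lit 0xe01c000000001c039300)) (.one (nat_lit 0xe01d000000001c03b300)))) (.br (Nat.shiftLeft (nat_lit 0xe01f) (nat_lit 64)) (.one (nat_lit 0xe01e000000001c03d300)) (.br (Nat.shiftLeft (nat_lit 0x701) (nat_lit 69)) (.one (nat_lit 0xe01f000000001c03f300)) (.one (nat_lit 0xe020000000001c040320)))))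
def t230 : k230.all (jb2 57 fl b0) = true := by decide +kernel
noncomputable def k231 : KT := (.br (Nat.shiftLeft (nat_lit 0xf015) (nat_lit 64)) (.br (Nat.shiftLeft (nat_lit 0x7809) (nat_lit 65)) (.br (Nat.shiftLeft (nat_lit 0xf) (nat_lit 76)) (.one (nat_lit 0xe021000000001c042320)) (.one (nat_lit 0xf011000000001e023300))) (.br (Nat.shiftLeft (nat_lit 0xf013) (nat_lit 64)) (.one (nat_lit 0xf012000000001e025300)) (.br (Nat.shiftLeft (nat_lit 0x3c05) (nat_lit 66)) (.one (nat_lit 0xf013000000001e027300)) (.one (nat_lit 0xf014000000001e029300))))) (.br (Nat.shiftLeft (nat_lit 0x100e01d) (nat_lit 64)) (.br (Nat.shiftLeft (nat_lit 0x1) (nat_lit 88)) (.one (nat_lit 0xf015000000001e02b300)) (.br (Nat.shiftLeft (nat_lit 0x403807) (nat_lit 66)) (.one (nat_lit 0x100e01b000000201c036430)) (.one (nat_lit 0x100e01c000000201c038430)))) (.br (Nat.shiftLeft (nat_lit 0x80700f) (nat_lit 65)) (.one (nat_lit 0x100e01d000000201c03a430)) (.br (Nat.shiftLeft (nat_lit 0x100e01f) (nat_lit 64)) (.one (nat_lit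 0x100e01e000000201c03c430)) (.one (nat_lit 0x100e01f000000201c03e430))))))
def t231 : k231.all (jb2 57 fl b0) = true := by decide +kernel
noncomputable def k232 : KT := (.br (Nat.shiftLeft (nat_lit 0x803807) (nat_lit 66)) (.one (nat_lit 0x200e01b000000401c036430)) (.br (Nat.shiftLeft (nat_lit 0x200e01d) (nat_lit 64)) (.one (nat_lit 0x200e01c000000401c038430)) (.one (nat_lit 0x200e01d000000401c03a430))))
def t232 : k232.all (jb2 57 fl b0) = true := by decide +kernel
noncomputable def k233 : KT := (.br (Nat.shiftLeft (nat_lit 0x200e01f) (nat_lit 64)) (.one (nat_lit 0x200e01e000000401c03c430)) (.one (nat_lit 0x200e01f000000401c03e430)))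
def t233 : k233.all (jb2 57 fl b0) = true := by decide +kernel
noncomputable def k234 : KT := (.one (nat_lit 0x300e01b000000601c036430))
def t234 : k234.all (jb2 57 fl b0) = true := by decide +kernel
noncomputable def k235 : KT := (.one (nat_lit 0x300e01c000000601c038430))
def t235 : k235.all (jb2 57 fl b0) = true := by decide +kernel
noncomputable def k236 : KT := (.br (Nat.shiftLeft (nat_lit 0x180700f) (nat_lit 65)) (.one (nat_lit 0x300e01d000000601c03a430)) (.one (nat_lit 0x300e01e000000601c03c430)))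
def t236 : k236.all (jb2 57 fl b0) = true := by decide +kernel
noncomputable def k237 : KT := (.one (nat_lit 0x300e01f000000601c03e430))
def t237 : k237.all (jb2 57 fl b0) = true := by decide +kernel
noncomputable def k238 : KT := (.one (nat_lit 0x400e01b000000801c036430))
def t238 : k238.all (jb2 57 fl b0) = true := by decide +kernel
noncomputable def k239 : KT := (.one (nat_lit 0x400e01c000000801c038430))
def t239 : k239.all (jb2 57 fl b0) = true := by decide +kernel
noncomputable def k240 : KT := (.br (Nat.shiftLeft (nat_lit 0x200700f) (nat_lit 65)) (.one (nat_lit 0x400e01d000000801c03a430)) (.one (nat_lit 0x400e01e000000801c03c430)))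
def t240 : k240.all (jb2 57 fl b0) = true := by decide +kernel
noncomputable def k241 : KT := (.one (nat_lit 0x400e01f000000801c03e430))
def t241 : k241.all (jb2 57 fl b0) = true := by decide +kernel
noncomputable def k242 : KT := (.one (nat_lit 0x500e01b000000a01c036430))
def t242 : k242.all (jb2 57 fl b0) = true := by decide +kernel
noncomputable def k243 : KT := (.br (Nat.shiftLeft (nat_lit 0x500e01d) (nat_lit 64)) (.one (nat_lit 0x500e01c000000a01c038430)) (.one (nat_lit 0x500e01d000000a01c03a430)))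
def t243 : k243.all (jb2 57 fl b0) = true := by decide +kernel
noncomputable def k244 : KT := (.br (Nat.shiftLeft (nat_lit 0x500e01f) (nat_lit 64)) (.one (nat_lit 0x500e01e000000a01c03c430)) (.one (nat_lit 0x500e01f000000a01c03e430)))
def t244 : k244.all (jb2 57 fl b0) = true := by decide +kernel
noncomputable def k245 : KT := (.one (nat_lit 0x600e01b000000c01c036430))
def t245 : k245.all (jb2 57 fl b0) = true := by decide +kernel
noncomputable def k246 : KT := (.br (Nat.shiftLeft (nat_lit 0x600e01d) (nat_lit 64)) (.one (nat_lit 0x600e01c000000c01c038430)) (.br (Nat.shiftLeft (nat_lit 0x300700f) (nat_lit 65)) (.one (nat_lit 0x600e01d000000c01c03a430)) (.one (nat_lit 0x600e01e000000c01c03c430))))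
def t246 : k246.all (jb2 57 fl b0) = true := by decide +kernel
noncomputable def k247 : KT := (.br (Nat.shiftLeft (nat_lit 0x7) (nat_lit 88)) (.one (nat_lit 0x600e01f000000c01c03e430)) (.br (Nat.shiftLeft (nat_lit 0x1c03807) (nat_lit 66)) (.one (nat_lit 0x700e01b000000e01c036430)) (.one (nat_lit 0x700e01c000000e01c038430))))
def t247 : k247.all (jb2 57 fl b0) = true := by decide +kernel
noncomputable def k248 : KT := (.br (Nat.shiftLeft (nat_lit 0x700e01f) (nat_lit 64)) (.br (Nat.shiftLeft (nat_lit 0x380700f) (nat_lit 65)) (.one (nat_lit 0x700e01d000000e01c03a430)) (.one (nat_lit 0x700e01e000000e01c03c430))) (.br (Nat.shiftLeft (nat_lit 0x1) (nat_lit 91)) (.one (nat_lit 0x700e01f000000e01c03e430)) (.br (Nat.shiftLeft (nat_lit 0x2003807) (nat_lit 66)) (.one (nat_lit 0x800e01b000001001c036430)) (.one (nat_lit 0x800e01c000001001c038430)))))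
def t248 : k248.all (jb2 57 fl b0) = true := by decide +kernel
noncomputable def k249 : KT := (.br (Nat.shiftLeft (nat_lit 0x480700f) (nat_lit 65)) (.br (Nat.shiftLeft (nat_lit 0x9) (nat_lit 88)) (.br (Nat.shiftLeft (nat_lit 0x400700f) (nat_lit 65)) (.one (nat_lit 0x800e01d000001001c03a430)) (.br (Nat.shiftLeft (nat_lit 0x800e01f) (nat_lit 64)) (.one (nat_lit 0x800e01e000001001c03c430)) (.one (nat_lit 0x800e01f000001001c03e430)))) (.br (Nat.shiftLeft (nat_lit 0x2403807) (nat_lit 66)) (.one (nat_lit 0x900e01b000001201c036430)) (.br (Nat.shiftLeft (nat_lit 0x900e01d) (nat_lit 64)) (.one (nat_lit 0x900e01c000001201c038430)) (.one (nat_lit 0x900e01d000001201c03a430))))) (.br (Nat.shiftLeft (nat_lit 0x2803807) (nat_lit 66)) (.br (Nat.shiftLeft (nat_lit 0x900e01f) (nat_lit 64)) (.one (nat_lit 0x900e01e000001201c03c430)) (.br (Nat.shiftLeft (nat_lit 0x5) (nat_lit 89)) (.one (nat_lit 0x900e01f000001201c03e430)) (.one (nat_lit 0xa00e01b000001401c036430)))) (.br (Nat.shiftLeft (nat_lit 0x500700f)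 (nat_lit 65)) (.br (Nat.shiftLeft (nat_lit 0xa00e01d) (nat_lit 64)) (.one (nat_lit 0xa00e01c000001401c038430)) (.one (nat_lit 0xa00e01d000001401c03a430))) (.br (Nat.shiftLeft (nat_lit 0xa00e01f) (nat_lit 64)) (.one (nat_lit 0xa00e01e000001401c03c430)) (.one (nat_lit 0xa00e01f000001401c03e430))))))
def t249 : k249.all (jb2 57 fl b0) = true := by decide +kernel
noncomputable def k250 : KT := (.br (Nat.shiftLeft (nat_lit 0x800003807) (nat_lit 66)) (.br (Nat.shiftLeft (nat_lit 0xd) (nat_lit 88)) (.br (Nat.shiftLeft (nat_lit 0x3) (nat_lit 90)) (.br (Nat.shiftLeft (nat_lit 0xb00e01d) (nat_lit 64)) (.br (Nat.shiftLeft (nat_lit 0x2c03807) (nat_lit 66)) (.one (nat_lit 0xb00e01b000001601c036430)) (.one (nat_lit 0xb00e01c000001601c038430))) (.br (Nat.shiftLeft (nat_lit 0x580700f) (nat_lit 65)) (.one (nat_lit 0xb00e01d000001601c03a430)) (.br (Nat.shiftLeft (nat_lit 0xb00e01f) (nat_lit 64)) (.one (nat_lit 0xb00e01e000001601c03c430)) (.one (nat_lit 0xb00e01f000001601c03e430))))) (.br (Nat.shiftLeft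 (nat_lit 0xc00e01d) (nat_lit 64)) (.br (Nat.shiftLeft (nat_lit 0x3003807) (nat_lit 66)) (.one (nat_lit 0xc00e01b000001801c036430)) (.one (nat_lit 0xc00e01c000001801c038430))) (.br (Nat.shiftLeft (nat_lit 0x600700f) (nat_lit 65)) (.one (nat_lit 0xc00e01d000001801c03a430)) (.br (Nat.shiftLeft (nat_lit 0xc00e01f) (nat_lit 64)) (.one (nat_lit 0xc00e01e000001801c03c430)) (.one (nat_lit 0xc00e01f000001801c03e430)))))) (.br (Nat.shiftLeft (nat_lit 0x400003807) (nat_lit 66)) (.br (Nat.shiftLeft (nat_lit 0xd00e01d) (nat_lit 64)) (.br (Nat.shiftLeft (nat_lit 0x3403807) (nat_lit 66)) (.one (nat_lit 0xd00e01b000001a01c036430)) (.one (nat_lit 0xd00e01c000001a01c038430))) (.br (Nat.shiftLeft (nat_lit 0x680700f) (nat_lit 65)) (.one (nat_lit 0xd00e01d000001a01c03a430)) (.br (Nat.shiftLeft (nat_lit 0x1) (nat_lit 100)) (.one (nat_lit 0xd00e01e000001a01c03c430)) (.one (nat_lit 0x100000e01b000200001c036311))))) (.br (Nat.shiftLeft (nat_lit 0x80000700f) (nat_lit 65)) (.br (Nat.shiftLeft (nat_lit 0x100000e01d)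 (nat_lit 64)) (.one (nat_lit 0x100000e01c000200001c038311)) (.one (nat_lit 0x100000e01d000200001c03a311))) (.br (Nat.shiftLeft (nat_lit 0x100000e01f) (nat_lit 64)) (.one (nat_lit 0x100000e01e000200001c03c311)) (.br (Nat.shiftLeft (nat_lit 0x1) (nat_lit 101)) (.one (nat_lit 0x100000e01f000200001c03e311)) (.one (nat_lit 0x200000e01b000400001c036311))))))) (.br (Nat.shiftLeft (nat_lit 0x1000003807) (nat_lit 66)) (.br (Nat.shiftLeft (nat_lit 0xc00003807) (nat_lit 66)) (.br (Nat.shiftLeft (nat_lit 0x100000700f) (nat_lit 65)) (.br (Nat.shiftLeft (nat_lit 0x200000e01d) (nat_lit 64)) (.one (nat_lit 0x200000e01c000400001c038311)) (.one (nat_lit 0x200000e01d000400001c03a311))) (.br (Nat.shiftLeft (nat_lit 0x200000e01f) (nat_lit 64)) (.one (nat_lit 0x200000e01e000400001c03c311)) (.br (Nat.shiftLeft (nat_lit 0x3) (nat_lit 100)) (.one (nat_lit 0x200000e01f000400001c03e311)) (.one (nat_lit 0x300000e01b000600001c036311))))) (.br (Nat.shiftLeft (nat_lit 0x180000700f) (nat_lit 65)) (.br (Nat.shiftLeft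 (nat_lit 0x300000e01d) (nat_lit 64)) (.one (nat_lit 0x300000e01c000600001c038311)) (.one (nat_lit 0x300000e01d000600001c03a311))) (.br (Nat.shiftLeft (nat_lit 0x300000e01f) (nat_lit 64)) (.one (nat_lit 0x300000e01e000600001c03c311)) (.br (Nat.shiftLeft (nat_lit 0x1) (nat_lit 102)) (.one (nat_lit 0x300000e01f000600001c03e311)) (.one (nat_lit 0x400000e01b000800001c036311)))))) (.br (Nat.shiftLeft (nat_lit 0x1400003807) (nat_lit 66)) (.br (Nat.shiftLeft (nat_lit 0x200000700f) (nat_lit 65)) (.br (Nat.shiftLeft (nat_lit 0x400000e01d) (nat_lit 64)) (.one (nat_lit 0x400000e01c000800001c038311)) (.one (nat_lit 0x400000e01d000800001c03a311))) (.br (Nat.shiftLeft (nat_lit 0x400000e01f) (nat_lit 64)) (.one (nat_lit 0x400000e01e000800001c03c311)) (.br (Nat.shiftLeft (nat_lit 0x5) (nat_lit 100)) (.one (nat_lit 0x400000e01f000800001c03e311)) (.one (nat_lit 0x500000e01b000a00001c036311))))) (.br (Nat.shiftLeft (nat_lit 0x280000700f) (nat_lit 65)) (.br (Nat.shiftLeft (nat_lit 0x500000e01d) (nat_lit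 64)) (.one (nat_lit 0x500000e01c000a00001c038311)) (.one (nat_lit 0x500000e01d000a00001c03a311))) (.br (Nat.shiftLeft (nat_lit 0x500000e01f) (nat_lit 64)) (.one (nat_lit 0x500000e01e000a00001c03c311)) (.br (Nat.shiftLeft (nat_lit 0x3) (nat_lit 101)) (.one (nat_lit 0x500000e01f000a00001c03e311)) (.one (nat_lit 0x600000e01b000c00001c036311))))))))
def t250 : k250.all (jb2 57 fl b0) = true := by decide +kernel
noncomputable def k251 : KT := (.br (Nat.shiftLeft (nat_lit 0x2800003807) (nat_lit 66)) (.br (Nat.shiftLeft (nat_lit 0x2000003807) (nat_lit 66)) (.br (Nat.shiftLeft (nat_lit 0x1c00003807) (nat_lit 66)) (.br (Nat.shiftLeft (nat_lit 0x300000700f) (nat_lit 65)) (.br (Nat.shiftLeft (nat_lit 0x600000e01d) (nat_lit 64)) (.one (nat_lit 0x600000e01c000c00001c038311)) (.one (nat_lit 0x600000e01d000c00001c03a311))) (.br (Nat.shiftLeft (nat_lit 0x600000e01f) (nat_lit 64)) (.one (nat_lit 0x600000e01e000c00001c03c311)) (.br (Nat.shiftLeft (nat_lit 0x7) (nat_lit 100)) (.one (nat_lit 0x600000e01f000c00001c03e311))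 (.one (nat_lit 0x700000e01b000e00001c036311))))) (.br (Nat.shiftLeft (nat_lit 0x380000700f) (nat_lit 65)) (.br (Nat.shiftLeft (nat_lit 0x700000e01d) (nat_lit 64)) (.one (nat_lit 0x700000e01c000e00001c038311)) (.one (nat_lit 0x700000e01d000e00001c03a311))) (.br (Nat.shiftLeft (nat_lit 0x700000e01f) (nat_lit 64)) (.one (nat_lit 0x700000e01e000e00001c03c311)) (.br (Nat.shiftLeft (nat_lit 0x1) (nat_lit 103)) (.one (nat_lit 0x700000e01f000e00001c03e311)) (.one (nat_lit 0x800000e01b001000001c036311)))))) (.br (Nat.shiftLeft (nat_lit 0x2400003807) (nat_lit 66)) (.br (Nat.shiftLeft (nat_lit 0x400000700f) (nat_lit 65)) (.br (Nat.shiftLeft (nat_lit 0x800000e01d) (nat_lit 64)) (.one (nat_lit 0x800000e01c001000001c038311)) (.one (nat_lit 0x800000e01d001000001c03a311))) (.br (Nat.shiftLeft (nat_lit 0x800000e01f) (nat_lit 64)) (.one (nat_lit 0x800000e01e001000001c03c311)) (.br (Nat.shiftLeft (nat_lit 0x9) (nat_lit 100)) (.one (nat_lit 0x800000e01f001000001c03e311)) (.one (nat_lit 0x900000e01b001200001c036311)))))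 (.br (Nat.shiftLeft (nat_lit 0x480000700f) (nat_lit 65)) (.br (Nat.shiftLeft (nat_lit 0x900000e01d) (nat_lit 64)) (.one (nat_lit 0x900000e01c001200001c038311)) (.one (nat_lit 0x900000e01d001200001c03a311))) (.br (Nat.shiftLeft (nat_lit 0x900000e01f) (nat_lit 64)) (.one (nat_lit 0x900000e01e001200001c03c311)) (.br (Nat.shiftLeft (nat_lit 0x5) (nat_lit 101)) (.one (nat_lit 0x900000e01f001200001c03e311)) (.one (nat_lit 0xa00000e01b001400001c036311))))))) (.br (Nat.shiftLeft (nat_lit 0x3000003807) (nat_lit 66)) (.br (Nat.shiftLeft (nat_lit 0x2c00003807) (nat_lit 66)) (.br (Nat.shiftLeft (nat_lit 0x500000700f) (nat_lit 65)) (.br (Nat.shiftLeft (nat_lit 0xa00000e01d) (nat_lit 64)) (.one (nat_lit 0xa00000e01c001400001c038311)) (.one (nat_lit 0xa00000e01d001400001c03a311))) (.br (Nat.shiftLeft (nat_lit 0xa00000e01f) (nat_lit 64)) (.one (nat_lit 0xa00000e01e001400001c03c311)) (.br (Nat.shiftLeft (nat_lit 0xb) (nat_lit 100)) (.one (nat_lit 0xa00000e01f001400001c03e311)) (.one (nat_lit 0xb00000e01b001600001c036311)))))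 (.br (Nat.shiftLeft (nat_lit 0x580000700f) (nat_lit 65)) (.br (Nat.shiftLeft (nat_lit 0xb00000e01d) (nat_lit 64)) (.one (nat_lit 0xb00000e01c001600001c038311)) (.one (nat_lit 0xb00000e01d001600001c03a311))) (.br (Nat.shiftLeft (nat_lit 0xb00000e01f) (nat_lit 64)) (.one (nat_lit 0xb00000e01e001600001c03c311)) (.br (Nat.shiftLeft (nat_lit 0x3) (nat_lit 102)) (.one (nat_lit 0xb00000e01f001600001c03e311)) (.one (nat_lit 0xc00000e01b001800001c036311)))))) (.br (Nat.shiftLeft (nat_lit 0x3400003807) (nat_lit 66)) (.br (Nat.shiftLeft (nat_lit 0x600000700f) (nat_lit 65)) (.br (Nat.shiftLeft (nat_lit 0xc00000e01d) (nat_lit 64)) (.one (nat_lit 0xc00000e01c001800001c038311)) (.one (nat_lit 0xc00000e01d001800001c03a311))) (.br (Nat.shiftLeft (nat_lit 0xc00000e01f) (nat_lit 64)) (.one (nat_lit 0xc00000e01e001800001c03c311)) (.br (Nat.shiftLeft (nat_lit 0xd) (nat_lit 100)) (.one (nat_lit 0xc00000e01f001800001c03e311)) (.one (nat_lit 0xd00000e01b001a00001c036311))))) (.br (Nat.shiftLeft (nat_lit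 0x680000700f) (nat_lit 65)) (.br (Nat.shiftLeft (nat_lit 0xd00000e01d) (nat_lit 64)) (.one (nat_lit 0xd00000e01c001a00001c038311)) (.one (nat_lit 0xd00000e01d001a00001c03a311))) (.br (Nat.shiftLeft (nat_lit 0x7) (nat_lit 101)) (.one (nat_lit 0xd00000e01e001a00001c03c311)) (.br (Nat.shiftLeft (nat_lit 0x3800003807) (nat_lit 66)) (.one (nat_lit 0xe00000e01b001c00001c036311)) (.one (nat_lit 0xe00000e01c001c00001c038311))))))))
def t251 : k251.all (jb2 57 fl b0) = true := by decide +kernel
noncomputable def k252 : KT := (.one (nat_lit 0xe00000e01d001c00001c03a311))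
def t252 : k252.all (jb2 57 fl b0) = true := by decide +kernel
noncomputable def s12 : KT := (.br (nat_lit 0x400e01e000000801c03c430) (.br (nat_lit 0x300e01b000000601c036430) (.br (nat_lit 0x100e01f000000201c03e430) (.br (nat_lit 0xe020000000001c040320) k230 k231) (.br (nat_lit 0x200e01d000000401c03a430) k232 (.br (nat_lit 0x200e01f000000401c03e430) k233 k234))) (.br (nat_lit 0x300e01f000000601c03e430) (.br (nat_lit 0x300e01c000000601c038430) k235 (.br (nat_lit 0x300e01e000000601c03c430) k236 k237)) (.br (nat_lit 0x400e01b000000801c036430) k238 (.br (nat_lit 0x400e01c000000801c038430) k239 k240)))) (.br (nat_lit 0x600e01e000000c01c03c430) (.br (nat_lit 0x500e01d000000a01c03a430) (.br (nat_lit 0x400e01f000000801c03e430) k241 (.br (nat_lit 0x500e01b000000a01c036430) k242 k243)) (.br (nat_lit 0x500e01f000000a01c03e430) k244 (.br (nat_lit 0x600e01b000000c01c036430) k245 k246))) (.br (nat_lit 0xa00e01f000001401c03e430) (.br (nat_lit 0x700e01c000000e01c038430) k247 (.br (nat_lit 0x800e01c000001001c038430)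 k248 k249)) (.br (nat_lit 0x600000e01b000c00001c036311) k250 (.br (nat_lit 0xe00000e01c001c00001c038311) k251 k252)))))
noncomputable def u12 : KT := (.br (Nat.shiftLeft (nat_lit 0xe021) (nat_lit 64)) (.br (Nat.shiftLeft (nat_lit 0x700f) (nat_lit 65)) (.br (Nat.shiftLeft (nat_lit 0x3807) (nat_lit 66)) (.one (nat_lit 0xe01b000000001c036320)) (.br (Nat.shiftLeft (nat_lit 0xe01d) (nat_lit 64)) (.one (nat_lit 0xe01c000000001c038320)) (.one (nat_lit 0xe01d000000001c03a320)))) (.br (Nat.shiftLeft (nat_lit 0xe01f) (nat_lit 64)) (.one (nat_lit 0xe01e000000001c03c320)) (.br (Nat.shiftLeft (nat_lit 0x701) (nat_lit 69)) (.one (nat_lit 0xe01f000000001c03e320)) (.one (nat_lit 0xe020000000001c040320))))) (.br (Nat.shiftLeft (nat_lit 0xf013) (nat_lit 64)) (.br (Nat.shiftLeft (nat_lit 0xf) (nat_lit 76)) (.one (nat_lit 0xe021000000001c042320)) (.br (Nat.shiftLeft (nat_lit 0x7809) (nat_lit 65)) (.one (nat_lit 0xf011000000001e023300)) (.one (nat_lit 0xf012000000001e025300)))) (.br (Nat.shiftLeft (nat_lit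 0x3c05) (nat_lit 66)) (.one (nat_lit 0xf013000000001e027300)) (.br (Nat.shiftLeft (nat_lit 0xf015) (nat_lit 64)) (.one (nat_lit 0xf014000000001e029300)) (.one (nat_lit 0xf015000000001e02b300))))))
def w12 : u12.all (wj 57 s12) = true := by decide +kernel
def o12 : OkW 57 (jb2 57 fl) u12 := .lift s12 _ (.br _ _ _ (.br _ _ _ (.br _ _ _ (.br _ _ _ (.leaf b0 k230 t230) (.leaf b0 k231 t231)) (.br _ _ _ (.leaf b0 k232 t232) (.br _ _ _ (.leaf b0 k233 t233) (.leaf b0 k234 t234)))) (.br _ _ _ (.br _ _ _ (.leaf b0 k235 t235) (.br _ _ _ (.leaf b0 k236 t236) (.leaf b0 k237 t237))) (.br _ _ _ (.leaf b0 k238 t238) (.br _ _ _ (.leaf b0 k239 t239) (.leaf b0 k240 t240))))) (.br _ _ _ (.br _ _ _ (.br _ _ _ (.leaf b0 k241 t241) (.br _ _ _ (.leaf b0 k242 t242) (.leaf b0 k243 t243))) (.br _ _ _ (.leaf b0 k244 t244) (.br _ _ _ (.leaf b0 k245 t245) (.leaf b0 k246 t246)))) (.br _ _ _ (.br _ _ _ (.leaf b0 k247 t247) (.br _ _ _ (.leaf b0 k248 t248) (.leaf b0 k249 t249))) (.br _ _ _ (.leaf b0 k250 t250) (.br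 _ _ _ (.leaf b0 k251 t251) (.leaf b0 k252 t252)))))) w12
noncomputable def k253 : KT := (.br (Nat.shiftLeft (nat_lit 0x5) (nat_lit 88)) (.br (Nat.shiftLeft (nat_lit 0x1) (nat_lit 89)) (.br (Nat.shiftLeft (nat_lit 0x1) (nat_lit 88)) (.one (nat_lit 0xf016000000001e02d300)) (.one (nat_lit 0x100f016000000201e02c430))) (.br (Nat.shiftLeft (nat_lit 0x3) (nat_lit 88)) (.one (nat_lit 0x200f016000000401e02c430)) (.br (Nat.shiftLeft (nat_lit 0x1) (nat_lit 90)) (.one (nat_lit 0x300f016000000601e02d400)) (.one (nat_lit 0x400f016000000801e02d400))))) (.br (Nat.shiftLeft (nat_lit 0x7) (nat_lit 88)) (.br (Nat.shiftLeft (nat_lit 0x3) (nat_lit 89)) (.one (nat_lit 0x500f016000000a01e02d400)) (.one (nat_lit 0x600f016000000c01e02d400))) (.br (Nat.shiftLeft (nat_lit 0x1) (nat_lit 91)) (.one (nat_lit 0x700f016000000e01e02d400)) (.br (Nat.shiftLeft (nat_lit 0x9) (nat_lit 88)) (.one (nat_lit 0x800f016000001001e02d400)) (.one (nat_lit 0x900f016000001201e02d400))))))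
def t253 : k253.all (jb2 57 fl b0) = true := by decide +kernel
noncomputable def k254 : KT := (.one (nat_lit 0xa00f016000001401e02c430))
def t254 : k254.all (jb2 57 fl b0) = true := by decide +kernel
noncomputable def k255 : KT := (.br (Nat.shiftLeft (nat_lit 0x3) (nat_lit 90)) (.one (nat_lit 0xb00f016000001601e02c430)) (.br (Nat.shiftLeft (nat_lit 0xd) (nat_lit 88)) (.one (nat_lit 0xc00f016000001801e02c430)) (.one (nat_lit 0xd00f016000001a01e02c430))))
def t255 : k255.all (jb2 57 fl b0) = true := by decide +kernel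
noncomputable def k256 : KT := (.br (Nat.shiftLeft (nat_lit 0x801) (nat_lit 89)) (.br (Nat.shiftLeft (nat_lit 0x1) (nat_lit 100)) (.one (nat_lit 0xe00f016000001c01e02c430)) (.one (nat_lit 0x100000f016000200001e02c311))) (.br (Nat.shiftLeft (nat_lit 0x401) (nat_lit 90)) (.one (nat_lit 0x100300f016000200601e02c540)) (.one (nat_lit 0x100400f016000200801e02c540))))
def t256 : k256.all (jb2 57 fl b0) = true := by decide +kernel
noncomputable def k257 : KT := (.br (Nat.shiftLeft (nat_lit 0x803) (nat_lit 89)) (.one (nat_lit 0x100500f016000200a01e02c540)) (.one (nat_lit 0x100600f016000200c01e02c540)))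
def t257 : k257.all (jb2 57 fl b0) = true := by decide +kernel
noncomputable def k258 : KT := (.br (Nat.shiftLeft (nat_lit 0x1009) (nat_lit 88)) (.br (Nat.shiftLeft (nat_lit 0x201) (nat_lit 91)) (.one (nat_lit 0x100700f016000200e01e02c540)) (.one (nat_lit 0x100800f016000201001e02c540))) (.br (Nat.shiftLeft (nat_lit 0x1) (nat_lit 101)) (.one (nat_lit 0x100900f016000201201e02c540)) (.one (nat_lit 0x200000f016000400001e02c311))))
def t258 : k258.all (jb2 57 fl b0) = true := by decide +kernel
noncomputable def k259 : KT := (.one (nat_lit 0x200300f016000400601e02c540))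
def t259 : k259.all (jb2 57 fl b0) = true := by decide +kernel
noncomputable def k260 : KT := (.one (nat_lit 0x200400f016000400801e02c540))
def t260 : k260.all (jb2 57 fl b0) = true := by decide +kernel
noncomputable def k261 : KT := (.one (nat_lit 0x200500f016000400a01e02c540))
def t261 : k261.all (jb2 57 fl b0) = true := by decide +kernel
noncomputable def k262 : KT := (.br (Nat.shiftLeft (nat_lit 0x2007) (nat_lit 88)) (.one (nat_lit 0x200600f016000400c01e02c540)) (.one (nat_lit 0x200700f016000400e01e02c540)))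
def t262 : k262.all (jb2 57 fl b0) = true := by decide +kernel
noncomputable def k263 : KT := (.br (Nat.shiftLeft (nat_lit 0x3) (nat_lit 100)) (.br (Nat.shiftLeft (nat_lit 0x2009) (nat_lit 88)) (.one (nat_lit 0x200800f016000401001e02c540)) (.one (nat_lit 0x200900f016000401201e02c540))) (.br (Nat.shiftLeft (nat_lit 0xc01) (nat_lit 90)) (.one (nat_lit 0x300000f016000600001e02c311)) (.one (nat_lit 0x300400f016000600801e02d500))))
def t263 : k263.all (jb2 57 fl b0) = true := by decide +kernel
noncomputable def k264 : KT := (.one (nat_lit 0x300500f016000600a01e02c540))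
def t264 : k264.all (jb2 57 fl b0) = true := by decide +kernel
noncomputable def k265 : KT := (.br (Nat.shiftLeft (nat_lit 0x3007) (nat_lit 88)) (.one (nat_lit 0x300600f016000600c01e02c540)) (.one (nat_lit 0x300700f016000600e01e02c540)))
def t265 : k265.all (jb2 57 fl b0) = true := by decide +kernel
noncomputable def k266 : KT := (.br (Nat.shiftLeft (nat_lit 0x3009) (nat_lit 88)) (.one (nat_lit 0x300800f016000601001e02c540)) (.br (Nat.shiftLeft (nat_lit 0x1) (nat_lit 102)) (.one (nat_lit 0x300900f016000601201e02c540)) (.one (nat_lit 0x400000f016000800001e02c311))))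
def t266 : k266.all (jb2 57 fl b0) = true := by decide +kernel
noncomputable def k267 : KT := (.one (nat_lit 0x400500f016000800a01e02c540))
def t267 : k267.all (jb2 57 fl b0) = true := by decide +kernel
noncomputable def k268 : KT := (.br (Nat.shiftLeft (nat_lit 0x4007) (nat_lit 88)) (.one (nat_lit 0x400600f016000800c01e02c540)) (.one (nat_lit 0x400700f016000800e01e02c540)))
def t268 : k268.all (jb2 57 fl b0) = true := by decide +kernel
noncomputable def k269 : KT := (.br (Nat.shiftLeft (nat_lit 0x5) (nat_lit 100)) (.br (Nat.shiftLeft (nat_lit 0x4009) (nat_lit 88)) (.one (nat_lit 0x400800f016000801001e02c540)) (.one (nat_lit 0x400900f016000801201e02c540))) (.br (Nat.shiftLeft (nat_lit 0x1401) (nat_lit 90)) (.one (nat_lit 0x500000f016000a00001e02c311)) (.one (nat_lit 0x500600f016000a00c01e02c540))))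
def t269 : k269.all (jb2 57 fl b0) = true := by decide +kernel
noncomputable def k270 : KT := (.br (Nat.shiftLeft (nat_lit 0x1801) (nat_lit 90)) (.br (Nat.shiftLeft (nat_lit 0x5009) (nat_lit 88)) (.br (Nat.shiftLeft (nat_lit 0xa01) (nat_lit 91)) (.one (nat_lit 0x500700f016000a00e01e02c540)) (.one (nat_lit 0x500800f016000a01001e02c540))) (.br (Nat.shiftLeft (nat_lit 0x3) (nat_lit 101)) (.one (nat_lit 0x500900f016000a01201e02c540)) (.one (nat_lit 0x600000f016000c00001e02c311)))) (.br (Nat.shiftLeft (nat_lit 0x6009) (nat_lit 88)) (.br (Nat.shiftLeft (nat_lit 0xc01) (nat_lit 91)) (.one (nat_lit 0x600700f016000c00e01e02c540)) (.one (nat_lit 0x600800f016000c01001e02c540))) (.br (Nat.shiftLeft (nat_lit 0x7) (nat_lit 100)) (.one (nat_lit 0x600900f016000c01201e02c540)) (.one (nat_lit 0x700000f016000e00001e02c311)))))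
def t270 : k270.all (jb2 57 fl b0) = true := by decide +kernel
noncomputable def k271 : KT := (.br (Nat.shiftLeft (nat_lit 0x1000009) (nat_lit 88)) (.br (Nat.shiftLeft (nat_lit 0xd) (nat_lit 100)) (.br (Nat.shiftLeft (nat_lit 0x9) (nat_lit 100)) (.br (Nat.shiftLeft (nat_lit 0x1) (nat_lit 103)) (.br (Nat.shiftLeft (nat_lit 0x7009) (nat_lit 88)) (.one (nat_lit 0x700800f016000e01001e02c540)) (.one (nat_lit 0x700900f016000e01201e02c540))) (.br (Nat.shiftLeft (nat_lit 0x1001) (nat_lit 91)) (.one (nat_lit 0x800000f016001000001e02c311)) (.one (nat_lit 0x800900f016001001201e02c540)))) (.br (Nat.shiftLeft (nat_lit 0xb) (nat_lit 100)) (.br (Nat.shiftLeft (nat_lit 0x5) (nat_lit 101)) (.one (nat_lit 0x900000f016001200001e02c311)) (.one (nat_lit 0xa00000f016001400001e02c311))) (.br (Nat.shiftLeft (nat_lit 0x3) (nat_lit 102)) (.one (nat_lit 0xb00000f016001600001e02c311)) (.one (nat_lit 0xc00000f016001800001e02c311))))) (.br (Nat.shiftLeft (nat_lit 0x400001) (nat_lit 90)) (.br (Nat.shiftLeft (nat_lit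 0xf) (nat_lit 100)) (.br (Nat.shiftLeft (nat_lit 0x7) (nat_lit 101)) (.one (nat_lit 0xd00000f016001a00001e02c311)) (.one (nat_lit 0xe00000f016001c00001e02c311))) (.br (Nat.shiftLeft (nat_lit 0x1) (nat_lit 112)) (.one (nat_lit 0xf00000f016001e00001e02c311)) (.one (nat_lit 0x100000300f016200000601e02c411)))) (.br (Nat.shiftLeft (nat_lit 0x800003) (nat_lit 89)) (.br (Nat.shiftLeft (nat_lit 0x1000005) (nat_lit 88)) (.one (nat_lit 0x100000400f016200000801e02c411)) (.one (nat_lit 0x100000500f016200000a01e02c411))) (.br (Nat.shiftLeft (nat_lit 0x1000007) (nat_lit 88)) (.one (nat_lit 0x100000600f016200000c01e02c411)) (.br (Nat.shiftLeft (nat_lit 0x200001) (nat_lit 91)) (.one (nat_lit 0x100000700f016200000e01e02c411)) (.one (nat_lit 0x100000800f016200001001e02c411))))))) (.br (Nat.shiftLeft (nat_lit 0x1001) (nat_lit 101)) (.br (Nat.shiftLeft (nat_lit 0x2000005) (nat_lit 88)) (.br (Nat.shiftLeft (nat_lit 0x1) (nat_lit 113)) (.br (Nat.shiftLeft (nat_lit 0x801) (nat_lit 101)) (.one (nat_lit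 0x100000900f016200001201e02c411)) (.one (nat_lit 0x100300400f016200600801e02c650))) (.br (Nat.shiftLeft (nat_lit 0x800001) (nat_lit 90)) (.one (nat_lit 0x200000300f016400000601e02c411)) (.one (nat_lit 0x200000400f016400000801e02c411)))) (.br (Nat.shiftLeft (nat_lit 0x2000007) (nat_lit 88)) (.br (Nat.shiftLeft (nat_lit 0x1000003) (nat_lit 89)) (.one (nat_lit 0x200000500f016400000a01e02c411)) (.one (nat_lit 0x200000600f016400000c01e02c411))) (.br (Nat.shiftLeft (nat_lit 0x400001) (nat_lit 91)) (.one (nat_lit 0x200000700f016400000e01e02c411)) (.br (Nat.shiftLeft (nat_lit 0x2000009) (nat_lit 88)) (.one (nat_lit 0x200000800f016400001001e02c411)) (.one (nat_lit 0x200000900f016400001201e02c411)))))) (.br (Nat.shiftLeft (nat_lit 0x1800003) (nat_lit 89)) (.br (Nat.shiftLeft (nat_lit 0xc00001) (nat_lit 90)) (.br (Nat.shiftLeft (nat_lit 0x3) (nat_lit 112)) (.one (nat_lit 0x200300400f016400600801e02c650)) (.one (nat_lit 0x300000300f016600000601e02c411))) (.br (Nat.shiftLeft (nat_lit 0x3000005)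 (nat_lit 88)) (.one (nat_lit 0x300000400f016600000801e02c411)) (.one (nat_lit 0x300000500f016600000a01e02c411)))) (.br (Nat.shiftLeft (nat_lit 0x600001) (nat_lit 91)) (.br (Nat.shiftLeft (nat_lit 0x3000007) (nat_lit 88)) (.one (nat_lit 0x300000600f016600000c01e02c411)) (.one (nat_lit 0x300000700f016600000e01e02c411))) (.br (Nat.shiftLeft (nat_lit 0x3000009) (nat_lit 88)) (.one (nat_lit 0x300000800f016600001001e02c411)) (.br (Nat.shiftLeft (nat_lit 0x1) (nat_lit 114)) (.one (nat_lit 0x300000900f016600001201e02c411)) (.one (nat_lit 0x400000300f016800000601e02c411))))))))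
def t271 : k271.all (jb2 57 fl b0) = true := by decide +kernel
noncomputable def k272 : KT := (.br (Nat.shiftLeft (nat_lit 0x6000009) (nat_lit 88)) (.br (Nat.shiftLeft (nat_lit 0x2800003) (nat_lit 89)) (.br (Nat.shiftLeft (nat_lit 0x800001) (nat_lit 91)) (.br (Nat.shiftLeft (nat_lit 0x2000003) (nat_lit 89)) (.br (Nat.shiftLeft (nat_lit 0x4000005) (nat_lit 88)) (.one (nat_lit 0x400000400f016800000801e02c411)) (.one (nat_lit 0x400000500f016800000a01e02c411))) (.br (Nat.shiftLeft (nat_lit 0x4000007) (nat_lit 88)) (.one (nat_lit 0x400000600f016800000c01e02c411)) (.one (nat_lit 0x400000700f016800000e01e02c411)))) (.br (Nat.shiftLeft (nat_lit 0x5) (nat_lit 112)) (.br (Nat.shiftLeft (nat_lit 0x4000009) (nat_lit 88)) (.one (nat_lit 0x400000800f016800001001e02c411)) (.one (nat_lit 0x400000900f016800001201e02c411))) (.br (Nat.shiftLeft (nat_lit 0x1400001) (nat_lit 90)) (.one (nat_lit 0x500000300f016a00000601e02c411)) (.br (Nat.shiftLeft (nat_lit 0x5000005) (nat_lit 88)) (.one (nat_lit 0x500000400f016a00000801e02c411))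 (.one (nat_lit 0x500000500f016a00000a01e02c411)))))) (.br (Nat.shiftLeft (nat_lit 0x1800001) (nat_lit 90)) (.br (Nat.shiftLeft (nat_lit 0xa00001) (nat_lit 91)) (.br (Nat.shiftLeft (nat_lit 0x5000007) (nat_lit 88)) (.one (nat_lit 0x500000600f016a00000c01e02c411)) (.one (nat_lit 0x500000700f016a00000e01e02c411))) (.br (Nat.shiftLeft (nat_lit 0x5000009) (nat_lit 88)) (.one (nat_lit 0x500000800f016a00001001e02c411)) (.br (Nat.shiftLeft (nat_lit 0x3) (nat_lit 113)) (.one (nat_lit 0x500000900f016a00001201e02c411)) (.one (nat_lit 0x600000300f016c00000601e02c411))))) (.br (Nat.shiftLeft (nat_lit 0x3000003) (nat_lit 89)) (.br (Nat.shiftLeft (nat_lit 0x6000005) (nat_lit 88)) (.one (nat_lit 0x600000400f016c00000801e02c411)) (.one (nat_lit 0x600000500f016c00000a01e02c411))) (.br (Nat.shiftLeft (nat_lit 0x6000007) (nat_lit 88)) (.one (nat_lit 0x600000600f016c00000c01e02c411)) (.br (Nat.shiftLeft (nat_lit 0xc00001) (nat_lit 91)) (.one (nat_lit 0x600000700f016c00000e01e02c411)) (.one (nat_lit 0x600000800f016c00001001e02c411)))))))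 (.br (Nat.shiftLeft (nat_lit 0x8000005) (nat_lit 88)) (.br (Nat.shiftLeft (nat_lit 0x7000007) (nat_lit 88)) (.br (Nat.shiftLeft (nat_lit 0x1c00001) (nat_lit 90)) (.br (Nat.shiftLeft (nat_lit 0x7) (nat_lit 112)) (.one (nat_lit 0x600000900f016c00001201e02c411)) (.one (nat_lit 0x700000300f016e00000601e02c411))) (.br (Nat.shiftLeft (nat_lit 0x7000005) (nat_lit 88)) (.one (nat_lit 0x700000400f016e00000801e02c411)) (.br (Nat.shiftLeft (nat_lit 0x3800003) (nat_lit 89)) (.one (nat_lit 0x700000500f016e00000a01e02c411)) (.one (nat_lit 0x700000600f016e00000c01e02c411))))) (.br (Nat.shiftLeft (nat_lit 0x7000009) (nat_lit 88)) (.br (Nat.shiftLeft (nat_lit 0xe00001) (nat_lit 91)) (.one (nat_lit 0x700000700f016e00000e01e02c411)) (.one (nat_lit 0x700000800f016e00001001e02c411))) (.br (Nat.shiftLeft (nat_lit 0x1) (nat_lit 115)) (.one (nat_lit 0x700000900f016e00001201e02c411)) (.br (Nat.shiftLeft (nat_lit 0x2000001) (nat_lit 90)) (.one (nat_lit 0x800000300f016000000601e12e411)) (.one (nat_lit 0x800000400f016000000801e12e411))))))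 (.br (Nat.shiftLeft (nat_lit 0x9) (nat_lit 112)) (.br (Nat.shiftLeft (nat_lit 0x8000007) (nat_lit 88)) (.br (Nat.shiftLeft (nat_lit 0x4000003) (nat_lit 89)) (.one (nat_lit 0x800000500f016000000a01e12e411)) (.one (nat_lit 0x800000600f016000000c01e12e411))) (.br (Nat.shiftLeft (nat_lit 0x1000001) (nat_lit 91)) (.one (nat_lit 0x800000700f016000000e01e12e411)) (.br (Nat.shiftLeft (nat_lit 0x8000009) (nat_lit 88)) (.one (nat_lit 0x800000800f016000001001e12e411)) (.one (nat_lit 0x800000900f016000001201e12e411))))) (.br (Nat.shiftLeft (nat_lit 0x9000005) (nat_lit 88)) (.br (Nat.shiftLeft (nat_lit 0x2400001) (nat_lit 90)) (.one (nat_lit 0x900000300f016200000601e12e411)) (.one (nat_lit 0x900000400f016200000801e12e411))) (.br (Nat.shiftLeft (nat_lit 0x4800003) (nat_lit 89)) (.one (nat_lit 0x900000500f016200000a01e12e411)) (.br (Nat.shiftLeft (nat_lit 0x9000007) (nat_lit 88)) (.one (nat_lit 0x900000600f016200000c01e12e411)) (.one (nat_lit 0x900000700f016200000e01e12e411))))))))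
def t272 : k272.all (jb2 57 fl b0) = true := by decide +kernel
noncomputable def k273 : KT := (.br (Nat.shiftLeft (nat_lit 0xc000007) (nat_lit 88)) (.br (Nat.shiftLeft (nat_lit 0x2c00001) (nat_lit 90)) (.br (Nat.shiftLeft (nat_lit 0x5000003) (nat_lit 89)) (.br (Nat.shiftLeft (nat_lit 0x5) (nat_lit 113)) (.br (Nat.shiftLeft (nat_lit 0x9000009) (nat_lit 88)) (.one (nat_lit 0x900000800f016200001001e12e411)) (.one (nat_lit 0x900000900f016200001201e12e411))) (.br (Nat.shiftLeft (nat_lit 0x2800001) (nat_lit 90)) (.one (nat_lit 0xa00000300f016400000601e12e411)) (.br (Nat.shiftLeft (nat_lit 0xa000005) (nat_lit 88)) (.one (nat_lit 0xa00000400f016400000801e12e411)) (.one (nat_lit 0xa00000500f016400000a01e12e411))))) (.br (Nat.shiftLeft (nat_lit 0x1400001) (nat_lit 91)) (.br (Nat.shiftLeft (nat_lit 0xa000007) (nat_lit 88)) (.one (nat_lit 0xa00000600f016400000c01e12e411)) (.one (nat_lit 0xa00000700f016400000e01e12e411))) (.br (Nat.shiftLeft (nat_lit 0xa000009) (nat_lit 88)) (.one (nat_lit 0xa00000800f016400001001e12e411))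 (.br (Nat.shiftLeft (nat_lit 0xb) (nat_lit 112)) (.one (nat_lit 0xa00000900f016400001201e12e411)) (.one (nat_lit 0xb00000300f016600000601e12e411)))))) (.br (Nat.shiftLeft (nat_lit 0xb000009) (nat_lit 88)) (.br (Nat.shiftLeft (nat_lit 0x5800003) (nat_lit 89)) (.br (Nat.shiftLeft (nat_lit 0xb000005) (nat_lit 88)) (.one (nat_lit 0xb00000400f016600000801e12e411)) (.one (nat_lit 0xb00000500f016600000a01e12e411))) (.br (Nat.shiftLeft (nat_lit 0xb000007) (nat_lit 88)) (.one (nat_lit 0xb00000600f016600000c01e12e411)) (.br (Nat.shiftLeft (nat_lit 0x1600001) (nat_lit 91)) (.one (nat_lit 0xb00000700f016600000e01e12e411)) (.one (nat_lit 0xb00000800f016600001001e12e411))))) (.br (Nat.shiftLeft (nat_lit 0x3000001) (nat_lit 90)) (.br (Nat.shiftLeft (nat_lit 0x3) (nat_lit 114)) (.one (nat_lit 0xb00000900f016600001201e12e411)) (.one (nat_lit 0xc00000300f016800000601e12e411))) (.br (Nat.shiftLeft (nat_lit 0xc000005) (nat_lit 88)) (.one (nat_lit 0xc00000400f016800000801e12e411)) (.br (Nat.shiftLeft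 (nat_lit 0x6000003) (nat_lit 89)) (.one (nat_lit 0xc00000500f016800000a01e12e411)) (.one (nat_lit 0xc00000600f016800000c01e12e411))))))) (.br (Nat.shiftLeft (nat_lit 0x7000003) (nat_lit 89)) (.br (Nat.shiftLeft (nat_lit 0x6800003) (nat_lit 89)) (.br (Nat.shiftLeft (nat_lit 0xd) (nat_lit 112)) (.br (Nat.shiftLeft (nat_lit 0x1800001) (nat_lit 91)) (.one (nat_lit 0xc00000700f016800000e01e12e411)) (.one (nat_lit 0xc00000800f016800001001e12e411))) (.br (Nat.shiftLeft (nat_lit 0x3400001) (nat_lit 90)) (.one (nat_lit 0xd00000300f016a00000601e12e411)) (.br (Nat.shiftLeft (nat_lit 0xd000005) (nat_lit 88)) (.one (nat_lit 0xd00000400f016a00000801e12e411)) (.one (nat_lit 0xd00000500f016a00000a01e12e411))))) (.br (Nat.shiftLeft (nat_lit 0x7) (nat_lit 113)) (.br (Nat.shiftLeft (nat_lit 0xd000007) (nat_lit 88)) (.one (nat_lit 0xd00000600f016a00000c01e12e411)) (.one (nat_lit 0xd00000700f016a00000e01e12e411))) (.br (Nat.shiftLeft (nat_lit 0x3800001) (nat_lit 90)) (.one (nat_lit 0xe00000300f016c00000601e12e411))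 (.br (Nat.shiftLeft (nat_lit 0xe000005) (nat_lit 88)) (.one (nat_lit 0xe00000400f016c00000801e12e411)) (.one (nat_lit 0xe00000500f016c00000a01e12e411)))))) (.br (Nat.shiftLeft (nat_lit 0x1) (nat_lit 125)) (.br (Nat.shiftLeft (nat_lit 0x3c00001) (nat_lit 90)) (.br (Nat.shiftLeft (nat_lit 0xf) (nat_lit 112)) (.one (nat_lit 0xe00000600f016c00000c01e12e411)) (.one (nat_lit 0xf00000300f016e00000601e12e411))) (.br (Nat.shiftLeft (nat_lit 0xf000005) (nat_lit 88)) (.one (nat_lit 0xf00000400f016e00000801e12e411)) (.br (Nat.shiftLeft (nat_lit 0x1) (nat_lit 124)) (.one (nat_lit 0xf00000500f016e00000a01e12e411)) (.one (nat_lit 0x100000300400f016000600803e42c511))))) (.br (Nat.shiftLeft (nat_lit 0x1) (nat_lit 126)) (.br (Nat.shiftLeft (nat_lit 0x3) (nat_lit 124)) (.one (nat_lit 0x200000300400f016000600805e82c511)) (.one (nat_lit 0x300000300400f016000600807ec2c511))) (.br (Nat.shiftLeft (nat_lit 0x5) (nat_lit 124)) (.one (nat_lit 0x400000300400f016000600809f02c511)) (.br (Nat.shiftLeft (nat_lit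 0x3) (nat_lit 125)) (.one (nat_lit 0x500000300400f01600060080bf42c511)) (.one (nat_lit 0x600000300400f01600060080df82c511))))))))
def t273 : k273.all (jb2 57 fl b0) = true := by decide +kernel
noncomputable def k274 : KT := (.br (Nat.shiftLeft (nat_lit 0x5) (nat_lit 125)) (.br (Nat.shiftLeft (nat_lit 0x1) (nat_lit 127)) (.one (nat_lit 0x700000300400f01600060080ffc2c511)) (.br (Nat.shiftLeft (nat_lit 0x9) (nat_lit 124)) (.one (nat_lit 0x800000300400f016000600812002c511)) (.one (nat_lit 0x900000300400f016000600814042c511)))) (.br (Nat.shiftLeft (nat_lit 0x3) (nat_lit 126)) (.br (Nat.shiftLeft (nat_lit 0xb) (nat_lit 124)) (.one (nat_lit 0xa00000300400f016000600816082c511)) (.one (nat_lit 0xb00000300400f0160006008180c2c511))) (.br (Nat.shiftLeft (nat_lit 0xd) (nat_lit 124)) (.one (nat_lit 0xc00000300400f01600060081a102c511)) (.one (nat_lit 0xd00000300400f01600060081c142c511)))))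
def t274 : k274.all (jb2 57 fl b0) = true := by decide +kernel
noncomputable def s13 : KT := (.br (nat_lit 0x300400f016000600801e02d500) (.br (nat_lit 0x100600f016000200c01e02c540) (.br (nat_lit 0xa00f016000001401e02c430) (.br (nat_lit 0x900f016000001201e02d400) k253 k254) (.br (nat_lit 0xd00f016000001a01e02c430) k255 (.br (nat_lit 0x100400f016000200801e02c540) k256 k257))) (.br (nat_lit 0x200400f016000400801e02c540) (.br (nat_lit 0x200000f016000400001e02c311) k258 (.br (nat_lit 0x200300f016000400601e02c540) k259 k260)) (.br (nat_lit 0x200500f016000400a01e02c540) k261 (.br (nat_lit 0x200700f016000400e01e02c540) k262 k263)))) (.br (nat_lit 0x400700f016000800e01e02c540) (.br (nat_lit 0x300700f016000600e01e02c540) (.br (nat_lit 0x300500f016000600a01e02c540) k264 k265) (.br (nat_lit 0x400000f016000800001e02c311) k266 (.br (nat_lit 0x400500f016000800a01e02c540) k267 k268))) (.br (nat_lit 0x400000300f016800000601e02c411) (.br (nat_lit 0x500600f016000a00c01e02c540) k269 (.br (nat_lit 0x700000f016000e00001e02c311)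 k270 k271)) (.br (nat_lit 0x900000700f016200000e01e12e411) k272 (.br (nat_lit 0x600000300400f01600060080df82c511) k273 k274)))))
noncomputable def u13 : KT := (.one (nat_lit 0xf016000000001e02c320))
def w13 : u13.all (wj 57 s13) = true := by decide +kernel
def o13 : OkW 57 (jb2 57 fl) u13 := .lift s13 _ (.br _ _ _ (.br _ _ _ (.br _ _ _ (.br _ _ _ (.leaf b0 k253 t253) (.leaf b0 k254 t254)) (.br _ _ _ (.leaf b0 k255 t255) (.br _ _ _ (.leaf b0 k256 t256) (.leaf b0 k257 t257)))) (.br _ _ _ (.br _ _ _ (.leaf b0 k258 t258) (.br _ _ _ (.leaf b0 k259 t259) (.leaf b0 k260 t260))) (.br _ _ _ (.leaf b0 k261 t261) (.br _ _ _ (.leaf b0 k262 t262) (.leaf b0 k263 t263))))) (.br _ _ _ (.br _ _ _ (.br _ _ _ (.leaf b0 k264 t264) (.leaf b0 k265 t265)) (.br _ _ _ (.leaf b0 k266 t266) (.br _ _ _ (.leaf b0 k267 t267) (.leaf b0 k268 t268)))) (.br _ _ _ (.br _ _ _ (.leaf b0 k269 t269) (.br _ _ _ (.leaf b0 k270 t270) (.leaf b0 k271 t271))) (.br _ _ _ (.leaf b0 k272 t272) (.br _ _ _ (.leaf b0 k273 t273) (.leaf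 b0 k274 t274)))))) w13
noncomputable def k275 : KT := (.br (Nat.shiftLeft (nat_lit 0x1) (nat_lit 90)) (.br (Nat.shiftLeft (nat_lit 0x1) (nat_lit 89)) (.br (Nat.shiftLeft (nat_lit 0x1) (nat_lit 88)) (.one (nat_lit 0xf017000000001e02f300)) (.one (nat_lit 0x100f017000000201e02e430))) (.br (Nat.shiftLeft (nat_lit 0x3) (nat_lit 88)) (.one (nat_lit 0x200f017000000401e02e430)) (.one (nat_lit 0x300f017000000601e02f400)))) (.br (Nat.shiftLeft (nat_lit 0x3) (nat_lit 89)) (.br (Nat.shiftLeft (nat_lit 0x5) (nat_lit 88)) (.one (nat_lit 0x400f017000000801e02f400)) (.one (nat_lit 0x500f017000000a01e02f400))) (.br (Nat.shiftLeft (nat_lit 0x7) (nat_lit 88)) (.one (nat_lit 0x600f017000000c01e02f400)) (.br (Nat.shiftLeft (nat_lit 0x1) (nat_lit 91)) (.one (nat_lit 0x700f017000000e01e02f400)) (.one (nat_lit 0x800f017000001001e02f400))))))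
def t275 : k275.all (jb2 57 fl b0) = true := by decide +kernel
noncomputable def k276 : KT := (.one (nat_lit 0x900f017000001201e02e430))
def t276 : k276.all (jb2 57 fl b0) = true := by decide +kernel
noncomputable def k277 : KT := (.br (Nat.shiftLeft (nat_lit 0xb) (nat_lit 88)) (.one (nat_lit 0xa00f017000001401e02e430)) (.br (Nat.shiftLeft (nat_lit 0x3) (nat_lit 90)) (.one (nat_lit 0xb00f017000001601e02e430)) (.one (nat_lit 0xc00f017000001801e02e430))))
def t277 : k277.all (jb2 57 fl b0) = true := by decide +kernel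
noncomputable def k278 : KT := (.br (Nat.shiftLeft (nat_lit 0x1) (nat_lit 100)) (.br (Nat.shiftLeft (nat_lit 0x7) (nat_lit 89)) (.one (nat_lit 0xd00f017000001a01e02e430)) (.one (nat_lit 0xe00f017000001c01e02e430))) (.br (Nat.shiftLeft (nat_lit 0x801) (nat_lit 89)) (.one (nat_lit 0x100000f017000200001e02e311)) (.br (Nat.shiftLeft (nat_lit 0x401) (nat_lit 90)) (.one (nat_lit 0x100300f017000200601e02e540)) (.one (nat_lit 0x100400f017000200801e02e540)))))
def t278 : k278.all (jb2 57 fl b0) = true := by decide +kernel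
noncomputable def k279 : KT := (.br (Nat.shiftLeft (nat_lit 0x1007) (nat_lit 88)) (.br (Nat.shiftLeft (nat_lit 0x803) (nat_lit 89)) (.one (nat_lit 0x100500f017000200a01e02e540)) (.one (nat_lit 0x100600f017000200c01e02e540))) (.br (Nat.shiftLeft (nat_lit 0x201) (nat_lit 91)) (.one (nat_lit 0x100700f017000200e01e02e540)) (.br (Nat.shiftLeft (nat_lit 0x1) (nat_lit 101)) (.one (nat_lit 0x100800f017000201001e02e540)) (.one (nat_lit 0x200000f017000400001e02e311)))))
def t279 : k279.all (jb2 57 fl b0) = true := by decide +kernel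
noncomputable def k280 : KT := (.one (nat_lit 0x200300f017000400601e02e540))
def t280 : k280.all (jb2 57 fl b0) = true := by decide +kernel
noncomputable def k281 : KT := (.one (nat_lit 0x200400f017000400801e02e540))
def t281 : k281.all (jb2 57 fl b0) = true := by decide +kernel
noncomputable def k282 : KT := (.br (Nat.shiftLeft (nat_lit 0x1003) (nat_lit 89)) (.one (nat_lit 0x200500f017000400a01e02e540)) (.one (nat_lit 0x200600f017000400c01e02e540)))
def t282 : k282.all (jb2 57 fl b0) = true := by decide +kernel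
noncomputable def k283 : KT := (.br (Nat.shiftLeft (nat_lit 0x401) (nat_lit 91)) (.one (nat_lit 0x200700f017000400e01e02e540)) (.br (Nat.shiftLeft (nat_lit 0x3) (nat_lit 100)) (.one (nat_lit 0x200800f017000401001e02e540)) (.one (nat_lit 0x300000f017000600001e02e311))))
def t283 : k283.all (jb2 57 fl b0) = true := by decide +kernel
noncomputable def k284 : KT := (.one (nat_lit 0x300400f017000600801e02e540))
def t284 : k284.all (jb2 57 fl b0) = true := by decide +kernel
noncomputable def k285 : KT := (.br (Nat.shiftLeft (nat_lit 0x1803) (nat_lit 89)) (.one (nat_lit 0x300500f017000600a01e02e540)) (.one (nat_lit 0x300600f017000600c01e02e540)))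
def t285 : k285.all (jb2 57 fl b0) = true := by decide +kernel
noncomputable def k286 : KT := (.br (Nat.shiftLeft (nat_lit 0x1) (nat_lit 102)) (.br (Nat.shiftLeft (nat_lit 0x601) (nat_lit 91)) (.one (nat_lit 0x300700f017000600e01e02e540)) (.one (nat_lit 0x300800f017000601001e02e540))) (.br (Nat.shiftLeft (nat_lit 0x1001) (nat_lit 90)) (.one (nat_lit 0x400000f017000800001e02e311)) (.one (nat_lit 0x400500f017000800a01e02e540))))
def t286 : k286.all (jb2 57 fl b0) = true := by decide +kernel
noncomputable def k287 : KT := (.br (Nat.shiftLeft (nat_lit 0x801) (nat_lit 91)) (.br (Nat.shiftLeft (nat_lit 0x4007) (nat_lit 88)) (.one (nat_lit 0x400600f017000800c01e02e540)) (.one (nat_lit 0x400700f017000800e01e02e540))) (.br (Nat.shiftLeft (nat_lit 0x5) (nat_lit 100)) (.one (nat_lit 0x400800f017000801001e02e540)) (.one (nat_lit 0x500000f017000a00001e02e311))))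
def t287 : k287.all (jb2 57 fl b0) = true := by decide +kernel
noncomputable def k288 : KT := (.br (Nat.shiftLeft (nat_lit 0x400001) (nat_lit 90)) (.br (Nat.shiftLeft (nat_lit 0x1) (nat_lit 103)) (.br (Nat.shiftLeft (nat_lit 0x1801) (nat_lit 90)) (.br (Nat.shiftLeft (nat_lit 0xa01) (nat_lit 91)) (.br (Nat.shiftLeft (nat_lit 0x5007) (nat_lit 88)) (.one (nat_lit 0x500600f017000a00c01e02e540)) (.one (nat_lit 0x500700f017000a00e01e02e540))) (.br (Nat.shiftLeft (nat_lit 0x3) (nat_lit 101)) (.one (nat_lit 0x500800f017000a01001e02e540)) (.one (nat_lit 0x600000f017000c00001e02e311)))) (.br (Nat.shiftLeft (nat_lit 0x7) (nat_lit 100)) (.br (Nat.shiftLeft (nat_lit 0xc01) (nat_lit 91)) (.one (nat_lit 0x600700f017000c00e01e02e540)) (.one (nat_lit 0x600800f017000c01001e02e540))) (.br (Nat.shiftLeft (nat_lit 0xe01) (nat_lit 91)) (.one (nat_lit 0x700000f017000e00001e02e311)) (.one (nat_lit 0x700800f017000e01001e02e540))))) (.br (Nat.shiftLeft (nat_lit 0x3) (nat_lit 102)) (.br (Nat.shiftLeft (nat_lit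 0x5) (nat_lit 101)) (.br (Nat.shiftLeft (nat_lit 0x9) (nat_lit 100)) (.one (nat_lit 0x800000f017001000001e02e311)) (.one (nat_lit 0x900000f017001200001e02e311))) (.br (Nat.shiftLeft (nat_lit 0xb) (nat_lit 100)) (.one (nat_lit 0xa00000f017001400001e02e311)) (.one (nat_lit 0xb00000f017001600001e02e311)))) (.br (Nat.shiftLeft (nat_lit 0x7) (nat_lit 101)) (.br (Nat.shiftLeft (nat_lit 0xd) (nat_lit 100)) (.one (nat_lit 0xc00000f017001800001e02e311)) (.one (nat_lit 0xd00000f017001a00001e02e311))) (.br (Nat.shiftLeft (nat_lit 0xf) (nat_lit 100)) (.one (nat_lit 0xe00000f017001c00001e02e311)) (.br (Nat.shiftLeft (nat_lit 0x1) (nat_lit 112)) (.one (nat_lit 0xf00000f017001e00001e02e311)) (.one (nat_lit 0x100000300f017200000601e02e411))))))) (.br (Nat.shiftLeft (nat_lit 0x2000007) (nat_lit 88)) (.br (Nat.shiftLeft (nat_lit 0x200001) (nat_lit 91)) (.br (Nat.shiftLeft (nat_lit 0x800003) (nat_lit 89)) (.br (Nat.shiftLeft (nat_lit 0x1000005) (nat_lit 88)) (.one (nat_lit 0x100000400f017200000801e02e411))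 (.one (nat_lit 0x100000500f017200000a01e02e411))) (.br (Nat.shiftLeft (nat_lit 0x1000007) (nat_lit 88)) (.one (nat_lit 0x100000600f017200000c01e02e411)) (.one (nat_lit 0x100000700f017200000e01e02e411)))) (.br (Nat.shiftLeft (nat_lit 0x800001) (nat_lit 90)) (.br (Nat.shiftLeft (nat_lit 0x1) (nat_lit 113)) (.one (nat_lit 0x100000800f017200001001e02e411)) (.one (nat_lit 0x200000300f017400000601e02e411))) (.br (Nat.shiftLeft (nat_lit 0x2000005) (nat_lit 88)) (.one (nat_lit 0x200000400f017400000801e02e411)) (.br (Nat.shiftLeft (nat_lit 0x1000003) (nat_lit 89)) (.one (nat_lit 0x200000500f017400000a01e02e411)) (.one (nat_lit 0x200000600f017400000c01e02e411)))))) (.br (Nat.shiftLeft (nat_lit 0x3000005) (nat_lit 88)) (.br (Nat.shiftLeft (nat_lit 0x3) (nat_lit 112)) (.br (Nat.shiftLeft (nat_lit 0x400001) (nat_lit 91)) (.one (nat_lit 0x200000700f017400000e01e02e411)) (.one (nat_lit 0x200000800f017400001001e02e411))) (.br (Nat.shiftLeft (nat_lit 0xc00001) (nat_lit 90)) (.one (nat_lit 0x300000300f017600000601e02e411))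 (.one (nat_lit 0x300000400f017600000801e02e411)))) (.br (Nat.shiftLeft (nat_lit 0x3000007) (nat_lit 88)) (.br (Nat.shiftLeft (nat_lit 0x1800003) (nat_lit 89)) (.one (nat_lit 0x300000500f017600000a01e02e411)) (.one (nat_lit 0x300000600f017600000c01e02e411))) (.br (Nat.shiftLeft (nat_lit 0x600001) (nat_lit 91)) (.one (nat_lit 0x300000700f017600000e01e02e411)) (.br (Nat.shiftLeft (nat_lit 0x1) (nat_lit 114)) (.one (nat_lit 0x300000800f017600001001e02e411)) (.one (nat_lit 0x400000300f017800000601e02e411))))))))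
def t288 : k288.all (jb2 57 fl b0) = true := by decide +kernel
noncomputable def k289 : KT := (.br (Nat.shiftLeft (nat_lit 0x3800003) (nat_lit 89)) (.br (Nat.shiftLeft (nat_lit 0xa00001) (nat_lit 91)) (.br (Nat.shiftLeft (nat_lit 0x5) (nat_lit 112)) (.br (Nat.shiftLeft (nat_lit 0x2000003) (nat_lit 89)) (.br (Nat.shiftLeft (nat_lit 0x4000005) (nat_lit 88)) (.one (nat_lit 0x400000400f017800000801e02e411)) (.one (nat_lit 0x400000500f017800000a01e02e411))) (.br (Nat.shiftLeft (nat_lit 0x4000007) (nat_lit 88)) (.one (nat_lit 0x400000600f017800000c01e02e411)) (.br (Nat.shiftLeft (nat_lit 0x800001) (nat_lit 91)) (.one (nat_lit 0x400000700f017800000e01e02e411)) (.one (nat_lit 0x400000800f017800001001e02e411))))) (.br (Nat.shiftLeft (nat_lit 0x5000005) (nat_lit 88)) (.br (Nat.shiftLeft (nat_lit 0x1400001) (nat_lit 90)) (.one (nat_lit 0x500000300f017a00000601e02e411)) (.one (nat_lit 0x500000400f017a00000801e02e411))) (.br (Nat.shiftLeft (nat_lit 0x2800003) (nat_lit 89)) (.one (nat_lit 0x500000500f017a00000a01e02e411))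 (.br (Nat.shiftLeft (nat_lit 0x5000007) (nat_lit 88)) (.one (nat_lit 0x500000600f017a00000c01e02e411)) (.one (nat_lit 0x500000700f017a00000e01e02e411)))))) (.br (Nat.shiftLeft (nat_lit 0x6000007) (nat_lit 88)) (.br (Nat.shiftLeft (nat_lit 0x1800001) (nat_lit 90)) (.br (Nat.shiftLeft (nat_lit 0x3) (nat_lit 113)) (.one (nat_lit 0x500000800f017a00001001e02e411)) (.one (nat_lit 0x600000300f017c00000601e02e411))) (.br (Nat.shiftLeft (nat_lit 0x6000005) (nat_lit 88)) (.one (nat_lit 0x600000400f017c00000801e02e411)) (.br (Nat.shiftLeft (nat_lit 0x3000003) (nat_lit 89)) (.one (nat_lit 0x600000500f017c00000a01e02e411)) (.one (nat_lit 0x600000600f017c00000c01e02e411))))) (.br (Nat.shiftLeft (nat_lit 0x7) (nat_lit 112)) (.br (Nat.shiftLeft (nat_lit 0xc00001) (nat_lit 91)) (.one (nat_lit 0x600000700f017c00000e01e02e411)) (.one (nat_lit 0x600000800f017c00001001e02e411))) (.br (Nat.shiftLeft (nat_lit 0x1c00001) (nat_lit 90)) (.one (nat_lit 0x700000300f017e00000601e02e411)) (.br (Nat.shiftLeft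 (nat_lit 0x7000005) (nat_lit 88)) (.one (nat_lit 0x700000400f017e00000801e02e411)) (.one (nat_lit 0x700000500f017e00000a01e02e411))))))) (.br (Nat.shiftLeft (nat_lit 0x2400001) (nat_lit 90)) (.br (Nat.shiftLeft (nat_lit 0x8000005) (nat_lit 88)) (.br (Nat.shiftLeft (nat_lit 0xe00001) (nat_lit 91)) (.br (Nat.shiftLeft (nat_lit 0x7000007) (nat_lit 88)) (.one (nat_lit 0x700000600f017e00000c01e02e411)) (.one (nat_lit 0x700000700f017e00000e01e02e411))) (.br (Nat.shiftLeft (nat_lit 0x1) (nat_lit 115)) (.one (nat_lit 0x700000800f017e00001001e02e411)) (.br (Nat.shiftLeft (nat_lit 0x2000001) (nat_lit 90)) (.one (nat_lit 0x800000300f017000000601e130411)) (.one (nat_lit 0x800000400f017000000801e130411))))) (.br (Nat.shiftLeft (nat_lit 0x8000007) (nat_lit 88)) (.br (Nat.shiftLeft (nat_lit 0x4000003) (nat_lit 89)) (.one (nat_lit 0x800000500f017000000a01e130411)) (.one (nat_lit 0x800000600f017000000c01e130411))) (.br (Nat.shiftLeft (nat_lit 0x1000001) (nat_lit 91)) (.one (nat_lit 0x800000700f017000000e01e130411))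 (.br (Nat.shiftLeft (nat_lit 0x9) (nat_lit 112)) (.one (nat_lit 0x800000800f017000001001e130411)) (.one (nat_lit 0x900000300f017200000601e130411)))))) (.br (Nat.shiftLeft (nat_lit 0x5) (nat_lit 113)) (.br (Nat.shiftLeft (nat_lit 0x4800003) (nat_lit 89)) (.br (Nat.shiftLeft (nat_lit 0x9000005) (nat_lit 88)) (.one (nat_lit 0x900000400f017200000801e130411)) (.one (nat_lit 0x900000500f017200000a01e130411))) (.br (Nat.shiftLeft (nat_lit 0x9000007) (nat_lit 88)) (.one (nat_lit 0x900000600f017200000c01e130411)) (.br (Nat.shiftLeft (nat_lit 0x1200001) (nat_lit 91)) (.one (nat_lit 0x900000700f017200000e01e130411)) (.one (nat_lit 0x900000800f017200001001e130411))))) (.br (Nat.shiftLeft (nat_lit 0xa000005) (nat_lit 88)) (.br (Nat.shiftLeft (nat_lit 0x2800001) (nat_lit 90)) (.one (nat_lit 0xa00000300f017400000601e130411)) (.one (nat_lit 0xa00000400f017400000801e130411))) (.br (Nat.shiftLeft (nat_lit 0x5000003) (nat_lit 89)) (.one (nat_lit 0xa00000500f017400000a01e130411)) (.br (Nat.shiftLeft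 (nat_lit 0xa000007) (nat_lit 88)) (.one (nat_lit 0xa00000600f017400000c01e130411)) (.one (nat_lit 0xa00000700f017400000e01e130411))))))))
def t289 : k289.all (jb2 57 fl b0) = true := by decide +kernel
noncomputable def k290 : KT := (.br (Nat.shiftLeft (nat_lit 0x6000003) (nat_lit 89)) (.br (Nat.shiftLeft (nat_lit 0xb000007) (nat_lit 88)) (.br (Nat.shiftLeft (nat_lit 0x2c00001) (nat_lit 90)) (.br (Nat.shiftLeft (nat_lit 0xb) (nat_lit 112)) (.one (nat_lit 0xa00000800f017400001001e130411)) (.one (nat_lit 0xb00000300f017600000601e130411))) (.br (Nat.shiftLeft (nat_lit 0xb000005) (nat_lit 88)) (.one (nat_lit 0xb00000400f017600000801e130411)) (.br (Nat.shiftLeft (nat_lit 0x5800003) (nat_lit 89)) (.one (nat_lit 0xb00000500f017600000a01e130411)) (.one (nat_lit 0xb00000600f017600000c01e130411))))) (.br (Nat.shiftLeft (nat_lit 0x3) (nat_lit 114)) (.br (Nat.shiftLeft (nat_lit 0x1600001) (nat_lit 91)) (.one (nat_lit 0xb00000700f017600000e01e130411)) (.one (nat_lit 0xb00000800f017600001001e130411)))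 (.br (Nat.shiftLeft (nat_lit 0x3000001) (nat_lit 90)) (.one (nat_lit 0xc00000300f017800000601e130411)) (.br (Nat.shiftLeft (nat_lit 0xc000005) (nat_lit 88)) (.one (nat_lit 0xc00000400f017800000801e130411)) (.one (nat_lit 0xc00000500f017800000a01e130411)))))) (.br (Nat.shiftLeft (nat_lit 0x6800003) (nat_lit 89)) (.br (Nat.shiftLeft (nat_lit 0xd) (nat_lit 112)) (.br (Nat.shiftLeft (nat_lit 0xc000007) (nat_lit 88)) (.one (nat_lit 0xc00000600f017800000c01e130411)) (.one (nat_lit 0xc00000700f017800000e01e130411))) (.br (Nat.shiftLeft (nat_lit 0x3400001) (nat_lit 90)) (.one (nat_lit 0xd00000300f017a00000601e130411)) (.br (Nat.shiftLeft (nat_lit 0xd000005) (nat_lit 88)) (.one (nat_lit 0xd00000400f017a00000801e130411)) (.one (nat_lit 0xd00000500f017a00000a01e130411))))) (.br (Nat.shiftLeft (nat_lit 0xe000005) (nat_lit 88)) (.br (Nat.shiftLeft (nat_lit 0x7) (nat_lit 113)) (.one (nat_lit 0xd00000600f017a00000c01e130411)) (.br (Nat.shiftLeft (nat_lit 0x3800001) (nat_lit 90)) (.one (nat_lit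 0xe00000300f017c00000601e130411)) (.one (nat_lit 0xe00000400f017c00000801e130411)))) (.br (Nat.shiftLeft (nat_lit 0xf) (nat_lit 112)) (.one (nat_lit 0xe00000500f017c00000a01e130411)) (.br (Nat.shiftLeft (nat_lit 0x3c00001) (nat_lit 90)) (.one (nat_lit 0xf00000300f017e00000601e130411)) (.one (nat_lit 0xf00000400f017e00000801e130411)))))))
def t290 : k290.all (jb2 57 fl b0) = true := by decide +kernel
noncomputable def s14 : KT := (.br (nat_lit 0x200600f017000400c01e02e540) (.br (nat_lit 0x100400f017000200801e02e540) (.br (nat_lit 0x900f017000001201e02e430) (.br (nat_lit 0x800f017000001001e02f400) k275 k276) (.br (nat_lit 0xc00f017000001801e02e430) k277 k278)) (.br (nat_lit 0x200300f017000400601e02e540) (.br (nat_lit 0x200000f017000400001e02e311) k279 k280) (.br (nat_lit 0x200400f017000400801e02e540) k281 k282))) (.br (nat_lit 0x400500f017000800a01e02e540) (.br (nat_lit 0x300400f017000600801e02e540) (.br (nat_lit 0x300000f017000600001e02e311) k283 k284) (.br (nat_lit 0x300600f017000600c01e02e540)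 k285 k286)) (.br (nat_lit 0x400000300f017800000601e02e411) (.br (nat_lit 0x500000f017000a00001e02e311) k287 k288) (.br (nat_lit 0xa00000700f017400000e01e130411) k289 k290))))
noncomputable def u14 : KT := (.one (nat_lit 0xf017000000001e02e320))
def w14 : u14.all (wj 57 s14) = true := by decide +kernel
def o14 : OkW 57 (jb2 57 fl) u14 := .lift s14 _ (.br _ _ _ (.br _ _ _ (.br _ _ _ (.br _ _ _ (.leaf b0 k275 t275) (.leaf b0 k276 t276)) (.br _ _ _ (.leaf b0 k277 t277) (.leaf b0 k278 t278))) (.br _ _ _ (.br _ _ _ (.leaf b0 k279 t279) (.leaf b0 k280 t280)) (.br _ _ _ (.leaf b0 k281 t281) (.leaf b0 k282 t282)))) (.br _ _ _ (.br _ _ _ (.br _ _ _ (.leaf b0 k283 t283) (.leaf b0 k284 t284)) (.br _ _ _ (.leaf b0 k285 t285) (.leaf b0 k286 t286))) (.br _ _ _ (.br _ _ _ (.leaf b0 k287 t287) (.leaf b0 k288 t288)) (.br _ _ _ (.leaf b0 k289 t289) (.leaf b0 k290 t290))))) w14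
noncomputable def k291 : KT := (.br (Nat.shiftLeft (nat_lit 0x100f019) (nat_lit 64)) (.br (Nat.shiftLeft (nat_lit 0xf019) (nat_lit 64)) (.one (nat_lit 0xf018000000001e031300)) (.br (Nat.shiftLeft (nat_lit 0x1) (nat_lit 88)) (.one (nat_lit 0xf019000000001e033300)) (.one (nat_lit 0x100f018000000201e030430)))) (.br (Nat.shiftLeft (nat_lit 0x200f019) (nat_lit 64)) (.br (Nat.shiftLeft (nat_lit 0x1) (nat_lit 89)) (.one (nat_lit 0x100f019000000201e032430)) (.one (nat_lit 0x200f018000000401e030430))) (.br (Nat.shiftLeft (nat_lit 0x3) (nat_lit 88)) (.one (nat_lit 0x200f019000000401e032430)) (.one (nat_lit 0x300f018000000601e031400)))))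
def t291 : k291.all (jb2 57 fl b0) = true := by decide +kernel
noncomputable def k292 : KT := (.br (Nat.shiftLeft (nat_lit 0x5) (nat_lit 88)) (.br (Nat.shiftLeft (nat_lit 0x1) (nat_lit 90)) (.one (nat_lit 0x300f019000000601e032430)) (.br (Nat.shiftLeft (nat_lit 0x400f019) (nat_lit 64)) (.one (nat_lit 0x400f018000000801e031400)) (.one (nat_lit 0x400f019000000801e033400)))) (.br (Nat.shiftLeft (nat_lit 0x500f019) (nat_lit 64)) (.one (nat_lit 0x500f018000000a01e031400)) (.br (Nat.shiftLeft (nat_lit 0x3) (nat_lit 89)) (.one (nat_lit 0x500f019000000a01e033400)) (.one (nat_lit 0x600f018000000c01e031400)))))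
def t292 : k292.all (jb2 57 fl b0) = true := by decide +kernel
noncomputable def k293 : KT := (.br (Nat.shiftLeft (nat_lit 0x7) (nat_lit 88)) (.one (nat_lit 0x600f019000000c01e032430)) (.one (nat_lit 0x700f018000000e01e031400)))
def t293 : k293.all (jb2 57 fl b0) = true := by decide +kernel
noncomputable def k294 : KT := (.one (nat_lit 0x700f019000000e01e032430))
def t294 : k294.all (jb2 57 fl b0) = true := by decide +kernel
noncomputable def k295 : KT := (.one (nat_lit 0x800f018000001001e030430))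
def t295 : k295.all (jb2 57 fl b0) = true := by decide +kernel
noncomputable def k296 : KT := (.br (Nat.shiftLeft (nat_lit 0x9) (nat_lit 88)) (.one (nat_lit 0x800f019000001001e032430)) (.one (nat_lit 0x900f018000001201e030430)))
def t296 : k296.all (jb2 57 fl b0) = true := by decide +kernel
noncomputable def k297 : KT := (.br (Nat.shiftLeft (nat_lit 0x5) (nat_lit 89)) (.one (nat_lit 0x900f019000001201e032430)) (.br (Nat.shiftLeft (nat_lit 0xa00f019) (nat_lit 64)) (.one (nat_lit 0xa00f018000001401e030430)) (.one (nat_lit 0xa00f019000001401e032430))))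
def t297 : k297.all (jb2 57 fl b0) = true := by decide +kernel
noncomputable def k298 : KT := (.br (Nat.shiftLeft (nat_lit 0xd00f019) (nat_lit 64)) (.br (Nat.shiftLeft (nat_lit 0x3) (nat_lit 90)) (.br (Nat.shiftLeft (nat_lit 0xb00f019) (nat_lit 64)) (.one (nat_lit 0xb00f018000001601e030430)) (.one (nat_lit 0xb00f019000001601e032430))) (.br (Nat.shiftLeft (nat_lit 0xc00f019) (nat_lit 64)) (.one (nat_lit 0xc00f018000001801e030430)) (.br (Nat.shiftLeft (nat_lit 0xd) (nat_lit 88)) (.one (nat_lit 0xc00f019000001801e032430)) (.one (nat_lit 0xd00f018000001a01e030430))))) (.br (Nat.shiftLeft (nat_lit 0xe00f019) (nat_lit 64)) (.br (Nat.shiftLeft (nat_lit 0x7) (nat_lit 89)) (.one (nat_lit 0xd00f019000001a01e032430)) (.one (nat_lit 0xe00f018000001c01e030430))) (.br (Nat.shiftLeft (nat_lit 0x1) (nat_lit 100)) (.one (nat_lit 0xe00f019000001c01e032430)) (.br (Nat.shiftLeft (nat_lit 0x100000f019) (nat_lit 64)) (.one (nat_lit 0x100000f018000200001e030311)) (.one (nat_lit 0x100000f019000200001e032311))))))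
def t298 : k298.all (jb2 57 fl b0) = true := by decide +kernel
noncomputable def k299 : KT := (.br (Nat.shiftLeft (nat_lit 0x401) (nat_lit 90)) (.one (nat_lit 0x100300f018000200601e030540)) (.br (Nat.shiftLeft (nat_lit 0x100400f019) (nat_lit 64)) (.one (nat_lit 0x100400f018000200801e030540)) (.one (nat_lit 0x100400f019000200801e032540))))
def t299 : k299.all (jb2 57 fl b0) = true := by decide +kernel
noncomputable def k300 : KT := (.br (Nat.shiftLeft (nat_lit 0x1007) (nat_lit 88)) (.br (Nat.shiftLeft (nat_lit 0x100500f019) (nat_lit 64)) (.one (nat_lit 0x100500f018000200a01e030540)) (.br (Nat.shiftLeft (nat_lit 0x803) (nat_lit 89)) (.one (nat_lit 0x100500f019000200a01e032540)) (.one (nat_lit 0x100600f018000200c01e030540)))) (.br (Nat.shiftLeft (nat_lit 0x1) (nat_lit 101)) (.one (nat_lit 0x100700f018000200e01e030540)) (.br (Nat.shiftLeft (nat_lit 0x200000f019) (nat_lit 64)) (.one (nat_lit 0x200000f018000400001e030311)) (.one (nat_lit 0x200000f019000400001e032311)))))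
def t300 : k300.all (jb2 57 fl b0) = true := by decide +kernel
noncomputable def k301 : KT := (.one (nat_lit 0x200300f018000400601e030540))
def t301 : k301.all (jb2 57 fl b0) = true := by decide +kernel
noncomputable def k302 : KT := (.br (Nat.shiftLeft (nat_lit 0x200400f019) (nat_lit 64)) (.one (nat_lit 0x200400f018000400801e030540)) (.one (nat_lit 0x200400f019000400801e032540)))
def t302 : k302.all (jb2 57 fl b0) = true := by decide +kernel
noncomputable def k303 : KT := (.br (Nat.shiftLeft (nat_lit 0x200500f019) (nat_lit 64)) (.one (nat_lit 0x200500f018000400a01e030540)) (.br (Nat.shiftLeft (nat_lit 0x1003) (nat_lit 89)) (.one (nat_lit 0x200500f019000400a01e032540)) (.one (nat_lit 0x200600f018000400c01e030540))))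
def t303 : k303.all (jb2 57 fl b0) = true := by decide +kernel
noncomputable def k304 : KT := (.br (Nat.shiftLeft (nat_lit 0x300000f019) (nat_lit 64)) (.br (Nat.shiftLeft (nat_lit 0x3) (nat_lit 100)) (.one (nat_lit 0x200700f018000400e01e030540)) (.one (nat_lit 0x300000f018000600001e030311))) (.br (Nat.shiftLeft (nat_lit 0xc01) (nat_lit 90)) (.one (nat_lit 0x300000f019000600001e032311)) (.one (nat_lit 0x300400f018000600801e030540))))
def t304 : k304.all (jb2 57 fl b0) = true := by decide +kernel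
noncomputable def k305 : KT := (.br (Nat.shiftLeft (nat_lit 0x3005) (nat_lit 88)) (.one (nat_lit 0x300400f019000600801e032540)) (.one (nat_lit 0x300500f018000600a01e030540)))
def t305 : k305.all (jb2 57 fl b0) = true := by decide +kernel
noncomputable def k306 : KT := (.br (Nat.shiftLeft (nat_lit 0x3007) (nat_lit 88)) (.br (Nat.shiftLeft (nat_lit 0x1803) (nat_lit 89)) (.one (nat_lit 0x300500f019000600a01e032540)) (.one (nat_lit 0x300600f018000600c01e030540))) (.br (Nat.shiftLeft (nat_lit 0x1) (nat_lit 102)) (.one (nat_lit 0x300700f018000600e01e030540)) (.br (Nat.shiftLeft (nat_lit 0x400000f019) (nat_lit 64)) (.one (nat_lit 0x400000f018000800001e030311)) (.one (nat_lit 0x400000f019000800001e032311)))))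
def t306 : k306.all (jb2 57 fl b0) = true := by decide +kernel
noncomputable def k307 : KT := (.br (Nat.shiftLeft (nat_lit 0x400500f019) (nat_lit 64)) (.one (nat_lit 0x400500f018000800a01e030540)) (.br (Nat.shiftLeft (nat_lit 0x2003) (nat_lit 89)) (.one (nat_lit 0x400500f019000800a01e032540)) (.one (nat_lit 0x400600f018000800c01e030540))))
def t307 : k307.all (jb2 57 fl b0) = true := by decide +kernel
noncomputable def k308 : KT := (.br (Nat.shiftLeft (nat_lit 0xd) (nat_lit 100)) (.br (Nat.shiftLeft (nat_lit 0x1) (nat_lit 103)) (.br (Nat.shiftLeft (nat_lit 0x3) (nat_lit 101)) (.br (Nat.shiftLeft (nat_lit 0x500000f019) (nat_lit 64)) (.br (Nat.shiftLeft (nat_lit 0x5) (nat_lit 100)) (.one (nat_lit 0x400700f018000800e01e030540)) (.one (nat_lit 0x500000f018000a00001e030311))) (.br (Nat.shiftLeft (nat_lit 0x1401) (nat_lit 90)) (.one (nat_lit 0x500000f019000a00001e032311)) (.br (Nat.shiftLeft (nat_lit 0x5007) (nat_lit 88)) (.one (nat_lit 0x500600f018000a00c01e030540)) (.one (nat_lit 0x500700f018000a00e01e030540)))))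 (.br (Nat.shiftLeft (nat_lit 0x1801) (nat_lit 90)) (.br (Nat.shiftLeft (nat_lit 0x600000f019) (nat_lit 64)) (.one (nat_lit 0x600000f018000c00001e030311)) (.one (nat_lit 0x600000f019000c00001e032311))) (.br (Nat.shiftLeft (nat_lit 0x7) (nat_lit 100)) (.one (nat_lit 0x600700f018000c00e01e030540)) (.br (Nat.shiftLeft (nat_lit 0x700000f019) (nat_lit 64)) (.one (nat_lit 0x700000f018000e00001e030311)) (.one (nat_lit 0x700000f019000e00001e032311)))))) (.br (Nat.shiftLeft (nat_lit 0xa00000f019) (nat_lit 64)) (.br (Nat.shiftLeft (nat_lit 0x9) (nat_lit 100)) (.br (Nat.shiftLeft (nat_lit 0x800000f019) (nat_lit 64)) (.one (nat_lit 0x800000f018001000001e030311)) (.one (nat_lit 0x800000f019001000001e032311))) (.br (Nat.shiftLeft (nat_lit 0x900000f019) (nat_lit 64)) (.one (nat_lit 0x900000f018001200001e030311)) (.br (Nat.shiftLeft (nat_lit 0x5) (nat_lit 101)) (.one (nat_lit 0x900000f019001200001e032311)) (.one (nat_lit 0xa00000f018001400001e030311))))) (.br (Nat.shiftLeft (nat_lit 0xb00000f019)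 (nat_lit 64)) (.br (Nat.shiftLeft (nat_lit 0xb) (nat_lit 100)) (.one (nat_lit 0xa00000f019001400001e032311)) (.one (nat_lit 0xb00000f018001600001e030311))) (.br (Nat.shiftLeft (nat_lit 0x3) (nat_lit 102)) (.one (nat_lit 0xb00000f019001600001e032311)) (.br (Nat.shiftLeft (nat_lit 0xc00000f019) (nat_lit 64)) (.one (nat_lit 0xc00000f018001800001e030311)) (.one (nat_lit 0xc00000f019001800001e032311))))))) (.br (Nat.shiftLeft (nat_lit 0x100000500f019) (nat_lit 64)) (.br (Nat.shiftLeft (nat_lit 0xf00000f019) (nat_lit 64)) (.br (Nat.shiftLeft (nat_lit 0x7) (nat_lit 101)) (.br (Nat.shiftLeft (nat_lit 0xd00000f019) (nat_lit 64)) (.one (nat_lit 0xd00000f018001a00001e030311)) (.one (nat_lit 0xd00000f019001a00001e032311))) (.br (Nat.shiftLeft (nat_lit 0xe00000f019) (nat_lit 64)) (.one (nat_lit 0xe00000f018001c00001e030311)) (.br (Nat.shiftLeft (nat_lit 0xf) (nat_lit 100)) (.one (nat_lit 0xe00000f019001c00001e032311)) (.one (nat_lit 0xf00000f018001e00001e030311))))) (.br (Nat.shiftLeft (nat_lit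 0x400001) (nat_lit 90)) (.br (Nat.shiftLeft (nat_lit 0x1) (nat_lit 112)) (.one (nat_lit 0xf00000f019001e00001e032311)) (.one (nat_lit 0x100000300f018200000601e030411))) (.br (Nat.shiftLeft (nat_lit 0x100000400f019) (nat_lit 64)) (.one (nat_lit 0x100000400f018200000801e030411)) (.br (Nat.shiftLeft (nat_lit 0x1000005) (nat_lit 88)) (.one (nat_lit 0x100000400f019200000801e032411)) (.one (nat_lit 0x100000500f018200000a01e030411)))))) (.br (Nat.shiftLeft (nat_lit 0x200000400f019) (nat_lit 64)) (.br (Nat.shiftLeft (nat_lit 0x1000007) (nat_lit 88)) (.br (Nat.shiftLeft (nat_lit 0x800003) (nat_lit 89)) (.one (nat_lit 0x100000500f019200000a01e032411)) (.one (nat_lit 0x100000600f018200000c01e030411))) (.br (Nat.shiftLeft (nat_lit 0x1) (nat_lit 113)) (.one (nat_lit 0x100000700f018200000e01e030411)) (.br (Nat.shiftLeft (nat_lit 0x800001) (nat_lit 90)) (.one (nat_lit 0x200000300f018400000601e030411)) (.one (nat_lit 0x200000400f018400000801e030411))))) (.br (Nat.shiftLeft (nat_lit 0x200000500f019)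 (nat_lit 64)) (.br (Nat.shiftLeft (nat_lit 0x2000005) (nat_lit 88)) (.one (nat_lit 0x200000400f019400000801e032411)) (.one (nat_lit 0x200000500f018400000a01e030411))) (.br (Nat.shiftLeft (nat_lit 0x1000003) (nat_lit 89)) (.one (nat_lit 0x200000500f019400000a01e032411)) (.br (Nat.shiftLeft (nat_lit 0x2000007) (nat_lit 88)) (.one (nat_lit 0x200000600f018400000c01e030411)) (.one (nat_lit 0x200000700f018400000e01e030411))))))))
def t308 : k308.all (jb2 57 fl b0) = true := by decide +kernel
noncomputable def k309 : KT := (.br (Nat.shiftLeft (nat_lit 0x5000007) (nat_lit 88)) (.br (Nat.shiftLeft (nat_lit 0x4000005) (nat_lit 88)) (.br (Nat.shiftLeft (nat_lit 0x1800003) (nat_lit 89)) (.br (Nat.shiftLeft (nat_lit 0x300000400f019) (nat_lit 64)) (.br (Nat.shiftLeft (nat_lit 0xc00001) (nat_lit 90)) (.one (nat_lit 0x300000300f018600000601e030411)) (.one (nat_lit 0x300000400f018600000801e030411))) (.br (Nat.shiftLeft (nat_lit 0x3000005) (nat_lit 88)) (.one (nat_lit 0x300000400f019600000801e032411))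 (.br (Nat.shiftLeft (nat_lit 0x300000500f019) (nat_lit 64)) (.one (nat_lit 0x300000500f018600000a01e030411)) (.one (nat_lit 0x300000500f019600000a01e032411))))) (.br (Nat.shiftLeft (nat_lit 0x1) (nat_lit 114)) (.br (Nat.shiftLeft (nat_lit 0x3000007) (nat_lit 88)) (.one (nat_lit 0x300000600f018600000c01e030411)) (.one (nat_lit 0x300000700f018600000e01e030411))) (.br (Nat.shiftLeft (nat_lit 0x1000001) (nat_lit 90)) (.one (nat_lit 0x400000300f018800000601e030411)) (.br (Nat.shiftLeft (nat_lit 0x400000400f019) (nat_lit 64)) (.one (nat_lit 0x400000400f018800000801e030411)) (.one (nat_lit 0x400000400f019800000801e032411)))))) (.br (Nat.shiftLeft (nat_lit 0x1400001) (nat_lit 90)) (.br (Nat.shiftLeft (nat_lit 0x2000003) (nat_lit 89)) (.br (Nat.shiftLeft (nat_lit 0x400000500f019) (nat_lit 64)) (.one (nat_lit 0x400000500f018800000a01e030411)) (.one (nat_lit 0x400000500f019800000a01e032411))) (.br (Nat.shiftLeft (nat_lit 0x4000007) (nat_lit 88)) (.one (nat_lit 0x400000600f018800000c01e030411))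 (.br (Nat.shiftLeft (nat_lit 0x5) (nat_lit 112)) (.one (nat_lit 0x400000700f018800000e01e030411)) (.one (nat_lit 0x500000300f018a00000601e030411))))) (.br (Nat.shiftLeft (nat_lit 0x5000005) (nat_lit 88)) (.br (Nat.shiftLeft (nat_lit 0x500000400f019) (nat_lit 64)) (.one (nat_lit 0x500000400f018a00000801e030411)) (.one (nat_lit 0x500000400f019a00000801e032411))) (.br (Nat.shiftLeft (nat_lit 0x500000500f019) (nat_lit 64)) (.one (nat_lit 0x500000500f018a00000a01e030411)) (.br (Nat.shiftLeft (nat_lit 0x2800003) (nat_lit 89)) (.one (nat_lit 0x500000500f019a00000a01e032411)) (.one (nat_lit 0x500000600f018a00000c01e030411))))))) (.br (Nat.shiftLeft (nat_lit 0x700000400f019) (nat_lit 64)) (.br (Nat.shiftLeft (nat_lit 0x600000500f019) (nat_lit 64)) (.br (Nat.shiftLeft (nat_lit 0x1800001) (nat_lit 90)) (.br (Nat.shiftLeft (nat_lit 0x3) (nat_lit 113)) (.one (nat_lit 0x500000700f018a00000e01e030411)) (.one (nat_lit 0x600000300f018c00000601e030411))) (.br (Nat.shiftLeft (nat_lit 0x600000400f019)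 (nat_lit 64)) (.one (nat_lit 0x600000400f018c00000801e030411)) (.br (Nat.shiftLeft (nat_lit 0x6000005) (nat_lit 88)) (.one (nat_lit 0x600000400f019c00000801e032411)) (.one (nat_lit 0x600000500f018c00000a01e030411))))) (.br (Nat.shiftLeft (nat_lit 0x6000007) (nat_lit 88)) (.br (Nat.shiftLeft (nat_lit 0x3000003) (nat_lit 89)) (.one (nat_lit 0x600000500f019c00000a01e032411)) (.one (nat_lit 0x600000600f018c00000c01e030411))) (.br (Nat.shiftLeft (nat_lit 0x7) (nat_lit 112)) (.one (nat_lit 0x600000700f018c00000e01e030411)) (.br (Nat.shiftLeft (nat_lit 0x1c00001) (nat_lit 90)) (.one (nat_lit 0x700000300f018e00000601e030411)) (.one (nat_lit 0x700000400f018e00000801e030411)))))) (.br (Nat.shiftLeft (nat_lit 0x1) (nat_lit 115)) (.br (Nat.shiftLeft (nat_lit 0x700000500f019) (nat_lit 64)) (.br (Nat.shiftLeft (nat_lit 0x7000005) (nat_lit 88)) (.one (nat_lit 0x700000400f019e00000801e032411)) (.one (nat_lit 0x700000500f018e00000a01e030411))) (.br (Nat.shiftLeft (nat_lit 0x3800003) (nat_lit 89))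 (.one (nat_lit 0x700000500f019e00000a01e032411)) (.br (Nat.shiftLeft (nat_lit 0x7000007) (nat_lit 88)) (.one (nat_lit 0x700000600f018e00000c01e030411)) (.one (nat_lit 0x700000700f018e00000e01e030411))))) (.br (Nat.shiftLeft (nat_lit 0x800000400f019) (nat_lit 64)) (.br (Nat.shiftLeft (nat_lit 0x2000001) (nat_lit 90)) (.one (nat_lit 0x800000300f018000000601e132411)) (.one (nat_lit 0x800000400f018000000801e132411))) (.br (Nat.shiftLeft (nat_lit 0x8000005) (nat_lit 88)) (.one (nat_lit 0x800000400f019000000801e134411)) (.br (Nat.shiftLeft (nat_lit 0x800000500f019) (nat_lit 64)) (.one (nat_lit 0x800000500f018000000a01e132411)) (.one (nat_lit 0x800000500f019000000a01e134411))))))))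
def t309 : k309.all (jb2 57 fl b0) = true := by decide +kernel
noncomputable def k310 : KT := (.br (Nat.shiftLeft (nat_lit 0xb00000400f019) (nat_lit 64)) (.br (Nat.shiftLeft (nat_lit 0x5) (nat_lit 113)) (.br (Nat.shiftLeft (nat_lit 0x900000400f019) (nat_lit 64)) (.br (Nat.shiftLeft (nat_lit 0x9) (nat_lit 112)) (.br (Nat.shiftLeft (nat_lit 0x8000007) (nat_lit 88)) (.one (nat_lit 0x800000600f018000000c01e132411)) (.one (nat_lit 0x800000700f018000000e01e132411))) (.br (Nat.shiftLeft (nat_lit 0x2400001) (nat_lit 90)) (.one (nat_lit 0x900000300f018200000601e132411)) (.one (nat_lit 0x900000400f018200000801e132411)))) (.br (Nat.shiftLeft (nat_lit 0x900000500f019) (nat_lit 64)) (.br (Nat.shiftLeft (nat_lit 0x9000005) (nat_lit 88)) (.one (nat_lit 0x900000400f019200000801e134411)) (.one (nat_lit 0x900000500f018200000a01e132411))) (.br (Nat.shiftLeft (nat_lit 0x4800003) (nat_lit 89)) (.one (nat_lit 0x900000500f019200000a01e134411)) (.br (Nat.shiftLeft (nat_lit 0x9000007) (nat_lit 88)) (.one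 (nat_lit 0x900000600f018200000c01e132411)) (.one (nat_lit 0x900000700f018200000e01e132411)))))) (.br (Nat.shiftLeft (nat_lit 0xa00000500f019) (nat_lit 64)) (.br (Nat.shiftLeft (nat_lit 0xa00000400f019) (nat_lit 64)) (.br (Nat.shiftLeft (nat_lit 0x2800001) (nat_lit 90)) (.one (nat_lit 0xa00000300f018400000601e132411)) (.one (nat_lit 0xa00000400f018400000801e132411))) (.br (Nat.shiftLeft (nat_lit 0xa000005) (nat_lit 88)) (.one (nat_lit 0xa00000400f019400000801e134411)) (.one (nat_lit 0xa00000500f018400000a01e132411)))) (.br (Nat.shiftLeft (nat_lit 0xa000007) (nat_lit 88)) (.br (Nat.shiftLeft (nat_lit 0x5000003) (nat_lit 89)) (.one (nat_lit 0xa00000500f019400000a01e134411)) (.one (nat_lit 0xa00000600f018400000c01e132411))) (.br (Nat.shiftLeft (nat_lit 0xb) (nat_lit 112)) (.one (nat_lit 0xa00000700f018400000e01e132411)) (.br (Nat.shiftLeft (nat_lit 0x2c00001) (nat_lit 90)) (.one (nat_lit 0xb00000300f018600000601e132411)) (.one (nat_lit 0xb00000400f018600000801e132411))))))) (.br (Nat.shiftLeft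 (nat_lit 0xc00000500f019) (nat_lit 64)) (.br (Nat.shiftLeft (nat_lit 0xb000007) (nat_lit 88)) (.br (Nat.shiftLeft (nat_lit 0xb00000500f019) (nat_lit 64)) (.br (Nat.shiftLeft (nat_lit 0xb000005) (nat_lit 88)) (.one (nat_lit 0xb00000400f019600000801e134411)) (.one (nat_lit 0xb00000500f018600000a01e132411))) (.br (Nat.shiftLeft (nat_lit 0x5800003) (nat_lit 89)) (.one (nat_lit 0xb00000500f019600000a01e134411)) (.one (nat_lit 0xb00000600f018600000c01e132411)))) (.br (Nat.shiftLeft (nat_lit 0x3000001) (nat_lit 90)) (.br (Nat.shiftLeft (nat_lit 0x3) (nat_lit 114)) (.one (nat_lit 0xb00000700f018600000e01e132411)) (.one (nat_lit 0xc00000300f018800000601e132411))) (.br (Nat.shiftLeft (nat_lit 0xc00000400f019) (nat_lit 64)) (.one (nat_lit 0xc00000400f018800000801e132411)) (.br (Nat.shiftLeft (nat_lit 0xc000005) (nat_lit 88)) (.one (nat_lit 0xc00000400f019800000801e134411)) (.one (nat_lit 0xc00000500f018800000a01e132411)))))) (.br (Nat.shiftLeft (nat_lit 0xd00000400f019) (nat_lit 64)) (.br (Nat.shiftLeft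 (nat_lit 0xd) (nat_lit 112)) (.br (Nat.shiftLeft (nat_lit 0x6000003) (nat_lit 89)) (.one (nat_lit 0xc00000500f019800000a01e134411)) (.one (nat_lit 0xc00000600f018800000c01e132411))) (.br (Nat.shiftLeft (nat_lit 0x3400001) (nat_lit 90)) (.one (nat_lit 0xd00000300f018a00000601e132411)) (.one (nat_lit 0xd00000400f018a00000801e132411)))) (.br (Nat.shiftLeft (nat_lit 0x7) (nat_lit 113)) (.br (Nat.shiftLeft (nat_lit 0xd000005) (nat_lit 88)) (.one (nat_lit 0xd00000400f019a00000801e134411)) (.one (nat_lit 0xd00000500f018a00000a01e132411))) (.br (Nat.shiftLeft (nat_lit 0x3800001) (nat_lit 90)) (.one (nat_lit 0xe00000300f018c00000601e132411)) (.br (Nat.shiftLeft (nat_lit 0xf) (nat_lit 112)) (.one (nat_lit 0xe00000400f018c00000801e132411)) (.one (nat_lit 0xf00000300f018e00000601e132411))))))))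
def t310 : k310.all (jb2 57 fl b0) = true := by decide +kernel
noncomputable def s15 : KT := (.br (nat_lit 0x200000f019000400001e032311) (.br (nat_lit 0x800f018000001001e030430) (.br (nat_lit 0x600f018000000c01e031400) (.br (nat_lit 0x300f018000000601e031400) k291 k292) (.br (nat_lit 0x700f018000000e01e031400) k293 (.br (nat_lit 0x700f019000000e01e032430) k294 k295))) (.br (nat_lit 0xa00f019000001401e032430) (.br (nat_lit 0x900f018000001201e030430) k296 k297) (.br (nat_lit 0x100000f019000200001e032311) k298 (.br (nat_lit 0x100400f019000200801e032540) k299 k300)))) (.br (nat_lit 0x300500f018000600a01e030540) (.br (nat_lit 0x200400f019000400801e032540) (.br (nat_lit 0x200300f018000400601e030540) k301 k302) (.br (nat_lit 0x200600f018000400c01e030540) k303 (.br (nat_lit 0x300400f018000600801e030540) k304 k305))) (.br (nat_lit 0x400600f018000800c01e030540) (.br (nat_lit 0x400000f019000800001e032311) k306 k307) (.br (nat_lit 0x200000700f018400000e01e030411) k308 (.br (nat_lit 0x800000500f019000000a01e134411)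 k309 k310)))))
noncomputable def u15 : KT := (.br (Nat.shiftLeft (nat_lit 0xf019) (nat_lit 64)) (.one (nat_lit 0xf018000000001e030320)) (.one (nat_lit 0xf019000000001e032320)))
def w15 : u15.all (wj 57 s15) = true := by decide +kernel
def o15 : OkW 57 (jb2 57 fl) u15 := .lift s15 _ (.br _ _ _ (.br _ _ _ (.br _ _ _ (.br _ _ _ (.leaf b0 k291 t291) (.leaf b0 k292 t292)) (.br _ _ _ (.leaf b0 k293 t293) (.br _ _ _ (.leaf b0 k294 t294) (.leaf b0 k295 t295)))) (.br _ _ _ (.br _ _ _ (.leaf b0 k296 t296) (.leaf b0 k297 t297)) (.br _ _ _ (.leaf b0 k298 t298) (.br _ _ _ (.leaf b0 k299 t299) (.leaf b0 k300 t300))))) (.br _ _ _ (.br _ _ _ (.br _ _ _ (.leaf b0 k301 t301) (.leaf b0 k302 t302)) (.br _ _ _ (.leaf b0 k303 t303) (.br _ _ _ (.leaf b0 k304 t304) (.leaf b0 k305 t305)))) (.br _ _ _ (.br _ _ _ (.leaf b0 k306 t306) (.leaf b0 k307 t307)) (.br _ _ _ (.leaf b0 k308 t308) (.br _ _ _ (.leaf b0 k309 t309) (.leaf b0 k310 t310)))))) w15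
noncomputable def k311 : KT := (.br (Nat.shiftLeft (nat_lit 0xf01d) (nat_lit 64)) (.br (Nat.shiftLeft (nat_lit 0xf01b) (nat_lit 64)) (.one (nat_lit 0xf01a000000001e035300)) (.br (Nat.shiftLeft (nat_lit 0x3c07) (nat_lit 66)) (.one (nat_lit 0xf01b000000001e037300)) (.one (nat_lit 0xf01c000000001e039300)))) (.br (Nat.shiftLeft (nat_lit 0x780f) (nat_lit 65)) (.one (nat_lit 0xf01d000000001e03b300)) (.br (Nat.shiftLeft (nat_lit 0xf01f) (nat_lit 64)) (.one (nat_lit 0xf01e000000001e03d300)) (.one (nat_lit 0xf01f000000001e03e320)))))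
def t311 : k311.all (jb2 57 fl b0) = true := by decide +kernel
noncomputable def k312 : KT := (.br (Nat.shiftLeft (nat_lit 0x8009) (nat_lit 65)) (.br (Nat.shiftLeft (nat_lit 0xf021) (nat_lit 64)) (.one (nat_lit 0xf020000000001e040320)) (.br (Nat.shiftLeft (nat_lit 0x1) (nat_lit 80)) (.one (nat_lit 0xf021000000001e042320)) (.one (nat_lit 0x100110000000020023300)))) (.br (Nat.shiftLeft (nat_lit 0x10013) (nat_lit 64)) (.one (nat_lit 0x100120000000020025300)) (.br (Nat.shiftLeft (nat_lit 0x4005) (nat_lit 66)) (.one (nat_lit 0x100130000000020027300)) (.one (nat_lit 0x100140000000020029300)))))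
def t312 : k312.all (jb2 57 fl b0) = true := by decide +kernel
noncomputable def k313 : KT := (.br (Nat.shiftLeft (nat_lit 0x100f01d) (nat_lit 64)) (.br (Nat.shiftLeft (nat_lit 0x100f01b) (nat_lit 64)) (.one (nat_lit 0x100f01a000000201e034430)) (.br (Nat.shiftLeft (nat_lit 0x403c07) (nat_lit 66)) (.one (nat_lit 0x100f01b000000201e036430)) (.one (nat_lit 0x100f01c000000201e038430)))) (.br (Nat.shiftLeft (nat_lit 0x1) (nat_lit 89)) (.br (Nat.shiftLeft (nat_lit 0x80780f) (nat_lit 65)) (.one (nat_lit 0x100f01d000000201e03a430)) (.one (nat_lit 0x100f01e000000201e03c430))) (.br (Nat.shiftLeft (nat_lit 0x200f01b) (nat_lit 64)) (.one (nat_lit 0x200f01a000000401e034430)) (.one (nat_lit 0x200f01b000000401e036430)))))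
def t313 : k313.all (jb2 57 fl b0) = true := by decide +kernel
noncomputable def k314 : KT := (.br (Nat.shiftLeft (nat_lit 0x200f01d) (nat_lit 64)) (.one (nat_lit 0x200f01c000000401e038430)) (.br (Nat.shiftLeft (nat_lit 0x100780f) (nat_lit 65)) (.one (nat_lit 0x200f01d000000401e03a430)) (.one (nat_lit 0x200f01e000000401e03c430))))
def t314 : k314.all (jb2 57 fl b0) = true := by decide +kernel
noncomputable def k315 : KT := (.one (nat_lit 0x300f01a000000601e034430))
def t315 : k315.all (jb2 57 fl b0) = true := by decide +kernel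
noncomputable def k316 : KT := (.one (nat_lit 0x300f01b000000601e036430))
def t316 : k316.all (jb2 57 fl b0) = true := by decide +kernel
noncomputable def k317 : KT := (.br (Nat.shiftLeft (nat_lit 0x300f01d) (nat_lit 64)) (.one (nat_lit 0x300f01c000000601e038430)) (.one (nat_lit 0x300f01d000000601e03a430)))
def t317 : k317.all (jb2 57 fl b0) = true := by decide +kernel
noncomputable def k318 : KT := (.one (nat_lit 0x300f01e000000601e03c430))
def t318 : k318.all (jb2 57 fl b0) = true := by decide +kernel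
noncomputable def k319 : KT := (.one (nat_lit 0x400f01a000000801e034430))
def t319 : k319.all (jb2 57 fl b0) = true := by decide +kernel
noncomputable def k320 : KT := (.one (nat_lit 0x400f01b000000801e036430))
def t320 : k320.all (jb2 57 fl b0) = true := by decide +kernel
noncomputable def k321 : KT := (.br (Nat.shiftLeft (nat_lit 0x400f01d) (nat_lit 64)) (.one (nat_lit 0x400f01c000000801e038430)) (.one (nat_lit 0x400f01d000000801e03a430)))
def t321 : k321.all (jb2 57 fl b0) = true := by decide +kernel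
noncomputable def k322 : KT := (.one (nat_lit 0x400f01e000000801e03c430))
def t322 : k322.all (jb2 57 fl b0) = true := by decide +kernel
noncomputable def k323 : KT := (.one (nat_lit 0x500f01a000000a01e034430))
def t323 : k323.all (jb2 57 fl b0) = true := by decide +kernel
noncomputable def k324 : KT := (.br (Nat.shiftLeft (nat_lit 0x1403c07) (nat_lit 66)) (.one (nat_lit 0x500f01b000000a01e036430)) (.one (nat_lit 0x500f01c000000a01e038430)))
def t324 : k324.all (jb2 57 fl b0) = true := by decide +kernel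
noncomputable def k325 : KT := (.br (Nat.shiftLeft (nat_lit 0x280780f) (nat_lit 65)) (.one (nat_lit 0x500f01d000000a01e03a430)) (.one (nat_lit 0x500f01e000000a01e03c430)))
def t325 : k325.all (jb2 57 fl b0) = true := by decide +kernel
noncomputable def k326 : KT := (.one (nat_lit 0x600f01a000000c01e034430))
def t326 : k326.all (jb2 57 fl b0) = true := by decide +kernel
noncomputable def k327 : KT := (.br (Nat.shiftLeft (nat_lit 0x1803c07) (nat_lit 66)) (.one (nat_lit 0x600f01b000000c01e036430)) (.br (Nat.shiftLeft (nat_lit 0x600f01d) (nat_lit 64)) (.one (nat_lit 0x600f01c000000c01e038430)) (.one (nat_lit 0x600f01d000000c01e03a430))))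
def t327 : k327.all (jb2 57 fl b0) = true := by decide +kernel
noncomputable def k328 : KT := (.br (Nat.shiftLeft (nat_lit 0x7) (nat_lit 88)) (.one (nat_lit 0x600f01e000000c01e03c430)) (.br (Nat.shiftLeft (nat_lit 0x700f01b) (nat_lit 64)) (.one (nat_lit 0x700f01a000000e01e034430)) (.one (nat_lit 0x700f01b000000e01e036430))))
def t328 : k328.all (jb2 57 fl b0) = true := by decide +kernel
noncomputable def k329 : KT := (.br (Nat.shiftLeft (nat_lit 0x380780f) (nat_lit 65)) (.br (Nat.shiftLeft (nat_lit 0x700f01d) (nat_lit 64)) (.one (nat_lit 0x700f01c000000e01e038430)) (.one (nat_lit 0x700f01d000000e01e03a430))) (.br (Nat.shiftLeft (nat_lit 0x1) (nat_lit 91)) (.one (nat_lit 0x700f01e000000e01e03c430)) (.br (Nat.shiftLeft (nat_lit 0x800f01b) (nat_lit 64)) (.one (nat_lit 0x800f01a000001001e034430)) (.one (nat_lit 0x800f01b000001001e036430)))))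
def t329 : k329.all (jb2 57 fl b0) = true := by decide +kernel
noncomputable def k330 : KT := (.br (Nat.shiftLeft (nat_lit 0x900f01d) (nat_lit 64)) (.br (Nat.shiftLeft (nat_lit 0x9) (nat_lit 88)) (.br (Nat.shiftLeft (nat_lit 0x800f01d) (nat_lit 64)) (.one (nat_lit 0x800f01c000001001e038430)) (.br (Nat.shiftLeft (nat_lit 0x400780f) (nat_lit 65)) (.one (nat_lit 0x800f01d000001001e03a430)) (.one (nat_lit 0x800f01e000001001e03c430)))) (.br (Nat.shiftLeft (nat_lit 0x900f01b) (nat_lit 64)) (.one (nat_lit 0x900f01a000001201e034430)) (.br (Nat.shiftLeft (nat_lit 0x2403c07) (nat_lit 66)) (.one (nat_lit 0x900f01b000001201e036430)) (.one (nat_lit 0x900f01c000001201e038430))))) (.br (Nat.shiftLeft (nat_lit 0xa00f01b) (nat_lit 64)) (.br (Nat.shiftLeft (nat_lit 0x480780f) (nat_lit 65)) (.one (nat_lit 0x900f01d000001201e03a430)) (.br (Nat.shiftLeft (nat_lit 0x5) (nat_lit 89)) (.one (nat_lit 0x900f01e000001201e03c430)) (.one (nat_lit 0xa00f01a000001401e034430)))) (.br (Nat.shiftLeft (nat_lit 0xa00f01d)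 (nat_lit 64)) (.br (Nat.shiftLeft (nat_lit 0x2803c07) (nat_lit 66)) (.one (nat_lit 0xa00f01b000001401e036430)) (.one (nat_lit 0xa00f01c000001401e038430))) (.br (Nat.shiftLeft (nat_lit 0x500780f) (nat_lit 65)) (.one (nat_lit 0xa00f01d000001401e03a430)) (.one (nat_lit 0xa00f01e000001401e03c430))))))
def t330 : k330.all (jb2 57 fl b0) = true := by decide +kernel
noncomputable def k331 : KT := (.br (Nat.shiftLeft (nat_lit 0x100000f01d) (nat_lit 64)) (.br (Nat.shiftLeft (nat_lit 0xd) (nat_lit 88)) (.br (Nat.shiftLeft (nat_lit 0x3) (nat_lit 90)) (.br (Nat.shiftLeft (nat_lit 0x2c03c07) (nat_lit 66)) (.br (Nat.shiftLeft (nat_lit 0xb00f01b) (nat_lit 64)) (.one (nat_lit 0xb00f01a000001601e034430)) (.one (nat_lit 0xb00f01b000001601e036430))) (.br (Nat.shiftLeft (nat_lit 0xb00f01d) (nat_lit 64)) (.one (nat_lit 0xb00f01c000001601e038430)) (.br (Nat.shiftLeft (nat_lit 0x580780f) (nat_lit 65)) (.one (nat_lit 0xb00f01d000001601e03a430)) (.one (nat_lit 0xb00f01e000001601e03c430))))) (.br (Nat.shiftLeft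 (nat_lit 0x3003c07) (nat_lit 66)) (.br (Nat.shiftLeft (nat_lit 0xc00f01b) (nat_lit 64)) (.one (nat_lit 0xc00f01a000001801e034430)) (.one (nat_lit 0xc00f01b000001801e036430))) (.br (Nat.shiftLeft (nat_lit 0xc00f01d) (nat_lit 64)) (.one (nat_lit 0xc00f01c000001801e038430)) (.br (Nat.shiftLeft (nat_lit 0x600780f) (nat_lit 65)) (.one (nat_lit 0xc00f01d000001801e03a430)) (.one (nat_lit 0xc00f01e000001801e03c430)))))) (.br (Nat.shiftLeft (nat_lit 0xe00f01b) (nat_lit 64)) (.br (Nat.shiftLeft (nat_lit 0x3403c07) (nat_lit 66)) (.br (Nat.shiftLeft (nat_lit 0xd00f01b) (nat_lit 64)) (.one (nat_lit 0xd00f01a000001a01e034430)) (.one (nat_lit 0xd00f01b000001a01e036430))) (.br (Nat.shiftLeft (nat_lit 0xd00f01d) (nat_lit 64)) (.one (nat_lit 0xd00f01c000001a01e038430)) (.br (Nat.shiftLeft (nat_lit 0x7) (nat_lit 89)) (.one (nat_lit 0xd00f01d000001a01e03a430)) (.one (nat_lit 0xe00f01a000001c01e034430))))) (.br (Nat.shiftLeft (nat_lit 0x1) (nat_lit 100)) (.br (Nat.shiftLeft (nat_lit 0x3803c07) (nat_lit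 66)) (.one (nat_lit 0xe00f01b000001c01e036430)) (.one (nat_lit 0xe00f01c000001c01e038430))) (.br (Nat.shiftLeft (nat_lit 0x100000f01b) (nat_lit 64)) (.one (nat_lit 0x100000f01a000200001e034311)) (.br (Nat.shiftLeft (nat_lit 0x400003c07) (nat_lit 66)) (.one (nat_lit 0x100000f01b000200001e036311)) (.one (nat_lit 0x100000f01c000200001e038311))))))) (.br (Nat.shiftLeft (nat_lit 0x300000f01d) (nat_lit 64)) (.br (Nat.shiftLeft (nat_lit 0x200000f01d) (nat_lit 64)) (.br (Nat.shiftLeft (nat_lit 0x1) (nat_lit 101)) (.br (Nat.shiftLeft (nat_lit 0x80000780f) (nat_lit 65)) (.one (nat_lit 0x100000f01d000200001e03a311)) (.one (nat_lit 0x100000f01e000200001e03c311))) (.br (Nat.shiftLeft (nat_lit 0x200000f01b) (nat_lit 64)) (.one (nat_lit 0x200000f01a000400001e034311)) (.br (Nat.shiftLeft (nat_lit 0x800003c07) (nat_lit 66)) (.one (nat_lit 0x200000f01b000400001e036311)) (.one (nat_lit 0x200000f01c000400001e038311))))) (.br (Nat.shiftLeft (nat_lit 0x3) (nat_lit 100)) (.br (Nat.shiftLeft (nat_lit 0x100000780f)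 (nat_lit 65)) (.one (nat_lit 0x200000f01d000400001e03a311)) (.one (nat_lit 0x200000f01e000400001e03c311))) (.br (Nat.shiftLeft (nat_lit 0x300000f01b) (nat_lit 64)) (.one (nat_lit 0x300000f01a000600001e034311)) (.br (Nat.shiftLeft (nat_lit 0xc00003c07) (nat_lit 66)) (.one (nat_lit 0x300000f01b000600001e036311)) (.one (nat_lit 0x300000f01c000600001e038311)))))) (.br (Nat.shiftLeft (nat_lit 0x400000f01d) (nat_lit 64)) (.br (Nat.shiftLeft (nat_lit 0x1) (nat_lit 102)) (.br (Nat.shiftLeft (nat_lit 0x180000780f) (nat_lit 65)) (.one (nat_lit 0x300000f01d000600001e03a311)) (.one (nat_lit 0x300000f01e000600001e03c311))) (.br (Nat.shiftLeft (nat_lit 0x400000f01b) (nat_lit 64)) (.one (nat_lit 0x400000f01a000800001e034311)) (.br (Nat.shiftLeft (nat_lit 0x1000003c07) (nat_lit 66)) (.one (nat_lit 0x400000f01b000800001e036311)) (.one (nat_lit 0x400000f01c000800001e038311))))) (.br (Nat.shiftLeft (nat_lit 0x5) (nat_lit 100)) (.br (Nat.shiftLeft (nat_lit 0x200000780f) (nat_lit 65)) (.one (nat_lit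 0x400000f01d000800001e03a311)) (.one (nat_lit 0x400000f01e000800001e03c311))) (.br (Nat.shiftLeft (nat_lit 0x500000f01b) (nat_lit 64)) (.one (nat_lit 0x500000f01a000a00001e034311)) (.br (Nat.shiftLeft (nat_lit 0x1400003c07) (nat_lit 66)) (.one (nat_lit 0x500000f01b000a00001e036311)) (.one (nat_lit 0x500000f01c000a00001e038311))))))))
def t331 : k331.all (jb2 57 fl b0) = true := by decide +kernel
noncomputable def k332 : KT := (.br (Nat.shiftLeft (nat_lit 0x900000f01d) (nat_lit 64)) (.br (Nat.shiftLeft (nat_lit 0x700000f01d) (nat_lit 64)) (.br (Nat.shiftLeft (nat_lit 0x600000f01d) (nat_lit 64)) (.br (Nat.shiftLeft (nat_lit 0x3) (nat_lit 101)) (.br (Nat.shiftLeft (nat_lit 0x280000780f) (nat_lit 65)) (.one (nat_lit 0x500000f01d000a00001e03a311)) (.one (nat_lit 0x500000f01e000a00001e03c311))) (.br (Nat.shiftLeft (nat_lit 0x600000f01b) (nat_lit 64)) (.one (nat_lit 0x600000f01a000c00001e034311)) (.br (Nat.shiftLeft (nat_lit 0x1800003c07) (nat_lit 66)) (.one (nat_lit 0x600000f01b000c00001e036311))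 (.one (nat_lit 0x600000f01c000c00001e038311))))) (.br (Nat.shiftLeft (nat_lit 0x7) (nat_lit 100)) (.br (Nat.shiftLeft (nat_lit 0x300000780f) (nat_lit 65)) (.one (nat_lit 0x600000f01d000c00001e03a311)) (.one (nat_lit 0x600000f01e000c00001e03c311))) (.br (Nat.shiftLeft (nat_lit 0x700000f01b) (nat_lit 64)) (.one (nat_lit 0x700000f01a000e00001e034311)) (.br (Nat.shiftLeft (nat_lit 0x1c00003c07) (nat_lit 66)) (.one (nat_lit 0x700000f01b000e00001e036311)) (.one (nat_lit 0x700000f01c000e00001e038311)))))) (.br (Nat.shiftLeft (nat_lit 0x800000f01d) (nat_lit 64)) (.br (Nat.shiftLeft (nat_lit 0x1) (nat_lit 103)) (.br (Nat.shiftLeft (nat_lit 0x380000780f) (nat_lit 65)) (.one (nat_lit 0x700000f01d000e00001e03a311)) (.one (nat_lit 0x700000f01e000e00001e03c311))) (.br (Nat.shiftLeft (nat_lit 0x800000f01b) (nat_lit 64)) (.one (nat_lit 0x800000f01a001000001e034311)) (.br (Nat.shiftLeft (nat_lit 0x2000003c07) (nat_lit 66)) (.one (nat_lit 0x800000f01b001000001e036311)) (.one (nat_lit 0x800000f01c001000001e038311)))))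 (.br (Nat.shiftLeft (nat_lit 0x9) (nat_lit 100)) (.br (Nat.shiftLeft (nat_lit 0x400000780f) (nat_lit 65)) (.one (nat_lit 0x800000f01d001000001e03a311)) (.one (nat_lit 0x800000f01e001000001e03c311))) (.br (Nat.shiftLeft (nat_lit 0x900000f01b) (nat_lit 64)) (.one (nat_lit 0x900000f01a001200001e034311)) (.br (Nat.shiftLeft (nat_lit 0x2400003c07) (nat_lit 66)) (.one (nat_lit 0x900000f01b001200001e036311)) (.one (nat_lit 0x900000f01c001200001e038311))))))) (.br (Nat.shiftLeft (nat_lit 0xb00000f01d) (nat_lit 64)) (.br (Nat.shiftLeft (nat_lit 0xa00000f01d) (nat_lit 64)) (.br (Nat.shiftLeft (nat_lit 0x5) (nat_lit 101)) (.br (Nat.shiftLeft (nat_lit 0x480000780f) (nat_lit 65)) (.one (nat_lit 0x900000f01d001200001e03a311)) (.one (nat_lit 0x900000f01e001200001e03c311))) (.br (Nat.shiftLeft (nat_lit 0xa00000f01b) (nat_lit 64)) (.one (nat_lit 0xa00000f01a001400001e034311)) (.br (Nat.shiftLeft (nat_lit 0x2800003c07) (nat_lit 66)) (.one (nat_lit 0xa00000f01b001400001e036311)) (.one (nat_lit 0xa00000f01c001400001e038311)))))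 (.br (Nat.shiftLeft (nat_lit 0xb) (nat_lit 100)) (.br (Nat.shiftLeft (nat_lit 0x500000780f) (nat_lit 65)) (.one (nat_lit 0xa00000f01d001400001e03a311)) (.one (nat_lit 0xa00000f01e001400001e03c311))) (.br (Nat.shiftLeft (nat_lit 0xb00000f01b) (nat_lit 64)) (.one (nat_lit 0xb00000f01a001600001e034311)) (.br (Nat.shiftLeft (nat_lit 0x2c00003c07) (nat_lit 66)) (.one (nat_lit 0xb00000f01b001600001e036311)) (.one (nat_lit 0xb00000f01c001600001e038311)))))) (.br (Nat.shiftLeft (nat_lit 0xc00000f01d) (nat_lit 64)) (.br (Nat.shiftLeft (nat_lit 0x3) (nat_lit 102)) (.br (Nat.shiftLeft (nat_lit 0x580000780f) (nat_lit 65)) (.one (nat_lit 0xb00000f01d001600001e03a311)) (.one (nat_lit 0xb00000f01e001600001e03c311))) (.br (Nat.shiftLeft (nat_lit 0xc00000f01b) (nat_lit 64)) (.one (nat_lit 0xc00000f01a001800001e034311)) (.br (Nat.shiftLeft (nat_lit 0x3000003c07) (nat_lit 66)) (.one (nat_lit 0xc00000f01b001800001e036311)) (.one (nat_lit 0xc00000f01c001800001e038311))))) (.br (Nat.shiftLeft (nat_lit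 0xd) (nat_lit 100)) (.br (Nat.shiftLeft (nat_lit 0x600000780f) (nat_lit 65)) (.one (nat_lit 0xc00000f01d001800001e03a311)) (.one (nat_lit 0xc00000f01e001800001e03c311))) (.br (Nat.shiftLeft (nat_lit 0xd00000f01b) (nat_lit 64)) (.one (nat_lit 0xd00000f01a001a00001e034311)) (.br (Nat.shiftLeft (nat_lit 0x3400003c07) (nat_lit 66)) (.one (nat_lit 0xd00000f01b001a00001e036311)) (.one (nat_lit 0xd00000f01c001a00001e038311))))))))
def t332 : k332.all (jb2 57 fl b0) = true := by decide +kernel
noncomputable def k333 : KT := (.br (Nat.shiftLeft (nat_lit 0x3800003c07) (nat_lit 66)) (.br (Nat.shiftLeft (nat_lit 0x7) (nat_lit 101)) (.one (nat_lit 0xd00000f01d001a00001e03a311)) (.br (Nat.shiftLeft (nat_lit 0xe00000f01b) (nat_lit 64)) (.one (nat_lit 0xe00000f01a001c00001e034311)) (.one (nat_lit 0xe00000f01b001c00001e036311)))) (.br (Nat.shiftLeft (nat_lit 0xf) (nat_lit 100)) (.one (nat_lit 0xe00000f01c001c00001e038311)) (.br (Nat.shiftLeft (nat_lit 0xf00000f01b) (nat_lit 64)) (.one (nat_lit 0xf00000f01a001e00001e034311))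 (.one (nat_lit 0xf00000f01b001e00001e036311)))))
def t333 : k333.all (jb2 57 fl b0) = true := by decide +kernel
noncomputable def s16 : KT := (.br (nat_lit 0x400f01d000000801e03a430) (.br (nat_lit 0x300f01a000000601e034430) (.br (nat_lit 0x100140000000020029300) (.br (nat_lit 0xf01f000000001e03e320) k311 k312) (.br (nat_lit 0x200f01b000000401e036430) k313 (.br (nat_lit 0x200f01e000000401e03c430) k314 k315))) (.br (nat_lit 0x300f01e000000601e03c430) (.br (nat_lit 0x300f01b000000601e036430) k316 (.br (nat_lit 0x300f01d000000601e03a430) k317 k318)) (.br (nat_lit 0x400f01a000000801e034430) k319 (.br (nat_lit 0x400f01b000000801e036430) k320 k321)))) (.br (nat_lit 0x600f01d000000c01e03a430) (.br (nat_lit 0x500f01c000000a01e038430) (.br (nat_lit 0x400f01e000000801e03c430) k322 (.br (nat_lit 0x500f01a000000a01e034430) k323 k324)) (.br (nat_lit 0x500f01e000000a01e03c430) k325 (.br (nat_lit 0x600f01a000000c01e034430) k326 k327))) (.br (nat_lit 0xa00f01e000001401e03c430) (.br (nat_lit 0x700f01b000000e01e036430)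 k328 (.br (nat_lit 0x800f01b000001001e036430) k329 k330)) (.br (nat_lit 0x500000f01c000a00001e038311) k331 (.br (nat_lit 0xd00000f01c001a00001e038311) k332 k333)))))
noncomputable def u16 : KT := (.br (Nat.shiftLeft (nat_lit 0x781) (nat_lit 69)) (.br (Nat.shiftLeft (nat_lit 0xf01d) (nat_lit 64)) (.br (Nat.shiftLeft (nat_lit 0xf01b) (nat_lit 64)) (.one (nat_lit 0xf01a000000001e034320)) (.br (Nat.shiftLeft (nat_lit 0x3c07) (nat_lit 66)) (.one (nat_lit 0xf01b000000001e036320)) (.one (nat_lit 0xf01c000000001e038320)))) (.br (Nat.shiftLeft (nat_lit 0x780f) (nat_lit 65)) (.one (nat_lit 0xf01d000000001e03a320)) (.br (Nat.shiftLeft (nat_lit 0xf01f) (nat_lit 64)) (.one (nat_lit 0xf01e000000001e03c320)) (.one (nat_lit 0xf01f000000001e03e320))))) (.br (Nat.shiftLeft (nat_lit 0x8009) (nat_lit 65)) (.br (Nat.shiftLeft (nat_lit 0xf021) (nat_lit 64)) (.one (nat_lit 0xf020000000001e040320)) (.br (Nat.shiftLeft (nat_lit 0x1) (nat_lit 80)) (.one (nat_lit 0xf021000000001e042320)) (.one (nat_lit 0x100110000000020023300))))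 (.br (Nat.shiftLeft (nat_lit 0x10013) (nat_lit 64)) (.one (nat_lit 0x100120000000020025300)) (.br (Nat.shiftLeft (nat_lit 0x4005) (nat_lit 66)) (.one (nat_lit 0x100130000000020027300)) (.one (nat_lit 0x100140000000020029300))))))
def w16 : u16.all (wj 57 s16) = true := by decide +kernel
def o16 : OkW 57 (jb2 57 fl) u16 := .lift s16 _ (.br _ _ _ (.br _ _ _ (.br _ _ _ (.br _ _ _ (.leaf b0 k311 t311) (.leaf b0 k312 t312)) (.br _ _ _ (.leaf b0 k313 t313) (.br _ _ _ (.leaf b0 k314 t314) (.leaf b0 k315 t315)))) (.br _ _ _ (.br _ _ _ (.leaf b0 k316 t316) (.br _ _ _ (.leaf b0 k317 t317) (.leaf b0 k318 t318))) (.br _ _ _ (.leaf b0 k319 t319) (.br _ _ _ (.leaf b0 k320 t320) (.leaf b0 k321 t321))))) (.br _ _ _ (.br _ _ _ (.br _ _ _ (.leaf b0 k322 t322) (.br _ _ _ (.leaf b0 k323 t323) (.leaf b0 k324 t324))) (.br _ _ _ (.leaf b0 k325 t325) (.br _ _ _ (.leaf b0 k326 t326) (.leaf b0 k327 t327)))) (.br _ _ _ (.br _ _ _ (.leaf b0 k328 t328) (.br _ _ _ (.leaf b0 k329 t329) (.leaf b0 k330 t330))) (.br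 _ _ _ (.leaf b0 k331 t331) (.br _ _ _ (.leaf b0 k332 t332) (.leaf b0 k333 t333)))))) w16
noncomputable def k334 : KT := (.br (Nat.shiftLeft (nat_lit 0x5) (nat_lit 88)) (.br (Nat.shiftLeft (nat_lit 0x1) (nat_lit 89)) (.br (Nat.shiftLeft (nat_lit 0x1) (nat_lit 88)) (.one (nat_lit 0x10015000000002002b300)) (.one (nat_lit 0x1010015000000202002a430))) (.br (Nat.shiftLeft (nat_lit 0x3) (nat_lit 88)) (.one (nat_lit 0x2010015000000402002a430)) (.br (Nat.shiftLeft (nat_lit 0x1) (nat_lit 90)) (.one (nat_lit 0x3010015000000602002b400)) (.one (nat_lit 0x4010015000000802002b400))))) (.br (Nat.shiftLeft (nat_lit 0x7) (nat_lit 88)) (.br (Nat.shiftLeft (nat_lit 0x3) (nat_lit 89)) (.one (nat_lit 0x5010015000000a02002b400)) (.one (nat_lit 0x6010015000000c02002b400))) (.br (Nat.shiftLeft (nat_lit 0x1) (nat_lit 91)) (.one (nat_lit 0x7010015000000e02002b400)) (.br (Nat.shiftLeft (nat_lit 0x9) (nat_lit 88)) (.one (nat_lit 0x8010015000001002002b400)) (.one (nat_lit 0x9010015000001202002b400))))))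
def t334 : k334.all (jb2 57 fl b0) = true := by decide +kernel
noncomputable def k335 : KT := (.one (nat_lit 0xa010015000001402002a430))
def t335 : k335.all (jb2 57 fl b0) = true := by decide +kernel
noncomputable def k336 : KT := (.br (Nat.shiftLeft (nat_lit 0x3) (nat_lit 90)) (.one (nat_lit 0xb010015000001602002a430)) (.br (Nat.shiftLeft (nat_lit 0xd) (nat_lit 88)) (.one (nat_lit 0xc010015000001802002a430)) (.one (nat_lit 0xd010015000001a02002a430))))
def t336 : k336.all (jb2 57 fl b0) = true := by decide +kernel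
noncomputable def k337 : KT := (.br (Nat.shiftLeft (nat_lit 0x1) (nat_lit 100)) (.br (Nat.shiftLeft (nat_lit 0xf) (nat_lit 88)) (.one (nat_lit 0xe010015000001c02002a430)) (.one (nat_lit 0xf010015000001e02002a430))) (.br (Nat.shiftLeft (nat_lit 0x801) (nat_lit 89)) (.one (nat_lit 0x1000010015000200002002a311)) (.one (nat_lit 0x1003010015000200602002a540))))
def t337 : k337.all (jb2 57 fl b0) = true := by decide +kernel
noncomputable def k338 : KT := (.br (Nat.shiftLeft (nat_lit 0x1005) (nat_lit 88)) (.one (nat_lit 0x1004010015000200802002a540)) (.one (nat_lit 0x1005010015000200a02002a540)))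
def t338 : k338.all (jb2 57 fl b0) = true := by decide +kernel
noncomputable def k339 : KT := (.br (Nat.shiftLeft (nat_lit 0x201) (nat_lit 91)) (.br (Nat.shiftLeft (nat_lit 0x1007) (nat_lit 88)) (.one (nat_lit 0x1006010015000200c02002a540)) (.one (nat_lit 0x1007010015000200e02002a540))) (.br (Nat.shiftLeft (nat_lit 0x1009) (nat_lit 88)) (.one (nat_lit 0x1008010015000201002002a540)) (.br (Nat.shiftLeft (nat_lit 0x1) (nat_lit 101)) (.one (nat_lit 0x1009010015000201202002a540)) (.one (nat_lit 0x2000010015000400002002a311)))))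
def t339 : k339.all (jb2 57 fl b0) = true := by decide +kernel
noncomputable def k340 : KT := (.one (nat_lit 0x2003010015000400602002a540))
def t340 : k340.all (jb2 57 fl b0) = true := by decide +kernel
noncomputable def k341 : KT := (.one (nat_lit 0x2004010015000400802002a540))
def t341 : k341.all (jb2 57 fl b0) = true := by decide +kernel
noncomputable def k342 : KT := (.one (nat_lit 0x2005010015000400a02002a540))
def t342 : k342.all (jb2 57 fl b0) = true := by decide +kernel
noncomputable def k343 : KT := (.br (Nat.shiftLeft (nat_lit 0x2007) (nat_lit 88)) (.one (nat_lit 0x2006010015000400c02002a540)) (.one (nat_lit 0x2007010015000400e02002a540)))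
def t343 : k343.all (jb2 57 fl b0) = true := by decide +kernel
noncomputable def k344 : KT := (.br (Nat.shiftLeft (nat_lit 0x3) (nat_lit 100)) (.br (Nat.shiftLeft (nat_lit 0x2009) (nat_lit 88)) (.one (nat_lit 0x2008010015000401002002a540)) (.one (nat_lit 0x2009010015000401202002a540))) (.br (Nat.shiftLeft (nat_lit 0xc01) (nat_lit 90)) (.one (nat_lit 0x3000010015000600002002a311)) (.one (nat_lit 0x3004010015000600802002b500))))
def t344 : k344.all (jb2 57 fl b0) = true := by decide +kernel
noncomputable def k345 : KT := (.one (nat_lit 0x3005010015000600a02002a540))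
def t345 : k345.all (jb2 57 fl b0) = true := by decide +kernel
noncomputable def k346 : KT := (.br (Nat.shiftLeft (nat_lit 0x3007) (nat_lit 88)) (.one (nat_lit 0x3006010015000600c02002a540)) (.one (nat_lit 0x3007010015000600e02002a540)))
def t346 : k346.all (jb2 57 fl b0) = true := by decide +kernel
noncomputable def k347 : KT := (.br (Nat.shiftLeft (nat_lit 0x3009) (nat_lit 88)) (.one (nat_lit 0x3008010015000601002002a540)) (.br (Nat.shiftLeft (nat_lit 0x1) (nat_lit 102)) (.one (nat_lit 0x3009010015000601202002a540)) (.one (nat_lit 0x4000010015000800002002a311))))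
def t347 : k347.all (jb2 57 fl b0) = true := by decide +kernel
noncomputable def k348 : KT := (.one (nat_lit 0x4005010015000800a02002a540))
def t348 : k348.all (jb2 57 fl b0) = true := by decide +kernel
noncomputable def k349 : KT := (.br (Nat.shiftLeft (nat_lit 0x4007) (nat_lit 88)) (.one (nat_lit 0x4006010015000800c02002a540)) (.one (nat_lit 0x4007010015000800e02002a540)))
def t349 : k349.all (jb2 57 fl b0) = true := by decide +kernel
noncomputable def k350 : KT := (.br (Nat.shiftLeft (nat_lit 0x5) (nat_lit 100)) (.br (Nat.shiftLeft (nat_lit 0x4009) (nat_lit 88)) (.one (nat_lit 0x4008010015000801002002a540)) (.one (nat_lit 0x4009010015000801202002a540))) (.br (Nat.shiftLeft (nat_lit 0x1401) (nat_lit 90)) (.one (nat_lit 0x5000010015000a00002002a311)) (.one (nat_lit 0x5006010015000a00c02002a540))))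
def t350 : k350.all (jb2 57 fl b0) = true := by decide +kernel
noncomputable def k351 : KT := (.br (Nat.shiftLeft (nat_lit 0x1801) (nat_lit 90)) (.br (Nat.shiftLeft (nat_lit 0x5009) (nat_lit 88)) (.br (Nat.shiftLeft (nat_lit 0xa01) (nat_lit 91)) (.one (nat_lit 0x5007010015000a00e02002a540)) (.one (nat_lit 0x5008010015000a01002002a540))) (.br (Nat.shiftLeft (nat_lit 0x3) (nat_lit 101)) (.one (nat_lit 0x5009010015000a01202002a540)) (.one (nat_lit 0x6000010015000c00002002a311)))) (.br (Nat.shiftLeft (nat_lit 0x6009) (nat_lit 88)) (.br (Nat.shiftLeft (nat_lit 0xc01) (nat_lit 91)) (.one (nat_lit 0x6007010015000c00e02002a540)) (.one (nat_lit 0x6008010015000c01002002a540))) (.br (Nat.shiftLeft (nat_lit 0x7) (nat_lit 100)) (.one (nat_lit 0x6009010015000c01202002a540)) (.one (nat_lit 0x7000010015000e00002002a311)))))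
def t351 : k351.all (jb2 57 fl b0) = true := by decide +kernel
noncomputable def k352 : KT := (.br (Nat.shiftLeft (nat_lit 0x1000009) (nat_lit 88)) (.br (Nat.shiftLeft (nat_lit 0x7) (nat_lit 101)) (.br (Nat.shiftLeft (nat_lit 0x9) (nat_lit 100)) (.br (Nat.shiftLeft (nat_lit 0x1) (nat_lit 103)) (.br (Nat.shiftLeft (nat_lit 0x7009) (nat_lit 88)) (.one (nat_lit 0x7008010015000e01002002a540)) (.one (nat_lit 0x7009010015000e01202002a540))) (.br (Nat.shiftLeft (nat_lit 0x1001) (nat_lit 91)) (.one (nat_lit 0x8000010015001000002002a311)) (.one (nat_lit 0x8009010015001001202002a540)))) (.br (Nat.shiftLeft (nat_lit 0xb) (nat_lit 100)) (.br (Nat.shiftLeft (nat_lit 0x5) (nat_lit 101)) (.one (nat_lit 0x9000010015001200002002a311)) (.one (nat_lit 0xa000010015001400002002a311))) (.br (Nat.shiftLeft (nat_lit 0x3) (nat_lit 102)) (.one (nat_lit 0xb000010015001600002002a311)) (.br (Nat.shiftLeft (nat_lit 0xd) (nat_lit 100)) (.one (nat_lit 0xc000010015001800002002a311)) (.one (nat_lit 0xd000010015001a00002002a311))))))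 (.br (Nat.shiftLeft (nat_lit 0x400001) (nat_lit 90)) (.br (Nat.shiftLeft (nat_lit 0x1) (nat_lit 104)) (.br (Nat.shiftLeft (nat_lit 0xf) (nat_lit 100)) (.one (nat_lit 0xe000010015001c00002002a311)) (.one (nat_lit 0xf000010015001e00002002a311))) (.br (Nat.shiftLeft (nat_lit 0x1) (nat_lit 112)) (.one (nat_lit 0x10000010015002000002002a311)) (.one (nat_lit 0x1000003010015200000602002a411)))) (.br (Nat.shiftLeft (nat_lit 0x800003) (nat_lit 89)) (.br (Nat.shiftLeft (nat_lit 0x1000005) (nat_lit 88)) (.one (nat_lit 0x1000004010015200000802002a411)) (.one (nat_lit 0x1000005010015200000a02002a411))) (.br (Nat.shiftLeft (nat_lit 0x1000007) (nat_lit 88)) (.one (nat_lit 0x1000006010015200000c02002a411)) (.br (Nat.shiftLeft (nat_lit 0x200001) (nat_lit 91)) (.one (nat_lit 0x1000007010015200000e02002a411)) (.one (nat_lit 0x1000008010015200001002002a411))))))) (.br (Nat.shiftLeft (nat_lit 0x1001) (nat_lit 101)) (.br (Nat.shiftLeft (nat_lit 0x2000005) (nat_lit 88)) (.br (Nat.shiftLeft (nat_lit 0x1)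 (nat_lit 113)) (.br (Nat.shiftLeft (nat_lit 0x801) (nat_lit 101)) (.one (nat_lit 0x1000009010015200001202002a411)) (.one (nat_lit 0x1003004010015200600802002a650))) (.br (Nat.shiftLeft (nat_lit 0x800001) (nat_lit 90)) (.one (nat_lit 0x2000003010015400000602002a411)) (.one (nat_lit 0x2000004010015400000802002a411)))) (.br (Nat.shiftLeft (nat_lit 0x2000007) (nat_lit 88)) (.br (Nat.shiftLeft (nat_lit 0x1000003) (nat_lit 89)) (.one (nat_lit 0x2000005010015400000a02002a411)) (.one (nat_lit 0x2000006010015400000c02002a411))) (.br (Nat.shiftLeft (nat_lit 0x400001) (nat_lit 91)) (.one (nat_lit 0x2000007010015400000e02002a411)) (.br (Nat.shiftLeft (nat_lit 0x2000009) (nat_lit 88)) (.one (nat_lit 0x2000008010015400001002002a411)) (.one (nat_lit 0x2000009010015400001202002a411)))))) (.br (Nat.shiftLeft (nat_lit 0x1800003) (nat_lit 89)) (.br (Nat.shiftLeft (nat_lit 0xc00001) (nat_lit 90)) (.br (Nat.shiftLeft (nat_lit 0x3) (nat_lit 112)) (.one (nat_lit 0x2003004010015400600802002a650)) (.one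 (nat_lit 0x3000003010015600000602002a411))) (.br (Nat.shiftLeft (nat_lit 0x3000005) (nat_lit 88)) (.one (nat_lit 0x3000004010015600000802002a411)) (.one (nat_lit 0x3000005010015600000a02002a411)))) (.br (Nat.shiftLeft (nat_lit 0x600001) (nat_lit 91)) (.br (Nat.shiftLeft (nat_lit 0x3000007) (nat_lit 88)) (.one (nat_lit 0x3000006010015600000c02002a411)) (.one (nat_lit 0x3000007010015600000e02002a411))) (.br (Nat.shiftLeft (nat_lit 0x3000009) (nat_lit 88)) (.one (nat_lit 0x3000008010015600001002002a411)) (.br (Nat.shiftLeft (nat_lit 0x1) (nat_lit 114)) (.one (nat_lit 0x3000009010015600001202002a411)) (.one (nat_lit 0x4000003010015800000602002a411))))))))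
def t352 : k352.all (jb2 57 fl b0) = true := by decide +kernel
noncomputable def k353 : KT := (.br (Nat.shiftLeft (nat_lit 0x6000009) (nat_lit 88)) (.br (Nat.shiftLeft (nat_lit 0x2800003) (nat_lit 89)) (.br (Nat.shiftLeft (nat_lit 0x800001) (nat_lit 91)) (.br (Nat.shiftLeft (nat_lit 0x2000003) (nat_lit 89)) (.br (Nat.shiftLeft (nat_lit 0x4000005) (nat_lit 88)) (.one (nat_lit 0x4000004010015800000802002a411)) (.one (nat_lit 0x4000005010015800000a02002a411))) (.br (Nat.shiftLeft (nat_lit 0x4000007) (nat_lit 88)) (.one (nat_lit 0x4000006010015800000c02002a411)) (.one (nat_lit 0x4000007010015800000e02002a411)))) (.br (Nat.shiftLeft (nat_lit 0x5) (nat_lit 112)) (.br (Nat.shiftLeft (nat_lit 0x4000009) (nat_lit 88)) (.one (nat_lit 0x4000008010015800001002002a411)) (.one (nat_lit 0x4000009010015800001202002a411))) (.br (Nat.shiftLeft (nat_lit 0x1400001) (nat_lit 90)) (.one (nat_lit 0x5000003010015a00000602002a411)) (.br (Nat.shiftLeft (nat_lit 0x5000005) (nat_lit 88)) (.one (nat_lit 0x5000004010015a00000802002a411))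 (.one (nat_lit 0x5000005010015a00000a02002a411)))))) (.br (Nat.shiftLeft (nat_lit 0x1800001) (nat_lit 90)) (.br (Nat.shiftLeft (nat_lit 0xa00001) (nat_lit 91)) (.br (Nat.shiftLeft (nat_lit 0x5000007) (nat_lit 88)) (.one (nat_lit 0x5000006010015a00000c02002a411)) (.one (nat_lit 0x5000007010015a00000e02002a411))) (.br (Nat.shiftLeft (nat_lit 0x5000009) (nat_lit 88)) (.one (nat_lit 0x5000008010015a00001002002a411)) (.br (Nat.shiftLeft (nat_lit 0x3) (nat_lit 113)) (.one (nat_lit 0x5000009010015a00001202002a411)) (.one (nat_lit 0x6000003010015c00000602002a411))))) (.br (Nat.shiftLeft (nat_lit 0x3000003) (nat_lit 89)) (.br (Nat.shiftLeft (nat_lit 0x6000005) (nat_lit 88)) (.one (nat_lit 0x6000004010015c00000802002a411)) (.one (nat_lit 0x6000005010015c00000a02002a411))) (.br (Nat.shiftLeft (nat_lit 0x6000007) (nat_lit 88)) (.one (nat_lit 0x6000006010015c00000c02002a411)) (.br (Nat.shiftLeft (nat_lit 0xc00001) (nat_lit 91)) (.one (nat_lit 0x6000007010015c00000e02002a411)) (.one (nat_lit 0x6000008010015c00001002002a411)))))))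 (.br (Nat.shiftLeft (nat_lit 0x8000005) (nat_lit 88)) (.br (Nat.shiftLeft (nat_lit 0x7000007) (nat_lit 88)) (.br (Nat.shiftLeft (nat_lit 0x1c00001) (nat_lit 90)) (.br (Nat.shiftLeft (nat_lit 0x7) (nat_lit 112)) (.one (nat_lit 0x6000009010015c00001202002a411)) (.one (nat_lit 0x7000003010015e00000602002a411))) (.br (Nat.shiftLeft (nat_lit 0x7000005) (nat_lit 88)) (.one (nat_lit 0x7000004010015e00000802002a411)) (.br (Nat.shiftLeft (nat_lit 0x3800003) (nat_lit 89)) (.one (nat_lit 0x7000005010015e00000a02002a411)) (.one (nat_lit 0x7000006010015e00000c02002a411))))) (.br (Nat.shiftLeft (nat_lit 0x7000009) (nat_lit 88)) (.br (Nat.shiftLeft (nat_lit 0xe00001) (nat_lit 91)) (.one (nat_lit 0x7000007010015e00000e02002a411)) (.one (nat_lit 0x7000008010015e00001002002a411))) (.br (Nat.shiftLeft (nat_lit 0x1) (nat_lit 115)) (.one (nat_lit 0x7000009010015e00001202002a411)) (.br (Nat.shiftLeft (nat_lit 0x2000001) (nat_lit 90)) (.one (nat_lit 0x8000003010015000000602012c411)) (.one (nat_lit 0x8000004010015000000802012c411))))))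 (.br (Nat.shiftLeft (nat_lit 0x9) (nat_lit 112)) (.br (Nat.shiftLeft (nat_lit 0x8000007) (nat_lit 88)) (.br (Nat.shiftLeft (nat_lit 0x4000003) (nat_lit 89)) (.one (nat_lit 0x8000005010015000000a02012c411)) (.one (nat_lit 0x8000006010015000000c02012c411))) (.br (Nat.shiftLeft (nat_lit 0x1000001) (nat_lit 91)) (.one (nat_lit 0x8000007010015000000e02012c411)) (.br (Nat.shiftLeft (nat_lit 0x8000009) (nat_lit 88)) (.one (nat_lit 0x8000008010015000001002012c411)) (.one (nat_lit 0x8000009010015000001202012c411))))) (.br (Nat.shiftLeft (nat_lit 0x9000005) (nat_lit 88)) (.br (Nat.shiftLeft (nat_lit 0x2400001) (nat_lit 90)) (.one (nat_lit 0x9000003010015200000602012c411)) (.one (nat_lit 0x9000004010015200000802012c411))) (.br (Nat.shiftLeft (nat_lit 0x4800003) (nat_lit 89)) (.one (nat_lit 0x9000005010015200000a02012c411)) (.br (Nat.shiftLeft (nat_lit 0x9000007) (nat_lit 88)) (.one (nat_lit 0x9000006010015200000c02012c411)) (.one (nat_lit 0x9000007010015200000e02012c411))))))))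
def t353 : k353.all (jb2 57 fl b0) = true := by decide +kernel
noncomputable def k354 : KT := (.br (Nat.shiftLeft (nat_lit 0xc000007) (nat_lit 88)) (.br (Nat.shiftLeft (nat_lit 0x2c00001) (nat_lit 90)) (.br (Nat.shiftLeft (nat_lit 0x5000003) (nat_lit 89)) (.br (Nat.shiftLeft (nat_lit 0x5) (nat_lit 113)) (.br (Nat.shiftLeft (nat_lit 0x9000009) (nat_lit 88)) (.one (nat_lit 0x9000008010015200001002012c411)) (.one (nat_lit 0x9000009010015200001202012c411))) (.br (Nat.shiftLeft (nat_lit 0x2800001) (nat_lit 90)) (.one (nat_lit 0xa000003010015400000602012c411)) (.br (Nat.shiftLeft (nat_lit 0xa000005) (nat_lit 88)) (.one (nat_lit 0xa000004010015400000802012c411)) (.one (nat_lit 0xa000005010015400000a02012c411))))) (.br (Nat.shiftLeft (nat_lit 0x1400001) (nat_lit 91)) (.br (Nat.shiftLeft (nat_lit 0xa000007) (nat_lit 88)) (.one (nat_lit 0xa000006010015400000c02012c411)) (.one (nat_lit 0xa000007010015400000e02012c411))) (.br (Nat.shiftLeft (nat_lit 0xa000009) (nat_lit 88)) (.one (nat_lit 0xa000008010015400001002012c411))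 (.br (Nat.shiftLeft (nat_lit 0xb) (nat_lit 112)) (.one (nat_lit 0xa000009010015400001202012c411)) (.one (nat_lit 0xb000003010015600000602012c411)))))) (.br (Nat.shiftLeft (nat_lit 0xb000009) (nat_lit 88)) (.br (Nat.shiftLeft (nat_lit 0x5800003) (nat_lit 89)) (.br (Nat.shiftLeft (nat_lit 0xb000005) (nat_lit 88)) (.one (nat_lit 0xb000004010015600000802012c411)) (.one (nat_lit 0xb000005010015600000a02012c411))) (.br (Nat.shiftLeft (nat_lit 0xb000007) (nat_lit 88)) (.one (nat_lit 0xb000006010015600000c02012c411)) (.br (Nat.shiftLeft (nat_lit 0x1600001) (nat_lit 91)) (.one (nat_lit 0xb000007010015600000e02012c411)) (.one (nat_lit 0xb000008010015600001002012c411))))) (.br (Nat.shiftLeft (nat_lit 0x3000001) (nat_lit 90)) (.br (Nat.shiftLeft (nat_lit 0x3) (nat_lit 114)) (.one (nat_lit 0xb000009010015600001202012c411)) (.one (nat_lit 0xc000003010015800000602012c411))) (.br (Nat.shiftLeft (nat_lit 0xc000005) (nat_lit 88)) (.one (nat_lit 0xc000004010015800000802012c411)) (.br (Nat.shiftLeft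 (nat_lit 0x6000003) (nat_lit 89)) (.one (nat_lit 0xc000005010015800000a02012c411)) (.one (nat_lit 0xc000006010015800000c02012c411))))))) (.br (Nat.shiftLeft (nat_lit 0x7000003) (nat_lit 89)) (.br (Nat.shiftLeft (nat_lit 0x6800003) (nat_lit 89)) (.br (Nat.shiftLeft (nat_lit 0xd) (nat_lit 112)) (.br (Nat.shiftLeft (nat_lit 0x1800001) (nat_lit 91)) (.one (nat_lit 0xc000007010015800000e02012c411)) (.one (nat_lit 0xc000008010015800001002012c411))) (.br (Nat.shiftLeft (nat_lit 0x3400001) (nat_lit 90)) (.one (nat_lit 0xd000003010015a00000602012c411)) (.br (Nat.shiftLeft (nat_lit 0xd000005) (nat_lit 88)) (.one (nat_lit 0xd000004010015a00000802012c411)) (.one (nat_lit 0xd000005010015a00000a02012c411))))) (.br (Nat.shiftLeft (nat_lit 0x7) (nat_lit 113)) (.br (Nat.shiftLeft (nat_lit 0xd000007) (nat_lit 88)) (.one (nat_lit 0xd000006010015a00000c02012c411)) (.one (nat_lit 0xd000007010015a00000e02012c411))) (.br (Nat.shiftLeft (nat_lit 0x3800001) (nat_lit 90)) (.one (nat_lit 0xe000003010015c00000602012c411))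 (.br (Nat.shiftLeft (nat_lit 0xe000005) (nat_lit 88)) (.one (nat_lit 0xe000004010015c00000802012c411)) (.one (nat_lit 0xe000005010015c00000a02012c411)))))) (.br (Nat.shiftLeft (nat_lit 0x4000001) (nat_lit 90)) (.br (Nat.shiftLeft (nat_lit 0x3c00001) (nat_lit 90)) (.br (Nat.shiftLeft (nat_lit 0xf) (nat_lit 112)) (.one (nat_lit 0xe000006010015c00000c02012c411)) (.one (nat_lit 0xf000003010015e00000602012c411))) (.br (Nat.shiftLeft (nat_lit 0xf000005) (nat_lit 88)) (.one (nat_lit 0xf000004010015e00000802012c411)) (.br (Nat.shiftLeft (nat_lit 0x1) (nat_lit 116)) (.one (nat_lit 0xf000005010015e00000a02012c411)) (.one (nat_lit 0x10000003010015000000602022e411))))) (.br (Nat.shiftLeft (nat_lit 0x1) (nat_lit 125)) (.br (Nat.shiftLeft (nat_lit 0x1) (nat_lit 124)) (.one (nat_lit 0x10000004010015000000802022e411)) (.one (nat_lit 0x1000003004010015000600804042a511))) (.br (Nat.shiftLeft (nat_lit 0x3) (nat_lit 124)) (.one (nat_lit 0x2000003004010015000600806082a511)) (.br (Nat.shiftLeft (nat_lit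 0x1) (nat_lit 126)) (.one (nat_lit 0x30000030040100150006008080c2a511)) (.one (nat_lit 0x400000300401001500060080a102a511))))))))
def t354 : k354.all (jb2 57 fl b0) = true := by decide +kernel
noncomputable def k355 : KT := (.br (Nat.shiftLeft (nat_lit 0x9) (nat_lit 124)) (.br (Nat.shiftLeft (nat_lit 0x7) (nat_lit 124)) (.br (Nat.shiftLeft (nat_lit 0x3) (nat_lit 125)) (.one (nat_lit 0x500000300401001500060080c142a511)) (.one (nat_lit 0x600000300401001500060080e182a511))) (.br (Nat.shiftLeft (nat_lit 0x1) (nat_lit 127)) (.one (nat_lit 0x70000030040100150006008101c2a511)) (.one (nat_lit 0x8000003004010015000600812202a511)))) (.br (Nat.shiftLeft (nat_lit 0xb) (nat_lit 124)) (.br (Nat.shiftLeft (nat_lit 0x5) (nat_lit 125)) (.one (nat_lit 0x9000003004010015000600814242a511)) (.one (nat_lit 0xa000003004010015000600816282a511))) (.br (Nat.shiftLeft (nat_lit 0x3) (nat_lit 126)) (.one (nat_lit 0xb0000030040100150006008182c2a511)) (.br (Nat.shiftLeft (nat_lit 0xd) (nat_lit 124)) (.one (nat_lit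 0xc00000300401001500060081a302a511)) (.one (nat_lit 0xd00000300401001500060081c342a511))))))
def t355 : k355.all (jb2 57 fl b0) = true := by decide +kernel
noncomputable def s17 : KT := (.br (nat_lit 0x3004010015000600802002b500) (.br (nat_lit 0x1005010015000200a02002a540) (.br (nat_lit 0xa010015000001402002a430) (.br (nat_lit 0x9010015000001202002b400) k334 k335) (.br (nat_lit 0xd010015000001a02002a430) k336 (.br (nat_lit 0x1003010015000200602002a540) k337 k338))) (.br (nat_lit 0x2004010015000400802002a540) (.br (nat_lit 0x2000010015000400002002a311) k339 (.br (nat_lit 0x2003010015000400602002a540) k340 k341)) (.br (nat_lit 0x2005010015000400a02002a540) k342 (.br (nat_lit 0x2007010015000400e02002a540) k343 k344)))) (.br (nat_lit 0x4007010015000800e02002a540) (.br (nat_lit 0x3007010015000600e02002a540) (.br (nat_lit 0x3005010015000600a02002a540) k345 k346) (.br (nat_lit 0x4000010015000800002002a311) k347 (.br (nat_lit 0x4005010015000800a02002a540) k348 k349))) (.br (nat_lit 0x4000003010015800000602002a411)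 (.br (nat_lit 0x5006010015000a00c02002a540) k350 (.br (nat_lit 0x7000010015000e00002002a311) k351 k352)) (.br (nat_lit 0x9000007010015200000e02012c411) k353 (.br (nat_lit 0x400000300401001500060080a102a511) k354 k355)))))
noncomputable def u17 : KT := (.one (nat_lit 0x10015000000002002a320))
def w17 : u17.all (wj 57 s17) = true := by decide +kernel
def o17 : OkW 57 (jb2 57 fl) u17 := .lift s17 _ (.br _ _ _ (.br _ _ _ (.br _ _ _ (.br _ _ _ (.leaf b0 k334 t334) (.leaf b0 k335 t335)) (.br _ _ _ (.leaf b0 k336 t336) (.br _ _ _ (.leaf b0 k337 t337) (.leaf b0 k338 t338)))) (.br _ _ _ (.br _ _ _ (.leaf b0 k339 t339) (.br _ _ _ (.leaf b0 k340 t340) (.leaf b0 k341 t341))) (.br _ _ _ (.leaf b0 k342 t342) (.br _ _ _ (.leaf b0 k343 t343) (.leaf b0 k344 t344))))) (.br _ _ _ (.br _ _ _ (.br _ _ _ (.leaf b0 k345 t345) (.leaf b0 k346 t346)) (.br _ _ _ (.leaf b0 k347 t347) (.br _ _ _ (.leaf b0 k348 t348) (.leaf b0 k349 t349)))) (.br _ _ _ (.br _ _ _ (.leaf b0 k350 t350) (.br _ _ _ (.leaf b0 k351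 t351) (.leaf b0 k352 t352))) (.br _ _ _ (.leaf b0 k353 t353) (.br _ _ _ (.leaf b0 k354 t354) (.leaf b0 k355 t355)))))) w17
noncomputable def k356 : KT := (.br (Nat.shiftLeft (nat_lit 0x1) (nat_lit 90)) (.br (Nat.shiftLeft (nat_lit 0x1) (nat_lit 89)) (.br (Nat.shiftLeft (nat_lit 0x1) (nat_lit 88)) (.one (nat_lit 0x10016000000002002d300)) (.one (nat_lit 0x1010016000000202002c430))) (.br (Nat.shiftLeft (nat_lit 0x3) (nat_lit 88)) (.one (nat_lit 0x2010016000000402002c430)) (.one (nat_lit 0x3010016000000602002d400)))) (.br (Nat.shiftLeft (nat_lit 0x3) (nat_lit 89)) (.br (Nat.shiftLeft (nat_lit 0x5) (nat_lit 88)) (.one (nat_lit 0x4010016000000802002d400)) (.one (nat_lit 0x5010016000000a02002d400))) (.br (Nat.shiftLeft (nat_lit 0x7) (nat_lit 88)) (.one (nat_lit 0x6010016000000c02002d400)) (.br (Nat.shiftLeft (nat_lit 0x1) (nat_lit 91)) (.one (nat_lit 0x7010016000000e02002d400)) (.one (nat_lit 0x8010016000001002002d400))))))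
def t356 : k356.all (jb2 57 fl b0) = true := by decide +kernel
noncomputable def k357 : KT := (.one (nat_lit 0x9010016000001202002c430))
def t357 : k357.all (jb2 57 fl b0) = true := by decide +kernel
noncomputable def k358 : KT := (.br (Nat.shiftLeft (nat_lit 0xb) (nat_lit 88)) (.one (nat_lit 0xa010016000001402002c430)) (.br (Nat.shiftLeft (nat_lit 0x3) (nat_lit 90)) (.one (nat_lit 0xb010016000001602002c430)) (.one (nat_lit 0xc010016000001802002c430))))
def t358 : k358.all (jb2 57 fl b0) = true := by decide +kernel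
noncomputable def k359 : KT := (.br (Nat.shiftLeft (nat_lit 0x1) (nat_lit 100)) (.br (Nat.shiftLeft (nat_lit 0x7) (nat_lit 89)) (.one (nat_lit 0xd010016000001a02002c430)) (.br (Nat.shiftLeft (nat_lit 0xf) (nat_lit 88)) (.one (nat_lit 0xe010016000001c02002c430)) (.one (nat_lit 0xf010016000001e02002c430)))) (.br (Nat.shiftLeft (nat_lit 0x801) (nat_lit 89)) (.one (nat_lit 0x1000010016000200002002c311)) (.br (Nat.shiftLeft (nat_lit 0x401) (nat_lit 90)) (.one (nat_lit 0x1003010016000200602002c540)) (.one (nat_lit 0x1004010016000200802002c540)))))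
def t359 : k359.all (jb2 57 fl b0) = true := by decide +kernel
noncomputable def k360 : KT := (.br (Nat.shiftLeft (nat_lit 0x1007) (nat_lit 88)) (.br (Nat.shiftLeft (nat_lit 0x803) (nat_lit 89)) (.one (nat_lit 0x1005010016000200a02002c540)) (.one (nat_lit 0x1006010016000200c02002c540))) (.br (Nat.shiftLeft (nat_lit 0x201) (nat_lit 91)) (.one (nat_lit 0x1007010016000200e02002c540)) (.br (Nat.shiftLeft (nat_lit 0x1) (nat_lit 101)) (.one (nat_lit 0x1008010016000201002002c540)) (.one (nat_lit 0x2000010016000400002002c311)))))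
def t360 : k360.all (jb2 57 fl b0) = true := by decide +kernel
noncomputable def k361 : KT := (.one (nat_lit 0x2003010016000400602002c540))
def t361 : k361.all (jb2 57 fl b0) = true := by decide +kernel
noncomputable def k362 : KT := (.one (nat_lit 0x2004010016000400802002c540))
def t362 : k362.all (jb2 57 fl b0) = true := by decide +kernel
noncomputable def k363 : KT := (.br (Nat.shiftLeft (nat_lit 0x1003) (nat_lit 89)) (.one (nat_lit 0x2005010016000400a02002c540)) (.one (nat_lit 0x2006010016000400c02002c540)))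
def t363 : k363.all (jb2 57 fl b0) = true := by decide +kernel
noncomputable def k364 : KT := (.br (Nat.shiftLeft (nat_lit 0x401) (nat_lit 91)) (.one (nat_lit 0x2007010016000400e02002c540)) (.br (Nat.shiftLeft (nat_lit 0x3) (nat_lit 100)) (.one (nat_lit 0x2008010016000401002002c540)) (.one (nat_lit 0x3000010016000600002002c311))))
def t364 : k364.all (jb2 57 fl b0) = true := by decide +kernel
noncomputable def k365 : KT := (.one (nat_lit 0x3004010016000600802002c540))
def t365 : k365.all (jb2 57 fl b0) = true := by decide +kernel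
noncomputable def k366 : KT := (.br (Nat.shiftLeft (nat_lit 0x1803) (nat_lit 89)) (.one (nat_lit 0x3005010016000600a02002c540)) (.one (nat_lit 0x3006010016000600c02002c540)))
def t366 : k366.all (jb2 57 fl b0) = true := by decide +kernel
noncomputable def k367 : KT := (.br (Nat.shiftLeft (nat_lit 0x1) (nat_lit 102)) (.br (Nat.shiftLeft (nat_lit 0x601) (nat_lit 91)) (.one (nat_lit 0x3007010016000600e02002c540)) (.one (nat_lit 0x3008010016000601002002c540))) (.br (Nat.shiftLeft (nat_lit 0x1001) (nat_lit 90)) (.one (nat_lit 0x4000010016000800002002c311)) (.one (nat_lit 0x4005010016000800a02002c540))))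
def t367 : k367.all (jb2 57 fl b0) = true := by decide +kernel
noncomputable def k368 : KT := (.br (Nat.shiftLeft (nat_lit 0x801) (nat_lit 91)) (.br (Nat.shiftLeft (nat_lit 0x4007) (nat_lit 88)) (.one (nat_lit 0x4006010016000800c02002c540)) (.one (nat_lit 0x4007010016000800e02002c540))) (.br (Nat.shiftLeft (nat_lit 0x5) (nat_lit 100)) (.one (nat_lit 0x4008010016000801002002c540)) (.one (nat_lit 0x5000010016000a00002002c311))))
def t368 : k368.all (jb2 57 fl b0) = true := by decide +kernel
noncomputable def k369 : KT := (.br (Nat.shiftLeft (nat_lit 0x400001) (nat_lit 90)) (.br (Nat.shiftLeft (nat_lit 0x9) (nat_lit 100)) (.br (Nat.shiftLeft (nat_lit 0x1801) (nat_lit 90)) (.br (Nat.shiftLeft (nat_lit 0xa01) (nat_lit 91)) (.br (Nat.shiftLeft (nat_lit 0x5007) (nat_lit 88)) (.one (nat_lit 0x5006010016000a00c02002c540)) (.one (nat_lit 0x5007010016000a00e02002c540))) (.br (Nat.shiftLeft (nat_lit 0x3) (nat_lit 101)) (.one (nat_lit 0x5008010016000a01002002c540)) (.one (nat_lit 0x6000010016000c00002002c311))))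 (.br (Nat.shiftLeft (nat_lit 0x7) (nat_lit 100)) (.br (Nat.shiftLeft (nat_lit 0xc01) (nat_lit 91)) (.one (nat_lit 0x6007010016000c00e02002c540)) (.one (nat_lit 0x6008010016000c01002002c540))) (.br (Nat.shiftLeft (nat_lit 0xe01) (nat_lit 91)) (.one (nat_lit 0x7000010016000e00002002c311)) (.br (Nat.shiftLeft (nat_lit 0x1) (nat_lit 103)) (.one (nat_lit 0x7008010016000e01002002c540)) (.one (nat_lit 0x8000010016001000002002c311)))))) (.br (Nat.shiftLeft (nat_lit 0xd) (nat_lit 100)) (.br (Nat.shiftLeft (nat_lit 0xb) (nat_lit 100)) (.br (Nat.shiftLeft (nat_lit 0x5) (nat_lit 101)) (.one (nat_lit 0x9000010016001200002002c311)) (.one (nat_lit 0xa000010016001400002002c311))) (.br (Nat.shiftLeft (nat_lit 0x3) (nat_lit 102)) (.one (nat_lit 0xb000010016001600002002c311)) (.one (nat_lit 0xc000010016001800002002c311)))) (.br (Nat.shiftLeft (nat_lit 0xf) (nat_lit 100)) (.br (Nat.shiftLeft (nat_lit 0x7) (nat_lit 101)) (.one (nat_lit 0xd000010016001a00002002c311)) (.one (nat_lit 0xe000010016001c00002002c311)))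 (.br (Nat.shiftLeft (nat_lit 0x1) (nat_lit 104)) (.one (nat_lit 0xf000010016001e00002002c311)) (.br (Nat.shiftLeft (nat_lit 0x1) (nat_lit 112)) (.one (nat_lit 0x10000010016002000002002c311)) (.one (nat_lit 0x1000003010016200000602002c411))))))) (.br (Nat.shiftLeft (nat_lit 0x2000007) (nat_lit 88)) (.br (Nat.shiftLeft (nat_lit 0x200001) (nat_lit 91)) (.br (Nat.shiftLeft (nat_lit 0x800003) (nat_lit 89)) (.br (Nat.shiftLeft (nat_lit 0x1000005) (nat_lit 88)) (.one (nat_lit 0x1000004010016200000802002c411)) (.one (nat_lit 0x1000005010016200000a02002c411))) (.br (Nat.shiftLeft (nat_lit 0x1000007) (nat_lit 88)) (.one (nat_lit 0x1000006010016200000c02002c411)) (.one (nat_lit 0x1000007010016200000e02002c411)))) (.br (Nat.shiftLeft (nat_lit 0x800001) (nat_lit 90)) (.br (Nat.shiftLeft (nat_lit 0x1) (nat_lit 113)) (.one (nat_lit 0x1000008010016200001002002c411)) (.one (nat_lit 0x2000003010016400000602002c411))) (.br (Nat.shiftLeft (nat_lit 0x2000005) (nat_lit 88)) (.one (nat_lit 0x2000004010016400000802002c411))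 (.br (Nat.shiftLeft (nat_lit 0x1000003) (nat_lit 89)) (.one (nat_lit 0x2000005010016400000a02002c411)) (.one (nat_lit 0x2000006010016400000c02002c411)))))) (.br (Nat.shiftLeft (nat_lit 0x3000005) (nat_lit 88)) (.br (Nat.shiftLeft (nat_lit 0x3) (nat_lit 112)) (.br (Nat.shiftLeft (nat_lit 0x400001) (nat_lit 91)) (.one (nat_lit 0x2000007010016400000e02002c411)) (.one (nat_lit 0x2000008010016400001002002c411))) (.br (Nat.shiftLeft (nat_lit 0xc00001) (nat_lit 90)) (.one (nat_lit 0x3000003010016600000602002c411)) (.one (nat_lit 0x3000004010016600000802002c411)))) (.br (Nat.shiftLeft (nat_lit 0x3000007) (nat_lit 88)) (.br (Nat.shiftLeft (nat_lit 0x1800003) (nat_lit 89)) (.one (nat_lit 0x3000005010016600000a02002c411)) (.one (nat_lit 0x3000006010016600000c02002c411))) (.br (Nat.shiftLeft (nat_lit 0x600001) (nat_lit 91)) (.one (nat_lit 0x3000007010016600000e02002c411)) (.br (Nat.shiftLeft (nat_lit 0x1) (nat_lit 114)) (.one (nat_lit 0x3000008010016600001002002c411)) (.one (nat_lit 0x4000003010016800000602002c411))))))))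
def t369 : k369.all (jb2 57 fl b0) = true := by decide +kernel
noncomputable def k370 : KT := (.br (Nat.shiftLeft (nat_lit 0x3800003) (nat_lit 89)) (.br (Nat.shiftLeft (nat_lit 0xa00001) (nat_lit 91)) (.br (Nat.shiftLeft (nat_lit 0x5) (nat_lit 112)) (.br (Nat.shiftLeft (nat_lit 0x2000003) (nat_lit 89)) (.br (Nat.shiftLeft (nat_lit 0x4000005) (nat_lit 88)) (.one (nat_lit 0x4000004010016800000802002c411)) (.one (nat_lit 0x4000005010016800000a02002c411))) (.br (Nat.shiftLeft (nat_lit 0x4000007) (nat_lit 88)) (.one (nat_lit 0x4000006010016800000c02002c411)) (.br (Nat.shiftLeft (nat_lit 0x800001) (nat_lit 91)) (.one (nat_lit 0x4000007010016800000e02002c411)) (.one (nat_lit 0x4000008010016800001002002c411))))) (.br (Nat.shiftLeft (nat_lit 0x5000005) (nat_lit 88)) (.br (Nat.shiftLeft (nat_lit 0x1400001) (nat_lit 90)) (.one (nat_lit 0x5000003010016a00000602002c411)) (.one (nat_lit 0x5000004010016a00000802002c411))) (.br (Nat.shiftLeft (nat_lit 0x2800003) (nat_lit 89)) (.one (nat_lit 0x5000005010016a00000a02002c411))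 (.br (Nat.shiftLeft (nat_lit 0x5000007) (nat_lit 88)) (.one (nat_lit 0x5000006010016a00000c02002c411)) (.one (nat_lit 0x5000007010016a00000e02002c411)))))) (.br (Nat.shiftLeft (nat_lit 0x6000007) (nat_lit 88)) (.br (Nat.shiftLeft (nat_lit 0x1800001) (nat_lit 90)) (.br (Nat.shiftLeft (nat_lit 0x3) (nat_lit 113)) (.one (nat_lit 0x5000008010016a00001002002c411)) (.one (nat_lit 0x6000003010016c00000602002c411))) (.br (Nat.shiftLeft (nat_lit 0x6000005) (nat_lit 88)) (.one (nat_lit 0x6000004010016c00000802002c411)) (.br (Nat.shiftLeft (nat_lit 0x3000003) (nat_lit 89)) (.one (nat_lit 0x6000005010016c00000a02002c411)) (.one (nat_lit 0x6000006010016c00000c02002c411))))) (.br (Nat.shiftLeft (nat_lit 0x7) (nat_lit 112)) (.br (Nat.shiftLeft (nat_lit 0xc00001) (nat_lit 91)) (.one (nat_lit 0x6000007010016c00000e02002c411)) (.one (nat_lit 0x6000008010016c00001002002c411))) (.br (Nat.shiftLeft (nat_lit 0x1c00001) (nat_lit 90)) (.one (nat_lit 0x7000003010016e00000602002c411)) (.br (Nat.shiftLeft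 (nat_lit 0x7000005) (nat_lit 88)) (.one (nat_lit 0x7000004010016e00000802002c411)) (.one (nat_lit 0x7000005010016e00000a02002c411))))))) (.br (Nat.shiftLeft (nat_lit 0x2400001) (nat_lit 90)) (.br (Nat.shiftLeft (nat_lit 0x8000005) (nat_lit 88)) (.br (Nat.shiftLeft (nat_lit 0xe00001) (nat_lit 91)) (.br (Nat.shiftLeft (nat_lit 0x7000007) (nat_lit 88)) (.one (nat_lit 0x7000006010016e00000c02002c411)) (.one (nat_lit 0x7000007010016e00000e02002c411))) (.br (Nat.shiftLeft (nat_lit 0x1) (nat_lit 115)) (.one (nat_lit 0x7000008010016e00001002002c411)) (.br (Nat.shiftLeft (nat_lit 0x2000001) (nat_lit 90)) (.one (nat_lit 0x8000003010016000000602012e411)) (.one (nat_lit 0x8000004010016000000802012e411))))) (.br (Nat.shiftLeft (nat_lit 0x8000007) (nat_lit 88)) (.br (Nat.shiftLeft (nat_lit 0x4000003) (nat_lit 89)) (.one (nat_lit 0x8000005010016000000a02012e411)) (.one (nat_lit 0x8000006010016000000c02012e411))) (.br (Nat.shiftLeft (nat_lit 0x1000001) (nat_lit 91)) (.one (nat_lit 0x8000007010016000000e02012e411))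 (.br (Nat.shiftLeft (nat_lit 0x9) (nat_lit 112)) (.one (nat_lit 0x8000008010016000001002012e411)) (.one (nat_lit 0x9000003010016200000602012e411)))))) (.br (Nat.shiftLeft (nat_lit 0x5) (nat_lit 113)) (.br (Nat.shiftLeft (nat_lit 0x4800003) (nat_lit 89)) (.br (Nat.shiftLeft (nat_lit 0x9000005) (nat_lit 88)) (.one (nat_lit 0x9000004010016200000802012e411)) (.one (nat_lit 0x9000005010016200000a02012e411))) (.br (Nat.shiftLeft (nat_lit 0x9000007) (nat_lit 88)) (.one (nat_lit 0x9000006010016200000c02012e411)) (.br (Nat.shiftLeft (nat_lit 0x1200001) (nat_lit 91)) (.one (nat_lit 0x9000007010016200000e02012e411)) (.one (nat_lit 0x9000008010016200001002012e411))))) (.br (Nat.shiftLeft (nat_lit 0xa000005) (nat_lit 88)) (.br (Nat.shiftLeft (nat_lit 0x2800001) (nat_lit 90)) (.one (nat_lit 0xa000003010016400000602012e411)) (.one (nat_lit 0xa000004010016400000802012e411))) (.br (Nat.shiftLeft (nat_lit 0x5000003) (nat_lit 89)) (.one (nat_lit 0xa000005010016400000a02012e411)) (.br (Nat.shiftLeft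 (nat_lit 0xa000007) (nat_lit 88)) (.one (nat_lit 0xa000006010016400000c02012e411)) (.one (nat_lit 0xa000007010016400000e02012e411))))))))
def t370 : k370.all (jb2 57 fl b0) = true := by decide +kernel
noncomputable def k371 : KT := (.br (Nat.shiftLeft (nat_lit 0xc000007) (nat_lit 88)) (.br (Nat.shiftLeft (nat_lit 0xb000007) (nat_lit 88)) (.br (Nat.shiftLeft (nat_lit 0x2c00001) (nat_lit 90)) (.br (Nat.shiftLeft (nat_lit 0xb) (nat_lit 112)) (.one (nat_lit 0xa000008010016400001002012e411)) (.one (nat_lit 0xb000003010016600000602012e411))) (.br (Nat.shiftLeft (nat_lit 0xb000005) (nat_lit 88)) (.one (nat_lit 0xb000004010016600000802012e411)) (.br (Nat.shiftLeft (nat_lit 0x5800003) (nat_lit 89)) (.one (nat_lit 0xb000005010016600000a02012e411)) (.one (nat_lit 0xb000006010016600000c02012e411))))) (.br (Nat.shiftLeft (nat_lit 0x3000001) (nat_lit 90)) (.br (Nat.shiftLeft (nat_lit 0x1600001) (nat_lit 91)) (.one (nat_lit 0xb000007010016600000e02012e411)) (.br (Nat.shiftLeft (nat_lit 0x3) (nat_lit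 114)) (.one (nat_lit 0xb000008010016600001002012e411)) (.one (nat_lit 0xc000003010016800000602012e411)))) (.br (Nat.shiftLeft (nat_lit 0xc000005) (nat_lit 88)) (.one (nat_lit 0xc000004010016800000802012e411)) (.br (Nat.shiftLeft (nat_lit 0x6000003) (nat_lit 89)) (.one (nat_lit 0xc000005010016800000a02012e411)) (.one (nat_lit 0xc000006010016800000c02012e411)))))) (.br (Nat.shiftLeft (nat_lit 0x7) (nat_lit 113)) (.br (Nat.shiftLeft (nat_lit 0x3400001) (nat_lit 90)) (.br (Nat.shiftLeft (nat_lit 0xd) (nat_lit 112)) (.one (nat_lit 0xc000007010016800000e02012e411)) (.one (nat_lit 0xd000003010016a00000602012e411))) (.br (Nat.shiftLeft (nat_lit 0xd000005) (nat_lit 88)) (.one (nat_lit 0xd000004010016a00000802012e411)) (.br (Nat.shiftLeft (nat_lit 0x6800003) (nat_lit 89)) (.one (nat_lit 0xd000005010016a00000a02012e411)) (.one (nat_lit 0xd000006010016a00000c02012e411))))) (.br (Nat.shiftLeft (nat_lit 0xf) (nat_lit 112)) (.br (Nat.shiftLeft (nat_lit 0x3800001) (nat_lit 90)) (.one (nat_lit 0xe000003010016c00000602012e411))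 (.br (Nat.shiftLeft (nat_lit 0xe000005) (nat_lit 88)) (.one (nat_lit 0xe000004010016c00000802012e411)) (.one (nat_lit 0xe000005010016c00000a02012e411)))) (.br (Nat.shiftLeft (nat_lit 0x3c00001) (nat_lit 90)) (.one (nat_lit 0xf000003010016e00000602012e411)) (.br (Nat.shiftLeft (nat_lit 0x1) (nat_lit 116)) (.one (nat_lit 0xf000004010016e00000802012e411)) (.one (nat_lit 0x100000030100160000006020230411)))))))
def t371 : k371.all (jb2 57 fl b0) = true := by decide +kernel
noncomputable def s18 : KT := (.br (nat_lit 0x2006010016000400c02002c540) (.br (nat_lit 0x1004010016000200802002c540) (.br (nat_lit 0x9010016000001202002c430) (.br (nat_lit 0x8010016000001002002d400) k356 k357) (.br (nat_lit 0xc010016000001802002c430) k358 k359)) (.br (nat_lit 0x2003010016000400602002c540) (.br (nat_lit 0x2000010016000400002002c311) k360 k361) (.br (nat_lit 0x2004010016000400802002c540) k362 k363))) (.br (nat_lit 0x4005010016000800a02002c540) (.br (nat_lit 0x3004010016000600802002c540) (.br (nat_lit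 0x3000010016000600002002c311) k364 k365) (.br (nat_lit 0x3006010016000600c02002c540) k366 k367)) (.br (nat_lit 0x4000003010016800000602002c411) (.br (nat_lit 0x5000010016000a00002002c311) k368 k369) (.br (nat_lit 0xa000007010016400000e02012e411) k370 k371))))
noncomputable def u18 : KT := (.one (nat_lit 0x10016000000002002c320))
def w18 : u18.all (wj 57 s18) = true := by decide +kernel
def o18 : OkW 57 (jb2 57 fl) u18 := .lift s18 _ (.br _ _ _ (.br _ _ _ (.br _ _ _ (.br _ _ _ (.leaf b0 k356 t356) (.leaf b0 k357 t357)) (.br _ _ _ (.leaf b0 k358 t358) (.leaf b0 k359 t359))) (.br _ _ _ (.br _ _ _ (.leaf b0 k360 t360) (.leaf b0 k361 t361)) (.br _ _ _ (.leaf b0 k362 t362) (.leaf b0 k363 t363)))) (.br _ _ _ (.br _ _ _ (.br _ _ _ (.leaf b0 k364 t364) (.leaf b0 k365 t365)) (.br _ _ _ (.leaf b0 k366 t366) (.leaf b0 k367 t367))) (.br _ _ _ (.br _ _ _ (.leaf b0 k368 t368) (.leaf b0 k369 t369)) (.br _ _ _ (.leaf b0 k370 t370) (.leaf b0 k371 t371))))) w18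
noncomputable def k372 : KT := (.br (Nat.shiftLeft (nat_lit 0x202003) (nat_lit 67)) (.br (Nat.shiftLeft (nat_lit 0x2003) (nat_lit 67)) (.one (nat_lit 0x10017000000002002f300)) (.br (Nat.shiftLeft (nat_lit 0x1) (nat_lit 88)) (.one (nat_lit 0x100180000000020031300)) (.one (nat_lit 0x1010017000000202002e430)))) (.br (Nat.shiftLeft (nat_lit 0x402003) (nat_lit 67)) (.br (Nat.shiftLeft (nat_lit 0x1) (nat_lit 89)) (.one (nat_lit 0x10100180000002020030430)) (.one (nat_lit 0x2010017000000402002e430))) (.br (Nat.shiftLeft (nat_lit 0x3) (nat_lit 88)) (.one (nat_lit 0x20100180000004020030430)) (.one (nat_lit 0x3010017000000602002f400)))))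
def t372 : k372.all (jb2 57 fl b0) = true := by decide +kernel
noncomputable def k373 : KT := (.br (Nat.shiftLeft (nat_lit 0x5) (nat_lit 88)) (.br (Nat.shiftLeft (nat_lit 0x1) (nat_lit 90)) (.one (nat_lit 0x30100180000006020030430)) (.br (Nat.shiftLeft (nat_lit 0x802003) (nat_lit 67)) (.one (nat_lit 0x4010017000000802002f400)) (.one (nat_lit 0x40100180000008020031400)))) (.br (Nat.shiftLeft (nat_lit 0xa02003) (nat_lit 67)) (.one (nat_lit 0x5010017000000a02002f400)) (.br (Nat.shiftLeft (nat_lit 0x3) (nat_lit 89)) (.one (nat_lit 0x5010018000000a020031400)) (.one (nat_lit 0x6010017000000c02002f400)))))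
def t373 : k373.all (jb2 57 fl b0) = true := by decide +kernel
noncomputable def k374 : KT := (.br (Nat.shiftLeft (nat_lit 0x7) (nat_lit 88)) (.one (nat_lit 0x6010018000000c020030430)) (.one (nat_lit 0x7010017000000e02002f400)))
def t374 : k374.all (jb2 57 fl b0) = true := by decide +kernel
noncomputable def k375 : KT := (.one (nat_lit 0x7010018000000e020030430))
def t375 : k375.all (jb2 57 fl b0) = true := by decide +kernel
noncomputable def k376 : KT := (.one (nat_lit 0x8010017000001002002e430))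
def t376 : k376.all (jb2 57 fl b0) = true := by decide +kernel
noncomputable def k377 : KT := (.br (Nat.shiftLeft (nat_lit 0x9) (nat_lit 88)) (.one (nat_lit 0x80100180000010020030430)) (.one (nat_lit 0x9010017000001202002e430)))
def t377 : k377.all (jb2 57 fl b0) = true := by decide +kernel
noncomputable def k378 : KT := (.br (Nat.shiftLeft (nat_lit 0x5) (nat_lit 89)) (.one (nat_lit 0x90100180000012020030430)) (.br (Nat.shiftLeft (nat_lit 0x1402003) (nat_lit 67)) (.one (nat_lit 0xa010017000001402002e430)) (.one (nat_lit 0xa0100180000014020030430))))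
def t378 : k378.all (jb2 57 fl b0) = true := by decide +kernel
noncomputable def k379 : KT := (.br (Nat.shiftLeft (nat_lit 0x7) (nat_lit 89)) (.br (Nat.shiftLeft (nat_lit 0x1802003) (nat_lit 67)) (.br (Nat.shiftLeft (nat_lit 0x1602003) (nat_lit 67)) (.one (nat_lit 0xb010017000001602002e430)) (.br (Nat.shiftLeft (nat_lit 0x3) (nat_lit 90)) (.one (nat_lit 0xb0100180000016020030430)) (.one (nat_lit 0xc010017000001802002e430)))) (.br (Nat.shiftLeft (nat_lit 0xd) (nat_lit 88)) (.one (nat_lit 0xc0100180000018020030430)) (.br (Nat.shiftLeft (nat_lit 0x1a02003) (nat_lit 67)) (.one (nat_lit 0xd010017000001a02002e430)) (.one (nat_lit 0xd010018000001a020030430))))) (.br (Nat.shiftLeft (nat_lit 0x1e02003) (nat_lit 67)) (.br (Nat.shiftLeft (nat_lit 0x1c02003) (nat_lit 67)) (.one (nat_lit 0xe010017000001c02002e430)) (.br (Nat.shiftLeft (nat_lit 0xf) (nat_lit 88)) (.one (nat_lit 0xe010018000001c020030430)) (.one (nat_lit 0xf010017000001e02002e430)))) (.br (Nat.shiftLeft (nat_lit 0x1) (nat_lit 100))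 (.one (nat_lit 0xf010018000001e020030430)) (.br (Nat.shiftLeft (nat_lit 0x200002003) (nat_lit 67)) (.one (nat_lit 0x1000010017000200002002e311)) (.one (nat_lit 0x10000100180002000020030311))))))
def t379 : k379.all (jb2 57 fl b0) = true := by decide +kernel
noncomputable def k380 : KT := (.br (Nat.shiftLeft (nat_lit 0x401) (nat_lit 90)) (.one (nat_lit 0x1003010017000200602002e540)) (.br (Nat.shiftLeft (nat_lit 0x200802003) (nat_lit 67)) (.one (nat_lit 0x1004010017000200802002e540)) (.one (nat_lit 0x10040100180002008020030540))))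
def t380 : k380.all (jb2 57 fl b0) = true := by decide +kernel
noncomputable def k381 : KT := (.br (Nat.shiftLeft (nat_lit 0x1007) (nat_lit 88)) (.br (Nat.shiftLeft (nat_lit 0x200a02003) (nat_lit 67)) (.one (nat_lit 0x1005010017000200a02002e540)) (.br (Nat.shiftLeft (nat_lit 0x803) (nat_lit 89)) (.one (nat_lit 0x1005010018000200a020030540)) (.one (nat_lit 0x1006010017000200c02002e540)))) (.br (Nat.shiftLeft (nat_lit 0x1) (nat_lit 101)) (.one (nat_lit 0x1007010017000200e02002e540)) (.br (Nat.shiftLeft (nat_lit 0x400002003) (nat_lit 67)) (.one (nat_lit 0x2000010017000400002002e311)) (.one (nat_lit 0x20000100180004000020030311)))))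
def t381 : k381.all (jb2 57 fl b0) = true := by decide +kernel
noncomputable def k382 : KT := (.one (nat_lit 0x2003010017000400602002e540))
def t382 : k382.all (jb2 57 fl b0) = true := by decide +kernel
noncomputable def k383 : KT := (.br (Nat.shiftLeft (nat_lit 0x400802003) (nat_lit 67)) (.one (nat_lit 0x2004010017000400802002e540)) (.one (nat_lit 0x20040100180004008020030540)))
def t383 : k383.all (jb2 57 fl b0) = true := by decide +kernel
noncomputable def k384 : KT := (.br (Nat.shiftLeft (nat_lit 0x400a02003) (nat_lit 67)) (.one (nat_lit 0x2005010017000400a02002e540)) (.br (Nat.shiftLeft (nat_lit 0x1003) (nat_lit 89)) (.one (nat_lit 0x2005010018000400a020030540)) (.one (nat_lit 0x2006010017000400c02002e540))))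
def t384 : k384.all (jb2 57 fl b0) = true := by decide +kernel
noncomputable def k385 : KT := (.br (Nat.shiftLeft (nat_lit 0x600002003) (nat_lit 67)) (.br (Nat.shiftLeft (nat_lit 0x3) (nat_lit 100)) (.one (nat_lit 0x2007010017000400e02002e540)) (.one (nat_lit 0x3000010017000600002002e311))) (.br (Nat.shiftLeft (nat_lit 0xc01) (nat_lit 90)) (.one (nat_lit 0x30000100180006000020030311)) (.one (nat_lit 0x3004010017000600802002e540))))
def t385 : k385.all (jb2 57 fl b0) = true := by decide +kernel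
noncomputable def k386 : KT := (.br (Nat.shiftLeft (nat_lit 0x3005) (nat_lit 88)) (.one (nat_lit 0x30040100180006008020030540)) (.one (nat_lit 0x3005010017000600a02002e540)))
def t386 : k386.all (jb2 57 fl b0) = true := by decide +kernel
noncomputable def k387 : KT := (.br (Nat.shiftLeft (nat_lit 0x3007) (nat_lit 88)) (.br (Nat.shiftLeft (nat_lit 0x1803) (nat_lit 89)) (.one (nat_lit 0x3005010018000600a020030540)) (.one (nat_lit 0x3006010017000600c02002e540))) (.br (Nat.shiftLeft (nat_lit 0x1) (nat_lit 102)) (.one (nat_lit 0x3007010017000600e02002e540)) (.br (Nat.shiftLeft (nat_lit 0x800002003) (nat_lit 67)) (.one (nat_lit 0x4000010017000800002002e311)) (.one (nat_lit 0x40000100180008000020030311)))))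
def t387 : k387.all (jb2 57 fl b0) = true := by decide +kernel
noncomputable def k388 : KT := (.br (Nat.shiftLeft (nat_lit 0x800a02003) (nat_lit 67)) (.one (nat_lit 0x4005010017000800a02002e540)) (.br (Nat.shiftLeft (nat_lit 0x2003) (nat_lit 89)) (.one (nat_lit 0x4005010018000800a020030540)) (.one (nat_lit 0x4006010017000800c02002e540))))
def t388 : k388.all (jb2 57 fl b0) = true := by decide +kernel
noncomputable def k389 : KT := (.br (Nat.shiftLeft (nat_lit 0xd) (nat_lit 100)) (.br (Nat.shiftLeft (nat_lit 0x1) (nat_lit 103)) (.br (Nat.shiftLeft (nat_lit 0x3) (nat_lit 101)) (.br (Nat.shiftLeft (nat_lit 0xa00002003) (nat_lit 67)) (.br (Nat.shiftLeft (nat_lit 0x5) (nat_lit 100)) (.one (nat_lit 0x4007010017000800e02002e540)) (.one (nat_lit 0x5000010017000a00002002e311))) (.br (Nat.shiftLeft (nat_lit 0x1401) (nat_lit 90)) (.one (nat_lit 0x5000010018000a000020030311)) (.br (Nat.shiftLeft (nat_lit 0x5007) (nat_lit 88)) (.one (nat_lit 0x5006010017000a00c02002e540)) (.one (nat_lit 0x5007010017000a00e02002e540)))))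 (.br (Nat.shiftLeft (nat_lit 0x1801) (nat_lit 90)) (.br (Nat.shiftLeft (nat_lit 0xc00002003) (nat_lit 67)) (.one (nat_lit 0x6000010017000c00002002e311)) (.one (nat_lit 0x6000010018000c000020030311))) (.br (Nat.shiftLeft (nat_lit 0x7) (nat_lit 100)) (.one (nat_lit 0x6007010017000c00e02002e540)) (.br (Nat.shiftLeft (nat_lit 0xe00002003) (nat_lit 67)) (.one (nat_lit 0x7000010017000e00002002e311)) (.one (nat_lit 0x7000010018000e000020030311)))))) (.br (Nat.shiftLeft (nat_lit 0x1400002003) (nat_lit 67)) (.br (Nat.shiftLeft (nat_lit 0x9) (nat_lit 100)) (.br (Nat.shiftLeft (nat_lit 0x1000002003) (nat_lit 67)) (.one (nat_lit 0x8000010017001000002002e311)) (.one (nat_lit 0x80000100180010000020030311))) (.br (Nat.shiftLeft (nat_lit 0x1200002003) (nat_lit 67)) (.one (nat_lit 0x9000010017001200002002e311)) (.br (Nat.shiftLeft (nat_lit 0x5) (nat_lit 101)) (.one (nat_lit 0x90000100180012000020030311)) (.one (nat_lit 0xa000010017001400002002e311))))) (.br (Nat.shiftLeft (nat_lit 0x1600002003) (nat_lit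 67)) (.br (Nat.shiftLeft (nat_lit 0xb) (nat_lit 100)) (.one (nat_lit 0xa0000100180014000020030311)) (.one (nat_lit 0xb000010017001600002002e311))) (.br (Nat.shiftLeft (nat_lit 0x3) (nat_lit 102)) (.one (nat_lit 0xb0000100180016000020030311)) (.br (Nat.shiftLeft (nat_lit 0x1800002003) (nat_lit 67)) (.one (nat_lit 0xc000010017001800002002e311)) (.one (nat_lit 0xc0000100180018000020030311))))))) (.br (Nat.shiftLeft (nat_lit 0x200000802003) (nat_lit 67)) (.br (Nat.shiftLeft (nat_lit 0x1e00002003) (nat_lit 67)) (.br (Nat.shiftLeft (nat_lit 0x7) (nat_lit 101)) (.br (Nat.shiftLeft (nat_lit 0x1a00002003) (nat_lit 67)) (.one (nat_lit 0xd000010017001a00002002e311)) (.one (nat_lit 0xd000010018001a000020030311))) (.br (Nat.shiftLeft (nat_lit 0x1c00002003) (nat_lit 67)) (.one (nat_lit 0xe000010017001c00002002e311)) (.br (Nat.shiftLeft (nat_lit 0xf) (nat_lit 100)) (.one (nat_lit 0xe000010018001c000020030311)) (.one (nat_lit 0xf000010017001e00002002e311))))) (.br (Nat.shiftLeft (nat_lit 0x2000002003)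 (nat_lit 67)) (.br (Nat.shiftLeft (nat_lit 0x1) (nat_lit 104)) (.one (nat_lit 0xf000010018001e000020030311)) (.one (nat_lit 0x10000010017002000002002e311))) (.br (Nat.shiftLeft (nat_lit 0x1) (nat_lit 112)) (.one (nat_lit 0x100000100180020000020030311)) (.br (Nat.shiftLeft (nat_lit 0x400001) (nat_lit 90)) (.one (nat_lit 0x1000003010017200000602002e411)) (.one (nat_lit 0x1000004010017200000802002e411)))))) (.br (Nat.shiftLeft (nat_lit 0x1) (nat_lit 113)) (.br (Nat.shiftLeft (nat_lit 0x200000a02003) (nat_lit 67)) (.br (Nat.shiftLeft (nat_lit 0x1000005) (nat_lit 88)) (.one (nat_lit 0x10000040100182000008020030411)) (.one (nat_lit 0x1000005010017200000a02002e411))) (.br (Nat.shiftLeft (nat_lit 0x800003) (nat_lit 89)) (.one (nat_lit 0x1000005010018200000a020030411)) (.br (Nat.shiftLeft (nat_lit 0x1000007) (nat_lit 88)) (.one (nat_lit 0x1000006010017200000c02002e411)) (.one (nat_lit 0x1000007010017200000e02002e411))))) (.br (Nat.shiftLeft (nat_lit 0x400000802003) (nat_lit 67)) (.br (Nat.shiftLeft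 (nat_lit 0x800001) (nat_lit 90)) (.one (nat_lit 0x2000003010017400000602002e411)) (.one (nat_lit 0x2000004010017400000802002e411))) (.br (Nat.shiftLeft (nat_lit 0x2000005) (nat_lit 88)) (.one (nat_lit 0x20000040100184000008020030411)) (.br (Nat.shiftLeft (nat_lit 0x400000a02003) (nat_lit 67)) (.one (nat_lit 0x2000005010017400000a02002e411)) (.one (nat_lit 0x2000005010018400000a020030411))))))))
def t389 : k389.all (jb2 57 fl b0) = true := by decide +kernel
noncomputable def k390 : KT := (.br (Nat.shiftLeft (nat_lit 0xa00000a02003) (nat_lit 67)) (.br (Nat.shiftLeft (nat_lit 0x1000001) (nat_lit 90)) (.br (Nat.shiftLeft (nat_lit 0x3000005) (nat_lit 88)) (.br (Nat.shiftLeft (nat_lit 0x3) (nat_lit 112)) (.br (Nat.shiftLeft (nat_lit 0x2000007) (nat_lit 88)) (.one (nat_lit 0x2000006010017400000c02002e411)) (.one (nat_lit 0x2000007010017400000e02002e411))) (.br (Nat.shiftLeft (nat_lit 0xc00001) (nat_lit 90)) (.one (nat_lit 0x3000003010017600000602002e411)) (.br (Nat.shiftLeft (nat_lit 0x600000802003)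 (nat_lit 67)) (.one (nat_lit 0x3000004010017600000802002e411)) (.one (nat_lit 0x30000040100186000008020030411))))) (.br (Nat.shiftLeft (nat_lit 0x1800003) (nat_lit 89)) (.br (Nat.shiftLeft (nat_lit 0x600000a02003) (nat_lit 67)) (.one (nat_lit 0x3000005010017600000a02002e411)) (.one (nat_lit 0x3000005010018600000a020030411))) (.br (Nat.shiftLeft (nat_lit 0x3000007) (nat_lit 88)) (.one (nat_lit 0x3000006010017600000c02002e411)) (.br (Nat.shiftLeft (nat_lit 0x1) (nat_lit 114)) (.one (nat_lit 0x3000007010017600000e02002e411)) (.one (nat_lit 0x4000003010017800000602002e411)))))) (.br (Nat.shiftLeft (nat_lit 0x4000007) (nat_lit 88)) (.br (Nat.shiftLeft (nat_lit 0x4000005) (nat_lit 88)) (.br (Nat.shiftLeft (nat_lit 0x800000802003) (nat_lit 67)) (.one (nat_lit 0x4000004010017800000802002e411)) (.one (nat_lit 0x40000040100188000008020030411))) (.br (Nat.shiftLeft (nat_lit 0x800000a02003) (nat_lit 67)) (.one (nat_lit 0x4000005010017800000a02002e411)) (.br (Nat.shiftLeft (nat_lit 0x2000003)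 (nat_lit 89)) (.one (nat_lit 0x4000005010018800000a020030411)) (.one (nat_lit 0x4000006010017800000c02002e411))))) (.br (Nat.shiftLeft (nat_lit 0x1400001) (nat_lit 90)) (.br (Nat.shiftLeft (nat_lit 0x5) (nat_lit 112)) (.one (nat_lit 0x4000007010017800000e02002e411)) (.one (nat_lit 0x5000003010017a00000602002e411))) (.br (Nat.shiftLeft (nat_lit 0xa00000802003) (nat_lit 67)) (.one (nat_lit 0x5000004010017a00000802002e411)) (.br (Nat.shiftLeft (nat_lit 0x5000005) (nat_lit 88)) (.one (nat_lit 0x5000004010018a000008020030411)) (.one (nat_lit 0x5000005010017a00000a02002e411))))))) (.br (Nat.shiftLeft (nat_lit 0x7) (nat_lit 112)) (.br (Nat.shiftLeft (nat_lit 0xc00000802003) (nat_lit 67)) (.br (Nat.shiftLeft (nat_lit 0x5000007) (nat_lit 88)) (.br (Nat.shiftLeft (nat_lit 0x2800003) (nat_lit 89)) (.one (nat_lit 0x5000005010018a00000a020030411)) (.one (nat_lit 0x5000006010017a00000c02002e411))) (.br (Nat.shiftLeft (nat_lit 0x3) (nat_lit 113)) (.one (nat_lit 0x5000007010017a00000e02002e411))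 (.br (Nat.shiftLeft (nat_lit 0x1800001) (nat_lit 90)) (.one (nat_lit 0x6000003010017c00000602002e411)) (.one (nat_lit 0x6000004010017c00000802002e411))))) (.br (Nat.shiftLeft (nat_lit 0xc00000a02003) (nat_lit 67)) (.br (Nat.shiftLeft (nat_lit 0x6000005) (nat_lit 88)) (.one (nat_lit 0x6000004010018c000008020030411)) (.one (nat_lit 0x6000005010017c00000a02002e411))) (.br (Nat.shiftLeft (nat_lit 0x3000003) (nat_lit 89)) (.one (nat_lit 0x6000005010018c00000a020030411)) (.br (Nat.shiftLeft (nat_lit 0x6000007) (nat_lit 88)) (.one (nat_lit 0x6000006010017c00000c02002e411)) (.one (nat_lit 0x6000007010017c00000e02002e411)))))) (.br (Nat.shiftLeft (nat_lit 0x3800003) (nat_lit 89)) (.br (Nat.shiftLeft (nat_lit 0xe00000802003) (nat_lit 67)) (.br (Nat.shiftLeft (nat_lit 0x1c00001) (nat_lit 90)) (.one (nat_lit 0x7000003010017e00000602002e411)) (.one (nat_lit 0x7000004010017e00000802002e411))) (.br (Nat.shiftLeft (nat_lit 0x7000005) (nat_lit 88)) (.one (nat_lit 0x7000004010018e000008020030411))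 (.br (Nat.shiftLeft (nat_lit 0xe00000a02003) (nat_lit 67)) (.one (nat_lit 0x7000005010017e00000a02002e411)) (.one (nat_lit 0x7000005010018e00000a020030411))))) (.br (Nat.shiftLeft (nat_lit 0x1) (nat_lit 115)) (.br (Nat.shiftLeft (nat_lit 0x7000007) (nat_lit 88)) (.one (nat_lit 0x7000006010017e00000c02002e411)) (.one (nat_lit 0x7000007010017e00000e02002e411))) (.br (Nat.shiftLeft (nat_lit 0x2000001) (nat_lit 90)) (.one (nat_lit 0x80000030100170000006020130411)) (.br (Nat.shiftLeft (nat_lit 0x1000000802003) (nat_lit 67)) (.one (nat_lit 0x80000040100170000008020130411)) (.one (nat_lit 0x80000040100180000008020132411))))))))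
def t390 : k390.all (jb2 57 fl b0) = true := by decide +kernel
noncomputable def k391 : KT := (.br (Nat.shiftLeft (nat_lit 0x2c00001) (nat_lit 90)) (.br (Nat.shiftLeft (nat_lit 0x4800003) (nat_lit 89)) (.br (Nat.shiftLeft (nat_lit 0x9) (nat_lit 112)) (.br (Nat.shiftLeft (nat_lit 0x4000003) (nat_lit 89)) (.br (Nat.shiftLeft (nat_lit 0x1000000a02003) (nat_lit 67)) (.one (nat_lit 0x8000005010017000000a020130411)) (.one (nat_lit 0x8000005010018000000a020132411))) (.br (Nat.shiftLeft (nat_lit 0x8000007) (nat_lit 88)) (.one (nat_lit 0x8000006010017000000c020130411)) (.one (nat_lit 0x8000007010017000000e020130411)))) (.br (Nat.shiftLeft (nat_lit 0x1200000802003) (nat_lit 67)) (.br (Nat.shiftLeft (nat_lit 0x2400001) (nat_lit 90)) (.one (nat_lit 0x90000030100172000006020130411)) (.one (nat_lit 0x90000040100172000008020130411))) (.br (Nat.shiftLeft (nat_lit 0x9000005) (nat_lit 88)) (.one (nat_lit 0x90000040100182000008020132411)) (.br (Nat.shiftLeft (nat_lit 0x1200000a02003) (nat_lit 67))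 (.one (nat_lit 0x9000005010017200000a020130411)) (.one (nat_lit 0x9000005010018200000a020132411)))))) (.br (Nat.shiftLeft (nat_lit 0xa000005) (nat_lit 88)) (.br (Nat.shiftLeft (nat_lit 0x5) (nat_lit 113)) (.br (Nat.shiftLeft (nat_lit 0x9000007) (nat_lit 88)) (.one (nat_lit 0x9000006010017200000c020130411)) (.one (nat_lit 0x9000007010017200000e020130411))) (.br (Nat.shiftLeft (nat_lit 0x2800001) (nat_lit 90)) (.one (nat_lit 0xa0000030100174000006020130411)) (.br (Nat.shiftLeft (nat_lit 0x1400000802003) (nat_lit 67)) (.one (nat_lit 0xa0000040100174000008020130411)) (.one (nat_lit 0xa0000040100184000008020132411))))) (.br (Nat.shiftLeft (nat_lit 0x5000003) (nat_lit 89)) (.br (Nat.shiftLeft (nat_lit 0x1400000a02003) (nat_lit 67)) (.one (nat_lit 0xa000005010017400000a020130411)) (.one (nat_lit 0xa000005010018400000a020132411))) (.br (Nat.shiftLeft (nat_lit 0xa000007) (nat_lit 88)) (.one (nat_lit 0xa000006010017400000c020130411)) (.br (Nat.shiftLeft (nat_lit 0xb) (nat_lit 112)) (.one (nat_lit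 0xa000007010017400000e020130411)) (.one (nat_lit 0xb0000030100176000006020130411))))))) (.br (Nat.shiftLeft (nat_lit 0xc000005) (nat_lit 88)) (.br (Nat.shiftLeft (nat_lit 0x5800003) (nat_lit 89)) (.br (Nat.shiftLeft (nat_lit 0xb000005) (nat_lit 88)) (.br (Nat.shiftLeft (nat_lit 0x1600000802003) (nat_lit 67)) (.one (nat_lit 0xb0000040100176000008020130411)) (.one (nat_lit 0xb0000040100186000008020132411))) (.br (Nat.shiftLeft (nat_lit 0x1600000a02003) (nat_lit 67)) (.one (nat_lit 0xb000005010017600000a020130411)) (.one (nat_lit 0xb000005010018600000a020132411)))) (.br (Nat.shiftLeft (nat_lit 0x3) (nat_lit 114)) (.br (Nat.shiftLeft (nat_lit 0xb000007) (nat_lit 88)) (.one (nat_lit 0xb000006010017600000c020130411)) (.one (nat_lit 0xb000007010017600000e020130411))) (.br (Nat.shiftLeft (nat_lit 0x3000001) (nat_lit 90)) (.one (nat_lit 0xc0000030100178000006020130411)) (.br (Nat.shiftLeft (nat_lit 0x1800000802003) (nat_lit 67)) (.one (nat_lit 0xc0000040100178000008020130411)) (.one (nat_lit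 0xc0000040100188000008020132411)))))) (.br (Nat.shiftLeft (nat_lit 0x1a00000802003) (nat_lit 67)) (.br (Nat.shiftLeft (nat_lit 0x6000003) (nat_lit 89)) (.br (Nat.shiftLeft (nat_lit 0x1800000a02003) (nat_lit 67)) (.one (nat_lit 0xc000005010017800000a020130411)) (.one (nat_lit 0xc000005010018800000a020132411))) (.br (Nat.shiftLeft (nat_lit 0xd) (nat_lit 112)) (.one (nat_lit 0xc000006010017800000c020130411)) (.br (Nat.shiftLeft (nat_lit 0x3400001) (nat_lit 90)) (.one (nat_lit 0xd000003010017a000006020130411)) (.one (nat_lit 0xd000004010017a000008020130411))))) (.br (Nat.shiftLeft (nat_lit 0x7) (nat_lit 113)) (.br (Nat.shiftLeft (nat_lit 0xd000005) (nat_lit 88)) (.one (nat_lit 0xd000004010018a000008020132411)) (.one (nat_lit 0xd000005010017a00000a020130411))) (.br (Nat.shiftLeft (nat_lit 0x3800001) (nat_lit 90)) (.one (nat_lit 0xe000003010017c000006020130411)) (.br (Nat.shiftLeft (nat_lit 0xf) (nat_lit 112)) (.one (nat_lit 0xe000004010017c000008020130411)) (.one (nat_lit 0xf000003010017e000006020130411))))))))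
def t391 : k391.all (jb2 57 fl b0) = true := by decide +kernel
noncomputable def s19 : KT := (.br (nat_lit 0x20000100180004000020030311) (.br (nat_lit 0x8010017000001002002e430) (.br (nat_lit 0x6010017000000c02002f400) (.br (nat_lit 0x3010017000000602002f400) k372 k373) (.br (nat_lit 0x7010017000000e02002f400) k374 (.br (nat_lit 0x7010018000000e020030430) k375 k376))) (.br (nat_lit 0xa0100180000014020030430) (.br (nat_lit 0x9010017000001202002e430) k377 k378) (.br (nat_lit 0x10000100180002000020030311) k379 (.br (nat_lit 0x10040100180002008020030540) k380 k381)))) (.br (nat_lit 0x3005010017000600a02002e540) (.br (nat_lit 0x20040100180004008020030540) (.br (nat_lit 0x2003010017000400602002e540) k382 k383) (.br (nat_lit 0x2006010017000400c02002e540) k384 (.br (nat_lit 0x3004010017000600802002e540) k385 k386))) (.br (nat_lit 0x4006010017000800c02002e540) (.br (nat_lit 0x40000100180008000020030311) k387 k388) (.br (nat_lit 0x2000005010018400000a020030411) k389 (.br (nat_lit 0x80000040100180000008020132411)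 k390 k391)))))
noncomputable def u19 : KT := (.br (Nat.shiftLeft (nat_lit 0x2003) (nat_lit 67)) (.one (nat_lit 0x10017000000002002e320)) (.one (nat_lit 0x100180000000020030320)))
def w19 : u19.all (wj 57 s19) = true := by decide +kernel
def o19 : OkW 57 (jb2 57 fl) u19 := .lift s19 _ (.br _ _ _ (.br _ _ _ (.br _ _ _ (.br _ _ _ (.leaf b0 k372 t372) (.leaf b0 k373 t373)) (.br _ _ _ (.leaf b0 k374 t374) (.br _ _ _ (.leaf b0 k375 t375) (.leaf b0 k376 t376)))) (.br _ _ _ (.br _ _ _ (.leaf b0 k377 t377) (.leaf b0 k378 t378)) (.br _ _ _ (.leaf b0 k379 t379) (.br _ _ _ (.leaf b0 k380 t380) (.leaf b0 k381 t381))))) (.br _ _ _ (.br _ _ _ (.br _ _ _ (.leaf b0 k382 t382) (.leaf b0 k383 t383)) (.br _ _ _ (.leaf b0 k384 t384) (.br _ _ _ (.leaf b0 k385 t385) (.leaf b0 k386 t386)))) (.br _ _ _ (.br _ _ _ (.leaf b0 k387 t387) (.leaf b0 k388 t388)) (.br _ _ _ (.leaf b0 k389 t389) (.br _ _ _ (.leaf b0 k390 t390) (.leaf b0 k391 t391)))))) w19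
noncomputable def k : KT := (.br (nat_lit 0xe017000000001c02e320) (.br (nat_lit 0xd017000000001a02f300) (.br (nat_lit 0xc0190000000018032320) (.br (nat_lit 0xc0180000000018031300) u0 u1) (.br (nat_lit 0xc01a0000000018034320) u2 (.br (nat_lit 0xc01d000000001803a320) u3 u4))) (.br (nat_lit 0xd019000000001a032320) (.br (nat_lit 0xd018000000001a030320) u5 u6) (.br (nat_lit 0xd01c000000001a038320) u7 (.br (nat_lit 0xe016000000001c02d300) u8 u9)))) (.br (nat_lit 0xf017000000001e02e320) (.br (nat_lit 0xe01a000000001c034320) (.br (nat_lit 0xe018000000001c030320) u10 u11) (.br (nat_lit 0xf015000000001e02b300) u12 (.br (nat_lit 0xf016000000001e02c320) u13 u14))) (.br (nat_lit 0x100140000000020029300) (.br (nat_lit 0xf019000000001e032320) u15 u16) (.br (nat_lit 0x10015000000002002a320) u17 (.br (nat_lit 0x10016000000002002c320) u18 u19)))))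
theorem ok : OkW 57 (jb2 57 fl) k := (.br _ _ _ (.br _ _ _ (.br _ _ _ (.br _ _ _ o0 o1) (.br _ _ _ o2 (.br _ _ _ o3 o4))) (.br _ _ _ (.br _ _ _ o5 o6) (.br _ _ _ o7 (.br _ _ _ o8 o9)))) (.br _ _ _ (.br _ _ _ (.br _ _ _ o10 o11) (.br _ _ _ o12 (.br _ _ _ o13 o14))) (.br _ _ _ (.br _ _ _ o15 o16) (.br _ _ _ o17 (.br _ _ _ o18 o19)))))

end Pool.Agent.Lib.MP_ed43e6_ag.Q.Y57.R2
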