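import Pool.Agent.Lib.MP_ed43e6_ag.Y57.Fl

namespace Pool.Agent.Lib.MP_ed43e6_ag.Q.Y57.R3

set_option linter.defProp false

noncomputable def b0 : BT := .node (nat_lit 1) (nat_lit 0) .leaf .leaf
noncomputable def k0 : KT := (.br (Nat.shiftLeft (nat_lit 0x4007) (nat_lit 66)) (.br (Nat.shiftLeft (nat_lit 0x800d) (nat_lit 65)) (.one (nat_lit 0x100190000000020033300)) (.br (Nat.shiftLeft (nat_lit 0x1001b) (nat_lit 64)) (.one (nat_lit 0x1001a0000000020035300)) (.one (nat_lit 0x1001b0000000020037300)))) (.br (Nat.shiftLeft (nat_lit 0x1001d) (nat_lit 64)) (.one (nat_lit 0x1001c0000000020039300)) (.br (Nat.shiftLeft (nat_lit 0x800f) (nat_lit 65)) (.one (nat_lit 0x1001d000000002003b300)) (.one (nat_lit 0x1001e000000002003c320)))))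
def t0 : k0.all (jb2 57 fl b0) = true := by decide +kernel
noncomputable def k1 : KT := (.br (Nat.shiftLeft (nat_lit 0x801) (nat_lit 69)) (.one (nat_lit 0x1001f000000002003e320)) (.one (nat_lit 0x100200000000020040320)))
def t1 : k1.all (jb2 57 fl b0) = true := by decide +kernel
noncomputable def k2 : KT := (.br (Nat.shiftLeft (nat_lit 0x80800d) (nat_lit 65)) (.br (Nat.shiftLeft (nat_lit 0x11013) (nat_lit 64)) (.br (Nat.shiftLeft (nat_lit 0x11) (nat_lit 76)) (.one (nat_lit 0x100210000000020042320)) (.one (nat_lit 0x110120000000022025300))) (.br (Nat.shiftLeft (nat_lit 0x1) (nat_lit 88)) (.one (nat_lit 0x110130000000022027300)) (.one (nat_lit 0x10100190000002020032430)))) (.br (Nat.shiftLeft (nat_lit 0x404007) (nat_lit 66)) (.br (Nat.shiftLeft (nat_lit 0x101001b) (nat_lit 64)) (.one (nat_lit 0x101001a0000002020034430)) (.one (nat_lit 0x101001b0000002020036430))) (.br (Nat.shiftLeft (nat_lit 0x101001d) (nat_lit 64)) (.one (nat_lit 0x101001c0000002020038430)) (.br (Nat.shiftLeft (nat_lit 0x1) (nat_lit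 89)) (.one (nat_lit 0x101001d000000202003a430)) (.one (nat_lit 0x20100190000004020032430))))))
def t2 : k2.all (jb2 57 fl b0) = true := by decide +kernel
noncomputable def k3 : KT := (.br (Nat.shiftLeft (nat_lit 0x804007) (nat_lit 66)) (.br (Nat.shiftLeft (nat_lit 0x201001b) (nat_lit 64)) (.one (nat_lit 0x201001a0000004020034430)) (.one (nat_lit 0x201001b0000004020036430))) (.br (Nat.shiftLeft (nat_lit 0x201001d) (nat_lit 64)) (.one (nat_lit 0x201001c0000004020038430)) (.one (nat_lit 0x201001d000000402003a430))))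
def t3 : k3.all (jb2 57 fl b0) = true := by decide +kernel
noncomputable def k4 : KT := (.one (nat_lit 0x30100190000006020032430))
def t4 : k4.all (jb2 57 fl b0) = true := by decide +kernel
noncomputable def k5 : KT := (.one (nat_lit 0x301001a0000006020034430))
def t5 : k5.all (jb2 57 fl b0) = true := by decide +kernel
noncomputable def k6 : KT := (.br (Nat.shiftLeft (nat_lit 0xc04007) (nat_lit 66)) (.one (nat_lit 0x301001b0000006020036430)) (.one (nat_lit 0x301001c0000006020038430)))
def t6 : k6.all (jb2 57 fl b0) = true := by decide +kernel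
noncomputable def k7 : KT := (.one (nat_lit 0x301001d000000602003a430))
def t7 : k7.all (jb2 57 fl b0) = true := by decide +kernel
noncomputable def k8 : KT := (.one (nat_lit 0x40100190000008020032430))
def t8 : k8.all (jb2 57 fl b0) = true := by decide +kernel
noncomputable def k9 : KT := (.one (nat_lit 0x401001a0000008020034430))
def t9 : k9.all (jb2 57 fl b0) = true := by decide +kernel
noncomputable def k10 : KT := (.br (Nat.shiftLeft (nat_lit 0x1004007) (nat_lit 66)) (.one (nat_lit 0x401001b0000008020036430)) (.one (nat_lit 0x401001c0000008020038430)))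
def t10 : k10.all (jb2 57 fl b0) = true := by decide +kernel
noncomputable def k11 : KT := (.one (nat_lit 0x401001d000000802003a430))
def t11 : k11.all (jb2 57 fl b0) = true := by decide +kernel
noncomputable def k12 : KT := (.one (nat_lit 0x5010019000000a020032430))
def t12 : k12.all (jb2 57 fl b0) = true := by decide +kernel
noncomputable def k13 : KT := (.br (Nat.shiftLeft (nat_lit 0x501001b) (nat_lit 64)) (.one (nat_lit 0x501001a000000a020034430)) (.one (nat_lit 0x501001b000000a020036430)))
def t13 : k13.all (jb2 57 fl b0) = true := by decide +kernel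
noncomputable def k14 : KT := (.br (Nat.shiftLeft (nat_lit 0x501001d) (nat_lit 64)) (.one (nat_lit 0x501001c000000a020038430)) (.one (nat_lit 0x501001d000000a02003a430)))
def t14 : k14.all (jb2 57 fl b0) = true := by decide +kernel
noncomputable def k15 : KT := (.one (nat_lit 0x6010019000000c020032430))
def t15 : k15.all (jb2 57 fl b0) = true := by decide +kernel
noncomputable def k16 : KT := (.br (Nat.shiftLeft (nat_lit 0x601001b) (nat_lit 64)) (.one (nat_lit 0x601001a000000c020034430)) (.br (Nat.shiftLeft (nat_lit 0x1804007) (nat_lit 66)) (.one (nat_lit 0x601001b000000c020036430)) (.one (nat_lit 0x601001c000000c020038430))))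
def t16 : k16.all (jb2 57 fl b0) = true := by decide +kernel
noncomputable def k17 : KT := (.br (Nat.shiftLeft (nat_lit 0x7) (nat_lit 88)) (.one (nat_lit 0x601001d000000c02003a430)) (.br (Nat.shiftLeft (nat_lit 0x380800d) (nat_lit 65)) (.one (nat_lit 0x7010019000000e020032430)) (.one (nat_lit 0x701001a000000e020034430))))
def t17 : k17.all (jb2 57 fl b0) = true := by decide +kernel
noncomputable def k18 : KT := (.br (Nat.shiftLeft (nat_lit 0x701001d) (nat_lit 64)) (.br (Nat.shiftLeft (nat_lit 0x1c04007) (nat_lit 66)) (.one (nat_lit 0x701001b000000e020036430)) (.one (nat_lit 0x701001c000000e020038430))) (.br (Nat.shiftLeft (nat_lit 0x1) (nat_lit 91)) (.one (nat_lit 0x701001d000000e02003a430)) (.br (Nat.shiftLeft (nat_lit 0x400800d) (nat_lit 65)) (.one (nat_lit 0x80100190000010020032430)) (.one (nat_lit 0x801001a0000010020034430)))))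
def t18 : k18.all (jb2 57 fl b0) = true := by decide +kernel
noncomputable def k19 : KT := (.br (Nat.shiftLeft (nat_lit 0x2404007) (nat_lit 66)) (.br (Nat.shiftLeft (nat_lit 0x9) (nat_lit 88)) (.br (Nat.shiftLeft (nat_lit 0x2004007) (nat_lit 66)) (.one (nat_lit 0x801001b0000010020036430)) (.br (Nat.shiftLeft (nat_lit 0x801001d) (nat_lit 64)) (.one (nat_lit 0x801001c0000010020038430)) (.one (nat_lit 0x801001d000001002003a430)))) (.br (Nat.shiftLeft (nat_lit 0x480800d) (nat_lit 65)) (.one (nat_lit 0x90100190000012020032430)) (.br (Nat.shiftLeft (nat_lit 0x901001b) (nat_lit 64)) (.one (nat_lit 0x901001a0000012020034430)) (.one (nat_lit 0x901001b0000012020036430))))) (.br (Nat.shiftLeft (nat_lit 0x500800d) (nat_lit 65)) (.br (Nat.shiftLeft (nat_lit 0x901001d) (nat_lit 64)) (.one (nat_lit 0x901001c0000012020038430)) (.br (Nat.shiftLeft (nat_lit 0x5) (nat_lit 89)) (.one (nat_lit 0x901001d000001202003a430)) (.one (nat_lit 0xa0100190000014020032430)))) (.br (Nat.shiftLeft (nat_lit 0x2804007) (nat_lit 66))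 (.br (Nat.shiftLeft (nat_lit 0xa01001b) (nat_lit 64)) (.one (nat_lit 0xa01001a0000014020034430)) (.one (nat_lit 0xa01001b0000014020036430))) (.br (Nat.shiftLeft (nat_lit 0xa01001d) (nat_lit 64)) (.one (nat_lit 0xa01001c0000014020038430)) (.one (nat_lit 0xa01001d000001402003a430))))))
def t19 : k19.all (jb2 57 fl b0) = true := by decide +kernel
noncomputable def k20 : KT := (.br (Nat.shiftLeft (nat_lit 0x80000800d) (nat_lit 65)) (.br (Nat.shiftLeft (nat_lit 0xd) (nat_lit 88)) (.br (Nat.shiftLeft (nat_lit 0x3) (nat_lit 90)) (.br (Nat.shiftLeft (nat_lit 0xb01001b) (nat_lit 64)) (.br (Nat.shiftLeft (nat_lit 0x580800d) (nat_lit 65)) (.one (nat_lit 0xb0100190000016020032430)) (.one (nat_lit 0xb01001a0000016020034430))) (.br (Nat.shiftLeft (nat_lit 0x2c04007) (nat_lit 66)) (.one (nat_lit 0xb01001b0000016020036430)) (.br (Nat.shiftLeft (nat_lit 0xb01001d) (nat_lit 64)) (.one (nat_lit 0xb01001c0000016020038430)) (.one (nat_lit 0xb01001d000001602003a430))))) (.br (Nat.shiftLeft (nat_lit 0xc01001b) (nat_lit 64))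 (.br (Nat.shiftLeft (nat_lit 0x600800d) (nat_lit 65)) (.one (nat_lit 0xc0100190000018020032430)) (.one (nat_lit 0xc01001a0000018020034430))) (.br (Nat.shiftLeft (nat_lit 0x3004007) (nat_lit 66)) (.one (nat_lit 0xc01001b0000018020036430)) (.br (Nat.shiftLeft (nat_lit 0xc01001d) (nat_lit 64)) (.one (nat_lit 0xc01001c0000018020038430)) (.one (nat_lit 0xc01001d000001802003a430)))))) (.br (Nat.shiftLeft (nat_lit 0x700800d) (nat_lit 65)) (.br (Nat.shiftLeft (nat_lit 0xd01001b) (nat_lit 64)) (.br (Nat.shiftLeft (nat_lit 0x680800d) (nat_lit 65)) (.one (nat_lit 0xd010019000001a020032430)) (.one (nat_lit 0xd01001a000001a020034430))) (.br (Nat.shiftLeft (nat_lit 0x3404007) (nat_lit 66)) (.one (nat_lit 0xd01001b000001a020036430)) (.br (Nat.shiftLeft (nat_lit 0x7) (nat_lit 89)) (.one (nat_lit 0xd01001c000001a020038430)) (.one (nat_lit 0xe010019000001c020032430))))) (.br (Nat.shiftLeft (nat_lit 0xf) (nat_lit 88)) (.br (Nat.shiftLeft (nat_lit 0xe01001b) (nat_lit 64)) (.one (nat_lit 0xe01001a000001c020034430)) (.one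 (nat_lit 0xe01001b000001c020036430))) (.br (Nat.shiftLeft (nat_lit 0x780800d) (nat_lit 65)) (.one (nat_lit 0xf010019000001e020032430)) (.br (Nat.shiftLeft (nat_lit 0x1) (nat_lit 100)) (.one (nat_lit 0xf01001a000001e020034430)) (.one (nat_lit 0x10000100190002000020032311))))))) (.br (Nat.shiftLeft (nat_lit 0x180000800d) (nat_lit 65)) (.br (Nat.shiftLeft (nat_lit 0x100000800d) (nat_lit 65)) (.br (Nat.shiftLeft (nat_lit 0x400004007) (nat_lit 66)) (.br (Nat.shiftLeft (nat_lit 0x100001001b) (nat_lit 64)) (.one (nat_lit 0x100001001a0002000020034311)) (.one (nat_lit 0x100001001b0002000020036311))) (.br (Nat.shiftLeft (nat_lit 0x100001001d) (nat_lit 64)) (.one (nat_lit 0x100001001c0002000020038311)) (.br (Nat.shiftLeft (nat_lit 0x1) (nat_lit 101)) (.one (nat_lit 0x100001001d000200002003a311)) (.one (nat_lit 0x20000100190004000020032311))))) (.br (Nat.shiftLeft (nat_lit 0x800004007) (nat_lit 66)) (.br (Nat.shiftLeft (nat_lit 0x200001001b) (nat_lit 64)) (.one (nat_lit 0x200001001a0004000020034311)) (.one (nat_lit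 0x200001001b0004000020036311))) (.br (Nat.shiftLeft (nat_lit 0x200001001d) (nat_lit 64)) (.one (nat_lit 0x200001001c0004000020038311)) (.br (Nat.shiftLeft (nat_lit 0x3) (nat_lit 100)) (.one (nat_lit 0x200001001d000400002003a311)) (.one (nat_lit 0x30000100190006000020032311)))))) (.br (Nat.shiftLeft (nat_lit 0x200000800d) (nat_lit 65)) (.br (Nat.shiftLeft (nat_lit 0xc00004007) (nat_lit 66)) (.br (Nat.shiftLeft (nat_lit 0x300001001b) (nat_lit 64)) (.one (nat_lit 0x300001001a0006000020034311)) (.one (nat_lit 0x300001001b0006000020036311))) (.br (Nat.shiftLeft (nat_lit 0x300001001d) (nat_lit 64)) (.one (nat_lit 0x300001001c0006000020038311)) (.br (Nat.shiftLeft (nat_lit 0x1) (nat_lit 102)) (.one (nat_lit 0x300001001d000600002003a311)) (.one (nat_lit 0x40000100190008000020032311))))) (.br (Nat.shiftLeft (nat_lit 0x1000004007) (nat_lit 66)) (.br (Nat.shiftLeft (nat_lit 0x400001001b) (nat_lit 64)) (.one (nat_lit 0x400001001a0008000020034311)) (.one (nat_lit 0x400001001b0008000020036311))) (.br (Nat.shiftLeft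 (nat_lit 0x400001001d) (nat_lit 64)) (.one (nat_lit 0x400001001c0008000020038311)) (.br (Nat.shiftLeft (nat_lit 0x5) (nat_lit 100)) (.one (nat_lit 0x400001001d000800002003a311)) (.one (nat_lit 0x5000010019000a000020032311))))))))
def t20 : k20.all (jb2 57 fl b0) = true := by decide +kernel
noncomputable def k21 : KT := (.br (Nat.shiftLeft (nat_lit 0x480000800d) (nat_lit 65)) (.br (Nat.shiftLeft (nat_lit 0x380000800d) (nat_lit 65)) (.br (Nat.shiftLeft (nat_lit 0x300000800d) (nat_lit 65)) (.br (Nat.shiftLeft (nat_lit 0x1400004007) (nat_lit 66)) (.br (Nat.shiftLeft (nat_lit 0x500001001b) (nat_lit 64)) (.one (nat_lit 0x500001001a000a000020034311)) (.one (nat_lit 0x500001001b000a000020036311))) (.br (Nat.shiftLeft (nat_lit 0x500001001d) (nat_lit 64)) (.one (nat_lit 0x500001001c000a000020038311)) (.br (Nat.shiftLeft (nat_lit 0x3) (nat_lit 101)) (.one (nat_lit 0x500001001d000a00002003a311)) (.one (nat_lit 0x6000010019000c000020032311))))) (.br (Nat.shiftLeft (nat_lit 0x1800004007) (nat_lit 66)) (.br (Nat.shiftLeft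 (nat_lit 0x600001001b) (nat_lit 64)) (.one (nat_lit 0x600001001a000c000020034311)) (.one (nat_lit 0x600001001b000c000020036311))) (.br (Nat.shiftLeft (nat_lit 0x600001001d) (nat_lit 64)) (.one (nat_lit 0x600001001c000c000020038311)) (.br (Nat.shiftLeft (nat_lit 0x7) (nat_lit 100)) (.one (nat_lit 0x600001001d000c00002003a311)) (.one (nat_lit 0x7000010019000e000020032311)))))) (.br (Nat.shiftLeft (nat_lit 0x400000800d) (nat_lit 65)) (.br (Nat.shiftLeft (nat_lit 0x1c00004007) (nat_lit 66)) (.br (Nat.shiftLeft (nat_lit 0x700001001b) (nat_lit 64)) (.one (nat_lit 0x700001001a000e000020034311)) (.one (nat_lit 0x700001001b000e000020036311))) (.br (Nat.shiftLeft (nat_lit 0x700001001d) (nat_lit 64)) (.one (nat_lit 0x700001001c000e000020038311)) (.br (Nat.shiftLeft (nat_lit 0x1) (nat_lit 103)) (.one (nat_lit 0x700001001d000e00002003a311)) (.one (nat_lit 0x80000100190010000020032311))))) (.br (Nat.shiftLeft (nat_lit 0x2000004007) (nat_lit 66)) (.br (Nat.shiftLeft (nat_lit 0x800001001b) (nat_lit 64)) (.one (nat_lit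 0x800001001a0010000020034311)) (.one (nat_lit 0x800001001b0010000020036311))) (.br (Nat.shiftLeft (nat_lit 0x800001001d) (nat_lit 64)) (.one (nat_lit 0x800001001c0010000020038311)) (.br (Nat.shiftLeft (nat_lit 0x9) (nat_lit 100)) (.one (nat_lit 0x800001001d001000002003a311)) (.one (nat_lit 0x90000100190012000020032311))))))) (.br (Nat.shiftLeft (nat_lit 0x580000800d) (nat_lit 65)) (.br (Nat.shiftLeft (nat_lit 0x500000800d) (nat_lit 65)) (.br (Nat.shiftLeft (nat_lit 0x2400004007) (nat_lit 66)) (.br (Nat.shiftLeft (nat_lit 0x900001001b) (nat_lit 64)) (.one (nat_lit 0x900001001a0012000020034311)) (.one (nat_lit 0x900001001b0012000020036311))) (.br (Nat.shiftLeft (nat_lit 0x900001001d) (nat_lit 64)) (.one (nat_lit 0x900001001c0012000020038311)) (.br (Nat.shiftLeft (nat_lit 0x5) (nat_lit 101)) (.one (nat_lit 0x900001001d001200002003a311)) (.one (nat_lit 0xa0000100190014000020032311))))) (.br (Nat.shiftLeft (nat_lit 0x2800004007) (nat_lit 66)) (.br (Nat.shiftLeft (nat_lit 0xa00001001b) (nat_lit 64)) (.one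 (nat_lit 0xa00001001a0014000020034311)) (.one (nat_lit 0xa00001001b0014000020036311))) (.br (Nat.shiftLeft (nat_lit 0xa00001001d) (nat_lit 64)) (.one (nat_lit 0xa00001001c0014000020038311)) (.br (Nat.shiftLeft (nat_lit 0xb) (nat_lit 100)) (.one (nat_lit 0xa00001001d001400002003a311)) (.one (nat_lit 0xb0000100190016000020032311)))))) (.br (Nat.shiftLeft (nat_lit 0x600000800d) (nat_lit 65)) (.br (Nat.shiftLeft (nat_lit 0x2c00004007) (nat_lit 66)) (.br (Nat.shiftLeft (nat_lit 0xb00001001b) (nat_lit 64)) (.one (nat_lit 0xb00001001a0016000020034311)) (.one (nat_lit 0xb00001001b0016000020036311))) (.br (Nat.shiftLeft (nat_lit 0xb00001001d) (nat_lit 64)) (.one (nat_lit 0xb00001001c0016000020038311)) (.br (Nat.shiftLeft (nat_lit 0x3) (nat_lit 102)) (.one (nat_lit 0xb00001001d001600002003a311)) (.one (nat_lit 0xc0000100190018000020032311))))) (.br (Nat.shiftLeft (nat_lit 0x3000004007) (nat_lit 66)) (.br (Nat.shiftLeft (nat_lit 0xc00001001b) (nat_lit 64)) (.one (nat_lit 0xc00001001a0018000020034311)) (.one (nat_lit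 0xc00001001b0018000020036311))) (.br (Nat.shiftLeft (nat_lit 0xc00001001d) (nat_lit 64)) (.one (nat_lit 0xc00001001c0018000020038311)) (.br (Nat.shiftLeft (nat_lit 0xd) (nat_lit 100)) (.one (nat_lit 0xc00001001d001800002003a311)) (.one (nat_lit 0xd000010019001a000020032311))))))))
def t21 : k21.all (jb2 57 fl b0) = true := by decide +kernel
noncomputable def k22 : KT := (.br (Nat.shiftLeft (nat_lit 0x700000800d) (nat_lit 65)) (.br (Nat.shiftLeft (nat_lit 0x3400004007) (nat_lit 66)) (.br (Nat.shiftLeft (nat_lit 0xd00001001b) (nat_lit 64)) (.one (nat_lit 0xd00001001a001a000020034311)) (.one (nat_lit 0xd00001001b001a000020036311))) (.br (Nat.shiftLeft (nat_lit 0x7) (nat_lit 101)) (.one (nat_lit 0xd00001001c001a000020038311)) (.one (nat_lit 0xe000010019001c000020032311)))) (.br (Nat.shiftLeft (nat_lit 0xf) (nat_lit 100)) (.br (Nat.shiftLeft (nat_lit 0xe00001001b) (nat_lit 64)) (.one (nat_lit 0xe00001001a001c000020034311)) (.one (nat_lit 0xe00001001b001c000020036311))) (.br (Nat.shiftLeft (nat_lit 0x780000800d)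 (nat_lit 65)) (.one (nat_lit 0xf000010019001e000020032311)) (.br (Nat.shiftLeft (nat_lit 0x1) (nat_lit 104)) (.one (nat_lit 0xf00001001a001e000020034311)) (.one (nat_lit 0x100000100190020000020032311))))))
def t22 : k22.all (jb2 57 fl b0) = true := by decide +kernel
noncomputable def s0 : KT := (.br (nat_lit 0x401001c0000008020038430) (.br (nat_lit 0x30100190000006020032430) (.br (nat_lit 0x100200000000020040320) (.br (nat_lit 0x1001e000000002003c320) k0 k1) (.br (nat_lit 0x20100190000004020032430) k2 (.br (nat_lit 0x201001d000000402003a430) k3 k4))) (.br (nat_lit 0x301001d000000602003a430) (.br (nat_lit 0x301001a0000006020034430) k5 (.br (nat_lit 0x301001c0000006020038430) k6 k7)) (.br (nat_lit 0x40100190000008020032430) k8 (.br (nat_lit 0x401001a0000008020034430) k9 k10)))) (.br (nat_lit 0x601001c000000c020038430) (.br (nat_lit 0x501001b000000a020036430) (.br (nat_lit 0x401001d000000802003a430) k11 (.br (nat_lit 0x5010019000000a020032430) k12 k13)) (.br (nat_lit 0x501001d000000a02003a430) k14 (.br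 (nat_lit 0x6010019000000c020032430) k15 k16))) (.br (nat_lit 0xa01001d000001402003a430) (.br (nat_lit 0x701001a000000e020034430) k17 (.br (nat_lit 0x801001a0000010020034430) k18 k19)) (.br (nat_lit 0x5000010019000a000020032311) k20 (.br (nat_lit 0xd000010019001a000020032311) k21 k22)))))
noncomputable def u0 : KT := (.br (Nat.shiftLeft (nat_lit 0x800f) (nat_lit 65)) (.br (Nat.shiftLeft (nat_lit 0x1001b) (nat_lit 64)) (.br (Nat.shiftLeft (nat_lit 0x800d) (nat_lit 65)) (.one (nat_lit 0x100190000000020032320)) (.one (nat_lit 0x1001a0000000020034320))) (.br (Nat.shiftLeft (nat_lit 0x4007) (nat_lit 66)) (.one (nat_lit 0x1001b0000000020036320)) (.br (Nat.shiftLeft (nat_lit 0x1001d) (nat_lit 64)) (.one (nat_lit 0x1001c0000000020038320)) (.one (nat_lit 0x1001d000000002003a320))))) (.br (Nat.shiftLeft (nat_lit 0x10021) (nat_lit 64)) (.br (Nat.shiftLeft (nat_lit 0x1001f) (nat_lit 64)) (.one (nat_lit 0x1001e000000002003c320)) (.br (Nat.shiftLeft (nat_lit 0x801) (nat_lit 69)) (.one (nat_lit 0x1001f000000002003e320))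 (.one (nat_lit 0x100200000000020040320)))) (.br (Nat.shiftLeft (nat_lit 0x11) (nat_lit 76)) (.one (nat_lit 0x100210000000020042320)) (.br (Nat.shiftLeft (nat_lit 0x11013) (nat_lit 64)) (.one (nat_lit 0x110120000000022025300)) (.one (nat_lit 0x110130000000022027300))))))
def w0 : u0.all (wj 57 s0) = true := by decide +kernel
def o0 : OkW 57 (jb2 57 fl) u0 := .lift s0 _ (.br _ _ _ (.br _ _ _ (.br _ _ _ (.br _ _ _ (.leaf b0 k0 t0) (.leaf b0 k1 t1)) (.br _ _ _ (.leaf b0 k2 t2) (.br _ _ _ (.leaf b0 k3 t3) (.leaf b0 k4 t4)))) (.br _ _ _ (.br _ _ _ (.leaf b0 k5 t5) (.br _ _ _ (.leaf b0 k6 t6) (.leaf b0 k7 t7))) (.br _ _ _ (.leaf b0 k8 t8) (.br _ _ _ (.leaf b0 k9 t9) (.leaf b0 k10 t10))))) (.br _ _ _ (.br _ _ _ (.br _ _ _ (.leaf b0 k11 t11) (.br _ _ _ (.leaf b0 k12 t12) (.leaf b0 k13 t13))) (.br _ _ _ (.leaf b0 k14 t14) (.br _ _ _ (.leaf b0 k15 t15) (.leaf b0 k16 t16)))) (.br _ _ _ (.br _ _ _ (.leaf b0 k17 t17) (.br _ _ _ (.leaf b0 k18 t18) (.leaf b0 k19 t19))) (.br _ _ _ (.leaf b0 k20 t20) (.br _ _ _ (.leaf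 b0 k21 t21) (.leaf b0 k22 t22)))))) w0
noncomputable def k23 : KT := (.br (Nat.shiftLeft (nat_lit 0x5) (nat_lit 88)) (.br (Nat.shiftLeft (nat_lit 0x1) (nat_lit 89)) (.br (Nat.shiftLeft (nat_lit 0x1) (nat_lit 88)) (.one (nat_lit 0x110140000000022029300)) (.one (nat_lit 0x10110140000002022028430))) (.br (Nat.shiftLeft (nat_lit 0x3) (nat_lit 88)) (.one (nat_lit 0x20110140000004022028430)) (.br (Nat.shiftLeft (nat_lit 0x1) (nat_lit 90)) (.one (nat_lit 0x30110140000006022029400)) (.one (nat_lit 0x40110140000008022029400))))) (.br (Nat.shiftLeft (nat_lit 0x7) (nat_lit 88)) (.br (Nat.shiftLeft (nat_lit 0x3) (nat_lit 89)) (.one (nat_lit 0x5011014000000a022029400)) (.one (nat_lit 0x6011014000000c022029400))) (.br (Nat.shiftLeft (nat_lit 0x1) (nat_lit 91)) (.one (nat_lit 0x7011014000000e022029400)) (.br (Nat.shiftLeft (nat_lit 0x9) (nat_lit 88)) (.one (nat_lit 0x80110140000010022029400)) (.one (nat_lit 0x90110140000012022029400))))))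
def t23 : k23.all (jb2 57 fl b0) = true := by decide +kernel
noncomputable def k24 : KT := (.one (nat_lit 0xa0110140000014022028430))
def t24 : k24.all (jb2 57 fl b0) = true := by decide +kernel
noncomputable def k25 : KT := (.br (Nat.shiftLeft (nat_lit 0x3) (nat_lit 90)) (.one (nat_lit 0xb0110140000016022028430)) (.br (Nat.shiftLeft (nat_lit 0xd) (nat_lit 88)) (.one (nat_lit 0xc0110140000018022028430)) (.one (nat_lit 0xd011014000001a022028430))))
def t25 : k25.all (jb2 57 fl b0) = true := by decide +kernel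
noncomputable def k26 : KT := (.br (Nat.shiftLeft (nat_lit 0x1) (nat_lit 92)) (.br (Nat.shiftLeft (nat_lit 0xf) (nat_lit 88)) (.one (nat_lit 0xe011014000001c022028430)) (.one (nat_lit 0xf011014000001e022028430))) (.br (Nat.shiftLeft (nat_lit 0x1) (nat_lit 100)) (.one (nat_lit 0x100110140000020022028430)) (.br (Nat.shiftLeft (nat_lit 0x801) (nat_lit 89)) (.one (nat_lit 0x10000110140002000022028311)) (.one (nat_lit 0x10030110140002006022028540)))))
def t26 : k26.all (jb2 57 fl b0) = true := by decide +kernel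
noncomputable def k27 : KT := (.br (Nat.shiftLeft (nat_lit 0x1005) (nat_lit 88)) (.one (nat_lit 0x10040110140002008022028540)) (.one (nat_lit 0x1005011014000200a022028540)))
def t27 : k27.all (jb2 57 fl b0) = true := by decide +kernel
noncomputable def k28 : KT := (.br (Nat.shiftLeft (nat_lit 0x201) (nat_lit 91)) (.br (Nat.shiftLeft (nat_lit 0x1007) (nat_lit 88)) (.one (nat_lit 0x1006011014000200c022028540)) (.one (nat_lit 0x1007011014000200e022028540))) (.br (Nat.shiftLeft (nat_lit 0x1009) (nat_lit 88)) (.one (nat_lit 0x10080110140002010022028540)) (.br (Nat.shiftLeft (nat_lit 0x1) (nat_lit 101)) (.one (nat_lit 0x10090110140002012022028540)) (.one (nat_lit 0x20000110140004000022028311)))))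
def t28 : k28.all (jb2 57 fl b0) = true := by decide +kernel
noncomputable def k29 : KT := (.one (nat_lit 0x20030110140004006022028540))
def t29 : k29.all (jb2 57 fl b0) = true := by decide +kernel
noncomputable def k30 : KT := (.one (nat_lit 0x20040110140004008022028540))
def t30 : k30.all (jb2 57 fl b0) = true := by decide +kernel
noncomputable def k31 : KT := (.one (nat_lit 0x2005011014000400a022028540))
def t31 : k31.all (jb2 57 fl b0) = true := by decide +kernel
noncomputable def k32 : KT := (.br (Nat.shiftLeft (nat_lit 0x2007) (nat_lit 88)) (.one (nat_lit 0x2006011014000400c022028540)) (.one (nat_lit 0x2007011014000400e022028540)))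
def t32 : k32.all (jb2 57 fl b0) = true := by decide +kernel
noncomputable def k33 : KT := (.br (Nat.shiftLeft (nat_lit 0x3) (nat_lit 100)) (.br (Nat.shiftLeft (nat_lit 0x2009) (nat_lit 88)) (.one (nat_lit 0x20080110140004010022028540)) (.one (nat_lit 0x20090110140004012022028540))) (.br (Nat.shiftLeft (nat_lit 0xc01) (nat_lit 90)) (.one (nat_lit 0x30000110140006000022028311)) (.one (nat_lit 0x30040110140006008022029500))))
def t33 : k33.all (jb2 57 fl b0) = true := by decide +kernel
noncomputable def k34 : KT := (.one (nat_lit 0x3005011014000600a022028540))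
def t34 : k34.all (jb2 57 fl b0) = true := by decide +kernel
noncomputable def k35 : KT := (.br (Nat.shiftLeft (nat_lit 0x3007) (nat_lit 88)) (.one (nat_lit 0x3006011014000600c022028540)) (.one (nat_lit 0x3007011014000600e022028540)))
def t35 : k35.all (jb2 57 fl b0) = true := by decide +kernel
noncomputable def k36 : KT := (.br (Nat.shiftLeft (nat_lit 0x3009) (nat_lit 88)) (.one (nat_lit 0x30080110140006010022028540)) (.br (Nat.shiftLeft (nat_lit 0x1) (nat_lit 102)) (.one (nat_lit 0x30090110140006012022028540)) (.one (nat_lit 0x40000110140008000022028311))))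
def t36 : k36.all (jb2 57 fl b0) = true := by decide +kernel
noncomputable def k37 : KT := (.one (nat_lit 0x4005011014000800a022028540))
def t37 : k37.all (jb2 57 fl b0) = true := by decide +kernel
noncomputable def k38 : KT := (.br (Nat.shiftLeft (nat_lit 0x4007) (nat_lit 88)) (.one (nat_lit 0x4006011014000800c022028540)) (.one (nat_lit 0x4007011014000800e022028540)))
def t38 : k38.all (jb2 57 fl b0) = true := by decide +kernel
noncomputable def k39 : KT := (.br (Nat.shiftLeft (nat_lit 0x5) (nat_lit 100)) (.br (Nat.shiftLeft (nat_lit 0x4009) (nat_lit 88)) (.one (nat_lit 0x40080110140008010022028540)) (.one (nat_lit 0x40090110140008012022028540))) (.br (Nat.shiftLeft (nat_lit 0x1401) (nat_lit 90)) (.one (nat_lit 0x5000011014000a000022028311)) (.one (nat_lit 0x5006011014000a00c022028540))))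
def t39 : k39.all (jb2 57 fl b0) = true := by decide +kernel
noncomputable def k40 : KT := (.br (Nat.shiftLeft (nat_lit 0x1801) (nat_lit 90)) (.br (Nat.shiftLeft (nat_lit 0x5009) (nat_lit 88)) (.br (Nat.shiftLeft (nat_lit 0xa01) (nat_lit 91)) (.one (nat_lit 0x5007011014000a00e022028540)) (.one (nat_lit 0x5008011014000a010022028540))) (.br (Nat.shiftLeft (nat_lit 0x3) (nat_lit 101)) (.one (nat_lit 0x5009011014000a012022028540)) (.one (nat_lit 0x6000011014000c000022028311)))) (.br (Nat.shiftLeft (nat_lit 0x6009) (nat_lit 88)) (.br (Nat.shiftLeft (nat_lit 0xc01) (nat_lit 91)) (.one (nat_lit 0x6007011014000c00e022028540)) (.one (nat_lit 0x6008011014000c010022028540))) (.br (Nat.shiftLeft (nat_lit 0x7) (nat_lit 100)) (.one (nat_lit 0x6009011014000c012022028540)) (.one (nat_lit 0x7000011014000e000022028311)))))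
def t40 : k40.all (jb2 57 fl b0) = true := by decide +kernel
noncomputable def k41 : KT := (.br (Nat.shiftLeft (nat_lit 0x200001) (nat_lit 91)) (.br (Nat.shiftLeft (nat_lit 0x7) (nat_lit 101)) (.br (Nat.shiftLeft (nat_lit 0x9) (nat_lit 100)) (.br (Nat.shiftLeft (nat_lit 0x1) (nat_lit 103)) (.br (Nat.shiftLeft (nat_lit 0x7009) (nat_lit 88)) (.one (nat_lit 0x7008011014000e010022028540)) (.one (nat_lit 0x7009011014000e012022028540))) (.br (Nat.shiftLeft (nat_lit 0x1001) (nat_lit 91)) (.one (nat_lit 0x80000110140010000022028311)) (.one (nat_lit 0x80090110140010012022028540)))) (.br (Nat.shiftLeft (nat_lit 0xb) (nat_lit 100)) (.br (Nat.shiftLeft (nat_lit 0x5) (nat_lit 101)) (.one (nat_lit 0x90000110140012000022028311)) (.one (nat_lit 0xa0000110140014000022028311))) (.br (Nat.shiftLeft (nat_lit 0x3) (nat_lit 102)) (.one (nat_lit 0xb0000110140016000022028311)) (.br (Nat.shiftLeft (nat_lit 0xd) (nat_lit 100)) (.one (nat_lit 0xc0000110140018000022028311)) (.one (nat_lit 0xd000011014001a000022028311)))))) (.br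 (Nat.shiftLeft (nat_lit 0x1) (nat_lit 112)) (.br (Nat.shiftLeft (nat_lit 0x1) (nat_lit 104)) (.br (Nat.shiftLeft (nat_lit 0xf) (nat_lit 100)) (.one (nat_lit 0xe000011014001c000022028311)) (.one (nat_lit 0xf000011014001e000022028311))) (.br (Nat.shiftLeft (nat_lit 0x11) (nat_lit 100)) (.one (nat_lit 0x100000110140020000022028311)) (.one (nat_lit 0x110000110140022000022028311)))) (.br (Nat.shiftLeft (nat_lit 0x1000005) (nat_lit 88)) (.br (Nat.shiftLeft (nat_lit 0x400001) (nat_lit 90)) (.one (nat_lit 0x10000030110142000006022028411)) (.one (nat_lit 0x10000040110142000008022028411))) (.br (Nat.shiftLeft (nat_lit 0x800003) (nat_lit 89)) (.one (nat_lit 0x1000005011014200000a022028411)) (.br (Nat.shiftLeft (nat_lit 0x1000007) (nat_lit 88)) (.one (nat_lit 0x1000006011014200000c022028411)) (.one (nat_lit 0x1000007011014200000e022028411))))))) (.br (Nat.shiftLeft (nat_lit 0x2000009) (nat_lit 88)) (.br (Nat.shiftLeft (nat_lit 0x800001) (nat_lit 90)) (.br (Nat.shiftLeft (nat_lit 0x801) (nat_lit 101)) (.br (Nat.shiftLeft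 (nat_lit 0x1000009) (nat_lit 88)) (.one (nat_lit 0x10000080110142000010022028411)) (.one (nat_lit 0x10000090110142000012022028411))) (.br (Nat.shiftLeft (nat_lit 0x1) (nat_lit 113)) (.one (nat_lit 0x10030040110142006008022028650)) (.one (nat_lit 0x20000030110144000006022028411)))) (.br (Nat.shiftLeft (nat_lit 0x1000003) (nat_lit 89)) (.br (Nat.shiftLeft (nat_lit 0x2000005) (nat_lit 88)) (.one (nat_lit 0x20000040110144000008022028411)) (.one (nat_lit 0x2000005011014400000a022028411))) (.br (Nat.shiftLeft (nat_lit 0x2000007) (nat_lit 88)) (.one (nat_lit 0x2000006011014400000c022028411)) (.br (Nat.shiftLeft (nat_lit 0x400001) (nat_lit 91)) (.one (nat_lit 0x2000007011014400000e022028411)) (.one (nat_lit 0x20000080110144000010022028411)))))) (.br (Nat.shiftLeft (nat_lit 0x1800003) (nat_lit 89)) (.br (Nat.shiftLeft (nat_lit 0x3) (nat_lit 112)) (.br (Nat.shiftLeft (nat_lit 0x1001) (nat_lit 101)) (.one (nat_lit 0x20000090110144000012022028411)) (.one (nat_lit 0x20030040110144006008022028650))) (.br (Nat.shiftLeft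 (nat_lit 0xc00001) (nat_lit 90)) (.one (nat_lit 0x30000030110146000006022028411)) (.br (Nat.shiftLeft (nat_lit 0x3000005) (nat_lit 88)) (.one (nat_lit 0x30000040110146000008022028411)) (.one (nat_lit 0x3000005011014600000a022028411))))) (.br (Nat.shiftLeft (nat_lit 0x600001) (nat_lit 91)) (.br (Nat.shiftLeft (nat_lit 0x3000007) (nat_lit 88)) (.one (nat_lit 0x3000006011014600000c022028411)) (.one (nat_lit 0x3000007011014600000e022028411))) (.br (Nat.shiftLeft (nat_lit 0x3000009) (nat_lit 88)) (.one (nat_lit 0x30000080110146000010022028411)) (.br (Nat.shiftLeft (nat_lit 0x1) (nat_lit 114)) (.one (nat_lit 0x30000090110146000012022028411)) (.one (nat_lit 0x40000030110148000006022028411))))))))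
def t41 : k41.all (jb2 57 fl b0) = true := by decide +kernel
noncomputable def k42 : KT := (.br (Nat.shiftLeft (nat_lit 0x6000009) (nat_lit 88)) (.br (Nat.shiftLeft (nat_lit 0x2800003) (nat_lit 89)) (.br (Nat.shiftLeft (nat_lit 0x800001) (nat_lit 91)) (.br (Nat.shiftLeft (nat_lit 0x2000003) (nat_lit 89)) (.br (Nat.shiftLeft (nat_lit 0x4000005) (nat_lit 88)) (.one (nat_lit 0x40000040110148000008022028411)) (.one (nat_lit 0x4000005011014800000a022028411))) (.br (Nat.shiftLeft (nat_lit 0x4000007) (nat_lit 88)) (.one (nat_lit 0x4000006011014800000c022028411)) (.one (nat_lit 0x4000007011014800000e022028411)))) (.br (Nat.shiftLeft (nat_lit 0x5) (nat_lit 112)) (.br (Nat.shiftLeft (nat_lit 0x4000009) (nat_lit 88)) (.one (nat_lit 0x40000080110148000010022028411)) (.one (nat_lit 0x40000090110148000012022028411))) (.br (Nat.shiftLeft (nat_lit 0x1400001) (nat_lit 90)) (.one (nat_lit 0x5000003011014a000006022028411)) (.br (Nat.shiftLeft (nat_lit 0x5000005) (nat_lit 88)) (.one (nat_lit 0x5000004011014a000008022028411))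 (.one (nat_lit 0x5000005011014a00000a022028411)))))) (.br (Nat.shiftLeft (nat_lit 0x1800001) (nat_lit 90)) (.br (Nat.shiftLeft (nat_lit 0xa00001) (nat_lit 91)) (.br (Nat.shiftLeft (nat_lit 0x5000007) (nat_lit 88)) (.one (nat_lit 0x5000006011014a00000c022028411)) (.one (nat_lit 0x5000007011014a00000e022028411))) (.br (Nat.shiftLeft (nat_lit 0x5000009) (nat_lit 88)) (.one (nat_lit 0x5000008011014a000010022028411)) (.br (Nat.shiftLeft (nat_lit 0x3) (nat_lit 113)) (.one (nat_lit 0x5000009011014a000012022028411)) (.one (nat_lit 0x6000003011014c000006022028411))))) (.br (Nat.shiftLeft (nat_lit 0x3000003) (nat_lit 89)) (.br (Nat.shiftLeft (nat_lit 0x6000005) (nat_lit 88)) (.one (nat_lit 0x6000004011014c000008022028411)) (.one (nat_lit 0x6000005011014c00000a022028411))) (.br (Nat.shiftLeft (nat_lit 0x6000007) (nat_lit 88)) (.one (nat_lit 0x6000006011014c00000c022028411)) (.br (Nat.shiftLeft (nat_lit 0xc00001) (nat_lit 91)) (.one (nat_lit 0x6000007011014c00000e022028411)) (.one (nat_lit 0x6000008011014c000010022028411)))))))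 (.br (Nat.shiftLeft (nat_lit 0x8000005) (nat_lit 88)) (.br (Nat.shiftLeft (nat_lit 0x7000007) (nat_lit 88)) (.br (Nat.shiftLeft (nat_lit 0x1c00001) (nat_lit 90)) (.br (Nat.shiftLeft (nat_lit 0x7) (nat_lit 112)) (.one (nat_lit 0x6000009011014c000012022028411)) (.one (nat_lit 0x7000003011014e000006022028411))) (.br (Nat.shiftLeft (nat_lit 0x7000005) (nat_lit 88)) (.one (nat_lit 0x7000004011014e000008022028411)) (.br (Nat.shiftLeft (nat_lit 0x3800003) (nat_lit 89)) (.one (nat_lit 0x7000005011014e00000a022028411)) (.one (nat_lit 0x7000006011014e00000c022028411))))) (.br (Nat.shiftLeft (nat_lit 0x7000009) (nat_lit 88)) (.br (Nat.shiftLeft (nat_lit 0xe00001) (nat_lit 91)) (.one (nat_lit 0x7000007011014e00000e022028411)) (.one (nat_lit 0x7000008011014e000010022028411))) (.br (Nat.shiftLeft (nat_lit 0x1) (nat_lit 115)) (.one (nat_lit 0x7000009011014e000012022028411)) (.br (Nat.shiftLeft (nat_lit 0x2000001) (nat_lit 90)) (.one (nat_lit 0x8000003011014000000602212a411)) (.one (nat_lit 0x8000004011014000000802212a411))))))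 (.br (Nat.shiftLeft (nat_lit 0x9) (nat_lit 112)) (.br (Nat.shiftLeft (nat_lit 0x8000007) (nat_lit 88)) (.br (Nat.shiftLeft (nat_lit 0x4000003) (nat_lit 89)) (.one (nat_lit 0x8000005011014000000a02212a411)) (.one (nat_lit 0x8000006011014000000c02212a411))) (.br (Nat.shiftLeft (nat_lit 0x1000001) (nat_lit 91)) (.one (nat_lit 0x8000007011014000000e02212a411)) (.br (Nat.shiftLeft (nat_lit 0x8000009) (nat_lit 88)) (.one (nat_lit 0x8000008011014000001002212a411)) (.one (nat_lit 0x8000009011014000001202212a411))))) (.br (Nat.shiftLeft (nat_lit 0x9000005) (nat_lit 88)) (.br (Nat.shiftLeft (nat_lit 0x2400001) (nat_lit 90)) (.one (nat_lit 0x9000003011014200000602212a411)) (.one (nat_lit 0x9000004011014200000802212a411))) (.br (Nat.shiftLeft (nat_lit 0x4800003) (nat_lit 89)) (.one (nat_lit 0x9000005011014200000a02212a411)) (.br (Nat.shiftLeft (nat_lit 0x9000007) (nat_lit 88)) (.one (nat_lit 0x9000006011014200000c02212a411)) (.one (nat_lit 0x9000007011014200000e02212a411))))))))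
def t42 : k42.all (jb2 57 fl b0) = true := by decide +kernel
noncomputable def k43 : KT := (.br (Nat.shiftLeft (nat_lit 0xc000007) (nat_lit 88)) (.br (Nat.shiftLeft (nat_lit 0x2c00001) (nat_lit 90)) (.br (Nat.shiftLeft (nat_lit 0x5000003) (nat_lit 89)) (.br (Nat.shiftLeft (nat_lit 0x5) (nat_lit 113)) (.br (Nat.shiftLeft (nat_lit 0x9000009) (nat_lit 88)) (.one (nat_lit 0x9000008011014200001002212a411)) (.one (nat_lit 0x9000009011014200001202212a411))) (.br (Nat.shiftLeft (nat_lit 0x2800001) (nat_lit 90)) (.one (nat_lit 0xa000003011014400000602212a411)) (.br (Nat.shiftLeft (nat_lit 0xa000005) (nat_lit 88)) (.one (nat_lit 0xa000004011014400000802212a411)) (.one (nat_lit 0xa000005011014400000a02212a411))))) (.br (Nat.shiftLeft (nat_lit 0x1400001) (nat_lit 91)) (.br (Nat.shiftLeft (nat_lit 0xa000007) (nat_lit 88)) (.one (nat_lit 0xa000006011014400000c02212a411)) (.one (nat_lit 0xa000007011014400000e02212a411))) (.br (Nat.shiftLeft (nat_lit 0xa000009) (nat_lit 88)) (.one (nat_lit 0xa000008011014400001002212a411))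 (.br (Nat.shiftLeft (nat_lit 0xb) (nat_lit 112)) (.one (nat_lit 0xa000009011014400001202212a411)) (.one (nat_lit 0xb000003011014600000602212a411)))))) (.br (Nat.shiftLeft (nat_lit 0xb000009) (nat_lit 88)) (.br (Nat.shiftLeft (nat_lit 0x5800003) (nat_lit 89)) (.br (Nat.shiftLeft (nat_lit 0xb000005) (nat_lit 88)) (.one (nat_lit 0xb000004011014600000802212a411)) (.one (nat_lit 0xb000005011014600000a02212a411))) (.br (Nat.shiftLeft (nat_lit 0xb000007) (nat_lit 88)) (.one (nat_lit 0xb000006011014600000c02212a411)) (.br (Nat.shiftLeft (nat_lit 0x1600001) (nat_lit 91)) (.one (nat_lit 0xb000007011014600000e02212a411)) (.one (nat_lit 0xb000008011014600001002212a411))))) (.br (Nat.shiftLeft (nat_lit 0x3000001) (nat_lit 90)) (.br (Nat.shiftLeft (nat_lit 0x3) (nat_lit 114)) (.one (nat_lit 0xb000009011014600001202212a411)) (.one (nat_lit 0xc000003011014800000602212a411))) (.br (Nat.shiftLeft (nat_lit 0xc000005) (nat_lit 88)) (.one (nat_lit 0xc000004011014800000802212a411)) (.br (Nat.shiftLeft (nat_lit 0x6000003)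 (nat_lit 89)) (.one (nat_lit 0xc000005011014800000a02212a411)) (.one (nat_lit 0xc000006011014800000c02212a411))))))) (.br (Nat.shiftLeft (nat_lit 0x7000003) (nat_lit 89)) (.br (Nat.shiftLeft (nat_lit 0x6800003) (nat_lit 89)) (.br (Nat.shiftLeft (nat_lit 0xd) (nat_lit 112)) (.br (Nat.shiftLeft (nat_lit 0x1800001) (nat_lit 91)) (.one (nat_lit 0xc000007011014800000e02212a411)) (.one (nat_lit 0xc000008011014800001002212a411))) (.br (Nat.shiftLeft (nat_lit 0x3400001) (nat_lit 90)) (.one (nat_lit 0xd000003011014a00000602212a411)) (.br (Nat.shiftLeft (nat_lit 0xd000005) (nat_lit 88)) (.one (nat_lit 0xd000004011014a00000802212a411)) (.one (nat_lit 0xd000005011014a00000a02212a411))))) (.br (Nat.shiftLeft (nat_lit 0x7) (nat_lit 113)) (.br (Nat.shiftLeft (nat_lit 0xd000007) (nat_lit 88)) (.one (nat_lit 0xd000006011014a00000c02212a411)) (.one (nat_lit 0xd000007011014a00000e02212a411))) (.br (Nat.shiftLeft (nat_lit 0x3800001) (nat_lit 90)) (.one (nat_lit 0xe000003011014c00000602212a411)) (.br (Nat.shiftLeft (nat_lit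 0xe000005) (nat_lit 88)) (.one (nat_lit 0xe000004011014c00000802212a411)) (.one (nat_lit 0xe000005011014c00000a02212a411)))))) (.br (Nat.shiftLeft (nat_lit 0x4000001) (nat_lit 90)) (.br (Nat.shiftLeft (nat_lit 0x3c00001) (nat_lit 90)) (.br (Nat.shiftLeft (nat_lit 0xf) (nat_lit 112)) (.one (nat_lit 0xe000006011014c00000c02212a411)) (.one (nat_lit 0xf000003011014e00000602212a411))) (.br (Nat.shiftLeft (nat_lit 0xf000005) (nat_lit 88)) (.one (nat_lit 0xf000004011014e00000802212a411)) (.br (Nat.shiftLeft (nat_lit 0x1) (nat_lit 116)) (.one (nat_lit 0xf000005011014e00000a02212a411)) (.one (nat_lit 0x10000003011014000000602222c411))))) (.br (Nat.shiftLeft (nat_lit 0x1) (nat_lit 124)) (.br (Nat.shiftLeft (nat_lit 0x11) (nat_lit 112)) (.one (nat_lit 0x10000004011014000000802222c411)) (.one (nat_lit 0x11000003011014200000602222c411))) (.br (Nat.shiftLeft (nat_lit 0x1) (nat_lit 125)) (.one (nat_lit 0x10000030040110140006008042428511)) (.br (Nat.shiftLeft (nat_lit 0x3) (nat_lit 124)) (.one (nat_lit 0x20000030040110140006008062828511))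 (.one (nat_lit 0x30000030040110140006008082c28511))))))))
def t43 : k43.all (jb2 57 fl b0) = true := by decide +kernel
noncomputable def k44 : KT := (.br (Nat.shiftLeft (nat_lit 0x9) (nat_lit 124)) (.br (Nat.shiftLeft (nat_lit 0x3) (nat_lit 125)) (.br (Nat.shiftLeft (nat_lit 0x5) (nat_lit 124)) (.one (nat_lit 0x400000300401101400060080a3028511)) (.one (nat_lit 0x500000300401101400060080c3428511))) (.br (Nat.shiftLeft (nat_lit 0x7) (nat_lit 124)) (.one (nat_lit 0x600000300401101400060080e3828511)) (.br (Nat.shiftLeft (nat_lit 0x1) (nat_lit 127)) (.one (nat_lit 0x70000030040110140006008103c28511)) (.one (nat_lit 0x80000030040110140006008124028511))))) (.br (Nat.shiftLeft (nat_lit 0xb) (nat_lit 124)) (.br (Nat.shiftLeft (nat_lit 0x5) (nat_lit 125)) (.one (nat_lit 0x90000030040110140006008144428511)) (.one (nat_lit 0xa0000030040110140006008164828511))) (.br (Nat.shiftLeft (nat_lit 0x3) (nat_lit 126)) (.one (nat_lit 0xb0000030040110140006008184c28511)) (.br (Nat.shiftLeft (nat_lit 0xd) (nat_lit 124)) (.one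 (nat_lit 0xc00000300401101400060081a5028511)) (.one (nat_lit 0xd00000300401101400060081c5428511))))))
def t44 : k44.all (jb2 57 fl b0) = true := by decide +kernel
noncomputable def s1 : KT := (.br (nat_lit 0x30040110140006008022029500) (.br (nat_lit 0x1005011014000200a022028540) (.br (nat_lit 0xa0110140000014022028430) (.br (nat_lit 0x90110140000012022029400) k23 k24) (.br (nat_lit 0xd011014000001a022028430) k25 (.br (nat_lit 0x10030110140002006022028540) k26 k27))) (.br (nat_lit 0x20040110140004008022028540) (.br (nat_lit 0x20000110140004000022028311) k28 (.br (nat_lit 0x20030110140004006022028540) k29 k30)) (.br (nat_lit 0x2005011014000400a022028540) k31 (.br (nat_lit 0x2007011014000400e022028540) k32 k33)))) (.br (nat_lit 0x4007011014000800e022028540) (.br (nat_lit 0x3007011014000600e022028540) (.br (nat_lit 0x3005011014000600a022028540) k34 k35) (.br (nat_lit 0x40000110140008000022028311) k36 (.br (nat_lit 0x4005011014000800a022028540) k37 k38))) (.br (nat_lit 0x40000030110148000006022028411) (.br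 (nat_lit 0x5006011014000a00c022028540) k39 (.br (nat_lit 0x7000011014000e000022028311) k40 k41)) (.br (nat_lit 0x9000007011014200000e02212a411) k42 (.br (nat_lit 0x30000030040110140006008082c28511) k43 k44)))))
noncomputable def u1 : KT := (.one (nat_lit 0x110140000000022028320))
def w1 : u1.all (wj 57 s1) = true := by decide +kernel
def o1 : OkW 57 (jb2 57 fl) u1 := .lift s1 _ (.br _ _ _ (.br _ _ _ (.br _ _ _ (.br _ _ _ (.leaf b0 k23 t23) (.leaf b0 k24 t24)) (.br _ _ _ (.leaf b0 k25 t25) (.br _ _ _ (.leaf b0 k26 t26) (.leaf b0 k27 t27)))) (.br _ _ _ (.br _ _ _ (.leaf b0 k28 t28) (.br _ _ _ (.leaf b0 k29 t29) (.leaf b0 k30 t30))) (.br _ _ _ (.leaf b0 k31 t31) (.br _ _ _ (.leaf b0 k32 t32) (.leaf b0 k33 t33))))) (.br _ _ _ (.br _ _ _ (.br _ _ _ (.leaf b0 k34 t34) (.leaf b0 k35 t35)) (.br _ _ _ (.leaf b0 k36 t36) (.br _ _ _ (.leaf b0 k37 t37) (.leaf b0 k38 t38)))) (.br _ _ _ (.br _ _ _ (.leaf b0 k39 t39) (.br _ _ _ (.leaf b0 k40 t40) (.leaf b0 k41 t41))) (.br _ _ _ (.leaf b0 k42 t42) (.br _ _ _ (.leaf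 b0 k43 t43) (.leaf b0 k44 t44)))))) w1
noncomputable def k45 : KT := (.br (Nat.shiftLeft (nat_lit 0x1) (nat_lit 90)) (.br (Nat.shiftLeft (nat_lit 0x1) (nat_lit 89)) (.br (Nat.shiftLeft (nat_lit 0x1) (nat_lit 88)) (.one (nat_lit 0x11015000000002202b300)) (.one (nat_lit 0x1011015000000202202a430))) (.br (Nat.shiftLeft (nat_lit 0x3) (nat_lit 88)) (.one (nat_lit 0x2011015000000402202a430)) (.one (nat_lit 0x3011015000000602202b400)))) (.br (Nat.shiftLeft (nat_lit 0x3) (nat_lit 89)) (.br (Nat.shiftLeft (nat_lit 0x5) (nat_lit 88)) (.one (nat_lit 0x4011015000000802202b400)) (.one (nat_lit 0x5011015000000a02202b400))) (.br (Nat.shiftLeft (nat_lit 0x7) (nat_lit 88)) (.one (nat_lit 0x6011015000000c02202b400)) (.br (Nat.shiftLeft (nat_lit 0x1) (nat_lit 91)) (.one (nat_lit 0x7011015000000e02202b400)) (.one (nat_lit 0x8011015000001002202b400))))))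
def t45 : k45.all (jb2 57 fl b0) = true := by decide +kernel
noncomputable def k46 : KT := (.one (nat_lit 0x9011015000001202202a430))
def t46 : k46.all (jb2 57 fl b0) = true := by decide +kernel
noncomputable def k47 : KT := (.br (Nat.shiftLeft (nat_lit 0xb) (nat_lit 88)) (.one (nat_lit 0xa011015000001402202a430)) (.br (Nat.shiftLeft (nat_lit 0x3) (nat_lit 90)) (.one (nat_lit 0xb011015000001602202a430)) (.one (nat_lit 0xc011015000001802202a430))))
def t47 : k47.all (jb2 57 fl b0) = true := by decide +kernel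
noncomputable def k48 : KT := (.br (Nat.shiftLeft (nat_lit 0x1) (nat_lit 92)) (.br (Nat.shiftLeft (nat_lit 0x7) (nat_lit 89)) (.one (nat_lit 0xd011015000001a02202a430)) (.br (Nat.shiftLeft (nat_lit 0xf) (nat_lit 88)) (.one (nat_lit 0xe011015000001c02202a430)) (.one (nat_lit 0xf011015000001e02202a430)))) (.br (Nat.shiftLeft (nat_lit 0x1) (nat_lit 100)) (.one (nat_lit 0x10011015000002002202a430)) (.br (Nat.shiftLeft (nat_lit 0x801) (nat_lit 89)) (.one (nat_lit 0x1000011015000200002202a311)) (.one (nat_lit 0x1003011015000200602202a540)))))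
def t48 : k48.all (jb2 57 fl b0) = true := by decide +kernel
noncomputable def k49 : KT := (.br (Nat.shiftLeft (nat_lit 0x1005) (nat_lit 88)) (.one (nat_lit 0x1004011015000200802202a540)) (.br (Nat.shiftLeft (nat_lit 0x803) (nat_lit 89)) (.one (nat_lit 0x1005011015000200a02202a540)) (.one (nat_lit 0x1006011015000200c02202a540))))
def t49 : k49.all (jb2 57 fl b0) = true := by decide +kernel
noncomputable def k50 : KT := (.br (Nat.shiftLeft (nat_lit 0x201) (nat_lit 91)) (.one (nat_lit 0x1007011015000200e02202a540)) (.br (Nat.shiftLeft (nat_lit 0x1) (nat_lit 101)) (.one (nat_lit 0x1008011015000201002202a540)) (.one (nat_lit 0x2000011015000400002202a311))))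
def t50 : k50.all (jb2 57 fl b0) = true := by decide +kernel
noncomputable def k51 : KT := (.one (nat_lit 0x2003011015000400602202a540))
def t51 : k51.all (jb2 57 fl b0) = true := by decide +kernel
noncomputable def k52 : KT := (.one (nat_lit 0x2004011015000400802202a540))
def t52 : k52.all (jb2 57 fl b0) = true := by decide +kernel
noncomputable def k53 : KT := (.br (Nat.shiftLeft (nat_lit 0x1003) (nat_lit 89)) (.one (nat_lit 0x2005011015000400a02202a540)) (.one (nat_lit 0x2006011015000400c02202a540)))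
def t53 : k53.all (jb2 57 fl b0) = true := by decide +kernel
noncomputable def k54 : KT := (.br (Nat.shiftLeft (nat_lit 0x401) (nat_lit 91)) (.one (nat_lit 0x2007011015000400e02202a540)) (.br (Nat.shiftLeft (nat_lit 0x3) (nat_lit 100)) (.one (nat_lit 0x2008011015000401002202a540)) (.one (nat_lit 0x3000011015000600002202a311))))
def t54 : k54.all (jb2 57 fl b0) = true := by decide +kernel
noncomputable def k55 : KT := (.one (nat_lit 0x3004011015000600802202a540))
def t55 : k55.all (jb2 57 fl b0) = true := by decide +kernel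
noncomputable def k56 : KT := (.br (Nat.shiftLeft (nat_lit 0x1803) (nat_lit 89)) (.one (nat_lit 0x3005011015000600a02202a540)) (.one (nat_lit 0x3006011015000600c02202a540)))
def t56 : k56.all (jb2 57 fl b0) = true := by decide +kernel
noncomputable def k57 : KT := (.br (Nat.shiftLeft (nat_lit 0x1) (nat_lit 102)) (.br (Nat.shiftLeft (nat_lit 0x601) (nat_lit 91)) (.one (nat_lit 0x3007011015000600e02202a540)) (.one (nat_lit 0x3008011015000601002202a540))) (.br (Nat.shiftLeft (nat_lit 0x1001) (nat_lit 90)) (.one (nat_lit 0x4000011015000800002202a311)) (.one (nat_lit 0x4005011015000800a02202a540))))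
def t57 : k57.all (jb2 57 fl b0) = true := by decide +kernel
noncomputable def k58 : KT := (.br (Nat.shiftLeft (nat_lit 0x801) (nat_lit 91)) (.br (Nat.shiftLeft (nat_lit 0x4007) (nat_lit 88)) (.one (nat_lit 0x4006011015000800c02202a540)) (.one (nat_lit 0x4007011015000800e02202a540))) (.br (Nat.shiftLeft (nat_lit 0x5) (nat_lit 100)) (.one (nat_lit 0x4008011015000801002202a540)) (.one (nat_lit 0x5000011015000a00002202a311))))
def t58 : k58.all (jb2 57 fl b0) = true := by decide +kernel
noncomputable def k59 : KT := (.br (Nat.shiftLeft (nat_lit 0x1) (nat_lit 112)) (.br (Nat.shiftLeft (nat_lit 0x9) (nat_lit 100)) (.br (Nat.shiftLeft (nat_lit 0x1801) (nat_lit 90)) (.br (Nat.shiftLeft (nat_lit 0xa01) (nat_lit 91)) (.br (Nat.shiftLeft (nat_lit 0x5007) (nat_lit 88)) (.one (nat_lit 0x5006011015000a00c02202a540)) (.one (nat_lit 0x5007011015000a00e02202a540))) (.br (Nat.shiftLeft (nat_lit 0x3) (nat_lit 101)) (.one (nat_lit 0x5008011015000a01002202a540)) (.one (nat_lit 0x6000011015000c00002202a311)))) (.br (Nat.shiftLeft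 (nat_lit 0x7) (nat_lit 100)) (.br (Nat.shiftLeft (nat_lit 0xc01) (nat_lit 91)) (.one (nat_lit 0x6007011015000c00e02202a540)) (.one (nat_lit 0x6008011015000c01002202a540))) (.br (Nat.shiftLeft (nat_lit 0xe01) (nat_lit 91)) (.one (nat_lit 0x7000011015000e00002202a311)) (.br (Nat.shiftLeft (nat_lit 0x1) (nat_lit 103)) (.one (nat_lit 0x7008011015000e01002202a540)) (.one (nat_lit 0x8000011015001000002202a311)))))) (.br (Nat.shiftLeft (nat_lit 0xd) (nat_lit 100)) (.br (Nat.shiftLeft (nat_lit 0xb) (nat_lit 100)) (.br (Nat.shiftLeft (nat_lit 0x5) (nat_lit 101)) (.one (nat_lit 0x9000011015001200002202a311)) (.one (nat_lit 0xa000011015001400002202a311))) (.br (Nat.shiftLeft (nat_lit 0x3) (nat_lit 102)) (.one (nat_lit 0xb000011015001600002202a311)) (.one (nat_lit 0xc000011015001800002202a311)))) (.br (Nat.shiftLeft (nat_lit 0xf) (nat_lit 100)) (.br (Nat.shiftLeft (nat_lit 0x7) (nat_lit 101)) (.one (nat_lit 0xd000011015001a00002202a311)) (.one (nat_lit 0xe000011015001c00002202a311))) (.br (Nat.shiftLeft (nat_lit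 0x1) (nat_lit 104)) (.one (nat_lit 0xf000011015001e00002202a311)) (.br (Nat.shiftLeft (nat_lit 0x11) (nat_lit 100)) (.one (nat_lit 0x10000011015002000002202a311)) (.one (nat_lit 0x11000011015002200002202a311))))))) (.br (Nat.shiftLeft (nat_lit 0x1000003) (nat_lit 89)) (.br (Nat.shiftLeft (nat_lit 0x1000007) (nat_lit 88)) (.br (Nat.shiftLeft (nat_lit 0x1000005) (nat_lit 88)) (.br (Nat.shiftLeft (nat_lit 0x400001) (nat_lit 90)) (.one (nat_lit 0x1000003011015200000602202a411)) (.one (nat_lit 0x1000004011015200000802202a411))) (.br (Nat.shiftLeft (nat_lit 0x800003) (nat_lit 89)) (.one (nat_lit 0x1000005011015200000a02202a411)) (.one (nat_lit 0x1000006011015200000c02202a411)))) (.br (Nat.shiftLeft (nat_lit 0x1) (nat_lit 113)) (.br (Nat.shiftLeft (nat_lit 0x200001) (nat_lit 91)) (.one (nat_lit 0x1000007011015200000e02202a411)) (.one (nat_lit 0x1000008011015200001002202a411))) (.br (Nat.shiftLeft (nat_lit 0x800001) (nat_lit 90)) (.one (nat_lit 0x2000003011015400000602202a411)) (.br (Nat.shiftLeft (nat_lit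 0x2000005) (nat_lit 88)) (.one (nat_lit 0x2000004011015400000802202a411)) (.one (nat_lit 0x2000005011015400000a02202a411)))))) (.br (Nat.shiftLeft (nat_lit 0x3000005) (nat_lit 88)) (.br (Nat.shiftLeft (nat_lit 0x400001) (nat_lit 91)) (.br (Nat.shiftLeft (nat_lit 0x2000007) (nat_lit 88)) (.one (nat_lit 0x2000006011015400000c02202a411)) (.one (nat_lit 0x2000007011015400000e02202a411))) (.br (Nat.shiftLeft (nat_lit 0x3) (nat_lit 112)) (.one (nat_lit 0x2000008011015400001002202a411)) (.br (Nat.shiftLeft (nat_lit 0xc00001) (nat_lit 90)) (.one (nat_lit 0x3000003011015600000602202a411)) (.one (nat_lit 0x3000004011015600000802202a411))))) (.br (Nat.shiftLeft (nat_lit 0x3000007) (nat_lit 88)) (.br (Nat.shiftLeft (nat_lit 0x1800003) (nat_lit 89)) (.one (nat_lit 0x3000005011015600000a02202a411)) (.one (nat_lit 0x3000006011015600000c02202a411))) (.br (Nat.shiftLeft (nat_lit 0x600001) (nat_lit 91)) (.one (nat_lit 0x3000007011015600000e02202a411)) (.br (Nat.shiftLeft (nat_lit 0x1) (nat_lit 114)) (.one (nat_lit 0x3000008011015600001002202a411))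 (.one (nat_lit 0x4000003011015800000602202a411))))))))
def t59 : k59.all (jb2 57 fl b0) = true := by decide +kernel
noncomputable def k60 : KT := (.br (Nat.shiftLeft (nat_lit 0x3800003) (nat_lit 89)) (.br (Nat.shiftLeft (nat_lit 0xa00001) (nat_lit 91)) (.br (Nat.shiftLeft (nat_lit 0x5) (nat_lit 112)) (.br (Nat.shiftLeft (nat_lit 0x2000003) (nat_lit 89)) (.br (Nat.shiftLeft (nat_lit 0x4000005) (nat_lit 88)) (.one (nat_lit 0x4000004011015800000802202a411)) (.one (nat_lit 0x4000005011015800000a02202a411))) (.br (Nat.shiftLeft (nat_lit 0x4000007) (nat_lit 88)) (.one (nat_lit 0x4000006011015800000c02202a411)) (.br (Nat.shiftLeft (nat_lit 0x800001) (nat_lit 91)) (.one (nat_lit 0x4000007011015800000e02202a411)) (.one (nat_lit 0x4000008011015800001002202a411))))) (.br (Nat.shiftLeft (nat_lit 0x5000005) (nat_lit 88)) (.br (Nat.shiftLeft (nat_lit 0x1400001) (nat_lit 90)) (.one (nat_lit 0x5000003011015a00000602202a411)) (.one (nat_lit 0x5000004011015a00000802202a411))) (.br (Nat.shiftLeft (nat_lit 0x2800003)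 (nat_lit 89)) (.one (nat_lit 0x5000005011015a00000a02202a411)) (.br (Nat.shiftLeft (nat_lit 0x5000007) (nat_lit 88)) (.one (nat_lit 0x5000006011015a00000c02202a411)) (.one (nat_lit 0x5000007011015a00000e02202a411)))))) (.br (Nat.shiftLeft (nat_lit 0x6000007) (nat_lit 88)) (.br (Nat.shiftLeft (nat_lit 0x1800001) (nat_lit 90)) (.br (Nat.shiftLeft (nat_lit 0x3) (nat_lit 113)) (.one (nat_lit 0x5000008011015a00001002202a411)) (.one (nat_lit 0x6000003011015c00000602202a411))) (.br (Nat.shiftLeft (nat_lit 0x6000005) (nat_lit 88)) (.one (nat_lit 0x6000004011015c00000802202a411)) (.br (Nat.shiftLeft (nat_lit 0x3000003) (nat_lit 89)) (.one (nat_lit 0x6000005011015c00000a02202a411)) (.one (nat_lit 0x6000006011015c00000c02202a411))))) (.br (Nat.shiftLeft (nat_lit 0x7) (nat_lit 112)) (.br (Nat.shiftLeft (nat_lit 0xc00001) (nat_lit 91)) (.one (nat_lit 0x6000007011015c00000e02202a411)) (.one (nat_lit 0x6000008011015c00001002202a411))) (.br (Nat.shiftLeft (nat_lit 0x1c00001) (nat_lit 90)) (.one (nat_lit 0x7000003011015e00000602202a411))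 (.br (Nat.shiftLeft (nat_lit 0x7000005) (nat_lit 88)) (.one (nat_lit 0x7000004011015e00000802202a411)) (.one (nat_lit 0x7000005011015e00000a02202a411))))))) (.br (Nat.shiftLeft (nat_lit 0x2400001) (nat_lit 90)) (.br (Nat.shiftLeft (nat_lit 0x8000005) (nat_lit 88)) (.br (Nat.shiftLeft (nat_lit 0xe00001) (nat_lit 91)) (.br (Nat.shiftLeft (nat_lit 0x7000007) (nat_lit 88)) (.one (nat_lit 0x7000006011015e00000c02202a411)) (.one (nat_lit 0x7000007011015e00000e02202a411))) (.br (Nat.shiftLeft (nat_lit 0x1) (nat_lit 115)) (.one (nat_lit 0x7000008011015e00001002202a411)) (.br (Nat.shiftLeft (nat_lit 0x2000001) (nat_lit 90)) (.one (nat_lit 0x8000003011015000000602212c411)) (.one (nat_lit 0x8000004011015000000802212c411))))) (.br (Nat.shiftLeft (nat_lit 0x8000007) (nat_lit 88)) (.br (Nat.shiftLeft (nat_lit 0x4000003) (nat_lit 89)) (.one (nat_lit 0x8000005011015000000a02212c411)) (.one (nat_lit 0x8000006011015000000c02212c411))) (.br (Nat.shiftLeft (nat_lit 0x1000001) (nat_lit 91)) (.one (nat_lit 0x8000007011015000000e02212c411))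 (.br (Nat.shiftLeft (nat_lit 0x9) (nat_lit 112)) (.one (nat_lit 0x8000008011015000001002212c411)) (.one (nat_lit 0x9000003011015200000602212c411)))))) (.br (Nat.shiftLeft (nat_lit 0x5) (nat_lit 113)) (.br (Nat.shiftLeft (nat_lit 0x4800003) (nat_lit 89)) (.br (Nat.shiftLeft (nat_lit 0x9000005) (nat_lit 88)) (.one (nat_lit 0x9000004011015200000802212c411)) (.one (nat_lit 0x9000005011015200000a02212c411))) (.br (Nat.shiftLeft (nat_lit 0x9000007) (nat_lit 88)) (.one (nat_lit 0x9000006011015200000c02212c411)) (.br (Nat.shiftLeft (nat_lit 0x1200001) (nat_lit 91)) (.one (nat_lit 0x9000007011015200000e02212c411)) (.one (nat_lit 0x9000008011015200001002212c411))))) (.br (Nat.shiftLeft (nat_lit 0xa000005) (nat_lit 88)) (.br (Nat.shiftLeft (nat_lit 0x2800001) (nat_lit 90)) (.one (nat_lit 0xa000003011015400000602212c411)) (.one (nat_lit 0xa000004011015400000802212c411))) (.br (Nat.shiftLeft (nat_lit 0x5000003) (nat_lit 89)) (.one (nat_lit 0xa000005011015400000a02212c411)) (.br (Nat.shiftLeft (nat_lit 0xa000007)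 (nat_lit 88)) (.one (nat_lit 0xa000006011015400000c02212c411)) (.one (nat_lit 0xa000007011015400000e02212c411))))))))
def t60 : k60.all (jb2 57 fl b0) = true := by decide +kernel
noncomputable def k61 : KT := (.br (Nat.shiftLeft (nat_lit 0xc000007) (nat_lit 88)) (.br (Nat.shiftLeft (nat_lit 0xb000007) (nat_lit 88)) (.br (Nat.shiftLeft (nat_lit 0x2c00001) (nat_lit 90)) (.br (Nat.shiftLeft (nat_lit 0xb) (nat_lit 112)) (.one (nat_lit 0xa000008011015400001002212c411)) (.one (nat_lit 0xb000003011015600000602212c411))) (.br (Nat.shiftLeft (nat_lit 0xb000005) (nat_lit 88)) (.one (nat_lit 0xb000004011015600000802212c411)) (.br (Nat.shiftLeft (nat_lit 0x5800003) (nat_lit 89)) (.one (nat_lit 0xb000005011015600000a02212c411)) (.one (nat_lit 0xb000006011015600000c02212c411))))) (.br (Nat.shiftLeft (nat_lit 0x3000001) (nat_lit 90)) (.br (Nat.shiftLeft (nat_lit 0x1600001) (nat_lit 91)) (.one (nat_lit 0xb000007011015600000e02212c411)) (.br (Nat.shiftLeft (nat_lit 0x3) (nat_lit 114)) (.one (nat_lit 0xb000008011015600001002212c411))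 (.one (nat_lit 0xc000003011015800000602212c411)))) (.br (Nat.shiftLeft (nat_lit 0xc000005) (nat_lit 88)) (.one (nat_lit 0xc000004011015800000802212c411)) (.br (Nat.shiftLeft (nat_lit 0x6000003) (nat_lit 89)) (.one (nat_lit 0xc000005011015800000a02212c411)) (.one (nat_lit 0xc000006011015800000c02212c411)))))) (.br (Nat.shiftLeft (nat_lit 0x7) (nat_lit 113)) (.br (Nat.shiftLeft (nat_lit 0x3400001) (nat_lit 90)) (.br (Nat.shiftLeft (nat_lit 0xd) (nat_lit 112)) (.one (nat_lit 0xc000007011015800000e02212c411)) (.one (nat_lit 0xd000003011015a00000602212c411))) (.br (Nat.shiftLeft (nat_lit 0xd000005) (nat_lit 88)) (.one (nat_lit 0xd000004011015a00000802212c411)) (.br (Nat.shiftLeft (nat_lit 0x6800003) (nat_lit 89)) (.one (nat_lit 0xd000005011015a00000a02212c411)) (.one (nat_lit 0xd000006011015a00000c02212c411))))) (.br (Nat.shiftLeft (nat_lit 0xf) (nat_lit 112)) (.br (Nat.shiftLeft (nat_lit 0x3800001) (nat_lit 90)) (.one (nat_lit 0xe000003011015c00000602212c411)) (.br (Nat.shiftLeft (nat_lit 0xe000005) (nat_lit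 88)) (.one (nat_lit 0xe000004011015c00000802212c411)) (.one (nat_lit 0xe000005011015c00000a02212c411)))) (.br (Nat.shiftLeft (nat_lit 0x3c00001) (nat_lit 90)) (.one (nat_lit 0xf000003011015e00000602212c411)) (.br (Nat.shiftLeft (nat_lit 0x1) (nat_lit 116)) (.one (nat_lit 0xf000004011015e00000802212c411)) (.one (nat_lit 0x10000003011015000000602222e411)))))))
def t61 : k61.all (jb2 57 fl b0) = true := by decide +kernel
noncomputable def s2 : KT := (.br (nat_lit 0x2004011015000400802202a540) (.br (nat_lit 0x1003011015000200602202a540) (.br (nat_lit 0x9011015000001202202a430) (.br (nat_lit 0x8011015000001002202b400) k45 k46) (.br (nat_lit 0xc011015000001802202a430) k47 k48)) (.br (nat_lit 0x2000011015000400002202a311) (.br (nat_lit 0x1006011015000200c02202a540) k49 k50) (.br (nat_lit 0x2003011015000400602202a540) k51 k52))) (.br (nat_lit 0x3006011015000600c02202a540) (.br (nat_lit 0x3000011015000600002202a311) (.br (nat_lit 0x2006011015000400c02202a540) k53 k54) (.br (nat_lit 0x3004011015000600802202a540)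 k55 k56)) (.br (nat_lit 0x5000011015000a00002202a311) (.br (nat_lit 0x4005011015000800a02202a540) k57 k58) (.br (nat_lit 0x4000003011015800000602202a411) k59 (.br (nat_lit 0xa000007011015400000e02212c411) k60 k61)))))
noncomputable def u2 : KT := (.one (nat_lit 0x11015000000002202a320))
def w2 : u2.all (wj 57 s2) = true := by decide +kernel
def o2 : OkW 57 (jb2 57 fl) u2 := .lift s2 _ (.br _ _ _ (.br _ _ _ (.br _ _ _ (.br _ _ _ (.leaf b0 k45 t45) (.leaf b0 k46 t46)) (.br _ _ _ (.leaf b0 k47 t47) (.leaf b0 k48 t48))) (.br _ _ _ (.br _ _ _ (.leaf b0 k49 t49) (.leaf b0 k50 t50)) (.br _ _ _ (.leaf b0 k51 t51) (.leaf b0 k52 t52)))) (.br _ _ _ (.br _ _ _ (.br _ _ _ (.leaf b0 k53 t53) (.leaf b0 k54 t54)) (.br _ _ _ (.leaf b0 k55 t55) (.leaf b0 k56 t56))) (.br _ _ _ (.br _ _ _ (.leaf b0 k57 t57) (.leaf b0 k58 t58)) (.br _ _ _ (.leaf b0 k59 t59) (.br _ _ _ (.leaf b0 k60 t60) (.leaf b0 k61 t61)))))) w2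
noncomputable def k62 : KT := (.br (Nat.shiftLeft (nat_lit 0x1011017) (nat_lit 64)) (.br (Nat.shiftLeft (nat_lit 0x11017) (nat_lit 64)) (.one (nat_lit 0x11016000000002202d300)) (.br (Nat.shiftLeft (nat_lit 0x1) (nat_lit 88)) (.one (nat_lit 0x11017000000002202f300)) (.one (nat_lit 0x1011016000000202202c430)))) (.br (Nat.shiftLeft (nat_lit 0x2011017) (nat_lit 64)) (.br (Nat.shiftLeft (nat_lit 0x1) (nat_lit 89)) (.one (nat_lit 0x1011017000000202202e430)) (.one (nat_lit 0x2011016000000402202c430))) (.br (Nat.shiftLeft (nat_lit 0x3) (nat_lit 88)) (.one (nat_lit 0x2011017000000402202e430)) (.one (nat_lit 0x3011016000000602202d400)))))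
def t62 : k62.all (jb2 57 fl b0) = true := by decide +kernel
noncomputable def k63 : KT := (.br (Nat.shiftLeft (nat_lit 0x5) (nat_lit 88)) (.br (Nat.shiftLeft (nat_lit 0x1) (nat_lit 90)) (.one (nat_lit 0x3011017000000602202e430)) (.br (Nat.shiftLeft (nat_lit 0x4011017) (nat_lit 64)) (.one (nat_lit 0x4011016000000802202d400)) (.one (nat_lit 0x4011017000000802202f400)))) (.br (Nat.shiftLeft (nat_lit 0x5011017) (nat_lit 64)) (.one (nat_lit 0x5011016000000a02202d400)) (.br (Nat.shiftLeft (nat_lit 0x3) (nat_lit 89)) (.one (nat_lit 0x5011017000000a02202f400)) (.one (nat_lit 0x6011016000000c02202d400)))))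
def t63 : k63.all (jb2 57 fl b0) = true := by decide +kernel
noncomputable def k64 : KT := (.br (Nat.shiftLeft (nat_lit 0x7) (nat_lit 88)) (.one (nat_lit 0x6011017000000c02202e430)) (.one (nat_lit 0x7011016000000e02202d400)))
def t64 : k64.all (jb2 57 fl b0) = true := by decide +kernel
noncomputable def k65 : KT := (.one (nat_lit 0x7011017000000e02202e430))
def t65 : k65.all (jb2 57 fl b0) = true := by decide +kernel
noncomputable def k66 : KT := (.one (nat_lit 0x8011016000001002202c430))
def t66 : k66.all (jb2 57 fl b0) = true := by decide +kernel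
noncomputable def k67 : KT := (.br (Nat.shiftLeft (nat_lit 0x9) (nat_lit 88)) (.one (nat_lit 0x8011017000001002202e430)) (.one (nat_lit 0x9011016000001202202c430)))
def t67 : k67.all (jb2 57 fl b0) = true := by decide +kernel
noncomputable def k68 : KT := (.br (Nat.shiftLeft (nat_lit 0x5) (nat_lit 89)) (.one (nat_lit 0x9011017000001202202e430)) (.br (Nat.shiftLeft (nat_lit 0xa011017) (nat_lit 64)) (.one (nat_lit 0xa011016000001402202c430)) (.one (nat_lit 0xa011017000001402202e430))))
def t68 : k68.all (jb2 57 fl b0) = true := by decide +kernel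
noncomputable def k69 : KT := (.br (Nat.shiftLeft (nat_lit 0xe011017) (nat_lit 64)) (.br (Nat.shiftLeft (nat_lit 0xc011017) (nat_lit 64)) (.br (Nat.shiftLeft (nat_lit 0xb011017) (nat_lit 64)) (.one (nat_lit 0xb011016000001602202c430)) (.br (Nat.shiftLeft (nat_lit 0x3) (nat_lit 90)) (.one (nat_lit 0xb011017000001602202e430)) (.one (nat_lit 0xc011016000001802202c430)))) (.br (Nat.shiftLeft (nat_lit 0xd011017) (nat_lit 64)) (.br (Nat.shiftLeft (nat_lit 0xd) (nat_lit 88)) (.one (nat_lit 0xc011017000001802202e430)) (.one (nat_lit 0xd011016000001a02202c430))) (.br (Nat.shiftLeft (nat_lit 0x7) (nat_lit 89)) (.one (nat_lit 0xd011017000001a02202e430)) (.one (nat_lit 0xe011016000001c02202c430))))) (.br (Nat.shiftLeft (nat_lit 0x1) (nat_lit 92)) (.br (Nat.shiftLeft (nat_lit 0xf) (nat_lit 88)) (.one (nat_lit 0xe011017000001c02202e430)) (.br (Nat.shiftLeft (nat_lit 0xf011017) (nat_lit 64)) (.one (nat_lit 0xf011016000001e02202c430)) (.one (nat_lit 0xf011017000001e02202e430)))) (.br (Nat.shiftLeft (nat_lit 0x1) (nat_lit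 100)) (.br (Nat.shiftLeft (nat_lit 0x10011017) (nat_lit 64)) (.one (nat_lit 0x10011016000002002202c430)) (.one (nat_lit 0x10011017000002002202e430))) (.br (Nat.shiftLeft (nat_lit 0x1000011017) (nat_lit 64)) (.one (nat_lit 0x1000011016000200002202c311)) (.one (nat_lit 0x1000011017000200002202e311))))))
def t69 : k69.all (jb2 57 fl b0) = true := by decide +kernel
noncomputable def k70 : KT := (.br (Nat.shiftLeft (nat_lit 0x401) (nat_lit 90)) (.one (nat_lit 0x1003011016000200602202c540)) (.br (Nat.shiftLeft (nat_lit 0x1004011017) (nat_lit 64)) (.one (nat_lit 0x1004011016000200802202c540)) (.one (nat_lit 0x1004011017000200802202e540))))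
def t70 : k70.all (jb2 57 fl b0) = true := by decide +kernel
noncomputable def k71 : KT := (.br (Nat.shiftLeft (nat_lit 0x1007) (nat_lit 88)) (.br (Nat.shiftLeft (nat_lit 0x1005011017) (nat_lit 64)) (.one (nat_lit 0x1005011016000200a02202c540)) (.br (Nat.shiftLeft (nat_lit 0x803) (nat_lit 89)) (.one (nat_lit 0x1005011017000200a02202e540)) (.one (nat_lit 0x1006011016000200c02202c540)))) (.br (Nat.shiftLeft (nat_lit 0x1) (nat_lit 101)) (.one (nat_lit 0x1007011016000200e02202c540)) (.br (Nat.shiftLeft (nat_lit 0x2000011017) (nat_lit 64)) (.one (nat_lit 0x2000011016000400002202c311)) (.one (nat_lit 0x2000011017000400002202e311)))))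
def t71 : k71.all (jb2 57 fl b0) = true := by decide +kernel
noncomputable def k72 : KT := (.one (nat_lit 0x2003011016000400602202c540))
def t72 : k72.all (jb2 57 fl b0) = true := by decide +kernel
noncomputable def k73 : KT := (.br (Nat.shiftLeft (nat_lit 0x2004011017) (nat_lit 64)) (.one (nat_lit 0x2004011016000400802202c540)) (.one (nat_lit 0x2004011017000400802202e540)))
def t73 : k73.all (jb2 57 fl b0) = true := by decide +kernel
noncomputable def k74 : KT := (.br (Nat.shiftLeft (nat_lit 0x2005011017) (nat_lit 64)) (.one (nat_lit 0x2005011016000400a02202c540)) (.br (Nat.shiftLeft (nat_lit 0x1003) (nat_lit 89)) (.one (nat_lit 0x2005011017000400a02202e540)) (.one (nat_lit 0x2006011016000400c02202c540))))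
def t74 : k74.all (jb2 57 fl b0) = true := by decide +kernel
noncomputable def k75 : KT := (.br (Nat.shiftLeft (nat_lit 0x3000011017) (nat_lit 64)) (.br (Nat.shiftLeft (nat_lit 0x3) (nat_lit 100)) (.one (nat_lit 0x2007011016000400e02202c540)) (.one (nat_lit 0x3000011016000600002202c311))) (.br (Nat.shiftLeft (nat_lit 0xc01) (nat_lit 90)) (.one (nat_lit 0x3000011017000600002202e311)) (.one (nat_lit 0x3004011016000600802202c540))))
def t75 : k75.all (jb2 57 fl b0) = true := by decide +kernel
noncomputable def k76 : KT := (.br (Nat.shiftLeft (nat_lit 0x3005) (nat_lit 88)) (.one (nat_lit 0x3004011017000600802202e540)) (.one (nat_lit 0x3005011016000600a02202c540)))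
def t76 : k76.all (jb2 57 fl b0) = true := by decide +kernel
noncomputable def k77 : KT := (.br (Nat.shiftLeft (nat_lit 0x3007) (nat_lit 88)) (.br (Nat.shiftLeft (nat_lit 0x1803) (nat_lit 89)) (.one (nat_lit 0x3005011017000600a02202e540)) (.one (nat_lit 0x3006011016000600c02202c540))) (.br (Nat.shiftLeft (nat_lit 0x1) (nat_lit 102)) (.one (nat_lit 0x3007011016000600e02202c540)) (.br (Nat.shiftLeft (nat_lit 0x4000011017) (nat_lit 64)) (.one (nat_lit 0x4000011016000800002202c311)) (.one (nat_lit 0x4000011017000800002202e311)))))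
def t77 : k77.all (jb2 57 fl b0) = true := by decide +kernel
noncomputable def k78 : KT := (.br (Nat.shiftLeft (nat_lit 0x4005011017) (nat_lit 64)) (.one (nat_lit 0x4005011016000800a02202c540)) (.br (Nat.shiftLeft (nat_lit 0x2003) (nat_lit 89)) (.one (nat_lit 0x4005011017000800a02202e540)) (.one (nat_lit 0x4006011016000800c02202c540))))
def t78 : k78.all (jb2 57 fl b0) = true := by decide +kernel
noncomputable def k79 : KT := (.br (Nat.shiftLeft (nat_lit 0xd) (nat_lit 100)) (.br (Nat.shiftLeft (nat_lit 0x1) (nat_lit 103)) (.br (Nat.shiftLeft (nat_lit 0x3) (nat_lit 101)) (.br (Nat.shiftLeft (nat_lit 0x5000011017) (nat_lit 64)) (.br (Nat.shiftLeft (nat_lit 0x5) (nat_lit 100)) (.one (nat_lit 0x4007011016000800e02202c540)) (.one (nat_lit 0x5000011016000a00002202c311))) (.br (Nat.shiftLeft (nat_lit 0x1401) (nat_lit 90)) (.one (nat_lit 0x5000011017000a00002202e311)) (.br (Nat.shiftLeft (nat_lit 0x5007) (nat_lit 88)) (.one (nat_lit 0x5006011016000a00c02202c540)) (.one (nat_lit 0x5007011016000a00e02202c540)))))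 (.br (Nat.shiftLeft (nat_lit 0x1801) (nat_lit 90)) (.br (Nat.shiftLeft (nat_lit 0x6000011017) (nat_lit 64)) (.one (nat_lit 0x6000011016000c00002202c311)) (.one (nat_lit 0x6000011017000c00002202e311))) (.br (Nat.shiftLeft (nat_lit 0x7) (nat_lit 100)) (.one (nat_lit 0x6007011016000c00e02202c540)) (.br (Nat.shiftLeft (nat_lit 0x7000011017) (nat_lit 64)) (.one (nat_lit 0x7000011016000e00002202c311)) (.one (nat_lit 0x7000011017000e00002202e311)))))) (.br (Nat.shiftLeft (nat_lit 0xa000011017) (nat_lit 64)) (.br (Nat.shiftLeft (nat_lit 0x9) (nat_lit 100)) (.br (Nat.shiftLeft (nat_lit 0x8000011017) (nat_lit 64)) (.one (nat_lit 0x8000011016001000002202c311)) (.one (nat_lit 0x8000011017001000002202e311))) (.br (Nat.shiftLeft (nat_lit 0x9000011017) (nat_lit 64)) (.one (nat_lit 0x9000011016001200002202c311)) (.br (Nat.shiftLeft (nat_lit 0x5) (nat_lit 101)) (.one (nat_lit 0x9000011017001200002202e311)) (.one (nat_lit 0xa000011016001400002202c311))))) (.br (Nat.shiftLeft (nat_lit 0xb000011017) (nat_lit 64)) (.br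 (Nat.shiftLeft (nat_lit 0xb) (nat_lit 100)) (.one (nat_lit 0xa000011017001400002202e311)) (.one (nat_lit 0xb000011016001600002202c311))) (.br (Nat.shiftLeft (nat_lit 0x3) (nat_lit 102)) (.one (nat_lit 0xb000011017001600002202e311)) (.br (Nat.shiftLeft (nat_lit 0xc000011017) (nat_lit 64)) (.one (nat_lit 0xc000011016001800002202c311)) (.one (nat_lit 0xc000011017001800002202e311))))))) (.br (Nat.shiftLeft (nat_lit 0x1) (nat_lit 112)) (.br (Nat.shiftLeft (nat_lit 0xf000011017) (nat_lit 64)) (.br (Nat.shiftLeft (nat_lit 0x7) (nat_lit 101)) (.br (Nat.shiftLeft (nat_lit 0xd000011017) (nat_lit 64)) (.one (nat_lit 0xd000011016001a00002202c311)) (.one (nat_lit 0xd000011017001a00002202e311))) (.br (Nat.shiftLeft (nat_lit 0xe000011017) (nat_lit 64)) (.one (nat_lit 0xe000011016001c00002202c311)) (.br (Nat.shiftLeft (nat_lit 0xf) (nat_lit 100)) (.one (nat_lit 0xe000011017001c00002202e311)) (.one (nat_lit 0xf000011016001e00002202c311))))) (.br (Nat.shiftLeft (nat_lit 0x10000011017) (nat_lit 64)) (.br (Nat.shiftLeft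 (nat_lit 0x1) (nat_lit 104)) (.one (nat_lit 0xf000011017001e00002202e311)) (.one (nat_lit 0x10000011016002000002202c311))) (.br (Nat.shiftLeft (nat_lit 0x11) (nat_lit 100)) (.one (nat_lit 0x10000011017002000002202e311)) (.br (Nat.shiftLeft (nat_lit 0x11000011017) (nat_lit 64)) (.one (nat_lit 0x11000011016002200002202c311)) (.one (nat_lit 0x11000011017002200002202e311)))))) (.br (Nat.shiftLeft (nat_lit 0x800003) (nat_lit 89)) (.br (Nat.shiftLeft (nat_lit 0x1000004011017) (nat_lit 64)) (.br (Nat.shiftLeft (nat_lit 0x400001) (nat_lit 90)) (.one (nat_lit 0x1000003011016200000602202c411)) (.one (nat_lit 0x1000004011016200000802202c411))) (.br (Nat.shiftLeft (nat_lit 0x1000005) (nat_lit 88)) (.one (nat_lit 0x1000004011017200000802202e411)) (.br (Nat.shiftLeft (nat_lit 0x1000005011017) (nat_lit 64)) (.one (nat_lit 0x1000005011016200000a02202c411)) (.one (nat_lit 0x1000005011017200000a02202e411))))) (.br (Nat.shiftLeft (nat_lit 0x1) (nat_lit 113)) (.br (Nat.shiftLeft (nat_lit 0x1000007) (nat_lit 88)) (.one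 (nat_lit 0x1000006011016200000c02202c411)) (.one (nat_lit 0x1000007011016200000e02202c411))) (.br (Nat.shiftLeft (nat_lit 0x800001) (nat_lit 90)) (.one (nat_lit 0x2000003011016400000602202c411)) (.br (Nat.shiftLeft (nat_lit 0x2000004011017) (nat_lit 64)) (.one (nat_lit 0x2000004011016400000802202c411)) (.one (nat_lit 0x2000004011017400000802202e411))))))))
def t79 : k79.all (jb2 57 fl b0) = true := by decide +kernel
noncomputable def k80 : KT := (.br (Nat.shiftLeft (nat_lit 0x5000004011017) (nat_lit 64)) (.br (Nat.shiftLeft (nat_lit 0x3000007) (nat_lit 88)) (.br (Nat.shiftLeft (nat_lit 0xc00001) (nat_lit 90)) (.br (Nat.shiftLeft (nat_lit 0x1000003) (nat_lit 89)) (.br (Nat.shiftLeft (nat_lit 0x2000005011017) (nat_lit 64)) (.one (nat_lit 0x2000005011016400000a02202c411)) (.one (nat_lit 0x2000005011017400000a02202e411))) (.br (Nat.shiftLeft (nat_lit 0x2000007) (nat_lit 88)) (.one (nat_lit 0x2000006011016400000c02202c411)) (.br (Nat.shiftLeft (nat_lit 0x3) (nat_lit 112)) (.one (nat_lit 0x2000007011016400000e02202c411))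 (.one (nat_lit 0x3000003011016600000602202c411))))) (.br (Nat.shiftLeft (nat_lit 0x3000005) (nat_lit 88)) (.br (Nat.shiftLeft (nat_lit 0x3000004011017) (nat_lit 64)) (.one (nat_lit 0x3000004011016600000802202c411)) (.one (nat_lit 0x3000004011017600000802202e411))) (.br (Nat.shiftLeft (nat_lit 0x3000005011017) (nat_lit 64)) (.one (nat_lit 0x3000005011016600000a02202c411)) (.br (Nat.shiftLeft (nat_lit 0x1800003) (nat_lit 89)) (.one (nat_lit 0x3000005011017600000a02202e411)) (.one (nat_lit 0x3000006011016600000c02202c411)))))) (.br (Nat.shiftLeft (nat_lit 0x4000005011017) (nat_lit 64)) (.br (Nat.shiftLeft (nat_lit 0x1000001) (nat_lit 90)) (.br (Nat.shiftLeft (nat_lit 0x1) (nat_lit 114)) (.one (nat_lit 0x3000007011016600000e02202c411)) (.one (nat_lit 0x4000003011016800000602202c411))) (.br (Nat.shiftLeft (nat_lit 0x4000004011017) (nat_lit 64)) (.one (nat_lit 0x4000004011016800000802202c411)) (.br (Nat.shiftLeft (nat_lit 0x4000005) (nat_lit 88)) (.one (nat_lit 0x4000004011017800000802202e411)) (.one (nat_lit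 0x4000005011016800000a02202c411))))) (.br (Nat.shiftLeft (nat_lit 0x4000007) (nat_lit 88)) (.br (Nat.shiftLeft (nat_lit 0x2000003) (nat_lit 89)) (.one (nat_lit 0x4000005011017800000a02202e411)) (.one (nat_lit 0x4000006011016800000c02202c411))) (.br (Nat.shiftLeft (nat_lit 0x5) (nat_lit 112)) (.one (nat_lit 0x4000007011016800000e02202c411)) (.br (Nat.shiftLeft (nat_lit 0x1400001) (nat_lit 90)) (.one (nat_lit 0x5000003011016a00000602202c411)) (.one (nat_lit 0x5000004011016a00000802202c411))))))) (.br (Nat.shiftLeft (nat_lit 0x3000003) (nat_lit 89)) (.br (Nat.shiftLeft (nat_lit 0x3) (nat_lit 113)) (.br (Nat.shiftLeft (nat_lit 0x5000005011017) (nat_lit 64)) (.br (Nat.shiftLeft (nat_lit 0x5000005) (nat_lit 88)) (.one (nat_lit 0x5000004011017a00000802202e411)) (.one (nat_lit 0x5000005011016a00000a02202c411))) (.br (Nat.shiftLeft (nat_lit 0x2800003) (nat_lit 89)) (.one (nat_lit 0x5000005011017a00000a02202e411)) (.br (Nat.shiftLeft (nat_lit 0x5000007) (nat_lit 88)) (.one (nat_lit 0x5000006011016a00000c02202c411))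 (.one (nat_lit 0x5000007011016a00000e02202c411))))) (.br (Nat.shiftLeft (nat_lit 0x6000004011017) (nat_lit 64)) (.br (Nat.shiftLeft (nat_lit 0x1800001) (nat_lit 90)) (.one (nat_lit 0x6000003011016c00000602202c411)) (.one (nat_lit 0x6000004011016c00000802202c411))) (.br (Nat.shiftLeft (nat_lit 0x6000005) (nat_lit 88)) (.one (nat_lit 0x6000004011017c00000802202e411)) (.br (Nat.shiftLeft (nat_lit 0x6000005011017) (nat_lit 64)) (.one (nat_lit 0x6000005011016c00000a02202c411)) (.one (nat_lit 0x6000005011017c00000a02202e411)))))) (.br (Nat.shiftLeft (nat_lit 0x7000005) (nat_lit 88)) (.br (Nat.shiftLeft (nat_lit 0x7) (nat_lit 112)) (.br (Nat.shiftLeft (nat_lit 0x6000007) (nat_lit 88)) (.one (nat_lit 0x6000006011016c00000c02202c411)) (.one (nat_lit 0x6000007011016c00000e02202c411))) (.br (Nat.shiftLeft (nat_lit 0x1c00001) (nat_lit 90)) (.one (nat_lit 0x7000003011016e00000602202c411)) (.br (Nat.shiftLeft (nat_lit 0x7000004011017) (nat_lit 64)) (.one (nat_lit 0x7000004011016e00000802202c411)) (.one (nat_lit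 0x7000004011017e00000802202e411))))) (.br (Nat.shiftLeft (nat_lit 0x3800003) (nat_lit 89)) (.br (Nat.shiftLeft (nat_lit 0x7000005011017) (nat_lit 64)) (.one (nat_lit 0x7000005011016e00000a02202c411)) (.one (nat_lit 0x7000005011017e00000a02202e411))) (.br (Nat.shiftLeft (nat_lit 0x7000007) (nat_lit 88)) (.one (nat_lit 0x7000006011016e00000c02202c411)) (.br (Nat.shiftLeft (nat_lit 0x1) (nat_lit 115)) (.one (nat_lit 0x7000007011016e00000e02202c411)) (.one (nat_lit 0x8000003011016000000602212e411))))))))
def t80 : k80.all (jb2 57 fl b0) = true := by decide +kernel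
noncomputable def k81 : KT := (.br (Nat.shiftLeft (nat_lit 0xb) (nat_lit 112)) (.br (Nat.shiftLeft (nat_lit 0x9000005011017) (nat_lit 64)) (.br (Nat.shiftLeft (nat_lit 0x8000007) (nat_lit 88)) (.br (Nat.shiftLeft (nat_lit 0x8000005) (nat_lit 88)) (.br (Nat.shiftLeft (nat_lit 0x8000004011017) (nat_lit 64)) (.one (nat_lit 0x8000004011016000000802212e411)) (.one (nat_lit 0x80000040110170000008022130411))) (.br (Nat.shiftLeft (nat_lit 0x8000005011017) (nat_lit 64)) (.one (nat_lit 0x8000005011016000000a02212e411)) (.br (Nat.shiftLeft (nat_lit 0x4000003) (nat_lit 89)) (.one (nat_lit 0x8000005011017000000a022130411)) (.one (nat_lit 0x8000006011016000000c02212e411))))) (.br (Nat.shiftLeft (nat_lit 0x2400001) (nat_lit 90)) (.br (Nat.shiftLeft (nat_lit 0x9) (nat_lit 112)) (.one (nat_lit 0x8000007011016000000e02212e411)) (.one (nat_lit 0x9000003011016200000602212e411))) (.br (Nat.shiftLeft (nat_lit 0x9000004011017) (nat_lit 64)) (.one (nat_lit 0x9000004011016200000802212e411)) (.br (Nat.shiftLeft (nat_lit 0x9000005)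 (nat_lit 88)) (.one (nat_lit 0x90000040110172000008022130411)) (.one (nat_lit 0x9000005011016200000a02212e411)))))) (.br (Nat.shiftLeft (nat_lit 0xa000004011017) (nat_lit 64)) (.br (Nat.shiftLeft (nat_lit 0x9000007) (nat_lit 88)) (.br (Nat.shiftLeft (nat_lit 0x4800003) (nat_lit 89)) (.one (nat_lit 0x9000005011017200000a022130411)) (.one (nat_lit 0x9000006011016200000c02212e411))) (.br (Nat.shiftLeft (nat_lit 0x5) (nat_lit 113)) (.one (nat_lit 0x9000007011016200000e02212e411)) (.br (Nat.shiftLeft (nat_lit 0x2800001) (nat_lit 90)) (.one (nat_lit 0xa000003011016400000602212e411)) (.one (nat_lit 0xa000004011016400000802212e411))))) (.br (Nat.shiftLeft (nat_lit 0xa000005011017) (nat_lit 64)) (.br (Nat.shiftLeft (nat_lit 0xa000005) (nat_lit 88)) (.one (nat_lit 0xa0000040110174000008022130411)) (.one (nat_lit 0xa000005011016400000a02212e411))) (.br (Nat.shiftLeft (nat_lit 0x5000003) (nat_lit 89)) (.one (nat_lit 0xa000005011017400000a022130411)) (.br (Nat.shiftLeft (nat_lit 0xa000007) (nat_lit 88)) (.one (nat_lit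 0xa000006011016400000c02212e411)) (.one (nat_lit 0xa000007011016400000e02212e411))))))) (.br (Nat.shiftLeft (nat_lit 0xc000005) (nat_lit 88)) (.br (Nat.shiftLeft (nat_lit 0x5800003) (nat_lit 89)) (.br (Nat.shiftLeft (nat_lit 0xb000004011017) (nat_lit 64)) (.br (Nat.shiftLeft (nat_lit 0x2c00001) (nat_lit 90)) (.one (nat_lit 0xb000003011016600000602212e411)) (.one (nat_lit 0xb000004011016600000802212e411))) (.br (Nat.shiftLeft (nat_lit 0xb000005) (nat_lit 88)) (.one (nat_lit 0xb0000040110176000008022130411)) (.br (Nat.shiftLeft (nat_lit 0xb000005011017) (nat_lit 64)) (.one (nat_lit 0xb000005011016600000a02212e411)) (.one (nat_lit 0xb000005011017600000a022130411))))) (.br (Nat.shiftLeft (nat_lit 0x3) (nat_lit 114)) (.br (Nat.shiftLeft (nat_lit 0xb000007) (nat_lit 88)) (.one (nat_lit 0xb000006011016600000c02212e411)) (.one (nat_lit 0xb000007011016600000e02212e411))) (.br (Nat.shiftLeft (nat_lit 0x3000001) (nat_lit 90)) (.one (nat_lit 0xc000003011016800000602212e411)) (.br (Nat.shiftLeft (nat_lit 0xc000004011017)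 (nat_lit 64)) (.one (nat_lit 0xc000004011016800000802212e411)) (.one (nat_lit 0xc0000040110178000008022130411)))))) (.br (Nat.shiftLeft (nat_lit 0xd000004011017) (nat_lit 64)) (.br (Nat.shiftLeft (nat_lit 0x6000003) (nat_lit 89)) (.br (Nat.shiftLeft (nat_lit 0xc000005011017) (nat_lit 64)) (.one (nat_lit 0xc000005011016800000a02212e411)) (.one (nat_lit 0xc000005011017800000a022130411))) (.br (Nat.shiftLeft (nat_lit 0xd) (nat_lit 112)) (.one (nat_lit 0xc000006011016800000c02212e411)) (.br (Nat.shiftLeft (nat_lit 0x3400001) (nat_lit 90)) (.one (nat_lit 0xd000003011016a00000602212e411)) (.one (nat_lit 0xd000004011016a00000802212e411))))) (.br (Nat.shiftLeft (nat_lit 0x7) (nat_lit 113)) (.br (Nat.shiftLeft (nat_lit 0xd000005) (nat_lit 88)) (.one (nat_lit 0xd000004011017a000008022130411)) (.one (nat_lit 0xd000005011016a00000a02212e411))) (.br (Nat.shiftLeft (nat_lit 0x3800001) (nat_lit 90)) (.one (nat_lit 0xe000003011016c00000602212e411)) (.br (Nat.shiftLeft (nat_lit 0xf) (nat_lit 112)) (.one (nat_lit 0xe000004011016c00000802212e411))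 (.one (nat_lit 0xf000003011016e00000602212e411))))))))
def t81 : k81.all (jb2 57 fl b0) = true := by decide +kernel
noncomputable def s3 : KT := (.br (nat_lit 0x2000011017000400002202e311) (.br (nat_lit 0x8011016000001002202c430) (.br (nat_lit 0x6011016000000c02202d400) (.br (nat_lit 0x3011016000000602202d400) k62 k63) (.br (nat_lit 0x7011016000000e02202d400) k64 (.br (nat_lit 0x7011017000000e02202e430) k65 k66))) (.br (nat_lit 0xa011017000001402202e430) (.br (nat_lit 0x9011016000001202202c430) k67 k68) (.br (nat_lit 0x1000011017000200002202e311) k69 (.br (nat_lit 0x1004011017000200802202e540) k70 k71)))) (.br (nat_lit 0x3005011016000600a02202c540) (.br (nat_lit 0x2004011017000400802202e540) (.br (nat_lit 0x2003011016000400602202c540) k72 k73) (.br (nat_lit 0x2006011016000400c02202c540) k74 (.br (nat_lit 0x3004011016000600802202c540) k75 k76))) (.br (nat_lit 0x4006011016000800c02202c540) (.br (nat_lit 0x4000011017000800002202e311) k77 k78) (.br (nat_lit 0x2000004011017400000802202e411) k79 (.br (nat_lit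 0x8000003011016000000602212e411) k80 k81)))))
noncomputable def u3 : KT := (.br (Nat.shiftLeft (nat_lit 0x11017) (nat_lit 64)) (.one (nat_lit 0x11016000000002202c320)) (.one (nat_lit 0x11017000000002202e320)))
def w3 : u3.all (wj 57 s3) = true := by decide +kernel
def o3 : OkW 57 (jb2 57 fl) u3 := .lift s3 _ (.br _ _ _ (.br _ _ _ (.br _ _ _ (.br _ _ _ (.leaf b0 k62 t62) (.leaf b0 k63 t63)) (.br _ _ _ (.leaf b0 k64 t64) (.br _ _ _ (.leaf b0 k65 t65) (.leaf b0 k66 t66)))) (.br _ _ _ (.br _ _ _ (.leaf b0 k67 t67) (.leaf b0 k68 t68)) (.br _ _ _ (.leaf b0 k69 t69) (.br _ _ _ (.leaf b0 k70 t70) (.leaf b0 k71 t71))))) (.br _ _ _ (.br _ _ _ (.br _ _ _ (.leaf b0 k72 t72) (.leaf b0 k73 t73)) (.br _ _ _ (.leaf b0 k74 t74) (.br _ _ _ (.leaf b0 k75 t75) (.leaf b0 k76 t76)))) (.br _ _ _ (.br _ _ _ (.leaf b0 k77 t77) (.leaf b0 k78 t78)) (.br _ _ _ (.leaf b0 k79 t79) (.br _ _ _ (.leaf b0 k80 t80) (.leaf b0 k81 t81)))))) w3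
noncomputable def k82 : KT := (.br (Nat.shiftLeft (nat_lit 0x1101b) (nat_lit 64)) (.br (Nat.shiftLeft (nat_lit 0x11019) (nat_lit 64)) (.one (nat_lit 0x110180000000022031300)) (.br (Nat.shiftLeft (nat_lit 0x880d) (nat_lit 65)) (.one (nat_lit 0x110190000000022033300)) (.one (nat_lit 0x1101a0000000022035300)))) (.br (Nat.shiftLeft (nat_lit 0x4407) (nat_lit 66)) (.one (nat_lit 0x1101b0000000022037300)) (.br (Nat.shiftLeft (nat_lit 0x1101d) (nat_lit 64)) (.one (nat_lit 0x1101c0000000022039300)) (.one (nat_lit 0x1101d000000002203a320)))))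
def t82 : k82.all (jb2 57 fl b0) = true := by decide +kernel
noncomputable def k83 : KT := (.br (Nat.shiftLeft (nat_lit 0x1101f) (nat_lit 64)) (.one (nat_lit 0x1101e000000002203c320)) (.one (nat_lit 0x1101f000000002203e320)))
def t83 : k83.all (jb2 57 fl b0) = true := by decide +kernel
noncomputable def k84 : KT := (.br (Nat.shiftLeft (nat_lit 0x1011019) (nat_lit 64)) (.br (Nat.shiftLeft (nat_lit 0x11021) (nat_lit 64)) (.one (nat_lit 0x110200000000022040320)) (.br (Nat.shiftLeft (nat_lit 0x1) (nat_lit 88)) (.one (nat_lit 0x110210000000022042320)) (.one (nat_lit 0x10110180000002022030430)))) (.br (Nat.shiftLeft (nat_lit 0x101101b) (nat_lit 64)) (.br (Nat.shiftLeft (nat_lit 0x80880d) (nat_lit 65)) (.one (nat_lit 0x10110190000002022032430)) (.one (nat_lit 0x101101a0000002022034430))) (.br (Nat.shiftLeft (nat_lit 0x404407) (nat_lit 66)) (.one (nat_lit 0x101101b0000002022036430)) (.one (nat_lit 0x101101c0000002022038430)))))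
def t84 : k84.all (jb2 57 fl b0) = true := by decide +kernel
noncomputable def k85 : KT := (.br (Nat.shiftLeft (nat_lit 0x2011019) (nat_lit 64)) (.one (nat_lit 0x20110180000004022030430)) (.br (Nat.shiftLeft (nat_lit 0x100880d) (nat_lit 65)) (.one (nat_lit 0x20110190000004022032430)) (.one (nat_lit 0x201101a0000004022034430))))
def t85 : k85.all (jb2 57 fl b0) = true := by decide +kernel
noncomputable def k86 : KT := (.br (Nat.shiftLeft (nat_lit 0x804407) (nat_lit 66)) (.one (nat_lit 0x201101b0000004022036430)) (.one (nat_lit 0x201101c0000004022038430)))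
def t86 : k86.all (jb2 57 fl b0) = true := by decide +kernel
noncomputable def k87 : KT := (.one (nat_lit 0x30110180000006022030430))
def t87 : k87.all (jb2 57 fl b0) = true := by decide +kernel
noncomputable def k88 : KT := (.one (nat_lit 0x30110190000006022032430))
def t88 : k88.all (jb2 57 fl b0) = true := by decide +kernel
noncomputable def k89 : KT := (.br (Nat.shiftLeft (nat_lit 0x301101b) (nat_lit 64)) (.one (nat_lit 0x301101a0000006022034430)) (.one (nat_lit 0x301101b0000006022036430)))
def t89 : k89.all (jb2 57 fl b0) = true := by decide +kernel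
noncomputable def k90 : KT := (.one (nat_lit 0x301101c0000006022038430))
def t90 : k90.all (jb2 57 fl b0) = true := by decide +kernel
noncomputable def k91 : KT := (.one (nat_lit 0x40110180000008022030430))
def t91 : k91.all (jb2 57 fl b0) = true := by decide +kernel
noncomputable def k92 : KT := (.one (nat_lit 0x40110190000008022032430))
def t92 : k92.all (jb2 57 fl b0) = true := by decide +kernel
noncomputable def k93 : KT := (.br (Nat.shiftLeft (nat_lit 0x401101b) (nat_lit 64)) (.one (nat_lit 0x401101a0000008022034430)) (.one (nat_lit 0x401101b0000008022036430)))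
def t93 : k93.all (jb2 57 fl b0) = true := by decide +kernel
noncomputable def k94 : KT := (.one (nat_lit 0x401101c0000008022038430))
def t94 : k94.all (jb2 57 fl b0) = true := by decide +kernel
noncomputable def k95 : KT := (.one (nat_lit 0x5011018000000a022030430))
def t95 : k95.all (jb2 57 fl b0) = true := by decide +kernel
noncomputable def k96 : KT := (.br (Nat.shiftLeft (nat_lit 0x280880d) (nat_lit 65)) (.one (nat_lit 0x5011019000000a022032430)) (.one (nat_lit 0x501101a000000a022034430)))
def t96 : k96.all (jb2 57 fl b0) = true := by decide +kernel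
noncomputable def k97 : KT := (.br (Nat.shiftLeft (nat_lit 0x1404407) (nat_lit 66)) (.one (nat_lit 0x501101b000000a022036430)) (.one (nat_lit 0x501101c000000a022038430)))
def t97 : k97.all (jb2 57 fl b0) = true := by decide +kernel
noncomputable def k98 : KT := (.one (nat_lit 0x6011018000000c022030430))
def t98 : k98.all (jb2 57 fl b0) = true := by decide +kernel
noncomputable def k99 : KT := (.br (Nat.shiftLeft (nat_lit 0x300880d) (nat_lit 65)) (.one (nat_lit 0x6011019000000c022032430)) (.br (Nat.shiftLeft (nat_lit 0x601101b) (nat_lit 64)) (.one (nat_lit 0x601101a000000c022034430)) (.one (nat_lit 0x601101b000000c022036430))))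
def t99 : k99.all (jb2 57 fl b0) = true := by decide +kernel
noncomputable def k100 : KT := (.br (Nat.shiftLeft (nat_lit 0x7) (nat_lit 88)) (.one (nat_lit 0x601101c000000c022038430)) (.br (Nat.shiftLeft (nat_lit 0x7011019) (nat_lit 64)) (.one (nat_lit 0x7011018000000e022030430)) (.one (nat_lit 0x7011019000000e022032430))))
def t100 : k100.all (jb2 57 fl b0) = true := by decide +kernel
noncomputable def k101 : KT := (.br (Nat.shiftLeft (nat_lit 0x1c04407) (nat_lit 66)) (.br (Nat.shiftLeft (nat_lit 0x701101b) (nat_lit 64)) (.one (nat_lit 0x701101a000000e022034430)) (.one (nat_lit 0x701101b000000e022036430))) (.br (Nat.shiftLeft (nat_lit 0x1) (nat_lit 91)) (.one (nat_lit 0x701101c000000e022038430)) (.br (Nat.shiftLeft (nat_lit 0x8011019) (nat_lit 64)) (.one (nat_lit 0x80110180000010022030430)) (.one (nat_lit 0x80110190000010022032430)))))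
def t101 : k101.all (jb2 57 fl b0) = true := by decide +kernel
noncomputable def k102 : KT := (.br (Nat.shiftLeft (nat_lit 0x901101b) (nat_lit 64)) (.br (Nat.shiftLeft (nat_lit 0x9) (nat_lit 88)) (.br (Nat.shiftLeft (nat_lit 0x801101b) (nat_lit 64)) (.one (nat_lit 0x801101a0000010022034430)) (.br (Nat.shiftLeft (nat_lit 0x2004407) (nat_lit 66)) (.one (nat_lit 0x801101b0000010022036430)) (.one (nat_lit 0x801101c0000010022038430)))) (.br (Nat.shiftLeft (nat_lit 0x9011019) (nat_lit 64)) (.one (nat_lit 0x90110180000012022030430)) (.br (Nat.shiftLeft (nat_lit 0x480880d) (nat_lit 65)) (.one (nat_lit 0x90110190000012022032430)) (.one (nat_lit 0x901101a0000012022034430))))) (.br (Nat.shiftLeft (nat_lit 0xa011019) (nat_lit 64)) (.br (Nat.shiftLeft (nat_lit 0x2404407) (nat_lit 66)) (.one (nat_lit 0x901101b0000012022036430)) (.br (Nat.shiftLeft (nat_lit 0x5) (nat_lit 89)) (.one (nat_lit 0x901101c0000012022038430)) (.one (nat_lit 0xa0110180000014022030430)))) (.br (Nat.shiftLeft (nat_lit 0xa01101b) (nat_lit 64))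 (.br (Nat.shiftLeft (nat_lit 0x500880d) (nat_lit 65)) (.one (nat_lit 0xa0110190000014022032430)) (.one (nat_lit 0xa01101a0000014022034430))) (.br (Nat.shiftLeft (nat_lit 0x2804407) (nat_lit 66)) (.one (nat_lit 0xa01101b0000014022036430)) (.one (nat_lit 0xa01101c0000014022038430))))))
def t102 : k102.all (jb2 57 fl b0) = true := by decide +kernel
noncomputable def k103 : KT := (.br (Nat.shiftLeft (nat_lit 0x1) (nat_lit 100)) (.br (Nat.shiftLeft (nat_lit 0xd) (nat_lit 88)) (.br (Nat.shiftLeft (nat_lit 0x3) (nat_lit 90)) (.br (Nat.shiftLeft (nat_lit 0x580880d) (nat_lit 65)) (.br (Nat.shiftLeft (nat_lit 0xb011019) (nat_lit 64)) (.one (nat_lit 0xb0110180000016022030430)) (.one (nat_lit 0xb0110190000016022032430))) (.br (Nat.shiftLeft (nat_lit 0xb01101b) (nat_lit 64)) (.one (nat_lit 0xb01101a0000016022034430)) (.br (Nat.shiftLeft (nat_lit 0x2c04407) (nat_lit 66)) (.one (nat_lit 0xb01101b0000016022036430)) (.one (nat_lit 0xb01101c0000016022038430))))) (.br (Nat.shiftLeft (nat_lit 0x600880d) (nat_lit 65))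 (.br (Nat.shiftLeft (nat_lit 0xc011019) (nat_lit 64)) (.one (nat_lit 0xc0110180000018022030430)) (.one (nat_lit 0xc0110190000018022032430))) (.br (Nat.shiftLeft (nat_lit 0xc01101b) (nat_lit 64)) (.one (nat_lit 0xc01101a0000018022034430)) (.br (Nat.shiftLeft (nat_lit 0x3004407) (nat_lit 66)) (.one (nat_lit 0xc01101b0000018022036430)) (.one (nat_lit 0xc01101c0000018022038430)))))) (.br (Nat.shiftLeft (nat_lit 0xe011019) (nat_lit 64)) (.br (Nat.shiftLeft (nat_lit 0x680880d) (nat_lit 65)) (.br (Nat.shiftLeft (nat_lit 0xd011019) (nat_lit 64)) (.one (nat_lit 0xd011018000001a022030430)) (.one (nat_lit 0xd011019000001a022032430))) (.br (Nat.shiftLeft (nat_lit 0xd01101b) (nat_lit 64)) (.one (nat_lit 0xd01101a000001a022034430)) (.br (Nat.shiftLeft (nat_lit 0x7) (nat_lit 89)) (.one (nat_lit 0xd01101b000001a022036430)) (.one (nat_lit 0xe011018000001c022030430))))) (.br (Nat.shiftLeft (nat_lit 0xf) (nat_lit 88)) (.br (Nat.shiftLeft (nat_lit 0x700880d) (nat_lit 65)) (.one (nat_lit 0xe011019000001c022032430)) (.one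 (nat_lit 0xe01101a000001c022034430))) (.br (Nat.shiftLeft (nat_lit 0xf011019) (nat_lit 64)) (.one (nat_lit 0xf011018000001e022030430)) (.br (Nat.shiftLeft (nat_lit 0x1) (nat_lit 92)) (.one (nat_lit 0xf011019000001e022032430)) (.one (nat_lit 0x100110180000020022030430))))))) (.br (Nat.shiftLeft (nat_lit 0x3) (nat_lit 100)) (.br (Nat.shiftLeft (nat_lit 0x1) (nat_lit 101)) (.br (Nat.shiftLeft (nat_lit 0x80000880d) (nat_lit 65)) (.br (Nat.shiftLeft (nat_lit 0x1000011019) (nat_lit 64)) (.one (nat_lit 0x10000110180002000022030311)) (.one (nat_lit 0x10000110190002000022032311))) (.br (Nat.shiftLeft (nat_lit 0x100001101b) (nat_lit 64)) (.one (nat_lit 0x100001101a0002000022034311)) (.br (Nat.shiftLeft (nat_lit 0x400004407) (nat_lit 66)) (.one (nat_lit 0x100001101b0002000022036311)) (.one (nat_lit 0x100001101c0002000022038311))))) (.br (Nat.shiftLeft (nat_lit 0x100000880d) (nat_lit 65)) (.br (Nat.shiftLeft (nat_lit 0x2000011019) (nat_lit 64)) (.one (nat_lit 0x20000110180004000022030311)) (.one (nat_lit 0x20000110190004000022032311)))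 (.br (Nat.shiftLeft (nat_lit 0x200001101b) (nat_lit 64)) (.one (nat_lit 0x200001101a0004000022034311)) (.br (Nat.shiftLeft (nat_lit 0x800004407) (nat_lit 66)) (.one (nat_lit 0x200001101b0004000022036311)) (.one (nat_lit 0x200001101c0004000022038311)))))) (.br (Nat.shiftLeft (nat_lit 0x1) (nat_lit 102)) (.br (Nat.shiftLeft (nat_lit 0x180000880d) (nat_lit 65)) (.br (Nat.shiftLeft (nat_lit 0x3000011019) (nat_lit 64)) (.one (nat_lit 0x30000110180006000022030311)) (.one (nat_lit 0x30000110190006000022032311))) (.br (Nat.shiftLeft (nat_lit 0x300001101b) (nat_lit 64)) (.one (nat_lit 0x300001101a0006000022034311)) (.br (Nat.shiftLeft (nat_lit 0xc00004407) (nat_lit 66)) (.one (nat_lit 0x300001101b0006000022036311)) (.one (nat_lit 0x300001101c0006000022038311))))) (.br (Nat.shiftLeft (nat_lit 0x200000880d) (nat_lit 65)) (.br (Nat.shiftLeft (nat_lit 0x4000011019) (nat_lit 64)) (.one (nat_lit 0x40000110180008000022030311)) (.one (nat_lit 0x40000110190008000022032311))) (.br (Nat.shiftLeft (nat_lit 0x400001101b)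 (nat_lit 64)) (.one (nat_lit 0x400001101a0008000022034311)) (.br (Nat.shiftLeft (nat_lit 0x1000004407) (nat_lit 66)) (.one (nat_lit 0x400001101b0008000022036311)) (.one (nat_lit 0x400001101c0008000022038311))))))))
def t103 : k103.all (jb2 57 fl b0) = true := by decide +kernel
noncomputable def k104 : KT := (.br (Nat.shiftLeft (nat_lit 0x9) (nat_lit 100)) (.br (Nat.shiftLeft (nat_lit 0x7) (nat_lit 100)) (.br (Nat.shiftLeft (nat_lit 0x3) (nat_lit 101)) (.br (Nat.shiftLeft (nat_lit 0x280000880d) (nat_lit 65)) (.br (Nat.shiftLeft (nat_lit 0x5000011019) (nat_lit 64)) (.one (nat_lit 0x5000011018000a000022030311)) (.one (nat_lit 0x5000011019000a000022032311))) (.br (Nat.shiftLeft (nat_lit 0x500001101b) (nat_lit 64)) (.one (nat_lit 0x500001101a000a000022034311)) (.br (Nat.shiftLeft (nat_lit 0x1400004407) (nat_lit 66)) (.one (nat_lit 0x500001101b000a000022036311)) (.one (nat_lit 0x500001101c000a000022038311))))) (.br (Nat.shiftLeft (nat_lit 0x300000880d) (nat_lit 65)) (.br (Nat.shiftLeft (nat_lit 0x6000011019)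 (nat_lit 64)) (.one (nat_lit 0x6000011018000c000022030311)) (.one (nat_lit 0x6000011019000c000022032311))) (.br (Nat.shiftLeft (nat_lit 0x600001101b) (nat_lit 64)) (.one (nat_lit 0x600001101a000c000022034311)) (.br (Nat.shiftLeft (nat_lit 0x1800004407) (nat_lit 66)) (.one (nat_lit 0x600001101b000c000022036311)) (.one (nat_lit 0x600001101c000c000022038311)))))) (.br (Nat.shiftLeft (nat_lit 0x1) (nat_lit 103)) (.br (Nat.shiftLeft (nat_lit 0x380000880d) (nat_lit 65)) (.br (Nat.shiftLeft (nat_lit 0x7000011019) (nat_lit 64)) (.one (nat_lit 0x7000011018000e000022030311)) (.one (nat_lit 0x7000011019000e000022032311))) (.br (Nat.shiftLeft (nat_lit 0x700001101b) (nat_lit 64)) (.one (nat_lit 0x700001101a000e000022034311)) (.br (Nat.shiftLeft (nat_lit 0x1c00004407) (nat_lit 66)) (.one (nat_lit 0x700001101b000e000022036311)) (.one (nat_lit 0x700001101c000e000022038311))))) (.br (Nat.shiftLeft (nat_lit 0x400000880d) (nat_lit 65)) (.br (Nat.shiftLeft (nat_lit 0x8000011019) (nat_lit 64)) (.one (nat_lit 0x80000110180010000022030311))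 (.one (nat_lit 0x80000110190010000022032311))) (.br (Nat.shiftLeft (nat_lit 0x800001101b) (nat_lit 64)) (.one (nat_lit 0x800001101a0010000022034311)) (.br (Nat.shiftLeft (nat_lit 0x2000004407) (nat_lit 66)) (.one (nat_lit 0x800001101b0010000022036311)) (.one (nat_lit 0x800001101c0010000022038311))))))) (.br (Nat.shiftLeft (nat_lit 0xb) (nat_lit 100)) (.br (Nat.shiftLeft (nat_lit 0x5) (nat_lit 101)) (.br (Nat.shiftLeft (nat_lit 0x480000880d) (nat_lit 65)) (.br (Nat.shiftLeft (nat_lit 0x9000011019) (nat_lit 64)) (.one (nat_lit 0x90000110180012000022030311)) (.one (nat_lit 0x90000110190012000022032311))) (.br (Nat.shiftLeft (nat_lit 0x900001101b) (nat_lit 64)) (.one (nat_lit 0x900001101a0012000022034311)) (.br (Nat.shiftLeft (nat_lit 0x2400004407) (nat_lit 66)) (.one (nat_lit 0x900001101b0012000022036311)) (.one (nat_lit 0x900001101c0012000022038311))))) (.br (Nat.shiftLeft (nat_lit 0x500000880d) (nat_lit 65)) (.br (Nat.shiftLeft (nat_lit 0xa000011019) (nat_lit 64)) (.one (nat_lit 0xa0000110180014000022030311))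 (.one (nat_lit 0xa0000110190014000022032311))) (.br (Nat.shiftLeft (nat_lit 0xa00001101b) (nat_lit 64)) (.one (nat_lit 0xa00001101a0014000022034311)) (.br (Nat.shiftLeft (nat_lit 0x2800004407) (nat_lit 66)) (.one (nat_lit 0xa00001101b0014000022036311)) (.one (nat_lit 0xa00001101c0014000022038311)))))) (.br (Nat.shiftLeft (nat_lit 0x3) (nat_lit 102)) (.br (Nat.shiftLeft (nat_lit 0x580000880d) (nat_lit 65)) (.br (Nat.shiftLeft (nat_lit 0xb000011019) (nat_lit 64)) (.one (nat_lit 0xb0000110180016000022030311)) (.one (nat_lit 0xb0000110190016000022032311))) (.br (Nat.shiftLeft (nat_lit 0xb00001101b) (nat_lit 64)) (.one (nat_lit 0xb00001101a0016000022034311)) (.br (Nat.shiftLeft (nat_lit 0x2c00004407) (nat_lit 66)) (.one (nat_lit 0xb00001101b0016000022036311)) (.one (nat_lit 0xb00001101c0016000022038311))))) (.br (Nat.shiftLeft (nat_lit 0x600000880d) (nat_lit 65)) (.br (Nat.shiftLeft (nat_lit 0xc000011019) (nat_lit 64)) (.one (nat_lit 0xc0000110180018000022030311)) (.one (nat_lit 0xc0000110190018000022032311)))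 (.br (Nat.shiftLeft (nat_lit 0xc00001101b) (nat_lit 64)) (.one (nat_lit 0xc00001101a0018000022034311)) (.br (Nat.shiftLeft (nat_lit 0x3000004407) (nat_lit 66)) (.one (nat_lit 0xc00001101b0018000022036311)) (.one (nat_lit 0xc00001101c0018000022038311))))))))
def t104 : k104.all (jb2 57 fl b0) = true := by decide +kernel
noncomputable def k105 : KT := (.br (Nat.shiftLeft (nat_lit 0xe000011019) (nat_lit 64)) (.br (Nat.shiftLeft (nat_lit 0x680000880d) (nat_lit 65)) (.br (Nat.shiftLeft (nat_lit 0xd000011019) (nat_lit 64)) (.one (nat_lit 0xd000011018001a000022030311)) (.one (nat_lit 0xd000011019001a000022032311))) (.br (Nat.shiftLeft (nat_lit 0xd00001101b) (nat_lit 64)) (.one (nat_lit 0xd00001101a001a000022034311)) (.br (Nat.shiftLeft (nat_lit 0x7) (nat_lit 101)) (.one (nat_lit 0xd00001101b001a000022036311)) (.one (nat_lit 0xe000011018001c000022030311))))) (.br (Nat.shiftLeft (nat_lit 0xf) (nat_lit 100)) (.br (Nat.shiftLeft (nat_lit 0x700000880d) (nat_lit 65)) (.one (nat_lit 0xe000011019001c000022032311))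 (.one (nat_lit 0xe00001101a001c000022034311))) (.br (Nat.shiftLeft (nat_lit 0xf000011019) (nat_lit 64)) (.one (nat_lit 0xf000011018001e000022030311)) (.br (Nat.shiftLeft (nat_lit 0x1) (nat_lit 104)) (.one (nat_lit 0xf000011019001e000022032311)) (.one (nat_lit 0x100000110180020000022030311))))))
def t105 : k105.all (jb2 57 fl b0) = true := by decide +kernel
noncomputable def s4 : KT := (.br (nat_lit 0x401101b0000008022036430) (.br (nat_lit 0x30110180000006022030430) (.br (nat_lit 0x101101c0000002022038430) (.br (nat_lit 0x1101d000000002203a320) k82 (.br (nat_lit 0x1101f000000002203e320) k83 k84)) (.br (nat_lit 0x201101a0000004022034430) k85 (.br (nat_lit 0x201101c0000004022038430) k86 k87))) (.br (nat_lit 0x301101c0000006022038430) (.br (nat_lit 0x30110190000006022032430) k88 (.br (nat_lit 0x301101b0000006022036430) k89 k90)) (.br (nat_lit 0x40110180000008022030430) k91 (.br (nat_lit 0x40110190000008022032430) k92 k93)))) (.br (nat_lit 0x601101b000000c022036430) (.br (nat_lit 0x501101a000000a022034430)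 (.br (nat_lit 0x401101c0000008022038430) k94 (.br (nat_lit 0x5011018000000a022030430) k95 k96)) (.br (nat_lit 0x501101c000000a022038430) k97 (.br (nat_lit 0x6011018000000c022030430) k98 k99))) (.br (nat_lit 0xa01101c0000014022038430) (.br (nat_lit 0x7011019000000e022032430) k100 (.br (nat_lit 0x80110190000010022032430) k101 k102)) (.br (nat_lit 0x400001101c0008000022038311) k103 (.br (nat_lit 0xc00001101c0018000022038311) k104 k105)))))
noncomputable def u4 : KT := (.br (Nat.shiftLeft (nat_lit 0x1101d) (nat_lit 64)) (.br (Nat.shiftLeft (nat_lit 0x880d) (nat_lit 65)) (.br (Nat.shiftLeft (nat_lit 0x11019) (nat_lit 64)) (.one (nat_lit 0x110180000000022030320)) (.one (nat_lit 0x110190000000022032320))) (.br (Nat.shiftLeft (nat_lit 0x1101b) (nat_lit 64)) (.one (nat_lit 0x1101a0000000022034320)) (.br (Nat.shiftLeft (nat_lit 0x4407) (nat_lit 66)) (.one (nat_lit 0x1101b0000000022036320)) (.one (nat_lit 0x1101c0000000022038320))))) (.br (Nat.shiftLeft (nat_lit 0x1101f) (nat_lit 64)) (.br (Nat.shiftLeft (nat_lit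 0x880f) (nat_lit 65)) (.one (nat_lit 0x1101d000000002203a320)) (.one (nat_lit 0x1101e000000002203c320))) (.br (Nat.shiftLeft (nat_lit 0x881) (nat_lit 69)) (.one (nat_lit 0x1101f000000002203e320)) (.br (Nat.shiftLeft (nat_lit 0x11021) (nat_lit 64)) (.one (nat_lit 0x110200000000022040320)) (.one (nat_lit 0x110210000000022042320))))))
def w4 : u4.all (wj 57 s4) = true := by decide +kernel
def o4 : OkW 57 (jb2 57 fl) u4 := .lift s4 _ (.br _ _ _ (.br _ _ _ (.br _ _ _ (.br _ _ _ (.leaf b0 k82 t82) (.br _ _ _ (.leaf b0 k83 t83) (.leaf b0 k84 t84))) (.br _ _ _ (.leaf b0 k85 t85) (.br _ _ _ (.leaf b0 k86 t86) (.leaf b0 k87 t87)))) (.br _ _ _ (.br _ _ _ (.leaf b0 k88 t88) (.br _ _ _ (.leaf b0 k89 t89) (.leaf b0 k90 t90))) (.br _ _ _ (.leaf b0 k91 t91) (.br _ _ _ (.leaf b0 k92 t92) (.leaf b0 k93 t93))))) (.br _ _ _ (.br _ _ _ (.br _ _ _ (.leaf b0 k94 t94) (.br _ _ _ (.leaf b0 k95 t95) (.leaf b0 k96 t96))) (.br _ _ _ (.leaf b0 k97 t97) (.br _ _ _ (.leaf b0 k98 t98) (.leaf b0 k99 t99)))) (.br _ _ _ (.br _ _ _ (.leaf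 b0 k100 t100) (.br _ _ _ (.leaf b0 k101 t101) (.leaf b0 k102 t102))) (.br _ _ _ (.leaf b0 k103 t103) (.br _ _ _ (.leaf b0 k104 t104) (.leaf b0 k105 t105)))))) w4
noncomputable def k106 : KT := (.br (Nat.shiftLeft (nat_lit 0x5) (nat_lit 88)) (.br (Nat.shiftLeft (nat_lit 0x1) (nat_lit 89)) (.br (Nat.shiftLeft (nat_lit 0x1) (nat_lit 88)) (.one (nat_lit 0x120130000000024027300)) (.one (nat_lit 0x10120130000002024026430))) (.br (Nat.shiftLeft (nat_lit 0x3) (nat_lit 88)) (.one (nat_lit 0x20120130000004024026430)) (.br (Nat.shiftLeft (nat_lit 0x1) (nat_lit 90)) (.one (nat_lit 0x30120130000006024027400)) (.one (nat_lit 0x40120130000008024027400))))) (.br (Nat.shiftLeft (nat_lit 0x7) (nat_lit 88)) (.br (Nat.shiftLeft (nat_lit 0x3) (nat_lit 89)) (.one (nat_lit 0x5012013000000a024027400)) (.one (nat_lit 0x6012013000000c024027400))) (.br (Nat.shiftLeft (nat_lit 0x1) (nat_lit 91)) (.one (nat_lit 0x7012013000000e024027400)) (.br (Nat.shiftLeft (nat_lit 0x9) (nat_lit 88)) (.one (nat_lit 0x80120130000010024027400))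 (.one (nat_lit 0x90120130000012024027400))))))
def t106 : k106.all (jb2 57 fl b0) = true := by decide +kernel
noncomputable def k107 : KT := (.one (nat_lit 0xa0120130000014024026430))
def t107 : k107.all (jb2 57 fl b0) = true := by decide +kernel
noncomputable def k108 : KT := (.br (Nat.shiftLeft (nat_lit 0x3) (nat_lit 90)) (.one (nat_lit 0xb0120130000016024026430)) (.br (Nat.shiftLeft (nat_lit 0xd) (nat_lit 88)) (.one (nat_lit 0xc0120130000018024026430)) (.one (nat_lit 0xd012013000001a024026430))))
def t108 : k108.all (jb2 57 fl b0) = true := by decide +kernel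
noncomputable def k109 : KT := (.br (Nat.shiftLeft (nat_lit 0x11) (nat_lit 88)) (.br (Nat.shiftLeft (nat_lit 0xf) (nat_lit 88)) (.one (nat_lit 0xe012013000001c024026430)) (.br (Nat.shiftLeft (nat_lit 0x1) (nat_lit 92)) (.one (nat_lit 0xf012013000001e024026430)) (.one (nat_lit 0x100120130000020024026430)))) (.br (Nat.shiftLeft (nat_lit 0x1) (nat_lit 100)) (.one (nat_lit 0x110120130000022024026430)) (.br (Nat.shiftLeft (nat_lit 0x801) (nat_lit 89)) (.one (nat_lit 0x10000120130002000024026311)) (.one (nat_lit 0x10030120130002006024026540)))))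
def t109 : k109.all (jb2 57 fl b0) = true := by decide +kernel
noncomputable def k110 : KT := (.br (Nat.shiftLeft (nat_lit 0x1005) (nat_lit 88)) (.one (nat_lit 0x10040120130002008024026540)) (.one (nat_lit 0x1005012013000200a024026540)))
def t110 : k110.all (jb2 57 fl b0) = true := by decide +kernel
noncomputable def k111 : KT := (.br (Nat.shiftLeft (nat_lit 0x201) (nat_lit 91)) (.br (Nat.shiftLeft (nat_lit 0x1007) (nat_lit 88)) (.one (nat_lit 0x1006012013000200c024026540)) (.one (nat_lit 0x1007012013000200e024026540))) (.br (Nat.shiftLeft (nat_lit 0x1009) (nat_lit 88)) (.one (nat_lit 0x10080120130002010024026540)) (.br (Nat.shiftLeft (nat_lit 0x1) (nat_lit 101)) (.one (nat_lit 0x10090120130002012024026540)) (.one (nat_lit 0x20000120130004000024026311)))))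
def t111 : k111.all (jb2 57 fl b0) = true := by decide +kernel
noncomputable def k112 : KT := (.one (nat_lit 0x20030120130004006024026540))
def t112 : k112.all (jb2 57 fl b0) = true := by decide +kernel
noncomputable def k113 : KT := (.one (nat_lit 0x20040120130004008024026540))
def t113 : k113.all (jb2 57 fl b0) = true := by decide +kernel
noncomputable def k114 : KT := (.one (nat_lit 0x2005012013000400a024026540))
def t114 : k114.all (jb2 57 fl b0) = true := by decide +kernel
noncomputable def k115 : KT := (.br (Nat.shiftLeft (nat_lit 0x2007) (nat_lit 88)) (.one (nat_lit 0x2006012013000400c024026540)) (.one (nat_lit 0x2007012013000400e024026540)))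
def t115 : k115.all (jb2 57 fl b0) = true := by decide +kernel
noncomputable def k116 : KT := (.br (Nat.shiftLeft (nat_lit 0x3) (nat_lit 100)) (.br (Nat.shiftLeft (nat_lit 0x2009) (nat_lit 88)) (.one (nat_lit 0x20080120130004010024026540)) (.one (nat_lit 0x20090120130004012024026540))) (.br (Nat.shiftLeft (nat_lit 0xc01) (nat_lit 90)) (.one (nat_lit 0x30000120130006000024026311)) (.one (nat_lit 0x30040120130006008024027500))))
def t116 : k116.all (jb2 57 fl b0) = true := by decide +kernel
noncomputable def k117 : KT := (.one (nat_lit 0x3005012013000600a024026540))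
def t117 : k117.all (jb2 57 fl b0) = true := by decide +kernel
noncomputable def k118 : KT := (.br (Nat.shiftLeft (nat_lit 0x3007) (nat_lit 88)) (.one (nat_lit 0x3006012013000600c024026540)) (.one (nat_lit 0x3007012013000600e024026540)))
def t118 : k118.all (jb2 57 fl b0) = true := by decide +kernel
noncomputable def k119 : KT := (.br (Nat.shiftLeft (nat_lit 0x3009) (nat_lit 88)) (.one (nat_lit 0x30080120130006010024026540)) (.br (Nat.shiftLeft (nat_lit 0x1) (nat_lit 102)) (.one (nat_lit 0x30090120130006012024026540)) (.one (nat_lit 0x40000120130008000024026311))))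
def t119 : k119.all (jb2 57 fl b0) = true := by decide +kernel
noncomputable def k120 : KT := (.one (nat_lit 0x4005012013000800a024026540))
def t120 : k120.all (jb2 57 fl b0) = true := by decide +kernel
noncomputable def k121 : KT := (.br (Nat.shiftLeft (nat_lit 0x4007) (nat_lit 88)) (.one (nat_lit 0x4006012013000800c024026540)) (.one (nat_lit 0x4007012013000800e024026540)))
def t121 : k121.all (jb2 57 fl b0) = true := by decide +kernel
noncomputable def k122 : KT := (.br (Nat.shiftLeft (nat_lit 0x5) (nat_lit 100)) (.br (Nat.shiftLeft (nat_lit 0x4009) (nat_lit 88)) (.one (nat_lit 0x40080120130008010024026540)) (.one (nat_lit 0x40090120130008012024026540))) (.br (Nat.shiftLeft (nat_lit 0x1401) (nat_lit 90)) (.one (nat_lit 0x5000012013000a000024026311)) (.one (nat_lit 0x5006012013000a00c024026540))))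
def t122 : k122.all (jb2 57 fl b0) = true := by decide +kernel
noncomputable def k123 : KT := (.br (Nat.shiftLeft (nat_lit 0x1801) (nat_lit 90)) (.br (Nat.shiftLeft (nat_lit 0x5009) (nat_lit 88)) (.br (Nat.shiftLeft (nat_lit 0xa01) (nat_lit 91)) (.one (nat_lit 0x5007012013000a00e024026540)) (.one (nat_lit 0x5008012013000a010024026540))) (.br (Nat.shiftLeft (nat_lit 0x3) (nat_lit 101)) (.one (nat_lit 0x5009012013000a012024026540)) (.one (nat_lit 0x6000012013000c000024026311)))) (.br (Nat.shiftLeft (nat_lit 0x6009) (nat_lit 88)) (.br (Nat.shiftLeft (nat_lit 0xc01) (nat_lit 91)) (.one (nat_lit 0x6007012013000c00e024026540)) (.one (nat_lit 0x6008012013000c010024026540))) (.br (Nat.shiftLeft (nat_lit 0x7) (nat_lit 100)) (.one (nat_lit 0x6009012013000c012024026540)) (.one (nat_lit 0x7000012013000e000024026311)))))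
def t123 : k123.all (jb2 57 fl b0) = true := by decide +kernel
noncomputable def k124 : KT := (.br (Nat.shiftLeft (nat_lit 0x200001) (nat_lit 91)) (.br (Nat.shiftLeft (nat_lit 0x7) (nat_lit 101)) (.br (Nat.shiftLeft (nat_lit 0x9) (nat_lit 100)) (.br (Nat.shiftLeft (nat_lit 0x1) (nat_lit 103)) (.br (Nat.shiftLeft (nat_lit 0x7009) (nat_lit 88)) (.one (nat_lit 0x7008012013000e010024026540)) (.one (nat_lit 0x7009012013000e012024026540))) (.br (Nat.shiftLeft (nat_lit 0x1001) (nat_lit 91)) (.one (nat_lit 0x80000120130010000024026311)) (.one (nat_lit 0x80090120130010012024026540)))) (.br (Nat.shiftLeft (nat_lit 0xb) (nat_lit 100)) (.br (Nat.shiftLeft (nat_lit 0x5) (nat_lit 101)) (.one (nat_lit 0x90000120130012000024026311)) (.one (nat_lit 0xa0000120130014000024026311))) (.br (Nat.shiftLeft (nat_lit 0x3) (nat_lit 102)) (.one (nat_lit 0xb0000120130016000024026311)) (.br (Nat.shiftLeft (nat_lit 0xd) (nat_lit 100)) (.one (nat_lit 0xc0000120130018000024026311)) (.one (nat_lit 0xd000012013001a000024026311))))))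 (.br (Nat.shiftLeft (nat_lit 0x1) (nat_lit 112)) (.br (Nat.shiftLeft (nat_lit 0x1) (nat_lit 104)) (.br (Nat.shiftLeft (nat_lit 0xf) (nat_lit 100)) (.one (nat_lit 0xe000012013001c000024026311)) (.one (nat_lit 0xf000012013001e000024026311))) (.br (Nat.shiftLeft (nat_lit 0x11) (nat_lit 100)) (.one (nat_lit 0x100000120130020000024026311)) (.br (Nat.shiftLeft (nat_lit 0x9) (nat_lit 101)) (.one (nat_lit 0x110000120130022000024026311)) (.one (nat_lit 0x120000120130024000024026311))))) (.br (Nat.shiftLeft (nat_lit 0x1000005) (nat_lit 88)) (.br (Nat.shiftLeft (nat_lit 0x400001) (nat_lit 90)) (.one (nat_lit 0x10000030120132000006024026411)) (.one (nat_lit 0x10000040120132000008024026411))) (.br (Nat.shiftLeft (nat_lit 0x800003) (nat_lit 89)) (.one (nat_lit 0x1000005012013200000a024026411)) (.br (Nat.shiftLeft (nat_lit 0x1000007) (nat_lit 88)) (.one (nat_lit 0x1000006012013200000c024026411)) (.one (nat_lit 0x1000007012013200000e024026411))))))) (.br (Nat.shiftLeft (nat_lit 0x2000009) (nat_lit 88)) (.br (Nat.shiftLeft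 (nat_lit 0x800001) (nat_lit 90)) (.br (Nat.shiftLeft (nat_lit 0x801) (nat_lit 101)) (.br (Nat.shiftLeft (nat_lit 0x1000009) (nat_lit 88)) (.one (nat_lit 0x10000080120132000010024026411)) (.one (nat_lit 0x10000090120132000012024026411))) (.br (Nat.shiftLeft (nat_lit 0x1) (nat_lit 113)) (.one (nat_lit 0x10030040120132006008024026650)) (.one (nat_lit 0x20000030120134000006024026411)))) (.br (Nat.shiftLeft (nat_lit 0x1000003) (nat_lit 89)) (.br (Nat.shiftLeft (nat_lit 0x2000005) (nat_lit 88)) (.one (nat_lit 0x20000040120134000008024026411)) (.one (nat_lit 0x2000005012013400000a024026411))) (.br (Nat.shiftLeft (nat_lit 0x2000007) (nat_lit 88)) (.one (nat_lit 0x2000006012013400000c024026411)) (.br (Nat.shiftLeft (nat_lit 0x400001) (nat_lit 91)) (.one (nat_lit 0x2000007012013400000e024026411)) (.one (nat_lit 0x20000080120134000010024026411)))))) (.br (Nat.shiftLeft (nat_lit 0x1800003) (nat_lit 89)) (.br (Nat.shiftLeft (nat_lit 0x3) (nat_lit 112)) (.br (Nat.shiftLeft (nat_lit 0x1001) (nat_lit 101)) (.one (nat_lit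 0x20000090120134000012024026411)) (.one (nat_lit 0x20030040120134006008024026650))) (.br (Nat.shiftLeft (nat_lit 0xc00001) (nat_lit 90)) (.one (nat_lit 0x30000030120136000006024026411)) (.br (Nat.shiftLeft (nat_lit 0x3000005) (nat_lit 88)) (.one (nat_lit 0x30000040120136000008024026411)) (.one (nat_lit 0x3000005012013600000a024026411))))) (.br (Nat.shiftLeft (nat_lit 0x600001) (nat_lit 91)) (.br (Nat.shiftLeft (nat_lit 0x3000007) (nat_lit 88)) (.one (nat_lit 0x3000006012013600000c024026411)) (.one (nat_lit 0x3000007012013600000e024026411))) (.br (Nat.shiftLeft (nat_lit 0x3000009) (nat_lit 88)) (.one (nat_lit 0x30000080120136000010024026411)) (.br (Nat.shiftLeft (nat_lit 0x1) (nat_lit 114)) (.one (nat_lit 0x30000090120136000012024026411)) (.one (nat_lit 0x40000030120138000006024026411))))))))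
def t124 : k124.all (jb2 57 fl b0) = true := by decide +kernel
noncomputable def k125 : KT := (.br (Nat.shiftLeft (nat_lit 0x6000009) (nat_lit 88)) (.br (Nat.shiftLeft (nat_lit 0x2800003) (nat_lit 89)) (.br (Nat.shiftLeft (nat_lit 0x800001) (nat_lit 91)) (.br (Nat.shiftLeft (nat_lit 0x2000003) (nat_lit 89)) (.br (Nat.shiftLeft (nat_lit 0x4000005) (nat_lit 88)) (.one (nat_lit 0x40000040120138000008024026411)) (.one (nat_lit 0x4000005012013800000a024026411))) (.br (Nat.shiftLeft (nat_lit 0x4000007) (nat_lit 88)) (.one (nat_lit 0x4000006012013800000c024026411)) (.one (nat_lit 0x4000007012013800000e024026411)))) (.br (Nat.shiftLeft (nat_lit 0x5) (nat_lit 112)) (.br (Nat.shiftLeft (nat_lit 0x4000009) (nat_lit 88)) (.one (nat_lit 0x40000080120138000010024026411)) (.one (nat_lit 0x40000090120138000012024026411))) (.br (Nat.shiftLeft (nat_lit 0x1400001) (nat_lit 90)) (.one (nat_lit 0x5000003012013a000006024026411)) (.br (Nat.shiftLeft (nat_lit 0x5000005) (nat_lit 88)) (.one (nat_lit 0x5000004012013a000008024026411))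 (.one (nat_lit 0x5000005012013a00000a024026411)))))) (.br (Nat.shiftLeft (nat_lit 0x1800001) (nat_lit 90)) (.br (Nat.shiftLeft (nat_lit 0xa00001) (nat_lit 91)) (.br (Nat.shiftLeft (nat_lit 0x5000007) (nat_lit 88)) (.one (nat_lit 0x5000006012013a00000c024026411)) (.one (nat_lit 0x5000007012013a00000e024026411))) (.br (Nat.shiftLeft (nat_lit 0x5000009) (nat_lit 88)) (.one (nat_lit 0x5000008012013a000010024026411)) (.br (Nat.shiftLeft (nat_lit 0x3) (nat_lit 113)) (.one (nat_lit 0x5000009012013a000012024026411)) (.one (nat_lit 0x6000003012013c000006024026411))))) (.br (Nat.shiftLeft (nat_lit 0x3000003) (nat_lit 89)) (.br (Nat.shiftLeft (nat_lit 0x6000005) (nat_lit 88)) (.one (nat_lit 0x6000004012013c000008024026411)) (.one (nat_lit 0x6000005012013c00000a024026411))) (.br (Nat.shiftLeft (nat_lit 0x6000007) (nat_lit 88)) (.one (nat_lit 0x6000006012013c00000c024026411)) (.br (Nat.shiftLeft (nat_lit 0xc00001) (nat_lit 91)) (.one (nat_lit 0x6000007012013c00000e024026411)) (.one (nat_lit 0x6000008012013c000010024026411)))))))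 (.br (Nat.shiftLeft (nat_lit 0x8000005) (nat_lit 88)) (.br (Nat.shiftLeft (nat_lit 0x7000007) (nat_lit 88)) (.br (Nat.shiftLeft (nat_lit 0x1c00001) (nat_lit 90)) (.br (Nat.shiftLeft (nat_lit 0x7) (nat_lit 112)) (.one (nat_lit 0x6000009012013c000012024026411)) (.one (nat_lit 0x7000003012013e000006024026411))) (.br (Nat.shiftLeft (nat_lit 0x7000005) (nat_lit 88)) (.one (nat_lit 0x7000004012013e000008024026411)) (.br (Nat.shiftLeft (nat_lit 0x3800003) (nat_lit 89)) (.one (nat_lit 0x7000005012013e00000a024026411)) (.one (nat_lit 0x7000006012013e00000c024026411))))) (.br (Nat.shiftLeft (nat_lit 0x7000009) (nat_lit 88)) (.br (Nat.shiftLeft (nat_lit 0xe00001) (nat_lit 91)) (.one (nat_lit 0x7000007012013e00000e024026411)) (.one (nat_lit 0x7000008012013e000010024026411))) (.br (Nat.shiftLeft (nat_lit 0x1) (nat_lit 115)) (.one (nat_lit 0x7000009012013e000012024026411)) (.br (Nat.shiftLeft (nat_lit 0x2000001) (nat_lit 90)) (.one (nat_lit 0x80000030120130000006024128411)) (.one (nat_lit 0x80000040120130000008024128411))))))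 (.br (Nat.shiftLeft (nat_lit 0x9) (nat_lit 112)) (.br (Nat.shiftLeft (nat_lit 0x8000007) (nat_lit 88)) (.br (Nat.shiftLeft (nat_lit 0x4000003) (nat_lit 89)) (.one (nat_lit 0x8000005012013000000a024128411)) (.one (nat_lit 0x8000006012013000000c024128411))) (.br (Nat.shiftLeft (nat_lit 0x1000001) (nat_lit 91)) (.one (nat_lit 0x8000007012013000000e024128411)) (.br (Nat.shiftLeft (nat_lit 0x8000009) (nat_lit 88)) (.one (nat_lit 0x80000080120130000010024128411)) (.one (nat_lit 0x80000090120130000012024128411))))) (.br (Nat.shiftLeft (nat_lit 0x9000005) (nat_lit 88)) (.br (Nat.shiftLeft (nat_lit 0x2400001) (nat_lit 90)) (.one (nat_lit 0x90000030120132000006024128411)) (.one (nat_lit 0x90000040120132000008024128411))) (.br (Nat.shiftLeft (nat_lit 0x4800003) (nat_lit 89)) (.one (nat_lit 0x9000005012013200000a024128411)) (.br (Nat.shiftLeft (nat_lit 0x9000007) (nat_lit 88)) (.one (nat_lit 0x9000006012013200000c024128411)) (.one (nat_lit 0x9000007012013200000e024128411))))))))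
def t125 : k125.all (jb2 57 fl b0) = true := by decide +kernel
noncomputable def k126 : KT := (.br (Nat.shiftLeft (nat_lit 0xc000007) (nat_lit 88)) (.br (Nat.shiftLeft (nat_lit 0x2c00001) (nat_lit 90)) (.br (Nat.shiftLeft (nat_lit 0x5000003) (nat_lit 89)) (.br (Nat.shiftLeft (nat_lit 0x5) (nat_lit 113)) (.br (Nat.shiftLeft (nat_lit 0x9000009) (nat_lit 88)) (.one (nat_lit 0x90000080120132000010024128411)) (.one (nat_lit 0x90000090120132000012024128411))) (.br (Nat.shiftLeft (nat_lit 0x2800001) (nat_lit 90)) (.one (nat_lit 0xa0000030120134000006024128411)) (.br (Nat.shiftLeft (nat_lit 0xa000005) (nat_lit 88)) (.one (nat_lit 0xa0000040120134000008024128411)) (.one (nat_lit 0xa000005012013400000a024128411))))) (.br (Nat.shiftLeft (nat_lit 0x1400001) (nat_lit 91)) (.br (Nat.shiftLeft (nat_lit 0xa000007) (nat_lit 88)) (.one (nat_lit 0xa000006012013400000c024128411)) (.one (nat_lit 0xa000007012013400000e024128411))) (.br (Nat.shiftLeft (nat_lit 0xa000009) (nat_lit 88)) (.one (nat_lit 0xa0000080120134000010024128411))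 (.br (Nat.shiftLeft (nat_lit 0xb) (nat_lit 112)) (.one (nat_lit 0xa0000090120134000012024128411)) (.one (nat_lit 0xb0000030120136000006024128411)))))) (.br (Nat.shiftLeft (nat_lit 0xb000009) (nat_lit 88)) (.br (Nat.shiftLeft (nat_lit 0x5800003) (nat_lit 89)) (.br (Nat.shiftLeft (nat_lit 0xb000005) (nat_lit 88)) (.one (nat_lit 0xb0000040120136000008024128411)) (.one (nat_lit 0xb000005012013600000a024128411))) (.br (Nat.shiftLeft (nat_lit 0xb000007) (nat_lit 88)) (.one (nat_lit 0xb000006012013600000c024128411)) (.br (Nat.shiftLeft (nat_lit 0x1600001) (nat_lit 91)) (.one (nat_lit 0xb000007012013600000e024128411)) (.one (nat_lit 0xb0000080120136000010024128411))))) (.br (Nat.shiftLeft (nat_lit 0x3000001) (nat_lit 90)) (.br (Nat.shiftLeft (nat_lit 0x3) (nat_lit 114)) (.one (nat_lit 0xb0000090120136000012024128411)) (.one (nat_lit 0xc0000030120138000006024128411))) (.br (Nat.shiftLeft (nat_lit 0xc000005) (nat_lit 88)) (.one (nat_lit 0xc0000040120138000008024128411)) (.br (Nat.shiftLeft (nat_lit 0x6000003)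 (nat_lit 89)) (.one (nat_lit 0xc000005012013800000a024128411)) (.one (nat_lit 0xc000006012013800000c024128411))))))) (.br (Nat.shiftLeft (nat_lit 0x7000003) (nat_lit 89)) (.br (Nat.shiftLeft (nat_lit 0x6800003) (nat_lit 89)) (.br (Nat.shiftLeft (nat_lit 0xd) (nat_lit 112)) (.br (Nat.shiftLeft (nat_lit 0x1800001) (nat_lit 91)) (.one (nat_lit 0xc000007012013800000e024128411)) (.one (nat_lit 0xc0000080120138000010024128411))) (.br (Nat.shiftLeft (nat_lit 0x3400001) (nat_lit 90)) (.one (nat_lit 0xd000003012013a000006024128411)) (.br (Nat.shiftLeft (nat_lit 0xd000005) (nat_lit 88)) (.one (nat_lit 0xd000004012013a000008024128411)) (.one (nat_lit 0xd000005012013a00000a024128411))))) (.br (Nat.shiftLeft (nat_lit 0x7) (nat_lit 113)) (.br (Nat.shiftLeft (nat_lit 0xd000007) (nat_lit 88)) (.one (nat_lit 0xd000006012013a00000c024128411)) (.one (nat_lit 0xd000007012013a00000e024128411))) (.br (Nat.shiftLeft (nat_lit 0x3800001) (nat_lit 90)) (.one (nat_lit 0xe000003012013c000006024128411)) (.br (Nat.shiftLeft (nat_lit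 0xe000005) (nat_lit 88)) (.one (nat_lit 0xe000004012013c000008024128411)) (.one (nat_lit 0xe000005012013c00000a024128411)))))) (.br (Nat.shiftLeft (nat_lit 0x4000001) (nat_lit 90)) (.br (Nat.shiftLeft (nat_lit 0x3c00001) (nat_lit 90)) (.br (Nat.shiftLeft (nat_lit 0xf) (nat_lit 112)) (.one (nat_lit 0xe000006012013c00000c024128411)) (.one (nat_lit 0xf000003012013e000006024128411))) (.br (Nat.shiftLeft (nat_lit 0xf000005) (nat_lit 88)) (.one (nat_lit 0xf000004012013e000008024128411)) (.br (Nat.shiftLeft (nat_lit 0x1) (nat_lit 116)) (.one (nat_lit 0xf000005012013e00000a024128411)) (.one (nat_lit 0x10000003012013000000602422a411))))) (.br (Nat.shiftLeft (nat_lit 0x1) (nat_lit 124)) (.br (Nat.shiftLeft (nat_lit 0x11) (nat_lit 112)) (.one (nat_lit 0x10000004012013000000802422a411)) (.one (nat_lit 0x11000003012013200000602422a411))) (.br (Nat.shiftLeft (nat_lit 0x1) (nat_lit 125)) (.one (nat_lit 0x10000030040120130006008044426511)) (.br (Nat.shiftLeft (nat_lit 0x3) (nat_lit 124)) (.one (nat_lit 0x20000030040120130006008064826511))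 (.one (nat_lit 0x30000030040120130006008084c26511))))))))
def t126 : k126.all (jb2 57 fl b0) = true := by decide +kernel
noncomputable def k127 : KT := (.br (Nat.shiftLeft (nat_lit 0x9) (nat_lit 124)) (.br (Nat.shiftLeft (nat_lit 0x3) (nat_lit 125)) (.br (Nat.shiftLeft (nat_lit 0x5) (nat_lit 124)) (.one (nat_lit 0x400000300401201300060080a5026511)) (.one (nat_lit 0x500000300401201300060080c5426511))) (.br (Nat.shiftLeft (nat_lit 0x7) (nat_lit 124)) (.one (nat_lit 0x600000300401201300060080e5826511)) (.br (Nat.shiftLeft (nat_lit 0x1) (nat_lit 127)) (.one (nat_lit 0x70000030040120130006008105c26511)) (.one (nat_lit 0x80000030040120130006008126026511))))) (.br (Nat.shiftLeft (nat_lit 0xb) (nat_lit 124)) (.br (Nat.shiftLeft (nat_lit 0x5) (nat_lit 125)) (.one (nat_lit 0x90000030040120130006008146426511)) (.one (nat_lit 0xa0000030040120130006008166826511))) (.br (Nat.shiftLeft (nat_lit 0x3) (nat_lit 126)) (.one (nat_lit 0xb0000030040120130006008186c26511)) (.br (Nat.shiftLeft (nat_lit 0xd) (nat_lit 124))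 (.one (nat_lit 0xc00000300401201300060081a7026511)) (.one (nat_lit 0xd00000300401201300060081c7426511))))))
def t127 : k127.all (jb2 57 fl b0) = true := by decide +kernel
noncomputable def s5 : KT := (.br (nat_lit 0x30040120130006008024027500) (.br (nat_lit 0x1005012013000200a024026540) (.br (nat_lit 0xa0120130000014024026430) (.br (nat_lit 0x90120130000012024027400) k106 k107) (.br (nat_lit 0xd012013000001a024026430) k108 (.br (nat_lit 0x10030120130002006024026540) k109 k110))) (.br (nat_lit 0x20040120130004008024026540) (.br (nat_lit 0x20000120130004000024026311) k111 (.br (nat_lit 0x20030120130004006024026540) k112 k113)) (.br (nat_lit 0x2005012013000400a024026540) k114 (.br (nat_lit 0x2007012013000400e024026540) k115 k116)))) (.br (nat_lit 0x4007012013000800e024026540) (.br (nat_lit 0x3007012013000600e024026540) (.br (nat_lit 0x3005012013000600a024026540) k117 k118) (.br (nat_lit 0x40000120130008000024026311) k119 (.br (nat_lit 0x4005012013000800a024026540) k120 k121))) (.br (nat_lit 0x40000030120138000006024026411)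 (.br (nat_lit 0x5006012013000a00c024026540) k122 (.br (nat_lit 0x7000012013000e000024026311) k123 k124)) (.br (nat_lit 0x9000007012013200000e024128411) k125 (.br (nat_lit 0x30000030040120130006008084c26511) k126 k127)))))
noncomputable def u5 : KT := (.one (nat_lit 0x120130000000024026320))
def w5 : u5.all (wj 57 s5) = true := by decide +kernel
def o5 : OkW 57 (jb2 57 fl) u5 := .lift s5 _ (.br _ _ _ (.br _ _ _ (.br _ _ _ (.br _ _ _ (.leaf b0 k106 t106) (.leaf b0 k107 t107)) (.br _ _ _ (.leaf b0 k108 t108) (.br _ _ _ (.leaf b0 k109 t109) (.leaf b0 k110 t110)))) (.br _ _ _ (.br _ _ _ (.leaf b0 k111 t111) (.br _ _ _ (.leaf b0 k112 t112) (.leaf b0 k113 t113))) (.br _ _ _ (.leaf b0 k114 t114) (.br _ _ _ (.leaf b0 k115 t115) (.leaf b0 k116 t116))))) (.br _ _ _ (.br _ _ _ (.br _ _ _ (.leaf b0 k117 t117) (.leaf b0 k118 t118)) (.br _ _ _ (.leaf b0 k119 t119) (.br _ _ _ (.leaf b0 k120 t120) (.leaf b0 k121 t121)))) (.br _ _ _ (.br _ _ _ (.leaf b0 k122 t122) (.br _ _ _ (.leaf b0 k123 t123) (.leaf b0 k124 t124)))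 (.br _ _ _ (.leaf b0 k125 t125) (.br _ _ _ (.leaf b0 k126 t126) (.leaf b0 k127 t127)))))) w5
noncomputable def k128 : KT := (.br (Nat.shiftLeft (nat_lit 0x1) (nat_lit 90)) (.br (Nat.shiftLeft (nat_lit 0x1) (nat_lit 89)) (.br (Nat.shiftLeft (nat_lit 0x1) (nat_lit 88)) (.one (nat_lit 0x120140000000024029300)) (.one (nat_lit 0x10120140000002024028430))) (.br (Nat.shiftLeft (nat_lit 0x3) (nat_lit 88)) (.one (nat_lit 0x20120140000004024028430)) (.one (nat_lit 0x30120140000006024029400)))) (.br (Nat.shiftLeft (nat_lit 0x3) (nat_lit 89)) (.br (Nat.shiftLeft (nat_lit 0x5) (nat_lit 88)) (.one (nat_lit 0x40120140000008024029400)) (.one (nat_lit 0x5012014000000a024029400))) (.br (Nat.shiftLeft (nat_lit 0x7) (nat_lit 88)) (.one (nat_lit 0x6012014000000c024029400)) (.br (Nat.shiftLeft (nat_lit 0x1) (nat_lit 91)) (.one (nat_lit 0x7012014000000e024029400)) (.one (nat_lit 0x80120140000010024029400))))))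
def t128 : k128.all (jb2 57 fl b0) = true := by decide +kernel
noncomputable def k129 : KT := (.one (nat_lit 0x90120140000012024028430))
def t129 : k129.all (jb2 57 fl b0) = true := by decide +kernel
noncomputable def k130 : KT := (.br (Nat.shiftLeft (nat_lit 0xb) (nat_lit 88)) (.one (nat_lit 0xa0120140000014024028430)) (.br (Nat.shiftLeft (nat_lit 0x3) (nat_lit 90)) (.one (nat_lit 0xb0120140000016024028430)) (.one (nat_lit 0xc0120140000018024028430))))
def t130 : k130.all (jb2 57 fl b0) = true := by decide +kernel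
noncomputable def k131 : KT := (.br (Nat.shiftLeft (nat_lit 0x1) (nat_lit 92)) (.br (Nat.shiftLeft (nat_lit 0x7) (nat_lit 89)) (.one (nat_lit 0xd012014000001a024028430)) (.br (Nat.shiftLeft (nat_lit 0xf) (nat_lit 88)) (.one (nat_lit 0xe012014000001c024028430)) (.one (nat_lit 0xf012014000001e024028430)))) (.br (Nat.shiftLeft (nat_lit 0x1) (nat_lit 100)) (.br (Nat.shiftLeft (nat_lit 0x11) (nat_lit 88)) (.one (nat_lit 0x100120140000020024028430)) (.one (nat_lit 0x110120140000022024028430))) (.br (Nat.shiftLeft (nat_lit 0x801) (nat_lit 89)) (.one (nat_lit 0x10000120140002000024028311)) (.one (nat_lit 0x10030120140002006024028540)))))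
def t131 : k131.all (jb2 57 fl b0) = true := by decide +kernel
noncomputable def k132 : KT := (.br (Nat.shiftLeft (nat_lit 0x1005) (nat_lit 88)) (.one (nat_lit 0x10040120140002008024028540)) (.br (Nat.shiftLeft (nat_lit 0x803) (nat_lit 89)) (.one (nat_lit 0x1005012014000200a024028540)) (.one (nat_lit 0x1006012014000200c024028540))))
def t132 : k132.all (jb2 57 fl b0) = true := by decide +kernel
noncomputable def k133 : KT := (.br (Nat.shiftLeft (nat_lit 0x201) (nat_lit 91)) (.one (nat_lit 0x1007012014000200e024028540)) (.br (Nat.shiftLeft (nat_lit 0x1) (nat_lit 101)) (.one (nat_lit 0x10080120140002010024028540)) (.one (nat_lit 0x20000120140004000024028311))))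
def t133 : k133.all (jb2 57 fl b0) = true := by decide +kernel
noncomputable def k134 : KT := (.one (nat_lit 0x20030120140004006024028540))
def t134 : k134.all (jb2 57 fl b0) = true := by decide +kernel
noncomputable def k135 : KT := (.one (nat_lit 0x20040120140004008024028540))
def t135 : k135.all (jb2 57 fl b0) = true := by decide +kernel
noncomputable def k136 : KT := (.br (Nat.shiftLeft (nat_lit 0x1003) (nat_lit 89)) (.one (nat_lit 0x2005012014000400a024028540)) (.one (nat_lit 0x2006012014000400c024028540)))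
def t136 : k136.all (jb2 57 fl b0) = true := by decide +kernel
noncomputable def k137 : KT := (.br (Nat.shiftLeft (nat_lit 0x401) (nat_lit 91)) (.one (nat_lit 0x2007012014000400e024028540)) (.br (Nat.shiftLeft (nat_lit 0x3) (nat_lit 100)) (.one (nat_lit 0x20080120140004010024028540)) (.one (nat_lit 0x30000120140006000024028311))))
def t137 : k137.all (jb2 57 fl b0) = true := by decide +kernel
noncomputable def k138 : KT := (.one (nat_lit 0x30040120140006008024028540))
def t138 : k138.all (jb2 57 fl b0) = true := by decide +kernel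
noncomputable def k139 : KT := (.br (Nat.shiftLeft (nat_lit 0x1803) (nat_lit 89)) (.one (nat_lit 0x3005012014000600a024028540)) (.one (nat_lit 0x3006012014000600c024028540)))
def t139 : k139.all (jb2 57 fl b0) = true := by decide +kernel
noncomputable def k140 : KT := (.br (Nat.shiftLeft (nat_lit 0x1) (nat_lit 102)) (.br (Nat.shiftLeft (nat_lit 0x601) (nat_lit 91)) (.one (nat_lit 0x3007012014000600e024028540)) (.one (nat_lit 0x30080120140006010024028540))) (.br (Nat.shiftLeft (nat_lit 0x1001) (nat_lit 90)) (.one (nat_lit 0x40000120140008000024028311)) (.one (nat_lit 0x4005012014000800a024028540))))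
def t140 : k140.all (jb2 57 fl b0) = true := by decide +kernel
noncomputable def k141 : KT := (.br (Nat.shiftLeft (nat_lit 0x801) (nat_lit 91)) (.br (Nat.shiftLeft (nat_lit 0x4007) (nat_lit 88)) (.one (nat_lit 0x4006012014000800c024028540)) (.one (nat_lit 0x4007012014000800e024028540))) (.br (Nat.shiftLeft (nat_lit 0x5) (nat_lit 100)) (.one (nat_lit 0x40080120140008010024028540)) (.one (nat_lit 0x5000012014000a000024028311))))
def t141 : k141.all (jb2 57 fl b0) = true := by decide +kernel
noncomputable def k142 : KT := (.br (Nat.shiftLeft (nat_lit 0x1) (nat_lit 112)) (.br (Nat.shiftLeft (nat_lit 0x9) (nat_lit 100)) (.br (Nat.shiftLeft (nat_lit 0x1801) (nat_lit 90)) (.br (Nat.shiftLeft (nat_lit 0xa01) (nat_lit 91)) (.br (Nat.shiftLeft (nat_lit 0x5007) (nat_lit 88)) (.one (nat_lit 0x5006012014000a00c024028540)) (.one (nat_lit 0x5007012014000a00e024028540))) (.br (Nat.shiftLeft (nat_lit 0x3) (nat_lit 101)) (.one (nat_lit 0x5008012014000a010024028540)) (.one (nat_lit 0x6000012014000c000024028311)))) (.br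 (Nat.shiftLeft (nat_lit 0x7) (nat_lit 100)) (.br (Nat.shiftLeft (nat_lit 0xc01) (nat_lit 91)) (.one (nat_lit 0x6007012014000c00e024028540)) (.one (nat_lit 0x6008012014000c010024028540))) (.br (Nat.shiftLeft (nat_lit 0xe01) (nat_lit 91)) (.one (nat_lit 0x7000012014000e000024028311)) (.br (Nat.shiftLeft (nat_lit 0x1) (nat_lit 103)) (.one (nat_lit 0x7008012014000e010024028540)) (.one (nat_lit 0x80000120140010000024028311)))))) (.br (Nat.shiftLeft (nat_lit 0x7) (nat_lit 101)) (.br (Nat.shiftLeft (nat_lit 0xb) (nat_lit 100)) (.br (Nat.shiftLeft (nat_lit 0x5) (nat_lit 101)) (.one (nat_lit 0x90000120140012000024028311)) (.one (nat_lit 0xa0000120140014000024028311))) (.br (Nat.shiftLeft (nat_lit 0x3) (nat_lit 102)) (.one (nat_lit 0xb0000120140016000024028311)) (.br (Nat.shiftLeft (nat_lit 0xd) (nat_lit 100)) (.one (nat_lit 0xc0000120140018000024028311)) (.one (nat_lit 0xd000012014001a000024028311))))) (.br (Nat.shiftLeft (nat_lit 0x1) (nat_lit 104)) (.br (Nat.shiftLeft (nat_lit 0xf) (nat_lit 100)) (.one (nat_lit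 0xe000012014001c000024028311)) (.one (nat_lit 0xf000012014001e000024028311))) (.br (Nat.shiftLeft (nat_lit 0x11) (nat_lit 100)) (.one (nat_lit 0x100000120140020000024028311)) (.br (Nat.shiftLeft (nat_lit 0x9) (nat_lit 101)) (.one (nat_lit 0x110000120140022000024028311)) (.one (nat_lit 0x120000120140024000024028311))))))) (.br (Nat.shiftLeft (nat_lit 0x1000003) (nat_lit 89)) (.br (Nat.shiftLeft (nat_lit 0x1000007) (nat_lit 88)) (.br (Nat.shiftLeft (nat_lit 0x1000005) (nat_lit 88)) (.br (Nat.shiftLeft (nat_lit 0x400001) (nat_lit 90)) (.one (nat_lit 0x10000030120142000006024028411)) (.one (nat_lit 0x10000040120142000008024028411))) (.br (Nat.shiftLeft (nat_lit 0x800003) (nat_lit 89)) (.one (nat_lit 0x1000005012014200000a024028411)) (.one (nat_lit 0x1000006012014200000c024028411)))) (.br (Nat.shiftLeft (nat_lit 0x1) (nat_lit 113)) (.br (Nat.shiftLeft (nat_lit 0x200001) (nat_lit 91)) (.one (nat_lit 0x1000007012014200000e024028411)) (.one (nat_lit 0x10000080120142000010024028411))) (.br (Nat.shiftLeft (nat_lit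 0x800001) (nat_lit 90)) (.one (nat_lit 0x20000030120144000006024028411)) (.br (Nat.shiftLeft (nat_lit 0x2000005) (nat_lit 88)) (.one (nat_lit 0x20000040120144000008024028411)) (.one (nat_lit 0x2000005012014400000a024028411)))))) (.br (Nat.shiftLeft (nat_lit 0x3000005) (nat_lit 88)) (.br (Nat.shiftLeft (nat_lit 0x400001) (nat_lit 91)) (.br (Nat.shiftLeft (nat_lit 0x2000007) (nat_lit 88)) (.one (nat_lit 0x2000006012014400000c024028411)) (.one (nat_lit 0x2000007012014400000e024028411))) (.br (Nat.shiftLeft (nat_lit 0x3) (nat_lit 112)) (.one (nat_lit 0x20000080120144000010024028411)) (.br (Nat.shiftLeft (nat_lit 0xc00001) (nat_lit 90)) (.one (nat_lit 0x30000030120146000006024028411)) (.one (nat_lit 0x30000040120146000008024028411))))) (.br (Nat.shiftLeft (nat_lit 0x3000007) (nat_lit 88)) (.br (Nat.shiftLeft (nat_lit 0x1800003) (nat_lit 89)) (.one (nat_lit 0x3000005012014600000a024028411)) (.one (nat_lit 0x3000006012014600000c024028411))) (.br (Nat.shiftLeft (nat_lit 0x600001) (nat_lit 91)) (.one (nat_lit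 0x3000007012014600000e024028411)) (.br (Nat.shiftLeft (nat_lit 0x1) (nat_lit 114)) (.one (nat_lit 0x30000080120146000010024028411)) (.one (nat_lit 0x40000030120148000006024028411))))))))
def t142 : k142.all (jb2 57 fl b0) = true := by decide +kernel
noncomputable def k143 : KT := (.br (Nat.shiftLeft (nat_lit 0x3800003) (nat_lit 89)) (.br (Nat.shiftLeft (nat_lit 0xa00001) (nat_lit 91)) (.br (Nat.shiftLeft (nat_lit 0x5) (nat_lit 112)) (.br (Nat.shiftLeft (nat_lit 0x2000003) (nat_lit 89)) (.br (Nat.shiftLeft (nat_lit 0x4000005) (nat_lit 88)) (.one (nat_lit 0x40000040120148000008024028411)) (.one (nat_lit 0x4000005012014800000a024028411))) (.br (Nat.shiftLeft (nat_lit 0x4000007) (nat_lit 88)) (.one (nat_lit 0x4000006012014800000c024028411)) (.br (Nat.shiftLeft (nat_lit 0x800001) (nat_lit 91)) (.one (nat_lit 0x4000007012014800000e024028411)) (.one (nat_lit 0x40000080120148000010024028411))))) (.br (Nat.shiftLeft (nat_lit 0x5000005) (nat_lit 88)) (.br (Nat.shiftLeft (nat_lit 0x1400001) (nat_lit 90)) (.one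 (nat_lit 0x5000003012014a000006024028411)) (.one (nat_lit 0x5000004012014a000008024028411))) (.br (Nat.shiftLeft (nat_lit 0x2800003) (nat_lit 89)) (.one (nat_lit 0x5000005012014a00000a024028411)) (.br (Nat.shiftLeft (nat_lit 0x5000007) (nat_lit 88)) (.one (nat_lit 0x5000006012014a00000c024028411)) (.one (nat_lit 0x5000007012014a00000e024028411)))))) (.br (Nat.shiftLeft (nat_lit 0x6000007) (nat_lit 88)) (.br (Nat.shiftLeft (nat_lit 0x1800001) (nat_lit 90)) (.br (Nat.shiftLeft (nat_lit 0x3) (nat_lit 113)) (.one (nat_lit 0x5000008012014a000010024028411)) (.one (nat_lit 0x6000003012014c000006024028411))) (.br (Nat.shiftLeft (nat_lit 0x6000005) (nat_lit 88)) (.one (nat_lit 0x6000004012014c000008024028411)) (.br (Nat.shiftLeft (nat_lit 0x3000003) (nat_lit 89)) (.one (nat_lit 0x6000005012014c00000a024028411)) (.one (nat_lit 0x6000006012014c00000c024028411))))) (.br (Nat.shiftLeft (nat_lit 0x7) (nat_lit 112)) (.br (Nat.shiftLeft (nat_lit 0xc00001) (nat_lit 91)) (.one (nat_lit 0x6000007012014c00000e024028411))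 (.one (nat_lit 0x6000008012014c000010024028411))) (.br (Nat.shiftLeft (nat_lit 0x1c00001) (nat_lit 90)) (.one (nat_lit 0x7000003012014e000006024028411)) (.br (Nat.shiftLeft (nat_lit 0x7000005) (nat_lit 88)) (.one (nat_lit 0x7000004012014e000008024028411)) (.one (nat_lit 0x7000005012014e00000a024028411))))))) (.br (Nat.shiftLeft (nat_lit 0x2400001) (nat_lit 90)) (.br (Nat.shiftLeft (nat_lit 0x8000005) (nat_lit 88)) (.br (Nat.shiftLeft (nat_lit 0xe00001) (nat_lit 91)) (.br (Nat.shiftLeft (nat_lit 0x7000007) (nat_lit 88)) (.one (nat_lit 0x7000006012014e00000c024028411)) (.one (nat_lit 0x7000007012014e00000e024028411))) (.br (Nat.shiftLeft (nat_lit 0x1) (nat_lit 115)) (.one (nat_lit 0x7000008012014e000010024028411)) (.br (Nat.shiftLeft (nat_lit 0x2000001) (nat_lit 90)) (.one (nat_lit 0x8000003012014000000602412a411)) (.one (nat_lit 0x8000004012014000000802412a411))))) (.br (Nat.shiftLeft (nat_lit 0x8000007) (nat_lit 88)) (.br (Nat.shiftLeft (nat_lit 0x4000003) (nat_lit 89)) (.one (nat_lit 0x8000005012014000000a02412a411))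 (.one (nat_lit 0x8000006012014000000c02412a411))) (.br (Nat.shiftLeft (nat_lit 0x1000001) (nat_lit 91)) (.one (nat_lit 0x8000007012014000000e02412a411)) (.br (Nat.shiftLeft (nat_lit 0x9) (nat_lit 112)) (.one (nat_lit 0x8000008012014000001002412a411)) (.one (nat_lit 0x9000003012014200000602412a411)))))) (.br (Nat.shiftLeft (nat_lit 0x5) (nat_lit 113)) (.br (Nat.shiftLeft (nat_lit 0x4800003) (nat_lit 89)) (.br (Nat.shiftLeft (nat_lit 0x9000005) (nat_lit 88)) (.one (nat_lit 0x9000004012014200000802412a411)) (.one (nat_lit 0x9000005012014200000a02412a411))) (.br (Nat.shiftLeft (nat_lit 0x9000007) (nat_lit 88)) (.one (nat_lit 0x9000006012014200000c02412a411)) (.br (Nat.shiftLeft (nat_lit 0x1200001) (nat_lit 91)) (.one (nat_lit 0x9000007012014200000e02412a411)) (.one (nat_lit 0x9000008012014200001002412a411))))) (.br (Nat.shiftLeft (nat_lit 0xa000005) (nat_lit 88)) (.br (Nat.shiftLeft (nat_lit 0x2800001) (nat_lit 90)) (.one (nat_lit 0xa000003012014400000602412a411)) (.one (nat_lit 0xa000004012014400000802412a411)))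 (.br (Nat.shiftLeft (nat_lit 0x5000003) (nat_lit 89)) (.one (nat_lit 0xa000005012014400000a02412a411)) (.br (Nat.shiftLeft (nat_lit 0xa000007) (nat_lit 88)) (.one (nat_lit 0xa000006012014400000c02412a411)) (.one (nat_lit 0xa000007012014400000e02412a411))))))))
def t143 : k143.all (jb2 57 fl b0) = true := by decide +kernel
noncomputable def k144 : KT := (.br (Nat.shiftLeft (nat_lit 0xc000007) (nat_lit 88)) (.br (Nat.shiftLeft (nat_lit 0xb000007) (nat_lit 88)) (.br (Nat.shiftLeft (nat_lit 0x2c00001) (nat_lit 90)) (.br (Nat.shiftLeft (nat_lit 0xb) (nat_lit 112)) (.one (nat_lit 0xa000008012014400001002412a411)) (.one (nat_lit 0xb000003012014600000602412a411))) (.br (Nat.shiftLeft (nat_lit 0xb000005) (nat_lit 88)) (.one (nat_lit 0xb000004012014600000802412a411)) (.br (Nat.shiftLeft (nat_lit 0x5800003) (nat_lit 89)) (.one (nat_lit 0xb000005012014600000a02412a411)) (.one (nat_lit 0xb000006012014600000c02412a411))))) (.br (Nat.shiftLeft (nat_lit 0x3000001) (nat_lit 90)) (.br (Nat.shiftLeft (nat_lit 0x1600001)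 (nat_lit 91)) (.one (nat_lit 0xb000007012014600000e02412a411)) (.br (Nat.shiftLeft (nat_lit 0x3) (nat_lit 114)) (.one (nat_lit 0xb000008012014600001002412a411)) (.one (nat_lit 0xc000003012014800000602412a411)))) (.br (Nat.shiftLeft (nat_lit 0xc000005) (nat_lit 88)) (.one (nat_lit 0xc000004012014800000802412a411)) (.br (Nat.shiftLeft (nat_lit 0x6000003) (nat_lit 89)) (.one (nat_lit 0xc000005012014800000a02412a411)) (.one (nat_lit 0xc000006012014800000c02412a411)))))) (.br (Nat.shiftLeft (nat_lit 0x7) (nat_lit 113)) (.br (Nat.shiftLeft (nat_lit 0x3400001) (nat_lit 90)) (.br (Nat.shiftLeft (nat_lit 0xd) (nat_lit 112)) (.one (nat_lit 0xc000007012014800000e02412a411)) (.one (nat_lit 0xd000003012014a00000602412a411))) (.br (Nat.shiftLeft (nat_lit 0xd000005) (nat_lit 88)) (.one (nat_lit 0xd000004012014a00000802412a411)) (.br (Nat.shiftLeft (nat_lit 0x6800003) (nat_lit 89)) (.one (nat_lit 0xd000005012014a00000a02412a411)) (.one (nat_lit 0xd000006012014a00000c02412a411))))) (.br (Nat.shiftLeft (nat_lit 0xf)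 (nat_lit 112)) (.br (Nat.shiftLeft (nat_lit 0x3800001) (nat_lit 90)) (.one (nat_lit 0xe000003012014c00000602412a411)) (.br (Nat.shiftLeft (nat_lit 0xe000005) (nat_lit 88)) (.one (nat_lit 0xe000004012014c00000802412a411)) (.one (nat_lit 0xe000005012014c00000a02412a411)))) (.br (Nat.shiftLeft (nat_lit 0x3c00001) (nat_lit 90)) (.one (nat_lit 0xf000003012014e00000602412a411)) (.br (Nat.shiftLeft (nat_lit 0x1) (nat_lit 116)) (.one (nat_lit 0xf000004012014e00000802412a411)) (.one (nat_lit 0x10000003012014000000602422c411)))))))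
def t144 : k144.all (jb2 57 fl b0) = true := by decide +kernel
noncomputable def s6 : KT := (.br (nat_lit 0x20040120140004008024028540) (.br (nat_lit 0x10030120140002006024028540) (.br (nat_lit 0x90120140000012024028430) (.br (nat_lit 0x80120140000010024029400) k128 k129) (.br (nat_lit 0xc0120140000018024028430) k130 k131)) (.br (nat_lit 0x20000120140004000024028311) (.br (nat_lit 0x1006012014000200c024028540) k132 k133) (.br (nat_lit 0x20030120140004006024028540) k134 k135))) (.br (nat_lit 0x3006012014000600c024028540) (.br (nat_lit 0x30000120140006000024028311) (.br (nat_lit 0x2006012014000400c024028540) k136 k137) (.br (nat_lit 0x30040120140006008024028540) k138 k139)) (.br (nat_lit 0x5000012014000a000024028311) (.br (nat_lit 0x4005012014000800a024028540) k140 k141) (.br (nat_lit 0x40000030120148000006024028411) k142 (.br (nat_lit 0xa000007012014400000e02412a411) k143 k144)))))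
noncomputable def u6 : KT := (.one (nat_lit 0x120140000000024028320))
def w6 : u6.all (wj 57 s6) = true := by decide +kernel
def o6 : OkW 57 (jb2 57 fl) u6 := .lift s6 _ (.br _ _ _ (.br _ _ _ (.br _ _ _ (.br _ _ _ (.leaf b0 k128 t128) (.leaf b0 k129 t129)) (.br _ _ _ (.leaf b0 k130 t130) (.leaf b0 k131 t131))) (.br _ _ _ (.br _ _ _ (.leaf b0 k132 t132) (.leaf b0 k133 t133)) (.br _ _ _ (.leaf b0 k134 t134) (.leaf b0 k135 t135)))) (.br _ _ _ (.br _ _ _ (.br _ _ _ (.leaf b0 k136 t136) (.leaf b0 k137 t137)) (.br _ _ _ (.leaf b0 k138 t138) (.leaf b0 k139 t139))) (.br _ _ _ (.br _ _ _ (.leaf b0 k140 t140) (.leaf b0 k141 t141)) (.br _ _ _ (.leaf b0 k142 t142) (.br _ _ _ (.leaf b0 k143 t143) (.leaf b0 k144 t144)))))) w6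
noncomputable def k145 : KT := (.br (Nat.shiftLeft (nat_lit 0x80900b) (nat_lit 65)) (.br (Nat.shiftLeft (nat_lit 0x900b) (nat_lit 65)) (.one (nat_lit 0x12015000000002402b300)) (.br (Nat.shiftLeft (nat_lit 0x1) (nat_lit 88)) (.one (nat_lit 0x12016000000002402d300)) (.one (nat_lit 0x1012015000000202402a430)))) (.br (Nat.shiftLeft (nat_lit 0x100900b) (nat_lit 65)) (.br (Nat.shiftLeft (nat_lit 0x1) (nat_lit 89)) (.one (nat_lit 0x1012016000000202402c430)) (.one (nat_lit 0x2012015000000402402a430))) (.br (Nat.shiftLeft (nat_lit 0x3) (nat_lit 88)) (.one (nat_lit 0x2012016000000402402c430)) (.one (nat_lit 0x3012015000000602402b400)))))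
def t145 : k145.all (jb2 57 fl b0) = true := by decide +kernel
noncomputable def k146 : KT := (.br (Nat.shiftLeft (nat_lit 0x5) (nat_lit 88)) (.br (Nat.shiftLeft (nat_lit 0x1) (nat_lit 90)) (.one (nat_lit 0x3012016000000602402c430)) (.br (Nat.shiftLeft (nat_lit 0x200900b) (nat_lit 65)) (.one (nat_lit 0x4012015000000802402b400)) (.one (nat_lit 0x4012016000000802402d400)))) (.br (Nat.shiftLeft (nat_lit 0x280900b) (nat_lit 65)) (.one (nat_lit 0x5012015000000a02402b400)) (.br (Nat.shiftLeft (nat_lit 0x3) (nat_lit 89)) (.one (nat_lit 0x5012016000000a02402d400)) (.one (nat_lit 0x6012015000000c02402b400)))))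
def t146 : k146.all (jb2 57 fl b0) = true := by decide +kernel
noncomputable def k147 : KT := (.br (Nat.shiftLeft (nat_lit 0x7) (nat_lit 88)) (.one (nat_lit 0x6012016000000c02402c430)) (.one (nat_lit 0x7012015000000e02402b400)))
def t147 : k147.all (jb2 57 fl b0) = true := by decide +kernel
noncomputable def k148 : KT := (.one (nat_lit 0x7012016000000e02402c430))
def t148 : k148.all (jb2 57 fl b0) = true := by decide +kernel
noncomputable def k149 : KT := (.one (nat_lit 0x8012015000001002402a430))
def t149 : k149.all (jb2 57 fl b0) = true := by decide +kernel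
noncomputable def k150 : KT := (.br (Nat.shiftLeft (nat_lit 0x9) (nat_lit 88)) (.one (nat_lit 0x8012016000001002402c430)) (.one (nat_lit 0x9012015000001202402a430)))
def t150 : k150.all (jb2 57 fl b0) = true := by decide +kernel
noncomputable def k151 : KT := (.br (Nat.shiftLeft (nat_lit 0x5) (nat_lit 89)) (.one (nat_lit 0x9012016000001202402c430)) (.br (Nat.shiftLeft (nat_lit 0x500900b) (nat_lit 65)) (.one (nat_lit 0xa012015000001402402a430)) (.one (nat_lit 0xa012016000001402402c430))))
def t151 : k151.all (jb2 57 fl b0) = true := by decide +kernel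
noncomputable def k152 : KT := (.br (Nat.shiftLeft (nat_lit 0xf) (nat_lit 88)) (.br (Nat.shiftLeft (nat_lit 0xd) (nat_lit 88)) (.br (Nat.shiftLeft (nat_lit 0x3) (nat_lit 90)) (.br (Nat.shiftLeft (nat_lit 0x580900b) (nat_lit 65)) (.one (nat_lit 0xb012015000001602402a430)) (.one (nat_lit 0xb012016000001602402c430))) (.br (Nat.shiftLeft (nat_lit 0x600900b) (nat_lit 65)) (.one (nat_lit 0xc012015000001802402a430)) (.one (nat_lit 0xc012016000001802402c430)))) (.br (Nat.shiftLeft (nat_lit 0x7) (nat_lit 89)) (.br (Nat.shiftLeft (nat_lit 0x680900b) (nat_lit 65)) (.one (nat_lit 0xd012015000001a02402a430)) (.one (nat_lit 0xd012016000001a02402c430))) (.br (Nat.shiftLeft (nat_lit 0x700900b) (nat_lit 65)) (.one (nat_lit 0xe012015000001c02402a430)) (.one (nat_lit 0xe012016000001c02402c430))))) (.br (Nat.shiftLeft (nat_lit 0x11) (nat_lit 88)) (.br (Nat.shiftLeft (nat_lit 0x1) (nat_lit 92)) (.br (Nat.shiftLeft (nat_lit 0x780900b) (nat_lit 65)) (.one (nat_lit 0xf012015000001e02402a430)) (.one (nat_lit 0xf012016000001e02402c430)))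 (.br (Nat.shiftLeft (nat_lit 0x800900b) (nat_lit 65)) (.one (nat_lit 0x10012015000002002402a430)) (.one (nat_lit 0x10012016000002002402c430)))) (.br (Nat.shiftLeft (nat_lit 0x1) (nat_lit 100)) (.br (Nat.shiftLeft (nat_lit 0x880900b) (nat_lit 65)) (.one (nat_lit 0x11012015000002202402a430)) (.one (nat_lit 0x11012016000002202402c430))) (.br (Nat.shiftLeft (nat_lit 0x80000900b) (nat_lit 65)) (.one (nat_lit 0x1000012015000200002402a311)) (.one (nat_lit 0x1000012016000200002402c311))))))
def t152 : k152.all (jb2 57 fl b0) = true := by decide +kernel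
noncomputable def k153 : KT := (.br (Nat.shiftLeft (nat_lit 0x401) (nat_lit 90)) (.one (nat_lit 0x1003012015000200602402a540)) (.br (Nat.shiftLeft (nat_lit 0x80200900b) (nat_lit 65)) (.one (nat_lit 0x1004012015000200802402a540)) (.one (nat_lit 0x1004012016000200802402c540))))
def t153 : k153.all (jb2 57 fl b0) = true := by decide +kernel
noncomputable def k154 : KT := (.br (Nat.shiftLeft (nat_lit 0x1007) (nat_lit 88)) (.br (Nat.shiftLeft (nat_lit 0x80280900b) (nat_lit 65)) (.one (nat_lit 0x1005012015000200a02402a540)) (.br (Nat.shiftLeft (nat_lit 0x803) (nat_lit 89)) (.one (nat_lit 0x1005012016000200a02402c540)) (.one (nat_lit 0x1006012015000200c02402a540)))) (.br (Nat.shiftLeft (nat_lit 0x1) (nat_lit 101)) (.one (nat_lit 0x1007012015000200e02402a540)) (.br (Nat.shiftLeft (nat_lit 0x100000900b) (nat_lit 65)) (.one (nat_lit 0x2000012015000400002402a311)) (.one (nat_lit 0x2000012016000400002402c311)))))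
def t154 : k154.all (jb2 57 fl b0) = true := by decide +kernel
noncomputable def k155 : KT := (.one (nat_lit 0x2003012015000400602402a540))
def t155 : k155.all (jb2 57 fl b0) = true := by decide +kernel
noncomputable def k156 : KT := (.br (Nat.shiftLeft (nat_lit 0x100200900b) (nat_lit 65)) (.one (nat_lit 0x2004012015000400802402a540)) (.one (nat_lit 0x2004012016000400802402c540)))
def t156 : k156.all (jb2 57 fl b0) = true := by decide +kernel
noncomputable def k157 : KT := (.br (Nat.shiftLeft (nat_lit 0x100280900b) (nat_lit 65)) (.one (nat_lit 0x2005012015000400a02402a540)) (.br (Nat.shiftLeft (nat_lit 0x1003) (nat_lit 89)) (.one (nat_lit 0x2005012016000400a02402c540)) (.one (nat_lit 0x2006012015000400c02402a540))))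
def t157 : k157.all (jb2 57 fl b0) = true := by decide +kernel
noncomputable def k158 : KT := (.br (Nat.shiftLeft (nat_lit 0x180000900b) (nat_lit 65)) (.br (Nat.shiftLeft (nat_lit 0x3) (nat_lit 100)) (.one (nat_lit 0x2007012015000400e02402a540)) (.one (nat_lit 0x3000012015000600002402a311))) (.br (Nat.shiftLeft (nat_lit 0xc01) (nat_lit 90)) (.one (nat_lit 0x3000012016000600002402c311)) (.one (nat_lit 0x3004012015000600802402a540))))
def t158 : k158.all (jb2 57 fl b0) = true := by decide +kernel
noncomputable def k159 : KT := (.br (Nat.shiftLeft (nat_lit 0x3005) (nat_lit 88)) (.one (nat_lit 0x3004012016000600802402c540)) (.one (nat_lit 0x3005012015000600a02402a540)))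
def t159 : k159.all (jb2 57 fl b0) = true := by decide +kernel
noncomputable def k160 : KT := (.br (Nat.shiftLeft (nat_lit 0x3007) (nat_lit 88)) (.br (Nat.shiftLeft (nat_lit 0x1803) (nat_lit 89)) (.one (nat_lit 0x3005012016000600a02402c540)) (.one (nat_lit 0x3006012015000600c02402a540))) (.br (Nat.shiftLeft (nat_lit 0x1) (nat_lit 102)) (.one (nat_lit 0x3007012015000600e02402a540)) (.br (Nat.shiftLeft (nat_lit 0x200000900b) (nat_lit 65)) (.one (nat_lit 0x4000012015000800002402a311)) (.one (nat_lit 0x4000012016000800002402c311)))))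
def t160 : k160.all (jb2 57 fl b0) = true := by decide +kernel
noncomputable def k161 : KT := (.br (Nat.shiftLeft (nat_lit 0x200280900b) (nat_lit 65)) (.one (nat_lit 0x4005012015000800a02402a540)) (.br (Nat.shiftLeft (nat_lit 0x2003) (nat_lit 89)) (.one (nat_lit 0x4005012016000800a02402c540)) (.one (nat_lit 0x4006012015000800c02402a540))))
def t161 : k161.all (jb2 57 fl b0) = true := by decide +kernel
noncomputable def k162 : KT := (.br (Nat.shiftLeft (nat_lit 0xd) (nat_lit 100)) (.br (Nat.shiftLeft (nat_lit 0x1) (nat_lit 103)) (.br (Nat.shiftLeft (nat_lit 0x3) (nat_lit 101)) (.br (Nat.shiftLeft (nat_lit 0x280000900b) (nat_lit 65)) (.br (Nat.shiftLeft (nat_lit 0x5) (nat_lit 100)) (.one (nat_lit 0x4007012015000800e02402a540)) (.one (nat_lit 0x5000012015000a00002402a311))) (.br (Nat.shiftLeft (nat_lit 0x1401) (nat_lit 90)) (.one (nat_lit 0x5000012016000a00002402c311)) (.br (Nat.shiftLeft (nat_lit 0x5007) (nat_lit 88)) (.one (nat_lit 0x5006012015000a00c02402a540)) (.one (nat_lit 0x5007012015000a00e02402a540)))))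 (.br (Nat.shiftLeft (nat_lit 0x1801) (nat_lit 90)) (.br (Nat.shiftLeft (nat_lit 0x300000900b) (nat_lit 65)) (.one (nat_lit 0x6000012015000c00002402a311)) (.one (nat_lit 0x6000012016000c00002402c311))) (.br (Nat.shiftLeft (nat_lit 0x7) (nat_lit 100)) (.one (nat_lit 0x6007012015000c00e02402a540)) (.br (Nat.shiftLeft (nat_lit 0x380000900b) (nat_lit 65)) (.one (nat_lit 0x7000012015000e00002402a311)) (.one (nat_lit 0x7000012016000e00002402c311)))))) (.br (Nat.shiftLeft (nat_lit 0x500000900b) (nat_lit 65)) (.br (Nat.shiftLeft (nat_lit 0x9) (nat_lit 100)) (.br (Nat.shiftLeft (nat_lit 0x400000900b) (nat_lit 65)) (.one (nat_lit 0x8000012015001000002402a311)) (.one (nat_lit 0x8000012016001000002402c311))) (.br (Nat.shiftLeft (nat_lit 0x480000900b) (nat_lit 65)) (.one (nat_lit 0x9000012015001200002402a311)) (.br (Nat.shiftLeft (nat_lit 0x5) (nat_lit 101)) (.one (nat_lit 0x9000012016001200002402c311)) (.one (nat_lit 0xa000012015001400002402a311))))) (.br (Nat.shiftLeft (nat_lit 0x580000900b) (nat_lit 65)) (.br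 (Nat.shiftLeft (nat_lit 0xb) (nat_lit 100)) (.one (nat_lit 0xa000012016001400002402c311)) (.one (nat_lit 0xb000012015001600002402a311))) (.br (Nat.shiftLeft (nat_lit 0x3) (nat_lit 102)) (.one (nat_lit 0xb000012016001600002402c311)) (.br (Nat.shiftLeft (nat_lit 0x600000900b) (nat_lit 65)) (.one (nat_lit 0xc000012015001800002402a311)) (.one (nat_lit 0xc000012016001800002402c311))))))) (.br (Nat.shiftLeft (nat_lit 0x9) (nat_lit 101)) (.br (Nat.shiftLeft (nat_lit 0x780000900b) (nat_lit 65)) (.br (Nat.shiftLeft (nat_lit 0x7) (nat_lit 101)) (.br (Nat.shiftLeft (nat_lit 0x680000900b) (nat_lit 65)) (.one (nat_lit 0xd000012015001a00002402a311)) (.one (nat_lit 0xd000012016001a00002402c311))) (.br (Nat.shiftLeft (nat_lit 0x700000900b) (nat_lit 65)) (.one (nat_lit 0xe000012015001c00002402a311)) (.br (Nat.shiftLeft (nat_lit 0xf) (nat_lit 100)) (.one (nat_lit 0xe000012016001c00002402c311)) (.one (nat_lit 0xf000012015001e00002402a311))))) (.br (Nat.shiftLeft (nat_lit 0x800000900b) (nat_lit 65)) (.br (Nat.shiftLeft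 (nat_lit 0x1) (nat_lit 104)) (.one (nat_lit 0xf000012016001e00002402c311)) (.one (nat_lit 0x10000012015002000002402a311))) (.br (Nat.shiftLeft (nat_lit 0x11) (nat_lit 100)) (.one (nat_lit 0x10000012016002000002402c311)) (.br (Nat.shiftLeft (nat_lit 0x880000900b) (nat_lit 65)) (.one (nat_lit 0x11000012015002200002402a311)) (.one (nat_lit 0x11000012016002200002402c311)))))) (.br (Nat.shiftLeft (nat_lit 0x80000280900b) (nat_lit 65)) (.br (Nat.shiftLeft (nat_lit 0x400001) (nat_lit 90)) (.br (Nat.shiftLeft (nat_lit 0x1) (nat_lit 112)) (.one (nat_lit 0x12000012015002400002402a311)) (.one (nat_lit 0x1000003012015200000602402a411))) (.br (Nat.shiftLeft (nat_lit 0x80000200900b) (nat_lit 65)) (.one (nat_lit 0x1000004012015200000802402a411)) (.br (Nat.shiftLeft (nat_lit 0x1000005) (nat_lit 88)) (.one (nat_lit 0x1000004012016200000802402c411)) (.one (nat_lit 0x1000005012015200000a02402a411))))) (.br (Nat.shiftLeft (nat_lit 0x1000007) (nat_lit 88)) (.br (Nat.shiftLeft (nat_lit 0x800003) (nat_lit 89)) (.one (nat_lit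 0x1000005012016200000a02402c411)) (.one (nat_lit 0x1000006012015200000c02402a411))) (.br (Nat.shiftLeft (nat_lit 0x1) (nat_lit 113)) (.one (nat_lit 0x1000007012015200000e02402a411)) (.br (Nat.shiftLeft (nat_lit 0x800001) (nat_lit 90)) (.one (nat_lit 0x2000003012015400000602402a411)) (.one (nat_lit 0x2000004012015400000802402a411))))))))
def t162 : k162.all (jb2 57 fl b0) = true := by decide +kernel
noncomputable def k163 : KT := (.br (Nat.shiftLeft (nat_lit 0x1400001) (nat_lit 90)) (.br (Nat.shiftLeft (nat_lit 0x1800003) (nat_lit 89)) (.br (Nat.shiftLeft (nat_lit 0x3) (nat_lit 112)) (.br (Nat.shiftLeft (nat_lit 0x100000280900b) (nat_lit 65)) (.br (Nat.shiftLeft (nat_lit 0x2000005) (nat_lit 88)) (.one (nat_lit 0x2000004012016400000802402c411)) (.one (nat_lit 0x2000005012015400000a02402a411))) (.br (Nat.shiftLeft (nat_lit 0x1000003) (nat_lit 89)) (.one (nat_lit 0x2000005012016400000a02402c411)) (.br (Nat.shiftLeft (nat_lit 0x2000007) (nat_lit 88)) (.one (nat_lit 0x2000006012015400000c02402a411)) (.one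 (nat_lit 0x2000007012015400000e02402a411))))) (.br (Nat.shiftLeft (nat_lit 0x180000200900b) (nat_lit 65)) (.br (Nat.shiftLeft (nat_lit 0xc00001) (nat_lit 90)) (.one (nat_lit 0x3000003012015600000602402a411)) (.one (nat_lit 0x3000004012015600000802402a411))) (.br (Nat.shiftLeft (nat_lit 0x3000005) (nat_lit 88)) (.one (nat_lit 0x3000004012016600000802402c411)) (.br (Nat.shiftLeft (nat_lit 0x180000280900b) (nat_lit 65)) (.one (nat_lit 0x3000005012015600000a02402a411)) (.one (nat_lit 0x3000005012016600000a02402c411)))))) (.br (Nat.shiftLeft (nat_lit 0x4000005) (nat_lit 88)) (.br (Nat.shiftLeft (nat_lit 0x1) (nat_lit 114)) (.br (Nat.shiftLeft (nat_lit 0x3000007) (nat_lit 88)) (.one (nat_lit 0x3000006012015600000c02402a411)) (.one (nat_lit 0x3000007012015600000e02402a411))) (.br (Nat.shiftLeft (nat_lit 0x1000001) (nat_lit 90)) (.one (nat_lit 0x4000003012015800000602402a411)) (.br (Nat.shiftLeft (nat_lit 0x200000200900b) (nat_lit 65)) (.one (nat_lit 0x4000004012015800000802402a411)) (.one (nat_lit 0x4000004012016800000802402c411)))))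 (.br (Nat.shiftLeft (nat_lit 0x2000003) (nat_lit 89)) (.br (Nat.shiftLeft (nat_lit 0x200000280900b) (nat_lit 65)) (.one (nat_lit 0x4000005012015800000a02402a411)) (.one (nat_lit 0x4000005012016800000a02402c411))) (.br (Nat.shiftLeft (nat_lit 0x4000007) (nat_lit 88)) (.one (nat_lit 0x4000006012015800000c02402a411)) (.br (Nat.shiftLeft (nat_lit 0x5) (nat_lit 112)) (.one (nat_lit 0x4000007012015800000e02402a411)) (.one (nat_lit 0x5000003012015a00000602402a411))))))) (.br (Nat.shiftLeft (nat_lit 0x300000280900b) (nat_lit 65)) (.br (Nat.shiftLeft (nat_lit 0x5000007) (nat_lit 88)) (.br (Nat.shiftLeft (nat_lit 0x5000005) (nat_lit 88)) (.br (Nat.shiftLeft (nat_lit 0x280000200900b) (nat_lit 65)) (.one (nat_lit 0x5000004012015a00000802402a411)) (.one (nat_lit 0x5000004012016a00000802402c411))) (.br (Nat.shiftLeft (nat_lit 0x280000280900b) (nat_lit 65)) (.one (nat_lit 0x5000005012015a00000a02402a411)) (.br (Nat.shiftLeft (nat_lit 0x2800003) (nat_lit 89)) (.one (nat_lit 0x5000005012016a00000a02402c411)) (.one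 (nat_lit 0x5000006012015a00000c02402a411))))) (.br (Nat.shiftLeft (nat_lit 0x1800001) (nat_lit 90)) (.br (Nat.shiftLeft (nat_lit 0x3) (nat_lit 113)) (.one (nat_lit 0x5000007012015a00000e02402a411)) (.one (nat_lit 0x6000003012015c00000602402a411))) (.br (Nat.shiftLeft (nat_lit 0x300000200900b) (nat_lit 65)) (.one (nat_lit 0x6000004012015c00000802402a411)) (.br (Nat.shiftLeft (nat_lit 0x6000005) (nat_lit 88)) (.one (nat_lit 0x6000004012016c00000802402c411)) (.one (nat_lit 0x6000005012015c00000a02402a411)))))) (.br (Nat.shiftLeft (nat_lit 0x380000200900b) (nat_lit 65)) (.br (Nat.shiftLeft (nat_lit 0x6000007) (nat_lit 88)) (.br (Nat.shiftLeft (nat_lit 0x3000003) (nat_lit 89)) (.one (nat_lit 0x6000005012016c00000a02402c411)) (.one (nat_lit 0x6000006012015c00000c02402a411))) (.br (Nat.shiftLeft (nat_lit 0x7) (nat_lit 112)) (.one (nat_lit 0x6000007012015c00000e02402a411)) (.br (Nat.shiftLeft (nat_lit 0x1c00001) (nat_lit 90)) (.one (nat_lit 0x7000003012015e00000602402a411)) (.one (nat_lit 0x7000004012015e00000802402a411)))))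 (.br (Nat.shiftLeft (nat_lit 0x380000280900b) (nat_lit 65)) (.br (Nat.shiftLeft (nat_lit 0x7000005) (nat_lit 88)) (.one (nat_lit 0x7000004012016e00000802402c411)) (.one (nat_lit 0x7000005012015e00000a02402a411))) (.br (Nat.shiftLeft (nat_lit 0x3800003) (nat_lit 89)) (.one (nat_lit 0x7000005012016e00000a02402c411)) (.br (Nat.shiftLeft (nat_lit 0x7000007) (nat_lit 88)) (.one (nat_lit 0x7000006012015e00000c02402a411)) (.one (nat_lit 0x7000007012015e00000e02402a411))))))))
def t163 : k163.all (jb2 57 fl b0) = true := by decide +kernel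
noncomputable def k164 : KT := (.br (Nat.shiftLeft (nat_lit 0xa000007) (nat_lit 88)) (.br (Nat.shiftLeft (nat_lit 0x9000005) (nat_lit 88)) (.br (Nat.shiftLeft (nat_lit 0x4000003) (nat_lit 89)) (.br (Nat.shiftLeft (nat_lit 0x400000200900b) (nat_lit 65)) (.br (Nat.shiftLeft (nat_lit 0x2000001) (nat_lit 90)) (.one (nat_lit 0x8000003012015000000602412c411)) (.one (nat_lit 0x8000004012015000000802412c411))) (.br (Nat.shiftLeft (nat_lit 0x8000005) (nat_lit 88)) (.one (nat_lit 0x8000004012016000000802412e411)) (.br (Nat.shiftLeft (nat_lit 0x400000280900b) (nat_lit 65)) (.one (nat_lit 0x8000005012015000000a02412c411)) (.one (nat_lit 0x8000005012016000000a02412e411))))) (.br (Nat.shiftLeft (nat_lit 0x9) (nat_lit 112)) (.br (Nat.shiftLeft (nat_lit 0x8000007) (nat_lit 88)) (.one (nat_lit 0x8000006012015000000c02412c411)) (.one (nat_lit 0x8000007012015000000e02412c411))) (.br (Nat.shiftLeft (nat_lit 0x2400001) (nat_lit 90)) (.one (nat_lit 0x9000003012015200000602412c411)) (.br (Nat.shiftLeft (nat_lit 0x480000200900b)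 (nat_lit 65)) (.one (nat_lit 0x9000004012015200000802412c411)) (.one (nat_lit 0x9000004012016200000802412e411)))))) (.br (Nat.shiftLeft (nat_lit 0x2800001) (nat_lit 90)) (.br (Nat.shiftLeft (nat_lit 0x4800003) (nat_lit 89)) (.br (Nat.shiftLeft (nat_lit 0x480000280900b) (nat_lit 65)) (.one (nat_lit 0x9000005012015200000a02412c411)) (.one (nat_lit 0x9000005012016200000a02412e411))) (.br (Nat.shiftLeft (nat_lit 0x9000007) (nat_lit 88)) (.one (nat_lit 0x9000006012015200000c02412c411)) (.br (Nat.shiftLeft (nat_lit 0x5) (nat_lit 113)) (.one (nat_lit 0x9000007012015200000e02412c411)) (.one (nat_lit 0xa000003012015400000602412c411))))) (.br (Nat.shiftLeft (nat_lit 0xa000005) (nat_lit 88)) (.br (Nat.shiftLeft (nat_lit 0x500000200900b) (nat_lit 65)) (.one (nat_lit 0xa000004012015400000802412c411)) (.one (nat_lit 0xa000004012016400000802412e411))) (.br (Nat.shiftLeft (nat_lit 0x500000280900b) (nat_lit 65)) (.one (nat_lit 0xa000005012015400000a02412c411)) (.br (Nat.shiftLeft (nat_lit 0x5000003) (nat_lit 89)) (.one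 (nat_lit 0xa000005012016400000a02412e411)) (.one (nat_lit 0xa000006012015400000c02412c411))))))) (.br (Nat.shiftLeft (nat_lit 0x600000200900b) (nat_lit 65)) (.br (Nat.shiftLeft (nat_lit 0x580000280900b) (nat_lit 65)) (.br (Nat.shiftLeft (nat_lit 0x2c00001) (nat_lit 90)) (.br (Nat.shiftLeft (nat_lit 0xb) (nat_lit 112)) (.one (nat_lit 0xa000007012015400000e02412c411)) (.one (nat_lit 0xb000003012015600000602412c411))) (.br (Nat.shiftLeft (nat_lit 0x580000200900b) (nat_lit 65)) (.one (nat_lit 0xb000004012015600000802412c411)) (.br (Nat.shiftLeft (nat_lit 0xb000005) (nat_lit 88)) (.one (nat_lit 0xb000004012016600000802412e411)) (.one (nat_lit 0xb000005012015600000a02412c411))))) (.br (Nat.shiftLeft (nat_lit 0xb000007) (nat_lit 88)) (.br (Nat.shiftLeft (nat_lit 0x5800003) (nat_lit 89)) (.one (nat_lit 0xb000005012016600000a02412e411)) (.one (nat_lit 0xb000006012015600000c02412c411))) (.br (Nat.shiftLeft (nat_lit 0x3) (nat_lit 114)) (.one (nat_lit 0xb000007012015600000e02412c411)) (.br (Nat.shiftLeft (nat_lit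 0x3000001) (nat_lit 90)) (.one (nat_lit 0xc000003012015800000602412c411)) (.one (nat_lit 0xc000004012015800000802412c411)))))) (.br (Nat.shiftLeft (nat_lit 0x3400001) (nat_lit 90)) (.br (Nat.shiftLeft (nat_lit 0x600000280900b) (nat_lit 65)) (.br (Nat.shiftLeft (nat_lit 0xc000005) (nat_lit 88)) (.one (nat_lit 0xc000004012016800000802412e411)) (.one (nat_lit 0xc000005012015800000a02412c411))) (.br (Nat.shiftLeft (nat_lit 0x6000003) (nat_lit 89)) (.one (nat_lit 0xc000005012016800000a02412e411)) (.br (Nat.shiftLeft (nat_lit 0xd) (nat_lit 112)) (.one (nat_lit 0xc000006012015800000c02412c411)) (.one (nat_lit 0xd000003012015a00000602412c411))))) (.br (Nat.shiftLeft (nat_lit 0xd000005) (nat_lit 88)) (.br (Nat.shiftLeft (nat_lit 0x680000200900b) (nat_lit 65)) (.one (nat_lit 0xd000004012015a00000802412c411)) (.one (nat_lit 0xd000004012016a00000802412e411))) (.br (Nat.shiftLeft (nat_lit 0x7) (nat_lit 113)) (.one (nat_lit 0xd000005012015a00000a02412c411)) (.br (Nat.shiftLeft (nat_lit 0x3800001) (nat_lit 90)) (.one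 (nat_lit 0xe000003012015c00000602412c411)) (.one (nat_lit 0xe000004012015c00000802412c411))))))))
def t164 : k164.all (jb2 57 fl b0) = true := by decide +kernel
noncomputable def k165 : KT := (.one (nat_lit 0xf000003012015e00000602412c411))
def t165 : k165.all (jb2 57 fl b0) = true := by decide +kernel
noncomputable def s7 : KT := (.br (nat_lit 0x2000012016000400002402c311) (.br (nat_lit 0x8012015000001002402a430) (.br (nat_lit 0x6012015000000c02402b400) (.br (nat_lit 0x3012015000000602402b400) k145 k146) (.br (nat_lit 0x7012015000000e02402b400) k147 (.br (nat_lit 0x7012016000000e02402c430) k148 k149))) (.br (nat_lit 0xa012016000001402402c430) (.br (nat_lit 0x9012015000001202402a430) k150 k151) (.br (nat_lit 0x1000012016000200002402c311) k152 (.br (nat_lit 0x1004012016000200802402c540) k153 k154)))) (.br (nat_lit 0x3005012015000600a02402a540) (.br (nat_lit 0x2004012016000400802402c540) (.br (nat_lit 0x2003012015000400602402a540) k155 k156) (.br (nat_lit 0x2006012015000400c02402a540) k157 (.br (nat_lit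 0x3004012015000600802402a540) k158 k159))) (.br (nat_lit 0x2000004012015400000802402a411) (.br (nat_lit 0x4000012016000800002402c311) k160 (.br (nat_lit 0x4006012015000800c02402a540) k161 k162)) (.br (nat_lit 0x7000007012015e00000e02402a411) k163 (.br (nat_lit 0xe000004012015c00000802412c411) k164 k165)))))
noncomputable def u7 : KT := (.br (Nat.shiftLeft (nat_lit 0x900b) (nat_lit 65)) (.one (nat_lit 0x12015000000002402a320)) (.one (nat_lit 0x12016000000002402c320)))
def w7 : u7.all (wj 57 s7) = true := by decide +kernel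
def o7 : OkW 57 (jb2 57 fl) u7 := .lift s7 _ (.br _ _ _ (.br _ _ _ (.br _ _ _ (.br _ _ _ (.leaf b0 k145 t145) (.leaf b0 k146 t146)) (.br _ _ _ (.leaf b0 k147 t147) (.br _ _ _ (.leaf b0 k148 t148) (.leaf b0 k149 t149)))) (.br _ _ _ (.br _ _ _ (.leaf b0 k150 t150) (.leaf b0 k151 t151)) (.br _ _ _ (.leaf b0 k152 t152) (.br _ _ _ (.leaf b0 k153 t153) (.leaf b0 k154 t154))))) (.br _ _ _ (.br _ _ _ (.br _ _ _ (.leaf b0 k155 t155) (.leaf b0 k156 t156)) (.br _ _ _ (.leaf b0 k157 t157) (.br _ _ _ (.leaf b0 k158 t158) (.leaf b0 k159 t159)))) (.br _ _ _ (.br _ _ _ (.leaf b0 k160 t160) (.br _ _ _ (.leaf b0 k161 t161) (.leaf b0 k162 t162))) (.br _ _ _ (.leaf b0 k163 t163) (.br _ _ _ (.leaf b0 k164 t164) (.leaf b0 k165 t165)))))) w7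
noncomputable def k166 : KT := (.br (Nat.shiftLeft (nat_lit 0x900d) (nat_lit 65)) (.br (Nat.shiftLeft (nat_lit 0x2403) (nat_lit 67)) (.one (nat_lit 0x12017000000002402f300)) (.br (Nat.shiftLeft (nat_lit 0x12019) (nat_lit 64)) (.one (nat_lit 0x120180000000024031300)) (.one (nat_lit 0x120190000000024033300)))) (.br (Nat.shiftLeft (nat_lit 0x1201b) (nat_lit 64)) (.one (nat_lit 0x1201a0000000024035300)) (.br (Nat.shiftLeft (nat_lit 0x4807) (nat_lit 66)) (.one (nat_lit 0x1201b0000000024037300)) (.one (nat_lit 0x1201c0000000024038320)))))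
def t166 : k166.all (jb2 57 fl b0) = true := by decide +kernel
noncomputable def k167 : KT := (.br (Nat.shiftLeft (nat_lit 0x900f) (nat_lit 65)) (.one (nat_lit 0x1201d000000002403a320)) (.one (nat_lit 0x1201e000000002403c320)))
def t167 : k167.all (jb2 57 fl b0) = true := by decide +kernel
noncomputable def k168 : KT := (.br (Nat.shiftLeft (nat_lit 0x202403) (nat_lit 67)) (.br (Nat.shiftLeft (nat_lit 0x12021) (nat_lit 64)) (.br (Nat.shiftLeft (nat_lit 0x901) (nat_lit 69)) (.one (nat_lit 0x1201f000000002403e320)) (.one (nat_lit 0x120200000000024040320))) (.br (Nat.shiftLeft (nat_lit 0x1) (nat_lit 88)) (.one (nat_lit 0x120210000000024042320)) (.one (nat_lit 0x1012017000000202402e430)))) (.br (Nat.shiftLeft (nat_lit 0x80900d) (nat_lit 65)) (.br (Nat.shiftLeft (nat_lit 0x1012019) (nat_lit 64)) (.one (nat_lit 0x10120180000002024030430)) (.one (nat_lit 0x10120190000002024032430))) (.br (Nat.shiftLeft (nat_lit 0x101201b) (nat_lit 64)) (.one (nat_lit 0x101201a0000002024034430)) (.one (nat_lit 0x101201b0000002024036430)))))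
def t168 : k168.all (jb2 57 fl b0) = true := by decide +kernel
noncomputable def k169 : KT := (.br (Nat.shiftLeft (nat_lit 0x402403) (nat_lit 67)) (.one (nat_lit 0x2012017000000402402e430)) (.br (Nat.shiftLeft (nat_lit 0x2012019) (nat_lit 64)) (.one (nat_lit 0x20120180000004024030430)) (.one (nat_lit 0x20120190000004024032430))))
def t169 : k169.all (jb2 57 fl b0) = true := by decide +kernel
noncomputable def k170 : KT := (.br (Nat.shiftLeft (nat_lit 0x201201b) (nat_lit 64)) (.one (nat_lit 0x201201a0000004024034430)) (.one (nat_lit 0x201201b0000004024036430)))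
def t170 : k170.all (jb2 57 fl b0) = true := by decide +kernel
noncomputable def k171 : KT := (.one (nat_lit 0x3012017000000602402e430))
def t171 : k171.all (jb2 57 fl b0) = true := by decide +kernel
noncomputable def k172 : KT := (.one (nat_lit 0x30120180000006024030430))
def t172 : k172.all (jb2 57 fl b0) = true := by decide +kernel
noncomputable def k173 : KT := (.br (Nat.shiftLeft (nat_lit 0x180900d) (nat_lit 65)) (.one (nat_lit 0x30120190000006024032430)) (.one (nat_lit 0x301201a0000006024034430)))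
def t173 : k173.all (jb2 57 fl b0) = true := by decide +kernel
noncomputable def k174 : KT := (.one (nat_lit 0x301201b0000006024036430))
def t174 : k174.all (jb2 57 fl b0) = true := by decide +kernel
noncomputable def k175 : KT := (.one (nat_lit 0x4012017000000802402e430))
def t175 : k175.all (jb2 57 fl b0) = true := by decide +kernel
noncomputable def k176 : KT := (.one (nat_lit 0x40120180000008024030430))
def t176 : k176.all (jb2 57 fl b0) = true := by decide +kernel
noncomputable def k177 : KT := (.br (Nat.shiftLeft (nat_lit 0x200900d) (nat_lit 65)) (.one (nat_lit 0x40120190000008024032430)) (.one (nat_lit 0x401201a0000008024034430)))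
def t177 : k177.all (jb2 57 fl b0) = true := by decide +kernel
noncomputable def k178 : KT := (.one (nat_lit 0x401201b0000008024036430))
def t178 : k178.all (jb2 57 fl b0) = true := by decide +kernel
noncomputable def k179 : KT := (.one (nat_lit 0x5012017000000a02402e430))
def t179 : k179.all (jb2 57 fl b0) = true := by decide +kernel
noncomputable def k180 : KT := (.br (Nat.shiftLeft (nat_lit 0x5012019) (nat_lit 64)) (.one (nat_lit 0x5012018000000a024030430)) (.one (nat_lit 0x5012019000000a024032430)))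
def t180 : k180.all (jb2 57 fl b0) = true := by decide +kernel
noncomputable def k181 : KT := (.br (Nat.shiftLeft (nat_lit 0x501201b) (nat_lit 64)) (.one (nat_lit 0x501201a000000a024034430)) (.one (nat_lit 0x501201b000000a024036430)))
def t181 : k181.all (jb2 57 fl b0) = true := by decide +kernel
noncomputable def k182 : KT := (.one (nat_lit 0x6012017000000c02402e430))
def t182 : k182.all (jb2 57 fl b0) = true := by decide +kernel
noncomputable def k183 : KT := (.br (Nat.shiftLeft (nat_lit 0x6012019) (nat_lit 64)) (.one (nat_lit 0x6012018000000c024030430)) (.br (Nat.shiftLeft (nat_lit 0x300900d) (nat_lit 65)) (.one (nat_lit 0x6012019000000c024032430)) (.one (nat_lit 0x601201a000000c024034430))))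
def t183 : k183.all (jb2 57 fl b0) = true := by decide +kernel
noncomputable def k184 : KT := (.br (Nat.shiftLeft (nat_lit 0x7) (nat_lit 88)) (.one (nat_lit 0x601201b000000c024036430)) (.br (Nat.shiftLeft (nat_lit 0xe02403) (nat_lit 67)) (.one (nat_lit 0x7012017000000e02402e430)) (.one (nat_lit 0x7012018000000e024030430))))
def t184 : k184.all (jb2 57 fl b0) = true := by decide +kernel
noncomputable def k185 : KT := (.br (Nat.shiftLeft (nat_lit 0x701201b) (nat_lit 64)) (.br (Nat.shiftLeft (nat_lit 0x380900d) (nat_lit 65)) (.one (nat_lit 0x7012019000000e024032430)) (.one (nat_lit 0x701201a000000e024034430))) (.br (Nat.shiftLeft (nat_lit 0x1) (nat_lit 91)) (.one (nat_lit 0x701201b000000e024036430)) (.br (Nat.shiftLeft (nat_lit 0x1002403) (nat_lit 67)) (.one (nat_lit 0x8012017000001002402e430)) (.one (nat_lit 0x80120180000010024030430)))))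
def t185 : k185.all (jb2 57 fl b0) = true := by decide +kernel
noncomputable def k186 : KT := (.br (Nat.shiftLeft (nat_lit 0x480900d) (nat_lit 65)) (.br (Nat.shiftLeft (nat_lit 0x9) (nat_lit 88)) (.br (Nat.shiftLeft (nat_lit 0x400900d) (nat_lit 65)) (.one (nat_lit 0x80120190000010024032430)) (.br (Nat.shiftLeft (nat_lit 0x801201b) (nat_lit 64)) (.one (nat_lit 0x801201a0000010024034430)) (.one (nat_lit 0x801201b0000010024036430)))) (.br (Nat.shiftLeft (nat_lit 0x1202403) (nat_lit 67)) (.one (nat_lit 0x9012017000001202402e430)) (.br (Nat.shiftLeft (nat_lit 0x9012019) (nat_lit 64)) (.one (nat_lit 0x90120180000012024030430)) (.one (nat_lit 0x90120190000012024032430))))) (.br (Nat.shiftLeft (nat_lit 0x1402403) (nat_lit 67)) (.br (Nat.shiftLeft (nat_lit 0x901201b) (nat_lit 64)) (.one (nat_lit 0x901201a0000012024034430)) (.br (Nat.shiftLeft (nat_lit 0x5) (nat_lit 89)) (.one (nat_lit 0x901201b0000012024036430)) (.one (nat_lit 0xa012017000001402402e430)))) (.br (Nat.shiftLeft (nat_lit 0x500900d) (nat_lit 65))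 (.br (Nat.shiftLeft (nat_lit 0xa012019) (nat_lit 64)) (.one (nat_lit 0xa0120180000014024030430)) (.one (nat_lit 0xa0120190000014024032430))) (.br (Nat.shiftLeft (nat_lit 0xa01201b) (nat_lit 64)) (.one (nat_lit 0xa01201a0000014024034430)) (.one (nat_lit 0xa01201b0000014024036430))))))
def t186 : k186.all (jb2 57 fl b0) = true := by decide +kernel
noncomputable def k187 : KT := (.br (Nat.shiftLeft (nat_lit 0x1) (nat_lit 100)) (.br (Nat.shiftLeft (nat_lit 0xd) (nat_lit 88)) (.br (Nat.shiftLeft (nat_lit 0x3) (nat_lit 90)) (.br (Nat.shiftLeft (nat_lit 0xb012019) (nat_lit 64)) (.br (Nat.shiftLeft (nat_lit 0x1602403) (nat_lit 67)) (.one (nat_lit 0xb012017000001602402e430)) (.one (nat_lit 0xb0120180000016024030430))) (.br (Nat.shiftLeft (nat_lit 0x580900d) (nat_lit 65)) (.one (nat_lit 0xb0120190000016024032430)) (.br (Nat.shiftLeft (nat_lit 0xb01201b) (nat_lit 64)) (.one (nat_lit 0xb01201a0000016024034430)) (.one (nat_lit 0xb01201b0000016024036430))))) (.br (Nat.shiftLeft (nat_lit 0xc012019) (nat_lit 64))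 (.br (Nat.shiftLeft (nat_lit 0x1802403) (nat_lit 67)) (.one (nat_lit 0xc012017000001802402e430)) (.one (nat_lit 0xc0120180000018024030430))) (.br (Nat.shiftLeft (nat_lit 0x600900d) (nat_lit 65)) (.one (nat_lit 0xc0120190000018024032430)) (.br (Nat.shiftLeft (nat_lit 0xc01201b) (nat_lit 64)) (.one (nat_lit 0xc01201a0000018024034430)) (.one (nat_lit 0xc01201b0000018024036430)))))) (.br (Nat.shiftLeft (nat_lit 0x1c02403) (nat_lit 67)) (.br (Nat.shiftLeft (nat_lit 0xd012019) (nat_lit 64)) (.br (Nat.shiftLeft (nat_lit 0x1a02403) (nat_lit 67)) (.one (nat_lit 0xd012017000001a02402e430)) (.one (nat_lit 0xd012018000001a024030430))) (.br (Nat.shiftLeft (nat_lit 0x680900d) (nat_lit 65)) (.one (nat_lit 0xd012019000001a024032430)) (.br (Nat.shiftLeft (nat_lit 0x7) (nat_lit 89)) (.one (nat_lit 0xd01201a000001a024034430)) (.one (nat_lit 0xe012017000001c02402e430))))) (.br (Nat.shiftLeft (nat_lit 0xf) (nat_lit 88)) (.br (Nat.shiftLeft (nat_lit 0xe012019) (nat_lit 64)) (.one (nat_lit 0xe012018000001c024030430)) (.one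 (nat_lit 0xe012019000001c024032430))) (.br (Nat.shiftLeft (nat_lit 0x1e02403) (nat_lit 67)) (.one (nat_lit 0xf012017000001e02402e430)) (.br (Nat.shiftLeft (nat_lit 0x1) (nat_lit 92)) (.one (nat_lit 0xf012018000001e024030430)) (.one (nat_lit 0x10012017000002002402e430))))))) (.br (Nat.shiftLeft (nat_lit 0x3) (nat_lit 100)) (.br (Nat.shiftLeft (nat_lit 0x1) (nat_lit 101)) (.br (Nat.shiftLeft (nat_lit 0x1000012019) (nat_lit 64)) (.br (Nat.shiftLeft (nat_lit 0x200002403) (nat_lit 67)) (.one (nat_lit 0x1000012017000200002402e311)) (.one (nat_lit 0x10000120180002000024030311))) (.br (Nat.shiftLeft (nat_lit 0x80000900d) (nat_lit 65)) (.one (nat_lit 0x10000120190002000024032311)) (.br (Nat.shiftLeft (nat_lit 0x100001201b) (nat_lit 64)) (.one (nat_lit 0x100001201a0002000024034311)) (.one (nat_lit 0x100001201b0002000024036311))))) (.br (Nat.shiftLeft (nat_lit 0x2000012019) (nat_lit 64)) (.br (Nat.shiftLeft (nat_lit 0x400002403) (nat_lit 67)) (.one (nat_lit 0x2000012017000400002402e311)) (.one (nat_lit 0x20000120180004000024030311)))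 (.br (Nat.shiftLeft (nat_lit 0x100000900d) (nat_lit 65)) (.one (nat_lit 0x20000120190004000024032311)) (.br (Nat.shiftLeft (nat_lit 0x200001201b) (nat_lit 64)) (.one (nat_lit 0x200001201a0004000024034311)) (.one (nat_lit 0x200001201b0004000024036311)))))) (.br (Nat.shiftLeft (nat_lit 0x1) (nat_lit 102)) (.br (Nat.shiftLeft (nat_lit 0x3000012019) (nat_lit 64)) (.br (Nat.shiftLeft (nat_lit 0x600002403) (nat_lit 67)) (.one (nat_lit 0x3000012017000600002402e311)) (.one (nat_lit 0x30000120180006000024030311))) (.br (Nat.shiftLeft (nat_lit 0x180000900d) (nat_lit 65)) (.one (nat_lit 0x30000120190006000024032311)) (.br (Nat.shiftLeft (nat_lit 0x300001201b) (nat_lit 64)) (.one (nat_lit 0x300001201a0006000024034311)) (.one (nat_lit 0x300001201b0006000024036311))))) (.br (Nat.shiftLeft (nat_lit 0x4000012019) (nat_lit 64)) (.br (Nat.shiftLeft (nat_lit 0x800002403) (nat_lit 67)) (.one (nat_lit 0x4000012017000800002402e311)) (.one (nat_lit 0x40000120180008000024030311))) (.br (Nat.shiftLeft (nat_lit 0x200000900d)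 (nat_lit 65)) (.one (nat_lit 0x40000120190008000024032311)) (.br (Nat.shiftLeft (nat_lit 0x400001201b) (nat_lit 64)) (.one (nat_lit 0x400001201a0008000024034311)) (.one (nat_lit 0x400001201b0008000024036311))))))))
def t187 : k187.all (jb2 57 fl b0) = true := by decide +kernel
noncomputable def k188 : KT := (.br (Nat.shiftLeft (nat_lit 0x9) (nat_lit 100)) (.br (Nat.shiftLeft (nat_lit 0x7) (nat_lit 100)) (.br (Nat.shiftLeft (nat_lit 0x3) (nat_lit 101)) (.br (Nat.shiftLeft (nat_lit 0x5000012019) (nat_lit 64)) (.br (Nat.shiftLeft (nat_lit 0xa00002403) (nat_lit 67)) (.one (nat_lit 0x5000012017000a00002402e311)) (.one (nat_lit 0x5000012018000a000024030311))) (.br (Nat.shiftLeft (nat_lit 0x280000900d) (nat_lit 65)) (.one (nat_lit 0x5000012019000a000024032311)) (.br (Nat.shiftLeft (nat_lit 0x500001201b) (nat_lit 64)) (.one (nat_lit 0x500001201a000a000024034311)) (.one (nat_lit 0x500001201b000a000024036311))))) (.br (Nat.shiftLeft (nat_lit 0x6000012019) (nat_lit 64)) (.br (Nat.shiftLeft (nat_lit 0xc00002403)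 (nat_lit 67)) (.one (nat_lit 0x6000012017000c00002402e311)) (.one (nat_lit 0x6000012018000c000024030311))) (.br (Nat.shiftLeft (nat_lit 0x300000900d) (nat_lit 65)) (.one (nat_lit 0x6000012019000c000024032311)) (.br (Nat.shiftLeft (nat_lit 0x600001201b) (nat_lit 64)) (.one (nat_lit 0x600001201a000c000024034311)) (.one (nat_lit 0x600001201b000c000024036311)))))) (.br (Nat.shiftLeft (nat_lit 0x1) (nat_lit 103)) (.br (Nat.shiftLeft (nat_lit 0x7000012019) (nat_lit 64)) (.br (Nat.shiftLeft (nat_lit 0xe00002403) (nat_lit 67)) (.one (nat_lit 0x7000012017000e00002402e311)) (.one (nat_lit 0x7000012018000e000024030311))) (.br (Nat.shiftLeft (nat_lit 0x380000900d) (nat_lit 65)) (.one (nat_lit 0x7000012019000e000024032311)) (.br (Nat.shiftLeft (nat_lit 0x700001201b) (nat_lit 64)) (.one (nat_lit 0x700001201a000e000024034311)) (.one (nat_lit 0x700001201b000e000024036311))))) (.br (Nat.shiftLeft (nat_lit 0x8000012019) (nat_lit 64)) (.br (Nat.shiftLeft (nat_lit 0x1000002403) (nat_lit 67)) (.one (nat_lit 0x8000012017001000002402e311))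 (.one (nat_lit 0x80000120180010000024030311))) (.br (Nat.shiftLeft (nat_lit 0x400000900d) (nat_lit 65)) (.one (nat_lit 0x80000120190010000024032311)) (.br (Nat.shiftLeft (nat_lit 0x800001201b) (nat_lit 64)) (.one (nat_lit 0x800001201a0010000024034311)) (.one (nat_lit 0x800001201b0010000024036311))))))) (.br (Nat.shiftLeft (nat_lit 0xb) (nat_lit 100)) (.br (Nat.shiftLeft (nat_lit 0x5) (nat_lit 101)) (.br (Nat.shiftLeft (nat_lit 0x9000012019) (nat_lit 64)) (.br (Nat.shiftLeft (nat_lit 0x1200002403) (nat_lit 67)) (.one (nat_lit 0x9000012017001200002402e311)) (.one (nat_lit 0x90000120180012000024030311))) (.br (Nat.shiftLeft (nat_lit 0x480000900d) (nat_lit 65)) (.one (nat_lit 0x90000120190012000024032311)) (.br (Nat.shiftLeft (nat_lit 0x900001201b) (nat_lit 64)) (.one (nat_lit 0x900001201a0012000024034311)) (.one (nat_lit 0x900001201b0012000024036311))))) (.br (Nat.shiftLeft (nat_lit 0xa000012019) (nat_lit 64)) (.br (Nat.shiftLeft (nat_lit 0x1400002403) (nat_lit 67)) (.one (nat_lit 0xa000012017001400002402e311))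 (.one (nat_lit 0xa0000120180014000024030311))) (.br (Nat.shiftLeft (nat_lit 0x500000900d) (nat_lit 65)) (.one (nat_lit 0xa0000120190014000024032311)) (.br (Nat.shiftLeft (nat_lit 0xa00001201b) (nat_lit 64)) (.one (nat_lit 0xa00001201a0014000024034311)) (.one (nat_lit 0xa00001201b0014000024036311)))))) (.br (Nat.shiftLeft (nat_lit 0x3) (nat_lit 102)) (.br (Nat.shiftLeft (nat_lit 0xb000012019) (nat_lit 64)) (.br (Nat.shiftLeft (nat_lit 0x1600002403) (nat_lit 67)) (.one (nat_lit 0xb000012017001600002402e311)) (.one (nat_lit 0xb0000120180016000024030311))) (.br (Nat.shiftLeft (nat_lit 0x580000900d) (nat_lit 65)) (.one (nat_lit 0xb0000120190016000024032311)) (.br (Nat.shiftLeft (nat_lit 0xb00001201b) (nat_lit 64)) (.one (nat_lit 0xb00001201a0016000024034311)) (.one (nat_lit 0xb00001201b0016000024036311))))) (.br (Nat.shiftLeft (nat_lit 0xc000012019) (nat_lit 64)) (.br (Nat.shiftLeft (nat_lit 0x1800002403) (nat_lit 67)) (.one (nat_lit 0xc000012017001800002402e311)) (.one (nat_lit 0xc0000120180018000024030311)))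 (.br (Nat.shiftLeft (nat_lit 0x600000900d) (nat_lit 65)) (.one (nat_lit 0xc0000120190018000024032311)) (.br (Nat.shiftLeft (nat_lit 0xc00001201b) (nat_lit 64)) (.one (nat_lit 0xc00001201a0018000024034311)) (.one (nat_lit 0xc00001201b0018000024036311))))))))
def t188 : k188.all (jb2 57 fl b0) = true := by decide +kernel
noncomputable def k189 : KT := (.br (Nat.shiftLeft (nat_lit 0x1c00002403) (nat_lit 67)) (.br (Nat.shiftLeft (nat_lit 0xd000012019) (nat_lit 64)) (.br (Nat.shiftLeft (nat_lit 0x1a00002403) (nat_lit 67)) (.one (nat_lit 0xd000012017001a00002402e311)) (.one (nat_lit 0xd000012018001a000024030311))) (.br (Nat.shiftLeft (nat_lit 0x680000900d) (nat_lit 65)) (.one (nat_lit 0xd000012019001a000024032311)) (.br (Nat.shiftLeft (nat_lit 0x7) (nat_lit 101)) (.one (nat_lit 0xd00001201a001a000024034311)) (.one (nat_lit 0xe000012017001c00002402e311))))) (.br (Nat.shiftLeft (nat_lit 0xf) (nat_lit 100)) (.br (Nat.shiftLeft (nat_lit 0xe000012019) (nat_lit 64)) (.one (nat_lit 0xe000012018001c000024030311))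 (.one (nat_lit 0xe000012019001c000024032311))) (.br (Nat.shiftLeft (nat_lit 0x1e00002403) (nat_lit 67)) (.one (nat_lit 0xf000012017001e00002402e311)) (.br (Nat.shiftLeft (nat_lit 0x1) (nat_lit 104)) (.one (nat_lit 0xf000012018001e000024030311)) (.one (nat_lit 0x10000012017002000002402e311))))))
def t189 : k189.all (jb2 57 fl b0) = true := by decide +kernel
noncomputable def s8 : KT := (.br (nat_lit 0x401201a0000008024034430) (.br (nat_lit 0x3012017000000602402e430) (.br (nat_lit 0x101201b0000002024036430) (.br (nat_lit 0x1201c0000000024038320) k166 (.br (nat_lit 0x1201e000000002403c320) k167 k168)) (.br (nat_lit 0x20120190000004024032430) k169 (.br (nat_lit 0x201201b0000004024036430) k170 k171))) (.br (nat_lit 0x301201b0000006024036430) (.br (nat_lit 0x30120180000006024030430) k172 (.br (nat_lit 0x301201a0000006024034430) k173 k174)) (.br (nat_lit 0x4012017000000802402e430) k175 (.br (nat_lit 0x40120180000008024030430) k176 k177)))) (.br (nat_lit 0x601201a000000c024034430) (.br (nat_lit 0x5012019000000a024032430)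 (.br (nat_lit 0x401201b0000008024036430) k178 (.br (nat_lit 0x5012017000000a02402e430) k179 k180)) (.br (nat_lit 0x501201b000000a024036430) k181 (.br (nat_lit 0x6012017000000c02402e430) k182 k183))) (.br (nat_lit 0xa01201b0000014024036430) (.br (nat_lit 0x7012018000000e024030430) k184 (.br (nat_lit 0x80120180000010024030430) k185 k186)) (.br (nat_lit 0x400001201b0008000024036311) k187 (.br (nat_lit 0xc00001201b0018000024036311) k188 k189)))))
noncomputable def u8 : KT := (.br (Nat.shiftLeft (nat_lit 0x4807) (nat_lit 66)) (.br (Nat.shiftLeft (nat_lit 0x12019) (nat_lit 64)) (.br (Nat.shiftLeft (nat_lit 0x2403) (nat_lit 67)) (.one (nat_lit 0x12017000000002402e320)) (.one (nat_lit 0x120180000000024030320))) (.br (Nat.shiftLeft (nat_lit 0x900d) (nat_lit 65)) (.one (nat_lit 0x120190000000024032320)) (.br (Nat.shiftLeft (nat_lit 0x1201b) (nat_lit 64)) (.one (nat_lit 0x1201a0000000024034320)) (.one (nat_lit 0x1201b0000000024036320))))) (.br (Nat.shiftLeft (nat_lit 0x1201f) (nat_lit 64)) (.br (Nat.shiftLeft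 (nat_lit 0x1201d) (nat_lit 64)) (.one (nat_lit 0x1201c0000000024038320)) (.br (Nat.shiftLeft (nat_lit 0x900f) (nat_lit 65)) (.one (nat_lit 0x1201d000000002403a320)) (.one (nat_lit 0x1201e000000002403c320)))) (.br (Nat.shiftLeft (nat_lit 0x901) (nat_lit 69)) (.one (nat_lit 0x1201f000000002403e320)) (.br (Nat.shiftLeft (nat_lit 0x12021) (nat_lit 64)) (.one (nat_lit 0x120200000000024040320)) (.one (nat_lit 0x120210000000024042320))))))
def w8 : u8.all (wj 57 s8) = true := by decide +kernel
def o8 : OkW 57 (jb2 57 fl) u8 := .lift s8 _ (.br _ _ _ (.br _ _ _ (.br _ _ _ (.br _ _ _ (.leaf b0 k166 t166) (.br _ _ _ (.leaf b0 k167 t167) (.leaf b0 k168 t168))) (.br _ _ _ (.leaf b0 k169 t169) (.br _ _ _ (.leaf b0 k170 t170) (.leaf b0 k171 t171)))) (.br _ _ _ (.br _ _ _ (.leaf b0 k172 t172) (.br _ _ _ (.leaf b0 k173 t173) (.leaf b0 k174 t174))) (.br _ _ _ (.leaf b0 k175 t175) (.br _ _ _ (.leaf b0 k176 t176) (.leaf b0 k177 t177))))) (.br _ _ _ (.br _ _ _ (.br _ _ _ (.leaf b0 k178 t178) (.br _ _ _ (.leaf b0 k179 t179)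 (.leaf b0 k180 t180))) (.br _ _ _ (.leaf b0 k181 t181) (.br _ _ _ (.leaf b0 k182 t182) (.leaf b0 k183 t183)))) (.br _ _ _ (.br _ _ _ (.leaf b0 k184 t184) (.br _ _ _ (.leaf b0 k185 t185) (.leaf b0 k186 t186))) (.br _ _ _ (.leaf b0 k187 t187) (.br _ _ _ (.leaf b0 k188 t188) (.leaf b0 k189 t189)))))) w8
noncomputable def k190 : KT := (.br (Nat.shiftLeft (nat_lit 0x1013015) (nat_lit 64)) (.br (Nat.shiftLeft (nat_lit 0x13015) (nat_lit 64)) (.one (nat_lit 0x130140000000026029300)) (.br (Nat.shiftLeft (nat_lit 0x1) (nat_lit 88)) (.one (nat_lit 0x13015000000002602b300)) (.one (nat_lit 0x10130140000002026028430)))) (.br (Nat.shiftLeft (nat_lit 0x2013015) (nat_lit 64)) (.br (Nat.shiftLeft (nat_lit 0x1) (nat_lit 89)) (.one (nat_lit 0x1013015000000202602a430)) (.one (nat_lit 0x20130140000004026028430))) (.br (Nat.shiftLeft (nat_lit 0x3) (nat_lit 88)) (.one (nat_lit 0x2013015000000402602a430)) (.one (nat_lit 0x30130140000006026029400)))))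
def t190 : k190.all (jb2 57 fl b0) = true := by decide +kernel
noncomputable def k191 : KT := (.br (Nat.shiftLeft (nat_lit 0x5) (nat_lit 88)) (.br (Nat.shiftLeft (nat_lit 0x1) (nat_lit 90)) (.one (nat_lit 0x3013015000000602602a430)) (.br (Nat.shiftLeft (nat_lit 0x4013015) (nat_lit 64)) (.one (nat_lit 0x40130140000008026029400)) (.one (nat_lit 0x4013015000000802602b400)))) (.br (Nat.shiftLeft (nat_lit 0x5013015) (nat_lit 64)) (.one (nat_lit 0x5013014000000a026029400)) (.br (Nat.shiftLeft (nat_lit 0x3) (nat_lit 89)) (.one (nat_lit 0x5013015000000a02602b400)) (.one (nat_lit 0x6013014000000c026029400)))))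
def t191 : k191.all (jb2 57 fl b0) = true := by decide +kernel
noncomputable def k192 : KT := (.br (Nat.shiftLeft (nat_lit 0x7) (nat_lit 88)) (.one (nat_lit 0x6013015000000c02602a430)) (.one (nat_lit 0x7013014000000e026029400)))
def t192 : k192.all (jb2 57 fl b0) = true := by decide +kernel
noncomputable def k193 : KT := (.one (nat_lit 0x7013015000000e02602a430))
def t193 : k193.all (jb2 57 fl b0) = true := by decide +kernel
noncomputable def k194 : KT := (.one (nat_lit 0x80130140000010026028430))
def t194 : k194.all (jb2 57 fl b0) = true := by decide +kernel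
noncomputable def k195 : KT := (.br (Nat.shiftLeft (nat_lit 0x9) (nat_lit 88)) (.one (nat_lit 0x8013015000001002602a430)) (.one (nat_lit 0x90130140000012026028430)))
def t195 : k195.all (jb2 57 fl b0) = true := by decide +kernel
noncomputable def k196 : KT := (.br (Nat.shiftLeft (nat_lit 0x5) (nat_lit 89)) (.one (nat_lit 0x9013015000001202602a430)) (.br (Nat.shiftLeft (nat_lit 0xa013015) (nat_lit 64)) (.one (nat_lit 0xa0130140000014026028430)) (.one (nat_lit 0xa013015000001402602a430))))
def t196 : k196.all (jb2 57 fl b0) = true := by decide +kernel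
noncomputable def k197 : KT := (.br (Nat.shiftLeft (nat_lit 0xf) (nat_lit 88)) (.br (Nat.shiftLeft (nat_lit 0xd) (nat_lit 88)) (.br (Nat.shiftLeft (nat_lit 0x3) (nat_lit 90)) (.br (Nat.shiftLeft (nat_lit 0xb013015) (nat_lit 64)) (.one (nat_lit 0xb0130140000016026028430)) (.one (nat_lit 0xb013015000001602602a430))) (.br (Nat.shiftLeft (nat_lit 0xc013015) (nat_lit 64)) (.one (nat_lit 0xc0130140000018026028430)) (.one (nat_lit 0xc013015000001802602a430)))) (.br (Nat.shiftLeft (nat_lit 0x7) (nat_lit 89)) (.br (Nat.shiftLeft (nat_lit 0xd013015) (nat_lit 64)) (.one (nat_lit 0xd013014000001a026028430)) (.one (nat_lit 0xd013015000001a02602a430))) (.br (Nat.shiftLeft (nat_lit 0xe013015) (nat_lit 64)) (.one (nat_lit 0xe013014000001c026028430)) (.one (nat_lit 0xe013015000001c02602a430))))) (.br (Nat.shiftLeft (nat_lit 0x11) (nat_lit 88)) (.br (Nat.shiftLeft (nat_lit 0x1) (nat_lit 92)) (.br (Nat.shiftLeft (nat_lit 0xf013015) (nat_lit 64)) (.one (nat_lit 0xf013014000001e026028430)) (.one (nat_lit 0xf013015000001e02602a430)))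 (.br (Nat.shiftLeft (nat_lit 0x10013015) (nat_lit 64)) (.one (nat_lit 0x100130140000020026028430)) (.one (nat_lit 0x10013015000002002602a430)))) (.br (Nat.shiftLeft (nat_lit 0x9) (nat_lit 89)) (.br (Nat.shiftLeft (nat_lit 0x11013015) (nat_lit 64)) (.one (nat_lit 0x110130140000022026028430)) (.one (nat_lit 0x11013015000002202602a430))) (.br (Nat.shiftLeft (nat_lit 0x1) (nat_lit 100)) (.one (nat_lit 0x120130140000024026028430)) (.br (Nat.shiftLeft (nat_lit 0x1000013015) (nat_lit 64)) (.one (nat_lit 0x10000130140002000026028311)) (.one (nat_lit 0x1000013015000200002602a311)))))))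
def t197 : k197.all (jb2 57 fl b0) = true := by decide +kernel
noncomputable def k198 : KT := (.br (Nat.shiftLeft (nat_lit 0x401) (nat_lit 90)) (.one (nat_lit 0x10030130140002006026028540)) (.br (Nat.shiftLeft (nat_lit 0x1004013015) (nat_lit 64)) (.one (nat_lit 0x10040130140002008026028540)) (.one (nat_lit 0x1004013015000200802602a540))))
def t198 : k198.all (jb2 57 fl b0) = true := by decide +kernel
noncomputable def k199 : KT := (.br (Nat.shiftLeft (nat_lit 0x1007) (nat_lit 88)) (.br (Nat.shiftLeft (nat_lit 0x1005013015) (nat_lit 64)) (.one (nat_lit 0x1005013014000200a026028540)) (.br (Nat.shiftLeft (nat_lit 0x803) (nat_lit 89)) (.one (nat_lit 0x1005013015000200a02602a540)) (.one (nat_lit 0x1006013014000200c026028540)))) (.br (Nat.shiftLeft (nat_lit 0x1) (nat_lit 101)) (.one (nat_lit 0x1007013014000200e026028540)) (.br (Nat.shiftLeft (nat_lit 0x2000013015) (nat_lit 64)) (.one (nat_lit 0x20000130140004000026028311)) (.one (nat_lit 0x2000013015000400002602a311)))))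
def t199 : k199.all (jb2 57 fl b0) = true := by decide +kernel
noncomputable def k200 : KT := (.one (nat_lit 0x20030130140004006026028540))
def t200 : k200.all (jb2 57 fl b0) = true := by decide +kernel
noncomputable def k201 : KT := (.br (Nat.shiftLeft (nat_lit 0x2004013015) (nat_lit 64)) (.one (nat_lit 0x20040130140004008026028540)) (.one (nat_lit 0x2004013015000400802602a540)))
def t201 : k201.all (jb2 57 fl b0) = true := by decide +kernel
noncomputable def k202 : KT := (.br (Nat.shiftLeft (nat_lit 0x2005013015) (nat_lit 64)) (.one (nat_lit 0x2005013014000400a026028540)) (.br (Nat.shiftLeft (nat_lit 0x1003) (nat_lit 89)) (.one (nat_lit 0x2005013015000400a02602a540)) (.one (nat_lit 0x2006013014000400c026028540))))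
def t202 : k202.all (jb2 57 fl b0) = true := by decide +kernel
noncomputable def k203 : KT := (.br (Nat.shiftLeft (nat_lit 0x3000013015) (nat_lit 64)) (.br (Nat.shiftLeft (nat_lit 0x3) (nat_lit 100)) (.one (nat_lit 0x2007013014000400e026028540)) (.one (nat_lit 0x30000130140006000026028311))) (.br (Nat.shiftLeft (nat_lit 0xc01) (nat_lit 90)) (.one (nat_lit 0x3000013015000600002602a311)) (.one (nat_lit 0x30040130140006008026028540))))
def t203 : k203.all (jb2 57 fl b0) = true := by decide +kernel
noncomputable def k204 : KT := (.br (Nat.shiftLeft (nat_lit 0x3005) (nat_lit 88)) (.one (nat_lit 0x3004013015000600802602a540)) (.one (nat_lit 0x3005013014000600a026028540)))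
def t204 : k204.all (jb2 57 fl b0) = true := by decide +kernel
noncomputable def k205 : KT := (.br (Nat.shiftLeft (nat_lit 0x3007) (nat_lit 88)) (.br (Nat.shiftLeft (nat_lit 0x1803) (nat_lit 89)) (.one (nat_lit 0x3005013015000600a02602a540)) (.one (nat_lit 0x3006013014000600c026028540))) (.br (Nat.shiftLeft (nat_lit 0x1) (nat_lit 102)) (.one (nat_lit 0x3007013014000600e026028540)) (.br (Nat.shiftLeft (nat_lit 0x4000013015) (nat_lit 64)) (.one (nat_lit 0x40000130140008000026028311)) (.one (nat_lit 0x4000013015000800002602a311)))))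
def t205 : k205.all (jb2 57 fl b0) = true := by decide +kernel
noncomputable def k206 : KT := (.br (Nat.shiftLeft (nat_lit 0x4005013015) (nat_lit 64)) (.one (nat_lit 0x4005013014000800a026028540)) (.br (Nat.shiftLeft (nat_lit 0x2003) (nat_lit 89)) (.one (nat_lit 0x4005013015000800a02602a540)) (.one (nat_lit 0x4006013014000800c026028540))))
def t206 : k206.all (jb2 57 fl b0) = true := by decide +kernel
noncomputable def k207 : KT := (.br (Nat.shiftLeft (nat_lit 0xd) (nat_lit 100)) (.br (Nat.shiftLeft (nat_lit 0x1) (nat_lit 103)) (.br (Nat.shiftLeft (nat_lit 0x3) (nat_lit 101)) (.br (Nat.shiftLeft (nat_lit 0x5000013015) (nat_lit 64)) (.br (Nat.shiftLeft (nat_lit 0x5) (nat_lit 100)) (.one (nat_lit 0x4007013014000800e026028540)) (.one (nat_lit 0x5000013014000a000026028311))) (.br (Nat.shiftLeft (nat_lit 0x1401) (nat_lit 90)) (.one (nat_lit 0x5000013015000a00002602a311)) (.br (Nat.shiftLeft (nat_lit 0x5007) (nat_lit 88)) (.one (nat_lit 0x5006013014000a00c026028540)) (.one (nat_lit 0x5007013014000a00e026028540)))))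 (.br (Nat.shiftLeft (nat_lit 0x1801) (nat_lit 90)) (.br (Nat.shiftLeft (nat_lit 0x6000013015) (nat_lit 64)) (.one (nat_lit 0x6000013014000c000026028311)) (.one (nat_lit 0x6000013015000c00002602a311))) (.br (Nat.shiftLeft (nat_lit 0x7) (nat_lit 100)) (.one (nat_lit 0x6007013014000c00e026028540)) (.br (Nat.shiftLeft (nat_lit 0x7000013015) (nat_lit 64)) (.one (nat_lit 0x7000013014000e000026028311)) (.one (nat_lit 0x7000013015000e00002602a311)))))) (.br (Nat.shiftLeft (nat_lit 0xa000013015) (nat_lit 64)) (.br (Nat.shiftLeft (nat_lit 0x9) (nat_lit 100)) (.br (Nat.shiftLeft (nat_lit 0x8000013015) (nat_lit 64)) (.one (nat_lit 0x80000130140010000026028311)) (.one (nat_lit 0x8000013015001000002602a311))) (.br (Nat.shiftLeft (nat_lit 0x9000013015) (nat_lit 64)) (.one (nat_lit 0x90000130140012000026028311)) (.br (Nat.shiftLeft (nat_lit 0x5) (nat_lit 101)) (.one (nat_lit 0x9000013015001200002602a311)) (.one (nat_lit 0xa0000130140014000026028311))))) (.br (Nat.shiftLeft (nat_lit 0xb000013015) (nat_lit 64)) (.br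 (Nat.shiftLeft (nat_lit 0xb) (nat_lit 100)) (.one (nat_lit 0xa000013015001400002602a311)) (.one (nat_lit 0xb0000130140016000026028311))) (.br (Nat.shiftLeft (nat_lit 0x3) (nat_lit 102)) (.one (nat_lit 0xb000013015001600002602a311)) (.br (Nat.shiftLeft (nat_lit 0xc000013015) (nat_lit 64)) (.one (nat_lit 0xc0000130140018000026028311)) (.one (nat_lit 0xc000013015001800002602a311))))))) (.br (Nat.shiftLeft (nat_lit 0x9) (nat_lit 101)) (.br (Nat.shiftLeft (nat_lit 0xf000013015) (nat_lit 64)) (.br (Nat.shiftLeft (nat_lit 0x7) (nat_lit 101)) (.br (Nat.shiftLeft (nat_lit 0xd000013015) (nat_lit 64)) (.one (nat_lit 0xd000013014001a000026028311)) (.one (nat_lit 0xd000013015001a00002602a311))) (.br (Nat.shiftLeft (nat_lit 0xe000013015) (nat_lit 64)) (.one (nat_lit 0xe000013014001c000026028311)) (.br (Nat.shiftLeft (nat_lit 0xf) (nat_lit 100)) (.one (nat_lit 0xe000013015001c00002602a311)) (.one (nat_lit 0xf000013014001e000026028311))))) (.br (Nat.shiftLeft (nat_lit 0x10000013015) (nat_lit 64)) (.br (Nat.shiftLeft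 (nat_lit 0x1) (nat_lit 104)) (.one (nat_lit 0xf000013015001e00002602a311)) (.one (nat_lit 0x100000130140020000026028311))) (.br (Nat.shiftLeft (nat_lit 0x11) (nat_lit 100)) (.one (nat_lit 0x10000013015002000002602a311)) (.br (Nat.shiftLeft (nat_lit 0x11000013015) (nat_lit 64)) (.one (nat_lit 0x110000130140022000026028311)) (.one (nat_lit 0x11000013015002200002602a311)))))) (.br (Nat.shiftLeft (nat_lit 0x1000005013015) (nat_lit 64)) (.br (Nat.shiftLeft (nat_lit 0x400001) (nat_lit 90)) (.br (Nat.shiftLeft (nat_lit 0x1) (nat_lit 112)) (.one (nat_lit 0x120000130140024000026028311)) (.one (nat_lit 0x10000030130142000006026028411))) (.br (Nat.shiftLeft (nat_lit 0x1000004013015) (nat_lit 64)) (.one (nat_lit 0x10000040130142000008026028411)) (.br (Nat.shiftLeft (nat_lit 0x1000005) (nat_lit 88)) (.one (nat_lit 0x1000004013015200000802602a411)) (.one (nat_lit 0x1000005013014200000a026028411))))) (.br (Nat.shiftLeft (nat_lit 0x1000007) (nat_lit 88)) (.br (Nat.shiftLeft (nat_lit 0x800003) (nat_lit 89)) (.one (nat_lit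 0x1000005013015200000a02602a411)) (.one (nat_lit 0x1000006013014200000c026028411))) (.br (Nat.shiftLeft (nat_lit 0x1) (nat_lit 113)) (.one (nat_lit 0x1000007013014200000e026028411)) (.br (Nat.shiftLeft (nat_lit 0x800001) (nat_lit 90)) (.one (nat_lit 0x20000030130144000006026028411)) (.one (nat_lit 0x20000040130144000008026028411))))))))
def t207 : k207.all (jb2 57 fl b0) = true := by decide +kernel
noncomputable def k208 : KT := (.br (Nat.shiftLeft (nat_lit 0x1400001) (nat_lit 90)) (.br (Nat.shiftLeft (nat_lit 0x1800003) (nat_lit 89)) (.br (Nat.shiftLeft (nat_lit 0x3) (nat_lit 112)) (.br (Nat.shiftLeft (nat_lit 0x2000005013015) (nat_lit 64)) (.br (Nat.shiftLeft (nat_lit 0x2000005) (nat_lit 88)) (.one (nat_lit 0x2000004013015400000802602a411)) (.one (nat_lit 0x2000005013014400000a026028411))) (.br (Nat.shiftLeft (nat_lit 0x1000003) (nat_lit 89)) (.one (nat_lit 0x2000005013015400000a02602a411)) (.br (Nat.shiftLeft (nat_lit 0x2000007) (nat_lit 88)) (.one (nat_lit 0x2000006013014400000c026028411)) (.one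 (nat_lit 0x2000007013014400000e026028411))))) (.br (Nat.shiftLeft (nat_lit 0x3000004013015) (nat_lit 64)) (.br (Nat.shiftLeft (nat_lit 0xc00001) (nat_lit 90)) (.one (nat_lit 0x30000030130146000006026028411)) (.one (nat_lit 0x30000040130146000008026028411))) (.br (Nat.shiftLeft (nat_lit 0x3000005) (nat_lit 88)) (.one (nat_lit 0x3000004013015600000802602a411)) (.br (Nat.shiftLeft (nat_lit 0x3000005013015) (nat_lit 64)) (.one (nat_lit 0x3000005013014600000a026028411)) (.one (nat_lit 0x3000005013015600000a02602a411)))))) (.br (Nat.shiftLeft (nat_lit 0x4000005) (nat_lit 88)) (.br (Nat.shiftLeft (nat_lit 0x1) (nat_lit 114)) (.br (Nat.shiftLeft (nat_lit 0x3000007) (nat_lit 88)) (.one (nat_lit 0x3000006013014600000c026028411)) (.one (nat_lit 0x3000007013014600000e026028411))) (.br (Nat.shiftLeft (nat_lit 0x1000001) (nat_lit 90)) (.one (nat_lit 0x40000030130148000006026028411)) (.br (Nat.shiftLeft (nat_lit 0x4000004013015) (nat_lit 64)) (.one (nat_lit 0x40000040130148000008026028411)) (.one (nat_lit 0x4000004013015800000802602a411)))))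 (.br (Nat.shiftLeft (nat_lit 0x2000003) (nat_lit 89)) (.br (Nat.shiftLeft (nat_lit 0x4000005013015) (nat_lit 64)) (.one (nat_lit 0x4000005013014800000a026028411)) (.one (nat_lit 0x4000005013015800000a02602a411))) (.br (Nat.shiftLeft (nat_lit 0x4000007) (nat_lit 88)) (.one (nat_lit 0x4000006013014800000c026028411)) (.br (Nat.shiftLeft (nat_lit 0x5) (nat_lit 112)) (.one (nat_lit 0x4000007013014800000e026028411)) (.one (nat_lit 0x5000003013014a000006026028411))))))) (.br (Nat.shiftLeft (nat_lit 0x6000005013015) (nat_lit 64)) (.br (Nat.shiftLeft (nat_lit 0x5000007) (nat_lit 88)) (.br (Nat.shiftLeft (nat_lit 0x5000005) (nat_lit 88)) (.br (Nat.shiftLeft (nat_lit 0x5000004013015) (nat_lit 64)) (.one (nat_lit 0x5000004013014a000008026028411)) (.one (nat_lit 0x5000004013015a00000802602a411))) (.br (Nat.shiftLeft (nat_lit 0x5000005013015) (nat_lit 64)) (.one (nat_lit 0x5000005013014a00000a026028411)) (.br (Nat.shiftLeft (nat_lit 0x2800003) (nat_lit 89)) (.one (nat_lit 0x5000005013015a00000a02602a411)) (.one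 (nat_lit 0x5000006013014a00000c026028411))))) (.br (Nat.shiftLeft (nat_lit 0x1800001) (nat_lit 90)) (.br (Nat.shiftLeft (nat_lit 0x3) (nat_lit 113)) (.one (nat_lit 0x5000007013014a00000e026028411)) (.one (nat_lit 0x6000003013014c000006026028411))) (.br (Nat.shiftLeft (nat_lit 0x6000004013015) (nat_lit 64)) (.one (nat_lit 0x6000004013014c000008026028411)) (.br (Nat.shiftLeft (nat_lit 0x6000005) (nat_lit 88)) (.one (nat_lit 0x6000004013015c00000802602a411)) (.one (nat_lit 0x6000005013014c00000a026028411)))))) (.br (Nat.shiftLeft (nat_lit 0x7000004013015) (nat_lit 64)) (.br (Nat.shiftLeft (nat_lit 0x6000007) (nat_lit 88)) (.br (Nat.shiftLeft (nat_lit 0x3000003) (nat_lit 89)) (.one (nat_lit 0x6000005013015c00000a02602a411)) (.one (nat_lit 0x6000006013014c00000c026028411))) (.br (Nat.shiftLeft (nat_lit 0x7) (nat_lit 112)) (.one (nat_lit 0x6000007013014c00000e026028411)) (.br (Nat.shiftLeft (nat_lit 0x1c00001) (nat_lit 90)) (.one (nat_lit 0x7000003013014e000006026028411)) (.one (nat_lit 0x7000004013014e000008026028411)))))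 (.br (Nat.shiftLeft (nat_lit 0x7000005013015) (nat_lit 64)) (.br (Nat.shiftLeft (nat_lit 0x7000005) (nat_lit 88)) (.one (nat_lit 0x7000004013015e00000802602a411)) (.one (nat_lit 0x7000005013014e00000a026028411))) (.br (Nat.shiftLeft (nat_lit 0x3800003) (nat_lit 89)) (.one (nat_lit 0x7000005013015e00000a02602a411)) (.br (Nat.shiftLeft (nat_lit 0x7000007) (nat_lit 88)) (.one (nat_lit 0x7000006013014e00000c026028411)) (.one (nat_lit 0x7000007013014e00000e026028411))))))))
def t208 : k208.all (jb2 57 fl b0) = true := by decide +kernel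
noncomputable def k209 : KT := (.br (Nat.shiftLeft (nat_lit 0xa000007) (nat_lit 88)) (.br (Nat.shiftLeft (nat_lit 0x9000005) (nat_lit 88)) (.br (Nat.shiftLeft (nat_lit 0x4000003) (nat_lit 89)) (.br (Nat.shiftLeft (nat_lit 0x8000004013015) (nat_lit 64)) (.br (Nat.shiftLeft (nat_lit 0x2000001) (nat_lit 90)) (.one (nat_lit 0x8000003013014000000602612a411)) (.one (nat_lit 0x8000004013014000000802612a411))) (.br (Nat.shiftLeft (nat_lit 0x8000005) (nat_lit 88)) (.one (nat_lit 0x8000004013015000000802612c411)) (.br (Nat.shiftLeft (nat_lit 0x8000005013015) (nat_lit 64)) (.one (nat_lit 0x8000005013014000000a02612a411)) (.one (nat_lit 0x8000005013015000000a02612c411))))) (.br (Nat.shiftLeft (nat_lit 0x9) (nat_lit 112)) (.br (Nat.shiftLeft (nat_lit 0x8000007) (nat_lit 88)) (.one (nat_lit 0x8000006013014000000c02612a411)) (.one (nat_lit 0x8000007013014000000e02612a411))) (.br (Nat.shiftLeft (nat_lit 0x2400001) (nat_lit 90)) (.one (nat_lit 0x9000003013014200000602612a411)) (.br (Nat.shiftLeft (nat_lit 0x9000004013015)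 (nat_lit 64)) (.one (nat_lit 0x9000004013014200000802612a411)) (.one (nat_lit 0x9000004013015200000802612c411)))))) (.br (Nat.shiftLeft (nat_lit 0x2800001) (nat_lit 90)) (.br (Nat.shiftLeft (nat_lit 0x4800003) (nat_lit 89)) (.br (Nat.shiftLeft (nat_lit 0x9000005013015) (nat_lit 64)) (.one (nat_lit 0x9000005013014200000a02612a411)) (.one (nat_lit 0x9000005013015200000a02612c411))) (.br (Nat.shiftLeft (nat_lit 0x9000007) (nat_lit 88)) (.one (nat_lit 0x9000006013014200000c02612a411)) (.br (Nat.shiftLeft (nat_lit 0x5) (nat_lit 113)) (.one (nat_lit 0x9000007013014200000e02612a411)) (.one (nat_lit 0xa000003013014400000602612a411))))) (.br (Nat.shiftLeft (nat_lit 0xa000005) (nat_lit 88)) (.br (Nat.shiftLeft (nat_lit 0xa000004013015) (nat_lit 64)) (.one (nat_lit 0xa000004013014400000802612a411)) (.one (nat_lit 0xa000004013015400000802612c411))) (.br (Nat.shiftLeft (nat_lit 0xa000005013015) (nat_lit 64)) (.one (nat_lit 0xa000005013014400000a02612a411)) (.br (Nat.shiftLeft (nat_lit 0x5000003) (nat_lit 89)) (.one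 (nat_lit 0xa000005013015400000a02612c411)) (.one (nat_lit 0xa000006013014400000c02612a411))))))) (.br (Nat.shiftLeft (nat_lit 0xc000004013015) (nat_lit 64)) (.br (Nat.shiftLeft (nat_lit 0xb000005013015) (nat_lit 64)) (.br (Nat.shiftLeft (nat_lit 0x2c00001) (nat_lit 90)) (.br (Nat.shiftLeft (nat_lit 0xb) (nat_lit 112)) (.one (nat_lit 0xa000007013014400000e02612a411)) (.one (nat_lit 0xb000003013014600000602612a411))) (.br (Nat.shiftLeft (nat_lit 0xb000004013015) (nat_lit 64)) (.one (nat_lit 0xb000004013014600000802612a411)) (.br (Nat.shiftLeft (nat_lit 0xb000005) (nat_lit 88)) (.one (nat_lit 0xb000004013015600000802612c411)) (.one (nat_lit 0xb000005013014600000a02612a411))))) (.br (Nat.shiftLeft (nat_lit 0xb000007) (nat_lit 88)) (.br (Nat.shiftLeft (nat_lit 0x5800003) (nat_lit 89)) (.one (nat_lit 0xb000005013015600000a02612c411)) (.one (nat_lit 0xb000006013014600000c02612a411))) (.br (Nat.shiftLeft (nat_lit 0x3) (nat_lit 114)) (.one (nat_lit 0xb000007013014600000e02612a411)) (.br (Nat.shiftLeft (nat_lit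 0x3000001) (nat_lit 90)) (.one (nat_lit 0xc000003013014800000602612a411)) (.one (nat_lit 0xc000004013014800000802612a411)))))) (.br (Nat.shiftLeft (nat_lit 0x3400001) (nat_lit 90)) (.br (Nat.shiftLeft (nat_lit 0xc000005013015) (nat_lit 64)) (.br (Nat.shiftLeft (nat_lit 0xc000005) (nat_lit 88)) (.one (nat_lit 0xc000004013015800000802612c411)) (.one (nat_lit 0xc000005013014800000a02612a411))) (.br (Nat.shiftLeft (nat_lit 0x6000003) (nat_lit 89)) (.one (nat_lit 0xc000005013015800000a02612c411)) (.br (Nat.shiftLeft (nat_lit 0xd) (nat_lit 112)) (.one (nat_lit 0xc000006013014800000c02612a411)) (.one (nat_lit 0xd000003013014a00000602612a411))))) (.br (Nat.shiftLeft (nat_lit 0xd000005) (nat_lit 88)) (.br (Nat.shiftLeft (nat_lit 0xd000004013015) (nat_lit 64)) (.one (nat_lit 0xd000004013014a00000802612a411)) (.one (nat_lit 0xd000004013015a00000802612c411))) (.br (Nat.shiftLeft (nat_lit 0x7) (nat_lit 113)) (.one (nat_lit 0xd000005013014a00000a02612a411)) (.br (Nat.shiftLeft (nat_lit 0x3800001) (nat_lit 90)) (.one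 (nat_lit 0xe000003013014c00000602612a411)) (.one (nat_lit 0xe000004013014c00000802612a411))))))))
def t209 : k209.all (jb2 57 fl b0) = true := by decide +kernel
noncomputable def k210 : KT := (.one (nat_lit 0xf000003013014e00000602612a411))
def t210 : k210.all (jb2 57 fl b0) = true := by decide +kernel
noncomputable def s9 : KT := (.br (nat_lit 0x2000013015000400002602a311) (.br (nat_lit 0x80130140000010026028430) (.br (nat_lit 0x6013014000000c026029400) (.br (nat_lit 0x30130140000006026029400) k190 k191) (.br (nat_lit 0x7013014000000e026029400) k192 (.br (nat_lit 0x7013015000000e02602a430) k193 k194))) (.br (nat_lit 0xa013015000001402602a430) (.br (nat_lit 0x90130140000012026028430) k195 k196) (.br (nat_lit 0x1000013015000200002602a311) k197 (.br (nat_lit 0x1004013015000200802602a540) k198 k199)))) (.br (nat_lit 0x3005013014000600a026028540) (.br (nat_lit 0x2004013015000400802602a540) (.br (nat_lit 0x20030130140004006026028540) k200 k201) (.br (nat_lit 0x2006013014000400c026028540) k202 (.br (nat_lit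 0x30040130140006008026028540) k203 k204))) (.br (nat_lit 0x20000040130144000008026028411) (.br (nat_lit 0x4000013015000800002602a311) k205 (.br (nat_lit 0x4006013014000800c026028540) k206 k207)) (.br (nat_lit 0x7000007013014e00000e026028411) k208 (.br (nat_lit 0xe000004013014c00000802612a411) k209 k210)))))
noncomputable def u9 : KT := (.br (Nat.shiftLeft (nat_lit 0x13015) (nat_lit 64)) (.one (nat_lit 0x130140000000026028320)) (.one (nat_lit 0x13015000000002602a320)))
def w9 : u9.all (wj 57 s9) = true := by decide +kernel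
def o9 : OkW 57 (jb2 57 fl) u9 := .lift s9 _ (.br _ _ _ (.br _ _ _ (.br _ _ _ (.br _ _ _ (.leaf b0 k190 t190) (.leaf b0 k191 t191)) (.br _ _ _ (.leaf b0 k192 t192) (.br _ _ _ (.leaf b0 k193 t193) (.leaf b0 k194 t194)))) (.br _ _ _ (.br _ _ _ (.leaf b0 k195 t195) (.leaf b0 k196 t196)) (.br _ _ _ (.leaf b0 k197 t197) (.br _ _ _ (.leaf b0 k198 t198) (.leaf b0 k199 t199))))) (.br _ _ _ (.br _ _ _ (.br _ _ _ (.leaf b0 k200 t200) (.leaf b0 k201 t201)) (.br _ _ _ (.leaf b0 k202 t202) (.br _ _ _ (.leaf b0 k203 t203) (.leaf b0 k204 t204)))) (.br _ _ _ (.br _ _ _ (.leaf b0 k205 t205) (.br _ _ _ (.leaf b0 k206 t206) (.leaf b0 k207 t207))) (.br _ _ _ (.leaf b0 k208 t208) (.br _ _ _ (.leaf b0 k209 t209) (.leaf b0 k210 t210)))))) w9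
noncomputable def k211 : KT := (.br (Nat.shiftLeft (nat_lit 0x13019) (nat_lit 64)) (.br (Nat.shiftLeft (nat_lit 0x13017) (nat_lit 64)) (.one (nat_lit 0x13016000000002602d300)) (.br (Nat.shiftLeft (nat_lit 0x2603) (nat_lit 67)) (.one (nat_lit 0x13017000000002602f300)) (.one (nat_lit 0x130180000000026031300)))) (.br (Nat.shiftLeft (nat_lit 0x980d) (nat_lit 65)) (.one (nat_lit 0x130190000000026033300)) (.br (Nat.shiftLeft (nat_lit 0x1301b) (nat_lit 64)) (.one (nat_lit 0x1301a0000000026035300)) (.one (nat_lit 0x1301b0000000026036320)))))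
def t211 : k211.all (jb2 57 fl b0) = true := by decide +kernel
noncomputable def k212 : KT := (.br (Nat.shiftLeft (nat_lit 0x1301d) (nat_lit 64)) (.one (nat_lit 0x1301c0000000026038320)) (.one (nat_lit 0x1301d000000002603a320)))
def t212 : k212.all (jb2 57 fl b0) = true := by decide +kernel
noncomputable def k213 : KT := (.br (Nat.shiftLeft (nat_lit 0x1) (nat_lit 88)) (.br (Nat.shiftLeft (nat_lit 0x981) (nat_lit 69)) (.br (Nat.shiftLeft (nat_lit 0x1301f) (nat_lit 64)) (.one (nat_lit 0x1301e000000002603c320)) (.one (nat_lit 0x1301f000000002603e320))) (.br (Nat.shiftLeft (nat_lit 0x13021) (nat_lit 64)) (.one (nat_lit 0x130200000000026040320)) (.one (nat_lit 0x130210000000026042320)))) (.br (Nat.shiftLeft (nat_lit 0x202603) (nat_lit 67)) (.br (Nat.shiftLeft (nat_lit 0x1013017) (nat_lit 64)) (.one (nat_lit 0x1013016000000202602c430)) (.one (nat_lit 0x1013017000000202602e430))) (.br (Nat.shiftLeft (nat_lit 0x1013019) (nat_lit 64)) (.one (nat_lit 0x10130180000002026030430)) (.br (Nat.shiftLeft (nat_lit 0x80980d)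 (nat_lit 65)) (.one (nat_lit 0x10130190000002026032430)) (.one (nat_lit 0x101301a0000002026034430))))))
def t213 : k213.all (jb2 57 fl b0) = true := by decide +kernel
noncomputable def k214 : KT := (.br (Nat.shiftLeft (nat_lit 0x2013017) (nat_lit 64)) (.one (nat_lit 0x2013016000000402602c430)) (.br (Nat.shiftLeft (nat_lit 0x402603) (nat_lit 67)) (.one (nat_lit 0x2013017000000402602e430)) (.one (nat_lit 0x20130180000004026030430))))
def t214 : k214.all (jb2 57 fl b0) = true := by decide +kernel
noncomputable def k215 : KT := (.br (Nat.shiftLeft (nat_lit 0x100980d) (nat_lit 65)) (.one (nat_lit 0x20130190000004026032430)) (.one (nat_lit 0x201301a0000004026034430)))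
def t215 : k215.all (jb2 57 fl b0) = true := by decide +kernel
noncomputable def k216 : KT := (.one (nat_lit 0x3013016000000602602c430))
def t216 : k216.all (jb2 57 fl b0) = true := by decide +kernel
noncomputable def k217 : KT := (.one (nat_lit 0x3013017000000602602e430))
def t217 : k217.all (jb2 57 fl b0) = true := by decide +kernel
noncomputable def k218 : KT := (.br (Nat.shiftLeft (nat_lit 0x3013019) (nat_lit 64)) (.one (nat_lit 0x30130180000006026030430)) (.one (nat_lit 0x30130190000006026032430)))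
def t218 : k218.all (jb2 57 fl b0) = true := by decide +kernel
noncomputable def k219 : KT := (.one (nat_lit 0x301301a0000006026034430))
def t219 : k219.all (jb2 57 fl b0) = true := by decide +kernel
noncomputable def k220 : KT := (.one (nat_lit 0x4013016000000802602c430))
def t220 : k220.all (jb2 57 fl b0) = true := by decide +kernel
noncomputable def k221 : KT := (.one (nat_lit 0x4013017000000802602e430))
def t221 : k221.all (jb2 57 fl b0) = true := by decide +kernel
noncomputable def k222 : KT := (.br (Nat.shiftLeft (nat_lit 0x4013019) (nat_lit 64)) (.one (nat_lit 0x40130180000008026030430)) (.one (nat_lit 0x40130190000008026032430)))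
def t222 : k222.all (jb2 57 fl b0) = true := by decide +kernel
noncomputable def k223 : KT := (.one (nat_lit 0x401301a0000008026034430))
def t223 : k223.all (jb2 57 fl b0) = true := by decide +kernel
noncomputable def k224 : KT := (.one (nat_lit 0x5013016000000a02602c430))
def t224 : k224.all (jb2 57 fl b0) = true := by decide +kernel
noncomputable def k225 : KT := (.br (Nat.shiftLeft (nat_lit 0xa02603) (nat_lit 67)) (.one (nat_lit 0x5013017000000a02602e430)) (.one (nat_lit 0x5013018000000a026030430)))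
def t225 : k225.all (jb2 57 fl b0) = true := by decide +kernel
noncomputable def k226 : KT := (.br (Nat.shiftLeft (nat_lit 0x280980d) (nat_lit 65)) (.one (nat_lit 0x5013019000000a026032430)) (.one (nat_lit 0x501301a000000a026034430)))
def t226 : k226.all (jb2 57 fl b0) = true := by decide +kernel
noncomputable def k227 : KT := (.one (nat_lit 0x6013016000000c02602c430))
def t227 : k227.all (jb2 57 fl b0) = true := by decide +kernel
noncomputable def k228 : KT := (.br (Nat.shiftLeft (nat_lit 0xc02603) (nat_lit 67)) (.one (nat_lit 0x6013017000000c02602e430)) (.br (Nat.shiftLeft (nat_lit 0x6013019) (nat_lit 64)) (.one (nat_lit 0x6013018000000c026030430)) (.one (nat_lit 0x6013019000000c026032430))))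
def t228 : k228.all (jb2 57 fl b0) = true := by decide +kernel
noncomputable def k229 : KT := (.br (Nat.shiftLeft (nat_lit 0x7) (nat_lit 88)) (.one (nat_lit 0x601301a000000c026034430)) (.br (Nat.shiftLeft (nat_lit 0x7013017) (nat_lit 64)) (.one (nat_lit 0x7013016000000e02602c430)) (.one (nat_lit 0x7013017000000e02602e430))))
def t229 : k229.all (jb2 57 fl b0) = true := by decide +kernel
noncomputable def k230 : KT := (.br (Nat.shiftLeft (nat_lit 0x380980d) (nat_lit 65)) (.br (Nat.shiftLeft (nat_lit 0x7013019) (nat_lit 64)) (.one (nat_lit 0x7013018000000e026030430)) (.one (nat_lit 0x7013019000000e026032430))) (.br (Nat.shiftLeft (nat_lit 0x1) (nat_lit 91)) (.one (nat_lit 0x701301a000000e026034430)) (.br (Nat.shiftLeft (nat_lit 0x8013017) (nat_lit 64)) (.one (nat_lit 0x8013016000001002602c430)) (.one (nat_lit 0x8013017000001002602e430)))))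
def t230 : k230.all (jb2 57 fl b0) = true := by decide +kernel
noncomputable def k231 : KT := (.br (Nat.shiftLeft (nat_lit 0x9013019) (nat_lit 64)) (.br (Nat.shiftLeft (nat_lit 0x9) (nat_lit 88)) (.br (Nat.shiftLeft (nat_lit 0x8013019) (nat_lit 64)) (.one (nat_lit 0x80130180000010026030430)) (.br (Nat.shiftLeft (nat_lit 0x400980d) (nat_lit 65)) (.one (nat_lit 0x80130190000010026032430)) (.one (nat_lit 0x801301a0000010026034430)))) (.br (Nat.shiftLeft (nat_lit 0x9013017) (nat_lit 64)) (.one (nat_lit 0x9013016000001202602c430)) (.br (Nat.shiftLeft (nat_lit 0x1202603) (nat_lit 67)) (.one (nat_lit 0x9013017000001202602e430)) (.one (nat_lit 0x90130180000012026030430))))) (.br (Nat.shiftLeft (nat_lit 0xa013017) (nat_lit 64)) (.br (Nat.shiftLeft (nat_lit 0x480980d) (nat_lit 65)) (.one (nat_lit 0x90130190000012026032430)) (.br (Nat.shiftLeft (nat_lit 0x5) (nat_lit 89)) (.one (nat_lit 0x901301a0000012026034430)) (.one (nat_lit 0xa013016000001402602c430)))) (.br (Nat.shiftLeft (nat_lit 0xa013019) (nat_lit 64))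 (.br (Nat.shiftLeft (nat_lit 0x1402603) (nat_lit 67)) (.one (nat_lit 0xa013017000001402602e430)) (.one (nat_lit 0xa0130180000014026030430))) (.br (Nat.shiftLeft (nat_lit 0x500980d) (nat_lit 65)) (.one (nat_lit 0xa0130190000014026032430)) (.one (nat_lit 0xa01301a0000014026034430))))))
def t231 : k231.all (jb2 57 fl b0) = true := by decide +kernel
noncomputable def k232 : KT := (.br (Nat.shiftLeft (nat_lit 0x1) (nat_lit 100)) (.br (Nat.shiftLeft (nat_lit 0xd) (nat_lit 88)) (.br (Nat.shiftLeft (nat_lit 0x3) (nat_lit 90)) (.br (Nat.shiftLeft (nat_lit 0x1602603) (nat_lit 67)) (.br (Nat.shiftLeft (nat_lit 0xb013017) (nat_lit 64)) (.one (nat_lit 0xb013016000001602602c430)) (.one (nat_lit 0xb013017000001602602e430))) (.br (Nat.shiftLeft (nat_lit 0xb013019) (nat_lit 64)) (.one (nat_lit 0xb0130180000016026030430)) (.br (Nat.shiftLeft (nat_lit 0x580980d) (nat_lit 65)) (.one (nat_lit 0xb0130190000016026032430)) (.one (nat_lit 0xb01301a0000016026034430))))) (.br (Nat.shiftLeft (nat_lit 0x1802603) (nat_lit 67))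 (.br (Nat.shiftLeft (nat_lit 0xc013017) (nat_lit 64)) (.one (nat_lit 0xc013016000001802602c430)) (.one (nat_lit 0xc013017000001802602e430))) (.br (Nat.shiftLeft (nat_lit 0xc013019) (nat_lit 64)) (.one (nat_lit 0xc0130180000018026030430)) (.br (Nat.shiftLeft (nat_lit 0x600980d) (nat_lit 65)) (.one (nat_lit 0xc0130190000018026032430)) (.one (nat_lit 0xc01301a0000018026034430)))))) (.br (Nat.shiftLeft (nat_lit 0xe013017) (nat_lit 64)) (.br (Nat.shiftLeft (nat_lit 0x1a02603) (nat_lit 67)) (.br (Nat.shiftLeft (nat_lit 0xd013017) (nat_lit 64)) (.one (nat_lit 0xd013016000001a02602c430)) (.one (nat_lit 0xd013017000001a02602e430))) (.br (Nat.shiftLeft (nat_lit 0xd013019) (nat_lit 64)) (.one (nat_lit 0xd013018000001a026030430)) (.br (Nat.shiftLeft (nat_lit 0x7) (nat_lit 89)) (.one (nat_lit 0xd013019000001a026032430)) (.one (nat_lit 0xe013016000001c02602c430))))) (.br (Nat.shiftLeft (nat_lit 0xf) (nat_lit 88)) (.br (Nat.shiftLeft (nat_lit 0x1c02603) (nat_lit 67)) (.one (nat_lit 0xe013017000001c02602e430)) (.one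 (nat_lit 0xe013018000001c026030430))) (.br (Nat.shiftLeft (nat_lit 0xf013017) (nat_lit 64)) (.one (nat_lit 0xf013016000001e02602c430)) (.br (Nat.shiftLeft (nat_lit 0x1) (nat_lit 92)) (.one (nat_lit 0xf013017000001e02602e430)) (.one (nat_lit 0x10013016000002002602c430))))))) (.br (Nat.shiftLeft (nat_lit 0x3) (nat_lit 100)) (.br (Nat.shiftLeft (nat_lit 0x1) (nat_lit 101)) (.br (Nat.shiftLeft (nat_lit 0x200002603) (nat_lit 67)) (.br (Nat.shiftLeft (nat_lit 0x1000013017) (nat_lit 64)) (.one (nat_lit 0x1000013016000200002602c311)) (.one (nat_lit 0x1000013017000200002602e311))) (.br (Nat.shiftLeft (nat_lit 0x1000013019) (nat_lit 64)) (.one (nat_lit 0x10000130180002000026030311)) (.br (Nat.shiftLeft (nat_lit 0x80000980d) (nat_lit 65)) (.one (nat_lit 0x10000130190002000026032311)) (.one (nat_lit 0x100001301a0002000026034311))))) (.br (Nat.shiftLeft (nat_lit 0x400002603) (nat_lit 67)) (.br (Nat.shiftLeft (nat_lit 0x2000013017) (nat_lit 64)) (.one (nat_lit 0x2000013016000400002602c311)) (.one (nat_lit 0x2000013017000400002602e311)))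 (.br (Nat.shiftLeft (nat_lit 0x2000013019) (nat_lit 64)) (.one (nat_lit 0x20000130180004000026030311)) (.br (Nat.shiftLeft (nat_lit 0x100000980d) (nat_lit 65)) (.one (nat_lit 0x20000130190004000026032311)) (.one (nat_lit 0x200001301a0004000026034311)))))) (.br (Nat.shiftLeft (nat_lit 0x1) (nat_lit 102)) (.br (Nat.shiftLeft (nat_lit 0x600002603) (nat_lit 67)) (.br (Nat.shiftLeft (nat_lit 0x3000013017) (nat_lit 64)) (.one (nat_lit 0x3000013016000600002602c311)) (.one (nat_lit 0x3000013017000600002602e311))) (.br (Nat.shiftLeft (nat_lit 0x3000013019) (nat_lit 64)) (.one (nat_lit 0x30000130180006000026030311)) (.br (Nat.shiftLeft (nat_lit 0x180000980d) (nat_lit 65)) (.one (nat_lit 0x30000130190006000026032311)) (.one (nat_lit 0x300001301a0006000026034311))))) (.br (Nat.shiftLeft (nat_lit 0x800002603) (nat_lit 67)) (.br (Nat.shiftLeft (nat_lit 0x4000013017) (nat_lit 64)) (.one (nat_lit 0x4000013016000800002602c311)) (.one (nat_lit 0x4000013017000800002602e311))) (.br (Nat.shiftLeft (nat_lit 0x4000013019)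 (nat_lit 64)) (.one (nat_lit 0x40000130180008000026030311)) (.br (Nat.shiftLeft (nat_lit 0x200000980d) (nat_lit 65)) (.one (nat_lit 0x40000130190008000026032311)) (.one (nat_lit 0x400001301a0008000026034311))))))))
def t232 : k232.all (jb2 57 fl b0) = true := by decide +kernel
noncomputable def k233 : KT := (.br (Nat.shiftLeft (nat_lit 0x9) (nat_lit 100)) (.br (Nat.shiftLeft (nat_lit 0x7) (nat_lit 100)) (.br (Nat.shiftLeft (nat_lit 0x3) (nat_lit 101)) (.br (Nat.shiftLeft (nat_lit 0xa00002603) (nat_lit 67)) (.br (Nat.shiftLeft (nat_lit 0x5000013017) (nat_lit 64)) (.one (nat_lit 0x5000013016000a00002602c311)) (.one (nat_lit 0x5000013017000a00002602e311))) (.br (Nat.shiftLeft (nat_lit 0x5000013019) (nat_lit 64)) (.one (nat_lit 0x5000013018000a000026030311)) (.br (Nat.shiftLeft (nat_lit 0x280000980d) (nat_lit 65)) (.one (nat_lit 0x5000013019000a000026032311)) (.one (nat_lit 0x500001301a000a000026034311))))) (.br (Nat.shiftLeft (nat_lit 0xc00002603) (nat_lit 67)) (.br (Nat.shiftLeft (nat_lit 0x6000013017)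 (nat_lit 64)) (.one (nat_lit 0x6000013016000c00002602c311)) (.one (nat_lit 0x6000013017000c00002602e311))) (.br (Nat.shiftLeft (nat_lit 0x6000013019) (nat_lit 64)) (.one (nat_lit 0x6000013018000c000026030311)) (.br (Nat.shiftLeft (nat_lit 0x300000980d) (nat_lit 65)) (.one (nat_lit 0x6000013019000c000026032311)) (.one (nat_lit 0x600001301a000c000026034311)))))) (.br (Nat.shiftLeft (nat_lit 0x1) (nat_lit 103)) (.br (Nat.shiftLeft (nat_lit 0xe00002603) (nat_lit 67)) (.br (Nat.shiftLeft (nat_lit 0x7000013017) (nat_lit 64)) (.one (nat_lit 0x7000013016000e00002602c311)) (.one (nat_lit 0x7000013017000e00002602e311))) (.br (Nat.shiftLeft (nat_lit 0x7000013019) (nat_lit 64)) (.one (nat_lit 0x7000013018000e000026030311)) (.br (Nat.shiftLeft (nat_lit 0x380000980d) (nat_lit 65)) (.one (nat_lit 0x7000013019000e000026032311)) (.one (nat_lit 0x700001301a000e000026034311))))) (.br (Nat.shiftLeft (nat_lit 0x1000002603) (nat_lit 67)) (.br (Nat.shiftLeft (nat_lit 0x8000013017) (nat_lit 64)) (.one (nat_lit 0x8000013016001000002602c311))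 (.one (nat_lit 0x8000013017001000002602e311))) (.br (Nat.shiftLeft (nat_lit 0x8000013019) (nat_lit 64)) (.one (nat_lit 0x80000130180010000026030311)) (.br (Nat.shiftLeft (nat_lit 0x400000980d) (nat_lit 65)) (.one (nat_lit 0x80000130190010000026032311)) (.one (nat_lit 0x800001301a0010000026034311))))))) (.br (Nat.shiftLeft (nat_lit 0xb) (nat_lit 100)) (.br (Nat.shiftLeft (nat_lit 0x5) (nat_lit 101)) (.br (Nat.shiftLeft (nat_lit 0x1200002603) (nat_lit 67)) (.br (Nat.shiftLeft (nat_lit 0x9000013017) (nat_lit 64)) (.one (nat_lit 0x9000013016001200002602c311)) (.one (nat_lit 0x9000013017001200002602e311))) (.br (Nat.shiftLeft (nat_lit 0x9000013019) (nat_lit 64)) (.one (nat_lit 0x90000130180012000026030311)) (.br (Nat.shiftLeft (nat_lit 0x480000980d) (nat_lit 65)) (.one (nat_lit 0x90000130190012000026032311)) (.one (nat_lit 0x900001301a0012000026034311))))) (.br (Nat.shiftLeft (nat_lit 0x1400002603) (nat_lit 67)) (.br (Nat.shiftLeft (nat_lit 0xa000013017) (nat_lit 64)) (.one (nat_lit 0xa000013016001400002602c311))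 (.one (nat_lit 0xa000013017001400002602e311))) (.br (Nat.shiftLeft (nat_lit 0xa000013019) (nat_lit 64)) (.one (nat_lit 0xa0000130180014000026030311)) (.br (Nat.shiftLeft (nat_lit 0x500000980d) (nat_lit 65)) (.one (nat_lit 0xa0000130190014000026032311)) (.one (nat_lit 0xa00001301a0014000026034311)))))) (.br (Nat.shiftLeft (nat_lit 0x3) (nat_lit 102)) (.br (Nat.shiftLeft (nat_lit 0x1600002603) (nat_lit 67)) (.br (Nat.shiftLeft (nat_lit 0xb000013017) (nat_lit 64)) (.one (nat_lit 0xb000013016001600002602c311)) (.one (nat_lit 0xb000013017001600002602e311))) (.br (Nat.shiftLeft (nat_lit 0xb000013019) (nat_lit 64)) (.one (nat_lit 0xb0000130180016000026030311)) (.br (Nat.shiftLeft (nat_lit 0x580000980d) (nat_lit 65)) (.one (nat_lit 0xb0000130190016000026032311)) (.one (nat_lit 0xb00001301a0016000026034311))))) (.br (Nat.shiftLeft (nat_lit 0x1800002603) (nat_lit 67)) (.br (Nat.shiftLeft (nat_lit 0xc000013017) (nat_lit 64)) (.one (nat_lit 0xc000013016001800002602c311)) (.one (nat_lit 0xc000013017001800002602e311)))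 (.br (Nat.shiftLeft (nat_lit 0xc000013019) (nat_lit 64)) (.one (nat_lit 0xc0000130180018000026030311)) (.br (Nat.shiftLeft (nat_lit 0x600000980d) (nat_lit 65)) (.one (nat_lit 0xc0000130190018000026032311)) (.one (nat_lit 0xc00001301a0018000026034311))))))))
def t233 : k233.all (jb2 57 fl b0) = true := by decide +kernel
noncomputable def k234 : KT := (.br (Nat.shiftLeft (nat_lit 0xe000013017) (nat_lit 64)) (.br (Nat.shiftLeft (nat_lit 0x1a00002603) (nat_lit 67)) (.br (Nat.shiftLeft (nat_lit 0xd000013017) (nat_lit 64)) (.one (nat_lit 0xd000013016001a00002602c311)) (.one (nat_lit 0xd000013017001a00002602e311))) (.br (Nat.shiftLeft (nat_lit 0xd000013019) (nat_lit 64)) (.one (nat_lit 0xd000013018001a000026030311)) (.br (Nat.shiftLeft (nat_lit 0x7) (nat_lit 101)) (.one (nat_lit 0xd000013019001a000026032311)) (.one (nat_lit 0xe000013016001c00002602c311))))) (.br (Nat.shiftLeft (nat_lit 0xf) (nat_lit 100)) (.br (Nat.shiftLeft (nat_lit 0x1c00002603) (nat_lit 67)) (.one (nat_lit 0xe000013017001c00002602e311))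 (.one (nat_lit 0xe000013018001c000026030311))) (.br (Nat.shiftLeft (nat_lit 0xf000013017) (nat_lit 64)) (.one (nat_lit 0xf000013016001e00002602c311)) (.br (Nat.shiftLeft (nat_lit 0x1) (nat_lit 104)) (.one (nat_lit 0xf000013017001e00002602e311)) (.one (nat_lit 0x10000013016002000002602c311))))))
def t234 : k234.all (jb2 57 fl b0) = true := by decide +kernel
noncomputable def s10 : KT := (.br (nat_lit 0x40130190000008026032430) (.br (nat_lit 0x3013016000000602602c430) (.br (nat_lit 0x101301a0000002026034430) (.br (nat_lit 0x1301b0000000026036320) k211 (.br (nat_lit 0x1301d000000002603a320) k212 k213)) (.br (nat_lit 0x20130180000004026030430) k214 (.br (nat_lit 0x201301a0000004026034430) k215 k216))) (.br (nat_lit 0x301301a0000006026034430) (.br (nat_lit 0x3013017000000602602e430) k217 (.br (nat_lit 0x30130190000006026032430) k218 k219)) (.br (nat_lit 0x4013016000000802602c430) k220 (.br (nat_lit 0x4013017000000802602e430) k221 k222)))) (.br (nat_lit 0x6013019000000c026032430) (.br (nat_lit 0x5013018000000a026030430)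 (.br (nat_lit 0x401301a0000008026034430) k223 (.br (nat_lit 0x5013016000000a02602c430) k224 k225)) (.br (nat_lit 0x501301a000000a026034430) k226 (.br (nat_lit 0x6013016000000c02602c430) k227 k228))) (.br (nat_lit 0xa01301a0000014026034430) (.br (nat_lit 0x7013017000000e02602e430) k229 (.br (nat_lit 0x8013017000001002602e430) k230 k231)) (.br (nat_lit 0x400001301a0008000026034311) k232 (.br (nat_lit 0xc00001301a0018000026034311) k233 k234)))))
noncomputable def u10 : KT := (.br (Nat.shiftLeft (nat_lit 0x4c07) (nat_lit 66)) (.br (Nat.shiftLeft (nat_lit 0x13019) (nat_lit 64)) (.br (Nat.shiftLeft (nat_lit 0x13017) (nat_lit 64)) (.one (nat_lit 0x13016000000002602c320)) (.br (Nat.shiftLeft (nat_lit 0x2603) (nat_lit 67)) (.one (nat_lit 0x13017000000002602e320)) (.one (nat_lit 0x130180000000026030320)))) (.br (Nat.shiftLeft (nat_lit 0x980d) (nat_lit 65)) (.one (nat_lit 0x130190000000026032320)) (.br (Nat.shiftLeft (nat_lit 0x1301b) (nat_lit 64)) (.one (nat_lit 0x1301a0000000026034320)) (.one (nat_lit 0x1301b0000000026036320)))))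 (.br (Nat.shiftLeft (nat_lit 0x1301f) (nat_lit 64)) (.br (Nat.shiftLeft (nat_lit 0x1301d) (nat_lit 64)) (.one (nat_lit 0x1301c0000000026038320)) (.br (Nat.shiftLeft (nat_lit 0x980f) (nat_lit 65)) (.one (nat_lit 0x1301d000000002603a320)) (.one (nat_lit 0x1301e000000002603c320)))) (.br (Nat.shiftLeft (nat_lit 0x981) (nat_lit 69)) (.one (nat_lit 0x1301f000000002603e320)) (.br (Nat.shiftLeft (nat_lit 0x13021) (nat_lit 64)) (.one (nat_lit 0x130200000000026040320)) (.one (nat_lit 0x130210000000026042320))))))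
def w10 : u10.all (wj 57 s10) = true := by decide +kernel
def o10 : OkW 57 (jb2 57 fl) u10 := .lift s10 _ (.br _ _ _ (.br _ _ _ (.br _ _ _ (.br _ _ _ (.leaf b0 k211 t211) (.br _ _ _ (.leaf b0 k212 t212) (.leaf b0 k213 t213))) (.br _ _ _ (.leaf b0 k214 t214) (.br _ _ _ (.leaf b0 k215 t215) (.leaf b0 k216 t216)))) (.br _ _ _ (.br _ _ _ (.leaf b0 k217 t217) (.br _ _ _ (.leaf b0 k218 t218) (.leaf b0 k219 t219))) (.br _ _ _ (.leaf b0 k220 t220) (.br _ _ _ (.leaf b0 k221 t221) (.leaf b0 k222 t222))))) (.br _ _ _ (.br _ _ _ (.br _ _ _ (.leaf b0 k223 t223) (.br _ _ _ (.leaf b0 k224 t224) (.leaf b0 k225 t225))) (.br _ _ _ (.leaf b0 k226 t226) (.br _ _ _ (.leaf b0 k227 t227) (.leaf b0 k228 t228)))) (.br _ _ _ (.br _ _ _ (.leaf b0 k229 t229) (.br _ _ _ (.leaf b0 k230 t230) (.leaf b0 k231 t231))) (.br _ _ _ (.leaf b0 k232 t232) (.br _ _ _ (.leaf b0 k233 t233) (.leaf b0 k234 t234)))))) w10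
noncomputable def k235 : KT := (.br (Nat.shiftLeft (nat_lit 0x2803) (nat_lit 67)) (.br (Nat.shiftLeft (nat_lit 0xa00b) (nat_lit 65)) (.one (nat_lit 0x14015000000002802b300)) (.br (Nat.shiftLeft (nat_lit 0x14017) (nat_lit 64)) (.one (nat_lit 0x14016000000002802d300)) (.one (nat_lit 0x14017000000002802f300)))) (.br (Nat.shiftLeft (nat_lit 0x14019) (nat_lit 64)) (.one (nat_lit 0x140180000000028031300)) (.br (Nat.shiftLeft (nat_lit 0xa00d) (nat_lit 65)) (.one (nat_lit 0x140190000000028033300)) (.one (nat_lit 0x1401a0000000028034320)))))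
def t235 : k235.all (jb2 57 fl b0) = true := by decide +kernel
noncomputable def k236 : KT := (.br (Nat.shiftLeft (nat_lit 0x5007) (nat_lit 66)) (.one (nat_lit 0x1401b0000000028036320)) (.one (nat_lit 0x1401c0000000028038320)))
def t236 : k236.all (jb2 57 fl b0) = true := by decide +kernel
noncomputable def k237 : KT := (.br (Nat.shiftLeft (nat_lit 0x15017) (nat_lit 64)) (.br (Nat.shiftLeft (nat_lit 0xa01) (nat_lit 69)) (.br (Nat.shiftLeft (nat_lit 0xa00f) (nat_lit 65)) (.one (nat_lit 0x1401d000000002803a320)) (.br (Nat.shiftLeft (nat_lit 0x1401f) (nat_lit 64)) (.one (nat_lit 0x1401e000000002803c320)) (.one (nat_lit 0x1401f000000002803e320)))) (.br (Nat.shiftLeft (nat_lit 0x14021) (nat_lit 64)) (.one (nat_lit 0x140200000000028040320)) (.br (Nat.shiftLeft (nat_lit 0x15) (nat_lit 76)) (.one (nat_lit 0x140210000000028042320)) (.one (nat_lit 0x15016000000002a02d300))))) (.br (Nat.shiftLeft (nat_lit 0x1014017) (nat_lit 64)) (.br (Nat.shiftLeft (nat_lit 0x1) (nat_lit 88)) (.one (nat_lit 0x15017000000002a02f300))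 (.br (Nat.shiftLeft (nat_lit 0x80a00b) (nat_lit 65)) (.one (nat_lit 0x1014015000000202802a430)) (.one (nat_lit 0x1014016000000202802c430)))) (.br (Nat.shiftLeft (nat_lit 0x202803) (nat_lit 67)) (.one (nat_lit 0x1014017000000202802e430)) (.br (Nat.shiftLeft (nat_lit 0x1014019) (nat_lit 64)) (.one (nat_lit 0x10140180000002028030430)) (.one (nat_lit 0x10140190000002028032430))))))
def t237 : k237.all (jb2 57 fl b0) = true := by decide +kernel
noncomputable def k238 : KT := (.br (Nat.shiftLeft (nat_lit 0x1) (nat_lit 89)) (.br (Nat.shiftLeft (nat_lit 0x1015017) (nat_lit 64)) (.one (nat_lit 0x1015016000000202a02c430)) (.one (nat_lit 0x1015017000000202a02e430))) (.br (Nat.shiftLeft (nat_lit 0x100a00b) (nat_lit 65)) (.one (nat_lit 0x2014015000000402802a430)) (.br (Nat.shiftLeft (nat_lit 0x2014017) (nat_lit 64)) (.one (nat_lit 0x2014016000000402802c430)) (.one (nat_lit 0x2014017000000402802e430)))))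
def t238 : k238.all (jb2 57 fl b0) = true := by decide +kernel
noncomputable def k239 : KT := (.br (Nat.shiftLeft (nat_lit 0x2015) (nat_lit 76)) (.br (Nat.shiftLeft (nat_lit 0x2014019) (nat_lit 64)) (.one (nat_lit 0x20140180000004028030430)) (.one (nat_lit 0x20140190000004028032430))) (.br (Nat.shiftLeft (nat_lit 0x2015017) (nat_lit 64)) (.one (nat_lit 0x2015016000000402a02c430)) (.one (nat_lit 0x2015017000000402a02e430))))
def t239 : k239.all (jb2 57 fl b0) = true := by decide +kernel
noncomputable def k240 : KT := (.one (nat_lit 0x3014015000000602802a430))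
def t240 : k240.all (jb2 57 fl b0) = true := by decide +kernel
noncomputable def k241 : KT := (.one (nat_lit 0x3014016000000602802c430))
def t241 : k241.all (jb2 57 fl b0) = true := by decide +kernel
noncomputable def k242 : KT := (.br (Nat.shiftLeft (nat_lit 0x602803) (nat_lit 67)) (.one (nat_lit 0x3014017000000602802e430)) (.one (nat_lit 0x30140180000006028030430)))
def t242 : k242.all (jb2 57 fl b0) = true := by decide +kernel
noncomputable def k243 : KT := (.br (Nat.shiftLeft (nat_lit 0x3015) (nat_lit 76)) (.one (nat_lit 0x30140190000006028032430)) (.one (nat_lit 0x3015016000000602a02c430)))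
def t243 : k243.all (jb2 57 fl b0) = true := by decide +kernel
noncomputable def k244 : KT := (.one (nat_lit 0x3015017000000602a02e430))
def t244 : k244.all (jb2 57 fl b0) = true := by decide +kernel
noncomputable def k245 : KT := (.one (nat_lit 0x4014015000000802802a430))
def t245 : k245.all (jb2 57 fl b0) = true := by decide +kernel
noncomputable def k246 : KT := (.one (nat_lit 0x4014016000000802802c430))
def t246 : k246.all (jb2 57 fl b0) = true := by decide +kernel
noncomputable def k247 : KT := (.br (Nat.shiftLeft (nat_lit 0x802803) (nat_lit 67)) (.one (nat_lit 0x4014017000000802802e430)) (.one (nat_lit 0x40140180000008028030430)))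
def t247 : k247.all (jb2 57 fl b0) = true := by decide +kernel
noncomputable def k248 : KT := (.br (Nat.shiftLeft (nat_lit 0x4015) (nat_lit 76)) (.one (nat_lit 0x40140190000008028032430)) (.one (nat_lit 0x4015016000000802a02c430)))
def t248 : k248.all (jb2 57 fl b0) = true := by decide +kernel
noncomputable def k249 : KT := (.one (nat_lit 0x4015017000000802a02e430))
def t249 : k249.all (jb2 57 fl b0) = true := by decide +kernel
noncomputable def k250 : KT := (.one (nat_lit 0x5014015000000a02802a430))
def t250 : k250.all (jb2 57 fl b0) = true := by decide +kernel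
noncomputable def k251 : KT := (.br (Nat.shiftLeft (nat_lit 0x5014017) (nat_lit 64)) (.one (nat_lit 0x5014016000000a02802c430)) (.one (nat_lit 0x5014017000000a02802e430)))
def t251 : k251.all (jb2 57 fl b0) = true := by decide +kernel
noncomputable def k252 : KT := (.br (Nat.shiftLeft (nat_lit 0x5014019) (nat_lit 64)) (.one (nat_lit 0x5014018000000a028030430)) (.br (Nat.shiftLeft (nat_lit 0x5015) (nat_lit 76)) (.one (nat_lit 0x5014019000000a028032430)) (.one (nat_lit 0x5015016000000a02a02c430))))
def t252 : k252.all (jb2 57 fl b0) = true := by decide +kernel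
noncomputable def k253 : KT := (.br (Nat.shiftLeft (nat_lit 0x3) (nat_lit 89)) (.one (nat_lit 0x5015017000000a02a02e430)) (.one (nat_lit 0x6014015000000c02802a430)))
def t253 : k253.all (jb2 57 fl b0) = true := by decide +kernel
noncomputable def k254 : KT := (.br (Nat.shiftLeft (nat_lit 0x6014017) (nat_lit 64)) (.one (nat_lit 0x6014016000000c02802c430)) (.br (Nat.shiftLeft (nat_lit 0xc02803) (nat_lit 67)) (.one (nat_lit 0x6014017000000c02802e430)) (.one (nat_lit 0x6014018000000c028030430))))
def t254 : k254.all (jb2 57 fl b0) = true := by decide +kernel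
noncomputable def k255 : KT := (.br (Nat.shiftLeft (nat_lit 0x6015) (nat_lit 76)) (.one (nat_lit 0x6014019000000c028032430)) (.br (Nat.shiftLeft (nat_lit 0x6015017) (nat_lit 64)) (.one (nat_lit 0x6015016000000c02a02c430)) (.one (nat_lit 0x6015017000000c02a02e430))))
def t255 : k255.all (jb2 57 fl b0) = true := by decide +kernel
noncomputable def k256 : KT := (.br (Nat.shiftLeft (nat_lit 0x380a00b) (nat_lit 65)) (.one (nat_lit 0x7014015000000e02802a430)) (.br (Nat.shiftLeft (nat_lit 0x7014017) (nat_lit 64)) (.one (nat_lit 0x7014016000000e02802c430)) (.one (nat_lit 0x7014017000000e02802e430))))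
def t256 : k256.all (jb2 57 fl b0) = true := by decide +kernel
noncomputable def k257 : KT := (.br (Nat.shiftLeft (nat_lit 0x7015) (nat_lit 76)) (.br (Nat.shiftLeft (nat_lit 0x7014019) (nat_lit 64)) (.one (nat_lit 0x7014018000000e028030430)) (.one (nat_lit 0x7014019000000e028032430))) (.br (Nat.shiftLeft (nat_lit 0x7015017) (nat_lit 64)) (.one (nat_lit 0x7015016000000e02a02c430)) (.br (Nat.shiftLeft (nat_lit 0x1) (nat_lit 91)) (.one (nat_lit 0x7015017000000e02a02e430)) (.one (nat_lit 0x8014015000001002802a430)))))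
def t257 : k257.all (jb2 57 fl b0) = true := by decide +kernel
noncomputable def k258 : KT := (.br (Nat.shiftLeft (nat_lit 0x8015) (nat_lit 76)) (.br (Nat.shiftLeft (nat_lit 0x1002803) (nat_lit 67)) (.br (Nat.shiftLeft (nat_lit 0x8014017) (nat_lit 64)) (.one (nat_lit 0x8014016000001002802c430)) (.one (nat_lit 0x8014017000001002802e430))) (.br (Nat.shiftLeft (nat_lit 0x8014019) (nat_lit 64)) (.one (nat_lit 0x80140180000010028030430)) (.one (nat_lit 0x80140190000010028032430)))) (.br (Nat.shiftLeft (nat_lit 0x9) (nat_lit 88)) (.br (Nat.shiftLeft (nat_lit 0x8015017) (nat_lit 64)) (.one (nat_lit 0x8015016000001002a02c430)) (.one (nat_lit 0x8015017000001002a02e430))) (.br (Nat.shiftLeft (nat_lit 0x480a00b) (nat_lit 65)) (.one (nat_lit 0x9014015000001202802a430)) (.one (nat_lit 0x9014016000001202802c430)))))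
def t258 : k258.all (jb2 57 fl b0) = true := by decide +kernel
noncomputable def k259 : KT := (.br (Nat.shiftLeft (nat_lit 0x600a00b) (nat_lit 65)) (.br (Nat.shiftLeft (nat_lit 0xa015) (nat_lit 76)) (.br (Nat.shiftLeft (nat_lit 0x5) (nat_lit 89)) (.br (Nat.shiftLeft (nat_lit 0x9014019) (nat_lit 64)) (.br (Nat.shiftLeft (nat_lit 0x1202803) (nat_lit 67)) (.one (nat_lit 0x9014017000001202802e430)) (.one (nat_lit 0x90140180000012028030430))) (.br (Nat.shiftLeft (nat_lit 0x9015) (nat_lit 76)) (.one (nat_lit 0x90140190000012028032430)) (.br (Nat.shiftLeft (nat_lit 0x9015017) (nat_lit 64)) (.one (nat_lit 0x9015016000001202a02c430)) (.one (nat_lit 0x9015017000001202a02e430))))) (.br (Nat.shiftLeft (nat_lit 0xa014017) (nat_lit 64)) (.br (Nat.shiftLeft (nat_lit 0x500a00b) (nat_lit 65)) (.one (nat_lit 0xa014015000001402802a430)) (.one (nat_lit 0xa014016000001402802c430))) (.br (Nat.shiftLeft (nat_lit 0x1402803) (nat_lit 67)) (.one (nat_lit 0xa014017000001402802e430)) (.br (Nat.shiftLeft (nat_lit 0xa014019) (nat_lit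 64)) (.one (nat_lit 0xa0140180000014028030430)) (.one (nat_lit 0xa0140190000014028032430)))))) (.br (Nat.shiftLeft (nat_lit 0x1602803) (nat_lit 67)) (.br (Nat.shiftLeft (nat_lit 0xb) (nat_lit 88)) (.br (Nat.shiftLeft (nat_lit 0xa015017) (nat_lit 64)) (.one (nat_lit 0xa015016000001402a02c430)) (.one (nat_lit 0xa015017000001402a02e430))) (.br (Nat.shiftLeft (nat_lit 0x580a00b) (nat_lit 65)) (.one (nat_lit 0xb014015000001602802a430)) (.br (Nat.shiftLeft (nat_lit 0xb014017) (nat_lit 64)) (.one (nat_lit 0xb014016000001602802c430)) (.one (nat_lit 0xb014017000001602802e430))))) (.br (Nat.shiftLeft (nat_lit 0xb015) (nat_lit 76)) (.br (Nat.shiftLeft (nat_lit 0xb014019) (nat_lit 64)) (.one (nat_lit 0xb0140180000016028030430)) (.one (nat_lit 0xb0140190000016028032430))) (.br (Nat.shiftLeft (nat_lit 0xb015017) (nat_lit 64)) (.one (nat_lit 0xb015016000001602a02c430)) (.br (Nat.shiftLeft (nat_lit 0x3) (nat_lit 90)) (.one (nat_lit 0xb015017000001602a02e430)) (.one (nat_lit 0xc014015000001802802a430))))))) (.br (Nat.shiftLeft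 (nat_lit 0xd015) (nat_lit 76)) (.br (Nat.shiftLeft (nat_lit 0xc015017) (nat_lit 64)) (.br (Nat.shiftLeft (nat_lit 0x1802803) (nat_lit 67)) (.br (Nat.shiftLeft (nat_lit 0xc014017) (nat_lit 64)) (.one (nat_lit 0xc014016000001802802c430)) (.one (nat_lit 0xc014017000001802802e430))) (.br (Nat.shiftLeft (nat_lit 0xc014019) (nat_lit 64)) (.one (nat_lit 0xc0140180000018028030430)) (.br (Nat.shiftLeft (nat_lit 0xc015) (nat_lit 76)) (.one (nat_lit 0xc0140190000018028032430)) (.one (nat_lit 0xc015016000001802a02c430))))) (.br (Nat.shiftLeft (nat_lit 0x680a00b) (nat_lit 65)) (.br (Nat.shiftLeft (nat_lit 0xd) (nat_lit 88)) (.one (nat_lit 0xc015017000001802a02e430)) (.one (nat_lit 0xd014015000001a02802a430))) (.br (Nat.shiftLeft (nat_lit 0xd014017) (nat_lit 64)) (.one (nat_lit 0xd014016000001a02802c430)) (.br (Nat.shiftLeft (nat_lit 0x1a02803) (nat_lit 67)) (.one (nat_lit 0xd014017000001a02802e430)) (.one (nat_lit 0xd014018000001a028030430)))))) (.br (Nat.shiftLeft (nat_lit 0xe015) (nat_lit 76)) (.br (Nat.shiftLeft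 (nat_lit 0x7) (nat_lit 89)) (.br (Nat.shiftLeft (nat_lit 0xd015017) (nat_lit 64)) (.one (nat_lit 0xd015016000001a02a02c430)) (.one (nat_lit 0xd015017000001a02a02e430))) (.br (Nat.shiftLeft (nat_lit 0x700a00b) (nat_lit 65)) (.one (nat_lit 0xe014015000001c02802a430)) (.br (Nat.shiftLeft (nat_lit 0xe014017) (nat_lit 64)) (.one (nat_lit 0xe014016000001c02802c430)) (.one (nat_lit 0xe014017000001c02802e430))))) (.br (Nat.shiftLeft (nat_lit 0x780a00b) (nat_lit 65)) (.br (Nat.shiftLeft (nat_lit 0xf) (nat_lit 88)) (.one (nat_lit 0xe015016000001c02a02c430)) (.one (nat_lit 0xf014015000001e02802a430))) (.br (Nat.shiftLeft (nat_lit 0x1) (nat_lit 92)) (.one (nat_lit 0xf014016000001e02802c430)) (.br (Nat.shiftLeft (nat_lit 0x1) (nat_lit 100)) (.one (nat_lit 0x10014015000002002802a430)) (.one (nat_lit 0x1000014015000200002802a311))))))))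
def t259 : k259.all (jb2 57 fl b0) = true := by decide +kernel
noncomputable def k260 : KT := (.br (Nat.shiftLeft (nat_lit 0x1) (nat_lit 102)) (.br (Nat.shiftLeft (nat_lit 0x2000014019) (nat_lit 64)) (.br (Nat.shiftLeft (nat_lit 0x1000015017) (nat_lit 64)) (.br (Nat.shiftLeft (nat_lit 0x200002803) (nat_lit 67)) (.br (Nat.shiftLeft (nat_lit 0x1000014017) (nat_lit 64)) (.one (nat_lit 0x1000014016000200002802c311)) (.one (nat_lit 0x1000014017000200002802e311))) (.br (Nat.shiftLeft (nat_lit 0x1000014019) (nat_lit 64)) (.one (nat_lit 0x10000140180002000028030311)) (.br (Nat.shiftLeft (nat_lit 0x1000015) (nat_lit 76)) (.one (nat_lit 0x10000140190002000028032311)) (.one (nat_lit 0x1000015016000200002a02c311))))) (.br (Nat.shiftLeft (nat_lit 0x100000a00b) (nat_lit 65)) (.br (Nat.shiftLeft (nat_lit 0x1) (nat_lit 101)) (.one (nat_lit 0x1000015017000200002a02e311)) (.one (nat_lit 0x2000014015000400002802a311))) (.br (Nat.shiftLeft (nat_lit 0x2000014017) (nat_lit 64)) (.one (nat_lit 0x2000014016000400002802c311))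 (.br (Nat.shiftLeft (nat_lit 0x400002803) (nat_lit 67)) (.one (nat_lit 0x2000014017000400002802e311)) (.one (nat_lit 0x20000140180004000028030311)))))) (.br (Nat.shiftLeft (nat_lit 0x3000014017) (nat_lit 64)) (.br (Nat.shiftLeft (nat_lit 0x2000015017) (nat_lit 64)) (.br (Nat.shiftLeft (nat_lit 0x2000015) (nat_lit 76)) (.one (nat_lit 0x20000140190004000028032311)) (.one (nat_lit 0x2000015016000400002a02c311))) (.br (Nat.shiftLeft (nat_lit 0x3) (nat_lit 100)) (.one (nat_lit 0x2000015017000400002a02e311)) (.br (Nat.shiftLeft (nat_lit 0x180000a00b) (nat_lit 65)) (.one (nat_lit 0x3000014015000600002802a311)) (.one (nat_lit 0x3000014016000600002802c311))))) (.br (Nat.shiftLeft (nat_lit 0x3000014019) (nat_lit 64)) (.br (Nat.shiftLeft (nat_lit 0x600002803) (nat_lit 67)) (.one (nat_lit 0x3000014017000600002802e311)) (.one (nat_lit 0x30000140180006000028030311))) (.br (Nat.shiftLeft (nat_lit 0x3000015) (nat_lit 76)) (.one (nat_lit 0x30000140190006000028032311)) (.br (Nat.shiftLeft (nat_lit 0x3000015017) (nat_lit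 64)) (.one (nat_lit 0x3000015016000600002a02c311)) (.one (nat_lit 0x3000015017000600002a02e311))))))) (.br (Nat.shiftLeft (nat_lit 0xa00002803) (nat_lit 67)) (.br (Nat.shiftLeft (nat_lit 0x4000015) (nat_lit 76)) (.br (Nat.shiftLeft (nat_lit 0x4000014017) (nat_lit 64)) (.br (Nat.shiftLeft (nat_lit 0x200000a00b) (nat_lit 65)) (.one (nat_lit 0x4000014015000800002802a311)) (.one (nat_lit 0x4000014016000800002802c311))) (.br (Nat.shiftLeft (nat_lit 0x800002803) (nat_lit 67)) (.one (nat_lit 0x4000014017000800002802e311)) (.br (Nat.shiftLeft (nat_lit 0x4000014019) (nat_lit 64)) (.one (nat_lit 0x40000140180008000028030311)) (.one (nat_lit 0x40000140190008000028032311))))) (.br (Nat.shiftLeft (nat_lit 0x5) (nat_lit 100)) (.br (Nat.shiftLeft (nat_lit 0x4000015017) (nat_lit 64)) (.one (nat_lit 0x4000015016000800002a02c311)) (.one (nat_lit 0x4000015017000800002a02e311))) (.br (Nat.shiftLeft (nat_lit 0x280000a00b) (nat_lit 65)) (.one (nat_lit 0x5000014015000a00002802a311)) (.br (Nat.shiftLeft (nat_lit 0x5000014017)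 (nat_lit 64)) (.one (nat_lit 0x5000014016000a00002802c311)) (.one (nat_lit 0x5000014017000a00002802e311)))))) (.br (Nat.shiftLeft (nat_lit 0x300000a00b) (nat_lit 65)) (.br (Nat.shiftLeft (nat_lit 0x5000015) (nat_lit 76)) (.br (Nat.shiftLeft (nat_lit 0x5000014019) (nat_lit 64)) (.one (nat_lit 0x5000014018000a000028030311)) (.one (nat_lit 0x5000014019000a000028032311))) (.br (Nat.shiftLeft (nat_lit 0x5000015017) (nat_lit 64)) (.one (nat_lit 0x5000015016000a00002a02c311)) (.br (Nat.shiftLeft (nat_lit 0x3) (nat_lit 101)) (.one (nat_lit 0x5000015017000a00002a02e311)) (.one (nat_lit 0x6000014015000c00002802a311))))) (.br (Nat.shiftLeft (nat_lit 0xc00002803) (nat_lit 67)) (.br (Nat.shiftLeft (nat_lit 0x6000014017) (nat_lit 64)) (.one (nat_lit 0x6000014016000c00002802c311)) (.one (nat_lit 0x6000014017000c00002802e311))) (.br (Nat.shiftLeft (nat_lit 0x6000014019) (nat_lit 64)) (.one (nat_lit 0x6000014018000c000028030311)) (.br (Nat.shiftLeft (nat_lit 0x6000015) (nat_lit 76)) (.one (nat_lit 0x6000014019000c000028032311))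 (.one (nat_lit 0x6000015016000c00002a02c311))))))))
def t260 : k260.all (jb2 57 fl b0) = true := by decide +kernel
noncomputable def k261 : KT := (.br (Nat.shiftLeft (nat_lit 0x9000015) (nat_lit 76)) (.br (Nat.shiftLeft (nat_lit 0x8000014017) (nat_lit 64)) (.br (Nat.shiftLeft (nat_lit 0x7000014019) (nat_lit 64)) (.br (Nat.shiftLeft (nat_lit 0x380000a00b) (nat_lit 65)) (.br (Nat.shiftLeft (nat_lit 0x7) (nat_lit 100)) (.one (nat_lit 0x6000015017000c00002a02e311)) (.one (nat_lit 0x7000014015000e00002802a311))) (.br (Nat.shiftLeft (nat_lit 0x7000014017) (nat_lit 64)) (.one (nat_lit 0x7000014016000e00002802c311)) (.br (Nat.shiftLeft (nat_lit 0xe00002803) (nat_lit 67)) (.one (nat_lit 0x7000014017000e00002802e311)) (.one (nat_lit 0x7000014018000e000028030311))))) (.br (Nat.shiftLeft (nat_lit 0x7000015017) (nat_lit 64)) (.br (Nat.shiftLeft (nat_lit 0x7000015) (nat_lit 76)) (.one (nat_lit 0x7000014019000e000028032311)) (.one (nat_lit 0x7000015016000e00002a02c311))) (.br (Nat.shiftLeft (nat_lit 0x1) (nat_lit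 103)) (.one (nat_lit 0x7000015017000e00002a02e311)) (.br (Nat.shiftLeft (nat_lit 0x400000a00b) (nat_lit 65)) (.one (nat_lit 0x8000014015001000002802a311)) (.one (nat_lit 0x8000014016001000002802c311)))))) (.br (Nat.shiftLeft (nat_lit 0x9) (nat_lit 100)) (.br (Nat.shiftLeft (nat_lit 0x8000014019) (nat_lit 64)) (.br (Nat.shiftLeft (nat_lit 0x1000002803) (nat_lit 67)) (.one (nat_lit 0x8000014017001000002802e311)) (.one (nat_lit 0x80000140180010000028030311))) (.br (Nat.shiftLeft (nat_lit 0x8000015) (nat_lit 76)) (.one (nat_lit 0x80000140190010000028032311)) (.br (Nat.shiftLeft (nat_lit 0x8000015017) (nat_lit 64)) (.one (nat_lit 0x8000015016001000002a02c311)) (.one (nat_lit 0x8000015017001000002a02e311))))) (.br (Nat.shiftLeft (nat_lit 0x9000014017) (nat_lit 64)) (.br (Nat.shiftLeft (nat_lit 0x480000a00b) (nat_lit 65)) (.one (nat_lit 0x9000014015001200002802a311)) (.one (nat_lit 0x9000014016001200002802c311))) (.br (Nat.shiftLeft (nat_lit 0x1200002803) (nat_lit 67)) (.one (nat_lit 0x9000014017001200002802e311))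 (.br (Nat.shiftLeft (nat_lit 0x9000014019) (nat_lit 64)) (.one (nat_lit 0x90000140180012000028030311)) (.one (nat_lit 0x90000140190012000028032311))))))) (.br (Nat.shiftLeft (nat_lit 0x580000a00b) (nat_lit 65)) (.br (Nat.shiftLeft (nat_lit 0x1400002803) (nat_lit 67)) (.br (Nat.shiftLeft (nat_lit 0x5) (nat_lit 101)) (.br (Nat.shiftLeft (nat_lit 0x9000015017) (nat_lit 64)) (.one (nat_lit 0x9000015016001200002a02c311)) (.one (nat_lit 0x9000015017001200002a02e311))) (.br (Nat.shiftLeft (nat_lit 0x500000a00b) (nat_lit 65)) (.one (nat_lit 0xa000014015001400002802a311)) (.br (Nat.shiftLeft (nat_lit 0xa000014017) (nat_lit 64)) (.one (nat_lit 0xa000014016001400002802c311)) (.one (nat_lit 0xa000014017001400002802e311))))) (.br (Nat.shiftLeft (nat_lit 0xa000015) (nat_lit 76)) (.br (Nat.shiftLeft (nat_lit 0xa000014019) (nat_lit 64)) (.one (nat_lit 0xa0000140180014000028030311)) (.one (nat_lit 0xa0000140190014000028032311))) (.br (Nat.shiftLeft (nat_lit 0xa000015017) (nat_lit 64)) (.one (nat_lit 0xa000015016001400002a02c311))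 (.br (Nat.shiftLeft (nat_lit 0xb) (nat_lit 100)) (.one (nat_lit 0xa000015017001400002a02e311)) (.one (nat_lit 0xb000014015001600002802a311)))))) (.br (Nat.shiftLeft (nat_lit 0xb000015017) (nat_lit 64)) (.br (Nat.shiftLeft (nat_lit 0x1600002803) (nat_lit 67)) (.br (Nat.shiftLeft (nat_lit 0xb000014017) (nat_lit 64)) (.one (nat_lit 0xb000014016001600002802c311)) (.one (nat_lit 0xb000014017001600002802e311))) (.br (Nat.shiftLeft (nat_lit 0xb000014019) (nat_lit 64)) (.one (nat_lit 0xb0000140180016000028030311)) (.br (Nat.shiftLeft (nat_lit 0xb000015) (nat_lit 76)) (.one (nat_lit 0xb0000140190016000028032311)) (.one (nat_lit 0xb000015016001600002a02c311))))) (.br (Nat.shiftLeft (nat_lit 0x600000a00b) (nat_lit 65)) (.br (Nat.shiftLeft (nat_lit 0x3) (nat_lit 102)) (.one (nat_lit 0xb000015017001600002a02e311)) (.one (nat_lit 0xc000014015001800002802a311))) (.br (Nat.shiftLeft (nat_lit 0xc000014017) (nat_lit 64)) (.one (nat_lit 0xc000014016001800002802c311)) (.br (Nat.shiftLeft (nat_lit 0x1800002803) (nat_lit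 67)) (.one (nat_lit 0xc000014017001800002802e311)) (.one (nat_lit 0xc0000140180018000028030311))))))))
def t261 : k261.all (jb2 57 fl b0) = true := by decide +kernel
noncomputable def k262 : KT := (.br (Nat.shiftLeft (nat_lit 0xd000015017) (nat_lit 64)) (.br (Nat.shiftLeft (nat_lit 0x680000a00b) (nat_lit 65)) (.br (Nat.shiftLeft (nat_lit 0xc000015017) (nat_lit 64)) (.br (Nat.shiftLeft (nat_lit 0xc000015) (nat_lit 76)) (.one (nat_lit 0xc0000140190018000028032311)) (.one (nat_lit 0xc000015016001800002a02c311))) (.br (Nat.shiftLeft (nat_lit 0xd) (nat_lit 100)) (.one (nat_lit 0xc000015017001800002a02e311)) (.one (nat_lit 0xd000014015001a00002802a311)))) (.br (Nat.shiftLeft (nat_lit 0x1a00002803) (nat_lit 67)) (.br (Nat.shiftLeft (nat_lit 0xd000014017) (nat_lit 64)) (.one (nat_lit 0xd000014016001a00002802c311)) (.one (nat_lit 0xd000014017001a00002802e311))) (.br (Nat.shiftLeft (nat_lit 0xd000015) (nat_lit 76)) (.one (nat_lit 0xd000014018001a000028030311)) (.one (nat_lit 0xd000015016001a00002a02c311)))))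 (.br (Nat.shiftLeft (nat_lit 0xe000015) (nat_lit 76)) (.br (Nat.shiftLeft (nat_lit 0x700000a00b) (nat_lit 65)) (.br (Nat.shiftLeft (nat_lit 0x7) (nat_lit 101)) (.one (nat_lit 0xd000015017001a00002a02e311)) (.one (nat_lit 0xe000014015001c00002802a311))) (.br (Nat.shiftLeft (nat_lit 0xe000014017) (nat_lit 64)) (.one (nat_lit 0xe000014016001c00002802c311)) (.one (nat_lit 0xe000014017001c00002802e311)))) (.br (Nat.shiftLeft (nat_lit 0x780000a00b) (nat_lit 65)) (.br (Nat.shiftLeft (nat_lit 0xf) (nat_lit 100)) (.one (nat_lit 0xe000015016001c00002a02c311)) (.one (nat_lit 0xf000014015001e00002802a311))) (.br (Nat.shiftLeft (nat_lit 0x1) (nat_lit 104)) (.one (nat_lit 0xf000014016001e00002802c311)) (.one (nat_lit 0x10000014015002000002802a311))))))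
def t262 : k262.all (jb2 57 fl b0) = true := by decide +kernel
noncomputable def s11 : KT := (.br (nat_lit 0x4015016000000802a02c430) (.br (nat_lit 0x3014016000000602802c430) (.br (nat_lit 0x10140190000002028032430) (.br (nat_lit 0x1401a0000000028034320) k235 (.br (nat_lit 0x1401c0000000028038320) k236 k237)) (.br (nat_lit 0x2015017000000402a02e430) (.br (nat_lit 0x2014017000000402802e430) k238 k239) (.br (nat_lit 0x3014015000000602802a430) k240 k241))) (.br (nat_lit 0x3015017000000602a02e430) (.br (nat_lit 0x30140180000006028030430) k242 (.br (nat_lit 0x3015016000000602a02c430) k243 k244)) (.br (nat_lit 0x4014016000000802802c430) (.br (nat_lit 0x4014015000000802802a430) k245 k246) (.br (nat_lit 0x40140180000008028030430) k247 k248)))) (.br (nat_lit 0x6015017000000c02a02e430) (.br (nat_lit 0x5014017000000a02802e430) (.br (nat_lit 0x4015017000000802a02e430) k249 (.br (nat_lit 0x5014015000000a02802a430) k250 k251)) (.br (nat_lit 0x6014015000000c02802a430) (.br (nat_lit 0x5015016000000a02a02c430) k252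 k253) (.br (nat_lit 0x6014018000000c028030430) k254 k255))) (.br (nat_lit 0x9014016000001202802c430) (.br (nat_lit 0x7014017000000e02802e430) k256 (.br (nat_lit 0x8014015000001002802a430) k257 k258)) (.br (nat_lit 0x6000015016000c00002a02c311) (.br (nat_lit 0x1000014015000200002802a311) k259 k260) (.br (nat_lit 0xc0000140180018000028030311) k261 k262)))))
noncomputable def u11 : KT := (.br (Nat.shiftLeft (nat_lit 0x5007) (nat_lit 66)) (.br (Nat.shiftLeft (nat_lit 0x2803) (nat_lit 67)) (.br (Nat.shiftLeft (nat_lit 0xa00b) (nat_lit 65)) (.one (nat_lit 0x14015000000002802a320)) (.br (Nat.shiftLeft (nat_lit 0x14017) (nat_lit 64)) (.one (nat_lit 0x14016000000002802c320)) (.one (nat_lit 0x14017000000002802e320)))) (.br (Nat.shiftLeft (nat_lit 0xa00d) (nat_lit 65)) (.br (Nat.shiftLeft (nat_lit 0x14019) (nat_lit 64)) (.one (nat_lit 0x140180000000028030320)) (.one (nat_lit 0x140190000000028032320))) (.br (Nat.shiftLeft (nat_lit 0x1401b) (nat_lit 64)) (.one (nat_lit 0x1401a0000000028034320)) (.one (nat_lit 0x1401b0000000028036320)))))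 (.br (Nat.shiftLeft (nat_lit 0xa01) (nat_lit 69)) (.br (Nat.shiftLeft (nat_lit 0xa00f) (nat_lit 65)) (.br (Nat.shiftLeft (nat_lit 0x1401d) (nat_lit 64)) (.one (nat_lit 0x1401c0000000028038320)) (.one (nat_lit 0x1401d000000002803a320))) (.br (Nat.shiftLeft (nat_lit 0x1401f) (nat_lit 64)) (.one (nat_lit 0x1401e000000002803c320)) (.one (nat_lit 0x1401f000000002803e320)))) (.br (Nat.shiftLeft (nat_lit 0x15) (nat_lit 76)) (.br (Nat.shiftLeft (nat_lit 0x14021) (nat_lit 64)) (.one (nat_lit 0x140200000000028040320)) (.one (nat_lit 0x140210000000028042320))) (.br (Nat.shiftLeft (nat_lit 0x15017) (nat_lit 64)) (.one (nat_lit 0x15016000000002a02c320)) (.one (nat_lit 0x15017000000002a02e320))))))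
def w11 : u11.all (wj 57 s11) = true := by decide +kernel
def o11 : OkW 57 (jb2 57 fl) u11 := .lift s11 _ (.br _ _ _ (.br _ _ _ (.br _ _ _ (.br _ _ _ (.leaf b0 k235 t235) (.br _ _ _ (.leaf b0 k236 t236) (.leaf b0 k237 t237))) (.br _ _ _ (.br _ _ _ (.leaf b0 k238 t238) (.leaf b0 k239 t239)) (.br _ _ _ (.leaf b0 k240 t240) (.leaf b0 k241 t241)))) (.br _ _ _ (.br _ _ _ (.leaf b0 k242 t242) (.br _ _ _ (.leaf b0 k243 t243) (.leaf b0 k244 t244))) (.br _ _ _ (.br _ _ _ (.leaf b0 k245 t245) (.leaf b0 k246 t246)) (.br _ _ _ (.leaf b0 k247 t247) (.leaf b0 k248 t248))))) (.br _ _ _ (.br _ _ _ (.br _ _ _ (.leaf b0 k249 t249) (.br _ _ _ (.leaf b0 k250 t250) (.leaf b0 k251 t251))) (.br _ _ _ (.br _ _ _ (.leaf b0 k252 t252) (.leaf b0 k253 t253)) (.br _ _ _ (.leaf b0 k254 t254) (.leaf b0 k255 t255)))) (.br _ _ _ (.br _ _ _ (.leaf b0 k256 t256) (.br _ _ _ (.leaf b0 k257 t257) (.leaf b0 k258 t258))) (.br _ _ _ (.br _ _ _ (.leaf b0 k259 t259) (.leaf b0 k260 t260)) (.br _ _ _ (.leaf b0 k261 t261) (.leaf b0 k262 t262))))))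 w11
noncomputable def k263 : KT := (.br (Nat.shiftLeft (nat_lit 0x15019) (nat_lit 64)) (.one (nat_lit 0x15018000000002a031300)) (.one (nat_lit 0x15019000000002a032320)))
def t263 : k263.all (jb2 57 fl b0) = true := by decide +kernel
noncomputable def k264 : KT := (.br (Nat.shiftLeft (nat_lit 0x1501b) (nat_lit 64)) (.one (nat_lit 0x1501a000000002a034320)) (.one (nat_lit 0x1501b000000002a036320)))
def t264 : k264.all (jb2 57 fl b0) = true := by decide +kernel
noncomputable def k265 : KT := (.br (Nat.shiftLeft (nat_lit 0x1501f) (nat_lit 64)) (.br (Nat.shiftLeft (nat_lit 0x1501d) (nat_lit 64)) (.one (nat_lit 0x1501c000000002a038320)) (.br (Nat.shiftLeft (nat_lit 0xa80f) (nat_lit 65)) (.one (nat_lit 0x1501d000000002a03a320)) (.one (nat_lit 0x1501e000000002a03c320)))) (.br (Nat.shiftLeft (nat_lit 0x15021) (nat_lit 64)) (.br (Nat.shiftLeft (nat_lit 0xa81) (nat_lit 69)) (.one (nat_lit 0x1501f000000002a03e320)) (.one (nat_lit 0x15020000000002a040320))) (.br (Nat.shiftLeft (nat_lit 0xb) (nat_lit 77)) (.one (nat_lit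 0x15021000000002a042320)) (.one (nat_lit 0x16017000000002c02f300)))))
def t265 : k265.all (jb2 57 fl b0) = true := by decide +kernel
noncomputable def k266 : KT := (.one (nat_lit 0x16018000000002c030320))
def t266 : k266.all (jb2 57 fl b0) = true := by decide +kernel
noncomputable def k267 : KT := (.br (Nat.shiftLeft (nat_lit 0xb00d) (nat_lit 65)) (.one (nat_lit 0x16019000000002c032320)) (.one (nat_lit 0x1601a000000002c034320)))
def t267 : k267.all (jb2 57 fl b0) = true := by decide +kernel
noncomputable def k268 : KT := (.br (Nat.shiftLeft (nat_lit 0xb00f) (nat_lit 65)) (.br (Nat.shiftLeft (nat_lit 0x5807) (nat_lit 66)) (.one (nat_lit 0x1601b000000002c036320)) (.br (Nat.shiftLeft (nat_lit 0x1601d) (nat_lit 64)) (.one (nat_lit 0x1601c000000002c038320)) (.one (nat_lit 0x1601d000000002c03a320)))) (.br (Nat.shiftLeft (nat_lit 0xb01) (nat_lit 69)) (.br (Nat.shiftLeft (nat_lit 0x1601f) (nat_lit 64)) (.one (nat_lit 0x1601e000000002c03c320)) (.one (nat_lit 0x1601f000000002c03e320))) (.br (Nat.shiftLeft (nat_lit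 0x16021) (nat_lit 64)) (.one (nat_lit 0x16020000000002c040320)) (.one (nat_lit 0x16021000000002c042320)))))
def t268 : k268.all (jb2 57 fl b0) = true := by decide +kernel
noncomputable def k269 : KT := (.br (Nat.shiftLeft (nat_lit 0x17019) (nat_lit 64)) (.one (nat_lit 0x17018000000002e030320)) (.one (nat_lit 0x17019000000002e032320)))
def t269 : k269.all (jb2 57 fl b0) = true := by decide +kernel
noncomputable def k270 : KT := (.br (Nat.shiftLeft (nat_lit 0xb80f) (nat_lit 65)) (.br (Nat.shiftLeft (nat_lit 0x5c07) (nat_lit 66)) (.br (Nat.shiftLeft (nat_lit 0x1701b) (nat_lit 64)) (.one (nat_lit 0x1701a000000002e034320)) (.one (nat_lit 0x1701b000000002e036320))) (.br (Nat.shiftLeft (nat_lit 0x1701d) (nat_lit 64)) (.one (nat_lit 0x1701c000000002e038320)) (.one (nat_lit 0x1701d000000002e03a320)))) (.br (Nat.shiftLeft (nat_lit 0xb81) (nat_lit 69)) (.br (Nat.shiftLeft (nat_lit 0x1701f) (nat_lit 64)) (.one (nat_lit 0x1701e000000002e03c320)) (.one (nat_lit 0x1701f000000002e03e320))) (.br (Nat.shiftLeft (nat_lit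 0x17021) (nat_lit 64)) (.one (nat_lit 0x17020000000002e040320)) (.br (Nat.shiftLeft (nat_lit 0x3) (nat_lit 79)) (.one (nat_lit 0x17021000000002e042320)) (.one (nat_lit 0x180190000000030032320))))))
def t270 : k270.all (jb2 57 fl b0) = true := by decide +kernel
noncomputable def k271 : KT := (.br (Nat.shiftLeft (nat_lit 0x1a01d) (nat_lit 64)) (.br (Nat.shiftLeft (nat_lit 0x19) (nat_lit 76)) (.br (Nat.shiftLeft (nat_lit 0xc00f) (nat_lit 65)) (.br (Nat.shiftLeft (nat_lit 0x6007) (nat_lit 66)) (.br (Nat.shiftLeft (nat_lit 0x1801b) (nat_lit 64)) (.one (nat_lit 0x1801a0000000030034320)) (.one (nat_lit 0x1801b0000000030036320))) (.br (Nat.shiftLeft (nat_lit 0x1801d) (nat_lit 64)) (.one (nat_lit 0x1801c0000000030038320)) (.one (nat_lit 0x1801d000000003003a320)))) (.br (Nat.shiftLeft (nat_lit 0xc01) (nat_lit 69)) (.br (Nat.shiftLeft (nat_lit 0x1801f) (nat_lit 64)) (.one (nat_lit 0x1801e000000003003c320)) (.one (nat_lit 0x1801f000000003003e320))) (.br (Nat.shiftLeft (nat_lit 0x18021) (nat_lit 64)) (.one (nat_lit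 0x180200000000030040320)) (.one (nat_lit 0x180210000000030042320))))) (.br (Nat.shiftLeft (nat_lit 0xc80f) (nat_lit 65)) (.br (Nat.shiftLeft (nat_lit 0x6407) (nat_lit 66)) (.br (Nat.shiftLeft (nat_lit 0x1901b) (nat_lit 64)) (.one (nat_lit 0x1901a0000000032034320)) (.one (nat_lit 0x1901b0000000032036320))) (.br (Nat.shiftLeft (nat_lit 0x1901d) (nat_lit 64)) (.one (nat_lit 0x1901c0000000032038320)) (.one (nat_lit 0x1901d000000003203a320)))) (.br (Nat.shiftLeft (nat_lit 0xc81) (nat_lit 69)) (.br (Nat.shiftLeft (nat_lit 0x1901f) (nat_lit 64)) (.one (nat_lit 0x1901e000000003203c320)) (.one (nat_lit 0x1901f000000003203e320))) (.br (Nat.shiftLeft (nat_lit 0xd) (nat_lit 77)) (.one (nat_lit 0x190200000000032040320)) (.br (Nat.shiftLeft (nat_lit 0x6807) (nat_lit 66)) (.one (nat_lit 0x1a01b0000000034036320)) (.one (nat_lit 0x1a01c0000000034038320))))))) (.br (Nat.shiftLeft (nat_lit 0x200c01) (nat_lit 67)) (.br (Nat.shiftLeft (nat_lit 0x1b01d) (nat_lit 64)) (.br (Nat.shiftLeft (nat_lit 0x1a01f) (nat_lit 64)) (.br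 (Nat.shiftLeft (nat_lit 0xd00f) (nat_lit 65)) (.one (nat_lit 0x1a01d000000003403a320)) (.one (nat_lit 0x1a01e000000003403c320))) (.br (Nat.shiftLeft (nat_lit 0x1b) (nat_lit 76)) (.one (nat_lit 0x1a01f000000003403e320)) (.one (nat_lit 0x1b01c0000000036038320)))) (.br (Nat.shiftLeft (nat_lit 0x7) (nat_lit 78)) (.br (Nat.shiftLeft (nat_lit 0xd80f) (nat_lit 65)) (.one (nat_lit 0x1b01d000000003603a320)) (.one (nat_lit 0x1b01e000000003603c320))) (.br (Nat.shiftLeft (nat_lit 0x1) (nat_lit 88)) (.one (nat_lit 0x1c01d000000003803a320)) (.one (nat_lit 0x1006007000000200c00e430))))) (.br (Nat.shiftLeft (nat_lit 0x401803) (nat_lit 66)) (.br (Nat.shiftLeft (nat_lit 0x803005) (nat_lit 65)) (.br (Nat.shiftLeft (nat_lit 0x1006009) (nat_lit 64)) (.one (nat_lit 0x1006008000000200c010430)) (.one (nat_lit 0x1006009000000200c012430))) (.br (Nat.shiftLeft (nat_lit 0x100600b) (nat_lit 64)) (.one (nat_lit 0x100600a000000200c014430)) (.one (nat_lit 0x100600b000000200c016430)))) (.br (Nat.shiftLeft (nat_lit 0x803007) (nat_lit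 65)) (.br (Nat.shiftLeft (nat_lit 0x100600d) (nat_lit 64)) (.one (nat_lit 0x100600c000000200c018430)) (.one (nat_lit 0x100600d000000200c01a430))) (.br (Nat.shiftLeft (nat_lit 0x101) (nat_lit 80)) (.one (nat_lit 0x100600e000000200c01c430)) (.br (Nat.shiftLeft (nat_lit 0x80b) (nat_lit 77)) (.one (nat_lit 0x1015018000000202a030430)) (.one (nat_lit 0x1016017000000202c02e430))))))))
def t271 : k271.all (jb2 57 fl b0) = true := by decide +kernel
noncomputable def k272 : KT := (.br (Nat.shiftLeft (nat_lit 0x3) (nat_lit 88)) (.br (Nat.shiftLeft (nat_lit 0x100b) (nat_lit 77)) (.one (nat_lit 0x2015018000000402a030430)) (.one (nat_lit 0x2016017000000402c02e430))) (.br (Nat.shiftLeft (nat_lit 0x180b) (nat_lit 77)) (.one (nat_lit 0x3015018000000602a030430)) (.one (nat_lit 0x3016017000000602c02e430))))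
def t272 : k272.all (jb2 57 fl b0) = true := by decide +kernel
noncomputable def k273 : KT := (.br (Nat.shiftLeft (nat_lit 0x5) (nat_lit 88)) (.br (Nat.shiftLeft (nat_lit 0x200b) (nat_lit 77)) (.one (nat_lit 0x4015018000000802a030430)) (.one (nat_lit 0x4016017000000802c02e430))) (.br (Nat.shiftLeft (nat_lit 0x280b) (nat_lit 77)) (.one (nat_lit 0x5015018000000a02a030430)) (.br (Nat.shiftLeft (nat_lit 0x3) (nat_lit 89)) (.one (nat_lit 0x5016017000000a02c02e430)) (.one (nat_lit 0x6015018000000c02a030430)))))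
def t273 : k273.all (jb2 57 fl b0) = true := by decide +kernel
noncomputable def k274 : KT := (.br (Nat.shiftLeft (nat_lit 0x180000b) (nat_lit 77)) (.br (Nat.shiftLeft (nat_lit 0xb) (nat_lit 88)) (.br (Nat.shiftLeft (nat_lit 0x400b) (nat_lit 77)) (.br (Nat.shiftLeft (nat_lit 0x380b) (nat_lit 77)) (.br (Nat.shiftLeft (nat_lit 0x7) (nat_lit 88)) (.one (nat_lit 0x6016017000000c02c02e430)) (.one (nat_lit 0x7015018000000e02a030430))) (.br (Nat.shiftLeft (nat_lit 0x1) (nat_lit 91)) (.one (nat_lit 0x7016017000000e02c02e430)) (.one (nat_lit 0x8015018000001002a030430)))) (.br (Nat.shiftLeft (nat_lit 0x480b) (nat_lit 77)) (.br (Nat.shiftLeft (nat_lit 0x9) (nat_lit 88)) (.one (nat_lit 0x8016017000001002c02e430)) (.one (nat_lit 0x9015018000001202a030430))) (.br (Nat.shiftLeft (nat_lit 0x5) (nat_lit 89)) (.one (nat_lit 0x9016017000001202c02e430)) (.br (Nat.shiftLeft (nat_lit 0x500b) (nat_lit 77)) (.one (nat_lit 0xa015018000001402a030430)) (.one (nat_lit 0xa016017000001402c02e430)))))) (.br (Nat.shiftLeft (nat_lit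 0x1) (nat_lit 100)) (.br (Nat.shiftLeft (nat_lit 0x3) (nat_lit 90)) (.br (Nat.shiftLeft (nat_lit 0x580b) (nat_lit 77)) (.one (nat_lit 0xb015018000001602a030430)) (.one (nat_lit 0xb016017000001602c02e430))) (.br (Nat.shiftLeft (nat_lit 0x600b) (nat_lit 77)) (.one (nat_lit 0xc015018000001802a030430)) (.one (nat_lit 0xc016017000001802c02e430)))) (.br (Nat.shiftLeft (nat_lit 0x1) (nat_lit 101)) (.br (Nat.shiftLeft (nat_lit 0x80000b) (nat_lit 77)) (.one (nat_lit 0x1000015018000200002a030311)) (.one (nat_lit 0x1000016017000200002c02e311))) (.br (Nat.shiftLeft (nat_lit 0x100000b) (nat_lit 77)) (.one (nat_lit 0x2000015018000400002a030311)) (.br (Nat.shiftLeft (nat_lit 0x3) (nat_lit 100)) (.one (nat_lit 0x2000016017000400002c02e311)) (.one (nat_lit 0x3000015018000600002a030311))))))) (.br (Nat.shiftLeft (nat_lit 0x1) (nat_lit 103)) (.br (Nat.shiftLeft (nat_lit 0x280000b) (nat_lit 77)) (.br (Nat.shiftLeft (nat_lit 0x200000b) (nat_lit 77)) (.br (Nat.shiftLeft (nat_lit 0x1) (nat_lit 102)) (.one (nat_lit 0x3000016017000600002c02e311))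 (.one (nat_lit 0x4000015018000800002a030311))) (.br (Nat.shiftLeft (nat_lit 0x5) (nat_lit 100)) (.one (nat_lit 0x4000016017000800002c02e311)) (.one (nat_lit 0x5000015018000a00002a030311)))) (.br (Nat.shiftLeft (nat_lit 0x300000b) (nat_lit 77)) (.br (Nat.shiftLeft (nat_lit 0x3) (nat_lit 101)) (.one (nat_lit 0x5000016017000a00002c02e311)) (.one (nat_lit 0x6000015018000c00002a030311))) (.br (Nat.shiftLeft (nat_lit 0x7) (nat_lit 100)) (.one (nat_lit 0x6000016017000c00002c02e311)) (.br (Nat.shiftLeft (nat_lit 0x380000b) (nat_lit 77)) (.one (nat_lit 0x7000015018000e00002a030311)) (.one (nat_lit 0x7000016017000e00002c02e311)))))) (.br (Nat.shiftLeft (nat_lit 0x500000b) (nat_lit 77)) (.br (Nat.shiftLeft (nat_lit 0x9) (nat_lit 100)) (.br (Nat.shiftLeft (nat_lit 0x400000b) (nat_lit 77)) (.one (nat_lit 0x8000015018001000002a030311)) (.one (nat_lit 0x8000016017001000002c02e311))) (.br (Nat.shiftLeft (nat_lit 0x480000b) (nat_lit 77)) (.one (nat_lit 0x9000015018001200002a030311)) (.br (Nat.shiftLeft (nat_lit 0x5)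 (nat_lit 101)) (.one (nat_lit 0x9000016017001200002c02e311)) (.one (nat_lit 0xa000015018001400002a030311))))) (.br (Nat.shiftLeft (nat_lit 0x580000b) (nat_lit 77)) (.br (Nat.shiftLeft (nat_lit 0xb) (nat_lit 100)) (.one (nat_lit 0xa000016017001400002c02e311)) (.one (nat_lit 0xb000015018001600002a030311))) (.br (Nat.shiftLeft (nat_lit 0x3) (nat_lit 102)) (.one (nat_lit 0xb000016017001600002c02e311)) (.br (Nat.shiftLeft (nat_lit 0x600000b) (nat_lit 77)) (.one (nat_lit 0xc000015018001800002a030311)) (.one (nat_lit 0xc000016017001800002c02e311))))))))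
def t274 : k274.all (jb2 57 fl b0) = true := by decide +kernel
noncomputable def s12 : KT := (.br (nat_lit 0x16021000000002c042320) (.br (nat_lit 0x16017000000002c02f300) (.br (nat_lit 0x15019000000002a032320) k263 (.br (nat_lit 0x1501b000000002a036320) k264 k265)) (.br (nat_lit 0x16018000000002c030320) k266 (.br (nat_lit 0x1601a000000002c034320) k267 k268))) (.br (nat_lit 0x1016017000000202c02e430) (.br (nat_lit 0x17019000000002e032320) k269 (.br (nat_lit 0x180190000000030032320) k270 k271)) (.br (nat_lit 0x3016017000000602c02e430) k272 (.br (nat_lit 0x6015018000000c02a030430) k273 k274))))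
noncomputable def u12 : KT := (.br (Nat.shiftLeft (nat_lit 0xc00d) (nat_lit 65)) (.br (Nat.shiftLeft (nat_lit 0x1601d) (nat_lit 64)) (.br (Nat.shiftLeft (nat_lit 0xa81) (nat_lit 69)) (.br (Nat.shiftLeft (nat_lit 0x5407) (nat_lit 66)) (.br (Nat.shiftLeft (nat_lit 0xa80d) (nat_lit 65)) (.br (Nat.shiftLeft (nat_lit 0x15019) (nat_lit 64)) (.one (nat_lit 0x15018000000002a030320)) (.one (nat_lit 0x15019000000002a032320))) (.br (Nat.shiftLeft (nat_lit 0x1501b) (nat_lit 64)) (.one (nat_lit 0x1501a000000002a034320)) (.one (nat_lit 0x1501b000000002a036320)))) (.br (Nat.shiftLeft (nat_lit 0xa80f) (nat_lit 65)) (.br (Nat.shiftLeft (nat_lit 0x1501d) (nat_lit 64)) (.one (nat_lit 0x1501c000000002a038320)) (.one (nat_lit 0x1501d000000002a03a320))) (.br (Nat.shiftLeft (nat_lit 0x1501f) (nat_lit 64)) (.one (nat_lit 0x1501e000000002a03c320)) (.one (nat_lit 0x1501f000000002a03e320))))) (.br (Nat.shiftLeft (nat_lit 0x16019) (nat_lit 64)) (.br (Nat.shiftLeft (nat_lit 0xb) (nat_lit 77)) (.br (Nat.shiftLeft (nat_lit 0x15021)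 (nat_lit 64)) (.one (nat_lit 0x15020000000002a040320)) (.one (nat_lit 0x15021000000002a042320))) (.br (Nat.shiftLeft (nat_lit 0x2c03) (nat_lit 67)) (.one (nat_lit 0x16017000000002c02e320)) (.one (nat_lit 0x16018000000002c030320)))) (.br (Nat.shiftLeft (nat_lit 0x1601b) (nat_lit 64)) (.br (Nat.shiftLeft (nat_lit 0xb00d) (nat_lit 65)) (.one (nat_lit 0x16019000000002c032320)) (.one (nat_lit 0x1601a000000002c034320))) (.br (Nat.shiftLeft (nat_lit 0x5807) (nat_lit 66)) (.one (nat_lit 0x1601b000000002c036320)) (.one (nat_lit 0x1601c000000002c038320)))))) (.br (Nat.shiftLeft (nat_lit 0x1701b) (nat_lit 64)) (.br (Nat.shiftLeft (nat_lit 0x16021) (nat_lit 64)) (.br (Nat.shiftLeft (nat_lit 0x1601f) (nat_lit 64)) (.br (Nat.shiftLeft (nat_lit 0xb00f) (nat_lit 65)) (.one (nat_lit 0x1601d000000002c03a320)) (.one (nat_lit 0x1601e000000002c03c320))) (.br (Nat.shiftLeft (nat_lit 0xb01) (nat_lit 69)) (.one (nat_lit 0x1601f000000002c03e320)) (.one (nat_lit 0x16020000000002c040320)))) (.br (Nat.shiftLeft (nat_lit 0x17019)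 (nat_lit 64)) (.br (Nat.shiftLeft (nat_lit 0x17) (nat_lit 76)) (.one (nat_lit 0x16021000000002c042320)) (.one (nat_lit 0x17018000000002e030320))) (.br (Nat.shiftLeft (nat_lit 0xb80d) (nat_lit 65)) (.one (nat_lit 0x17019000000002e032320)) (.one (nat_lit 0x1701a000000002e034320))))) (.br (Nat.shiftLeft (nat_lit 0x1701f) (nat_lit 64)) (.br (Nat.shiftLeft (nat_lit 0x1701d) (nat_lit 64)) (.br (Nat.shiftLeft (nat_lit 0x5c07) (nat_lit 66)) (.one (nat_lit 0x1701b000000002e036320)) (.one (nat_lit 0x1701c000000002e038320))) (.br (Nat.shiftLeft (nat_lit 0xb80f) (nat_lit 65)) (.one (nat_lit 0x1701d000000002e03a320)) (.one (nat_lit 0x1701e000000002e03c320)))) (.br (Nat.shiftLeft (nat_lit 0x17021) (nat_lit 64)) (.br (Nat.shiftLeft (nat_lit 0xb81) (nat_lit 69)) (.one (nat_lit 0x1701f000000002e03e320)) (.one (nat_lit 0x17020000000002e040320))) (.br (Nat.shiftLeft (nat_lit 0x3) (nat_lit 79)) (.one (nat_lit 0x17021000000002e042320)) (.one (nat_lit 0x180190000000030032320))))))) (.br (Nat.shiftLeft (nat_lit 0x6807) (nat_lit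 66)) (.br (Nat.shiftLeft (nat_lit 0x19) (nat_lit 76)) (.br (Nat.shiftLeft (nat_lit 0xc00f) (nat_lit 65)) (.br (Nat.shiftLeft (nat_lit 0x6007) (nat_lit 66)) (.br (Nat.shiftLeft (nat_lit 0x1801b) (nat_lit 64)) (.one (nat_lit 0x1801a0000000030034320)) (.one (nat_lit 0x1801b0000000030036320))) (.br (Nat.shiftLeft (nat_lit 0x1801d) (nat_lit 64)) (.one (nat_lit 0x1801c0000000030038320)) (.one (nat_lit 0x1801d000000003003a320)))) (.br (Nat.shiftLeft (nat_lit 0xc01) (nat_lit 69)) (.br (Nat.shiftLeft (nat_lit 0x1801f) (nat_lit 64)) (.one (nat_lit 0x1801e000000003003c320)) (.one (nat_lit 0x1801f000000003003e320))) (.br (Nat.shiftLeft (nat_lit 0x18021) (nat_lit 64)) (.one (nat_lit 0x180200000000030040320)) (.one (nat_lit 0x180210000000030042320))))) (.br (Nat.shiftLeft (nat_lit 0xc80f) (nat_lit 65)) (.br (Nat.shiftLeft (nat_lit 0x6407) (nat_lit 66)) (.br (Nat.shiftLeft (nat_lit 0x1901b) (nat_lit 64)) (.one (nat_lit 0x1901a0000000032034320)) (.one (nat_lit 0x1901b0000000032036320))) (.br (Nat.shiftLeft (nat_lit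 0x1901d) (nat_lit 64)) (.one (nat_lit 0x1901c0000000032038320)) (.one (nat_lit 0x1901d000000003203a320)))) (.br (Nat.shiftLeft (nat_lit 0xc81) (nat_lit 69)) (.br (Nat.shiftLeft (nat_lit 0x1901f) (nat_lit 64)) (.one (nat_lit 0x1901e000000003203c320)) (.one (nat_lit 0x1901f000000003203e320))) (.br (Nat.shiftLeft (nat_lit 0xd) (nat_lit 77)) (.one (nat_lit 0x190200000000032040320)) (.one (nat_lit 0x1a01b0000000034036320)))))) (.br (Nat.shiftLeft (nat_lit 0x1) (nat_lit 88)) (.br (Nat.shiftLeft (nat_lit 0x1b) (nat_lit 76)) (.br (Nat.shiftLeft (nat_lit 0xd00f) (nat_lit 65)) (.br (Nat.shiftLeft (nat_lit 0x1a01d) (nat_lit 64)) (.one (nat_lit 0x1a01c0000000034038320)) (.one (nat_lit 0x1a01d000000003403a320))) (.br (Nat.shiftLeft (nat_lit 0x1a01f) (nat_lit 64)) (.one (nat_lit 0x1a01e000000003403c320)) (.one (nat_lit 0x1a01f000000003403e320)))) (.br (Nat.shiftLeft (nat_lit 0xd80f) (nat_lit 65)) (.br (Nat.shiftLeft (nat_lit 0x1b01d) (nat_lit 64)) (.one (nat_lit 0x1b01c0000000036038320)) (.one (nat_lit 0x1b01d000000003603a320)))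 (.br (Nat.shiftLeft (nat_lit 0x7) (nat_lit 78)) (.one (nat_lit 0x1b01e000000003603c320)) (.one (nat_lit 0x1c01d000000003803a320))))) (.br (Nat.shiftLeft (nat_lit 0x100600b) (nat_lit 64)) (.br (Nat.shiftLeft (nat_lit 0x1006009) (nat_lit 64)) (.br (Nat.shiftLeft (nat_lit 0x200c01) (nat_lit 67)) (.one (nat_lit 0x1006007000000200c00e430)) (.one (nat_lit 0x1006008000000200c010430))) (.br (Nat.shiftLeft (nat_lit 0x803005) (nat_lit 65)) (.one (nat_lit 0x1006009000000200c012430)) (.one (nat_lit 0x100600a000000200c014430)))) (.br (Nat.shiftLeft (nat_lit 0x100600d) (nat_lit 64)) (.br (Nat.shiftLeft (nat_lit 0x401803) (nat_lit 66)) (.one (nat_lit 0x100600b000000200c016430)) (.one (nat_lit 0x100600c000000200c018430))) (.br (Nat.shiftLeft (nat_lit 0x803007) (nat_lit 65)) (.one (nat_lit 0x100600d000000200c01a430)) (.one (nat_lit 0x100600e000000200c01c430))))))))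
def w12 : u12.all (wj 57 s12) = true := by decide +kernel
def o12 : OkW 57 (jb2 57 fl) u12 := .lift s12 _ (.br _ _ _ (.br _ _ _ (.br _ _ _ (.leaf b0 k263 t263) (.br _ _ _ (.leaf b0 k264 t264) (.leaf b0 k265 t265))) (.br _ _ _ (.leaf b0 k266 t266) (.br _ _ _ (.leaf b0 k267 t267) (.leaf b0 k268 t268)))) (.br _ _ _ (.br _ _ _ (.leaf b0 k269 t269) (.br _ _ _ (.leaf b0 k270 t270) (.leaf b0 k271 t271))) (.br _ _ _ (.leaf b0 k272 t272) (.br _ _ _ (.leaf b0 k273 t273) (.leaf b0 k274 t274))))) w12
noncomputable def k275 : KT := (.br (Nat.shiftLeft (nat_lit 0x1007015) (nat_lit 64)) (.br (Nat.shiftLeft (nat_lit 0x100700b) (nat_lit 64)) (.br (Nat.shiftLeft (nat_lit 0x1006013) (nat_lit 64)) (.br (Nat.shiftLeft (nat_lit 0x1006011) (nat_lit 64)) (.br (Nat.shiftLeft (nat_lit 0x100601) (nat_lit 68)) (.one (nat_lit 0x100600f000000200c01e430)) (.one (nat_lit 0x1006010000000200c020430))) (.br (Nat.shiftLeft (nat_lit 0x803009) (nat_lit 65)) (.one (nat_lit 0x1006011000000200c022430)) (.one (nat_lit 0x1006012000000200c024430))))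 (.br (Nat.shiftLeft (nat_lit 0x1007) (nat_lit 76)) (.br (Nat.shiftLeft (nat_lit 0x401805) (nat_lit 66)) (.one (nat_lit 0x1006013000000200c026430)) (.one (nat_lit 0x1006014000000200c028430))) (.br (Nat.shiftLeft (nat_lit 0x1007009) (nat_lit 64)) (.one (nat_lit 0x1007008000000200e010430)) (.br (Nat.shiftLeft (nat_lit 0x803805) (nat_lit 65)) (.one (nat_lit 0x1007009000000200e012430)) (.one (nat_lit 0x100700a000000200e014430)))))) (.br (Nat.shiftLeft (nat_lit 0x100701) (nat_lit 68)) (.br (Nat.shiftLeft (nat_lit 0x100700d) (nat_lit 64)) (.br (Nat.shiftLeft (nat_lit 0x401c03) (nat_lit 66)) (.one (nat_lit 0x100700b000000200e016430)) (.one (nat_lit 0x100700c000000200e018430))) (.br (Nat.shiftLeft (nat_lit 0x803807) (nat_lit 65)) (.one (nat_lit 0x100700d000000200e01a430)) (.br (Nat.shiftLeft (nat_lit 0x100700f) (nat_lit 64)) (.one (nat_lit 0x100700e000000200e01c430)) (.one (nat_lit 0x100700f000000200e01e430))))) (.br (Nat.shiftLeft (nat_lit 0x803809) (nat_lit 65)) (.br (Nat.shiftLeft (nat_lit 0x1007011) (nat_lit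 64)) (.one (nat_lit 0x1007010000000200e020430)) (.one (nat_lit 0x1007011000000200e022430))) (.br (Nat.shiftLeft (nat_lit 0x1007013) (nat_lit 64)) (.one (nat_lit 0x1007012000000200e024430)) (.br (Nat.shiftLeft (nat_lit 0x401c05) (nat_lit 66)) (.one (nat_lit 0x1007013000000200e026430)) (.one (nat_lit 0x1007014000000200e028430))))))) (.br (Nat.shiftLeft (nat_lit 0x804007) (nat_lit 65)) (.br (Nat.shiftLeft (nat_lit 0x201) (nat_lit 79)) (.br (Nat.shiftLeft (nat_lit 0x1007017) (nat_lit 64)) (.br (Nat.shiftLeft (nat_lit 0x80380b) (nat_lit 65)) (.one (nat_lit 0x1007015000000200e02a430)) (.one (nat_lit 0x1007016000000200e02c430))) (.br (Nat.shiftLeft (nat_lit 0x200e03) (nat_lit 67)) (.one (nat_lit 0x1007017000000200e02e430)) (.br (Nat.shiftLeft (nat_lit 0x1007019) (nat_lit 64)) (.one (nat_lit 0x1007018000000200e030430)) (.one (nat_lit 0x1007019000000200e032430))))) (.br (Nat.shiftLeft (nat_lit 0x100800b) (nat_lit 64)) (.br (Nat.shiftLeft (nat_lit 0x804005) (nat_lit 65)) (.one (nat_lit 0x10080090000002010012430))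 (.one (nat_lit 0x100800a0000002010014430))) (.br (Nat.shiftLeft (nat_lit 0x402003) (nat_lit 66)) (.one (nat_lit 0x100800b0000002010016430)) (.br (Nat.shiftLeft (nat_lit 0x100800d) (nat_lit 64)) (.one (nat_lit 0x100800c0000002010018430)) (.one (nat_lit 0x100800d000000201001a430)))))) (.br (Nat.shiftLeft (nat_lit 0x1008013) (nat_lit 64)) (.br (Nat.shiftLeft (nat_lit 0x100801) (nat_lit 68)) (.br (Nat.shiftLeft (nat_lit 0x100800f) (nat_lit 64)) (.one (nat_lit 0x100800e000000201001c430)) (.one (nat_lit 0x100800f000000201001e430))) (.br (Nat.shiftLeft (nat_lit 0x1008011) (nat_lit 64)) (.one (nat_lit 0x10080100000002010020430)) (.br (Nat.shiftLeft (nat_lit 0x804009) (nat_lit 65)) (.one (nat_lit 0x10080110000002010022430)) (.one (nat_lit 0x10080120000002010024430))))) (.br (Nat.shiftLeft (nat_lit 0x1008015) (nat_lit 64)) (.br (Nat.shiftLeft (nat_lit 0x402005) (nat_lit 66)) (.one (nat_lit 0x10080130000002010026430)) (.one (nat_lit 0x10080140000002010028430))) (.br (Nat.shiftLeft (nat_lit 0x80400b) (nat_lit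 65)) (.one (nat_lit 0x1008015000000201002a430)) (.br (Nat.shiftLeft (nat_lit 0x1008017) (nat_lit 64)) (.one (nat_lit 0x1008016000000201002c430)) (.one (nat_lit 0x1008017000000201002e430))))))))
def t275 : k275.all (jb2 57 fl b0) = true := by decide +kernel
noncomputable def k276 : KT := (.br (Nat.shiftLeft (nat_lit 0x1009013) (nat_lit 64)) (.br (Nat.shiftLeft (nat_lit 0x100900d) (nat_lit 64)) (.br (Nat.shiftLeft (nat_lit 0x1009) (nat_lit 76)) (.br (Nat.shiftLeft (nat_lit 0x1008019) (nat_lit 64)) (.one (nat_lit 0x10080180000002010030430)) (.br (Nat.shiftLeft (nat_lit 0x80400d) (nat_lit 65)) (.one (nat_lit 0x10080190000002010032430)) (.one (nat_lit 0x100801a0000002010034430)))) (.br (Nat.shiftLeft (nat_lit 0x100900b) (nat_lit 64)) (.one (nat_lit 0x100900a0000002012014430)) (.br (Nat.shiftLeft (nat_lit 0x402403) (nat_lit 66)) (.one (nat_lit 0x100900b0000002012016430)) (.one (nat_lit 0x100900c0000002012018430))))) (.br (Nat.shiftLeft (nat_lit 0x100901) (nat_lit 68)) (.br (Nat.shiftLeft (nat_lit 0x804807)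 (nat_lit 65)) (.one (nat_lit 0x100900d000000201201a430)) (.br (Nat.shiftLeft (nat_lit 0x100900f) (nat_lit 64)) (.one (nat_lit 0x100900e000000201201c430)) (.one (nat_lit 0x100900f000000201201e430)))) (.br (Nat.shiftLeft (nat_lit 0x1009011) (nat_lit 64)) (.one (nat_lit 0x10090100000002012020430)) (.br (Nat.shiftLeft (nat_lit 0x804809) (nat_lit 65)) (.one (nat_lit 0x10090110000002012022430)) (.one (nat_lit 0x10090120000002012024430)))))) (.br (Nat.shiftLeft (nat_lit 0x1009019) (nat_lit 64)) (.br (Nat.shiftLeft (nat_lit 0x80480b) (nat_lit 65)) (.br (Nat.shiftLeft (nat_lit 0x402405) (nat_lit 66)) (.one (nat_lit 0x10090130000002012026430)) (.br (Nat.shiftLeft (nat_lit 0x1009015) (nat_lit 64)) (.one (nat_lit 0x10090140000002012028430)) (.one (nat_lit 0x1009015000000201202a430)))) (.br (Nat.shiftLeft (nat_lit 0x1009017) (nat_lit 64)) (.one (nat_lit 0x1009016000000201202c430)) (.br (Nat.shiftLeft (nat_lit 0x201203) (nat_lit 67)) (.one (nat_lit 0x1009017000000201202e430)) (.one (nat_lit 0x10090180000002012030430)))))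 (.br (Nat.shiftLeft (nat_lit 0x402803) (nat_lit 66)) (.br (Nat.shiftLeft (nat_lit 0x80480d) (nat_lit 65)) (.one (nat_lit 0x10090190000002012032430)) (.br (Nat.shiftLeft (nat_lit 0x805) (nat_lit 77)) (.one (nat_lit 0x100901a0000002012034430)) (.one (nat_lit 0x100a00b0000002014016430)))) (.br (Nat.shiftLeft (nat_lit 0x805007) (nat_lit 65)) (.br (Nat.shiftLeft (nat_lit 0x100a00d) (nat_lit 64)) (.one (nat_lit 0x100a00c0000002014018430)) (.one (nat_lit 0x100a00d000000201401a430))) (.br (Nat.shiftLeft (nat_lit 0x100a00f) (nat_lit 64)) (.one (nat_lit 0x100a00e000000201401c430)) (.one (nat_lit 0x100a00f000000201401e430)))))))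
def t276 : k276.all (jb2 57 fl b0) = true := by decide +kernel
noncomputable def u13 : KT := (.br (nat_lit 0x1008017000000201002e430) k275 k276)
def o13 : OkW 57 (jb2 57 fl) u13 := (.br _ _ _ (.leaf b0 k275 t275) (.leaf b0 k276 t276))
noncomputable def k277 : KT := (.br (Nat.shiftLeft (nat_lit 0x100a019) (nat_lit 64)) (.br (Nat.shiftLeft (nat_lit 0x402805) (nat_lit 66)) (.br (Nat.shiftLeft (nat_lit 0x805009) (nat_lit 65)) (.br (Nat.shiftLeft (nat_lit 0x100a011) (nat_lit 64)) (.one (nat_lit 0x100a0100000002014020430)) (.one (nat_lit 0x100a0110000002014022430))) (.br (Nat.shiftLeft (nat_lit 0x100a013) (nat_lit 64)) (.one (nat_lit 0x100a0120000002014024430)) (.one (nat_lit 0x100a0130000002014026430)))) (.br (Nat.shiftLeft (nat_lit 0x80500b) (nat_lit 65)) (.br (Nat.shiftLeft (nat_lit 0x100a015) (nat_lit 64)) (.one (nat_lit 0x100a0140000002014028430)) (.one (nat_lit 0x100a015000000201402a430))) (.br (Nat.shiftLeft (nat_lit 0x100a017) (nat_lit 64)) (.one (nat_lit 0x100a016000000201402c430)) (.br (Nat.shiftLeft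 (nat_lit 0x201403) (nat_lit 67)) (.one (nat_lit 0x100a017000000201402e430)) (.one (nat_lit 0x100a0180000002014030430)))))) (.br (Nat.shiftLeft (nat_lit 0x100b00f) (nat_lit 64)) (.br (Nat.shiftLeft (nat_lit 0x100b00d) (nat_lit 64)) (.br (Nat.shiftLeft (nat_lit 0x100b) (nat_lit 76)) (.one (nat_lit 0x100a0190000002014032430)) (.one (nat_lit 0x100b00c0000002016018430))) (.br (Nat.shiftLeft (nat_lit 0x805807) (nat_lit 65)) (.one (nat_lit 0x100b00d000000201601a430)) (.one (nat_lit 0x100b00e000000201601c430)))) (.br (Nat.shiftLeft (nat_lit 0x100b011) (nat_lit 64)) (.br (Nat.shiftLeft (nat_lit 0x100b01) (nat_lit 68)) (.one (nat_lit 0x100b00f000000201601e430)) (.one (nat_lit 0x100b0100000002016020430))) (.br (Nat.shiftLeft (nat_lit 0x805809) (nat_lit 65)) (.one (nat_lit 0x100b0110000002016022430)) (.br (Nat.shiftLeft (nat_lit 0x100b013) (nat_lit 64)) (.one (nat_lit 0x100b0120000002016024430)) (.one (nat_lit 0x100b0130000002016026430)))))))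
def t277 : k277.all (jb2 57 fl b0) = true := by decide +kernel
noncomputable def k278 : KT := (.br (Nat.shiftLeft (nat_lit 0x100c00f) (nat_lit 64)) (.br (Nat.shiftLeft (nat_lit 0x100b017) (nat_lit 64)) (.br (Nat.shiftLeft (nat_lit 0x100b015) (nat_lit 64)) (.one (nat_lit 0x100b0140000002016028430)) (.br (Nat.shiftLeft (nat_lit 0x80580b) (nat_lit 65)) (.one (nat_lit 0x100b015000000201602a430)) (.one (nat_lit 0x100b016000000201602c430)))) (.br (Nat.shiftLeft (nat_lit 0x403) (nat_lit 78)) (.br (Nat.shiftLeft (nat_lit 0x201603) (nat_lit 67)) (.one (nat_lit 0x100b017000000201602e430)) (.one (nat_lit 0x100b0180000002016030430))) (.br (Nat.shiftLeft (nat_lit 0x806007) (nat_lit 65)) (.one (nat_lit 0x100c00d000000201801a430)) (.one (nat_lit 0x100c00e000000201801c430))))) (.br (Nat.shiftLeft (nat_lit 0x100c013) (nat_lit 64)) (.br (Nat.shiftLeft (nat_lit 0x100c011) (nat_lit 64)) (.br (Nat.shiftLeft (nat_lit 0x100c01) (nat_lit 68)) (.one (nat_lit 0x100c00f000000201801e430)) (.one (nat_lit 0x100c0100000002018020430)))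 (.br (Nat.shiftLeft (nat_lit 0x806009) (nat_lit 65)) (.one (nat_lit 0x100c0110000002018022430)) (.one (nat_lit 0x100c0120000002018024430)))) (.br (Nat.shiftLeft (nat_lit 0x100c015) (nat_lit 64)) (.br (Nat.shiftLeft (nat_lit 0x403005) (nat_lit 66)) (.one (nat_lit 0x100c0130000002018026430)) (.one (nat_lit 0x100c0140000002018028430))) (.br (Nat.shiftLeft (nat_lit 0x80600b) (nat_lit 65)) (.one (nat_lit 0x100c015000000201802a430)) (.one (nat_lit 0x100c016000000201802c430))))))
def t278 : k278.all (jb2 57 fl b0) = true := by decide +kernel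
noncomputable def k279 : KT := (.br (Nat.shiftLeft (nat_lit 0x806809) (nat_lit 65)) (.br (Nat.shiftLeft (nat_lit 0x100d00f) (nat_lit 64)) (.br (Nat.shiftLeft (nat_lit 0x201803) (nat_lit 67)) (.one (nat_lit 0x100c017000000201802e430)) (.br (Nat.shiftLeft (nat_lit 0x100d) (nat_lit 76)) (.one (nat_lit 0x100c0180000002018030430)) (.one (nat_lit 0x100d00e000000201a01c430)))) (.br (Nat.shiftLeft (nat_lit 0x100d01) (nat_lit 68)) (.one (nat_lit 0x100d00f000000201a01e430)) (.br (Nat.shiftLeft (nat_lit 0x100d011) (nat_lit 64)) (.one (nat_lit 0x100d010000000201a020430)) (.one (nat_lit 0x100d011000000201a022430))))) (.br (Nat.shiftLeft (nat_lit 0x100d015) (nat_lit 64)) (.br (Nat.shiftLeft (nat_lit 0x100d013) (nat_lit 64)) (.one (nat_lit 0x100d012000000201a024430)) (.br (Nat.shiftLeft (nat_lit 0x403405) (nat_lit 66)) (.one (nat_lit 0x100d013000000201a026430)) (.one (nat_lit 0x100d014000000201a028430)))) (.br (Nat.shiftLeft (nat_lit 0x100d017) (nat_lit 64)) (.br (Nat.shiftLeft (nat_lit 0x80680b) (nat_lit 65)) (.one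 (nat_lit 0x100d015000000201a02a430)) (.one (nat_lit 0x100d016000000201a02c430))) (.br (Nat.shiftLeft (nat_lit 0x807) (nat_lit 77)) (.one (nat_lit 0x100d017000000201a02e430)) (.one (nat_lit 0x100e00f000000201c01e430))))))
def t279 : k279.all (jb2 57 fl b0) = true := by decide +kernel
noncomputable def k280 : KT := (.br (Nat.shiftLeft (nat_lit 0x80700b) (nat_lit 65)) (.br (Nat.shiftLeft (nat_lit 0x100e013) (nat_lit 64)) (.br (Nat.shiftLeft (nat_lit 0x100e011) (nat_lit 64)) (.one (nat_lit 0x100e010000000201c020430)) (.br (Nat.shiftLeft (nat_lit 0x807009) (nat_lit 65)) (.one (nat_lit 0x100e011000000201c022430)) (.one (nat_lit 0x100e012000000201c024430)))) (.br (Nat.shiftLeft (nat_lit 0x403805) (nat_lit 66)) (.one (nat_lit 0x100e013000000201c026430)) (.br (Nat.shiftLeft (nat_lit 0x100e015) (nat_lit 64)) (.one (nat_lit 0x100e014000000201c028430)) (.one (nat_lit 0x100e015000000201c02a430))))) (.br (Nat.shiftLeft (nat_lit 0x807809) (nat_lit 65)) (.br (Nat.shiftLeft (nat_lit 0x100f) (nat_lit 76)) (.one (nat_lit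 0x100e016000000201c02c430)) (.br (Nat.shiftLeft (nat_lit 0x100f011) (nat_lit 64)) (.one (nat_lit 0x100f010000000201e020430)) (.one (nat_lit 0x100f011000000201e022430)))) (.br (Nat.shiftLeft (nat_lit 0x100f013) (nat_lit 64)) (.one (nat_lit 0x100f012000000201e024430)) (.br (Nat.shiftLeft (nat_lit 0x403c05) (nat_lit 66)) (.one (nat_lit 0x100f013000000201e026430)) (.one (nat_lit 0x100f014000000201e028430))))))
def t280 : k280.all (jb2 57 fl b0) = true := by decide +kernel
noncomputable def k281 : KT := (.br (Nat.shiftLeft (nat_lit 0x1010013) (nat_lit 64)) (.br (Nat.shiftLeft (nat_lit 0x101) (nat_lit 80)) (.one (nat_lit 0x100f015000000201e02a430)) (.br (Nat.shiftLeft (nat_lit 0x808009) (nat_lit 65)) (.one (nat_lit 0x10100110000002020022430)) (.one (nat_lit 0x10100120000002020024430)))) (.br (Nat.shiftLeft (nat_lit 0x404005) (nat_lit 66)) (.one (nat_lit 0x10100130000002020026430)) (.br (Nat.shiftLeft (nat_lit 0x1011) (nat_lit 76)) (.one (nat_lit 0x10100140000002020028430)) (.one (nat_lit 0x10110120000002022024430)))))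
def t281 : k281.all (jb2 57 fl b0) = true := by decide +kernel
noncomputable def u14 : KT := (.br (nat_lit 0x100c016000000201802c430) (.br (nat_lit 0x100b0130000002016026430) k277 k278) (.br (nat_lit 0x100e00f000000201c01e430) k279 (.br (nat_lit 0x100f014000000201e028430) k280 k281)))
def o14 : OkW 57 (jb2 57 fl) u14 := (.br _ _ _ (.br _ _ _ (.leaf b0 k277 t277) (.leaf b0 k278 t278)) (.br _ _ _ (.leaf b0 k279 t279) (.br _ _ _ (.leaf b0 k280 t280) (.leaf b0 k281 t281))))
noncomputable def k282 : KT := (.br (Nat.shiftLeft (nat_lit 0x801803) (nat_lit 66)) (.br (Nat.shiftLeft (nat_lit 0x2006009) (nat_lit 64)) (.br (Nat.shiftLeft (nat_lit 0x1) (nat_lit 89)) (.one (nat_lit 0x10110130000002022026430)) (.br (Nat.shiftLeft (nat_lit 0x400c01) (nat_lit 67)) (.one (nat_lit 0x2006007000000400c00e430)) (.one (nat_lit 0x2006008000000400c010430)))) (.br (Nat.shiftLeft (nat_lit 0x1003005) (nat_lit 65)) (.one (nat_lit 0x2006009000000400c012430)) (.br (Nat.shiftLeft (nat_lit 0x200600b) (nat_lit 64)) (.one (nat_lit 0x200600a000000400c014430))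 (.one (nat_lit 0x200600b000000400c016430))))) (.br (Nat.shiftLeft (nat_lit 0x200600f) (nat_lit 64)) (.br (Nat.shiftLeft (nat_lit 0x200600d) (nat_lit 64)) (.one (nat_lit 0x200600c000000400c018430)) (.br (Nat.shiftLeft (nat_lit 0x1003007) (nat_lit 65)) (.one (nat_lit 0x200600d000000400c01a430)) (.one (nat_lit 0x200600e000000400c01c430)))) (.br (Nat.shiftLeft (nat_lit 0x200601) (nat_lit 68)) (.one (nat_lit 0x200600f000000400c01e430)) (.br (Nat.shiftLeft (nat_lit 0x2006011) (nat_lit 64)) (.one (nat_lit 0x2006010000000400c020430)) (.one (nat_lit 0x2006011000000400c022430))))))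
def t282 : k282.all (jb2 57 fl b0) = true := by decide +kernel
noncomputable def k283 : KT := (.br (Nat.shiftLeft (nat_lit 0x2007009) (nat_lit 64)) (.br (Nat.shiftLeft (nat_lit 0x801805) (nat_lit 66)) (.br (Nat.shiftLeft (nat_lit 0x2006013) (nat_lit 64)) (.one (nat_lit 0x2006012000000400c024430)) (.one (nat_lit 0x2006013000000400c026430))) (.br (Nat.shiftLeft (nat_lit 0x2007) (nat_lit 76)) (.one (nat_lit 0x2006014000000400c028430)) (.one (nat_lit 0x2007008000000400e010430)))) (.br (Nat.shiftLeft (nat_lit 0x200700b) (nat_lit 64)) (.br (Nat.shiftLeft (nat_lit 0x1003805) (nat_lit 65)) (.one (nat_lit 0x2007009000000400e012430)) (.one (nat_lit 0x200700a000000400e014430))) (.br (Nat.shiftLeft (nat_lit 0x801c03) (nat_lit 66)) (.one (nat_lit 0x200700b000000400e016430)) (.br (Nat.shiftLeft (nat_lit 0x200700d) (nat_lit 64)) (.one (nat_lit 0x200700c000000400e018430)) (.one (nat_lit 0x200700d000000400e01a430))))))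
def t283 : k283.all (jb2 57 fl b0) = true := by decide +kernel
noncomputable def k284 : KT := (.br (Nat.shiftLeft (nat_lit 0x2007011) (nat_lit 64)) (.br (Nat.shiftLeft (nat_lit 0x200700f) (nat_lit 64)) (.one (nat_lit 0x200700e000000400e01c430)) (.br (Nat.shiftLeft (nat_lit 0x200701) (nat_lit 68)) (.one (nat_lit 0x200700f000000400e01e430)) (.one (nat_lit 0x2007010000000400e020430)))) (.br (Nat.shiftLeft (nat_lit 0x1003809) (nat_lit 65)) (.one (nat_lit 0x2007011000000400e022430)) (.br (Nat.shiftLeft (nat_lit 0x2007013) (nat_lit 64)) (.one (nat_lit 0x2007012000000400e024430)) (.one (nat_lit 0x2007013000000400e026430)))))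
def t284 : k284.all (jb2 57 fl b0) = true := by decide +kernel
noncomputable def k285 : KT := (.br (Nat.shiftLeft (nat_lit 0x100380b) (nat_lit 65)) (.br (Nat.shiftLeft (nat_lit 0x2007015) (nat_lit 64)) (.one (nat_lit 0x2007014000000400e028430)) (.one (nat_lit 0x2007015000000400e02a430))) (.br (Nat.shiftLeft (nat_lit 0x2007017) (nat_lit 64)) (.one (nat_lit 0x2007016000000400e02c430)) (.br (Nat.shiftLeft (nat_lit 0x400e03) (nat_lit 67)) (.one (nat_lit 0x2007017000000400e02e430)) (.one (nat_lit 0x2007018000000400e030430)))))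
def t285 : k285.all (jb2 57 fl b0) = true := by decide +kernel
noncomputable def k286 : KT := (.br (Nat.shiftLeft (nat_lit 0x200800b) (nat_lit 64)) (.br (Nat.shiftLeft (nat_lit 0x401) (nat_lit 79)) (.one (nat_lit 0x2007019000000400e032430)) (.br (Nat.shiftLeft (nat_lit 0x1004005) (nat_lit 65)) (.one (nat_lit 0x20080090000004010012430)) (.one (nat_lit 0x200800a0000004010014430)))) (.br (Nat.shiftLeft (nat_lit 0x802003) (nat_lit 66)) (.one (nat_lit 0x200800b0000004010016430)) (.br (Nat.shiftLeft (nat_lit 0x200800d) (nat_lit 64)) (.one (nat_lit 0x200800c0000004010018430)) (.one (nat_lit 0x200800d000000401001a430)))))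
def t286 : k286.all (jb2 57 fl b0) = true := by decide +kernel
noncomputable def k287 : KT := (.br (Nat.shiftLeft (nat_lit 0x200801) (nat_lit 68)) (.br (Nat.shiftLeft (nat_lit 0x200800f) (nat_lit 64)) (.one (nat_lit 0x200800e000000401001c430)) (.one (nat_lit 0x200800f000000401001e430))) (.br (Nat.shiftLeft (nat_lit 0x2008011) (nat_lit 64)) (.one (nat_lit 0x20080100000004010020430)) (.br (Nat.shiftLeft (nat_lit 0x1004009) (nat_lit 65)) (.one (nat_lit 0x20080110000004010022430)) (.one (nat_lit 0x20080120000004010024430)))))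
def t287 : k287.all (jb2 57 fl b0) = true := by decide +kernel
noncomputable def k288 : KT := (.br (Nat.shiftLeft (nat_lit 0x2008015) (nat_lit 64)) (.br (Nat.shiftLeft (nat_lit 0x802005) (nat_lit 66)) (.one (nat_lit 0x20080130000004010026430)) (.one (nat_lit 0x20080140000004010028430))) (.br (Nat.shiftLeft (nat_lit 0x100400b) (nat_lit 65)) (.one (nat_lit 0x2008015000000401002a430)) (.one (nat_lit 0x2008016000000401002c430))))
def t288 : k288.all (jb2 57 fl b0) = true := by decide +kernel
noncomputable def k289 : KT := (.br (Nat.shiftLeft (nat_lit 0x2008019) (nat_lit 64)) (.br (Nat.shiftLeft (nat_lit 0x401003) (nat_lit 67)) (.one (nat_lit 0x2008017000000401002e430)) (.one (nat_lit 0x20080180000004010030430))) (.br (Nat.shiftLeft (nat_lit 0x100400d) (nat_lit 65)) (.one (nat_lit 0x20080190000004010032430)) (.one (nat_lit 0x200801a0000004010034430))))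
def t289 : k289.all (jb2 57 fl b0) = true := by decide +kernel
noncomputable def k290 : KT := (.br (Nat.shiftLeft (nat_lit 0x802403) (nat_lit 66)) (.br (Nat.shiftLeft (nat_lit 0x200900b) (nat_lit 64)) (.one (nat_lit 0x200900a0000004012014430)) (.one (nat_lit 0x200900b0000004012016430))) (.br (Nat.shiftLeft (nat_lit 0x200900d) (nat_lit 64)) (.one (nat_lit 0x200900c0000004012018430)) (.br (Nat.shiftLeft (nat_lit 0x1004807) (nat_lit 65)) (.one (nat_lit 0x200900d000000401201a430)) (.one (nat_lit 0x200900e000000401201c430)))))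
def t290 : k290.all (jb2 57 fl b0) = true := by decide +kernel
noncomputable def k291 : KT := (.br (Nat.shiftLeft (nat_lit 0x2009011) (nat_lit 64)) (.br (Nat.shiftLeft (nat_lit 0x200901) (nat_lit 68)) (.one (nat_lit 0x200900f000000401201e430)) (.one (nat_lit 0x20090100000004012020430))) (.br (Nat.shiftLeft (nat_lit 0x1004809) (nat_lit 65)) (.one (nat_lit 0x20090110000004012022430)) (.one (nat_lit 0x20090120000004012024430))))
def t291 : k291.all (jb2 57 fl b0) = true := by decide +kernel
noncomputable def k292 : KT := (.br (Nat.shiftLeft (nat_lit 0x802405) (nat_lit 66)) (.one (nat_lit 0x20090130000004012026430)) (.br (Nat.shiftLeft (nat_lit 0x2009015) (nat_lit 64)) (.one (nat_lit 0x20090140000004012028430)) (.one (nat_lit 0x2009015000000401202a430))))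
def t292 : k292.all (jb2 57 fl b0) = true := by decide +kernel
noncomputable def k293 : KT := (.one (nat_lit 0x2009016000000401202c430))
def t293 : k293.all (jb2 57 fl b0) = true := by decide +kernel
noncomputable def u15 : KT := (.br (nat_lit 0x20080120000004010024430) (.br (nat_lit 0x2007013000000400e026430) (.br (nat_lit 0x2006011000000400c022430) k282 (.br (nat_lit 0x200700d000000400e01a430) k283 k284)) (.br (nat_lit 0x2007018000000400e030430) k285 (.br (nat_lit 0x200800d000000401001a430) k286 k287))) (.br (nat_lit 0x200900e000000401201c430) (.br (nat_lit 0x2008016000000401002c430) k288 (.br (nat_lit 0x200801a0000004010034430) k289 k290)) (.br (nat_lit 0x20090120000004012024430) k291 (.br (nat_lit 0x2009015000000401202a430) k292 k293))))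
def o15 : OkW 57 (jb2 57 fl) u15 := (.br _ _ _ (.br _ _ _ (.br _ _ _ (.leaf b0 k282 t282) (.br _ _ _ (.leaf b0 k283 t283) (.leaf b0 k284 t284))) (.br _ _ _ (.leaf b0 k285 t285) (.br _ _ _ (.leaf b0 k286 t286) (.leaf b0 k287 t287)))) (.br _ _ _ (.br _ _ _ (.leaf b0 k288 t288) (.br _ _ _ (.leaf b0 k289 t289) (.leaf b0 k290 t290))) (.br _ _ _ (.leaf b0 k291 t291) (.br _ _ _ (.leaf b0 k292 t292) (.leaf b0 k293 t293)))))
noncomputable def k294 : KT := (.br (Nat.shiftLeft (nat_lit 0x401203) (nat_lit 67)) (.one (nat_lit 0x2009017000000401202e430)) (.br (Nat.shiftLeft (nat_lit 0x2009019) (nat_lit 64)) (.one (nat_lit 0x20090180000004012030430)) (.one (nat_lit 0x20090190000004012032430))))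
def t294 : k294.all (jb2 57 fl b0) = true := by decide +kernel
noncomputable def k295 : KT := (.br (Nat.shiftLeft (nat_lit 0x802803) (nat_lit 66)) (.br (Nat.shiftLeft (nat_lit 0x1005) (nat_lit 77)) (.one (nat_lit 0x200901a0000004012034430)) (.one (nat_lit 0x200a00b0000004014016430))) (.br (Nat.shiftLeft (nat_lit 0x200a00d) (nat_lit 64)) (.one (nat_lit 0x200a00c0000004014018430)) (.one (nat_lit 0x200a00d000000401401a430))))
def t295 : k295.all (jb2 57 fl b0) = true := by decide +kernel
noncomputable def k296 : KT := (.br (Nat.shiftLeft (nat_lit 0x200a00f) (nat_lit 64)) (.one (nat_lit 0x200a00e000000401401c430)) (.br (Nat.shiftLeft (nat_lit 0x200a01) (nat_lit 68)) (.one (nat_lit 0x200a00f000000401401e430)) (.one (nat_lit 0x200a0100000004014020430))))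
def t296 : k296.all (jb2 57 fl b0) = true := by decide +kernel
noncomputable def k297 : KT := (.br (Nat.shiftLeft (nat_lit 0x1005009) (nat_lit 65)) (.one (nat_lit 0x200a0110000004014022430)) (.br (Nat.shiftLeft (nat_lit 0x200a013) (nat_lit 64)) (.one (nat_lit 0x200a0120000004014024430)) (.one (nat_lit 0x200a0130000004014026430))))
def t297 : k297.all (jb2 57 fl b0) = true := by decide +kernel
noncomputable def k298 : KT := (.br (Nat.shiftLeft (nat_lit 0x200a015) (nat_lit 64)) (.one (nat_lit 0x200a0140000004014028430)) (.br (Nat.shiftLeft (nat_lit 0x100500b) (nat_lit 65)) (.one (nat_lit 0x200a015000000401402a430)) (.one (nat_lit 0x200a016000000401402c430))))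
def t298 : k298.all (jb2 57 fl b0) = true := by decide +kernel
noncomputable def k299 : KT := (.br (Nat.shiftLeft (nat_lit 0x401403) (nat_lit 67)) (.one (nat_lit 0x200a017000000401402e430)) (.br (Nat.shiftLeft (nat_lit 0x200a019) (nat_lit 64)) (.one (nat_lit 0x200a0180000004014030430)) (.one (nat_lit 0x200a0190000004014032430))))
def t299 : k299.all (jb2 57 fl b0) = true := by decide +kernel
noncomputable def k300 : KT := (.br (Nat.shiftLeft (nat_lit 0x200b00d) (nat_lit 64)) (.one (nat_lit 0x200b00c0000004016018430)) (.br (Nat.shiftLeft (nat_lit 0x1005807) (nat_lit 65)) (.one (nat_lit 0x200b00d000000401601a430)) (.one (nat_lit 0x200b00e000000401601c430))))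
def t300 : k300.all (jb2 57 fl b0) = true := by decide +kernel
noncomputable def k301 : KT := (.br (Nat.shiftLeft (nat_lit 0x200b01) (nat_lit 68)) (.one (nat_lit 0x200b00f000000401601e430)) (.br (Nat.shiftLeft (nat_lit 0x200b011) (nat_lit 64)) (.one (nat_lit 0x200b0100000004016020430)) (.one (nat_lit 0x200b0110000004016022430))))
def t301 : k301.all (jb2 57 fl b0) = true := by decide +kernel
noncomputable def k302 : KT := (.br (Nat.shiftLeft (nat_lit 0x200b013) (nat_lit 64)) (.one (nat_lit 0x200b0120000004016024430)) (.br (Nat.shiftLeft (nat_lit 0x802c05) (nat_lit 66)) (.one (nat_lit 0x200b0130000004016026430)) (.one (nat_lit 0x200b0140000004016028430))))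
def t302 : k302.all (jb2 57 fl b0) = true := by decide +kernel
noncomputable def k303 : KT := (.br (Nat.shiftLeft (nat_lit 0x100580b) (nat_lit 65)) (.one (nat_lit 0x200b015000000401602a430)) (.br (Nat.shiftLeft (nat_lit 0x200b017) (nat_lit 64)) (.one (nat_lit 0x200b016000000401602c430)) (.one (nat_lit 0x200b017000000401602e430))))
def t303 : k303.all (jb2 57 fl b0) = true := by decide +kernel
noncomputable def k304 : KT := (.br (Nat.shiftLeft (nat_lit 0x803) (nat_lit 78)) (.one (nat_lit 0x200b0180000004016030430)) (.br (Nat.shiftLeft (nat_lit 0x1006007) (nat_lit 65)) (.one (nat_lit 0x200c00d000000401801a430)) (.one (nat_lit 0x200c00e000000401801c430))))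
def t304 : k304.all (jb2 57 fl b0) = true := by decide +kernel
noncomputable def k305 : KT := (.br (Nat.shiftLeft (nat_lit 0x200c01) (nat_lit 68)) (.one (nat_lit 0x200c00f000000401801e430)) (.one (nat_lit 0x200c0100000004018020430)))
def t305 : k305.all (jb2 57 fl b0) = true := by decide +kernel
noncomputable def k306 : KT := (.br (Nat.shiftLeft (nat_lit 0x1006009) (nat_lit 65)) (.one (nat_lit 0x200c0110000004018022430)) (.one (nat_lit 0x200c0120000004018024430)))
def t306 : k306.all (jb2 57 fl b0) = true := by decide +kernel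
noncomputable def k307 : KT := (.br (Nat.shiftLeft (nat_lit 0x803005) (nat_lit 66)) (.one (nat_lit 0x200c0130000004018026430)) (.one (nat_lit 0x200c0140000004018028430)))
def t307 : k307.all (jb2 57 fl b0) = true := by decide +kernel
noncomputable def k308 : KT := (.br (Nat.shiftLeft (nat_lit 0x100600b) (nat_lit 65)) (.one (nat_lit 0x200c015000000401802a430)) (.one (nat_lit 0x200c016000000401802c430)))
def t308 : k308.all (jb2 57 fl b0) = true := by decide +kernel
noncomputable def k309 : KT := (.br (Nat.shiftLeft (nat_lit 0x401803) (nat_lit 67)) (.one (nat_lit 0x200c017000000401802e430)) (.one (nat_lit 0x200c0180000004018030430)))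
def t309 : k309.all (jb2 57 fl b0) = true := by decide +kernel
noncomputable def k310 : KT := (.br (Nat.shiftLeft (nat_lit 0x200d00f) (nat_lit 64)) (.one (nat_lit 0x200d00e000000401a01c430)) (.one (nat_lit 0x200d00f000000401a01e430)))
def t310 : k310.all (jb2 57 fl b0) = true := by decide +kernel
noncomputable def k311 : KT := (.br (Nat.shiftLeft (nat_lit 0x200d011) (nat_lit 64)) (.one (nat_lit 0x200d010000000401a020430)) (.one (nat_lit 0x200d011000000401a022430)))
def t311 : k311.all (jb2 57 fl b0) = true := by decide +kernel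
noncomputable def k312 : KT := (.br (Nat.shiftLeft (nat_lit 0x200d013) (nat_lit 64)) (.one (nat_lit 0x200d012000000401a024430)) (.one (nat_lit 0x200d013000000401a026430)))
def t312 : k312.all (jb2 57 fl b0) = true := by decide +kernel
noncomputable def k313 : KT := (.br (Nat.shiftLeft (nat_lit 0x200d015) (nat_lit 64)) (.one (nat_lit 0x200d014000000401a028430)) (.one (nat_lit 0x200d015000000401a02a430)))
def t313 : k313.all (jb2 57 fl b0) = true := by decide +kernel
noncomputable def k314 : KT := (.br (Nat.shiftLeft (nat_lit 0x200d017) (nat_lit 64)) (.one (nat_lit 0x200d016000000401a02c430)) (.one (nat_lit 0x200d017000000401a02e430)))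
def t314 : k314.all (jb2 57 fl b0) = true := by decide +kernel
noncomputable def k315 : KT := (.br (Nat.shiftLeft (nat_lit 0x200e01) (nat_lit 68)) (.one (nat_lit 0x200e00f000000401c01e430)) (.one (nat_lit 0x200e010000000401c020430)))
def t315 : k315.all (jb2 57 fl b0) = true := by decide +kernel
noncomputable def k316 : KT := (.br (Nat.shiftLeft (nat_lit 0x1007009) (nat_lit 65)) (.one (nat_lit 0x200e011000000401c022430)) (.one (nat_lit 0x200e012000000401c024430)))
def t316 : k316.all (jb2 57 fl b0) = true := by decide +kernel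
noncomputable def k317 : KT := (.br (Nat.shiftLeft (nat_lit 0x803805) (nat_lit 66)) (.one (nat_lit 0x200e013000000401c026430)) (.one (nat_lit 0x200e014000000401c028430)))
def t317 : k317.all (jb2 57 fl b0) = true := by decide +kernel
noncomputable def u16 : KT := (.br (nat_lit 0x200c0100000004018020430) (.br (nat_lit 0x200a0190000004014032430) (.br (nat_lit 0x200a0100000004014020430) (.br (nat_lit 0x20090190000004012032430) k294 (.br (nat_lit 0x200a00d000000401401a430) k295 k296)) (.br (nat_lit 0x200a0130000004014026430) k297 (.br (nat_lit 0x200a016000000401402c430) k298 k299))) (.br (nat_lit 0x200b0140000004016028430) (.br (nat_lit 0x200b00e000000401601c430) k300 (.br (nat_lit 0x200b0110000004016022430) k301 k302)) (.br (nat_lit 0x200b017000000401602e430) k303 (.br (nat_lit 0x200c00e000000401801c430) k304 k305)))) (.br (nat_lit 0x200d011000000401a022430) (.br (nat_lit 0x200c016000000401802c430) (.br (nat_lit 0x200c0120000004018024430) k306 (.br (nat_lit 0x200c0140000004018028430) k307 k308)) (.br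 (nat_lit 0x200c0180000004018030430) k309 (.br (nat_lit 0x200d00f000000401a01e430) k310 k311))) (.br (nat_lit 0x200d017000000401a02e430) (.br (nat_lit 0x200d013000000401a026430) k312 (.br (nat_lit 0x200d015000000401a02a430) k313 k314)) (.br (nat_lit 0x200e010000000401c020430) k315 (.br (nat_lit 0x200e012000000401c024430) k316 k317)))))
def o16 : OkW 57 (jb2 57 fl) u16 := (.br _ _ _ (.br _ _ _ (.br _ _ _ (.br _ _ _ (.leaf b0 k294 t294) (.br _ _ _ (.leaf b0 k295 t295) (.leaf b0 k296 t296))) (.br _ _ _ (.leaf b0 k297 t297) (.br _ _ _ (.leaf b0 k298 t298) (.leaf b0 k299 t299)))) (.br _ _ _ (.br _ _ _ (.leaf b0 k300 t300) (.br _ _ _ (.leaf b0 k301 t301) (.leaf b0 k302 t302))) (.br _ _ _ (.leaf b0 k303 t303) (.br _ _ _ (.leaf b0 k304 t304) (.leaf b0 k305 t305))))) (.br _ _ _ (.br _ _ _ (.br _ _ _ (.leaf b0 k306 t306) (.br _ _ _ (.leaf b0 k307 t307) (.leaf b0 k308 t308))) (.br _ _ _ (.leaf b0 k309 t309) (.br _ _ _ (.leaf b0 k310 t310) (.leaf b0 k311 t311)))) (.br _ _ _ (.br _ _ _ (.leaf b0 k312 t312) (.br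 _ _ _ (.leaf b0 k313 t313) (.leaf b0 k314 t314))) (.br _ _ _ (.leaf b0 k315 t315) (.br _ _ _ (.leaf b0 k316 t316) (.leaf b0 k317 t317))))))
noncomputable def k318 : KT := (.br (Nat.shiftLeft (nat_lit 0x100700b) (nat_lit 65)) (.one (nat_lit 0x200e015000000401c02a430)) (.one (nat_lit 0x200e016000000401c02c430)))
def t318 : k318.all (jb2 57 fl b0) = true := by decide +kernel
noncomputable def k319 : KT := (.br (Nat.shiftLeft (nat_lit 0x200f011) (nat_lit 64)) (.one (nat_lit 0x200f010000000401e020430)) (.one (nat_lit 0x200f011000000401e022430)))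
def t319 : k319.all (jb2 57 fl b0) = true := by decide +kernel
noncomputable def k320 : KT := (.br (Nat.shiftLeft (nat_lit 0x200f013) (nat_lit 64)) (.one (nat_lit 0x200f012000000401e024430)) (.one (nat_lit 0x200f013000000401e026430)))
def t320 : k320.all (jb2 57 fl b0) = true := by decide +kernel
noncomputable def k321 : KT := (.br (Nat.shiftLeft (nat_lit 0x200f015) (nat_lit 64)) (.one (nat_lit 0x200f014000000401e028430)) (.one (nat_lit 0x200f015000000401e02a430)))
def t321 : k321.all (jb2 57 fl b0) = true := by decide +kernel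
noncomputable def k322 : KT := (.br (Nat.shiftLeft (nat_lit 0x1008009) (nat_lit 65)) (.one (nat_lit 0x20100110000004020022430)) (.one (nat_lit 0x20100120000004020024430)))
def t322 : k322.all (jb2 57 fl b0) = true := by decide +kernel
noncomputable def k323 : KT := (.br (Nat.shiftLeft (nat_lit 0x804005) (nat_lit 66)) (.one (nat_lit 0x20100130000004020026430)) (.one (nat_lit 0x20100140000004020028430)))
def t323 : k323.all (jb2 57 fl b0) = true := by decide +kernel
noncomputable def k324 : KT := (.br (Nat.shiftLeft (nat_lit 0x2011013) (nat_lit 64)) (.one (nat_lit 0x20110120000004022024430)) (.one (nat_lit 0x20110130000004022026430)))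
def t324 : k324.all (jb2 57 fl b0) = true := by decide +kernel
noncomputable def k325 : KT := (.one (nat_lit 0x3006007000000600c00e430))
def t325 : k325.all (jb2 57 fl b0) = true := by decide +kernel
noncomputable def k326 : KT := (.one (nat_lit 0x3006008000000600c010430))
def t326 : k326.all (jb2 57 fl b0) = true := by decide +kernel
noncomputable def k327 : KT := (.one (nat_lit 0x3006009000000600c012430))
noncomputable def b328 : BT := .node (nat_lit 0x3) (nat_lit 0x258c9cc4b8004ca6800329a0672a4d49cadb26d992e0003a98004ea6000b2d8002aa7420016a0010a0005000050) .leaf .leaf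
def t327 : k327.all (jb2 57 fl b328) = true := by decide +kernel
noncomputable def k328 : KT := (.one (nat_lit 0x300600a000000600c014430))
noncomputable def b329 : BT := .node (nat_lit 0x1) (nat_lit 0x93525c9394003a98000ac6010008800028) .leaf .leaf
def t328 : k328.all (jb2 57 fl b329) = true := by decide +kernel
noncomputable def k329 : KT := (.one (nat_lit 0x300600b000000600c016430))
def t329 : k329.all (jb2 57 fl b0) = true := by decide +kernel
noncomputable def k330 : KT := (.one (nat_lit 0x300600c000000600c018430))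
def t330 : k330.all (jb2 57 fl b0) = true := by decide +kernel
noncomputable def k331 : KT := (.one (nat_lit 0x300600d000000600c01a430))
def t331 : k331.all (jb2 57 fl b0) = true := by decide +kernel
noncomputable def k332 : KT := (.one (nat_lit 0x300600e000000600c01c430))
def t332 : k332.all (jb2 57 fl b0) = true := by decide +kernel
noncomputable def k333 : KT := (.one (nat_lit 0x300600f000000600c01e430))
def t333 : k333.all (jb2 57 fl b0) = true := by decide +kernel
noncomputable def k334 : KT := (.one (nat_lit 0x3006010000000600c020430))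
def t334 : k334.all (jb2 57 fl b0) = true := by decide +kernel
noncomputable def k335 : KT := (.one (nat_lit 0x3006011000000600c022430))
def t335 : k335.all (jb2 57 fl b0) = true := by decide +kernel
noncomputable def k336 : KT := (.one (nat_lit 0x3006012000000600c024430))
def t336 : k336.all (jb2 57 fl b0) = true := by decide +kernel
noncomputable def k337 : KT := (.one (nat_lit 0x3006013000000600c026430))
def t337 : k337.all (jb2 57 fl b0) = true := by decide +kernel
noncomputable def k338 : KT := (.one (nat_lit 0x3006014000000600c028430))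
def t338 : k338.all (jb2 57 fl b0) = true := by decide +kernel
noncomputable def k339 : KT := (.one (nat_lit 0x3007008000000600e010430))
def t339 : k339.all (jb2 57 fl b0) = true := by decide +kernel
noncomputable def k340 : KT := (.one (nat_lit 0x1003007009000200600e012540))
def t340 : k340.all (jb2 57 fl b0) = true := by decide +kernel
noncomputable def k341 : KT := (.br (Nat.shiftLeft (nat_lit 0x1) (nat_lit 114)) (.br (Nat.shiftLeft (nat_lit 0x1) (nat_lit 113)) (.br (Nat.shiftLeft (nat_lit 0x1) (nat_lit 112)) (.one (nat_lit 0x2003007009000400600e012540)) (.one (nat_lit 0x1000003007009200000600e012411))) (.br (Nat.shiftLeft (nat_lit 0x3) (nat_lit 112)) (.one (nat_lit 0x2000003007009400000600e012411)) (.one (nat_lit 0x3000003007009600000600e012411)))) (.br (Nat.shiftLeft (nat_lit 0x3) (nat_lit 113)) (.br (Nat.shiftLeft (nat_lit 0x5) (nat_lit 112)) (.one (nat_lit 0x4000003007009800000600e012411)) (.one (nat_lit 0x5000003007009a00000600e012411))) (.br (Nat.shiftLeft (nat_lit 0x7) (nat_lit 112)) (.one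 (nat_lit 0x6000003007009c00000600e012411)) (.one (nat_lit 0x7000003007009e00000600e012411)))))
def t341 : k341.all (jb2 57 fl b0) = true := by decide +kernel
noncomputable def s17 : KT := (.br (nat_lit 0x300600b000000600c016430) (.br (nat_lit 0x20100140000004020028430) (.br (nat_lit 0x200f013000000401e026430) (.br (nat_lit 0x200e016000000401c02c430) k318 (.br (nat_lit 0x200f011000000401e022430) k319 k320)) (.br (nat_lit 0x200f015000000401e02a430) k321 (.br (nat_lit 0x20100120000004020024430) k322 k323))) (.br (nat_lit 0x3006008000000600c010430) (.br (nat_lit 0x20110130000004022026430) k324 (.br (nat_lit 0x3006007000000600c00e430) k325 k326)) (.br (nat_lit 0x3006009000000600c012430) k327 (.br (nat_lit 0x300600a000000600c014430) k328 k329)))) (.br (nat_lit 0x3006011000000600c022430) (.br (nat_lit 0x300600e000000600c01c430) (.br (nat_lit 0x300600c000000600c018430) k330 (.br (nat_lit 0x300600d000000600c01a430) k331 k332)) (.br (nat_lit 0x300600f000000600c01e430) k333 (.br (nat_lit 0x3006010000000600c020430)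 k334 k335))) (.br (nat_lit 0x3006014000000600c028430) (.br (nat_lit 0x3006012000000600c024430) k336 (.br (nat_lit 0x3006013000000600c026430) k337 k338)) (.br (nat_lit 0x3007008000000600e010430) k339 (.br (nat_lit 0x1003007009000200600e012540) k340 k341)))))
noncomputable def u17 : KT := (.br (Nat.shiftLeft (nat_lit 0x600c01) (nat_lit 67)) (.br (Nat.shiftLeft (nat_lit 0x200f015) (nat_lit 64)) (.br (Nat.shiftLeft (nat_lit 0x200f011) (nat_lit 64)) (.br (Nat.shiftLeft (nat_lit 0x100700b) (nat_lit 65)) (.one (nat_lit 0x200e015000000401c02a430)) (.br (Nat.shiftLeft (nat_lit 0x200f) (nat_lit 76)) (.one (nat_lit 0x200e016000000401c02c430)) (.one (nat_lit 0x200f010000000401e020430)))) (.br (Nat.shiftLeft (nat_lit 0x200f013) (nat_lit 64)) (.br (Nat.shiftLeft (nat_lit 0x1007809) (nat_lit 65)) (.one (nat_lit 0x200f011000000401e022430)) (.one (nat_lit 0x200f012000000401e024430))) (.br (Nat.shiftLeft (nat_lit 0x803c05) (nat_lit 66)) (.one (nat_lit 0x200f013000000401e026430)) (.one (nat_lit 0x200f014000000401e028430)))))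 (.br (Nat.shiftLeft (nat_lit 0x804005) (nat_lit 66)) (.br (Nat.shiftLeft (nat_lit 0x1008009) (nat_lit 65)) (.br (Nat.shiftLeft (nat_lit 0x201) (nat_lit 80)) (.one (nat_lit 0x200f015000000401e02a430)) (.one (nat_lit 0x20100110000004020022430))) (.br (Nat.shiftLeft (nat_lit 0x2010013) (nat_lit 64)) (.one (nat_lit 0x20100120000004020024430)) (.one (nat_lit 0x20100130000004020026430)))) (.br (Nat.shiftLeft (nat_lit 0x2011013) (nat_lit 64)) (.br (Nat.shiftLeft (nat_lit 0x2011) (nat_lit 76)) (.one (nat_lit 0x20100140000004020028430)) (.one (nat_lit 0x20110120000004022024430))) (.br (Nat.shiftLeft (nat_lit 0x3) (nat_lit 88)) (.one (nat_lit 0x20110130000004022026430)) (.one (nat_lit 0x3006007000000600c00e430)))))) (.br (Nat.shiftLeft (nat_lit 0x300600f) (nat_lit 64)) (.br (Nat.shiftLeft (nat_lit 0x300600b) (nat_lit 64)) (.br (Nat.shiftLeft (nat_lit 0x3006009) (nat_lit 64)) (.one (nat_lit 0x3006008000000600c010430)) (.br (Nat.shiftLeft (nat_lit 0x1803005) (nat_lit 65)) (.one (nat_lit 0x3006009000000600c012430))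 (.one (nat_lit 0x300600a000000600c014430)))) (.br (Nat.shiftLeft (nat_lit 0x300600d) (nat_lit 64)) (.br (Nat.shiftLeft (nat_lit 0xc01803) (nat_lit 66)) (.one (nat_lit 0x300600b000000600c016430)) (.one (nat_lit 0x300600c000000600c018430))) (.br (Nat.shiftLeft (nat_lit 0x1803007) (nat_lit 65)) (.one (nat_lit 0x300600d000000600c01a430)) (.one (nat_lit 0x300600e000000600c01c430))))) (.br (Nat.shiftLeft (nat_lit 0x3006013) (nat_lit 64)) (.br (Nat.shiftLeft (nat_lit 0x3006011) (nat_lit 64)) (.br (Nat.shiftLeft (nat_lit 0x300601) (nat_lit 68)) (.one (nat_lit 0x300600f000000600c01e430)) (.one (nat_lit 0x3006010000000600c020430))) (.br (Nat.shiftLeft (nat_lit 0x1803009) (nat_lit 65)) (.one (nat_lit 0x3006011000000600c022430)) (.one (nat_lit 0x3006012000000600c024430)))) (.br (Nat.shiftLeft (nat_lit 0x3007) (nat_lit 76)) (.br (Nat.shiftLeft (nat_lit 0xc01805) (nat_lit 66)) (.one (nat_lit 0x3006013000000600c026430)) (.one (nat_lit 0x3006014000000600c028430))) (.br (Nat.shiftLeft (nat_lit 0x3007009) (nat_lit 64))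 (.one (nat_lit 0x3007008000000600e010430)) (.one (nat_lit 0x3007009000000600e012430)))))))
def w17 : u17.all (wj 57 s17) = true := by decide +kernel
def o17 : OkW 57 (jb2 57 fl) u17 := .lift s17 _ (.br _ _ _ (.br _ _ _ (.br _ _ _ (.br _ _ _ (.leaf b0 k318 t318) (.br _ _ _ (.leaf b0 k319 t319) (.leaf b0 k320 t320))) (.br _ _ _ (.leaf b0 k321 t321) (.br _ _ _ (.leaf b0 k322 t322) (.leaf b0 k323 t323)))) (.br _ _ _ (.br _ _ _ (.leaf b0 k324 t324) (.br _ _ _ (.leaf b0 k325 t325) (.leaf b0 k326 t326))) (.br _ _ _ (.leaf b328 k327 t327) (.br _ _ _ (.leaf b329 k328 t328) (.leaf b0 k329 t329))))) (.br _ _ _ (.br _ _ _ (.br _ _ _ (.leaf b0 k330 t330) (.br _ _ _ (.leaf b0 k331 t331) (.leaf b0 k332 t332))) (.br _ _ _ (.leaf b0 k333 t333) (.br _ _ _ (.leaf b0 k334 t334) (.leaf b0 k335 t335)))) (.br _ _ _ (.br _ _ _ (.leaf b0 k336 t336) (.br _ _ _ (.leaf b0 k337 t337) (.leaf b0 k338 t338))) (.br _ _ _ (.leaf b0 k339 t339) (.br _ _ _ (.leaf b0 k340 t340) (.leaf b0 k341 t341)))))) w17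
noncomputable def k342 : KT := (.br (Nat.shiftLeft (nat_lit 0x1) (nat_lit 100)) (.br (Nat.shiftLeft (nat_lit 0x600e03) (nat_lit 67)) (.br (Nat.shiftLeft (nat_lit 0x3007017) (nat_lit 64)) (.one (nat_lit 0x3007016000000600e02d400)) (.one (nat_lit 0x3007017000000600e02f400))) (.br (Nat.shiftLeft (nat_lit 0x3007019) (nat_lit 64)) (.one (nat_lit 0x3007018000000600e031400)) (.one (nat_lit 0x3007019000000600e033400)))) (.br (Nat.shiftLeft (nat_lit 0x400c01c03) (nat_lit 66)) (.br (Nat.shiftLeft (nat_lit 0x100300700b) (nat_lit 64)) (.one (nat_lit 0x100300700a000200600e014540)) (.one (nat_lit 0x100300700b000200600e016540))) (.br (Nat.shiftLeft (nat_lit 0x100300700d) (nat_lit 64)) (.one (nat_lit 0x100300700c000200600e018540)) (.one (nat_lit 0x100300700d000200600e01a540)))))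
def t342 : k342.all (jb2 57 fl b0) = true := by decide +kernel
noncomputable def k343 : KT := (.br (Nat.shiftLeft (nat_lit 0x100300701) (nat_lit 68)) (.br (Nat.shiftLeft (nat_lit 0x100300700f) (nat_lit 64)) (.one (nat_lit 0x100300700e000200600e01c540)) (.one (nat_lit 0x100300700f000200600e01e540))) (.br (Nat.shiftLeft (nat_lit 0x1003007011) (nat_lit 64)) (.one (nat_lit 0x1003007010000200600e020540)) (.one (nat_lit 0x1003007011000200600e022540))))
def t343 : k343.all (jb2 57 fl b0) = true := by decide +kernel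
noncomputable def k344 : KT := (.br (Nat.shiftLeft (nat_lit 0x400c01c05) (nat_lit 66)) (.br (Nat.shiftLeft (nat_lit 0x1003007013) (nat_lit 64)) (.one (nat_lit 0x1003007012000200600e024540)) (.one (nat_lit 0x1003007013000200600e026540))) (.br (Nat.shiftLeft (nat_lit 0x1003007015) (nat_lit 64)) (.one (nat_lit 0x1003007014000200600e028540)) (.one (nat_lit 0x1003007015000200600e02a540))))
def t344 : k344.all (jb2 57 fl b0) = true := by decide +kernel
noncomputable def k345 : KT := (.br (Nat.shiftLeft (nat_lit 0x200600e03) (nat_lit 67)) (.br (Nat.shiftLeft (nat_lit 0x1003007017) (nat_lit 64)) (.one (nat_lit 0x1003007016000200600e02c540)) (.one (nat_lit 0x1003007017000200600e02e540))) (.br (Nat.shiftLeft (nat_lit 0x1003007019) (nat_lit 64)) (.one (nat_lit 0x1003007018000200600e030540)) (.one (nat_lit 0x1003007019000200600e032540))))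
def t345 : k345.all (jb2 57 fl b0) = true := by decide +kernel
noncomputable def k346 : KT := (.one (nat_lit 0x200300700a000400600e014540))
noncomputable def b347 : BT := .node (nat_lit 0x3) (nat_lit 0x6d9139926c00196c00055b60cc8a4d8ae24b725d12e400419c000ad5c003a99000cb6020016b0016b0010b00050) .leaf .leaf
def t346 : k346.all (jb2 57 fl b347) = true := by decide +kernel
noncomputable def k347 : KT := (.one (nat_lit 0x200300700d000400600e01a540))
def t347 : k347.all (jb2 57 fl b0) = true := by decide +kernel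
noncomputable def k348 : KT := (.one (nat_lit 0x200300700e000400600e01c540))
def t348 : k348.all (jb2 57 fl b0) = true := by decide +kernel
noncomputable def k349 : KT := (.one (nat_lit 0x200300700f000400600e01e540))
def t349 : k349.all (jb2 57 fl b0) = true := by decide +kernel
noncomputable def k350 : KT := (.one (nat_lit 0x2003007010000400600e020540))
def t350 : k350.all (jb2 57 fl b0) = true := by decide +kernel
noncomputable def k351 : KT := (.one (nat_lit 0x2003007011000400600e022540))
def t351 : k351.all (jb2 57 fl b0) = true := by decide +kernel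
noncomputable def k352 : KT := (.one (nat_lit 0x2003007012000400600e024540))
def t352 : k352.all (jb2 57 fl b0) = true := by decide +kernel
noncomputable def k353 : KT := (.one (nat_lit 0x2003007013000400600e026540))
def t353 : k353.all (jb2 57 fl b0) = true := by decide +kernel
noncomputable def k354 : KT := (.one (nat_lit 0x2003007014000400600e028540))
def t354 : k354.all (jb2 57 fl b0) = true := by decide +kernel
noncomputable def k355 : KT := (.one (nat_lit 0x2003007015000400600e02a540))
def t355 : k355.all (jb2 57 fl b0) = true := by decide +kernel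
noncomputable def k356 : KT := (.one (nat_lit 0x2003007016000400600e02c540))
def t356 : k356.all (jb2 57 fl b0) = true := by decide +kernel
noncomputable def k357 : KT := (.one (nat_lit 0x2003007017000400600e02e540))
def t357 : k357.all (jb2 57 fl b0) = true := by decide +kernel
noncomputable def k358 : KT := (.one (nat_lit 0x2003007018000400600e030540))
def t358 : k358.all (jb2 57 fl b0) = true := by decide +kernel
noncomputable def k359 : KT := (.br (Nat.shiftLeft (nat_lit 0x1000003007011) (nat_lit 64)) (.br (Nat.shiftLeft (nat_lit 0x100000300700d) (nat_lit 64)) (.br (Nat.shiftLeft (nat_lit 0x100000300700b) (nat_lit 64)) (.br (Nat.shiftLeft (nat_lit 0x1) (nat_lit 112)) (.one (nat_lit 0x2003007019000400600e032540)) (.one (nat_lit 0x100000300700a200000600e014411))) (.br (Nat.shiftLeft (nat_lit 0x400000c01c03) (nat_lit 66)) (.one (nat_lit 0x100000300700b200000600e016411)) (.one (nat_lit 0x100000300700c200000600e018411)))) (.br (Nat.shiftLeft (nat_lit 0x100000300700f) (nat_lit 64)) (.br (Nat.shiftLeft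 (nat_lit 0x800001803807) (nat_lit 65)) (.one (nat_lit 0x100000300700d200000600e01a411)) (.one (nat_lit 0x100000300700e200000600e01c411))) (.br (Nat.shiftLeft (nat_lit 0x100000300701) (nat_lit 68)) (.one (nat_lit 0x100000300700f200000600e01e411)) (.one (nat_lit 0x1000003007010200000600e020411))))) (.br (Nat.shiftLeft (nat_lit 0x1000003007015) (nat_lit 64)) (.br (Nat.shiftLeft (nat_lit 0x1000003007013) (nat_lit 64)) (.br (Nat.shiftLeft (nat_lit 0x800001803809) (nat_lit 65)) (.one (nat_lit 0x1000003007011200000600e022411)) (.one (nat_lit 0x1000003007012200000600e024411))) (.br (Nat.shiftLeft (nat_lit 0x400000c01c05) (nat_lit 66)) (.one (nat_lit 0x1000003007013200000600e026411)) (.one (nat_lit 0x1000003007014200000600e028411)))) (.br (Nat.shiftLeft (nat_lit 0x1000003007017) (nat_lit 64)) (.br (Nat.shiftLeft (nat_lit 0x80000180380b) (nat_lit 65)) (.one (nat_lit 0x1000003007015200000600e02a411)) (.one (nat_lit 0x1000003007016200000600e02c411))) (.br (Nat.shiftLeft (nat_lit 0x200000600e03) (nat_lit 67)) (.one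 (nat_lit 0x1000003007017200000600e02e411)) (.br (Nat.shiftLeft (nat_lit 0x1000003007019) (nat_lit 64)) (.one (nat_lit 0x1000003007018200000600e030411)) (.one (nat_lit 0x1000003007019200000600e032411)))))))
def t359 : k359.all (jb2 57 fl b0) = true := by decide +kernel
noncomputable def k360 : KT := (.one (nat_lit 0x100200300700b200400600e016650))
noncomputable def b361 : BT := .node (nat_lit 0x3) (nat_lit 0x4c892e526e00194d80064ba0d7149b12e800419c000ab7010010f000af0005000050) .leaf .leaf
def t360 : k360.all (jb2 57 fl b361) = true := by decide +kernel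
noncomputable def k361 : KT := (.br (Nat.shiftLeft (nat_lit 0x300000300700d) (nat_lit 64)) (.br (Nat.shiftLeft (nat_lit 0x2000003007013) (nat_lit 64)) (.br (Nat.shiftLeft (nat_lit 0x1000001803807) (nat_lit 65)) (.br (Nat.shiftLeft (nat_lit 0x200000300700b) (nat_lit 64)) (.br (Nat.shiftLeft (nat_lit 0x1) (nat_lit 113)) (.one (nat_lit 0x100200300700c200400600e018650)) (.one (nat_lit 0x200000300700a400000600e014411))) (.br (Nat.shiftLeft (nat_lit 0x800000c01c03) (nat_lit 66)) (.one (nat_lit 0x200000300700b400000600e016411)) (.br (Nat.shiftLeft (nat_lit 0x200000300700d) (nat_lit 64)) (.one (nat_lit 0x200000300700c400000600e018411)) (.one (nat_lit 0x200000300700d400000600e01a411))))) (.br (Nat.shiftLeft (nat_lit 0x200000300701) (nat_lit 68)) (.br (Nat.shiftLeft (nat_lit 0x200000300700f) (nat_lit 64)) (.one (nat_lit 0x200000300700e400000600e01c411)) (.one (nat_lit 0x200000300700f400000600e01e411))) (.br (Nat.shiftLeft (nat_lit 0x2000003007011) (nat_lit 64)) (.one (nat_lit 0x2000003007010400000600e020411))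 (.br (Nat.shiftLeft (nat_lit 0x1000001803809) (nat_lit 65)) (.one (nat_lit 0x2000003007011400000600e022411)) (.one (nat_lit 0x2000003007012400000600e024411)))))) (.br (Nat.shiftLeft (nat_lit 0x400000600e03) (nat_lit 67)) (.br (Nat.shiftLeft (nat_lit 0x2000003007015) (nat_lit 64)) (.br (Nat.shiftLeft (nat_lit 0x800000c01c05) (nat_lit 66)) (.one (nat_lit 0x2000003007013400000600e026411)) (.one (nat_lit 0x2000003007014400000600e028411))) (.br (Nat.shiftLeft (nat_lit 0x100000180380b) (nat_lit 65)) (.one (nat_lit 0x2000003007015400000600e02a411)) (.br (Nat.shiftLeft (nat_lit 0x2000003007017) (nat_lit 64)) (.one (nat_lit 0x2000003007016400000600e02c411)) (.one (nat_lit 0x2000003007017400000600e02e411))))) (.br (Nat.shiftLeft (nat_lit 0x3) (nat_lit 112)) (.br (Nat.shiftLeft (nat_lit 0x2000003007019) (nat_lit 64)) (.one (nat_lit 0x2000003007018400000600e030411)) (.one (nat_lit 0x2000003007019400000600e032411))) (.br (Nat.shiftLeft (nat_lit 0x300000300700b) (nat_lit 64)) (.one (nat_lit 0x300000300700a600000600e014411))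 (.br (Nat.shiftLeft (nat_lit 0xc00000c01c03) (nat_lit 66)) (.one (nat_lit 0x300000300700b600000600e016411)) (.one (nat_lit 0x300000300700c600000600e018411))))))) (.br (Nat.shiftLeft (nat_lit 0x3000003007017) (nat_lit 64)) (.br (Nat.shiftLeft (nat_lit 0x1800001803809) (nat_lit 65)) (.br (Nat.shiftLeft (nat_lit 0x300000300700f) (nat_lit 64)) (.br (Nat.shiftLeft (nat_lit 0x1800001803807) (nat_lit 65)) (.one (nat_lit 0x300000300700d600000600e01a411)) (.one (nat_lit 0x300000300700e600000600e01c411))) (.br (Nat.shiftLeft (nat_lit 0x300000300701) (nat_lit 68)) (.one (nat_lit 0x300000300700f600000600e01e411)) (.br (Nat.shiftLeft (nat_lit 0x3000003007011) (nat_lit 64)) (.one (nat_lit 0x3000003007010600000600e020411)) (.one (nat_lit 0x3000003007011600000600e022411))))) (.br (Nat.shiftLeft (nat_lit 0xc00000c01c05) (nat_lit 66)) (.br (Nat.shiftLeft (nat_lit 0x3000003007013) (nat_lit 64)) (.one (nat_lit 0x3000003007012600000600e024411)) (.one (nat_lit 0x3000003007013600000600e026411))) (.br (Nat.shiftLeft (nat_lit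 0x3000003007015) (nat_lit 64)) (.one (nat_lit 0x3000003007014600000600e028411)) (.br (Nat.shiftLeft (nat_lit 0x180000180380b) (nat_lit 65)) (.one (nat_lit 0x3000003007015600000600e02a411)) (.one (nat_lit 0x3000003007016600000600e02c411)))))) (.br (Nat.shiftLeft (nat_lit 0x1000000c01c03) (nat_lit 66)) (.br (Nat.shiftLeft (nat_lit 0x3000003007019) (nat_lit 64)) (.br (Nat.shiftLeft (nat_lit 0x600000600e03) (nat_lit 67)) (.one (nat_lit 0x3000003007017600000600e02e411)) (.one (nat_lit 0x3000003007018600000600e030411))) (.br (Nat.shiftLeft (nat_lit 0x1) (nat_lit 114)) (.one (nat_lit 0x3000003007019600000600e032411)) (.br (Nat.shiftLeft (nat_lit 0x400000300700b) (nat_lit 64)) (.one (nat_lit 0x400000300700a800000600e014411)) (.one (nat_lit 0x400000300700b800000600e016411))))) (.br (Nat.shiftLeft (nat_lit 0x2000001803807) (nat_lit 65)) (.br (Nat.shiftLeft (nat_lit 0x400000300700d) (nat_lit 64)) (.one (nat_lit 0x400000300700c800000600e018411)) (.one (nat_lit 0x400000300700d800000600e01a411))) (.br (Nat.shiftLeft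 (nat_lit 0x400000300700f) (nat_lit 64)) (.one (nat_lit 0x400000300700e800000600e01c411)) (.br (Nat.shiftLeft (nat_lit 0x400000300701) (nat_lit 68)) (.one (nat_lit 0x400000300700f800000600e01e411)) (.one (nat_lit 0x4000003007010800000600e020411))))))))
def t361 : k361.all (jb2 57 fl b0) = true := by decide +kernel
noncomputable def k362 : KT := (.br (Nat.shiftLeft (nat_lit 0x5000003007015) (nat_lit 64)) (.br (Nat.shiftLeft (nat_lit 0x500000300700b) (nat_lit 64)) (.br (Nat.shiftLeft (nat_lit 0x200000180380b) (nat_lit 65)) (.br (Nat.shiftLeft (nat_lit 0x4000003007013) (nat_lit 64)) (.br (Nat.shiftLeft (nat_lit 0x2000001803809) (nat_lit 65)) (.one (nat_lit 0x4000003007011800000600e022411)) (.one (nat_lit 0x4000003007012800000600e024411))) (.br (Nat.shiftLeft (nat_lit 0x1000000c01c05) (nat_lit 66)) (.one (nat_lit 0x4000003007013800000600e026411)) (.br (Nat.shiftLeft (nat_lit 0x4000003007015) (nat_lit 64)) (.one (nat_lit 0x4000003007014800000600e028411)) (.one (nat_lit 0x4000003007015800000600e02a411)))))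 (.br (Nat.shiftLeft (nat_lit 0x800000600e03) (nat_lit 67)) (.br (Nat.shiftLeft (nat_lit 0x4000003007017) (nat_lit 64)) (.one (nat_lit 0x4000003007016800000600e02c411)) (.one (nat_lit 0x4000003007017800000600e02e411))) (.br (Nat.shiftLeft (nat_lit 0x4000003007019) (nat_lit 64)) (.one (nat_lit 0x4000003007018800000600e030411)) (.br (Nat.shiftLeft (nat_lit 0x5) (nat_lit 112)) (.one (nat_lit 0x4000003007019800000600e032411)) (.one (nat_lit 0x500000300700aa00000600e014411)))))) (.br (Nat.shiftLeft (nat_lit 0x500000300701) (nat_lit 68)) (.br (Nat.shiftLeft (nat_lit 0x500000300700d) (nat_lit 64)) (.br (Nat.shiftLeft (nat_lit 0x1400000c01c03) (nat_lit 66)) (.one (nat_lit 0x500000300700ba00000600e016411)) (.one (nat_lit 0x500000300700ca00000600e018411))) (.br (Nat.shiftLeft (nat_lit 0x2800001803807) (nat_lit 65)) (.one (nat_lit 0x500000300700da00000600e01a411)) (.br (Nat.shiftLeft (nat_lit 0x500000300700f) (nat_lit 64)) (.one (nat_lit 0x500000300700ea00000600e01c411)) (.one (nat_lit 0x500000300700fa00000600e01e411)))))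 (.br (Nat.shiftLeft (nat_lit 0x2800001803809) (nat_lit 65)) (.br (Nat.shiftLeft (nat_lit 0x5000003007011) (nat_lit 64)) (.one (nat_lit 0x5000003007010a00000600e020411)) (.one (nat_lit 0x5000003007011a00000600e022411))) (.br (Nat.shiftLeft (nat_lit 0x5000003007013) (nat_lit 64)) (.one (nat_lit 0x5000003007012a00000600e024411)) (.br (Nat.shiftLeft (nat_lit 0x1400000c01c05) (nat_lit 66)) (.one (nat_lit 0x5000003007013a00000600e026411)) (.one (nat_lit 0x5000003007014a00000600e028411))))))) (.br (Nat.shiftLeft (nat_lit 0x600000300700f) (nat_lit 64)) (.br (Nat.shiftLeft (nat_lit 0x3) (nat_lit 113)) (.br (Nat.shiftLeft (nat_lit 0x5000003007017) (nat_lit 64)) (.br (Nat.shiftLeft (nat_lit 0x280000180380b) (nat_lit 65)) (.one (nat_lit 0x5000003007015a00000600e02a411)) (.one (nat_lit 0x5000003007016a00000600e02c411))) (.br (Nat.shiftLeft (nat_lit 0xa00000600e03) (nat_lit 67)) (.one (nat_lit 0x5000003007017a00000600e02e411)) (.br (Nat.shiftLeft (nat_lit 0x5000003007019) (nat_lit 64)) (.one (nat_lit 0x5000003007018a00000600e030411))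 (.one (nat_lit 0x5000003007019a00000600e032411))))) (.br (Nat.shiftLeft (nat_lit 0x1800000c01c03) (nat_lit 66)) (.br (Nat.shiftLeft (nat_lit 0x600000300700b) (nat_lit 64)) (.one (nat_lit 0x600000300700ac00000600e014411)) (.one (nat_lit 0x600000300700bc00000600e016411))) (.br (Nat.shiftLeft (nat_lit 0x600000300700d) (nat_lit 64)) (.one (nat_lit 0x600000300700cc00000600e018411)) (.br (Nat.shiftLeft (nat_lit 0x3000001803807) (nat_lit 65)) (.one (nat_lit 0x600000300700dc00000600e01a411)) (.one (nat_lit 0x600000300700ec00000600e01c411)))))) (.br (Nat.shiftLeft (nat_lit 0x1800000c01c05) (nat_lit 66)) (.br (Nat.shiftLeft (nat_lit 0x6000003007011) (nat_lit 64)) (.br (Nat.shiftLeft (nat_lit 0x600000300701) (nat_lit 68)) (.one (nat_lit 0x600000300700fc00000600e01e411)) (.one (nat_lit 0x6000003007010c00000600e020411))) (.br (Nat.shiftLeft (nat_lit 0x3000001803809) (nat_lit 65)) (.one (nat_lit 0x6000003007011c00000600e022411)) (.br (Nat.shiftLeft (nat_lit 0x6000003007013) (nat_lit 64)) (.one (nat_lit 0x6000003007012c00000600e024411))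 (.one (nat_lit 0x6000003007013c00000600e026411))))) (.br (Nat.shiftLeft (nat_lit 0x300000180380b) (nat_lit 65)) (.br (Nat.shiftLeft (nat_lit 0x6000003007015) (nat_lit 64)) (.one (nat_lit 0x6000003007014c00000600e028411)) (.one (nat_lit 0x6000003007015c00000600e02a411))) (.br (Nat.shiftLeft (nat_lit 0x6000003007017) (nat_lit 64)) (.one (nat_lit 0x6000003007016c00000600e02c411)) (.br (Nat.shiftLeft (nat_lit 0xc00000600e03) (nat_lit 67)) (.one (nat_lit 0x6000003007017c00000600e02e411)) (.one (nat_lit 0x6000003007018c00000600e030411))))))))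
def t362 : k362.all (jb2 57 fl b0) = true := by decide +kernel
noncomputable def k363 : KT := (.br (Nat.shiftLeft (nat_lit 0x7000003007017) (nat_lit 64)) (.br (Nat.shiftLeft (nat_lit 0x700000300701) (nat_lit 68)) (.br (Nat.shiftLeft (nat_lit 0x1c00000c01c03) (nat_lit 66)) (.br (Nat.shiftLeft (nat_lit 0x7) (nat_lit 112)) (.one (nat_lit 0x6000003007019c00000600e032411)) (.br (Nat.shiftLeft (nat_lit 0x700000300700b) (nat_lit 64)) (.one (nat_lit 0x700000300700ae00000600e014411)) (.one (nat_lit 0x700000300700be00000600e016411)))) (.br (Nat.shiftLeft (nat_lit 0x3800001803807) (nat_lit 65)) (.br (Nat.shiftLeft (nat_lit 0x700000300700d) (nat_lit 64)) (.one (nat_lit 0x700000300700ce00000600e018411)) (.one (nat_lit 0x700000300700de00000600e01a411))) (.br (Nat.shiftLeft (nat_lit 0x700000300700f) (nat_lit 64)) (.one (nat_lit 0x700000300700ee00000600e01c411)) (.one (nat_lit 0x700000300700fe00000600e01e411))))) (.br (Nat.shiftLeft (nat_lit 0x7000003007013) (nat_lit 64)) (.br (Nat.shiftLeft (nat_lit 0x7000003007011)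 (nat_lit 64)) (.one (nat_lit 0x7000003007010e00000600e020411)) (.br (Nat.shiftLeft (nat_lit 0x3800001803809) (nat_lit 65)) (.one (nat_lit 0x7000003007011e00000600e022411)) (.one (nat_lit 0x7000003007012e00000600e024411)))) (.br (Nat.shiftLeft (nat_lit 0x7000003007015) (nat_lit 64)) (.br (Nat.shiftLeft (nat_lit 0x1c00000c01c05) (nat_lit 66)) (.one (nat_lit 0x7000003007013e00000600e026411)) (.one (nat_lit 0x7000003007014e00000600e028411))) (.br (Nat.shiftLeft (nat_lit 0x380000180380b) (nat_lit 65)) (.one (nat_lit 0x7000003007015e00000600e02a411)) (.one (nat_lit 0x7000003007016e00000600e02c411)))))) (.br (Nat.shiftLeft (nat_lit 0x3) (nat_lit 124)) (.br (Nat.shiftLeft (nat_lit 0x1) (nat_lit 124)) (.br (Nat.shiftLeft (nat_lit 0xe00000600e03) (nat_lit 67)) (.one (nat_lit 0x7000003007017e00000600e02e411)) (.br (Nat.shiftLeft (nat_lit 0x7000003007019) (nat_lit 64)) (.one (nat_lit 0x7000003007018e00000600e030411)) (.one (nat_lit 0x7000003007019e00000600e032411)))) (.br (Nat.shiftLeft (nat_lit 0x1) (nat_lit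 125)) (.br (Nat.shiftLeft (nat_lit 0x400000800c01c03) (nat_lit 66)) (.one (nat_lit 0x100000200300700b000400602e416511)) (.one (nat_lit 0x100000200300700c000400602e418511))) (.br (Nat.shiftLeft (nat_lit 0x800000800c01c03) (nat_lit 66)) (.one (nat_lit 0x200000200300700b000400604e816511)) (.one (nat_lit 0x200000200300700c000400604e818511))))) (.br (Nat.shiftLeft (nat_lit 0x5) (nat_lit 124)) (.br (Nat.shiftLeft (nat_lit 0x1) (nat_lit 126)) (.br (Nat.shiftLeft (nat_lit 0xc00000800c01c03) (nat_lit 66)) (.one (nat_lit 0x300000200300700b000400606ec16511)) (.one (nat_lit 0x300000200300700c000400606ec18511))) (.br (Nat.shiftLeft (nat_lit 0x1000000800c01c03) (nat_lit 66)) (.one (nat_lit 0x400000200300700b000400608f016511)) (.one (nat_lit 0x400000200300700c000400608f018511)))) (.br (Nat.shiftLeft (nat_lit 0x3) (nat_lit 125)) (.br (Nat.shiftLeft (nat_lit 0x1400000800c01c03) (nat_lit 66)) (.one (nat_lit 0x500000200300700b00040060af416511)) (.one (nat_lit 0x500000200300700c00040060af418511))) (.br (Nat.shiftLeft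 (nat_lit 0x1800000800c01c03) (nat_lit 66)) (.one (nat_lit 0x600000200300700b00040060cf816511)) (.one (nat_lit 0x600000200300700c00040060cf818511)))))))
def t363 : k363.all (jb2 57 fl b0) = true := by decide +kernel
noncomputable def k364 : KT := (.br (Nat.shiftLeft (nat_lit 0x1c00000800c01c03) (nat_lit 66)) (.one (nat_lit 0x700000200300700b00040060efc16511)) (.one (nat_lit 0x700000200300700c00040060efc18511)))
def t364 : k364.all (jb2 57 fl b0) = true := by decide +kernel
noncomputable def s18 : KT := (.br (nat_lit 0x2003007012000400600e024540) (.br (nat_lit 0x200300700a000400600e014540) (.br (nat_lit 0x1003007011000200600e022540) (.br (nat_lit 0x100300700d000200600e01a540) k342 k343) (.br (nat_lit 0x1003007015000200600e02a540) k344 (.br (nat_lit 0x1003007019000200600e032540) k345 k346))) (.br (nat_lit 0x200300700f000400600e01e540) (.br (nat_lit 0x200300700d000400600e01a540) k347 (.br (nat_lit 0x200300700e000400600e01c540) k348 k349)) (.br (nat_lit 0x2003007010000400600e020540) k350 (.br (nat_lit 0x2003007011000400600e022540)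 k351 k352)))) (.br (nat_lit 0x2003007018000400600e030540) (.br (nat_lit 0x2003007015000400600e02a540) (.br (nat_lit 0x2003007013000400600e026540) k353 (.br (nat_lit 0x2003007014000400600e028540) k354 k355)) (.br (nat_lit 0x2003007016000400600e02c540) k356 (.br (nat_lit 0x2003007017000400600e02e540) k357 k358))) (.br (nat_lit 0x4000003007010800000600e020411) (.br (nat_lit 0x1000003007019200000600e032411) k359 (.br (nat_lit 0x100200300700b200400600e016650) k360 k361)) (.br (nat_lit 0x6000003007018c00000600e030411) k362 (.br (nat_lit 0x600000200300700c00040060cf818511) k363 k364)))))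
noncomputable def u18 : KT := (.br (Nat.shiftLeft (nat_lit 0x1803809) (nat_lit 65)) (.br (Nat.shiftLeft (nat_lit 0x1803807) (nat_lit 65)) (.br (Nat.shiftLeft (nat_lit 0xc01c03) (nat_lit 66)) (.br (Nat.shiftLeft (nat_lit 0x300700b) (nat_lit 64)) (.one (nat_lit 0x300700a000000600e014430)) (.one (nat_lit 0x300700b000000600e016430))) (.br (Nat.shiftLeft (nat_lit 0x300700d) (nat_lit 64)) (.one (nat_lit 0x300700c000000600e018430)) (.one (nat_lit 0x300700d000000600e01a430)))) (.br (Nat.shiftLeft (nat_lit 0x300701) (nat_lit 68)) (.br (Nat.shiftLeft (nat_lit 0x300700f) (nat_lit 64)) (.one (nat_lit 0x300700e000000600e01c430)) (.one (nat_lit 0x300700f000000600e01e430))) (.br (Nat.shiftLeft (nat_lit 0x3007011) (nat_lit 64)) (.one (nat_lit 0x3007010000000600e020430)) (.one (nat_lit 0x3007011000000600e022430))))) (.br (Nat.shiftLeft (nat_lit 0x180380b) (nat_lit 65)) (.br (Nat.shiftLeft (nat_lit 0xc01c05) (nat_lit 66)) (.br (Nat.shiftLeft (nat_lit 0x3007013) (nat_lit 64)) (.one (nat_lit 0x3007012000000600e024430))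 (.one (nat_lit 0x3007013000000600e026430))) (.br (Nat.shiftLeft (nat_lit 0x3007015) (nat_lit 64)) (.one (nat_lit 0x3007014000000600e028430)) (.one (nat_lit 0x3007015000000600e02a430)))) (.br (Nat.shiftLeft (nat_lit 0x600e03) (nat_lit 67)) (.br (Nat.shiftLeft (nat_lit 0x3007017) (nat_lit 64)) (.one (nat_lit 0x3007016000000600e02c430)) (.one (nat_lit 0x3007017000000600e02e430))) (.br (Nat.shiftLeft (nat_lit 0x3007019) (nat_lit 64)) (.one (nat_lit 0x3007018000000600e030430)) (.one (nat_lit 0x3007019000000600e032430))))))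
def w18 : u18.all (wj 57 s18) = true := by decide +kernel
def o18 : OkW 57 (jb2 57 fl) u18 := .lift s18 _ (.br _ _ _ (.br _ _ _ (.br _ _ _ (.br _ _ _ (.leaf b0 k342 t342) (.leaf b0 k343 t343)) (.br _ _ _ (.leaf b0 k344 t344) (.br _ _ _ (.leaf b0 k345 t345) (.leaf b347 k346 t346)))) (.br _ _ _ (.br _ _ _ (.leaf b0 k347 t347) (.br _ _ _ (.leaf b0 k348 t348) (.leaf b0 k349 t349))) (.br _ _ _ (.leaf b0 k350 t350) (.br _ _ _ (.leaf b0 k351 t351) (.leaf b0 k352 t352))))) (.br _ _ _ (.br _ _ _ (.br _ _ _ (.leaf b0 k353 t353) (.br _ _ _ (.leaf b0 k354 t354) (.leaf b0 k355 t355))) (.br _ _ _ (.leaf b0 k356 t356) (.br _ _ _ (.leaf b0 k357 t357) (.leaf b0 k358 t358)))) (.br _ _ _ (.br _ _ _ (.leaf b0 k359 t359) (.br _ _ _ (.leaf b361 k360 t360) (.leaf b0 k361 t361))) (.br _ _ _ (.leaf b0 k362 t362) (.br _ _ _ (.leaf b0 k363 t363) (.leaf b0 k364 t364)))))) w18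
noncomputable def k365 : KT := (.br (Nat.shiftLeft (nat_lit 0x801804005) (nat_lit 65)) (.br (Nat.shiftLeft (nat_lit 0x1) (nat_lit 100)) (.one (nat_lit 0x3008015000000601002b400)) (.one (nat_lit 0x10030080090002006010012540))) (.br (Nat.shiftLeft (nat_lit 0x100300800b) (nat_lit 64)) (.one (nat_lit 0x100300800a0002006010014540)) (.one (nat_lit 0x100300800b0002006010016540))))
def t365 : k365.all (jb2 57 fl b0) = true := by decide +kernel
noncomputable def k366 : KT := (.br (Nat.shiftLeft (nat_lit 0x100300800d) (nat_lit 64)) (.one (nat_lit 0x100300800c0002006010018540)) (.one (nat_lit 0x100300800d000200601001a540)))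
def t366 : k366.all (jb2 57 fl b0) = true := by decide +kernel
noncomputable def k367 : KT := (.br (Nat.shiftLeft (nat_lit 0x100300800f) (nat_lit 64)) (.one (nat_lit 0x100300800e000200601001c540)) (.br (Nat.shiftLeft (nat_lit 0x100300801) (nat_lit 68)) (.one (nat_lit 0x100300800f000200601001e540)) (.one (nat_lit 0x10030080100002006010020540))))
def t367 : k367.all (jb2 57 fl b0) = true := by decide +kernel
noncomputable def k368 : KT := (.br (Nat.shiftLeft (nat_lit 0x801804009) (nat_lit 65)) (.one (nat_lit 0x10030080110002006010022540)) (.br (Nat.shiftLeft (nat_lit 0x1003008013) (nat_lit 64)) (.one (nat_lit 0x10030080120002006010024540)) (.one (nat_lit 0x10030080130002006010026540))))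
def t368 : k368.all (jb2 57 fl b0) = true := by decide +kernel
noncomputable def k369 : KT := (.br (Nat.shiftLeft (nat_lit 0x1003008015) (nat_lit 64)) (.one (nat_lit 0x10030080140002006010028540)) (.one (nat_lit 0x1003008015000200601002a540)))
def t369 : k369.all (jb2 57 fl b0) = true := by decide +kernel
noncomputable def k370 : KT := (.br (Nat.shiftLeft (nat_lit 0x200300801) (nat_lit 68)) (.one (nat_lit 0x20030080090004006010012540)) (.one (nat_lit 0x20030080130004006010027500)))
def t370 : k370.all (jb2 57 fl b0) = true := by decide +kernel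
noncomputable def k371 : KT := (.one (nat_lit 0x20030080140004006010028540))
def t371 : k371.all (jb2 57 fl b0) = true := by decide +kernel
noncomputable def k372 : KT := (.br (Nat.shiftLeft (nat_lit 0x100000300800f) (nat_lit 64)) (.br (Nat.shiftLeft (nat_lit 0x100000300800b) (nat_lit 64)) (.br (Nat.shiftLeft (nat_lit 0x1) (nat_lit 112)) (.one (nat_lit 0x2003008015000400601002a540)) (.br (Nat.shiftLeft (nat_lit 0x800001804005) (nat_lit 65)) (.one (nat_lit 0x10000030080092000006010012411)) (.one (nat_lit 0x100000300800a2000006010014411)))) (.br (Nat.shiftLeft (nat_lit 0x100000300800d) (nat_lit 64)) (.br (Nat.shiftLeft (nat_lit 0x400000c02003) (nat_lit 66)) (.one (nat_lit 0x100000300800b2000006010016411)) (.one (nat_lit 0x100000300800c2000006010018411))) (.br (Nat.shiftLeft (nat_lit 0x800001804007) (nat_lit 65)) (.one (nat_lit 0x100000300800d200000601001a411)) (.one (nat_lit 0x100000300800e200000601001c411))))) (.br (Nat.shiftLeft (nat_lit 0x800001804009) (nat_lit 65)) (.br (Nat.shiftLeft (nat_lit 0x100000300801)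 (nat_lit 68)) (.one (nat_lit 0x100000300800f200000601001e411)) (.br (Nat.shiftLeft (nat_lit 0x1000003008011) (nat_lit 64)) (.one (nat_lit 0x10000030080102000006010020411)) (.one (nat_lit 0x10000030080112000006010022411)))) (.br (Nat.shiftLeft (nat_lit 0x400000c02005) (nat_lit 66)) (.br (Nat.shiftLeft (nat_lit 0x1000003008013) (nat_lit 64)) (.one (nat_lit 0x10000030080122000006010024411)) (.one (nat_lit 0x10000030080132000006010026411))) (.br (Nat.shiftLeft (nat_lit 0x1000003008015) (nat_lit 64)) (.one (nat_lit 0x10000030080142000006010028411)) (.one (nat_lit 0x1000003008015200000601002a411))))))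
def t372 : k372.all (jb2 57 fl b0) = true := by decide +kernel
noncomputable def k373 : KT := (.one (nat_lit 0x100200300800a2004006010014650))
def t373 : k373.all (jb2 57 fl b0) = true := by decide +kernel
noncomputable def k374 : KT := (.one (nat_lit 0x100200300800b2004006010016650))
def t374 : k374.all (jb2 57 fl b0) = true := by decide +kernel
noncomputable def k375 : KT := (.one (nat_lit 0x100200300800c2004006010018650))
noncomputable def b376 : BT := .node (nat_lit 0x1) (nat_lit 0x4e625d92e8003a99000cb6010008700028) .leaf .leaf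
def t375 : k375.all (jb2 57 fl b376) = true := by decide +kernel
noncomputable def k376 : KT := (.one (nat_lit 0x100200300800d200400601001a650))
def t376 : k376.all (jb2 57 fl b0) = true := by decide +kernel
noncomputable def k377 : KT := (.one (nat_lit 0x100200300800e200400601001c650))
def t377 : k377.all (jb2 57 fl b0) = true := by decide +kernel
noncomputable def k378 : KT := (.one (nat_lit 0x100200300800f200400601001e650))
def t378 : k378.all (jb2 57 fl b0) = true := by decide +kernel
noncomputable def k379 : KT := (.one (nat_lit 0x10020030080102004006010020650))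
def t379 : k379.all (jb2 57 fl b0) = true := by decide +kernel
noncomputable def k380 : KT := (.one (nat_lit 0x10020030080112004006010022650))
def t380 : k380.all (jb2 57 fl b0) = true := by decide +kernel
noncomputable def k381 : KT := (.one (nat_lit 0x10020030080122004006010024650))
def t381 : k381.all (jb2 57 fl b0) = true := by decide +kernel
noncomputable def k382 : KT := (.br (Nat.shiftLeft (nat_lit 0x300000300800f) (nat_lit 64)) (.br (Nat.shiftLeft (nat_lit 0x1000001804009) (nat_lit 65)) (.br (Nat.shiftLeft (nat_lit 0x200000300800d) (nat_lit 64)) (.br (Nat.shiftLeft (nat_lit 0x1000001804005) (nat_lit 65)) (.br (Nat.shiftLeft (nat_lit 0x1) (nat_lit 113)) (.one (nat_lit 0x10020030080132004006010026650)) (.one (nat_lit 0x20000030080094000006010012411))) (.br (Nat.shiftLeft (nat_lit 0x200000300800b) (nat_lit 64)) (.one (nat_lit 0x200000300800a4000006010014411)) (.br (Nat.shiftLeft (nat_lit 0x800000c02003) (nat_lit 66)) (.one (nat_lit 0x200000300800b4000006010016411)) (.one (nat_lit 0x200000300800c4000006010018411)))))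 (.br (Nat.shiftLeft (nat_lit 0x200000300800f) (nat_lit 64)) (.br (Nat.shiftLeft (nat_lit 0x1000001804007) (nat_lit 65)) (.one (nat_lit 0x200000300800d400000601001a411)) (.one (nat_lit 0x200000300800e400000601001c411))) (.br (Nat.shiftLeft (nat_lit 0x200000300801) (nat_lit 68)) (.one (nat_lit 0x200000300800f400000601001e411)) (.br (Nat.shiftLeft (nat_lit 0x2000003008011) (nat_lit 64)) (.one (nat_lit 0x20000030080104000006010020411)) (.one (nat_lit 0x20000030080114000006010022411)))))) (.br (Nat.shiftLeft (nat_lit 0x1800001804005) (nat_lit 65)) (.br (Nat.shiftLeft (nat_lit 0x800000c02005) (nat_lit 66)) (.br (Nat.shiftLeft (nat_lit 0x2000003008013) (nat_lit 64)) (.one (nat_lit 0x20000030080124000006010024411)) (.one (nat_lit 0x20000030080134000006010026411))) (.br (Nat.shiftLeft (nat_lit 0x2000003008015) (nat_lit 64)) (.one (nat_lit 0x20000030080144000006010028411)) (.br (Nat.shiftLeft (nat_lit 0x3) (nat_lit 112)) (.one (nat_lit 0x2000003008015400000601002a411)) (.one (nat_lit 0x30000030080096000006010012411)))))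 (.br (Nat.shiftLeft (nat_lit 0xc00000c02003) (nat_lit 66)) (.br (Nat.shiftLeft (nat_lit 0x300000300800b) (nat_lit 64)) (.one (nat_lit 0x300000300800a6000006010014411)) (.one (nat_lit 0x300000300800b6000006010016411))) (.br (Nat.shiftLeft (nat_lit 0x300000300800d) (nat_lit 64)) (.one (nat_lit 0x300000300800c6000006010018411)) (.br (Nat.shiftLeft (nat_lit 0x1800001804007) (nat_lit 65)) (.one (nat_lit 0x300000300800d600000601001a411)) (.one (nat_lit 0x300000300800e600000601001c411))))))) (.br (Nat.shiftLeft (nat_lit 0x1000000c02003) (nat_lit 66)) (.br (Nat.shiftLeft (nat_lit 0xc00000c02005) (nat_lit 66)) (.br (Nat.shiftLeft (nat_lit 0x3000003008011) (nat_lit 64)) (.br (Nat.shiftLeft (nat_lit 0x300000300801) (nat_lit 68)) (.one (nat_lit 0x300000300800f600000601001e411)) (.one (nat_lit 0x30000030080106000006010020411))) (.br (Nat.shiftLeft (nat_lit 0x1800001804009) (nat_lit 65)) (.one (nat_lit 0x30000030080116000006010022411)) (.br (Nat.shiftLeft (nat_lit 0x3000003008013) (nat_lit 64)) (.one (nat_lit 0x30000030080126000006010024411))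 (.one (nat_lit 0x30000030080136000006010026411))))) (.br (Nat.shiftLeft (nat_lit 0x1) (nat_lit 114)) (.br (Nat.shiftLeft (nat_lit 0x3000003008015) (nat_lit 64)) (.one (nat_lit 0x30000030080146000006010028411)) (.one (nat_lit 0x3000003008015600000601002a411))) (.br (Nat.shiftLeft (nat_lit 0x2000001804005) (nat_lit 65)) (.one (nat_lit 0x40000030080098000006010012411)) (.br (Nat.shiftLeft (nat_lit 0x400000300800b) (nat_lit 64)) (.one (nat_lit 0x400000300800a8000006010014411)) (.one (nat_lit 0x400000300800b8000006010016411)))))) (.br (Nat.shiftLeft (nat_lit 0x4000003008011) (nat_lit 64)) (.br (Nat.shiftLeft (nat_lit 0x2000001804007) (nat_lit 65)) (.br (Nat.shiftLeft (nat_lit 0x400000300800d) (nat_lit 64)) (.one (nat_lit 0x400000300800c8000006010018411)) (.one (nat_lit 0x400000300800d800000601001a411))) (.br (Nat.shiftLeft (nat_lit 0x400000300800f) (nat_lit 64)) (.one (nat_lit 0x400000300800e800000601001c411)) (.br (Nat.shiftLeft (nat_lit 0x400000300801) (nat_lit 68)) (.one (nat_lit 0x400000300800f800000601001e411))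 (.one (nat_lit 0x40000030080108000006010020411))))) (.br (Nat.shiftLeft (nat_lit 0x4000003008013) (nat_lit 64)) (.br (Nat.shiftLeft (nat_lit 0x2000001804009) (nat_lit 65)) (.one (nat_lit 0x40000030080118000006010022411)) (.one (nat_lit 0x40000030080128000006010024411))) (.br (Nat.shiftLeft (nat_lit 0x1000000c02005) (nat_lit 66)) (.one (nat_lit 0x40000030080138000006010026411)) (.br (Nat.shiftLeft (nat_lit 0x4000003008015) (nat_lit 64)) (.one (nat_lit 0x40000030080148000006010028411)) (.one (nat_lit 0x4000003008015800000601002a411))))))))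
def t382 : k382.all (jb2 57 fl b0) = true := by decide +kernel
noncomputable def k383 : KT := (.br (Nat.shiftLeft (nat_lit 0x600000300801) (nat_lit 68)) (.br (Nat.shiftLeft (nat_lit 0x5000003008013) (nat_lit 64)) (.br (Nat.shiftLeft (nat_lit 0x2800001804007) (nat_lit 65)) (.br (Nat.shiftLeft (nat_lit 0x500000300800b) (nat_lit 64)) (.br (Nat.shiftLeft (nat_lit 0x2800001804005) (nat_lit 65)) (.one (nat_lit 0x5000003008009a000006010012411)) (.one (nat_lit 0x500000300800aa000006010014411))) (.br (Nat.shiftLeft (nat_lit 0x1400000c02003) (nat_lit 66)) (.one (nat_lit 0x500000300800ba000006010016411)) (.br (Nat.shiftLeft (nat_lit 0x500000300800d) (nat_lit 64)) (.one (nat_lit 0x500000300800ca000006010018411)) (.one (nat_lit 0x500000300800da00000601001a411))))) (.br (Nat.shiftLeft (nat_lit 0x500000300801) (nat_lit 68)) (.br (Nat.shiftLeft (nat_lit 0x500000300800f) (nat_lit 64)) (.one (nat_lit 0x500000300800ea00000601001c411)) (.one (nat_lit 0x500000300800fa00000601001e411))) (.br (Nat.shiftLeft (nat_lit 0x5000003008011)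 (nat_lit 64)) (.one (nat_lit 0x5000003008010a000006010020411)) (.br (Nat.shiftLeft (nat_lit 0x2800001804009) (nat_lit 65)) (.one (nat_lit 0x5000003008011a000006010022411)) (.one (nat_lit 0x5000003008012a000006010024411)))))) (.br (Nat.shiftLeft (nat_lit 0x600000300800b) (nat_lit 64)) (.br (Nat.shiftLeft (nat_lit 0x5000003008015) (nat_lit 64)) (.br (Nat.shiftLeft (nat_lit 0x1400000c02005) (nat_lit 66)) (.one (nat_lit 0x5000003008013a000006010026411)) (.one (nat_lit 0x5000003008014a000006010028411))) (.br (Nat.shiftLeft (nat_lit 0x3) (nat_lit 113)) (.one (nat_lit 0x5000003008015a00000601002a411)) (.br (Nat.shiftLeft (nat_lit 0x3000001804005) (nat_lit 65)) (.one (nat_lit 0x6000003008009c000006010012411)) (.one (nat_lit 0x600000300800ac000006010014411))))) (.br (Nat.shiftLeft (nat_lit 0x600000300800d) (nat_lit 64)) (.br (Nat.shiftLeft (nat_lit 0x1800000c02003) (nat_lit 66)) (.one (nat_lit 0x600000300800bc000006010016411)) (.one (nat_lit 0x600000300800cc000006010018411))) (.br (Nat.shiftLeft (nat_lit 0x3000001804007)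 (nat_lit 65)) (.one (nat_lit 0x600000300800dc00000601001a411)) (.br (Nat.shiftLeft (nat_lit 0x600000300800f) (nat_lit 64)) (.one (nat_lit 0x600000300800ec00000601001c411)) (.one (nat_lit 0x600000300800fc00000601001e411))))))) (.br (Nat.shiftLeft (nat_lit 0x700000300800d) (nat_lit 64)) (.br (Nat.shiftLeft (nat_lit 0x6000003008015) (nat_lit 64)) (.br (Nat.shiftLeft (nat_lit 0x3000001804009) (nat_lit 65)) (.br (Nat.shiftLeft (nat_lit 0x6000003008011) (nat_lit 64)) (.one (nat_lit 0x6000003008010c000006010020411)) (.one (nat_lit 0x6000003008011c000006010022411))) (.br (Nat.shiftLeft (nat_lit 0x6000003008013) (nat_lit 64)) (.one (nat_lit 0x6000003008012c000006010024411)) (.br (Nat.shiftLeft (nat_lit 0x1800000c02005) (nat_lit 66)) (.one (nat_lit 0x6000003008013c000006010026411)) (.one (nat_lit 0x6000003008014c000006010028411))))) (.br (Nat.shiftLeft (nat_lit 0x3800001804005) (nat_lit 65)) (.br (Nat.shiftLeft (nat_lit 0x7) (nat_lit 112)) (.one (nat_lit 0x6000003008015c00000601002a411)) (.one (nat_lit 0x7000003008009e000006010012411)))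 (.br (Nat.shiftLeft (nat_lit 0x700000300800b) (nat_lit 64)) (.one (nat_lit 0x700000300800ae000006010014411)) (.br (Nat.shiftLeft (nat_lit 0x1c00000c02003) (nat_lit 66)) (.one (nat_lit 0x700000300800be000006010016411)) (.one (nat_lit 0x700000300800ce000006010018411)))))) (.br (Nat.shiftLeft (nat_lit 0x3800001804009) (nat_lit 65)) (.br (Nat.shiftLeft (nat_lit 0x700000300800f) (nat_lit 64)) (.br (Nat.shiftLeft (nat_lit 0x3800001804007) (nat_lit 65)) (.one (nat_lit 0x700000300800de00000601001a411)) (.one (nat_lit 0x700000300800ee00000601001c411))) (.br (Nat.shiftLeft (nat_lit 0x700000300801) (nat_lit 68)) (.one (nat_lit 0x700000300800fe00000601001e411)) (.br (Nat.shiftLeft (nat_lit 0x7000003008011) (nat_lit 64)) (.one (nat_lit 0x7000003008010e000006010020411)) (.one (nat_lit 0x7000003008011e000006010022411))))) (.br (Nat.shiftLeft (nat_lit 0x1c00000c02005) (nat_lit 66)) (.br (Nat.shiftLeft (nat_lit 0x7000003008013) (nat_lit 64)) (.one (nat_lit 0x7000003008012e000006010024411)) (.one (nat_lit 0x7000003008013e000006010026411)))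 (.br (Nat.shiftLeft (nat_lit 0x7000003008015) (nat_lit 64)) (.one (nat_lit 0x7000003008014e000006010028411)) (.br (Nat.shiftLeft (nat_lit 0x1) (nat_lit 115)) (.one (nat_lit 0x7000003008015e00000601002a411)) (.one (nat_lit 0x80000030080090000006010114411))))))))
def t383 : k383.all (jb2 57 fl b0) = true := by decide +kernel
noncomputable def k384 : KT := (.br (Nat.shiftLeft (nat_lit 0x800001001804009) (nat_lit 65)) (.br (Nat.shiftLeft (nat_lit 0x2000000c02005) (nat_lit 66)) (.br (Nat.shiftLeft (nat_lit 0x800000300800f) (nat_lit 64)) (.br (Nat.shiftLeft (nat_lit 0x2000000c02003) (nat_lit 66)) (.br (Nat.shiftLeft (nat_lit 0x800000300800b) (nat_lit 64)) (.one (nat_lit 0x800000300800a0000006010116411)) (.one (nat_lit 0x800000300800b0000006010118411))) (.br (Nat.shiftLeft (nat_lit 0x800000300800d) (nat_lit 64)) (.one (nat_lit 0x800000300800c000000601011a411)) (.br (Nat.shiftLeft (nat_lit 0x4000001804007) (nat_lit 65)) (.one (nat_lit 0x800000300800d000000601011c411)) (.one (nat_lit 0x800000300800e000000601011e411)))))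 (.br (Nat.shiftLeft (nat_lit 0x8000003008011) (nat_lit 64)) (.br (Nat.shiftLeft (nat_lit 0x800000300801) (nat_lit 68)) (.one (nat_lit 0x800000300800f0000006010120411)) (.one (nat_lit 0x80000030080100000006010122411))) (.br (Nat.shiftLeft (nat_lit 0x4000001804009) (nat_lit 65)) (.one (nat_lit 0x80000030080110000006010124411)) (.br (Nat.shiftLeft (nat_lit 0x8000003008013) (nat_lit 64)) (.one (nat_lit 0x80000030080120000006010126411)) (.one (nat_lit 0x80000030080130000006010128411)))))) (.br (Nat.shiftLeft (nat_lit 0x100000200300800d) (nat_lit 64)) (.br (Nat.shiftLeft (nat_lit 0x1) (nat_lit 124)) (.br (Nat.shiftLeft (nat_lit 0x8000003008015) (nat_lit 64)) (.one (nat_lit 0x8000003008014000000601012a411)) (.one (nat_lit 0x8000003008015000000601012c411))) (.br (Nat.shiftLeft (nat_lit 0x100000200300800b) (nat_lit 64)) (.one (nat_lit 0x100000200300800a0004006030414511)) (.br (Nat.shiftLeft (nat_lit 0x400000800c02003) (nat_lit 66)) (.one (nat_lit 0x100000200300800b0004006030416511)) (.one (nat_lit 0x100000200300800c0004006030418511)))))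 (.br (Nat.shiftLeft (nat_lit 0x100000200300800f) (nat_lit 64)) (.br (Nat.shiftLeft (nat_lit 0x800001001804007) (nat_lit 65)) (.one (nat_lit 0x100000200300800d000400603041a511)) (.one (nat_lit 0x100000200300800e000400603041c511))) (.br (Nat.shiftLeft (nat_lit 0x100000200300801) (nat_lit 68)) (.one (nat_lit 0x100000200300800f000400603041e511)) (.br (Nat.shiftLeft (nat_lit 0x1000002003008011) (nat_lit 64)) (.one (nat_lit 0x10000020030080100004006030420511)) (.one (nat_lit 0x10000020030080110004006030422511))))))) (.br (Nat.shiftLeft (nat_lit 0x1000001001804009) (nat_lit 65)) (.br (Nat.shiftLeft (nat_lit 0x200000200300800d) (nat_lit 64)) (.br (Nat.shiftLeft (nat_lit 0x1) (nat_lit 125)) (.br (Nat.shiftLeft (nat_lit 0x1000002003008013) (nat_lit 64)) (.one (nat_lit 0x10000020030080120004006030424511)) (.one (nat_lit 0x10000020030080130004006030426511))) (.br (Nat.shiftLeft (nat_lit 0x200000200300800b) (nat_lit 64)) (.one (nat_lit 0x200000200300800a0004006050814511)) (.br (Nat.shiftLeft (nat_lit 0x800000800c02003)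 (nat_lit 66)) (.one (nat_lit 0x200000200300800b0004006050816511)) (.one (nat_lit 0x200000200300800c0004006050818511))))) (.br (Nat.shiftLeft (nat_lit 0x200000200300800f) (nat_lit 64)) (.br (Nat.shiftLeft (nat_lit 0x1000001001804007) (nat_lit 65)) (.one (nat_lit 0x200000200300800d000400605081a511)) (.one (nat_lit 0x200000200300800e000400605081c511))) (.br (Nat.shiftLeft (nat_lit 0x200000200300801) (nat_lit 68)) (.one (nat_lit 0x200000200300800f000400605081e511)) (.br (Nat.shiftLeft (nat_lit 0x2000002003008011) (nat_lit 64)) (.one (nat_lit 0x20000020030080100004006050820511)) (.one (nat_lit 0x20000020030080110004006050822511)))))) (.br (Nat.shiftLeft (nat_lit 0x300000200300800d) (nat_lit 64)) (.br (Nat.shiftLeft (nat_lit 0x3) (nat_lit 124)) (.br (Nat.shiftLeft (nat_lit 0x2000002003008013) (nat_lit 64)) (.one (nat_lit 0x20000020030080120004006050824511)) (.one (nat_lit 0x20000020030080130004006050826511))) (.br (Nat.shiftLeft (nat_lit 0x300000200300800b) (nat_lit 64)) (.one (nat_lit 0x300000200300800a0004006070c14511))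 (.br (Nat.shiftLeft (nat_lit 0xc00000800c02003) (nat_lit 66)) (.one (nat_lit 0x300000200300800b0004006070c16511)) (.one (nat_lit 0x300000200300800c0004006070c18511))))) (.br (Nat.shiftLeft (nat_lit 0x300000200300800f) (nat_lit 64)) (.br (Nat.shiftLeft (nat_lit 0x1800001001804007) (nat_lit 65)) (.one (nat_lit 0x300000200300800d0004006070c1a511)) (.one (nat_lit 0x300000200300800e0004006070c1c511))) (.br (Nat.shiftLeft (nat_lit 0x300000200300801) (nat_lit 68)) (.one (nat_lit 0x300000200300800f0004006070c1e511)) (.br (Nat.shiftLeft (nat_lit 0x3000002003008011) (nat_lit 64)) (.one (nat_lit 0x30000020030080100004006070c20511)) (.one (nat_lit 0x30000020030080110004006070c22511))))))))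
def t384 : k384.all (jb2 57 fl b0) = true := by decide +kernel
noncomputable def k385 : KT := (.br (Nat.shiftLeft (nat_lit 0x400000200300800f) (nat_lit 64)) (.br (Nat.shiftLeft (nat_lit 0x400000200300800b) (nat_lit 64)) (.br (Nat.shiftLeft (nat_lit 0x3000002003008013) (nat_lit 64)) (.one (nat_lit 0x30000020030080120004006070c24511)) (.br (Nat.shiftLeft (nat_lit 0x1) (nat_lit 126)) (.one (nat_lit 0x30000020030080130004006070c26511)) (.one (nat_lit 0x400000200300800a0004006091014511)))) (.br (Nat.shiftLeft (nat_lit 0x400000200300800d) (nat_lit 64)) (.br (Nat.shiftLeft (nat_lit 0x1000000800c02003) (nat_lit 66)) (.one (nat_lit 0x400000200300800b0004006091016511)) (.one (nat_lit 0x400000200300800c0004006091018511))) (.br (Nat.shiftLeft (nat_lit 0x2000001001804007) (nat_lit 65)) (.one (nat_lit 0x400000200300800d000400609101a511)) (.one (nat_lit 0x400000200300800e000400609101c511))))) (.br (Nat.shiftLeft (nat_lit 0x4000002003008013) (nat_lit 64)) (.br (Nat.shiftLeft (nat_lit 0x4000002003008011) (nat_lit 64))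 (.br (Nat.shiftLeft (nat_lit 0x400000200300801) (nat_lit 68)) (.one (nat_lit 0x400000200300800f000400609101e511)) (.one (nat_lit 0x40000020030080100004006091020511))) (.br (Nat.shiftLeft (nat_lit 0x2000001001804009) (nat_lit 65)) (.one (nat_lit 0x40000020030080110004006091022511)) (.one (nat_lit 0x40000020030080120004006091024511)))) (.br (Nat.shiftLeft (nat_lit 0x500000200300800b) (nat_lit 64)) (.br (Nat.shiftLeft (nat_lit 0x5) (nat_lit 124)) (.one (nat_lit 0x40000020030080130004006091026511)) (.one (nat_lit 0x500000200300800a00040060b1414511))) (.br (Nat.shiftLeft (nat_lit 0x1400000800c02003) (nat_lit 66)) (.one (nat_lit 0x500000200300800b00040060b1416511)) (.one (nat_lit 0x500000200300800c00040060b1418511))))))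
def t385 : k385.all (jb2 57 fl b0) = true := by decide +kernel
noncomputable def k386 : KT := (.br (Nat.shiftLeft (nat_lit 0x2800001001804009) (nat_lit 65)) (.br (Nat.shiftLeft (nat_lit 0x500000200300800f) (nat_lit 64)) (.br (Nat.shiftLeft (nat_lit 0x2800001001804007) (nat_lit 65)) (.one (nat_lit 0x500000200300800d00040060b141a511)) (.one (nat_lit 0x500000200300800e00040060b141c511))) (.br (Nat.shiftLeft (nat_lit 0x500000200300801) (nat_lit 68)) (.one (nat_lit 0x500000200300800f00040060b141e511)) (.br (Nat.shiftLeft (nat_lit 0x5000002003008011) (nat_lit 64)) (.one (nat_lit 0x500000200300801000040060b1420511)) (.one (nat_lit 0x500000200300801100040060b1422511))))) (.br (Nat.shiftLeft (nat_lit 0x600000200300800b) (nat_lit 64)) (.br (Nat.shiftLeft (nat_lit 0x5000002003008013) (nat_lit 64)) (.one (nat_lit 0x500000200300801200040060b1424511)) (.br (Nat.shiftLeft (nat_lit 0x3) (nat_lit 125)) (.one (nat_lit 0x500000200300801300040060b1426511)) (.one (nat_lit 0x600000200300800a00040060d1814511)))) (.br (Nat.shiftLeft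 (nat_lit 0x1800000800c02003) (nat_lit 66)) (.one (nat_lit 0x600000200300800b00040060d1816511)) (.br (Nat.shiftLeft (nat_lit 0x600000200300800d) (nat_lit 64)) (.one (nat_lit 0x600000200300800c00040060d1818511)) (.one (nat_lit 0x600000200300800d00040060d181a511))))))
def t386 : k386.all (jb2 57 fl b0) = true := by decide +kernel
noncomputable def k387 : KT := (.br (Nat.shiftLeft (nat_lit 0x6000002003008013) (nat_lit 64)) (.br (Nat.shiftLeft (nat_lit 0x600000200300801) (nat_lit 68)) (.br (Nat.shiftLeft (nat_lit 0x600000200300800f) (nat_lit 64)) (.one (nat_lit 0x600000200300800e00040060d181c511)) (.one (nat_lit 0x600000200300800f00040060d181e511))) (.br (Nat.shiftLeft (nat_lit 0x6000002003008011) (nat_lit 64)) (.one (nat_lit 0x600000200300801000040060d1820511)) (.br (Nat.shiftLeft (nat_lit 0x3000001001804009) (nat_lit 65)) (.one (nat_lit 0x600000200300801100040060d1822511)) (.one (nat_lit 0x600000200300801200040060d1824511))))) (.br (Nat.shiftLeft (nat_lit 0x700000200300800b) (nat_lit 64)) (.br (Nat.shiftLeft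 (nat_lit 0x7) (nat_lit 124)) (.one (nat_lit 0x600000200300801300040060d1826511)) (.one (nat_lit 0x700000200300800a00040060f1c14511))) (.br (Nat.shiftLeft (nat_lit 0x1c00000800c02003) (nat_lit 66)) (.one (nat_lit 0x700000200300800b00040060f1c16511)) (.br (Nat.shiftLeft (nat_lit 0x700000200300800d) (nat_lit 64)) (.one (nat_lit 0x700000200300800c00040060f1c18511)) (.one (nat_lit 0x700000200300800d00040060f1c1a511))))))
def t387 : k387.all (jb2 57 fl b0) = true := by decide +kernel
noncomputable def k388 : KT := (.br (Nat.shiftLeft (nat_lit 0x3800001001804009) (nat_lit 65)) (.br (Nat.shiftLeft (nat_lit 0x700000200300801) (nat_lit 68)) (.br (Nat.shiftLeft (nat_lit 0x700000200300800f) (nat_lit 64)) (.one (nat_lit 0x700000200300800e00040060f1c1c511)) (.one (nat_lit 0x700000200300800f00040060f1c1e511))) (.br (Nat.shiftLeft (nat_lit 0x7000002003008011) (nat_lit 64)) (.one (nat_lit 0x700000200300801000040060f1c20511)) (.one (nat_lit 0x700000200300801100040060f1c22511)))) (.br (Nat.shiftLeft (nat_lit 0x1) (nat_lit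 127)) (.br (Nat.shiftLeft (nat_lit 0x7000002003008013) (nat_lit 64)) (.one (nat_lit 0x700000200300801200040060f1c24511)) (.one (nat_lit 0x700000200300801300040060f1c26511))) (.br (Nat.shiftLeft (nat_lit 0x800000200300800b) (nat_lit 64)) (.one (nat_lit 0x800000200300800a0004006112014511)) (.br (Nat.shiftLeft (nat_lit 0x2000000800c02003) (nat_lit 66)) (.one (nat_lit 0x800000200300800b0004006112016511)) (.one (nat_lit 0x800000200300800c0004006112018511))))))
def t388 : k388.all (jb2 57 fl b0) = true := by decide +kernel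
noncomputable def k389 : KT := (.br (Nat.shiftLeft (nat_lit 0x800000200300801) (nat_lit 68)) (.br (Nat.shiftLeft (nat_lit 0x4000001001804007) (nat_lit 65)) (.one (nat_lit 0x800000200300800d000400611201a511)) (.br (Nat.shiftLeft (nat_lit 0x800000200300800f) (nat_lit 64)) (.one (nat_lit 0x800000200300800e000400611201c511)) (.one (nat_lit 0x800000200300800f000400611201e511)))) (.br (Nat.shiftLeft (nat_lit 0x4000001001804009) (nat_lit 65)) (.br (Nat.shiftLeft (nat_lit 0x8000002003008011) (nat_lit 64)) (.one (nat_lit 0x80000020030080100004006112020511)) (.one (nat_lit 0x80000020030080110004006112022511))) (.br (Nat.shiftLeft (nat_lit 0x8000002003008013) (nat_lit 64)) (.one (nat_lit 0x80000020030080120004006112024511)) (.one (nat_lit 0x80000020030080130004006112026511)))))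
def t389 : k389.all (jb2 57 fl b0) = true := by decide +kernel
noncomputable def s19 : KT := (.br (nat_lit 0x100200300800d200400601001a650) (.br (nat_lit 0x20030080130004006010027500) (.br (nat_lit 0x10030080100002006010020540) (.br (nat_lit 0x100300800b0002006010016540) k365 (.br (nat_lit 0x100300800d000200601001a540) k366 k367)) (.br (nat_lit 0x10030080130002006010026540) k368 (.br (nat_lit 0x1003008015000200601002a540) k369 k370))) (.br (nat_lit 0x100200300800a2004006010014650) (.br (nat_lit 0x20030080140004006010028540) k371 (.br (nat_lit 0x1000003008015200000601002a411) k372 k373)) (.br (nat_lit 0x100200300800b2004006010016650) k374 (.br (nat_lit 0x100200300800c2004006010018650) k375 k376)))) (.br (nat_lit 0x4000003008015800000601002a411) (.br (nat_lit 0x10020030080102004006010020650) (.br (nat_lit 0x100200300800e200400601001c650) k377 (.br (nat_lit 0x100200300800f200400601001e650) k378 k379)) (.br (nat_lit 0x10020030080112004006010022650) k380 (.br (nat_lit 0x10020030080122004006010024650) k381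 k382))) (.br (nat_lit 0x500000200300800c00040060b1418511) (.br (nat_lit 0x80000030080090000006010114411) k383 (.br (nat_lit 0x30000020030080110004006070c22511) k384 k385)) (.br (nat_lit 0x700000200300800d00040060f1c1a511) (.br (nat_lit 0x600000200300800d00040060d181a511) k386 k387) (.br (nat_lit 0x800000200300800c0004006112018511) k388 k389)))))
noncomputable def u19 : KT := (.br (Nat.shiftLeft (nat_lit 0x300800f) (nat_lit 64)) (.br (Nat.shiftLeft (nat_lit 0xc02003) (nat_lit 66)) (.br (Nat.shiftLeft (nat_lit 0x1804005) (nat_lit 65)) (.one (nat_lit 0x30080090000006010012430)) (.br (Nat.shiftLeft (nat_lit 0x300800b) (nat_lit 64)) (.one (nat_lit 0x300800a0000006010014430)) (.one (nat_lit 0x300800b0000006010016430)))) (.br (Nat.shiftLeft (nat_lit 0x300800d) (nat_lit 64)) (.one (nat_lit 0x300800c0000006010018430)) (.br (Nat.shiftLeft (nat_lit 0x1804007) (nat_lit 65)) (.one (nat_lit 0x300800d000000601001a430)) (.one (nat_lit 0x300800e000000601001c430))))) (.br (Nat.shiftLeft (nat_lit 0x1804009) (nat_lit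 65)) (.br (Nat.shiftLeft (nat_lit 0x300801) (nat_lit 68)) (.one (nat_lit 0x300800f000000601001e430)) (.br (Nat.shiftLeft (nat_lit 0x3008011) (nat_lit 64)) (.one (nat_lit 0x30080100000006010020430)) (.one (nat_lit 0x30080110000006010022430)))) (.br (Nat.shiftLeft (nat_lit 0xc02005) (nat_lit 66)) (.br (Nat.shiftLeft (nat_lit 0x3008013) (nat_lit 64)) (.one (nat_lit 0x30080120000006010024430)) (.one (nat_lit 0x30080130000006010026430))) (.br (Nat.shiftLeft (nat_lit 0x3008015) (nat_lit 64)) (.one (nat_lit 0x30080140000006010028430)) (.one (nat_lit 0x3008015000000601002a430))))))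
def w19 : u19.all (wj 57 s19) = true := by decide +kernel
def o19 : OkW 57 (jb2 57 fl) u19 := .lift s19 _ (.br _ _ _ (.br _ _ _ (.br _ _ _ (.br _ _ _ (.leaf b0 k365 t365) (.br _ _ _ (.leaf b0 k366 t366) (.leaf b0 k367 t367))) (.br _ _ _ (.leaf b0 k368 t368) (.br _ _ _ (.leaf b0 k369 t369) (.leaf b0 k370 t370)))) (.br _ _ _ (.br _ _ _ (.leaf b0 k371 t371) (.br _ _ _ (.leaf b0 k372 t372) (.leaf b0 k373 t373))) (.br _ _ _ (.leaf b0 k374 t374) (.br _ _ _ (.leaf b376 k375 t375) (.leaf b0 k376 t376))))) (.br _ _ _ (.br _ _ _ (.br _ _ _ (.leaf b0 k377 t377) (.br _ _ _ (.leaf b0 k378 t378) (.leaf b0 k379 t379))) (.br _ _ _ (.leaf b0 k380 t380) (.br _ _ _ (.leaf b0 k381 t381) (.leaf b0 k382 t382)))) (.br _ _ _ (.br _ _ _ (.leaf b0 k383 t383) (.br _ _ _ (.leaf b0 k384 t384) (.leaf b0 k385 t385))) (.br _ _ _ (.br _ _ _ (.leaf b0 k386 t386) (.leaf b0 k387 t387)) (.br _ _ _ (.leaf b0 k388 t388) (.leaf b0 k389 t389)))))) w19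
noncomputable def k390 : KT := (.br (Nat.shiftLeft (nat_lit 0x180400d) (nat_lit 65)) (.br (Nat.shiftLeft (nat_lit 0x601003) (nat_lit 67)) (.br (Nat.shiftLeft (nat_lit 0x3008017) (nat_lit 64)) (.one (nat_lit 0x3008016000000601002d400)) (.one (nat_lit 0x3008017000000601002f400))) (.br (Nat.shiftLeft (nat_lit 0x3008019) (nat_lit 64)) (.one (nat_lit 0x30080180000006010031400)) (.one (nat_lit 0x30080190000006010033400)))) (.br (Nat.shiftLeft (nat_lit 0x1003008017) (nat_lit 64)) (.br (Nat.shiftLeft (nat_lit 0x1) (nat_lit 100)) (.one (nat_lit 0x300801a0000006010035400)) (.one (nat_lit 0x1003008016000200601002c540))) (.br (Nat.shiftLeft (nat_lit 0x200601003) (nat_lit 67)) (.one (nat_lit 0x1003008017000200601002e540)) (.one (nat_lit 0x10030080180002006010030540)))))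
def t390 : k390.all (jb2 57 fl b0) = true := by decide +kernel
noncomputable def k391 : KT := (.br (Nat.shiftLeft (nat_lit 0x80180400d) (nat_lit 65)) (.one (nat_lit 0x10030080190002006010032540)) (.br (Nat.shiftLeft (nat_lit 0x1003009) (nat_lit 76)) (.one (nat_lit 0x100300801a0002006010034540)) (.one (nat_lit 0x100300900a0002006012014540))))
def t391 : k391.all (jb2 57 fl b0) = true := by decide +kernel
noncomputable def k392 : KT := (.br (Nat.shiftLeft (nat_lit 0x400c02403) (nat_lit 66)) (.one (nat_lit 0x100300900b0002006012016540)) (.one (nat_lit 0x100300900c0002006012018540)))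
def t392 : k392.all (jb2 57 fl b0) = true := by decide +kernel
noncomputable def k393 : KT := (.br (Nat.shiftLeft (nat_lit 0x801804807) (nat_lit 65)) (.one (nat_lit 0x100300900d000200601201a540)) (.one (nat_lit 0x100300900e000200601201c540)))
def t393 : k393.all (jb2 57 fl b0) = true := by decide +kernel
noncomputable def k394 : KT := (.br (Nat.shiftLeft (nat_lit 0x100300901) (nat_lit 68)) (.one (nat_lit 0x100300900f000200601201e540)) (.one (nat_lit 0x10030090100002006012020540)))
def t394 : k394.all (jb2 57 fl b0) = true := by decide +kernel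
noncomputable def k395 : KT := (.one (nat_lit 0x2003008016000400601002c540))
def t395 : k395.all (jb2 57 fl b0) = true := by decide +kernel
noncomputable def k396 : KT := (.one (nat_lit 0x2003008017000400601002e540))
def t396 : k396.all (jb2 57 fl b0) = true := by decide +kernel
noncomputable def k397 : KT := (.one (nat_lit 0x20030080180004006010030540))
def t397 : k397.all (jb2 57 fl b0) = true := by decide +kernel
noncomputable def k398 : KT := (.one (nat_lit 0x20030080190004006010032540))
def t398 : k398.all (jb2 57 fl b0) = true := by decide +kernel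
noncomputable def k399 : KT := (.br (Nat.shiftLeft (nat_lit 0x1000003009) (nat_lit 76)) (.br (Nat.shiftLeft (nat_lit 0x200000601003) (nat_lit 67)) (.br (Nat.shiftLeft (nat_lit 0x1) (nat_lit 112)) (.one (nat_lit 0x200300801a0004006010034540)) (.br (Nat.shiftLeft (nat_lit 0x1000003008017) (nat_lit 64)) (.one (nat_lit 0x1000003008016200000601002c411)) (.one (nat_lit 0x1000003008017200000601002e411)))) (.br (Nat.shiftLeft (nat_lit 0x1000003008019) (nat_lit 64)) (.one (nat_lit 0x10000030080182000006010030411)) (.br (Nat.shiftLeft (nat_lit 0x80000180400d) (nat_lit 65)) (.one (nat_lit 0x10000030080192000006010032411)) (.one (nat_lit 0x100000300801a2000006010034411))))) (.br (Nat.shiftLeft (nat_lit 0x100000300900d) (nat_lit 64)) (.br (Nat.shiftLeft (nat_lit 0x100000300900b) (nat_lit 64)) (.one (nat_lit 0x100000300900a2000006012014411)) (.br (Nat.shiftLeft (nat_lit 0x400000c02403) (nat_lit 66)) (.one (nat_lit 0x100000300900b2000006012016411)) (.one (nat_lit 0x100000300900c2000006012018411)))) (.br (Nat.shiftLeft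 (nat_lit 0x100000300900f) (nat_lit 64)) (.br (Nat.shiftLeft (nat_lit 0x800001804807) (nat_lit 65)) (.one (nat_lit 0x100000300900d200000601201a411)) (.one (nat_lit 0x100000300900e200000601201c411))) (.br (Nat.shiftLeft (nat_lit 0x100000300901) (nat_lit 68)) (.one (nat_lit 0x100000300900f200000601201e411)) (.one (nat_lit 0x10000030090102000006012020411))))))
def t399 : k399.all (jb2 57 fl b0) = true := by decide +kernel
noncomputable def k400 : KT := (.one (nat_lit 0x100200300900a2004006012014650))
def t400 : k400.all (jb2 57 fl b0) = true := by decide +kernel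
noncomputable def k401 : KT := (.one (nat_lit 0x100200300900b2004006012016650))
def t401 : k401.all (jb2 57 fl b0) = true := by decide +kernel
noncomputable def k402 : KT := (.one (nat_lit 0x100200300900c2004006012018650))
def t402 : k402.all (jb2 57 fl b0) = true := by decide +kernel
noncomputable def k403 : KT := (.one (nat_lit 0x100200300900d200400601201a650))
def t403 : k403.all (jb2 57 fl b0) = true := by decide +kernel
noncomputable def k404 : KT := (.one (nat_lit 0x100200300900e200400601201c650))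
def t404 : k404.all (jb2 57 fl b0) = true := by decide +kernel
noncomputable def k405 : KT := (.one (nat_lit 0x100200300900f200400601201e650))
def t405 : k405.all (jb2 57 fl b0) = true := by decide +kernel
noncomputable def k406 : KT := (.br (Nat.shiftLeft (nat_lit 0x3) (nat_lit 112)) (.br (Nat.shiftLeft (nat_lit 0x2000003009) (nat_lit 76)) (.br (Nat.shiftLeft (nat_lit 0x400000601003) (nat_lit 67)) (.br (Nat.shiftLeft (nat_lit 0x1) (nat_lit 113)) (.one (nat_lit 0x10020030090102004006012020650)) (.br (Nat.shiftLeft (nat_lit 0x2000003008017) (nat_lit 64)) (.one (nat_lit 0x2000003008016400000601002c411)) (.one (nat_lit 0x2000003008017400000601002e411)))) (.br (Nat.shiftLeft (nat_lit 0x2000003008019) (nat_lit 64)) (.one (nat_lit 0x20000030080184000006010030411)) (.br (Nat.shiftLeft (nat_lit 0x100000180400d) (nat_lit 65)) (.one (nat_lit 0x20000030080194000006010032411)) (.one (nat_lit 0x200000300801a4000006010034411))))) (.br (Nat.shiftLeft (nat_lit 0x200000300900d) (nat_lit 64)) (.br (Nat.shiftLeft (nat_lit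 0x200000300900b) (nat_lit 64)) (.one (nat_lit 0x200000300900a4000006012014411)) (.br (Nat.shiftLeft (nat_lit 0x800000c02403) (nat_lit 66)) (.one (nat_lit 0x200000300900b4000006012016411)) (.one (nat_lit 0x200000300900c4000006012018411)))) (.br (Nat.shiftLeft (nat_lit 0x200000300900f) (nat_lit 64)) (.br (Nat.shiftLeft (nat_lit 0x1000001804807) (nat_lit 65)) (.one (nat_lit 0x200000300900d400000601201a411)) (.one (nat_lit 0x200000300900e400000601201c411))) (.br (Nat.shiftLeft (nat_lit 0x200000300901) (nat_lit 68)) (.one (nat_lit 0x200000300900f400000601201e411)) (.one (nat_lit 0x20000030090104000006012020411)))))) (.br (Nat.shiftLeft (nat_lit 0x300000300900b) (nat_lit 64)) (.br (Nat.shiftLeft (nat_lit 0x3000003008019) (nat_lit 64)) (.br (Nat.shiftLeft (nat_lit 0x3000003008017) (nat_lit 64)) (.one (nat_lit 0x3000003008016600000601002c411)) (.br (Nat.shiftLeft (nat_lit 0x600000601003) (nat_lit 67)) (.one (nat_lit 0x3000003008017600000601002e411)) (.one (nat_lit 0x30000030080186000006010030411)))) (.br (Nat.shiftLeft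 (nat_lit 0x180000180400d) (nat_lit 65)) (.one (nat_lit 0x30000030080196000006010032411)) (.br (Nat.shiftLeft (nat_lit 0x3000003009) (nat_lit 76)) (.one (nat_lit 0x300000300801a6000006010034411)) (.one (nat_lit 0x300000300900a6000006012014411))))) (.br (Nat.shiftLeft (nat_lit 0x1800001804807) (nat_lit 65)) (.br (Nat.shiftLeft (nat_lit 0xc00000c02403) (nat_lit 66)) (.one (nat_lit 0x300000300900b6000006012016411)) (.br (Nat.shiftLeft (nat_lit 0x300000300900d) (nat_lit 64)) (.one (nat_lit 0x300000300900c6000006012018411)) (.one (nat_lit 0x300000300900d600000601201a411)))) (.br (Nat.shiftLeft (nat_lit 0x300000300901) (nat_lit 68)) (.br (Nat.shiftLeft (nat_lit 0x300000300900f) (nat_lit 64)) (.one (nat_lit 0x300000300900e600000601201c411)) (.one (nat_lit 0x300000300900f600000601201e411))) (.br (Nat.shiftLeft (nat_lit 0x1) (nat_lit 114)) (.one (nat_lit 0x30000030090106000006012020411)) (.one (nat_lit 0x4000003008016800000601002c411)))))))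
def t406 : k406.all (jb2 57 fl b0) = true := by decide +kernel
noncomputable def k407 : KT := (.br (Nat.shiftLeft (nat_lit 0x2800001804807) (nat_lit 65)) (.br (Nat.shiftLeft (nat_lit 0x400000300901) (nat_lit 68)) (.br (Nat.shiftLeft (nat_lit 0x400000300900b) (nat_lit 64)) (.br (Nat.shiftLeft (nat_lit 0x4000003008019) (nat_lit 64)) (.br (Nat.shiftLeft (nat_lit 0x800000601003) (nat_lit 67)) (.one (nat_lit 0x4000003008017800000601002e411)) (.one (nat_lit 0x40000030080188000006010030411))) (.br (Nat.shiftLeft (nat_lit 0x200000180400d) (nat_lit 65)) (.one (nat_lit 0x40000030080198000006010032411)) (.br (Nat.shiftLeft (nat_lit 0x4000003009) (nat_lit 76)) (.one (nat_lit 0x400000300801a8000006010034411)) (.one (nat_lit 0x400000300900a8000006012014411))))) (.br (Nat.shiftLeft (nat_lit 0x400000300900d) (nat_lit 64)) (.br (Nat.shiftLeft (nat_lit 0x1000000c02403) (nat_lit 66)) (.one (nat_lit 0x400000300900b8000006012016411)) (.one (nat_lit 0x400000300900c8000006012018411))) (.br (Nat.shiftLeft (nat_lit 0x2000001804807)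 (nat_lit 65)) (.one (nat_lit 0x400000300900d800000601201a411)) (.br (Nat.shiftLeft (nat_lit 0x400000300900f) (nat_lit 64)) (.one (nat_lit 0x400000300900e800000601201c411)) (.one (nat_lit 0x400000300900f800000601201e411)))))) (.br (Nat.shiftLeft (nat_lit 0x280000180400d) (nat_lit 65)) (.br (Nat.shiftLeft (nat_lit 0x5000003008017) (nat_lit 64)) (.br (Nat.shiftLeft (nat_lit 0x5) (nat_lit 112)) (.one (nat_lit 0x40000030090108000006012020411)) (.one (nat_lit 0x5000003008016a00000601002c411))) (.br (Nat.shiftLeft (nat_lit 0xa00000601003) (nat_lit 67)) (.one (nat_lit 0x5000003008017a00000601002e411)) (.br (Nat.shiftLeft (nat_lit 0x5000003008019) (nat_lit 64)) (.one (nat_lit 0x5000003008018a000006010030411)) (.one (nat_lit 0x5000003008019a000006010032411))))) (.br (Nat.shiftLeft (nat_lit 0x500000300900b) (nat_lit 64)) (.br (Nat.shiftLeft (nat_lit 0x5000003009) (nat_lit 76)) (.one (nat_lit 0x500000300801aa000006010034411)) (.one (nat_lit 0x500000300900aa000006012014411))) (.br (Nat.shiftLeft (nat_lit 0x1400000c02403)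 (nat_lit 66)) (.one (nat_lit 0x500000300900ba000006012016411)) (.br (Nat.shiftLeft (nat_lit 0x500000300900d) (nat_lit 64)) (.one (nat_lit 0x500000300900ca000006012018411)) (.one (nat_lit 0x500000300900da00000601201a411))))))) (.br (Nat.shiftLeft (nat_lit 0x1800000c02403) (nat_lit 66)) (.br (Nat.shiftLeft (nat_lit 0xc00000601003) (nat_lit 67)) (.br (Nat.shiftLeft (nat_lit 0x500000300901) (nat_lit 68)) (.br (Nat.shiftLeft (nat_lit 0x500000300900f) (nat_lit 64)) (.one (nat_lit 0x500000300900ea00000601201c411)) (.one (nat_lit 0x500000300900fa00000601201e411))) (.br (Nat.shiftLeft (nat_lit 0x3) (nat_lit 113)) (.one (nat_lit 0x5000003009010a000006012020411)) (.br (Nat.shiftLeft (nat_lit 0x6000003008017) (nat_lit 64)) (.one (nat_lit 0x6000003008016c00000601002c411)) (.one (nat_lit 0x6000003008017c00000601002e411))))) (.br (Nat.shiftLeft (nat_lit 0x300000180400d) (nat_lit 65)) (.br (Nat.shiftLeft (nat_lit 0x6000003008019) (nat_lit 64)) (.one (nat_lit 0x6000003008018c000006010030411)) (.one (nat_lit 0x6000003008019c000006010032411)))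 (.br (Nat.shiftLeft (nat_lit 0x6000003009) (nat_lit 76)) (.one (nat_lit 0x600000300801ac000006010034411)) (.br (Nat.shiftLeft (nat_lit 0x600000300900b) (nat_lit 64)) (.one (nat_lit 0x600000300900ac000006012014411)) (.one (nat_lit 0x600000300900bc000006012016411)))))) (.br (Nat.shiftLeft (nat_lit 0x7) (nat_lit 112)) (.br (Nat.shiftLeft (nat_lit 0x3000001804807) (nat_lit 65)) (.br (Nat.shiftLeft (nat_lit 0x600000300900d) (nat_lit 64)) (.one (nat_lit 0x600000300900cc000006012018411)) (.one (nat_lit 0x600000300900dc00000601201a411))) (.br (Nat.shiftLeft (nat_lit 0x600000300900f) (nat_lit 64)) (.one (nat_lit 0x600000300900ec00000601201c411)) (.br (Nat.shiftLeft (nat_lit 0x600000300901) (nat_lit 68)) (.one (nat_lit 0x600000300900fc00000601201e411)) (.one (nat_lit 0x6000003009010c000006012020411))))) (.br (Nat.shiftLeft (nat_lit 0xe00000601003) (nat_lit 67)) (.br (Nat.shiftLeft (nat_lit 0x7000003008017) (nat_lit 64)) (.one (nat_lit 0x7000003008016e00000601002c411)) (.one (nat_lit 0x7000003008017e00000601002e411)))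 (.br (Nat.shiftLeft (nat_lit 0x7000003008019) (nat_lit 64)) (.one (nat_lit 0x7000003008018e000006010030411)) (.br (Nat.shiftLeft (nat_lit 0x380000180400d) (nat_lit 65)) (.one (nat_lit 0x7000003008019e000006010032411)) (.one (nat_lit 0x700000300801ae000006010034411))))))))
def t407 : k407.all (jb2 57 fl b0) = true := by decide +kernel
noncomputable def k408 : KT := (.br (Nat.shiftLeft (nat_lit 0x900000300900b) (nat_lit 64)) (.br (Nat.shiftLeft (nat_lit 0x8000003008019) (nat_lit 64)) (.br (Nat.shiftLeft (nat_lit 0x700000300900f) (nat_lit 64)) (.br (Nat.shiftLeft (nat_lit 0x1c00000c02403) (nat_lit 66)) (.br (Nat.shiftLeft (nat_lit 0x700000300900b) (nat_lit 64)) (.one (nat_lit 0x700000300900ae000006012014411)) (.one (nat_lit 0x700000300900be000006012016411))) (.br (Nat.shiftLeft (nat_lit 0x700000300900d) (nat_lit 64)) (.one (nat_lit 0x700000300900ce000006012018411)) (.br (Nat.shiftLeft (nat_lit 0x3800001804807) (nat_lit 65)) (.one (nat_lit 0x700000300900de00000601201a411)) (.one (nat_lit 0x700000300900ee00000601201c411)))))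 (.br (Nat.shiftLeft (nat_lit 0x1) (nat_lit 115)) (.br (Nat.shiftLeft (nat_lit 0x700000300901) (nat_lit 68)) (.one (nat_lit 0x700000300900fe00000601201e411)) (.one (nat_lit 0x7000003009010e000006012020411))) (.br (Nat.shiftLeft (nat_lit 0x8000003008017) (nat_lit 64)) (.one (nat_lit 0x8000003008016000000601012e411)) (.br (Nat.shiftLeft (nat_lit 0x1000000601003) (nat_lit 67)) (.one (nat_lit 0x80000030080170000006010130411)) (.one (nat_lit 0x80000030080180000006010132411)))))) (.br (Nat.shiftLeft (nat_lit 0x800000300900d) (nat_lit 64)) (.br (Nat.shiftLeft (nat_lit 0x8000003009) (nat_lit 76)) (.br (Nat.shiftLeft (nat_lit 0x400000180400d) (nat_lit 65)) (.one (nat_lit 0x80000030080190000006010134411)) (.one (nat_lit 0x800000300801a0000006010136411))) (.br (Nat.shiftLeft (nat_lit 0x800000300900b) (nat_lit 64)) (.one (nat_lit 0x800000300900a0000006012116411)) (.br (Nat.shiftLeft (nat_lit 0x2000000c02403) (nat_lit 66)) (.one (nat_lit 0x800000300900b0000006012118411)) (.one (nat_lit 0x800000300900c000000601211a411)))))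 (.br (Nat.shiftLeft (nat_lit 0x800000300900f) (nat_lit 64)) (.br (Nat.shiftLeft (nat_lit 0x4000001804807) (nat_lit 65)) (.one (nat_lit 0x800000300900d000000601211c411)) (.one (nat_lit 0x800000300900e000000601211e411))) (.br (Nat.shiftLeft (nat_lit 0x800000300901) (nat_lit 68)) (.one (nat_lit 0x800000300900f0000006012120411)) (.br (Nat.shiftLeft (nat_lit 0x9) (nat_lit 112)) (.one (nat_lit 0x80000030090100000006012122411)) (.one (nat_lit 0x900000300900a2000006012116411))))))) (.br (Nat.shiftLeft (nat_lit 0x800001001804807) (nat_lit 65)) (.br (Nat.shiftLeft (nat_lit 0x900000300901) (nat_lit 68)) (.br (Nat.shiftLeft (nat_lit 0x900000300900d) (nat_lit 64)) (.br (Nat.shiftLeft (nat_lit 0x2400000c02403) (nat_lit 66)) (.one (nat_lit 0x900000300900b2000006012118411)) (.one (nat_lit 0x900000300900c200000601211a411))) (.br (Nat.shiftLeft (nat_lit 0x4800001804807) (nat_lit 65)) (.one (nat_lit 0x900000300900d200000601211c411)) (.br (Nat.shiftLeft (nat_lit 0x900000300900f) (nat_lit 64)) (.one (nat_lit 0x900000300900e200000601211e411))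 (.one (nat_lit 0x900000300900f2000006012120411))))) (.br (Nat.shiftLeft (nat_lit 0x100000200300900b) (nat_lit 64)) (.br (Nat.shiftLeft (nat_lit 0x1) (nat_lit 124)) (.one (nat_lit 0x90000030090102000006012122411)) (.one (nat_lit 0x100000200300900a0004006032414511))) (.br (Nat.shiftLeft (nat_lit 0x400000800c02403) (nat_lit 66)) (.one (nat_lit 0x100000200300900b0004006032416511)) (.br (Nat.shiftLeft (nat_lit 0x100000200300900d) (nat_lit 64)) (.one (nat_lit 0x100000200300900c0004006032418511)) (.one (nat_lit 0x100000200300900d000400603241a511)))))) (.br (Nat.shiftLeft (nat_lit 0x800000800c02403) (nat_lit 66)) (.br (Nat.shiftLeft (nat_lit 0x100000200300901) (nat_lit 68)) (.br (Nat.shiftLeft (nat_lit 0x100000200300900f) (nat_lit 64)) (.one (nat_lit 0x100000200300900e000400603241c511)) (.one (nat_lit 0x100000200300900f000400603241e511))) (.br (Nat.shiftLeft (nat_lit 0x1) (nat_lit 125)) (.one (nat_lit 0x10000020030090100004006032420511)) (.br (Nat.shiftLeft (nat_lit 0x200000200300900b) (nat_lit 64)) (.one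 (nat_lit 0x200000200300900a0004006052814511)) (.one (nat_lit 0x200000200300900b0004006052816511))))) (.br (Nat.shiftLeft (nat_lit 0x1000001001804807) (nat_lit 65)) (.br (Nat.shiftLeft (nat_lit 0x200000200300900d) (nat_lit 64)) (.one (nat_lit 0x200000200300900c0004006052818511)) (.one (nat_lit 0x200000200300900d000400605281a511))) (.br (Nat.shiftLeft (nat_lit 0x200000200300900f) (nat_lit 64)) (.one (nat_lit 0x200000200300900e000400605281c511)) (.br (Nat.shiftLeft (nat_lit 0x200000200300901) (nat_lit 68)) (.one (nat_lit 0x200000200300900f000400605281e511)) (.one (nat_lit 0x20000020030090100004006052820511))))))))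
def t408 : k408.all (jb2 57 fl b0) = true := by decide +kernel
noncomputable def k409 : KT := (.br (Nat.shiftLeft (nat_lit 0x1000000800c02403) (nat_lit 66)) (.br (Nat.shiftLeft (nat_lit 0x1800001001804807) (nat_lit 65)) (.br (Nat.shiftLeft (nat_lit 0xc00000800c02403) (nat_lit 66)) (.br (Nat.shiftLeft (nat_lit 0x300000200300900b) (nat_lit 64)) (.one (nat_lit 0x300000200300900a0004006072c14511)) (.one (nat_lit 0x300000200300900b0004006072c16511))) (.br (Nat.shiftLeft (nat_lit 0x300000200300900d) (nat_lit 64)) (.one (nat_lit 0x300000200300900c0004006072c18511)) (.one (nat_lit 0x300000200300900d0004006072c1a511)))) (.br (Nat.shiftLeft (nat_lit 0x300000200300901) (nat_lit 68)) (.br (Nat.shiftLeft (nat_lit 0x300000200300900f) (nat_lit 64)) (.one (nat_lit 0x300000200300900e0004006072c1c511)) (.one (nat_lit 0x300000200300900f0004006072c1e511))) (.br (Nat.shiftLeft (nat_lit 0x1) (nat_lit 126)) (.one (nat_lit 0x30000020030090100004006072c20511)) (.br (Nat.shiftLeft (nat_lit 0x400000200300900b) (nat_lit 64))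 (.one (nat_lit 0x400000200300900a0004006093014511)) (.one (nat_lit 0x400000200300900b0004006093016511)))))) (.br (Nat.shiftLeft (nat_lit 0x5) (nat_lit 124)) (.br (Nat.shiftLeft (nat_lit 0x2000001001804807) (nat_lit 65)) (.br (Nat.shiftLeft (nat_lit 0x400000200300900d) (nat_lit 64)) (.one (nat_lit 0x400000200300900c0004006093018511)) (.one (nat_lit 0x400000200300900d000400609301a511))) (.br (Nat.shiftLeft (nat_lit 0x400000200300900f) (nat_lit 64)) (.one (nat_lit 0x400000200300900e000400609301c511)) (.br (Nat.shiftLeft (nat_lit 0x400000200300901) (nat_lit 68)) (.one (nat_lit 0x400000200300900f000400609301e511)) (.one (nat_lit 0x40000020030090100004006093020511))))) (.br (Nat.shiftLeft (nat_lit 0x1400000800c02403) (nat_lit 66)) (.br (Nat.shiftLeft (nat_lit 0x500000200300900b) (nat_lit 64)) (.one (nat_lit 0x500000200300900a00040060b3414511)) (.one (nat_lit 0x500000200300900b00040060b3416511))) (.br (Nat.shiftLeft (nat_lit 0x500000200300900d) (nat_lit 64)) (.one (nat_lit 0x500000200300900c00040060b3418511))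 (.br (Nat.shiftLeft (nat_lit 0x2800001001804807) (nat_lit 65)) (.one (nat_lit 0x500000200300900d00040060b341a511)) (.one (nat_lit 0x500000200300900e00040060b341c511)))))))
def t409 : k409.all (jb2 57 fl b0) = true := by decide +kernel
noncomputable def k410 : KT := (.br (Nat.shiftLeft (nat_lit 0x600000200300900d) (nat_lit 64)) (.br (Nat.shiftLeft (nat_lit 0x3) (nat_lit 125)) (.br (Nat.shiftLeft (nat_lit 0x500000200300901) (nat_lit 68)) (.one (nat_lit 0x500000200300900f00040060b341e511)) (.one (nat_lit 0x500000200300901000040060b3420511))) (.br (Nat.shiftLeft (nat_lit 0x600000200300900b) (nat_lit 64)) (.one (nat_lit 0x600000200300900a00040060d3814511)) (.br (Nat.shiftLeft (nat_lit 0x1800000800c02403) (nat_lit 66)) (.one (nat_lit 0x600000200300900b00040060d3816511)) (.one (nat_lit 0x600000200300900c00040060d3818511))))) (.br (Nat.shiftLeft (nat_lit 0x600000200300901) (nat_lit 68)) (.br (Nat.shiftLeft (nat_lit 0x3000001001804807) (nat_lit 65)) (.one (nat_lit 0x600000200300900d00040060d381a511)) (.br (Nat.shiftLeft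 (nat_lit 0x600000200300900f) (nat_lit 64)) (.one (nat_lit 0x600000200300900e00040060d381c511)) (.one (nat_lit 0x600000200300900f00040060d381e511)))) (.br (Nat.shiftLeft (nat_lit 0x7) (nat_lit 124)) (.one (nat_lit 0x600000200300901000040060d3820511)) (.br (Nat.shiftLeft (nat_lit 0x700000200300900b) (nat_lit 64)) (.one (nat_lit 0x700000200300900a00040060f3c14511)) (.one (nat_lit 0x700000200300900b00040060f3c16511))))))
def t410 : k410.all (jb2 57 fl b0) = true := by decide +kernel
noncomputable def k411 : KT := (.br (Nat.shiftLeft (nat_lit 0x700000200300901) (nat_lit 68)) (.br (Nat.shiftLeft (nat_lit 0x3800001001804807) (nat_lit 65)) (.br (Nat.shiftLeft (nat_lit 0x700000200300900d) (nat_lit 64)) (.one (nat_lit 0x700000200300900c00040060f3c18511)) (.one (nat_lit 0x700000200300900d00040060f3c1a511))) (.br (Nat.shiftLeft (nat_lit 0x700000200300900f) (nat_lit 64)) (.one (nat_lit 0x700000200300900e00040060f3c1c511)) (.one (nat_lit 0x700000200300900f00040060f3c1e511)))) (.br (Nat.shiftLeft (nat_lit 0x800000200300900b)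 (nat_lit 64)) (.br (Nat.shiftLeft (nat_lit 0x1) (nat_lit 127)) (.one (nat_lit 0x700000200300901000040060f3c20511)) (.one (nat_lit 0x800000200300900a0004006114014511))) (.br (Nat.shiftLeft (nat_lit 0x2000000800c02403) (nat_lit 66)) (.one (nat_lit 0x800000200300900b0004006114016511)) (.br (Nat.shiftLeft (nat_lit 0x800000200300900d) (nat_lit 64)) (.one (nat_lit 0x800000200300900c0004006114018511)) (.one (nat_lit 0x800000200300900d000400611401a511))))))
def t411 : k411.all (jb2 57 fl b0) = true := by decide +kernel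
noncomputable def k412 : KT := (.br (Nat.shiftLeft (nat_lit 0x900000200300900b) (nat_lit 64)) (.br (Nat.shiftLeft (nat_lit 0x800000200300901) (nat_lit 68)) (.br (Nat.shiftLeft (nat_lit 0x800000200300900f) (nat_lit 64)) (.one (nat_lit 0x800000200300900e000400611401c511)) (.one (nat_lit 0x800000200300900f000400611401e511))) (.br (Nat.shiftLeft (nat_lit 0x9) (nat_lit 124)) (.one (nat_lit 0x80000020030090100004006114020511)) (.one (nat_lit 0x900000200300900a0004006134414511)))) (.br (Nat.shiftLeft (nat_lit 0x900000200300900d) (nat_lit 64)) (.br (Nat.shiftLeft (nat_lit 0x2400000800c02403) (nat_lit 66)) (.one (nat_lit 0x900000200300900b0004006134416511)) (.one (nat_lit 0x900000200300900c0004006134418511))) (.br (Nat.shiftLeft (nat_lit 0x4800001001804807) (nat_lit 65)) (.one (nat_lit 0x900000200300900d000400613441a511)) (.br (Nat.shiftLeft (nat_lit 0x900000200300900f) (nat_lit 64)) (.one (nat_lit 0x900000200300900e000400613441c511)) (.one (nat_lit 0x900000200300900f000400613441e511))))))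
def t412 : k412.all (jb2 57 fl b0) = true := by decide +kernel
noncomputable def k413 : KT := (.one (nat_lit 0x90000020030090100004006134420511))
def t413 : k413.all (jb2 57 fl b0) = true := by decide +kernel
noncomputable def s20 : KT := (.br (nat_lit 0x100200300900b2004006012016650) (.br (nat_lit 0x2003008016000400601002c540) (.br (nat_lit 0x100300900c0002006012018540) (.br (nat_lit 0x10030080180002006010030540) k390 (.br (nat_lit 0x100300900a0002006012014540) k391 k392)) (.br (nat_lit 0x100300900e000200601201c540) k393 (.br (nat_lit 0x10030090100002006012020540) k394 k395))) (.br (nat_lit 0x20030080190004006010032540) (.br (nat_lit 0x2003008017000400601002e540) k396 (.br (nat_lit 0x20030080180004006010030540) k397 k398)) (.br (nat_lit 0x10000030090102000006012020411) k399 (.br (nat_lit 0x100200300900a2004006012014650) k400 k401)))) (.br (nat_lit 0x700000300801ae000006010034411) (.br (nat_lit 0x100200300900e200400601201c650) (.br (nat_lit 0x100200300900c2004006012018650) k402 (.br (nat_lit 0x100200300900d200400601201a650)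 k403 k404)) (.br (nat_lit 0x100200300900f200400601201e650) k405 (.br (nat_lit 0x4000003008016800000601002c411) k406 k407))) (.br (nat_lit 0x700000200300900b00040060f3c16511) (.br (nat_lit 0x20000020030090100004006052820511) k408 (.br (nat_lit 0x500000200300900e00040060b341c511) k409 k410)) (.br (nat_lit 0x800000200300900d000400611401a511) k411 (.br (nat_lit 0x900000200300900f000400613441e511) k412 k413)))))
noncomputable def u20 : KT := (.br (Nat.shiftLeft (nat_lit 0x300900b) (nat_lit 64)) (.br (Nat.shiftLeft (nat_lit 0x3008019) (nat_lit 64)) (.br (Nat.shiftLeft (nat_lit 0x3008017) (nat_lit 64)) (.one (nat_lit 0x3008016000000601002c430)) (.br (Nat.shiftLeft (nat_lit 0x601003) (nat_lit 67)) (.one (nat_lit 0x3008017000000601002e430)) (.one (nat_lit 0x30080180000006010030430)))) (.br (Nat.shiftLeft (nat_lit 0x180400d) (nat_lit 65)) (.one (nat_lit 0x30080190000006010032430)) (.br (Nat.shiftLeft (nat_lit 0x3009) (nat_lit 76)) (.one (nat_lit 0x300801a0000006010034430)) (.one (nat_lit 0x300900a0000006012014430)))))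 (.br (Nat.shiftLeft (nat_lit 0x1804807) (nat_lit 65)) (.br (Nat.shiftLeft (nat_lit 0xc02403) (nat_lit 66)) (.one (nat_lit 0x300900b0000006012016430)) (.br (Nat.shiftLeft (nat_lit 0x300900d) (nat_lit 64)) (.one (nat_lit 0x300900c0000006012018430)) (.one (nat_lit 0x300900d000000601201a430)))) (.br (Nat.shiftLeft (nat_lit 0x300900f) (nat_lit 64)) (.one (nat_lit 0x300900e000000601201c430)) (.br (Nat.shiftLeft (nat_lit 0x300901) (nat_lit 68)) (.one (nat_lit 0x300900f000000601201e430)) (.one (nat_lit 0x30090100000006012020430))))))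
def w20 : u20.all (wj 57 s20) = true := by decide +kernel
def o20 : OkW 57 (jb2 57 fl) u20 := .lift s20 _ (.br _ _ _ (.br _ _ _ (.br _ _ _ (.br _ _ _ (.leaf b0 k390 t390) (.br _ _ _ (.leaf b0 k391 t391) (.leaf b0 k392 t392))) (.br _ _ _ (.leaf b0 k393 t393) (.br _ _ _ (.leaf b0 k394 t394) (.leaf b0 k395 t395)))) (.br _ _ _ (.br _ _ _ (.leaf b0 k396 t396) (.br _ _ _ (.leaf b0 k397 t397) (.leaf b0 k398 t398))) (.br _ _ _ (.leaf b0 k399 t399) (.br _ _ _ (.leaf b0 k400 t400) (.leaf b0 k401 t401))))) (.br _ _ _ (.br _ _ _ (.br _ _ _ (.leaf b0 k402 t402) (.br _ _ _ (.leaf b0 k403 t403) (.leaf b0 k404 t404))) (.br _ _ _ (.leaf b0 k405 t405) (.br _ _ _ (.leaf b0 k406 t406) (.leaf b0 k407 t407)))) (.br _ _ _ (.br _ _ _ (.leaf b0 k408 t408) (.br _ _ _ (.leaf b0 k409 t409) (.leaf b0 k410 t410))) (.br _ _ _ (.leaf b0 k411 t411) (.br _ _ _ (.leaf b0 k412 t412) (.leaf b0 k413 t413)))))) w20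
noncomputable def k : KT := (.br (nat_lit 0x13015000000002602a320) (.br (nat_lit 0x110210000000022042320) (.br (nat_lit 0x110140000000022028320) (.br (nat_lit 0x110130000000022027300) u0 u1) (.br (nat_lit 0x11015000000002202a320) u2 (.br (nat_lit 0x11017000000002202e320) u3 u4))) (.br (nat_lit 0x120140000000024028320) (.br (nat_lit 0x120130000000024026320) u5 u6) (.br (nat_lit 0x12016000000002402c320) u7 (.br (nat_lit 0x120210000000024042320) u8 u9)))) (.br (nat_lit 0x10110120000002022024430) (.br (nat_lit 0x15017000000002a02e320) (.br (nat_lit 0x130210000000026042320) u10 u11) (.br (nat_lit 0x100600e000000200c01c430) u12 (.br (nat_lit 0x100a00f000000201401e430) u13 u14))) (.br (nat_lit 0x3007009000000600e012430) (.br (nat_lit 0x2009016000000401202c430) u15 (.br (nat_lit 0x200e014000000401c028430) u16 u17)) (.br (nat_lit 0x3007019000000600e032430) u18 (.br (nat_lit 0x3008015000000601002a430) u19 u20)))))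
theorem ok : OkW 57 (jb2 57 fl) k := (.br _ _ _ (.br _ _ _ (.br _ _ _ (.br _ _ _ o0 o1) (.br _ _ _ o2 (.br _ _ _ o3 o4))) (.br _ _ _ (.br _ _ _ o5 o6) (.br _ _ _ o7 (.br _ _ _ o8 o9)))) (.br _ _ _ (.br _ _ _ (.br _ _ _ o10 o11) (.br _ _ _ o12 (.br _ _ _ o13 o14))) (.br _ _ _ (.br _ _ _ o15 (.br _ _ _ o16 o17)) (.br _ _ _ o18 (.br _ _ _ o19 o20)))))

end Pool.Agent.Lib.MP_ed43e6_ag.Q.Y57.R3
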