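import Pool.Agent.Lib.MP_ed43e6_ag.Y57.Fl

namespace Pool.Agent.Lib.MP_ed43e6_ag.Q.Y57.R30

set_option linter.defProp false

noncomputable def b0 : BT := .node (nat_lit 1) (nat_lit 0) .leaf .leaf
noncomputable def k0 : KT := (.br (Nat.shiftLeft (nat_lit 0x801) (nat_lit 113)) (.br (Nat.shiftLeft (nat_lit 0x1) (nat_lit 112)) (.br (Nat.shiftLeft (nat_lit 0x400500801) (nat_lit 68)) (.br (Nat.shiftLeft (nat_lit 0x800a01) (nat_lit 79)) (.one (nat_lit 0x4005007014000800a00e029500)) (.one (nat_lit 0x400500800f000800a01001f500))) (.br (Nat.shiftLeft (nat_lit 0x4005008011) (nat_lit 64)) (.one (nat_lit 0x4005008010000800a010021500)) (.one (nat_lit 0x4005008011000800a010023500)))) (.br (Nat.shiftLeft (nat_lit 0x3) (nat_lit 112)) (.br (Nat.shiftLeft (nat_lit 0x1) (nat_lit 113)) (.one (nat_lit 0x1004005007014200800a00e029600)) (.one (nat_lit 0x2004005007014400800a00e029600))) (.br (Nat.shiftLeft (nat_lit 0x1) (nat_lit 124)) (.one (nat_lit 0x3004005007014600800a00e029600)) (.one (nat_lit 0x1000004005007014000800a02e428511))))) (.br (Nat.shiftLeft (nat_lit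 0x3) (nat_lit 124)) (.br (Nat.shiftLeft (nat_lit 0x1) (nat_lit 125)) (.br (Nat.shiftLeft (nat_lit 0x1003) (nat_lit 112)) (.one (nat_lit 0x1002004005007014400800a02e429700)) (.one (nat_lit 0x1003004005007014600800a02e429700))) (.br (Nat.shiftLeft (nat_lit 0x1001) (nat_lit 113)) (.one (nat_lit 0x2000004005007014000800a04e828511)) (.one (nat_lit 0x2003004005007014600800a04e829700)))) (.br (Nat.shiftLeft (nat_lit 0x5) (nat_lit 124)) (.br (Nat.shiftLeft (nat_lit 0x1) (nat_lit 126)) (.one (nat_lit 0x3000004005007014000800a06ec28511)) (.one (nat_lit 0x4000004005007014000800a08f028511))) (.br (Nat.shiftLeft (nat_lit 0x3) (nat_lit 125)) (.one (nat_lit 0x5000004005007014000800a0af428511)) (.one (nat_lit 0x6000004005007014000800a0cf828511))))))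
def t0 : k0.all (jb2 57 fl b0) = true := by decide +kernel
noncomputable def k1 : KT := (.br (Nat.shiftLeft (nat_lit 0x800001) (nat_lit 113)) (.br (Nat.shiftLeft (nat_lit 0x1) (nat_lit 136)) (.one (nat_lit 0x7000004005007014000800a0efc28511)) (.one (nat_lit 0x1000001004005007014200802a40e028611))) (.br (Nat.shiftLeft (nat_lit 0x1000003) (nat_lit 112)) (.one (nat_lit 0x1000002004005007014400802a40e028611)) (.one (nat_lit 0x1000003004005007014600802a40e028611))))
def t1 : k1.all (jb2 57 fl b0) = true := by decide +kernel
noncomputable def k2 : KT := (.br (Nat.shiftLeft (nat_lit 0x3) (nat_lit 136)) (.br (Nat.shiftLeft (nat_lit 0x1000001) (nat_lit 113)) (.br (Nat.shiftLeft (nat_lit 0x1) (nat_lit 137)) (.one (nat_lit 0x1002003004005007014600802a44e828870)) (.one (nat_lit 0x2000001004005007014200804a80e028611))) (.br (Nat.shiftLeft (nat_lit 0x2000003) (nat_lit 112)) (.one (nat_lit 0x2000002004005007014400804a80e028611)) (.one (nat_lit 0x2000003004005007014600804a80e028611)))) (.br (Nat.shiftLeft (nat_lit 0x3000003) (nat_lit 112)) (.br (Nat.shiftLeft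 (nat_lit 0x1800001) (nat_lit 113)) (.one (nat_lit 0x3000001004005007014200806ac0e028611)) (.one (nat_lit 0x3000002004005007014400806ac0e028611))) (.br (Nat.shiftLeft (nat_lit 0x1) (nat_lit 138)) (.one (nat_lit 0x3000003004005007014600806ac0e028611)) (.br (Nat.shiftLeft (nat_lit 0x2000001) (nat_lit 113)) (.one (nat_lit 0x4000001004005007014200808b00e028611)) (.one (nat_lit 0x4000002004005007014400808b00e028611))))))
def t2 : k2.all (jb2 57 fl b0) = true := by decide +kernel
noncomputable def k3 : KT := (.br (Nat.shiftLeft (nat_lit 0x5) (nat_lit 136)) (.one (nat_lit 0x4000003004005007014600808b00e028611)) (.br (Nat.shiftLeft (nat_lit 0x2800001) (nat_lit 113)) (.one (nat_lit 0x500000100400500701420080ab40e028611)) (.one (nat_lit 0x500000200400500701440080ab40e028611))))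
def t3 : k3.all (jb2 57 fl b0) = true := by decide +kernel
noncomputable def k4 : KT := (.one (nat_lit 0x500000300400500701460080ab40e028611))
def t4 : k4.all (jb2 57 fl b0) = true := by decide +kernel
noncomputable def k5 : KT := (.one (nat_lit 0x600000100400500701420080cb80e028611))
def t5 : k5.all (jb2 57 fl b0) = true := by decide +kernel
noncomputable def k6 : KT := (.one (nat_lit 0x600000200400500701440080cb80e028611))
def t6 : k6.all (jb2 57 fl b0) = true := by decide +kernel
noncomputable def k7 : KT := (.one (nat_lit 0x600000300400500701460080cb80e028611))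
def t7 : k7.all (jb2 57 fl b0) = true := by decide +kernel
noncomputable def k8 : KT := (.one (nat_lit 0x700000100400500701420080ebc0e028611))
def t8 : k8.all (jb2 57 fl b0) = true := by decide +kernel
noncomputable def k9 : KT := (.br (Nat.shiftLeft (nat_lit 0x1) (nat_lit 149)) (.br (Nat.shiftLeft (nat_lit 0x1) (nat_lit 148)) (.br (Nat.shiftLeft (nat_lit 0x7000003) (nat_lit 112)) (.one (nat_lit 0x700000200400500701440080ebc0e028611)) (.one (nat_lit 0x700000300400500701460080ebc0e028611))) (.br (Nat.shiftLeft (nat_lit 0x1000001003) (nat_lit 112)) (.one (nat_lit 0x1000001002004005007014402840a02e428711)) (.br (Nat.shiftLeft (nat_lit 0x800001) (nat_lit 125)) (.one (nat_lit 0x1000001003004005007014602840a02e428711)) (.one (nat_lit 0x1000002003004005007014602840a04e828711))))) (.br (Nat.shiftLeft (nat_lit 0x3) (nat_lit 148)) (.br (Nat.shiftLeft (nat_lit 0x2000001003) (nat_lit 112)) (.one (nat_lit 0x2000001002004005007014404880a02e428711)) (.br (Nat.shiftLeft (nat_lit 0x1000001) (nat_lit 125)) (.one (nat_lit 0x2000001003004005007014604880a02e428711))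 (.one (nat_lit 0x2000002003004005007014604880a04e828711)))) (.br (Nat.shiftLeft (nat_lit 0x3000001003) (nat_lit 112)) (.one (nat_lit 0x30000010020040050070144068c0a02e428711)) (.br (Nat.shiftLeft (nat_lit 0x1800001) (nat_lit 125)) (.one (nat_lit 0x30000010030040050070146068c0a02e428711)) (.one (nat_lit 0x30000020030040050070146068c0a04e828711))))))
def t9 : k9.all (jb2 57 fl b0) = true := by decide +kernel
noncomputable def k10 : KT := (.br (Nat.shiftLeft (nat_lit 0x2000001) (nat_lit 125)) (.br (Nat.shiftLeft (nat_lit 0x4000001003) (nat_lit 112)) (.one (nat_lit 0x4000001002004005007014408900a02e428711)) (.one (nat_lit 0x4000001003004005007014608900a02e428711))) (.br (Nat.shiftLeft (nat_lit 0x5) (nat_lit 148)) (.one (nat_lit 0x4000002003004005007014608900a04e828711)) (.one (nat_lit 0x500000100200400500701440a940a02e428711))))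
noncomputable def b11 : BT := .node (nat_lit 0xb) (nat_lit 0x123126227040031ea0008e5c19189455324db249aa7040032d90008d60003a1a000ad5c2db22a2258c003356000ac6010026d0020c0020c00150000f0000f0000f0000f0000f0000f0000f0000f0) .leaf .leaf
def t10 : k10.all (jb2 57 fl b11) = true := by decide +kernel
noncomputable def k11 : KT := (.br (Nat.shiftLeft (nat_lit 0x2800001) (nat_lit 125)) (.one (nat_lit 0x500000100300400500701460a940a02e428711)) (.one (nat_lit 0x500000200300400500701460a940a04e828711)))
def t11 : k11.all (jb2 57 fl b0) = true := by decide +kernel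
noncomputable def k12 : KT := (.br (Nat.shiftLeft (nat_lit 0x6000001003) (nat_lit 112)) (.one (nat_lit 0x600000100200400500701440c980a02e428711)) (.one (nat_lit 0x600000100300400500701460c980a02e428711)))
def t12 : k12.all (jb2 57 fl b0) = true := by decide +kernel
noncomputable def k13 : KT := (.br (Nat.shiftLeft (nat_lit 0x7) (nat_lit 148)) (.one (nat_lit 0x600000200300400500701460c980a04e828711)) (.br (Nat.shiftLeft (nat_lit 0x7000001003) (nat_lit 112)) (.one (nat_lit 0x700000100200400500701440e9c0a02e428711)) (.one (nat_lit 0x700000100300400500701460e9c0a02e428711))))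
def t13 : k13.all (jb2 57 fl b0) = true := by decide +kernel
noncomputable def k14 : KT := (.one (nat_lit 0x700000200300400500701460e9c0a04e828711))
def t14 : k14.all (jb2 57 fl b0) = true := by decide +kernel
noncomputable def s0 : KT := (.br (nat_lit 0x600000200400500701440080cb80e028611) (.br (nat_lit 0x4000002004005007014400808b00e028611) (.br (nat_lit 0x6000004005007014000800a0cf828511) k0 (.br (nat_lit 0x1000003004005007014600802a40e028611) k1 k2)) (.br (nat_lit 0x500000300400500701460080ab40e028611) (.br (nat_lit 0x500000200400500701440080ab40e028611) k3 k4) (.br (nat_lit 0x600000100400500701420080cb80e028611) k5 k6))) (.br (nat_lit 0x500000100200400500701440a940a02e428711) (.br (nat_lit 0x700000100400500701420080ebc0e028611) (.br (nat_lit 0x600000300400500701460080cb80e028611) k7 k8) (.br (nat_lit 0x30000020030040050070146068c0a04e828711) k9 k10)) (.br (nat_lit 0x600000100300400500701460c980a02e428711) (.br (nat_lit 0x500000200300400500701460a940a04e828711) k11 k12) (.br (nat_lit 0x700000100300400500701460e9c0a02e428711) k13 k14))))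
noncomputable def u0 : KT := (.br (Nat.shiftLeft (nat_lit 0x400500801) (nat_lit 68)) (.br (Nat.shiftLeft (nat_lit 0x800a01) (nat_lit 79)) (.one (nat_lit 0x4005007014000800a00e028540)) (.one (nat_lit 0x400500800f000800a01001f500))) (.br (Nat.shiftLeft (nat_lit 0x4005008011) (nat_lit 64)) (.one (nat_lit 0x4005008010000800a010021500)) (.one (nat_lit 0x4005008011000800a010023500))))
def w0 : u0.all (wj 57 s0) = true := by decide +kernel
def o0 : OkW 57 (jb2 57 fl) u0 := .lift s0 _ (.br _ _ _ (.br _ _ _ (.br _ _ _ (.leaf b0 k0 t0) (.br _ _ _ (.leaf b0 k1 t1) (.leaf b0 k2 t2))) (.br _ _ _ (.br _ _ _ (.leaf b0 k3 t3) (.leaf b0 k4 t4)) (.br _ _ _ (.leaf b0 k5 t5) (.leaf b0 k6 t6)))) (.br _ _ _ (.br _ _ _ (.br _ _ _ (.leaf b0 k7 t7) (.leaf b0 k8 t8)) (.br _ _ _ (.leaf b0 k9 t9) (.leaf b11 k10 t10))) (.br _ _ _ (.br _ _ _ (.leaf b0 k11 t11) (.leaf b0 k12 t12)) (.br _ _ _ (.leaf b0 k13 t13) (.leaf b0 k14 t14))))) w0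
noncomputable def k15 : KT := (.br (Nat.shiftLeft (nat_lit 0x1003) (nat_lit 112)) (.br (Nat.shiftLeft (nat_lit 0x3) (nat_lit 112)) (.br (Nat.shiftLeft (nat_lit 0x1) (nat_lit 112)) (.one (nat_lit 0x4005008012000800a010025500)) (.br (Nat.shiftLeft (nat_lit 0x1) (nat_lit 113)) (.one (nat_lit 0x1004005008012200800a010025600)) (.one (nat_lit 0x2004005008012400800a010025600)))) (.br (Nat.shiftLeft (nat_lit 0x1) (nat_lit 124)) (.one (nat_lit 0x3004005008012600800a010025600)) (.br (Nat.shiftLeft (nat_lit 0x801) (nat_lit 113)) (.one (nat_lit 0x1000004005008012000800a030424511)) (.one (nat_lit 0x1002004005008012400800a030425700))))) (.br (Nat.shiftLeft (nat_lit 0x3) (nat_lit 124)) (.br (Nat.shiftLeft (nat_lit 0x1) (nat_lit 125)) (.one (nat_lit 0x1003004005008012600800a030425700)) (.br (Nat.shiftLeft (nat_lit 0x1001) (nat_lit 113)) (.one (nat_lit 0x2000004005008012000800a050824511)) (.one (nat_lit 0x2003004005008012600800a050825700)))) (.br (Nat.shiftLeft (nat_lit 0x5) (nat_lit 124)) (.br (Nat.shiftLeft (nat_lit 0x1) (nat_lit 126)) (.one (nat_lit 0x3000004005008012000800a070c24511))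 (.one (nat_lit 0x4000004005008012000800a091024511))) (.br (Nat.shiftLeft (nat_lit 0x3) (nat_lit 125)) (.one (nat_lit 0x5000004005008012000800a0b1424511)) (.one (nat_lit 0x6000004005008012000800a0d1824511))))))
noncomputable def b16 : BT := .node (nat_lit 0x3) (nat_lit 0x992273939dbc4db3260800753000154e80074b200117285508984515918a5909829914b224d4003a24000ca6c002ada000aa94003a5a000ca64300220002200016500050) .leaf .leaf
def t15 : k15.all (jb2 57 fl b16) = true := by decide +kernel
noncomputable def k16 : KT := (.one (nat_lit 0x7000004005008012000800a0f1c24511))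
noncomputable def b17 : BT := .node (nat_lit 0xb) (nat_lit 0x26489ce9636f0b78926cde149b139e4629364b2000653600194c802753000954e00164b800558c80174b400518d09b64de228aa59126e4bd000cb6000ab19002ea600132d80b78526cdb34c9130526c00196c000653200195100064b814c8939d2c8db3273a591bc4db3260a5909824e72a1a4d897b231919130401b2d8004ca6802329b002ac60013a590028b94013a62000ab6c00ba5a008cb6000ba980066b9c6918a4d9bc49916da36cc00325c000ac60003a98000e9642006ba006ba0054900549005490048e0048e0048e003d3001ac000f0000f0) .leaf .leaf
def t16 : k16.all (jb2 57 fl b17) = true := by decide +kernel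
noncomputable def k17 : KT := (.br (Nat.shiftLeft (nat_lit 0x1000001) (nat_lit 113)) (.br (Nat.shiftLeft (nat_lit 0x1000003) (nat_lit 112)) (.br (Nat.shiftLeft (nat_lit 0x1) (nat_lit 136)) (.one (nat_lit 0x8000004005008012000800a112024511)) (.br (Nat.shiftLeft (nat_lit 0x800001) (nat_lit 113)) (.one (nat_lit 0x1000001004005008012200802a410024611)) (.one (nat_lit 0x1000002004005008012400802a410024611)))) (.br (Nat.shiftLeft (nat_lit 0x801) (nat_lit 125)) (.one (nat_lit 0x1000003004005008012600802a410024611)) (.br (Nat.shiftLeft (nat_lit 0x1) (nat_lit 137)) (.one (nat_lit 0x1002003004005008012600802a450825800)) (.one (nat_lit 0x2000001004005008012200804a810024611))))) (.br (Nat.shiftLeft (nat_lit 0x1800001) (nat_lit 113)) (.br (Nat.shiftLeft (nat_lit 0x2000003) (nat_lit 112)) (.one (nat_lit 0x2000002004005008012400804a810024611)) (.br (Nat.shiftLeft (nat_lit 0x3) (nat_lit 136)) (.one (nat_lit 0x2000003004005008012600804a810024611)) (.one (nat_lit 0x3000001004005008012200806ac10024611)))) (.br (Nat.shiftLeft (nat_lit 0x1) (nat_lit 138)) (.br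 (Nat.shiftLeft (nat_lit 0x3000003) (nat_lit 112)) (.one (nat_lit 0x3000002004005008012400806ac10024611)) (.one (nat_lit 0x3000003004005008012600806ac10024611))) (.br (Nat.shiftLeft (nat_lit 0x2000001) (nat_lit 113)) (.one (nat_lit 0x4000001004005008012200808b010024611)) (.one (nat_lit 0x4000002004005008012400808b010024611))))))
noncomputable def b18 : BT := .node (nat_lit 0x11) (nat_lit 0x273a4dd26e001d4c00075300eda130526e542273939c0032a1000ab6c003a1d000cb60293749b9305bc24e74b21508a284c16d9a4dca8600996c001654400196c0016534005d2d00164ca0060ee001472e25152741300003a5a000ca841db349b9305bc32326d9b7852c84c191893092c72314b1b78800b29b002ab88003a98002ca6400b29a002aa9400b2660008c64013299004ac6050061e0061e0061e005bf0050400393003340016800168001680016800168001680016800168001680016800168) .leaf .leaf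
def t17 : k17.all (jb2 57 fl b18) = true := by decide +kernel
noncomputable def k18 : KT := (.br (Nat.shiftLeft (nat_lit 0x5) (nat_lit 136)) (.one (nat_lit 0x4000003004005008012600808b010024611)) (.one (nat_lit 0x500000100400500801220080ab410024611)))
def t18 : k18.all (jb2 57 fl b0) = true := by decide +kernel
noncomputable def k19 : KT := (.br (Nat.shiftLeft (nat_lit 0x5000003) (nat_lit 112)) (.one (nat_lit 0x500000200400500801240080ab410024611)) (.one (nat_lit 0x500000300400500801260080ab410024611)))
def t19 : k19.all (jb2 57 fl b0) = true := by decide +kernel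
noncomputable def k20 : KT := (.one (nat_lit 0x600000100400500801220080cb810024611))
noncomputable def b21 : BT := .node (nat_lit 0xb) (nat_lit 0x6f0b7889cf2314c913040032d8000aa74002b18000a99c29916da1304003a5a000aa94196325f139dbc2db327448c526a9644c9258ca86005d4c00155b600594c80155b8001d2c8014634009d2c80156ae26f0b6d126b2326d9950c00b29a000ca640132990028e5c2004370037c0031c0031c001ab001ab000f0000f0000f0000f0000f0000f0) .leaf .leaf
def t20 : k20.all (jb2 57 fl b21) = true := by decide +kernel
noncomputable def k21 : KT := (.one (nat_lit 0x600000200400500801240080cb810024611))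
noncomputable def b22 : BT := .node (nat_lit 0x17) (nat_lit 0x13229642a1a64926a515002ea60002b57002e964012b570a6493244e7000ea60002a9d07785b664c26f093a0a2a9914b1930a463232273a64526a9926d9939d26cde2273a58c003a590048b98023a5a0028c6c00ba59004aa9800ba980046c7401ba59004cb6001b2d9002ab6801329b008ab647918b7892c600196c00055b20ef0a4d8a28001d2c80055b40c8c5b669349189455bc400196c00055b200158c800563015712611454003a24000c96c10075900759007590069e0069e0069e0069e0069e0069e0069e0069e0069e0063e003bc003bc0035b0035b0035b0035b002fb0023f0023f001e0001e0) .leaf .leaf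
def t21 : k21.all (jb2 57 fl b22) = true := by decide +kernel
noncomputable def k22 : KT := (.one (nat_lit 0x600000300400500801260080cb810024611))
def t22 : k22.all (jb2 57 fl b0) = true := by decide +kernel
noncomputable def k23 : KT := (.one (nat_lit 0x700000100400500801220080ebc10024611))
noncomputable def b24 : BT := .node (nat_lit 0x1d) (nat_lit 0x36c8a86543000cb60002b19064624e828aa6452c84e7000e968009b5b004e96800b2d80b78497a937918a648982543260950c0032d8002aa7400ab18002a99c00b9e6004cb603de1260a4dc0032a2000aa741918a595324db326115c4003a5a0008d600039a80008f582db349b950c0041dc0008e5c1db3260a4da4629364c9258d2c84c1918939c9ce00195180055b4001d0e00046b000196c00064ca001d4c000363a26da139ca86db425f1304003a1b0008e60003a980008b942db3273939c0032d8000ab7010089200892008320083200776007760077600776006600060000600006000060000544004e40037300373002b8002b8002b8002b8002b8002b8002b8002b8002b800258002580025800258) .leaf .leaf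
def t23 : k23.all (jb2 57 fl b24) = true := by decide +kernel
noncomputable def k24 : KT := (.one (nat_lit 0x700000200400500801240080ebc10024611))
noncomputable def b25 : BT := .node (nat_lit 0x2b) (nat_lit 0x264497a9376f09305325231260a4dc00b2d8000c974013227004ac60002ae2002aa743db349b939d2c84e82a1000653800158c00074b40015ab8526c936273800753000196c032314b22649b665142b900074b20011ac00074340011eb85bc24c149b800654400154e8339d26c4e76f0b6cc9ce001d4c00065b0001d2c800463816f0939d32400192e80056300ef0945538323127414564625156d980064b60015ab80074b4000dad80056b000156c8739d26c4bd000ea600032d807785b664e7000e964002b1907785b6693649b24d89832316d99304003a59000ab6c0032d8000ca8c0032990008b983935274139c003a99000ac64191892f49829914b1a5900032d80028a9c00ba59004cb60200bde00bde00bde00bde00bde00ac800ac800ac800a0d009ad009ad009ad009ad009ad009ad009ad009ad008f1008f1008f1008f100891007d7007d7007d700777007770077700777006610060200602005a20048c0042c0042c0042c0042c0042c0042c0042c0042c0042c00370) .leaf .leaf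
def t24 : k24.all (jb2 57 fl b25) = true := by decide +kernel
noncomputable def k25 : KT := (.one (nat_lit 0x700000300400500801260080ebc10024611))
noncomputable def b26 : BT := .node (nat_lit 0x1) (nat_lit 0x6f09511324db225f24d80032d9002ac600132d9002ab6c2000e300028) .leaf .leaf
def t25 : k25.all (jb2 57 fl b26) = true := by decide +kernel
noncomputable def k26 : KT := (.one (nat_lit 0x8000001004005008012200810c010024611))
noncomputable def b27 : BT := .node (nat_lit 0x2b) (nat_lit 0x27392f8982001d4c00065440c9ba4d898000196c00065420d432739300003a1c000ca841db349b930800329b000ab8c1918950db684e725f13013229374b200056ae00156d000753200195080074b600194d07b664e84b236cc9824e84b224dc982964273950c00b2d9000ac6000b2a1002ab74003a5b002ab88013a1c004ad5c4db325f139db664e7273b6cdb66937000ea6000aadc004ea6000a31c002cb6000b29b0e4629642b880074b20011cb832c64c1273950c9ce4e76d9a4dc9ce4e749b9300003a61000ab70003a1b000cb6000329b000ac60003a99000ca84491893052709634b224dc0032a10008b78003a98000ca702db325f24dc0032d9000ca6c100b7a00b7a00b7a00b1b00b1b00b1b00b1b00abb00abb00abb00abb00abb00abb00abb00abb00a5c00a5c00a5c00a5c00a5c009fc009fc008e5008e5008e5007740065e0065e0065e0065e005fd005fd005fd005fd0048c0048c003d000370003700037000370003700037000370)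 .leaf .leaf
def t26 : k26.all (jb2 57 fl b27) = true := by decide +kernel
noncomputable def k27 : KT := (.one (nat_lit 0x8000002004005008012400810c010024611))
noncomputable def b28 : BT := .node (nat_lit 0x17) (nat_lit 0x1231273b6cdbc24c127424d897c4e7000ab70002ad9000e9840022de000ea60002b190f78526e9922a224dc980001d0e80056300020ed80055c2154326092f80039e5000cb601918b6cc98200194c80045cc0ce725f139db64db3260a4dd26e4c06d915c9324005d4c00065b000996c001554c00596c801654200598b80156ae24e749b939d3229632a1b6c8a86572000ea60013a98000e96400b2d8004e96400a3980eb8a4dc9800020ce80055c40ce749b939db664c22a1800753000196c00073cc0011cc0532293725f3785b664e7000e8740032d8000e96400231c0a4d89d04c09189308a2a4e749c13000032db000ca84003a240006d6c004259000ab843009e1009e1009e1008ca008ca0080f007b0007b0007b00074f0074f0074f0074f005df005df004ca0046b003b1003b1002f6002f6002f6001e0001e0) .leaf .leaf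
def t27 : k27.all (jb2 57 fl b28) = true := by decide +kernel
noncomputable def k28 : KT := (.br (Nat.shiftLeft (nat_lit 0x1000001) (nat_lit 125)) (.br (Nat.shiftLeft (nat_lit 0x800001) (nat_lit 125)) (.br (Nat.shiftLeft (nat_lit 0x1) (nat_lit 148)) (.one (nat_lit 0x8000003004005008012600810c010024611)) (.br (Nat.shiftLeft (nat_lit 0x1000001003) (nat_lit 112)) (.one (nat_lit 0x1000001002004005008012402840a030424711)) (.one (nat_lit 0x1000001003004005008012602840a030424711)))) (.br (Nat.shiftLeft (nat_lit 0x1) (nat_lit 149)) (.one (nat_lit 0x1000002003004005008012602840a050824711)) (.br (Nat.shiftLeft (nat_lit 0x2000001003) (nat_lit 112)) (.one (nat_lit 0x2000001002004005008012404880a030424711)) (.one (nat_lit 0x2000001003004005008012604880a030424711))))) (.br (Nat.shiftLeft (nat_lit 0x1800001) (nat_lit 125)) (.br (Nat.shiftLeft (nat_lit 0x3) (nat_lit 148)) (.one (nat_lit 0x2000002003004005008012604880a050824711)) (.br (Nat.shiftLeft (nat_lit 0x3000001003) (nat_lit 112)) (.one (nat_lit 0x30000010020040050080124068c0a030424711)) (.one (nat_lit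 0x30000010030040050080126068c0a030424711)))) (.br (Nat.shiftLeft (nat_lit 0x4000001003) (nat_lit 112)) (.br (Nat.shiftLeft (nat_lit 0x1) (nat_lit 150)) (.one (nat_lit 0x30000020030040050080126068c0a050824711)) (.one (nat_lit 0x4000001002004005008012408900a030424711))) (.br (Nat.shiftLeft (nat_lit 0x2000001) (nat_lit 125)) (.one (nat_lit 0x4000001003004005008012608900a030424711)) (.one (nat_lit 0x4000002003004005008012608900a050824711))))))
noncomputable def b29 : BT := .node (nat_lit 0xb) (nat_lit 0x93625f139c003a98000cb641937260939c003a61000ac641001b0001b00015000150000f0000f0000f0000f0000f0000f0000f0000f0) .leaf .leaf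
def t28 : k28.all (jb2 57 fl b29) = true := by decide +kernel
noncomputable def k29 : KT := (.one (nat_lit 0x500000100200400500801240a940a030424711))
noncomputable def b30 : BT := .node (nat_lit 0x17) (nat_lit 0x48c52c6db3918945538200196c00055b200194d000472e16d992f12c899228aa58c0032d8004ac6001b317006ca642918939d26a00198b80045b60c8c49845154b1a5909ce001d1200036b600196c000653616d92591268001d4c00055b20ef0b6cc982db22741454003299000aa98003a5a0008d682992274258e4625a16d9c8c5b664c16d9a4d498200594d80065320055ea80155b200594c80145cc00994c80155c826f0930938323149aa649b64db32a200063d00015ab80074b20011ac00065320015ac072312a236cc002b58000ab641008770087700877008770087700877007bb007000069f0069f005e300583004c8003570035700357003570035700357002410024100241001e0001e0) .leaf .leaf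
def t29 : k29.all (jb2 57 fl b30) = true := by decide +kernel
noncomputable def k30 : KT := (.br (Nat.shiftLeft (nat_lit 0x2800001) (nat_lit 125)) (.one (nat_lit 0x500000100300400500801260a940a030424711)) (.one (nat_lit 0x500000200300400500801260a940a050824711)))
noncomputable def b31 : BT := .node (nat_lit 0x35) (nat_lit 0x4e0a4d49ce9632a193064625736d980073b600158d00065b0001932800572e00156c87bc25442d080074340011eb83bc24c24c948c4ae4db3000c89c002b18000af54002ad90b6c8984544000e794002399076c89d05156f0b6cc982001d2d00046b4001d2c80045cc16f09308a88001cf280046b40ed91454ae4001d0d00047ae0ef0a591382de149a1304003a59000ad5c003299000aa982008ff008ff008ff007e9007e9007e9007e9007e9007e9007e9007890078900789007890078900789006ce006ce006ce0066e0066e0066e0066e0066e0066e005b3005b3005b3005b3005b3005b300553005530055300553005530055300553005530055300553005530055300553005530055300553005530055300553004f3004f3004f300438) .leaf .leaf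
def t30 : k30.all (jb2 57 fl b31) = true := by decide +kernel
noncomputable def k31 : KT := (.one (nat_lit 0x600000100200400500801240c980a030424711))
noncomputable def b32 : BT := .node (nat_lit 0x3b) (nat_lit 0x258c9ce54449a139d26a96349b1304003a1b000ad60003317000cb60003a5a000ab8c3de12d0950db64db349a800662e0015ab80065b000194d05bc299249aa644a2a963000cb6000325b000cb640032990a58c97a9356d913a13252312a1a6480032d9000ca6800325d000ad5c0033170008d6039912a1939c0032d8000c9741db2273a59000329b000ac6419189308a8696326093a00039e60006e64003a61000ab702009ce009ce009ce009ce009ce009ce009ce009ce009ce008b8008b8007fd007fd007420062c0062c0062c0062c0062c0062c0062c0062c0062c0062c0062c005cc005cc005cc005cc005cc0056c0056c0056c0056c0056c0056c0056c0056c0056c0056c0056c0056c0056c0056c0056c0056c0056c0056c0056c0056c0056c0056c0056c0056c0056c0056c004b0004b0004b0004b0) .leaf .leaf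
def t31 : k31.all (jb2 57 fl b32) = true := by decide +kernel
noncomputable def k32 : KT := (.br (Nat.shiftLeft (nat_lit 0x3000001) (nat_lit 125)) (.one (nat_lit 0x600000100300400500801260c980a030424711)) (.one (nat_lit 0x600000200300400500801260c980a050824711)))
noncomputable def b33 : BT := .node (nat_lit 0x17) (nat_lit 0x2644982573000e698002b590658d2c64c1918939d26cde149ab6cc0032d8002c99400b2d90028b700132d8002ca643db2273939c003a980008c701db349a930400329a000ab8c10041600416003b6003b6003b6003b6002a0002a0002a0002a0002a0002a0002400024000240002400024000240001e0001e0001e0001e0001e0001e0) .leaf .leaf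
def t32 : k32.all (jb2 57 fl b33) = true := by decide +kernel
noncomputable def k33 : KT := (.one (nat_lit 0x700000100200400500801240e9c0a030424711))
noncomputable def b34 : BT := .node (nat_lit 0x17) (nat_lit 0x24d49ce4c0000cb680032a20673a4d89ce93649b130532293625ea4d89824e7002ea6000b2d8002cb640032a2002e8700032d8004e984012b19136c9b66572000ca64002bd5064d926c4c049b12f926cde14c91451b644c228ab7852c8992000ea6000aae2002cb6400b2d8006cb6000ab19002e89000a35a002e964002b1817785b665439189308a2a93525f1304003299000ae58003a240006d6c003a98000ab90396325ea4d9b669364b1b6cd26e4c1000cb6001329b006ea6001ab18004ca70012ae20e6492c64c14b114552c8db249b93000032d8000c89c003317000ca6800329c000ab88396449aa4d8003a59000cb641935261145526c4bd25ec8c4b42992000e890002b58000cb600032d8000ce540023580e4d897c4c16d9258c9832316d9939c003a98000ab8c0032d8000aa980032990008c70300baa00b4a00b4a00b4a00b4a009da009da009da0097a007ae007ae007ae0069800582005820046c0046c0046c0040c002f6002f6001e0001e0001e0) .leaf .leaf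
def t33 : k33.all (jb2 57 fl b34) = true := by decide +kernel
noncomputable def k34 : KT := (.br (Nat.shiftLeft (nat_lit 0x3800001) (nat_lit 125)) (.one (nat_lit 0x700000100300400500801260e9c0a030424711)) (.one (nat_lit 0x700000200300400500801260e9c0a050824711)))
noncomputable def b35 : BT := .node (nat_lit 0xb) (nat_lit 0x1b644e828aa4d926c4bd6d91308ae4005d2d00146b400996c00065b0005cd380147ae1ed9139d2c693625e92f40032d9000ac600032d8000cb602002c1001ab001ab001ab001ab001ab001ab001ab001ab000f0000f0000f0) .leaf .leaf
def t34 : k34.all (jb2 57 fl b35) = true := by decide +kernel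
noncomputable def k35 : KT := (.br (Nat.shiftLeft (nat_lit 0x8000001003) (nat_lit 112)) (.one (nat_lit 0x8000001002004005008012410a00a030424711)) (.one (nat_lit 0x8000001003004005008012610a00a030424711)))
noncomputable def b36 : BT := .node (nat_lit 0x2f) (nat_lit 0x126c4e726036c92c64c1000cb680032a2000cb60002aa60a4d926c4c16d91308ae523149c2649bc29376d98007530001571800734e0011eb800743a0011ac000653800194c8939c9ce4c06f0b6cd26e93625f24d9b649382b9000753000595080174b200156e00165b200596c002833a0091eb89bc2db32b926452704c0000ca64002b97000e878002ae10b6c89ce963273a4d898093625f13040032d9000ac60003a98000ca840032d8000ca8c30092d0092d00872008720087200872008720087200872008720087200872008720087200872008720087200701007010070100701007010070100701007010070100701007010070100701007010070100701005910059100591005910059100591005910059100591005910059100591004d6003c0003c0) .leaf .leaf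
def t35 : k35.all (jb2 57 fl b36) = true := by decide +kernel
noncomputable def k36 : KT := (.br (Nat.shiftLeft (nat_lit 0x3) (nat_lit 160)) (.br (Nat.shiftLeft (nat_lit 0x1) (nat_lit 160)) (.one (nat_lit 0x8000002003004005008012610a00a050824711)) (.br (Nat.shiftLeft (nat_lit 0x1) (nat_lit 161)) (.one (nat_lit 0x1000001002003004005008012640802a450a28811)) (.one (nat_lit 0x2000001002003004005008012680802a450c2c811)))) (.br (Nat.shiftLeft (nat_lit 0x5) (nat_lit 160)) (.br (Nat.shiftLeft (nat_lit 0x1) (nat_lit 162)) (.one (nat_lit 0x30000010020030040050080126c0802a450e30811)) (.one (nat_lit 0x4000001002003004005008012700802a451034811))) (.br (Nat.shiftLeft (nat_lit 0x3) (nat_lit 161)) (.one (nat_lit 0x5000001002003004005008012740802a451238811)) (.one (nat_lit 0x6000001002003004005008012780802a45143c811)))))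
noncomputable def b37 : BT := .node (nat_lit 0x1) (nat_lit 0x258d26a4c149a1308a2adb22741688003a59000ab90003a24000ad6000399d000905c30013e00028) .leaf .leaf
def t36 : k36.all (jb2 57 fl b37) = true := by decide +kernel
noncomputable def k37 : KT := (.br (Nat.shiftLeft (nat_lit 0x1) (nat_lit 163)) (.one (nat_lit 0x70000010020030040050080127c0802a451640811)) (.one (nat_lit 0x8000001002003004005008012800802a451844811)))
def t37 : k37.all (jb2 57 fl b0) = true := by decide +kernel
noncomputable def s1 : KT := (.br (nat_lit 0x700000300400500801260080ebc10024611) (.br (nat_lit 0x500000300400500801260080ab410024611) (.br (nat_lit 0x7000004005008012000800a0f1c24511) (.br (nat_lit 0x6000004005008012000800a0d1824511) k15 k16) (.br (nat_lit 0x4000002004005008012400808b010024611) k17 (.br (nat_lit 0x500000100400500801220080ab410024611) k18 k19))) (.br (nat_lit 0x600000300400500801260080cb810024611) (.br (nat_lit 0x600000100400500801220080cb810024611) k20 (.br (nat_lit 0x600000200400500801240080cb810024611) k21 k22)) (.br (nat_lit 0x700000100400500801220080ebc10024611)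 k23 (.br (nat_lit 0x700000200400500801240080ebc10024611) k24 k25)))) (.br (nat_lit 0x600000100200400500801240c980a030424711) (.br (nat_lit 0x4000002003004005008012608900a050824711) (.br (nat_lit 0x8000001004005008012200810c010024611) k26 (.br (nat_lit 0x8000002004005008012400810c010024611) k27 k28)) (.br (nat_lit 0x500000100200400500801240a940a030424711) k29 (.br (nat_lit 0x500000200300400500801260a940a050824711) k30 k31))) (.br (nat_lit 0x700000200300400500801260e9c0a050824711) (.br (nat_lit 0x600000200300400500801260c980a050824711) k32 (.br (nat_lit 0x700000100200400500801240e9c0a030424711) k33 k34)) (.br (nat_lit 0x8000001003004005008012610a00a030424711) k35 (.br (nat_lit 0x6000001002003004005008012780802a45143c811) k36 k37)))))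
noncomputable def u1 : KT := (.one (nat_lit 0x4005008012000800a010024540))
def w1 : u1.all (wj 57 s1) = true := by decide +kernel
def o1 : OkW 57 (jb2 57 fl) u1 := .lift s1 _ (.br _ _ _ (.br _ _ _ (.br _ _ _ (.br _ _ _ (.leaf b16 k15 t15) (.leaf b17 k16 t16)) (.br _ _ _ (.leaf b18 k17 t17) (.br _ _ _ (.leaf b0 k18 t18) (.leaf b0 k19 t19)))) (.br _ _ _ (.br _ _ _ (.leaf b21 k20 t20) (.br _ _ _ (.leaf b22 k21 t21) (.leaf b0 k22 t22))) (.br _ _ _ (.leaf b24 k23 t23) (.br _ _ _ (.leaf b25 k24 t24) (.leaf b26 k25 t25))))) (.br _ _ _ (.br _ _ _ (.br _ _ _ (.leaf b27 k26 t26) (.br _ _ _ (.leaf b28 k27 t27) (.leaf b29 k28 t28))) (.br _ _ _ (.leaf b30 k29 t29) (.br _ _ _ (.leaf b31 k30 t30) (.leaf b32 k31 t31)))) (.br _ _ _ (.br _ _ _ (.leaf b33 k32 t32) (.br _ _ _ (.leaf b34 k33 t33) (.leaf b35 k34 t34))) (.br _ _ _ (.leaf b36 k35 t35) (.br _ _ _ (.leaf b37 k36 t36) (.leaf b0 k37 t37)))))) w1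
noncomputable def k38 : KT := (.br (Nat.shiftLeft (nat_lit 0x1003) (nat_lit 112)) (.br (Nat.shiftLeft (nat_lit 0x3) (nat_lit 112)) (.br (Nat.shiftLeft (nat_lit 0x1) (nat_lit 112)) (.one (nat_lit 0x4005008013000800a010027500)) (.br (Nat.shiftLeft (nat_lit 0x1) (nat_lit 113)) (.one (nat_lit 0x1004005008013200800a010027600)) (.one (nat_lit 0x2004005008013400800a010027600)))) (.br (Nat.shiftLeft (nat_lit 0x1) (nat_lit 124)) (.one (nat_lit 0x3004005008013600800a010027600)) (.br (Nat.shiftLeft (nat_lit 0x801) (nat_lit 113)) (.one (nat_lit 0x1000004005008013000800a030426511)) (.one (nat_lit 0x1002004005008013400800a030427700))))) (.br (Nat.shiftLeft (nat_lit 0x3) (nat_lit 124)) (.br (Nat.shiftLeft (nat_lit 0x1) (nat_lit 125)) (.one (nat_lit 0x1003004005008013600800a030427700)) (.br (Nat.shiftLeft (nat_lit 0x1001) (nat_lit 113)) (.one (nat_lit 0x2000004005008013000800a050826511)) (.one (nat_lit 0x2003004005008013600800a050827700)))) (.br (Nat.shiftLeft (nat_lit 0x5) (nat_lit 124)) (.br (Nat.shiftLeft (nat_lit 0x1) (nat_lit 126)) (.one (nat_lit 0x3000004005008013000800a070c26511))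 (.one (nat_lit 0x4000004005008013000800a091026511))) (.br (Nat.shiftLeft (nat_lit 0x3) (nat_lit 125)) (.one (nat_lit 0x5000004005008013000800a0b1426511)) (.one (nat_lit 0x6000004005008013000800a0d1826511))))))
noncomputable def b39 : BT := .node (nat_lit 0x3) (nat_lit 0x49a9304a88001cf3000572c0ef0b6d09852314b236cc00329a000aa980032d8000ab6420016b0010b0005000050) .leaf .leaf
def t38 : k38.all (jb2 57 fl b39) = true := by decide +kernel
noncomputable def k39 : KT := (.br (Nat.shiftLeft (nat_lit 0x1) (nat_lit 136)) (.br (Nat.shiftLeft (nat_lit 0x1) (nat_lit 127)) (.one (nat_lit 0x7000004005008013000800a0f1c26511)) (.one (nat_lit 0x8000004005008013000800a112026511))) (.br (Nat.shiftLeft (nat_lit 0x800001) (nat_lit 113)) (.one (nat_lit 0x1000001004005008013200802a410026611)) (.br (Nat.shiftLeft (nat_lit 0x1000003) (nat_lit 112)) (.one (nat_lit 0x1000002004005008013400802a410026611)) (.one (nat_lit 0x1000003004005008013600802a410026611)))))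
noncomputable def b40 : BT := .node (nat_lit 0x17) (nat_lit 0x289939ca86001d4c00065b00c8c4a2adb36f0939d26c5426da139c002b19000ab640032d9000aa7000421a000ab6c3db36d9a590003a98000ac641003b6003b6003b6003b6003b6003b6003b6003b6003570035700240002400024000240002400024000240002400024000240002400024000240001e0) .leaf .leaf
def t39 : k39.all (jb2 57 fl b40) = true := by decide +kernel
noncomputable def k40 : KT := (.br (Nat.shiftLeft (nat_lit 0x3) (nat_lit 136)) (.br (Nat.shiftLeft (nat_lit 0x1000001) (nat_lit 113)) (.br (Nat.shiftLeft (nat_lit 0x1) (nat_lit 137)) (.one (nat_lit 0x1002003004005008013600802a450826870)) (.one (nat_lit 0x2000001004005008013200804a810026611))) (.br (Nat.shiftLeft (nat_lit 0x2000003) (nat_lit 112)) (.one (nat_lit 0x2000002004005008013400804a810026611)) (.one (nat_lit 0x2000003004005008013600804a810026611)))) (.br (Nat.shiftLeft (nat_lit 0x3000003) (nat_lit 112)) (.br (Nat.shiftLeft (nat_lit 0x1800001) (nat_lit 113)) (.one (nat_lit 0x3000001004005008013200806ac10026611)) (.one (nat_lit 0x3000002004005008013400806ac10026611)))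 (.br (Nat.shiftLeft (nat_lit 0x1) (nat_lit 138)) (.one (nat_lit 0x3000003004005008013600806ac10026611)) (.one (nat_lit 0x4000001004005008013200808b010026611)))))
def t40 : k40.all (jb2 57 fl b0) = true := by decide +kernel
noncomputable def k41 : KT := (.br (Nat.shiftLeft (nat_lit 0x4000003) (nat_lit 112)) (.one (nat_lit 0x4000002004005008013400808b010026611)) (.br (Nat.shiftLeft (nat_lit 0x5) (nat_lit 136)) (.one (nat_lit 0x4000003004005008013600808b010026611)) (.one (nat_lit 0x500000100400500801320080ab410026611))))
def t41 : k41.all (jb2 57 fl b0) = true := by decide +kernel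
noncomputable def k42 : KT := (.br (Nat.shiftLeft (nat_lit 0x5000003) (nat_lit 112)) (.one (nat_lit 0x500000200400500801340080ab410026611)) (.one (nat_lit 0x500000300400500801360080ab410026611)))
def t42 : k42.all (jb2 57 fl b0) = true := by decide +kernel
noncomputable def k43 : KT := (.one (nat_lit 0x600000100400500801320080cb810026611))
noncomputable def b44 : BT := .node (nat_lit 0x1) (nat_lit 0x48c52c699291913092c693549b1308013299004ac6000b2660008c64003a98002ab9030013f00028) .leaf .leaf
def t43 : k43.all (jb2 57 fl b44) = true := by decide +kernel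
noncomputable def k44 : KT := (.one (nat_lit 0x600000200400500801340080cb810026611))
noncomputable def b45 : BT := .node (nat_lit 0x1) (nat_lit 0xdb22a1a590003317000ab6810008800028) .leaf .leaf
def t44 : k44.all (jb2 57 fl b45) = true := by decide +kernel
noncomputable def k45 : KT := (.one (nat_lit 0x600000300400500801360080cb810026611))
def t45 : k45.all (jb2 57 fl b0) = true := by decide +kernel
noncomputable def k46 : KT := (.one (nat_lit 0x700000100400500801320080ebc10026611))
noncomputable def b47 : BT := .node (nat_lit 0x1) (nat_lit 0xdb36d993080032d8000aa9c10008800028) .leaf .leaf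
def t46 : k46.all (jb2 57 fl b47) = true := by decide +kernel
noncomputable def k47 : KT := (.br (Nat.shiftLeft (nat_lit 0x7000003) (nat_lit 112)) (.one (nat_lit 0x700000200400500801340080ebc10026611)) (.one (nat_lit 0x700000300400500801360080ebc10026611)))
noncomputable def b48 : BT := .node (nat_lit 0x1) (nat_lit 0x2b8a4d926c57126112f800c19c004cb6000b9a8000cb602000e200028) .leaf .leaf
def t47 : k47.all (jb2 57 fl b48) = true := by decide +kernel
noncomputable def k48 : KT := (.one (nat_lit 0x8000001004005008013200810c010026611))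
noncomputable def b49 : BT := .node (nat_lit 0xb) (nat_lit 0x49b24dc97cdb36d9a4dc0032d9000cb60003a98000ab6c296426124dc0032a2000ca7010020b0020b00150001500015000150000f0000f0000f0000f0000f0000f0) .leaf .leaf
def t48 : k48.all (jb2 57 fl b49) = true := by decide +kernel
noncomputable def k49 : KT := (.br (Nat.shiftLeft (nat_lit 0x1) (nat_lit 149)) (.br (Nat.shiftLeft (nat_lit 0x1) (nat_lit 148)) (.br (Nat.shiftLeft (nat_lit 0x8000003) (nat_lit 112)) (.one (nat_lit 0x8000002004005008013400810c010026611)) (.one (nat_lit 0x8000003004005008013600810c010026611))) (.br (Nat.shiftLeft (nat_lit 0x1000001003) (nat_lit 112)) (.one (nat_lit 0x1000001002004005008013402840a030426711)) (.br (Nat.shiftLeft (nat_lit 0x800001) (nat_lit 125)) (.one (nat_lit 0x1000001003004005008013602840a030426711)) (.one (nat_lit 0x1000002003004005008013602840a050826711))))) (.br (Nat.shiftLeft (nat_lit 0x3) (nat_lit 148)) (.br (Nat.shiftLeft (nat_lit 0x2000001003) (nat_lit 112)) (.one (nat_lit 0x2000001002004005008013404880a030426711)) (.br (Nat.shiftLeft (nat_lit 0x1000001)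 (nat_lit 125)) (.one (nat_lit 0x2000001003004005008013604880a030426711)) (.one (nat_lit 0x2000002003004005008013604880a050826711)))) (.br (Nat.shiftLeft (nat_lit 0x3000001003) (nat_lit 112)) (.one (nat_lit 0x30000010020040050080134068c0a030426711)) (.br (Nat.shiftLeft (nat_lit 0x1800001) (nat_lit 125)) (.one (nat_lit 0x30000010030040050080136068c0a030426711)) (.one (nat_lit 0x30000020030040050080136068c0a050826711))))))
noncomputable def b50 : BT := .node (nat_lit 0xb) (nat_lit 0x3785b664c2000ca64002aa7066492704c16f0950cae4001d0e80055c4001d2c8004730154349ba4d80041db000cb6010026a0026a0026a0026a0020a0020a0014f0014f0014f0014f0014f000f0) .leaf .leaf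
def t49 : k49.all (jb2 57 fl b50) = true := by decide +kernel
noncomputable def k50 : KT := (.br (Nat.shiftLeft (nat_lit 0x2000001) (nat_lit 125)) (.br (Nat.shiftLeft (nat_lit 0x4000001003) (nat_lit 112)) (.one (nat_lit 0x4000001002004005008013408900a030426711)) (.one (nat_lit 0x4000001003004005008013608900a030426711))) (.br (Nat.shiftLeft (nat_lit 0x5) (nat_lit 148)) (.one (nat_lit 0x4000002003004005008013608900a050826711)) (.one (nat_lit 0x500000100200400500801340a940a030426711))))
noncomputable def b51 : BT := .node (nat_lit 0xb) (nat_lit 0x6d924d0a2a00194c80056b00ed993089ce001d3100046380ed91455382db249aa64800325b000ae58003a1a000ad5c20026b0020b0020b0020b0020b0020b0020b0020b0020b001ab001ab000f0) .leaf .leaf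
def t50 : k50.all (jb2 57 fl b51) = true := by decide +kernel
noncomputable def k51 : KT := (.br (Nat.shiftLeft (nat_lit 0x2800001) (nat_lit 125)) (.one (nat_lit 0x500000100300400500801360a940a030426711)) (.one (nat_lit 0x500000200300400500801360a940a050826711)))
noncomputable def b52 : BT := .node (nat_lit 0x1) (nat_lit 0x12312a226480033180008d6010008900028) .leaf .leaf
def t51 : k51.all (jb2 57 fl b52) = true := by decide +kernel
noncomputable def k52 : KT := (.br (Nat.shiftLeft (nat_lit 0x6000001003) (nat_lit 112)) (.one (nat_lit 0x600000100200400500801340c980a030426711)) (.one (nat_lit 0x600000100300400500801360c980a030426711)))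
noncomputable def b53 : BT := .node (nat_lit 0x1) (nat_lit 0x49a92f898493525f24d4003a98000ab900032d9000cb602000e300028) .leaf .leaf
def t52 : k52.all (jb2 57 fl b53) = true := by decide +kernel
noncomputable def k53 : KT := (.br (Nat.shiftLeft (nat_lit 0x7) (nat_lit 148)) (.one (nat_lit 0x600000200300400500801360c980a050826711)) (.one (nat_lit 0x700000100200400500801340e9c0a030426711)))
noncomputable def b54 : BT := .node (nat_lit 0xb) (nat_lit 0x36c89ce4e76d936cd2c6005d4c001463800996c00065b0149b12f926cde12d0a6480032d9000cb60003395000ac602002660026600266001ab001ab001ab001ab001ab001ab001ab001ab000f0) .leaf .leaf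
def t53 : k53.all (jb2 57 fl b54) = true := by decide +kernel
noncomputable def k54 : KT := (.br (Nat.shiftLeft (nat_lit 0x3800001) (nat_lit 125)) (.one (nat_lit 0x700000100300400500801360e9c0a030426711)) (.br (Nat.shiftLeft (nat_lit 0x1) (nat_lit 151)) (.one (nat_lit 0x700000200300400500801360e9c0a050826711)) (.one (nat_lit 0x8000001002004005008013410a00a030426711))))
noncomputable def b55 : BT := .node (nat_lit 0x1) (nat_lit 0x123149ba648003a1d0008d6010008900028) .leaf .leaf
def t54 : k54.all (jb2 57 fl b55) = true := by decide +kernel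
noncomputable def k55 : KT := (.br (Nat.shiftLeft (nat_lit 0x4000001) (nat_lit 125)) (.one (nat_lit 0x8000001003004005008013610a00a030426711)) (.one (nat_lit 0x8000002003004005008013610a00a050826711)))
def t55 : k55.all (jb2 57 fl b0) = true := by decide +kernel
noncomputable def s2 : KT := (.br (nat_lit 0x700000100400500801320080ebc10026611) (.br (nat_lit 0x500000100400500801320080ab410026611) (.br (nat_lit 0x1000003004005008013600802a410026611) (.br (nat_lit 0x6000004005008013000800a0d1826511) k38 k39) (.br (nat_lit 0x4000001004005008013200808b010026611) k40 k41)) (.br (nat_lit 0x600000100400500801320080cb810026611) (.br (nat_lit 0x500000300400500801360080ab410026611) k42 k43) (.br (nat_lit 0x600000200400500801340080cb810026611) k44 (.br (nat_lit 0x600000300400500801360080cb810026611) k45 k46)))) (.br (nat_lit 0x500000100200400500801340a940a030426711) (.br (nat_lit 0x8000001004005008013200810c010026611) (.br (nat_lit 0x700000300400500801360080ebc10026611) k47 k48) (.br (nat_lit 0x30000020030040050080136068c0a050826711) k49 k50)) (.br (nat_lit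 0x600000100300400500801360c980a030426711) (.br (nat_lit 0x500000200300400500801360a940a050826711) k51 k52) (.br (nat_lit 0x700000100200400500801340e9c0a030426711) k53 (.br (nat_lit 0x8000001002004005008013410a00a030426711) k54 k55)))))
noncomputable def u2 : KT := (.one (nat_lit 0x4005008013000800a010026540))
def w2 : u2.all (wj 57 s2) = true := by decide +kernel
def o2 : OkW 57 (jb2 57 fl) u2 := .lift s2 _ (.br _ _ _ (.br _ _ _ (.br _ _ _ (.br _ _ _ (.leaf b39 k38 t38) (.leaf b40 k39 t39)) (.br _ _ _ (.leaf b0 k40 t40) (.leaf b0 k41 t41))) (.br _ _ _ (.br _ _ _ (.leaf b0 k42 t42) (.leaf b44 k43 t43)) (.br _ _ _ (.leaf b45 k44 t44) (.br _ _ _ (.leaf b0 k45 t45) (.leaf b47 k46 t46))))) (.br _ _ _ (.br _ _ _ (.br _ _ _ (.leaf b48 k47 t47) (.leaf b49 k48 t48)) (.br _ _ _ (.leaf b50 k49 t49) (.leaf b51 k50 t50))) (.br _ _ _ (.br _ _ _ (.leaf b52 k51 t51) (.leaf b53 k52 t52)) (.br _ _ _ (.leaf b54 k53 t53) (.br _ _ _ (.leaf b55 k54 t54) (.leaf b0 k55 t55)))))) w2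
noncomputable def k56 : KT := (.br (Nat.shiftLeft (nat_lit 0x1) (nat_lit 124)) (.br (Nat.shiftLeft (nat_lit 0x4005009011) (nat_lit 64)) (.br (Nat.shiftLeft (nat_lit 0x400500900f) (nat_lit 64)) (.br (Nat.shiftLeft (nat_lit 0x4005009) (nat_lit 76)) (.one (nat_lit 0x4005008014000800a010029500)) (.one (nat_lit 0x400500900e000800a01201d500))) (.br (Nat.shiftLeft (nat_lit 0x400500901) (nat_lit 68)) (.one (nat_lit 0x400500900f000800a01201f500)) (.one (nat_lit 0x4005009010000800a012021500)))) (.br (Nat.shiftLeft (nat_lit 0x1) (nat_lit 113)) (.br (Nat.shiftLeft (nat_lit 0x1) (nat_lit 112)) (.one (nat_lit 0x4005009011000800a012023500)) (.one (nat_lit 0x1004005008014200800a010029600))) (.br (Nat.shiftLeft (nat_lit 0x3) (nat_lit 112)) (.one (nat_lit 0x2004005008014400800a010029600)) (.one (nat_lit 0x3004005008014600800a010029600))))) (.br (Nat.shiftLeft (nat_lit 0x1001) (nat_lit 113)) (.br (Nat.shiftLeft (nat_lit 0x1003) (nat_lit 112)) (.br (Nat.shiftLeft (nat_lit 0x801) (nat_lit 113)) (.one (nat_lit 0x1000004005008014000800a030428511)) (.one (nat_lit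 0x1002004005008014400800a030429700))) (.br (Nat.shiftLeft (nat_lit 0x1) (nat_lit 125)) (.one (nat_lit 0x1003004005008014600800a030429700)) (.one (nat_lit 0x2000004005008014000800a050828511)))) (.br (Nat.shiftLeft (nat_lit 0x1) (nat_lit 126)) (.br (Nat.shiftLeft (nat_lit 0x3) (nat_lit 124)) (.one (nat_lit 0x2003004005008014600800a050829700)) (.one (nat_lit 0x3000004005008014000800a070c28511))) (.br (Nat.shiftLeft (nat_lit 0x5) (nat_lit 124)) (.one (nat_lit 0x4000004005008014000800a091028511)) (.br (Nat.shiftLeft (nat_lit 0x3) (nat_lit 125)) (.one (nat_lit 0x5000004005008014000800a0b1428511)) (.one (nat_lit 0x6000004005008014000800a0d1828511)))))))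
noncomputable def b57 : BT := .node (nat_lit 0x1) (nat_lit 0xdb3261939c003a640008c6c10008800028) .leaf .leaf
def t56 : k56.all (jb2 57 fl b57) = true := by decide +kernel
noncomputable def k57 : KT := (.br (Nat.shiftLeft (nat_lit 0x1) (nat_lit 136)) (.br (Nat.shiftLeft (nat_lit 0x1) (nat_lit 127)) (.one (nat_lit 0x7000004005008014000800a0f1c28511)) (.one (nat_lit 0x8000004005008014000800a112028511))) (.br (Nat.shiftLeft (nat_lit 0x800001) (nat_lit 113)) (.one (nat_lit 0x1000001004005008014200802a410028611)) (.br (Nat.shiftLeft (nat_lit 0x1000003) (nat_lit 112)) (.one (nat_lit 0x1000002004005008014400802a410028611)) (.one (nat_lit 0x1000003004005008014600802a410028611)))))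
def t57 : k57.all (jb2 57 fl b0) = true := by decide +kernel
noncomputable def k58 : KT := (.br (Nat.shiftLeft (nat_lit 0x1800001) (nat_lit 113)) (.br (Nat.shiftLeft (nat_lit 0x1000001) (nat_lit 113)) (.br (Nat.shiftLeft (nat_lit 0x1) (nat_lit 137)) (.one (nat_lit 0x1002003004005008014600802a450828870)) (.one (nat_lit 0x2000001004005008014200804a810028611))) (.br (Nat.shiftLeft (nat_lit 0x2000003) (nat_lit 112)) (.one (nat_lit 0x2000002004005008014400804a810028611)) (.br (Nat.shiftLeft (nat_lit 0x3) (nat_lit 136)) (.one (nat_lit 0x2000003004005008014600804a810028611)) (.one (nat_lit 0x3000001004005008014200806ac10028611))))) (.br (Nat.shiftLeft (nat_lit 0x1) (nat_lit 138)) (.br (Nat.shiftLeft (nat_lit 0x3000003) (nat_lit 112)) (.one (nat_lit 0x3000002004005008014400806ac10028611)) (.one (nat_lit 0x3000003004005008014600806ac10028611))) (.br (Nat.shiftLeft (nat_lit 0x2000001) (nat_lit 113)) (.one (nat_lit 0x4000001004005008014200808b010028611)) (.br (Nat.shiftLeft (nat_lit 0x4000003) (nat_lit 112)) (.one (nat_lit 0x4000002004005008014400808b010028611))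 (.one (nat_lit 0x4000003004005008014600808b010028611))))))
def t58 : k58.all (jb2 57 fl b0) = true := by decide +kernel
noncomputable def k59 : KT := (.br (Nat.shiftLeft (nat_lit 0x2800001) (nat_lit 113)) (.one (nat_lit 0x500000100400500801420080ab410028611)) (.one (nat_lit 0x500000200400500801440080ab410028611)))
def t59 : k59.all (jb2 57 fl b0) = true := by decide +kernel
noncomputable def k60 : KT := (.br (Nat.shiftLeft (nat_lit 0x3) (nat_lit 137)) (.one (nat_lit 0x500000300400500801460080ab410028611)) (.one (nat_lit 0x600000100400500801420080cb810028611)))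
def t60 : k60.all (jb2 57 fl b0) = true := by decide +kernel
noncomputable def k61 : KT := (.br (Nat.shiftLeft (nat_lit 0x6000003) (nat_lit 112)) (.one (nat_lit 0x600000200400500801440080cb810028611)) (.one (nat_lit 0x600000300400500801460080cb810028611)))
def t61 : k61.all (jb2 57 fl b0) = true := by decide +kernel
noncomputable def k62 : KT := (.br (Nat.shiftLeft (nat_lit 0x3800001) (nat_lit 113)) (.one (nat_lit 0x700000100400500801420080ebc10028611)) (.one (nat_lit 0x700000200400500801440080ebc10028611)))
def t62 : k62.all (jb2 57 fl b0) = true := by decide +kernel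
noncomputable def k63 : KT := (.br (Nat.shiftLeft (nat_lit 0x1) (nat_lit 139)) (.one (nat_lit 0x700000300400500801460080ebc10028611)) (.one (nat_lit 0x8000001004005008014200810c010028611)))
def t63 : k63.all (jb2 57 fl b0) = true := by decide +kernel
noncomputable def k64 : KT := (.br (Nat.shiftLeft (nat_lit 0x2000001003) (nat_lit 112)) (.br (Nat.shiftLeft (nat_lit 0x1000001003) (nat_lit 112)) (.br (Nat.shiftLeft (nat_lit 0x8000003) (nat_lit 112)) (.one (nat_lit 0x8000002004005008014400810c010028611)) (.br (Nat.shiftLeft (nat_lit 0x1) (nat_lit 148)) (.one (nat_lit 0x8000003004005008014600810c010028611)) (.one (nat_lit 0x1000001002004005008014402840a030428711)))) (.br (Nat.shiftLeft (nat_lit 0x800001) (nat_lit 125)) (.one (nat_lit 0x1000001003004005008014602840a030428711)) (.br (Nat.shiftLeft (nat_lit 0x1) (nat_lit 149)) (.one (nat_lit 0x1000002003004005008014602840a050828711)) (.one (nat_lit 0x2000001002004005008014404880a030428711))))) (.br (Nat.shiftLeft (nat_lit 0x3000001003) (nat_lit 112)) (.br (Nat.shiftLeft (nat_lit 0x1000001) (nat_lit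 125)) (.one (nat_lit 0x2000001003004005008014604880a030428711)) (.br (Nat.shiftLeft (nat_lit 0x3) (nat_lit 148)) (.one (nat_lit 0x2000002003004005008014604880a050828711)) (.one (nat_lit 0x30000010020040050080144068c0a030428711)))) (.br (Nat.shiftLeft (nat_lit 0x1) (nat_lit 150)) (.br (Nat.shiftLeft (nat_lit 0x1800001) (nat_lit 125)) (.one (nat_lit 0x30000010030040050080146068c0a030428711)) (.one (nat_lit 0x30000020030040050080146068c0a050828711))) (.br (Nat.shiftLeft (nat_lit 0x4000001003) (nat_lit 112)) (.one (nat_lit 0x4000001002004005008014408900a030428711)) (.one (nat_lit 0x4000001003004005008014608900a030428711))))))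
def t64 : k64.all (jb2 57 fl b0) = true := by decide +kernel
noncomputable def k65 : KT := (.br (Nat.shiftLeft (nat_lit 0x5000001003) (nat_lit 112)) (.br (Nat.shiftLeft (nat_lit 0x5) (nat_lit 148)) (.one (nat_lit 0x4000002003004005008014608900a050828711)) (.one (nat_lit 0x500000100200400500801440a940a030428711))) (.br (Nat.shiftLeft (nat_lit 0x2800001) (nat_lit 125)) (.one (nat_lit 0x500000100300400500801460a940a030428711)) (.one (nat_lit 0x500000200300400500801460a940a050828711))))
def t65 : k65.all (jb2 57 fl b0) = true := by decide +kernel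
noncomputable def k66 : KT := (.br (Nat.shiftLeft (nat_lit 0x6000001003) (nat_lit 112)) (.one (nat_lit 0x600000100200400500801440c980a030428711)) (.br (Nat.shiftLeft (nat_lit 0x3000001) (nat_lit 125)) (.one (nat_lit 0x600000100300400500801460c980a030428711)) (.one (nat_lit 0x600000200300400500801460c980a050828711))))
def t66 : k66.all (jb2 57 fl b0) = true := by decide +kernel
noncomputable def k67 : KT := (.br (Nat.shiftLeft (nat_lit 0x3800001) (nat_lit 125)) (.br (Nat.shiftLeft (nat_lit 0x7000001003) (nat_lit 112)) (.one (nat_lit 0x700000100200400500801440e9c0a030428711)) (.one (nat_lit 0x700000100300400500801460e9c0a030428711))) (.br (Nat.shiftLeft (nat_lit 0x1) (nat_lit 151)) (.one (nat_lit 0x700000200300400500801460e9c0a050828711)) (.one (nat_lit 0x8000001002004005008014410a00a030428711))))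
def t67 : k67.all (jb2 57 fl b0) = true := by decide +kernel
noncomputable def k68 : KT := (.br (Nat.shiftLeft (nat_lit 0x4000001) (nat_lit 125)) (.one (nat_lit 0x8000001003004005008014610a00a030428711)) (.one (nat_lit 0x8000002003004005008014610a00a050828711)))
def t68 : k68.all (jb2 57 fl b0) = true := by decide +kernel
noncomputable def s3 : KT := (.br (nat_lit 0x600000300400500801460080cb810028611) (.br (nat_lit 0x4000003004005008014600808b010028611) (.br (nat_lit 0x6000004005008014000800a0d1828511) k56 (.br (nat_lit 0x1000003004005008014600802a410028611) k57 k58)) (.br (nat_lit 0x500000200400500801440080ab410028611) k59 (.br (nat_lit 0x600000100400500801420080cb810028611) k60 k61))) (.br (nat_lit 0x4000001003004005008014608900a030428711) (.br (nat_lit 0x700000200400500801440080ebc10028611) k62 (.br (nat_lit 0x8000001004005008014200810c010028611) k63 k64)) (.br (nat_lit 0x600000200300400500801460c980a050828711) (.br (nat_lit 0x500000200300400500801460a940a050828711) k65 k66) (.br (nat_lit 0x8000001002004005008014410a00a030428711) k67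 k68))))
noncomputable def u3 : KT := (.br (Nat.shiftLeft (nat_lit 0x400500900f) (nat_lit 64)) (.br (Nat.shiftLeft (nat_lit 0x4005009) (nat_lit 76)) (.one (nat_lit 0x4005008014000800a010028540)) (.one (nat_lit 0x400500900e000800a01201d500))) (.br (Nat.shiftLeft (nat_lit 0x400500901) (nat_lit 68)) (.one (nat_lit 0x400500900f000800a01201f500)) (.br (Nat.shiftLeft (nat_lit 0x4005009011) (nat_lit 64)) (.one (nat_lit 0x4005009010000800a012021500)) (.one (nat_lit 0x4005009011000800a012023500)))))
def w3 : u3.all (wj 57 s3) = true := by decide +kernel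
def o3 : OkW 57 (jb2 57 fl) u3 := .lift s3 _ (.br _ _ _ (.br _ _ _ (.br _ _ _ (.leaf b57 k56 t56) (.br _ _ _ (.leaf b0 k57 t57) (.leaf b0 k58 t58))) (.br _ _ _ (.leaf b0 k59 t59) (.br _ _ _ (.leaf b0 k60 t60) (.leaf b0 k61 t61)))) (.br _ _ _ (.br _ _ _ (.leaf b0 k62 t62) (.br _ _ _ (.leaf b0 k63 t63) (.leaf b0 k64 t64))) (.br _ _ _ (.br _ _ _ (.leaf b0 k65 t65) (.leaf b0 k66 t66)) (.br _ _ _ (.leaf b0 k67 t67) (.leaf b0 k68 t68))))) w3
noncomputable def k69 : KT := (.br (Nat.shiftLeft (nat_lit 0x1003) (nat_lit 112)) (.br (Nat.shiftLeft (nat_lit 0x3) (nat_lit 112)) (.br (Nat.shiftLeft (nat_lit 0x1) (nat_lit 112)) (.one (nat_lit 0x4005009012000800a012025500)) (.br (Nat.shiftLeft (nat_lit 0x1) (nat_lit 113)) (.one (nat_lit 0x1004005009012200800a012025600)) (.one (nat_lit 0x2004005009012400800a012025600)))) (.br (Nat.shiftLeft (nat_lit 0x1) (nat_lit 124)) (.one (nat_lit 0x3004005009012600800a012025600)) (.br (Nat.shiftLeft (nat_lit 0x801) (nat_lit 113)) (.one (nat_lit 0x1000004005009012000800a032424511)) (.one (nat_lit 0x1002004005009012400800a032425700)))))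 (.br (Nat.shiftLeft (nat_lit 0x3) (nat_lit 124)) (.br (Nat.shiftLeft (nat_lit 0x1) (nat_lit 125)) (.one (nat_lit 0x1003004005009012600800a032425700)) (.br (Nat.shiftLeft (nat_lit 0x1001) (nat_lit 113)) (.one (nat_lit 0x2000004005009012000800a052824511)) (.one (nat_lit 0x2003004005009012600800a052825700)))) (.br (Nat.shiftLeft (nat_lit 0x5) (nat_lit 124)) (.br (Nat.shiftLeft (nat_lit 0x1) (nat_lit 126)) (.one (nat_lit 0x3000004005009012000800a072c24511)) (.one (nat_lit 0x4000004005009012000800a093024511))) (.br (Nat.shiftLeft (nat_lit 0x3) (nat_lit 125)) (.one (nat_lit 0x5000004005009012000800a0b3424511)) (.one (nat_lit 0x6000004005009012000800a0d3824511))))))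
noncomputable def b70 : BT := .node (nat_lit 0x3) (nat_lit 0x123191913a00032d80008b781918a5912c6de24b1950c0032d8000ab64003299000ad5c20016d0010c0005000050) .leaf .leaf
def t69 : k69.all (jb2 57 fl b70) = true := by decide +kernel
noncomputable def k70 : KT := (.br (Nat.shiftLeft (nat_lit 0x1) (nat_lit 127)) (.one (nat_lit 0x7000004005009012000800a0f3c24511)) (.one (nat_lit 0x8000004005009012000800a114024511)))
noncomputable def b71 : BT := .node (nat_lit 0x17) (nat_lit 0x543260950c0039e6000cb6019914c9258d2c64be274150926e4be918b7892c6001d4c0016532009d4c00155b8005d0e80165b200596c00155b2254249b13a40041db000ac6c196349ba59126c93726080074b600196c000753200157105b6696326080065b000155303b664be260a590a285436d993a12c854349ba4dc0032d8004aa9401ba59006ad5c01329c004ac640141dc004cb6040069b0069b0069b0069b0069b0069b0069b0063c0063c004cb004cb004cb0046c0046c0046c0046c003b10035100351003510035100351001e0001e0) .leaf .leaf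
def t70 : k70.all (jb2 57 fl b71) = true := by decide +kernel
noncomputable def k71 : KT := (.br (Nat.shiftLeft (nat_lit 0x800001) (nat_lit 113)) (.br (Nat.shiftLeft (nat_lit 0x1) (nat_lit 136)) (.one (nat_lit 0x9000004005009012000800a134424511)) (.one (nat_lit 0x1000001004005009012200802a412024611))) (.br (Nat.shiftLeft (nat_lit 0x1000003) (nat_lit 112)) (.one (nat_lit 0x1000002004005009012400802a412024611)) (.one (nat_lit 0x1000003004005009012600802a412024611))))
noncomputable def b72 : BT := .node (nat_lit 0xb) (nat_lit 0xdb3274258c00329c000ac60196349c13a0004259000ab701001b000150000f0000f0000f0000f0000f0000f0000f0000f0000f0000f0) .leaf .leaf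
def t71 : k71.all (jb2 57 fl b72) = true := by decide +kernel
noncomputable def k72 : KT := (.br (Nat.shiftLeft (nat_lit 0x2000003) (nat_lit 112)) (.br (Nat.shiftLeft (nat_lit 0x1) (nat_lit 137)) (.one (nat_lit 0x1002003004005009012600802a452824870)) (.br (Nat.shiftLeft (nat_lit 0x1000001) (nat_lit 113)) (.one (nat_lit 0x2000001004005009012200804a812024611)) (.one (nat_lit 0x2000002004005009012400804a812024611)))) (.br (Nat.shiftLeft (nat_lit 0x1800001) (nat_lit 113)) (.br (Nat.shiftLeft (nat_lit 0x3) (nat_lit 136)) (.one (nat_lit 0x2000003004005009012600804a812024611)) (.one (nat_lit 0x3000001004005009012200806ac12024611))) (.br (Nat.shiftLeft (nat_lit 0x3000003) (nat_lit 112)) (.one (nat_lit 0x3000002004005009012400806ac12024611)) (.one (nat_lit 0x3000003004005009012600806ac12024611)))))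
def t72 : k72.all (jb2 57 fl b0) = true := by decide +kernel
noncomputable def k73 : KT := (.br (Nat.shiftLeft (nat_lit 0x4000003) (nat_lit 112)) (.br (Nat.shiftLeft (nat_lit 0x2000001) (nat_lit 113)) (.one (nat_lit 0x4000001004005009012200808b012024611)) (.one (nat_lit 0x4000002004005009012400808b012024611))) (.br (Nat.shiftLeft (nat_lit 0x5) (nat_lit 136)) (.one (nat_lit 0x4000003004005009012600808b012024611)) (.one (nat_lit 0x500000100400500901220080ab412024611))))
def t73 : k73.all (jb2 57 fl b0) = true := by decide +kernel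
noncomputable def k74 : KT := (.br (Nat.shiftLeft (nat_lit 0x5000003) (nat_lit 112)) (.one (nat_lit 0x500000200400500901240080ab412024611)) (.one (nat_lit 0x500000300400500901260080ab412024611)))
def t74 : k74.all (jb2 57 fl b0) = true := by decide +kernel
noncomputable def k75 : KT := (.one (nat_lit 0x600000100400500901220080cb812024611))
noncomputable def b76 : BT := .node (nat_lit 0x1) (nat_lit 0x26453249356f0b6cd26c991274150c00ba98004e964003a59002ab6800ba1d002ac6430013e00028) .leaf .leaf
def t75 : k75.all (jb2 57 fl b76) = true := by decide +kernel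
noncomputable def k76 : KT := (.one (nat_lit 0x600000200400500901240080cb812024611))
noncomputable def b77 : BT := .node (nat_lit 0x1) (nat_lit 0x96326013a4003a60000ab7410008800028) .leaf .leaf
def t76 : k76.all (jb2 57 fl b77) = true := by decide +kernel
noncomputable def k77 : KT := (.one (nat_lit 0x600000300400500901260080cb812024611))
def t77 : k77.all (jb2 57 fl b0) = true := by decide +kernel
noncomputable def k78 : KT := (.one (nat_lit 0x700000100400500901220080ebc12024611))
noncomputable def b79 : BT := .node (nat_lit 0xb) (nat_lit 0x6da130526c00195100055b40d4349b13a00041db000ac6419632a1a6480032d9000cb601db326013a0003a600008c7410026f0026f0026f0020f0020f001b0001b0001b0001b00015000150000f0) .leaf .leaf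
def t78 : k78.all (jb2 57 fl b79) = true := by decide +kernel
noncomputable def k79 : KT := (.one (nat_lit 0x700000200400500901240080ebc12024611))
noncomputable def b80 : BT := .node (nat_lit 0x17) (nat_lit 0xdb225f1305b644e84b23785b664e7002ea6000a2e6002ca70002b19002ca64012b190e645b66937000e96400329b066489d0542000e778002b570673930097c001d3000065b40d7149b15c800419c000cb601de126095c80039a70008e601004d4004d4004d4004d4004d4004d4003be003be0035e0035e002fe002fe0029f0029f0029f00240002400024000240001e0001e0001e0001e0001e0) .leaf .leaf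
def t79 : k79.all (jb2 57 fl b80) = true := by decide +kernel
noncomputable def k80 : KT := (.one (nat_lit 0x700000300400500901260080ebc12024611))
def t80 : k80.all (jb2 57 fl b0) = true := by decide +kernel
noncomputable def k81 : KT := (.one (nat_lit 0x8000001004005009012200810c012024611))
noncomputable def b82 : BT := .node (nat_lit 0xb) (nat_lit 0x4e726092f9b649382b880074c200196c800833c0011eb05b664be27436cd26e4e86d9a5909d096349b950c013a980048c740032d9000cb600132d8000ab7000c1dc002ad6049632741450003a1d000ad5c1db36d993a12c64e928a800753000118e00074b600158d05b669644b1a58c982543918b6d098293625f130400ba98002ac600139e6004ad5c00aada000aa94003a98002ab8c4005a7004ed004ed0037c0037c0037c0031c0031c0026100261000f0000f0) .leaf .leaf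
def t81 : k81.all (jb2 57 fl b82) = true := by decide +kernel
noncomputable def k82 : KT := (.br (Nat.shiftLeft (nat_lit 0x8000003) (nat_lit 112)) (.one (nat_lit 0x8000002004005009012400810c012024611)) (.one (nat_lit 0x8000003004005009012600810c012024611)))
noncomputable def b83 : BT := .node (nat_lit 0x19) (nat_lit 0x12316d9a58d2c44e84b1b6c89d0992000ca64002b18000cb640032d8000c978002b570e4d897e4e7000ea640032d906a1a4dd26c5432741302462db326100083b600196c000743800195080055b2001553072312a22649b64db349bb6c8984992918b6cc98200596c80046b000196c001653800591380256ae00956c801554c24c8a58d26ede149c258c003a59000ca70003a5c000ab642006c1006c1005aa0054a0054a0054a0054a0043500435004350043500435002c3002c3002c3002c3002c3002c30020800208002080020800208002080020800208) .leaf .leaf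
def t82 : k82.all (jb2 57 fl b83) = true := by decide +kernel
noncomputable def k83 : KT := (.br (Nat.shiftLeft (nat_lit 0x4800001) (nat_lit 113)) (.one (nat_lit 0x9000001004005009012200812c412024611)) (.one (nat_lit 0x9000002004005009012400812c412024611)))
noncomputable def b84 : BT := .node (nat_lit 0x17) (nat_lit 0x1bc299227300065b000158c833a09d04bf49b93a126e001d4c800654000196d00065b014b1a4e0a28938274130000ba5c000cb640132d9002ca802003b5003b5003b5003b5003b5003b5003b5003b5003550035500355003550029b0029b0029b0029b001e0001e0001e0001e0001e0001e0001e0001e0) .leaf .leaf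
def t83 : k83.all (jb2 57 fl b84) = true := by decide +kernel
noncomputable def k84 : KT := (.br (Nat.shiftLeft (nat_lit 0x1000001) (nat_lit 125)) (.br (Nat.shiftLeft (nat_lit 0x800001) (nat_lit 125)) (.br (Nat.shiftLeft (nat_lit 0x1) (nat_lit 148)) (.one (nat_lit 0x9000003004005009012600812c412024611)) (.br (Nat.shiftLeft (nat_lit 0x1000001003) (nat_lit 112)) (.one (nat_lit 0x1000001002004005009012402840a032424711)) (.one (nat_lit 0x1000001003004005009012602840a032424711)))) (.br (Nat.shiftLeft (nat_lit 0x1) (nat_lit 149)) (.one (nat_lit 0x1000002003004005009012602840a052824711)) (.br (Nat.shiftLeft (nat_lit 0x2000001003) (nat_lit 112)) (.one (nat_lit 0x2000001002004005009012404880a032424711)) (.one (nat_lit 0x2000001003004005009012604880a032424711))))) (.br (Nat.shiftLeft (nat_lit 0x1800001) (nat_lit 125)) (.br (Nat.shiftLeft (nat_lit 0x3) (nat_lit 148)) (.one (nat_lit 0x2000002003004005009012604880a052824711)) (.br (Nat.shiftLeft (nat_lit 0x3000001003) (nat_lit 112)) (.one (nat_lit 0x30000010020040050090124068c0a032424711)) (.one (nat_lit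 0x30000010030040050090126068c0a032424711)))) (.br (Nat.shiftLeft (nat_lit 0x4000001003) (nat_lit 112)) (.br (Nat.shiftLeft (nat_lit 0x1) (nat_lit 150)) (.one (nat_lit 0x30000020030040050090126068c0a052824711)) (.one (nat_lit 0x4000001002004005009012408900a032424711))) (.br (Nat.shiftLeft (nat_lit 0x2000001) (nat_lit 125)) (.one (nat_lit 0x4000001003004005009012608900a032424711)) (.one (nat_lit 0x4000002003004005009012608900a052824711))))))
def t84 : k84.all (jb2 57 fl b0) = true := by decide +kernel
noncomputable def k85 : KT := (.br (Nat.shiftLeft (nat_lit 0x5000001003) (nat_lit 112)) (.one (nat_lit 0x500000100200400500901240a940a032424711)) (.one (nat_lit 0x500000100300400500901260a940a032424711)))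
noncomputable def b86 : BT := .node (nat_lit 0x1d) (nat_lit 0x93526013a24624e749a80074c000158d800662e00116d85bc293549a00065b000194c83bc2db32a200065320015cb832316d9950c003299000ad5c100434004340043400379003790037900379003790037900379003190031900319003190031900319002b9002b9002b90025800258002580025800258002580025800258002580025800258) .leaf .leaf
def t85 : k85.all (jb2 57 fl b86) = true := by decide +kernel
noncomputable def k86 : KT := (.br (Nat.shiftLeft (nat_lit 0x3) (nat_lit 149)) (.one (nat_lit 0x500000200300400500901260a940a052824711)) (.one (nat_lit 0x600000100200400500901240c980a032424711)))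
noncomputable def b87 : BT := .node (nat_lit 0x1) (nat_lit 0x6f09309324db227495c8003227000ac600039de0008f5c2000e300028) .leaf .leaf
def t86 : k86.all (jb2 57 fl b87) = true := by decide +kernel
noncomputable def k87 : KT := (.br (Nat.shiftLeft (nat_lit 0x3000001) (nat_lit 125)) (.one (nat_lit 0x600000100300400500901260c980a032424711)) (.one (nat_lit 0x600000200300400500901260c980a052824711)))
def t87 : k87.all (jb2 57 fl b0) = true := by decide +kernel
noncomputable def k88 : KT := (.br (Nat.shiftLeft (nat_lit 0x7000001003) (nat_lit 112)) (.one (nat_lit 0x700000100200400500901240e9c0a032424711)) (.one (nat_lit 0x700000100300400500901260e9c0a032424711)))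
noncomputable def b89 : BT := .node (nat_lit 0x13) (nat_lit 0x4e726093a1322936260b6c89d04e8000e9840032d9000e870002ae3000ea6000231d0e645b664c2000e964002aa6064d926c4c0000ea60002ae207784a2a5a19189455b66de126115c8003a1a0008f5c002b58000ab640039a70008e6030047b00366003660036600366003660036600306002a6002a6002a6002a6002a6002a6002a6002a600190001900019000190) .leaf .leaf
def t88 : k88.all (jb2 57 fl b89) = true := by decide +kernel
noncomputable def k89 : KT := (.br (Nat.shiftLeft (nat_lit 0x1) (nat_lit 151)) (.one (nat_lit 0x700000200300400500901260e9c0a052824711)) (.br (Nat.shiftLeft (nat_lit 0x8000001003) (nat_lit 112)) (.one (nat_lit 0x8000001002004005009012410a00a032424711)) (.one (nat_lit 0x8000001003004005009012610a00a032424711))))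
noncomputable def b90 : BT := .node (nat_lit 0xb) (nat_lit 0x13224e5260a4d897c4e849b12fc98000196c001644e009d4c00265b4001d4d00155c21ce749b139c003a98000cb64196326093a0003a61000ab741002c5002c5002c5002c5001af001af001500015000150000f0000f0000f0) .leaf .leaf
def t89 : k89.all (jb2 57 fl b90) = true := by decide +kernel
noncomputable def k90 : KT := (.br (Nat.shiftLeft (nat_lit 0x9000001003) (nat_lit 112)) (.br (Nat.shiftLeft (nat_lit 0x9) (nat_lit 148)) (.one (nat_lit 0x8000002003004005009012610a00a052824711)) (.one (nat_lit 0x9000001002004005009012412a40a032424711))) (.br (Nat.shiftLeft (nat_lit 0x4800001) (nat_lit 125)) (.one (nat_lit 0x9000001003004005009012612a40a032424711)) (.one (nat_lit 0x9000002003004005009012612a40a052824711))))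
def t90 : k90.all (jb2 57 fl b0) = true := by decide +kernel
noncomputable def s4 : KT := (.br (nat_lit 0x700000200400500901240080ebc12024611) (.br (nat_lit 0x500000100400500901220080ab412024611) (.br (nat_lit 0x8000004005009012000800a114024511) (.br (nat_lit 0x6000004005009012000800a0d3824511) k69 k70) (.br (nat_lit 0x1000003004005009012600802a412024611) k71 (.br (nat_lit 0x3000003004005009012600806ac12024611) k72 k73))) (.br (nat_lit 0x600000200400500901240080cb812024611) (.br (nat_lit 0x500000300400500901260080ab412024611) k74 (.br (nat_lit 0x600000100400500901220080cb812024611) k75 k76)) (.br (nat_lit 0x600000300400500901260080cb812024611) k77 (.br (nat_lit 0x700000100400500901220080ebc12024611) k78 k79)))) (.br (nat_lit 0x4000002003004005009012608900a052824711) (.br (nat_lit 0x8000001004005009012200810c012024611) (.br (nat_lit 0x700000300400500901260080ebc12024611) k80 k81) (.br (nat_lit 0x8000003004005009012600810c012024611) k82 (.br (nat_lit 0x9000002004005009012400812c412024611) k83 k84))) (.br (nat_lit 0x600000200300400500901260c980a052824711)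 (.br (nat_lit 0x500000100300400500901260a940a032424711) k85 (.br (nat_lit 0x600000100200400500901240c980a032424711) k86 k87)) (.br (nat_lit 0x700000100300400500901260e9c0a032424711) k88 (.br (nat_lit 0x8000001003004005009012610a00a032424711) k89 k90)))))
noncomputable def u4 : KT := (.one (nat_lit 0x4005009012000800a012024540))
def w4 : u4.all (wj 57 s4) = true := by decide +kernel
def o4 : OkW 57 (jb2 57 fl) u4 := .lift s4 _ (.br _ _ _ (.br _ _ _ (.br _ _ _ (.br _ _ _ (.leaf b70 k69 t69) (.leaf b71 k70 t70)) (.br _ _ _ (.leaf b72 k71 t71) (.br _ _ _ (.leaf b0 k72 t72) (.leaf b0 k73 t73)))) (.br _ _ _ (.br _ _ _ (.leaf b0 k74 t74) (.br _ _ _ (.leaf b76 k75 t75) (.leaf b77 k76 t76))) (.br _ _ _ (.leaf b0 k77 t77) (.br _ _ _ (.leaf b79 k78 t78) (.leaf b80 k79 t79))))) (.br _ _ _ (.br _ _ _ (.br _ _ _ (.leaf b0 k80 t80) (.leaf b82 k81 t81)) (.br _ _ _ (.leaf b83 k82 t82) (.br _ _ _ (.leaf b84 k83 t83) (.leaf b0 k84 t84)))) (.br _ _ _ (.br _ _ _ (.leaf b86 k85 t85) (.br _ _ _ (.leaf b87 k86 t86) (.leaf b0 k87 t87))) (.br _ _ _ (.leaf b89 k88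 t88) (.br _ _ _ (.leaf b90 k89 t89) (.leaf b0 k90 t90)))))) w4
noncomputable def k91 : KT := (.br (Nat.shiftLeft (nat_lit 0x1003) (nat_lit 112)) (.br (Nat.shiftLeft (nat_lit 0x3) (nat_lit 112)) (.br (Nat.shiftLeft (nat_lit 0x1) (nat_lit 112)) (.one (nat_lit 0x4005009013000800a012027500)) (.br (Nat.shiftLeft (nat_lit 0x1) (nat_lit 113)) (.one (nat_lit 0x1004005009013200800a012027600)) (.one (nat_lit 0x2004005009013400800a012027600)))) (.br (Nat.shiftLeft (nat_lit 0x1) (nat_lit 124)) (.one (nat_lit 0x3004005009013600800a012027600)) (.br (Nat.shiftLeft (nat_lit 0x801) (nat_lit 113)) (.one (nat_lit 0x1000004005009013000800a032426511)) (.one (nat_lit 0x1002004005009013400800a032427700))))) (.br (Nat.shiftLeft (nat_lit 0x3) (nat_lit 124)) (.br (Nat.shiftLeft (nat_lit 0x1) (nat_lit 125)) (.one (nat_lit 0x1003004005009013600800a032427700)) (.br (Nat.shiftLeft (nat_lit 0x1001) (nat_lit 113)) (.one (nat_lit 0x2000004005009013000800a052826511)) (.one (nat_lit 0x2003004005009013600800a052827700)))) (.br (Nat.shiftLeft (nat_lit 0x5) (nat_lit 124)) (.br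 (Nat.shiftLeft (nat_lit 0x1) (nat_lit 126)) (.one (nat_lit 0x3000004005009013000800a072c26511)) (.one (nat_lit 0x4000004005009013000800a093026511))) (.br (Nat.shiftLeft (nat_lit 0x3) (nat_lit 125)) (.one (nat_lit 0x5000004005009013000800a0b3426511)) (.one (nat_lit 0x6000004005009013000800a0d3826511))))))
noncomputable def b92 : BT := .node (nat_lit 0x1) (nat_lit 0xdb349a9454003299000ad5c10008800028) .leaf .leaf
def t91 : k91.all (jb2 57 fl b92) = true := by decide +kernel
noncomputable def k92 : KT := (.br (Nat.shiftLeft (nat_lit 0x1) (nat_lit 127)) (.one (nat_lit 0x7000004005009013000800a0f3c26511)) (.one (nat_lit 0x8000004005009013000800a114026511)))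
def t92 : k92.all (jb2 57 fl b0) = true := by decide +kernel
noncomputable def k93 : KT := (.br (Nat.shiftLeft (nat_lit 0x1) (nat_lit 137)) (.br (Nat.shiftLeft (nat_lit 0x800001) (nat_lit 113)) (.br (Nat.shiftLeft (nat_lit 0x1) (nat_lit 136)) (.one (nat_lit 0x9000004005009013000800a134426511)) (.one (nat_lit 0x1000001004005009013200802a412026611))) (.br (Nat.shiftLeft (nat_lit 0x1000003) (nat_lit 112)) (.one (nat_lit 0x1000002004005009013400802a412026611)) (.br (Nat.shiftLeft (nat_lit 0x801) (nat_lit 125)) (.one (nat_lit 0x1000003004005009013600802a412026611)) (.one (nat_lit 0x1002003004005009013600802a452826870))))) (.br (Nat.shiftLeft (nat_lit 0x3) (nat_lit 136)) (.br (Nat.shiftLeft (nat_lit 0x1000001) (nat_lit 113)) (.one (nat_lit 0x2000001004005009013200804a812026611)) (.br (Nat.shiftLeft (nat_lit 0x2000003) (nat_lit 112)) (.one (nat_lit 0x2000002004005009013400804a812026611)) (.one (nat_lit 0x2000003004005009013600804a812026611)))) (.br (Nat.shiftLeft (nat_lit 0x1800001) (nat_lit 113)) (.one (nat_lit 0x3000001004005009013200806ac12026611))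 (.br (Nat.shiftLeft (nat_lit 0x3000003) (nat_lit 112)) (.one (nat_lit 0x3000002004005009013400806ac12026611)) (.one (nat_lit 0x3000003004005009013600806ac12026611))))))
def t93 : k93.all (jb2 57 fl b0) = true := by decide +kernel
noncomputable def k94 : KT := (.br (Nat.shiftLeft (nat_lit 0x4000003) (nat_lit 112)) (.br (Nat.shiftLeft (nat_lit 0x2000001) (nat_lit 113)) (.one (nat_lit 0x4000001004005009013200808b012026611)) (.one (nat_lit 0x4000002004005009013400808b012026611))) (.br (Nat.shiftLeft (nat_lit 0x5) (nat_lit 136)) (.one (nat_lit 0x4000003004005009013600808b012026611)) (.one (nat_lit 0x500000100400500901320080ab412026611))))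
def t94 : k94.all (jb2 57 fl b0) = true := by decide +kernel
noncomputable def k95 : KT := (.br (Nat.shiftLeft (nat_lit 0x5000003) (nat_lit 112)) (.one (nat_lit 0x500000200400500901340080ab412026611)) (.one (nat_lit 0x500000300400500901360080ab412026611)))
def t95 : k95.all (jb2 57 fl b0) = true := by decide +kernel
noncomputable def k96 : KT := (.one (nat_lit 0x600000100400500901320080cb812026611))
def t96 : k96.all (jb2 57 fl b0) = true := by decide +kernel
noncomputable def k97 : KT := (.br (Nat.shiftLeft (nat_lit 0x6000003) (nat_lit 112)) (.one (nat_lit 0x600000200400500901340080cb812026611)) (.one (nat_lit 0x600000300400500901360080cb812026611)))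
def t97 : k97.all (jb2 57 fl b0) = true := by decide +kernel
noncomputable def k98 : KT := (.br (Nat.shiftLeft (nat_lit 0x3800001) (nat_lit 113)) (.one (nat_lit 0x700000100400500901320080ebc12026611)) (.one (nat_lit 0x700000200400500901340080ebc12026611)))
def t98 : k98.all (jb2 57 fl b0) = true := by decide +kernel
noncomputable def k99 : KT := (.br (Nat.shiftLeft (nat_lit 0x1) (nat_lit 139)) (.one (nat_lit 0x700000300400500901360080ebc12026611)) (.one (nat_lit 0x8000001004005009013200810c012026611)))
noncomputable def b100 : BT := .node (nat_lit 0x1) (nat_lit 0x93625f93a0003a99000ac6410008800028) .leaf .leaf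
def t99 : k99.all (jb2 57 fl b100) = true := by decide +kernel
noncomputable def k100 : KT := (.br (Nat.shiftLeft (nat_lit 0x8000003) (nat_lit 112)) (.one (nat_lit 0x8000002004005009013400810c012026611)) (.br (Nat.shiftLeft (nat_lit 0x9) (nat_lit 136)) (.one (nat_lit 0x8000003004005009013600810c012026611)) (.one (nat_lit 0x9000001004005009013200812c412026611))))
noncomputable def b101 : BT := .node (nat_lit 0x1) (nat_lit 0x96228a1450003317000ca6810008800028) .leaf .leaf
def t100 : k100.all (jb2 57 fl b101) = true := by decide +kernel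
noncomputable def k101 : KT := (.br (Nat.shiftLeft (nat_lit 0x1000001) (nat_lit 125)) (.br (Nat.shiftLeft (nat_lit 0x1000001003) (nat_lit 112)) (.br (Nat.shiftLeft (nat_lit 0x9000003) (nat_lit 112)) (.one (nat_lit 0x9000002004005009013400812c412026611)) (.br (Nat.shiftLeft (nat_lit 0x1) (nat_lit 148)) (.one (nat_lit 0x9000003004005009013600812c412026611)) (.one (nat_lit 0x1000001002004005009013402840a032426711)))) (.br (Nat.shiftLeft (nat_lit 0x1) (nat_lit 149)) (.br (Nat.shiftLeft (nat_lit 0x800001) (nat_lit 125)) (.one (nat_lit 0x1000001003004005009013602840a032426711)) (.one (nat_lit 0x1000002003004005009013602840a052826711))) (.br (Nat.shiftLeft (nat_lit 0x2000001003) (nat_lit 112)) (.one (nat_lit 0x2000001002004005009013404880a032426711)) (.one (nat_lit 0x2000001003004005009013604880a032426711))))) (.br (Nat.shiftLeft (nat_lit 0x1800001) (nat_lit 125)) (.br (Nat.shiftLeft (nat_lit 0x3) (nat_lit 148)) (.one (nat_lit 0x2000002003004005009013604880a052826711)) (.br (Nat.shiftLeft (nat_lit 0x3000001003) (nat_lit 112)) (.one (nat_lit 0x30000010020040050090134068c0a032426711))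 (.one (nat_lit 0x30000010030040050090136068c0a032426711)))) (.br (Nat.shiftLeft (nat_lit 0x4000001003) (nat_lit 112)) (.br (Nat.shiftLeft (nat_lit 0x1) (nat_lit 150)) (.one (nat_lit 0x30000020030040050090136068c0a052826711)) (.one (nat_lit 0x4000001002004005009013408900a032426711))) (.br (Nat.shiftLeft (nat_lit 0x2000001) (nat_lit 125)) (.one (nat_lit 0x4000001003004005009013608900a032426711)) (.one (nat_lit 0x4000002003004005009013608900a052826711))))))
def t101 : k101.all (jb2 57 fl b0) = true := by decide +kernel
noncomputable def k102 : KT := (.br (Nat.shiftLeft (nat_lit 0x5000001003) (nat_lit 112)) (.one (nat_lit 0x500000100200400500901340a940a032426711)) (.br (Nat.shiftLeft (nat_lit 0x2800001) (nat_lit 125)) (.one (nat_lit 0x500000100300400500901360a940a032426711)) (.one (nat_lit 0x500000200300400500901360a940a052826711))))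
def t102 : k102.all (jb2 57 fl b0) = true := by decide +kernel
noncomputable def k103 : KT := (.br (Nat.shiftLeft (nat_lit 0x6000001003) (nat_lit 112)) (.one (nat_lit 0x600000100200400500901340c980a032426711)) (.br (Nat.shiftLeft (nat_lit 0x3000001) (nat_lit 125)) (.one (nat_lit 0x600000100300400500901360c980a032426711)) (.one (nat_lit 0x600000200300400500901360c980a052826711))))
def t103 : k103.all (jb2 57 fl b0) = true := by decide +kernel
noncomputable def k104 : KT := (.br (Nat.shiftLeft (nat_lit 0x3800001) (nat_lit 125)) (.br (Nat.shiftLeft (nat_lit 0x7000001003) (nat_lit 112)) (.one (nat_lit 0x700000100200400500901340e9c0a032426711)) (.one (nat_lit 0x700000100300400500901360e9c0a032426711))) (.br (Nat.shiftLeft (nat_lit 0x1) (nat_lit 151)) (.one (nat_lit 0x700000200300400500901360e9c0a052826711)) (.one (nat_lit 0x8000001002004005009013410a00a032426711))))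
def t104 : k104.all (jb2 57 fl b0) = true := by decide +kernel
noncomputable def k105 : KT := (.br (Nat.shiftLeft (nat_lit 0x9) (nat_lit 148)) (.br (Nat.shiftLeft (nat_lit 0x4000001) (nat_lit 125)) (.one (nat_lit 0x8000001003004005009013610a00a032426711)) (.one (nat_lit 0x8000002003004005009013610a00a052826711))) (.br (Nat.shiftLeft (nat_lit 0x9000001003) (nat_lit 112)) (.one (nat_lit 0x9000001002004005009013412a40a032426711)) (.br (Nat.shiftLeft (nat_lit 0x4800001) (nat_lit 125)) (.one (nat_lit 0x9000001003004005009013612a40a032426711)) (.one (nat_lit 0x9000002003004005009013612a40a052826711)))))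
def t105 : k105.all (jb2 57 fl b0) = true := by decide +kernel
noncomputable def s5 : KT := (.br (nat_lit 0x600000300400500901360080cb812026611) (.br (nat_lit 0x3000003004005009013600806ac12026611) (.br (nat_lit 0x6000004005009013000800a0d3826511) k91 (.br (nat_lit 0x8000004005009013000800a114026511) k92 k93)) (.br (nat_lit 0x500000300400500901360080ab412026611) (.br (nat_lit 0x500000100400500901320080ab412026611) k94 k95) (.br (nat_lit 0x600000100400500901320080cb812026611) k96 k97))) (.br (nat_lit 0x4000002003004005009013608900a052826711) (.br (nat_lit 0x8000001004005009013200810c012026611) (.br (nat_lit 0x700000200400500901340080ebc12026611) k98 k99) (.br (nat_lit 0x9000001004005009013200812c412026611) k100 k101)) (.br (nat_lit 0x600000200300400500901360c980a052826711) (.br (nat_lit 0x500000200300400500901360a940a052826711) k102 k103) (.br (nat_lit 0x8000001002004005009013410a00a032426711) k104 k105))))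
noncomputable def u5 : KT := (.one (nat_lit 0x4005009013000800a012026540))
def w5 : u5.all (wj 57 s5) = true := by decide +kernel
def o5 : OkW 57 (jb2 57 fl) u5 := .lift s5 _ (.br _ _ _ (.br _ _ _ (.br _ _ _ (.leaf b92 k91 t91) (.br _ _ _ (.leaf b0 k92 t92) (.leaf b0 k93 t93))) (.br _ _ _ (.br _ _ _ (.leaf b0 k94 t94) (.leaf b0 k95 t95)) (.br _ _ _ (.leaf b0 k96 t96) (.leaf b0 k97 t97)))) (.br _ _ _ (.br _ _ _ (.br _ _ _ (.leaf b0 k98 t98) (.leaf b100 k99 t99)) (.br _ _ _ (.leaf b101 k100 t100) (.leaf b0 k101 t101))) (.br _ _ _ (.br _ _ _ (.leaf b0 k102 t102) (.leaf b0 k103 t103)) (.br _ _ _ (.leaf b0 k104 t104) (.leaf b0 k105 t105))))) w5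
noncomputable def k106 : KT := (.br (Nat.shiftLeft (nat_lit 0x1) (nat_lit 113)) (.br (Nat.shiftLeft (nat_lit 0x400500a00f) (nat_lit 64)) (.br (Nat.shiftLeft (nat_lit 0x2002805) (nat_lit 77)) (.one (nat_lit 0x4005009014000800a012029500)) (.br (Nat.shiftLeft (nat_lit 0x2002805007) (nat_lit 65)) (.one (nat_lit 0x400500a00d000800a01401b500)) (.one (nat_lit 0x400500a00e000800a01401d500)))) (.br (Nat.shiftLeft (nat_lit 0x400500a01) (nat_lit 68)) (.one (nat_lit 0x400500a00f000800a01401f500)) (.br (Nat.shiftLeft (nat_lit 0x1) (nat_lit 112)) (.one (nat_lit 0x400500a010000800a014021500)) (.one (nat_lit 0x1004005009014200800a012029600))))) (.br (Nat.shiftLeft (nat_lit 0x801) (nat_lit 113)) (.br (Nat.shiftLeft (nat_lit 0x3) (nat_lit 112)) (.one (nat_lit 0x2004005009014400800a012029600)) (.br (Nat.shiftLeft (nat_lit 0x1) (nat_lit 124)) (.one (nat_lit 0x3004005009014600800a012029600)) (.one (nat_lit 0x1000004005009014000800a032428511)))) (.br (Nat.shiftLeft (nat_lit 0x1003) (nat_lit 112)) (.one (nat_lit 0x1002004005009014400800a032429700)) (.br (Nat.shiftLeft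 (nat_lit 0x1) (nat_lit 125)) (.one (nat_lit 0x1003004005009014600800a032428760)) (.one (nat_lit 0x2000004005009014000800a052828511))))))
def t106 : k106.all (jb2 57 fl b0) = true := by decide +kernel
noncomputable def k107 : KT := (.one (nat_lit 0x2003004005009014600800a052828760))
def t107 : k107.all (jb2 57 fl b0) = true := by decide +kernel
noncomputable def k108 : KT := (.br (Nat.shiftLeft (nat_lit 0x5) (nat_lit 124)) (.br (Nat.shiftLeft (nat_lit 0x1) (nat_lit 126)) (.one (nat_lit 0x3000004005009014000800a072c28511)) (.one (nat_lit 0x4000004005009014000800a093028511))) (.br (Nat.shiftLeft (nat_lit 0x3) (nat_lit 125)) (.one (nat_lit 0x5000004005009014000800a0b3428511)) (.br (Nat.shiftLeft (nat_lit 0x7) (nat_lit 124)) (.one (nat_lit 0x6000004005009014000800a0d3828511)) (.one (nat_lit 0x7000004005009014000800a0f3c28511)))))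
def t108 : k108.all (jb2 57 fl b0) = true := by decide +kernel
noncomputable def k109 : KT := (.br (Nat.shiftLeft (nat_lit 0x2000003) (nat_lit 112)) (.br (Nat.shiftLeft (nat_lit 0x800001) (nat_lit 113)) (.br (Nat.shiftLeft (nat_lit 0x9) (nat_lit 124)) (.one (nat_lit 0x8000004005009014000800a114028511)) (.br (Nat.shiftLeft (nat_lit 0x1) (nat_lit 136)) (.one (nat_lit 0x9000004005009014000800a134428511)) (.one (nat_lit 0x1000001004005009014200802a412028611)))) (.br (Nat.shiftLeft (nat_lit 0x1) (nat_lit 137)) (.br (Nat.shiftLeft (nat_lit 0x1000003) (nat_lit 112)) (.one (nat_lit 0x1000002004005009014400802a412028611)) (.one (nat_lit 0x1000003004005009014600802a412028611))) (.br (Nat.shiftLeft (nat_lit 0x1000001) (nat_lit 113)) (.one (nat_lit 0x2000001004005009014200804a812028611)) (.one (nat_lit 0x2000002004005009014400804a812028611))))) (.br (Nat.shiftLeft (nat_lit 0x3000003) (nat_lit 112)) (.br (Nat.shiftLeft (nat_lit 0x3) (nat_lit 136)) (.one (nat_lit 0x2000003004005009014600804a812028611)) (.br (Nat.shiftLeft (nat_lit 0x1800001) (nat_lit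 113)) (.one (nat_lit 0x3000001004005009014200806ac12028611)) (.one (nat_lit 0x3000002004005009014400806ac12028611)))) (.br (Nat.shiftLeft (nat_lit 0x2000001) (nat_lit 113)) (.br (Nat.shiftLeft (nat_lit 0x1) (nat_lit 138)) (.one (nat_lit 0x3000003004005009014600806ac12028611)) (.one (nat_lit 0x4000001004005009014200808b012028611))) (.br (Nat.shiftLeft (nat_lit 0x4000003) (nat_lit 112)) (.one (nat_lit 0x4000002004005009014400808b012028611)) (.one (nat_lit 0x4000003004005009014600808b012028611))))))
def t109 : k109.all (jb2 57 fl b0) = true := by decide +kernel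
noncomputable def k110 : KT := (.br (Nat.shiftLeft (nat_lit 0x2800001) (nat_lit 113)) (.one (nat_lit 0x500000100400500901420080ab412028611)) (.br (Nat.shiftLeft (nat_lit 0x5000003) (nat_lit 112)) (.one (nat_lit 0x500000200400500901440080ab412028611)) (.one (nat_lit 0x500000300400500901460080ab412028611))))
def t110 : k110.all (jb2 57 fl b0) = true := by decide +kernel
noncomputable def k111 : KT := (.br (Nat.shiftLeft (nat_lit 0x3000001) (nat_lit 113)) (.one (nat_lit 0x600000100400500901420080cb812028611)) (.one (nat_lit 0x600000200400500901440080cb812028611)))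
def t111 : k111.all (jb2 57 fl b0) = true := by decide +kernel
noncomputable def k112 : KT := (.br (Nat.shiftLeft (nat_lit 0x7) (nat_lit 136)) (.one (nat_lit 0x600000300400500901460080cb812028611)) (.br (Nat.shiftLeft (nat_lit 0x3800001) (nat_lit 113)) (.one (nat_lit 0x700000100400500901420080ebc12028611)) (.one (nat_lit 0x700000200400500901440080ebc12028611))))
def t112 : k112.all (jb2 57 fl b0) = true := by decide +kernel
noncomputable def k113 : KT := (.br (Nat.shiftLeft (nat_lit 0x4000001) (nat_lit 113)) (.br (Nat.shiftLeft (nat_lit 0x1) (nat_lit 139)) (.one (nat_lit 0x700000300400500901460080ebc12028611)) (.one (nat_lit 0x8000001004005009014200810c012028611))) (.br (Nat.shiftLeft (nat_lit 0x8000003) (nat_lit 112)) (.one (nat_lit 0x8000002004005009014400810c012028611)) (.one (nat_lit 0x8000003004005009014600810c012028611))))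
def t113 : k113.all (jb2 57 fl b0) = true := by decide +kernel
noncomputable def k114 : KT := (.br (Nat.shiftLeft (nat_lit 0x1) (nat_lit 149)) (.br (Nat.shiftLeft (nat_lit 0x9000003) (nat_lit 112)) (.br (Nat.shiftLeft (nat_lit 0x4800001) (nat_lit 113)) (.one (nat_lit 0x9000001004005009014200812c412028611)) (.one (nat_lit 0x9000002004005009014400812c412028611))) (.br (Nat.shiftLeft (nat_lit 0x1) (nat_lit 148)) (.one (nat_lit 0x9000003004005009014600812c412028611)) (.one (nat_lit 0x1000001002004005009014402840a032428711)))) (.br (Nat.shiftLeft (nat_lit 0x1) (nat_lit 150)) (.br (Nat.shiftLeft (nat_lit 0x3) (nat_lit 148)) (.one (nat_lit 0x2000001002004005009014404880a032428711)) (.one (nat_lit 0x30000010020040050090144068c0a032428711))) (.br (Nat.shiftLeft (nat_lit 0x5) (nat_lit 148)) (.one (nat_lit 0x4000001002004005009014408900a032428711)) (.one (nat_lit 0x500000100200400500901440a940a032428711)))))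
def t114 : k114.all (jb2 57 fl b0) = true := by decide +kernel
noncomputable def k115 : KT := (.br (Nat.shiftLeft (nat_lit 0x1) (nat_lit 151)) (.br (Nat.shiftLeft (nat_lit 0x7) (nat_lit 148)) (.one (nat_lit 0x600000100200400500901440c980a032428711)) (.one (nat_lit 0x700000100200400500901440e9c0a032428711))) (.br (Nat.shiftLeft (nat_lit 0x9) (nat_lit 148)) (.one (nat_lit 0x8000001002004005009014410a00a032428711)) (.one (nat_lit 0x9000001002004005009014412a40a032428711))))
def t115 : k115.all (jb2 57 fl b0) = true := by decide +kernel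
noncomputable def s6 : KT := (.br (nat_lit 0x500000300400500901460080ab412028611) (.br (nat_lit 0x2003004005009014600800a052828760) (.br (nat_lit 0x2000004005009014000800a052828511) k106 k107) (.br (nat_lit 0x7000004005009014000800a0f3c28511) k108 (.br (nat_lit 0x4000003004005009014600808b012028611) k109 k110))) (.br (nat_lit 0x700000200400500901440080ebc12028611) (.br (nat_lit 0x600000200400500901440080cb812028611) k111 k112) (.br (nat_lit 0x8000003004005009014600810c012028611) k113 (.br (nat_lit 0x500000100200400500901440a940a032428711) k114 k115))))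
noncomputable def u6 : KT := (.br (Nat.shiftLeft (nat_lit 0x2002805007) (nat_lit 65)) (.br (Nat.shiftLeft (nat_lit 0x2002805) (nat_lit 77)) (.one (nat_lit 0x4005009014000800a012028540)) (.one (nat_lit 0x400500a00d000800a01401b500))) (.br (Nat.shiftLeft (nat_lit 0x400500a00f) (nat_lit 64)) (.one (nat_lit 0x400500a00e000800a01401d500)) (.br (Nat.shiftLeft (nat_lit 0x400500a01) (nat_lit 68)) (.one (nat_lit 0x400500a00f000800a01401f500)) (.one (nat_lit 0x400500a010000800a014021500)))))
def w6 : u6.all (wj 57 s6) = true := by decide +kernel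
def o6 : OkW 57 (jb2 57 fl) u6 := .lift s6 _ (.br _ _ _ (.br _ _ _ (.br _ _ _ (.leaf b0 k106 t106) (.leaf b0 k107 t107)) (.br _ _ _ (.leaf b0 k108 t108) (.br _ _ _ (.leaf b0 k109 t109) (.leaf b0 k110 t110)))) (.br _ _ _ (.br _ _ _ (.leaf b0 k111 t111) (.leaf b0 k112 t112)) (.br _ _ _ (.leaf b0 k113 t113) (.br _ _ _ (.leaf b0 k114 t114) (.leaf b0 k115 t115))))) w6
noncomputable def k116 : KT := (.br (Nat.shiftLeft (nat_lit 0x1003) (nat_lit 112)) (.br (Nat.shiftLeft (nat_lit 0x3) (nat_lit 112)) (.br (Nat.shiftLeft (nat_lit 0x1) (nat_lit 112)) (.one (nat_lit 0x400500a011000800a014023500)) (.br (Nat.shiftLeft (nat_lit 0x1) (nat_lit 113)) (.one (nat_lit 0x100400500a011200800a014023600)) (.one (nat_lit 0x200400500a011400800a014023600)))) (.br (Nat.shiftLeft (nat_lit 0x1) (nat_lit 124)) (.one (nat_lit 0x300400500a011600800a014023600)) (.br (Nat.shiftLeft (nat_lit 0x801) (nat_lit 113)) (.one (nat_lit 0x100000400500a011000800a034422511)) (.one (nat_lit 0x100200400500a011400800a034423700))))) (.br (Nat.shiftLeft (nat_lit 0x3) (nat_lit 124)) (.br (Nat.shiftLeft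 (nat_lit 0x1) (nat_lit 125)) (.one (nat_lit 0x100300400500a011600800a034423700)) (.br (Nat.shiftLeft (nat_lit 0x1001) (nat_lit 113)) (.one (nat_lit 0x200000400500a011000800a054822511)) (.one (nat_lit 0x200300400500a011600800a054823700)))) (.br (Nat.shiftLeft (nat_lit 0x5) (nat_lit 124)) (.br (Nat.shiftLeft (nat_lit 0x1) (nat_lit 126)) (.one (nat_lit 0x300000400500a011000800a074c22511)) (.one (nat_lit 0x400000400500a011000800a095022511))) (.br (Nat.shiftLeft (nat_lit 0x3) (nat_lit 125)) (.one (nat_lit 0x500000400500a011000800a0b5422511)) (.one (nat_lit 0x600000400500a011000800a0d5822511))))))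
noncomputable def b117 : BT := .node (nat_lit 0x3) (nat_lit 0x99249b13a4003a1c000ac6c1918c8c9b66de1274950c0032d8000ca64003a1e0008d6420016c0010c0005000050) .leaf .leaf
def t116 : k116.all (jb2 57 fl b117) = true := by decide +kernel
noncomputable def k117 : KT := (.one (nat_lit 0x700000400500a011000800a0f5c22511))
noncomputable def b118 : BT := .node (nat_lit 0xb) (nat_lit 0xa844be274800753000192f83bc4db3274a6452c64c14c9258c98093625f93a4003a590028c7400b299002c994013a59002aa9000ba5f002ac684002c0002c0002c0002610026100261000f0000f0000f0000f0000f0000f0) .leaf .leaf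
def t117 : k117.all (jb2 57 fl b118) = true := by decide +kernel
noncomputable def k118 : KT := (.one (nat_lit 0x800000400500a011000800a116022511))
noncomputable def b119 : BT := .node (nat_lit 0x11) (nat_lit 0x9632751454003a5c000ac68193727492f1b664be274b6cca285436f0a648a2800996c80065b0001d4c001463a005d2d001472e00d96c0005632254249c12fca8693727400083bc00157000083ba00158c855092704bf49b12f898054325f93a4003a1e000ca800032d9000ca84003a5e000c97c3005080050800508005080050800508004a8003370027d001680016800168001680016800168001680016800168) .leaf .leaf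
def t118 : k118.all (jb2 57 fl b119) = true := by decide +kernel
noncomputable def k119 : KT := (.br (Nat.shiftLeft (nat_lit 0x1) (nat_lit 136)) (.br (Nat.shiftLeft (nat_lit 0x5) (nat_lit 125)) (.one (nat_lit 0x900000400500a011000800a136422511)) (.one (nat_lit 0xa00000400500a011000800a156822511))) (.br (Nat.shiftLeft (nat_lit 0x800001) (nat_lit 113)) (.one (nat_lit 0x100000100400500a011200802a414022611)) (.br (Nat.shiftLeft (nat_lit 0x1000003) (nat_lit 112)) (.one (nat_lit 0x100000200400500a011400802a414022611)) (.one (nat_lit 0x100000300400500a011600802a414022611)))))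
noncomputable def b120 : BT := .node (nat_lit 0x2f) (nat_lit 0x12c64e92a1000743e0015ab832c893849b800753200194d832c6db44b1a59097e9386d91304a8400212d000563000194f000653a001cf3800472e1c9ca4e097c001d4c00055bc0ed9b6d09d096325f93a4003a9a0008c74003a5e000ab7c2a844e925fa4dc97c4c0000e87c00329f000cb600032a20aa113a09d293725f93a4003a1d000cb68003a5f000ac6829d24bf274a590a264e8000e9780032d9000cb6000329d0aa1130097cdb249c13a52c893849b80173cc00196c001753000558d00174b800996c07b669642a115089804be0010868002397000e7940032d90b6cd26e4c04b213a09d000194e00055c2001d4c00055ba148c5b684c049b92fc97c9914b2130000329a0008b900032da000cb60003a5a000aa90393749c1301b6693928ab6cdb664c0000cb640032a0001086c00235a000ea600022e50e58d27051327493a097e93549c12fc00ba5e002cb60013a98002ca7c003a98002cb683db3274950d2c64e828a000743c0011cc000753000158c8550c97c4e8000ea60003a1d068aa4dc9d096328a258c00ba5b000cb6000b2d9004cb6029d093725fa58c9d0963000ea600032da000cb640032d80a5912c65134b1a590a849644b212fc0132d8000cb6000c21a002ad5c00ba98002aa90301251011f1011f101191011910107b0107b0101b0101b0101b0101b00f6000ea600ea600ea600dec00dec00dec00dec00dec00d3200d3200d3200d3200c1d00c1d00b6200b6200b6200b6200aa7009900087a00764006a90064a0064a0064a0064a00590004d6004d6004d6003c0003c0003c0003c0003c0)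 .leaf .leaf
def t119 : k119.all (jb2 57 fl b120) = true := by decide +kernel
noncomputable def k120 : KT := (.br (Nat.shiftLeft (nat_lit 0x2000003) (nat_lit 112)) (.br (Nat.shiftLeft (nat_lit 0x1) (nat_lit 137)) (.one (nat_lit 0x100200300400500a011600802a454822870)) (.br (Nat.shiftLeft (nat_lit 0x1000001) (nat_lit 113)) (.one (nat_lit 0x200000100400500a011200804a814022611)) (.one (nat_lit 0x200000200400500a011400804a814022611)))) (.br (Nat.shiftLeft (nat_lit 0x1800001) (nat_lit 113)) (.br (Nat.shiftLeft (nat_lit 0x3) (nat_lit 136)) (.one (nat_lit 0x200000300400500a011600804a814022611)) (.one (nat_lit 0x300000100400500a011200806ac14022611))) (.br (Nat.shiftLeft (nat_lit 0x3000003) (nat_lit 112)) (.one (nat_lit 0x300000200400500a011400806ac14022611)) (.one (nat_lit 0x300000300400500a011600806ac14022611)))))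
def t120 : k120.all (jb2 57 fl b0) = true := by decide +kernel
noncomputable def k121 : KT := (.br (Nat.shiftLeft (nat_lit 0x4000003) (nat_lit 112)) (.br (Nat.shiftLeft (nat_lit 0x2000001) (nat_lit 113)) (.one (nat_lit 0x400000100400500a011200808b014022611)) (.one (nat_lit 0x400000200400500a011400808b014022611))) (.br (Nat.shiftLeft (nat_lit 0x5) (nat_lit 136)) (.one (nat_lit 0x400000300400500a011600808b014022611)) (.one (nat_lit 0x500000100400500a01120080ab414022611))))
def t121 : k121.all (jb2 57 fl b0) = true := by decide +kernel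
noncomputable def k122 : KT := (.br (Nat.shiftLeft (nat_lit 0x5000003) (nat_lit 112)) (.one (nat_lit 0x500000200400500a01140080ab414022611)) (.one (nat_lit 0x500000300400500a01160080ab414022611)))
def t122 : k122.all (jb2 57 fl b0) = true := by decide +kernel
noncomputable def k123 : KT := (.one (nat_lit 0x600000100400500a01120080cb814022611))
noncomputable def b124 : BT := .node (nat_lit 0x1) (nat_lit 0x48c5b664c16f112f926ade16d994540032990008b940032db000aa6c003a590008d6430013f00028) .leaf .leaf
def t123 : k123.all (jb2 57 fl b124) = true := by decide +kernel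
noncomputable def k124 : KT := (.one (nat_lit 0x600000200400500a01140080cb814022611))
noncomputable def b125 : BT := .node (nat_lit 0x1) (nat_lit 0xde16d9a4d8003a59000cb6010008800028) .leaf .leaf
def t124 : k124.all (jb2 57 fl b125) = true := by decide +kernel
noncomputable def k125 : KT := (.one (nat_lit 0x600000300400500a01160080cb814022611))
def t125 : k125.all (jb2 57 fl b0) = true := by decide +kernel
noncomputable def k126 : KT := (.one (nat_lit 0x700000100400500a01120080ebc14022611))
noncomputable def b127 : BT := .node (nat_lit 0xb) (nat_lit 0x123128aa4d8002b57000ab681de14b214500032d8000ac641db327515c40039e00008f5819914b1a4d8003a59000ca6c1002710027100210002100021000210001b0001b0001500015000150000f0) .leaf .leaf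
def t126 : k126.all (jb2 57 fl b127) = true := by decide +kernel
noncomputable def k127 : KT := (.one (nat_lit 0x700000200400500a01140080ebc14022611))
noncomputable def b128 : BT := .node (nat_lit 0x17) (nat_lit 0x12c64bb25da4d897c93691894552c800196c00065b000196d00065b200198b80046341c9b13a497600196d80065b00ef0b6d098000194d00055480cb1150ca8600196c80065b00d7149b92fc00419d000ab841de14b19450003299000ac641004d5004d5004d5004d5004d5003bf003bf0035f0035f002ff002ff0029f0029f0029f00240002400024000240001e0001e0001e0001e0001e0001e0) .leaf .leaf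
def t127 : k127.all (jb2 57 fl b128) = true := by decide +kernel
noncomputable def k128 : KT := (.one (nat_lit 0x700000300400500a01160080ebc14022611))
def t128 : k128.all (jb2 57 fl b0) = true := by decide +kernel
noncomputable def k129 : KT := (.one (nat_lit 0x800000100400500a011200810c014022611))
noncomputable def b130 : BT := .node (nat_lit 0x17) (nat_lit 0x54349b945126e4e949b48c5b664e9000e96c003a59000cb680032d8000ca6400231e0f7849809926d9a4dd2c60059130005630005d2d8025630154328a13a5b664ea28ab6cd26e9376f0b6d0a2a93725f130000ba59004ca74003a5c0028d6801b2d8006cb6000329a000ad5c00ba98002ab84596325f93a4003a5e000ab78196349b92f92c64c049bb6cdb66937002e96c00b2d9002ca8400b29c004cb600032d80e4624c14b180064ca00118c832c85432a180065b000196c032c84bc274b785b684e96d993012c896349b93000132d8004ca7400b29a002ab7400b264000ac64003a5c002ab8440092300923009230080e0080e0075300753005880058800528004120041200412004120041200412003b1003b1003b100351001e0001e0001e0001e0) .leaf .leaf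
def t129 : k129.all (jb2 57 fl b130) = true := by decide +kernel
noncomputable def k130 : KT := (.br (Nat.shiftLeft (nat_lit 0x8000003) (nat_lit 112)) (.one (nat_lit 0x800000200400500a011400810c014022611)) (.one (nat_lit 0x800000300400500a011600810c014022611)))
noncomputable def b131 : BT := .node (nat_lit 0x1d) (nat_lit 0x36c8a2a992000cb64002b57067412fc9d093627413a0003a5f000cb68003a98000ac6c29916d993a526e93725f48c4a86db36d912fc9d4009d2c80255bc00996c80065b20055ac00055b2001d2f001463e26f0a4e12c693627412fcae293725f80074b800156c80065b4001950000833a0015708726e4e827448c5b665434c8a4e097e93649b9300003a98000ac680032990008e60003a1e000ab80003a99000ab884de149c12fc00325e000ab801db26d99301bc24c128ac8c4a889926d913a09d24e849c12fc003a980028b9400ba230028c6c00b2d90028d60013a980028c7800c259002ab8050099600996009960099600996009960099600996009960099600996009960099600996009360087c0087c0087c0070b005f5005f5005f5005f500484004840042400424004240025800258) .leaf .leaf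
def t130 : k130.all (jb2 57 fl b131) = true := by decide +kernel
noncomputable def k131 : KT := (.br (Nat.shiftLeft (nat_lit 0x4800001) (nat_lit 113)) (.one (nat_lit 0x900000100400500a011200812c414022611)) (.one (nat_lit 0x900000200400500a011400812c414022611)))
noncomputable def b132 : BT := .node (nat_lit 0x2b) (nat_lit 0x24dd26e4c0000cb600032a1067412f898093749c12fd2c696426036cd272543002ea600032a1004ea68012ae0000cb6400b264003077800a39712a19304a28001d1180065340c9c12fc9d0db249ba4dc003a5e000ac680032d8000cb602a864c025f13a09804e8002e7940032d8002e9840132d80a4d926e4bf27413a526e93727413a00132da000cb6800ba99002ea6000b2d9002cb6439d24bf27424d897e4bf000e9780032d9000cb6c0032a00a4e12704bf6d9b6cc980001d4c00155c0009d4c00145ca14e825f92fc9d093849b800753200194f80084b200196c05bc299228a24dc97c4bf49b24e09d0936274a4dc00b2d8002ac640132d8002ca8400c259002ac6800b2dc000cb60400bca00bca00bca00bca00bca00bca00bca00b6a00b6a00b6a00b6a00b6a009fa009fa0099b0099b0099b008e0008e0008e00082600710007100071000710007100065600656006560065600656006560059b0059b0059b0059b004e1004e1004e1004e100370003700037000370)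 .leaf .leaf
def t131 : k131.all (jb2 57 fl b132) = true := by decide +kernel
noncomputable def k132 : KT := (.br (Nat.shiftLeft (nat_lit 0x5) (nat_lit 137)) (.one (nat_lit 0x900000300400500a011600812c414022611)) (.br (Nat.shiftLeft (nat_lit 0x5000001) (nat_lit 113)) (.one (nat_lit 0xa00000100400500a011200814c814022611)) (.one (nat_lit 0xa00000200400500a011400814c814022611))))
noncomputable def b133 : BT := .node (nat_lit 0x1) (nat_lit 0x4b193a52704e827492f80032d9000ca74003a99000ea602000e300028) .leaf .leaf
def t132 : k132.all (jb2 57 fl b133) = true := by decide +kernel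
noncomputable def k133 : KT := (.br (Nat.shiftLeft (nat_lit 0x1000001) (nat_lit 125)) (.br (Nat.shiftLeft (nat_lit 0x800001) (nat_lit 125)) (.br (Nat.shiftLeft (nat_lit 0x1) (nat_lit 148)) (.one (nat_lit 0xa00000300400500a011600814c814022611)) (.br (Nat.shiftLeft (nat_lit 0x1000001003) (nat_lit 112)) (.one (nat_lit 0x100000100200400500a011402840a034422711)) (.one (nat_lit 0x100000100300400500a011602840a034422711)))) (.br (Nat.shiftLeft (nat_lit 0x1) (nat_lit 149)) (.one (nat_lit 0x100000200300400500a011602840a054822711)) (.br (Nat.shiftLeft (nat_lit 0x2000001003) (nat_lit 112)) (.one (nat_lit 0x200000100200400500a011404880a034422711)) (.one (nat_lit 0x200000100300400500a011604880a034422711))))) (.br (Nat.shiftLeft (nat_lit 0x1800001) (nat_lit 125)) (.br (Nat.shiftLeft (nat_lit 0x3) (nat_lit 148)) (.one (nat_lit 0x200000200300400500a011604880a054822711)) (.br (Nat.shiftLeft (nat_lit 0x3000001003) (nat_lit 112)) (.one (nat_lit 0x300000100200400500a0114068c0a034422711)) (.one (nat_lit 0x300000100300400500a0116068c0a034422711)))) (.br (Nat.shiftLeft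 (nat_lit 0x4000001003) (nat_lit 112)) (.br (Nat.shiftLeft (nat_lit 0x1) (nat_lit 150)) (.one (nat_lit 0x300000200300400500a0116068c0a054822711)) (.one (nat_lit 0x400000100200400500a011408900a034422711))) (.br (Nat.shiftLeft (nat_lit 0x2000001) (nat_lit 125)) (.one (nat_lit 0x400000100300400500a011608900a034422711)) (.one (nat_lit 0x400000200300400500a011608900a054822711))))))
def t133 : k133.all (jb2 57 fl b0) = true := by decide +kernel
noncomputable def k134 : KT := (.br (Nat.shiftLeft (nat_lit 0x5000001003) (nat_lit 112)) (.one (nat_lit 0x500000100200400500a01140a940a034422711)) (.one (nat_lit 0x500000100300400500a01160a940a034422711)))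
noncomputable def b135 : BT := .node (nat_lit 0x1d) (nat_lit 0xde1260a648003226000ac601918a4d1b6600194c80055b20cc924d4980001d0d00055c60ce0a4d49d2de16d993a80039db000ac70003299000ab78200434004340043400434003d4003d4003d4003d4003d4003d40037300373003730031300313003130031300313003130031300313003130031300313003130031300258002580025800258) .leaf .leaf
def t134 : k134.all (jb2 57 fl b135) = true := by decide +kernel
noncomputable def k135 : KT := (.br (Nat.shiftLeft (nat_lit 0x3) (nat_lit 149)) (.one (nat_lit 0x500000200300400500a01160a940a054822711)) (.one (nat_lit 0x600000100200400500a01140c980a034422711)))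
noncomputable def b136 : BT := .node (nat_lit 0x1) (nat_lit 0x6d936cd26b231274a4d8003a98000ab68002b1b000aa702000e300028) .leaf .leaf
def t135 : k135.all (jb2 57 fl b136) = true := by decide +kernel
noncomputable def k136 : KT := (.br (Nat.shiftLeft (nat_lit 0x3000001) (nat_lit 125)) (.one (nat_lit 0x600000100300400500a01160c980a034422711)) (.one (nat_lit 0x600000200300400500a01160c980a054822711)))
def t136 : k136.all (jb2 57 fl b0) = true := by decide +kernel
noncomputable def k137 : KT := (.br (Nat.shiftLeft (nat_lit 0x7000001003) (nat_lit 112)) (.one (nat_lit 0x700000100200400500a01140e9c0a034422711)) (.one (nat_lit 0x700000100300400500a01160e9c0a034422711)))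
noncomputable def b138 : BT := .node (nat_lit 0x2f) (nat_lit 0x3784a2899249aa4dc97e93725f93a0003317000ac600032da000ca84003a5e000ac68399125f93a9b644c049b24d897c4bc000e978002aa0000ca88002adb000cb680032d90e4d49d45a1000e680002c14064625a16d9800582800156c8323128ab6cc002b58000ab6410070e0070e0070e0070e0070e0070e0070e0070e0070e0070e0070e0070e0070e005f8005f8005f8005f8005f8005f8005f8005f8005f8005f8005f8005f8005f8005f8005f8005f8004e2004e2004e2004e2004e2004e2004e2004e2004e2004e2004e2004e200482004210042100421003c0003c0003c0) .leaf .leaf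
def t137 : k137.all (jb2 57 fl b138) = true := by decide +kernel
noncomputable def k138 : KT := (.br (Nat.shiftLeft (nat_lit 0x1) (nat_lit 151)) (.one (nat_lit 0x700000200300400500a01160e9c0a054822711)) (.br (Nat.shiftLeft (nat_lit 0x8000001003) (nat_lit 112)) (.one (nat_lit 0x800000100200400500a011410a00a034422711)) (.one (nat_lit 0x800000100300400500a011610a00a034422711))))
noncomputable def b139 : BT := .node (nat_lit 0x13) (nat_lit 0x1b644ea2b924d926c4c0000e77c0023d7000ea60002ae30a7412fc97c4e827412f926e4bf25fa4d897e4bf004e97c0132da004ea60003a98000ea6400aae0002cb6c0032a0124d897c4bf000cb640032a1076c92c64e6000cb60002b19065892705a10010578002bd6067424dc97c99126095c8003a98000cb680039a6000ad6020059500595004da004da004da004da0036a0030a0030a0030a0030a0030a0030a002aa002aa0024a0024a0024a0024a00190) .leaf .leaf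
def t138 : k138.all (jb2 57 fl b139) = true := by decide +kernel
noncomputable def k139 : KT := (.br (Nat.shiftLeft (nat_lit 0x9000001003) (nat_lit 112)) (.br (Nat.shiftLeft (nat_lit 0x9) (nat_lit 148)) (.one (nat_lit 0x800000200300400500a011610a00a054822711)) (.one (nat_lit 0x900000100200400500a011412a40a034422711))) (.br (Nat.shiftLeft (nat_lit 0x4800001) (nat_lit 125)) (.one (nat_lit 0x900000100300400500a011612a40a034422711)) (.br (Nat.shiftLeft (nat_lit 0x5) (nat_lit 149)) (.one (nat_lit 0x900000200300400500a011612a40a054822711)) (.one (nat_lit 0xa00000100200400500a011414a80a034422711)))))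
noncomputable def b140 : BT := .node (nat_lit 0x11) (nat_lit 0x48c4a86db34c89510ae40015cb00055b2001d2c80056b0149c13a097c93649b92fc0032d9000ca7c003a98000cb6c2002df002df002df002df002df002df002df0022300223001680016800168001680016800168001680016800168) .leaf .leaf
def t139 : k139.all (jb2 57 fl b140) = true := by decide +kernel
noncomputable def k140 : KT := (.br (Nat.shiftLeft (nat_lit 0x5000001) (nat_lit 125)) (.one (nat_lit 0xa00000100300400500a011614a80a034422711)) (.one (nat_lit 0xa00000200300400500a011614a80a054822711)))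
def t140 : k140.all (jb2 57 fl b0) = true := by decide +kernel
noncomputable def s7 : KT := (.br (nat_lit 0x700000200400500a01140080ebc14022611) (.br (nat_lit 0x500000100400500a01120080ab414022611) (.br (nat_lit 0x800000400500a011000800a116022511) (.br (nat_lit 0x600000400500a011000800a0d5822511) k116 (.br (nat_lit 0x700000400500a011000800a0f5c22511) k117 k118)) (.br (nat_lit 0x100000300400500a011600802a414022611) k119 (.br (nat_lit 0x300000300400500a011600806ac14022611) k120 k121))) (.br (nat_lit 0x600000200400500a01140080cb814022611) (.br (nat_lit 0x500000300400500a01160080ab414022611) k122 (.br (nat_lit 0x600000100400500a01120080cb814022611) k123 k124)) (.br (nat_lit 0x600000300400500a01160080cb814022611) k125 (.br (nat_lit 0x700000100400500a01120080ebc14022611) k126 k127)))) (.br (nat_lit 0x400000200300400500a011608900a054822711) (.br (nat_lit 0x800000300400500a011600810c014022611) (.br (nat_lit 0x700000300400500a01160080ebc14022611) k128 (.br (nat_lit 0x800000100400500a011200810c014022611) k129 k130)) (.br (nat_lit 0x900000200400500a011400812c414022611)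 k131 (.br (nat_lit 0xa00000200400500a011400814c814022611) k132 k133))) (.br (nat_lit 0x600000200300400500a01160c980a054822711) (.br (nat_lit 0x500000100300400500a01160a940a034422711) k134 (.br (nat_lit 0x600000100200400500a01140c980a034422711) k135 k136)) (.br (nat_lit 0x800000100300400500a011610a00a034422711) (.br (nat_lit 0x700000100300400500a01160e9c0a034422711) k137 k138) (.br (nat_lit 0xa00000100200400500a011414a80a034422711) k139 k140)))))
noncomputable def u7 : KT := (.one (nat_lit 0x400500a011000800a014022540))
def w7 : u7.all (wj 57 s7) = true := by decide +kernel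
def o7 : OkW 57 (jb2 57 fl) u7 := .lift s7 _ (.br _ _ _ (.br _ _ _ (.br _ _ _ (.br _ _ _ (.leaf b117 k116 t116) (.br _ _ _ (.leaf b118 k117 t117) (.leaf b119 k118 t118))) (.br _ _ _ (.leaf b120 k119 t119) (.br _ _ _ (.leaf b0 k120 t120) (.leaf b0 k121 t121)))) (.br _ _ _ (.br _ _ _ (.leaf b0 k122 t122) (.br _ _ _ (.leaf b124 k123 t123) (.leaf b125 k124 t124))) (.br _ _ _ (.leaf b0 k125 t125) (.br _ _ _ (.leaf b127 k126 t126) (.leaf b128 k127 t127))))) (.br _ _ _ (.br _ _ _ (.br _ _ _ (.leaf b0 k128 t128) (.br _ _ _ (.leaf b130 k129 t129) (.leaf b131 k130 t130))) (.br _ _ _ (.leaf b132 k131 t131) (.br _ _ _ (.leaf b133 k132 t132) (.leaf b0 k133 t133)))) (.br _ _ _ (.br _ _ _ (.leaf b135 k134 t134) (.br _ _ _ (.leaf b136 k135 t135) (.leaf b0 k136 t136))) (.br _ _ _ (.br _ _ _ (.leaf b138 k137 t137) (.leaf b139 k138 t138)) (.br _ _ _ (.leaf b140 k139 t139) (.leaf b0 k140 t140)))))) w7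
noncomputable def k141 : KT := (.br (Nat.shiftLeft (nat_lit 0x1003) (nat_lit 112)) (.br (Nat.shiftLeft (nat_lit 0x3) (nat_lit 112)) (.br (Nat.shiftLeft (nat_lit 0x1) (nat_lit 112)) (.one (nat_lit 0x400500a012000800a014025500)) (.br (Nat.shiftLeft (nat_lit 0x1) (nat_lit 113)) (.one (nat_lit 0x100400500a012200800a014025600)) (.one (nat_lit 0x200400500a012400800a014025600)))) (.br (Nat.shiftLeft (nat_lit 0x1) (nat_lit 124)) (.one (nat_lit 0x300400500a012600800a014025600)) (.br (Nat.shiftLeft (nat_lit 0x801) (nat_lit 113)) (.one (nat_lit 0x100000400500a012000800a034424511)) (.one (nat_lit 0x100200400500a012400800a034425700))))) (.br (Nat.shiftLeft (nat_lit 0x3) (nat_lit 124)) (.br (Nat.shiftLeft (nat_lit 0x1) (nat_lit 125)) (.one (nat_lit 0x100300400500a012600800a034425700)) (.br (Nat.shiftLeft (nat_lit 0x1001) (nat_lit 113)) (.one (nat_lit 0x200000400500a012000800a054824511)) (.one (nat_lit 0x200300400500a012600800a054825700)))) (.br (Nat.shiftLeft (nat_lit 0x5) (nat_lit 124)) (.br (Nat.shiftLeft (nat_lit 0x1) (nat_lit 126)) (.one (nat_lit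 0x300000400500a012000800a074c24511)) (.one (nat_lit 0x400000400500a012000800a095024511))) (.br (Nat.shiftLeft (nat_lit 0x3) (nat_lit 125)) (.one (nat_lit 0x500000400500a012000800a0b5424511)) (.one (nat_lit 0x600000400500a012000800a0d5824511))))))
noncomputable def b142 : BT := .node (nat_lit 0x1) (nat_lit 0xde149aa648003a59000cb6010008800028) .leaf .leaf
def t141 : k141.all (jb2 57 fl b142) = true := by decide +kernel
noncomputable def k142 : KT := (.br (Nat.shiftLeft (nat_lit 0x1) (nat_lit 127)) (.one (nat_lit 0x700000400500a012000800a0f5c24511)) (.one (nat_lit 0x800000400500a012000800a116024511)))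
noncomputable def b143 : BT := .node (nat_lit 0x1) (nat_lit 0xdb325f24dc0032d9000ab7010008800028) .leaf .leaf
def t142 : k142.all (jb2 57 fl b143) = true := by decide +kernel
noncomputable def k143 : KT := (.br (Nat.shiftLeft (nat_lit 0x1) (nat_lit 136)) (.br (Nat.shiftLeft (nat_lit 0x5) (nat_lit 125)) (.one (nat_lit 0x900000400500a012000800a136424511)) (.one (nat_lit 0xa00000400500a012000800a156824511))) (.br (Nat.shiftLeft (nat_lit 0x800001) (nat_lit 113)) (.one (nat_lit 0x100000100400500a012200802a414024611)) (.br (Nat.shiftLeft (nat_lit 0x1000003) (nat_lit 112)) (.one (nat_lit 0x100000200400500a012400802a414024611)) (.one (nat_lit 0x100000300400500a012600802a414024611)))))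
noncomputable def b144 : BT := .node (nat_lit 0x17) (nat_lit 0x36c9b685420010868002b57076d1270963000ea600032d80689a58c9d096326024dc003a98000cb600032db000ca7029d24c027424e097e4e9000e9800032d8000ea600032da0a4e097e4bf000ea600032d9076cc9804e84b193a526e00195000055ba00196d000653816d992f898200196c000554a0cb1a590980db327413a00032d9000c994003a980008c7420064a0064a0064a0064a0064a005ea0058a0058a004d000416003b6003b6003b6003b6003b6003b6003b6003b6002fb0029b0029b0029b001e0001e0) .leaf .leaf
def t143 : k143.all (jb2 57 fl b144) = true := by decide +kernel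
noncomputable def k144 : KT := (.br (Nat.shiftLeft (nat_lit 0x3) (nat_lit 136)) (.br (Nat.shiftLeft (nat_lit 0x1000001) (nat_lit 113)) (.br (Nat.shiftLeft (nat_lit 0x1) (nat_lit 137)) (.one (nat_lit 0x100200300400500a012600802a454824870)) (.one (nat_lit 0x200000100400500a012200804a814024611))) (.br (Nat.shiftLeft (nat_lit 0x2000003) (nat_lit 112)) (.one (nat_lit 0x200000200400500a012400804a814024611)) (.one (nat_lit 0x200000300400500a012600804a814024611)))) (.br (Nat.shiftLeft (nat_lit 0x3000003) (nat_lit 112)) (.br (Nat.shiftLeft (nat_lit 0x1800001) (nat_lit 113)) (.one (nat_lit 0x300000100400500a012200806ac14024611)) (.one (nat_lit 0x300000200400500a012400806ac14024611))) (.br (Nat.shiftLeft (nat_lit 0x1) (nat_lit 138)) (.one (nat_lit 0x300000300400500a012600806ac14024611)) (.br (Nat.shiftLeft (nat_lit 0x2000001) (nat_lit 113)) (.one (nat_lit 0x400000100400500a012200808b014024611)) (.one (nat_lit 0x400000200400500a012400808b014024611))))))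
def t144 : k144.all (jb2 57 fl b0) = true := by decide +kernel
noncomputable def k145 : KT := (.br (Nat.shiftLeft (nat_lit 0x5) (nat_lit 136)) (.one (nat_lit 0x400000300400500a012600808b014024611)) (.br (Nat.shiftLeft (nat_lit 0x2800001) (nat_lit 113)) (.one (nat_lit 0x500000100400500a01220080ab414024611)) (.one (nat_lit 0x500000200400500a01240080ab414024611))))
def t145 : k145.all (jb2 57 fl b0) = true := by decide +kernel
noncomputable def k146 : KT := (.br (Nat.shiftLeft (nat_lit 0x3) (nat_lit 137)) (.one (nat_lit 0x500000300400500a01260080ab414024611)) (.one (nat_lit 0x600000100400500a01220080cb814024611)))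
def t146 : k146.all (jb2 57 fl b0) = true := by decide +kernel
noncomputable def k147 : KT := (.br (Nat.shiftLeft (nat_lit 0x6000003) (nat_lit 112)) (.one (nat_lit 0x600000200400500a01240080cb814024611)) (.one (nat_lit 0x600000300400500a01260080cb814024611)))
def t147 : k147.all (jb2 57 fl b0) = true := by decide +kernel
noncomputable def k148 : KT := (.br (Nat.shiftLeft (nat_lit 0x3800001) (nat_lit 113)) (.one (nat_lit 0x700000100400500a01220080ebc14024611)) (.one (nat_lit 0x700000200400500a01240080ebc14024611)))
def t148 : k148.all (jb2 57 fl b0) = true := by decide +kernel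
noncomputable def k149 : KT := (.br (Nat.shiftLeft (nat_lit 0x1) (nat_lit 139)) (.one (nat_lit 0x700000300400500a01260080ebc14024611)) (.one (nat_lit 0x800000100400500a012200810c014024611)))
noncomputable def b150 : BT := .node (nat_lit 0x1) (nat_lit 0x49b12fc9d093625f92f800ba98004cb6400b2da000cb642000e300028) .leaf .leaf
def t149 : k149.all (jb2 57 fl b150) = true := by decide +kernel
noncomputable def k150 : KT := (.br (Nat.shiftLeft (nat_lit 0x8000003) (nat_lit 112)) (.one (nat_lit 0x800000200400500a012400810c014024611)) (.br (Nat.shiftLeft (nat_lit 0x9) (nat_lit 136)) (.one (nat_lit 0x800000300400500a012600810c014024611)) (.one (nat_lit 0x900000100400500a012200812c414024611))))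
noncomputable def b151 : BT := .node (nat_lit 0x17) (nat_lit 0x49b24dc980001d4c80055c60c9b24e09d093625f93000032db002cb640132db002ca842db3260950c0039e60008e6010035b002fb002fb002fb002fb00240002400024000240002400024000240002400024000240002400024000240001e0001e0001e0001e0001e0001e0) .leaf .leaf
def t150 : k150.all (jb2 57 fl b151) = true := by decide +kernel
noncomputable def k151 : KT := (.br (Nat.shiftLeft (nat_lit 0x5) (nat_lit 137)) (.br (Nat.shiftLeft (nat_lit 0x9000003) (nat_lit 112)) (.one (nat_lit 0x900000200400500a012400812c414024611)) (.one (nat_lit 0x900000300400500a012600812c414024611))) (.br (Nat.shiftLeft (nat_lit 0x5000001) (nat_lit 113)) (.one (nat_lit 0xa00000100400500a012200814c814024611)) (.one (nat_lit 0xa00000200400500a012400814c814024611))))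
def t151 : k151.all (jb2 57 fl b0) = true := by decide +kernel
noncomputable def k152 : KT := (.br (Nat.shiftLeft (nat_lit 0x3) (nat_lit 148)) (.br (Nat.shiftLeft (nat_lit 0x800001) (nat_lit 125)) (.br (Nat.shiftLeft (nat_lit 0x1) (nat_lit 148)) (.one (nat_lit 0xa00000300400500a012600814c814024611)) (.br (Nat.shiftLeft (nat_lit 0x1000001003) (nat_lit 112)) (.one (nat_lit 0x100000100200400500a012402840a034424711)) (.one (nat_lit 0x100000100300400500a012602840a034424711)))) (.br (Nat.shiftLeft (nat_lit 0x2000001003) (nat_lit 112)) (.br (Nat.shiftLeft (nat_lit 0x1) (nat_lit 149)) (.one (nat_lit 0x100000200300400500a012602840a054824711)) (.one (nat_lit 0x200000100200400500a012404880a034424711))) (.br (Nat.shiftLeft (nat_lit 0x1000001) (nat_lit 125)) (.one (nat_lit 0x200000100300400500a012604880a034424711)) (.one (nat_lit 0x200000200300400500a012604880a054824711))))) (.br (Nat.shiftLeft (nat_lit 0x1) (nat_lit 150)) (.br (Nat.shiftLeft (nat_lit 0x3000001003) (nat_lit 112)) (.one (nat_lit 0x300000100200400500a0124068c0a034424711)) (.br (Nat.shiftLeft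 (nat_lit 0x1800001) (nat_lit 125)) (.one (nat_lit 0x300000100300400500a0126068c0a034424711)) (.one (nat_lit 0x300000200300400500a0126068c0a054824711)))) (.br (Nat.shiftLeft (nat_lit 0x2000001) (nat_lit 125)) (.br (Nat.shiftLeft (nat_lit 0x4000001003) (nat_lit 112)) (.one (nat_lit 0x400000100200400500a012408900a034424711)) (.one (nat_lit 0x400000100300400500a012608900a034424711))) (.br (Nat.shiftLeft (nat_lit 0x5) (nat_lit 148)) (.one (nat_lit 0x400000200300400500a012608900a054824711)) (.one (nat_lit 0x500000100200400500a01240a940a034424711))))))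
def t152 : k152.all (jb2 57 fl b0) = true := by decide +kernel
noncomputable def k153 : KT := (.br (Nat.shiftLeft (nat_lit 0x2800001) (nat_lit 125)) (.one (nat_lit 0x500000100300400500a01260a940a034424711)) (.br (Nat.shiftLeft (nat_lit 0x3) (nat_lit 149)) (.one (nat_lit 0x500000200300400500a01260a940a054824711)) (.one (nat_lit 0x600000100200400500a01240c980a034424711))))
def t153 : k153.all (jb2 57 fl b0) = true := by decide +kernel
noncomputable def k154 : KT := (.br (Nat.shiftLeft (nat_lit 0x3000001) (nat_lit 125)) (.one (nat_lit 0x600000100300400500a01260c980a034424711)) (.br (Nat.shiftLeft (nat_lit 0x7) (nat_lit 148)) (.one (nat_lit 0x600000200300400500a01260c980a054824711)) (.one (nat_lit 0x700000100200400500a01240e9c0a034424711))))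
def t154 : k154.all (jb2 57 fl b0) = true := by decide +kernel
noncomputable def k155 : KT := (.br (Nat.shiftLeft (nat_lit 0x1) (nat_lit 151)) (.br (Nat.shiftLeft (nat_lit 0x3800001) (nat_lit 125)) (.one (nat_lit 0x700000100300400500a01260e9c0a034424711)) (.one (nat_lit 0x700000200300400500a01260e9c0a054824711))) (.br (Nat.shiftLeft (nat_lit 0x8000001003) (nat_lit 112)) (.one (nat_lit 0x800000100200400500a012410a00a034424711)) (.br (Nat.shiftLeft (nat_lit 0x4000001) (nat_lit 125)) (.one (nat_lit 0x800000100300400500a012610a00a034424711)) (.one (nat_lit 0x800000200300400500a012610a00a054824711)))))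
def t155 : k155.all (jb2 57 fl b0) = true := by decide +kernel
noncomputable def k156 : KT := (.br (Nat.shiftLeft (nat_lit 0x5) (nat_lit 149)) (.br (Nat.shiftLeft (nat_lit 0x9000001003) (nat_lit 112)) (.one (nat_lit 0x900000100200400500a012412a40a034424711)) (.br (Nat.shiftLeft (nat_lit 0x4800001) (nat_lit 125)) (.one (nat_lit 0x900000100300400500a012612a40a034424711)) (.one (nat_lit 0x900000200300400500a012612a40a054824711)))) (.br (Nat.shiftLeft (nat_lit 0xa000001003) (nat_lit 112)) (.one (nat_lit 0xa00000100200400500a012414a80a034424711)) (.br (Nat.shiftLeft (nat_lit 0x5000001) (nat_lit 125)) (.one (nat_lit 0xa00000100300400500a012614a80a034424711)) (.one (nat_lit 0xa00000200300400500a012614a80a054824711)))))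
def t156 : k156.all (jb2 57 fl b0) = true := by decide +kernel
noncomputable def s8 : KT := (.br (nat_lit 0x700000200400500a01240080ebc14024611) (.br (nat_lit 0x400000200400500a012400808b014024611) (.br (nat_lit 0x800000400500a012000800a116024511) (.br (nat_lit 0x600000400500a012000800a0d5824511) k141 k142) (.br (nat_lit 0x100000300400500a012600802a414024611) k143 k144)) (.br (nat_lit 0x600000100400500a01220080cb814024611) (.br (nat_lit 0x500000200400500a01240080ab414024611) k145 k146) (.br (nat_lit 0x600000300400500a01260080cb814024611) k147 k148))) (.br (nat_lit 0x500000100200400500a01240a940a034424711) (.br (nat_lit 0x900000100400500a012200812c414024611) (.br (nat_lit 0x800000100400500a012200810c014024611) k149 k150) (.br (nat_lit 0xa00000200400500a012400814c814024611) k151 k152)) (.br (nat_lit 0x700000100200400500a01240e9c0a034424711) (.br (nat_lit 0x600000100200400500a01240c980a034424711) k153 k154) (.br (nat_lit 0x800000200300400500a012610a00a054824711) k155 k156))))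
noncomputable def u8 : KT := (.one (nat_lit 0x400500a012000800a014024540))
def w8 : u8.all (wj 57 s8) = true := by decide +kernel
def o8 : OkW 57 (jb2 57 fl) u8 := .lift s8 _ (.br _ _ _ (.br _ _ _ (.br _ _ _ (.br _ _ _ (.leaf b142 k141 t141) (.leaf b143 k142 t142)) (.br _ _ _ (.leaf b144 k143 t143) (.leaf b0 k144 t144))) (.br _ _ _ (.br _ _ _ (.leaf b0 k145 t145) (.leaf b0 k146 t146)) (.br _ _ _ (.leaf b0 k147 t147) (.leaf b0 k148 t148)))) (.br _ _ _ (.br _ _ _ (.br _ _ _ (.leaf b150 k149 t149) (.leaf b151 k150 t150)) (.br _ _ _ (.leaf b0 k151 t151) (.leaf b0 k152 t152))) (.br _ _ _ (.br _ _ _ (.leaf b0 k153 t153) (.leaf b0 k154 t154)) (.br _ _ _ (.leaf b0 k155 t155) (.leaf b0 k156 t156))))) w8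
noncomputable def k157 : KT := (.br (Nat.shiftLeft (nat_lit 0x3) (nat_lit 112)) (.br (Nat.shiftLeft (nat_lit 0x2002805807) (nat_lit 65)) (.br (Nat.shiftLeft (nat_lit 0x400500b) (nat_lit 76)) (.one (nat_lit 0x400500a013000800a014027500)) (.br (Nat.shiftLeft (nat_lit 0x400500b00d) (nat_lit 64)) (.one (nat_lit 0x400500b00c000800a016019500)) (.one (nat_lit 0x400500b00d000800a01601b500)))) (.br (Nat.shiftLeft (nat_lit 0x1) (nat_lit 112)) (.br (Nat.shiftLeft (nat_lit 0x400500b00f) (nat_lit 64)) (.one (nat_lit 0x400500b00e000800a01601d500)) (.one (nat_lit 0x400500b00f000800a01601f500))) (.br (Nat.shiftLeft (nat_lit 0x1) (nat_lit 113)) (.one (nat_lit 0x100400500a013200800a014027600)) (.one (nat_lit 0x200400500a013400800a014027600))))) (.br (Nat.shiftLeft (nat_lit 0x1003) (nat_lit 112)) (.br (Nat.shiftLeft (nat_lit 0x1) (nat_lit 124)) (.one (nat_lit 0x300400500a013600800a014027600)) (.br (Nat.shiftLeft (nat_lit 0x801) (nat_lit 113)) (.one (nat_lit 0x100000400500a013000800a034426511)) (.one (nat_lit 0x100200400500a013400800a034427700)))) (.br (Nat.shiftLeft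 (nat_lit 0x1001) (nat_lit 113)) (.br (Nat.shiftLeft (nat_lit 0x1) (nat_lit 125)) (.one (nat_lit 0x100300400500a013600800a034426760)) (.one (nat_lit 0x200000400500a013000800a054826511))) (.br (Nat.shiftLeft (nat_lit 0x3) (nat_lit 124)) (.one (nat_lit 0x200300400500a013600800a054827700)) (.one (nat_lit 0x300000400500a013000800a074c26511))))))
def t157 : k157.all (jb2 57 fl b0) = true := by decide +kernel
noncomputable def k158 : KT := (.br (Nat.shiftLeft (nat_lit 0x3) (nat_lit 125)) (.br (Nat.shiftLeft (nat_lit 0x5) (nat_lit 124)) (.one (nat_lit 0x400000400500a013000800a095026511)) (.one (nat_lit 0x500000400500a013000800a0b5426511))) (.br (Nat.shiftLeft (nat_lit 0x7) (nat_lit 124)) (.one (nat_lit 0x600000400500a013000800a0d5826511)) (.one (nat_lit 0x700000400500a013000800a0f5c26511))))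
def t158 : k158.all (jb2 57 fl b0) = true := by decide +kernel
noncomputable def k159 : KT := (.br (Nat.shiftLeft (nat_lit 0x1) (nat_lit 136)) (.br (Nat.shiftLeft (nat_lit 0x9) (nat_lit 124)) (.one (nat_lit 0x800000400500a013000800a116026511)) (.br (Nat.shiftLeft (nat_lit 0x5) (nat_lit 125)) (.one (nat_lit 0x900000400500a013000800a136426511)) (.one (nat_lit 0xa00000400500a013000800a156826511)))) (.br (Nat.shiftLeft (nat_lit 0x800001) (nat_lit 113)) (.one (nat_lit 0x100000100400500a013200802a414026611)) (.br (Nat.shiftLeft (nat_lit 0x1000003) (nat_lit 112)) (.one (nat_lit 0x100000200400500a013400802a414026611)) (.one (nat_lit 0x100000300400500a013600802a414026611)))))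
noncomputable def b160 : BT := .node (nat_lit 0xb) (nat_lit 0x49b92fc9d2001d4c00056340cb213a09d000196c00065b00ce849c12fc003a99000cb6010020f0020f001af001af001af001af0014f000f0000f0000f0000f0000f0) .leaf .leaf
def t159 : k159.all (jb2 57 fl b160) = true := by decide +kernel
noncomputable def k160 : KT := (.br (Nat.shiftLeft (nat_lit 0x1800001) (nat_lit 113)) (.br (Nat.shiftLeft (nat_lit 0x1000001) (nat_lit 113)) (.br (Nat.shiftLeft (nat_lit 0x1) (nat_lit 137)) (.one (nat_lit 0x100200300400500a013600802a454826870)) (.one (nat_lit 0x200000100400500a013200804a814026611))) (.br (Nat.shiftLeft (nat_lit 0x2000003) (nat_lit 112)) (.one (nat_lit 0x200000200400500a013400804a814026611)) (.br (Nat.shiftLeft (nat_lit 0x3) (nat_lit 136)) (.one (nat_lit 0x200000300400500a013600804a814026611)) (.one (nat_lit 0x300000100400500a013200806ac14026611))))) (.br (Nat.shiftLeft (nat_lit 0x1) (nat_lit 138)) (.br (Nat.shiftLeft (nat_lit 0x3000003) (nat_lit 112)) (.one (nat_lit 0x300000200400500a013400806ac14026611)) (.one (nat_lit 0x300000300400500a013600806ac14026611)))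 (.br (Nat.shiftLeft (nat_lit 0x2000001) (nat_lit 113)) (.one (nat_lit 0x400000100400500a013200808b014026611)) (.br (Nat.shiftLeft (nat_lit 0x4000003) (nat_lit 112)) (.one (nat_lit 0x400000200400500a013400808b014026611)) (.one (nat_lit 0x400000300400500a013600808b014026611))))))
def t160 : k160.all (jb2 57 fl b0) = true := by decide +kernel
noncomputable def k161 : KT := (.br (Nat.shiftLeft (nat_lit 0x2800001) (nat_lit 113)) (.one (nat_lit 0x500000100400500a01320080ab414026611)) (.br (Nat.shiftLeft (nat_lit 0x5000003) (nat_lit 112)) (.one (nat_lit 0x500000200400500a01340080ab414026611)) (.one (nat_lit 0x500000300400500a01360080ab414026611))))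
def t161 : k161.all (jb2 57 fl b0) = true := by decide +kernel
noncomputable def k162 : KT := (.br (Nat.shiftLeft (nat_lit 0x3000001) (nat_lit 113)) (.one (nat_lit 0x600000100400500a01320080cb814026611)) (.one (nat_lit 0x600000200400500a01340080cb814026611)))
def t162 : k162.all (jb2 57 fl b0) = true := by decide +kernel
noncomputable def k163 : KT := (.br (Nat.shiftLeft (nat_lit 0x7) (nat_lit 136)) (.one (nat_lit 0x600000300400500a01360080cb814026611)) (.br (Nat.shiftLeft (nat_lit 0x3800001) (nat_lit 113)) (.one (nat_lit 0x700000100400500a01320080ebc14026611)) (.one (nat_lit 0x700000200400500a01340080ebc14026611))))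
def t163 : k163.all (jb2 57 fl b0) = true := by decide +kernel
noncomputable def k164 : KT := (.br (Nat.shiftLeft (nat_lit 0x4000001) (nat_lit 113)) (.br (Nat.shiftLeft (nat_lit 0x1) (nat_lit 139)) (.one (nat_lit 0x700000300400500a01360080ebc14026611)) (.one (nat_lit 0x800000100400500a013200810c014026611))) (.br (Nat.shiftLeft (nat_lit 0x8000003) (nat_lit 112)) (.one (nat_lit 0x800000200400500a013400810c014026611)) (.one (nat_lit 0x800000300400500a013600810c014026611))))
def t164 : k164.all (jb2 57 fl b0) = true := by decide +kernel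
noncomputable def k165 : KT := (.br (Nat.shiftLeft (nat_lit 0x1) (nat_lit 148)) (.br (Nat.shiftLeft (nat_lit 0x5) (nat_lit 137)) (.br (Nat.shiftLeft (nat_lit 0x4800001) (nat_lit 113)) (.one (nat_lit 0x900000100400500a013200812c414026611)) (.br (Nat.shiftLeft (nat_lit 0x9000003) (nat_lit 112)) (.one (nat_lit 0x900000200400500a013400812c414026611)) (.one (nat_lit 0x900000300400500a013600812c414026611)))) (.br (Nat.shiftLeft (nat_lit 0x5000001) (nat_lit 113)) (.one (nat_lit 0xa00000100400500a013200814c814026611)) (.br (Nat.shiftLeft (nat_lit 0xa000003) (nat_lit 112)) (.one (nat_lit 0xa00000200400500a013400814c814026611)) (.one (nat_lit 0xa00000300400500a013600814c814026611))))) (.br (Nat.shiftLeft (nat_lit 0x1000001) (nat_lit 125)) (.br (Nat.shiftLeft (nat_lit 0x800001) (nat_lit 125)) (.one (nat_lit 0x100000100200400500a013402840a034426711)) (.br (Nat.shiftLeft (nat_lit 0x1) (nat_lit 149)) (.one (nat_lit 0x100000200300400500a013602840a054826711)) (.one (nat_lit 0x200000100200400500a013404880a034426711)))) (.br (Nat.shiftLeft (nat_lit 0x3) (nat_lit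 148)) (.one (nat_lit 0x200000200300400500a013604880a054826711)) (.br (Nat.shiftLeft (nat_lit 0x1800001) (nat_lit 125)) (.one (nat_lit 0x300000100200400500a0134068c0a034426711)) (.one (nat_lit 0x300000200300400500a0136068c0a054826711))))))
def t165 : k165.all (jb2 57 fl b0) = true := by decide +kernel
noncomputable def k166 : KT := (.br (Nat.shiftLeft (nat_lit 0x5) (nat_lit 148)) (.br (Nat.shiftLeft (nat_lit 0x2000001) (nat_lit 125)) (.one (nat_lit 0x400000100200400500a013408900a034426711)) (.one (nat_lit 0x400000200300400500a013608900a054826711))) (.br (Nat.shiftLeft (nat_lit 0x2800001) (nat_lit 125)) (.one (nat_lit 0x500000100200400500a01340a940a034426711)) (.br (Nat.shiftLeft (nat_lit 0x3) (nat_lit 149)) (.one (nat_lit 0x500000200300400500a01360a940a054826711)) (.one (nat_lit 0x600000100200400500a01340c980a034426711)))))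
def t166 : k166.all (jb2 57 fl b0) = true := by decide +kernel
noncomputable def k167 : KT := (.br (Nat.shiftLeft (nat_lit 0x4000001) (nat_lit 125)) (.br (Nat.shiftLeft (nat_lit 0x3800001) (nat_lit 125)) (.br (Nat.shiftLeft (nat_lit 0x7) (nat_lit 148)) (.one (nat_lit 0x600000200300400500a01360c980a054826711)) (.one (nat_lit 0x700000100200400500a01340e9c0a034426711))) (.br (Nat.shiftLeft (nat_lit 0x1) (nat_lit 151)) (.one (nat_lit 0x700000200300400500a01360e9c0a054826711)) (.one (nat_lit 0x800000100200400500a013410a00a034426711)))) (.br (Nat.shiftLeft (nat_lit 0x4800001) (nat_lit 125)) (.br (Nat.shiftLeft (nat_lit 0x9) (nat_lit 148)) (.one (nat_lit 0x800000200300400500a013610a00a054826711)) (.one (nat_lit 0x900000100200400500a013412a40a034426711))) (.br (Nat.shiftLeft (nat_lit 0x5) (nat_lit 149)) (.one (nat_lit 0x900000200300400500a013612a40a054826711)) (.br (Nat.shiftLeft (nat_lit 0x5000001) (nat_lit 125)) (.one (nat_lit 0xa00000100200400500a013414a80a034426711)) (.one (nat_lit 0xa00000200300400500a013614a80a054826711))))))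
def t167 : k167.all (jb2 57 fl b0) = true := by decide +kernel
noncomputable def s9 : KT := (.br (nat_lit 0x500000300400500a01360080ab414026611) (.br (nat_lit 0x700000400500a013000800a0f5c26511) (.br (nat_lit 0x300000400500a013000800a074c26511) k157 k158) (.br (nat_lit 0x100000300400500a013600802a414026611) k159 (.br (nat_lit 0x400000300400500a013600808b014026611) k160 k161))) (.br (nat_lit 0x800000300400500a013600810c014026611) (.br (nat_lit 0x600000200400500a01340080cb814026611) k162 (.br (nat_lit 0x700000200400500a01340080ebc14026611) k163 k164)) (.br (nat_lit 0x300000200300400500a0136068c0a054826711) k165 (.br (nat_lit 0x600000100200400500a01340c980a034426711) k166 k167))))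
noncomputable def u9 : KT := (.br (Nat.shiftLeft (nat_lit 0x400500b00d) (nat_lit 64)) (.br (Nat.shiftLeft (nat_lit 0x400500b) (nat_lit 76)) (.one (nat_lit 0x400500a013000800a014026540)) (.one (nat_lit 0x400500b00c000800a016019500))) (.br (Nat.shiftLeft (nat_lit 0x2002805807) (nat_lit 65)) (.one (nat_lit 0x400500b00d000800a01601b500)) (.br (Nat.shiftLeft (nat_lit 0x400500b00f) (nat_lit 64)) (.one (nat_lit 0x400500b00e000800a01601d500)) (.one (nat_lit 0x400500b00f000800a01601f500)))))
def w9 : u9.all (wj 57 s9) = true := by decide +kernel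
def o9 : OkW 57 (jb2 57 fl) u9 := .lift s9 _ (.br _ _ _ (.br _ _ _ (.br _ _ _ (.leaf b0 k157 t157) (.leaf b0 k158 t158)) (.br _ _ _ (.leaf b160 k159 t159) (.br _ _ _ (.leaf b0 k160 t160) (.leaf b0 k161 t161)))) (.br _ _ _ (.br _ _ _ (.leaf b0 k162 t162) (.br _ _ _ (.leaf b0 k163 t163) (.leaf b0 k164 t164))) (.br _ _ _ (.leaf b0 k165 t165) (.br _ _ _ (.leaf b0 k166 t166) (.leaf b0 k167 t167))))) w9
noncomputable def k168 : KT := (.br (Nat.shiftLeft (nat_lit 0x1003) (nat_lit 112)) (.br (Nat.shiftLeft (nat_lit 0x3) (nat_lit 112)) (.br (Nat.shiftLeft (nat_lit 0x1) (nat_lit 112)) (.one (nat_lit 0x400500b010000800a016021500)) (.br (Nat.shiftLeft (nat_lit 0x1) (nat_lit 113)) (.one (nat_lit 0x100400500b010200800a016021600)) (.one (nat_lit 0x200400500b010400800a016021600)))) (.br (Nat.shiftLeft (nat_lit 0x1) (nat_lit 124)) (.one (nat_lit 0x300400500b010600800a016021600)) (.br (Nat.shiftLeft (nat_lit 0x801) (nat_lit 113)) (.one (nat_lit 0x100000400500b010000800a036420511)) (.one (nat_lit 0x100200400500b010400800a036421700))))) (.br (Nat.shiftLeft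 (nat_lit 0x3) (nat_lit 124)) (.br (Nat.shiftLeft (nat_lit 0x1) (nat_lit 125)) (.one (nat_lit 0x100300400500b010600800a036421700)) (.br (Nat.shiftLeft (nat_lit 0x1001) (nat_lit 113)) (.one (nat_lit 0x200000400500b010000800a056820511)) (.one (nat_lit 0x200300400500b010600800a056821700)))) (.br (Nat.shiftLeft (nat_lit 0x5) (nat_lit 124)) (.br (Nat.shiftLeft (nat_lit 0x1) (nat_lit 126)) (.one (nat_lit 0x300000400500b010000800a076c20511)) (.one (nat_lit 0x400000400500b010000800a097020511))) (.br (Nat.shiftLeft (nat_lit 0x3) (nat_lit 125)) (.one (nat_lit 0x500000400500b010000800a0b7420511)) (.one (nat_lit 0x600000400500b010000800a0d7820511))))))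
noncomputable def b169 : BT := .node (nat_lit 0x3) (nat_lit 0x6d9b6d097e00196c00055460cc892f897ede1275150c003a98000a994003a1f0008d6420016b0010b0005000050) .leaf .leaf
def t168 : k168.all (jb2 57 fl b169) = true := by decide +kernel
noncomputable def k169 : KT := (.one (nat_lit 0x700000400500b010000800a0f7c20511))
noncomputable def b170 : BT := .node (nat_lit 0xb) (nat_lit 0x12c84be49b1508a284c091892f8a2ade14b2258c0032db000ca68003a59000c990003a5d0006d6c0032d8000ca644de16d99450003a590008d641002c1002c1002c10015000150001500015000150001500015000150000f0) .leaf .leaf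
def t169 : k169.all (jb2 57 fl b170) = true := by decide +kernel
noncomputable def k170 : KT := (.one (nat_lit 0x800000400500b010000800a118020511))
noncomputable def b171 : BT := .node (nat_lit 0x11) (nat_lit 0xa84964275000843400156f0350d26c4ea6d9b6cd26edb327524dd322db427500183b600558e001753000196c00265b400956e00174b400156f09bc29374b2258c97c4bf000ca6c00329a000ea60002aa30b6c9b6854327413a497e4e925f13a4003a5a0008e5c003a98000ca80003a5d000cb6830050800508005080050800508005080050800508004a9003390027e00168001680016800168001680016800168) .leaf .leaf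
def t170 : k170.all (jb2 57 fl b171) = true := by decide +kernel
noncomputable def k171 : KT := (.one (nat_lit 0x900000400500b010000800a138420511))
noncomputable def b172 : BT := .node (nat_lit 0x43) (nat_lit 0x36cc97e9634b2258c97cdb225f93a800329f000ac600032d8000c98c003a990008c7c3a8493725f80083b8001570832c64bf49c000654000194e032c696425f258c9d44e9000cb6800b262004cb6800b29d0b6cdb664bf000cb60002aa406a1a4e09d20020ee80056340ed9a4dca86db349c258db644c02a100083b80011cc00074ba00158c00073cc0011cb87b664ea2a1a58d2c64ea000e87c002397000cb6000329f0a58ca264ea49c12f926e93827493a40032d8002ca7c00b2da004cb6000ba98002ac64393825f24e09d24bf25f00065b400196c000753200194f052ed2724e9000ea680032d90674a4e097c96425e93a8003a98000ca78003a5c000ab782db325f12f9b649394c880065b2001551800743e0015ab8526e4bf49bb6cc9d651549b92f89d293727493a800b2db004cb6000ba5d0028d68003a98000cb64013a99002ac6c4db3274a4e00032d9000ab74100fe600ed000ed000e7100e7100e7100e7100e7100e7100e7100e7100e7100e1100d5600d5600d5600d5600d5600d5600d5600d5600d5600d5600d5600d5600cf600cf600c9700b8100ac600ac600ac6009b0009b0009b0009b0009b0009b0009b0009b0008f5008f5008f5008f5008f5008f5008f5008f5008f5008f5008f5008f5008f500896007dc00721005b0005b0005b0005b0005b0005b0005b0005b0005b0005500055000550)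 .leaf .leaf
def t171 : k171.all (jb2 57 fl b172) = true := by decide +kernel
noncomputable def k172 : KT := (.br (Nat.shiftLeft (nat_lit 0x1) (nat_lit 136)) (.br (Nat.shiftLeft (nat_lit 0xb) (nat_lit 124)) (.one (nat_lit 0xa00000400500b010000800a158820511)) (.one (nat_lit 0xb00000400500b010000800a178c20511))) (.br (Nat.shiftLeft (nat_lit 0x800001) (nat_lit 113)) (.one (nat_lit 0x100000100400500b010200802a416020611)) (.br (Nat.shiftLeft (nat_lit 0x1000003) (nat_lit 112)) (.one (nat_lit 0x100000200400500b010400802a416020611)) (.one (nat_lit 0x100000300400500b010600802a416020611)))))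
noncomputable def b173 : BT := .node (nat_lit 0x2b) (nat_lit 0xdb36d992f8a849394b236cdb66963000cb60012ade004e974013a5a006ea6001ab180ea136d097c93849c12f800c9da0028b8c0132d9000cb642db24b225912c8db34b1800753200158c800753000196c05b664be274950c9d4513000ca78002b19000e87c0032d80a7492fc9d296349ca5909d293925f8037534009d4c000753200996c803753000994f8750c97c5146d9a58c97c93825f92f800ba5d002e9640132d8002aa8c00ba99000cb6039636d9a59127093925f258c9d454227492fc97c001d4c00065b2001d4d00055bc001d1000056ae001d2f80065b024e949ca4e09d293925f15092724e94b1b6cc9d400212c80165b0005d4c801653c0060ef001563400a12c801463e24b1a591270db325f12fdb6693825f36cdb684be6d9a5909d4009d4c801653a001d4c00155be00996c000653c009d4d00245c600196c80055be2ed992f897edb34b224e52c696328a258c97e5426da13a5270005d4c00245c800596c800653c00dd4c00365b200dcf280356ae00996c00255ba2d426da24e000421a000ca74196325e9450003a5c000cb64101018010180101801018010180101800f0200f0200f0200f0200f0200f0200f0200e4800e4800e4800e4800e4800d8d00cd200cd200bbd00bbd00bbd00bbd00bbd00bbd00bbd00bbd00bbd00bbd00bbd00bbd00aa800937007c7005fb0042f003d00037000370003700037000370)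 .leaf .leaf
def t172 : k172.all (jb2 57 fl b173) = true := by decide +kernel
noncomputable def k173 : KT := (.br (Nat.shiftLeft (nat_lit 0x2000003) (nat_lit 112)) (.br (Nat.shiftLeft (nat_lit 0x1) (nat_lit 137)) (.one (nat_lit 0x100200300400500b010600802a456820870)) (.br (Nat.shiftLeft (nat_lit 0x1000001) (nat_lit 113)) (.one (nat_lit 0x200000100400500b010200804a816020611)) (.one (nat_lit 0x200000200400500b010400804a816020611)))) (.br (Nat.shiftLeft (nat_lit 0x1800001) (nat_lit 113)) (.br (Nat.shiftLeft (nat_lit 0x3) (nat_lit 136)) (.one (nat_lit 0x200000300400500b010600804a816020611)) (.one (nat_lit 0x300000100400500b010200806ac16020611))) (.br (Nat.shiftLeft (nat_lit 0x3000003) (nat_lit 112)) (.one (nat_lit 0x300000200400500b010400806ac16020611)) (.one (nat_lit 0x300000300400500b010600806ac16020611)))))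
def t173 : k173.all (jb2 57 fl b0) = true := by decide +kernel
noncomputable def k174 : KT := (.br (Nat.shiftLeft (nat_lit 0x4000003) (nat_lit 112)) (.br (Nat.shiftLeft (nat_lit 0x2000001) (nat_lit 113)) (.one (nat_lit 0x400000100400500b010200808b016020611)) (.one (nat_lit 0x400000200400500b010400808b016020611))) (.br (Nat.shiftLeft (nat_lit 0x5) (nat_lit 136)) (.one (nat_lit 0x400000300400500b010600808b016020611)) (.one (nat_lit 0x500000100400500b01020080ab416020611))))
def t174 : k174.all (jb2 57 fl b0) = true := by decide +kernel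
noncomputable def k175 : KT := (.br (Nat.shiftLeft (nat_lit 0x5000003) (nat_lit 112)) (.one (nat_lit 0x500000200400500b01040080ab416020611)) (.one (nat_lit 0x500000300400500b01060080ab416020611)))
def t175 : k175.all (jb2 57 fl b0) = true := by decide +kernel
noncomputable def k176 : KT := (.one (nat_lit 0x600000100400500b01020080cb816020611))
noncomputable def b177 : BT := .node (nat_lit 0x1) (nat_lit 0x48c5b689354c8b7892c6de249a93a800b2d8000ca6400ba98004ca6400b25b002ac7030013f00028) .leaf .leaf
def t176 : k176.all (jb2 57 fl b177) = true := by decide +kernel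
noncomputable def k177 : KT := (.one (nat_lit 0x600000200400500b01040080cb816020611))
noncomputable def b178 : BT := .node (nat_lit 0x1) (nat_lit 0xdb349b12fc00329a000ab8410008800028) .leaf .leaf
def t177 : k177.all (jb2 57 fl b178) = true := by decide +kernel
noncomputable def k178 : KT := (.one (nat_lit 0x600000300400500b01060080cb816020611))
def t178 : k178.all (jb2 57 fl b0) = true := by decide +kernel
noncomputable def k179 : KT := (.one (nat_lit 0x700000100400500b01020080ebc16020611))
noncomputable def b180 : BT := .node (nat_lit 0xb) (nat_lit 0x9356d9a4d8003a98000cb601db325f13a8003a980008c78193649b93a8003a99000ac6c196425fa4d80032a0000ca6810027000270002700021000210001b0001b0001b00015000150000f0000f0) .leaf .leaf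
def t179 : k179.all (jb2 57 fl b180) = true := by decide +kernel
noncomputable def k180 : KT := (.one (nat_lit 0x700000200400500b01040080ebc16020611))
noncomputable def b181 : BT := .node (nat_lit 0x17) (nat_lit 0x1b645432a195c526e4e96d936cc97e00198b80056ae0020ce800563600196c00055481cc8a4d92c8001d2d00065340ed993a92c800194f00056320cb1950c97e00196c00064c60ce925e93a4003a5c000cb6c1de128aa58c003318000ab641004d5004d5004d5004d5003bf003bf0035f0035f002ff002ff0029f0029f0029f00240002400024000240001e0001e0001e0001e0001e0001e0001e0) .leaf .leaf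
def t180 : k180.all (jb2 57 fl b181) = true := by decide +kernel
noncomputable def k181 : KT := (.one (nat_lit 0x700000300400500b01060080ebc16020611))
def t181 : k181.all (jb2 57 fl b0) = true := by decide +kernel
noncomputable def k182 : KT := (.one (nat_lit 0x800000100400500b010200810c016020611))
noncomputable def b183 : BT := .node (nat_lit 0x17) (nat_lit 0x918b6cca872316d992fd26c4bb25f80065320011cc00055b200155200065b20019500726e4be25f26452704e9000ea60002ae0000e878002b1a0a4dd26e4ea6d992f49d693625d92fdb664eb28ab6cca2a963002ea6000ab1b002e97000a320000cb6400b2a0002e97400a35a004cb6400ab18164d89d24ea000ea60002b1c076cd26e9376d993a8a86de16da12fc003a99000ab6c003a1f0008e5c00329a000aa8c3db2275a58c00329f000ac6019d04be25f0007530001d4c032c84ea49b950d26e4bb4b193a49d523149bb6d000b2db002ca6c00c1dc004cb6000ba98002ab7c0032d8002ab68400924009240080d0080d0075200752005860058600526004100041000410004100041000410003b0003b0003b000351001e0001e0001e0001e0001e0) .leaf .leaf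
def t182 : k182.all (jb2 57 fl b183) = true := by decide +kernel
noncomputable def k183 : KT := (.br (Nat.shiftLeft (nat_lit 0x8000003) (nat_lit 112)) (.one (nat_lit 0x800000200400500b010400810c016020611)) (.one (nat_lit 0x800000300400500b010600810c016020611)))
noncomputable def b184 : BT := .node (nat_lit 0x1d) (nat_lit 0x49b24d897e00196c80065400c9b12ec97c93649b93a40032d9000ca80003a99000ac6c29d04be25f36c9b664bf4c8b6cd26e99149c12f800ba98002ea6000b2d8000aa90003a59002ca70013a1e004ab7c493627515c926c4bf25f24e097a4e9000e780002bd5000ea68002adf000e970002b1a0e58ca2a57249b13aca86de149c145526c93727480174b20015cb001743e0095cb001843400518d80265b400196d092316d9a4dc003299000ab70193649c13a5bc24bd275b6c927099249b12f89d24bb25f92f8013a9b004ac6800ba5c0028b8400ba1d000ad5c003a5e002ac6c00ba99002cb6850099700997009970099700997009970099700997009370087c0087c0087c0070c005f6005f6005f6005f600485004850042400424004240025800258002580025800258002580025800258) .leaf .leaf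
def t183 : k183.all (jb2 57 fl b184) = true := by decide +kernel
noncomputable def k184 : KT := (.one (nat_lit 0x900000100400500b010200812c416020611))
noncomputable def b185 : BT := .node (nat_lit 0x2b) (nat_lit 0x24dd2704be4b192fca8696325f93a9b664bf4b1a58d2704e9004cb680132d9002e78c00ab58000ea6400aade002c98c00ab18002e970002b1a176c89d24e8000cb60002b1907785b665154c8a4e4978db225f1454003299000ad60003a1f000ab78003a5d0008d68396349ba591b685134b180074b600196d00065b000158c0526e4c0274800753600158c83bc25154b1b6c897a514000cc60002ad9000e970002b190a4e126e4be004cb640032d9064dd26e4bf000cb600032a0064dc9d44e949b93a897c001d4d000563200196d000653c14b192f927000194f000653a0ed9a5912c6db26d993a4003a99000ac600032d9000ac642db349c12f80032d9000ab78100b7e00b7e009b2009b20095200952009520083c0083c0083c0078100781007210072100721007210066600606005a6005a6005a6005a6004eb0048b0048b0048b003d00037000370003700037000370003700037000370003700037000370003700037000370003700037000370) .leaf .leaf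
def t184 : k184.all (jb2 57 fl b185) = true := by decide +kernel
noncomputable def k185 : KT := (.br (Nat.shiftLeft (nat_lit 0x9000003) (nat_lit 112)) (.one (nat_lit 0x900000200400500b010400812c416020611)) (.one (nat_lit 0x900000300400500b010600812c416020611)))
noncomputable def b186 : BT := .node (nat_lit 0xb) (nat_lit 0x2588a889636d913a49d44bb49b92fdbc25724b1801663000594c800753000518f802753000596d80166ac00556c893a497c4be49b24e0a87231275a648003a98000ca7c0041dc000ae5c0032600008d60396325e9450003a5c000cb641003d6003d6003d6003d6003d6003d6003d600265002650015000150000f0) .leaf .leaf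
def t185 : k185.all (jb2 57 fl b186) = true := by decide +kernel
noncomputable def k186 : KT := (.br (Nat.shiftLeft (nat_lit 0x5000001) (nat_lit 113)) (.one (nat_lit 0xa00000100400500b010200814c816020611)) (.br (Nat.shiftLeft (nat_lit 0xa000003) (nat_lit 112)) (.one (nat_lit 0xa00000200400500b010400814c816020611)) (.one (nat_lit 0xa00000300400500b010600814c816020611))))
noncomputable def b187 : BT := .node (nat_lit 0xb) (nat_lit 0x1b64db42a100084340015ab83b664bf25f000753200117183b6493827536c897c4bf000ea60002adf000cb64002aa40a74a4e497cdb24b21451b6693825f24e12704be004ea6800b29d004ea6001ab1a006ca74012ade006ea600032d9124dc9d24be000cb6800329f076cc97c4ea27412f897edb327493a800329e000ac68003a5e000cb680032d8000ab7c300551004f1004f10049100491003d6003d600266002660026600206000f0) .leaf .leaf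
def t186 : k186.all (jb2 57 fl b187) = true := by decide +kernel
noncomputable def k187 : KT := (.br (Nat.shiftLeft (nat_lit 0x2000001003) (nat_lit 112)) (.br (Nat.shiftLeft (nat_lit 0x1) (nat_lit 148)) (.br (Nat.shiftLeft (nat_lit 0x5800001) (nat_lit 113)) (.one (nat_lit 0xb00000100400500b010200816cc16020611)) (.br (Nat.shiftLeft (nat_lit 0xb000003) (nat_lit 112)) (.one (nat_lit 0xb00000200400500b010400816cc16020611)) (.one (nat_lit 0xb00000300400500b010600816cc16020611)))) (.br (Nat.shiftLeft (nat_lit 0x800001) (nat_lit 125)) (.br (Nat.shiftLeft (nat_lit 0x1000001003) (nat_lit 112)) (.one (nat_lit 0x100000100200400500b010402840a036420711)) (.one (nat_lit 0x100000100300400500b010602840a036420711))) (.br (Nat.shiftLeft (nat_lit 0x1) (nat_lit 149)) (.one (nat_lit 0x100000200300400500b010602840a056820711)) (.one (nat_lit 0x200000100200400500b010404880a036420711))))) (.br (Nat.shiftLeft (nat_lit 0x3000001003) (nat_lit 112)) (.br (Nat.shiftLeft (nat_lit 0x1000001) (nat_lit 125)) (.one (nat_lit 0x200000100300400500b010604880a036420711)) (.br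 (Nat.shiftLeft (nat_lit 0x3) (nat_lit 148)) (.one (nat_lit 0x200000200300400500b010604880a056820711)) (.one (nat_lit 0x300000100200400500b0104068c0a036420711)))) (.br (Nat.shiftLeft (nat_lit 0x1) (nat_lit 150)) (.br (Nat.shiftLeft (nat_lit 0x1800001) (nat_lit 125)) (.one (nat_lit 0x300000100300400500b0106068c0a036420711)) (.one (nat_lit 0x300000200300400500b0106068c0a056820711))) (.br (Nat.shiftLeft (nat_lit 0x4000001003) (nat_lit 112)) (.one (nat_lit 0x400000100200400500b010408900a036420711)) (.one (nat_lit 0x400000100300400500b010608900a036420711))))))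
def t187 : k187.all (jb2 57 fl b0) = true := by decide +kernel
noncomputable def k188 : KT := (.br (Nat.shiftLeft (nat_lit 0x5) (nat_lit 148)) (.one (nat_lit 0x400000200300400500b010608900a056820711)) (.br (Nat.shiftLeft (nat_lit 0x5000001003) (nat_lit 112)) (.one (nat_lit 0x500000100200400500b01040a940a036420711)) (.one (nat_lit 0x500000100300400500b01060a940a036420711))))
noncomputable def b189 : BT := .node (nat_lit 0x1d) (nat_lit 0x1bc24eb4c900064c000158c03bc25444b2000662e00156d0323149aa7052c64bf2a200073b60011cb80073c60015ac0523125f95100039e30006e68100435004350043500435003d5003d5003d500375003750037500375003750037500375003750037500375003750037500375002b9002b9002b9002b9002b9002b9002b9002580025800258) .leaf .leaf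
def t188 : k188.all (jb2 57 fl b189) = true := by decide +kernel
noncomputable def k189 : KT := (.br (Nat.shiftLeft (nat_lit 0x3) (nat_lit 149)) (.one (nat_lit 0x500000200300400500b01060a940a056820711)) (.one (nat_lit 0x600000100200400500b01040c980a036420711)))
noncomputable def b190 : BT := .node (nat_lit 0x1) (nat_lit 0x6d924d938323149ab6cc0039dc000ae5800329a000ab642000e300028) .leaf .leaf
def t189 : k189.all (jb2 57 fl b190) = true := by decide +kernel
noncomputable def k190 : KT := (.br (Nat.shiftLeft (nat_lit 0x3000001) (nat_lit 125)) (.one (nat_lit 0x600000100300400500b01060c980a036420711)) (.one (nat_lit 0x600000200300400500b01060c980a056820711)))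
def t190 : k190.all (jb2 57 fl b0) = true := by decide +kernel
noncomputable def k191 : KT := (.br (Nat.shiftLeft (nat_lit 0x7000001003) (nat_lit 112)) (.one (nat_lit 0x700000100200400500b01040e9c0a036420711)) (.one (nat_lit 0x700000100300400500b01060e9c0a036420711)))
noncomputable def b192 : BT := .node (nat_lit 0x2f) (nat_lit 0x24d926c4e96d915c92c6de1275a704003a99000ac6c003356000ac60003221000ad5c393627524d9bc2db327524d897e4be000cb700032d8000ca64002adf000ea64002ae00e4d49d2937000cb6c0032da06462db3275000653200118f832312a1b6cc002b58000ab6410070e0070e0070e0070e0070e0070e0070e005f8005f8005f8005f8005f8005f8005f8005f8005f8005f8005f8005f8005f8005f8005f8005f8004e2004e2004e2004e2004e2004e2004e2004e2004e2004e2004e2004e200482004210042100421003c0003c0003c0003c0003c0003c0003c0003c0003c0) .leaf .leaf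
def t191 : k191.all (jb2 57 fl b192) = true := by decide +kernel
noncomputable def k192 : KT := (.br (Nat.shiftLeft (nat_lit 0x1) (nat_lit 151)) (.one (nat_lit 0x700000200300400500b01060e9c0a056820711)) (.br (Nat.shiftLeft (nat_lit 0x8000001003) (nat_lit 112)) (.one (nat_lit 0x800000100200400500b010410a00a036420711)) (.one (nat_lit 0x800000100300400500b010610a00a036420711))))
noncomputable def b193 : BT := .node (nat_lit 0x13) (nat_lit 0x49b24dc9d200196d80065b40c9b1300b4323149ba58c003966000b05000329c000ab642a2a93825f36cc97c9370010868002adf000cb68002adc0a4dc97c4be49b13a49d2001d4c00155c0009d4c001563816d924dc97cde149c15c926c4bf27492ec97c4e927412f89d200994e00255c000a0ce802473000d96e00365b0009d4c00265b6009d2f00065b42ef0a4dd2c7231274a4e000329c000ca640032da0008b782006a7006a7006a700647006470058c0058c0058c0058c004d2004d2004170041700417004170024b00190001900019000190) .leaf .leaf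
def t192 : k192.all (jb2 57 fl b193) = true := by decide +kernel
noncomputable def k193 : KT := (.br (Nat.shiftLeft (nat_lit 0x9000001003) (nat_lit 112)) (.br (Nat.shiftLeft (nat_lit 0x9) (nat_lit 148)) (.one (nat_lit 0x800000200300400500b010610a00a056820711)) (.one (nat_lit 0x900000100200400500b010412a40a036420711))) (.br (Nat.shiftLeft (nat_lit 0x4800001) (nat_lit 125)) (.one (nat_lit 0x900000100300400500b010612a40a036420711)) (.br (Nat.shiftLeft (nat_lit 0x5) (nat_lit 149)) (.one (nat_lit 0x900000200300400500b010612a40a056820711)) (.one (nat_lit 0xa00000100200400500b010414a80a036420711)))))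
noncomputable def b194 : BT := .node (nat_lit 0x11) (nat_lit 0x48c5b664bf49ba4dc97e00194c80045c8001d4c00055c214c8a58c97adb225ea4e4003a59000ab7c00329e000ab782002df002df002df002df002df002df002df002df002df002230022300168001680016800168001680016800168) .leaf .leaf
def t193 : k193.all (jb2 57 fl b194) = true := by decide +kernel
noncomputable def k194 : KT := (.br (Nat.shiftLeft (nat_lit 0xb) (nat_lit 148)) (.br (Nat.shiftLeft (nat_lit 0x5000001) (nat_lit 125)) (.one (nat_lit 0xa00000100300400500b010614a80a036420711)) (.one (nat_lit 0xa00000200300400500b010614a80a056820711))) (.br (Nat.shiftLeft (nat_lit 0xb000001003) (nat_lit 112)) (.one (nat_lit 0xb00000100200400500b010416ac0a036420711)) (.br (Nat.shiftLeft (nat_lit 0x5800001) (nat_lit 125)) (.one (nat_lit 0xb00000100300400500b010616ac0a036420711)) (.one (nat_lit 0xb00000200300400500b010616ac0a056820711)))))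
def t194 : k194.all (jb2 57 fl b0) = true := by decide +kernel
noncomputable def s10 : KT := (.br (nat_lit 0x700000200400500b01040080ebc16020611) (.br (nat_lit 0x300000300400500b010600806ac16020611) (.br (nat_lit 0x800000400500b010000800a118020511) (.br (nat_lit 0x600000400500b010000800a0d7820511) k168 (.br (nat_lit 0x700000400500b010000800a0f7c20511) k169 k170)) (.br (nat_lit 0x900000400500b010000800a138420511) k171 (.br (nat_lit 0x100000300400500b010600802a416020611) k172 k173))) (.br (nat_lit 0x600000100400500b01020080cb816020611) (.br (nat_lit 0x500000100400500b01020080ab416020611) k174 (.br (nat_lit 0x500000300400500b01060080ab416020611) k175 k176)) (.br (nat_lit 0x600000300400500b01060080cb816020611) (.br (nat_lit 0x600000200400500b01040080cb816020611) k177 k178) (.br (nat_lit 0x700000100400500b01020080ebc16020611) k179 k180)))) (.br (nat_lit 0x400000100300400500b010608900a036420711) (.br (nat_lit 0x800000300400500b010600810c016020611) (.br (nat_lit 0x700000300400500b01060080ebc16020611) k181 (.br (nat_lit 0x800000100400500b010200810c016020611)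 k182 k183)) (.br (nat_lit 0x900000300400500b010600812c416020611) (.br (nat_lit 0x900000100400500b010200812c416020611) k184 k185) (.br (nat_lit 0xa00000300400500b010600814c816020611) k186 k187))) (.br (nat_lit 0x600000200300400500b01060c980a056820711) (.br (nat_lit 0x500000100300400500b01060a940a036420711) k188 (.br (nat_lit 0x600000100200400500b01040c980a036420711) k189 k190)) (.br (nat_lit 0x800000100300400500b010610a00a036420711) (.br (nat_lit 0x700000100300400500b01060e9c0a036420711) k191 k192) (.br (nat_lit 0xa00000100200400500b010414a80a036420711) k193 k194)))))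
noncomputable def u10 : KT := (.one (nat_lit 0x400500b010000800a016020540))
def w10 : u10.all (wj 57 s10) = true := by decide +kernel
def o10 : OkW 57 (jb2 57 fl) u10 := .lift s10 _ (.br _ _ _ (.br _ _ _ (.br _ _ _ (.br _ _ _ (.leaf b169 k168 t168) (.br _ _ _ (.leaf b170 k169 t169) (.leaf b171 k170 t170))) (.br _ _ _ (.leaf b172 k171 t171) (.br _ _ _ (.leaf b173 k172 t172) (.leaf b0 k173 t173)))) (.br _ _ _ (.br _ _ _ (.leaf b0 k174 t174) (.br _ _ _ (.leaf b0 k175 t175) (.leaf b177 k176 t176))) (.br _ _ _ (.br _ _ _ (.leaf b178 k177 t177) (.leaf b0 k178 t178)) (.br _ _ _ (.leaf b180 k179 t179) (.leaf b181 k180 t180))))) (.br _ _ _ (.br _ _ _ (.br _ _ _ (.leaf b0 k181 t181) (.br _ _ _ (.leaf b183 k182 t182) (.leaf b184 k183 t183))) (.br _ _ _ (.br _ _ _ (.leaf b185 k184 t184) (.leaf b186 k185 t185)) (.br _ _ _ (.leaf b187 k186 t186) (.leaf b0 k187 t187)))) (.br _ _ _ (.br _ _ _ (.leaf b189 k188 t188) (.br _ _ _ (.leaf b190 k189 t189) (.leaf b0 k190 t190))) (.br _ _ _ (.br _ _ _ (.leaf b192 k191 t191) (.leaf b193 k192 t192)) (.br _ _ _ (.leaf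 b194 k193 t193) (.leaf b0 k194 t194)))))) w10
noncomputable def k195 : KT := (.br (Nat.shiftLeft (nat_lit 0x1003) (nat_lit 112)) (.br (Nat.shiftLeft (nat_lit 0x3) (nat_lit 112)) (.br (Nat.shiftLeft (nat_lit 0x1) (nat_lit 112)) (.one (nat_lit 0x400500b011000800a016023500)) (.br (Nat.shiftLeft (nat_lit 0x1) (nat_lit 113)) (.one (nat_lit 0x100400500b011200800a016023600)) (.one (nat_lit 0x200400500b011400800a016023600)))) (.br (Nat.shiftLeft (nat_lit 0x1) (nat_lit 124)) (.one (nat_lit 0x300400500b011600800a016023600)) (.br (Nat.shiftLeft (nat_lit 0x801) (nat_lit 113)) (.one (nat_lit 0x100000400500b011000800a036422511)) (.one (nat_lit 0x100200400500b011400800a036423700))))) (.br (Nat.shiftLeft (nat_lit 0x3) (nat_lit 124)) (.br (Nat.shiftLeft (nat_lit 0x1) (nat_lit 125)) (.one (nat_lit 0x100300400500b011600800a036423700)) (.br (Nat.shiftLeft (nat_lit 0x1001) (nat_lit 113)) (.one (nat_lit 0x200000400500b011000800a056822511)) (.one (nat_lit 0x200300400500b011600800a056823700)))) (.br (Nat.shiftLeft (nat_lit 0x5) (nat_lit 124)) (.br (Nat.shiftLeft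 (nat_lit 0x1) (nat_lit 126)) (.one (nat_lit 0x300000400500b011000800a076c22511)) (.one (nat_lit 0x400000400500b011000800a097022511))) (.br (Nat.shiftLeft (nat_lit 0x3) (nat_lit 125)) (.one (nat_lit 0x500000400500b011000800a0b7422511)) (.one (nat_lit 0x600000400500b011000800a0d7822511))))))
noncomputable def b196 : BT := .node (nat_lit 0x1) (nat_lit 0x9922a1a58c003317000ca6410008800028) .leaf .leaf
def t195 : k195.all (jb2 57 fl b196) = true := by decide +kernel
noncomputable def k196 : KT := (.br (Nat.shiftLeft (nat_lit 0x1) (nat_lit 127)) (.one (nat_lit 0x700000400500b011000800a0f7c22511)) (.one (nat_lit 0x800000400500b011000800a118022511)))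
noncomputable def b197 : BT := .node (nat_lit 0x1) (nat_lit 0x4e925f92f8003a98000cb6810008700028) .leaf .leaf
def t196 : k196.all (jb2 57 fl b197) = true := by decide +kernel
noncomputable def k197 : KT := (.br (Nat.shiftLeft (nat_lit 0x1) (nat_lit 136)) (.br (Nat.shiftLeft (nat_lit 0x5) (nat_lit 125)) (.one (nat_lit 0x900000400500b011000800a138422511)) (.br (Nat.shiftLeft (nat_lit 0xb) (nat_lit 124)) (.one (nat_lit 0xa00000400500b011000800a158822511)) (.one (nat_lit 0xb00000400500b011000800a178c22511)))) (.br (Nat.shiftLeft (nat_lit 0x800001) (nat_lit 113)) (.one (nat_lit 0x100000100400500b011200802a416022611)) (.br (Nat.shiftLeft (nat_lit 0x1000003) (nat_lit 112)) (.one (nat_lit 0x100000200400500b011400802a416022611)) (.one (nat_lit 0x100000300400500b011600802a416022611)))))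
noncomputable def b198 : BT := .node (nat_lit 0x17) (nat_lit 0x49c130127000196d80065b00c9ba4e09d2001d4c80056340cc8a4e497e001d0f80055be0ed993a926edb325fa5900032da000ab70003264000ac642db349c24e0a8693825f36cc9d45436d936cc9d400196c00065b00060ee80165b0009d0f802473000596c80055be26d993a92c693826012f92c8db4274b6d09d2938004ca80012b18000cb6c00b2d8003096400a31d002cb64002add124e12724ea27412f8982db249ca59000ba98000cb6c013a5d004cb70003a5e002ac68396225f13ac003a5d000ab84196428a1509b645154b180074b20015ab80065b400158c05b684bf49c000653e00156e0327093925fa4e497e4be4b1a4e1270db26da150800b2da000cb64003a98002ab7800ba5d002cb640149da0048e5c400a9f00a9f00a9f00a3f009df0097f0097f008c400753005e2005e2005e2004cc004cc004cc004cc0046c003b1003510035100351001e0001e0001e0) .leaf .leaf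
def t197 : k197.all (jb2 57 fl b198) = true := by decide +kernel
noncomputable def k198 : KT := (.br (Nat.shiftLeft (nat_lit 0x3) (nat_lit 136)) (.br (Nat.shiftLeft (nat_lit 0x1000001) (nat_lit 113)) (.br (Nat.shiftLeft (nat_lit 0x1) (nat_lit 137)) (.one (nat_lit 0x100200300400500b011600802a456822870)) (.one (nat_lit 0x200000100400500b011200804a816022611))) (.br (Nat.shiftLeft (nat_lit 0x2000003) (nat_lit 112)) (.one (nat_lit 0x200000200400500b011400804a816022611)) (.one (nat_lit 0x200000300400500b011600804a816022611)))) (.br (Nat.shiftLeft (nat_lit 0x3000003) (nat_lit 112)) (.br (Nat.shiftLeft (nat_lit 0x1800001) (nat_lit 113)) (.one (nat_lit 0x300000100400500b011200806ac16022611)) (.one (nat_lit 0x300000200400500b011400806ac16022611))) (.br (Nat.shiftLeft (nat_lit 0x1) (nat_lit 138)) (.one (nat_lit 0x300000300400500b011600806ac16022611)) (.br (Nat.shiftLeft (nat_lit 0x2000001) (nat_lit 113)) (.one (nat_lit 0x400000100400500b011200808b016022611)) (.one (nat_lit 0x400000200400500b011400808b016022611))))))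
def t198 : k198.all (jb2 57 fl b0) = true := by decide +kernel
noncomputable def k199 : KT := (.br (Nat.shiftLeft (nat_lit 0x5) (nat_lit 136)) (.one (nat_lit 0x400000300400500b011600808b016022611)) (.br (Nat.shiftLeft (nat_lit 0x2800001) (nat_lit 113)) (.one (nat_lit 0x500000100400500b01120080ab416022611)) (.one (nat_lit 0x500000200400500b01140080ab416022611))))
def t199 : k199.all (jb2 57 fl b0) = true := by decide +kernel
noncomputable def k200 : KT := (.br (Nat.shiftLeft (nat_lit 0x3) (nat_lit 137)) (.one (nat_lit 0x500000300400500b01160080ab416022611)) (.one (nat_lit 0x600000100400500b01120080cb816022611)))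
def t200 : k200.all (jb2 57 fl b0) = true := by decide +kernel
noncomputable def k201 : KT := (.br (Nat.shiftLeft (nat_lit 0x6000003) (nat_lit 112)) (.one (nat_lit 0x600000200400500b01140080cb816022611)) (.one (nat_lit 0x600000300400500b01160080cb816022611)))
def t201 : k201.all (jb2 57 fl b0) = true := by decide +kernel
noncomputable def k202 : KT := (.br (Nat.shiftLeft (nat_lit 0x3800001) (nat_lit 113)) (.one (nat_lit 0x700000100400500b01120080ebc16022611)) (.one (nat_lit 0x700000200400500b01140080ebc16022611)))
def t202 : k202.all (jb2 57 fl b0) = true := by decide +kernel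
noncomputable def k203 : KT := (.br (Nat.shiftLeft (nat_lit 0x1) (nat_lit 139)) (.one (nat_lit 0x700000300400500b01160080ebc16022611)) (.one (nat_lit 0x800000100400500b011200810c016022611)))
noncomputable def b204 : BT := .node (nat_lit 0x1) (nat_lit 0x4b1930126e9636da24dc0032a1000ca70004259000ab6c2000e300028) .leaf .leaf
def t203 : k203.all (jb2 57 fl b204) = true := by decide +kernel
noncomputable def k204 : KT := (.br (Nat.shiftLeft (nat_lit 0x8000003) (nat_lit 112)) (.one (nat_lit 0x800000200400500b011400810c016022611)) (.br (Nat.shiftLeft (nat_lit 0x9) (nat_lit 136)) (.one (nat_lit 0x800000300400500b011600810c016022611)) (.one (nat_lit 0x900000100400500b011200812c416022611))))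
noncomputable def b205 : BT := .node (nat_lit 0x17) (nat_lit 0x49b12fc9d493626012fc003a98000ac70003a9b000ab802db26d99300003a990008b941db22a226480032d9000ad5c10035b0035b0035b0035b002a0002a0002a0002a0002a0002a0002a0002a0002a0002a0002a0002a0002a0002400024000240002400024000240001e0) .leaf .leaf
def t204 : k204.all (jb2 57 fl b205) = true := by decide +kernel
noncomputable def k205 : KT := (.br (Nat.shiftLeft (nat_lit 0x5) (nat_lit 137)) (.br (Nat.shiftLeft (nat_lit 0x9000003) (nat_lit 112)) (.one (nat_lit 0x900000200400500b011400812c416022611)) (.one (nat_lit 0x900000300400500b011600812c416022611))) (.br (Nat.shiftLeft (nat_lit 0x5000001) (nat_lit 113)) (.one (nat_lit 0xa00000100400500b011200814c816022611)) (.one (nat_lit 0xa00000200400500b011400814c816022611))))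
noncomputable def b206 : BT := .node (nat_lit 0xb) (nat_lit 0x4b212f89d2001d2e80065b00ce949c12f8003a99000cb601001af001af001af001af0014f0014f0014f0014f0014f0014f0014f000f0) .leaf .leaf
def t205 : k205.all (jb2 57 fl b206) = true := by decide +kernel
noncomputable def k206 : KT := (.br (Nat.shiftLeft (nat_lit 0x2000001003) (nat_lit 112)) (.br (Nat.shiftLeft (nat_lit 0x1) (nat_lit 148)) (.br (Nat.shiftLeft (nat_lit 0x5800001) (nat_lit 113)) (.br (Nat.shiftLeft (nat_lit 0xb) (nat_lit 136)) (.one (nat_lit 0xa00000300400500b011600814c816022611)) (.one (nat_lit 0xb00000100400500b011200816cc16022611))) (.br (Nat.shiftLeft (nat_lit 0xb000003) (nat_lit 112)) (.one (nat_lit 0xb00000200400500b011400816cc16022611)) (.one (nat_lit 0xb00000300400500b011600816cc16022611)))) (.br (Nat.shiftLeft (nat_lit 0x800001) (nat_lit 125)) (.br (Nat.shiftLeft (nat_lit 0x1000001003) (nat_lit 112)) (.one (nat_lit 0x100000100200400500b011402840a036422711)) (.one (nat_lit 0x100000100300400500b011602840a036422711))) (.br (Nat.shiftLeft (nat_lit 0x1) (nat_lit 149)) (.one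 (nat_lit 0x100000200300400500b011602840a056822711)) (.one (nat_lit 0x200000100200400500b011404880a036422711))))) (.br (Nat.shiftLeft (nat_lit 0x1800001) (nat_lit 125)) (.br (Nat.shiftLeft (nat_lit 0x3) (nat_lit 148)) (.br (Nat.shiftLeft (nat_lit 0x1000001) (nat_lit 125)) (.one (nat_lit 0x200000100300400500b011604880a036422711)) (.one (nat_lit 0x200000200300400500b011604880a056822711))) (.br (Nat.shiftLeft (nat_lit 0x3000001003) (nat_lit 112)) (.one (nat_lit 0x300000100200400500b0114068c0a036422711)) (.one (nat_lit 0x300000100300400500b0116068c0a036422711)))) (.br (Nat.shiftLeft (nat_lit 0x4000001003) (nat_lit 112)) (.br (Nat.shiftLeft (nat_lit 0x1) (nat_lit 150)) (.one (nat_lit 0x300000200300400500b0116068c0a056822711)) (.one (nat_lit 0x400000100200400500b011408900a036422711))) (.br (Nat.shiftLeft (nat_lit 0x2000001) (nat_lit 125)) (.one (nat_lit 0x400000100300400500b011608900a036422711)) (.one (nat_lit 0x400000200300400500b011608900a056822711))))))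
def t206 : k206.all (jb2 57 fl b0) = true := by decide +kernel
noncomputable def k207 : KT := (.br (Nat.shiftLeft (nat_lit 0x5000001003) (nat_lit 112)) (.one (nat_lit 0x500000100200400500b01140a940a036422711)) (.br (Nat.shiftLeft (nat_lit 0x2800001) (nat_lit 125)) (.one (nat_lit 0x500000100300400500b01160a940a036422711)) (.one (nat_lit 0x500000200300400500b01160a940a056822711))))
def t207 : k207.all (jb2 57 fl b0) = true := by decide +kernel
noncomputable def k208 : KT := (.br (Nat.shiftLeft (nat_lit 0x6000001003) (nat_lit 112)) (.one (nat_lit 0x600000100200400500b01140c980a036422711)) (.br (Nat.shiftLeft (nat_lit 0x3000001) (nat_lit 125)) (.one (nat_lit 0x600000100300400500b01160c980a036422711)) (.one (nat_lit 0x600000200300400500b01160c980a056822711))))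
def t208 : k208.all (jb2 57 fl b0) = true := by decide +kernel
noncomputable def k209 : KT := (.br (Nat.shiftLeft (nat_lit 0x3800001) (nat_lit 125)) (.br (Nat.shiftLeft (nat_lit 0x7000001003) (nat_lit 112)) (.one (nat_lit 0x700000100200400500b01140e9c0a036422711)) (.one (nat_lit 0x700000100300400500b01160e9c0a036422711))) (.br (Nat.shiftLeft (nat_lit 0x1) (nat_lit 151)) (.one (nat_lit 0x700000200300400500b01160e9c0a056822711)) (.one (nat_lit 0x800000100200400500b011410a00a036422711))))
noncomputable def b210 : BT := .node (nat_lit 0x1) (nat_lit 0x936260150c0039e4000ae5810008800028) .leaf .leaf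
def t209 : k209.all (jb2 57 fl b210) = true := by decide +kernel
noncomputable def k210 : KT := (.br (Nat.shiftLeft (nat_lit 0x4800001) (nat_lit 125)) (.br (Nat.shiftLeft (nat_lit 0x9) (nat_lit 148)) (.br (Nat.shiftLeft (nat_lit 0x4000001) (nat_lit 125)) (.one (nat_lit 0x800000100300400500b011610a00a036422711)) (.one (nat_lit 0x800000200300400500b011610a00a056822711))) (.br (Nat.shiftLeft (nat_lit 0x9000001003) (nat_lit 112)) (.one (nat_lit 0x900000100200400500b011412a40a036422711)) (.one (nat_lit 0x900000100300400500b011612a40a036422711)))) (.br (Nat.shiftLeft (nat_lit 0xa000001003) (nat_lit 112)) (.br (Nat.shiftLeft (nat_lit 0x5) (nat_lit 149)) (.one (nat_lit 0x900000200300400500b011612a40a056822711)) (.one (nat_lit 0xa00000100200400500b011414a80a036422711))) (.br (Nat.shiftLeft (nat_lit 0x5000001) (nat_lit 125)) (.one (nat_lit 0xa00000100300400500b011614a80a036422711)) (.one (nat_lit 0xa00000200300400500b011614a80a056822711)))))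
def t210 : k210.all (jb2 57 fl b0) = true := by decide +kernel
noncomputable def k211 : KT := (.br (Nat.shiftLeft (nat_lit 0xb000001003) (nat_lit 112)) (.one (nat_lit 0xb00000100200400500b011416ac0a036422711)) (.br (Nat.shiftLeft (nat_lit 0x5800001) (nat_lit 125)) (.one (nat_lit 0xb00000100300400500b011616ac0a036422711)) (.one (nat_lit 0xb00000200300400500b011616ac0a056822711))))
def t211 : k211.all (jb2 57 fl b0) = true := by decide +kernel
noncomputable def s11 : KT := (.br (nat_lit 0x700000200400500b01140080ebc16022611) (.br (nat_lit 0x400000200400500b011400808b016022611) (.br (nat_lit 0x800000400500b011000800a118022511) (.br (nat_lit 0x600000400500b011000800a0d7822511) k195 k196) (.br (nat_lit 0x100000300400500b011600802a416022611) k197 k198)) (.br (nat_lit 0x600000100400500b01120080cb816022611) (.br (nat_lit 0x500000200400500b01140080ab416022611) k199 k200) (.br (nat_lit 0x600000300400500b01160080cb816022611) k201 k202))) (.br (nat_lit 0x400000200300400500b011608900a056822711) (.br (nat_lit 0x900000100400500b011200812c416022611) (.br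 (nat_lit 0x800000100400500b011200810c016022611) k203 k204) (.br (nat_lit 0xa00000200400500b011400814c816022611) k205 k206)) (.br (nat_lit 0x600000200300400500b01160c980a056822711) (.br (nat_lit 0x500000200300400500b01160a940a056822711) k207 k208) (.br (nat_lit 0x800000100200400500b011410a00a036422711) k209 (.br (nat_lit 0xa00000200300400500b011614a80a056822711) k210 k211)))))
noncomputable def u11 : KT := (.one (nat_lit 0x400500b011000800a016022540))
def w11 : u11.all (wj 57 s11) = true := by decide +kernel
def o11 : OkW 57 (jb2 57 fl) u11 := .lift s11 _ (.br _ _ _ (.br _ _ _ (.br _ _ _ (.br _ _ _ (.leaf b196 k195 t195) (.leaf b197 k196 t196)) (.br _ _ _ (.leaf b198 k197 t197) (.leaf b0 k198 t198))) (.br _ _ _ (.br _ _ _ (.leaf b0 k199 t199) (.leaf b0 k200 t200)) (.br _ _ _ (.leaf b0 k201 t201) (.leaf b0 k202 t202)))) (.br _ _ _ (.br _ _ _ (.br _ _ _ (.leaf b204 k203 t203) (.leaf b205 k204 t204)) (.br _ _ _ (.leaf b206 k205 t205) (.leaf b0 k206 t206))) (.br _ _ _ (.br _ _ _ (.leaf b0 k207 t207) (.leaf b0 k208 t208)) (.br _ _ _ (.leaf b210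 k209 t209) (.br _ _ _ (.leaf b0 k210 t210) (.leaf b0 k211 t211)))))) w11
noncomputable def k212 : KT := (.br (Nat.shiftLeft (nat_lit 0x200400500b013) (nat_lit 64)) (.br (Nat.shiftLeft (nat_lit 0x2002806007) (nat_lit 65)) (.br (Nat.shiftLeft (nat_lit 0x400500b013) (nat_lit 64)) (.one (nat_lit 0x400500b012000800a016025500)) (.br (Nat.shiftLeft (nat_lit 0x1001403) (nat_lit 78)) (.one (nat_lit 0x400500b013000800a016027500)) (.one (nat_lit 0x400500c00d000800a01801b500)))) (.br (Nat.shiftLeft (nat_lit 0x100400500b013) (nat_lit 64)) (.br (Nat.shiftLeft (nat_lit 0x1) (nat_lit 112)) (.one (nat_lit 0x400500c00e000800a01801d500)) (.one (nat_lit 0x100400500b012200800a016025600))) (.br (Nat.shiftLeft (nat_lit 0x1) (nat_lit 113)) (.one (nat_lit 0x100400500b013200800a016027600)) (.one (nat_lit 0x200400500b012400800a016025600))))) (.br (Nat.shiftLeft (nat_lit 0x1) (nat_lit 124)) (.br (Nat.shiftLeft (nat_lit 0x3) (nat_lit 112)) (.one (nat_lit 0x200400500b013400800a016027600)) (.br (Nat.shiftLeft (nat_lit 0x300400500b013) (nat_lit 64)) (.one (nat_lit 0x300400500b012600800a016025600))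 (.one (nat_lit 0x300400500b013600800a016027600)))) (.br (Nat.shiftLeft (nat_lit 0x801) (nat_lit 113)) (.br (Nat.shiftLeft (nat_lit 0x100000400500b013) (nat_lit 64)) (.one (nat_lit 0x100000400500b012000800a036424511)) (.one (nat_lit 0x100000400500b013000800a036426511))) (.br (Nat.shiftLeft (nat_lit 0x100200400500b013) (nat_lit 64)) (.one (nat_lit 0x100200400500b012400800a036425700)) (.one (nat_lit 0x100200400500b013400800a036426760))))))
def t212 : k212.all (jb2 57 fl b0) = true := by decide +kernel
noncomputable def k213 : KT := (.one (nat_lit 0x100300400500b012600800a036424760))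
def t213 : k213.all (jb2 57 fl b0) = true := by decide +kernel
noncomputable def k214 : KT := (.br (Nat.shiftLeft (nat_lit 0x200000400500b013) (nat_lit 64)) (.br (Nat.shiftLeft (nat_lit 0x1) (nat_lit 125)) (.one (nat_lit 0x100300400500b013600800a036426760)) (.one (nat_lit 0x200000400500b012000800a056824511))) (.br (Nat.shiftLeft (nat_lit 0x1001) (nat_lit 113)) (.one (nat_lit 0x200000400500b013000800a056826511)) (.one (nat_lit 0x200300400500b012600800a056825700))))
def t214 : k214.all (jb2 57 fl b0) = true := by decide +kernel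
noncomputable def k215 : KT := (.br (Nat.shiftLeft (nat_lit 0x300000400500b013) (nat_lit 64)) (.br (Nat.shiftLeft (nat_lit 0x3) (nat_lit 124)) (.one (nat_lit 0x200300400500b013600800a056826760)) (.one (nat_lit 0x300000400500b012000800a076c24511))) (.br (Nat.shiftLeft (nat_lit 0x1) (nat_lit 126)) (.one (nat_lit 0x300000400500b013000800a076c26511)) (.br (Nat.shiftLeft (nat_lit 0x400000400500b013) (nat_lit 64)) (.one (nat_lit 0x400000400500b012000800a097024511)) (.one (nat_lit 0x400000400500b013000800a097026511)))))
def t215 : k215.all (jb2 57 fl b0) = true := by decide +kernel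
noncomputable def k216 : KT := (.br (Nat.shiftLeft (nat_lit 0x3) (nat_lit 125)) (.br (Nat.shiftLeft (nat_lit 0x500000400500b013) (nat_lit 64)) (.one (nat_lit 0x500000400500b012000800a0b7424511)) (.one (nat_lit 0x500000400500b013000800a0b7426511))) (.br (Nat.shiftLeft (nat_lit 0x600000400500b013) (nat_lit 64)) (.one (nat_lit 0x600000400500b012000800a0d7824511)) (.one (nat_lit 0x600000400500b013000800a0d7826511))))
def t216 : k216.all (jb2 57 fl b0) = true := by decide +kernel
noncomputable def k217 : KT := (.br (Nat.shiftLeft (nat_lit 0x700000400500b013) (nat_lit 64)) (.one (nat_lit 0x700000400500b012000800a0f7c24511)) (.br (Nat.shiftLeft (nat_lit 0x1) (nat_lit 127)) (.one (nat_lit 0x700000400500b013000800a0f7c26511)) (.one (nat_lit 0x800000400500b012000800a118024511))))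
def t217 : k217.all (jb2 57 fl b0) = true := by decide +kernel
noncomputable def k218 : KT := (.br (Nat.shiftLeft (nat_lit 0x900000400500b013) (nat_lit 64)) (.br (Nat.shiftLeft (nat_lit 0x9) (nat_lit 124)) (.one (nat_lit 0x800000400500b013000800a118026511)) (.one (nat_lit 0x900000400500b012000800a138424511))) (.br (Nat.shiftLeft (nat_lit 0x5) (nat_lit 125)) (.one (nat_lit 0x900000400500b013000800a138426511)) (.one (nat_lit 0xa00000400500b012000800a158824511))))
noncomputable def b219 : BT := .node (nat_lit 0xb) (nat_lit 0x25912704e94b1a4e497edb32609508003a5d000ac64003a5e000cb600039e60008e5c3db2275150c003a1f0008e641db328a150c003a590008e601002c6002c6002c6001b0001500015000150001500015000150000f0000f0) .leaf .leaf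
def t218 : k218.all (jb2 57 fl b219) = true := by decide +kernel
noncomputable def k219 : KT := (.br (Nat.shiftLeft (nat_lit 0x1) (nat_lit 137)) (.br (Nat.shiftLeft (nat_lit 0x800001) (nat_lit 113)) (.br (Nat.shiftLeft (nat_lit 0xb00000400500b013) (nat_lit 64)) (.br (Nat.shiftLeft (nat_lit 0xb) (nat_lit 124)) (.one (nat_lit 0xa00000400500b013000800a158826511)) (.one (nat_lit 0xb00000400500b012000800a178c24511))) (.br (Nat.shiftLeft (nat_lit 0x1) (nat_lit 136)) (.one (nat_lit 0xb00000400500b013000800a178c26511)) (.br (Nat.shiftLeft (nat_lit 0x100000100400500b013) (nat_lit 64)) (.one (nat_lit 0x100000100400500b012200802a416024611)) (.one (nat_lit 0x100000100400500b013200802a416026611))))) (.br (Nat.shiftLeft (nat_lit 0x1000003) (nat_lit 112)) (.br (Nat.shiftLeft (nat_lit 0x100000200400500b013) (nat_lit 64)) (.one (nat_lit 0x100000200400500b012400802a416024611)) (.one (nat_lit 0x100000200400500b013400802a416026611))) (.br (Nat.shiftLeft (nat_lit 0x100000300400500b013) (nat_lit 64)) (.one (nat_lit 0x100000300400500b012600802a416024611)) (.br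 (Nat.shiftLeft (nat_lit 0x801) (nat_lit 125)) (.one (nat_lit 0x100000300400500b013600802a416026611)) (.one (nat_lit 0x100200300400500b012600802a456824870)))))) (.br (Nat.shiftLeft (nat_lit 0x200000300400500b013) (nat_lit 64)) (.br (Nat.shiftLeft (nat_lit 0x1000001) (nat_lit 113)) (.br (Nat.shiftLeft (nat_lit 0x200000100400500b013) (nat_lit 64)) (.one (nat_lit 0x200000100400500b012200804a816024611)) (.one (nat_lit 0x200000100400500b013200804a816026611))) (.br (Nat.shiftLeft (nat_lit 0x200000200400500b013) (nat_lit 64)) (.one (nat_lit 0x200000200400500b012400804a816024611)) (.br (Nat.shiftLeft (nat_lit 0x2000003) (nat_lit 112)) (.one (nat_lit 0x200000200400500b013400804a816026611)) (.one (nat_lit 0x200000300400500b012600804a816024611))))) (.br (Nat.shiftLeft (nat_lit 0x1800001) (nat_lit 113)) (.br (Nat.shiftLeft (nat_lit 0x3) (nat_lit 136)) (.one (nat_lit 0x200000300400500b013600804a816026611)) (.br (Nat.shiftLeft (nat_lit 0x300000100400500b013) (nat_lit 64)) (.one (nat_lit 0x300000100400500b012200806ac16024611)) (.one (nat_lit 0x300000100400500b013200806ac16026611))))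 (.br (Nat.shiftLeft (nat_lit 0x300000200400500b013) (nat_lit 64)) (.one (nat_lit 0x300000200400500b012400806ac16024611)) (.br (Nat.shiftLeft (nat_lit 0x3000003) (nat_lit 112)) (.one (nat_lit 0x300000200400500b013400806ac16026611)) (.one (nat_lit 0x300000300400500b012600806ac16024611)))))))
def t219 : k219.all (jb2 57 fl b0) = true := by decide +kernel
noncomputable def k220 : KT := (.br (Nat.shiftLeft (nat_lit 0x400000200400500b013) (nat_lit 64)) (.br (Nat.shiftLeft (nat_lit 0x400000100400500b013) (nat_lit 64)) (.br (Nat.shiftLeft (nat_lit 0x1) (nat_lit 138)) (.one (nat_lit 0x300000300400500b013600806ac16026611)) (.one (nat_lit 0x400000100400500b012200808b016024611))) (.br (Nat.shiftLeft (nat_lit 0x2000001) (nat_lit 113)) (.one (nat_lit 0x400000100400500b013200808b016026611)) (.one (nat_lit 0x400000200400500b012400808b016024611)))) (.br (Nat.shiftLeft (nat_lit 0x400000300400500b013) (nat_lit 64)) (.br (Nat.shiftLeft (nat_lit 0x4000003) (nat_lit 112)) (.one (nat_lit 0x400000200400500b013400808b016026611)) (.one (nat_lit 0x400000300400500b012600808b016024611)))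 (.br (Nat.shiftLeft (nat_lit 0x5) (nat_lit 136)) (.one (nat_lit 0x400000300400500b013600808b016026611)) (.one (nat_lit 0x500000100400500b01220080ab416024611)))))
def t220 : k220.all (jb2 57 fl b0) = true := by decide +kernel
noncomputable def k221 : KT := (.br (Nat.shiftLeft (nat_lit 0x500000200400500b013) (nat_lit 64)) (.br (Nat.shiftLeft (nat_lit 0x2800001) (nat_lit 113)) (.one (nat_lit 0x500000100400500b01320080ab416026611)) (.one (nat_lit 0x500000200400500b01240080ab416024611))) (.br (Nat.shiftLeft (nat_lit 0x5000003) (nat_lit 112)) (.one (nat_lit 0x500000200400500b01340080ab416026611)) (.one (nat_lit 0x500000300400500b01260080ab416024611))))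
def t221 : k221.all (jb2 57 fl b0) = true := by decide +kernel
noncomputable def k222 : KT := (.br (Nat.shiftLeft (nat_lit 0x3) (nat_lit 137)) (.one (nat_lit 0x500000300400500b01360080ab416026611)) (.br (Nat.shiftLeft (nat_lit 0x600000100400500b013) (nat_lit 64)) (.one (nat_lit 0x600000100400500b01220080cb816024611)) (.one (nat_lit 0x600000100400500b01320080cb816026611))))
def t222 : k222.all (jb2 57 fl b0) = true := by decide +kernel
noncomputable def k223 : KT := (.br (Nat.shiftLeft (nat_lit 0x600000200400500b013) (nat_lit 64)) (.one (nat_lit 0x600000200400500b01240080cb816024611)) (.br (Nat.shiftLeft (nat_lit 0x6000003) (nat_lit 112)) (.one (nat_lit 0x600000200400500b01340080cb816026611)) (.one (nat_lit 0x600000300400500b01260080cb816024611))))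
def t223 : k223.all (jb2 57 fl b0) = true := by decide +kernel
noncomputable def k224 : KT := (.br (Nat.shiftLeft (nat_lit 0x7) (nat_lit 136)) (.one (nat_lit 0x600000300400500b01360080cb816026611)) (.br (Nat.shiftLeft (nat_lit 0x700000100400500b013) (nat_lit 64)) (.one (nat_lit 0x700000100400500b01220080ebc16024611)) (.one (nat_lit 0x700000100400500b01320080ebc16026611))))
def t224 : k224.all (jb2 57 fl b0) = true := by decide +kernel
noncomputable def k225 : KT := (.br (Nat.shiftLeft (nat_lit 0x7000003) (nat_lit 112)) (.br (Nat.shiftLeft (nat_lit 0x700000200400500b013) (nat_lit 64)) (.one (nat_lit 0x700000200400500b01240080ebc16024611)) (.one (nat_lit 0x700000200400500b01340080ebc16026611))) (.br (Nat.shiftLeft (nat_lit 0x700000300400500b013) (nat_lit 64)) (.one (nat_lit 0x700000300400500b01260080ebc16024611)) (.one (nat_lit 0x700000300400500b01360080ebc16026611))))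
def t225 : k225.all (jb2 57 fl b0) = true := by decide +kernel
noncomputable def k226 : KT := (.br (Nat.shiftLeft (nat_lit 0x800000100400500b013) (nat_lit 64)) (.one (nat_lit 0x800000100400500b012200810c016024611)) (.br (Nat.shiftLeft (nat_lit 0x4000001) (nat_lit 113)) (.one (nat_lit 0x800000100400500b013200810c016026611)) (.one (nat_lit 0x800000200400500b012400810c016024611))))
def t226 : k226.all (jb2 57 fl b0) = true := by decide +kernel
noncomputable def k227 : KT := (.br (Nat.shiftLeft (nat_lit 0x800000300400500b013) (nat_lit 64)) (.br (Nat.shiftLeft (nat_lit 0x8000003) (nat_lit 112)) (.one (nat_lit 0x800000200400500b013400810c016026611)) (.one (nat_lit 0x800000300400500b012600810c016024611))) (.br (Nat.shiftLeft (nat_lit 0x9) (nat_lit 136)) (.one (nat_lit 0x800000300400500b013600810c016026611)) (.br (Nat.shiftLeft (nat_lit 0x900000100400500b013) (nat_lit 64)) (.one (nat_lit 0x900000100400500b012200812c416024611)) (.one (nat_lit 0x900000100400500b013200812c416026611)))))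
def t227 : k227.all (jb2 57 fl b0) = true := by decide +kernel
noncomputable def k228 : KT := (.br (Nat.shiftLeft (nat_lit 0x900000300400500b013) (nat_lit 64)) (.br (Nat.shiftLeft (nat_lit 0x900000200400500b013) (nat_lit 64)) (.one (nat_lit 0x900000200400500b012400812c416024611)) (.br (Nat.shiftLeft (nat_lit 0x9000003) (nat_lit 112)) (.one (nat_lit 0x900000200400500b013400812c416026611)) (.one (nat_lit 0x900000300400500b012600812c416024611)))) (.br (Nat.shiftLeft (nat_lit 0xa00000100400500b013) (nat_lit 64)) (.br (Nat.shiftLeft (nat_lit 0x5) (nat_lit 137)) (.one (nat_lit 0x900000300400500b013600812c416026611)) (.one (nat_lit 0xa00000100400500b012200814c816024611))) (.br (Nat.shiftLeft (nat_lit 0x5000001) (nat_lit 113)) (.one (nat_lit 0xa00000100400500b013200814c816026611)) (.one (nat_lit 0xa00000200400500b012400814c816024611)))))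
def t228 : k228.all (jb2 57 fl b0) = true := by decide +kernel
noncomputable def k229 : KT := (.br (Nat.shiftLeft (nat_lit 0xb00000300400500b013) (nat_lit 64)) (.br (Nat.shiftLeft (nat_lit 0xb00000100400500b013) (nat_lit 64)) (.br (Nat.shiftLeft (nat_lit 0xa00000300400500b013) (nat_lit 64)) (.br (Nat.shiftLeft (nat_lit 0xa000003) (nat_lit 112)) (.one (nat_lit 0xa00000200400500b013400814c816026611)) (.one (nat_lit 0xa00000300400500b012600814c816024611))) (.br (Nat.shiftLeft (nat_lit 0xb) (nat_lit 136)) (.one (nat_lit 0xa00000300400500b013600814c816026611)) (.one (nat_lit 0xb00000100400500b012200816cc16024611)))) (.br (Nat.shiftLeft (nat_lit 0xb00000200400500b013) (nat_lit 64)) (.br (Nat.shiftLeft (nat_lit 0x5800001) (nat_lit 113)) (.one (nat_lit 0xb00000100400500b013200816cc16026611)) (.one (nat_lit 0xb00000200400500b012400816cc16024611))) (.br (Nat.shiftLeft (nat_lit 0xb000003) (nat_lit 112)) (.one (nat_lit 0xb00000200400500b013400816cc16026611)) (.one (nat_lit 0xb00000300400500b012600816cc16024611))))) (.br (Nat.shiftLeft (nat_lit 0x1000001)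 (nat_lit 125)) (.br (Nat.shiftLeft (nat_lit 0x800001) (nat_lit 125)) (.br (Nat.shiftLeft (nat_lit 0x1) (nat_lit 148)) (.one (nat_lit 0xb00000300400500b013600816cc16026611)) (.one (nat_lit 0x100000100200400500b012402840a036424711))) (.br (Nat.shiftLeft (nat_lit 0x1) (nat_lit 149)) (.one (nat_lit 0x100000200300400500b012602840a056824711)) (.one (nat_lit 0x200000100200400500b012404880a036424711)))) (.br (Nat.shiftLeft (nat_lit 0x1800001) (nat_lit 125)) (.br (Nat.shiftLeft (nat_lit 0x3) (nat_lit 148)) (.one (nat_lit 0x200000200300400500b012604880a056824711)) (.one (nat_lit 0x300000100200400500b0124068c0a036424711))) (.br (Nat.shiftLeft (nat_lit 0x1) (nat_lit 150)) (.one (nat_lit 0x300000200300400500b0126068c0a056824711)) (.br (Nat.shiftLeft (nat_lit 0x2000001) (nat_lit 125)) (.one (nat_lit 0x400000100200400500b012408900a036424711)) (.one (nat_lit 0x400000200300400500b012608900a056824711)))))))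
def t229 : k229.all (jb2 57 fl b0) = true := by decide +kernel
noncomputable def k230 : KT := (.br (Nat.shiftLeft (nat_lit 0x3) (nat_lit 149)) (.br (Nat.shiftLeft (nat_lit 0x2800001) (nat_lit 125)) (.one (nat_lit 0x500000100200400500b01240a940a036424711)) (.one (nat_lit 0x500000200300400500b01260a940a056824711))) (.br (Nat.shiftLeft (nat_lit 0x3000001) (nat_lit 125)) (.one (nat_lit 0x600000100200400500b01240c980a036424711)) (.one (nat_lit 0x600000200300400500b01260c980a056824711))))
def t230 : k230.all (jb2 57 fl b0) = true := by decide +kernel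
noncomputable def k231 : KT := (.br (Nat.shiftLeft (nat_lit 0x4800001) (nat_lit 125)) (.br (Nat.shiftLeft (nat_lit 0x1) (nat_lit 151)) (.br (Nat.shiftLeft (nat_lit 0x3800001) (nat_lit 125)) (.one (nat_lit 0x700000100200400500b01240e9c0a036424711)) (.one (nat_lit 0x700000200300400500b01260e9c0a056824711))) (.br (Nat.shiftLeft (nat_lit 0x4000001) (nat_lit 125)) (.one (nat_lit 0x800000100200400500b012410a00a036424711)) (.br (Nat.shiftLeft (nat_lit 0x9) (nat_lit 148)) (.one (nat_lit 0x800000200300400500b012610a00a056824711)) (.one (nat_lit 0x900000100200400500b012412a40a036424711))))) (.br (Nat.shiftLeft (nat_lit 0x5000001) (nat_lit 125)) (.br (Nat.shiftLeft (nat_lit 0x5) (nat_lit 149)) (.one (nat_lit 0x900000200300400500b012612a40a056824711)) (.one (nat_lit 0xa00000100200400500b012414a80a036424711))) (.br (Nat.shiftLeft (nat_lit 0xb) (nat_lit 148)) (.one (nat_lit 0xa00000200300400500b012614a80a056824711)) (.br (Nat.shiftLeft (nat_lit 0x5800001) (nat_lit 125)) (.one (nat_lit 0xb00000100200400500b012416ac0a036424711)) (.one (nat_lit 0xb00000200300400500b012616ac0a056824711))))))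
def t231 : k231.all (jb2 57 fl b0) = true := by decide +kernel
noncomputable def s12 : KT := (.br (nat_lit 0x500000300400500b01260080ab416024611) (.br (nat_lit 0x600000400500b013000800a0d7826511) (.br (nat_lit 0x100300400500b012600800a036424760) (.br (nat_lit 0x100200400500b013400800a036426760) k212 k213) (.br (nat_lit 0x200300400500b012600800a056825700) k214 (.br (nat_lit 0x400000400500b013000800a097026511) k215 k216))) (.br (nat_lit 0xa00000400500b012000800a158824511) (.br (nat_lit 0x800000400500b012000800a118024511) k217 k218) (.br (nat_lit 0x300000300400500b012600806ac16024611) k219 (.br (nat_lit 0x500000100400500b01220080ab416024611) k220 k221)))) (.br (nat_lit 0x800000200400500b012400810c016024611) (.br (nat_lit 0x600000300400500b01260080cb816024611) (.br (nat_lit 0x600000100400500b01320080cb816026611) k222 k223) (.br (nat_lit 0x700000100400500b01320080ebc16026611) k224 (.br (nat_lit 0x700000300400500b01360080ebc16026611) k225 k226))) (.br (nat_lit 0xa00000200400500b012400814c816024611) (.br (nat_lit 0x900000100400500b013200812c416026611)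 k227 k228) (.br (nat_lit 0x400000200300400500b012608900a056824711) k229 (.br (nat_lit 0x600000200300400500b01260c980a056824711) k230 k231)))))
noncomputable def u12 : KT := (.br (Nat.shiftLeft (nat_lit 0x1001403) (nat_lit 78)) (.br (Nat.shiftLeft (nat_lit 0x400500b013) (nat_lit 64)) (.one (nat_lit 0x400500b012000800a016024540)) (.one (nat_lit 0x400500b013000800a016026540))) (.br (Nat.shiftLeft (nat_lit 0x2002806007) (nat_lit 65)) (.one (nat_lit 0x400500c00d000800a01801b500)) (.one (nat_lit 0x400500c00e000800a01801d500))))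
def w12 : u12.all (wj 57 s12) = true := by decide +kernel
def o12 : OkW 57 (jb2 57 fl) u12 := .lift s12 _ (.br _ _ _ (.br _ _ _ (.br _ _ _ (.br _ _ _ (.leaf b0 k212 t212) (.leaf b0 k213 t213)) (.br _ _ _ (.leaf b0 k214 t214) (.br _ _ _ (.leaf b0 k215 t215) (.leaf b0 k216 t216)))) (.br _ _ _ (.br _ _ _ (.leaf b0 k217 t217) (.leaf b219 k218 t218)) (.br _ _ _ (.leaf b0 k219 t219) (.br _ _ _ (.leaf b0 k220 t220) (.leaf b0 k221 t221))))) (.br _ _ _ (.br _ _ _ (.br _ _ _ (.leaf b0 k222 t222) (.leaf b0 k223 t223)) (.br _ _ _ (.leaf b0 k224 t224) (.br _ _ _ (.leaf b0 k225 t225) (.leaf b0 k226 t226)))) (.br _ _ _ (.br _ _ _ (.leaf b0 k227 t227) (.leaf b0 k228 t228)) (.br _ _ _ (.leaf b0 k229 t229) (.br _ _ _ (.leaf b0 k230 t230) (.leaf b0 k231 t231)))))) w12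
noncomputable def k232 : KT := (.br (Nat.shiftLeft (nat_lit 0x1003) (nat_lit 112)) (.br (Nat.shiftLeft (nat_lit 0x3) (nat_lit 112)) (.br (Nat.shiftLeft (nat_lit 0x1) (nat_lit 112)) (.one (nat_lit 0x400500c00f000800a01801f500)) (.br (Nat.shiftLeft (nat_lit 0x1) (nat_lit 113)) (.one (nat_lit 0x100400500c00f200800a01801f600)) (.one (nat_lit 0x200400500c00f400800a01801f600)))) (.br (Nat.shiftLeft (nat_lit 0x1) (nat_lit 124)) (.one (nat_lit 0x300400500c00f600800a01801f600)) (.br (Nat.shiftLeft (nat_lit 0x801) (nat_lit 113)) (.one (nat_lit 0x100000400500c00f000800a03841e511)) (.one (nat_lit 0x100200400500c00f400800a03841f700))))) (.br (Nat.shiftLeft (nat_lit 0x3) (nat_lit 124)) (.br (Nat.shiftLeft (nat_lit 0x1) (nat_lit 125)) (.one (nat_lit 0x100300400500c00f600800a03841f700)) (.br (Nat.shiftLeft (nat_lit 0x1001) (nat_lit 113)) (.one (nat_lit 0x200000400500c00f000800a05881e511)) (.one (nat_lit 0x200300400500c00f600800a05881f700)))) (.br (Nat.shiftLeft (nat_lit 0x5) (nat_lit 124)) (.br (Nat.shiftLeft (nat_lit 0x1) (nat_lit 126)) (.one (nat_lit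 0x300000400500c00f000800a078c1e511)) (.one (nat_lit 0x400000400500c00f000800a09901e511))) (.br (Nat.shiftLeft (nat_lit 0x3) (nat_lit 125)) (.one (nat_lit 0x500000400500c00f000800a0b941e511)) (.one (nat_lit 0x600000400500c00f000800a0d981e511))))))
noncomputable def b233 : BT := .node (nat_lit 0x3) (nat_lit 0x54325e92ec0039e2000cb641918b6d097d232275a58c002ada000aa88002adf000ab6420016b0010c0005000050) .leaf .leaf
def t232 : k232.all (jb2 57 fl b233) = true := by decide +kernel
noncomputable def k233 : KT := (.br (Nat.shiftLeft (nat_lit 0x1) (nat_lit 127)) (.one (nat_lit 0x700000400500c00f000800a0f9c1e511)) (.one (nat_lit 0x800000400500c00f000800a11a01e511)))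
noncomputable def b234 : BT := .node (nat_lit 0x17) (nat_lit 0x54327592ec003a21000cb601de26d9950d2c69364b248c497c5434c924d89d600194c80056ae001d2d00065b0001cf18003732001d0e000563824b1b6d097c54328a13ac003a98000aa88003a59000ca7c29d24bc27500074b600196d8350c9d25142a1a5909d654349ba4dc003a98000e96400421a000ab7c0041dc000cb603005df005df005df005df00580005800040f0040f0040f0040f0040f0040f0040f00354002f5002f5002f5002f5002f5001e0001e0001e0001e0001e0) .leaf .leaf
def t233 : k233.all (jb2 57 fl b234) = true := by decide +kernel
noncomputable def k234 : KT := (.br (Nat.shiftLeft (nat_lit 0x5) (nat_lit 125)) (.one (nat_lit 0x900000400500c00f000800a13a41e511)) (.br (Nat.shiftLeft (nat_lit 0xb) (nat_lit 124)) (.one (nat_lit 0xa00000400500c00f000800a15a81e511)) (.one (nat_lit 0xb00000400500c00f000800a17ac1e511))))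
def t234 : k234.all (jb2 57 fl b0) = true := by decide +kernel
noncomputable def k235 : KT := (.br (Nat.shiftLeft (nat_lit 0x800001) (nat_lit 113)) (.br (Nat.shiftLeft (nat_lit 0x1) (nat_lit 136)) (.one (nat_lit 0xc00000400500c00f000800a19b01e511)) (.one (nat_lit 0x100000100400500c00f200802a41801e611))) (.br (Nat.shiftLeft (nat_lit 0x1000003) (nat_lit 112)) (.one (nat_lit 0x100000200400500c00f400802a41801e611)) (.one (nat_lit 0x100000300400500c00f600802a41801e611))))
def t235 : k235.all (jb2 57 fl b0) = true := by decide +kernel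
noncomputable def k236 : KT := (.br (Nat.shiftLeft (nat_lit 0x2000003) (nat_lit 112)) (.br (Nat.shiftLeft (nat_lit 0x1) (nat_lit 137)) (.one (nat_lit 0x100200300400500c00f600802a45881e870)) (.br (Nat.shiftLeft (nat_lit 0x1000001) (nat_lit 113)) (.one (nat_lit 0x200000100400500c00f200804a81801e611)) (.one (nat_lit 0x200000200400500c00f400804a81801e611)))) (.br (Nat.shiftLeft (nat_lit 0x1800001) (nat_lit 113)) (.br (Nat.shiftLeft (nat_lit 0x3) (nat_lit 136)) (.one (nat_lit 0x200000300400500c00f600804a81801e611)) (.one (nat_lit 0x300000100400500c00f200806ac1801e611))) (.br (Nat.shiftLeft (nat_lit 0x3000003) (nat_lit 112)) (.one (nat_lit 0x300000200400500c00f400806ac1801e611)) (.one (nat_lit 0x300000300400500c00f600806ac1801e611)))))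
def t236 : k236.all (jb2 57 fl b0) = true := by decide +kernel
noncomputable def k237 : KT := (.br (Nat.shiftLeft (nat_lit 0x4000003) (nat_lit 112)) (.br (Nat.shiftLeft (nat_lit 0x2000001) (nat_lit 113)) (.one (nat_lit 0x400000100400500c00f200808b01801e611)) (.one (nat_lit 0x400000200400500c00f400808b01801e611))) (.br (Nat.shiftLeft (nat_lit 0x5) (nat_lit 136)) (.one (nat_lit 0x400000300400500c00f600808b01801e611)) (.one (nat_lit 0x500000100400500c00f20080ab41801e611))))
def t237 : k237.all (jb2 57 fl b0) = true := by decide +kernel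
noncomputable def k238 : KT := (.br (Nat.shiftLeft (nat_lit 0x5000003) (nat_lit 112)) (.one (nat_lit 0x500000200400500c00f40080ab41801e611)) (.one (nat_lit 0x500000300400500c00f60080ab41801e611)))
def t238 : k238.all (jb2 57 fl b0) = true := by decide +kernel
noncomputable def k239 : KT := (.one (nat_lit 0x600000100400500c00f20080cb81801e611))
noncomputable def b240 : BT := .node (nat_lit 0x1) (nat_lit 0x25909d69356f0b78926a9914b194540032dd000ca64003a98000aa6c003a59000ac6430013e00028) .leaf .leaf
def t239 : k239.all (jb2 57 fl b240) = true := by decide +kernel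
noncomputable def k240 : KT := (.one (nat_lit 0x600000200400500c00f40080cb81801e611))
noncomputable def b241 : BT := .node (nat_lit 0x1) (nat_lit 0x963276150c003a20000ad5c10008800028) .leaf .leaf
def t240 : k240.all (jb2 57 fl b241) = true := by decide +kernel
noncomputable def k241 : KT := (.one (nat_lit 0x600000300400500c00f60080cb81801e611))
def t241 : k241.all (jb2 57 fl b0) = true := by decide +kernel
noncomputable def k242 : KT := (.one (nat_lit 0x700000100400500c00f20080ebc1801e611))
noncomputable def b243 : BT := .node (nat_lit 0xb) (nat_lit 0xdb325f95c40039a50008f581de125d93b0003a5a0008b881de16da13ac003a5a0008c7c19632a1950c0032d9000cb6010027000270002100021000210001b0001b000150001500015000150000f0) .leaf .leaf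
def t242 : k242.all (jb2 57 fl b243) = true := by decide +kernel
noncomputable def k243 : KT := (.br (Nat.shiftLeft (nat_lit 0x7000003) (nat_lit 112)) (.one (nat_lit 0x700000200400500c00f40080ebc1801e611)) (.one (nat_lit 0x700000300400500c00f60080ebc1801e611)))
noncomputable def b244 : BT := .node (nat_lit 0xb) (nat_lit 0x3784a2a992000cb64002b18064d4a885436d9150d324de149b36cc013a98002ad5c003317004ad5c0032d8002ca643db26d992f80032d8000ab801db34b212f40032d8000ab7c10032600326002c6002c6001b0001b0001b00015000150000f0000f0000f0) .leaf .leaf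
def t243 : k243.all (jb2 57 fl b244) = true := by decide +kernel
noncomputable def k244 : KT := (.one (nat_lit 0x800000100400500c00f200810c01801e611))
noncomputable def b245 : BT := .node (nat_lit 0x17) (nat_lit 0x96327592f09d293725f00065b200194f000753000194f85b664be49b80065b600156e03b664bb275b6cd2c84be4b193ad26e96325e24dc00ba5a0028c800032d9002aa880132dc004ca6c00329e002ca70499125d93b1bc2db427580074b400555100274b400518f852314b236cc0032d9000ab6419d24bc275a58c9764bb6d992ec9d696349c1454003a5b002cb6c0032d9002cb6000ba5a0028c8001421a004ac684006f80063d0063d005dd005dd0046c0046c0046c003b1003b1003b1003b1003b1003b1003b1003b1003b100350001e0001e0001e0001e0001e0001e0) .leaf .leaf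
def t244 : k244.all (jb2 57 fl b245) = true := by decide +kernel
noncomputable def k245 : KT := (.br (Nat.shiftLeft (nat_lit 0x8000003) (nat_lit 112)) (.one (nat_lit 0x800000200400500c00f400810c01801e611)) (.one (nat_lit 0x800000300400500c00f600810c01801e611)))
noncomputable def b246 : BT := .node (nat_lit 0xb) (nat_lit 0x91892f9b66db26d9a4dd26a4ea49b00155c000556c80265b000594e001662e00196c07b64db349b93a526c4bc91893a927000196c0006538001d4c000653c00196d80045bc1cc8a4e12c6001d2e00065320c9b92fc9d4de16d992fc003a99000ac6c003299000aa8c200438004380043800321003210020b0020b0020b001ab001ab000f0000f0) .leaf .leaf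
def t245 : k245.all (jb2 57 fl b246) = true := by decide +kernel
noncomputable def k246 : KT := (.br (Nat.shiftLeft (nat_lit 0x4800001) (nat_lit 113)) (.one (nat_lit 0x900000100400500c00f200812c41801e611)) (.one (nat_lit 0x900000200400500c00f400812c41801e611)))
noncomputable def b247 : BT := .node (nat_lit 0x1) (nat_lit 0x99149c15100041dc000ac6810008800028) .leaf .leaf
def t246 : k246.all (jb2 57 fl b247) = true := by decide +kernel
noncomputable def k247 : KT := (.br (Nat.shiftLeft (nat_lit 0x5000001) (nat_lit 113)) (.br (Nat.shiftLeft (nat_lit 0x5) (nat_lit 137)) (.one (nat_lit 0x900000300400500c00f600812c41801e611)) (.one (nat_lit 0xa00000100400500c00f200814c81801e611))) (.br (Nat.shiftLeft (nat_lit 0xa000003) (nat_lit 112)) (.one (nat_lit 0xa00000200400500c00f400814c81801e611)) (.one (nat_lit 0xa00000300400500c00f600814c81801e611))))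
def t247 : k247.all (jb2 57 fl b0) = true := by decide +kernel
noncomputable def k248 : KT := (.br (Nat.shiftLeft (nat_lit 0x800001) (nat_lit 125)) (.br (Nat.shiftLeft (nat_lit 0x6000001) (nat_lit 113)) (.br (Nat.shiftLeft (nat_lit 0xb000003) (nat_lit 112)) (.br (Nat.shiftLeft (nat_lit 0x5800001) (nat_lit 113)) (.one (nat_lit 0xb00000100400500c00f200816cc1801e611)) (.one (nat_lit 0xb00000200400500c00f400816cc1801e611))) (.br (Nat.shiftLeft (nat_lit 0x3) (nat_lit 138)) (.one (nat_lit 0xb00000300400500c00f600816cc1801e611)) (.one (nat_lit 0xc00000100400500c00f200818d01801e611)))) (.br (Nat.shiftLeft (nat_lit 0x1) (nat_lit 148)) (.br (Nat.shiftLeft (nat_lit 0xc000003) (nat_lit 112)) (.one (nat_lit 0xc00000200400500c00f400818d01801e611)) (.one (nat_lit 0xc00000300400500c00f600818d01801e611))) (.br (Nat.shiftLeft (nat_lit 0x1000001003) (nat_lit 112)) (.one (nat_lit 0x100000100200400500c00f402840a03841e711)) (.one (nat_lit 0x100000100300400500c00f602840a03841e711))))) (.br (Nat.shiftLeft (nat_lit 0x3) (nat_lit 148)) (.br (Nat.shiftLeft (nat_lit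 0x2000001003) (nat_lit 112)) (.br (Nat.shiftLeft (nat_lit 0x1) (nat_lit 149)) (.one (nat_lit 0x100000200300400500c00f602840a05881e711)) (.one (nat_lit 0x200000100200400500c00f404880a03841e711))) (.br (Nat.shiftLeft (nat_lit 0x1000001) (nat_lit 125)) (.one (nat_lit 0x200000100300400500c00f604880a03841e711)) (.one (nat_lit 0x200000200300400500c00f604880a05881e711)))) (.br (Nat.shiftLeft (nat_lit 0x1800001) (nat_lit 125)) (.br (Nat.shiftLeft (nat_lit 0x3000001003) (nat_lit 112)) (.one (nat_lit 0x300000100200400500c00f4068c0a03841e711)) (.one (nat_lit 0x300000100300400500c00f6068c0a03841e711))) (.br (Nat.shiftLeft (nat_lit 0x1) (nat_lit 150)) (.one (nat_lit 0x300000200300400500c00f6068c0a05881e711)) (.one (nat_lit 0x400000100200400500c00f408900a03841e711))))))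
def t248 : k248.all (jb2 57 fl b0) = true := by decide +kernel
noncomputable def k249 : KT := (.br (Nat.shiftLeft (nat_lit 0x2000001) (nat_lit 125)) (.one (nat_lit 0x400000100300400500c00f608900a03841e711)) (.br (Nat.shiftLeft (nat_lit 0x5) (nat_lit 148)) (.one (nat_lit 0x400000200300400500c00f608900a05881e711)) (.one (nat_lit 0x500000100200400500c00f40a940a03841e711))))
noncomputable def b250 : BT := .node (nat_lit 0xb) (nat_lit 0x13244eb28a000743e00158c8323149aa705b645442d080073b60011cb80074340011eb8523128aa70400329a0008e5c10026d0026d0026d0026d0026d0026d0026d0026d0020d0020d00151000f0) .leaf .leaf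
def t249 : k249.all (jb2 57 fl b250) = true := by decide +kernel
noncomputable def k250 : KT := (.br (Nat.shiftLeft (nat_lit 0x2800001) (nat_lit 125)) (.one (nat_lit 0x500000100300400500c00f60a940a03841e711)) (.one (nat_lit 0x500000200300400500c00f60a940a05881e711)))
noncomputable def b251 : BT := .node (nat_lit 0x1) (nat_lit 0xde149a150c003299000ad6010008800028) .leaf .leaf
def t250 : k250.all (jb2 57 fl b251) = true := by decide +kernel
noncomputable def k251 : KT := (.br (Nat.shiftLeft (nat_lit 0x6000001003) (nat_lit 112)) (.one (nat_lit 0x600000100200400500c00f40c980a03841e711)) (.one (nat_lit 0x600000100300400500c00f60c980a03841e711)))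
noncomputable def b252 : BT := .node (nat_lit 0x1) (nat_lit 0x6d912f926cdb225da58c0032dd000ab6c0032d9000ac602000e300028) .leaf .leaf
def t251 : k251.all (jb2 57 fl b252) = true := by decide +kernel
noncomputable def k252 : KT := (.br (Nat.shiftLeft (nat_lit 0x7) (nat_lit 148)) (.one (nat_lit 0x600000200300400500c00f60c980a05881e711)) (.one (nat_lit 0x700000100200400500c00f40e9c0a03841e711)))
noncomputable def b253 : BT := .node (nat_lit 0xb) (nat_lit 0x12e897c4be6d936cc97cdb325d93ac003a98002cb700132d8004ab8000ba5a0008c803918a4d9b6693525e13ac00329b000ab64003a5c000ac742002c1002c1001ac001ac001ac001ac001ac001ac001ac001ac000f0000f0) .leaf .leaf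
def t252 : k252.all (jb2 57 fl b253) = true := by decide +kernel
noncomputable def k253 : KT := (.br (Nat.shiftLeft (nat_lit 0x3800001) (nat_lit 125)) (.one (nat_lit 0x700000100300400500c00f60e9c0a03841e711)) (.br (Nat.shiftLeft (nat_lit 0x1) (nat_lit 151)) (.one (nat_lit 0x700000200300400500c00f60e9c0a05881e711)) (.one (nat_lit 0x800000100200400500c00f410a00a03841e711))))
noncomputable def b254 : BT := .node (nat_lit 0x1) (nat_lit 0x24dc9d24ea6d912f897c9626d995c8013a98002ac6c003a980028b8c00ba59002af5430013e00028) .leaf .leaf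
def t253 : k253.all (jb2 57 fl b254) = true := by decide +kernel
noncomputable def k254 : KT := (.br (Nat.shiftLeft (nat_lit 0x9) (nat_lit 148)) (.br (Nat.shiftLeft (nat_lit 0x4000001) (nat_lit 125)) (.one (nat_lit 0x800000100300400500c00f610a00a03841e711)) (.one (nat_lit 0x800000200300400500c00f610a00a05881e711))) (.br (Nat.shiftLeft (nat_lit 0x9000001003) (nat_lit 112)) (.one (nat_lit 0x900000100200400500c00f412a40a03841e711)) (.br (Nat.shiftLeft (nat_lit 0x4800001) (nat_lit 125)) (.one (nat_lit 0x900000100300400500c00f612a40a03841e711)) (.one (nat_lit 0x900000200300400500c00f612a40a05881e711)))))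
def t254 : k254.all (jb2 57 fl b0) = true := by decide +kernel
noncomputable def k255 : KT := (.br (Nat.shiftLeft (nat_lit 0xb000001003) (nat_lit 112)) (.br (Nat.shiftLeft (nat_lit 0x5000001) (nat_lit 125)) (.br (Nat.shiftLeft (nat_lit 0xa000001003) (nat_lit 112)) (.one (nat_lit 0xa00000100200400500c00f414a80a03841e711)) (.one (nat_lit 0xa00000100300400500c00f614a80a03841e711))) (.br (Nat.shiftLeft (nat_lit 0xb) (nat_lit 148)) (.one (nat_lit 0xa00000200300400500c00f614a80a05881e711)) (.one (nat_lit 0xb00000100200400500c00f416ac0a03841e711)))) (.br (Nat.shiftLeft (nat_lit 0x3) (nat_lit 150)) (.br (Nat.shiftLeft (nat_lit 0x5800001) (nat_lit 125)) (.one (nat_lit 0xb00000100300400500c00f616ac0a03841e711)) (.one (nat_lit 0xb00000200300400500c00f616ac0a05881e711))) (.br (Nat.shiftLeft (nat_lit 0xc000001003) (nat_lit 112)) (.one (nat_lit 0xc00000100200400500c00f418b00a03841e711)) (.br (Nat.shiftLeft (nat_lit 0x6000001) (nat_lit 125)) (.one (nat_lit 0xc00000100300400500c00f618b00a03841e711)) (.one (nat_lit 0xc00000200300400500c00f618b00a05881e711))))))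
def t255 : k255.all (jb2 57 fl b0) = true := by decide +kernel
noncomputable def s13 : KT := (.br (nat_lit 0x700000300400500c00f60080ebc1801e611) (.br (nat_lit 0x500000100400500c00f20080ab41801e611) (.br (nat_lit 0xb00000400500c00f000800a17ac1e511) (.br (nat_lit 0x600000400500c00f000800a0d981e511) k232 (.br (nat_lit 0x800000400500c00f000800a11a01e511) k233 k234)) (.br (nat_lit 0x100000300400500c00f600802a41801e611) k235 (.br (nat_lit 0x300000300400500c00f600806ac1801e611) k236 k237))) (.br (nat_lit 0x600000200400500c00f40080cb81801e611) (.br (nat_lit 0x500000300400500c00f60080ab41801e611) k238 (.br (nat_lit 0x600000100400500c00f20080cb81801e611) k239 k240)) (.br (nat_lit 0x600000300400500c00f60080cb81801e611) k241 (.br (nat_lit 0x700000100400500c00f20080ebc1801e611) k242 k243)))) (.br (nat_lit 0x500000100200400500c00f40a940a03841e711) (.br (nat_lit 0x900000200400500c00f400812c41801e611) (.br (nat_lit 0x800000100400500c00f200810c01801e611) k244 (.br (nat_lit 0x800000300400500c00f600810c01801e611) k245 k246)) (.br (nat_lit 0xa00000300400500c00f600814c81801e611)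 k247 (.br (nat_lit 0x400000100200400500c00f408900a03841e711) k248 k249))) (.br (nat_lit 0x700000100200400500c00f40e9c0a03841e711) (.br (nat_lit 0x500000200300400500c00f60a940a05881e711) k250 (.br (nat_lit 0x600000100300400500c00f60c980a03841e711) k251 k252)) (.br (nat_lit 0x800000100200400500c00f410a00a03841e711) k253 (.br (nat_lit 0x900000200300400500c00f612a40a05881e711) k254 k255)))))
noncomputable def u13 : KT := (.one (nat_lit 0x400500c00f000800a01801e540))
def w13 : u13.all (wj 57 s13) = true := by decide +kernel
def o13 : OkW 57 (jb2 57 fl) u13 := .lift s13 _ (.br _ _ _ (.br _ _ _ (.br _ _ _ (.br _ _ _ (.leaf b233 k232 t232) (.br _ _ _ (.leaf b234 k233 t233) (.leaf b0 k234 t234))) (.br _ _ _ (.leaf b0 k235 t235) (.br _ _ _ (.leaf b0 k236 t236) (.leaf b0 k237 t237)))) (.br _ _ _ (.br _ _ _ (.leaf b0 k238 t238) (.br _ _ _ (.leaf b240 k239 t239) (.leaf b241 k240 t240))) (.br _ _ _ (.leaf b0 k241 t241) (.br _ _ _ (.leaf b243 k242 t242) (.leaf b244 k243 t243))))) (.br _ _ _ (.br _ _ _ (.br _ _ _ (.leaf b245 k244 t244) (.br _ _ _ (.leaf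 b246 k245 t245) (.leaf b247 k246 t246))) (.br _ _ _ (.leaf b0 k247 t247) (.br _ _ _ (.leaf b0 k248 t248) (.leaf b250 k249 t249)))) (.br _ _ _ (.br _ _ _ (.leaf b251 k250 t250) (.br _ _ _ (.leaf b252 k251 t251) (.leaf b253 k252 t252))) (.br _ _ _ (.leaf b254 k253 t253) (.br _ _ _ (.leaf b0 k254 t254) (.leaf b0 k255 t255)))))) w13
noncomputable def k256 : KT := (.br (Nat.shiftLeft (nat_lit 0x1003) (nat_lit 112)) (.br (Nat.shiftLeft (nat_lit 0x3) (nat_lit 112)) (.br (Nat.shiftLeft (nat_lit 0x1) (nat_lit 112)) (.one (nat_lit 0x400500c010000800a018021500)) (.br (Nat.shiftLeft (nat_lit 0x1) (nat_lit 113)) (.one (nat_lit 0x100400500c010200800a018021600)) (.one (nat_lit 0x200400500c010400800a018021600)))) (.br (Nat.shiftLeft (nat_lit 0x1) (nat_lit 124)) (.one (nat_lit 0x300400500c010600800a018021600)) (.br (Nat.shiftLeft (nat_lit 0x801) (nat_lit 113)) (.one (nat_lit 0x100000400500c010000800a038420511)) (.one (nat_lit 0x100200400500c010400800a038421700))))) (.br (Nat.shiftLeft (nat_lit 0x3) (nat_lit 124)) (.br (Nat.shiftLeft (nat_lit 0x1) (nat_lit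 125)) (.one (nat_lit 0x100300400500c010600800a038421700)) (.br (Nat.shiftLeft (nat_lit 0x1001) (nat_lit 113)) (.one (nat_lit 0x200000400500c010000800a058820511)) (.one (nat_lit 0x200300400500c010600800a058821700)))) (.br (Nat.shiftLeft (nat_lit 0x5) (nat_lit 124)) (.br (Nat.shiftLeft (nat_lit 0x1) (nat_lit 126)) (.one (nat_lit 0x300000400500c010000800a078c20511)) (.one (nat_lit 0x400000400500c010000800a099020511))) (.br (Nat.shiftLeft (nat_lit 0x3) (nat_lit 125)) (.one (nat_lit 0x500000400500c010000800a0b9420511)) (.one (nat_lit 0x600000400500c010000800a0d9820511))))))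
noncomputable def b257 : BT := .node (nat_lit 0x1) (nat_lit 0x123149b24d4003a980008b6c10008900028) .leaf .leaf
def t256 : k256.all (jb2 57 fl b257) = true := by decide +kernel
noncomputable def k257 : KT := (.br (Nat.shiftLeft (nat_lit 0x1) (nat_lit 127)) (.one (nat_lit 0x700000400500c010000800a0f9c20511)) (.one (nat_lit 0x800000400500c010000800a11a020511)))
noncomputable def b258 : BT := .node (nat_lit 0x1) (nat_lit 0x93627524e00032db000cb6810008800028) .leaf .leaf
def t257 : k257.all (jb2 57 fl b258) = true := by decide +kernel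
noncomputable def k258 : KT := (.br (Nat.shiftLeft (nat_lit 0x3) (nat_lit 126)) (.br (Nat.shiftLeft (nat_lit 0x5) (nat_lit 125)) (.one (nat_lit 0x900000400500c010000800a13a420511)) (.br (Nat.shiftLeft (nat_lit 0xb) (nat_lit 124)) (.one (nat_lit 0xa00000400500c010000800a15a820511)) (.one (nat_lit 0xb00000400500c010000800a17ac20511)))) (.br (Nat.shiftLeft (nat_lit 0x800001) (nat_lit 113)) (.br (Nat.shiftLeft (nat_lit 0x1) (nat_lit 136)) (.one (nat_lit 0xc00000400500c010000800a19b020511)) (.one (nat_lit 0x100000100400500c010200802a418020611))) (.br (Nat.shiftLeft (nat_lit 0x1000003) (nat_lit 112)) (.one (nat_lit 0x100000200400500c010400802a418020611)) (.one (nat_lit 0x100000300400500c010600802a418020611)))))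
noncomputable def b259 : BT := .node (nat_lit 0x3) (nat_lit 0x9636d9a4e0003a98000cb641db325e12f80032d9000aa8c1db36d992f80032d8000aa8c10017000110000b000050) .leaf .leaf
def t258 : k258.all (jb2 57 fl b259) = true := by decide +kernel
noncomputable def k259 : KT := (.br (Nat.shiftLeft (nat_lit 0x3) (nat_lit 136)) (.br (Nat.shiftLeft (nat_lit 0x1000001) (nat_lit 113)) (.br (Nat.shiftLeft (nat_lit 0x1) (nat_lit 137)) (.one (nat_lit 0x100200300400500c010600802a458820870)) (.one (nat_lit 0x200000100400500c010200804a818020611))) (.br (Nat.shiftLeft (nat_lit 0x2000003) (nat_lit 112)) (.one (nat_lit 0x200000200400500c010400804a818020611)) (.one (nat_lit 0x200000300400500c010600804a818020611)))) (.br (Nat.shiftLeft (nat_lit 0x3000003) (nat_lit 112)) (.br (Nat.shiftLeft (nat_lit 0x1800001) (nat_lit 113)) (.one (nat_lit 0x300000100400500c010200806ac18020611)) (.one (nat_lit 0x300000200400500c010400806ac18020611))) (.br (Nat.shiftLeft (nat_lit 0x1) (nat_lit 138)) (.one (nat_lit 0x300000300400500c010600806ac18020611)) (.br (Nat.shiftLeft (nat_lit 0x2000001)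 (nat_lit 113)) (.one (nat_lit 0x400000100400500c010200808b018020611)) (.one (nat_lit 0x400000200400500c010400808b018020611))))))
def t259 : k259.all (jb2 57 fl b0) = true := by decide +kernel
noncomputable def k260 : KT := (.br (Nat.shiftLeft (nat_lit 0x5) (nat_lit 136)) (.one (nat_lit 0x400000300400500c010600808b018020611)) (.br (Nat.shiftLeft (nat_lit 0x2800001) (nat_lit 113)) (.one (nat_lit 0x500000100400500c01020080ab418020611)) (.one (nat_lit 0x500000200400500c01040080ab418020611))))
def t260 : k260.all (jb2 57 fl b0) = true := by decide +kernel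
noncomputable def k261 : KT := (.br (Nat.shiftLeft (nat_lit 0x3) (nat_lit 137)) (.one (nat_lit 0x500000300400500c01060080ab418020611)) (.one (nat_lit 0x600000100400500c01020080cb818020611)))
def t261 : k261.all (jb2 57 fl b0) = true := by decide +kernel
noncomputable def k262 : KT := (.br (Nat.shiftLeft (nat_lit 0x6000003) (nat_lit 112)) (.one (nat_lit 0x600000200400500c01040080cb818020611)) (.one (nat_lit 0x600000300400500c01060080cb818020611)))
def t262 : k262.all (jb2 57 fl b0) = true := by decide +kernel
noncomputable def k263 : KT := (.br (Nat.shiftLeft (nat_lit 0x3800001) (nat_lit 113)) (.one (nat_lit 0x700000100400500c01020080ebc18020611)) (.one (nat_lit 0x700000200400500c01040080ebc18020611)))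
def t263 : k263.all (jb2 57 fl b0) = true := by decide +kernel
noncomputable def k264 : KT := (.br (Nat.shiftLeft (nat_lit 0x1) (nat_lit 139)) (.one (nat_lit 0x700000300400500c01060080ebc18020611)) (.one (nat_lit 0x800000100400500c010200810c018020611)))
noncomputable def b265 : BT := .node (nat_lit 0x1) (nat_lit 0x4b192f9270db325f14540032db000ca74003a5e0008d682000e300028) .leaf .leaf
def t264 : k264.all (jb2 57 fl b265) = true := by decide +kernel
noncomputable def k265 : KT := (.br (Nat.shiftLeft (nat_lit 0x8000003) (nat_lit 112)) (.one (nat_lit 0x800000200400500c010400810c018020611)) (.br (Nat.shiftLeft (nat_lit 0x9) (nat_lit 136)) (.one (nat_lit 0x800000300400500c010600810c018020611)) (.one (nat_lit 0x900000100400500c010200812c418020611))))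
noncomputable def b266 : BT := .node (nat_lit 0x11) (nat_lit 0xdb2274950c0032d8000ae581db325fa58c003264000ac6010022800228002280022800228002280022800228002280022800228001c8001c80016800168001680016800168) .leaf .leaf
def t265 : k265.all (jb2 57 fl b266) = true := by decide +kernel
noncomputable def k266 : KT := (.br (Nat.shiftLeft (nat_lit 0x5) (nat_lit 137)) (.br (Nat.shiftLeft (nat_lit 0x9000003) (nat_lit 112)) (.one (nat_lit 0x900000200400500c010400812c418020611)) (.one (nat_lit 0x900000300400500c010600812c418020611))) (.br (Nat.shiftLeft (nat_lit 0x5000001) (nat_lit 113)) (.one (nat_lit 0xa00000100400500c010200814c818020611)) (.br (Nat.shiftLeft (nat_lit 0xa000003) (nat_lit 112)) (.one (nat_lit 0xa00000200400500c010400814c818020611)) (.one (nat_lit 0xa00000300400500c010600814c818020611)))))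
def t266 : k266.all (jb2 57 fl b0) = true := by decide +kernel
noncomputable def k267 : KT := (.br (Nat.shiftLeft (nat_lit 0x1) (nat_lit 149)) (.br (Nat.shiftLeft (nat_lit 0x6000001) (nat_lit 113)) (.br (Nat.shiftLeft (nat_lit 0xb000003) (nat_lit 112)) (.br (Nat.shiftLeft (nat_lit 0x5800001) (nat_lit 113)) (.one (nat_lit 0xb00000100400500c010200816cc18020611)) (.one (nat_lit 0xb00000200400500c010400816cc18020611))) (.br (Nat.shiftLeft (nat_lit 0x3) (nat_lit 138)) (.one (nat_lit 0xb00000300400500c010600816cc18020611)) (.one (nat_lit 0xc00000100400500c010200818d018020611)))) (.br (Nat.shiftLeft (nat_lit 0x1) (nat_lit 148)) (.br (Nat.shiftLeft (nat_lit 0xc000003) (nat_lit 112)) (.one (nat_lit 0xc00000200400500c010400818d018020611)) (.one (nat_lit 0xc00000300400500c010600818d018020611))) (.br (Nat.shiftLeft (nat_lit 0x1000001003) (nat_lit 112)) (.one (nat_lit 0x100000100200400500c010402840a038420711)) (.br (Nat.shiftLeft (nat_lit 0x800001) (nat_lit 125)) (.one (nat_lit 0x100000100300400500c010602840a038420711)) (.one (nat_lit 0x100000200300400500c010602840a058820711))))))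 (.br (Nat.shiftLeft (nat_lit 0x3000001003) (nat_lit 112)) (.br (Nat.shiftLeft (nat_lit 0x1000001) (nat_lit 125)) (.br (Nat.shiftLeft (nat_lit 0x2000001003) (nat_lit 112)) (.one (nat_lit 0x200000100200400500c010404880a038420711)) (.one (nat_lit 0x200000100300400500c010604880a038420711))) (.br (Nat.shiftLeft (nat_lit 0x3) (nat_lit 148)) (.one (nat_lit 0x200000200300400500c010604880a058820711)) (.one (nat_lit 0x300000100200400500c0104068c0a038420711)))) (.br (Nat.shiftLeft (nat_lit 0x1) (nat_lit 150)) (.br (Nat.shiftLeft (nat_lit 0x1800001) (nat_lit 125)) (.one (nat_lit 0x300000100300400500c0106068c0a038420711)) (.one (nat_lit 0x300000200300400500c0106068c0a058820711))) (.br (Nat.shiftLeft (nat_lit 0x4000001003) (nat_lit 112)) (.one (nat_lit 0x400000100200400500c010408900a038420711)) (.br (Nat.shiftLeft (nat_lit 0x2000001) (nat_lit 125)) (.one (nat_lit 0x400000100300400500c010608900a038420711)) (.one (nat_lit 0x400000200300400500c010608900a058820711)))))))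
def t267 : k267.all (jb2 57 fl b0) = true := by decide +kernel
noncomputable def k268 : KT := (.br (Nat.shiftLeft (nat_lit 0x5000001003) (nat_lit 112)) (.one (nat_lit 0x500000100200400500c01040a940a038420711)) (.br (Nat.shiftLeft (nat_lit 0x2800001) (nat_lit 125)) (.one (nat_lit 0x500000100300400500c01060a940a038420711)) (.one (nat_lit 0x500000200300400500c01060a940a058820711))))
def t268 : k268.all (jb2 57 fl b0) = true := by decide +kernel
noncomputable def k269 : KT := (.br (Nat.shiftLeft (nat_lit 0x6000001003) (nat_lit 112)) (.one (nat_lit 0x600000100200400500c01040c980a038420711)) (.br (Nat.shiftLeft (nat_lit 0x3000001) (nat_lit 125)) (.one (nat_lit 0x600000100300400500c01060c980a038420711)) (.one (nat_lit 0x600000200300400500c01060c980a058820711))))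
def t269 : k269.all (jb2 57 fl b0) = true := by decide +kernel
noncomputable def k270 : KT := (.br (Nat.shiftLeft (nat_lit 0x3800001) (nat_lit 125)) (.br (Nat.shiftLeft (nat_lit 0x7000001003) (nat_lit 112)) (.one (nat_lit 0x700000100200400500c01040e9c0a038420711)) (.one (nat_lit 0x700000100300400500c01060e9c0a038420711))) (.br (Nat.shiftLeft (nat_lit 0x1) (nat_lit 151)) (.one (nat_lit 0x700000200300400500c01060e9c0a058820711)) (.one (nat_lit 0x800000100200400500c010410a00a038420711))))
def t270 : k270.all (jb2 57 fl b0) = true := by decide +kernel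
noncomputable def k271 : KT := (.br (Nat.shiftLeft (nat_lit 0x4800001) (nat_lit 125)) (.br (Nat.shiftLeft (nat_lit 0x9) (nat_lit 148)) (.br (Nat.shiftLeft (nat_lit 0x4000001) (nat_lit 125)) (.one (nat_lit 0x800000100300400500c010610a00a038420711)) (.one (nat_lit 0x800000200300400500c010610a00a058820711))) (.br (Nat.shiftLeft (nat_lit 0x9000001003) (nat_lit 112)) (.one (nat_lit 0x900000100200400500c010412a40a038420711)) (.one (nat_lit 0x900000100300400500c010612a40a038420711)))) (.br (Nat.shiftLeft (nat_lit 0xa000001003) (nat_lit 112)) (.br (Nat.shiftLeft (nat_lit 0x5) (nat_lit 149)) (.one (nat_lit 0x900000200300400500c010612a40a058820711)) (.one (nat_lit 0xa00000100200400500c010414a80a038420711))) (.br (Nat.shiftLeft (nat_lit 0x5000001) (nat_lit 125)) (.one (nat_lit 0xa00000100300400500c010614a80a038420711)) (.br (Nat.shiftLeft (nat_lit 0xb) (nat_lit 148)) (.one (nat_lit 0xa00000200300400500c010614a80a058820711)) (.one (nat_lit 0xb00000100200400500c010416ac0a038420711))))))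
def t271 : k271.all (jb2 57 fl b0) = true := by decide +kernel
noncomputable def k272 : KT := (.br (Nat.shiftLeft (nat_lit 0x3) (nat_lit 150)) (.br (Nat.shiftLeft (nat_lit 0x5800001) (nat_lit 125)) (.one (nat_lit 0xb00000100300400500c010616ac0a038420711)) (.one (nat_lit 0xb00000200300400500c010616ac0a058820711))) (.br (Nat.shiftLeft (nat_lit 0xc000001003) (nat_lit 112)) (.one (nat_lit 0xc00000100200400500c010418b00a038420711)) (.br (Nat.shiftLeft (nat_lit 0x6000001) (nat_lit 125)) (.one (nat_lit 0xc00000100300400500c010618b00a038420711)) (.one (nat_lit 0xc00000200300400500c010618b00a058820711)))))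
def t272 : k272.all (jb2 57 fl b0) = true := by decide +kernel
noncomputable def s14 : KT := (.br (nat_lit 0x700000200400500c01040080ebc18020611) (.br (nat_lit 0x400000200400500c010400808b018020611) (.br (nat_lit 0x800000400500c010000800a11a020511) (.br (nat_lit 0x600000400500c010000800a0d9820511) k256 k257) (.br (nat_lit 0x100000300400500c010600802a418020611) k258 k259)) (.br (nat_lit 0x600000100400500c01020080cb818020611) (.br (nat_lit 0x500000200400500c01040080ab418020611) k260 k261) (.br (nat_lit 0x600000300400500c01060080cb818020611) k262 k263))) (.br (nat_lit 0x400000200300400500c010608900a058820711) (.br (nat_lit 0x900000100400500c010200812c418020611) (.br (nat_lit 0x800000100400500c010200810c018020611) k264 k265) (.br (nat_lit 0xa00000300400500c010600814c818020611) k266 k267)) (.br (nat_lit 0x600000200300400500c01060c980a058820711) (.br (nat_lit 0x500000200300400500c01060a940a058820711) k268 k269) (.br (nat_lit 0x800000100200400500c010410a00a038420711) k270 (.br (nat_lit 0xb00000100200400500c010416ac0a038420711) k271 k272)))))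
noncomputable def u14 : KT := (.one (nat_lit 0x400500c010000800a018020540))
def w14 : u14.all (wj 57 s14) = true := by decide +kernel
def o14 : OkW 57 (jb2 57 fl) u14 := .lift s14 _ (.br _ _ _ (.br _ _ _ (.br _ _ _ (.br _ _ _ (.leaf b257 k256 t256) (.leaf b258 k257 t257)) (.br _ _ _ (.leaf b259 k258 t258) (.leaf b0 k259 t259))) (.br _ _ _ (.br _ _ _ (.leaf b0 k260 t260) (.leaf b0 k261 t261)) (.br _ _ _ (.leaf b0 k262 t262) (.leaf b0 k263 t263)))) (.br _ _ _ (.br _ _ _ (.br _ _ _ (.leaf b265 k264 t264) (.leaf b266 k265 t265)) (.br _ _ _ (.leaf b0 k266 t266) (.leaf b0 k267 t267))) (.br _ _ _ (.br _ _ _ (.leaf b0 k268 t268) (.leaf b0 k269 t269)) (.br _ _ _ (.leaf b0 k270 t270) (.br _ _ _ (.leaf b0 k271 t271) (.leaf b0 k272 t272)))))) w14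
noncomputable def k273 : KT := (.br (Nat.shiftLeft (nat_lit 0x1002002806009) (nat_lit 65)) (.br (Nat.shiftLeft (nat_lit 0x1) (nat_lit 112)) (.br (Nat.shiftLeft (nat_lit 0x2002806009) (nat_lit 65)) (.one (nat_lit 0x400500c011000800a018023500)) (.one (nat_lit 0x400500c012000800a018025500))) (.br (Nat.shiftLeft (nat_lit 0x802002806009) (nat_lit 65)) (.one (nat_lit 0x100400500c011200800a018023600)) (.br (Nat.shiftLeft (nat_lit 0x1) (nat_lit 113)) (.one (nat_lit 0x100400500c012200800a018025600)) (.one (nat_lit 0x200400500c011400800a018023600))))) (.br (Nat.shiftLeft (nat_lit 0x1) (nat_lit 124)) (.br (Nat.shiftLeft (nat_lit 0x3) (nat_lit 112)) (.one (nat_lit 0x200400500c012400800a018025600)) (.br (Nat.shiftLeft (nat_lit 0x1802002806009) (nat_lit 65)) (.one (nat_lit 0x300400500c011600800a018023600)) (.one (nat_lit 0x300400500c012600800a018025600)))) (.br (Nat.shiftLeft (nat_lit 0x800002002806009) (nat_lit 65)) (.one (nat_lit 0x100000400500c011000800a038422511)) (.br (Nat.shiftLeft (nat_lit 0x801) (nat_lit 113)) (.one (nat_lit 0x100000400500c012000800a038424511))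 (.one (nat_lit 0x100200400500c011400800a038423700))))))
def t273 : k273.all (jb2 57 fl b0) = true := by decide +kernel
noncomputable def k274 : KT := (.one (nat_lit 0x100200400500c012400800a038424760))
def t274 : k274.all (jb2 57 fl b0) = true := by decide +kernel
noncomputable def k275 : KT := (.one (nat_lit 0x100300400500c011600800a038422760))
def t275 : k275.all (jb2 57 fl b0) = true := by decide +kernel
noncomputable def k276 : KT := (.br (Nat.shiftLeft (nat_lit 0x1000002002806009) (nat_lit 65)) (.br (Nat.shiftLeft (nat_lit 0x1) (nat_lit 125)) (.one (nat_lit 0x100300400500c012600800a038424760)) (.one (nat_lit 0x200000400500c011000800a058822511))) (.br (Nat.shiftLeft (nat_lit 0x1001) (nat_lit 113)) (.one (nat_lit 0x200000400500c012000800a058824511)) (.one (nat_lit 0x200300400500c011600800a058823700))))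
def t276 : k276.all (jb2 57 fl b0) = true := by decide +kernel
noncomputable def k277 : KT := (.br (Nat.shiftLeft (nat_lit 0x1800002002806009) (nat_lit 65)) (.br (Nat.shiftLeft (nat_lit 0x3) (nat_lit 124)) (.one (nat_lit 0x200300400500c012600800a058824760)) (.one (nat_lit 0x300000400500c011000800a078c22511))) (.br (Nat.shiftLeft (nat_lit 0x1) (nat_lit 126)) (.one (nat_lit 0x300000400500c012000800a078c24511)) (.br (Nat.shiftLeft (nat_lit 0x2000002002806009) (nat_lit 65)) (.one (nat_lit 0x400000400500c011000800a099022511)) (.one (nat_lit 0x400000400500c012000800a099024511)))))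
def t277 : k277.all (jb2 57 fl b0) = true := by decide +kernel
noncomputable def k278 : KT := (.br (Nat.shiftLeft (nat_lit 0x3) (nat_lit 125)) (.br (Nat.shiftLeft (nat_lit 0x2800002002806009) (nat_lit 65)) (.one (nat_lit 0x500000400500c011000800a0b9422511)) (.one (nat_lit 0x500000400500c012000800a0b9424511))) (.br (Nat.shiftLeft (nat_lit 0x3000002002806009) (nat_lit 65)) (.one (nat_lit 0x600000400500c011000800a0d9822511)) (.one (nat_lit 0x600000400500c012000800a0d9824511))))
def t278 : k278.all (jb2 57 fl b0) = true := by decide +kernel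
noncomputable def k279 : KT := (.br (Nat.shiftLeft (nat_lit 0x3800002002806009) (nat_lit 65)) (.one (nat_lit 0x700000400500c011000800a0f9c22511)) (.br (Nat.shiftLeft (nat_lit 0x1) (nat_lit 127)) (.one (nat_lit 0x700000400500c012000800a0f9c24511)) (.one (nat_lit 0x800000400500c011000800a11a022511))))
def t279 : k279.all (jb2 57 fl b0) = true := by decide +kernel
noncomputable def k280 : KT := (.br (Nat.shiftLeft (nat_lit 0x4800002002806009) (nat_lit 65)) (.br (Nat.shiftLeft (nat_lit 0x9) (nat_lit 124)) (.one (nat_lit 0x800000400500c012000800a11a024511)) (.one (nat_lit 0x900000400500c011000800a13a422511))) (.br (Nat.shiftLeft (nat_lit 0x5) (nat_lit 125)) (.one (nat_lit 0x900000400500c012000800a13a424511)) (.one (nat_lit 0xa00000400500c011000800a15a822511))))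
noncomputable def b281 : BT := .node (nat_lit 0xb) (nat_lit 0x2a11300a28001cf280065b20cb19300a84001cf300056ae0cb1a4e4a284bc49c13ac003a5e000cb64003a98000cb6c20026a0020b0020b0020b0020b0020b0020b001ab001ab001ab001ab000f0) .leaf .leaf
def t280 : k280.all (jb2 57 fl b281) = true := by decide +kernel
noncomputable def k281 : KT := (.br (Nat.shiftLeft (nat_lit 0x800001) (nat_lit 113)) (.br (Nat.shiftLeft (nat_lit 0x3) (nat_lit 126)) (.br (Nat.shiftLeft (nat_lit 0xb) (nat_lit 124)) (.one (nat_lit 0xa00000400500c012000800a15a824511)) (.br (Nat.shiftLeft (nat_lit 0x5800002002806009) (nat_lit 65)) (.one (nat_lit 0xb00000400500c011000800a17ac22511)) (.one (nat_lit 0xb00000400500c012000800a17ac24511)))) (.br (Nat.shiftLeft (nat_lit 0x1) (nat_lit 136)) (.br (Nat.shiftLeft (nat_lit 0x6000002002806009) (nat_lit 65)) (.one (nat_lit 0xc00000400500c011000800a19b022511)) (.one (nat_lit 0xc00000400500c012000800a19b024511))) (.br (Nat.shiftLeft (nat_lit 0x800000802002806009) (nat_lit 65)) (.one (nat_lit 0x100000100400500c011200802a418022611)) (.one (nat_lit 0x100000100400500c012200802a418024611)))))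 (.br (Nat.shiftLeft (nat_lit 0x801) (nat_lit 125)) (.br (Nat.shiftLeft (nat_lit 0x1000003) (nat_lit 112)) (.br (Nat.shiftLeft (nat_lit 0x800001002002806009) (nat_lit 65)) (.one (nat_lit 0x100000200400500c011400802a418022611)) (.one (nat_lit 0x100000200400500c012400802a418024611))) (.br (Nat.shiftLeft (nat_lit 0x800001802002806009) (nat_lit 65)) (.one (nat_lit 0x100000300400500c011600802a418022611)) (.one (nat_lit 0x100000300400500c012600802a418024611)))) (.br (Nat.shiftLeft (nat_lit 0x1000000802002806009) (nat_lit 65)) (.br (Nat.shiftLeft (nat_lit 0x1) (nat_lit 137)) (.one (nat_lit 0x100200300400500c011600802a458822870)) (.one (nat_lit 0x200000100400500c011200804a818022611))) (.br (Nat.shiftLeft (nat_lit 0x1000001) (nat_lit 113)) (.one (nat_lit 0x200000100400500c012200804a818024611)) (.one (nat_lit 0x200000200400500c011400804a818022611))))))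
def t281 : k281.all (jb2 57 fl b0) = true := by decide +kernel
noncomputable def k282 : KT := (.br (Nat.shiftLeft (nat_lit 0x3000003) (nat_lit 112)) (.br (Nat.shiftLeft (nat_lit 0x3) (nat_lit 136)) (.br (Nat.shiftLeft (nat_lit 0x2000003) (nat_lit 112)) (.one (nat_lit 0x200000200400500c012400804a818024611)) (.br (Nat.shiftLeft (nat_lit 0x1000001802002806009) (nat_lit 65)) (.one (nat_lit 0x200000300400500c011600804a818022611)) (.one (nat_lit 0x200000300400500c012600804a818024611)))) (.br (Nat.shiftLeft (nat_lit 0x1800001) (nat_lit 113)) (.br (Nat.shiftLeft (nat_lit 0x1800000802002806009) (nat_lit 65)) (.one (nat_lit 0x300000100400500c011200806ac18022611)) (.one (nat_lit 0x300000100400500c012200806ac18024611))) (.br (Nat.shiftLeft (nat_lit 0x1800001002002806009) (nat_lit 65)) (.one (nat_lit 0x300000200400500c011400806ac18022611)) (.one (nat_lit 0x300000200400500c012400806ac18024611))))) (.br (Nat.shiftLeft (nat_lit 0x2000001) (nat_lit 113)) (.br (Nat.shiftLeft (nat_lit 0x1) (nat_lit 138)) (.br (Nat.shiftLeft (nat_lit 0x1800001802002806009)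 (nat_lit 65)) (.one (nat_lit 0x300000300400500c011600806ac18022611)) (.one (nat_lit 0x300000300400500c012600806ac18024611))) (.br (Nat.shiftLeft (nat_lit 0x2000000802002806009) (nat_lit 65)) (.one (nat_lit 0x400000100400500c011200808b018022611)) (.one (nat_lit 0x400000100400500c012200808b018024611)))) (.br (Nat.shiftLeft (nat_lit 0x4000003) (nat_lit 112)) (.br (Nat.shiftLeft (nat_lit 0x2000001002002806009) (nat_lit 65)) (.one (nat_lit 0x400000200400500c011400808b018022611)) (.one (nat_lit 0x400000200400500c012400808b018024611))) (.br (Nat.shiftLeft (nat_lit 0x2000001802002806009) (nat_lit 65)) (.one (nat_lit 0x400000300400500c011600808b018022611)) (.one (nat_lit 0x400000300400500c012600808b018024611))))))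
def t282 : k282.all (jb2 57 fl b0) = true := by decide +kernel
noncomputable def k283 : KT := (.br (Nat.shiftLeft (nat_lit 0x2800000802002806009) (nat_lit 65)) (.one (nat_lit 0x500000100400500c01120080ab418022611)) (.br (Nat.shiftLeft (nat_lit 0x2800001) (nat_lit 113)) (.one (nat_lit 0x500000100400500c01220080ab418024611)) (.one (nat_lit 0x500000200400500c01140080ab418022611))))
def t283 : k283.all (jb2 57 fl b0) = true := by decide +kernel
noncomputable def k284 : KT := (.br (Nat.shiftLeft (nat_lit 0x5000003) (nat_lit 112)) (.one (nat_lit 0x500000200400500c01240080ab418024611)) (.br (Nat.shiftLeft (nat_lit 0x2800001802002806009) (nat_lit 65)) (.one (nat_lit 0x500000300400500c01160080ab418022611)) (.one (nat_lit 0x500000300400500c01260080ab418024611))))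
def t284 : k284.all (jb2 57 fl b0) = true := by decide +kernel
noncomputable def k285 : KT := (.br (Nat.shiftLeft (nat_lit 0x3000000802002806009) (nat_lit 65)) (.one (nat_lit 0x600000100400500c01120080cb818022611)) (.one (nat_lit 0x600000100400500c01220080cb818024611)))
def t285 : k285.all (jb2 57 fl b0) = true := by decide +kernel
noncomputable def k286 : KT := (.br (Nat.shiftLeft (nat_lit 0x3000001002002806009) (nat_lit 65)) (.one (nat_lit 0x600000200400500c01140080cb818022611)) (.br (Nat.shiftLeft (nat_lit 0x6000003) (nat_lit 112)) (.one (nat_lit 0x600000200400500c01240080cb818024611)) (.one (nat_lit 0x600000300400500c01160080cb818022611))))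
def t286 : k286.all (jb2 57 fl b0) = true := by decide +kernel
noncomputable def k287 : KT := (.br (Nat.shiftLeft (nat_lit 0x7) (nat_lit 136)) (.one (nat_lit 0x600000300400500c01260080cb818024611)) (.br (Nat.shiftLeft (nat_lit 0x3800000802002806009) (nat_lit 65)) (.one (nat_lit 0x700000100400500c01120080ebc18022611)) (.one (nat_lit 0x700000100400500c01220080ebc18024611))))
def t287 : k287.all (jb2 57 fl b0) = true := by decide +kernel
noncomputable def k288 : KT := (.br (Nat.shiftLeft (nat_lit 0x7000003) (nat_lit 112)) (.br (Nat.shiftLeft (nat_lit 0x3800001002002806009) (nat_lit 65)) (.one (nat_lit 0x700000200400500c01140080ebc18022611)) (.one (nat_lit 0x700000200400500c01240080ebc18024611))) (.br (Nat.shiftLeft (nat_lit 0x3800001802002806009) (nat_lit 65)) (.one (nat_lit 0x700000300400500c01160080ebc18022611)) (.one (nat_lit 0x700000300400500c01260080ebc18024611))))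
def t288 : k288.all (jb2 57 fl b0) = true := by decide +kernel
noncomputable def k289 : KT := (.br (Nat.shiftLeft (nat_lit 0x4000000802002806009) (nat_lit 65)) (.one (nat_lit 0x800000100400500c011200810c018022611)) (.br (Nat.shiftLeft (nat_lit 0x4000001) (nat_lit 113)) (.one (nat_lit 0x800000100400500c012200810c018024611)) (.one (nat_lit 0x800000200400500c011400810c018022611))))
def t289 : k289.all (jb2 57 fl b0) = true := by decide +kernel
noncomputable def k290 : KT := (.br (Nat.shiftLeft (nat_lit 0x4000001802002806009) (nat_lit 65)) (.br (Nat.shiftLeft (nat_lit 0x8000003) (nat_lit 112)) (.one (nat_lit 0x800000200400500c012400810c018024611)) (.one (nat_lit 0x800000300400500c011600810c018022611))) (.br (Nat.shiftLeft (nat_lit 0x9) (nat_lit 136)) (.one (nat_lit 0x800000300400500c012600810c018024611)) (.br (Nat.shiftLeft (nat_lit 0x4800000802002806009) (nat_lit 65)) (.one (nat_lit 0x900000100400500c011200812c418022611)) (.one (nat_lit 0x900000100400500c012200812c418024611)))))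
def t290 : k290.all (jb2 57 fl b0) = true := by decide +kernel
noncomputable def k291 : KT := (.br (Nat.shiftLeft (nat_lit 0x4800001802002806009) (nat_lit 65)) (.br (Nat.shiftLeft (nat_lit 0x4800001002002806009) (nat_lit 65)) (.one (nat_lit 0x900000200400500c011400812c418022611)) (.br (Nat.shiftLeft (nat_lit 0x9000003) (nat_lit 112)) (.one (nat_lit 0x900000200400500c012400812c418024611)) (.one (nat_lit 0x900000300400500c011600812c418022611)))) (.br (Nat.shiftLeft (nat_lit 0x5000000802002806009) (nat_lit 65)) (.br (Nat.shiftLeft (nat_lit 0x5) (nat_lit 137)) (.one (nat_lit 0x900000300400500c012600812c418024611)) (.one (nat_lit 0xa00000100400500c011200814c818022611))) (.br (Nat.shiftLeft (nat_lit 0x5000001) (nat_lit 113)) (.one (nat_lit 0xa00000100400500c012200814c818024611)) (.one (nat_lit 0xa00000200400500c011400814c818022611)))))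
def t291 : k291.all (jb2 57 fl b0) = true := by decide +kernel
noncomputable def k292 : KT := (.br (Nat.shiftLeft (nat_lit 0x6000001) (nat_lit 113)) (.br (Nat.shiftLeft (nat_lit 0x5800001) (nat_lit 113)) (.br (Nat.shiftLeft (nat_lit 0x5000001802002806009) (nat_lit 65)) (.br (Nat.shiftLeft (nat_lit 0xa000003) (nat_lit 112)) (.one (nat_lit 0xa00000200400500c012400814c818024611)) (.one (nat_lit 0xa00000300400500c011600814c818022611))) (.br (Nat.shiftLeft (nat_lit 0xb) (nat_lit 136)) (.one (nat_lit 0xa00000300400500c012600814c818024611)) (.br (Nat.shiftLeft (nat_lit 0x5800000802002806009) (nat_lit 65)) (.one (nat_lit 0xb00000100400500c011200816cc18022611)) (.one (nat_lit 0xb00000100400500c012200816cc18024611))))) (.br (Nat.shiftLeft (nat_lit 0x5800001802002806009) (nat_lit 65)) (.br (Nat.shiftLeft (nat_lit 0x5800001002002806009) (nat_lit 65)) (.one (nat_lit 0xb00000200400500c011400816cc18022611)) (.br (Nat.shiftLeft (nat_lit 0xb000003) (nat_lit 112)) (.one (nat_lit 0xb00000200400500c012400816cc18024611)) (.one (nat_lit 0xb00000300400500c011600816cc18022611))))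 (.br (Nat.shiftLeft (nat_lit 0x3) (nat_lit 138)) (.one (nat_lit 0xb00000300400500c012600816cc18024611)) (.br (Nat.shiftLeft (nat_lit 0x6000000802002806009) (nat_lit 65)) (.one (nat_lit 0xc00000100400500c011200818d018022611)) (.one (nat_lit 0xc00000100400500c012200818d018024611)))))) (.br (Nat.shiftLeft (nat_lit 0x800001) (nat_lit 125)) (.br (Nat.shiftLeft (nat_lit 0xc000003) (nat_lit 112)) (.br (Nat.shiftLeft (nat_lit 0x6000001002002806009) (nat_lit 65)) (.one (nat_lit 0xc00000200400500c011400818d018022611)) (.one (nat_lit 0xc00000200400500c012400818d018024611))) (.br (Nat.shiftLeft (nat_lit 0x6000001802002806009) (nat_lit 65)) (.one (nat_lit 0xc00000300400500c011600818d018022611)) (.br (Nat.shiftLeft (nat_lit 0x1) (nat_lit 148)) (.one (nat_lit 0xc00000300400500c012600818d018024611)) (.one (nat_lit 0x100000100200400500c011402840a038422711))))) (.br (Nat.shiftLeft (nat_lit 0x3) (nat_lit 148)) (.br (Nat.shiftLeft (nat_lit 0x1) (nat_lit 149)) (.one (nat_lit 0x100000200300400500c011602840a058822711)) (.br (Nat.shiftLeft (nat_lit 0x1000001) (nat_lit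 125)) (.one (nat_lit 0x200000100200400500c011404880a038422711)) (.one (nat_lit 0x200000200300400500c011604880a058822711)))) (.br (Nat.shiftLeft (nat_lit 0x1800001) (nat_lit 125)) (.one (nat_lit 0x300000100200400500c0114068c0a038422711)) (.br (Nat.shiftLeft (nat_lit 0x1) (nat_lit 150)) (.one (nat_lit 0x300000200300400500c0116068c0a058822711)) (.one (nat_lit 0x400000100200400500c011408900a038422711)))))))
def t292 : k292.all (jb2 57 fl b0) = true := by decide +kernel
noncomputable def k293 : KT := (.br (Nat.shiftLeft (nat_lit 0x2800001) (nat_lit 125)) (.br (Nat.shiftLeft (nat_lit 0x5) (nat_lit 148)) (.one (nat_lit 0x400000200300400500c011608900a058822711)) (.one (nat_lit 0x500000100200400500c01140a940a038422711))) (.br (Nat.shiftLeft (nat_lit 0x3) (nat_lit 149)) (.one (nat_lit 0x500000200300400500c01160a940a058822711)) (.br (Nat.shiftLeft (nat_lit 0x3000001) (nat_lit 125)) (.one (nat_lit 0x600000100200400500c01140c980a038422711)) (.one (nat_lit 0x600000200300400500c01160c980a058822711)))))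
def t293 : k293.all (jb2 57 fl b0) = true := by decide +kernel
noncomputable def k294 : KT := (.br (Nat.shiftLeft (nat_lit 0x5) (nat_lit 149)) (.br (Nat.shiftLeft (nat_lit 0x4000001) (nat_lit 125)) (.br (Nat.shiftLeft (nat_lit 0x3800001) (nat_lit 125)) (.one (nat_lit 0x700000100200400500c01140e9c0a038422711)) (.br (Nat.shiftLeft (nat_lit 0x1) (nat_lit 151)) (.one (nat_lit 0x700000200300400500c01160e9c0a058822711)) (.one (nat_lit 0x800000100200400500c011410a00a038422711)))) (.br (Nat.shiftLeft (nat_lit 0x9) (nat_lit 148)) (.one (nat_lit 0x800000200300400500c011610a00a058822711)) (.br (Nat.shiftLeft (nat_lit 0x4800001) (nat_lit 125)) (.one (nat_lit 0x900000100200400500c011412a40a038422711)) (.one (nat_lit 0x900000200300400500c011612a40a058822711))))) (.br (Nat.shiftLeft (nat_lit 0x5800001) (nat_lit 125)) (.br (Nat.shiftLeft (nat_lit 0x5000001) (nat_lit 125)) (.one (nat_lit 0xa00000100200400500c011414a80a038422711)) (.br (Nat.shiftLeft (nat_lit 0xb) (nat_lit 148)) (.one (nat_lit 0xa00000200300400500c011614a80a058822711)) (.one (nat_lit 0xb00000100200400500c011416ac0a038422711))))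 (.br (Nat.shiftLeft (nat_lit 0x3) (nat_lit 150)) (.one (nat_lit 0xb00000200300400500c011616ac0a058822711)) (.br (Nat.shiftLeft (nat_lit 0x6000001) (nat_lit 125)) (.one (nat_lit 0xc00000100200400500c011418b00a038422711)) (.one (nat_lit 0xc00000200300400500c011618b00a058822711))))))
def t294 : k294.all (jb2 57 fl b0) = true := by decide +kernel
noncomputable def s15 : KT := (.br (nat_lit 0x500000200400500c01140080ab418022611) (.br (nat_lit 0x400000400500c012000800a099024511) (.br (nat_lit 0x100200400500c012400800a038424760) (.br (nat_lit 0x100200400500c011400800a038423700) k273 k274) (.br (nat_lit 0x100300400500c011600800a038422760) k275 (.br (nat_lit 0x200300400500c011600800a058823700) k276 k277))) (.br (nat_lit 0xa00000400500c011000800a15a822511) (.br (nat_lit 0x600000400500c012000800a0d9824511) k278 (.br (nat_lit 0x800000400500c011000800a11a022511) k279 k280)) (.br (nat_lit 0x200000200400500c011400804a818022611) k281 (.br (nat_lit 0x400000300400500c012600808b018024611) k282 k283)))) (.br (nat_lit 0x700000300400500c01260080ebc18024611) (.br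 (nat_lit 0x600000100400500c01220080cb818024611) (.br (nat_lit 0x500000300400500c01260080ab418024611) k284 k285) (.br (nat_lit 0x600000300400500c01160080cb818022611) k286 (.br (nat_lit 0x700000100400500c01220080ebc18024611) k287 k288))) (.br (nat_lit 0xa00000200400500c011400814c818022611) (.br (nat_lit 0x800000200400500c011400810c018022611) k289 (.br (nat_lit 0x900000100400500c012200812c418024611) k290 k291)) (.br (nat_lit 0x400000100200400500c011408900a038422711) k292 (.br (nat_lit 0x600000200300400500c01160c980a058822711) k293 k294)))))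
noncomputable def u15 : KT := (.br (Nat.shiftLeft (nat_lit 0x2002806009) (nat_lit 65)) (.one (nat_lit 0x400500c011000800a018022540)) (.one (nat_lit 0x400500c012000800a018024540)))
def w15 : u15.all (wj 57 s15) = true := by decide +kernel
def o15 : OkW 57 (jb2 57 fl) u15 := .lift s15 _ (.br _ _ _ (.br _ _ _ (.br _ _ _ (.br _ _ _ (.leaf b0 k273 t273) (.leaf b0 k274 t274)) (.br _ _ _ (.leaf b0 k275 t275) (.br _ _ _ (.leaf b0 k276 t276) (.leaf b0 k277 t277)))) (.br _ _ _ (.br _ _ _ (.leaf b0 k278 t278) (.br _ _ _ (.leaf b0 k279 t279) (.leaf b281 k280 t280))) (.br _ _ _ (.leaf b0 k281 t281) (.br _ _ _ (.leaf b0 k282 t282) (.leaf b0 k283 t283))))) (.br _ _ _ (.br _ _ _ (.br _ _ _ (.leaf b0 k284 t284) (.leaf b0 k285 t285)) (.br _ _ _ (.leaf b0 k286 t286) (.br _ _ _ (.leaf b0 k287 t287) (.leaf b0 k288 t288)))) (.br _ _ _ (.br _ _ _ (.leaf b0 k289 t289) (.br _ _ _ (.leaf b0 k290 t290) (.leaf b0 k291 t291))) (.br _ _ _ (.leaf b0 k292 t292) (.br _ _ _ (.leaf b0 k293 t293) (.leaf b0 k294 t294)))))) w15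
noncomputable def k295 : KT := (.br (Nat.shiftLeft (nat_lit 0x1003) (nat_lit 112)) (.br (Nat.shiftLeft (nat_lit 0x3) (nat_lit 112)) (.br (Nat.shiftLeft (nat_lit 0x1) (nat_lit 112)) (.one (nat_lit 0x400500d00e000800a01a01d500)) (.br (Nat.shiftLeft (nat_lit 0x1) (nat_lit 113)) (.one (nat_lit 0x100400500d00e200800a01a01d600)) (.one (nat_lit 0x200400500d00e400800a01a01d600)))) (.br (Nat.shiftLeft (nat_lit 0x1) (nat_lit 124)) (.one (nat_lit 0x300400500d00e600800a01a01d600)) (.br (Nat.shiftLeft (nat_lit 0x801) (nat_lit 113)) (.one (nat_lit 0x100000400500d00e000800a03a41c511)) (.one (nat_lit 0x100200400500d00e400800a03a41d700))))) (.br (Nat.shiftLeft (nat_lit 0x3) (nat_lit 124)) (.br (Nat.shiftLeft (nat_lit 0x1) (nat_lit 125)) (.one (nat_lit 0x100300400500d00e600800a03a41d700)) (.br (Nat.shiftLeft (nat_lit 0x1001) (nat_lit 113)) (.one (nat_lit 0x200000400500d00e000800a05a81c511)) (.one (nat_lit 0x200300400500d00e600800a05a81d700)))) (.br (Nat.shiftLeft (nat_lit 0x5) (nat_lit 124)) (.br (Nat.shiftLeft (nat_lit 0x1) (nat_lit 126)) (.one (nat_lit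 0x300000400500d00e000800a07ac1c511)) (.one (nat_lit 0x400000400500d00e000800a09b01c511))) (.br (Nat.shiftLeft (nat_lit 0x3) (nat_lit 125)) (.one (nat_lit 0x500000400500d00e000800a0bb41c511)) (.one (nat_lit 0x600000400500d00e000800a0db81c511))))))
def t295 : k295.all (jb2 57 fl b0) = true := by decide +kernel
noncomputable def k296 : KT := (.br (Nat.shiftLeft (nat_lit 0x1) (nat_lit 127)) (.one (nat_lit 0x700000400500d00e000800a0fbc1c511)) (.br (Nat.shiftLeft (nat_lit 0x9) (nat_lit 124)) (.one (nat_lit 0x800000400500d00e000800a11c01c511)) (.one (nat_lit 0x900000400500d00e000800a13c41c511))))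
def t296 : k296.all (jb2 57 fl b0) = true := by decide +kernel
noncomputable def k297 : KT := (.br (Nat.shiftLeft (nat_lit 0xd) (nat_lit 124)) (.br (Nat.shiftLeft (nat_lit 0xb) (nat_lit 124)) (.one (nat_lit 0xa00000400500d00e000800a15c81c511)) (.br (Nat.shiftLeft (nat_lit 0x3) (nat_lit 126)) (.one (nat_lit 0xb00000400500d00e000800a17cc1c511)) (.one (nat_lit 0xc00000400500d00e000800a19d01c511)))) (.br (Nat.shiftLeft (nat_lit 0x800001) (nat_lit 113)) (.br (Nat.shiftLeft (nat_lit 0x1) (nat_lit 136)) (.one (nat_lit 0xd00000400500d00e000800a1bd41c511)) (.one (nat_lit 0x100000100400500d00e200802a41a01c611))) (.br (Nat.shiftLeft (nat_lit 0x1000003) (nat_lit 112)) (.one (nat_lit 0x100000200400500d00e400802a41a01c611)) (.one (nat_lit 0x100000300400500d00e600802a41a01c611)))))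
def t297 : k297.all (jb2 57 fl b0) = true := by decide +kernel
noncomputable def k298 : KT := (.br (Nat.shiftLeft (nat_lit 0x2000003) (nat_lit 112)) (.br (Nat.shiftLeft (nat_lit 0x1) (nat_lit 137)) (.one (nat_lit 0x100200300400500d00e600802a45a81c870)) (.br (Nat.shiftLeft (nat_lit 0x1000001) (nat_lit 113)) (.one (nat_lit 0x200000100400500d00e200804a81a01c611)) (.one (nat_lit 0x200000200400500d00e400804a81a01c611)))) (.br (Nat.shiftLeft (nat_lit 0x1800001) (nat_lit 113)) (.br (Nat.shiftLeft (nat_lit 0x3) (nat_lit 136)) (.one (nat_lit 0x200000300400500d00e600804a81a01c611)) (.one (nat_lit 0x300000100400500d00e200806ac1a01c611))) (.br (Nat.shiftLeft (nat_lit 0x3000003) (nat_lit 112)) (.one (nat_lit 0x300000200400500d00e400806ac1a01c611)) (.one (nat_lit 0x300000300400500d00e600806ac1a01c611)))))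
def t298 : k298.all (jb2 57 fl b0) = true := by decide +kernel
noncomputable def k299 : KT := (.br (Nat.shiftLeft (nat_lit 0x4000003) (nat_lit 112)) (.br (Nat.shiftLeft (nat_lit 0x2000001) (nat_lit 113)) (.one (nat_lit 0x400000100400500d00e200808b01a01c611)) (.one (nat_lit 0x400000200400500d00e400808b01a01c611))) (.br (Nat.shiftLeft (nat_lit 0x5) (nat_lit 136)) (.one (nat_lit 0x400000300400500d00e600808b01a01c611)) (.one (nat_lit 0x500000100400500d00e20080ab41a01c611))))
def t299 : k299.all (jb2 57 fl b0) = true := by decide +kernel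
noncomputable def k300 : KT := (.br (Nat.shiftLeft (nat_lit 0x5000003) (nat_lit 112)) (.one (nat_lit 0x500000200400500d00e40080ab41a01c611)) (.one (nat_lit 0x500000300400500d00e60080ab41a01c611)))
def t300 : k300.all (jb2 57 fl b0) = true := by decide +kernel
noncomputable def k301 : KT := (.one (nat_lit 0x600000100400500d00e20080cb81a01c611))
def t301 : k301.all (jb2 57 fl b0) = true := by decide +kernel
noncomputable def k302 : KT := (.br (Nat.shiftLeft (nat_lit 0x6000003) (nat_lit 112)) (.one (nat_lit 0x600000200400500d00e40080cb81a01c611)) (.one (nat_lit 0x600000300400500d00e60080cb81a01c611)))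
def t302 : k302.all (jb2 57 fl b0) = true := by decide +kernel
noncomputable def k303 : KT := (.one (nat_lit 0x700000100400500d00e20080ebc1a01c611))
def t303 : k303.all (jb2 57 fl b0) = true := by decide +kernel
noncomputable def k304 : KT := (.br (Nat.shiftLeft (nat_lit 0x7000003) (nat_lit 112)) (.one (nat_lit 0x700000200400500d00e40080ebc1a01c611)) (.one (nat_lit 0x700000300400500d00e60080ebc1a01c611)))
def t304 : k304.all (jb2 57 fl b0) = true := by decide +kernel
noncomputable def k305 : KT := (.br (Nat.shiftLeft (nat_lit 0x4000001) (nat_lit 113)) (.one (nat_lit 0x800000100400500d00e200810c01a01c611)) (.one (nat_lit 0x800000200400500d00e400810c01a01c611)))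
def t305 : k305.all (jb2 57 fl b0) = true := by decide +kernel
noncomputable def k306 : KT := (.br (Nat.shiftLeft (nat_lit 0x9) (nat_lit 136)) (.one (nat_lit 0x800000300400500d00e600810c01a01c611)) (.br (Nat.shiftLeft (nat_lit 0x4800001) (nat_lit 113)) (.one (nat_lit 0x900000100400500d00e200812c41a01c611)) (.one (nat_lit 0x900000200400500d00e400812c41a01c611))))
def t306 : k306.all (jb2 57 fl b0) = true := by decide +kernel
noncomputable def k307 : KT := (.br (Nat.shiftLeft (nat_lit 0x5000001) (nat_lit 113)) (.br (Nat.shiftLeft (nat_lit 0x5) (nat_lit 137)) (.one (nat_lit 0x900000300400500d00e600812c41a01c611)) (.one (nat_lit 0xa00000100400500d00e200814c81a01c611))) (.br (Nat.shiftLeft (nat_lit 0xa000003) (nat_lit 112)) (.one (nat_lit 0xa00000200400500d00e400814c81a01c611)) (.br (Nat.shiftLeft (nat_lit 0xb) (nat_lit 136)) (.one (nat_lit 0xa00000300400500d00e600814c81a01c611)) (.one (nat_lit 0xb00000100400500d00e200816cc1a01c611)))))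
def t307 : k307.all (jb2 57 fl b0) = true := by decide +kernel
noncomputable def k308 : KT := (.br (Nat.shiftLeft (nat_lit 0x1000001003) (nat_lit 112)) (.br (Nat.shiftLeft (nat_lit 0xc000003) (nat_lit 112)) (.br (Nat.shiftLeft (nat_lit 0x3) (nat_lit 138)) (.br (Nat.shiftLeft (nat_lit 0xb000003) (nat_lit 112)) (.one (nat_lit 0xb00000200400500d00e400816cc1a01c611)) (.one (nat_lit 0xb00000300400500d00e600816cc1a01c611))) (.br (Nat.shiftLeft (nat_lit 0x6000001) (nat_lit 113)) (.one (nat_lit 0xc00000100400500d00e200818d01a01c611)) (.one (nat_lit 0xc00000200400500d00e400818d01a01c611)))) (.br (Nat.shiftLeft (nat_lit 0x6800001) (nat_lit 113)) (.br (Nat.shiftLeft (nat_lit 0xd) (nat_lit 136)) (.one (nat_lit 0xc00000300400500d00e600818d01a01c611)) (.one (nat_lit 0xd00000100400500d00e20081ad41a01c611))) (.br (Nat.shiftLeft (nat_lit 0xd000003) (nat_lit 112)) (.one (nat_lit 0xd00000200400500d00e40081ad41a01c611)) (.br (Nat.shiftLeft (nat_lit 0x1) (nat_lit 148)) (.one (nat_lit 0xd00000300400500d00e60081ad41a01c611)) (.one (nat_lit 0x100000100200400500d00e402840a03a41c711))))))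 (.br (Nat.shiftLeft (nat_lit 0x3) (nat_lit 148)) (.br (Nat.shiftLeft (nat_lit 0x1) (nat_lit 149)) (.br (Nat.shiftLeft (nat_lit 0x800001) (nat_lit 125)) (.one (nat_lit 0x100000100300400500d00e602840a03a41c711)) (.one (nat_lit 0x100000200300400500d00e602840a05a81c711))) (.br (Nat.shiftLeft (nat_lit 0x2000001003) (nat_lit 112)) (.one (nat_lit 0x200000100200400500d00e404880a03a41c711)) (.br (Nat.shiftLeft (nat_lit 0x1000001) (nat_lit 125)) (.one (nat_lit 0x200000100300400500d00e604880a03a41c711)) (.one (nat_lit 0x200000200300400500d00e604880a05a81c711))))) (.br (Nat.shiftLeft (nat_lit 0x1800001) (nat_lit 125)) (.br (Nat.shiftLeft (nat_lit 0x3000001003) (nat_lit 112)) (.one (nat_lit 0x300000100200400500d00e4068c0a03a41c711)) (.one (nat_lit 0x300000100300400500d00e6068c0a03a41c711))) (.br (Nat.shiftLeft (nat_lit 0x1) (nat_lit 150)) (.one (nat_lit 0x300000200300400500d00e6068c0a05a81c711)) (.br (Nat.shiftLeft (nat_lit 0x4000001003) (nat_lit 112)) (.one (nat_lit 0x400000100200400500d00e408900a03a41c711)) (.one (nat_lit 0x400000100300400500d00e608900a03a41c711)))))))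
def t308 : k308.all (jb2 57 fl b0) = true := by decide +kernel
noncomputable def k309 : KT := (.br (Nat.shiftLeft (nat_lit 0x5) (nat_lit 148)) (.one (nat_lit 0x400000200300400500d00e608900a05a81c711)) (.br (Nat.shiftLeft (nat_lit 0x5000001003) (nat_lit 112)) (.one (nat_lit 0x500000100200400500d00e40a940a03a41c711)) (.one (nat_lit 0x500000100300400500d00e60a940a03a41c711))))
def t309 : k309.all (jb2 57 fl b0) = true := by decide +kernel
noncomputable def k310 : KT := (.br (Nat.shiftLeft (nat_lit 0x3) (nat_lit 149)) (.one (nat_lit 0x500000200300400500d00e60a940a05a81c711)) (.one (nat_lit 0x600000100200400500d00e40c980a03a41c711)))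
def t310 : k310.all (jb2 57 fl b0) = true := by decide +kernel
noncomputable def k311 : KT := (.br (Nat.shiftLeft (nat_lit 0x3000001) (nat_lit 125)) (.one (nat_lit 0x600000100300400500d00e60c980a03a41c711)) (.br (Nat.shiftLeft (nat_lit 0x7) (nat_lit 148)) (.one (nat_lit 0x600000200300400500d00e60c980a05a81c711)) (.one (nat_lit 0x700000100200400500d00e40e9c0a03a41c711))))
def t311 : k311.all (jb2 57 fl b0) = true := by decide +kernel
noncomputable def k312 : KT := (.br (Nat.shiftLeft (nat_lit 0x1) (nat_lit 151)) (.br (Nat.shiftLeft (nat_lit 0x3800001) (nat_lit 125)) (.one (nat_lit 0x700000100300400500d00e60e9c0a03a41c711)) (.one (nat_lit 0x700000200300400500d00e60e9c0a05a81c711))) (.br (Nat.shiftLeft (nat_lit 0x8000001003) (nat_lit 112)) (.one (nat_lit 0x800000100200400500d00e410a00a03a41c711)) (.one (nat_lit 0x800000100300400500d00e610a00a03a41c711))))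
def t312 : k312.all (jb2 57 fl b0) = true := by decide +kernel
noncomputable def k313 : KT := (.br (Nat.shiftLeft (nat_lit 0xa000001003) (nat_lit 112)) (.br (Nat.shiftLeft (nat_lit 0x9000001003) (nat_lit 112)) (.br (Nat.shiftLeft (nat_lit 0x9) (nat_lit 148)) (.one (nat_lit 0x800000200300400500d00e610a00a05a81c711)) (.one (nat_lit 0x900000100200400500d00e412a40a03a41c711))) (.br (Nat.shiftLeft (nat_lit 0x4800001) (nat_lit 125)) (.one (nat_lit 0x900000100300400500d00e612a40a03a41c711)) (.br (Nat.shiftLeft (nat_lit 0x5) (nat_lit 149)) (.one (nat_lit 0x900000200300400500d00e612a40a05a81c711)) (.one (nat_lit 0xa00000100200400500d00e414a80a03a41c711))))) (.br (Nat.shiftLeft (nat_lit 0xb) (nat_lit 148)) (.br (Nat.shiftLeft (nat_lit 0x5000001) (nat_lit 125)) (.one (nat_lit 0xa00000100300400500d00e614a80a03a41c711)) (.one (nat_lit 0xa00000200300400500d00e614a80a05a81c711))) (.br (Nat.shiftLeft (nat_lit 0xb000001003) (nat_lit 112)) (.one (nat_lit 0xb00000100200400500d00e416ac0a03a41c711)) (.br (Nat.shiftLeft (nat_lit 0x5800001) (nat_lit 125)) (.one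 (nat_lit 0xb00000100300400500d00e616ac0a03a41c711)) (.one (nat_lit 0xb00000200300400500d00e616ac0a05a81c711))))))
def t313 : k313.all (jb2 57 fl b0) = true := by decide +kernel
noncomputable def k314 : KT := (.br (Nat.shiftLeft (nat_lit 0xd) (nat_lit 148)) (.br (Nat.shiftLeft (nat_lit 0xc000001003) (nat_lit 112)) (.one (nat_lit 0xc00000100200400500d00e418b00a03a41c711)) (.br (Nat.shiftLeft (nat_lit 0x6000001) (nat_lit 125)) (.one (nat_lit 0xc00000100300400500d00e618b00a03a41c711)) (.one (nat_lit 0xc00000200300400500d00e618b00a05a81c711)))) (.br (Nat.shiftLeft (nat_lit 0xd000001003) (nat_lit 112)) (.one (nat_lit 0xd00000100200400500d00e41ab40a03a41c711)) (.br (Nat.shiftLeft (nat_lit 0x6800001) (nat_lit 125)) (.one (nat_lit 0xd00000100300400500d00e61ab40a03a41c711)) (.one (nat_lit 0xd00000200300400500d00e61ab40a05a81c711)))))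
def t314 : k314.all (jb2 57 fl b0) = true := by decide +kernel
noncomputable def s16 : KT := (.br (nat_lit 0x700000300400500d00e60080ebc1a01c611) (.br (nat_lit 0x500000100400500d00e20080ab41a01c611) (.br (nat_lit 0x900000400500d00e000800a13c41c511) (.br (nat_lit 0x600000400500d00e000800a0db81c511) k295 k296) (.br (nat_lit 0x100000300400500d00e600802a41a01c611) k297 (.br (nat_lit 0x300000300400500d00e600806ac1a01c611) k298 k299))) (.br (nat_lit 0x600000100400500d00e20080cb81a01c611) (.br (nat_lit 0x500000300400500d00e60080ab41a01c611) k300 k301) (.br (nat_lit 0x600000300400500d00e60080cb81a01c611) k302 (.br (nat_lit 0x700000100400500d00e20080ebc1a01c611) k303 k304)))) (.br (nat_lit 0x500000100300400500d00e60a940a03a41c711) (.br (nat_lit 0x900000200400500d00e400812c41a01c611) (.br (nat_lit 0x800000200400500d00e400810c01a01c611) k305 k306) (.br (nat_lit 0xb00000100400500d00e200816cc1a01c611) k307 (.br (nat_lit 0x400000100300400500d00e608900a03a41c711) k308 k309))) (.br (nat_lit 0x700000100200400500d00e40e9c0a03a41c711) (.br (nat_lit 0x600000100200400500d00e40c980a03a41c711)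 k310 k311) (.br (nat_lit 0x800000100300400500d00e610a00a03a41c711) k312 (.br (nat_lit 0xb00000200300400500d00e616ac0a05a81c711) k313 k314)))))
noncomputable def u16 : KT := (.one (nat_lit 0x400500d00e000800a01a01c540))
def w16 : u16.all (wj 57 s16) = true := by decide +kernel
def o16 : OkW 57 (jb2 57 fl) u16 := .lift s16 _ (.br _ _ _ (.br _ _ _ (.br _ _ _ (.br _ _ _ (.leaf b0 k295 t295) (.leaf b0 k296 t296)) (.br _ _ _ (.leaf b0 k297 t297) (.br _ _ _ (.leaf b0 k298 t298) (.leaf b0 k299 t299)))) (.br _ _ _ (.br _ _ _ (.leaf b0 k300 t300) (.leaf b0 k301 t301)) (.br _ _ _ (.leaf b0 k302 t302) (.br _ _ _ (.leaf b0 k303 t303) (.leaf b0 k304 t304))))) (.br _ _ _ (.br _ _ _ (.br _ _ _ (.leaf b0 k305 t305) (.leaf b0 k306 t306)) (.br _ _ _ (.leaf b0 k307 t307) (.br _ _ _ (.leaf b0 k308 t308) (.leaf b0 k309 t309)))) (.br _ _ _ (.br _ _ _ (.leaf b0 k310 t310) (.leaf b0 k311 t311)) (.br _ _ _ (.leaf b0 k312 t312) (.br _ _ _ (.leaf b0 k313 t313) (.leaf b0 k314 t314)))))) w16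
noncomputable def k315 : KT := (.br (Nat.shiftLeft (nat_lit 0x1003) (nat_lit 112)) (.br (Nat.shiftLeft (nat_lit 0x3) (nat_lit 112)) (.br (Nat.shiftLeft (nat_lit 0x1) (nat_lit 112)) (.one (nat_lit 0x400500d00f000800a01a01f500)) (.br (Nat.shiftLeft (nat_lit 0x1) (nat_lit 113)) (.one (nat_lit 0x100400500d00f200800a01a01f600)) (.one (nat_lit 0x200400500d00f400800a01a01f600)))) (.br (Nat.shiftLeft (nat_lit 0x1) (nat_lit 124)) (.one (nat_lit 0x300400500d00f600800a01a01f600)) (.br (Nat.shiftLeft (nat_lit 0x801) (nat_lit 113)) (.one (nat_lit 0x100000400500d00f000800a03a41e511)) (.one (nat_lit 0x100200400500d00f400800a03a41f700))))) (.br (Nat.shiftLeft (nat_lit 0x3) (nat_lit 124)) (.br (Nat.shiftLeft (nat_lit 0x1) (nat_lit 125)) (.one (nat_lit 0x100300400500d00f600800a03a41f700)) (.br (Nat.shiftLeft (nat_lit 0x1001) (nat_lit 113)) (.one (nat_lit 0x200000400500d00f000800a05a81e511)) (.one (nat_lit 0x200300400500d00f600800a05a81f700)))) (.br (Nat.shiftLeft (nat_lit 0x5) (nat_lit 124)) (.br (Nat.shiftLeft (nat_lit 0x1) (nat_lit 126)) (.one (nat_lit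 0x300000400500d00f000800a07ac1e511)) (.one (nat_lit 0x400000400500d00f000800a09b01e511))) (.br (Nat.shiftLeft (nat_lit 0x3) (nat_lit 125)) (.one (nat_lit 0x500000400500d00f000800a0bb41e511)) (.one (nat_lit 0x600000400500d00f000800a0db81e511))))))
noncomputable def b316 : BT := .node (nat_lit 0x1) (nat_lit 0x96325d950c003a59000ad5c10008800028) .leaf .leaf
def t315 : k315.all (jb2 57 fl b316) = true := by decide +kernel
noncomputable def k316 : KT := (.br (Nat.shiftLeft (nat_lit 0x1) (nat_lit 127)) (.one (nat_lit 0x700000400500d00f000800a0fbc1e511)) (.br (Nat.shiftLeft (nat_lit 0x9) (nat_lit 124)) (.one (nat_lit 0x800000400500d00f000800a11c01e511)) (.one (nat_lit 0x900000400500d00f000800a13c41e511))))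
def t316 : k316.all (jb2 57 fl b0) = true := by decide +kernel
noncomputable def k317 : KT := (.br (Nat.shiftLeft (nat_lit 0xd) (nat_lit 124)) (.br (Nat.shiftLeft (nat_lit 0xb) (nat_lit 124)) (.one (nat_lit 0xa00000400500d00f000800a15c81e511)) (.br (Nat.shiftLeft (nat_lit 0x3) (nat_lit 126)) (.one (nat_lit 0xb00000400500d00f000800a17cc1e511)) (.one (nat_lit 0xc00000400500d00f000800a19d01e511)))) (.br (Nat.shiftLeft (nat_lit 0x800001) (nat_lit 113)) (.br (Nat.shiftLeft (nat_lit 0x1) (nat_lit 136)) (.one (nat_lit 0xd00000400500d00f000800a1bd41e511)) (.one (nat_lit 0x100000100400500d00f200802a41a01e611))) (.br (Nat.shiftLeft (nat_lit 0x1000003) (nat_lit 112)) (.one (nat_lit 0x100000200400500d00f400802a41a01e611)) (.one (nat_lit 0x100000300400500d00f600802a41a01e611)))))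
def t317 : k317.all (jb2 57 fl b0) = true := by decide +kernel
noncomputable def k318 : KT := (.br (Nat.shiftLeft (nat_lit 0x3) (nat_lit 136)) (.br (Nat.shiftLeft (nat_lit 0x1000001) (nat_lit 113)) (.br (Nat.shiftLeft (nat_lit 0x1) (nat_lit 137)) (.one (nat_lit 0x100200300400500d00f600802a45a81e870)) (.one (nat_lit 0x200000100400500d00f200804a81a01e611))) (.br (Nat.shiftLeft (nat_lit 0x2000003) (nat_lit 112)) (.one (nat_lit 0x200000200400500d00f400804a81a01e611)) (.one (nat_lit 0x200000300400500d00f600804a81a01e611)))) (.br (Nat.shiftLeft (nat_lit 0x3000003) (nat_lit 112)) (.br (Nat.shiftLeft (nat_lit 0x1800001) (nat_lit 113)) (.one (nat_lit 0x300000100400500d00f200806ac1a01e611)) (.one (nat_lit 0x300000200400500d00f400806ac1a01e611))) (.br (Nat.shiftLeft (nat_lit 0x1) (nat_lit 138)) (.one (nat_lit 0x300000300400500d00f600806ac1a01e611)) (.br (Nat.shiftLeft (nat_lit 0x2000001) (nat_lit 113)) (.one (nat_lit 0x400000100400500d00f200808b01a01e611)) (.one (nat_lit 0x400000200400500d00f400808b01a01e611))))))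
def t318 : k318.all (jb2 57 fl b0) = true := by decide +kernel
noncomputable def k319 : KT := (.br (Nat.shiftLeft (nat_lit 0x5) (nat_lit 136)) (.one (nat_lit 0x400000300400500d00f600808b01a01e611)) (.br (Nat.shiftLeft (nat_lit 0x2800001) (nat_lit 113)) (.one (nat_lit 0x500000100400500d00f20080ab41a01e611)) (.one (nat_lit 0x500000200400500d00f40080ab41a01e611))))
def t319 : k319.all (jb2 57 fl b0) = true := by decide +kernel
noncomputable def k320 : KT := (.br (Nat.shiftLeft (nat_lit 0x3) (nat_lit 137)) (.one (nat_lit 0x500000300400500d00f60080ab41a01e611)) (.one (nat_lit 0x600000100400500d00f20080cb81a01e611)))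
def t320 : k320.all (jb2 57 fl b0) = true := by decide +kernel
noncomputable def k321 : KT := (.br (Nat.shiftLeft (nat_lit 0x6000003) (nat_lit 112)) (.one (nat_lit 0x600000200400500d00f40080cb81a01e611)) (.one (nat_lit 0x600000300400500d00f60080cb81a01e611)))
def t321 : k321.all (jb2 57 fl b0) = true := by decide +kernel
noncomputable def k322 : KT := (.br (Nat.shiftLeft (nat_lit 0x3800001) (nat_lit 113)) (.one (nat_lit 0x700000100400500d00f20080ebc1a01e611)) (.one (nat_lit 0x700000200400500d00f40080ebc1a01e611)))
def t322 : k322.all (jb2 57 fl b0) = true := by decide +kernel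
noncomputable def k323 : KT := (.br (Nat.shiftLeft (nat_lit 0x1) (nat_lit 139)) (.one (nat_lit 0x700000300400500d00f60080ebc1a01e611)) (.br (Nat.shiftLeft (nat_lit 0x4000001) (nat_lit 113)) (.one (nat_lit 0x800000100400500d00f200810c01a01e611)) (.one (nat_lit 0x800000200400500d00f400810c01a01e611))))
def t323 : k323.all (jb2 57 fl b0) = true := by decide +kernel
noncomputable def k324 : KT := (.br (Nat.shiftLeft (nat_lit 0x4800001) (nat_lit 113)) (.br (Nat.shiftLeft (nat_lit 0x9) (nat_lit 136)) (.one (nat_lit 0x800000300400500d00f600810c01a01e611)) (.one (nat_lit 0x900000100400500d00f200812c41a01e611))) (.br (Nat.shiftLeft (nat_lit 0x9000003) (nat_lit 112)) (.one (nat_lit 0x900000200400500d00f400812c41a01e611)) (.one (nat_lit 0x900000300400500d00f600812c41a01e611))))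
def t324 : k324.all (jb2 57 fl b0) = true := by decide +kernel
noncomputable def k325 : KT := (.br (Nat.shiftLeft (nat_lit 0xb000003) (nat_lit 112)) (.br (Nat.shiftLeft (nat_lit 0xa000003) (nat_lit 112)) (.br (Nat.shiftLeft (nat_lit 0x5000001) (nat_lit 113)) (.one (nat_lit 0xa00000100400500d00f200814c81a01e611)) (.one (nat_lit 0xa00000200400500d00f400814c81a01e611))) (.br (Nat.shiftLeft (nat_lit 0xb) (nat_lit 136)) (.one (nat_lit 0xa00000300400500d00f600814c81a01e611)) (.br (Nat.shiftLeft (nat_lit 0x5800001) (nat_lit 113)) (.one (nat_lit 0xb00000100400500d00f200816cc1a01e611)) (.one (nat_lit 0xb00000200400500d00f400816cc1a01e611))))) (.br (Nat.shiftLeft (nat_lit 0xc000003) (nat_lit 112)) (.br (Nat.shiftLeft (nat_lit 0x3) (nat_lit 138)) (.one (nat_lit 0xb00000300400500d00f600816cc1a01e611)) (.br (Nat.shiftLeft (nat_lit 0x6000001) (nat_lit 113)) (.one (nat_lit 0xc00000100400500d00f200818d01a01e611)) (.one (nat_lit 0xc00000200400500d00f400818d01a01e611)))) (.br (Nat.shiftLeft (nat_lit 0xd) (nat_lit 136)) (.one (nat_lit 0xc00000300400500d00f600818d01a01e611))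 (.br (Nat.shiftLeft (nat_lit 0x6800001) (nat_lit 113)) (.one (nat_lit 0xd00000100400500d00f20081ad41a01e611)) (.one (nat_lit 0xd00000200400500d00f40081ad41a01e611))))))
def t325 : k325.all (jb2 57 fl b0) = true := by decide +kernel
noncomputable def k326 : KT := (.br (Nat.shiftLeft (nat_lit 0x3) (nat_lit 148)) (.br (Nat.shiftLeft (nat_lit 0x800001) (nat_lit 125)) (.br (Nat.shiftLeft (nat_lit 0x1) (nat_lit 148)) (.one (nat_lit 0xd00000300400500d00f60081ad41a01e611)) (.br (Nat.shiftLeft (nat_lit 0x1000001003) (nat_lit 112)) (.one (nat_lit 0x100000100200400500d00f402840a03a41e711)) (.one (nat_lit 0x100000100300400500d00f602840a03a41e711)))) (.br (Nat.shiftLeft (nat_lit 0x2000001003) (nat_lit 112)) (.br (Nat.shiftLeft (nat_lit 0x1) (nat_lit 149)) (.one (nat_lit 0x100000200300400500d00f602840a05a81e711)) (.one (nat_lit 0x200000100200400500d00f404880a03a41e711))) (.br (Nat.shiftLeft (nat_lit 0x1000001) (nat_lit 125)) (.one (nat_lit 0x200000100300400500d00f604880a03a41e711)) (.one (nat_lit 0x200000200300400500d00f604880a05a81e711))))) (.br (Nat.shiftLeft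 (nat_lit 0x1) (nat_lit 150)) (.br (Nat.shiftLeft (nat_lit 0x3000001003) (nat_lit 112)) (.one (nat_lit 0x300000100200400500d00f4068c0a03a41e711)) (.br (Nat.shiftLeft (nat_lit 0x1800001) (nat_lit 125)) (.one (nat_lit 0x300000100300400500d00f6068c0a03a41e711)) (.one (nat_lit 0x300000200300400500d00f6068c0a05a81e711)))) (.br (Nat.shiftLeft (nat_lit 0x2000001) (nat_lit 125)) (.br (Nat.shiftLeft (nat_lit 0x4000001003) (nat_lit 112)) (.one (nat_lit 0x400000100200400500d00f408900a03a41e711)) (.one (nat_lit 0x400000100300400500d00f608900a03a41e711))) (.br (Nat.shiftLeft (nat_lit 0x5) (nat_lit 148)) (.one (nat_lit 0x400000200300400500d00f608900a05a81e711)) (.one (nat_lit 0x500000100200400500d00f40a940a03a41e711))))))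
def t326 : k326.all (jb2 57 fl b0) = true := by decide +kernel
noncomputable def k327 : KT := (.br (Nat.shiftLeft (nat_lit 0x2800001) (nat_lit 125)) (.one (nat_lit 0x500000100300400500d00f60a940a03a41e711)) (.br (Nat.shiftLeft (nat_lit 0x3) (nat_lit 149)) (.one (nat_lit 0x500000200300400500d00f60a940a05a81e711)) (.one (nat_lit 0x600000100200400500d00f40c980a03a41e711))))
def t327 : k327.all (jb2 57 fl b0) = true := by decide +kernel
noncomputable def k328 : KT := (.br (Nat.shiftLeft (nat_lit 0x7) (nat_lit 148)) (.br (Nat.shiftLeft (nat_lit 0x3000001) (nat_lit 125)) (.one (nat_lit 0x600000100300400500d00f60c980a03a41e711)) (.one (nat_lit 0x600000200300400500d00f60c980a05a81e711))) (.br (Nat.shiftLeft (nat_lit 0x7000001003) (nat_lit 112)) (.one (nat_lit 0x700000100200400500d00f40e9c0a03a41e711)) (.one (nat_lit 0x700000100300400500d00f60e9c0a03a41e711))))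
def t328 : k328.all (jb2 57 fl b0) = true := by decide +kernel
noncomputable def k329 : KT := (.br (Nat.shiftLeft (nat_lit 0x4000001) (nat_lit 125)) (.br (Nat.shiftLeft (nat_lit 0x1) (nat_lit 151)) (.one (nat_lit 0x700000200300400500d00f60e9c0a05a81e711)) (.br (Nat.shiftLeft (nat_lit 0x8000001003) (nat_lit 112)) (.one (nat_lit 0x800000100200400500d00f410a00a03a41e711)) (.one (nat_lit 0x800000100300400500d00f610a00a03a41e711)))) (.br (Nat.shiftLeft (nat_lit 0x9000001003) (nat_lit 112)) (.br (Nat.shiftLeft (nat_lit 0x9) (nat_lit 148)) (.one (nat_lit 0x800000200300400500d00f610a00a05a81e711)) (.one (nat_lit 0x900000100200400500d00f412a40a03a41e711))) (.br (Nat.shiftLeft (nat_lit 0x4800001) (nat_lit 125)) (.one (nat_lit 0x900000100300400500d00f612a40a03a41e711)) (.one (nat_lit 0x900000200300400500d00f612a40a05a81e711)))))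
def t329 : k329.all (jb2 57 fl b0) = true := by decide +kernel
noncomputable def k330 : KT := (.br (Nat.shiftLeft (nat_lit 0x3) (nat_lit 150)) (.br (Nat.shiftLeft (nat_lit 0xb) (nat_lit 148)) (.br (Nat.shiftLeft (nat_lit 0xa000001003) (nat_lit 112)) (.one (nat_lit 0xa00000100200400500d00f414a80a03a41e711)) (.br (Nat.shiftLeft (nat_lit 0x5000001) (nat_lit 125)) (.one (nat_lit 0xa00000100300400500d00f614a80a03a41e711)) (.one (nat_lit 0xa00000200300400500d00f614a80a05a81e711)))) (.br (Nat.shiftLeft (nat_lit 0xb000001003) (nat_lit 112)) (.one (nat_lit 0xb00000100200400500d00f416ac0a03a41e711)) (.br (Nat.shiftLeft (nat_lit 0x5800001) (nat_lit 125)) (.one (nat_lit 0xb00000100300400500d00f616ac0a03a41e711)) (.one (nat_lit 0xb00000200300400500d00f616ac0a05a81e711))))) (.br (Nat.shiftLeft (nat_lit 0xd) (nat_lit 148)) (.br (Nat.shiftLeft (nat_lit 0xc000001003) (nat_lit 112)) (.one (nat_lit 0xc00000100200400500d00f418b00a03a41e711)) (.br (Nat.shiftLeft (nat_lit 0x6000001) (nat_lit 125)) (.one (nat_lit 0xc00000100300400500d00f618b00a03a41e711)) (.one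 (nat_lit 0xc00000200300400500d00f618b00a05a81e711)))) (.br (Nat.shiftLeft (nat_lit 0xd000001003) (nat_lit 112)) (.one (nat_lit 0xd00000100200400500d00f41ab40a03a41e711)) (.br (Nat.shiftLeft (nat_lit 0x6800001) (nat_lit 125)) (.one (nat_lit 0xd00000100300400500d00f61ab40a03a41e711)) (.one (nat_lit 0xd00000200300400500d00f61ab40a05a81e711))))))
def t330 : k330.all (jb2 57 fl b0) = true := by decide +kernel
noncomputable def s17 : KT := (.br (nat_lit 0x700000200400500d00f40080ebc1a01e611) (.br (nat_lit 0x400000200400500d00f400808b01a01e611) (.br (nat_lit 0x900000400500d00f000800a13c41e511) (.br (nat_lit 0x600000400500d00f000800a0db81e511) k315 k316) (.br (nat_lit 0x100000300400500d00f600802a41a01e611) k317 k318)) (.br (nat_lit 0x600000100400500d00f20080cb81a01e611) (.br (nat_lit 0x500000200400500d00f40080ab41a01e611) k319 k320) (.br (nat_lit 0x600000300400500d00f60080cb81a01e611) k321 k322))) (.br (nat_lit 0x500000100200400500d00f40a940a03a41e711) (.br (nat_lit 0x900000300400500d00f600812c41a01e611) (.br (nat_lit 0x800000200400500d00f400810c01a01e611)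 k323 k324) (.br (nat_lit 0xd00000200400500d00f40081ad41a01e611) k325 k326)) (.br (nat_lit 0x700000100300400500d00f60e9c0a03a41e711) (.br (nat_lit 0x600000100200400500d00f40c980a03a41e711) k327 k328) (.br (nat_lit 0x900000200300400500d00f612a40a05a81e711) k329 k330))))
noncomputable def u17 : KT := (.one (nat_lit 0x400500d00f000800a01a01e540))
def w17 : u17.all (wj 57 s17) = true := by decide +kernel
def o17 : OkW 57 (jb2 57 fl) u17 := .lift s17 _ (.br _ _ _ (.br _ _ _ (.br _ _ _ (.br _ _ _ (.leaf b316 k315 t315) (.leaf b0 k316 t316)) (.br _ _ _ (.leaf b0 k317 t317) (.leaf b0 k318 t318))) (.br _ _ _ (.br _ _ _ (.leaf b0 k319 t319) (.leaf b0 k320 t320)) (.br _ _ _ (.leaf b0 k321 t321) (.leaf b0 k322 t322)))) (.br _ _ _ (.br _ _ _ (.br _ _ _ (.leaf b0 k323 t323) (.leaf b0 k324 t324)) (.br _ _ _ (.leaf b0 k325 t325) (.leaf b0 k326 t326))) (.br _ _ _ (.br _ _ _ (.leaf b0 k327 t327) (.leaf b0 k328 t328)) (.br _ _ _ (.leaf b0 k329 t329) (.leaf b0 k330 t330))))) w17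
noncomputable def k331 : KT := (.br (Nat.shiftLeft (nat_lit 0x3) (nat_lit 112)) (.br (Nat.shiftLeft (nat_lit 0x100400500d011) (nat_lit 64)) (.br (Nat.shiftLeft (nat_lit 0x400500d011) (nat_lit 64)) (.one (nat_lit 0x400500d010000800a01a021500)) (.br (Nat.shiftLeft (nat_lit 0x1) (nat_lit 112)) (.one (nat_lit 0x400500d011000800a01a023500)) (.one (nat_lit 0x100400500d010200800a01a021600)))) (.br (Nat.shiftLeft (nat_lit 0x1) (nat_lit 113)) (.one (nat_lit 0x100400500d011200800a01a023600)) (.br (Nat.shiftLeft (nat_lit 0x200400500d011) (nat_lit 64)) (.one (nat_lit 0x200400500d010400800a01a021600)) (.one (nat_lit 0x200400500d011400800a01a023600))))) (.br (Nat.shiftLeft (nat_lit 0x100000400500d011) (nat_lit 64)) (.br (Nat.shiftLeft (nat_lit 0x300400500d011) (nat_lit 64)) (.one (nat_lit 0x300400500d010600800a01a021600)) (.br (Nat.shiftLeft (nat_lit 0x1) (nat_lit 124)) (.one (nat_lit 0x300400500d011600800a01a023600)) (.one (nat_lit 0x100000400500d010000800a03a420511)))) (.br (Nat.shiftLeft (nat_lit 0x801) (nat_lit 113)) (.one (nat_lit 0x100000400500d011000800a03a422511))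 (.br (Nat.shiftLeft (nat_lit 0x100200400500d011) (nat_lit 64)) (.one (nat_lit 0x100200400500d010400800a03a421700)) (.one (nat_lit 0x100200400500d011400800a03a422760))))))
def t331 : k331.all (jb2 57 fl b0) = true := by decide +kernel
noncomputable def k332 : KT := (.one (nat_lit 0x100300400500d010600800a03a420760))
def t332 : k332.all (jb2 57 fl b0) = true := by decide +kernel
noncomputable def k333 : KT := (.br (Nat.shiftLeft (nat_lit 0x200000400500d011) (nat_lit 64)) (.br (Nat.shiftLeft (nat_lit 0x1) (nat_lit 125)) (.one (nat_lit 0x100300400500d011600800a03a422760)) (.one (nat_lit 0x200000400500d010000800a05a820511))) (.br (Nat.shiftLeft (nat_lit 0x1001) (nat_lit 113)) (.one (nat_lit 0x200000400500d011000800a05a822511)) (.one (nat_lit 0x200300400500d010600800a05a821700))))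
def t333 : k333.all (jb2 57 fl b0) = true := by decide +kernel
noncomputable def k334 : KT := (.br (Nat.shiftLeft (nat_lit 0x300000400500d011) (nat_lit 64)) (.br (Nat.shiftLeft (nat_lit 0x3) (nat_lit 124)) (.one (nat_lit 0x200300400500d011600800a05a822760)) (.one (nat_lit 0x300000400500d010000800a07ac20511))) (.br (Nat.shiftLeft (nat_lit 0x1) (nat_lit 126)) (.one (nat_lit 0x300000400500d011000800a07ac22511)) (.br (Nat.shiftLeft (nat_lit 0x400000400500d011) (nat_lit 64)) (.one (nat_lit 0x400000400500d010000800a09b020511)) (.one (nat_lit 0x400000400500d011000800a09b022511)))))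
def t334 : k334.all (jb2 57 fl b0) = true := by decide +kernel
noncomputable def k335 : KT := (.br (Nat.shiftLeft (nat_lit 0x3) (nat_lit 125)) (.br (Nat.shiftLeft (nat_lit 0x500000400500d011) (nat_lit 64)) (.one (nat_lit 0x500000400500d010000800a0bb420511)) (.one (nat_lit 0x500000400500d011000800a0bb422511))) (.br (Nat.shiftLeft (nat_lit 0x600000400500d011) (nat_lit 64)) (.one (nat_lit 0x600000400500d010000800a0db820511)) (.one (nat_lit 0x600000400500d011000800a0db822511))))
def t335 : k335.all (jb2 57 fl b0) = true := by decide +kernel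
noncomputable def k336 : KT := (.br (Nat.shiftLeft (nat_lit 0x700000400500d011) (nat_lit 64)) (.one (nat_lit 0x700000400500d010000800a0fbc20511)) (.br (Nat.shiftLeft (nat_lit 0x1) (nat_lit 127)) (.one (nat_lit 0x700000400500d011000800a0fbc22511)) (.one (nat_lit 0x800000400500d010000800a11c020511))))
def t336 : k336.all (jb2 57 fl b0) = true := by decide +kernel
noncomputable def k337 : KT := (.br (Nat.shiftLeft (nat_lit 0x900000400500d011) (nat_lit 64)) (.br (Nat.shiftLeft (nat_lit 0x9) (nat_lit 124)) (.one (nat_lit 0x800000400500d011000800a11c022511)) (.one (nat_lit 0x900000400500d010000800a13c420511))) (.br (Nat.shiftLeft (nat_lit 0x5) (nat_lit 125)) (.one (nat_lit 0x900000400500d011000800a13c422511)) (.br (Nat.shiftLeft (nat_lit 0xa00000400500d011) (nat_lit 64)) (.one (nat_lit 0xa00000400500d010000800a15c820511)) (.one (nat_lit 0xa00000400500d011000800a15c822511)))))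
def t337 : k337.all (jb2 57 fl b0) = true := by decide +kernel
noncomputable def k338 : KT := (.br (Nat.shiftLeft (nat_lit 0x100000300400500d011) (nat_lit 64)) (.br (Nat.shiftLeft (nat_lit 0xd00000400500d011) (nat_lit 64)) (.br (Nat.shiftLeft (nat_lit 0x3) (nat_lit 126)) (.br (Nat.shiftLeft (nat_lit 0xb00000400500d011) (nat_lit 64)) (.one (nat_lit 0xb00000400500d010000800a17cc20511)) (.one (nat_lit 0xb00000400500d011000800a17cc22511))) (.br (Nat.shiftLeft (nat_lit 0xc00000400500d011) (nat_lit 64)) (.one (nat_lit 0xc00000400500d010000800a19d020511)) (.br (Nat.shiftLeft (nat_lit 0xd) (nat_lit 124)) (.one (nat_lit 0xc00000400500d011000800a19d022511)) (.one (nat_lit 0xd00000400500d010000800a1bd420511))))) (.br (Nat.shiftLeft (nat_lit 0x800001) (nat_lit 113)) (.br (Nat.shiftLeft (nat_lit 0x1) (nat_lit 136)) (.one (nat_lit 0xd00000400500d011000800a1bd422511)) (.br (Nat.shiftLeft (nat_lit 0x100000100400500d011) (nat_lit 64)) (.one (nat_lit 0x100000100400500d010200802a41a020611)) (.one (nat_lit 0x100000100400500d011200802a41a022611)))) (.br (Nat.shiftLeft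 (nat_lit 0x100000200400500d011) (nat_lit 64)) (.one (nat_lit 0x100000200400500d010400802a41a020611)) (.br (Nat.shiftLeft (nat_lit 0x1000003) (nat_lit 112)) (.one (nat_lit 0x100000200400500d011400802a41a022611)) (.one (nat_lit 0x100000300400500d010600802a41a020611)))))) (.br (Nat.shiftLeft (nat_lit 0x2000003) (nat_lit 112)) (.br (Nat.shiftLeft (nat_lit 0x200000100400500d011) (nat_lit 64)) (.br (Nat.shiftLeft (nat_lit 0x801) (nat_lit 125)) (.one (nat_lit 0x100000300400500d011600802a41a022611)) (.br (Nat.shiftLeft (nat_lit 0x1) (nat_lit 137)) (.one (nat_lit 0x100200300400500d010600802a45a820870)) (.one (nat_lit 0x200000100400500d010200804a81a020611)))) (.br (Nat.shiftLeft (nat_lit 0x1000001) (nat_lit 113)) (.one (nat_lit 0x200000100400500d011200804a81a022611)) (.br (Nat.shiftLeft (nat_lit 0x200000200400500d011) (nat_lit 64)) (.one (nat_lit 0x200000200400500d010400804a81a020611)) (.one (nat_lit 0x200000200400500d011400804a81a022611))))) (.br (Nat.shiftLeft (nat_lit 0x300000100400500d011) (nat_lit 64)) (.br (Nat.shiftLeft (nat_lit 0x200000300400500d011)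 (nat_lit 64)) (.one (nat_lit 0x200000300400500d010600804a81a020611)) (.br (Nat.shiftLeft (nat_lit 0x3) (nat_lit 136)) (.one (nat_lit 0x200000300400500d011600804a81a022611)) (.one (nat_lit 0x300000100400500d010200806ac1a020611)))) (.br (Nat.shiftLeft (nat_lit 0x1800001) (nat_lit 113)) (.one (nat_lit 0x300000100400500d011200806ac1a022611)) (.br (Nat.shiftLeft (nat_lit 0x300000200400500d011) (nat_lit 64)) (.one (nat_lit 0x300000200400500d010400806ac1a020611)) (.one (nat_lit 0x300000200400500d011400806ac1a022611)))))))
def t338 : k338.all (jb2 57 fl b0) = true := by decide +kernel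
noncomputable def k339 : KT := (.br (Nat.shiftLeft (nat_lit 0x2000001) (nat_lit 113)) (.br (Nat.shiftLeft (nat_lit 0x1) (nat_lit 138)) (.br (Nat.shiftLeft (nat_lit 0x300000300400500d011) (nat_lit 64)) (.one (nat_lit 0x300000300400500d010600806ac1a020611)) (.one (nat_lit 0x300000300400500d011600806ac1a022611))) (.br (Nat.shiftLeft (nat_lit 0x400000100400500d011) (nat_lit 64)) (.one (nat_lit 0x400000100400500d010200808b01a020611)) (.one (nat_lit 0x400000100400500d011200808b01a022611)))) (.br (Nat.shiftLeft (nat_lit 0x4000003) (nat_lit 112)) (.br (Nat.shiftLeft (nat_lit 0x400000200400500d011) (nat_lit 64)) (.one (nat_lit 0x400000200400500d010400808b01a020611)) (.one (nat_lit 0x400000200400500d011400808b01a022611))) (.br (Nat.shiftLeft (nat_lit 0x400000300400500d011) (nat_lit 64)) (.one (nat_lit 0x400000300400500d010600808b01a020611)) (.br (Nat.shiftLeft (nat_lit 0x5) (nat_lit 136)) (.one (nat_lit 0x400000300400500d011600808b01a022611)) (.one (nat_lit 0x500000100400500d01020080ab41a020611))))))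
def t339 : k339.all (jb2 57 fl b0) = true := by decide +kernel
noncomputable def k340 : KT := (.br (Nat.shiftLeft (nat_lit 0x500000200400500d011) (nat_lit 64)) (.br (Nat.shiftLeft (nat_lit 0x2800001) (nat_lit 113)) (.one (nat_lit 0x500000100400500d01120080ab41a022611)) (.one (nat_lit 0x500000200400500d01040080ab41a020611))) (.br (Nat.shiftLeft (nat_lit 0x5000003) (nat_lit 112)) (.one (nat_lit 0x500000200400500d01140080ab41a022611)) (.one (nat_lit 0x500000300400500d01060080ab41a020611))))
def t340 : k340.all (jb2 57 fl b0) = true := by decide +kernel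
noncomputable def k341 : KT := (.br (Nat.shiftLeft (nat_lit 0x3) (nat_lit 137)) (.one (nat_lit 0x500000300400500d01160080ab41a022611)) (.br (Nat.shiftLeft (nat_lit 0x600000100400500d011) (nat_lit 64)) (.one (nat_lit 0x600000100400500d01020080cb81a020611)) (.one (nat_lit 0x600000100400500d01120080cb81a022611))))
def t341 : k341.all (jb2 57 fl b0) = true := by decide +kernel
noncomputable def k342 : KT := (.br (Nat.shiftLeft (nat_lit 0x600000200400500d011) (nat_lit 64)) (.one (nat_lit 0x600000200400500d01040080cb81a020611)) (.br (Nat.shiftLeft (nat_lit 0x6000003) (nat_lit 112)) (.one (nat_lit 0x600000200400500d01140080cb81a022611)) (.one (nat_lit 0x600000300400500d01060080cb81a020611))))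
def t342 : k342.all (jb2 57 fl b0) = true := by decide +kernel
noncomputable def k343 : KT := (.br (Nat.shiftLeft (nat_lit 0x7) (nat_lit 136)) (.one (nat_lit 0x600000300400500d01160080cb81a022611)) (.br (Nat.shiftLeft (nat_lit 0x700000100400500d011) (nat_lit 64)) (.one (nat_lit 0x700000100400500d01020080ebc1a020611)) (.one (nat_lit 0x700000100400500d01120080ebc1a022611))))
def t343 : k343.all (jb2 57 fl b0) = true := by decide +kernel
noncomputable def k344 : KT := (.br (Nat.shiftLeft (nat_lit 0x7000003) (nat_lit 112)) (.br (Nat.shiftLeft (nat_lit 0x700000200400500d011) (nat_lit 64)) (.one (nat_lit 0x700000200400500d01040080ebc1a020611)) (.one (nat_lit 0x700000200400500d01140080ebc1a022611))) (.br (Nat.shiftLeft (nat_lit 0x700000300400500d011) (nat_lit 64)) (.one (nat_lit 0x700000300400500d01060080ebc1a020611)) (.one (nat_lit 0x700000300400500d01160080ebc1a022611))))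
def t344 : k344.all (jb2 57 fl b0) = true := by decide +kernel
noncomputable def k345 : KT := (.br (Nat.shiftLeft (nat_lit 0x4000001) (nat_lit 113)) (.br (Nat.shiftLeft (nat_lit 0x800000100400500d011) (nat_lit 64)) (.one (nat_lit 0x800000100400500d010200810c01a020611)) (.one (nat_lit 0x800000100400500d011200810c01a022611))) (.br (Nat.shiftLeft (nat_lit 0x800000200400500d011) (nat_lit 64)) (.one (nat_lit 0x800000200400500d010400810c01a020611)) (.one (nat_lit 0x800000200400500d011400810c01a022611))))
def t345 : k345.all (jb2 57 fl b0) = true := by decide +kernel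
noncomputable def k346 : KT := (.br (Nat.shiftLeft (nat_lit 0x900000100400500d011) (nat_lit 64)) (.br (Nat.shiftLeft (nat_lit 0x800000300400500d011) (nat_lit 64)) (.one (nat_lit 0x800000300400500d010600810c01a020611)) (.br (Nat.shiftLeft (nat_lit 0x9) (nat_lit 136)) (.one (nat_lit 0x800000300400500d011600810c01a022611)) (.one (nat_lit 0x900000100400500d010200812c41a020611)))) (.br (Nat.shiftLeft (nat_lit 0x4800001) (nat_lit 113)) (.one (nat_lit 0x900000100400500d011200812c41a022611)) (.br (Nat.shiftLeft (nat_lit 0x900000200400500d011) (nat_lit 64)) (.one (nat_lit 0x900000200400500d010400812c41a020611)) (.one (nat_lit 0x900000200400500d011400812c41a022611)))))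
def t346 : k346.all (jb2 57 fl b0) = true := by decide +kernel
noncomputable def k347 : KT := (.br (Nat.shiftLeft (nat_lit 0xa000003) (nat_lit 112)) (.br (Nat.shiftLeft (nat_lit 0xa00000100400500d011) (nat_lit 64)) (.br (Nat.shiftLeft (nat_lit 0x900000300400500d011) (nat_lit 64)) (.one (nat_lit 0x900000300400500d010600812c41a020611)) (.br (Nat.shiftLeft (nat_lit 0x5) (nat_lit 137)) (.one (nat_lit 0x900000300400500d011600812c41a022611)) (.one (nat_lit 0xa00000100400500d010200814c81a020611)))) (.br (Nat.shiftLeft (nat_lit 0x5000001) (nat_lit 113)) (.one (nat_lit 0xa00000100400500d011200814c81a022611)) (.br (Nat.shiftLeft (nat_lit 0xa00000200400500d011) (nat_lit 64)) (.one (nat_lit 0xa00000200400500d010400814c81a020611)) (.one (nat_lit 0xa00000200400500d011400814c81a022611))))) (.br (Nat.shiftLeft (nat_lit 0xb00000100400500d011) (nat_lit 64)) (.br (Nat.shiftLeft (nat_lit 0xa00000300400500d011) (nat_lit 64)) (.one (nat_lit 0xa00000300400500d010600814c81a020611)) (.br (Nat.shiftLeft (nat_lit 0xb) (nat_lit 136)) (.one (nat_lit 0xa00000300400500d011600814c81a022611))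 (.one (nat_lit 0xb00000100400500d010200816cc1a020611)))) (.br (Nat.shiftLeft (nat_lit 0xb00000200400500d011) (nat_lit 64)) (.br (Nat.shiftLeft (nat_lit 0x5800001) (nat_lit 113)) (.one (nat_lit 0xb00000100400500d011200816cc1a022611)) (.one (nat_lit 0xb00000200400500d010400816cc1a020611))) (.br (Nat.shiftLeft (nat_lit 0xb000003) (nat_lit 112)) (.one (nat_lit 0xb00000200400500d011400816cc1a022611)) (.one (nat_lit 0xb00000300400500d010600816cc1a020611))))))
def t347 : k347.all (jb2 57 fl b0) = true := by decide +kernel
noncomputable def k348 : KT := (.br (Nat.shiftLeft (nat_lit 0xd000003) (nat_lit 112)) (.br (Nat.shiftLeft (nat_lit 0xc000003) (nat_lit 112)) (.br (Nat.shiftLeft (nat_lit 0xc00000100400500d011) (nat_lit 64)) (.br (Nat.shiftLeft (nat_lit 0x3) (nat_lit 138)) (.one (nat_lit 0xb00000300400500d011600816cc1a022611)) (.one (nat_lit 0xc00000100400500d010200818d01a020611))) (.br (Nat.shiftLeft (nat_lit 0x6000001) (nat_lit 113)) (.one (nat_lit 0xc00000100400500d011200818d01a022611)) (.br (Nat.shiftLeft (nat_lit 0xc00000200400500d011) (nat_lit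 64)) (.one (nat_lit 0xc00000200400500d010400818d01a020611)) (.one (nat_lit 0xc00000200400500d011400818d01a022611))))) (.br (Nat.shiftLeft (nat_lit 0xd00000100400500d011) (nat_lit 64)) (.br (Nat.shiftLeft (nat_lit 0xc00000300400500d011) (nat_lit 64)) (.one (nat_lit 0xc00000300400500d010600818d01a020611)) (.br (Nat.shiftLeft (nat_lit 0xd) (nat_lit 136)) (.one (nat_lit 0xc00000300400500d011600818d01a022611)) (.one (nat_lit 0xd00000100400500d01020081ad41a020611)))) (.br (Nat.shiftLeft (nat_lit 0x6800001) (nat_lit 113)) (.one (nat_lit 0xd00000100400500d01120081ad41a022611)) (.br (Nat.shiftLeft (nat_lit 0xd00000200400500d011) (nat_lit 64)) (.one (nat_lit 0xd00000200400500d01040081ad41a020611)) (.one (nat_lit 0xd00000200400500d01140081ad41a022611)))))) (.br (Nat.shiftLeft (nat_lit 0x1000001) (nat_lit 125)) (.br (Nat.shiftLeft (nat_lit 0x1) (nat_lit 148)) (.br (Nat.shiftLeft (nat_lit 0xd00000300400500d011) (nat_lit 64)) (.one (nat_lit 0xd00000300400500d01060081ad41a020611)) (.one (nat_lit 0xd00000300400500d01160081ad41a022611))) (.br (Nat.shiftLeft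 (nat_lit 0x800001) (nat_lit 125)) (.one (nat_lit 0x100000100200400500d010402840a03a420711)) (.br (Nat.shiftLeft (nat_lit 0x1) (nat_lit 149)) (.one (nat_lit 0x100000200300400500d010602840a05a820711)) (.one (nat_lit 0x200000100200400500d010404880a03a420711))))) (.br (Nat.shiftLeft (nat_lit 0x1) (nat_lit 150)) (.br (Nat.shiftLeft (nat_lit 0x3) (nat_lit 148)) (.one (nat_lit 0x200000200300400500d010604880a05a820711)) (.br (Nat.shiftLeft (nat_lit 0x1800001) (nat_lit 125)) (.one (nat_lit 0x300000100200400500d0104068c0a03a420711)) (.one (nat_lit 0x300000200300400500d0106068c0a05a820711)))) (.br (Nat.shiftLeft (nat_lit 0x2000001) (nat_lit 125)) (.one (nat_lit 0x400000100200400500d010408900a03a420711)) (.br (Nat.shiftLeft (nat_lit 0x5) (nat_lit 148)) (.one (nat_lit 0x400000200300400500d010608900a05a820711)) (.one (nat_lit 0x500000100200400500d01040a940a03a420711)))))))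
def t348 : k348.all (jb2 57 fl b0) = true := by decide +kernel
noncomputable def k349 : KT := (.br (Nat.shiftLeft (nat_lit 0x3000001) (nat_lit 125)) (.br (Nat.shiftLeft (nat_lit 0x3) (nat_lit 149)) (.one (nat_lit 0x500000200300400500d01060a940a05a820711)) (.one (nat_lit 0x600000100200400500d01040c980a03a420711))) (.br (Nat.shiftLeft (nat_lit 0x7) (nat_lit 148)) (.one (nat_lit 0x600000200300400500d01060c980a05a820711)) (.br (Nat.shiftLeft (nat_lit 0x3800001) (nat_lit 125)) (.one (nat_lit 0x700000100200400500d01040e9c0a03a420711)) (.one (nat_lit 0x700000200300400500d01060e9c0a05a820711)))))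
def t349 : k349.all (jb2 57 fl b0) = true := by decide +kernel
noncomputable def k350 : KT := (.br (Nat.shiftLeft (nat_lit 0xb) (nat_lit 148)) (.br (Nat.shiftLeft (nat_lit 0x4800001) (nat_lit 125)) (.br (Nat.shiftLeft (nat_lit 0x4000001) (nat_lit 125)) (.one (nat_lit 0x800000100200400500d010410a00a03a420711)) (.br (Nat.shiftLeft (nat_lit 0x9) (nat_lit 148)) (.one (nat_lit 0x800000200300400500d010610a00a05a820711)) (.one (nat_lit 0x900000100200400500d010412a40a03a420711)))) (.br (Nat.shiftLeft (nat_lit 0x5) (nat_lit 149)) (.one (nat_lit 0x900000200300400500d010612a40a05a820711)) (.br (Nat.shiftLeft (nat_lit 0x5000001) (nat_lit 125)) (.one (nat_lit 0xa00000100200400500d010414a80a03a420711)) (.one (nat_lit 0xa00000200300400500d010614a80a05a820711))))) (.br (Nat.shiftLeft (nat_lit 0x6000001) (nat_lit 125)) (.br (Nat.shiftLeft (nat_lit 0x5800001) (nat_lit 125)) (.one (nat_lit 0xb00000100200400500d010416ac0a03a420711)) (.br (Nat.shiftLeft (nat_lit 0x3) (nat_lit 150)) (.one (nat_lit 0xb00000200300400500d010616ac0a05a820711)) (.one (nat_lit 0xc00000100200400500d010418b00a03a420711))))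 (.br (Nat.shiftLeft (nat_lit 0xd) (nat_lit 148)) (.one (nat_lit 0xc00000200300400500d010618b00a05a820711)) (.br (Nat.shiftLeft (nat_lit 0x6800001) (nat_lit 125)) (.one (nat_lit 0xd00000100200400500d01041ab40a03a420711)) (.one (nat_lit 0xd00000200300400500d01061ab40a05a820711))))))
def t350 : k350.all (jb2 57 fl b0) = true := by decide +kernel
noncomputable def s18 : KT := (.br (nat_lit 0x500000300400500d01060080ab41a020611) (.br (nat_lit 0x600000400500d011000800a0db822511) (.br (nat_lit 0x100300400500d010600800a03a420760) (.br (nat_lit 0x100200400500d011400800a03a422760) k331 k332) (.br (nat_lit 0x200300400500d010600800a05a821700) k333 (.br (nat_lit 0x400000400500d011000800a09b022511) k334 k335))) (.br (nat_lit 0xa00000400500d011000800a15c822511) (.br (nat_lit 0x800000400500d010000800a11c020511) k336 k337) (.br (nat_lit 0x300000200400500d011400806ac1a022611) k338 (.br (nat_lit 0x500000100400500d01020080ab41a020611) k339 k340)))) (.br (nat_lit 0x800000200400500d011400810c01a022611) (.br (nat_lit 0x600000300400500d01060080cb81a020611) (.br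 (nat_lit 0x600000100400500d01120080cb81a022611) k341 k342) (.br (nat_lit 0x700000100400500d01120080ebc1a022611) k343 (.br (nat_lit 0x700000300400500d01160080ebc1a022611) k344 k345))) (.br (nat_lit 0xb00000300400500d010600816cc1a020611) (.br (nat_lit 0x900000200400500d011400812c41a022611) k346 k347) (.br (nat_lit 0x500000100200400500d01040a940a03a420711) k348 (.br (nat_lit 0x700000200300400500d01060e9c0a05a820711) k349 k350)))))
noncomputable def u18 : KT := (.br (Nat.shiftLeft (nat_lit 0x400500d011) (nat_lit 64)) (.one (nat_lit 0x400500d010000800a01a020540)) (.one (nat_lit 0x400500d011000800a01a022540)))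
def w18 : u18.all (wj 57 s18) = true := by decide +kernel
def o18 : OkW 57 (jb2 57 fl) u18 := .lift s18 _ (.br _ _ _ (.br _ _ _ (.br _ _ _ (.br _ _ _ (.leaf b0 k331 t331) (.leaf b0 k332 t332)) (.br _ _ _ (.leaf b0 k333 t333) (.br _ _ _ (.leaf b0 k334 t334) (.leaf b0 k335 t335)))) (.br _ _ _ (.br _ _ _ (.leaf b0 k336 t336) (.leaf b0 k337 t337)) (.br _ _ _ (.leaf b0 k338 t338) (.br _ _ _ (.leaf b0 k339 t339) (.leaf b0 k340 t340))))) (.br _ _ _ (.br _ _ _ (.br _ _ _ (.leaf b0 k341 t341) (.leaf b0 k342 t342)) (.br _ _ _ (.leaf b0 k343 t343) (.br _ _ _ (.leaf b0 k344 t344) (.leaf b0 k345 t345)))) (.br _ _ _ (.br _ _ _ (.leaf b0 k346 t346) (.leaf b0 k347 t347)) (.br _ _ _ (.leaf b0 k348 t348) (.br _ _ _ (.leaf b0 k349 t349) (.leaf b0 k350 t350)))))) w18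
noncomputable def k351 : KT := (.br (Nat.shiftLeft (nat_lit 0x1) (nat_lit 124)) (.br (Nat.shiftLeft (nat_lit 0x4006007011) (nat_lit 64)) (.br (Nat.shiftLeft (nat_lit 0x2003) (nat_lit 89)) (.one (nat_lit 0x400500e00f000800a01c01f500)) (.br (Nat.shiftLeft (nat_lit 0x400600701) (nat_lit 68)) (.one (nat_lit 0x400600700f000800c00e01f500)) (.one (nat_lit 0x4006007010000800c00e021500)))) (.br (Nat.shiftLeft (nat_lit 0x1) (nat_lit 113)) (.br (Nat.shiftLeft (nat_lit 0x1) (nat_lit 112)) (.one (nat_lit 0x4006007011000800c00e023500)) (.one (nat_lit 0x100400500e00f200800a01c01f600))) (.br (Nat.shiftLeft (nat_lit 0x3) (nat_lit 112)) (.one (nat_lit 0x200400500e00f400800a01c01f600)) (.one (nat_lit 0x300400500e00f600800a01c01f600))))) (.br (Nat.shiftLeft (nat_lit 0x1) (nat_lit 125)) (.br (Nat.shiftLeft (nat_lit 0x801) (nat_lit 113)) (.one (nat_lit 0x100000400500e00f000800a03c41e511)) (.br (Nat.shiftLeft (nat_lit 0x1003) (nat_lit 112)) (.one (nat_lit 0x100200400500e00f400800a03c41f700)) (.one (nat_lit 0x100300400500e00f600800a03c41e760)))) (.br (Nat.shiftLeft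 (nat_lit 0x3) (nat_lit 124)) (.br (Nat.shiftLeft (nat_lit 0x1001) (nat_lit 113)) (.one (nat_lit 0x200000400500e00f000800a05c81e511)) (.one (nat_lit 0x200300400500e00f600800a05c81f700))) (.br (Nat.shiftLeft (nat_lit 0x1) (nat_lit 126)) (.one (nat_lit 0x300000400500e00f000800a07cc1e511)) (.one (nat_lit 0x400000400500e00f000800a09d01e511))))))
def t351 : k351.all (jb2 57 fl b0) = true := by decide +kernel
noncomputable def k352 : KT := (.br (Nat.shiftLeft (nat_lit 0x7) (nat_lit 124)) (.br (Nat.shiftLeft (nat_lit 0x3) (nat_lit 125)) (.one (nat_lit 0x500000400500e00f000800a0bd41e511)) (.one (nat_lit 0x600000400500e00f000800a0dd81e511))) (.br (Nat.shiftLeft (nat_lit 0x1) (nat_lit 127)) (.one (nat_lit 0x700000400500e00f000800a0fdc1e511)) (.one (nat_lit 0x800000400500e00f000800a11e01e511))))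
def t352 : k352.all (jb2 57 fl b0) = true := by decide +kernel
noncomputable def k353 : KT := (.br (Nat.shiftLeft (nat_lit 0xd) (nat_lit 124)) (.br (Nat.shiftLeft (nat_lit 0xb) (nat_lit 124)) (.br (Nat.shiftLeft (nat_lit 0x5) (nat_lit 125)) (.one (nat_lit 0x900000400500e00f000800a13e41e511)) (.one (nat_lit 0xa00000400500e00f000800a15e81e511))) (.br (Nat.shiftLeft (nat_lit 0x3) (nat_lit 126)) (.one (nat_lit 0xb00000400500e00f000800a17ec1e511)) (.one (nat_lit 0xc00000400500e00f000800a19f01e511)))) (.br (Nat.shiftLeft (nat_lit 0x1) (nat_lit 136)) (.br (Nat.shiftLeft (nat_lit 0x7) (nat_lit 125)) (.one (nat_lit 0xd00000400500e00f000800a1bf41e511)) (.one (nat_lit 0xe00000400500e00f000800a1df81e511))) (.br (Nat.shiftLeft (nat_lit 0x800001) (nat_lit 113)) (.one (nat_lit 0x100000100400500e00f200802a41c01e611)) (.br (Nat.shiftLeft (nat_lit 0x1000003) (nat_lit 112)) (.one (nat_lit 0x100000200400500e00f400802a41c01e611)) (.one (nat_lit 0x100000300400500e00f600802a41c01e611))))))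
def t353 : k353.all (jb2 57 fl b0) = true := by decide +kernel
noncomputable def k354 : KT := (.br (Nat.shiftLeft (nat_lit 0x1800001) (nat_lit 113)) (.br (Nat.shiftLeft (nat_lit 0x1000001) (nat_lit 113)) (.br (Nat.shiftLeft (nat_lit 0x1) (nat_lit 137)) (.one (nat_lit 0x100200300400500e00f600802a45c81e870)) (.one (nat_lit 0x200000100400500e00f200804a81c01e611))) (.br (Nat.shiftLeft (nat_lit 0x2000003) (nat_lit 112)) (.one (nat_lit 0x200000200400500e00f400804a81c01e611)) (.br (Nat.shiftLeft (nat_lit 0x3) (nat_lit 136)) (.one (nat_lit 0x200000300400500e00f600804a81c01e611)) (.one (nat_lit 0x300000100400500e00f200806ac1c01e611))))) (.br (Nat.shiftLeft (nat_lit 0x1) (nat_lit 138)) (.br (Nat.shiftLeft (nat_lit 0x3000003) (nat_lit 112)) (.one (nat_lit 0x300000200400500e00f400806ac1c01e611)) (.one (nat_lit 0x300000300400500e00f600806ac1c01e611))) (.br (Nat.shiftLeft (nat_lit 0x2000001) (nat_lit 113)) (.one (nat_lit 0x400000100400500e00f200808b01c01e611)) (.br (Nat.shiftLeft (nat_lit 0x4000003) (nat_lit 112)) (.one (nat_lit 0x400000200400500e00f400808b01c01e611))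 (.one (nat_lit 0x400000300400500e00f600808b01c01e611))))))
def t354 : k354.all (jb2 57 fl b0) = true := by decide +kernel
noncomputable def k355 : KT := (.br (Nat.shiftLeft (nat_lit 0x2800001) (nat_lit 113)) (.one (nat_lit 0x500000100400500e00f20080ab41c01e611)) (.br (Nat.shiftLeft (nat_lit 0x5000003) (nat_lit 112)) (.one (nat_lit 0x500000200400500e00f40080ab41c01e611)) (.one (nat_lit 0x500000300400500e00f60080ab41c01e611))))
def t355 : k355.all (jb2 57 fl b0) = true := by decide +kernel
noncomputable def k356 : KT := (.br (Nat.shiftLeft (nat_lit 0x3000001) (nat_lit 113)) (.one (nat_lit 0x600000100400500e00f20080cb81c01e611)) (.br (Nat.shiftLeft (nat_lit 0x6000003) (nat_lit 112)) (.one (nat_lit 0x600000200400500e00f40080cb81c01e611)) (.one (nat_lit 0x600000300400500e00f60080cb81c01e611))))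
def t356 : k356.all (jb2 57 fl b0) = true := by decide +kernel
noncomputable def k357 : KT := (.br (Nat.shiftLeft (nat_lit 0x7000003) (nat_lit 112)) (.br (Nat.shiftLeft (nat_lit 0x3800001) (nat_lit 113)) (.one (nat_lit 0x700000100400500e00f20080ebc1c01e611)) (.one (nat_lit 0x700000200400500e00f40080ebc1c01e611))) (.br (Nat.shiftLeft (nat_lit 0x1) (nat_lit 139)) (.one (nat_lit 0x700000300400500e00f60080ebc1c01e611)) (.one (nat_lit 0x800000100400500e00f200810c01c01e611))))
def t357 : k357.all (jb2 57 fl b0) = true := by decide +kernel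
noncomputable def k358 : KT := (.br (Nat.shiftLeft (nat_lit 0x9000003) (nat_lit 112)) (.br (Nat.shiftLeft (nat_lit 0x9) (nat_lit 136)) (.br (Nat.shiftLeft (nat_lit 0x8000003) (nat_lit 112)) (.one (nat_lit 0x800000200400500e00f400810c01c01e611)) (.one (nat_lit 0x800000300400500e00f600810c01c01e611))) (.br (Nat.shiftLeft (nat_lit 0x4800001) (nat_lit 113)) (.one (nat_lit 0x900000100400500e00f200812c41c01e611)) (.one (nat_lit 0x900000200400500e00f400812c41c01e611)))) (.br (Nat.shiftLeft (nat_lit 0x5000001) (nat_lit 113)) (.br (Nat.shiftLeft (nat_lit 0x5) (nat_lit 137)) (.one (nat_lit 0x900000300400500e00f600812c41c01e611)) (.one (nat_lit 0xa00000100400500e00f200814c81c01e611))) (.br (Nat.shiftLeft (nat_lit 0xa000003) (nat_lit 112)) (.one (nat_lit 0xa00000200400500e00f400814c81c01e611)) (.one (nat_lit 0xa00000300400500e00f600814c81c01e611)))))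
def t358 : k358.all (jb2 57 fl b0) = true := by decide +kernel
noncomputable def k359 : KT := (.br (Nat.shiftLeft (nat_lit 0x7000001) (nat_lit 113)) (.br (Nat.shiftLeft (nat_lit 0xc000003) (nat_lit 112)) (.br (Nat.shiftLeft (nat_lit 0xb000003) (nat_lit 112)) (.br (Nat.shiftLeft (nat_lit 0x5800001) (nat_lit 113)) (.one (nat_lit 0xb00000100400500e00f200816cc1c01e611)) (.one (nat_lit 0xb00000200400500e00f400816cc1c01e611))) (.br (Nat.shiftLeft (nat_lit 0x3) (nat_lit 138)) (.one (nat_lit 0xb00000300400500e00f600816cc1c01e611)) (.br (Nat.shiftLeft (nat_lit 0x6000001) (nat_lit 113)) (.one (nat_lit 0xc00000100400500e00f200818d01c01e611)) (.one (nat_lit 0xc00000200400500e00f400818d01c01e611))))) (.br (Nat.shiftLeft (nat_lit 0x6800001) (nat_lit 113)) (.br (Nat.shiftLeft (nat_lit 0xd) (nat_lit 136)) (.one (nat_lit 0xc00000300400500e00f600818d01c01e611)) (.one (nat_lit 0xd00000100400500e00f20081ad41c01e611))) (.br (Nat.shiftLeft (nat_lit 0xd000003) (nat_lit 112)) (.one (nat_lit 0xd00000200400500e00f40081ad41c01e611)) (.br (Nat.shiftLeft (nat_lit 0x7)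 (nat_lit 137)) (.one (nat_lit 0xd00000300400500e00f60081ad41c01e611)) (.one (nat_lit 0xe00000100400500e00f20081cd81c01e611)))))) (.br (Nat.shiftLeft (nat_lit 0x1000001) (nat_lit 125)) (.br (Nat.shiftLeft (nat_lit 0x1) (nat_lit 148)) (.br (Nat.shiftLeft (nat_lit 0xe000003) (nat_lit 112)) (.one (nat_lit 0xe00000200400500e00f40081cd81c01e611)) (.one (nat_lit 0xe00000300400500e00f60081cd81c01e611))) (.br (Nat.shiftLeft (nat_lit 0x800001) (nat_lit 125)) (.one (nat_lit 0x100000100200400500e00f402840a03c41e711)) (.br (Nat.shiftLeft (nat_lit 0x1) (nat_lit 149)) (.one (nat_lit 0x100000200300400500e00f602840a05c81e711)) (.one (nat_lit 0x200000100200400500e00f404880a03c41e711))))) (.br (Nat.shiftLeft (nat_lit 0x1) (nat_lit 150)) (.br (Nat.shiftLeft (nat_lit 0x3) (nat_lit 148)) (.one (nat_lit 0x200000200300400500e00f604880a05c81e711)) (.br (Nat.shiftLeft (nat_lit 0x1800001) (nat_lit 125)) (.one (nat_lit 0x300000100200400500e00f4068c0a03c41e711)) (.one (nat_lit 0x300000200300400500e00f6068c0a05c81e711)))) (.br (Nat.shiftLeft (nat_lit 0x2000001) (nat_lit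 125)) (.one (nat_lit 0x400000100200400500e00f408900a03c41e711)) (.br (Nat.shiftLeft (nat_lit 0x5) (nat_lit 148)) (.one (nat_lit 0x400000200300400500e00f608900a05c81e711)) (.one (nat_lit 0x500000100200400500e00f40a940a03c41e711)))))))
def t359 : k359.all (jb2 57 fl b0) = true := by decide +kernel
noncomputable def k360 : KT := (.br (Nat.shiftLeft (nat_lit 0x7) (nat_lit 148)) (.br (Nat.shiftLeft (nat_lit 0x3) (nat_lit 149)) (.one (nat_lit 0x500000200300400500e00f60a940a05c81e711)) (.br (Nat.shiftLeft (nat_lit 0x3000001) (nat_lit 125)) (.one (nat_lit 0x600000100200400500e00f40c980a03c41e711)) (.one (nat_lit 0x600000200300400500e00f60c980a05c81e711)))) (.br (Nat.shiftLeft (nat_lit 0x1) (nat_lit 151)) (.br (Nat.shiftLeft (nat_lit 0x3800001) (nat_lit 125)) (.one (nat_lit 0x700000100200400500e00f40e9c0a03c41e711)) (.one (nat_lit 0x700000200300400500e00f60e9c0a05c81e711))) (.br (Nat.shiftLeft (nat_lit 0x4000001) (nat_lit 125)) (.one (nat_lit 0x800000100200400500e00f410a00a03c41e711)) (.one (nat_lit 0x800000200300400500e00f610a00a05c81e711)))))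
def t360 : k360.all (jb2 57 fl b0) = true := by decide +kernel
noncomputable def k361 : KT := (.br (Nat.shiftLeft (nat_lit 0x3) (nat_lit 150)) (.br (Nat.shiftLeft (nat_lit 0x5000001) (nat_lit 125)) (.br (Nat.shiftLeft (nat_lit 0x4800001) (nat_lit 125)) (.one (nat_lit 0x900000100200400500e00f412a40a03c41e711)) (.br (Nat.shiftLeft (nat_lit 0x5) (nat_lit 149)) (.one (nat_lit 0x900000200300400500e00f612a40a05c81e711)) (.one (nat_lit 0xa00000100200400500e00f414a80a03c41e711)))) (.br (Nat.shiftLeft (nat_lit 0xb) (nat_lit 148)) (.one (nat_lit 0xa00000200300400500e00f614a80a05c81e711)) (.br (Nat.shiftLeft (nat_lit 0x5800001) (nat_lit 125)) (.one (nat_lit 0xb00000100200400500e00f416ac0a03c41e711)) (.one (nat_lit 0xb00000200300400500e00f616ac0a05c81e711))))) (.br (Nat.shiftLeft (nat_lit 0x6800001) (nat_lit 125)) (.br (Nat.shiftLeft (nat_lit 0x6000001) (nat_lit 125)) (.one (nat_lit 0xc00000100200400500e00f418b00a03c41e711)) (.br (Nat.shiftLeft (nat_lit 0xd) (nat_lit 148)) (.one (nat_lit 0xc00000200300400500e00f618b00a05c81e711)) (.one (nat_lit 0xd00000100200400500e00f41ab40a03c41e711))))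 (.br (Nat.shiftLeft (nat_lit 0x7) (nat_lit 149)) (.one (nat_lit 0xd00000200300400500e00f61ab40a05c81e711)) (.br (Nat.shiftLeft (nat_lit 0x7000001) (nat_lit 125)) (.one (nat_lit 0xe00000100200400500e00f41cb80a03c41e711)) (.one (nat_lit 0xe00000200300400500e00f61cb80a05c81e711))))))
def t361 : k361.all (jb2 57 fl b0) = true := by decide +kernel
noncomputable def s19 : KT := (.br (nat_lit 0x500000300400500e00f60080ab41c01e611) (.br (nat_lit 0x800000400500e00f000800a11e01e511) (.br (nat_lit 0x400000400500e00f000800a09d01e511) k351 k352) (.br (nat_lit 0x100000300400500e00f600802a41c01e611) k353 (.br (nat_lit 0x400000300400500e00f600808b01c01e611) k354 k355))) (.br (nat_lit 0xa00000300400500e00f600814c81c01e611) (.br (nat_lit 0x600000300400500e00f60080cb81c01e611) k356 (.br (nat_lit 0x800000100400500e00f200810c01c01e611) k357 k358)) (.br (nat_lit 0x500000100200400500e00f40a940a03c41e711) k359 (.br (nat_lit 0x800000200300400500e00f610a00a05c81e711) k360 k361))))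
noncomputable def u19 : KT := (.br (Nat.shiftLeft (nat_lit 0x400600701) (nat_lit 68)) (.br (Nat.shiftLeft (nat_lit 0x2003) (nat_lit 89)) (.one (nat_lit 0x400500e00f000800a01c01e540)) (.one (nat_lit 0x400600700f000800c00e01f500))) (.br (Nat.shiftLeft (nat_lit 0x4006007011) (nat_lit 64)) (.one (nat_lit 0x4006007010000800c00e021500)) (.one (nat_lit 0x4006007011000800c00e023500))))
def w19 : u19.all (wj 57 s19) = true := by decide +kernel
def o19 : OkW 57 (jb2 57 fl) u19 := .lift s19 _ (.br _ _ _ (.br _ _ _ (.br _ _ _ (.leaf b0 k351 t351) (.leaf b0 k352 t352)) (.br _ _ _ (.leaf b0 k353 t353) (.br _ _ _ (.leaf b0 k354 t354) (.leaf b0 k355 t355)))) (.br _ _ _ (.br _ _ _ (.leaf b0 k356 t356) (.br _ _ _ (.leaf b0 k357 t357) (.leaf b0 k358 t358))) (.br _ _ _ (.leaf b0 k359 t359) (.br _ _ _ (.leaf b0 k360 t360) (.leaf b0 k361 t361))))) w19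
noncomputable def k362 : KT := (.br (Nat.shiftLeft (nat_lit 0x1003) (nat_lit 112)) (.br (Nat.shiftLeft (nat_lit 0x3) (nat_lit 112)) (.br (Nat.shiftLeft (nat_lit 0x1) (nat_lit 112)) (.one (nat_lit 0x4006007012000800c00e025500)) (.br (Nat.shiftLeft (nat_lit 0x1) (nat_lit 113)) (.one (nat_lit 0x1004006007012200800c00e025600)) (.one (nat_lit 0x2004006007012400800c00e025600)))) (.br (Nat.shiftLeft (nat_lit 0x1) (nat_lit 124)) (.one (nat_lit 0x3004006007012600800c00e025600)) (.br (Nat.shiftLeft (nat_lit 0x801) (nat_lit 113)) (.one (nat_lit 0x1000004006007012000800c02e424511)) (.one (nat_lit 0x1002004006007012400800c02e425700))))) (.br (Nat.shiftLeft (nat_lit 0x3) (nat_lit 124)) (.br (Nat.shiftLeft (nat_lit 0x1) (nat_lit 125)) (.one (nat_lit 0x1003004006007012600800c02e425700)) (.br (Nat.shiftLeft (nat_lit 0x1001) (nat_lit 113)) (.one (nat_lit 0x2000004006007012000800c04e824511)) (.one (nat_lit 0x2003004006007012600800c04e825700)))) (.br (Nat.shiftLeft (nat_lit 0x5) (nat_lit 124)) (.br (Nat.shiftLeft (nat_lit 0x1) (nat_lit 126)) (.one (nat_lit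 0x3000004006007012000800c06ec24511)) (.one (nat_lit 0x4000004006007012000800c08f024511))) (.br (Nat.shiftLeft (nat_lit 0x3) (nat_lit 125)) (.one (nat_lit 0x5000004006007012000800c0af424511)) (.one (nat_lit 0x6000004006007012000800c0cf824511))))))
noncomputable def b363 : BT := .node (nat_lit 0x3) (nat_lit 0x1bc2db32a23785b68935000ca6400ab58002ca680132990b78526cdb36f124d52c69914c913040132d8000ca64013a59002ab64003a98002a99c300221002210016600050) .leaf .leaf
def t362 : k362.all (jb2 57 fl b363) = true := by decide +kernel
noncomputable def k363 : KT := (.br (Nat.shiftLeft (nat_lit 0x1000001) (nat_lit 113)) (.br (Nat.shiftLeft (nat_lit 0x1000003) (nat_lit 112)) (.br (Nat.shiftLeft (nat_lit 0x1) (nat_lit 136)) (.one (nat_lit 0x7000004006007012000800c0efc24511)) (.br (Nat.shiftLeft (nat_lit 0x800001) (nat_lit 113)) (.one (nat_lit 0x1000001004006007012200802c40e024611)) (.one (nat_lit 0x1000002004006007012400802c40e024611)))) (.br (Nat.shiftLeft (nat_lit 0x801) (nat_lit 125)) (.one (nat_lit 0x1000003004006007012600802c40e024611)) (.br (Nat.shiftLeft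 (nat_lit 0x1) (nat_lit 137)) (.one (nat_lit 0x1002003004006007012600802c44e825800)) (.one (nat_lit 0x2000001004006007012200804c80e024611))))) (.br (Nat.shiftLeft (nat_lit 0x1800001) (nat_lit 113)) (.br (Nat.shiftLeft (nat_lit 0x2000003) (nat_lit 112)) (.one (nat_lit 0x2000002004006007012400804c80e024611)) (.br (Nat.shiftLeft (nat_lit 0x3) (nat_lit 136)) (.one (nat_lit 0x2000003004006007012600804c80e024611)) (.one (nat_lit 0x3000001004006007012200806cc0e024611)))) (.br (Nat.shiftLeft (nat_lit 0x3000003) (nat_lit 112)) (.one (nat_lit 0x3000002004006007012400806cc0e024611)) (.br (Nat.shiftLeft (nat_lit 0x1) (nat_lit 138)) (.one (nat_lit 0x3000003004006007012600806cc0e024611)) (.one (nat_lit 0x4000001004006007012200808d00e024611))))))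
noncomputable def b364 : BT := .node (nat_lit 0xb) (nat_lit 0x1231261258e4624bd49b48c64649634c8950ca86005933000463200996c001553800596c00255b2001d4c001563226d9939d26ade16da258c0032d8000ab68003a5a000ac602de14c913064632322a180065b000553380265b00051ac85bc293749b48c5bc4543918a4d932523149b264801ba98004aa700032d80048d6401325c006ac60013a5a0048d60400549003d7003d7003d70031c0031c0031c00261000f0000f0000f0000f0) .leaf .leaf
def t363 : k363.all (jb2 57 fl b364) = true := by decide +kernel
noncomputable def k364 : KT := (.br (Nat.shiftLeft (nat_lit 0x4000003) (nat_lit 112)) (.one (nat_lit 0x4000002004006007012400808d00e024611)) (.br (Nat.shiftLeft (nat_lit 0x5) (nat_lit 136)) (.one (nat_lit 0x4000003004006007012600808d00e024611)) (.one (nat_lit 0x500000100400600701220080ad40e024611))))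
def t364 : k364.all (jb2 57 fl b0) = true := by decide +kernel
noncomputable def k365 : KT := (.br (Nat.shiftLeft (nat_lit 0x5000003) (nat_lit 112)) (.one (nat_lit 0x500000200400600701240080ad40e024611)) (.one (nat_lit 0x500000300400600701260080ad40e024611)))
noncomputable def b366 : BT := .node (nat_lit 0xb) (nat_lit 0x9352611398003a62000ac641a869352a200073b60019ab0323149aa648003a1a0008d60100210001b0001b0001510015100151001510015100151000f0000f0000f0) .leaf .leaf
def t365 : k365.all (jb2 57 fl b366) = true := by decide +kernel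
noncomputable def k366 : KT := (.one (nat_lit 0x600000100400600701220080cd80e024611))
noncomputable def b367 : BT := .node (nat_lit 0xb) (nat_lit 0x126a9362608007530001571832326d99455322db449ac8c5b66de2918945926a00194c80146b2005d2d0026532005d2c80156300059ab00145b626f0950d324de16d9939c0032d9000ac60003299000ab6c2918a5913252312a1a590003a590008d60002b57000ab68200439003d9003d90026700267001ac001ac001ac001ac001ac001ac000f0) .leaf .leaf
def t366 : k366.all (jb2 57 fl b367) = true := by decide +kernel
noncomputable def k367 : KT := (.one (nat_lit 0x600000200400600701240080cd80e024611))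
noncomputable def b368 : BT := .node (nat_lit 0x1d) (nat_lit 0x3785bc45716f09510a869916d9a4d9bc29644b1c8c4982936918b6d1b66de16f113040032d8004ad5c01ba980088d6401ba59004ca68023a98004ab6402aae300aaa7002b2d8008ca64013a980028a9c7db36da1305bc2db3260800753000117280074b2001173053244c12a180073ca00158c835089ce5724b1945526a001d0d80065b000198b80064b616d9130932400191380056ae0c8c6464935000cb60002a9b0670526c514000e770002b57064d126c4bd6d936cc9ce00196c80065b000194c800563414c8a648982de149b24d0003a98000a99c003a5a000ab64200946009460094600946006c4006c4006c4006090060900609006090060900609005a9005a9005a9004ef004ef004ef0048f0042e0042e003ce00313003130031300313002580025800258) .leaf .leaf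
def t367 : k367.all (jb2 57 fl b368) = true := by decide +kernel
noncomputable def k368 : KT := (.br (Nat.shiftLeft (nat_lit 0x7) (nat_lit 136)) (.one (nat_lit 0x600000300400600701260080cd80e024611)) (.one (nat_lit 0x700000100400600701220080edc0e025601)))
noncomputable def b369 : BT := .node (nat_lit 0x11) (nat_lit 0x9352611454003a62000ac641db26d9a4d40132d8000cb601de14b22648003a59000ac601002880028800288002880028800228001c80016800168001680016800168001680016800168001680016800168) .leaf .leaf
def t368 : k368.all (jb2 57 fl b369) = true := by decide +kernel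
noncomputable def k369 : KT := (.one (nat_lit 0x700000200400600701240080edc0e024611))
noncomputable def b370 : BT := .node (nat_lit 0x1d) (nat_lit 0x4b1a4d897b23128ab6d13225722b880174b400596c00056ae00556d00175300095ab872c64bd26080065b00019328350c9ce4c1000e86c0032a2076cd2c6543000cb60002b57077849849634b1a590a2800193300055b2001d4c00056ae149a9454a2b2316d9a4d80032d9000cb60003299000ab6c20060300603004ed004ed004ed004ed004ed0048d0048d0048d0048d0048d0048d0048d0048d0048d0042e0042e0042e0042e0042e0042e0042e003ce003130031300313002580025800258) .leaf .leaf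
def t369 : k369.all (jb2 57 fl b370) = true := by decide +kernel
noncomputable def k370 : KT := (.br (Nat.shiftLeft (nat_lit 0x2000001003) (nat_lit 112)) (.br (Nat.shiftLeft (nat_lit 0x800001) (nat_lit 125)) (.br (Nat.shiftLeft (nat_lit 0x1) (nat_lit 148)) (.one (nat_lit 0x700000300400600701260080edc0e024611)) (.br (Nat.shiftLeft (nat_lit 0x1000001003) (nat_lit 112)) (.one (nat_lit 0x1000001002004006007012402840c02e424711)) (.one (nat_lit 0x1000001003004006007012602840c02e424711)))) (.br (Nat.shiftLeft (nat_lit 0x401) (nat_lit 138)) (.one (nat_lit 0x1000002003004006007012602840c04e824711)) (.br (Nat.shiftLeft (nat_lit 0x1) (nat_lit 149)) (.one (nat_lit 0x100700000100400600701220284edc0e024621)) (.one (nat_lit 0x2000001002004006007012404880c02e424711))))) (.br (Nat.shiftLeft (nat_lit 0x3) (nat_lit 148)) (.br (Nat.shiftLeft (nat_lit 0x1000001) (nat_lit 125)) (.one (nat_lit 0x2000001003004006007012604880c02e424711)) (.br (Nat.shiftLeft (nat_lit 0x801) (nat_lit 138)) (.one (nat_lit 0x2000002003004006007012604880c04e824711)) (.one (nat_lit 0x200700000100400600701220488edc0e024621))))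 (.br (Nat.shiftLeft (nat_lit 0x1800001) (nat_lit 125)) (.br (Nat.shiftLeft (nat_lit 0x3000001003) (nat_lit 112)) (.one (nat_lit 0x30000010020040060070124068c0c02e424711)) (.one (nat_lit 0x30000010030040060070126068c0c02e424711))) (.br (Nat.shiftLeft (nat_lit 0xc01) (nat_lit 138)) (.one (nat_lit 0x30000020030040060070126068c0c04e824711)) (.one (nat_lit 0x30070000010040060070122068cedc0e024621))))))
noncomputable def b371 : BT := .node (nat_lit 0x1) (nat_lit 0x12312a1a5900033170008c6810008900028) .leaf .leaf
def t370 : k370.all (jb2 57 fl b371) = true := by decide +kernel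
noncomputable def k371 : KT := (.br (Nat.shiftLeft (nat_lit 0x2000001) (nat_lit 125)) (.br (Nat.shiftLeft (nat_lit 0x4000001003) (nat_lit 112)) (.one (nat_lit 0x4000001002004006007012408900c02e424711)) (.one (nat_lit 0x4000001003004006007012608900c02e424711))) (.br (Nat.shiftLeft (nat_lit 0x1001) (nat_lit 138)) (.one (nat_lit 0x4000002003004006007012608900c04e824711)) (.one (nat_lit 0x400700000100400600701220890edc0e024621))))
noncomputable def b372 : BT := .node (nat_lit 0x3) (nat_lit 0x1b64db4273800653400158c83bc2db349ba6452c69644c8b6d126d23149b36cc00ba59006ab6c023a59002cb60013a5a000ca6801b2d8004ab64400221001c1001c100050) .leaf .leaf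
def t371 : k371.all (jb2 57 fl b372) = true := by decide +kernel
noncomputable def k372 : KT := (.one (nat_lit 0x500000100200400600701240a940c02e424711))
noncomputable def b373 : BT := .node (nat_lit 0x17) (nat_lit 0x48c52689c1918939d38200194c80056ae00192e000472e16d99454a88992273a58c003a590008e600032d9000ca642918939d2c800196c80046340c8c49ce5444c924d49cc001d2c8013734009d2c801563216f093089ce001d3100045ba0ef0a4d0ae4db249a9454003299000af540032d8000ad60291893992c8de128b258dbc296349aa58c9cc544004cc5c01231a004cb6401ab18000ca64013299006e868012b58124d09cc5449189511b66de1261139c003a1a000ae5c002b58000ab64003a620008b743de12a21684003a1a0008f5c100877008770087700877007bb007000069f0069f005e300583004c8003560035600356003560035600356002400024000240001e0001e0001e0001e0) .leaf .leaf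
def t372 : k372.all (jb2 57 fl b373) = true := by decide +kernel
noncomputable def k373 : KT := (.one (nat_lit 0x500000100300400600701260a940c02e424711))
noncomputable def b374 : BT := .node (nat_lit 0x17) (nat_lit 0xdb249aa7064625736d9c8c4a2c544918930926adb22b9a648013a1a004ad5c00ab97002ab6400ba590046e6800b2a40008b6c003318000ac60596328aa4d5bc24c128b00066ac00194c800744600118e052c65432a180065b200196c032312612591b64935260b6c89ce544000c99400231a000ca68002ae4000e8680023990e4624e64b248c49829926f094552c800198b800463400191380046b000194d00055b41ef0950d26a0019ab00055360cc8a58c98400194c80064cc0c9a24d4a2adb226124d526851549a80074b20015ac000654800156d00066ac00196c072312b924d4002bd5000aa6c19622d0a58c0033d4000ca6410098c007c0007c0007c0007050070500705006a5006a5006a5006a50058e0058e004770047700417003b7002a10024000240001e0001e0001e0001e0) .leaf .leaf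
def t373 : k373.all (jb2 57 fl b374) = true := by decide +kernel
noncomputable def k374 : KT := (.br (Nat.shiftLeft (nat_lit 0x1401) (nat_lit 138)) (.one (nat_lit 0x500000200300400600701260a940c04e824711)) (.one (nat_lit 0x500700000100400600701220a94edc0e024621)))
noncomputable def b375 : BT := .node (nat_lit 0x2e) (nat_lit 0x6d9151126a0019ca80055360cb19511268db22732648003395000ca640032d9000ad5c2918930926b2312b9b6cc0032a40008b6c002bd6000ab642de149b15c40041db0008e5c1db22739455bc24e72b9b6c89749346f09309324001d2c80146b4005d0d001473200996c00265320059138005630248c4a2a9356f0b7892c80015ab80055b400196c000653414e0a4d4a2a001d0d00056320c9a13989cc00198b80065340ed9151138293425d13040032d9000ad5c0032d8000ca9020098b0098b0098b0098b0098b0098b0098b0092b0092b0092b0092b00870008700087000870008700087000870008700087000870008700087000870008700087000870007b4007b4007b400754005e300527004c7004c7004c7004c7004c7004c70046700467003ac003ac003ac003ac003ac003ac) .leaf .leaf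
def t374 : k374.all (jb2 57 fl b375) = true := by decide +kernel
noncomputable def k375 : KT := (.one (nat_lit 0x600000100200400600701240c980c02e424711))
noncomputable def b376 : BT := .node (nat_lit 0x3b) (nat_lit 0x1bc29642a1b6c926c992918b6cc982001d2c80056ae009d2c80256ae00594c80145cc1c8c4b42de24c8a5909820015ea8005630001d2d000554a16d912f4982db249b258d2c693528a801753000517300274b400958c00074b200158c8723128ab6cd2c696428a80056b000156c80065b000194d05bc293626080064b800157183b649642a180065b00015ac0323228a24d53229354b200056ae00154d80074b200194d05bc25162b900074360011cc03bc24c149b36c89ce9c191892f526d2312d0a6480032a3000aa7000321d000ae580032d80008b700033950008d60400ba100a8b00a8b009cf008b9008b9008b9008b9008b9008b9008b9008b9008b9008b9008b9007fd007fd007fd007fd007fd0079d0079d0079d0079d0079d0079d0079d0079d0079d0079d0079d0079d0079d0079d0079d0079d0079d0079d0079d0079d0079d0079d0079d0079d0073d0073d006810068100681006810068100621006210062100621006210062100621004b0004b0) .leaf .leaf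
def t375 : k375.all (jb2 57 fl b376) = true := by decide +kernel
noncomputable def k376 : KT := (.one (nat_lit 0x600000100300400600701260c980c02e424711))
noncomputable def b377 : BT := .node (nat_lit 0x17) (nat_lit 0x36c926a5726f09511324db2261258c00b2d8002af5400b318000ac6000b266004ac603db349a930400329a000ab8c19926d9a4d4003a59000ca681de12a22590003356000ab6819189304ae699249a93040039a60006f64003a1b000ab8c2004d2004d2004d2004d2003bc003bc003bc003bc0035c0035c002fc002fc002fc002fc002fc002fc0029c0029c0029c0029c0029c0029c0029c001e0) .leaf .leaf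
def t376 : k376.all (jb2 57 fl b377) = true := by decide +kernel
noncomputable def k377 : KT := (.br (Nat.shiftLeft (nat_lit 0x1801) (nat_lit 138)) (.one (nat_lit 0x600000200300400600701260c980c04e824711)) (.one (nat_lit 0x600700000100400600701220c98edc0e024621)))
def t377 : k377.all (jb2 57 fl b0) = true := by decide +kernel
noncomputable def k378 : KT := (.one (nat_lit 0x700000100200400600701240e9c0c02e424711))
noncomputable def b379 : BT := .node (nat_lit 0x17) (nat_lit 0x24625446d9b6cc9829364b19304a2c0015ac00055b200195100055b6001d1180056341ed913092c723149b36ce4625154b236c92c6963000c998002b18000ca6c002ad9000cb6400231a000cb600032d813785b66515000ca64002b1a076cca86963000cc5c002b18064d09ce515000e964002b58064d497c935000cb640032d806b924dc9800020ce00055c40ed936cd26cdb26d9a58c00ba98002ab6c0132d8000cb602007020070200702005eb005eb005eb005eb0047a0047a0047a0041a003ba003ba0035a0035a0035a002fa0029b0029b001e0001e0001e0001e0001e0) .leaf .leaf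
def t378 : k378.all (jb2 57 fl b379) = true := by decide +kernel
noncomputable def k379 : KT := (.br (Nat.shiftLeft (nat_lit 0x1) (nat_lit 160)) (.br (Nat.shiftLeft (nat_lit 0x3800001) (nat_lit 125)) (.one (nat_lit 0x700000100300400600701260e9c0c02e424711)) (.one (nat_lit 0x700000200300400600701260e9c0c04e824711))) (.br (Nat.shiftLeft (nat_lit 0x1) (nat_lit 161)) (.one (nat_lit 0x1000001002003004006007012640802c44ea28811)) (.br (Nat.shiftLeft (nat_lit 0x3) (nat_lit 160)) (.one (nat_lit 0x2000001002003004006007012680802c44ec2c811)) (.one (nat_lit 0x30000010020030040060070126c0802c44ee30811)))))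
noncomputable def b380 : BT := .node (nat_lit 0xb) (nat_lit 0x6f0945938200192e00056ae0c8c4a2adb36d995c92c72312a1a64800ab1a002ab6400b317000ac6000ab58004ac6030026700267002670026700267002670026700267002070020700207000f0) .leaf .leaf
def t379 : k379.all (jb2 57 fl b380) = true := by decide +kernel
noncomputable def k380 : KT := (.br (Nat.shiftLeft (nat_lit 0x3) (nat_lit 161)) (.br (Nat.shiftLeft (nat_lit 0x5) (nat_lit 160)) (.one (nat_lit 0x4000001002003004006007012700802c44f034811)) (.one (nat_lit 0x5000001002003004006007012740802c44f238811))) (.br (Nat.shiftLeft (nat_lit 0x7) (nat_lit 160)) (.one (nat_lit 0x6000001002003004006007012780802c44f43c811)) (.one (nat_lit 0x70000010020030040060070127c0802c44f640811))))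
noncomputable def b381 : BT := .node (nat_lit 0x17) (nat_lit 0x4b12649268001d4c00065320c8c49825166f0b6cca2ade12b9a58c003a230006d70003a590008d68003357000ab64399228b15c9bc25162b980073b60015cb80074340011cc852312d1258c0033d50008c641004730047300473004730047300473004730041300413004130041300413002fc002fc002fc002410024100241001e0001e0001e0001e0001e0001e0) .leaf .leaf
def t380 : k380.all (jb2 57 fl b381) = true := by decide +kernel
noncomputable def s20 : KT := (.br (nat_lit 0x30070000010040060070122068cedc0e024621) (.br (nat_lit 0x500000300400600701260080ad40e024611) (.br (nat_lit 0x4000001004006007012200808d00e024611) (.br (nat_lit 0x6000004006007012000800c0cf824511) k362 k363) (.br (nat_lit 0x500000100400600701220080ad40e024611) k364 k365)) (.br (nat_lit 0x600000200400600701240080cd80e024611) (.br (nat_lit 0x600000100400600701220080cd80e024611) k366 k367) (.br (nat_lit 0x700000100400600701220080edc0e025601) k368 (.br (nat_lit 0x700000200400600701240080edc0e024611) k369 k370)))) (.br (nat_lit 0x600000100200400600701240c980c02e424711) (.br (nat_lit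 0x500000100200400600701240a940c02e424711) (.br (nat_lit 0x400700000100400600701220890edc0e024621) k371 k372) (.br (nat_lit 0x500000100300400600701260a940c02e424711) k373 (.br (nat_lit 0x500700000100400600701220a94edc0e024621) k374 k375))) (.br (nat_lit 0x600700000100400600701220c98edc0e024621) (.br (nat_lit 0x600000100300400600701260c980c02e424711) k376 k377) (.br (nat_lit 0x700000100200400600701240e9c0c02e424711) k378 (.br (nat_lit 0x30000010020030040060070126c0802c44ee30811) k379 k380)))))
noncomputable def u20 : KT := (.one (nat_lit 0x4006007012000800c00e024540))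
def w20 : u20.all (wj 57 s20) = true := by decide +kernel
def o20 : OkW 57 (jb2 57 fl) u20 := .lift s20 _ (.br _ _ _ (.br _ _ _ (.br _ _ _ (.br _ _ _ (.leaf b363 k362 t362) (.leaf b364 k363 t363)) (.br _ _ _ (.leaf b0 k364 t364) (.leaf b366 k365 t365))) (.br _ _ _ (.br _ _ _ (.leaf b367 k366 t366) (.leaf b368 k367 t367)) (.br _ _ _ (.leaf b369 k368 t368) (.br _ _ _ (.leaf b370 k369 t369) (.leaf b371 k370 t370))))) (.br _ _ _ (.br _ _ _ (.br _ _ _ (.leaf b372 k371 t371) (.leaf b373 k372 t372)) (.br _ _ _ (.leaf b374 k373 t373) (.br _ _ _ (.leaf b375 k374 t374) (.leaf b376 k375 t375)))) (.br _ _ _ (.br _ _ _ (.leaf b377 k376 t376) (.leaf b0 k377 t377)) (.br _ _ _ (.leaf b379 k378 t378) (.br _ _ _ (.leaf b380 k379 t379) (.leaf b381 k380 t380)))))) w20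
noncomputable def k : KT := (.br (nat_lit 0x400500b00f000800a01601f500) (.br (nat_lit 0x4005009012000800a012024540) (.br (nat_lit 0x4005008012000800a010024540) (.br (nat_lit 0x4005008011000800a010023500) u0 u1) (.br (nat_lit 0x4005008013000800a010026540) u2 (.br (nat_lit 0x4005009011000800a012023500) u3 u4))) (.br (nat_lit 0x400500a010000800a014021500) (.br (nat_lit 0x4005009013000800a012026540) u5 u6) (.br (nat_lit 0x400500a011000800a014022540) u7 (.br (nat_lit 0x400500a012000800a014024540) u8 u9)))) (.br (nat_lit 0x400500c010000800a018020540) (.br (nat_lit 0x400500b011000800a016022540) (.br (nat_lit 0x400500b010000800a016020540) u10 u11) (.br (nat_lit 0x400500c00e000800a01801d500) u12 (.br (nat_lit 0x400500c00f000800a01801e540) u13 u14))) (.br (nat_lit 0x400500d00f000800a01a01e540) (.br (nat_lit 0x400500c012000800a018024540) u15 (.br (nat_lit 0x400500d00e000800a01a01c540) u16 u17)) (.br (nat_lit 0x400500d011000800a01a022540) u18 (.br (nat_lit 0x4006007011000800c00e023500) u19 u20)))))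
theorem ok : OkW 57 (jb2 57 fl) k := (.br _ _ _ (.br _ _ _ (.br _ _ _ (.br _ _ _ o0 o1) (.br _ _ _ o2 (.br _ _ _ o3 o4))) (.br _ _ _ (.br _ _ _ o5 o6) (.br _ _ _ o7 (.br _ _ _ o8 o9)))) (.br _ _ _ (.br _ _ _ (.br _ _ _ o10 o11) (.br _ _ _ o12 (.br _ _ _ o13 o14))) (.br _ _ _ (.br _ _ _ o15 (.br _ _ _ o16 o17)) (.br _ _ _ o18 (.br _ _ _ o19 o20)))))

end Pool.Agent.Lib.MP_ed43e6_ag.Q.Y57.R30
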