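import Pool.Agent.Lib.MP_ed43e6_ag.Y57.Fl

namespace Pool.Agent.Lib.MP_ed43e6_ag.Q.Y57.R31

set_option linter.defProp false

noncomputable def b0 : BT := .node (nat_lit 1) (nat_lit 0) .leaf .leaf
noncomputable def k0 : KT := (.br (Nat.shiftLeft (nat_lit 0x1003) (nat_lit 112)) (.br (Nat.shiftLeft (nat_lit 0x3) (nat_lit 112)) (.br (Nat.shiftLeft (nat_lit 0x1) (nat_lit 112)) (.one (nat_lit 0x4006007013000800c00e027500)) (.br (Nat.shiftLeft (nat_lit 0x1) (nat_lit 113)) (.one (nat_lit 0x1004006007013200800c00e027600)) (.one (nat_lit 0x2004006007013400800c00e027600)))) (.br (Nat.shiftLeft (nat_lit 0x1) (nat_lit 124)) (.one (nat_lit 0x3004006007013600800c00e027600)) (.br (Nat.shiftLeft (nat_lit 0x801) (nat_lit 113)) (.one (nat_lit 0x1000004006007013000800c02e426511)) (.one (nat_lit 0x1002004006007013400800c02e427700))))) (.br (Nat.shiftLeft (nat_lit 0x3) (nat_lit 124)) (.br (Nat.shiftLeft (nat_lit 0x1) (nat_lit 125)) (.one (nat_lit 0x1003004006007013600800c02e427700)) (.br (Nat.shiftLeft (nat_lit 0x1001) (nat_lit 113)) (.one (nat_lit 0x2000004006007013000800c04e826511))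 (.one (nat_lit 0x2003004006007013600800c04e827700)))) (.br (Nat.shiftLeft (nat_lit 0x5) (nat_lit 124)) (.br (Nat.shiftLeft (nat_lit 0x1) (nat_lit 126)) (.one (nat_lit 0x3000004006007013000800c06ec26511)) (.one (nat_lit 0x4000004006007013000800c08f026511))) (.br (Nat.shiftLeft (nat_lit 0x3) (nat_lit 125)) (.one (nat_lit 0x5000004006007013000800c0af426511)) (.one (nat_lit 0x6000004006007013000800c0cf826511))))))
noncomputable def b1 : BT := .node (nat_lit 0x3) (nat_lit 0x918930ca2a001d1280036b60ef0c8c926adb328b24d4003a98000aa6c003356000ab6420016c0010b0005000050) .leaf .leaf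
def t0 : k0.all (jb2 57 fl b1) = true := by decide +kernel
noncomputable def k1 : KT := (.br (Nat.shiftLeft (nat_lit 0x800001) (nat_lit 113)) (.br (Nat.shiftLeft (nat_lit 0x1) (nat_lit 136)) (.one (nat_lit 0x7000004006007013000800c0efc26511)) (.one (nat_lit 0x1000001004006007013200802c40e026611))) (.br (Nat.shiftLeft (nat_lit 0x1000003) (nat_lit 112)) (.one (nat_lit 0x1000002004006007013400802c40e026611)) (.one (nat_lit 0x1000003004006007013600802c40e026611))))
noncomputable def b2 : BT := .node (nat_lit 0x1) (nat_lit 0x2649b665156f0c8c926d23149ba58c003a59000ad5c003a98000aa7000329b000ab6430013e00028) .leaf .leaf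
def t1 : k1.all (jb2 57 fl b2) = true := by decide +kernel
noncomputable def k2 : KT := (.br (Nat.shiftLeft (nat_lit 0x3) (nat_lit 136)) (.br (Nat.shiftLeft (nat_lit 0x1000001) (nat_lit 113)) (.br (Nat.shiftLeft (nat_lit 0x1) (nat_lit 137)) (.one (nat_lit 0x1002003004006007013600802c44e826870)) (.one (nat_lit 0x2000001004006007013200804c80e026611))) (.br (Nat.shiftLeft (nat_lit 0x2000003) (nat_lit 112)) (.one (nat_lit 0x2000002004006007013400804c80e026611)) (.one (nat_lit 0x2000003004006007013600804c80e026611)))) (.br (Nat.shiftLeft (nat_lit 0x3000003) (nat_lit 112)) (.br (Nat.shiftLeft (nat_lit 0x1800001) (nat_lit 113)) (.one (nat_lit 0x3000001004006007013200806cc0e026611)) (.one (nat_lit 0x3000002004006007013400806cc0e026611))) (.br (Nat.shiftLeft (nat_lit 0x1) (nat_lit 138)) (.one (nat_lit 0x3000003004006007013600806cc0e026611)) (.one (nat_lit 0x4000001004006007013200808d00e026611)))))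
def t2 : k2.all (jb2 57 fl b0) = true := by decide +kernel
noncomputable def k3 : KT := (.br (Nat.shiftLeft (nat_lit 0x4000003) (nat_lit 112)) (.one (nat_lit 0x4000002004006007013400808d00e026611)) (.br (Nat.shiftLeft (nat_lit 0x5) (nat_lit 136)) (.one (nat_lit 0x4000003004006007013600808d00e026611)) (.one (nat_lit 0x500000100400600701320080ad40e026611))))
def t3 : k3.all (jb2 57 fl b0) = true := by decide +kernel
noncomputable def k4 : KT := (.br (Nat.shiftLeft (nat_lit 0x5000003) (nat_lit 112)) (.one (nat_lit 0x500000200400600701340080ad40e026611)) (.one (nat_lit 0x500000300400600701360080ad40e026611)))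
def t4 : k4.all (jb2 57 fl b0) = true := by decide +kernel
noncomputable def k5 : KT := (.one (nat_lit 0x600000100400600701320080cd80e026611))
noncomputable def b6 : BT := .node (nat_lit 0x1) (nat_lit 0x48c8a2a9634b2130926a9632a1950c002b19000ab640032a4000ca64003a98000ad5c30013f00028) .leaf .leaf
def t5 : k5.all (jb2 57 fl b6) = true := by decide +kernel
noncomputable def k6 : KT := (.one (nat_lit 0x600000200400600701340080cd80e026611))
noncomputable def b7 : BT := .node (nat_lit 0xb) (nat_lit 0x6f0b6cca86001d2c80047300d424b2139c003a1a000cb641001af001af001af001af001af001af001af001af0014f0014f000f0000f0) .leaf .leaf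
def t6 : k6.all (jb2 57 fl b7) = true := by decide +kernel
noncomputable def k7 : KT := (.one (nat_lit 0x600000300400600701360080cd80e026611))
def t7 : k7.all (jb2 57 fl b0) = true := by decide +kernel
noncomputable def k8 : KT := (.one (nat_lit 0x700000100400600701320080edc0e026611))
def t8 : k8.all (jb2 57 fl b0) = true := by decide +kernel
noncomputable def k9 : KT := (.one (nat_lit 0x700000200400600701340080edc0e026611))
def t9 : k9.all (jb2 57 fl b0) = true := by decide +kernel
noncomputable def k10 : KT := (.br (Nat.shiftLeft (nat_lit 0x1000001) (nat_lit 125)) (.br (Nat.shiftLeft (nat_lit 0x800001) (nat_lit 125)) (.br (Nat.shiftLeft (nat_lit 0x1) (nat_lit 148)) (.one (nat_lit 0x700000300400600701360080edc0e026611)) (.br (Nat.shiftLeft (nat_lit 0x1000001003) (nat_lit 112)) (.one (nat_lit 0x1000001002004006007013402840c02e426711)) (.one (nat_lit 0x1000001003004006007013602840c02e426711)))) (.br (Nat.shiftLeft (nat_lit 0x1) (nat_lit 149)) (.one (nat_lit 0x1000002003004006007013602840c04e826711)) (.br (Nat.shiftLeft (nat_lit 0x2000001003)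 (nat_lit 112)) (.one (nat_lit 0x2000001002004006007013404880c02e426711)) (.one (nat_lit 0x2000001003004006007013604880c02e426711))))) (.br (Nat.shiftLeft (nat_lit 0x1800001) (nat_lit 125)) (.br (Nat.shiftLeft (nat_lit 0x3) (nat_lit 148)) (.one (nat_lit 0x2000002003004006007013604880c04e826711)) (.br (Nat.shiftLeft (nat_lit 0x3000001003) (nat_lit 112)) (.one (nat_lit 0x30000010020040060070134068c0c02e426711)) (.one (nat_lit 0x30000010030040060070136068c0c02e426711)))) (.br (Nat.shiftLeft (nat_lit 0x4000001003) (nat_lit 112)) (.br (Nat.shiftLeft (nat_lit 0x1) (nat_lit 150)) (.one (nat_lit 0x30000020030040060070136068c0c04e826711)) (.one (nat_lit 0x4000001002004006007013408900c02e426711))) (.br (Nat.shiftLeft (nat_lit 0x2000001) (nat_lit 125)) (.one (nat_lit 0x4000001003004006007013608900c02e426711)) (.one (nat_lit 0x4000002003004006007013608900c04e826711))))))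
def t10 : k10.all (jb2 57 fl b0) = true := by decide +kernel
noncomputable def k11 : KT := (.br (Nat.shiftLeft (nat_lit 0x5000001003) (nat_lit 112)) (.one (nat_lit 0x500000100200400600701340a940c02e426711)) (.one (nat_lit 0x500000100300400600701360a940c02e426711)))
noncomputable def b12 : BT := .node (nat_lit 0x2f) (nat_lit 0x132293528ac8c5b66515000e964002b58000ca6400235a0a590984515000e890002b1907784a2a5736d994552c6001d0d000473200196c800563016d936cca2cde12611510003299000ac680039e60008d682de14b193980032d8000ab6c199249a9308003a1a000ab9410071100711007110071100711007110071100711007110071100656006560065600656005f6005f6005f6005f6005f6005f6005f6005f6005f6005f6005f6005f6005f6005f60053b004800048000480004200042000420004200042000420004200042000420003c0003c0003c0003c0003c0003c0003c0) .leaf .leaf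
def t11 : k11.all (jb2 57 fl b12) = true := by decide +kernel
noncomputable def k12 : KT := (.br (Nat.shiftLeft (nat_lit 0x3) (nat_lit 149)) (.one (nat_lit 0x500000200300400600701360a940c04e826711)) (.one (nat_lit 0x600000100200400600701340c980c02e426711)))
noncomputable def b13 : BT := .node (nat_lit 0x17) (nat_lit 0x918945526a0019ab00045b60ed9945526a00198b80055b40ed9139d26b23128ab6cc0032d9000ab68002b58000ab6420035c0035c0035c0035c0035c0035c0035c0035c0035c0035c002fb002fb002fb002fb002fb0029b0029b0029b0029b001e0001e0001e0001e0001e0) .leaf .leaf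
def t12 : k12.all (jb2 57 fl b13) = true := by decide +kernel
noncomputable def k13 : KT := (.br (Nat.shiftLeft (nat_lit 0x3000001) (nat_lit 125)) (.one (nat_lit 0x600000100300400600701360c980c02e426711)) (.one (nat_lit 0x600000200300400600701360c980c04e826711)))
def t13 : k13.all (jb2 57 fl b0) = true := by decide +kernel
noncomputable def k14 : KT := (.br (Nat.shiftLeft (nat_lit 0x7000001003) (nat_lit 112)) (.one (nat_lit 0x700000100200400600701340e9c0c02e426711)) (.one (nat_lit 0x700000100300400600701360e9c0c02e426711)))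
noncomputable def b15 : BT := .node (nat_lit 0x1) (nat_lit 0x9362619454003a63000ac6410008800028) .leaf .leaf
def t14 : k14.all (jb2 57 fl b15) = true := by decide +kernel
noncomputable def k15 : KT := (.one (nat_lit 0x700000200300400600701360e9c0c04e826711))
def t15 : k15.all (jb2 57 fl b0) = true := by decide +kernel
noncomputable def s0 : KT := (.br (nat_lit 0x600000300400600701360080cd80e026611) (.br (nat_lit 0x500000100400600701320080ad40e026611) (.br (nat_lit 0x1000003004006007013600802c40e026611) (.br (nat_lit 0x6000004006007013000800c0cf826511) k0 k1) (.br (nat_lit 0x4000001004006007013200808d00e026611) k2 k3)) (.br (nat_lit 0x600000100400600701320080cd80e026611) (.br (nat_lit 0x500000300400600701360080ad40e026611) k4 k5) (.br (nat_lit 0x600000200400600701340080cd80e026611) k6 k7))) (.br (nat_lit 0x500000100300400600701360a940c02e426711) (.br (nat_lit 0x700000200400600701340080edc0e026611) (.br (nat_lit 0x700000100400600701320080edc0e026611) k8 k9) (.br (nat_lit 0x4000002003004006007013608900c04e826711) k10 k11)) (.br (nat_lit 0x600000200300400600701360c980c04e826711)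 (.br (nat_lit 0x600000100200400600701340c980c02e426711) k12 k13) (.br (nat_lit 0x700000100300400600701360e9c0c02e426711) k14 k15))))
noncomputable def u0 : KT := (.one (nat_lit 0x4006007013000800c00e026540))
def w0 : u0.all (wj 57 s0) = true := by decide +kernel
def o0 : OkW 57 (jb2 57 fl) u0 := .lift s0 _ (.br _ _ _ (.br _ _ _ (.br _ _ _ (.br _ _ _ (.leaf b1 k0 t0) (.leaf b2 k1 t1)) (.br _ _ _ (.leaf b0 k2 t2) (.leaf b0 k3 t3))) (.br _ _ _ (.br _ _ _ (.leaf b0 k4 t4) (.leaf b6 k5 t5)) (.br _ _ _ (.leaf b7 k6 t6) (.leaf b0 k7 t7)))) (.br _ _ _ (.br _ _ _ (.br _ _ _ (.leaf b0 k8 t8) (.leaf b0 k9 t9)) (.br _ _ _ (.leaf b0 k10 t10) (.leaf b12 k11 t11))) (.br _ _ _ (.br _ _ _ (.leaf b13 k12 t12) (.leaf b0 k13 t13)) (.br _ _ _ (.leaf b15 k14 t14) (.leaf b0 k15 t15))))) w0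
noncomputable def k16 : KT := (.br (Nat.shiftLeft (nat_lit 0x1) (nat_lit 113)) (.br (Nat.shiftLeft (nat_lit 0x400600801) (nat_lit 68)) (.br (Nat.shiftLeft (nat_lit 0x800c01) (nat_lit 79)) (.br (Nat.shiftLeft (nat_lit 0x4006007015) (nat_lit 64)) (.one (nat_lit 0x4006007014000800c00e029500)) (.one (nat_lit 0x4006007015000800c00e02b500))) (.br (Nat.shiftLeft (nat_lit 0x400600800f) (nat_lit 64)) (.one (nat_lit 0x400600800e000800c01001d500)) (.one (nat_lit 0x400600800f000800c01001f500)))) (.br (Nat.shiftLeft (nat_lit 0x1) (nat_lit 112)) (.br (Nat.shiftLeft (nat_lit 0x4006008011) (nat_lit 64)) (.one (nat_lit 0x4006008010000800c010021500)) (.one (nat_lit 0x4006008011000800c010023500))) (.br (Nat.shiftLeft (nat_lit 0x1004006007015) (nat_lit 64)) (.one (nat_lit 0x1004006007014200800c00e029600)) (.one (nat_lit 0x1004006007015200800c00e02b600))))) (.br (Nat.shiftLeft (nat_lit 0x1) (nat_lit 124)) (.br (Nat.shiftLeft (nat_lit 0x3) (nat_lit 112)) (.br (Nat.shiftLeft (nat_lit 0x2004006007015) (nat_lit 64)) (.one (nat_lit 0x2004006007014400800c00e029600))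 (.one (nat_lit 0x2004006007015400800c00e02b600))) (.br (Nat.shiftLeft (nat_lit 0x3004006007015) (nat_lit 64)) (.one (nat_lit 0x3004006007014600800c00e029600)) (.one (nat_lit 0x3004006007015600800c00e02b600)))) (.br (Nat.shiftLeft (nat_lit 0x801) (nat_lit 113)) (.br (Nat.shiftLeft (nat_lit 0x1000004006007015) (nat_lit 64)) (.one (nat_lit 0x1000004006007014000800c02e428511)) (.one (nat_lit 0x1000004006007015000800c02e42a511))) (.br (Nat.shiftLeft (nat_lit 0x1002004006007015) (nat_lit 64)) (.one (nat_lit 0x1002004006007014400800c02e429700)) (.one (nat_lit 0x1002004006007015400800c02e42a760))))))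
def t16 : k16.all (jb2 57 fl b0) = true := by decide +kernel
noncomputable def k17 : KT := (.one (nat_lit 0x1003004006007014600800c02e428760))
def t17 : k17.all (jb2 57 fl b0) = true := by decide +kernel
noncomputable def k18 : KT := (.br (Nat.shiftLeft (nat_lit 0x2000004006007015) (nat_lit 64)) (.br (Nat.shiftLeft (nat_lit 0x1) (nat_lit 125)) (.one (nat_lit 0x1003004006007015600800c02e42a760)) (.one (nat_lit 0x2000004006007014000800c04e828511))) (.br (Nat.shiftLeft (nat_lit 0x1001) (nat_lit 113)) (.one (nat_lit 0x2000004006007015000800c04e82a511)) (.one (nat_lit 0x2003004006007014600800c04e829700))))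
def t18 : k18.all (jb2 57 fl b0) = true := by decide +kernel
noncomputable def k19 : KT := (.br (Nat.shiftLeft (nat_lit 0x3000004006007015) (nat_lit 64)) (.br (Nat.shiftLeft (nat_lit 0x3) (nat_lit 124)) (.one (nat_lit 0x2003004006007015600800c04e82a760)) (.one (nat_lit 0x3000004006007014000800c06ec28511))) (.br (Nat.shiftLeft (nat_lit 0x1) (nat_lit 126)) (.one (nat_lit 0x3000004006007015000800c06ec2a511)) (.one (nat_lit 0x4000004006007014000800c08f028511))))
def t19 : k19.all (jb2 57 fl b0) = true := by decide +kernel
noncomputable def k20 : KT := (.br (Nat.shiftLeft (nat_lit 0x5000004006007015) (nat_lit 64)) (.br (Nat.shiftLeft (nat_lit 0x5) (nat_lit 124)) (.one (nat_lit 0x4000004006007015000800c08f02a511)) (.one (nat_lit 0x5000004006007014000800c0af428511))) (.br (Nat.shiftLeft (nat_lit 0x3) (nat_lit 125)) (.one (nat_lit 0x5000004006007015000800c0af42a511)) (.one (nat_lit 0x6000004006007014000800c0cf828511))))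
noncomputable def b21 : BT := .node (nat_lit 0x1) (nat_lit 0x123149b258c003a980008c6410008900028) .leaf .leaf
def t20 : k20.all (jb2 57 fl b21) = true := by decide +kernel
noncomputable def k21 : KT := (.br (Nat.shiftLeft (nat_lit 0x7) (nat_lit 124)) (.one (nat_lit 0x6000004006007015000800c0cf82a511)) (.one (nat_lit 0x7000004006007014000800c0efc28511)))
def t21 : k21.all (jb2 57 fl b0) = true := by decide +kernel
noncomputable def k22 : KT := (.br (Nat.shiftLeft (nat_lit 0x2000001004006007015) (nat_lit 64)) (.br (Nat.shiftLeft (nat_lit 0x1000002004006007015) (nat_lit 64)) (.br (Nat.shiftLeft (nat_lit 0x1000001004006007015) (nat_lit 64)) (.br (Nat.shiftLeft (nat_lit 0x1) (nat_lit 136)) (.one (nat_lit 0x7000004006007015000800c0efc2a511)) (.one (nat_lit 0x1000001004006007014200802c40e028611))) (.br (Nat.shiftLeft (nat_lit 0x800001) (nat_lit 113)) (.one (nat_lit 0x1000001004006007015200802c40e02a611)) (.one (nat_lit 0x1000002004006007014400802c40e028611)))) (.br (Nat.shiftLeft (nat_lit 0x1000003004006007015) (nat_lit 64)) (.br (Nat.shiftLeft (nat_lit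 0x1000003) (nat_lit 112)) (.one (nat_lit 0x1000002004006007015400802c40e02a611)) (.one (nat_lit 0x1000003004006007014600802c40e028611))) (.br (Nat.shiftLeft (nat_lit 0x801) (nat_lit 125)) (.one (nat_lit 0x1000003004006007015600802c40e02a611)) (.br (Nat.shiftLeft (nat_lit 0x1) (nat_lit 137)) (.one (nat_lit 0x1002003004006007014600802c44e828870)) (.one (nat_lit 0x2000001004006007014200804c80e028611)))))) (.br (Nat.shiftLeft (nat_lit 0x2000003004006007015) (nat_lit 64)) (.br (Nat.shiftLeft (nat_lit 0x2000002004006007015) (nat_lit 64)) (.br (Nat.shiftLeft (nat_lit 0x1000001) (nat_lit 113)) (.one (nat_lit 0x2000001004006007015200804c80e02a611)) (.one (nat_lit 0x2000002004006007014400804c80e028611))) (.br (Nat.shiftLeft (nat_lit 0x2000003) (nat_lit 112)) (.one (nat_lit 0x2000002004006007015400804c80e02a611)) (.one (nat_lit 0x2000003004006007014600804c80e028611)))) (.br (Nat.shiftLeft (nat_lit 0x3000001004006007015) (nat_lit 64)) (.br (Nat.shiftLeft (nat_lit 0x3) (nat_lit 136)) (.one (nat_lit 0x2000003004006007015600804c80e02a611)) (.one (nat_lit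 0x3000001004006007014200806cc0e028611))) (.br (Nat.shiftLeft (nat_lit 0x1800001) (nat_lit 113)) (.one (nat_lit 0x3000001004006007015200806cc0e02a611)) (.br (Nat.shiftLeft (nat_lit 0x3000002004006007015) (nat_lit 64)) (.one (nat_lit 0x3000002004006007014400806cc0e028611)) (.one (nat_lit 0x3000002004006007015400806cc0e02a611)))))))
def t22 : k22.all (jb2 57 fl b0) = true := by decide +kernel
noncomputable def k23 : KT := (.br (Nat.shiftLeft (nat_lit 0x2000001) (nat_lit 113)) (.br (Nat.shiftLeft (nat_lit 0x1) (nat_lit 138)) (.br (Nat.shiftLeft (nat_lit 0x3000003004006007015) (nat_lit 64)) (.one (nat_lit 0x3000003004006007014600806cc0e028611)) (.one (nat_lit 0x3000003004006007015600806cc0e02a611))) (.br (Nat.shiftLeft (nat_lit 0x4000001004006007015) (nat_lit 64)) (.one (nat_lit 0x4000001004006007014200808d00e028611)) (.one (nat_lit 0x4000001004006007015200808d00e02a611)))) (.br (Nat.shiftLeft (nat_lit 0x4000003) (nat_lit 112)) (.br (Nat.shiftLeft (nat_lit 0x4000002004006007015) (nat_lit 64)) (.one (nat_lit 0x4000002004006007014400808d00e028611))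 (.one (nat_lit 0x4000002004006007015400808d00e02a611))) (.br (Nat.shiftLeft (nat_lit 0x4000003004006007015) (nat_lit 64)) (.one (nat_lit 0x4000003004006007014600808d00e028611)) (.one (nat_lit 0x4000003004006007015600808d00e02a611)))))
def t23 : k23.all (jb2 57 fl b0) = true := by decide +kernel
noncomputable def k24 : KT := (.br (Nat.shiftLeft (nat_lit 0x5000001004006007015) (nat_lit 64)) (.one (nat_lit 0x500000100400600701420080ad40e028611)) (.one (nat_lit 0x500000100400600701520080ad40e02a611)))
def t24 : k24.all (jb2 57 fl b0) = true := by decide +kernel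
noncomputable def k25 : KT := (.br (Nat.shiftLeft (nat_lit 0x5000002004006007015) (nat_lit 64)) (.one (nat_lit 0x500000200400600701440080ad40e028611)) (.br (Nat.shiftLeft (nat_lit 0x5000003) (nat_lit 112)) (.one (nat_lit 0x500000200400600701540080ad40e02a611)) (.one (nat_lit 0x500000300400600701460080ad40e028611))))
def t25 : k25.all (jb2 57 fl b0) = true := by decide +kernel
noncomputable def k26 : KT := (.br (Nat.shiftLeft (nat_lit 0x3) (nat_lit 137)) (.one (nat_lit 0x500000300400600701560080ad40e02a611)) (.one (nat_lit 0x600000100400600701420080cd80e028611)))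
def t26 : k26.all (jb2 57 fl b0) = true := by decide +kernel
noncomputable def k27 : KT := (.br (Nat.shiftLeft (nat_lit 0x3000001) (nat_lit 113)) (.one (nat_lit 0x600000100400600701520080cd80e02a611)) (.one (nat_lit 0x600000200400600701440080cd80e028611)))
def t27 : k27.all (jb2 57 fl b0) = true := by decide +kernel
noncomputable def k28 : KT := (.br (Nat.shiftLeft (nat_lit 0x6000003) (nat_lit 112)) (.one (nat_lit 0x600000200400600701540080cd80e02a611)) (.br (Nat.shiftLeft (nat_lit 0x6000003004006007015) (nat_lit 64)) (.one (nat_lit 0x600000300400600701460080cd80e028611)) (.one (nat_lit 0x600000300400600701560080cd80e02a611))))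
def t28 : k28.all (jb2 57 fl b0) = true := by decide +kernel
noncomputable def k29 : KT := (.br (Nat.shiftLeft (nat_lit 0x7000001004006007015) (nat_lit 64)) (.one (nat_lit 0x700000100400600701420080edc0e028611)) (.one (nat_lit 0x700000100400600701520080edc0e02a611)))
def t29 : k29.all (jb2 57 fl b0) = true := by decide +kernel
noncomputable def k30 : KT := (.br (Nat.shiftLeft (nat_lit 0x7000002004006007015) (nat_lit 64)) (.one (nat_lit 0x700000200400600701440080edc0e028611)) (.one (nat_lit 0x700000200400600701540080edc0e02a611)))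
def t30 : k30.all (jb2 57 fl b0) = true := by decide +kernel
noncomputable def k31 : KT := (.br (Nat.shiftLeft (nat_lit 0x1000001) (nat_lit 125)) (.br (Nat.shiftLeft (nat_lit 0x1) (nat_lit 148)) (.br (Nat.shiftLeft (nat_lit 0x7000003004006007015) (nat_lit 64)) (.one (nat_lit 0x700000300400600701460080edc0e028611)) (.one (nat_lit 0x700000300400600701560080edc0e02a611))) (.br (Nat.shiftLeft (nat_lit 0x800001) (nat_lit 125)) (.one (nat_lit 0x1000001002004006007014402840c02e428711)) (.br (Nat.shiftLeft (nat_lit 0x1) (nat_lit 149)) (.one (nat_lit 0x1000002003004006007014602840c04e828711)) (.one (nat_lit 0x2000001002004006007014404880c02e428711))))) (.br (Nat.shiftLeft (nat_lit 0x1800001) (nat_lit 125)) (.br (Nat.shiftLeft (nat_lit 0x3) (nat_lit 148)) (.one (nat_lit 0x2000002003004006007014604880c04e828711)) (.one (nat_lit 0x30000010020040060070144068c0c02e428711))) (.br (Nat.shiftLeft (nat_lit 0x1) (nat_lit 150)) (.one (nat_lit 0x30000020030040060070146068c0c04e828711)) (.br (Nat.shiftLeft (nat_lit 0x2000001) (nat_lit 125)) (.one (nat_lit 0x4000001002004006007014408900c02e428711))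 (.one (nat_lit 0x4000002003004006007014608900c04e828711))))))
def t31 : k31.all (jb2 57 fl b0) = true := by decide +kernel
noncomputable def k32 : KT := (.br (Nat.shiftLeft (nat_lit 0x2800001) (nat_lit 125)) (.one (nat_lit 0x500000100200400600701440a940c02e428711)) (.br (Nat.shiftLeft (nat_lit 0x3) (nat_lit 149)) (.one (nat_lit 0x500000200300400600701460a940c04e828711)) (.one (nat_lit 0x600000100200400600701440c980c02e428711))))
def t32 : k32.all (jb2 57 fl b0) = true := by decide +kernel
noncomputable def k33 : KT := (.br (Nat.shiftLeft (nat_lit 0x7) (nat_lit 148)) (.one (nat_lit 0x600000200300400600701460c980c04e828711)) (.br (Nat.shiftLeft (nat_lit 0x3800001) (nat_lit 125)) (.one (nat_lit 0x700000100200400600701440e9c0c02e428711)) (.one (nat_lit 0x700000200300400600701460e9c0c04e828711))))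
def t33 : k33.all (jb2 57 fl b0) = true := by decide +kernel
noncomputable def s1 : KT := (.br (nat_lit 0x500000100400600701520080ad40e02a611) (.br (nat_lit 0x4000004006007014000800c08f028511) (.br (nat_lit 0x1003004006007014600800c02e428760) (.br (nat_lit 0x1002004006007015400800c02e42a760) k16 k17) (.br (nat_lit 0x2003004006007014600800c04e829700) k18 k19)) (.br (nat_lit 0x7000004006007014000800c0efc28511) (.br (nat_lit 0x6000004006007014000800c0cf828511) k20 k21) (.br (nat_lit 0x3000002004006007015400806cc0e02a611) k22 (.br (nat_lit 0x4000003004006007015600808d00e02a611) k23 k24)))) (.br (nat_lit 0x600000300400600701560080cd80e02a611) (.br (nat_lit 0x600000100400600701420080cd80e028611) (.br (nat_lit 0x500000300400600701460080ad40e028611) k25 k26) (.br (nat_lit 0x600000200400600701440080cd80e028611) k27 k28)) (.br (nat_lit 0x700000200400600701540080edc0e02a611) (.br (nat_lit 0x700000100400600701520080edc0e02a611) k29 k30) (.br (nat_lit 0x4000002003004006007014608900c04e828711) k31 (.br (nat_lit 0x600000100200400600701440c980c02e428711)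 k32 k33)))))
noncomputable def u1 : KT := (.br (Nat.shiftLeft (nat_lit 0x400600800f) (nat_lit 64)) (.br (Nat.shiftLeft (nat_lit 0x4006007015) (nat_lit 64)) (.one (nat_lit 0x4006007014000800c00e028540)) (.br (Nat.shiftLeft (nat_lit 0x800c01) (nat_lit 79)) (.one (nat_lit 0x4006007015000800c00e02a540)) (.one (nat_lit 0x400600800e000800c01001d500)))) (.br (Nat.shiftLeft (nat_lit 0x400600801) (nat_lit 68)) (.one (nat_lit 0x400600800f000800c01001f500)) (.br (Nat.shiftLeft (nat_lit 0x4006008011) (nat_lit 64)) (.one (nat_lit 0x4006008010000800c010021500)) (.one (nat_lit 0x4006008011000800c010023500)))))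
def w1 : u1.all (wj 57 s1) = true := by decide +kernel
def o1 : OkW 57 (jb2 57 fl) u1 := .lift s1 _ (.br _ _ _ (.br _ _ _ (.br _ _ _ (.br _ _ _ (.leaf b0 k16 t16) (.leaf b0 k17 t17)) (.br _ _ _ (.leaf b0 k18 t18) (.leaf b0 k19 t19))) (.br _ _ _ (.br _ _ _ (.leaf b21 k20 t20) (.leaf b0 k21 t21)) (.br _ _ _ (.leaf b0 k22 t22) (.br _ _ _ (.leaf b0 k23 t23) (.leaf b0 k24 t24))))) (.br _ _ _ (.br _ _ _ (.br _ _ _ (.leaf b0 k25 t25) (.leaf b0 k26 t26)) (.br _ _ _ (.leaf b0 k27 t27) (.leaf b0 k28 t28))) (.br _ _ _ (.br _ _ _ (.leaf b0 k29 t29) (.leaf b0 k30 t30)) (.br _ _ _ (.leaf b0 k31 t31) (.br _ _ _ (.leaf b0 k32 t32) (.leaf b0 k33 t33)))))) w1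
noncomputable def k34 : KT := (.br (Nat.shiftLeft (nat_lit 0x1003) (nat_lit 112)) (.br (Nat.shiftLeft (nat_lit 0x3) (nat_lit 112)) (.br (Nat.shiftLeft (nat_lit 0x1) (nat_lit 112)) (.one (nat_lit 0x4006008012000800c010025500)) (.br (Nat.shiftLeft (nat_lit 0x1) (nat_lit 113)) (.one (nat_lit 0x1004006008012200800c010025600)) (.one (nat_lit 0x2004006008012400800c010025600)))) (.br (Nat.shiftLeft (nat_lit 0x1) (nat_lit 124)) (.one (nat_lit 0x3004006008012600800c010025600)) (.br (Nat.shiftLeft (nat_lit 0x801) (nat_lit 113)) (.one (nat_lit 0x1000004006008012000800c030424511)) (.one (nat_lit 0x1002004006008012400800c030425700))))) (.br (Nat.shiftLeft (nat_lit 0x3) (nat_lit 124)) (.br (Nat.shiftLeft (nat_lit 0x1) (nat_lit 125)) (.one (nat_lit 0x1003004006008012600800c030425700)) (.br (Nat.shiftLeft (nat_lit 0x1001) (nat_lit 113)) (.one (nat_lit 0x2000004006008012000800c050824511)) (.one (nat_lit 0x2003004006008012600800c050825700)))) (.br (Nat.shiftLeft (nat_lit 0x5) (nat_lit 124)) (.br (Nat.shiftLeft (nat_lit 0x1) (nat_lit 126)) (.one (nat_lit 0x3000004006008012000800c070c24511))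 (.one (nat_lit 0x4000004006008012000800c091024511))) (.br (Nat.shiftLeft (nat_lit 0x3) (nat_lit 125)) (.one (nat_lit 0x5000004006008012000800c0b1424511)) (.one (nat_lit 0x6000004006008012000800c0d1824511))))))
noncomputable def b35 : BT := .node (nat_lit 0xb) (nat_lit 0x96328b25900032d9000ca681918950d2c89922899309b66db427380056ae00156d00074b200155300065b000156d87509b684e7918b6d0a2a5136da139db664e72a19508982543003276801231b002cb600023590050868012b19000e87000a397002e7980032d916590980543000e794002b5707785b664c2918b788a865132741454003a590008b980032d80008d64003a98000ca6c3005a80054800548005480043100266002060020600206000f0000f0000f0) .leaf .leaf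
def t34 : k34.all (jb2 57 fl b35) = true := by decide +kernel
noncomputable def k35 : KT := (.one (nat_lit 0x7000004006008012000800c0f1c24511))
noncomputable def b36 : BT := .node (nat_lit 0xb) (nat_lit 0x48c4a86de26f0944ca8800158c8005630001d2c80046b4151325f139ca84515260800753000194d80074b40019328523128aa64a462de2260b7864644e74b192f926d23128aa5900032d90048d60002b18002a99c013a980048c6c0132d9002ca68002b19000ab685de249b130400325c000ab88100493004930049300493003d70031d0031d0031d00150000f0000f0000f0) .leaf .leaf
def t35 : k35.all (jb2 57 fl b36) = true := by decide +kernel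
noncomputable def k36 : KT := (.br (Nat.shiftLeft (nat_lit 0x800001) (nat_lit 113)) (.br (Nat.shiftLeft (nat_lit 0x1) (nat_lit 136)) (.one (nat_lit 0x8000004006008012000800c112024511)) (.one (nat_lit 0x1000001004006008012200802c410024611))) (.br (Nat.shiftLeft (nat_lit 0x1000003) (nat_lit 112)) (.one (nat_lit 0x1000002004006008012400802c410024611)) (.one (nat_lit 0x1000003004006008012600802c410024611))))
noncomputable def b37 : BT := .node (nat_lit 0x11) (nat_lit 0x1b66db4260950c97c4e7000cb64002aa5000ea60003a1c0a58c980543000e794002b580689939ca2a9634b21304003a1c000cc5c003a98000aa9420033d0033d0033d002820022200168001680016800168001680016800168001680016800168001680016800168) .leaf .leaf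
def t36 : k36.all (jb2 57 fl b37) = true := by decide +kernel
noncomputable def k37 : KT := (.br (Nat.shiftLeft (nat_lit 0x2000003) (nat_lit 112)) (.br (Nat.shiftLeft (nat_lit 0x1) (nat_lit 137)) (.one (nat_lit 0x1002003004006008012600802c450824870)) (.br (Nat.shiftLeft (nat_lit 0x1000001) (nat_lit 113)) (.one (nat_lit 0x2000001004006008012200804c810024611)) (.one (nat_lit 0x2000002004006008012400804c810024611)))) (.br (Nat.shiftLeft (nat_lit 0x1800001) (nat_lit 113)) (.br (Nat.shiftLeft (nat_lit 0x3) (nat_lit 136)) (.one (nat_lit 0x2000003004006008012600804c810024611)) (.one (nat_lit 0x3000001004006008012200806cc10024611))) (.br (Nat.shiftLeft (nat_lit 0x3000003) (nat_lit 112)) (.one (nat_lit 0x3000002004006008012400806cc10024611)) (.one (nat_lit 0x3000003004006008012600806cc10024611)))))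
noncomputable def b38 : BT := .node (nat_lit 0x11) (nat_lit 0xdb24b1939dbc25a14c900065b000156e00066ae00158c052312e8a4d40034520008b6c10028400284002840028400284001c9001c90016800168001680016800168001680016800168001680016800168) .leaf .leaf
def t37 : k37.all (jb2 57 fl b38) = true := by decide +kernel
noncomputable def k38 : KT := (.br (Nat.shiftLeft (nat_lit 0x4000003) (nat_lit 112)) (.br (Nat.shiftLeft (nat_lit 0x2000001) (nat_lit 113)) (.one (nat_lit 0x4000001004006008012200808d010024611)) (.one (nat_lit 0x4000002004006008012400808d010024611))) (.br (Nat.shiftLeft (nat_lit 0x5) (nat_lit 136)) (.one (nat_lit 0x4000003004006008012600808d010024611)) (.one (nat_lit 0x500000100400600801220080ad410024611))))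
noncomputable def b39 : BT := .node (nat_lit 0x1) (nat_lit 0x2a1939ca2ade1260950c003a59000ca6c0039e60008d642000e200028) .leaf .leaf
def t38 : k38.all (jb2 57 fl b39) = true := by decide +kernel
noncomputable def k39 : KT := (.br (Nat.shiftLeft (nat_lit 0x5000003) (nat_lit 112)) (.one (nat_lit 0x500000200400600801240080ad410024611)) (.one (nat_lit 0x500000300400600801260080ad410024611)))
noncomputable def b40 : BT := .node (nat_lit 0x17) (nat_lit 0x36c8a88935000cd58002ada064d097c4c1000ea60002ae406644ae4963918c8c8ae2de16d995c800b356000ca64013a980046f5c00ba590008f583db26d9a4d00032d8000ca641de16d99304003299000aa981db26d994540032d8000ad601004d6004760047600416003000030000300002a0002a0002a0002a0002a0002a0002a0002400024000240002400024000240001e0001e0001e0001e0) .leaf .leaf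
def t39 : k39.all (jb2 57 fl b40) = true := by decide +kernel
noncomputable def k40 : KT := (.one (nat_lit 0x600000100400600801220080cd810024611))
noncomputable def b41 : BT := .node (nat_lit 0x2b) (nat_lit 0x258d26c4c16f0b6d09cc9352739458003a5a000ab8c003a980008c6c003a59000ad6039189450a88001d2c80037340cc8a59126ade191936cd3245154b1c8c4a869926d9a5909ce991274139dbc45142a1c8c8982543008ea60043299006ea60033299012cc5c01b299008ac6402ab18000cb6002aadb00aea6002aa9d00ee96404235900ae794019b99224624e84c900064ba0011ac03b6451528a80065b200158c832312a215c4003a5a0006f5c1a2893525e80074b200196c8332251649b25909d0515000cc5c00325c000e968002b570b6cd26c4c14c8b6d0982de1274139800329a000ab8c00421a0008b94003a5a0008c6c3de16d99308003a590008b98100b7600b7600b7600a6000a6000a60009ff009ff009ff009ff009ff009ff009ff009ff009ff009ff009ff0072200722006c1006c1006c1006c100661006610066100661006000060000600006000060000600005a1005a1005a1005a1004e6003d0003d0003d0003700037000370) .leaf .leaf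
def t40 : k40.all (jb2 57 fl b41) = true := by decide +kernel
noncomputable def k41 : KT := (.one (nat_lit 0x600000200400600801240080cd810024611))
noncomputable def b42 : BT := .node (nat_lit 0x2b) (nat_lit 0x37852c8935000cb6000329a064d4982515918a58db66db22a2150c00ba23000ad600032d8002ab640132d9004ad5c391895112c600198c00046320ef095c92c69914b1945a46251549b00166ac00156c80174b200158d002662e00916e07bc296428aa64526c5156d9b6cc9ce00196c0005632005d0e00156ae00996c00256321ef0a648a8400196c00056ae0cc8939ca2cde16d99454003a59000ab70003299000ad602db228b2648ae293625e80065360015ab80073b800196c85b644c149b000654600156d832c6935260a4d49825156f0a4d9324963273a4d8003a59002ab9000ba23000ad6000ba1b002ac60013317004ca684de14b19510003299000ad60100b7a00b1a00a04009a3009a3009a3009a3009a3009a3009a3009a3009a30088d0088d0088d0088d0088d007770077700777007770077700777007770077700777007770077700777007170071700717007170065c005a1005a1005a100541005410054100541003d00037000370) .leaf .leaf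
def t41 : k41.all (jb2 57 fl b42) = true := by decide +kernel
noncomputable def k42 : KT := (.one (nat_lit 0x600000300400600801260080cd810024611))
noncomputable def b43 : BT := .node (nat_lit 0xb) (nat_lit 0x37849d09926f093052c8db249aa4d400325d000ac60003265000ab680032d8000ca6839632b912e8003317000cb601db349aa58c003a59000ac601002c6002c6001b0001b0001b00015000150000f0000f0000f0000f0000f0) .leaf .leaf
def t42 : k42.all (jb2 57 fl b43) = true := by decide +kernel
noncomputable def k43 : KT := (.one (nat_lit 0x700000100400600801220080edc10024611))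
noncomputable def b44 : BT := .node (nat_lit 0x2b) (nat_lit 0x24d89824e76d9939ca86001d308005632001d0e000473016d993049ce001d3080046380cb2130526c00195100065360c8c4a86964000cc5c00231a0646293649b000753000116e0332299249b26453244e74b19454982005d4c00164b800996c001653600196c00164ca1c9a93a0a2a99149b9304003a5a000ad5c003a1d000ab882de16da150c003a5a0008e5c1007de007de007de007230072300723007230072300723007230072300723007230072300723006c3006c3006c30066300602006020060200602006020060200602006020060200602005a1005a1005a1005a1005a10048b0048b0048b003d0003700037000370003700037000370) .leaf .leaf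
def t43 : k43.all (jb2 57 fl b44) = true := by decide +kernel
noncomputable def k44 : KT := (.one (nat_lit 0x700000200400600801240080edc10024611))
noncomputable def b45 : BT := .node (nat_lit 0x17) (nat_lit 0xdb26d9a4da4625434c93785b664e79189304a2c001d4c00055b60015ab8005630001d2c8004638001d1180036b824c8b6ccae4de1273945932299227380074b20055cb00274b200518e00165b000592e87b66db327380065b000156e0326c936260b784a2a964000ea60002ae3000cc5c002ada0ab8a4d898296325ea4dc00419c000ab8c0032d8000ca6c2de12a1a58d26c93626000066ac00156c80065b2001951052312a1a58c0033560008c641db249a939c0032d8000ab701007b8007b8007b8007b800647006470053100531004d1004d10041600416004160035c0035c0035c0035c002a1002a100240001e0001e0001e0001e0) .leaf .leaf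
def t44 : k44.all (jb2 57 fl b45) = true := by decide +kernel
noncomputable def k45 : KT := (.one (nat_lit 0x700000300400600801260080edc10024611))
noncomputable def b46 : BT := .node (nat_lit 0x1) (nat_lit 0x9189455324991260945800329b0008d60003a23000ab702000e400028) .leaf .leaf
def t45 : k45.all (jb2 57 fl b46) = true := by decide +kernel
noncomputable def k46 : KT := (.one (nat_lit 0x8000001004006008012200810e010024611))
noncomputable def b47 : BT := .node (nat_lit 0xb) (nat_lit 0xdb349ba4dd2c64c227380065b200194d80074c400156e05b664c127380074c200118e03b6651527380065b000156e0332254328a36cc9ce93749b92f8982001d4c001563200596c80155b6009d4c00155c41ed924d89cedb26d993040032d8000ac68003a980008b9820043c0043c0038100381003810032100321002c1002c1001ab001ab000f0) .leaf .leaf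
def t46 : k46.all (jb2 57 fl b47) = true := by decide +kernel
noncomputable def k47 : KT := (.br (Nat.shiftLeft (nat_lit 0x1000001003) (nat_lit 112)) (.br (Nat.shiftLeft (nat_lit 0x8000003) (nat_lit 112)) (.one (nat_lit 0x8000002004006008012400810e010024611)) (.br (Nat.shiftLeft (nat_lit 0x1) (nat_lit 148)) (.one (nat_lit 0x8000003004006008012600810e010024611)) (.one (nat_lit 0x1000001002004006008012402840c030424711)))) (.br (Nat.shiftLeft (nat_lit 0x800001) (nat_lit 125)) (.one (nat_lit 0x1000001003004006008012602840c030424711)) (.br (Nat.shiftLeft (nat_lit 0x1) (nat_lit 149)) (.one (nat_lit 0x1000002003004006008012602840c050824711)) (.one (nat_lit 0x2000001002004006008012404880c030424711)))))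
noncomputable def b48 : BT := .node (nat_lit 0xb) (nat_lit 0x571273930126c93725f36c897c4c1000e7740032a2000ea680032d8000ea600022e60f784a86963000cd58002ad906644a2a4c12a193a098000196c000644e001d0e0006542148c526e5444c89458a2b23126093a00041db0006e68003a5a000ac64003a610006c7830043700437003220032200322002c2002c200207002070020700207000f0) .leaf .leaf
def t47 : k47.all (jb2 57 fl b48) = true := by decide +kernel
noncomputable def k48 : KT := (.br (Nat.shiftLeft (nat_lit 0x1800001) (nat_lit 125)) (.br (Nat.shiftLeft (nat_lit 0x3) (nat_lit 148)) (.br (Nat.shiftLeft (nat_lit 0x1000001) (nat_lit 125)) (.one (nat_lit 0x2000001003004006008012604880c030424711)) (.one (nat_lit 0x2000002003004006008012604880c050824711))) (.br (Nat.shiftLeft (nat_lit 0x3000001003) (nat_lit 112)) (.one (nat_lit 0x30000010020040060080124068c0c030424711)) (.one (nat_lit 0x30000010030040060080126068c0c030424711)))) (.br (Nat.shiftLeft (nat_lit 0x4000001003) (nat_lit 112)) (.br (Nat.shiftLeft (nat_lit 0x1) (nat_lit 150)) (.one (nat_lit 0x30000020030040060080126068c0c050824711)) (.one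 (nat_lit 0x4000001002004006008012408900c030424711))) (.br (Nat.shiftLeft (nat_lit 0x2000001) (nat_lit 125)) (.one (nat_lit 0x4000001003004006008012608900c030424711)) (.one (nat_lit 0x4000002003004006008012608900c050824711)))))
def t48 : k48.all (jb2 57 fl b0) = true := by decide +kernel
noncomputable def k49 : KT := (.one (nat_lit 0x500000100200400600801240a940c030424711))
noncomputable def b50 : BT := .node (nat_lit 0x17) (nat_lit 0x1b645442b92648a889346d924d5382001d2c80047ae00198b8006532001ced800572c1ed924d1324db22b92648003a1a000ad5c003356000ac60291893a12c600194e00046320ef093049d093425e92e8003a610008b780032da000cb602918a4d1b672314b22649b6493528ab6c8ae4963002ca64002ad9004e964012358000cb6000ab58002cd5800ab18124625726d9800572c00156c83b6493528aa58c97a934000ca68002b58000cb680032990b7849ce9354b1a4d49cf23128b264a4629356d9801663000554d80074b200158d00265360051ac00265b000556c892684e82b924d09824e89189309324001cee80057aa001d30800563600191380046b01ed914592c69916d994540032da000ac60003a59000ac6829914b19304003a59000aa98100afd00afd009e7009e70092c0092c008cb008100069e0063d0063d00582005820058200582004110041100411002fb002fb002400024000240001e0)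 .leaf .leaf
def t49 : k49.all (jb2 57 fl b50) = true := by decide +kernel
noncomputable def k50 : KT := (.br (Nat.shiftLeft (nat_lit 0x2800001) (nat_lit 125)) (.one (nat_lit 0x500000100300400600801260a940c030424711)) (.one (nat_lit 0x500000200300400600801260a940c050824711)))
noncomputable def b51 : BT := .node (nat_lit 0x2f) (nat_lit 0x99128aa5924629354c936c9b665a14c924d098200196c8006534001d2c80046b000194c8005828001d0d00055c826d924d0b42db228aa4d4003299000b050003356000ab682de127415cdb644e84c948c4ae499291893049d0009cee002473200192e80156ae0055cb8005630005d30801363c26d915cd2c6db349a93052684e82a200266ae00956c800653200557200174360015cb87b664e64b1b785b664e7918a4d5b66db26d9a4d000b317000ac6000ba590028c7000b2d8004ab640132d8000ca644db228aa58c003318000ac6019914c913052c49354b180065b000591380174b200996c05bc24c127400074c200116f03bc2db349aa4d09d051591895cdb66db22a21684003299002ca6400ba98002ad60002b97002ab64013a1a004905849189308a88de128b2649b64db328a80073ca000dcd000653600158c00065b000158d0732293528aa4d09744c19189689b66001d2c80056b000196c00065480015eb00055b21c9a13049d1231273a4d4003a61000ac6c0032da0008b6c2de1273a4d4003318000aa6c10101801018010180101800ea700ea700ea700dec00dec00dec00c7b00c7b00c7b00c7b00c7b00c7b00c7b00c7b00c7b00c7b00b6500b65009f4009940099400994008d9008d900879008790087900879008790087900879007080070800708005f1004db004db004db0042000420003c0003c0003c0003c0)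 .leaf .leaf
def t50 : k50.all (jb2 57 fl b51) = true := by decide +kernel
noncomputable def k51 : KT := (.one (nat_lit 0x600000100200400600801240c980c030424711))
noncomputable def b52 : BT := .node (nat_lit 0x3b) (nat_lit 0x24d12c8514000ea600032d8064625152a237852c85156d992f526adb22b9258e462db327380374b200cdcd001653400158c80365b200956d00266ac00958c002653200918e0b32293549a800743600196c032312b8a6493225154c9000662e0011ac00065b200196c05322db328ab784a869926f0a4d5b66991260a4d8003a59000ad600132d9002ac600132d8002ca6400b2a3002c9704de12741685bc29356d9800733c0011eb80065b000194c8526a4bd49ab78526c9c1000cb640032d8000e770002b570b6c8a2a9926d913089cf2314b1a64800329b000ad5c003a620008c70003a590008d6039189685324db249a94540033950008d600032d8000ad60200cb200cb200cb200cb200cb200cb200cb200cb200cb200cb200cb200cb200cb200cb200cb200cb200cb200cb200cb200cb200cb200cb200cb200cb200cb200cb200cb200cb200cb200cb200cb200cb200cb200cb200cb200c5200c5200c5200a8500a8500a2500a2500969009690096900969009690096900969007f8007f80073d00682006820056c0056c0056c004b0004b0004b0) .leaf .leaf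
def t51 : k51.all (jb2 57 fl b52) = true := by decide +kernel
noncomputable def k52 : KT := (.br (Nat.shiftLeft (nat_lit 0x3000001) (nat_lit 125)) (.one (nat_lit 0x600000100300400600801260c980c030424711)) (.one (nat_lit 0x600000200300400600801260c980c050824711)))
noncomputable def b53 : BT := .node (nat_lit 0xb) (nat_lit 0x48c4b429929189304a2cdb249b258c0033950008d60003a230006d70003a98000ac60393525f139c003a98000ac681002670015000150001500015000150001500015000150000f0000f0000f0) .leaf .leaf
def t52 : k52.all (jb2 57 fl b53) = true := by decide +kernel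
noncomputable def k53 : KT := (.one (nat_lit 0x700000100200400600801240e9c0c030424711))
noncomputable def b54 : BT := .node (nat_lit 0x13) (nat_lit 0x258c9825156f0b6cca86935274139c00ba23000ac6800b299002ae5800ba98004ac68393625e92f64625a16d9b785b665154b1a4d92c600196c00065b000560a00155b200594c80156b0005d2d00265b0249b24d898123128b36cc003a98000ab88002b1a000ab642de16d99454003a590008d681005320041c0041c0041c0041c002ab002ab002ab002ab002ab002ab001f00019000190001900019000190001900019000190) .leaf .leaf
def t53 : k53.all (jb2 57 fl b54) = true := by decide +kernel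
noncomputable def k54 : KT := (.br (Nat.shiftLeft (nat_lit 0x3800001) (nat_lit 125)) (.one (nat_lit 0x700000100300400600801260e9c0c030424711)) (.one (nat_lit 0x700000200300400600801260e9c0c050824711)))
noncomputable def b55 : BT := .node (nat_lit 0x1) (nat_lit 0x12312a1a6480032d90008d6010008900028) .leaf .leaf
def t54 : k54.all (jb2 57 fl b55) = true := by decide +kernel
noncomputable def k55 : KT := (.br (Nat.shiftLeft (nat_lit 0x8000001003) (nat_lit 112)) (.one (nat_lit 0x8000001002004006008012410a00c030424711)) (.br (Nat.shiftLeft (nat_lit 0x4000001) (nat_lit 125)) (.one (nat_lit 0x8000001003004006008012610a00c030424711)) (.one (nat_lit 0x8000002003004006008012610a00c050824711))))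
noncomputable def b56 : BT := .node (nat_lit 0x1) (nat_lit 0x6d914552c696326024dc003318000ac600032a1000ca702000e300028) .leaf .leaf
def t55 : k55.all (jb2 57 fl b56) = true := by decide +kernel
noncomputable def s2 : KT := (.br (nat_lit 0x700000200400600801240080edc10024611) (.br (nat_lit 0x500000100400600801220080ad410024611) (.br (nat_lit 0x7000004006008012000800c0f1c24511) (.br (nat_lit 0x6000004006008012000800c0d1824511) k34 k35) (.br (nat_lit 0x1000003004006008012600802c410024611) k36 (.br (nat_lit 0x3000003004006008012600806cc10024611) k37 k38))) (.br (nat_lit 0x600000200400600801240080cd810024611) (.br (nat_lit 0x500000300400600801260080ad410024611) k39 (.br (nat_lit 0x600000100400600801220080cd810024611) k40 k41)) (.br (nat_lit 0x600000300400600801260080cd810024611) k42 (.br (nat_lit 0x700000100400600801220080edc10024611) k43 k44)))) (.br (nat_lit 0x500000100200400600801240a940c030424711) (.br (nat_lit 0x8000001004006008012200810e010024611) (.br (nat_lit 0x700000300400600801260080edc10024611) k45 k46) (.br (nat_lit 0x2000001002004006008012404880c030424711)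 k47 (.br (nat_lit 0x4000002003004006008012608900c050824711) k48 k49))) (.br (nat_lit 0x600000200300400600801260c980c050824711) (.br (nat_lit 0x500000200300400600801260a940c050824711) k50 (.br (nat_lit 0x600000100200400600801240c980c030424711) k51 k52)) (.br (nat_lit 0x700000100200400600801240e9c0c030424711) k53 (.br (nat_lit 0x700000200300400600801260e9c0c050824711) k54 k55)))))
noncomputable def u2 : KT := (.one (nat_lit 0x4006008012000800c010024540))
def w2 : u2.all (wj 57 s2) = true := by decide +kernel
def o2 : OkW 57 (jb2 57 fl) u2 := .lift s2 _ (.br _ _ _ (.br _ _ _ (.br _ _ _ (.br _ _ _ (.leaf b35 k34 t34) (.leaf b36 k35 t35)) (.br _ _ _ (.leaf b37 k36 t36) (.br _ _ _ (.leaf b38 k37 t37) (.leaf b39 k38 t38)))) (.br _ _ _ (.br _ _ _ (.leaf b40 k39 t39) (.br _ _ _ (.leaf b41 k40 t40) (.leaf b42 k41 t41))) (.br _ _ _ (.leaf b43 k42 t42) (.br _ _ _ (.leaf b44 k43 t43) (.leaf b45 k44 t44))))) (.br _ _ _ (.br _ _ _ (.br _ _ _ (.leaf b46 k45 t45) (.leaf b47 k46 t46)) (.br _ _ _ (.leaf b48 k47 t47) (.br _ _ _ (.leaf b0 k48 t48) (.leaf b50 k49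 t49)))) (.br _ _ _ (.br _ _ _ (.leaf b51 k50 t50) (.br _ _ _ (.leaf b52 k51 t51) (.leaf b53 k52 t52))) (.br _ _ _ (.leaf b54 k53 t53) (.br _ _ _ (.leaf b55 k54 t54) (.leaf b56 k55 t55)))))) w2
noncomputable def k56 : KT := (.br (Nat.shiftLeft (nat_lit 0x1003) (nat_lit 112)) (.br (Nat.shiftLeft (nat_lit 0x3) (nat_lit 112)) (.br (Nat.shiftLeft (nat_lit 0x1) (nat_lit 112)) (.one (nat_lit 0x4006008013000800c010027500)) (.br (Nat.shiftLeft (nat_lit 0x1) (nat_lit 113)) (.one (nat_lit 0x1004006008013200800c010027600)) (.one (nat_lit 0x2004006008013400800c010027600)))) (.br (Nat.shiftLeft (nat_lit 0x1) (nat_lit 124)) (.one (nat_lit 0x3004006008013600800c010027600)) (.br (Nat.shiftLeft (nat_lit 0x801) (nat_lit 113)) (.one (nat_lit 0x1000004006008013000800c030426511)) (.one (nat_lit 0x1002004006008013400800c030427700))))) (.br (Nat.shiftLeft (nat_lit 0x3) (nat_lit 124)) (.br (Nat.shiftLeft (nat_lit 0x1) (nat_lit 125)) (.one (nat_lit 0x1003004006008013600800c030427700)) (.br (Nat.shiftLeft (nat_lit 0x1001) (nat_lit 113)) (.one (nat_lit 0x2000004006008013000800c050826511))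 (.one (nat_lit 0x2003004006008013600800c050827700)))) (.br (Nat.shiftLeft (nat_lit 0x5) (nat_lit 124)) (.br (Nat.shiftLeft (nat_lit 0x1) (nat_lit 126)) (.one (nat_lit 0x3000004006008013000800c070c26511)) (.one (nat_lit 0x4000004006008013000800c091026511))) (.br (Nat.shiftLeft (nat_lit 0x3) (nat_lit 125)) (.one (nat_lit 0x5000004006008013000800c0b1426511)) (.one (nat_lit 0x6000004006008013000800c0d1826511))))))
noncomputable def b57 : BT := .node (nat_lit 0x1) (nat_lit 0x2a11308a86991274139c0039e7000cb64003a98000aa742000e200028) .leaf .leaf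
def t56 : k56.all (jb2 57 fl b57) = true := by decide +kernel
noncomputable def k57 : KT := (.br (Nat.shiftLeft (nat_lit 0x1) (nat_lit 136)) (.br (Nat.shiftLeft (nat_lit 0x1) (nat_lit 127)) (.one (nat_lit 0x7000004006008013000800c0f1c26511)) (.one (nat_lit 0x8000004006008013000800c112026511))) (.br (Nat.shiftLeft (nat_lit 0x800001) (nat_lit 113)) (.one (nat_lit 0x1000001004006008013200802c410026611)) (.br (Nat.shiftLeft (nat_lit 0x1000003) (nat_lit 112)) (.one (nat_lit 0x1000002004006008013400802c410026611)) (.one (nat_lit 0x1000003004006008013600802c410026611)))))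
def t57 : k57.all (jb2 57 fl b0) = true := by decide +kernel
noncomputable def k58 : KT := (.br (Nat.shiftLeft (nat_lit 0x3) (nat_lit 136)) (.br (Nat.shiftLeft (nat_lit 0x1000001) (nat_lit 113)) (.br (Nat.shiftLeft (nat_lit 0x1) (nat_lit 137)) (.one (nat_lit 0x1002003004006008013600802c450826870)) (.one (nat_lit 0x2000001004006008013200804c810026611))) (.br (Nat.shiftLeft (nat_lit 0x2000003) (nat_lit 112)) (.one (nat_lit 0x2000002004006008013400804c810026611)) (.one (nat_lit 0x2000003004006008013600804c810026611)))) (.br (Nat.shiftLeft (nat_lit 0x3000003) (nat_lit 112)) (.br (Nat.shiftLeft (nat_lit 0x1800001) (nat_lit 113)) (.one (nat_lit 0x3000001004006008013200806cc10026611)) (.one (nat_lit 0x3000002004006008013400806cc10026611))) (.br (Nat.shiftLeft (nat_lit 0x1) (nat_lit 138)) (.one (nat_lit 0x3000003004006008013600806cc10026611)) (.br (Nat.shiftLeft (nat_lit 0x2000001) (nat_lit 113)) (.one (nat_lit 0x4000001004006008013200808d010026611)) (.one (nat_lit 0x4000002004006008013400808d010026611))))))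
def t58 : k58.all (jb2 57 fl b0) = true := by decide +kernel
noncomputable def k59 : KT := (.br (Nat.shiftLeft (nat_lit 0x5) (nat_lit 136)) (.one (nat_lit 0x4000003004006008013600808d010026611)) (.br (Nat.shiftLeft (nat_lit 0x2800001) (nat_lit 113)) (.one (nat_lit 0x500000100400600801320080ad410026611)) (.one (nat_lit 0x500000200400600801340080ad410026611))))
noncomputable def b60 : BT := .node (nat_lit 0x1) (nat_lit 0x123225ea58c0032d90008c6410008900028) .leaf .leaf
def t59 : k59.all (jb2 57 fl b60) = true := by decide +kernel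
noncomputable def k60 : KT := (.one (nat_lit 0x500000300400600801360080ad410026611))
def t60 : k60.all (jb2 57 fl b0) = true := by decide +kernel
noncomputable def k61 : KT := (.one (nat_lit 0x600000100400600801320080cd810026611))
noncomputable def b62 : BT := .node (nat_lit 0x1) (nat_lit 0x4c89308a89231273a5900039e6000ac680032d90008c682000e300028) .leaf .leaf
def t61 : k61.all (jb2 57 fl b62) = true := by decide +kernel
noncomputable def k62 : KT := (.br (Nat.shiftLeft (nat_lit 0x6000003) (nat_lit 112)) (.one (nat_lit 0x600000200400600801340080cd810026611)) (.one (nat_lit 0x600000300400600801360080cd810026611)))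
noncomputable def b63 : BT := .node (nat_lit 0xb) (nat_lit 0x6d924d92c72312a22648003a98000ac600032d90008d6029916d9950c003a59000ae5810020b0020b0020b0020b0015000150001500015000150000f0000f0000f0) .leaf .leaf
def t62 : k62.all (jb2 57 fl b63) = true := by decide +kernel
noncomputable def k63 : KT := (.one (nat_lit 0x700000100400600801320080edc10026611))
def t63 : k63.all (jb2 57 fl b0) = true := by decide +kernel
noncomputable def k64 : KT := (.br (Nat.shiftLeft (nat_lit 0x7000003) (nat_lit 112)) (.one (nat_lit 0x700000200400600801340080edc10026611)) (.one (nat_lit 0x700000300400600801360080edc10026611)))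
noncomputable def b65 : BT := .node (nat_lit 0xb) (nat_lit 0x12312a1b6cc002b96000ab64193649b1304003a98000ab8c1001b1001b1001b10015000150000f0000f0000f0000f0000f0000f0000f0) .leaf .leaf
def t64 : k64.all (jb2 57 fl b65) = true := by decide +kernel
noncomputable def k65 : KT := (.br (Nat.shiftLeft (nat_lit 0x4000001) (nat_lit 113)) (.one (nat_lit 0x8000001004006008013200810e010026611)) (.one (nat_lit 0x8000002004006008013400810e010026611)))
def t65 : k65.all (jb2 57 fl b0) = true := by decide +kernel
noncomputable def k66 : KT := (.br (Nat.shiftLeft (nat_lit 0x1000001) (nat_lit 125)) (.br (Nat.shiftLeft (nat_lit 0x800001) (nat_lit 125)) (.br (Nat.shiftLeft (nat_lit 0x1) (nat_lit 148)) (.one (nat_lit 0x8000003004006008013600810e010026611)) (.br (Nat.shiftLeft (nat_lit 0x1000001003) (nat_lit 112)) (.one (nat_lit 0x1000001002004006008013402840c030426711)) (.one (nat_lit 0x1000001003004006008013602840c030426711)))) (.br (Nat.shiftLeft (nat_lit 0x1) (nat_lit 149)) (.one (nat_lit 0x1000002003004006008013602840c050826711)) (.br (Nat.shiftLeft (nat_lit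 0x2000001003) (nat_lit 112)) (.one (nat_lit 0x2000001002004006008013404880c030426711)) (.one (nat_lit 0x2000001003004006008013604880c030426711))))) (.br (Nat.shiftLeft (nat_lit 0x1800001) (nat_lit 125)) (.br (Nat.shiftLeft (nat_lit 0x3) (nat_lit 148)) (.one (nat_lit 0x2000002003004006008013604880c050826711)) (.br (Nat.shiftLeft (nat_lit 0x3000001003) (nat_lit 112)) (.one (nat_lit 0x30000010020040060080134068c0c030426711)) (.one (nat_lit 0x30000010030040060080136068c0c030426711)))) (.br (Nat.shiftLeft (nat_lit 0x4000001003) (nat_lit 112)) (.br (Nat.shiftLeft (nat_lit 0x1) (nat_lit 150)) (.one (nat_lit 0x30000020030040060080136068c0c050826711)) (.one (nat_lit 0x4000001002004006008013408900c030426711))) (.br (Nat.shiftLeft (nat_lit 0x2000001) (nat_lit 125)) (.one (nat_lit 0x4000001003004006008013608900c030426711)) (.one (nat_lit 0x4000002003004006008013608900c050826711))))))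
def t66 : k66.all (jb2 57 fl b0) = true := by decide +kernel
noncomputable def k67 : KT := (.br (Nat.shiftLeft (nat_lit 0x5000001003) (nat_lit 112)) (.one (nat_lit 0x500000100200400600801340a940c030426711)) (.one (nat_lit 0x500000100300400600801360a940c030426711)))
noncomputable def b68 : BT := .node (nat_lit 0x2f) (nat_lit 0x258ca2c515000ea60002b5806645268992000e8680032d8064624c227400074c4000d8f032312619512462db328a80073cc000dcd00065320011ad05b664e749a00065b400156c83bc24e82d0c8c52c89c16d91458ae4005ccf00047ae005d0d001472e005d0d80247ae1ed91458a2b23128aa4d4003a980008d680033180008b6c29189308a2d2312b936cc003a240006d70002bd5000ab6429342619454003a25000ad601008ea008ea008ea008ea008ea008ea0088a0082a0082a0082a007c9007c9007c9007c9007c9007c9007c9007c9007c90070d0070d0070d0070d006ad006ad005970059700597005970059700597005970059700597005970059700597004dc004200042000420003c0003c0003c0003c0003c0003c0003c0) .leaf .leaf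
def t67 : k67.all (jb2 57 fl b68) = true := by decide +kernel
noncomputable def k68 : KT := (.br (Nat.shiftLeft (nat_lit 0x3) (nat_lit 149)) (.one (nat_lit 0x500000200300400600801360a940c050826711)) (.one (nat_lit 0x600000100200400600801340c980c030426711)))
noncomputable def b69 : BT := .node (nat_lit 0xb) (nat_lit 0x12312b9a58c0033570008c641de1273951126a51525d00074360011ad000662e00196c052312d0a6480033560008d6010026d0026d0020c0015100151001510015100151001510015100151000f0) .leaf .leaf
def t68 : k68.all (jb2 57 fl b69) = true := by decide +kernel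
noncomputable def k69 : KT := (.br (Nat.shiftLeft (nat_lit 0x3000001) (nat_lit 125)) (.one (nat_lit 0x600000100300400600801360c980c030426711)) (.br (Nat.shiftLeft (nat_lit 0x7) (nat_lit 148)) (.one (nat_lit 0x600000200300400600801360c980c050826711)) (.one (nat_lit 0x700000100200400600801340e9c0c030426711))))
def t69 : k69.all (jb2 57 fl b0) = true := by decide +kernel
noncomputable def k70 : KT := (.br (Nat.shiftLeft (nat_lit 0x1) (nat_lit 151)) (.br (Nat.shiftLeft (nat_lit 0x3800001) (nat_lit 125)) (.one (nat_lit 0x700000100300400600801360e9c0c030426711)) (.one (nat_lit 0x700000200300400600801360e9c0c050826711))) (.br (Nat.shiftLeft (nat_lit 0x8000001003) (nat_lit 112)) (.one (nat_lit 0x8000001002004006008013410a00c030426711)) (.br (Nat.shiftLeft (nat_lit 0x4000001) (nat_lit 125)) (.one (nat_lit 0x8000001003004006008013610a00c030426711)) (.one (nat_lit 0x8000002003004006008013610a00c050826711)))))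
def t70 : k70.all (jb2 57 fl b0) = true := by decide +kernel
noncomputable def s3 : KT := (.br (nat_lit 0x600000300400600801360080cd810026611) (.br (nat_lit 0x4000002004006008013400808d010026611) (.br (nat_lit 0x6000004006008013000800c0d1826511) k56 (.br (nat_lit 0x1000003004006008013600802c410026611) k57 k58)) (.br (nat_lit 0x500000300400600801360080ad410026611) (.br (nat_lit 0x500000200400600801340080ad410026611) k59 k60) (.br (nat_lit 0x600000100400600801320080cd810026611) k61 k62))) (.br (nat_lit 0x4000002003004006008013608900c050826711) (.br (nat_lit 0x700000300400600801360080edc10026611) (.br (nat_lit 0x700000100400600801320080edc10026611) k63 k64) (.br (nat_lit 0x8000002004006008013400810e010026611) k65 k66)) (.br (nat_lit 0x600000100200400600801340c980c030426711) (.br (nat_lit 0x500000100300400600801360a940c030426711) k67 k68) (.br (nat_lit 0x700000100200400600801340e9c0c030426711) k69 k70))))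
noncomputable def u3 : KT := (.one (nat_lit 0x4006008013000800c010026540))
def w3 : u3.all (wj 57 s3) = true := by decide +kernel
def o3 : OkW 57 (jb2 57 fl) u3 := .lift s3 _ (.br _ _ _ (.br _ _ _ (.br _ _ _ (.leaf b57 k56 t56) (.br _ _ _ (.leaf b0 k57 t57) (.leaf b0 k58 t58))) (.br _ _ _ (.br _ _ _ (.leaf b60 k59 t59) (.leaf b0 k60 t60)) (.br _ _ _ (.leaf b62 k61 t61) (.leaf b63 k62 t62)))) (.br _ _ _ (.br _ _ _ (.br _ _ _ (.leaf b0 k63 t63) (.leaf b65 k64 t64)) (.br _ _ _ (.leaf b0 k65 t65) (.leaf b0 k66 t66))) (.br _ _ _ (.br _ _ _ (.leaf b68 k67 t67) (.leaf b69 k68 t68)) (.br _ _ _ (.leaf b0 k69 t69) (.leaf b0 k70 t70))))) w3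
noncomputable def k71 : KT := (.br (Nat.shiftLeft (nat_lit 0x1004006008015) (nat_lit 64)) (.br (Nat.shiftLeft (nat_lit 0x400600900f) (nat_lit 64)) (.br (Nat.shiftLeft (nat_lit 0x4006009) (nat_lit 76)) (.br (Nat.shiftLeft (nat_lit 0x4006008015) (nat_lit 64)) (.one (nat_lit 0x4006008014000800c010029500)) (.one (nat_lit 0x4006008015000800c01002b500))) (.br (Nat.shiftLeft (nat_lit 0x2003004807) (nat_lit 65)) (.one (nat_lit 0x400600900d000800c01201b500)) (.one (nat_lit 0x400600900e000800c01201d500)))) (.br (Nat.shiftLeft (nat_lit 0x4006009011) (nat_lit 64)) (.br (Nat.shiftLeft (nat_lit 0x400600901) (nat_lit 68)) (.one (nat_lit 0x400600900f000800c01201f500)) (.one (nat_lit 0x4006009010000800c012021500))) (.br (Nat.shiftLeft (nat_lit 0x1) (nat_lit 112)) (.one (nat_lit 0x4006009011000800c012023500)) (.one (nat_lit 0x1004006008014200800c010029600))))) (.br (Nat.shiftLeft (nat_lit 0x3004006008015) (nat_lit 64)) (.br (Nat.shiftLeft (nat_lit 0x2004006008015) (nat_lit 64)) (.br (Nat.shiftLeft (nat_lit 0x1) (nat_lit 113)) (.one (nat_lit 0x1004006008015200800c01002b600))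 (.one (nat_lit 0x2004006008014400800c010029600))) (.br (Nat.shiftLeft (nat_lit 0x3) (nat_lit 112)) (.one (nat_lit 0x2004006008015400800c01002b600)) (.one (nat_lit 0x3004006008014600800c010029600)))) (.br (Nat.shiftLeft (nat_lit 0x1000004006008015) (nat_lit 64)) (.br (Nat.shiftLeft (nat_lit 0x1) (nat_lit 124)) (.one (nat_lit 0x3004006008015600800c01002b600)) (.one (nat_lit 0x1000004006008014000800c030428511))) (.br (Nat.shiftLeft (nat_lit 0x801) (nat_lit 113)) (.one (nat_lit 0x1000004006008015000800c03042a511)) (.br (Nat.shiftLeft (nat_lit 0x1002004006008015) (nat_lit 64)) (.one (nat_lit 0x1002004006008014400800c030429700)) (.one (nat_lit 0x1002004006008015400800c03042a760)))))))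
def t71 : k71.all (jb2 57 fl b0) = true := by decide +kernel
noncomputable def k72 : KT := (.one (nat_lit 0x1003004006008014600800c030428760))
def t72 : k72.all (jb2 57 fl b0) = true := by decide +kernel
noncomputable def k73 : KT := (.br (Nat.shiftLeft (nat_lit 0x2000004006008015) (nat_lit 64)) (.br (Nat.shiftLeft (nat_lit 0x1) (nat_lit 125)) (.one (nat_lit 0x1003004006008015600800c03042a760)) (.one (nat_lit 0x2000004006008014000800c050828511))) (.br (Nat.shiftLeft (nat_lit 0x1001) (nat_lit 113)) (.one (nat_lit 0x2000004006008015000800c05082a511)) (.one (nat_lit 0x2003004006008014600800c050829700))))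
def t73 : k73.all (jb2 57 fl b0) = true := by decide +kernel
noncomputable def k74 : KT := (.br (Nat.shiftLeft (nat_lit 0x3000004006008015) (nat_lit 64)) (.br (Nat.shiftLeft (nat_lit 0x3) (nat_lit 124)) (.one (nat_lit 0x2003004006008015600800c05082a760)) (.one (nat_lit 0x3000004006008014000800c070c28511))) (.br (Nat.shiftLeft (nat_lit 0x1) (nat_lit 126)) (.one (nat_lit 0x3000004006008015000800c070c2a511)) (.br (Nat.shiftLeft (nat_lit 0x4000004006008015) (nat_lit 64)) (.one (nat_lit 0x4000004006008014000800c091028511)) (.one (nat_lit 0x4000004006008015000800c09102a511)))))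
def t74 : k74.all (jb2 57 fl b0) = true := by decide +kernel
noncomputable def k75 : KT := (.br (Nat.shiftLeft (nat_lit 0x5000004006008015) (nat_lit 64)) (.one (nat_lit 0x5000004006008014000800c0b1428511)) (.br (Nat.shiftLeft (nat_lit 0x3) (nat_lit 125)) (.one (nat_lit 0x5000004006008015000800c0b142a511)) (.one (nat_lit 0x6000004006008014000800c0d1828511))))
def t75 : k75.all (jb2 57 fl b0) = true := by decide +kernel
noncomputable def k76 : KT := (.br (Nat.shiftLeft (nat_lit 0x7) (nat_lit 124)) (.one (nat_lit 0x6000004006008015000800c0d182a511)) (.one (nat_lit 0x7000004006008014000800c0f1c28511)))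
def t76 : k76.all (jb2 57 fl b0) = true := by decide +kernel
noncomputable def k77 : KT := (.br (Nat.shiftLeft (nat_lit 0x1000001004006008015) (nat_lit 64)) (.br (Nat.shiftLeft (nat_lit 0x8000004006008015) (nat_lit 64)) (.br (Nat.shiftLeft (nat_lit 0x1) (nat_lit 127)) (.one (nat_lit 0x7000004006008015000800c0f1c2a511)) (.one (nat_lit 0x8000004006008014000800c112028511))) (.br (Nat.shiftLeft (nat_lit 0x1) (nat_lit 136)) (.one (nat_lit 0x8000004006008015000800c11202a511)) (.one (nat_lit 0x1000001004006008014200802c410028611)))) (.br (Nat.shiftLeft (nat_lit 0x1000002004006008015) (nat_lit 64)) (.br (Nat.shiftLeft (nat_lit 0x800001) (nat_lit 113)) (.one (nat_lit 0x1000001004006008015200802c41002a611)) (.one (nat_lit 0x1000002004006008014400802c410028611))) (.br (Nat.shiftLeft (nat_lit 0x1000003) (nat_lit 112)) (.one (nat_lit 0x1000002004006008015400802c41002a611)) (.br (Nat.shiftLeft (nat_lit 0x1000003004006008015) (nat_lit 64)) (.one (nat_lit 0x1000003004006008014600802c410028611)) (.one (nat_lit 0x1000003004006008015600802c41002a611))))))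
def t77 : k77.all (jb2 57 fl b0) = true := by decide +kernel
noncomputable def k78 : KT := (.br (Nat.shiftLeft (nat_lit 0x3000001004006008015) (nat_lit 64)) (.br (Nat.shiftLeft (nat_lit 0x2000002004006008015) (nat_lit 64)) (.br (Nat.shiftLeft (nat_lit 0x2000001004006008015) (nat_lit 64)) (.br (Nat.shiftLeft (nat_lit 0x1) (nat_lit 137)) (.one (nat_lit 0x1002003004006008014600802c450828870)) (.one (nat_lit 0x2000001004006008014200804c810028611))) (.br (Nat.shiftLeft (nat_lit 0x1000001) (nat_lit 113)) (.one (nat_lit 0x2000001004006008015200804c81002a611)) (.one (nat_lit 0x2000002004006008014400804c810028611)))) (.br (Nat.shiftLeft (nat_lit 0x2000003004006008015) (nat_lit 64)) (.br (Nat.shiftLeft (nat_lit 0x2000003) (nat_lit 112)) (.one (nat_lit 0x2000002004006008015400804c81002a611)) (.one (nat_lit 0x2000003004006008014600804c810028611))) (.br (Nat.shiftLeft (nat_lit 0x3) (nat_lit 136)) (.one (nat_lit 0x2000003004006008015600804c81002a611)) (.one (nat_lit 0x3000001004006008014200806cc10028611))))) (.br (Nat.shiftLeft (nat_lit 0x3000003004006008015)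 (nat_lit 64)) (.br (Nat.shiftLeft (nat_lit 0x3000002004006008015) (nat_lit 64)) (.br (Nat.shiftLeft (nat_lit 0x1800001) (nat_lit 113)) (.one (nat_lit 0x3000001004006008015200806cc1002a611)) (.one (nat_lit 0x3000002004006008014400806cc10028611))) (.br (Nat.shiftLeft (nat_lit 0x3000003) (nat_lit 112)) (.one (nat_lit 0x3000002004006008015400806cc1002a611)) (.one (nat_lit 0x3000003004006008014600806cc10028611)))) (.br (Nat.shiftLeft (nat_lit 0x4000001004006008015) (nat_lit 64)) (.br (Nat.shiftLeft (nat_lit 0x1) (nat_lit 138)) (.one (nat_lit 0x3000003004006008015600806cc1002a611)) (.one (nat_lit 0x4000001004006008014200808d010028611))) (.br (Nat.shiftLeft (nat_lit 0x2000001) (nat_lit 113)) (.one (nat_lit 0x4000001004006008015200808d01002a611)) (.one (nat_lit 0x4000002004006008014400808d010028611))))))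
def t78 : k78.all (jb2 57 fl b0) = true := by decide +kernel
noncomputable def k79 : KT := (.br (Nat.shiftLeft (nat_lit 0x4000003004006008015) (nat_lit 64)) (.br (Nat.shiftLeft (nat_lit 0x4000003) (nat_lit 112)) (.one (nat_lit 0x4000002004006008015400808d01002a611)) (.one (nat_lit 0x4000003004006008014600808d010028611))) (.br (Nat.shiftLeft (nat_lit 0x5) (nat_lit 136)) (.one (nat_lit 0x4000003004006008015600808d01002a611)) (.br (Nat.shiftLeft (nat_lit 0x5000001004006008015) (nat_lit 64)) (.one (nat_lit 0x500000100400600801420080ad410028611)) (.one (nat_lit 0x500000100400600801520080ad41002a611)))))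
def t79 : k79.all (jb2 57 fl b0) = true := by decide +kernel
noncomputable def k80 : KT := (.br (Nat.shiftLeft (nat_lit 0x5000002004006008015) (nat_lit 64)) (.one (nat_lit 0x500000200400600801440080ad410028611)) (.br (Nat.shiftLeft (nat_lit 0x5000003) (nat_lit 112)) (.one (nat_lit 0x500000200400600801540080ad41002a611)) (.one (nat_lit 0x500000300400600801460080ad410028611))))
def t80 : k80.all (jb2 57 fl b0) = true := by decide +kernel
noncomputable def k81 : KT := (.br (Nat.shiftLeft (nat_lit 0x3) (nat_lit 137)) (.one (nat_lit 0x500000300400600801560080ad41002a611)) (.one (nat_lit 0x600000100400600801420080cd810028611)))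
def t81 : k81.all (jb2 57 fl b0) = true := by decide +kernel
noncomputable def k82 : KT := (.br (Nat.shiftLeft (nat_lit 0x3000001) (nat_lit 113)) (.one (nat_lit 0x600000100400600801520080cd81002a611)) (.one (nat_lit 0x600000200400600801440080cd810028611)))
def t82 : k82.all (jb2 57 fl b0) = true := by decide +kernel
noncomputable def k83 : KT := (.br (Nat.shiftLeft (nat_lit 0x6000003) (nat_lit 112)) (.one (nat_lit 0x600000200400600801540080cd81002a611)) (.br (Nat.shiftLeft (nat_lit 0x6000003004006008015) (nat_lit 64)) (.one (nat_lit 0x600000300400600801460080cd810028611)) (.one (nat_lit 0x600000300400600801560080cd81002a611))))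
def t83 : k83.all (jb2 57 fl b0) = true := by decide +kernel
noncomputable def k84 : KT := (.br (Nat.shiftLeft (nat_lit 0x7000001004006008015) (nat_lit 64)) (.one (nat_lit 0x700000100400600801420080edc10028611)) (.one (nat_lit 0x700000100400600801520080edc1002a611)))
def t84 : k84.all (jb2 57 fl b0) = true := by decide +kernel
noncomputable def k85 : KT := (.br (Nat.shiftLeft (nat_lit 0x7000003) (nat_lit 112)) (.br (Nat.shiftLeft (nat_lit 0x7000002004006008015) (nat_lit 64)) (.one (nat_lit 0x700000200400600801440080edc10028611)) (.one (nat_lit 0x700000200400600801540080edc1002a611))) (.br (Nat.shiftLeft (nat_lit 0x7000003004006008015) (nat_lit 64)) (.one (nat_lit 0x700000300400600801460080edc10028611)) (.one (nat_lit 0x700000300400600801560080edc1002a611))))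
def t85 : k85.all (jb2 57 fl b0) = true := by decide +kernel
noncomputable def k86 : KT := (.br (Nat.shiftLeft (nat_lit 0x8000001004006008015) (nat_lit 64)) (.one (nat_lit 0x8000001004006008014200810e010028611)) (.br (Nat.shiftLeft (nat_lit 0x4000001) (nat_lit 113)) (.one (nat_lit 0x8000001004006008015200810e01002a611)) (.one (nat_lit 0x8000002004006008014400810e010028611))))
def t86 : k86.all (jb2 57 fl b0) = true := by decide +kernel
noncomputable def k87 : KT := (.br (Nat.shiftLeft (nat_lit 0x1) (nat_lit 149)) (.br (Nat.shiftLeft (nat_lit 0x8000003004006008015) (nat_lit 64)) (.br (Nat.shiftLeft (nat_lit 0x8000003) (nat_lit 112)) (.one (nat_lit 0x8000002004006008015400810e01002a611)) (.one (nat_lit 0x8000003004006008014600810e010028611))) (.br (Nat.shiftLeft (nat_lit 0x1) (nat_lit 148)) (.one (nat_lit 0x8000003004006008015600810e01002a611)) (.br (Nat.shiftLeft (nat_lit 0x800001) (nat_lit 125)) (.one (nat_lit 0x1000001002004006008014402840c030428711)) (.one (nat_lit 0x1000002003004006008014602840c050828711))))) (.br (Nat.shiftLeft (nat_lit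 0x1800001) (nat_lit 125)) (.br (Nat.shiftLeft (nat_lit 0x1000001) (nat_lit 125)) (.one (nat_lit 0x2000001002004006008014404880c030428711)) (.br (Nat.shiftLeft (nat_lit 0x3) (nat_lit 148)) (.one (nat_lit 0x2000002003004006008014604880c050828711)) (.one (nat_lit 0x30000010020040060080144068c0c030428711)))) (.br (Nat.shiftLeft (nat_lit 0x1) (nat_lit 150)) (.one (nat_lit 0x30000020030040060080146068c0c050828711)) (.br (Nat.shiftLeft (nat_lit 0x2000001) (nat_lit 125)) (.one (nat_lit 0x4000001002004006008014408900c030428711)) (.one (nat_lit 0x4000002003004006008014608900c050828711))))))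
def t87 : k87.all (jb2 57 fl b0) = true := by decide +kernel
noncomputable def k88 : KT := (.br (Nat.shiftLeft (nat_lit 0x3) (nat_lit 149)) (.br (Nat.shiftLeft (nat_lit 0x2800001) (nat_lit 125)) (.one (nat_lit 0x500000100200400600801440a940c030428711)) (.one (nat_lit 0x500000200300400600801460a940c050828711))) (.br (Nat.shiftLeft (nat_lit 0x3000001) (nat_lit 125)) (.one (nat_lit 0x600000100200400600801440c980c030428711)) (.one (nat_lit 0x600000200300400600801460c980c050828711))))
def t88 : k88.all (jb2 57 fl b0) = true := by decide +kernel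
noncomputable def k89 : KT := (.br (Nat.shiftLeft (nat_lit 0x1) (nat_lit 151)) (.br (Nat.shiftLeft (nat_lit 0x3800001) (nat_lit 125)) (.one (nat_lit 0x700000100200400600801440e9c0c030428711)) (.one (nat_lit 0x700000200300400600801460e9c0c050828711))) (.br (Nat.shiftLeft (nat_lit 0x4000001) (nat_lit 125)) (.one (nat_lit 0x8000001002004006008014410a00c030428711)) (.one (nat_lit 0x8000002003004006008014610a00c050828711))))
def t89 : k89.all (jb2 57 fl b0) = true := by decide +kernel
noncomputable def s4 : KT := (.br (nat_lit 0x500000100400600801520080ad41002a611) (.br (nat_lit 0x4000004006008015000800c09102a511) (.br (nat_lit 0x1003004006008014600800c030428760) (.br (nat_lit 0x1002004006008015400800c03042a760) k71 k72) (.br (nat_lit 0x2003004006008014600800c050829700) k73 k74)) (.br (nat_lit 0x7000004006008014000800c0f1c28511) (.br (nat_lit 0x6000004006008014000800c0d1828511) k75 k76) (.br (nat_lit 0x1000003004006008015600802c41002a611) k77 (.br (nat_lit 0x4000002004006008014400808d010028611) k78 k79)))) (.br (nat_lit 0x700000100400600801520080edc1002a611)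 (.br (nat_lit 0x600000100400600801420080cd810028611) (.br (nat_lit 0x500000300400600801460080ad410028611) k80 k81) (.br (nat_lit 0x600000200400600801440080cd810028611) k82 (.br (nat_lit 0x600000300400600801560080cd81002a611) k83 k84))) (.br (nat_lit 0x8000002004006008014400810e010028611) (.br (nat_lit 0x700000300400600801560080edc1002a611) k85 k86) (.br (nat_lit 0x4000002003004006008014608900c050828711) k87 (.br (nat_lit 0x600000200300400600801460c980c050828711) k88 k89)))))
noncomputable def u4 : KT := (.br (Nat.shiftLeft (nat_lit 0x2003004807) (nat_lit 65)) (.br (Nat.shiftLeft (nat_lit 0x4006008015) (nat_lit 64)) (.one (nat_lit 0x4006008014000800c010028540)) (.br (Nat.shiftLeft (nat_lit 0x4006009) (nat_lit 76)) (.one (nat_lit 0x4006008015000800c01002a540)) (.one (nat_lit 0x400600900d000800c01201b500)))) (.br (Nat.shiftLeft (nat_lit 0x400600901) (nat_lit 68)) (.br (Nat.shiftLeft (nat_lit 0x400600900f) (nat_lit 64)) (.one (nat_lit 0x400600900e000800c01201d500)) (.one (nat_lit 0x400600900f000800c01201f500))) (.br (Nat.shiftLeft (nat_lit 0x4006009011)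 (nat_lit 64)) (.one (nat_lit 0x4006009010000800c012021500)) (.one (nat_lit 0x4006009011000800c012023500)))))
def w4 : u4.all (wj 57 s4) = true := by decide +kernel
def o4 : OkW 57 (jb2 57 fl) u4 := .lift s4 _ (.br _ _ _ (.br _ _ _ (.br _ _ _ (.br _ _ _ (.leaf b0 k71 t71) (.leaf b0 k72 t72)) (.br _ _ _ (.leaf b0 k73 t73) (.leaf b0 k74 t74))) (.br _ _ _ (.br _ _ _ (.leaf b0 k75 t75) (.leaf b0 k76 t76)) (.br _ _ _ (.leaf b0 k77 t77) (.br _ _ _ (.leaf b0 k78 t78) (.leaf b0 k79 t79))))) (.br _ _ _ (.br _ _ _ (.br _ _ _ (.leaf b0 k80 t80) (.leaf b0 k81 t81)) (.br _ _ _ (.leaf b0 k82 t82) (.br _ _ _ (.leaf b0 k83 t83) (.leaf b0 k84 t84)))) (.br _ _ _ (.br _ _ _ (.leaf b0 k85 t85) (.leaf b0 k86 t86)) (.br _ _ _ (.leaf b0 k87 t87) (.br _ _ _ (.leaf b0 k88 t88) (.leaf b0 k89 t89)))))) w4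
noncomputable def k90 : KT := (.br (Nat.shiftLeft (nat_lit 0x1003) (nat_lit 112)) (.br (Nat.shiftLeft (nat_lit 0x3) (nat_lit 112)) (.br (Nat.shiftLeft (nat_lit 0x1) (nat_lit 112)) (.one (nat_lit 0x4006009012000800c012025500)) (.br (Nat.shiftLeft (nat_lit 0x1) (nat_lit 113)) (.one (nat_lit 0x1004006009012200800c012025600)) (.one (nat_lit 0x2004006009012400800c012025600)))) (.br (Nat.shiftLeft (nat_lit 0x1) (nat_lit 124)) (.one (nat_lit 0x3004006009012600800c012025600)) (.br (Nat.shiftLeft (nat_lit 0x801) (nat_lit 113)) (.one (nat_lit 0x1000004006009012000800c032424511)) (.one (nat_lit 0x1002004006009012400800c032425700))))) (.br (Nat.shiftLeft (nat_lit 0x3) (nat_lit 124)) (.br (Nat.shiftLeft (nat_lit 0x1) (nat_lit 125)) (.one (nat_lit 0x1003004006009012600800c032425700)) (.br (Nat.shiftLeft (nat_lit 0x1001) (nat_lit 113)) (.one (nat_lit 0x2000004006009012000800c052824511)) (.one (nat_lit 0x2003004006009012600800c052825700)))) (.br (Nat.shiftLeft (nat_lit 0x5) (nat_lit 124)) (.br (Nat.shiftLeft (nat_lit 0x1) (nat_lit 126)) (.one (nat_lit 0x3000004006009012000800c072c24511))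 (.one (nat_lit 0x4000004006009012000800c093024511))) (.br (Nat.shiftLeft (nat_lit 0x3) (nat_lit 125)) (.one (nat_lit 0x5000004006009012000800c0b3424511)) (.one (nat_lit 0x6000004006009012000800c0d3824511))))))
noncomputable def b91 : BT := .node (nat_lit 0x1) (nat_lit 0x6f0b78926b2312a1b788003a98000ca64002b19000ac602000e300028) .leaf .leaf
def t90 : k90.all (jb2 57 fl b91) = true := by decide +kernel
noncomputable def k91 : KT := (.one (nat_lit 0x7000004006009012000800c0f3c24511))
noncomputable def b92 : BT := .node (nat_lit 0x11) (nat_lit 0x289a64926c001d4c00074b40cb224d89d0001d2d00056320d4349b12f8003a5a000cb64100286002860028600227001c700168001680016800168001680016800168001680016800168001680016800168) .leaf .leaf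
def t91 : k91.all (jb2 57 fl b92) = true := by decide +kernel
noncomputable def k92 : KT := (.one (nat_lit 0x8000004006009012000800c114024511))
noncomputable def b93 : BT := .node (nat_lit 0xb) (nat_lit 0x54249b93a00041dd000ac641a8451527436d097c9372a1a58c9d0001d2d001653800196c00155b6009d2c80265b21cb212f926edb325f13040032d8000ca70003a980008b9820031f0031f002c0002c0002c0002c0002c0002c0001ab000f0000f0000f0) .leaf .leaf
def t92 : k92.all (jb2 57 fl b93) = true := by decide +kernel
noncomputable def k93 : KT := (.br (Nat.shiftLeft (nat_lit 0x800001) (nat_lit 113)) (.br (Nat.shiftLeft (nat_lit 0x1) (nat_lit 136)) (.one (nat_lit 0x9000004006009012000800c134424511)) (.one (nat_lit 0x1000001004006009012200802c412024611))) (.br (Nat.shiftLeft (nat_lit 0x1000003) (nat_lit 112)) (.one (nat_lit 0x1000002004006009012400802c412024611)) (.one (nat_lit 0x1000003004006009012600802c412024611))))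
noncomputable def b94 : BT := .node (nat_lit 0x13) (nat_lit 0x36cc9804e82a124dd27200195000055bc0020ee00065b4151525f13a0003a98000cb641db325f93a0003a990008c70196349c12fc003a5c000cb6410036a0036a002af002af002af00250001f0001f0001f0001f0001f0001f0001f000190001900019000190001900019000190) .leaf .leaf
def t93 : k93.all (jb2 57 fl b94) = true := by decide +kernel
noncomputable def k94 : KT := (.br (Nat.shiftLeft (nat_lit 0x3) (nat_lit 136)) (.br (Nat.shiftLeft (nat_lit 0x1000001) (nat_lit 113)) (.br (Nat.shiftLeft (nat_lit 0x1) (nat_lit 137)) (.one (nat_lit 0x1002003004006009012600802c452824870)) (.one (nat_lit 0x2000001004006009012200804c812024611))) (.br (Nat.shiftLeft (nat_lit 0x2000003) (nat_lit 112)) (.one (nat_lit 0x2000002004006009012400804c812024611)) (.one (nat_lit 0x2000003004006009012600804c812024611)))) (.br (Nat.shiftLeft (nat_lit 0x3000003) (nat_lit 112)) (.br (Nat.shiftLeft (nat_lit 0x1800001) (nat_lit 113)) (.one (nat_lit 0x3000001004006009012200806cc12024611)) (.one (nat_lit 0x3000002004006009012400806cc12024611))) (.br (Nat.shiftLeft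 (nat_lit 0x1) (nat_lit 138)) (.one (nat_lit 0x3000003004006009012600806cc12024611)) (.one (nat_lit 0x4000001004006009012200808d012024611)))))
def t94 : k94.all (jb2 57 fl b0) = true := by decide +kernel
noncomputable def k95 : KT := (.br (Nat.shiftLeft (nat_lit 0x4000003) (nat_lit 112)) (.one (nat_lit 0x4000002004006009012400808d012024611)) (.br (Nat.shiftLeft (nat_lit 0x5) (nat_lit 136)) (.one (nat_lit 0x4000003004006009012600808d012024611)) (.one (nat_lit 0x500000100400600901220080ad412024611))))
noncomputable def b96 : BT := .node (nat_lit 0x1) (nat_lit 0xde16da130400329a000aa9410008800028) .leaf .leaf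
def t95 : k95.all (jb2 57 fl b96) = true := by decide +kernel
noncomputable def k96 : KT := (.br (Nat.shiftLeft (nat_lit 0x5000003) (nat_lit 112)) (.one (nat_lit 0x500000200400600901240080ad412024611)) (.one (nat_lit 0x500000300400600901260080ad412024611)))
def t96 : k96.all (jb2 57 fl b0) = true := by decide +kernel
noncomputable def k97 : KT := (.one (nat_lit 0x600000100400600901220080cd812024611))
noncomputable def b98 : BT := .node (nat_lit 0x1) (nat_lit 0x2a19450a2a9914b213a0003a59000cb64003a5a000ab702000e200028) .leaf .leaf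
def t97 : k97.all (jb2 57 fl b98) = true := by decide +kernel
noncomputable def k98 : KT := (.one (nat_lit 0x600000200400600901240080cd812024611))
noncomputable def b99 : BT := .node (nat_lit 0x17) (nat_lit 0x6f0b6cca8600194c800572c0c9a93049d0001d3080056360ef0b6cc982964274150c003a590008b98003a1c000ad5c299127424d80032da000c9701003bb003bb003bb003bb003bb003bb0035b0035b0035b0035b002fb002fb002fb002fb002fb002fb002fb002fb002fb002fb0024000240001e0001e0) .leaf .leaf
def t98 : k98.all (jb2 57 fl b99) = true := by decide +kernel
noncomputable def k99 : KT := (.one (nat_lit 0x600000300400600901260080cd812024611))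
def t99 : k99.all (jb2 57 fl b0) = true := by decide +kernel
noncomputable def k100 : KT := (.one (nat_lit 0x700000100400600901220080edc12024611))
noncomputable def b101 : BT := .node (nat_lit 0xb) (nat_lit 0x6d9b6cca2a001d4c00046b40ed993089d0001d3100046380c9b13a0a2cdb36da130401ba5a006ad600032d9004aa942de1260a4dc0032a2000aa741002cb002cb0026b0026b0026b0026b0026b0020b0020b0015000150000f0) .leaf .leaf
def t100 : k100.all (jb2 57 fl b101) = true := by decide +kernel
noncomputable def k101 : KT := (.br (Nat.shiftLeft (nat_lit 0x7000003) (nat_lit 112)) (.one (nat_lit 0x700000200400600901240080edc12024611)) (.one (nat_lit 0x700000300400600901260080edc12024611)))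
noncomputable def b102 : BT := .node (nat_lit 0xb) (nat_lit 0x24d89d054391893a12c6001d0e000572c00196d0004632149aa4dc9ce00196d00065b20ed936cca869634b193a0003a980008e600032d8000ca702002c6002c60020b0020b0020b0020b0020b001ab001ab001ab001ab000f0) .leaf .leaf
def t101 : k101.all (jb2 57 fl b102) = true := by decide +kernel
noncomputable def k102 : KT := (.one (nat_lit 0x8000001004006009012200810e012024611))
noncomputable def b103 : BT := .node (nat_lit 0xb) (nat_lit 0x4b193a0a8723126093a5322db428a80074b40055ac00174c0004d8f80274b40055ab87231260a5900032650008c68100267002670026700151001510015100151001510015100151000f0000f0) .leaf .leaf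
def t102 : k102.all (jb2 57 fl b103) = true := by decide +kernel
noncomputable def k103 : KT := (.br (Nat.shiftLeft (nat_lit 0x8000003) (nat_lit 112)) (.one (nat_lit 0x8000002004006009012400810e012024611)) (.one (nat_lit 0x8000003004006009012600810e012024611)))
noncomputable def b104 : BT := .node (nat_lit 0x1) (nat_lit 0x6d936cca86db249b24dc0032d8002ad600132d8002ca702000e300028) .leaf .leaf
def t103 : k103.all (jb2 57 fl b104) = true := by decide +kernel
noncomputable def k104 : KT := (.br (Nat.shiftLeft (nat_lit 0x800001) (nat_lit 125)) (.br (Nat.shiftLeft (nat_lit 0x9000003) (nat_lit 112)) (.br (Nat.shiftLeft (nat_lit 0x4800001) (nat_lit 113)) (.one (nat_lit 0x9000001004006009012200812e412024611)) (.one (nat_lit 0x9000002004006009012400812e412024611))) (.br (Nat.shiftLeft (nat_lit 0x1) (nat_lit 148)) (.one (nat_lit 0x9000003004006009012600812e412024611)) (.br (Nat.shiftLeft (nat_lit 0x1000001003) (nat_lit 112)) (.one (nat_lit 0x1000001002004006009012402840c032424711)) (.one (nat_lit 0x1000001003004006009012602840c032424711))))) (.br (Nat.shiftLeft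 (nat_lit 0x1000001) (nat_lit 125)) (.br (Nat.shiftLeft (nat_lit 0x1) (nat_lit 149)) (.one (nat_lit 0x1000002003004006009012602840c052824711)) (.br (Nat.shiftLeft (nat_lit 0x2000001003) (nat_lit 112)) (.one (nat_lit 0x2000001002004006009012404880c032424711)) (.one (nat_lit 0x2000001003004006009012604880c032424711)))) (.br (Nat.shiftLeft (nat_lit 0x3) (nat_lit 148)) (.one (nat_lit 0x2000002003004006009012604880c052824711)) (.br (Nat.shiftLeft (nat_lit 0x3000001003) (nat_lit 112)) (.one (nat_lit 0x30000010020040060090124068c0c032424711)) (.one (nat_lit 0x30000010030040060090126068c0c032424711))))))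
def t104 : k104.all (jb2 57 fl b0) = true := by decide +kernel
noncomputable def k105 : KT := (.br (Nat.shiftLeft (nat_lit 0x4000001003) (nat_lit 112)) (.br (Nat.shiftLeft (nat_lit 0x1) (nat_lit 150)) (.one (nat_lit 0x30000020030040060090126068c0c052824711)) (.one (nat_lit 0x4000001002004006009012408900c032424711))) (.br (Nat.shiftLeft (nat_lit 0x2000001) (nat_lit 125)) (.one (nat_lit 0x4000001003004006009012608900c032424711)) (.br (Nat.shiftLeft (nat_lit 0x5) (nat_lit 148)) (.one (nat_lit 0x4000002003004006009012608900c052824711)) (.one (nat_lit 0x500000100200400600901240a940c032424711)))))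
noncomputable def b106 : BT := .node (nat_lit 0x13) (nat_lit 0x24624e82a20007438000dcd03b64db328ab6c92684c2918968532400196c000563400194c80055ca0019ca80046b01cb193a0a88de1260a4d4003a1c000ad600032a4000aa6c2db226093a4003a600008c781de128b16840039dc0008f5c1db2260a648003227000ad5c1004e2004e2004e200481004810036b0036b0036b0036b0036b0036b002b0002500025000250001f000190001900019000190) .leaf .leaf
def t105 : k105.all (jb2 57 fl b106) = true := by decide +kernel
noncomputable def k106 : KT := (.br (Nat.shiftLeft (nat_lit 0x2800001) (nat_lit 125)) (.one (nat_lit 0x500000100300400600901260a940c032424711)) (.one (nat_lit 0x500000200300400600901260a940c052824711)))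
noncomputable def b107 : BT := .node (nat_lit 0x17) (nat_lit 0x3785b66544000ca64002b97077849d05166f092ed324001d2d000463800196c800563016f0951132523127424d4003318002ac600133180028b6c2de16d99454003299000ac6810041600416003b6003b6003b6003b6003b6003b6003b6003b6003b6003b6002fb002fb002fb002fb002400024000240001e0001e0001e0001e0001e0) .leaf .leaf
def t106 : k106.all (jb2 57 fl b107) = true := by decide +kernel
noncomputable def k107 : KT := (.br (Nat.shiftLeft (nat_lit 0x6000001003) (nat_lit 112)) (.one (nat_lit 0x600000100200400600901240c980c032424711)) (.br (Nat.shiftLeft (nat_lit 0x3000001) (nat_lit 125)) (.one (nat_lit 0x600000100300400600901260c980c032424711)) (.one (nat_lit 0x600000200300400600901260c980c052824711))))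
noncomputable def b108 : BT := .node (nat_lit 0xb) (nat_lit 0x48c49845726f092ed324001cd380037b000196c800563014c8950d324db22a2258c0032d9000cb60003318000ac6020026700267002670026700267002670026700267001ab001ab001ab000f0) .leaf .leaf
def t107 : k107.all (jb2 57 fl b108) = true := by decide +kernel
noncomputable def k108 : KT := (.br (Nat.shiftLeft (nat_lit 0x7000001003) (nat_lit 112)) (.one (nat_lit 0x700000100200400600901240e9c0c032424711)) (.br (Nat.shiftLeft (nat_lit 0x3800001) (nat_lit 125)) (.one (nat_lit 0x700000100300400600901260e9c0c032424711)) (.one (nat_lit 0x700000200300400600901260e9c0c052824711))))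
noncomputable def b109 : BT := .node (nat_lit 0x1) (nat_lit 0xdb22611454003a240008d6810008800028) .leaf .leaf
def t108 : k108.all (jb2 57 fl b109) = true := by decide +kernel
noncomputable def k109 : KT := (.br (Nat.shiftLeft (nat_lit 0x4000001) (nat_lit 125)) (.br (Nat.shiftLeft (nat_lit 0x8000001003) (nat_lit 112)) (.one (nat_lit 0x8000001002004006009012410a00c032424711)) (.one (nat_lit 0x8000001003004006009012610a00c032424711))) (.br (Nat.shiftLeft (nat_lit 0x9) (nat_lit 148)) (.one (nat_lit 0x8000002003004006009012610a00c052824711)) (.br (Nat.shiftLeft (nat_lit 0x9000001003) (nat_lit 112)) (.one (nat_lit 0x9000001002004006009012412a40c032424711)) (.one (nat_lit 0x9000001003004006009012612a40c032424711)))))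
noncomputable def b110 : BT := .node (nat_lit 0x1) (nat_lit 0xdb249b150c0032d8000ae5810008800028) .leaf .leaf
def t109 : k109.all (jb2 57 fl b110) = true := by decide +kernel
noncomputable def k110 : KT := (.one (nat_lit 0x9000002003004006009012612a40c052824711))
def t110 : k110.all (jb2 57 fl b0) = true := by decide +kernel
noncomputable def s5 : KT := (.br (nat_lit 0x600000300400600901260080cd812024611) (.br (nat_lit 0x4000001004006009012200808d012024611) (.br (nat_lit 0x7000004006009012000800c0f3c24511) (.br (nat_lit 0x6000004006009012000800c0d3824511) k90 k91) (.br (nat_lit 0x8000004006009012000800c114024511) k92 (.br (nat_lit 0x1000003004006009012600802c412024611) k93 k94))) (.br (nat_lit 0x500000300400600901260080ad412024611) (.br (nat_lit 0x500000100400600901220080ad412024611) k95 k96) (.br (nat_lit 0x600000100400600901220080cd812024611) k97 (.br (nat_lit 0x600000200400600901240080cd812024611) k98 k99)))) (.br (nat_lit 0x30000010030040060090126068c0c032424711) (.br (nat_lit 0x700000300400600901260080edc12024611) (.br (nat_lit 0x700000100400600901220080edc12024611)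 k100 k101) (.br (nat_lit 0x8000001004006009012200810e012024611) k102 (.br (nat_lit 0x8000003004006009012600810e012024611) k103 k104))) (.br (nat_lit 0x600000200300400600901260c980c052824711) (.br (nat_lit 0x500000100200400600901240a940c032424711) k105 (.br (nat_lit 0x500000200300400600901260a940c052824711) k106 k107)) (.br (nat_lit 0x700000200300400600901260e9c0c052824711) k108 (.br (nat_lit 0x9000001003004006009012612a40c032424711) k109 k110)))))
noncomputable def u5 : KT := (.one (nat_lit 0x4006009012000800c012024540))
def w5 : u5.all (wj 57 s5) = true := by decide +kernel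
def o5 : OkW 57 (jb2 57 fl) u5 := .lift s5 _ (.br _ _ _ (.br _ _ _ (.br _ _ _ (.br _ _ _ (.leaf b91 k90 t90) (.leaf b92 k91 t91)) (.br _ _ _ (.leaf b93 k92 t92) (.br _ _ _ (.leaf b94 k93 t93) (.leaf b0 k94 t94)))) (.br _ _ _ (.br _ _ _ (.leaf b96 k95 t95) (.leaf b0 k96 t96)) (.br _ _ _ (.leaf b98 k97 t97) (.br _ _ _ (.leaf b99 k98 t98) (.leaf b0 k99 t99))))) (.br _ _ _ (.br _ _ _ (.br _ _ _ (.leaf b101 k100 t100) (.leaf b102 k101 t101)) (.br _ _ _ (.leaf b103 k102 t102) (.br _ _ _ (.leaf b104 k103 t103) (.leaf b0 k104 t104)))) (.br _ _ _ (.br _ _ _ (.leaf b106 k105 t105) (.br _ _ _ (.leaf b107 k106 t106) (.leaf b108 k107 t107))) (.br _ _ _ (.leaf b109 k108 t108) (.br _ _ _ (.leaf b110 k109 t109) (.leaf b0 k110 t110)))))) w5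
noncomputable def k111 : KT := (.br (Nat.shiftLeft (nat_lit 0x401001802405) (nat_lit 66)) (.br (Nat.shiftLeft (nat_lit 0x2003005007) (nat_lit 65)) (.br (Nat.shiftLeft (nat_lit 0x2003005) (nat_lit 77)) (.br (Nat.shiftLeft (nat_lit 0x1001802405) (nat_lit 66)) (.one (nat_lit 0x4006009013000800c012027500)) (.one (nat_lit 0x4006009014000800c012029500))) (.br (Nat.shiftLeft (nat_lit 0x400600a00d) (nat_lit 64)) (.one (nat_lit 0x400600a00c000800c014019500)) (.one (nat_lit 0x400600a00d000800c01401b500)))) (.br (Nat.shiftLeft (nat_lit 0x400600a01) (nat_lit 68)) (.br (Nat.shiftLeft (nat_lit 0x400600a00f) (nat_lit 64)) (.one (nat_lit 0x400600a00e000800c01401d500)) (.one (nat_lit 0x400600a00f000800c01401f500))) (.br (Nat.shiftLeft (nat_lit 0x1) (nat_lit 112)) (.one (nat_lit 0x400600a010000800c014021500)) (.one (nat_lit 0x1004006009013200800c012027600))))) (.br (Nat.shiftLeft (nat_lit 0xc01001802405) (nat_lit 66)) (.br (Nat.shiftLeft (nat_lit 0x801001802405) (nat_lit 66)) (.br (Nat.shiftLeft (nat_lit 0x1) (nat_lit 113)) (.one (nat_lit 0x1004006009014200800c012029600))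 (.one (nat_lit 0x2004006009013400800c012027600))) (.br (Nat.shiftLeft (nat_lit 0x3) (nat_lit 112)) (.one (nat_lit 0x2004006009014400800c012029600)) (.one (nat_lit 0x3004006009013600800c012027600)))) (.br (Nat.shiftLeft (nat_lit 0x400001001802405) (nat_lit 66)) (.br (Nat.shiftLeft (nat_lit 0x1) (nat_lit 124)) (.one (nat_lit 0x3004006009014600800c012029600)) (.one (nat_lit 0x1000004006009013000800c032426511))) (.br (Nat.shiftLeft (nat_lit 0x801) (nat_lit 113)) (.one (nat_lit 0x1000004006009014000800c032428511)) (.br (Nat.shiftLeft (nat_lit 0x400801001802405) (nat_lit 66)) (.one (nat_lit 0x1002004006009013400800c032427700)) (.one (nat_lit 0x1002004006009014400800c032428760)))))))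
def t111 : k111.all (jb2 57 fl b0) = true := by decide +kernel
noncomputable def k112 : KT := (.br (Nat.shiftLeft (nat_lit 0x1) (nat_lit 125)) (.br (Nat.shiftLeft (nat_lit 0x400c01001802405) (nat_lit 66)) (.one (nat_lit 0x1003004006009013600800c032427700)) (.one (nat_lit 0x1003004006009014600800c032428760))) (.br (Nat.shiftLeft (nat_lit 0x800001001802405) (nat_lit 66)) (.one (nat_lit 0x2000004006009013000800c052826511)) (.br (Nat.shiftLeft (nat_lit 0x1001) (nat_lit 113)) (.one (nat_lit 0x2000004006009014000800c052828511)) (.one (nat_lit 0x2003004006009013600800c052827700)))))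
def t112 : k112.all (jb2 57 fl b0) = true := by decide +kernel
noncomputable def k113 : KT := (.br (Nat.shiftLeft (nat_lit 0xc00001001802405) (nat_lit 66)) (.br (Nat.shiftLeft (nat_lit 0x3) (nat_lit 124)) (.one (nat_lit 0x2003004006009014600800c052828760)) (.one (nat_lit 0x3000004006009013000800c072c26511))) (.br (Nat.shiftLeft (nat_lit 0x1) (nat_lit 126)) (.one (nat_lit 0x3000004006009014000800c072c28511)) (.br (Nat.shiftLeft (nat_lit 0x1000001001802405) (nat_lit 66)) (.one (nat_lit 0x4000004006009013000800c093026511)) (.one (nat_lit 0x4000004006009014000800c093028511)))))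
def t113 : k113.all (jb2 57 fl b0) = true := by decide +kernel
noncomputable def k114 : KT := (.br (Nat.shiftLeft (nat_lit 0x1400001001802405) (nat_lit 66)) (.one (nat_lit 0x5000004006009013000800c0b3426511)) (.br (Nat.shiftLeft (nat_lit 0x3) (nat_lit 125)) (.one (nat_lit 0x5000004006009014000800c0b3428511)) (.one (nat_lit 0x6000004006009013000800c0d3826511))))
def t114 : k114.all (jb2 57 fl b0) = true := by decide +kernel
noncomputable def k115 : KT := (.br (Nat.shiftLeft (nat_lit 0x7) (nat_lit 124)) (.one (nat_lit 0x6000004006009014000800c0d3828511)) (.one (nat_lit 0x7000004006009013000800c0f3c26511)))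
def t115 : k115.all (jb2 57 fl b0) = true := by decide +kernel
noncomputable def k116 : KT := (.br (Nat.shiftLeft (nat_lit 0x1) (nat_lit 127)) (.one (nat_lit 0x7000004006009014000800c0f3c28511)) (.one (nat_lit 0x8000004006009013000800c114026511)))
def t116 : k116.all (jb2 57 fl b0) = true := by decide +kernel
noncomputable def k117 : KT := (.br (Nat.shiftLeft (nat_lit 0x400000401001802405) (nat_lit 66)) (.br (Nat.shiftLeft (nat_lit 0x2400001001802405) (nat_lit 66)) (.br (Nat.shiftLeft (nat_lit 0x9) (nat_lit 124)) (.one (nat_lit 0x8000004006009014000800c114028511)) (.one (nat_lit 0x9000004006009013000800c134426511))) (.br (Nat.shiftLeft (nat_lit 0x1) (nat_lit 136)) (.one (nat_lit 0x9000004006009014000800c134428511)) (.one (nat_lit 0x1000001004006009013200802c412026611)))) (.br (Nat.shiftLeft (nat_lit 0x400000801001802405) (nat_lit 66)) (.br (Nat.shiftLeft (nat_lit 0x800001) (nat_lit 113)) (.one (nat_lit 0x1000001004006009014200802c412028611)) (.one (nat_lit 0x1000002004006009013400802c412026611))) (.br (Nat.shiftLeft (nat_lit 0x1000003) (nat_lit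 112)) (.one (nat_lit 0x1000002004006009014400802c412028611)) (.br (Nat.shiftLeft (nat_lit 0x400000c01001802405) (nat_lit 66)) (.one (nat_lit 0x1000003004006009013600802c412026611)) (.one (nat_lit 0x1000003004006009014600802c412028611))))))
def t117 : k117.all (jb2 57 fl b0) = true := by decide +kernel
noncomputable def k118 : KT := (.br (Nat.shiftLeft (nat_lit 0xc00000401001802405) (nat_lit 66)) (.br (Nat.shiftLeft (nat_lit 0x800000801001802405) (nat_lit 66)) (.br (Nat.shiftLeft (nat_lit 0x800000401001802405) (nat_lit 66)) (.br (Nat.shiftLeft (nat_lit 0x1) (nat_lit 137)) (.one (nat_lit 0x1002003004006009013600802c452826870)) (.one (nat_lit 0x2000001004006009013200804c812026611))) (.br (Nat.shiftLeft (nat_lit 0x1000001) (nat_lit 113)) (.one (nat_lit 0x2000001004006009014200804c812028611)) (.one (nat_lit 0x2000002004006009013400804c812026611)))) (.br (Nat.shiftLeft (nat_lit 0x800000c01001802405) (nat_lit 66)) (.br (Nat.shiftLeft (nat_lit 0x2000003) (nat_lit 112)) (.one (nat_lit 0x2000002004006009014400804c812028611)) (.one (nat_lit 0x2000003004006009013600804c812026611)))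 (.br (Nat.shiftLeft (nat_lit 0x3) (nat_lit 136)) (.one (nat_lit 0x2000003004006009014600804c812028611)) (.one (nat_lit 0x3000001004006009013200806cc12026611))))) (.br (Nat.shiftLeft (nat_lit 0xc00000c01001802405) (nat_lit 66)) (.br (Nat.shiftLeft (nat_lit 0xc00000801001802405) (nat_lit 66)) (.br (Nat.shiftLeft (nat_lit 0x1800001) (nat_lit 113)) (.one (nat_lit 0x3000001004006009014200806cc12028611)) (.one (nat_lit 0x3000002004006009013400806cc12026611))) (.br (Nat.shiftLeft (nat_lit 0x3000003) (nat_lit 112)) (.one (nat_lit 0x3000002004006009014400806cc12028611)) (.one (nat_lit 0x3000003004006009013600806cc12026611)))) (.br (Nat.shiftLeft (nat_lit 0x1000000401001802405) (nat_lit 66)) (.br (Nat.shiftLeft (nat_lit 0x1) (nat_lit 138)) (.one (nat_lit 0x3000003004006009014600806cc12028611)) (.one (nat_lit 0x4000001004006009013200808d012026611))) (.br (Nat.shiftLeft (nat_lit 0x2000001) (nat_lit 113)) (.one (nat_lit 0x4000001004006009014200808d012028611)) (.one (nat_lit 0x4000002004006009013400808d012026611))))))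
def t118 : k118.all (jb2 57 fl b0) = true := by decide +kernel
noncomputable def k119 : KT := (.br (Nat.shiftLeft (nat_lit 0x1000000c01001802405) (nat_lit 66)) (.br (Nat.shiftLeft (nat_lit 0x4000003) (nat_lit 112)) (.one (nat_lit 0x4000002004006009014400808d012028611)) (.one (nat_lit 0x4000003004006009013600808d012026611))) (.br (Nat.shiftLeft (nat_lit 0x5) (nat_lit 136)) (.one (nat_lit 0x4000003004006009014600808d012028611)) (.br (Nat.shiftLeft (nat_lit 0x1400000401001802405) (nat_lit 66)) (.one (nat_lit 0x500000100400600901320080ad412026611)) (.one (nat_lit 0x500000100400600901420080ad412028611)))))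
def t119 : k119.all (jb2 57 fl b0) = true := by decide +kernel
noncomputable def k120 : KT := (.br (Nat.shiftLeft (nat_lit 0x1400000801001802405) (nat_lit 66)) (.one (nat_lit 0x500000200400600901340080ad412026611)) (.br (Nat.shiftLeft (nat_lit 0x5000003) (nat_lit 112)) (.one (nat_lit 0x500000200400600901440080ad412028611)) (.one (nat_lit 0x500000300400600901360080ad412026611))))
def t120 : k120.all (jb2 57 fl b0) = true := by decide +kernel
noncomputable def k121 : KT := (.br (Nat.shiftLeft (nat_lit 0x3) (nat_lit 137)) (.one (nat_lit 0x500000300400600901460080ad412028611)) (.one (nat_lit 0x600000100400600901320080cd812026611)))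
def t121 : k121.all (jb2 57 fl b0) = true := by decide +kernel
noncomputable def k122 : KT := (.br (Nat.shiftLeft (nat_lit 0x3000001) (nat_lit 113)) (.one (nat_lit 0x600000100400600901420080cd812028611)) (.one (nat_lit 0x600000200400600901340080cd812026611)))
def t122 : k122.all (jb2 57 fl b0) = true := by decide +kernel
noncomputable def k123 : KT := (.br (Nat.shiftLeft (nat_lit 0x6000003) (nat_lit 112)) (.one (nat_lit 0x600000200400600901440080cd812028611)) (.br (Nat.shiftLeft (nat_lit 0x1800000c01001802405) (nat_lit 66)) (.one (nat_lit 0x600000300400600901360080cd812026611)) (.one (nat_lit 0x600000300400600901460080cd812028611))))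
def t123 : k123.all (jb2 57 fl b0) = true := by decide +kernel
noncomputable def k124 : KT := (.br (Nat.shiftLeft (nat_lit 0x1c00000401001802405) (nat_lit 66)) (.one (nat_lit 0x700000100400600901320080edc12026611)) (.one (nat_lit 0x700000100400600901420080edc12028611)))
def t124 : k124.all (jb2 57 fl b0) = true := by decide +kernel
noncomputable def k125 : KT := (.br (Nat.shiftLeft (nat_lit 0x1c00000801001802405) (nat_lit 66)) (.one (nat_lit 0x700000200400600901340080edc12026611)) (.br (Nat.shiftLeft (nat_lit 0x7000003) (nat_lit 112)) (.one (nat_lit 0x700000200400600901440080edc12028611)) (.one (nat_lit 0x700000300400600901360080edc12026611))))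
def t125 : k125.all (jb2 57 fl b0) = true := by decide +kernel
noncomputable def k126 : KT := (.br (Nat.shiftLeft (nat_lit 0x1) (nat_lit 139)) (.one (nat_lit 0x700000300400600901460080edc12028611)) (.br (Nat.shiftLeft (nat_lit 0x2000000401001802405) (nat_lit 66)) (.one (nat_lit 0x8000001004006009013200810e012026611)) (.one (nat_lit 0x8000001004006009014200810e012028611))))
def t126 : k126.all (jb2 57 fl b0) = true := by decide +kernel
noncomputable def k127 : KT := (.br (Nat.shiftLeft (nat_lit 0x8000003) (nat_lit 112)) (.br (Nat.shiftLeft (nat_lit 0x2000000801001802405) (nat_lit 66)) (.one (nat_lit 0x8000002004006009013400810e012026611)) (.one (nat_lit 0x8000002004006009014400810e012028611))) (.br (Nat.shiftLeft (nat_lit 0x2000000c01001802405) (nat_lit 66)) (.one (nat_lit 0x8000003004006009013600810e012026611)) (.one (nat_lit 0x8000003004006009014600810e012028611))))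
def t127 : k127.all (jb2 57 fl b0) = true := by decide +kernel
noncomputable def k128 : KT := (.br (Nat.shiftLeft (nat_lit 0x2400000c01001802405) (nat_lit 66)) (.br (Nat.shiftLeft (nat_lit 0x4800001) (nat_lit 113)) (.br (Nat.shiftLeft (nat_lit 0x2400000401001802405) (nat_lit 66)) (.one (nat_lit 0x9000001004006009013200812e412026611)) (.one (nat_lit 0x9000001004006009014200812e412028611))) (.br (Nat.shiftLeft (nat_lit 0x2400000801001802405) (nat_lit 66)) (.one (nat_lit 0x9000002004006009013400812e412026611)) (.br (Nat.shiftLeft (nat_lit 0x9000003) (nat_lit 112)) (.one (nat_lit 0x9000002004006009014400812e412028611)) (.one (nat_lit 0x9000003004006009013600812e412026611))))) (.br (Nat.shiftLeft (nat_lit 0x1000001003) (nat_lit 112)) (.br (Nat.shiftLeft (nat_lit 0x1) (nat_lit 148)) (.one (nat_lit 0x9000003004006009014600812e412028611)) (.one (nat_lit 0x1000001002004006009013402840c032426711))) (.br (Nat.shiftLeft (nat_lit 0x800001) (nat_lit 125)) (.one (nat_lit 0x1000001003004006009013602840c032426711)) (.br (Nat.shiftLeft (nat_lit 0x1) (nat_lit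 149)) (.one (nat_lit 0x1000002003004006009013602840c052826711)) (.one (nat_lit 0x2000001002004006009013404880c032426711))))))
def t128 : k128.all (jb2 57 fl b0) = true := by decide +kernel
noncomputable def k129 : KT := (.br (Nat.shiftLeft (nat_lit 0x1) (nat_lit 150)) (.br (Nat.shiftLeft (nat_lit 0x3) (nat_lit 148)) (.br (Nat.shiftLeft (nat_lit 0x1000001) (nat_lit 125)) (.one (nat_lit 0x2000001003004006009013604880c032426711)) (.one (nat_lit 0x2000002003004006009013604880c052826711))) (.br (Nat.shiftLeft (nat_lit 0x3000001003) (nat_lit 112)) (.one (nat_lit 0x30000010020040060090134068c0c032426711)) (.br (Nat.shiftLeft (nat_lit 0x1800001) (nat_lit 125)) (.one (nat_lit 0x30000010030040060090136068c0c032426711)) (.one (nat_lit 0x30000020030040060090136068c0c052826711))))) (.br (Nat.shiftLeft (nat_lit 0x2000001) (nat_lit 125)) (.br (Nat.shiftLeft (nat_lit 0x4000001003) (nat_lit 112)) (.one (nat_lit 0x4000001002004006009013408900c032426711)) (.one (nat_lit 0x4000001003004006009013608900c032426711))) (.br (Nat.shiftLeft (nat_lit 0x5) (nat_lit 148))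 (.one (nat_lit 0x4000002003004006009013608900c052826711)) (.br (Nat.shiftLeft (nat_lit 0x5000001003) (nat_lit 112)) (.one (nat_lit 0x500000100200400600901340a940c032426711)) (.one (nat_lit 0x500000100300400600901360a940c032426711))))))
def t129 : k129.all (jb2 57 fl b0) = true := by decide +kernel
noncomputable def k130 : KT := (.br (Nat.shiftLeft (nat_lit 0x6000001003) (nat_lit 112)) (.br (Nat.shiftLeft (nat_lit 0x3) (nat_lit 149)) (.one (nat_lit 0x500000200300400600901360a940c052826711)) (.one (nat_lit 0x600000100200400600901340c980c032426711))) (.br (Nat.shiftLeft (nat_lit 0x3000001) (nat_lit 125)) (.one (nat_lit 0x600000100300400600901360c980c032426711)) (.one (nat_lit 0x600000200300400600901360c980c052826711))))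
def t130 : k130.all (jb2 57 fl b0) = true := by decide +kernel
noncomputable def k131 : KT := (.br (Nat.shiftLeft (nat_lit 0x1) (nat_lit 151)) (.br (Nat.shiftLeft (nat_lit 0x7000001003) (nat_lit 112)) (.one (nat_lit 0x700000100200400600901340e9c0c032426711)) (.br (Nat.shiftLeft (nat_lit 0x3800001) (nat_lit 125)) (.one (nat_lit 0x700000100300400600901360e9c0c032426711)) (.one (nat_lit 0x700000200300400600901360e9c0c052826711)))) (.br (Nat.shiftLeft (nat_lit 0x8000001003) (nat_lit 112)) (.one (nat_lit 0x8000001002004006009013410a00c032426711)) (.br (Nat.shiftLeft (nat_lit 0x4000001) (nat_lit 125)) (.one (nat_lit 0x8000001003004006009013610a00c032426711)) (.one (nat_lit 0x8000002003004006009013610a00c052826711)))))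
def t131 : k131.all (jb2 57 fl b0) = true := by decide +kernel
noncomputable def k132 : KT := (.br (Nat.shiftLeft (nat_lit 0x9000001003) (nat_lit 112)) (.one (nat_lit 0x9000001002004006009013412a40c032426711)) (.br (Nat.shiftLeft (nat_lit 0x4800001) (nat_lit 125)) (.one (nat_lit 0x9000001003004006009013612a40c032426711)) (.one (nat_lit 0x9000002003004006009013612a40c052826711))))
def t132 : k132.all (jb2 57 fl b0) = true := by decide +kernel
noncomputable def s6 : KT := (.br (nat_lit 0x600000100400600901320080cd812026611) (.br (nat_lit 0x7000004006009013000800c0f3c26511) (.br (nat_lit 0x2003004006009013600800c052827700) (.br (nat_lit 0x1002004006009014400800c032428760) k111 k112) (.br (nat_lit 0x4000004006009014000800c093028511) k113 (.br (nat_lit 0x6000004006009013000800c0d3826511) k114 k115))) (.br (nat_lit 0x4000002004006009013400808d012026611) (.br (nat_lit 0x8000004006009013000800c114026511) k116 (.br (nat_lit 0x1000003004006009014600802c412028611) k117 k118)) (.br (nat_lit 0x500000100400600901420080ad412028611) k119 (.br (nat_lit 0x500000300400600901360080ad412026611)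 k120 k121)))) (.br (nat_lit 0x8000001004006009014200810e012028611) (.br (nat_lit 0x600000300400600901460080cd812028611) (.br (nat_lit 0x600000200400600901340080cd812026611) k122 k123) (.br (nat_lit 0x700000100400600901420080edc12028611) k124 (.br (nat_lit 0x700000300400600901360080edc12026611) k125 k126))) (.br (nat_lit 0x500000100300400600901360a940c032426711) (.br (nat_lit 0x8000003004006009014600810e012028611) k127 (.br (nat_lit 0x2000001002004006009013404880c032426711) k128 k129)) (.br (nat_lit 0x600000200300400600901360c980c052826711) k130 (.br (nat_lit 0x8000002003004006009013610a00c052826711) k131 k132)))))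
noncomputable def u6 : KT := (.br (Nat.shiftLeft (nat_lit 0x400600a00d) (nat_lit 64)) (.br (Nat.shiftLeft (nat_lit 0x1001802405) (nat_lit 66)) (.one (nat_lit 0x4006009013000800c012026540)) (.br (Nat.shiftLeft (nat_lit 0x2003005) (nat_lit 77)) (.one (nat_lit 0x4006009014000800c012028540)) (.one (nat_lit 0x400600a00c000800c014019500)))) (.br (Nat.shiftLeft (nat_lit 0x400600a00f) (nat_lit 64)) (.br (Nat.shiftLeft (nat_lit 0x2003005007) (nat_lit 65)) (.one (nat_lit 0x400600a00d000800c01401b500)) (.one (nat_lit 0x400600a00e000800c01401d500))) (.br (Nat.shiftLeft (nat_lit 0x400600a01) (nat_lit 68)) (.one (nat_lit 0x400600a00f000800c01401f500)) (.one (nat_lit 0x400600a010000800c014021500)))))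
def w6 : u6.all (wj 57 s6) = true := by decide +kernel
def o6 : OkW 57 (jb2 57 fl) u6 := .lift s6 _ (.br _ _ _ (.br _ _ _ (.br _ _ _ (.br _ _ _ (.leaf b0 k111 t111) (.leaf b0 k112 t112)) (.br _ _ _ (.leaf b0 k113 t113) (.br _ _ _ (.leaf b0 k114 t114) (.leaf b0 k115 t115)))) (.br _ _ _ (.br _ _ _ (.leaf b0 k116 t116) (.br _ _ _ (.leaf b0 k117 t117) (.leaf b0 k118 t118))) (.br _ _ _ (.leaf b0 k119 t119) (.br _ _ _ (.leaf b0 k120 t120) (.leaf b0 k121 t121))))) (.br _ _ _ (.br _ _ _ (.br _ _ _ (.leaf b0 k122 t122) (.leaf b0 k123 t123)) (.br _ _ _ (.leaf b0 k124 t124) (.br _ _ _ (.leaf b0 k125 t125) (.leaf b0 k126 t126)))) (.br _ _ _ (.br _ _ _ (.leaf b0 k127 t127) (.br _ _ _ (.leaf b0 k128 t128) (.leaf b0 k129 t129))) (.br _ _ _ (.leaf b0 k130 t130) (.br _ _ _ (.leaf b0 k131 t131) (.leaf b0 k132 t132)))))) w6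
noncomputable def k133 : KT := (.br (Nat.shiftLeft (nat_lit 0x1003) (nat_lit 112)) (.br (Nat.shiftLeft (nat_lit 0x3) (nat_lit 112)) (.br (Nat.shiftLeft (nat_lit 0x1) (nat_lit 112)) (.one (nat_lit 0x400600a011000800c014023500)) (.br (Nat.shiftLeft (nat_lit 0x1) (nat_lit 113)) (.one (nat_lit 0x100400600a011200800c014023600)) (.one (nat_lit 0x200400600a011400800c014023600)))) (.br (Nat.shiftLeft (nat_lit 0x1) (nat_lit 124)) (.one (nat_lit 0x300400600a011600800c014023600)) (.br (Nat.shiftLeft (nat_lit 0x801) (nat_lit 113)) (.one (nat_lit 0x100000400600a011000800c034422511)) (.one (nat_lit 0x100200400600a011400800c034423700))))) (.br (Nat.shiftLeft (nat_lit 0x3) (nat_lit 124)) (.br (Nat.shiftLeft (nat_lit 0x1) (nat_lit 125)) (.one (nat_lit 0x100300400600a011600800c034423700)) (.br (Nat.shiftLeft (nat_lit 0x1001) (nat_lit 113)) (.one (nat_lit 0x200000400600a011000800c054822511)) (.one (nat_lit 0x200300400600a011600800c054823700)))) (.br (Nat.shiftLeft (nat_lit 0x5) (nat_lit 124)) (.br (Nat.shiftLeft (nat_lit 0x1) (nat_lit 126)) (.one (nat_lit 0x300000400600a011000800c074c22511))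 (.one (nat_lit 0x400000400600a011000800c095022511))) (.br (Nat.shiftLeft (nat_lit 0x3) (nat_lit 125)) (.one (nat_lit 0x500000400600a011000800c0b5422511)) (.one (nat_lit 0x600000400600a011000800c0d5822511))))))
noncomputable def b134 : BT := .node (nat_lit 0x1) (nat_lit 0x4b1950c973231919150c003317000cb60003a980006e642000e300028) .leaf .leaf
def t133 : k133.all (jb2 57 fl b134) = true := by decide +kernel
noncomputable def k134 : KT := (.one (nat_lit 0x700000400600a011000800c0f5c22511))
noncomputable def b135 : BT := .node (nat_lit 0x11) (nat_lit 0x4b224d8a2a001d2d00056ae0ed9a4d926c001d4c00065b00d424b224d800421a000ca681002870028700287002870028700227001c70016800168001680016800168001680016800168001680016800168) .leaf .leaf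
def t134 : k134.all (jb2 57 fl b135) = true := by decide +kernel
noncomputable def k135 : KT := (.one (nat_lit 0x800000400600a011000800c116022511))
noncomputable def b136 : BT := .node (nat_lit 0x11) (nat_lit 0x1b64db349b80065b000194e83b664be274800753000118f032c893749ba58d2c84e99189450a88001d4c00065b0001d4c80055ba001d2c80037341d1549c13a126e93725f800843400158c80065b0001950052c64be26036cc9804e9289b6d0a86936274a4dc00ba98000aa90013a5f0048c7400c9da0028e5c00b2db000cb604005690056900509004a9004a900393002d90016800168001680016800168001680016800168001680016800168) .leaf .leaf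
def t135 : k135.all (jb2 57 fl b136) = true := by decide +kernel
noncomputable def k136 : KT := (.one (nat_lit 0x900000400600a011000800c136422511))
noncomputable def b137 : BT := .node (nat_lit 0x35) (nat_lit 0x24e09d29374c892fca2a00196c80065b0001cf20005634149c12f897c00196c80065b00ed9a4e09d096328a1451b669384b2258db68963000ea64022add006cb6401b2d900aea6002ab19010ea6401b2d812645b685154b19450980db36d9a58c013a5a004ad5c0032d9002c99000ba98000cb603db32749454003a5b0008d6c193725f13a4003a98000ac68193749c92fdb664e92a1b6cc97e4e849b93a49d200196d001653e009d0f0024732005d4c80055ba00596c80165b226d9b6cca2a93627494500032d8000ac68003a98000cb64293727412fc0032d9000ca80196349b950c0041dc000ad601db34b2150926a4be27480084340011cb800753000196d052c65152a136c897c93849c24dc97c00dd2d80356ae00196c802653a00d96c00165b01c9c13989cc00196c00065b00ed9a5912c85426da13a40032d9000cb6000421a000ab74200e7200e7200e7200e7200e7200e7200e7200db700db700d5700be600ad000ad000ad000a7000a7000a7000a7000a7000a7000a100089f0089f0089f0089f007e4007e4007e4007e4007e4007e400784007840078400784007240072400724006690066900669006690066900669006690066900669006690066900553004f3004f3004f300438)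 .leaf .leaf
def t136 : k136.all (jb2 57 fl b137) = true := by decide +kernel
noncomputable def k137 : KT := (.br (Nat.shiftLeft (nat_lit 0x800001) (nat_lit 113)) (.br (Nat.shiftLeft (nat_lit 0x1) (nat_lit 136)) (.one (nat_lit 0xa00000400600a011000800c156822511)) (.one (nat_lit 0x100000100400600a011200802c414022611))) (.br (Nat.shiftLeft (nat_lit 0x1000003) (nat_lit 112)) (.one (nat_lit 0x100000200400600a011400802c414022611)) (.one (nat_lit 0x100000300400600a011600802c414022611))))
noncomputable def b138 : BT := .node (nat_lit 0x19) (nat_lit 0x6d913a4a2a001d4c00046b60c9c12f897edb349ca5909d04c025f36cd2709644b1a5909d2009d4c00265b200dd4c8055632009d3000065b0011d2e8025634001d4c80055bc2cb1a4e497e54227493012c64e949c80274bc009570001743c00195000165b200194f072c893825f9509272514000e974002adf001077c0032d80b6c9b689630010964002b180658c97e93928993a49d2db26d992fc00329f000ca78003a98000cb640032d8000ab7c3db325f13a4003a98000ab781007db007db007db007db007db0077b0077b0077b005af00499004990049900499003de0037e0037e0037e0037e0026800268002680026800268002080020800208) .leaf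 .leaf
def t137 : k137.all (jb2 57 fl b138) = true := by decide +kernel
noncomputable def k138 : KT := (.br (Nat.shiftLeft (nat_lit 0x3) (nat_lit 136)) (.br (Nat.shiftLeft (nat_lit 0x1000001) (nat_lit 113)) (.br (Nat.shiftLeft (nat_lit 0x1) (nat_lit 137)) (.one (nat_lit 0x100200300400600a011600802c454822870)) (.one (nat_lit 0x200000100400600a011200804c814022611))) (.br (Nat.shiftLeft (nat_lit 0x2000003) (nat_lit 112)) (.one (nat_lit 0x200000200400600a011400804c814022611)) (.one (nat_lit 0x200000300400600a011600804c814022611)))) (.br (Nat.shiftLeft (nat_lit 0x3000003) (nat_lit 112)) (.br (Nat.shiftLeft (nat_lit 0x1800001) (nat_lit 113)) (.one (nat_lit 0x300000100400600a011200806cc14022611)) (.one (nat_lit 0x300000200400600a011400806cc14022611))) (.br (Nat.shiftLeft (nat_lit 0x1) (nat_lit 138)) (.one (nat_lit 0x300000300400600a011600806cc14022611)) (.one (nat_lit 0x400000100400600a011200808d014022611)))))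
def t138 : k138.all (jb2 57 fl b0) = true := by decide +kernel
noncomputable def k139 : KT := (.br (Nat.shiftLeft (nat_lit 0x4000003) (nat_lit 112)) (.one (nat_lit 0x400000200400600a011400808d014022611)) (.br (Nat.shiftLeft (nat_lit 0x5) (nat_lit 136)) (.one (nat_lit 0x400000300400600a011600808d014022611)) (.one (nat_lit 0x500000100400600a01120080ad414022611))))
noncomputable def b140 : BT := .node (nat_lit 0x1) (nat_lit 0xde128b1454003a980008c6c10008800028) .leaf .leaf
def t139 : k139.all (jb2 57 fl b140) = true := by decide +kernel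
noncomputable def k140 : KT := (.br (Nat.shiftLeft (nat_lit 0x5000003) (nat_lit 112)) (.one (nat_lit 0x500000200400600a01140080ad414022611)) (.one (nat_lit 0x500000300400600a01160080ad414022611)))
def t140 : k140.all (jb2 57 fl b0) = true := by decide +kernel
noncomputable def k141 : KT := (.one (nat_lit 0x600000100400600a01120080cd814022611))
noncomputable def b142 : BT := .node (nat_lit 0x1) (nat_lit 0x49a93a4a2adb325c93a4003a98000ad5c0032d8000ab742000e300028) .leaf .leaf
def t141 : k141.all (jb2 57 fl b142) = true := by decide +kernel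
noncomputable def k142 : KT := (.one (nat_lit 0x600000200400600a01140080cd814022611))
noncomputable def b143 : BT := .node (nat_lit 0x17) (nat_lit 0xde14b195c8003299000ae581918945132400198b80046b00cb1a4d52c72316d99300003a59000cb600032990008b942de1274a4d80032db000aa701003bc003bc003bc003bc003bc0035c0035c0035c0035c002fb002fb002fb002fb002fb002fb002fb002fb002fb002fb0024000240001e0001e0001e0) .leaf .leaf
def t142 : k142.all (jb2 57 fl b143) = true := by decide +kernel
noncomputable def k143 : KT := (.one (nat_lit 0x600000300400600a01160080cd814022611))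
def t143 : k143.all (jb2 57 fl b0) = true := by decide +kernel
noncomputable def k144 : KT := (.one (nat_lit 0x700000100400600a01120080edc14022611))
noncomputable def b145 : BT := .node (nat_lit 0xb) (nat_lit 0x1b6693628ab785b68936002ca6c00ab57004ca6800329a0a4d89d24e949b1304a2a93649b1300013a98002ac6c00ba23002ad5c003a98002ab843de1274a59000329d000ab68196426024d80032a1000ca6c100381003810038100381002c6002c6001b0001b00015000150000f0000f0) .leaf .leaf
def t144 : k144.all (jb2 57 fl b145) = true := by decide +kernel
noncomputable def k145 : KT := (.br (Nat.shiftLeft (nat_lit 0x7000003) (nat_lit 112)) (.one (nat_lit 0x700000200400600a01140080edc14022611)) (.one (nat_lit 0x700000300400600a01160080edc14022611)))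
noncomputable def b146 : BT := .node (nat_lit 0xb) (nat_lit 0xde128aa58c003318000ab6419632601459bc24e92b9000744400158d00073be0011cc05b644be49bc8c4a86db3000cb68002adc000ad60002ad90b6c926e992918950d2c696325fa4d8003a1c000ad5c0033560008c640032a1000ca6c3003dc003dc0037c0037c002c1002c1002c1002c10020600206000f0000f0) .leaf .leaf
def t145 : k145.all (jb2 57 fl b146) = true := by decide +kernel
noncomputable def k146 : KT := (.one (nat_lit 0x800000100400600a011200810e014022611))
noncomputable def b147 : BT := .node (nat_lit 0xb) (nat_lit 0xa8693725f80083b800157003231274b6cdb645434b200055bc00156c800662e00158c8526c4bf27500074bc00158e832c693749bb6cdb68937274130097c9362749458003a98000cb60003a99000ab6c003a5f000cb64003a5b000ad604003dc003dc003dc003dc0037d0037d0037d002c1002c10026100261000f0) .leaf .leaf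
def t146 : k146.all (jb2 57 fl b147) = true := by decide +kernel
noncomputable def k147 : KT := (.br (Nat.shiftLeft (nat_lit 0x8000003) (nat_lit 112)) (.one (nat_lit 0x800000200400600a011400810e014022611)) (.one (nat_lit 0x800000300400600a011600810e014022611)))
noncomputable def b148 : BT := .node (nat_lit 0xb) (nat_lit 0x378526e96349b24dc97c93727413a401329c004ca640132da000cb6401b2da006cb60393627424d80032da000cb6410026600266002660026600266002660026600266002660015000150000f0) .leaf .leaf
def t147 : k147.all (jb2 57 fl b148) = true := by decide +kernel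
noncomputable def k148 : KT := (.br (Nat.shiftLeft (nat_lit 0x4800001) (nat_lit 113)) (.one (nat_lit 0x900000100400600a011200812e414022611)) (.one (nat_lit 0x900000200400600a011400812e414022611)))
noncomputable def b149 : BT := .node (nat_lit 0x17) (nat_lit 0x36cc9d45424c8b6d0980001d0f800472e001d2d000554816d9a4dd26edb3273145400ba98000cb600132d8002ac6829626d9950c003a98000ad6019d09372748007530009d4c03b644c14c8a58db66938000c89c002b57000ea6000329d0b6cc98054327492fc97c001cf28004730001d2f00065b2149b13a497d23128aa58c0032dc000ca7c002b1a000ab642006460058b0058b0058b0058b004d0004d0004d0004d0004d00047000470004700041100411003560029b0029b0029b0029b0029b0029b0029b001e0) .leaf .leaf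
def t148 : k148.all (jb2 57 fl b149) = true := by decide +kernel
noncomputable def k149 : KT := (.br (Nat.shiftLeft (nat_lit 0x800001) (nat_lit 125)) (.br (Nat.shiftLeft (nat_lit 0xa000003) (nat_lit 112)) (.br (Nat.shiftLeft (nat_lit 0x5) (nat_lit 137)) (.one (nat_lit 0x900000300400600a011600812e414022611)) (.br (Nat.shiftLeft (nat_lit 0x5000001) (nat_lit 113)) (.one (nat_lit 0xa00000100400600a011200814e814022611)) (.one (nat_lit 0xa00000200400600a011400814e814022611)))) (.br (Nat.shiftLeft (nat_lit 0x1) (nat_lit 148)) (.one (nat_lit 0xa00000300400600a011600814e814022611)) (.br (Nat.shiftLeft (nat_lit 0x1000001003) (nat_lit 112)) (.one (nat_lit 0x100000100200400600a011402840c034422711)) (.one (nat_lit 0x100000100300400600a011602840c034422711))))) (.br (Nat.shiftLeft (nat_lit 0x1000001) (nat_lit 125)) (.br (Nat.shiftLeft (nat_lit 0x1) (nat_lit 149)) (.one (nat_lit 0x100000200300400600a011602840c054822711)) (.br (Nat.shiftLeft (nat_lit 0x2000001003) (nat_lit 112)) (.one (nat_lit 0x200000100200400600a011404880c034422711)) (.one (nat_lit 0x200000100300400600a011604880c034422711))))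 (.br (Nat.shiftLeft (nat_lit 0x3000001003) (nat_lit 112)) (.br (Nat.shiftLeft (nat_lit 0x3) (nat_lit 148)) (.one (nat_lit 0x200000200300400600a011604880c054822711)) (.one (nat_lit 0x300000100200400600a0114068c0c034422711))) (.br (Nat.shiftLeft (nat_lit 0x1800001) (nat_lit 125)) (.one (nat_lit 0x300000100300400600a0116068c0c034422711)) (.one (nat_lit 0x300000200300400600a0116068c0c054822711))))))
noncomputable def b150 : BT := .node (nat_lit 0x1) (nat_lit 0x6d9b6cc9d093949c12f80032d8000ac64003a98000ab782000e300028) .leaf .leaf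
def t149 : k149.all (jb2 57 fl b150) = true := by decide +kernel
noncomputable def k150 : KT := (.br (Nat.shiftLeft (nat_lit 0x2000001) (nat_lit 125)) (.br (Nat.shiftLeft (nat_lit 0x4000001003) (nat_lit 112)) (.one (nat_lit 0x400000100200400600a011408900c034422711)) (.one (nat_lit 0x400000100300400600a011608900c034422711))) (.br (Nat.shiftLeft (nat_lit 0x5) (nat_lit 148)) (.one (nat_lit 0x400000200300400600a011608900c054822711)) (.one (nat_lit 0x500000100200400600a01140a940c034422711))))
noncomputable def b151 : BT := .node (nat_lit 0x13) (nat_lit 0x3784a2a9354b192f926a00198c000553600196e000653216d9a4d0a2a00194c80056b00cc8b6cca2c001d2c80056340ef0b6cca2a00194c80056b00cc8a58d26a001d2c80065320c8c4a885a16f0945526b23128a9510003a1a000705c003356000aa6c003a590006e683004e200427003c7003c7003c700367003070030700307003070030700307002a7002a7001900019000190001900019000190) .leaf .leaf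
def t150 : k150.all (jb2 57 fl b151) = true := by decide +kernel
noncomputable def k151 : KT := (.br (Nat.shiftLeft (nat_lit 0x2800001) (nat_lit 125)) (.one (nat_lit 0x500000100300400600a01160a940c034422711)) (.one (nat_lit 0x500000200300400600a01160a940c054822711)))
noncomputable def b152 : BT := .node (nat_lit 0x17) (nat_lit 0x48c4b42992000ce54002358076c8a2a5a14c8950d324001d0d000482c00196c80065b016d913a8a2b23126024d4003a5c0008d68002ae3000aa6c2db22a2258c003318000ac60100417003b6003b6003b6003b6003b6003b6003b6003b6003b6003b6002fb002fb002fb002fb002400024000240001e0001e0001e0001e0001e0001e0) .leaf .leaf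
def t151 : k151.all (jb2 57 fl b152) = true := by decide +kernel
noncomputable def k152 : KT := (.br (Nat.shiftLeft (nat_lit 0x6000001003) (nat_lit 112)) (.one (nat_lit 0x600000100200400600a01140c980c034422711)) (.br (Nat.shiftLeft (nat_lit 0x3000001) (nat_lit 125)) (.one (nat_lit 0x600000100300400600a01160c980c034422711)) (.one (nat_lit 0x600000200300400600a01160c980c054822711))))
noncomputable def b153 : BT := .node (nat_lit 0xb) (nat_lit 0x258ca2a5439189300a88001d2c80056b0001cf2000373416d912e49d323126024d80032d8000ab780032a20008b7020026600266002660026600266001ab001ab001ab000f0000f0000f0000f0) .leaf .leaf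
def t152 : k152.all (jb2 57 fl b153) = true := by decide +kernel
noncomputable def k153 : KT := (.br (Nat.shiftLeft (nat_lit 0x7000001003) (nat_lit 112)) (.one (nat_lit 0x700000100200400600a01140e9c0c034422711)) (.br (Nat.shiftLeft (nat_lit 0x3800001) (nat_lit 125)) (.one (nat_lit 0x700000100300400600a01160e9c0c034422711)) (.one (nat_lit 0x700000200300400600a01160e9c0c054822711))))
noncomputable def b154 : BT := .node (nat_lit 0x1) (nat_lit 0x49aa4dc97d2316d993000132da000cb6800b2990028b942000e300028) .leaf .leaf
def t153 : k153.all (jb2 57 fl b154) = true := by decide +kernel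
noncomputable def k154 : KT := (.br (Nat.shiftLeft (nat_lit 0x4000001) (nat_lit 125)) (.br (Nat.shiftLeft (nat_lit 0x8000001003) (nat_lit 112)) (.one (nat_lit 0x800000100200400600a011410a00c034422711)) (.one (nat_lit 0x800000100300400600a011610a00c034422711))) (.br (Nat.shiftLeft (nat_lit 0x9) (nat_lit 148)) (.one (nat_lit 0x800000200300400600a011610a00c054822711)) (.br (Nat.shiftLeft (nat_lit 0x9000001003) (nat_lit 112)) (.one (nat_lit 0x900000100200400600a011412a40c034422711)) (.one (nat_lit 0x900000100300400600a011612a40c034422711)))))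
noncomputable def b155 : BT := .node (nat_lit 0x1) (nat_lit 0x6d924d89d0936274a4dc0032d8000ac680032db000cb642000e300028) .leaf .leaf
def t154 : k154.all (jb2 57 fl b155) = true := by decide +kernel
noncomputable def k155 : KT := (.br (Nat.shiftLeft (nat_lit 0xa000001003) (nat_lit 112)) (.br (Nat.shiftLeft (nat_lit 0x5) (nat_lit 149)) (.one (nat_lit 0x900000200300400600a011612a40c054822711)) (.one (nat_lit 0xa00000100200400600a011414a80c034422711))) (.br (Nat.shiftLeft (nat_lit 0x5000001) (nat_lit 125)) (.one (nat_lit 0xa00000100300400600a011614a80c034422711)) (.one (nat_lit 0xa00000200300400600a011614a80c054822711))))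
def t155 : k155.all (jb2 57 fl b0) = true := by decide +kernel
noncomputable def s7 : KT := (.br (nat_lit 0x600000300400600a01160080cd814022611) (.br (nat_lit 0x100000300400600a011600802c414022611) (.br (nat_lit 0x700000400600a011000800c0f5c22511) (.br (nat_lit 0x600000400600a011000800c0d5822511) k133 k134) (.br (nat_lit 0x800000400600a011000800c116022511) k135 (.br (nat_lit 0x900000400600a011000800c136422511) k136 k137))) (.br (nat_lit 0x500000300400600a01160080ad414022611) (.br (nat_lit 0x400000100400600a011200808d014022611) k138 (.br (nat_lit 0x500000100400600a01120080ad414022611) k139 k140)) (.br (nat_lit 0x600000100400600a01120080cd814022611) k141 (.br (nat_lit 0x600000200400600a01140080cd814022611) k142 k143)))) (.br (nat_lit 0x300000200300400600a0116068c0c054822711) (.br (nat_lit 0x800000100400600a011200810e014022611) (.br (nat_lit 0x700000100400600a01120080edc14022611) k144 (.br (nat_lit 0x700000300400600a01160080edc14022611) k145 k146)) (.br (nat_lit 0x800000300400600a011600810e014022611) k147 (.br (nat_lit 0x900000200400600a011400812e414022611)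 k148 k149))) (.br (nat_lit 0x600000200300400600a01160c980c054822711) (.br (nat_lit 0x500000100200400600a01140a940c034422711) k150 (.br (nat_lit 0x500000200300400600a01160a940c054822711) k151 k152)) (.br (nat_lit 0x700000200300400600a01160e9c0c054822711) k153 (.br (nat_lit 0x900000100300400600a011612a40c034422711) k154 k155)))))
noncomputable def u7 : KT := (.one (nat_lit 0x400600a011000800c014022540))
def w7 : u7.all (wj 57 s7) = true := by decide +kernel
def o7 : OkW 57 (jb2 57 fl) u7 := .lift s7 _ (.br _ _ _ (.br _ _ _ (.br _ _ _ (.br _ _ _ (.leaf b134 k133 t133) (.leaf b135 k134 t134)) (.br _ _ _ (.leaf b136 k135 t135) (.br _ _ _ (.leaf b137 k136 t136) (.leaf b138 k137 t137)))) (.br _ _ _ (.br _ _ _ (.leaf b0 k138 t138) (.br _ _ _ (.leaf b140 k139 t139) (.leaf b0 k140 t140))) (.br _ _ _ (.leaf b142 k141 t141) (.br _ _ _ (.leaf b143 k142 t142) (.leaf b0 k143 t143))))) (.br _ _ _ (.br _ _ _ (.br _ _ _ (.leaf b145 k144 t144) (.br _ _ _ (.leaf b146 k145 t145) (.leaf b147 k146 t146))) (.br _ _ _ (.leaf b148 k147 t147) (.br _ _ _ (.leaf b149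 k148 t148) (.leaf b150 k149 t149)))) (.br _ _ _ (.br _ _ _ (.leaf b151 k150 t150) (.br _ _ _ (.leaf b152 k151 t151) (.leaf b153 k152 t152))) (.br _ _ _ (.leaf b154 k153 t153) (.br _ _ _ (.leaf b155 k154 t154) (.leaf b0 k155 t155)))))) w7
noncomputable def k156 : KT := (.br (Nat.shiftLeft (nat_lit 0x1003) (nat_lit 112)) (.br (Nat.shiftLeft (nat_lit 0x3) (nat_lit 112)) (.br (Nat.shiftLeft (nat_lit 0x1) (nat_lit 112)) (.one (nat_lit 0x400600a012000800c014025500)) (.br (Nat.shiftLeft (nat_lit 0x1) (nat_lit 113)) (.one (nat_lit 0x100400600a012200800c014025600)) (.one (nat_lit 0x200400600a012400800c014025600)))) (.br (Nat.shiftLeft (nat_lit 0x1) (nat_lit 124)) (.one (nat_lit 0x300400600a012600800c014025600)) (.br (Nat.shiftLeft (nat_lit 0x801) (nat_lit 113)) (.one (nat_lit 0x100000400600a012000800c034424511)) (.one (nat_lit 0x100200400600a012400800c034425700))))) (.br (Nat.shiftLeft (nat_lit 0x3) (nat_lit 124)) (.br (Nat.shiftLeft (nat_lit 0x1) (nat_lit 125)) (.one (nat_lit 0x100300400600a012600800c034425700)) (.br (Nat.shiftLeft (nat_lit 0x1001)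 (nat_lit 113)) (.one (nat_lit 0x200000400600a012000800c054824511)) (.one (nat_lit 0x200300400600a012600800c054825700)))) (.br (Nat.shiftLeft (nat_lit 0x5) (nat_lit 124)) (.br (Nat.shiftLeft (nat_lit 0x1) (nat_lit 126)) (.one (nat_lit 0x300000400600a012000800c074c24511)) (.one (nat_lit 0x400000400600a012000800c095024511))) (.br (Nat.shiftLeft (nat_lit 0x3) (nat_lit 125)) (.one (nat_lit 0x500000400600a012000800c0b5424511)) (.one (nat_lit 0x600000400600a012000800c0d5824511))))))
def t156 : k156.all (jb2 57 fl b0) = true := by decide +kernel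
noncomputable def k157 : KT := (.br (Nat.shiftLeft (nat_lit 0x1) (nat_lit 127)) (.one (nat_lit 0x700000400600a012000800c0f5c24511)) (.one (nat_lit 0x800000400600a012000800c116024511)))
noncomputable def b158 : BT := .node (nat_lit 0x1) (nat_lit 0x54227493a0003a1e000cb6410008700028) .leaf .leaf
def t157 : k157.all (jb2 57 fl b158) = true := by decide +kernel
noncomputable def k158 : KT := (.br (Nat.shiftLeft (nat_lit 0x1) (nat_lit 136)) (.br (Nat.shiftLeft (nat_lit 0x5) (nat_lit 125)) (.one (nat_lit 0x900000400600a012000800c136424511)) (.one (nat_lit 0xa00000400600a012000800c156824511))) (.br (Nat.shiftLeft (nat_lit 0x800001) (nat_lit 113)) (.one (nat_lit 0x100000100400600a012200802c414024611)) (.br (Nat.shiftLeft (nat_lit 0x1000003) (nat_lit 112)) (.one (nat_lit 0x100000200400600a012400802c414024611)) (.one (nat_lit 0x100000300400600a012600802c414024611)))))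
noncomputable def b159 : BT := .node (nat_lit 0x17) (nat_lit 0x93528a950c003a5a000ad6419636d994549d0939260000753000158d00084b2001570052c6db449bb6d12c64e86d992fc9d2001d4d000653800196c00055ba001d4c00055bc1cb1a4e5270db226024e0003a5e000cb640032da000ab742004cc004cc004cc004cc0046c0046c0046c0046c0046c0046c0046c0046c0046c0046c003b10029b0029b0029b001e0001e0001e0001e0001e0001e0) .leaf .leaf
def t158 : k158.all (jb2 57 fl b159) = true := by decide +kernel
noncomputable def k159 : KT := (.br (Nat.shiftLeft (nat_lit 0x1800001) (nat_lit 113)) (.br (Nat.shiftLeft (nat_lit 0x1000001) (nat_lit 113)) (.br (Nat.shiftLeft (nat_lit 0x1) (nat_lit 137)) (.one (nat_lit 0x100200300400600a012600802c454824870)) (.one (nat_lit 0x200000100400600a012200804c814024611))) (.br (Nat.shiftLeft (nat_lit 0x2000003) (nat_lit 112)) (.one (nat_lit 0x200000200400600a012400804c814024611)) (.br (Nat.shiftLeft (nat_lit 0x3) (nat_lit 136)) (.one (nat_lit 0x200000300400600a012600804c814024611)) (.one (nat_lit 0x300000100400600a012200806cc14024611))))) (.br (Nat.shiftLeft (nat_lit 0x1)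 (nat_lit 138)) (.br (Nat.shiftLeft (nat_lit 0x3000003) (nat_lit 112)) (.one (nat_lit 0x300000200400600a012400806cc14024611)) (.one (nat_lit 0x300000300400600a012600806cc14024611))) (.br (Nat.shiftLeft (nat_lit 0x2000001) (nat_lit 113)) (.one (nat_lit 0x400000100400600a012200808d014024611)) (.br (Nat.shiftLeft (nat_lit 0x4000003) (nat_lit 112)) (.one (nat_lit 0x400000200400600a012400808d014024611)) (.one (nat_lit 0x400000300400600a012600808d014024611))))))
def t159 : k159.all (jb2 57 fl b0) = true := by decide +kernel
noncomputable def k160 : KT := (.br (Nat.shiftLeft (nat_lit 0x2800001) (nat_lit 113)) (.one (nat_lit 0x500000100400600a01220080ad414024611)) (.br (Nat.shiftLeft (nat_lit 0x5000003) (nat_lit 112)) (.one (nat_lit 0x500000200400600a01240080ad414024611)) (.one (nat_lit 0x500000300400600a01260080ad414024611))))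
def t160 : k160.all (jb2 57 fl b0) = true := by decide +kernel
noncomputable def k161 : KT := (.br (Nat.shiftLeft (nat_lit 0x3000001) (nat_lit 113)) (.one (nat_lit 0x600000100400600a01220080cd814024611)) (.one (nat_lit 0x600000200400600a01240080cd814024611)))
def t161 : k161.all (jb2 57 fl b0) = true := by decide +kernel
noncomputable def k162 : KT := (.br (Nat.shiftLeft (nat_lit 0x7) (nat_lit 136)) (.one (nat_lit 0x600000300400600a01260080cd814024611)) (.one (nat_lit 0x700000100400600a01220080edc14024611)))
noncomputable def b163 : BT := .node (nat_lit 0x1) (nat_lit 0x9362751454003a5c000ad5c10008800028) .leaf .leaf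
def t162 : k162.all (jb2 57 fl b163) = true := by decide +kernel
noncomputable def k163 : KT := (.br (Nat.shiftLeft (nat_lit 0x7000003) (nat_lit 112)) (.one (nat_lit 0x700000200400600a01240080edc14024611)) (.one (nat_lit 0x700000300400600a01260080edc14024611)))
def t163 : k163.all (jb2 57 fl b0) = true := by decide +kernel
noncomputable def k164 : KT := (.br (Nat.shiftLeft (nat_lit 0x4000001) (nat_lit 113)) (.one (nat_lit 0x800000100400600a012200810e014024611)) (.br (Nat.shiftLeft (nat_lit 0x8000003) (nat_lit 112)) (.one (nat_lit 0x800000200400600a012400810e014024611)) (.one (nat_lit 0x800000300400600a012600810e014024611))))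
def t164 : k164.all (jb2 57 fl b0) = true := by decide +kernel
noncomputable def k165 : KT := (.br (Nat.shiftLeft (nat_lit 0x9000003) (nat_lit 112)) (.br (Nat.shiftLeft (nat_lit 0x4800001) (nat_lit 113)) (.one (nat_lit 0x900000100400600a012200812e414024611)) (.one (nat_lit 0x900000200400600a012400812e414024611))) (.br (Nat.shiftLeft (nat_lit 0x5) (nat_lit 137)) (.one (nat_lit 0x900000300400600a012600812e414024611)) (.br (Nat.shiftLeft (nat_lit 0x5000001) (nat_lit 113)) (.one (nat_lit 0xa00000100400600a012200814e814024611)) (.one (nat_lit 0xa00000200400600a012400814e814024611)))))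
noncomputable def b166 : BT := .node (nat_lit 0x1) (nat_lit 0xdb328aa58c0032da000ac6010008800028) .leaf .leaf
def t165 : k165.all (jb2 57 fl b166) = true := by decide +kernel
noncomputable def k166 : KT := (.br (Nat.shiftLeft (nat_lit 0x3) (nat_lit 148)) (.br (Nat.shiftLeft (nat_lit 0x800001) (nat_lit 125)) (.br (Nat.shiftLeft (nat_lit 0x1) (nat_lit 148)) (.one (nat_lit 0xa00000300400600a012600814e814024611)) (.br (Nat.shiftLeft (nat_lit 0x1000001003) (nat_lit 112)) (.one (nat_lit 0x100000100200400600a012402840c034424711)) (.one (nat_lit 0x100000100300400600a012602840c034424711)))) (.br (Nat.shiftLeft (nat_lit 0x2000001003) (nat_lit 112)) (.br (Nat.shiftLeft (nat_lit 0x1) (nat_lit 149)) (.one (nat_lit 0x100000200300400600a012602840c054824711)) (.one (nat_lit 0x200000100200400600a012404880c034424711))) (.br (Nat.shiftLeft (nat_lit 0x1000001) (nat_lit 125)) (.one (nat_lit 0x200000100300400600a012604880c034424711)) (.one (nat_lit 0x200000200300400600a012604880c054824711))))) (.br (Nat.shiftLeft (nat_lit 0x1) (nat_lit 150)) (.br (Nat.shiftLeft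 (nat_lit 0x3000001003) (nat_lit 112)) (.one (nat_lit 0x300000100200400600a0124068c0c034424711)) (.br (Nat.shiftLeft (nat_lit 0x1800001) (nat_lit 125)) (.one (nat_lit 0x300000100300400600a0126068c0c034424711)) (.one (nat_lit 0x300000200300400600a0126068c0c054824711)))) (.br (Nat.shiftLeft (nat_lit 0x2000001) (nat_lit 125)) (.br (Nat.shiftLeft (nat_lit 0x4000001003) (nat_lit 112)) (.one (nat_lit 0x400000100200400600a012408900c034424711)) (.one (nat_lit 0x400000100300400600a012608900c034424711))) (.br (Nat.shiftLeft (nat_lit 0x5) (nat_lit 148)) (.one (nat_lit 0x400000200300400600a012608900c054824711)) (.one (nat_lit 0x500000100200400600a01240a940c034424711))))))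
def t166 : k166.all (jb2 57 fl b0) = true := by decide +kernel
noncomputable def k167 : KT := (.br (Nat.shiftLeft (nat_lit 0x3) (nat_lit 149)) (.br (Nat.shiftLeft (nat_lit 0x2800001) (nat_lit 125)) (.one (nat_lit 0x500000100300400600a01260a940c034424711)) (.one (nat_lit 0x500000200300400600a01260a940c054824711))) (.br (Nat.shiftLeft (nat_lit 0x6000001003) (nat_lit 112)) (.one (nat_lit 0x600000100200400600a01240c980c034424711)) (.one (nat_lit 0x600000100300400600a01260c980c034424711))))
def t167 : k167.all (jb2 57 fl b0) = true := by decide +kernel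
noncomputable def k168 : KT := (.br (Nat.shiftLeft (nat_lit 0x7000001003) (nat_lit 112)) (.br (Nat.shiftLeft (nat_lit 0x7) (nat_lit 148)) (.one (nat_lit 0x600000200300400600a01260c980c054824711)) (.one (nat_lit 0x700000100200400600a01240e9c0c034424711))) (.br (Nat.shiftLeft (nat_lit 0x3800001) (nat_lit 125)) (.one (nat_lit 0x700000100300400600a01260e9c0c034424711)) (.br (Nat.shiftLeft (nat_lit 0x1) (nat_lit 151)) (.one (nat_lit 0x700000200300400600a01260e9c0c054824711)) (.one (nat_lit 0x800000100200400600a012410a00c034424711)))))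
def t168 : k168.all (jb2 57 fl b0) = true := by decide +kernel
noncomputable def k169 : KT := (.br (Nat.shiftLeft (nat_lit 0x4800001) (nat_lit 125)) (.br (Nat.shiftLeft (nat_lit 0x9) (nat_lit 148)) (.br (Nat.shiftLeft (nat_lit 0x4000001) (nat_lit 125)) (.one (nat_lit 0x800000100300400600a012610a00c034424711)) (.one (nat_lit 0x800000200300400600a012610a00c054824711))) (.br (Nat.shiftLeft (nat_lit 0x9000001003) (nat_lit 112)) (.one (nat_lit 0x900000100200400600a012412a40c034424711)) (.one (nat_lit 0x900000100300400600a012612a40c034424711)))) (.br (Nat.shiftLeft (nat_lit 0xa000001003) (nat_lit 112)) (.br (Nat.shiftLeft (nat_lit 0x5) (nat_lit 149)) (.one (nat_lit 0x900000200300400600a012612a40c054824711)) (.one (nat_lit 0xa00000100200400600a012414a80c034424711))) (.br (Nat.shiftLeft (nat_lit 0x5000001) (nat_lit 125)) (.one (nat_lit 0xa00000100300400600a012614a80c034424711)) (.one (nat_lit 0xa00000200300400600a012614a80c054824711)))))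
def t169 : k169.all (jb2 57 fl b0) = true := by decide +kernel
noncomputable def s8 : KT := (.br (nat_lit 0x700000100400600a01220080edc14024611) (.br (nat_lit 0x100000300400600a012600802c414024611) (.br (nat_lit 0x600000400600a012000800c0d5824511) k156 (.br (nat_lit 0x800000400600a012000800c116024511) k157 k158)) (.br (nat_lit 0x500000300400600a01260080ad414024611) (.br (nat_lit 0x400000300400600a012600808d014024611) k159 k160) (.br (nat_lit 0x600000200400600a01240080cd814024611) k161 k162))) (.br (nat_lit 0xa00000200400600a012400814e814024611) (.br (nat_lit 0x700000300400600a01260080edc14024611) k163 (.br (nat_lit 0x800000300400600a012600810e014024611) k164 k165)) (.br (nat_lit 0x600000100300400600a01260c980c034424711) (.br (nat_lit 0x500000100200400600a01240a940c034424711) k166 k167) (.br (nat_lit 0x800000100200400600a012410a00c034424711) k168 k169))))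
noncomputable def u8 : KT := (.one (nat_lit 0x400600a012000800c014024540))
def w8 : u8.all (wj 57 s8) = true := by decide +kernel
def o8 : OkW 57 (jb2 57 fl) u8 := .lift s8 _ (.br _ _ _ (.br _ _ _ (.br _ _ _ (.leaf b0 k156 t156) (.br _ _ _ (.leaf b158 k157 t157) (.leaf b159 k158 t158))) (.br _ _ _ (.br _ _ _ (.leaf b0 k159 t159) (.leaf b0 k160 t160)) (.br _ _ _ (.leaf b0 k161 t161) (.leaf b163 k162 t162)))) (.br _ _ _ (.br _ _ _ (.leaf b0 k163 t163) (.br _ _ _ (.leaf b0 k164 t164) (.leaf b166 k165 t165))) (.br _ _ _ (.br _ _ _ (.leaf b0 k166 t166) (.leaf b0 k167 t167)) (.br _ _ _ (.leaf b0 k168 t168) (.leaf b0 k169 t169))))) w8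
noncomputable def k170 : KT := (.br (Nat.shiftLeft (nat_lit 0x1) (nat_lit 113)) (.br (Nat.shiftLeft (nat_lit 0x2003005807) (nat_lit 65)) (.br (Nat.shiftLeft (nat_lit 0x400600b) (nat_lit 76)) (.br (Nat.shiftLeft (nat_lit 0x1001802805) (nat_lit 66)) (.one (nat_lit 0x400600a013000800c014027500)) (.one (nat_lit 0x400600a014000800c014029500))) (.br (Nat.shiftLeft (nat_lit 0x400600b00d) (nat_lit 64)) (.one (nat_lit 0x400600b00c000800c016019500)) (.one (nat_lit 0x400600b00d000800c01601b500)))) (.br (Nat.shiftLeft (nat_lit 0x1) (nat_lit 112)) (.br (Nat.shiftLeft (nat_lit 0x400600b00f) (nat_lit 64)) (.one (nat_lit 0x400600b00e000800c01601d500)) (.one (nat_lit 0x400600b00f000800c01601f500))) (.br (Nat.shiftLeft (nat_lit 0x401001802805) (nat_lit 66)) (.one (nat_lit 0x100400600a013200800c014027600)) (.one (nat_lit 0x100400600a014200800c014029600))))) (.br (Nat.shiftLeft (nat_lit 0x1) (nat_lit 124)) (.br (Nat.shiftLeft (nat_lit 0x3) (nat_lit 112)) (.br (Nat.shiftLeft (nat_lit 0x801001802805) (nat_lit 66)) (.one (nat_lit 0x200400600a013400800c014027600))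 (.one (nat_lit 0x200400600a014400800c014029600))) (.br (Nat.shiftLeft (nat_lit 0xc01001802805) (nat_lit 66)) (.one (nat_lit 0x300400600a013600800c014027600)) (.one (nat_lit 0x300400600a014600800c014029600)))) (.br (Nat.shiftLeft (nat_lit 0x801) (nat_lit 113)) (.br (Nat.shiftLeft (nat_lit 0x400001001802805) (nat_lit 66)) (.one (nat_lit 0x100000400600a013000800c034426511)) (.one (nat_lit 0x100000400600a014000800c034428511))) (.br (Nat.shiftLeft (nat_lit 0x400801001802805) (nat_lit 66)) (.one (nat_lit 0x100200400600a013400800c034427700)) (.one (nat_lit 0x100200400600a014400800c034428760))))))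
def t170 : k170.all (jb2 57 fl b0) = true := by decide +kernel
noncomputable def k171 : KT := (.one (nat_lit 0x100300400600a013600800c034426760))
def t171 : k171.all (jb2 57 fl b0) = true := by decide +kernel
noncomputable def k172 : KT := (.br (Nat.shiftLeft (nat_lit 0x1) (nat_lit 125)) (.one (nat_lit 0x100300400600a014600800c034428760)) (.br (Nat.shiftLeft (nat_lit 0x800001001802805) (nat_lit 66)) (.one (nat_lit 0x200000400600a013000800c054826511)) (.one (nat_lit 0x200000400600a014000800c054828511))))
def t172 : k172.all (jb2 57 fl b0) = true := by decide +kernel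
noncomputable def k173 : KT := (.one (nat_lit 0x200300400600a013600800c054826760))
def t173 : k173.all (jb2 57 fl b0) = true := by decide +kernel
noncomputable def k174 : KT := (.br (Nat.shiftLeft (nat_lit 0x1) (nat_lit 126)) (.br (Nat.shiftLeft (nat_lit 0x3) (nat_lit 124)) (.one (nat_lit 0x200300400600a014600800c054828760)) (.br (Nat.shiftLeft (nat_lit 0xc00001001802805) (nat_lit 66)) (.one (nat_lit 0x300000400600a013000800c074c26511)) (.one (nat_lit 0x300000400600a014000800c074c28511)))) (.br (Nat.shiftLeft (nat_lit 0x1000001001802805) (nat_lit 66)) (.one (nat_lit 0x400000400600a013000800c095026511)) (.br (Nat.shiftLeft (nat_lit 0x5) (nat_lit 124)) (.one (nat_lit 0x400000400600a014000800c095028511)) (.one (nat_lit 0x500000400600a013000800c0b5426511)))))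
def t174 : k174.all (jb2 57 fl b0) = true := by decide +kernel
noncomputable def k175 : KT := (.br (Nat.shiftLeft (nat_lit 0x3) (nat_lit 125)) (.one (nat_lit 0x500000400600a014000800c0b5428511)) (.br (Nat.shiftLeft (nat_lit 0x1800001001802805) (nat_lit 66)) (.one (nat_lit 0x600000400600a013000800c0d5826511)) (.one (nat_lit 0x600000400600a014000800c0d5828511))))
def t175 : k175.all (jb2 57 fl b0) = true := by decide +kernel
noncomputable def k176 : KT := (.br (Nat.shiftLeft (nat_lit 0x1c00001001802805) (nat_lit 66)) (.one (nat_lit 0x700000400600a013000800c0f5c26511)) (.br (Nat.shiftLeft (nat_lit 0x1) (nat_lit 127)) (.one (nat_lit 0x700000400600a014000800c0f5c28511)) (.one (nat_lit 0x800000400600a013000800c116026511))))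
def t176 : k176.all (jb2 57 fl b0) = true := by decide +kernel
noncomputable def k177 : KT := (.br (Nat.shiftLeft (nat_lit 0x400000c01001802805) (nat_lit 66)) (.br (Nat.shiftLeft (nat_lit 0x1) (nat_lit 136)) (.br (Nat.shiftLeft (nat_lit 0x2400001001802805) (nat_lit 66)) (.br (Nat.shiftLeft (nat_lit 0x9) (nat_lit 124)) (.one (nat_lit 0x800000400600a014000800c116028511)) (.one (nat_lit 0x900000400600a013000800c136426511))) (.br (Nat.shiftLeft (nat_lit 0x5) (nat_lit 125)) (.one (nat_lit 0x900000400600a014000800c136428511)) (.br (Nat.shiftLeft (nat_lit 0x2800001001802805) (nat_lit 66)) (.one (nat_lit 0xa00000400600a013000800c156826511)) (.one (nat_lit 0xa00000400600a014000800c156828511))))) (.br (Nat.shiftLeft (nat_lit 0x800001) (nat_lit 113)) (.br (Nat.shiftLeft (nat_lit 0x400000401001802805) (nat_lit 66)) (.one (nat_lit 0x100000100400600a013200802c414026611)) (.one (nat_lit 0x100000100400600a014200802c414028611))) (.br (Nat.shiftLeft (nat_lit 0x400000801001802805) (nat_lit 66)) (.one (nat_lit 0x100000200400600a013400802c414026611)) (.br (Nat.shiftLeft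 (nat_lit 0x1000003) (nat_lit 112)) (.one (nat_lit 0x100000200400600a014400802c414028611)) (.one (nat_lit 0x100000300400600a013600802c414026611)))))) (.br (Nat.shiftLeft (nat_lit 0x2000003) (nat_lit 112)) (.br (Nat.shiftLeft (nat_lit 0x800000401001802805) (nat_lit 66)) (.br (Nat.shiftLeft (nat_lit 0x1) (nat_lit 137)) (.one (nat_lit 0x100000300400600a014600802c414028611)) (.one (nat_lit 0x200000100400600a013200804c814026611))) (.br (Nat.shiftLeft (nat_lit 0x1000001) (nat_lit 113)) (.one (nat_lit 0x200000100400600a014200804c814028611)) (.br (Nat.shiftLeft (nat_lit 0x800000801001802805) (nat_lit 66)) (.one (nat_lit 0x200000200400600a013400804c814026611)) (.one (nat_lit 0x200000200400600a014400804c814028611))))) (.br (Nat.shiftLeft (nat_lit 0xc00000401001802805) (nat_lit 66)) (.br (Nat.shiftLeft (nat_lit 0x800000c01001802805) (nat_lit 66)) (.one (nat_lit 0x200000300400600a013600804c814026611)) (.br (Nat.shiftLeft (nat_lit 0x3) (nat_lit 136)) (.one (nat_lit 0x200000300400600a014600804c814028611)) (.one (nat_lit 0x300000100400600a013200806cc14026611))))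 (.br (Nat.shiftLeft (nat_lit 0x1800001) (nat_lit 113)) (.one (nat_lit 0x300000100400600a014200806cc14028611)) (.br (Nat.shiftLeft (nat_lit 0xc00000801001802805) (nat_lit 66)) (.one (nat_lit 0x300000200400600a013400806cc14026611)) (.one (nat_lit 0x300000200400600a014400806cc14028611)))))))
def t177 : k177.all (jb2 57 fl b0) = true := by decide +kernel
noncomputable def k178 : KT := (.br (Nat.shiftLeft (nat_lit 0x2000001) (nat_lit 113)) (.br (Nat.shiftLeft (nat_lit 0x1) (nat_lit 138)) (.br (Nat.shiftLeft (nat_lit 0xc00000c01001802805) (nat_lit 66)) (.one (nat_lit 0x300000300400600a013600806cc14026611)) (.one (nat_lit 0x300000300400600a014600806cc14028611))) (.br (Nat.shiftLeft (nat_lit 0x1000000401001802805) (nat_lit 66)) (.one (nat_lit 0x400000100400600a013200808d014026611)) (.one (nat_lit 0x400000100400600a014200808d014028611)))) (.br (Nat.shiftLeft (nat_lit 0x4000003) (nat_lit 112)) (.br (Nat.shiftLeft (nat_lit 0x1000000801001802805) (nat_lit 66)) (.one (nat_lit 0x400000200400600a013400808d014026611)) (.one (nat_lit 0x400000200400600a014400808d014028611)))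 (.br (Nat.shiftLeft (nat_lit 0x1000000c01001802805) (nat_lit 66)) (.one (nat_lit 0x400000300400600a013600808d014026611)) (.br (Nat.shiftLeft (nat_lit 0x5) (nat_lit 136)) (.one (nat_lit 0x400000300400600a014600808d014028611)) (.one (nat_lit 0x500000100400600a01320080ad414026611))))))
def t178 : k178.all (jb2 57 fl b0) = true := by decide +kernel
noncomputable def k179 : KT := (.br (Nat.shiftLeft (nat_lit 0x1400000801001802805) (nat_lit 66)) (.br (Nat.shiftLeft (nat_lit 0x2800001) (nat_lit 113)) (.one (nat_lit 0x500000100400600a01420080ad414028611)) (.one (nat_lit 0x500000200400600a01340080ad414026611))) (.br (Nat.shiftLeft (nat_lit 0x5000003) (nat_lit 112)) (.one (nat_lit 0x500000200400600a01440080ad414028611)) (.one (nat_lit 0x500000300400600a01360080ad414026611))))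
def t179 : k179.all (jb2 57 fl b0) = true := by decide +kernel
noncomputable def k180 : KT := (.br (Nat.shiftLeft (nat_lit 0x3) (nat_lit 137)) (.one (nat_lit 0x500000300400600a01460080ad414028611)) (.br (Nat.shiftLeft (nat_lit 0x1800000401001802805) (nat_lit 66)) (.one (nat_lit 0x600000100400600a01320080cd814026611)) (.one (nat_lit 0x600000100400600a01420080cd814028611))))
def t180 : k180.all (jb2 57 fl b0) = true := by decide +kernel
noncomputable def k181 : KT := (.br (Nat.shiftLeft (nat_lit 0x6000003) (nat_lit 112)) (.br (Nat.shiftLeft (nat_lit 0x1800000801001802805) (nat_lit 66)) (.one (nat_lit 0x600000200400600a01340080cd814026611)) (.one (nat_lit 0x600000200400600a01440080cd814028611))) (.br (Nat.shiftLeft (nat_lit 0x1800000c01001802805) (nat_lit 66)) (.one (nat_lit 0x600000300400600a01360080cd814026611)) (.one (nat_lit 0x600000300400600a01460080cd814028611))))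
def t181 : k181.all (jb2 57 fl b0) = true := by decide +kernel
noncomputable def k182 : KT := (.br (Nat.shiftLeft (nat_lit 0x1c00000401001802805) (nat_lit 66)) (.one (nat_lit 0x700000100400600a01320080edc14026611)) (.br (Nat.shiftLeft (nat_lit 0x3800001) (nat_lit 113)) (.one (nat_lit 0x700000100400600a01420080edc14028611)) (.one (nat_lit 0x700000200400600a01340080edc14026611))))
def t182 : k182.all (jb2 57 fl b0) = true := by decide +kernel
noncomputable def k183 : KT := (.br (Nat.shiftLeft (nat_lit 0x1c00000c01001802805) (nat_lit 66)) (.br (Nat.shiftLeft (nat_lit 0x7000003) (nat_lit 112)) (.one (nat_lit 0x700000200400600a01440080edc14028611)) (.one (nat_lit 0x700000300400600a01360080edc14026611))) (.br (Nat.shiftLeft (nat_lit 0x1) (nat_lit 139)) (.one (nat_lit 0x700000300400600a01460080edc14028611)) (.br (Nat.shiftLeft (nat_lit 0x2000000401001802805) (nat_lit 66)) (.one (nat_lit 0x800000100400600a013200810e014026611)) (.one (nat_lit 0x800000100400600a014200810e014028611)))))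
def t183 : k183.all (jb2 57 fl b0) = true := by decide +kernel
noncomputable def k184 : KT := (.br (Nat.shiftLeft (nat_lit 0x2000000c01001802805) (nat_lit 66)) (.br (Nat.shiftLeft (nat_lit 0x2000000801001802805) (nat_lit 66)) (.one (nat_lit 0x800000200400600a013400810e014026611)) (.br (Nat.shiftLeft (nat_lit 0x8000003) (nat_lit 112)) (.one (nat_lit 0x800000200400600a014400810e014028611)) (.one (nat_lit 0x800000300400600a013600810e014026611)))) (.br (Nat.shiftLeft (nat_lit 0x2400000401001802805) (nat_lit 66)) (.br (Nat.shiftLeft (nat_lit 0x9) (nat_lit 136)) (.one (nat_lit 0x800000300400600a014600810e014028611)) (.one (nat_lit 0x900000100400600a013200812e414026611))) (.br (Nat.shiftLeft (nat_lit 0x4800001) (nat_lit 113)) (.one (nat_lit 0x900000100400600a014200812e414028611)) (.one (nat_lit 0x900000200400600a013400812e414026611)))))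
def t184 : k184.all (jb2 57 fl b0) = true := by decide +kernel
noncomputable def k185 : KT := (.br (Nat.shiftLeft (nat_lit 0xa000003) (nat_lit 112)) (.br (Nat.shiftLeft (nat_lit 0x5) (nat_lit 137)) (.br (Nat.shiftLeft (nat_lit 0x9000003) (nat_lit 112)) (.one (nat_lit 0x900000200400600a014400812e414028611)) (.br (Nat.shiftLeft (nat_lit 0x2400000c01001802805) (nat_lit 66)) (.one (nat_lit 0x900000300400600a013600812e414026611)) (.one (nat_lit 0x900000300400600a014600812e414028611)))) (.br (Nat.shiftLeft (nat_lit 0x5000001) (nat_lit 113)) (.br (Nat.shiftLeft (nat_lit 0x2800000401001802805) (nat_lit 66)) (.one (nat_lit 0xa00000100400600a013200814e814026611)) (.one (nat_lit 0xa00000100400600a014200814e814028611))) (.br (Nat.shiftLeft (nat_lit 0x2800000801001802805) (nat_lit 66)) (.one (nat_lit 0xa00000200400600a013400814e814026611)) (.one (nat_lit 0xa00000200400600a014400814e814028611))))) (.br (Nat.shiftLeft (nat_lit 0x1) (nat_lit 149)) (.br (Nat.shiftLeft (nat_lit 0x2800000c01001802805) (nat_lit 66)) (.one (nat_lit 0xa00000300400600a013600814e814026611))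 (.br (Nat.shiftLeft (nat_lit 0x1) (nat_lit 148)) (.one (nat_lit 0xa00000300400600a014600814e814028611)) (.one (nat_lit 0x100000100200400600a013402840c034426711)))) (.br (Nat.shiftLeft (nat_lit 0x1) (nat_lit 150)) (.br (Nat.shiftLeft (nat_lit 0x3) (nat_lit 148)) (.one (nat_lit 0x200000100200400600a013404880c034426711)) (.one (nat_lit 0x300000100200400600a0134068c0c034426711))) (.br (Nat.shiftLeft (nat_lit 0x5) (nat_lit 148)) (.one (nat_lit 0x400000100200400600a013408900c034426711)) (.one (nat_lit 0x500000100200400600a01340a940c034426711))))))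
def t185 : k185.all (jb2 57 fl b0) = true := by decide +kernel
noncomputable def k186 : KT := (.br (Nat.shiftLeft (nat_lit 0x1) (nat_lit 151)) (.br (Nat.shiftLeft (nat_lit 0x7) (nat_lit 148)) (.one (nat_lit 0x600000100200400600a01340c980c034426711)) (.one (nat_lit 0x700000100200400600a01340e9c0c034426711))) (.br (Nat.shiftLeft (nat_lit 0x9) (nat_lit 148)) (.one (nat_lit 0x800000100200400600a013410a00c034426711)) (.br (Nat.shiftLeft (nat_lit 0x5) (nat_lit 149)) (.one (nat_lit 0x900000100200400600a013412a40c034426711)) (.one (nat_lit 0xa00000100200400600a013414a80c034426711)))))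
def t186 : k186.all (jb2 57 fl b0) = true := by decide +kernel
noncomputable def s9 : KT := (.br (nat_lit 0x300000200400600a014400806cc14028611) (.br (nat_lit 0x200300400600a013600800c054826760) (.br (nat_lit 0x100300400600a013600800c034426760) (.br (nat_lit 0x100200400600a014400800c034428760) k170 k171) (.br (nat_lit 0x200000400600a014000800c054828511) k172 k173)) (.br (nat_lit 0x600000400600a014000800c0d5828511) (.br (nat_lit 0x500000400600a013000800c0b5426511) k174 k175) (.br (nat_lit 0x800000400600a013000800c116026511) k176 k177))) (.br (nat_lit 0x600000300400600a01460080cd814028611) (.br (nat_lit 0x500000300400600a01360080ad414026611) (.br (nat_lit 0x500000100400600a01320080ad414026611) k178 k179) (.br (nat_lit 0x600000100400600a01420080cd814028611) k180 k181)) (.br (nat_lit 0x800000100400600a014200810e014028611) (.br (nat_lit 0x700000200400600a01340080edc14026611) k182 k183) (.br (nat_lit 0x900000200400600a013400812e414026611) k184 (.br (nat_lit 0x500000100200400600a01340a940c034426711) k185 k186)))))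
noncomputable def u9 : KT := (.br (Nat.shiftLeft (nat_lit 0x400600b00d) (nat_lit 64)) (.br (Nat.shiftLeft (nat_lit 0x1001802805) (nat_lit 66)) (.one (nat_lit 0x400600a013000800c014026540)) (.br (Nat.shiftLeft (nat_lit 0x400600b) (nat_lit 76)) (.one (nat_lit 0x400600a014000800c014028540)) (.one (nat_lit 0x400600b00c000800c016019500)))) (.br (Nat.shiftLeft (nat_lit 0x2003005807) (nat_lit 65)) (.one (nat_lit 0x400600b00d000800c01601b500)) (.br (Nat.shiftLeft (nat_lit 0x400600b00f) (nat_lit 64)) (.one (nat_lit 0x400600b00e000800c01601d500)) (.one (nat_lit 0x400600b00f000800c01601f500)))))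
def w9 : u9.all (wj 57 s9) = true := by decide +kernel
def o9 : OkW 57 (jb2 57 fl) u9 := .lift s9 _ (.br _ _ _ (.br _ _ _ (.br _ _ _ (.br _ _ _ (.leaf b0 k170 t170) (.leaf b0 k171 t171)) (.br _ _ _ (.leaf b0 k172 t172) (.leaf b0 k173 t173))) (.br _ _ _ (.br _ _ _ (.leaf b0 k174 t174) (.leaf b0 k175 t175)) (.br _ _ _ (.leaf b0 k176 t176) (.leaf b0 k177 t177)))) (.br _ _ _ (.br _ _ _ (.br _ _ _ (.leaf b0 k178 t178) (.leaf b0 k179 t179)) (.br _ _ _ (.leaf b0 k180 t180) (.leaf b0 k181 t181))) (.br _ _ _ (.br _ _ _ (.leaf b0 k182 t182) (.leaf b0 k183 t183)) (.br _ _ _ (.leaf b0 k184 t184) (.br _ _ _ (.leaf b0 k185 t185) (.leaf b0 k186 t186)))))) w9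
noncomputable def k187 : KT := (.br (Nat.shiftLeft (nat_lit 0x1003) (nat_lit 112)) (.br (Nat.shiftLeft (nat_lit 0x3) (nat_lit 112)) (.br (Nat.shiftLeft (nat_lit 0x1) (nat_lit 112)) (.one (nat_lit 0x400600b010000800c016021500)) (.br (Nat.shiftLeft (nat_lit 0x1) (nat_lit 113)) (.one (nat_lit 0x100400600b010200800c016021600)) (.one (nat_lit 0x200400600b010400800c016021600)))) (.br (Nat.shiftLeft (nat_lit 0x1) (nat_lit 124)) (.one (nat_lit 0x300400600b010600800c016021600)) (.br (Nat.shiftLeft (nat_lit 0x801) (nat_lit 113)) (.one (nat_lit 0x100000400600b010000800c036420511)) (.one (nat_lit 0x100200400600b010400800c036421700))))) (.br (Nat.shiftLeft (nat_lit 0x3) (nat_lit 124)) (.br (Nat.shiftLeft (nat_lit 0x1) (nat_lit 125)) (.one (nat_lit 0x100300400600b010600800c036421700)) (.br (Nat.shiftLeft (nat_lit 0x1001) (nat_lit 113)) (.one (nat_lit 0x200000400600b010000800c056820511)) (.one (nat_lit 0x200300400600b010600800c056821700)))) (.br (Nat.shiftLeft (nat_lit 0x5) (nat_lit 124)) (.br (Nat.shiftLeft (nat_lit 0x1) (nat_lit 126)) (.one (nat_lit 0x300000400600b010000800c076c20511))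 (.one (nat_lit 0x400000400600b010000800c097020511))) (.br (Nat.shiftLeft (nat_lit 0x3) (nat_lit 125)) (.one (nat_lit 0x500000400600b010000800c0b7420511)) (.one (nat_lit 0x600000400600b010000800c0d7820511))))))
noncomputable def b188 : BT := .node (nat_lit 0x1) (nat_lit 0x4c936cc97e9632601454003a59000aa8c003a22000ac642000e300028) .leaf .leaf
def t187 : k187.all (jb2 57 fl b188) = true := by decide +kernel
noncomputable def k188 : KT := (.one (nat_lit 0x700000400600b010000800c0f7c20511))
noncomputable def b189 : BT := .node (nat_lit 0x11) (nat_lit 0x6d994552c800196c80056300c9b13a4a2a001d4c00056ae0ce925f12f8003a5c000cb6c10028700287002870028700287002870028700227001c7001680016800168001680016800168001680016800168) .leaf .leaf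
def t188 : k188.all (jb2 57 fl b189) = true := by decide +kernel
noncomputable def k189 : KT := (.one (nat_lit 0x800000400600b010000800c118020511))
noncomputable def b190 : BT := .node (nat_lit 0x11) (nat_lit 0x36c92c64bf000cb60002aa5076cd2c64ea000cb60002adf076cc97c4ea289a590a8696328a1450003a5d0008c7c00421a000ad5c0032d9000cb64396349b950d26c4bf27480083ba0015ab800753400158d0526e93725fc8c497e96449b12f89d4db328aa58c003a98000ab800032630008c68003a5d000ac70003317000ac6040056a0056a0056a0056a0050a004aa004aa00394002d9001680016800168001680016800168001680016800168) .leaf .leaf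
def t189 : k189.all (jb2 57 fl b190) = true := by decide +kernel
noncomputable def k190 : KT := (.one (nat_lit 0x900000400600b010000800c138420511))
noncomputable def b191 : BT := .node (nat_lit 0x35) (nat_lit 0xdb325f950927093825f00073c80011cb80065b200194f053a52724be4b1a4e1270542274945527093825f80184b200556f00174b800596c8007530005d2d002753000556f892c64be27480074b800196c832c84ea28a950ca2a4e96d9b6cca2adb325e13a400ba5c002ac6800ba5a002ca740032d8002ad5c0132d8002ab78493749c92f9b644bf27500065b600196c800753200118f85b6693827536cd270963000ca70002b1b000e970002b190b6cd2709636d912f8a2a9634b212f92c693849c24e126e4be006ea64012b18004e97401235b004ea6401aaa3004ea60013a98004cb6000329e165949d25156d992f097e001d4c000563600196c00055c016d9a58ca2600196c00056320cb192fca86db24b212f9b665144b1b6cdb664e96d925912c800dcf200356b000996d001554600196c8025630009d4c002463c009d4c80356322d4225f92f89d24e925f00073c800196c800753000194f8526e4bf28a95089d45146d993a49d4005d1080156ae005d0f80265b200196c80155bc1ce925f13a8a8493825f36c897c4ea000e9700032db00107740032d9000ca78002adf0f6c9b664e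a6d9a4dd27000196c00055c0001d4c00055ba14b236cd2c6db349c13a52c64bf25fb6cc980542004ea6000b2d8000ea6000aade002ea6400aaa4002e79800a39712a136d097e93749c13a5b664c028ac8c497e9640010868002aa3000ea68002b1a000e88800235a000c98c00231a1274a4e1270db249c12f8003a98000ea600032d9000ab7c2015980159801598015980159801598014dd0136d0136d0136d0130d0119c0119c0119c0119c0119c0119c010e1010e1010e1010e101026010260102600e5a00d9f00d9f00d9f00d3f00d3f00d3f00d3f00d3f00d3f00d3f00b7300ab900ab900ab9009a3009a3009a3009a3009a3009a3009a30088e0088e007d300662004f2004f2004f200438) .leaf .leaf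
def t190 : k190.all (jb2 57 fl b191) = true := by decide +kernel
noncomputable def k191 : KT := (.br (Nat.shiftLeft (nat_lit 0x1) (nat_lit 136)) (.br (Nat.shiftLeft (nat_lit 0xb) (nat_lit 124)) (.one (nat_lit 0xa00000400600b010000800c158820511)) (.one (nat_lit 0xb00000400600b010000800c178c20511))) (.br (Nat.shiftLeft (nat_lit 0x800001) (nat_lit 113)) (.one (nat_lit 0x100000100400600b010200802c416020611)) (.br (Nat.shiftLeft (nat_lit 0x1000003) (nat_lit 112)) (.one (nat_lit 0x100000200400600b010400802c416020611)) (.one (nat_lit 0x100000300400600b010600802c416020611)))))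
noncomputable def b192 : BT := .node (nat_lit 0x1d) (nat_lit 0xdb225f13a92c64ea4b193a497e4be6d924e09d2db249ca59000b29e004ab7c0132db004cb6001ba5f006cb600032d9004cb64013a5e006ac64593825f93a4003a5f000ac641db227494552c651625ea4e497c4be27492f897c5426da2591b6493828a802653a00558d80165b800193080165b000596c0007530001d4c00193b400558c80274b80055ab8d2c696428a36cd2c84e94b193aca2a96349c24e5b665152a1b6cdb664bf002ea6800b2d8000cb68002ade004e97400ab1b002ea6000b29e004e968012399000ea6000a2e51a4e92704e6004cb600032d8064e497c4e9000ea60002b190658c97e4bf6d924e49d296325f94552724bf25f001753200555200165b200558d00174bc00196d00265b400596c09b6696327515092724e9000cb60002adf001077c002b190b6c897c4e96d9a58c9d4001d2e800563400196c00055be14b19454a84db349ca58c003a5a000ad5c003a5e000ac602db26da12f92c64be25f13a52724be4b1a4e127093825f93a400ba9a0028b8c013a98002ca7800ba99002cb64003a98000ea6000ba5e002ac68500f0000d3400cd400cd400cd400aad00886008860088600826007c6007c6007c6007c6006550065500655006550065500655006550065500655006550059a004df00424004240042400258) .leaf .leaf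
def t191 : k191.all (jb2 57 fl b192) = true := by decide +kernel
noncomputable def k192 : KT := (.br (Nat.shiftLeft (nat_lit 0x3) (nat_lit 136)) (.br (Nat.shiftLeft (nat_lit 0x1000001) (nat_lit 113)) (.br (Nat.shiftLeft (nat_lit 0x1) (nat_lit 137)) (.one (nat_lit 0x100200300400600b010600802c456820870)) (.one (nat_lit 0x200000100400600b010200804c816020611))) (.br (Nat.shiftLeft (nat_lit 0x2000003) (nat_lit 112)) (.one (nat_lit 0x200000200400600b010400804c816020611)) (.one (nat_lit 0x200000300400600b010600804c816020611)))) (.br (Nat.shiftLeft (nat_lit 0x3000003) (nat_lit 112)) (.br (Nat.shiftLeft (nat_lit 0x1800001) (nat_lit 113)) (.one (nat_lit 0x300000100400600b010200806cc16020611)) (.one (nat_lit 0x300000200400600b010400806cc16020611))) (.br (Nat.shiftLeft (nat_lit 0x1) (nat_lit 138)) (.one (nat_lit 0x300000300400600b010600806cc16020611)) (.one (nat_lit 0x400000100400600b010200808d016020611)))))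
def t192 : k192.all (jb2 57 fl b0) = true := by decide +kernel
noncomputable def k193 : KT := (.br (Nat.shiftLeft (nat_lit 0x4000003) (nat_lit 112)) (.one (nat_lit 0x400000200400600b010400808d016020611)) (.br (Nat.shiftLeft (nat_lit 0x5) (nat_lit 136)) (.one (nat_lit 0x400000300400600b010600808d016020611)) (.one (nat_lit 0x500000100400600b01020080ad416020611))))
noncomputable def b194 : BT := .node (nat_lit 0x1) (nat_lit 0x12312a1a590002b57000ab6810008900028) .leaf .leaf
def t193 : k193.all (jb2 57 fl b194) = true := by decide +kernel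
noncomputable def k194 : KT := (.br (Nat.shiftLeft (nat_lit 0x5000003) (nat_lit 112)) (.one (nat_lit 0x500000200400600b01040080ad416020611)) (.one (nat_lit 0x500000300400600b01060080ad416020611)))
def t194 : k194.all (jb2 57 fl b0) = true := by decide +kernel
noncomputable def k195 : KT := (.one (nat_lit 0x600000100400600b01020080cd816020611))
noncomputable def b196 : BT := .node (nat_lit 0x1) (nat_lit 0x6f0a648a86db328b24d00132d8004ac64003318000ab642000e300028) .leaf .leaf
def t195 : k195.all (jb2 57 fl b196) = true := by decide +kernel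
noncomputable def k196 : KT := (.one (nat_lit 0x600000200400600b01040080cd816020611))
noncomputable def b197 : BT := .node (nat_lit 0x17) (nat_lit 0x24624c04e080063cc0011cb83231275258c002adf000ab64191892f926cdb228b24d40032dc0008b70003356000ab68293525f1454003a5c000ad601003be003be003be003be0035d0035d0035d0035d002fc002fc002fc002fc002fc002fc002fc002fc002fc002fc0024000240001e0001e0001e0001e0) .leaf .leaf
def t196 : k196.all (jb2 57 fl b197) = true := by decide +kernel
noncomputable def k197 : KT := (.one (nat_lit 0x600000300400600b01060080cd816020611))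
def t197 : k197.all (jb2 57 fl b0) = true := by decide +kernel
noncomputable def k198 : KT := (.one (nat_lit 0x700000100400600b01020080edc16020611))
noncomputable def b199 : BT := .node (nat_lit 0xb) (nat_lit 0x26452c84bf4c893a926e001d2d000554600196d80064ba16f092f89d6db349b12fd26c4e949b00074b80011708006536001570800662e00196c072316d994540032990008d68196328a12fc0032d9000c98c100382002c7002c7001b1001b10015000150000f0000f0000f0000f0000f0) .leaf .leaf
def t198 : k198.all (jb2 57 fl b199) = true := by decide +kernel
noncomputable def k199 : KT := (.br (Nat.shiftLeft (nat_lit 0x7000003) (nat_lit 112)) (.one (nat_lit 0x700000200400600b01040080edc16020611)) (.one (nat_lit 0x700000300400600b01060080edc16020611)))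
noncomputable def b200 : BT := .node (nat_lit 0xb) (nat_lit 0x6f0a58c98093549b13a8003299000aa90003a99000ac702918b6cc97f23149b15c8002ad9000aa9000419c0006f60291892e93249352759455b644bf49b00065b20011ac00074ba0015ac000654200156d8723149b36cc00329b000ab641003df003240032400324003240026800268001510015100151000f0000f0) .leaf .leaf
def t199 : k199.all (jb2 57 fl b200) = true := by decide +kernel
noncomputable def k200 : KT := (.one (nat_lit 0x800000100400600b010200810e016020611))
noncomputable def b201 : BT := .node (nat_lit 0xb) (nat_lit 0xdb3275259000329e000ac641de16d992fd32293827480074b2001172000743c00158d05b644c04c9150d2704e9000c894002b570010774002b1a0a58d26e4e949b13a926e96349b94552c69372a180074b800558d00265b600996c80175300055ab80183b80015ac09b644be4b1800653e00158c032316d9a4dc003299000ab701004f8004980049800498003dd003dd0032200322001b10015100151000f0) .leaf .leaf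
def t200 : k200.all (jb2 57 fl b201) = true := by decide +kernel
noncomputable def k201 : KT := (.br (Nat.shiftLeft (nat_lit 0x8000003) (nat_lit 112)) (.one (nat_lit 0x800000200400600b010400810e016020611)) (.one (nat_lit 0x800000300400600b010600810e016020611)))
noncomputable def b202 : BT := .node (nat_lit 0xb) (nat_lit 0x126e4bf27480074bc00158d0323125f24e1b644e925fa4d897c4bf918950cae400196d00045bc00196c0005548001d4c00055c2001d2c80037b0249b13a926c57149b92f8003317000cb6000419d000ab80296349ba58c003a98000cb601003dd003dd003dd003dd0037d0037d0020b0020b0015000150000f0000f0) .leaf .leaf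
def t201 : k201.all (jb2 57 fl b202) = true := by decide +kernel
noncomputable def k202 : KT := (.br (Nat.shiftLeft (nat_lit 0x4800001) (nat_lit 113)) (.one (nat_lit 0x900000100400600b010200812e416020611)) (.one (nat_lit 0x900000200400600b010400812e416020611)))
noncomputable def b203 : BT := .node (nat_lit 0x17) (nat_lit 0x93725f93a8003a99000ac6c193725f93a9b66db328ab6cc9d4963000e978002b1b000cb60002b1a000ca78002b190e7492f897c001d2e00065b40cb136cca2a001d4c00056b00c9b92f926e4e925f92f800b2da004cb6400ba5e000cb64293727513a5b66db34b1b6cca2c9632a1a4e126e005d4c8015634005d4c00265b000598b80156300060ee80065b024b1a4e097cdb3260150c003a5d000cb640039e50008e602db249c24ddb644e9275000753200196c00075300011900526e93725f24dc9d44e9000ea600032da000cc5c0032d80a58c97c51649ba4dc97cdb349ba4dc003a5c000ac6c003a98000cb680032d8000cb60300988009280092800928008120081200812007b3007b30075300753007530069800698005270046c0046c003b1003b1003b1003b1003b1002f6001e0) .leaf .leaf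
def t202 : k202.all (jb2 57 fl b203) = true := by decide +kernel
noncomputable def k203 : KT := (.br (Nat.shiftLeft (nat_lit 0x5000001) (nat_lit 113)) (.br (Nat.shiftLeft (nat_lit 0x5) (nat_lit 137)) (.one (nat_lit 0x900000300400600b010600812e416020611)) (.one (nat_lit 0xa00000100400600b010200814e816020611))) (.br (Nat.shiftLeft (nat_lit 0xa000003) (nat_lit 112)) (.one (nat_lit 0xa00000200400600b010400814e816020611)) (.one (nat_lit 0xa00000300400600b010600814e816020611))))
noncomputable def b204 : BT := .node (nat_lit 0xb) (nat_lit 0x9634b192f8003a99000aa8c1db349c13a4a864bf25f258d2724be000ca74002b1a000e7900032d8000e9740032d90f6c9b664be4b1a4e49d2963274a4e400ba99004ab78013a99000ca780032d9002ca7c30037c0037c0037c0037c0037c0031c0031c00206002060020600206000f0) .leaf .leaf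
def t203 : k203.all (jb2 57 fl b204) = true := by decide +kernel
noncomputable def k204 : KT := (.br (Nat.shiftLeft (nat_lit 0x2000001003) (nat_lit 112)) (.br (Nat.shiftLeft (nat_lit 0x1) (nat_lit 148)) (.br (Nat.shiftLeft (nat_lit 0x5800001) (nat_lit 113)) (.one (nat_lit 0xb00000100400600b010200816ec16020611)) (.br (Nat.shiftLeft (nat_lit 0xb000003) (nat_lit 112)) (.one (nat_lit 0xb00000200400600b010400816ec16020611)) (.one (nat_lit 0xb00000300400600b010600816ec16020611)))) (.br (Nat.shiftLeft (nat_lit 0x800001) (nat_lit 125)) (.br (Nat.shiftLeft (nat_lit 0x1000001003) (nat_lit 112)) (.one (nat_lit 0x100000100200400600b010402840c036420711)) (.one (nat_lit 0x100000100300400600b010602840c036420711))) (.br (Nat.shiftLeft (nat_lit 0x1) (nat_lit 149)) (.one (nat_lit 0x100000200300400600b010602840c056820711)) (.one (nat_lit 0x200000100200400600b010404880c036420711))))) (.br (Nat.shiftLeft (nat_lit 0x1800001) (nat_lit 125)) (.br (Nat.shiftLeft (nat_lit 0x3) (nat_lit 148)) (.br (Nat.shiftLeft (nat_lit 0x1000001) (nat_lit 125)) (.one (nat_lit 0x200000100300400600b010604880c036420711))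 (.one (nat_lit 0x200000200300400600b010604880c056820711))) (.br (Nat.shiftLeft (nat_lit 0x3000001003) (nat_lit 112)) (.one (nat_lit 0x300000100200400600b0104068c0c036420711)) (.one (nat_lit 0x300000100300400600b0106068c0c036420711)))) (.br (Nat.shiftLeft (nat_lit 0x4000001003) (nat_lit 112)) (.br (Nat.shiftLeft (nat_lit 0x1) (nat_lit 150)) (.one (nat_lit 0x300000200300400600b0106068c0c056820711)) (.one (nat_lit 0x400000100200400600b010408900c036420711))) (.br (Nat.shiftLeft (nat_lit 0x2000001) (nat_lit 125)) (.one (nat_lit 0x400000100300400600b010608900c036420711)) (.one (nat_lit 0x400000200300400600b010608900c056820711))))))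
def t204 : k204.all (jb2 57 fl b0) = true := by decide +kernel
noncomputable def k205 : KT := (.br (Nat.shiftLeft (nat_lit 0x5000001003) (nat_lit 112)) (.one (nat_lit 0x500000100200400600b01040a940c036420711)) (.one (nat_lit 0x500000100300400600b01060a940c036420711)))
noncomputable def b206 : BT := .node (nat_lit 0x2f) (nat_lit 0x1231275b6cd3229342d080055be00156c800743400160a053225152a200074b200158d03b664ea28ac8c49d69926f092f926a001d2e00046b400193000046b000196e80055361c8c4a8696349a93a8a2a0015ac0015630005d2e00256b016f093a8a2d2312759684003a5c0008c700039a1000705c2de149a15c8003299000af541db22752648003260000ad5c199249a1454003a1a000ad601db325f9454003a210008d681008e90082d0082d0082d0082d007cd007cd006b7006b7006b7006b7006b7006b7006b7006b7006b7006b7006b7006b7005fb005400054000540004e0004e0004e0004e0004e0004e0004e0004e0004e0004e0004e0004e000480004200042000420003c0003c0003c0003c0003c0003c0003c0003c0003c0) .leaf .leaf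
def t205 : k205.all (jb2 57 fl b206) = true := by decide +kernel
noncomputable def k206 : KT := (.br (Nat.shiftLeft (nat_lit 0x3) (nat_lit 149)) (.one (nat_lit 0x500000200300400600b01060a940c056820711)) (.one (nat_lit 0x600000100200400600b01040c980c036420711)))
noncomputable def b207 : BT := .node (nat_lit 0xb) (nat_lit 0x264926c4bf9189454a88001d0d80055c2001d2c800373414c894552c600198c00065320cc892fca2c99128a9510003a21000ab70003a59000ac682002c6002c60020b0020b001ab000f0000f0000f0000f0000f0000f0000f0) .leaf .leaf
def t206 : k206.all (jb2 57 fl b207) = true := by decide +kernel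
noncomputable def k207 : KT := (.br (Nat.shiftLeft (nat_lit 0x3000001) (nat_lit 125)) (.one (nat_lit 0x600000100300400600b01060c980c036420711)) (.br (Nat.shiftLeft (nat_lit 0x7) (nat_lit 148)) (.one (nat_lit 0x600000200300400600b01060c980c056820711)) (.one (nat_lit 0x700000100200400600b01040e9c0c036420711))))
noncomputable def b208 : BT := .node (nat_lit 0x1) (nat_lit 0x49a92f926c93525f12fc0032dc000cb64003a98000ab882000e300028) .leaf .leaf
def t207 : k207.all (jb2 57 fl b208) = true := by decide +kernel
noncomputable def k208 : KT := (.br (Nat.shiftLeft (nat_lit 0x1) (nat_lit 151)) (.br (Nat.shiftLeft (nat_lit 0x3800001) (nat_lit 125)) (.one (nat_lit 0x700000100300400600b01060e9c0c036420711)) (.one (nat_lit 0x700000200300400600b01060e9c0c056820711))) (.br (Nat.shiftLeft (nat_lit 0x8000001003) (nat_lit 112)) (.one (nat_lit 0x800000100200400600b010410a00c036420711)) (.one (nat_lit 0x800000100300400600b010610a00c036420711))))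
noncomputable def b209 : BT := .node (nat_lit 0x11) (nat_lit 0x3785b6654349b93a49d2db26d992fc00b299002ad60003a98002ac6c013a980028b90393649b92f8003a9a000ab801002de002de002de002de002de002de002de001c8001c8001680016800168001680016800168001680016800168) .leaf .leaf
def t208 : k208.all (jb2 57 fl b209) = true := by decide +kernel
noncomputable def k209 : KT := (.br (Nat.shiftLeft (nat_lit 0xa000001003) (nat_lit 112)) (.br (Nat.shiftLeft (nat_lit 0x9000001003) (nat_lit 112)) (.br (Nat.shiftLeft (nat_lit 0x9) (nat_lit 148)) (.one (nat_lit 0x800000200300400600b010610a00c056820711)) (.one (nat_lit 0x900000100200400600b010412a40c036420711))) (.br (Nat.shiftLeft (nat_lit 0x4800001) (nat_lit 125)) (.one (nat_lit 0x900000100300400600b010612a40c036420711)) (.br (Nat.shiftLeft (nat_lit 0x5) (nat_lit 149)) (.one (nat_lit 0x900000200300400600b010612a40c056820711)) (.one (nat_lit 0xa00000100200400600b010414a80c036420711))))) (.br (Nat.shiftLeft (nat_lit 0xb) (nat_lit 148)) (.br (Nat.shiftLeft (nat_lit 0x5000001) (nat_lit 125)) (.one (nat_lit 0xa00000100300400600b010614a80c036420711))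 (.one (nat_lit 0xa00000200300400600b010614a80c056820711))) (.br (Nat.shiftLeft (nat_lit 0xb000001003) (nat_lit 112)) (.one (nat_lit 0xb00000100200400600b010416ac0c036420711)) (.br (Nat.shiftLeft (nat_lit 0x5800001) (nat_lit 125)) (.one (nat_lit 0xb00000100300400600b010616ac0c036420711)) (.one (nat_lit 0xb00000200300400600b010616ac0c056820711))))))
def t209 : k209.all (jb2 57 fl b0) = true := by decide +kernel
noncomputable def s10 : KT := (.br (nat_lit 0x600000300400600b01060080cd816020611) (.br (nat_lit 0x100000300400600b010600802c416020611) (.br (nat_lit 0x700000400600b010000800c0f7c20511) (.br (nat_lit 0x600000400600b010000800c0d7820511) k187 k188) (.br (nat_lit 0x800000400600b010000800c118020511) k189 (.br (nat_lit 0x900000400600b010000800c138420511) k190 k191))) (.br (nat_lit 0x500000300400600b01060080ad416020611) (.br (nat_lit 0x400000100400600b010200808d016020611) k192 (.br (nat_lit 0x500000100400600b01020080ad416020611) k193 k194)) (.br (nat_lit 0x600000100400600b01020080cd816020611) k195 (.br (nat_lit 0x600000200400600b01040080cd816020611)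 k196 k197)))) (.br (nat_lit 0xa00000300400600b010600814e816020611) (.br (nat_lit 0x800000100400600b010200810e016020611) (.br (nat_lit 0x700000100400600b01020080edc16020611) k198 (.br (nat_lit 0x700000300400600b01060080edc16020611) k199 k200)) (.br (nat_lit 0x800000300400600b010600810e016020611) k201 (.br (nat_lit 0x900000200400600b010400812e416020611) k202 k203))) (.br (nat_lit 0x600000100200400600b01040c980c036420711) (.br (nat_lit 0x400000200300400600b010608900c056820711) k204 (.br (nat_lit 0x500000100300400600b01060a940c036420711) k205 k206)) (.br (nat_lit 0x700000100200400600b01040e9c0c036420711) k207 (.br (nat_lit 0x800000100300400600b010610a00c036420711) k208 k209)))))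
noncomputable def u10 : KT := (.one (nat_lit 0x400600b010000800c016020540))
def w10 : u10.all (wj 57 s10) = true := by decide +kernel
def o10 : OkW 57 (jb2 57 fl) u10 := .lift s10 _ (.br _ _ _ (.br _ _ _ (.br _ _ _ (.br _ _ _ (.leaf b188 k187 t187) (.leaf b189 k188 t188)) (.br _ _ _ (.leaf b190 k189 t189) (.br _ _ _ (.leaf b191 k190 t190) (.leaf b192 k191 t191)))) (.br _ _ _ (.br _ _ _ (.leaf b0 k192 t192) (.br _ _ _ (.leaf b194 k193 t193) (.leaf b0 k194 t194))) (.br _ _ _ (.leaf b196 k195 t195) (.br _ _ _ (.leaf b197 k196 t196) (.leaf b0 k197 t197))))) (.br _ _ _ (.br _ _ _ (.br _ _ _ (.leaf b199 k198 t198) (.br _ _ _ (.leaf b200 k199 t199) (.leaf b201 k200 t200))) (.br _ _ _ (.leaf b202 k201 t201) (.br _ _ _ (.leaf b203 k202 t202) (.leaf b204 k203 t203)))) (.br _ _ _ (.br _ _ _ (.leaf b0 k204 t204) (.br _ _ _ (.leaf b206 k205 t205) (.leaf b207 k206 t206))) (.br _ _ _ (.leaf b208 k207 t207) (.br _ _ _ (.leaf b209 k208 t208) (.leaf b0 k209 t209)))))) w10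
noncomputable def k210 : KT := (.br (Nat.shiftLeft (nat_lit 0x1003) (nat_lit 112)) (.br (Nat.shiftLeft (nat_lit 0x3) (nat_lit 112)) (.br (Nat.shiftLeft (nat_lit 0x1) (nat_lit 112)) (.one (nat_lit 0x400600b011000800c016023500)) (.br (Nat.shiftLeft (nat_lit 0x1) (nat_lit 113)) (.one (nat_lit 0x100400600b011200800c016023600)) (.one (nat_lit 0x200400600b011400800c016023600)))) (.br (Nat.shiftLeft (nat_lit 0x1) (nat_lit 124)) (.one (nat_lit 0x300400600b011600800c016023600)) (.br (Nat.shiftLeft (nat_lit 0x801) (nat_lit 113)) (.one (nat_lit 0x100000400600b011000800c036422511)) (.one (nat_lit 0x100200400600b011400800c036423700))))) (.br (Nat.shiftLeft (nat_lit 0x3) (nat_lit 124)) (.br (Nat.shiftLeft (nat_lit 0x1) (nat_lit 125)) (.one (nat_lit 0x100300400600b011600800c036423700)) (.br (Nat.shiftLeft (nat_lit 0x1001) (nat_lit 113)) (.one (nat_lit 0x200000400600b011000800c056822511)) (.one (nat_lit 0x200300400600b011600800c056823700)))) (.br (Nat.shiftLeft (nat_lit 0x5) (nat_lit 124)) (.br (Nat.shiftLeft (nat_lit 0x1) (nat_lit 126)) (.one (nat_lit 0x300000400600b011000800c076c22511))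 (.one (nat_lit 0x400000400600b011000800c097022511))) (.br (Nat.shiftLeft (nat_lit 0x3) (nat_lit 125)) (.one (nat_lit 0x500000400600b011000800c0b7422511)) (.one (nat_lit 0x600000400600b011000800c0d7822511))))))
def t210 : k210.all (jb2 57 fl b0) = true := by decide +kernel
noncomputable def k211 : KT := (.br (Nat.shiftLeft (nat_lit 0x1) (nat_lit 127)) (.one (nat_lit 0x700000400600b011000800c0f7c22511)) (.one (nat_lit 0x800000400600b011000800c118022511)))
noncomputable def b212 : BT := .node (nat_lit 0x1) (nat_lit 0xdb325f24dc0032da000ab7010008800028) .leaf .leaf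
def t211 : k211.all (jb2 57 fl b212) = true := by decide +kernel
noncomputable def k212 : KT := (.br (Nat.shiftLeft (nat_lit 0x1) (nat_lit 136)) (.br (Nat.shiftLeft (nat_lit 0x5) (nat_lit 125)) (.one (nat_lit 0x900000400600b011000800c138422511)) (.br (Nat.shiftLeft (nat_lit 0xb) (nat_lit 124)) (.one (nat_lit 0xa00000400600b011000800c158822511)) (.one (nat_lit 0xb00000400600b011000800c178c22511)))) (.br (Nat.shiftLeft (nat_lit 0x800001) (nat_lit 113)) (.one (nat_lit 0x100000100400600b011200802c416022611)) (.br (Nat.shiftLeft (nat_lit 0x1000003) (nat_lit 112)) (.one (nat_lit 0x100000200400600b011400802c416022611)) (.one (nat_lit 0x100000300400600b011600802c416022611)))))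
noncomputable def b213 : BT := .node (nat_lit 0x1d) (nat_lit 0x24e097e4c02a113009d2001d4c00065b6001d4d000743c151649c13a400421a000ac641db249c24dc0032da000ca701db24b1a4e00032d9000ca741a8493828ab6cca865422a136d12c654249c12fc00ba5c000e968003a980028e5c0149da004ac6000c1de002ab8049634b1a4e12c64ea49c259126e9376d912f9272009d4c002653a00596d001653c001d2e00165b000196c80155be249ab6cd270001d4c00065b40d4226012f1b664bf27536cdb684e9000e7980032d8000e97800231f000cb64002b190f6c897c93a49c13a927000196c00155c000596d80265b014b195092c6db249c93a4003317000cb600042590008c78296349c12fc9d24bf25fb6c92704e96d994512c8db249d1454013a5d008cb64013a98004cb680032d9002cb6401b2d9004ac6401421c0048d6c500bca00bca00bca00bca00bca00bca00bca00bca00bca00b0f00ab000a50009f0009f0009f0008800070f0070f0070f0070f006af0059a0059a0059a004df0042400424004240042400258) .leaf .leaf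
def t212 : k212.all (jb2 57 fl b213) = true := by decide +kernel
noncomputable def k213 : KT := (.br (Nat.shiftLeft (nat_lit 0x1800001) (nat_lit 113)) (.br (Nat.shiftLeft (nat_lit 0x1000001) (nat_lit 113)) (.br (Nat.shiftLeft (nat_lit 0x1) (nat_lit 137)) (.one (nat_lit 0x100200300400600b011600802c456822870)) (.one (nat_lit 0x200000100400600b011200804c816022611))) (.br (Nat.shiftLeft (nat_lit 0x2000003) (nat_lit 112)) (.one (nat_lit 0x200000200400600b011400804c816022611)) (.br (Nat.shiftLeft (nat_lit 0x3) (nat_lit 136)) (.one (nat_lit 0x200000300400600b011600804c816022611)) (.one (nat_lit 0x300000100400600b011200806cc16022611))))) (.br (Nat.shiftLeft (nat_lit 0x1) (nat_lit 138)) (.br (Nat.shiftLeft (nat_lit 0x3000003) (nat_lit 112)) (.one (nat_lit 0x300000200400600b011400806cc16022611)) (.one (nat_lit 0x300000300400600b011600806cc16022611))) (.br (Nat.shiftLeft (nat_lit 0x2000001) (nat_lit 113)) (.one (nat_lit 0x400000100400600b011200808d016022611)) (.br (Nat.shiftLeft (nat_lit 0x4000003) (nat_lit 112)) (.one (nat_lit 0x400000200400600b011400808d016022611))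 (.one (nat_lit 0x400000300400600b011600808d016022611))))))
def t213 : k213.all (jb2 57 fl b0) = true := by decide +kernel
noncomputable def k214 : KT := (.br (Nat.shiftLeft (nat_lit 0x2800001) (nat_lit 113)) (.one (nat_lit 0x500000100400600b01120080ad416022611)) (.br (Nat.shiftLeft (nat_lit 0x5000003) (nat_lit 112)) (.one (nat_lit 0x500000200400600b01140080ad416022611)) (.one (nat_lit 0x500000300400600b01160080ad416022611))))
def t214 : k214.all (jb2 57 fl b0) = true := by decide +kernel
noncomputable def k215 : KT := (.br (Nat.shiftLeft (nat_lit 0x3000001) (nat_lit 113)) (.one (nat_lit 0x600000100400600b01120080cd816022611)) (.one (nat_lit 0x600000200400600b01140080cd816022611)))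
def t215 : k215.all (jb2 57 fl b0) = true := by decide +kernel
noncomputable def k216 : KT := (.br (Nat.shiftLeft (nat_lit 0x7) (nat_lit 136)) (.one (nat_lit 0x600000300400600b01160080cd816022611)) (.one (nat_lit 0x700000100400600b01120080edc16022611)))
noncomputable def b217 : BT := .node (nat_lit 0x1) (nat_lit 0x9636da13a8003a99000ab7810008800028) .leaf .leaf
def t216 : k216.all (jb2 57 fl b217) = true := by decide +kernel
noncomputable def k217 : KT := (.br (Nat.shiftLeft (nat_lit 0x7000003) (nat_lit 112)) (.one (nat_lit 0x700000200400600b01140080edc16022611)) (.one (nat_lit 0x700000300400600b01160080edc16022611)))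
def t217 : k217.all (jb2 57 fl b0) = true := by decide +kernel
noncomputable def k218 : KT := (.br (Nat.shiftLeft (nat_lit 0x4000001) (nat_lit 113)) (.one (nat_lit 0x800000100400600b011200810e016022611)) (.br (Nat.shiftLeft (nat_lit 0x8000003) (nat_lit 112)) (.one (nat_lit 0x800000200400600b011400810e016022611)) (.one (nat_lit 0x800000300400600b011600810e016022611))))
def t218 : k218.all (jb2 57 fl b0) = true := by decide +kernel
noncomputable def k219 : KT := (.br (Nat.shiftLeft (nat_lit 0x9000003) (nat_lit 112)) (.br (Nat.shiftLeft (nat_lit 0x4800001) (nat_lit 113)) (.one (nat_lit 0x900000100400600b011200812e416022611)) (.one (nat_lit 0x900000200400600b011400812e416022611))) (.br (Nat.shiftLeft (nat_lit 0x5) (nat_lit 137)) (.one (nat_lit 0x900000300400600b011600812e416022611)) (.one (nat_lit 0xa00000100400600b011200814e816022611))))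
noncomputable def b220 : BT := .node (nat_lit 0xb) (nat_lit 0x27512fc9d2001d2e80065b20ed9a4e1270001d4c00055ba0cb193a49d4db249ba58c0032d8000ca78003a98000ac6420026a0026a0026a0020b001ab001ab001ab001ab001ab001ab000f0000f0) .leaf .leaf
def t219 : k219.all (jb2 57 fl b220) = true := by decide +kernel
noncomputable def k220 : KT := (.br (Nat.shiftLeft (nat_lit 0x1) (nat_lit 149)) (.br (Nat.shiftLeft (nat_lit 0xb000003) (nat_lit 112)) (.br (Nat.shiftLeft (nat_lit 0xb) (nat_lit 136)) (.br (Nat.shiftLeft (nat_lit 0xa000003) (nat_lit 112)) (.one (nat_lit 0xa00000200400600b011400814e816022611)) (.one (nat_lit 0xa00000300400600b011600814e816022611))) (.br (Nat.shiftLeft (nat_lit 0x5800001) (nat_lit 113)) (.one (nat_lit 0xb00000100400600b011200816ec16022611)) (.one (nat_lit 0xb00000200400600b011400816ec16022611)))) (.br (Nat.shiftLeft (nat_lit 0x1000001003) (nat_lit 112)) (.br (Nat.shiftLeft (nat_lit 0x1) (nat_lit 148)) (.one (nat_lit 0xb00000300400600b011600816ec16022611)) (.one (nat_lit 0x100000100200400600b011402840c036422711))) (.br (Nat.shiftLeft (nat_lit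 0x800001) (nat_lit 125)) (.one (nat_lit 0x100000100300400600b011602840c036422711)) (.one (nat_lit 0x100000200300400600b011602840c056822711))))) (.br (Nat.shiftLeft (nat_lit 0x3000001003) (nat_lit 112)) (.br (Nat.shiftLeft (nat_lit 0x1000001) (nat_lit 125)) (.br (Nat.shiftLeft (nat_lit 0x2000001003) (nat_lit 112)) (.one (nat_lit 0x200000100200400600b011404880c036422711)) (.one (nat_lit 0x200000100300400600b011604880c036422711))) (.br (Nat.shiftLeft (nat_lit 0x3) (nat_lit 148)) (.one (nat_lit 0x200000200300400600b011604880c056822711)) (.one (nat_lit 0x300000100200400600b0114068c0c036422711)))) (.br (Nat.shiftLeft (nat_lit 0x1) (nat_lit 150)) (.br (Nat.shiftLeft (nat_lit 0x1800001) (nat_lit 125)) (.one (nat_lit 0x300000100300400600b0116068c0c036422711)) (.one (nat_lit 0x300000200300400600b0116068c0c056822711))) (.br (Nat.shiftLeft (nat_lit 0x4000001003) (nat_lit 112)) (.one (nat_lit 0x400000100200400600b011408900c036422711)) (.br (Nat.shiftLeft (nat_lit 0x2000001) (nat_lit 125)) (.one (nat_lit 0x400000100300400600b011608900c036422711)) (.one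 (nat_lit 0x400000200300400600b011608900c056822711)))))))
def t220 : k220.all (jb2 57 fl b0) = true := by decide +kernel
noncomputable def k221 : KT := (.br (Nat.shiftLeft (nat_lit 0x5000001003) (nat_lit 112)) (.one (nat_lit 0x500000100200400600b01140a940c036422711)) (.br (Nat.shiftLeft (nat_lit 0x2800001) (nat_lit 125)) (.one (nat_lit 0x500000100300400600b01160a940c036422711)) (.one (nat_lit 0x500000200300400600b01160a940c056822711))))
def t221 : k221.all (jb2 57 fl b0) = true := by decide +kernel
noncomputable def k222 : KT := (.br (Nat.shiftLeft (nat_lit 0x3000001) (nat_lit 125)) (.br (Nat.shiftLeft (nat_lit 0x6000001003) (nat_lit 112)) (.one (nat_lit 0x600000100200400600b01140c980c036422711)) (.one (nat_lit 0x600000100300400600b01160c980c036422711))) (.br (Nat.shiftLeft (nat_lit 0x7) (nat_lit 148)) (.one (nat_lit 0x600000200300400600b01160c980c056822711)) (.one (nat_lit 0x700000100200400600b01140e9c0c036422711))))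
def t222 : k222.all (jb2 57 fl b0) = true := by decide +kernel
noncomputable def k223 : KT := (.br (Nat.shiftLeft (nat_lit 0x4000001) (nat_lit 125)) (.br (Nat.shiftLeft (nat_lit 0x1) (nat_lit 151)) (.br (Nat.shiftLeft (nat_lit 0x3800001) (nat_lit 125)) (.one (nat_lit 0x700000100300400600b01160e9c0c036422711)) (.one (nat_lit 0x700000200300400600b01160e9c0c056822711))) (.br (Nat.shiftLeft (nat_lit 0x8000001003) (nat_lit 112)) (.one (nat_lit 0x800000100200400600b011410a00c036422711)) (.one (nat_lit 0x800000100300400600b011610a00c036422711)))) (.br (Nat.shiftLeft (nat_lit 0x9000001003) (nat_lit 112)) (.br (Nat.shiftLeft (nat_lit 0x9) (nat_lit 148)) (.one (nat_lit 0x800000200300400600b011610a00c056822711)) (.one (nat_lit 0x900000100200400600b011412a40c036422711))) (.br (Nat.shiftLeft (nat_lit 0x4800001) (nat_lit 125)) (.one (nat_lit 0x900000100300400600b011612a40c036422711)) (.one (nat_lit 0x900000200300400600b011612a40c056822711)))))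
def t223 : k223.all (jb2 57 fl b0) = true := by decide +kernel
noncomputable def k224 : KT := (.br (Nat.shiftLeft (nat_lit 0xb) (nat_lit 148)) (.br (Nat.shiftLeft (nat_lit 0xa000001003) (nat_lit 112)) (.one (nat_lit 0xa00000100200400600b011414a80c036422711)) (.br (Nat.shiftLeft (nat_lit 0x5000001) (nat_lit 125)) (.one (nat_lit 0xa00000100300400600b011614a80c036422711)) (.one (nat_lit 0xa00000200300400600b011614a80c056822711)))) (.br (Nat.shiftLeft (nat_lit 0xb000001003) (nat_lit 112)) (.one (nat_lit 0xb00000100200400600b011416ac0c036422711)) (.br (Nat.shiftLeft (nat_lit 0x5800001) (nat_lit 125)) (.one (nat_lit 0xb00000100300400600b011616ac0c036422711)) (.one (nat_lit 0xb00000200300400600b011616ac0c056822711)))))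
def t224 : k224.all (jb2 57 fl b0) = true := by decide +kernel
noncomputable def s11 : KT := (.br (nat_lit 0x700000100400600b01120080edc16022611) (.br (nat_lit 0x100000300400600b011600802c416022611) (.br (nat_lit 0x600000400600b011000800c0d7822511) k210 (.br (nat_lit 0x800000400600b011000800c118022511) k211 k212)) (.br (nat_lit 0x500000300400600b01160080ad416022611) (.br (nat_lit 0x400000300400600b011600808d016022611) k213 k214) (.br (nat_lit 0x600000200400600b01140080cd816022611) k215 k216))) (.br (nat_lit 0x400000200300400600b011608900c056822711) (.br (nat_lit 0x800000300400600b011600810e016022611) (.br (nat_lit 0x700000300400600b01160080edc16022611) k217 k218) (.br (nat_lit 0xa00000100400600b011200814e816022611) k219 k220)) (.br (nat_lit 0x700000100200400600b01140e9c0c036422711) (.br (nat_lit 0x500000200300400600b01160a940c056822711) k221 k222) (.br (nat_lit 0x900000200300400600b011612a40c056822711) k223 k224))))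
noncomputable def u11 : KT := (.one (nat_lit 0x400600b011000800c016022540))
def w11 : u11.all (wj 57 s11) = true := by decide +kernel
def o11 : OkW 57 (jb2 57 fl) u11 := .lift s11 _ (.br _ _ _ (.br _ _ _ (.br _ _ _ (.leaf b0 k210 t210) (.br _ _ _ (.leaf b212 k211 t211) (.leaf b213 k212 t212))) (.br _ _ _ (.br _ _ _ (.leaf b0 k213 t213) (.leaf b0 k214 t214)) (.br _ _ _ (.leaf b0 k215 t215) (.leaf b217 k216 t216)))) (.br _ _ _ (.br _ _ _ (.br _ _ _ (.leaf b0 k217 t217) (.leaf b0 k218 t218)) (.br _ _ _ (.leaf b220 k219 t219) (.leaf b0 k220 t220))) (.br _ _ _ (.br _ _ _ (.leaf b0 k221 t221) (.leaf b0 k222 t222)) (.br _ _ _ (.leaf b0 k223 t223) (.leaf b0 k224 t224))))) w11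
noncomputable def k225 : KT := (.br (Nat.shiftLeft (nat_lit 0x200400600b013) (nat_lit 64)) (.br (Nat.shiftLeft (nat_lit 0x2003006007) (nat_lit 65)) (.br (Nat.shiftLeft (nat_lit 0x400600b013) (nat_lit 64)) (.one (nat_lit 0x400600b012000800c016025500)) (.br (Nat.shiftLeft (nat_lit 0x1001803) (nat_lit 78)) (.one (nat_lit 0x400600b013000800c016027500)) (.one (nat_lit 0x400600c00d000800c01801b500)))) (.br (Nat.shiftLeft (nat_lit 0x100400600b013) (nat_lit 64)) (.br (Nat.shiftLeft (nat_lit 0x1) (nat_lit 112)) (.one (nat_lit 0x400600c00e000800c01801d500)) (.one (nat_lit 0x100400600b012200800c016025600))) (.br (Nat.shiftLeft (nat_lit 0x1) (nat_lit 113)) (.one (nat_lit 0x100400600b013200800c016027600)) (.one (nat_lit 0x200400600b012400800c016025600))))) (.br (Nat.shiftLeft (nat_lit 0x1) (nat_lit 124)) (.br (Nat.shiftLeft (nat_lit 0x3) (nat_lit 112)) (.one (nat_lit 0x200400600b013400800c016027600)) (.br (Nat.shiftLeft (nat_lit 0x300400600b013) (nat_lit 64)) (.one (nat_lit 0x300400600b012600800c016025600)) (.one (nat_lit 0x300400600b013600800c016027600))))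 (.br (Nat.shiftLeft (nat_lit 0x801) (nat_lit 113)) (.br (Nat.shiftLeft (nat_lit 0x100000400600b013) (nat_lit 64)) (.one (nat_lit 0x100000400600b012000800c036424511)) (.one (nat_lit 0x100000400600b013000800c036426511))) (.br (Nat.shiftLeft (nat_lit 0x100200400600b013) (nat_lit 64)) (.one (nat_lit 0x100200400600b012400800c036425700)) (.one (nat_lit 0x100200400600b013400800c036426760))))))
def t225 : k225.all (jb2 57 fl b0) = true := by decide +kernel
noncomputable def k226 : KT := (.one (nat_lit 0x100300400600b012600800c036424760))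
def t226 : k226.all (jb2 57 fl b0) = true := by decide +kernel
noncomputable def k227 : KT := (.br (Nat.shiftLeft (nat_lit 0x1) (nat_lit 125)) (.one (nat_lit 0x100300400600b013600800c036426760)) (.br (Nat.shiftLeft (nat_lit 0x200000400600b013) (nat_lit 64)) (.one (nat_lit 0x200000400600b012000800c056824511)) (.one (nat_lit 0x200000400600b013000800c056826511))))
def t227 : k227.all (jb2 57 fl b0) = true := by decide +kernel
noncomputable def k228 : KT := (.one (nat_lit 0x200300400600b012600800c056824760))
def t228 : k228.all (jb2 57 fl b0) = true := by decide +kernel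
noncomputable def k229 : KT := (.br (Nat.shiftLeft (nat_lit 0x1) (nat_lit 126)) (.br (Nat.shiftLeft (nat_lit 0x3) (nat_lit 124)) (.one (nat_lit 0x200300400600b013600800c056826760)) (.br (Nat.shiftLeft (nat_lit 0x300000400600b013) (nat_lit 64)) (.one (nat_lit 0x300000400600b012000800c076c24511)) (.one (nat_lit 0x300000400600b013000800c076c26511)))) (.br (Nat.shiftLeft (nat_lit 0x400000400600b013) (nat_lit 64)) (.one (nat_lit 0x400000400600b012000800c097024511)) (.br (Nat.shiftLeft (nat_lit 0x5) (nat_lit 124)) (.one (nat_lit 0x400000400600b013000800c097026511)) (.one (nat_lit 0x500000400600b012000800c0b7424511)))))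
def t229 : k229.all (jb2 57 fl b0) = true := by decide +kernel
noncomputable def k230 : KT := (.br (Nat.shiftLeft (nat_lit 0x3) (nat_lit 125)) (.one (nat_lit 0x500000400600b013000800c0b7426511)) (.br (Nat.shiftLeft (nat_lit 0x600000400600b013) (nat_lit 64)) (.one (nat_lit 0x600000400600b012000800c0d7824511)) (.one (nat_lit 0x600000400600b013000800c0d7826511))))
def t230 : k230.all (jb2 57 fl b0) = true := by decide +kernel
noncomputable def k231 : KT := (.br (Nat.shiftLeft (nat_lit 0x700000400600b013) (nat_lit 64)) (.one (nat_lit 0x700000400600b012000800c0f7c24511)) (.br (Nat.shiftLeft (nat_lit 0x1) (nat_lit 127)) (.one (nat_lit 0x700000400600b013000800c0f7c26511)) (.one (nat_lit 0x800000400600b012000800c118024511))))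
def t231 : k231.all (jb2 57 fl b0) = true := by decide +kernel
noncomputable def k232 : KT := (.br (Nat.shiftLeft (nat_lit 0x900000400600b013) (nat_lit 64)) (.br (Nat.shiftLeft (nat_lit 0x9) (nat_lit 124)) (.one (nat_lit 0x800000400600b013000800c118026511)) (.one (nat_lit 0x900000400600b012000800c138424511))) (.br (Nat.shiftLeft (nat_lit 0x5) (nat_lit 125)) (.one (nat_lit 0x900000400600b013000800c138426511)) (.br (Nat.shiftLeft (nat_lit 0xa00000400600b013) (nat_lit 64)) (.one (nat_lit 0xa00000400600b012000800c158824511)) (.one (nat_lit 0xa00000400600b013000800c158826511)))))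
noncomputable def b233 : BT := .node (nat_lit 0xb) (nat_lit 0x25892744bf000e980002adf0658d2709646d9a4dc98093727513a4003a98000cb6400329c000ab84003a99000ac68300266002660020600206002060020600206002060020600206000f0000f0) .leaf .leaf
def t232 : k232.all (jb2 57 fl b233) = true := by decide +kernel
noncomputable def k233 : KT := (.br (Nat.shiftLeft (nat_lit 0x200000300400600b013) (nat_lit 64)) (.br (Nat.shiftLeft (nat_lit 0x1000003) (nat_lit 112)) (.br (Nat.shiftLeft (nat_lit 0x100000100400600b013) (nat_lit 64)) (.br (Nat.shiftLeft (nat_lit 0xb00000400600b013) (nat_lit 64)) (.one (nat_lit 0xb00000400600b012000800c178c24511)) (.br (Nat.shiftLeft (nat_lit 0x1) (nat_lit 136)) (.one (nat_lit 0xb00000400600b013000800c178c26511)) (.one (nat_lit 0x100000100400600b012200802c416024611)))) (.br (Nat.shiftLeft (nat_lit 0x800001) (nat_lit 113)) (.one (nat_lit 0x100000100400600b013200802c416026611)) (.br (Nat.shiftLeft (nat_lit 0x100000200400600b013) (nat_lit 64)) (.one (nat_lit 0x100000200400600b012400802c416024611)) (.one (nat_lit 0x100000200400600b013400802c416026611)))))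 (.br (Nat.shiftLeft (nat_lit 0x200000100400600b013) (nat_lit 64)) (.br (Nat.shiftLeft (nat_lit 0x100000300400600b013) (nat_lit 64)) (.one (nat_lit 0x100000300400600b012600802c416024611)) (.br (Nat.shiftLeft (nat_lit 0x1) (nat_lit 137)) (.one (nat_lit 0x100000300400600b013600802c416026611)) (.one (nat_lit 0x200000100400600b012200804c816024611)))) (.br (Nat.shiftLeft (nat_lit 0x200000200400600b013) (nat_lit 64)) (.br (Nat.shiftLeft (nat_lit 0x1000001) (nat_lit 113)) (.one (nat_lit 0x200000100400600b013200804c816026611)) (.one (nat_lit 0x200000200400600b012400804c816024611))) (.br (Nat.shiftLeft (nat_lit 0x2000003) (nat_lit 112)) (.one (nat_lit 0x200000200400600b013400804c816026611)) (.one (nat_lit 0x200000300400600b012600804c816024611)))))) (.br (Nat.shiftLeft (nat_lit 0x300000300400600b013) (nat_lit 64)) (.br (Nat.shiftLeft (nat_lit 0x1800001) (nat_lit 113)) (.br (Nat.shiftLeft (nat_lit 0x3) (nat_lit 136)) (.one (nat_lit 0x200000300400600b013600804c816026611)) (.br (Nat.shiftLeft (nat_lit 0x300000100400600b013) (nat_lit 64)) (.one (nat_lit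 0x300000100400600b012200806cc16024611)) (.one (nat_lit 0x300000100400600b013200806cc16026611)))) (.br (Nat.shiftLeft (nat_lit 0x300000200400600b013) (nat_lit 64)) (.one (nat_lit 0x300000200400600b012400806cc16024611)) (.br (Nat.shiftLeft (nat_lit 0x3000003) (nat_lit 112)) (.one (nat_lit 0x300000200400600b013400806cc16026611)) (.one (nat_lit 0x300000300400600b012600806cc16024611))))) (.br (Nat.shiftLeft (nat_lit 0x2000001) (nat_lit 113)) (.br (Nat.shiftLeft (nat_lit 0x1) (nat_lit 138)) (.one (nat_lit 0x300000300400600b013600806cc16026611)) (.br (Nat.shiftLeft (nat_lit 0x400000100400600b013) (nat_lit 64)) (.one (nat_lit 0x400000100400600b012200808d016024611)) (.one (nat_lit 0x400000100400600b013200808d016026611)))) (.br (Nat.shiftLeft (nat_lit 0x4000003) (nat_lit 112)) (.br (Nat.shiftLeft (nat_lit 0x400000200400600b013) (nat_lit 64)) (.one (nat_lit 0x400000200400600b012400808d016024611)) (.one (nat_lit 0x400000200400600b013400808d016026611))) (.br (Nat.shiftLeft (nat_lit 0x400000300400600b013) (nat_lit 64)) (.one (nat_lit 0x400000300400600b012600808d016024611))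 (.one (nat_lit 0x400000300400600b013600808d016026611)))))))
def t233 : k233.all (jb2 57 fl b0) = true := by decide +kernel
noncomputable def k234 : KT := (.br (Nat.shiftLeft (nat_lit 0x2800001) (nat_lit 113)) (.br (Nat.shiftLeft (nat_lit 0x500000100400600b013) (nat_lit 64)) (.one (nat_lit 0x500000100400600b01220080ad416024611)) (.one (nat_lit 0x500000100400600b01320080ad416026611))) (.br (Nat.shiftLeft (nat_lit 0x500000200400600b013) (nat_lit 64)) (.one (nat_lit 0x500000200400600b01240080ad416024611)) (.one (nat_lit 0x500000200400600b01340080ad416026611))))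
def t234 : k234.all (jb2 57 fl b0) = true := by decide +kernel
noncomputable def k235 : KT := (.br (Nat.shiftLeft (nat_lit 0x500000300400600b013) (nat_lit 64)) (.one (nat_lit 0x500000300400600b01260080ad416024611)) (.br (Nat.shiftLeft (nat_lit 0x3) (nat_lit 137)) (.one (nat_lit 0x500000300400600b01360080ad416026611)) (.one (nat_lit 0x600000100400600b01220080cd816024611))))
def t235 : k235.all (jb2 57 fl b0) = true := by decide +kernel
noncomputable def k236 : KT := (.br (Nat.shiftLeft (nat_lit 0x3000001) (nat_lit 113)) (.one (nat_lit 0x600000100400600b01320080cd816026611)) (.br (Nat.shiftLeft (nat_lit 0x600000200400600b013) (nat_lit 64)) (.one (nat_lit 0x600000200400600b01240080cd816024611)) (.one (nat_lit 0x600000200400600b01340080cd816026611))))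
def t236 : k236.all (jb2 57 fl b0) = true := by decide +kernel
noncomputable def k237 : KT := (.br (Nat.shiftLeft (nat_lit 0x7) (nat_lit 136)) (.br (Nat.shiftLeft (nat_lit 0x600000300400600b013) (nat_lit 64)) (.one (nat_lit 0x600000300400600b01260080cd816024611)) (.one (nat_lit 0x600000300400600b01360080cd816026611))) (.br (Nat.shiftLeft (nat_lit 0x700000100400600b013) (nat_lit 64)) (.one (nat_lit 0x700000100400600b01220080edc16024611)) (.one (nat_lit 0x700000100400600b01320080edc16026611))))
def t237 : k237.all (jb2 57 fl b0) = true := by decide +kernel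
noncomputable def k238 : KT := (.br (Nat.shiftLeft (nat_lit 0x7000003) (nat_lit 112)) (.br (Nat.shiftLeft (nat_lit 0x700000200400600b013) (nat_lit 64)) (.one (nat_lit 0x700000200400600b01240080edc16024611)) (.one (nat_lit 0x700000200400600b01340080edc16026611))) (.br (Nat.shiftLeft (nat_lit 0x700000300400600b013) (nat_lit 64)) (.one (nat_lit 0x700000300400600b01260080edc16024611)) (.br (Nat.shiftLeft (nat_lit 0x1) (nat_lit 139)) (.one (nat_lit 0x700000300400600b01360080edc16026611)) (.one (nat_lit 0x800000100400600b012200810e016024611)))))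
def t238 : k238.all (jb2 57 fl b0) = true := by decide +kernel
noncomputable def k239 : KT := (.br (Nat.shiftLeft (nat_lit 0x8000003) (nat_lit 112)) (.br (Nat.shiftLeft (nat_lit 0x4000001) (nat_lit 113)) (.one (nat_lit 0x800000100400600b013200810e016026611)) (.br (Nat.shiftLeft (nat_lit 0x800000200400600b013) (nat_lit 64)) (.one (nat_lit 0x800000200400600b012400810e016024611)) (.one (nat_lit 0x800000200400600b013400810e016026611)))) (.br (Nat.shiftLeft (nat_lit 0x800000300400600b013) (nat_lit 64)) (.one (nat_lit 0x800000300400600b012600810e016024611)) (.br (Nat.shiftLeft (nat_lit 0x9) (nat_lit 136)) (.one (nat_lit 0x800000300400600b013600810e016026611)) (.one (nat_lit 0x900000100400600b012200812e416024611)))))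
def t239 : k239.all (jb2 57 fl b0) = true := by decide +kernel
noncomputable def k240 : KT := (.br (Nat.shiftLeft (nat_lit 0xa00000100400600b013) (nat_lit 64)) (.br (Nat.shiftLeft (nat_lit 0x9000003) (nat_lit 112)) (.br (Nat.shiftLeft (nat_lit 0x4800001) (nat_lit 113)) (.one (nat_lit 0x900000100400600b013200812e416026611)) (.br (Nat.shiftLeft (nat_lit 0x900000200400600b013) (nat_lit 64)) (.one (nat_lit 0x900000200400600b012400812e416024611)) (.one (nat_lit 0x900000200400600b013400812e416026611)))) (.br (Nat.shiftLeft (nat_lit 0x900000300400600b013) (nat_lit 64)) (.one (nat_lit 0x900000300400600b012600812e416024611)) (.br (Nat.shiftLeft (nat_lit 0x5) (nat_lit 137)) (.one (nat_lit 0x900000300400600b013600812e416026611)) (.one (nat_lit 0xa00000100400600b012200814e816024611))))) (.br (Nat.shiftLeft (nat_lit 0xa000003) (nat_lit 112)) (.br (Nat.shiftLeft (nat_lit 0x5000001) (nat_lit 113)) (.one (nat_lit 0xa00000100400600b013200814e816026611)) (.br (Nat.shiftLeft (nat_lit 0xa00000200400600b013) (nat_lit 64)) (.one (nat_lit 0xa00000200400600b012400814e816024611))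 (.one (nat_lit 0xa00000200400600b013400814e816026611)))) (.br (Nat.shiftLeft (nat_lit 0xa00000300400600b013) (nat_lit 64)) (.one (nat_lit 0xa00000300400600b012600814e816024611)) (.br (Nat.shiftLeft (nat_lit 0xb) (nat_lit 136)) (.one (nat_lit 0xa00000300400600b013600814e816026611)) (.one (nat_lit 0xb00000100400600b012200816ec16024611))))))
def t240 : k240.all (jb2 57 fl b0) = true := by decide +kernel
noncomputable def k241 : KT := (.br (Nat.shiftLeft (nat_lit 0x1) (nat_lit 149)) (.br (Nat.shiftLeft (nat_lit 0xb000003) (nat_lit 112)) (.br (Nat.shiftLeft (nat_lit 0x5800001) (nat_lit 113)) (.one (nat_lit 0xb00000100400600b013200816ec16026611)) (.br (Nat.shiftLeft (nat_lit 0xb00000200400600b013) (nat_lit 64)) (.one (nat_lit 0xb00000200400600b012400816ec16024611)) (.one (nat_lit 0xb00000200400600b013400816ec16026611)))) (.br (Nat.shiftLeft (nat_lit 0xb00000300400600b013) (nat_lit 64)) (.one (nat_lit 0xb00000300400600b012600816ec16024611)) (.br (Nat.shiftLeft (nat_lit 0x1) (nat_lit 148)) (.one (nat_lit 0xb00000300400600b013600816ec16026611)) (.one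 (nat_lit 0x100000100200400600b012402840c036424711))))) (.br (Nat.shiftLeft (nat_lit 0x5) (nat_lit 148)) (.br (Nat.shiftLeft (nat_lit 0x3) (nat_lit 148)) (.one (nat_lit 0x200000100200400600b012404880c036424711)) (.br (Nat.shiftLeft (nat_lit 0x1) (nat_lit 150)) (.one (nat_lit 0x300000100200400600b0124068c0c036424711)) (.one (nat_lit 0x400000100200400600b012408900c036424711)))) (.br (Nat.shiftLeft (nat_lit 0x3) (nat_lit 149)) (.one (nat_lit 0x500000100200400600b01240a940c036424711)) (.br (Nat.shiftLeft (nat_lit 0x7) (nat_lit 148)) (.one (nat_lit 0x600000100200400600b01240c980c036424711)) (.one (nat_lit 0x700000100200400600b01240e9c0c036424711))))))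
def t241 : k241.all (jb2 57 fl b0) = true := by decide +kernel
noncomputable def k242 : KT := (.br (Nat.shiftLeft (nat_lit 0x5) (nat_lit 149)) (.br (Nat.shiftLeft (nat_lit 0x9) (nat_lit 148)) (.one (nat_lit 0x800000100200400600b012410a00c036424711)) (.one (nat_lit 0x900000100200400600b012412a40c036424711))) (.br (Nat.shiftLeft (nat_lit 0xb) (nat_lit 148)) (.one (nat_lit 0xa00000100200400600b012414a80c036424711)) (.one (nat_lit 0xb00000100200400600b012416ac0c036424711))))
def t242 : k242.all (jb2 57 fl b0) = true := by decide +kernel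
noncomputable def s12 : KT := (.br (nat_lit 0x400000300400600b013600808d016026611) (.br (nat_lit 0x200300400600b012600800c056824760) (.br (nat_lit 0x100300400600b012600800c036424760) (.br (nat_lit 0x100200400600b013400800c036426760) k225 k226) (.br (nat_lit 0x200000400600b013000800c056826511) k227 k228)) (.br (nat_lit 0x600000400600b013000800c0d7826511) (.br (nat_lit 0x500000400600b012000800c0b7424511) k229 k230) (.br (nat_lit 0x800000400600b012000800c118024511) k231 (.br (nat_lit 0xa00000400600b013000800c158826511) k232 k233)))) (.br (nat_lit 0x700000100400600b01320080edc16026611) (.br (nat_lit 0x600000100400600b01220080cd816024611) (.br (nat_lit 0x500000200400600b01340080ad416026611) k234 k235) (.br (nat_lit 0x600000200400600b01340080cd816026611) k236 k237)) (.br (nat_lit 0x900000100400600b012200812e416024611) (.br (nat_lit 0x800000100400600b012200810e016024611) k238 k239) (.br (nat_lit 0xb00000100400600b012200816ec16024611) k240 (.br (nat_lit 0x700000100200400600b01240e9c0c036424711) k241 k242)))))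
noncomputable def u12 : KT := (.br (Nat.shiftLeft (nat_lit 0x1001803) (nat_lit 78)) (.br (Nat.shiftLeft (nat_lit 0x400600b013) (nat_lit 64)) (.one (nat_lit 0x400600b012000800c016024540)) (.one (nat_lit 0x400600b013000800c016026540))) (.br (Nat.shiftLeft (nat_lit 0x2003006007) (nat_lit 65)) (.one (nat_lit 0x400600c00d000800c01801b500)) (.one (nat_lit 0x400600c00e000800c01801d500))))
def w12 : u12.all (wj 57 s12) = true := by decide +kernel
def o12 : OkW 57 (jb2 57 fl) u12 := .lift s12 _ (.br _ _ _ (.br _ _ _ (.br _ _ _ (.br _ _ _ (.leaf b0 k225 t225) (.leaf b0 k226 t226)) (.br _ _ _ (.leaf b0 k227 t227) (.leaf b0 k228 t228))) (.br _ _ _ (.br _ _ _ (.leaf b0 k229 t229) (.leaf b0 k230 t230)) (.br _ _ _ (.leaf b0 k231 t231) (.br _ _ _ (.leaf b233 k232 t232) (.leaf b0 k233 t233))))) (.br _ _ _ (.br _ _ _ (.br _ _ _ (.leaf b0 k234 t234) (.leaf b0 k235 t235)) (.br _ _ _ (.leaf b0 k236 t236) (.leaf b0 k237 t237))) (.br _ _ _ (.br _ _ _ (.leaf b0 k238 t238) (.leaf b0 k239 t239)) (.br _ _ _ (.leaf b0 k240 t240) (.br _ _ _ (.leaf b0 k241 t241) (.leaf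 b0 k242 t242)))))) w12
noncomputable def k243 : KT := (.br (Nat.shiftLeft (nat_lit 0x1003) (nat_lit 112)) (.br (Nat.shiftLeft (nat_lit 0x3) (nat_lit 112)) (.br (Nat.shiftLeft (nat_lit 0x1) (nat_lit 112)) (.one (nat_lit 0x400600c00f000800c01801f500)) (.br (Nat.shiftLeft (nat_lit 0x1) (nat_lit 113)) (.one (nat_lit 0x100400600c00f200800c01801f600)) (.one (nat_lit 0x200400600c00f400800c01801f600)))) (.br (Nat.shiftLeft (nat_lit 0x1) (nat_lit 124)) (.one (nat_lit 0x300400600c00f600800c01801f600)) (.br (Nat.shiftLeft (nat_lit 0x801) (nat_lit 113)) (.one (nat_lit 0x100000400600c00f000800c03841e511)) (.one (nat_lit 0x100200400600c00f400800c03841f700))))) (.br (Nat.shiftLeft (nat_lit 0x3) (nat_lit 124)) (.br (Nat.shiftLeft (nat_lit 0x1) (nat_lit 125)) (.one (nat_lit 0x100300400600c00f600800c03841f700)) (.br (Nat.shiftLeft (nat_lit 0x1001) (nat_lit 113)) (.one (nat_lit 0x200000400600c00f000800c05881e511)) (.one (nat_lit 0x200300400600c00f600800c05881f700)))) (.br (Nat.shiftLeft (nat_lit 0x5) (nat_lit 124)) (.br (Nat.shiftLeft (nat_lit 0x1) (nat_lit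 126)) (.one (nat_lit 0x300000400600c00f000800c078c1e511)) (.one (nat_lit 0x400000400600c00f000800c09901e511))) (.br (Nat.shiftLeft (nat_lit 0x3) (nat_lit 125)) (.one (nat_lit 0x500000400600c00f000800c0b941e511)) (.one (nat_lit 0x600000400600c00f000800c0d981e511))))))
noncomputable def b244 : BT := .node (nat_lit 0x1) (nat_lit 0x6f0b6d097c5136da150c003a5a0008b8800421a000ad5c2000e300028) .leaf .leaf
def t243 : k243.all (jb2 57 fl b244) = true := by decide +kernel
noncomputable def k244 : KT := (.one (nat_lit 0x700000400600c00f000800c0f9c1e511))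
noncomputable def b245 : BT := .node (nat_lit 0x11) (nat_lit 0xdb325fa590003263000ac60196325f1454003a20000ac681963275a4dc0032dc000ca6c100288002880028800288002880028800288002880028800228001c800168001680016800168001680016800168) .leaf .leaf
def t244 : k244.all (jb2 57 fl b245) = true := by decide +kernel
noncomputable def k245 : KT := (.one (nat_lit 0x800000400600c00f000800c11a01e511))
noncomputable def b246 : BT := .node (nat_lit 0xb) (nat_lit 0x6d992f926e00194f80055b80d4349c13a8a8651525e258c9d44eb0010778002b1b000e96800329e000ea60002adf0e6449d69386d992f92c854327594500032db000c97800329f000ac60003a20000cb6430037b0037b0037b0037b0031b0031b0031b0031b0031b0031b00206000f0) .leaf .leaf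
def t245 : k245.all (jb2 57 fl b246) = true := by decide +kernel
noncomputable def k246 : KT := (.br (Nat.shiftLeft (nat_lit 0x5) (nat_lit 125)) (.one (nat_lit 0x900000400600c00f000800c13a41e511)) (.one (nat_lit 0xa00000400600c00f000800c15a81e511)))
noncomputable def b247 : BT := .node (nat_lit 0x2b) (nat_lit 0x1b644be25f12ec97e4be2a193ac976001d4c00045c8001d4c80065b4001d1080065b01ed993ac9d400196c80055be0cb212f897a54349c13a8003a98000aa880041dd000ac6829352751450003a99000cb64196449c24dc9764be25f000753000594e002753000596d852c696427580265b200196c832c64bc28aa58d26e963000e96c0032da000ea600032d80a4e097e4ea000ea64002b1a064d92729654b293ac9d69646d993a400ba98000cb680032d8000cb60013a99004ac643db26d992f9b6493a28a800753200117180084380011ad853a49784be6d9a58d2c6001d2e00065b4001d4c000563014b193ac9d696449c2590003a9a000cb60003a5c000cb64200b7d00a6700a6700a6700a070094c008ec00831007d1007d1007d1007d1007d1007d1007d1007d1007d1007d1007d1007d100716007160071600716007160071600716006b6006b6005a0005a0005a0004e50042b0042b003700037000370003700037000370003700037000370) .leaf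 .leaf
def t246 : k246.all (jb2 57 fl b247) = true := by decide +kernel
noncomputable def k247 : KT := (.br (Nat.shiftLeft (nat_lit 0x1) (nat_lit 136)) (.br (Nat.shiftLeft (nat_lit 0x3) (nat_lit 126)) (.one (nat_lit 0xb00000400600c00f000800c17ac1e511)) (.one (nat_lit 0xc00000400600c00f000800c19b01e511))) (.br (Nat.shiftLeft (nat_lit 0x800001) (nat_lit 113)) (.one (nat_lit 0x100000100400600c00f200802c41801e611)) (.br (Nat.shiftLeft (nat_lit 0x1000003) (nat_lit 112)) (.one (nat_lit 0x100000200400600c00f400802c41801e611)) (.one (nat_lit 0x100000300400600c00f600802c41801e611)))))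
def t247 : k247.all (jb2 57 fl b0) = true := by decide +kernel
noncomputable def k248 : KT := (.br (Nat.shiftLeft (nat_lit 0x3) (nat_lit 136)) (.br (Nat.shiftLeft (nat_lit 0x1000001) (nat_lit 113)) (.br (Nat.shiftLeft (nat_lit 0x1) (nat_lit 137)) (.one (nat_lit 0x100200300400600c00f600802c45881e870)) (.one (nat_lit 0x200000100400600c00f200804c81801e611))) (.br (Nat.shiftLeft (nat_lit 0x2000003) (nat_lit 112)) (.one (nat_lit 0x200000200400600c00f400804c81801e611)) (.one (nat_lit 0x200000300400600c00f600804c81801e611)))) (.br (Nat.shiftLeft (nat_lit 0x3000003) (nat_lit 112)) (.br (Nat.shiftLeft (nat_lit 0x1800001) (nat_lit 113)) (.one (nat_lit 0x300000100400600c00f200806cc1801e611)) (.one (nat_lit 0x300000200400600c00f400806cc1801e611))) (.br (Nat.shiftLeft (nat_lit 0x1) (nat_lit 138)) (.one (nat_lit 0x300000300400600c00f600806cc1801e611)) (.one (nat_lit 0x400000100400600c00f200808d01801e611)))))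
def t248 : k248.all (jb2 57 fl b0) = true := by decide +kernel
noncomputable def k249 : KT := (.br (Nat.shiftLeft (nat_lit 0x4000003) (nat_lit 112)) (.one (nat_lit 0x400000200400600c00f400808d01801e611)) (.br (Nat.shiftLeft (nat_lit 0x5) (nat_lit 136)) (.one (nat_lit 0x400000300400600c00f600808d01801e611)) (.one (nat_lit 0x500000100400600c00f20080ad41801e611))))
noncomputable def b250 : BT := .node (nat_lit 0x1) (nat_lit 0x5434b19454003a59000cb6410008700028) .leaf .leaf
def t249 : k249.all (jb2 57 fl b250) = true := by decide +kernel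
noncomputable def k250 : KT := (.br (Nat.shiftLeft (nat_lit 0x5000003) (nat_lit 112)) (.one (nat_lit 0x500000200400600c00f40080ad41801e611)) (.one (nat_lit 0x500000300400600c00f60080ad41801e611)))
def t250 : k250.all (jb2 57 fl b0) = true := by decide +kernel
noncomputable def k251 : KT := (.one (nat_lit 0x600000100400600c00f20080cd81801e611))
noncomputable def b252 : BT := .node (nat_lit 0x1) (nat_lit 0x4b1b6d0a8696325f24d4003a98000ad5c0032de000ca642000e300028) .leaf .leaf
def t251 : k251.all (jb2 57 fl b252) = true := by decide +kernel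
noncomputable def k252 : KT := (.one (nat_lit 0x600000200400600c00f40080cd81801e611))
noncomputable def b253 : BT := .node (nat_lit 0x17) (nat_lit 0x2b8a4d897c001cee00065ba0c9a9458a86001d2d000572c0ef0b6cc9d6de14b1950c003299000ab800032d8000ad5c296328a95c8003a1b000ae581003ba003ba003ba0035b0035b0035b0035b002fb002fb002fb002fb002fb002fb002fb002fb002fb002fb0024000240001e0001e0001e0001e0001e0) .leaf .leaf
def t252 : k252.all (jb2 57 fl b253) = true := by decide +kernel
noncomputable def k253 : KT := (.one (nat_lit 0x600000300400600c00f60080cd81801e611))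
def t253 : k253.all (jb2 57 fl b0) = true := by decide +kernel
noncomputable def k254 : KT := (.one (nat_lit 0x700000100400600c00f20080edc1801e611))
noncomputable def b255 : BT := .node (nat_lit 0xb) (nat_lit 0x1b664be2a180073c40011cc032c8db427580084b200118f83b664eb2a1a645b684eb000e880002397000e968002adf0a4d89d44e84c8b6d097c54349b145400b317000cb60003a5a002ab7c0141db004ad5c300381003810032100321002c1002c1002c1002c1002c10020600206000f0) .leaf .leaf
def t254 : k254.all (jb2 57 fl b255) = true := by decide +kernel
noncomputable def k255 : KT := (.br (Nat.shiftLeft (nat_lit 0x7000003) (nat_lit 112)) (.one (nat_lit 0x700000200400600c00f40080edc1801e611)) (.one (nat_lit 0x700000300400600c00f60080edc1801e611)))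
noncomputable def b256 : BT := .node (nat_lit 0xb) (nat_lit 0x126c4bb275b6cc97c963000e968002b1d000ca7c002b180ab924d89d4de14b193ac00419c000ac70003299000ab8029632759458003a5d000ac681002c5002c50020a0020a0015000150001500015000150000f0000f0000f0) .leaf .leaf
def t255 : k255.all (jb2 57 fl b256) = true := by decide +kernel
noncomputable def k256 : KT := (.one (nat_lit 0x800000100400600c00f200810e01801e611))
noncomputable def b257 : BT := .node (nat_lit 0xb) (nat_lit 0x36c897c964000ca7c002b190658db684be49b92ec9d6db36d992f8003a99000aa88003a5a000ac700032d8000ab80396349b9454003a5b000ad5c1002c60026600266002660026600150001500015000150000f0000f0000f0) .leaf .leaf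
def t256 : k256.all (jb2 57 fl b257) = true := by decide +kernel
noncomputable def k257 : KT := (.br (Nat.shiftLeft (nat_lit 0x8000003) (nat_lit 112)) (.one (nat_lit 0x800000200400600c00f400810e01801e611)) (.one (nat_lit 0x800000300400600c00f600810e01801e611)))
noncomputable def b258 : BT := .node (nat_lit 0x1) (nat_lit 0x6d936cca2b231275b6cc003a980008d68002ae0000ab642000e300028) .leaf .leaf
def t257 : k257.all (jb2 57 fl b258) = true := by decide +kernel
noncomputable def k258 : KT := (.br (Nat.shiftLeft (nat_lit 0x4800001) (nat_lit 113)) (.one (nat_lit 0x900000100400600c00f200812e41801e611)) (.br (Nat.shiftLeft (nat_lit 0x9000003) (nat_lit 112)) (.one (nat_lit 0x900000200400600c00f400812e41801e611)) (.one (nat_lit 0x900000300400600c00f600812e41801e611))))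
noncomputable def b259 : BT := .node (nat_lit 0xb) (nat_lit 0x49c12f926e00196d00065b00ed924e12c8db36d99454003a5d000ac640032d8000ad5c29352a1a590003317000cb641db327413a80032d8000ac681002cb002cb0026b001b0001b0001b000150001500015000150000f0000f0) .leaf .leaf
def t258 : k258.all (jb2 57 fl b259) = true := by decide +kernel
noncomputable def k259 : KT := (.br (Nat.shiftLeft (nat_lit 0xb) (nat_lit 136)) (.br (Nat.shiftLeft (nat_lit 0x5000001) (nat_lit 113)) (.one (nat_lit 0xa00000100400600c00f200814e81801e611)) (.br (Nat.shiftLeft (nat_lit 0xa000003) (nat_lit 112)) (.one (nat_lit 0xa00000200400600c00f400814e81801e611)) (.one (nat_lit 0xa00000300400600c00f600814e81801e611)))) (.br (Nat.shiftLeft (nat_lit 0x5800001) (nat_lit 113)) (.one (nat_lit 0xb00000100400600c00f200816ec1801e611)) (.br (Nat.shiftLeft (nat_lit 0xb000003) (nat_lit 112)) (.one (nat_lit 0xb00000200400600c00f400816ec1801e611)) (.one (nat_lit 0xb00000300400600c00f600816ec1801e611)))))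
def t259 : k259.all (jb2 57 fl b0) = true := by decide +kernel
noncomputable def k260 : KT := (.br (Nat.shiftLeft (nat_lit 0x2000001003) (nat_lit 112)) (.br (Nat.shiftLeft (nat_lit 0x1) (nat_lit 148)) (.br (Nat.shiftLeft (nat_lit 0x6000001) (nat_lit 113)) (.one (nat_lit 0xc00000100400600c00f200818f01801e611)) (.br (Nat.shiftLeft (nat_lit 0xc000003) (nat_lit 112)) (.one (nat_lit 0xc00000200400600c00f400818f01801e611)) (.one (nat_lit 0xc00000300400600c00f600818f01801e611)))) (.br (Nat.shiftLeft (nat_lit 0x800001) (nat_lit 125)) (.br (Nat.shiftLeft (nat_lit 0x1000001003) (nat_lit 112)) (.one (nat_lit 0x100000100200400600c00f402840c03841e711)) (.one (nat_lit 0x100000100300400600c00f602840c03841e711))) (.br (Nat.shiftLeft (nat_lit 0x1) (nat_lit 149)) (.one (nat_lit 0x100000200300400600c00f602840c05881e711)) (.one (nat_lit 0x200000100200400600c00f404880c03841e711))))) (.br (Nat.shiftLeft (nat_lit 0x1800001) (nat_lit 125)) (.br (Nat.shiftLeft (nat_lit 0x3) (nat_lit 148)) (.br (Nat.shiftLeft (nat_lit 0x1000001) (nat_lit 125)) (.one (nat_lit 0x200000100300400600c00f604880c03841e711))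 (.one (nat_lit 0x200000200300400600c00f604880c05881e711))) (.br (Nat.shiftLeft (nat_lit 0x3000001003) (nat_lit 112)) (.one (nat_lit 0x300000100200400600c00f4068c0c03841e711)) (.one (nat_lit 0x300000100300400600c00f6068c0c03841e711)))) (.br (Nat.shiftLeft (nat_lit 0x4000001003) (nat_lit 112)) (.br (Nat.shiftLeft (nat_lit 0x1) (nat_lit 150)) (.one (nat_lit 0x300000200300400600c00f6068c0c05881e711)) (.one (nat_lit 0x400000100200400600c00f408900c03841e711))) (.br (Nat.shiftLeft (nat_lit 0x2000001) (nat_lit 125)) (.one (nat_lit 0x400000100300400600c00f608900c03841e711)) (.one (nat_lit 0x400000200300400600c00f608900c05881e711))))))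
def t260 : k260.all (jb2 57 fl b0) = true := by decide +kernel
noncomputable def k261 : KT := (.br (Nat.shiftLeft (nat_lit 0x5000001003) (nat_lit 112)) (.one (nat_lit 0x500000100200400600c00f40a940c03841e711)) (.one (nat_lit 0x500000100300400600c00f60a940c03841e711)))
noncomputable def b262 : BT := .node (nat_lit 0x2f) (nat_lit 0x1bc2db32b936c8a2a9356f092fd32400994c80257aa0019ab00155b400591200056301ed993aca2a93449a9454003a5d0008d68003a98000ad602de12a22705bc296328b00065340015ab800653200158d05bc25164c9000653600158c03b645152b980074340011ec0332251549a80066ac00192d8323128aa64800329b0008d601de125f24d532493427580065bc00154d800743400158f0523128aa4d4002b58000aa6c1008e9007d3007d3007d3007d3007d3007d3007d3007d3007d3007d3007d3007d3007180065d0065d0065d005fd005fd005fd005fd005fd005fd005fd005fd005fd005fd005fd005fd0059d0053d0053d0053d004dc004dc004dc004dc004dc004dc004dc004dc004dc00421004210042100421003c0003c0) .leaf .leaf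
def t261 : k261.all (jb2 57 fl b262) = true := by decide +kernel
noncomputable def k262 : KT := (.br (Nat.shiftLeft (nat_lit 0x3) (nat_lit 149)) (.one (nat_lit 0x500000200300400600c00f60a940c05881e711)) (.one (nat_lit 0x600000100200400600c00f40c980c03841e711)))
noncomputable def b263 : BT := .node (nat_lit 0xb) (nat_lit 0x4b115112c600198c00065b00cc8a4d526ade16d99454003a59000cb60003299000ac68291893aca8893528a24d4003a1f0006e68003317000cb602002c700267001ac001ac001ac001ac001ac001ac001ac001ac000f0000f0) .leaf .leaf
def t262 : k262.all (jb2 57 fl b263) = true := by decide +kernel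
noncomputable def k263 : KT := (.br (Nat.shiftLeft (nat_lit 0x3000001) (nat_lit 125)) (.one (nat_lit 0x600000100300400600c00f60c980c03841e711)) (.br (Nat.shiftLeft (nat_lit 0x7) (nat_lit 148)) (.one (nat_lit 0x600000200300400600c00f60c980c05881e711)) (.one (nat_lit 0x700000100200400600c00f40e9c0c03841e711))))
noncomputable def b264 : BT := .node (nat_lit 0x1) (nat_lit 0x96325d93ac003a5a000ab8010008800028) .leaf .leaf
def t263 : k263.all (jb2 57 fl b264) = true := by decide +kernel
noncomputable def k264 : KT := (.br (Nat.shiftLeft (nat_lit 0x1) (nat_lit 151)) (.br (Nat.shiftLeft (nat_lit 0x3800001) (nat_lit 125)) (.one (nat_lit 0x700000100300400600c00f60e9c0c03841e711)) (.one (nat_lit 0x700000200300400600c00f60e9c0c05881e711))) (.br (Nat.shiftLeft (nat_lit 0x8000001003) (nat_lit 112)) (.one (nat_lit 0x800000100200400600c00f410a00c03841e711)) (.one (nat_lit 0x800000100300400600c00f610a00c03841e711))))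
noncomputable def b265 : BT := .node (nat_lit 0x1) (nat_lit 0x93627513a0003317000cb6010008800028) .leaf .leaf
def t264 : k264.all (jb2 57 fl b265) = true := by decide +kernel
noncomputable def k265 : KT := (.br (Nat.shiftLeft (nat_lit 0xa000001003) (nat_lit 112)) (.br (Nat.shiftLeft (nat_lit 0x9000001003) (nat_lit 112)) (.br (Nat.shiftLeft (nat_lit 0x9) (nat_lit 148)) (.one (nat_lit 0x800000200300400600c00f610a00c05881e711)) (.one (nat_lit 0x900000100200400600c00f412a40c03841e711))) (.br (Nat.shiftLeft (nat_lit 0x4800001) (nat_lit 125)) (.one (nat_lit 0x900000100300400600c00f612a40c03841e711)) (.br (Nat.shiftLeft (nat_lit 0x5) (nat_lit 149)) (.one (nat_lit 0x900000200300400600c00f612a40c05881e711)) (.one (nat_lit 0xa00000100200400600c00f414a80c03841e711))))) (.br (Nat.shiftLeft (nat_lit 0xb000001003) (nat_lit 112)) (.br (Nat.shiftLeft (nat_lit 0x5000001) (nat_lit 125)) (.one (nat_lit 0xa00000100300400600c00f614a80c03841e711)) (.br (Nat.shiftLeft (nat_lit 0xb) (nat_lit 148)) (.one (nat_lit 0xa00000200300400600c00f614a80c05881e711)) (.one (nat_lit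 0xb00000100200400600c00f416ac0c03841e711)))) (.br (Nat.shiftLeft (nat_lit 0x5800001) (nat_lit 125)) (.one (nat_lit 0xb00000100300400600c00f616ac0c03841e711)) (.br (Nat.shiftLeft (nat_lit 0x3) (nat_lit 150)) (.one (nat_lit 0xb00000200300400600c00f616ac0c05881e711)) (.one (nat_lit 0xc00000100200400600c00f418b00c03841e711))))))
def t265 : k265.all (jb2 57 fl b0) = true := by decide +kernel
noncomputable def k266 : KT := (.br (Nat.shiftLeft (nat_lit 0x6000001) (nat_lit 125)) (.one (nat_lit 0xc00000100300400600c00f618b00c03841e711)) (.one (nat_lit 0xc00000200300400600c00f618b00c05881e711)))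
def t266 : k266.all (jb2 57 fl b0) = true := by decide +kernel
noncomputable def s13 : KT := (.br (nat_lit 0x700000100400600c00f20080edc1801e611) (.br (nat_lit 0x400000100400600c00f200808d01801e611) (.br (nat_lit 0x800000400600c00f000800c11a01e511) (.br (nat_lit 0x600000400600c00f000800c0d981e511) k243 (.br (nat_lit 0x700000400600c00f000800c0f9c1e511) k244 k245)) (.br (nat_lit 0xa00000400600c00f000800c15a81e511) k246 (.br (nat_lit 0x100000300400600c00f600802c41801e611) k247 k248))) (.br (nat_lit 0x600000100400600c00f20080cd81801e611) (.br (nat_lit 0x500000100400600c00f20080ad41801e611) k249 (.br (nat_lit 0x500000300400600c00f60080ad41801e611) k250 k251)) (.br (nat_lit 0x600000200400600c00f40080cd81801e611) k252 (.br (nat_lit 0x600000300400600c00f60080cd81801e611) k253 k254)))) (.br (nat_lit 0x400000200300400600c00f608900c05881e711) (.br (nat_lit 0x800000300400600c00f600810e01801e611) (.br (nat_lit 0x700000300400600c00f60080edc1801e611) k255 (.br (nat_lit 0x800000100400600c00f200810e01801e611) k256 k257)) (.br (nat_lit 0x900000300400600c00f600812e41801e611)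 k258 (.br (nat_lit 0xb00000300400600c00f600816ec1801e611) k259 k260))) (.br (nat_lit 0x700000100200400600c00f40e9c0c03841e711) (.br (nat_lit 0x500000100300400600c00f60a940c03841e711) k261 (.br (nat_lit 0x600000100200400600c00f40c980c03841e711) k262 k263)) (.br (nat_lit 0x800000100300400600c00f610a00c03841e711) k264 (.br (nat_lit 0xc00000100200400600c00f418b00c03841e711) k265 k266)))))
noncomputable def u13 : KT := (.one (nat_lit 0x400600c00f000800c01801e540))
def w13 : u13.all (wj 57 s13) = true := by decide +kernel
def o13 : OkW 57 (jb2 57 fl) u13 := .lift s13 _ (.br _ _ _ (.br _ _ _ (.br _ _ _ (.br _ _ _ (.leaf b244 k243 t243) (.br _ _ _ (.leaf b245 k244 t244) (.leaf b246 k245 t245))) (.br _ _ _ (.leaf b247 k246 t246) (.br _ _ _ (.leaf b0 k247 t247) (.leaf b0 k248 t248)))) (.br _ _ _ (.br _ _ _ (.leaf b250 k249 t249) (.br _ _ _ (.leaf b0 k250 t250) (.leaf b252 k251 t251))) (.br _ _ _ (.leaf b253 k252 t252) (.br _ _ _ (.leaf b0 k253 t253) (.leaf b255 k254 t254))))) (.br _ _ _ (.br _ _ _ (.br _ _ _ (.leaf b256 k255 t255) (.br _ _ _ (.leaf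 b257 k256 t256) (.leaf b258 k257 t257))) (.br _ _ _ (.leaf b259 k258 t258) (.br _ _ _ (.leaf b0 k259 t259) (.leaf b0 k260 t260)))) (.br _ _ _ (.br _ _ _ (.leaf b262 k261 t261) (.br _ _ _ (.leaf b263 k262 t262) (.leaf b264 k263 t263))) (.br _ _ _ (.leaf b265 k264 t264) (.br _ _ _ (.leaf b0 k265 t265) (.leaf b0 k266 t266)))))) w13
noncomputable def k267 : KT := (.br (Nat.shiftLeft (nat_lit 0x1003) (nat_lit 112)) (.br (Nat.shiftLeft (nat_lit 0x3) (nat_lit 112)) (.br (Nat.shiftLeft (nat_lit 0x1) (nat_lit 112)) (.one (nat_lit 0x400600c010000800c018021500)) (.br (Nat.shiftLeft (nat_lit 0x1) (nat_lit 113)) (.one (nat_lit 0x100400600c010200800c018021600)) (.one (nat_lit 0x200400600c010400800c018021600)))) (.br (Nat.shiftLeft (nat_lit 0x1) (nat_lit 124)) (.one (nat_lit 0x300400600c010600800c018021600)) (.br (Nat.shiftLeft (nat_lit 0x801) (nat_lit 113)) (.one (nat_lit 0x100000400600c010000800c038420511)) (.one (nat_lit 0x100200400600c010400800c038421700))))) (.br (Nat.shiftLeft (nat_lit 0x3) (nat_lit 124)) (.br (Nat.shiftLeft (nat_lit 0x1) (nat_lit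 125)) (.one (nat_lit 0x100300400600c010600800c038421700)) (.br (Nat.shiftLeft (nat_lit 0x1001) (nat_lit 113)) (.one (nat_lit 0x200000400600c010000800c058820511)) (.one (nat_lit 0x200300400600c010600800c058821700)))) (.br (Nat.shiftLeft (nat_lit 0x5) (nat_lit 124)) (.br (Nat.shiftLeft (nat_lit 0x1) (nat_lit 126)) (.one (nat_lit 0x300000400600c010000800c078c20511)) (.one (nat_lit 0x400000400600c010000800c099020511))) (.br (Nat.shiftLeft (nat_lit 0x3) (nat_lit 125)) (.one (nat_lit 0x500000400600c010000800c0b9420511)) (.one (nat_lit 0x600000400600c010000800c0d9820511))))))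
def t267 : k267.all (jb2 57 fl b0) = true := by decide +kernel
noncomputable def k268 : KT := (.br (Nat.shiftLeft (nat_lit 0x1) (nat_lit 127)) (.one (nat_lit 0x700000400600c010000800c0f9c20511)) (.one (nat_lit 0x800000400600c010000800c11a020511)))
noncomputable def b269 : BT := .node (nat_lit 0x1) (nat_lit 0xdb349ba58c003a98000ac6010008800028) .leaf .leaf
def t268 : k268.all (jb2 57 fl b269) = true := by decide +kernel
noncomputable def k269 : KT := (.br (Nat.shiftLeft (nat_lit 0x3) (nat_lit 126)) (.br (Nat.shiftLeft (nat_lit 0x5) (nat_lit 125)) (.one (nat_lit 0x900000400600c010000800c13a420511)) (.br (Nat.shiftLeft (nat_lit 0xb) (nat_lit 124)) (.one (nat_lit 0xa00000400600c010000800c15a820511)) (.one (nat_lit 0xb00000400600c010000800c17ac20511)))) (.br (Nat.shiftLeft (nat_lit 0x800001) (nat_lit 113)) (.br (Nat.shiftLeft (nat_lit 0x1) (nat_lit 136)) (.one (nat_lit 0xc00000400600c010000800c19b020511)) (.one (nat_lit 0x100000100400600c010200802c418020611))) (.br (Nat.shiftLeft (nat_lit 0x1000003) (nat_lit 112)) (.one (nat_lit 0x100000200400600c010400802c418020611))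 (.one (nat_lit 0x100000300400600c010600802c418020611)))))
noncomputable def b270 : BT := .node (nat_lit 0x1d) (nat_lit 0x12704bf275000753000158d03b6496449b80065b400194e03b6696327536c9b664bf25d92fc97c00596c00055be00996c80255c0005d4c80065b41c9b93aca2adb36d993a9b669634b180174ba0055ab80065b000558d00265b000996c074549784be000e96c0032da064d49d44bc6d9a4e1270db325f92f8003a99002cb6400ba98002ab78013a990028b8c397693927500084b200158d0326e4be25f80065b20019500326a4bf49cb6c89805426d9258c97e96325f945000b2da000ca7c00ba220028e5c00b2d8004ca7c00ba5e002cb644008e9008e9008e9008e9008e90088900829008290082900713005fd005fd005fd005fd0059e00488004880048800429003c9003c9003c9003c900258002580025800258002580025800258) .leaf .leaf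
def t269 : k269.all (jb2 57 fl b270) = true := by decide +kernel
noncomputable def k270 : KT := (.br (Nat.shiftLeft (nat_lit 0x1800001) (nat_lit 113)) (.br (Nat.shiftLeft (nat_lit 0x1000001) (nat_lit 113)) (.br (Nat.shiftLeft (nat_lit 0x1) (nat_lit 137)) (.one (nat_lit 0x100200300400600c010600802c458820870)) (.one (nat_lit 0x200000100400600c010200804c818020611))) (.br (Nat.shiftLeft (nat_lit 0x2000003) (nat_lit 112)) (.one (nat_lit 0x200000200400600c010400804c818020611)) (.br (Nat.shiftLeft (nat_lit 0x3) (nat_lit 136)) (.one (nat_lit 0x200000300400600c010600804c818020611)) (.one (nat_lit 0x300000100400600c010200806cc18020611))))) (.br (Nat.shiftLeft (nat_lit 0x1) (nat_lit 138)) (.br (Nat.shiftLeft (nat_lit 0x3000003) (nat_lit 112)) (.one (nat_lit 0x300000200400600c010400806cc18020611)) (.one (nat_lit 0x300000300400600c010600806cc18020611))) (.br (Nat.shiftLeft (nat_lit 0x2000001) (nat_lit 113)) (.one (nat_lit 0x400000100400600c010200808d018020611)) (.br (Nat.shiftLeft (nat_lit 0x4000003) (nat_lit 112)) (.one (nat_lit 0x400000200400600c010400808d018020611))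 (.one (nat_lit 0x400000300400600c010600808d018020611))))))
def t270 : k270.all (jb2 57 fl b0) = true := by decide +kernel
noncomputable def k271 : KT := (.br (Nat.shiftLeft (nat_lit 0x2800001) (nat_lit 113)) (.one (nat_lit 0x500000100400600c01020080ad418020611)) (.br (Nat.shiftLeft (nat_lit 0x5000003) (nat_lit 112)) (.one (nat_lit 0x500000200400600c01040080ad418020611)) (.one (nat_lit 0x500000300400600c01060080ad418020611))))
def t271 : k271.all (jb2 57 fl b0) = true := by decide +kernel
noncomputable def k272 : KT := (.br (Nat.shiftLeft (nat_lit 0x3000001) (nat_lit 113)) (.one (nat_lit 0x600000100400600c01020080cd818020611)) (.one (nat_lit 0x600000200400600c01040080cd818020611)))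
def t272 : k272.all (jb2 57 fl b0) = true := by decide +kernel
noncomputable def k273 : KT := (.br (Nat.shiftLeft (nat_lit 0x7) (nat_lit 136)) (.one (nat_lit 0x600000300400600c01060080cd818020611)) (.one (nat_lit 0x700000100400600c01020080edc18020611)))
noncomputable def b274 : BT := .node (nat_lit 0x1) (nat_lit 0xdb4275950c003a1f0008e5c10008800028) .leaf .leaf
def t273 : k273.all (jb2 57 fl b274) = true := by decide +kernel
noncomputable def k274 : KT := (.br (Nat.shiftLeft (nat_lit 0x7000003) (nat_lit 112)) (.one (nat_lit 0x700000200400600c01040080edc18020611)) (.one (nat_lit 0x700000300400600c01060080edc18020611)))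
def t274 : k274.all (jb2 57 fl b0) = true := by decide +kernel
noncomputable def k275 : KT := (.br (Nat.shiftLeft (nat_lit 0x4000001) (nat_lit 113)) (.one (nat_lit 0x800000100400600c010200810e018020611)) (.br (Nat.shiftLeft (nat_lit 0x8000003) (nat_lit 112)) (.one (nat_lit 0x800000200400600c010400810e018020611)) (.one (nat_lit 0x800000300400600c010600810e018020611))))
def t275 : k275.all (jb2 57 fl b0) = true := by decide +kernel
noncomputable def k276 : KT := (.br (Nat.shiftLeft (nat_lit 0x9000003) (nat_lit 112)) (.br (Nat.shiftLeft (nat_lit 0x4800001) (nat_lit 113)) (.one (nat_lit 0x900000100400600c010200812e418020611)) (.one (nat_lit 0x900000200400600c010400812e418020611))) (.br (Nat.shiftLeft (nat_lit 0x5) (nat_lit 137)) (.one (nat_lit 0x900000300400600c010600812e418020611)) (.one (nat_lit 0xa00000100400600c010200814e818020611))))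
noncomputable def b277 : BT := .node (nat_lit 0xb) (nat_lit 0x9634b193ac0032d8000ca7c1db325f9454003a210008d6c1001b0001b0001b0001b0001b0001b0001b000150001500015000150000f0) .leaf .leaf
def t276 : k276.all (jb2 57 fl b277) = true := by decide +kernel
noncomputable def k277 : KT := (.br (Nat.shiftLeft (nat_lit 0x1000001003) (nat_lit 112)) (.br (Nat.shiftLeft (nat_lit 0xb000003) (nat_lit 112)) (.br (Nat.shiftLeft (nat_lit 0xb) (nat_lit 136)) (.br (Nat.shiftLeft (nat_lit 0xa000003) (nat_lit 112)) (.one (nat_lit 0xa00000200400600c010400814e818020611)) (.one (nat_lit 0xa00000300400600c010600814e818020611))) (.br (Nat.shiftLeft (nat_lit 0x5800001) (nat_lit 113)) (.one (nat_lit 0xb00000100400600c010200816ec18020611)) (.one (nat_lit 0xb00000200400600c010400816ec18020611)))) (.br (Nat.shiftLeft (nat_lit 0x6000001) (nat_lit 113)) (.br (Nat.shiftLeft (nat_lit 0x3) (nat_lit 138)) (.one (nat_lit 0xb00000300400600c010600816ec18020611)) (.one (nat_lit 0xc00000100400600c010200818f018020611))) (.br (Nat.shiftLeft (nat_lit 0xc000003) (nat_lit 112)) (.one (nat_lit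 0xc00000200400600c010400818f018020611)) (.br (Nat.shiftLeft (nat_lit 0x1) (nat_lit 148)) (.one (nat_lit 0xc00000300400600c010600818f018020611)) (.one (nat_lit 0x100000100200400600c010402840c038420711)))))) (.br (Nat.shiftLeft (nat_lit 0x3) (nat_lit 148)) (.br (Nat.shiftLeft (nat_lit 0x1) (nat_lit 149)) (.br (Nat.shiftLeft (nat_lit 0x800001) (nat_lit 125)) (.one (nat_lit 0x100000100300400600c010602840c038420711)) (.one (nat_lit 0x100000200300400600c010602840c058820711))) (.br (Nat.shiftLeft (nat_lit 0x2000001003) (nat_lit 112)) (.one (nat_lit 0x200000100200400600c010404880c038420711)) (.br (Nat.shiftLeft (nat_lit 0x1000001) (nat_lit 125)) (.one (nat_lit 0x200000100300400600c010604880c038420711)) (.one (nat_lit 0x200000200300400600c010604880c058820711))))) (.br (Nat.shiftLeft (nat_lit 0x1800001) (nat_lit 125)) (.br (Nat.shiftLeft (nat_lit 0x3000001003) (nat_lit 112)) (.one (nat_lit 0x300000100200400600c0104068c0c038420711)) (.one (nat_lit 0x300000100300400600c0106068c0c038420711))) (.br (Nat.shiftLeft (nat_lit 0x1) (nat_lit 150)) (.one (nat_lit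 0x300000200300400600c0106068c0c058820711)) (.br (Nat.shiftLeft (nat_lit 0x4000001003) (nat_lit 112)) (.one (nat_lit 0x400000100200400600c010408900c038420711)) (.one (nat_lit 0x400000100300400600c010608900c038420711)))))))
def t277 : k277.all (jb2 57 fl b0) = true := by decide +kernel
noncomputable def k278 : KT := (.br (Nat.shiftLeft (nat_lit 0x5000001003) (nat_lit 112)) (.br (Nat.shiftLeft (nat_lit 0x5) (nat_lit 148)) (.one (nat_lit 0x400000200300400600c010608900c058820711)) (.one (nat_lit 0x500000100200400600c01040a940c038420711))) (.br (Nat.shiftLeft (nat_lit 0x2800001) (nat_lit 125)) (.one (nat_lit 0x500000100300400600c01060a940c038420711)) (.one (nat_lit 0x500000200300400600c01060a940c058820711))))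
def t278 : k278.all (jb2 57 fl b0) = true := by decide +kernel
noncomputable def k279 : KT := (.br (Nat.shiftLeft (nat_lit 0x3000001) (nat_lit 125)) (.br (Nat.shiftLeft (nat_lit 0x6000001003) (nat_lit 112)) (.one (nat_lit 0x600000100200400600c01040c980c038420711)) (.one (nat_lit 0x600000100300400600c01060c980c038420711))) (.br (Nat.shiftLeft (nat_lit 0x7) (nat_lit 148)) (.one (nat_lit 0x600000200300400600c01060c980c058820711)) (.one (nat_lit 0x700000100200400600c01040e9c0c038420711))))
def t279 : k279.all (jb2 57 fl b0) = true := by decide +kernel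
noncomputable def k280 : KT := (.br (Nat.shiftLeft (nat_lit 0x4000001) (nat_lit 125)) (.br (Nat.shiftLeft (nat_lit 0x1) (nat_lit 151)) (.br (Nat.shiftLeft (nat_lit 0x3800001) (nat_lit 125)) (.one (nat_lit 0x700000100300400600c01060e9c0c038420711)) (.one (nat_lit 0x700000200300400600c01060e9c0c058820711))) (.br (Nat.shiftLeft (nat_lit 0x8000001003) (nat_lit 112)) (.one (nat_lit 0x800000100200400600c010410a00c038420711)) (.one (nat_lit 0x800000100300400600c010610a00c038420711)))) (.br (Nat.shiftLeft (nat_lit 0x9000001003) (nat_lit 112)) (.br (Nat.shiftLeft (nat_lit 0x9) (nat_lit 148)) (.one (nat_lit 0x800000200300400600c010610a00c058820711)) (.one (nat_lit 0x900000100200400600c010412a40c038420711))) (.br (Nat.shiftLeft (nat_lit 0x4800001) (nat_lit 125)) (.one (nat_lit 0x900000100300400600c010612a40c038420711)) (.one (nat_lit 0x900000200300400600c010612a40c058820711)))))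
def t280 : k280.all (jb2 57 fl b0) = true := by decide +kernel
noncomputable def k281 : KT := (.br (Nat.shiftLeft (nat_lit 0xb000001003) (nat_lit 112)) (.br (Nat.shiftLeft (nat_lit 0x5000001) (nat_lit 125)) (.br (Nat.shiftLeft (nat_lit 0xa000001003) (nat_lit 112)) (.one (nat_lit 0xa00000100200400600c010414a80c038420711)) (.one (nat_lit 0xa00000100300400600c010614a80c038420711))) (.br (Nat.shiftLeft (nat_lit 0xb) (nat_lit 148)) (.one (nat_lit 0xa00000200300400600c010614a80c058820711)) (.one (nat_lit 0xb00000100200400600c010416ac0c038420711)))) (.br (Nat.shiftLeft (nat_lit 0x3) (nat_lit 150)) (.br (Nat.shiftLeft (nat_lit 0x5800001) (nat_lit 125)) (.one (nat_lit 0xb00000100300400600c010616ac0c038420711)) (.one (nat_lit 0xb00000200300400600c010616ac0c058820711))) (.br (Nat.shiftLeft (nat_lit 0xc000001003) (nat_lit 112)) (.one (nat_lit 0xc00000100200400600c010418b00c038420711)) (.br (Nat.shiftLeft (nat_lit 0x6000001) (nat_lit 125)) (.one (nat_lit 0xc00000100300400600c010618b00c038420711)) (.one (nat_lit 0xc00000200300400600c010618b00c058820711))))))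
def t281 : k281.all (jb2 57 fl b0) = true := by decide +kernel
noncomputable def s14 : KT := (.br (nat_lit 0x700000100400600c01020080edc18020611) (.br (nat_lit 0x100000300400600c010600802c418020611) (.br (nat_lit 0x600000400600c010000800c0d9820511) k267 (.br (nat_lit 0x800000400600c010000800c11a020511) k268 k269)) (.br (nat_lit 0x500000300400600c01060080ad418020611) (.br (nat_lit 0x400000300400600c010600808d018020611) k270 k271) (.br (nat_lit 0x600000200400600c01040080cd818020611) k272 k273))) (.br (nat_lit 0x400000100300400600c010608900c038420711) (.br (nat_lit 0x800000300400600c010600810e018020611) (.br (nat_lit 0x700000300400600c01060080edc18020611) k274 k275) (.br (nat_lit 0xa00000100400600c010200814e818020611) k276 k277)) (.br (nat_lit 0x700000100200400600c01040e9c0c038420711) (.br (nat_lit 0x500000200300400600c01060a940c058820711) k278 k279) (.br (nat_lit 0x900000200300400600c010612a40c058820711) k280 k281))))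
noncomputable def u14 : KT := (.one (nat_lit 0x400600c010000800c018020540))
def w14 : u14.all (wj 57 s14) = true := by decide +kernel
def o14 : OkW 57 (jb2 57 fl) u14 := .lift s14 _ (.br _ _ _ (.br _ _ _ (.br _ _ _ (.leaf b0 k267 t267) (.br _ _ _ (.leaf b269 k268 t268) (.leaf b270 k269 t269))) (.br _ _ _ (.br _ _ _ (.leaf b0 k270 t270) (.leaf b0 k271 t271)) (.br _ _ _ (.leaf b0 k272 t272) (.leaf b274 k273 t273)))) (.br _ _ _ (.br _ _ _ (.br _ _ _ (.leaf b0 k274 t274) (.leaf b0 k275 t275)) (.br _ _ _ (.leaf b277 k276 t276) (.leaf b0 k277 t277))) (.br _ _ _ (.br _ _ _ (.leaf b0 k278 t278) (.leaf b0 k279 t279)) (.br _ _ _ (.leaf b0 k280 t280) (.leaf b0 k281 t281))))) w14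
noncomputable def k282 : KT := (.br (Nat.shiftLeft (nat_lit 0x3) (nat_lit 112)) (.br (Nat.shiftLeft (nat_lit 0x802003006009) (nat_lit 65)) (.br (Nat.shiftLeft (nat_lit 0x2003006009) (nat_lit 65)) (.one (nat_lit 0x400600c011000800c018023500)) (.br (Nat.shiftLeft (nat_lit 0x1) (nat_lit 112)) (.one (nat_lit 0x400600c012000800c018025500)) (.one (nat_lit 0x100400600c011200800c018023600)))) (.br (Nat.shiftLeft (nat_lit 0x1) (nat_lit 113)) (.one (nat_lit 0x100400600c012200800c018025600)) (.br (Nat.shiftLeft (nat_lit 0x1002003006009) (nat_lit 65)) (.one (nat_lit 0x200400600c011400800c018023600)) (.one (nat_lit 0x200400600c012400800c018025600))))) (.br (Nat.shiftLeft (nat_lit 0x800002003006009) (nat_lit 65)) (.br (Nat.shiftLeft (nat_lit 0x1802003006009) (nat_lit 65)) (.one (nat_lit 0x300400600c011600800c018023600)) (.br (Nat.shiftLeft (nat_lit 0x1) (nat_lit 124)) (.one (nat_lit 0x300400600c012600800c018025600)) (.one (nat_lit 0x100000400600c011000800c038422511)))) (.br (Nat.shiftLeft (nat_lit 0x801) (nat_lit 113)) (.one (nat_lit 0x100000400600c012000800c038424511))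 (.br (Nat.shiftLeft (nat_lit 0x801002003006009) (nat_lit 65)) (.one (nat_lit 0x100200400600c011400800c038423700)) (.one (nat_lit 0x100200400600c012400800c038424760))))))
def t282 : k282.all (jb2 57 fl b0) = true := by decide +kernel
noncomputable def k283 : KT := (.one (nat_lit 0x100300400600c011600800c038422760))
def t283 : k283.all (jb2 57 fl b0) = true := by decide +kernel
noncomputable def k284 : KT := (.br (Nat.shiftLeft (nat_lit 0x1) (nat_lit 125)) (.one (nat_lit 0x100300400600c012600800c038424760)) (.br (Nat.shiftLeft (nat_lit 0x1000002003006009) (nat_lit 65)) (.one (nat_lit 0x200000400600c011000800c058822511)) (.one (nat_lit 0x200000400600c012000800c058824511))))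
def t284 : k284.all (jb2 57 fl b0) = true := by decide +kernel
noncomputable def k285 : KT := (.one (nat_lit 0x200300400600c011600800c058822760))
def t285 : k285.all (jb2 57 fl b0) = true := by decide +kernel
noncomputable def k286 : KT := (.br (Nat.shiftLeft (nat_lit 0x1) (nat_lit 126)) (.br (Nat.shiftLeft (nat_lit 0x3) (nat_lit 124)) (.one (nat_lit 0x200300400600c012600800c058824760)) (.br (Nat.shiftLeft (nat_lit 0x1800002003006009) (nat_lit 65)) (.one (nat_lit 0x300000400600c011000800c078c22511)) (.one (nat_lit 0x300000400600c012000800c078c24511)))) (.br (Nat.shiftLeft (nat_lit 0x2000002003006009) (nat_lit 65)) (.one (nat_lit 0x400000400600c011000800c099022511)) (.br (Nat.shiftLeft (nat_lit 0x5) (nat_lit 124)) (.one (nat_lit 0x400000400600c012000800c099024511)) (.one (nat_lit 0x500000400600c011000800c0b9422511)))))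
def t286 : k286.all (jb2 57 fl b0) = true := by decide +kernel
noncomputable def k287 : KT := (.br (Nat.shiftLeft (nat_lit 0x3) (nat_lit 125)) (.one (nat_lit 0x500000400600c012000800c0b9424511)) (.br (Nat.shiftLeft (nat_lit 0x3000002003006009) (nat_lit 65)) (.one (nat_lit 0x600000400600c011000800c0d9822511)) (.one (nat_lit 0x600000400600c012000800c0d9824511))))
def t287 : k287.all (jb2 57 fl b0) = true := by decide +kernel
noncomputable def k288 : KT := (.br (Nat.shiftLeft (nat_lit 0x3800002003006009) (nat_lit 65)) (.one (nat_lit 0x700000400600c011000800c0f9c22511)) (.br (Nat.shiftLeft (nat_lit 0x1) (nat_lit 127)) (.one (nat_lit 0x700000400600c012000800c0f9c24511)) (.one (nat_lit 0x800000400600c011000800c11a022511))))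
def t288 : k288.all (jb2 57 fl b0) = true := by decide +kernel
noncomputable def k289 : KT := (.br (Nat.shiftLeft (nat_lit 0x4800002003006009) (nat_lit 65)) (.br (Nat.shiftLeft (nat_lit 0x9) (nat_lit 124)) (.one (nat_lit 0x800000400600c012000800c11a024511)) (.one (nat_lit 0x900000400600c011000800c13a422511))) (.br (Nat.shiftLeft (nat_lit 0x5) (nat_lit 125)) (.one (nat_lit 0x900000400600c012000800c13a424511)) (.br (Nat.shiftLeft (nat_lit 0x5000002003006009) (nat_lit 65)) (.one (nat_lit 0xa00000400600c011000800c15a822511)) (.one (nat_lit 0xa00000400600c012000800c15a824511)))))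
noncomputable def b290 : BT := .node (nat_lit 0xb) (nat_lit 0x12c6db32a100075300015ab832c69372a236c92c84ea49c24e097e0060ee00156b400596d00055be005d4c00255be1ed9a4e097e00196c00055c00d4228a92fc003a5a000c9901003250032500325003250032500325002c5001af001af001af0014f000f0) .leaf .leaf
def t289 : k289.all (jb2 57 fl b290) = true := by decide +kernel
noncomputable def k290 : KT := (.br (Nat.shiftLeft (nat_lit 0x1000001002003006009) (nat_lit 65)) (.br (Nat.shiftLeft (nat_lit 0x800001) (nat_lit 113)) (.br (Nat.shiftLeft (nat_lit 0x6000002003006009) (nat_lit 65)) (.br (Nat.shiftLeft (nat_lit 0x5800002003006009) (nat_lit 65)) (.one (nat_lit 0xb00000400600c011000800c17ac22511)) (.br (Nat.shiftLeft (nat_lit 0x3) (nat_lit 126)) (.one (nat_lit 0xb00000400600c012000800c17ac24511)) (.one (nat_lit 0xc00000400600c011000800c19b022511)))) (.br (Nat.shiftLeft (nat_lit 0x1) (nat_lit 136)) (.one (nat_lit 0xc00000400600c012000800c19b024511)) (.br (Nat.shiftLeft (nat_lit 0x800000802003006009) (nat_lit 65)) (.one (nat_lit 0x100000100400600c011200802c418022611)) (.one (nat_lit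 0x100000100400600c012200802c418024611))))) (.br (Nat.shiftLeft (nat_lit 0x800001802003006009) (nat_lit 65)) (.br (Nat.shiftLeft (nat_lit 0x800001002003006009) (nat_lit 65)) (.one (nat_lit 0x100000200400600c011400802c418022611)) (.br (Nat.shiftLeft (nat_lit 0x1000003) (nat_lit 112)) (.one (nat_lit 0x100000200400600c012400802c418024611)) (.one (nat_lit 0x100000300400600c011600802c418022611)))) (.br (Nat.shiftLeft (nat_lit 0x1000000802003006009) (nat_lit 65)) (.br (Nat.shiftLeft (nat_lit 0x1) (nat_lit 137)) (.one (nat_lit 0x100000300400600c012600802c418024611)) (.one (nat_lit 0x200000100400600c011200804c818022611))) (.br (Nat.shiftLeft (nat_lit 0x1000001) (nat_lit 113)) (.one (nat_lit 0x200000100400600c012200804c818024611)) (.one (nat_lit 0x200000200400600c011400804c818022611)))))) (.br (Nat.shiftLeft (nat_lit 0x3000003) (nat_lit 112)) (.br (Nat.shiftLeft (nat_lit 0x3) (nat_lit 136)) (.br (Nat.shiftLeft (nat_lit 0x2000003) (nat_lit 112)) (.one (nat_lit 0x200000200400600c012400804c818024611)) (.br (Nat.shiftLeft (nat_lit 0x1000001802003006009)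 (nat_lit 65)) (.one (nat_lit 0x200000300400600c011600804c818022611)) (.one (nat_lit 0x200000300400600c012600804c818024611)))) (.br (Nat.shiftLeft (nat_lit 0x1800001) (nat_lit 113)) (.br (Nat.shiftLeft (nat_lit 0x1800000802003006009) (nat_lit 65)) (.one (nat_lit 0x300000100400600c011200806cc18022611)) (.one (nat_lit 0x300000100400600c012200806cc18024611))) (.br (Nat.shiftLeft (nat_lit 0x1800001002003006009) (nat_lit 65)) (.one (nat_lit 0x300000200400600c011400806cc18022611)) (.one (nat_lit 0x300000200400600c012400806cc18024611))))) (.br (Nat.shiftLeft (nat_lit 0x2000000802003006009) (nat_lit 65)) (.br (Nat.shiftLeft (nat_lit 0x1800001802003006009) (nat_lit 65)) (.one (nat_lit 0x300000300400600c011600806cc18022611)) (.br (Nat.shiftLeft (nat_lit 0x1) (nat_lit 138)) (.one (nat_lit 0x300000300400600c012600806cc18024611)) (.one (nat_lit 0x400000100400600c011200808d018022611)))) (.br (Nat.shiftLeft (nat_lit 0x2000001002003006009) (nat_lit 65)) (.br (Nat.shiftLeft (nat_lit 0x2000001) (nat_lit 113)) (.one (nat_lit 0x400000100400600c012200808d018024611))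 (.one (nat_lit 0x400000200400600c011400808d018022611))) (.br (Nat.shiftLeft (nat_lit 0x4000003) (nat_lit 112)) (.one (nat_lit 0x400000200400600c012400808d018024611)) (.one (nat_lit 0x400000300400600c011600808d018022611)))))))
def t290 : k290.all (jb2 57 fl b0) = true := by decide +kernel
noncomputable def k291 : KT := (.br (Nat.shiftLeft (nat_lit 0x2800000802003006009) (nat_lit 65)) (.br (Nat.shiftLeft (nat_lit 0x5) (nat_lit 136)) (.one (nat_lit 0x400000300400600c012600808d018024611)) (.one (nat_lit 0x500000100400600c01120080ad418022611))) (.br (Nat.shiftLeft (nat_lit 0x2800001) (nat_lit 113)) (.one (nat_lit 0x500000100400600c01220080ad418024611)) (.one (nat_lit 0x500000200400600c01140080ad418022611))))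
def t291 : k291.all (jb2 57 fl b0) = true := by decide +kernel
noncomputable def k292 : KT := (.br (Nat.shiftLeft (nat_lit 0x2800001802003006009) (nat_lit 65)) (.br (Nat.shiftLeft (nat_lit 0x5000003) (nat_lit 112)) (.one (nat_lit 0x500000200400600c01240080ad418024611)) (.one (nat_lit 0x500000300400600c01160080ad418022611))) (.br (Nat.shiftLeft (nat_lit 0x3) (nat_lit 137)) (.one (nat_lit 0x500000300400600c01260080ad418024611)) (.one (nat_lit 0x600000100400600c01120080cd818022611))))
def t292 : k292.all (jb2 57 fl b0) = true := by decide +kernel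
noncomputable def k293 : KT := (.br (Nat.shiftLeft (nat_lit 0x3000001) (nat_lit 113)) (.one (nat_lit 0x600000100400600c01220080cd818024611)) (.br (Nat.shiftLeft (nat_lit 0x3000001002003006009) (nat_lit 65)) (.one (nat_lit 0x600000200400600c01140080cd818022611)) (.one (nat_lit 0x600000200400600c01240080cd818024611))))
def t293 : k293.all (jb2 57 fl b0) = true := by decide +kernel
noncomputable def k294 : KT := (.br (Nat.shiftLeft (nat_lit 0x7) (nat_lit 136)) (.br (Nat.shiftLeft (nat_lit 0x3000001802003006009) (nat_lit 65)) (.one (nat_lit 0x600000300400600c01160080cd818022611)) (.one (nat_lit 0x600000300400600c01260080cd818024611))) (.br (Nat.shiftLeft (nat_lit 0x3800000802003006009) (nat_lit 65)) (.one (nat_lit 0x700000100400600c01120080edc18022611)) (.one (nat_lit 0x700000100400600c01220080edc18024611))))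
def t294 : k294.all (jb2 57 fl b0) = true := by decide +kernel
noncomputable def k295 : KT := (.br (Nat.shiftLeft (nat_lit 0x7000003) (nat_lit 112)) (.br (Nat.shiftLeft (nat_lit 0x3800001002003006009) (nat_lit 65)) (.one (nat_lit 0x700000200400600c01140080edc18022611)) (.one (nat_lit 0x700000200400600c01240080edc18024611))) (.br (Nat.shiftLeft (nat_lit 0x3800001802003006009) (nat_lit 65)) (.one (nat_lit 0x700000300400600c01160080edc18022611)) (.br (Nat.shiftLeft (nat_lit 0x1) (nat_lit 139)) (.one (nat_lit 0x700000300400600c01260080edc18024611)) (.one (nat_lit 0x800000100400600c011200810e018022611)))))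
def t295 : k295.all (jb2 57 fl b0) = true := by decide +kernel
noncomputable def k296 : KT := (.br (Nat.shiftLeft (nat_lit 0x8000003) (nat_lit 112)) (.br (Nat.shiftLeft (nat_lit 0x4000001) (nat_lit 113)) (.one (nat_lit 0x800000100400600c012200810e018024611)) (.br (Nat.shiftLeft (nat_lit 0x4000001002003006009) (nat_lit 65)) (.one (nat_lit 0x800000200400600c011400810e018022611)) (.one (nat_lit 0x800000200400600c012400810e018024611)))) (.br (Nat.shiftLeft (nat_lit 0x4000001802003006009) (nat_lit 65)) (.one (nat_lit 0x800000300400600c011600810e018022611)) (.br (Nat.shiftLeft (nat_lit 0x9) (nat_lit 136)) (.one (nat_lit 0x800000300400600c012600810e018024611)) (.one (nat_lit 0x900000100400600c011200812e418022611)))))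
def t296 : k296.all (jb2 57 fl b0) = true := by decide +kernel
noncomputable def k297 : KT := (.br (Nat.shiftLeft (nat_lit 0x5000000802003006009) (nat_lit 65)) (.br (Nat.shiftLeft (nat_lit 0x9000003) (nat_lit 112)) (.br (Nat.shiftLeft (nat_lit 0x4800001) (nat_lit 113)) (.one (nat_lit 0x900000100400600c012200812e418024611)) (.br (Nat.shiftLeft (nat_lit 0x4800001002003006009) (nat_lit 65)) (.one (nat_lit 0x900000200400600c011400812e418022611)) (.one (nat_lit 0x900000200400600c012400812e418024611)))) (.br (Nat.shiftLeft (nat_lit 0x4800001802003006009) (nat_lit 65)) (.one (nat_lit 0x900000300400600c011600812e418022611)) (.br (Nat.shiftLeft (nat_lit 0x5) (nat_lit 137)) (.one (nat_lit 0x900000300400600c012600812e418024611)) (.one (nat_lit 0xa00000100400600c011200814e818022611))))) (.br (Nat.shiftLeft (nat_lit 0xa000003) (nat_lit 112)) (.br (Nat.shiftLeft (nat_lit 0x5000001) (nat_lit 113)) (.one (nat_lit 0xa00000100400600c012200814e818024611)) (.br (Nat.shiftLeft (nat_lit 0x5000001002003006009) (nat_lit 65)) (.one (nat_lit 0xa00000200400600c011400814e818022611))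 (.one (nat_lit 0xa00000200400600c012400814e818024611)))) (.br (Nat.shiftLeft (nat_lit 0x5000001802003006009) (nat_lit 65)) (.one (nat_lit 0xa00000300400600c011600814e818022611)) (.br (Nat.shiftLeft (nat_lit 0xb) (nat_lit 136)) (.one (nat_lit 0xa00000300400600c012600814e818024611)) (.one (nat_lit 0xb00000100400600c011200816ec18022611))))))
def t297 : k297.all (jb2 57 fl b0) = true := by decide +kernel
noncomputable def k298 : KT := (.br (Nat.shiftLeft (nat_lit 0x6000001002003006009) (nat_lit 65)) (.br (Nat.shiftLeft (nat_lit 0x5800001802003006009) (nat_lit 65)) (.br (Nat.shiftLeft (nat_lit 0x5800001002003006009) (nat_lit 65)) (.br (Nat.shiftLeft (nat_lit 0x5800001) (nat_lit 113)) (.one (nat_lit 0xb00000100400600c012200816ec18024611)) (.one (nat_lit 0xb00000200400600c011400816ec18022611))) (.br (Nat.shiftLeft (nat_lit 0xb000003) (nat_lit 112)) (.one (nat_lit 0xb00000200400600c012400816ec18024611)) (.one (nat_lit 0xb00000300400600c011600816ec18022611)))) (.br (Nat.shiftLeft (nat_lit 0x6000000802003006009) (nat_lit 65)) (.br (Nat.shiftLeft (nat_lit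 0x3) (nat_lit 138)) (.one (nat_lit 0xb00000300400600c012600816ec18024611)) (.one (nat_lit 0xc00000100400600c011200818f018022611))) (.br (Nat.shiftLeft (nat_lit 0x6000001) (nat_lit 113)) (.one (nat_lit 0xc00000100400600c012200818f018024611)) (.one (nat_lit 0xc00000200400600c011400818f018022611))))) (.br (Nat.shiftLeft (nat_lit 0x1) (nat_lit 149)) (.br (Nat.shiftLeft (nat_lit 0x6000001802003006009) (nat_lit 65)) (.br (Nat.shiftLeft (nat_lit 0xc000003) (nat_lit 112)) (.one (nat_lit 0xc00000200400600c012400818f018024611)) (.one (nat_lit 0xc00000300400600c011600818f018022611))) (.br (Nat.shiftLeft (nat_lit 0x1) (nat_lit 148)) (.one (nat_lit 0xc00000300400600c012600818f018024611)) (.one (nat_lit 0x100000100200400600c011402840c038422711)))) (.br (Nat.shiftLeft (nat_lit 0x1) (nat_lit 150)) (.br (Nat.shiftLeft (nat_lit 0x3) (nat_lit 148)) (.one (nat_lit 0x200000100200400600c011404880c038422711)) (.one (nat_lit 0x300000100200400600c0114068c0c038422711))) (.br (Nat.shiftLeft (nat_lit 0x5) (nat_lit 148)) (.one (nat_lit 0x400000100200400600c011408900c038422711))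 (.br (Nat.shiftLeft (nat_lit 0x3) (nat_lit 149)) (.one (nat_lit 0x500000100200400600c01140a940c038422711)) (.one (nat_lit 0x600000100200400600c01140c980c038422711)))))))
def t298 : k298.all (jb2 57 fl b0) = true := by decide +kernel
noncomputable def k299 : KT := (.br (Nat.shiftLeft (nat_lit 0x5) (nat_lit 149)) (.br (Nat.shiftLeft (nat_lit 0x1) (nat_lit 151)) (.one (nat_lit 0x700000100200400600c01140e9c0c038422711)) (.br (Nat.shiftLeft (nat_lit 0x9) (nat_lit 148)) (.one (nat_lit 0x800000100200400600c011410a00c038422711)) (.one (nat_lit 0x900000100200400600c011412a40c038422711)))) (.br (Nat.shiftLeft (nat_lit 0xb) (nat_lit 148)) (.one (nat_lit 0xa00000100200400600c011414a80c038422711)) (.br (Nat.shiftLeft (nat_lit 0x3) (nat_lit 150)) (.one (nat_lit 0xb00000100200400600c011416ac0c038422711)) (.one (nat_lit 0xc00000100200400600c011418b00c038422711)))))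
def t299 : k299.all (jb2 57 fl b0) = true := by decide +kernel
noncomputable def s15 : KT := (.br (nat_lit 0x400000300400600c011600808d018022611) (.br (nat_lit 0x200300400600c011600800c058822760) (.br (nat_lit 0x100300400600c011600800c038422760) (.br (nat_lit 0x100200400600c012400800c038424760) k282 k283) (.br (nat_lit 0x200000400600c012000800c058824511) k284 k285)) (.br (nat_lit 0x600000400600c012000800c0d9824511) (.br (nat_lit 0x500000400600c011000800c0b9422511) k286 k287) (.br (nat_lit 0x800000400600c011000800c11a022511) k288 (.br (nat_lit 0xa00000400600c012000800c15a824511) k289 k290)))) (.br (nat_lit 0x700000100400600c01220080edc18024611) (.br (nat_lit 0x600000100400600c01120080cd818022611) (.br (nat_lit 0x500000200400600c01140080ad418022611) k291 k292) (.br (nat_lit 0x600000200400600c01240080cd818024611) k293 k294)) (.br (nat_lit 0x900000100400600c011200812e418022611) (.br (nat_lit 0x800000100400600c011200810e018022611) k295 k296) (.br (nat_lit 0xb00000100400600c011200816ec18022611) k297 (.br (nat_lit 0x600000100200400600c01140c980c038422711)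 k298 k299)))))
noncomputable def u15 : KT := (.br (Nat.shiftLeft (nat_lit 0x2003006009) (nat_lit 65)) (.one (nat_lit 0x400600c011000800c018022540)) (.one (nat_lit 0x400600c012000800c018024540)))
def w15 : u15.all (wj 57 s15) = true := by decide +kernel
def o15 : OkW 57 (jb2 57 fl) u15 := .lift s15 _ (.br _ _ _ (.br _ _ _ (.br _ _ _ (.br _ _ _ (.leaf b0 k282 t282) (.leaf b0 k283 t283)) (.br _ _ _ (.leaf b0 k284 t284) (.leaf b0 k285 t285))) (.br _ _ _ (.br _ _ _ (.leaf b0 k286 t286) (.leaf b0 k287 t287)) (.br _ _ _ (.leaf b0 k288 t288) (.br _ _ _ (.leaf b290 k289 t289) (.leaf b0 k290 t290))))) (.br _ _ _ (.br _ _ _ (.br _ _ _ (.leaf b0 k291 t291) (.leaf b0 k292 t292)) (.br _ _ _ (.leaf b0 k293 t293) (.leaf b0 k294 t294))) (.br _ _ _ (.br _ _ _ (.leaf b0 k295 t295) (.leaf b0 k296 t296)) (.br _ _ _ (.leaf b0 k297 t297) (.br _ _ _ (.leaf b0 k298 t298) (.leaf b0 k299 t299)))))) w15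
noncomputable def k300 : KT := (.br (Nat.shiftLeft (nat_lit 0x1003) (nat_lit 112)) (.br (Nat.shiftLeft (nat_lit 0x3) (nat_lit 112)) (.br (Nat.shiftLeft (nat_lit 0x1) (nat_lit 112)) (.one (nat_lit 0x400600d00e000800c01a01d500)) (.br (Nat.shiftLeft (nat_lit 0x1) (nat_lit 113)) (.one (nat_lit 0x100400600d00e200800c01a01d600)) (.one (nat_lit 0x200400600d00e400800c01a01d600)))) (.br (Nat.shiftLeft (nat_lit 0x1) (nat_lit 124)) (.one (nat_lit 0x300400600d00e600800c01a01d600)) (.br (Nat.shiftLeft (nat_lit 0x801) (nat_lit 113)) (.one (nat_lit 0x100000400600d00e000800c03a41c511)) (.one (nat_lit 0x100200400600d00e400800c03a41d700))))) (.br (Nat.shiftLeft (nat_lit 0x3) (nat_lit 124)) (.br (Nat.shiftLeft (nat_lit 0x1) (nat_lit 125)) (.one (nat_lit 0x100300400600d00e600800c03a41d700)) (.br (Nat.shiftLeft (nat_lit 0x1001) (nat_lit 113)) (.one (nat_lit 0x200000400600d00e000800c05a81c511)) (.one (nat_lit 0x200300400600d00e600800c05a81d700)))) (.br (Nat.shiftLeft (nat_lit 0x5) (nat_lit 124)) (.br (Nat.shiftLeft (nat_lit 0x1) (nat_lit 126)) (.one (nat_lit 0x300000400600d00e000800c07ac1c511))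 (.one (nat_lit 0x400000400600d00e000800c09b01c511))) (.br (Nat.shiftLeft (nat_lit 0x3) (nat_lit 125)) (.one (nat_lit 0x500000400600d00e000800c0bb41c511)) (.one (nat_lit 0x600000400600d00e000800c0db81c511))))))
noncomputable def b301 : BT := .node (nat_lit 0x1) (nat_lit 0x5134b224d4003a98000e96410008700028) .leaf .leaf
def t300 : k300.all (jb2 57 fl b301) = true := by decide +kernel
noncomputable def k301 : KT := (.br (Nat.shiftLeft (nat_lit 0x1) (nat_lit 127)) (.one (nat_lit 0x700000400600d00e000800c0fbc1c511)) (.one (nat_lit 0x800000400600d00e000800c11c01c511)))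
def t301 : k301.all (jb2 57 fl b0) = true := by decide +kernel
noncomputable def k302 : KT := (.br (Nat.shiftLeft (nat_lit 0xd) (nat_lit 124)) (.br (Nat.shiftLeft (nat_lit 0xb) (nat_lit 124)) (.br (Nat.shiftLeft (nat_lit 0x5) (nat_lit 125)) (.one (nat_lit 0x900000400600d00e000800c13c41c511)) (.one (nat_lit 0xa00000400600d00e000800c15c81c511))) (.br (Nat.shiftLeft (nat_lit 0x3) (nat_lit 126)) (.one (nat_lit 0xb00000400600d00e000800c17cc1c511)) (.one (nat_lit 0xc00000400600d00e000800c19d01c511)))) (.br (Nat.shiftLeft (nat_lit 0x800001) (nat_lit 113)) (.br (Nat.shiftLeft (nat_lit 0x1) (nat_lit 136)) (.one (nat_lit 0xd00000400600d00e000800c1bd41c511)) (.one (nat_lit 0x100000100400600d00e200802c41a01c611))) (.br (Nat.shiftLeft (nat_lit 0x1000003) (nat_lit 112)) (.one (nat_lit 0x100000200400600d00e400802c41a01c611)) (.one (nat_lit 0x100000300400600d00e600802c41a01c611)))))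
def t302 : k302.all (jb2 57 fl b0) = true := by decide +kernel
noncomputable def k303 : KT := (.br (Nat.shiftLeft (nat_lit 0x3) (nat_lit 136)) (.br (Nat.shiftLeft (nat_lit 0x1000001) (nat_lit 113)) (.br (Nat.shiftLeft (nat_lit 0x1) (nat_lit 137)) (.one (nat_lit 0x100200300400600d00e600802c45a81c870)) (.one (nat_lit 0x200000100400600d00e200804c81a01c611))) (.br (Nat.shiftLeft (nat_lit 0x2000003) (nat_lit 112)) (.one (nat_lit 0x200000200400600d00e400804c81a01c611)) (.one (nat_lit 0x200000300400600d00e600804c81a01c611)))) (.br (Nat.shiftLeft (nat_lit 0x3000003) (nat_lit 112)) (.br (Nat.shiftLeft (nat_lit 0x1800001) (nat_lit 113)) (.one (nat_lit 0x300000100400600d00e200806cc1a01c611)) (.one (nat_lit 0x300000200400600d00e400806cc1a01c611))) (.br (Nat.shiftLeft (nat_lit 0x1) (nat_lit 138)) (.one (nat_lit 0x300000300400600d00e600806cc1a01c611)) (.br (Nat.shiftLeft (nat_lit 0x2000001) (nat_lit 113)) (.one (nat_lit 0x400000100400600d00e200808d01a01c611)) (.one (nat_lit 0x400000200400600d00e400808d01a01c611))))))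
def t303 : k303.all (jb2 57 fl b0) = true := by decide +kernel
noncomputable def k304 : KT := (.br (Nat.shiftLeft (nat_lit 0x5) (nat_lit 136)) (.one (nat_lit 0x400000300400600d00e600808d01a01c611)) (.br (Nat.shiftLeft (nat_lit 0x2800001) (nat_lit 113)) (.one (nat_lit 0x500000100400600d00e20080ad41a01c611)) (.one (nat_lit 0x500000200400600d00e40080ad41a01c611))))
def t304 : k304.all (jb2 57 fl b0) = true := by decide +kernel
noncomputable def k305 : KT := (.br (Nat.shiftLeft (nat_lit 0x3) (nat_lit 137)) (.one (nat_lit 0x500000300400600d00e60080ad41a01c611)) (.one (nat_lit 0x600000100400600d00e20080cd81a01c611)))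
def t305 : k305.all (jb2 57 fl b0) = true := by decide +kernel
noncomputable def k306 : KT := (.br (Nat.shiftLeft (nat_lit 0x6000003) (nat_lit 112)) (.one (nat_lit 0x600000200400600d00e40080cd81a01c611)) (.one (nat_lit 0x600000300400600d00e60080cd81a01c611)))
def t306 : k306.all (jb2 57 fl b0) = true := by decide +kernel
noncomputable def k307 : KT := (.one (nat_lit 0x700000100400600d00e20080edc1a01c611))
def t307 : k307.all (jb2 57 fl b0) = true := by decide +kernel
noncomputable def k308 : KT := (.br (Nat.shiftLeft (nat_lit 0x7000003) (nat_lit 112)) (.one (nat_lit 0x700000200400600d00e40080edc1a01c611)) (.one (nat_lit 0x700000300400600d00e60080edc1a01c611)))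
def t308 : k308.all (jb2 57 fl b0) = true := by decide +kernel
noncomputable def k309 : KT := (.br (Nat.shiftLeft (nat_lit 0x4000001) (nat_lit 113)) (.one (nat_lit 0x800000100400600d00e200810e01a01c611)) (.one (nat_lit 0x800000200400600d00e400810e01a01c611)))
def t309 : k309.all (jb2 57 fl b0) = true := by decide +kernel
noncomputable def k310 : KT := (.br (Nat.shiftLeft (nat_lit 0x4800001) (nat_lit 113)) (.br (Nat.shiftLeft (nat_lit 0x9) (nat_lit 136)) (.one (nat_lit 0x800000300400600d00e600810e01a01c611)) (.one (nat_lit 0x900000100400600d00e200812e41a01c611))) (.br (Nat.shiftLeft (nat_lit 0x9000003) (nat_lit 112)) (.one (nat_lit 0x900000200400600d00e400812e41a01c611)) (.one (nat_lit 0x900000300400600d00e600812e41a01c611))))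
def t310 : k310.all (jb2 57 fl b0) = true := by decide +kernel
noncomputable def k311 : KT := (.br (Nat.shiftLeft (nat_lit 0x5800001) (nat_lit 113)) (.br (Nat.shiftLeft (nat_lit 0xa000003) (nat_lit 112)) (.br (Nat.shiftLeft (nat_lit 0x5000001) (nat_lit 113)) (.one (nat_lit 0xa00000100400600d00e200814e81a01c611)) (.one (nat_lit 0xa00000200400600d00e400814e81a01c611))) (.br (Nat.shiftLeft (nat_lit 0xb) (nat_lit 136)) (.one (nat_lit 0xa00000300400600d00e600814e81a01c611)) (.one (nat_lit 0xb00000100400600d00e200816ec1a01c611)))) (.br (Nat.shiftLeft (nat_lit 0x3) (nat_lit 138)) (.br (Nat.shiftLeft (nat_lit 0xb000003) (nat_lit 112)) (.one (nat_lit 0xb00000200400600d00e400816ec1a01c611)) (.one (nat_lit 0xb00000300400600d00e600816ec1a01c611))) (.br (Nat.shiftLeft (nat_lit 0x6000001) (nat_lit 113)) (.one (nat_lit 0xc00000100400600d00e200818f01a01c611)) (.br (Nat.shiftLeft (nat_lit 0xc000003) (nat_lit 112)) (.one (nat_lit 0xc00000200400600d00e400818f01a01c611)) (.one (nat_lit 0xc00000300400600d00e600818f01a01c611))))))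
def t311 : k311.all (jb2 57 fl b0) = true := by decide +kernel
noncomputable def k312 : KT := (.br (Nat.shiftLeft (nat_lit 0x1000001) (nat_lit 125)) (.br (Nat.shiftLeft (nat_lit 0x1000001003) (nat_lit 112)) (.br (Nat.shiftLeft (nat_lit 0xd000003) (nat_lit 112)) (.br (Nat.shiftLeft (nat_lit 0x6800001) (nat_lit 113)) (.one (nat_lit 0xd00000100400600d00e20081af41a01c611)) (.one (nat_lit 0xd00000200400600d00e40081af41a01c611))) (.br (Nat.shiftLeft (nat_lit 0x1) (nat_lit 148)) (.one (nat_lit 0xd00000300400600d00e60081af41a01c611)) (.one (nat_lit 0x100000100200400600d00e402840c03a41c711)))) (.br (Nat.shiftLeft (nat_lit 0x1) (nat_lit 149)) (.br (Nat.shiftLeft (nat_lit 0x800001) (nat_lit 125)) (.one (nat_lit 0x100000100300400600d00e602840c03a41c711)) (.one (nat_lit 0x100000200300400600d00e602840c05a81c711))) (.br (Nat.shiftLeft (nat_lit 0x2000001003) (nat_lit 112)) (.one (nat_lit 0x200000100200400600d00e404880c03a41c711)) (.one (nat_lit 0x200000100300400600d00e604880c03a41c711))))) (.br (Nat.shiftLeft (nat_lit 0x1) (nat_lit 150)) (.br (Nat.shiftLeft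 (nat_lit 0x3000001003) (nat_lit 112)) (.br (Nat.shiftLeft (nat_lit 0x3) (nat_lit 148)) (.one (nat_lit 0x200000200300400600d00e604880c05a81c711)) (.one (nat_lit 0x300000100200400600d00e4068c0c03a41c711))) (.br (Nat.shiftLeft (nat_lit 0x1800001) (nat_lit 125)) (.one (nat_lit 0x300000100300400600d00e6068c0c03a41c711)) (.one (nat_lit 0x300000200300400600d00e6068c0c05a81c711)))) (.br (Nat.shiftLeft (nat_lit 0x2000001) (nat_lit 125)) (.br (Nat.shiftLeft (nat_lit 0x4000001003) (nat_lit 112)) (.one (nat_lit 0x400000100200400600d00e408900c03a41c711)) (.one (nat_lit 0x400000100300400600d00e608900c03a41c711))) (.br (Nat.shiftLeft (nat_lit 0x5) (nat_lit 148)) (.one (nat_lit 0x400000200300400600d00e608900c05a81c711)) (.one (nat_lit 0x500000100200400600d00e40a940c03a41c711))))))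
def t312 : k312.all (jb2 57 fl b0) = true := by decide +kernel
noncomputable def k313 : KT := (.br (Nat.shiftLeft (nat_lit 0x2800001) (nat_lit 125)) (.one (nat_lit 0x500000100300400600d00e60a940c03a41c711)) (.br (Nat.shiftLeft (nat_lit 0x3) (nat_lit 149)) (.one (nat_lit 0x500000200300400600d00e60a940c05a81c711)) (.one (nat_lit 0x600000100200400600d00e40c980c03a41c711))))
def t313 : k313.all (jb2 57 fl b0) = true := by decide +kernel
noncomputable def k314 : KT := (.br (Nat.shiftLeft (nat_lit 0x3000001) (nat_lit 125)) (.one (nat_lit 0x600000100300400600d00e60c980c03a41c711)) (.br (Nat.shiftLeft (nat_lit 0x7) (nat_lit 148)) (.one (nat_lit 0x600000200300400600d00e60c980c05a81c711)) (.one (nat_lit 0x700000100200400600d00e40e9c0c03a41c711))))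
def t314 : k314.all (jb2 57 fl b0) = true := by decide +kernel
noncomputable def k315 : KT := (.br (Nat.shiftLeft (nat_lit 0x1) (nat_lit 151)) (.br (Nat.shiftLeft (nat_lit 0x3800001) (nat_lit 125)) (.one (nat_lit 0x700000100300400600d00e60e9c0c03a41c711)) (.one (nat_lit 0x700000200300400600d00e60e9c0c05a81c711))) (.br (Nat.shiftLeft (nat_lit 0x8000001003) (nat_lit 112)) (.one (nat_lit 0x800000100200400600d00e410a00c03a41c711)) (.br (Nat.shiftLeft (nat_lit 0x4000001) (nat_lit 125)) (.one (nat_lit 0x800000100300400600d00e610a00c03a41c711)) (.one (nat_lit 0x800000200300400600d00e610a00c05a81c711)))))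
def t315 : k315.all (jb2 57 fl b0) = true := by decide +kernel
noncomputable def k316 : KT := (.br (Nat.shiftLeft (nat_lit 0xb000001003) (nat_lit 112)) (.br (Nat.shiftLeft (nat_lit 0x5) (nat_lit 149)) (.br (Nat.shiftLeft (nat_lit 0x9000001003) (nat_lit 112)) (.one (nat_lit 0x900000100200400600d00e412a40c03a41c711)) (.br (Nat.shiftLeft (nat_lit 0x4800001) (nat_lit 125)) (.one (nat_lit 0x900000100300400600d00e612a40c03a41c711)) (.one (nat_lit 0x900000200300400600d00e612a40c05a81c711)))) (.br (Nat.shiftLeft (nat_lit 0x5000001) (nat_lit 125)) (.br (Nat.shiftLeft (nat_lit 0xa000001003) (nat_lit 112)) (.one (nat_lit 0xa00000100200400600d00e414a80c03a41c711)) (.one (nat_lit 0xa00000100300400600d00e614a80c03a41c711))) (.br (Nat.shiftLeft (nat_lit 0xb) (nat_lit 148)) (.one (nat_lit 0xa00000200300400600d00e614a80c05a81c711)) (.one (nat_lit 0xb00000100200400600d00e416ac0c03a41c711))))) (.br (Nat.shiftLeft (nat_lit 0x6000001) (nat_lit 125)) (.br (Nat.shiftLeft (nat_lit 0x3) (nat_lit 150)) (.br (Nat.shiftLeft (nat_lit 0x5800001) (nat_lit 125)) (.one (nat_lit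 0xb00000100300400600d00e616ac0c03a41c711)) (.one (nat_lit 0xb00000200300400600d00e616ac0c05a81c711))) (.br (Nat.shiftLeft (nat_lit 0xc000001003) (nat_lit 112)) (.one (nat_lit 0xc00000100200400600d00e418b00c03a41c711)) (.one (nat_lit 0xc00000100300400600d00e618b00c03a41c711)))) (.br (Nat.shiftLeft (nat_lit 0xd000001003) (nat_lit 112)) (.br (Nat.shiftLeft (nat_lit 0xd) (nat_lit 148)) (.one (nat_lit 0xc00000200300400600d00e618b00c05a81c711)) (.one (nat_lit 0xd00000100200400600d00e41ab40c03a41c711))) (.br (Nat.shiftLeft (nat_lit 0x6800001) (nat_lit 125)) (.one (nat_lit 0xd00000100300400600d00e61ab40c03a41c711)) (.one (nat_lit 0xd00000200300400600d00e61ab40c05a81c711))))))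
def t316 : k316.all (jb2 57 fl b0) = true := by decide +kernel
noncomputable def s16 : KT := (.br (nat_lit 0x700000100400600d00e20080edc1a01c611) (.br (nat_lit 0x400000200400600d00e400808d01a01c611) (.br (nat_lit 0x800000400600d00e000800c11c01c511) (.br (nat_lit 0x600000400600d00e000800c0db81c511) k300 k301) (.br (nat_lit 0x100000300400600d00e600802c41a01c611) k302 k303)) (.br (nat_lit 0x600000100400600d00e20080cd81a01c611) (.br (nat_lit 0x500000200400600d00e40080ad41a01c611) k304 k305) (.br (nat_lit 0x600000300400600d00e60080cd81a01c611) k306 k307))) (.br (nat_lit 0xc00000300400600d00e600818f01a01c611) (.br (nat_lit 0x800000200400600d00e400810e01a01c611) (.br (nat_lit 0x700000300400600d00e60080edc1a01c611) k308 k309) (.br (nat_lit 0x900000300400600d00e600812e41a01c611) k310 k311)) (.br (nat_lit 0x600000100200400600d00e40c980c03a41c711) (.br (nat_lit 0x500000100200400600d00e40a940c03a41c711) k312 k313) (.br (nat_lit 0x700000100200400600d00e40e9c0c03a41c711) k314 (.br (nat_lit 0x800000200300400600d00e610a00c05a81c711) k315 k316)))))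
noncomputable def u16 : KT := (.one (nat_lit 0x400600d00e000800c01a01c540))
def w16 : u16.all (wj 57 s16) = true := by decide +kernel
def o16 : OkW 57 (jb2 57 fl) u16 := .lift s16 _ (.br _ _ _ (.br _ _ _ (.br _ _ _ (.br _ _ _ (.leaf b301 k300 t300) (.leaf b0 k301 t301)) (.br _ _ _ (.leaf b0 k302 t302) (.leaf b0 k303 t303))) (.br _ _ _ (.br _ _ _ (.leaf b0 k304 t304) (.leaf b0 k305 t305)) (.br _ _ _ (.leaf b0 k306 t306) (.leaf b0 k307 t307)))) (.br _ _ _ (.br _ _ _ (.br _ _ _ (.leaf b0 k308 t308) (.leaf b0 k309 t309)) (.br _ _ _ (.leaf b0 k310 t310) (.leaf b0 k311 t311))) (.br _ _ _ (.br _ _ _ (.leaf b0 k312 t312) (.leaf b0 k313 t313)) (.br _ _ _ (.leaf b0 k314 t314) (.br _ _ _ (.leaf b0 k315 t315) (.leaf b0 k316 t316)))))) w16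
noncomputable def k317 : KT := (.br (Nat.shiftLeft (nat_lit 0x1003) (nat_lit 112)) (.br (Nat.shiftLeft (nat_lit 0x3) (nat_lit 112)) (.br (Nat.shiftLeft (nat_lit 0x1) (nat_lit 112)) (.one (nat_lit 0x400600d00f000800c01a01f500)) (.br (Nat.shiftLeft (nat_lit 0x1) (nat_lit 113)) (.one (nat_lit 0x100400600d00f200800c01a01f600)) (.one (nat_lit 0x200400600d00f400800c01a01f600)))) (.br (Nat.shiftLeft (nat_lit 0x1) (nat_lit 124)) (.one (nat_lit 0x300400600d00f600800c01a01f600)) (.br (Nat.shiftLeft (nat_lit 0x801) (nat_lit 113)) (.one (nat_lit 0x100000400600d00f000800c03a41e511)) (.one (nat_lit 0x100200400600d00f400800c03a41f700))))) (.br (Nat.shiftLeft (nat_lit 0x3) (nat_lit 124)) (.br (Nat.shiftLeft (nat_lit 0x1) (nat_lit 125)) (.one (nat_lit 0x100300400600d00f600800c03a41f700)) (.br (Nat.shiftLeft (nat_lit 0x1001) (nat_lit 113)) (.one (nat_lit 0x200000400600d00f000800c05a81e511)) (.one (nat_lit 0x200300400600d00f600800c05a81f700)))) (.br (Nat.shiftLeft (nat_lit 0x5) (nat_lit 124)) (.br (Nat.shiftLeft (nat_lit 0x1) (nat_lit 126)) (.one (nat_lit 0x300000400600d00f000800c07ac1e511))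 (.one (nat_lit 0x400000400600d00f000800c09b01e511))) (.br (Nat.shiftLeft (nat_lit 0x3) (nat_lit 125)) (.one (nat_lit 0x500000400600d00f000800c0bb41e511)) (.one (nat_lit 0x600000400600d00f000800c0db81e511))))))
def t317 : k317.all (jb2 57 fl b0) = true := by decide +kernel
noncomputable def k318 : KT := (.br (Nat.shiftLeft (nat_lit 0x1) (nat_lit 127)) (.one (nat_lit 0x700000400600d00f000800c0fbc1e511)) (.one (nat_lit 0x800000400600d00f000800c11c01e511)))
def t318 : k318.all (jb2 57 fl b0) = true := by decide +kernel
noncomputable def k319 : KT := (.br (Nat.shiftLeft (nat_lit 0xd) (nat_lit 124)) (.br (Nat.shiftLeft (nat_lit 0xb) (nat_lit 124)) (.br (Nat.shiftLeft (nat_lit 0x5) (nat_lit 125)) (.one (nat_lit 0x900000400600d00f000800c13c41e511)) (.one (nat_lit 0xa00000400600d00f000800c15c81e511))) (.br (Nat.shiftLeft (nat_lit 0x3) (nat_lit 126)) (.one (nat_lit 0xb00000400600d00f000800c17cc1e511)) (.one (nat_lit 0xc00000400600d00f000800c19d01e511)))) (.br (Nat.shiftLeft (nat_lit 0x800001) (nat_lit 113)) (.br (Nat.shiftLeft (nat_lit 0x1) (nat_lit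 136)) (.one (nat_lit 0xd00000400600d00f000800c1bd41e511)) (.one (nat_lit 0x100000100400600d00f200802c41a01e611))) (.br (Nat.shiftLeft (nat_lit 0x1000003) (nat_lit 112)) (.one (nat_lit 0x100000200400600d00f400802c41a01e611)) (.one (nat_lit 0x100000300400600d00f600802c41a01e611)))))
def t319 : k319.all (jb2 57 fl b0) = true := by decide +kernel
noncomputable def k320 : KT := (.br (Nat.shiftLeft (nat_lit 0x1800001) (nat_lit 113)) (.br (Nat.shiftLeft (nat_lit 0x1000001) (nat_lit 113)) (.br (Nat.shiftLeft (nat_lit 0x1) (nat_lit 137)) (.one (nat_lit 0x100200300400600d00f600802c45a81e870)) (.one (nat_lit 0x200000100400600d00f200804c81a01e611))) (.br (Nat.shiftLeft (nat_lit 0x2000003) (nat_lit 112)) (.one (nat_lit 0x200000200400600d00f400804c81a01e611)) (.br (Nat.shiftLeft (nat_lit 0x3) (nat_lit 136)) (.one (nat_lit 0x200000300400600d00f600804c81a01e611)) (.one (nat_lit 0x300000100400600d00f200806cc1a01e611))))) (.br (Nat.shiftLeft (nat_lit 0x1) (nat_lit 138)) (.br (Nat.shiftLeft (nat_lit 0x3000003) (nat_lit 112)) (.one (nat_lit 0x300000200400600d00f400806cc1a01e611))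 (.one (nat_lit 0x300000300400600d00f600806cc1a01e611))) (.br (Nat.shiftLeft (nat_lit 0x2000001) (nat_lit 113)) (.one (nat_lit 0x400000100400600d00f200808d01a01e611)) (.br (Nat.shiftLeft (nat_lit 0x4000003) (nat_lit 112)) (.one (nat_lit 0x400000200400600d00f400808d01a01e611)) (.one (nat_lit 0x400000300400600d00f600808d01a01e611))))))
def t320 : k320.all (jb2 57 fl b0) = true := by decide +kernel
noncomputable def k321 : KT := (.br (Nat.shiftLeft (nat_lit 0x2800001) (nat_lit 113)) (.one (nat_lit 0x500000100400600d00f20080ad41a01e611)) (.br (Nat.shiftLeft (nat_lit 0x5000003) (nat_lit 112)) (.one (nat_lit 0x500000200400600d00f40080ad41a01e611)) (.one (nat_lit 0x500000300400600d00f60080ad41a01e611))))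
def t321 : k321.all (jb2 57 fl b0) = true := by decide +kernel
noncomputable def k322 : KT := (.br (Nat.shiftLeft (nat_lit 0x3000001) (nat_lit 113)) (.one (nat_lit 0x600000100400600d00f20080cd81a01e611)) (.one (nat_lit 0x600000200400600d00f40080cd81a01e611)))
def t322 : k322.all (jb2 57 fl b0) = true := by decide +kernel
noncomputable def k323 : KT := (.br (Nat.shiftLeft (nat_lit 0x7) (nat_lit 136)) (.one (nat_lit 0x600000300400600d00f60080cd81a01e611)) (.one (nat_lit 0x700000100400600d00f20080edc1a01e611)))
def t323 : k323.all (jb2 57 fl b0) = true := by decide +kernel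
noncomputable def k324 : KT := (.br (Nat.shiftLeft (nat_lit 0x7000003) (nat_lit 112)) (.one (nat_lit 0x700000200400600d00f40080edc1a01e611)) (.br (Nat.shiftLeft (nat_lit 0x1) (nat_lit 139)) (.one (nat_lit 0x700000300400600d00f60080edc1a01e611)) (.one (nat_lit 0x800000100400600d00f200810e01a01e611))))
def t324 : k324.all (jb2 57 fl b0) = true := by decide +kernel
noncomputable def k325 : KT := (.br (Nat.shiftLeft (nat_lit 0x9) (nat_lit 136)) (.br (Nat.shiftLeft (nat_lit 0x8000003) (nat_lit 112)) (.one (nat_lit 0x800000200400600d00f400810e01a01e611)) (.one (nat_lit 0x800000300400600d00f600810e01a01e611))) (.br (Nat.shiftLeft (nat_lit 0x4800001) (nat_lit 113)) (.one (nat_lit 0x900000100400600d00f200812e41a01e611)) (.one (nat_lit 0x900000200400600d00f400812e41a01e611))))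
def t325 : k325.all (jb2 57 fl b0) = true := by decide +kernel
noncomputable def k326 : KT := (.br (Nat.shiftLeft (nat_lit 0x6800001) (nat_lit 113)) (.br (Nat.shiftLeft (nat_lit 0x5800001) (nat_lit 113)) (.br (Nat.shiftLeft (nat_lit 0x5000001) (nat_lit 113)) (.br (Nat.shiftLeft (nat_lit 0x5) (nat_lit 137)) (.one (nat_lit 0x900000300400600d00f600812e41a01e611)) (.one (nat_lit 0xa00000100400600d00f200814e81a01e611))) (.br (Nat.shiftLeft (nat_lit 0xa000003) (nat_lit 112)) (.one (nat_lit 0xa00000200400600d00f400814e81a01e611)) (.br (Nat.shiftLeft (nat_lit 0xb) (nat_lit 136)) (.one (nat_lit 0xa00000300400600d00f600814e81a01e611)) (.one (nat_lit 0xb00000100400600d00f200816ec1a01e611))))) (.br (Nat.shiftLeft (nat_lit 0x6000001) (nat_lit 113)) (.br (Nat.shiftLeft (nat_lit 0xb000003) (nat_lit 112)) (.one (nat_lit 0xb00000200400600d00f400816ec1a01e611)) (.br (Nat.shiftLeft (nat_lit 0x3) (nat_lit 138)) (.one (nat_lit 0xb00000300400600d00f600816ec1a01e611)) (.one (nat_lit 0xc00000100400600d00f200818f01a01e611)))) (.br (Nat.shiftLeft (nat_lit 0xc000003)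 (nat_lit 112)) (.one (nat_lit 0xc00000200400600d00f400818f01a01e611)) (.br (Nat.shiftLeft (nat_lit 0xd) (nat_lit 136)) (.one (nat_lit 0xc00000300400600d00f600818f01a01e611)) (.one (nat_lit 0xd00000100400600d00f20081af41a01e611)))))) (.br (Nat.shiftLeft (nat_lit 0x1) (nat_lit 149)) (.br (Nat.shiftLeft (nat_lit 0x1) (nat_lit 148)) (.br (Nat.shiftLeft (nat_lit 0xd000003) (nat_lit 112)) (.one (nat_lit 0xd00000200400600d00f40081af41a01e611)) (.one (nat_lit 0xd00000300400600d00f60081af41a01e611))) (.br (Nat.shiftLeft (nat_lit 0x1000001003) (nat_lit 112)) (.one (nat_lit 0x100000100200400600d00f402840c03a41e711)) (.br (Nat.shiftLeft (nat_lit 0x800001) (nat_lit 125)) (.one (nat_lit 0x100000100300400600d00f602840c03a41e711)) (.one (nat_lit 0x100000200300400600d00f602840c05a81e711))))) (.br (Nat.shiftLeft (nat_lit 0x3) (nat_lit 148)) (.br (Nat.shiftLeft (nat_lit 0x2000001003) (nat_lit 112)) (.one (nat_lit 0x200000100200400600d00f404880c03a41e711)) (.br (Nat.shiftLeft (nat_lit 0x1000001) (nat_lit 125)) (.one (nat_lit 0x200000100300400600d00f604880c03a41e711))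 (.one (nat_lit 0x200000200300400600d00f604880c05a81e711)))) (.br (Nat.shiftLeft (nat_lit 0x3000001003) (nat_lit 112)) (.one (nat_lit 0x300000100200400600d00f4068c0c03a41e711)) (.br (Nat.shiftLeft (nat_lit 0x1800001) (nat_lit 125)) (.one (nat_lit 0x300000100300400600d00f6068c0c03a41e711)) (.one (nat_lit 0x300000200300400600d00f6068c0c05a81e711)))))))
def t326 : k326.all (jb2 57 fl b0) = true := by decide +kernel
noncomputable def k327 : KT := (.br (Nat.shiftLeft (nat_lit 0x2000001) (nat_lit 125)) (.br (Nat.shiftLeft (nat_lit 0x4000001003) (nat_lit 112)) (.one (nat_lit 0x400000100200400600d00f408900c03a41e711)) (.one (nat_lit 0x400000100300400600d00f608900c03a41e711))) (.br (Nat.shiftLeft (nat_lit 0x5) (nat_lit 148)) (.one (nat_lit 0x400000200300400600d00f608900c05a81e711)) (.br (Nat.shiftLeft (nat_lit 0x5000001003) (nat_lit 112)) (.one (nat_lit 0x500000100200400600d00f40a940c03a41e711)) (.one (nat_lit 0x500000100300400600d00f60a940c03a41e711)))))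
def t327 : k327.all (jb2 57 fl b0) = true := by decide +kernel
noncomputable def k328 : KT := (.br (Nat.shiftLeft (nat_lit 0x6000001003) (nat_lit 112)) (.br (Nat.shiftLeft (nat_lit 0x3) (nat_lit 149)) (.one (nat_lit 0x500000200300400600d00f60a940c05a81e711)) (.one (nat_lit 0x600000100200400600d00f40c980c03a41e711))) (.br (Nat.shiftLeft (nat_lit 0x3000001) (nat_lit 125)) (.one (nat_lit 0x600000100300400600d00f60c980c03a41e711)) (.one (nat_lit 0x600000200300400600d00f60c980c05a81e711))))
def t328 : k328.all (jb2 57 fl b0) = true := by decide +kernel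
noncomputable def k329 : KT := (.br (Nat.shiftLeft (nat_lit 0x1) (nat_lit 151)) (.br (Nat.shiftLeft (nat_lit 0x7000001003) (nat_lit 112)) (.one (nat_lit 0x700000100200400600d00f40e9c0c03a41e711)) (.br (Nat.shiftLeft (nat_lit 0x3800001) (nat_lit 125)) (.one (nat_lit 0x700000100300400600d00f60e9c0c03a41e711)) (.one (nat_lit 0x700000200300400600d00f60e9c0c05a81e711)))) (.br (Nat.shiftLeft (nat_lit 0x8000001003) (nat_lit 112)) (.one (nat_lit 0x800000100200400600d00f410a00c03a41e711)) (.br (Nat.shiftLeft (nat_lit 0x4000001) (nat_lit 125)) (.one (nat_lit 0x800000100300400600d00f610a00c03a41e711)) (.one (nat_lit 0x800000200300400600d00f610a00c05a81e711)))))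
def t329 : k329.all (jb2 57 fl b0) = true := by decide +kernel
noncomputable def k330 : KT := (.br (Nat.shiftLeft (nat_lit 0xb000001003) (nat_lit 112)) (.br (Nat.shiftLeft (nat_lit 0x5) (nat_lit 149)) (.br (Nat.shiftLeft (nat_lit 0x9000001003) (nat_lit 112)) (.one (nat_lit 0x900000100200400600d00f412a40c03a41e711)) (.br (Nat.shiftLeft (nat_lit 0x4800001) (nat_lit 125)) (.one (nat_lit 0x900000100300400600d00f612a40c03a41e711)) (.one (nat_lit 0x900000200300400600d00f612a40c05a81e711)))) (.br (Nat.shiftLeft (nat_lit 0x5000001) (nat_lit 125)) (.br (Nat.shiftLeft (nat_lit 0xa000001003) (nat_lit 112)) (.one (nat_lit 0xa00000100200400600d00f414a80c03a41e711)) (.one (nat_lit 0xa00000100300400600d00f614a80c03a41e711))) (.br (Nat.shiftLeft (nat_lit 0xb) (nat_lit 148)) (.one (nat_lit 0xa00000200300400600d00f614a80c05a81e711)) (.one (nat_lit 0xb00000100200400600d00f416ac0c03a41e711))))) (.br (Nat.shiftLeft (nat_lit 0x6000001) (nat_lit 125)) (.br (Nat.shiftLeft (nat_lit 0x3) (nat_lit 150)) (.br (Nat.shiftLeft (nat_lit 0x5800001) (nat_lit 125)) (.one (nat_lit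 0xb00000100300400600d00f616ac0c03a41e711)) (.one (nat_lit 0xb00000200300400600d00f616ac0c05a81e711))) (.br (Nat.shiftLeft (nat_lit 0xc000001003) (nat_lit 112)) (.one (nat_lit 0xc00000100200400600d00f418b00c03a41e711)) (.one (nat_lit 0xc00000100300400600d00f618b00c03a41e711)))) (.br (Nat.shiftLeft (nat_lit 0xd000001003) (nat_lit 112)) (.br (Nat.shiftLeft (nat_lit 0xd) (nat_lit 148)) (.one (nat_lit 0xc00000200300400600d00f618b00c05a81e711)) (.one (nat_lit 0xd00000100200400600d00f41ab40c03a41e711))) (.br (Nat.shiftLeft (nat_lit 0x6800001) (nat_lit 125)) (.one (nat_lit 0xd00000100300400600d00f61ab40c03a41e711)) (.one (nat_lit 0xd00000200300400600d00f61ab40c05a81e711))))))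
def t330 : k330.all (jb2 57 fl b0) = true := by decide +kernel
noncomputable def s17 : KT := (.br (nat_lit 0x700000100400600d00f20080edc1a01e611) (.br (nat_lit 0x100000300400600d00f600802c41a01e611) (.br (nat_lit 0x600000400600d00f000800c0db81e511) k317 (.br (nat_lit 0x800000400600d00f000800c11c01e511) k318 k319)) (.br (nat_lit 0x500000300400600d00f60080ad41a01e611) (.br (nat_lit 0x400000300400600d00f600808d01a01e611) k320 k321) (.br (nat_lit 0x600000200400600d00f40080cd81a01e611) k322 k323))) (.br (nat_lit 0x300000200300400600d00f6068c0c05a81e711) (.br (nat_lit 0x800000100400600d00f200810e01a01e611) k324 (.br (nat_lit 0x900000200400600d00f400812e41a01e611) k325 k326)) (.br (nat_lit 0x600000200300400600d00f60c980c05a81e711) (.br (nat_lit 0x500000100300400600d00f60a940c03a41e711) k327 k328) (.br (nat_lit 0x800000200300400600d00f610a00c05a81e711) k329 k330))))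
noncomputable def u17 : KT := (.one (nat_lit 0x400600d00f000800c01a01e540))
def w17 : u17.all (wj 57 s17) = true := by decide +kernel
def o17 : OkW 57 (jb2 57 fl) u17 := .lift s17 _ (.br _ _ _ (.br _ _ _ (.br _ _ _ (.leaf b0 k317 t317) (.br _ _ _ (.leaf b0 k318 t318) (.leaf b0 k319 t319))) (.br _ _ _ (.br _ _ _ (.leaf b0 k320 t320) (.leaf b0 k321 t321)) (.br _ _ _ (.leaf b0 k322 t322) (.leaf b0 k323 t323)))) (.br _ _ _ (.br _ _ _ (.leaf b0 k324 t324) (.br _ _ _ (.leaf b0 k325 t325) (.leaf b0 k326 t326))) (.br _ _ _ (.br _ _ _ (.leaf b0 k327 t327) (.leaf b0 k328 t328)) (.br _ _ _ (.leaf b0 k329 t329) (.leaf b0 k330 t330))))) w17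
noncomputable def k331 : KT := (.br (Nat.shiftLeft (nat_lit 0x3) (nat_lit 112)) (.br (Nat.shiftLeft (nat_lit 0x100400600d011) (nat_lit 64)) (.br (Nat.shiftLeft (nat_lit 0x400600d011) (nat_lit 64)) (.one (nat_lit 0x400600d010000800c01a021500)) (.br (Nat.shiftLeft (nat_lit 0x1) (nat_lit 112)) (.one (nat_lit 0x400600d011000800c01a023500)) (.one (nat_lit 0x100400600d010200800c01a021600)))) (.br (Nat.shiftLeft (nat_lit 0x1) (nat_lit 113)) (.one (nat_lit 0x100400600d011200800c01a023600)) (.br (Nat.shiftLeft (nat_lit 0x200400600d011) (nat_lit 64)) (.one (nat_lit 0x200400600d010400800c01a021600)) (.one (nat_lit 0x200400600d011400800c01a023600))))) (.br (Nat.shiftLeft (nat_lit 0x100000400600d011) (nat_lit 64)) (.br (Nat.shiftLeft (nat_lit 0x300400600d011) (nat_lit 64)) (.one (nat_lit 0x300400600d010600800c01a021600)) (.br (Nat.shiftLeft (nat_lit 0x1) (nat_lit 124)) (.one (nat_lit 0x300400600d011600800c01a023600)) (.one (nat_lit 0x100000400600d010000800c03a420511)))) (.br (Nat.shiftLeft (nat_lit 0x801) (nat_lit 113)) (.one (nat_lit 0x100000400600d011000800c03a422511))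 (.br (Nat.shiftLeft (nat_lit 0x100200400600d011) (nat_lit 64)) (.one (nat_lit 0x100200400600d010400800c03a421700)) (.one (nat_lit 0x100200400600d011400800c03a422760))))))
def t331 : k331.all (jb2 57 fl b0) = true := by decide +kernel
noncomputable def k332 : KT := (.one (nat_lit 0x100300400600d010600800c03a420760))
def t332 : k332.all (jb2 57 fl b0) = true := by decide +kernel
noncomputable def k333 : KT := (.br (Nat.shiftLeft (nat_lit 0x1) (nat_lit 125)) (.one (nat_lit 0x100300400600d011600800c03a422760)) (.br (Nat.shiftLeft (nat_lit 0x200000400600d011) (nat_lit 64)) (.one (nat_lit 0x200000400600d010000800c05a820511)) (.one (nat_lit 0x200000400600d011000800c05a822511))))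
def t333 : k333.all (jb2 57 fl b0) = true := by decide +kernel
noncomputable def k334 : KT := (.one (nat_lit 0x200300400600d010600800c05a820760))
def t334 : k334.all (jb2 57 fl b0) = true := by decide +kernel
noncomputable def k335 : KT := (.br (Nat.shiftLeft (nat_lit 0x1) (nat_lit 126)) (.br (Nat.shiftLeft (nat_lit 0x3) (nat_lit 124)) (.one (nat_lit 0x200300400600d011600800c05a822760)) (.br (Nat.shiftLeft (nat_lit 0x300000400600d011) (nat_lit 64)) (.one (nat_lit 0x300000400600d010000800c07ac20511)) (.one (nat_lit 0x300000400600d011000800c07ac22511)))) (.br (Nat.shiftLeft (nat_lit 0x400000400600d011) (nat_lit 64)) (.one (nat_lit 0x400000400600d010000800c09b020511)) (.br (Nat.shiftLeft (nat_lit 0x5) (nat_lit 124)) (.one (nat_lit 0x400000400600d011000800c09b022511)) (.one (nat_lit 0x500000400600d010000800c0bb420511)))))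
def t335 : k335.all (jb2 57 fl b0) = true := by decide +kernel
noncomputable def k336 : KT := (.br (Nat.shiftLeft (nat_lit 0x3) (nat_lit 125)) (.one (nat_lit 0x500000400600d011000800c0bb422511)) (.br (Nat.shiftLeft (nat_lit 0x600000400600d011) (nat_lit 64)) (.one (nat_lit 0x600000400600d010000800c0db820511)) (.one (nat_lit 0x600000400600d011000800c0db822511))))
def t336 : k336.all (jb2 57 fl b0) = true := by decide +kernel
noncomputable def k337 : KT := (.br (Nat.shiftLeft (nat_lit 0x700000400600d011) (nat_lit 64)) (.one (nat_lit 0x700000400600d010000800c0fbc20511)) (.br (Nat.shiftLeft (nat_lit 0x1) (nat_lit 127)) (.one (nat_lit 0x700000400600d011000800c0fbc22511)) (.one (nat_lit 0x800000400600d010000800c11c020511))))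
def t337 : k337.all (jb2 57 fl b0) = true := by decide +kernel
noncomputable def k338 : KT := (.br (Nat.shiftLeft (nat_lit 0x5) (nat_lit 125)) (.br (Nat.shiftLeft (nat_lit 0x9) (nat_lit 124)) (.one (nat_lit 0x800000400600d011000800c11c022511)) (.br (Nat.shiftLeft (nat_lit 0x900000400600d011) (nat_lit 64)) (.one (nat_lit 0x900000400600d010000800c13c420511)) (.one (nat_lit 0x900000400600d011000800c13c422511)))) (.br (Nat.shiftLeft (nat_lit 0xa00000400600d011) (nat_lit 64)) (.one (nat_lit 0xa00000400600d010000800c15c820511)) (.br (Nat.shiftLeft (nat_lit 0xb) (nat_lit 124)) (.one (nat_lit 0xa00000400600d011000800c15c822511)) (.one (nat_lit 0xb00000400600d010000800c17cc20511)))))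
def t338 : k338.all (jb2 57 fl b0) = true := by decide +kernel
noncomputable def k339 : KT := (.br (Nat.shiftLeft (nat_lit 0x200000200400600d011) (nat_lit 64)) (.br (Nat.shiftLeft (nat_lit 0x800001) (nat_lit 113)) (.br (Nat.shiftLeft (nat_lit 0xd) (nat_lit 124)) (.br (Nat.shiftLeft (nat_lit 0x3) (nat_lit 126)) (.one (nat_lit 0xb00000400600d011000800c17cc22511)) (.br (Nat.shiftLeft (nat_lit 0xc00000400600d011) (nat_lit 64)) (.one (nat_lit 0xc00000400600d010000800c19d020511)) (.one (nat_lit 0xc00000400600d011000800c19d022511)))) (.br (Nat.shiftLeft (nat_lit 0x1) (nat_lit 136)) (.br (Nat.shiftLeft (nat_lit 0xd00000400600d011) (nat_lit 64)) (.one (nat_lit 0xd00000400600d010000800c1bd420511)) (.one (nat_lit 0xd00000400600d011000800c1bd422511))) (.br (Nat.shiftLeft (nat_lit 0x100000100400600d011) (nat_lit 64)) (.one (nat_lit 0x100000100400600d010200802c41a020611)) (.one (nat_lit 0x100000100400600d011200802c41a022611))))) (.br (Nat.shiftLeft (nat_lit 0x100000300400600d011) (nat_lit 64)) (.br (Nat.shiftLeft (nat_lit 0x100000200400600d011) (nat_lit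 64)) (.one (nat_lit 0x100000200400600d010400802c41a020611)) (.br (Nat.shiftLeft (nat_lit 0x1000003) (nat_lit 112)) (.one (nat_lit 0x100000200400600d011400802c41a022611)) (.one (nat_lit 0x100000300400600d010600802c41a020611)))) (.br (Nat.shiftLeft (nat_lit 0x200000100400600d011) (nat_lit 64)) (.br (Nat.shiftLeft (nat_lit 0x1) (nat_lit 137)) (.one (nat_lit 0x100000300400600d011600802c41a022611)) (.one (nat_lit 0x200000100400600d010200804c81a020611))) (.br (Nat.shiftLeft (nat_lit 0x1000001) (nat_lit 113)) (.one (nat_lit 0x200000100400600d011200804c81a022611)) (.one (nat_lit 0x200000200400600d010400804c81a020611)))))) (.br (Nat.shiftLeft (nat_lit 0x3000003) (nat_lit 112)) (.br (Nat.shiftLeft (nat_lit 0x3) (nat_lit 136)) (.br (Nat.shiftLeft (nat_lit 0x2000003) (nat_lit 112)) (.one (nat_lit 0x200000200400600d011400804c81a022611)) (.br (Nat.shiftLeft (nat_lit 0x200000300400600d011) (nat_lit 64)) (.one (nat_lit 0x200000300400600d010600804c81a020611)) (.one (nat_lit 0x200000300400600d011600804c81a022611)))) (.br (Nat.shiftLeft (nat_lit 0x1800001) (nat_lit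 113)) (.br (Nat.shiftLeft (nat_lit 0x300000100400600d011) (nat_lit 64)) (.one (nat_lit 0x300000100400600d010200806cc1a020611)) (.one (nat_lit 0x300000100400600d011200806cc1a022611))) (.br (Nat.shiftLeft (nat_lit 0x300000200400600d011) (nat_lit 64)) (.one (nat_lit 0x300000200400600d010400806cc1a020611)) (.one (nat_lit 0x300000200400600d011400806cc1a022611))))) (.br (Nat.shiftLeft (nat_lit 0x2000001) (nat_lit 113)) (.br (Nat.shiftLeft (nat_lit 0x1) (nat_lit 138)) (.br (Nat.shiftLeft (nat_lit 0x300000300400600d011) (nat_lit 64)) (.one (nat_lit 0x300000300400600d010600806cc1a020611)) (.one (nat_lit 0x300000300400600d011600806cc1a022611))) (.br (Nat.shiftLeft (nat_lit 0x400000100400600d011) (nat_lit 64)) (.one (nat_lit 0x400000100400600d010200808d01a020611)) (.one (nat_lit 0x400000100400600d011200808d01a022611)))) (.br (Nat.shiftLeft (nat_lit 0x4000003) (nat_lit 112)) (.br (Nat.shiftLeft (nat_lit 0x400000200400600d011) (nat_lit 64)) (.one (nat_lit 0x400000200400600d010400808d01a020611)) (.one (nat_lit 0x400000200400600d011400808d01a022611))) (.br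 (Nat.shiftLeft (nat_lit 0x400000300400600d011) (nat_lit 64)) (.one (nat_lit 0x400000300400600d010600808d01a020611)) (.one (nat_lit 0x400000300400600d011600808d01a022611)))))))
def t339 : k339.all (jb2 57 fl b0) = true := by decide +kernel
noncomputable def k340 : KT := (.br (Nat.shiftLeft (nat_lit 0x2800001) (nat_lit 113)) (.br (Nat.shiftLeft (nat_lit 0x500000100400600d011) (nat_lit 64)) (.one (nat_lit 0x500000100400600d01020080ad41a020611)) (.one (nat_lit 0x500000100400600d01120080ad41a022611))) (.br (Nat.shiftLeft (nat_lit 0x500000200400600d011) (nat_lit 64)) (.one (nat_lit 0x500000200400600d01040080ad41a020611)) (.one (nat_lit 0x500000200400600d01140080ad41a022611))))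
def t340 : k340.all (jb2 57 fl b0) = true := by decide +kernel
noncomputable def k341 : KT := (.br (Nat.shiftLeft (nat_lit 0x500000300400600d011) (nat_lit 64)) (.one (nat_lit 0x500000300400600d01060080ad41a020611)) (.br (Nat.shiftLeft (nat_lit 0x3) (nat_lit 137)) (.one (nat_lit 0x500000300400600d01160080ad41a022611)) (.one (nat_lit 0x600000100400600d01020080cd81a020611))))
def t341 : k341.all (jb2 57 fl b0) = true := by decide +kernel
noncomputable def k342 : KT := (.br (Nat.shiftLeft (nat_lit 0x600000200400600d011) (nat_lit 64)) (.br (Nat.shiftLeft (nat_lit 0x3000001) (nat_lit 113)) (.one (nat_lit 0x600000100400600d01120080cd81a022611)) (.one (nat_lit 0x600000200400600d01040080cd81a020611))) (.br (Nat.shiftLeft (nat_lit 0x6000003) (nat_lit 112)) (.one (nat_lit 0x600000200400600d01140080cd81a022611)) (.one (nat_lit 0x600000300400600d01060080cd81a020611))))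
def t342 : k342.all (jb2 57 fl b0) = true := by decide +kernel
noncomputable def k343 : KT := (.br (Nat.shiftLeft (nat_lit 0x700000100400600d011) (nat_lit 64)) (.br (Nat.shiftLeft (nat_lit 0x7) (nat_lit 136)) (.one (nat_lit 0x600000300400600d01160080cd81a022611)) (.one (nat_lit 0x700000100400600d01020080edc1a020611))) (.br (Nat.shiftLeft (nat_lit 0x3800001) (nat_lit 113)) (.one (nat_lit 0x700000100400600d01120080edc1a022611)) (.one (nat_lit 0x700000200400600d01040080edc1a020611))))
def t343 : k343.all (jb2 57 fl b0) = true := by decide +kernel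
noncomputable def k344 : KT := (.br (Nat.shiftLeft (nat_lit 0x700000300400600d011) (nat_lit 64)) (.br (Nat.shiftLeft (nat_lit 0x7000003) (nat_lit 112)) (.one (nat_lit 0x700000200400600d01140080edc1a022611)) (.one (nat_lit 0x700000300400600d01060080edc1a020611))) (.br (Nat.shiftLeft (nat_lit 0x1) (nat_lit 139)) (.one (nat_lit 0x700000300400600d01160080edc1a022611)) (.br (Nat.shiftLeft (nat_lit 0x800000100400600d011) (nat_lit 64)) (.one (nat_lit 0x800000100400600d010200810e01a020611)) (.one (nat_lit 0x800000100400600d011200810e01a022611)))))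
def t344 : k344.all (jb2 57 fl b0) = true := by decide +kernel
noncomputable def k345 : KT := (.br (Nat.shiftLeft (nat_lit 0x800000300400600d011) (nat_lit 64)) (.br (Nat.shiftLeft (nat_lit 0x800000200400600d011) (nat_lit 64)) (.one (nat_lit 0x800000200400600d010400810e01a020611)) (.br (Nat.shiftLeft (nat_lit 0x8000003) (nat_lit 112)) (.one (nat_lit 0x800000200400600d011400810e01a022611)) (.one (nat_lit 0x800000300400600d010600810e01a020611)))) (.br (Nat.shiftLeft (nat_lit 0x900000100400600d011) (nat_lit 64)) (.br (Nat.shiftLeft (nat_lit 0x9) (nat_lit 136)) (.one (nat_lit 0x800000300400600d011600810e01a022611)) (.one (nat_lit 0x900000100400600d010200812e41a020611))) (.br (Nat.shiftLeft (nat_lit 0x4800001) (nat_lit 113)) (.one (nat_lit 0x900000100400600d011200812e41a022611)) (.one (nat_lit 0x900000200400600d010400812e41a020611)))))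
def t345 : k345.all (jb2 57 fl b0) = true := by decide +kernel
noncomputable def k346 : KT := (.br (Nat.shiftLeft (nat_lit 0xb00000300400600d011) (nat_lit 64)) (.br (Nat.shiftLeft (nat_lit 0xa000003) (nat_lit 112)) (.br (Nat.shiftLeft (nat_lit 0x5) (nat_lit 137)) (.br (Nat.shiftLeft (nat_lit 0x9000003) (nat_lit 112)) (.one (nat_lit 0x900000200400600d011400812e41a022611)) (.br (Nat.shiftLeft (nat_lit 0x900000300400600d011) (nat_lit 64)) (.one (nat_lit 0x900000300400600d010600812e41a020611)) (.one (nat_lit 0x900000300400600d011600812e41a022611)))) (.br (Nat.shiftLeft (nat_lit 0x5000001) (nat_lit 113)) (.br (Nat.shiftLeft (nat_lit 0xa00000100400600d011) (nat_lit 64)) (.one (nat_lit 0xa00000100400600d010200814e81a020611)) (.one (nat_lit 0xa00000100400600d011200814e81a022611))) (.br (Nat.shiftLeft (nat_lit 0xa00000200400600d011) (nat_lit 64)) (.one (nat_lit 0xa00000200400600d010400814e81a020611)) (.one (nat_lit 0xa00000200400600d011400814e81a022611))))) (.br (Nat.shiftLeft (nat_lit 0xb00000100400600d011) (nat_lit 64)) (.br (Nat.shiftLeft (nat_lit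 0xa00000300400600d011) (nat_lit 64)) (.one (nat_lit 0xa00000300400600d010600814e81a020611)) (.br (Nat.shiftLeft (nat_lit 0xb) (nat_lit 136)) (.one (nat_lit 0xa00000300400600d011600814e81a022611)) (.one (nat_lit 0xb00000100400600d010200816ec1a020611)))) (.br (Nat.shiftLeft (nat_lit 0xb00000200400600d011) (nat_lit 64)) (.br (Nat.shiftLeft (nat_lit 0x5800001) (nat_lit 113)) (.one (nat_lit 0xb00000100400600d011200816ec1a022611)) (.one (nat_lit 0xb00000200400600d010400816ec1a020611))) (.br (Nat.shiftLeft (nat_lit 0xb000003) (nat_lit 112)) (.one (nat_lit 0xb00000200400600d011400816ec1a022611)) (.one (nat_lit 0xb00000300400600d010600816ec1a020611)))))) (.br (Nat.shiftLeft (nat_lit 0xd) (nat_lit 136)) (.br (Nat.shiftLeft (nat_lit 0x6000001) (nat_lit 113)) (.br (Nat.shiftLeft (nat_lit 0x3) (nat_lit 138)) (.one (nat_lit 0xb00000300400600d011600816ec1a022611)) (.br (Nat.shiftLeft (nat_lit 0xc00000100400600d011) (nat_lit 64)) (.one (nat_lit 0xc00000100400600d010200818f01a020611)) (.one (nat_lit 0xc00000100400600d011200818f01a022611)))) (.br (Nat.shiftLeft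 (nat_lit 0xc000003) (nat_lit 112)) (.br (Nat.shiftLeft (nat_lit 0xc00000200400600d011) (nat_lit 64)) (.one (nat_lit 0xc00000200400600d010400818f01a020611)) (.one (nat_lit 0xc00000200400600d011400818f01a022611))) (.br (Nat.shiftLeft (nat_lit 0xc00000300400600d011) (nat_lit 64)) (.one (nat_lit 0xc00000300400600d010600818f01a020611)) (.one (nat_lit 0xc00000300400600d011600818f01a022611))))) (.br (Nat.shiftLeft (nat_lit 0xd00000200400600d011) (nat_lit 64)) (.br (Nat.shiftLeft (nat_lit 0xd00000100400600d011) (nat_lit 64)) (.one (nat_lit 0xd00000100400600d01020081af41a020611)) (.br (Nat.shiftLeft (nat_lit 0x6800001) (nat_lit 113)) (.one (nat_lit 0xd00000100400600d01120081af41a022611)) (.one (nat_lit 0xd00000200400600d01040081af41a020611)))) (.br (Nat.shiftLeft (nat_lit 0xd00000300400600d011) (nat_lit 64)) (.br (Nat.shiftLeft (nat_lit 0xd000003) (nat_lit 112)) (.one (nat_lit 0xd00000200400600d01140081af41a022611)) (.one (nat_lit 0xd00000300400600d01060081af41a020611))) (.br (Nat.shiftLeft (nat_lit 0x1) (nat_lit 148)) (.one (nat_lit 0xd00000300400600d01160081af41a022611))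 (.one (nat_lit 0x100000100200400600d010402840c03a420711)))))))
def t346 : k346.all (jb2 57 fl b0) = true := by decide +kernel
noncomputable def k347 : KT := (.br (Nat.shiftLeft (nat_lit 0x3) (nat_lit 149)) (.br (Nat.shiftLeft (nat_lit 0x1) (nat_lit 150)) (.br (Nat.shiftLeft (nat_lit 0x3) (nat_lit 148)) (.one (nat_lit 0x200000100200400600d010404880c03a420711)) (.one (nat_lit 0x300000100200400600d0104068c0c03a420711))) (.br (Nat.shiftLeft (nat_lit 0x5) (nat_lit 148)) (.one (nat_lit 0x400000100200400600d010408900c03a420711)) (.one (nat_lit 0x500000100200400600d01040a940c03a420711)))) (.br (Nat.shiftLeft (nat_lit 0x1) (nat_lit 151)) (.br (Nat.shiftLeft (nat_lit 0x7) (nat_lit 148)) (.one (nat_lit 0x600000100200400600d01040c980c03a420711)) (.one (nat_lit 0x700000100200400600d01040e9c0c03a420711))) (.br (Nat.shiftLeft (nat_lit 0x9) (nat_lit 148)) (.one (nat_lit 0x800000100200400600d010410a00c03a420711)) (.one (nat_lit 0x900000100200400600d010412a40c03a420711)))))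
def t347 : k347.all (jb2 57 fl b0) = true := by decide +kernel
noncomputable def k348 : KT := (.br (Nat.shiftLeft (nat_lit 0x3) (nat_lit 150)) (.br (Nat.shiftLeft (nat_lit 0xb) (nat_lit 148)) (.one (nat_lit 0xa00000100200400600d010414a80c03a420711)) (.one (nat_lit 0xb00000100200400600d010416ac0c03a420711))) (.br (Nat.shiftLeft (nat_lit 0xd) (nat_lit 148)) (.one (nat_lit 0xc00000100200400600d010418b00c03a420711)) (.one (nat_lit 0xd00000100200400600d01041ab40c03a420711))))
def t348 : k348.all (jb2 57 fl b0) = true := by decide +kernel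
noncomputable def s18 : KT := (.br (nat_lit 0x400000300400600d011600808d01a022611) (.br (nat_lit 0x200300400600d010600800c05a820760) (.br (nat_lit 0x100300400600d010600800c03a420760) (.br (nat_lit 0x100200400600d011400800c03a422760) k331 k332) (.br (nat_lit 0x200000400600d011000800c05a822511) k333 k334)) (.br (nat_lit 0x600000400600d011000800c0db822511) (.br (nat_lit 0x500000400600d010000800c0bb420511) k335 k336) (.br (nat_lit 0x800000400600d010000800c11c020511) k337 (.br (nat_lit 0xb00000400600d010000800c17cc20511) k338 k339)))) (.br (nat_lit 0x700000200400600d01040080edc1a020611) (.br (nat_lit 0x600000100400600d01020080cd81a020611) (.br (nat_lit 0x500000200400600d01140080ad41a022611) k340 k341) (.br (nat_lit 0x600000300400600d01060080cd81a020611) k342 k343)) (.br (nat_lit 0x900000200400600d010400812e41a020611) (.br (nat_lit 0x800000100400600d011200810e01a022611) k344 k345) (.br (nat_lit 0x100000100200400600d010402840c03a420711) k346 (.br (nat_lit 0x900000100200400600d010412a40c03a420711) k347 k348)))))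
noncomputable def u18 : KT := (.br (Nat.shiftLeft (nat_lit 0x400600d011) (nat_lit 64)) (.one (nat_lit 0x400600d010000800c01a020540)) (.one (nat_lit 0x400600d011000800c01a022540)))
def w18 : u18.all (wj 57 s18) = true := by decide +kernel
def o18 : OkW 57 (jb2 57 fl) u18 := .lift s18 _ (.br _ _ _ (.br _ _ _ (.br _ _ _ (.br _ _ _ (.leaf b0 k331 t331) (.leaf b0 k332 t332)) (.br _ _ _ (.leaf b0 k333 t333) (.leaf b0 k334 t334))) (.br _ _ _ (.br _ _ _ (.leaf b0 k335 t335) (.leaf b0 k336 t336)) (.br _ _ _ (.leaf b0 k337 t337) (.br _ _ _ (.leaf b0 k338 t338) (.leaf b0 k339 t339))))) (.br _ _ _ (.br _ _ _ (.br _ _ _ (.leaf b0 k340 t340) (.leaf b0 k341 t341)) (.br _ _ _ (.leaf b0 k342 t342) (.leaf b0 k343 t343))) (.br _ _ _ (.br _ _ _ (.leaf b0 k344 t344) (.leaf b0 k345 t345)) (.br _ _ _ (.leaf b0 k346 t346) (.br _ _ _ (.leaf b0 k347 t347) (.leaf b0 k348 t348)))))) w18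
noncomputable def k349 : KT := (.br (Nat.shiftLeft (nat_lit 0x100400600e01) (nat_lit 68)) (.br (Nat.shiftLeft (nat_lit 0x2003804007) (nat_lit 65)) (.br (Nat.shiftLeft (nat_lit 0x400600e01) (nat_lit 68)) (.one (nat_lit 0x400600e00f000800c01c01f500)) (.br (Nat.shiftLeft (nat_lit 0x4007) (nat_lit 88)) (.one (nat_lit 0x400600e010000800c01c021500)) (.one (nat_lit 0x400700800d000800e01001b500)))) (.br (Nat.shiftLeft (nat_lit 0x400700801) (nat_lit 68)) (.br (Nat.shiftLeft (nat_lit 0x400700800f) (nat_lit 64)) (.one (nat_lit 0x400700800e000800e01001d500)) (.one (nat_lit 0x400700800f000800e01001f500))) (.br (Nat.shiftLeft (nat_lit 0x1) (nat_lit 112)) (.one (nat_lit 0x4007008010000800e010021500)) (.one (nat_lit 0x100400600e00f200800c01c01f600))))) (.br (Nat.shiftLeft (nat_lit 0x300400600e01) (nat_lit 68)) (.br (Nat.shiftLeft (nat_lit 0x200400600e01) (nat_lit 68)) (.br (Nat.shiftLeft (nat_lit 0x1) (nat_lit 113)) (.one (nat_lit 0x100400600e010200800c01c021600)) (.one (nat_lit 0x200400600e00f400800c01c01f600))) (.br (Nat.shiftLeft (nat_lit 0x3) (nat_lit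 112)) (.one (nat_lit 0x200400600e010400800c01c021600)) (.one (nat_lit 0x300400600e00f600800c01c01f600)))) (.br (Nat.shiftLeft (nat_lit 0x100000400600e01) (nat_lit 68)) (.br (Nat.shiftLeft (nat_lit 0x1) (nat_lit 124)) (.one (nat_lit 0x300400600e010600800c01c021600)) (.one (nat_lit 0x100000400600e00f000800c03c41e511))) (.br (Nat.shiftLeft (nat_lit 0x801) (nat_lit 113)) (.one (nat_lit 0x100000400600e010000800c03c420511)) (.one (nat_lit 0x100200400600e00f400800c03c41e760))))))
def t349 : k349.all (jb2 57 fl b0) = true := by decide +kernel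
noncomputable def k350 : KT := (.one (nat_lit 0x100200400600e010400800c03c420760))
def t350 : k350.all (jb2 57 fl b0) = true := by decide +kernel
noncomputable def k351 : KT := (.one (nat_lit 0x100300400600e00f600800c03c41e760))
def t351 : k351.all (jb2 57 fl b0) = true := by decide +kernel
noncomputable def k352 : KT := (.br (Nat.shiftLeft (nat_lit 0x1) (nat_lit 125)) (.one (nat_lit 0x100300400600e010600800c03c420760)) (.br (Nat.shiftLeft (nat_lit 0x200000400600e01) (nat_lit 68)) (.one (nat_lit 0x200000400600e00f000800c05c81e511)) (.one (nat_lit 0x200000400600e010000800c05c820511))))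
def t352 : k352.all (jb2 57 fl b0) = true := by decide +kernel
noncomputable def k353 : KT := (.one (nat_lit 0x200300400600e00f600800c05c81e760))
def t353 : k353.all (jb2 57 fl b0) = true := by decide +kernel
noncomputable def k354 : KT := (.br (Nat.shiftLeft (nat_lit 0x1) (nat_lit 126)) (.br (Nat.shiftLeft (nat_lit 0x3) (nat_lit 124)) (.one (nat_lit 0x200300400600e010600800c05c820760)) (.br (Nat.shiftLeft (nat_lit 0x300000400600e01) (nat_lit 68)) (.one (nat_lit 0x300000400600e00f000800c07cc1e511)) (.one (nat_lit 0x300000400600e010000800c07cc20511)))) (.br (Nat.shiftLeft (nat_lit 0x400000400600e01) (nat_lit 68)) (.one (nat_lit 0x400000400600e00f000800c09d01e511)) (.br (Nat.shiftLeft (nat_lit 0x5) (nat_lit 124)) (.one (nat_lit 0x400000400600e010000800c09d020511)) (.one (nat_lit 0x500000400600e00f000800c0bd41e511)))))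
def t354 : k354.all (jb2 57 fl b0) = true := by decide +kernel
noncomputable def k355 : KT := (.br (Nat.shiftLeft (nat_lit 0x600000400600e01) (nat_lit 68)) (.br (Nat.shiftLeft (nat_lit 0x3) (nat_lit 125)) (.one (nat_lit 0x500000400600e010000800c0bd420511)) (.one (nat_lit 0x600000400600e00f000800c0dd81e511))) (.br (Nat.shiftLeft (nat_lit 0x7) (nat_lit 124)) (.one (nat_lit 0x600000400600e010000800c0dd820511)) (.one (nat_lit 0x700000400600e00f000800c0fdc1e511))))
def t355 : k355.all (jb2 57 fl b0) = true := by decide +kernel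
noncomputable def k356 : KT := (.br (Nat.shiftLeft (nat_lit 0x800000400600e01) (nat_lit 68)) (.br (Nat.shiftLeft (nat_lit 0x1) (nat_lit 127)) (.one (nat_lit 0x700000400600e010000800c0fdc20511)) (.one (nat_lit 0x800000400600e00f000800c11e01e511))) (.br (Nat.shiftLeft (nat_lit 0x9) (nat_lit 124)) (.one (nat_lit 0x800000400600e010000800c11e020511)) (.br (Nat.shiftLeft (nat_lit 0x900000400600e01) (nat_lit 68)) (.one (nat_lit 0x900000400600e00f000800c13e41e511)) (.one (nat_lit 0x900000400600e010000800c13e420511)))))
def t356 : k356.all (jb2 57 fl b0) = true := by decide +kernel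
noncomputable def k357 : KT := (.br (Nat.shiftLeft (nat_lit 0x100000300400600e01) (nat_lit 68)) (.br (Nat.shiftLeft (nat_lit 0xd00000400600e01) (nat_lit 68)) (.br (Nat.shiftLeft (nat_lit 0xb00000400600e01) (nat_lit 68)) (.br (Nat.shiftLeft (nat_lit 0xa00000400600e01) (nat_lit 68)) (.one (nat_lit 0xa00000400600e00f000800c15e81e511)) (.br (Nat.shiftLeft (nat_lit 0xb) (nat_lit 124)) (.one (nat_lit 0xa00000400600e010000800c15e820511)) (.one (nat_lit 0xb00000400600e00f000800c17ec1e511)))) (.br (Nat.shiftLeft (nat_lit 0xc00000400600e01) (nat_lit 68)) (.br (Nat.shiftLeft (nat_lit 0x3) (nat_lit 126)) (.one (nat_lit 0xb00000400600e010000800c17ec20511)) (.one (nat_lit 0xc00000400600e00f000800c19f01e511))) (.br (Nat.shiftLeft (nat_lit 0xd) (nat_lit 124)) (.one (nat_lit 0xc00000400600e010000800c19f020511)) (.one (nat_lit 0xd00000400600e00f000800c1bf41e511))))) (.br (Nat.shiftLeft (nat_lit 0x100000100400600e01) (nat_lit 68)) (.br (Nat.shiftLeft (nat_lit 0xe00000400600e01) (nat_lit 68)) (.br (Nat.shiftLeft (nat_lit 0x7) (nat_lit 125)) (.one (nat_lit 0xd00000400600e010000800c1bf420511))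 (.one (nat_lit 0xe00000400600e00f000800c1df81e511))) (.br (Nat.shiftLeft (nat_lit 0x1) (nat_lit 136)) (.one (nat_lit 0xe00000400600e010000800c1df820511)) (.one (nat_lit 0x100000100400600e00f200802c41c01e611)))) (.br (Nat.shiftLeft (nat_lit 0x100000200400600e01) (nat_lit 68)) (.br (Nat.shiftLeft (nat_lit 0x800001) (nat_lit 113)) (.one (nat_lit 0x100000100400600e010200802c41c020611)) (.one (nat_lit 0x100000200400600e00f400802c41c01e611))) (.br (Nat.shiftLeft (nat_lit 0x1000003) (nat_lit 112)) (.one (nat_lit 0x100000200400600e010400802c41c020611)) (.one (nat_lit 0x100000300400600e00f600802c41c01e611)))))) (.br (Nat.shiftLeft (nat_lit 0x3) (nat_lit 136)) (.br (Nat.shiftLeft (nat_lit 0x1000001) (nat_lit 113)) (.br (Nat.shiftLeft (nat_lit 0x1) (nat_lit 137)) (.one (nat_lit 0x100000300400600e010600802c41c020611)) (.br (Nat.shiftLeft (nat_lit 0x200000100400600e01) (nat_lit 68)) (.one (nat_lit 0x200000100400600e00f200804c81c01e611)) (.one (nat_lit 0x200000100400600e010200804c81c020611)))) (.br (Nat.shiftLeft (nat_lit 0x2000003) (nat_lit 112)) (.br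 (Nat.shiftLeft (nat_lit 0x200000200400600e01) (nat_lit 68)) (.one (nat_lit 0x200000200400600e00f400804c81c01e611)) (.one (nat_lit 0x200000200400600e010400804c81c020611))) (.br (Nat.shiftLeft (nat_lit 0x200000300400600e01) (nat_lit 68)) (.one (nat_lit 0x200000300400600e00f600804c81c01e611)) (.one (nat_lit 0x200000300400600e010600804c81c020611))))) (.br (Nat.shiftLeft (nat_lit 0x3000003) (nat_lit 112)) (.br (Nat.shiftLeft (nat_lit 0x1800001) (nat_lit 113)) (.br (Nat.shiftLeft (nat_lit 0x300000100400600e01) (nat_lit 68)) (.one (nat_lit 0x300000100400600e00f200806cc1c01e611)) (.one (nat_lit 0x300000100400600e010200806cc1c020611))) (.br (Nat.shiftLeft (nat_lit 0x300000200400600e01) (nat_lit 68)) (.one (nat_lit 0x300000200400600e00f400806cc1c01e611)) (.one (nat_lit 0x300000200400600e010400806cc1c020611)))) (.br (Nat.shiftLeft (nat_lit 0x1) (nat_lit 138)) (.br (Nat.shiftLeft (nat_lit 0x300000300400600e01) (nat_lit 68)) (.one (nat_lit 0x300000300400600e00f600806cc1c01e611)) (.one (nat_lit 0x300000300400600e010600806cc1c020611))) (.br (Nat.shiftLeft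 (nat_lit 0x400000100400600e01) (nat_lit 68)) (.one (nat_lit 0x400000100400600e00f200808d01c01e611)) (.one (nat_lit 0x400000100400600e010200808d01c020611)))))))
def t357 : k357.all (jb2 57 fl b0) = true := by decide +kernel
noncomputable def k358 : KT := (.br (Nat.shiftLeft (nat_lit 0x400000300400600e01) (nat_lit 68)) (.br (Nat.shiftLeft (nat_lit 0x400000200400600e01) (nat_lit 68)) (.one (nat_lit 0x400000200400600e00f400808d01c01e611)) (.br (Nat.shiftLeft (nat_lit 0x4000003) (nat_lit 112)) (.one (nat_lit 0x400000200400600e010400808d01c020611)) (.one (nat_lit 0x400000300400600e00f600808d01c01e611)))) (.br (Nat.shiftLeft (nat_lit 0x5) (nat_lit 136)) (.one (nat_lit 0x400000300400600e010600808d01c020611)) (.br (Nat.shiftLeft (nat_lit 0x500000100400600e01) (nat_lit 68)) (.one (nat_lit 0x500000100400600e00f20080ad41c01e611)) (.one (nat_lit 0x500000100400600e01020080ad41c020611)))))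
def t358 : k358.all (jb2 57 fl b0) = true := by decide +kernel
noncomputable def k359 : KT := (.br (Nat.shiftLeft (nat_lit 0x5000003) (nat_lit 112)) (.br (Nat.shiftLeft (nat_lit 0x500000200400600e01) (nat_lit 68)) (.one (nat_lit 0x500000200400600e00f40080ad41c01e611)) (.one (nat_lit 0x500000200400600e01040080ad41c020611))) (.br (Nat.shiftLeft (nat_lit 0x500000300400600e01) (nat_lit 68)) (.one (nat_lit 0x500000300400600e00f60080ad41c01e611)) (.one (nat_lit 0x500000300400600e01060080ad41c020611))))
def t359 : k359.all (jb2 57 fl b0) = true := by decide +kernel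
noncomputable def k360 : KT := (.br (Nat.shiftLeft (nat_lit 0x600000100400600e01) (nat_lit 68)) (.one (nat_lit 0x600000100400600e00f20080cd81c01e611)) (.br (Nat.shiftLeft (nat_lit 0x3000001) (nat_lit 113)) (.one (nat_lit 0x600000100400600e01020080cd81c020611)) (.one (nat_lit 0x600000200400600e00f40080cd81c01e611))))
def t360 : k360.all (jb2 57 fl b0) = true := by decide +kernel
noncomputable def k361 : KT := (.br (Nat.shiftLeft (nat_lit 0x600000300400600e01) (nat_lit 68)) (.br (Nat.shiftLeft (nat_lit 0x6000003) (nat_lit 112)) (.one (nat_lit 0x600000200400600e01040080cd81c020611)) (.one (nat_lit 0x600000300400600e00f60080cd81c01e611))) (.br (Nat.shiftLeft (nat_lit 0x7) (nat_lit 136)) (.one (nat_lit 0x600000300400600e01060080cd81c020611)) (.one (nat_lit 0x700000100400600e00f20080edc1c01e611))))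
def t361 : k361.all (jb2 57 fl b0) = true := by decide +kernel
noncomputable def k362 : KT := (.br (Nat.shiftLeft (nat_lit 0x700000200400600e01) (nat_lit 68)) (.br (Nat.shiftLeft (nat_lit 0x3800001) (nat_lit 113)) (.one (nat_lit 0x700000100400600e01020080edc1c020611)) (.one (nat_lit 0x700000200400600e00f40080edc1c01e611))) (.br (Nat.shiftLeft (nat_lit 0x7000003) (nat_lit 112)) (.one (nat_lit 0x700000200400600e01040080edc1c020611)) (.br (Nat.shiftLeft (nat_lit 0x700000300400600e01) (nat_lit 68)) (.one (nat_lit 0x700000300400600e00f60080edc1c01e611)) (.one (nat_lit 0x700000300400600e01060080edc1c020611)))))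
def t362 : k362.all (jb2 57 fl b0) = true := by decide +kernel
noncomputable def k363 : KT := (.br (Nat.shiftLeft (nat_lit 0x800000200400600e01) (nat_lit 68)) (.br (Nat.shiftLeft (nat_lit 0x800000100400600e01) (nat_lit 68)) (.one (nat_lit 0x800000100400600e00f200810e01c01e611)) (.br (Nat.shiftLeft (nat_lit 0x4000001) (nat_lit 113)) (.one (nat_lit 0x800000100400600e010200810e01c020611)) (.one (nat_lit 0x800000200400600e00f400810e01c01e611)))) (.br (Nat.shiftLeft (nat_lit 0x800000300400600e01) (nat_lit 68)) (.br (Nat.shiftLeft (nat_lit 0x8000003) (nat_lit 112)) (.one (nat_lit 0x800000200400600e010400810e01c020611)) (.one (nat_lit 0x800000300400600e00f600810e01c01e611))) (.br (Nat.shiftLeft (nat_lit 0x9) (nat_lit 136)) (.one (nat_lit 0x800000300400600e010600810e01c020611)) (.one (nat_lit 0x900000100400600e00f200812e41c01e611)))))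
def t363 : k363.all (jb2 57 fl b0) = true := by decide +kernel
noncomputable def k364 : KT := (.br (Nat.shiftLeft (nat_lit 0xb) (nat_lit 136)) (.br (Nat.shiftLeft (nat_lit 0x5) (nat_lit 137)) (.br (Nat.shiftLeft (nat_lit 0x900000200400600e01) (nat_lit 68)) (.br (Nat.shiftLeft (nat_lit 0x4800001) (nat_lit 113)) (.one (nat_lit 0x900000100400600e010200812e41c020611)) (.one (nat_lit 0x900000200400600e00f400812e41c01e611))) (.br (Nat.shiftLeft (nat_lit 0x9000003) (nat_lit 112)) (.one (nat_lit 0x900000200400600e010400812e41c020611)) (.br (Nat.shiftLeft (nat_lit 0x900000300400600e01) (nat_lit 68)) (.one (nat_lit 0x900000300400600e00f600812e41c01e611)) (.one (nat_lit 0x900000300400600e010600812e41c020611))))) (.br (Nat.shiftLeft (nat_lit 0xa00000200400600e01) (nat_lit 68)) (.br (Nat.shiftLeft (nat_lit 0xa00000100400600e01) (nat_lit 68)) (.one (nat_lit 0xa00000100400600e00f200814e81c01e611)) (.br (Nat.shiftLeft (nat_lit 0x5000001) (nat_lit 113)) (.one (nat_lit 0xa00000100400600e010200814e81c020611)) (.one (nat_lit 0xa00000200400600e00f400814e81c01e611))))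 (.br (Nat.shiftLeft (nat_lit 0xa000003) (nat_lit 112)) (.one (nat_lit 0xa00000200400600e010400814e81c020611)) (.br (Nat.shiftLeft (nat_lit 0xa00000300400600e01) (nat_lit 68)) (.one (nat_lit 0xa00000300400600e00f600814e81c01e611)) (.one (nat_lit 0xa00000300400600e010600814e81c020611)))))) (.br (Nat.shiftLeft (nat_lit 0xb00000300400600e01) (nat_lit 68)) (.br (Nat.shiftLeft (nat_lit 0x5800001) (nat_lit 113)) (.br (Nat.shiftLeft (nat_lit 0xb00000100400600e01) (nat_lit 68)) (.one (nat_lit 0xb00000100400600e00f200816ec1c01e611)) (.one (nat_lit 0xb00000100400600e010200816ec1c020611))) (.br (Nat.shiftLeft (nat_lit 0xb00000200400600e01) (nat_lit 68)) (.one (nat_lit 0xb00000200400600e00f400816ec1c01e611)) (.br (Nat.shiftLeft (nat_lit 0xb000003) (nat_lit 112)) (.one (nat_lit 0xb00000200400600e010400816ec1c020611)) (.one (nat_lit 0xb00000300400600e00f600816ec1c01e611))))) (.br (Nat.shiftLeft (nat_lit 0x6000001) (nat_lit 113)) (.br (Nat.shiftLeft (nat_lit 0x3) (nat_lit 138)) (.one (nat_lit 0xb00000300400600e010600816ec1c020611)) (.br (Nat.shiftLeft (nat_lit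 0xc00000100400600e01) (nat_lit 68)) (.one (nat_lit 0xc00000100400600e00f200818f01c01e611)) (.one (nat_lit 0xc00000100400600e010200818f01c020611)))) (.br (Nat.shiftLeft (nat_lit 0xc00000200400600e01) (nat_lit 68)) (.one (nat_lit 0xc00000200400600e00f400818f01c01e611)) (.br (Nat.shiftLeft (nat_lit 0xc000003) (nat_lit 112)) (.one (nat_lit 0xc00000200400600e010400818f01c020611)) (.one (nat_lit 0xc00000300400600e00f600818f01c01e611)))))))
def t364 : k364.all (jb2 57 fl b0) = true := by decide +kernel
noncomputable def k365 : KT := (.br (Nat.shiftLeft (nat_lit 0xd00000300400600e01) (nat_lit 68)) (.br (Nat.shiftLeft (nat_lit 0x6800001) (nat_lit 113)) (.br (Nat.shiftLeft (nat_lit 0xd) (nat_lit 136)) (.one (nat_lit 0xc00000300400600e010600818f01c020611)) (.br (Nat.shiftLeft (nat_lit 0xd00000100400600e01) (nat_lit 68)) (.one (nat_lit 0xd00000100400600e00f20081af41c01e611)) (.one (nat_lit 0xd00000100400600e01020081af41c020611)))) (.br (Nat.shiftLeft (nat_lit 0xd00000200400600e01) (nat_lit 68)) (.one (nat_lit 0xd00000200400600e00f40081af41c01e611)) (.br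 (Nat.shiftLeft (nat_lit 0xd000003) (nat_lit 112)) (.one (nat_lit 0xd00000200400600e01040081af41c020611)) (.one (nat_lit 0xd00000300400600e00f60081af41c01e611))))) (.br (Nat.shiftLeft (nat_lit 0x7000001) (nat_lit 113)) (.br (Nat.shiftLeft (nat_lit 0x7) (nat_lit 137)) (.one (nat_lit 0xd00000300400600e01060081af41c020611)) (.br (Nat.shiftLeft (nat_lit 0xe00000100400600e01) (nat_lit 68)) (.one (nat_lit 0xe00000100400600e00f20081cf81c01e611)) (.one (nat_lit 0xe00000100400600e01020081cf81c020611)))) (.br (Nat.shiftLeft (nat_lit 0xe000003) (nat_lit 112)) (.br (Nat.shiftLeft (nat_lit 0xe00000200400600e01) (nat_lit 68)) (.one (nat_lit 0xe00000200400600e00f40081cf81c01e611)) (.one (nat_lit 0xe00000200400600e01040081cf81c020611))) (.br (Nat.shiftLeft (nat_lit 0xe00000300400600e01) (nat_lit 68)) (.one (nat_lit 0xe00000300400600e00f60081cf81c01e611)) (.one (nat_lit 0xe00000300400600e01060081cf81c020611))))))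
def t365 : k365.all (jb2 57 fl b0) = true := by decide +kernel
noncomputable def s19 : KT := (.br (nat_lit 0x900000400600e010000800c13e420511) (.br (nat_lit 0x200000400600e010000800c05c820511) (.br (nat_lit 0x100200400600e010400800c03c420760) (.br (nat_lit 0x100200400600e00f400800c03c41e760) k349 k350) (.br (nat_lit 0x100300400600e00f600800c03c41e760) k351 k352)) (.br (nat_lit 0x500000400600e00f000800c0bd41e511) (.br (nat_lit 0x200300400600e00f600800c05c81e760) k353 k354) (.br (nat_lit 0x700000400600e00f000800c0fdc1e511) k355 k356))) (.br (nat_lit 0x600000200400600e00f40080cd81c01e611) (.br (nat_lit 0x500000100400600e01020080ad41c020611) (.br (nat_lit 0x400000100400600e010200808d01c020611) k357 k358) (.br (nat_lit 0x500000300400600e01060080ad41c020611) k359 k360)) (.br (nat_lit 0x700000300400600e01060080edc1c020611) (.br (nat_lit 0x700000100400600e00f20080edc1c01e611) k361 k362) (.br (nat_lit 0x900000100400600e00f200812e41c01e611) k363 (.br (nat_lit 0xc00000300400600e00f600818f01c01e611) k364 k365)))))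
noncomputable def u19 : KT := (.br (Nat.shiftLeft (nat_lit 0x2003804007) (nat_lit 65)) (.br (Nat.shiftLeft (nat_lit 0x400600e01) (nat_lit 68)) (.one (nat_lit 0x400600e00f000800c01c01e540)) (.br (Nat.shiftLeft (nat_lit 0x4007) (nat_lit 88)) (.one (nat_lit 0x400600e010000800c01c020540)) (.one (nat_lit 0x400700800d000800e01001b500)))) (.br (Nat.shiftLeft (nat_lit 0x400700800f) (nat_lit 64)) (.one (nat_lit 0x400700800e000800e01001d500)) (.br (Nat.shiftLeft (nat_lit 0x400700801) (nat_lit 68)) (.one (nat_lit 0x400700800f000800e01001f500)) (.one (nat_lit 0x4007008010000800e010021500)))))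
def w19 : u19.all (wj 57 s19) = true := by decide +kernel
def o19 : OkW 57 (jb2 57 fl) u19 := .lift s19 _ (.br _ _ _ (.br _ _ _ (.br _ _ _ (.br _ _ _ (.leaf b0 k349 t349) (.leaf b0 k350 t350)) (.br _ _ _ (.leaf b0 k351 t351) (.leaf b0 k352 t352))) (.br _ _ _ (.br _ _ _ (.leaf b0 k353 t353) (.leaf b0 k354 t354)) (.br _ _ _ (.leaf b0 k355 t355) (.leaf b0 k356 t356)))) (.br _ _ _ (.br _ _ _ (.br _ _ _ (.leaf b0 k357 t357) (.leaf b0 k358 t358)) (.br _ _ _ (.leaf b0 k359 t359) (.leaf b0 k360 t360))) (.br _ _ _ (.br _ _ _ (.leaf b0 k361 t361) (.leaf b0 k362 t362)) (.br _ _ _ (.leaf b0 k363 t363) (.br _ _ _ (.leaf b0 k364 t364) (.leaf b0 k365 t365)))))) w19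
noncomputable def k366 : KT := (.br (Nat.shiftLeft (nat_lit 0x1003) (nat_lit 112)) (.br (Nat.shiftLeft (nat_lit 0x3) (nat_lit 112)) (.br (Nat.shiftLeft (nat_lit 0x1) (nat_lit 112)) (.one (nat_lit 0x4007008011000800e010023500)) (.br (Nat.shiftLeft (nat_lit 0x1) (nat_lit 113)) (.one (nat_lit 0x1004007008011200800e010023600)) (.one (nat_lit 0x2004007008011400800e010023600)))) (.br (Nat.shiftLeft (nat_lit 0x1) (nat_lit 124)) (.one (nat_lit 0x3004007008011600800e010023600)) (.br (Nat.shiftLeft (nat_lit 0x801) (nat_lit 113)) (.one (nat_lit 0x1000004007008011000800e030422511)) (.one (nat_lit 0x1002004007008011400800e030423700))))) (.br (Nat.shiftLeft (nat_lit 0x3) (nat_lit 124)) (.br (Nat.shiftLeft (nat_lit 0x1) (nat_lit 125)) (.one (nat_lit 0x1003004007008011600800e030423700)) (.br (Nat.shiftLeft (nat_lit 0x1001) (nat_lit 113)) (.one (nat_lit 0x2000004007008011000800e050822511)) (.one (nat_lit 0x2003004007008011600800e050823700)))) (.br (Nat.shiftLeft (nat_lit 0x5) (nat_lit 124)) (.br (Nat.shiftLeft (nat_lit 0x1) (nat_lit 126)) (.one (nat_lit 0x3000004007008011000800e070c22511))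 (.one (nat_lit 0x4000004007008011000800e091022511))) (.br (Nat.shiftLeft (nat_lit 0x3) (nat_lit 125)) (.one (nat_lit 0x5000004007008011000800e0b1422511)) (.one (nat_lit 0x6000004007008011000800e0d1822511))))))
noncomputable def b367 : BT := .node (nat_lit 0x3) (nat_lit 0x4c9259126a001d2d00065320cc8a4d926adb36da24d4003a98000c96c0032d8000ca6420016b0010b0005000050) .leaf .leaf
def t366 : k366.all (jb2 57 fl b367) = true := by decide +kernel
noncomputable def k367 : KT := (.one (nat_lit 0x7000004007008011000800e0f1c22511))
noncomputable def b368 : BT := .node (nat_lit 0x11) (nat_lit 0xde16da145800329a000ac681918b6d0a869914b2264a4624e84b280065340011cb80074b400196c00065b200118d87b6696426000065b000155203231273950ca84936260a64497a4c04b1b6d098099149b2648003a1c0026e6400c1db002ab8c003a98002a998013a98002aa90013a1c002cb6050050c0050c004ac003950033500168001680016800168001680016800168001680016800168001680016800168) .leaf .leaf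
def t367 : k367.all (jb2 57 fl b368) = true := by decide +kernel
noncomputable def k368 : KT := (.br (Nat.shiftLeft (nat_lit 0x800001) (nat_lit 113)) (.br (Nat.shiftLeft (nat_lit 0x1) (nat_lit 136)) (.one (nat_lit 0x8000004007008011000800e112022511)) (.one (nat_lit 0x1000001004007008011200802e410022611))) (.br (Nat.shiftLeft (nat_lit 0x1000003) (nat_lit 112)) (.one (nat_lit 0x1000002004007008011400802e410022611)) (.one (nat_lit 0x1000003004007008011600802e410022611))))
noncomputable def b369 : BT := .node (nat_lit 0x11) (nat_lit 0x1509270516918b6d12c800210d000653600194d0005630151428b150c003a98000cb641002810028100281001c7001c700168001680016800168001680016800168001680016800168001680016800168) .leaf .leaf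
def t368 : k368.all (jb2 57 fl b369) = true := by decide +kernel
noncomputable def k369 : KT := (.br (Nat.shiftLeft (nat_lit 0x2000003) (nat_lit 112)) (.br (Nat.shiftLeft (nat_lit 0x1) (nat_lit 137)) (.one (nat_lit 0x1002003004007008011600802e450822870)) (.br (Nat.shiftLeft (nat_lit 0x1000001) (nat_lit 113)) (.one (nat_lit 0x2000001004007008011200804e810022611)) (.one (nat_lit 0x2000002004007008011400804e810022611)))) (.br (Nat.shiftLeft (nat_lit 0x1800001) (nat_lit 113)) (.br (Nat.shiftLeft (nat_lit 0x3) (nat_lit 136)) (.one (nat_lit 0x2000003004007008011600804e810022611)) (.one (nat_lit 0x3000001004007008011200806ec10022611))) (.br (Nat.shiftLeft (nat_lit 0x3000003) (nat_lit 112)) (.one (nat_lit 0x3000002004007008011400806ec10022611)) (.one (nat_lit 0x3000003004007008011600806ec10022611)))))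
noncomputable def b370 : BT := .node (nat_lit 0x1) (nat_lit 0xdb226024d40032a3000ab6810008800028) .leaf .leaf
def t369 : k369.all (jb2 57 fl b370) = true := by decide +kernel
noncomputable def k370 : KT := (.br (Nat.shiftLeft (nat_lit 0x4000003) (nat_lit 112)) (.br (Nat.shiftLeft (nat_lit 0x2000001) (nat_lit 113)) (.one (nat_lit 0x4000001004007008011200808f010022611)) (.one (nat_lit 0x4000002004007008011400808f010022611))) (.br (Nat.shiftLeft (nat_lit 0x5) (nat_lit 136)) (.one (nat_lit 0x4000003004007008011600808f010022611)) (.one (nat_lit 0x500000100400700801120080af410022611))))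
def t370 : k370.all (jb2 57 fl b0) = true := by decide +kernel
noncomputable def k371 : KT := (.br (Nat.shiftLeft (nat_lit 0x5000003) (nat_lit 112)) (.one (nat_lit 0x500000200400700801140080af410022611)) (.one (nat_lit 0x500000300400700801160080af410022611)))
def t371 : k371.all (jb2 57 fl b0) = true := by decide +kernel
noncomputable def k372 : KT := (.one (nat_lit 0x600000100400700801120080cf810022611))
noncomputable def b373 : BT := .node (nat_lit 0x1) (nat_lit 0x36cd2c8543918a4d926b2312a2258c0032d8002ad5c0132d8002ab6400b3180028c6430013e00028) .leaf .leaf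
def t372 : k372.all (jb2 57 fl b373) = true := by decide +kernel
noncomputable def k373 : KT := (.one (nat_lit 0x600000200400700801140080cf810022611))
noncomputable def b374 : BT := .node (nat_lit 0xb) (nat_lit 0x9634b2150c003a98000ad5c1db225ea4d40032da000ab681001b00015000150000f0000f0000f0000f0000f0000f0000f0000f0000f0) .leaf .leaf
def t373 : k373.all (jb2 57 fl b374) = true := by decide +kernel
noncomputable def k374 : KT := (.one (nat_lit 0x600000300400700801160080cf810022611))
noncomputable def b375 : BT := .node (nat_lit 0x1) (nat_lit 0x9632739458003a59000ac6810008800028) .leaf .leaf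
def t374 : k374.all (jb2 57 fl b375) = true := by decide +kernel
noncomputable def k375 : KT := (.one (nat_lit 0x700000100400700801120080efc10022611))
noncomputable def b376 : BT := .node (nat_lit 0x17) (nat_lit 0x93525e92f40032d9000cb601db3260150db6651528b36cd26e964000e794002397000e96400235a000ea60002b180f6cc97a9366d9b6d0a8600196c80055b6001d4c800472e16f0a4dd2c6937260145800329b000ca64003a21000ad5c2918945926e9636d9a4d80033170008b74003a98000ca68200588005880058800588005280052800528005280041200412004120041200412004120041200357003570029c0029c0029c0029c001e0001e0001e0) .leaf .leaf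
def t375 : k375.all (jb2 57 fl b376) = true := by decide +kernel
noncomputable def k376 : KT := (.one (nat_lit 0x700000200400700801140080efc10022611))
noncomputable def b377 : BT := .node (nat_lit 0x17) (nat_lit 0x36c926c4c06d993012c6de14c9145000329b000ab88003264000ac600032d8000ad5c391895c9b66db349b139c002b96000ab640032d8000ac68296228b24ddbc293628b000662e00192e80065340015ab8526a4be49b00065b400196c032312a2258c002b58000ab641db22601458003a220008d6c1db2260a4d80032a2000ab6c1005ee004d8004d80041c0041c0036100361003010030100301002a0002a0002a0002a0002400024000240001e0001e0001e0001e0001e0001e0001e0) .leaf .leaf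
def t376 : k376.all (jb2 57 fl b377) = true := by decide +kernel
noncomputable def k377 : KT := (.one (nat_lit 0x700000300400700801160080efc10022611))
noncomputable def b378 : BT := .node (nat_lit 0x1) (nat_lit 0x93528b258c0032da000cb6010008800028) .leaf .leaf
def t377 : k377.all (jb2 57 fl b378) = true := by decide +kernel
noncomputable def k378 : KT := (.one (nat_lit 0x80000010040070080112008110010022611))
noncomputable def b379 : BT := .node (nat_lit 0xb) (nat_lit 0x12c84c02a180073c80015ab833224c028ba4dd26e4c06d9a4dd26e001d1080055ba00196c0006542001d4c00055b61cb1b6d126e93649b92f4003a99000ca6c0032d9000cb602003210032100321002c1002c1001ab001ab001ab001ab000f0000f0000f0) .leaf .leaf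
def t378 : k378.all (jb2 57 fl b379) = true := by decide +kernel
noncomputable def k379 : KT := (.br (Nat.shiftLeft (nat_lit 0x1) (nat_lit 148)) (.br (Nat.shiftLeft (nat_lit 0x8000003) (nat_lit 112)) (.one (nat_lit 0x80000020040070080114008110010022611)) (.one (nat_lit 0x80000030040070080116008110010022611))) (.br (Nat.shiftLeft (nat_lit 0x1000001003) (nat_lit 112)) (.one (nat_lit 0x1000001002004007008011402840e030422711)) (.one (nat_lit 0x1000001003004007008011602840e030422711))))
noncomputable def b380 : BT := .node (nat_lit 0xb) (nat_lit 0x93725e93000032d8000ca841db228b15c8003a590008f5c1001b0001b0001b0001b0001b0001b0001b00015000150000f0000f0000f0) .leaf .leaf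
def t379 : k379.all (jb2 57 fl b380) = true := by decide +kernel
noncomputable def k380 : KT := (.br (Nat.shiftLeft (nat_lit 0x3000001003) (nat_lit 112)) (.br (Nat.shiftLeft (nat_lit 0x2000001003) (nat_lit 112)) (.br (Nat.shiftLeft (nat_lit 0x1) (nat_lit 149)) (.one (nat_lit 0x1000002003004007008011602840e050822711)) (.one (nat_lit 0x2000001002004007008011404880e030422711))) (.br (Nat.shiftLeft (nat_lit 0x1000001) (nat_lit 125)) (.one (nat_lit 0x2000001003004007008011604880e030422711)) (.br (Nat.shiftLeft (nat_lit 0x3) (nat_lit 148)) (.one (nat_lit 0x2000002003004007008011604880e050822711)) (.one (nat_lit 0x30000010020040070080114068c0e030422711))))) (.br (Nat.shiftLeft (nat_lit 0x4000001003) (nat_lit 112)) (.br (Nat.shiftLeft (nat_lit 0x1800001) (nat_lit 125)) (.one (nat_lit 0x30000010030040070080116068c0e030422711)) (.br (Nat.shiftLeft (nat_lit 0x1) (nat_lit 150)) (.one (nat_lit 0x30000020030040070080116068c0e050822711)) (.one (nat_lit 0x4000001002004007008011408900e030422711)))) (.br (Nat.shiftLeft (nat_lit 0x2000001) (nat_lit 125)) (.one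 (nat_lit 0x4000001003004007008011608900e030422711)) (.br (Nat.shiftLeft (nat_lit 0x5) (nat_lit 148)) (.one (nat_lit 0x4000002003004007008011608900e050822711)) (.one (nat_lit 0x500000100200400700801140a940e030422711))))))
noncomputable def b381 : BT := .node (nat_lit 0xb) (nat_lit 0x6f0a591382001d0d00056ae0c9a13a0b432312a224d400399e000b0500033560008b6c2db2274264800325d000ad5c10026b0020b0020b00150000f0000f0000f0000f0000f0000f0000f0000f0) .leaf .leaf
def t380 : k380.all (jb2 57 fl b381) = true := by decide +kernel
noncomputable def k381 : KT := (.br (Nat.shiftLeft (nat_lit 0x2800001) (nat_lit 125)) (.one (nat_lit 0x500000100300400700801160a940e030422711)) (.one (nat_lit 0x500000200300400700801160a940e050822711)))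
noncomputable def b382 : BT := .node (nat_lit 0x17) (nat_lit 0x24625446d9800572e00156c8323127395cdb6696427380073b8000dec80065b000158d052312b9a4d5b6451649a800672a00116d80066ac00156d0523127416840039dd000705c10041a0041a0041a0041a0041a0041a003b9003b9002fd002fd002fd002fd00241002410024100241002410024100241002410024100241001e0001e0) .leaf .leaf
def t381 : k381.all (jb2 57 fl b382) = true := by decide +kernel
noncomputable def k382 : KT := (.br (Nat.shiftLeft (nat_lit 0x6000001003) (nat_lit 112)) (.one (nat_lit 0x600000100200400700801140c980e030422711)) (.one (nat_lit 0x600000100300400700801160c980e030422711)))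
noncomputable def b383 : BT := .node (nat_lit 0x1d) (nat_lit 0x12c693626048c4980517000e968002ae2000e884001b5d0a4d526c4c04c8b6cc980001d4c00055c4001d2c800554a151549a92f4003a59000cb6410042d0042d0042d0042d0042d0042d00372002b7002b7002b7002b7002b7002b7002b7002b7002b7002b7002b7002b7002b7002b7002b7002b700258002580025800258002580025800258) .leaf .leaf
def t382 : k382.all (jb2 57 fl b383) = true := by decide +kernel
noncomputable def k383 : KT := (.br (Nat.shiftLeft (nat_lit 0x7) (nat_lit 148)) (.one (nat_lit 0x600000200300400700801160c980e050822711)) (.one (nat_lit 0x700000100200400700801140e9c0e030422711)))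
noncomputable def b384 : BT := .node (nat_lit 0x13) (nat_lit 0x132293725f800743a001570833225434b180066ac00194c8326a4bd260378526e992000cb640032a2000e870002b180a64526e4bf6d91458a2d2316d99300013a1d004ab84003a590028d6c00aad9000aa9430042100421004210042100421003c10036100361003610036100361003610036100361002a6002a6002a6002a60019000190) .leaf .leaf
def t383 : k383.all (jb2 57 fl b384) = true := by decide +kernel
noncomputable def k384 : KT := (.br (Nat.shiftLeft (nat_lit 0x3800001) (nat_lit 125)) (.one (nat_lit 0x700000100300400700801160e9c0e030422711)) (.one (nat_lit 0x700000200300400700801160e9c0e050822711)))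
noncomputable def b385 : BT := .node (nat_lit 0x1) (nat_lit 0x12312d0a58c0033950008c6410008900028) .leaf .leaf
def t384 : k384.all (jb2 57 fl b385) = true := by decide +kernel
noncomputable def k385 : KT := (.br (Nat.shiftLeft (nat_lit 0x8000001003) (nat_lit 112)) (.one (nat_lit 0x8000001002004007008011410a00e030422711)) (.br (Nat.shiftLeft (nat_lit 0x4000001) (nat_lit 125)) (.one (nat_lit 0x8000001003004007008011610a00e030422711)) (.one (nat_lit 0x8000002003004007008011610a00e050822711))))
noncomputable def b386 : BT := .node (nat_lit 0x1) (nat_lit 0x49b12f897e93649b12f8003a9a000ab84003a98000cb682000e300028) .leaf .leaf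
def t385 : k385.all (jb2 57 fl b386) = true := by decide +kernel
noncomputable def s20 : KT := (.br (nat_lit 0x700000100400700801120080efc10022611) (.br (nat_lit 0x500000100400700801120080af410022611) (.br (nat_lit 0x7000004007008011000800e0f1c22511) (.br (nat_lit 0x6000004007008011000800e0d1822511) k366 k367) (.br (nat_lit 0x1000003004007008011600802e410022611) k368 (.br (nat_lit 0x3000003004007008011600806ec10022611) k369 k370))) (.br (nat_lit 0x600000100400700801120080cf810022611) (.br (nat_lit 0x500000300400700801160080af410022611) k371 k372) (.br (nat_lit 0x600000200400700801140080cf810022611) k373 (.br (nat_lit 0x600000300400700801160080cf810022611) k374 k375)))) (.br (nat_lit 0x500000100200400700801140a940e030422711) (.br (nat_lit 0x700000300400700801160080efc10022611) (.br (nat_lit 0x700000200400700801140080efc10022611) k376 k377) (.br (nat_lit 0x80000010040070080112008110010022611) k378 (.br (nat_lit 0x1000001003004007008011602840e030422711) k379 k380))) (.br (nat_lit 0x600000100300400700801160c980e030422711) (.br (nat_lit 0x500000200300400700801160a940e050822711)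 k381 k382) (.br (nat_lit 0x700000100200400700801140e9c0e030422711) k383 (.br (nat_lit 0x700000200300400700801160e9c0e050822711) k384 k385)))))
noncomputable def u20 : KT := (.one (nat_lit 0x4007008011000800e010022540))
def w20 : u20.all (wj 57 s20) = true := by decide +kernel
def o20 : OkW 57 (jb2 57 fl) u20 := .lift s20 _ (.br _ _ _ (.br _ _ _ (.br _ _ _ (.br _ _ _ (.leaf b367 k366 t366) (.leaf b368 k367 t367)) (.br _ _ _ (.leaf b369 k368 t368) (.br _ _ _ (.leaf b370 k369 t369) (.leaf b0 k370 t370)))) (.br _ _ _ (.br _ _ _ (.leaf b0 k371 t371) (.leaf b373 k372 t372)) (.br _ _ _ (.leaf b374 k373 t373) (.br _ _ _ (.leaf b375 k374 t374) (.leaf b376 k375 t375))))) (.br _ _ _ (.br _ _ _ (.br _ _ _ (.leaf b377 k376 t376) (.leaf b378 k377 t377)) (.br _ _ _ (.leaf b379 k378 t378) (.br _ _ _ (.leaf b380 k379 t379) (.leaf b381 k380 t380)))) (.br _ _ _ (.br _ _ _ (.leaf b382 k381 t381) (.leaf b383 k382 t382)) (.br _ _ _ (.leaf b384 k383 t383) (.br _ _ _ (.leaf b385 k384 t384) (.leaf b386 k385 t385)))))) w20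
noncomputable def k : KT := (.br (nat_lit 0x400600b00f000800c01601f500) (.br (nat_lit 0x4006009011000800c012023500) (.br (nat_lit 0x4006008011000800c010023500) (.br (nat_lit 0x4006007013000800c00e026540) u0 u1) (.br (nat_lit 0x4006008012000800c010024540) u2 (.br (nat_lit 0x4006008013000800c010026540) u3 u4))) (.br (nat_lit 0x400600a010000800c014021500) (.br (nat_lit 0x4006009012000800c012024540) u5 u6) (.br (nat_lit 0x400600a011000800c014022540) u7 (.br (nat_lit 0x400600a012000800c014024540) u8 u9)))) (.br (nat_lit 0x400600c010000800c018020540) (.br (nat_lit 0x400600b011000800c016022540) (.br (nat_lit 0x400600b010000800c016020540) u10 u11) (.br (nat_lit 0x400600c00e000800c01801d500) u12 (.br (nat_lit 0x400600c00f000800c01801e540) u13 u14))) (.br (nat_lit 0x400600d00f000800c01a01e540) (.br (nat_lit 0x400600c012000800c018024540) u15 (.br (nat_lit 0x400600d00e000800c01a01c540) u16 u17)) (.br (nat_lit 0x400600d011000800c01a022540) u18 (.br (nat_lit 0x4007008010000800e010021500) u19 u20)))))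
theorem ok : OkW 57 (jb2 57 fl) k := (.br _ _ _ (.br _ _ _ (.br _ _ _ (.br _ _ _ o0 o1) (.br _ _ _ o2 (.br _ _ _ o3 o4))) (.br _ _ _ (.br _ _ _ o5 o6) (.br _ _ _ o7 (.br _ _ _ o8 o9)))) (.br _ _ _ (.br _ _ _ (.br _ _ _ o10 o11) (.br _ _ _ o12 (.br _ _ _ o13 o14))) (.br _ _ _ (.br _ _ _ o15 (.br _ _ _ o16 o17)) (.br _ _ _ o18 (.br _ _ _ o19 o20)))))

end Pool.Agent.Lib.MP_ed43e6_ag.Q.Y57.R31
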