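import Pool.Agent.Lib.MP_ed43e6_ag.Y57.Fl

namespace Pool.Agent.Lib.MP_ed43e6_ag.Q.Y57.R32

set_option linter.defProp false

noncomputable def b0 : BT := .node (nat_lit 1) (nat_lit 0) .leaf .leaf
noncomputable def k0 : KT := (.br (Nat.shiftLeft (nat_lit 0x1003) (nat_lit 112)) (.br (Nat.shiftLeft (nat_lit 0x3) (nat_lit 112)) (.br (Nat.shiftLeft (nat_lit 0x1) (nat_lit 112)) (.one (nat_lit 0x4007008012000800e010025500)) (.br (Nat.shiftLeft (nat_lit 0x1) (nat_lit 113)) (.one (nat_lit 0x1004007008012200800e010025600)) (.one (nat_lit 0x2004007008012400800e010025600)))) (.br (Nat.shiftLeft (nat_lit 0x1) (nat_lit 124)) (.one (nat_lit 0x3004007008012600800e010025600)) (.br (Nat.shiftLeft (nat_lit 0x801) (nat_lit 113)) (.one (nat_lit 0x1000004007008012000800e030424511)) (.one (nat_lit 0x1002004007008012400800e030425700))))) (.br (Nat.shiftLeft (nat_lit 0x3) (nat_lit 124)) (.br (Nat.shiftLeft (nat_lit 0x1) (nat_lit 125)) (.one (nat_lit 0x1003004007008012600800e030425700)) (.br (Nat.shiftLeft (nat_lit 0x1001) (nat_lit 113)) (.one (nat_lit 0x2000004007008012000800e050824511))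 (.one (nat_lit 0x2003004007008012600800e050825700)))) (.br (Nat.shiftLeft (nat_lit 0x5) (nat_lit 124)) (.br (Nat.shiftLeft (nat_lit 0x1) (nat_lit 126)) (.one (nat_lit 0x3000004007008012000800e070c24511)) (.one (nat_lit 0x4000004007008012000800e091024511))) (.br (Nat.shiftLeft (nat_lit 0x3) (nat_lit 125)) (.one (nat_lit 0x5000004007008012000800e0b1424511)) (.one (nat_lit 0x6000004007008012000800e0d1824511))))))
noncomputable def b1 : BT := .node (nat_lit 0x1) (nat_lit 0xde22a1a58c003317000ab6410008800028) .leaf .leaf
def t0 : k0.all (jb2 57 fl b1) = true := by decide +kernel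
noncomputable def k1 : KT := (.one (nat_lit 0x7000004007008012000800e0f1c24511))
def t1 : k1.all (jb2 57 fl b0) = true := by decide +kernel
noncomputable def k2 : KT := (.br (Nat.shiftLeft (nat_lit 0x800001) (nat_lit 113)) (.br (Nat.shiftLeft (nat_lit 0x1) (nat_lit 136)) (.one (nat_lit 0x8000004007008012000800e112024511)) (.one (nat_lit 0x1000001004007008012200802e410024611))) (.br (Nat.shiftLeft (nat_lit 0x1000003) (nat_lit 112)) (.one (nat_lit 0x1000002004007008012400802e410024611)) (.one (nat_lit 0x1000003004007008012600802e410024611))))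
def t2 : k2.all (jb2 57 fl b0) = true := by decide +kernel
noncomputable def k3 : KT := (.br (Nat.shiftLeft (nat_lit 0x3) (nat_lit 136)) (.br (Nat.shiftLeft (nat_lit 0x1000001) (nat_lit 113)) (.br (Nat.shiftLeft (nat_lit 0x1) (nat_lit 137)) (.one (nat_lit 0x1002003004007008012600802e450824870)) (.one (nat_lit 0x2000001004007008012200804e810024611))) (.br (Nat.shiftLeft (nat_lit 0x2000003) (nat_lit 112)) (.one (nat_lit 0x2000002004007008012400804e810024611)) (.one (nat_lit 0x2000003004007008012600804e810024611)))) (.br (Nat.shiftLeft (nat_lit 0x3000003) (nat_lit 112)) (.br (Nat.shiftLeft (nat_lit 0x1800001) (nat_lit 113)) (.one (nat_lit 0x3000001004007008012200806ec10024611)) (.one (nat_lit 0x3000002004007008012400806ec10024611))) (.br (Nat.shiftLeft (nat_lit 0x1) (nat_lit 138)) (.one (nat_lit 0x3000003004007008012600806ec10024611)) (.br (Nat.shiftLeft (nat_lit 0x2000001) (nat_lit 113)) (.one (nat_lit 0x4000001004007008012200808f010024611)) (.one (nat_lit 0x4000002004007008012400808f010024611))))))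
def t3 : k3.all (jb2 57 fl b0) = true := by decide +kernel
noncomputable def k4 : KT := (.br (Nat.shiftLeft (nat_lit 0x5) (nat_lit 136)) (.one (nat_lit 0x4000003004007008012600808f010024611)) (.br (Nat.shiftLeft (nat_lit 0x2800001) (nat_lit 113)) (.one (nat_lit 0x500000100400700801220080af410024611)) (.one (nat_lit 0x500000200400700801240080af410024611))))
def t4 : k4.all (jb2 57 fl b0) = true := by decide +kernel
noncomputable def k5 : KT := (.br (Nat.shiftLeft (nat_lit 0x3) (nat_lit 137)) (.one (nat_lit 0x500000300400700801260080af410024611)) (.one (nat_lit 0x600000100400700801220080cf810024611)))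
def t5 : k5.all (jb2 57 fl b0) = true := by decide +kernel
noncomputable def k6 : KT := (.br (Nat.shiftLeft (nat_lit 0x6000003) (nat_lit 112)) (.one (nat_lit 0x600000200400700801240080cf810024611)) (.one (nat_lit 0x600000300400700801260080cf810024611)))
def t6 : k6.all (jb2 57 fl b0) = true := by decide +kernel
noncomputable def k7 : KT := (.one (nat_lit 0x700000100400700801220080efc10024611))
noncomputable def b8 : BT := .node (nat_lit 0x1) (nat_lit 0xdb349b150c003a1c000ad5c10008800028) .leaf .leaf
def t7 : k7.all (jb2 57 fl b8) = true := by decide +kernel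
noncomputable def k8 : KT := (.br (Nat.shiftLeft (nat_lit 0x7000003) (nat_lit 112)) (.one (nat_lit 0x700000200400700801240080efc10024611)) (.one (nat_lit 0x700000300400700801260080efc10024611)))
def t8 : k8.all (jb2 57 fl b0) = true := by decide +kernel
noncomputable def k9 : KT := (.br (Nat.shiftLeft (nat_lit 0x4000001) (nat_lit 113)) (.one (nat_lit 0x80000010040070080122008110010024611)) (.one (nat_lit 0x80000020040070080124008110010024611)))
def t9 : k9.all (jb2 57 fl b0) = true := by decide +kernel
noncomputable def k10 : KT := (.br (Nat.shiftLeft (nat_lit 0x1000001) (nat_lit 125)) (.br (Nat.shiftLeft (nat_lit 0x800001) (nat_lit 125)) (.br (Nat.shiftLeft (nat_lit 0x1) (nat_lit 148)) (.one (nat_lit 0x80000030040070080126008110010024611)) (.br (Nat.shiftLeft (nat_lit 0x1000001003) (nat_lit 112)) (.one (nat_lit 0x1000001002004007008012402840e030424711)) (.one (nat_lit 0x1000001003004007008012602840e030424711)))) (.br (Nat.shiftLeft (nat_lit 0x1) (nat_lit 149)) (.one (nat_lit 0x1000002003004007008012602840e050824711)) (.br (Nat.shiftLeft (nat_lit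 0x2000001003) (nat_lit 112)) (.one (nat_lit 0x2000001002004007008012404880e030424711)) (.one (nat_lit 0x2000001003004007008012604880e030424711))))) (.br (Nat.shiftLeft (nat_lit 0x1800001) (nat_lit 125)) (.br (Nat.shiftLeft (nat_lit 0x3) (nat_lit 148)) (.one (nat_lit 0x2000002003004007008012604880e050824711)) (.br (Nat.shiftLeft (nat_lit 0x3000001003) (nat_lit 112)) (.one (nat_lit 0x30000010020040070080124068c0e030424711)) (.one (nat_lit 0x30000010030040070080126068c0e030424711)))) (.br (Nat.shiftLeft (nat_lit 0x4000001003) (nat_lit 112)) (.br (Nat.shiftLeft (nat_lit 0x1) (nat_lit 150)) (.one (nat_lit 0x30000020030040070080126068c0e050824711)) (.one (nat_lit 0x4000001002004007008012408900e030424711))) (.br (Nat.shiftLeft (nat_lit 0x2000001) (nat_lit 125)) (.one (nat_lit 0x4000001003004007008012608900e030424711)) (.one (nat_lit 0x4000002003004007008012608900e050824711))))))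
def t10 : k10.all (jb2 57 fl b0) = true := by decide +kernel
noncomputable def k11 : KT := (.br (Nat.shiftLeft (nat_lit 0x5000001003) (nat_lit 112)) (.one (nat_lit 0x500000100200400700801240a940e030424711)) (.br (Nat.shiftLeft (nat_lit 0x2800001) (nat_lit 125)) (.one (nat_lit 0x500000100300400700801260a940e030424711)) (.one (nat_lit 0x500000200300400700801260a940e050824711))))
def t11 : k11.all (jb2 57 fl b0) = true := by decide +kernel
noncomputable def k12 : KT := (.br (Nat.shiftLeft (nat_lit 0x6000001003) (nat_lit 112)) (.one (nat_lit 0x600000100200400700801240c980e030424711)) (.br (Nat.shiftLeft (nat_lit 0x3000001) (nat_lit 125)) (.one (nat_lit 0x600000100300400700801260c980e030424711)) (.one (nat_lit 0x600000200300400700801260c980e050824711))))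
def t12 : k12.all (jb2 57 fl b0) = true := by decide +kernel
noncomputable def k13 : KT := (.br (Nat.shiftLeft (nat_lit 0x7000001003) (nat_lit 112)) (.one (nat_lit 0x700000100200400700801240e9c0e030424711)) (.br (Nat.shiftLeft (nat_lit 0x3800001) (nat_lit 125)) (.one (nat_lit 0x700000100300400700801260e9c0e030424711)) (.one (nat_lit 0x700000200300400700801260e9c0e050824711))))
def t13 : k13.all (jb2 57 fl b0) = true := by decide +kernel
noncomputable def k14 : KT := (.br (Nat.shiftLeft (nat_lit 0x8000001003) (nat_lit 112)) (.one (nat_lit 0x8000001002004007008012410a00e030424711)) (.br (Nat.shiftLeft (nat_lit 0x4000001) (nat_lit 125)) (.one (nat_lit 0x8000001003004007008012610a00e030424711)) (.one (nat_lit 0x8000002003004007008012610a00e050824711))))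
def t14 : k14.all (jb2 57 fl b0) = true := by decide +kernel
noncomputable def s0 : KT := (.br (nat_lit 0x600000300400700801260080cf810024611) (.br (nat_lit 0x1000003004007008012600802e410024611) (.br (nat_lit 0x6000004007008012000800e0d1824511) k0 (.br (nat_lit 0x7000004007008012000800e0f1c24511) k1 k2)) (.br (nat_lit 0x500000200400700801240080af410024611) (.br (nat_lit 0x4000002004007008012400808f010024611) k3 k4) (.br (nat_lit 0x600000100400700801220080cf810024611) k5 k6))) (.br (nat_lit 0x4000002003004007008012608900e050824711) (.br (nat_lit 0x700000300400700801260080efc10024611) (.br (nat_lit 0x700000100400700801220080efc10024611) k7 k8) (.br (nat_lit 0x80000020040070080124008110010024611) k9 k10)) (.br (nat_lit 0x600000200300400700801260c980e050824711) (.br (nat_lit 0x500000200300400700801260a940e050824711) k11 k12) (.br (nat_lit 0x700000200300400700801260e9c0e050824711) k13 k14))))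
noncomputable def u0 : KT := (.one (nat_lit 0x4007008012000800e010024540))
def w0 : u0.all (wj 57 s0) = true := by decide +kernel
def o0 : OkW 57 (jb2 57 fl) u0 := .lift s0 _ (.br _ _ _ (.br _ _ _ (.br _ _ _ (.leaf b1 k0 t0) (.br _ _ _ (.leaf b0 k1 t1) (.leaf b0 k2 t2))) (.br _ _ _ (.br _ _ _ (.leaf b0 k3 t3) (.leaf b0 k4 t4)) (.br _ _ _ (.leaf b0 k5 t5) (.leaf b0 k6 t6)))) (.br _ _ _ (.br _ _ _ (.br _ _ _ (.leaf b8 k7 t7) (.leaf b0 k8 t8)) (.br _ _ _ (.leaf b0 k9 t9) (.leaf b0 k10 t10))) (.br _ _ _ (.br _ _ _ (.leaf b0 k11 t11) (.leaf b0 k12 t12)) (.br _ _ _ (.leaf b0 k13 t13) (.leaf b0 k14 t14))))) w0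
noncomputable def k15 : KT := (.br (Nat.shiftLeft (nat_lit 0x401001c02005) (nat_lit 66)) (.br (Nat.shiftLeft (nat_lit 0x2003804807) (nat_lit 65)) (.br (Nat.shiftLeft (nat_lit 0x4007009) (nat_lit 76)) (.br (Nat.shiftLeft (nat_lit 0x1001c02005) (nat_lit 66)) (.one (nat_lit 0x4007008013000800e010027500)) (.one (nat_lit 0x4007008014000800e010029500))) (.br (Nat.shiftLeft (nat_lit 0x400700900d) (nat_lit 64)) (.one (nat_lit 0x400700900c000800e012019500)) (.one (nat_lit 0x400700900d000800e01201b500)))) (.br (Nat.shiftLeft (nat_lit 0x400700901) (nat_lit 68)) (.br (Nat.shiftLeft (nat_lit 0x400700900f) (nat_lit 64)) (.one (nat_lit 0x400700900e000800e01201d500)) (.one (nat_lit 0x400700900f000800e01201f500))) (.br (Nat.shiftLeft (nat_lit 0x1) (nat_lit 112)) (.one (nat_lit 0x4007009010000800e012021500)) (.one (nat_lit 0x1004007008013200800e010027600))))) (.br (Nat.shiftLeft (nat_lit 0xc01001c02005) (nat_lit 66)) (.br (Nat.shiftLeft (nat_lit 0x801001c02005) (nat_lit 66)) (.br (Nat.shiftLeft (nat_lit 0x1) (nat_lit 113)) (.one (nat_lit 0x1004007008014200800e010029600))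 (.one (nat_lit 0x2004007008013400800e010027600))) (.br (Nat.shiftLeft (nat_lit 0x3) (nat_lit 112)) (.one (nat_lit 0x2004007008014400800e010029600)) (.one (nat_lit 0x3004007008013600800e010027600)))) (.br (Nat.shiftLeft (nat_lit 0x400001001c02005) (nat_lit 66)) (.br (Nat.shiftLeft (nat_lit 0x1) (nat_lit 124)) (.one (nat_lit 0x3004007008014600800e010029600)) (.one (nat_lit 0x1000004007008013000800e030426511))) (.br (Nat.shiftLeft (nat_lit 0x801) (nat_lit 113)) (.one (nat_lit 0x1000004007008014000800e030428511)) (.br (Nat.shiftLeft (nat_lit 0x400801001c02005) (nat_lit 66)) (.one (nat_lit 0x1002004007008013400800e030427700)) (.one (nat_lit 0x1002004007008014400800e030428760)))))))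
def t15 : k15.all (jb2 57 fl b0) = true := by decide +kernel
noncomputable def k16 : KT := (.one (nat_lit 0x1003004007008013600800e030426760))
def t16 : k16.all (jb2 57 fl b0) = true := by decide +kernel
noncomputable def k17 : KT := (.br (Nat.shiftLeft (nat_lit 0x1) (nat_lit 125)) (.one (nat_lit 0x1003004007008014600800e030428760)) (.br (Nat.shiftLeft (nat_lit 0x800001001c02005) (nat_lit 66)) (.one (nat_lit 0x2000004007008013000800e050826511)) (.one (nat_lit 0x2000004007008014000800e050828511))))
def t17 : k17.all (jb2 57 fl b0) = true := by decide +kernel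
noncomputable def k18 : KT := (.one (nat_lit 0x2003004007008013600800e050826760))
def t18 : k18.all (jb2 57 fl b0) = true := by decide +kernel
noncomputable def k19 : KT := (.br (Nat.shiftLeft (nat_lit 0xc00001001c02005) (nat_lit 66)) (.br (Nat.shiftLeft (nat_lit 0x3) (nat_lit 124)) (.one (nat_lit 0x2003004007008014600800e050828760)) (.one (nat_lit 0x3000004007008013000800e070c26511))) (.br (Nat.shiftLeft (nat_lit 0x1) (nat_lit 126)) (.one (nat_lit 0x3000004007008014000800e070c28511)) (.br (Nat.shiftLeft (nat_lit 0x1000001001c02005) (nat_lit 66)) (.one (nat_lit 0x4000004007008013000800e091026511)) (.one (nat_lit 0x4000004007008014000800e091028511)))))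
def t19 : k19.all (jb2 57 fl b0) = true := by decide +kernel
noncomputable def k20 : KT := (.br (Nat.shiftLeft (nat_lit 0x3) (nat_lit 125)) (.br (Nat.shiftLeft (nat_lit 0x1400001001c02005) (nat_lit 66)) (.one (nat_lit 0x5000004007008013000800e0b1426511)) (.one (nat_lit 0x5000004007008014000800e0b1428511))) (.br (Nat.shiftLeft (nat_lit 0x1800001001c02005) (nat_lit 66)) (.one (nat_lit 0x6000004007008013000800e0d1826511)) (.one (nat_lit 0x6000004007008014000800e0d1828511))))
def t20 : k20.all (jb2 57 fl b0) = true := by decide +kernel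
noncomputable def k21 : KT := (.br (Nat.shiftLeft (nat_lit 0x1c00001001c02005) (nat_lit 66)) (.one (nat_lit 0x7000004007008013000800e0f1c26511)) (.one (nat_lit 0x7000004007008014000800e0f1c28511)))
def t21 : k21.all (jb2 57 fl b0) = true := by decide +kernel
noncomputable def k22 : KT := (.br (Nat.shiftLeft (nat_lit 0x800000801001c02005) (nat_lit 66)) (.br (Nat.shiftLeft (nat_lit 0x400000801001c02005) (nat_lit 66)) (.br (Nat.shiftLeft (nat_lit 0x1) (nat_lit 136)) (.br (Nat.shiftLeft (nat_lit 0x2000001001c02005) (nat_lit 66)) (.one (nat_lit 0x8000004007008013000800e112026511)) (.one (nat_lit 0x8000004007008014000800e112028511))) (.br (Nat.shiftLeft (nat_lit 0x400000401001c02005) (nat_lit 66)) (.one (nat_lit 0x1000001004007008013200802e410026611)) (.br (Nat.shiftLeft (nat_lit 0x800001) (nat_lit 113)) (.one (nat_lit 0x1000001004007008014200802e410028611)) (.one (nat_lit 0x1000002004007008013400802e410026611))))) (.br (Nat.shiftLeft (nat_lit 0x1) (nat_lit 137)) (.br (Nat.shiftLeft (nat_lit 0x1000003) (nat_lit 112)) (.one (nat_lit 0x1000002004007008014400802e410028611))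 (.br (Nat.shiftLeft (nat_lit 0x400000c01001c02005) (nat_lit 66)) (.one (nat_lit 0x1000003004007008013600802e410026611)) (.one (nat_lit 0x1000003004007008014600802e410028611)))) (.br (Nat.shiftLeft (nat_lit 0x800000401001c02005) (nat_lit 66)) (.one (nat_lit 0x2000001004007008013200804e810026611)) (.br (Nat.shiftLeft (nat_lit 0x1000001) (nat_lit 113)) (.one (nat_lit 0x2000001004007008014200804e810028611)) (.one (nat_lit 0x2000002004007008013400804e810026611)))))) (.br (Nat.shiftLeft (nat_lit 0x1800001) (nat_lit 113)) (.br (Nat.shiftLeft (nat_lit 0x800000c01001c02005) (nat_lit 66)) (.br (Nat.shiftLeft (nat_lit 0x2000003) (nat_lit 112)) (.one (nat_lit 0x2000002004007008014400804e810028611)) (.one (nat_lit 0x2000003004007008013600804e810026611))) (.br (Nat.shiftLeft (nat_lit 0x3) (nat_lit 136)) (.one (nat_lit 0x2000003004007008014600804e810028611)) (.br (Nat.shiftLeft (nat_lit 0xc00000401001c02005) (nat_lit 66)) (.one (nat_lit 0x3000001004007008013200806ec10026611)) (.one (nat_lit 0x3000001004007008014200806ec10028611))))) (.br (Nat.shiftLeft (nat_lit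 0xc00000c01001c02005) (nat_lit 66)) (.br (Nat.shiftLeft (nat_lit 0xc00000801001c02005) (nat_lit 66)) (.one (nat_lit 0x3000002004007008013400806ec10026611)) (.br (Nat.shiftLeft (nat_lit 0x3000003) (nat_lit 112)) (.one (nat_lit 0x3000002004007008014400806ec10028611)) (.one (nat_lit 0x3000003004007008013600806ec10026611)))) (.br (Nat.shiftLeft (nat_lit 0x1) (nat_lit 138)) (.one (nat_lit 0x3000003004007008014600806ec10028611)) (.br (Nat.shiftLeft (nat_lit 0x1000000401001c02005) (nat_lit 66)) (.one (nat_lit 0x4000001004007008013200808f010026611)) (.one (nat_lit 0x4000001004007008014200808f010028611)))))))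
def t22 : k22.all (jb2 57 fl b0) = true := by decide +kernel
noncomputable def k23 : KT := (.br (Nat.shiftLeft (nat_lit 0x1000000c01001c02005) (nat_lit 66)) (.br (Nat.shiftLeft (nat_lit 0x1000000801001c02005) (nat_lit 66)) (.one (nat_lit 0x4000002004007008013400808f010026611)) (.br (Nat.shiftLeft (nat_lit 0x4000003) (nat_lit 112)) (.one (nat_lit 0x4000002004007008014400808f010028611)) (.one (nat_lit 0x4000003004007008013600808f010026611)))) (.br (Nat.shiftLeft (nat_lit 0x5) (nat_lit 136)) (.one (nat_lit 0x4000003004007008014600808f010028611)) (.br (Nat.shiftLeft (nat_lit 0x1400000401001c02005) (nat_lit 66)) (.one (nat_lit 0x500000100400700801320080af410026611)) (.one (nat_lit 0x500000100400700801420080af410028611)))))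
def t23 : k23.all (jb2 57 fl b0) = true := by decide +kernel
noncomputable def k24 : KT := (.br (Nat.shiftLeft (nat_lit 0x5000003) (nat_lit 112)) (.br (Nat.shiftLeft (nat_lit 0x1400000801001c02005) (nat_lit 66)) (.one (nat_lit 0x500000200400700801340080af410026611)) (.one (nat_lit 0x500000200400700801440080af410028611))) (.br (Nat.shiftLeft (nat_lit 0x1400000c01001c02005) (nat_lit 66)) (.one (nat_lit 0x500000300400700801360080af410026611)) (.one (nat_lit 0x500000300400700801460080af410028611))))
def t24 : k24.all (jb2 57 fl b0) = true := by decide +kernel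
noncomputable def k25 : KT := (.br (Nat.shiftLeft (nat_lit 0x1800000401001c02005) (nat_lit 66)) (.one (nat_lit 0x600000100400700801320080cf810026611)) (.one (nat_lit 0x600000100400700801420080cf810028611)))
def t25 : k25.all (jb2 57 fl b0) = true := by decide +kernel
noncomputable def k26 : KT := (.br (Nat.shiftLeft (nat_lit 0x1800000801001c02005) (nat_lit 66)) (.one (nat_lit 0x600000200400700801340080cf810026611)) (.br (Nat.shiftLeft (nat_lit 0x6000003) (nat_lit 112)) (.one (nat_lit 0x600000200400700801440080cf810028611)) (.one (nat_lit 0x600000300400700801360080cf810026611))))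
def t26 : k26.all (jb2 57 fl b0) = true := by decide +kernel
noncomputable def k27 : KT := (.br (Nat.shiftLeft (nat_lit 0x7) (nat_lit 136)) (.one (nat_lit 0x600000300400700801460080cf810028611)) (.br (Nat.shiftLeft (nat_lit 0x1c00000401001c02005) (nat_lit 66)) (.one (nat_lit 0x700000100400700801320080efc10026611)) (.one (nat_lit 0x700000100400700801420080efc10028611))))
def t27 : k27.all (jb2 57 fl b0) = true := by decide +kernel
noncomputable def k28 : KT := (.br (Nat.shiftLeft (nat_lit 0x7000003) (nat_lit 112)) (.br (Nat.shiftLeft (nat_lit 0x1c00000801001c02005) (nat_lit 66)) (.one (nat_lit 0x700000200400700801340080efc10026611)) (.one (nat_lit 0x700000200400700801440080efc10028611))) (.br (Nat.shiftLeft (nat_lit 0x1c00000c01001c02005) (nat_lit 66)) (.one (nat_lit 0x700000300400700801360080efc10026611)) (.one (nat_lit 0x700000300400700801460080efc10028611))))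
def t28 : k28.all (jb2 57 fl b0) = true := by decide +kernel
noncomputable def k29 : KT := (.br (Nat.shiftLeft (nat_lit 0x2000000401001c02005) (nat_lit 66)) (.one (nat_lit 0x80000010040070080132008110010026611)) (.br (Nat.shiftLeft (nat_lit 0x4000001) (nat_lit 113)) (.one (nat_lit 0x80000010040070080142008110010028611)) (.one (nat_lit 0x80000020040070080134008110010026611))))
def t29 : k29.all (jb2 57 fl b0) = true := by decide +kernel
noncomputable def k30 : KT := (.br (Nat.shiftLeft (nat_lit 0x1) (nat_lit 149)) (.br (Nat.shiftLeft (nat_lit 0x2000000c01001c02005) (nat_lit 66)) (.br (Nat.shiftLeft (nat_lit 0x8000003) (nat_lit 112)) (.one (nat_lit 0x80000020040070080144008110010028611)) (.one (nat_lit 0x80000030040070080136008110010026611))) (.br (Nat.shiftLeft (nat_lit 0x1) (nat_lit 148)) (.one (nat_lit 0x80000030040070080146008110010028611)) (.one (nat_lit 0x1000001002004007008013402840e030426711)))) (.br (Nat.shiftLeft (nat_lit 0x1) (nat_lit 150)) (.br (Nat.shiftLeft (nat_lit 0x3) (nat_lit 148)) (.one (nat_lit 0x2000001002004007008013404880e030426711))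 (.one (nat_lit 0x30000010020040070080134068c0e030426711))) (.br (Nat.shiftLeft (nat_lit 0x5) (nat_lit 148)) (.one (nat_lit 0x4000001002004007008013408900e030426711)) (.one (nat_lit 0x500000100200400700801340a940e030426711)))))
def t30 : k30.all (jb2 57 fl b0) = true := by decide +kernel
noncomputable def k31 : KT := (.br (Nat.shiftLeft (nat_lit 0x7) (nat_lit 148)) (.one (nat_lit 0x600000100200400700801340c980e030426711)) (.br (Nat.shiftLeft (nat_lit 0x1) (nat_lit 151)) (.one (nat_lit 0x700000100200400700801340e9c0e030426711)) (.one (nat_lit 0x8000001002004007008013410a00e030426711))))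
def t31 : k31.all (jb2 57 fl b0) = true := by decide +kernel
noncomputable def s1 : KT := (.br (nat_lit 0x4000001004007008014200808f010028611) (.br (nat_lit 0x2003004007008013600800e050826760) (.br (nat_lit 0x1003004007008013600800e030426760) (.br (nat_lit 0x1002004007008014400800e030428760) k15 k16) (.br (nat_lit 0x2000004007008014000800e050828511) k17 k18)) (.br (nat_lit 0x6000004007008014000800e0d1828511) (.br (nat_lit 0x4000004007008014000800e091028511) k19 k20) (.br (nat_lit 0x7000004007008014000800e0f1c28511) k21 k22))) (.br (nat_lit 0x600000300400700801360080cf810026611) (.br (nat_lit 0x500000300400700801460080af410028611) (.br (nat_lit 0x500000100400700801420080af410028611) k23 k24) (.br (nat_lit 0x600000100400700801420080cf810028611) k25 k26)) (.br (nat_lit 0x700000300400700801460080efc10028611) (.br (nat_lit 0x700000100400700801420080efc10028611) k27 k28) (.br (nat_lit 0x80000020040070080134008110010026611) k29 (.br (nat_lit 0x500000100200400700801340a940e030426711) k30 k31)))))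
noncomputable def u1 : KT := (.br (Nat.shiftLeft (nat_lit 0x400700900d) (nat_lit 64)) (.br (Nat.shiftLeft (nat_lit 0x1001c02005) (nat_lit 66)) (.one (nat_lit 0x4007008013000800e010026540)) (.br (Nat.shiftLeft (nat_lit 0x4007009) (nat_lit 76)) (.one (nat_lit 0x4007008014000800e010028540)) (.one (nat_lit 0x400700900c000800e012019500)))) (.br (Nat.shiftLeft (nat_lit 0x400700900f) (nat_lit 64)) (.br (Nat.shiftLeft (nat_lit 0x2003804807) (nat_lit 65)) (.one (nat_lit 0x400700900d000800e01201b500)) (.one (nat_lit 0x400700900e000800e01201d500))) (.br (Nat.shiftLeft (nat_lit 0x400700901) (nat_lit 68)) (.one (nat_lit 0x400700900f000800e01201f500)) (.one (nat_lit 0x4007009010000800e012021500)))))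
def w1 : u1.all (wj 57 s1) = true := by decide +kernel
def o1 : OkW 57 (jb2 57 fl) u1 := .lift s1 _ (.br _ _ _ (.br _ _ _ (.br _ _ _ (.br _ _ _ (.leaf b0 k15 t15) (.leaf b0 k16 t16)) (.br _ _ _ (.leaf b0 k17 t17) (.leaf b0 k18 t18))) (.br _ _ _ (.br _ _ _ (.leaf b0 k19 t19) (.leaf b0 k20 t20)) (.br _ _ _ (.leaf b0 k21 t21) (.leaf b0 k22 t22)))) (.br _ _ _ (.br _ _ _ (.br _ _ _ (.leaf b0 k23 t23) (.leaf b0 k24 t24)) (.br _ _ _ (.leaf b0 k25 t25) (.leaf b0 k26 t26))) (.br _ _ _ (.br _ _ _ (.leaf b0 k27 t27) (.leaf b0 k28 t28)) (.br _ _ _ (.leaf b0 k29 t29) (.br _ _ _ (.leaf b0 k30 t30) (.leaf b0 k31 t31)))))) w1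
noncomputable def k32 : KT := (.br (Nat.shiftLeft (nat_lit 0x1003) (nat_lit 112)) (.br (Nat.shiftLeft (nat_lit 0x3) (nat_lit 112)) (.br (Nat.shiftLeft (nat_lit 0x1) (nat_lit 112)) (.one (nat_lit 0x4007009011000800e012023500)) (.br (Nat.shiftLeft (nat_lit 0x1) (nat_lit 113)) (.one (nat_lit 0x1004007009011200800e012023600)) (.one (nat_lit 0x2004007009011400800e012023600)))) (.br (Nat.shiftLeft (nat_lit 0x1) (nat_lit 124)) (.one (nat_lit 0x3004007009011600800e012023600)) (.br (Nat.shiftLeft (nat_lit 0x801) (nat_lit 113)) (.one (nat_lit 0x1000004007009011000800e032422511)) (.one (nat_lit 0x1002004007009011400800e032423700))))) (.br (Nat.shiftLeft (nat_lit 0x3) (nat_lit 124)) (.br (Nat.shiftLeft (nat_lit 0x1) (nat_lit 125)) (.one (nat_lit 0x1003004007009011600800e032423700)) (.br (Nat.shiftLeft (nat_lit 0x1001) (nat_lit 113)) (.one (nat_lit 0x2000004007009011000800e052822511)) (.one (nat_lit 0x2003004007009011600800e052823700)))) (.br (Nat.shiftLeft (nat_lit 0x5) (nat_lit 124)) (.br (Nat.shiftLeft (nat_lit 0x1) (nat_lit 126)) (.one (nat_lit 0x3000004007009011000800e072c22511))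 (.one (nat_lit 0x4000004007009011000800e093022511))) (.br (Nat.shiftLeft (nat_lit 0x3) (nat_lit 125)) (.one (nat_lit 0x5000004007009011000800e0b3422511)) (.one (nat_lit 0x6000004007009011000800e0d3822511))))))
noncomputable def b33 : BT := .node (nat_lit 0x1) (nat_lit 0x4b224d49d09916da258c003a59002ac6800ba98004e9642000e300028) .leaf .leaf
def t32 : k32.all (jb2 57 fl b33) = true := by decide +kernel
noncomputable def k33 : KT := (.one (nat_lit 0x7000004007009011000800e0f3c22511))
noncomputable def b34 : BT := .node (nat_lit 0x11) (nat_lit 0xdb325ca4d9b6693749b24d89804e8004cb6000b29b002ea600032d8002e97c00ab1a0f785b684e84c8a4d92c800194d0015634005d2d002653414c8b6d126d2316da145800ba5a000ca6801329a0028d682003f4003f4003f4002de0022300168001680016800168001680016800168001680016800168001680016800168) .leaf .leaf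
def t33 : k33.all (jb2 57 fl b34) = true := by decide +kernel
noncomputable def k34 : KT := (.one (nat_lit 0x8000004007009011000800e114022511))
noncomputable def b35 : BT := .node (nat_lit 0xb) (nat_lit 0x36cdb669636d993a0a86001d4c00065b0001d0e800472e14b1b6d0980db328aa4dc0042590008b900032d8000ab70200266002660026600266001ab000f0000f0000f0000f0000f0000f0000f0) .leaf .leaf
def t34 : k34.all (jb2 57 fl b35) = true := by decide +kernel
noncomputable def k35 : KT := (.br (Nat.shiftLeft (nat_lit 0x800001) (nat_lit 113)) (.br (Nat.shiftLeft (nat_lit 0x1) (nat_lit 136)) (.one (nat_lit 0x9000004007009011000800e134422511)) (.one (nat_lit 0x1000001004007009011200802e412022611))) (.br (Nat.shiftLeft (nat_lit 0x1000003) (nat_lit 112)) (.one (nat_lit 0x1000002004007009011400802e412022611)) (.one (nat_lit 0x1000003004007009011600802e412022611))))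
noncomputable def b36 : BT := .node (nat_lit 0x11) (nat_lit 0x6d9a4e1270001d4c00055ba0d1449c14580041dd000ad5c196425f950c0039e4000ad5c10028700227001c8001c8001c800168001680016800168001680016800168001680016800168001680016800168) .leaf .leaf
def t35 : k35.all (jb2 57 fl b36) = true := by decide +kernel
noncomputable def k36 : KT := (.br (Nat.shiftLeft (nat_lit 0x3) (nat_lit 136)) (.br (Nat.shiftLeft (nat_lit 0x1000001) (nat_lit 113)) (.br (Nat.shiftLeft (nat_lit 0x1) (nat_lit 137)) (.one (nat_lit 0x1002003004007009011600802e452822870)) (.one (nat_lit 0x2000001004007009011200804e812022611))) (.br (Nat.shiftLeft (nat_lit 0x2000003) (nat_lit 112)) (.one (nat_lit 0x2000002004007009011400804e812022611)) (.one (nat_lit 0x2000003004007009011600804e812022611)))) (.br (Nat.shiftLeft (nat_lit 0x3000003) (nat_lit 112)) (.br (Nat.shiftLeft (nat_lit 0x1800001) (nat_lit 113)) (.one (nat_lit 0x3000001004007009011200806ec12022611)) (.one (nat_lit 0x3000002004007009011400806ec12022611))) (.br (Nat.shiftLeft (nat_lit 0x1) (nat_lit 138)) (.one (nat_lit 0x3000003004007009011600806ec12022611))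 (.one (nat_lit 0x4000001004007009011200808f012022611)))))
def t36 : k36.all (jb2 57 fl b0) = true := by decide +kernel
noncomputable def k37 : KT := (.br (Nat.shiftLeft (nat_lit 0x4000003) (nat_lit 112)) (.one (nat_lit 0x4000002004007009011400808f012022611)) (.br (Nat.shiftLeft (nat_lit 0x5) (nat_lit 136)) (.one (nat_lit 0x4000003004007009011600808f012022611)) (.one (nat_lit 0x500000100400700901120080af412022611))))
noncomputable def b38 : BT := .node (nat_lit 0x1) (nat_lit 0xdb32a224d4003356000ab6410008800028) .leaf .leaf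
def t37 : k37.all (jb2 57 fl b38) = true := by decide +kernel
noncomputable def k38 : KT := (.br (Nat.shiftLeft (nat_lit 0x5000003) (nat_lit 112)) (.one (nat_lit 0x500000200400700901140080af412022611)) (.one (nat_lit 0x500000300400700901160080af412022611)))
def t38 : k38.all (jb2 57 fl b0) = true := by decide +kernel
noncomputable def k39 : KT := (.one (nat_lit 0x600000100400700901120080cf812022611))
noncomputable def b40 : BT := .node (nat_lit 0x1) (nat_lit 0x6f0b7889cf2312742590003a980008c700032da0008c682000e300028) .leaf .leaf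
def t39 : k39.all (jb2 57 fl b40) = true := by decide +kernel
noncomputable def k40 : KT := (.one (nat_lit 0x600000200400700901140080cf812022611))
noncomputable def b41 : BT := .node (nat_lit 0x17) (nat_lit 0x2b8950c974001d2c80065b00ed913a0ae4001d0e00047ae0ed912ed324de16d9a58c0032d9000ad5c003a59000ac602de14b1a648003a59000ac601003ba003ba003ba0035b0035b0035b0035b002fb002fb002fb002fb002fb002fb002fb002fb002fb002fb0024000240001e0001e0001e0001e0001e0) .leaf .leaf
def t40 : k40.all (jb2 57 fl b41) = true := by decide +kernel
noncomputable def k41 : KT := (.one (nat_lit 0x600000300400700901160080cf812022611))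
noncomputable def b42 : BT := .node (nat_lit 0x1) (nat_lit 0x123125da6480032d90008d6010008900028) .leaf .leaf
def t41 : k41.all (jb2 57 fl b42) = true := by decide +kernel
noncomputable def k42 : KT := (.one (nat_lit 0x700000100400700901120080efc12022611))
noncomputable def b43 : BT := .node (nat_lit 0x17) (nat_lit 0x6d913a0ae2001d0e80047ac0ed9a590980db3273a5900032d9000aa9000329c000ac602db3274258db645172b8800653800158c000743a0011eb0532493625f800743800157083b664c02a1c8c49805176d9a4d926c001cf28004730001d1080036ba00196c00065b01ed99304a2c96349b24dc003a230008d68003a5a000cb642005e7005e7005e7005e7005e7005e7005e7005e700587004cc004cc004cc004cc004cc004cc0041100411003b1003b10029b0029b0029b001e0001e0) .leaf .leaf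
def t42 : k42.all (jb2 57 fl b43) = true := by decide +kernel
noncomputable def k43 : KT := (.br (Nat.shiftLeft (nat_lit 0x7000003) (nat_lit 112)) (.one (nat_lit 0x700000200400700901140080efc12022611)) (.one (nat_lit 0x700000300400700901160080efc12022611)))
noncomputable def b44 : BT := .node (nat_lit 0xb) (nat_lit 0x6d924d926c001d4c00055b60c9b12f897f2312a236cc003a98000ab84002b58000ab642de14b2139d26c4be49b36c89d0937004ca68012b1a002cb680032d8002cc5c002adc0e4d8980516918b6cca86db24b1a4d8003a22000ad600032990008e600032d8000ca6c300437003d7003d70031c0031c0031c0031c0020600206000f0000f0000f0) .leaf .leaf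
def t43 : k43.all (jb2 57 fl b44) = true := by decide +kernel
noncomputable def k44 : KT := (.one (nat_lit 0x80000010040070090112008110012022611))
noncomputable def b45 : BT := .node (nat_lit 0xb) (nat_lit 0x2644a86964000cc5c00329a064d926e4c06d9b6cca86db325f13000032d8000ca88003a980008e5c0032d9000aa90300266002660026600266002660026600206002060020600206000f0000f0) .leaf .leaf
def t44 : k44.all (jb2 57 fl b45) = true := by decide +kernel
noncomputable def k45 : KT := (.br (Nat.shiftLeft (nat_lit 0x8000003) (nat_lit 112)) (.one (nat_lit 0x80000020040070090114008110012022611)) (.one (nat_lit 0x80000030040070090116008110012022611)))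
noncomputable def b46 : BT := .node (nat_lit 0x1) (nat_lit 0x49b1304a8723128b15c80039e5000ae58003a1c0006f602000e300028) .leaf .leaf
def t45 : k45.all (jb2 57 fl b46) = true := by decide +kernel
noncomputable def k46 : KT := (.br (Nat.shiftLeft (nat_lit 0x800001) (nat_lit 125)) (.br (Nat.shiftLeft (nat_lit 0x9000003) (nat_lit 112)) (.br (Nat.shiftLeft (nat_lit 0x4800001) (nat_lit 113)) (.one (nat_lit 0x90000010040070090112008130412022611)) (.one (nat_lit 0x90000020040070090114008130412022611))) (.br (Nat.shiftLeft (nat_lit 0x1) (nat_lit 148)) (.one (nat_lit 0x90000030040070090116008130412022611)) (.br (Nat.shiftLeft (nat_lit 0x1000001003) (nat_lit 112)) (.one (nat_lit 0x1000001002004007009011402840e032422711)) (.one (nat_lit 0x1000001003004007009011602840e032422711))))) (.br (Nat.shiftLeft (nat_lit 0x2000001003) (nat_lit 112)) (.br (Nat.shiftLeft (nat_lit 0x1) (nat_lit 149)) (.one (nat_lit 0x1000002003004007009011602840e052822711)) (.one (nat_lit 0x2000001002004007009011404880e032422711))) (.br (Nat.shiftLeft (nat_lit 0x1000001) (nat_lit 125))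 (.one (nat_lit 0x2000001003004007009011604880e032422711)) (.br (Nat.shiftLeft (nat_lit 0x3) (nat_lit 148)) (.one (nat_lit 0x2000002003004007009011604880e052822711)) (.one (nat_lit 0x30000010020040070090114068c0e032422711))))))
def t46 : k46.all (jb2 57 fl b0) = true := by decide +kernel
noncomputable def k47 : KT := (.br (Nat.shiftLeft (nat_lit 0x4000001003) (nat_lit 112)) (.br (Nat.shiftLeft (nat_lit 0x1800001) (nat_lit 125)) (.one (nat_lit 0x30000010030040070090116068c0e032422711)) (.br (Nat.shiftLeft (nat_lit 0x1) (nat_lit 150)) (.one (nat_lit 0x30000020030040070090116068c0e052822711)) (.one (nat_lit 0x4000001002004007009011408900e032422711)))) (.br (Nat.shiftLeft (nat_lit 0x2000001) (nat_lit 125)) (.one (nat_lit 0x4000001003004007009011608900e032422711)) (.br (Nat.shiftLeft (nat_lit 0x5) (nat_lit 148)) (.one (nat_lit 0x4000002003004007009011608900e052822711)) (.one (nat_lit 0x500000100200400700901140a940e032422711)))))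
noncomputable def b48 : BT := .node (nat_lit 0x13) (nat_lit 0x37852c64c149a1304ae400194c800554a001cd300057aa16d9145926a0019ab00055b40c8c4980964000c99000231a076c8982935000ca8c002ada064d49ce516000e964002b5907784a885a1918945d324db227395c800ba1a0008f5c00b29c0028d6000ba590048f5c3004e2004e2004e2004e2004e200427003c7003c7003c700366003060030600306003060030600306002a6002a60019000190) .leaf .leaf
def t47 : k47.all (jb2 57 fl b48) = true := by decide +kernel
noncomputable def k48 : KT := (.br (Nat.shiftLeft (nat_lit 0x2800001) (nat_lit 125)) (.one (nat_lit 0x500000100300400700901160a940e032422711)) (.one (nat_lit 0x500000200300400700901160a940e052822711)))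
noncomputable def b49 : BT := .node (nat_lit 0x17) (nat_lit 0x24624e92d0800733e000e0b833224e849aa645268544000cb6c00325b000e868002b970b6c8a2e9634b1a4d4a2c00196d8005630001d2c80056b216f0b6cca2c9916d9a4d0003299002ac6c00ba59004ca64296327424d0003319000ca641004d2004d200471004710047100471004710047100471003b6003b6003b6003b6002fb002fb002fb002400024000240002400024000240001e0001e0) .leaf .leaf
def t48 : k48.all (jb2 57 fl b49) = true := by decide +kernel
noncomputable def k49 : KT := (.br (Nat.shiftLeft (nat_lit 0x6000001003) (nat_lit 112)) (.one (nat_lit 0x600000100200400700901140c980e032422711)) (.br (Nat.shiftLeft (nat_lit 0x3000001) (nat_lit 125)) (.one (nat_lit 0x600000100300400700901160c980e032422711)) (.one (nat_lit 0x600000200300400700901160c980e052822711))))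
noncomputable def b50 : BT := .node (nat_lit 0xb) (nat_lit 0x24d526a5436f093a0ae4001d4c000572c001d0e000473016d936cc9d0de14b1a648003a980008c74003a59000ac60200266002660026600266001ab001ab001ab000f0000f0000f0000f0000f0) .leaf .leaf
def t49 : k49.all (jb2 57 fl b50) = true := by decide +kernel
noncomputable def k50 : KT := (.br (Nat.shiftLeft (nat_lit 0x7000001003) (nat_lit 112)) (.one (nat_lit 0x700000100200400700901140e9c0e032422711)) (.br (Nat.shiftLeft (nat_lit 0x3800001) (nat_lit 125)) (.one (nat_lit 0x700000100300400700901160e9c0e032422711)) (.one (nat_lit 0x700000200300400700901160e9c0e052822711))))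
noncomputable def b51 : BT := .node (nat_lit 0x1) (nat_lit 0x6d912e49d0db26d993000032d8000ab74003a980008b942000e300028) .leaf .leaf
def t50 : k50.all (jb2 57 fl b51) = true := by decide +kernel
noncomputable def k51 : KT := (.br (Nat.shiftLeft (nat_lit 0x4000001) (nat_lit 125)) (.br (Nat.shiftLeft (nat_lit 0x8000001003) (nat_lit 112)) (.one (nat_lit 0x8000001002004007009011410a00e032422711)) (.one (nat_lit 0x8000001003004007009011610a00e032422711))) (.br (Nat.shiftLeft (nat_lit 0x9) (nat_lit 148)) (.one (nat_lit 0x8000002003004007009011610a00e052822711)) (.one (nat_lit 0x9000001002004007009011412a40e032422711))))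
noncomputable def b52 : BT := .node (nat_lit 0x1) (nat_lit 0xdb24b193000032d8000aa9410008800028) .leaf .leaf
def t51 : k51.all (jb2 57 fl b52) = true := by decide +kernel
noncomputable def k52 : KT := (.br (Nat.shiftLeft (nat_lit 0x4800001) (nat_lit 125)) (.one (nat_lit 0x9000001003004007009011612a40e032422711)) (.one (nat_lit 0x9000002003004007009011612a40e052822711)))
def t52 : k52.all (jb2 57 fl b0) = true := by decide +kernel
noncomputable def s2 : KT := (.br (nat_lit 0x600000300400700901160080cf812022611) (.br (nat_lit 0x4000001004007009011200808f012022611) (.br (nat_lit 0x7000004007009011000800e0f3c22511) (.br (nat_lit 0x6000004007009011000800e0d3822511) k32 k33) (.br (nat_lit 0x8000004007009011000800e114022511) k34 (.br (nat_lit 0x1000003004007009011600802e412022611) k35 k36))) (.br (nat_lit 0x500000300400700901160080af412022611) (.br (nat_lit 0x500000100400700901120080af412022611) k37 k38) (.br (nat_lit 0x600000100400700901120080cf812022611) k39 (.br (nat_lit 0x600000200400700901140080cf812022611) k40 k41)))) (.br (nat_lit 0x30000010020040070090114068c0e032422711)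 (.br (nat_lit 0x700000300400700901160080efc12022611) (.br (nat_lit 0x700000100400700901120080efc12022611) k42 k43) (.br (nat_lit 0x80000010040070090112008110012022611) k44 (.br (nat_lit 0x80000030040070090116008110012022611) k45 k46))) (.br (nat_lit 0x600000200300400700901160c980e052822711) (.br (nat_lit 0x500000100200400700901140a940e032422711) k47 (.br (nat_lit 0x500000200300400700901160a940e052822711) k48 k49)) (.br (nat_lit 0x700000200300400700901160e9c0e052822711) k50 (.br (nat_lit 0x9000001002004007009011412a40e032422711) k51 k52)))))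
noncomputable def u2 : KT := (.one (nat_lit 0x4007009011000800e012022540))
def w2 : u2.all (wj 57 s2) = true := by decide +kernel
def o2 : OkW 57 (jb2 57 fl) u2 := .lift s2 _ (.br _ _ _ (.br _ _ _ (.br _ _ _ (.br _ _ _ (.leaf b33 k32 t32) (.leaf b34 k33 t33)) (.br _ _ _ (.leaf b35 k34 t34) (.br _ _ _ (.leaf b36 k35 t35) (.leaf b0 k36 t36)))) (.br _ _ _ (.br _ _ _ (.leaf b38 k37 t37) (.leaf b0 k38 t38)) (.br _ _ _ (.leaf b40 k39 t39) (.br _ _ _ (.leaf b41 k40 t40) (.leaf b42 k41 t41))))) (.br _ _ _ (.br _ _ _ (.br _ _ _ (.leaf b43 k42 t42) (.leaf b44 k43 t43)) (.br _ _ _ (.leaf b45 k44 t44) (.br _ _ _ (.leaf b46 k45 t45) (.leaf b0 k46 t46)))) (.br _ _ _ (.br _ _ _ (.leaf b48 k47 t47) (.br _ _ _ (.leaf b49 k48 t48) (.leaf b50 k49 t49))) (.br _ _ _ (.leaf b51 k50 t50) (.br _ _ _ (.leaf b52 k51 t51) (.leaf b0 k52 t52)))))) w2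
noncomputable def k53 : KT := (.br (Nat.shiftLeft (nat_lit 0x2004007009013) (nat_lit 64)) (.br (Nat.shiftLeft (nat_lit 0x1) (nat_lit 112)) (.br (Nat.shiftLeft (nat_lit 0x4007009013) (nat_lit 64)) (.one (nat_lit 0x4007009012000800e012025500)) (.one (nat_lit 0x4007009013000800e012027500))) (.br (Nat.shiftLeft (nat_lit 0x1004007009013) (nat_lit 64)) (.one (nat_lit 0x1004007009012200800e012025600)) (.br (Nat.shiftLeft (nat_lit 0x1) (nat_lit 113)) (.one (nat_lit 0x1004007009013200800e012027600)) (.one (nat_lit 0x2004007009012400800e012025600))))) (.br (Nat.shiftLeft (nat_lit 0x1) (nat_lit 124)) (.br (Nat.shiftLeft (nat_lit 0x3) (nat_lit 112)) (.one (nat_lit 0x2004007009013400800e012027600)) (.br (Nat.shiftLeft (nat_lit 0x3004007009013) (nat_lit 64)) (.one (nat_lit 0x3004007009012600800e012025600)) (.one (nat_lit 0x3004007009013600800e012027600)))) (.br (Nat.shiftLeft (nat_lit 0x1000004007009013) (nat_lit 64)) (.one (nat_lit 0x1000004007009012000800e032424511)) (.br (Nat.shiftLeft (nat_lit 0x801) (nat_lit 113)) (.one (nat_lit 0x1000004007009013000800e032426511))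 (.one (nat_lit 0x1002004007009012400800e032425700))))))
def t53 : k53.all (jb2 57 fl b0) = true := by decide +kernel
noncomputable def k54 : KT := (.br (Nat.shiftLeft (nat_lit 0x1003) (nat_lit 112)) (.one (nat_lit 0x1002004007009013400800e032426760)) (.one (nat_lit 0x1003004007009012600800e032425700)))
def t54 : k54.all (jb2 57 fl b0) = true := by decide +kernel
noncomputable def k55 : KT := (.br (Nat.shiftLeft (nat_lit 0x2000004007009013) (nat_lit 64)) (.br (Nat.shiftLeft (nat_lit 0x1) (nat_lit 125)) (.one (nat_lit 0x1003004007009013600800e032426760)) (.one (nat_lit 0x2000004007009012000800e052824511))) (.br (Nat.shiftLeft (nat_lit 0x1001) (nat_lit 113)) (.one (nat_lit 0x2000004007009013000800e052826511)) (.one (nat_lit 0x2003004007009012600800e052825700))))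
def t55 : k55.all (jb2 57 fl b0) = true := by decide +kernel
noncomputable def k56 : KT := (.br (Nat.shiftLeft (nat_lit 0x3000004007009013) (nat_lit 64)) (.br (Nat.shiftLeft (nat_lit 0x3) (nat_lit 124)) (.one (nat_lit 0x2003004007009013600800e052826760)) (.one (nat_lit 0x3000004007009012000800e072c24511))) (.br (Nat.shiftLeft (nat_lit 0x1) (nat_lit 126)) (.one (nat_lit 0x3000004007009013000800e072c26511)) (.br (Nat.shiftLeft (nat_lit 0x4000004007009013) (nat_lit 64)) (.one (nat_lit 0x4000004007009012000800e093024511)) (.one (nat_lit 0x4000004007009013000800e093026511)))))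
def t56 : k56.all (jb2 57 fl b0) = true := by decide +kernel
noncomputable def k57 : KT := (.br (Nat.shiftLeft (nat_lit 0x5000004007009013) (nat_lit 64)) (.one (nat_lit 0x5000004007009012000800e0b3424511)) (.br (Nat.shiftLeft (nat_lit 0x3) (nat_lit 125)) (.one (nat_lit 0x5000004007009013000800e0b3426511)) (.one (nat_lit 0x6000004007009012000800e0d3824511))))
def t57 : k57.all (jb2 57 fl b0) = true := by decide +kernel
noncomputable def k58 : KT := (.br (Nat.shiftLeft (nat_lit 0x7) (nat_lit 124)) (.one (nat_lit 0x6000004007009013000800e0d3826511)) (.one (nat_lit 0x7000004007009012000800e0f3c24511)))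
noncomputable def b59 : BT := .node (nat_lit 0x1) (nat_lit 0x51449b145c0041db000ad6410008700028) .leaf .leaf
def t58 : k58.all (jb2 57 fl b59) = true := by decide +kernel
noncomputable def k59 : KT := (.br (Nat.shiftLeft (nat_lit 0x1) (nat_lit 127)) (.one (nat_lit 0x7000004007009013000800e0f3c26511)) (.one (nat_lit 0x8000004007009012000800e114024511)))
def t59 : k59.all (jb2 57 fl b0) = true := by decide +kernel
noncomputable def k60 : KT := (.br (Nat.shiftLeft (nat_lit 0x1000001004007009013) (nat_lit 64)) (.br (Nat.shiftLeft (nat_lit 0x9000004007009013) (nat_lit 64)) (.br (Nat.shiftLeft (nat_lit 0x9) (nat_lit 124)) (.one (nat_lit 0x8000004007009013000800e114026511)) (.one (nat_lit 0x9000004007009012000800e134424511))) (.br (Nat.shiftLeft (nat_lit 0x1) (nat_lit 136)) (.one (nat_lit 0x9000004007009013000800e134426511)) (.one (nat_lit 0x1000001004007009012200802e412024611)))) (.br (Nat.shiftLeft (nat_lit 0x1000002004007009013) (nat_lit 64)) (.br (Nat.shiftLeft (nat_lit 0x800001) (nat_lit 113)) (.one (nat_lit 0x1000001004007009013200802e412026611))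 (.one (nat_lit 0x1000002004007009012400802e412024611))) (.br (Nat.shiftLeft (nat_lit 0x1000003) (nat_lit 112)) (.one (nat_lit 0x1000002004007009013400802e412026611)) (.br (Nat.shiftLeft (nat_lit 0x1000003004007009013) (nat_lit 64)) (.one (nat_lit 0x1000003004007009012600802e412024611)) (.one (nat_lit 0x1000003004007009013600802e412026611))))))
def t60 : k60.all (jb2 57 fl b0) = true := by decide +kernel
noncomputable def k61 : KT := (.br (Nat.shiftLeft (nat_lit 0x3000001004007009013) (nat_lit 64)) (.br (Nat.shiftLeft (nat_lit 0x2000002004007009013) (nat_lit 64)) (.br (Nat.shiftLeft (nat_lit 0x2000001004007009013) (nat_lit 64)) (.br (Nat.shiftLeft (nat_lit 0x1) (nat_lit 137)) (.one (nat_lit 0x1002003004007009012600802e452824870)) (.one (nat_lit 0x2000001004007009012200804e812024611))) (.br (Nat.shiftLeft (nat_lit 0x1000001) (nat_lit 113)) (.one (nat_lit 0x2000001004007009013200804e812026611)) (.one (nat_lit 0x2000002004007009012400804e812024611)))) (.br (Nat.shiftLeft (nat_lit 0x2000003004007009013) (nat_lit 64)) (.br (Nat.shiftLeft (nat_lit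 0x2000003) (nat_lit 112)) (.one (nat_lit 0x2000002004007009013400804e812026611)) (.one (nat_lit 0x2000003004007009012600804e812024611))) (.br (Nat.shiftLeft (nat_lit 0x3) (nat_lit 136)) (.one (nat_lit 0x2000003004007009013600804e812026611)) (.one (nat_lit 0x3000001004007009012200806ec12024611))))) (.br (Nat.shiftLeft (nat_lit 0x3000003004007009013) (nat_lit 64)) (.br (Nat.shiftLeft (nat_lit 0x3000002004007009013) (nat_lit 64)) (.br (Nat.shiftLeft (nat_lit 0x1800001) (nat_lit 113)) (.one (nat_lit 0x3000001004007009013200806ec12026611)) (.one (nat_lit 0x3000002004007009012400806ec12024611))) (.br (Nat.shiftLeft (nat_lit 0x3000003) (nat_lit 112)) (.one (nat_lit 0x3000002004007009013400806ec12026611)) (.one (nat_lit 0x3000003004007009012600806ec12024611)))) (.br (Nat.shiftLeft (nat_lit 0x4000001004007009013) (nat_lit 64)) (.br (Nat.shiftLeft (nat_lit 0x1) (nat_lit 138)) (.one (nat_lit 0x3000003004007009013600806ec12026611)) (.one (nat_lit 0x4000001004007009012200808f012024611))) (.br (Nat.shiftLeft (nat_lit 0x2000001) (nat_lit 113)) (.one (nat_lit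 0x4000001004007009013200808f012026611)) (.one (nat_lit 0x4000002004007009012400808f012024611))))))
def t61 : k61.all (jb2 57 fl b0) = true := by decide +kernel
noncomputable def k62 : KT := (.br (Nat.shiftLeft (nat_lit 0x4000003004007009013) (nat_lit 64)) (.br (Nat.shiftLeft (nat_lit 0x4000003) (nat_lit 112)) (.one (nat_lit 0x4000002004007009013400808f012026611)) (.one (nat_lit 0x4000003004007009012600808f012024611))) (.br (Nat.shiftLeft (nat_lit 0x5) (nat_lit 136)) (.one (nat_lit 0x4000003004007009013600808f012026611)) (.br (Nat.shiftLeft (nat_lit 0x5000001004007009013) (nat_lit 64)) (.one (nat_lit 0x500000100400700901220080af412024611)) (.one (nat_lit 0x500000100400700901320080af412026611)))))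
def t62 : k62.all (jb2 57 fl b0) = true := by decide +kernel
noncomputable def k63 : KT := (.br (Nat.shiftLeft (nat_lit 0x5000002004007009013) (nat_lit 64)) (.one (nat_lit 0x500000200400700901240080af412024611)) (.br (Nat.shiftLeft (nat_lit 0x5000003) (nat_lit 112)) (.one (nat_lit 0x500000200400700901340080af412026611)) (.one (nat_lit 0x500000300400700901260080af412024611))))
def t63 : k63.all (jb2 57 fl b0) = true := by decide +kernel
noncomputable def k64 : KT := (.br (Nat.shiftLeft (nat_lit 0x3) (nat_lit 137)) (.one (nat_lit 0x500000300400700901360080af412026611)) (.one (nat_lit 0x600000100400700901220080cf812024611)))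
def t64 : k64.all (jb2 57 fl b0) = true := by decide +kernel
noncomputable def k65 : KT := (.br (Nat.shiftLeft (nat_lit 0x3000001) (nat_lit 113)) (.one (nat_lit 0x600000100400700901320080cf812026611)) (.one (nat_lit 0x600000200400700901240080cf812024611)))
def t65 : k65.all (jb2 57 fl b0) = true := by decide +kernel
noncomputable def k66 : KT := (.br (Nat.shiftLeft (nat_lit 0x6000003) (nat_lit 112)) (.one (nat_lit 0x600000200400700901340080cf812026611)) (.br (Nat.shiftLeft (nat_lit 0x6000003004007009013) (nat_lit 64)) (.one (nat_lit 0x600000300400700901260080cf812024611)) (.one (nat_lit 0x600000300400700901360080cf812026611))))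
def t66 : k66.all (jb2 57 fl b0) = true := by decide +kernel
noncomputable def k67 : KT := (.br (Nat.shiftLeft (nat_lit 0x7000001004007009013) (nat_lit 64)) (.one (nat_lit 0x700000100400700901220080efc12024611)) (.one (nat_lit 0x700000100400700901320080efc12026611)))
noncomputable def b68 : BT := .node (nat_lit 0x1) (nat_lit 0x963274a4d8003318000ca6810008800028) .leaf .leaf
def t67 : k67.all (jb2 57 fl b68) = true := by decide +kernel
noncomputable def k68 : KT := (.br (Nat.shiftLeft (nat_lit 0x7000002004007009013) (nat_lit 64)) (.one (nat_lit 0x700000200400700901240080efc12024611)) (.br (Nat.shiftLeft (nat_lit 0x7000003) (nat_lit 112)) (.one (nat_lit 0x700000200400700901340080efc12026611)) (.one (nat_lit 0x700000300400700901260080efc12024611))))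
def t68 : k68.all (jb2 57 fl b0) = true := by decide +kernel
noncomputable def k69 : KT := (.br (Nat.shiftLeft (nat_lit 0x1) (nat_lit 139)) (.one (nat_lit 0x700000300400700901360080efc12026611)) (.br (Nat.shiftLeft (nat_lit 0x8000001004007009013) (nat_lit 64)) (.one (nat_lit 0x80000010040070090122008110012024611)) (.one (nat_lit 0x80000010040070090132008110012026611))))
def t69 : k69.all (jb2 57 fl b0) = true := by decide +kernel
noncomputable def k70 : KT := (.br (Nat.shiftLeft (nat_lit 0x8000003) (nat_lit 112)) (.br (Nat.shiftLeft (nat_lit 0x8000002004007009013) (nat_lit 64)) (.one (nat_lit 0x80000020040070090124008110012024611)) (.one (nat_lit 0x80000020040070090134008110012026611))) (.br (Nat.shiftLeft (nat_lit 0x8000003004007009013) (nat_lit 64)) (.one (nat_lit 0x80000030040070090126008110012024611)) (.one (nat_lit 0x80000030040070090136008110012026611))))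
def t70 : k70.all (jb2 57 fl b0) = true := by decide +kernel
noncomputable def k71 : KT := (.br (Nat.shiftLeft (nat_lit 0x9000003) (nat_lit 112)) (.br (Nat.shiftLeft (nat_lit 0x4800001) (nat_lit 113)) (.br (Nat.shiftLeft (nat_lit 0x9000001004007009013) (nat_lit 64)) (.one (nat_lit 0x90000010040070090122008130412024611)) (.one (nat_lit 0x90000010040070090132008130412026611))) (.br (Nat.shiftLeft (nat_lit 0x9000002004007009013) (nat_lit 64)) (.one (nat_lit 0x90000020040070090124008130412024611)) (.one (nat_lit 0x90000020040070090134008130412026611)))) (.br (Nat.shiftLeft (nat_lit 0x1) (nat_lit 148)) (.br (Nat.shiftLeft (nat_lit 0x9000003004007009013) (nat_lit 64)) (.one (nat_lit 0x90000030040070090126008130412024611)) (.one (nat_lit 0x90000030040070090136008130412026611))) (.br (Nat.shiftLeft (nat_lit 0x1000001003) (nat_lit 112)) (.one (nat_lit 0x1000001002004007009012402840e032424711)) (.br (Nat.shiftLeft (nat_lit 0x800001) (nat_lit 125)) (.one (nat_lit 0x1000001003004007009012602840e032424711)) (.one (nat_lit 0x1000002003004007009012602840e052824711))))))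
def t71 : k71.all (jb2 57 fl b0) = true := by decide +kernel
noncomputable def k72 : KT := (.br (Nat.shiftLeft (nat_lit 0x1800001) (nat_lit 125)) (.br (Nat.shiftLeft (nat_lit 0x1000001) (nat_lit 125)) (.br (Nat.shiftLeft (nat_lit 0x2000001003) (nat_lit 112)) (.one (nat_lit 0x2000001002004007009012404880e032424711)) (.one (nat_lit 0x2000001003004007009012604880e032424711))) (.br (Nat.shiftLeft (nat_lit 0x3) (nat_lit 148)) (.one (nat_lit 0x2000002003004007009012604880e052824711)) (.br (Nat.shiftLeft (nat_lit 0x3000001003) (nat_lit 112)) (.one (nat_lit 0x30000010020040070090124068c0e032424711)) (.one (nat_lit 0x30000010030040070090126068c0e032424711))))) (.br (Nat.shiftLeft (nat_lit 0x2000001) (nat_lit 125)) (.br (Nat.shiftLeft (nat_lit 0x1) (nat_lit 150)) (.one (nat_lit 0x30000020030040070090126068c0e052824711)) (.br (Nat.shiftLeft (nat_lit 0x4000001003) (nat_lit 112)) (.one (nat_lit 0x4000001002004007009012408900e032424711)) (.one (nat_lit 0x4000001003004007009012608900e032424711)))) (.br (Nat.shiftLeft (nat_lit 0x5) (nat_lit 148)) (.one (nat_lit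 0x4000002003004007009012608900e052824711)) (.br (Nat.shiftLeft (nat_lit 0x5000001003) (nat_lit 112)) (.one (nat_lit 0x500000100200400700901240a940e032424711)) (.one (nat_lit 0x500000100300400700901260a940e032424711))))))
def t72 : k72.all (jb2 57 fl b0) = true := by decide +kernel
noncomputable def k73 : KT := (.br (Nat.shiftLeft (nat_lit 0x6000001003) (nat_lit 112)) (.br (Nat.shiftLeft (nat_lit 0x3) (nat_lit 149)) (.one (nat_lit 0x500000200300400700901260a940e052824711)) (.one (nat_lit 0x600000100200400700901240c980e032424711))) (.br (Nat.shiftLeft (nat_lit 0x3000001) (nat_lit 125)) (.one (nat_lit 0x600000100300400700901260c980e032424711)) (.one (nat_lit 0x600000200300400700901260c980e052824711))))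
def t73 : k73.all (jb2 57 fl b0) = true := by decide +kernel
noncomputable def k74 : KT := (.br (Nat.shiftLeft (nat_lit 0x1) (nat_lit 151)) (.br (Nat.shiftLeft (nat_lit 0x7000001003) (nat_lit 112)) (.one (nat_lit 0x700000100200400700901240e9c0e032424711)) (.br (Nat.shiftLeft (nat_lit 0x3800001) (nat_lit 125)) (.one (nat_lit 0x700000100300400700901260e9c0e032424711)) (.one (nat_lit 0x700000200300400700901260e9c0e052824711)))) (.br (Nat.shiftLeft (nat_lit 0x8000001003) (nat_lit 112)) (.one (nat_lit 0x8000001002004007009012410a00e032424711)) (.br (Nat.shiftLeft (nat_lit 0x4000001) (nat_lit 125)) (.one (nat_lit 0x8000001003004007009012610a00e032424711)) (.one (nat_lit 0x8000002003004007009012610a00e052824711)))))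
def t74 : k74.all (jb2 57 fl b0) = true := by decide +kernel
noncomputable def k75 : KT := (.br (Nat.shiftLeft (nat_lit 0x9000001003) (nat_lit 112)) (.one (nat_lit 0x9000001002004007009012412a40e032424711)) (.br (Nat.shiftLeft (nat_lit 0x4800001) (nat_lit 125)) (.one (nat_lit 0x9000001003004007009012612a40e032424711)) (.one (nat_lit 0x9000002003004007009012612a40e052824711))))
def t75 : k75.all (jb2 57 fl b0) = true := by decide +kernel
noncomputable def s3 : KT := (.br (nat_lit 0x500000300400700901260080af412024611) (.br (nat_lit 0x6000004007009012000800e0d3824511) (.br (nat_lit 0x1003004007009012600800e032425700) (.br (nat_lit 0x1002004007009012400800e032425700) k53 k54) (.br (nat_lit 0x2003004007009012600800e052825700) k55 (.br (nat_lit 0x4000004007009013000800e093026511) k56 k57))) (.br (nat_lit 0x1000003004007009013600802e412026611) (.br (nat_lit 0x7000004007009012000800e0f3c24511) k58 (.br (nat_lit 0x8000004007009012000800e114024511) k59 k60)) (.br (nat_lit 0x4000002004007009012400808f012024611) k61 (.br (nat_lit 0x500000100400700901320080af412026611)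 k62 k63)))) (.br (nat_lit 0x80000010040070090132008110012026611) (.br (nat_lit 0x600000300400700901360080cf812026611) (.br (nat_lit 0x600000100400700901220080cf812024611) k64 (.br (nat_lit 0x600000200400700901240080cf812024611) k65 k66)) (.br (nat_lit 0x700000100400700901320080efc12026611) k67 (.br (nat_lit 0x700000300400700901260080efc12024611) k68 k69))) (.br (nat_lit 0x500000100300400700901260a940e032424711) (.br (nat_lit 0x80000030040070090136008110012026611) k70 (.br (nat_lit 0x1000002003004007009012602840e052824711) k71 k72)) (.br (nat_lit 0x600000200300400700901260c980e052824711) k73 (.br (nat_lit 0x8000002003004007009012610a00e052824711) k74 k75)))))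
noncomputable def u3 : KT := (.br (Nat.shiftLeft (nat_lit 0x4007009013) (nat_lit 64)) (.one (nat_lit 0x4007009012000800e012024540)) (.one (nat_lit 0x4007009013000800e012026540)))
def w3 : u3.all (wj 57 s3) = true := by decide +kernel
def o3 : OkW 57 (jb2 57 fl) u3 := .lift s3 _ (.br _ _ _ (.br _ _ _ (.br _ _ _ (.br _ _ _ (.leaf b0 k53 t53) (.leaf b0 k54 t54)) (.br _ _ _ (.leaf b0 k55 t55) (.br _ _ _ (.leaf b0 k56 t56) (.leaf b0 k57 t57)))) (.br _ _ _ (.br _ _ _ (.leaf b59 k58 t58) (.br _ _ _ (.leaf b0 k59 t59) (.leaf b0 k60 t60))) (.br _ _ _ (.leaf b0 k61 t61) (.br _ _ _ (.leaf b0 k62 t62) (.leaf b0 k63 t63))))) (.br _ _ _ (.br _ _ _ (.br _ _ _ (.leaf b0 k64 t64) (.br _ _ _ (.leaf b0 k65 t65) (.leaf b0 k66 t66))) (.br _ _ _ (.leaf b68 k67 t67) (.br _ _ _ (.leaf b0 k68 t68) (.leaf b0 k69 t69)))) (.br _ _ _ (.br _ _ _ (.leaf b0 k70 t70) (.br _ _ _ (.leaf b0 k71 t71) (.leaf b0 k72 t72))) (.br _ _ _ (.leaf b0 k73 t73) (.br _ _ _ (.leaf b0 k74 t74) (.leaf b0 k75 t75)))))) w3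
noncomputable def k76 : KT := (.br (Nat.shiftLeft (nat_lit 0x400700a00f) (nat_lit 64)) (.br (Nat.shiftLeft (nat_lit 0x1001c02803) (nat_lit 66)) (.br (Nat.shiftLeft (nat_lit 0x2003805) (nat_lit 77)) (.one (nat_lit 0x4007009014000800e012029500)) (.one (nat_lit 0x400700a00b000800e014017500))) (.br (Nat.shiftLeft (nat_lit 0x400700a00d) (nat_lit 64)) (.one (nat_lit 0x400700a00c000800e014019500)) (.br (Nat.shiftLeft (nat_lit 0x2003805007) (nat_lit 65)) (.one (nat_lit 0x400700a00d000800e01401b500)) (.one (nat_lit 0x400700a00e000800e01401d500))))) (.br (Nat.shiftLeft (nat_lit 0x3) (nat_lit 112)) (.br (Nat.shiftLeft (nat_lit 0x1) (nat_lit 112)) (.one (nat_lit 0x400700a00f000800e01401f500)) (.br (Nat.shiftLeft (nat_lit 0x1) (nat_lit 113)) (.one (nat_lit 0x1004007009014200800e012029600)) (.one (nat_lit 0x2004007009014400800e012029600)))) (.br (Nat.shiftLeft (nat_lit 0x1) (nat_lit 124)) (.one (nat_lit 0x3004007009014600800e012029600)) (.br (Nat.shiftLeft (nat_lit 0x801) (nat_lit 113)) (.one (nat_lit 0x1000004007009014000800e032428511)) (.one (nat_lit 0x1002004007009014400800e032428760))))))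
def t76 : k76.all (jb2 57 fl b0) = true := by decide +kernel
noncomputable def k77 : KT := (.br (Nat.shiftLeft (nat_lit 0x1) (nat_lit 125)) (.one (nat_lit 0x1003004007009014600800e032428760)) (.one (nat_lit 0x2000004007009014000800e052828511)))
def t77 : k77.all (jb2 57 fl b0) = true := by decide +kernel
noncomputable def k78 : KT := (.br (Nat.shiftLeft (nat_lit 0x1) (nat_lit 126)) (.br (Nat.shiftLeft (nat_lit 0x3) (nat_lit 124)) (.one (nat_lit 0x2003004007009014600800e052828760)) (.one (nat_lit 0x3000004007009014000800e072c28511))) (.br (Nat.shiftLeft (nat_lit 0x5) (nat_lit 124)) (.one (nat_lit 0x4000004007009014000800e093028511)) (.one (nat_lit 0x5000004007009014000800e0b3428511))))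
def t78 : k78.all (jb2 57 fl b0) = true := by decide +kernel
noncomputable def k79 : KT := (.br (Nat.shiftLeft (nat_lit 0x1000003) (nat_lit 112)) (.br (Nat.shiftLeft (nat_lit 0x9) (nat_lit 124)) (.br (Nat.shiftLeft (nat_lit 0x7) (nat_lit 124)) (.one (nat_lit 0x6000004007009014000800e0d3828511)) (.br (Nat.shiftLeft (nat_lit 0x1) (nat_lit 127)) (.one (nat_lit 0x7000004007009014000800e0f3c28511)) (.one (nat_lit 0x8000004007009014000800e114028511)))) (.br (Nat.shiftLeft (nat_lit 0x1) (nat_lit 136)) (.one (nat_lit 0x9000004007009014000800e134428511)) (.br (Nat.shiftLeft (nat_lit 0x800001) (nat_lit 113)) (.one (nat_lit 0x1000001004007009014200802e412028611)) (.one (nat_lit 0x1000002004007009014400802e412028611))))) (.br (Nat.shiftLeft (nat_lit 0x2000003) (nat_lit 112)) (.br (Nat.shiftLeft (nat_lit 0x1) (nat_lit 137)) (.one (nat_lit 0x1000003004007009014600802e412028611)) (.br (Nat.shiftLeft (nat_lit 0x1000001) (nat_lit 113)) (.one (nat_lit 0x2000001004007009014200804e812028611)) (.one (nat_lit 0x2000002004007009014400804e812028611)))) (.br (Nat.shiftLeft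 (nat_lit 0x1800001) (nat_lit 113)) (.br (Nat.shiftLeft (nat_lit 0x3) (nat_lit 136)) (.one (nat_lit 0x2000003004007009014600804e812028611)) (.one (nat_lit 0x3000001004007009014200806ec12028611))) (.br (Nat.shiftLeft (nat_lit 0x3000003) (nat_lit 112)) (.one (nat_lit 0x3000002004007009014400806ec12028611)) (.one (nat_lit 0x3000003004007009014600806ec12028611))))))
def t79 : k79.all (jb2 57 fl b0) = true := by decide +kernel
noncomputable def k80 : KT := (.br (Nat.shiftLeft (nat_lit 0x5) (nat_lit 136)) (.br (Nat.shiftLeft (nat_lit 0x2000001) (nat_lit 113)) (.one (nat_lit 0x4000001004007009014200808f012028611)) (.br (Nat.shiftLeft (nat_lit 0x4000003) (nat_lit 112)) (.one (nat_lit 0x4000002004007009014400808f012028611)) (.one (nat_lit 0x4000003004007009014600808f012028611)))) (.br (Nat.shiftLeft (nat_lit 0x2800001) (nat_lit 113)) (.one (nat_lit 0x500000100400700901420080af412028611)) (.br (Nat.shiftLeft (nat_lit 0x5000003) (nat_lit 112)) (.one (nat_lit 0x500000200400700901440080af412028611)) (.one (nat_lit 0x500000300400700901460080af412028611)))))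
def t80 : k80.all (jb2 57 fl b0) = true := by decide +kernel
noncomputable def k81 : KT := (.br (Nat.shiftLeft (nat_lit 0x6000003) (nat_lit 112)) (.br (Nat.shiftLeft (nat_lit 0x3000001) (nat_lit 113)) (.one (nat_lit 0x600000100400700901420080cf812028611)) (.one (nat_lit 0x600000200400700901440080cf812028611))) (.br (Nat.shiftLeft (nat_lit 0x7) (nat_lit 136)) (.one (nat_lit 0x600000300400700901460080cf812028611)) (.one (nat_lit 0x700000100400700901420080efc12028611))))
def t81 : k81.all (jb2 57 fl b0) = true := by decide +kernel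
noncomputable def k82 : KT := (.br (Nat.shiftLeft (nat_lit 0x8000003) (nat_lit 112)) (.br (Nat.shiftLeft (nat_lit 0x1) (nat_lit 139)) (.br (Nat.shiftLeft (nat_lit 0x7000003) (nat_lit 112)) (.one (nat_lit 0x700000200400700901440080efc12028611)) (.one (nat_lit 0x700000300400700901460080efc12028611))) (.br (Nat.shiftLeft (nat_lit 0x4000001) (nat_lit 113)) (.one (nat_lit 0x80000010040070090142008110012028611)) (.one (nat_lit 0x80000020040070090144008110012028611)))) (.br (Nat.shiftLeft (nat_lit 0x4800001) (nat_lit 113)) (.br (Nat.shiftLeft (nat_lit 0x9) (nat_lit 136)) (.one (nat_lit 0x80000030040070090146008110012028611)) (.one (nat_lit 0x90000010040070090142008130412028611))) (.br (Nat.shiftLeft (nat_lit 0x9000003) (nat_lit 112)) (.one (nat_lit 0x90000020040070090144008130412028611)) (.one (nat_lit 0x90000030040070090146008130412028611)))))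
def t82 : k82.all (jb2 57 fl b0) = true := by decide +kernel
noncomputable def s4 : KT := (.br (nat_lit 0x5000004007009014000800e0b3428511) (.br (nat_lit 0x1002004007009014400800e032428760) k76 (.br (nat_lit 0x2000004007009014000800e052828511) k77 k78)) (.br (nat_lit 0x500000300400700901460080af412028611) (.br (nat_lit 0x3000003004007009014600806ec12028611) k79 k80) (.br (nat_lit 0x700000100400700901420080efc12028611) k81 k82)))
noncomputable def u4 : KT := (.br (Nat.shiftLeft (nat_lit 0x400700a00d) (nat_lit 64)) (.br (Nat.shiftLeft (nat_lit 0x2003805) (nat_lit 77)) (.one (nat_lit 0x4007009014000800e012028540)) (.br (Nat.shiftLeft (nat_lit 0x1001c02803) (nat_lit 66)) (.one (nat_lit 0x400700a00b000800e014017500)) (.one (nat_lit 0x400700a00c000800e014019500)))) (.br (Nat.shiftLeft (nat_lit 0x2003805007) (nat_lit 65)) (.one (nat_lit 0x400700a00d000800e01401b500)) (.br (Nat.shiftLeft (nat_lit 0x400700a00f) (nat_lit 64)) (.one (nat_lit 0x400700a00e000800e01401d500)) (.one (nat_lit 0x400700a00f000800e01401f500)))))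
def w4 : u4.all (wj 57 s4) = true := by decide +kernel
def o4 : OkW 57 (jb2 57 fl) u4 := .lift s4 _ (.br _ _ _ (.br _ _ _ (.leaf b0 k76 t76) (.br _ _ _ (.leaf b0 k77 t77) (.leaf b0 k78 t78))) (.br _ _ _ (.br _ _ _ (.leaf b0 k79 t79) (.leaf b0 k80 t80)) (.br _ _ _ (.leaf b0 k81 t81) (.leaf b0 k82 t82)))) w4
noncomputable def k83 : KT := (.br (Nat.shiftLeft (nat_lit 0x1003) (nat_lit 112)) (.br (Nat.shiftLeft (nat_lit 0x3) (nat_lit 112)) (.br (Nat.shiftLeft (nat_lit 0x1) (nat_lit 112)) (.one (nat_lit 0x400700a010000800e014021500)) (.br (Nat.shiftLeft (nat_lit 0x1) (nat_lit 113)) (.one (nat_lit 0x100400700a010200800e014021600)) (.one (nat_lit 0x200400700a010400800e014021600)))) (.br (Nat.shiftLeft (nat_lit 0x1) (nat_lit 124)) (.one (nat_lit 0x300400700a010600800e014021600)) (.br (Nat.shiftLeft (nat_lit 0x801) (nat_lit 113)) (.one (nat_lit 0x100000400700a010000800e034420511)) (.one (nat_lit 0x100200400700a010400800e034421700))))) (.br (Nat.shiftLeft (nat_lit 0x3) (nat_lit 124)) (.br (Nat.shiftLeft (nat_lit 0x1) (nat_lit 125)) (.one (nat_lit 0x100300400700a010600800e034421700))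 (.br (Nat.shiftLeft (nat_lit 0x1001) (nat_lit 113)) (.one (nat_lit 0x200000400700a010000800e054820511)) (.one (nat_lit 0x200300400700a010600800e054821700)))) (.br (Nat.shiftLeft (nat_lit 0x5) (nat_lit 124)) (.br (Nat.shiftLeft (nat_lit 0x1) (nat_lit 126)) (.one (nat_lit 0x300000400700a010000800e074c20511)) (.one (nat_lit 0x400000400700a010000800e095020511))) (.br (Nat.shiftLeft (nat_lit 0x3) (nat_lit 125)) (.one (nat_lit 0x500000400700a010000800e0b5420511)) (.one (nat_lit 0x600000400700a010000800e0d5820511))))))
noncomputable def b84 : BT := .node (nat_lit 0x1) (nat_lit 0x9189511b665426da13a4002b58000ab6400421a000ab742000e400028) .leaf .leaf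
def t83 : k83.all (jb2 57 fl b84) = true := by decide +kernel
noncomputable def k84 : KT := (.one (nat_lit 0x700000400700a010000800e0f5c20511))
noncomputable def b85 : BT := .node (nat_lit 0x13) (nat_lit 0x3785b685164b124d926c00194d0005634001d4c00065b014b236cca2cdb349b13a4003a98000ad600032d8000ac6829636d9b6cd2c64e949b36cc9d2516000ea60003a98000cb6800329b000cb64002b570ea113a09d296328b13a526c93628b258d2c8936002e87400b2da002cc5c00b2d8000ea6000ab58004ea6000b29a136cc9d29644b224d8a86db349ba4d9b664e928b001653a00558c80183b60055ab801753000196c00265b000558d09b664e928b37849d29376d992fd2c8db328b145800b2d8002ad5c0032da002aa7400b263000ac64013a980048d6c4de14c9258c0032d8000ca641008ce00813008130075800642004d2004d2004d2004d2004d2004d200361001f0001f0001f00019000190001900019000190) .leaf .leaf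
def t84 : k84.all (jb2 57 fl b85) = true := by decide +kernel
noncomputable def k85 : KT := (.one (nat_lit 0x800000400700a010000800e116020511))
noncomputable def b86 : BT := .node (nat_lit 0x2b) (nat_lit 0x36c92c84be000cb68002aa3076cdb684be000ea680022e3064dc9d29374b224dc97e96428b150d2c693828b14509d2516000cc5c0032d8002e96c00aae0004ea60012b570010868002b1a004e9680132da176cca2c9636d9b6cd26edb327494593229642a1b6cca2c964002cb6800ab18000ea6000b2d8002e96c00a35b004e968012b57002cc5c002b19168ab6d0a8696325f9459b665164b180084340015ab800744200158d000662e00158c0745126e5166d992f89d20020ee80056ae001d4c000463c16d9b6cd2c8001d4c00065b00c9b92fca2cdb349b93a4003a21000ad5c00329c000ac682db327493a0003a980008c74100b1200b1200b1200b1200b1200b1200b1200ab200ab200a5200a5200a5200a5200a5200a5200a5200a5200a52008860088600886006ba005a5005a5005a5005a5005a5005a5004eb0048b0048b003d0003700037000370003700037000370003700037000370003700037000370) .leaf .leaf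
def t85 : k85.all (jb2 57 fl b86) = true := by decide +kernel
noncomputable def k86 : KT := (.one (nat_lit 0x900000400700a010000800e136420511))
noncomputable def b87 : BT := .node (nat_lit 0x35) (nat_lit 0x4b224dd270db36d992f8003a5b000cb680032d9000aa8c2db249c1459b644be25f80084340011ae000753200117205b66db325f15089d24bf2a192f897c9644b224e0a28543274000753000d56f003743c00d94f80373c600d96c804753000dd4c005753000d94e0b4512704bd000e9700032d80659097c4be49b36cca2a9364b213a40032d9008c988033a9800cac68023a98008cb643db2260258c003264000ac64193849c1459bc251528a80065b200196c00074b40011ad05b64db325f36cd2705164b19300a2c001d4c00055bc00210d00046b6001d1100056361ed9b6d097c00196d00055460cb1a59127096349c1509b64db34b20027530001d4c00184340055ab801753200558c87bc2db328b000653200158d8326e4bf28b2591b664bf000e884002b57000ea60002aa30aa136d097cdb34b192f80049da0008b8c0032d8000aa8c2db349b92f9b6693825f000653800156f800653c00156f052c6db46d9b6cd2709384b1a4e0a2c96325f950c00ba99000ea60013a98002ab7400c21a002ac7000b9e4002ad64493749b92fd26e4be28b258db664bf6f0a4e1b6923128b36d00032d8000ca84003a99000cb64003a98000aa9000329c000ca68002b57000ab6850126301263011a8011a8011a8011a8011a8011a8010ed00f2100f2100f2100ec200dac00dac00dac00dac00dac00dac00d4c00d4c00d4c00d4c00c9100c9100c9100b7b00b1b00b1b00b1b00b1b00b1b00b1b00b1b00b1b00b1b00b1b00a05009a5009a5009a5008ea008ea008ea008ea008ea008ea008ea008300083000775006040043800438)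 .leaf .leaf
def t86 : k86.all (jb2 57 fl b87) = true := by decide +kernel
noncomputable def k87 : KT := (.br (Nat.shiftLeft (nat_lit 0x800001) (nat_lit 113)) (.br (Nat.shiftLeft (nat_lit 0x1) (nat_lit 136)) (.one (nat_lit 0xa00000400700a010000800e156820511)) (.one (nat_lit 0x100000100400700a010200802e414020611))) (.br (Nat.shiftLeft (nat_lit 0x1000003) (nat_lit 112)) (.one (nat_lit 0x100000200400700a010400802e414020611)) (.one (nat_lit 0x100000300400700a010600802e414020611))))
noncomputable def b88 : BT := .node (nat_lit 0x1d) (nat_lit 0x5422741511b665162a1800743a00196d00074b60011cc05b665162a1258c97c4be000e970002397000cb6000329e0a58d2c64be2a124e497c00196c000653c0020ef00055be16d936cc9d2db26d9a4e4a844be2a224e097c4bf49b13a4a86005d4c001463e00196c801653c005cf180065b400596c001653e009d2d80256b02cb1a4e497cdb249c12f9b64db449c24e0a2c4bf2a136d097c009d2f80255bc00196c00155be00596d000653a00996c00065400064ed00145c62c9c24e097c00196c80065b00d1649ca4d9b64db325f36cca849644b213a527054227492fc00c21a000cb60013a98004ab7c00b317002ac6400b2d9002ca7400ba1e000ca7c596425f12f8a84db428b258d2709394b212f89d096325f92f80232d8002ca740149da000cb60013a5d004cb6401329e006ca74013a9a004aa8c500c1700c1700c1700c1700c1700c1700c1700c1700c1700c1700c1700b5d00aa2009e7009e7009e70081b0064f005ef005ef005ef004240025800258002580025800258002580025800258)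 .leaf .leaf
def t87 : k87.all (jb2 57 fl b88) = true := by decide +kernel
noncomputable def k88 : KT := (.br (Nat.shiftLeft (nat_lit 0x3) (nat_lit 136)) (.br (Nat.shiftLeft (nat_lit 0x1000001) (nat_lit 113)) (.br (Nat.shiftLeft (nat_lit 0x1) (nat_lit 137)) (.one (nat_lit 0x100200300400700a010600802e454820870)) (.one (nat_lit 0x200000100400700a010200804e814020611))) (.br (Nat.shiftLeft (nat_lit 0x2000003) (nat_lit 112)) (.one (nat_lit 0x200000200400700a010400804e814020611)) (.one (nat_lit 0x200000300400700a010600804e814020611)))) (.br (Nat.shiftLeft (nat_lit 0x3000003) (nat_lit 112)) (.br (Nat.shiftLeft (nat_lit 0x1800001) (nat_lit 113)) (.one (nat_lit 0x300000100400700a010200806ec14020611)) (.one (nat_lit 0x300000200400700a010400806ec14020611))) (.br (Nat.shiftLeft (nat_lit 0x1) (nat_lit 138)) (.one (nat_lit 0x300000300400700a010600806ec14020611)) (.one (nat_lit 0x400000100400700a010200808f014020611)))))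
def t88 : k88.all (jb2 57 fl b0) = true := by decide +kernel
noncomputable def k89 : KT := (.br (Nat.shiftLeft (nat_lit 0x4000003) (nat_lit 112)) (.one (nat_lit 0x400000200400700a010400808f014020611)) (.br (Nat.shiftLeft (nat_lit 0x5) (nat_lit 136)) (.one (nat_lit 0x400000300400700a010600808f014020611)) (.one (nat_lit 0x500000100400700a01020080af414020611))))
noncomputable def b90 : BT := .node (nat_lit 0x1) (nat_lit 0xde16da145800329a000ac6810008800028) .leaf .leaf
def t89 : k89.all (jb2 57 fl b90) = true := by decide +kernel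
noncomputable def k90 : KT := (.br (Nat.shiftLeft (nat_lit 0x5000003) (nat_lit 112)) (.one (nat_lit 0x500000200400700a01040080af414020611)) (.one (nat_lit 0x500000300400700a01060080af414020611)))
def t90 : k90.all (jb2 57 fl b0) = true := by decide +kernel
noncomputable def k91 : KT := (.one (nat_lit 0x600000100400700a01020080cf814020611))
noncomputable def b92 : BT := .node (nat_lit 0xb) (nat_lit 0x4b212fca86001cf180056ae0ed993a4a86001d0f00047300ed9a58ca2c00196c00056360cc8b6cca2e93549b13a400ba59004ac6c00ba98000ac6c2002cb0026b0026b0020b0020b0020b001ab001ab000f0000f0000f0000f0) .leaf .leaf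
def t91 : k91.all (jb2 57 fl b92) = true := by decide +kernel
noncomputable def k92 : KT := (.one (nat_lit 0x600000200400700a01040080cf814020611))
noncomputable def b93 : BT := .node (nat_lit 0x17) (nat_lit 0x1bc24bd49b48c4ae4992000cb6c002a9c000cc5c0023580a58c97e4e96f093a4a2e001d2e80055bc001d2d000463a16f0950cae4001d2c80047300ed9945926b23125ea4d8003318000ab680032db0008b70293549b12fc003a98000ab841004d1004d1004160041600416004160035b0035b002fb002fb002fb002fb002fb002fb002fb002fb0024000240001e0001e0001e0001e0001e0001e0) .leaf .leaf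
def t92 : k92.all (jb2 57 fl b93) = true := by decide +kernel
noncomputable def k93 : KT := (.one (nat_lit 0x600000300400700a01060080cf814020611))
noncomputable def b94 : BT := .node (nat_lit 0xb) (nat_lit 0x935274a4d4003318000cb601db26d994580032d8000ad601001b0001b0001b0001b0001b00015000150000f0000f0000f0000f0000f0) .leaf .leaf
def t93 : k93.all (jb2 57 fl b94) = true := by decide +kernel
noncomputable def k94 : KT := (.one (nat_lit 0x700000100400700a01020080efc14020611))
noncomputable def b95 : BT := .node (nat_lit 0x2b) (nat_lit 0x4b213a497e00196c00064c60d434b2150d2c64e949b36c9b66516002e964003317004cc5c00b29b002cb6000ab580e5909d2964000cb680032d8076cc9d29632a1a4dca2c936274a4ddb665442a1b6cdb669636d992f897e00996d002563000a0ee00056ae00d98b80265b2009d4c803472e005d4c00265b000dd4c00245c834b192fc9d4db349b9459b664e949b258c9d45166d993a4a2c005d2e80155be00596c80156ae00596c0006536005d2e0005634009d2d80246b42cb194589d2db328b24ddb664e928b258d2c65436f0a59126c00596d00065b200198b80155b800596c00256b0009d4c00156b000994d00065342c9b24dc97c93627493a0003a99000ab80003a98000ac682db26d99458003a980008d6c1de1274a5900032da000ab68100c7f00c7f00c7f00c1f00c1f00c1f00c1f00b0a00b0a00b0a00b0a00b0a00b0a00b0a00aaa00aaa00aaa00aaa00aaa00aaa00aaa00aaa00aaa00aaa00aaa00aaa00883008830088300883008830088300883008830088300883006b7004eb004300043000430003d00037000370)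 .leaf .leaf
def t94 : k94.all (jb2 57 fl b95) = true := by decide +kernel
noncomputable def k95 : KT := (.one (nat_lit 0x700000200400700a01040080efc14020611))
noncomputable def b96 : BT := .node (nat_lit 0xb) (nat_lit 0x24d897c93649b12fc9d2db227492fdb644e949b80165b600996c00174bc00558d80065b000555200165b400556e09b64db328b24d89d293649b12fca2cde12a2264800b2d8004ac6c0032db004cb6000ba20002ad6400b2d9000ac604963274945926c4bf274a58ca2c963000ea60002b1a000e978002b1b000cc5c0032d80e4d497c4e96d913a4ae400196e00065b0001cef80047ae148c4ae299249aa4d897e99128b258c0033170008d60003a98000ab88003318000ca643006ba006ba006ba006ba0054900549003d8003d8002c20020700207000f0) .leaf .leaf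
def t95 : k95.all (jb2 57 fl b96) = true := by decide +kernel
noncomputable def k96 : KT := (.one (nat_lit 0x700000300400700a01060080efc14020611))
noncomputable def b97 : BT := .node (nat_lit 0x1) (nat_lit 0xde14b19458003299000ac6c10008800028) .leaf .leaf
def t96 : k96.all (jb2 57 fl b97) = true := by decide +kernel
noncomputable def k97 : KT := (.one (nat_lit 0x800000100400700a0102008110014020611))
noncomputable def b98 : BT := .node (nat_lit 0x1d) (nat_lit 0x49b12f926e96327492fc0032da000cb640032d8000c98c2db349ba4d9b664e92a1800753200156d80074b60011cc05b649382b8800833c0011eb032c84e92a1a59097e516000e96c002b57000e884002b1a0a58d27051649ba4dc97c00210d000563400196c800653e16d992fd26edb325fa58d2c6db328b258c97e4e94b1a4dd26e93625f93a80032a0000ab70003263000ac60003a98000ad60003a5e000ab78003a5b000cb60003a5d000ac706db349c145800421a0008d6c10082b0082b00770007700077000770007700077000770006b5006b5006b50065500655006550059a004df004df004df004df004df004df002b8002b8002580025800258002580025800258) .leaf .leaf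
def t97 : k97.all (jb2 57 fl b98) = true := by decide +kernel
noncomputable def k98 : KT := (.br (Nat.shiftLeft (nat_lit 0x8000003) (nat_lit 112)) (.one (nat_lit 0x800000200400700a0104008110014020611)) (.one (nat_lit 0x800000300400700a0106008110014020611)))
noncomputable def b99 : BT := .node (nat_lit 0xb) (nat_lit 0x6d91458a87231260258d322db32a180075300011cc00064c800118c80074b20015cb0723125f95100039e30006e68100267002670026700267002670015100151000f0000f0000f0000f0000f0) .leaf .leaf
def t98 : k98.all (jb2 57 fl b99) = true := by decide +kernel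
noncomputable def k99 : KT := (.br (Nat.shiftLeft (nat_lit 0x4800001) (nat_lit 113)) (.one (nat_lit 0x900000100400700a0102008130414020611)) (.one (nat_lit 0x900000200400700a0104008130414020611)))
noncomputable def b100 : BT := .node (nat_lit 0x17) (nat_lit 0x4b1a58c97e96328b14540032d9004c98c01ba98006ac68293825f12f4003a98000cb60191894592c800198b80046340ed936cd270db249c25900132d9000cb6400ba5d002ac642a864e9274b6d0a2c938000e8740032d9000cb60002add0a4d92705440010770002b970658d2c65166d993a4a2cdb328b1458013a98002ac6c003a980028d6c00b2d9002ad5c300647006470058c0058c0058c0058c0058c0052c0052c0052c004cb004cb0041000356003560035600356003560035600356002f6001e0001e0001e0) .leaf .leaf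
def t99 : k99.all (jb2 57 fl b100) = true := by decide +kernel
noncomputable def k100 : KT := (.br (Nat.shiftLeft (nat_lit 0x800001) (nat_lit 125)) (.br (Nat.shiftLeft (nat_lit 0xa000003) (nat_lit 112)) (.br (Nat.shiftLeft (nat_lit 0x5) (nat_lit 137)) (.one (nat_lit 0x900000300400700a0106008130414020611)) (.br (Nat.shiftLeft (nat_lit 0x5000001) (nat_lit 113)) (.one (nat_lit 0xa00000100400700a0102008150814020611)) (.one (nat_lit 0xa00000200400700a0104008150814020611)))) (.br (Nat.shiftLeft (nat_lit 0x1) (nat_lit 148)) (.one (nat_lit 0xa00000300400700a0106008150814020611)) (.br (Nat.shiftLeft (nat_lit 0x1000001003) (nat_lit 112)) (.one (nat_lit 0x100000100200400700a010402840e034420711)) (.one (nat_lit 0x100000100300400700a010602840e034420711))))) (.br (Nat.shiftLeft (nat_lit 0x1000001) (nat_lit 125)) (.br (Nat.shiftLeft (nat_lit 0x1) (nat_lit 149)) (.one (nat_lit 0x100000200300400700a010602840e054820711)) (.br (Nat.shiftLeft (nat_lit 0x2000001003) (nat_lit 112)) (.one (nat_lit 0x200000100200400700a010404880e034420711)) (.one (nat_lit 0x200000100300400700a010604880e034420711))))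 (.br (Nat.shiftLeft (nat_lit 0x3000001003) (nat_lit 112)) (.br (Nat.shiftLeft (nat_lit 0x3) (nat_lit 148)) (.one (nat_lit 0x200000200300400700a010604880e054820711)) (.one (nat_lit 0x300000100200400700a0104068c0e034420711))) (.br (Nat.shiftLeft (nat_lit 0x1800001) (nat_lit 125)) (.one (nat_lit 0x300000100300400700a0106068c0e034420711)) (.one (nat_lit 0x300000200300400700a0106068c0e054820711))))))
noncomputable def b101 : BT := .node (nat_lit 0xb) (nat_lit 0x9d293849c36c89d25434b192f897e001d4c0007530001d0f000473200196c00064c81cb192fc97cdb225f12fc0032da000c98c003a980008b942002c0002c0002c0002c0002c0002c0001ab001ab001ab001ab000f0000f0) .leaf .leaf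
def t100 : k100.all (jb2 57 fl b101) = true := by decide +kernel
noncomputable def k101 : KT := (.br (Nat.shiftLeft (nat_lit 0x2000001) (nat_lit 125)) (.br (Nat.shiftLeft (nat_lit 0x4000001003) (nat_lit 112)) (.one (nat_lit 0x400000100200400700a010408900e034420711)) (.one (nat_lit 0x400000100300400700a010608900e034420711))) (.br (Nat.shiftLeft (nat_lit 0x5) (nat_lit 148)) (.one (nat_lit 0x400000200300400700a010608900e054820711)) (.one (nat_lit 0x500000100200400700a01040a940e034420711))))
noncomputable def b102 : BT := .node (nat_lit 0x13) (nat_lit 0xde16d993a4003a590008c781918b6cc97ede149a13a5b644be25f80255b2009552000653200556f0017530001172072312d0b6cdbc25172d0800582800156c80073ba0011eb852c64bd49a00065b800194c8323128b1510003a5a0006e6819912a224d0003356000ca641004e4004e4004e4004e4004e4004e400484004840036d0036d0036d0036d0036d0036d002b1002510025100251001f000190) .leaf .leaf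
def t101 : k101.all (jb2 57 fl b102) = true := by decide +kernel
noncomputable def k102 : KT := (.br (Nat.shiftLeft (nat_lit 0x2800001) (nat_lit 125)) (.one (nat_lit 0x500000100300400700a01060a940e034420711)) (.one (nat_lit 0x500000200300400700a01060a940e054820711)))
noncomputable def b103 : BT := .node (nat_lit 0x17) (nat_lit 0x1b6451749a000663400156c83bc24e92b9a644974992000e778002399000cb640032d80a4d09d25166d936cca2c001d4c00056b200196c000563614b1a4d497edb32b9a4d0003a59000ab880033d4000ab642db249a145c003299000ad681004d100471004710047100471004710047100471003b6003b6003b6003b6002fb002fb002fb002400024000240002400024000240001e0001e0001e0) .leaf .leaf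
def t102 : k102.all (jb2 57 fl b103) = true := by decide +kernel
noncomputable def k103 : KT := (.br (Nat.shiftLeft (nat_lit 0x6000001003) (nat_lit 112)) (.one (nat_lit 0x600000100200400700a01040c980e034420711)) (.one (nat_lit 0x600000100300400700a01060c980e034420711)))
noncomputable def b104 : BT := .node (nat_lit 0x2f) (nat_lit 0x12c64bf27500074ba00156f0332299227480065b000192f83bc2db3274a4d526c4bf91892fca2e001d2c800463c00196c8006542001d1000036ba1ed913a526d2316d9a58c0032db000ab6c003299000ac602935274a4d40032dc000cb601006b1006510065100651005f1005f1005f1005f1005f1005f1005f1005f1005f1005f1005f1005f1005f1005f1005f1004db004db004db004db004db004db004db004db004db004db004db004db004db004db004db004db004200042000420004200042000420004200042000420004200042000420003c0) .leaf .leaf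
def t103 : k103.all (jb2 57 fl b104) = true := by decide +kernel
noncomputable def k104 : KT := (.br (Nat.shiftLeft (nat_lit 0x7) (nat_lit 148)) (.one (nat_lit 0x600000200300400700a01060c980e054820711)) (.br (Nat.shiftLeft (nat_lit 0x7000001003) (nat_lit 112)) (.one (nat_lit 0x700000100200400700a01040e9c0e034420711)) (.one (nat_lit 0x700000100300400700a01060e9c0e034420711))))
noncomputable def b105 : BT := .node (nat_lit 0x13) (nat_lit 0x24d926c4be49a93a49d2db228b95c80032d9000ca800032dc000cb60003a1c0008f5c399125f93a8003a5d000aa80193525f12fc003a98000ab8819634b1a4d8003a98000ca6c1003c6003c6003c6003c6002b00025000250002500025000250002500025000250001f0001f0001f0001f0001900019000190) .leaf .leaf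
def t104 : k104.all (jb2 57 fl b105) = true := by decide +kernel
noncomputable def k105 : KT := (.br (Nat.shiftLeft (nat_lit 0x8000001003) (nat_lit 112)) (.br (Nat.shiftLeft (nat_lit 0x1) (nat_lit 151)) (.one (nat_lit 0x700000200300400700a01060e9c0e054820711)) (.one (nat_lit 0x800000100200400700a010410a00e034420711))) (.br (Nat.shiftLeft (nat_lit 0x4000001) (nat_lit 125)) (.one (nat_lit 0x800000100300400700a010610a00e034420711)) (.one (nat_lit 0x800000200300400700a010610a00e054820711))))
noncomputable def b106 : BT := .node (nat_lit 0x1) (nat_lit 0x6d913a4a86936274a4d80032d8002ad6000b2db004cb602000e300028) .leaf .leaf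
def t105 : k105.all (jb2 57 fl b106) = true := by decide +kernel
noncomputable def k106 : KT := (.br (Nat.shiftLeft (nat_lit 0x5) (nat_lit 149)) (.br (Nat.shiftLeft (nat_lit 0x9000001003) (nat_lit 112)) (.one (nat_lit 0x900000100200400700a010412a40e034420711)) (.br (Nat.shiftLeft (nat_lit 0x4800001) (nat_lit 125)) (.one (nat_lit 0x900000100300400700a010612a40e034420711)) (.one (nat_lit 0x900000200300400700a010612a40e054820711)))) (.br (Nat.shiftLeft (nat_lit 0xa000001003) (nat_lit 112)) (.one (nat_lit 0xa00000100200400700a010414a80e034420711)) (.br (Nat.shiftLeft (nat_lit 0x5000001) (nat_lit 125)) (.one (nat_lit 0xa00000100300400700a010614a80e034420711)) (.one (nat_lit 0xa00000200300400700a010614a80e054820711)))))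
def t106 : k106.all (jb2 57 fl b0) = true := by decide +kernel
noncomputable def s5 : KT := (.br (nat_lit 0x700000100400700a01020080efc14020611) (.br (nat_lit 0x400000100400700a010200808f014020611) (.br (nat_lit 0x800000400700a010000800e116020511) (.br (nat_lit 0x600000400700a010000800e0d5820511) k83 (.br (nat_lit 0x700000400700a010000800e0f5c20511) k84 k85)) (.br (nat_lit 0x900000400700a010000800e136420511) k86 (.br (nat_lit 0x100000300400700a010600802e414020611) k87 k88))) (.br (nat_lit 0x600000100400700a01020080cf814020611) (.br (nat_lit 0x500000100400700a01020080af414020611) k89 (.br (nat_lit 0x500000300400700a01060080af414020611) k90 k91)) (.br (nat_lit 0x600000200400700a01040080cf814020611) k92 (.br (nat_lit 0x600000300400700a01060080cf814020611) k93 k94)))) (.br (nat_lit 0x300000200300400700a0106068c0e054820711) (.br (nat_lit 0x800000100400700a0102008110014020611) (.br (nat_lit 0x700000200400700a01040080efc14020611) k95 (.br (nat_lit 0x700000300400700a01060080efc14020611) k96 k97)) (.br (nat_lit 0x800000300400700a0106008110014020611)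 k98 (.br (nat_lit 0x900000200400700a0104008130414020611) k99 k100))) (.br (nat_lit 0x600000100300400700a01060c980e034420711) (.br (nat_lit 0x500000100200400700a01040a940e034420711) k101 (.br (nat_lit 0x500000200300400700a01060a940e054820711) k102 k103)) (.br (nat_lit 0x700000100300400700a01060e9c0e034420711) k104 (.br (nat_lit 0x800000200300400700a010610a00e054820711) k105 k106)))))
noncomputable def u5 : KT := (.one (nat_lit 0x400700a010000800e014020540))
def w5 : u5.all (wj 57 s5) = true := by decide +kernel
def o5 : OkW 57 (jb2 57 fl) u5 := .lift s5 _ (.br _ _ _ (.br _ _ _ (.br _ _ _ (.br _ _ _ (.leaf b84 k83 t83) (.br _ _ _ (.leaf b85 k84 t84) (.leaf b86 k85 t85))) (.br _ _ _ (.leaf b87 k86 t86) (.br _ _ _ (.leaf b88 k87 t87) (.leaf b0 k88 t88)))) (.br _ _ _ (.br _ _ _ (.leaf b90 k89 t89) (.br _ _ _ (.leaf b0 k90 t90) (.leaf b92 k91 t91))) (.br _ _ _ (.leaf b93 k92 t92) (.br _ _ _ (.leaf b94 k93 t93) (.leaf b95 k94 t94))))) (.br _ _ _ (.br _ _ _ (.br _ _ _ (.leaf b96 k95 t95) (.br _ _ _ (.leaf b97 k96 t96) (.leaf b98 k97 t97))) (.br _ _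 _ (.leaf b99 k98 t98) (.br _ _ _ (.leaf b100 k99 t99) (.leaf b101 k100 t100)))) (.br _ _ _ (.br _ _ _ (.leaf b102 k101 t101) (.br _ _ _ (.leaf b103 k102 t102) (.leaf b104 k103 t103))) (.br _ _ _ (.leaf b105 k104 t104) (.br _ _ _ (.leaf b106 k105 t105) (.leaf b0 k106 t106)))))) w5
noncomputable def k107 : KT := (.br (Nat.shiftLeft (nat_lit 0x1003) (nat_lit 112)) (.br (Nat.shiftLeft (nat_lit 0x3) (nat_lit 112)) (.br (Nat.shiftLeft (nat_lit 0x1) (nat_lit 112)) (.one (nat_lit 0x400700a011000800e014023500)) (.br (Nat.shiftLeft (nat_lit 0x1) (nat_lit 113)) (.one (nat_lit 0x100400700a011200800e014023600)) (.one (nat_lit 0x200400700a011400800e014023600)))) (.br (Nat.shiftLeft (nat_lit 0x1) (nat_lit 124)) (.one (nat_lit 0x300400700a011600800e014023600)) (.br (Nat.shiftLeft (nat_lit 0x801) (nat_lit 113)) (.one (nat_lit 0x100000400700a011000800e034422511)) (.one (nat_lit 0x100200400700a011400800e034423700))))) (.br (Nat.shiftLeft (nat_lit 0x3) (nat_lit 124)) (.br (Nat.shiftLeft (nat_lit 0x1) (nat_lit 125)) (.one (nat_lit 0x100300400700a011600800e034423700))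 (.br (Nat.shiftLeft (nat_lit 0x1001) (nat_lit 113)) (.one (nat_lit 0x200000400700a011000800e054822511)) (.one (nat_lit 0x200300400700a011600800e054823700)))) (.br (Nat.shiftLeft (nat_lit 0x5) (nat_lit 124)) (.br (Nat.shiftLeft (nat_lit 0x1) (nat_lit 126)) (.one (nat_lit 0x300000400700a011000800e074c22511)) (.one (nat_lit 0x400000400700a011000800e095022511))) (.br (Nat.shiftLeft (nat_lit 0x3) (nat_lit 125)) (.one (nat_lit 0x500000400700a011000800e0b5422511)) (.one (nat_lit 0x600000400700a011000800e0d5822511))))))
def t107 : k107.all (jb2 57 fl b0) = true := by decide +kernel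
noncomputable def k108 : KT := (.br (Nat.shiftLeft (nat_lit 0x1) (nat_lit 127)) (.one (nat_lit 0x700000400700a011000800e0f5c22511)) (.one (nat_lit 0x800000400700a011000800e116022511)))
noncomputable def b109 : BT := .node (nat_lit 0xb) (nat_lit 0xdb328b24dd2c64e94b1b6cdb66543000cc5c002adc000cb680032d8000ea600023970f785b68543000ca68002b57076cd26e9634b1a4dd26e00dd4c0035630009d2d80065b016d9b6d09d2db349b150c003a990008c740041db0008e602003dc002c6002660026600266001ab000f0000f0000f0000f0000f0000f0) .leaf .leaf
def t108 : k108.all (jb2 57 fl b109) = true := by decide +kernel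
noncomputable def k109 : KT := (.br (Nat.shiftLeft (nat_lit 0x1) (nat_lit 136)) (.br (Nat.shiftLeft (nat_lit 0x5) (nat_lit 125)) (.one (nat_lit 0x900000400700a011000800e136422511)) (.one (nat_lit 0xa00000400700a011000800e156822511))) (.br (Nat.shiftLeft (nat_lit 0x800001) (nat_lit 113)) (.one (nat_lit 0x100000100400700a011200802e414022611)) (.br (Nat.shiftLeft (nat_lit 0x1000003) (nat_lit 112)) (.one (nat_lit 0x100000200400700a011400802e414022611)) (.one (nat_lit 0x100000300400700a011600802e414022611)))))
noncomputable def b110 : BT := .node (nat_lit 0x1d) (nat_lit 0x1b649384b21509b68963000ea600032d90012768002b180b6c9b684bf6d9a4e12c8001d4d00045c8001d4c000563214b193a49d200196c000653e0d1527493a5b6693928b259097c938002ea600032d9005086c01235b002cb6000329d0f6cca2c9396d9b6cd27000196c00155bc00996c001653a14b112fd272db36d993000032a0000ca78003a980008b942a2a9642a1258c97e4c049c12f8980db26da24e000421a000ad5c003a99000aa94003a98000ab84003a9a000ab744db325f13a4003a980008c781db326015080039e50008e5c1008e9008e90082e0077300773007730077300713005fe005fe005fe00543004880048800488004880031800318003180031800318003180031800318003180031800318002b80025800258)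 .leaf .leaf
def t109 : k109.all (jb2 57 fl b110) = true := by decide +kernel
noncomputable def k110 : KT := (.br (Nat.shiftLeft (nat_lit 0x1800001) (nat_lit 113)) (.br (Nat.shiftLeft (nat_lit 0x1000001) (nat_lit 113)) (.br (Nat.shiftLeft (nat_lit 0x1) (nat_lit 137)) (.one (nat_lit 0x100200300400700a011600802e454822870)) (.one (nat_lit 0x200000100400700a011200804e814022611))) (.br (Nat.shiftLeft (nat_lit 0x2000003) (nat_lit 112)) (.one (nat_lit 0x200000200400700a011400804e814022611)) (.br (Nat.shiftLeft (nat_lit 0x3) (nat_lit 136)) (.one (nat_lit 0x200000300400700a011600804e814022611)) (.one (nat_lit 0x300000100400700a011200806ec14022611))))) (.br (Nat.shiftLeft (nat_lit 0x1) (nat_lit 138)) (.br (Nat.shiftLeft (nat_lit 0x3000003) (nat_lit 112)) (.one (nat_lit 0x300000200400700a011400806ec14022611)) (.one (nat_lit 0x300000300400700a011600806ec14022611))) (.br (Nat.shiftLeft (nat_lit 0x2000001) (nat_lit 113)) (.one (nat_lit 0x400000100400700a011200808f014022611)) (.br (Nat.shiftLeft (nat_lit 0x4000003) (nat_lit 112)) (.one (nat_lit 0x400000200400700a011400808f014022611))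 (.one (nat_lit 0x400000300400700a011600808f014022611))))))
def t110 : k110.all (jb2 57 fl b0) = true := by decide +kernel
noncomputable def k111 : KT := (.br (Nat.shiftLeft (nat_lit 0x2800001) (nat_lit 113)) (.one (nat_lit 0x500000100400700a01120080af414022611)) (.br (Nat.shiftLeft (nat_lit 0x5000003) (nat_lit 112)) (.one (nat_lit 0x500000200400700a01140080af414022611)) (.one (nat_lit 0x500000300400700a01160080af414022611))))
def t111 : k111.all (jb2 57 fl b0) = true := by decide +kernel
noncomputable def k112 : KT := (.br (Nat.shiftLeft (nat_lit 0x3000001) (nat_lit 113)) (.one (nat_lit 0x600000100400700a01120080cf814022611)) (.one (nat_lit 0x600000200400700a01140080cf814022611)))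
noncomputable def b113 : BT := .node (nat_lit 0x1) (nat_lit 0xdb249a94580032d8000ad6010008800028) .leaf .leaf
def t112 : k112.all (jb2 57 fl b113) = true := by decide +kernel
noncomputable def k113 : KT := (.br (Nat.shiftLeft (nat_lit 0x7) (nat_lit 136)) (.one (nat_lit 0x600000300400700a01160080cf814022611)) (.one (nat_lit 0x700000100400700a01120080efc14022611)))
noncomputable def b114 : BT := .node (nat_lit 0x1) (nat_lit 0x126c4e949bb6cd26c4c04b1a4d92c6de16da13a400b317002cb6400329a002ab8800ba98002cb6001329a002ab7440019900028) .leaf .leaf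
def t113 : k113.all (jb2 57 fl b114) = true := by decide +kernel
noncomputable def k114 : KT := (.br (Nat.shiftLeft (nat_lit 0x7000003) (nat_lit 112)) (.one (nat_lit 0x700000200400700a01140080efc14022611)) (.one (nat_lit 0x700000300400700a01160080efc14022611)))
noncomputable def b115 : BT := .node (nat_lit 0x1) (nat_lit 0xdb228b258c003318000ac6010008800028) .leaf .leaf
def t114 : k114.all (jb2 57 fl b115) = true := by decide +kernel
noncomputable def k115 : KT := (.br (Nat.shiftLeft (nat_lit 0x4000001) (nat_lit 113)) (.one (nat_lit 0x800000100400700a0112008110014022611)) (.br (Nat.shiftLeft (nat_lit 0x8000003) (nat_lit 112)) (.one (nat_lit 0x800000200400700a0114008110014022611)) (.one (nat_lit 0x800000300400700a0116008110014022611))))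
noncomputable def b116 : BT := .node (nat_lit 0x1) (nat_lit 0x96328b150c003a98000ad5c10008800028) .leaf .leaf
def t115 : k115.all (jb2 57 fl b116) = true := by decide +kernel
noncomputable def k116 : KT := (.br (Nat.shiftLeft (nat_lit 0x9000003) (nat_lit 112)) (.br (Nat.shiftLeft (nat_lit 0x4800001) (nat_lit 113)) (.one (nat_lit 0x900000100400700a0112008130414022611)) (.one (nat_lit 0x900000200400700a0114008130414022611))) (.br (Nat.shiftLeft (nat_lit 0x5) (nat_lit 137)) (.one (nat_lit 0x900000300400700a0116008130414022611)) (.one (nat_lit 0xa00000100400700a0112008150814022611))))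
noncomputable def b117 : BT := .node (nat_lit 0x1) (nat_lit 0xdb32749458003a5a0008d6c10008800028) .leaf .leaf
def t116 : k116.all (jb2 57 fl b117) = true := by decide +kernel
noncomputable def k117 : KT := (.br (Nat.shiftLeft (nat_lit 0x1000001) (nat_lit 125)) (.br (Nat.shiftLeft (nat_lit 0x1000001003) (nat_lit 112)) (.br (Nat.shiftLeft (nat_lit 0xa000003) (nat_lit 112)) (.one (nat_lit 0xa00000200400700a0114008150814022611)) (.br (Nat.shiftLeft (nat_lit 0x1) (nat_lit 148)) (.one (nat_lit 0xa00000300400700a0116008150814022611)) (.one (nat_lit 0x100000100200400700a011402840e034422711)))) (.br (Nat.shiftLeft (nat_lit 0x1) (nat_lit 149)) (.br (Nat.shiftLeft (nat_lit 0x800001) (nat_lit 125)) (.one (nat_lit 0x100000100300400700a011602840e034422711)) (.one (nat_lit 0x100000200300400700a011602840e054822711))) (.br (Nat.shiftLeft (nat_lit 0x2000001003) (nat_lit 112)) (.one (nat_lit 0x200000100200400700a011404880e034422711)) (.one (nat_lit 0x200000100300400700a011604880e034422711))))) (.br (Nat.shiftLeft (nat_lit 0x1) (nat_lit 150)) (.br (Nat.shiftLeft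 (nat_lit 0x3000001003) (nat_lit 112)) (.br (Nat.shiftLeft (nat_lit 0x3) (nat_lit 148)) (.one (nat_lit 0x200000200300400700a011604880e054822711)) (.one (nat_lit 0x300000100200400700a0114068c0e034422711))) (.br (Nat.shiftLeft (nat_lit 0x1800001) (nat_lit 125)) (.one (nat_lit 0x300000100300400700a0116068c0e034422711)) (.one (nat_lit 0x300000200300400700a0116068c0e054822711)))) (.br (Nat.shiftLeft (nat_lit 0x2000001) (nat_lit 125)) (.br (Nat.shiftLeft (nat_lit 0x4000001003) (nat_lit 112)) (.one (nat_lit 0x400000100200400700a011408900e034422711)) (.one (nat_lit 0x400000100300400700a011608900e034422711))) (.br (Nat.shiftLeft (nat_lit 0x5) (nat_lit 148)) (.one (nat_lit 0x400000200300400700a011608900e054822711)) (.one (nat_lit 0x500000100200400700a01140a940e034422711))))))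
def t117 : k117.all (jb2 57 fl b0) = true := by decide +kernel
noncomputable def k118 : KT := (.br (Nat.shiftLeft (nat_lit 0x3) (nat_lit 149)) (.br (Nat.shiftLeft (nat_lit 0x2800001) (nat_lit 125)) (.one (nat_lit 0x500000100300400700a01160a940e034422711)) (.one (nat_lit 0x500000200300400700a01160a940e054822711))) (.br (Nat.shiftLeft (nat_lit 0x6000001003) (nat_lit 112)) (.one (nat_lit 0x600000100200400700a01140c980e034422711)) (.one (nat_lit 0x600000100300400700a01160c980e034422711))))
def t118 : k118.all (jb2 57 fl b0) = true := by decide +kernel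
noncomputable def k119 : KT := (.br (Nat.shiftLeft (nat_lit 0x7000001003) (nat_lit 112)) (.br (Nat.shiftLeft (nat_lit 0x7) (nat_lit 148)) (.one (nat_lit 0x600000200300400700a01160c980e054822711)) (.one (nat_lit 0x700000100200400700a01140e9c0e034422711))) (.br (Nat.shiftLeft (nat_lit 0x3800001) (nat_lit 125)) (.one (nat_lit 0x700000100300400700a01160e9c0e034422711)) (.br (Nat.shiftLeft (nat_lit 0x1) (nat_lit 151)) (.one (nat_lit 0x700000200300400700a01160e9c0e054822711)) (.one (nat_lit 0x800000100200400700a011410a00e034422711)))))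
def t119 : k119.all (jb2 57 fl b0) = true := by decide +kernel
noncomputable def k120 : KT := (.br (Nat.shiftLeft (nat_lit 0x4800001) (nat_lit 125)) (.br (Nat.shiftLeft (nat_lit 0x9) (nat_lit 148)) (.br (Nat.shiftLeft (nat_lit 0x4000001) (nat_lit 125)) (.one (nat_lit 0x800000100300400700a011610a00e034422711)) (.one (nat_lit 0x800000200300400700a011610a00e054822711))) (.br (Nat.shiftLeft (nat_lit 0x9000001003) (nat_lit 112)) (.one (nat_lit 0x900000100200400700a011412a40e034422711)) (.one (nat_lit 0x900000100300400700a011612a40e034422711)))) (.br (Nat.shiftLeft (nat_lit 0xa000001003) (nat_lit 112)) (.br (Nat.shiftLeft (nat_lit 0x5) (nat_lit 149)) (.one (nat_lit 0x900000200300400700a011612a40e054822711)) (.one (nat_lit 0xa00000100200400700a011414a80e034422711))) (.br (Nat.shiftLeft (nat_lit 0x5000001) (nat_lit 125)) (.one (nat_lit 0xa00000100300400700a011614a80e034422711)) (.one (nat_lit 0xa00000200300400700a011614a80e054822711)))))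
def t120 : k120.all (jb2 57 fl b0) = true := by decide +kernel
noncomputable def s6 : KT := (.br (nat_lit 0x700000100400700a01120080efc14022611) (.br (nat_lit 0x100000300400700a011600802e414022611) (.br (nat_lit 0x600000400700a011000800e0d5822511) k107 (.br (nat_lit 0x800000400700a011000800e116022511) k108 k109)) (.br (nat_lit 0x500000300400700a01160080af414022611) (.br (nat_lit 0x400000300400700a011600808f014022611) k110 k111) (.br (nat_lit 0x600000200400700a01140080cf814022611) k112 k113))) (.br (nat_lit 0xa00000100400700a0112008150814022611) (.br (nat_lit 0x700000300400700a01160080efc14022611) k114 (.br (nat_lit 0x800000300400700a0116008110014022611) k115 k116)) (.br (nat_lit 0x600000100300400700a01160c980e034422711) (.br (nat_lit 0x500000100200400700a01140a940e034422711) k117 k118) (.br (nat_lit 0x800000100200400700a011410a00e034422711) k119 k120))))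
noncomputable def u6 : KT := (.one (nat_lit 0x400700a011000800e014022540))
def w6 : u6.all (wj 57 s6) = true := by decide +kernel
def o6 : OkW 57 (jb2 57 fl) u6 := .lift s6 _ (.br _ _ _ (.br _ _ _ (.br _ _ _ (.leaf b0 k107 t107) (.br _ _ _ (.leaf b109 k108 t108) (.leaf b110 k109 t109))) (.br _ _ _ (.br _ _ _ (.leaf b0 k110 t110) (.leaf b0 k111 t111)) (.br _ _ _ (.leaf b113 k112 t112) (.leaf b114 k113 t113)))) (.br _ _ _ (.br _ _ _ (.leaf b115 k114 t114) (.br _ _ _ (.leaf b116 k115 t115) (.leaf b117 k116 t116))) (.br _ _ _ (.br _ _ _ (.leaf b0 k117 t117) (.leaf b0 k118 t118)) (.br _ _ _ (.leaf b0 k119 t119) (.leaf b0 k120 t120))))) w6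
noncomputable def k121 : KT := (.br (Nat.shiftLeft (nat_lit 0x1) (nat_lit 113)) (.br (Nat.shiftLeft (nat_lit 0x400700b00d) (nat_lit 64)) (.br (Nat.shiftLeft (nat_lit 0x400700a013) (nat_lit 64)) (.one (nat_lit 0x400700a012000800e014025500)) (.br (Nat.shiftLeft (nat_lit 0x400700b) (nat_lit 76)) (.one (nat_lit 0x400700a013000800e014027500)) (.one (nat_lit 0x400700b00c000800e016019500)))) (.br (Nat.shiftLeft (nat_lit 0x1) (nat_lit 112)) (.br (Nat.shiftLeft (nat_lit 0x2003805807) (nat_lit 65)) (.one (nat_lit 0x400700b00d000800e01601b500)) (.one (nat_lit 0x400700b00e000800e01601d500))) (.br (Nat.shiftLeft (nat_lit 0x100400700a013) (nat_lit 64)) (.one (nat_lit 0x100400700a012200800e014025600)) (.one (nat_lit 0x100400700a013200800e014027600))))) (.br (Nat.shiftLeft (nat_lit 0x1) (nat_lit 124)) (.br (Nat.shiftLeft (nat_lit 0x3) (nat_lit 112)) (.br (Nat.shiftLeft (nat_lit 0x200400700a013) (nat_lit 64)) (.one (nat_lit 0x200400700a012400800e014025600)) (.one (nat_lit 0x200400700a013400800e014027600))) (.br (Nat.shiftLeft (nat_lit 0x300400700a013) (nat_lit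 64)) (.one (nat_lit 0x300400700a012600800e014025600)) (.one (nat_lit 0x300400700a013600800e014027600)))) (.br (Nat.shiftLeft (nat_lit 0x801) (nat_lit 113)) (.br (Nat.shiftLeft (nat_lit 0x100000400700a013) (nat_lit 64)) (.one (nat_lit 0x100000400700a012000800e034424511)) (.one (nat_lit 0x100000400700a013000800e034426511))) (.br (Nat.shiftLeft (nat_lit 0x100200400700a013) (nat_lit 64)) (.one (nat_lit 0x100200400700a012400800e034425700)) (.one (nat_lit 0x100200400700a013400800e034426760))))))
def t121 : k121.all (jb2 57 fl b0) = true := by decide +kernel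
noncomputable def k122 : KT := (.one (nat_lit 0x100300400700a012600800e034424760))
def t122 : k122.all (jb2 57 fl b0) = true := by decide +kernel
noncomputable def k123 : KT := (.br (Nat.shiftLeft (nat_lit 0x1) (nat_lit 125)) (.one (nat_lit 0x100300400700a013600800e034426760)) (.br (Nat.shiftLeft (nat_lit 0x200000400700a013) (nat_lit 64)) (.one (nat_lit 0x200000400700a012000800e054824511)) (.one (nat_lit 0x200000400700a013000800e054826511))))
def t123 : k123.all (jb2 57 fl b0) = true := by decide +kernel
noncomputable def k124 : KT := (.one (nat_lit 0x200300400700a012600800e054824760))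
def t124 : k124.all (jb2 57 fl b0) = true := by decide +kernel
noncomputable def k125 : KT := (.br (Nat.shiftLeft (nat_lit 0x1) (nat_lit 126)) (.br (Nat.shiftLeft (nat_lit 0x3) (nat_lit 124)) (.one (nat_lit 0x200300400700a013600800e054826760)) (.br (Nat.shiftLeft (nat_lit 0x300000400700a013) (nat_lit 64)) (.one (nat_lit 0x300000400700a012000800e074c24511)) (.one (nat_lit 0x300000400700a013000800e074c26511)))) (.br (Nat.shiftLeft (nat_lit 0x400000400700a013) (nat_lit 64)) (.one (nat_lit 0x400000400700a012000800e095024511)) (.br (Nat.shiftLeft (nat_lit 0x5) (nat_lit 124)) (.one (nat_lit 0x400000400700a013000800e095026511)) (.one (nat_lit 0x500000400700a012000800e0b5424511)))))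
def t125 : k125.all (jb2 57 fl b0) = true := by decide +kernel
noncomputable def k126 : KT := (.br (Nat.shiftLeft (nat_lit 0x3) (nat_lit 125)) (.one (nat_lit 0x500000400700a013000800e0b5426511)) (.br (Nat.shiftLeft (nat_lit 0x600000400700a013) (nat_lit 64)) (.one (nat_lit 0x600000400700a012000800e0d5824511)) (.one (nat_lit 0x600000400700a013000800e0d5826511))))
def t126 : k126.all (jb2 57 fl b0) = true := by decide +kernel
noncomputable def k127 : KT := (.br (Nat.shiftLeft (nat_lit 0x700000400700a013) (nat_lit 64)) (.one (nat_lit 0x700000400700a012000800e0f5c24511)) (.br (Nat.shiftLeft (nat_lit 0x1) (nat_lit 127)) (.one (nat_lit 0x700000400700a013000800e0f5c26511)) (.one (nat_lit 0x800000400700a012000800e116024511))))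
noncomputable def b128 : BT := .node (nat_lit 0x1) (nat_lit 0xdb325f9304003a980008b9810008800028) .leaf .leaf
def t127 : k127.all (jb2 57 fl b128) = true := by decide +kernel
noncomputable def k128 : KT := (.br (Nat.shiftLeft (nat_lit 0x100000200400700a013) (nat_lit 64)) (.br (Nat.shiftLeft (nat_lit 0xa00000400700a013) (nat_lit 64)) (.br (Nat.shiftLeft (nat_lit 0x900000400700a013) (nat_lit 64)) (.br (Nat.shiftLeft (nat_lit 0x9) (nat_lit 124)) (.one (nat_lit 0x800000400700a013000800e116026511)) (.one (nat_lit 0x900000400700a012000800e136424511))) (.br (Nat.shiftLeft (nat_lit 0x5) (nat_lit 125)) (.one (nat_lit 0x900000400700a013000800e136426511)) (.one (nat_lit 0xa00000400700a012000800e156824511)))) (.br (Nat.shiftLeft (nat_lit 0x100000100400700a013) (nat_lit 64)) (.br (Nat.shiftLeft (nat_lit 0x1) (nat_lit 136)) (.one (nat_lit 0xa00000400700a013000800e156826511)) (.one (nat_lit 0x100000100400700a012200802e414024611))) (.br (Nat.shiftLeft (nat_lit 0x800001) (nat_lit 113)) (.one (nat_lit 0x100000100400700a013200802e414026611)) (.one (nat_lit 0x100000200400700a012400802e414024611)))))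 (.br (Nat.shiftLeft (nat_lit 0x200000100400700a013) (nat_lit 64)) (.br (Nat.shiftLeft (nat_lit 0x100000300400700a013) (nat_lit 64)) (.br (Nat.shiftLeft (nat_lit 0x1000003) (nat_lit 112)) (.one (nat_lit 0x100000200400700a013400802e414026611)) (.one (nat_lit 0x100000300400700a012600802e414024611))) (.br (Nat.shiftLeft (nat_lit 0x1) (nat_lit 137)) (.one (nat_lit 0x100000300400700a013600802e414026611)) (.one (nat_lit 0x200000100400700a012200804e814024611)))) (.br (Nat.shiftLeft (nat_lit 0x200000200400700a013) (nat_lit 64)) (.br (Nat.shiftLeft (nat_lit 0x1000001) (nat_lit 113)) (.one (nat_lit 0x200000100400700a013200804e814026611)) (.one (nat_lit 0x200000200400700a012400804e814024611))) (.br (Nat.shiftLeft (nat_lit 0x2000003) (nat_lit 112)) (.one (nat_lit 0x200000200400700a013400804e814026611)) (.br (Nat.shiftLeft (nat_lit 0x200000300400700a013) (nat_lit 64)) (.one (nat_lit 0x200000300400700a012600804e814024611)) (.one (nat_lit 0x200000300400700a013600804e814026611)))))))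
noncomputable def b129 : BT := .node (nat_lit 0xb) (nat_lit 0x93749c9458003a9b000cb6019352749458003a5b000cc5c1001b00015000150001500015000150001500015000150000f0000f0000f0) .leaf .leaf
def t128 : k128.all (jb2 57 fl b129) = true := by decide +kernel
noncomputable def k129 : KT := (.br (Nat.shiftLeft (nat_lit 0x1) (nat_lit 138)) (.br (Nat.shiftLeft (nat_lit 0x300000200400700a013) (nat_lit 64)) (.br (Nat.shiftLeft (nat_lit 0x300000100400700a013) (nat_lit 64)) (.one (nat_lit 0x300000100400700a012200806ec14024611)) (.br (Nat.shiftLeft (nat_lit 0x1800001) (nat_lit 113)) (.one (nat_lit 0x300000100400700a013200806ec14026611)) (.one (nat_lit 0x300000200400700a012400806ec14024611)))) (.br (Nat.shiftLeft (nat_lit 0x3000003) (nat_lit 112)) (.one (nat_lit 0x300000200400700a013400806ec14026611)) (.br (Nat.shiftLeft (nat_lit 0x300000300400700a013) (nat_lit 64)) (.one (nat_lit 0x300000300400700a012600806ec14024611)) (.one (nat_lit 0x300000300400700a013600806ec14026611))))) (.br (Nat.shiftLeft (nat_lit 0x400000200400700a013) (nat_lit 64)) (.br (Nat.shiftLeft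 (nat_lit 0x400000100400700a013) (nat_lit 64)) (.one (nat_lit 0x400000100400700a012200808f014024611)) (.br (Nat.shiftLeft (nat_lit 0x2000001) (nat_lit 113)) (.one (nat_lit 0x400000100400700a013200808f014026611)) (.one (nat_lit 0x400000200400700a012400808f014024611)))) (.br (Nat.shiftLeft (nat_lit 0x400000300400700a013) (nat_lit 64)) (.br (Nat.shiftLeft (nat_lit 0x4000003) (nat_lit 112)) (.one (nat_lit 0x400000200400700a013400808f014026611)) (.one (nat_lit 0x400000300400700a012600808f014024611))) (.br (Nat.shiftLeft (nat_lit 0x5) (nat_lit 136)) (.one (nat_lit 0x400000300400700a013600808f014026611)) (.one (nat_lit 0x500000100400700a01220080af414024611))))))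
def t129 : k129.all (jb2 57 fl b0) = true := by decide +kernel
noncomputable def k130 : KT := (.br (Nat.shiftLeft (nat_lit 0x500000200400700a013) (nat_lit 64)) (.br (Nat.shiftLeft (nat_lit 0x2800001) (nat_lit 113)) (.one (nat_lit 0x500000100400700a01320080af414026611)) (.one (nat_lit 0x500000200400700a01240080af414024611))) (.br (Nat.shiftLeft (nat_lit 0x5000003) (nat_lit 112)) (.one (nat_lit 0x500000200400700a01340080af414026611)) (.one (nat_lit 0x500000300400700a01260080af414024611))))
def t130 : k130.all (jb2 57 fl b0) = true := by decide +kernel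
noncomputable def k131 : KT := (.br (Nat.shiftLeft (nat_lit 0x3) (nat_lit 137)) (.one (nat_lit 0x500000300400700a01360080af414026611)) (.br (Nat.shiftLeft (nat_lit 0x600000100400700a013) (nat_lit 64)) (.one (nat_lit 0x600000100400700a01220080cf814024611)) (.one (nat_lit 0x600000100400700a01320080cf814026611))))
def t131 : k131.all (jb2 57 fl b0) = true := by decide +kernel
noncomputable def k132 : KT := (.br (Nat.shiftLeft (nat_lit 0x6000003) (nat_lit 112)) (.br (Nat.shiftLeft (nat_lit 0x600000200400700a013) (nat_lit 64)) (.one (nat_lit 0x600000200400700a01240080cf814024611)) (.one (nat_lit 0x600000200400700a01340080cf814026611))) (.br (Nat.shiftLeft (nat_lit 0x600000300400700a013) (nat_lit 64)) (.one (nat_lit 0x600000300400700a01260080cf814024611)) (.one (nat_lit 0x600000300400700a01360080cf814026611))))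
def t132 : k132.all (jb2 57 fl b0) = true := by decide +kernel
noncomputable def k133 : KT := (.br (Nat.shiftLeft (nat_lit 0x700000100400700a013) (nat_lit 64)) (.one (nat_lit 0x700000100400700a01220080efc14024611)) (.br (Nat.shiftLeft (nat_lit 0x3800001) (nat_lit 113)) (.one (nat_lit 0x700000100400700a01320080efc14026611)) (.one (nat_lit 0x700000200400700a01240080efc14024611))))
def t133 : k133.all (jb2 57 fl b0) = true := by decide +kernel
noncomputable def k134 : KT := (.br (Nat.shiftLeft (nat_lit 0x700000300400700a013) (nat_lit 64)) (.br (Nat.shiftLeft (nat_lit 0x7000003) (nat_lit 112)) (.one (nat_lit 0x700000200400700a01340080efc14026611)) (.one (nat_lit 0x700000300400700a01260080efc14024611))) (.br (Nat.shiftLeft (nat_lit 0x1) (nat_lit 139)) (.one (nat_lit 0x700000300400700a01360080efc14026611)) (.br (Nat.shiftLeft (nat_lit 0x800000100400700a013) (nat_lit 64)) (.one (nat_lit 0x800000100400700a0122008110014024611)) (.one (nat_lit 0x800000100400700a0132008110014026611)))))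
def t134 : k134.all (jb2 57 fl b0) = true := by decide +kernel
noncomputable def k135 : KT := (.br (Nat.shiftLeft (nat_lit 0x800000300400700a013) (nat_lit 64)) (.br (Nat.shiftLeft (nat_lit 0x800000200400700a013) (nat_lit 64)) (.one (nat_lit 0x800000200400700a0124008110014024611)) (.br (Nat.shiftLeft (nat_lit 0x8000003) (nat_lit 112)) (.one (nat_lit 0x800000200400700a0134008110014026611)) (.one (nat_lit 0x800000300400700a0126008110014024611)))) (.br (Nat.shiftLeft (nat_lit 0x900000100400700a013) (nat_lit 64)) (.br (Nat.shiftLeft (nat_lit 0x9) (nat_lit 136)) (.one (nat_lit 0x800000300400700a0136008110014026611)) (.one (nat_lit 0x900000100400700a0122008130414024611))) (.br (Nat.shiftLeft (nat_lit 0x4800001) (nat_lit 113)) (.one (nat_lit 0x900000100400700a0132008130414026611)) (.one (nat_lit 0x900000200400700a0124008130414024611)))))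
def t135 : k135.all (jb2 57 fl b0) = true := by decide +kernel
noncomputable def k136 : KT := (.br (Nat.shiftLeft (nat_lit 0xa000003) (nat_lit 112)) (.br (Nat.shiftLeft (nat_lit 0x5) (nat_lit 137)) (.br (Nat.shiftLeft (nat_lit 0x9000003) (nat_lit 112)) (.one (nat_lit 0x900000200400700a0134008130414026611)) (.br (Nat.shiftLeft (nat_lit 0x900000300400700a013) (nat_lit 64)) (.one (nat_lit 0x900000300400700a0126008130414024611)) (.one (nat_lit 0x900000300400700a0136008130414026611)))) (.br (Nat.shiftLeft (nat_lit 0x5000001) (nat_lit 113)) (.br (Nat.shiftLeft (nat_lit 0xa00000100400700a013) (nat_lit 64)) (.one (nat_lit 0xa00000100400700a0122008150814024611)) (.one (nat_lit 0xa00000100400700a0132008150814026611))) (.br (Nat.shiftLeft (nat_lit 0xa00000200400700a013) (nat_lit 64)) (.one (nat_lit 0xa00000200400700a0124008150814024611)) (.one (nat_lit 0xa00000200400700a0134008150814026611))))) (.br (Nat.shiftLeft (nat_lit 0x1) (nat_lit 149)) (.br (Nat.shiftLeft (nat_lit 0xa00000300400700a013) (nat_lit 64)) (.one (nat_lit 0xa00000300400700a0126008150814024611))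 (.br (Nat.shiftLeft (nat_lit 0x1) (nat_lit 148)) (.one (nat_lit 0xa00000300400700a0136008150814026611)) (.one (nat_lit 0x100000100200400700a012402840e034424711)))) (.br (Nat.shiftLeft (nat_lit 0x1) (nat_lit 150)) (.br (Nat.shiftLeft (nat_lit 0x3) (nat_lit 148)) (.one (nat_lit 0x200000100200400700a012404880e034424711)) (.one (nat_lit 0x300000100200400700a0124068c0e034424711))) (.br (Nat.shiftLeft (nat_lit 0x5) (nat_lit 148)) (.one (nat_lit 0x400000100200400700a012408900e034424711)) (.one (nat_lit 0x500000100200400700a01240a940e034424711))))))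
def t136 : k136.all (jb2 57 fl b0) = true := by decide +kernel
noncomputable def k137 : KT := (.br (Nat.shiftLeft (nat_lit 0x1) (nat_lit 151)) (.br (Nat.shiftLeft (nat_lit 0x7) (nat_lit 148)) (.one (nat_lit 0x600000100200400700a01240c980e034424711)) (.one (nat_lit 0x700000100200400700a01240e9c0e034424711))) (.br (Nat.shiftLeft (nat_lit 0x9) (nat_lit 148)) (.one (nat_lit 0x800000100200400700a012410a00e034424711)) (.br (Nat.shiftLeft (nat_lit 0x5) (nat_lit 149)) (.one (nat_lit 0x900000100200400700a012412a40e034424711)) (.one (nat_lit 0xa00000100200400700a012414a80e034424711)))))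
def t137 : k137.all (jb2 57 fl b0) = true := by decide +kernel
noncomputable def s7 : KT := (.br (nat_lit 0x200000300400700a013600804e814026611) (.br (nat_lit 0x200300400700a012600800e054824760) (.br (nat_lit 0x100300400700a012600800e034424760) (.br (nat_lit 0x100200400700a013400800e034426760) k121 k122) (.br (nat_lit 0x200000400700a013000800e054826511) k123 k124)) (.br (nat_lit 0x600000400700a013000800e0d5826511) (.br (nat_lit 0x500000400700a012000800e0b5424511) k125 k126) (.br (nat_lit 0x800000400700a012000800e116024511) k127 k128))) (.br (nat_lit 0x600000300400700a01360080cf814026611) (.br (nat_lit 0x500000300400700a01260080af414024611) (.br (nat_lit 0x500000100400700a01220080af414024611) k129 k130) (.br (nat_lit 0x600000100400700a01320080cf814026611) k131 k132)) (.br (nat_lit 0x800000100400700a0132008110014026611) (.br (nat_lit 0x700000200400700a01240080efc14024611) k133 k134) (.br (nat_lit 0x900000200400700a0124008130414024611) k135 (.br (nat_lit 0x500000100200400700a01240a940e034424711) k136 k137)))))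
noncomputable def u7 : KT := (.br (Nat.shiftLeft (nat_lit 0x400700b) (nat_lit 76)) (.br (Nat.shiftLeft (nat_lit 0x400700a013) (nat_lit 64)) (.one (nat_lit 0x400700a012000800e014024540)) (.one (nat_lit 0x400700a013000800e014026540))) (.br (Nat.shiftLeft (nat_lit 0x400700b00d) (nat_lit 64)) (.one (nat_lit 0x400700b00c000800e016019500)) (.br (Nat.shiftLeft (nat_lit 0x2003805807) (nat_lit 65)) (.one (nat_lit 0x400700b00d000800e01601b500)) (.one (nat_lit 0x400700b00e000800e01601d500)))))
def w7 : u7.all (wj 57 s7) = true := by decide +kernel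
def o7 : OkW 57 (jb2 57 fl) u7 := .lift s7 _ (.br _ _ _ (.br _ _ _ (.br _ _ _ (.br _ _ _ (.leaf b0 k121 t121) (.leaf b0 k122 t122)) (.br _ _ _ (.leaf b0 k123 t123) (.leaf b0 k124 t124))) (.br _ _ _ (.br _ _ _ (.leaf b0 k125 t125) (.leaf b0 k126 t126)) (.br _ _ _ (.leaf b128 k127 t127) (.leaf b129 k128 t128)))) (.br _ _ _ (.br _ _ _ (.br _ _ _ (.leaf b0 k129 t129) (.leaf b0 k130 t130)) (.br _ _ _ (.leaf b0 k131 t131) (.leaf b0 k132 t132))) (.br _ _ _ (.br _ _ _ (.leaf b0 k133 t133) (.leaf b0 k134 t134)) (.br _ _ _ (.leaf b0 k135 t135) (.br _ _ _ (.leaf b0 k136 t136) (.leaf b0 k137 t137)))))) w7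
noncomputable def k138 : KT := (.br (Nat.shiftLeft (nat_lit 0x1003) (nat_lit 112)) (.br (Nat.shiftLeft (nat_lit 0x3) (nat_lit 112)) (.br (Nat.shiftLeft (nat_lit 0x1) (nat_lit 112)) (.one (nat_lit 0x400700b00f000800e01601f500)) (.br (Nat.shiftLeft (nat_lit 0x1) (nat_lit 113)) (.one (nat_lit 0x100400700b00f200800e01601f600)) (.one (nat_lit 0x200400700b00f400800e01601f600)))) (.br (Nat.shiftLeft (nat_lit 0x1) (nat_lit 124)) (.one (nat_lit 0x300400700b00f600800e01601f600)) (.br (Nat.shiftLeft (nat_lit 0x801) (nat_lit 113)) (.one (nat_lit 0x100000400700b00f000800e03641e511)) (.one (nat_lit 0x100200400700b00f400800e03641f700))))) (.br (Nat.shiftLeft (nat_lit 0x3) (nat_lit 124)) (.br (Nat.shiftLeft (nat_lit 0x1) (nat_lit 125)) (.one (nat_lit 0x100300400700b00f600800e03641f700)) (.br (Nat.shiftLeft (nat_lit 0x1001) (nat_lit 113)) (.one (nat_lit 0x200000400700b00f000800e05681e511)) (.one (nat_lit 0x200300400700b00f600800e05681f700)))) (.br (Nat.shiftLeft (nat_lit 0x5) (nat_lit 124)) (.br (Nat.shiftLeft (nat_lit 0x1) (nat_lit 126)) (.one (nat_lit 0x300000400700b00f000800e076c1e511))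 (.one (nat_lit 0x400000400700b00f000800e09701e511))) (.br (Nat.shiftLeft (nat_lit 0x3) (nat_lit 125)) (.one (nat_lit 0x500000400700b00f000800e0b741e511)) (.one (nat_lit 0x600000400700b00f000800e0d781e511))))))
noncomputable def b139 : BT := .node (nat_lit 0x1) (nat_lit 0x4c892f8a2c9636da13a8003a20000ab70003a98000ab782000e300028) .leaf .leaf
def t138 : k138.all (jb2 57 fl b139) = true := by decide +kernel
noncomputable def k139 : KT := (.one (nat_lit 0x700000400700b00f000800e0f7c1e511))
noncomputable def b140 : BT := .node (nat_lit 0x2b) (nat_lit 0x96325d93a132296428b24d926c4be49b13a8a2c00996d00165b0005d2d000563400996c001653e001d4c00156b026d9b6cc9d4001d4c000463e0ed994592c896425f150db66db32a1b6cdb664be002cb6800ab18000e87c00ab57002ea60002398004cb60012adf136cc9d49374c8b6d12c800196d80055b800210d000563016d99458a865422a19458003a5b0008e60003a98000ca702db36d992f9b665432a1950897c51749b24d897c00196c0015544005d4c801472e005d0f801653a00996c001654026d9b6d126c96327513a9b6693628b00065b200194d000753200156f00065360015ac0723191912f8003a980006b90100b1000b1000b1000b1000b1000b100099f0099f0099f0099f0099f0099f0099f0093f0093f0093f0093f0093f0093f0093f0093f0093f0093f007ce007130071300658004e7003d1003d1003d1003d1003d1003d1003d1003d10037000370003700037000370003700037000370)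 .leaf .leaf
def t139 : k139.all (jb2 57 fl b140) = true := by decide +kernel
noncomputable def k140 : KT := (.one (nat_lit 0x800000400700b00f000800e11801e511))
noncomputable def b141 : BT := .node (nat_lit 0x3b) (nat_lit 0xdb22759459b6693727424dc97a516002e97400a35b000cb600132d8002e96c00ab580e58c97c542000e790002b570658d26e5420010774002b57064dc97c4bd6d9a590a8654349b145926a93828b36cc97c9376d9950d2c8005d4c00155bc00596c80056ae0060ed80156b000610d00256ae00594f80155b800598b801563036d993a8a8493725f13a0003a1f0008e5c0032db000cb602db349b93a89d24bd25e800653800158d80074b600196d05b66db328b00065b00015ab83b6693825f000653c00156f032c696328b36cdb669374b213a89d4011d4c0015636001d4c00265b0009d4c80356361d4249b93a1b669374b1a58c9d44ea6d9b6cca2cdb349b92f8a8493725f00283ba00196c002753001196c004753000d56f00565b000d5ac003653800956f80483b80115700d2ca4be275000753000158d833224e92a2258d26e543000e878002b1a0010770002b570b6c926e5430010774002398064dc97c4be000ea60002adf0659097c5156da13a09d4005d0f800563400596c002563414b1b6cc9d45426da14592c64be49bb6cd26e516000ea60002adf0010868002b1a000ca8000329b000cb64002b57124dc9d49374c8b6d12c600196d80065b000210d000563014b193a52c800196d00065b20cb236cc9d2001d4c00055bc0eda12f8a84963275a4dc003a1f0008e5c0032dc000ca6c20145c0145c0145c01346013460134601346012e6012e601286012860105f0105f0105f0105f0105f00fa400fa400fa400fa400fa400ee900e8900e8900e2900d1300d1300d1300d1300d1300aed00aed00aed00aed00a8d009d2009d2009d2009d2009d2009720097200972009720091200912008570085700857008570085700857006e60062b0062b0062b0062b005cb0056b004b0)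 .leaf .leaf
def t140 : k140.all (jb2 57 fl b141) = true := by decide +kernel
noncomputable def k141 : KT := (.one (nat_lit 0x900000400700b00f000800e13841e511))
noncomputable def b142 : BT := .node (nat_lit 0x35) (nat_lit 0x36c92705426d936cca2c00210d00056ae001d4c00046b8149c24e0978db36d994580032d9000ca740032d8000ac682db225f25912c64be27536cc9d49636d9a4dc9d000594f0005634005d2e00155be00996d002563000196c00165b024b224dca2a9652751509b664bd25e950c9d44bb002e9700232d9006e970012b57000cb64012aa2004e87c0132d8136cc9d4516000e97000235b06591b665166d9b6cc97adb26da258d2c64be28a80075300015ab80065b000156f00084b200158c00074ba00158d092316d992f80032990008b8c19634b212f8a2c93725ea58c9d4516004cb6400b262002e96c0032d9002e97000ab1b0f6c8a2c5432a124e126e93749c12f5b64db425e80074b80011cc000843400196c000753200156f00065b4001551092c6db34b1b6cc9ce9386d913a0a2c001d4c002753000596c80155bc00596c00156381c9ba4e497a9634b1a4e12c6938275258c97c5436d992fca2c54349c12f92c693828b00065b400596c801753000194e80274ba00958d00173c60015ac80174420051ad80083ba00556f002843400958e0fb664ea2a1a58ca864e84b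1a58c97c93725f12fa46296425f00274400091cb801662e00196c0027530005551800753000156f80155b40055510b2c893828b150926e5144b2a59497adb325ea59000421a000ac6c003a5c000cb60003317000c984003262000ac644db24b193a92c65164b1b6cc97c542000cb64002adf000cc600032d8000e78c0023970f6cd2729634b192f89d254227513a5b66db425ea58ca2e5152a1a4e09d0db36d9a590013a5e004ac6000ba5d000ab7800ba1f000cb64003a990028b8800ba99002ac6800c1dd000cb6000ba98006cb647db36d99458003a980008d6c1db26d992f52c89384b236cd2ca5436d993a89d29654b292ec013a98006ab7800ba5c000cb6400b2d8004ad60023a98004ac680132db006cb605019e2019e2019e2019e2019e2019270192701927019270186c0186c0186c016fb0158a0158a0158a0158a0152a0152a0152a0152a0152a0152a013b901358013580135801242012420124201242012420124201242010d1010d100fbb00d3900b6d00b6d00b6d009fc009fc009fc009fc009fc009fc008e6006640066400664006040043800438) .leaf .leaf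
def t141 : k141.all (jb2 57 fl b142) = true := by decide +kernel
noncomputable def k142 : KT := (.br (Nat.shiftLeft (nat_lit 0x1) (nat_lit 136)) (.br (Nat.shiftLeft (nat_lit 0xb) (nat_lit 124)) (.one (nat_lit 0xa00000400700b00f000800e15881e511)) (.one (nat_lit 0xb00000400700b00f000800e178c1e511))) (.br (Nat.shiftLeft (nat_lit 0x800001) (nat_lit 113)) (.one (nat_lit 0x100000100400700b00f200802e41601e611)) (.br (Nat.shiftLeft (nat_lit 0x1000003) (nat_lit 112)) (.one (nat_lit 0x100000200400700b00f400802e41601e611)) (.one (nat_lit 0x100000300400700b00f600802e41601e611)))))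
noncomputable def b143 : BT := .node (nat_lit 0x1d) (nat_lit 0x6d913ad270db34b192f4003317000ab740032d8000aa8829632a195089d24be273b6c92c64be000ea60002b57000e9700032d9000cb60002aa40f6cdb669634b112f897696327393a400b2d8000cb6000b29f008ca7402b2d9002ca783db32a1950d2704be275258d2725434b19458a2c00dd4c0024730009d2e000563600a0ef00256b0005d4c004563624b192f8a2cdb349c2591b64db325ea58d272938002e97000b2db004e974012b19000ea64002ade004ea64003a981258c97c939000cb6400329e076c897c93949b12f897cdb26da15092c8db34b2001653c00556f001753000556f80293b40091cb800753000196c89b684e92a1a5912c64bd4b193a9270db349c13a9b664be274a4e12724be4b1a4e0a2a00dd0f003473000996c00464c400996d000653a00d96c0025636009d4c00155bc001d4c80055bc009d2e80465b43ed913989d400196c00055c00ed994592c600198c00056300cb1a4e49d29634b29508003a99000ac6800421b000ad5c200def00def00def00def00def00d3400c1e00b0800b0800b080099700826007c6007c6007c600655003d3003d3003d30037300313003130031300313002580025800258002580025800258) .leaf .leaf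
def t142 : k142.all (jb2 57 fl b143) = true := by decide +kernel
noncomputable def k143 : KT := (.br (Nat.shiftLeft (nat_lit 0x3) (nat_lit 136)) (.br (Nat.shiftLeft (nat_lit 0x1000001) (nat_lit 113)) (.br (Nat.shiftLeft (nat_lit 0x1) (nat_lit 137)) (.one (nat_lit 0x100200300400700b00f600802e45681e870)) (.one (nat_lit 0x200000100400700b00f200804e81601e611))) (.br (Nat.shiftLeft (nat_lit 0x2000003) (nat_lit 112)) (.one (nat_lit 0x200000200400700b00f400804e81601e611)) (.one (nat_lit 0x200000300400700b00f600804e81601e611)))) (.br (Nat.shiftLeft (nat_lit 0x3000003) (nat_lit 112)) (.br (Nat.shiftLeft (nat_lit 0x1800001) (nat_lit 113)) (.one (nat_lit 0x300000100400700b00f200806ec1601e611)) (.one (nat_lit 0x300000200400700b00f400806ec1601e611))) (.br (Nat.shiftLeft (nat_lit 0x1) (nat_lit 138)) (.one (nat_lit 0x300000300400700b00f600806ec1601e611)) (.one (nat_lit 0x400000100400700b00f200808f01601e611)))))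
def t143 : k143.all (jb2 57 fl b0) = true := by decide +kernel
noncomputable def k144 : KT := (.br (Nat.shiftLeft (nat_lit 0x4000003) (nat_lit 112)) (.one (nat_lit 0x400000200400700b00f400808f01601e611)) (.br (Nat.shiftLeft (nat_lit 0x5) (nat_lit 136)) (.one (nat_lit 0x400000300400700b00f600808f01601e611)) (.one (nat_lit 0x500000100400700b00f20080af41601e611))))
noncomputable def b145 : BT := .node (nat_lit 0x1) (nat_lit 0x12314b192fc002ad9000aa8c10008900028) .leaf .leaf
def t144 : k144.all (jb2 57 fl b145) = true := by decide +kernel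
noncomputable def k145 : KT := (.br (Nat.shiftLeft (nat_lit 0x5000003) (nat_lit 112)) (.one (nat_lit 0x500000200400700b00f40080af41601e611)) (.one (nat_lit 0x500000300400700b00f60080af41601e611)))
def t145 : k145.all (jb2 57 fl b0) = true := by decide +kernel
noncomputable def k146 : KT := (.one (nat_lit 0x600000100400700b00f20080cf81601e611))
noncomputable def b147 : BT := .node (nat_lit 0xb) (nat_lit 0x49a93a8a88001d0f000572c0ef0b6d0a2cde14c924d400329a000ac680032d8000c96c2db36d992f80032d8000aa88196328b150c003a5b000ad5c1002cb002cb002cb0026b0026b001b0001b0001b0001b00015000150000f0) .leaf .leaf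
def t146 : k146.all (jb2 57 fl b147) = true := by decide +kernel
noncomputable def k147 : KT := (.one (nat_lit 0x600000200400700b00f40080cf81601e611))
noncomputable def b148 : BT := .node (nat_lit 0x17) (nat_lit 0x24d4a8854349a92f89d4001d4c000572c001d2e0005638148c4a2e9636d936cca2c00196d800463200196c00056b0149a93a8ae4001cf000057aa0c8c4a2cdb36d912fd3240015ac00055b200191200056ae157149b13a800419c000ac701004d2004170041700417004170035b0035b002fb002fb002fb002fb002fb002fb002fb002fb0023f0023f001e0001e0001e0001e0001e0001e0001e0) .leaf .leaf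
def t147 : k147.all (jb2 57 fl b148) = true := by decide +kernel
noncomputable def k148 : KT := (.one (nat_lit 0x600000300400700b00f60080cf81601e611))
noncomputable def b149 : BT := .node (nat_lit 0xb) (nat_lit 0xde125e945c003a5b0008c74193525e9458003a5b000ad641001b0001b00015000150000f0000f0000f0000f0000f0000f0000f0000f0) .leaf .leaf
def t148 : k148.all (jb2 57 fl b149) = true := by decide +kernel
noncomputable def k149 : KT := (.one (nat_lit 0x700000100400700b00f20080efc1601e611))
noncomputable def b150 : BT := .node (nat_lit 0x2b) (nat_lit 0x9646da1458003a99000ad5c1db32751459b6693649b150d26e5166d9b6cc97c93625f13a8a8693627500275300051ad80165b000596c00083b80055ab800753000517100174ba00158d80283b600958e0d26c4be28b36cd2c85434b192fd26c9646d9950db6651649b00174400015ab80065b20055ab801654000194d80275300095ac001662e00956d8b2c64be2a1b6cc97c5436d993a926c9632a1a58d26c4be27500373c60095ab801743e0091cc002663000d56d804663000996c001753200158d8b26c4ea49b48c49d2937000cb6c0032d9000ac6c002a9d0a590a2c4e8000cc5c0032d8066449d4517000e96c002add076d09d4542000e878002397064d897a9366d913a4a86de16d992f40032db000cb640032d8000ad60003299000ab7c393628b1458003a98000ad60100ce000ce000ce000ce000c8000c8000c8000c8000c8000c8000c8000c8000c8000c8000c8000c8000a5900a5900a5900a5900a5900a5900a5900a5900a5900a590088d006c1006060060600606005a600546005460054600546004e6004e6004e6004e6003d0003700037000370)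 .leaf .leaf
def t149 : k149.all (jb2 57 fl b150) = true := by decide +kernel
noncomputable def k150 : KT := (.one (nat_lit 0x700000200400700b00f40080efc1601e611))
noncomputable def b151 : BT := .node (nat_lit 0x19) (nat_lit 0x36c9b665166d912f8a2c96328b13a126c4be27500265b000558d80174b80051ad801662e00196c001753000558e0926c936274800753000158e0326a4e949ba4d897c4e94c893ad2c657149b92f4003317000cb68003a5c000ac6c00329f000ca6400419d000ab7c4935275945926a4be27524d8a2c9366d936cc97cde12a2264801ba5d004ad60013a5c002ac7401b318006cb60003a980048b8c0132d9004ac605db225f950db664bd49b36c9b664ea000e78c002398000cb6c002adb000ea6000231f0e58ca2c5166d993a0a8693625e93a4013a98004ac6c0032d8002ad600032db002cb6430094200942007d10077100771007710077100600006000060000600006000043400434004340043400434004340031e0031e0031e0031e00208002080020800208) .leaf .leaf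
def t150 : k150.all (jb2 57 fl b151) = true := by decide +kernel
noncomputable def k151 : KT := (.one (nat_lit 0x700000300400700b00f60080efc1601e611))
noncomputable def b152 : BT := .node (nat_lit 0x1) (nat_lit 0x4c8a64897c991274a4dc0032d8000c8900032db000c9742000e300028) .leaf .leaf
def t151 : k151.all (jb2 57 fl b152) = true := by decide +kernel
noncomputable def k152 : KT := (.one (nat_lit 0x800000100400700b00f200811001601e611))
noncomputable def b153 : BT := .node (nat_lit 0x2b) (nat_lit 0x93725f12f52c693828b258db664ea000ea6000aade003086800ab1a004ea6000ab1b0e594a2e964000cc5c0032d9076cc97c9636d9b6cc97a001931000563000196c800554416d913a126edb26d9a4dc0132d8002ca7400ba99000cb60296327524dd26c51649bb6cc97c9636d9a4dc9d49636d992f93224bd49c36cd26e937004cb6c01b29b004cc5c0032d9002c988012b18000ca70022b1b004ea6001aaa3002cb6801b25e008ea6000aadc1f6c92c69634c8b6cd26e93625f93a00032d8000cb60003a59000ca70003a5e000ac68393749c12f92c64ea2a1000753200156f00074b80015ab85b664ea2a136cc97c4e96d993a926c001d2e000472e001d4c000463c00196e00055b61c9b92f89d2001d4c80056340c8c5b664ea000ca6400231f06590a2c543000e968002b58076c89d4517000e96c00235c0658db66db36d9945926edb325f1458003a98000ea60013317004ab7000ba5c0008d6c300e5c00d4600d4600ce600c2b00b7000b7000b7000b7000b7000b7000b7000b7000b7000b7000b7000b7000b7000b7000b7000b7000b7000b70008ee008ee008ee008ee008ee007d8007d8007d80071d0071d006070060700607005a700546004e60048600486004860048600370)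 .leaf .leaf
def t152 : k152.all (jb2 57 fl b153) = true := by decide +kernel
noncomputable def k153 : KT := (.br (Nat.shiftLeft (nat_lit 0x8000003) (nat_lit 112)) (.one (nat_lit 0x800000200400700b00f400811001601e611)) (.one (nat_lit 0x800000300400700b00f600811001601e611)))
noncomputable def b154 : BT := .node (nat_lit 0xb) (nat_lit 0x36c8ae496349b12f897c93627524d8003356000ac60003a98000ab800032dc000cb60393628b1454003a98000ad601db249b14580032d8000ad601002c6002c6001b0001b00015000150000f0000f0000f0000f0000f0000f0) .leaf .leaf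
def t153 : k153.all (jb2 57 fl b154) = true := by decide +kernel
noncomputable def k154 : KT := (.br (Nat.shiftLeft (nat_lit 0x4800001) (nat_lit 113)) (.one (nat_lit 0x900000100400700b00f200813041601e611)) (.one (nat_lit 0x900000200400700b00f400813041601e611)))
noncomputable def b155 : BT := .node (nat_lit 0x1d) (nat_lit 0x49b92f89d2001d4c80056340ef092f8a88001cf100046b40cb213a09d4db225f1455b664be4b1b6c9b66516004cb6001329e000e970002b1a002c98800ab18002ea6000a35c1258c97c5156d913a89d4db349c24dc00ba5c002ac68003a990028c7c013a99002ab703db32a1950926e4e725f36cd2c64ea000ea60002397000cb6400329f000cb60002adf0ea1a4dc976001d2d80065b00cb192f89d4001d2e00065b40d4349c24e00041dc000cb641db36d992f9b689384b1a58db684e86d993a89d496349c12f8003a980068b9001ba98002cb60014259006cb60023a980028c7c00ba5d004ab7850099f0099f0099f0093f0093f0093f0093f008df008df0076e0065800658006580065800542004e30048300424004240042400424004240042400424004240042400424004240042400258) .leaf .leaf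
def t154 : k154.all (jb2 57 fl b155) = true := by decide +kernel
noncomputable def k155 : KT := (.br (Nat.shiftLeft (nat_lit 0x5000001) (nat_lit 113)) (.br (Nat.shiftLeft (nat_lit 0x5) (nat_lit 137)) (.one (nat_lit 0x900000300400700b00f600813041601e611)) (.one (nat_lit 0xa00000100400700b00f200815081601e611))) (.br (Nat.shiftLeft (nat_lit 0xa000003) (nat_lit 112)) (.one (nat_lit 0xa00000200400700b00f400815081601e611)) (.one (nat_lit 0xa00000300400700b00f600815081601e611))))
noncomputable def b156 : BT := .node (nat_lit 0xb) (nat_lit 0x12c696349c000753200194e832c64ea2a136cdb669636d9b6cca2c009d0f80056ae009d4c00365b000596c00456ae1ed913a52c89636d9a4e000329e000ac68003a99000ca74200321002c1002c1001ab001ab001ab001ab000f0000f0000f0000f0000f0) .leaf .leaf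
def t155 : k155.all (jb2 57 fl b156) = true := by decide +kernel
noncomputable def k156 : KT := (.br (Nat.shiftLeft (nat_lit 0x2000001003) (nat_lit 112)) (.br (Nat.shiftLeft (nat_lit 0x1) (nat_lit 148)) (.br (Nat.shiftLeft (nat_lit 0x5800001) (nat_lit 113)) (.one (nat_lit 0xb00000100400700b00f2008170c1601e611)) (.br (Nat.shiftLeft (nat_lit 0xb000003) (nat_lit 112)) (.one (nat_lit 0xb00000200400700b00f4008170c1601e611)) (.one (nat_lit 0xb00000300400700b00f6008170c1601e611)))) (.br (Nat.shiftLeft (nat_lit 0x800001) (nat_lit 125)) (.br (Nat.shiftLeft (nat_lit 0x1000001003) (nat_lit 112)) (.one (nat_lit 0x100000100200400700b00f402840e03641e711)) (.one (nat_lit 0x100000100300400700b00f602840e03641e711))) (.br (Nat.shiftLeft (nat_lit 0x1) (nat_lit 149)) (.one (nat_lit 0x100000200300400700b00f602840e05681e711)) (.one (nat_lit 0x200000100200400700b00f404880e03641e711))))) (.br (Nat.shiftLeft (nat_lit 0x1800001) (nat_lit 125)) (.br (Nat.shiftLeft (nat_lit 0x3) (nat_lit 148)) (.br (Nat.shiftLeft (nat_lit 0x1000001) (nat_lit 125)) (.one (nat_lit 0x200000100300400700b00f604880e03641e711))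 (.one (nat_lit 0x200000200300400700b00f604880e05681e711))) (.br (Nat.shiftLeft (nat_lit 0x3000001003) (nat_lit 112)) (.one (nat_lit 0x300000100200400700b00f4068c0e03641e711)) (.one (nat_lit 0x300000100300400700b00f6068c0e03641e711)))) (.br (Nat.shiftLeft (nat_lit 0x4000001003) (nat_lit 112)) (.br (Nat.shiftLeft (nat_lit 0x1) (nat_lit 150)) (.one (nat_lit 0x300000200300400700b00f6068c0e05681e711)) (.one (nat_lit 0x400000100200400700b00f408900e03641e711))) (.br (Nat.shiftLeft (nat_lit 0x2000001) (nat_lit 125)) (.one (nat_lit 0x400000100300400700b00f608900e03641e711)) (.one (nat_lit 0x400000200300400700b00f608900e05681e711))))))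
def t156 : k156.all (jb2 57 fl b0) = true := by decide +kernel
noncomputable def k157 : KT := (.br (Nat.shiftLeft (nat_lit 0x5000001003) (nat_lit 112)) (.one (nat_lit 0x500000100200400700b00f40a940e03641e711)) (.one (nat_lit 0x500000100300400700b00f60a940e03641e711)))
noncomputable def b158 : BT := .node (nat_lit 0x2f) (nat_lit 0x6d914592680019ab80055b20ef0b6cd26a00994c80065320ef092f8a2ede16d99459b6493525f000743e00118e80074b20011ad800653400157087b644e949aa58d26a4be000cc64002ada000e964002ae10a4d097c5169189685382001d1000056b200198b800472e16d912f49d6001d2d80046400ef093a932400193000056300cb1a4d4a2c001d2c80056b20ef0a58db6600196c00065320cc8945cb4299249a14580039dd000ae5c003a1a000ad642009470094700947008e70088700887007710077100771007710077100771007710077100771007710077100771006b6005fb005fb005fb0059b0059b0059b0059b0059b0059b0059b0059b0059b0059b0059b0059b0053b004db004db004db0047b0047b0047b0047b0047b0047b0047b0047b0047b003c0) .leaf .leaf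
def t157 : k157.all (jb2 57 fl b158) = true := by decide +kernel
noncomputable def k158 : KT := (.br (Nat.shiftLeft (nat_lit 0x3) (nat_lit 149)) (.one (nat_lit 0x500000200300400700b00f60a940e05681e711)) (.one (nat_lit 0x600000100200400700b00f40c980e03641e711)))
noncomputable def b159 : BT := .node (nat_lit 0x2f) (nat_lit 0x1b644be28b37849749926d912fd324001d2e00046b600196c800563000191200056ae1c8c4a2cdb34c8a58c97c00158d80055b2001d2c800554616f09685324991275145c003395000ac60003a5b000ab7429914c914580032d8000ca701de16d99458003a590008d6c10070d0070d0070d0070d0070d0070d0070d0070d0070d0070d0070d0070d0070d005f7005f7005f7005f7005f7005f7005f7005f7005f70053b0053b0053b0053b0053b0053b0053b00480004800048000480004800048000480004800048000480004800048000480004200042000420003c0003c0003c0) .leaf .leaf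
def t158 : k158.all (jb2 57 fl b159) = true := by decide +kernel
noncomputable def k159 : KT := (.br (Nat.shiftLeft (nat_lit 0x3000001) (nat_lit 125)) (.one (nat_lit 0x600000100300400700b00f60c980e03641e711)) (.one (nat_lit 0x600000200300400700b00f60c980e05681e711)))
noncomputable def b160 : BT := .node (nat_lit 0x1) (nat_lit 0xdb225f95c80039a40008f5c10008800028) .leaf .leaf
def t159 : k159.all (jb2 57 fl b160) = true := by decide +kernel
noncomputable def k160 : KT := (.br (Nat.shiftLeft (nat_lit 0x7000001003) (nat_lit 112)) (.one (nat_lit 0x700000100200400700b00f40e9c0e03641e711)) (.br (Nat.shiftLeft (nat_lit 0x3800001) (nat_lit 125)) (.one (nat_lit 0x700000100300400700b00f60e9c0e03641e711)) (.one (nat_lit 0x700000200300400700b00f60e9c0e05681e711))))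
noncomputable def b161 : BT := .node (nat_lit 0x13) (nat_lit 0x6f0b6cc97c9914b192f8013299002aa8c003299002c98c2db249b92f52c64be28b000653800156f800744000158d8523125f145c003a1f0006d741db2275a58d26c4e927436c8a2e57249aa4d897c00194f800563000198b80065b0001d0e00047ae001d4c00055c224b113a097c93527513a80032d8000c98c003a99000ac702005930059300593004d8004d8004d8004d80041d0041d003bc003bc003bc003bc0024b001900019000190001900019000190) .leaf .leaf
def t160 : k160.all (jb2 57 fl b161) = true := by decide +kernel
noncomputable def k161 : KT := (.br (Nat.shiftLeft (nat_lit 0x4000001) (nat_lit 125)) (.br (Nat.shiftLeft (nat_lit 0x8000001003) (nat_lit 112)) (.one (nat_lit 0x800000100200400700b00f410a00e03641e711)) (.one (nat_lit 0x800000100300400700b00f610a00e03641e711))) (.br (Nat.shiftLeft (nat_lit 0x9) (nat_lit 148)) (.one (nat_lit 0x800000200300400700b00f610a00e05681e711)) (.one (nat_lit 0x900000100200400700b00f412a40e03641e711))))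
noncomputable def b162 : BT := .node (nat_lit 0x1) (nat_lit 0x91893a52c693625f14580032db0008c64003a1f000ad642000e400028) .leaf .leaf
def t161 : k161.all (jb2 57 fl b162) = true := by decide +kernel
noncomputable def k162 : KT := (.br (Nat.shiftLeft (nat_lit 0x5000001) (nat_lit 125)) (.br (Nat.shiftLeft (nat_lit 0x5) (nat_lit 149)) (.br (Nat.shiftLeft (nat_lit 0x4800001) (nat_lit 125)) (.one (nat_lit 0x900000100300400700b00f612a40e03641e711)) (.one (nat_lit 0x900000200300400700b00f612a40e05681e711))) (.br (Nat.shiftLeft (nat_lit 0xa000001003) (nat_lit 112)) (.one (nat_lit 0xa00000100200400700b00f414a80e03641e711)) (.one (nat_lit 0xa00000100300400700b00f614a80e03641e711)))) (.br (Nat.shiftLeft (nat_lit 0xb000001003) (nat_lit 112)) (.br (Nat.shiftLeft (nat_lit 0xb) (nat_lit 148)) (.one (nat_lit 0xa00000200300400700b00f614a80e05681e711)) (.one (nat_lit 0xb00000100200400700b00f416ac0e03641e711))) (.br (Nat.shiftLeft (nat_lit 0x5800001) (nat_lit 125)) (.one (nat_lit 0xb00000100300400700b00f616ac0e03641e711)) (.one (nat_lit 0xb00000200300400700b00f616ac0e05681e711)))))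
def t162 : k162.all (jb2 57 fl b0) = true := by decide +kernel
noncomputable def s8 : KT := (.br (nat_lit 0x700000100400700b00f20080efc1601e611) (.br (nat_lit 0x400000100400700b00f200808f01601e611) (.br (nat_lit 0x800000400700b00f000800e11801e511) (.br (nat_lit 0x600000400700b00f000800e0d781e511) k138 (.br (nat_lit 0x700000400700b00f000800e0f7c1e511) k139 k140)) (.br (nat_lit 0x900000400700b00f000800e13841e511) k141 (.br (nat_lit 0x100000300400700b00f600802e41601e611) k142 k143))) (.br (nat_lit 0x600000100400700b00f20080cf81601e611) (.br (nat_lit 0x500000100400700b00f20080af41601e611) k144 (.br (nat_lit 0x500000300400700b00f60080af41601e611) k145 k146)) (.br (nat_lit 0x600000200400700b00f40080cf81601e611) k147 (.br (nat_lit 0x600000300400700b00f60080cf81601e611) k148 k149)))) (.br (nat_lit 0xa00000300400700b00f600815081601e611) (.br (nat_lit 0x800000100400700b00f200811001601e611) (.br (nat_lit 0x700000200400700b00f40080efc1601e611) k150 (.br (nat_lit 0x700000300400700b00f60080efc1601e611) k151 k152)) (.br (nat_lit 0x800000300400700b00f600811001601e611)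 k153 (.br (nat_lit 0x900000200400700b00f400813041601e611) k154 k155))) (.br (nat_lit 0x600000100200400700b00f40c980e03641e711) (.br (nat_lit 0x400000200300400700b00f608900e05681e711) k156 (.br (nat_lit 0x500000100300400700b00f60a940e03641e711) k157 k158)) (.br (nat_lit 0x700000200300400700b00f60e9c0e05681e711) (.br (nat_lit 0x600000200300400700b00f60c980e05681e711) k159 k160) (.br (nat_lit 0x900000100200400700b00f412a40e03641e711) k161 k162)))))
noncomputable def u8 : KT := (.one (nat_lit 0x400700b00f000800e01601e540))
def w8 : u8.all (wj 57 s8) = true := by decide +kernel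
def o8 : OkW 57 (jb2 57 fl) u8 := .lift s8 _ (.br _ _ _ (.br _ _ _ (.br _ _ _ (.br _ _ _ (.leaf b139 k138 t138) (.br _ _ _ (.leaf b140 k139 t139) (.leaf b141 k140 t140))) (.br _ _ _ (.leaf b142 k141 t141) (.br _ _ _ (.leaf b143 k142 t142) (.leaf b0 k143 t143)))) (.br _ _ _ (.br _ _ _ (.leaf b145 k144 t144) (.br _ _ _ (.leaf b0 k145 t145) (.leaf b147 k146 t146))) (.br _ _ _ (.leaf b148 k147 t147) (.br _ _ _ (.leaf b149 k148 t148) (.leaf b150 k149 t149))))) (.br _ _ _ (.br _ _ _ (.br _ _ _ (.leaf b151 k150 t150) (.br _ _ _ (.leaf b152 k151 t151) (.leaf b153 k152 t152))) (.br _ _ _ (.leaf b154 k153 t153) (.br _ _ _ (.leaf b155 k154 t154) (.leaf b156 k155 t155)))) (.br _ _ _ (.br _ _ _ (.leaf b0 k156 t156) (.br _ _ _ (.leaf b158 k157 t157) (.leaf b159 k158 t158))) (.br _ _ _ (.br _ _ _ (.leaf b160 k159 t159) (.leaf b161 k160 t160)) (.br _ _ _ (.leaf b162 k161 t161) (.leaf b0 k162 t162)))))) w8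
noncomputable def k163 : KT := (.br (Nat.shiftLeft (nat_lit 0x1003) (nat_lit 112)) (.br (Nat.shiftLeft (nat_lit 0x3) (nat_lit 112)) (.br (Nat.shiftLeft (nat_lit 0x1) (nat_lit 112)) (.one (nat_lit 0x400700b010000800e016021500)) (.br (Nat.shiftLeft (nat_lit 0x1) (nat_lit 113)) (.one (nat_lit 0x100400700b010200800e016021600)) (.one (nat_lit 0x200400700b010400800e016021600)))) (.br (Nat.shiftLeft (nat_lit 0x1) (nat_lit 124)) (.one (nat_lit 0x300400700b010600800e016021600)) (.br (Nat.shiftLeft (nat_lit 0x801) (nat_lit 113)) (.one (nat_lit 0x100000400700b010000800e036420511)) (.one (nat_lit 0x100200400700b010400800e036421700))))) (.br (Nat.shiftLeft (nat_lit 0x3) (nat_lit 124)) (.br (Nat.shiftLeft (nat_lit 0x1) (nat_lit 125)) (.one (nat_lit 0x100300400700b010600800e036421700)) (.br (Nat.shiftLeft (nat_lit 0x1001) (nat_lit 113)) (.one (nat_lit 0x200000400700b010000800e056820511)) (.one (nat_lit 0x200300400700b010600800e056821700)))) (.br (Nat.shiftLeft (nat_lit 0x5) (nat_lit 124)) (.br (Nat.shiftLeft (nat_lit 0x1) (nat_lit 126)) (.one (nat_lit 0x300000400700b010000800e076c20511))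 (.one (nat_lit 0x400000400700b010000800e097020511))) (.br (Nat.shiftLeft (nat_lit 0x3) (nat_lit 125)) (.one (nat_lit 0x500000400700b010000800e0b7420511)) (.one (nat_lit 0x600000400700b010000800e0d7820511))))))
def t163 : k163.all (jb2 57 fl b0) = true := by decide +kernel
noncomputable def k164 : KT := (.one (nat_lit 0x700000400700b010000800e0f7c20511))
noncomputable def b165 : BT := .node (nat_lit 0xb) (nat_lit 0x12c693649b36cca2e543000e96c0032d8000ea640023970a4d897e5164b1a4dc97e93625f145800ba20000ad60003a5b002ab80013a5c004ad5c396425f24d80032db000ca6c100321003210032100266002660026600266002660026600150000f0000f0) .leaf .leaf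
def t164 : k164.all (jb2 57 fl b165) = true := by decide +kernel
noncomputable def k165 : KT := (.one (nat_lit 0x800000400700b010000800e118020511))
noncomputable def b166 : BT := .node (nat_lit 0x17) (nat_lit 0x36cd26e4bf000ca70002ae006a124dca2e0020ee00056b00cb213a926e9636d9b6cc0032da000ca70003a98000ea6029636da12fc003a99000aa8c19354b2150d2c84be27500075300015ac00074b800156f852c6db327536cc9d24ea28b24e09d2001d4c00055be00196c00055bc00210d00056341d424b213a4003a5a000cb681005ea0058a0058a0058a0058a0058a0058a0052b0052b00470004700047000470004700047000470004700047000410003550023f0023f0023f001e0) .leaf .leaf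
def t165 : k165.all (jb2 57 fl b166) = true := by decide +kernel
noncomputable def k166 : KT := (.br (Nat.shiftLeft (nat_lit 0x1) (nat_lit 136)) (.br (Nat.shiftLeft (nat_lit 0x5) (nat_lit 125)) (.one (nat_lit 0x900000400700b010000800e138420511)) (.br (Nat.shiftLeft (nat_lit 0xb) (nat_lit 124)) (.one (nat_lit 0xa00000400700b010000800e158820511)) (.one (nat_lit 0xb00000400700b010000800e178c20511)))) (.br (Nat.shiftLeft (nat_lit 0x800001) (nat_lit 113)) (.one (nat_lit 0x100000100400700b010200802e416020611)) (.br (Nat.shiftLeft (nat_lit 0x1000003) (nat_lit 112)) (.one (nat_lit 0x100000200400700b010400802e416020611)) (.one (nat_lit 0x100000300400700b010600802e416020611)))))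
noncomputable def b167 : BT := .node (nat_lit 0x1d) (nat_lit 0x15092704bf4b192fca8693825f2594a284ea28b00283ba00957000073ca0055ac00165b400196c0017530005d2d892c696325fa58c97c4e96da258c9d296349b9454a844be25f36cc980516004ea60002aa5002ea6001329e000cb6000b2d8000e97000b2d9002e78c0032da004e88801235b1b6cc97e5426d992fd2c6db26d993a80039e40008e5c003264000ac600032d8000ac7039d24bf25f36c89d45434b1258c97e001d2e80065b2001d0f800473200196c00064ca1cb1945497c93827512f9b644be49c95092724be000cb68013263008cb6800b29e004cb6401b29e0050778012adf1258d2c65434b1b6cca2c009d4c00156b0001d4c00156ae16d9b6cca2c93725f24e00032d8000ac6c0032da000cb642a8493925f36c89d29384b19454a860060ef80055bc00596d00255bc005d2d00156b01cb193a49d2db26d993a89d24bf27380165b000594f00265b200558d80174ba00196c8750897c4e94b193a497e96349c1459b644bf2a18007530001d0f00065b0001932000843400158d80073c80011cc89b664ea28b258d2c64ea4b1b6cd270db26da12f8003a5b0008d6c003a98000ab7c004259000ab740032da000aa8c4db327513a8003a980008c7c10106d00efd00cd600cd600cd600bc000aab00aab00aab00aab0093a0093a0093a0093a0093a0093a0093a0093a0093a0087f007c4006af00599005990059900429002b8002580025800258)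 .leaf .leaf
def t166 : k166.all (jb2 57 fl b167) = true := by decide +kernel
noncomputable def k167 : KT := (.br (Nat.shiftLeft (nat_lit 0x1800001) (nat_lit 113)) (.br (Nat.shiftLeft (nat_lit 0x1000001) (nat_lit 113)) (.br (Nat.shiftLeft (nat_lit 0x1) (nat_lit 137)) (.one (nat_lit 0x100200300400700b010600802e456820870)) (.one (nat_lit 0x200000100400700b010200804e816020611))) (.br (Nat.shiftLeft (nat_lit 0x2000003) (nat_lit 112)) (.one (nat_lit 0x200000200400700b010400804e816020611)) (.br (Nat.shiftLeft (nat_lit 0x3) (nat_lit 136)) (.one (nat_lit 0x200000300400700b010600804e816020611)) (.one (nat_lit 0x300000100400700b010200806ec16020611))))) (.br (Nat.shiftLeft (nat_lit 0x1) (nat_lit 138)) (.br (Nat.shiftLeft (nat_lit 0x3000003) (nat_lit 112)) (.one (nat_lit 0x300000200400700b010400806ec16020611)) (.one (nat_lit 0x300000300400700b010600806ec16020611))) (.br (Nat.shiftLeft (nat_lit 0x2000001) (nat_lit 113)) (.one (nat_lit 0x400000100400700b010200808f016020611)) (.br (Nat.shiftLeft (nat_lit 0x4000003) (nat_lit 112)) (.one (nat_lit 0x400000200400700b010400808f016020611))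 (.one (nat_lit 0x400000300400700b010600808f016020611))))))
def t167 : k167.all (jb2 57 fl b0) = true := by decide +kernel
noncomputable def k168 : KT := (.br (Nat.shiftLeft (nat_lit 0x2800001) (nat_lit 113)) (.one (nat_lit 0x500000100400700b01020080af416020611)) (.br (Nat.shiftLeft (nat_lit 0x5000003) (nat_lit 112)) (.one (nat_lit 0x500000200400700b01040080af416020611)) (.one (nat_lit 0x500000300400700b01060080af416020611))))
def t168 : k168.all (jb2 57 fl b0) = true := by decide +kernel
noncomputable def k169 : KT := (.one (nat_lit 0x600000100400700b01020080cf816020611))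
def t169 : k169.all (jb2 57 fl b0) = true := by decide +kernel
noncomputable def k170 : KT := (.br (Nat.shiftLeft (nat_lit 0x6000003) (nat_lit 112)) (.one (nat_lit 0x600000200400700b01040080cf816020611)) (.one (nat_lit 0x600000300400700b01060080cf816020611)))
noncomputable def b171 : BT := .node (nat_lit 0x1) (nat_lit 0x93525f9458003a21000ad6010008800028) .leaf .leaf
def t170 : k170.all (jb2 57 fl b171) = true := by decide +kernel
noncomputable def k171 : KT := (.br (Nat.shiftLeft (nat_lit 0x3800001) (nat_lit 113)) (.one (nat_lit 0x700000100400700b01020080efc16020611)) (.one (nat_lit 0x700000200400700b01040080efc16020611)))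
noncomputable def b172 : BT := .node (nat_lit 0xb) (nat_lit 0x9914b193a926a93627500074b200156f800753200158e0526c4ea27536cdb6854349b24d897e96325f13a8003a99000ac6c0032d9000ad5c0032d8000ca84003a98000ab7c40031c0031c0031c0031c0031c0026100261000f0000f0000f0000f0000f0) .leaf .leaf
def t171 : k171.all (jb2 57 fl b172) = true := by decide +kernel
noncomputable def k172 : KT := (.br (Nat.shiftLeft (nat_lit 0x1) (nat_lit 139)) (.one (nat_lit 0x700000300400700b01060080efc16020611)) (.one (nat_lit 0x800000100400700b0102008110016020611)))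
noncomputable def b173 : BT := .node (nat_lit 0xb) (nat_lit 0x6d992f8a2a93727524dc003a5c0008d680032db000cb602db227493a80032d8000ac7019636d9a4dc003a98000cb6010026b001b0001b0001b0001b00015000150001500015000150000f0000f0) .leaf .leaf
def t172 : k172.all (jb2 57 fl b173) = true := by decide +kernel
noncomputable def k173 : KT := (.br (Nat.shiftLeft (nat_lit 0x8000003) (nat_lit 112)) (.one (nat_lit 0x800000200400700b0104008110016020611)) (.br (Nat.shiftLeft (nat_lit 0x9) (nat_lit 136)) (.one (nat_lit 0x800000300400700b0106008110016020611)) (.one (nat_lit 0x900000100400700b0102008130416020611))))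
noncomputable def b174 : BT := .node (nat_lit 0xb) (nat_lit 0x150d2705160010770002b570658c97c9386d91300a8496328b258c00329f000ca74003226000ad5c0032db000cb603db349ba58c003a5c000ac601002c5002c5002c5002c5002660026600150001500015000150000f0000f0) .leaf .leaf
def t173 : k173.all (jb2 57 fl b174) = true := by decide +kernel
noncomputable def k174 : KT := (.br (Nat.shiftLeft (nat_lit 0x5000001) (nat_lit 113)) (.br (Nat.shiftLeft (nat_lit 0x9000003) (nat_lit 112)) (.one (nat_lit 0x900000200400700b0104008130416020611)) (.br (Nat.shiftLeft (nat_lit 0x5) (nat_lit 137)) (.one (nat_lit 0x900000300400700b0106008130416020611)) (.one (nat_lit 0xa00000100400700b0102008150816020611)))) (.br (Nat.shiftLeft (nat_lit 0xb) (nat_lit 136)) (.br (Nat.shiftLeft (nat_lit 0xa000003) (nat_lit 112)) (.one (nat_lit 0xa00000200400700b0104008150816020611)) (.one (nat_lit 0xa00000300400700b0106008150816020611))) (.br (Nat.shiftLeft (nat_lit 0x5800001) (nat_lit 113)) (.one (nat_lit 0xb00000100400700b0102008170c16020611)) (.one (nat_lit 0xb00000200400700b0104008170c16020611)))))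
noncomputable def b175 : BT := .node (nat_lit 0x1) (nat_lit 0x6d9a58c97cdb2274a4e40032d8000aa8c0032da000ab782000e300028) .leaf .leaf
def t174 : k174.all (jb2 57 fl b175) = true := by decide +kernel
noncomputable def k175 : KT := (.br (Nat.shiftLeft (nat_lit 0x3) (nat_lit 148)) (.br (Nat.shiftLeft (nat_lit 0x800001) (nat_lit 125)) (.br (Nat.shiftLeft (nat_lit 0x1) (nat_lit 148)) (.one (nat_lit 0xb00000300400700b0106008170c16020611)) (.br (Nat.shiftLeft (nat_lit 0x1000001003) (nat_lit 112)) (.one (nat_lit 0x100000100200400700b010402840e036420711)) (.one (nat_lit 0x100000100300400700b010602840e036420711)))) (.br (Nat.shiftLeft (nat_lit 0x2000001003) (nat_lit 112)) (.br (Nat.shiftLeft (nat_lit 0x1) (nat_lit 149)) (.one (nat_lit 0x100000200300400700b010602840e056820711)) (.one (nat_lit 0x200000100200400700b010404880e036420711))) (.br (Nat.shiftLeft (nat_lit 0x1000001) (nat_lit 125)) (.one (nat_lit 0x200000100300400700b010604880e036420711)) (.one (nat_lit 0x200000200300400700b010604880e056820711))))) (.br (Nat.shiftLeft (nat_lit 0x1) (nat_lit 150))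 (.br (Nat.shiftLeft (nat_lit 0x3000001003) (nat_lit 112)) (.one (nat_lit 0x300000100200400700b0104068c0e036420711)) (.br (Nat.shiftLeft (nat_lit 0x1800001) (nat_lit 125)) (.one (nat_lit 0x300000100300400700b0106068c0e036420711)) (.one (nat_lit 0x300000200300400700b0106068c0e056820711)))) (.br (Nat.shiftLeft (nat_lit 0x2000001) (nat_lit 125)) (.br (Nat.shiftLeft (nat_lit 0x4000001003) (nat_lit 112)) (.one (nat_lit 0x400000100200400700b010408900e036420711)) (.one (nat_lit 0x400000100300400700b010608900e036420711))) (.br (Nat.shiftLeft (nat_lit 0x5) (nat_lit 148)) (.one (nat_lit 0x400000200300400700b010608900e056820711)) (.one (nat_lit 0x500000100200400700b01040a940e036420711))))))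
def t175 : k175.all (jb2 57 fl b0) = true := by decide +kernel
noncomputable def k176 : KT := (.br (Nat.shiftLeft (nat_lit 0x3) (nat_lit 149)) (.br (Nat.shiftLeft (nat_lit 0x2800001) (nat_lit 125)) (.one (nat_lit 0x500000100300400700b01060a940e036420711)) (.one (nat_lit 0x500000200300400700b01060a940e056820711))) (.br (Nat.shiftLeft (nat_lit 0x6000001003) (nat_lit 112)) (.one (nat_lit 0x600000100200400700b01040c980e036420711)) (.one (nat_lit 0x600000100300400700b01060c980e036420711))))
def t176 : k176.all (jb2 57 fl b0) = true := by decide +kernel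
noncomputable def k177 : KT := (.br (Nat.shiftLeft (nat_lit 0x7000001003) (nat_lit 112)) (.br (Nat.shiftLeft (nat_lit 0x7) (nat_lit 148)) (.one (nat_lit 0x600000200300400700b01060c980e056820711)) (.one (nat_lit 0x700000100200400700b01040e9c0e036420711))) (.br (Nat.shiftLeft (nat_lit 0x3800001) (nat_lit 125)) (.one (nat_lit 0x700000100300400700b01060e9c0e036420711)) (.br (Nat.shiftLeft (nat_lit 0x1) (nat_lit 151)) (.one (nat_lit 0x700000200300400700b01060e9c0e056820711)) (.one (nat_lit 0x800000100200400700b010410a00e036420711)))))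
noncomputable def b178 : BT := .node (nat_lit 0x1) (nat_lit 0x99149b92f8003a1d000ab8010008800028) .leaf .leaf
def t177 : k177.all (jb2 57 fl b178) = true := by decide +kernel
noncomputable def k178 : KT := (.br (Nat.shiftLeft (nat_lit 0x5) (nat_lit 149)) (.br (Nat.shiftLeft (nat_lit 0x9) (nat_lit 148)) (.br (Nat.shiftLeft (nat_lit 0x4000001) (nat_lit 125)) (.one (nat_lit 0x800000100300400700b010610a00e036420711)) (.one (nat_lit 0x800000200300400700b010610a00e056820711))) (.br (Nat.shiftLeft (nat_lit 0x9000001003) (nat_lit 112)) (.one (nat_lit 0x900000100200400700b010412a40e036420711)) (.br (Nat.shiftLeft (nat_lit 0x4800001) (nat_lit 125)) (.one (nat_lit 0x900000100300400700b010612a40e036420711)) (.one (nat_lit 0x900000200300400700b010612a40e056820711))))) (.br (Nat.shiftLeft (nat_lit 0xb) (nat_lit 148)) (.br (Nat.shiftLeft (nat_lit 0xa000001003) (nat_lit 112)) (.one (nat_lit 0xa00000100200400700b010414a80e036420711)) (.br (Nat.shiftLeft (nat_lit 0x5000001) (nat_lit 125)) (.one (nat_lit 0xa00000100300400700b010614a80e036420711)) (.one (nat_lit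 0xa00000200300400700b010614a80e056820711)))) (.br (Nat.shiftLeft (nat_lit 0xb000001003) (nat_lit 112)) (.one (nat_lit 0xb00000100200400700b010416ac0e036420711)) (.br (Nat.shiftLeft (nat_lit 0x5800001) (nat_lit 125)) (.one (nat_lit 0xb00000100300400700b010616ac0e036420711)) (.one (nat_lit 0xb00000200300400700b010616ac0e056820711))))))
def t178 : k178.all (jb2 57 fl b0) = true := by decide +kernel
noncomputable def s9 : KT := (.br (nat_lit 0x600000300400700b01060080cf816020611) (.br (nat_lit 0x100000300400700b010600802e416020611) (.br (nat_lit 0x700000400700b010000800e0f7c20511) (.br (nat_lit 0x600000400700b010000800e0d7820511) k163 k164) (.br (nat_lit 0x800000400700b010000800e118020511) k165 k166)) (.br (nat_lit 0x500000300400700b01060080af416020611) (.br (nat_lit 0x400000300400700b010600808f016020611) k167 k168) (.br (nat_lit 0x600000100400700b01020080cf816020611) k169 k170))) (.br (nat_lit 0xb00000200400700b0104008170c16020611) (.br (nat_lit 0x800000100400700b0102008110016020611) (.br (nat_lit 0x700000200400700b01040080efc16020611) k171 k172)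 (.br (nat_lit 0x900000100400700b0102008130416020611) k173 k174)) (.br (nat_lit 0x600000100300400700b01060c980e036420711) (.br (nat_lit 0x500000100200400700b01040a940e036420711) k175 k176) (.br (nat_lit 0x800000100200400700b010410a00e036420711) k177 k178))))
noncomputable def u9 : KT := (.one (nat_lit 0x400700b010000800e016020540))
def w9 : u9.all (wj 57 s9) = true := by decide +kernel
def o9 : OkW 57 (jb2 57 fl) u9 := .lift s9 _ (.br _ _ _ (.br _ _ _ (.br _ _ _ (.br _ _ _ (.leaf b0 k163 t163) (.leaf b165 k164 t164)) (.br _ _ _ (.leaf b166 k165 t165) (.leaf b167 k166 t166))) (.br _ _ _ (.br _ _ _ (.leaf b0 k167 t167) (.leaf b0 k168 t168)) (.br _ _ _ (.leaf b0 k169 t169) (.leaf b171 k170 t170)))) (.br _ _ _ (.br _ _ _ (.br _ _ _ (.leaf b172 k171 t171) (.leaf b173 k172 t172)) (.br _ _ _ (.leaf b174 k173 t173) (.leaf b175 k174 t174))) (.br _ _ _ (.br _ _ _ (.leaf b0 k175 t175) (.leaf b0 k176 t176)) (.br _ _ _ (.leaf b178 k177 t177) (.leaf b0 k178 t178))))) w9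
noncomputable def k179 : KT := (.br (Nat.shiftLeft (nat_lit 0x1002003805809) (nat_lit 65)) (.br (Nat.shiftLeft (nat_lit 0x1) (nat_lit 112)) (.br (Nat.shiftLeft (nat_lit 0x2003805809) (nat_lit 65)) (.one (nat_lit 0x400700b011000800e016023500)) (.br (Nat.shiftLeft (nat_lit 0x1001c03) (nat_lit 78)) (.one (nat_lit 0x400700b012000800e016025500)) (.one (nat_lit 0x400700c00d000800e01801b500)))) (.br (Nat.shiftLeft (nat_lit 0x802003805809) (nat_lit 65)) (.one (nat_lit 0x100400700b011200800e016023600)) (.br (Nat.shiftLeft (nat_lit 0x1) (nat_lit 113)) (.one (nat_lit 0x100400700b012200800e016025600)) (.one (nat_lit 0x200400700b011400800e016023600))))) (.br (Nat.shiftLeft (nat_lit 0x1) (nat_lit 124)) (.br (Nat.shiftLeft (nat_lit 0x3) (nat_lit 112)) (.one (nat_lit 0x200400700b012400800e016025600)) (.br (Nat.shiftLeft (nat_lit 0x1802003805809) (nat_lit 65)) (.one (nat_lit 0x300400700b011600800e016023600)) (.one (nat_lit 0x300400700b012600800e016025600)))) (.br (Nat.shiftLeft (nat_lit 0x801) (nat_lit 113)) (.br (Nat.shiftLeft (nat_lit 0x800002003805809) (nat_lit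 65)) (.one (nat_lit 0x100000400700b011000800e036422511)) (.one (nat_lit 0x100000400700b012000800e036424511))) (.br (Nat.shiftLeft (nat_lit 0x801002003805809) (nat_lit 65)) (.one (nat_lit 0x100200400700b011400800e036423700)) (.one (nat_lit 0x100200400700b012400800e036424760))))))
def t179 : k179.all (jb2 57 fl b0) = true := by decide +kernel
noncomputable def k180 : KT := (.one (nat_lit 0x100300400700b011600800e036422760))
def t180 : k180.all (jb2 57 fl b0) = true := by decide +kernel
noncomputable def k181 : KT := (.br (Nat.shiftLeft (nat_lit 0x1) (nat_lit 125)) (.one (nat_lit 0x100300400700b012600800e036424760)) (.br (Nat.shiftLeft (nat_lit 0x1000002003805809) (nat_lit 65)) (.one (nat_lit 0x200000400700b011000800e056822511)) (.one (nat_lit 0x200000400700b012000800e056824511))))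
def t181 : k181.all (jb2 57 fl b0) = true := by decide +kernel
noncomputable def k182 : KT := (.one (nat_lit 0x200300400700b011600800e056822760))
def t182 : k182.all (jb2 57 fl b0) = true := by decide +kernel
noncomputable def k183 : KT := (.br (Nat.shiftLeft (nat_lit 0x1) (nat_lit 126)) (.br (Nat.shiftLeft (nat_lit 0x3) (nat_lit 124)) (.one (nat_lit 0x200300400700b012600800e056824760)) (.br (Nat.shiftLeft (nat_lit 0x1800002003805809) (nat_lit 65)) (.one (nat_lit 0x300000400700b011000800e076c22511)) (.one (nat_lit 0x300000400700b012000800e076c24511)))) (.br (Nat.shiftLeft (nat_lit 0x2000002003805809) (nat_lit 65)) (.one (nat_lit 0x400000400700b011000800e097022511)) (.br (Nat.shiftLeft (nat_lit 0x5) (nat_lit 124)) (.one (nat_lit 0x400000400700b012000800e097024511)) (.one (nat_lit 0x500000400700b011000800e0b7422511)))))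
def t183 : k183.all (jb2 57 fl b0) = true := by decide +kernel
noncomputable def k184 : KT := (.br (Nat.shiftLeft (nat_lit 0x3) (nat_lit 125)) (.one (nat_lit 0x500000400700b012000800e0b7424511)) (.br (Nat.shiftLeft (nat_lit 0x3000002003805809) (nat_lit 65)) (.one (nat_lit 0x600000400700b011000800e0d7822511)) (.one (nat_lit 0x600000400700b012000800e0d7824511))))
def t184 : k184.all (jb2 57 fl b0) = true := by decide +kernel
noncomputable def k185 : KT := (.br (Nat.shiftLeft (nat_lit 0x3800002003805809) (nat_lit 65)) (.one (nat_lit 0x700000400700b011000800e0f7c22511)) (.one (nat_lit 0x700000400700b012000800e0f7c24511)))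
noncomputable def b186 : BT := .node (nat_lit 0x1) (nat_lit 0x9632751458003a98000ac6810008800028) .leaf .leaf
def t185 : k185.all (jb2 57 fl b186) = true := by decide +kernel
noncomputable def k186 : KT := (.br (Nat.shiftLeft (nat_lit 0x4000002003805809) (nat_lit 65)) (.one (nat_lit 0x800000400700b011000800e118022511)) (.br (Nat.shiftLeft (nat_lit 0x9) (nat_lit 124)) (.one (nat_lit 0x800000400700b012000800e118024511)) (.one (nat_lit 0x900000400700b011000800e138422511))))
noncomputable def b187 : BT := .node (nat_lit 0xb) (nat_lit 0x9636d993a8003a98000ac6c193749c13012c6db42a1000753200157080084b20011cb85b644ea27524d52705166d936cc980001d4c0004640001d2e80056ae001d4c80045ca1c9ab6cd2c600212c80056300cb112fca2c9626d9b6cc003a5d000ac6c004259000cb6020043c0043c003dc003dc003dc003210020b001ab001ab001ab000f0000f0) .leaf .leaf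
def t186 : k186.all (jb2 57 fl b187) = true := by decide +kernel
noncomputable def k187 : KT := (.br (Nat.shiftLeft (nat_lit 0x1000000802003805809) (nat_lit 65)) (.br (Nat.shiftLeft (nat_lit 0x800000802003805809) (nat_lit 65)) (.br (Nat.shiftLeft (nat_lit 0xb) (nat_lit 124)) (.br (Nat.shiftLeft (nat_lit 0x5) (nat_lit 125)) (.one (nat_lit 0x900000400700b012000800e138424511)) (.br (Nat.shiftLeft (nat_lit 0x5000002003805809) (nat_lit 65)) (.one (nat_lit 0xa00000400700b011000800e158822511)) (.one (nat_lit 0xa00000400700b012000800e158824511)))) (.br (Nat.shiftLeft (nat_lit 0x5800002003805809) (nat_lit 65)) (.one (nat_lit 0xb00000400700b011000800e178c22511)) (.br (Nat.shiftLeft (nat_lit 0x1) (nat_lit 136)) (.one (nat_lit 0xb00000400700b012000800e178c24511)) (.one (nat_lit 0x100000100400700b011200802e416022611))))) (.br (Nat.shiftLeft (nat_lit 0x1000003) (nat_lit 112)) (.br (Nat.shiftLeft (nat_lit 0x800001) (nat_lit 113)) (.one (nat_lit 0x100000100400700b012200802e416024611)) (.br (Nat.shiftLeft (nat_lit 0x800001002003805809) (nat_lit 65)) (.one (nat_lit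 0x100000200400700b011400802e416022611)) (.one (nat_lit 0x100000200400700b012400802e416024611)))) (.br (Nat.shiftLeft (nat_lit 0x800001802003805809) (nat_lit 65)) (.one (nat_lit 0x100000300400700b011600802e416022611)) (.br (Nat.shiftLeft (nat_lit 0x1) (nat_lit 137)) (.one (nat_lit 0x100000300400700b012600802e416024611)) (.one (nat_lit 0x200000100400700b011200804e816022611)))))) (.br (Nat.shiftLeft (nat_lit 0x1800000802003805809) (nat_lit 65)) (.br (Nat.shiftLeft (nat_lit 0x2000003) (nat_lit 112)) (.br (Nat.shiftLeft (nat_lit 0x1000001) (nat_lit 113)) (.one (nat_lit 0x200000100400700b012200804e816024611)) (.br (Nat.shiftLeft (nat_lit 0x1000001002003805809) (nat_lit 65)) (.one (nat_lit 0x200000200400700b011400804e816022611)) (.one (nat_lit 0x200000200400700b012400804e816024611)))) (.br (Nat.shiftLeft (nat_lit 0x1000001802003805809) (nat_lit 65)) (.one (nat_lit 0x200000300400700b011600804e816022611)) (.br (Nat.shiftLeft (nat_lit 0x3) (nat_lit 136)) (.one (nat_lit 0x200000300400700b012600804e816024611)) (.one (nat_lit 0x300000100400700b011200806ec16022611)))))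 (.br (Nat.shiftLeft (nat_lit 0x3000003) (nat_lit 112)) (.br (Nat.shiftLeft (nat_lit 0x1800001) (nat_lit 113)) (.one (nat_lit 0x300000100400700b012200806ec16024611)) (.br (Nat.shiftLeft (nat_lit 0x1800001002003805809) (nat_lit 65)) (.one (nat_lit 0x300000200400700b011400806ec16022611)) (.one (nat_lit 0x300000200400700b012400806ec16024611)))) (.br (Nat.shiftLeft (nat_lit 0x1800001802003805809) (nat_lit 65)) (.one (nat_lit 0x300000300400700b011600806ec16022611)) (.br (Nat.shiftLeft (nat_lit 0x1) (nat_lit 138)) (.one (nat_lit 0x300000300400700b012600806ec16024611)) (.one (nat_lit 0x400000100400700b011200808f016022611)))))))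
noncomputable def b188 : BT := .node (nat_lit 0x2) (nat_lit 0x25889d4963000cb700032d8076cd2709636d9a4e097edb2275150c003a98000ac6000329d000ab7c003a1f0008e643001b2001520003c) .leaf .leaf
def t187 : k187.all (jb2 57 fl b188) = true := by decide +kernel
noncomputable def k188 : KT := (.br (Nat.shiftLeft (nat_lit 0x4000003) (nat_lit 112)) (.br (Nat.shiftLeft (nat_lit 0x2000001) (nat_lit 113)) (.one (nat_lit 0x400000100400700b012200808f016024611)) (.br (Nat.shiftLeft (nat_lit 0x2000001002003805809) (nat_lit 65)) (.one (nat_lit 0x400000200400700b011400808f016022611)) (.one (nat_lit 0x400000200400700b012400808f016024611)))) (.br (Nat.shiftLeft (nat_lit 0x5) (nat_lit 136)) (.br (Nat.shiftLeft (nat_lit 0x2000001802003805809) (nat_lit 65)) (.one (nat_lit 0x400000300400700b011600808f016022611)) (.one (nat_lit 0x400000300400700b012600808f016024611))) (.br (Nat.shiftLeft (nat_lit 0x2800000802003805809) (nat_lit 65)) (.one (nat_lit 0x500000100400700b01120080af416022611)) (.one (nat_lit 0x500000100400700b01220080af416024611)))))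
def t188 : k188.all (jb2 57 fl b0) = true := by decide +kernel
noncomputable def k189 : KT := (.br (Nat.shiftLeft (nat_lit 0x5000003) (nat_lit 112)) (.br (Nat.shiftLeft (nat_lit 0x2800001002003805809) (nat_lit 65)) (.one (nat_lit 0x500000200400700b01140080af416022611)) (.one (nat_lit 0x500000200400700b01240080af416024611))) (.br (Nat.shiftLeft (nat_lit 0x2800001802003805809) (nat_lit 65)) (.one (nat_lit 0x500000300400700b01160080af416022611)) (.one (nat_lit 0x500000300400700b01260080af416024611))))
def t189 : k189.all (jb2 57 fl b0) = true := by decide +kernel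
noncomputable def k190 : KT := (.br (Nat.shiftLeft (nat_lit 0x3000000802003805809) (nat_lit 65)) (.one (nat_lit 0x600000100400700b01120080cf816022611)) (.one (nat_lit 0x600000100400700b01220080cf816024611)))
def t190 : k190.all (jb2 57 fl b0) = true := by decide +kernel
noncomputable def k191 : KT := (.br (Nat.shiftLeft (nat_lit 0x6000003) (nat_lit 112)) (.br (Nat.shiftLeft (nat_lit 0x3000001002003805809) (nat_lit 65)) (.one (nat_lit 0x600000200400700b01140080cf816022611)) (.one (nat_lit 0x600000200400700b01240080cf816024611))) (.br (Nat.shiftLeft (nat_lit 0x3000001802003805809) (nat_lit 65)) (.one (nat_lit 0x600000300400700b01160080cf816022611)) (.one (nat_lit 0x600000300400700b01260080cf816024611))))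
def t191 : k191.all (jb2 57 fl b0) = true := by decide +kernel
noncomputable def k192 : KT := (.br (Nat.shiftLeft (nat_lit 0x3800000802003805809) (nat_lit 65)) (.one (nat_lit 0x700000100400700b01120080efc16022611)) (.br (Nat.shiftLeft (nat_lit 0x3800001) (nat_lit 113)) (.one (nat_lit 0x700000100400700b01220080efc16024611)) (.one (nat_lit 0x700000200400700b01140080efc16022611))))
def t192 : k192.all (jb2 57 fl b0) = true := by decide +kernel
noncomputable def k193 : KT := (.br (Nat.shiftLeft (nat_lit 0x3800001802003805809) (nat_lit 65)) (.br (Nat.shiftLeft (nat_lit 0x7000003) (nat_lit 112)) (.one (nat_lit 0x700000200400700b01240080efc16024611)) (.one (nat_lit 0x700000300400700b01160080efc16022611))) (.br (Nat.shiftLeft (nat_lit 0x1) (nat_lit 139)) (.one (nat_lit 0x700000300400700b01260080efc16024611)) (.br (Nat.shiftLeft (nat_lit 0x4000000802003805809) (nat_lit 65)) (.one (nat_lit 0x800000100400700b0112008110016022611)) (.one (nat_lit 0x800000100400700b0122008110016024611)))))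
def t193 : k193.all (jb2 57 fl b0) = true := by decide +kernel
noncomputable def k194 : KT := (.br (Nat.shiftLeft (nat_lit 0x4000001802003805809) (nat_lit 65)) (.br (Nat.shiftLeft (nat_lit 0x4000001002003805809) (nat_lit 65)) (.one (nat_lit 0x800000200400700b0114008110016022611)) (.br (Nat.shiftLeft (nat_lit 0x8000003) (nat_lit 112)) (.one (nat_lit 0x800000200400700b0124008110016024611)) (.one (nat_lit 0x800000300400700b0116008110016022611)))) (.br (Nat.shiftLeft (nat_lit 0x4800000802003805809) (nat_lit 65)) (.br (Nat.shiftLeft (nat_lit 0x9) (nat_lit 136)) (.one (nat_lit 0x800000300400700b0126008110016024611)) (.one (nat_lit 0x900000100400700b0112008130416022611))) (.br (Nat.shiftLeft (nat_lit 0x4800001) (nat_lit 113)) (.one (nat_lit 0x900000100400700b0122008130416024611)) (.one (nat_lit 0x900000200400700b0114008130416022611)))))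
def t194 : k194.all (jb2 57 fl b0) = true := by decide +kernel
noncomputable def k195 : KT := (.br (Nat.shiftLeft (nat_lit 0xb) (nat_lit 136)) (.br (Nat.shiftLeft (nat_lit 0x5000000802003805809) (nat_lit 65)) (.br (Nat.shiftLeft (nat_lit 0x4800001802003805809) (nat_lit 65)) (.br (Nat.shiftLeft (nat_lit 0x9000003) (nat_lit 112)) (.one (nat_lit 0x900000200400700b0124008130416024611)) (.one (nat_lit 0x900000300400700b0116008130416022611))) (.br (Nat.shiftLeft (nat_lit 0x5) (nat_lit 137)) (.one (nat_lit 0x900000300400700b0126008130416024611)) (.one (nat_lit 0xa00000100400700b0112008150816022611)))) (.br (Nat.shiftLeft (nat_lit 0x5000001002003805809) (nat_lit 65)) (.br (Nat.shiftLeft (nat_lit 0x5000001) (nat_lit 113)) (.one (nat_lit 0xa00000100400700b0122008150816024611)) (.one (nat_lit 0xa00000200400700b0114008150816022611))) (.br (Nat.shiftLeft (nat_lit 0xa000003) (nat_lit 112)) (.one (nat_lit 0xa00000200400700b0124008150816024611)) (.br (Nat.shiftLeft (nat_lit 0x5000001802003805809) (nat_lit 65)) (.one (nat_lit 0xa00000300400700b0116008150816022611))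 (.one (nat_lit 0xa00000300400700b0126008150816024611)))))) (.br (Nat.shiftLeft (nat_lit 0xb000003) (nat_lit 112)) (.br (Nat.shiftLeft (nat_lit 0x5800001) (nat_lit 113)) (.br (Nat.shiftLeft (nat_lit 0x5800000802003805809) (nat_lit 65)) (.one (nat_lit 0xb00000100400700b0112008170c16022611)) (.one (nat_lit 0xb00000100400700b0122008170c16024611))) (.br (Nat.shiftLeft (nat_lit 0x5800001002003805809) (nat_lit 65)) (.one (nat_lit 0xb00000200400700b0114008170c16022611)) (.one (nat_lit 0xb00000200400700b0124008170c16024611)))) (.br (Nat.shiftLeft (nat_lit 0x1) (nat_lit 148)) (.br (Nat.shiftLeft (nat_lit 0x5800001802003805809) (nat_lit 65)) (.one (nat_lit 0xb00000300400700b0116008170c16022611)) (.one (nat_lit 0xb00000300400700b0126008170c16024611))) (.br (Nat.shiftLeft (nat_lit 0x1) (nat_lit 149)) (.one (nat_lit 0x100000100200400700b011402840e036422711)) (.br (Nat.shiftLeft (nat_lit 0x3) (nat_lit 148)) (.one (nat_lit 0x200000100200400700b011404880e036422711)) (.one (nat_lit 0x300000100200400700b0114068c0e036422711)))))))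
def t195 : k195.all (jb2 57 fl b0) = true := by decide +kernel
noncomputable def k196 : KT := (.br (Nat.shiftLeft (nat_lit 0x7) (nat_lit 148)) (.br (Nat.shiftLeft (nat_lit 0x5) (nat_lit 148)) (.one (nat_lit 0x400000100200400700b011408900e036422711)) (.br (Nat.shiftLeft (nat_lit 0x3) (nat_lit 149)) (.one (nat_lit 0x500000100200400700b01140a940e036422711)) (.one (nat_lit 0x600000100200400700b01140c980e036422711)))) (.br (Nat.shiftLeft (nat_lit 0x1) (nat_lit 151)) (.one (nat_lit 0x700000100200400700b01140e9c0e036422711)) (.br (Nat.shiftLeft (nat_lit 0x9) (nat_lit 148)) (.one (nat_lit 0x800000100200400700b011410a00e036422711)) (.one (nat_lit 0x900000100200400700b011412a40e036422711)))))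
def t196 : k196.all (jb2 57 fl b0) = true := by decide +kernel
noncomputable def k197 : KT := (.br (Nat.shiftLeft (nat_lit 0xb) (nat_lit 148)) (.one (nat_lit 0xa00000100200400700b011414a80e036422711)) (.one (nat_lit 0xb00000100200400700b011416ac0e036422711)))
def t197 : k197.all (jb2 57 fl b0) = true := by decide +kernel
noncomputable def s10 : KT := (.br (nat_lit 0x400000100400700b011200808f016022611) (.br (nat_lit 0x200300400700b011600800e056822760) (.br (nat_lit 0x100300400700b011600800e036422760) (.br (nat_lit 0x100200400700b012400800e036424760) k179 k180) (.br (nat_lit 0x200000400700b012000800e056824511) k181 k182)) (.br (nat_lit 0x600000400700b012000800e0d7824511) (.br (nat_lit 0x500000400700b011000800e0b7422511) k183 k184) (.br (nat_lit 0x700000400700b012000800e0f7c24511) k185 (.br (nat_lit 0x900000400700b011000800e138422511) k186 k187)))) (.br (nat_lit 0x700000200400700b01140080efc16022611) (.br (nat_lit 0x500000300400700b01260080af416024611) (.br (nat_lit 0x500000100400700b01220080af416024611) k188 k189) (.br (nat_lit 0x600000100400700b01220080cf816024611)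 k190 (.br (nat_lit 0x600000300400700b01260080cf816024611) k191 k192))) (.br (nat_lit 0x900000200400700b0114008130416022611) (.br (nat_lit 0x800000100400700b0122008110016024611) k193 k194) (.br (nat_lit 0x300000100200400700b0114068c0e036422711) k195 (.br (nat_lit 0x900000100200400700b011412a40e036422711) k196 k197)))))
noncomputable def u10 : KT := (.br (Nat.shiftLeft (nat_lit 0x2003805809) (nat_lit 65)) (.one (nat_lit 0x400700b011000800e016022540)) (.br (Nat.shiftLeft (nat_lit 0x1001c03) (nat_lit 78)) (.one (nat_lit 0x400700b012000800e016024540)) (.one (nat_lit 0x400700c00d000800e01801b500))))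
def w10 : u10.all (wj 57 s10) = true := by decide +kernel
def o10 : OkW 57 (jb2 57 fl) u10 := .lift s10 _ (.br _ _ _ (.br _ _ _ (.br _ _ _ (.br _ _ _ (.leaf b0 k179 t179) (.leaf b0 k180 t180)) (.br _ _ _ (.leaf b0 k181 t181) (.leaf b0 k182 t182))) (.br _ _ _ (.br _ _ _ (.leaf b0 k183 t183) (.leaf b0 k184 t184)) (.br _ _ _ (.leaf b186 k185 t185) (.br _ _ _ (.leaf b187 k186 t186) (.leaf b188 k187 t187))))) (.br _ _ _ (.br _ _ _ (.br _ _ _ (.leaf b0 k188 t188) (.leaf b0 k189 t189)) (.br _ _ _ (.leaf b0 k190 t190) (.br _ _ _ (.leaf b0 k191 t191) (.leaf b0 k192 t192)))) (.br _ _ _ (.br _ _ _ (.leaf b0 k193 t193) (.leaf b0 k194 t194)) (.br _ _ _ (.leaf b0 k195 t195) (.br _ _ _ (.leaf b0 k196 t196) (.leaf b0 k197 t197)))))) w10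
noncomputable def k198 : KT := (.br (Nat.shiftLeft (nat_lit 0x1003) (nat_lit 112)) (.br (Nat.shiftLeft (nat_lit 0x3) (nat_lit 112)) (.br (Nat.shiftLeft (nat_lit 0x1) (nat_lit 112)) (.one (nat_lit 0x400700c00e000800e01801d500)) (.br (Nat.shiftLeft (nat_lit 0x1) (nat_lit 113)) (.one (nat_lit 0x100400700c00e200800e01801d600)) (.one (nat_lit 0x200400700c00e400800e01801d600)))) (.br (Nat.shiftLeft (nat_lit 0x1) (nat_lit 124)) (.one (nat_lit 0x300400700c00e600800e01801d600)) (.br (Nat.shiftLeft (nat_lit 0x801) (nat_lit 113)) (.one (nat_lit 0x100000400700c00e000800e03841c511)) (.one (nat_lit 0x100200400700c00e400800e03841d700))))) (.br (Nat.shiftLeft (nat_lit 0x3) (nat_lit 124)) (.br (Nat.shiftLeft (nat_lit 0x1) (nat_lit 125)) (.one (nat_lit 0x100300400700c00e600800e03841d700)) (.br (Nat.shiftLeft (nat_lit 0x1001) (nat_lit 113)) (.one (nat_lit 0x200000400700c00e000800e05881c511)) (.one (nat_lit 0x200300400700c00e600800e05881d700)))) (.br (Nat.shiftLeft (nat_lit 0x5) (nat_lit 124)) (.br (Nat.shiftLeft (nat_lit 0x1) (nat_lit 126)) (.one (nat_lit 0x300000400700c00e000800e078c1c511))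 (.one (nat_lit 0x400000400700c00e000800e09901c511))) (.br (Nat.shiftLeft (nat_lit 0x3) (nat_lit 125)) (.one (nat_lit 0x500000400700c00e000800e0b941c511)) (.one (nat_lit 0x600000400700c00e000800e0d981c511))))))
noncomputable def b199 : BT := .node (nat_lit 0x1) (nat_lit 0x2a1a4d497a5424b224d40041db000ab7c003a5a000e9642000e200028) .leaf .leaf
def t198 : k198.all (jb2 57 fl b199) = true := by decide +kernel
noncomputable def k199 : KT := (.one (nat_lit 0x700000400700c00e000800e0f9c1c511))
noncomputable def b200 : BT := .node (nat_lit 0x11) (nat_lit 0x54228b12f1bc29646da24d526c4eb000e96c003260000cb6000329a000e968002b1d0f6cc97c9366f0b6d097a00195000055b400194d00055be16f0a4dca2c5146da150c00325d000ad5c0049da0008e5c2003f3003f3003f3003f3003f3003f3003f3003f3003f3002de0022300168001680016800168001680016800168) .leaf .leaf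
def t199 : k199.all (jb2 57 fl b200) = true := by decide +kernel
noncomputable def k200 : KT := (.one (nat_lit 0x800000400700c00e000800e11a01c511))
noncomputable def b201 : BT := .node (nat_lit 0xb) (nat_lit 0x36cd26e51649b13a097a00196c80056ae00196c000653e16d993aca869642751458003a5b0008e60003a98000ac682002660026600266002660026600266001ab000f0000f0000f0000f0000f0) .leaf .leaf
def t200 : k200.all (jb2 57 fl b201) = true := by decide +kernel
noncomputable def k201 : KT := (.br (Nat.shiftLeft (nat_lit 0x5) (nat_lit 125)) (.one (nat_lit 0x900000400700c00e000800e13a41c511)) (.one (nat_lit 0xa00000400700c00e000800e15a81c511)))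
noncomputable def b202 : BT := .node (nat_lit 0x2b) (nat_lit 0x24d52725166d993ad27000210d80046b800198b80055ba16d9a4e09d454249c145000329d000ac680041de000cb602db349c15092c89374b200084340011cb80074b600196c85b669634b2000753000158c83b689644b19459270938006ea6001ab1800508680032d80aa136d09d00024ed00065b00cb1a4e1270001d4c80065380c9b12f89d4001d2e80056340cb293ac9d6001d2d80065b00ed9a4e09d4db228ba64400329d002ac6801329d002ad5c2db34b1a4e00032d8000ca741009560089b0089b0089b0089b0089b0089b0089b0089b0089b007e0007e0007e0007e000725006c50060a005ab005ab005ab005ab005ab005ab005ab005ab005ab005ab005ab005ab0054b0054b0054b0054b0054b0054b0054b004eb004eb0048b0048b0048b003d00037000370) .leaf .leaf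
def t201 : k201.all (jb2 57 fl b202) = true := by decide +kernel
noncomputable def k202 : KT := (.br (Nat.shiftLeft (nat_lit 0x1) (nat_lit 136)) (.br (Nat.shiftLeft (nat_lit 0x3) (nat_lit 126)) (.one (nat_lit 0xb00000400700c00e000800e17ac1c511)) (.one (nat_lit 0xc00000400700c00e000800e19b01c511))) (.br (Nat.shiftLeft (nat_lit 0x800001) (nat_lit 113)) (.one (nat_lit 0x100000100400700c00e200802e41801c611)) (.br (Nat.shiftLeft (nat_lit 0x1000003) (nat_lit 112)) (.one (nat_lit 0x100000200400700c00e400802e41801c611)) (.one (nat_lit 0x100000300400700c00e600802e41801c611)))))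
def t202 : k202.all (jb2 57 fl b0) = true := by decide +kernel
noncomputable def k203 : KT := (.br (Nat.shiftLeft (nat_lit 0x3) (nat_lit 136)) (.br (Nat.shiftLeft (nat_lit 0x1000001) (nat_lit 113)) (.br (Nat.shiftLeft (nat_lit 0x1) (nat_lit 137)) (.one (nat_lit 0x100200300400700c00e600802e45881c870)) (.one (nat_lit 0x200000100400700c00e200804e81801c611))) (.br (Nat.shiftLeft (nat_lit 0x2000003) (nat_lit 112)) (.one (nat_lit 0x200000200400700c00e400804e81801c611)) (.one (nat_lit 0x200000300400700c00e600804e81801c611)))) (.br (Nat.shiftLeft (nat_lit 0x3000003) (nat_lit 112)) (.br (Nat.shiftLeft (nat_lit 0x1800001) (nat_lit 113)) (.one (nat_lit 0x300000100400700c00e200806ec1801c611)) (.one (nat_lit 0x300000200400700c00e400806ec1801c611))) (.br (Nat.shiftLeft (nat_lit 0x1) (nat_lit 138)) (.one (nat_lit 0x300000300400700c00e600806ec1801c611)) (.one (nat_lit 0x400000100400700c00e200808f01801c611)))))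
def t203 : k203.all (jb2 57 fl b0) = true := by decide +kernel
noncomputable def k204 : KT := (.br (Nat.shiftLeft (nat_lit 0x4000003) (nat_lit 112)) (.one (nat_lit 0x400000200400700c00e400808f01801c611)) (.br (Nat.shiftLeft (nat_lit 0x5) (nat_lit 136)) (.one (nat_lit 0x400000300400700c00e600808f01801c611)) (.one (nat_lit 0x500000100400700c00e20080af41801c611))))
noncomputable def b205 : BT := .node (nat_lit 0x1) (nat_lit 0x9642759458003a1e000ac6810008800028) .leaf .leaf
def t204 : k204.all (jb2 57 fl b205) = true := by decide +kernel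
noncomputable def k205 : KT := (.br (Nat.shiftLeft (nat_lit 0x5000003) (nat_lit 112)) (.one (nat_lit 0x500000200400700c00e40080af41801c611)) (.one (nat_lit 0x500000300400700c00e60080af41801c611)))
def t205 : k205.all (jb2 57 fl b0) = true := by decide +kernel
noncomputable def k206 : KT := (.one (nat_lit 0x600000100400700c00e20080cf81801c611))
noncomputable def b207 : BT := .node (nat_lit 0x1) (nat_lit 0x6d9a4d4a889916d992f8003299000ae58003a59000aa882000e300028) .leaf .leaf
def t206 : k206.all (jb2 57 fl b207) = true := by decide +kernel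
noncomputable def k207 : KT := (.one (nat_lit 0x600000200400700c00e40080cf81801c611))
noncomputable def b208 : BT := .node (nat_lit 0x17) (nat_lit 0x6d924d92c6001d2d00056300ed936cca2cde125ea590003a980008d6c00329f000ab6829914c913ac0032d8000c98419352759458003a5c000ad641003bb003bb003bb003bb0035b0035b0035b0035b0035b0035b0035b0035b0035b0035b002a0002a000240002400024000240002400024000240001e0) .leaf .leaf
def t207 : k207.all (jb2 57 fl b208) = true := by decide +kernel
noncomputable def k208 : KT := (.one (nat_lit 0x600000300400700c00e60080cf81801c611))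
noncomputable def b209 : BT := .node (nat_lit 0x1) (nat_lit 0x9916d9a4d4003a59000cb6010008800028) .leaf .leaf
def t208 : k208.all (jb2 57 fl b209) = true := by decide +kernel
noncomputable def k209 : KT := (.one (nat_lit 0x700000100400700c00e20080efc1801c611))
noncomputable def b210 : BT := .node (nat_lit 0x17) (nat_lit 0x6d9a4d897600196c80055bc0cc8b6d12c89642759459bc2db42a1800843400158c000743c00158d00065340015ab87231275b6cd26c4bd28b00055c000156c80074b80015ac0526c4e828b00074b200198b83b66db42a1a58d26e5166d99458a8600996c80356ae011d2d80156ae001d2d80247301cb1a58ca869916da13ac003a98000ad60003a5a000ab7c20064300643006430064300643005e3004cd004cd004cd004cd004cd004cd0041100411003b1003b10029b0029b0029b001e0001e0001e0001e0001e0) .leaf .leaf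
def t209 : k209.all (jb2 57 fl b210) = true := by decide +kernel
noncomputable def k210 : KT := (.br (Nat.shiftLeft (nat_lit 0x7000003) (nat_lit 112)) (.one (nat_lit 0x700000200400700c00e40080efc1801c611)) (.one (nat_lit 0x700000300400700c00e60080efc1801c611)))
noncomputable def b211 : BT := .node (nat_lit 0xb) (nat_lit 0x12316d992f40032990008b88199149ba58d26a4eb27400074b600194c800663200196c0523125e259126c4bc28b15c526e4ea000ab7c002ada000e878002b590010674002b1c0f785b664eb6d915c92c6db26d9950c003a590008c80003356000ac600032d8000ad603004390043900439003d8003d80031d0031d0031d0031d0020600206000f0) .leaf .leaf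
def t210 : k210.all (jb2 57 fl b211) = true := by decide +kernel
noncomputable def k211 : KT := (.one (nat_lit 0x800000100400700c00e200811001801c611))
noncomputable def b212 : BT := .node (nat_lit 0xb) (nat_lit 0x258db6854391892f5270db3275a58c0042590008e5c0032db0008b7800329f000ac6039914b293ac003a5b000ab78193827413a8003a59000ac6c1002c6001b0001b0001b0001b0001500015000150000f0000f0000f0000f0) .leaf .leaf
def t211 : k211.all (jb2 57 fl b212) = true := by decide +kernel
noncomputable def k212 : KT := (.br (Nat.shiftLeft (nat_lit 0x8000003) (nat_lit 112)) (.one (nat_lit 0x800000200400700c00e400811001801c611)) (.one (nat_lit 0x800000300400700c00e600811001801c611)))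
noncomputable def b213 : BT := .node (nat_lit 0x1) (nat_lit 0x4b1a4dca864e828b12ec0041db000ad60003a98000ca742000e300028) .leaf .leaf
def t212 : k212.all (jb2 57 fl b213) = true := by decide +kernel
noncomputable def k213 : KT := (.br (Nat.shiftLeft (nat_lit 0x4800001) (nat_lit 113)) (.one (nat_lit 0x900000100400700c00e200813041801c611)) (.br (Nat.shiftLeft (nat_lit 0x9000003) (nat_lit 112)) (.one (nat_lit 0x900000200400700c00e400813041801c611)) (.one (nat_lit 0x900000300400700c00e600813041801c611))))
noncomputable def b214 : BT := .node (nat_lit 0x1) (nat_lit 0xdb36d9a58c003a99000ac6010008800028) .leaf .leaf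
def t213 : k213.all (jb2 57 fl b214) = true := by decide +kernel
noncomputable def k214 : KT := (.br (Nat.shiftLeft (nat_lit 0xb) (nat_lit 136)) (.br (Nat.shiftLeft (nat_lit 0x5000001) (nat_lit 113)) (.one (nat_lit 0xa00000100400700c00e200815081801c611)) (.br (Nat.shiftLeft (nat_lit 0xa000003) (nat_lit 112)) (.one (nat_lit 0xa00000200400700c00e400815081801c611)) (.one (nat_lit 0xa00000300400700c00e600815081801c611)))) (.br (Nat.shiftLeft (nat_lit 0x5800001) (nat_lit 113)) (.one (nat_lit 0xb00000100400700c00e2008170c1801c611)) (.br (Nat.shiftLeft (nat_lit 0xb000003) (nat_lit 112)) (.one (nat_lit 0xb00000200400700c00e4008170c1801c611)) (.one (nat_lit 0xb00000300400700c00e6008170c1801c611)))))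
def t214 : k214.all (jb2 57 fl b0) = true := by decide +kernel
noncomputable def k215 : KT := (.br (Nat.shiftLeft (nat_lit 0x2000001003) (nat_lit 112)) (.br (Nat.shiftLeft (nat_lit 0x1) (nat_lit 148)) (.br (Nat.shiftLeft (nat_lit 0x6000001) (nat_lit 113)) (.one (nat_lit 0xc00000100400700c00e200819101801c611)) (.br (Nat.shiftLeft (nat_lit 0xc000003) (nat_lit 112)) (.one (nat_lit 0xc00000200400700c00e400819101801c611)) (.one (nat_lit 0xc00000300400700c00e600819101801c611)))) (.br (Nat.shiftLeft (nat_lit 0x800001) (nat_lit 125)) (.br (Nat.shiftLeft (nat_lit 0x1000001003) (nat_lit 112)) (.one (nat_lit 0x100000100200400700c00e402840e03841c711)) (.one (nat_lit 0x100000100300400700c00e602840e03841c711))) (.br (Nat.shiftLeft (nat_lit 0x1) (nat_lit 149)) (.one (nat_lit 0x100000200300400700c00e602840e05881c711)) (.one (nat_lit 0x200000100200400700c00e404880e03841c711))))) (.br (Nat.shiftLeft (nat_lit 0x1800001) (nat_lit 125)) (.br (Nat.shiftLeft (nat_lit 0x3) (nat_lit 148)) (.br (Nat.shiftLeft (nat_lit 0x1000001) (nat_lit 125)) (.one (nat_lit 0x200000100300400700c00e604880e03841c711))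 (.one (nat_lit 0x200000200300400700c00e604880e05881c711))) (.br (Nat.shiftLeft (nat_lit 0x3000001003) (nat_lit 112)) (.one (nat_lit 0x300000100200400700c00e4068c0e03841c711)) (.one (nat_lit 0x300000100300400700c00e6068c0e03841c711)))) (.br (Nat.shiftLeft (nat_lit 0x4000001003) (nat_lit 112)) (.br (Nat.shiftLeft (nat_lit 0x1) (nat_lit 150)) (.one (nat_lit 0x300000200300400700c00e6068c0e05881c711)) (.one (nat_lit 0x400000100200400700c00e408900e03841c711))) (.br (Nat.shiftLeft (nat_lit 0x2000001) (nat_lit 125)) (.one (nat_lit 0x400000100300400700c00e608900e03841c711)) (.one (nat_lit 0x400000200300400700c00e608900e05881c711))))))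
def t215 : k215.all (jb2 57 fl b0) = true := by decide +kernel
noncomputable def k216 : KT := (.br (Nat.shiftLeft (nat_lit 0x5000001003) (nat_lit 112)) (.one (nat_lit 0x500000100200400700c00e40a940e03841c711)) (.one (nat_lit 0x500000100300400700c00e60a940e03841c711)))
noncomputable def b217 : BT := .node (nat_lit 0x2f) (nat_lit 0xdb225ea4d52684bc28b800654000156d000743c0015ad052685442b93784978517000e964002bd5000e87800231d0b7852c6934004ca6400329906644978517000e878002add076c8ae4992000cd58002b1807785268934000ca640032990646254449aa58ca2c935000ce540022db000cc640032990a4d4a2c572000e86c002bd506644a885a1000e868002b97076c8a889356f0a4d097b23149aa648003356000ab68003299000aa88003a590008d6030094800948009480094800948009480094800948009480094800948009480088d007d2007d2007d200772007720077200772007720077200772007720077200772007720077200712006b2006b2006b200652006520065200652006520065200652006520065200596005960059600536004d6004d6003c0) .leaf .leaf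
def t216 : k216.all (jb2 57 fl b217) = true := by decide +kernel
noncomputable def k217 : KT := (.br (Nat.shiftLeft (nat_lit 0x3) (nat_lit 149)) (.one (nat_lit 0x500000200300400700c00e60a940e05881c711)) (.one (nat_lit 0x600000100200400700c00e40c980e03841c711)))
noncomputable def b218 : BT := .node (nat_lit 0xb) (nat_lit 0x1b6493525ec8c5b664bd000ca68002ae0000ca640022e20b6cca8893449a12f8a2c0019ca80055b2001d2e80056b2149a92f0a2c93525f1458003a1e000ad64003a5d000ad6020032100321003210032100321003210026600266001ab000f0000f0000f0) .leaf .leaf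
def t217 : k217.all (jb2 57 fl b218) = true := by decide +kernel
noncomputable def k218 : KT := (.br (Nat.shiftLeft (nat_lit 0x3000001) (nat_lit 125)) (.one (nat_lit 0x600000100300400700c00e60c980e03841c711)) (.br (Nat.shiftLeft (nat_lit 0x7) (nat_lit 148)) (.one (nat_lit 0x600000200300400700c00e60c980e05881c711)) (.one (nat_lit 0x700000100200400700c00e40e9c0e03841c711))))
noncomputable def b219 : BT := .node (nat_lit 0x1) (nat_lit 0x49b13aca2c93727493a8003a5c000ad60003a59000ac702000e300028) .leaf .leaf
def t218 : k218.all (jb2 57 fl b219) = true := by decide +kernel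
noncomputable def k219 : KT := (.br (Nat.shiftLeft (nat_lit 0x1) (nat_lit 151)) (.br (Nat.shiftLeft (nat_lit 0x3800001) (nat_lit 125)) (.one (nat_lit 0x700000100300400700c00e60e9c0e03841c711)) (.one (nat_lit 0x700000200300400700c00e60e9c0e05881c711))) (.br (Nat.shiftLeft (nat_lit 0x8000001003) (nat_lit 112)) (.one (nat_lit 0x800000100200400700c00e410a00e03841c711)) (.one (nat_lit 0x800000100300400700c00e610a00e03841c711))))
noncomputable def b220 : BT := .node (nat_lit 0x1) (nat_lit 0x96228a24dc003317000ca7010008800028) .leaf .leaf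
def t219 : k219.all (jb2 57 fl b220) = true := by decide +kernel
noncomputable def k220 : KT := (.br (Nat.shiftLeft (nat_lit 0x5000001) (nat_lit 125)) (.br (Nat.shiftLeft (nat_lit 0x4800001) (nat_lit 125)) (.br (Nat.shiftLeft (nat_lit 0x9) (nat_lit 148)) (.one (nat_lit 0x800000200300400700c00e610a00e05881c711)) (.br (Nat.shiftLeft (nat_lit 0x9000001003) (nat_lit 112)) (.one (nat_lit 0x900000100200400700c00e412a40e03841c711)) (.one (nat_lit 0x900000100300400700c00e612a40e03841c711)))) (.br (Nat.shiftLeft (nat_lit 0x5) (nat_lit 149)) (.one (nat_lit 0x900000200300400700c00e612a40e05881c711)) (.br (Nat.shiftLeft (nat_lit 0xa000001003) (nat_lit 112)) (.one (nat_lit 0xa00000100200400700c00e414a80e03841c711)) (.one (nat_lit 0xa00000100300400700c00e614a80e03841c711))))) (.br (Nat.shiftLeft (nat_lit 0x5800001) (nat_lit 125)) (.br (Nat.shiftLeft (nat_lit 0xb) (nat_lit 148)) (.one (nat_lit 0xa00000200300400700c00e614a80e05881c711)) (.br (Nat.shiftLeft (nat_lit 0xb000001003) (nat_lit 112)) (.one (nat_lit 0xb00000100200400700c00e416ac0e03841c711)) (.one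 (nat_lit 0xb00000100300400700c00e616ac0e03841c711)))) (.br (Nat.shiftLeft (nat_lit 0x3) (nat_lit 150)) (.one (nat_lit 0xb00000200300400700c00e616ac0e05881c711)) (.br (Nat.shiftLeft (nat_lit 0xc000001003) (nat_lit 112)) (.one (nat_lit 0xc00000100200400700c00e418b00e03841c711)) (.one (nat_lit 0xc00000100300400700c00e618b00e03841c711))))))
def t220 : k220.all (jb2 57 fl b0) = true := by decide +kernel
noncomputable def k221 : KT := (.one (nat_lit 0xc00000200300400700c00e618b00e05881c711))
def t221 : k221.all (jb2 57 fl b0) = true := by decide +kernel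
noncomputable def s11 : KT := (.br (nat_lit 0x700000100400700c00e20080efc1801c611) (.br (nat_lit 0x400000100400700c00e200808f01801c611) (.br (nat_lit 0x800000400700c00e000800e11a01c511) (.br (nat_lit 0x600000400700c00e000800e0d981c511) k198 (.br (nat_lit 0x700000400700c00e000800e0f9c1c511) k199 k200)) (.br (nat_lit 0xa00000400700c00e000800e15a81c511) k201 (.br (nat_lit 0x100000300400700c00e600802e41801c611) k202 k203))) (.br (nat_lit 0x600000100400700c00e20080cf81801c611) (.br (nat_lit 0x500000100400700c00e20080af41801c611) k204 (.br (nat_lit 0x500000300400700c00e60080af41801c611) k205 k206)) (.br (nat_lit 0x600000200400700c00e40080cf81801c611) k207 (.br (nat_lit 0x600000300400700c00e60080cf81801c611) k208 k209)))) (.br (nat_lit 0x400000200300400700c00e608900e05881c711) (.br (nat_lit 0x800000300400700c00e600811001801c611) (.br (nat_lit 0x700000300400700c00e60080efc1801c611) k210 (.br (nat_lit 0x800000100400700c00e200811001801c611) k211 k212)) (.br (nat_lit 0x900000300400700c00e600813041801c611) k213 (.br (nat_lit 0xb00000300400700c00e6008170c1801c611)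 k214 k215))) (.br (nat_lit 0x700000100200400700c00e40e9c0e03841c711) (.br (nat_lit 0x500000100300400700c00e60a940e03841c711) k216 (.br (nat_lit 0x600000100200400700c00e40c980e03841c711) k217 k218)) (.br (nat_lit 0x800000100300400700c00e610a00e03841c711) k219 (.br (nat_lit 0xc00000100300400700c00e618b00e03841c711) k220 k221)))))
noncomputable def u11 : KT := (.one (nat_lit 0x400700c00e000800e01801c540))
def w11 : u11.all (wj 57 s11) = true := by decide +kernel
def o11 : OkW 57 (jb2 57 fl) u11 := .lift s11 _ (.br _ _ _ (.br _ _ _ (.br _ _ _ (.br _ _ _ (.leaf b199 k198 t198) (.br _ _ _ (.leaf b200 k199 t199) (.leaf b201 k200 t200))) (.br _ _ _ (.leaf b202 k201 t201) (.br _ _ _ (.leaf b0 k202 t202) (.leaf b0 k203 t203)))) (.br _ _ _ (.br _ _ _ (.leaf b205 k204 t204) (.br _ _ _ (.leaf b0 k205 t205) (.leaf b207 k206 t206))) (.br _ _ _ (.leaf b208 k207 t207) (.br _ _ _ (.leaf b209 k208 t208) (.leaf b210 k209 t209))))) (.br _ _ _ (.br _ _ _ (.br _ _ _ (.leaf b211 k210 t210) (.br _ _ _ (.leaf b212 k211 t211) (.leaf b213 k212 t212))) (.br _ _ _ (.leaf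 b214 k213 t213) (.br _ _ _ (.leaf b0 k214 t214) (.leaf b0 k215 t215)))) (.br _ _ _ (.br _ _ _ (.leaf b217 k216 t216) (.br _ _ _ (.leaf b218 k217 t217) (.leaf b219 k218 t218))) (.br _ _ _ (.leaf b220 k219 t219) (.br _ _ _ (.leaf b0 k220 t220) (.leaf b0 k221 t221)))))) w11
noncomputable def k222 : KT := (.br (Nat.shiftLeft (nat_lit 0x1003) (nat_lit 112)) (.br (Nat.shiftLeft (nat_lit 0x3) (nat_lit 112)) (.br (Nat.shiftLeft (nat_lit 0x1) (nat_lit 112)) (.one (nat_lit 0x400700c00f000800e01801f500)) (.br (Nat.shiftLeft (nat_lit 0x1) (nat_lit 113)) (.one (nat_lit 0x100400700c00f200800e01801f600)) (.one (nat_lit 0x200400700c00f400800e01801f600)))) (.br (Nat.shiftLeft (nat_lit 0x1) (nat_lit 124)) (.one (nat_lit 0x300400700c00f600800e01801f600)) (.br (Nat.shiftLeft (nat_lit 0x801) (nat_lit 113)) (.one (nat_lit 0x100000400700c00f000800e03841e511)) (.one (nat_lit 0x100200400700c00f400800e03841f700))))) (.br (Nat.shiftLeft (nat_lit 0x3) (nat_lit 124)) (.br (Nat.shiftLeft (nat_lit 0x1) (nat_lit 125)) (.one (nat_lit 0x100300400700c00f600800e03841f700)) (.br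 (Nat.shiftLeft (nat_lit 0x1001) (nat_lit 113)) (.one (nat_lit 0x200000400700c00f000800e05881e511)) (.one (nat_lit 0x200300400700c00f600800e05881f700)))) (.br (Nat.shiftLeft (nat_lit 0x5) (nat_lit 124)) (.br (Nat.shiftLeft (nat_lit 0x1) (nat_lit 126)) (.one (nat_lit 0x300000400700c00f000800e078c1e511)) (.one (nat_lit 0x400000400700c00f000800e09901e511))) (.br (Nat.shiftLeft (nat_lit 0x3) (nat_lit 125)) (.one (nat_lit 0x500000400700c00f000800e0b941e511)) (.one (nat_lit 0x600000400700c00f000800e0d981e511))))))
def t222 : k222.all (jb2 57 fl b0) = true := by decide +kernel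
noncomputable def k223 : KT := (.one (nat_lit 0x700000400700c00f000800e0f9c1e511))
noncomputable def b224 : BT := .node (nat_lit 0xb) (nat_lit 0x12c6db32a1b6cd26c9366d993a0a2c005d4c00156ae00996c00265b000196c00156361ed992fca2c001d2f00046b40cb1945926e9634b192f8003317000ca700032d8000c98c20032100321003210032100321003210020b001ab001ab001ab001ab000f0) .leaf .leaf
def t223 : k223.all (jb2 57 fl b224) = true := by decide +kernel
noncomputable def k224 : KT := (.br (Nat.shiftLeft (nat_lit 0x9) (nat_lit 124)) (.one (nat_lit 0x800000400700c00f000800e11a01e511)) (.one (nat_lit 0x900000400700c00f000800e13a41e511)))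
noncomputable def b225 : BT := .node (nat_lit 0x1d) (nat_lit 0x2a1259097cdb3275a4dc003a5a000c9880032dc000ab70296328b258c0032db000cb60196328a950c003a5a000ad6019634b193ac003a98000ab801db36d992f92c69384b225912c84eb000cb6400aadf002e9700132d9002ea6400aade0e5da4e09d493827593a12c8db328b000753000596d00165b600596c00275300055ab872c851525eb6cd2704ea000cb64013261006ea6001ab1a0b6d09d05164b2258c97c96325f12f800b2d8004ad5c01b2d8000ca7801ba98006aa9030082e0077400774007740077400774007140071400714007140071400714007140071400714006b40065400654006540053e004290042900429004290036e0025800258002580025800258) .leaf .leaf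
def t224 : k224.all (jb2 57 fl b225) = true := by decide +kernel
noncomputable def k225 : KT := (.br (Nat.shiftLeft (nat_lit 0x1) (nat_lit 136)) (.br (Nat.shiftLeft (nat_lit 0xb) (nat_lit 124)) (.one (nat_lit 0xa00000400700c00f000800e15a81e511)) (.br (Nat.shiftLeft (nat_lit 0x3) (nat_lit 126)) (.one (nat_lit 0xb00000400700c00f000800e17ac1e511)) (.one (nat_lit 0xc00000400700c00f000800e19b01e511)))) (.br (Nat.shiftLeft (nat_lit 0x800001) (nat_lit 113)) (.one (nat_lit 0x100000100400700c00f200802e41801e611)) (.br (Nat.shiftLeft (nat_lit 0x1000003) (nat_lit 112)) (.one (nat_lit 0x100000200400700c00f400802e41801e611)) (.one (nat_lit 0x100000300400700c00f600802e41801e611)))))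
noncomputable def b226 : BT := .node (nat_lit 0xb) (nat_lit 0x24e0a2c938000cc5c0032d80658d27096449c13a89d693625e13ac003a5d000cb640032da000ca74003a5b000ac743db249c13a8003a98000ab7c1002c6002c60026600150001500015000150000f0000f0000f0000f0000f0) .leaf .leaf
def t225 : k225.all (jb2 57 fl b226) = true := by decide +kernel
noncomputable def k226 : KT := (.br (Nat.shiftLeft (nat_lit 0x1800001) (nat_lit 113)) (.br (Nat.shiftLeft (nat_lit 0x1000001) (nat_lit 113)) (.br (Nat.shiftLeft (nat_lit 0x1) (nat_lit 137)) (.one (nat_lit 0x100200300400700c00f600802e45881e870)) (.one (nat_lit 0x200000100400700c00f200804e81801e611))) (.br (Nat.shiftLeft (nat_lit 0x2000003) (nat_lit 112)) (.one (nat_lit 0x200000200400700c00f400804e81801e611)) (.br (Nat.shiftLeft (nat_lit 0x3) (nat_lit 136)) (.one (nat_lit 0x200000300400700c00f600804e81801e611)) (.one (nat_lit 0x300000100400700c00f200806ec1801e611))))) (.br (Nat.shiftLeft (nat_lit 0x1) (nat_lit 138)) (.br (Nat.shiftLeft (nat_lit 0x3000003) (nat_lit 112)) (.one (nat_lit 0x300000200400700c00f400806ec1801e611)) (.one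 (nat_lit 0x300000300400700c00f600806ec1801e611))) (.br (Nat.shiftLeft (nat_lit 0x2000001) (nat_lit 113)) (.one (nat_lit 0x400000100400700c00f200808f01801e611)) (.br (Nat.shiftLeft (nat_lit 0x4000003) (nat_lit 112)) (.one (nat_lit 0x400000200400700c00f400808f01801e611)) (.one (nat_lit 0x400000300400700c00f600808f01801e611))))))
def t226 : k226.all (jb2 57 fl b0) = true := by decide +kernel
noncomputable def k227 : KT := (.br (Nat.shiftLeft (nat_lit 0x2800001) (nat_lit 113)) (.one (nat_lit 0x500000100400700c00f20080af41801e611)) (.br (Nat.shiftLeft (nat_lit 0x5000003) (nat_lit 112)) (.one (nat_lit 0x500000200400700c00f40080af41801e611)) (.one (nat_lit 0x500000300400700c00f60080af41801e611))))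
def t227 : k227.all (jb2 57 fl b0) = true := by decide +kernel
noncomputable def k228 : KT := (.br (Nat.shiftLeft (nat_lit 0x3000001) (nat_lit 113)) (.one (nat_lit 0x600000100400700c00f20080cf81801e611)) (.one (nat_lit 0x600000200400700c00f40080cf81801e611)))
noncomputable def b229 : BT := .node (nat_lit 0x1) (nat_lit 0xde125d9510003a5a0008d6810008800028) .leaf .leaf
def t228 : k228.all (jb2 57 fl b229) = true := by decide +kernel
noncomputable def k229 : KT := (.br (Nat.shiftLeft (nat_lit 0x7) (nat_lit 136)) (.one (nat_lit 0x600000300400700c00f60080cf81801e611)) (.one (nat_lit 0x700000100400700c00f20080efc1801e611)))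
noncomputable def b230 : BT := .node (nat_lit 0x1) (nat_lit 0x1b664eb49b36cc97c4eb49b24dc97c93625f94580032dc002ab6c00ba980028c800032d9002ca7c013a5e004ad5c40019900028) .leaf .leaf
def t229 : k229.all (jb2 57 fl b230) = true := by decide +kernel
noncomputable def k230 : KT := (.br (Nat.shiftLeft (nat_lit 0x7000003) (nat_lit 112)) (.one (nat_lit 0x700000200400700c00f40080efc1801e611)) (.one (nat_lit 0x700000300400700c00f60080efc1801e611)))
noncomputable def b231 : BT := .node (nat_lit 0x1) (nat_lit 0x93549b92f40032da000ca7c10008800028) .leaf .leaf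
def t230 : k230.all (jb2 57 fl b231) = true := by decide +kernel
noncomputable def k231 : KT := (.br (Nat.shiftLeft (nat_lit 0x4000001) (nat_lit 113)) (.one (nat_lit 0x800000100400700c00f200811001801e611)) (.br (Nat.shiftLeft (nat_lit 0x8000003) (nat_lit 112)) (.one (nat_lit 0x800000200400700c00f400811001801e611)) (.one (nat_lit 0x800000300400700c00f600811001801e611))))
noncomputable def b232 : BT := .node (nat_lit 0xb) (nat_lit 0xdb349b2590003a5a000ac68196325f13ac003a98000ab7c1001b0001b000150001500015000150001500015000150000f0000f0000f0) .leaf .leaf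
def t231 : k231.all (jb2 57 fl b232) = true := by decide +kernel
noncomputable def k232 : KT := (.br (Nat.shiftLeft (nat_lit 0x9000003) (nat_lit 112)) (.br (Nat.shiftLeft (nat_lit 0x4800001) (nat_lit 113)) (.one (nat_lit 0x900000100400700c00f200813041801e611)) (.one (nat_lit 0x900000200400700c00f400813041801e611))) (.br (Nat.shiftLeft (nat_lit 0x5) (nat_lit 137)) (.one (nat_lit 0x900000300400700c00f600813041801e611)) (.br (Nat.shiftLeft (nat_lit 0x5000001) (nat_lit 113)) (.one (nat_lit 0xa00000100400700c00f200815081801e611)) (.one (nat_lit 0xa00000200400700c00f400815081801e611)))))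
noncomputable def b233 : BT := .node (nat_lit 0x1) (nat_lit 0x93749c12f8003a99000ab7c10008800028) .leaf .leaf
def t232 : k232.all (jb2 57 fl b233) = true := by decide +kernel
noncomputable def k233 : KT := (.br (Nat.shiftLeft (nat_lit 0x800001) (nat_lit 125)) (.br (Nat.shiftLeft (nat_lit 0x3) (nat_lit 138)) (.br (Nat.shiftLeft (nat_lit 0x5800001) (nat_lit 113)) (.br (Nat.shiftLeft (nat_lit 0xb) (nat_lit 136)) (.one (nat_lit 0xa00000300400700c00f600815081801e611)) (.one (nat_lit 0xb00000100400700c00f2008170c1801e611))) (.br (Nat.shiftLeft (nat_lit 0xb000003) (nat_lit 112)) (.one (nat_lit 0xb00000200400700c00f4008170c1801e611)) (.one (nat_lit 0xb00000300400700c00f6008170c1801e611)))) (.br (Nat.shiftLeft (nat_lit 0xc000003) (nat_lit 112)) (.br (Nat.shiftLeft (nat_lit 0x6000001) (nat_lit 113)) (.one (nat_lit 0xc00000100400700c00f200819101801e611)) (.one (nat_lit 0xc00000200400700c00f400819101801e611))) (.br (Nat.shiftLeft (nat_lit 0x1) (nat_lit 148)) (.one (nat_lit 0xc00000300400700c00f600819101801e611)) (.br (Nat.shiftLeft (nat_lit 0x1000001003)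 (nat_lit 112)) (.one (nat_lit 0x100000100200400700c00f402840e03841e711)) (.one (nat_lit 0x100000100300400700c00f602840e03841e711)))))) (.br (Nat.shiftLeft (nat_lit 0x3000001003) (nat_lit 112)) (.br (Nat.shiftLeft (nat_lit 0x2000001003) (nat_lit 112)) (.br (Nat.shiftLeft (nat_lit 0x1) (nat_lit 149)) (.one (nat_lit 0x100000200300400700c00f602840e05881e711)) (.one (nat_lit 0x200000100200400700c00f404880e03841e711))) (.br (Nat.shiftLeft (nat_lit 0x1000001) (nat_lit 125)) (.one (nat_lit 0x200000100300400700c00f604880e03841e711)) (.br (Nat.shiftLeft (nat_lit 0x3) (nat_lit 148)) (.one (nat_lit 0x200000200300400700c00f604880e05881e711)) (.one (nat_lit 0x300000100200400700c00f4068c0e03841e711))))) (.br (Nat.shiftLeft (nat_lit 0x1) (nat_lit 150)) (.br (Nat.shiftLeft (nat_lit 0x1800001) (nat_lit 125)) (.one (nat_lit 0x300000100300400700c00f6068c0e03841e711)) (.one (nat_lit 0x300000200300400700c00f6068c0e05881e711))) (.br (Nat.shiftLeft (nat_lit 0x4000001003) (nat_lit 112)) (.one (nat_lit 0x400000100200400700c00f408900e03841e711)) (.br (Nat.shiftLeft (nat_lit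 0x2000001) (nat_lit 125)) (.one (nat_lit 0x400000100300400700c00f608900e03841e711)) (.one (nat_lit 0x400000200300400700c00f608900e05881e711)))))))
def t233 : k233.all (jb2 57 fl b0) = true := by decide +kernel
noncomputable def k234 : KT := (.br (Nat.shiftLeft (nat_lit 0x5000001003) (nat_lit 112)) (.one (nat_lit 0x500000100200400700c00f40a940e03841e711)) (.br (Nat.shiftLeft (nat_lit 0x2800001) (nat_lit 125)) (.one (nat_lit 0x500000100300400700c00f60a940e03841e711)) (.one (nat_lit 0x500000200300400700c00f60a940e05881e711))))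
def t234 : k234.all (jb2 57 fl b0) = true := by decide +kernel
noncomputable def k235 : KT := (.br (Nat.shiftLeft (nat_lit 0x3000001) (nat_lit 125)) (.br (Nat.shiftLeft (nat_lit 0x6000001003) (nat_lit 112)) (.one (nat_lit 0x600000100200400700c00f40c980e03841e711)) (.one (nat_lit 0x600000100300400700c00f60c980e03841e711))) (.br (Nat.shiftLeft (nat_lit 0x7) (nat_lit 148)) (.one (nat_lit 0x600000200300400700c00f60c980e05881e711)) (.one (nat_lit 0x700000100200400700c00f40e9c0e03841e711))))
def t235 : k235.all (jb2 57 fl b0) = true := by decide +kernel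
noncomputable def k236 : KT := (.br (Nat.shiftLeft (nat_lit 0x4000001) (nat_lit 125)) (.br (Nat.shiftLeft (nat_lit 0x1) (nat_lit 151)) (.br (Nat.shiftLeft (nat_lit 0x3800001) (nat_lit 125)) (.one (nat_lit 0x700000100300400700c00f60e9c0e03841e711)) (.one (nat_lit 0x700000200300400700c00f60e9c0e05881e711))) (.br (Nat.shiftLeft (nat_lit 0x8000001003) (nat_lit 112)) (.one (nat_lit 0x800000100200400700c00f410a00e03841e711)) (.one (nat_lit 0x800000100300400700c00f610a00e03841e711)))) (.br (Nat.shiftLeft (nat_lit 0x9000001003) (nat_lit 112)) (.br (Nat.shiftLeft (nat_lit 0x9) (nat_lit 148)) (.one (nat_lit 0x800000200300400700c00f610a00e05881e711)) (.one (nat_lit 0x900000100200400700c00f412a40e03841e711))) (.br (Nat.shiftLeft (nat_lit 0x4800001) (nat_lit 125)) (.one (nat_lit 0x900000100300400700c00f612a40e03841e711)) (.one (nat_lit 0x900000200300400700c00f612a40e05881e711)))))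
def t236 : k236.all (jb2 57 fl b0) = true := by decide +kernel
noncomputable def k237 : KT := (.br (Nat.shiftLeft (nat_lit 0xb000001003) (nat_lit 112)) (.br (Nat.shiftLeft (nat_lit 0x5000001) (nat_lit 125)) (.br (Nat.shiftLeft (nat_lit 0xa000001003) (nat_lit 112)) (.one (nat_lit 0xa00000100200400700c00f414a80e03841e711)) (.one (nat_lit 0xa00000100300400700c00f614a80e03841e711))) (.br (Nat.shiftLeft (nat_lit 0xb) (nat_lit 148)) (.one (nat_lit 0xa00000200300400700c00f614a80e05881e711)) (.one (nat_lit 0xb00000100200400700c00f416ac0e03841e711)))) (.br (Nat.shiftLeft (nat_lit 0x3) (nat_lit 150)) (.br (Nat.shiftLeft (nat_lit 0x5800001) (nat_lit 125)) (.one (nat_lit 0xb00000100300400700c00f616ac0e03841e711)) (.one (nat_lit 0xb00000200300400700c00f616ac0e05881e711))) (.br (Nat.shiftLeft (nat_lit 0xc000001003) (nat_lit 112)) (.one (nat_lit 0xc00000100200400700c00f418b00e03841e711)) (.br (Nat.shiftLeft (nat_lit 0x6000001) (nat_lit 125)) (.one (nat_lit 0xc00000100300400700c00f618b00e03841e711)) (.one (nat_lit 0xc00000200300400700c00f618b00e05881e711))))))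
def t237 : k237.all (jb2 57 fl b0) = true := by decide +kernel
noncomputable def s12 : KT := (.br (nat_lit 0x700000100400700c00f20080efc1801e611) (.br (nat_lit 0x100000300400700c00f600802e41801e611) (.br (nat_lit 0x700000400700c00f000800e0f9c1e511) (.br (nat_lit 0x600000400700c00f000800e0d981e511) k222 k223) (.br (nat_lit 0x900000400700c00f000800e13a41e511) k224 k225)) (.br (nat_lit 0x500000300400700c00f60080af41801e611) (.br (nat_lit 0x400000300400700c00f600808f01801e611) k226 k227) (.br (nat_lit 0x600000200400700c00f40080cf81801e611) k228 k229))) (.br (nat_lit 0x400000200300400700c00f608900e05881e711) (.br (nat_lit 0x800000300400700c00f600811001801e611) (.br (nat_lit 0x700000300400700c00f60080efc1801e611) k230 k231) (.br (nat_lit 0xa00000200400700c00f400815081801e611) k232 k233)) (.br (nat_lit 0x700000100200400700c00f40e9c0e03841e711) (.br (nat_lit 0x500000200300400700c00f60a940e05881e711) k234 k235) (.br (nat_lit 0x900000200300400700c00f612a40e05881e711) k236 k237))))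
noncomputable def u12 : KT := (.one (nat_lit 0x400700c00f000800e01801e540))
def w12 : u12.all (wj 57 s12) = true := by decide +kernel
def o12 : OkW 57 (jb2 57 fl) u12 := .lift s12 _ (.br _ _ _ (.br _ _ _ (.br _ _ _ (.br _ _ _ (.leaf b0 k222 t222) (.leaf b224 k223 t223)) (.br _ _ _ (.leaf b225 k224 t224) (.leaf b226 k225 t225))) (.br _ _ _ (.br _ _ _ (.leaf b0 k226 t226) (.leaf b0 k227 t227)) (.br _ _ _ (.leaf b229 k228 t228) (.leaf b230 k229 t229)))) (.br _ _ _ (.br _ _ _ (.br _ _ _ (.leaf b231 k230 t230) (.leaf b232 k231 t231)) (.br _ _ _ (.leaf b233 k232 t232) (.leaf b0 k233 t233))) (.br _ _ _ (.br _ _ _ (.leaf b0 k234 t234) (.leaf b0 k235 t235)) (.br _ _ _ (.leaf b0 k236 t236) (.leaf b0 k237 t237))))) w12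
noncomputable def k238 : KT := (.br (Nat.shiftLeft (nat_lit 0x1002003806009) (nat_lit 65)) (.br (Nat.shiftLeft (nat_lit 0x100400700c011) (nat_lit 64)) (.br (Nat.shiftLeft (nat_lit 0x2003806009) (nat_lit 65)) (.br (Nat.shiftLeft (nat_lit 0x400700c011) (nat_lit 64)) (.one (nat_lit 0x400700c010000800e018021500)) (.one (nat_lit 0x400700c011000800e018023500))) (.br (Nat.shiftLeft (nat_lit 0x1) (nat_lit 112)) (.one (nat_lit 0x400700c012000800e018025500)) (.one (nat_lit 0x100400700c010200800e018021600)))) (.br (Nat.shiftLeft (nat_lit 0x1) (nat_lit 113)) (.br (Nat.shiftLeft (nat_lit 0x802003806009) (nat_lit 65)) (.one (nat_lit 0x100400700c011200800e018023600)) (.one (nat_lit 0x100400700c012200800e018024650))) (.br (Nat.shiftLeft (nat_lit 0x200400700c011) (nat_lit 64)) (.one (nat_lit 0x200400700c010400800e018021600)) (.one (nat_lit 0x200400700c011400800e018023600))))) (.br (Nat.shiftLeft (nat_lit 0x1) (nat_lit 124)) (.br (Nat.shiftLeft (nat_lit 0x300400700c011) (nat_lit 64)) (.br (Nat.shiftLeft (nat_lit 0x3) (nat_lit 112)) (.one (nat_lit 0x200400700c012400800e018025600))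 (.one (nat_lit 0x300400700c010600800e018021600))) (.br (Nat.shiftLeft (nat_lit 0x1802003806009) (nat_lit 65)) (.one (nat_lit 0x300400700c011600800e018023600)) (.one (nat_lit 0x300400700c012600800e018025600)))) (.br (Nat.shiftLeft (nat_lit 0x800002003806009) (nat_lit 65)) (.br (Nat.shiftLeft (nat_lit 0x100000400700c011) (nat_lit 64)) (.one (nat_lit 0x100000400700c010000800e038420511)) (.one (nat_lit 0x100000400700c011000800e038422511))) (.br (Nat.shiftLeft (nat_lit 0x801) (nat_lit 113)) (.one (nat_lit 0x100000400700c012000800e038424511)) (.one (nat_lit 0x100200400700c010400800e038421700))))))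
def t238 : k238.all (jb2 57 fl b0) = true := by decide +kernel
noncomputable def k239 : KT := (.one (nat_lit 0x100200400700c011400800e038422760))
def t239 : k239.all (jb2 57 fl b0) = true := by decide +kernel
noncomputable def k240 : KT := (.one (nat_lit 0x100200400700c012400800e038424760))
def t240 : k240.all (jb2 57 fl b0) = true := by decide +kernel
noncomputable def k241 : KT := (.one (nat_lit 0x100300400700c010600800e038420760))
def t241 : k241.all (jb2 57 fl b0) = true := by decide +kernel
noncomputable def k242 : KT := (.br (Nat.shiftLeft (nat_lit 0x1) (nat_lit 125)) (.br (Nat.shiftLeft (nat_lit 0x801802003806009) (nat_lit 65)) (.one (nat_lit 0x100300400700c011600800e038422760)) (.one (nat_lit 0x100300400700c012600800e038424760))) (.br (Nat.shiftLeft (nat_lit 0x200000400700c011) (nat_lit 64)) (.one (nat_lit 0x200000400700c010000800e058820511)) (.br (Nat.shiftLeft (nat_lit 0x1000002003806009) (nat_lit 65)) (.one (nat_lit 0x200000400700c011000800e058822511)) (.one (nat_lit 0x200000400700c012000800e058824511)))))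
def t242 : k242.all (jb2 57 fl b0) = true := by decide +kernel
noncomputable def k243 : KT := (.one (nat_lit 0x200300400700c010600800e058820760))
def t243 : k243.all (jb2 57 fl b0) = true := by decide +kernel
noncomputable def k244 : KT := (.br (Nat.shiftLeft (nat_lit 0x3) (nat_lit 124)) (.br (Nat.shiftLeft (nat_lit 0x1001802003806009) (nat_lit 65)) (.one (nat_lit 0x200300400700c011600800e058822760)) (.one (nat_lit 0x200300400700c012600800e058824760))) (.br (Nat.shiftLeft (nat_lit 0x300000400700c011) (nat_lit 64)) (.one (nat_lit 0x300000400700c010000800e078c20511)) (.br (Nat.shiftLeft (nat_lit 0x1800002003806009) (nat_lit 65)) (.one (nat_lit 0x300000400700c011000800e078c22511)) (.one (nat_lit 0x300000400700c012000800e078c24511)))))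
def t244 : k244.all (jb2 57 fl b0) = true := by decide +kernel
noncomputable def k245 : KT := (.br (Nat.shiftLeft (nat_lit 0x5) (nat_lit 124)) (.br (Nat.shiftLeft (nat_lit 0x400000400700c011) (nat_lit 64)) (.one (nat_lit 0x400000400700c010000800e099020511)) (.br (Nat.shiftLeft (nat_lit 0x2000002003806009) (nat_lit 65)) (.one (nat_lit 0x400000400700c011000800e099022511)) (.one (nat_lit 0x400000400700c012000800e099024511)))) (.br (Nat.shiftLeft (nat_lit 0x500000400700c011) (nat_lit 64)) (.one (nat_lit 0x500000400700c010000800e0b9420511)) (.br (Nat.shiftLeft (nat_lit 0x2800002003806009) (nat_lit 65)) (.one (nat_lit 0x500000400700c011000800e0b9422511)) (.one (nat_lit 0x500000400700c012000800e0b9424511)))))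
def t245 : k245.all (jb2 57 fl b0) = true := by decide +kernel
noncomputable def k246 : KT := (.br (Nat.shiftLeft (nat_lit 0x600000400700c011) (nat_lit 64)) (.one (nat_lit 0x600000400700c010000800e0d9820511)) (.br (Nat.shiftLeft (nat_lit 0x3000002003806009) (nat_lit 65)) (.one (nat_lit 0x600000400700c011000800e0d9822511)) (.one (nat_lit 0x600000400700c012000800e0d9824511))))
def t246 : k246.all (jb2 57 fl b0) = true := by decide +kernel
noncomputable def k247 : KT := (.br (Nat.shiftLeft (nat_lit 0x700000400700c011) (nat_lit 64)) (.one (nat_lit 0x700000400700c010000800e0f9c20511)) (.br (Nat.shiftLeft (nat_lit 0x3800002003806009) (nat_lit 65)) (.one (nat_lit 0x700000400700c011000800e0f9c22511)) (.one (nat_lit 0x700000400700c012000800e0f9c24511))))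
noncomputable def b248 : BT := .node (nat_lit 0x1) (nat_lit 0x5426da13ac0049da0008c7c10008700028) .leaf .leaf
def t247 : k247.all (jb2 57 fl b248) = true := by decide +kernel
noncomputable def k248 : KT := (.br (Nat.shiftLeft (nat_lit 0x800000400700c011) (nat_lit 64)) (.one (nat_lit 0x800000400700c010000800e11a020511)) (.br (Nat.shiftLeft (nat_lit 0x4000002003806009) (nat_lit 65)) (.one (nat_lit 0x800000400700c011000800e11a022511)) (.one (nat_lit 0x800000400700c012000800e11a024511))))
noncomputable def b249 : BT := .node (nat_lit 0x16) (nat_lit 0x126c4bf275800753000158e8326e4eb49b80065b800196c03b644bf28b24dc97e516000e97800235b000e974002b570a5889d6543000e970002b5806588a2c5434b1950ca84001d2d80056b2001d4c00056ae14b21458a8493725f93a8003a98002ad5c013a98002ac6c20051d0051d0051d004bd004bd004bd004bd004bd004bd004bd004bd004bd004bd004bd0045d003a2003a2003a2003420028700287001cc001cc) .leaf .leaf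
def t248 : k248.all (jb2 57 fl b249) = true := by decide +kernel
noncomputable def k249 : KT := (.br (Nat.shiftLeft (nat_lit 0x5) (nat_lit 125)) (.br (Nat.shiftLeft (nat_lit 0x900000400700c011) (nat_lit 64)) (.one (nat_lit 0x900000400700c010000800e13a420511)) (.br (Nat.shiftLeft (nat_lit 0x4800002003806009) (nat_lit 65)) (.one (nat_lit 0x900000400700c011000800e13a422511)) (.one (nat_lit 0x900000400700c012000800e13a424511)))) (.br (Nat.shiftLeft (nat_lit 0xa00000400700c011) (nat_lit 64)) (.one (nat_lit 0xa00000400700c010000800e15a820511)) (.br (Nat.shiftLeft (nat_lit 0x5000002003806009) (nat_lit 65)) (.one (nat_lit 0xa00000400700c011000800e15a822511)) (.one (nat_lit 0xa00000400700c012000800e15a824511)))))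
noncomputable def b250 : BT := .node (nat_lit 0x16) (nat_lit 0x1b664e925f36cd27096349a93ac9d4db36d9a4dc0032d8004ab7c013a99004ac6000ba9a000ab7c0032d9002ca70496349c12fdb6693825f80074ba001570000653a00156f8526e4ea275b6cc97e543000ea60002b1c000e7900023980a58ca2c5436d99458a86001d4c00056b0001d2d800473014b124e4a86db325f94580041df000ad60003a210008d6c2006290062900629004b8004b8004b8003fd00342003420034200342003420034200287002870028700287001cc001cc001cc001cc001cc001cc) .leaf .leaf
def t249 : k249.all (jb2 57 fl b250) = true := by decide +kernel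
noncomputable def k250 : KT := (.br (Nat.shiftLeft (nat_lit 0x200000200400700c011) (nat_lit 64)) (.br (Nat.shiftLeft (nat_lit 0x800001) (nat_lit 113)) (.br (Nat.shiftLeft (nat_lit 0xc00000400700c011) (nat_lit 64)) (.br (Nat.shiftLeft (nat_lit 0x5800002003806009) (nat_lit 65)) (.br (Nat.shiftLeft (nat_lit 0xb00000400700c011) (nat_lit 64)) (.one (nat_lit 0xb00000400700c010000800e17ac20511)) (.one (nat_lit 0xb00000400700c011000800e17ac22511))) (.br (Nat.shiftLeft (nat_lit 0x3) (nat_lit 126)) (.one (nat_lit 0xb00000400700c012000800e17ac24511)) (.one (nat_lit 0xc00000400700c010000800e19b020511)))) (.br (Nat.shiftLeft (nat_lit 0x1) (nat_lit 136)) (.br (Nat.shiftLeft (nat_lit 0x6000002003806009) (nat_lit 65)) (.one (nat_lit 0xc00000400700c011000800e19b022511)) (.one (nat_lit 0xc00000400700c012000800e19b024511))) (.br (Nat.shiftLeft (nat_lit 0x100000100400700c011) (nat_lit 64)) (.one (nat_lit 0x100000100400700c010200802e418020611)) (.one (nat_lit 0x100000100400700c011200802e418022611))))) (.br (Nat.shiftLeft (nat_lit 0x100000300400700c011) (nat_lit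 64)) (.br (Nat.shiftLeft (nat_lit 0x800001002003806009) (nat_lit 65)) (.br (Nat.shiftLeft (nat_lit 0x100000200400700c011) (nat_lit 64)) (.one (nat_lit 0x100000200400700c010400802e418020611)) (.one (nat_lit 0x100000200400700c011400802e418022611))) (.br (Nat.shiftLeft (nat_lit 0x1000003) (nat_lit 112)) (.one (nat_lit 0x100000200400700c012400802e418024611)) (.one (nat_lit 0x100000300400700c010600802e418020611)))) (.br (Nat.shiftLeft (nat_lit 0x1) (nat_lit 137)) (.br (Nat.shiftLeft (nat_lit 0x800001802003806009) (nat_lit 65)) (.one (nat_lit 0x100000300400700c011600802e418022611)) (.one (nat_lit 0x100000300400700c012600802e418024611))) (.br (Nat.shiftLeft (nat_lit 0x200000100400700c011) (nat_lit 64)) (.one (nat_lit 0x200000100400700c010200804e818020611)) (.br (Nat.shiftLeft (nat_lit 0x1000001) (nat_lit 113)) (.one (nat_lit 0x200000100400700c011200804e818022611)) (.one (nat_lit 0x200000200400700c010400804e818020611))))))) (.br (Nat.shiftLeft (nat_lit 0x300000200400700c011) (nat_lit 64)) (.br (Nat.shiftLeft (nat_lit 0x1000001802003806009) (nat_lit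 65)) (.br (Nat.shiftLeft (nat_lit 0x2000003) (nat_lit 112)) (.br (Nat.shiftLeft (nat_lit 0x1000001002003806009) (nat_lit 65)) (.one (nat_lit 0x200000200400700c011400804e818022611)) (.one (nat_lit 0x200000200400700c012400804e818024611))) (.br (Nat.shiftLeft (nat_lit 0x200000300400700c011) (nat_lit 64)) (.one (nat_lit 0x200000300400700c010600804e818020611)) (.one (nat_lit 0x200000300400700c011600804e818022611)))) (.br (Nat.shiftLeft (nat_lit 0x300000100400700c011) (nat_lit 64)) (.br (Nat.shiftLeft (nat_lit 0x3) (nat_lit 136)) (.one (nat_lit 0x200000300400700c012600804e818024611)) (.one (nat_lit 0x300000100400700c010200806ec18020611))) (.br (Nat.shiftLeft (nat_lit 0x1800001) (nat_lit 113)) (.one (nat_lit 0x300000100400700c011200806ec18022611)) (.one (nat_lit 0x300000200400700c010400806ec18020611))))) (.br (Nat.shiftLeft (nat_lit 0x1800001802003806009) (nat_lit 65)) (.br (Nat.shiftLeft (nat_lit 0x3000003) (nat_lit 112)) (.br (Nat.shiftLeft (nat_lit 0x1800001002003806009) (nat_lit 65)) (.one (nat_lit 0x300000200400700c011400806ec18022611)) (.one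 (nat_lit 0x300000200400700c012400806ec18024611))) (.br (Nat.shiftLeft (nat_lit 0x300000300400700c011) (nat_lit 64)) (.one (nat_lit 0x300000300400700c010600806ec18020611)) (.one (nat_lit 0x300000300400700c011600806ec18022611)))) (.br (Nat.shiftLeft (nat_lit 0x400000100400700c011) (nat_lit 64)) (.br (Nat.shiftLeft (nat_lit 0x1) (nat_lit 138)) (.one (nat_lit 0x300000300400700c012600806ec18024611)) (.one (nat_lit 0x400000100400700c010200808f018020611))) (.br (Nat.shiftLeft (nat_lit 0x2000001) (nat_lit 113)) (.one (nat_lit 0x400000100400700c011200808f018022611)) (.br (Nat.shiftLeft (nat_lit 0x400000200400700c011) (nat_lit 64)) (.one (nat_lit 0x400000200400700c010400808f018020611)) (.one (nat_lit 0x400000200400700c011400808f018022611))))))))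
def t250 : k250.all (jb2 57 fl b0) = true := by decide +kernel
noncomputable def k251 : KT := (.br (Nat.shiftLeft (nat_lit 0x2000001802003806009) (nat_lit 65)) (.br (Nat.shiftLeft (nat_lit 0x4000003) (nat_lit 112)) (.one (nat_lit 0x400000200400700c012400808f018024611)) (.br (Nat.shiftLeft (nat_lit 0x400000300400700c011) (nat_lit 64)) (.one (nat_lit 0x400000300400700c010600808f018020611)) (.one (nat_lit 0x400000300400700c011600808f018022611)))) (.br (Nat.shiftLeft (nat_lit 0x5) (nat_lit 136)) (.one (nat_lit 0x400000300400700c012600808f018024611)) (.br (Nat.shiftLeft (nat_lit 0x500000100400700c011) (nat_lit 64)) (.one (nat_lit 0x500000100400700c01020080af418020611)) (.one (nat_lit 0x500000100400700c01120080af418022611)))))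
def t251 : k251.all (jb2 57 fl b0) = true := by decide +kernel
noncomputable def k252 : KT := (.br (Nat.shiftLeft (nat_lit 0x2800001002003806009) (nat_lit 65)) (.br (Nat.shiftLeft (nat_lit 0x500000200400700c011) (nat_lit 64)) (.one (nat_lit 0x500000200400700c01040080af418020611)) (.one (nat_lit 0x500000200400700c01140080af418022611))) (.br (Nat.shiftLeft (nat_lit 0x5000003) (nat_lit 112)) (.one (nat_lit 0x500000200400700c01240080af418024611)) (.br (Nat.shiftLeft (nat_lit 0x500000300400700c011) (nat_lit 64)) (.one (nat_lit 0x500000300400700c01060080af418020611)) (.one (nat_lit 0x500000300400700c01160080af418022611)))))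
def t252 : k252.all (jb2 57 fl b0) = true := by decide +kernel
noncomputable def k253 : KT := (.br (Nat.shiftLeft (nat_lit 0x3) (nat_lit 137)) (.one (nat_lit 0x500000300400700c01260080af418024611)) (.br (Nat.shiftLeft (nat_lit 0x600000100400700c011) (nat_lit 64)) (.one (nat_lit 0x600000100400700c01020080cf818020611)) (.one (nat_lit 0x600000100400700c01120080cf818022611))))
def t253 : k253.all (jb2 57 fl b0) = true := by decide +kernel
noncomputable def k254 : KT := (.br (Nat.shiftLeft (nat_lit 0x3000001002003806009) (nat_lit 65)) (.br (Nat.shiftLeft (nat_lit 0x600000200400700c011) (nat_lit 64)) (.one (nat_lit 0x600000200400700c01040080cf818020611)) (.one (nat_lit 0x600000200400700c01140080cf818022611))) (.br (Nat.shiftLeft (nat_lit 0x6000003) (nat_lit 112)) (.one (nat_lit 0x600000200400700c01240080cf818024611)) (.one (nat_lit 0x600000300400700c01060080cf818020611))))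
def t254 : k254.all (jb2 57 fl b0) = true := by decide +kernel
noncomputable def k255 : KT := (.br (Nat.shiftLeft (nat_lit 0x7) (nat_lit 136)) (.br (Nat.shiftLeft (nat_lit 0x3000001802003806009) (nat_lit 65)) (.one (nat_lit 0x600000300400700c01160080cf818022611)) (.one (nat_lit 0x600000300400700c01260080cf818024611))) (.br (Nat.shiftLeft (nat_lit 0x700000100400700c011) (nat_lit 64)) (.one (nat_lit 0x700000100400700c01020080efc18020611)) (.one (nat_lit 0x700000100400700c01120080efc18022611))))
def t255 : k255.all (jb2 57 fl b0) = true := by decide +kernel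
noncomputable def k256 : KT := (.br (Nat.shiftLeft (nat_lit 0x7000003) (nat_lit 112)) (.br (Nat.shiftLeft (nat_lit 0x700000200400700c011) (nat_lit 64)) (.one (nat_lit 0x700000200400700c01040080efc18020611)) (.br (Nat.shiftLeft (nat_lit 0x3800001002003806009) (nat_lit 65)) (.one (nat_lit 0x700000200400700c01140080efc18022611)) (.one (nat_lit 0x700000200400700c01240080efc18024611)))) (.br (Nat.shiftLeft (nat_lit 0x700000300400700c011) (nat_lit 64)) (.one (nat_lit 0x700000300400700c01060080efc18020611)) (.br (Nat.shiftLeft (nat_lit 0x3800001802003806009) (nat_lit 65)) (.one (nat_lit 0x700000300400700c01160080efc18022611)) (.one (nat_lit 0x700000300400700c01260080efc18024611)))))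
def t256 : k256.all (jb2 57 fl b0) = true := by decide +kernel
noncomputable def k257 : KT := (.br (Nat.shiftLeft (nat_lit 0x4000001) (nat_lit 113)) (.br (Nat.shiftLeft (nat_lit 0x800000100400700c011) (nat_lit 64)) (.one (nat_lit 0x800000100400700c0102008110018020611)) (.one (nat_lit 0x800000100400700c0112008110018022611))) (.br (Nat.shiftLeft (nat_lit 0x800000200400700c011) (nat_lit 64)) (.one (nat_lit 0x800000200400700c0104008110018020611)) (.br (Nat.shiftLeft (nat_lit 0x4000001002003806009) (nat_lit 65)) (.one (nat_lit 0x800000200400700c0114008110018022611)) (.one (nat_lit 0x800000200400700c0124008110018024611)))))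
noncomputable def b258 : BT := .node (nat_lit 0x1) (nat_lit 0xdb24b22644003a5a000ad5c10008800028) .leaf .leaf
def t257 : k257.all (jb2 57 fl b258) = true := by decide +kernel
noncomputable def k258 : KT := (.br (Nat.shiftLeft (nat_lit 0x4800001) (nat_lit 113)) (.br (Nat.shiftLeft (nat_lit 0x4000001802003806009) (nat_lit 65)) (.br (Nat.shiftLeft (nat_lit 0x800000300400700c011) (nat_lit 64)) (.one (nat_lit 0x800000300400700c0106008110018020611)) (.one (nat_lit 0x800000300400700c0116008110018022611))) (.br (Nat.shiftLeft (nat_lit 0x9) (nat_lit 136)) (.one (nat_lit 0x800000300400700c0126008110018024611)) (.br (Nat.shiftLeft (nat_lit 0x900000100400700c011) (nat_lit 64)) (.one (nat_lit 0x900000100400700c0102008130418020611)) (.one (nat_lit 0x900000100400700c0112008130418022611))))) (.br (Nat.shiftLeft (nat_lit 0x9000003) (nat_lit 112)) (.br (Nat.shiftLeft (nat_lit 0x900000200400700c011) (nat_lit 64)) (.one (nat_lit 0x900000200400700c0104008130418020611)) (.br (Nat.shiftLeft (nat_lit 0x4800001002003806009) (nat_lit 65)) (.one (nat_lit 0x900000200400700c0114008130418022611))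 (.one (nat_lit 0x900000200400700c0124008130418024611)))) (.br (Nat.shiftLeft (nat_lit 0x900000300400700c011) (nat_lit 64)) (.one (nat_lit 0x900000300400700c0106008130418020611)) (.br (Nat.shiftLeft (nat_lit 0x4800001802003806009) (nat_lit 65)) (.one (nat_lit 0x900000300400700c0116008130418022611)) (.one (nat_lit 0x900000300400700c0126008130418024611))))))
def t258 : k258.all (jb2 57 fl b0) = true := by decide +kernel
noncomputable def k259 : KT := (.br (Nat.shiftLeft (nat_lit 0xb00000300400700c011) (nat_lit 64)) (.br (Nat.shiftLeft (nat_lit 0x5000001802003806009) (nat_lit 65)) (.br (Nat.shiftLeft (nat_lit 0xa00000200400700c011) (nat_lit 64)) (.br (Nat.shiftLeft (nat_lit 0xa00000100400700c011) (nat_lit 64)) (.one (nat_lit 0xa00000100400700c0102008150818020611)) (.br (Nat.shiftLeft (nat_lit 0x5000001) (nat_lit 113)) (.one (nat_lit 0xa00000100400700c0112008150818022611)) (.one (nat_lit 0xa00000200400700c0104008150818020611)))) (.br (Nat.shiftLeft (nat_lit 0xa000003) (nat_lit 112)) (.br (Nat.shiftLeft (nat_lit 0x5000001002003806009) (nat_lit 65))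 (.one (nat_lit 0xa00000200400700c0114008150818022611)) (.one (nat_lit 0xa00000200400700c0124008150818024611))) (.br (Nat.shiftLeft (nat_lit 0xa00000300400700c011) (nat_lit 64)) (.one (nat_lit 0xa00000300400700c0106008150818020611)) (.one (nat_lit 0xa00000300400700c0116008150818022611))))) (.br (Nat.shiftLeft (nat_lit 0x5800001) (nat_lit 113)) (.br (Nat.shiftLeft (nat_lit 0xb) (nat_lit 136)) (.one (nat_lit 0xa00000300400700c0126008150818024611)) (.br (Nat.shiftLeft (nat_lit 0xb00000100400700c011) (nat_lit 64)) (.one (nat_lit 0xb00000100400700c0102008170c18020611)) (.one (nat_lit 0xb00000100400700c0112008170c18022611)))) (.br (Nat.shiftLeft (nat_lit 0x5800001002003806009) (nat_lit 65)) (.br (Nat.shiftLeft (nat_lit 0xb00000200400700c011) (nat_lit 64)) (.one (nat_lit 0xb00000200400700c0104008170c18020611)) (.one (nat_lit 0xb00000200400700c0114008170c18022611))) (.br (Nat.shiftLeft (nat_lit 0xb000003) (nat_lit 112)) (.one (nat_lit 0xb00000200400700c0124008170c18024611)) (.one (nat_lit 0xb00000300400700c0106008170c18020611)))))) (.br (Nat.shiftLeft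 (nat_lit 0xc000003) (nat_lit 112)) (.br (Nat.shiftLeft (nat_lit 0xc00000100400700c011) (nat_lit 64)) (.br (Nat.shiftLeft (nat_lit 0x5800001802003806009) (nat_lit 65)) (.one (nat_lit 0xb00000300400700c0116008170c18022611)) (.br (Nat.shiftLeft (nat_lit 0x3) (nat_lit 138)) (.one (nat_lit 0xb00000300400700c0126008170c18024611)) (.one (nat_lit 0xc00000100400700c0102008191018020611)))) (.br (Nat.shiftLeft (nat_lit 0xc00000200400700c011) (nat_lit 64)) (.br (Nat.shiftLeft (nat_lit 0x6000001) (nat_lit 113)) (.one (nat_lit 0xc00000100400700c0112008191018022611)) (.one (nat_lit 0xc00000200400700c0104008191018020611))) (.br (Nat.shiftLeft (nat_lit 0x6000001002003806009) (nat_lit 65)) (.one (nat_lit 0xc00000200400700c0114008191018022611)) (.one (nat_lit 0xc00000200400700c0124008191018024611))))) (.br (Nat.shiftLeft (nat_lit 0x1) (nat_lit 148)) (.br (Nat.shiftLeft (nat_lit 0xc00000300400700c011) (nat_lit 64)) (.one (nat_lit 0xc00000300400700c0106008191018020611)) (.br (Nat.shiftLeft (nat_lit 0x6000001802003806009) (nat_lit 65)) (.one (nat_lit 0xc00000300400700c0116008191018022611))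 (.one (nat_lit 0xc00000300400700c0126008191018024611)))) (.br (Nat.shiftLeft (nat_lit 0x3) (nat_lit 148)) (.br (Nat.shiftLeft (nat_lit 0x1) (nat_lit 149)) (.one (nat_lit 0x100000100200400700c010402840e038420711)) (.one (nat_lit 0x200000100200400700c010404880e038420711))) (.br (Nat.shiftLeft (nat_lit 0x1) (nat_lit 150)) (.one (nat_lit 0x300000100200400700c0104068c0e038420711)) (.one (nat_lit 0x400000100200400700c010408900e038420711)))))))
def t259 : k259.all (jb2 57 fl b0) = true := by decide +kernel
noncomputable def k260 : KT := (.br (Nat.shiftLeft (nat_lit 0x9) (nat_lit 148)) (.br (Nat.shiftLeft (nat_lit 0x7) (nat_lit 148)) (.br (Nat.shiftLeft (nat_lit 0x3) (nat_lit 149)) (.one (nat_lit 0x500000100200400700c01040a940e038420711)) (.one (nat_lit 0x600000100200400700c01040c980e038420711))) (.br (Nat.shiftLeft (nat_lit 0x1) (nat_lit 151)) (.one (nat_lit 0x700000100200400700c01040e9c0e038420711)) (.one (nat_lit 0x800000100200400700c010410a00e038420711)))) (.br (Nat.shiftLeft (nat_lit 0xb) (nat_lit 148)) (.br (Nat.shiftLeft (nat_lit 0x5) (nat_lit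 149)) (.one (nat_lit 0x900000100200400700c010412a40e038420711)) (.one (nat_lit 0xa00000100200400700c010414a80e038420711))) (.br (Nat.shiftLeft (nat_lit 0x3) (nat_lit 150)) (.one (nat_lit 0xb00000100200400700c010416ac0e038420711)) (.one (nat_lit 0xc00000100200400700c010418b00e038420711)))))
def t260 : k260.all (jb2 57 fl b0) = true := by decide +kernel
noncomputable def s13 : KT := (.br (nat_lit 0x800000400700c012000800e11a024511) (.br (nat_lit 0x200000400700c012000800e058824511) (.br (nat_lit 0x100200400700c011400800e038422760) (.br (nat_lit 0x100200400700c010400800e038421700) k238 k239) (.br (nat_lit 0x100200400700c012400800e038424760) k240 (.br (nat_lit 0x100300400700c010600800e038420760) k241 k242))) (.br (nat_lit 0x500000400700c012000800e0b9424511) (.br (nat_lit 0x200300400700c010600800e058820760) k243 (.br (nat_lit 0x300000400700c012000800e078c24511) k244 k245)) (.br (nat_lit 0x600000400700c012000800e0d9824511) k246 (.br (nat_lit 0x700000400700c012000800e0f9c24511) k247 k248)))) (.br (nat_lit 0x600000300400700c01060080cf818020611) (.br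 (nat_lit 0x500000100400700c01120080af418022611) (.br (nat_lit 0xa00000400700c012000800e15a824511) k249 (.br (nat_lit 0x400000200400700c011400808f018022611) k250 k251)) (.br (nat_lit 0x500000300400700c01160080af418022611) k252 (.br (nat_lit 0x600000100400700c01120080cf818022611) k253 k254))) (.br (nat_lit 0x800000200400700c0124008110018024611) (.br (nat_lit 0x700000100400700c01120080efc18022611) k255 (.br (nat_lit 0x700000300400700c01260080efc18024611) k256 k257)) (.br (nat_lit 0x900000300400700c0126008130418024611) k258 (.br (nat_lit 0x400000100200400700c010408900e038420711) k259 k260)))))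
noncomputable def u13 : KT := (.br (Nat.shiftLeft (nat_lit 0x400700c011) (nat_lit 64)) (.one (nat_lit 0x400700c010000800e018020540)) (.br (Nat.shiftLeft (nat_lit 0x2003806009) (nat_lit 65)) (.one (nat_lit 0x400700c011000800e018022540)) (.one (nat_lit 0x400700c012000800e018024540))))
def w13 : u13.all (wj 57 s13) = true := by decide +kernel
def o13 : OkW 57 (jb2 57 fl) u13 := .lift s13 _ (.br _ _ _ (.br _ _ _ (.br _ _ _ (.br _ _ _ (.leaf b0 k238 t238) (.leaf b0 k239 t239)) (.br _ _ _ (.leaf b0 k240 t240) (.br _ _ _ (.leaf b0 k241 t241) (.leaf b0 k242 t242)))) (.br _ _ _ (.br _ _ _ (.leaf b0 k243 t243) (.br _ _ _ (.leaf b0 k244 t244) (.leaf b0 k245 t245))) (.br _ _ _ (.leaf b0 k246 t246) (.br _ _ _ (.leaf b248 k247 t247) (.leaf b249 k248 t248))))) (.br _ _ _ (.br _ _ _ (.br _ _ _ (.leaf b250 k249 t249) (.br _ _ _ (.leaf b0 k250 t250) (.leaf b0 k251 t251))) (.br _ _ _ (.leaf b0 k252 t252) (.br _ _ _ (.leaf b0 k253 t253) (.leaf b0 k254 t254)))) (.br _ _ _ (.br _ _ _ (.leaf b0 k255 t255) (.br _ _ _ (.leaf b0 k256 t256) (.leaf b258 k257 t257))) (.br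 _ _ _ (.leaf b0 k258 t258) (.br _ _ _ (.leaf b0 k259 t259) (.leaf b0 k260 t260)))))) w13
noncomputable def k261 : KT := (.br (Nat.shiftLeft (nat_lit 0x1003) (nat_lit 112)) (.br (Nat.shiftLeft (nat_lit 0x3) (nat_lit 112)) (.br (Nat.shiftLeft (nat_lit 0x1) (nat_lit 112)) (.one (nat_lit 0x400700d00e000800e01a01d500)) (.br (Nat.shiftLeft (nat_lit 0x1) (nat_lit 113)) (.one (nat_lit 0x100400700d00e200800e01a01d600)) (.one (nat_lit 0x200400700d00e400800e01a01d600)))) (.br (Nat.shiftLeft (nat_lit 0x1) (nat_lit 124)) (.one (nat_lit 0x300400700d00e600800e01a01d600)) (.br (Nat.shiftLeft (nat_lit 0x801) (nat_lit 113)) (.one (nat_lit 0x100000400700d00e000800e03a41c511)) (.one (nat_lit 0x100200400700d00e400800e03a41d700))))) (.br (Nat.shiftLeft (nat_lit 0x3) (nat_lit 124)) (.br (Nat.shiftLeft (nat_lit 0x1) (nat_lit 125)) (.one (nat_lit 0x100300400700d00e600800e03a41d700)) (.br (Nat.shiftLeft (nat_lit 0x1001) (nat_lit 113)) (.one (nat_lit 0x200000400700d00e000800e05a81c511)) (.one (nat_lit 0x200300400700d00e600800e05a81d700)))) (.br (Nat.shiftLeft (nat_lit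 0x5) (nat_lit 124)) (.br (Nat.shiftLeft (nat_lit 0x1) (nat_lit 126)) (.one (nat_lit 0x300000400700d00e000800e07ac1c511)) (.one (nat_lit 0x400000400700d00e000800e09b01c511))) (.br (Nat.shiftLeft (nat_lit 0x3) (nat_lit 125)) (.one (nat_lit 0x500000400700d00e000800e0bb41c511)) (.one (nat_lit 0x600000400700d00e000800e0db81c511))))))
def t261 : k261.all (jb2 57 fl b0) = true := by decide +kernel
noncomputable def k262 : KT := (.br (Nat.shiftLeft (nat_lit 0x1) (nat_lit 127)) (.one (nat_lit 0x700000400700d00e000800e0fbc1c511)) (.one (nat_lit 0x800000400700d00e000800e11c01c511)))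
def t262 : k262.all (jb2 57 fl b0) = true := by decide +kernel
noncomputable def k263 : KT := (.br (Nat.shiftLeft (nat_lit 0xd) (nat_lit 124)) (.br (Nat.shiftLeft (nat_lit 0xb) (nat_lit 124)) (.br (Nat.shiftLeft (nat_lit 0x5) (nat_lit 125)) (.one (nat_lit 0x900000400700d00e000800e13c41c511)) (.one (nat_lit 0xa00000400700d00e000800e15c81c511))) (.br (Nat.shiftLeft (nat_lit 0x3) (nat_lit 126)) (.one (nat_lit 0xb00000400700d00e000800e17cc1c511)) (.one (nat_lit 0xc00000400700d00e000800e19d01c511)))) (.br (Nat.shiftLeft (nat_lit 0x800001) (nat_lit 113)) (.br (Nat.shiftLeft (nat_lit 0x1) (nat_lit 136)) (.one (nat_lit 0xd00000400700d00e000800e1bd41c511)) (.one (nat_lit 0x100000100400700d00e200802e41a01c611))) (.br (Nat.shiftLeft (nat_lit 0x1000003) (nat_lit 112)) (.one (nat_lit 0x100000200400700d00e400802e41a01c611)) (.one (nat_lit 0x100000300400700d00e600802e41a01c611)))))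
def t263 : k263.all (jb2 57 fl b0) = true := by decide +kernel
noncomputable def k264 : KT := (.br (Nat.shiftLeft (nat_lit 0x1800001) (nat_lit 113)) (.br (Nat.shiftLeft (nat_lit 0x1000001) (nat_lit 113)) (.br (Nat.shiftLeft (nat_lit 0x1) (nat_lit 137)) (.one (nat_lit 0x100200300400700d00e600802e45a81c870)) (.one (nat_lit 0x200000100400700d00e200804e81a01c611))) (.br (Nat.shiftLeft (nat_lit 0x2000003) (nat_lit 112)) (.one (nat_lit 0x200000200400700d00e400804e81a01c611)) (.br (Nat.shiftLeft (nat_lit 0x3) (nat_lit 136)) (.one (nat_lit 0x200000300400700d00e600804e81a01c611)) (.one (nat_lit 0x300000100400700d00e200806ec1a01c611))))) (.br (Nat.shiftLeft (nat_lit 0x1) (nat_lit 138)) (.br (Nat.shiftLeft (nat_lit 0x3000003) (nat_lit 112)) (.one (nat_lit 0x300000200400700d00e400806ec1a01c611)) (.one (nat_lit 0x300000300400700d00e600806ec1a01c611))) (.br (Nat.shiftLeft (nat_lit 0x2000001) (nat_lit 113)) (.one (nat_lit 0x400000100400700d00e200808f01a01c611)) (.br (Nat.shiftLeft (nat_lit 0x4000003) (nat_lit 112)) (.one (nat_lit 0x400000200400700d00e400808f01a01c611))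 (.one (nat_lit 0x400000300400700d00e600808f01a01c611))))))
def t264 : k264.all (jb2 57 fl b0) = true := by decide +kernel
noncomputable def k265 : KT := (.br (Nat.shiftLeft (nat_lit 0x2800001) (nat_lit 113)) (.one (nat_lit 0x500000100400700d00e20080af41a01c611)) (.br (Nat.shiftLeft (nat_lit 0x5000003) (nat_lit 112)) (.one (nat_lit 0x500000200400700d00e40080af41a01c611)) (.one (nat_lit 0x500000300400700d00e60080af41a01c611))))
def t265 : k265.all (jb2 57 fl b0) = true := by decide +kernel
noncomputable def k266 : KT := (.br (Nat.shiftLeft (nat_lit 0x3000001) (nat_lit 113)) (.one (nat_lit 0x600000100400700d00e20080cf81a01c611)) (.one (nat_lit 0x600000200400700d00e40080cf81a01c611)))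
def t266 : k266.all (jb2 57 fl b0) = true := by decide +kernel
noncomputable def k267 : KT := (.br (Nat.shiftLeft (nat_lit 0x7) (nat_lit 136)) (.one (nat_lit 0x600000300400700d00e60080cf81a01c611)) (.one (nat_lit 0x700000100400700d00e20080efc1a01c611)))
def t267 : k267.all (jb2 57 fl b0) = true := by decide +kernel
noncomputable def k268 : KT := (.br (Nat.shiftLeft (nat_lit 0x7000003) (nat_lit 112)) (.one (nat_lit 0x700000200400700d00e40080efc1a01c611)) (.br (Nat.shiftLeft (nat_lit 0x1) (nat_lit 139)) (.one (nat_lit 0x700000300400700d00e60080efc1a01c611)) (.one (nat_lit 0x800000100400700d00e200811001a01c611))))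
def t268 : k268.all (jb2 57 fl b0) = true := by decide +kernel
noncomputable def k269 : KT := (.br (Nat.shiftLeft (nat_lit 0x9) (nat_lit 136)) (.br (Nat.shiftLeft (nat_lit 0x8000003) (nat_lit 112)) (.one (nat_lit 0x800000200400700d00e400811001a01c611)) (.one (nat_lit 0x800000300400700d00e600811001a01c611))) (.br (Nat.shiftLeft (nat_lit 0x4800001) (nat_lit 113)) (.one (nat_lit 0x900000100400700d00e200813041a01c611)) (.br (Nat.shiftLeft (nat_lit 0x9000003) (nat_lit 112)) (.one (nat_lit 0x900000200400700d00e400813041a01c611)) (.one (nat_lit 0x900000300400700d00e600813041a01c611)))))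
def t269 : k269.all (jb2 57 fl b0) = true := by decide +kernel
noncomputable def k270 : KT := (.br (Nat.shiftLeft (nat_lit 0xd000003) (nat_lit 112)) (.br (Nat.shiftLeft (nat_lit 0xb000003) (nat_lit 112)) (.br (Nat.shiftLeft (nat_lit 0xa000003) (nat_lit 112)) (.br (Nat.shiftLeft (nat_lit 0x5000001) (nat_lit 113)) (.one (nat_lit 0xa00000100400700d00e200815081a01c611)) (.one (nat_lit 0xa00000200400700d00e400815081a01c611))) (.br (Nat.shiftLeft (nat_lit 0xb) (nat_lit 136)) (.one (nat_lit 0xa00000300400700d00e600815081a01c611)) (.br (Nat.shiftLeft (nat_lit 0x5800001) (nat_lit 113)) (.one (nat_lit 0xb00000100400700d00e2008170c1a01c611)) (.one (nat_lit 0xb00000200400700d00e4008170c1a01c611))))) (.br (Nat.shiftLeft (nat_lit 0xc000003) (nat_lit 112)) (.br (Nat.shiftLeft (nat_lit 0x3) (nat_lit 138)) (.one (nat_lit 0xb00000300400700d00e6008170c1a01c611)) (.br (Nat.shiftLeft (nat_lit 0x6000001) (nat_lit 113)) (.one (nat_lit 0xc00000100400700d00e200819101a01c611)) (.one (nat_lit 0xc00000200400700d00e400819101a01c611)))) (.br (Nat.shiftLeft (nat_lit 0xd)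 (nat_lit 136)) (.one (nat_lit 0xc00000300400700d00e600819101a01c611)) (.br (Nat.shiftLeft (nat_lit 0x6800001) (nat_lit 113)) (.one (nat_lit 0xd00000100400700d00e20081b141a01c611)) (.one (nat_lit 0xd00000200400700d00e40081b141a01c611)))))) (.br (Nat.shiftLeft (nat_lit 0x2000001003) (nat_lit 112)) (.br (Nat.shiftLeft (nat_lit 0x1000001003) (nat_lit 112)) (.br (Nat.shiftLeft (nat_lit 0x1) (nat_lit 148)) (.one (nat_lit 0xd00000300400700d00e60081b141a01c611)) (.one (nat_lit 0x100000100200400700d00e402840e03a41c711))) (.br (Nat.shiftLeft (nat_lit 0x800001) (nat_lit 125)) (.one (nat_lit 0x100000100300400700d00e602840e03a41c711)) (.br (Nat.shiftLeft (nat_lit 0x1) (nat_lit 149)) (.one (nat_lit 0x100000200300400700d00e602840e05a81c711)) (.one (nat_lit 0x200000100200400700d00e404880e03a41c711))))) (.br (Nat.shiftLeft (nat_lit 0x3000001003) (nat_lit 112)) (.br (Nat.shiftLeft (nat_lit 0x1000001) (nat_lit 125)) (.one (nat_lit 0x200000100300400700d00e604880e03a41c711)) (.br (Nat.shiftLeft (nat_lit 0x3) (nat_lit 148)) (.one (nat_lit 0x200000200300400700d00e604880e05a81c711))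 (.one (nat_lit 0x300000100200400700d00e4068c0e03a41c711)))) (.br (Nat.shiftLeft (nat_lit 0x1800001) (nat_lit 125)) (.one (nat_lit 0x300000100300400700d00e6068c0e03a41c711)) (.br (Nat.shiftLeft (nat_lit 0x1) (nat_lit 150)) (.one (nat_lit 0x300000200300400700d00e6068c0e05a81c711)) (.one (nat_lit 0x400000100200400700d00e408900e03a41c711)))))))
def t270 : k270.all (jb2 57 fl b0) = true := by decide +kernel
noncomputable def k271 : KT := (.br (Nat.shiftLeft (nat_lit 0x5) (nat_lit 148)) (.br (Nat.shiftLeft (nat_lit 0x2000001) (nat_lit 125)) (.one (nat_lit 0x400000100300400700d00e608900e03a41c711)) (.one (nat_lit 0x400000200300400700d00e608900e05a81c711))) (.br (Nat.shiftLeft (nat_lit 0x5000001003) (nat_lit 112)) (.one (nat_lit 0x500000100200400700d00e40a940e03a41c711)) (.br (Nat.shiftLeft (nat_lit 0x2800001) (nat_lit 125)) (.one (nat_lit 0x500000100300400700d00e60a940e03a41c711)) (.one (nat_lit 0x500000200300400700d00e60a940e05a81c711)))))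
def t271 : k271.all (jb2 57 fl b0) = true := by decide +kernel
noncomputable def k272 : KT := (.br (Nat.shiftLeft (nat_lit 0x3000001) (nat_lit 125)) (.br (Nat.shiftLeft (nat_lit 0x6000001003) (nat_lit 112)) (.one (nat_lit 0x600000100200400700d00e40c980e03a41c711)) (.one (nat_lit 0x600000100300400700d00e60c980e03a41c711))) (.br (Nat.shiftLeft (nat_lit 0x7) (nat_lit 148)) (.one (nat_lit 0x600000200300400700d00e60c980e05a81c711)) (.one (nat_lit 0x700000100200400700d00e40e9c0e03a41c711))))
def t272 : k272.all (jb2 57 fl b0) = true := by decide +kernel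
noncomputable def k273 : KT := (.br (Nat.shiftLeft (nat_lit 0x9) (nat_lit 148)) (.br (Nat.shiftLeft (nat_lit 0x1) (nat_lit 151)) (.br (Nat.shiftLeft (nat_lit 0x3800001) (nat_lit 125)) (.one (nat_lit 0x700000100300400700d00e60e9c0e03a41c711)) (.one (nat_lit 0x700000200300400700d00e60e9c0e05a81c711))) (.br (Nat.shiftLeft (nat_lit 0x8000001003) (nat_lit 112)) (.one (nat_lit 0x800000100200400700d00e410a00e03a41c711)) (.br (Nat.shiftLeft (nat_lit 0x4000001) (nat_lit 125)) (.one (nat_lit 0x800000100300400700d00e610a00e03a41c711)) (.one (nat_lit 0x800000200300400700d00e610a00e05a81c711))))) (.br (Nat.shiftLeft (nat_lit 0x5) (nat_lit 149)) (.br (Nat.shiftLeft (nat_lit 0x9000001003) (nat_lit 112)) (.one (nat_lit 0x900000100200400700d00e412a40e03a41c711)) (.br (Nat.shiftLeft (nat_lit 0x4800001) (nat_lit 125)) (.one (nat_lit 0x900000100300400700d00e612a40e03a41c711)) (.one (nat_lit 0x900000200300400700d00e612a40e05a81c711)))) (.br (Nat.shiftLeft (nat_lit 0xa000001003) (nat_lit 112)) (.one (nat_lit 0xa00000100200400700d00e414a80e03a41c711)) (.br (Nat.shiftLeft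 (nat_lit 0x5000001) (nat_lit 125)) (.one (nat_lit 0xa00000100300400700d00e614a80e03a41c711)) (.one (nat_lit 0xa00000200300400700d00e614a80e05a81c711))))))
def t273 : k273.all (jb2 57 fl b0) = true := by decide +kernel
noncomputable def k274 : KT := (.br (Nat.shiftLeft (nat_lit 0xc000001003) (nat_lit 112)) (.br (Nat.shiftLeft (nat_lit 0x5800001) (nat_lit 125)) (.br (Nat.shiftLeft (nat_lit 0xb000001003) (nat_lit 112)) (.one (nat_lit 0xb00000100200400700d00e416ac0e03a41c711)) (.one (nat_lit 0xb00000100300400700d00e616ac0e03a41c711))) (.br (Nat.shiftLeft (nat_lit 0x3) (nat_lit 150)) (.one (nat_lit 0xb00000200300400700d00e616ac0e05a81c711)) (.one (nat_lit 0xc00000100200400700d00e418b00e03a41c711)))) (.br (Nat.shiftLeft (nat_lit 0xd) (nat_lit 148)) (.br (Nat.shiftLeft (nat_lit 0x6000001) (nat_lit 125)) (.one (nat_lit 0xc00000100300400700d00e618b00e03a41c711)) (.one (nat_lit 0xc00000200300400700d00e618b00e05a81c711))) (.br (Nat.shiftLeft (nat_lit 0xd000001003) (nat_lit 112)) (.one (nat_lit 0xd00000100200400700d00e41ab40e03a41c711)) (.br (Nat.shiftLeft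 (nat_lit 0x6800001) (nat_lit 125)) (.one (nat_lit 0xd00000100300400700d00e61ab40e03a41c711)) (.one (nat_lit 0xd00000200300400700d00e61ab40e05a81c711))))))
def t274 : k274.all (jb2 57 fl b0) = true := by decide +kernel
noncomputable def s14 : KT := (.br (nat_lit 0x700000100400700d00e20080efc1a01c611) (.br (nat_lit 0x100000300400700d00e600802e41a01c611) (.br (nat_lit 0x600000400700d00e000800e0db81c511) k261 (.br (nat_lit 0x800000400700d00e000800e11c01c511) k262 k263)) (.br (nat_lit 0x500000300400700d00e60080af41a01c611) (.br (nat_lit 0x400000300400700d00e600808f01a01c611) k264 k265) (.br (nat_lit 0x600000200400700d00e40080cf81a01c611) k266 k267))) (.br (nat_lit 0x400000100200400700d00e408900e03a41c711) (.br (nat_lit 0x800000100400700d00e200811001a01c611) k268 (.br (nat_lit 0x900000300400700d00e600813041a01c611) k269 k270)) (.br (nat_lit 0x700000100200400700d00e40e9c0e03a41c711) (.br (nat_lit 0x500000200300400700d00e60a940e05a81c711) k271 k272) (.br (nat_lit 0xa00000200300400700d00e614a80e05a81c711) k273 k274))))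
noncomputable def u14 : KT := (.one (nat_lit 0x400700d00e000800e01a01c540))
def w14 : u14.all (wj 57 s14) = true := by decide +kernel
def o14 : OkW 57 (jb2 57 fl) u14 := .lift s14 _ (.br _ _ _ (.br _ _ _ (.br _ _ _ (.leaf b0 k261 t261) (.br _ _ _ (.leaf b0 k262 t262) (.leaf b0 k263 t263))) (.br _ _ _ (.br _ _ _ (.leaf b0 k264 t264) (.leaf b0 k265 t265)) (.br _ _ _ (.leaf b0 k266 t266) (.leaf b0 k267 t267)))) (.br _ _ _ (.br _ _ _ (.leaf b0 k268 t268) (.br _ _ _ (.leaf b0 k269 t269) (.leaf b0 k270 t270))) (.br _ _ _ (.br _ _ _ (.leaf b0 k271 t271) (.leaf b0 k272 t272)) (.br _ _ _ (.leaf b0 k273 t273) (.leaf b0 k274 t274))))) w14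
noncomputable def k275 : KT := (.br (Nat.shiftLeft (nat_lit 0x200400700d011) (nat_lit 64)) (.br (Nat.shiftLeft (nat_lit 0x100400700d01) (nat_lit 68)) (.br (Nat.shiftLeft (nat_lit 0x400700d011) (nat_lit 64)) (.br (Nat.shiftLeft (nat_lit 0x400700d01) (nat_lit 68)) (.one (nat_lit 0x400700d00f000800e01a01f500)) (.one (nat_lit 0x400700d010000800e01a021500))) (.br (Nat.shiftLeft (nat_lit 0x1) (nat_lit 112)) (.one (nat_lit 0x400700d011000800e01a023500)) (.one (nat_lit 0x100400700d00f200800e01a01f600)))) (.br (Nat.shiftLeft (nat_lit 0x1) (nat_lit 113)) (.br (Nat.shiftLeft (nat_lit 0x100400700d011) (nat_lit 64)) (.one (nat_lit 0x100400700d010200800e01a021600)) (.one (nat_lit 0x100400700d011200800e01a022650))) (.br (Nat.shiftLeft (nat_lit 0x200400700d01) (nat_lit 68)) (.one (nat_lit 0x200400700d00f400800e01a01f600)) (.one (nat_lit 0x200400700d010400800e01a021600))))) (.br (Nat.shiftLeft (nat_lit 0x1) (nat_lit 124)) (.br (Nat.shiftLeft (nat_lit 0x300400700d01) (nat_lit 68)) (.br (Nat.shiftLeft (nat_lit 0x3) (nat_lit 112)) (.one (nat_lit 0x200400700d011400800e01a023600))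 (.one (nat_lit 0x300400700d00f600800e01a01f600))) (.br (Nat.shiftLeft (nat_lit 0x300400700d011) (nat_lit 64)) (.one (nat_lit 0x300400700d010600800e01a021600)) (.one (nat_lit 0x300400700d011600800e01a023600)))) (.br (Nat.shiftLeft (nat_lit 0x100000400700d011) (nat_lit 64)) (.br (Nat.shiftLeft (nat_lit 0x100000400700d01) (nat_lit 68)) (.one (nat_lit 0x100000400700d00f000800e03a41e511)) (.one (nat_lit 0x100000400700d010000800e03a420511))) (.br (Nat.shiftLeft (nat_lit 0x801) (nat_lit 113)) (.one (nat_lit 0x100000400700d011000800e03a422511)) (.one (nat_lit 0x100200400700d00f400800e03a41f700))))))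
def t275 : k275.all (jb2 57 fl b0) = true := by decide +kernel
noncomputable def k276 : KT := (.one (nat_lit 0x100200400700d010400800e03a420760))
def t276 : k276.all (jb2 57 fl b0) = true := by decide +kernel
noncomputable def k277 : KT := (.one (nat_lit 0x100200400700d011400800e03a422760))
def t277 : k277.all (jb2 57 fl b0) = true := by decide +kernel
noncomputable def k278 : KT := (.one (nat_lit 0x100300400700d00f600800e03a41e760))
def t278 : k278.all (jb2 57 fl b0) = true := by decide +kernel
noncomputable def k279 : KT := (.br (Nat.shiftLeft (nat_lit 0x1) (nat_lit 125)) (.br (Nat.shiftLeft (nat_lit 0x100300400700d011) (nat_lit 64)) (.one (nat_lit 0x100300400700d010600800e03a420760)) (.one (nat_lit 0x100300400700d011600800e03a422760))) (.br (Nat.shiftLeft (nat_lit 0x200000400700d01) (nat_lit 68)) (.one (nat_lit 0x200000400700d00f000800e05a81e511)) (.br (Nat.shiftLeft (nat_lit 0x200000400700d011) (nat_lit 64)) (.one (nat_lit 0x200000400700d010000800e05a820511)) (.one (nat_lit 0x200000400700d011000800e05a822511)))))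
def t279 : k279.all (jb2 57 fl b0) = true := by decide +kernel
noncomputable def k280 : KT := (.one (nat_lit 0x200300400700d00f600800e05a81e760))
def t280 : k280.all (jb2 57 fl b0) = true := by decide +kernel
noncomputable def k281 : KT := (.br (Nat.shiftLeft (nat_lit 0x3) (nat_lit 124)) (.br (Nat.shiftLeft (nat_lit 0x200300400700d011) (nat_lit 64)) (.one (nat_lit 0x200300400700d010600800e05a820760)) (.one (nat_lit 0x200300400700d011600800e05a822760))) (.br (Nat.shiftLeft (nat_lit 0x300000400700d01) (nat_lit 68)) (.one (nat_lit 0x300000400700d00f000800e07ac1e511)) (.br (Nat.shiftLeft (nat_lit 0x300000400700d011) (nat_lit 64)) (.one (nat_lit 0x300000400700d010000800e07ac20511)) (.one (nat_lit 0x300000400700d011000800e07ac22511)))))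
def t281 : k281.all (jb2 57 fl b0) = true := by decide +kernel
noncomputable def k282 : KT := (.br (Nat.shiftLeft (nat_lit 0x5) (nat_lit 124)) (.br (Nat.shiftLeft (nat_lit 0x400000400700d01) (nat_lit 68)) (.one (nat_lit 0x400000400700d00f000800e09b01e511)) (.br (Nat.shiftLeft (nat_lit 0x400000400700d011) (nat_lit 64)) (.one (nat_lit 0x400000400700d010000800e09b020511)) (.one (nat_lit 0x400000400700d011000800e09b022511)))) (.br (Nat.shiftLeft (nat_lit 0x500000400700d01) (nat_lit 68)) (.one (nat_lit 0x500000400700d00f000800e0bb41e511)) (.br (Nat.shiftLeft (nat_lit 0x500000400700d011) (nat_lit 64)) (.one (nat_lit 0x500000400700d010000800e0bb420511)) (.one (nat_lit 0x500000400700d011000800e0bb422511)))))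
def t282 : k282.all (jb2 57 fl b0) = true := by decide +kernel
noncomputable def k283 : KT := (.br (Nat.shiftLeft (nat_lit 0x600000400700d01) (nat_lit 68)) (.one (nat_lit 0x600000400700d00f000800e0db81e511)) (.br (Nat.shiftLeft (nat_lit 0x600000400700d011) (nat_lit 64)) (.one (nat_lit 0x600000400700d010000800e0db820511)) (.one (nat_lit 0x600000400700d011000800e0db822511))))
def t283 : k283.all (jb2 57 fl b0) = true := by decide +kernel
noncomputable def k284 : KT := (.br (Nat.shiftLeft (nat_lit 0x700000400700d01) (nat_lit 68)) (.one (nat_lit 0x700000400700d00f000800e0fbc1e511)) (.br (Nat.shiftLeft (nat_lit 0x700000400700d011) (nat_lit 64)) (.one (nat_lit 0x700000400700d010000800e0fbc20511)) (.one (nat_lit 0x700000400700d011000800e0fbc22511))))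
def t284 : k284.all (jb2 57 fl b0) = true := by decide +kernel
noncomputable def k285 : KT := (.br (Nat.shiftLeft (nat_lit 0x800000400700d011) (nat_lit 64)) (.br (Nat.shiftLeft (nat_lit 0x800000400700d01) (nat_lit 68)) (.one (nat_lit 0x800000400700d00f000800e11c01e511)) (.one (nat_lit 0x800000400700d010000800e11c020511))) (.br (Nat.shiftLeft (nat_lit 0x9) (nat_lit 124)) (.one (nat_lit 0x800000400700d011000800e11c022511)) (.one (nat_lit 0x900000400700d00f000800e13c41e511))))
def t285 : k285.all (jb2 57 fl b0) = true := by decide +kernel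
noncomputable def k286 : KT := (.br (Nat.shiftLeft (nat_lit 0xc00000400700d011) (nat_lit 64)) (.br (Nat.shiftLeft (nat_lit 0xb) (nat_lit 124)) (.br (Nat.shiftLeft (nat_lit 0x5) (nat_lit 125)) (.br (Nat.shiftLeft (nat_lit 0x900000400700d011) (nat_lit 64)) (.one (nat_lit 0x900000400700d010000800e13c420511)) (.one (nat_lit 0x900000400700d011000800e13c422511))) (.br (Nat.shiftLeft (nat_lit 0xa00000400700d01) (nat_lit 68)) (.one (nat_lit 0xa00000400700d00f000800e15c81e511)) (.br (Nat.shiftLeft (nat_lit 0xa00000400700d011) (nat_lit 64)) (.one (nat_lit 0xa00000400700d010000800e15c820511)) (.one (nat_lit 0xa00000400700d011000800e15c822511))))) (.br (Nat.shiftLeft (nat_lit 0xb00000400700d011) (nat_lit 64)) (.br (Nat.shiftLeft (nat_lit 0xb00000400700d01) (nat_lit 68)) (.one (nat_lit 0xb00000400700d00f000800e17cc1e511)) (.one (nat_lit 0xb00000400700d010000800e17cc20511))) (.br (Nat.shiftLeft (nat_lit 0x3) (nat_lit 126)) (.one (nat_lit 0xb00000400700d011000800e17cc22511)) (.br (Nat.shiftLeft (nat_lit 0xc00000400700d01) (nat_lit 68)) (.one (nat_lit 0xc00000400700d00f000800e19d01e511))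 (.one (nat_lit 0xc00000400700d010000800e19d020511)))))) (.br (Nat.shiftLeft (nat_lit 0x100000100400700d01) (nat_lit 68)) (.br (Nat.shiftLeft (nat_lit 0xd00000400700d01) (nat_lit 68)) (.br (Nat.shiftLeft (nat_lit 0xd) (nat_lit 124)) (.one (nat_lit 0xc00000400700d011000800e19d022511)) (.one (nat_lit 0xd00000400700d00f000800e1bd41e511))) (.br (Nat.shiftLeft (nat_lit 0xd00000400700d011) (nat_lit 64)) (.one (nat_lit 0xd00000400700d010000800e1bd420511)) (.br (Nat.shiftLeft (nat_lit 0x1) (nat_lit 136)) (.one (nat_lit 0xd00000400700d011000800e1bd422511)) (.one (nat_lit 0x100000100400700d00f200802e41a01e611))))) (.br (Nat.shiftLeft (nat_lit 0x100000200400700d011) (nat_lit 64)) (.br (Nat.shiftLeft (nat_lit 0x800001) (nat_lit 113)) (.one (nat_lit 0x100000100400700d010200802e41a020611)) (.br (Nat.shiftLeft (nat_lit 0x100000200400700d01) (nat_lit 68)) (.one (nat_lit 0x100000200400700d00f400802e41a01e611)) (.one (nat_lit 0x100000200400700d010400802e41a020611)))) (.br (Nat.shiftLeft (nat_lit 0x1000003) (nat_lit 112)) (.one (nat_lit 0x100000200400700d011400802e41a022611))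 (.br (Nat.shiftLeft (nat_lit 0x100000300400700d01) (nat_lit 68)) (.one (nat_lit 0x100000300400700d00f600802e41a01e611)) (.one (nat_lit 0x100000300400700d010600802e41a020611)))))))
def t286 : k286.all (jb2 57 fl b0) = true := by decide +kernel
noncomputable def k287 : KT := (.br (Nat.shiftLeft (nat_lit 0x300000200400700d01) (nat_lit 68)) (.br (Nat.shiftLeft (nat_lit 0x2000003) (nat_lit 112)) (.br (Nat.shiftLeft (nat_lit 0x1000001) (nat_lit 113)) (.br (Nat.shiftLeft (nat_lit 0x1) (nat_lit 137)) (.one (nat_lit 0x100000300400700d011600802e41a022611)) (.br (Nat.shiftLeft (nat_lit 0x200000100400700d01) (nat_lit 68)) (.one (nat_lit 0x200000100400700d00f200804e81a01e611)) (.one (nat_lit 0x200000100400700d010200804e81a020611)))) (.br (Nat.shiftLeft (nat_lit 0x200000200400700d01) (nat_lit 68)) (.one (nat_lit 0x200000200400700d00f400804e81a01e611)) (.br (Nat.shiftLeft (nat_lit 0x200000200400700d011) (nat_lit 64)) (.one (nat_lit 0x200000200400700d010400804e81a020611)) (.one (nat_lit 0x200000200400700d011400804e81a022611))))) (.br (Nat.shiftLeft (nat_lit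 0x3) (nat_lit 136)) (.br (Nat.shiftLeft (nat_lit 0x200000300400700d01) (nat_lit 68)) (.one (nat_lit 0x200000300400700d00f600804e81a01e611)) (.br (Nat.shiftLeft (nat_lit 0x200000300400700d011) (nat_lit 64)) (.one (nat_lit 0x200000300400700d010600804e81a020611)) (.one (nat_lit 0x200000300400700d011600804e81a022611)))) (.br (Nat.shiftLeft (nat_lit 0x300000100400700d01) (nat_lit 68)) (.one (nat_lit 0x300000100400700d00f200806ec1a01e611)) (.br (Nat.shiftLeft (nat_lit 0x1800001) (nat_lit 113)) (.one (nat_lit 0x300000100400700d010200806ec1a020611)) (.one (nat_lit 0x300000200400700d00f400806ec1a01e611)))))) (.br (Nat.shiftLeft (nat_lit 0x400000100400700d01) (nat_lit 68)) (.br (Nat.shiftLeft (nat_lit 0x300000300400700d01) (nat_lit 68)) (.br (Nat.shiftLeft (nat_lit 0x300000200400700d011) (nat_lit 64)) (.one (nat_lit 0x300000200400700d010400806ec1a020611)) (.br (Nat.shiftLeft (nat_lit 0x3000003) (nat_lit 112)) (.one (nat_lit 0x300000200400700d011400806ec1a022611)) (.one (nat_lit 0x300000300400700d00f600806ec1a01e611)))) (.br (Nat.shiftLeft (nat_lit 0x300000300400700d011)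 (nat_lit 64)) (.one (nat_lit 0x300000300400700d010600806ec1a020611)) (.br (Nat.shiftLeft (nat_lit 0x1) (nat_lit 138)) (.one (nat_lit 0x300000300400700d011600806ec1a022611)) (.one (nat_lit 0x400000100400700d00f200808f01a01e611))))) (.br (Nat.shiftLeft (nat_lit 0x400000200400700d011) (nat_lit 64)) (.br (Nat.shiftLeft (nat_lit 0x2000001) (nat_lit 113)) (.one (nat_lit 0x400000100400700d010200808f01a020611)) (.br (Nat.shiftLeft (nat_lit 0x400000200400700d01) (nat_lit 68)) (.one (nat_lit 0x400000200400700d00f400808f01a01e611)) (.one (nat_lit 0x400000200400700d010400808f01a020611)))) (.br (Nat.shiftLeft (nat_lit 0x400000300400700d01) (nat_lit 68)) (.br (Nat.shiftLeft (nat_lit 0x4000003) (nat_lit 112)) (.one (nat_lit 0x400000200400700d011400808f01a022611)) (.one (nat_lit 0x400000300400700d00f600808f01a01e611))) (.br (Nat.shiftLeft (nat_lit 0x400000300400700d011) (nat_lit 64)) (.one (nat_lit 0x400000300400700d010600808f01a020611)) (.one (nat_lit 0x400000300400700d011600808f01a022611)))))))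
def t287 : k287.all (jb2 57 fl b0) = true := by decide +kernel
noncomputable def k288 : KT := (.br (Nat.shiftLeft (nat_lit 0x2800001) (nat_lit 113)) (.br (Nat.shiftLeft (nat_lit 0x500000100400700d01) (nat_lit 68)) (.one (nat_lit 0x500000100400700d00f20080af41a01e611)) (.one (nat_lit 0x500000100400700d01020080af41a020611))) (.br (Nat.shiftLeft (nat_lit 0x500000200400700d01) (nat_lit 68)) (.one (nat_lit 0x500000200400700d00f40080af41a01e611)) (.one (nat_lit 0x500000200400700d01040080af41a020611))))
def t288 : k288.all (jb2 57 fl b0) = true := by decide +kernel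
noncomputable def k289 : KT := (.br (Nat.shiftLeft (nat_lit 0x500000300400700d01) (nat_lit 68)) (.br (Nat.shiftLeft (nat_lit 0x5000003) (nat_lit 112)) (.one (nat_lit 0x500000200400700d01140080af41a022611)) (.one (nat_lit 0x500000300400700d00f60080af41a01e611))) (.br (Nat.shiftLeft (nat_lit 0x500000300400700d011) (nat_lit 64)) (.one (nat_lit 0x500000300400700d01060080af41a020611)) (.br (Nat.shiftLeft (nat_lit 0x3) (nat_lit 137)) (.one (nat_lit 0x500000300400700d01160080af41a022611)) (.one (nat_lit 0x600000100400700d00f20080cf81a01e611)))))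
def t289 : k289.all (jb2 57 fl b0) = true := by decide +kernel
noncomputable def k290 : KT := (.br (Nat.shiftLeft (nat_lit 0x600000200400700d01) (nat_lit 68)) (.br (Nat.shiftLeft (nat_lit 0x3000001) (nat_lit 113)) (.one (nat_lit 0x600000100400700d01020080cf81a020611)) (.one (nat_lit 0x600000200400700d00f40080cf81a01e611))) (.br (Nat.shiftLeft (nat_lit 0x600000200400700d011) (nat_lit 64)) (.one (nat_lit 0x600000200400700d01040080cf81a020611)) (.one (nat_lit 0x600000200400700d01140080cf81a022611))))
def t290 : k290.all (jb2 57 fl b0) = true := by decide +kernel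
noncomputable def k291 : KT := (.br (Nat.shiftLeft (nat_lit 0x600000300400700d011) (nat_lit 64)) (.br (Nat.shiftLeft (nat_lit 0x600000300400700d01) (nat_lit 68)) (.one (nat_lit 0x600000300400700d00f60080cf81a01e611)) (.one (nat_lit 0x600000300400700d01060080cf81a020611))) (.br (Nat.shiftLeft (nat_lit 0x7) (nat_lit 136)) (.one (nat_lit 0x600000300400700d01160080cf81a022611)) (.one (nat_lit 0x700000100400700d00f20080efc1a01e611))))
def t291 : k291.all (jb2 57 fl b0) = true := by decide +kernel
noncomputable def k292 : KT := (.br (Nat.shiftLeft (nat_lit 0x700000200400700d01) (nat_lit 68)) (.br (Nat.shiftLeft (nat_lit 0x3800001) (nat_lit 113)) (.one (nat_lit 0x700000100400700d01020080efc1a020611)) (.one (nat_lit 0x700000200400700d00f40080efc1a01e611))) (.br (Nat.shiftLeft (nat_lit 0x700000200400700d011) (nat_lit 64)) (.one (nat_lit 0x700000200400700d01040080efc1a020611)) (.br (Nat.shiftLeft (nat_lit 0x7000003) (nat_lit 112)) (.one (nat_lit 0x700000200400700d01140080efc1a022611)) (.one (nat_lit 0x700000300400700d00f60080efc1a01e611)))))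
def t292 : k292.all (jb2 57 fl b0) = true := by decide +kernel
noncomputable def k293 : KT := (.br (Nat.shiftLeft (nat_lit 0x800000100400700d01) (nat_lit 68)) (.br (Nat.shiftLeft (nat_lit 0x700000300400700d011) (nat_lit 64)) (.one (nat_lit 0x700000300400700d01060080efc1a020611)) (.br (Nat.shiftLeft (nat_lit 0x1) (nat_lit 139)) (.one (nat_lit 0x700000300400700d01160080efc1a022611)) (.one (nat_lit 0x800000100400700d00f200811001a01e611)))) (.br (Nat.shiftLeft (nat_lit 0x4000001) (nat_lit 113)) (.one (nat_lit 0x800000100400700d010200811001a020611)) (.br (Nat.shiftLeft (nat_lit 0x800000200400700d01) (nat_lit 68)) (.one (nat_lit 0x800000200400700d00f400811001a01e611)) (.one (nat_lit 0x800000200400700d010400811001a020611)))))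
def t293 : k293.all (jb2 57 fl b0) = true := by decide +kernel
noncomputable def k294 : KT := (.br (Nat.shiftLeft (nat_lit 0x4800001) (nat_lit 113)) (.br (Nat.shiftLeft (nat_lit 0x800000300400700d011) (nat_lit 64)) (.br (Nat.shiftLeft (nat_lit 0x8000003) (nat_lit 112)) (.one (nat_lit 0x800000200400700d011400811001a022611)) (.br (Nat.shiftLeft (nat_lit 0x800000300400700d01) (nat_lit 68)) (.one (nat_lit 0x800000300400700d00f600811001a01e611)) (.one (nat_lit 0x800000300400700d010600811001a020611)))) (.br (Nat.shiftLeft (nat_lit 0x9) (nat_lit 136)) (.one (nat_lit 0x800000300400700d011600811001a022611)) (.br (Nat.shiftLeft (nat_lit 0x900000100400700d01) (nat_lit 68)) (.one (nat_lit 0x900000100400700d00f200813041a01e611)) (.one (nat_lit 0x900000100400700d010200813041a020611))))) (.br (Nat.shiftLeft (nat_lit 0x9000003) (nat_lit 112)) (.br (Nat.shiftLeft (nat_lit 0x900000200400700d01) (nat_lit 68)) (.one (nat_lit 0x900000200400700d00f400813041a01e611)) (.br (Nat.shiftLeft (nat_lit 0x900000200400700d011) (nat_lit 64)) (.one (nat_lit 0x900000200400700d010400813041a020611))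 (.one (nat_lit 0x900000200400700d011400813041a022611)))) (.br (Nat.shiftLeft (nat_lit 0x900000300400700d01) (nat_lit 68)) (.one (nat_lit 0x900000300400700d00f600813041a01e611)) (.br (Nat.shiftLeft (nat_lit 0x900000300400700d011) (nat_lit 64)) (.one (nat_lit 0x900000300400700d010600813041a020611)) (.one (nat_lit 0x900000300400700d011600813041a022611))))))
def t294 : k294.all (jb2 57 fl b0) = true := by decide +kernel
noncomputable def k295 : KT := (.br (Nat.shiftLeft (nat_lit 0x6000001) (nat_lit 113)) (.br (Nat.shiftLeft (nat_lit 0xb00000100400700d01) (nat_lit 68)) (.br (Nat.shiftLeft (nat_lit 0xa00000200400700d011) (nat_lit 64)) (.br (Nat.shiftLeft (nat_lit 0x5000001) (nat_lit 113)) (.br (Nat.shiftLeft (nat_lit 0xa00000100400700d01) (nat_lit 68)) (.one (nat_lit 0xa00000100400700d00f200815081a01e611)) (.one (nat_lit 0xa00000100400700d010200815081a020611))) (.br (Nat.shiftLeft (nat_lit 0xa00000200400700d01) (nat_lit 68)) (.one (nat_lit 0xa00000200400700d00f400815081a01e611)) (.one (nat_lit 0xa00000200400700d010400815081a020611)))) (.br (Nat.shiftLeft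 (nat_lit 0xa00000300400700d01) (nat_lit 68)) (.br (Nat.shiftLeft (nat_lit 0xa000003) (nat_lit 112)) (.one (nat_lit 0xa00000200400700d011400815081a022611)) (.one (nat_lit 0xa00000300400700d00f600815081a01e611))) (.br (Nat.shiftLeft (nat_lit 0xa00000300400700d011) (nat_lit 64)) (.one (nat_lit 0xa00000300400700d010600815081a020611)) (.br (Nat.shiftLeft (nat_lit 0xb) (nat_lit 136)) (.one (nat_lit 0xa00000300400700d011600815081a022611)) (.one (nat_lit 0xb00000100400700d00f2008170c1a01e611)))))) (.br (Nat.shiftLeft (nat_lit 0xb000003) (nat_lit 112)) (.br (Nat.shiftLeft (nat_lit 0xb00000200400700d01) (nat_lit 68)) (.br (Nat.shiftLeft (nat_lit 0x5800001) (nat_lit 113)) (.one (nat_lit 0xb00000100400700d0102008170c1a020611)) (.one (nat_lit 0xb00000200400700d00f4008170c1a01e611))) (.br (Nat.shiftLeft (nat_lit 0xb00000200400700d011) (nat_lit 64)) (.one (nat_lit 0xb00000200400700d0104008170c1a020611)) (.one (nat_lit 0xb00000200400700d0114008170c1a022611)))) (.br (Nat.shiftLeft (nat_lit 0xb00000300400700d011) (nat_lit 64)) (.br (Nat.shiftLeft (nat_lit 0xb00000300400700d01)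 (nat_lit 68)) (.one (nat_lit 0xb00000300400700d00f6008170c1a01e611)) (.one (nat_lit 0xb00000300400700d0106008170c1a020611))) (.br (Nat.shiftLeft (nat_lit 0x3) (nat_lit 138)) (.one (nat_lit 0xb00000300400700d0116008170c1a022611)) (.br (Nat.shiftLeft (nat_lit 0xc00000100400700d01) (nat_lit 68)) (.one (nat_lit 0xc00000100400700d00f200819101a01e611)) (.one (nat_lit 0xc00000100400700d010200819101a020611))))))) (.br (Nat.shiftLeft (nat_lit 0xd00000200400700d01) (nat_lit 68)) (.br (Nat.shiftLeft (nat_lit 0xc00000300400700d01) (nat_lit 68)) (.br (Nat.shiftLeft (nat_lit 0xc00000200400700d011) (nat_lit 64)) (.br (Nat.shiftLeft (nat_lit 0xc00000200400700d01) (nat_lit 68)) (.one (nat_lit 0xc00000200400700d00f400819101a01e611)) (.one (nat_lit 0xc00000200400700d010400819101a020611))) (.br (Nat.shiftLeft (nat_lit 0xc000003) (nat_lit 112)) (.one (nat_lit 0xc00000200400700d011400819101a022611)) (.one (nat_lit 0xc00000300400700d00f600819101a01e611)))) (.br (Nat.shiftLeft (nat_lit 0xd) (nat_lit 136)) (.br (Nat.shiftLeft (nat_lit 0xc00000300400700d011) (nat_lit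 64)) (.one (nat_lit 0xc00000300400700d010600819101a020611)) (.one (nat_lit 0xc00000300400700d011600819101a022611))) (.br (Nat.shiftLeft (nat_lit 0xd00000100400700d01) (nat_lit 68)) (.one (nat_lit 0xd00000100400700d00f20081b141a01e611)) (.br (Nat.shiftLeft (nat_lit 0x6800001) (nat_lit 113)) (.one (nat_lit 0xd00000100400700d01020081b141a020611)) (.one (nat_lit 0xd00000200400700d00f40081b141a01e611)))))) (.br (Nat.shiftLeft (nat_lit 0xd00000300400700d011) (nat_lit 64)) (.br (Nat.shiftLeft (nat_lit 0xd000003) (nat_lit 112)) (.br (Nat.shiftLeft (nat_lit 0xd00000200400700d011) (nat_lit 64)) (.one (nat_lit 0xd00000200400700d01040081b141a020611)) (.one (nat_lit 0xd00000200400700d01140081b141a022611))) (.br (Nat.shiftLeft (nat_lit 0xd00000300400700d01) (nat_lit 68)) (.one (nat_lit 0xd00000300400700d00f60081b141a01e611)) (.one (nat_lit 0xd00000300400700d01060081b141a020611)))) (.br (Nat.shiftLeft (nat_lit 0x1) (nat_lit 149)) (.br (Nat.shiftLeft (nat_lit 0x1) (nat_lit 148)) (.one (nat_lit 0xd00000300400700d01160081b141a022611)) (.one (nat_lit 0x100000100200400700d00f402840e03a41e711)))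 (.br (Nat.shiftLeft (nat_lit 0x3) (nat_lit 148)) (.one (nat_lit 0x200000100200400700d00f404880e03a41e711)) (.br (Nat.shiftLeft (nat_lit 0x1) (nat_lit 150)) (.one (nat_lit 0x300000100200400700d00f4068c0e03a41e711)) (.one (nat_lit 0x400000100200400700d00f408900e03a41e711))))))))
def t295 : k295.all (jb2 57 fl b0) = true := by decide +kernel
noncomputable def k296 : KT := (.br (Nat.shiftLeft (nat_lit 0x9) (nat_lit 148)) (.br (Nat.shiftLeft (nat_lit 0x7) (nat_lit 148)) (.br (Nat.shiftLeft (nat_lit 0x3) (nat_lit 149)) (.one (nat_lit 0x500000100200400700d00f40a940e03a41e711)) (.one (nat_lit 0x600000100200400700d00f40c980e03a41e711))) (.br (Nat.shiftLeft (nat_lit 0x1) (nat_lit 151)) (.one (nat_lit 0x700000100200400700d00f40e9c0e03a41e711)) (.one (nat_lit 0x800000100200400700d00f410a00e03a41e711)))) (.br (Nat.shiftLeft (nat_lit 0xb) (nat_lit 148)) (.br (Nat.shiftLeft (nat_lit 0x5) (nat_lit 149)) (.one (nat_lit 0x900000100200400700d00f412a40e03a41e711)) (.one (nat_lit 0xa00000100200400700d00f414a80e03a41e711))) (.br (Nat.shiftLeft (nat_lit 0x3) (nat_lit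 150)) (.one (nat_lit 0xb00000100200400700d00f416ac0e03a41e711)) (.br (Nat.shiftLeft (nat_lit 0xd) (nat_lit 148)) (.one (nat_lit 0xc00000100200400700d00f418b00e03a41e711)) (.one (nat_lit 0xd00000100200400700d00f41ab40e03a41e711))))))
def t296 : k296.all (jb2 57 fl b0) = true := by decide +kernel
noncomputable def s15 : KT := (.br (nat_lit 0x900000400700d00f000800e13c41e511) (.br (nat_lit 0x200000400700d011000800e05a822511) (.br (nat_lit 0x100200400700d010400800e03a420760) (.br (nat_lit 0x100200400700d00f400800e03a41f700) k275 k276) (.br (nat_lit 0x100200400700d011400800e03a422760) k277 (.br (nat_lit 0x100300400700d00f600800e03a41e760) k278 k279))) (.br (nat_lit 0x500000400700d011000800e0bb422511) (.br (nat_lit 0x200300400700d00f600800e05a81e760) k280 (.br (nat_lit 0x300000400700d011000800e07ac22511) k281 k282)) (.br (nat_lit 0x600000400700d011000800e0db822511) k283 (.br (nat_lit 0x700000400700d011000800e0fbc22511) k284 k285)))) (.br (nat_lit 0x600000200400700d01140080cf81a022611) (.br (nat_lit 0x400000300400700d011600808f01a022611) (.br (nat_lit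 0x100000300400700d010600802e41a020611) k286 k287) (.br (nat_lit 0x500000200400700d01040080af41a020611) k288 (.br (nat_lit 0x600000100400700d00f20080cf81a01e611) k289 k290))) (.br (nat_lit 0x800000200400700d010400811001a020611) (.br (nat_lit 0x700000100400700d00f20080efc1a01e611) k291 (.br (nat_lit 0x700000300400700d00f60080efc1a01e611) k292 k293)) (.br (nat_lit 0x900000300400700d011600813041a022611) k294 (.br (nat_lit 0x400000100200400700d00f408900e03a41e711) k295 k296)))))
noncomputable def u15 : KT := (.br (Nat.shiftLeft (nat_lit 0x400700d01) (nat_lit 68)) (.one (nat_lit 0x400700d00f000800e01a01e540)) (.br (Nat.shiftLeft (nat_lit 0x400700d011) (nat_lit 64)) (.one (nat_lit 0x400700d010000800e01a020540)) (.one (nat_lit 0x400700d011000800e01a022540))))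
def w15 : u15.all (wj 57 s15) = true := by decide +kernel
def o15 : OkW 57 (jb2 57 fl) u15 := .lift s15 _ (.br _ _ _ (.br _ _ _ (.br _ _ _ (.br _ _ _ (.leaf b0 k275 t275) (.leaf b0 k276 t276)) (.br _ _ _ (.leaf b0 k277 t277) (.br _ _ _ (.leaf b0 k278 t278) (.leaf b0 k279 t279)))) (.br _ _ _ (.br _ _ _ (.leaf b0 k280 t280) (.br _ _ _ (.leaf b0 k281 t281) (.leaf b0 k282 t282))) (.br _ _ _ (.leaf b0 k283 t283) (.br _ _ _ (.leaf b0 k284 t284) (.leaf b0 k285 t285))))) (.br _ _ _ (.br _ _ _ (.br _ _ _ (.leaf b0 k286 t286) (.leaf b0 k287 t287)) (.br _ _ _ (.leaf b0 k288 t288) (.br _ _ _ (.leaf b0 k289 t289) (.leaf b0 k290 t290)))) (.br _ _ _ (.br _ _ _ (.leaf b0 k291 t291) (.br _ _ _ (.leaf b0 k292 t292) (.leaf b0 k293 t293))) (.br _ _ _ (.leaf b0 k294 t294) (.br _ _ _ (.leaf b0 k295 t295) (.leaf b0 k296 t296)))))) w15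
noncomputable def k297 : KT := (.br (Nat.shiftLeft (nat_lit 0x1) (nat_lit 112)) (.br (Nat.shiftLeft (nat_lit 0x1002002403) (nat_lit 66)) (.br (Nat.shiftLeft (nat_lit 0x801) (nat_lit 91)) (.one (nat_lit 0x400700e00f000800e01c01f500)) (.one (nat_lit 0x400800900b0008010012017500))) (.br (Nat.shiftLeft (nat_lit 0x400800900d) (nat_lit 64)) (.one (nat_lit 0x400800900c0008010012019500)) (.br (Nat.shiftLeft (nat_lit 0x2004004807) (nat_lit 65)) (.one (nat_lit 0x400800900d000801001201b500)) (.one (nat_lit 0x400800900e000801001201d500))))) (.br (Nat.shiftLeft (nat_lit 0x3) (nat_lit 112)) (.br (Nat.shiftLeft (nat_lit 0x1) (nat_lit 113)) (.one (nat_lit 0x100400700e00f200800e01c01f600)) (.one (nat_lit 0x200400700e00f400800e01c01f600))) (.br (Nat.shiftLeft (nat_lit 0x1) (nat_lit 124)) (.one (nat_lit 0x300400700e00f600800e01c01f600)) (.br (Nat.shiftLeft (nat_lit 0x801) (nat_lit 113)) (.one (nat_lit 0x100000400700e00f000800e03c41e511)) (.one (nat_lit 0x100200400700e00f400800e03c41e760))))))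
def t297 : k297.all (jb2 57 fl b0) = true := by decide +kernel
noncomputable def k298 : KT := (.br (Nat.shiftLeft (nat_lit 0x1) (nat_lit 125)) (.one (nat_lit 0x100300400700e00f600800e03c41e760)) (.one (nat_lit 0x200000400700e00f000800e05c81e511)))
def t298 : k298.all (jb2 57 fl b0) = true := by decide +kernel
noncomputable def k299 : KT := (.br (Nat.shiftLeft (nat_lit 0x1) (nat_lit 126)) (.br (Nat.shiftLeft (nat_lit 0x3) (nat_lit 124)) (.one (nat_lit 0x200300400700e00f600800e05c81e760)) (.one (nat_lit 0x300000400700e00f000800e07cc1e511))) (.br (Nat.shiftLeft (nat_lit 0x5) (nat_lit 124)) (.one (nat_lit 0x400000400700e00f000800e09d01e511)) (.br (Nat.shiftLeft (nat_lit 0x3) (nat_lit 125)) (.one (nat_lit 0x500000400700e00f000800e0bd41e511)) (.one (nat_lit 0x600000400700e00f000800e0dd81e511)))))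
def t299 : k299.all (jb2 57 fl b0) = true := by decide +kernel
noncomputable def k300 : KT := (.br (Nat.shiftLeft (nat_lit 0x800001) (nat_lit 113)) (.br (Nat.shiftLeft (nat_lit 0xb) (nat_lit 124)) (.br (Nat.shiftLeft (nat_lit 0x9) (nat_lit 124)) (.br (Nat.shiftLeft (nat_lit 0x1) (nat_lit 127)) (.one (nat_lit 0x700000400700e00f000800e0fdc1e511)) (.one (nat_lit 0x800000400700e00f000800e11e01e511))) (.br (Nat.shiftLeft (nat_lit 0x5) (nat_lit 125)) (.one (nat_lit 0x900000400700e00f000800e13e41e511)) (.one (nat_lit 0xa00000400700e00f000800e15e81e511)))) (.br (Nat.shiftLeft (nat_lit 0xd) (nat_lit 124)) (.br (Nat.shiftLeft (nat_lit 0x3) (nat_lit 126)) (.one (nat_lit 0xb00000400700e00f000800e17ec1e511)) (.one (nat_lit 0xc00000400700e00f000800e19f01e511))) (.br (Nat.shiftLeft (nat_lit 0x7) (nat_lit 125)) (.one (nat_lit 0xd00000400700e00f000800e1bf41e511)) (.br (Nat.shiftLeft (nat_lit 0x1) (nat_lit 136)) (.one (nat_lit 0xe00000400700e00f000800e1df81e511)) (.one (nat_lit 0x100000100400700e00f200802e41c01e611)))))) (.br (Nat.shiftLeft (nat_lit 0x2000003)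 (nat_lit 112)) (.br (Nat.shiftLeft (nat_lit 0x1) (nat_lit 137)) (.br (Nat.shiftLeft (nat_lit 0x1000003) (nat_lit 112)) (.one (nat_lit 0x100000200400700e00f400802e41c01e611)) (.one (nat_lit 0x100000300400700e00f600802e41c01e611))) (.br (Nat.shiftLeft (nat_lit 0x1000001) (nat_lit 113)) (.one (nat_lit 0x200000100400700e00f200804e81c01e611)) (.one (nat_lit 0x200000200400700e00f400804e81c01e611)))) (.br (Nat.shiftLeft (nat_lit 0x1800001) (nat_lit 113)) (.br (Nat.shiftLeft (nat_lit 0x3) (nat_lit 136)) (.one (nat_lit 0x200000300400700e00f600804e81c01e611)) (.one (nat_lit 0x300000100400700e00f200806ec1c01e611))) (.br (Nat.shiftLeft (nat_lit 0x3000003) (nat_lit 112)) (.one (nat_lit 0x300000200400700e00f400806ec1c01e611)) (.br (Nat.shiftLeft (nat_lit 0x1) (nat_lit 138)) (.one (nat_lit 0x300000300400700e00f600806ec1c01e611)) (.one (nat_lit 0x400000100400700e00f200808f01c01e611)))))))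
def t300 : k300.all (jb2 57 fl b0) = true := by decide +kernel
noncomputable def k301 : KT := (.br (Nat.shiftLeft (nat_lit 0x2800001) (nat_lit 113)) (.br (Nat.shiftLeft (nat_lit 0x4000003) (nat_lit 112)) (.one (nat_lit 0x400000200400700e00f400808f01c01e611)) (.br (Nat.shiftLeft (nat_lit 0x5) (nat_lit 136)) (.one (nat_lit 0x400000300400700e00f600808f01c01e611)) (.one (nat_lit 0x500000100400700e00f20080af41c01e611)))) (.br (Nat.shiftLeft (nat_lit 0x5000003) (nat_lit 112)) (.one (nat_lit 0x500000200400700e00f40080af41c01e611)) (.br (Nat.shiftLeft (nat_lit 0x3) (nat_lit 137)) (.one (nat_lit 0x500000300400700e00f60080af41c01e611)) (.one (nat_lit 0x600000100400700e00f20080cf81c01e611)))))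
def t301 : k301.all (jb2 57 fl b0) = true := by decide +kernel
noncomputable def k302 : KT := (.br (Nat.shiftLeft (nat_lit 0x3800001) (nat_lit 113)) (.br (Nat.shiftLeft (nat_lit 0x6000003) (nat_lit 112)) (.one (nat_lit 0x600000200400700e00f40080cf81c01e611)) (.br (Nat.shiftLeft (nat_lit 0x7) (nat_lit 136)) (.one (nat_lit 0x600000300400700e00f60080cf81c01e611)) (.one (nat_lit 0x700000100400700e00f20080efc1c01e611)))) (.br (Nat.shiftLeft (nat_lit 0x7000003) (nat_lit 112)) (.one (nat_lit 0x700000200400700e00f40080efc1c01e611)) (.br (Nat.shiftLeft (nat_lit 0x1) (nat_lit 139)) (.one (nat_lit 0x700000300400700e00f60080efc1c01e611)) (.one (nat_lit 0x800000100400700e00f200811001c01e611)))))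
def t302 : k302.all (jb2 57 fl b0) = true := by decide +kernel
noncomputable def k303 : KT := (.br (Nat.shiftLeft (nat_lit 0xb000003) (nat_lit 112)) (.br (Nat.shiftLeft (nat_lit 0x5) (nat_lit 137)) (.br (Nat.shiftLeft (nat_lit 0x9) (nat_lit 136)) (.br (Nat.shiftLeft (nat_lit 0x8000003) (nat_lit 112)) (.one (nat_lit 0x800000200400700e00f400811001c01e611)) (.one (nat_lit 0x800000300400700e00f600811001c01e611))) (.br (Nat.shiftLeft (nat_lit 0x4800001) (nat_lit 113)) (.one (nat_lit 0x900000100400700e00f200813041c01e611)) (.br (Nat.shiftLeft (nat_lit 0x9000003) (nat_lit 112)) (.one (nat_lit 0x900000200400700e00f400813041c01e611)) (.one (nat_lit 0x900000300400700e00f600813041c01e611))))) (.br (Nat.shiftLeft (nat_lit 0xa000003) (nat_lit 112)) (.br (Nat.shiftLeft (nat_lit 0x5000001) (nat_lit 113)) (.one (nat_lit 0xa00000100400700e00f200815081c01e611)) (.one (nat_lit 0xa00000200400700e00f400815081c01e611))) (.br (Nat.shiftLeft (nat_lit 0xb) (nat_lit 136)) (.one (nat_lit 0xa00000300400700e00f600815081c01e611)) (.br (Nat.shiftLeft (nat_lit 0x5800001)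 (nat_lit 113)) (.one (nat_lit 0xb00000100400700e00f2008170c1c01e611)) (.one (nat_lit 0xb00000200400700e00f4008170c1c01e611)))))) (.br (Nat.shiftLeft (nat_lit 0x6800001) (nat_lit 113)) (.br (Nat.shiftLeft (nat_lit 0x6000001) (nat_lit 113)) (.br (Nat.shiftLeft (nat_lit 0x3) (nat_lit 138)) (.one (nat_lit 0xb00000300400700e00f6008170c1c01e611)) (.one (nat_lit 0xc00000100400700e00f200819101c01e611))) (.br (Nat.shiftLeft (nat_lit 0xc000003) (nat_lit 112)) (.one (nat_lit 0xc00000200400700e00f400819101c01e611)) (.br (Nat.shiftLeft (nat_lit 0xd) (nat_lit 136)) (.one (nat_lit 0xc00000300400700e00f600819101c01e611)) (.one (nat_lit 0xd00000100400700e00f20081b141c01e611))))) (.br (Nat.shiftLeft (nat_lit 0x7) (nat_lit 137)) (.br (Nat.shiftLeft (nat_lit 0xd000003) (nat_lit 112)) (.one (nat_lit 0xd00000200400700e00f40081b141c01e611)) (.one (nat_lit 0xd00000300400700e00f60081b141c01e611))) (.br (Nat.shiftLeft (nat_lit 0x7000001) (nat_lit 113)) (.one (nat_lit 0xe00000100400700e00f20081d181c01e611)) (.br (Nat.shiftLeft (nat_lit 0xe000003) (nat_lit 112)) (.one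 (nat_lit 0xe00000200400700e00f40081d181c01e611)) (.one (nat_lit 0xe00000300400700e00f60081d181c01e611)))))))
def t303 : k303.all (jb2 57 fl b0) = true := by decide +kernel
noncomputable def s16 : KT := (.br (nat_lit 0x600000400700e00f000800e0dd81e511) (.br (nat_lit 0x100200400700e00f400800e03c41e760) k297 (.br (nat_lit 0x200000400700e00f000800e05c81e511) k298 k299)) (.br (nat_lit 0x600000100400700e00f20080cf81c01e611) (.br (nat_lit 0x400000100400700e00f200808f01c01e611) k300 k301) (.br (nat_lit 0x800000100400700e00f200811001c01e611) k302 k303)))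
noncomputable def u16 : KT := (.br (Nat.shiftLeft (nat_lit 0x1002002403) (nat_lit 66)) (.br (Nat.shiftLeft (nat_lit 0x801) (nat_lit 91)) (.one (nat_lit 0x400700e00f000800e01c01e540)) (.one (nat_lit 0x400800900b0008010012017500))) (.br (Nat.shiftLeft (nat_lit 0x400800900d) (nat_lit 64)) (.one (nat_lit 0x400800900c0008010012019500)) (.br (Nat.shiftLeft (nat_lit 0x2004004807) (nat_lit 65)) (.one (nat_lit 0x400800900d000801001201b500)) (.one (nat_lit 0x400800900e000801001201d500)))))
def w16 : u16.all (wj 57 s16) = true := by decide +kernel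
def o16 : OkW 57 (jb2 57 fl) u16 := .lift s16 _ (.br _ _ _ (.br _ _ _ (.leaf b0 k297 t297) (.br _ _ _ (.leaf b0 k298 t298) (.leaf b0 k299 t299))) (.br _ _ _ (.br _ _ _ (.leaf b0 k300 t300) (.leaf b0 k301 t301)) (.br _ _ _ (.leaf b0 k302 t302) (.leaf b0 k303 t303)))) w16
noncomputable def k304 : KT := (.br (Nat.shiftLeft (nat_lit 0x1003) (nat_lit 112)) (.br (Nat.shiftLeft (nat_lit 0x3) (nat_lit 112)) (.br (Nat.shiftLeft (nat_lit 0x1) (nat_lit 112)) (.one (nat_lit 0x400800900f000801001201f500)) (.br (Nat.shiftLeft (nat_lit 0x1) (nat_lit 113)) (.one (nat_lit 0x100400800900f200801001201f600)) (.one (nat_lit 0x200400800900f400801001201f600)))) (.br (Nat.shiftLeft (nat_lit 0x1) (nat_lit 124)) (.one (nat_lit 0x300400800900f600801001201f600)) (.br (Nat.shiftLeft (nat_lit 0x801) (nat_lit 113)) (.one (nat_lit 0x100000400800900f000801003241e511)) (.one (nat_lit 0x100200400800900f400801003241f700))))) (.br (Nat.shiftLeft (nat_lit 0x3) (nat_lit 124)) (.br (Nat.shiftLeft (nat_lit 0x1) (nat_lit 125)) (.one (nat_lit 0x100300400800900f600801003241f700)) (.br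 (Nat.shiftLeft (nat_lit 0x1001) (nat_lit 113)) (.one (nat_lit 0x200000400800900f000801005281e511)) (.one (nat_lit 0x200300400800900f600801005281f700)))) (.br (Nat.shiftLeft (nat_lit 0x5) (nat_lit 124)) (.br (Nat.shiftLeft (nat_lit 0x1) (nat_lit 126)) (.one (nat_lit 0x300000400800900f0008010072c1e511)) (.one (nat_lit 0x400000400800900f000801009301e511))) (.br (Nat.shiftLeft (nat_lit 0x3) (nat_lit 125)) (.one (nat_lit 0x500000400800900f00080100b341e511)) (.one (nat_lit 0x600000400800900f00080100d381e511))))))
noncomputable def b305 : BT := .node (nat_lit 0x3) (nat_lit 0x4c93788a86001d4c00056320cc936cca2e99228ba58c003a59000ac6c003317000ca6420016b0010b0005000050) .leaf .leaf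
def t304 : k304.all (jb2 57 fl b305) = true := by decide +kernel
noncomputable def k305 : KT := (.one (nat_lit 0x700000400800900f00080100f3c1e511))
noncomputable def b306 : BT := .node (nat_lit 0x11) (nat_lit 0x1b664e827400065b000156e835093245434c8a5912c923128ba4dc003a98000cb64003a5a000cb600033180008b743db26f113a40032d8000ab741de1274258e464db325f1508a2c4be28aa4d8a2e54328b150c00b2d8000ca640132990028b88003a5a002c988013a5a002cb6800ba59002cc5c500509005090050900509004a900394003340016800168001680016800168001680016800168001680016800168) .leaf .leaf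
def t305 : k305.all (jb2 57 fl b306) = true := by decide +kernel
noncomputable def k306 : KT := (.one (nat_lit 0x800000400800900f000801011401e511))
noncomputable def b307 : BT := .node (nat_lit 0x11) (nat_lit 0x4b224d8a8651549b945800c1db000ad5c00c1dc004ad5c2a2a96428bb6cdb665432a112fc9d2db349ba4dc003a98002ca70013a980028e5c00ba5d002c97c00b2d9002cb604a8496425f24d897a4be0010868002aa2000ea64002adf0a58d26e93749b9458a2c99149ba590003a98000ca6c003a59000ad5c003a5b000ca68300563005630056300563004a8003380027e0016800168001680016800168001680016800168001680016800168) .leaf .leaf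
def t306 : k306.all (jb2 57 fl b307) = true := by decide +kernel
noncomputable def k307 : KT := (.br (Nat.shiftLeft (nat_lit 0x800001) (nat_lit 113)) (.br (Nat.shiftLeft (nat_lit 0x1) (nat_lit 136)) (.one (nat_lit 0x900000400800900f000801013441e511)) (.one (nat_lit 0x100000100400800900f200803041201e611))) (.br (Nat.shiftLeft (nat_lit 0x1000003) (nat_lit 112)) (.one (nat_lit 0x100000200400800900f400803041201e611)) (.one (nat_lit 0x100000300400800900f600803041201e611))))
noncomputable def b308 : BT := .node (nat_lit 0x1d) (nat_lit 0x36cc97c5436d992f5270001cf1800472e00196c00055b814b224e09ce001d4c00065380d426da145800421a000ad5c193849c12f4003a99000ab741db328b150c003a5a000ad60196449c24e0003a5b000cb641db36da12f4003a990008b8810055200552005520055200552005520055200552005520055200552005520055200552004970049700497004970049700437003d8003780037800318002b80025800258002580025800258) .leaf .leaf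
def t307 : k307.all (jb2 57 fl b308) = true := by decide +kernel
noncomputable def k308 : KT := (.br (Nat.shiftLeft (nat_lit 0x1000001) (nat_lit 113)) (.br (Nat.shiftLeft (nat_lit 0x1) (nat_lit 137)) (.one (nat_lit 0x100200300400800900f600803045281e870)) (.one (nat_lit 0x200000100400800900f200805081201e611))) (.br (Nat.shiftLeft (nat_lit 0x2000003) (nat_lit 112)) (.one (nat_lit 0x200000200400800900f400805081201e611)) (.br (Nat.shiftLeft (nat_lit 0x3) (nat_lit 136)) (.one (nat_lit 0x200000300400800900f600805081201e611)) (.one (nat_lit 0x300000100400800900f2008070c1201e611)))))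
noncomputable def b309 : BT := .node (nat_lit 0x1) (nat_lit 0xde1274a58c0032dc000ab6410008800028) .leaf .leaf
def t308 : k308.all (jb2 57 fl b309) = true := by decide +kernel
noncomputable def k309 : KT := (.br (Nat.shiftLeft (nat_lit 0x2000001) (nat_lit 113)) (.br (Nat.shiftLeft (nat_lit 0x3000003) (nat_lit 112)) (.one (nat_lit 0x300000200400800900f4008070c1201e611)) (.br (Nat.shiftLeft (nat_lit 0x1) (nat_lit 138)) (.one (nat_lit 0x300000300400800900f6008070c1201e611)) (.one (nat_lit 0x400000100400800900f200809101201e611)))) (.br (Nat.shiftLeft (nat_lit 0x4000003) (nat_lit 112)) (.one (nat_lit 0x400000200400800900f400809101201e611)) (.br (Nat.shiftLeft (nat_lit 0x5) (nat_lit 136)) (.one (nat_lit 0x400000300400800900f600809101201e611)) (.one (nat_lit 0x500000100400800900f20080b141201e611)))))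
def t309 : k309.all (jb2 57 fl b0) = true := by decide +kernel
noncomputable def k310 : KT := (.br (Nat.shiftLeft (nat_lit 0x5000003) (nat_lit 112)) (.one (nat_lit 0x500000200400800900f40080b141201e611)) (.one (nat_lit 0x500000300400800900f60080b141201e611)))
def t310 : k310.all (jb2 57 fl b0) = true := by decide +kernel
noncomputable def k311 : KT := (.one (nat_lit 0x600000100400800900f20080d181201e611))
noncomputable def b312 : BT := .node (nat_lit 0x1) (nat_lit 0x37849d29634c8b789b6651549a92f400b29d002ab6400ba98000e964013a59002cb6c30013e00028) .leaf .leaf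
def t311 : k311.all (jb2 57 fl b312) = true := by decide +kernel
noncomputable def k312 : KT := (.one (nat_lit 0x600000200400800900f40080d181201e611))
noncomputable def b313 : BT := .node (nat_lit 0xb) (nat_lit 0x6d913a532400194e80056300d714b212f8003a1a000c9881001af001af001af001af001af0014f0014f000f0000f0000f0000f0000f0) .leaf .leaf
def t312 : k312.all (jb2 57 fl b313) = true := by decide +kernel
noncomputable def k313 : KT := (.one (nat_lit 0x600000300400800900f60080d181201e611))
noncomputable def b314 : BT := .node (nat_lit 0x1) (nat_lit 0xdb249b12f800329b000ab8010008800028) .leaf .leaf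
def t313 : k313.all (jb2 57 fl b314) = true := by decide +kernel
noncomputable def k314 : KT := (.one (nat_lit 0x700000100400800900f20080f1c1201e611))
noncomputable def b315 : BT := .node (nat_lit 0x17) (nat_lit 0x1b665172a1a4d4a2c5436d9a4dd26c005d4c0014730009d2c802662e001d4c00065b01c8c4a3057128aa4d897a001d0f00037ae001d2d00065b4148c4a869644b2145ca8600198b8004634001d2d80056ae16d9a4d926d23128ba5900032d8000cb600032db0008c682db22a226480032d9000ad5c10058900589005890058900473004730047300473004730047300473003b7003b7002fb002fb002fb002fb002400024000240002400024000240001e0) .leaf .leaf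
def t314 : k314.all (jb2 57 fl b315) = true := by decide +kernel
noncomputable def k315 : KT := (.one (nat_lit 0x700000200400800900f40080f1c1201e611))
noncomputable def b316 : BT := .node (nat_lit 0x17) (nat_lit 0x54349b92f92c493628b80083b600156f80074380015ac85b664be4b180064c400158c03231273a64926a4e82b900065b20011ac00073bc0015ea8526a4be28bb6c89ce937000e880002b59000cb64002adc0a4625172b900074b2000dec03b64db328b00065b00015ac03b6493649b24d89784bc6f0a59132400196c00065b000196c80065b2001d2c80056301cc8950c9d093725e94580032d9000cb60003a1e000ad602007030064900649005e9005e9005e90052d0052d0052d0052d004720047200411003b1003b1003b1003b1003b1003b1003b10029b0029b001e0001e0) .leaf .leaf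
def t315 : k315.all (jb2 57 fl b316) = true := by decide +kernel
noncomputable def k316 : KT := (.one (nat_lit 0x700000300400800900f60080f1c1201e611))
noncomputable def b317 : BT := .node (nat_lit 0x1) (nat_lit 0x6d936cca86542274145c0032d8000ad600039de000cc5c2000e300028) .leaf .leaf
def t316 : k316.all (jb2 57 fl b317) = true := by decide +kernel
noncomputable def k317 : KT := (.one (nat_lit 0x800000100400800900f200811201201e611))
noncomputable def b318 : BT := .node (nat_lit 0x2b) (nat_lit 0x1b66db349bb6cc97c9376d9a594a865432a194592c84be2a1800753000596c001653e00556e00184340051cb8027530005d2c80173c60055ab8b26e51649bc8c4a86db44b213a526e00196c80265b00095ab80255b400d98b80365361d4327412f52c696428a800743a00194f00075300015ab85bc24be49c1454a2e517000ca78002a9e000ea6000329c0b6cca86963000cc5c002b180659126e964000e96c0032d8076c927099249a92f926c96325ea4dc013a1d004ad5c00b2db000cb6000b29e000ca703db349ba4dc003a98000ab70193728b145d26c4be28ba645b689376d9945ca86db325f145c013a59002ad60013a1f004ad6400421a002ab6c00ba990008e5c003a200028d6c500bc900bc900bc900bc900bc900bc900bc900bc900bc9009fd008e70082d0082d0082d0077200712007120071200712006b2006b2006b2006b20059c0059c0059c0059c0059c0059c0059c0053c0053c0053c0053c0053c0053c0053c0053c0053c0053c0053c0053c0037000370)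 .leaf .leaf
def t317 : k317.all (jb2 57 fl b318) = true := by decide +kernel
noncomputable def k318 : KT := (.one (nat_lit 0x800000200400800900f400811201201e611))
noncomputable def b319 : BT := .node (nat_lit 0x1d) (nat_lit 0x1bc25154c937849ca93828b145c97a00198b800563000196c000553c001d2c800653e1c8c497c57249b24e097a93649b139d26e4be28b0007348000dec000753600156f000753000196d000743e0015ac09b644e92a200074b60011cc8326c4e725e80065b200194f83b645164b236c897a938918945cae499149b9510003317000ac6400329e000ab74003a590006f600041db000ac68491894592c651628b92f40033180008c64003a59000ca7c2007cd006b7006b7006b7006b7006b7005450054500545005450054500545005450054500545005450054500545005450054500545004e50048500485004850031400258002580025800258) .leaf .leaf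
def t318 : k318.all (jb2 57 fl b319) = true := by decide +kernel
noncomputable def k319 : KT := (.one (nat_lit 0x800000300400800900f600811201201e611))
noncomputable def b320 : BT := .node (nat_lit 0x1) (nat_lit 0x9622b9a58c003357000ca6410008800028) .leaf .leaf
def t319 : k319.all (jb2 57 fl b320) = true := by decide +kernel
noncomputable def k320 : KT := (.one (nat_lit 0x900000100400800900f200813241201e611))
noncomputable def b321 : BT := .node (nat_lit 0xb) (nat_lit 0x12c6db449c36cc97a4be2a19458a86001d4c8016538009d4c80145c4005d2c801662e1d1625f1454003a20000cb60196328b9454003318000cb601de149c36cc00329d000ca64196349c92f4003a5e000ab7410038500385003850026f0026f0021000210001b0001b0001b000150000f0) .leaf .leaf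
def t320 : k320.all (jb2 57 fl b321) = true := by decide +kernel
noncomputable def k321 : KT := (.br (Nat.shiftLeft (nat_lit 0x2000001003) (nat_lit 112)) (.br (Nat.shiftLeft (nat_lit 0x1000001003) (nat_lit 112)) (.br (Nat.shiftLeft (nat_lit 0x9000003) (nat_lit 112)) (.one (nat_lit 0x900000200400800900f400813241201e611)) (.br (Nat.shiftLeft (nat_lit 0x1) (nat_lit 148)) (.one (nat_lit 0x900000300400800900f600813241201e611)) (.one (nat_lit 0x100000100200400800900f402841003241e711)))) (.br (Nat.shiftLeft (nat_lit 0x800001) (nat_lit 125)) (.one (nat_lit 0x100000100300400800900f602841003241e711)) (.br (Nat.shiftLeft (nat_lit 0x1) (nat_lit 149)) (.one (nat_lit 0x100000200300400800900f602841005281e711)) (.one (nat_lit 0x200000100200400800900f404881003241e711))))) (.br (Nat.shiftLeft (nat_lit 0x3000001003) (nat_lit 112)) (.br (Nat.shiftLeft (nat_lit 0x1000001) (nat_lit 125)) (.one (nat_lit 0x200000100300400800900f604881003241e711)) (.br (Nat.shiftLeft (nat_lit 0x3) (nat_lit 148)) (.one (nat_lit 0x200000200300400800900f604881005281e711)) (.one (nat_lit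 0x300000100200400800900f4068c1003241e711)))) (.br (Nat.shiftLeft (nat_lit 0x1800001) (nat_lit 125)) (.one (nat_lit 0x300000100300400800900f6068c1003241e711)) (.br (Nat.shiftLeft (nat_lit 0x1) (nat_lit 150)) (.one (nat_lit 0x300000200300400800900f6068c1005281e711)) (.one (nat_lit 0x400000100200400800900f408901003241e711))))))
noncomputable def b322 : BT := .node (nat_lit 0x1) (nat_lit 0x9914b1a4e0003a59000ca7410008800028) .leaf .leaf
def t321 : k321.all (jb2 57 fl b322) = true := by decide +kernel
noncomputable def k322 : KT := (.br (Nat.shiftLeft (nat_lit 0x2000001) (nat_lit 125)) (.one (nat_lit 0x400000100300400800900f608901003241e711)) (.br (Nat.shiftLeft (nat_lit 0x5) (nat_lit 148)) (.one (nat_lit 0x400000200300400800900f608901005281e711)) (.one (nat_lit 0x500000100200400800900f40a941003241e711))))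
noncomputable def b323 : BT := .node (nat_lit 0xb) (nat_lit 0x123125f15100039e20006e68191892fc9d296349a92f8003a5d0006c7c003a59000ab842db249a15c8003299000af5410026d0026d0026d0026d0026d0020c0020c00150000f0000f0000f0000f0) .leaf .leaf
def t322 : k322.all (jb2 57 fl b323) = true := by decide +kernel
noncomputable def k323 : KT := (.br (Nat.shiftLeft (nat_lit 0x2800001) (nat_lit 125)) (.one (nat_lit 0x500000100300400800900f60a941003241e711)) (.one (nat_lit 0x500000200300400800900f60a941005281e711)))
noncomputable def b324 : BT := .node (nat_lit 0x17) (nat_lit 0x91893a52c600194e80046320ed936cca88db2274a58c003299000ae5c00329d000ac60299249a945dbc293425f00074b200158d8006532001551852316d992fc002ad9000aa8c10041800418003b7003b7002fc002fc002fc002fc00241002410024100241002410024100241002410024100241001e0001e0001e0001e0001e0001e0) .leaf .leaf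
def t323 : k323.all (jb2 57 fl b324) = true := by decide +kernel
noncomputable def k324 : KT := (.one (nat_lit 0x600000100200400800900f40c981003241e711))
noncomputable def b325 : BT := .node (nat_lit 0x11) (nat_lit 0x6d9258d2c6de12d0a7040032d8000cb60003317000ad5c29342741510003a1c000ae5c100283001c8001c8001680016800168001680016800168001680016800168001680016800168001680016800168) .leaf .leaf
def t324 : k324.all (jb2 57 fl b325) = true := by decide +kernel
noncomputable def k325 : KT := (.br (Nat.shiftLeft (nat_lit 0x3000001) (nat_lit 125)) (.one (nat_lit 0x600000100300400800900f60c981003241e711)) (.one (nat_lit 0x600000200300400800900f60c981005281e711)))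
noncomputable def b326 : BT := .node (nat_lit 0x1) (nat_lit 0x6d936cd2c6de1274a4d8003a98000ac60003319000aa702000e300028) .leaf .leaf
def t325 : k325.all (jb2 57 fl b326) = true := by decide +kernel
noncomputable def k326 : KT := (.one (nat_lit 0x700000100200400800900f40e9c1003241e711))
noncomputable def b327 : BT := .node (nat_lit 0x13) (nat_lit 0x36c926e57249b24d897c93528b945c00419c0008f5c0032d9000ca7c003a5a000ad6439912a215c926a4bd25e80074b20015ac00065b400194f85b644e749b2645b66516000cb68002adb000e964002b580b785b665164c924dc97b2312b92648003299000ad60003a1c000ab7c0033560008d60300532005320041c0041c0041c0041c0041c0041c00361002a6002a6002a6002a6002a6002a6002a6002a6001900019000190) .leaf .leaf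
def t326 : k326.all (jb2 57 fl b327) = true := by decide +kernel
noncomputable def k327 : KT := (.br (Nat.shiftLeft (nat_lit 0x3800001) (nat_lit 125)) (.one (nat_lit 0x700000100300400800900f60e9c1003241e711)) (.one (nat_lit 0x700000200300400800900f60e9c1005281e711)))
noncomputable def b328 : BT := .node (nat_lit 0x1) (nat_lit 0x49a92fca2d2312b92648003a21000ad600033180008d602000e300028) .leaf .leaf
def t327 : k327.all (jb2 57 fl b328) = true := by decide +kernel
noncomputable def k328 : KT := (.br (Nat.shiftLeft (nat_lit 0x8000001003) (nat_lit 112)) (.one (nat_lit 0x800000100200400800900f410a01003241e711)) (.one (nat_lit 0x800000100300400800900f610a01003241e711)))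
noncomputable def b329 : BT := .node (nat_lit 0x13) (nat_lit 0x24624bd49c00055bc00154f0323125ea4e0002ade000aa78193649b12f80032d8000ca841a2c51725eb784a885726d912fcae49622b92648003a59002ca7c013a590028e6000b9a40028f5c00b356002cb60493728b12f40032d9000ca7810048200482004820048200482004820048200421004210042100421003c0003c000360003600036000360001f00019000190) .leaf .leaf
def t328 : k328.all (jb2 57 fl b329) = true := by decide +kernel
noncomputable def k329 : KT := (.br (Nat.shiftLeft (nat_lit 0x9000001003) (nat_lit 112)) (.br (Nat.shiftLeft (nat_lit 0x9) (nat_lit 148)) (.one (nat_lit 0x800000200300400800900f610a01005281e711)) (.one (nat_lit 0x900000100200400800900f412a41003241e711))) (.br (Nat.shiftLeft (nat_lit 0x4800001) (nat_lit 125)) (.one (nat_lit 0x900000100300400800900f612a41003241e711)) (.one (nat_lit 0x900000200300400800900f612a41005281e711))))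
def t329 : k329.all (jb2 57 fl b0) = true := by decide +kernel
noncomputable def s17 : KT := (.br (nat_lit 0x700000300400800900f60080f1c1201e611) (.br (nat_lit 0x500000100400800900f20080b141201e611) (.br (nat_lit 0x800000400800900f000801011401e511) (.br (nat_lit 0x600000400800900f00080100d381e511) k304 (.br (nat_lit 0x700000400800900f00080100f3c1e511) k305 k306)) (.br (nat_lit 0x100000300400800900f600803041201e611) k307 (.br (nat_lit 0x300000100400800900f2008070c1201e611) k308 k309))) (.br (nat_lit 0x600000200400800900f40080d181201e611) (.br (nat_lit 0x500000300400800900f60080b141201e611) k310 (.br (nat_lit 0x600000100400800900f20080d181201e611) k311 k312)) (.br (nat_lit 0x700000100400800900f20080f1c1201e611) (.br (nat_lit 0x600000300400800900f60080d181201e611) k313 k314) (.br (nat_lit 0x700000200400800900f40080f1c1201e611) k315 k316)))) (.br (nat_lit 0x500000100200400800900f40a941003241e711) (.br (nat_lit 0x800000300400800900f600811201201e611) (.br (nat_lit 0x800000100400800900f200811201201e611) k317 (.br (nat_lit 0x800000200400800900f400811201201e611)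 k318 k319)) (.br (nat_lit 0x900000100400800900f200813241201e611) k320 (.br (nat_lit 0x400000100200400800900f408901003241e711) k321 k322))) (.br (nat_lit 0x600000200300400800900f60c981005281e711) (.br (nat_lit 0x500000200300400800900f60a941005281e711) k323 (.br (nat_lit 0x600000100200400800900f40c981003241e711) k324 k325)) (.br (nat_lit 0x700000200300400800900f60e9c1005281e711) (.br (nat_lit 0x700000100200400800900f40e9c1003241e711) k326 k327) (.br (nat_lit 0x800000100300400800900f610a01003241e711) k328 k329)))))
noncomputable def u17 : KT := (.one (nat_lit 0x400800900f000801001201e540))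
def w17 : u17.all (wj 57 s17) = true := by decide +kernel
def o17 : OkW 57 (jb2 57 fl) u17 := .lift s17 _ (.br _ _ _ (.br _ _ _ (.br _ _ _ (.br _ _ _ (.leaf b305 k304 t304) (.br _ _ _ (.leaf b306 k305 t305) (.leaf b307 k306 t306))) (.br _ _ _ (.leaf b308 k307 t307) (.br _ _ _ (.leaf b309 k308 t308) (.leaf b0 k309 t309)))) (.br _ _ _ (.br _ _ _ (.leaf b0 k310 t310) (.br _ _ _ (.leaf b312 k311 t311) (.leaf b313 k312 t312))) (.br _ _ _ (.br _ _ _ (.leaf b314 k313 t313) (.leaf b315 k314 t314)) (.br _ _ _ (.leaf b316 k315 t315) (.leaf b317 k316 t316))))) (.br _ _ _ (.br _ _ _ (.br _ _ _ (.leaf b318 k317 t317) (.br _ _ _ (.leaf b319 k318 t318) (.leaf b320 k319 t319))) (.br _ _ _ (.leaf b321 k320 t320) (.br _ _ _ (.leaf b322 k321 t321) (.leaf b323 k322 t322)))) (.br _ _ _ (.br _ _ _ (.leaf b324 k323 t323) (.br _ _ _ (.leaf b325 k324 t324) (.leaf b326 k325 t325))) (.br _ _ _ (.br _ _ _ (.leaf b327 k326 t326) (.leaf b328 k327 t327)) (.br _ _ _ (.leaf b329 k328 t328) (.leaf b0 k329 t329)))))) w17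
noncomputable def k330 : KT := (.br (Nat.shiftLeft (nat_lit 0x1003) (nat_lit 112)) (.br (Nat.shiftLeft (nat_lit 0x3) (nat_lit 112)) (.br (Nat.shiftLeft (nat_lit 0x1) (nat_lit 112)) (.one (nat_lit 0x40080090100008010012021500)) (.br (Nat.shiftLeft (nat_lit 0x1) (nat_lit 113)) (.one (nat_lit 0x10040080090102008010012021600)) (.one (nat_lit 0x20040080090104008010012021600)))) (.br (Nat.shiftLeft (nat_lit 0x1) (nat_lit 124)) (.one (nat_lit 0x30040080090106008010012021600)) (.br (Nat.shiftLeft (nat_lit 0x801) (nat_lit 113)) (.one (nat_lit 0x10000040080090100008010032420511)) (.one (nat_lit 0x10020040080090104008010032421700))))) (.br (Nat.shiftLeft (nat_lit 0x3) (nat_lit 124)) (.br (Nat.shiftLeft (nat_lit 0x1) (nat_lit 125)) (.one (nat_lit 0x10030040080090106008010032421700)) (.br (Nat.shiftLeft (nat_lit 0x1001) (nat_lit 113)) (.one (nat_lit 0x20000040080090100008010052820511)) (.one (nat_lit 0x20030040080090106008010052821700)))) (.br (Nat.shiftLeft (nat_lit 0x5) (nat_lit 124)) (.br (Nat.shiftLeft (nat_lit 0x1) (nat_lit 126)) (.one (nat_lit 0x30000040080090100008010072c20511))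 (.one (nat_lit 0x40000040080090100008010093020511))) (.br (Nat.shiftLeft (nat_lit 0x3) (nat_lit 125)) (.one (nat_lit 0x500000400800901000080100b3420511)) (.one (nat_lit 0x600000400800901000080100d3820511))))))
noncomputable def b331 : BT := .node (nat_lit 0x1) (nat_lit 0x5424b2150c00421a000ad5c10008700028) .leaf .leaf
def t330 : k330.all (jb2 57 fl b331) = true := by decide +kernel
noncomputable def k331 : KT := (.one (nat_lit 0x700000400800901000080100f3c20511))
def t331 : k331.all (jb2 57 fl b0) = true := by decide +kernel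
noncomputable def k332 : KT := (.one (nat_lit 0x80000040080090100008010114020511))
noncomputable def b333 : BT := .node (nat_lit 0xb) (nat_lit 0x918945db6800158d80055b40d4228b1458003a5a000cc5c1001b00014f0014f0014f0014f0014f0014f0014f0014f0014f0014f000f0) .leaf .leaf
def t332 : k332.all (jb2 57 fl b333) = true := by decide +kernel
noncomputable def k333 : KT := (.br (Nat.shiftLeft (nat_lit 0x800001) (nat_lit 113)) (.br (Nat.shiftLeft (nat_lit 0x1) (nat_lit 136)) (.one (nat_lit 0x90000040080090100008010134420511)) (.one (nat_lit 0x10000010040080090102008030412020611))) (.br (Nat.shiftLeft (nat_lit 0x1000003) (nat_lit 112)) (.one (nat_lit 0x10000020040080090104008030412020611)) (.one (nat_lit 0x10000030040080090106008030412020611))))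
def t333 : k333.all (jb2 57 fl b0) = true := by decide +kernel
noncomputable def k334 : KT := (.br (Nat.shiftLeft (nat_lit 0x3) (nat_lit 136)) (.br (Nat.shiftLeft (nat_lit 0x1000001) (nat_lit 113)) (.br (Nat.shiftLeft (nat_lit 0x1) (nat_lit 137)) (.one (nat_lit 0x10020030040080090106008030452820870)) (.one (nat_lit 0x20000010040080090102008050812020611))) (.br (Nat.shiftLeft (nat_lit 0x2000003) (nat_lit 112)) (.one (nat_lit 0x20000020040080090104008050812020611)) (.one (nat_lit 0x20000030040080090106008050812020611)))) (.br (Nat.shiftLeft (nat_lit 0x3000003) (nat_lit 112)) (.br (Nat.shiftLeft (nat_lit 0x1800001) (nat_lit 113)) (.one (nat_lit 0x30000010040080090102008070c12020611)) (.one (nat_lit 0x30000020040080090104008070c12020611))) (.br (Nat.shiftLeft (nat_lit 0x1) (nat_lit 138)) (.one (nat_lit 0x30000030040080090106008070c12020611)) (.br (Nat.shiftLeft (nat_lit 0x2000001) (nat_lit 113)) (.one (nat_lit 0x40000010040080090102008091012020611)) (.one (nat_lit 0x40000020040080090104008091012020611))))))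
def t334 : k334.all (jb2 57 fl b0) = true := by decide +kernel
noncomputable def k335 : KT := (.br (Nat.shiftLeft (nat_lit 0x5) (nat_lit 136)) (.one (nat_lit 0x40000030040080090106008091012020611)) (.br (Nat.shiftLeft (nat_lit 0x2800001) (nat_lit 113)) (.one (nat_lit 0x500000100400800901020080b1412020611)) (.one (nat_lit 0x500000200400800901040080b1412020611))))
def t335 : k335.all (jb2 57 fl b0) = true := by decide +kernel
noncomputable def k336 : KT := (.br (Nat.shiftLeft (nat_lit 0x3) (nat_lit 137)) (.one (nat_lit 0x500000300400800901060080b1412020611)) (.one (nat_lit 0x600000100400800901020080d1812020611)))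
def t336 : k336.all (jb2 57 fl b0) = true := by decide +kernel
noncomputable def k337 : KT := (.br (Nat.shiftLeft (nat_lit 0x6000003) (nat_lit 112)) (.one (nat_lit 0x600000200400800901040080d1812020611)) (.one (nat_lit 0x600000300400800901060080d1812020611)))
def t337 : k337.all (jb2 57 fl b0) = true := by decide +kernel
noncomputable def k338 : KT := (.one (nat_lit 0x700000100400800901020080f1c12020611))
noncomputable def b339 : BT := .node (nat_lit 0x1) (nat_lit 0x96325c92fc0032d8000c98c10008800028) .leaf .leaf
def t338 : k338.all (jb2 57 fl b339) = true := by decide +kernel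
noncomputable def k339 : KT := (.br (Nat.shiftLeft (nat_lit 0x7000003) (nat_lit 112)) (.one (nat_lit 0x700000200400800901040080f1c12020611)) (.one (nat_lit 0x700000300400800901060080f1c12020611)))
noncomputable def b340 : BT := .node (nat_lit 0x1) (nat_lit 0x9352749458003a5b000ad6010008800028) .leaf .leaf
def t339 : k339.all (jb2 57 fl b340) = true := by decide +kernel
noncomputable def k340 : KT := (.one (nat_lit 0x80000010040080090102008112012020611))
noncomputable def b341 : BT := .node (nat_lit 0x1) (nat_lit 0x4b1b6d0a86db36d9945c0042590008e5c0032d8000ad602000e300028) .leaf .leaf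
def t340 : k340.all (jb2 57 fl b341) = true := by decide +kernel
noncomputable def k341 : KT := (.br (Nat.shiftLeft (nat_lit 0x8000003) (nat_lit 112)) (.one (nat_lit 0x80000020040080090104008112012020611)) (.one (nat_lit 0x80000030040080090106008112012020611)))
noncomputable def b342 : BT := .node (nat_lit 0x1) (nat_lit 0x93625f12fc003a99000ab8410008800028) .leaf .leaf
def t341 : k341.all (jb2 57 fl b342) = true := by decide +kernel
noncomputable def k342 : KT := (.br (Nat.shiftLeft (nat_lit 0x800001) (nat_lit 125)) (.br (Nat.shiftLeft (nat_lit 0x9000003) (nat_lit 112)) (.br (Nat.shiftLeft (nat_lit 0x4800001) (nat_lit 113)) (.one (nat_lit 0x90000010040080090102008132412020611)) (.one (nat_lit 0x90000020040080090104008132412020611))) (.br (Nat.shiftLeft (nat_lit 0x1) (nat_lit 148)) (.one (nat_lit 0x90000030040080090106008132412020611)) (.br (Nat.shiftLeft (nat_lit 0x1000001003) (nat_lit 112)) (.one (nat_lit 0x10000010020040080090104028410032420711)) (.one (nat_lit 0x10000010030040080090106028410032420711))))) (.br (Nat.shiftLeft (nat_lit 0x1000001)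 (nat_lit 125)) (.br (Nat.shiftLeft (nat_lit 0x1) (nat_lit 149)) (.one (nat_lit 0x10000020030040080090106028410052820711)) (.br (Nat.shiftLeft (nat_lit 0x2000001003) (nat_lit 112)) (.one (nat_lit 0x20000010020040080090104048810032420711)) (.one (nat_lit 0x20000010030040080090106048810032420711)))) (.br (Nat.shiftLeft (nat_lit 0x3) (nat_lit 148)) (.one (nat_lit 0x20000020030040080090106048810052820711)) (.br (Nat.shiftLeft (nat_lit 0x3000001003) (nat_lit 112)) (.one (nat_lit 0x30000010020040080090104068c10032420711)) (.one (nat_lit 0x30000010030040080090106068c10032420711))))))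
def t342 : k342.all (jb2 57 fl b0) = true := by decide +kernel
noncomputable def k343 : KT := (.br (Nat.shiftLeft (nat_lit 0x4000001003) (nat_lit 112)) (.br (Nat.shiftLeft (nat_lit 0x1) (nat_lit 150)) (.one (nat_lit 0x30000020030040080090106068c10052820711)) (.one (nat_lit 0x40000010020040080090104089010032420711))) (.br (Nat.shiftLeft (nat_lit 0x2000001) (nat_lit 125)) (.one (nat_lit 0x40000010030040080090106089010032420711)) (.br (Nat.shiftLeft (nat_lit 0x5) (nat_lit 148)) (.one (nat_lit 0x40000020030040080090106089010052820711)) (.one (nat_lit 0x500000100200400800901040a9410032420711)))))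
def t343 : k343.all (jb2 57 fl b0) = true := by decide +kernel
noncomputable def k344 : KT := (.br (Nat.shiftLeft (nat_lit 0x2800001) (nat_lit 125)) (.one (nat_lit 0x500000100300400800901060a9410032420711)) (.br (Nat.shiftLeft (nat_lit 0x3) (nat_lit 149)) (.one (nat_lit 0x500000200300400800901060a9410052820711)) (.one (nat_lit 0x600000100200400800901040c9810032420711))))
def t344 : k344.all (jb2 57 fl b0) = true := by decide +kernel
noncomputable def k345 : KT := (.br (Nat.shiftLeft (nat_lit 0x3000001) (nat_lit 125)) (.one (nat_lit 0x600000100300400800901060c9810032420711)) (.br (Nat.shiftLeft (nat_lit 0x7) (nat_lit 148)) (.one (nat_lit 0x600000200300400800901060c9810052820711)) (.one (nat_lit 0x700000100200400800901040e9c10032420711))))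
noncomputable def b346 : BT := .node (nat_lit 0x1) (nat_lit 0xde12a2258c003318000ab6410008800028) .leaf .leaf
def t345 : k345.all (jb2 57 fl b346) = true := by decide +kernel
noncomputable def k346 : KT := (.br (Nat.shiftLeft (nat_lit 0x1) (nat_lit 151)) (.br (Nat.shiftLeft (nat_lit 0x3800001) (nat_lit 125)) (.one (nat_lit 0x700000100300400800901060e9c10032420711)) (.one (nat_lit 0x700000200300400800901060e9c10052820711))) (.br (Nat.shiftLeft (nat_lit 0x8000001003) (nat_lit 112)) (.one (nat_lit 0x8000001002004008009010410a010032420711)) (.one (nat_lit 0x8000001003004008009010610a010032420711))))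
def t346 : k346.all (jb2 57 fl b0) = true := by decide +kernel
noncomputable def k347 : KT := (.br (Nat.shiftLeft (nat_lit 0x9000001003) (nat_lit 112)) (.br (Nat.shiftLeft (nat_lit 0x9) (nat_lit 148)) (.one (nat_lit 0x8000002003004008009010610a010052820711)) (.one (nat_lit 0x9000001002004008009010412a410032420711))) (.br (Nat.shiftLeft (nat_lit 0x4800001) (nat_lit 125)) (.one (nat_lit 0x9000001003004008009010612a410032420711)) (.one (nat_lit 0x9000002003004008009010612a410052820711))))
def t347 : k347.all (jb2 57 fl b0) = true := by decide +kernel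
noncomputable def s18 : KT := (.br (nat_lit 0x700000100400800901020080f1c12020611) (.br (nat_lit 0x10000030040080090106008030412020611) (.br (nat_lit 0x700000400800901000080100f3c20511) (.br (nat_lit 0x600000400800901000080100d3820511) k330 k331) (.br (nat_lit 0x80000040080090100008010114020511) k332 k333)) (.br (nat_lit 0x500000200400800901040080b1412020611) (.br (nat_lit 0x40000020040080090104008091012020611) k334 k335) (.br (nat_lit 0x600000100400800901020080d1812020611) k336 (.br (nat_lit 0x600000300400800901060080d1812020611) k337 k338)))) (.br (nat_lit 0x30000010030040080090106068c10032420711) (.br (nat_lit 0x80000010040080090102008112012020611) (.br (nat_lit 0x700000300400800901060080f1c12020611) k339 k340) (.br (nat_lit 0x80000030040080090106008112012020611) k341 k342)) (.br (nat_lit 0x600000100200400800901040c9810032420711) (.br (nat_lit 0x500000100200400800901040a9410032420711) k343 k344) (.br (nat_lit 0x700000100200400800901040e9c10032420711) k345 (.br (nat_lit 0x8000001003004008009010610a010032420711) k346 k347)))))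
noncomputable def u18 : KT := (.one (nat_lit 0x40080090100008010012020540))
def w18 : u18.all (wj 57 s18) = true := by decide +kernel
def o18 : OkW 57 (jb2 57 fl) u18 := .lift s18 _ (.br _ _ _ (.br _ _ _ (.br _ _ _ (.br _ _ _ (.leaf b331 k330 t330) (.leaf b0 k331 t331)) (.br _ _ _ (.leaf b333 k332 t332) (.leaf b0 k333 t333))) (.br _ _ _ (.br _ _ _ (.leaf b0 k334 t334) (.leaf b0 k335 t335)) (.br _ _ _ (.leaf b0 k336 t336) (.br _ _ _ (.leaf b0 k337 t337) (.leaf b339 k338 t338))))) (.br _ _ _ (.br _ _ _ (.br _ _ _ (.leaf b340 k339 t339) (.leaf b341 k340 t340)) (.br _ _ _ (.leaf b342 k341 t341) (.leaf b0 k342 t342))) (.br _ _ _ (.br _ _ _ (.leaf b0 k343 t343) (.leaf b0 k344 t344)) (.br _ _ _ (.leaf b346 k345 t345) (.br _ _ _ (.leaf b0 k346 t346) (.leaf b0 k347 t347)))))) w18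
noncomputable def k348 : KT := (.br (Nat.shiftLeft (nat_lit 0x3) (nat_lit 112)) (.br (Nat.shiftLeft (nat_lit 0x802004004809) (nat_lit 65)) (.br (Nat.shiftLeft (nat_lit 0x2004004809) (nat_lit 65)) (.one (nat_lit 0x40080090110008010012023500)) (.br (Nat.shiftLeft (nat_lit 0x1) (nat_lit 112)) (.one (nat_lit 0x40080090120008010012025500)) (.one (nat_lit 0x10040080090112008010012023600)))) (.br (Nat.shiftLeft (nat_lit 0x1) (nat_lit 113)) (.one (nat_lit 0x10040080090122008010012025600)) (.br (Nat.shiftLeft (nat_lit 0x1002004004809) (nat_lit 65)) (.one (nat_lit 0x20040080090114008010012023600)) (.one (nat_lit 0x20040080090124008010012025600))))) (.br (Nat.shiftLeft (nat_lit 0x800002004004809) (nat_lit 65)) (.br (Nat.shiftLeft (nat_lit 0x1802004004809) (nat_lit 65)) (.one (nat_lit 0x30040080090116008010012023600)) (.br (Nat.shiftLeft (nat_lit 0x1) (nat_lit 124)) (.one (nat_lit 0x30040080090126008010012025600)) (.one (nat_lit 0x10000040080090110008010032422511)))) (.br (Nat.shiftLeft (nat_lit 0x801) (nat_lit 113)) (.one (nat_lit 0x10000040080090120008010032424511))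 (.br (Nat.shiftLeft (nat_lit 0x801002004004809) (nat_lit 65)) (.one (nat_lit 0x10020040080090114008010032423700)) (.one (nat_lit 0x10020040080090124008010032424760))))))
def t348 : k348.all (jb2 57 fl b0) = true := by decide +kernel
noncomputable def k349 : KT := (.one (nat_lit 0x10030040080090116008010032422760))
def t349 : k349.all (jb2 57 fl b0) = true := by decide +kernel
noncomputable def k350 : KT := (.br (Nat.shiftLeft (nat_lit 0x1000002004004809) (nat_lit 65)) (.br (Nat.shiftLeft (nat_lit 0x1) (nat_lit 125)) (.one (nat_lit 0x10030040080090126008010032424760)) (.one (nat_lit 0x20000040080090110008010052822511))) (.br (Nat.shiftLeft (nat_lit 0x1001) (nat_lit 113)) (.one (nat_lit 0x20000040080090120008010052824511)) (.one (nat_lit 0x20030040080090116008010052823700))))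
def t350 : k350.all (jb2 57 fl b0) = true := by decide +kernel
noncomputable def k351 : KT := (.br (Nat.shiftLeft (nat_lit 0x1800002004004809) (nat_lit 65)) (.br (Nat.shiftLeft (nat_lit 0x3) (nat_lit 124)) (.one (nat_lit 0x20030040080090126008010052824760)) (.one (nat_lit 0x30000040080090110008010072c22511))) (.br (Nat.shiftLeft (nat_lit 0x1) (nat_lit 126)) (.one (nat_lit 0x30000040080090120008010072c24511)) (.br (Nat.shiftLeft (nat_lit 0x2000002004004809) (nat_lit 65)) (.one (nat_lit 0x40000040080090110008010093022511)) (.one (nat_lit 0x40000040080090120008010093024511)))))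
def t351 : k351.all (jb2 57 fl b0) = true := by decide +kernel
noncomputable def k352 : KT := (.br (Nat.shiftLeft (nat_lit 0x3) (nat_lit 125)) (.br (Nat.shiftLeft (nat_lit 0x2800002004004809) (nat_lit 65)) (.one (nat_lit 0x500000400800901100080100b3422511)) (.one (nat_lit 0x500000400800901200080100b3424511))) (.br (Nat.shiftLeft (nat_lit 0x3000002004004809) (nat_lit 65)) (.one (nat_lit 0x600000400800901100080100d3822511)) (.one (nat_lit 0x600000400800901200080100d3824511))))
def t352 : k352.all (jb2 57 fl b0) = true := by decide +kernel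
noncomputable def k353 : KT := (.br (Nat.shiftLeft (nat_lit 0x3800002004004809) (nat_lit 65)) (.one (nat_lit 0x700000400800901100080100f3c22511)) (.one (nat_lit 0x700000400800901200080100f3c24511)))
def t353 : k353.all (jb2 57 fl b0) = true := by decide +kernel
noncomputable def k354 : KT := (.br (Nat.shiftLeft (nat_lit 0x4000002004004809) (nat_lit 65)) (.one (nat_lit 0x80000040080090110008010114022511)) (.one (nat_lit 0x80000040080090120008010114024511)))
def t354 : k354.all (jb2 57 fl b0) = true := by decide +kernel
noncomputable def k355 : KT := (.br (Nat.shiftLeft (nat_lit 0x1000003) (nat_lit 112)) (.br (Nat.shiftLeft (nat_lit 0x800000802004004809) (nat_lit 65)) (.br (Nat.shiftLeft (nat_lit 0x4800002004004809) (nat_lit 65)) (.one (nat_lit 0x90000040080090110008010134422511)) (.br (Nat.shiftLeft (nat_lit 0x1) (nat_lit 136)) (.one (nat_lit 0x90000040080090120008010134424511)) (.one (nat_lit 0x10000010040080090112008030412022611)))) (.br (Nat.shiftLeft (nat_lit 0x800001) (nat_lit 113)) (.one (nat_lit 0x10000010040080090122008030412024611))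 (.br (Nat.shiftLeft (nat_lit 0x800001002004004809) (nat_lit 65)) (.one (nat_lit 0x10000020040080090114008030412022611)) (.one (nat_lit 0x10000020040080090124008030412024611))))) (.br (Nat.shiftLeft (nat_lit 0x1) (nat_lit 137)) (.br (Nat.shiftLeft (nat_lit 0x800001802004004809) (nat_lit 65)) (.one (nat_lit 0x10000030040080090116008030412022611)) (.br (Nat.shiftLeft (nat_lit 0x801) (nat_lit 125)) (.one (nat_lit 0x10000030040080090126008030412024611)) (.one (nat_lit 0x10020030040080090116008030452822870)))) (.br (Nat.shiftLeft (nat_lit 0x1000001) (nat_lit 113)) (.br (Nat.shiftLeft (nat_lit 0x1000000802004004809) (nat_lit 65)) (.one (nat_lit 0x20000010040080090112008050812022611)) (.one (nat_lit 0x20000010040080090122008050812024611))) (.br (Nat.shiftLeft (nat_lit 0x1000001002004004809) (nat_lit 65)) (.one (nat_lit 0x20000020040080090114008050812022611)) (.one (nat_lit 0x20000020040080090124008050812024611))))))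
def t355 : k355.all (jb2 57 fl b0) = true := by decide +kernel
noncomputable def k356 : KT := (.br (Nat.shiftLeft (nat_lit 0x1800001802004004809) (nat_lit 65)) (.br (Nat.shiftLeft (nat_lit 0x1800000802004004809) (nat_lit 65)) (.br (Nat.shiftLeft (nat_lit 0x1000001802004004809) (nat_lit 65)) (.one (nat_lit 0x20000030040080090116008050812022611)) (.br (Nat.shiftLeft (nat_lit 0x3) (nat_lit 136)) (.one (nat_lit 0x20000030040080090126008050812024611)) (.one (nat_lit 0x30000010040080090112008070c12022611)))) (.br (Nat.shiftLeft (nat_lit 0x1800001002004004809) (nat_lit 65)) (.br (Nat.shiftLeft (nat_lit 0x1800001) (nat_lit 113)) (.one (nat_lit 0x30000010040080090122008070c12024611)) (.one (nat_lit 0x30000020040080090114008070c12022611))) (.br (Nat.shiftLeft (nat_lit 0x3000003) (nat_lit 112)) (.one (nat_lit 0x30000020040080090124008070c12024611)) (.one (nat_lit 0x30000030040080090116008070c12022611))))) (.br (Nat.shiftLeft (nat_lit 0x2000001) (nat_lit 113)) (.br (Nat.shiftLeft (nat_lit 0x1) (nat_lit 138)) (.one (nat_lit 0x30000030040080090126008070c12024611))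 (.br (Nat.shiftLeft (nat_lit 0x2000000802004004809) (nat_lit 65)) (.one (nat_lit 0x40000010040080090112008091012022611)) (.one (nat_lit 0x40000010040080090122008091012024611)))) (.br (Nat.shiftLeft (nat_lit 0x4000003) (nat_lit 112)) (.br (Nat.shiftLeft (nat_lit 0x2000001002004004809) (nat_lit 65)) (.one (nat_lit 0x40000020040080090114008091012022611)) (.one (nat_lit 0x40000020040080090124008091012024611))) (.br (Nat.shiftLeft (nat_lit 0x2000001802004004809) (nat_lit 65)) (.one (nat_lit 0x40000030040080090116008091012022611)) (.one (nat_lit 0x40000030040080090126008091012024611))))))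
def t356 : k356.all (jb2 57 fl b0) = true := by decide +kernel
noncomputable def k357 : KT := (.br (Nat.shiftLeft (nat_lit 0x2800000802004004809) (nat_lit 65)) (.one (nat_lit 0x500000100400800901120080b1412022611)) (.br (Nat.shiftLeft (nat_lit 0x2800001) (nat_lit 113)) (.one (nat_lit 0x500000100400800901220080b1412024611)) (.one (nat_lit 0x500000200400800901140080b1412022611))))
def t357 : k357.all (jb2 57 fl b0) = true := by decide +kernel
noncomputable def k358 : KT := (.br (Nat.shiftLeft (nat_lit 0x5000003) (nat_lit 112)) (.one (nat_lit 0x500000200400800901240080b1412024611)) (.br (Nat.shiftLeft (nat_lit 0x2800001802004004809) (nat_lit 65)) (.one (nat_lit 0x500000300400800901160080b1412022611)) (.one (nat_lit 0x500000300400800901260080b1412024611))))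
def t358 : k358.all (jb2 57 fl b0) = true := by decide +kernel
noncomputable def k359 : KT := (.br (Nat.shiftLeft (nat_lit 0x3000000802004004809) (nat_lit 65)) (.one (nat_lit 0x600000100400800901120080d1812022611)) (.one (nat_lit 0x600000100400800901220080d1812024611)))
def t359 : k359.all (jb2 57 fl b0) = true := by decide +kernel
noncomputable def k360 : KT := (.br (Nat.shiftLeft (nat_lit 0x3000001002004004809) (nat_lit 65)) (.one (nat_lit 0x600000200400800901140080d1812022611)) (.br (Nat.shiftLeft (nat_lit 0x6000003) (nat_lit 112)) (.one (nat_lit 0x600000200400800901240080d1812024611)) (.one (nat_lit 0x600000300400800901160080d1812022611))))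
def t360 : k360.all (jb2 57 fl b0) = true := by decide +kernel
noncomputable def k361 : KT := (.br (Nat.shiftLeft (nat_lit 0x7) (nat_lit 136)) (.one (nat_lit 0x600000300400800901260080d1812024611)) (.one (nat_lit 0x700000100400800901120080f1c12022611)))
def t361 : k361.all (jb2 57 fl b0) = true := by decide +kernel
noncomputable def k362 : KT := (.br (Nat.shiftLeft (nat_lit 0x3800001) (nat_lit 113)) (.one (nat_lit 0x700000100400800901220080f1c12024611)) (.br (Nat.shiftLeft (nat_lit 0x3800001002004004809) (nat_lit 65)) (.one (nat_lit 0x700000200400800901140080f1c12022611)) (.one (nat_lit 0x700000200400800901240080f1c12024611))))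
def t362 : k362.all (jb2 57 fl b0) = true := by decide +kernel
noncomputable def k363 : KT := (.br (Nat.shiftLeft (nat_lit 0x3800001802004004809) (nat_lit 65)) (.one (nat_lit 0x700000300400800901160080f1c12022611)) (.br (Nat.shiftLeft (nat_lit 0x1) (nat_lit 139)) (.one (nat_lit 0x700000300400800901260080f1c12024611)) (.one (nat_lit 0x80000010040080090112008112012022611))))
def t363 : k363.all (jb2 57 fl b0) = true := by decide +kernel
noncomputable def k364 : KT := (.br (Nat.shiftLeft (nat_lit 0x4000001002004004809) (nat_lit 65)) (.br (Nat.shiftLeft (nat_lit 0x4000001) (nat_lit 113)) (.one (nat_lit 0x80000010040080090122008112012024611)) (.one (nat_lit 0x80000020040080090114008112012022611))) (.br (Nat.shiftLeft (nat_lit 0x8000003) (nat_lit 112)) (.one (nat_lit 0x80000020040080090124008112012024611)) (.one (nat_lit 0x80000030040080090116008112012022611))))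
def t364 : k364.all (jb2 57 fl b0) = true := by decide +kernel
noncomputable def k365 : KT := (.br (Nat.shiftLeft (nat_lit 0x4800001) (nat_lit 113)) (.br (Nat.shiftLeft (nat_lit 0x9) (nat_lit 136)) (.one (nat_lit 0x80000030040080090126008112012024611)) (.br (Nat.shiftLeft (nat_lit 0x4800000802004004809) (nat_lit 65)) (.one (nat_lit 0x90000010040080090112008132412022611)) (.one (nat_lit 0x90000010040080090122008132412024611)))) (.br (Nat.shiftLeft (nat_lit 0x4800001002004004809) (nat_lit 65)) (.one (nat_lit 0x90000020040080090114008132412022611)) (.br (Nat.shiftLeft (nat_lit 0x9000003) (nat_lit 112)) (.one (nat_lit 0x90000020040080090124008132412024611)) (.one (nat_lit 0x90000030040080090116008132412022611)))))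
def t365 : k365.all (jb2 57 fl b0) = true := by decide +kernel
noncomputable def k366 : KT := (.br (Nat.shiftLeft (nat_lit 0x3) (nat_lit 148)) (.br (Nat.shiftLeft (nat_lit 0x800001) (nat_lit 125)) (.br (Nat.shiftLeft (nat_lit 0x1) (nat_lit 148)) (.one (nat_lit 0x90000030040080090126008132412024611)) (.one (nat_lit 0x10000010020040080090114028410032422711))) (.br (Nat.shiftLeft (nat_lit 0x1) (nat_lit 149)) (.one (nat_lit 0x10000020030040080090116028410052822711)) (.br (Nat.shiftLeft (nat_lit 0x1000001) (nat_lit 125)) (.one (nat_lit 0x20000010020040080090114048810032422711)) (.one (nat_lit 0x20000020030040080090116048810052822711))))) (.br (Nat.shiftLeft (nat_lit 0x2000001) (nat_lit 125)) (.br (Nat.shiftLeft (nat_lit 0x1800001) (nat_lit 125)) (.one (nat_lit 0x30000010020040080090114068c10032422711)) (.br (Nat.shiftLeft (nat_lit 0x1) (nat_lit 150)) (.one (nat_lit 0x30000020030040080090116068c10052822711)) (.one (nat_lit 0x40000010020040080090114089010032422711)))) (.br (Nat.shiftLeft (nat_lit 0x5) (nat_lit 148)) (.one (nat_lit 0x40000020030040080090116089010052822711))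 (.br (Nat.shiftLeft (nat_lit 0x2800001) (nat_lit 125)) (.one (nat_lit 0x500000100200400800901140a9410032422711)) (.one (nat_lit 0x500000200300400800901160a9410052822711))))))
def t366 : k366.all (jb2 57 fl b0) = true := by decide +kernel
noncomputable def k367 : KT := (.br (Nat.shiftLeft (nat_lit 0x7) (nat_lit 148)) (.br (Nat.shiftLeft (nat_lit 0x3000001) (nat_lit 125)) (.one (nat_lit 0x600000100200400800901140c9810032422711)) (.one (nat_lit 0x600000200300400800901160c9810052822711))) (.br (Nat.shiftLeft (nat_lit 0x3800001) (nat_lit 125)) (.one (nat_lit 0x700000100200400800901140e9c10032422711)) (.br (Nat.shiftLeft (nat_lit 0x1) (nat_lit 151)) (.one (nat_lit 0x700000200300400800901160e9c10052822711)) (.one (nat_lit 0x8000001002004008009011410a010032422711)))))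
def t367 : k367.all (jb2 57 fl b0) = true := by decide +kernel
noncomputable def k368 : KT := (.br (Nat.shiftLeft (nat_lit 0x9) (nat_lit 148)) (.one (nat_lit 0x8000002003004008009011610a010052822711)) (.br (Nat.shiftLeft (nat_lit 0x4800001) (nat_lit 125)) (.one (nat_lit 0x9000001002004008009011412a410032422711)) (.one (nat_lit 0x9000002003004008009011612a410052822711))))
def t368 : k368.all (jb2 57 fl b0) = true := by decide +kernel
noncomputable def s19 : KT := (.br (nat_lit 0x500000200400800901140080b1412022611) (.br (nat_lit 0x600000400800901200080100d3824511) (.br (nat_lit 0x10030040080090116008010032422760) (.br (nat_lit 0x10020040080090124008010032424760) k348 k349) (.br (nat_lit 0x20030040080090116008010052823700) k350 (.br (nat_lit 0x40000040080090120008010093024511) k351 k352))) (.br (nat_lit 0x80000040080090120008010114024511) (.br (nat_lit 0x700000400800901200080100f3c24511) k353 k354) (.br (nat_lit 0x20000020040080090124008050812024611) k355 (.br (nat_lit 0x40000030040080090126008091012024611) k356 k357)))) (.br (nat_lit 0x700000200400800901240080f1c12024611)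 (.br (nat_lit 0x600000100400800901220080d1812024611) (.br (nat_lit 0x500000300400800901260080b1412024611) k358 k359) (.br (nat_lit 0x600000300400800901160080d1812022611) k360 (.br (nat_lit 0x700000100400800901120080f1c12022611) k361 k362))) (.br (nat_lit 0x90000030040080090116008132412022611) (.br (nat_lit 0x80000010040080090112008112012022611) k363 (.br (nat_lit 0x80000030040080090116008112012022611) k364 k365)) (.br (nat_lit 0x500000200300400800901160a9410052822711) k366 (.br (nat_lit 0x8000001002004008009011410a010032422711) k367 k368)))))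
noncomputable def u19 : KT := (.br (Nat.shiftLeft (nat_lit 0x2004004809) (nat_lit 65)) (.one (nat_lit 0x40080090110008010012022540)) (.one (nat_lit 0x40080090120008010012024540)))
def w19 : u19.all (wj 57 s19) = true := by decide +kernel
def o19 : OkW 57 (jb2 57 fl) u19 := .lift s19 _ (.br _ _ _ (.br _ _ _ (.br _ _ _ (.br _ _ _ (.leaf b0 k348 t348) (.leaf b0 k349 t349)) (.br _ _ _ (.leaf b0 k350 t350) (.br _ _ _ (.leaf b0 k351 t351) (.leaf b0 k352 t352)))) (.br _ _ _ (.br _ _ _ (.leaf b0 k353 t353) (.leaf b0 k354 t354)) (.br _ _ _ (.leaf b0 k355 t355) (.br _ _ _ (.leaf b0 k356 t356) (.leaf b0 k357 t357))))) (.br _ _ _ (.br _ _ _ (.br _ _ _ (.leaf b0 k358 t358) (.leaf b0 k359 t359)) (.br _ _ _ (.leaf b0 k360 t360) (.br _ _ _ (.leaf b0 k361 t361) (.leaf b0 k362 t362)))) (.br _ _ _ (.br _ _ _ (.leaf b0 k363 t363) (.br _ _ _ (.leaf b0 k364 t364) (.leaf b0 k365 t365))) (.br _ _ _ (.leaf b0 k366 t366) (.br _ _ _ (.leaf b0 k367 t367) (.leaf b0 k368 t368)))))) w19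
noncomputable def k : KT := (.br (nat_lit 0x400700b010000800e016020540) (.br (nat_lit 0x400700a00f000800e01401f500) (.br (nat_lit 0x4007009010000800e012021500) (.br (nat_lit 0x4007008012000800e010024540) u0 u1) (.br (nat_lit 0x4007009011000800e012022540) u2 (.br (nat_lit 0x4007009013000800e012026540) u3 u4))) (.br (nat_lit 0x400700a011000800e014022540) (.br (nat_lit 0x400700a010000800e014020540) u5 u6) (.br (nat_lit 0x400700b00e000800e01601d500) u7 (.br (nat_lit 0x400700b00f000800e01601e540) u8 u9)))) (.br (nat_lit 0x400700d00e000800e01a01c540) (.br (nat_lit 0x400700c00e000800e01801c540) (.br (nat_lit 0x400700c00d000800e01801b500) u10 u11) (.br (nat_lit 0x400700c00f000800e01801e540) u12 (.br (nat_lit 0x400700c012000800e018024540) u13 u14))) (.br (nat_lit 0x400800900e000801001201d500) (.br (nat_lit 0x400700d011000800e01a022540) u15 u16) (.br (nat_lit 0x400800900f000801001201e540) u17 (.br (nat_lit 0x40080090100008010012020540) u18 u19)))))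
theorem ok : OkW 57 (jb2 57 fl) k := (.br _ _ _ (.br _ _ _ (.br _ _ _ (.br _ _ _ o0 o1) (.br _ _ _ o2 (.br _ _ _ o3 o4))) (.br _ _ _ (.br _ _ _ o5 o6) (.br _ _ _ o7 (.br _ _ _ o8 o9)))) (.br _ _ _ (.br _ _ _ (.br _ _ _ o10 o11) (.br _ _ _ o12 (.br _ _ _ o13 o14))) (.br _ _ _ (.br _ _ _ o15 o16) (.br _ _ _ o17 (.br _ _ _ o18 o19)))))

end Pool.Agent.Lib.MP_ed43e6_ag.Q.Y57.R32
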