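import Pool.Agent.Lib.MP_ed43e6_ag.Y57.Fl

namespace Pool.Agent.Lib.MP_ed43e6_ag.Q.Y57.R34

set_option linter.defProp false

noncomputable def b0 : BT := .node (nat_lit 1) (nat_lit 0) .leaf .leaf
noncomputable def k0 : KT := (.br (Nat.shiftLeft (nat_lit 0x1002005) (nat_lit 89)) (.br (Nat.shiftLeft (nat_lit 0x1) (nat_lit 112)) (.br (Nat.shiftLeft (nat_lit 0x2005) (nat_lit 89)) (.one (nat_lit 0x400900d00f000801201a01f500)) (.one (nat_lit 0x400a00b00c0008014016019500))) (.br (Nat.shiftLeft (nat_lit 0x802005) (nat_lit 89)) (.one (nat_lit 0x100400900d00f200801201a01e650)) (.br (Nat.shiftLeft (nat_lit 0x1) (nat_lit 113)) (.one (nat_lit 0x100400a00b00c2008014016019600)) (.one (nat_lit 0x200400900d00f400801201a01f600))))) (.br (Nat.shiftLeft (nat_lit 0x1802005) (nat_lit 89)) (.br (Nat.shiftLeft (nat_lit 0x3) (nat_lit 112)) (.one (nat_lit 0x200400a00b00c4008014016019600)) (.one (nat_lit 0x300400900d00f600801201a01f600))) (.br (Nat.shiftLeft (nat_lit 0x1) (nat_lit 124)) (.one (nat_lit 0x300400a00b00c6008014016019600)) (.br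 (Nat.shiftLeft (nat_lit 0x800002005) (nat_lit 89)) (.one (nat_lit 0x100000400900d00f000801203a41e511)) (.one (nat_lit 0x100000400a00b00c0008014036418511))))))
def t0 : k0.all (jb2 57 fl b0) = true := by decide +kernel
noncomputable def k1 : KT := (.br (Nat.shiftLeft (nat_lit 0x801802005) (nat_lit 89)) (.br (Nat.shiftLeft (nat_lit 0x801002005) (nat_lit 89)) (.one (nat_lit 0x100200400900d00f400801203a41e760)) (.br (Nat.shiftLeft (nat_lit 0x1003) (nat_lit 112)) (.one (nat_lit 0x100200400a00b00c4008014036419700)) (.one (nat_lit 0x100300400900d00f600801203a41e760)))) (.br (Nat.shiftLeft (nat_lit 0x1) (nat_lit 125)) (.one (nat_lit 0x100300400a00b00c6008014036419700)) (.br (Nat.shiftLeft (nat_lit 0x1000002005) (nat_lit 89)) (.one (nat_lit 0x200000400900d00f000801205a81e511)) (.one (nat_lit 0x200000400a00b00c0008014056818511)))))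
def t1 : k1.all (jb2 57 fl b0) = true := by decide +kernel
noncomputable def k2 : KT := (.br (Nat.shiftLeft (nat_lit 0x1) (nat_lit 126)) (.br (Nat.shiftLeft (nat_lit 0x3) (nat_lit 124)) (.br (Nat.shiftLeft (nat_lit 0x1001802005) (nat_lit 89)) (.one (nat_lit 0x200300400900d00f600801205a81e760)) (.one (nat_lit 0x200300400a00b00c6008014056819700))) (.br (Nat.shiftLeft (nat_lit 0x1800002005) (nat_lit 89)) (.one (nat_lit 0x300000400900d00f000801207ac1e511)) (.one (nat_lit 0x300000400a00b00c0008014076c18511)))) (.br (Nat.shiftLeft (nat_lit 0x5) (nat_lit 124)) (.br (Nat.shiftLeft (nat_lit 0x2000002005) (nat_lit 89)) (.one (nat_lit 0x400000400900d00f000801209b01e511)) (.one (nat_lit 0x400000400a00b00c0008014097018511))) (.br (Nat.shiftLeft (nat_lit 0x2800002005) (nat_lit 89)) (.one (nat_lit 0x500000400900d00f00080120bb41e511)) (.one (nat_lit 0x500000400a00b00c00080140b7418511)))))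
def t2 : k2.all (jb2 57 fl b0) = true := by decide +kernel
noncomputable def k3 : KT := (.br (Nat.shiftLeft (nat_lit 0x3000002005) (nat_lit 89)) (.one (nat_lit 0x600000400900d00f00080120db81e511)) (.br (Nat.shiftLeft (nat_lit 0x7) (nat_lit 124)) (.one (nat_lit 0x600000400a00b00c00080140d7818511)) (.one (nat_lit 0x700000400900d00f00080120fbc1e511))))
def t3 : k3.all (jb2 57 fl b0) = true := by decide +kernel
noncomputable def k4 : KT := (.br (Nat.shiftLeft (nat_lit 0x1) (nat_lit 127)) (.one (nat_lit 0x700000400a00b00c00080140f7c18511)) (.br (Nat.shiftLeft (nat_lit 0x4000002005) (nat_lit 89)) (.one (nat_lit 0x800000400900d00f000801211c01e511)) (.one (nat_lit 0x800000400a00b00c0008014118018511))))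
def t4 : k4.all (jb2 57 fl b0) = true := by decide +kernel
noncomputable def k5 : KT := (.br (Nat.shiftLeft (nat_lit 0x3) (nat_lit 126)) (.br (Nat.shiftLeft (nat_lit 0x5000002005) (nat_lit 89)) (.br (Nat.shiftLeft (nat_lit 0x4800002005) (nat_lit 89)) (.one (nat_lit 0x900000400900d00f000801213c41e511)) (.br (Nat.shiftLeft (nat_lit 0x5) (nat_lit 125)) (.one (nat_lit 0x900000400a00b00c0008014138418511)) (.one (nat_lit 0xa00000400900d00f000801215c81e511)))) (.br (Nat.shiftLeft (nat_lit 0xb) (nat_lit 124)) (.one (nat_lit 0xa00000400a00b00c0008014158818511)) (.br (Nat.shiftLeft (nat_lit 0x5800002005) (nat_lit 89)) (.one (nat_lit 0xb00000400900d00f000801217cc1e511)) (.one (nat_lit 0xb00000400a00b00c0008014178c18511))))) (.br (Nat.shiftLeft (nat_lit 0x800001) (nat_lit 113)) (.br (Nat.shiftLeft (nat_lit 0xd) (nat_lit 124)) (.one (nat_lit 0xc00000400900d00f000801219d01e511)) (.br (Nat.shiftLeft (nat_lit 0x1) (nat_lit 136)) (.one (nat_lit 0xd00000400900d00f00080121bd41e511)) (.one (nat_lit 0x100000100400a00b00c2008034416018611))))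 (.br (Nat.shiftLeft (nat_lit 0x1000003) (nat_lit 112)) (.br (Nat.shiftLeft (nat_lit 0x800001002005) (nat_lit 89)) (.one (nat_lit 0x100000200400900d00f400803241a01e611)) (.one (nat_lit 0x100000200400a00b00c4008034416018611))) (.br (Nat.shiftLeft (nat_lit 0x800001802005) (nat_lit 89)) (.one (nat_lit 0x100000300400900d00f600803241a01e611)) (.one (nat_lit 0x100000300400a00b00c6008034416018611))))))
def t5 : k5.all (jb2 57 fl b0) = true := by decide +kernel
noncomputable def k6 : KT := (.br (Nat.shiftLeft (nat_lit 0x3) (nat_lit 136)) (.br (Nat.shiftLeft (nat_lit 0x1000001002005) (nat_lit 89)) (.br (Nat.shiftLeft (nat_lit 0x1) (nat_lit 137)) (.one (nat_lit 0x100200300400a00b00c6008034456818870)) (.br (Nat.shiftLeft (nat_lit 0x1000001) (nat_lit 113)) (.one (nat_lit 0x200000100400a00b00c2008054816018611)) (.one (nat_lit 0x200000200400900d00f400805281a01e611)))) (.br (Nat.shiftLeft (nat_lit 0x2000003) (nat_lit 112)) (.one (nat_lit 0x200000200400a00b00c4008054816018611)) (.br (Nat.shiftLeft (nat_lit 0x1000001802005) (nat_lit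 89)) (.one (nat_lit 0x200000300400900d00f600805281a01e611)) (.one (nat_lit 0x200000300400a00b00c6008054816018611))))) (.br (Nat.shiftLeft (nat_lit 0x3000003) (nat_lit 112)) (.br (Nat.shiftLeft (nat_lit 0x1800001) (nat_lit 113)) (.one (nat_lit 0x300000100400a00b00c2008074c16018611)) (.br (Nat.shiftLeft (nat_lit 0x1800001002005) (nat_lit 89)) (.one (nat_lit 0x300000200400900d00f4008072c1a01e611)) (.one (nat_lit 0x300000200400a00b00c4008074c16018611)))) (.br (Nat.shiftLeft (nat_lit 0x1) (nat_lit 138)) (.br (Nat.shiftLeft (nat_lit 0x1800001802005) (nat_lit 89)) (.one (nat_lit 0x300000300400900d00f6008072c1a01e611)) (.one (nat_lit 0x300000300400a00b00c6008074c16018611))) (.br (Nat.shiftLeft (nat_lit 0x2000001) (nat_lit 113)) (.one (nat_lit 0x400000100400a00b00c2008095016018611)) (.one (nat_lit 0x400000200400900d00f400809301a01e611))))))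
def t6 : k6.all (jb2 57 fl b0) = true := by decide +kernel
noncomputable def k7 : KT := (.br (Nat.shiftLeft (nat_lit 0x2000001802005) (nat_lit 89)) (.br (Nat.shiftLeft (nat_lit 0x4000003) (nat_lit 112)) (.one (nat_lit 0x400000200400a00b00c4008095016018611)) (.one (nat_lit 0x400000300400900d00f600809301a01e611))) (.br (Nat.shiftLeft (nat_lit 0x5) (nat_lit 136)) (.one (nat_lit 0x400000300400a00b00c6008095016018611)) (.br (Nat.shiftLeft (nat_lit 0x2800001) (nat_lit 113)) (.one (nat_lit 0x500000100400a00b00c20080b5416018611)) (.one (nat_lit 0x500000200400900d00f40080b341a01e611)))))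
def t7 : k7.all (jb2 57 fl b0) = true := by decide +kernel
noncomputable def k8 : KT := (.br (Nat.shiftLeft (nat_lit 0x5000003) (nat_lit 112)) (.one (nat_lit 0x500000200400a00b00c40080b5416018611)) (.br (Nat.shiftLeft (nat_lit 0x2800001802005) (nat_lit 89)) (.one (nat_lit 0x500000300400900d00f60080b341a01e611)) (.one (nat_lit 0x500000300400a00b00c60080b5416018611))))
def t8 : k8.all (jb2 57 fl b0) = true := by decide +kernel
noncomputable def k9 : KT := (.br (Nat.shiftLeft (nat_lit 0x3000001) (nat_lit 113)) (.one (nat_lit 0x600000100400a00b00c20080d5816018611)) (.one (nat_lit 0x600000200400900d00f40080d381a01e611)))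
def t9 : k9.all (jb2 57 fl b0) = true := by decide +kernel
noncomputable def k10 : KT := (.br (Nat.shiftLeft (nat_lit 0x6000003) (nat_lit 112)) (.one (nat_lit 0x600000200400a00b00c40080d5816018611)) (.br (Nat.shiftLeft (nat_lit 0x3000001802005) (nat_lit 89)) (.one (nat_lit 0x600000300400900d00f60080d381a01e611)) (.one (nat_lit 0x600000300400a00b00c60080d5816018611))))
def t10 : k10.all (jb2 57 fl b0) = true := by decide +kernel
noncomputable def k11 : KT := (.br (Nat.shiftLeft (nat_lit 0x3800001) (nat_lit 113)) (.one (nat_lit 0x700000100400a00b00c20080f5c16018611)) (.one (nat_lit 0x700000200400900d00f40080f3c1a01e611)))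
def t11 : k11.all (jb2 57 fl b0) = true := by decide +kernel
noncomputable def k12 : KT := (.br (Nat.shiftLeft (nat_lit 0x7000003) (nat_lit 112)) (.one (nat_lit 0x700000200400a00b00c40080f5c16018611)) (.br (Nat.shiftLeft (nat_lit 0x3800001802005) (nat_lit 89)) (.one (nat_lit 0x700000300400900d00f60080f3c1a01e611)) (.one (nat_lit 0x700000300400a00b00c60080f5c16018611))))
def t12 : k12.all (jb2 57 fl b0) = true := by decide +kernel
noncomputable def k13 : KT := (.br (Nat.shiftLeft (nat_lit 0x4000001002005) (nat_lit 89)) (.br (Nat.shiftLeft (nat_lit 0x4000001) (nat_lit 113)) (.one (nat_lit 0x800000100400a00b00c2008116016018611)) (.one (nat_lit 0x800000200400900d00f400811401a01e611))) (.br (Nat.shiftLeft (nat_lit 0x8000003) (nat_lit 112)) (.one (nat_lit 0x800000200400a00b00c4008116016018611)) (.one (nat_lit 0x800000300400900d00f600811401a01e611))))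
def t13 : k13.all (jb2 57 fl b0) = true := by decide +kernel
noncomputable def k14 : KT := (.br (Nat.shiftLeft (nat_lit 0x4800001002005) (nat_lit 89)) (.br (Nat.shiftLeft (nat_lit 0x9) (nat_lit 136)) (.one (nat_lit 0x800000300400a00b00c6008116016018611)) (.br (Nat.shiftLeft (nat_lit 0x4800001) (nat_lit 113)) (.one (nat_lit 0x900000100400a00b00c2008136416018611)) (.one (nat_lit 0x900000200400900d00f400813441a01e611)))) (.br (Nat.shiftLeft (nat_lit 0x9000003) (nat_lit 112)) (.one (nat_lit 0x900000200400a00b00c4008136416018611)) (.br (Nat.shiftLeft (nat_lit 0x4800001802005) (nat_lit 89)) (.one (nat_lit 0x900000300400900d00f600813441a01e611)) (.one (nat_lit 0x900000300400a00b00c6008136416018611)))))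
def t14 : k14.all (jb2 57 fl b0) = true := by decide +kernel
noncomputable def k15 : KT := (.br (Nat.shiftLeft (nat_lit 0xc000003) (nat_lit 112)) (.br (Nat.shiftLeft (nat_lit 0xb) (nat_lit 136)) (.br (Nat.shiftLeft (nat_lit 0x5000001002005) (nat_lit 89)) (.br (Nat.shiftLeft (nat_lit 0x5000001) (nat_lit 113)) (.one (nat_lit 0xa00000100400a00b00c2008156816018611)) (.one (nat_lit 0xa00000200400900d00f400815481a01e611))) (.br (Nat.shiftLeft (nat_lit 0xa000003) (nat_lit 112)) (.one (nat_lit 0xa00000200400a00b00c4008156816018611)) (.br (Nat.shiftLeft (nat_lit 0x5000001802005) (nat_lit 89)) (.one (nat_lit 0xa00000300400900d00f600815481a01e611)) (.one (nat_lit 0xa00000300400a00b00c6008156816018611))))) (.br (Nat.shiftLeft (nat_lit 0xb000003) (nat_lit 112)) (.br (Nat.shiftLeft (nat_lit 0x5800001) (nat_lit 113)) (.one (nat_lit 0xb00000100400a00b00c2008176c16018611)) (.br (Nat.shiftLeft (nat_lit 0x5800001002005) (nat_lit 89)) (.one (nat_lit 0xb00000200400900d00f4008174c1a01e611)) (.one (nat_lit 0xb00000200400a00b00c4008176c16018611))))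 (.br (Nat.shiftLeft (nat_lit 0x5800001802005) (nat_lit 89)) (.one (nat_lit 0xb00000300400900d00f6008174c1a01e611)) (.br (Nat.shiftLeft (nat_lit 0x3) (nat_lit 138)) (.one (nat_lit 0xb00000300400a00b00c6008176c16018611)) (.one (nat_lit 0xc00000200400900d00f400819501a01e611)))))) (.br (Nat.shiftLeft (nat_lit 0x1) (nat_lit 149)) (.br (Nat.shiftLeft (nat_lit 0x1) (nat_lit 148)) (.br (Nat.shiftLeft (nat_lit 0xd) (nat_lit 136)) (.one (nat_lit 0xc00000300400900d00f600819501a01e611)) (.br (Nat.shiftLeft (nat_lit 0xd000003) (nat_lit 112)) (.one (nat_lit 0xd00000200400900d00f40081b541a01e611)) (.one (nat_lit 0xd00000300400900d00f60081b541a01e611)))) (.br (Nat.shiftLeft (nat_lit 0x1000001003) (nat_lit 112)) (.one (nat_lit 0x100000100200400a00b00c4028414036418711)) (.br (Nat.shiftLeft (nat_lit 0x800001) (nat_lit 125)) (.one (nat_lit 0x100000100300400a00b00c6028414036418711)) (.one (nat_lit 0x100000200300400a00b00c6028414056818711))))) (.br (Nat.shiftLeft (nat_lit 0x3) (nat_lit 148)) (.br (Nat.shiftLeft (nat_lit 0x2000001003)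 (nat_lit 112)) (.one (nat_lit 0x200000100200400a00b00c4048814036418711)) (.br (Nat.shiftLeft (nat_lit 0x1000001) (nat_lit 125)) (.one (nat_lit 0x200000100300400a00b00c6048814036418711)) (.one (nat_lit 0x200000200300400a00b00c6048814056818711)))) (.br (Nat.shiftLeft (nat_lit 0x3000001003) (nat_lit 112)) (.one (nat_lit 0x300000100200400a00b00c4068c14036418711)) (.br (Nat.shiftLeft (nat_lit 0x1800001) (nat_lit 125)) (.one (nat_lit 0x300000100300400a00b00c6068c14036418711)) (.one (nat_lit 0x300000200300400a00b00c6068c14056818711)))))))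
def t15 : k15.all (jb2 57 fl b0) = true := by decide +kernel
noncomputable def k16 : KT := (.br (Nat.shiftLeft (nat_lit 0x2000001) (nat_lit 125)) (.br (Nat.shiftLeft (nat_lit 0x4000001003) (nat_lit 112)) (.one (nat_lit 0x400000100200400a00b00c4089014036418711)) (.one (nat_lit 0x400000100300400a00b00c6089014036418711))) (.br (Nat.shiftLeft (nat_lit 0x5) (nat_lit 148)) (.one (nat_lit 0x400000200300400a00b00c6089014056818711)) (.br (Nat.shiftLeft (nat_lit 0x5000001003) (nat_lit 112)) (.one (nat_lit 0x500000100200400a00b00c40a9414036418711)) (.one (nat_lit 0x500000100300400a00b00c60a9414036418711)))))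
def t16 : k16.all (jb2 57 fl b0) = true := by decide +kernel
noncomputable def k17 : KT := (.br (Nat.shiftLeft (nat_lit 0x6000001003) (nat_lit 112)) (.br (Nat.shiftLeft (nat_lit 0x3) (nat_lit 149)) (.one (nat_lit 0x500000200300400a00b00c60a9414056818711)) (.one (nat_lit 0x600000100200400a00b00c40c9814036418711))) (.br (Nat.shiftLeft (nat_lit 0x3000001) (nat_lit 125)) (.one (nat_lit 0x600000100300400a00b00c60c9814036418711)) (.one (nat_lit 0x600000200300400a00b00c60c9814056818711))))
def t17 : k17.all (jb2 57 fl b0) = true := by decide +kernel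
noncomputable def k18 : KT := (.br (Nat.shiftLeft (nat_lit 0x3800001) (nat_lit 125)) (.br (Nat.shiftLeft (nat_lit 0x7000001003) (nat_lit 112)) (.one (nat_lit 0x700000100200400a00b00c40e9c14036418711)) (.one (nat_lit 0x700000100300400a00b00c60e9c14036418711))) (.br (Nat.shiftLeft (nat_lit 0x1) (nat_lit 151)) (.one (nat_lit 0x700000200300400a00b00c60e9c14056818711)) (.one (nat_lit 0x800000100200400a00b00c410a014036418711))))
def t18 : k18.all (jb2 57 fl b0) = true := by decide +kernel
noncomputable def k19 : KT := (.br (Nat.shiftLeft (nat_lit 0x5) (nat_lit 149)) (.br (Nat.shiftLeft (nat_lit 0x9) (nat_lit 148)) (.br (Nat.shiftLeft (nat_lit 0x4000001) (nat_lit 125)) (.one (nat_lit 0x800000100300400a00b00c610a014036418711)) (.one (nat_lit 0x800000200300400a00b00c610a014056818711))) (.br (Nat.shiftLeft (nat_lit 0x9000001003) (nat_lit 112)) (.one (nat_lit 0x900000100200400a00b00c412a414036418711)) (.br (Nat.shiftLeft (nat_lit 0x4800001) (nat_lit 125)) (.one (nat_lit 0x900000100300400a00b00c612a414036418711)) (.one (nat_lit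 0x900000200300400a00b00c612a414056818711))))) (.br (Nat.shiftLeft (nat_lit 0xb) (nat_lit 148)) (.br (Nat.shiftLeft (nat_lit 0xa000001003) (nat_lit 112)) (.one (nat_lit 0xa00000100200400a00b00c414a814036418711)) (.br (Nat.shiftLeft (nat_lit 0x5000001) (nat_lit 125)) (.one (nat_lit 0xa00000100300400a00b00c614a814036418711)) (.one (nat_lit 0xa00000200300400a00b00c614a814056818711)))) (.br (Nat.shiftLeft (nat_lit 0xb000001003) (nat_lit 112)) (.one (nat_lit 0xb00000100200400a00b00c416ac14036418711)) (.br (Nat.shiftLeft (nat_lit 0x5800001) (nat_lit 125)) (.one (nat_lit 0xb00000100300400a00b00c616ac14036418711)) (.one (nat_lit 0xb00000200300400a00b00c616ac14056818711))))))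
def t19 : k19.all (jb2 57 fl b0) = true := by decide +kernel
noncomputable def s0 : KT := (.br (nat_lit 0x600000200400900d00f40080d381a01e611) (.br (nat_lit 0x800000400a00b00c0008014118018511) (.br (nat_lit 0x200000400a00b00c0008014056818511) (.br (nat_lit 0x100000400a00b00c0008014036418511) k0 k1) (.br (nat_lit 0x500000400a00b00c00080140b7418511) k2 (.br (nat_lit 0x700000400900d00f00080120fbc1e511) k3 k4))) (.br (nat_lit 0x400000200400900d00f400809301a01e611) (.br (nat_lit 0x100000300400a00b00c6008034416018611) k5 k6) (.br (nat_lit 0x500000200400900d00f40080b341a01e611) k7 (.br (nat_lit 0x500000300400a00b00c60080b5416018611) k8 k9)))) (.br (nat_lit 0x900000300400a00b00c6008136416018611) (.br (nat_lit 0x700000200400900d00f40080f3c1a01e611) (.br (nat_lit 0x600000300400a00b00c60080d5816018611) k10 k11) (.br (nat_lit 0x700000300400a00b00c60080f5c16018611) k12 (.br (nat_lit 0x800000300400900d00f600811401a01e611) k13 k14))) (.br (nat_lit 0x500000100300400a00b00c60a9414036418711) (.br (nat_lit 0x300000200300400a00b00c6068c14056818711)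 k15 k16) (.br (nat_lit 0x600000200300400a00b00c60c9814056818711) k17 (.br (nat_lit 0x800000100200400a00b00c410a014036418711) k18 k19)))))
noncomputable def u0 : KT := (.br (Nat.shiftLeft (nat_lit 0x2005) (nat_lit 89)) (.one (nat_lit 0x400900d00f000801201a01e540)) (.one (nat_lit 0x400a00b00c0008014016018540)))
def w0 : u0.all (wj 57 s0) = true := by decide +kernel
def o0 : OkW 57 (jb2 57 fl) u0 := .lift s0 _ (.br _ _ _ (.br _ _ _ (.br _ _ _ (.br _ _ _ (.leaf b0 k0 t0) (.leaf b0 k1 t1)) (.br _ _ _ (.leaf b0 k2 t2) (.br _ _ _ (.leaf b0 k3 t3) (.leaf b0 k4 t4)))) (.br _ _ _ (.br _ _ _ (.leaf b0 k5 t5) (.leaf b0 k6 t6)) (.br _ _ _ (.leaf b0 k7 t7) (.br _ _ _ (.leaf b0 k8 t8) (.leaf b0 k9 t9))))) (.br _ _ _ (.br _ _ _ (.br _ _ _ (.leaf b0 k10 t10) (.leaf b0 k11 t11)) (.br _ _ _ (.leaf b0 k12 t12) (.br _ _ _ (.leaf b0 k13 t13) (.leaf b0 k14 t14)))) (.br _ _ _ (.br _ _ _ (.leaf b0 k15 t15) (.leaf b0 k16 t16)) (.br _ _ _ (.leaf b0 k17 t17) (.br _ _ _ (.leaf b0 k18 t18) (.leaf b0 k19 t19)))))) w0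
noncomputable def k20 : KT := (.br (Nat.shiftLeft (nat_lit 0x3) (nat_lit 112)) (.br (Nat.shiftLeft (nat_lit 0x802005005807) (nat_lit 65)) (.br (Nat.shiftLeft (nat_lit 0x2005005807) (nat_lit 65)) (.one (nat_lit 0x400a00b00d000801401601b500)) (.br (Nat.shiftLeft (nat_lit 0x1) (nat_lit 112)) (.one (nat_lit 0x400a00b00e000801401601d500)) (.one (nat_lit 0x100400a00b00d200801401601b600)))) (.br (Nat.shiftLeft (nat_lit 0x1) (nat_lit 113)) (.one (nat_lit 0x100400a00b00e200801401601d600)) (.br (Nat.shiftLeft (nat_lit 0x1002005005807) (nat_lit 65)) (.one (nat_lit 0x200400a00b00d400801401601b600)) (.one (nat_lit 0x200400a00b00e400801401601d600))))) (.br (Nat.shiftLeft (nat_lit 0x800002005005807) (nat_lit 65)) (.br (Nat.shiftLeft (nat_lit 0x1802005005807) (nat_lit 65)) (.one (nat_lit 0x300400a00b00d600801401601b600)) (.br (Nat.shiftLeft (nat_lit 0x1) (nat_lit 124)) (.one (nat_lit 0x300400a00b00e600801401601d600)) (.one (nat_lit 0x100000400a00b00d000801403641a511)))) (.br (Nat.shiftLeft (nat_lit 0x801) (nat_lit 113)) (.one (nat_lit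 0x100000400a00b00e000801403641c511)) (.br (Nat.shiftLeft (nat_lit 0x801002005005807) (nat_lit 65)) (.one (nat_lit 0x100200400a00b00d400801403641b700)) (.one (nat_lit 0x100200400a00b00e400801403641c760))))))
def t20 : k20.all (jb2 57 fl b0) = true := by decide +kernel
noncomputable def k21 : KT := (.one (nat_lit 0x100300400a00b00d600801403641a760))
def t21 : k21.all (jb2 57 fl b0) = true := by decide +kernel
noncomputable def k22 : KT := (.br (Nat.shiftLeft (nat_lit 0x1000002005005807) (nat_lit 65)) (.br (Nat.shiftLeft (nat_lit 0x1) (nat_lit 125)) (.one (nat_lit 0x100300400a00b00e600801403641c760)) (.one (nat_lit 0x200000400a00b00d000801405681a511))) (.br (Nat.shiftLeft (nat_lit 0x1001) (nat_lit 113)) (.one (nat_lit 0x200000400a00b00e000801405681c511)) (.one (nat_lit 0x200300400a00b00d600801405681b700))))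
def t22 : k22.all (jb2 57 fl b0) = true := by decide +kernel
noncomputable def k23 : KT := (.br (Nat.shiftLeft (nat_lit 0x1800002005005807) (nat_lit 65)) (.br (Nat.shiftLeft (nat_lit 0x3) (nat_lit 124)) (.one (nat_lit 0x200300400a00b00e600801405681c760)) (.one (nat_lit 0x300000400a00b00d0008014076c1a511))) (.br (Nat.shiftLeft (nat_lit 0x1) (nat_lit 126)) (.one (nat_lit 0x300000400a00b00e0008014076c1c511)) (.br (Nat.shiftLeft (nat_lit 0x2000002005005807) (nat_lit 65)) (.one (nat_lit 0x400000400a00b00d000801409701a511)) (.one (nat_lit 0x400000400a00b00e000801409701c511)))))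
def t23 : k23.all (jb2 57 fl b0) = true := by decide +kernel
noncomputable def k24 : KT := (.br (Nat.shiftLeft (nat_lit 0x3) (nat_lit 125)) (.br (Nat.shiftLeft (nat_lit 0x2800002005005807) (nat_lit 65)) (.one (nat_lit 0x500000400a00b00d00080140b741a511)) (.one (nat_lit 0x500000400a00b00e00080140b741c511))) (.br (Nat.shiftLeft (nat_lit 0x3000002005005807) (nat_lit 65)) (.one (nat_lit 0x600000400a00b00d00080140d781a511)) (.one (nat_lit 0x600000400a00b00e00080140d781c511))))
def t24 : k24.all (jb2 57 fl b0) = true := by decide +kernel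
noncomputable def k25 : KT := (.br (Nat.shiftLeft (nat_lit 0x3800002005005807) (nat_lit 65)) (.one (nat_lit 0x700000400a00b00d00080140f7c1a511)) (.one (nat_lit 0x700000400a00b00e00080140f7c1c511)))
def t25 : k25.all (jb2 57 fl b0) = true := by decide +kernel
noncomputable def k26 : KT := (.br (Nat.shiftLeft (nat_lit 0x4000002005005807) (nat_lit 65)) (.one (nat_lit 0x800000400a00b00d000801411801a511)) (.br (Nat.shiftLeft (nat_lit 0x9) (nat_lit 124)) (.one (nat_lit 0x800000400a00b00e000801411801c511)) (.one (nat_lit 0x900000400a00b00d000801413841a511))))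
def t26 : k26.all (jb2 57 fl b0) = true := by decide +kernel
noncomputable def k27 : KT := (.br (Nat.shiftLeft (nat_lit 0x1) (nat_lit 136)) (.br (Nat.shiftLeft (nat_lit 0x5000002005005807) (nat_lit 65)) (.br (Nat.shiftLeft (nat_lit 0x5) (nat_lit 125)) (.one (nat_lit 0x900000400a00b00e000801413841c511)) (.one (nat_lit 0xa00000400a00b00d000801415881a511))) (.br (Nat.shiftLeft (nat_lit 0xb) (nat_lit 124)) (.one (nat_lit 0xa00000400a00b00e000801415881c511)) (.br (Nat.shiftLeft (nat_lit 0x5800002005005807) (nat_lit 65)) (.one (nat_lit 0xb00000400a00b00d0008014178c1a511)) (.one (nat_lit 0xb00000400a00b00e0008014178c1c511))))) (.br (Nat.shiftLeft (nat_lit 0x800001002005005807) (nat_lit 65)) (.br (Nat.shiftLeft (nat_lit 0x800000802005005807) (nat_lit 65)) (.one (nat_lit 0x100000100400a00b00d200803441601a611)) (.br (Nat.shiftLeft (nat_lit 0x800001) (nat_lit 113)) (.one (nat_lit 0x100000100400a00b00e200803441601c611)) (.one (nat_lit 0x100000200400a00b00d400803441601a611)))) (.br (Nat.shiftLeft (nat_lit 0x1000003) (nat_lit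 112)) (.one (nat_lit 0x100000200400a00b00e400803441601c611)) (.br (Nat.shiftLeft (nat_lit 0x800001802005005807) (nat_lit 65)) (.one (nat_lit 0x100000300400a00b00d600803441601a611)) (.one (nat_lit 0x100000300400a00b00e600803441601c611))))))
def t27 : k27.all (jb2 57 fl b0) = true := by decide +kernel
noncomputable def k28 : KT := (.br (Nat.shiftLeft (nat_lit 0x1800000802005005807) (nat_lit 65)) (.br (Nat.shiftLeft (nat_lit 0x1000001002005005807) (nat_lit 65)) (.br (Nat.shiftLeft (nat_lit 0x1000000802005005807) (nat_lit 65)) (.br (Nat.shiftLeft (nat_lit 0x1) (nat_lit 137)) (.one (nat_lit 0x100200300400a00b00d600803445681a870)) (.one (nat_lit 0x200000100400a00b00d200805481601a611))) (.br (Nat.shiftLeft (nat_lit 0x1000001) (nat_lit 113)) (.one (nat_lit 0x200000100400a00b00e200805481601c611)) (.one (nat_lit 0x200000200400a00b00d400805481601a611)))) (.br (Nat.shiftLeft (nat_lit 0x1000001802005005807) (nat_lit 65)) (.br (Nat.shiftLeft (nat_lit 0x2000003) (nat_lit 112)) (.one (nat_lit 0x200000200400a00b00e400805481601c611))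 (.one (nat_lit 0x200000300400a00b00d600805481601a611))) (.br (Nat.shiftLeft (nat_lit 0x3) (nat_lit 136)) (.one (nat_lit 0x200000300400a00b00e600805481601c611)) (.one (nat_lit 0x300000100400a00b00d2008074c1601a611))))) (.br (Nat.shiftLeft (nat_lit 0x1800001802005005807) (nat_lit 65)) (.br (Nat.shiftLeft (nat_lit 0x1800001002005005807) (nat_lit 65)) (.br (Nat.shiftLeft (nat_lit 0x1800001) (nat_lit 113)) (.one (nat_lit 0x300000100400a00b00e2008074c1601c611)) (.one (nat_lit 0x300000200400a00b00d4008074c1601a611))) (.br (Nat.shiftLeft (nat_lit 0x3000003) (nat_lit 112)) (.one (nat_lit 0x300000200400a00b00e4008074c1601c611)) (.one (nat_lit 0x300000300400a00b00d6008074c1601a611)))) (.br (Nat.shiftLeft (nat_lit 0x2000000802005005807) (nat_lit 65)) (.br (Nat.shiftLeft (nat_lit 0x1) (nat_lit 138)) (.one (nat_lit 0x300000300400a00b00e6008074c1601c611)) (.one (nat_lit 0x400000100400a00b00d200809501601a611))) (.br (Nat.shiftLeft (nat_lit 0x2000001) (nat_lit 113)) (.one (nat_lit 0x400000100400a00b00e200809501601c611)) (.one (nat_lit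 0x400000200400a00b00d400809501601a611))))))
def t28 : k28.all (jb2 57 fl b0) = true := by decide +kernel
noncomputable def k29 : KT := (.br (Nat.shiftLeft (nat_lit 0x2000001802005005807) (nat_lit 65)) (.br (Nat.shiftLeft (nat_lit 0x4000003) (nat_lit 112)) (.one (nat_lit 0x400000200400a00b00e400809501601c611)) (.one (nat_lit 0x400000300400a00b00d600809501601a611))) (.br (Nat.shiftLeft (nat_lit 0x5) (nat_lit 136)) (.one (nat_lit 0x400000300400a00b00e600809501601c611)) (.br (Nat.shiftLeft (nat_lit 0x2800000802005005807) (nat_lit 65)) (.one (nat_lit 0x500000100400a00b00d20080b541601a611)) (.one (nat_lit 0x500000100400a00b00e20080b541601c611)))))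
def t29 : k29.all (jb2 57 fl b0) = true := by decide +kernel
noncomputable def k30 : KT := (.br (Nat.shiftLeft (nat_lit 0x5000003) (nat_lit 112)) (.br (Nat.shiftLeft (nat_lit 0x2800001002005005807) (nat_lit 65)) (.one (nat_lit 0x500000200400a00b00d40080b541601a611)) (.one (nat_lit 0x500000200400a00b00e40080b541601c611))) (.br (Nat.shiftLeft (nat_lit 0x2800001802005005807) (nat_lit 65)) (.one (nat_lit 0x500000300400a00b00d60080b541601a611)) (.one (nat_lit 0x500000300400a00b00e60080b541601c611))))
def t30 : k30.all (jb2 57 fl b0) = true := by decide +kernel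
noncomputable def k31 : KT := (.br (Nat.shiftLeft (nat_lit 0x3000000802005005807) (nat_lit 65)) (.one (nat_lit 0x600000100400a00b00d20080d581601a611)) (.one (nat_lit 0x600000100400a00b00e20080d581601c611)))
def t31 : k31.all (jb2 57 fl b0) = true := by decide +kernel
noncomputable def k32 : KT := (.br (Nat.shiftLeft (nat_lit 0x3000001002005005807) (nat_lit 65)) (.one (nat_lit 0x600000200400a00b00d40080d581601a611)) (.br (Nat.shiftLeft (nat_lit 0x6000003) (nat_lit 112)) (.one (nat_lit 0x600000200400a00b00e40080d581601c611)) (.one (nat_lit 0x600000300400a00b00d60080d581601a611))))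
def t32 : k32.all (jb2 57 fl b0) = true := by decide +kernel
noncomputable def k33 : KT := (.br (Nat.shiftLeft (nat_lit 0x7) (nat_lit 136)) (.one (nat_lit 0x600000300400a00b00e60080d581601c611)) (.br (Nat.shiftLeft (nat_lit 0x3800000802005005807) (nat_lit 65)) (.one (nat_lit 0x700000100400a00b00d20080f5c1601a611)) (.one (nat_lit 0x700000100400a00b00e20080f5c1601c611))))
def t33 : k33.all (jb2 57 fl b0) = true := by decide +kernel
noncomputable def k34 : KT := (.br (Nat.shiftLeft (nat_lit 0x7000003) (nat_lit 112)) (.br (Nat.shiftLeft (nat_lit 0x3800001002005005807) (nat_lit 65)) (.one (nat_lit 0x700000200400a00b00d40080f5c1601a611)) (.one (nat_lit 0x700000200400a00b00e40080f5c1601c611))) (.br (Nat.shiftLeft (nat_lit 0x3800001802005005807) (nat_lit 65)) (.one (nat_lit 0x700000300400a00b00d60080f5c1601a611)) (.one (nat_lit 0x700000300400a00b00e60080f5c1601c611))))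
def t34 : k34.all (jb2 57 fl b0) = true := by decide +kernel
noncomputable def k35 : KT := (.br (Nat.shiftLeft (nat_lit 0x4000000802005005807) (nat_lit 65)) (.one (nat_lit 0x800000100400a00b00d200811601601a611)) (.br (Nat.shiftLeft (nat_lit 0x4000001) (nat_lit 113)) (.one (nat_lit 0x800000100400a00b00e200811601601c611)) (.one (nat_lit 0x800000200400a00b00d400811601601a611))))
def t35 : k35.all (jb2 57 fl b0) = true := by decide +kernel
noncomputable def k36 : KT := (.br (Nat.shiftLeft (nat_lit 0x4000001802005005807) (nat_lit 65)) (.br (Nat.shiftLeft (nat_lit 0x8000003) (nat_lit 112)) (.one (nat_lit 0x800000200400a00b00e400811601601c611)) (.one (nat_lit 0x800000300400a00b00d600811601601a611))) (.br (Nat.shiftLeft (nat_lit 0x9) (nat_lit 136)) (.one (nat_lit 0x800000300400a00b00e600811601601c611)) (.br (Nat.shiftLeft (nat_lit 0x4800000802005005807) (nat_lit 65)) (.one (nat_lit 0x900000100400a00b00d200813641601a611)) (.one (nat_lit 0x900000100400a00b00e200813641601c611)))))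
def t36 : k36.all (jb2 57 fl b0) = true := by decide +kernel
noncomputable def k37 : KT := (.br (Nat.shiftLeft (nat_lit 0x5000000802005005807) (nat_lit 65)) (.br (Nat.shiftLeft (nat_lit 0x9000003) (nat_lit 112)) (.br (Nat.shiftLeft (nat_lit 0x4800001002005005807) (nat_lit 65)) (.one (nat_lit 0x900000200400a00b00d400813641601a611)) (.one (nat_lit 0x900000200400a00b00e400813641601c611))) (.br (Nat.shiftLeft (nat_lit 0x4800001802005005807) (nat_lit 65)) (.one (nat_lit 0x900000300400a00b00d600813641601a611)) (.br (Nat.shiftLeft (nat_lit 0x5) (nat_lit 137)) (.one (nat_lit 0x900000300400a00b00e600813641601c611)) (.one (nat_lit 0xa00000100400a00b00d200815681601a611))))) (.br (Nat.shiftLeft (nat_lit 0x5000001002005005807) (nat_lit 65)) (.br (Nat.shiftLeft (nat_lit 0x5000001) (nat_lit 113)) (.one (nat_lit 0xa00000100400a00b00e200815681601c611)) (.one (nat_lit 0xa00000200400a00b00d400815681601a611))) (.br (Nat.shiftLeft (nat_lit 0xa000003) (nat_lit 112)) (.one (nat_lit 0xa00000200400a00b00e400815681601c611)) (.br (Nat.shiftLeft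 (nat_lit 0x5000001802005005807) (nat_lit 65)) (.one (nat_lit 0xa00000300400a00b00d600815681601a611)) (.one (nat_lit 0xa00000300400a00b00e600815681601c611))))))
def t37 : k37.all (jb2 57 fl b0) = true := by decide +kernel
noncomputable def k38 : KT := (.br (Nat.shiftLeft (nat_lit 0x800001) (nat_lit 125)) (.br (Nat.shiftLeft (nat_lit 0x5800001002005005807) (nat_lit 65)) (.br (Nat.shiftLeft (nat_lit 0x5800000802005005807) (nat_lit 65)) (.one (nat_lit 0xb00000100400a00b00d2008176c1601a611)) (.br (Nat.shiftLeft (nat_lit 0x5800001) (nat_lit 113)) (.one (nat_lit 0xb00000100400a00b00e2008176c1601c611)) (.one (nat_lit 0xb00000200400a00b00d4008176c1601a611)))) (.br (Nat.shiftLeft (nat_lit 0x5800001802005005807) (nat_lit 65)) (.br (Nat.shiftLeft (nat_lit 0xb000003) (nat_lit 112)) (.one (nat_lit 0xb00000200400a00b00e4008176c1601c611)) (.one (nat_lit 0xb00000300400a00b00d6008176c1601a611))) (.br (Nat.shiftLeft (nat_lit 0x1) (nat_lit 148)) (.one (nat_lit 0xb00000300400a00b00e6008176c1601c611)) (.one (nat_lit 0x100000100200400a00b00d402841403641a711)))))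 (.br (Nat.shiftLeft (nat_lit 0x1800001) (nat_lit 125)) (.br (Nat.shiftLeft (nat_lit 0x1000001) (nat_lit 125)) (.br (Nat.shiftLeft (nat_lit 0x1) (nat_lit 149)) (.one (nat_lit 0x100000200300400a00b00d602841405681a711)) (.one (nat_lit 0x200000100200400a00b00d404881403641a711))) (.br (Nat.shiftLeft (nat_lit 0x3) (nat_lit 148)) (.one (nat_lit 0x200000200300400a00b00d604881405681a711)) (.one (nat_lit 0x300000100200400a00b00d4068c1403641a711)))) (.br (Nat.shiftLeft (nat_lit 0x2000001) (nat_lit 125)) (.br (Nat.shiftLeft (nat_lit 0x1) (nat_lit 150)) (.one (nat_lit 0x300000200300400a00b00d6068c1405681a711)) (.one (nat_lit 0x400000100200400a00b00d408901403641a711))) (.br (Nat.shiftLeft (nat_lit 0x5) (nat_lit 148)) (.one (nat_lit 0x400000200300400a00b00d608901405681a711)) (.one (nat_lit 0x500000100200400a00b00d40a941403641a711))))))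
def t38 : k38.all (jb2 57 fl b0) = true := by decide +kernel
noncomputable def k39 : KT := (.br (Nat.shiftLeft (nat_lit 0x3000001) (nat_lit 125)) (.br (Nat.shiftLeft (nat_lit 0x3) (nat_lit 149)) (.one (nat_lit 0x500000200300400a00b00d60a941405681a711)) (.one (nat_lit 0x600000100200400a00b00d40c981403641a711))) (.br (Nat.shiftLeft (nat_lit 0x7) (nat_lit 148)) (.one (nat_lit 0x600000200300400a00b00d60c981405681a711)) (.br (Nat.shiftLeft (nat_lit 0x3800001) (nat_lit 125)) (.one (nat_lit 0x700000100200400a00b00d40e9c1403641a711)) (.one (nat_lit 0x700000200300400a00b00d60e9c1405681a711)))))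
def t39 : k39.all (jb2 57 fl b0) = true := by decide +kernel
noncomputable def k40 : KT := (.br (Nat.shiftLeft (nat_lit 0x5) (nat_lit 149)) (.br (Nat.shiftLeft (nat_lit 0x9) (nat_lit 148)) (.br (Nat.shiftLeft (nat_lit 0x4000001) (nat_lit 125)) (.one (nat_lit 0x800000100200400a00b00d410a01403641a711)) (.one (nat_lit 0x800000200300400a00b00d610a01405681a711))) (.br (Nat.shiftLeft (nat_lit 0x4800001) (nat_lit 125)) (.one (nat_lit 0x900000100200400a00b00d412a41403641a711)) (.one (nat_lit 0x900000200300400a00b00d612a41405681a711)))) (.br (Nat.shiftLeft (nat_lit 0xb) (nat_lit 148)) (.br (Nat.shiftLeft (nat_lit 0x5000001) (nat_lit 125)) (.one (nat_lit 0xa00000100200400a00b00d414a81403641a711)) (.one (nat_lit 0xa00000200300400a00b00d614a81405681a711))) (.br (Nat.shiftLeft (nat_lit 0x5800001) (nat_lit 125)) (.one (nat_lit 0xb00000100200400a00b00d416ac1403641a711)) (.one (nat_lit 0xb00000200300400a00b00d616ac1405681a711)))))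
def t40 : k40.all (jb2 57 fl b0) = true := by decide +kernel
noncomputable def s1 : KT := (.br (nat_lit 0x500000100400a00b00e20080b541601c611) (.br (nat_lit 0x600000400a00b00e00080140d781c511) (.br (nat_lit 0x100300400a00b00d600801403641a760) (.br (nat_lit 0x100200400a00b00e400801403641c760) k20 k21) (.br (nat_lit 0x200300400a00b00d600801405681b700) k22 (.br (nat_lit 0x400000400a00b00e000801409701c511) k23 k24))) (.br (nat_lit 0x900000400a00b00d000801413841a511) (.br (nat_lit 0x700000400a00b00e00080140f7c1c511) k25 k26) (.br (nat_lit 0x100000300400a00b00e600803441601c611) k27 (.br (nat_lit 0x400000200400a00b00d400809501601a611) k28 k29)))) (.br (nat_lit 0x700000300400a00b00e60080f5c1601c611) (.br (nat_lit 0x600000100400a00b00e20080d581601c611) (.br (nat_lit 0x500000300400a00b00e60080b541601c611) k30 k31) (.br (nat_lit 0x600000300400a00b00d60080d581601a611) k32 (.br (nat_lit 0x700000100400a00b00e20080f5c1601c611) k33 k34))) (.br (nat_lit 0xa00000300400a00b00e600815681601c611) (.br (nat_lit 0x800000200400a00b00d400811601601a611)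 k35 (.br (nat_lit 0x900000100400a00b00e200813641601c611) k36 k37)) (.br (nat_lit 0x500000100200400a00b00d40a941403641a711) k38 (.br (nat_lit 0x700000200300400a00b00d60e9c1405681a711) k39 k40)))))
noncomputable def u1 : KT := (.br (Nat.shiftLeft (nat_lit 0x2005005807) (nat_lit 65)) (.one (nat_lit 0x400a00b00d000801401601a540)) (.one (nat_lit 0x400a00b00e000801401601c540)))
def w1 : u1.all (wj 57 s1) = true := by decide +kernel
def o1 : OkW 57 (jb2 57 fl) u1 := .lift s1 _ (.br _ _ _ (.br _ _ _ (.br _ _ _ (.br _ _ _ (.leaf b0 k20 t20) (.leaf b0 k21 t21)) (.br _ _ _ (.leaf b0 k22 t22) (.br _ _ _ (.leaf b0 k23 t23) (.leaf b0 k24 t24)))) (.br _ _ _ (.br _ _ _ (.leaf b0 k25 t25) (.leaf b0 k26 t26)) (.br _ _ _ (.leaf b0 k27 t27) (.br _ _ _ (.leaf b0 k28 t28) (.leaf b0 k29 t29))))) (.br _ _ _ (.br _ _ _ (.br _ _ _ (.leaf b0 k30 t30) (.leaf b0 k31 t31)) (.br _ _ _ (.leaf b0 k32 t32) (.br _ _ _ (.leaf b0 k33 t33) (.leaf b0 k34 t34)))) (.br _ _ _ (.br _ _ _ (.leaf b0 k35 t35) (.br _ _ _ (.leaf b0 k36 t36) (.leaf b0 k37 t37)))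 (.br _ _ _ (.leaf b0 k38 t38) (.br _ _ _ (.leaf b0 k39 t39) (.leaf b0 k40 t40)))))) w1
noncomputable def k41 : KT := (.br (Nat.shiftLeft (nat_lit 0x200400a00b01) (nat_lit 68)) (.br (Nat.shiftLeft (nat_lit 0x1) (nat_lit 112)) (.br (Nat.shiftLeft (nat_lit 0x400a00b01) (nat_lit 68)) (.one (nat_lit 0x400a00b00f000801401601f500)) (.br (Nat.shiftLeft (nat_lit 0x1002803) (nat_lit 78)) (.one (nat_lit 0x400a00b0100008014016021500)) (.one (nat_lit 0x400a00c00d000801401801b500)))) (.br (Nat.shiftLeft (nat_lit 0x401002803) (nat_lit 78)) (.br (Nat.shiftLeft (nat_lit 0x100400a00b01) (nat_lit 68)) (.one (nat_lit 0x100400a00b00f200801401601f600)) (.one (nat_lit 0x100400a00b0102008014016020650))) (.br (Nat.shiftLeft (nat_lit 0x1) (nat_lit 113)) (.one (nat_lit 0x100400a00c00d200801401801b600)) (.one (nat_lit 0x200400a00b00f400801401601f600))))) (.br (Nat.shiftLeft (nat_lit 0xc01002803) (nat_lit 78)) (.br (Nat.shiftLeft (nat_lit 0x3) (nat_lit 112)) (.br (Nat.shiftLeft (nat_lit 0x801002803) (nat_lit 78)) (.one (nat_lit 0x200400a00b0104008014016021600))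 (.one (nat_lit 0x200400a00c00d400801401801b600))) (.br (Nat.shiftLeft (nat_lit 0x300400a00b01) (nat_lit 68)) (.one (nat_lit 0x300400a00b00f600801401601f600)) (.one (nat_lit 0x300400a00b0106008014016021600)))) (.br (Nat.shiftLeft (nat_lit 0x100000400a00b01) (nat_lit 68)) (.br (Nat.shiftLeft (nat_lit 0x1) (nat_lit 124)) (.one (nat_lit 0x300400a00c00d600801401801b600)) (.one (nat_lit 0x100000400a00b00f000801403641e511))) (.br (Nat.shiftLeft (nat_lit 0x400001002803) (nat_lit 78)) (.one (nat_lit 0x100000400a00b0100008014036420511)) (.one (nat_lit 0x100000400a00c00d000801403841a511))))))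
def t41 : k41.all (jb2 57 fl b0) = true := by decide +kernel
noncomputable def k42 : KT := (.one (nat_lit 0x100200400a00b00f400801403641e760))
def t42 : k42.all (jb2 57 fl b0) = true := by decide +kernel
noncomputable def k43 : KT := (.one (nat_lit 0x100200400a00b0104008014036420760))
def t43 : k43.all (jb2 57 fl b0) = true := by decide +kernel
noncomputable def k44 : KT := (.one (nat_lit 0x100200400a00c00d400801403841a760))
def t44 : k44.all (jb2 57 fl b0) = true := by decide +kernel
noncomputable def k45 : KT := (.br (Nat.shiftLeft (nat_lit 0x100300400a00b01) (nat_lit 68)) (.one (nat_lit 0x100300400a00b00f600801403641e760)) (.one (nat_lit 0x100300400a00b0106008014036420760)))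
def t45 : k45.all (jb2 57 fl b0) = true := by decide +kernel
noncomputable def k46 : KT := (.br (Nat.shiftLeft (nat_lit 0x200000400a00b01) (nat_lit 68)) (.br (Nat.shiftLeft (nat_lit 0x1) (nat_lit 125)) (.one (nat_lit 0x100300400a00c00d600801403841a760)) (.one (nat_lit 0x200000400a00b00f000801405681e511))) (.br (Nat.shiftLeft (nat_lit 0x800001002803) (nat_lit 78)) (.one (nat_lit 0x200000400a00b0100008014056820511)) (.one (nat_lit 0x200000400a00c00d000801405881a511))))
def t46 : k46.all (jb2 57 fl b0) = true := by decide +kernel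
noncomputable def k47 : KT := (.br (Nat.shiftLeft (nat_lit 0x200300400a00b01) (nat_lit 68)) (.one (nat_lit 0x200300400a00b00f600801405681e760)) (.one (nat_lit 0x200300400a00b0106008014056820760)))
def t47 : k47.all (jb2 57 fl b0) = true := by decide +kernel
noncomputable def k48 : KT := (.br (Nat.shiftLeft (nat_lit 0xc00001002803) (nat_lit 78)) (.br (Nat.shiftLeft (nat_lit 0x3) (nat_lit 124)) (.one (nat_lit 0x200300400a00c00d600801405881a760)) (.br (Nat.shiftLeft (nat_lit 0x300000400a00b01) (nat_lit 68)) (.one (nat_lit 0x300000400a00b00f0008014076c1e511)) (.one (nat_lit 0x300000400a00b0100008014076c20511)))) (.br (Nat.shiftLeft (nat_lit 0x1) (nat_lit 126)) (.one (nat_lit 0x300000400a00c00d0008014078c1a511)) (.br (Nat.shiftLeft (nat_lit 0x400000400a00b01) (nat_lit 68)) (.one (nat_lit 0x400000400a00b00f000801409701e511)) (.one (nat_lit 0x400000400a00b0100008014097020511)))))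
def t48 : k48.all (jb2 57 fl b0) = true := by decide +kernel
noncomputable def k49 : KT := (.br (Nat.shiftLeft (nat_lit 0x1400001002803) (nat_lit 78)) (.br (Nat.shiftLeft (nat_lit 0x5) (nat_lit 124)) (.one (nat_lit 0x400000400a00c00d000801409901a511)) (.br (Nat.shiftLeft (nat_lit 0x500000400a00b01) (nat_lit 68)) (.one (nat_lit 0x500000400a00b00f00080140b741e511)) (.one (nat_lit 0x500000400a00b01000080140b7420511)))) (.br (Nat.shiftLeft (nat_lit 0x3) (nat_lit 125)) (.one (nat_lit 0x500000400a00c00d00080140b941a511)) (.br (Nat.shiftLeft (nat_lit 0x600000400a00b01) (nat_lit 68)) (.one (nat_lit 0x600000400a00b00f00080140d781e511)) (.one (nat_lit 0x600000400a00b01000080140d7820511)))))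
def t49 : k49.all (jb2 57 fl b0) = true := by decide +kernel
noncomputable def k50 : KT := (.br (Nat.shiftLeft (nat_lit 0x700000400a00b01) (nat_lit 68)) (.br (Nat.shiftLeft (nat_lit 0x7) (nat_lit 124)) (.one (nat_lit 0x600000400a00c00d00080140d981a511)) (.one (nat_lit 0x700000400a00b00f00080140f7c1e511))) (.br (Nat.shiftLeft (nat_lit 0x1c00001002803) (nat_lit 78)) (.one (nat_lit 0x700000400a00b01000080140f7c20511)) (.one (nat_lit 0x700000400a00c00d00080140f9c1a511))))
def t50 : k50.all (jb2 57 fl b0) = true := by decide +kernel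
noncomputable def k51 : KT := (.br (Nat.shiftLeft (nat_lit 0x9) (nat_lit 124)) (.br (Nat.shiftLeft (nat_lit 0x800000400a00b01) (nat_lit 68)) (.one (nat_lit 0x800000400a00b00f000801411801e511)) (.br (Nat.shiftLeft (nat_lit 0x2000001002803) (nat_lit 78)) (.one (nat_lit 0x800000400a00b0100008014118020511)) (.one (nat_lit 0x800000400a00c00d000801411a01a511)))) (.br (Nat.shiftLeft (nat_lit 0x900000400a00b01) (nat_lit 68)) (.one (nat_lit 0x900000400a00b00f000801413841e511)) (.br (Nat.shiftLeft (nat_lit 0x2400001002803) (nat_lit 78)) (.one (nat_lit 0x900000400a00b0100008014138420511)) (.one (nat_lit 0x900000400a00c00d000801413a41a511)))))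
def t51 : k51.all (jb2 57 fl b0) = true := by decide +kernel
noncomputable def k52 : KT := (.br (Nat.shiftLeft (nat_lit 0x800000401002803) (nat_lit 78)) (.br (Nat.shiftLeft (nat_lit 0x400000401002803) (nat_lit 78)) (.br (Nat.shiftLeft (nat_lit 0xb00000400a00b01) (nat_lit 68)) (.br (Nat.shiftLeft (nat_lit 0x2800001002803) (nat_lit 78)) (.br (Nat.shiftLeft (nat_lit 0xa00000400a00b01) (nat_lit 68)) (.one (nat_lit 0xa00000400a00b00f000801415881e511)) (.one (nat_lit 0xa00000400a00b0100008014158820511))) (.br (Nat.shiftLeft (nat_lit 0xb) (nat_lit 124)) (.one (nat_lit 0xa00000400a00c00d000801415a81a511)) (.one (nat_lit 0xb00000400a00b00f0008014178c1e511)))) (.br (Nat.shiftLeft (nat_lit 0x3) (nat_lit 126)) (.br (Nat.shiftLeft (nat_lit 0x2c00001002803) (nat_lit 78)) (.one (nat_lit 0xb00000400a00b0100008014178c20511)) (.one (nat_lit 0xb00000400a00c00d000801417ac1a511))) (.br (Nat.shiftLeft (nat_lit 0x1) (nat_lit 136)) (.one (nat_lit 0xc00000400a00c00d000801419b01a511)) (.one (nat_lit 0x100000100400a00b00f200803441601e611)))))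 (.br (Nat.shiftLeft (nat_lit 0x1000003) (nat_lit 112)) (.br (Nat.shiftLeft (nat_lit 0x100000200400a00b01) (nat_lit 68)) (.br (Nat.shiftLeft (nat_lit 0x800001) (nat_lit 113)) (.one (nat_lit 0x100000100400a00c00d200803441801a611)) (.one (nat_lit 0x100000200400a00b00f400803441601e611))) (.br (Nat.shiftLeft (nat_lit 0x400000801002803) (nat_lit 78)) (.one (nat_lit 0x100000200400a00b0104008034416020611)) (.one (nat_lit 0x100000200400a00c00d400803441801a611)))) (.br (Nat.shiftLeft (nat_lit 0x400000c01002803) (nat_lit 78)) (.br (Nat.shiftLeft (nat_lit 0x100000300400a00b01) (nat_lit 68)) (.one (nat_lit 0x100000300400a00b00f600803441601e611)) (.one (nat_lit 0x100000300400a00b0106008034416020611))) (.br (Nat.shiftLeft (nat_lit 0x1) (nat_lit 137)) (.one (nat_lit 0x100000300400a00c00d600803441801a611)) (.one (nat_lit 0x200000100400a00b00f200805481601e611)))))) (.br (Nat.shiftLeft (nat_lit 0xc00000401002803) (nat_lit 78)) (.br (Nat.shiftLeft (nat_lit 0x2000003) (nat_lit 112)) (.br (Nat.shiftLeft (nat_lit 0x200000200400a00b01)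 (nat_lit 68)) (.br (Nat.shiftLeft (nat_lit 0x1000001) (nat_lit 113)) (.one (nat_lit 0x200000100400a00c00d200805481801a611)) (.one (nat_lit 0x200000200400a00b00f400805481601e611))) (.br (Nat.shiftLeft (nat_lit 0x800000801002803) (nat_lit 78)) (.one (nat_lit 0x200000200400a00b0104008054816020611)) (.one (nat_lit 0x200000200400a00c00d400805481801a611)))) (.br (Nat.shiftLeft (nat_lit 0x800000c01002803) (nat_lit 78)) (.br (Nat.shiftLeft (nat_lit 0x200000300400a00b01) (nat_lit 68)) (.one (nat_lit 0x200000300400a00b00f600805481601e611)) (.one (nat_lit 0x200000300400a00b0106008054816020611))) (.br (Nat.shiftLeft (nat_lit 0x3) (nat_lit 136)) (.one (nat_lit 0x200000300400a00c00d600805481801a611)) (.one (nat_lit 0x300000100400a00b00f2008074c1601e611))))) (.br (Nat.shiftLeft (nat_lit 0x3000003) (nat_lit 112)) (.br (Nat.shiftLeft (nat_lit 0x300000200400a00b01) (nat_lit 68)) (.br (Nat.shiftLeft (nat_lit 0x1800001) (nat_lit 113)) (.one (nat_lit 0x300000100400a00c00d2008074c1801a611)) (.one (nat_lit 0x300000200400a00b00f4008074c1601e611)))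 (.br (Nat.shiftLeft (nat_lit 0xc00000801002803) (nat_lit 78)) (.one (nat_lit 0x300000200400a00b0104008074c16020611)) (.one (nat_lit 0x300000200400a00c00d4008074c1801a611)))) (.br (Nat.shiftLeft (nat_lit 0xc00000c01002803) (nat_lit 78)) (.br (Nat.shiftLeft (nat_lit 0x300000300400a00b01) (nat_lit 68)) (.one (nat_lit 0x300000300400a00b00f6008074c1601e611)) (.one (nat_lit 0x300000300400a00b0106008074c16020611))) (.br (Nat.shiftLeft (nat_lit 0x1) (nat_lit 138)) (.one (nat_lit 0x300000300400a00c00d6008074c1801a611)) (.br (Nat.shiftLeft (nat_lit 0x1000000401002803) (nat_lit 78)) (.one (nat_lit 0x400000100400a00b00f200809501601e611)) (.one (nat_lit 0x400000100400a00c00d200809501801a611))))))))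
def t52 : k52.all (jb2 57 fl b0) = true := by decide +kernel
noncomputable def k53 : KT := (.br (Nat.shiftLeft (nat_lit 0x400000300400a00b01) (nat_lit 68)) (.br (Nat.shiftLeft (nat_lit 0x1000000801002803) (nat_lit 78)) (.br (Nat.shiftLeft (nat_lit 0x400000200400a00b01) (nat_lit 68)) (.one (nat_lit 0x400000200400a00b00f400809501601e611)) (.one (nat_lit 0x400000200400a00b0104008095016020611))) (.br (Nat.shiftLeft (nat_lit 0x4000003) (nat_lit 112)) (.one (nat_lit 0x400000200400a00c00d400809501801a611)) (.one (nat_lit 0x400000300400a00b00f600809501601e611)))) (.br (Nat.shiftLeft (nat_lit 0x5) (nat_lit 136)) (.br (Nat.shiftLeft (nat_lit 0x1000000c01002803) (nat_lit 78)) (.one (nat_lit 0x400000300400a00b0106008095016020611)) (.one (nat_lit 0x400000300400a00c00d600809501801a611))) (.br (Nat.shiftLeft (nat_lit 0x1400000401002803) (nat_lit 78)) (.one (nat_lit 0x500000100400a00b00f20080b541601e611)) (.one (nat_lit 0x500000100400a00c00d20080b541801a611)))))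
def t53 : k53.all (jb2 57 fl b0) = true := by decide +kernel
noncomputable def k54 : KT := (.br (Nat.shiftLeft (nat_lit 0x5000003) (nat_lit 112)) (.br (Nat.shiftLeft (nat_lit 0x500000200400a00b01) (nat_lit 68)) (.one (nat_lit 0x500000200400a00b00f40080b541601e611)) (.br (Nat.shiftLeft (nat_lit 0x1400000801002803) (nat_lit 78)) (.one (nat_lit 0x500000200400a00b01040080b5416020611)) (.one (nat_lit 0x500000200400a00c00d40080b541801a611)))) (.br (Nat.shiftLeft (nat_lit 0x500000300400a00b01) (nat_lit 68)) (.one (nat_lit 0x500000300400a00b00f60080b541601e611)) (.br (Nat.shiftLeft (nat_lit 0x1400000c01002803) (nat_lit 78)) (.one (nat_lit 0x500000300400a00b01060080b5416020611)) (.one (nat_lit 0x500000300400a00c00d60080b541801a611)))))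
def t54 : k54.all (jb2 57 fl b0) = true := by decide +kernel
noncomputable def k55 : KT := (.br (Nat.shiftLeft (nat_lit 0x3000001) (nat_lit 113)) (.br (Nat.shiftLeft (nat_lit 0x1800000401002803) (nat_lit 78)) (.one (nat_lit 0x600000100400a00b00f20080d581601e611)) (.one (nat_lit 0x600000100400a00c00d20080d581801a611))) (.br (Nat.shiftLeft (nat_lit 0x600000200400a00b01) (nat_lit 68)) (.one (nat_lit 0x600000200400a00b00f40080d581601e611)) (.one (nat_lit 0x600000200400a00b01040080d5816020611))))
def t55 : k55.all (jb2 57 fl b0) = true := by decide +kernel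
noncomputable def k56 : KT := (.br (Nat.shiftLeft (nat_lit 0x600000300400a00b01) (nat_lit 68)) (.br (Nat.shiftLeft (nat_lit 0x6000003) (nat_lit 112)) (.one (nat_lit 0x600000200400a00c00d40080d581801a611)) (.one (nat_lit 0x600000300400a00b00f60080d581601e611))) (.br (Nat.shiftLeft (nat_lit 0x1800000c01002803) (nat_lit 78)) (.one (nat_lit 0x600000300400a00b01060080d5816020611)) (.br (Nat.shiftLeft (nat_lit 0x7) (nat_lit 136)) (.one (nat_lit 0x600000300400a00c00d60080d581801a611)) (.one (nat_lit 0x700000100400a00b00f20080f5c1601e611)))))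
def t56 : k56.all (jb2 57 fl b0) = true := by decide +kernel
noncomputable def k57 : KT := (.br (Nat.shiftLeft (nat_lit 0x1c00000801002803) (nat_lit 78)) (.br (Nat.shiftLeft (nat_lit 0x3800001) (nat_lit 113)) (.one (nat_lit 0x700000100400a00c00d20080f5c1801a611)) (.br (Nat.shiftLeft (nat_lit 0x700000200400a00b01) (nat_lit 68)) (.one (nat_lit 0x700000200400a00b00f40080f5c1601e611)) (.one (nat_lit 0x700000200400a00b01040080f5c16020611)))) (.br (Nat.shiftLeft (nat_lit 0x7000003) (nat_lit 112)) (.one (nat_lit 0x700000200400a00c00d40080f5c1801a611)) (.br (Nat.shiftLeft (nat_lit 0x700000300400a00b01) (nat_lit 68)) (.one (nat_lit 0x700000300400a00b00f60080f5c1601e611)) (.one (nat_lit 0x700000300400a00b01060080f5c16020611)))))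
def t57 : k57.all (jb2 57 fl b0) = true := by decide +kernel
noncomputable def k58 : KT := (.br (Nat.shiftLeft (nat_lit 0x800000200400a00b01) (nat_lit 68)) (.br (Nat.shiftLeft (nat_lit 0x2000000401002803) (nat_lit 78)) (.br (Nat.shiftLeft (nat_lit 0x1) (nat_lit 139)) (.one (nat_lit 0x700000300400a00c00d60080f5c1801a611)) (.one (nat_lit 0x800000100400a00b00f200811601601e611))) (.br (Nat.shiftLeft (nat_lit 0x4000001) (nat_lit 113)) (.one (nat_lit 0x800000100400a00c00d200811601801a611)) (.one (nat_lit 0x800000200400a00b00f400811601601e611)))) (.br (Nat.shiftLeft (nat_lit 0x8000003) (nat_lit 112)) (.br (Nat.shiftLeft (nat_lit 0x2000000801002803) (nat_lit 78)) (.one (nat_lit 0x800000200400a00b0104008116016020611)) (.one (nat_lit 0x800000200400a00c00d400811601801a611))) (.br (Nat.shiftLeft (nat_lit 0x800000300400a00b01) (nat_lit 68)) (.one (nat_lit 0x800000300400a00b00f600811601601e611)) (.one (nat_lit 0x800000300400a00b0106008116016020611)))))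
def t58 : k58.all (jb2 57 fl b0) = true := by decide +kernel
noncomputable def k59 : KT := (.br (Nat.shiftLeft (nat_lit 0x900000300400a00b01) (nat_lit 68)) (.br (Nat.shiftLeft (nat_lit 0x4800001) (nat_lit 113)) (.br (Nat.shiftLeft (nat_lit 0x9) (nat_lit 136)) (.one (nat_lit 0x800000300400a00c00d600811601801a611)) (.br (Nat.shiftLeft (nat_lit 0x2400000401002803) (nat_lit 78)) (.one (nat_lit 0x900000100400a00b00f200813641601e611)) (.one (nat_lit 0x900000100400a00c00d200813641801a611)))) (.br (Nat.shiftLeft (nat_lit 0x2400000801002803) (nat_lit 78)) (.br (Nat.shiftLeft (nat_lit 0x900000200400a00b01) (nat_lit 68)) (.one (nat_lit 0x900000200400a00b00f400813641601e611)) (.one (nat_lit 0x900000200400a00b0104008136416020611))) (.br (Nat.shiftLeft (nat_lit 0x9000003) (nat_lit 112)) (.one (nat_lit 0x900000200400a00c00d400813641801a611)) (.one (nat_lit 0x900000300400a00b00f600813641601e611))))) (.br (Nat.shiftLeft (nat_lit 0x5000001) (nat_lit 113)) (.br (Nat.shiftLeft (nat_lit 0x5) (nat_lit 137)) (.br (Nat.shiftLeft (nat_lit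 0x2400000c01002803) (nat_lit 78)) (.one (nat_lit 0x900000300400a00b0106008136416020611)) (.one (nat_lit 0x900000300400a00c00d600813641801a611))) (.br (Nat.shiftLeft (nat_lit 0x2800000401002803) (nat_lit 78)) (.one (nat_lit 0xa00000100400a00b00f200815681601e611)) (.one (nat_lit 0xa00000100400a00c00d200815681801a611)))) (.br (Nat.shiftLeft (nat_lit 0x2800000801002803) (nat_lit 78)) (.br (Nat.shiftLeft (nat_lit 0xa00000200400a00b01) (nat_lit 68)) (.one (nat_lit 0xa00000200400a00b00f400815681601e611)) (.one (nat_lit 0xa00000200400a00b0104008156816020611))) (.br (Nat.shiftLeft (nat_lit 0xa000003) (nat_lit 112)) (.one (nat_lit 0xa00000200400a00c00d400815681801a611)) (.one (nat_lit 0xa00000300400a00b00f600815681601e611))))))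
def t59 : k59.all (jb2 57 fl b0) = true := by decide +kernel
noncomputable def k60 : KT := (.br (Nat.shiftLeft (nat_lit 0x2c00000801002803) (nat_lit 78)) (.br (Nat.shiftLeft (nat_lit 0x2c00000401002803) (nat_lit 78)) (.br (Nat.shiftLeft (nat_lit 0x2800000c01002803) (nat_lit 78)) (.one (nat_lit 0xa00000300400a00b0106008156816020611)) (.br (Nat.shiftLeft (nat_lit 0xb) (nat_lit 136)) (.one (nat_lit 0xa00000300400a00c00d600815681801a611)) (.one (nat_lit 0xb00000100400a00b00f2008176c1601e611)))) (.br (Nat.shiftLeft (nat_lit 0x5800001) (nat_lit 113)) (.one (nat_lit 0xb00000100400a00c00d2008176c1801a611)) (.br (Nat.shiftLeft (nat_lit 0xb00000200400a00b01) (nat_lit 68)) (.one (nat_lit 0xb00000200400a00b00f4008176c1601e611)) (.one (nat_lit 0xb00000200400a00b0104008176c16020611))))) (.br (Nat.shiftLeft (nat_lit 0x2c00000c01002803) (nat_lit 78)) (.br (Nat.shiftLeft (nat_lit 0xb000003) (nat_lit 112)) (.one (nat_lit 0xb00000200400a00c00d4008176c1801a611)) (.br (Nat.shiftLeft (nat_lit 0xb00000300400a00b01) (nat_lit 68)) (.one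 (nat_lit 0xb00000300400a00b00f6008176c1601e611)) (.one (nat_lit 0xb00000300400a00b0106008176c16020611)))) (.br (Nat.shiftLeft (nat_lit 0x6000001) (nat_lit 113)) (.br (Nat.shiftLeft (nat_lit 0x3) (nat_lit 138)) (.one (nat_lit 0xb00000300400a00c00d6008176c1801a611)) (.one (nat_lit 0xc00000100400a00c00d200819701801a611))) (.br (Nat.shiftLeft (nat_lit 0xc000003) (nat_lit 112)) (.one (nat_lit 0xc00000200400a00c00d400819701801a611)) (.one (nat_lit 0xc00000300400a00c00d600819701801a611))))))
def t60 : k60.all (jb2 57 fl b0) = true := by decide +kernel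
noncomputable def s2 : KT := (.br (nat_lit 0x700000400a00c00d00080140f9c1a511) (.br (nat_lit 0x100300400a00b0106008014036420760) (.br (nat_lit 0x100200400a00b00f400801403641e760) (.br (nat_lit 0x100000400a00c00d000801403841a511) k41 k42) (.br (nat_lit 0x100200400a00b0104008014036420760) k43 (.br (nat_lit 0x100200400a00c00d400801403841a760) k44 k45))) (.br (nat_lit 0x200300400a00b0106008014056820760) (.br (nat_lit 0x200000400a00c00d000801405881a511) k46 k47) (.br (nat_lit 0x400000400a00b0100008014097020511) k48 (.br (nat_lit 0x600000400a00b01000080140d7820511) k49 k50)))) (.br (nat_lit 0x600000200400a00b01040080d5816020611) (.br (nat_lit 0x400000100400a00c00d200809501801a611) (.br (nat_lit 0x900000400a00c00d000801413a41a511) k51 k52) (.br (nat_lit 0x500000100400a00c00d20080b541801a611) k53 (.br (nat_lit 0x500000300400a00c00d60080b541801a611) k54 k55))) (.br (nat_lit 0x700000300400a00b01060080f5c16020611) (.br (nat_lit 0x700000100400a00b00f20080f5c1601e611) k56 k57) (.br (nat_lit 0x800000300400a00b0106008116016020611)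 k58 (.br (nat_lit 0xa00000300400a00b00f600815681601e611) k59 k60)))))
noncomputable def u2 : KT := (.br (Nat.shiftLeft (nat_lit 0x400a00b01) (nat_lit 68)) (.one (nat_lit 0x400a00b00f000801401601e540)) (.br (Nat.shiftLeft (nat_lit 0x1002803) (nat_lit 78)) (.one (nat_lit 0x400a00b0100008014016020540)) (.one (nat_lit 0x400a00c00d000801401801a540))))
def w2 : u2.all (wj 57 s2) = true := by decide +kernel
def o2 : OkW 57 (jb2 57 fl) u2 := .lift s2 _ (.br _ _ _ (.br _ _ _ (.br _ _ _ (.br _ _ _ (.leaf b0 k41 t41) (.leaf b0 k42 t42)) (.br _ _ _ (.leaf b0 k43 t43) (.br _ _ _ (.leaf b0 k44 t44) (.leaf b0 k45 t45)))) (.br _ _ _ (.br _ _ _ (.leaf b0 k46 t46) (.leaf b0 k47 t47)) (.br _ _ _ (.leaf b0 k48 t48) (.br _ _ _ (.leaf b0 k49 t49) (.leaf b0 k50 t50))))) (.br _ _ _ (.br _ _ _ (.br _ _ _ (.leaf b0 k51 t51) (.leaf b0 k52 t52)) (.br _ _ _ (.leaf b0 k53 t53) (.br _ _ _ (.leaf b0 k54 t54) (.leaf b0 k55 t55)))) (.br _ _ _ (.br _ _ _ (.leaf b0 k56 t56) (.leaf b0 k57 t57)) (.br _ _ _ (.leaf b0 k58 t58) (.br _ _ _ (.leaf b0 k59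 t59) (.leaf b0 k60 t60)))))) w2
noncomputable def k61 : KT := (.br (Nat.shiftLeft (nat_lit 0x400b) (nat_lit 88)) (.br (Nat.shiftLeft (nat_lit 0x400a00c00f) (nat_lit 64)) (.one (nat_lit 0x400a00c00e000801401801d500)) (.br (Nat.shiftLeft (nat_lit 0x400a00d) (nat_lit 76)) (.one (nat_lit 0x400a00c00f000801401801f500)) (.one (nat_lit 0x400a00d00e000801401a01d500)))) (.br (Nat.shiftLeft (nat_lit 0x1) (nat_lit 112)) (.one (nat_lit 0x400b00c00d000801601801b500)) (.br (Nat.shiftLeft (nat_lit 0x100400a00c00f) (nat_lit 64)) (.one (nat_lit 0x100400a00c00e200801401801d600)) (.one (nat_lit 0x100400a00c00f200801401801e650)))))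
def t61 : k61.all (jb2 57 fl b0) = true := by decide +kernel
noncomputable def k62 : KT := (.br (Nat.shiftLeft (nat_lit 0x300400a00c00f) (nat_lit 64)) (.br (Nat.shiftLeft (nat_lit 0x200400a00c00f) (nat_lit 64)) (.br (Nat.shiftLeft (nat_lit 0x100400b) (nat_lit 88)) (.one (nat_lit 0x100400a00d00e200801401a01c650)) (.br (Nat.shiftLeft (nat_lit 0x1) (nat_lit 113)) (.one (nat_lit 0x100400b00c00d200801601801b600)) (.one (nat_lit 0x200400a00c00e400801401801d600)))) (.br (Nat.shiftLeft (nat_lit 0x200400b) (nat_lit 88)) (.br (Nat.shiftLeft (nat_lit 0x200400a00d) (nat_lit 76)) (.one (nat_lit 0x200400a00c00f400801401801f600)) (.one (nat_lit 0x200400a00d00e400801401a01d600))) (.br (Nat.shiftLeft (nat_lit 0x3) (nat_lit 112)) (.one (nat_lit 0x200400b00c00d400801601801b600)) (.one (nat_lit 0x300400a00c00e600801401801d600))))) (.br (Nat.shiftLeft (nat_lit 0x1) (nat_lit 124)) (.br (Nat.shiftLeft (nat_lit 0x300400a00d) (nat_lit 76)) (.one (nat_lit 0x300400a00c00f600801401801f600)) (.br (Nat.shiftLeft (nat_lit 0x300400b) (nat_lit 88))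 (.one (nat_lit 0x300400a00d00e600801401a01d600)) (.one (nat_lit 0x300400b00c00d600801601801b600)))) (.br (Nat.shiftLeft (nat_lit 0x100000400a00d) (nat_lit 76)) (.br (Nat.shiftLeft (nat_lit 0x100000400a00c00f) (nat_lit 64)) (.one (nat_lit 0x100000400a00c00e000801403841c511)) (.one (nat_lit 0x100000400a00c00f000801403841e511))) (.br (Nat.shiftLeft (nat_lit 0x100000400b) (nat_lit 88)) (.one (nat_lit 0x100000400a00d00e000801403a41c511)) (.one (nat_lit 0x100000400b00c00d000801603841a511))))))
def t62 : k62.all (jb2 57 fl b0) = true := by decide +kernel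
noncomputable def k63 : KT := (.one (nat_lit 0x100200400a00c00e400801403841c760))
def t63 : k63.all (jb2 57 fl b0) = true := by decide +kernel
noncomputable def k64 : KT := (.br (Nat.shiftLeft (nat_lit 0x100200400a00d) (nat_lit 76)) (.one (nat_lit 0x100200400a00c00f400801403841e760)) (.one (nat_lit 0x100200400a00d00e400801403a41c760)))
def t64 : k64.all (jb2 57 fl b0) = true := by decide +kernel
noncomputable def k65 : KT := (.one (nat_lit 0x100200400b00c00d400801603841a760))
def t65 : k65.all (jb2 57 fl b0) = true := by decide +kernel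
noncomputable def k66 : KT := (.br (Nat.shiftLeft (nat_lit 0x100300400a00c00f) (nat_lit 64)) (.one (nat_lit 0x100300400a00c00e600801403841c760)) (.one (nat_lit 0x100300400a00c00f600801403841e760)))
def t66 : k66.all (jb2 57 fl b0) = true := by decide +kernel
noncomputable def k67 : KT := (.br (Nat.shiftLeft (nat_lit 0x200000400a00c00f) (nat_lit 64)) (.br (Nat.shiftLeft (nat_lit 0x100300400b) (nat_lit 88)) (.one (nat_lit 0x100300400a00d00e600801403a41c760)) (.br (Nat.shiftLeft (nat_lit 0x1) (nat_lit 125)) (.one (nat_lit 0x100300400b00c00d600801603841a760)) (.one (nat_lit 0x200000400a00c00e000801405881c511)))) (.br (Nat.shiftLeft (nat_lit 0x200000400a00d) (nat_lit 76)) (.one (nat_lit 0x200000400a00c00f000801405881e511)) (.br (Nat.shiftLeft (nat_lit 0x200000400b) (nat_lit 88)) (.one (nat_lit 0x200000400a00d00e000801405a81c511)) (.one (nat_lit 0x200000400b00c00d000801605881a511)))))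
def t67 : k67.all (jb2 57 fl b0) = true := by decide +kernel
noncomputable def k68 : KT := (.br (Nat.shiftLeft (nat_lit 0x200300400a00c00f) (nat_lit 64)) (.one (nat_lit 0x200300400a00c00e600801405881c760)) (.one (nat_lit 0x200300400a00c00f600801405881e760)))
def t68 : k68.all (jb2 57 fl b0) = true := by decide +kernel
noncomputable def k69 : KT := (.br (Nat.shiftLeft (nat_lit 0x300000400a00c00f) (nat_lit 64)) (.br (Nat.shiftLeft (nat_lit 0x200300400b) (nat_lit 88)) (.one (nat_lit 0x200300400a00d00e600801405a81c760)) (.br (Nat.shiftLeft (nat_lit 0x3) (nat_lit 124)) (.one (nat_lit 0x200300400b00c00d600801605881a760)) (.one (nat_lit 0x300000400a00c00e0008014078c1c511)))) (.br (Nat.shiftLeft (nat_lit 0x300000400a00d) (nat_lit 76)) (.one (nat_lit 0x300000400a00c00f0008014078c1e511)) (.br (Nat.shiftLeft (nat_lit 0x300000400b) (nat_lit 88)) (.one (nat_lit 0x300000400a00d00e000801407ac1c511)) (.one (nat_lit 0x300000400b00c00d0008016078c1a511)))))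
def t69 : k69.all (jb2 57 fl b0) = true := by decide +kernel
noncomputable def k70 : KT := (.br (Nat.shiftLeft (nat_lit 0x5) (nat_lit 124)) (.br (Nat.shiftLeft (nat_lit 0x400000400a00d) (nat_lit 76)) (.br (Nat.shiftLeft (nat_lit 0x400000400a00c00f) (nat_lit 64)) (.one (nat_lit 0x400000400a00c00e000801409901c511)) (.one (nat_lit 0x400000400a00c00f000801409901e511))) (.br (Nat.shiftLeft (nat_lit 0x400000400b) (nat_lit 88)) (.one (nat_lit 0x400000400a00d00e000801409b01c511)) (.one (nat_lit 0x400000400b00c00d000801609901a511)))) (.br (Nat.shiftLeft (nat_lit 0x500000400a00d) (nat_lit 76)) (.br (Nat.shiftLeft (nat_lit 0x500000400a00c00f) (nat_lit 64)) (.one (nat_lit 0x500000400a00c00e00080140b941c511)) (.one (nat_lit 0x500000400a00c00f00080140b941e511))) (.br (Nat.shiftLeft (nat_lit 0x500000400b) (nat_lit 88)) (.one (nat_lit 0x500000400a00d00e00080140bb41c511)) (.one (nat_lit 0x500000400b00c00d00080160b941a511)))))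
def t70 : k70.all (jb2 57 fl b0) = true := by decide +kernel
noncomputable def k71 : KT := (.br (Nat.shiftLeft (nat_lit 0x600000400a00d) (nat_lit 76)) (.br (Nat.shiftLeft (nat_lit 0x600000400a00c00f) (nat_lit 64)) (.one (nat_lit 0x600000400a00c00e00080140d981c511)) (.one (nat_lit 0x600000400a00c00f00080140d981e511))) (.br (Nat.shiftLeft (nat_lit 0x600000400b) (nat_lit 88)) (.one (nat_lit 0x600000400a00d00e00080140db81c511)) (.one (nat_lit 0x600000400b00c00d00080160d981a511))))
def t71 : k71.all (jb2 57 fl b0) = true := by decide +kernel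
noncomputable def k72 : KT := (.br (Nat.shiftLeft (nat_lit 0x700000400a00d) (nat_lit 76)) (.br (Nat.shiftLeft (nat_lit 0x700000400a00c00f) (nat_lit 64)) (.one (nat_lit 0x700000400a00c00e00080140f9c1c511)) (.one (nat_lit 0x700000400a00c00f00080140f9c1e511))) (.br (Nat.shiftLeft (nat_lit 0x700000400b) (nat_lit 88)) (.one (nat_lit 0x700000400a00d00e00080140fbc1c511)) (.br (Nat.shiftLeft (nat_lit 0x1) (nat_lit 127)) (.one (nat_lit 0x700000400b00c00d00080160f9c1a511)) (.one (nat_lit 0x800000400a00c00e000801411a01c511)))))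
def t72 : k72.all (jb2 57 fl b0) = true := by decide +kernel
noncomputable def k73 : KT := (.br (Nat.shiftLeft (nat_lit 0x900000400a00c00f) (nat_lit 64)) (.br (Nat.shiftLeft (nat_lit 0x800000400b) (nat_lit 88)) (.br (Nat.shiftLeft (nat_lit 0x800000400a00d) (nat_lit 76)) (.one (nat_lit 0x800000400a00c00f000801411a01e511)) (.one (nat_lit 0x800000400a00d00e000801411c01c511))) (.br (Nat.shiftLeft (nat_lit 0x9) (nat_lit 124)) (.one (nat_lit 0x800000400b00c00d000801611a01a511)) (.one (nat_lit 0x900000400a00c00e000801413a41c511)))) (.br (Nat.shiftLeft (nat_lit 0x900000400b) (nat_lit 88)) (.br (Nat.shiftLeft (nat_lit 0x900000400a00d) (nat_lit 76)) (.one (nat_lit 0x900000400a00c00f000801413a41e511)) (.one (nat_lit 0x900000400a00d00e000801413c41c511))) (.br (Nat.shiftLeft (nat_lit 0x5) (nat_lit 125)) (.one (nat_lit 0x900000400b00c00d000801613a41a511)) (.one (nat_lit 0xa00000400a00c00e000801415a81c511)))))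
def t73 : k73.all (jb2 57 fl b0) = true := by decide +kernel
noncomputable def k74 : KT := (.br (Nat.shiftLeft (nat_lit 0x100000300400a00d) (nat_lit 76)) (.br (Nat.shiftLeft (nat_lit 0xc00000400b) (nat_lit 88)) (.br (Nat.shiftLeft (nat_lit 0xb00000400a00d) (nat_lit 76)) (.br (Nat.shiftLeft (nat_lit 0xa00000400b) (nat_lit 88)) (.br (Nat.shiftLeft (nat_lit 0xa00000400a00d) (nat_lit 76)) (.one (nat_lit 0xa00000400a00c00f000801415a81e511)) (.one (nat_lit 0xa00000400a00d00e000801415c81c511))) (.br (Nat.shiftLeft (nat_lit 0xb) (nat_lit 124)) (.one (nat_lit 0xa00000400b00c00d000801615a81a511)) (.br (Nat.shiftLeft (nat_lit 0xb00000400a00c00f) (nat_lit 64)) (.one (nat_lit 0xb00000400a00c00e000801417ac1c511)) (.one (nat_lit 0xb00000400a00c00f000801417ac1e511))))) (.br (Nat.shiftLeft (nat_lit 0x3) (nat_lit 126)) (.br (Nat.shiftLeft (nat_lit 0xb00000400b) (nat_lit 88)) (.one (nat_lit 0xb00000400a00d00e000801417cc1c511)) (.one (nat_lit 0xb00000400b00c00d000801617ac1a511))) (.br (Nat.shiftLeft (nat_lit 0xc00000400a00c00f) (nat_lit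 64)) (.one (nat_lit 0xc00000400a00c00e000801419b01c511)) (.br (Nat.shiftLeft (nat_lit 0xc00000400a00d) (nat_lit 76)) (.one (nat_lit 0xc00000400a00c00f000801419b01e511)) (.one (nat_lit 0xc00000400a00d00e000801419d01c511)))))) (.br (Nat.shiftLeft (nat_lit 0x100000200400a00c00f) (nat_lit 64)) (.br (Nat.shiftLeft (nat_lit 0x1) (nat_lit 136)) (.br (Nat.shiftLeft (nat_lit 0xd) (nat_lit 124)) (.one (nat_lit 0xc00000400b00c00d000801619b01a511)) (.one (nat_lit 0xd00000400a00d00e00080141bd41c511))) (.br (Nat.shiftLeft (nat_lit 0x100000100400b) (nat_lit 88)) (.one (nat_lit 0x100000100400a00c00e200803441801c611)) (.br (Nat.shiftLeft (nat_lit 0x800001) (nat_lit 113)) (.one (nat_lit 0x100000100400b00c00d200803641801a611)) (.one (nat_lit 0x100000200400a00c00e400803441801c611))))) (.br (Nat.shiftLeft (nat_lit 0x100000200400b) (nat_lit 88)) (.br (Nat.shiftLeft (nat_lit 0x100000200400a00d) (nat_lit 76)) (.one (nat_lit 0x100000200400a00c00f400803441801e611)) (.one (nat_lit 0x100000200400a00d00e400803441a01c611))) (.br (Nat.shiftLeft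 (nat_lit 0x1000003) (nat_lit 112)) (.one (nat_lit 0x100000200400b00c00d400803641801a611)) (.br (Nat.shiftLeft (nat_lit 0x100000300400a00c00f) (nat_lit 64)) (.one (nat_lit 0x100000300400a00c00e600803441801c611)) (.one (nat_lit 0x100000300400a00c00f600803441801e611))))))) (.br (Nat.shiftLeft (nat_lit 0x200000300400a00d) (nat_lit 76)) (.br (Nat.shiftLeft (nat_lit 0x200000200400a00c00f) (nat_lit 64)) (.br (Nat.shiftLeft (nat_lit 0x1) (nat_lit 137)) (.br (Nat.shiftLeft (nat_lit 0x100000300400b) (nat_lit 88)) (.one (nat_lit 0x100000300400a00d00e600803441a01c611)) (.one (nat_lit 0x100000300400b00c00d600803641801a611))) (.br (Nat.shiftLeft (nat_lit 0x200000100400b) (nat_lit 88)) (.one (nat_lit 0x200000100400a00c00e200805481801c611)) (.br (Nat.shiftLeft (nat_lit 0x1000001) (nat_lit 113)) (.one (nat_lit 0x200000100400b00c00d200805681801a611)) (.one (nat_lit 0x200000200400a00c00e400805481801c611))))) (.br (Nat.shiftLeft (nat_lit 0x200000200400b) (nat_lit 88)) (.br (Nat.shiftLeft (nat_lit 0x200000200400a00d) (nat_lit 76)) (.one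 (nat_lit 0x200000200400a00c00f400805481801e611)) (.one (nat_lit 0x200000200400a00d00e400805481a01c611))) (.br (Nat.shiftLeft (nat_lit 0x2000003) (nat_lit 112)) (.one (nat_lit 0x200000200400b00c00d400805681801a611)) (.br (Nat.shiftLeft (nat_lit 0x200000300400a00c00f) (nat_lit 64)) (.one (nat_lit 0x200000300400a00c00e600805481801c611)) (.one (nat_lit 0x200000300400a00c00f600805481801e611)))))) (.br (Nat.shiftLeft (nat_lit 0x300000200400a00c00f) (nat_lit 64)) (.br (Nat.shiftLeft (nat_lit 0x3) (nat_lit 136)) (.br (Nat.shiftLeft (nat_lit 0x200000300400b) (nat_lit 88)) (.one (nat_lit 0x200000300400a00d00e600805481a01c611)) (.one (nat_lit 0x200000300400b00c00d600805681801a611))) (.br (Nat.shiftLeft (nat_lit 0x300000100400b) (nat_lit 88)) (.one (nat_lit 0x300000100400a00c00e2008074c1801c611)) (.br (Nat.shiftLeft (nat_lit 0x1800001) (nat_lit 113)) (.one (nat_lit 0x300000100400b00c00d2008076c1801a611)) (.one (nat_lit 0x300000200400a00c00e4008074c1801c611))))) (.br (Nat.shiftLeft (nat_lit 0x300000200400b) (nat_lit 88)) (.br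 (Nat.shiftLeft (nat_lit 0x300000200400a00d) (nat_lit 76)) (.one (nat_lit 0x300000200400a00c00f4008074c1801e611)) (.one (nat_lit 0x300000200400a00d00e4008074c1a01c611))) (.br (Nat.shiftLeft (nat_lit 0x3000003) (nat_lit 112)) (.one (nat_lit 0x300000200400b00c00d4008076c1801a611)) (.br (Nat.shiftLeft (nat_lit 0x300000300400a00c00f) (nat_lit 64)) (.one (nat_lit 0x300000300400a00c00e6008074c1801c611)) (.one (nat_lit 0x300000300400a00c00f6008074c1801e611))))))))
def t74 : k74.all (jb2 57 fl b0) = true := by decide +kernel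
noncomputable def k75 : KT := (.br (Nat.shiftLeft (nat_lit 0x400000200400a00d) (nat_lit 76)) (.br (Nat.shiftLeft (nat_lit 0x400000100400b) (nat_lit 88)) (.br (Nat.shiftLeft (nat_lit 0x300000300400b) (nat_lit 88)) (.one (nat_lit 0x300000300400a00d00e6008074c1a01c611)) (.br (Nat.shiftLeft (nat_lit 0x1) (nat_lit 138)) (.one (nat_lit 0x300000300400b00c00d6008076c1801a611)) (.one (nat_lit 0x400000100400a00c00e200809501801c611)))) (.br (Nat.shiftLeft (nat_lit 0x2000001) (nat_lit 113)) (.one (nat_lit 0x400000100400b00c00d200809701801a611)) (.br (Nat.shiftLeft (nat_lit 0x400000200400a00c00f) (nat_lit 64)) (.one (nat_lit 0x400000200400a00c00e400809501801c611)) (.one (nat_lit 0x400000200400a00c00f400809501801e611))))) (.br (Nat.shiftLeft (nat_lit 0x400000300400a00c00f) (nat_lit 64)) (.br (Nat.shiftLeft (nat_lit 0x400000200400b) (nat_lit 88)) (.one (nat_lit 0x400000200400a00d00e400809501a01c611)) (.br (Nat.shiftLeft (nat_lit 0x4000003) (nat_lit 112)) (.one (nat_lit 0x400000200400b00c00d400809701801a611)) (.one (nat_lit 0x400000300400a00c00e600809501801c611))))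 (.br (Nat.shiftLeft (nat_lit 0x400000300400a00d) (nat_lit 76)) (.one (nat_lit 0x400000300400a00c00f600809501801e611)) (.br (Nat.shiftLeft (nat_lit 0x400000300400b) (nat_lit 88)) (.one (nat_lit 0x400000300400a00d00e600809501a01c611)) (.one (nat_lit 0x400000300400b00c00d600809701801a611))))))
def t75 : k75.all (jb2 57 fl b0) = true := by decide +kernel
noncomputable def k76 : KT := (.br (Nat.shiftLeft (nat_lit 0x2800001) (nat_lit 113)) (.br (Nat.shiftLeft (nat_lit 0x500000100400b) (nat_lit 88)) (.one (nat_lit 0x500000100400a00c00e20080b541801c611)) (.one (nat_lit 0x500000100400b00c00d20080b741801a611))) (.br (Nat.shiftLeft (nat_lit 0x500000200400a00c00f) (nat_lit 64)) (.one (nat_lit 0x500000200400a00c00e40080b541801c611)) (.br (Nat.shiftLeft (nat_lit 0x500000200400a00d) (nat_lit 76)) (.one (nat_lit 0x500000200400a00c00f40080b541801e611)) (.one (nat_lit 0x500000200400a00d00e40080b541a01c611)))))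
def t76 : k76.all (jb2 57 fl b0) = true := by decide +kernel
noncomputable def k77 : KT := (.br (Nat.shiftLeft (nat_lit 0x500000300400a00d) (nat_lit 76)) (.br (Nat.shiftLeft (nat_lit 0x5000003) (nat_lit 112)) (.one (nat_lit 0x500000200400b00c00d40080b741801a611)) (.br (Nat.shiftLeft (nat_lit 0x500000300400a00c00f) (nat_lit 64)) (.one (nat_lit 0x500000300400a00c00e60080b541801c611)) (.one (nat_lit 0x500000300400a00c00f60080b541801e611)))) (.br (Nat.shiftLeft (nat_lit 0x500000300400b) (nat_lit 88)) (.one (nat_lit 0x500000300400a00d00e60080b541a01c611)) (.br (Nat.shiftLeft (nat_lit 0x3) (nat_lit 137)) (.one (nat_lit 0x500000300400b00c00d60080b741801a611)) (.one (nat_lit 0x600000100400a00c00e20080d581801c611)))))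
def t77 : k77.all (jb2 57 fl b0) = true := by decide +kernel
noncomputable def k78 : KT := (.br (Nat.shiftLeft (nat_lit 0x600000200400a00d) (nat_lit 76)) (.br (Nat.shiftLeft (nat_lit 0x3000001) (nat_lit 113)) (.one (nat_lit 0x600000100400b00c00d20080d781801a611)) (.br (Nat.shiftLeft (nat_lit 0x600000200400a00c00f) (nat_lit 64)) (.one (nat_lit 0x600000200400a00c00e40080d581801c611)) (.one (nat_lit 0x600000200400a00c00f40080d581801e611)))) (.br (Nat.shiftLeft (nat_lit 0x600000200400b) (nat_lit 88)) (.one (nat_lit 0x600000200400a00d00e40080d581a01c611)) (.br (Nat.shiftLeft (nat_lit 0x6000003) (nat_lit 112)) (.one (nat_lit 0x600000200400b00c00d40080d781801a611)) (.one (nat_lit 0x600000300400a00c00e60080d581801c611)))))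
def t78 : k78.all (jb2 57 fl b0) = true := by decide +kernel
noncomputable def k79 : KT := (.br (Nat.shiftLeft (nat_lit 0x7) (nat_lit 136)) (.br (Nat.shiftLeft (nat_lit 0x600000300400a00d) (nat_lit 76)) (.one (nat_lit 0x600000300400a00c00f60080d581801e611)) (.br (Nat.shiftLeft (nat_lit 0x600000300400b) (nat_lit 88)) (.one (nat_lit 0x600000300400a00d00e60080d581a01c611)) (.one (nat_lit 0x600000300400b00c00d60080d781801a611)))) (.br (Nat.shiftLeft (nat_lit 0x3800001) (nat_lit 113)) (.br (Nat.shiftLeft (nat_lit 0x700000100400b) (nat_lit 88)) (.one (nat_lit 0x700000100400a00c00e20080f5c1801c611)) (.one (nat_lit 0x700000100400b00c00d20080f7c1801a611))) (.br (Nat.shiftLeft (nat_lit 0x700000200400a00c00f) (nat_lit 64)) (.one (nat_lit 0x700000200400a00c00e40080f5c1801c611)) (.one (nat_lit 0x700000200400a00c00f40080f5c1801e611)))))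
def t79 : k79.all (jb2 57 fl b0) = true := by decide +kernel
noncomputable def k80 : KT := (.br (Nat.shiftLeft (nat_lit 0x700000300400a00d) (nat_lit 76)) (.br (Nat.shiftLeft (nat_lit 0x7000003) (nat_lit 112)) (.br (Nat.shiftLeft (nat_lit 0x700000200400b) (nat_lit 88)) (.one (nat_lit 0x700000200400a00d00e40080f5c1a01c611)) (.one (nat_lit 0x700000200400b00c00d40080f7c1801a611))) (.br (Nat.shiftLeft (nat_lit 0x700000300400a00c00f) (nat_lit 64)) (.one (nat_lit 0x700000300400a00c00e60080f5c1801c611)) (.one (nat_lit 0x700000300400a00c00f60080f5c1801e611)))) (.br (Nat.shiftLeft (nat_lit 0x1) (nat_lit 139)) (.br (Nat.shiftLeft (nat_lit 0x700000300400b) (nat_lit 88)) (.one (nat_lit 0x700000300400a00d00e60080f5c1a01c611)) (.one (nat_lit 0x700000300400b00c00d60080f7c1801a611))) (.br (Nat.shiftLeft (nat_lit 0x800000100400b) (nat_lit 88)) (.one (nat_lit 0x800000100400a00c00e200811601801c611)) (.br (Nat.shiftLeft (nat_lit 0x4000001) (nat_lit 113)) (.one (nat_lit 0x800000100400b00c00d200811801801a611)) (.one (nat_lit 0x800000200400a00c00e400811601801c611))))))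
def t80 : k80.all (jb2 57 fl b0) = true := by decide +kernel
noncomputable def k81 : KT := (.br (Nat.shiftLeft (nat_lit 0x900000100400b) (nat_lit 88)) (.br (Nat.shiftLeft (nat_lit 0x800000300400a00c00f) (nat_lit 64)) (.br (Nat.shiftLeft (nat_lit 0x800000200400b) (nat_lit 88)) (.br (Nat.shiftLeft (nat_lit 0x800000200400a00d) (nat_lit 76)) (.one (nat_lit 0x800000200400a00c00f400811601801e611)) (.one (nat_lit 0x800000200400a00d00e400811601a01c611))) (.br (Nat.shiftLeft (nat_lit 0x8000003) (nat_lit 112)) (.one (nat_lit 0x800000200400b00c00d400811801801a611)) (.one (nat_lit 0x800000300400a00c00e600811601801c611)))) (.br (Nat.shiftLeft (nat_lit 0x800000300400b) (nat_lit 88)) (.br (Nat.shiftLeft (nat_lit 0x800000300400a00d) (nat_lit 76)) (.one (nat_lit 0x800000300400a00c00f600811601801e611)) (.one (nat_lit 0x800000300400a00d00e600811601a01c611))) (.br (Nat.shiftLeft (nat_lit 0x9) (nat_lit 136)) (.one (nat_lit 0x800000300400b00c00d600811801801a611)) (.one (nat_lit 0x900000100400a00c00e200813641801c611))))) (.br (Nat.shiftLeft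 (nat_lit 0x900000200400b) (nat_lit 88)) (.br (Nat.shiftLeft (nat_lit 0x900000200400a00c00f) (nat_lit 64)) (.br (Nat.shiftLeft (nat_lit 0x4800001) (nat_lit 113)) (.one (nat_lit 0x900000100400b00c00d200813841801a611)) (.one (nat_lit 0x900000200400a00c00e400813641801c611))) (.br (Nat.shiftLeft (nat_lit 0x900000200400a00d) (nat_lit 76)) (.one (nat_lit 0x900000200400a00c00f400813641801e611)) (.one (nat_lit 0x900000200400a00d00e400813641a01c611)))) (.br (Nat.shiftLeft (nat_lit 0x900000300400a00c00f) (nat_lit 64)) (.br (Nat.shiftLeft (nat_lit 0x9000003) (nat_lit 112)) (.one (nat_lit 0x900000200400b00c00d400813841801a611)) (.one (nat_lit 0x900000300400a00c00e600813641801c611))) (.br (Nat.shiftLeft (nat_lit 0x900000300400a00d) (nat_lit 76)) (.one (nat_lit 0x900000300400a00c00f600813641801e611)) (.br (Nat.shiftLeft (nat_lit 0x900000300400b) (nat_lit 88)) (.one (nat_lit 0x900000300400a00d00e600813641a01c611)) (.one (nat_lit 0x900000300400b00c00d600813841801a611)))))))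
def t81 : k81.all (jb2 57 fl b0) = true := by decide +kernel
noncomputable def k82 : KT := (.br (Nat.shiftLeft (nat_lit 0xb000003) (nat_lit 112)) (.br (Nat.shiftLeft (nat_lit 0xa00000300400a00d) (nat_lit 76)) (.br (Nat.shiftLeft (nat_lit 0xa00000200400a00d) (nat_lit 76)) (.br (Nat.shiftLeft (nat_lit 0x5000001) (nat_lit 113)) (.br (Nat.shiftLeft (nat_lit 0xa00000100400b) (nat_lit 88)) (.one (nat_lit 0xa00000100400a00c00e200815681801c611)) (.one (nat_lit 0xa00000100400b00c00d200815881801a611))) (.br (Nat.shiftLeft (nat_lit 0xa00000200400a00c00f) (nat_lit 64)) (.one (nat_lit 0xa00000200400a00c00e400815681801c611)) (.one (nat_lit 0xa00000200400a00c00f400815681801e611)))) (.br (Nat.shiftLeft (nat_lit 0xa000003) (nat_lit 112)) (.br (Nat.shiftLeft (nat_lit 0xa00000200400b) (nat_lit 88)) (.one (nat_lit 0xa00000200400a00d00e400815681a01c611)) (.one (nat_lit 0xa00000200400b00c00d400815881801a611))) (.br (Nat.shiftLeft (nat_lit 0xa00000300400a00c00f) (nat_lit 64)) (.one (nat_lit 0xa00000300400a00c00e600815681801c611)) (.one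 (nat_lit 0xa00000300400a00c00f600815681801e611))))) (.br (Nat.shiftLeft (nat_lit 0x5800001) (nat_lit 113)) (.br (Nat.shiftLeft (nat_lit 0xb) (nat_lit 136)) (.br (Nat.shiftLeft (nat_lit 0xa00000300400b) (nat_lit 88)) (.one (nat_lit 0xa00000300400a00d00e600815681a01c611)) (.one (nat_lit 0xa00000300400b00c00d600815881801a611))) (.br (Nat.shiftLeft (nat_lit 0xb00000100400b) (nat_lit 88)) (.one (nat_lit 0xb00000100400a00c00e2008176c1801c611)) (.one (nat_lit 0xb00000100400b00c00d2008178c1801a611)))) (.br (Nat.shiftLeft (nat_lit 0xb00000200400a00d) (nat_lit 76)) (.br (Nat.shiftLeft (nat_lit 0xb00000200400a00c00f) (nat_lit 64)) (.one (nat_lit 0xb00000200400a00c00e4008176c1801c611)) (.one (nat_lit 0xb00000200400a00c00f4008176c1801e611))) (.br (Nat.shiftLeft (nat_lit 0xb00000200400b) (nat_lit 88)) (.one (nat_lit 0xb00000200400a00d00e4008176c1a01c611)) (.one (nat_lit 0xb00000200400b00c00d4008178c1801a611)))))) (.br (Nat.shiftLeft (nat_lit 0xc00000200400a00d) (nat_lit 76)) (.br (Nat.shiftLeft (nat_lit 0x3) (nat_lit 138)) (.br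 (Nat.shiftLeft (nat_lit 0xb00000300400a00d) (nat_lit 76)) (.br (Nat.shiftLeft (nat_lit 0xb00000300400a00c00f) (nat_lit 64)) (.one (nat_lit 0xb00000300400a00c00e6008176c1801c611)) (.one (nat_lit 0xb00000300400a00c00f6008176c1801e611))) (.br (Nat.shiftLeft (nat_lit 0xb00000300400b) (nat_lit 88)) (.one (nat_lit 0xb00000300400a00d00e6008176c1a01c611)) (.one (nat_lit 0xb00000300400b00c00d6008178c1801a611)))) (.br (Nat.shiftLeft (nat_lit 0x6000001) (nat_lit 113)) (.br (Nat.shiftLeft (nat_lit 0xc00000100400b) (nat_lit 88)) (.one (nat_lit 0xc00000100400a00c00e200819701801c611)) (.one (nat_lit 0xc00000100400b00c00d200819901801a611))) (.br (Nat.shiftLeft (nat_lit 0xc00000200400a00c00f) (nat_lit 64)) (.one (nat_lit 0xc00000200400a00c00e400819701801c611)) (.one (nat_lit 0xc00000200400a00c00f400819701801e611))))) (.br (Nat.shiftLeft (nat_lit 0xc00000300400a00d) (nat_lit 76)) (.br (Nat.shiftLeft (nat_lit 0xc000003) (nat_lit 112)) (.br (Nat.shiftLeft (nat_lit 0xc00000200400b) (nat_lit 88)) (.one (nat_lit 0xc00000200400a00d00e400819701a01c611))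 (.one (nat_lit 0xc00000200400b00c00d400819901801a611))) (.br (Nat.shiftLeft (nat_lit 0xc00000300400a00c00f) (nat_lit 64)) (.one (nat_lit 0xc00000300400a00c00e600819701801c611)) (.one (nat_lit 0xc00000300400a00c00f600819701801e611)))) (.br (Nat.shiftLeft (nat_lit 0xd) (nat_lit 136)) (.br (Nat.shiftLeft (nat_lit 0xc00000300400b) (nat_lit 88)) (.one (nat_lit 0xc00000300400a00d00e600819701a01c611)) (.one (nat_lit 0xc00000300400b00c00d600819901801a611))) (.br (Nat.shiftLeft (nat_lit 0xd000003) (nat_lit 112)) (.one (nat_lit 0xd00000200400a00d00e40081b741a01c611)) (.one (nat_lit 0xd00000300400a00d00e60081b741a01c611)))))))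
def t82 : k82.all (jb2 57 fl b0) = true := by decide +kernel
noncomputable def s3 : KT := (.br (nat_lit 0x600000400b00c00d00080160d981a511) (.br (nat_lit 0x100200400b00c00d400801603841a760) (.br (nat_lit 0x100000400b00c00d000801603841a511) (.br (nat_lit 0x100400a00c00f200801401801e650) k61 k62) (.br (nat_lit 0x100200400a00c00e400801403841c760) k63 (.br (nat_lit 0x100200400a00d00e400801403a41c760) k64 k65))) (.br (nat_lit 0x200300400a00c00f600801405881e760) (.br (nat_lit 0x100300400a00c00f600801403841e760) k66 (.br (nat_lit 0x200000400b00c00d000801605881a511) k67 k68)) (.br (nat_lit 0x300000400b00c00d0008016078c1a511) k69 (.br (nat_lit 0x500000400b00c00d00080160b941a511) k70 k71)))) (.br (nat_lit 0x500000200400a00d00e40080b541a01c611) (.br (nat_lit 0xa00000400a00c00e000801415a81c511) (.br (nat_lit 0x800000400a00c00e000801411a01c511) k72 k73) (.br (nat_lit 0x300000300400a00c00f6008074c1801e611) k74 (.br (nat_lit 0x400000300400b00c00d600809701801a611) k75 k76))) (.br (nat_lit 0x700000200400a00c00f40080f5c1801e611) (.br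 (nat_lit 0x600000100400a00c00e20080d581801c611) k77 (.br (nat_lit 0x600000300400a00c00e60080d581801c611) k78 k79)) (.br (nat_lit 0x800000200400a00c00e400811601801c611) k80 (.br (nat_lit 0x900000300400b00c00d600813841801a611) k81 k82)))))
noncomputable def u3 : KT := (.br (Nat.shiftLeft (nat_lit 0x400a00d) (nat_lit 76)) (.br (Nat.shiftLeft (nat_lit 0x400a00c00f) (nat_lit 64)) (.one (nat_lit 0x400a00c00e000801401801c540)) (.one (nat_lit 0x400a00c00f000801401801e540))) (.br (Nat.shiftLeft (nat_lit 0x400b) (nat_lit 88)) (.one (nat_lit 0x400a00d00e000801401a01c540)) (.one (nat_lit 0x400b00c00d000801601801a540))))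
def w3 : u3.all (wj 57 s3) = true := by decide +kernel
def o3 : OkW 57 (jb2 57 fl) u3 := .lift s3 _ (.br _ _ _ (.br _ _ _ (.br _ _ _ (.br _ _ _ (.leaf b0 k61 t61) (.leaf b0 k62 t62)) (.br _ _ _ (.leaf b0 k63 t63) (.br _ _ _ (.leaf b0 k64 t64) (.leaf b0 k65 t65)))) (.br _ _ _ (.br _ _ _ (.leaf b0 k66 t66) (.br _ _ _ (.leaf b0 k67 t67) (.leaf b0 k68 t68))) (.br _ _ _ (.leaf b0 k69 t69) (.br _ _ _ (.leaf b0 k70 t70) (.leaf b0 k71 t71))))) (.br _ _ _ (.br _ _ _ (.br _ _ _ (.leaf b0 k72 t72) (.leaf b0 k73 t73)) (.br _ _ _ (.leaf b0 k74 t74) (.br _ _ _ (.leaf b0 k75 t75) (.leaf b0 k76 t76)))) (.br _ _ _ (.br _ _ _ (.leaf b0 k77 t77) (.br _ _ _ (.leaf b0 k78 t78) (.leaf b0 k79 t79))) (.br _ _ _ (.leaf b0 k80 t80) (.br _ _ _ (.leaf b0 k81 t81) (.leaf b0 k82 t82)))))) w3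
noncomputable def k83 : KT := (.br (Nat.shiftLeft (nat_lit 0x500000700d) (nat_lit 64)) (.br (Nat.shiftLeft (nat_lit 0x500000601) (nat_lit 68)) (.br (Nat.shiftLeft (nat_lit 0x500000600b) (nat_lit 64)) (.br (Nat.shiftLeft (nat_lit 0xa00000c01) (nat_lit 67)) (.br (Nat.shiftLeft (nat_lit 0x5) (nat_lit 100)) (.one (nat_lit 0x400b00c00e000801601801d500)) (.one (nat_lit 0x5000006007000a00000c00e311))) (.br (Nat.shiftLeft (nat_lit 0x5000006009) (nat_lit 64)) (.one (nat_lit 0x5000006008000a00000c010311)) (.br (Nat.shiftLeft (nat_lit 0x2800003005) (nat_lit 65)) (.one (nat_lit 0x5000006009000a00000c012311)) (.one (nat_lit 0x500000600a000a00000c014311))))) (.br (Nat.shiftLeft (nat_lit 0x500000600d) (nat_lit 64)) (.br (Nat.shiftLeft (nat_lit 0x1400001803) (nat_lit 66)) (.one (nat_lit 0x500000600b000a00000c016311)) (.one (nat_lit 0x500000600c000a00000c018311))) (.br (Nat.shiftLeft (nat_lit 0x2800003007) (nat_lit 65)) (.one (nat_lit 0x500000600d000a00000c01a311)) (.br (Nat.shiftLeft (nat_lit 0x500000600f) (nat_lit 64)) (.one (nat_lit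 0x500000600e000a00000c01c311)) (.one (nat_lit 0x500000600f000a00000c01e311)))))) (.br (Nat.shiftLeft (nat_lit 0x5000007) (nat_lit 76)) (.br (Nat.shiftLeft (nat_lit 0x2800003009) (nat_lit 65)) (.br (Nat.shiftLeft (nat_lit 0x5000006011) (nat_lit 64)) (.one (nat_lit 0x5000006010000a00000c020311)) (.one (nat_lit 0x5000006011000a00000c022311))) (.br (Nat.shiftLeft (nat_lit 0x5000006013) (nat_lit 64)) (.one (nat_lit 0x5000006012000a00000c024311)) (.br (Nat.shiftLeft (nat_lit 0x1400001805) (nat_lit 66)) (.one (nat_lit 0x5000006013000a00000c026311)) (.one (nat_lit 0x5000006014000a00000c028311))))) (.br (Nat.shiftLeft (nat_lit 0x2800003805) (nat_lit 65)) (.br (Nat.shiftLeft (nat_lit 0x5000007009) (nat_lit 64)) (.one (nat_lit 0x5000007008000a00000e010311)) (.one (nat_lit 0x5000007009000a00000e012311))) (.br (Nat.shiftLeft (nat_lit 0x500000700b) (nat_lit 64)) (.one (nat_lit 0x500000700a000a00000e014311)) (.br (Nat.shiftLeft (nat_lit 0x1400001c03) (nat_lit 66)) (.one (nat_lit 0x500000700b000a00000e016311)) (.one (nat_lit 0x500000700c000a00000e018311)))))))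 (.br (Nat.shiftLeft (nat_lit 0x5000007017) (nat_lit 64)) (.br (Nat.shiftLeft (nat_lit 0x2800003809) (nat_lit 65)) (.br (Nat.shiftLeft (nat_lit 0x500000700f) (nat_lit 64)) (.br (Nat.shiftLeft (nat_lit 0x2800003807) (nat_lit 65)) (.one (nat_lit 0x500000700d000a00000e01a311)) (.one (nat_lit 0x500000700e000a00000e01c311))) (.br (Nat.shiftLeft (nat_lit 0x500000701) (nat_lit 68)) (.one (nat_lit 0x500000700f000a00000e01e311)) (.br (Nat.shiftLeft (nat_lit 0x5000007011) (nat_lit 64)) (.one (nat_lit 0x5000007010000a00000e020311)) (.one (nat_lit 0x5000007011000a00000e022311))))) (.br (Nat.shiftLeft (nat_lit 0x1400001c05) (nat_lit 66)) (.br (Nat.shiftLeft (nat_lit 0x5000007013) (nat_lit 64)) (.one (nat_lit 0x5000007012000a00000e024311)) (.one (nat_lit 0x5000007013000a00000e026311))) (.br (Nat.shiftLeft (nat_lit 0x5000007015) (nat_lit 64)) (.one (nat_lit 0x5000007014000a00000e028311)) (.br (Nat.shiftLeft (nat_lit 0x280000380b) (nat_lit 65)) (.one (nat_lit 0x5000007015000a00000e02a311)) (.one (nat_lit 0x5000007016000a00000e02c311))))))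 (.br (Nat.shiftLeft (nat_lit 0x500000800b) (nat_lit 64)) (.br (Nat.shiftLeft (nat_lit 0x5000007019) (nat_lit 64)) (.br (Nat.shiftLeft (nat_lit 0xa00000e03) (nat_lit 67)) (.one (nat_lit 0x5000007017000a00000e02e311)) (.one (nat_lit 0x5000007018000a00000e030311))) (.br (Nat.shiftLeft (nat_lit 0xa00001) (nat_lit 79)) (.one (nat_lit 0x5000007019000a00000e032311)) (.br (Nat.shiftLeft (nat_lit 0x2800004005) (nat_lit 65)) (.one (nat_lit 0x5000008009000a000010012311)) (.one (nat_lit 0x500000800a000a000010014311))))) (.br (Nat.shiftLeft (nat_lit 0x500000800d) (nat_lit 64)) (.br (Nat.shiftLeft (nat_lit 0x1400002003) (nat_lit 66)) (.one (nat_lit 0x500000800b000a000010016311)) (.one (nat_lit 0x500000800c000a000010018311))) (.br (Nat.shiftLeft (nat_lit 0x2800004007) (nat_lit 65)) (.one (nat_lit 0x500000800d000a00001001a311)) (.br (Nat.shiftLeft (nat_lit 0x500000800f) (nat_lit 64)) (.one (nat_lit 0x500000800e000a00001001c311)) (.one (nat_lit 0x500000800f000a00001001e311))))))))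
def t83 : k83.all (jb2 57 fl b0) = true := by decide +kernel
noncomputable def k84 : KT := (.br (Nat.shiftLeft (nat_lit 0x500000900d) (nat_lit 64)) (.br (Nat.shiftLeft (nat_lit 0x5000008017) (nat_lit 64)) (.br (Nat.shiftLeft (nat_lit 0x5000008013) (nat_lit 64)) (.br (Nat.shiftLeft (nat_lit 0x5000008011) (nat_lit 64)) (.one (nat_lit 0x5000008010000a000010020311)) (.br (Nat.shiftLeft (nat_lit 0x2800004009) (nat_lit 65)) (.one (nat_lit 0x5000008011000a000010022311)) (.one (nat_lit 0x5000008012000a000010024311)))) (.br (Nat.shiftLeft (nat_lit 0x5000008015) (nat_lit 64)) (.br (Nat.shiftLeft (nat_lit 0x1400002005) (nat_lit 66)) (.one (nat_lit 0x5000008013000a000010026311)) (.one (nat_lit 0x5000008014000a000010028311))) (.br (Nat.shiftLeft (nat_lit 0x280000400b) (nat_lit 65)) (.one (nat_lit 0x5000008015000a00001002a311)) (.one (nat_lit 0x5000008016000a00001002c311))))) (.br (Nat.shiftLeft (nat_lit 0x280000400d) (nat_lit 65)) (.br (Nat.shiftLeft (nat_lit 0xa00001003) (nat_lit 67)) (.one (nat_lit 0x5000008017000a00001002e311))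 (.br (Nat.shiftLeft (nat_lit 0x5000008019) (nat_lit 64)) (.one (nat_lit 0x5000008018000a000010030311)) (.one (nat_lit 0x5000008019000a000010032311)))) (.br (Nat.shiftLeft (nat_lit 0x500000900b) (nat_lit 64)) (.br (Nat.shiftLeft (nat_lit 0x5000009) (nat_lit 76)) (.one (nat_lit 0x500000801a000a000010034311)) (.one (nat_lit 0x500000900a000a000012014311))) (.br (Nat.shiftLeft (nat_lit 0x1400002403) (nat_lit 66)) (.one (nat_lit 0x500000900b000a000012016311)) (.one (nat_lit 0x500000900c000a000012018311)))))) (.br (Nat.shiftLeft (nat_lit 0x1400002405) (nat_lit 66)) (.br (Nat.shiftLeft (nat_lit 0x500000901) (nat_lit 68)) (.br (Nat.shiftLeft (nat_lit 0x2800004807) (nat_lit 65)) (.one (nat_lit 0x500000900d000a00001201a311)) (.br (Nat.shiftLeft (nat_lit 0x500000900f) (nat_lit 64)) (.one (nat_lit 0x500000900e000a00001201c311)) (.one (nat_lit 0x500000900f000a00001201e311)))) (.br (Nat.shiftLeft (nat_lit 0x2800004809) (nat_lit 65)) (.br (Nat.shiftLeft (nat_lit 0x5000009011) (nat_lit 64)) (.one (nat_lit 0x5000009010000a000012020311))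 (.one (nat_lit 0x5000009011000a000012022311))) (.br (Nat.shiftLeft (nat_lit 0x5000009013) (nat_lit 64)) (.one (nat_lit 0x5000009012000a000012024311)) (.one (nat_lit 0x5000009013000a000012026311))))) (.br (Nat.shiftLeft (nat_lit 0x1) (nat_lit 112)) (.br (Nat.shiftLeft (nat_lit 0x5000009015) (nat_lit 64)) (.one (nat_lit 0x5000009014000a000012028311)) (.br (Nat.shiftLeft (nat_lit 0x280000480b) (nat_lit 65)) (.one (nat_lit 0x5000009015000a00001202a311)) (.one (nat_lit 0x5000009016000a00001202c311)))) (.br (Nat.shiftLeft (nat_lit 0x3) (nat_lit 112)) (.br (Nat.shiftLeft (nat_lit 0x1) (nat_lit 113)) (.one (nat_lit 0x100400b00c00e200801601801c650)) (.one (nat_lit 0x200400b00c00e400801601801d600))) (.br (Nat.shiftLeft (nat_lit 0x1) (nat_lit 124)) (.one (nat_lit 0x300400b00c00e600801601801d600)) (.one (nat_lit 0x100000400b00c00e000801603841c511)))))))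
def t84 : k84.all (jb2 57 fl b0) = true := by decide +kernel
noncomputable def k85 : KT := (.br (Nat.shiftLeft (nat_lit 0x1003) (nat_lit 112)) (.one (nat_lit 0x100200400b00c00e400801603841c760)) (.br (Nat.shiftLeft (nat_lit 0x1) (nat_lit 125)) (.one (nat_lit 0x100300400b00c00e600801603841c760)) (.one (nat_lit 0x200000400b00c00e000801605881c511))))
def t85 : k85.all (jb2 57 fl b0) = true := by decide +kernel
noncomputable def k86 : KT := (.br (Nat.shiftLeft (nat_lit 0x5) (nat_lit 124)) (.br (Nat.shiftLeft (nat_lit 0x3) (nat_lit 124)) (.one (nat_lit 0x200300400b00c00e600801605881c760)) (.br (Nat.shiftLeft (nat_lit 0x1) (nat_lit 126)) (.one (nat_lit 0x300000400b00c00e0008016078c1c511)) (.one (nat_lit 0x400000400b00c00e000801609901c511)))) (.br (Nat.shiftLeft (nat_lit 0x3) (nat_lit 125)) (.one (nat_lit 0x500000400b00c00e00080160b941c511)) (.br (Nat.shiftLeft (nat_lit 0x7) (nat_lit 124)) (.one (nat_lit 0x600000400b00c00e00080160d981c511)) (.one (nat_lit 0x700000400b00c00e00080160f9c1c511)))))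
def t86 : k86.all (jb2 57 fl b0) = true := by decide +kernel
noncomputable def k87 : KT := (.br (Nat.shiftLeft (nat_lit 0x2000003) (nat_lit 112)) (.br (Nat.shiftLeft (nat_lit 0x3) (nat_lit 126)) (.br (Nat.shiftLeft (nat_lit 0x5) (nat_lit 125)) (.br (Nat.shiftLeft (nat_lit 0x9) (nat_lit 124)) (.one (nat_lit 0x800000400b00c00e000801611a01c511)) (.one (nat_lit 0x900000400b00c00e000801613a41c511))) (.br (Nat.shiftLeft (nat_lit 0xb) (nat_lit 124)) (.one (nat_lit 0xa00000400b00c00e000801615a81c511)) (.one (nat_lit 0xb00000400b00c00e000801617ac1c511)))) (.br (Nat.shiftLeft (nat_lit 0x1000003) (nat_lit 112)) (.br (Nat.shiftLeft (nat_lit 0x1) (nat_lit 136)) (.one (nat_lit 0xc00000400b00c00e000801619b01c511)) (.one (nat_lit 0x100000200400b00c00e400803641801c611))) (.br (Nat.shiftLeft (nat_lit 0x1) (nat_lit 137)) (.one (nat_lit 0x100000300400b00c00e600803641801c611)) (.one (nat_lit 0x200000200400b00c00e400805681801c611))))) (.br (Nat.shiftLeft (nat_lit 0x4000003) (nat_lit 112)) (.br (Nat.shiftLeft (nat_lit 0x3000003) (nat_lit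 112)) (.br (Nat.shiftLeft (nat_lit 0x3) (nat_lit 136)) (.one (nat_lit 0x200000300400b00c00e600805681801c611)) (.one (nat_lit 0x300000200400b00c00e4008076c1801c611))) (.br (Nat.shiftLeft (nat_lit 0x1) (nat_lit 138)) (.one (nat_lit 0x300000300400b00c00e6008076c1801c611)) (.one (nat_lit 0x400000200400b00c00e400809701801c611)))) (.br (Nat.shiftLeft (nat_lit 0x5000003) (nat_lit 112)) (.br (Nat.shiftLeft (nat_lit 0x5) (nat_lit 136)) (.one (nat_lit 0x400000300400b00c00e600809701801c611)) (.one (nat_lit 0x500000200400b00c00e40080b741801c611))) (.br (Nat.shiftLeft (nat_lit 0x3) (nat_lit 137)) (.one (nat_lit 0x500000300400b00c00e60080b741801c611)) (.br (Nat.shiftLeft (nat_lit 0x6000003) (nat_lit 112)) (.one (nat_lit 0x600000200400b00c00e40080d781801c611)) (.one (nat_lit 0x600000300400b00c00e60080d781801c611)))))))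
def t87 : k87.all (jb2 57 fl b0) = true := by decide +kernel
noncomputable def k88 : KT := (.br (Nat.shiftLeft (nat_lit 0x5) (nat_lit 137)) (.br (Nat.shiftLeft (nat_lit 0x8000003) (nat_lit 112)) (.br (Nat.shiftLeft (nat_lit 0x7000003) (nat_lit 112)) (.one (nat_lit 0x700000200400b00c00e40080f7c1801c611)) (.br (Nat.shiftLeft (nat_lit 0x1) (nat_lit 139)) (.one (nat_lit 0x700000300400b00c00e60080f7c1801c611)) (.one (nat_lit 0x800000200400b00c00e400811801801c611)))) (.br (Nat.shiftLeft (nat_lit 0x9) (nat_lit 136)) (.one (nat_lit 0x800000300400b00c00e600811801801c611)) (.br (Nat.shiftLeft (nat_lit 0x9000003) (nat_lit 112)) (.one (nat_lit 0x900000200400b00c00e400813841801c611)) (.one (nat_lit 0x900000300400b00c00e600813841801c611))))) (.br (Nat.shiftLeft (nat_lit 0xb000003) (nat_lit 112)) (.br (Nat.shiftLeft (nat_lit 0xa000003) (nat_lit 112)) (.one (nat_lit 0xa00000200400b00c00e400815881801c611)) (.br (Nat.shiftLeft (nat_lit 0xb) (nat_lit 136)) (.one (nat_lit 0xa00000300400b00c00e600815881801c611)) (.one (nat_lit 0xb00000200400b00c00e4008178c1801c611))))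 (.br (Nat.shiftLeft (nat_lit 0x3) (nat_lit 138)) (.one (nat_lit 0xb00000300400b00c00e6008178c1801c611)) (.br (Nat.shiftLeft (nat_lit 0xc000003) (nat_lit 112)) (.one (nat_lit 0xc00000200400b00c00e400819901801c611)) (.one (nat_lit 0xc00000300400b00c00e600819901801c611))))))
def t88 : k88.all (jb2 57 fl b0) = true := by decide +kernel
noncomputable def s4 : KT := (.br (nat_lit 0x200000400b00c00e000801605881c511) (.br (nat_lit 0x500000800f000a00001001e311) k83 (.br (nat_lit 0x100000400b00c00e000801603841c511) k84 k85)) (.br (nat_lit 0x700000400b00c00e00080160f9c1c511) k86 (.br (nat_lit 0x600000300400b00c00e60080d781801c611) k87 k88)))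
noncomputable def u4 : KT := (.br (Nat.shiftLeft (nat_lit 0x5000007019) (nat_lit 64)) (.br (Nat.shiftLeft (nat_lit 0x5000007009) (nat_lit 64)) (.br (Nat.shiftLeft (nat_lit 0x2800003007) (nat_lit 65)) (.br (Nat.shiftLeft (nat_lit 0x2800003005) (nat_lit 65)) (.br (Nat.shiftLeft (nat_lit 0xa00000c01) (nat_lit 67)) (.br (Nat.shiftLeft (nat_lit 0x5) (nat_lit 100)) (.one (nat_lit 0x400b00c00e000801601801c540)) (.one (nat_lit 0x5000006007000a00000c00e311))) (.br (Nat.shiftLeft (nat_lit 0x5000006009) (nat_lit 64)) (.one (nat_lit 0x5000006008000a00000c010311)) (.one (nat_lit 0x5000006009000a00000c012311)))) (.br (Nat.shiftLeft (nat_lit 0x1400001803) (nat_lit 66)) (.br (Nat.shiftLeft (nat_lit 0x500000600b) (nat_lit 64)) (.one (nat_lit 0x500000600a000a00000c014311)) (.one (nat_lit 0x500000600b000a00000c016311))) (.br (Nat.shiftLeft (nat_lit 0x500000600d) (nat_lit 64)) (.one (nat_lit 0x500000600c000a00000c018311)) (.one (nat_lit 0x500000600d000a00000c01a311))))) (.br (Nat.shiftLeft (nat_lit 0x2800003009) (nat_lit 65)) (.br (Nat.shiftLeft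 (nat_lit 0x500000601) (nat_lit 68)) (.br (Nat.shiftLeft (nat_lit 0x500000600f) (nat_lit 64)) (.one (nat_lit 0x500000600e000a00000c01c311)) (.one (nat_lit 0x500000600f000a00000c01e311))) (.br (Nat.shiftLeft (nat_lit 0x5000006011) (nat_lit 64)) (.one (nat_lit 0x5000006010000a00000c020311)) (.one (nat_lit 0x5000006011000a00000c022311)))) (.br (Nat.shiftLeft (nat_lit 0x1400001805) (nat_lit 66)) (.br (Nat.shiftLeft (nat_lit 0x5000006013) (nat_lit 64)) (.one (nat_lit 0x5000006012000a00000c024311)) (.one (nat_lit 0x5000006013000a00000c026311))) (.br (Nat.shiftLeft (nat_lit 0x5000007) (nat_lit 76)) (.one (nat_lit 0x5000006014000a00000c028311)) (.one (nat_lit 0x5000007008000a00000e010311)))))) (.br (Nat.shiftLeft (nat_lit 0x5000007011) (nat_lit 64)) (.br (Nat.shiftLeft (nat_lit 0x500000700d) (nat_lit 64)) (.br (Nat.shiftLeft (nat_lit 0x500000700b) (nat_lit 64)) (.br (Nat.shiftLeft (nat_lit 0x2800003805) (nat_lit 65)) (.one (nat_lit 0x5000007009000a00000e012311)) (.one (nat_lit 0x500000700a000a00000e014311))) (.br (Nat.shiftLeft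 (nat_lit 0x1400001c03) (nat_lit 66)) (.one (nat_lit 0x500000700b000a00000e016311)) (.one (nat_lit 0x500000700c000a00000e018311)))) (.br (Nat.shiftLeft (nat_lit 0x500000700f) (nat_lit 64)) (.br (Nat.shiftLeft (nat_lit 0x2800003807) (nat_lit 65)) (.one (nat_lit 0x500000700d000a00000e01a311)) (.one (nat_lit 0x500000700e000a00000e01c311))) (.br (Nat.shiftLeft (nat_lit 0x500000701) (nat_lit 68)) (.one (nat_lit 0x500000700f000a00000e01e311)) (.one (nat_lit 0x5000007010000a00000e020311))))) (.br (Nat.shiftLeft (nat_lit 0x5000007015) (nat_lit 64)) (.br (Nat.shiftLeft (nat_lit 0x5000007013) (nat_lit 64)) (.br (Nat.shiftLeft (nat_lit 0x2800003809) (nat_lit 65)) (.one (nat_lit 0x5000007011000a00000e022311)) (.one (nat_lit 0x5000007012000a00000e024311))) (.br (Nat.shiftLeft (nat_lit 0x1400001c05) (nat_lit 66)) (.one (nat_lit 0x5000007013000a00000e026311)) (.one (nat_lit 0x5000007014000a00000e028311)))) (.br (Nat.shiftLeft (nat_lit 0x5000007017) (nat_lit 64)) (.br (Nat.shiftLeft (nat_lit 0x280000380b) (nat_lit 65)) (.one (nat_lit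 0x5000007015000a00000e02a311)) (.one (nat_lit 0x5000007016000a00000e02c311))) (.br (Nat.shiftLeft (nat_lit 0xa00000e03) (nat_lit 67)) (.one (nat_lit 0x5000007017000a00000e02e311)) (.one (nat_lit 0x5000007018000a00000e030311))))))) (.br (Nat.shiftLeft (nat_lit 0xa00001003) (nat_lit 67)) (.br (Nat.shiftLeft (nat_lit 0x500000801) (nat_lit 68)) (.br (Nat.shiftLeft (nat_lit 0x1400002003) (nat_lit 66)) (.br (Nat.shiftLeft (nat_lit 0x2800004005) (nat_lit 65)) (.br (Nat.shiftLeft (nat_lit 0xa00001) (nat_lit 79)) (.one (nat_lit 0x5000007019000a00000e032311)) (.one (nat_lit 0x5000008009000a000010012311))) (.br (Nat.shiftLeft (nat_lit 0x500000800b) (nat_lit 64)) (.one (nat_lit 0x500000800a000a000010014311)) (.one (nat_lit 0x500000800b000a000010016311)))) (.br (Nat.shiftLeft (nat_lit 0x2800004007) (nat_lit 65)) (.br (Nat.shiftLeft (nat_lit 0x500000800d) (nat_lit 64)) (.one (nat_lit 0x500000800c000a000010018311)) (.one (nat_lit 0x500000800d000a00001001a311))) (.br (Nat.shiftLeft (nat_lit 0x500000800f) (nat_lit 64)) (.one (nat_lit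 0x500000800e000a00001001c311)) (.one (nat_lit 0x500000800f000a00001001e311))))) (.br (Nat.shiftLeft (nat_lit 0x1400002005) (nat_lit 66)) (.br (Nat.shiftLeft (nat_lit 0x2800004009) (nat_lit 65)) (.br (Nat.shiftLeft (nat_lit 0x5000008011) (nat_lit 64)) (.one (nat_lit 0x5000008010000a000010020311)) (.one (nat_lit 0x5000008011000a000010022311))) (.br (Nat.shiftLeft (nat_lit 0x5000008013) (nat_lit 64)) (.one (nat_lit 0x5000008012000a000010024311)) (.one (nat_lit 0x5000008013000a000010026311)))) (.br (Nat.shiftLeft (nat_lit 0x280000400b) (nat_lit 65)) (.br (Nat.shiftLeft (nat_lit 0x5000008015) (nat_lit 64)) (.one (nat_lit 0x5000008014000a000010028311)) (.one (nat_lit 0x5000008015000a00001002a311))) (.br (Nat.shiftLeft (nat_lit 0x5000008017) (nat_lit 64)) (.one (nat_lit 0x5000008016000a00001002c311)) (.one (nat_lit 0x5000008017000a00001002e311)))))) (.br (Nat.shiftLeft (nat_lit 0x500000900f) (nat_lit 64)) (.br (Nat.shiftLeft (nat_lit 0x500000900b) (nat_lit 64)) (.br (Nat.shiftLeft (nat_lit 0x280000400d) (nat_lit 65)) (.br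 (Nat.shiftLeft (nat_lit 0x5000008019) (nat_lit 64)) (.one (nat_lit 0x5000008018000a000010030311)) (.one (nat_lit 0x5000008019000a000010032311))) (.br (Nat.shiftLeft (nat_lit 0x5000009) (nat_lit 76)) (.one (nat_lit 0x500000801a000a000010034311)) (.one (nat_lit 0x500000900a000a000012014311)))) (.br (Nat.shiftLeft (nat_lit 0x500000900d) (nat_lit 64)) (.br (Nat.shiftLeft (nat_lit 0x1400002403) (nat_lit 66)) (.one (nat_lit 0x500000900b000a000012016311)) (.one (nat_lit 0x500000900c000a000012018311))) (.br (Nat.shiftLeft (nat_lit 0x2800004807) (nat_lit 65)) (.one (nat_lit 0x500000900d000a00001201a311)) (.one (nat_lit 0x500000900e000a00001201c311))))) (.br (Nat.shiftLeft (nat_lit 0x5000009013) (nat_lit 64)) (.br (Nat.shiftLeft (nat_lit 0x5000009011) (nat_lit 64)) (.br (Nat.shiftLeft (nat_lit 0x500000901) (nat_lit 68)) (.one (nat_lit 0x500000900f000a00001201e311)) (.one (nat_lit 0x5000009010000a000012020311))) (.br (Nat.shiftLeft (nat_lit 0x2800004809) (nat_lit 65)) (.one (nat_lit 0x5000009011000a000012022311)) (.one (nat_lit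 0x5000009012000a000012024311)))) (.br (Nat.shiftLeft (nat_lit 0x5000009015) (nat_lit 64)) (.br (Nat.shiftLeft (nat_lit 0x1400002405) (nat_lit 66)) (.one (nat_lit 0x5000009013000a000012026311)) (.one (nat_lit 0x5000009014000a000012028311))) (.br (Nat.shiftLeft (nat_lit 0x280000480b) (nat_lit 65)) (.one (nat_lit 0x5000009015000a00001202a311)) (.one (nat_lit 0x5000009016000a00001202c311))))))))
def w4 : u4.all (wj 57 s4) = true := by decide +kernel
def o4 : OkW 57 (jb2 57 fl) u4 := .lift s4 _ (.br _ _ _ (.br _ _ _ (.leaf b0 k83 t83) (.br _ _ _ (.leaf b0 k84 t84) (.leaf b0 k85 t85))) (.br _ _ _ (.leaf b0 k86 t86) (.br _ _ _ (.leaf b0 k87 t87) (.leaf b0 k88 t88)))) w4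
noncomputable def k89 : KT := (.br (Nat.shiftLeft (nat_lit 0x500000b00d) (nat_lit 64)) (.br (Nat.shiftLeft (nat_lit 0x500000a011) (nat_lit 64)) (.br (Nat.shiftLeft (nat_lit 0x1400002803) (nat_lit 66)) (.br (Nat.shiftLeft (nat_lit 0x5000009019) (nat_lit 64)) (.br (Nat.shiftLeft (nat_lit 0xa00001203) (nat_lit 67)) (.one (nat_lit 0x5000009017000a00001202e311)) (.one (nat_lit 0x5000009018000a000012030311))) (.br (Nat.shiftLeft (nat_lit 0x280000480d) (nat_lit 65)) (.one (nat_lit 0x5000009019000a000012032311)) (.br (Nat.shiftLeft (nat_lit 0x2800005) (nat_lit 77)) (.one (nat_lit 0x500000901a000a000012034311)) (.one (nat_lit 0x500000a00b000a000014016311))))) (.br (Nat.shiftLeft (nat_lit 0x2800005007) (nat_lit 65)) (.br (Nat.shiftLeft (nat_lit 0x500000a00d) (nat_lit 64)) (.one (nat_lit 0x500000a00c000a000014018311)) (.one (nat_lit 0x500000a00d000a00001401a311))) (.br (Nat.shiftLeft (nat_lit 0x500000a00f) (nat_lit 64)) (.one (nat_lit 0x500000a00e000a00001401c311)) (.br (Nat.shiftLeft (nat_lit 0x500000a01) (nat_lit 68)) (.one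 (nat_lit 0x500000a00f000a00001401e311)) (.one (nat_lit 0x500000a010000a000014020311)))))) (.br (Nat.shiftLeft (nat_lit 0x280000500b) (nat_lit 65)) (.br (Nat.shiftLeft (nat_lit 0x500000a013) (nat_lit 64)) (.br (Nat.shiftLeft (nat_lit 0x2800005009) (nat_lit 65)) (.one (nat_lit 0x500000a011000a000014022311)) (.one (nat_lit 0x500000a012000a000014024311))) (.br (Nat.shiftLeft (nat_lit 0x1400002805) (nat_lit 66)) (.one (nat_lit 0x500000a013000a000014026311)) (.br (Nat.shiftLeft (nat_lit 0x500000a015) (nat_lit 64)) (.one (nat_lit 0x500000a014000a000014028311)) (.one (nat_lit 0x500000a015000a00001402a311))))) (.br (Nat.shiftLeft (nat_lit 0xa00001403) (nat_lit 67)) (.br (Nat.shiftLeft (nat_lit 0x500000a017) (nat_lit 64)) (.one (nat_lit 0x500000a016000a00001402c311)) (.one (nat_lit 0x500000a017000a00001402e311))) (.br (Nat.shiftLeft (nat_lit 0x500000a019) (nat_lit 64)) (.one (nat_lit 0x500000a018000a000014030311)) (.br (Nat.shiftLeft (nat_lit 0x500000b) (nat_lit 76)) (.one (nat_lit 0x500000a019000a000014032311)) (.one (nat_lit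 0x500000b00c000a000016018311))))))) (.br (Nat.shiftLeft (nat_lit 0x500000b017) (nat_lit 64)) (.br (Nat.shiftLeft (nat_lit 0x2800005809) (nat_lit 65)) (.br (Nat.shiftLeft (nat_lit 0x500000b00f) (nat_lit 64)) (.br (Nat.shiftLeft (nat_lit 0x2800005807) (nat_lit 65)) (.one (nat_lit 0x500000b00d000a00001601a311)) (.one (nat_lit 0x500000b00e000a00001601c311))) (.br (Nat.shiftLeft (nat_lit 0x500000b01) (nat_lit 68)) (.one (nat_lit 0x500000b00f000a00001601e311)) (.br (Nat.shiftLeft (nat_lit 0x500000b011) (nat_lit 64)) (.one (nat_lit 0x500000b010000a000016020311)) (.one (nat_lit 0x500000b011000a000016022311))))) (.br (Nat.shiftLeft (nat_lit 0x1400002c05) (nat_lit 66)) (.br (Nat.shiftLeft (nat_lit 0x500000b013) (nat_lit 64)) (.one (nat_lit 0x500000b012000a000016024311)) (.one (nat_lit 0x500000b013000a000016026311))) (.br (Nat.shiftLeft (nat_lit 0x500000b015) (nat_lit 64)) (.one (nat_lit 0x500000b014000a000016028311)) (.br (Nat.shiftLeft (nat_lit 0x280000580b) (nat_lit 65)) (.one (nat_lit 0x500000b015000a00001602a311)) (.one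 (nat_lit 0x500000b016000a00001602c311)))))) (.br (Nat.shiftLeft (nat_lit 0x500000c01) (nat_lit 68)) (.br (Nat.shiftLeft (nat_lit 0x1400003) (nat_lit 78)) (.br (Nat.shiftLeft (nat_lit 0xa00001603) (nat_lit 67)) (.one (nat_lit 0x500000b017000a00001602e311)) (.one (nat_lit 0x500000b018000a000016030311))) (.br (Nat.shiftLeft (nat_lit 0x2800006007) (nat_lit 65)) (.one (nat_lit 0x500000c00d000a00001801a311)) (.br (Nat.shiftLeft (nat_lit 0x500000c00f) (nat_lit 64)) (.one (nat_lit 0x500000c00e000a00001801c311)) (.one (nat_lit 0x500000c00f000a00001801e311))))) (.br (Nat.shiftLeft (nat_lit 0x2800006009) (nat_lit 65)) (.br (Nat.shiftLeft (nat_lit 0x500000c011) (nat_lit 64)) (.one (nat_lit 0x500000c010000a000018020311)) (.one (nat_lit 0x500000c011000a000018022311))) (.br (Nat.shiftLeft (nat_lit 0x500000c013) (nat_lit 64)) (.one (nat_lit 0x500000c012000a000018024311)) (.br (Nat.shiftLeft (nat_lit 0x1400003005) (nat_lit 66)) (.one (nat_lit 0x500000c013000a000018026311)) (.one (nat_lit 0x500000c014000a000018028311))))))))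
def t89 : k89.all (jb2 57 fl b0) = true := by decide +kernel
noncomputable def k90 : KT := (.br (Nat.shiftLeft (nat_lit 0x280000680b) (nat_lit 65)) (.br (Nat.shiftLeft (nat_lit 0x500000d01) (nat_lit 68)) (.br (Nat.shiftLeft (nat_lit 0xa00001803) (nat_lit 67)) (.br (Nat.shiftLeft (nat_lit 0x280000600b) (nat_lit 65)) (.one (nat_lit 0x500000c015000a00001802a311)) (.br (Nat.shiftLeft (nat_lit 0x500000c017) (nat_lit 64)) (.one (nat_lit 0x500000c016000a00001802c311)) (.one (nat_lit 0x500000c017000a00001802e311)))) (.br (Nat.shiftLeft (nat_lit 0x500000d) (nat_lit 76)) (.one (nat_lit 0x500000c018000a000018030311)) (.br (Nat.shiftLeft (nat_lit 0x500000d00f) (nat_lit 64)) (.one (nat_lit 0x500000d00e000a00001a01c311)) (.one (nat_lit 0x500000d00f000a00001a01e311))))) (.br (Nat.shiftLeft (nat_lit 0x500000d013) (nat_lit 64)) (.br (Nat.shiftLeft (nat_lit 0x500000d011) (nat_lit 64)) (.one (nat_lit 0x500000d010000a00001a020311)) (.br (Nat.shiftLeft (nat_lit 0x2800006809) (nat_lit 65)) (.one (nat_lit 0x500000d011000a00001a022311))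 (.one (nat_lit 0x500000d012000a00001a024311)))) (.br (Nat.shiftLeft (nat_lit 0x1400003405) (nat_lit 66)) (.one (nat_lit 0x500000d013000a00001a026311)) (.br (Nat.shiftLeft (nat_lit 0x500000d015) (nat_lit 64)) (.one (nat_lit 0x500000d014000a00001a028311)) (.one (nat_lit 0x500000d015000a00001a02a311)))))) (.br (Nat.shiftLeft (nat_lit 0x500000e013) (nat_lit 64)) (.br (Nat.shiftLeft (nat_lit 0x500000e01) (nat_lit 68)) (.br (Nat.shiftLeft (nat_lit 0x500000d017) (nat_lit 64)) (.one (nat_lit 0x500000d016000a00001a02c311)) (.br (Nat.shiftLeft (nat_lit 0x2800007) (nat_lit 77)) (.one (nat_lit 0x500000d017000a00001a02e311)) (.one (nat_lit 0x500000e00f000a00001c01e311)))) (.br (Nat.shiftLeft (nat_lit 0x500000e011) (nat_lit 64)) (.one (nat_lit 0x500000e010000a00001c020311)) (.br (Nat.shiftLeft (nat_lit 0x2800007009) (nat_lit 65)) (.one (nat_lit 0x500000e011000a00001c022311)) (.one (nat_lit 0x500000e012000a00001c024311))))) (.br (Nat.shiftLeft (nat_lit 0x280000700b) (nat_lit 65)) (.br (Nat.shiftLeft (nat_lit 0x1400003805) (nat_lit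 66)) (.one (nat_lit 0x500000e013000a00001c026311)) (.br (Nat.shiftLeft (nat_lit 0x500000e015) (nat_lit 64)) (.one (nat_lit 0x500000e014000a00001c028311)) (.one (nat_lit 0x500000e015000a00001c02a311)))) (.br (Nat.shiftLeft (nat_lit 0x500000f) (nat_lit 76)) (.one (nat_lit 0x500000e016000a00001c02c311)) (.br (Nat.shiftLeft (nat_lit 0x500000f011) (nat_lit 64)) (.one (nat_lit 0x500000f010000a00001e020311)) (.one (nat_lit 0x500000f011000a00001e022311)))))))
def t90 : k90.all (jb2 57 fl b0) = true := by decide +kernel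
noncomputable def u5 : KT := (.br (nat_lit 0x500000c014000a000018028311) k89 k90)
def o5 : OkW 57 (jb2 57 fl) u5 := (.br _ _ _ (.leaf b0 k89 t89) (.leaf b0 k90 t90))
noncomputable def k91 : KT := (.br (Nat.shiftLeft (nat_lit 0x1) (nat_lit 113)) (.br (Nat.shiftLeft (nat_lit 0x1400004005) (nat_lit 66)) (.br (Nat.shiftLeft (nat_lit 0x500000f015) (nat_lit 64)) (.br (Nat.shiftLeft (nat_lit 0x500000f013) (nat_lit 64)) (.one (nat_lit 0x500000f012000a00001e024311)) (.br (Nat.shiftLeft (nat_lit 0x1400003c05) (nat_lit 66)) (.one (nat_lit 0x500000f013000a00001e026311)) (.one (nat_lit 0x500000f014000a00001e028311)))) (.br (Nat.shiftLeft (nat_lit 0x2800008009) (nat_lit 65)) (.br (Nat.shiftLeft (nat_lit 0x500001) (nat_lit 80)) (.one (nat_lit 0x500000f015000a00001e02a311)) (.one (nat_lit 0x5000010011000a000020022311))) (.br (Nat.shiftLeft (nat_lit 0x5000010013) (nat_lit 64)) (.one (nat_lit 0x5000010012000a000020024311)) (.one (nat_lit 0x5000010013000a000020026311))))) (.br (Nat.shiftLeft (nat_lit 0x500600700f) (nat_lit 64)) (.br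 (Nat.shiftLeft (nat_lit 0x5000011013) (nat_lit 64)) (.br (Nat.shiftLeft (nat_lit 0x5000011) (nat_lit 76)) (.one (nat_lit 0x5000010014000a000020028311)) (.one (nat_lit 0x5000011012000a000022024311))) (.br (Nat.shiftLeft (nat_lit 0x1401) (nat_lit 90)) (.one (nat_lit 0x5000011013000a000022026311)) (.one (nat_lit 0x500600700e000a00c00e01d500)))) (.br (Nat.shiftLeft (nat_lit 0x5006007011) (nat_lit 64)) (.br (Nat.shiftLeft (nat_lit 0x500600701) (nat_lit 68)) (.one (nat_lit 0x500600700f000a00c00e01f500)) (.one (nat_lit 0x5006007010000a00c00e021500))) (.br (Nat.shiftLeft (nat_lit 0x1) (nat_lit 112)) (.one (nat_lit 0x5006007011000a00c00e023500)) (.one (nat_lit 0x1005006007011200a00c00e023600)))))) (.br (Nat.shiftLeft (nat_lit 0x1) (nat_lit 125)) (.br (Nat.shiftLeft (nat_lit 0x1) (nat_lit 124)) (.br (Nat.shiftLeft (nat_lit 0x3) (nat_lit 112)) (.one (nat_lit 0x2005006007011400a00c00e023600)) (.br (Nat.shiftLeft (nat_lit 0x1) (nat_lit 114)) (.one (nat_lit 0x3005006007011600a00c00e023600)) (.one (nat_lit 0x4005006007011800a00c00e023600))))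 (.br (Nat.shiftLeft (nat_lit 0x1003) (nat_lit 112)) (.br (Nat.shiftLeft (nat_lit 0x801) (nat_lit 113)) (.one (nat_lit 0x1000005006007011000a00c02e422511)) (.one (nat_lit 0x1002005006007011400a00c02e423700))) (.br (Nat.shiftLeft (nat_lit 0x401) (nat_lit 114)) (.one (nat_lit 0x1003005006007011600a00c02e423700)) (.one (nat_lit 0x1004005006007011800a00c02e423700))))) (.br (Nat.shiftLeft (nat_lit 0xc01) (nat_lit 114)) (.br (Nat.shiftLeft (nat_lit 0x801) (nat_lit 114)) (.br (Nat.shiftLeft (nat_lit 0x1001) (nat_lit 113)) (.one (nat_lit 0x2000005006007011000a00c04e822511)) (.one (nat_lit 0x2003005006007011600a00c04e823700))) (.br (Nat.shiftLeft (nat_lit 0x3) (nat_lit 124)) (.one (nat_lit 0x2004005006007011800a00c04e823700)) (.one (nat_lit 0x3000005006007011000a00c06ec22511)))) (.br (Nat.shiftLeft (nat_lit 0x5) (nat_lit 124)) (.br (Nat.shiftLeft (nat_lit 0x1) (nat_lit 126)) (.one (nat_lit 0x3004005006007011800a00c06ec23700)) (.one (nat_lit 0x4000005006007011000a00c08f022511))) (.br (Nat.shiftLeft (nat_lit 0x3) (nat_lit 125))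 (.one (nat_lit 0x5000005006007011000a00c0af422511)) (.one (nat_lit 0x6000005006007011000a00c0cf822511)))))))
def t91 : k91.all (jb2 57 fl b0) = true := by decide +kernel
noncomputable def k92 : KT := (.br (Nat.shiftLeft (nat_lit 0x1000003) (nat_lit 112)) (.br (Nat.shiftLeft (nat_lit 0x1) (nat_lit 136)) (.one (nat_lit 0x7000005006007011000a00c0efc22511)) (.br (Nat.shiftLeft (nat_lit 0x800001) (nat_lit 113)) (.one (nat_lit 0x1000001005006007011200a02c40e022611)) (.one (nat_lit 0x1000002005006007011400a02c40e022611)))) (.br (Nat.shiftLeft (nat_lit 0x400001) (nat_lit 114)) (.one (nat_lit 0x1000003005006007011600a02c40e022611)) (.br (Nat.shiftLeft (nat_lit 0x801) (nat_lit 125)) (.one (nat_lit 0x1000004005006007011800a02c40e022611)) (.one (nat_lit 0x1002003005006007011600a02c44e823800)))))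
def t92 : k92.all (jb2 57 fl b0) = true := by decide +kernel
noncomputable def k93 : KT := (.one (nat_lit 0x1002004005006007011800a02c44e822870))
noncomputable def b94 : BT := .node (nat_lit 0x1) (nat_lit 0xdb32d124d0003413000ab6410008800028) .leaf .leaf
def t93 : k93.all (jb2 57 fl b94) = true := by decide +kernel
noncomputable def k94 : KT := (.br (Nat.shiftLeft (nat_lit 0x1000001) (nat_lit 113)) (.br (Nat.shiftLeft (nat_lit 0x1) (nat_lit 137)) (.one (nat_lit 0x1003004005006007011800a02c46ec22870)) (.one (nat_lit 0x2000001005006007011200a04c80e022611))) (.br (Nat.shiftLeft (nat_lit 0x2000003) (nat_lit 112)) (.one (nat_lit 0x2000002005006007011400a04c80e022611)) (.br (Nat.shiftLeft (nat_lit 0x800001) (nat_lit 114)) (.one (nat_lit 0x2000003005006007011600a04c80e022611)) (.one (nat_lit 0x2000004005006007011800a04c80e022611)))))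
def t94 : k94.all (jb2 57 fl b0) = true := by decide +kernel
noncomputable def k95 : KT := (.br (Nat.shiftLeft (nat_lit 0x3000003) (nat_lit 112)) (.br (Nat.shiftLeft (nat_lit 0x3) (nat_lit 136)) (.one (nat_lit 0x2003004005006007011800a04c86ec22870)) (.br (Nat.shiftLeft (nat_lit 0x1800001) (nat_lit 113)) (.one (nat_lit 0x3000001005006007011200a06cc0e022611)) (.one (nat_lit 0x3000002005006007011400a06cc0e022611)))) (.br (Nat.shiftLeft (nat_lit 0x1) (nat_lit 138)) (.br (Nat.shiftLeft (nat_lit 0xc00001) (nat_lit 114)) (.one (nat_lit 0x3000003005006007011600a06cc0e022611)) (.one (nat_lit 0x3000004005006007011800a06cc0e022611))) (.br (Nat.shiftLeft (nat_lit 0x2000001) (nat_lit 113)) (.one (nat_lit 0x4000001005006007011200a08d00e022611)) (.one (nat_lit 0x4000002005006007011400a08d00e022611)))))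
def t95 : k95.all (jb2 57 fl b0) = true := by decide +kernel
noncomputable def k96 : KT := (.br (Nat.shiftLeft (nat_lit 0x1000001) (nat_lit 114)) (.one (nat_lit 0x4000003005006007011600a08d00e022611)) (.br (Nat.shiftLeft (nat_lit 0x5) (nat_lit 136)) (.one (nat_lit 0x4000004005006007011800a08d00e022611)) (.one (nat_lit 0x5000001005006007011200a0ad40e022611))))
def t96 : k96.all (jb2 57 fl b0) = true := by decide +kernel
noncomputable def k97 : KT := (.br (Nat.shiftLeft (nat_lit 0x5000003) (nat_lit 112)) (.one (nat_lit 0x5000002005006007011400a0ad40e022611)) (.one (nat_lit 0x5000003005006007011600a0ad40e022611)))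
def t97 : k97.all (jb2 57 fl b0) = true := by decide +kernel
noncomputable def k98 : KT := (.one (nat_lit 0x5000004005006007011800a0ad40e022611))
def t98 : k98.all (jb2 57 fl b0) = true := by decide +kernel
noncomputable def k99 : KT := (.one (nat_lit 0x6000001005006007011200a0cd80e022611))
def t99 : k99.all (jb2 57 fl b0) = true := by decide +kernel
noncomputable def k100 : KT := (.one (nat_lit 0x6000002005006007011400a0cd80e022611))
noncomputable def b101 : BT := .node (nat_lit 0x1) (nat_lit 0x6f0a648ae3231273b6cc0032d8000ad5c002adb000ab642000e300028) .leaf .leaf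
def t100 : k100.all (jb2 57 fl b101) = true := by decide +kernel
noncomputable def k101 : KT := (.one (nat_lit 0x6000003005006007011600a0cd80e022611))
noncomputable def b102 : BT := .node (nat_lit 0x1d) (nat_lit 0x1b64db326036c926a935000ea600022e5000cb6000329a0a899458a2a001d2c80065b20cc8939d26a00196c80064b60d7227293000039db000ca88100431004310037600376003760037600317003170031700317002b7002b7002b7002b7002b7002b7002b7002b7002b7002b7002b7002b7002b7002b7002580025800258002580025800258) .leaf .leaf
def t101 : k101.all (jb2 57 fl b102) = true := by decide +kernel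
noncomputable def k102 : KT := (.one (nat_lit 0x6000004005006007011800a0cd80e022611))
def t102 : k102.all (jb2 57 fl b0) = true := by decide +kernel
noncomputable def k103 : KT := (.one (nat_lit 0x7000001005006007011200a0edc0e022611))
def t103 : k103.all (jb2 57 fl b0) = true := by decide +kernel
noncomputable def k104 : KT := (.one (nat_lit 0x7000002005006007011400a0edc0e022611))
def t104 : k104.all (jb2 57 fl b0) = true := by decide +kernel
noncomputable def k105 : KT := (.br (Nat.shiftLeft (nat_lit 0x400000401) (nat_lit 114)) (.br (Nat.shiftLeft (nat_lit 0x1) (nat_lit 148)) (.br (Nat.shiftLeft (nat_lit 0x1c00001) (nat_lit 114)) (.one (nat_lit 0x7000003005006007011600a0edc0e022611)) (.one (nat_lit 0x7000004005006007011800a0edc0e022611))) (.br (Nat.shiftLeft (nat_lit 0x1000001003) (nat_lit 112)) (.one (nat_lit 0x1000001002005006007011402a40c02e422711)) (.one (nat_lit 0x1000001003005006007011602a40c02e422711)))) (.br (Nat.shiftLeft (nat_lit 0x400000801) (nat_lit 114)) (.br (Nat.shiftLeft (nat_lit 0x800001) (nat_lit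 125)) (.one (nat_lit 0x1000001004005006007011802a40c02e422711)) (.one (nat_lit 0x1000002003005006007011602a40c04e822711))) (.br (Nat.shiftLeft (nat_lit 0x1000003) (nat_lit 124)) (.one (nat_lit 0x1000002004005006007011802a40c04e822711)) (.one (nat_lit 0x1000003004005006007011802a40c06ec22711)))))
def t105 : k105.all (jb2 57 fl b0) = true := by decide +kernel
noncomputable def k106 : KT := (.br (Nat.shiftLeft (nat_lit 0x1800001) (nat_lit 125)) (.br (Nat.shiftLeft (nat_lit 0x800000801) (nat_lit 114)) (.br (Nat.shiftLeft (nat_lit 0x800000401) (nat_lit 114)) (.br (Nat.shiftLeft (nat_lit 0x2000001003) (nat_lit 112)) (.one (nat_lit 0x2000001002005006007011404a80c02e422711)) (.one (nat_lit 0x2000001003005006007011604a80c02e422711))) (.br (Nat.shiftLeft (nat_lit 0x1000001) (nat_lit 125)) (.one (nat_lit 0x2000001004005006007011804a80c02e422711)) (.one (nat_lit 0x2000002003005006007011604a80c04e822711)))) (.br (Nat.shiftLeft (nat_lit 0x3) (nat_lit 148)) (.br (Nat.shiftLeft (nat_lit 0x2000003) (nat_lit 124)) (.one (nat_lit 0x2000002004005006007011804a80c04e822711))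 (.one (nat_lit 0x2000003004005006007011804a80c06ec22711))) (.br (Nat.shiftLeft (nat_lit 0x3000001003) (nat_lit 112)) (.one (nat_lit 0x3000001002005006007011406ac0c02e422711)) (.br (Nat.shiftLeft (nat_lit 0xc00000401) (nat_lit 114)) (.one (nat_lit 0x3000001003005006007011606ac0c02e422711)) (.one (nat_lit 0x3000001004005006007011806ac0c02e422711)))))) (.br (Nat.shiftLeft (nat_lit 0x4000001003) (nat_lit 112)) (.br (Nat.shiftLeft (nat_lit 0x3000003) (nat_lit 124)) (.br (Nat.shiftLeft (nat_lit 0xc00000801) (nat_lit 114)) (.one (nat_lit 0x3000002003005006007011606ac0c04e822711)) (.one (nat_lit 0x3000002004005006007011806ac0c04e822711))) (.br (Nat.shiftLeft (nat_lit 0x1) (nat_lit 150)) (.one (nat_lit 0x3000003004005006007011806ac0c06ec22711)) (.one (nat_lit 0x4000001002005006007011408b00c02e422711)))) (.br (Nat.shiftLeft (nat_lit 0x2000001) (nat_lit 125)) (.br (Nat.shiftLeft (nat_lit 0x1000000401) (nat_lit 114)) (.one (nat_lit 0x4000001003005006007011608b00c02e422711)) (.one (nat_lit 0x4000001004005006007011808b00c02e422711)))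 (.br (Nat.shiftLeft (nat_lit 0x1000000801) (nat_lit 114)) (.one (nat_lit 0x4000002003005006007011608b00c04e822711)) (.br (Nat.shiftLeft (nat_lit 0x4000003) (nat_lit 124)) (.one (nat_lit 0x4000002004005006007011808b00c04e822711)) (.one (nat_lit 0x4000003004005006007011808b00c06ec22711)))))))
def t106 : k106.all (jb2 57 fl b0) = true := by decide +kernel
noncomputable def k107 : KT := (.br (Nat.shiftLeft (nat_lit 0x5000001003) (nat_lit 112)) (.one (nat_lit 0x500000100200500600701140ab40c02e422711)) (.one (nat_lit 0x500000100300500600701160ab40c02e422711)))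
noncomputable def b108 : BT := .node (nat_lit 0x3b) (nat_lit 0x36cca2c963000cc60002b18064625454e080065360011cb832c65162b900074b20015cb832314c91454002b57000ab6c1db22d0a58e4625446d9b6c8a2c935000ce54002b18000ae5c002ad9000cc60002a9b0f784a2a9649189304a2c0019ab00055b4001d1100036b816f0b6ccb42db22b99684003299000b050003a5900090582008be008be008be0085e0085e0085e007fd007fd007fd007fd007fd0079d0079d0079d0079d0079d0079d0079d0079d0079d0079d0079d0079d0079d0079d0079d0079d0079d0079d0073c0073c0073c0073c0073c0073c0073c0073c0073c0073c0073c0073c0073c0073c0073c0073c0073c00626006260056b0056b0056b004b0004b0004b0004b0004b0004b0004b0004b0004b0) .leaf .leaf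
def t107 : k107.all (jb2 57 fl b108) = true := by decide +kernel
noncomputable def k108 : KT := (.br (Nat.shiftLeft (nat_lit 0x2800001) (nat_lit 125)) (.one (nat_lit 0x500000100400500600701180ab40c02e422711)) (.one (nat_lit 0x500000200300500600701160ab40c04e822711)))
noncomputable def b109 : BT := .node (nat_lit 0x17) (nat_lit 0x1231273a64a46251649ab784a889356f0a58db6600192e00046b000198c00045b60019ca800553600196c000653226d91458ae6001d2c80047b00cb1939cae49342601688003a1a000ae5c003966000b0542de1273a64800325c000ac601db26d9939dbc25734c9000653200158d000663000158c0523128b26480032da0008d6019632a224d0003357000ca641db22b9a4d53224c12b9800672a00156d000734a0015ac8523128b1688003a1a0007060100765005f3005f300593004d8004d8004d8004d8004d80047800478003bd003bd0035c0035c0035c002fc002fc002fc002fc002410024100241001e0) .leaf .leaf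
def t108 : k108.all (jb2 57 fl b109) = true := by decide +kernel
noncomputable def k109 : KT := (.br (Nat.shiftLeft (nat_lit 0x5000003) (nat_lit 124)) (.one (nat_lit 0x500000200400500600701180ab40c04e822711)) (.one (nat_lit 0x500000300400500600701180ab40c06ec22711)))
def t109 : k109.all (jb2 57 fl b0) = true := by decide +kernel
noncomputable def k110 : KT := (.one (nat_lit 0x600000100200500600701140cb80c02e422711))
noncomputable def b111 : BT := .node (nat_lit 0xb) (nat_lit 0xde16d99301b6493626000074b200117280065360015710523128b36cc002b59000ab641db2260a58c003265000ac6010026c0026c0026c0026c0026c0026c0026c001b1001b100150000f0000f0) .leaf .leaf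
def t110 : k110.all (jb2 57 fl b111) = true := by decide +kernel
noncomputable def k111 : KT := (.one (nat_lit 0x600000100300500600701160cb80c02e422711))
noncomputable def b112 : BT := .node (nat_lit 0x17) (nat_lit 0x9914b19300003a59000aa94199249a930246254449b000743600157100066ac00116e0523128b24d93225732a200066ac00116e00075300015ac0523128aa64a4625446d980065360011ac000572e00156c85bc29354b23785b664c06d99454ae52312d0a648003a59000ab68003299000aa94003a1a0008f5c0033950008d604005e40058400584004c9004c9004c9004c9004c9004c90040d0040d0040d0040d0040d0040d0040d00351003510035100351001e0001e0001e0001e0) .leaf .leaf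
def t111 : k111.all (jb2 57 fl b112) = true := by decide +kernel
noncomputable def k112 : KT := (.br (Nat.shiftLeft (nat_lit 0x3000001) (nat_lit 125)) (.one (nat_lit 0x600000100400500600701180cb80c02e422711)) (.one (nat_lit 0x600000200300500600701160cb80c04e822711)))
noncomputable def b113 : BT := .node (nat_lit 0x1) (nat_lit 0x962273a4d40032d9000ca6810008800028) .leaf .leaf
def t112 : k112.all (jb2 57 fl b113) = true := by decide +kernel
noncomputable def k113 : KT := (.br (Nat.shiftLeft (nat_lit 0x6000003) (nat_lit 124)) (.one (nat_lit 0x600000200400500600701180cb80c04e822711)) (.one (nat_lit 0x600000300400500600701180cb80c06ec22711)))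
def t113 : k113.all (jb2 57 fl b0) = true := by decide +kernel
noncomputable def k114 : KT := (.one (nat_lit 0x700000100200500600701140ebc0c02e422711))
noncomputable def b115 : BT := .node (nat_lit 0x1) (nat_lit 0xde14b1b6cc0032d8000ca6410008800028) .leaf .leaf
def t114 : k114.all (jb2 57 fl b115) = true := by decide +kernel
noncomputable def k115 : KT := (.br (Nat.shiftLeft (nat_lit 0x1c00000401) (nat_lit 114)) (.one (nat_lit 0x700000100300500600701160ebc0c02e422711)) (.one (nat_lit 0x700000100400500600701180ebc0c02e422711)))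
noncomputable def b116 : BT := .node (nat_lit 0x1) (nat_lit 0x6d924d926d23149b36cc003a98000ab6c0032d8000ab642000e300028) .leaf .leaf
def t115 : k115.all (jb2 57 fl b116) = true := by decide +kernel
noncomputable def k116 : KT := (.br (Nat.shiftLeft (nat_lit 0x1) (nat_lit 160)) (.br (Nat.shiftLeft (nat_lit 0x1c00000801) (nat_lit 114)) (.one (nat_lit 0x700000200300500600701160ebc0c04e822711)) (.br (Nat.shiftLeft (nat_lit 0x7000003) (nat_lit 124)) (.one (nat_lit 0x700000200400500600701180ebc0c04e822711)) (.one (nat_lit 0x700000300400500600701180ebc0c06ec22711)))) (.br (Nat.shiftLeft (nat_lit 0x3) (nat_lit 160)) (.br (Nat.shiftLeft (nat_lit 0x1) (nat_lit 161)) (.one (nat_lit 0x1000001002003005006007011640a02c44ea26811)) (.one (nat_lit 0x2000001002003005006007011680a02c44ec2a811))) (.br (Nat.shiftLeft (nat_lit 0x1) (nat_lit 162)) (.one (nat_lit 0x30000010020030050060070116c0a02c44ee2e811)) (.one (nat_lit 0x4000001002003005006007011700a02c44f032811)))))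
def t116 : k116.all (jb2 57 fl b0) = true := by decide +kernel
noncomputable def k117 : KT := (.br (Nat.shiftLeft (nat_lit 0x3) (nat_lit 161)) (.one (nat_lit 0x5000001002003005006007011740a02c44f236811)) (.br (Nat.shiftLeft (nat_lit 0x7) (nat_lit 160)) (.one (nat_lit 0x6000001002003005006007011780a02c44f43a811)) (.one (nat_lit 0x70000010020030050060070117c0a02c44f63e811))))
noncomputable def b118 : BT := .node (nat_lit 0x17) (nat_lit 0x1bc25a24e0b6c8a2a9926f0945926b23128b36cc003357000ad5c00b318004ad5c013357002aa6c00ab59002ab644de149a15124625d149a00065320015cb80058a800156c85b645d14c948c4a2c992000ce58002b57000ca6c0023580a6449825734c8a4d09ce001cd280056b2001d0d000563416f095cd32400198c00056300ed9130526b231273a6480032a3000ab6800329b0008d6020069d0069d0069d0069d0069d0052c0047100471003b6003b6003b6002fb002fb002fb0029b0029b0029b0029b0029b0029b0029b0029b0029b001e0) .leaf .leaf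
def t117 : k117.all (jb2 57 fl b118) = true := by decide +kernel
noncomputable def s6 : KT := (.br (nat_lit 0x7000001005006007011200a0edc0e022611) (.br (nat_lit 0x5000001005006007011200a0ad40e022611) (.br (nat_lit 0x1002004005006007011800a02c44e822870) (.br (nat_lit 0x6000005006007011000a00c0cf822511) k91 (.br (nat_lit 0x1002003005006007011600a02c44e823800) k92 k93)) (.br (nat_lit 0x2000004005006007011800a04c80e022611) k94 (.br (nat_lit 0x4000002005006007011400a08d00e022611) k95 k96))) (.br (nat_lit 0x6000001005006007011200a0cd80e022611) (.br (nat_lit 0x5000003005006007011600a0ad40e022611) k97 (.br (nat_lit 0x5000004005006007011800a0ad40e022611) k98 k99)) (.br (nat_lit 0x6000003005006007011600a0cd80e022611) (.br (nat_lit 0x6000002005006007011400a0cd80e022611) k100 k101) (.br (nat_lit 0x6000004005006007011800a0cd80e022611) k102 k103)))) (.br (nat_lit 0x600000100200500600701140cb80c02e422711) (.br (nat_lit 0x4000003004005006007011808b00c06ec22711) (.br (nat_lit 0x7000002005006007011400a0edc0e022611) k104 (.br (nat_lit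 0x1000003004005006007011802a40c06ec22711) k105 k106)) (.br (nat_lit 0x500000200300500600701160ab40c04e822711) (.br (nat_lit 0x500000100300500600701160ab40c02e422711) k107 k108) (.br (nat_lit 0x500000300400500600701180ab40c06ec22711) k109 k110))) (.br (nat_lit 0x600000300400500600701180cb80c06ec22711) (.br (nat_lit 0x600000100300500600701160cb80c02e422711) k111 (.br (nat_lit 0x600000200300500600701160cb80c04e822711) k112 k113)) (.br (nat_lit 0x700000100400500600701180ebc0c02e422711) (.br (nat_lit 0x700000100200500600701140ebc0c02e422711) k114 k115) (.br (nat_lit 0x4000001002003005006007011700a02c44f032811) k116 k117)))))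
noncomputable def u6 : KT := (.br (Nat.shiftLeft (nat_lit 0x1400004005) (nat_lit 66)) (.br (Nat.shiftLeft (nat_lit 0x500000f015) (nat_lit 64)) (.br (Nat.shiftLeft (nat_lit 0x500000f013) (nat_lit 64)) (.one (nat_lit 0x500000f012000a00001e024311)) (.br (Nat.shiftLeft (nat_lit 0x1400003c05) (nat_lit 66)) (.one (nat_lit 0x500000f013000a00001e026311)) (.one (nat_lit 0x500000f014000a00001e028311)))) (.br (Nat.shiftLeft (nat_lit 0x2800008009) (nat_lit 65)) (.br (Nat.shiftLeft (nat_lit 0x500001) (nat_lit 80)) (.one (nat_lit 0x500000f015000a00001e02a311)) (.one (nat_lit 0x5000010011000a000020022311))) (.br (Nat.shiftLeft (nat_lit 0x5000010013) (nat_lit 64)) (.one (nat_lit 0x5000010012000a000020024311)) (.one (nat_lit 0x5000010013000a000020026311))))) (.br (Nat.shiftLeft (nat_lit 0x1401) (nat_lit 90)) (.br (Nat.shiftLeft (nat_lit 0x5000011) (nat_lit 76)) (.one (nat_lit 0x5000010014000a000020028311)) (.br (Nat.shiftLeft (nat_lit 0x5000011013) (nat_lit 64)) (.one (nat_lit 0x5000011012000a000022024311)) (.one (nat_lit 0x5000011013000a000022026311))))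 (.br (Nat.shiftLeft (nat_lit 0x500600701) (nat_lit 68)) (.br (Nat.shiftLeft (nat_lit 0x500600700f) (nat_lit 64)) (.one (nat_lit 0x500600700e000a00c00e01d500)) (.one (nat_lit 0x500600700f000a00c00e01f500))) (.br (Nat.shiftLeft (nat_lit 0x5006007011) (nat_lit 64)) (.one (nat_lit 0x5006007010000a00c00e021500)) (.one (nat_lit 0x5006007011000a00c00e022540))))))
def w6 : u6.all (wj 57 s6) = true := by decide +kernel
def o6 : OkW 57 (jb2 57 fl) u6 := .lift s6 _ (.br _ _ _ (.br _ _ _ (.br _ _ _ (.br _ _ _ (.leaf b0 k91 t91) (.br _ _ _ (.leaf b0 k92 t92) (.leaf b94 k93 t93))) (.br _ _ _ (.leaf b0 k94 t94) (.br _ _ _ (.leaf b0 k95 t95) (.leaf b0 k96 t96)))) (.br _ _ _ (.br _ _ _ (.leaf b0 k97 t97) (.br _ _ _ (.leaf b0 k98 t98) (.leaf b0 k99 t99))) (.br _ _ _ (.br _ _ _ (.leaf b101 k100 t100) (.leaf b102 k101 t101)) (.br _ _ _ (.leaf b0 k102 t102) (.leaf b0 k103 t103))))) (.br _ _ _ (.br _ _ _ (.br _ _ _ (.leaf b0 k104 t104) (.br _ _ _ (.leaf b0 k105 t105) (.leaf b0 k106 t106))) (.br _ _ _ (.br _ _ _ (.leaf b108 k107 t107)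 (.leaf b109 k108 t108)) (.br _ _ _ (.leaf b0 k109 t109) (.leaf b111 k110 t110)))) (.br _ _ _ (.br _ _ _ (.leaf b112 k111 t111) (.br _ _ _ (.leaf b113 k112 t112) (.leaf b0 k113 t113))) (.br _ _ _ (.br _ _ _ (.leaf b115 k114 t114) (.leaf b116 k115 t115)) (.br _ _ _ (.leaf b0 k116 t116) (.leaf b118 k117 t117)))))) w6
noncomputable def k118 : KT := (.br (Nat.shiftLeft (nat_lit 0x1003) (nat_lit 112)) (.br (Nat.shiftLeft (nat_lit 0x3) (nat_lit 112)) (.br (Nat.shiftLeft (nat_lit 0x1) (nat_lit 112)) (.one (nat_lit 0x5006007012000a00c00e025500)) (.br (Nat.shiftLeft (nat_lit 0x1) (nat_lit 113)) (.one (nat_lit 0x1005006007012200a00c00e025600)) (.one (nat_lit 0x2005006007012400a00c00e025600)))) (.br (Nat.shiftLeft (nat_lit 0x1) (nat_lit 124)) (.br (Nat.shiftLeft (nat_lit 0x1) (nat_lit 114)) (.one (nat_lit 0x3005006007012600a00c00e025600)) (.one (nat_lit 0x4005006007012800a00c00e025600))) (.br (Nat.shiftLeft (nat_lit 0x801) (nat_lit 113)) (.one (nat_lit 0x1000005006007012000a00c02e424511)) (.one (nat_lit 0x1002005006007012400a00c02e425700)))))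 (.br (Nat.shiftLeft (nat_lit 0x801) (nat_lit 114)) (.br (Nat.shiftLeft (nat_lit 0x1) (nat_lit 125)) (.br (Nat.shiftLeft (nat_lit 0x401) (nat_lit 114)) (.one (nat_lit 0x1003005006007012600a00c02e425700)) (.one (nat_lit 0x1004005006007012800a00c02e424760))) (.br (Nat.shiftLeft (nat_lit 0x1001) (nat_lit 113)) (.one (nat_lit 0x2000005006007012000a00c04e824511)) (.one (nat_lit 0x2003005006007012600a00c04e825700)))) (.br (Nat.shiftLeft (nat_lit 0xc01) (nat_lit 114)) (.br (Nat.shiftLeft (nat_lit 0x3) (nat_lit 124)) (.one (nat_lit 0x2004005006007012800a00c04e825700)) (.one (nat_lit 0x3000005006007012000a00c06ec24511))) (.br (Nat.shiftLeft (nat_lit 0x1) (nat_lit 126)) (.one (nat_lit 0x3004005006007012800a00c06ec25700)) (.one (nat_lit 0x4000005006007012000a00c08f024511))))))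
def t118 : k118.all (jb2 57 fl b0) = true := by decide +kernel
noncomputable def k119 : KT := (.br (Nat.shiftLeft (nat_lit 0x3) (nat_lit 125)) (.one (nat_lit 0x5000005006007012000a00c0af424511)) (.one (nat_lit 0x6000005006007012000a00c0cf824511)))
def t119 : k119.all (jb2 57 fl b0) = true := by decide +kernel
noncomputable def k120 : KT := (.br (Nat.shiftLeft (nat_lit 0x800001) (nat_lit 113)) (.br (Nat.shiftLeft (nat_lit 0x1) (nat_lit 136)) (.one (nat_lit 0x7000005006007012000a00c0efc24511)) (.one (nat_lit 0x1000001005006007012200a02c40e024611))) (.br (Nat.shiftLeft (nat_lit 0x1000003) (nat_lit 112)) (.one (nat_lit 0x1000002005006007012400a02c40e024611)) (.br (Nat.shiftLeft (nat_lit 0x400001) (nat_lit 114)) (.one (nat_lit 0x1000003005006007012600a02c40e024611)) (.one (nat_lit 0x1000004005006007012800a02c40e024611)))))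
def t120 : k120.all (jb2 57 fl b0) = true := by decide +kernel
noncomputable def k121 : KT := (.one (nat_lit 0x1002003005006007012600a02c44e824870))
noncomputable def b122 : BT := .node (nat_lit 0x1) (nat_lit 0xde12b9a58c003396000ab6410008800028) .leaf .leaf
def t121 : k121.all (jb2 57 fl b122) = true := by decide +kernel
noncomputable def k122 : KT := (.br (Nat.shiftLeft (nat_lit 0x1000001) (nat_lit 113)) (.br (Nat.shiftLeft (nat_lit 0x1003) (nat_lit 124)) (.one (nat_lit 0x1002004005006007012800a02c44e824870)) (.br (Nat.shiftLeft (nat_lit 0x1) (nat_lit 137)) (.one (nat_lit 0x1003004005006007012800a02c46ec24870)) (.one (nat_lit 0x2000001005006007012200a04c80e024611)))) (.br (Nat.shiftLeft (nat_lit 0x2000003) (nat_lit 112)) (.one (nat_lit 0x2000002005006007012400a04c80e024611)) (.br (Nat.shiftLeft (nat_lit 0x800001) (nat_lit 114)) (.one (nat_lit 0x2000003005006007012600a04c80e024611)) (.one (nat_lit 0x2000004005006007012800a04c80e024611)))))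
def t122 : k122.all (jb2 57 fl b0) = true := by decide +kernel
noncomputable def k123 : KT := (.br (Nat.shiftLeft (nat_lit 0xc00001) (nat_lit 114)) (.br (Nat.shiftLeft (nat_lit 0x1800001) (nat_lit 113)) (.br (Nat.shiftLeft (nat_lit 0x3) (nat_lit 136)) (.one (nat_lit 0x2003004005006007012800a04c86ec24870)) (.one (nat_lit 0x3000001005006007012200a06cc0e024611))) (.br (Nat.shiftLeft (nat_lit 0x3000003) (nat_lit 112)) (.one (nat_lit 0x3000002005006007012400a06cc0e024611)) (.one (nat_lit 0x3000003005006007012600a06cc0e024611)))) (.br (Nat.shiftLeft (nat_lit 0x2000001) (nat_lit 113)) (.br (Nat.shiftLeft (nat_lit 0x1) (nat_lit 138)) (.one (nat_lit 0x3000004005006007012800a06cc0e024611)) (.one (nat_lit 0x4000001005006007012200a08d00e024611))) (.br (Nat.shiftLeft (nat_lit 0x4000003) (nat_lit 112)) (.one (nat_lit 0x4000002005006007012400a08d00e024611)) (.br (Nat.shiftLeft (nat_lit 0x1000001) (nat_lit 114)) (.one (nat_lit 0x4000003005006007012600a08d00e024611)) (.one (nat_lit 0x4000004005006007012800a08d00e024611))))))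
def t123 : k123.all (jb2 57 fl b0) = true := by decide +kernel
noncomputable def k124 : KT := (.br (Nat.shiftLeft (nat_lit 0x2800001) (nat_lit 113)) (.one (nat_lit 0x5000001005006007012200a0ad40e024611)) (.one (nat_lit 0x5000002005006007012400a0ad40e024611)))
def t124 : k124.all (jb2 57 fl b0) = true := by decide +kernel
noncomputable def k125 : KT := (.br (Nat.shiftLeft (nat_lit 0x1400001) (nat_lit 114)) (.one (nat_lit 0x5000003005006007012600a0ad40e024611)) (.one (nat_lit 0x5000004005006007012800a0ad40e024611)))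
def t125 : k125.all (jb2 57 fl b0) = true := by decide +kernel
noncomputable def k126 : KT := (.one (nat_lit 0x6000001005006007012200a0cd80e024611))
def t126 : k126.all (jb2 57 fl b0) = true := by decide +kernel
noncomputable def k127 : KT := (.one (nat_lit 0x6000002005006007012400a0cd80e024611))
def t127 : k127.all (jb2 57 fl b0) = true := by decide +kernel
noncomputable def k128 : KT := (.br (Nat.shiftLeft (nat_lit 0x1800001) (nat_lit 114)) (.one (nat_lit 0x6000003005006007012600a0cd80e024611)) (.one (nat_lit 0x6000004005006007012800a0cd80e024611)))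
noncomputable def b129 : BT := .node (nat_lit 0x1) (nat_lit 0xdb328b258c003318000ac6010008800028) .leaf .leaf
def t128 : k128.all (jb2 57 fl b129) = true := by decide +kernel
noncomputable def k129 : KT := (.one (nat_lit 0x7000001005006007012200a0edc0e024611))
def t129 : k129.all (jb2 57 fl b0) = true := by decide +kernel
noncomputable def k130 : KT := (.one (nat_lit 0x7000002005006007012400a0edc0e024611))
def t130 : k130.all (jb2 57 fl b0) = true := by decide +kernel
noncomputable def k131 : KT := (.br (Nat.shiftLeft (nat_lit 0x1000001) (nat_lit 125)) (.br (Nat.shiftLeft (nat_lit 0x800001) (nat_lit 125)) (.br (Nat.shiftLeft (nat_lit 0x1) (nat_lit 148)) (.br (Nat.shiftLeft (nat_lit 0x1c00001) (nat_lit 114)) (.one (nat_lit 0x7000003005006007012600a0edc0e024611)) (.one (nat_lit 0x7000004005006007012800a0edc0e024611))) (.br (Nat.shiftLeft (nat_lit 0x1000001003) (nat_lit 112)) (.one (nat_lit 0x1000001002005006007012402a40c02e424711)) (.one (nat_lit 0x1000001003005006007012602a40c02e424711)))) (.br (Nat.shiftLeft (nat_lit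 0x1000003) (nat_lit 124)) (.br (Nat.shiftLeft (nat_lit 0x400000801) (nat_lit 114)) (.one (nat_lit 0x1000002003005006007012602a40c04e824711)) (.one (nat_lit 0x1000002004005006007012802a40c04e824711))) (.br (Nat.shiftLeft (nat_lit 0x1) (nat_lit 149)) (.one (nat_lit 0x1000003004005006007012802a40c06ec24711)) (.br (Nat.shiftLeft (nat_lit 0x2000001003) (nat_lit 112)) (.one (nat_lit 0x2000001002005006007012404a80c02e424711)) (.one (nat_lit 0x2000001003005006007012604a80c02e424711)))))) (.br (Nat.shiftLeft (nat_lit 0x3000001003) (nat_lit 112)) (.br (Nat.shiftLeft (nat_lit 0x2000003) (nat_lit 124)) (.br (Nat.shiftLeft (nat_lit 0x800000801) (nat_lit 114)) (.one (nat_lit 0x2000002003005006007012604a80c04e824711)) (.one (nat_lit 0x2000002004005006007012804a80c04e824711))) (.br (Nat.shiftLeft (nat_lit 0x3) (nat_lit 148)) (.one (nat_lit 0x2000003004005006007012804a80c06ec24711)) (.one (nat_lit 0x3000001002005006007012406ac0c02e424711)))) (.br (Nat.shiftLeft (nat_lit 0xc00000801) (nat_lit 114)) (.br (Nat.shiftLeft (nat_lit 0x1800001)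 (nat_lit 125)) (.one (nat_lit 0x3000001003005006007012606ac0c02e424711)) (.one (nat_lit 0x3000002003005006007012606ac0c04e824711))) (.br (Nat.shiftLeft (nat_lit 0x3000003) (nat_lit 124)) (.one (nat_lit 0x3000002004005006007012806ac0c04e824711)) (.br (Nat.shiftLeft (nat_lit 0x1) (nat_lit 150)) (.one (nat_lit 0x3000003004005006007012806ac0c06ec24711)) (.one (nat_lit 0x4000001002005006007012408b00c02e424711)))))))
def t131 : k131.all (jb2 57 fl b0) = true := by decide +kernel
noncomputable def k132 : KT := (.br (Nat.shiftLeft (nat_lit 0x1000000801) (nat_lit 114)) (.br (Nat.shiftLeft (nat_lit 0x2000001) (nat_lit 125)) (.one (nat_lit 0x4000001003005006007012608b00c02e424711)) (.one (nat_lit 0x4000002003005006007012608b00c04e824711))) (.br (Nat.shiftLeft (nat_lit 0x4000003) (nat_lit 124)) (.one (nat_lit 0x4000002004005006007012808b00c04e824711)) (.br (Nat.shiftLeft (nat_lit 0x5) (nat_lit 148)) (.one (nat_lit 0x4000003004005006007012808b00c06ec24711)) (.one (nat_lit 0x500000100200500600701240ab40c02e424711)))))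
def t132 : k132.all (jb2 57 fl b0) = true := by decide +kernel
noncomputable def k133 : KT := (.br (Nat.shiftLeft (nat_lit 0x2800001) (nat_lit 125)) (.one (nat_lit 0x500000100300500600701260ab40c02e424711)) (.br (Nat.shiftLeft (nat_lit 0x1400000801) (nat_lit 114)) (.one (nat_lit 0x500000200300500600701260ab40c04e824711)) (.one (nat_lit 0x500000200400500600701280ab40c04e824711))))
noncomputable def b134 : BT := .node (nat_lit 0xb) (nat_lit 0xde14b19510003299000ad6419632a224d0003395000ca641001b0001b0001b0001b0001b0001b0001b0001b0001500015000150000f0) .leaf .leaf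
def t133 : k133.all (jb2 57 fl b134) = true := by decide +kernel
noncomputable def k134 : KT := (.br (Nat.shiftLeft (nat_lit 0x3) (nat_lit 149)) (.one (nat_lit 0x500000300400500600701280ab40c06ec24711)) (.one (nat_lit 0x600000100200500600701240cb80c02e424711)))
def t134 : k134.all (jb2 57 fl b0) = true := by decide +kernel
noncomputable def k135 : KT := (.br (Nat.shiftLeft (nat_lit 0x3000001) (nat_lit 125)) (.one (nat_lit 0x600000100300500600701260cb80c02e424711)) (.br (Nat.shiftLeft (nat_lit 0x1800000801) (nat_lit 114)) (.one (nat_lit 0x600000200300500600701260cb80c04e824711)) (.one (nat_lit 0x600000200400500600701280cb80c04e824711))))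
noncomputable def b136 : BT := .node (nat_lit 0x1) (nat_lit 0x96349aa58c003a59000cb6010008800028) .leaf .leaf
def t135 : k135.all (jb2 57 fl b136) = true := by decide +kernel
noncomputable def k136 : KT := (.br (Nat.shiftLeft (nat_lit 0x7) (nat_lit 148)) (.one (nat_lit 0x600000300400500600701280cb80c06ec24711)) (.br (Nat.shiftLeft (nat_lit 0x7000001003) (nat_lit 112)) (.one (nat_lit 0x700000100200500600701240ebc0c02e424711)) (.one (nat_lit 0x700000100300500600701260ebc0c02e424711))))
def t136 : k136.all (jb2 57 fl b0) = true := by decide +kernel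
noncomputable def k137 : KT := (.br (Nat.shiftLeft (nat_lit 0x1c00000801) (nat_lit 114)) (.one (nat_lit 0x700000200300500600701260ebc0c04e824711)) (.br (Nat.shiftLeft (nat_lit 0x7000003) (nat_lit 124)) (.one (nat_lit 0x700000200400500600701280ebc0c04e824711)) (.one (nat_lit 0x700000300400500600701280ebc0c06ec24711))))
def t137 : k137.all (jb2 57 fl b0) = true := by decide +kernel
noncomputable def s7 : KT := (.br (nat_lit 0x6000002005006007012400a0cd80e024611) (.br (nat_lit 0x2000004005006007012800a04c80e024611) (.br (nat_lit 0x6000005006007012000a00c0cf824511) (.br (nat_lit 0x4000005006007012000a00c08f024511) k118 k119) (.br (nat_lit 0x1000004005006007012800a02c40e024611) k120 (.br (nat_lit 0x1002003005006007012600a02c44e824870) k121 k122))) (.br (nat_lit 0x5000002005006007012400a0ad40e024611) (.br (nat_lit 0x4000004005006007012800a08d00e024611) k123 k124) (.br (nat_lit 0x5000004005006007012800a0ad40e024611) k125 (.br (nat_lit 0x6000001005006007012200a0cd80e024611) k126 k127)))) (.br (nat_lit 0x500000100200500600701240ab40c02e424711)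 (.br (nat_lit 0x7000001005006007012200a0edc0e024611) (.br (nat_lit 0x6000004005006007012800a0cd80e024611) k128 k129) (.br (nat_lit 0x7000002005006007012400a0edc0e024611) k130 (.br (nat_lit 0x4000001002005006007012408b00c02e424711) k131 k132))) (.br (nat_lit 0x600000100200500600701240cb80c02e424711) (.br (nat_lit 0x500000200400500600701280ab40c04e824711) k133 k134) (.br (nat_lit 0x600000200400500600701280cb80c04e824711) k135 (.br (nat_lit 0x700000100300500600701260ebc0c02e424711) k136 k137)))))
noncomputable def u7 : KT := (.one (nat_lit 0x5006007012000a00c00e024540))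
def w7 : u7.all (wj 57 s7) = true := by decide +kernel
def o7 : OkW 57 (jb2 57 fl) u7 := .lift s7 _ (.br _ _ _ (.br _ _ _ (.br _ _ _ (.br _ _ _ (.leaf b0 k118 t118) (.leaf b0 k119 t119)) (.br _ _ _ (.leaf b0 k120 t120) (.br _ _ _ (.leaf b122 k121 t121) (.leaf b0 k122 t122)))) (.br _ _ _ (.br _ _ _ (.leaf b0 k123 t123) (.leaf b0 k124 t124)) (.br _ _ _ (.leaf b0 k125 t125) (.br _ _ _ (.leaf b0 k126 t126) (.leaf b0 k127 t127))))) (.br _ _ _ (.br _ _ _ (.br _ _ _ (.leaf b129 k128 t128) (.leaf b0 k129 t129)) (.br _ _ _ (.leaf b0 k130 t130) (.br _ _ _ (.leaf b0 k131 t131) (.leaf b0 k132 t132)))) (.br _ _ _ (.br _ _ _ (.leaf b134 k133 t133) (.leaf b0 k134 t134)) (.br _ _ _ (.leaf b136 k135 t135) (.br _ _ _ (.leaf b0 k136 t136) (.leaf b0 k137 t137)))))) w7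
noncomputable def k138 : KT := (.br (Nat.shiftLeft (nat_lit 0x1) (nat_lit 114)) (.br (Nat.shiftLeft (nat_lit 0x1) (nat_lit 113)) (.br (Nat.shiftLeft (nat_lit 0x1) (nat_lit 112)) (.one (nat_lit 0x5006007013000a00c00e027500)) (.one (nat_lit 0x1005006007013200a00c00e027600))) (.br (Nat.shiftLeft (nat_lit 0x3) (nat_lit 112)) (.one (nat_lit 0x2005006007013400a00c00e027600)) (.one (nat_lit 0x3005006007013600a00c00e027600)))) (.br (Nat.shiftLeft (nat_lit 0x801) (nat_lit 113)) (.br (Nat.shiftLeft (nat_lit 0x1) (nat_lit 124)) (.one (nat_lit 0x4005006007013800a00c00e027600)) (.one (nat_lit 0x1000005006007013000a00c02e426511))) (.br (Nat.shiftLeft (nat_lit 0x1003) (nat_lit 112)) (.one (nat_lit 0x1002005006007013400a00c02e427700)) (.one (nat_lit 0x1003005006007013600a00c02e426760)))))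
def t138 : k138.all (jb2 57 fl b0) = true := by decide +kernel
noncomputable def k139 : KT := (.br (Nat.shiftLeft (nat_lit 0x1) (nat_lit 125)) (.one (nat_lit 0x1004005006007013800a00c02e426760)) (.br (Nat.shiftLeft (nat_lit 0x1001) (nat_lit 113)) (.one (nat_lit 0x2000005006007013000a00c04e826511)) (.one (nat_lit 0x2003005006007013600a00c04e827700))))
def t139 : k139.all (jb2 57 fl b0) = true := by decide +kernel
noncomputable def k140 : KT := (.br (Nat.shiftLeft (nat_lit 0x3) (nat_lit 124)) (.one (nat_lit 0x2004005006007013800a00c04e826760)) (.one (nat_lit 0x3000005006007013000a00c06ec26511)))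
def t140 : k140.all (jb2 57 fl b0) = true := by decide +kernel
noncomputable def k141 : KT := (.one (nat_lit 0x3004005006007013800a00c06ec26760))
def t141 : k141.all (jb2 57 fl b0) = true := by decide +kernel
noncomputable def k142 : KT := (.br (Nat.shiftLeft (nat_lit 0x1) (nat_lit 136)) (.br (Nat.shiftLeft (nat_lit 0x3) (nat_lit 125)) (.br (Nat.shiftLeft (nat_lit 0x5) (nat_lit 124)) (.one (nat_lit 0x4000005006007013000a00c08f026511)) (.one (nat_lit 0x5000005006007013000a00c0af426511))) (.br (Nat.shiftLeft (nat_lit 0x7) (nat_lit 124)) (.one (nat_lit 0x6000005006007013000a00c0cf826511)) (.one (nat_lit 0x7000005006007013000a00c0efc26511)))) (.br (Nat.shiftLeft (nat_lit 0x1000003) (nat_lit 112)) (.br (Nat.shiftLeft (nat_lit 0x800001) (nat_lit 113)) (.one (nat_lit 0x1000001005006007013200a02c40e026611)) (.one (nat_lit 0x1000002005006007013400a02c40e026611))) (.br (Nat.shiftLeft (nat_lit 0x400001) (nat_lit 114)) (.one (nat_lit 0x1000003005006007013600a02c40e026611)) (.one (nat_lit 0x1000004005006007013800a02c40e026611)))))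
def t142 : k142.all (jb2 57 fl b0) = true := by decide +kernel
noncomputable def k143 : KT := (.br (Nat.shiftLeft (nat_lit 0x1800001) (nat_lit 113)) (.br (Nat.shiftLeft (nat_lit 0x2000003) (nat_lit 112)) (.br (Nat.shiftLeft (nat_lit 0x1) (nat_lit 137)) (.one (nat_lit 0x1002003005006007013600a02c44e826870)) (.br (Nat.shiftLeft (nat_lit 0x1000001) (nat_lit 113)) (.one (nat_lit 0x2000001005006007013200a04c80e026611)) (.one (nat_lit 0x2000002005006007013400a04c80e026611)))) (.br (Nat.shiftLeft (nat_lit 0x800001) (nat_lit 114)) (.one (nat_lit 0x2000003005006007013600a04c80e026611)) (.br (Nat.shiftLeft (nat_lit 0x3) (nat_lit 136)) (.one (nat_lit 0x2000004005006007013800a04c80e026611)) (.one (nat_lit 0x3000001005006007013200a06cc0e026611))))) (.br (Nat.shiftLeft (nat_lit 0x1) (nat_lit 138)) (.br (Nat.shiftLeft (nat_lit 0x3000003) (nat_lit 112)) (.one (nat_lit 0x3000002005006007013400a06cc0e026611)) (.br (Nat.shiftLeft (nat_lit 0xc00001) (nat_lit 114)) (.one (nat_lit 0x3000003005006007013600a06cc0e026611)) (.one (nat_lit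 0x3000004005006007013800a06cc0e026611)))) (.br (Nat.shiftLeft (nat_lit 0x2000001) (nat_lit 113)) (.one (nat_lit 0x4000001005006007013200a08d00e026611)) (.br (Nat.shiftLeft (nat_lit 0x4000003) (nat_lit 112)) (.one (nat_lit 0x4000002005006007013400a08d00e026611)) (.one (nat_lit 0x4000003005006007013600a08d00e026611))))))
def t143 : k143.all (jb2 57 fl b0) = true := by decide +kernel
noncomputable def k144 : KT := (.br (Nat.shiftLeft (nat_lit 0x5) (nat_lit 136)) (.one (nat_lit 0x4000004005006007013800a08d00e026611)) (.br (Nat.shiftLeft (nat_lit 0x2800001) (nat_lit 113)) (.one (nat_lit 0x5000001005006007013200a0ad40e026611)) (.one (nat_lit 0x5000002005006007013400a0ad40e026611))))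
def t144 : k144.all (jb2 57 fl b0) = true := by decide +kernel
noncomputable def k145 : KT := (.br (Nat.shiftLeft (nat_lit 0x1400001) (nat_lit 114)) (.one (nat_lit 0x5000003005006007013600a0ad40e026611)) (.one (nat_lit 0x5000004005006007013800a0ad40e026611)))
def t145 : k145.all (jb2 57 fl b0) = true := by decide +kernel
noncomputable def k146 : KT := (.br (Nat.shiftLeft (nat_lit 0x3000001) (nat_lit 113)) (.one (nat_lit 0x6000001005006007013200a0cd80e026611)) (.one (nat_lit 0x6000002005006007013400a0cd80e026611)))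
def t146 : k146.all (jb2 57 fl b0) = true := by decide +kernel
noncomputable def k147 : KT := (.br (Nat.shiftLeft (nat_lit 0x1800001) (nat_lit 114)) (.one (nat_lit 0x6000003005006007013600a0cd80e026611)) (.one (nat_lit 0x6000004005006007013800a0cd80e026611)))
def t147 : k147.all (jb2 57 fl b0) = true := by decide +kernel
noncomputable def k148 : KT := (.br (Nat.shiftLeft (nat_lit 0x3800001) (nat_lit 113)) (.one (nat_lit 0x7000001005006007013200a0edc0e026611)) (.one (nat_lit 0x7000002005006007013400a0edc0e026611)))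
def t148 : k148.all (jb2 57 fl b0) = true := by decide +kernel
noncomputable def k149 : KT := (.br (Nat.shiftLeft (nat_lit 0x1000001) (nat_lit 125)) (.br (Nat.shiftLeft (nat_lit 0x1) (nat_lit 148)) (.br (Nat.shiftLeft (nat_lit 0x1c00001) (nat_lit 114)) (.one (nat_lit 0x7000003005006007013600a0edc0e026611)) (.one (nat_lit 0x7000004005006007013800a0edc0e026611))) (.br (Nat.shiftLeft (nat_lit 0x800001) (nat_lit 125)) (.one (nat_lit 0x1000001002005006007013402a40c02e426711)) (.br (Nat.shiftLeft (nat_lit 0x1) (nat_lit 149)) (.one (nat_lit 0x1000002003005006007013602a40c04e826711)) (.one (nat_lit 0x2000001002005006007013404a80c02e426711))))) (.br (Nat.shiftLeft (nat_lit 0x1800001) (nat_lit 125)) (.br (Nat.shiftLeft (nat_lit 0x3) (nat_lit 148)) (.one (nat_lit 0x2000002003005006007013604a80c04e826711)) (.one (nat_lit 0x3000001002005006007013406ac0c02e426711))) (.br (Nat.shiftLeft (nat_lit 0x1) (nat_lit 150)) (.one (nat_lit 0x3000002003005006007013606ac0c04e826711)) (.br (Nat.shiftLeft (nat_lit 0x2000001) (nat_lit 125)) (.one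 (nat_lit 0x4000001002005006007013408b00c02e426711)) (.one (nat_lit 0x4000002003005006007013608b00c04e826711))))))
def t149 : k149.all (jb2 57 fl b0) = true := by decide +kernel
noncomputable def k150 : KT := (.br (Nat.shiftLeft (nat_lit 0x2800001) (nat_lit 125)) (.one (nat_lit 0x500000100200500600701340ab40c02e426711)) (.br (Nat.shiftLeft (nat_lit 0x3) (nat_lit 149)) (.one (nat_lit 0x500000200300500600701360ab40c04e826711)) (.one (nat_lit 0x600000100200500600701340cb80c02e426711))))
def t150 : k150.all (jb2 57 fl b0) = true := by decide +kernel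
noncomputable def k151 : KT := (.br (Nat.shiftLeft (nat_lit 0x7) (nat_lit 148)) (.one (nat_lit 0x600000200300500600701360cb80c04e826711)) (.br (Nat.shiftLeft (nat_lit 0x3800001) (nat_lit 125)) (.one (nat_lit 0x700000100200500600701340ebc0c02e426711)) (.one (nat_lit 0x700000200300500600701360ebc0c04e826711))))
def t151 : k151.all (jb2 57 fl b0) = true := by decide +kernel
noncomputable def s8 : KT := (.br (nat_lit 0x5000002005006007013400a0ad40e026611) (.br (nat_lit 0x3000005006007013000a00c06ec26511) (.br (nat_lit 0x1003005006007013600a00c02e426760) k138 (.br (nat_lit 0x2003005006007013600a00c04e827700) k139 k140)) (.br (nat_lit 0x1000004005006007013800a02c40e026611) (.br (nat_lit 0x3004005006007013800a00c06ec26760) k141 k142) (.br (nat_lit 0x4000003005006007013600a08d00e026611) k143 k144))) (.br (nat_lit 0x6000004005006007013800a0cd80e026611) (.br (nat_lit 0x5000004005006007013800a0ad40e026611) k145 (.br (nat_lit 0x6000002005006007013400a0cd80e026611) k146 k147)) (.br (nat_lit 0x4000002003005006007013608b00c04e826711)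 (.br (nat_lit 0x7000002005006007013400a0edc0e026611) k148 k149) (.br (nat_lit 0x600000100200500600701340cb80c02e426711) k150 k151))))
noncomputable def u8 : KT := (.one (nat_lit 0x5006007013000a00c00e026540))
def w8 : u8.all (wj 57 s8) = true := by decide +kernel
def o8 : OkW 57 (jb2 57 fl) u8 := .lift s8 _ (.br _ _ _ (.br _ _ _ (.br _ _ _ (.leaf b0 k138 t138) (.br _ _ _ (.leaf b0 k139 t139) (.leaf b0 k140 t140))) (.br _ _ _ (.br _ _ _ (.leaf b0 k141 t141) (.leaf b0 k142 t142)) (.br _ _ _ (.leaf b0 k143 t143) (.leaf b0 k144 t144)))) (.br _ _ _ (.br _ _ _ (.leaf b0 k145 t145) (.br _ _ _ (.leaf b0 k146 t146) (.leaf b0 k147 t147))) (.br _ _ _ (.br _ _ _ (.leaf b0 k148 t148) (.leaf b0 k149 t149)) (.br _ _ _ (.leaf b0 k150 t150) (.leaf b0 k151 t151))))) w8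
noncomputable def k152 : KT := (.br (Nat.shiftLeft (nat_lit 0x1005006007015) (nat_lit 64)) (.br (Nat.shiftLeft (nat_lit 0x500600800f) (nat_lit 64)) (.br (Nat.shiftLeft (nat_lit 0xa00c01) (nat_lit 79)) (.br (Nat.shiftLeft (nat_lit 0x5006007015) (nat_lit 64)) (.one (nat_lit 0x5006007014000a00c00e029500)) (.one (nat_lit 0x5006007015000a00c00e02b500))) (.br (Nat.shiftLeft (nat_lit 0x2803004007) (nat_lit 65)) (.one (nat_lit 0x500600800d000a00c01001b500)) (.one (nat_lit 0x500600800e000a00c01001d500)))) (.br (Nat.shiftLeft (nat_lit 0x5006008011) (nat_lit 64)) (.br (Nat.shiftLeft (nat_lit 0x500600801) (nat_lit 68)) (.one (nat_lit 0x500600800f000a00c01001f500)) (.one (nat_lit 0x5006008010000a00c010021500))) (.br (Nat.shiftLeft (nat_lit 0x1) (nat_lit 112)) (.one (nat_lit 0x5006008011000a00c010023500)) (.one (nat_lit 0x1005006007014200a00c00e029600))))) (.br (Nat.shiftLeft (nat_lit 0x3005006007015) (nat_lit 64)) (.br (Nat.shiftLeft (nat_lit 0x2005006007015) (nat_lit 64)) (.br (Nat.shiftLeft (nat_lit 0x1) (nat_lit 113)) (.one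 (nat_lit 0x1005006007015200a00c00e02a650)) (.one (nat_lit 0x2005006007014400a00c00e029600))) (.br (Nat.shiftLeft (nat_lit 0x3) (nat_lit 112)) (.one (nat_lit 0x2005006007015400a00c00e02b600)) (.one (nat_lit 0x3005006007014600a00c00e029600)))) (.br (Nat.shiftLeft (nat_lit 0x4005006007015) (nat_lit 64)) (.br (Nat.shiftLeft (nat_lit 0x1) (nat_lit 114)) (.one (nat_lit 0x3005006007015600a00c00e02b600)) (.one (nat_lit 0x4005006007014800a00c00e029600))) (.br (Nat.shiftLeft (nat_lit 0x1) (nat_lit 124)) (.one (nat_lit 0x4005006007015800a00c00e02b600)) (.br (Nat.shiftLeft (nat_lit 0x1000005006007015) (nat_lit 64)) (.one (nat_lit 0x1000005006007014000a00c02e428511)) (.one (nat_lit 0x1000005006007015000a00c02e42a511)))))))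
def t152 : k152.all (jb2 57 fl b0) = true := by decide +kernel
noncomputable def k153 : KT := (.one (nat_lit 0x1002005006007014400a00c02e428760))
def t153 : k153.all (jb2 57 fl b0) = true := by decide +kernel
noncomputable def k154 : KT := (.one (nat_lit 0x1002005006007015400a00c02e42a760))
def t154 : k154.all (jb2 57 fl b0) = true := by decide +kernel
noncomputable def k155 : KT := (.one (nat_lit 0x1003005006007014600a00c02e428760))
def t155 : k155.all (jb2 57 fl b0) = true := by decide +kernel
noncomputable def k156 : KT := (.br (Nat.shiftLeft (nat_lit 0x401) (nat_lit 114)) (.one (nat_lit 0x1003005006007015600a00c02e42a760)) (.one (nat_lit 0x1004005006007014800a00c02e428760)))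
def t156 : k156.all (jb2 57 fl b0) = true := by decide +kernel
noncomputable def k157 : KT := (.br (Nat.shiftLeft (nat_lit 0x1) (nat_lit 125)) (.one (nat_lit 0x1004005006007015800a00c02e42a760)) (.br (Nat.shiftLeft (nat_lit 0x2000005006007015) (nat_lit 64)) (.one (nat_lit 0x2000005006007014000a00c04e828511)) (.one (nat_lit 0x2000005006007015000a00c04e82a511))))
def t157 : k157.all (jb2 57 fl b0) = true := by decide +kernel
noncomputable def k158 : KT := (.one (nat_lit 0x2003005006007014600a00c04e828760))
def t158 : k158.all (jb2 57 fl b0) = true := by decide +kernel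
noncomputable def k159 : KT := (.one (nat_lit 0x2003005006007015600a00c04e82a760))
def t159 : k159.all (jb2 57 fl b0) = true := by decide +kernel
noncomputable def k160 : KT := (.one (nat_lit 0x2004005006007014800a00c04e828760))
def t160 : k160.all (jb2 57 fl b0) = true := by decide +kernel
noncomputable def k161 : KT := (.br (Nat.shiftLeft (nat_lit 0x3) (nat_lit 124)) (.one (nat_lit 0x2004005006007015800a00c04e82a760)) (.br (Nat.shiftLeft (nat_lit 0x3000005006007015) (nat_lit 64)) (.one (nat_lit 0x3000005006007014000a00c06ec28511)) (.one (nat_lit 0x3000005006007015000a00c06ec2a511))))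
def t161 : k161.all (jb2 57 fl b0) = true := by decide +kernel
noncomputable def k162 : KT := (.one (nat_lit 0x3004005006007014800a00c06ec28760))
def t162 : k162.all (jb2 57 fl b0) = true := by decide +kernel
noncomputable def k163 : KT := (.br (Nat.shiftLeft (nat_lit 0x4000005006007015) (nat_lit 64)) (.br (Nat.shiftLeft (nat_lit 0x1) (nat_lit 126)) (.one (nat_lit 0x3004005006007015800a00c06ec2a760)) (.one (nat_lit 0x4000005006007014000a00c08f028511))) (.br (Nat.shiftLeft (nat_lit 0x5) (nat_lit 124)) (.one (nat_lit 0x4000005006007015000a00c08f02a511)) (.br (Nat.shiftLeft (nat_lit 0x5000005006007015) (nat_lit 64)) (.one (nat_lit 0x5000005006007014000a00c0af428511)) (.one (nat_lit 0x5000005006007015000a00c0af42a511)))))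
def t163 : k163.all (jb2 57 fl b0) = true := by decide +kernel
noncomputable def k164 : KT := (.br (Nat.shiftLeft (nat_lit 0x6000005006007015) (nat_lit 64)) (.one (nat_lit 0x6000005006007014000a00c0cf828511)) (.br (Nat.shiftLeft (nat_lit 0x7) (nat_lit 124)) (.one (nat_lit 0x6000005006007015000a00c0cf82a511)) (.one (nat_lit 0x7000005006007014000a00c0efc28511))))
def t164 : k164.all (jb2 57 fl b0) = true := by decide +kernel
noncomputable def k165 : KT := (.br (Nat.shiftLeft (nat_lit 0x800001) (nat_lit 114)) (.br (Nat.shiftLeft (nat_lit 0x400001) (nat_lit 114)) (.br (Nat.shiftLeft (nat_lit 0x1000002005006007015) (nat_lit 64)) (.br (Nat.shiftLeft (nat_lit 0x1) (nat_lit 136)) (.one (nat_lit 0x7000005006007015000a00c0efc2a511)) (.br (Nat.shiftLeft (nat_lit 0x800001) (nat_lit 113)) (.one (nat_lit 0x1000001005006007014200a02c40e028611)) (.one (nat_lit 0x1000002005006007014400a02c40e028611)))) (.br (Nat.shiftLeft (nat_lit 0x1000003) (nat_lit 112)) (.one (nat_lit 0x1000002005006007015400a02c40e02a611)) (.br (Nat.shiftLeft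 (nat_lit 0x1000003005006007015) (nat_lit 64)) (.one (nat_lit 0x1000003005006007014600a02c40e028611)) (.one (nat_lit 0x1000003005006007015600a02c40e02a611))))) (.br (Nat.shiftLeft (nat_lit 0x1000001) (nat_lit 113)) (.br (Nat.shiftLeft (nat_lit 0x1000004005006007015) (nat_lit 64)) (.one (nat_lit 0x1000004005006007014800a02c40e028611)) (.br (Nat.shiftLeft (nat_lit 0x1) (nat_lit 137)) (.one (nat_lit 0x1000004005006007015800a02c40e02a611)) (.one (nat_lit 0x2000001005006007014200a04c80e028611)))) (.br (Nat.shiftLeft (nat_lit 0x2000003) (nat_lit 112)) (.br (Nat.shiftLeft (nat_lit 0x2000002005006007015) (nat_lit 64)) (.one (nat_lit 0x2000002005006007014400a04c80e028611)) (.one (nat_lit 0x2000002005006007015400a04c80e02a611))) (.br (Nat.shiftLeft (nat_lit 0x2000003005006007015) (nat_lit 64)) (.one (nat_lit 0x2000003005006007014600a04c80e028611)) (.one (nat_lit 0x2000003005006007015600a04c80e02a611)))))) (.br (Nat.shiftLeft (nat_lit 0xc00001) (nat_lit 114)) (.br (Nat.shiftLeft (nat_lit 0x1800001) (nat_lit 113)) (.br (Nat.shiftLeft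 (nat_lit 0x2000004005006007015) (nat_lit 64)) (.one (nat_lit 0x2000004005006007014800a04c80e028611)) (.br (Nat.shiftLeft (nat_lit 0x3) (nat_lit 136)) (.one (nat_lit 0x2000004005006007015800a04c80e02a611)) (.one (nat_lit 0x3000001005006007014200a06cc0e028611)))) (.br (Nat.shiftLeft (nat_lit 0x3000003) (nat_lit 112)) (.br (Nat.shiftLeft (nat_lit 0x3000002005006007015) (nat_lit 64)) (.one (nat_lit 0x3000002005006007014400a06cc0e028611)) (.one (nat_lit 0x3000002005006007015400a06cc0e02a611))) (.br (Nat.shiftLeft (nat_lit 0x3000003005006007015) (nat_lit 64)) (.one (nat_lit 0x3000003005006007014600a06cc0e028611)) (.one (nat_lit 0x3000003005006007015600a06cc0e02a611))))) (.br (Nat.shiftLeft (nat_lit 0x2000001) (nat_lit 113)) (.br (Nat.shiftLeft (nat_lit 0x3000004005006007015) (nat_lit 64)) (.one (nat_lit 0x3000004005006007014800a06cc0e028611)) (.br (Nat.shiftLeft (nat_lit 0x1) (nat_lit 138)) (.one (nat_lit 0x3000004005006007015800a06cc0e02a611)) (.one (nat_lit 0x4000001005006007014200a08d00e028611)))) (.br (Nat.shiftLeft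 (nat_lit 0x4000003) (nat_lit 112)) (.br (Nat.shiftLeft (nat_lit 0x4000002005006007015) (nat_lit 64)) (.one (nat_lit 0x4000002005006007014400a08d00e028611)) (.one (nat_lit 0x4000002005006007015400a08d00e02a611))) (.br (Nat.shiftLeft (nat_lit 0x4000003005006007015) (nat_lit 64)) (.one (nat_lit 0x4000003005006007014600a08d00e028611)) (.one (nat_lit 0x4000003005006007015600a08d00e02a611)))))))
def t165 : k165.all (jb2 57 fl b0) = true := by decide +kernel
noncomputable def k166 : KT := (.br (Nat.shiftLeft (nat_lit 0x5) (nat_lit 136)) (.br (Nat.shiftLeft (nat_lit 0x4000004005006007015) (nat_lit 64)) (.one (nat_lit 0x4000004005006007014800a08d00e028611)) (.one (nat_lit 0x4000004005006007015800a08d00e02a611))) (.br (Nat.shiftLeft (nat_lit 0x2800001) (nat_lit 113)) (.one (nat_lit 0x5000001005006007014200a0ad40e028611)) (.br (Nat.shiftLeft (nat_lit 0x5000002005006007015) (nat_lit 64)) (.one (nat_lit 0x5000002005006007014400a0ad40e028611)) (.one (nat_lit 0x5000002005006007015400a0ad40e02a611)))))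
def t166 : k166.all (jb2 57 fl b0) = true := by decide +kernel
noncomputable def k167 : KT := (.br (Nat.shiftLeft (nat_lit 0x1400001) (nat_lit 114)) (.br (Nat.shiftLeft (nat_lit 0x5000003005006007015) (nat_lit 64)) (.one (nat_lit 0x5000003005006007014600a0ad40e028611)) (.one (nat_lit 0x5000003005006007015600a0ad40e02a611))) (.br (Nat.shiftLeft (nat_lit 0x5000004005006007015) (nat_lit 64)) (.one (nat_lit 0x5000004005006007014800a0ad40e028611)) (.one (nat_lit 0x5000004005006007015800a0ad40e02a611))))
def t167 : k167.all (jb2 57 fl b0) = true := by decide +kernel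
noncomputable def k168 : KT := (.br (Nat.shiftLeft (nat_lit 0x3000001) (nat_lit 113)) (.one (nat_lit 0x6000001005006007014200a0cd80e028611)) (.br (Nat.shiftLeft (nat_lit 0x6000002005006007015) (nat_lit 64)) (.one (nat_lit 0x6000002005006007014400a0cd80e028611)) (.one (nat_lit 0x6000002005006007015400a0cd80e02a611))))
def t168 : k168.all (jb2 57 fl b0) = true := by decide +kernel
noncomputable def k169 : KT := (.br (Nat.shiftLeft (nat_lit 0x1800001) (nat_lit 114)) (.br (Nat.shiftLeft (nat_lit 0x6000003005006007015) (nat_lit 64)) (.one (nat_lit 0x6000003005006007014600a0cd80e028611)) (.one (nat_lit 0x6000003005006007015600a0cd80e02a611))) (.br (Nat.shiftLeft (nat_lit 0x6000004005006007015) (nat_lit 64)) (.one (nat_lit 0x6000004005006007014800a0cd80e028611)) (.one (nat_lit 0x6000004005006007015800a0cd80e02a611))))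
def t169 : k169.all (jb2 57 fl b0) = true := by decide +kernel
noncomputable def k170 : KT := (.br (Nat.shiftLeft (nat_lit 0x3800001) (nat_lit 113)) (.one (nat_lit 0x7000001005006007014200a0edc0e028611)) (.br (Nat.shiftLeft (nat_lit 0x7000002005006007015) (nat_lit 64)) (.one (nat_lit 0x7000002005006007014400a0edc0e028611)) (.one (nat_lit 0x7000002005006007015400a0edc0e02a611))))
def t170 : k170.all (jb2 57 fl b0) = true := by decide +kernel
noncomputable def k171 : KT := (.br (Nat.shiftLeft (nat_lit 0x1c00001) (nat_lit 114)) (.br (Nat.shiftLeft (nat_lit 0x7000003005006007015) (nat_lit 64)) (.one (nat_lit 0x7000003005006007014600a0edc0e028611)) (.one (nat_lit 0x7000003005006007015600a0edc0e02a611))) (.br (Nat.shiftLeft (nat_lit 0x7000004005006007015) (nat_lit 64)) (.one (nat_lit 0x7000004005006007014800a0edc0e028611)) (.one (nat_lit 0x7000004005006007015800a0edc0e02a611))))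
def t171 : k171.all (jb2 57 fl b0) = true := by decide +kernel
noncomputable def s9 : KT := (.br (nat_lit 0x3000005006007015000a00c06ec2a511) (.br (nat_lit 0x1004005006007014800a00c02e428760) (.br (nat_lit 0x1002005006007014400a00c02e428760) (.br (nat_lit 0x1000005006007015000a00c02e42a511) k152 k153) (.br (nat_lit 0x1002005006007015400a00c02e42a760) k154 (.br (nat_lit 0x1003005006007014600a00c02e428760) k155 k156))) (.br (nat_lit 0x2003005006007014600a00c04e828760) (.br (nat_lit 0x2000005006007015000a00c04e82a511) k157 k158) (.br (nat_lit 0x2003005006007015600a00c04e82a760) k159 (.br (nat_lit 0x2004005006007014800a00c04e828760) k160 k161)))) (.br (nat_lit 0x5000002005006007015400a0ad40e02a611) (.br (nat_lit 0x5000005006007015000a00c0af42a511) (.br (nat_lit 0x3004005006007014800a00c06ec28760) k162 k163) (.br (nat_lit 0x7000005006007014000a00c0efc28511) k164 (.br (nat_lit 0x4000003005006007015600a08d00e02a611) k165 k166))) (.br (nat_lit 0x6000002005006007015400a0cd80e02a611) (.br (nat_lit 0x5000004005006007015800a0ad40e02a611)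 k167 k168) (.br (nat_lit 0x6000004005006007015800a0cd80e02a611) k169 (.br (nat_lit 0x7000002005006007015400a0edc0e02a611) k170 k171)))))
noncomputable def u9 : KT := (.br (Nat.shiftLeft (nat_lit 0x2803004007) (nat_lit 65)) (.br (Nat.shiftLeft (nat_lit 0x5006007015) (nat_lit 64)) (.one (nat_lit 0x5006007014000a00c00e028540)) (.br (Nat.shiftLeft (nat_lit 0xa00c01) (nat_lit 79)) (.one (nat_lit 0x5006007015000a00c00e02a540)) (.one (nat_lit 0x500600800d000a00c01001b500)))) (.br (Nat.shiftLeft (nat_lit 0x500600801) (nat_lit 68)) (.br (Nat.shiftLeft (nat_lit 0x500600800f) (nat_lit 64)) (.one (nat_lit 0x500600800e000a00c01001d500)) (.one (nat_lit 0x500600800f000a00c01001f500))) (.br (Nat.shiftLeft (nat_lit 0x5006008011) (nat_lit 64)) (.one (nat_lit 0x5006008010000a00c010021500)) (.one (nat_lit 0x5006008011000a00c010023500)))))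
def w9 : u9.all (wj 57 s9) = true := by decide +kernel
def o9 : OkW 57 (jb2 57 fl) u9 := .lift s9 _ (.br _ _ _ (.br _ _ _ (.br _ _ _ (.br _ _ _ (.leaf b0 k152 t152) (.leaf b0 k153 t153)) (.br _ _ _ (.leaf b0 k154 t154) (.br _ _ _ (.leaf b0 k155 t155) (.leaf b0 k156 t156)))) (.br _ _ _ (.br _ _ _ (.leaf b0 k157 t157) (.leaf b0 k158 t158)) (.br _ _ _ (.leaf b0 k159 t159) (.br _ _ _ (.leaf b0 k160 t160) (.leaf b0 k161 t161))))) (.br _ _ _ (.br _ _ _ (.br _ _ _ (.leaf b0 k162 t162) (.leaf b0 k163 t163)) (.br _ _ _ (.leaf b0 k164 t164) (.br _ _ _ (.leaf b0 k165 t165) (.leaf b0 k166 t166)))) (.br _ _ _ (.br _ _ _ (.leaf b0 k167 t167) (.leaf b0 k168 t168)) (.br _ _ _ (.leaf b0 k169 t169) (.br _ _ _ (.leaf b0 k170 t170) (.leaf b0 k171 t171)))))) w9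
noncomputable def k172 : KT := (.br (Nat.shiftLeft (nat_lit 0x1003) (nat_lit 112)) (.br (Nat.shiftLeft (nat_lit 0x3) (nat_lit 112)) (.br (Nat.shiftLeft (nat_lit 0x1) (nat_lit 112)) (.one (nat_lit 0x5006008012000a00c010025500)) (.br (Nat.shiftLeft (nat_lit 0x1) (nat_lit 113)) (.one (nat_lit 0x1005006008012200a00c010025600)) (.one (nat_lit 0x2005006008012400a00c010025600)))) (.br (Nat.shiftLeft (nat_lit 0x1) (nat_lit 124)) (.br (Nat.shiftLeft (nat_lit 0x1) (nat_lit 114)) (.one (nat_lit 0x3005006008012600a00c010025600)) (.one (nat_lit 0x4005006008012800a00c010025600))) (.br (Nat.shiftLeft (nat_lit 0x801) (nat_lit 113)) (.one (nat_lit 0x1000005006008012000a00c030424511)) (.one (nat_lit 0x1002005006008012400a00c030425700))))) (.br (Nat.shiftLeft (nat_lit 0x801) (nat_lit 114)) (.br (Nat.shiftLeft (nat_lit 0x1) (nat_lit 125)) (.br (Nat.shiftLeft (nat_lit 0x401) (nat_lit 114)) (.one (nat_lit 0x1003005006008012600a00c030425700)) (.one (nat_lit 0x1004005006008012800a00c030424760))) (.br (Nat.shiftLeft (nat_lit 0x1001) (nat_lit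 113)) (.one (nat_lit 0x2000005006008012000a00c050824511)) (.one (nat_lit 0x2003005006008012600a00c050825700)))) (.br (Nat.shiftLeft (nat_lit 0xc01) (nat_lit 114)) (.br (Nat.shiftLeft (nat_lit 0x3) (nat_lit 124)) (.one (nat_lit 0x2004005006008012800a00c050825700)) (.one (nat_lit 0x3000005006008012000a00c070c24511))) (.br (Nat.shiftLeft (nat_lit 0x1) (nat_lit 126)) (.one (nat_lit 0x3004005006008012800a00c070c25700)) (.one (nat_lit 0x4000005006008012000a00c091024511))))))
def t172 : k172.all (jb2 57 fl b0) = true := by decide +kernel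
noncomputable def k173 : KT := (.br (Nat.shiftLeft (nat_lit 0x3) (nat_lit 125)) (.one (nat_lit 0x5000005006008012000a00c0b1424511)) (.one (nat_lit 0x6000005006008012000a00c0d1824511)))
def t173 : k173.all (jb2 57 fl b0) = true := by decide +kernel
noncomputable def k174 : KT := (.br (Nat.shiftLeft (nat_lit 0x800001) (nat_lit 113)) (.br (Nat.shiftLeft (nat_lit 0x1) (nat_lit 127)) (.one (nat_lit 0x7000005006008012000a00c0f1c24511)) (.br (Nat.shiftLeft (nat_lit 0x1) (nat_lit 136)) (.one (nat_lit 0x8000005006008012000a00c112024511)) (.one (nat_lit 0x1000001005006008012200a02c410024611)))) (.br (Nat.shiftLeft (nat_lit 0x1000003) (nat_lit 112)) (.one (nat_lit 0x1000002005006008012400a02c410024611)) (.br (Nat.shiftLeft (nat_lit 0x400001) (nat_lit 114)) (.one (nat_lit 0x1000003005006008012600a02c410024611)) (.one (nat_lit 0x1000004005006008012800a02c410024611)))))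
def t174 : k174.all (jb2 57 fl b0) = true := by decide +kernel
noncomputable def k175 : KT := (.one (nat_lit 0x1002003005006008012600a02c450824870))
def t175 : k175.all (jb2 57 fl b0) = true := by decide +kernel
noncomputable def k176 : KT := (.br (Nat.shiftLeft (nat_lit 0x1000001) (nat_lit 113)) (.br (Nat.shiftLeft (nat_lit 0x1003) (nat_lit 124)) (.one (nat_lit 0x1002004005006008012800a02c450824870)) (.br (Nat.shiftLeft (nat_lit 0x1) (nat_lit 137)) (.one (nat_lit 0x1003004005006008012800a02c470c24870)) (.one (nat_lit 0x2000001005006008012200a04c810024611)))) (.br (Nat.shiftLeft (nat_lit 0x2000003) (nat_lit 112)) (.one (nat_lit 0x2000002005006008012400a04c810024611)) (.br (Nat.shiftLeft (nat_lit 0x800001) (nat_lit 114)) (.one (nat_lit 0x2000003005006008012600a04c810024611)) (.one (nat_lit 0x2000004005006008012800a04c810024611)))))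
def t176 : k176.all (jb2 57 fl b0) = true := by decide +kernel
noncomputable def k177 : KT := (.br (Nat.shiftLeft (nat_lit 0xc00001) (nat_lit 114)) (.br (Nat.shiftLeft (nat_lit 0x1800001) (nat_lit 113)) (.br (Nat.shiftLeft (nat_lit 0x3) (nat_lit 136)) (.one (nat_lit 0x2003004005006008012800a04c870c24870)) (.one (nat_lit 0x3000001005006008012200a06cc10024611))) (.br (Nat.shiftLeft (nat_lit 0x3000003) (nat_lit 112)) (.one (nat_lit 0x3000002005006008012400a06cc10024611)) (.one (nat_lit 0x3000003005006008012600a06cc10024611)))) (.br (Nat.shiftLeft (nat_lit 0x2000001) (nat_lit 113)) (.br (Nat.shiftLeft (nat_lit 0x1) (nat_lit 138)) (.one (nat_lit 0x3000004005006008012800a06cc10024611)) (.one (nat_lit 0x4000001005006008012200a08d010024611))) (.br (Nat.shiftLeft (nat_lit 0x4000003) (nat_lit 112)) (.one (nat_lit 0x4000002005006008012400a08d010024611)) (.br (Nat.shiftLeft (nat_lit 0x1000001) (nat_lit 114)) (.one (nat_lit 0x4000003005006008012600a08d010024611)) (.one (nat_lit 0x4000004005006008012800a08d010024611))))))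
def t177 : k177.all (jb2 57 fl b0) = true := by decide +kernel
noncomputable def k178 : KT := (.br (Nat.shiftLeft (nat_lit 0x2800001) (nat_lit 113)) (.one (nat_lit 0x5000001005006008012200a0ad410024611)) (.one (nat_lit 0x5000002005006008012400a0ad410024611)))
def t178 : k178.all (jb2 57 fl b0) = true := by decide +kernel
noncomputable def k179 : KT := (.br (Nat.shiftLeft (nat_lit 0x1400001) (nat_lit 114)) (.one (nat_lit 0x5000003005006008012600a0ad410024611)) (.one (nat_lit 0x5000004005006008012800a0ad410024611)))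
def t179 : k179.all (jb2 57 fl b0) = true := by decide +kernel
noncomputable def k180 : KT := (.one (nat_lit 0x6000001005006008012200a0cd810024611))
def t180 : k180.all (jb2 57 fl b0) = true := by decide +kernel
noncomputable def k181 : KT := (.br (Nat.shiftLeft (nat_lit 0x6000003) (nat_lit 112)) (.one (nat_lit 0x6000002005006008012400a0cd810024611)) (.one (nat_lit 0x6000003005006008012600a0cd810024611)))
noncomputable def b182 : BT := .node (nat_lit 0x1) (nat_lit 0x12312a2258c002b58000ac6010008900028) .leaf .leaf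
def t181 : k181.all (jb2 57 fl b182) = true := by decide +kernel
noncomputable def k182 : KT := (.br (Nat.shiftLeft (nat_lit 0x7) (nat_lit 136)) (.one (nat_lit 0x6000004005006008012800a0cd810024611)) (.one (nat_lit 0x7000001005006008012200a0edc10024611)))
def t182 : k182.all (jb2 57 fl b0) = true := by decide +kernel
noncomputable def k183 : KT := (.br (Nat.shiftLeft (nat_lit 0x7000003) (nat_lit 112)) (.one (nat_lit 0x7000002005006008012400a0edc10024611)) (.one (nat_lit 0x7000003005006008012600a0edc10024611)))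
def t183 : k183.all (jb2 57 fl b0) = true := by decide +kernel
noncomputable def k184 : KT := (.br (Nat.shiftLeft (nat_lit 0x1) (nat_lit 139)) (.one (nat_lit 0x7000004005006008012800a0edc10024611)) (.one (nat_lit 0x8000001005006008012200a10e010024611)))
def t184 : k184.all (jb2 57 fl b0) = true := by decide +kernel
noncomputable def k185 : KT := (.br (Nat.shiftLeft (nat_lit 0x2000001003) (nat_lit 112)) (.br (Nat.shiftLeft (nat_lit 0x1000001003) (nat_lit 112)) (.br (Nat.shiftLeft (nat_lit 0x2000001) (nat_lit 114)) (.br (Nat.shiftLeft (nat_lit 0x8000003) (nat_lit 112)) (.one (nat_lit 0x8000002005006008012400a10e010024611)) (.one (nat_lit 0x8000003005006008012600a10e010024611))) (.br (Nat.shiftLeft (nat_lit 0x1) (nat_lit 148)) (.one (nat_lit 0x8000004005006008012800a10e010024611)) (.one (nat_lit 0x1000001002005006008012402a40c030424711)))) (.br (Nat.shiftLeft (nat_lit 0x400000801) (nat_lit 114)) (.br (Nat.shiftLeft (nat_lit 0x800001) (nat_lit 125)) (.one (nat_lit 0x1000001003005006008012602a40c030424711)) (.one (nat_lit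 0x1000002003005006008012602a40c050824711))) (.br (Nat.shiftLeft (nat_lit 0x1000003) (nat_lit 124)) (.one (nat_lit 0x1000002004005006008012802a40c050824711)) (.br (Nat.shiftLeft (nat_lit 0x1) (nat_lit 149)) (.one (nat_lit 0x1000003004005006008012802a40c070c24711)) (.one (nat_lit 0x2000001002005006008012404a80c030424711)))))) (.br (Nat.shiftLeft (nat_lit 0x3) (nat_lit 148)) (.br (Nat.shiftLeft (nat_lit 0x800000801) (nat_lit 114)) (.br (Nat.shiftLeft (nat_lit 0x1000001) (nat_lit 125)) (.one (nat_lit 0x2000001003005006008012604a80c030424711)) (.one (nat_lit 0x2000002003005006008012604a80c050824711))) (.br (Nat.shiftLeft (nat_lit 0x2000003) (nat_lit 124)) (.one (nat_lit 0x2000002004005006008012804a80c050824711)) (.one (nat_lit 0x2000003004005006008012804a80c070c24711)))) (.br (Nat.shiftLeft (nat_lit 0x1800001) (nat_lit 125)) (.br (Nat.shiftLeft (nat_lit 0x3000001003) (nat_lit 112)) (.one (nat_lit 0x3000001002005006008012406ac0c030424711)) (.one (nat_lit 0x3000001003005006008012606ac0c030424711))) (.br (Nat.shiftLeft (nat_lit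 0xc00000801) (nat_lit 114)) (.one (nat_lit 0x3000002003005006008012606ac0c050824711)) (.br (Nat.shiftLeft (nat_lit 0x3000003) (nat_lit 124)) (.one (nat_lit 0x3000002004005006008012806ac0c050824711)) (.one (nat_lit 0x3000003004005006008012806ac0c070c24711)))))))
def t185 : k185.all (jb2 57 fl b0) = true := by decide +kernel
noncomputable def k186 : KT := (.br (Nat.shiftLeft (nat_lit 0x1000000801) (nat_lit 114)) (.br (Nat.shiftLeft (nat_lit 0x4000001003) (nat_lit 112)) (.one (nat_lit 0x4000001002005006008012408b00c030424711)) (.br (Nat.shiftLeft (nat_lit 0x2000001) (nat_lit 125)) (.one (nat_lit 0x4000001003005006008012608b00c030424711)) (.one (nat_lit 0x4000002003005006008012608b00c050824711)))) (.br (Nat.shiftLeft (nat_lit 0x4000003) (nat_lit 124)) (.one (nat_lit 0x4000002004005006008012808b00c050824711)) (.br (Nat.shiftLeft (nat_lit 0x5) (nat_lit 148)) (.one (nat_lit 0x4000003004005006008012808b00c070c24711)) (.one (nat_lit 0x500000100200500600801240ab40c030424711)))))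
noncomputable def b187 : BT := .node (nat_lit 0x1) (nat_lit 0x12316d99304002ad9000aa9810008900028) .leaf .leaf
def t186 : k186.all (jb2 57 fl b187) = true := by decide +kernel
noncomputable def k187 : KT := (.br (Nat.shiftLeft (nat_lit 0x1400000801) (nat_lit 114)) (.br (Nat.shiftLeft (nat_lit 0x2800001) (nat_lit 125)) (.one (nat_lit 0x500000100300500600801260ab40c030424711)) (.one (nat_lit 0x500000200300500600801260ab40c050824711))) (.br (Nat.shiftLeft (nat_lit 0x5000003) (nat_lit 124)) (.one (nat_lit 0x500000200400500600801280ab40c050824711)) (.one (nat_lit 0x500000300400500600801280ab40c070c24711))))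
noncomputable def b188 : BT := .node (nat_lit 0x17) (nat_lit 0x1bc24c24b1a644982935000c998002ad9000ca9000325b0b6c8a2c963000cb68002b1807785b6651549a12f526a00194c800563400196d00065b016f0a58c9ce9342611510003299000ab700039e5000ae5c299149a1458003a1a000ad641004d1004d1004d1004d1004d1004d1004160041600416003b6002fb002fb002fb002400024000240002400024000240001e0001e0001e0001e0001e0) .leaf .leaf
def t187 : k187.all (jb2 57 fl b188) = true := by decide +kernel
noncomputable def k188 : KT := (.br (Nat.shiftLeft (nat_lit 0x6000001003) (nat_lit 112)) (.one (nat_lit 0x600000100200500600801240cb80c030424711)) (.br (Nat.shiftLeft (nat_lit 0x3000001) (nat_lit 125)) (.one (nat_lit 0x600000100300500600801260cb80c030424711)) (.one (nat_lit 0x600000200300500600801260cb80c050824711))))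
noncomputable def b189 : BT := .node (nat_lit 0x1) (nat_lit 0x93527392e8003317000cb6010008800028) .leaf .leaf
def t188 : k188.all (jb2 57 fl b189) = true := by decide +kernel
noncomputable def k189 : KT := (.br (Nat.shiftLeft (nat_lit 0x7) (nat_lit 148)) (.br (Nat.shiftLeft (nat_lit 0x6000003) (nat_lit 124)) (.one (nat_lit 0x600000200400500600801280cb80c050824711)) (.one (nat_lit 0x600000300400500600801280cb80c070c24711))) (.br (Nat.shiftLeft (nat_lit 0x7000001003) (nat_lit 112)) (.one (nat_lit 0x700000100200500600801240ebc0c030424711)) (.one (nat_lit 0x700000100300500600801260ebc0c030424711))))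
def t189 : k189.all (jb2 57 fl b0) = true := by decide +kernel
noncomputable def k190 : KT := (.br (Nat.shiftLeft (nat_lit 0x8000001003) (nat_lit 112)) (.br (Nat.shiftLeft (nat_lit 0x7000003) (nat_lit 124)) (.br (Nat.shiftLeft (nat_lit 0x1c00000801) (nat_lit 114)) (.one (nat_lit 0x700000200300500600801260ebc0c050824711)) (.one (nat_lit 0x700000200400500600801280ebc0c050824711))) (.br (Nat.shiftLeft (nat_lit 0x1) (nat_lit 151)) (.one (nat_lit 0x700000300400500600801280ebc0c070c24711)) (.one (nat_lit 0x8000001002005006008012410c00c030424711)))) (.br (Nat.shiftLeft (nat_lit 0x2000000801) (nat_lit 114)) (.br (Nat.shiftLeft (nat_lit 0x4000001) (nat_lit 125)) (.one (nat_lit 0x8000001003005006008012610c00c030424711)) (.one (nat_lit 0x8000002003005006008012610c00c050824711))) (.br (Nat.shiftLeft (nat_lit 0x8000003) (nat_lit 124)) (.one (nat_lit 0x8000002004005006008012810c00c050824711)) (.one (nat_lit 0x8000003004005006008012810c00c070c24711)))))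
def t190 : k190.all (jb2 57 fl b0) = true := by decide +kernel
noncomputable def s10 : KT := (.br (nat_lit 0x6000001005006008012200a0cd810024611) (.br (nat_lit 0x1002003005006008012600a02c450824870) (.br (nat_lit 0x6000005006008012000a00c0d1824511) (.br (nat_lit 0x4000005006008012000a00c091024511) k172 k173) (.br (nat_lit 0x1000004005006008012800a02c410024611) k174 k175)) (.br (nat_lit 0x4000004005006008012800a08d010024611) (.br (nat_lit 0x2000004005006008012800a04c810024611) k176 k177) (.br (nat_lit 0x5000002005006008012400a0ad410024611) k178 (.br (nat_lit 0x5000004005006008012800a0ad410024611) k179 k180)))) (.br (nat_lit 0x3000003004005006008012806ac0c070c24711) (.br (nat_lit 0x7000001005006008012200a0edc10024611) (.br (nat_lit 0x6000003005006008012600a0cd810024611) k181 k182) (.br (nat_lit 0x7000003005006008012600a0edc10024611) k183 (.br (nat_lit 0x8000001005006008012200a10e010024611) k184 k185))) (.br (nat_lit 0x500000300400500600801280ab40c070c24711) (.br (nat_lit 0x500000100200500600801240ab40c030424711) k186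 k187) (.br (nat_lit 0x600000200300500600801260cb80c050824711) k188 (.br (nat_lit 0x700000100300500600801260ebc0c030424711) k189 k190)))))
noncomputable def u10 : KT := (.one (nat_lit 0x5006008012000a00c010024540))
def w10 : u10.all (wj 57 s10) = true := by decide +kernel
def o10 : OkW 57 (jb2 57 fl) u10 := .lift s10 _ (.br _ _ _ (.br _ _ _ (.br _ _ _ (.br _ _ _ (.leaf b0 k172 t172) (.leaf b0 k173 t173)) (.br _ _ _ (.leaf b0 k174 t174) (.leaf b0 k175 t175))) (.br _ _ _ (.br _ _ _ (.leaf b0 k176 t176) (.leaf b0 k177 t177)) (.br _ _ _ (.leaf b0 k178 t178) (.br _ _ _ (.leaf b0 k179 t179) (.leaf b0 k180 t180))))) (.br _ _ _ (.br _ _ _ (.br _ _ _ (.leaf b182 k181 t181) (.leaf b0 k182 t182)) (.br _ _ _ (.leaf b0 k183 t183) (.br _ _ _ (.leaf b0 k184 t184) (.leaf b0 k185 t185)))) (.br _ _ _ (.br _ _ _ (.leaf b187 k186 t186) (.leaf b188 k187 t187)) (.br _ _ _ (.leaf b189 k188 t188) (.br _ _ _ (.leaf b0 k189 t189) (.leaf b0 k190 t190)))))) w10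
noncomputable def k191 : KT := (.br (Nat.shiftLeft (nat_lit 0xc01401802005) (nat_lit 66)) (.br (Nat.shiftLeft (nat_lit 0x401401802005) (nat_lit 66)) (.br (Nat.shiftLeft (nat_lit 0x1401802005) (nat_lit 66)) (.one (nat_lit 0x5006008013000a00c010027500)) (.br (Nat.shiftLeft (nat_lit 0x1) (nat_lit 112)) (.one (nat_lit 0x5006008014000a00c010029500)) (.one (nat_lit 0x1005006008013200a00c010027600)))) (.br (Nat.shiftLeft (nat_lit 0x801401802005) (nat_lit 66)) (.br (Nat.shiftLeft (nat_lit 0x1) (nat_lit 113)) (.one (nat_lit 0x1005006008014200a00c010029600)) (.one (nat_lit 0x2005006008013400a00c010027600))) (.br (Nat.shiftLeft (nat_lit 0x3) (nat_lit 112)) (.one (nat_lit 0x2005006008014400a00c010029600)) (.one (nat_lit 0x3005006008013600a00c010027600))))) (.br (Nat.shiftLeft (nat_lit 0x1) (nat_lit 124)) (.br (Nat.shiftLeft (nat_lit 0x1) (nat_lit 114)) (.one (nat_lit 0x3005006008014600a00c010029600)) (.br (Nat.shiftLeft (nat_lit 0x1001401802005) (nat_lit 66)) (.one (nat_lit 0x4005006008013800a00c010027600)) (.one (nat_lit 0x4005006008014800a00c010029600))))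 (.br (Nat.shiftLeft (nat_lit 0x801) (nat_lit 113)) (.br (Nat.shiftLeft (nat_lit 0x400001401802005) (nat_lit 66)) (.one (nat_lit 0x1000005006008013000a00c030426511)) (.one (nat_lit 0x1000005006008014000a00c030428511))) (.br (Nat.shiftLeft (nat_lit 0x400801401802005) (nat_lit 66)) (.one (nat_lit 0x1002005006008013400a00c030427700)) (.one (nat_lit 0x1002005006008014400a00c030428760))))))
def t191 : k191.all (jb2 57 fl b0) = true := by decide +kernel
noncomputable def k192 : KT := (.one (nat_lit 0x1003005006008013600a00c030426760))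
def t192 : k192.all (jb2 57 fl b0) = true := by decide +kernel
noncomputable def k193 : KT := (.one (nat_lit 0x1003005006008014600a00c030428760))
def t193 : k193.all (jb2 57 fl b0) = true := by decide +kernel
noncomputable def k194 : KT := (.br (Nat.shiftLeft (nat_lit 0x401001401802005) (nat_lit 66)) (.one (nat_lit 0x1004005006008013800a00c030426760)) (.one (nat_lit 0x1004005006008014800a00c030428760)))
def t194 : k194.all (jb2 57 fl b0) = true := by decide +kernel
noncomputable def k195 : KT := (.br (Nat.shiftLeft (nat_lit 0x1001) (nat_lit 113)) (.br (Nat.shiftLeft (nat_lit 0x800001401802005) (nat_lit 66)) (.one (nat_lit 0x2000005006008013000a00c050826511)) (.one (nat_lit 0x2000005006008014000a00c050828511))) (.br (Nat.shiftLeft (nat_lit 0x800c01401802005) (nat_lit 66)) (.one (nat_lit 0x2003005006008013600a00c050827700)) (.one (nat_lit 0x2003005006008014600a00c050828760))))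
def t195 : k195.all (jb2 57 fl b0) = true := by decide +kernel
noncomputable def k196 : KT := (.one (nat_lit 0x2004005006008013800a00c050826760))
def t196 : k196.all (jb2 57 fl b0) = true := by decide +kernel
noncomputable def k197 : KT := (.br (Nat.shiftLeft (nat_lit 0x3) (nat_lit 124)) (.one (nat_lit 0x2004005006008014800a00c050828760)) (.br (Nat.shiftLeft (nat_lit 0xc00001401802005) (nat_lit 66)) (.one (nat_lit 0x3000005006008013000a00c070c26511)) (.one (nat_lit 0x3000005006008014000a00c070c28511))))
def t197 : k197.all (jb2 57 fl b0) = true := by decide +kernel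
noncomputable def k198 : KT := (.one (nat_lit 0x3004005006008013800a00c070c26760))
def t198 : k198.all (jb2 57 fl b0) = true := by decide +kernel
noncomputable def k199 : KT := (.br (Nat.shiftLeft (nat_lit 0x1000001401802005) (nat_lit 66)) (.br (Nat.shiftLeft (nat_lit 0x1) (nat_lit 126)) (.one (nat_lit 0x3004005006008014800a00c070c28760)) (.one (nat_lit 0x4000005006008013000a00c091026511))) (.br (Nat.shiftLeft (nat_lit 0x5) (nat_lit 124)) (.one (nat_lit 0x4000005006008014000a00c091028511)) (.one (nat_lit 0x5000005006008013000a00c0b1426511))))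
def t199 : k199.all (jb2 57 fl b0) = true := by decide +kernel
noncomputable def k200 : KT := (.br (Nat.shiftLeft (nat_lit 0x3) (nat_lit 125)) (.one (nat_lit 0x5000005006008014000a00c0b1428511)) (.br (Nat.shiftLeft (nat_lit 0x1800001401802005) (nat_lit 66)) (.one (nat_lit 0x6000005006008013000a00c0d1826511)) (.one (nat_lit 0x6000005006008014000a00c0d1828511))))
def t200 : k200.all (jb2 57 fl b0) = true := by decide +kernel
noncomputable def k201 : KT := (.br (Nat.shiftLeft (nat_lit 0x1c00001401802005) (nat_lit 66)) (.one (nat_lit 0x7000005006008013000a00c0f1c26511)) (.br (Nat.shiftLeft (nat_lit 0x1) (nat_lit 127)) (.one (nat_lit 0x7000005006008014000a00c0f1c28511)) (.one (nat_lit 0x8000005006008013000a00c112026511))))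
def t201 : k201.all (jb2 57 fl b0) = true := by decide +kernel
noncomputable def k202 : KT := (.br (Nat.shiftLeft (nat_lit 0x800000801401802005) (nat_lit 66)) (.br (Nat.shiftLeft (nat_lit 0x400000c01401802005) (nat_lit 66)) (.br (Nat.shiftLeft (nat_lit 0x800001) (nat_lit 113)) (.br (Nat.shiftLeft (nat_lit 0x1) (nat_lit 136)) (.one (nat_lit 0x8000005006008014000a00c112028511)) (.br (Nat.shiftLeft (nat_lit 0x400000401401802005) (nat_lit 66)) (.one (nat_lit 0x1000001005006008013200a02c410026611)) (.one (nat_lit 0x1000001005006008014200a02c410028611)))) (.br (Nat.shiftLeft (nat_lit 0x400000801401802005) (nat_lit 66)) (.one (nat_lit 0x1000002005006008013400a02c410026611)) (.br (Nat.shiftLeft (nat_lit 0x1000003) (nat_lit 112)) (.one (nat_lit 0x1000002005006008014400a02c410028611)) (.one (nat_lit 0x1000003005006008013600a02c410026611))))) (.br (Nat.shiftLeft (nat_lit 0x801) (nat_lit 125)) (.br (Nat.shiftLeft (nat_lit 0x400001) (nat_lit 114)) (.one (nat_lit 0x1000003005006008014600a02c410028611)) (.br (Nat.shiftLeft (nat_lit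 0x400001001401802005) (nat_lit 66)) (.one (nat_lit 0x1000004005006008013800a02c410026611)) (.one (nat_lit 0x1000004005006008014800a02c410028611)))) (.br (Nat.shiftLeft (nat_lit 0x800000401401802005) (nat_lit 66)) (.br (Nat.shiftLeft (nat_lit 0x1) (nat_lit 137)) (.one (nat_lit 0x1002003005006008013600a02c450826870)) (.one (nat_lit 0x2000001005006008013200a04c810026611))) (.br (Nat.shiftLeft (nat_lit 0x1000001) (nat_lit 113)) (.one (nat_lit 0x2000001005006008014200a04c810028611)) (.one (nat_lit 0x2000002005006008013400a04c810026611)))))) (.br (Nat.shiftLeft (nat_lit 0xc00000401401802005) (nat_lit 66)) (.br (Nat.shiftLeft (nat_lit 0x800001) (nat_lit 114)) (.br (Nat.shiftLeft (nat_lit 0x2000003) (nat_lit 112)) (.one (nat_lit 0x2000002005006008014400a04c810028611)) (.br (Nat.shiftLeft (nat_lit 0x800000c01401802005) (nat_lit 66)) (.one (nat_lit 0x2000003005006008013600a04c810026611)) (.one (nat_lit 0x2000003005006008014600a04c810028611)))) (.br (Nat.shiftLeft (nat_lit 0x800001001401802005) (nat_lit 66)) (.one (nat_lit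 0x2000004005006008013800a04c810026611)) (.br (Nat.shiftLeft (nat_lit 0x3) (nat_lit 136)) (.one (nat_lit 0x2000004005006008014800a04c810028611)) (.one (nat_lit 0x3000001005006008013200a06cc10026611))))) (.br (Nat.shiftLeft (nat_lit 0x3000003) (nat_lit 112)) (.br (Nat.shiftLeft (nat_lit 0x1800001) (nat_lit 113)) (.one (nat_lit 0x3000001005006008014200a06cc10028611)) (.br (Nat.shiftLeft (nat_lit 0xc00000801401802005) (nat_lit 66)) (.one (nat_lit 0x3000002005006008013400a06cc10026611)) (.one (nat_lit 0x3000002005006008014400a06cc10028611)))) (.br (Nat.shiftLeft (nat_lit 0xc00001) (nat_lit 114)) (.br (Nat.shiftLeft (nat_lit 0xc00000c01401802005) (nat_lit 66)) (.one (nat_lit 0x3000003005006008013600a06cc10026611)) (.one (nat_lit 0x3000003005006008014600a06cc10028611))) (.br (Nat.shiftLeft (nat_lit 0xc00001001401802005) (nat_lit 66)) (.one (nat_lit 0x3000004005006008013800a06cc10026611)) (.one (nat_lit 0x3000004005006008014800a06cc10028611)))))))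
def t202 : k202.all (jb2 57 fl b0) = true := by decide +kernel
noncomputable def k203 : KT := (.br (Nat.shiftLeft (nat_lit 0x4000003) (nat_lit 112)) (.br (Nat.shiftLeft (nat_lit 0x2000001) (nat_lit 113)) (.br (Nat.shiftLeft (nat_lit 0x1000000401401802005) (nat_lit 66)) (.one (nat_lit 0x4000001005006008013200a08d010026611)) (.one (nat_lit 0x4000001005006008014200a08d010028611))) (.br (Nat.shiftLeft (nat_lit 0x1000000801401802005) (nat_lit 66)) (.one (nat_lit 0x4000002005006008013400a08d010026611)) (.one (nat_lit 0x4000002005006008014400a08d010028611)))) (.br (Nat.shiftLeft (nat_lit 0x1000001) (nat_lit 114)) (.br (Nat.shiftLeft (nat_lit 0x1000000c01401802005) (nat_lit 66)) (.one (nat_lit 0x4000003005006008013600a08d010026611)) (.one (nat_lit 0x4000003005006008014600a08d010028611))) (.br (Nat.shiftLeft (nat_lit 0x1000001001401802005) (nat_lit 66)) (.one (nat_lit 0x4000004005006008013800a08d010026611)) (.one (nat_lit 0x4000004005006008014800a08d010028611)))))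
def t203 : k203.all (jb2 57 fl b0) = true := by decide +kernel
noncomputable def k204 : KT := (.br (Nat.shiftLeft (nat_lit 0x1400000401401802005) (nat_lit 66)) (.one (nat_lit 0x5000001005006008013200a0ad410026611)) (.br (Nat.shiftLeft (nat_lit 0x2800001) (nat_lit 113)) (.one (nat_lit 0x5000001005006008014200a0ad410028611)) (.one (nat_lit 0x5000002005006008013400a0ad410026611))))
def t204 : k204.all (jb2 57 fl b0) = true := by decide +kernel
noncomputable def k205 : KT := (.br (Nat.shiftLeft (nat_lit 0x1400000c01401802005) (nat_lit 66)) (.br (Nat.shiftLeft (nat_lit 0x5000003) (nat_lit 112)) (.one (nat_lit 0x5000002005006008014400a0ad410028611)) (.one (nat_lit 0x5000003005006008013600a0ad410026611))) (.br (Nat.shiftLeft (nat_lit 0x1400001) (nat_lit 114)) (.one (nat_lit 0x5000003005006008014600a0ad410028611)) (.br (Nat.shiftLeft (nat_lit 0x1400001001401802005) (nat_lit 66)) (.one (nat_lit 0x5000004005006008013800a0ad410026611)) (.one (nat_lit 0x5000004005006008014800a0ad410028611)))))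
def t205 : k205.all (jb2 57 fl b0) = true := by decide +kernel
noncomputable def k206 : KT := (.br (Nat.shiftLeft (nat_lit 0x1800000401401802005) (nat_lit 66)) (.one (nat_lit 0x6000001005006008013200a0cd810026611)) (.one (nat_lit 0x6000001005006008014200a0cd810028611)))
def t206 : k206.all (jb2 57 fl b0) = true := by decide +kernel
noncomputable def k207 : KT := (.br (Nat.shiftLeft (nat_lit 0x1800000801401802005) (nat_lit 66)) (.one (nat_lit 0x6000002005006008013400a0cd810026611)) (.one (nat_lit 0x6000002005006008014400a0cd810028611)))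
def t207 : k207.all (jb2 57 fl b0) = true := by decide +kernel
noncomputable def k208 : KT := (.br (Nat.shiftLeft (nat_lit 0x1800001) (nat_lit 114)) (.br (Nat.shiftLeft (nat_lit 0x1800000c01401802005) (nat_lit 66)) (.one (nat_lit 0x6000003005006008013600a0cd810026611)) (.one (nat_lit 0x6000003005006008014600a0cd810028611))) (.br (Nat.shiftLeft (nat_lit 0x1800001001401802005) (nat_lit 66)) (.one (nat_lit 0x6000004005006008013800a0cd810026611)) (.one (nat_lit 0x6000004005006008014800a0cd810028611))))
def t208 : k208.all (jb2 57 fl b0) = true := by decide +kernel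
noncomputable def k209 : KT := (.br (Nat.shiftLeft (nat_lit 0x1c00000401401802005) (nat_lit 66)) (.one (nat_lit 0x7000001005006008013200a0edc10026611)) (.one (nat_lit 0x7000001005006008014200a0edc10028611)))
def t209 : k209.all (jb2 57 fl b0) = true := by decide +kernel
noncomputable def k210 : KT := (.br (Nat.shiftLeft (nat_lit 0x7000003) (nat_lit 112)) (.br (Nat.shiftLeft (nat_lit 0x1c00000801401802005) (nat_lit 66)) (.one (nat_lit 0x7000002005006008013400a0edc10026611)) (.one (nat_lit 0x7000002005006008014400a0edc10028611))) (.br (Nat.shiftLeft (nat_lit 0x1c00000c01401802005) (nat_lit 66)) (.one (nat_lit 0x7000003005006008013600a0edc10026611)) (.one (nat_lit 0x7000003005006008014600a0edc10028611))))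
def t210 : k210.all (jb2 57 fl b0) = true := by decide +kernel
noncomputable def k211 : KT := (.br (Nat.shiftLeft (nat_lit 0x1) (nat_lit 139)) (.br (Nat.shiftLeft (nat_lit 0x1c00001001401802005) (nat_lit 66)) (.one (nat_lit 0x7000004005006008013800a0edc10026611)) (.one (nat_lit 0x7000004005006008014800a0edc10028611))) (.br (Nat.shiftLeft (nat_lit 0x2000000401401802005) (nat_lit 66)) (.one (nat_lit 0x8000001005006008013200a10e010026611)) (.br (Nat.shiftLeft (nat_lit 0x4000001) (nat_lit 113)) (.one (nat_lit 0x8000001005006008014200a10e010028611)) (.one (nat_lit 0x8000002005006008013400a10e010026611)))))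
def t211 : k211.all (jb2 57 fl b0) = true := by decide +kernel
noncomputable def k212 : KT := (.br (Nat.shiftLeft (nat_lit 0x800001) (nat_lit 125)) (.br (Nat.shiftLeft (nat_lit 0x2000001) (nat_lit 114)) (.br (Nat.shiftLeft (nat_lit 0x8000003) (nat_lit 112)) (.one (nat_lit 0x8000002005006008014400a10e010028611)) (.br (Nat.shiftLeft (nat_lit 0x2000000c01401802005) (nat_lit 66)) (.one (nat_lit 0x8000003005006008013600a10e010026611)) (.one (nat_lit 0x8000003005006008014600a10e010028611)))) (.br (Nat.shiftLeft (nat_lit 0x2000001001401802005) (nat_lit 66)) (.one (nat_lit 0x8000004005006008013800a10e010026611)) (.br (Nat.shiftLeft (nat_lit 0x1) (nat_lit 148)) (.one (nat_lit 0x8000004005006008014800a10e010028611)) (.one (nat_lit 0x1000001002005006008013402a40c030426711))))) (.br (Nat.shiftLeft (nat_lit 0x3) (nat_lit 148)) (.br (Nat.shiftLeft (nat_lit 0x1) (nat_lit 149)) (.one (nat_lit 0x1000002003005006008013602a40c050826711)) (.br (Nat.shiftLeft (nat_lit 0x1000001) (nat_lit 125)) (.one (nat_lit 0x2000001002005006008013404a80c030426711))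 (.one (nat_lit 0x2000002003005006008013604a80c050826711)))) (.br (Nat.shiftLeft (nat_lit 0x1) (nat_lit 150)) (.br (Nat.shiftLeft (nat_lit 0x1800001) (nat_lit 125)) (.one (nat_lit 0x3000001002005006008013406ac0c030426711)) (.one (nat_lit 0x3000002003005006008013606ac0c050826711))) (.br (Nat.shiftLeft (nat_lit 0x2000001) (nat_lit 125)) (.one (nat_lit 0x4000001002005006008013408b00c030426711)) (.one (nat_lit 0x4000002003005006008013608b00c050826711))))))
def t212 : k212.all (jb2 57 fl b0) = true := by decide +kernel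
noncomputable def k213 : KT := (.br (Nat.shiftLeft (nat_lit 0x3) (nat_lit 149)) (.br (Nat.shiftLeft (nat_lit 0x2800001) (nat_lit 125)) (.one (nat_lit 0x500000100200500600801340ab40c030426711)) (.one (nat_lit 0x500000200300500600801360ab40c050826711))) (.br (Nat.shiftLeft (nat_lit 0x3000001) (nat_lit 125)) (.one (nat_lit 0x600000100200500600801340cb80c030426711)) (.one (nat_lit 0x600000200300500600801360cb80c050826711))))
def t213 : k213.all (jb2 57 fl b0) = true := by decide +kernel
noncomputable def k214 : KT := (.br (Nat.shiftLeft (nat_lit 0x1) (nat_lit 151)) (.br (Nat.shiftLeft (nat_lit 0x3800001) (nat_lit 125)) (.one (nat_lit 0x700000100200500600801340ebc0c030426711)) (.one (nat_lit 0x700000200300500600801360ebc0c050826711))) (.br (Nat.shiftLeft (nat_lit 0x4000001) (nat_lit 125)) (.one (nat_lit 0x8000001002005006008013410c00c030426711)) (.one (nat_lit 0x8000002003005006008013610c00c050826711))))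
def t214 : k214.all (jb2 57 fl b0) = true := by decide +kernel
noncomputable def s11 : KT := (.br (nat_lit 0x3000004005006008014800a06cc10028611) (.br (nat_lit 0x2004005006008013800a00c050826760) (.br (nat_lit 0x1003005006008014600a00c030428760) (.br (nat_lit 0x1002005006008014400a00c030428760) k191 (.br (nat_lit 0x1003005006008013600a00c030426760) k192 k193)) (.br (nat_lit 0x1004005006008014800a00c030428760) k194 (.br (nat_lit 0x2003005006008014600a00c050828760) k195 k196))) (.br (nat_lit 0x5000005006008013000a00c0b1426511) (.br (nat_lit 0x3000005006008014000a00c070c28511) k197 (.br (nat_lit 0x3004005006008013800a00c070c26760) k198 k199)) (.br (nat_lit 0x6000005006008014000a00c0d1828511) k200 (.br (nat_lit 0x8000005006008013000a00c112026511) k201 k202)))) (.br (nat_lit 0x6000004005006008014800a0cd810028611) (.br (nat_lit 0x5000004005006008014800a0ad410028611) (.br (nat_lit 0x4000004005006008014800a08d010028611) k203 (.br (nat_lit 0x5000002005006008013400a0ad410026611) k204 k205)) (.br (nat_lit 0x6000001005006008014200a0cd810028611)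 k206 (.br (nat_lit 0x6000002005006008014400a0cd810028611) k207 k208))) (.br (nat_lit 0x8000002005006008013400a10e010026611) (.br (nat_lit 0x7000001005006008014200a0edc10028611) k209 (.br (nat_lit 0x7000003005006008014600a0edc10028611) k210 k211)) (.br (nat_lit 0x4000002003005006008013608b00c050826711) k212 (.br (nat_lit 0x600000200300500600801360cb80c050826711) k213 k214)))))
noncomputable def u11 : KT := (.br (Nat.shiftLeft (nat_lit 0x1401802005) (nat_lit 66)) (.one (nat_lit 0x5006008013000a00c010026540)) (.one (nat_lit 0x5006008014000a00c010028540)))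
def w11 : u11.all (wj 57 s11) = true := by decide +kernel
def o11 : OkW 57 (jb2 57 fl) u11 := .lift s11 _ (.br _ _ _ (.br _ _ _ (.br _ _ _ (.br _ _ _ (.leaf b0 k191 t191) (.br _ _ _ (.leaf b0 k192 t192) (.leaf b0 k193 t193))) (.br _ _ _ (.leaf b0 k194 t194) (.br _ _ _ (.leaf b0 k195 t195) (.leaf b0 k196 t196)))) (.br _ _ _ (.br _ _ _ (.leaf b0 k197 t197) (.br _ _ _ (.leaf b0 k198 t198) (.leaf b0 k199 t199))) (.br _ _ _ (.leaf b0 k200 t200) (.br _ _ _ (.leaf b0 k201 t201) (.leaf b0 k202 t202))))) (.br _ _ _ (.br _ _ _ (.br _ _ _ (.leaf b0 k203 t203) (.br _ _ _ (.leaf b0 k204 t204) (.leaf b0 k205 t205))) (.br _ _ _ (.leaf b0 k206 t206) (.br _ _ _ (.leaf b0 k207 t207) (.leaf b0 k208 t208)))) (.br _ _ _ (.br _ _ _ (.leaf b0 k209 t209) (.br _ _ _ (.leaf b0 k210 t210) (.leaf b0 k211 t211))) (.br _ _ _ (.leaf b0 k212 t212) (.br _ _ _ (.leaf b0 k213 t213) (.leaf b0 k214 t214)))))) w11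
noncomputable def k215 : KT := (.br (Nat.shiftLeft (nat_lit 0x500600901) (nat_lit 68)) (.br (Nat.shiftLeft (nat_lit 0x500600900d) (nat_lit 64)) (.br (Nat.shiftLeft (nat_lit 0x5006009) (nat_lit 76)) (.one (nat_lit 0x5006008015000a00c01002b500)) (.one (nat_lit 0x500600900c000a00c012019500))) (.br (Nat.shiftLeft (nat_lit 0x2803004807) (nat_lit 65)) (.one (nat_lit 0x500600900d000a00c01201b500)) (.br (Nat.shiftLeft (nat_lit 0x500600900f) (nat_lit 64)) (.one (nat_lit 0x500600900e000a00c01201d500)) (.one (nat_lit 0x500600900f000a00c01201f500))))) (.br (Nat.shiftLeft (nat_lit 0x3) (nat_lit 112)) (.br (Nat.shiftLeft (nat_lit 0x1) (nat_lit 112)) (.one (nat_lit 0x5006009010000a00c012021500)) (.br (Nat.shiftLeft (nat_lit 0x1) (nat_lit 113)) (.one (nat_lit 0x1005006008015200a00c01002a650)) (.one (nat_lit 0x2005006008015400a00c01002b600)))) (.br (Nat.shiftLeft (nat_lit 0x1) (nat_lit 114)) (.one (nat_lit 0x3005006008015600a00c01002b600)) (.br (Nat.shiftLeft (nat_lit 0x1) (nat_lit 124)) (.one (nat_lit 0x4005006008015800a00c01002b600))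 (.one (nat_lit 0x1000005006008015000a00c03042a511))))))
def t215 : k215.all (jb2 57 fl b0) = true := by decide +kernel
noncomputable def k216 : KT := (.one (nat_lit 0x1002005006008015400a00c03042a760))
def t216 : k216.all (jb2 57 fl b0) = true := by decide +kernel
noncomputable def k217 : KT := (.br (Nat.shiftLeft (nat_lit 0x401) (nat_lit 114)) (.one (nat_lit 0x1003005006008015600a00c03042a760)) (.br (Nat.shiftLeft (nat_lit 0x1) (nat_lit 125)) (.one (nat_lit 0x1004005006008015800a00c03042a760)) (.one (nat_lit 0x2000005006008015000a00c05082a511))))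
def t217 : k217.all (jb2 57 fl b0) = true := by decide +kernel
noncomputable def k218 : KT := (.br (Nat.shiftLeft (nat_lit 0x801) (nat_lit 114)) (.one (nat_lit 0x2003005006008015600a00c05082a760)) (.br (Nat.shiftLeft (nat_lit 0x3) (nat_lit 124)) (.one (nat_lit 0x2004005006008015800a00c05082a760)) (.one (nat_lit 0x3000005006008015000a00c070c2a511))))
def t218 : k218.all (jb2 57 fl b0) = true := by decide +kernel
noncomputable def k219 : KT := (.br (Nat.shiftLeft (nat_lit 0x5) (nat_lit 124)) (.br (Nat.shiftLeft (nat_lit 0x1) (nat_lit 126)) (.one (nat_lit 0x3004005006008015800a00c070c2a760)) (.one (nat_lit 0x4000005006008015000a00c09102a511))) (.br (Nat.shiftLeft (nat_lit 0x3) (nat_lit 125)) (.one (nat_lit 0x5000005006008015000a00c0b142a511)) (.one (nat_lit 0x6000005006008015000a00c0d182a511))))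
def t219 : k219.all (jb2 57 fl b0) = true := by decide +kernel
noncomputable def k220 : KT := (.br (Nat.shiftLeft (nat_lit 0x800001) (nat_lit 114)) (.br (Nat.shiftLeft (nat_lit 0x1000003) (nat_lit 112)) (.br (Nat.shiftLeft (nat_lit 0x1) (nat_lit 127)) (.one (nat_lit 0x7000005006008015000a00c0f1c2a511)) (.br (Nat.shiftLeft (nat_lit 0x1) (nat_lit 136)) (.one (nat_lit 0x8000005006008015000a00c11202a511)) (.one (nat_lit 0x1000002005006008015400a02c41002a611)))) (.br (Nat.shiftLeft (nat_lit 0x1) (nat_lit 137)) (.br (Nat.shiftLeft (nat_lit 0x400001) (nat_lit 114)) (.one (nat_lit 0x1000003005006008015600a02c41002a611)) (.one (nat_lit 0x1000004005006008015800a02c41002a611))) (.br (Nat.shiftLeft (nat_lit 0x2000003) (nat_lit 112)) (.one (nat_lit 0x2000002005006008015400a04c81002a611)) (.one (nat_lit 0x2000003005006008015600a04c81002a611))))) (.br (Nat.shiftLeft (nat_lit 0x1) (nat_lit 138)) (.br (Nat.shiftLeft (nat_lit 0x3000003) (nat_lit 112)) (.br (Nat.shiftLeft (nat_lit 0x3) (nat_lit 136)) (.one (nat_lit 0x2000004005006008015800a04c81002a611))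 (.one (nat_lit 0x3000002005006008015400a06cc1002a611))) (.br (Nat.shiftLeft (nat_lit 0xc00001) (nat_lit 114)) (.one (nat_lit 0x3000003005006008015600a06cc1002a611)) (.one (nat_lit 0x3000004005006008015800a06cc1002a611)))) (.br (Nat.shiftLeft (nat_lit 0x1000001) (nat_lit 114)) (.br (Nat.shiftLeft (nat_lit 0x4000003) (nat_lit 112)) (.one (nat_lit 0x4000002005006008015400a08d01002a611)) (.one (nat_lit 0x4000003005006008015600a08d01002a611))) (.br (Nat.shiftLeft (nat_lit 0x5) (nat_lit 136)) (.one (nat_lit 0x4000004005006008015800a08d01002a611)) (.one (nat_lit 0x5000002005006008015400a0ad41002a611))))))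
def t220 : k220.all (jb2 57 fl b0) = true := by decide +kernel
noncomputable def k221 : KT := (.br (Nat.shiftLeft (nat_lit 0x1800001) (nat_lit 114)) (.br (Nat.shiftLeft (nat_lit 0x3) (nat_lit 137)) (.br (Nat.shiftLeft (nat_lit 0x1400001) (nat_lit 114)) (.one (nat_lit 0x5000003005006008015600a0ad41002a611)) (.one (nat_lit 0x5000004005006008015800a0ad41002a611))) (.br (Nat.shiftLeft (nat_lit 0x6000003) (nat_lit 112)) (.one (nat_lit 0x6000002005006008015400a0cd81002a611)) (.one (nat_lit 0x6000003005006008015600a0cd81002a611)))) (.br (Nat.shiftLeft (nat_lit 0x7000003) (nat_lit 112)) (.br (Nat.shiftLeft (nat_lit 0x7) (nat_lit 136)) (.one (nat_lit 0x6000004005006008015800a0cd81002a611)) (.one (nat_lit 0x7000002005006008015400a0edc1002a611))) (.br (Nat.shiftLeft (nat_lit 0x1c00001) (nat_lit 114)) (.one (nat_lit 0x7000003005006008015600a0edc1002a611)) (.one (nat_lit 0x7000004005006008015800a0edc1002a611)))))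
def t221 : k221.all (jb2 57 fl b0) = true := by decide +kernel
noncomputable def k222 : KT := (.br (Nat.shiftLeft (nat_lit 0x8000003) (nat_lit 112)) (.one (nat_lit 0x8000002005006008015400a10e01002a611)) (.br (Nat.shiftLeft (nat_lit 0x2000001) (nat_lit 114)) (.one (nat_lit 0x8000003005006008015600a10e01002a611)) (.one (nat_lit 0x8000004005006008015800a10e01002a611))))
def t222 : k222.all (jb2 57 fl b0) = true := by decide +kernel
noncomputable def s12 : KT := (.br (nat_lit 0x3000005006008015000a00c070c2a511) (.br (nat_lit 0x1002005006008015400a00c03042a760) (.br (nat_lit 0x1000005006008015000a00c03042a511) k215 k216) (.br (nat_lit 0x2000005006008015000a00c05082a511) k217 k218)) (.br (nat_lit 0x5000002005006008015400a0ad41002a611) (.br (nat_lit 0x6000005006008015000a00c0d182a511) k219 k220) (.br (nat_lit 0x7000004005006008015800a0edc1002a611) k221 k222)))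
noncomputable def u12 : KT := (.br (Nat.shiftLeft (nat_lit 0x2803004807) (nat_lit 65)) (.br (Nat.shiftLeft (nat_lit 0x5006009) (nat_lit 76)) (.one (nat_lit 0x5006008015000a00c01002a540)) (.br (Nat.shiftLeft (nat_lit 0x500600900d) (nat_lit 64)) (.one (nat_lit 0x500600900c000a00c012019500)) (.one (nat_lit 0x500600900d000a00c01201b500)))) (.br (Nat.shiftLeft (nat_lit 0x500600900f) (nat_lit 64)) (.one (nat_lit 0x500600900e000a00c01201d500)) (.br (Nat.shiftLeft (nat_lit 0x500600901) (nat_lit 68)) (.one (nat_lit 0x500600900f000a00c01201f500)) (.one (nat_lit 0x5006009010000a00c012021500)))))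
def w12 : u12.all (wj 57 s12) = true := by decide +kernel
def o12 : OkW 57 (jb2 57 fl) u12 := .lift s12 _ (.br _ _ _ (.br _ _ _ (.br _ _ _ (.leaf b0 k215 t215) (.leaf b0 k216 t216)) (.br _ _ _ (.leaf b0 k217 t217) (.leaf b0 k218 t218))) (.br _ _ _ (.br _ _ _ (.leaf b0 k219 t219) (.leaf b0 k220 t220)) (.br _ _ _ (.leaf b0 k221 t221) (.leaf b0 k222 t222)))) w12
noncomputable def k223 : KT := (.br (Nat.shiftLeft (nat_lit 0x1003) (nat_lit 112)) (.br (Nat.shiftLeft (nat_lit 0x3) (nat_lit 112)) (.br (Nat.shiftLeft (nat_lit 0x1) (nat_lit 112)) (.one (nat_lit 0x5006009011000a00c012023500)) (.br (Nat.shiftLeft (nat_lit 0x1) (nat_lit 113)) (.one (nat_lit 0x1005006009011200a00c012023600)) (.one (nat_lit 0x2005006009011400a00c012023600)))) (.br (Nat.shiftLeft (nat_lit 0x1) (nat_lit 124)) (.br (Nat.shiftLeft (nat_lit 0x1) (nat_lit 114)) (.one (nat_lit 0x3005006009011600a00c012023600)) (.one (nat_lit 0x4005006009011800a00c012023600))) (.br (Nat.shiftLeft (nat_lit 0x801) (nat_lit 113)) (.one (nat_lit 0x1000005006009011000a00c032422511))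 (.one (nat_lit 0x1002005006009011400a00c032423700))))) (.br (Nat.shiftLeft (nat_lit 0x1001) (nat_lit 113)) (.br (Nat.shiftLeft (nat_lit 0x401) (nat_lit 114)) (.one (nat_lit 0x1003005006009011600a00c032423700)) (.br (Nat.shiftLeft (nat_lit 0x1) (nat_lit 125)) (.one (nat_lit 0x1004005006009011800a00c032422760)) (.one (nat_lit 0x2000005006009011000a00c052822511)))) (.br (Nat.shiftLeft (nat_lit 0x3) (nat_lit 124)) (.br (Nat.shiftLeft (nat_lit 0x801) (nat_lit 114)) (.one (nat_lit 0x2003005006009011600a00c052823700)) (.one (nat_lit 0x2004005006009011800a00c052823700))) (.br (Nat.shiftLeft (nat_lit 0xc01) (nat_lit 114)) (.one (nat_lit 0x3000005006009011000a00c072c22511)) (.one (nat_lit 0x3004005006009011800a00c072c23700))))))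
def t223 : k223.all (jb2 57 fl b0) = true := by decide +kernel
noncomputable def k224 : KT := (.br (Nat.shiftLeft (nat_lit 0x5) (nat_lit 124)) (.one (nat_lit 0x4000005006009011000a00c093022511)) (.br (Nat.shiftLeft (nat_lit 0x3) (nat_lit 125)) (.one (nat_lit 0x5000005006009011000a00c0b3422511)) (.one (nat_lit 0x6000005006009011000a00c0d3822511))))
noncomputable def b225 : BT := .node (nat_lit 0x1) (nat_lit 0x26449d29636f0a4d52c8de26d9951000b29d002ca64003a59002cb60013a590028e6030013e00028) .leaf .leaf
def t224 : k224.all (jb2 57 fl b225) = true := by decide +kernel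
noncomputable def k225 : KT := (.br (Nat.shiftLeft (nat_lit 0x1) (nat_lit 127)) (.one (nat_lit 0x7000005006009011000a00c0f3c22511)) (.one (nat_lit 0x8000005006009011000a00c114022511)))
def t225 : k225.all (jb2 57 fl b0) = true := by decide +kernel
noncomputable def k226 : KT := (.br (Nat.shiftLeft (nat_lit 0x800001) (nat_lit 113)) (.br (Nat.shiftLeft (nat_lit 0x1) (nat_lit 136)) (.one (nat_lit 0x9000005006009011000a00c134422511)) (.one (nat_lit 0x1000001005006009011200a02c412022611))) (.br (Nat.shiftLeft (nat_lit 0x1000003) (nat_lit 112)) (.one (nat_lit 0x1000002005006009011400a02c412022611)) (.br (Nat.shiftLeft (nat_lit 0x400001) (nat_lit 114)) (.one (nat_lit 0x1000003005006009011600a02c412022611)) (.one (nat_lit 0x1000004005006009011800a02c412022611)))))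
noncomputable def b227 : BT := .node (nat_lit 0x1) (nat_lit 0x54325f13a0003a98000e87810008700028) .leaf .leaf
def t226 : k226.all (jb2 57 fl b227) = true := by decide +kernel
noncomputable def k227 : KT := (.one (nat_lit 0x1002003005006009011600a02c452822870))
def t227 : k227.all (jb2 57 fl b0) = true := by decide +kernel
noncomputable def k228 : KT := (.br (Nat.shiftLeft (nat_lit 0x1000001) (nat_lit 113)) (.br (Nat.shiftLeft (nat_lit 0x1003) (nat_lit 124)) (.one (nat_lit 0x1002004005006009011800a02c452822870)) (.br (Nat.shiftLeft (nat_lit 0x1) (nat_lit 137)) (.one (nat_lit 0x1003004005006009011800a02c472c22870)) (.one (nat_lit 0x2000001005006009011200a04c812022611)))) (.br (Nat.shiftLeft (nat_lit 0x2000003) (nat_lit 112)) (.one (nat_lit 0x2000002005006009011400a04c812022611)) (.br (Nat.shiftLeft (nat_lit 0x800001) (nat_lit 114)) (.one (nat_lit 0x2000003005006009011600a04c812022611)) (.one (nat_lit 0x2000004005006009011800a04c812022611)))))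
def t228 : k228.all (jb2 57 fl b0) = true := by decide +kernel
noncomputable def k229 : KT := (.br (Nat.shiftLeft (nat_lit 0xc00001) (nat_lit 114)) (.br (Nat.shiftLeft (nat_lit 0x1800001) (nat_lit 113)) (.br (Nat.shiftLeft (nat_lit 0x3) (nat_lit 136)) (.one (nat_lit 0x2003004005006009011800a04c872c22870)) (.one (nat_lit 0x3000001005006009011200a06cc12022611))) (.br (Nat.shiftLeft (nat_lit 0x3000003) (nat_lit 112)) (.one (nat_lit 0x3000002005006009011400a06cc12022611)) (.one (nat_lit 0x3000003005006009011600a06cc12022611)))) (.br (Nat.shiftLeft (nat_lit 0x2000001) (nat_lit 113)) (.br (Nat.shiftLeft (nat_lit 0x1) (nat_lit 138)) (.one (nat_lit 0x3000004005006009011800a06cc12022611)) (.one (nat_lit 0x4000001005006009011200a08d012022611))) (.br (Nat.shiftLeft (nat_lit 0x4000003) (nat_lit 112)) (.one (nat_lit 0x4000002005006009011400a08d012022611)) (.br (Nat.shiftLeft (nat_lit 0x1000001) (nat_lit 114)) (.one (nat_lit 0x4000003005006009011600a08d012022611)) (.one (nat_lit 0x4000004005006009011800a08d012022611))))))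
def t229 : k229.all (jb2 57 fl b0) = true := by decide +kernel
noncomputable def k230 : KT := (.br (Nat.shiftLeft (nat_lit 0x2800001) (nat_lit 113)) (.one (nat_lit 0x5000001005006009011200a0ad412022611)) (.one (nat_lit 0x5000002005006009011400a0ad412022611)))
def t230 : k230.all (jb2 57 fl b0) = true := by decide +kernel
noncomputable def k231 : KT := (.br (Nat.shiftLeft (nat_lit 0x1400001) (nat_lit 114)) (.one (nat_lit 0x5000003005006009011600a0ad412022611)) (.one (nat_lit 0x5000004005006009011800a0ad412022611)))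
def t231 : k231.all (jb2 57 fl b0) = true := by decide +kernel
noncomputable def k232 : KT := (.one (nat_lit 0x6000001005006009011200a0cd812022611))
noncomputable def b233 : BT := .node (nat_lit 0x1) (nat_lit 0xde14c913a00032d8000aa7810008800028) .leaf .leaf
def t232 : k232.all (jb2 57 fl b233) = true := by decide +kernel
noncomputable def k233 : KT := (.one (nat_lit 0x6000002005006009011400a0cd812022611))
noncomputable def b234 : BT := .node (nat_lit 0x1) (nat_lit 0xdb226015100039e40008e6410008800028) .leaf .leaf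
def t233 : k233.all (jb2 57 fl b234) = true := by decide +kernel
noncomputable def k234 : KT := (.br (Nat.shiftLeft (nat_lit 0x1800001) (nat_lit 114)) (.one (nat_lit 0x6000003005006009011600a0cd812022611)) (.one (nat_lit 0x6000004005006009011800a0cd812022611)))
noncomputable def b235 : BT := .node (nat_lit 0xb) (nat_lit 0x49a14592c723126024d8003318000cb600032a20008b702db226024d80032a2000ab6c10020b0020b0020b0020b0015000150000f0000f0000f0000f0000f0000f0) .leaf .leaf
def t234 : k234.all (jb2 57 fl b235) = true := by decide +kernel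
noncomputable def k235 : KT := (.one (nat_lit 0x7000001005006009011200a0edc12022611))
def t235 : k235.all (jb2 57 fl b0) = true := by decide +kernel
noncomputable def k236 : KT := (.br (Nat.shiftLeft (nat_lit 0x7000003) (nat_lit 112)) (.one (nat_lit 0x7000002005006009011400a0edc12022611)) (.one (nat_lit 0x7000003005006009011600a0edc12022611)))
def t236 : k236.all (jb2 57 fl b0) = true := by decide +kernel
noncomputable def k237 : KT := (.br (Nat.shiftLeft (nat_lit 0x1) (nat_lit 139)) (.one (nat_lit 0x7000004005006009011800a0edc12022611)) (.one (nat_lit 0x8000001005006009011200a10e012022611)))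
def t237 : k237.all (jb2 57 fl b0) = true := by decide +kernel
noncomputable def k238 : KT := (.br (Nat.shiftLeft (nat_lit 0x8000003) (nat_lit 112)) (.one (nat_lit 0x8000002005006009011400a10e012022611)) (.br (Nat.shiftLeft (nat_lit 0x2000001) (nat_lit 114)) (.one (nat_lit 0x8000003005006009011600a10e012022611)) (.one (nat_lit 0x8000004005006009011800a10e012022611))))
def t238 : k238.all (jb2 57 fl b0) = true := by decide +kernel
noncomputable def k239 : KT := (.br (Nat.shiftLeft (nat_lit 0x4800001) (nat_lit 113)) (.one (nat_lit 0x9000001005006009011200a12e412022611)) (.br (Nat.shiftLeft (nat_lit 0x9000003) (nat_lit 112)) (.one (nat_lit 0x9000002005006009011400a12e412022611)) (.one (nat_lit 0x9000003005006009011600a12e412022611))))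
def t239 : k239.all (jb2 57 fl b0) = true := by decide +kernel
noncomputable def k240 : KT := (.br (Nat.shiftLeft (nat_lit 0x2000003) (nat_lit 124)) (.br (Nat.shiftLeft (nat_lit 0x1000003) (nat_lit 124)) (.br (Nat.shiftLeft (nat_lit 0x1000001003) (nat_lit 112)) (.br (Nat.shiftLeft (nat_lit 0x1) (nat_lit 148)) (.one (nat_lit 0x9000004005006009011800a12e412022611)) (.one (nat_lit 0x1000001002005006009011402a40c032422711))) (.br (Nat.shiftLeft (nat_lit 0x800001) (nat_lit 125)) (.one (nat_lit 0x1000001003005006009011602a40c032422711)) (.br (Nat.shiftLeft (nat_lit 0x400000801) (nat_lit 114)) (.one (nat_lit 0x1000002003005006009011602a40c052822711)) (.one (nat_lit 0x1000002004005006009011802a40c052822711))))) (.br (Nat.shiftLeft (nat_lit 0x2000001003) (nat_lit 112)) (.br (Nat.shiftLeft (nat_lit 0x1) (nat_lit 149)) (.one (nat_lit 0x1000003004005006009011802a40c072c22711)) (.one (nat_lit 0x2000001002005006009011404a80c032422711))) (.br (Nat.shiftLeft (nat_lit 0x1000001) (nat_lit 125)) (.one (nat_lit 0x2000001003005006009011604a80c032422711))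 (.br (Nat.shiftLeft (nat_lit 0x800000801) (nat_lit 114)) (.one (nat_lit 0x2000002003005006009011604a80c052822711)) (.one (nat_lit 0x2000002004005006009011804a80c052822711)))))) (.br (Nat.shiftLeft (nat_lit 0x3000003) (nat_lit 124)) (.br (Nat.shiftLeft (nat_lit 0x3000001003) (nat_lit 112)) (.br (Nat.shiftLeft (nat_lit 0x3) (nat_lit 148)) (.one (nat_lit 0x2000003004005006009011804a80c072c22711)) (.one (nat_lit 0x3000001002005006009011406ac0c032422711))) (.br (Nat.shiftLeft (nat_lit 0x1800001) (nat_lit 125)) (.one (nat_lit 0x3000001003005006009011606ac0c032422711)) (.br (Nat.shiftLeft (nat_lit 0xc00000801) (nat_lit 114)) (.one (nat_lit 0x3000002003005006009011606ac0c052822711)) (.one (nat_lit 0x3000002004005006009011806ac0c052822711))))) (.br (Nat.shiftLeft (nat_lit 0x2000001) (nat_lit 125)) (.br (Nat.shiftLeft (nat_lit 0x1) (nat_lit 150)) (.one (nat_lit 0x3000003004005006009011806ac0c072c22711)) (.br (Nat.shiftLeft (nat_lit 0x4000001003) (nat_lit 112)) (.one (nat_lit 0x4000001002005006009011408b00c032422711)) (.one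 (nat_lit 0x4000001003005006009011608b00c032422711)))) (.br (Nat.shiftLeft (nat_lit 0x1000000801) (nat_lit 114)) (.one (nat_lit 0x4000002003005006009011608b00c052822711)) (.br (Nat.shiftLeft (nat_lit 0x4000003) (nat_lit 124)) (.one (nat_lit 0x4000002004005006009011808b00c052822711)) (.one (nat_lit 0x4000003004005006009011808b00c072c22711)))))))
def t240 : k240.all (jb2 57 fl b0) = true := by decide +kernel
noncomputable def k241 : KT := (.br (Nat.shiftLeft (nat_lit 0x5000001003) (nat_lit 112)) (.one (nat_lit 0x500000100200500600901140ab40c032422711)) (.br (Nat.shiftLeft (nat_lit 0x2800001) (nat_lit 125)) (.one (nat_lit 0x500000100300500600901160ab40c032422711)) (.one (nat_lit 0x500000200300500600901160ab40c052822711))))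
noncomputable def b242 : BT := .node (nat_lit 0x17) (nat_lit 0x48c5b664c14c893a126a00156c800554a00196d80064b6149a1304a86001cf2000572e0c8c5b664c06d924d0a2c00194c80145ca00994c80156b216d992f526893427495100032db000ab64003a1c000ae5c2db22b9a58c003357000ac60196328b24d0003357000ca641db349a13a0003299000ac6c10059300593005930059300593004d7004d7004d700477003bb003bb003bb003000030000300003000030000300002a0002a0002a000240001e0001e0) .leaf .leaf
def t241 : k241.all (jb2 57 fl b242) = true := by decide +kernel
noncomputable def k242 : KT := (.br (Nat.shiftLeft (nat_lit 0x5000003) (nat_lit 124)) (.one (nat_lit 0x500000200400500600901180ab40c052822711)) (.br (Nat.shiftLeft (nat_lit 0x3) (nat_lit 149)) (.one (nat_lit 0x500000300400500600901180ab40c072c22711)) (.one (nat_lit 0x600000100200500600901140cb80c032422711))))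
noncomputable def b243 : BT := .node (nat_lit 0xb) (nat_lit 0x6f0b6cc9d093527424d4003299000ab740032da000cb60293527412e80032da000cb6410020b0020b0020b0015000150001500015000150001500015000150000f0) .leaf .leaf
def t242 : k242.all (jb2 57 fl b243) = true := by decide +kernel
noncomputable def k243 : KT := (.br (Nat.shiftLeft (nat_lit 0x1800000801) (nat_lit 114)) (.br (Nat.shiftLeft (nat_lit 0x3000001) (nat_lit 125)) (.one (nat_lit 0x600000100300500600901160cb80c032422711)) (.one (nat_lit 0x600000200300500600901160cb80c052822711))) (.br (Nat.shiftLeft (nat_lit 0x6000003) (nat_lit 124)) (.one (nat_lit 0x600000200400500600901180cb80c052822711)) (.one (nat_lit 0x600000300400500600901180cb80c072c22711))))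
def t243 : k243.all (jb2 57 fl b0) = true := by decide +kernel
noncomputable def k244 : KT := (.br (Nat.shiftLeft (nat_lit 0x3800001) (nat_lit 125)) (.br (Nat.shiftLeft (nat_lit 0x7000001003) (nat_lit 112)) (.one (nat_lit 0x700000100200500600901140ebc0c032422711)) (.one (nat_lit 0x700000100300500600901160ebc0c032422711))) (.br (Nat.shiftLeft (nat_lit 0x1c00000801) (nat_lit 114)) (.one (nat_lit 0x700000200300500600901160ebc0c052822711)) (.br (Nat.shiftLeft (nat_lit 0x7000003) (nat_lit 124)) (.one (nat_lit 0x700000200400500600901180ebc0c052822711)) (.one (nat_lit 0x700000300400500600901180ebc0c072c22711)))))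
def t244 : k244.all (jb2 57 fl b0) = true := by decide +kernel
noncomputable def k245 : KT := (.br (Nat.shiftLeft (nat_lit 0x2000000801) (nat_lit 114)) (.br (Nat.shiftLeft (nat_lit 0x8000001003) (nat_lit 112)) (.one (nat_lit 0x8000001002005006009011410c00c032422711)) (.br (Nat.shiftLeft (nat_lit 0x4000001) (nat_lit 125)) (.one (nat_lit 0x8000001003005006009011610c00c032422711)) (.one (nat_lit 0x8000002003005006009011610c00c052822711)))) (.br (Nat.shiftLeft (nat_lit 0x8000003) (nat_lit 124)) (.one (nat_lit 0x8000002004005006009011810c00c052822711)) (.br (Nat.shiftLeft (nat_lit 0x9) (nat_lit 148)) (.one (nat_lit 0x8000003004005006009011810c00c072c22711)) (.one (nat_lit 0x9000001002005006009011412c40c032422711)))))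
def t245 : k245.all (jb2 57 fl b0) = true := by decide +kernel
noncomputable def k246 : KT := (.br (Nat.shiftLeft (nat_lit 0x2400000801) (nat_lit 114)) (.br (Nat.shiftLeft (nat_lit 0x4800001) (nat_lit 125)) (.one (nat_lit 0x9000001003005006009011612c40c032422711)) (.one (nat_lit 0x9000002003005006009011612c40c052822711))) (.br (Nat.shiftLeft (nat_lit 0x9000003) (nat_lit 124)) (.one (nat_lit 0x9000002004005006009011812c40c052822711)) (.one (nat_lit 0x9000003004005006009011812c40c072c22711))))
def t246 : k246.all (jb2 57 fl b0) = true := by decide +kernel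
noncomputable def s13 : KT := (.br (nat_lit 0x6000004005006009011800a0cd812022611) (.br (nat_lit 0x2000004005006009011800a04c812022611) (.br (nat_lit 0x8000005006009011000a00c114022511) (.br (nat_lit 0x3004005006009011800a00c072c23700) k223 (.br (nat_lit 0x6000005006009011000a00c0d3822511) k224 k225)) (.br (nat_lit 0x1000004005006009011800a02c412022611) k226 (.br (nat_lit 0x1002003005006009011600a02c452822870) k227 k228))) (.br (nat_lit 0x5000004005006009011800a0ad412022611) (.br (nat_lit 0x4000004005006009011800a08d012022611) k229 (.br (nat_lit 0x5000002005006009011400a0ad412022611) k230 k231)) (.br (nat_lit 0x6000001005006009011200a0cd812022611) k232 (.br (nat_lit 0x6000002005006009011400a0cd812022611) k233 k234)))) (.br (nat_lit 0x4000003004005006009011808b00c072c22711) (.br (nat_lit 0x8000001005006009011200a10e012022611) (.br (nat_lit 0x7000001005006009011200a0edc12022611) k235 (.br (nat_lit 0x7000003005006009011600a0edc12022611) k236 k237)) (.br (nat_lit 0x8000004005006009011800a10e012022611) k238 (.br (nat_lit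 0x9000003005006009011600a12e412022611) k239 k240))) (.br (nat_lit 0x600000300400500600901180cb80c072c22711) (.br (nat_lit 0x500000200300500600901160ab40c052822711) k241 (.br (nat_lit 0x600000100200500600901140cb80c032422711) k242 k243)) (.br (nat_lit 0x700000300400500600901180ebc0c072c22711) k244 (.br (nat_lit 0x9000001002005006009011412c40c032422711) k245 k246)))))
noncomputable def u13 : KT := (.one (nat_lit 0x5006009011000a00c012022540))
def w13 : u13.all (wj 57 s13) = true := by decide +kernel
def o13 : OkW 57 (jb2 57 fl) u13 := .lift s13 _ (.br _ _ _ (.br _ _ _ (.br _ _ _ (.br _ _ _ (.leaf b0 k223 t223) (.br _ _ _ (.leaf b225 k224 t224) (.leaf b0 k225 t225))) (.br _ _ _ (.leaf b227 k226 t226) (.br _ _ _ (.leaf b0 k227 t227) (.leaf b0 k228 t228)))) (.br _ _ _ (.br _ _ _ (.leaf b0 k229 t229) (.br _ _ _ (.leaf b0 k230 t230) (.leaf b0 k231 t231))) (.br _ _ _ (.leaf b233 k232 t232) (.br _ _ _ (.leaf b234 k233 t233) (.leaf b235 k234 t234))))) (.br _ _ _ (.br _ _ _ (.br _ _ _ (.leaf b0 k235 t235) (.br _ _ _ (.leaf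 b0 k236 t236) (.leaf b0 k237 t237))) (.br _ _ _ (.leaf b0 k238 t238) (.br _ _ _ (.leaf b0 k239 t239) (.leaf b0 k240 t240)))) (.br _ _ _ (.br _ _ _ (.leaf b242 k241 t241) (.br _ _ _ (.leaf b243 k242 t242) (.leaf b0 k243 t243))) (.br _ _ _ (.leaf b0 k244 t244) (.br _ _ _ (.leaf b0 k245 t245) (.leaf b0 k246 t246)))))) w13
noncomputable def k247 : KT := (.br (Nat.shiftLeft (nat_lit 0x1) (nat_lit 124)) (.br (Nat.shiftLeft (nat_lit 0x1) (nat_lit 113)) (.br (Nat.shiftLeft (nat_lit 0x1) (nat_lit 112)) (.one (nat_lit 0x5006009012000a00c012025500)) (.one (nat_lit 0x1005006009012200a00c012025600))) (.br (Nat.shiftLeft (nat_lit 0x3) (nat_lit 112)) (.one (nat_lit 0x2005006009012400a00c012025600)) (.br (Nat.shiftLeft (nat_lit 0x1) (nat_lit 114)) (.one (nat_lit 0x3005006009012600a00c012025600)) (.one (nat_lit 0x4005006009012800a00c012025600))))) (.br (Nat.shiftLeft (nat_lit 0x401) (nat_lit 114)) (.br (Nat.shiftLeft (nat_lit 0x801) (nat_lit 113)) (.one (nat_lit 0x1000005006009012000a00c032424511)) (.br (Nat.shiftLeft (nat_lit 0x1003)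 (nat_lit 112)) (.one (nat_lit 0x1002005006009012400a00c032425700)) (.one (nat_lit 0x1003005006009012600a00c032425700)))) (.br (Nat.shiftLeft (nat_lit 0x1) (nat_lit 125)) (.one (nat_lit 0x1004005006009012800a00c032424760)) (.br (Nat.shiftLeft (nat_lit 0x1001) (nat_lit 113)) (.one (nat_lit 0x2000005006009012000a00c052824511)) (.one (nat_lit 0x2003005006009012600a00c052825700))))))
def t247 : k247.all (jb2 57 fl b0) = true := by decide +kernel
noncomputable def k248 : KT := (.br (Nat.shiftLeft (nat_lit 0x3) (nat_lit 124)) (.one (nat_lit 0x2004005006009012800a00c052824760)) (.one (nat_lit 0x3000005006009012000a00c072c24511)))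
def t248 : k248.all (jb2 57 fl b0) = true := by decide +kernel
noncomputable def k249 : KT := (.br (Nat.shiftLeft (nat_lit 0x1) (nat_lit 126)) (.one (nat_lit 0x3004005006009012800a00c072c24760)) (.one (nat_lit 0x4000005006009012000a00c093024511)))
def t249 : k249.all (jb2 57 fl b0) = true := by decide +kernel
noncomputable def k250 : KT := (.br (Nat.shiftLeft (nat_lit 0x3) (nat_lit 125)) (.one (nat_lit 0x5000005006009012000a00c0b3424511)) (.br (Nat.shiftLeft (nat_lit 0x7) (nat_lit 124)) (.one (nat_lit 0x6000005006009012000a00c0d3824511)) (.one (nat_lit 0x7000005006009012000a00c0f3c24511))))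
def t250 : k250.all (jb2 57 fl b0) = true := by decide +kernel
noncomputable def k251 : KT := (.br (Nat.shiftLeft (nat_lit 0x800001) (nat_lit 113)) (.br (Nat.shiftLeft (nat_lit 0x9) (nat_lit 124)) (.one (nat_lit 0x8000005006009012000a00c114024511)) (.br (Nat.shiftLeft (nat_lit 0x1) (nat_lit 136)) (.one (nat_lit 0x9000005006009012000a00c134424511)) (.one (nat_lit 0x1000001005006009012200a02c412024611)))) (.br (Nat.shiftLeft (nat_lit 0x1000003) (nat_lit 112)) (.one (nat_lit 0x1000002005006009012400a02c412024611)) (.br (Nat.shiftLeft (nat_lit 0x400001) (nat_lit 114)) (.one (nat_lit 0x1000003005006009012600a02c412024611)) (.one (nat_lit 0x1000004005006009012800a02c412024611)))))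
def t251 : k251.all (jb2 57 fl b0) = true := by decide +kernel
noncomputable def k252 : KT := (.br (Nat.shiftLeft (nat_lit 0x1800001) (nat_lit 113)) (.br (Nat.shiftLeft (nat_lit 0x2000003) (nat_lit 112)) (.br (Nat.shiftLeft (nat_lit 0x1) (nat_lit 137)) (.one (nat_lit 0x1002003005006009012600a02c452824870)) (.br (Nat.shiftLeft (nat_lit 0x1000001) (nat_lit 113)) (.one (nat_lit 0x2000001005006009012200a04c812024611)) (.one (nat_lit 0x2000002005006009012400a04c812024611)))) (.br (Nat.shiftLeft (nat_lit 0x800001) (nat_lit 114)) (.one (nat_lit 0x2000003005006009012600a04c812024611)) (.br (Nat.shiftLeft (nat_lit 0x3) (nat_lit 136)) (.one (nat_lit 0x2000004005006009012800a04c812024611)) (.one (nat_lit 0x3000001005006009012200a06cc12024611))))) (.br (Nat.shiftLeft (nat_lit 0x1) (nat_lit 138)) (.br (Nat.shiftLeft (nat_lit 0x3000003) (nat_lit 112)) (.one (nat_lit 0x3000002005006009012400a06cc12024611)) (.br (Nat.shiftLeft (nat_lit 0xc00001) (nat_lit 114)) (.one (nat_lit 0x3000003005006009012600a06cc12024611)) (.one (nat_lit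 0x3000004005006009012800a06cc12024611)))) (.br (Nat.shiftLeft (nat_lit 0x2000001) (nat_lit 113)) (.one (nat_lit 0x4000001005006009012200a08d012024611)) (.br (Nat.shiftLeft (nat_lit 0x4000003) (nat_lit 112)) (.one (nat_lit 0x4000002005006009012400a08d012024611)) (.one (nat_lit 0x4000003005006009012600a08d012024611))))))
def t252 : k252.all (jb2 57 fl b0) = true := by decide +kernel
noncomputable def k253 : KT := (.br (Nat.shiftLeft (nat_lit 0x2800001) (nat_lit 113)) (.br (Nat.shiftLeft (nat_lit 0x5) (nat_lit 136)) (.one (nat_lit 0x4000004005006009012800a08d012024611)) (.one (nat_lit 0x5000001005006009012200a0ad412024611))) (.br (Nat.shiftLeft (nat_lit 0x5000003) (nat_lit 112)) (.one (nat_lit 0x5000002005006009012400a0ad412024611)) (.one (nat_lit 0x5000003005006009012600a0ad412024611))))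
def t253 : k253.all (jb2 57 fl b0) = true := by decide +kernel
noncomputable def k254 : KT := (.br (Nat.shiftLeft (nat_lit 0x3) (nat_lit 137)) (.one (nat_lit 0x5000004005006009012800a0ad412024611)) (.one (nat_lit 0x6000001005006009012200a0cd812024611)))
def t254 : k254.all (jb2 57 fl b0) = true := by decide +kernel
noncomputable def k255 : KT := (.br (Nat.shiftLeft (nat_lit 0x6000003) (nat_lit 112)) (.one (nat_lit 0x6000002005006009012400a0cd812024611)) (.br (Nat.shiftLeft (nat_lit 0x1800001) (nat_lit 114)) (.one (nat_lit 0x6000003005006009012600a0cd812024611)) (.one (nat_lit 0x6000004005006009012800a0cd812024611))))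
def t255 : k255.all (jb2 57 fl b0) = true := by decide +kernel
noncomputable def k256 : KT := (.br (Nat.shiftLeft (nat_lit 0x3800001) (nat_lit 113)) (.one (nat_lit 0x7000001005006009012200a0edc12024611)) (.one (nat_lit 0x7000002005006009012400a0edc12024611)))
def t256 : k256.all (jb2 57 fl b0) = true := by decide +kernel
noncomputable def k257 : KT := (.br (Nat.shiftLeft (nat_lit 0x1c00001) (nat_lit 114)) (.one (nat_lit 0x7000003005006009012600a0edc12024611)) (.br (Nat.shiftLeft (nat_lit 0x1) (nat_lit 139)) (.one (nat_lit 0x7000004005006009012800a0edc12024611)) (.one (nat_lit 0x8000001005006009012200a10e012024611))))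
def t257 : k257.all (jb2 57 fl b0) = true := by decide +kernel
noncomputable def k258 : KT := (.br (Nat.shiftLeft (nat_lit 0x2000001) (nat_lit 114)) (.br (Nat.shiftLeft (nat_lit 0x8000003) (nat_lit 112)) (.one (nat_lit 0x8000002005006009012400a10e012024611)) (.one (nat_lit 0x8000003005006009012600a10e012024611))) (.br (Nat.shiftLeft (nat_lit 0x9) (nat_lit 136)) (.one (nat_lit 0x8000004005006009012800a10e012024611)) (.br (Nat.shiftLeft (nat_lit 0x4800001) (nat_lit 113)) (.one (nat_lit 0x9000001005006009012200a12e412024611)) (.one (nat_lit 0x9000002005006009012400a12e412024611)))))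
def t258 : k258.all (jb2 57 fl b0) = true := by decide +kernel
noncomputable def k259 : KT := (.br (Nat.shiftLeft (nat_lit 0x1000001) (nat_lit 125)) (.br (Nat.shiftLeft (nat_lit 0x1000001003) (nat_lit 112)) (.br (Nat.shiftLeft (nat_lit 0x2400001) (nat_lit 114)) (.one (nat_lit 0x9000003005006009012600a12e412024611)) (.br (Nat.shiftLeft (nat_lit 0x1) (nat_lit 148)) (.one (nat_lit 0x9000004005006009012800a12e412024611)) (.one (nat_lit 0x1000001002005006009012402a40c032424711)))) (.br (Nat.shiftLeft (nat_lit 0x1) (nat_lit 149)) (.br (Nat.shiftLeft (nat_lit 0x800001) (nat_lit 125)) (.one (nat_lit 0x1000001003005006009012602a40c032424711)) (.one (nat_lit 0x1000002003005006009012602a40c052824711))) (.br (Nat.shiftLeft (nat_lit 0x2000001003) (nat_lit 112)) (.one (nat_lit 0x2000001002005006009012404a80c032424711)) (.one (nat_lit 0x2000001003005006009012604a80c032424711))))) (.br (Nat.shiftLeft (nat_lit 0x1) (nat_lit 150)) (.br (Nat.shiftLeft (nat_lit 0x3000001003) (nat_lit 112)) (.br (Nat.shiftLeft (nat_lit 0x3) (nat_lit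 148)) (.one (nat_lit 0x2000002003005006009012604a80c052824711)) (.one (nat_lit 0x3000001002005006009012406ac0c032424711))) (.br (Nat.shiftLeft (nat_lit 0x1800001) (nat_lit 125)) (.one (nat_lit 0x3000001003005006009012606ac0c032424711)) (.one (nat_lit 0x3000002003005006009012606ac0c052824711)))) (.br (Nat.shiftLeft (nat_lit 0x2000001) (nat_lit 125)) (.br (Nat.shiftLeft (nat_lit 0x4000001003) (nat_lit 112)) (.one (nat_lit 0x4000001002005006009012408b00c032424711)) (.one (nat_lit 0x4000001003005006009012608b00c032424711))) (.br (Nat.shiftLeft (nat_lit 0x5) (nat_lit 148)) (.one (nat_lit 0x4000002003005006009012608b00c052824711)) (.one (nat_lit 0x500000100200500600901240ab40c032424711))))))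
def t259 : k259.all (jb2 57 fl b0) = true := by decide +kernel
noncomputable def k260 : KT := (.br (Nat.shiftLeft (nat_lit 0x3) (nat_lit 149)) (.br (Nat.shiftLeft (nat_lit 0x2800001) (nat_lit 125)) (.one (nat_lit 0x500000100300500600901260ab40c032424711)) (.one (nat_lit 0x500000200300500600901260ab40c052824711))) (.br (Nat.shiftLeft (nat_lit 0x6000001003) (nat_lit 112)) (.one (nat_lit 0x600000100200500600901240cb80c032424711)) (.one (nat_lit 0x600000100300500600901260cb80c032424711))))
def t260 : k260.all (jb2 57 fl b0) = true := by decide +kernel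
noncomputable def k261 : KT := (.br (Nat.shiftLeft (nat_lit 0x3800001) (nat_lit 125)) (.br (Nat.shiftLeft (nat_lit 0x7) (nat_lit 148)) (.one (nat_lit 0x600000200300500600901260cb80c052824711)) (.br (Nat.shiftLeft (nat_lit 0x7000001003) (nat_lit 112)) (.one (nat_lit 0x700000100200500600901240ebc0c032424711)) (.one (nat_lit 0x700000100300500600901260ebc0c032424711)))) (.br (Nat.shiftLeft (nat_lit 0x1) (nat_lit 151)) (.one (nat_lit 0x700000200300500600901260ebc0c052824711)) (.br (Nat.shiftLeft (nat_lit 0x8000001003) (nat_lit 112)) (.one (nat_lit 0x8000001002005006009012410c00c032424711)) (.one (nat_lit 0x8000001003005006009012610c00c032424711)))))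
def t261 : k261.all (jb2 57 fl b0) = true := by decide +kernel
noncomputable def k262 : KT := (.br (Nat.shiftLeft (nat_lit 0x9000001003) (nat_lit 112)) (.br (Nat.shiftLeft (nat_lit 0x9) (nat_lit 148)) (.one (nat_lit 0x8000002003005006009012610c00c052824711)) (.one (nat_lit 0x9000001002005006009012412c40c032424711))) (.br (Nat.shiftLeft (nat_lit 0x4800001) (nat_lit 125)) (.one (nat_lit 0x9000001003005006009012612c40c032424711)) (.one (nat_lit 0x9000002003005006009012612c40c052824711))))
def t262 : k262.all (jb2 57 fl b0) = true := by decide +kernel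
noncomputable def s14 : KT := (.br (nat_lit 0x6000001005006009012200a0cd812024611) (.br (nat_lit 0x7000005006009012000a00c0f3c24511) (.br (nat_lit 0x3000005006009012000a00c072c24511) (.br (nat_lit 0x2003005006009012600a00c052825700) k247 k248) (.br (nat_lit 0x4000005006009012000a00c093024511) k249 k250)) (.br (nat_lit 0x4000003005006009012600a08d012024611) (.br (nat_lit 0x1000004005006009012800a02c412024611) k251 k252) (.br (nat_lit 0x5000003005006009012600a0ad412024611) k253 k254))) (.br (nat_lit 0x9000002005006009012400a12e412024611) (.br (nat_lit 0x7000002005006009012400a0edc12024611) (.br (nat_lit 0x6000004005006009012800a0cd812024611) k255 k256) (.br (nat_lit 0x8000001005006009012200a10e012024611) k257 k258)) (.br (nat_lit 0x600000100300500600901260cb80c032424711) (.br (nat_lit 0x500000100200500600901240ab40c032424711) k259 k260) (.br (nat_lit 0x8000001003005006009012610c00c032424711) k261 k262))))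
noncomputable def u14 : KT := (.one (nat_lit 0x5006009012000a00c012024540))
def w14 : u14.all (wj 57 s14) = true := by decide +kernel
def o14 : OkW 57 (jb2 57 fl) u14 := .lift s14 _ (.br _ _ _ (.br _ _ _ (.br _ _ _ (.br _ _ _ (.leaf b0 k247 t247) (.leaf b0 k248 t248)) (.br _ _ _ (.leaf b0 k249 t249) (.leaf b0 k250 t250))) (.br _ _ _ (.br _ _ _ (.leaf b0 k251 t251) (.leaf b0 k252 t252)) (.br _ _ _ (.leaf b0 k253 t253) (.leaf b0 k254 t254)))) (.br _ _ _ (.br _ _ _ (.br _ _ _ (.leaf b0 k255 t255) (.leaf b0 k256 t256)) (.br _ _ _ (.leaf b0 k257 t257) (.leaf b0 k258 t258))) (.br _ _ _ (.br _ _ _ (.leaf b0 k259 t259) (.leaf b0 k260 t260)) (.br _ _ _ (.leaf b0 k261 t261) (.leaf b0 k262 t262))))) w14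
noncomputable def k263 : KT := (.br (Nat.shiftLeft (nat_lit 0x401401802405) (nat_lit 66)) (.br (Nat.shiftLeft (nat_lit 0x500600a00d) (nat_lit 64)) (.br (Nat.shiftLeft (nat_lit 0x2803005) (nat_lit 77)) (.br (Nat.shiftLeft (nat_lit 0x1401802405) (nat_lit 66)) (.one (nat_lit 0x5006009013000a00c012027500)) (.one (nat_lit 0x5006009014000a00c012029500))) (.br (Nat.shiftLeft (nat_lit 0x1401802803) (nat_lit 66)) (.one (nat_lit 0x500600a00b000a00c014017500)) (.one (nat_lit 0x500600a00c000a00c014019500)))) (.br (Nat.shiftLeft (nat_lit 0x500600a00f) (nat_lit 64)) (.br (Nat.shiftLeft (nat_lit 0x2803005007) (nat_lit 65)) (.one (nat_lit 0x500600a00d000a00c01401b500)) (.one (nat_lit 0x500600a00e000a00c01401d500))) (.br (Nat.shiftLeft (nat_lit 0x500600a01) (nat_lit 68)) (.one (nat_lit 0x500600a00f000a00c01401f500)) (.br (Nat.shiftLeft (nat_lit 0x1) (nat_lit 112)) (.one (nat_lit 0x500600a010000a00c014021500)) (.one (nat_lit 0x1005006009013200a00c012027600)))))) (.br (Nat.shiftLeft (nat_lit 0x1) (nat_lit 114)) (.br (Nat.shiftLeft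 (nat_lit 0x801401802405) (nat_lit 66)) (.br (Nat.shiftLeft (nat_lit 0x1) (nat_lit 113)) (.one (nat_lit 0x1005006009014200a00c012029600)) (.one (nat_lit 0x2005006009013400a00c012027600))) (.br (Nat.shiftLeft (nat_lit 0x3) (nat_lit 112)) (.one (nat_lit 0x2005006009014400a00c012029600)) (.br (Nat.shiftLeft (nat_lit 0xc01401802405) (nat_lit 66)) (.one (nat_lit 0x3005006009013600a00c012027600)) (.one (nat_lit 0x3005006009014600a00c012029600))))) (.br (Nat.shiftLeft (nat_lit 0x1) (nat_lit 124)) (.br (Nat.shiftLeft (nat_lit 0x1001401802405) (nat_lit 66)) (.one (nat_lit 0x4005006009013800a00c012027600)) (.one (nat_lit 0x4005006009014800a00c012029600))) (.br (Nat.shiftLeft (nat_lit 0x400001401802405) (nat_lit 66)) (.one (nat_lit 0x1000005006009013000a00c032426511)) (.br (Nat.shiftLeft (nat_lit 0x801) (nat_lit 113)) (.one (nat_lit 0x1000005006009014000a00c032428511)) (.one (nat_lit 0x1002005006009013400a00c032426760)))))))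
def t263 : k263.all (jb2 57 fl b0) = true := by decide +kernel
noncomputable def k264 : KT := (.one (nat_lit 0x1002005006009014400a00c032428760))
def t264 : k264.all (jb2 57 fl b0) = true := by decide +kernel
noncomputable def k265 : KT := (.one (nat_lit 0x1003005006009013600a00c032426760))
def t265 : k265.all (jb2 57 fl b0) = true := by decide +kernel
noncomputable def k266 : KT := (.br (Nat.shiftLeft (nat_lit 0x401) (nat_lit 114)) (.one (nat_lit 0x1003005006009014600a00c032428760)) (.one (nat_lit 0x1004005006009013800a00c032426760)))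
def t266 : k266.all (jb2 57 fl b0) = true := by decide +kernel
noncomputable def k267 : KT := (.br (Nat.shiftLeft (nat_lit 0x1) (nat_lit 125)) (.one (nat_lit 0x1004005006009014800a00c032428760)) (.br (Nat.shiftLeft (nat_lit 0x800001401802405) (nat_lit 66)) (.one (nat_lit 0x2000005006009013000a00c052826511)) (.one (nat_lit 0x2000005006009014000a00c052828511))))
def t267 : k267.all (jb2 57 fl b0) = true := by decide +kernel
noncomputable def k268 : KT := (.one (nat_lit 0x2003005006009013600a00c052826760))
def t268 : k268.all (jb2 57 fl b0) = true := by decide +kernel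
noncomputable def k269 : KT := (.one (nat_lit 0x2003005006009014600a00c052828760))
def t269 : k269.all (jb2 57 fl b0) = true := by decide +kernel
noncomputable def k270 : KT := (.br (Nat.shiftLeft (nat_lit 0x3) (nat_lit 124)) (.br (Nat.shiftLeft (nat_lit 0x801001401802405) (nat_lit 66)) (.one (nat_lit 0x2004005006009013800a00c052826760)) (.one (nat_lit 0x2004005006009014800a00c052828760))) (.br (Nat.shiftLeft (nat_lit 0xc00001401802405) (nat_lit 66)) (.one (nat_lit 0x3000005006009013000a00c072c26511)) (.one (nat_lit 0x3000005006009014000a00c072c28511))))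
def t270 : k270.all (jb2 57 fl b0) = true := by decide +kernel
noncomputable def k271 : KT := (.br (Nat.shiftLeft (nat_lit 0xc01001401802405) (nat_lit 66)) (.one (nat_lit 0x3004005006009013800a00c072c26760)) (.one (nat_lit 0x3004005006009014800a00c072c28760)))
def t271 : k271.all (jb2 57 fl b0) = true := by decide +kernel
noncomputable def k272 : KT := (.br (Nat.shiftLeft (nat_lit 0x1400001401802405) (nat_lit 66)) (.br (Nat.shiftLeft (nat_lit 0x1000001401802405) (nat_lit 66)) (.one (nat_lit 0x4000005006009013000a00c093026511)) (.br (Nat.shiftLeft (nat_lit 0x5) (nat_lit 124)) (.one (nat_lit 0x4000005006009014000a00c093028511)) (.one (nat_lit 0x5000005006009013000a00c0b3426511)))) (.br (Nat.shiftLeft (nat_lit 0x3) (nat_lit 125)) (.one (nat_lit 0x5000005006009014000a00c0b3428511)) (.br (Nat.shiftLeft (nat_lit 0x1800001401802405) (nat_lit 66)) (.one (nat_lit 0x6000005006009013000a00c0d3826511)) (.one (nat_lit 0x6000005006009014000a00c0d3828511)))))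
def t272 : k272.all (jb2 57 fl b0) = true := by decide +kernel
noncomputable def k273 : KT := (.br (Nat.shiftLeft (nat_lit 0x1) (nat_lit 127)) (.br (Nat.shiftLeft (nat_lit 0x1c00001401802405) (nat_lit 66)) (.one (nat_lit 0x7000005006009013000a00c0f3c26511)) (.one (nat_lit 0x7000005006009014000a00c0f3c28511))) (.br (Nat.shiftLeft (nat_lit 0x2000001401802405) (nat_lit 66)) (.one (nat_lit 0x8000005006009013000a00c114026511)) (.one (nat_lit 0x8000005006009014000a00c114028511))))
def t273 : k273.all (jb2 57 fl b0) = true := by decide +kernel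
noncomputable def k274 : KT := (.br (Nat.shiftLeft (nat_lit 0x800000c01401802405) (nat_lit 66)) (.br (Nat.shiftLeft (nat_lit 0x400000c01401802405) (nat_lit 66)) (.br (Nat.shiftLeft (nat_lit 0x400000401401802405) (nat_lit 66)) (.br (Nat.shiftLeft (nat_lit 0x2400001401802405) (nat_lit 66)) (.one (nat_lit 0x9000005006009013000a00c134426511)) (.br (Nat.shiftLeft (nat_lit 0x1) (nat_lit 136)) (.one (nat_lit 0x9000005006009014000a00c134428511)) (.one (nat_lit 0x1000001005006009013200a02c412026611)))) (.br (Nat.shiftLeft (nat_lit 0x400000801401802405) (nat_lit 66)) (.br (Nat.shiftLeft (nat_lit 0x800001) (nat_lit 113)) (.one (nat_lit 0x1000001005006009014200a02c412028611)) (.one (nat_lit 0x1000002005006009013400a02c412026611))) (.br (Nat.shiftLeft (nat_lit 0x1000003) (nat_lit 112)) (.one (nat_lit 0x1000002005006009014400a02c412028611)) (.one (nat_lit 0x1000003005006009013600a02c412026611))))) (.br (Nat.shiftLeft (nat_lit 0x800000401401802405) (nat_lit 66)) (.br (Nat.shiftLeft (nat_lit 0x400001001401802405) (nat_lit 66)) (.br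 (Nat.shiftLeft (nat_lit 0x400001) (nat_lit 114)) (.one (nat_lit 0x1000003005006009014600a02c412028611)) (.one (nat_lit 0x1000004005006009013800a02c412026611))) (.br (Nat.shiftLeft (nat_lit 0x1) (nat_lit 137)) (.one (nat_lit 0x1000004005006009014800a02c412028611)) (.one (nat_lit 0x2000001005006009013200a04c812026611)))) (.br (Nat.shiftLeft (nat_lit 0x800000801401802405) (nat_lit 66)) (.br (Nat.shiftLeft (nat_lit 0x1000001) (nat_lit 113)) (.one (nat_lit 0x2000001005006009014200a04c812028611)) (.one (nat_lit 0x2000002005006009013400a04c812026611))) (.br (Nat.shiftLeft (nat_lit 0x2000003) (nat_lit 112)) (.one (nat_lit 0x2000002005006009014400a04c812028611)) (.one (nat_lit 0x2000003005006009013600a04c812026611)))))) (.br (Nat.shiftLeft (nat_lit 0x3000003) (nat_lit 112)) (.br (Nat.shiftLeft (nat_lit 0x3) (nat_lit 136)) (.br (Nat.shiftLeft (nat_lit 0x800001) (nat_lit 114)) (.one (nat_lit 0x2000003005006009014600a04c812028611)) (.br (Nat.shiftLeft (nat_lit 0x800001001401802405) (nat_lit 66)) (.one (nat_lit 0x2000004005006009013800a04c812026611))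 (.one (nat_lit 0x2000004005006009014800a04c812028611)))) (.br (Nat.shiftLeft (nat_lit 0x1800001) (nat_lit 113)) (.br (Nat.shiftLeft (nat_lit 0xc00000401401802405) (nat_lit 66)) (.one (nat_lit 0x3000001005006009013200a06cc12026611)) (.one (nat_lit 0x3000001005006009014200a06cc12028611))) (.br (Nat.shiftLeft (nat_lit 0xc00000801401802405) (nat_lit 66)) (.one (nat_lit 0x3000002005006009013400a06cc12026611)) (.one (nat_lit 0x3000002005006009014400a06cc12028611))))) (.br (Nat.shiftLeft (nat_lit 0x1) (nat_lit 138)) (.br (Nat.shiftLeft (nat_lit 0xc00001) (nat_lit 114)) (.br (Nat.shiftLeft (nat_lit 0xc00000c01401802405) (nat_lit 66)) (.one (nat_lit 0x3000003005006009013600a06cc12026611)) (.one (nat_lit 0x3000003005006009014600a06cc12028611))) (.br (Nat.shiftLeft (nat_lit 0xc00001001401802405) (nat_lit 66)) (.one (nat_lit 0x3000004005006009013800a06cc12026611)) (.one (nat_lit 0x3000004005006009014800a06cc12028611)))) (.br (Nat.shiftLeft (nat_lit 0x2000001) (nat_lit 113)) (.br (Nat.shiftLeft (nat_lit 0x1000000401401802405)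 (nat_lit 66)) (.one (nat_lit 0x4000001005006009013200a08d012026611)) (.one (nat_lit 0x4000001005006009014200a08d012028611))) (.br (Nat.shiftLeft (nat_lit 0x1000000801401802405) (nat_lit 66)) (.one (nat_lit 0x4000002005006009013400a08d012026611)) (.one (nat_lit 0x4000002005006009014400a08d012028611)))))))
def t274 : k274.all (jb2 57 fl b0) = true := by decide +kernel
noncomputable def k275 : KT := (.br (Nat.shiftLeft (nat_lit 0x1000001001401802405) (nat_lit 66)) (.br (Nat.shiftLeft (nat_lit 0x1000000c01401802405) (nat_lit 66)) (.one (nat_lit 0x4000003005006009013600a08d012026611)) (.br (Nat.shiftLeft (nat_lit 0x1000001) (nat_lit 114)) (.one (nat_lit 0x4000003005006009014600a08d012028611)) (.one (nat_lit 0x4000004005006009013800a08d012026611)))) (.br (Nat.shiftLeft (nat_lit 0x5) (nat_lit 136)) (.one (nat_lit 0x4000004005006009014800a08d012028611)) (.br (Nat.shiftLeft (nat_lit 0x1400000401401802405) (nat_lit 66)) (.one (nat_lit 0x5000001005006009013200a0ad412026611)) (.one (nat_lit 0x5000001005006009014200a0ad412028611)))))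
def t275 : k275.all (jb2 57 fl b0) = true := by decide +kernel
noncomputable def k276 : KT := (.br (Nat.shiftLeft (nat_lit 0x1400000c01401802405) (nat_lit 66)) (.br (Nat.shiftLeft (nat_lit 0x1400000801401802405) (nat_lit 66)) (.one (nat_lit 0x5000002005006009013400a0ad412026611)) (.br (Nat.shiftLeft (nat_lit 0x5000003) (nat_lit 112)) (.one (nat_lit 0x5000002005006009014400a0ad412028611)) (.one (nat_lit 0x5000003005006009013600a0ad412026611)))) (.br (Nat.shiftLeft (nat_lit 0x1400001) (nat_lit 114)) (.one (nat_lit 0x5000003005006009014600a0ad412028611)) (.br (Nat.shiftLeft (nat_lit 0x1400001001401802405) (nat_lit 66)) (.one (nat_lit 0x5000004005006009013800a0ad412026611)) (.one (nat_lit 0x5000004005006009014800a0ad412028611)))))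
def t276 : k276.all (jb2 57 fl b0) = true := by decide +kernel
noncomputable def k277 : KT := (.br (Nat.shiftLeft (nat_lit 0x1800000401401802405) (nat_lit 66)) (.one (nat_lit 0x6000001005006009013200a0cd812026611)) (.br (Nat.shiftLeft (nat_lit 0x3000001) (nat_lit 113)) (.one (nat_lit 0x6000001005006009014200a0cd812028611)) (.one (nat_lit 0x6000002005006009013400a0cd812026611))))
def t277 : k277.all (jb2 57 fl b0) = true := by decide +kernel
noncomputable def k278 : KT := (.br (Nat.shiftLeft (nat_lit 0x1800000c01401802405) (nat_lit 66)) (.br (Nat.shiftLeft (nat_lit 0x6000003) (nat_lit 112)) (.one (nat_lit 0x6000002005006009014400a0cd812028611)) (.one (nat_lit 0x6000003005006009013600a0cd812026611))) (.br (Nat.shiftLeft (nat_lit 0x1800001) (nat_lit 114)) (.one (nat_lit 0x6000003005006009014600a0cd812028611)) (.br (Nat.shiftLeft (nat_lit 0x1800001001401802405) (nat_lit 66)) (.one (nat_lit 0x6000004005006009013800a0cd812026611)) (.one (nat_lit 0x6000004005006009014800a0cd812028611)))))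
def t278 : k278.all (jb2 57 fl b0) = true := by decide +kernel
noncomputable def k279 : KT := (.br (Nat.shiftLeft (nat_lit 0x3800001) (nat_lit 113)) (.br (Nat.shiftLeft (nat_lit 0x1c00000401401802405) (nat_lit 66)) (.one (nat_lit 0x7000001005006009013200a0edc12026611)) (.one (nat_lit 0x7000001005006009014200a0edc12028611))) (.br (Nat.shiftLeft (nat_lit 0x1c00000801401802405) (nat_lit 66)) (.one (nat_lit 0x7000002005006009013400a0edc12026611)) (.one (nat_lit 0x7000002005006009014400a0edc12028611))))
def t279 : k279.all (jb2 57 fl b0) = true := by decide +kernel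
noncomputable def k280 : KT := (.br (Nat.shiftLeft (nat_lit 0x1c00001001401802405) (nat_lit 66)) (.br (Nat.shiftLeft (nat_lit 0x1c00000c01401802405) (nat_lit 66)) (.one (nat_lit 0x7000003005006009013600a0edc12026611)) (.br (Nat.shiftLeft (nat_lit 0x1c00001) (nat_lit 114)) (.one (nat_lit 0x7000003005006009014600a0edc12028611)) (.one (nat_lit 0x7000004005006009013800a0edc12026611)))) (.br (Nat.shiftLeft (nat_lit 0x2000000401401802405) (nat_lit 66)) (.br (Nat.shiftLeft (nat_lit 0x1) (nat_lit 139)) (.one (nat_lit 0x7000004005006009014800a0edc12028611)) (.one (nat_lit 0x8000001005006009013200a10e012026611))) (.br (Nat.shiftLeft (nat_lit 0x4000001) (nat_lit 113)) (.one (nat_lit 0x8000001005006009014200a10e012028611)) (.one (nat_lit 0x8000002005006009013400a10e012026611)))))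
def t280 : k280.all (jb2 57 fl b0) = true := by decide +kernel
noncomputable def k281 : KT := (.br (Nat.shiftLeft (nat_lit 0x2400000401401802405) (nat_lit 66)) (.br (Nat.shiftLeft (nat_lit 0x2000001) (nat_lit 114)) (.br (Nat.shiftLeft (nat_lit 0x8000003) (nat_lit 112)) (.one (nat_lit 0x8000002005006009014400a10e012028611)) (.br (Nat.shiftLeft (nat_lit 0x2000000c01401802405) (nat_lit 66)) (.one (nat_lit 0x8000003005006009013600a10e012026611)) (.one (nat_lit 0x8000003005006009014600a10e012028611)))) (.br (Nat.shiftLeft (nat_lit 0x2000001001401802405) (nat_lit 66)) (.one (nat_lit 0x8000004005006009013800a10e012026611)) (.br (Nat.shiftLeft (nat_lit 0x9) (nat_lit 136)) (.one (nat_lit 0x8000004005006009014800a10e012028611)) (.one (nat_lit 0x9000001005006009013200a12e412026611))))) (.br (Nat.shiftLeft (nat_lit 0x9000003) (nat_lit 112)) (.br (Nat.shiftLeft (nat_lit 0x4800001) (nat_lit 113)) (.one (nat_lit 0x9000001005006009014200a12e412028611)) (.br (Nat.shiftLeft (nat_lit 0x2400000801401802405) (nat_lit 66)) (.one (nat_lit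 0x9000002005006009013400a12e412026611)) (.one (nat_lit 0x9000002005006009014400a12e412028611)))) (.br (Nat.shiftLeft (nat_lit 0x2400001) (nat_lit 114)) (.br (Nat.shiftLeft (nat_lit 0x2400000c01401802405) (nat_lit 66)) (.one (nat_lit 0x9000003005006009013600a12e412026611)) (.one (nat_lit 0x9000003005006009014600a12e412028611))) (.br (Nat.shiftLeft (nat_lit 0x2400001001401802405) (nat_lit 66)) (.one (nat_lit 0x9000004005006009013800a12e412026611)) (.one (nat_lit 0x9000004005006009014800a12e412028611))))))
def t281 : k281.all (jb2 57 fl b0) = true := by decide +kernel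
noncomputable def s15 : KT := (.br (nat_lit 0x3004005006009014800a00c072c28760) (.br (nat_lit 0x1004005006009013800a00c032426760) (.br (nat_lit 0x1002005006009014400a00c032428760) (.br (nat_lit 0x1002005006009013400a00c032426760) k263 k264) (.br (nat_lit 0x1003005006009013600a00c032426760) k265 k266)) (.br (nat_lit 0x2003005006009013600a00c052826760) (.br (nat_lit 0x2000005006009014000a00c052828511) k267 k268) (.br (nat_lit 0x2003005006009014600a00c052828760) k269 (.br (nat_lit 0x3000005006009014000a00c072c28511) k270 k271)))) (.br (nat_lit 0x5000004005006009014800a0ad412028611) (.br (nat_lit 0x8000005006009014000a00c114028511) (.br (nat_lit 0x6000005006009014000a00c0d3828511) k272 k273) (.br (nat_lit 0x4000002005006009014400a08d012028611) k274 (.br (nat_lit 0x5000001005006009014200a0ad412028611) k275 k276))) (.br (nat_lit 0x6000004005006009014800a0cd812028611) (.br (nat_lit 0x6000002005006009013400a0cd812026611) k277 k278) (.br (nat_lit 0x7000002005006009014400a0edc12028611) k279 (.br (nat_lit 0x8000002005006009013400a10e012026611)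 k280 k281)))))
noncomputable def u15 : KT := (.br (Nat.shiftLeft (nat_lit 0x500600a00d) (nat_lit 64)) (.br (Nat.shiftLeft (nat_lit 0x2803005) (nat_lit 77)) (.br (Nat.shiftLeft (nat_lit 0x1401802405) (nat_lit 66)) (.one (nat_lit 0x5006009013000a00c012026540)) (.one (nat_lit 0x5006009014000a00c012028540))) (.br (Nat.shiftLeft (nat_lit 0x1401802803) (nat_lit 66)) (.one (nat_lit 0x500600a00b000a00c014017500)) (.one (nat_lit 0x500600a00c000a00c014019500)))) (.br (Nat.shiftLeft (nat_lit 0x500600a00f) (nat_lit 64)) (.br (Nat.shiftLeft (nat_lit 0x2803005007) (nat_lit 65)) (.one (nat_lit 0x500600a00d000a00c01401b500)) (.one (nat_lit 0x500600a00e000a00c01401d500))) (.br (Nat.shiftLeft (nat_lit 0x500600a01) (nat_lit 68)) (.one (nat_lit 0x500600a00f000a00c01401f500)) (.one (nat_lit 0x500600a010000a00c014021500)))))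
def w15 : u15.all (wj 57 s15) = true := by decide +kernel
def o15 : OkW 57 (jb2 57 fl) u15 := .lift s15 _ (.br _ _ _ (.br _ _ _ (.br _ _ _ (.br _ _ _ (.leaf b0 k263 t263) (.leaf b0 k264 t264)) (.br _ _ _ (.leaf b0 k265 t265) (.leaf b0 k266 t266))) (.br _ _ _ (.br _ _ _ (.leaf b0 k267 t267) (.leaf b0 k268 t268)) (.br _ _ _ (.leaf b0 k269 t269) (.br _ _ _ (.leaf b0 k270 t270) (.leaf b0 k271 t271))))) (.br _ _ _ (.br _ _ _ (.br _ _ _ (.leaf b0 k272 t272) (.leaf b0 k273 t273)) (.br _ _ _ (.leaf b0 k274 t274) (.br _ _ _ (.leaf b0 k275 t275) (.leaf b0 k276 t276)))) (.br _ _ _ (.br _ _ _ (.leaf b0 k277 t277) (.leaf b0 k278 t278)) (.br _ _ _ (.leaf b0 k279 t279) (.br _ _ _ (.leaf b0 k280 t280) (.leaf b0 k281 t281)))))) w15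
noncomputable def k282 : KT := (.br (Nat.shiftLeft (nat_lit 0x1) (nat_lit 124)) (.br (Nat.shiftLeft (nat_lit 0x1) (nat_lit 113)) (.br (Nat.shiftLeft (nat_lit 0x1) (nat_lit 112)) (.one (nat_lit 0x500600a011000a00c014023500)) (.one (nat_lit 0x100500600a011200a00c014023600))) (.br (Nat.shiftLeft (nat_lit 0x3) (nat_lit 112)) (.one (nat_lit 0x200500600a011400a00c014023600)) (.br (Nat.shiftLeft (nat_lit 0x1) (nat_lit 114)) (.one (nat_lit 0x300500600a011600a00c014023600)) (.one (nat_lit 0x400500600a011800a00c014023600))))) (.br (Nat.shiftLeft (nat_lit 0x401) (nat_lit 114)) (.br (Nat.shiftLeft (nat_lit 0x801) (nat_lit 113)) (.one (nat_lit 0x100000500600a011000a00c034422511)) (.br (Nat.shiftLeft (nat_lit 0x1003) (nat_lit 112)) (.one (nat_lit 0x100200500600a011400a00c034423700)) (.one (nat_lit 0x100300500600a011600a00c034423700)))) (.br (Nat.shiftLeft (nat_lit 0x1) (nat_lit 125)) (.one (nat_lit 0x100400500600a011800a00c034422760)) (.br (Nat.shiftLeft (nat_lit 0x1001) (nat_lit 113)) (.one (nat_lit 0x200000500600a011000a00c054822511))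 (.one (nat_lit 0x200300500600a011600a00c054823700))))))
def t282 : k282.all (jb2 57 fl b0) = true := by decide +kernel
noncomputable def k283 : KT := (.br (Nat.shiftLeft (nat_lit 0x3) (nat_lit 124)) (.one (nat_lit 0x200400500600a011800a00c054822760)) (.one (nat_lit 0x300000500600a011000a00c074c22511)))
def t283 : k283.all (jb2 57 fl b0) = true := by decide +kernel
noncomputable def k284 : KT := (.br (Nat.shiftLeft (nat_lit 0x1) (nat_lit 126)) (.one (nat_lit 0x300400500600a011800a00c074c22760)) (.one (nat_lit 0x400000500600a011000a00c095022511)))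
def t284 : k284.all (jb2 57 fl b0) = true := by decide +kernel
noncomputable def k285 : KT := (.br (Nat.shiftLeft (nat_lit 0x3) (nat_lit 125)) (.one (nat_lit 0x500000500600a011000a00c0b5422511)) (.one (nat_lit 0x600000500600a011000a00c0d5822511)))
def t285 : k285.all (jb2 57 fl b0) = true := by decide +kernel
noncomputable def k286 : KT := (.br (Nat.shiftLeft (nat_lit 0x1) (nat_lit 127)) (.one (nat_lit 0x700000500600a011000a00c0f5c22511)) (.one (nat_lit 0x800000500600a011000a00c116022511)))
def t286 : k286.all (jb2 57 fl b0) = true := by decide +kernel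
noncomputable def k287 : KT := (.br (Nat.shiftLeft (nat_lit 0x800001) (nat_lit 113)) (.br (Nat.shiftLeft (nat_lit 0x5) (nat_lit 125)) (.one (nat_lit 0x900000500600a011000a00c136422511)) (.br (Nat.shiftLeft (nat_lit 0x1) (nat_lit 136)) (.one (nat_lit 0xa00000500600a011000a00c156822511)) (.one (nat_lit 0x100000100500600a011200a02c414022611)))) (.br (Nat.shiftLeft (nat_lit 0x1000003) (nat_lit 112)) (.one (nat_lit 0x100000200500600a011400a02c414022611)) (.br (Nat.shiftLeft (nat_lit 0x400001) (nat_lit 114)) (.one (nat_lit 0x100000300500600a011600a02c414022611)) (.one (nat_lit 0x100000400500600a011800a02c414022611)))))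
noncomputable def b288 : BT := .node (nat_lit 0x17) (nat_lit 0x2a1a4e09d0001d4c000743a0cb1a4e097cdb428a258c003a5d000cb600032d9000ac60296328a13000032d8000c99810035a0035a0035a0035a0035a0035a0035a002fb002400024000240001e0001e0001e0001e0001e0001e0001e0001e0001e0001e0001e0001e0001e0) .leaf .leaf
def t287 : k287.all (jb2 57 fl b288) = true := by decide +kernel
noncomputable def k288 : KT := (.br (Nat.shiftLeft (nat_lit 0x1800001) (nat_lit 113)) (.br (Nat.shiftLeft (nat_lit 0x2000003) (nat_lit 112)) (.br (Nat.shiftLeft (nat_lit 0x1) (nat_lit 137)) (.one (nat_lit 0x100200300500600a011600a02c454822870)) (.br (Nat.shiftLeft (nat_lit 0x1000001) (nat_lit 113)) (.one (nat_lit 0x200000100500600a011200a04c814022611)) (.one (nat_lit 0x200000200500600a011400a04c814022611)))) (.br (Nat.shiftLeft (nat_lit 0x800001) (nat_lit 114)) (.one (nat_lit 0x200000300500600a011600a04c814022611)) (.br (Nat.shiftLeft (nat_lit 0x3) (nat_lit 136)) (.one (nat_lit 0x200000400500600a011800a04c814022611)) (.one (nat_lit 0x300000100500600a011200a06cc14022611)))))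 (.br (Nat.shiftLeft (nat_lit 0x1) (nat_lit 138)) (.br (Nat.shiftLeft (nat_lit 0x3000003) (nat_lit 112)) (.one (nat_lit 0x300000200500600a011400a06cc14022611)) (.br (Nat.shiftLeft (nat_lit 0xc00001) (nat_lit 114)) (.one (nat_lit 0x300000300500600a011600a06cc14022611)) (.one (nat_lit 0x300000400500600a011800a06cc14022611)))) (.br (Nat.shiftLeft (nat_lit 0x2000001) (nat_lit 113)) (.one (nat_lit 0x400000100500600a011200a08d014022611)) (.br (Nat.shiftLeft (nat_lit 0x4000003) (nat_lit 112)) (.one (nat_lit 0x400000200500600a011400a08d014022611)) (.one (nat_lit 0x400000300500600a011600a08d014022611))))))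
def t288 : k288.all (jb2 57 fl b0) = true := by decide +kernel
noncomputable def k289 : KT := (.br (Nat.shiftLeft (nat_lit 0x2800001) (nat_lit 113)) (.br (Nat.shiftLeft (nat_lit 0x5) (nat_lit 136)) (.one (nat_lit 0x400000400500600a011800a08d014022611)) (.one (nat_lit 0x500000100500600a011200a0ad414022611))) (.br (Nat.shiftLeft (nat_lit 0x5000003) (nat_lit 112)) (.one (nat_lit 0x500000200500600a011400a0ad414022611)) (.one (nat_lit 0x500000300500600a011600a0ad414022611))))
def t289 : k289.all (jb2 57 fl b0) = true := by decide +kernel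
noncomputable def k290 : KT := (.br (Nat.shiftLeft (nat_lit 0x3) (nat_lit 137)) (.one (nat_lit 0x500000400500600a011800a0ad414022611)) (.one (nat_lit 0x600000100500600a011200a0cd814022611)))
def t290 : k290.all (jb2 57 fl b0) = true := by decide +kernel
noncomputable def k291 : KT := (.br (Nat.shiftLeft (nat_lit 0x6000003) (nat_lit 112)) (.one (nat_lit 0x600000200500600a011400a0cd814022611)) (.br (Nat.shiftLeft (nat_lit 0x1800001) (nat_lit 114)) (.one (nat_lit 0x600000300500600a011600a0cd814022611)) (.one (nat_lit 0x600000400500600a011800a0cd814022611))))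
def t291 : k291.all (jb2 57 fl b0) = true := by decide +kernel
noncomputable def k292 : KT := (.br (Nat.shiftLeft (nat_lit 0x3800001) (nat_lit 113)) (.one (nat_lit 0x700000100500600a011200a0edc14022611)) (.one (nat_lit 0x700000200500600a011400a0edc14022611)))
def t292 : k292.all (jb2 57 fl b0) = true := by decide +kernel
noncomputable def k293 : KT := (.br (Nat.shiftLeft (nat_lit 0x1c00001) (nat_lit 114)) (.one (nat_lit 0x700000300500600a011600a0edc14022611)) (.br (Nat.shiftLeft (nat_lit 0x1) (nat_lit 139)) (.one (nat_lit 0x700000400500600a011800a0edc14022611)) (.one (nat_lit 0x800000100500600a011200a10e014022611))))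
def t293 : k293.all (jb2 57 fl b0) = true := by decide +kernel
noncomputable def k294 : KT := (.br (Nat.shiftLeft (nat_lit 0x2000001) (nat_lit 114)) (.br (Nat.shiftLeft (nat_lit 0x8000003) (nat_lit 112)) (.one (nat_lit 0x800000200500600a011400a10e014022611)) (.one (nat_lit 0x800000300500600a011600a10e014022611))) (.br (Nat.shiftLeft (nat_lit 0x9) (nat_lit 136)) (.one (nat_lit 0x800000400500600a011800a10e014022611)) (.one (nat_lit 0x900000100500600a011200a12e414022611))))
def t294 : k294.all (jb2 57 fl b0) = true := by decide +kernel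
noncomputable def k295 : KT := (.br (Nat.shiftLeft (nat_lit 0x1000001003) (nat_lit 112)) (.br (Nat.shiftLeft (nat_lit 0x5000001) (nat_lit 113)) (.br (Nat.shiftLeft (nat_lit 0x2400001) (nat_lit 114)) (.br (Nat.shiftLeft (nat_lit 0x9000003) (nat_lit 112)) (.one (nat_lit 0x900000200500600a011400a12e414022611)) (.one (nat_lit 0x900000300500600a011600a12e414022611))) (.br (Nat.shiftLeft (nat_lit 0x5) (nat_lit 137)) (.one (nat_lit 0x900000400500600a011800a12e414022611)) (.one (nat_lit 0xa00000100500600a011200a14e814022611)))) (.br (Nat.shiftLeft (nat_lit 0x2800001) (nat_lit 114)) (.br (Nat.shiftLeft (nat_lit 0xa000003) (nat_lit 112)) (.one (nat_lit 0xa00000200500600a011400a14e814022611)) (.one (nat_lit 0xa00000300500600a011600a14e814022611))) (.br (Nat.shiftLeft (nat_lit 0x1) (nat_lit 148)) (.one (nat_lit 0xa00000400500600a011800a14e814022611)) (.one (nat_lit 0x100000100200500600a011402a40c034422711))))) (.br (Nat.shiftLeft (nat_lit 0x1000001) (nat_lit 125)) (.br (Nat.shiftLeft (nat_lit 0x1) (nat_lit 149)) (.br (Nat.shiftLeft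 (nat_lit 0x800001) (nat_lit 125)) (.one (nat_lit 0x100000100300500600a011602a40c034422711)) (.one (nat_lit 0x100000200300500600a011602a40c054822711))) (.br (Nat.shiftLeft (nat_lit 0x2000001003) (nat_lit 112)) (.one (nat_lit 0x200000100200500600a011404a80c034422711)) (.one (nat_lit 0x200000100300500600a011604a80c034422711)))) (.br (Nat.shiftLeft (nat_lit 0x3000001003) (nat_lit 112)) (.br (Nat.shiftLeft (nat_lit 0x3) (nat_lit 148)) (.one (nat_lit 0x200000200300500600a011604a80c054822711)) (.one (nat_lit 0x300000100200500600a011406ac0c034422711))) (.br (Nat.shiftLeft (nat_lit 0x1800001) (nat_lit 125)) (.one (nat_lit 0x300000100300500600a011606ac0c034422711)) (.one (nat_lit 0x300000200300500600a011606ac0c054822711))))))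
def t295 : k295.all (jb2 57 fl b0) = true := by decide +kernel
noncomputable def k296 : KT := (.br (Nat.shiftLeft (nat_lit 0x2000001) (nat_lit 125)) (.br (Nat.shiftLeft (nat_lit 0x4000001003) (nat_lit 112)) (.one (nat_lit 0x400000100200500600a011408b00c034422711)) (.one (nat_lit 0x400000100300500600a011608b00c034422711))) (.br (Nat.shiftLeft (nat_lit 0x5) (nat_lit 148)) (.one (nat_lit 0x400000200300500600a011608b00c054822711)) (.br (Nat.shiftLeft (nat_lit 0x5000001003) (nat_lit 112)) (.one (nat_lit 0x500000100200500600a01140ab40c034422711)) (.one (nat_lit 0x500000100300500600a01160ab40c034422711)))))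
def t296 : k296.all (jb2 57 fl b0) = true := by decide +kernel
noncomputable def k297 : KT := (.br (Nat.shiftLeft (nat_lit 0x6000001003) (nat_lit 112)) (.br (Nat.shiftLeft (nat_lit 0x3) (nat_lit 149)) (.one (nat_lit 0x500000200300500600a01160ab40c054822711)) (.one (nat_lit 0x600000100200500600a01140cb80c034422711))) (.br (Nat.shiftLeft (nat_lit 0x3000001) (nat_lit 125)) (.one (nat_lit 0x600000100300500600a01160cb80c034422711)) (.one (nat_lit 0x600000200300500600a01160cb80c054822711))))
def t297 : k297.all (jb2 57 fl b0) = true := by decide +kernel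
noncomputable def k298 : KT := (.br (Nat.shiftLeft (nat_lit 0x1) (nat_lit 151)) (.br (Nat.shiftLeft (nat_lit 0x7000001003) (nat_lit 112)) (.one (nat_lit 0x700000100200500600a01140ebc0c034422711)) (.br (Nat.shiftLeft (nat_lit 0x3800001) (nat_lit 125)) (.one (nat_lit 0x700000100300500600a01160ebc0c034422711)) (.one (nat_lit 0x700000200300500600a01160ebc0c054822711)))) (.br (Nat.shiftLeft (nat_lit 0x8000001003) (nat_lit 112)) (.one (nat_lit 0x800000100200500600a011410c00c034422711)) (.br (Nat.shiftLeft (nat_lit 0x4000001) (nat_lit 125)) (.one (nat_lit 0x800000100300500600a011610c00c034422711)) (.one (nat_lit 0x800000200300500600a011610c00c054822711)))))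
def t298 : k298.all (jb2 57 fl b0) = true := by decide +kernel
noncomputable def k299 : KT := (.br (Nat.shiftLeft (nat_lit 0x5) (nat_lit 149)) (.br (Nat.shiftLeft (nat_lit 0x9000001003) (nat_lit 112)) (.one (nat_lit 0x900000100200500600a011412c40c034422711)) (.br (Nat.shiftLeft (nat_lit 0x4800001) (nat_lit 125)) (.one (nat_lit 0x900000100300500600a011612c40c034422711)) (.one (nat_lit 0x900000200300500600a011612c40c054822711)))) (.br (Nat.shiftLeft (nat_lit 0xa000001003) (nat_lit 112)) (.one (nat_lit 0xa00000100200500600a011414c80c034422711)) (.br (Nat.shiftLeft (nat_lit 0x5000001) (nat_lit 125)) (.one (nat_lit 0xa00000100300500600a011614c80c034422711)) (.one (nat_lit 0xa00000200300500600a011614c80c054822711)))))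
def t299 : k299.all (jb2 57 fl b0) = true := by decide +kernel
noncomputable def s16 : KT := (.br (nat_lit 0x600000100500600a011200a0cd814022611) (.br (nat_lit 0x600000500600a011000a00c0d5822511) (.br (nat_lit 0x300000500600a011000a00c074c22511) (.br (nat_lit 0x200300500600a011600a00c054823700) k282 k283) (.br (nat_lit 0x400000500600a011000a00c095022511) k284 k285)) (.br (nat_lit 0x100000400500600a011800a02c414022611) (.br (nat_lit 0x800000500600a011000a00c116022511) k286 k287) (.br (nat_lit 0x400000300500600a011600a08d014022611) k288 (.br (nat_lit 0x500000300500600a011600a0ad414022611) k289 k290)))) (.br (nat_lit 0x900000100500600a011200a12e414022611) (.br (nat_lit 0x700000200500600a011400a0edc14022611) (.br (nat_lit 0x600000400500600a011800a0cd814022611) k291 k292) (.br (nat_lit 0x800000100500600a011200a10e014022611) k293 k294)) (.br (nat_lit 0x500000100300500600a01160ab40c034422711) (.br (nat_lit 0x300000200300500600a011606ac0c054822711) k295 k296) (.br (nat_lit 0x600000200300500600a01160cb80c054822711) k297 (.br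 (nat_lit 0x800000200300500600a011610c00c054822711) k298 k299)))))
noncomputable def u16 : KT := (.one (nat_lit 0x500600a011000a00c014022540))
def w16 : u16.all (wj 57 s16) = true := by decide +kernel
def o16 : OkW 57 (jb2 57 fl) u16 := .lift s16 _ (.br _ _ _ (.br _ _ _ (.br _ _ _ (.br _ _ _ (.leaf b0 k282 t282) (.leaf b0 k283 t283)) (.br _ _ _ (.leaf b0 k284 t284) (.leaf b0 k285 t285))) (.br _ _ _ (.br _ _ _ (.leaf b0 k286 t286) (.leaf b288 k287 t287)) (.br _ _ _ (.leaf b0 k288 t288) (.br _ _ _ (.leaf b0 k289 t289) (.leaf b0 k290 t290))))) (.br _ _ _ (.br _ _ _ (.br _ _ _ (.leaf b0 k291 t291) (.leaf b0 k292 t292)) (.br _ _ _ (.leaf b0 k293 t293) (.leaf b0 k294 t294))) (.br _ _ _ (.br _ _ _ (.leaf b0 k295 t295) (.leaf b0 k296 t296)) (.br _ _ _ (.leaf b0 k297 t297) (.br _ _ _ (.leaf b0 k298 t298) (.leaf b0 k299 t299)))))) w16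
noncomputable def k300 : KT := (.br (Nat.shiftLeft (nat_lit 0x3) (nat_lit 112)) (.br (Nat.shiftLeft (nat_lit 0x100500600a013) (nat_lit 64)) (.br (Nat.shiftLeft (nat_lit 0x500600a013) (nat_lit 64)) (.one (nat_lit 0x500600a012000a00c014025500)) (.br (Nat.shiftLeft (nat_lit 0x1) (nat_lit 112)) (.one (nat_lit 0x500600a013000a00c014027500)) (.one (nat_lit 0x100500600a012200a00c014025600)))) (.br (Nat.shiftLeft (nat_lit 0x1) (nat_lit 113)) (.one (nat_lit 0x100500600a013200a00c014027600)) (.br (Nat.shiftLeft (nat_lit 0x200500600a013) (nat_lit 64)) (.one (nat_lit 0x200500600a012400a00c014025600)) (.one (nat_lit 0x200500600a013400a00c014027600))))) (.br (Nat.shiftLeft (nat_lit 0x400500600a013) (nat_lit 64)) (.br (Nat.shiftLeft (nat_lit 0x300500600a013) (nat_lit 64)) (.one (nat_lit 0x300500600a012600a00c014025600)) (.br (Nat.shiftLeft (nat_lit 0x1) (nat_lit 114)) (.one (nat_lit 0x300500600a013600a00c014027600)) (.one (nat_lit 0x400500600a012800a00c014025600)))) (.br (Nat.shiftLeft (nat_lit 0x1) (nat_lit 124)) (.one (nat_lit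 0x400500600a013800a00c014027600)) (.br (Nat.shiftLeft (nat_lit 0x100000500600a013) (nat_lit 64)) (.one (nat_lit 0x100000500600a012000a00c034424511)) (.one (nat_lit 0x100000500600a013000a00c034426511))))))
def t300 : k300.all (jb2 57 fl b0) = true := by decide +kernel
noncomputable def k301 : KT := (.one (nat_lit 0x100200500600a012400a00c034424760))
def t301 : k301.all (jb2 57 fl b0) = true := by decide +kernel
noncomputable def k302 : KT := (.one (nat_lit 0x100200500600a013400a00c034426760))
def t302 : k302.all (jb2 57 fl b0) = true := by decide +kernel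
noncomputable def k303 : KT := (.one (nat_lit 0x100300500600a012600a00c034424760))
def t303 : k303.all (jb2 57 fl b0) = true := by decide +kernel
noncomputable def k304 : KT := (.br (Nat.shiftLeft (nat_lit 0x401) (nat_lit 114)) (.one (nat_lit 0x100300500600a013600a00c034426760)) (.one (nat_lit 0x100400500600a012800a00c034424760)))
def t304 : k304.all (jb2 57 fl b0) = true := by decide +kernel
noncomputable def k305 : KT := (.br (Nat.shiftLeft (nat_lit 0x1) (nat_lit 125)) (.one (nat_lit 0x100400500600a013800a00c034426760)) (.br (Nat.shiftLeft (nat_lit 0x200000500600a013) (nat_lit 64)) (.one (nat_lit 0x200000500600a012000a00c054824511)) (.one (nat_lit 0x200000500600a013000a00c054826511))))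
def t305 : k305.all (jb2 57 fl b0) = true := by decide +kernel
noncomputable def k306 : KT := (.one (nat_lit 0x200300500600a012600a00c054824760))
def t306 : k306.all (jb2 57 fl b0) = true := by decide +kernel
noncomputable def k307 : KT := (.one (nat_lit 0x200300500600a013600a00c054826760))
def t307 : k307.all (jb2 57 fl b0) = true := by decide +kernel
noncomputable def k308 : KT := (.br (Nat.shiftLeft (nat_lit 0x3) (nat_lit 124)) (.br (Nat.shiftLeft (nat_lit 0x200400500600a013) (nat_lit 64)) (.one (nat_lit 0x200400500600a012800a00c054824760)) (.one (nat_lit 0x200400500600a013800a00c054826760))) (.br (Nat.shiftLeft (nat_lit 0x300000500600a013) (nat_lit 64)) (.one (nat_lit 0x300000500600a012000a00c074c24511)) (.one (nat_lit 0x300000500600a013000a00c074c26511))))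
def t308 : k308.all (jb2 57 fl b0) = true := by decide +kernel
noncomputable def k309 : KT := (.br (Nat.shiftLeft (nat_lit 0x300400500600a013) (nat_lit 64)) (.one (nat_lit 0x300400500600a012800a00c074c24760)) (.one (nat_lit 0x300400500600a013800a00c074c26760)))
def t309 : k309.all (jb2 57 fl b0) = true := by decide +kernel
noncomputable def k310 : KT := (.br (Nat.shiftLeft (nat_lit 0x5) (nat_lit 124)) (.br (Nat.shiftLeft (nat_lit 0x400000500600a013) (nat_lit 64)) (.one (nat_lit 0x400000500600a012000a00c095024511)) (.one (nat_lit 0x400000500600a013000a00c095026511))) (.br (Nat.shiftLeft (nat_lit 0x500000500600a013) (nat_lit 64)) (.one (nat_lit 0x500000500600a012000a00c0b5424511)) (.br (Nat.shiftLeft (nat_lit 0x3) (nat_lit 125)) (.one (nat_lit 0x500000500600a013000a00c0b5426511)) (.one (nat_lit 0x600000500600a012000a00c0d5824511)))))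
def t310 : k310.all (jb2 57 fl b0) = true := by decide +kernel
noncomputable def k311 : KT := (.br (Nat.shiftLeft (nat_lit 0x7) (nat_lit 124)) (.one (nat_lit 0x600000500600a013000a00c0d5826511)) (.br (Nat.shiftLeft (nat_lit 0x700000500600a013) (nat_lit 64)) (.one (nat_lit 0x700000500600a012000a00c0f5c24511)) (.one (nat_lit 0x700000500600a013000a00c0f5c26511))))
def t311 : k311.all (jb2 57 fl b0) = true := by decide +kernel
noncomputable def k312 : KT := (.br (Nat.shiftLeft (nat_lit 0x9) (nat_lit 124)) (.br (Nat.shiftLeft (nat_lit 0x800000500600a013) (nat_lit 64)) (.one (nat_lit 0x800000500600a012000a00c116024511)) (.one (nat_lit 0x800000500600a013000a00c116026511))) (.br (Nat.shiftLeft (nat_lit 0x900000500600a013) (nat_lit 64)) (.one (nat_lit 0x900000500600a012000a00c136424511)) (.br (Nat.shiftLeft (nat_lit 0x5) (nat_lit 125)) (.one (nat_lit 0x900000500600a013000a00c136426511)) (.one (nat_lit 0xa00000500600a012000a00c156824511)))))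
def t312 : k312.all (jb2 57 fl b0) = true := by decide +kernel
noncomputable def k313 : KT := (.br (Nat.shiftLeft (nat_lit 0x200000400500600a013) (nat_lit 64)) (.br (Nat.shiftLeft (nat_lit 0x100000400500600a013) (nat_lit 64)) (.br (Nat.shiftLeft (nat_lit 0x100000200500600a013) (nat_lit 64)) (.br (Nat.shiftLeft (nat_lit 0x100000100500600a013) (nat_lit 64)) (.br (Nat.shiftLeft (nat_lit 0x1) (nat_lit 136)) (.one (nat_lit 0xa00000500600a013000a00c156826511)) (.one (nat_lit 0x100000100500600a012200a02c414024611))) (.br (Nat.shiftLeft (nat_lit 0x800001) (nat_lit 113)) (.one (nat_lit 0x100000100500600a013200a02c414026611)) (.one (nat_lit 0x100000200500600a012400a02c414024611)))) (.br (Nat.shiftLeft (nat_lit 0x100000300500600a013) (nat_lit 64)) (.br (Nat.shiftLeft (nat_lit 0x1000003) (nat_lit 112)) (.one (nat_lit 0x100000200500600a013400a02c414026611)) (.one (nat_lit 0x100000300500600a012600a02c414024611))) (.br (Nat.shiftLeft (nat_lit 0x400001) (nat_lit 114)) (.one (nat_lit 0x100000300500600a013600a02c414026611)) (.one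 (nat_lit 0x100000400500600a012800a02c414024611))))) (.br (Nat.shiftLeft (nat_lit 0x200000200500600a013) (nat_lit 64)) (.br (Nat.shiftLeft (nat_lit 0x200000100500600a013) (nat_lit 64)) (.br (Nat.shiftLeft (nat_lit 0x1) (nat_lit 137)) (.one (nat_lit 0x100000400500600a013800a02c414026611)) (.one (nat_lit 0x200000100500600a012200a04c814024611))) (.br (Nat.shiftLeft (nat_lit 0x1000001) (nat_lit 113)) (.one (nat_lit 0x200000100500600a013200a04c814026611)) (.one (nat_lit 0x200000200500600a012400a04c814024611)))) (.br (Nat.shiftLeft (nat_lit 0x200000300500600a013) (nat_lit 64)) (.br (Nat.shiftLeft (nat_lit 0x2000003) (nat_lit 112)) (.one (nat_lit 0x200000200500600a013400a04c814026611)) (.one (nat_lit 0x200000300500600a012600a04c814024611))) (.br (Nat.shiftLeft (nat_lit 0x800001) (nat_lit 114)) (.one (nat_lit 0x200000300500600a013600a04c814026611)) (.one (nat_lit 0x200000400500600a012800a04c814024611)))))) (.br (Nat.shiftLeft (nat_lit 0x300000400500600a013) (nat_lit 64)) (.br (Nat.shiftLeft (nat_lit 0x300000200500600a013)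 (nat_lit 64)) (.br (Nat.shiftLeft (nat_lit 0x300000100500600a013) (nat_lit 64)) (.br (Nat.shiftLeft (nat_lit 0x3) (nat_lit 136)) (.one (nat_lit 0x200000400500600a013800a04c814026611)) (.one (nat_lit 0x300000100500600a012200a06cc14024611))) (.br (Nat.shiftLeft (nat_lit 0x1800001) (nat_lit 113)) (.one (nat_lit 0x300000100500600a013200a06cc14026611)) (.one (nat_lit 0x300000200500600a012400a06cc14024611)))) (.br (Nat.shiftLeft (nat_lit 0x300000300500600a013) (nat_lit 64)) (.br (Nat.shiftLeft (nat_lit 0x3000003) (nat_lit 112)) (.one (nat_lit 0x300000200500600a013400a06cc14026611)) (.one (nat_lit 0x300000300500600a012600a06cc14024611))) (.br (Nat.shiftLeft (nat_lit 0xc00001) (nat_lit 114)) (.one (nat_lit 0x300000300500600a013600a06cc14026611)) (.one (nat_lit 0x300000400500600a012800a06cc14024611))))) (.br (Nat.shiftLeft (nat_lit 0x400000200500600a013) (nat_lit 64)) (.br (Nat.shiftLeft (nat_lit 0x400000100500600a013) (nat_lit 64)) (.br (Nat.shiftLeft (nat_lit 0x1) (nat_lit 138)) (.one (nat_lit 0x300000400500600a013800a06cc14026611))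 (.one (nat_lit 0x400000100500600a012200a08d014024611))) (.br (Nat.shiftLeft (nat_lit 0x2000001) (nat_lit 113)) (.one (nat_lit 0x400000100500600a013200a08d014026611)) (.one (nat_lit 0x400000200500600a012400a08d014024611)))) (.br (Nat.shiftLeft (nat_lit 0x400000300500600a013) (nat_lit 64)) (.br (Nat.shiftLeft (nat_lit 0x4000003) (nat_lit 112)) (.one (nat_lit 0x400000200500600a013400a08d014026611)) (.one (nat_lit 0x400000300500600a012600a08d014024611))) (.br (Nat.shiftLeft (nat_lit 0x1000001) (nat_lit 114)) (.one (nat_lit 0x400000300500600a013600a08d014026611)) (.one (nat_lit 0x400000400500600a012800a08d014024611)))))))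
def t313 : k313.all (jb2 57 fl b0) = true := by decide +kernel
noncomputable def k314 : KT := (.br (Nat.shiftLeft (nat_lit 0x500000100500600a013) (nat_lit 64)) (.br (Nat.shiftLeft (nat_lit 0x5) (nat_lit 136)) (.one (nat_lit 0x400000400500600a013800a08d014026611)) (.one (nat_lit 0x500000100500600a012200a0ad414024611))) (.br (Nat.shiftLeft (nat_lit 0x2800001) (nat_lit 113)) (.one (nat_lit 0x500000100500600a013200a0ad414026611)) (.br (Nat.shiftLeft (nat_lit 0x500000200500600a013) (nat_lit 64)) (.one (nat_lit 0x500000200500600a012400a0ad414024611)) (.one (nat_lit 0x500000200500600a013400a0ad414026611)))))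
def t314 : k314.all (jb2 57 fl b0) = true := by decide +kernel
noncomputable def k315 : KT := (.br (Nat.shiftLeft (nat_lit 0x1400001) (nat_lit 114)) (.br (Nat.shiftLeft (nat_lit 0x500000300500600a013) (nat_lit 64)) (.one (nat_lit 0x500000300500600a012600a0ad414024611)) (.one (nat_lit 0x500000300500600a013600a0ad414026611))) (.br (Nat.shiftLeft (nat_lit 0x500000400500600a013) (nat_lit 64)) (.one (nat_lit 0x500000400500600a012800a0ad414024611)) (.br (Nat.shiftLeft (nat_lit 0x3) (nat_lit 137)) (.one (nat_lit 0x500000400500600a013800a0ad414026611)) (.one (nat_lit 0x600000100500600a012200a0cd814024611)))))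
def t315 : k315.all (jb2 57 fl b0) = true := by decide +kernel
noncomputable def k316 : KT := (.br (Nat.shiftLeft (nat_lit 0x3000001) (nat_lit 113)) (.one (nat_lit 0x600000100500600a013200a0cd814026611)) (.br (Nat.shiftLeft (nat_lit 0x600000200500600a013) (nat_lit 64)) (.one (nat_lit 0x600000200500600a012400a0cd814024611)) (.one (nat_lit 0x600000200500600a013400a0cd814026611))))
def t316 : k316.all (jb2 57 fl b0) = true := by decide +kernel
noncomputable def k317 : KT := (.br (Nat.shiftLeft (nat_lit 0x1800001) (nat_lit 114)) (.br (Nat.shiftLeft (nat_lit 0x600000300500600a013) (nat_lit 64)) (.one (nat_lit 0x600000300500600a012600a0cd814024611)) (.one (nat_lit 0x600000300500600a013600a0cd814026611))) (.br (Nat.shiftLeft (nat_lit 0x600000400500600a013) (nat_lit 64)) (.one (nat_lit 0x600000400500600a012800a0cd814024611)) (.br (Nat.shiftLeft (nat_lit 0x7) (nat_lit 136)) (.one (nat_lit 0x600000400500600a013800a0cd814026611)) (.one (nat_lit 0x700000100500600a012200a0edc14024611)))))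
def t317 : k317.all (jb2 57 fl b0) = true := by decide +kernel
noncomputable def k318 : KT := (.br (Nat.shiftLeft (nat_lit 0x7000003) (nat_lit 112)) (.br (Nat.shiftLeft (nat_lit 0x3800001) (nat_lit 113)) (.one (nat_lit 0x700000100500600a013200a0edc14026611)) (.br (Nat.shiftLeft (nat_lit 0x700000200500600a013) (nat_lit 64)) (.one (nat_lit 0x700000200500600a012400a0edc14024611)) (.one (nat_lit 0x700000200500600a013400a0edc14026611)))) (.br (Nat.shiftLeft (nat_lit 0x700000300500600a013) (nat_lit 64)) (.one (nat_lit 0x700000300500600a012600a0edc14024611)) (.br (Nat.shiftLeft (nat_lit 0x1c00001) (nat_lit 114)) (.one (nat_lit 0x700000300500600a013600a0edc14026611)) (.one (nat_lit 0x700000400500600a012800a0edc14024611)))))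
def t318 : k318.all (jb2 57 fl b0) = true := by decide +kernel
noncomputable def k319 : KT := (.br (Nat.shiftLeft (nat_lit 0x800000200500600a013) (nat_lit 64)) (.br (Nat.shiftLeft (nat_lit 0x800000100500600a013) (nat_lit 64)) (.br (Nat.shiftLeft (nat_lit 0x1) (nat_lit 139)) (.one (nat_lit 0x700000400500600a013800a0edc14026611)) (.one (nat_lit 0x800000100500600a012200a10e014024611))) (.br (Nat.shiftLeft (nat_lit 0x4000001) (nat_lit 113)) (.one (nat_lit 0x800000100500600a013200a10e014026611)) (.one (nat_lit 0x800000200500600a012400a10e014024611)))) (.br (Nat.shiftLeft (nat_lit 0x800000300500600a013) (nat_lit 64)) (.br (Nat.shiftLeft (nat_lit 0x8000003) (nat_lit 112)) (.one (nat_lit 0x800000200500600a013400a10e014026611)) (.one (nat_lit 0x800000300500600a012600a10e014024611))) (.br (Nat.shiftLeft (nat_lit 0x2000001) (nat_lit 114)) (.one (nat_lit 0x800000300500600a013600a10e014026611)) (.one (nat_lit 0x800000400500600a012800a10e014024611)))))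
def t319 : k319.all (jb2 57 fl b0) = true := by decide +kernel
noncomputable def k320 : KT := (.br (Nat.shiftLeft (nat_lit 0x9000003) (nat_lit 112)) (.br (Nat.shiftLeft (nat_lit 0x900000100500600a013) (nat_lit 64)) (.br (Nat.shiftLeft (nat_lit 0x9) (nat_lit 136)) (.one (nat_lit 0x800000400500600a013800a10e014026611)) (.one (nat_lit 0x900000100500600a012200a12e414024611))) (.br (Nat.shiftLeft (nat_lit 0x4800001) (nat_lit 113)) (.one (nat_lit 0x900000100500600a013200a12e414026611)) (.br (Nat.shiftLeft (nat_lit 0x900000200500600a013) (nat_lit 64)) (.one (nat_lit 0x900000200500600a012400a12e414024611)) (.one (nat_lit 0x900000200500600a013400a12e414026611))))) (.br (Nat.shiftLeft (nat_lit 0x900000400500600a013) (nat_lit 64)) (.br (Nat.shiftLeft (nat_lit 0x900000300500600a013) (nat_lit 64)) (.one (nat_lit 0x900000300500600a012600a12e414024611)) (.br (Nat.shiftLeft (nat_lit 0x2400001) (nat_lit 114)) (.one (nat_lit 0x900000300500600a013600a12e414026611)) (.one (nat_lit 0x900000400500600a012800a12e414024611)))) (.br (Nat.shiftLeft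 (nat_lit 0x5) (nat_lit 137)) (.one (nat_lit 0x900000400500600a013800a12e414026611)) (.br (Nat.shiftLeft (nat_lit 0xa00000100500600a013) (nat_lit 64)) (.one (nat_lit 0xa00000100500600a012200a14e814024611)) (.one (nat_lit 0xa00000100500600a013200a14e814026611))))))
def t320 : k320.all (jb2 57 fl b0) = true := by decide +kernel
noncomputable def k321 : KT := (.br (Nat.shiftLeft (nat_lit 0xa00000300500600a013) (nat_lit 64)) (.br (Nat.shiftLeft (nat_lit 0xa00000200500600a013) (nat_lit 64)) (.one (nat_lit 0xa00000200500600a012400a14e814024611)) (.br (Nat.shiftLeft (nat_lit 0xa000003) (nat_lit 112)) (.one (nat_lit 0xa00000200500600a013400a14e814026611)) (.one (nat_lit 0xa00000300500600a012600a14e814024611)))) (.br (Nat.shiftLeft (nat_lit 0x2800001) (nat_lit 114)) (.one (nat_lit 0xa00000300500600a013600a14e814026611)) (.br (Nat.shiftLeft (nat_lit 0xa00000400500600a013) (nat_lit 64)) (.one (nat_lit 0xa00000400500600a012800a14e814024611)) (.one (nat_lit 0xa00000400500600a013800a14e814026611)))))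
def t321 : k321.all (jb2 57 fl b0) = true := by decide +kernel
noncomputable def s17 : KT := (.br (nat_lit 0x600000500600a012000a00c0d5824511) (.br (nat_lit 0x100400500600a012800a00c034424760) (.br (nat_lit 0x100200500600a012400a00c034424760) (.br (nat_lit 0x100000500600a013000a00c034426511) k300 k301) (.br (nat_lit 0x100200500600a013400a00c034426760) k302 (.br (nat_lit 0x100300500600a012600a00c034424760) k303 k304))) (.br (nat_lit 0x200300500600a013600a00c054826760) (.br (nat_lit 0x200000500600a013000a00c054826511) k305 (.br (nat_lit 0x200300500600a012600a00c054824760) k306 k307)) (.br (nat_lit 0x300000500600a013000a00c074c26511) k308 (.br (nat_lit 0x300400500600a013800a00c074c26760) k309 k310)))) (.br (nat_lit 0x600000100500600a012200a0cd814024611) (.br (nat_lit 0xa00000500600a012000a00c156824511) (.br (nat_lit 0x700000500600a013000a00c0f5c26511) k311 k312) (.br (nat_lit 0x400000400500600a012800a08d014024611) k313 (.br (nat_lit 0x500000200500600a013400a0ad414026611) k314 k315))) (.br (nat_lit 0x700000400500600a012800a0edc14024611)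 (.br (nat_lit 0x600000200500600a013400a0cd814026611) k316 (.br (nat_lit 0x700000100500600a012200a0edc14024611) k317 k318)) (.br (nat_lit 0x800000400500600a012800a10e014024611) k319 (.br (nat_lit 0xa00000100500600a013200a14e814026611) k320 k321)))))
noncomputable def u17 : KT := (.br (Nat.shiftLeft (nat_lit 0x500600a013) (nat_lit 64)) (.one (nat_lit 0x500600a012000a00c014024540)) (.one (nat_lit 0x500600a013000a00c014026540)))
def w17 : u17.all (wj 57 s17) = true := by decide +kernel
def o17 : OkW 57 (jb2 57 fl) u17 := .lift s17 _ (.br _ _ _ (.br _ _ _ (.br _ _ _ (.br _ _ _ (.leaf b0 k300 t300) (.leaf b0 k301 t301)) (.br _ _ _ (.leaf b0 k302 t302) (.br _ _ _ (.leaf b0 k303 t303) (.leaf b0 k304 t304)))) (.br _ _ _ (.br _ _ _ (.leaf b0 k305 t305) (.br _ _ _ (.leaf b0 k306 t306) (.leaf b0 k307 t307))) (.br _ _ _ (.leaf b0 k308 t308) (.br _ _ _ (.leaf b0 k309 t309) (.leaf b0 k310 t310))))) (.br _ _ _ (.br _ _ _ (.br _ _ _ (.leaf b0 k311 t311) (.leaf b0 k312 t312)) (.br _ _ _ (.leaf b0 k313 t313) (.br _ _ _ (.leaf b0 k314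 t314) (.leaf b0 k315 t315)))) (.br _ _ _ (.br _ _ _ (.leaf b0 k316 t316) (.br _ _ _ (.leaf b0 k317 t317) (.leaf b0 k318 t318))) (.br _ _ _ (.leaf b0 k319 t319) (.br _ _ _ (.leaf b0 k320 t320) (.leaf b0 k321 t321)))))) w17
noncomputable def k322 : KT := (.br (Nat.shiftLeft (nat_lit 0x1) (nat_lit 112)) (.br (Nat.shiftLeft (nat_lit 0x500600b00d) (nat_lit 64)) (.br (Nat.shiftLeft (nat_lit 0x500600b) (nat_lit 76)) (.one (nat_lit 0x500600a014000a00c014029500)) (.one (nat_lit 0x500600b00c000a00c016019500))) (.br (Nat.shiftLeft (nat_lit 0x2803005807) (nat_lit 65)) (.one (nat_lit 0x500600b00d000a00c01601b500)) (.br (Nat.shiftLeft (nat_lit 0x500600b00f) (nat_lit 64)) (.one (nat_lit 0x500600b00e000a00c01601d500)) (.one (nat_lit 0x500600b00f000a00c01601f500))))) (.br (Nat.shiftLeft (nat_lit 0x3) (nat_lit 112)) (.br (Nat.shiftLeft (nat_lit 0x1) (nat_lit 113)) (.one (nat_lit 0x100500600a014200a00c014028650)) (.one (nat_lit 0x200500600a014400a00c014029600))) (.br (Nat.shiftLeft (nat_lit 0x1) (nat_lit 114)) (.one (nat_lit 0x300500600a014600a00c014029600))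 (.br (Nat.shiftLeft (nat_lit 0x1) (nat_lit 124)) (.one (nat_lit 0x400500600a014800a00c014029600)) (.one (nat_lit 0x100000500600a014000a00c034428511))))))
def t322 : k322.all (jb2 57 fl b0) = true := by decide +kernel
noncomputable def k323 : KT := (.br (Nat.shiftLeft (nat_lit 0x401) (nat_lit 114)) (.br (Nat.shiftLeft (nat_lit 0x1003) (nat_lit 112)) (.one (nat_lit 0x100200500600a014400a00c034428760)) (.one (nat_lit 0x100300500600a014600a00c034428760))) (.br (Nat.shiftLeft (nat_lit 0x1) (nat_lit 125)) (.one (nat_lit 0x100400500600a014800a00c034428760)) (.one (nat_lit 0x200000500600a014000a00c054828511))))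
def t323 : k323.all (jb2 57 fl b0) = true := by decide +kernel
noncomputable def k324 : KT := (.br (Nat.shiftLeft (nat_lit 0x3) (nat_lit 124)) (.br (Nat.shiftLeft (nat_lit 0x801) (nat_lit 114)) (.one (nat_lit 0x200300500600a014600a00c054828760)) (.one (nat_lit 0x200400500600a014800a00c054828760))) (.br (Nat.shiftLeft (nat_lit 0xc01) (nat_lit 114)) (.one (nat_lit 0x300000500600a014000a00c074c28511)) (.one (nat_lit 0x300400500600a014800a00c074c28760))))
def t324 : k324.all (jb2 57 fl b0) = true := by decide +kernel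
noncomputable def k325 : KT := (.br (Nat.shiftLeft (nat_lit 0x1000003) (nat_lit 112)) (.br (Nat.shiftLeft (nat_lit 0x1) (nat_lit 127)) (.br (Nat.shiftLeft (nat_lit 0x3) (nat_lit 125)) (.br (Nat.shiftLeft (nat_lit 0x5) (nat_lit 124)) (.one (nat_lit 0x400000500600a014000a00c095028511)) (.one (nat_lit 0x500000500600a014000a00c0b5428511))) (.br (Nat.shiftLeft (nat_lit 0x7) (nat_lit 124)) (.one (nat_lit 0x600000500600a014000a00c0d5828511)) (.one (nat_lit 0x700000500600a014000a00c0f5c28511)))) (.br (Nat.shiftLeft (nat_lit 0x5) (nat_lit 125)) (.br (Nat.shiftLeft (nat_lit 0x9) (nat_lit 124)) (.one (nat_lit 0x800000500600a014000a00c116028511)) (.one (nat_lit 0x900000500600a014000a00c136428511))) (.br (Nat.shiftLeft (nat_lit 0x1) (nat_lit 136)) (.one (nat_lit 0xa00000500600a014000a00c156828511)) (.one (nat_lit 0x100000200500600a014400a02c414028611))))) (.br (Nat.shiftLeft (nat_lit 0x800001) (nat_lit 114)) (.br (Nat.shiftLeft (nat_lit 0x1) (nat_lit 137)) (.br (Nat.shiftLeft (nat_lit 0x400001) (nat_lit 114)) (.one (nat_lit 0x100000300500600a014600a02c414028611))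 (.one (nat_lit 0x100000400500600a014800a02c414028611))) (.br (Nat.shiftLeft (nat_lit 0x2000003) (nat_lit 112)) (.one (nat_lit 0x200000200500600a014400a04c814028611)) (.one (nat_lit 0x200000300500600a014600a04c814028611)))) (.br (Nat.shiftLeft (nat_lit 0x3000003) (nat_lit 112)) (.br (Nat.shiftLeft (nat_lit 0x3) (nat_lit 136)) (.one (nat_lit 0x200000400500600a014800a04c814028611)) (.one (nat_lit 0x300000200500600a014400a06cc14028611))) (.br (Nat.shiftLeft (nat_lit 0xc00001) (nat_lit 114)) (.one (nat_lit 0x300000300500600a014600a06cc14028611)) (.br (Nat.shiftLeft (nat_lit 0x1) (nat_lit 138)) (.one (nat_lit 0x300000400500600a014800a06cc14028611)) (.one (nat_lit 0x400000200500600a014400a08d014028611)))))))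
def t325 : k325.all (jb2 57 fl b0) = true := by decide +kernel
noncomputable def k326 : KT := (.br (Nat.shiftLeft (nat_lit 0x6000003) (nat_lit 112)) (.br (Nat.shiftLeft (nat_lit 0x5000003) (nat_lit 112)) (.br (Nat.shiftLeft (nat_lit 0x1000001) (nat_lit 114)) (.one (nat_lit 0x400000300500600a014600a08d014028611)) (.br (Nat.shiftLeft (nat_lit 0x5) (nat_lit 136)) (.one (nat_lit 0x400000400500600a014800a08d014028611)) (.one (nat_lit 0x500000200500600a014400a0ad414028611)))) (.br (Nat.shiftLeft (nat_lit 0x1400001) (nat_lit 114)) (.one (nat_lit 0x500000300500600a014600a0ad414028611)) (.br (Nat.shiftLeft (nat_lit 0x3) (nat_lit 137)) (.one (nat_lit 0x500000400500600a014800a0ad414028611)) (.one (nat_lit 0x600000200500600a014400a0cd814028611))))) (.br (Nat.shiftLeft (nat_lit 0x7000003) (nat_lit 112)) (.br (Nat.shiftLeft (nat_lit 0x1800001) (nat_lit 114)) (.one (nat_lit 0x600000300500600a014600a0cd814028611)) (.br (Nat.shiftLeft (nat_lit 0x7) (nat_lit 136)) (.one (nat_lit 0x600000400500600a014800a0cd814028611)) (.one (nat_lit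 0x700000200500600a014400a0edc14028611)))) (.br (Nat.shiftLeft (nat_lit 0x1c00001) (nat_lit 114)) (.one (nat_lit 0x700000300500600a014600a0edc14028611)) (.br (Nat.shiftLeft (nat_lit 0x1) (nat_lit 139)) (.one (nat_lit 0x700000400500600a014800a0edc14028611)) (.one (nat_lit 0x800000200500600a014400a10e014028611))))))
def t326 : k326.all (jb2 57 fl b0) = true := by decide +kernel
noncomputable def k327 : KT := (.br (Nat.shiftLeft (nat_lit 0x2400001) (nat_lit 114)) (.br (Nat.shiftLeft (nat_lit 0x9) (nat_lit 136)) (.br (Nat.shiftLeft (nat_lit 0x2000001) (nat_lit 114)) (.one (nat_lit 0x800000300500600a014600a10e014028611)) (.one (nat_lit 0x800000400500600a014800a10e014028611))) (.br (Nat.shiftLeft (nat_lit 0x9000003) (nat_lit 112)) (.one (nat_lit 0x900000200500600a014400a12e414028611)) (.one (nat_lit 0x900000300500600a014600a12e414028611)))) (.br (Nat.shiftLeft (nat_lit 0xa000003) (nat_lit 112)) (.br (Nat.shiftLeft (nat_lit 0x5) (nat_lit 137)) (.one (nat_lit 0x900000400500600a014800a12e414028611)) (.one (nat_lit 0xa00000200500600a014400a14e814028611)))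 (.br (Nat.shiftLeft (nat_lit 0x2800001) (nat_lit 114)) (.one (nat_lit 0xa00000300500600a014600a14e814028611)) (.one (nat_lit 0xa00000400500600a014800a14e814028611)))))
def t327 : k327.all (jb2 57 fl b0) = true := by decide +kernel
noncomputable def s18 : KT := (.br (nat_lit 0x300400500600a014800a00c074c28760) (.br (nat_lit 0x100000500600a014000a00c034428511) k322 (.br (nat_lit 0x200000500600a014000a00c054828511) k323 k324)) (.br (nat_lit 0x400000200500600a014400a08d014028611) k325 (.br (nat_lit 0x800000200500600a014400a10e014028611) k326 k327)))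
noncomputable def u18 : KT := (.br (Nat.shiftLeft (nat_lit 0x500600b00d) (nat_lit 64)) (.br (Nat.shiftLeft (nat_lit 0x500600b) (nat_lit 76)) (.one (nat_lit 0x500600a014000a00c014028540)) (.one (nat_lit 0x500600b00c000a00c016019500))) (.br (Nat.shiftLeft (nat_lit 0x2803005807) (nat_lit 65)) (.one (nat_lit 0x500600b00d000a00c01601b500)) (.br (Nat.shiftLeft (nat_lit 0x500600b00f) (nat_lit 64)) (.one (nat_lit 0x500600b00e000a00c01601d500)) (.one (nat_lit 0x500600b00f000a00c01601f500)))))
def w18 : u18.all (wj 57 s18) = true := by decide +kernel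
def o18 : OkW 57 (jb2 57 fl) u18 := .lift s18 _ (.br _ _ _ (.br _ _ _ (.leaf b0 k322 t322) (.br _ _ _ (.leaf b0 k323 t323) (.leaf b0 k324 t324))) (.br _ _ _ (.leaf b0 k325 t325) (.br _ _ _ (.leaf b0 k326 t326) (.leaf b0 k327 t327)))) w18
noncomputable def k328 : KT := (.br (Nat.shiftLeft (nat_lit 0x1) (nat_lit 124)) (.br (Nat.shiftLeft (nat_lit 0x1) (nat_lit 113)) (.br (Nat.shiftLeft (nat_lit 0x1) (nat_lit 112)) (.one (nat_lit 0x500600b010000a00c016021500)) (.one (nat_lit 0x100500600b010200a00c016021600))) (.br (Nat.shiftLeft (nat_lit 0x3) (nat_lit 112)) (.one (nat_lit 0x200500600b010400a00c016021600)) (.br (Nat.shiftLeft (nat_lit 0x1) (nat_lit 114)) (.one (nat_lit 0x300500600b010600a00c016021600)) (.one (nat_lit 0x400500600b010800a00c016021600))))) (.br (Nat.shiftLeft (nat_lit 0x401) (nat_lit 114)) (.br (Nat.shiftLeft (nat_lit 0x801) (nat_lit 113)) (.one (nat_lit 0x100000500600b010000a00c036420511)) (.br (Nat.shiftLeft (nat_lit 0x1003) (nat_lit 112)) (.one (nat_lit 0x100200500600b010400a00c036421700)) (.one (nat_lit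 0x100300500600b010600a00c036421700)))) (.br (Nat.shiftLeft (nat_lit 0x1) (nat_lit 125)) (.one (nat_lit 0x100400500600b010800a00c036420760)) (.br (Nat.shiftLeft (nat_lit 0x1001) (nat_lit 113)) (.one (nat_lit 0x200000500600b010000a00c056820511)) (.one (nat_lit 0x200300500600b010600a00c056821700))))))
def t328 : k328.all (jb2 57 fl b0) = true := by decide +kernel
noncomputable def k329 : KT := (.br (Nat.shiftLeft (nat_lit 0x3) (nat_lit 124)) (.one (nat_lit 0x200400500600b010800a00c056820760)) (.one (nat_lit 0x300000500600b010000a00c076c20511)))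
def t329 : k329.all (jb2 57 fl b0) = true := by decide +kernel
noncomputable def k330 : KT := (.br (Nat.shiftLeft (nat_lit 0x1) (nat_lit 126)) (.one (nat_lit 0x300400500600b010800a00c076c20760)) (.one (nat_lit 0x400000500600b010000a00c097020511)))
def t330 : k330.all (jb2 57 fl b0) = true := by decide +kernel
noncomputable def k331 : KT := (.br (Nat.shiftLeft (nat_lit 0x3) (nat_lit 125)) (.one (nat_lit 0x500000500600b010000a00c0b7420511)) (.one (nat_lit 0x600000500600b010000a00c0d7820511)))
def t331 : k331.all (jb2 57 fl b0) = true := by decide +kernel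
noncomputable def k332 : KT := (.br (Nat.shiftLeft (nat_lit 0x1) (nat_lit 127)) (.one (nat_lit 0x700000500600b010000a00c0f7c20511)) (.one (nat_lit 0x800000500600b010000a00c118020511)))
def t332 : k332.all (jb2 57 fl b0) = true := by decide +kernel
noncomputable def k333 : KT := (.br (Nat.shiftLeft (nat_lit 0x1) (nat_lit 136)) (.br (Nat.shiftLeft (nat_lit 0x5) (nat_lit 125)) (.one (nat_lit 0x900000500600b010000a00c138420511)) (.br (Nat.shiftLeft (nat_lit 0xb) (nat_lit 124)) (.one (nat_lit 0xa00000500600b010000a00c158820511)) (.one (nat_lit 0xb00000500600b010000a00c178c20511)))) (.br (Nat.shiftLeft (nat_lit 0x1000003) (nat_lit 112)) (.br (Nat.shiftLeft (nat_lit 0x800001) (nat_lit 113)) (.one (nat_lit 0x100000100500600b010200a02c416020611)) (.one (nat_lit 0x100000200500600b010400a02c416020611))) (.br (Nat.shiftLeft (nat_lit 0x400001) (nat_lit 114)) (.one (nat_lit 0x100000300500600b010600a02c416020611)) (.one (nat_lit 0x100000400500600b010800a02c416020611)))))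
noncomputable def b334 : BT := .node (nat_lit 0x17) (nat_lit 0x25949d44e9000cb6800329e064e12704e92a1b6d09d2db249c13a40132d9000cb6400c9da0028c7800ba98002ab783db36da258db664ea274b6cd26e96427492f897c005d4c8025630009d4c801463c005d2e0005632001d4c00165b226d936d12704e925f93a52c693925f36c89d44ea004cb6801329d002ea64003a98000ea64002adf004ea6400a31f124d5b669384b19450a2896325f93a400ba99000cb640132d9004cb6400ba5f002ab7830074e006ee006ee006ee006ee006ee005d8004670046700467002f6002f6002f6002f6002f6002f6002f6002f6002f6001e0001e0001e0001e0001e0) .leaf .leaf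
def t333 : k333.all (jb2 57 fl b334) = true := by decide +kernel
noncomputable def k334 : KT := (.br (Nat.shiftLeft (nat_lit 0x1800001) (nat_lit 113)) (.br (Nat.shiftLeft (nat_lit 0x2000003) (nat_lit 112)) (.br (Nat.shiftLeft (nat_lit 0x1) (nat_lit 137)) (.one (nat_lit 0x100200300500600b010600a02c456820870)) (.br (Nat.shiftLeft (nat_lit 0x1000001) (nat_lit 113)) (.one (nat_lit 0x200000100500600b010200a04c816020611)) (.one (nat_lit 0x200000200500600b010400a04c816020611)))) (.br (Nat.shiftLeft (nat_lit 0x800001) (nat_lit 114)) (.one (nat_lit 0x200000300500600b010600a04c816020611)) (.br (Nat.shiftLeft (nat_lit 0x3) (nat_lit 136)) (.one (nat_lit 0x200000400500600b010800a04c816020611)) (.one (nat_lit 0x300000100500600b010200a06cc16020611))))) (.br (Nat.shiftLeft (nat_lit 0x1) (nat_lit 138)) (.br (Nat.shiftLeft (nat_lit 0x3000003) (nat_lit 112)) (.one (nat_lit 0x300000200500600b010400a06cc16020611)) (.br (Nat.shiftLeft (nat_lit 0xc00001) (nat_lit 114)) (.one (nat_lit 0x300000300500600b010600a06cc16020611)) (.one (nat_lit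 0x300000400500600b010800a06cc16020611)))) (.br (Nat.shiftLeft (nat_lit 0x2000001) (nat_lit 113)) (.one (nat_lit 0x400000100500600b010200a08d016020611)) (.br (Nat.shiftLeft (nat_lit 0x4000003) (nat_lit 112)) (.one (nat_lit 0x400000200500600b010400a08d016020611)) (.one (nat_lit 0x400000300500600b010600a08d016020611))))))
def t334 : k334.all (jb2 57 fl b0) = true := by decide +kernel
noncomputable def k335 : KT := (.br (Nat.shiftLeft (nat_lit 0x2800001) (nat_lit 113)) (.br (Nat.shiftLeft (nat_lit 0x5) (nat_lit 136)) (.one (nat_lit 0x400000400500600b010800a08d016020611)) (.one (nat_lit 0x500000100500600b010200a0ad416020611))) (.br (Nat.shiftLeft (nat_lit 0x5000003) (nat_lit 112)) (.one (nat_lit 0x500000200500600b010400a0ad416020611)) (.one (nat_lit 0x500000300500600b010600a0ad416020611))))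
def t335 : k335.all (jb2 57 fl b0) = true := by decide +kernel
noncomputable def k336 : KT := (.br (Nat.shiftLeft (nat_lit 0x3) (nat_lit 137)) (.one (nat_lit 0x500000400500600b010800a0ad416020611)) (.one (nat_lit 0x600000100500600b010200a0cd816020611)))
def t336 : k336.all (jb2 57 fl b0) = true := by decide +kernel
noncomputable def k337 : KT := (.br (Nat.shiftLeft (nat_lit 0x6000003) (nat_lit 112)) (.one (nat_lit 0x600000200500600b010400a0cd816020611)) (.br (Nat.shiftLeft (nat_lit 0x1800001) (nat_lit 114)) (.one (nat_lit 0x600000300500600b010600a0cd816020611)) (.one (nat_lit 0x600000400500600b010800a0cd816020611))))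
def t337 : k337.all (jb2 57 fl b0) = true := by decide +kernel
noncomputable def k338 : KT := (.br (Nat.shiftLeft (nat_lit 0x3800001) (nat_lit 113)) (.one (nat_lit 0x700000100500600b010200a0edc16020611)) (.one (nat_lit 0x700000200500600b010400a0edc16020611)))
def t338 : k338.all (jb2 57 fl b0) = true := by decide +kernel
noncomputable def k339 : KT := (.br (Nat.shiftLeft (nat_lit 0x1c00001) (nat_lit 114)) (.one (nat_lit 0x700000300500600b010600a0edc16020611)) (.br (Nat.shiftLeft (nat_lit 0x1) (nat_lit 139)) (.one (nat_lit 0x700000400500600b010800a0edc16020611)) (.one (nat_lit 0x800000100500600b010200a10e016020611))))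
def t339 : k339.all (jb2 57 fl b0) = true := by decide +kernel
noncomputable def k340 : KT := (.br (Nat.shiftLeft (nat_lit 0x2000001) (nat_lit 114)) (.br (Nat.shiftLeft (nat_lit 0x8000003) (nat_lit 112)) (.one (nat_lit 0x800000200500600b010400a10e016020611)) (.one (nat_lit 0x800000300500600b010600a10e016020611))) (.br (Nat.shiftLeft (nat_lit 0x9) (nat_lit 136)) (.one (nat_lit 0x800000400500600b010800a10e016020611)) (.one (nat_lit 0x900000100500600b010200a12e416020611))))
noncomputable def b341 : BT := .node (nat_lit 0x1) (nat_lit 0x4b19300a86db249c950c0039e5000ad600041de0008e602000e300028) .leaf .leaf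
def t340 : k340.all (jb2 57 fl b341) = true := by decide +kernel
noncomputable def k341 : KT := (.br (Nat.shiftLeft (nat_lit 0x5000001) (nat_lit 113)) (.br (Nat.shiftLeft (nat_lit 0x2400001) (nat_lit 114)) (.br (Nat.shiftLeft (nat_lit 0x9000003) (nat_lit 112)) (.one (nat_lit 0x900000200500600b010400a12e416020611)) (.one (nat_lit 0x900000300500600b010600a12e416020611))) (.br (Nat.shiftLeft (nat_lit 0x5) (nat_lit 137)) (.one (nat_lit 0x900000400500600b010800a12e416020611)) (.one (nat_lit 0xa00000100500600b010200a14e816020611)))) (.br (Nat.shiftLeft (nat_lit 0x2800001) (nat_lit 114)) (.br (Nat.shiftLeft (nat_lit 0xa000003) (nat_lit 112)) (.one (nat_lit 0xa00000200500600b010400a14e816020611)) (.one (nat_lit 0xa00000300500600b010600a14e816020611))) (.br (Nat.shiftLeft (nat_lit 0xb) (nat_lit 136)) (.one (nat_lit 0xa00000400500600b010800a14e816020611)) (.one (nat_lit 0xb00000100500600b010200a16ec16020611)))))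
def t341 : k341.all (jb2 57 fl b0) = true := by decide +kernel
noncomputable def k342 : KT := (.br (Nat.shiftLeft (nat_lit 0x1000001) (nat_lit 125)) (.br (Nat.shiftLeft (nat_lit 0x1000001003) (nat_lit 112)) (.br (Nat.shiftLeft (nat_lit 0x2c00001) (nat_lit 114)) (.br (Nat.shiftLeft (nat_lit 0xb000003) (nat_lit 112)) (.one (nat_lit 0xb00000200500600b010400a16ec16020611)) (.one (nat_lit 0xb00000300500600b010600a16ec16020611))) (.br (Nat.shiftLeft (nat_lit 0x1) (nat_lit 148)) (.one (nat_lit 0xb00000400500600b010800a16ec16020611)) (.one (nat_lit 0x100000100200500600b010402a40c036420711)))) (.br (Nat.shiftLeft (nat_lit 0x1) (nat_lit 149)) (.br (Nat.shiftLeft (nat_lit 0x800001) (nat_lit 125)) (.one (nat_lit 0x100000100300500600b010602a40c036420711)) (.one (nat_lit 0x100000200300500600b010602a40c056820711))) (.br (Nat.shiftLeft (nat_lit 0x2000001003) (nat_lit 112)) (.one (nat_lit 0x200000100200500600b010404a80c036420711)) (.one (nat_lit 0x200000100300500600b010604a80c036420711))))) (.br (Nat.shiftLeft (nat_lit 0x1) (nat_lit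 150)) (.br (Nat.shiftLeft (nat_lit 0x3000001003) (nat_lit 112)) (.br (Nat.shiftLeft (nat_lit 0x3) (nat_lit 148)) (.one (nat_lit 0x200000200300500600b010604a80c056820711)) (.one (nat_lit 0x300000100200500600b010406ac0c036420711))) (.br (Nat.shiftLeft (nat_lit 0x1800001) (nat_lit 125)) (.one (nat_lit 0x300000100300500600b010606ac0c036420711)) (.one (nat_lit 0x300000200300500600b010606ac0c056820711)))) (.br (Nat.shiftLeft (nat_lit 0x2000001) (nat_lit 125)) (.br (Nat.shiftLeft (nat_lit 0x4000001003) (nat_lit 112)) (.one (nat_lit 0x400000100200500600b010408b00c036420711)) (.one (nat_lit 0x400000100300500600b010608b00c036420711))) (.br (Nat.shiftLeft (nat_lit 0x5) (nat_lit 148)) (.one (nat_lit 0x400000200300500600b010608b00c056820711)) (.one (nat_lit 0x500000100200500600b01040ab40c036420711))))))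
def t342 : k342.all (jb2 57 fl b0) = true := by decide +kernel
noncomputable def k343 : KT := (.br (Nat.shiftLeft (nat_lit 0x3) (nat_lit 149)) (.br (Nat.shiftLeft (nat_lit 0x2800001) (nat_lit 125)) (.one (nat_lit 0x500000100300500600b01060ab40c036420711)) (.one (nat_lit 0x500000200300500600b01060ab40c056820711))) (.br (Nat.shiftLeft (nat_lit 0x6000001003) (nat_lit 112)) (.one (nat_lit 0x600000100200500600b01040cb80c036420711)) (.one (nat_lit 0x600000100300500600b01060cb80c036420711))))
def t343 : k343.all (jb2 57 fl b0) = true := by decide +kernel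
noncomputable def k344 : KT := (.br (Nat.shiftLeft (nat_lit 0x7000001003) (nat_lit 112)) (.br (Nat.shiftLeft (nat_lit 0x7) (nat_lit 148)) (.one (nat_lit 0x600000200300500600b01060cb80c056820711)) (.one (nat_lit 0x700000100200500600b01040ebc0c036420711))) (.br (Nat.shiftLeft (nat_lit 0x3800001) (nat_lit 125)) (.one (nat_lit 0x700000100300500600b01060ebc0c036420711)) (.br (Nat.shiftLeft (nat_lit 0x1) (nat_lit 151)) (.one (nat_lit 0x700000200300500600b01060ebc0c056820711)) (.one (nat_lit 0x800000100200500600b010410c00c036420711)))))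
def t344 : k344.all (jb2 57 fl b0) = true := by decide +kernel
noncomputable def k345 : KT := (.br (Nat.shiftLeft (nat_lit 0x5) (nat_lit 149)) (.br (Nat.shiftLeft (nat_lit 0x9) (nat_lit 148)) (.br (Nat.shiftLeft (nat_lit 0x4000001) (nat_lit 125)) (.one (nat_lit 0x800000100300500600b010610c00c036420711)) (.one (nat_lit 0x800000200300500600b010610c00c056820711))) (.br (Nat.shiftLeft (nat_lit 0x9000001003) (nat_lit 112)) (.one (nat_lit 0x900000100200500600b010412c40c036420711)) (.br (Nat.shiftLeft (nat_lit 0x4800001) (nat_lit 125)) (.one (nat_lit 0x900000100300500600b010612c40c036420711)) (.one (nat_lit 0x900000200300500600b010612c40c056820711))))) (.br (Nat.shiftLeft (nat_lit 0xb) (nat_lit 148)) (.br (Nat.shiftLeft (nat_lit 0xa000001003) (nat_lit 112)) (.one (nat_lit 0xa00000100200500600b010414c80c036420711)) (.br (Nat.shiftLeft (nat_lit 0x5000001) (nat_lit 125)) (.one (nat_lit 0xa00000100300500600b010614c80c036420711)) (.one (nat_lit 0xa00000200300500600b010614c80c056820711)))) (.br (Nat.shiftLeft (nat_lit 0xb000001003)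 (nat_lit 112)) (.one (nat_lit 0xb00000100200500600b010416cc0c036420711)) (.br (Nat.shiftLeft (nat_lit 0x5800001) (nat_lit 125)) (.one (nat_lit 0xb00000100300500600b010616cc0c036420711)) (.one (nat_lit 0xb00000200300500600b010616cc0c056820711))))))
def t345 : k345.all (jb2 57 fl b0) = true := by decide +kernel
noncomputable def s19 : KT := (.br (nat_lit 0x600000100500600b010200a0cd816020611) (.br (nat_lit 0x600000500600b010000a00c0d7820511) (.br (nat_lit 0x300000500600b010000a00c076c20511) (.br (nat_lit 0x200300500600b010600a00c056821700) k328 k329) (.br (nat_lit 0x400000500600b010000a00c097020511) k330 k331)) (.br (nat_lit 0x100000400500600b010800a02c416020611) (.br (nat_lit 0x800000500600b010000a00c118020511) k332 k333) (.br (nat_lit 0x400000300500600b010600a08d016020611) k334 (.br (nat_lit 0x500000300500600b010600a0ad416020611) k335 k336)))) (.br (nat_lit 0x900000100500600b010200a12e416020611) (.br (nat_lit 0x700000200500600b010400a0edc16020611) (.br (nat_lit 0x600000400500600b010800a0cd816020611) k337 k338) (.br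 (nat_lit 0x800000100500600b010200a10e016020611) k339 k340)) (.br (nat_lit 0x500000100200500600b01040ab40c036420711) (.br (nat_lit 0xb00000100500600b010200a16ec16020611) k341 k342) (.br (nat_lit 0x600000100300500600b01060cb80c036420711) k343 (.br (nat_lit 0x800000100200500600b010410c00c036420711) k344 k345)))))
noncomputable def u19 : KT := (.one (nat_lit 0x500600b010000a00c016020540))
def w19 : u19.all (wj 57 s19) = true := by decide +kernel
def o19 : OkW 57 (jb2 57 fl) u19 := .lift s19 _ (.br _ _ _ (.br _ _ _ (.br _ _ _ (.br _ _ _ (.leaf b0 k328 t328) (.leaf b0 k329 t329)) (.br _ _ _ (.leaf b0 k330 t330) (.leaf b0 k331 t331))) (.br _ _ _ (.br _ _ _ (.leaf b0 k332 t332) (.leaf b334 k333 t333)) (.br _ _ _ (.leaf b0 k334 t334) (.br _ _ _ (.leaf b0 k335 t335) (.leaf b0 k336 t336))))) (.br _ _ _ (.br _ _ _ (.br _ _ _ (.leaf b0 k337 t337) (.leaf b0 k338 t338)) (.br _ _ _ (.leaf b0 k339 t339) (.leaf b341 k340 t340))) (.br _ _ _ (.br _ _ _ (.leaf b0 k341 t341) (.leaf b0 k342 t342)) (.br _ _ _ (.leaf b0 k343 t343) (.br _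 _ _ (.leaf b0 k344 t344) (.leaf b0 k345 t345)))))) w19
noncomputable def k346 : KT := (.br (Nat.shiftLeft (nat_lit 0x1802803005809) (nat_lit 65)) (.br (Nat.shiftLeft (nat_lit 0x802803005809) (nat_lit 65)) (.br (Nat.shiftLeft (nat_lit 0x2803005809) (nat_lit 65)) (.one (nat_lit 0x500600b011000a00c016023500)) (.br (Nat.shiftLeft (nat_lit 0x1) (nat_lit 112)) (.one (nat_lit 0x500600b012000a00c016025500)) (.one (nat_lit 0x100500600b011200a00c016023600)))) (.br (Nat.shiftLeft (nat_lit 0x1002803005809) (nat_lit 65)) (.br (Nat.shiftLeft (nat_lit 0x1) (nat_lit 113)) (.one (nat_lit 0x100500600b012200a00c016025600)) (.one (nat_lit 0x200500600b011400a00c016023600))) (.br (Nat.shiftLeft (nat_lit 0x3) (nat_lit 112)) (.one (nat_lit 0x200500600b012400a00c016025600)) (.one (nat_lit 0x300500600b011600a00c016023600))))) (.br (Nat.shiftLeft (nat_lit 0x1) (nat_lit 124)) (.br (Nat.shiftLeft (nat_lit 0x1) (nat_lit 114)) (.one (nat_lit 0x300500600b012600a00c016025600)) (.br (Nat.shiftLeft (nat_lit 0x2002803005809) (nat_lit 65)) (.one (nat_lit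 0x400500600b011800a00c016023600)) (.one (nat_lit 0x400500600b012800a00c016025600)))) (.br (Nat.shiftLeft (nat_lit 0x801) (nat_lit 113)) (.br (Nat.shiftLeft (nat_lit 0x800002803005809) (nat_lit 65)) (.one (nat_lit 0x100000500600b011000a00c036422511)) (.one (nat_lit 0x100000500600b012000a00c036424511))) (.br (Nat.shiftLeft (nat_lit 0x801002803005809) (nat_lit 65)) (.one (nat_lit 0x100200500600b011400a00c036423700)) (.one (nat_lit 0x100200500600b012400a00c036424760))))))
def t346 : k346.all (jb2 57 fl b0) = true := by decide +kernel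
noncomputable def k347 : KT := (.one (nat_lit 0x100300500600b011600a00c036422760))
def t347 : k347.all (jb2 57 fl b0) = true := by decide +kernel
noncomputable def k348 : KT := (.br (Nat.shiftLeft (nat_lit 0x401) (nat_lit 114)) (.one (nat_lit 0x100300500600b012600a00c036424760)) (.one (nat_lit 0x100400500600b011800a00c036422760)))
def t348 : k348.all (jb2 57 fl b0) = true := by decide +kernel
noncomputable def k349 : KT := (.br (Nat.shiftLeft (nat_lit 0x1) (nat_lit 125)) (.one (nat_lit 0x100400500600b012800a00c036424760)) (.br (Nat.shiftLeft (nat_lit 0x1000002803005809) (nat_lit 65)) (.one (nat_lit 0x200000500600b011000a00c056822511)) (.one (nat_lit 0x200000500600b012000a00c056824511))))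
def t349 : k349.all (jb2 57 fl b0) = true := by decide +kernel
noncomputable def k350 : KT := (.one (nat_lit 0x200300500600b011600a00c056822760))
def t350 : k350.all (jb2 57 fl b0) = true := by decide +kernel
noncomputable def k351 : KT := (.one (nat_lit 0x200300500600b012600a00c056824760))
def t351 : k351.all (jb2 57 fl b0) = true := by decide +kernel
noncomputable def k352 : KT := (.br (Nat.shiftLeft (nat_lit 0x3) (nat_lit 124)) (.br (Nat.shiftLeft (nat_lit 0x1002002803005809) (nat_lit 65)) (.one (nat_lit 0x200400500600b011800a00c056822760)) (.one (nat_lit 0x200400500600b012800a00c056824760))) (.br (Nat.shiftLeft (nat_lit 0x1800002803005809) (nat_lit 65)) (.one (nat_lit 0x300000500600b011000a00c076c22511)) (.one (nat_lit 0x300000500600b012000a00c076c24511))))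
def t352 : k352.all (jb2 57 fl b0) = true := by decide +kernel
noncomputable def k353 : KT := (.br (Nat.shiftLeft (nat_lit 0x1802002803005809) (nat_lit 65)) (.one (nat_lit 0x300400500600b011800a00c076c22760)) (.one (nat_lit 0x300400500600b012800a00c076c24760)))
def t353 : k353.all (jb2 57 fl b0) = true := by decide +kernel
noncomputable def k354 : KT := (.br (Nat.shiftLeft (nat_lit 0x5) (nat_lit 124)) (.br (Nat.shiftLeft (nat_lit 0x2000002803005809) (nat_lit 65)) (.one (nat_lit 0x400000500600b011000a00c097022511)) (.one (nat_lit 0x400000500600b012000a00c097024511))) (.br (Nat.shiftLeft (nat_lit 0x2800002803005809) (nat_lit 65)) (.one (nat_lit 0x500000500600b011000a00c0b7422511)) (.br (Nat.shiftLeft (nat_lit 0x3) (nat_lit 125)) (.one (nat_lit 0x500000500600b012000a00c0b7424511)) (.one (nat_lit 0x600000500600b011000a00c0d7822511)))))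
def t354 : k354.all (jb2 57 fl b0) = true := by decide +kernel
noncomputable def k355 : KT := (.br (Nat.shiftLeft (nat_lit 0x7) (nat_lit 124)) (.one (nat_lit 0x600000500600b012000a00c0d7824511)) (.br (Nat.shiftLeft (nat_lit 0x3800002803005809) (nat_lit 65)) (.one (nat_lit 0x700000500600b011000a00c0f7c22511)) (.one (nat_lit 0x700000500600b012000a00c0f7c24511))))
def t355 : k355.all (jb2 57 fl b0) = true := by decide +kernel
noncomputable def k356 : KT := (.br (Nat.shiftLeft (nat_lit 0x9) (nat_lit 124)) (.br (Nat.shiftLeft (nat_lit 0x4000002803005809) (nat_lit 65)) (.one (nat_lit 0x800000500600b011000a00c118022511)) (.one (nat_lit 0x800000500600b012000a00c118024511))) (.br (Nat.shiftLeft (nat_lit 0x4800002803005809) (nat_lit 65)) (.one (nat_lit 0x900000500600b011000a00c138422511)) (.one (nat_lit 0x900000500600b012000a00c138424511))))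
noncomputable def b357 : BT := .node (nat_lit 0x1) (nat_lit 0x4b1930097e5144b193a4003a9a000aa90003a98000cb642000e300028) .leaf .leaf
def t356 : k356.all (jb2 57 fl b357) = true := by decide +kernel
noncomputable def k357 : KT := (.br (Nat.shiftLeft (nat_lit 0x1000001002803005809) (nat_lit 65)) (.br (Nat.shiftLeft (nat_lit 0x800001002803005809) (nat_lit 65)) (.br (Nat.shiftLeft (nat_lit 0x5800002803005809) (nat_lit 65)) (.br (Nat.shiftLeft (nat_lit 0x5000002803005809) (nat_lit 65)) (.one (nat_lit 0xa00000500600b011000a00c158822511)) (.br (Nat.shiftLeft (nat_lit 0xb) (nat_lit 124)) (.one (nat_lit 0xa00000500600b012000a00c158824511)) (.one (nat_lit 0xb00000500600b011000a00c178c22511)))) (.br (Nat.shiftLeft (nat_lit 0x800000802803005809) (nat_lit 65)) (.br (Nat.shiftLeft (nat_lit 0x1) (nat_lit 136)) (.one (nat_lit 0xb00000500600b012000a00c178c24511)) (.one (nat_lit 0x100000100500600b011200a02c416022611))) (.br (Nat.shiftLeft (nat_lit 0x800001) (nat_lit 113)) (.one (nat_lit 0x100000100500600b012200a02c416024611)) (.one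 (nat_lit 0x100000200500600b011400a02c416022611))))) (.br (Nat.shiftLeft (nat_lit 0x800002002803005809) (nat_lit 65)) (.br (Nat.shiftLeft (nat_lit 0x800001802803005809) (nat_lit 65)) (.br (Nat.shiftLeft (nat_lit 0x1000003) (nat_lit 112)) (.one (nat_lit 0x100000200500600b012400a02c416024611)) (.one (nat_lit 0x100000300500600b011600a02c416022611))) (.br (Nat.shiftLeft (nat_lit 0x400001) (nat_lit 114)) (.one (nat_lit 0x100000300500600b012600a02c416024611)) (.one (nat_lit 0x100000400500600b011800a02c416022611)))) (.br (Nat.shiftLeft (nat_lit 0x1000000802803005809) (nat_lit 65)) (.br (Nat.shiftLeft (nat_lit 0x1) (nat_lit 137)) (.one (nat_lit 0x100000400500600b012800a02c416024611)) (.one (nat_lit 0x200000100500600b011200a04c816022611))) (.br (Nat.shiftLeft (nat_lit 0x1000001) (nat_lit 113)) (.one (nat_lit 0x200000100500600b012200a04c816024611)) (.one (nat_lit 0x200000200500600b011400a04c816022611)))))) (.br (Nat.shiftLeft (nat_lit 0x1800001002803005809) (nat_lit 65)) (.br (Nat.shiftLeft (nat_lit 0x1000002002803005809) (nat_lit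 65)) (.br (Nat.shiftLeft (nat_lit 0x1000001802803005809) (nat_lit 65)) (.br (Nat.shiftLeft (nat_lit 0x2000003) (nat_lit 112)) (.one (nat_lit 0x200000200500600b012400a04c816024611)) (.one (nat_lit 0x200000300500600b011600a04c816022611))) (.br (Nat.shiftLeft (nat_lit 0x800001) (nat_lit 114)) (.one (nat_lit 0x200000300500600b012600a04c816024611)) (.one (nat_lit 0x200000400500600b011800a04c816022611)))) (.br (Nat.shiftLeft (nat_lit 0x1800000802803005809) (nat_lit 65)) (.br (Nat.shiftLeft (nat_lit 0x3) (nat_lit 136)) (.one (nat_lit 0x200000400500600b012800a04c816024611)) (.one (nat_lit 0x300000100500600b011200a06cc16022611))) (.br (Nat.shiftLeft (nat_lit 0x1800001) (nat_lit 113)) (.one (nat_lit 0x300000100500600b012200a06cc16024611)) (.one (nat_lit 0x300000200500600b011400a06cc16022611))))) (.br (Nat.shiftLeft (nat_lit 0x1800002002803005809) (nat_lit 65)) (.br (Nat.shiftLeft (nat_lit 0x1800001802803005809) (nat_lit 65)) (.br (Nat.shiftLeft (nat_lit 0x3000003) (nat_lit 112)) (.one (nat_lit 0x300000200500600b012400a06cc16024611))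 (.one (nat_lit 0x300000300500600b011600a06cc16022611))) (.br (Nat.shiftLeft (nat_lit 0xc00001) (nat_lit 114)) (.one (nat_lit 0x300000300500600b012600a06cc16024611)) (.one (nat_lit 0x300000400500600b011800a06cc16022611)))) (.br (Nat.shiftLeft (nat_lit 0x2000000802803005809) (nat_lit 65)) (.br (Nat.shiftLeft (nat_lit 0x1) (nat_lit 138)) (.one (nat_lit 0x300000400500600b012800a06cc16024611)) (.one (nat_lit 0x400000100500600b011200a08d016022611))) (.br (Nat.shiftLeft (nat_lit 0x2000001) (nat_lit 113)) (.one (nat_lit 0x400000100500600b012200a08d016024611)) (.one (nat_lit 0x400000200500600b011400a08d016022611)))))))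
def t357 : k357.all (jb2 57 fl b0) = true := by decide +kernel
noncomputable def k358 : KT := (.br (Nat.shiftLeft (nat_lit 0x1000001) (nat_lit 114)) (.br (Nat.shiftLeft (nat_lit 0x4000003) (nat_lit 112)) (.one (nat_lit 0x400000200500600b012400a08d016024611)) (.br (Nat.shiftLeft (nat_lit 0x2000001802803005809) (nat_lit 65)) (.one (nat_lit 0x400000300500600b011600a08d016022611)) (.one (nat_lit 0x400000300500600b012600a08d016024611)))) (.br (Nat.shiftLeft (nat_lit 0x5) (nat_lit 136)) (.br (Nat.shiftLeft (nat_lit 0x2000002002803005809) (nat_lit 65)) (.one (nat_lit 0x400000400500600b011800a08d016022611)) (.one (nat_lit 0x400000400500600b012800a08d016024611))) (.br (Nat.shiftLeft (nat_lit 0x2800000802803005809) (nat_lit 65)) (.one (nat_lit 0x500000100500600b011200a0ad416022611)) (.one (nat_lit 0x500000100500600b012200a0ad416024611)))))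
def t358 : k358.all (jb2 57 fl b0) = true := by decide +kernel
noncomputable def k359 : KT := (.br (Nat.shiftLeft (nat_lit 0x2800001802803005809) (nat_lit 65)) (.br (Nat.shiftLeft (nat_lit 0x2800001002803005809) (nat_lit 65)) (.one (nat_lit 0x500000200500600b011400a0ad416022611)) (.br (Nat.shiftLeft (nat_lit 0x5000003) (nat_lit 112)) (.one (nat_lit 0x500000200500600b012400a0ad416024611)) (.one (nat_lit 0x500000300500600b011600a0ad416022611)))) (.br (Nat.shiftLeft (nat_lit 0x1400001) (nat_lit 114)) (.one (nat_lit 0x500000300500600b012600a0ad416024611)) (.br (Nat.shiftLeft (nat_lit 0x2800002002803005809) (nat_lit 65)) (.one (nat_lit 0x500000400500600b011800a0ad416022611)) (.one (nat_lit 0x500000400500600b012800a0ad416024611)))))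
def t359 : k359.all (jb2 57 fl b0) = true := by decide +kernel
noncomputable def k360 : KT := (.br (Nat.shiftLeft (nat_lit 0x3000000802803005809) (nat_lit 65)) (.one (nat_lit 0x600000100500600b011200a0cd816022611)) (.br (Nat.shiftLeft (nat_lit 0x3000001) (nat_lit 113)) (.one (nat_lit 0x600000100500600b012200a0cd816024611)) (.one (nat_lit 0x600000200500600b011400a0cd816022611))))
def t360 : k360.all (jb2 57 fl b0) = true := by decide +kernel
noncomputable def k361 : KT := (.br (Nat.shiftLeft (nat_lit 0x3000001802803005809) (nat_lit 65)) (.br (Nat.shiftLeft (nat_lit 0x6000003) (nat_lit 112)) (.one (nat_lit 0x600000200500600b012400a0cd816024611)) (.one (nat_lit 0x600000300500600b011600a0cd816022611))) (.br (Nat.shiftLeft (nat_lit 0x1800001) (nat_lit 114)) (.one (nat_lit 0x600000300500600b012600a0cd816024611)) (.br (Nat.shiftLeft (nat_lit 0x3000002002803005809) (nat_lit 65)) (.one (nat_lit 0x600000400500600b011800a0cd816022611)) (.one (nat_lit 0x600000400500600b012800a0cd816024611)))))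
def t361 : k361.all (jb2 57 fl b0) = true := by decide +kernel
noncomputable def k362 : KT := (.br (Nat.shiftLeft (nat_lit 0x3800001) (nat_lit 113)) (.br (Nat.shiftLeft (nat_lit 0x3800000802803005809) (nat_lit 65)) (.one (nat_lit 0x700000100500600b011200a0edc16022611)) (.one (nat_lit 0x700000100500600b012200a0edc16024611))) (.br (Nat.shiftLeft (nat_lit 0x3800001002803005809) (nat_lit 65)) (.one (nat_lit 0x700000200500600b011400a0edc16022611)) (.one (nat_lit 0x700000200500600b012400a0edc16024611))))
def t362 : k362.all (jb2 57 fl b0) = true := by decide +kernel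
noncomputable def k363 : KT := (.br (Nat.shiftLeft (nat_lit 0x3800002002803005809) (nat_lit 65)) (.br (Nat.shiftLeft (nat_lit 0x3800001802803005809) (nat_lit 65)) (.one (nat_lit 0x700000300500600b011600a0edc16022611)) (.br (Nat.shiftLeft (nat_lit 0x1c00001) (nat_lit 114)) (.one (nat_lit 0x700000300500600b012600a0edc16024611)) (.one (nat_lit 0x700000400500600b011800a0edc16022611)))) (.br (Nat.shiftLeft (nat_lit 0x1) (nat_lit 139)) (.one (nat_lit 0x700000400500600b012800a0edc16024611)) (.br (Nat.shiftLeft (nat_lit 0x4000000802803005809) (nat_lit 65)) (.one (nat_lit 0x800000100500600b011200a10e016022611)) (.one (nat_lit 0x800000100500600b012200a10e016024611)))))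
def t363 : k363.all (jb2 57 fl b0) = true := by decide +kernel
noncomputable def k364 : KT := (.br (Nat.shiftLeft (nat_lit 0x2000001) (nat_lit 114)) (.br (Nat.shiftLeft (nat_lit 0x8000003) (nat_lit 112)) (.br (Nat.shiftLeft (nat_lit 0x4000001002803005809) (nat_lit 65)) (.one (nat_lit 0x800000200500600b011400a10e016022611)) (.one (nat_lit 0x800000200500600b012400a10e016024611))) (.br (Nat.shiftLeft (nat_lit 0x4000001802803005809) (nat_lit 65)) (.one (nat_lit 0x800000300500600b011600a10e016022611)) (.one (nat_lit 0x800000300500600b012600a10e016024611)))) (.br (Nat.shiftLeft (nat_lit 0x9) (nat_lit 136)) (.br (Nat.shiftLeft (nat_lit 0x4000002002803005809) (nat_lit 65)) (.one (nat_lit 0x800000400500600b011800a10e016022611)) (.one (nat_lit 0x800000400500600b012800a10e016024611))) (.br (Nat.shiftLeft (nat_lit 0x4800000802803005809) (nat_lit 65)) (.one (nat_lit 0x900000100500600b011200a12e416022611)) (.one (nat_lit 0x900000100500600b012200a12e416024611)))))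
def t364 : k364.all (jb2 57 fl b0) = true := by decide +kernel
noncomputable def k365 : KT := (.br (Nat.shiftLeft (nat_lit 0x5000001) (nat_lit 113)) (.br (Nat.shiftLeft (nat_lit 0x2400001) (nat_lit 114)) (.br (Nat.shiftLeft (nat_lit 0x9000003) (nat_lit 112)) (.br (Nat.shiftLeft (nat_lit 0x4800001002803005809) (nat_lit 65)) (.one (nat_lit 0x900000200500600b011400a12e416022611)) (.one (nat_lit 0x900000200500600b012400a12e416024611))) (.br (Nat.shiftLeft (nat_lit 0x4800001802803005809) (nat_lit 65)) (.one (nat_lit 0x900000300500600b011600a12e416022611)) (.one (nat_lit 0x900000300500600b012600a12e416024611)))) (.br (Nat.shiftLeft (nat_lit 0x5) (nat_lit 137)) (.br (Nat.shiftLeft (nat_lit 0x4800002002803005809) (nat_lit 65)) (.one (nat_lit 0x900000400500600b011800a12e416022611)) (.one (nat_lit 0x900000400500600b012800a12e416024611))) (.br (Nat.shiftLeft (nat_lit 0x5000000802803005809) (nat_lit 65)) (.one (nat_lit 0xa00000100500600b011200a14e816022611)) (.one (nat_lit 0xa00000100500600b012200a14e816024611))))) (.br (Nat.shiftLeft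 (nat_lit 0x2800001) (nat_lit 114)) (.br (Nat.shiftLeft (nat_lit 0xa000003) (nat_lit 112)) (.br (Nat.shiftLeft (nat_lit 0x5000001002803005809) (nat_lit 65)) (.one (nat_lit 0xa00000200500600b011400a14e816022611)) (.one (nat_lit 0xa00000200500600b012400a14e816024611))) (.br (Nat.shiftLeft (nat_lit 0x5000001802803005809) (nat_lit 65)) (.one (nat_lit 0xa00000300500600b011600a14e816022611)) (.one (nat_lit 0xa00000300500600b012600a14e816024611)))) (.br (Nat.shiftLeft (nat_lit 0xb) (nat_lit 136)) (.br (Nat.shiftLeft (nat_lit 0x5000002002803005809) (nat_lit 65)) (.one (nat_lit 0xa00000400500600b011800a14e816022611)) (.one (nat_lit 0xa00000400500600b012800a14e816024611))) (.br (Nat.shiftLeft (nat_lit 0x5800000802803005809) (nat_lit 65)) (.one (nat_lit 0xb00000100500600b011200a16ec16022611)) (.one (nat_lit 0xb00000100500600b012200a16ec16024611))))))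
def t365 : k365.all (jb2 57 fl b0) = true := by decide +kernel
noncomputable def k366 : KT := (.br (Nat.shiftLeft (nat_lit 0x1) (nat_lit 149)) (.br (Nat.shiftLeft (nat_lit 0x5800001802803005809) (nat_lit 65)) (.br (Nat.shiftLeft (nat_lit 0x5800001002803005809) (nat_lit 65)) (.one (nat_lit 0xb00000200500600b011400a16ec16022611)) (.br (Nat.shiftLeft (nat_lit 0xb000003) (nat_lit 112)) (.one (nat_lit 0xb00000200500600b012400a16ec16024611)) (.one (nat_lit 0xb00000300500600b011600a16ec16022611)))) (.br (Nat.shiftLeft (nat_lit 0x5800002002803005809) (nat_lit 65)) (.br (Nat.shiftLeft (nat_lit 0x2c00001) (nat_lit 114)) (.one (nat_lit 0xb00000300500600b012600a16ec16024611)) (.one (nat_lit 0xb00000400500600b011800a16ec16022611))) (.br (Nat.shiftLeft (nat_lit 0x1) (nat_lit 148)) (.one (nat_lit 0xb00000400500600b012800a16ec16024611)) (.one (nat_lit 0x100000100200500600b011402a40c036422711))))) (.br (Nat.shiftLeft (nat_lit 0x5) (nat_lit 148)) (.br (Nat.shiftLeft (nat_lit 0x3) (nat_lit 148)) (.one (nat_lit 0x200000100200500600b011404a80c036422711))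 (.br (Nat.shiftLeft (nat_lit 0x1) (nat_lit 150)) (.one (nat_lit 0x300000100200500600b011406ac0c036422711)) (.one (nat_lit 0x400000100200500600b011408b00c036422711)))) (.br (Nat.shiftLeft (nat_lit 0x7) (nat_lit 148)) (.br (Nat.shiftLeft (nat_lit 0x3) (nat_lit 149)) (.one (nat_lit 0x500000100200500600b01140ab40c036422711)) (.one (nat_lit 0x600000100200500600b01140cb80c036422711))) (.br (Nat.shiftLeft (nat_lit 0x1) (nat_lit 151)) (.one (nat_lit 0x700000100200500600b01140ebc0c036422711)) (.one (nat_lit 0x800000100200500600b011410c00c036422711))))))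
def t366 : k366.all (jb2 57 fl b0) = true := by decide +kernel
noncomputable def k367 : KT := (.br (Nat.shiftLeft (nat_lit 0x5) (nat_lit 149)) (.one (nat_lit 0x900000100200500600b011412c40c036422711)) (.br (Nat.shiftLeft (nat_lit 0xb) (nat_lit 148)) (.one (nat_lit 0xa00000100200500600b011414c80c036422711)) (.one (nat_lit 0xb00000100200500600b011416cc0c036422711))))
def t367 : k367.all (jb2 57 fl b0) = true := by decide +kernel
noncomputable def s20 : KT := (.br (nat_lit 0x900000500600b012000a00c138424511) (.br (nat_lit 0x200300500600b011600a00c056822760) (.br (nat_lit 0x100300500600b011600a00c036422760) (.br (nat_lit 0x100200500600b012400a00c036424760) k346 k347) (.br (nat_lit 0x100400500600b011800a00c036422760) k348 (.br (nat_lit 0x200000500600b012000a00c056824511) k349 k350))) (.br (nat_lit 0x300400500600b012800a00c076c24760) (.br (nat_lit 0x200300500600b012600a00c056824760) k351 (.br (nat_lit 0x300000500600b012000a00c076c24511) k352 k353)) (.br (nat_lit 0x600000500600b011000a00c0d7822511) k354 (.br (nat_lit 0x700000500600b012000a00c0f7c24511)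 k355 k356)))) (.br (nat_lit 0x600000400500600b012800a0cd816024611) (.br (nat_lit 0x500000100500600b012200a0ad416024611) (.br (nat_lit 0x400000200500600b011400a08d016022611) k357 k358) (.br (nat_lit 0x500000400500600b012800a0ad416024611) k359 (.br (nat_lit 0x600000200500600b011400a0cd816022611) k360 k361))) (.br (nat_lit 0x900000100500600b012200a12e416024611) (.br (nat_lit 0x700000200500600b012400a0edc16024611) k362 (.br (nat_lit 0x800000100500600b012200a10e016024611) k363 k364)) (.br (nat_lit 0xb00000100500600b012200a16ec16024611) k365 (.br (nat_lit 0x800000100200500600b011410c00c036422711) k366 k367)))))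
noncomputable def u20 : KT := (.br (Nat.shiftLeft (nat_lit 0x2803005809) (nat_lit 65)) (.one (nat_lit 0x500600b011000a00c016022540)) (.one (nat_lit 0x500600b012000a00c016024540)))
def w20 : u20.all (wj 57 s20) = true := by decide +kernel
def o20 : OkW 57 (jb2 57 fl) u20 := .lift s20 _ (.br _ _ _ (.br _ _ _ (.br _ _ _ (.br _ _ _ (.leaf b0 k346 t346) (.leaf b0 k347 t347)) (.br _ _ _ (.leaf b0 k348 t348) (.br _ _ _ (.leaf b0 k349 t349) (.leaf b0 k350 t350)))) (.br _ _ _ (.br _ _ _ (.leaf b0 k351 t351) (.br _ _ _ (.leaf b0 k352 t352) (.leaf b0 k353 t353))) (.br _ _ _ (.leaf b0 k354 t354) (.br _ _ _ (.leaf b0 k355 t355) (.leaf b357 k356 t356))))) (.br _ _ _ (.br _ _ _ (.br _ _ _ (.leaf b0 k357 t357) (.leaf b0 k358 t358)) (.br _ _ _ (.leaf b0 k359 t359) (.br _ _ _ (.leaf b0 k360 t360) (.leaf b0 k361 t361)))) (.br _ _ _ (.br _ _ _ (.leaf b0 k362 t362) (.br _ _ _ (.leaf b0 k363 t363) (.leaf b0 k364 t364))) (.br _ _ _ (.leaf b0 k365 t365) (.br _ _ _ (.leaf b0 k366 t366) (.leaf b0 k367 t367)))))) w20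
noncomputable def k : KT := (.br (nat_lit 0x5006008011000a00c010023500) (.br (nat_lit 0x5000009016000a00001202c311) (.br (nat_lit 0x400a00b00e000801401601c540) (.br (nat_lit 0x400a00b00c0008014016018540) u0 u1) (.br (nat_lit 0x400a00c00d000801401801a540) u2 (.br (nat_lit 0x400b00c00d000801601801a540) u3 u4))) (.br (nat_lit 0x5006007011000a00c00e022540) (.br (nat_lit 0x500000f011000a00001e022311) u5 u6) (.br (nat_lit 0x5006007012000a00c00e024540) u7 (.br (nat_lit 0x5006007013000a00c00e026540) u8 u9)))) (.br (nat_lit 0x5006009012000a00c012024540) (.br (nat_lit 0x5006008014000a00c010028540) (.br (nat_lit 0x5006008012000a00c010024540) u10 u11) (.br (nat_lit 0x5006009010000a00c012021500) u12 (.br (nat_lit 0x5006009011000a00c012022540) u13 u14))) (.br (nat_lit 0x500600a013000a00c014026540) (.br (nat_lit 0x500600a010000a00c014021500) u15 (.br (nat_lit 0x500600a011000a00c014022540) u16 u17)) (.br (nat_lit 0x500600b00f000a00c01601f500) u18 (.br (nat_lit 0x500600b010000a00c016020540) u19 u20)))))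
theorem ok : OkW 57 (jb2 57 fl) k := (.br _ _ _ (.br _ _ _ (.br _ _ _ (.br _ _ _ o0 o1) (.br _ _ _ o2 (.br _ _ _ o3 o4))) (.br _ _ _ (.br _ _ _ o5 o6) (.br _ _ _ o7 (.br _ _ _ o8 o9)))) (.br _ _ _ (.br _ _ _ (.br _ _ _ o10 o11) (.br _ _ _ o12 (.br _ _ _ o13 o14))) (.br _ _ _ (.br _ _ _ o15 (.br _ _ _ o16 o17)) (.br _ _ _ o18 (.br _ _ _ o19 o20)))))

end Pool.Agent.Lib.MP_ed43e6_ag.Q.Y57.R34
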