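import Pool.Agent.Lib.MP_ed43e6_ag.Y57.Fl

namespace Pool.Agent.Lib.MP_ed43e6_ag.Q.Y57.R35

set_option linter.defProp false

noncomputable def b0 : BT := .node (nat_lit 1) (nat_lit 0) .leaf .leaf
noncomputable def k0 : KT := (.br (Nat.shiftLeft (nat_lit 0x1) (nat_lit 113)) (.br (Nat.shiftLeft (nat_lit 0x2803006007) (nat_lit 65)) (.br (Nat.shiftLeft (nat_lit 0x1401803) (nat_lit 78)) (.one (nat_lit 0x500600b013000a00c016027500)) (.one (nat_lit 0x500600c00d000a00c01801b500))) (.br (Nat.shiftLeft (nat_lit 0x1) (nat_lit 112)) (.one (nat_lit 0x500600c00e000a00c01801d500)) (.one (nat_lit 0x100500600b013200a00c016026650)))) (.br (Nat.shiftLeft (nat_lit 0x1) (nat_lit 114)) (.br (Nat.shiftLeft (nat_lit 0x3) (nat_lit 112)) (.one (nat_lit 0x200500600b013400a00c016027600)) (.one (nat_lit 0x300500600b013600a00c016027600))) (.br (Nat.shiftLeft (nat_lit 0x1) (nat_lit 124)) (.one (nat_lit 0x400500600b013800a00c016027600)) (.one (nat_lit 0x100000500600b013000a00c036426511)))))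
def t0 : k0.all (jb2 57 fl b0) = true := by decide +kernel
noncomputable def k1 : KT := (.br (Nat.shiftLeft (nat_lit 0x1003) (nat_lit 112)) (.one (nat_lit 0x100200500600b013400a00c036426760)) (.one (nat_lit 0x100300500600b013600a00c036426760)))
def t1 : k1.all (jb2 57 fl b0) = true := by decide +kernel
noncomputable def k2 : KT := (.br (Nat.shiftLeft (nat_lit 0x1001) (nat_lit 113)) (.br (Nat.shiftLeft (nat_lit 0x1) (nat_lit 125)) (.one (nat_lit 0x100400500600b013800a00c036426760)) (.one (nat_lit 0x200000500600b013000a00c056826511))) (.br (Nat.shiftLeft (nat_lit 0x801) (nat_lit 114)) (.one (nat_lit 0x200300500600b013600a00c056826760)) (.br (Nat.shiftLeft (nat_lit 0x3) (nat_lit 124)) (.one (nat_lit 0x200400500600b013800a00c056826760)) (.one (nat_lit 0x300000500600b013000a00c076c26511)))))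
def t2 : k2.all (jb2 57 fl b0) = true := by decide +kernel
noncomputable def k3 : KT := (.br (Nat.shiftLeft (nat_lit 0x3) (nat_lit 125)) (.br (Nat.shiftLeft (nat_lit 0x1) (nat_lit 126)) (.one (nat_lit 0x300400500600b013800a00c076c26760)) (.br (Nat.shiftLeft (nat_lit 0x5) (nat_lit 124)) (.one (nat_lit 0x400000500600b013000a00c097026511)) (.one (nat_lit 0x500000500600b013000a00c0b7426511)))) (.br (Nat.shiftLeft (nat_lit 0x7) (nat_lit 124)) (.one (nat_lit 0x600000500600b013000a00c0d7826511)) (.br (Nat.shiftLeft (nat_lit 0x1) (nat_lit 127)) (.one (nat_lit 0x700000500600b013000a00c0f7c26511)) (.one (nat_lit 0x800000500600b013000a00c118026511)))))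
def t3 : k3.all (jb2 57 fl b0) = true := by decide +kernel
noncomputable def k4 : KT := (.br (Nat.shiftLeft (nat_lit 0x3) (nat_lit 136)) (.br (Nat.shiftLeft (nat_lit 0x1000003) (nat_lit 112)) (.br (Nat.shiftLeft (nat_lit 0xb) (nat_lit 124)) (.br (Nat.shiftLeft (nat_lit 0x5) (nat_lit 125)) (.one (nat_lit 0x900000500600b013000a00c138426511)) (.one (nat_lit 0xa00000500600b013000a00c158826511))) (.br (Nat.shiftLeft (nat_lit 0x1) (nat_lit 136)) (.one (nat_lit 0xb00000500600b013000a00c178c26511)) (.one (nat_lit 0x100000200500600b013400a02c416026611)))) (.br (Nat.shiftLeft (nat_lit 0x1) (nat_lit 137)) (.br (Nat.shiftLeft (nat_lit 0x400001) (nat_lit 114)) (.one (nat_lit 0x100000300500600b013600a02c416026611)) (.one (nat_lit 0x100000400500600b013800a02c416026611))) (.br (Nat.shiftLeft (nat_lit 0x2000003) (nat_lit 112)) (.one (nat_lit 0x200000200500600b013400a04c816026611)) (.br (Nat.shiftLeft (nat_lit 0x800001) (nat_lit 114)) (.one (nat_lit 0x200000300500600b013600a04c816026611)) (.one (nat_lit 0x200000400500600b013800a04c816026611))))))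 (.br (Nat.shiftLeft (nat_lit 0x1000001) (nat_lit 114)) (.br (Nat.shiftLeft (nat_lit 0xc00001) (nat_lit 114)) (.br (Nat.shiftLeft (nat_lit 0x3000003) (nat_lit 112)) (.one (nat_lit 0x300000200500600b013400a06cc16026611)) (.one (nat_lit 0x300000300500600b013600a06cc16026611))) (.br (Nat.shiftLeft (nat_lit 0x1) (nat_lit 138)) (.one (nat_lit 0x300000400500600b013800a06cc16026611)) (.br (Nat.shiftLeft (nat_lit 0x4000003) (nat_lit 112)) (.one (nat_lit 0x400000200500600b013400a08d016026611)) (.one (nat_lit 0x400000300500600b013600a08d016026611))))) (.br (Nat.shiftLeft (nat_lit 0x5000003) (nat_lit 112)) (.br (Nat.shiftLeft (nat_lit 0x5) (nat_lit 136)) (.one (nat_lit 0x400000400500600b013800a08d016026611)) (.one (nat_lit 0x500000200500600b013400a0ad416026611))) (.br (Nat.shiftLeft (nat_lit 0x1400001) (nat_lit 114)) (.one (nat_lit 0x500000300500600b013600a0ad416026611)) (.br (Nat.shiftLeft (nat_lit 0x3) (nat_lit 137)) (.one (nat_lit 0x500000400500600b013800a0ad416026611)) (.one (nat_lit 0x600000200500600b013400a0cd816026611)))))))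
def t4 : k4.all (jb2 57 fl b0) = true := by decide +kernel
noncomputable def k5 : KT := (.br (Nat.shiftLeft (nat_lit 0x9) (nat_lit 136)) (.br (Nat.shiftLeft (nat_lit 0x1c00001) (nat_lit 114)) (.br (Nat.shiftLeft (nat_lit 0x7) (nat_lit 136)) (.br (Nat.shiftLeft (nat_lit 0x1800001) (nat_lit 114)) (.one (nat_lit 0x600000300500600b013600a0cd816026611)) (.one (nat_lit 0x600000400500600b013800a0cd816026611))) (.br (Nat.shiftLeft (nat_lit 0x7000003) (nat_lit 112)) (.one (nat_lit 0x700000200500600b013400a0edc16026611)) (.one (nat_lit 0x700000300500600b013600a0edc16026611)))) (.br (Nat.shiftLeft (nat_lit 0x8000003) (nat_lit 112)) (.br (Nat.shiftLeft (nat_lit 0x1) (nat_lit 139)) (.one (nat_lit 0x700000400500600b013800a0edc16026611)) (.one (nat_lit 0x800000200500600b013400a10e016026611))) (.br (Nat.shiftLeft (nat_lit 0x2000001) (nat_lit 114)) (.one (nat_lit 0x800000300500600b013600a10e016026611)) (.one (nat_lit 0x800000400500600b013800a10e016026611))))) (.br (Nat.shiftLeft (nat_lit 0xa000003) (nat_lit 112)) (.br (Nat.shiftLeft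 (nat_lit 0x2400001) (nat_lit 114)) (.br (Nat.shiftLeft (nat_lit 0x9000003) (nat_lit 112)) (.one (nat_lit 0x900000200500600b013400a12e416026611)) (.one (nat_lit 0x900000300500600b013600a12e416026611))) (.br (Nat.shiftLeft (nat_lit 0x5) (nat_lit 137)) (.one (nat_lit 0x900000400500600b013800a12e416026611)) (.one (nat_lit 0xa00000200500600b013400a14e816026611)))) (.br (Nat.shiftLeft (nat_lit 0xb) (nat_lit 136)) (.br (Nat.shiftLeft (nat_lit 0x2800001) (nat_lit 114)) (.one (nat_lit 0xa00000300500600b013600a14e816026611)) (.one (nat_lit 0xa00000400500600b013800a14e816026611))) (.br (Nat.shiftLeft (nat_lit 0xb000003) (nat_lit 112)) (.one (nat_lit 0xb00000200500600b013400a16ec16026611)) (.br (Nat.shiftLeft (nat_lit 0x2c00001) (nat_lit 114)) (.one (nat_lit 0xb00000300500600b013600a16ec16026611)) (.one (nat_lit 0xb00000400500600b013800a16ec16026611)))))))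
def t5 : k5.all (jb2 57 fl b0) = true := by decide +kernel
noncomputable def s0 : KT := (.br (nat_lit 0x300000500600b013000a00c076c26511) (.br (nat_lit 0x100000500600b013000a00c036426511) k0 (.br (nat_lit 0x100300500600b013600a00c036426760) k1 k2)) (.br (nat_lit 0x800000500600b013000a00c118026511) k3 (.br (nat_lit 0x600000200500600b013400a0cd816026611) k4 k5)))
noncomputable def u0 : KT := (.br (Nat.shiftLeft (nat_lit 0x1401803) (nat_lit 78)) (.one (nat_lit 0x500600b013000a00c016026540)) (.br (Nat.shiftLeft (nat_lit 0x2803006007) (nat_lit 65)) (.one (nat_lit 0x500600c00d000a00c01801b500)) (.one (nat_lit 0x500600c00e000a00c01801d500))))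
def w0 : u0.all (wj 57 s0) = true := by decide +kernel
def o0 : OkW 57 (jb2 57 fl) u0 := .lift s0 _ (.br _ _ _ (.br _ _ _ (.leaf b0 k0 t0) (.br _ _ _ (.leaf b0 k1 t1) (.leaf b0 k2 t2))) (.br _ _ _ (.leaf b0 k3 t3) (.br _ _ _ (.leaf b0 k4 t4) (.leaf b0 k5 t5)))) w0
noncomputable def k6 : KT := (.br (Nat.shiftLeft (nat_lit 0x1) (nat_lit 124)) (.br (Nat.shiftLeft (nat_lit 0x1) (nat_lit 113)) (.br (Nat.shiftLeft (nat_lit 0x1) (nat_lit 112)) (.one (nat_lit 0x500600c00f000a00c01801f500)) (.one (nat_lit 0x100500600c00f200a00c01801f600))) (.br (Nat.shiftLeft (nat_lit 0x3) (nat_lit 112)) (.one (nat_lit 0x200500600c00f400a00c01801f600)) (.br (Nat.shiftLeft (nat_lit 0x1) (nat_lit 114)) (.one (nat_lit 0x300500600c00f600a00c01801f600)) (.one (nat_lit 0x400500600c00f800a00c01801f600))))) (.br (Nat.shiftLeft (nat_lit 0x401) (nat_lit 114)) (.br (Nat.shiftLeft (nat_lit 0x801) (nat_lit 113)) (.one (nat_lit 0x100000500600c00f000a00c03841e511)) (.br (Nat.shiftLeft (nat_lit 0x1003) (nat_lit 112)) (.one (nat_lit 0x100200500600c00f400a00c03841f700))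 (.one (nat_lit 0x100300500600c00f600a00c03841f700)))) (.br (Nat.shiftLeft (nat_lit 0x1) (nat_lit 125)) (.one (nat_lit 0x100400500600c00f800a00c03841e760)) (.br (Nat.shiftLeft (nat_lit 0x1001) (nat_lit 113)) (.one (nat_lit 0x200000500600c00f000a00c05881e511)) (.one (nat_lit 0x200300500600c00f600a00c05881f700))))))
def t6 : k6.all (jb2 57 fl b0) = true := by decide +kernel
noncomputable def k7 : KT := (.br (Nat.shiftLeft (nat_lit 0x3) (nat_lit 124)) (.one (nat_lit 0x200400500600c00f800a00c05881e760)) (.one (nat_lit 0x300000500600c00f000a00c078c1e511)))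
def t7 : k7.all (jb2 57 fl b0) = true := by decide +kernel
noncomputable def k8 : KT := (.br (Nat.shiftLeft (nat_lit 0x1) (nat_lit 126)) (.one (nat_lit 0x300400500600c00f800a00c078c1e760)) (.one (nat_lit 0x400000500600c00f000a00c09901e511)))
def t8 : k8.all (jb2 57 fl b0) = true := by decide +kernel
noncomputable def k9 : KT := (.br (Nat.shiftLeft (nat_lit 0x3) (nat_lit 125)) (.one (nat_lit 0x500000500600c00f000a00c0b941e511)) (.br (Nat.shiftLeft (nat_lit 0x7) (nat_lit 124)) (.one (nat_lit 0x600000500600c00f000a00c0d981e511)) (.one (nat_lit 0x700000500600c00f000a00c0f9c1e511))))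
def t9 : k9.all (jb2 57 fl b0) = true := by decide +kernel
noncomputable def k10 : KT := (.br (Nat.shiftLeft (nat_lit 0x9) (nat_lit 124)) (.one (nat_lit 0x800000500600c00f000a00c11a01e511)) (.br (Nat.shiftLeft (nat_lit 0x5) (nat_lit 125)) (.one (nat_lit 0x900000500600c00f000a00c13a41e511)) (.one (nat_lit 0xa00000500600c00f000a00c15a81e511))))
noncomputable def b11 : BT := .node (nat_lit 0xb) (nat_lit 0xdb225f24e000329e000ab781db249c13a8003a98000ab7c1001b0001b0001b0001b0001b0001b000150001500015000150000f0000f0) .leaf .leaf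
def t10 : k10.all (jb2 57 fl b11) = true := by decide +kernel
noncomputable def k11 : KT := (.br (Nat.shiftLeft (nat_lit 0x1000001) (nat_lit 113)) (.br (Nat.shiftLeft (nat_lit 0x1000003) (nat_lit 112)) (.br (Nat.shiftLeft (nat_lit 0x1) (nat_lit 136)) (.br (Nat.shiftLeft (nat_lit 0x3) (nat_lit 126)) (.one (nat_lit 0xb00000500600c00f000a00c17ac1e511)) (.one (nat_lit 0xc00000500600c00f000a00c19b01e511))) (.br (Nat.shiftLeft (nat_lit 0x800001) (nat_lit 113)) (.one (nat_lit 0x100000100500600c00f200a02c41801e611)) (.one (nat_lit 0x100000200500600c00f400a02c41801e611)))) (.br (Nat.shiftLeft (nat_lit 0x801) (nat_lit 125)) (.br (Nat.shiftLeft (nat_lit 0x400001) (nat_lit 114)) (.one (nat_lit 0x100000300500600c00f600a02c41801e611)) (.one (nat_lit 0x100000400500600c00f800a02c41801e611))) (.br (Nat.shiftLeft (nat_lit 0x1) (nat_lit 137)) (.one (nat_lit 0x100200300500600c00f600a02c45881e870)) (.one (nat_lit 0x200000100500600c00f200a04c81801e611))))) (.br (Nat.shiftLeft (nat_lit 0x1800001) (nat_lit 113)) (.br (Nat.shiftLeft (nat_lit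 0x800001) (nat_lit 114)) (.br (Nat.shiftLeft (nat_lit 0x2000003) (nat_lit 112)) (.one (nat_lit 0x200000200500600c00f400a04c81801e611)) (.one (nat_lit 0x200000300500600c00f600a04c81801e611))) (.br (Nat.shiftLeft (nat_lit 0x3) (nat_lit 136)) (.one (nat_lit 0x200000400500600c00f800a04c81801e611)) (.one (nat_lit 0x300000100500600c00f200a06cc1801e611)))) (.br (Nat.shiftLeft (nat_lit 0xc00001) (nat_lit 114)) (.br (Nat.shiftLeft (nat_lit 0x3000003) (nat_lit 112)) (.one (nat_lit 0x300000200500600c00f400a06cc1801e611)) (.one (nat_lit 0x300000300500600c00f600a06cc1801e611))) (.br (Nat.shiftLeft (nat_lit 0x1) (nat_lit 138)) (.one (nat_lit 0x300000400500600c00f800a06cc1801e611)) (.one (nat_lit 0x400000100500600c00f200a08d01801e611))))))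
def t11 : k11.all (jb2 57 fl b0) = true := by decide +kernel
noncomputable def k12 : KT := (.br (Nat.shiftLeft (nat_lit 0x1000001) (nat_lit 114)) (.br (Nat.shiftLeft (nat_lit 0x4000003) (nat_lit 112)) (.one (nat_lit 0x400000200500600c00f400a08d01801e611)) (.one (nat_lit 0x400000300500600c00f600a08d01801e611))) (.br (Nat.shiftLeft (nat_lit 0x5) (nat_lit 136)) (.one (nat_lit 0x400000400500600c00f800a08d01801e611)) (.br (Nat.shiftLeft (nat_lit 0x2800001) (nat_lit 113)) (.one (nat_lit 0x500000100500600c00f200a0ad41801e611)) (.one (nat_lit 0x500000200500600c00f400a0ad41801e611)))))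
def t12 : k12.all (jb2 57 fl b0) = true := by decide +kernel
noncomputable def k13 : KT := (.br (Nat.shiftLeft (nat_lit 0x1400001) (nat_lit 114)) (.one (nat_lit 0x500000300500600c00f600a0ad41801e611)) (.br (Nat.shiftLeft (nat_lit 0x3) (nat_lit 137)) (.one (nat_lit 0x500000400500600c00f800a0ad41801e611)) (.one (nat_lit 0x600000100500600c00f200a0cd81801e611))))
def t13 : k13.all (jb2 57 fl b0) = true := by decide +kernel
noncomputable def k14 : KT := (.br (Nat.shiftLeft (nat_lit 0x6000003) (nat_lit 112)) (.one (nat_lit 0x600000200500600c00f400a0cd81801e611)) (.br (Nat.shiftLeft (nat_lit 0x1800001) (nat_lit 114)) (.one (nat_lit 0x600000300500600c00f600a0cd81801e611)) (.one (nat_lit 0x600000400500600c00f800a0cd81801e611))))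
def t14 : k14.all (jb2 57 fl b0) = true := by decide +kernel
noncomputable def k15 : KT := (.br (Nat.shiftLeft (nat_lit 0x3800001) (nat_lit 113)) (.one (nat_lit 0x700000100500600c00f200a0edc1801e611)) (.one (nat_lit 0x700000200500600c00f400a0edc1801e611)))
def t15 : k15.all (jb2 57 fl b0) = true := by decide +kernel
noncomputable def k16 : KT := (.br (Nat.shiftLeft (nat_lit 0x1c00001) (nat_lit 114)) (.one (nat_lit 0x700000300500600c00f600a0edc1801e611)) (.br (Nat.shiftLeft (nat_lit 0x1) (nat_lit 139)) (.one (nat_lit 0x700000400500600c00f800a0edc1801e611)) (.one (nat_lit 0x800000100500600c00f200a10e01801e611))))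
def t16 : k16.all (jb2 57 fl b0) = true := by decide +kernel
noncomputable def k17 : KT := (.br (Nat.shiftLeft (nat_lit 0x2000001) (nat_lit 114)) (.br (Nat.shiftLeft (nat_lit 0x8000003) (nat_lit 112)) (.one (nat_lit 0x800000200500600c00f400a10e01801e611)) (.one (nat_lit 0x800000300500600c00f600a10e01801e611))) (.br (Nat.shiftLeft (nat_lit 0x9) (nat_lit 136)) (.one (nat_lit 0x800000400500600c00f800a10e01801e611)) (.one (nat_lit 0x900000100500600c00f200a12e41801e611))))
def t17 : k17.all (jb2 57 fl b0) = true := by decide +kernel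
noncomputable def k18 : KT := (.br (Nat.shiftLeft (nat_lit 0xa000003) (nat_lit 112)) (.br (Nat.shiftLeft (nat_lit 0x2400001) (nat_lit 114)) (.br (Nat.shiftLeft (nat_lit 0x9000003) (nat_lit 112)) (.one (nat_lit 0x900000200500600c00f400a12e41801e611)) (.one (nat_lit 0x900000300500600c00f600a12e41801e611))) (.br (Nat.shiftLeft (nat_lit 0x5) (nat_lit 137)) (.one (nat_lit 0x900000400500600c00f800a12e41801e611)) (.br (Nat.shiftLeft (nat_lit 0x5000001) (nat_lit 113)) (.one (nat_lit 0xa00000100500600c00f200a14e81801e611)) (.one (nat_lit 0xa00000200500600c00f400a14e81801e611))))) (.br (Nat.shiftLeft (nat_lit 0xb) (nat_lit 136)) (.br (Nat.shiftLeft (nat_lit 0x2800001) (nat_lit 114)) (.one (nat_lit 0xa00000300500600c00f600a14e81801e611)) (.one (nat_lit 0xa00000400500600c00f800a14e81801e611))) (.br (Nat.shiftLeft (nat_lit 0x5800001) (nat_lit 113)) (.one (nat_lit 0xb00000100500600c00f200a16ec1801e611)) (.br (Nat.shiftLeft (nat_lit 0xb000003) (nat_lit 112)) (.one (nat_lit 0xb00000200500600c00f400a16ec1801e611)) (.one (nat_lit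 0xb00000300500600c00f600a16ec1801e611))))))
def t18 : k18.all (jb2 57 fl b0) = true := by decide +kernel
noncomputable def k19 : KT := (.br (Nat.shiftLeft (nat_lit 0x2000001003) (nat_lit 112)) (.br (Nat.shiftLeft (nat_lit 0x3000001) (nat_lit 114)) (.br (Nat.shiftLeft (nat_lit 0x6000001) (nat_lit 113)) (.br (Nat.shiftLeft (nat_lit 0x3) (nat_lit 138)) (.one (nat_lit 0xb00000400500600c00f800a16ec1801e611)) (.one (nat_lit 0xc00000100500600c00f200a18f01801e611))) (.br (Nat.shiftLeft (nat_lit 0xc000003) (nat_lit 112)) (.one (nat_lit 0xc00000200500600c00f400a18f01801e611)) (.one (nat_lit 0xc00000300500600c00f600a18f01801e611)))) (.br (Nat.shiftLeft (nat_lit 0x1000001003) (nat_lit 112)) (.br (Nat.shiftLeft (nat_lit 0x1) (nat_lit 148)) (.one (nat_lit 0xc00000400500600c00f800a18f01801e611)) (.one (nat_lit 0x100000100200500600c00f402a40c03841e711))) (.br (Nat.shiftLeft (nat_lit 0x800001) (nat_lit 125)) (.one (nat_lit 0x100000100300500600c00f602a40c03841e711)) (.br (Nat.shiftLeft (nat_lit 0x1) (nat_lit 149)) (.one (nat_lit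 0x100000200300500600c00f602a40c05881e711)) (.one (nat_lit 0x200000100200500600c00f404a80c03841e711)))))) (.br (Nat.shiftLeft (nat_lit 0x1800001) (nat_lit 125)) (.br (Nat.shiftLeft (nat_lit 0x3) (nat_lit 148)) (.br (Nat.shiftLeft (nat_lit 0x1000001) (nat_lit 125)) (.one (nat_lit 0x200000100300500600c00f604a80c03841e711)) (.one (nat_lit 0x200000200300500600c00f604a80c05881e711))) (.br (Nat.shiftLeft (nat_lit 0x3000001003) (nat_lit 112)) (.one (nat_lit 0x300000100200500600c00f406ac0c03841e711)) (.one (nat_lit 0x300000100300500600c00f606ac0c03841e711)))) (.br (Nat.shiftLeft (nat_lit 0x4000001003) (nat_lit 112)) (.br (Nat.shiftLeft (nat_lit 0x1) (nat_lit 150)) (.one (nat_lit 0x300000200300500600c00f606ac0c05881e711)) (.one (nat_lit 0x400000100200500600c00f408b00c03841e711))) (.br (Nat.shiftLeft (nat_lit 0x2000001) (nat_lit 125)) (.one (nat_lit 0x400000100300500600c00f608b00c03841e711)) (.br (Nat.shiftLeft (nat_lit 0x5) (nat_lit 148)) (.one (nat_lit 0x400000200300500600c00f608b00c05881e711)) (.one (nat_lit 0x500000100200500600c00f40ab40c03841e711)))))))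
def t19 : k19.all (jb2 57 fl b0) = true := by decide +kernel
noncomputable def k20 : KT := (.br (Nat.shiftLeft (nat_lit 0x3) (nat_lit 149)) (.br (Nat.shiftLeft (nat_lit 0x2800001) (nat_lit 125)) (.one (nat_lit 0x500000100300500600c00f60ab40c03841e711)) (.one (nat_lit 0x500000200300500600c00f60ab40c05881e711))) (.br (Nat.shiftLeft (nat_lit 0x6000001003) (nat_lit 112)) (.one (nat_lit 0x600000100200500600c00f40cb80c03841e711)) (.one (nat_lit 0x600000100300500600c00f60cb80c03841e711))))
def t20 : k20.all (jb2 57 fl b0) = true := by decide +kernel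
noncomputable def k21 : KT := (.br (Nat.shiftLeft (nat_lit 0x7000001003) (nat_lit 112)) (.br (Nat.shiftLeft (nat_lit 0x7) (nat_lit 148)) (.one (nat_lit 0x600000200300500600c00f60cb80c05881e711)) (.one (nat_lit 0x700000100200500600c00f40ebc0c03841e711))) (.br (Nat.shiftLeft (nat_lit 0x3800001) (nat_lit 125)) (.one (nat_lit 0x700000100300500600c00f60ebc0c03841e711)) (.br (Nat.shiftLeft (nat_lit 0x1) (nat_lit 151)) (.one (nat_lit 0x700000200300500600c00f60ebc0c05881e711)) (.one (nat_lit 0x800000100200500600c00f410c00c03841e711)))))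
def t21 : k21.all (jb2 57 fl b0) = true := by decide +kernel
noncomputable def k22 : KT := (.br (Nat.shiftLeft (nat_lit 0x5000001) (nat_lit 125)) (.br (Nat.shiftLeft (nat_lit 0x9000001003) (nat_lit 112)) (.br (Nat.shiftLeft (nat_lit 0x4000001) (nat_lit 125)) (.one (nat_lit 0x800000100300500600c00f610c00c03841e711)) (.br (Nat.shiftLeft (nat_lit 0x9) (nat_lit 148)) (.one (nat_lit 0x800000200300500600c00f610c00c05881e711)) (.one (nat_lit 0x900000100200500600c00f412c40c03841e711)))) (.br (Nat.shiftLeft (nat_lit 0x5) (nat_lit 149)) (.br (Nat.shiftLeft (nat_lit 0x4800001) (nat_lit 125)) (.one (nat_lit 0x900000100300500600c00f612c40c03841e711)) (.one (nat_lit 0x900000200300500600c00f612c40c05881e711))) (.br (Nat.shiftLeft (nat_lit 0xa000001003) (nat_lit 112)) (.one (nat_lit 0xa00000100200500600c00f414c80c03841e711)) (.one (nat_lit 0xa00000100300500600c00f614c80c03841e711))))) (.br (Nat.shiftLeft (nat_lit 0x5800001) (nat_lit 125)) (.br (Nat.shiftLeft (nat_lit 0xb) (nat_lit 148)) (.one (nat_lit 0xa00000200300500600c00f614c80c05881e711))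 (.br (Nat.shiftLeft (nat_lit 0xb000001003) (nat_lit 112)) (.one (nat_lit 0xb00000100200500600c00f416cc0c03841e711)) (.one (nat_lit 0xb00000100300500600c00f616cc0c03841e711)))) (.br (Nat.shiftLeft (nat_lit 0xc000001003) (nat_lit 112)) (.br (Nat.shiftLeft (nat_lit 0x3) (nat_lit 150)) (.one (nat_lit 0xb00000200300500600c00f616cc0c05881e711)) (.one (nat_lit 0xc00000100200500600c00f418d00c03841e711))) (.br (Nat.shiftLeft (nat_lit 0x6000001) (nat_lit 125)) (.one (nat_lit 0xc00000100300500600c00f618d00c03841e711)) (.one (nat_lit 0xc00000200300500600c00f618d00c05881e711))))))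
def t22 : k22.all (jb2 57 fl b0) = true := by decide +kernel
noncomputable def s1 : KT := (.br (nat_lit 0x600000100500600c00f200a0cd81801e611) (.br (nat_lit 0x700000500600c00f000a00c0f9c1e511) (.br (nat_lit 0x300000500600c00f000a00c078c1e511) (.br (nat_lit 0x200300500600c00f600a00c05881f700) k6 k7) (.br (nat_lit 0x400000500600c00f000a00c09901e511) k8 k9)) (.br (nat_lit 0x400000100500600c00f200a08d01801e611) (.br (nat_lit 0xa00000500600c00f000a00c15a81e511) k10 k11) (.br (nat_lit 0x500000200500600c00f400a0ad41801e611) k12 k13))) (.br (nat_lit 0x900000100500600c00f200a12e41801e611) (.br (nat_lit 0x700000200500600c00f400a0edc1801e611) (.br (nat_lit 0x600000400500600c00f800a0cd81801e611) k14 k15) (.br (nat_lit 0x800000100500600c00f200a10e01801e611) k16 k17)) (.br (nat_lit 0x500000100200500600c00f40ab40c03841e711) (.br (nat_lit 0xb00000300500600c00f600a16ec1801e611) k18 k19) (.br (nat_lit 0x600000100300500600c00f60cb80c03841e711) k20 (.br (nat_lit 0x800000100200500600c00f410c00c03841e711) k21 k22)))))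
noncomputable def u1 : KT := (.one (nat_lit 0x500600c00f000a00c01801e540))
def w1 : u1.all (wj 57 s1) = true := by decide +kernel
def o1 : OkW 57 (jb2 57 fl) u1 := .lift s1 _ (.br _ _ _ (.br _ _ _ (.br _ _ _ (.br _ _ _ (.leaf b0 k6 t6) (.leaf b0 k7 t7)) (.br _ _ _ (.leaf b0 k8 t8) (.leaf b0 k9 t9))) (.br _ _ _ (.br _ _ _ (.leaf b11 k10 t10) (.leaf b0 k11 t11)) (.br _ _ _ (.leaf b0 k12 t12) (.leaf b0 k13 t13)))) (.br _ _ _ (.br _ _ _ (.br _ _ _ (.leaf b0 k14 t14) (.leaf b0 k15 t15)) (.br _ _ _ (.leaf b0 k16 t16) (.leaf b0 k17 t17))) (.br _ _ _ (.br _ _ _ (.leaf b0 k18 t18) (.leaf b0 k19 t19)) (.br _ _ _ (.leaf b0 k20 t20) (.br _ _ _ (.leaf b0 k21 t21) (.leaf b0 k22 t22)))))) w1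
noncomputable def k23 : KT := (.br (Nat.shiftLeft (nat_lit 0x300500600c011) (nat_lit 64)) (.br (Nat.shiftLeft (nat_lit 0x100500600c011) (nat_lit 64)) (.br (Nat.shiftLeft (nat_lit 0x500600c011) (nat_lit 64)) (.one (nat_lit 0x500600c010000a00c018021500)) (.br (Nat.shiftLeft (nat_lit 0x1) (nat_lit 112)) (.one (nat_lit 0x500600c011000a00c018023500)) (.one (nat_lit 0x100500600c010200a00c018021600)))) (.br (Nat.shiftLeft (nat_lit 0x200500600c011) (nat_lit 64)) (.br (Nat.shiftLeft (nat_lit 0x1) (nat_lit 113)) (.one (nat_lit 0x100500600c011200a00c018023600)) (.one (nat_lit 0x200500600c010400a00c018021600))) (.br (Nat.shiftLeft (nat_lit 0x3) (nat_lit 112)) (.one (nat_lit 0x200500600c011400a00c018023600)) (.one (nat_lit 0x300500600c010600a00c018021600))))) (.br (Nat.shiftLeft (nat_lit 0x1) (nat_lit 124)) (.br (Nat.shiftLeft (nat_lit 0x1) (nat_lit 114)) (.one (nat_lit 0x300500600c011600a00c018023600)) (.br (Nat.shiftLeft (nat_lit 0x400500600c011) (nat_lit 64)) (.one (nat_lit 0x400500600c010800a00c018021600)) (.one (nat_lit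 0x400500600c011800a00c018023600)))) (.br (Nat.shiftLeft (nat_lit 0x801) (nat_lit 113)) (.br (Nat.shiftLeft (nat_lit 0x100000500600c011) (nat_lit 64)) (.one (nat_lit 0x100000500600c010000a00c038420511)) (.one (nat_lit 0x100000500600c011000a00c038422511))) (.br (Nat.shiftLeft (nat_lit 0x100200500600c011) (nat_lit 64)) (.one (nat_lit 0x100200500600c010400a00c038421700)) (.one (nat_lit 0x100200500600c011400a00c038422760))))))
def t23 : k23.all (jb2 57 fl b0) = true := by decide +kernel
noncomputable def k24 : KT := (.one (nat_lit 0x100300500600c010600a00c038420760))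
def t24 : k24.all (jb2 57 fl b0) = true := by decide +kernel
noncomputable def k25 : KT := (.br (Nat.shiftLeft (nat_lit 0x401) (nat_lit 114)) (.one (nat_lit 0x100300500600c011600a00c038422760)) (.one (nat_lit 0x100400500600c010800a00c038420760)))
def t25 : k25.all (jb2 57 fl b0) = true := by decide +kernel
noncomputable def k26 : KT := (.br (Nat.shiftLeft (nat_lit 0x1) (nat_lit 125)) (.one (nat_lit 0x100400500600c011800a00c038422760)) (.br (Nat.shiftLeft (nat_lit 0x200000500600c011) (nat_lit 64)) (.one (nat_lit 0x200000500600c010000a00c058820511)) (.one (nat_lit 0x200000500600c011000a00c058822511))))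
def t26 : k26.all (jb2 57 fl b0) = true := by decide +kernel
noncomputable def k27 : KT := (.one (nat_lit 0x200300500600c010600a00c058820760))
def t27 : k27.all (jb2 57 fl b0) = true := by decide +kernel
noncomputable def k28 : KT := (.one (nat_lit 0x200300500600c011600a00c058822760))
def t28 : k28.all (jb2 57 fl b0) = true := by decide +kernel
noncomputable def k29 : KT := (.br (Nat.shiftLeft (nat_lit 0x3) (nat_lit 124)) (.br (Nat.shiftLeft (nat_lit 0x200400500600c011) (nat_lit 64)) (.one (nat_lit 0x200400500600c010800a00c058820760)) (.one (nat_lit 0x200400500600c011800a00c058822760))) (.br (Nat.shiftLeft (nat_lit 0x300000500600c011) (nat_lit 64)) (.one (nat_lit 0x300000500600c010000a00c078c20511)) (.one (nat_lit 0x300000500600c011000a00c078c22511))))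
def t29 : k29.all (jb2 57 fl b0) = true := by decide +kernel
noncomputable def k30 : KT := (.br (Nat.shiftLeft (nat_lit 0x300400500600c011) (nat_lit 64)) (.one (nat_lit 0x300400500600c010800a00c078c20760)) (.one (nat_lit 0x300400500600c011800a00c078c22760)))
def t30 : k30.all (jb2 57 fl b0) = true := by decide +kernel
noncomputable def k31 : KT := (.br (Nat.shiftLeft (nat_lit 0x5) (nat_lit 124)) (.br (Nat.shiftLeft (nat_lit 0x400000500600c011) (nat_lit 64)) (.one (nat_lit 0x400000500600c010000a00c099020511)) (.one (nat_lit 0x400000500600c011000a00c099022511))) (.br (Nat.shiftLeft (nat_lit 0x500000500600c011) (nat_lit 64)) (.one (nat_lit 0x500000500600c010000a00c0b9420511)) (.br (Nat.shiftLeft (nat_lit 0x3) (nat_lit 125)) (.one (nat_lit 0x500000500600c011000a00c0b9422511)) (.one (nat_lit 0x600000500600c010000a00c0d9820511)))))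
def t31 : k31.all (jb2 57 fl b0) = true := by decide +kernel
noncomputable def k32 : KT := (.br (Nat.shiftLeft (nat_lit 0x7) (nat_lit 124)) (.one (nat_lit 0x600000500600c011000a00c0d9822511)) (.br (Nat.shiftLeft (nat_lit 0x700000500600c011) (nat_lit 64)) (.one (nat_lit 0x700000500600c010000a00c0f9c20511)) (.one (nat_lit 0x700000500600c011000a00c0f9c22511))))
def t32 : k32.all (jb2 57 fl b0) = true := by decide +kernel
noncomputable def k33 : KT := (.br (Nat.shiftLeft (nat_lit 0x9) (nat_lit 124)) (.br (Nat.shiftLeft (nat_lit 0x800000500600c011) (nat_lit 64)) (.one (nat_lit 0x800000500600c010000a00c11a020511)) (.one (nat_lit 0x800000500600c011000a00c11a022511))) (.br (Nat.shiftLeft (nat_lit 0x900000500600c011) (nat_lit 64)) (.one (nat_lit 0x900000500600c010000a00c13a420511)) (.br (Nat.shiftLeft (nat_lit 0x5) (nat_lit 125)) (.one (nat_lit 0x900000500600c011000a00c13a422511)) (.one (nat_lit 0xa00000500600c010000a00c15a820511)))))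
noncomputable def b34 : BT := .node (nat_lit 0x1) (nat_lit 0x4b212f926e96328a950c00329e000ca70003a5b000ad5c2000e300028) .leaf .leaf
def t33 : k33.all (jb2 57 fl b34) = true := by decide +kernel
noncomputable def k34 : KT := (.br (Nat.shiftLeft (nat_lit 0x200000200500600c011) (nat_lit 64)) (.br (Nat.shiftLeft (nat_lit 0x100000200500600c011) (nat_lit 64)) (.br (Nat.shiftLeft (nat_lit 0xc00000500600c011) (nat_lit 64)) (.br (Nat.shiftLeft (nat_lit 0xb00000500600c011) (nat_lit 64)) (.br (Nat.shiftLeft (nat_lit 0xb) (nat_lit 124)) (.one (nat_lit 0xa00000500600c011000a00c15a822511)) (.one (nat_lit 0xb00000500600c010000a00c17ac20511))) (.br (Nat.shiftLeft (nat_lit 0x3) (nat_lit 126)) (.one (nat_lit 0xb00000500600c011000a00c17ac22511)) (.one (nat_lit 0xc00000500600c010000a00c19b020511)))) (.br (Nat.shiftLeft (nat_lit 0x100000100500600c011) (nat_lit 64)) (.br (Nat.shiftLeft (nat_lit 0x1) (nat_lit 136)) (.one (nat_lit 0xc00000500600c011000a00c19b022511)) (.one (nat_lit 0x100000100500600c010200a02c418020611))) (.br (Nat.shiftLeft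 (nat_lit 0x800001) (nat_lit 113)) (.one (nat_lit 0x100000100500600c011200a02c418022611)) (.one (nat_lit 0x100000200500600c010400a02c418020611))))) (.br (Nat.shiftLeft (nat_lit 0x100000400500600c011) (nat_lit 64)) (.br (Nat.shiftLeft (nat_lit 0x100000300500600c011) (nat_lit 64)) (.br (Nat.shiftLeft (nat_lit 0x1000003) (nat_lit 112)) (.one (nat_lit 0x100000200500600c011400a02c418022611)) (.one (nat_lit 0x100000300500600c010600a02c418020611))) (.br (Nat.shiftLeft (nat_lit 0x400001) (nat_lit 114)) (.one (nat_lit 0x100000300500600c011600a02c418022611)) (.one (nat_lit 0x100000400500600c010800a02c418020611)))) (.br (Nat.shiftLeft (nat_lit 0x200000100500600c011) (nat_lit 64)) (.br (Nat.shiftLeft (nat_lit 0x1) (nat_lit 137)) (.one (nat_lit 0x100000400500600c011800a02c418022611)) (.one (nat_lit 0x200000100500600c010200a04c818020611))) (.br (Nat.shiftLeft (nat_lit 0x1000001) (nat_lit 113)) (.one (nat_lit 0x200000100500600c011200a04c818022611)) (.one (nat_lit 0x200000200500600c010400a04c818020611)))))) (.br (Nat.shiftLeft (nat_lit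 0x300000200500600c011) (nat_lit 64)) (.br (Nat.shiftLeft (nat_lit 0x200000400500600c011) (nat_lit 64)) (.br (Nat.shiftLeft (nat_lit 0x200000300500600c011) (nat_lit 64)) (.br (Nat.shiftLeft (nat_lit 0x2000003) (nat_lit 112)) (.one (nat_lit 0x200000200500600c011400a04c818022611)) (.one (nat_lit 0x200000300500600c010600a04c818020611))) (.br (Nat.shiftLeft (nat_lit 0x800001) (nat_lit 114)) (.one (nat_lit 0x200000300500600c011600a04c818022611)) (.one (nat_lit 0x200000400500600c010800a04c818020611)))) (.br (Nat.shiftLeft (nat_lit 0x300000100500600c011) (nat_lit 64)) (.br (Nat.shiftLeft (nat_lit 0x3) (nat_lit 136)) (.one (nat_lit 0x200000400500600c011800a04c818022611)) (.one (nat_lit 0x300000100500600c010200a06cc18020611))) (.br (Nat.shiftLeft (nat_lit 0x1800001) (nat_lit 113)) (.one (nat_lit 0x300000100500600c011200a06cc18022611)) (.one (nat_lit 0x300000200500600c010400a06cc18020611))))) (.br (Nat.shiftLeft (nat_lit 0x300000400500600c011) (nat_lit 64)) (.br (Nat.shiftLeft (nat_lit 0x300000300500600c011) (nat_lit 64))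 (.br (Nat.shiftLeft (nat_lit 0x3000003) (nat_lit 112)) (.one (nat_lit 0x300000200500600c011400a06cc18022611)) (.one (nat_lit 0x300000300500600c010600a06cc18020611))) (.br (Nat.shiftLeft (nat_lit 0xc00001) (nat_lit 114)) (.one (nat_lit 0x300000300500600c011600a06cc18022611)) (.one (nat_lit 0x300000400500600c010800a06cc18020611)))) (.br (Nat.shiftLeft (nat_lit 0x400000100500600c011) (nat_lit 64)) (.br (Nat.shiftLeft (nat_lit 0x1) (nat_lit 138)) (.one (nat_lit 0x300000400500600c011800a06cc18022611)) (.one (nat_lit 0x400000100500600c010200a08d018020611))) (.br (Nat.shiftLeft (nat_lit 0x2000001) (nat_lit 113)) (.one (nat_lit 0x400000100500600c011200a08d018022611)) (.br (Nat.shiftLeft (nat_lit 0x400000200500600c011) (nat_lit 64)) (.one (nat_lit 0x400000200500600c010400a08d018020611)) (.one (nat_lit 0x400000200500600c011400a08d018022611))))))))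
def t34 : k34.all (jb2 57 fl b0) = true := by decide +kernel
noncomputable def k35 : KT := (.br (Nat.shiftLeft (nat_lit 0x400000400500600c011) (nat_lit 64)) (.br (Nat.shiftLeft (nat_lit 0x400000300500600c011) (nat_lit 64)) (.one (nat_lit 0x400000300500600c010600a08d018020611)) (.br (Nat.shiftLeft (nat_lit 0x1000001) (nat_lit 114)) (.one (nat_lit 0x400000300500600c011600a08d018022611)) (.one (nat_lit 0x400000400500600c010800a08d018020611)))) (.br (Nat.shiftLeft (nat_lit 0x5) (nat_lit 136)) (.one (nat_lit 0x400000400500600c011800a08d018022611)) (.br (Nat.shiftLeft (nat_lit 0x500000100500600c011) (nat_lit 64)) (.one (nat_lit 0x500000100500600c010200a0ad418020611)) (.one (nat_lit 0x500000100500600c011200a0ad418022611)))))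
def t35 : k35.all (jb2 57 fl b0) = true := by decide +kernel
noncomputable def k36 : KT := (.br (Nat.shiftLeft (nat_lit 0x500000300500600c011) (nat_lit 64)) (.br (Nat.shiftLeft (nat_lit 0x500000200500600c011) (nat_lit 64)) (.one (nat_lit 0x500000200500600c010400a0ad418020611)) (.br (Nat.shiftLeft (nat_lit 0x5000003) (nat_lit 112)) (.one (nat_lit 0x500000200500600c011400a0ad418022611)) (.one (nat_lit 0x500000300500600c010600a0ad418020611)))) (.br (Nat.shiftLeft (nat_lit 0x1400001) (nat_lit 114)) (.one (nat_lit 0x500000300500600c011600a0ad418022611)) (.br (Nat.shiftLeft (nat_lit 0x500000400500600c011) (nat_lit 64)) (.one (nat_lit 0x500000400500600c010800a0ad418020611)) (.one (nat_lit 0x500000400500600c011800a0ad418022611)))))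
def t36 : k36.all (jb2 57 fl b0) = true := by decide +kernel
noncomputable def k37 : KT := (.br (Nat.shiftLeft (nat_lit 0x600000100500600c011) (nat_lit 64)) (.one (nat_lit 0x600000100500600c010200a0cd818020611)) (.br (Nat.shiftLeft (nat_lit 0x3000001) (nat_lit 113)) (.one (nat_lit 0x600000100500600c011200a0cd818022611)) (.one (nat_lit 0x600000200500600c010400a0cd818020611))))
def t37 : k37.all (jb2 57 fl b0) = true := by decide +kernel
noncomputable def k38 : KT := (.br (Nat.shiftLeft (nat_lit 0x600000300500600c011) (nat_lit 64)) (.br (Nat.shiftLeft (nat_lit 0x6000003) (nat_lit 112)) (.one (nat_lit 0x600000200500600c011400a0cd818022611)) (.one (nat_lit 0x600000300500600c010600a0cd818020611))) (.br (Nat.shiftLeft (nat_lit 0x1800001) (nat_lit 114)) (.one (nat_lit 0x600000300500600c011600a0cd818022611)) (.br (Nat.shiftLeft (nat_lit 0x600000400500600c011) (nat_lit 64)) (.one (nat_lit 0x600000400500600c010800a0cd818020611)) (.one (nat_lit 0x600000400500600c011800a0cd818022611)))))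
def t38 : k38.all (jb2 57 fl b0) = true := by decide +kernel
noncomputable def k39 : KT := (.br (Nat.shiftLeft (nat_lit 0x3800001) (nat_lit 113)) (.br (Nat.shiftLeft (nat_lit 0x700000100500600c011) (nat_lit 64)) (.one (nat_lit 0x700000100500600c010200a0edc18020611)) (.one (nat_lit 0x700000100500600c011200a0edc18022611))) (.br (Nat.shiftLeft (nat_lit 0x700000200500600c011) (nat_lit 64)) (.one (nat_lit 0x700000200500600c010400a0edc18020611)) (.one (nat_lit 0x700000200500600c011400a0edc18022611))))
def t39 : k39.all (jb2 57 fl b0) = true := by decide +kernel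
noncomputable def k40 : KT := (.br (Nat.shiftLeft (nat_lit 0x700000400500600c011) (nat_lit 64)) (.br (Nat.shiftLeft (nat_lit 0x700000300500600c011) (nat_lit 64)) (.one (nat_lit 0x700000300500600c010600a0edc18020611)) (.br (Nat.shiftLeft (nat_lit 0x1c00001) (nat_lit 114)) (.one (nat_lit 0x700000300500600c011600a0edc18022611)) (.one (nat_lit 0x700000400500600c010800a0edc18020611)))) (.br (Nat.shiftLeft (nat_lit 0x1) (nat_lit 139)) (.one (nat_lit 0x700000400500600c011800a0edc18022611)) (.br (Nat.shiftLeft (nat_lit 0x800000100500600c011) (nat_lit 64)) (.one (nat_lit 0x800000100500600c010200a10e018020611)) (.one (nat_lit 0x800000100500600c011200a10e018022611)))))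
def t40 : k40.all (jb2 57 fl b0) = true := by decide +kernel
noncomputable def k41 : KT := (.br (Nat.shiftLeft (nat_lit 0x2000001) (nat_lit 114)) (.br (Nat.shiftLeft (nat_lit 0x8000003) (nat_lit 112)) (.br (Nat.shiftLeft (nat_lit 0x800000200500600c011) (nat_lit 64)) (.one (nat_lit 0x800000200500600c010400a10e018020611)) (.one (nat_lit 0x800000200500600c011400a10e018022611))) (.br (Nat.shiftLeft (nat_lit 0x800000300500600c011) (nat_lit 64)) (.one (nat_lit 0x800000300500600c010600a10e018020611)) (.one (nat_lit 0x800000300500600c011600a10e018022611)))) (.br (Nat.shiftLeft (nat_lit 0x9) (nat_lit 136)) (.br (Nat.shiftLeft (nat_lit 0x800000400500600c011) (nat_lit 64)) (.one (nat_lit 0x800000400500600c010800a10e018020611)) (.one (nat_lit 0x800000400500600c011800a10e018022611))) (.br (Nat.shiftLeft (nat_lit 0x900000100500600c011) (nat_lit 64)) (.one (nat_lit 0x900000100500600c010200a12e418020611)) (.one (nat_lit 0x900000100500600c011200a12e418022611)))))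
def t41 : k41.all (jb2 57 fl b0) = true := by decide +kernel
noncomputable def k42 : KT := (.br (Nat.shiftLeft (nat_lit 0xa00000200500600c011) (nat_lit 64)) (.br (Nat.shiftLeft (nat_lit 0x2400001) (nat_lit 114)) (.br (Nat.shiftLeft (nat_lit 0x9000003) (nat_lit 112)) (.br (Nat.shiftLeft (nat_lit 0x900000200500600c011) (nat_lit 64)) (.one (nat_lit 0x900000200500600c010400a12e418020611)) (.one (nat_lit 0x900000200500600c011400a12e418022611))) (.br (Nat.shiftLeft (nat_lit 0x900000300500600c011) (nat_lit 64)) (.one (nat_lit 0x900000300500600c010600a12e418020611)) (.one (nat_lit 0x900000300500600c011600a12e418022611)))) (.br (Nat.shiftLeft (nat_lit 0x5) (nat_lit 137)) (.br (Nat.shiftLeft (nat_lit 0x900000400500600c011) (nat_lit 64)) (.one (nat_lit 0x900000400500600c010800a12e418020611)) (.one (nat_lit 0x900000400500600c011800a12e418022611))) (.br (Nat.shiftLeft (nat_lit 0xa00000100500600c011) (nat_lit 64)) (.one (nat_lit 0xa00000100500600c010200a14e818020611)) (.br (Nat.shiftLeft (nat_lit 0x5000001) (nat_lit 113)) (.one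 (nat_lit 0xa00000100500600c011200a14e818022611)) (.one (nat_lit 0xa00000200500600c010400a14e818020611)))))) (.br (Nat.shiftLeft (nat_lit 0xa00000400500600c011) (nat_lit 64)) (.br (Nat.shiftLeft (nat_lit 0xa00000300500600c011) (nat_lit 64)) (.br (Nat.shiftLeft (nat_lit 0xa000003) (nat_lit 112)) (.one (nat_lit 0xa00000200500600c011400a14e818022611)) (.one (nat_lit 0xa00000300500600c010600a14e818020611))) (.br (Nat.shiftLeft (nat_lit 0x2800001) (nat_lit 114)) (.one (nat_lit 0xa00000300500600c011600a14e818022611)) (.one (nat_lit 0xa00000400500600c010800a14e818020611)))) (.br (Nat.shiftLeft (nat_lit 0xb00000100500600c011) (nat_lit 64)) (.br (Nat.shiftLeft (nat_lit 0xb) (nat_lit 136)) (.one (nat_lit 0xa00000400500600c011800a14e818022611)) (.one (nat_lit 0xb00000100500600c010200a16ec18020611))) (.br (Nat.shiftLeft (nat_lit 0x5800001) (nat_lit 113)) (.one (nat_lit 0xb00000100500600c011200a16ec18022611)) (.br (Nat.shiftLeft (nat_lit 0xb00000200500600c011) (nat_lit 64)) (.one (nat_lit 0xb00000200500600c010400a16ec18020611))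 (.one (nat_lit 0xb00000200500600c011400a16ec18022611)))))))
def t42 : k42.all (jb2 57 fl b0) = true := by decide +kernel
noncomputable def k43 : KT := (.br (Nat.shiftLeft (nat_lit 0xc00000300500600c011) (nat_lit 64)) (.br (Nat.shiftLeft (nat_lit 0x3) (nat_lit 138)) (.br (Nat.shiftLeft (nat_lit 0x2c00001) (nat_lit 114)) (.br (Nat.shiftLeft (nat_lit 0xb00000300500600c011) (nat_lit 64)) (.one (nat_lit 0xb00000300500600c010600a16ec18020611)) (.one (nat_lit 0xb00000300500600c011600a16ec18022611))) (.br (Nat.shiftLeft (nat_lit 0xb00000400500600c011) (nat_lit 64)) (.one (nat_lit 0xb00000400500600c010800a16ec18020611)) (.one (nat_lit 0xb00000400500600c011800a16ec18022611)))) (.br (Nat.shiftLeft (nat_lit 0x6000001) (nat_lit 113)) (.br (Nat.shiftLeft (nat_lit 0xc00000100500600c011) (nat_lit 64)) (.one (nat_lit 0xc00000100500600c010200a18f018020611)) (.one (nat_lit 0xc00000100500600c011200a18f018022611))) (.br (Nat.shiftLeft (nat_lit 0xc00000200500600c011) (nat_lit 64)) (.one (nat_lit 0xc00000200500600c010400a18f018020611))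 (.br (Nat.shiftLeft (nat_lit 0xc000003) (nat_lit 112)) (.one (nat_lit 0xc00000200500600c011400a18f018022611)) (.one (nat_lit 0xc00000300500600c010600a18f018020611)))))) (.br (Nat.shiftLeft (nat_lit 0x3) (nat_lit 148)) (.br (Nat.shiftLeft (nat_lit 0xc00000400500600c011) (nat_lit 64)) (.br (Nat.shiftLeft (nat_lit 0x3000001) (nat_lit 114)) (.one (nat_lit 0xc00000300500600c011600a18f018022611)) (.one (nat_lit 0xc00000400500600c010800a18f018020611))) (.br (Nat.shiftLeft (nat_lit 0x1) (nat_lit 148)) (.one (nat_lit 0xc00000400500600c011800a18f018022611)) (.br (Nat.shiftLeft (nat_lit 0x1) (nat_lit 149)) (.one (nat_lit 0x100000100200500600c010402a40c038420711)) (.one (nat_lit 0x200000100200500600c010404a80c038420711))))) (.br (Nat.shiftLeft (nat_lit 0x5) (nat_lit 148)) (.br (Nat.shiftLeft (nat_lit 0x1) (nat_lit 150)) (.one (nat_lit 0x300000100200500600c010406ac0c038420711)) (.one (nat_lit 0x400000100200500600c010408b00c038420711))) (.br (Nat.shiftLeft (nat_lit 0x3) (nat_lit 149)) (.one (nat_lit 0x500000100200500600c01040ab40c038420711))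 (.br (Nat.shiftLeft (nat_lit 0x7) (nat_lit 148)) (.one (nat_lit 0x600000100200500600c01040cb80c038420711)) (.one (nat_lit 0x700000100200500600c01040ebc0c038420711)))))))
def t43 : k43.all (jb2 57 fl b0) = true := by decide +kernel
noncomputable def k44 : KT := (.br (Nat.shiftLeft (nat_lit 0x5) (nat_lit 149)) (.br (Nat.shiftLeft (nat_lit 0x9) (nat_lit 148)) (.one (nat_lit 0x800000100200500600c010410c00c038420711)) (.one (nat_lit 0x900000100200500600c010412c40c038420711))) (.br (Nat.shiftLeft (nat_lit 0xb) (nat_lit 148)) (.one (nat_lit 0xa00000100200500600c010414c80c038420711)) (.br (Nat.shiftLeft (nat_lit 0x3) (nat_lit 150)) (.one (nat_lit 0xb00000100200500600c010416cc0c038420711)) (.one (nat_lit 0xc00000100200500600c010418d00c038420711)))))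
def t44 : k44.all (jb2 57 fl b0) = true := by decide +kernel
noncomputable def s2 : KT := (.br (nat_lit 0xa00000500600c010000a00c15a820511) (.br (nat_lit 0x200300500600c010600a00c058820760) (.br (nat_lit 0x100300500600c010600a00c038420760) (.br (nat_lit 0x100200500600c011400a00c038422760) k23 k24) (.br (nat_lit 0x100400500600c010800a00c038420760) k25 (.br (nat_lit 0x200000500600c011000a00c058822511) k26 k27))) (.br (nat_lit 0x300400500600c011800a00c078c22760) (.br (nat_lit 0x200300500600c011600a00c058822760) k28 (.br (nat_lit 0x300000500600c011000a00c078c22511) k29 k30)) (.br (nat_lit 0x600000500600c010000a00c0d9820511) k31 (.br (nat_lit 0x700000500600c011000a00c0f9c22511) k32 k33)))) (.br (nat_lit 0x600000400500600c011800a0cd818022611) (.br (nat_lit 0x500000100500600c011200a0ad418022611) (.br (nat_lit 0x400000200500600c011400a08d018022611) k34 k35) (.br (nat_lit 0x500000400500600c011800a0ad418022611) k36 (.br (nat_lit 0x600000200500600c010400a0cd818020611) k37 k38))) (.br (nat_lit 0x900000100500600c011200a12e418022611)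 (.br (nat_lit 0x700000200500600c011400a0edc18022611) k39 (.br (nat_lit 0x800000100500600c011200a10e018022611) k40 k41)) (.br (nat_lit 0xb00000200500600c011400a16ec18022611) k42 (.br (nat_lit 0x700000100200500600c01040ebc0c038420711) k43 k44)))))
noncomputable def u2 : KT := (.br (Nat.shiftLeft (nat_lit 0x500600c011) (nat_lit 64)) (.one (nat_lit 0x500600c010000a00c018020540)) (.one (nat_lit 0x500600c011000a00c018022540)))
def w2 : u2.all (wj 57 s2) = true := by decide +kernel
def o2 : OkW 57 (jb2 57 fl) u2 := .lift s2 _ (.br _ _ _ (.br _ _ _ (.br _ _ _ (.br _ _ _ (.leaf b0 k23 t23) (.leaf b0 k24 t24)) (.br _ _ _ (.leaf b0 k25 t25) (.br _ _ _ (.leaf b0 k26 t26) (.leaf b0 k27 t27)))) (.br _ _ _ (.br _ _ _ (.leaf b0 k28 t28) (.br _ _ _ (.leaf b0 k29 t29) (.leaf b0 k30 t30))) (.br _ _ _ (.leaf b0 k31 t31) (.br _ _ _ (.leaf b0 k32 t32) (.leaf b34 k33 t33))))) (.br _ _ _ (.br _ _ _ (.br _ _ _ (.leaf b0 k34 t34) (.leaf b0 k35 t35)) (.br _ _ _ (.leaf b0 k36 t36) (.br _ _ _ (.leaf b0 k37 t37) (.leaf b0 k38 t38)))) (.br _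 _ _ (.br _ _ _ (.leaf b0 k39 t39) (.br _ _ _ (.leaf b0 k40 t40) (.leaf b0 k41 t41))) (.br _ _ _ (.leaf b0 k42 t42) (.br _ _ _ (.leaf b0 k43 t43) (.leaf b0 k44 t44)))))) w2
noncomputable def k45 : KT := (.br (Nat.shiftLeft (nat_lit 0x3) (nat_lit 112)) (.br (Nat.shiftLeft (nat_lit 0x100500600d) (nat_lit 76)) (.br (Nat.shiftLeft (nat_lit 0x500600d) (nat_lit 76)) (.one (nat_lit 0x500600c012000a00c018025500)) (.br (Nat.shiftLeft (nat_lit 0x1) (nat_lit 112)) (.one (nat_lit 0x500600d00e000a00c01a01d500)) (.one (nat_lit 0x100500600c012200a00c018024650)))) (.br (Nat.shiftLeft (nat_lit 0x1) (nat_lit 113)) (.one (nat_lit 0x100500600d00e200a00c01a01d600)) (.br (Nat.shiftLeft (nat_lit 0x200500600d) (nat_lit 76)) (.one (nat_lit 0x200500600c012400a00c018025600)) (.one (nat_lit 0x200500600d00e400a00c01a01d600))))) (.br (Nat.shiftLeft (nat_lit 0x400500600d) (nat_lit 76)) (.br (Nat.shiftLeft (nat_lit 0x300500600d) (nat_lit 76)) (.one (nat_lit 0x300500600c012600a00c018025600)) (.br (Nat.shiftLeft (nat_lit 0x1) (nat_lit 114)) (.one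 (nat_lit 0x300500600d00e600a00c01a01d600)) (.one (nat_lit 0x400500600c012800a00c018025600)))) (.br (Nat.shiftLeft (nat_lit 0x1) (nat_lit 124)) (.one (nat_lit 0x400500600d00e800a00c01a01d600)) (.br (Nat.shiftLeft (nat_lit 0x100000500600d) (nat_lit 76)) (.one (nat_lit 0x100000500600c012000a00c038424511)) (.one (nat_lit 0x100000500600d00e000a00c03a41c511))))))
def t45 : k45.all (jb2 57 fl b0) = true := by decide +kernel
noncomputable def k46 : KT := (.br (Nat.shiftLeft (nat_lit 0x100200500600d) (nat_lit 76)) (.one (nat_lit 0x100200500600c012400a00c038424760)) (.br (Nat.shiftLeft (nat_lit 0x1003) (nat_lit 112)) (.one (nat_lit 0x100200500600d00e400a00c03a41d700)) (.one (nat_lit 0x100300500600c012600a00c038424760))))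
def t46 : k46.all (jb2 57 fl b0) = true := by decide +kernel
noncomputable def k47 : KT := (.one (nat_lit 0x100300500600d00e600a00c03a41c760))
def t47 : k47.all (jb2 57 fl b0) = true := by decide +kernel
noncomputable def k48 : KT := (.br (Nat.shiftLeft (nat_lit 0x1) (nat_lit 125)) (.br (Nat.shiftLeft (nat_lit 0x100400500600d) (nat_lit 76)) (.one (nat_lit 0x100400500600c012800a00c038424760)) (.one (nat_lit 0x100400500600d00e800a00c03a41c760))) (.br (Nat.shiftLeft (nat_lit 0x200000500600d) (nat_lit 76)) (.one (nat_lit 0x200000500600c012000a00c058824511)) (.one (nat_lit 0x200000500600d00e000a00c05a81c511))))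
def t48 : k48.all (jb2 57 fl b0) = true := by decide +kernel
noncomputable def k49 : KT := (.br (Nat.shiftLeft (nat_lit 0x200300500600d) (nat_lit 76)) (.one (nat_lit 0x200300500600c012600a00c058824760)) (.br (Nat.shiftLeft (nat_lit 0x801) (nat_lit 114)) (.one (nat_lit 0x200300500600d00e600a00c05a81d700)) (.one (nat_lit 0x200400500600c012800a00c058824760))))
def t49 : k49.all (jb2 57 fl b0) = true := by decide +kernel
noncomputable def k50 : KT := (.br (Nat.shiftLeft (nat_lit 0x3) (nat_lit 124)) (.one (nat_lit 0x200400500600d00e800a00c05a81c760)) (.br (Nat.shiftLeft (nat_lit 0x300000500600d) (nat_lit 76)) (.one (nat_lit 0x300000500600c012000a00c078c24511)) (.one (nat_lit 0x300000500600d00e000a00c07ac1c511))))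
def t50 : k50.all (jb2 57 fl b0) = true := by decide +kernel
noncomputable def k51 : KT := (.one (nat_lit 0x300400500600c012800a00c078c24760))
def t51 : k51.all (jb2 57 fl b0) = true := by decide +kernel
noncomputable def k52 : KT := (.br (Nat.shiftLeft (nat_lit 0x1) (nat_lit 126)) (.one (nat_lit 0x300400500600d00e800a00c07ac1c760)) (.br (Nat.shiftLeft (nat_lit 0x400000500600d) (nat_lit 76)) (.one (nat_lit 0x400000500600c012000a00c099024511)) (.one (nat_lit 0x400000500600d00e000a00c09b01c511))))
def t52 : k52.all (jb2 57 fl b0) = true := by decide +kernel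
noncomputable def k53 : KT := (.br (Nat.shiftLeft (nat_lit 0x3) (nat_lit 125)) (.br (Nat.shiftLeft (nat_lit 0x500000500600d) (nat_lit 76)) (.one (nat_lit 0x500000500600c012000a00c0b9424511)) (.one (nat_lit 0x500000500600d00e000a00c0bb41c511))) (.br (Nat.shiftLeft (nat_lit 0x600000500600d) (nat_lit 76)) (.one (nat_lit 0x600000500600c012000a00c0d9824511)) (.br (Nat.shiftLeft (nat_lit 0x7) (nat_lit 124)) (.one (nat_lit 0x600000500600d00e000a00c0db81c511)) (.one (nat_lit 0x700000500600c012000a00c0f9c24511)))))
def t53 : k53.all (jb2 57 fl b0) = true := by decide +kernel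
noncomputable def k54 : KT := (.br (Nat.shiftLeft (nat_lit 0x800000500600d) (nat_lit 76)) (.br (Nat.shiftLeft (nat_lit 0x1) (nat_lit 127)) (.one (nat_lit 0x700000500600d00e000a00c0fbc1c511)) (.one (nat_lit 0x800000500600c012000a00c11a024511))) (.br (Nat.shiftLeft (nat_lit 0x9) (nat_lit 124)) (.one (nat_lit 0x800000500600d00e000a00c11c01c511)) (.one (nat_lit 0x900000500600c012000a00c13a424511))))
def t54 : k54.all (jb2 57 fl b0) = true := by decide +kernel
noncomputable def k55 : KT := (.br (Nat.shiftLeft (nat_lit 0xd) (nat_lit 124)) (.br (Nat.shiftLeft (nat_lit 0xb) (nat_lit 124)) (.br (Nat.shiftLeft (nat_lit 0x5) (nat_lit 125)) (.one (nat_lit 0x900000500600d00e000a00c13c41c511)) (.br (Nat.shiftLeft (nat_lit 0xa00000500600d) (nat_lit 76)) (.one (nat_lit 0xa00000500600c012000a00c15a824511)) (.one (nat_lit 0xa00000500600d00e000a00c15c81c511)))) (.br (Nat.shiftLeft (nat_lit 0x3) (nat_lit 126)) (.br (Nat.shiftLeft (nat_lit 0xb00000500600d) (nat_lit 76)) (.one (nat_lit 0xb00000500600c012000a00c17ac24511)) (.one (nat_lit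 0xb00000500600d00e000a00c17cc1c511))) (.br (Nat.shiftLeft (nat_lit 0xc00000500600d) (nat_lit 76)) (.one (nat_lit 0xc00000500600c012000a00c19b024511)) (.one (nat_lit 0xc00000500600d00e000a00c19d01c511))))) (.br (Nat.shiftLeft (nat_lit 0x1000003) (nat_lit 112)) (.br (Nat.shiftLeft (nat_lit 0x800001) (nat_lit 113)) (.br (Nat.shiftLeft (nat_lit 0x1) (nat_lit 136)) (.one (nat_lit 0xd00000500600d00e000a00c1bd41c511)) (.one (nat_lit 0x100000100500600d00e200a02c41a01c611))) (.br (Nat.shiftLeft (nat_lit 0x100000200500600d) (nat_lit 76)) (.one (nat_lit 0x100000200500600c012400a02c418024611)) (.one (nat_lit 0x100000200500600d00e400a02c41a01c611)))) (.br (Nat.shiftLeft (nat_lit 0x400001) (nat_lit 114)) (.br (Nat.shiftLeft (nat_lit 0x100000300500600d) (nat_lit 76)) (.one (nat_lit 0x100000300500600c012600a02c418024611)) (.one (nat_lit 0x100000300500600d00e600a02c41a01c611))) (.br (Nat.shiftLeft (nat_lit 0x100000400500600d) (nat_lit 76)) (.one (nat_lit 0x100000400500600c012800a02c418024611)) (.one (nat_lit 0x100000400500600d00e800a02c41a01c611))))))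
def t55 : k55.all (jb2 57 fl b0) = true := by decide +kernel
noncomputable def k56 : KT := (.br (Nat.shiftLeft (nat_lit 0x1800001) (nat_lit 113)) (.br (Nat.shiftLeft (nat_lit 0x2000003) (nat_lit 112)) (.br (Nat.shiftLeft (nat_lit 0x1000001) (nat_lit 113)) (.br (Nat.shiftLeft (nat_lit 0x1) (nat_lit 137)) (.one (nat_lit 0x100200300500600d00e600a02c45a81c870)) (.one (nat_lit 0x200000100500600d00e200a04c81a01c611))) (.br (Nat.shiftLeft (nat_lit 0x200000200500600d) (nat_lit 76)) (.one (nat_lit 0x200000200500600c012400a04c818024611)) (.one (nat_lit 0x200000200500600d00e400a04c81a01c611)))) (.br (Nat.shiftLeft (nat_lit 0x800001) (nat_lit 114)) (.br (Nat.shiftLeft (nat_lit 0x200000300500600d) (nat_lit 76)) (.one (nat_lit 0x200000300500600c012600a04c818024611)) (.one (nat_lit 0x200000300500600d00e600a04c81a01c611))) (.br (Nat.shiftLeft (nat_lit 0x200000400500600d) (nat_lit 76)) (.one (nat_lit 0x200000400500600c012800a04c818024611)) (.br (Nat.shiftLeft (nat_lit 0x3) (nat_lit 136)) (.one (nat_lit 0x200000400500600d00e800a04c81a01c611))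 (.one (nat_lit 0x300000100500600d00e200a06cc1a01c611)))))) (.br (Nat.shiftLeft (nat_lit 0xc00001) (nat_lit 114)) (.br (Nat.shiftLeft (nat_lit 0x3000003) (nat_lit 112)) (.br (Nat.shiftLeft (nat_lit 0x300000200500600d) (nat_lit 76)) (.one (nat_lit 0x300000200500600c012400a06cc18024611)) (.one (nat_lit 0x300000200500600d00e400a06cc1a01c611))) (.br (Nat.shiftLeft (nat_lit 0x300000300500600d) (nat_lit 76)) (.one (nat_lit 0x300000300500600c012600a06cc18024611)) (.one (nat_lit 0x300000300500600d00e600a06cc1a01c611)))) (.br (Nat.shiftLeft (nat_lit 0x1) (nat_lit 138)) (.br (Nat.shiftLeft (nat_lit 0x300000400500600d) (nat_lit 76)) (.one (nat_lit 0x300000400500600c012800a06cc18024611)) (.one (nat_lit 0x300000400500600d00e800a06cc1a01c611))) (.br (Nat.shiftLeft (nat_lit 0x2000001) (nat_lit 113)) (.one (nat_lit 0x400000100500600d00e200a08d01a01c611)) (.br (Nat.shiftLeft (nat_lit 0x400000200500600d) (nat_lit 76)) (.one (nat_lit 0x400000200500600c012400a08d018024611)) (.one (nat_lit 0x400000200500600d00e400a08d01a01c611)))))))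
def t56 : k56.all (jb2 57 fl b0) = true := by decide +kernel
noncomputable def k57 : KT := (.br (Nat.shiftLeft (nat_lit 0x400000400500600d) (nat_lit 76)) (.br (Nat.shiftLeft (nat_lit 0x400000300500600d) (nat_lit 76)) (.one (nat_lit 0x400000300500600c012600a08d018024611)) (.br (Nat.shiftLeft (nat_lit 0x1000001) (nat_lit 114)) (.one (nat_lit 0x400000300500600d00e600a08d01a01c611)) (.one (nat_lit 0x400000400500600c012800a08d018024611)))) (.br (Nat.shiftLeft (nat_lit 0x5) (nat_lit 136)) (.one (nat_lit 0x400000400500600d00e800a08d01a01c611)) (.br (Nat.shiftLeft (nat_lit 0x2800001) (nat_lit 113)) (.one (nat_lit 0x500000100500600d00e200a0ad41a01c611)) (.one (nat_lit 0x500000200500600c012400a0ad418024611)))))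
def t57 : k57.all (jb2 57 fl b0) = true := by decide +kernel
noncomputable def k58 : KT := (.br (Nat.shiftLeft (nat_lit 0x500000300500600d) (nat_lit 76)) (.br (Nat.shiftLeft (nat_lit 0x5000003) (nat_lit 112)) (.one (nat_lit 0x500000200500600d00e400a0ad41a01c611)) (.one (nat_lit 0x500000300500600c012600a0ad418024611))) (.br (Nat.shiftLeft (nat_lit 0x1400001) (nat_lit 114)) (.one (nat_lit 0x500000300500600d00e600a0ad41a01c611)) (.br (Nat.shiftLeft (nat_lit 0x500000400500600d) (nat_lit 76)) (.one (nat_lit 0x500000400500600c012800a0ad418024611)) (.one (nat_lit 0x500000400500600d00e800a0ad41a01c611)))))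
def t58 : k58.all (jb2 57 fl b0) = true := by decide +kernel
noncomputable def k59 : KT := (.br (Nat.shiftLeft (nat_lit 0x3000001) (nat_lit 113)) (.one (nat_lit 0x600000100500600d00e200a0cd81a01c611)) (.br (Nat.shiftLeft (nat_lit 0x600000200500600d) (nat_lit 76)) (.one (nat_lit 0x600000200500600c012400a0cd818024611)) (.one (nat_lit 0x600000200500600d00e400a0cd81a01c611))))
def t59 : k59.all (jb2 57 fl b0) = true := by decide +kernel
noncomputable def k60 : KT := (.br (Nat.shiftLeft (nat_lit 0x1800001) (nat_lit 114)) (.br (Nat.shiftLeft (nat_lit 0x600000300500600d) (nat_lit 76)) (.one (nat_lit 0x600000300500600c012600a0cd818024611)) (.one (nat_lit 0x600000300500600d00e600a0cd81a01c611))) (.br (Nat.shiftLeft (nat_lit 0x600000400500600d) (nat_lit 76)) (.one (nat_lit 0x600000400500600c012800a0cd818024611)) (.br (Nat.shiftLeft (nat_lit 0x7) (nat_lit 136)) (.one (nat_lit 0x600000400500600d00e800a0cd81a01c611)) (.one (nat_lit 0x700000100500600d00e200a0edc1a01c611)))))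
def t60 : k60.all (jb2 57 fl b0) = true := by decide +kernel
noncomputable def k61 : KT := (.br (Nat.shiftLeft (nat_lit 0x700000300500600d) (nat_lit 76)) (.br (Nat.shiftLeft (nat_lit 0x700000200500600d) (nat_lit 76)) (.one (nat_lit 0x700000200500600c012400a0edc18024611)) (.br (Nat.shiftLeft (nat_lit 0x7000003) (nat_lit 112)) (.one (nat_lit 0x700000200500600d00e400a0edc1a01c611)) (.one (nat_lit 0x700000300500600c012600a0edc18024611)))) (.br (Nat.shiftLeft (nat_lit 0x1c00001) (nat_lit 114)) (.one (nat_lit 0x700000300500600d00e600a0edc1a01c611)) (.br (Nat.shiftLeft (nat_lit 0x700000400500600d) (nat_lit 76)) (.one (nat_lit 0x700000400500600c012800a0edc18024611)) (.one (nat_lit 0x700000400500600d00e800a0edc1a01c611)))))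
def t61 : k61.all (jb2 57 fl b0) = true := by decide +kernel
noncomputable def k62 : KT := (.br (Nat.shiftLeft (nat_lit 0x8000003) (nat_lit 112)) (.br (Nat.shiftLeft (nat_lit 0x4000001) (nat_lit 113)) (.one (nat_lit 0x800000100500600d00e200a10e01a01c611)) (.br (Nat.shiftLeft (nat_lit 0x800000200500600d) (nat_lit 76)) (.one (nat_lit 0x800000200500600c012400a10e018024611)) (.one (nat_lit 0x800000200500600d00e400a10e01a01c611)))) (.br (Nat.shiftLeft (nat_lit 0x2000001) (nat_lit 114)) (.br (Nat.shiftLeft (nat_lit 0x800000300500600d) (nat_lit 76)) (.one (nat_lit 0x800000300500600c012600a10e018024611)) (.one (nat_lit 0x800000300500600d00e600a10e01a01c611))) (.br (Nat.shiftLeft (nat_lit 0x800000400500600d) (nat_lit 76)) (.one (nat_lit 0x800000400500600c012800a10e018024611)) (.one (nat_lit 0x800000400500600d00e800a10e01a01c611)))))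
def t62 : k62.all (jb2 57 fl b0) = true := by decide +kernel
noncomputable def k63 : KT := (.br (Nat.shiftLeft (nat_lit 0x5) (nat_lit 137)) (.br (Nat.shiftLeft (nat_lit 0x9000003) (nat_lit 112)) (.br (Nat.shiftLeft (nat_lit 0x4800001) (nat_lit 113)) (.one (nat_lit 0x900000100500600d00e200a12e41a01c611)) (.br (Nat.shiftLeft (nat_lit 0x900000200500600d) (nat_lit 76)) (.one (nat_lit 0x900000200500600c012400a12e418024611)) (.one (nat_lit 0x900000200500600d00e400a12e41a01c611)))) (.br (Nat.shiftLeft (nat_lit 0x2400001) (nat_lit 114)) (.br (Nat.shiftLeft (nat_lit 0x900000300500600d) (nat_lit 76)) (.one (nat_lit 0x900000300500600c012600a12e418024611)) (.one (nat_lit 0x900000300500600d00e600a12e41a01c611))) (.br (Nat.shiftLeft (nat_lit 0x900000400500600d) (nat_lit 76)) (.one (nat_lit 0x900000400500600c012800a12e418024611)) (.one (nat_lit 0x900000400500600d00e800a12e41a01c611))))) (.br (Nat.shiftLeft (nat_lit 0xa000003) (nat_lit 112)) (.br (Nat.shiftLeft (nat_lit 0x5000001) (nat_lit 113)) (.one (nat_lit 0xa00000100500600d00e200a14e81a01c611))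 (.br (Nat.shiftLeft (nat_lit 0xa00000200500600d) (nat_lit 76)) (.one (nat_lit 0xa00000200500600c012400a14e818024611)) (.one (nat_lit 0xa00000200500600d00e400a14e81a01c611)))) (.br (Nat.shiftLeft (nat_lit 0x2800001) (nat_lit 114)) (.br (Nat.shiftLeft (nat_lit 0xa00000300500600d) (nat_lit 76)) (.one (nat_lit 0xa00000300500600c012600a14e818024611)) (.one (nat_lit 0xa00000300500600d00e600a14e81a01c611))) (.br (Nat.shiftLeft (nat_lit 0xa00000400500600d) (nat_lit 76)) (.one (nat_lit 0xa00000400500600c012800a14e818024611)) (.one (nat_lit 0xa00000400500600d00e800a14e81a01c611))))))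
def t63 : k63.all (jb2 57 fl b0) = true := by decide +kernel
noncomputable def k64 : KT := (.br (Nat.shiftLeft (nat_lit 0xc00000400500600d) (nat_lit 76)) (.br (Nat.shiftLeft (nat_lit 0xb00000400500600d) (nat_lit 76)) (.br (Nat.shiftLeft (nat_lit 0xb000003) (nat_lit 112)) (.br (Nat.shiftLeft (nat_lit 0x5800001) (nat_lit 113)) (.one (nat_lit 0xb00000100500600d00e200a16ec1a01c611)) (.br (Nat.shiftLeft (nat_lit 0xb00000200500600d) (nat_lit 76)) (.one (nat_lit 0xb00000200500600c012400a16ec18024611)) (.one (nat_lit 0xb00000200500600d00e400a16ec1a01c611)))) (.br (Nat.shiftLeft (nat_lit 0xb00000300500600d) (nat_lit 76)) (.one (nat_lit 0xb00000300500600c012600a16ec18024611)) (.br (Nat.shiftLeft (nat_lit 0x2c00001) (nat_lit 114)) (.one (nat_lit 0xb00000300500600d00e600a16ec1a01c611)) (.one (nat_lit 0xb00000400500600c012800a16ec18024611))))) (.br (Nat.shiftLeft (nat_lit 0xc00000200500600d) (nat_lit 76)) (.br (Nat.shiftLeft (nat_lit 0x3) (nat_lit 138)) (.one (nat_lit 0xb00000400500600d00e800a16ec1a01c611)) (.br (Nat.shiftLeft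 (nat_lit 0x6000001) (nat_lit 113)) (.one (nat_lit 0xc00000100500600d00e200a18f01a01c611)) (.one (nat_lit 0xc00000200500600c012400a18f018024611)))) (.br (Nat.shiftLeft (nat_lit 0xc00000300500600d) (nat_lit 76)) (.br (Nat.shiftLeft (nat_lit 0xc000003) (nat_lit 112)) (.one (nat_lit 0xc00000200500600d00e400a18f01a01c611)) (.one (nat_lit 0xc00000300500600c012600a18f018024611))) (.br (Nat.shiftLeft (nat_lit 0x3000001) (nat_lit 114)) (.one (nat_lit 0xc00000300500600d00e600a18f01a01c611)) (.one (nat_lit 0xc00000400500600c012800a18f018024611)))))) (.br (Nat.shiftLeft (nat_lit 0x1) (nat_lit 149)) (.br (Nat.shiftLeft (nat_lit 0xd000003) (nat_lit 112)) (.br (Nat.shiftLeft (nat_lit 0xd) (nat_lit 136)) (.one (nat_lit 0xc00000400500600d00e800a18f01a01c611)) (.br (Nat.shiftLeft (nat_lit 0x6800001) (nat_lit 113)) (.one (nat_lit 0xd00000100500600d00e200a1af41a01c611)) (.one (nat_lit 0xd00000200500600d00e400a1af41a01c611)))) (.br (Nat.shiftLeft (nat_lit 0x1) (nat_lit 148)) (.br (Nat.shiftLeft (nat_lit 0x3400001) (nat_lit 114)) (.one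 (nat_lit 0xd00000300500600d00e600a1af41a01c611)) (.one (nat_lit 0xd00000400500600d00e800a1af41a01c611))) (.br (Nat.shiftLeft (nat_lit 0x800001) (nat_lit 125)) (.one (nat_lit 0x100000100200500600d00e402a40c03a41c711)) (.one (nat_lit 0x100000200300500600d00e602a40c05a81c711))))) (.br (Nat.shiftLeft (nat_lit 0x1800001) (nat_lit 125)) (.br (Nat.shiftLeft (nat_lit 0x1000001) (nat_lit 125)) (.one (nat_lit 0x200000100200500600d00e404a80c03a41c711)) (.br (Nat.shiftLeft (nat_lit 0x3) (nat_lit 148)) (.one (nat_lit 0x200000200300500600d00e604a80c05a81c711)) (.one (nat_lit 0x300000100200500600d00e406ac0c03a41c711)))) (.br (Nat.shiftLeft (nat_lit 0x2000001) (nat_lit 125)) (.br (Nat.shiftLeft (nat_lit 0x1) (nat_lit 150)) (.one (nat_lit 0x300000200300500600d00e606ac0c05a81c711)) (.one (nat_lit 0x400000100200500600d00e408b00c03a41c711))) (.br (Nat.shiftLeft (nat_lit 0x5) (nat_lit 148)) (.one (nat_lit 0x400000200300500600d00e608b00c05a81c711)) (.one (nat_lit 0x500000100200500600d00e40ab40c03a41c711)))))))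
def t64 : k64.all (jb2 57 fl b0) = true := by decide +kernel
noncomputable def k65 : KT := (.br (Nat.shiftLeft (nat_lit 0x3000001) (nat_lit 125)) (.br (Nat.shiftLeft (nat_lit 0x3) (nat_lit 149)) (.one (nat_lit 0x500000200300500600d00e60ab40c05a81c711)) (.one (nat_lit 0x600000100200500600d00e40cb80c03a41c711))) (.br (Nat.shiftLeft (nat_lit 0x7) (nat_lit 148)) (.one (nat_lit 0x600000200300500600d00e60cb80c05a81c711)) (.br (Nat.shiftLeft (nat_lit 0x3800001) (nat_lit 125)) (.one (nat_lit 0x700000100200500600d00e40ebc0c03a41c711)) (.one (nat_lit 0x700000200300500600d00e60ebc0c05a81c711)))))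
def t65 : k65.all (jb2 57 fl b0) = true := by decide +kernel
noncomputable def k66 : KT := (.br (Nat.shiftLeft (nat_lit 0xb) (nat_lit 148)) (.br (Nat.shiftLeft (nat_lit 0x4800001) (nat_lit 125)) (.br (Nat.shiftLeft (nat_lit 0x4000001) (nat_lit 125)) (.one (nat_lit 0x800000100200500600d00e410c00c03a41c711)) (.br (Nat.shiftLeft (nat_lit 0x9) (nat_lit 148)) (.one (nat_lit 0x800000200300500600d00e610c00c05a81c711)) (.one (nat_lit 0x900000100200500600d00e412c40c03a41c711)))) (.br (Nat.shiftLeft (nat_lit 0x5) (nat_lit 149)) (.one (nat_lit 0x900000200300500600d00e612c40c05a81c711)) (.br (Nat.shiftLeft (nat_lit 0x5000001) (nat_lit 125)) (.one (nat_lit 0xa00000100200500600d00e414c80c03a41c711)) (.one (nat_lit 0xa00000200300500600d00e614c80c05a81c711))))) (.br (Nat.shiftLeft (nat_lit 0x6000001) (nat_lit 125)) (.br (Nat.shiftLeft (nat_lit 0x5800001) (nat_lit 125)) (.one (nat_lit 0xb00000100200500600d00e416cc0c03a41c711)) (.br (Nat.shiftLeft (nat_lit 0x3) (nat_lit 150)) (.one (nat_lit 0xb00000200300500600d00e616cc0c05a81c711))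 (.one (nat_lit 0xc00000100200500600d00e418d00c03a41c711)))) (.br (Nat.shiftLeft (nat_lit 0xd) (nat_lit 148)) (.one (nat_lit 0xc00000200300500600d00e618d00c05a81c711)) (.br (Nat.shiftLeft (nat_lit 0x6800001) (nat_lit 125)) (.one (nat_lit 0xd00000100200500600d00e41ad40c03a41c711)) (.one (nat_lit 0xd00000200300500600d00e61ad40c05a81c711))))))
def t66 : k66.all (jb2 57 fl b0) = true := by decide +kernel
noncomputable def s3 : KT := (.br (nat_lit 0x100000400500600d00e800a02c41a01c611) (.br (nat_lit 0x200400500600c012800a00c058824760) (.br (nat_lit 0x100300500600c012600a00c038424760) (.br (nat_lit 0x100000500600d00e000a00c03a41c511) k45 k46) (.br (nat_lit 0x100300500600d00e600a00c03a41c760) k47 (.br (nat_lit 0x200000500600d00e000a00c05a81c511) k48 k49))) (.br (nat_lit 0x400000500600d00e000a00c09b01c511) (.br (nat_lit 0x300000500600d00e000a00c07ac1c511) k50 (.br (nat_lit 0x300400500600c012800a00c078c24760) k51 k52)) (.br (nat_lit 0x700000500600c012000a00c0f9c24511) k53 (.br (nat_lit 0x900000500600c012000a00c13a424511)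 k54 k55)))) (.br (nat_lit 0x700000100500600d00e200a0edc1a01c611) (.br (nat_lit 0x500000200500600c012400a0ad418024611) (.br (nat_lit 0x400000200500600d00e400a08d01a01c611) k56 k57) (.br (nat_lit 0x500000400500600d00e800a0ad41a01c611) k58 (.br (nat_lit 0x600000200500600d00e400a0cd81a01c611) k59 k60))) (.br (nat_lit 0xa00000400500600d00e800a14e81a01c611) (.br (nat_lit 0x700000400500600d00e800a0edc1a01c611) k61 (.br (nat_lit 0x800000400500600d00e800a10e01a01c611) k62 k63)) (.br (nat_lit 0x500000100200500600d00e40ab40c03a41c711) k64 (.br (nat_lit 0x700000200300500600d00e60ebc0c05a81c711) k65 k66)))))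
noncomputable def u3 : KT := (.br (Nat.shiftLeft (nat_lit 0x500600d) (nat_lit 76)) (.one (nat_lit 0x500600c012000a00c018024540)) (.one (nat_lit 0x500600d00e000a00c01a01c540)))
def w3 : u3.all (wj 57 s3) = true := by decide +kernel
def o3 : OkW 57 (jb2 57 fl) u3 := .lift s3 _ (.br _ _ _ (.br _ _ _ (.br _ _ _ (.br _ _ _ (.leaf b0 k45 t45) (.leaf b0 k46 t46)) (.br _ _ _ (.leaf b0 k47 t47) (.br _ _ _ (.leaf b0 k48 t48) (.leaf b0 k49 t49)))) (.br _ _ _ (.br _ _ _ (.leaf b0 k50 t50) (.br _ _ _ (.leaf b0 k51 t51) (.leaf b0 k52 t52))) (.br _ _ _ (.leaf b0 k53 t53) (.br _ _ _ (.leaf b0 k54 t54) (.leaf b0 k55 t55))))) (.br _ _ _ (.br _ _ _ (.br _ _ _ (.leaf b0 k56 t56) (.leaf b0 k57 t57)) (.br _ _ _ (.leaf b0 k58 t58) (.br _ _ _ (.leaf b0 k59 t59) (.leaf b0 k60 t60)))) (.br _ _ _ (.br _ _ _ (.leaf b0 k61 t61) (.br _ _ _ (.leaf b0 k62 t62) (.leaf b0 k63 t63))) (.br _ _ _ (.leaf b0 k64 t64) (.br _ _ _ (.leaf b0 k65 t65) (.leaf b0 k66 t66)))))) w3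
noncomputable def k67 : KT := (.br (Nat.shiftLeft (nat_lit 0x3) (nat_lit 112)) (.br (Nat.shiftLeft (nat_lit 0x100500600d01) (nat_lit 68)) (.br (Nat.shiftLeft (nat_lit 0x500600d01) (nat_lit 68)) (.one (nat_lit 0x500600d00f000a00c01a01f500)) (.br (Nat.shiftLeft (nat_lit 0x1) (nat_lit 112)) (.one (nat_lit 0x500600d010000a00c01a021500)) (.one (nat_lit 0x100500600d00f200a00c01a01f600)))) (.br (Nat.shiftLeft (nat_lit 0x1) (nat_lit 113)) (.one (nat_lit 0x100500600d010200a00c01a021600)) (.br (Nat.shiftLeft (nat_lit 0x200500600d01) (nat_lit 68)) (.one (nat_lit 0x200500600d00f400a00c01a01f600)) (.one (nat_lit 0x200500600d010400a00c01a021600))))) (.br (Nat.shiftLeft (nat_lit 0x400500600d01) (nat_lit 68)) (.br (Nat.shiftLeft (nat_lit 0x300500600d01) (nat_lit 68)) (.one (nat_lit 0x300500600d00f600a00c01a01f600)) (.br (Nat.shiftLeft (nat_lit 0x1) (nat_lit 114)) (.one (nat_lit 0x300500600d010600a00c01a021600)) (.one (nat_lit 0x400500600d00f800a00c01a01f600)))) (.br (Nat.shiftLeft (nat_lit 0x1) (nat_lit 124)) (.one (nat_lit 0x400500600d010800a00c01a021600))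 (.br (Nat.shiftLeft (nat_lit 0x100000500600d01) (nat_lit 68)) (.one (nat_lit 0x100000500600d00f000a00c03a41e511)) (.one (nat_lit 0x100000500600d010000a00c03a420511))))))
def t67 : k67.all (jb2 57 fl b0) = true := by decide +kernel
noncomputable def k68 : KT := (.one (nat_lit 0x100200500600d00f400a00c03a41e760))
def t68 : k68.all (jb2 57 fl b0) = true := by decide +kernel
noncomputable def k69 : KT := (.one (nat_lit 0x100200500600d010400a00c03a420760))
def t69 : k69.all (jb2 57 fl b0) = true := by decide +kernel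
noncomputable def k70 : KT := (.one (nat_lit 0x100300500600d00f600a00c03a41e760))
def t70 : k70.all (jb2 57 fl b0) = true := by decide +kernel
noncomputable def k71 : KT := (.br (Nat.shiftLeft (nat_lit 0x401) (nat_lit 114)) (.one (nat_lit 0x100300500600d010600a00c03a420760)) (.one (nat_lit 0x100400500600d00f800a00c03a41e760)))
def t71 : k71.all (jb2 57 fl b0) = true := by decide +kernel
noncomputable def k72 : KT := (.br (Nat.shiftLeft (nat_lit 0x1) (nat_lit 125)) (.one (nat_lit 0x100400500600d010800a00c03a420760)) (.br (Nat.shiftLeft (nat_lit 0x200000500600d01) (nat_lit 68)) (.one (nat_lit 0x200000500600d00f000a00c05a81e511)) (.one (nat_lit 0x200000500600d010000a00c05a820511))))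
def t72 : k72.all (jb2 57 fl b0) = true := by decide +kernel
noncomputable def k73 : KT := (.one (nat_lit 0x200300500600d00f600a00c05a81e760))
def t73 : k73.all (jb2 57 fl b0) = true := by decide +kernel
noncomputable def k74 : KT := (.one (nat_lit 0x200300500600d010600a00c05a820760))
def t74 : k74.all (jb2 57 fl b0) = true := by decide +kernel
noncomputable def k75 : KT := (.br (Nat.shiftLeft (nat_lit 0x3) (nat_lit 124)) (.br (Nat.shiftLeft (nat_lit 0x200400500600d01) (nat_lit 68)) (.one (nat_lit 0x200400500600d00f800a00c05a81e760)) (.one (nat_lit 0x200400500600d010800a00c05a820760))) (.br (Nat.shiftLeft (nat_lit 0x300000500600d01) (nat_lit 68)) (.one (nat_lit 0x300000500600d00f000a00c07ac1e511)) (.one (nat_lit 0x300000500600d010000a00c07ac20511))))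
def t75 : k75.all (jb2 57 fl b0) = true := by decide +kernel
noncomputable def k76 : KT := (.br (Nat.shiftLeft (nat_lit 0x300400500600d01) (nat_lit 68)) (.one (nat_lit 0x300400500600d00f800a00c07ac1e760)) (.one (nat_lit 0x300400500600d010800a00c07ac20760)))
def t76 : k76.all (jb2 57 fl b0) = true := by decide +kernel
noncomputable def k77 : KT := (.br (Nat.shiftLeft (nat_lit 0x500000500600d01) (nat_lit 68)) (.br (Nat.shiftLeft (nat_lit 0x400000500600d01) (nat_lit 68)) (.one (nat_lit 0x400000500600d00f000a00c09b01e511)) (.br (Nat.shiftLeft (nat_lit 0x5) (nat_lit 124)) (.one (nat_lit 0x400000500600d010000a00c09b020511)) (.one (nat_lit 0x500000500600d00f000a00c0bb41e511)))) (.br (Nat.shiftLeft (nat_lit 0x3) (nat_lit 125)) (.one (nat_lit 0x500000500600d010000a00c0bb420511)) (.br (Nat.shiftLeft (nat_lit 0x600000500600d01) (nat_lit 68)) (.one (nat_lit 0x600000500600d00f000a00c0db81e511)) (.one (nat_lit 0x600000500600d010000a00c0db820511)))))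
def t77 : k77.all (jb2 57 fl b0) = true := by decide +kernel
noncomputable def k78 : KT := (.br (Nat.shiftLeft (nat_lit 0x1) (nat_lit 127)) (.br (Nat.shiftLeft (nat_lit 0x700000500600d01) (nat_lit 68)) (.one (nat_lit 0x700000500600d00f000a00c0fbc1e511)) (.one (nat_lit 0x700000500600d010000a00c0fbc20511))) (.br (Nat.shiftLeft (nat_lit 0x800000500600d01) (nat_lit 68)) (.one (nat_lit 0x800000500600d00f000a00c11c01e511)) (.one (nat_lit 0x800000500600d010000a00c11c020511))))
def t78 : k78.all (jb2 57 fl b0) = true := by decide +kernel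
noncomputable def k79 : KT := (.br (Nat.shiftLeft (nat_lit 0x100000300500600d01) (nat_lit 68)) (.br (Nat.shiftLeft (nat_lit 0xc00000500600d01) (nat_lit 68)) (.br (Nat.shiftLeft (nat_lit 0xa00000500600d01) (nat_lit 68)) (.br (Nat.shiftLeft (nat_lit 0x900000500600d01) (nat_lit 68)) (.one (nat_lit 0x900000500600d00f000a00c13c41e511)) (.br (Nat.shiftLeft (nat_lit 0x5) (nat_lit 125)) (.one (nat_lit 0x900000500600d010000a00c13c420511)) (.one (nat_lit 0xa00000500600d00f000a00c15c81e511)))) (.br (Nat.shiftLeft (nat_lit 0xb00000500600d01) (nat_lit 68)) (.br (Nat.shiftLeft (nat_lit 0xb) (nat_lit 124)) (.one (nat_lit 0xa00000500600d010000a00c15c820511)) (.one (nat_lit 0xb00000500600d00f000a00c17cc1e511))) (.br (Nat.shiftLeft (nat_lit 0x3) (nat_lit 126)) (.one (nat_lit 0xb00000500600d010000a00c17cc20511)) (.one (nat_lit 0xc00000500600d00f000a00c19d01e511))))) (.br (Nat.shiftLeft (nat_lit 0x100000100500600d01) (nat_lit 68)) (.br (Nat.shiftLeft (nat_lit 0xd00000500600d01) (nat_lit 68)) (.br (Nat.shiftLeft (nat_lit 0xd) (nat_lit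 124)) (.one (nat_lit 0xc00000500600d010000a00c19d020511)) (.one (nat_lit 0xd00000500600d00f000a00c1bd41e511))) (.br (Nat.shiftLeft (nat_lit 0x1) (nat_lit 136)) (.one (nat_lit 0xd00000500600d010000a00c1bd420511)) (.one (nat_lit 0x100000100500600d00f200a02c41a01e611)))) (.br (Nat.shiftLeft (nat_lit 0x100000200500600d01) (nat_lit 68)) (.br (Nat.shiftLeft (nat_lit 0x800001) (nat_lit 113)) (.one (nat_lit 0x100000100500600d010200a02c41a020611)) (.one (nat_lit 0x100000200500600d00f400a02c41a01e611))) (.br (Nat.shiftLeft (nat_lit 0x1000003) (nat_lit 112)) (.one (nat_lit 0x100000200500600d010400a02c41a020611)) (.one (nat_lit 0x100000300500600d00f600a02c41a01e611)))))) (.br (Nat.shiftLeft (nat_lit 0x2000003) (nat_lit 112)) (.br (Nat.shiftLeft (nat_lit 0x1) (nat_lit 137)) (.br (Nat.shiftLeft (nat_lit 0x400001) (nat_lit 114)) (.one (nat_lit 0x100000300500600d010600a02c41a020611)) (.br (Nat.shiftLeft (nat_lit 0x100000400500600d01) (nat_lit 68)) (.one (nat_lit 0x100000400500600d00f800a02c41a01e611)) (.one (nat_lit 0x100000400500600d010800a02c41a020611))))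 (.br (Nat.shiftLeft (nat_lit 0x1000001) (nat_lit 113)) (.br (Nat.shiftLeft (nat_lit 0x200000100500600d01) (nat_lit 68)) (.one (nat_lit 0x200000100500600d00f200a04c81a01e611)) (.one (nat_lit 0x200000100500600d010200a04c81a020611))) (.br (Nat.shiftLeft (nat_lit 0x200000200500600d01) (nat_lit 68)) (.one (nat_lit 0x200000200500600d00f400a04c81a01e611)) (.one (nat_lit 0x200000200500600d010400a04c81a020611))))) (.br (Nat.shiftLeft (nat_lit 0x3) (nat_lit 136)) (.br (Nat.shiftLeft (nat_lit 0x800001) (nat_lit 114)) (.br (Nat.shiftLeft (nat_lit 0x200000300500600d01) (nat_lit 68)) (.one (nat_lit 0x200000300500600d00f600a04c81a01e611)) (.one (nat_lit 0x200000300500600d010600a04c81a020611))) (.br (Nat.shiftLeft (nat_lit 0x200000400500600d01) (nat_lit 68)) (.one (nat_lit 0x200000400500600d00f800a04c81a01e611)) (.one (nat_lit 0x200000400500600d010800a04c81a020611)))) (.br (Nat.shiftLeft (nat_lit 0x1800001) (nat_lit 113)) (.br (Nat.shiftLeft (nat_lit 0x300000100500600d01) (nat_lit 68)) (.one (nat_lit 0x300000100500600d00f200a06cc1a01e611))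 (.one (nat_lit 0x300000100500600d010200a06cc1a020611))) (.br (Nat.shiftLeft (nat_lit 0x300000200500600d01) (nat_lit 68)) (.one (nat_lit 0x300000200500600d00f400a06cc1a01e611)) (.one (nat_lit 0x300000200500600d010400a06cc1a020611)))))))
def t79 : k79.all (jb2 57 fl b0) = true := by decide +kernel
noncomputable def k80 : KT := (.br (Nat.shiftLeft (nat_lit 0x2000001) (nat_lit 113)) (.br (Nat.shiftLeft (nat_lit 0x300000400500600d01) (nat_lit 68)) (.br (Nat.shiftLeft (nat_lit 0x300000300500600d01) (nat_lit 68)) (.one (nat_lit 0x300000300500600d00f600a06cc1a01e611)) (.br (Nat.shiftLeft (nat_lit 0xc00001) (nat_lit 114)) (.one (nat_lit 0x300000300500600d010600a06cc1a020611)) (.one (nat_lit 0x300000400500600d00f800a06cc1a01e611)))) (.br (Nat.shiftLeft (nat_lit 0x1) (nat_lit 138)) (.one (nat_lit 0x300000400500600d010800a06cc1a020611)) (.br (Nat.shiftLeft (nat_lit 0x400000100500600d01) (nat_lit 68)) (.one (nat_lit 0x400000100500600d00f200a08d01a01e611)) (.one (nat_lit 0x400000100500600d010200a08d01a020611))))) (.br (Nat.shiftLeft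 (nat_lit 0x400000300500600d01) (nat_lit 68)) (.br (Nat.shiftLeft (nat_lit 0x400000200500600d01) (nat_lit 68)) (.one (nat_lit 0x400000200500600d00f400a08d01a01e611)) (.br (Nat.shiftLeft (nat_lit 0x4000003) (nat_lit 112)) (.one (nat_lit 0x400000200500600d010400a08d01a020611)) (.one (nat_lit 0x400000300500600d00f600a08d01a01e611)))) (.br (Nat.shiftLeft (nat_lit 0x1000001) (nat_lit 114)) (.one (nat_lit 0x400000300500600d010600a08d01a020611)) (.br (Nat.shiftLeft (nat_lit 0x400000400500600d01) (nat_lit 68)) (.one (nat_lit 0x400000400500600d00f800a08d01a01e611)) (.one (nat_lit 0x400000400500600d010800a08d01a020611))))))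
def t80 : k80.all (jb2 57 fl b0) = true := by decide +kernel
noncomputable def k81 : KT := (.br (Nat.shiftLeft (nat_lit 0x2800001) (nat_lit 113)) (.br (Nat.shiftLeft (nat_lit 0x500000100500600d01) (nat_lit 68)) (.one (nat_lit 0x500000100500600d00f200a0ad41a01e611)) (.one (nat_lit 0x500000100500600d010200a0ad41a020611))) (.br (Nat.shiftLeft (nat_lit 0x500000200500600d01) (nat_lit 68)) (.one (nat_lit 0x500000200500600d00f400a0ad41a01e611)) (.one (nat_lit 0x500000200500600d010400a0ad41a020611))))
def t81 : k81.all (jb2 57 fl b0) = true := by decide +kernel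
noncomputable def k82 : KT := (.br (Nat.shiftLeft (nat_lit 0x1400001) (nat_lit 114)) (.br (Nat.shiftLeft (nat_lit 0x500000300500600d01) (nat_lit 68)) (.one (nat_lit 0x500000300500600d00f600a0ad41a01e611)) (.one (nat_lit 0x500000300500600d010600a0ad41a020611))) (.br (Nat.shiftLeft (nat_lit 0x500000400500600d01) (nat_lit 68)) (.one (nat_lit 0x500000400500600d00f800a0ad41a01e611)) (.br (Nat.shiftLeft (nat_lit 0x3) (nat_lit 137)) (.one (nat_lit 0x500000400500600d010800a0ad41a020611)) (.one (nat_lit 0x600000100500600d00f200a0cd81a01e611)))))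
def t82 : k82.all (jb2 57 fl b0) = true := by decide +kernel
noncomputable def k83 : KT := (.br (Nat.shiftLeft (nat_lit 0x600000200500600d01) (nat_lit 68)) (.br (Nat.shiftLeft (nat_lit 0x3000001) (nat_lit 113)) (.one (nat_lit 0x600000100500600d010200a0cd81a020611)) (.one (nat_lit 0x600000200500600d00f400a0cd81a01e611))) (.br (Nat.shiftLeft (nat_lit 0x6000003) (nat_lit 112)) (.one (nat_lit 0x600000200500600d010400a0cd81a020611)) (.one (nat_lit 0x600000300500600d00f600a0cd81a01e611))))
def t83 : k83.all (jb2 57 fl b0) = true := by decide +kernel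
noncomputable def k84 : KT := (.br (Nat.shiftLeft (nat_lit 0x600000400500600d01) (nat_lit 68)) (.br (Nat.shiftLeft (nat_lit 0x1800001) (nat_lit 114)) (.one (nat_lit 0x600000300500600d010600a0cd81a020611)) (.one (nat_lit 0x600000400500600d00f800a0cd81a01e611))) (.br (Nat.shiftLeft (nat_lit 0x7) (nat_lit 136)) (.one (nat_lit 0x600000400500600d010800a0cd81a020611)) (.br (Nat.shiftLeft (nat_lit 0x700000100500600d01) (nat_lit 68)) (.one (nat_lit 0x700000100500600d00f200a0edc1a01e611)) (.one (nat_lit 0x700000100500600d010200a0edc1a020611)))))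
def t84 : k84.all (jb2 57 fl b0) = true := by decide +kernel
noncomputable def k85 : KT := (.br (Nat.shiftLeft (nat_lit 0x700000300500600d01) (nat_lit 68)) (.br (Nat.shiftLeft (nat_lit 0x700000200500600d01) (nat_lit 68)) (.one (nat_lit 0x700000200500600d00f400a0edc1a01e611)) (.br (Nat.shiftLeft (nat_lit 0x7000003) (nat_lit 112)) (.one (nat_lit 0x700000200500600d010400a0edc1a020611)) (.one (nat_lit 0x700000300500600d00f600a0edc1a01e611)))) (.br (Nat.shiftLeft (nat_lit 0x1c00001) (nat_lit 114)) (.one (nat_lit 0x700000300500600d010600a0edc1a020611)) (.br (Nat.shiftLeft (nat_lit 0x700000400500600d01) (nat_lit 68)) (.one (nat_lit 0x700000400500600d00f800a0edc1a01e611)) (.one (nat_lit 0x700000400500600d010800a0edc1a020611)))))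
def t85 : k85.all (jb2 57 fl b0) = true := by decide +kernel
noncomputable def k86 : KT := (.br (Nat.shiftLeft (nat_lit 0x8000003) (nat_lit 112)) (.br (Nat.shiftLeft (nat_lit 0x4000001) (nat_lit 113)) (.br (Nat.shiftLeft (nat_lit 0x800000100500600d01) (nat_lit 68)) (.one (nat_lit 0x800000100500600d00f200a10e01a01e611)) (.one (nat_lit 0x800000100500600d010200a10e01a020611))) (.br (Nat.shiftLeft (nat_lit 0x800000200500600d01) (nat_lit 68)) (.one (nat_lit 0x800000200500600d00f400a10e01a01e611)) (.one (nat_lit 0x800000200500600d010400a10e01a020611)))) (.br (Nat.shiftLeft (nat_lit 0x2000001) (nat_lit 114)) (.br (Nat.shiftLeft (nat_lit 0x800000300500600d01) (nat_lit 68)) (.one (nat_lit 0x800000300500600d00f600a10e01a01e611)) (.one (nat_lit 0x800000300500600d010600a10e01a020611))) (.br (Nat.shiftLeft (nat_lit 0x800000400500600d01) (nat_lit 68)) (.one (nat_lit 0x800000400500600d00f800a10e01a01e611)) (.one (nat_lit 0x800000400500600d010800a10e01a020611)))))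
def t86 : k86.all (jb2 57 fl b0) = true := by decide +kernel
noncomputable def k87 : KT := (.br (Nat.shiftLeft (nat_lit 0x5) (nat_lit 137)) (.br (Nat.shiftLeft (nat_lit 0x9000003) (nat_lit 112)) (.br (Nat.shiftLeft (nat_lit 0x4800001) (nat_lit 113)) (.br (Nat.shiftLeft (nat_lit 0x900000100500600d01) (nat_lit 68)) (.one (nat_lit 0x900000100500600d00f200a12e41a01e611)) (.one (nat_lit 0x900000100500600d010200a12e41a020611))) (.br (Nat.shiftLeft (nat_lit 0x900000200500600d01) (nat_lit 68)) (.one (nat_lit 0x900000200500600d00f400a12e41a01e611)) (.one (nat_lit 0x900000200500600d010400a12e41a020611)))) (.br (Nat.shiftLeft (nat_lit 0x2400001) (nat_lit 114)) (.br (Nat.shiftLeft (nat_lit 0x900000300500600d01) (nat_lit 68)) (.one (nat_lit 0x900000300500600d00f600a12e41a01e611)) (.one (nat_lit 0x900000300500600d010600a12e41a020611))) (.br (Nat.shiftLeft (nat_lit 0x900000400500600d01) (nat_lit 68)) (.one (nat_lit 0x900000400500600d00f800a12e41a01e611)) (.one (nat_lit 0x900000400500600d010800a12e41a020611))))) (.br (Nat.shiftLeft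 (nat_lit 0xa000003) (nat_lit 112)) (.br (Nat.shiftLeft (nat_lit 0x5000001) (nat_lit 113)) (.br (Nat.shiftLeft (nat_lit 0xa00000100500600d01) (nat_lit 68)) (.one (nat_lit 0xa00000100500600d00f200a14e81a01e611)) (.one (nat_lit 0xa00000100500600d010200a14e81a020611))) (.br (Nat.shiftLeft (nat_lit 0xa00000200500600d01) (nat_lit 68)) (.one (nat_lit 0xa00000200500600d00f400a14e81a01e611)) (.one (nat_lit 0xa00000200500600d010400a14e81a020611)))) (.br (Nat.shiftLeft (nat_lit 0x2800001) (nat_lit 114)) (.br (Nat.shiftLeft (nat_lit 0xa00000300500600d01) (nat_lit 68)) (.one (nat_lit 0xa00000300500600d00f600a14e81a01e611)) (.one (nat_lit 0xa00000300500600d010600a14e81a020611))) (.br (Nat.shiftLeft (nat_lit 0xa00000400500600d01) (nat_lit 68)) (.one (nat_lit 0xa00000400500600d00f800a14e81a01e611)) (.one (nat_lit 0xa00000400500600d010800a14e81a020611))))))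
def t87 : k87.all (jb2 57 fl b0) = true := by decide +kernel
noncomputable def k88 : KT := (.br (Nat.shiftLeft (nat_lit 0xc000003) (nat_lit 112)) (.br (Nat.shiftLeft (nat_lit 0x2c00001) (nat_lit 114)) (.br (Nat.shiftLeft (nat_lit 0xb00000200500600d01) (nat_lit 68)) (.br (Nat.shiftLeft (nat_lit 0xb00000100500600d01) (nat_lit 68)) (.one (nat_lit 0xb00000100500600d00f200a16ec1a01e611)) (.br (Nat.shiftLeft (nat_lit 0x5800001) (nat_lit 113)) (.one (nat_lit 0xb00000100500600d010200a16ec1a020611)) (.one (nat_lit 0xb00000200500600d00f400a16ec1a01e611)))) (.br (Nat.shiftLeft (nat_lit 0xb000003) (nat_lit 112)) (.one (nat_lit 0xb00000200500600d010400a16ec1a020611)) (.br (Nat.shiftLeft (nat_lit 0xb00000300500600d01) (nat_lit 68)) (.one (nat_lit 0xb00000300500600d00f600a16ec1a01e611)) (.one (nat_lit 0xb00000300500600d010600a16ec1a020611))))) (.br (Nat.shiftLeft (nat_lit 0xc00000100500600d01) (nat_lit 68)) (.br (Nat.shiftLeft (nat_lit 0xb00000400500600d01) (nat_lit 68)) (.one (nat_lit 0xb00000400500600d00f800a16ec1a01e611)) (.br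 (Nat.shiftLeft (nat_lit 0x3) (nat_lit 138)) (.one (nat_lit 0xb00000400500600d010800a16ec1a020611)) (.one (nat_lit 0xc00000100500600d00f200a18f01a01e611)))) (.br (Nat.shiftLeft (nat_lit 0x6000001) (nat_lit 113)) (.one (nat_lit 0xc00000100500600d010200a18f01a020611)) (.br (Nat.shiftLeft (nat_lit 0xc00000200500600d01) (nat_lit 68)) (.one (nat_lit 0xc00000200500600d00f400a18f01a01e611)) (.one (nat_lit 0xc00000200500600d010400a18f01a020611)))))) (.br (Nat.shiftLeft (nat_lit 0x6800001) (nat_lit 113)) (.br (Nat.shiftLeft (nat_lit 0xc00000400500600d01) (nat_lit 68)) (.br (Nat.shiftLeft (nat_lit 0xc00000300500600d01) (nat_lit 68)) (.one (nat_lit 0xc00000300500600d00f600a18f01a01e611)) (.br (Nat.shiftLeft (nat_lit 0x3000001) (nat_lit 114)) (.one (nat_lit 0xc00000300500600d010600a18f01a020611)) (.one (nat_lit 0xc00000400500600d00f800a18f01a01e611)))) (.br (Nat.shiftLeft (nat_lit 0xd) (nat_lit 136)) (.one (nat_lit 0xc00000400500600d010800a18f01a020611)) (.br (Nat.shiftLeft (nat_lit 0xd00000100500600d01) (nat_lit 68)) (.one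 (nat_lit 0xd00000100500600d00f200a1af41a01e611)) (.one (nat_lit 0xd00000100500600d010200a1af41a020611))))) (.br (Nat.shiftLeft (nat_lit 0xd00000300500600d01) (nat_lit 68)) (.br (Nat.shiftLeft (nat_lit 0xd00000200500600d01) (nat_lit 68)) (.one (nat_lit 0xd00000200500600d00f400a1af41a01e611)) (.br (Nat.shiftLeft (nat_lit 0xd000003) (nat_lit 112)) (.one (nat_lit 0xd00000200500600d010400a1af41a020611)) (.one (nat_lit 0xd00000300500600d00f600a1af41a01e611)))) (.br (Nat.shiftLeft (nat_lit 0x3400001) (nat_lit 114)) (.one (nat_lit 0xd00000300500600d010600a1af41a020611)) (.br (Nat.shiftLeft (nat_lit 0xd00000400500600d01) (nat_lit 68)) (.one (nat_lit 0xd00000400500600d00f800a1af41a01e611)) (.one (nat_lit 0xd00000400500600d010800a1af41a020611)))))))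
def t88 : k88.all (jb2 57 fl b0) = true := by decide +kernel
noncomputable def s4 : KT := (.br (nat_lit 0x600000500600d010000a00c0db820511) (.br (nat_lit 0x100400500600d00f800a00c03a41e760) (.br (nat_lit 0x100200500600d00f400a00c03a41e760) (.br (nat_lit 0x100000500600d010000a00c03a420511) k67 k68) (.br (nat_lit 0x100200500600d010400a00c03a420760) k69 (.br (nat_lit 0x100300500600d00f600a00c03a41e760) k70 k71))) (.br (nat_lit 0x200300500600d010600a00c05a820760) (.br (nat_lit 0x200000500600d010000a00c05a820511) k72 (.br (nat_lit 0x200300500600d00f600a00c05a81e760) k73 k74)) (.br (nat_lit 0x300000500600d010000a00c07ac20511) k75 (.br (nat_lit 0x300400500600d010800a00c07ac20760) k76 k77)))) (.br (nat_lit 0x600000100500600d00f200a0cd81a01e611) (.br (nat_lit 0x300000200500600d010400a06cc1a020611) (.br (nat_lit 0x800000500600d010000a00c11c020511) k78 k79) (.br (nat_lit 0x400000400500600d010800a08d01a020611) k80 (.br (nat_lit 0x500000200500600d010400a0ad41a020611) k81 k82))) (.br (nat_lit 0x700000400500600d010800a0edc1a020611)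 (.br (nat_lit 0x600000300500600d00f600a0cd81a01e611) k83 (.br (nat_lit 0x700000100500600d010200a0edc1a020611) k84 k85)) (.br (nat_lit 0x800000400500600d010800a10e01a020611) k86 (.br (nat_lit 0xa00000400500600d010800a14e81a020611) k87 k88)))))
noncomputable def u4 : KT := (.br (Nat.shiftLeft (nat_lit 0x500600d01) (nat_lit 68)) (.one (nat_lit 0x500600d00f000a00c01a01e540)) (.one (nat_lit 0x500600d010000a00c01a020540)))
def w4 : u4.all (wj 57 s4) = true := by decide +kernel
def o4 : OkW 57 (jb2 57 fl) u4 := .lift s4 _ (.br _ _ _ (.br _ _ _ (.br _ _ _ (.br _ _ _ (.leaf b0 k67 t67) (.leaf b0 k68 t68)) (.br _ _ _ (.leaf b0 k69 t69) (.br _ _ _ (.leaf b0 k70 t70) (.leaf b0 k71 t71)))) (.br _ _ _ (.br _ _ _ (.leaf b0 k72 t72) (.br _ _ _ (.leaf b0 k73 t73) (.leaf b0 k74 t74))) (.br _ _ _ (.leaf b0 k75 t75) (.br _ _ _ (.leaf b0 k76 t76) (.leaf b0 k77 t77))))) (.br _ _ _ (.br _ _ _ (.br _ _ _ (.leaf b0 k78 t78) (.leaf b0 k79 t79)) (.br _ _ _ (.leaf b0 k80 t80) (.br _ _ _ (.leaf b0 k81 t81) (.leaf b0 k82 t82)))) (.br _ _ _ (.br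 _ _ _ (.leaf b0 k83 t83) (.br _ _ _ (.leaf b0 k84 t84) (.leaf b0 k85 t85))) (.br _ _ _ (.leaf b0 k86 t86) (.br _ _ _ (.leaf b0 k87 t87) (.leaf b0 k88 t88)))))) w4
noncomputable def k89 : KT := (.br (Nat.shiftLeft (nat_lit 0x2803804007) (nat_lit 65)) (.br (Nat.shiftLeft (nat_lit 0x500600e01) (nat_lit 68)) (.br (Nat.shiftLeft (nat_lit 0x2803007) (nat_lit 77)) (.one (nat_lit 0x500600d011000a00c01a023500)) (.one (nat_lit 0x500600e00f000a00c01c01f500))) (.br (Nat.shiftLeft (nat_lit 0x5007) (nat_lit 88)) (.one (nat_lit 0x500600e010000a00c01c021500)) (.br (Nat.shiftLeft (nat_lit 0x500700800d) (nat_lit 64)) (.one (nat_lit 0x500700800c000a00e010019500)) (.one (nat_lit 0x500700800d000a00e01001b500))))) (.br (Nat.shiftLeft (nat_lit 0x500700801) (nat_lit 68)) (.br (Nat.shiftLeft (nat_lit 0x500700800f) (nat_lit 64)) (.one (nat_lit 0x500700800e000a00e01001d500)) (.one (nat_lit 0x500700800f000a00e01001f500))) (.br (Nat.shiftLeft (nat_lit 0x1) (nat_lit 112)) (.one (nat_lit 0x5007008010000a00e010021500)) (.br (Nat.shiftLeft (nat_lit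 0x802803007) (nat_lit 77)) (.one (nat_lit 0x100500600d011200a00c01a022650)) (.one (nat_lit 0x100500600e00f200a00c01c01f600))))))
def t89 : k89.all (jb2 57 fl b0) = true := by decide +kernel
noncomputable def k90 : KT := (.br (Nat.shiftLeft (nat_lit 0x300500600e01) (nat_lit 68)) (.br (Nat.shiftLeft (nat_lit 0x200500600e01) (nat_lit 68)) (.br (Nat.shiftLeft (nat_lit 0x1) (nat_lit 113)) (.one (nat_lit 0x100500600e010200a00c01c020650)) (.br (Nat.shiftLeft (nat_lit 0x1002803007) (nat_lit 77)) (.one (nat_lit 0x200500600d011400a00c01a023600)) (.one (nat_lit 0x200500600e00f400a00c01c01f600)))) (.br (Nat.shiftLeft (nat_lit 0x3) (nat_lit 112)) (.one (nat_lit 0x200500600e010400a00c01c021600)) (.br (Nat.shiftLeft (nat_lit 0x1802803007) (nat_lit 77)) (.one (nat_lit 0x300500600d011600a00c01a023600)) (.one (nat_lit 0x300500600e00f600a00c01c01f600))))) (.br (Nat.shiftLeft (nat_lit 0x400500600e01) (nat_lit 68)) (.br (Nat.shiftLeft (nat_lit 0x1) (nat_lit 114)) (.one (nat_lit 0x300500600e010600a00c01c021600)) (.br (Nat.shiftLeft (nat_lit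 0x2002803007) (nat_lit 77)) (.one (nat_lit 0x400500600d011800a00c01a023600)) (.one (nat_lit 0x400500600e00f800a00c01c01f600)))) (.br (Nat.shiftLeft (nat_lit 0x800002803007) (nat_lit 77)) (.br (Nat.shiftLeft (nat_lit 0x1) (nat_lit 124)) (.one (nat_lit 0x400500600e010800a00c01c021600)) (.one (nat_lit 0x100000500600d011000a00c03a422511))) (.br (Nat.shiftLeft (nat_lit 0x100000500600e01) (nat_lit 68)) (.one (nat_lit 0x100000500600e00f000a00c03c41e511)) (.one (nat_lit 0x100000500600e010000a00c03c420511))))))
def t90 : k90.all (jb2 57 fl b0) = true := by decide +kernel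
noncomputable def k91 : KT := (.one (nat_lit 0x100200500600d011400a00c03a422760))
def t91 : k91.all (jb2 57 fl b0) = true := by decide +kernel
noncomputable def k92 : KT := (.one (nat_lit 0x100200500600e00f400a00c03c41e760))
def t92 : k92.all (jb2 57 fl b0) = true := by decide +kernel
noncomputable def k93 : KT := (.br (Nat.shiftLeft (nat_lit 0x1003) (nat_lit 112)) (.one (nat_lit 0x100200500600e010400a00c03c420760)) (.one (nat_lit 0x100300500600d011600a00c03a422760)))
def t93 : k93.all (jb2 57 fl b0) = true := by decide +kernel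
noncomputable def k94 : KT := (.br (Nat.shiftLeft (nat_lit 0x100300500600e01) (nat_lit 68)) (.one (nat_lit 0x100300500600e00f600a00c03c41e760)) (.one (nat_lit 0x100300500600e010600a00c03c420760)))
def t94 : k94.all (jb2 57 fl b0) = true := by decide +kernel
noncomputable def k95 : KT := (.br (Nat.shiftLeft (nat_lit 0x1) (nat_lit 125)) (.br (Nat.shiftLeft (nat_lit 0x802002803007) (nat_lit 77)) (.one (nat_lit 0x100400500600d011800a00c03a422760)) (.br (Nat.shiftLeft (nat_lit 0x100400500600e01) (nat_lit 68)) (.one (nat_lit 0x100400500600e00f800a00c03c41e760)) (.one (nat_lit 0x100400500600e010800a00c03c420760)))) (.br (Nat.shiftLeft (nat_lit 0x1000002803007) (nat_lit 77)) (.one (nat_lit 0x200000500600d011000a00c05a822511)) (.br (Nat.shiftLeft (nat_lit 0x200000500600e01) (nat_lit 68)) (.one (nat_lit 0x200000500600e00f000a00c05c81e511)) (.one (nat_lit 0x200000500600e010000a00c05c820511)))))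
def t95 : k95.all (jb2 57 fl b0) = true := by decide +kernel
noncomputable def k96 : KT := (.br (Nat.shiftLeft (nat_lit 0x1001802803007) (nat_lit 77)) (.one (nat_lit 0x200300500600d011600a00c05a822760)) (.one (nat_lit 0x200300500600e00f600a00c05c81e760)))
def t96 : k96.all (jb2 57 fl b0) = true := by decide +kernel
noncomputable def k97 : KT := (.br (Nat.shiftLeft (nat_lit 0x801) (nat_lit 114)) (.one (nat_lit 0x200300500600e010600a00c05c820760)) (.one (nat_lit 0x200400500600d011800a00c05a822760)))
def t97 : k97.all (jb2 57 fl b0) = true := by decide +kernel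
noncomputable def k98 : KT := (.br (Nat.shiftLeft (nat_lit 0x1800002803007) (nat_lit 77)) (.br (Nat.shiftLeft (nat_lit 0x200400500600e01) (nat_lit 68)) (.one (nat_lit 0x200400500600e00f800a00c05c81e760)) (.br (Nat.shiftLeft (nat_lit 0x3) (nat_lit 124)) (.one (nat_lit 0x200400500600e010800a00c05c820760)) (.one (nat_lit 0x300000500600d011000a00c07ac22511)))) (.br (Nat.shiftLeft (nat_lit 0x300000500600e01) (nat_lit 68)) (.one (nat_lit 0x300000500600e00f000a00c07cc1e511)) (.br (Nat.shiftLeft (nat_lit 0xc01) (nat_lit 114)) (.one (nat_lit 0x300000500600e010000a00c07cc20511)) (.one (nat_lit 0x300400500600d011800a00c07ac22760)))))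
def t98 : k98.all (jb2 57 fl b0) = true := by decide +kernel
noncomputable def k99 : KT := (.br (Nat.shiftLeft (nat_lit 0x1) (nat_lit 126)) (.br (Nat.shiftLeft (nat_lit 0x300400500600e01) (nat_lit 68)) (.one (nat_lit 0x300400500600e00f800a00c07cc1e760)) (.one (nat_lit 0x300400500600e010800a00c07cc20760))) (.br (Nat.shiftLeft (nat_lit 0x2000002803007) (nat_lit 77)) (.one (nat_lit 0x400000500600d011000a00c09b022511)) (.br (Nat.shiftLeft (nat_lit 0x400000500600e01) (nat_lit 68)) (.one (nat_lit 0x400000500600e00f000a00c09d01e511)) (.one (nat_lit 0x400000500600e010000a00c09d020511)))))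
def t99 : k99.all (jb2 57 fl b0) = true := by decide +kernel
noncomputable def k100 : KT := (.br (Nat.shiftLeft (nat_lit 0x3) (nat_lit 125)) (.br (Nat.shiftLeft (nat_lit 0x2800002803007) (nat_lit 77)) (.one (nat_lit 0x500000500600d011000a00c0bb422511)) (.br (Nat.shiftLeft (nat_lit 0x500000500600e01) (nat_lit 68)) (.one (nat_lit 0x500000500600e00f000a00c0bd41e511)) (.one (nat_lit 0x500000500600e010000a00c0bd420511)))) (.br (Nat.shiftLeft (nat_lit 0x3000002803007) (nat_lit 77)) (.one (nat_lit 0x600000500600d011000a00c0db822511)) (.br (Nat.shiftLeft (nat_lit 0x600000500600e01) (nat_lit 68)) (.one (nat_lit 0x600000500600e00f000a00c0dd81e511)) (.one (nat_lit 0x600000500600e010000a00c0dd820511)))))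
def t100 : k100.all (jb2 57 fl b0) = true := by decide +kernel
noncomputable def k101 : KT := (.br (Nat.shiftLeft (nat_lit 0x1) (nat_lit 127)) (.br (Nat.shiftLeft (nat_lit 0x3800002803007) (nat_lit 77)) (.one (nat_lit 0x700000500600d011000a00c0fbc22511)) (.br (Nat.shiftLeft (nat_lit 0x700000500600e01) (nat_lit 68)) (.one (nat_lit 0x700000500600e00f000a00c0fdc1e511)) (.one (nat_lit 0x700000500600e010000a00c0fdc20511)))) (.br (Nat.shiftLeft (nat_lit 0x800000500600e01) (nat_lit 68)) (.br (Nat.shiftLeft (nat_lit 0x4000002803007) (nat_lit 77)) (.one (nat_lit 0x800000500600d011000a00c11c022511)) (.one (nat_lit 0x800000500600e00f000a00c11e01e511))) (.br (Nat.shiftLeft (nat_lit 0x9) (nat_lit 124)) (.one (nat_lit 0x800000500600e010000a00c11e020511)) (.one (nat_lit 0x900000500600d011000a00c13c422511)))))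
def t101 : k101.all (jb2 57 fl b0) = true := by decide +kernel
noncomputable def k102 : KT := (.br (Nat.shiftLeft (nat_lit 0x1000003) (nat_lit 112)) (.br (Nat.shiftLeft (nat_lit 0xc00000500600e01) (nat_lit 68)) (.br (Nat.shiftLeft (nat_lit 0xb) (nat_lit 124)) (.br (Nat.shiftLeft (nat_lit 0x5) (nat_lit 125)) (.br (Nat.shiftLeft (nat_lit 0x900000500600e01) (nat_lit 68)) (.one (nat_lit 0x900000500600e00f000a00c13e41e511)) (.one (nat_lit 0x900000500600e010000a00c13e420511))) (.br (Nat.shiftLeft (nat_lit 0x5000002803007) (nat_lit 77)) (.one (nat_lit 0xa00000500600d011000a00c15c822511)) (.br (Nat.shiftLeft (nat_lit 0xa00000500600e01) (nat_lit 68)) (.one (nat_lit 0xa00000500600e00f000a00c15e81e511)) (.one (nat_lit 0xa00000500600e010000a00c15e820511))))) (.br (Nat.shiftLeft (nat_lit 0xb00000500600e01) (nat_lit 68)) (.br (Nat.shiftLeft (nat_lit 0x5800002803007) (nat_lit 77)) (.one (nat_lit 0xb00000500600d011000a00c17cc22511)) (.one (nat_lit 0xb00000500600e00f000a00c17ec1e511))) (.br (Nat.shiftLeft (nat_lit 0x3) (nat_lit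 126)) (.one (nat_lit 0xb00000500600e010000a00c17ec20511)) (.br (Nat.shiftLeft (nat_lit 0x6000002803007) (nat_lit 77)) (.one (nat_lit 0xc00000500600d011000a00c19d022511)) (.one (nat_lit 0xc00000500600e00f000a00c19f01e511)))))) (.br (Nat.shiftLeft (nat_lit 0xe00000500600e01) (nat_lit 68)) (.br (Nat.shiftLeft (nat_lit 0x6800002803007) (nat_lit 77)) (.br (Nat.shiftLeft (nat_lit 0xd) (nat_lit 124)) (.one (nat_lit 0xc00000500600e010000a00c19f020511)) (.one (nat_lit 0xd00000500600d011000a00c1bd422511))) (.br (Nat.shiftLeft (nat_lit 0xd00000500600e01) (nat_lit 68)) (.one (nat_lit 0xd00000500600e00f000a00c1bf41e511)) (.br (Nat.shiftLeft (nat_lit 0x7) (nat_lit 125)) (.one (nat_lit 0xd00000500600e010000a00c1bf420511)) (.one (nat_lit 0xe00000500600e00f000a00c1df81e511))))) (.br (Nat.shiftLeft (nat_lit 0x800001) (nat_lit 113)) (.br (Nat.shiftLeft (nat_lit 0x1) (nat_lit 136)) (.one (nat_lit 0xe00000500600e010000a00c1df820511)) (.one (nat_lit 0x100000100500600e00f200a02c41c01e611))) (.br (Nat.shiftLeft (nat_lit 0x800001002803007)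 (nat_lit 77)) (.one (nat_lit 0x100000200500600d011400a02c41a022611)) (.br (Nat.shiftLeft (nat_lit 0x100000200500600e01) (nat_lit 68)) (.one (nat_lit 0x100000200500600e00f400a02c41c01e611)) (.one (nat_lit 0x100000200500600e010400a02c41c020611))))))) (.br (Nat.shiftLeft (nat_lit 0x2000003) (nat_lit 112)) (.br (Nat.shiftLeft (nat_lit 0x100000400500600e01) (nat_lit 68)) (.br (Nat.shiftLeft (nat_lit 0x100000300500600e01) (nat_lit 68)) (.br (Nat.shiftLeft (nat_lit 0x800001802803007) (nat_lit 77)) (.one (nat_lit 0x100000300500600d011600a02c41a022611)) (.one (nat_lit 0x100000300500600e00f600a02c41c01e611))) (.br (Nat.shiftLeft (nat_lit 0x400001) (nat_lit 114)) (.one (nat_lit 0x100000300500600e010600a02c41c020611)) (.br (Nat.shiftLeft (nat_lit 0x800002002803007) (nat_lit 77)) (.one (nat_lit 0x100000400500600d011800a02c41a022611)) (.one (nat_lit 0x100000400500600e00f800a02c41c01e611))))) (.br (Nat.shiftLeft (nat_lit 0x1000001) (nat_lit 113)) (.br (Nat.shiftLeft (nat_lit 0x1) (nat_lit 137)) (.one (nat_lit 0x100000400500600e010800a02c41c020611))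 (.one (nat_lit 0x200000100500600e00f200a04c81c01e611))) (.br (Nat.shiftLeft (nat_lit 0x1000001002803007) (nat_lit 77)) (.one (nat_lit 0x200000200500600d011400a04c81a022611)) (.br (Nat.shiftLeft (nat_lit 0x200000200500600e01) (nat_lit 68)) (.one (nat_lit 0x200000200500600e00f400a04c81c01e611)) (.one (nat_lit 0x200000200500600e010400a04c81c020611)))))) (.br (Nat.shiftLeft (nat_lit 0x200000400500600e01) (nat_lit 68)) (.br (Nat.shiftLeft (nat_lit 0x200000300500600e01) (nat_lit 68)) (.br (Nat.shiftLeft (nat_lit 0x1000001802803007) (nat_lit 77)) (.one (nat_lit 0x200000300500600d011600a04c81a022611)) (.one (nat_lit 0x200000300500600e00f600a04c81c01e611))) (.br (Nat.shiftLeft (nat_lit 0x800001) (nat_lit 114)) (.one (nat_lit 0x200000300500600e010600a04c81c020611)) (.br (Nat.shiftLeft (nat_lit 0x1000002002803007) (nat_lit 77)) (.one (nat_lit 0x200000400500600d011800a04c81a022611)) (.one (nat_lit 0x200000400500600e00f800a04c81c01e611))))) (.br (Nat.shiftLeft (nat_lit 0x1800001) (nat_lit 113)) (.br (Nat.shiftLeft (nat_lit 0x3)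 (nat_lit 136)) (.one (nat_lit 0x200000400500600e010800a04c81c020611)) (.one (nat_lit 0x300000100500600e00f200a06cc1c01e611))) (.br (Nat.shiftLeft (nat_lit 0x1800001002803007) (nat_lit 77)) (.one (nat_lit 0x300000200500600d011400a06cc1a022611)) (.br (Nat.shiftLeft (nat_lit 0x300000200500600e01) (nat_lit 68)) (.one (nat_lit 0x300000200500600e00f400a06cc1c01e611)) (.one (nat_lit 0x300000200500600e010400a06cc1c020611))))))))
def t102 : k102.all (jb2 57 fl b0) = true := by decide +kernel
noncomputable def k103 : KT := (.br (Nat.shiftLeft (nat_lit 0x2000001002803007) (nat_lit 77)) (.br (Nat.shiftLeft (nat_lit 0x1800002002803007) (nat_lit 77)) (.br (Nat.shiftLeft (nat_lit 0x300000300500600e01) (nat_lit 68)) (.br (Nat.shiftLeft (nat_lit 0x1800001802803007) (nat_lit 77)) (.one (nat_lit 0x300000300500600d011600a06cc1a022611)) (.one (nat_lit 0x300000300500600e00f600a06cc1c01e611))) (.br (Nat.shiftLeft (nat_lit 0xc00001) (nat_lit 114)) (.one (nat_lit 0x300000300500600e010600a06cc1c020611)) (.one (nat_lit 0x300000400500600d011800a06cc1a022611))))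 (.br (Nat.shiftLeft (nat_lit 0x1) (nat_lit 138)) (.br (Nat.shiftLeft (nat_lit 0x300000400500600e01) (nat_lit 68)) (.one (nat_lit 0x300000400500600e00f800a06cc1c01e611)) (.one (nat_lit 0x300000400500600e010800a06cc1c020611))) (.br (Nat.shiftLeft (nat_lit 0x2000001) (nat_lit 113)) (.one (nat_lit 0x400000100500600e00f200a08d01c01e611)) (.one (nat_lit 0x400000200500600d011400a08d01a022611))))) (.br (Nat.shiftLeft (nat_lit 0x400000300500600e01) (nat_lit 68)) (.br (Nat.shiftLeft (nat_lit 0x4000003) (nat_lit 112)) (.br (Nat.shiftLeft (nat_lit 0x400000200500600e01) (nat_lit 68)) (.one (nat_lit 0x400000200500600e00f400a08d01c01e611)) (.one (nat_lit 0x400000200500600e010400a08d01c020611))) (.br (Nat.shiftLeft (nat_lit 0x2000001802803007) (nat_lit 77)) (.one (nat_lit 0x400000300500600d011600a08d01a022611)) (.one (nat_lit 0x400000300500600e00f600a08d01c01e611)))) (.br (Nat.shiftLeft (nat_lit 0x2000002002803007) (nat_lit 77)) (.br (Nat.shiftLeft (nat_lit 0x1000001) (nat_lit 114)) (.one (nat_lit 0x400000300500600e010600a08d01c020611))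 (.one (nat_lit 0x400000400500600d011800a08d01a022611))) (.br (Nat.shiftLeft (nat_lit 0x400000400500600e01) (nat_lit 68)) (.one (nat_lit 0x400000400500600e00f800a08d01c01e611)) (.one (nat_lit 0x400000400500600e010800a08d01c020611))))))
def t103 : k103.all (jb2 57 fl b0) = true := by decide +kernel
noncomputable def k104 : KT := (.br (Nat.shiftLeft (nat_lit 0x500000200500600e01) (nat_lit 68)) (.br (Nat.shiftLeft (nat_lit 0x2800001) (nat_lit 113)) (.one (nat_lit 0x500000100500600e00f200a0ad41c01e611)) (.br (Nat.shiftLeft (nat_lit 0x2800001002803007) (nat_lit 77)) (.one (nat_lit 0x500000200500600d011400a0ad41a022611)) (.one (nat_lit 0x500000200500600e00f400a0ad41c01e611)))) (.br (Nat.shiftLeft (nat_lit 0x2800001802803007) (nat_lit 77)) (.br (Nat.shiftLeft (nat_lit 0x5000003) (nat_lit 112)) (.one (nat_lit 0x500000200500600e010400a0ad41c020611)) (.one (nat_lit 0x500000300500600d011600a0ad41a022611))) (.br (Nat.shiftLeft (nat_lit 0x500000300500600e01) (nat_lit 68)) (.one (nat_lit 0x500000300500600e00f600a0ad41c01e611))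 (.one (nat_lit 0x500000300500600e010600a0ad41c020611)))))
def t104 : k104.all (jb2 57 fl b0) = true := by decide +kernel
noncomputable def k105 : KT := (.br (Nat.shiftLeft (nat_lit 0x3000001) (nat_lit 113)) (.br (Nat.shiftLeft (nat_lit 0x500000400500600e01) (nat_lit 68)) (.br (Nat.shiftLeft (nat_lit 0x2800002002803007) (nat_lit 77)) (.one (nat_lit 0x500000400500600d011800a0ad41a022611)) (.one (nat_lit 0x500000400500600e00f800a0ad41c01e611))) (.br (Nat.shiftLeft (nat_lit 0x3) (nat_lit 137)) (.one (nat_lit 0x500000400500600e010800a0ad41c020611)) (.one (nat_lit 0x600000100500600e00f200a0cd81c01e611)))) (.br (Nat.shiftLeft (nat_lit 0x600000200500600e01) (nat_lit 68)) (.br (Nat.shiftLeft (nat_lit 0x3000001002803007) (nat_lit 77)) (.one (nat_lit 0x600000200500600d011400a0cd81a022611)) (.one (nat_lit 0x600000200500600e00f400a0cd81c01e611))) (.br (Nat.shiftLeft (nat_lit 0x6000003) (nat_lit 112)) (.one (nat_lit 0x600000200500600e010400a0cd81c020611)) (.one (nat_lit 0x600000300500600d011600a0cd81a022611)))))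
def t105 : k105.all (jb2 57 fl b0) = true := by decide +kernel
noncomputable def k106 : KT := (.br (Nat.shiftLeft (nat_lit 0x7) (nat_lit 136)) (.br (Nat.shiftLeft (nat_lit 0x1800001) (nat_lit 114)) (.br (Nat.shiftLeft (nat_lit 0x600000300500600e01) (nat_lit 68)) (.one (nat_lit 0x600000300500600e00f600a0cd81c01e611)) (.one (nat_lit 0x600000300500600e010600a0cd81c020611))) (.br (Nat.shiftLeft (nat_lit 0x3000002002803007) (nat_lit 77)) (.one (nat_lit 0x600000400500600d011800a0cd81a022611)) (.br (Nat.shiftLeft (nat_lit 0x600000400500600e01) (nat_lit 68)) (.one (nat_lit 0x600000400500600e00f800a0cd81c01e611)) (.one (nat_lit 0x600000400500600e010800a0cd81c020611))))) (.br (Nat.shiftLeft (nat_lit 0x3800001002803007) (nat_lit 77)) (.br (Nat.shiftLeft (nat_lit 0x3800001) (nat_lit 113)) (.one (nat_lit 0x700000100500600e00f200a0edc1c01e611)) (.one (nat_lit 0x700000200500600d011400a0edc1a022611))) (.br (Nat.shiftLeft (nat_lit 0x700000200500600e01) (nat_lit 68)) (.one (nat_lit 0x700000200500600e00f400a0edc1c01e611)) (.br (Nat.shiftLeft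 (nat_lit 0x7000003) (nat_lit 112)) (.one (nat_lit 0x700000200500600e010400a0edc1c020611)) (.one (nat_lit 0x700000300500600d011600a0edc1a022611))))))
def t106 : k106.all (jb2 57 fl b0) = true := by decide +kernel
noncomputable def k107 : KT := (.br (Nat.shiftLeft (nat_lit 0x800000200500600e01) (nat_lit 68)) (.br (Nat.shiftLeft (nat_lit 0x700000400500600e01) (nat_lit 68)) (.br (Nat.shiftLeft (nat_lit 0x1c00001) (nat_lit 114)) (.br (Nat.shiftLeft (nat_lit 0x700000300500600e01) (nat_lit 68)) (.one (nat_lit 0x700000300500600e00f600a0edc1c01e611)) (.one (nat_lit 0x700000300500600e010600a0edc1c020611))) (.br (Nat.shiftLeft (nat_lit 0x3800002002803007) (nat_lit 77)) (.one (nat_lit 0x700000400500600d011800a0edc1a022611)) (.one (nat_lit 0x700000400500600e00f800a0edc1c01e611)))) (.br (Nat.shiftLeft (nat_lit 0x4000001) (nat_lit 113)) (.br (Nat.shiftLeft (nat_lit 0x1) (nat_lit 139)) (.one (nat_lit 0x700000400500600e010800a0edc1c020611)) (.one (nat_lit 0x800000100500600e00f200a10e01c01e611))) (.br (Nat.shiftLeft (nat_lit 0x4000001002803007)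 (nat_lit 77)) (.one (nat_lit 0x800000200500600d011400a10e01a022611)) (.one (nat_lit 0x800000200500600e00f400a10e01c01e611))))) (.br (Nat.shiftLeft (nat_lit 0x2000001) (nat_lit 114)) (.br (Nat.shiftLeft (nat_lit 0x4000001802803007) (nat_lit 77)) (.br (Nat.shiftLeft (nat_lit 0x8000003) (nat_lit 112)) (.one (nat_lit 0x800000200500600e010400a10e01c020611)) (.one (nat_lit 0x800000300500600d011600a10e01a022611))) (.br (Nat.shiftLeft (nat_lit 0x800000300500600e01) (nat_lit 68)) (.one (nat_lit 0x800000300500600e00f600a10e01c01e611)) (.one (nat_lit 0x800000300500600e010600a10e01c020611)))) (.br (Nat.shiftLeft (nat_lit 0x800000400500600e01) (nat_lit 68)) (.br (Nat.shiftLeft (nat_lit 0x4000002002803007) (nat_lit 77)) (.one (nat_lit 0x800000400500600d011800a10e01a022611)) (.one (nat_lit 0x800000400500600e00f800a10e01c01e611))) (.br (Nat.shiftLeft (nat_lit 0x9) (nat_lit 136)) (.one (nat_lit 0x800000400500600e010800a10e01c020611)) (.br (Nat.shiftLeft (nat_lit 0x4800001) (nat_lit 113)) (.one (nat_lit 0x900000100500600e00f200a12e41c01e611))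 (.one (nat_lit 0x900000200500600d011400a12e41a022611)))))))
def t107 : k107.all (jb2 57 fl b0) = true := by decide +kernel
noncomputable def k108 : KT := (.br (Nat.shiftLeft (nat_lit 0x5800001002803007) (nat_lit 77)) (.br (Nat.shiftLeft (nat_lit 0x5000001002803007) (nat_lit 77)) (.br (Nat.shiftLeft (nat_lit 0x2400001) (nat_lit 114)) (.br (Nat.shiftLeft (nat_lit 0x9000003) (nat_lit 112)) (.br (Nat.shiftLeft (nat_lit 0x900000200500600e01) (nat_lit 68)) (.one (nat_lit 0x900000200500600e00f400a12e41c01e611)) (.one (nat_lit 0x900000200500600e010400a12e41c020611))) (.br (Nat.shiftLeft (nat_lit 0x4800001802803007) (nat_lit 77)) (.one (nat_lit 0x900000300500600d011600a12e41a022611)) (.br (Nat.shiftLeft (nat_lit 0x900000300500600e01) (nat_lit 68)) (.one (nat_lit 0x900000300500600e00f600a12e41c01e611)) (.one (nat_lit 0x900000300500600e010600a12e41c020611))))) (.br (Nat.shiftLeft (nat_lit 0x900000400500600e01) (nat_lit 68)) (.br (Nat.shiftLeft (nat_lit 0x4800002002803007) (nat_lit 77)) (.one (nat_lit 0x900000400500600d011800a12e41a022611))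 (.one (nat_lit 0x900000400500600e00f800a12e41c01e611))) (.br (Nat.shiftLeft (nat_lit 0x5) (nat_lit 137)) (.one (nat_lit 0x900000400500600e010800a12e41c020611)) (.br (Nat.shiftLeft (nat_lit 0x5000001) (nat_lit 113)) (.one (nat_lit 0xa00000100500600e00f200a14e81c01e611)) (.one (nat_lit 0xa00000200500600d011400a14e81a022611)))))) (.br (Nat.shiftLeft (nat_lit 0x2800001) (nat_lit 114)) (.br (Nat.shiftLeft (nat_lit 0xa000003) (nat_lit 112)) (.br (Nat.shiftLeft (nat_lit 0xa00000200500600e01) (nat_lit 68)) (.one (nat_lit 0xa00000200500600e00f400a14e81c01e611)) (.one (nat_lit 0xa00000200500600e010400a14e81c020611))) (.br (Nat.shiftLeft (nat_lit 0x5000001802803007) (nat_lit 77)) (.one (nat_lit 0xa00000300500600d011600a14e81a022611)) (.br (Nat.shiftLeft (nat_lit 0xa00000300500600e01) (nat_lit 68)) (.one (nat_lit 0xa00000300500600e00f600a14e81c01e611)) (.one (nat_lit 0xa00000300500600e010600a14e81c020611))))) (.br (Nat.shiftLeft (nat_lit 0xa00000400500600e01) (nat_lit 68)) (.br (Nat.shiftLeft (nat_lit 0x5000002002803007) (nat_lit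 77)) (.one (nat_lit 0xa00000400500600d011800a14e81a022611)) (.one (nat_lit 0xa00000400500600e00f800a14e81c01e611))) (.br (Nat.shiftLeft (nat_lit 0xb) (nat_lit 136)) (.one (nat_lit 0xa00000400500600e010800a14e81c020611)) (.br (Nat.shiftLeft (nat_lit 0x5800001) (nat_lit 113)) (.one (nat_lit 0xb00000100500600e00f200a16ec1c01e611)) (.one (nat_lit 0xb00000200500600d011400a16ec1a022611))))))) (.br (Nat.shiftLeft (nat_lit 0x6000001002803007) (nat_lit 77)) (.br (Nat.shiftLeft (nat_lit 0x2c00001) (nat_lit 114)) (.br (Nat.shiftLeft (nat_lit 0xb000003) (nat_lit 112)) (.br (Nat.shiftLeft (nat_lit 0xb00000200500600e01) (nat_lit 68)) (.one (nat_lit 0xb00000200500600e00f400a16ec1c01e611)) (.one (nat_lit 0xb00000200500600e010400a16ec1c020611))) (.br (Nat.shiftLeft (nat_lit 0x5800001802803007) (nat_lit 77)) (.one (nat_lit 0xb00000300500600d011600a16ec1a022611)) (.br (Nat.shiftLeft (nat_lit 0xb00000300500600e01) (nat_lit 68)) (.one (nat_lit 0xb00000300500600e00f600a16ec1c01e611)) (.one (nat_lit 0xb00000300500600e010600a16ec1c020611)))))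 (.br (Nat.shiftLeft (nat_lit 0xb00000400500600e01) (nat_lit 68)) (.br (Nat.shiftLeft (nat_lit 0x5800002002803007) (nat_lit 77)) (.one (nat_lit 0xb00000400500600d011800a16ec1a022611)) (.one (nat_lit 0xb00000400500600e00f800a16ec1c01e611))) (.br (Nat.shiftLeft (nat_lit 0x3) (nat_lit 138)) (.one (nat_lit 0xb00000400500600e010800a16ec1c020611)) (.br (Nat.shiftLeft (nat_lit 0x6000001) (nat_lit 113)) (.one (nat_lit 0xc00000100500600e00f200a18f01c01e611)) (.one (nat_lit 0xc00000200500600d011400a18f01a022611)))))) (.br (Nat.shiftLeft (nat_lit 0x3000001) (nat_lit 114)) (.br (Nat.shiftLeft (nat_lit 0xc000003) (nat_lit 112)) (.br (Nat.shiftLeft (nat_lit 0xc00000200500600e01) (nat_lit 68)) (.one (nat_lit 0xc00000200500600e00f400a18f01c01e611)) (.one (nat_lit 0xc00000200500600e010400a18f01c020611))) (.br (Nat.shiftLeft (nat_lit 0x6000001802803007) (nat_lit 77)) (.one (nat_lit 0xc00000300500600d011600a18f01a022611)) (.br (Nat.shiftLeft (nat_lit 0xc00000300500600e01) (nat_lit 68)) (.one (nat_lit 0xc00000300500600e00f600a18f01c01e611))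 (.one (nat_lit 0xc00000300500600e010600a18f01c020611))))) (.br (Nat.shiftLeft (nat_lit 0xc00000400500600e01) (nat_lit 68)) (.br (Nat.shiftLeft (nat_lit 0x6000002002803007) (nat_lit 77)) (.one (nat_lit 0xc00000400500600d011800a18f01a022611)) (.one (nat_lit 0xc00000400500600e00f800a18f01c01e611))) (.br (Nat.shiftLeft (nat_lit 0xd) (nat_lit 136)) (.one (nat_lit 0xc00000400500600e010800a18f01c020611)) (.br (Nat.shiftLeft (nat_lit 0x6800001) (nat_lit 113)) (.one (nat_lit 0xd00000100500600e00f200a1af41c01e611)) (.one (nat_lit 0xd00000200500600d011400a1af41a022611))))))))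
def t108 : k108.all (jb2 57 fl b0) = true := by decide +kernel
noncomputable def k109 : KT := (.br (Nat.shiftLeft (nat_lit 0x3400001) (nat_lit 114)) (.br (Nat.shiftLeft (nat_lit 0xd000003) (nat_lit 112)) (.br (Nat.shiftLeft (nat_lit 0xd00000200500600e01) (nat_lit 68)) (.one (nat_lit 0xd00000200500600e00f400a1af41c01e611)) (.one (nat_lit 0xd00000200500600e010400a1af41c020611))) (.br (Nat.shiftLeft (nat_lit 0x6800001802803007) (nat_lit 77)) (.one (nat_lit 0xd00000300500600d011600a1af41a022611)) (.br (Nat.shiftLeft (nat_lit 0xd00000300500600e01) (nat_lit 68)) (.one (nat_lit 0xd00000300500600e00f600a1af41c01e611)) (.one (nat_lit 0xd00000300500600e010600a1af41c020611))))) (.br (Nat.shiftLeft (nat_lit 0x7000001) (nat_lit 113)) (.br (Nat.shiftLeft (nat_lit 0x7) (nat_lit 137)) (.one (nat_lit 0xd00000400500600e00f800a1af41c01e611)) (.one (nat_lit 0xe00000100500600e00f200a1cf81c01e611))) (.br (Nat.shiftLeft (nat_lit 0xe00000200500600e01) (nat_lit 68)) (.one (nat_lit 0xe00000200500600e00f400a1cf81c01e611)) (.br (Nat.shiftLeft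 (nat_lit 0xe000003) (nat_lit 112)) (.one (nat_lit 0xe00000200500600e010400a1cf81c020611)) (.one (nat_lit 0xe00000300500600e00f600a1cf81c01e611))))))
def t109 : k109.all (jb2 57 fl b0) = true := by decide +kernel
noncomputable def s5 : KT := (.br (nat_lit 0x300400500600d011800a00c07ac22760) (.br (nat_lit 0x100300500600d011600a00c03a422760) (.br (nat_lit 0x100000500600e010000a00c03c420511) (.br (nat_lit 0x100500600e00f200a00c01c01f600) k89 k90) (.br (nat_lit 0x100200500600d011400a00c03a422760) k91 (.br (nat_lit 0x100200500600e00f400a00c03c41e760) k92 k93))) (.br (nat_lit 0x200000500600e010000a00c05c820511) (.br (nat_lit 0x100300500600e010600a00c03c420760) k94 k95) (.br (nat_lit 0x200300500600e00f600a00c05c81e760) k96 (.br (nat_lit 0x200400500600d011800a00c05a822760) k97 k98)))) (.br (nat_lit 0x400000400500600e010800a08d01c020611) (.br (nat_lit 0x600000500600e010000a00c0dd820511) (.br (nat_lit 0x400000500600e010000a00c09d020511) k99 k100) (.br (nat_lit 0x900000500600d011000a00c13c422511) k101 (.br (nat_lit 0x300000200500600e010400a06cc1c020611)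 k102 k103))) (.br (nat_lit 0x700000300500600d011600a0edc1a022611) (.br (nat_lit 0x500000300500600e010600a0ad41c020611) k104 (.br (nat_lit 0x600000300500600d011600a0cd81a022611) k105 k106)) (.br (nat_lit 0x900000200500600d011400a12e41a022611) k107 (.br (nat_lit 0xd00000200500600d011400a1af41a022611) k108 k109)))))
noncomputable def u5 : KT := (.br (Nat.shiftLeft (nat_lit 0x500700800d) (nat_lit 64)) (.br (Nat.shiftLeft (nat_lit 0x500600e01) (nat_lit 68)) (.br (Nat.shiftLeft (nat_lit 0x2803007) (nat_lit 77)) (.one (nat_lit 0x500600d011000a00c01a022540)) (.one (nat_lit 0x500600e00f000a00c01c01e540))) (.br (Nat.shiftLeft (nat_lit 0x5007) (nat_lit 88)) (.one (nat_lit 0x500600e010000a00c01c020540)) (.one (nat_lit 0x500700800c000a00e010019500)))) (.br (Nat.shiftLeft (nat_lit 0x500700800f) (nat_lit 64)) (.br (Nat.shiftLeft (nat_lit 0x2803804007) (nat_lit 65)) (.one (nat_lit 0x500700800d000a00e01001b500)) (.one (nat_lit 0x500700800e000a00e01001d500))) (.br (Nat.shiftLeft (nat_lit 0x500700801) (nat_lit 68)) (.one (nat_lit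 0x500700800f000a00e01001f500)) (.one (nat_lit 0x5007008010000a00e010021500)))))
def w5 : u5.all (wj 57 s5) = true := by decide +kernel
def o5 : OkW 57 (jb2 57 fl) u5 := .lift s5 _ (.br _ _ _ (.br _ _ _ (.br _ _ _ (.br _ _ _ (.leaf b0 k89 t89) (.leaf b0 k90 t90)) (.br _ _ _ (.leaf b0 k91 t91) (.br _ _ _ (.leaf b0 k92 t92) (.leaf b0 k93 t93)))) (.br _ _ _ (.br _ _ _ (.leaf b0 k94 t94) (.leaf b0 k95 t95)) (.br _ _ _ (.leaf b0 k96 t96) (.br _ _ _ (.leaf b0 k97 t97) (.leaf b0 k98 t98))))) (.br _ _ _ (.br _ _ _ (.br _ _ _ (.leaf b0 k99 t99) (.leaf b0 k100 t100)) (.br _ _ _ (.leaf b0 k101 t101) (.br _ _ _ (.leaf b0 k102 t102) (.leaf b0 k103 t103)))) (.br _ _ _ (.br _ _ _ (.leaf b0 k104 t104) (.br _ _ _ (.leaf b0 k105 t105) (.leaf b0 k106 t106))) (.br _ _ _ (.leaf b0 k107 t107) (.br _ _ _ (.leaf b0 k108 t108) (.leaf b0 k109 t109)))))) w5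
noncomputable def k110 : KT := (.br (Nat.shiftLeft (nat_lit 0x1003) (nat_lit 112)) (.br (Nat.shiftLeft (nat_lit 0x3) (nat_lit 112)) (.br (Nat.shiftLeft (nat_lit 0x1) (nat_lit 112)) (.one (nat_lit 0x5007008011000a00e010023500)) (.br (Nat.shiftLeft (nat_lit 0x1) (nat_lit 113)) (.one (nat_lit 0x1005007008011200a00e010023600)) (.one (nat_lit 0x2005007008011400a00e010023600)))) (.br (Nat.shiftLeft (nat_lit 0x1) (nat_lit 124)) (.br (Nat.shiftLeft (nat_lit 0x1) (nat_lit 114)) (.one (nat_lit 0x3005007008011600a00e010023600)) (.one (nat_lit 0x4005007008011800a00e010023600))) (.br (Nat.shiftLeft (nat_lit 0x801) (nat_lit 113)) (.one (nat_lit 0x1000005007008011000a00e030422511)) (.one (nat_lit 0x1002005007008011400a00e030423700))))) (.br (Nat.shiftLeft (nat_lit 0x801) (nat_lit 114)) (.br (Nat.shiftLeft (nat_lit 0x1) (nat_lit 125)) (.br (Nat.shiftLeft (nat_lit 0x401) (nat_lit 114)) (.one (nat_lit 0x1003005007008011600a00e030423700)) (.one (nat_lit 0x1004005007008011800a00e030422760))) (.br (Nat.shiftLeft (nat_lit 0x1001) (nat_lit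 113)) (.one (nat_lit 0x2000005007008011000a00e050822511)) (.one (nat_lit 0x2003005007008011600a00e050823700)))) (.br (Nat.shiftLeft (nat_lit 0xc01) (nat_lit 114)) (.br (Nat.shiftLeft (nat_lit 0x3) (nat_lit 124)) (.one (nat_lit 0x2004005007008011800a00e050823700)) (.one (nat_lit 0x3000005007008011000a00e070c22511))) (.br (Nat.shiftLeft (nat_lit 0x1) (nat_lit 126)) (.one (nat_lit 0x3004005007008011800a00e070c23700)) (.one (nat_lit 0x4000005007008011000a00e091022511))))))
def t110 : k110.all (jb2 57 fl b0) = true := by decide +kernel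
noncomputable def k111 : KT := (.br (Nat.shiftLeft (nat_lit 0x3) (nat_lit 125)) (.one (nat_lit 0x5000005007008011000a00e0b1422511)) (.one (nat_lit 0x6000005007008011000a00e0d1822511)))
noncomputable def b112 : BT := .node (nat_lit 0x1) (nat_lit 0x48c497e5446f0b6d126a9914b195140039e40006e68003a5a000ab64003a59000ad6430013f00028) .leaf .leaf
def t111 : k111.all (jb2 57 fl b112) = true := by decide +kernel
noncomputable def k112 : KT := (.br (Nat.shiftLeft (nat_lit 0x800001) (nat_lit 113)) (.br (Nat.shiftLeft (nat_lit 0x1) (nat_lit 127)) (.one (nat_lit 0x7000005007008011000a00e0f1c22511)) (.br (Nat.shiftLeft (nat_lit 0x1) (nat_lit 136)) (.one (nat_lit 0x8000005007008011000a00e112022511)) (.one (nat_lit 0x1000001005007008011200a02e410022611)))) (.br (Nat.shiftLeft (nat_lit 0x1000003) (nat_lit 112)) (.one (nat_lit 0x1000002005007008011400a02e410022611)) (.br (Nat.shiftLeft (nat_lit 0x400001) (nat_lit 114)) (.one (nat_lit 0x1000003005007008011600a02e410022611)) (.one (nat_lit 0x1000004005007008011800a02e410022611)))))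
def t112 : k112.all (jb2 57 fl b0) = true := by decide +kernel
noncomputable def k113 : KT := (.one (nat_lit 0x1002003005007008011600a02e450822870))
def t113 : k113.all (jb2 57 fl b0) = true := by decide +kernel
noncomputable def k114 : KT := (.br (Nat.shiftLeft (nat_lit 0x1000001) (nat_lit 113)) (.br (Nat.shiftLeft (nat_lit 0x1003) (nat_lit 124)) (.one (nat_lit 0x1002004005007008011800a02e450822870)) (.br (Nat.shiftLeft (nat_lit 0x1) (nat_lit 137)) (.one (nat_lit 0x1003004005007008011800a02e470c22870)) (.one (nat_lit 0x2000001005007008011200a04e810022611)))) (.br (Nat.shiftLeft (nat_lit 0x2000003) (nat_lit 112)) (.one (nat_lit 0x2000002005007008011400a04e810022611)) (.br (Nat.shiftLeft (nat_lit 0x800001) (nat_lit 114)) (.one (nat_lit 0x2000003005007008011600a04e810022611)) (.one (nat_lit 0x2000004005007008011800a04e810022611)))))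
def t114 : k114.all (jb2 57 fl b0) = true := by decide +kernel
noncomputable def k115 : KT := (.br (Nat.shiftLeft (nat_lit 0xc00001) (nat_lit 114)) (.br (Nat.shiftLeft (nat_lit 0x1800001) (nat_lit 113)) (.br (Nat.shiftLeft (nat_lit 0x3) (nat_lit 136)) (.one (nat_lit 0x2003004005007008011800a04e870c22870)) (.one (nat_lit 0x3000001005007008011200a06ec10022611))) (.br (Nat.shiftLeft (nat_lit 0x3000003) (nat_lit 112)) (.one (nat_lit 0x3000002005007008011400a06ec10022611)) (.one (nat_lit 0x3000003005007008011600a06ec10022611)))) (.br (Nat.shiftLeft (nat_lit 0x2000001) (nat_lit 113)) (.br (Nat.shiftLeft (nat_lit 0x1) (nat_lit 138)) (.one (nat_lit 0x3000004005007008011800a06ec10022611)) (.one (nat_lit 0x4000001005007008011200a08f010022611))) (.br (Nat.shiftLeft (nat_lit 0x4000003) (nat_lit 112)) (.one (nat_lit 0x4000002005007008011400a08f010022611)) (.br (Nat.shiftLeft (nat_lit 0x1000001) (nat_lit 114)) (.one (nat_lit 0x4000003005007008011600a08f010022611)) (.one (nat_lit 0x4000004005007008011800a08f010022611))))))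
def t115 : k115.all (jb2 57 fl b0) = true := by decide +kernel
noncomputable def k116 : KT := (.br (Nat.shiftLeft (nat_lit 0x2800001) (nat_lit 113)) (.one (nat_lit 0x5000001005007008011200a0af410022611)) (.one (nat_lit 0x5000002005007008011400a0af410022611)))
def t116 : k116.all (jb2 57 fl b0) = true := by decide +kernel
noncomputable def k117 : KT := (.br (Nat.shiftLeft (nat_lit 0x1400001) (nat_lit 114)) (.one (nat_lit 0x5000003005007008011600a0af410022611)) (.one (nat_lit 0x5000004005007008011800a0af410022611)))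
def t117 : k117.all (jb2 57 fl b0) = true := by decide +kernel
noncomputable def k118 : KT := (.one (nat_lit 0x6000001005007008011200a0cf810022611))
noncomputable def b119 : BT := .node (nat_lit 0x1) (nat_lit 0x51449a93a0003a59000cb6810008700028) .leaf .leaf
def t118 : k118.all (jb2 57 fl b119) = true := by decide +kernel
noncomputable def k119 : KT := (.one (nat_lit 0x6000002005007008011400a0cf810022611))
noncomputable def b120 : BT := .node (nat_lit 0x1) (nat_lit 0x93428b9458003a98000ac6810008800028) .leaf .leaf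
def t119 : k119.all (jb2 57 fl b120) = true := by decide +kernel
noncomputable def k120 : KT := (.br (Nat.shiftLeft (nat_lit 0x1800001) (nat_lit 114)) (.one (nat_lit 0x6000003005007008011600a0cf810022611)) (.one (nat_lit 0x6000004005007008011800a0cf810022611)))
noncomputable def b121 : BT := .node (nat_lit 0x1) (nat_lit 0x6d924d92c6db328b24d4003a5a000ac60003318000ab682000e300028) .leaf .leaf
def t120 : k120.all (jb2 57 fl b121) = true := by decide +kernel
noncomputable def k121 : KT := (.one (nat_lit 0x7000001005007008011200a0efc10022611))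
def t121 : k121.all (jb2 57 fl b0) = true := by decide +kernel
noncomputable def k122 : KT := (.br (Nat.shiftLeft (nat_lit 0x7000003) (nat_lit 112)) (.one (nat_lit 0x7000002005007008011400a0efc10022611)) (.one (nat_lit 0x7000003005007008011600a0efc10022611)))
def t122 : k122.all (jb2 57 fl b0) = true := by decide +kernel
noncomputable def k123 : KT := (.br (Nat.shiftLeft (nat_lit 0x1) (nat_lit 139)) (.one (nat_lit 0x7000004005007008011800a0efc10022611)) (.one (nat_lit 0x8000001005007008011200a110010022611)))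
def t123 : k123.all (jb2 57 fl b0) = true := by decide +kernel
noncomputable def k124 : KT := (.br (Nat.shiftLeft (nat_lit 0x2000001003) (nat_lit 112)) (.br (Nat.shiftLeft (nat_lit 0x1000001003) (nat_lit 112)) (.br (Nat.shiftLeft (nat_lit 0x2000001) (nat_lit 114)) (.br (Nat.shiftLeft (nat_lit 0x8000003) (nat_lit 112)) (.one (nat_lit 0x8000002005007008011400a110010022611)) (.one (nat_lit 0x8000003005007008011600a110010022611))) (.br (Nat.shiftLeft (nat_lit 0x1) (nat_lit 148)) (.one (nat_lit 0x8000004005007008011800a110010022611)) (.one (nat_lit 0x1000001002005007008011402a40e030422711)))) (.br (Nat.shiftLeft (nat_lit 0x400000801) (nat_lit 114)) (.br (Nat.shiftLeft (nat_lit 0x800001) (nat_lit 125)) (.one (nat_lit 0x1000001003005007008011602a40e030422711)) (.one (nat_lit 0x1000002003005007008011602a40e050822711))) (.br (Nat.shiftLeft (nat_lit 0x1000003) (nat_lit 124)) (.one (nat_lit 0x1000002004005007008011802a40e050822711)) (.br (Nat.shiftLeft (nat_lit 0x1) (nat_lit 149)) (.one (nat_lit 0x1000003004005007008011802a40e070c22711))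 (.one (nat_lit 0x2000001002005007008011404a80e030422711)))))) (.br (Nat.shiftLeft (nat_lit 0x3) (nat_lit 148)) (.br (Nat.shiftLeft (nat_lit 0x800000801) (nat_lit 114)) (.br (Nat.shiftLeft (nat_lit 0x1000001) (nat_lit 125)) (.one (nat_lit 0x2000001003005007008011604a80e030422711)) (.one (nat_lit 0x2000002003005007008011604a80e050822711))) (.br (Nat.shiftLeft (nat_lit 0x2000003) (nat_lit 124)) (.one (nat_lit 0x2000002004005007008011804a80e050822711)) (.one (nat_lit 0x2000003004005007008011804a80e070c22711)))) (.br (Nat.shiftLeft (nat_lit 0x1800001) (nat_lit 125)) (.br (Nat.shiftLeft (nat_lit 0x3000001003) (nat_lit 112)) (.one (nat_lit 0x3000001002005007008011406ac0e030422711)) (.one (nat_lit 0x3000001003005007008011606ac0e030422711))) (.br (Nat.shiftLeft (nat_lit 0xc00000801) (nat_lit 114)) (.one (nat_lit 0x3000002003005007008011606ac0e050822711)) (.br (Nat.shiftLeft (nat_lit 0x3000003) (nat_lit 124)) (.one (nat_lit 0x3000002004005007008011806ac0e050822711)) (.one (nat_lit 0x3000003004005007008011806ac0e070c22711)))))))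
def t124 : k124.all (jb2 57 fl b0) = true := by decide +kernel
noncomputable def k125 : KT := (.br (Nat.shiftLeft (nat_lit 0x1000000801) (nat_lit 114)) (.br (Nat.shiftLeft (nat_lit 0x4000001003) (nat_lit 112)) (.one (nat_lit 0x4000001002005007008011408b00e030422711)) (.br (Nat.shiftLeft (nat_lit 0x2000001) (nat_lit 125)) (.one (nat_lit 0x4000001003005007008011608b00e030422711)) (.one (nat_lit 0x4000002003005007008011608b00e050822711)))) (.br (Nat.shiftLeft (nat_lit 0x4000003) (nat_lit 124)) (.one (nat_lit 0x4000002004005007008011808b00e050822711)) (.br (Nat.shiftLeft (nat_lit 0x5) (nat_lit 148)) (.one (nat_lit 0x4000003004005007008011808b00e070c22711)) (.one (nat_lit 0x500000100200500700801140ab40e030422711)))))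
noncomputable def b126 : BT := .node (nat_lit 0x1) (nat_lit 0xdb22609684003967000905810008800028) .leaf .leaf
def t125 : k125.all (jb2 57 fl b126) = true := by decide +kernel
noncomputable def k126 : KT := (.br (Nat.shiftLeft (nat_lit 0x1400000801) (nat_lit 114)) (.br (Nat.shiftLeft (nat_lit 0x2800001) (nat_lit 125)) (.one (nat_lit 0x500000100300500700801160ab40e030422711)) (.one (nat_lit 0x500000200300500700801160ab40e050822711))) (.br (Nat.shiftLeft (nat_lit 0x5000003) (nat_lit 124)) (.one (nat_lit 0x500000200400500700801180ab40e050822711)) (.one (nat_lit 0x500000300400500700801180ab40e070c22711))))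
noncomputable def b127 : BT := .node (nat_lit 0x17) (nat_lit 0x1322db32b9a4d09824e8000e964002b97000e980002b1b0a4624c028b8007442000dae832312a224d52685442d0800672a00116d80074b200160a052312a2264a4625166d980065b40011ac000563600156c852312b926480033180008d60199128b258c003319000ca6410053500535005350047a0047a0047a004190035d0035d0035d002a1002a1002a1002a1002a1002a1002400024000240001e0001e0001e0001e0001e0) .leaf .leaf
def t126 : k126.all (jb2 57 fl b127) = true := by decide +kernel
noncomputable def k127 : KT := (.br (Nat.shiftLeft (nat_lit 0x6000001003) (nat_lit 112)) (.one (nat_lit 0x600000100200500700801140cb80e030422711)) (.br (Nat.shiftLeft (nat_lit 0x3000001) (nat_lit 125)) (.one (nat_lit 0x600000100300500700801160cb80e030422711)) (.one (nat_lit 0x600000200300500700801160cb80e050822711))))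
noncomputable def b128 : BT := .node (nat_lit 0x1) (nat_lit 0x918b6cc98096349a95100032990008b94003a59000ae5c2000e400028) .leaf .leaf
def t127 : k127.all (jb2 57 fl b128) = true := by decide +kernel
noncomputable def k128 : KT := (.br (Nat.shiftLeft (nat_lit 0x7) (nat_lit 148)) (.br (Nat.shiftLeft (nat_lit 0x6000003) (nat_lit 124)) (.one (nat_lit 0x600000200400500700801180cb80e050822711)) (.one (nat_lit 0x600000300400500700801180cb80e070c22711))) (.br (Nat.shiftLeft (nat_lit 0x7000001003) (nat_lit 112)) (.one (nat_lit 0x700000100200500700801140ebc0e030422711)) (.one (nat_lit 0x700000100300500700801160ebc0e030422711))))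
def t128 : k128.all (jb2 57 fl b0) = true := by decide +kernel
noncomputable def k129 : KT := (.br (Nat.shiftLeft (nat_lit 0x1) (nat_lit 151)) (.br (Nat.shiftLeft (nat_lit 0x1c00000801) (nat_lit 114)) (.one (nat_lit 0x700000200300500700801160ebc0e050822711)) (.br (Nat.shiftLeft (nat_lit 0x7000003) (nat_lit 124)) (.one (nat_lit 0x700000200400500700801180ebc0e050822711)) (.one (nat_lit 0x700000300400500700801180ebc0e070c22711)))) (.br (Nat.shiftLeft (nat_lit 0x4000001) (nat_lit 125)) (.br (Nat.shiftLeft (nat_lit 0x8000001003) (nat_lit 112)) (.one (nat_lit 0x8000001002005007008011410c00e030422711)) (.one (nat_lit 0x8000001003005007008011610c00e030422711))) (.br (Nat.shiftLeft (nat_lit 0x2000000801) (nat_lit 114)) (.one (nat_lit 0x8000002003005007008011610c00e050822711)) (.one (nat_lit 0x8000002004005007008011810c00e050822711)))))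
def t129 : k129.all (jb2 57 fl b0) = true := by decide +kernel
noncomputable def k130 : KT := (.one (nat_lit 0x8000003004005007008011810c00e070c22711))
def t130 : k130.all (jb2 57 fl b0) = true := by decide +kernel
noncomputable def s6 : KT := (.br (nat_lit 0x6000002005007008011400a0cf810022611) (.br (nat_lit 0x2000004005007008011800a04e810022611) (.br (nat_lit 0x6000005007008011000a00e0d1822511) (.br (nat_lit 0x4000005007008011000a00e091022511) k110 k111) (.br (nat_lit 0x1000004005007008011800a02e410022611) k112 (.br (nat_lit 0x1002003005007008011600a02e450822870) k113 k114))) (.br (nat_lit 0x5000002005007008011400a0af410022611) (.br (nat_lit 0x4000004005007008011800a08f010022611) k115 k116) (.br (nat_lit 0x5000004005007008011800a0af410022611) k117 (.br (nat_lit 0x6000001005007008011200a0cf810022611) k118 k119)))) (.br (nat_lit 0x3000003004005007008011806ac0e070c22711) (.br (nat_lit 0x7000001005007008011200a0efc10022611) (.br (nat_lit 0x6000004005007008011800a0cf810022611) k120 k121) (.br (nat_lit 0x7000003005007008011600a0efc10022611)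 k122 (.br (nat_lit 0x8000001005007008011200a110010022611) k123 k124))) (.br (nat_lit 0x600000200300500700801160cb80e050822711) (.br (nat_lit 0x500000100200500700801140ab40e030422711) k125 (.br (nat_lit 0x500000300400500700801180ab40e070c22711) k126 k127)) (.br (nat_lit 0x700000100300500700801160ebc0e030422711) k128 (.br (nat_lit 0x8000002004005007008011810c00e050822711) k129 k130)))))
noncomputable def u6 : KT := (.one (nat_lit 0x5007008011000a00e010022540))
def w6 : u6.all (wj 57 s6) = true := by decide +kernel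
def o6 : OkW 57 (jb2 57 fl) u6 := .lift s6 _ (.br _ _ _ (.br _ _ _ (.br _ _ _ (.br _ _ _ (.leaf b0 k110 t110) (.leaf b112 k111 t111)) (.br _ _ _ (.leaf b0 k112 t112) (.br _ _ _ (.leaf b0 k113 t113) (.leaf b0 k114 t114)))) (.br _ _ _ (.br _ _ _ (.leaf b0 k115 t115) (.leaf b0 k116 t116)) (.br _ _ _ (.leaf b0 k117 t117) (.br _ _ _ (.leaf b119 k118 t118) (.leaf b120 k119 t119))))) (.br _ _ _ (.br _ _ _ (.br _ _ _ (.leaf b121 k120 t120) (.leaf b0 k121 t121)) (.br _ _ _ (.leaf b0 k122 t122) (.br _ _ _ (.leaf b0 k123 t123) (.leaf b0 k124 t124)))) (.br _ _ _ (.br _ _ _ (.leaf b126 k125 t125) (.br _ _ _ (.leaf b127 k126 t126) (.leaf b128 k127 t127))) (.br _ _ _ (.leaf b0 k128 t128) (.br _ _ _ (.leaf b0 k129 t129) (.leaf b0 k130 t130)))))) w6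
noncomputable def k131 : KT := (.br (Nat.shiftLeft (nat_lit 0x1) (nat_lit 114)) (.br (Nat.shiftLeft (nat_lit 0x1) (nat_lit 113)) (.br (Nat.shiftLeft (nat_lit 0x1) (nat_lit 112)) (.one (nat_lit 0x5007008012000a00e010025500)) (.one (nat_lit 0x1005007008012200a00e010025600))) (.br (Nat.shiftLeft (nat_lit 0x3) (nat_lit 112)) (.one (nat_lit 0x2005007008012400a00e010025600)) (.one (nat_lit 0x3005007008012600a00e010025600)))) (.br (Nat.shiftLeft (nat_lit 0x801) (nat_lit 113)) (.br (Nat.shiftLeft (nat_lit 0x1) (nat_lit 124)) (.one (nat_lit 0x4005007008012800a00e010025600)) (.one (nat_lit 0x1000005007008012000a00e030424511))) (.br (Nat.shiftLeft (nat_lit 0x1003) (nat_lit 112)) (.one (nat_lit 0x1002005007008012400a00e030425700)) (.one (nat_lit 0x1003005007008012600a00e030424760)))))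
def t131 : k131.all (jb2 57 fl b0) = true := by decide +kernel
noncomputable def k132 : KT := (.br (Nat.shiftLeft (nat_lit 0x1) (nat_lit 125)) (.one (nat_lit 0x1004005007008012800a00e030424760)) (.br (Nat.shiftLeft (nat_lit 0x1001) (nat_lit 113)) (.one (nat_lit 0x2000005007008012000a00e050824511)) (.one (nat_lit 0x2003005007008012600a00e050825700))))
def t132 : k132.all (jb2 57 fl b0) = true := by decide +kernel
noncomputable def k133 : KT := (.br (Nat.shiftLeft (nat_lit 0x3) (nat_lit 124)) (.one (nat_lit 0x2004005007008012800a00e050824760)) (.one (nat_lit 0x3000005007008012000a00e070c24511)))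
def t133 : k133.all (jb2 57 fl b0) = true := by decide +kernel
noncomputable def k134 : KT := (.br (Nat.shiftLeft (nat_lit 0x1) (nat_lit 126)) (.one (nat_lit 0x3004005007008012800a00e070c24760)) (.one (nat_lit 0x4000005007008012000a00e091024511)))
def t134 : k134.all (jb2 57 fl b0) = true := by decide +kernel
noncomputable def k135 : KT := (.br (Nat.shiftLeft (nat_lit 0x3) (nat_lit 125)) (.one (nat_lit 0x5000005007008012000a00e0b1424511)) (.br (Nat.shiftLeft (nat_lit 0x7) (nat_lit 124)) (.one (nat_lit 0x6000005007008012000a00e0d1824511)) (.one (nat_lit 0x7000005007008012000a00e0f1c24511))))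
def t135 : k135.all (jb2 57 fl b0) = true := by decide +kernel
noncomputable def k136 : KT := (.br (Nat.shiftLeft (nat_lit 0x1000001) (nat_lit 113)) (.br (Nat.shiftLeft (nat_lit 0x1000003) (nat_lit 112)) (.br (Nat.shiftLeft (nat_lit 0x1) (nat_lit 136)) (.one (nat_lit 0x8000005007008012000a00e112024511)) (.br (Nat.shiftLeft (nat_lit 0x800001) (nat_lit 113)) (.one (nat_lit 0x1000001005007008012200a02e410024611)) (.one (nat_lit 0x1000002005007008012400a02e410024611)))) (.br (Nat.shiftLeft (nat_lit 0x801) (nat_lit 125)) (.br (Nat.shiftLeft (nat_lit 0x400001) (nat_lit 114)) (.one (nat_lit 0x1000003005007008012600a02e410024611)) (.one (nat_lit 0x1000004005007008012800a02e410024611))) (.br (Nat.shiftLeft (nat_lit 0x1) (nat_lit 137)) (.one (nat_lit 0x1002003005007008012600a02e450824870)) (.one (nat_lit 0x2000001005007008012200a04e810024611))))) (.br (Nat.shiftLeft (nat_lit 0x3) (nat_lit 136)) (.br (Nat.shiftLeft (nat_lit 0x2000003) (nat_lit 112)) (.one (nat_lit 0x2000002005007008012400a04e810024611)) (.br (Nat.shiftLeft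 (nat_lit 0x800001) (nat_lit 114)) (.one (nat_lit 0x2000003005007008012600a04e810024611)) (.one (nat_lit 0x2000004005007008012800a04e810024611)))) (.br (Nat.shiftLeft (nat_lit 0x3000003) (nat_lit 112)) (.br (Nat.shiftLeft (nat_lit 0x1800001) (nat_lit 113)) (.one (nat_lit 0x3000001005007008012200a06ec10024611)) (.one (nat_lit 0x3000002005007008012400a06ec10024611))) (.br (Nat.shiftLeft (nat_lit 0xc00001) (nat_lit 114)) (.one (nat_lit 0x3000003005007008012600a06ec10024611)) (.one (nat_lit 0x3000004005007008012800a06ec10024611))))))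
def t136 : k136.all (jb2 57 fl b0) = true := by decide +kernel
noncomputable def k137 : KT := (.br (Nat.shiftLeft (nat_lit 0x4000003) (nat_lit 112)) (.br (Nat.shiftLeft (nat_lit 0x2000001) (nat_lit 113)) (.one (nat_lit 0x4000001005007008012200a08f010024611)) (.one (nat_lit 0x4000002005007008012400a08f010024611))) (.br (Nat.shiftLeft (nat_lit 0x1000001) (nat_lit 114)) (.one (nat_lit 0x4000003005007008012600a08f010024611)) (.br (Nat.shiftLeft (nat_lit 0x5) (nat_lit 136)) (.one (nat_lit 0x4000004005007008012800a08f010024611)) (.one (nat_lit 0x5000001005007008012200a0af410024611)))))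
def t137 : k137.all (jb2 57 fl b0) = true := by decide +kernel
noncomputable def k138 : KT := (.br (Nat.shiftLeft (nat_lit 0x5000003) (nat_lit 112)) (.one (nat_lit 0x5000002005007008012400a0af410024611)) (.br (Nat.shiftLeft (nat_lit 0x1400001) (nat_lit 114)) (.one (nat_lit 0x5000003005007008012600a0af410024611)) (.one (nat_lit 0x5000004005007008012800a0af410024611))))
def t138 : k138.all (jb2 57 fl b0) = true := by decide +kernel
noncomputable def k139 : KT := (.br (Nat.shiftLeft (nat_lit 0x3000001) (nat_lit 113)) (.one (nat_lit 0x6000001005007008012200a0cf810024611)) (.one (nat_lit 0x6000002005007008012400a0cf810024611)))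
def t139 : k139.all (jb2 57 fl b0) = true := by decide +kernel
noncomputable def k140 : KT := (.br (Nat.shiftLeft (nat_lit 0x1800001) (nat_lit 114)) (.one (nat_lit 0x6000003005007008012600a0cf810024611)) (.br (Nat.shiftLeft (nat_lit 0x7) (nat_lit 136)) (.one (nat_lit 0x6000004005007008012800a0cf810024611)) (.one (nat_lit 0x7000001005007008012200a0efc10024611))))
def t140 : k140.all (jb2 57 fl b0) = true := by decide +kernel
noncomputable def k141 : KT := (.br (Nat.shiftLeft (nat_lit 0x7000003) (nat_lit 112)) (.one (nat_lit 0x7000002005007008012400a0efc10024611)) (.br (Nat.shiftLeft (nat_lit 0x1c00001) (nat_lit 114)) (.one (nat_lit 0x7000003005007008012600a0efc10024611)) (.one (nat_lit 0x7000004005007008012800a0efc10024611))))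
def t141 : k141.all (jb2 57 fl b0) = true := by decide +kernel
noncomputable def k142 : KT := (.br (Nat.shiftLeft (nat_lit 0x800001) (nat_lit 125)) (.br (Nat.shiftLeft (nat_lit 0x8000003) (nat_lit 112)) (.br (Nat.shiftLeft (nat_lit 0x4000001) (nat_lit 113)) (.one (nat_lit 0x8000001005007008012200a110010024611)) (.one (nat_lit 0x8000002005007008012400a110010024611))) (.br (Nat.shiftLeft (nat_lit 0x2000001) (nat_lit 114)) (.one (nat_lit 0x8000003005007008012600a110010024611)) (.br (Nat.shiftLeft (nat_lit 0x1) (nat_lit 148)) (.one (nat_lit 0x8000004005007008012800a110010024611)) (.one (nat_lit 0x1000001002005007008012402a40e030424711))))) (.br (Nat.shiftLeft (nat_lit 0x1000001) (nat_lit 125)) (.br (Nat.shiftLeft (nat_lit 0x1) (nat_lit 149)) (.one (nat_lit 0x1000002003005007008012602a40e050824711)) (.one (nat_lit 0x2000001002005007008012404a80e030424711))) (.br (Nat.shiftLeft (nat_lit 0x3) (nat_lit 148)) (.one (nat_lit 0x2000002003005007008012604a80e050824711)) (.br (Nat.shiftLeft (nat_lit 0x1800001) (nat_lit 125))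 (.one (nat_lit 0x3000001002005007008012406ac0e030424711)) (.one (nat_lit 0x3000002003005007008012606ac0e050824711))))))
def t142 : k142.all (jb2 57 fl b0) = true := by decide +kernel
noncomputable def k143 : KT := (.br (Nat.shiftLeft (nat_lit 0x5) (nat_lit 148)) (.br (Nat.shiftLeft (nat_lit 0x2000001) (nat_lit 125)) (.one (nat_lit 0x4000001002005007008012408b00e030424711)) (.one (nat_lit 0x4000002003005007008012608b00e050824711))) (.br (Nat.shiftLeft (nat_lit 0x2800001) (nat_lit 125)) (.one (nat_lit 0x500000100200500700801240ab40e030424711)) (.br (Nat.shiftLeft (nat_lit 0x3) (nat_lit 149)) (.one (nat_lit 0x500000200300500700801260ab40e050824711)) (.one (nat_lit 0x600000100200500700801240cb80e030424711)))))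
def t143 : k143.all (jb2 57 fl b0) = true := by decide +kernel
noncomputable def k144 : KT := (.br (Nat.shiftLeft (nat_lit 0x3800001) (nat_lit 125)) (.br (Nat.shiftLeft (nat_lit 0x7) (nat_lit 148)) (.one (nat_lit 0x600000200300500700801260cb80e050824711)) (.one (nat_lit 0x700000100200500700801240ebc0e030424711))) (.br (Nat.shiftLeft (nat_lit 0x1) (nat_lit 151)) (.one (nat_lit 0x700000200300500700801260ebc0e050824711)) (.br (Nat.shiftLeft (nat_lit 0x4000001) (nat_lit 125)) (.one (nat_lit 0x8000001002005007008012410c00e030424711)) (.one (nat_lit 0x8000002003005007008012610c00e050824711)))))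
def t144 : k144.all (jb2 57 fl b0) = true := by decide +kernel
noncomputable def s7 : KT := (.br (nat_lit 0x5000001005007008012200a0af410024611) (.br (nat_lit 0x3000005007008012000a00e070c24511) (.br (nat_lit 0x1003005007008012600a00e030424760) k131 (.br (nat_lit 0x2003005007008012600a00e050825700) k132 k133)) (.br (nat_lit 0x7000005007008012000a00e0f1c24511) (.br (nat_lit 0x4000005007008012000a00e091024511) k134 k135) (.br (nat_lit 0x3000004005007008012800a06ec10024611) k136 k137))) (.br (nat_lit 0x7000001005007008012200a0efc10024611) (.br (nat_lit 0x5000004005007008012800a0af410024611) k138 (.br (nat_lit 0x6000002005007008012400a0cf810024611) k139 k140)) (.br (nat_lit 0x3000002003005007008012606ac0e050824711) (.br (nat_lit 0x7000004005007008012800a0efc10024611) k141 k142) (.br (nat_lit 0x600000100200500700801240cb80e030424711) k143 k144))))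
noncomputable def u7 : KT := (.one (nat_lit 0x5007008012000a00e010024540))
def w7 : u7.all (wj 57 s7) = true := by decide +kernel
def o7 : OkW 57 (jb2 57 fl) u7 := .lift s7 _ (.br _ _ _ (.br _ _ _ (.br _ _ _ (.leaf b0 k131 t131) (.br _ _ _ (.leaf b0 k132 t132) (.leaf b0 k133 t133))) (.br _ _ _ (.br _ _ _ (.leaf b0 k134 t134) (.leaf b0 k135 t135)) (.br _ _ _ (.leaf b0 k136 t136) (.leaf b0 k137 t137)))) (.br _ _ _ (.br _ _ _ (.leaf b0 k138 t138) (.br _ _ _ (.leaf b0 k139 t139) (.leaf b0 k140 t140))) (.br _ _ _ (.br _ _ _ (.leaf b0 k141 t141) (.leaf b0 k142 t142)) (.br _ _ _ (.leaf b0 k143 t143) (.leaf b0 k144 t144))))) w7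
noncomputable def k145 : KT := (.br (Nat.shiftLeft (nat_lit 0x401401c02005) (nat_lit 66)) (.br (Nat.shiftLeft (nat_lit 0x500700900d) (nat_lit 64)) (.br (Nat.shiftLeft (nat_lit 0x5007009) (nat_lit 76)) (.br (Nat.shiftLeft (nat_lit 0x1401c02005) (nat_lit 66)) (.one (nat_lit 0x5007008013000a00e010027500)) (.one (nat_lit 0x5007008014000a00e010029500))) (.br (Nat.shiftLeft (nat_lit 0x1401c02403) (nat_lit 66)) (.one (nat_lit 0x500700900b000a00e012017500)) (.one (nat_lit 0x500700900c000a00e012019500)))) (.br (Nat.shiftLeft (nat_lit 0x500700900f) (nat_lit 64)) (.br (Nat.shiftLeft (nat_lit 0x2803804807) (nat_lit 65)) (.one (nat_lit 0x500700900d000a00e01201b500)) (.one (nat_lit 0x500700900e000a00e01201d500))) (.br (Nat.shiftLeft (nat_lit 0x500700901) (nat_lit 68)) (.one (nat_lit 0x500700900f000a00e01201f500)) (.br (Nat.shiftLeft (nat_lit 0x1) (nat_lit 112)) (.one (nat_lit 0x5007009010000a00e012021500)) (.one (nat_lit 0x1005007008013200a00e010027600)))))) (.br (Nat.shiftLeft (nat_lit 0xc01401c02005) (nat_lit 66)) (.br (Nat.shiftLeft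 (nat_lit 0x801401c02005) (nat_lit 66)) (.br (Nat.shiftLeft (nat_lit 0x1) (nat_lit 113)) (.one (nat_lit 0x1005007008014200a00e010028650)) (.one (nat_lit 0x2005007008013400a00e010027600))) (.br (Nat.shiftLeft (nat_lit 0x3) (nat_lit 112)) (.one (nat_lit 0x2005007008014400a00e010029600)) (.one (nat_lit 0x3005007008013600a00e010027600)))) (.br (Nat.shiftLeft (nat_lit 0x1001401c02005) (nat_lit 66)) (.br (Nat.shiftLeft (nat_lit 0x1) (nat_lit 114)) (.one (nat_lit 0x3005007008014600a00e010029600)) (.one (nat_lit 0x4005007008013800a00e010027600))) (.br (Nat.shiftLeft (nat_lit 0x1) (nat_lit 124)) (.one (nat_lit 0x4005007008014800a00e010029600)) (.br (Nat.shiftLeft (nat_lit 0x400001401c02005) (nat_lit 66)) (.one (nat_lit 0x1000005007008013000a00e030426511)) (.one (nat_lit 0x1000005007008014000a00e030428511)))))))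
def t145 : k145.all (jb2 57 fl b0) = true := by decide +kernel
noncomputable def k146 : KT := (.one (nat_lit 0x1002005007008013400a00e030426760))
def t146 : k146.all (jb2 57 fl b0) = true := by decide +kernel
noncomputable def k147 : KT := (.one (nat_lit 0x1002005007008014400a00e030428760))
def t147 : k147.all (jb2 57 fl b0) = true := by decide +kernel
noncomputable def k148 : KT := (.one (nat_lit 0x1003005007008013600a00e030426760))
def t148 : k148.all (jb2 57 fl b0) = true := by decide +kernel
noncomputable def k149 : KT := (.br (Nat.shiftLeft (nat_lit 0x401) (nat_lit 114)) (.one (nat_lit 0x1003005007008014600a00e030428760)) (.one (nat_lit 0x1004005007008013800a00e030426760)))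
def t149 : k149.all (jb2 57 fl b0) = true := by decide +kernel
noncomputable def k150 : KT := (.br (Nat.shiftLeft (nat_lit 0x1) (nat_lit 125)) (.one (nat_lit 0x1004005007008014800a00e030428760)) (.br (Nat.shiftLeft (nat_lit 0x800001401c02005) (nat_lit 66)) (.one (nat_lit 0x2000005007008013000a00e050826511)) (.one (nat_lit 0x2000005007008014000a00e050828511))))
def t150 : k150.all (jb2 57 fl b0) = true := by decide +kernel
noncomputable def k151 : KT := (.one (nat_lit 0x2003005007008013600a00e050826760))
def t151 : k151.all (jb2 57 fl b0) = true := by decide +kernel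
noncomputable def k152 : KT := (.one (nat_lit 0x2003005007008014600a00e050828760))
def t152 : k152.all (jb2 57 fl b0) = true := by decide +kernel
noncomputable def k153 : KT := (.br (Nat.shiftLeft (nat_lit 0x3) (nat_lit 124)) (.br (Nat.shiftLeft (nat_lit 0x801001401c02005) (nat_lit 66)) (.one (nat_lit 0x2004005007008013800a00e050826760)) (.one (nat_lit 0x2004005007008014800a00e050828760))) (.br (Nat.shiftLeft (nat_lit 0xc00001401c02005) (nat_lit 66)) (.one (nat_lit 0x3000005007008013000a00e070c26511)) (.one (nat_lit 0x3000005007008014000a00e070c28511))))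
def t153 : k153.all (jb2 57 fl b0) = true := by decide +kernel
noncomputable def k154 : KT := (.br (Nat.shiftLeft (nat_lit 0xc01001401c02005) (nat_lit 66)) (.one (nat_lit 0x3004005007008013800a00e070c26760)) (.one (nat_lit 0x3004005007008014800a00e070c28760)))
def t154 : k154.all (jb2 57 fl b0) = true := by decide +kernel
noncomputable def k155 : KT := (.br (Nat.shiftLeft (nat_lit 0x1400001401c02005) (nat_lit 66)) (.br (Nat.shiftLeft (nat_lit 0x1000001401c02005) (nat_lit 66)) (.one (nat_lit 0x4000005007008013000a00e091026511)) (.br (Nat.shiftLeft (nat_lit 0x5) (nat_lit 124)) (.one (nat_lit 0x4000005007008014000a00e091028511)) (.one (nat_lit 0x5000005007008013000a00e0b1426511)))) (.br (Nat.shiftLeft (nat_lit 0x3) (nat_lit 125)) (.one (nat_lit 0x5000005007008014000a00e0b1428511)) (.br (Nat.shiftLeft (nat_lit 0x1800001401c02005) (nat_lit 66)) (.one (nat_lit 0x6000005007008013000a00e0d1826511)) (.one (nat_lit 0x6000005007008014000a00e0d1828511)))))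
def t155 : k155.all (jb2 57 fl b0) = true := by decide +kernel
noncomputable def k156 : KT := (.br (Nat.shiftLeft (nat_lit 0x400001) (nat_lit 114)) (.br (Nat.shiftLeft (nat_lit 0x1) (nat_lit 136)) (.br (Nat.shiftLeft (nat_lit 0x1) (nat_lit 127)) (.br (Nat.shiftLeft (nat_lit 0x1c00001401c02005) (nat_lit 66)) (.one (nat_lit 0x7000005007008013000a00e0f1c26511)) (.one (nat_lit 0x7000005007008014000a00e0f1c28511))) (.br (Nat.shiftLeft (nat_lit 0x2000001401c02005) (nat_lit 66)) (.one (nat_lit 0x8000005007008013000a00e112026511)) (.one (nat_lit 0x8000005007008014000a00e112028511)))) (.br (Nat.shiftLeft (nat_lit 0x400000801401c02005) (nat_lit 66)) (.br (Nat.shiftLeft (nat_lit 0x800001) (nat_lit 113)) (.one (nat_lit 0x1000001005007008013200a02e410026611)) (.one (nat_lit 0x1000002005007008013400a02e410026611))) (.br (Nat.shiftLeft (nat_lit 0x1000003) (nat_lit 112)) (.one (nat_lit 0x1000002005007008014400a02e410028611)) (.br (Nat.shiftLeft (nat_lit 0x400000c01401c02005) (nat_lit 66)) (.one (nat_lit 0x1000003005007008013600a02e410026611))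 (.one (nat_lit 0x1000003005007008014600a02e410028611)))))) (.br (Nat.shiftLeft (nat_lit 0x2000003) (nat_lit 112)) (.br (Nat.shiftLeft (nat_lit 0x1) (nat_lit 137)) (.br (Nat.shiftLeft (nat_lit 0x400001001401c02005) (nat_lit 66)) (.one (nat_lit 0x1000004005007008013800a02e410026611)) (.one (nat_lit 0x1000004005007008014800a02e410028611))) (.br (Nat.shiftLeft (nat_lit 0x1000001) (nat_lit 113)) (.one (nat_lit 0x2000001005007008013200a04e810026611)) (.br (Nat.shiftLeft (nat_lit 0x800000801401c02005) (nat_lit 66)) (.one (nat_lit 0x2000002005007008013400a04e810026611)) (.one (nat_lit 0x2000002005007008014400a04e810028611))))) (.br (Nat.shiftLeft (nat_lit 0x800001) (nat_lit 114)) (.br (Nat.shiftLeft (nat_lit 0x800000c01401c02005) (nat_lit 66)) (.one (nat_lit 0x2000003005007008013600a04e810026611)) (.one (nat_lit 0x2000003005007008014600a04e810028611))) (.br (Nat.shiftLeft (nat_lit 0x800001001401c02005) (nat_lit 66)) (.one (nat_lit 0x2000004005007008013800a04e810026611)) (.br (Nat.shiftLeft (nat_lit 0x3) (nat_lit 136)) (.one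 (nat_lit 0x2000004005007008014800a04e810028611)) (.one (nat_lit 0x3000001005007008013200a06ec10026611)))))))
def t156 : k156.all (jb2 57 fl b0) = true := by decide +kernel
noncomputable def k157 : KT := (.br (Nat.shiftLeft (nat_lit 0x1) (nat_lit 138)) (.br (Nat.shiftLeft (nat_lit 0xc00000c01401c02005) (nat_lit 66)) (.br (Nat.shiftLeft (nat_lit 0xc00000801401c02005) (nat_lit 66)) (.one (nat_lit 0x3000002005007008013400a06ec10026611)) (.br (Nat.shiftLeft (nat_lit 0x3000003) (nat_lit 112)) (.one (nat_lit 0x3000002005007008014400a06ec10028611)) (.one (nat_lit 0x3000003005007008013600a06ec10026611)))) (.br (Nat.shiftLeft (nat_lit 0xc00001) (nat_lit 114)) (.one (nat_lit 0x3000003005007008014600a06ec10028611)) (.br (Nat.shiftLeft (nat_lit 0xc00001001401c02005) (nat_lit 66)) (.one (nat_lit 0x3000004005007008013800a06ec10026611)) (.one (nat_lit 0x3000004005007008014800a06ec10028611))))) (.br (Nat.shiftLeft (nat_lit 0x4000003) (nat_lit 112)) (.br (Nat.shiftLeft (nat_lit 0x2000001) (nat_lit 113)) (.one (nat_lit 0x4000001005007008013200a08f010026611))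 (.br (Nat.shiftLeft (nat_lit 0x1000000801401c02005) (nat_lit 66)) (.one (nat_lit 0x4000002005007008013400a08f010026611)) (.one (nat_lit 0x4000002005007008014400a08f010028611)))) (.br (Nat.shiftLeft (nat_lit 0x1000001) (nat_lit 114)) (.br (Nat.shiftLeft (nat_lit 0x1000000c01401c02005) (nat_lit 66)) (.one (nat_lit 0x4000003005007008013600a08f010026611)) (.one (nat_lit 0x4000003005007008014600a08f010028611))) (.br (Nat.shiftLeft (nat_lit 0x1000001001401c02005) (nat_lit 66)) (.one (nat_lit 0x4000004005007008013800a08f010026611)) (.one (nat_lit 0x4000004005007008014800a08f010028611))))))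
def t157 : k157.all (jb2 57 fl b0) = true := by decide +kernel
noncomputable def k158 : KT := (.br (Nat.shiftLeft (nat_lit 0x1400000801401c02005) (nat_lit 66)) (.br (Nat.shiftLeft (nat_lit 0x2800001) (nat_lit 113)) (.one (nat_lit 0x5000001005007008013200a0af410026611)) (.one (nat_lit 0x5000002005007008013400a0af410026611))) (.br (Nat.shiftLeft (nat_lit 0x5000003) (nat_lit 112)) (.one (nat_lit 0x5000002005007008014400a0af410028611)) (.one (nat_lit 0x5000003005007008013600a0af410026611))))
def t158 : k158.all (jb2 57 fl b0) = true := by decide +kernel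
noncomputable def k159 : KT := (.br (Nat.shiftLeft (nat_lit 0x1400001001401c02005) (nat_lit 66)) (.br (Nat.shiftLeft (nat_lit 0x1400001) (nat_lit 114)) (.one (nat_lit 0x5000003005007008014600a0af410028611)) (.one (nat_lit 0x5000004005007008013800a0af410026611))) (.br (Nat.shiftLeft (nat_lit 0x3) (nat_lit 137)) (.one (nat_lit 0x5000004005007008014800a0af410028611)) (.one (nat_lit 0x6000001005007008013200a0cf810026611))))
def t159 : k159.all (jb2 57 fl b0) = true := by decide +kernel
noncomputable def k160 : KT := (.br (Nat.shiftLeft (nat_lit 0x6000003) (nat_lit 112)) (.br (Nat.shiftLeft (nat_lit 0x1800000801401c02005) (nat_lit 66)) (.one (nat_lit 0x6000002005007008013400a0cf810026611)) (.one (nat_lit 0x6000002005007008014400a0cf810028611))) (.br (Nat.shiftLeft (nat_lit 0x1800000c01401c02005) (nat_lit 66)) (.one (nat_lit 0x6000003005007008013600a0cf810026611)) (.br (Nat.shiftLeft (nat_lit 0x1800001) (nat_lit 114)) (.one (nat_lit 0x6000003005007008014600a0cf810028611)) (.one (nat_lit 0x6000004005007008013800a0cf810026611)))))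
def t160 : k160.all (jb2 57 fl b0) = true := by decide +kernel
noncomputable def k161 : KT := (.br (Nat.shiftLeft (nat_lit 0x3800001) (nat_lit 113)) (.br (Nat.shiftLeft (nat_lit 0x7) (nat_lit 136)) (.one (nat_lit 0x6000004005007008014800a0cf810028611)) (.one (nat_lit 0x7000001005007008013200a0efc10026611))) (.br (Nat.shiftLeft (nat_lit 0x1c00000801401c02005) (nat_lit 66)) (.one (nat_lit 0x7000002005007008013400a0efc10026611)) (.br (Nat.shiftLeft (nat_lit 0x7000003) (nat_lit 112)) (.one (nat_lit 0x7000002005007008014400a0efc10028611)) (.one (nat_lit 0x7000003005007008013600a0efc10026611)))))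
def t161 : k161.all (jb2 57 fl b0) = true := by decide +kernel
noncomputable def k162 : KT := (.br (Nat.shiftLeft (nat_lit 0x2000000801401c02005) (nat_lit 66)) (.br (Nat.shiftLeft (nat_lit 0x1c00001001401c02005) (nat_lit 66)) (.br (Nat.shiftLeft (nat_lit 0x1c00001) (nat_lit 114)) (.one (nat_lit 0x7000003005007008014600a0efc10028611)) (.one (nat_lit 0x7000004005007008013800a0efc10026611))) (.br (Nat.shiftLeft (nat_lit 0x1) (nat_lit 139)) (.one (nat_lit 0x7000004005007008014800a0efc10028611)) (.br (Nat.shiftLeft (nat_lit 0x4000001) (nat_lit 113)) (.one (nat_lit 0x8000001005007008013200a110010026611)) (.one (nat_lit 0x8000002005007008013400a110010026611))))) (.br (Nat.shiftLeft (nat_lit 0x2000000c01401c02005) (nat_lit 66)) (.br (Nat.shiftLeft (nat_lit 0x8000003) (nat_lit 112)) (.one (nat_lit 0x8000002005007008014400a110010028611)) (.one (nat_lit 0x8000003005007008013600a110010026611))) (.br (Nat.shiftLeft (nat_lit 0x2000001) (nat_lit 114)) (.one (nat_lit 0x8000003005007008014600a110010028611)) (.br (Nat.shiftLeft (nat_lit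 0x2000001001401c02005) (nat_lit 66)) (.one (nat_lit 0x8000004005007008013800a110010026611)) (.one (nat_lit 0x8000004005007008014800a110010028611))))))
def t162 : k162.all (jb2 57 fl b0) = true := by decide +kernel
noncomputable def s8 : KT := (.br (nat_lit 0x3000005007008014000a00e070c28511) (.br (nat_lit 0x1003005007008013600a00e030426760) (.br (nat_lit 0x1002005007008013400a00e030426760) (.br (nat_lit 0x1000005007008014000a00e030428511) k145 k146) (.br (nat_lit 0x1002005007008014400a00e030428760) k147 k148)) (.br (nat_lit 0x2000005007008014000a00e050828511) (.br (nat_lit 0x1004005007008013800a00e030426760) k149 k150) (.br (nat_lit 0x2003005007008013600a00e050826760) k151 (.br (nat_lit 0x2003005007008014600a00e050828760) k152 k153)))) (.br (nat_lit 0x4000004005007008014800a08f010028611) (.br (nat_lit 0x6000005007008014000a00e0d1828511) (.br (nat_lit 0x3004005007008014800a00e070c28760) k154 k155) (.br (nat_lit 0x3000001005007008013200a06ec10026611) k156 k157)) (.br (nat_lit 0x6000001005007008013200a0cf810026611)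 (.br (nat_lit 0x5000003005007008013600a0af410026611) k158 k159) (.br (nat_lit 0x6000004005007008013800a0cf810026611) k160 (.br (nat_lit 0x7000003005007008013600a0efc10026611) k161 k162)))))
noncomputable def u8 : KT := (.br (Nat.shiftLeft (nat_lit 0x500700900d) (nat_lit 64)) (.br (Nat.shiftLeft (nat_lit 0x5007009) (nat_lit 76)) (.br (Nat.shiftLeft (nat_lit 0x1401c02005) (nat_lit 66)) (.one (nat_lit 0x5007008013000a00e010026540)) (.one (nat_lit 0x5007008014000a00e010028540))) (.br (Nat.shiftLeft (nat_lit 0x1401c02403) (nat_lit 66)) (.one (nat_lit 0x500700900b000a00e012017500)) (.one (nat_lit 0x500700900c000a00e012019500)))) (.br (Nat.shiftLeft (nat_lit 0x500700900f) (nat_lit 64)) (.br (Nat.shiftLeft (nat_lit 0x2803804807) (nat_lit 65)) (.one (nat_lit 0x500700900d000a00e01201b500)) (.one (nat_lit 0x500700900e000a00e01201d500))) (.br (Nat.shiftLeft (nat_lit 0x500700901) (nat_lit 68)) (.one (nat_lit 0x500700900f000a00e01201f500)) (.one (nat_lit 0x5007009010000a00e012021500)))))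
def w8 : u8.all (wj 57 s8) = true := by decide +kernel
def o8 : OkW 57 (jb2 57 fl) u8 := .lift s8 _ (.br _ _ _ (.br _ _ _ (.br _ _ _ (.br _ _ _ (.leaf b0 k145 t145) (.leaf b0 k146 t146)) (.br _ _ _ (.leaf b0 k147 t147) (.leaf b0 k148 t148))) (.br _ _ _ (.br _ _ _ (.leaf b0 k149 t149) (.leaf b0 k150 t150)) (.br _ _ _ (.leaf b0 k151 t151) (.br _ _ _ (.leaf b0 k152 t152) (.leaf b0 k153 t153))))) (.br _ _ _ (.br _ _ _ (.br _ _ _ (.leaf b0 k154 t154) (.leaf b0 k155 t155)) (.br _ _ _ (.leaf b0 k156 t156) (.leaf b0 k157 t157))) (.br _ _ _ (.br _ _ _ (.leaf b0 k158 t158) (.leaf b0 k159 t159)) (.br _ _ _ (.leaf b0 k160 t160) (.br _ _ _ (.leaf b0 k161 t161) (.leaf b0 k162 t162)))))) w8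
noncomputable def k163 : KT := (.br (Nat.shiftLeft (nat_lit 0x1) (nat_lit 124)) (.br (Nat.shiftLeft (nat_lit 0x1) (nat_lit 113)) (.br (Nat.shiftLeft (nat_lit 0x1) (nat_lit 112)) (.one (nat_lit 0x5007009011000a00e012023500)) (.one (nat_lit 0x1005007009011200a00e012023600))) (.br (Nat.shiftLeft (nat_lit 0x3) (nat_lit 112)) (.one (nat_lit 0x2005007009011400a00e012023600)) (.br (Nat.shiftLeft (nat_lit 0x1) (nat_lit 114)) (.one (nat_lit 0x3005007009011600a00e012023600)) (.one (nat_lit 0x4005007009011800a00e012023600))))) (.br (Nat.shiftLeft (nat_lit 0x401) (nat_lit 114)) (.br (Nat.shiftLeft (nat_lit 0x801) (nat_lit 113)) (.one (nat_lit 0x1000005007009011000a00e032422511)) (.br (Nat.shiftLeft (nat_lit 0x1003) (nat_lit 112)) (.one (nat_lit 0x1002005007009011400a00e032423700)) (.one (nat_lit 0x1003005007009011600a00e032423700)))) (.br (Nat.shiftLeft (nat_lit 0x1) (nat_lit 125)) (.one (nat_lit 0x1004005007009011800a00e032422760)) (.br (Nat.shiftLeft (nat_lit 0x1001) (nat_lit 113)) (.one (nat_lit 0x2000005007009011000a00e052822511))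 (.one (nat_lit 0x2003005007009011600a00e052823700))))))
def t163 : k163.all (jb2 57 fl b0) = true := by decide +kernel
noncomputable def k164 : KT := (.br (Nat.shiftLeft (nat_lit 0x3) (nat_lit 124)) (.one (nat_lit 0x2004005007009011800a00e052822760)) (.one (nat_lit 0x3000005007009011000a00e072c22511)))
def t164 : k164.all (jb2 57 fl b0) = true := by decide +kernel
noncomputable def k165 : KT := (.br (Nat.shiftLeft (nat_lit 0x1) (nat_lit 126)) (.one (nat_lit 0x3004005007009011800a00e072c22760)) (.one (nat_lit 0x4000005007009011000a00e093022511)))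
def t165 : k165.all (jb2 57 fl b0) = true := by decide +kernel
noncomputable def k166 : KT := (.br (Nat.shiftLeft (nat_lit 0x3) (nat_lit 125)) (.one (nat_lit 0x5000005007009011000a00e0b3422511)) (.one (nat_lit 0x6000005007009011000a00e0d3822511)))
def t166 : k166.all (jb2 57 fl b0) = true := by decide +kernel
noncomputable def k167 : KT := (.br (Nat.shiftLeft (nat_lit 0x1) (nat_lit 127)) (.one (nat_lit 0x7000005007009011000a00e0f3c22511)) (.one (nat_lit 0x8000005007009011000a00e114022511)))
def t167 : k167.all (jb2 57 fl b0) = true := by decide +kernel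
noncomputable def k168 : KT := (.br (Nat.shiftLeft (nat_lit 0x1000001) (nat_lit 113)) (.br (Nat.shiftLeft (nat_lit 0x1000003) (nat_lit 112)) (.br (Nat.shiftLeft (nat_lit 0x1) (nat_lit 136)) (.one (nat_lit 0x9000005007009011000a00e134422511)) (.br (Nat.shiftLeft (nat_lit 0x800001) (nat_lit 113)) (.one (nat_lit 0x1000001005007009011200a02e412022611)) (.one (nat_lit 0x1000002005007009011400a02e412022611)))) (.br (Nat.shiftLeft (nat_lit 0x801) (nat_lit 125)) (.br (Nat.shiftLeft (nat_lit 0x400001) (nat_lit 114)) (.one (nat_lit 0x1000003005007009011600a02e412022611)) (.one (nat_lit 0x1000004005007009011800a02e412022611))) (.br (Nat.shiftLeft (nat_lit 0x1) (nat_lit 137)) (.one (nat_lit 0x1002003005007009011600a02e452822870)) (.one (nat_lit 0x2000001005007009011200a04e812022611))))) (.br (Nat.shiftLeft (nat_lit 0x3) (nat_lit 136)) (.br (Nat.shiftLeft (nat_lit 0x2000003) (nat_lit 112)) (.one (nat_lit 0x2000002005007009011400a04e812022611)) (.br (Nat.shiftLeft (nat_lit 0x800001) (nat_lit 114)) (.one (nat_lit 0x2000003005007009011600a04e812022611))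 (.one (nat_lit 0x2000004005007009011800a04e812022611)))) (.br (Nat.shiftLeft (nat_lit 0x3000003) (nat_lit 112)) (.br (Nat.shiftLeft (nat_lit 0x1800001) (nat_lit 113)) (.one (nat_lit 0x3000001005007009011200a06ec12022611)) (.one (nat_lit 0x3000002005007009011400a06ec12022611))) (.br (Nat.shiftLeft (nat_lit 0xc00001) (nat_lit 114)) (.one (nat_lit 0x3000003005007009011600a06ec12022611)) (.one (nat_lit 0x3000004005007009011800a06ec12022611))))))
def t168 : k168.all (jb2 57 fl b0) = true := by decide +kernel
noncomputable def k169 : KT := (.br (Nat.shiftLeft (nat_lit 0x4000003) (nat_lit 112)) (.br (Nat.shiftLeft (nat_lit 0x2000001) (nat_lit 113)) (.one (nat_lit 0x4000001005007009011200a08f012022611)) (.one (nat_lit 0x4000002005007009011400a08f012022611))) (.br (Nat.shiftLeft (nat_lit 0x1000001) (nat_lit 114)) (.one (nat_lit 0x4000003005007009011600a08f012022611)) (.br (Nat.shiftLeft (nat_lit 0x5) (nat_lit 136)) (.one (nat_lit 0x4000004005007009011800a08f012022611)) (.one (nat_lit 0x5000001005007009011200a0af412022611)))))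
def t169 : k169.all (jb2 57 fl b0) = true := by decide +kernel
noncomputable def k170 : KT := (.br (Nat.shiftLeft (nat_lit 0x5000003) (nat_lit 112)) (.one (nat_lit 0x5000002005007009011400a0af412022611)) (.br (Nat.shiftLeft (nat_lit 0x1400001) (nat_lit 114)) (.one (nat_lit 0x5000003005007009011600a0af412022611)) (.one (nat_lit 0x5000004005007009011800a0af412022611))))
noncomputable def b171 : BT := .node (nat_lit 0x1) (nat_lit 0x6f0b6cca892312b9258c003a590008e64002b97000ab642000e300028) .leaf .leaf
def t170 : k170.all (jb2 57 fl b171) = true := by decide +kernel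
noncomputable def k171 : KT := (.one (nat_lit 0x6000001005007009011200a0cf812022611))
noncomputable def b172 : BT := .node (nat_lit 0x1) (nat_lit 0x9642741454003a59000ad6010008800028) .leaf .leaf
def t171 : k171.all (jb2 57 fl b172) = true := by decide +kernel
noncomputable def k172 : KT := (.br (Nat.shiftLeft (nat_lit 0x6000003) (nat_lit 112)) (.one (nat_lit 0x6000002005007009011400a0cf812022611)) (.one (nat_lit 0x6000003005007009011600a0cf812022611)))
noncomputable def b173 : BT := .node (nat_lit 0xb) (nat_lit 0x12c893528a80074b20015ac032312739514003a1b0006e6c1001b1001b10015100151000f0000f0000f0000f0000f0000f0000f0000f0) .leaf .leaf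
def t172 : k172.all (jb2 57 fl b173) = true := by decide +kernel
noncomputable def k173 : KT := (.br (Nat.shiftLeft (nat_lit 0x7) (nat_lit 136)) (.one (nat_lit 0x6000004005007009011800a0cf812022611)) (.one (nat_lit 0x7000001005007009011200a0efc12022611)))
def t173 : k173.all (jb2 57 fl b0) = true := by decide +kernel
noncomputable def k174 : KT := (.br (Nat.shiftLeft (nat_lit 0x7000003) (nat_lit 112)) (.one (nat_lit 0x7000002005007009011400a0efc12022611)) (.br (Nat.shiftLeft (nat_lit 0x1c00001) (nat_lit 114)) (.one (nat_lit 0x7000003005007009011600a0efc12022611)) (.one (nat_lit 0x7000004005007009011800a0efc12022611))))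
def t174 : k174.all (jb2 57 fl b0) = true := by decide +kernel
noncomputable def k175 : KT := (.br (Nat.shiftLeft (nat_lit 0x4000001) (nat_lit 113)) (.one (nat_lit 0x8000001005007009011200a110012022611)) (.br (Nat.shiftLeft (nat_lit 0x8000003) (nat_lit 112)) (.one (nat_lit 0x8000002005007009011400a110012022611)) (.one (nat_lit 0x8000003005007009011600a110012022611))))
def t175 : k175.all (jb2 57 fl b0) = true := by decide +kernel
noncomputable def k176 : KT := (.br (Nat.shiftLeft (nat_lit 0x800001) (nat_lit 125)) (.br (Nat.shiftLeft (nat_lit 0x9000003) (nat_lit 112)) (.br (Nat.shiftLeft (nat_lit 0x9) (nat_lit 136)) (.one (nat_lit 0x8000004005007009011800a110012022611)) (.br (Nat.shiftLeft (nat_lit 0x4800001) (nat_lit 113)) (.one (nat_lit 0x9000001005007009011200a130412022611)) (.one (nat_lit 0x9000002005007009011400a130412022611)))) (.br (Nat.shiftLeft (nat_lit 0x1) (nat_lit 148)) (.br (Nat.shiftLeft (nat_lit 0x2400001) (nat_lit 114)) (.one (nat_lit 0x9000003005007009011600a130412022611)) (.one (nat_lit 0x9000004005007009011800a130412022611)))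 (.br (Nat.shiftLeft (nat_lit 0x1000001003) (nat_lit 112)) (.one (nat_lit 0x1000001002005007009011402a40e032422711)) (.one (nat_lit 0x1000001003005007009011602a40e032422711))))) (.br (Nat.shiftLeft (nat_lit 0x1000001) (nat_lit 125)) (.br (Nat.shiftLeft (nat_lit 0x1) (nat_lit 149)) (.one (nat_lit 0x1000002003005007009011602a40e052822711)) (.br (Nat.shiftLeft (nat_lit 0x2000001003) (nat_lit 112)) (.one (nat_lit 0x2000001002005007009011404a80e032422711)) (.one (nat_lit 0x2000001003005007009011604a80e032422711)))) (.br (Nat.shiftLeft (nat_lit 0x3000001003) (nat_lit 112)) (.br (Nat.shiftLeft (nat_lit 0x3) (nat_lit 148)) (.one (nat_lit 0x2000002003005007009011604a80e052822711)) (.one (nat_lit 0x3000001002005007009011406ac0e032422711))) (.br (Nat.shiftLeft (nat_lit 0x1800001) (nat_lit 125)) (.one (nat_lit 0x3000001003005007009011606ac0e032422711)) (.one (nat_lit 0x3000002003005007009011606ac0e052822711))))))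
def t176 : k176.all (jb2 57 fl b0) = true := by decide +kernel
noncomputable def k177 : KT := (.br (Nat.shiftLeft (nat_lit 0x2000001) (nat_lit 125)) (.br (Nat.shiftLeft (nat_lit 0x4000001003) (nat_lit 112)) (.one (nat_lit 0x4000001002005007009011408b00e032422711)) (.one (nat_lit 0x4000001003005007009011608b00e032422711))) (.br (Nat.shiftLeft (nat_lit 0x5) (nat_lit 148)) (.one (nat_lit 0x4000002003005007009011608b00e052822711)) (.one (nat_lit 0x500000100200500700901140ab40e032422711))))
noncomputable def b178 : BT := .node (nat_lit 0x13) (nat_lit 0x6d91511268db2274a648003395000ab6400325e000ad5c299249a1510003a1a000ae5c1de12602648003226000ac6019914b19458003a59000ac6c10036b0036b0036b0036b0036b002b0002b0002b0002b0002500025000250002500025000250001f000190001900019000190) .leaf .leaf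
def t177 : k177.all (jb2 57 fl b178) = true := by decide +kernel
noncomputable def k178 : KT := (.br (Nat.shiftLeft (nat_lit 0x2800001) (nat_lit 125)) (.one (nat_lit 0x500000100300500700901160ab40e032422711)) (.br (Nat.shiftLeft (nat_lit 0x3) (nat_lit 149)) (.one (nat_lit 0x500000200300500700901160ab40e052822711)) (.one (nat_lit 0x600000100200500700901140cb80e032422711))))
noncomputable def b179 : BT := .node (nat_lit 0x1) (nat_lit 0x36c8a2e5166d9258c9d0de1260a58c003a980008d6c0032d8000ab74003265000ab6430013e00028) .leaf .leaf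
def t178 : k178.all (jb2 57 fl b179) = true := by decide +kernel
noncomputable def k179 : KT := (.br (Nat.shiftLeft (nat_lit 0x7) (nat_lit 148)) (.br (Nat.shiftLeft (nat_lit 0x3000001) (nat_lit 125)) (.one (nat_lit 0x600000100300500700901160cb80e032422711)) (.one (nat_lit 0x600000200300500700901160cb80e052822711))) (.br (Nat.shiftLeft (nat_lit 0x7000001003) (nat_lit 112)) (.one (nat_lit 0x700000100200500700901140ebc0e032422711)) (.one (nat_lit 0x700000100300500700901160ebc0e032422711))))
def t179 : k179.all (jb2 57 fl b0) = true := by decide +kernel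
noncomputable def k180 : KT := (.br (Nat.shiftLeft (nat_lit 0x4000001) (nat_lit 125)) (.br (Nat.shiftLeft (nat_lit 0x1) (nat_lit 151)) (.one (nat_lit 0x700000200300500700901160ebc0e052822711)) (.br (Nat.shiftLeft (nat_lit 0x8000001003) (nat_lit 112)) (.one (nat_lit 0x8000001002005007009011410c00e032422711)) (.one (nat_lit 0x8000001003005007009011610c00e032422711)))) (.br (Nat.shiftLeft (nat_lit 0x9000001003) (nat_lit 112)) (.br (Nat.shiftLeft (nat_lit 0x9) (nat_lit 148)) (.one (nat_lit 0x8000002003005007009011610c00e052822711)) (.one (nat_lit 0x9000001002005007009011412c40e032422711))) (.br (Nat.shiftLeft (nat_lit 0x4800001) (nat_lit 125)) (.one (nat_lit 0x9000001003005007009011612c40e032422711)) (.one (nat_lit 0x9000002003005007009011612c40e052822711)))))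
def t180 : k180.all (jb2 57 fl b0) = true := by decide +kernel
noncomputable def s9 : KT := (.br (nat_lit 0x6000001005007009011200a0cf812022611) (.br (nat_lit 0x6000005007009011000a00e0d3822511) (.br (nat_lit 0x3000005007009011000a00e072c22511) (.br (nat_lit 0x2003005007009011600a00e052823700) k163 k164) (.br (nat_lit 0x4000005007009011000a00e093022511) k165 k166)) (.br (nat_lit 0x3000004005007009011800a06ec12022611) (.br (nat_lit 0x8000005007009011000a00e114022511) k167 k168) (.br (nat_lit 0x5000001005007009011200a0af412022611) k169 (.br (nat_lit 0x5000004005007009011800a0af412022611) k170 k171)))) (.br (nat_lit 0x8000003005007009011600a110012022611) (.br (nat_lit 0x7000001005007009011200a0efc12022611) (.br (nat_lit 0x6000003005007009011600a0cf812022611) k172 k173) (.br (nat_lit 0x7000004005007009011800a0efc12022611) k174 k175)) (.br (nat_lit 0x500000100200500700901140ab40e032422711) (.br (nat_lit 0x3000002003005007009011606ac0e052822711) k176 k177) (.br (nat_lit 0x600000100200500700901140cb80e032422711) k178 (.br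 (nat_lit 0x700000100300500700901160ebc0e032422711) k179 k180)))))
noncomputable def u9 : KT := (.one (nat_lit 0x5007009011000a00e012022540))
def w9 : u9.all (wj 57 s9) = true := by decide +kernel
def o9 : OkW 57 (jb2 57 fl) u9 := .lift s9 _ (.br _ _ _ (.br _ _ _ (.br _ _ _ (.br _ _ _ (.leaf b0 k163 t163) (.leaf b0 k164 t164)) (.br _ _ _ (.leaf b0 k165 t165) (.leaf b0 k166 t166))) (.br _ _ _ (.br _ _ _ (.leaf b0 k167 t167) (.leaf b0 k168 t168)) (.br _ _ _ (.leaf b0 k169 t169) (.br _ _ _ (.leaf b171 k170 t170) (.leaf b172 k171 t171))))) (.br _ _ _ (.br _ _ _ (.br _ _ _ (.leaf b173 k172 t172) (.leaf b0 k173 t173)) (.br _ _ _ (.leaf b0 k174 t174) (.leaf b0 k175 t175))) (.br _ _ _ (.br _ _ _ (.leaf b0 k176 t176) (.leaf b178 k177 t177)) (.br _ _ _ (.leaf b179 k178 t178) (.br _ _ _ (.leaf b0 k179 t179) (.leaf b0 k180 t180)))))) w9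
noncomputable def k181 : KT := (.br (Nat.shiftLeft (nat_lit 0x3) (nat_lit 112)) (.br (Nat.shiftLeft (nat_lit 0x1005007009013) (nat_lit 64)) (.br (Nat.shiftLeft (nat_lit 0x5007009013) (nat_lit 64)) (.one (nat_lit 0x5007009012000a00e012025500)) (.br (Nat.shiftLeft (nat_lit 0x1) (nat_lit 112)) (.one (nat_lit 0x5007009013000a00e012027500)) (.one (nat_lit 0x1005007009012200a00e012025600)))) (.br (Nat.shiftLeft (nat_lit 0x1) (nat_lit 113)) (.one (nat_lit 0x1005007009013200a00e012027600)) (.br (Nat.shiftLeft (nat_lit 0x2005007009013) (nat_lit 64)) (.one (nat_lit 0x2005007009012400a00e012025600)) (.one (nat_lit 0x2005007009013400a00e012027600))))) (.br (Nat.shiftLeft (nat_lit 0x4005007009013) (nat_lit 64)) (.br (Nat.shiftLeft (nat_lit 0x3005007009013) (nat_lit 64)) (.one (nat_lit 0x3005007009012600a00e012025600)) (.br (Nat.shiftLeft (nat_lit 0x1) (nat_lit 114)) (.one (nat_lit 0x3005007009013600a00e012027600)) (.one (nat_lit 0x4005007009012800a00e012025600)))) (.br (Nat.shiftLeft (nat_lit 0x1) (nat_lit 124)) (.one (nat_lit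 0x4005007009013800a00e012027600)) (.br (Nat.shiftLeft (nat_lit 0x1000005007009013) (nat_lit 64)) (.one (nat_lit 0x1000005007009012000a00e032424511)) (.one (nat_lit 0x1000005007009013000a00e032426511))))))
def t181 : k181.all (jb2 57 fl b0) = true := by decide +kernel
noncomputable def k182 : KT := (.one (nat_lit 0x1002005007009012400a00e032424760))
def t182 : k182.all (jb2 57 fl b0) = true := by decide +kernel
noncomputable def k183 : KT := (.one (nat_lit 0x1002005007009013400a00e032426760))
def t183 : k183.all (jb2 57 fl b0) = true := by decide +kernel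
noncomputable def k184 : KT := (.one (nat_lit 0x1003005007009012600a00e032424760))
def t184 : k184.all (jb2 57 fl b0) = true := by decide +kernel
noncomputable def k185 : KT := (.br (Nat.shiftLeft (nat_lit 0x401) (nat_lit 114)) (.one (nat_lit 0x1003005007009013600a00e032426760)) (.one (nat_lit 0x1004005007009012800a00e032424760)))
def t185 : k185.all (jb2 57 fl b0) = true := by decide +kernel
noncomputable def k186 : KT := (.br (Nat.shiftLeft (nat_lit 0x1) (nat_lit 125)) (.one (nat_lit 0x1004005007009013800a00e032426760)) (.br (Nat.shiftLeft (nat_lit 0x2000005007009013) (nat_lit 64)) (.one (nat_lit 0x2000005007009012000a00e052824511)) (.one (nat_lit 0x2000005007009013000a00e052826511))))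
def t186 : k186.all (jb2 57 fl b0) = true := by decide +kernel
noncomputable def k187 : KT := (.one (nat_lit 0x2003005007009012600a00e052824760))
def t187 : k187.all (jb2 57 fl b0) = true := by decide +kernel
noncomputable def k188 : KT := (.one (nat_lit 0x2003005007009013600a00e052826760))
def t188 : k188.all (jb2 57 fl b0) = true := by decide +kernel
noncomputable def k189 : KT := (.one (nat_lit 0x2004005007009012800a00e052824760))
def t189 : k189.all (jb2 57 fl b0) = true := by decide +kernel
noncomputable def k190 : KT := (.br (Nat.shiftLeft (nat_lit 0x3) (nat_lit 124)) (.one (nat_lit 0x2004005007009013800a00e052826760)) (.br (Nat.shiftLeft (nat_lit 0x3000005007009013) (nat_lit 64)) (.one (nat_lit 0x3000005007009012000a00e072c24511)) (.one (nat_lit 0x3000005007009013000a00e072c26511))))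
def t190 : k190.all (jb2 57 fl b0) = true := by decide +kernel
noncomputable def k191 : KT := (.br (Nat.shiftLeft (nat_lit 0x3004005007009013) (nat_lit 64)) (.one (nat_lit 0x3004005007009012800a00e072c24760)) (.one (nat_lit 0x3004005007009013800a00e072c26760)))
def t191 : k191.all (jb2 57 fl b0) = true := by decide +kernel
noncomputable def k192 : KT := (.br (Nat.shiftLeft (nat_lit 0x5) (nat_lit 124)) (.br (Nat.shiftLeft (nat_lit 0x4000005007009013) (nat_lit 64)) (.one (nat_lit 0x4000005007009012000a00e093024511)) (.one (nat_lit 0x4000005007009013000a00e093026511))) (.br (Nat.shiftLeft (nat_lit 0x5000005007009013) (nat_lit 64)) (.one (nat_lit 0x5000005007009012000a00e0b3424511)) (.br (Nat.shiftLeft (nat_lit 0x3) (nat_lit 125)) (.one (nat_lit 0x5000005007009013000a00e0b3426511)) (.one (nat_lit 0x6000005007009012000a00e0d3824511)))))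
def t192 : k192.all (jb2 57 fl b0) = true := by decide +kernel
noncomputable def k193 : KT := (.br (Nat.shiftLeft (nat_lit 0x7) (nat_lit 124)) (.one (nat_lit 0x6000005007009013000a00e0d3826511)) (.br (Nat.shiftLeft (nat_lit 0x7000005007009013) (nat_lit 64)) (.one (nat_lit 0x7000005007009012000a00e0f3c24511)) (.one (nat_lit 0x7000005007009013000a00e0f3c26511))))
def t193 : k193.all (jb2 57 fl b0) = true := by decide +kernel
noncomputable def k194 : KT := (.br (Nat.shiftLeft (nat_lit 0x1000004005007009013) (nat_lit 64)) (.br (Nat.shiftLeft (nat_lit 0x1000001005007009013) (nat_lit 64)) (.br (Nat.shiftLeft (nat_lit 0x9) (nat_lit 124)) (.br (Nat.shiftLeft (nat_lit 0x8000005007009013) (nat_lit 64)) (.one (nat_lit 0x8000005007009012000a00e114024511)) (.one (nat_lit 0x8000005007009013000a00e114026511))) (.br (Nat.shiftLeft (nat_lit 0x9000005007009013) (nat_lit 64)) (.one (nat_lit 0x9000005007009012000a00e134424511)) (.br (Nat.shiftLeft (nat_lit 0x1) (nat_lit 136)) (.one (nat_lit 0x9000005007009013000a00e134426511)) (.one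 (nat_lit 0x1000001005007009012200a02e412024611))))) (.br (Nat.shiftLeft (nat_lit 0x1000003) (nat_lit 112)) (.br (Nat.shiftLeft (nat_lit 0x800001) (nat_lit 113)) (.one (nat_lit 0x1000001005007009013200a02e412026611)) (.br (Nat.shiftLeft (nat_lit 0x1000002005007009013) (nat_lit 64)) (.one (nat_lit 0x1000002005007009012400a02e412024611)) (.one (nat_lit 0x1000002005007009013400a02e412026611)))) (.br (Nat.shiftLeft (nat_lit 0x1000003005007009013) (nat_lit 64)) (.one (nat_lit 0x1000003005007009012600a02e412024611)) (.br (Nat.shiftLeft (nat_lit 0x400001) (nat_lit 114)) (.one (nat_lit 0x1000003005007009013600a02e412026611)) (.one (nat_lit 0x1000004005007009012800a02e412024611)))))) (.br (Nat.shiftLeft (nat_lit 0x2000003005007009013) (nat_lit 64)) (.br (Nat.shiftLeft (nat_lit 0x1000001) (nat_lit 113)) (.br (Nat.shiftLeft (nat_lit 0x1) (nat_lit 137)) (.one (nat_lit 0x1000004005007009013800a02e412026611)) (.br (Nat.shiftLeft (nat_lit 0x2000001005007009013) (nat_lit 64)) (.one (nat_lit 0x2000001005007009012200a04e812024611))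 (.one (nat_lit 0x2000001005007009013200a04e812026611)))) (.br (Nat.shiftLeft (nat_lit 0x2000002005007009013) (nat_lit 64)) (.one (nat_lit 0x2000002005007009012400a04e812024611)) (.br (Nat.shiftLeft (nat_lit 0x2000003) (nat_lit 112)) (.one (nat_lit 0x2000002005007009013400a04e812026611)) (.one (nat_lit 0x2000003005007009012600a04e812024611))))) (.br (Nat.shiftLeft (nat_lit 0x3) (nat_lit 136)) (.br (Nat.shiftLeft (nat_lit 0x800001) (nat_lit 114)) (.one (nat_lit 0x2000003005007009013600a04e812026611)) (.br (Nat.shiftLeft (nat_lit 0x2000004005007009013) (nat_lit 64)) (.one (nat_lit 0x2000004005007009012800a04e812024611)) (.one (nat_lit 0x2000004005007009013800a04e812026611)))) (.br (Nat.shiftLeft (nat_lit 0x3000001005007009013) (nat_lit 64)) (.one (nat_lit 0x3000001005007009012200a06ec12024611)) (.br (Nat.shiftLeft (nat_lit 0x1800001) (nat_lit 113)) (.one (nat_lit 0x3000001005007009013200a06ec12026611)) (.one (nat_lit 0x3000002005007009012400a06ec12024611)))))))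
def t194 : k194.all (jb2 57 fl b0) = true := by decide +kernel
noncomputable def k195 : KT := (.br (Nat.shiftLeft (nat_lit 0x4000001005007009013) (nat_lit 64)) (.br (Nat.shiftLeft (nat_lit 0xc00001) (nat_lit 114)) (.br (Nat.shiftLeft (nat_lit 0x3000003) (nat_lit 112)) (.one (nat_lit 0x3000002005007009013400a06ec12026611)) (.br (Nat.shiftLeft (nat_lit 0x3000003005007009013) (nat_lit 64)) (.one (nat_lit 0x3000003005007009012600a06ec12024611)) (.one (nat_lit 0x3000003005007009013600a06ec12026611)))) (.br (Nat.shiftLeft (nat_lit 0x3000004005007009013) (nat_lit 64)) (.one (nat_lit 0x3000004005007009012800a06ec12024611)) (.br (Nat.shiftLeft (nat_lit 0x1) (nat_lit 138)) (.one (nat_lit 0x3000004005007009013800a06ec12026611)) (.one (nat_lit 0x4000001005007009012200a08f012024611))))) (.br (Nat.shiftLeft (nat_lit 0x4000003) (nat_lit 112)) (.br (Nat.shiftLeft (nat_lit 0x2000001) (nat_lit 113)) (.one (nat_lit 0x4000001005007009013200a08f012026611)) (.br (Nat.shiftLeft (nat_lit 0x4000002005007009013) (nat_lit 64)) (.one (nat_lit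 0x4000002005007009012400a08f012024611)) (.one (nat_lit 0x4000002005007009013400a08f012026611)))) (.br (Nat.shiftLeft (nat_lit 0x1000001) (nat_lit 114)) (.br (Nat.shiftLeft (nat_lit 0x4000003005007009013) (nat_lit 64)) (.one (nat_lit 0x4000003005007009012600a08f012024611)) (.one (nat_lit 0x4000003005007009013600a08f012026611))) (.br (Nat.shiftLeft (nat_lit 0x4000004005007009013) (nat_lit 64)) (.one (nat_lit 0x4000004005007009012800a08f012024611)) (.one (nat_lit 0x4000004005007009013800a08f012026611))))))
def t195 : k195.all (jb2 57 fl b0) = true := by decide +kernel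
noncomputable def k196 : KT := (.br (Nat.shiftLeft (nat_lit 0x2800001) (nat_lit 113)) (.br (Nat.shiftLeft (nat_lit 0x5000001005007009013) (nat_lit 64)) (.one (nat_lit 0x5000001005007009012200a0af412024611)) (.one (nat_lit 0x5000001005007009013200a0af412026611))) (.br (Nat.shiftLeft (nat_lit 0x5000002005007009013) (nat_lit 64)) (.one (nat_lit 0x5000002005007009012400a0af412024611)) (.one (nat_lit 0x5000002005007009013400a0af412026611))))
def t196 : k196.all (jb2 57 fl b0) = true := by decide +kernel
noncomputable def k197 : KT := (.br (Nat.shiftLeft (nat_lit 0x1400001) (nat_lit 114)) (.br (Nat.shiftLeft (nat_lit 0x5000003005007009013) (nat_lit 64)) (.one (nat_lit 0x5000003005007009012600a0af412024611)) (.one (nat_lit 0x5000003005007009013600a0af412026611))) (.br (Nat.shiftLeft (nat_lit 0x5000004005007009013) (nat_lit 64)) (.one (nat_lit 0x5000004005007009012800a0af412024611)) (.one (nat_lit 0x5000004005007009013800a0af412026611))))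
def t197 : k197.all (jb2 57 fl b0) = true := by decide +kernel
noncomputable def k198 : KT := (.br (Nat.shiftLeft (nat_lit 0x6000001005007009013) (nat_lit 64)) (.one (nat_lit 0x6000001005007009012200a0cf812024611)) (.one (nat_lit 0x6000001005007009013200a0cf812026611)))
def t198 : k198.all (jb2 57 fl b0) = true := by decide +kernel
noncomputable def k199 : KT := (.br (Nat.shiftLeft (nat_lit 0x6000003) (nat_lit 112)) (.br (Nat.shiftLeft (nat_lit 0x6000002005007009013) (nat_lit 64)) (.one (nat_lit 0x6000002005007009012400a0cf812024611)) (.one (nat_lit 0x6000002005007009013400a0cf812026611))) (.br (Nat.shiftLeft (nat_lit 0x6000003005007009013) (nat_lit 64)) (.one (nat_lit 0x6000003005007009012600a0cf812024611)) (.one (nat_lit 0x6000003005007009013600a0cf812026611))))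
def t199 : k199.all (jb2 57 fl b0) = true := by decide +kernel
noncomputable def k200 : KT := (.br (Nat.shiftLeft (nat_lit 0x7) (nat_lit 136)) (.br (Nat.shiftLeft (nat_lit 0x6000004005007009013) (nat_lit 64)) (.one (nat_lit 0x6000004005007009012800a0cf812024611)) (.one (nat_lit 0x6000004005007009013800a0cf812026611))) (.br (Nat.shiftLeft (nat_lit 0x7000001005007009013) (nat_lit 64)) (.one (nat_lit 0x7000001005007009012200a0efc12024611)) (.one (nat_lit 0x7000001005007009013200a0efc12026611))))
def t200 : k200.all (jb2 57 fl b0) = true := by decide +kernel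
noncomputable def k201 : KT := (.br (Nat.shiftLeft (nat_lit 0x7000003005007009013) (nat_lit 64)) (.br (Nat.shiftLeft (nat_lit 0x7000002005007009013) (nat_lit 64)) (.one (nat_lit 0x7000002005007009012400a0efc12024611)) (.br (Nat.shiftLeft (nat_lit 0x7000003) (nat_lit 112)) (.one (nat_lit 0x7000002005007009013400a0efc12026611)) (.one (nat_lit 0x7000003005007009012600a0efc12024611)))) (.br (Nat.shiftLeft (nat_lit 0x1c00001) (nat_lit 114)) (.one (nat_lit 0x7000003005007009013600a0efc12026611)) (.br (Nat.shiftLeft (nat_lit 0x7000004005007009013) (nat_lit 64)) (.one (nat_lit 0x7000004005007009012800a0efc12024611)) (.one (nat_lit 0x7000004005007009013800a0efc12026611)))))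
def t201 : k201.all (jb2 57 fl b0) = true := by decide +kernel
noncomputable def k202 : KT := (.br (Nat.shiftLeft (nat_lit 0x8000002005007009013) (nat_lit 64)) (.br (Nat.shiftLeft (nat_lit 0x8000001005007009013) (nat_lit 64)) (.one (nat_lit 0x8000001005007009012200a110012024611)) (.br (Nat.shiftLeft (nat_lit 0x4000001) (nat_lit 113)) (.one (nat_lit 0x8000001005007009013200a110012026611)) (.one (nat_lit 0x8000002005007009012400a110012024611)))) (.br (Nat.shiftLeft (nat_lit 0x8000003005007009013) (nat_lit 64)) (.br (Nat.shiftLeft (nat_lit 0x8000003) (nat_lit 112)) (.one (nat_lit 0x8000002005007009013400a110012026611)) (.one (nat_lit 0x8000003005007009012600a110012024611))) (.br (Nat.shiftLeft (nat_lit 0x2000001) (nat_lit 114)) (.one (nat_lit 0x8000003005007009013600a110012026611)) (.one (nat_lit 0x8000004005007009012800a110012024611)))))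
def t202 : k202.all (jb2 57 fl b0) = true := by decide +kernel
noncomputable def k203 : KT := (.br (Nat.shiftLeft (nat_lit 0x9000002005007009013) (nat_lit 64)) (.br (Nat.shiftLeft (nat_lit 0x9000001005007009013) (nat_lit 64)) (.br (Nat.shiftLeft (nat_lit 0x9) (nat_lit 136)) (.one (nat_lit 0x8000004005007009013800a110012026611)) (.one (nat_lit 0x9000001005007009012200a130412024611))) (.br (Nat.shiftLeft (nat_lit 0x4800001) (nat_lit 113)) (.one (nat_lit 0x9000001005007009013200a130412026611)) (.one (nat_lit 0x9000002005007009012400a130412024611)))) (.br (Nat.shiftLeft (nat_lit 0x9000003005007009013) (nat_lit 64)) (.br (Nat.shiftLeft (nat_lit 0x9000003) (nat_lit 112)) (.one (nat_lit 0x9000002005007009013400a130412026611)) (.one (nat_lit 0x9000003005007009012600a130412024611))) (.br (Nat.shiftLeft (nat_lit 0x2400001) (nat_lit 114)) (.one (nat_lit 0x9000003005007009013600a130412026611)) (.br (Nat.shiftLeft (nat_lit 0x9000004005007009013) (nat_lit 64)) (.one (nat_lit 0x9000004005007009012800a130412024611)) (.one (nat_lit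 0x9000004005007009013800a130412026611))))))
def t203 : k203.all (jb2 57 fl b0) = true := by decide +kernel
noncomputable def s10 : KT := (.br (nat_lit 0x3004005007009013800a00e072c26760) (.br (nat_lit 0x1004005007009012800a00e032424760) (.br (nat_lit 0x1002005007009012400a00e032424760) (.br (nat_lit 0x1000005007009013000a00e032426511) k181 k182) (.br (nat_lit 0x1002005007009013400a00e032426760) k183 (.br (nat_lit 0x1003005007009012600a00e032424760) k184 k185))) (.br (nat_lit 0x2003005007009013600a00e052826760) (.br (nat_lit 0x2000005007009013000a00e052826511) k186 (.br (nat_lit 0x2003005007009012600a00e052824760) k187 k188)) (.br (nat_lit 0x2004005007009012800a00e052824760) k189 (.br (nat_lit 0x3000005007009013000a00e072c26511) k190 k191)))) (.br (nat_lit 0x5000004005007009013800a0af412026611) (.br (nat_lit 0x3000002005007009012400a06ec12024611) (.br (nat_lit 0x6000005007009012000a00e0d3824511) k192 (.br (nat_lit 0x7000005007009013000a00e0f3c26511) k193 k194)) (.br (nat_lit 0x4000004005007009013800a08f012026611)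 k195 (.br (nat_lit 0x5000002005007009013400a0af412026611) k196 k197))) (.br (nat_lit 0x7000001005007009013200a0efc12026611) (.br (nat_lit 0x6000001005007009013200a0cf812026611) k198 (.br (nat_lit 0x6000003005007009013600a0cf812026611) k199 k200)) (.br (nat_lit 0x7000004005007009013800a0efc12026611) k201 (.br (nat_lit 0x8000004005007009012800a110012024611) k202 k203)))))
noncomputable def u10 : KT := (.br (Nat.shiftLeft (nat_lit 0x5007009013) (nat_lit 64)) (.one (nat_lit 0x5007009012000a00e012024540)) (.one (nat_lit 0x5007009013000a00e012026540)))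
def w10 : u10.all (wj 57 s10) = true := by decide +kernel
def o10 : OkW 57 (jb2 57 fl) u10 := .lift s10 _ (.br _ _ _ (.br _ _ _ (.br _ _ _ (.br _ _ _ (.leaf b0 k181 t181) (.leaf b0 k182 t182)) (.br _ _ _ (.leaf b0 k183 t183) (.br _ _ _ (.leaf b0 k184 t184) (.leaf b0 k185 t185)))) (.br _ _ _ (.br _ _ _ (.leaf b0 k186 t186) (.br _ _ _ (.leaf b0 k187 t187) (.leaf b0 k188 t188))) (.br _ _ _ (.leaf b0 k189 t189) (.br _ _ _ (.leaf b0 k190 t190) (.leaf b0 k191 t191))))) (.br _ _ _ (.br _ _ _ (.br _ _ _ (.leaf b0 k192 t192) (.br _ _ _ (.leaf b0 k193 t193) (.leaf b0 k194 t194))) (.br _ _ _ (.leaf b0 k195 t195) (.br _ _ _ (.leaf b0 k196 t196) (.leaf b0 k197 t197)))) (.br _ _ _ (.br _ _ _ (.leaf b0 k198 t198) (.br _ _ _ (.leaf b0 k199 t199) (.leaf b0 k200 t200))) (.br _ _ _ (.leaf b0 k201 t201) (.br _ _ _ (.leaf b0 k202 t202) (.leaf b0 k203 t203)))))) w10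
noncomputable def k204 : KT := (.br (Nat.shiftLeft (nat_lit 0x500700a00f) (nat_lit 64)) (.br (Nat.shiftLeft (nat_lit 0x1401c02803) (nat_lit 66)) (.br (Nat.shiftLeft (nat_lit 0x2803805) (nat_lit 77)) (.one (nat_lit 0x5007009014000a00e012029500)) (.one (nat_lit 0x500700a00b000a00e014017500))) (.br (Nat.shiftLeft (nat_lit 0x500700a00d) (nat_lit 64)) (.one (nat_lit 0x500700a00c000a00e014019500)) (.br (Nat.shiftLeft (nat_lit 0x2803805007) (nat_lit 65)) (.one (nat_lit 0x500700a00d000a00e01401b500)) (.one (nat_lit 0x500700a00e000a00e01401d500))))) (.br (Nat.shiftLeft (nat_lit 0x3) (nat_lit 112)) (.br (Nat.shiftLeft (nat_lit 0x1) (nat_lit 112)) (.one (nat_lit 0x500700a00f000a00e01401f500)) (.br (Nat.shiftLeft (nat_lit 0x1) (nat_lit 113)) (.one (nat_lit 0x1005007009014200a00e012028650)) (.one (nat_lit 0x2005007009014400a00e012029600)))) (.br (Nat.shiftLeft (nat_lit 0x1) (nat_lit 114)) (.one (nat_lit 0x3005007009014600a00e012029600)) (.br (Nat.shiftLeft (nat_lit 0x1) (nat_lit 124)) (.one (nat_lit 0x4005007009014800a00e012029600))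 (.one (nat_lit 0x1000005007009014000a00e032428511))))))
def t204 : k204.all (jb2 57 fl b0) = true := by decide +kernel
noncomputable def k205 : KT := (.br (Nat.shiftLeft (nat_lit 0x1003) (nat_lit 112)) (.one (nat_lit 0x1002005007009014400a00e032428760)) (.one (nat_lit 0x1003005007009014600a00e032428760)))
def t205 : k205.all (jb2 57 fl b0) = true := by decide +kernel
noncomputable def k206 : KT := (.br (Nat.shiftLeft (nat_lit 0x1001) (nat_lit 113)) (.br (Nat.shiftLeft (nat_lit 0x1) (nat_lit 125)) (.one (nat_lit 0x1004005007009014800a00e032428760)) (.one (nat_lit 0x2000005007009014000a00e052828511))) (.br (Nat.shiftLeft (nat_lit 0x801) (nat_lit 114)) (.one (nat_lit 0x2003005007009014600a00e052828760)) (.br (Nat.shiftLeft (nat_lit 0x3) (nat_lit 124)) (.one (nat_lit 0x2004005007009014800a00e052828760)) (.one (nat_lit 0x3000005007009014000a00e072c28511)))))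
def t206 : k206.all (jb2 57 fl b0) = true := by decide +kernel
noncomputable def k207 : KT := (.br (Nat.shiftLeft (nat_lit 0x3) (nat_lit 125)) (.br (Nat.shiftLeft (nat_lit 0x1) (nat_lit 126)) (.one (nat_lit 0x3004005007009014800a00e072c28760)) (.br (Nat.shiftLeft (nat_lit 0x5) (nat_lit 124)) (.one (nat_lit 0x4000005007009014000a00e093028511)) (.one (nat_lit 0x5000005007009014000a00e0b3428511)))) (.br (Nat.shiftLeft (nat_lit 0x7) (nat_lit 124)) (.one (nat_lit 0x6000005007009014000a00e0d3828511)) (.br (Nat.shiftLeft (nat_lit 0x1) (nat_lit 127)) (.one (nat_lit 0x7000005007009014000a00e0f3c28511)) (.one (nat_lit 0x8000005007009014000a00e114028511)))))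
def t207 : k207.all (jb2 57 fl b0) = true := by decide +kernel
noncomputable def k208 : KT := (.br (Nat.shiftLeft (nat_lit 0xc00001) (nat_lit 114)) (.br (Nat.shiftLeft (nat_lit 0x1) (nat_lit 137)) (.br (Nat.shiftLeft (nat_lit 0x1000003) (nat_lit 112)) (.br (Nat.shiftLeft (nat_lit 0x1) (nat_lit 136)) (.one (nat_lit 0x9000005007009014000a00e134428511)) (.one (nat_lit 0x1000002005007009014400a02e412028611))) (.br (Nat.shiftLeft (nat_lit 0x400001) (nat_lit 114)) (.one (nat_lit 0x1000003005007009014600a02e412028611)) (.one (nat_lit 0x1000004005007009014800a02e412028611)))) (.br (Nat.shiftLeft (nat_lit 0x800001) (nat_lit 114)) (.br (Nat.shiftLeft (nat_lit 0x2000003) (nat_lit 112)) (.one (nat_lit 0x2000002005007009014400a04e812028611)) (.one (nat_lit 0x2000003005007009014600a04e812028611))) (.br (Nat.shiftLeft (nat_lit 0x3) (nat_lit 136)) (.one (nat_lit 0x2000004005007009014800a04e812028611)) (.br (Nat.shiftLeft (nat_lit 0x3000003) (nat_lit 112)) (.one (nat_lit 0x3000002005007009014400a06ec12028611)) (.one (nat_lit 0x3000003005007009014600a06ec12028611))))))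 (.br (Nat.shiftLeft (nat_lit 0x5) (nat_lit 136)) (.br (Nat.shiftLeft (nat_lit 0x4000003) (nat_lit 112)) (.br (Nat.shiftLeft (nat_lit 0x1) (nat_lit 138)) (.one (nat_lit 0x3000004005007009014800a06ec12028611)) (.one (nat_lit 0x4000002005007009014400a08f012028611))) (.br (Nat.shiftLeft (nat_lit 0x1000001) (nat_lit 114)) (.one (nat_lit 0x4000003005007009014600a08f012028611)) (.one (nat_lit 0x4000004005007009014800a08f012028611)))) (.br (Nat.shiftLeft (nat_lit 0x1400001) (nat_lit 114)) (.br (Nat.shiftLeft (nat_lit 0x5000003) (nat_lit 112)) (.one (nat_lit 0x5000002005007009014400a0af412028611)) (.one (nat_lit 0x5000003005007009014600a0af412028611))) (.br (Nat.shiftLeft (nat_lit 0x3) (nat_lit 137)) (.one (nat_lit 0x5000004005007009014800a0af412028611)) (.br (Nat.shiftLeft (nat_lit 0x6000003) (nat_lit 112)) (.one (nat_lit 0x6000002005007009014400a0cf812028611)) (.one (nat_lit 0x6000003005007009014600a0cf812028611)))))))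
def t208 : k208.all (jb2 57 fl b0) = true := by decide +kernel
noncomputable def k209 : KT := (.br (Nat.shiftLeft (nat_lit 0x8000003) (nat_lit 112)) (.br (Nat.shiftLeft (nat_lit 0x7000003) (nat_lit 112)) (.br (Nat.shiftLeft (nat_lit 0x7) (nat_lit 136)) (.one (nat_lit 0x6000004005007009014800a0cf812028611)) (.one (nat_lit 0x7000002005007009014400a0efc12028611))) (.br (Nat.shiftLeft (nat_lit 0x1c00001) (nat_lit 114)) (.one (nat_lit 0x7000003005007009014600a0efc12028611)) (.br (Nat.shiftLeft (nat_lit 0x1) (nat_lit 139)) (.one (nat_lit 0x7000004005007009014800a0efc12028611)) (.one (nat_lit 0x8000002005007009014400a110012028611))))) (.br (Nat.shiftLeft (nat_lit 0x9) (nat_lit 136)) (.br (Nat.shiftLeft (nat_lit 0x2000001) (nat_lit 114)) (.one (nat_lit 0x8000003005007009014600a110012028611)) (.one (nat_lit 0x8000004005007009014800a110012028611))) (.br (Nat.shiftLeft (nat_lit 0x9000003) (nat_lit 112)) (.one (nat_lit 0x9000002005007009014400a130412028611)) (.br (Nat.shiftLeft (nat_lit 0x2400001) (nat_lit 114)) (.one (nat_lit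 0x9000003005007009014600a130412028611)) (.one (nat_lit 0x9000004005007009014800a130412028611))))))
def t209 : k209.all (jb2 57 fl b0) = true := by decide +kernel
noncomputable def s11 : KT := (.br (nat_lit 0x3000005007009014000a00e072c28511) (.br (nat_lit 0x1000005007009014000a00e032428511) k204 (.br (nat_lit 0x1003005007009014600a00e032428760) k205 k206)) (.br (nat_lit 0x8000005007009014000a00e114028511) k207 (.br (nat_lit 0x6000003005007009014600a0cf812028611) k208 k209)))
noncomputable def u11 : KT := (.br (Nat.shiftLeft (nat_lit 0x500700a00d) (nat_lit 64)) (.br (Nat.shiftLeft (nat_lit 0x2803805) (nat_lit 77)) (.one (nat_lit 0x5007009014000a00e012028540)) (.br (Nat.shiftLeft (nat_lit 0x1401c02803) (nat_lit 66)) (.one (nat_lit 0x500700a00b000a00e014017500)) (.one (nat_lit 0x500700a00c000a00e014019500)))) (.br (Nat.shiftLeft (nat_lit 0x2803805007) (nat_lit 65)) (.one (nat_lit 0x500700a00d000a00e01401b500)) (.br (Nat.shiftLeft (nat_lit 0x500700a00f) (nat_lit 64)) (.one (nat_lit 0x500700a00e000a00e01401d500)) (.one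 (nat_lit 0x500700a00f000a00e01401f500)))))
def w11 : u11.all (wj 57 s11) = true := by decide +kernel
def o11 : OkW 57 (jb2 57 fl) u11 := .lift s11 _ (.br _ _ _ (.br _ _ _ (.leaf b0 k204 t204) (.br _ _ _ (.leaf b0 k205 t205) (.leaf b0 k206 t206))) (.br _ _ _ (.leaf b0 k207 t207) (.br _ _ _ (.leaf b0 k208 t208) (.leaf b0 k209 t209)))) w11
noncomputable def k210 : KT := (.br (Nat.shiftLeft (nat_lit 0x1) (nat_lit 124)) (.br (Nat.shiftLeft (nat_lit 0x1) (nat_lit 113)) (.br (Nat.shiftLeft (nat_lit 0x1) (nat_lit 112)) (.one (nat_lit 0x500700a010000a00e014021500)) (.one (nat_lit 0x100500700a010200a00e014021600))) (.br (Nat.shiftLeft (nat_lit 0x3) (nat_lit 112)) (.one (nat_lit 0x200500700a010400a00e014021600)) (.br (Nat.shiftLeft (nat_lit 0x1) (nat_lit 114)) (.one (nat_lit 0x300500700a010600a00e014021600)) (.one (nat_lit 0x400500700a010800a00e014021600))))) (.br (Nat.shiftLeft (nat_lit 0x401) (nat_lit 114)) (.br (Nat.shiftLeft (nat_lit 0x801) (nat_lit 113)) (.one (nat_lit 0x100000500700a010000a00e034420511)) (.br (Nat.shiftLeft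 (nat_lit 0x1003) (nat_lit 112)) (.one (nat_lit 0x100200500700a010400a00e034421700)) (.one (nat_lit 0x100300500700a010600a00e034421700)))) (.br (Nat.shiftLeft (nat_lit 0x1) (nat_lit 125)) (.one (nat_lit 0x100400500700a010800a00e034420760)) (.br (Nat.shiftLeft (nat_lit 0x1001) (nat_lit 113)) (.one (nat_lit 0x200000500700a010000a00e054820511)) (.one (nat_lit 0x200300500700a010600a00e054821700))))))
def t210 : k210.all (jb2 57 fl b0) = true := by decide +kernel
noncomputable def k211 : KT := (.br (Nat.shiftLeft (nat_lit 0x3) (nat_lit 124)) (.one (nat_lit 0x200400500700a010800a00e054820760)) (.one (nat_lit 0x300000500700a010000a00e074c20511)))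
def t211 : k211.all (jb2 57 fl b0) = true := by decide +kernel
noncomputable def k212 : KT := (.br (Nat.shiftLeft (nat_lit 0x1) (nat_lit 126)) (.one (nat_lit 0x300400500700a010800a00e074c20760)) (.one (nat_lit 0x400000500700a010000a00e095020511)))
def t212 : k212.all (jb2 57 fl b0) = true := by decide +kernel
noncomputable def k213 : KT := (.br (Nat.shiftLeft (nat_lit 0x3) (nat_lit 125)) (.one (nat_lit 0x500000500700a010000a00e0b5420511)) (.one (nat_lit 0x600000500700a010000a00e0d5820511)))
def t213 : k213.all (jb2 57 fl b0) = true := by decide +kernel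
noncomputable def k214 : KT := (.br (Nat.shiftLeft (nat_lit 0x1) (nat_lit 127)) (.one (nat_lit 0x700000500700a010000a00e0f5c20511)) (.one (nat_lit 0x800000500700a010000a00e116020511)))
noncomputable def b215 : BT := .node (nat_lit 0x1) (nat_lit 0x1231274a4dc0033170008b7410008900028) .leaf .leaf
def t214 : k214.all (jb2 57 fl b215) = true := by decide +kernel
noncomputable def k215 : KT := (.br (Nat.shiftLeft (nat_lit 0x800001) (nat_lit 113)) (.br (Nat.shiftLeft (nat_lit 0x5) (nat_lit 125)) (.one (nat_lit 0x900000500700a010000a00e136420511)) (.br (Nat.shiftLeft (nat_lit 0x1) (nat_lit 136)) (.one (nat_lit 0xa00000500700a010000a00e156820511)) (.one (nat_lit 0x100000100500700a010200a02e414020611)))) (.br (Nat.shiftLeft (nat_lit 0x1000003) (nat_lit 112)) (.one (nat_lit 0x100000200500700a010400a02e414020611)) (.br (Nat.shiftLeft (nat_lit 0x400001) (nat_lit 114)) (.one (nat_lit 0x100000300500700a010600a02e414020611)) (.one (nat_lit 0x100000400500700a010800a02e414020611)))))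
noncomputable def b216 : BT := .node (nat_lit 0x17) (nat_lit 0x36c897e4be49b92f897e001d4d00045c600196c800653e14b1a59097cdb36da258d2c693825e80065b200994f00465b200596c00274bc00d96c07b669646d9b6c92724be6d924e52c800196c80265b000994f00255be00dd4c80356321cb2258c9d0db36d9a4dc0032d8002ca7400ba98004cb60200582005820058200582004c7003b1003b1003b10029b0029b0029b0029b0029b0029b0029b0029b0029b001e0001e0001e0001e0001e0001e0001e0) .leaf .leaf
def t215 : k215.all (jb2 57 fl b216) = true := by decide +kernel
noncomputable def k216 : KT := (.br (Nat.shiftLeft (nat_lit 0x3) (nat_lit 136)) (.br (Nat.shiftLeft (nat_lit 0x1000001) (nat_lit 113)) (.br (Nat.shiftLeft (nat_lit 0x1) (nat_lit 137)) (.one (nat_lit 0x100200300500700a010600a02e454820870)) (.one (nat_lit 0x200000100500700a010200a04e814020611))) (.br (Nat.shiftLeft (nat_lit 0x2000003) (nat_lit 112)) (.one (nat_lit 0x200000200500700a010400a04e814020611)) (.br (Nat.shiftLeft (nat_lit 0x800001) (nat_lit 114)) (.one (nat_lit 0x200000300500700a010600a04e814020611)) (.one (nat_lit 0x200000400500700a010800a04e814020611)))))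 (.br (Nat.shiftLeft (nat_lit 0xc00001) (nat_lit 114)) (.br (Nat.shiftLeft (nat_lit 0x1800001) (nat_lit 113)) (.one (nat_lit 0x300000100500700a010200a06ec14020611)) (.br (Nat.shiftLeft (nat_lit 0x3000003) (nat_lit 112)) (.one (nat_lit 0x300000200500700a010400a06ec14020611)) (.one (nat_lit 0x300000300500700a010600a06ec14020611)))) (.br (Nat.shiftLeft (nat_lit 0x1) (nat_lit 138)) (.one (nat_lit 0x300000400500700a010800a06ec14020611)) (.br (Nat.shiftLeft (nat_lit 0x2000001) (nat_lit 113)) (.one (nat_lit 0x400000100500700a010200a08f014020611)) (.one (nat_lit 0x400000200500700a010400a08f014020611))))))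
def t216 : k216.all (jb2 57 fl b0) = true := by decide +kernel
noncomputable def k217 : KT := (.br (Nat.shiftLeft (nat_lit 0x5) (nat_lit 136)) (.br (Nat.shiftLeft (nat_lit 0x1000001) (nat_lit 114)) (.one (nat_lit 0x400000300500700a010600a08f014020611)) (.one (nat_lit 0x400000400500700a010800a08f014020611))) (.br (Nat.shiftLeft (nat_lit 0x2800001) (nat_lit 113)) (.one (nat_lit 0x500000100500700a010200a0af414020611)) (.one (nat_lit 0x500000200500700a010400a0af414020611))))
def t217 : k217.all (jb2 57 fl b0) = true := by decide +kernel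
noncomputable def k218 : KT := (.br (Nat.shiftLeft (nat_lit 0x1400001) (nat_lit 114)) (.one (nat_lit 0x500000300500700a010600a0af414020611)) (.one (nat_lit 0x500000400500700a010800a0af414020611)))
noncomputable def b219 : BT := .node (nat_lit 0x1) (nat_lit 0x6d924d4a88de125da6480032d8000ae5c0032da000ac602000e300028) .leaf .leaf
def t218 : k218.all (jb2 57 fl b219) = true := by decide +kernel
noncomputable def k219 : KT := (.one (nat_lit 0x600000100500700a010200a0cf814020611))
noncomputable def b220 : BT := .node (nat_lit 0xb) (nat_lit 0xdb325fa58c003263000ac601db249b15c400419c0008f581001b0001b0001b0001b0001b0001b0001b0001b00015000150000f0000f0) .leaf .leaf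
def t219 : k219.all (jb2 57 fl b220) = true := by decide +kernel
noncomputable def k220 : KT := (.br (Nat.shiftLeft (nat_lit 0x6000003) (nat_lit 112)) (.one (nat_lit 0x600000200500700a010400a0cf814020611)) (.one (nat_lit 0x600000300500700a010600a0cf814020611)))
noncomputable def b221 : BT := .node (nat_lit 0x17) (nat_lit 0xde12b9a58c003357000ab64196325f93a4003a5d000ab781db225da64a4625446d980065b40015ab800572c00156c852316d9a4d4003299000ab681003bc003bc003bc003bc003bc003bc003bc003bc003bc003bc003bc0035c0035c0035c002fc002fc002fc002fc002fc002fc002fc0024100241001e0) .leaf .leaf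
def t220 : k220.all (jb2 57 fl b221) = true := by decide +kernel
noncomputable def k221 : KT := (.br (Nat.shiftLeft (nat_lit 0x7) (nat_lit 136)) (.one (nat_lit 0x600000400500700a010800a0cf814020611)) (.one (nat_lit 0x700000100500700a010200a0efc14020611)))
noncomputable def b222 : BT := .node (nat_lit 0x1) (nat_lit 0x918a59097edb349b24d8002ada000aa8c0032d8000ca6c2000e400028) .leaf .leaf
def t221 : k221.all (jb2 57 fl b222) = true := by decide +kernel
noncomputable def k222 : KT := (.br (Nat.shiftLeft (nat_lit 0x7000003) (nat_lit 112)) (.one (nat_lit 0x700000200500700a010400a0efc14020611)) (.br (Nat.shiftLeft (nat_lit 0x1c00001) (nat_lit 114)) (.one (nat_lit 0x700000300500700a010600a0efc14020611)) (.one (nat_lit 0x700000400500700a010800a0efc14020611))))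
noncomputable def b223 : BT := .node (nat_lit 0x1) (nat_lit 0xdb249b13a40032d8000ac6c10008800028) .leaf .leaf
def t222 : k222.all (jb2 57 fl b223) = true := by decide +kernel
noncomputable def k223 : KT := (.br (Nat.shiftLeft (nat_lit 0x4000001) (nat_lit 113)) (.one (nat_lit 0x800000100500700a010200a110014020611)) (.br (Nat.shiftLeft (nat_lit 0x8000003) (nat_lit 112)) (.one (nat_lit 0x800000200500700a010400a110014020611)) (.one (nat_lit 0x800000300500700a010600a110014020611))))
def t223 : k223.all (jb2 57 fl b0) = true := by decide +kernel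
noncomputable def k224 : KT := (.br (Nat.shiftLeft (nat_lit 0x4800001) (nat_lit 113)) (.br (Nat.shiftLeft (nat_lit 0x9) (nat_lit 136)) (.one (nat_lit 0x800000400500700a010800a110014020611)) (.one (nat_lit 0x900000100500700a010200a130414020611))) (.br (Nat.shiftLeft (nat_lit 0x9000003) (nat_lit 112)) (.one (nat_lit 0x900000200500700a010400a130414020611)) (.br (Nat.shiftLeft (nat_lit 0x2400001) (nat_lit 114)) (.one (nat_lit 0x900000300500700a010600a130414020611)) (.one (nat_lit 0x900000400500700a010800a130414020611)))))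
def t224 : k224.all (jb2 57 fl b0) = true := by decide +kernel
noncomputable def k225 : KT := (.br (Nat.shiftLeft (nat_lit 0x2000001003) (nat_lit 112)) (.br (Nat.shiftLeft (nat_lit 0x1) (nat_lit 148)) (.br (Nat.shiftLeft (nat_lit 0xa000003) (nat_lit 112)) (.br (Nat.shiftLeft (nat_lit 0x5000001) (nat_lit 113)) (.one (nat_lit 0xa00000100500700a010200a150814020611)) (.one (nat_lit 0xa00000200500700a010400a150814020611))) (.br (Nat.shiftLeft (nat_lit 0x2800001) (nat_lit 114)) (.one (nat_lit 0xa00000300500700a010600a150814020611)) (.one (nat_lit 0xa00000400500700a010800a150814020611)))) (.br (Nat.shiftLeft (nat_lit 0x800001) (nat_lit 125)) (.br (Nat.shiftLeft (nat_lit 0x1000001003) (nat_lit 112)) (.one (nat_lit 0x100000100200500700a010402a40e034420711)) (.one (nat_lit 0x100000100300500700a010602a40e034420711))) (.br (Nat.shiftLeft (nat_lit 0x1) (nat_lit 149)) (.one (nat_lit 0x100000200300500700a010602a40e054820711)) (.one (nat_lit 0x200000100200500700a010404a80e034420711))))) (.br (Nat.shiftLeft (nat_lit 0x1800001) (nat_lit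 125)) (.br (Nat.shiftLeft (nat_lit 0x3) (nat_lit 148)) (.br (Nat.shiftLeft (nat_lit 0x1000001) (nat_lit 125)) (.one (nat_lit 0x200000100300500700a010604a80e034420711)) (.one (nat_lit 0x200000200300500700a010604a80e054820711))) (.br (Nat.shiftLeft (nat_lit 0x3000001003) (nat_lit 112)) (.one (nat_lit 0x300000100200500700a010406ac0e034420711)) (.one (nat_lit 0x300000100300500700a010606ac0e034420711)))) (.br (Nat.shiftLeft (nat_lit 0x4000001003) (nat_lit 112)) (.br (Nat.shiftLeft (nat_lit 0x1) (nat_lit 150)) (.one (nat_lit 0x300000200300500700a010606ac0e054820711)) (.one (nat_lit 0x400000100200500700a010408b00e034420711))) (.br (Nat.shiftLeft (nat_lit 0x2000001) (nat_lit 125)) (.one (nat_lit 0x400000100300500700a010608b00e034420711)) (.one (nat_lit 0x400000200300500700a010608b00e054820711))))))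
def t225 : k225.all (jb2 57 fl b0) = true := by decide +kernel
noncomputable def k226 : KT := (.br (Nat.shiftLeft (nat_lit 0x5000001003) (nat_lit 112)) (.one (nat_lit 0x500000100200500700a01040ab40e034420711)) (.br (Nat.shiftLeft (nat_lit 0x2800001) (nat_lit 125)) (.one (nat_lit 0x500000100300500700a01060ab40e034420711)) (.one (nat_lit 0x500000200300500700a01060ab40e054820711))))
noncomputable def b227 : BT := .node (nat_lit 0x2f) (nat_lit 0x1b64db32a236cd2684bf000cb60002b59000ca64002ae20a64526a934000e96400329907784ae69636f0b6cca2cdb2260258c003357000ab64003299000ad64003264000ac60393425f13a4003a98000ac701db225f93a4003a5e0008c781006b1006b1006b1006b1006b1006b1006b1006b1006b1006b1006b1006b1006b1006b1005f6005f6005f6005f6005f6005f6005f6005f6005f6005f6005f6005f6005f6005f6005f6005f600596005960059600596005960059600596005960059600596005960059600480004200042000420003c0003c0) .leaf .leaf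
def t226 : k226.all (jb2 57 fl b227) = true := by decide +kernel
noncomputable def k227 : KT := (.br (Nat.shiftLeft (nat_lit 0x6000001003) (nat_lit 112)) (.one (nat_lit 0x600000100200500700a01040cb80e034420711)) (.br (Nat.shiftLeft (nat_lit 0x3000001) (nat_lit 125)) (.one (nat_lit 0x600000100300500700a01060cb80e034420711)) (.one (nat_lit 0x600000200300500700a01060cb80e054820711))))
noncomputable def b228 : BT := .node (nat_lit 0x11) (nat_lit 0x123128b258c0032db0008c64193528b12e4003356000cb601002290022900229001c8001c800168001680016800168001680016800168001680016800168001680016800168) .leaf .leaf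
def t227 : k227.all (jb2 57 fl b228) = true := by decide +kernel
noncomputable def k228 : KT := (.br (Nat.shiftLeft (nat_lit 0x3800001) (nat_lit 125)) (.br (Nat.shiftLeft (nat_lit 0x7000001003) (nat_lit 112)) (.one (nat_lit 0x700000100200500700a01040ebc0e034420711)) (.one (nat_lit 0x700000100300500700a01060ebc0e034420711))) (.br (Nat.shiftLeft (nat_lit 0x1) (nat_lit 151)) (.one (nat_lit 0x700000200300500700a01060ebc0e054820711)) (.br (Nat.shiftLeft (nat_lit 0x8000001003) (nat_lit 112)) (.one (nat_lit 0x800000100200500700a010410c00e034420711)) (.one (nat_lit 0x800000100300500700a010610c00e034420711)))))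
def t228 : k228.all (jb2 57 fl b0) = true := by decide +kernel
noncomputable def k229 : KT := (.br (Nat.shiftLeft (nat_lit 0x4800001) (nat_lit 125)) (.br (Nat.shiftLeft (nat_lit 0x9) (nat_lit 148)) (.one (nat_lit 0x800000200300500700a010610c00e054820711)) (.br (Nat.shiftLeft (nat_lit 0x9000001003) (nat_lit 112)) (.one (nat_lit 0x900000100200500700a010412c40e034420711)) (.one (nat_lit 0x900000100300500700a010612c40e034420711)))) (.br (Nat.shiftLeft (nat_lit 0xa000001003) (nat_lit 112)) (.br (Nat.shiftLeft (nat_lit 0x5) (nat_lit 149)) (.one (nat_lit 0x900000200300500700a010612c40e054820711)) (.one (nat_lit 0xa00000100200500700a010414c80e034420711))) (.br (Nat.shiftLeft (nat_lit 0x5000001) (nat_lit 125)) (.one (nat_lit 0xa00000100300500700a010614c80e034420711)) (.one (nat_lit 0xa00000200300500700a010614c80e054820711)))))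
def t229 : k229.all (jb2 57 fl b0) = true := by decide +kernel
noncomputable def s12 : KT := (.br (nat_lit 0x600000100500700a010200a0cf814020611) (.br (nat_lit 0x800000500700a010000a00e116020511) (.br (nat_lit 0x300000500700a010000a00e074c20511) (.br (nat_lit 0x200300500700a010600a00e054821700) k210 k211) (.br (nat_lit 0x400000500700a010000a00e095020511) k212 (.br (nat_lit 0x600000500700a010000a00e0d5820511) k213 k214))) (.br (nat_lit 0x400000200500700a010400a08f014020611) (.br (nat_lit 0x100000400500700a010800a02e414020611) k215 k216) (.br (nat_lit 0x500000200500700a010400a0af414020611) k217 (.br (nat_lit 0x500000400500700a010800a0af414020611) k218 k219)))) (.br (nat_lit 0x900000400500700a010800a130414020611) (.br (nat_lit 0x700000100500700a010200a0efc14020611) (.br (nat_lit 0x600000300500700a010600a0cf814020611) k220 k221) (.br (nat_lit 0x700000400500700a010800a0efc14020611) k222 (.br (nat_lit 0x800000300500700a010600a110014020611) k223 k224))) (.br (nat_lit 0x500000200300500700a01060ab40e054820711) (.br (nat_lit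 0x400000200300500700a010608b00e054820711) k225 k226) (.br (nat_lit 0x600000200300500700a01060cb80e054820711) k227 (.br (nat_lit 0x800000100300500700a010610c00e034420711) k228 k229)))))
noncomputable def u12 : KT := (.one (nat_lit 0x500700a010000a00e014020540))
def w12 : u12.all (wj 57 s12) = true := by decide +kernel
def o12 : OkW 57 (jb2 57 fl) u12 := .lift s12 _ (.br _ _ _ (.br _ _ _ (.br _ _ _ (.br _ _ _ (.leaf b0 k210 t210) (.leaf b0 k211 t211)) (.br _ _ _ (.leaf b0 k212 t212) (.br _ _ _ (.leaf b0 k213 t213) (.leaf b215 k214 t214)))) (.br _ _ _ (.br _ _ _ (.leaf b216 k215 t215) (.leaf b0 k216 t216)) (.br _ _ _ (.leaf b0 k217 t217) (.br _ _ _ (.leaf b219 k218 t218) (.leaf b220 k219 t219))))) (.br _ _ _ (.br _ _ _ (.br _ _ _ (.leaf b221 k220 t220) (.leaf b222 k221 t221)) (.br _ _ _ (.leaf b223 k222 t222) (.br _ _ _ (.leaf b0 k223 t223) (.leaf b0 k224 t224)))) (.br _ _ _ (.br _ _ _ (.leaf b0 k225 t225) (.leaf b227 k226 t226)) (.br _ _ _ (.leaf b228 k227 t227) (.br _ _ _ (.leaf b0 k228 t228) (.leaf b0 k229 t229))))))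 w12
noncomputable def k230 : KT := (.br (Nat.shiftLeft (nat_lit 0x1802803805009) (nat_lit 65)) (.br (Nat.shiftLeft (nat_lit 0x802803805009) (nat_lit 65)) (.br (Nat.shiftLeft (nat_lit 0x2803805009) (nat_lit 65)) (.one (nat_lit 0x500700a011000a00e014023500)) (.br (Nat.shiftLeft (nat_lit 0x1) (nat_lit 112)) (.one (nat_lit 0x500700a012000a00e014025500)) (.one (nat_lit 0x100500700a011200a00e014023600)))) (.br (Nat.shiftLeft (nat_lit 0x1002803805009) (nat_lit 65)) (.br (Nat.shiftLeft (nat_lit 0x1) (nat_lit 113)) (.one (nat_lit 0x100500700a012200a00e014025600)) (.one (nat_lit 0x200500700a011400a00e014023600))) (.br (Nat.shiftLeft (nat_lit 0x3) (nat_lit 112)) (.one (nat_lit 0x200500700a012400a00e014025600)) (.one (nat_lit 0x300500700a011600a00e014023600))))) (.br (Nat.shiftLeft (nat_lit 0x1) (nat_lit 124)) (.br (Nat.shiftLeft (nat_lit 0x1) (nat_lit 114)) (.one (nat_lit 0x300500700a012600a00e014025600)) (.br (Nat.shiftLeft (nat_lit 0x2002803805009) (nat_lit 65)) (.one (nat_lit 0x400500700a011800a00e014023600)) (.one (nat_lit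 0x400500700a012800a00e014025600)))) (.br (Nat.shiftLeft (nat_lit 0x801) (nat_lit 113)) (.br (Nat.shiftLeft (nat_lit 0x800002803805009) (nat_lit 65)) (.one (nat_lit 0x100000500700a011000a00e034422511)) (.one (nat_lit 0x100000500700a012000a00e034424511))) (.br (Nat.shiftLeft (nat_lit 0x801002803805009) (nat_lit 65)) (.one (nat_lit 0x100200500700a011400a00e034423700)) (.one (nat_lit 0x100200500700a012400a00e034424760))))))
def t230 : k230.all (jb2 57 fl b0) = true := by decide +kernel
noncomputable def k231 : KT := (.one (nat_lit 0x100300500700a011600a00e034422760))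
def t231 : k231.all (jb2 57 fl b0) = true := by decide +kernel
noncomputable def k232 : KT := (.one (nat_lit 0x100300500700a012600a00e034424760))
def t232 : k232.all (jb2 57 fl b0) = true := by decide +kernel
noncomputable def k233 : KT := (.br (Nat.shiftLeft (nat_lit 0x1) (nat_lit 125)) (.br (Nat.shiftLeft (nat_lit 0x802002803805009) (nat_lit 65)) (.one (nat_lit 0x100400500700a011800a00e034422760)) (.one (nat_lit 0x100400500700a012800a00e034424760))) (.br (Nat.shiftLeft (nat_lit 0x1000002803805009) (nat_lit 65)) (.one (nat_lit 0x200000500700a011000a00e054822511)) (.one (nat_lit 0x200000500700a012000a00e054824511))))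
def t233 : k233.all (jb2 57 fl b0) = true := by decide +kernel
noncomputable def k234 : KT := (.one (nat_lit 0x200300500700a011600a00e054822760))
def t234 : k234.all (jb2 57 fl b0) = true := by decide +kernel
noncomputable def k235 : KT := (.one (nat_lit 0x200300500700a012600a00e054824760))
def t235 : k235.all (jb2 57 fl b0) = true := by decide +kernel
noncomputable def k236 : KT := (.one (nat_lit 0x200400500700a011800a00e054822760))
def t236 : k236.all (jb2 57 fl b0) = true := by decide +kernel
noncomputable def k237 : KT := (.br (Nat.shiftLeft (nat_lit 0x3) (nat_lit 124)) (.one (nat_lit 0x200400500700a012800a00e054824760)) (.br (Nat.shiftLeft (nat_lit 0x1800002803805009) (nat_lit 65)) (.one (nat_lit 0x300000500700a011000a00e074c22511)) (.one (nat_lit 0x300000500700a012000a00e074c24511))))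
def t237 : k237.all (jb2 57 fl b0) = true := by decide +kernel
noncomputable def k238 : KT := (.br (Nat.shiftLeft (nat_lit 0x1802002803805009) (nat_lit 65)) (.one (nat_lit 0x300400500700a011800a00e074c22760)) (.one (nat_lit 0x300400500700a012800a00e074c24760)))
def t238 : k238.all (jb2 57 fl b0) = true := by decide +kernel
noncomputable def k239 : KT := (.br (Nat.shiftLeft (nat_lit 0x5) (nat_lit 124)) (.br (Nat.shiftLeft (nat_lit 0x2000002803805009) (nat_lit 65)) (.one (nat_lit 0x400000500700a011000a00e095022511)) (.one (nat_lit 0x400000500700a012000a00e095024511))) (.br (Nat.shiftLeft (nat_lit 0x2800002803805009) (nat_lit 65)) (.one (nat_lit 0x500000500700a011000a00e0b5422511)) (.br (Nat.shiftLeft (nat_lit 0x3) (nat_lit 125)) (.one (nat_lit 0x500000500700a012000a00e0b5424511)) (.one (nat_lit 0x600000500700a011000a00e0d5822511)))))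
def t239 : k239.all (jb2 57 fl b0) = true := by decide +kernel
noncomputable def k240 : KT := (.br (Nat.shiftLeft (nat_lit 0x7) (nat_lit 124)) (.one (nat_lit 0x600000500700a012000a00e0d5824511)) (.br (Nat.shiftLeft (nat_lit 0x3800002803805009) (nat_lit 65)) (.one (nat_lit 0x700000500700a011000a00e0f5c22511)) (.one (nat_lit 0x700000500700a012000a00e0f5c24511))))
def t240 : k240.all (jb2 57 fl b0) = true := by decide +kernel
noncomputable def k241 : KT := (.br (Nat.shiftLeft (nat_lit 0x9) (nat_lit 124)) (.br (Nat.shiftLeft (nat_lit 0x4000002803805009) (nat_lit 65)) (.one (nat_lit 0x800000500700a011000a00e116022511)) (.one (nat_lit 0x800000500700a012000a00e116024511))) (.br (Nat.shiftLeft (nat_lit 0x4800002803805009) (nat_lit 65)) (.one (nat_lit 0x900000500700a011000a00e136422511)) (.one (nat_lit 0x900000500700a012000a00e136424511))))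
noncomputable def b242 : BT := .node (nat_lit 0x1) (nat_lit 0x96326024e00032a0000ca7410008800028) .leaf .leaf
def t241 : k241.all (jb2 57 fl b242) = true := by decide +kernel
noncomputable def k242 : KT := (.br (Nat.shiftLeft (nat_lit 0x1000001802803805009) (nat_lit 65)) (.br (Nat.shiftLeft (nat_lit 0x800001802803805009) (nat_lit 65)) (.br (Nat.shiftLeft (nat_lit 0x800000802803805009) (nat_lit 65)) (.br (Nat.shiftLeft (nat_lit 0x5000002803805009) (nat_lit 65)) (.one (nat_lit 0xa00000500700a011000a00e156822511)) (.br (Nat.shiftLeft (nat_lit 0x1) (nat_lit 136)) (.one (nat_lit 0xa00000500700a012000a00e156824511)) (.one (nat_lit 0x100000100500700a011200a02e414022611)))) (.br (Nat.shiftLeft (nat_lit 0x800001002803805009) (nat_lit 65)) (.br (Nat.shiftLeft (nat_lit 0x800001) (nat_lit 113)) (.one (nat_lit 0x100000100500700a012200a02e414024611)) (.one (nat_lit 0x100000200500700a011400a02e414022611))) (.br (Nat.shiftLeft (nat_lit 0x1000003) (nat_lit 112)) (.one (nat_lit 0x100000200500700a012400a02e414024611)) (.one (nat_lit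 0x100000300500700a011600a02e414022611))))) (.br (Nat.shiftLeft (nat_lit 0x1000000802803805009) (nat_lit 65)) (.br (Nat.shiftLeft (nat_lit 0x800002002803805009) (nat_lit 65)) (.br (Nat.shiftLeft (nat_lit 0x400001) (nat_lit 114)) (.one (nat_lit 0x100000300500700a012600a02e414024611)) (.one (nat_lit 0x100000400500700a011800a02e414022611))) (.br (Nat.shiftLeft (nat_lit 0x1) (nat_lit 137)) (.one (nat_lit 0x100000400500700a012800a02e414024611)) (.one (nat_lit 0x200000100500700a011200a04e814022611)))) (.br (Nat.shiftLeft (nat_lit 0x1000001002803805009) (nat_lit 65)) (.br (Nat.shiftLeft (nat_lit 0x1000001) (nat_lit 113)) (.one (nat_lit 0x200000100500700a012200a04e814024611)) (.one (nat_lit 0x200000200500700a011400a04e814022611))) (.br (Nat.shiftLeft (nat_lit 0x2000003) (nat_lit 112)) (.one (nat_lit 0x200000200500700a012400a04e814024611)) (.one (nat_lit 0x200000300500700a011600a04e814022611)))))) (.br (Nat.shiftLeft (nat_lit 0x3000003) (nat_lit 112)) (.br (Nat.shiftLeft (nat_lit 0x3) (nat_lit 136)) (.br (Nat.shiftLeft (nat_lit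 0x800001) (nat_lit 114)) (.one (nat_lit 0x200000300500700a012600a04e814024611)) (.br (Nat.shiftLeft (nat_lit 0x1000002002803805009) (nat_lit 65)) (.one (nat_lit 0x200000400500700a011800a04e814022611)) (.one (nat_lit 0x200000400500700a012800a04e814024611)))) (.br (Nat.shiftLeft (nat_lit 0x1800001) (nat_lit 113)) (.br (Nat.shiftLeft (nat_lit 0x1800000802803805009) (nat_lit 65)) (.one (nat_lit 0x300000100500700a011200a06ec14022611)) (.one (nat_lit 0x300000100500700a012200a06ec14024611))) (.br (Nat.shiftLeft (nat_lit 0x1800001002803805009) (nat_lit 65)) (.one (nat_lit 0x300000200500700a011400a06ec14022611)) (.one (nat_lit 0x300000200500700a012400a06ec14024611))))) (.br (Nat.shiftLeft (nat_lit 0x1) (nat_lit 138)) (.br (Nat.shiftLeft (nat_lit 0xc00001) (nat_lit 114)) (.br (Nat.shiftLeft (nat_lit 0x1800001802803805009) (nat_lit 65)) (.one (nat_lit 0x300000300500700a011600a06ec14022611)) (.one (nat_lit 0x300000300500700a012600a06ec14024611))) (.br (Nat.shiftLeft (nat_lit 0x1800002002803805009) (nat_lit 65)) (.one (nat_lit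 0x300000400500700a011800a06ec14022611)) (.one (nat_lit 0x300000400500700a012800a06ec14024611)))) (.br (Nat.shiftLeft (nat_lit 0x2000001) (nat_lit 113)) (.br (Nat.shiftLeft (nat_lit 0x2000000802803805009) (nat_lit 65)) (.one (nat_lit 0x400000100500700a011200a08f014022611)) (.one (nat_lit 0x400000100500700a012200a08f014024611))) (.br (Nat.shiftLeft (nat_lit 0x2000001002803805009) (nat_lit 65)) (.one (nat_lit 0x400000200500700a011400a08f014022611)) (.one (nat_lit 0x400000200500700a012400a08f014024611)))))))
def t242 : k242.all (jb2 57 fl b0) = true := by decide +kernel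
noncomputable def k243 : KT := (.br (Nat.shiftLeft (nat_lit 0x2000002002803805009) (nat_lit 65)) (.br (Nat.shiftLeft (nat_lit 0x2000001802803805009) (nat_lit 65)) (.one (nat_lit 0x400000300500700a011600a08f014022611)) (.br (Nat.shiftLeft (nat_lit 0x1000001) (nat_lit 114)) (.one (nat_lit 0x400000300500700a012600a08f014024611)) (.one (nat_lit 0x400000400500700a011800a08f014022611)))) (.br (Nat.shiftLeft (nat_lit 0x5) (nat_lit 136)) (.one (nat_lit 0x400000400500700a012800a08f014024611)) (.br (Nat.shiftLeft (nat_lit 0x2800000802803805009) (nat_lit 65)) (.one (nat_lit 0x500000100500700a011200a0af414022611)) (.one (nat_lit 0x500000100500700a012200a0af414024611)))))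
def t243 : k243.all (jb2 57 fl b0) = true := by decide +kernel
noncomputable def k244 : KT := (.br (Nat.shiftLeft (nat_lit 0x5000003) (nat_lit 112)) (.br (Nat.shiftLeft (nat_lit 0x2800001002803805009) (nat_lit 65)) (.one (nat_lit 0x500000200500700a011400a0af414022611)) (.one (nat_lit 0x500000200500700a012400a0af414024611))) (.br (Nat.shiftLeft (nat_lit 0x2800001802803805009) (nat_lit 65)) (.one (nat_lit 0x500000300500700a011600a0af414022611)) (.one (nat_lit 0x500000300500700a012600a0af414024611))))
def t244 : k244.all (jb2 57 fl b0) = true := by decide +kernel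
noncomputable def k245 : KT := (.br (Nat.shiftLeft (nat_lit 0x3) (nat_lit 137)) (.br (Nat.shiftLeft (nat_lit 0x2800002002803805009) (nat_lit 65)) (.one (nat_lit 0x500000400500700a011800a0af414022611)) (.one (nat_lit 0x500000400500700a012800a0af414024611))) (.br (Nat.shiftLeft (nat_lit 0x3000000802803805009) (nat_lit 65)) (.one (nat_lit 0x600000100500700a011200a0cf814022611)) (.one (nat_lit 0x600000100500700a012200a0cf814024611))))
def t245 : k245.all (jb2 57 fl b0) = true := by decide +kernel
noncomputable def k246 : KT := (.br (Nat.shiftLeft (nat_lit 0x6000003) (nat_lit 112)) (.br (Nat.shiftLeft (nat_lit 0x3000001002803805009) (nat_lit 65)) (.one (nat_lit 0x600000200500700a011400a0cf814022611)) (.one (nat_lit 0x600000200500700a012400a0cf814024611))) (.br (Nat.shiftLeft (nat_lit 0x3000001802803805009) (nat_lit 65)) (.one (nat_lit 0x600000300500700a011600a0cf814022611)) (.one (nat_lit 0x600000300500700a012600a0cf814024611))))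
def t246 : k246.all (jb2 57 fl b0) = true := by decide +kernel
noncomputable def k247 : KT := (.br (Nat.shiftLeft (nat_lit 0x7) (nat_lit 136)) (.br (Nat.shiftLeft (nat_lit 0x3000002002803805009) (nat_lit 65)) (.one (nat_lit 0x600000400500700a011800a0cf814022611)) (.one (nat_lit 0x600000400500700a012800a0cf814024611))) (.br (Nat.shiftLeft (nat_lit 0x3800000802803805009) (nat_lit 65)) (.one (nat_lit 0x700000100500700a011200a0efc14022611)) (.one (nat_lit 0x700000100500700a012200a0efc14024611))))
def t247 : k247.all (jb2 57 fl b0) = true := by decide +kernel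
noncomputable def k248 : KT := (.br (Nat.shiftLeft (nat_lit 0x3800001802803805009) (nat_lit 65)) (.br (Nat.shiftLeft (nat_lit 0x3800001002803805009) (nat_lit 65)) (.one (nat_lit 0x700000200500700a011400a0efc14022611)) (.br (Nat.shiftLeft (nat_lit 0x7000003) (nat_lit 112)) (.one (nat_lit 0x700000200500700a012400a0efc14024611)) (.one (nat_lit 0x700000300500700a011600a0efc14022611)))) (.br (Nat.shiftLeft (nat_lit 0x1c00001) (nat_lit 114)) (.one (nat_lit 0x700000300500700a012600a0efc14024611)) (.br (Nat.shiftLeft (nat_lit 0x3800002002803805009) (nat_lit 65)) (.one (nat_lit 0x700000400500700a011800a0efc14022611)) (.one (nat_lit 0x700000400500700a012800a0efc14024611)))))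
def t248 : k248.all (jb2 57 fl b0) = true := by decide +kernel
noncomputable def k249 : KT := (.br (Nat.shiftLeft (nat_lit 0x4000001002803805009) (nat_lit 65)) (.br (Nat.shiftLeft (nat_lit 0x4000000802803805009) (nat_lit 65)) (.one (nat_lit 0x800000100500700a011200a110014022611)) (.br (Nat.shiftLeft (nat_lit 0x4000001) (nat_lit 113)) (.one (nat_lit 0x800000100500700a012200a110014024611)) (.one (nat_lit 0x800000200500700a011400a110014022611)))) (.br (Nat.shiftLeft (nat_lit 0x8000003) (nat_lit 112)) (.one (nat_lit 0x800000200500700a012400a110014024611)) (.br (Nat.shiftLeft (nat_lit 0x4000001802803805009) (nat_lit 65)) (.one (nat_lit 0x800000300500700a011600a110014022611)) (.one (nat_lit 0x800000300500700a012600a110014024611)))))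
def t249 : k249.all (jb2 57 fl b0) = true := by decide +kernel
noncomputable def k250 : KT := (.br (Nat.shiftLeft (nat_lit 0x4800001002803805009) (nat_lit 65)) (.br (Nat.shiftLeft (nat_lit 0x9) (nat_lit 136)) (.br (Nat.shiftLeft (nat_lit 0x4000002002803805009) (nat_lit 65)) (.one (nat_lit 0x800000400500700a011800a110014022611)) (.one (nat_lit 0x800000400500700a012800a110014024611))) (.br (Nat.shiftLeft (nat_lit 0x4800000802803805009) (nat_lit 65)) (.one (nat_lit 0x900000100500700a011200a130414022611)) (.br (Nat.shiftLeft (nat_lit 0x4800001) (nat_lit 113)) (.one (nat_lit 0x900000100500700a012200a130414024611)) (.one (nat_lit 0x900000200500700a011400a130414022611))))) (.br (Nat.shiftLeft (nat_lit 0x2400001) (nat_lit 114)) (.br (Nat.shiftLeft (nat_lit 0x9000003) (nat_lit 112)) (.one (nat_lit 0x900000200500700a012400a130414024611)) (.br (Nat.shiftLeft (nat_lit 0x4800001802803805009) (nat_lit 65)) (.one (nat_lit 0x900000300500700a011600a130414022611)) (.one (nat_lit 0x900000300500700a012600a130414024611)))) (.br (Nat.shiftLeft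 (nat_lit 0x4800002002803805009) (nat_lit 65)) (.one (nat_lit 0x900000400500700a011800a130414022611)) (.br (Nat.shiftLeft (nat_lit 0x5) (nat_lit 137)) (.one (nat_lit 0x900000400500700a012800a130414024611)) (.one (nat_lit 0xa00000100500700a011200a150814022611))))))
def t250 : k250.all (jb2 57 fl b0) = true := by decide +kernel
noncomputable def k251 : KT := (.br (Nat.shiftLeft (nat_lit 0x5000002002803805009) (nat_lit 65)) (.br (Nat.shiftLeft (nat_lit 0xa000003) (nat_lit 112)) (.br (Nat.shiftLeft (nat_lit 0x5000001) (nat_lit 113)) (.one (nat_lit 0xa00000100500700a012200a150814024611)) (.br (Nat.shiftLeft (nat_lit 0x5000001002803805009) (nat_lit 65)) (.one (nat_lit 0xa00000200500700a011400a150814022611)) (.one (nat_lit 0xa00000200500700a012400a150814024611)))) (.br (Nat.shiftLeft (nat_lit 0x5000001802803805009) (nat_lit 65)) (.one (nat_lit 0xa00000300500700a011600a150814022611)) (.br (Nat.shiftLeft (nat_lit 0x2800001) (nat_lit 114)) (.one (nat_lit 0xa00000300500700a012600a150814024611)) (.one (nat_lit 0xa00000400500700a011800a150814022611)))))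 (.br (Nat.shiftLeft (nat_lit 0x3) (nat_lit 148)) (.br (Nat.shiftLeft (nat_lit 0x1) (nat_lit 148)) (.one (nat_lit 0xa00000400500700a012800a150814024611)) (.br (Nat.shiftLeft (nat_lit 0x1) (nat_lit 149)) (.one (nat_lit 0x100000100200500700a011402a40e034422711)) (.one (nat_lit 0x200000100200500700a011404a80e034422711)))) (.br (Nat.shiftLeft (nat_lit 0x5) (nat_lit 148)) (.br (Nat.shiftLeft (nat_lit 0x1) (nat_lit 150)) (.one (nat_lit 0x300000100200500700a011406ac0e034422711)) (.one (nat_lit 0x400000100200500700a011408b00e034422711))) (.br (Nat.shiftLeft (nat_lit 0x3) (nat_lit 149)) (.one (nat_lit 0x500000100200500700a01140ab40e034422711)) (.one (nat_lit 0x600000100200500700a01140cb80e034422711))))))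
def t251 : k251.all (jb2 57 fl b0) = true := by decide +kernel
noncomputable def k252 : KT := (.br (Nat.shiftLeft (nat_lit 0x9) (nat_lit 148)) (.br (Nat.shiftLeft (nat_lit 0x1) (nat_lit 151)) (.one (nat_lit 0x700000100200500700a01140ebc0e034422711)) (.one (nat_lit 0x800000100200500700a011410c00e034422711))) (.br (Nat.shiftLeft (nat_lit 0x5) (nat_lit 149)) (.one (nat_lit 0x900000100200500700a011412c40e034422711)) (.one (nat_lit 0xa00000100200500700a011414c80e034422711))))
def t252 : k252.all (jb2 57 fl b0) = true := by decide +kernel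
noncomputable def s13 : KT := (.br (nat_lit 0x700000500700a012000a00e0f5c24511) (.br (nat_lit 0x200300500700a011600a00e054822760) (.br (nat_lit 0x100300500700a011600a00e034422760) (.br (nat_lit 0x100200500700a012400a00e034424760) k230 k231) (.br (nat_lit 0x100300500700a012600a00e034424760) k232 (.br (nat_lit 0x200000500700a012000a00e054824511) k233 k234))) (.br (nat_lit 0x300000500700a012000a00e074c24511) (.br (nat_lit 0x200300500700a012600a00e054824760) k235 (.br (nat_lit 0x200400500700a011800a00e054822760) k236 k237)) (.br (nat_lit 0x300400500700a012800a00e074c24760) k238 (.br (nat_lit 0x600000500700a011000a00e0d5822511) k239 k240)))) (.br (nat_lit 0x600000300500700a012600a0cf814024611) (.br (nat_lit 0x500000100500700a012200a0af414024611) (.br (nat_lit 0x900000500700a012000a00e136424511) k241 (.br (nat_lit 0x400000200500700a012400a08f014024611) k242 k243)) (.br (nat_lit 0x500000300500700a012600a0af414024611) k244 (.br (nat_lit 0x600000100500700a012200a0cf814024611) k245 k246))) (.br (nat_lit 0x800000300500700a012600a110014024611)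 (.br (nat_lit 0x700000100500700a012200a0efc14024611) k247 (.br (nat_lit 0x700000400500700a012800a0efc14024611) k248 k249)) (.br (nat_lit 0xa00000100500700a011200a150814022611) k250 (.br (nat_lit 0x600000100200500700a01140cb80e034422711) k251 k252)))))
noncomputable def u13 : KT := (.br (Nat.shiftLeft (nat_lit 0x2803805009) (nat_lit 65)) (.one (nat_lit 0x500700a011000a00e014022540)) (.one (nat_lit 0x500700a012000a00e014024540)))
def w13 : u13.all (wj 57 s13) = true := by decide +kernel
def o13 : OkW 57 (jb2 57 fl) u13 := .lift s13 _ (.br _ _ _ (.br _ _ _ (.br _ _ _ (.br _ _ _ (.leaf b0 k230 t230) (.leaf b0 k231 t231)) (.br _ _ _ (.leaf b0 k232 t232) (.br _ _ _ (.leaf b0 k233 t233) (.leaf b0 k234 t234)))) (.br _ _ _ (.br _ _ _ (.leaf b0 k235 t235) (.br _ _ _ (.leaf b0 k236 t236) (.leaf b0 k237 t237))) (.br _ _ _ (.leaf b0 k238 t238) (.br _ _ _ (.leaf b0 k239 t239) (.leaf b0 k240 t240))))) (.br _ _ _ (.br _ _ _ (.br _ _ _ (.leaf b242 k241 t241) (.br _ _ _ (.leaf b0 k242 t242) (.leaf b0 k243 t243))) (.br _ _ _ (.leaf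 b0 k244 t244) (.br _ _ _ (.leaf b0 k245 t245) (.leaf b0 k246 t246)))) (.br _ _ _ (.br _ _ _ (.leaf b0 k247 t247) (.br _ _ _ (.leaf b0 k248 t248) (.leaf b0 k249 t249))) (.br _ _ _ (.leaf b0 k250 t250) (.br _ _ _ (.leaf b0 k251 t251) (.leaf b0 k252 t252)))))) w13
noncomputable def k253 : KT := (.br (Nat.shiftLeft (nat_lit 0x1) (nat_lit 112)) (.br (Nat.shiftLeft (nat_lit 0x500700b00d) (nat_lit 64)) (.br (Nat.shiftLeft (nat_lit 0x500700b) (nat_lit 76)) (.one (nat_lit 0x500700a013000a00e014027500)) (.one (nat_lit 0x500700b00c000a00e016019500))) (.br (Nat.shiftLeft (nat_lit 0x2803805807) (nat_lit 65)) (.one (nat_lit 0x500700b00d000a00e01601b500)) (.one (nat_lit 0x500700b00e000a00e01601d500)))) (.br (Nat.shiftLeft (nat_lit 0x3) (nat_lit 112)) (.br (Nat.shiftLeft (nat_lit 0x1) (nat_lit 113)) (.one (nat_lit 0x100500700a013200a00e014026650)) (.one (nat_lit 0x200500700a013400a00e014027600))) (.br (Nat.shiftLeft (nat_lit 0x1) (nat_lit 114)) (.one (nat_lit 0x300500700a013600a00e014027600)) (.br (Nat.shiftLeft (nat_lit 0x1) (nat_lit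 124)) (.one (nat_lit 0x400500700a013800a00e014027600)) (.one (nat_lit 0x100000500700a013000a00e034426511))))))
def t253 : k253.all (jb2 57 fl b0) = true := by decide +kernel
noncomputable def k254 : KT := (.br (Nat.shiftLeft (nat_lit 0x1003) (nat_lit 112)) (.one (nat_lit 0x100200500700a013400a00e034426760)) (.one (nat_lit 0x100300500700a013600a00e034426760)))
def t254 : k254.all (jb2 57 fl b0) = true := by decide +kernel
noncomputable def k255 : KT := (.br (Nat.shiftLeft (nat_lit 0x1001) (nat_lit 113)) (.br (Nat.shiftLeft (nat_lit 0x1) (nat_lit 125)) (.one (nat_lit 0x100400500700a013800a00e034426760)) (.one (nat_lit 0x200000500700a013000a00e054826511))) (.br (Nat.shiftLeft (nat_lit 0x801) (nat_lit 114)) (.one (nat_lit 0x200300500700a013600a00e054826760)) (.br (Nat.shiftLeft (nat_lit 0x3) (nat_lit 124)) (.one (nat_lit 0x200400500700a013800a00e054826760)) (.one (nat_lit 0x300000500700a013000a00e074c26511)))))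
def t255 : k255.all (jb2 57 fl b0) = true := by decide +kernel
noncomputable def k256 : KT := (.br (Nat.shiftLeft (nat_lit 0x5) (nat_lit 124)) (.br (Nat.shiftLeft (nat_lit 0x1) (nat_lit 126)) (.one (nat_lit 0x300400500700a013800a00e074c26760)) (.one (nat_lit 0x400000500700a013000a00e095026511))) (.br (Nat.shiftLeft (nat_lit 0x3) (nat_lit 125)) (.one (nat_lit 0x500000500700a013000a00e0b5426511)) (.br (Nat.shiftLeft (nat_lit 0x7) (nat_lit 124)) (.one (nat_lit 0x600000500700a013000a00e0d5826511)) (.one (nat_lit 0x700000500700a013000a00e0f5c26511)))))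
def t256 : k256.all (jb2 57 fl b0) = true := by decide +kernel
noncomputable def k257 : KT := (.br (Nat.shiftLeft (nat_lit 0x3) (nat_lit 136)) (.br (Nat.shiftLeft (nat_lit 0x1000003) (nat_lit 112)) (.br (Nat.shiftLeft (nat_lit 0x5) (nat_lit 125)) (.br (Nat.shiftLeft (nat_lit 0x9) (nat_lit 124)) (.one (nat_lit 0x800000500700a013000a00e116026511)) (.one (nat_lit 0x900000500700a013000a00e136426511))) (.br (Nat.shiftLeft (nat_lit 0x1) (nat_lit 136)) (.one (nat_lit 0xa00000500700a013000a00e156826511)) (.one (nat_lit 0x100000200500700a013400a02e414026611)))) (.br (Nat.shiftLeft (nat_lit 0x1) (nat_lit 137)) (.br (Nat.shiftLeft (nat_lit 0x400001) (nat_lit 114)) (.one (nat_lit 0x100000300500700a013600a02e414026611)) (.one (nat_lit 0x100000400500700a013800a02e414026611))) (.br (Nat.shiftLeft (nat_lit 0x2000003) (nat_lit 112)) (.one (nat_lit 0x200000200500700a013400a04e814026611)) (.br (Nat.shiftLeft (nat_lit 0x800001) (nat_lit 114)) (.one (nat_lit 0x200000300500700a013600a04e814026611)) (.one (nat_lit 0x200000400500700a013800a04e814026611))))))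 (.br (Nat.shiftLeft (nat_lit 0x4000003) (nat_lit 112)) (.br (Nat.shiftLeft (nat_lit 0xc00001) (nat_lit 114)) (.br (Nat.shiftLeft (nat_lit 0x3000003) (nat_lit 112)) (.one (nat_lit 0x300000200500700a013400a06ec14026611)) (.one (nat_lit 0x300000300500700a013600a06ec14026611))) (.br (Nat.shiftLeft (nat_lit 0x1) (nat_lit 138)) (.one (nat_lit 0x300000400500700a013800a06ec14026611)) (.one (nat_lit 0x400000200500700a013400a08f014026611)))) (.br (Nat.shiftLeft (nat_lit 0x5) (nat_lit 136)) (.br (Nat.shiftLeft (nat_lit 0x1000001) (nat_lit 114)) (.one (nat_lit 0x400000300500700a013600a08f014026611)) (.one (nat_lit 0x400000400500700a013800a08f014026611))) (.br (Nat.shiftLeft (nat_lit 0x5000003) (nat_lit 112)) (.one (nat_lit 0x500000200500700a013400a0af414026611)) (.br (Nat.shiftLeft (nat_lit 0x1400001) (nat_lit 114)) (.one (nat_lit 0x500000300500700a013600a0af414026611)) (.one (nat_lit 0x500000400500700a013800a0af414026611)))))))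
def t257 : k257.all (jb2 57 fl b0) = true := by decide +kernel
noncomputable def k258 : KT := (.br (Nat.shiftLeft (nat_lit 0x8000003) (nat_lit 112)) (.br (Nat.shiftLeft (nat_lit 0x7) (nat_lit 136)) (.br (Nat.shiftLeft (nat_lit 0x6000003) (nat_lit 112)) (.one (nat_lit 0x600000200500700a013400a0cf814026611)) (.br (Nat.shiftLeft (nat_lit 0x1800001) (nat_lit 114)) (.one (nat_lit 0x600000300500700a013600a0cf814026611)) (.one (nat_lit 0x600000400500700a013800a0cf814026611)))) (.br (Nat.shiftLeft (nat_lit 0x1c00001) (nat_lit 114)) (.br (Nat.shiftLeft (nat_lit 0x7000003) (nat_lit 112)) (.one (nat_lit 0x700000200500700a013400a0efc14026611)) (.one (nat_lit 0x700000300500700a013600a0efc14026611))) (.br (Nat.shiftLeft (nat_lit 0x1) (nat_lit 139)) (.one (nat_lit 0x700000400500700a013800a0efc14026611)) (.one (nat_lit 0x800000200500700a013400a110014026611))))) (.br (Nat.shiftLeft (nat_lit 0x2400001) (nat_lit 114)) (.br (Nat.shiftLeft (nat_lit 0x9) (nat_lit 136)) (.br (Nat.shiftLeft (nat_lit 0x2000001) (nat_lit 114)) (.one (nat_lit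 0x800000300500700a013600a110014026611)) (.one (nat_lit 0x800000400500700a013800a110014026611))) (.br (Nat.shiftLeft (nat_lit 0x9000003) (nat_lit 112)) (.one (nat_lit 0x900000200500700a013400a130414026611)) (.one (nat_lit 0x900000300500700a013600a130414026611)))) (.br (Nat.shiftLeft (nat_lit 0xa000003) (nat_lit 112)) (.br (Nat.shiftLeft (nat_lit 0x5) (nat_lit 137)) (.one (nat_lit 0x900000400500700a013800a130414026611)) (.one (nat_lit 0xa00000200500700a013400a150814026611))) (.br (Nat.shiftLeft (nat_lit 0x2800001) (nat_lit 114)) (.one (nat_lit 0xa00000300500700a013600a150814026611)) (.one (nat_lit 0xa00000400500700a013800a150814026611))))))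
def t258 : k258.all (jb2 57 fl b0) = true := by decide +kernel
noncomputable def s14 : KT := (.br (nat_lit 0x300000500700a013000a00e074c26511) (.br (nat_lit 0x100000500700a013000a00e034426511) k253 (.br (nat_lit 0x100300500700a013600a00e034426760) k254 k255)) (.br (nat_lit 0x700000500700a013000a00e0f5c26511) k256 (.br (nat_lit 0x500000400500700a013800a0af414026611) k257 k258)))
noncomputable def u14 : KT := (.br (Nat.shiftLeft (nat_lit 0x500700b00d) (nat_lit 64)) (.br (Nat.shiftLeft (nat_lit 0x500700b) (nat_lit 76)) (.one (nat_lit 0x500700a013000a00e014026540)) (.one (nat_lit 0x500700b00c000a00e016019500))) (.br (Nat.shiftLeft (nat_lit 0x2803805807) (nat_lit 65)) (.one (nat_lit 0x500700b00d000a00e01601b500)) (.one (nat_lit 0x500700b00e000a00e01601d500))))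
def w14 : u14.all (wj 57 s14) = true := by decide +kernel
def o14 : OkW 57 (jb2 57 fl) u14 := .lift s14 _ (.br _ _ _ (.br _ _ _ (.leaf b0 k253 t253) (.br _ _ _ (.leaf b0 k254 t254) (.leaf b0 k255 t255))) (.br _ _ _ (.leaf b0 k256 t256) (.br _ _ _ (.leaf b0 k257 t257) (.leaf b0 k258 t258)))) w14
noncomputable def k259 : KT := (.br (Nat.shiftLeft (nat_lit 0x1) (nat_lit 124)) (.br (Nat.shiftLeft (nat_lit 0x1) (nat_lit 113)) (.br (Nat.shiftLeft (nat_lit 0x1) (nat_lit 112)) (.one (nat_lit 0x500700b00f000a00e01601f500)) (.one (nat_lit 0x100500700b00f200a00e01601f600))) (.br (Nat.shiftLeft (nat_lit 0x3) (nat_lit 112)) (.one (nat_lit 0x200500700b00f400a00e01601f600)) (.br (Nat.shiftLeft (nat_lit 0x1) (nat_lit 114)) (.one (nat_lit 0x300500700b00f600a00e01601f600)) (.one (nat_lit 0x400500700b00f800a00e01601f600))))) (.br (Nat.shiftLeft (nat_lit 0x401) (nat_lit 114)) (.br (Nat.shiftLeft (nat_lit 0x801) (nat_lit 113)) (.one (nat_lit 0x100000500700b00f000a00e03641e511)) (.br (Nat.shiftLeft (nat_lit 0x1003) (nat_lit 112)) (.one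 (nat_lit 0x100200500700b00f400a00e03641f700)) (.one (nat_lit 0x100300500700b00f600a00e03641f700)))) (.br (Nat.shiftLeft (nat_lit 0x1) (nat_lit 125)) (.one (nat_lit 0x100400500700b00f800a00e03641e760)) (.br (Nat.shiftLeft (nat_lit 0x1001) (nat_lit 113)) (.one (nat_lit 0x200000500700b00f000a00e05681e511)) (.one (nat_lit 0x200300500700b00f600a00e05681f700))))))
def t259 : k259.all (jb2 57 fl b0) = true := by decide +kernel
noncomputable def k260 : KT := (.one (nat_lit 0x200400500700b00f800a00e05681e760))
def t260 : k260.all (jb2 57 fl b0) = true := by decide +kernel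
noncomputable def k261 : KT := (.br (Nat.shiftLeft (nat_lit 0xc01) (nat_lit 114)) (.one (nat_lit 0x300000500700b00f000a00e076c1e511)) (.br (Nat.shiftLeft (nat_lit 0x1) (nat_lit 126)) (.one (nat_lit 0x300400500700b00f800a00e076c1e760)) (.one (nat_lit 0x400000500700b00f000a00e09701e511))))
def t261 : k261.all (jb2 57 fl b0) = true := by decide +kernel
noncomputable def k262 : KT := (.br (Nat.shiftLeft (nat_lit 0x3) (nat_lit 125)) (.one (nat_lit 0x500000500700b00f000a00e0b741e511)) (.one (nat_lit 0x600000500700b00f000a00e0d781e511)))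
def t262 : k262.all (jb2 57 fl b0) = true := by decide +kernel
noncomputable def k263 : KT := (.one (nat_lit 0x700000500700b00f000a00e0f7c1e511))
noncomputable def b264 : BT := .node (nat_lit 0x1) (nat_lit 0xdb3274a4d80032d9000ca6810008800028) .leaf .leaf
def t263 : k263.all (jb2 57 fl b264) = true := by decide +kernel
noncomputable def k264 : KT := (.br (Nat.shiftLeft (nat_lit 0x9) (nat_lit 124)) (.one (nat_lit 0x800000500700b00f000a00e11801e511)) (.one (nat_lit 0x900000500700b00f000a00e13841e511)))
noncomputable def b265 : BT := .node (nat_lit 0x17) (nat_lit 0x1b644bd49c00065b400156f03b649384b1b6cdb664bd49ba4e097a009d4c80265b000596c80155bc001d4c00065b21c9b93a9270db349c12f9b684ea4b19510a2c4e96d9b6cc97c96349c13a800b317000cb6000b29d002ab7800b2da004ac6000ba5b000ca7400b2d8002aa90013a5d002ac68696327513a92c651728b000753000556f802753000558d85b644be4b236cc9d4937000ca78002b1a000cb6c002adc0b6cd2c6516000cb60002b1b076cca2e9636d9a4e097a00198c000563000196c80055bc16d9a59497cdb328ba5900032d8000ab7c003317000ac642008c9008c900869007530052c0052c0052c0052c0052c0052c0052c00471003b60035600356003560029b0029b0029b0029b0029b001e0001e0001e0)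 .leaf .leaf
def t264 : k264.all (jb2 57 fl b265) = true := by decide +kernel
noncomputable def k265 : KT := (.br (Nat.shiftLeft (nat_lit 0x800001) (nat_lit 113)) (.br (Nat.shiftLeft (nat_lit 0xb) (nat_lit 124)) (.one (nat_lit 0xa00000500700b00f000a00e15881e511)) (.br (Nat.shiftLeft (nat_lit 0x1) (nat_lit 136)) (.one (nat_lit 0xb00000500700b00f000a00e178c1e511)) (.one (nat_lit 0x100000100500700b00f200a02e41601e611)))) (.br (Nat.shiftLeft (nat_lit 0x1000003) (nat_lit 112)) (.one (nat_lit 0x100000200500700b00f400a02e41601e611)) (.br (Nat.shiftLeft (nat_lit 0x400001) (nat_lit 114)) (.one (nat_lit 0x100000300500700b00f600a02e41601e611)) (.one (nat_lit 0x100000400500700b00f800a02e41601e611)))))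
noncomputable def b266 : BT := .node (nat_lit 0x1) (nat_lit 0x6d992f897cdb349c1510003a980008b8c0041dd0008e642000e300028) .leaf .leaf
def t265 : k265.all (jb2 57 fl b266) = true := by decide +kernel
noncomputable def k266 : KT := (.br (Nat.shiftLeft (nat_lit 0x3) (nat_lit 136)) (.br (Nat.shiftLeft (nat_lit 0x1000001) (nat_lit 113)) (.br (Nat.shiftLeft (nat_lit 0x1) (nat_lit 137)) (.one (nat_lit 0x100200300500700b00f600a02e45681e870)) (.one (nat_lit 0x200000100500700b00f200a04e81601e611))) (.br (Nat.shiftLeft (nat_lit 0x2000003) (nat_lit 112)) (.one (nat_lit 0x200000200500700b00f400a04e81601e611)) (.br (Nat.shiftLeft (nat_lit 0x800001) (nat_lit 114)) (.one (nat_lit 0x200000300500700b00f600a04e81601e611)) (.one (nat_lit 0x200000400500700b00f800a04e81601e611))))) (.br (Nat.shiftLeft (nat_lit 0xc00001) (nat_lit 114)) (.br (Nat.shiftLeft (nat_lit 0x1800001) (nat_lit 113)) (.one (nat_lit 0x300000100500700b00f200a06ec1601e611)) (.br (Nat.shiftLeft (nat_lit 0x3000003) (nat_lit 112)) (.one (nat_lit 0x300000200500700b00f400a06ec1601e611))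 (.one (nat_lit 0x300000300500700b00f600a06ec1601e611)))) (.br (Nat.shiftLeft (nat_lit 0x1) (nat_lit 138)) (.one (nat_lit 0x300000400500700b00f800a06ec1601e611)) (.br (Nat.shiftLeft (nat_lit 0x2000001) (nat_lit 113)) (.one (nat_lit 0x400000100500700b00f200a08f01601e611)) (.one (nat_lit 0x400000200500700b00f400a08f01601e611))))))
def t266 : k266.all (jb2 57 fl b0) = true := by decide +kernel
noncomputable def k267 : KT := (.br (Nat.shiftLeft (nat_lit 0x5) (nat_lit 136)) (.br (Nat.shiftLeft (nat_lit 0x1000001) (nat_lit 114)) (.one (nat_lit 0x400000300500700b00f600a08f01601e611)) (.one (nat_lit 0x400000400500700b00f800a08f01601e611))) (.br (Nat.shiftLeft (nat_lit 0x2800001) (nat_lit 113)) (.one (nat_lit 0x500000100500700b00f200a0af41601e611)) (.one (nat_lit 0x500000200500700b00f400a0af41601e611))))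
def t267 : k267.all (jb2 57 fl b0) = true := by decide +kernel
noncomputable def k268 : KT := (.br (Nat.shiftLeft (nat_lit 0x1400001) (nat_lit 114)) (.one (nat_lit 0x500000300500700b00f600a0af41601e611)) (.one (nat_lit 0x500000400500700b00f800a0af41601e611)))
noncomputable def b269 : BT := .node (nat_lit 0x1) (nat_lit 0x6d992f8ae493428b15140039a30008f5c003a59000ae602000e300028) .leaf .leaf
def t268 : k268.all (jb2 57 fl b269) = true := by decide +kernel
noncomputable def k269 : KT := (.one (nat_lit 0x600000100500700b00f200a0cf81601e611))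
noncomputable def b270 : BT := .node (nat_lit 0xb) (nat_lit 0x96325f24d40032a0000ca681db225f24d80032a0000ab6c1001b0001b0001b0001b0001b00015000150000f0000f0000f0000f0000f0) .leaf .leaf
def t269 : k269.all (jb2 57 fl b270) = true := by decide +kernel
noncomputable def k270 : KT := (.br (Nat.shiftLeft (nat_lit 0x6000003) (nat_lit 112)) (.one (nat_lit 0x600000200500700b00f400a0cf81601e611)) (.one (nat_lit 0x600000300500700b00f600a0cf81601e611)))
noncomputable def b271 : BT := .node (nat_lit 0x17) (nat_lit 0x6d924d4a8800196c000572e0ed912f8a8a001cf080047340c9a92f526d23128b258c0032dc000cb64002b1b000ab64299125c14580032d8000ca701003bb003bb003bb003bb003bb003bb003bb003bb003bb003bb0035b0035b0035b002fb002fb002fb002fb002fb002fb002fb0024000240001e0001e0) .leaf .leaf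
def t270 : k270.all (jb2 57 fl b271) = true := by decide +kernel
noncomputable def k271 : KT := (.br (Nat.shiftLeft (nat_lit 0x7) (nat_lit 136)) (.one (nat_lit 0x600000400500700b00f800a0cf81601e611)) (.one (nat_lit 0x700000100500700b00f200a0efc1601e611)))
noncomputable def b272 : BT := .node (nat_lit 0x1) (nat_lit 0x6d9b6cc97cde149b92f8003a980008b8c00325d000ab7c2000e300028) .leaf .leaf
def t271 : k271.all (jb2 57 fl b272) = true := by decide +kernel
noncomputable def k272 : KT := (.br (Nat.shiftLeft (nat_lit 0x7000003) (nat_lit 112)) (.one (nat_lit 0x700000200500700b00f400a0efc1601e611)) (.br (Nat.shiftLeft (nat_lit 0x1c00001) (nat_lit 114)) (.one (nat_lit 0x700000300500700b00f600a0efc1601e611)) (.one (nat_lit 0x700000400500700b00f800a0efc1601e611))))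
noncomputable def b273 : BT := .node (nat_lit 0x1) (nat_lit 0x6d992f8a88db249b15100039e10008e6400329b000ae582000e300028) .leaf .leaf
def t272 : k272.all (jb2 57 fl b273) = true := by decide +kernel
noncomputable def k273 : KT := (.br (Nat.shiftLeft (nat_lit 0x4000001) (nat_lit 113)) (.one (nat_lit 0x800000100500700b00f200a11001601e611)) (.br (Nat.shiftLeft (nat_lit 0x8000003) (nat_lit 112)) (.one (nat_lit 0x800000200500700b00f400a11001601e611)) (.one (nat_lit 0x800000300500700b00f600a11001601e611))))
noncomputable def b274 : BT := .node (nat_lit 0x1) (nat_lit 0x6d936cc97c93527524dc003a990008b8c003318000cb602000e300028) .leaf .leaf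
def t273 : k273.all (jb2 57 fl b274) = true := by decide +kernel
noncomputable def k274 : KT := (.br (Nat.shiftLeft (nat_lit 0x4800001) (nat_lit 113)) (.br (Nat.shiftLeft (nat_lit 0x9) (nat_lit 136)) (.one (nat_lit 0x800000400500700b00f800a11001601e611)) (.one (nat_lit 0x900000100500700b00f200a13041601e611))) (.br (Nat.shiftLeft (nat_lit 0x9000003) (nat_lit 112)) (.one (nat_lit 0x900000200500700b00f400a13041601e611)) (.br (Nat.shiftLeft (nat_lit 0x2400001) (nat_lit 114)) (.one (nat_lit 0x900000300500700b00f600a13041601e611)) (.one (nat_lit 0x900000400500700b00f800a13041601e611)))))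
noncomputable def b275 : BT := .node (nat_lit 0xb) (nat_lit 0x96325f950c0039e4000ad601db249c258c003a5d000ac641001b0001b000150001500015000150001500015000150000f0000f0000f0) .leaf .leaf
def t274 : k274.all (jb2 57 fl b275) = true := by decide +kernel
noncomputable def k275 : KT := (.br (Nat.shiftLeft (nat_lit 0x1000001003) (nat_lit 112)) (.br (Nat.shiftLeft (nat_lit 0xb) (nat_lit 136)) (.br (Nat.shiftLeft (nat_lit 0xa000003) (nat_lit 112)) (.br (Nat.shiftLeft (nat_lit 0x5000001) (nat_lit 113)) (.one (nat_lit 0xa00000100500700b00f200a15081601e611)) (.one (nat_lit 0xa00000200500700b00f400a15081601e611))) (.br (Nat.shiftLeft (nat_lit 0x2800001) (nat_lit 114)) (.one (nat_lit 0xa00000300500700b00f600a15081601e611)) (.one (nat_lit 0xa00000400500700b00f800a15081601e611)))) (.br (Nat.shiftLeft (nat_lit 0xb000003) (nat_lit 112)) (.br (Nat.shiftLeft (nat_lit 0x5800001) (nat_lit 113)) (.one (nat_lit 0xb00000100500700b00f200a170c1601e611)) (.one (nat_lit 0xb00000200500700b00f400a170c1601e611))) (.br (Nat.shiftLeft (nat_lit 0x2c00001)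 (nat_lit 114)) (.one (nat_lit 0xb00000300500700b00f600a170c1601e611)) (.br (Nat.shiftLeft (nat_lit 0x1) (nat_lit 148)) (.one (nat_lit 0xb00000400500700b00f800a170c1601e611)) (.one (nat_lit 0x100000100200500700b00f402a40e03641e711)))))) (.br (Nat.shiftLeft (nat_lit 0x1000001) (nat_lit 125)) (.br (Nat.shiftLeft (nat_lit 0x1) (nat_lit 149)) (.br (Nat.shiftLeft (nat_lit 0x800001) (nat_lit 125)) (.one (nat_lit 0x100000100300500700b00f602a40e03641e711)) (.one (nat_lit 0x100000200300500700b00f602a40e05681e711))) (.br (Nat.shiftLeft (nat_lit 0x2000001003) (nat_lit 112)) (.one (nat_lit 0x200000100200500700b00f404a80e03641e711)) (.one (nat_lit 0x200000100300500700b00f604a80e03641e711)))) (.br (Nat.shiftLeft (nat_lit 0x3000001003) (nat_lit 112)) (.br (Nat.shiftLeft (nat_lit 0x3) (nat_lit 148)) (.one (nat_lit 0x200000200300500700b00f604a80e05681e711)) (.one (nat_lit 0x300000100200500700b00f406ac0e03641e711))) (.br (Nat.shiftLeft (nat_lit 0x1800001) (nat_lit 125)) (.one (nat_lit 0x300000100300500700b00f606ac0e03641e711)) (.br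 (Nat.shiftLeft (nat_lit 0x1) (nat_lit 150)) (.one (nat_lit 0x300000200300500700b00f606ac0e05681e711)) (.one (nat_lit 0x400000100200500700b00f408b00e03641e711)))))))
def t275 : k275.all (jb2 57 fl b0) = true := by decide +kernel
noncomputable def k276 : KT := (.br (Nat.shiftLeft (nat_lit 0x5) (nat_lit 148)) (.br (Nat.shiftLeft (nat_lit 0x2000001) (nat_lit 125)) (.one (nat_lit 0x400000100300500700b00f608b00e03641e711)) (.one (nat_lit 0x400000200300500700b00f608b00e05681e711))) (.br (Nat.shiftLeft (nat_lit 0x5000001003) (nat_lit 112)) (.one (nat_lit 0x500000100200500700b00f40ab40e03641e711)) (.one (nat_lit 0x500000100300500700b00f60ab40e03641e711))))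
noncomputable def b277 : BT := .node (nat_lit 0x2f) (nat_lit 0x36cca889346f0a4d0ae40019ab80055b200194c80057aa148c5268992000ca64002b1807785b669346d912e0a2c96328b24d000ba59004ab6400b2d8000ad64013319000ca643db325f15100039e10008e64193425f13a8003a5c000ac741006b2006b2006b2006b2006b2006b2006b2006b2005f7005f7005f7005f7005f7005f7005f7005f7005f7005f7005f7005f7005f7005f7005f7005f700596005960059600596005960059600596005960059600596005960059600480004200042000420003c0003c0003c0003c0003c0003c0003c0003c0) .leaf .leaf
def t276 : k276.all (jb2 57 fl b277) = true := by decide +kernel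
noncomputable def k277 : KT := (.br (Nat.shiftLeft (nat_lit 0x6000001003) (nat_lit 112)) (.br (Nat.shiftLeft (nat_lit 0x3) (nat_lit 149)) (.one (nat_lit 0x500000200300500700b00f60ab40e05681e711)) (.one (nat_lit 0x600000100200500700b00f40cb80e03641e711))) (.br (Nat.shiftLeft (nat_lit 0x3000001) (nat_lit 125)) (.one (nat_lit 0x600000100300500700b00f60cb80e03641e711)) (.one (nat_lit 0x600000200300500700b00f60cb80e05681e711))))
noncomputable def b278 : BT := .node (nat_lit 0x11) (nat_lit 0x96325f15100039e1000ad64193528b12e0003319000cb6010022800228002280022800228001c8001c80016800168001680016800168001680016800168001680016800168) .leaf .leaf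
def t277 : k277.all (jb2 57 fl b278) = true := by decide +kernel
noncomputable def k278 : KT := (.br (Nat.shiftLeft (nat_lit 0x3800001) (nat_lit 125)) (.br (Nat.shiftLeft (nat_lit 0x7000001003) (nat_lit 112)) (.one (nat_lit 0x700000100200500700b00f40ebc0e03641e711)) (.one (nat_lit 0x700000100300500700b00f60ebc0e03641e711))) (.br (Nat.shiftLeft (nat_lit 0x1) (nat_lit 151)) (.one (nat_lit 0x700000200300500700b00f60ebc0e05681e711)) (.br (Nat.shiftLeft (nat_lit 0x8000001003) (nat_lit 112)) (.one (nat_lit 0x800000100200500700b00f410c00e03641e711)) (.one (nat_lit 0x800000100300500700b00f610c00e03641e711)))))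
noncomputable def b279 : BT := .node (nat_lit 0x1) (nat_lit 0x9632751510003a1d000ad6410008800028) .leaf .leaf
def t278 : k278.all (jb2 57 fl b279) = true := by decide +kernel
noncomputable def k279 : KT := (.br (Nat.shiftLeft (nat_lit 0xa000001003) (nat_lit 112)) (.br (Nat.shiftLeft (nat_lit 0x9000001003) (nat_lit 112)) (.br (Nat.shiftLeft (nat_lit 0x9) (nat_lit 148)) (.one (nat_lit 0x800000200300500700b00f610c00e05681e711)) (.one (nat_lit 0x900000100200500700b00f412c40e03641e711))) (.br (Nat.shiftLeft (nat_lit 0x4800001) (nat_lit 125)) (.one (nat_lit 0x900000100300500700b00f612c40e03641e711)) (.br (Nat.shiftLeft (nat_lit 0x5) (nat_lit 149)) (.one (nat_lit 0x900000200300500700b00f612c40e05681e711)) (.one (nat_lit 0xa00000100200500700b00f414c80e03641e711))))) (.br (Nat.shiftLeft (nat_lit 0xb) (nat_lit 148)) (.br (Nat.shiftLeft (nat_lit 0x5000001) (nat_lit 125)) (.one (nat_lit 0xa00000100300500700b00f614c80e03641e711)) (.one (nat_lit 0xa00000200300500700b00f614c80e05681e711))) (.br (Nat.shiftLeft (nat_lit 0xb000001003)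 (nat_lit 112)) (.one (nat_lit 0xb00000100200500700b00f416cc0e03641e711)) (.br (Nat.shiftLeft (nat_lit 0x5800001) (nat_lit 125)) (.one (nat_lit 0xb00000100300500700b00f616cc0e03641e711)) (.one (nat_lit 0xb00000200300500700b00f616cc0e05681e711))))))
def t279 : k279.all (jb2 57 fl b0) = true := by decide +kernel
noncomputable def s15 : KT := (.br (nat_lit 0x500000400500700b00f800a0af41601e611) (.br (nat_lit 0x700000500700b00f000a00e0f7c1e511) (.br (nat_lit 0x200400500700b00f800a00e05681e760) (.br (nat_lit 0x200300500700b00f600a00e05681f700) k259 k260) (.br (nat_lit 0x400000500700b00f000a00e09701e511) k261 (.br (nat_lit 0x600000500700b00f000a00e0d781e511) k262 k263))) (.br (nat_lit 0x100000400500700b00f800a02e41601e611) (.br (nat_lit 0x900000500700b00f000a00e13841e511) k264 k265) (.br (nat_lit 0x400000200500700b00f400a08f01601e611) k266 (.br (nat_lit 0x500000200500700b00f400a0af41601e611) k267 k268)))) (.br (nat_lit 0x800000300500700b00f600a11001601e611) (.br (nat_lit 0x600000300500700b00f600a0cf81601e611) (.br (nat_lit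 0x600000100500700b00f200a0cf81601e611) k269 k270) (.br (nat_lit 0x700000100500700b00f200a0efc1601e611) k271 (.br (nat_lit 0x700000400500700b00f800a0efc1601e611) k272 k273))) (.br (nat_lit 0x500000100300500700b00f60ab40e03641e711) (.br (nat_lit 0x900000400500700b00f800a13041601e611) k274 (.br (nat_lit 0x400000100200500700b00f408b00e03641e711) k275 k276)) (.br (nat_lit 0x600000200300500700b00f60cb80e05681e711) k277 (.br (nat_lit 0x800000100300500700b00f610c00e03641e711) k278 k279)))))
noncomputable def u15 : KT := (.one (nat_lit 0x500700b00f000a00e01601e540))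
def w15 : u15.all (wj 57 s15) = true := by decide +kernel
def o15 : OkW 57 (jb2 57 fl) u15 := .lift s15 _ (.br _ _ _ (.br _ _ _ (.br _ _ _ (.br _ _ _ (.leaf b0 k259 t259) (.leaf b0 k260 t260)) (.br _ _ _ (.leaf b0 k261 t261) (.br _ _ _ (.leaf b0 k262 t262) (.leaf b264 k263 t263)))) (.br _ _ _ (.br _ _ _ (.leaf b265 k264 t264) (.leaf b266 k265 t265)) (.br _ _ _ (.leaf b0 k266 t266) (.br _ _ _ (.leaf b0 k267 t267) (.leaf b269 k268 t268))))) (.br _ _ _ (.br _ _ _ (.br _ _ _ (.leaf b270 k269 t269) (.leaf b271 k270 t270)) (.br _ _ _ (.leaf b272 k271 t271) (.br _ _ _ (.leaf b273 k272 t272) (.leaf b274 k273 t273)))) (.br _ _ _ (.br _ _ _ (.leaf b275 k274 t274) (.br _ _ _ (.leaf b0 k275 t275) (.leaf b277 k276 t276))) (.br _ _ _ (.leaf b278 k277 t277) (.br _ _ _ (.leaf b279 k278 t278) (.leaf b0 k279 t279)))))) w15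
noncomputable def k280 : KT := (.br (Nat.shiftLeft (nat_lit 0x300500700b011) (nat_lit 64)) (.br (Nat.shiftLeft (nat_lit 0x100500700b011) (nat_lit 64)) (.br (Nat.shiftLeft (nat_lit 0x500700b011) (nat_lit 64)) (.one (nat_lit 0x500700b010000a00e016021500)) (.br (Nat.shiftLeft (nat_lit 0x1) (nat_lit 112)) (.one (nat_lit 0x500700b011000a00e016023500)) (.one (nat_lit 0x100500700b010200a00e016021600)))) (.br (Nat.shiftLeft (nat_lit 0x200500700b011) (nat_lit 64)) (.br (Nat.shiftLeft (nat_lit 0x1) (nat_lit 113)) (.one (nat_lit 0x100500700b011200a00e016023600)) (.one (nat_lit 0x200500700b010400a00e016021600))) (.br (Nat.shiftLeft (nat_lit 0x3) (nat_lit 112)) (.one (nat_lit 0x200500700b011400a00e016023600)) (.one (nat_lit 0x300500700b010600a00e016021600))))) (.br (Nat.shiftLeft (nat_lit 0x1) (nat_lit 124)) (.br (Nat.shiftLeft (nat_lit 0x1) (nat_lit 114)) (.one (nat_lit 0x300500700b011600a00e016023600)) (.br (Nat.shiftLeft (nat_lit 0x400500700b011) (nat_lit 64)) (.one (nat_lit 0x400500700b010800a00e016021600)) (.one (nat_lit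 0x400500700b011800a00e016023600)))) (.br (Nat.shiftLeft (nat_lit 0x801) (nat_lit 113)) (.br (Nat.shiftLeft (nat_lit 0x100000500700b011) (nat_lit 64)) (.one (nat_lit 0x100000500700b010000a00e036420511)) (.one (nat_lit 0x100000500700b011000a00e036422511))) (.br (Nat.shiftLeft (nat_lit 0x100200500700b011) (nat_lit 64)) (.one (nat_lit 0x100200500700b010400a00e036421700)) (.one (nat_lit 0x100200500700b011400a00e036422760))))))
def t280 : k280.all (jb2 57 fl b0) = true := by decide +kernel
noncomputable def k281 : KT := (.one (nat_lit 0x100300500700b010600a00e036420760))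
def t281 : k281.all (jb2 57 fl b0) = true := by decide +kernel
noncomputable def k282 : KT := (.one (nat_lit 0x100300500700b011600a00e036422760))
def t282 : k282.all (jb2 57 fl b0) = true := by decide +kernel
noncomputable def k283 : KT := (.br (Nat.shiftLeft (nat_lit 0x1) (nat_lit 125)) (.br (Nat.shiftLeft (nat_lit 0x100400500700b011) (nat_lit 64)) (.one (nat_lit 0x100400500700b010800a00e036420760)) (.one (nat_lit 0x100400500700b011800a00e036422760))) (.br (Nat.shiftLeft (nat_lit 0x200000500700b011) (nat_lit 64)) (.one (nat_lit 0x200000500700b010000a00e056820511)) (.one (nat_lit 0x200000500700b011000a00e056822511))))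
def t283 : k283.all (jb2 57 fl b0) = true := by decide +kernel
noncomputable def k284 : KT := (.one (nat_lit 0x200300500700b010600a00e056820760))
def t284 : k284.all (jb2 57 fl b0) = true := by decide +kernel
noncomputable def k285 : KT := (.one (nat_lit 0x200300500700b011600a00e056822760))
def t285 : k285.all (jb2 57 fl b0) = true := by decide +kernel
noncomputable def k286 : KT := (.one (nat_lit 0x200400500700b010800a00e056820760))
def t286 : k286.all (jb2 57 fl b0) = true := by decide +kernel
noncomputable def k287 : KT := (.br (Nat.shiftLeft (nat_lit 0x3) (nat_lit 124)) (.one (nat_lit 0x200400500700b011800a00e056822760)) (.br (Nat.shiftLeft (nat_lit 0x300000500700b011) (nat_lit 64)) (.one (nat_lit 0x300000500700b010000a00e076c20511)) (.one (nat_lit 0x300000500700b011000a00e076c22511))))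
def t287 : k287.all (jb2 57 fl b0) = true := by decide +kernel
noncomputable def k288 : KT := (.br (Nat.shiftLeft (nat_lit 0x300400500700b011) (nat_lit 64)) (.one (nat_lit 0x300400500700b010800a00e076c20760)) (.one (nat_lit 0x300400500700b011800a00e076c22760)))
def t288 : k288.all (jb2 57 fl b0) = true := by decide +kernel
noncomputable def k289 : KT := (.br (Nat.shiftLeft (nat_lit 0x5) (nat_lit 124)) (.br (Nat.shiftLeft (nat_lit 0x400000500700b011) (nat_lit 64)) (.one (nat_lit 0x400000500700b010000a00e097020511)) (.one (nat_lit 0x400000500700b011000a00e097022511))) (.br (Nat.shiftLeft (nat_lit 0x500000500700b011) (nat_lit 64)) (.one (nat_lit 0x500000500700b010000a00e0b7420511)) (.br (Nat.shiftLeft (nat_lit 0x3) (nat_lit 125)) (.one (nat_lit 0x500000500700b011000a00e0b7422511)) (.one (nat_lit 0x600000500700b010000a00e0d7820511)))))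
def t289 : k289.all (jb2 57 fl b0) = true := by decide +kernel
noncomputable def k290 : KT := (.br (Nat.shiftLeft (nat_lit 0x7) (nat_lit 124)) (.one (nat_lit 0x600000500700b011000a00e0d7822511)) (.br (Nat.shiftLeft (nat_lit 0x700000500700b011) (nat_lit 64)) (.one (nat_lit 0x700000500700b010000a00e0f7c20511)) (.one (nat_lit 0x700000500700b011000a00e0f7c22511))))
def t290 : k290.all (jb2 57 fl b0) = true := by decide +kernel
noncomputable def k291 : KT := (.br (Nat.shiftLeft (nat_lit 0x9) (nat_lit 124)) (.br (Nat.shiftLeft (nat_lit 0x800000500700b011) (nat_lit 64)) (.one (nat_lit 0x800000500700b010000a00e118020511)) (.one (nat_lit 0x800000500700b011000a00e118022511))) (.br (Nat.shiftLeft (nat_lit 0x900000500700b011) (nat_lit 64)) (.one (nat_lit 0x900000500700b010000a00e138420511)) (.one (nat_lit 0x900000500700b011000a00e138422511))))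
noncomputable def b292 : BT := .node (nat_lit 0xb) (nat_lit 0x6d924dca2c00194e00056b00c9a93ac9d29356d9a590003a9a000ac68003a99000cb6420020b0020b0020b0020b0020b001ab001ab001ab001ab000f0000f0000f0) .leaf .leaf
def t291 : k291.all (jb2 57 fl b292) = true := by decide +kernel
noncomputable def k292 : KT := (.br (Nat.shiftLeft (nat_lit 0x200000200500700b011) (nat_lit 64)) (.br (Nat.shiftLeft (nat_lit 0x100000200500700b011) (nat_lit 64)) (.br (Nat.shiftLeft (nat_lit 0xb00000500700b011) (nat_lit 64)) (.br (Nat.shiftLeft (nat_lit 0xa00000500700b011) (nat_lit 64)) (.one (nat_lit 0xa00000500700b010000a00e158820511)) (.br (Nat.shiftLeft (nat_lit 0xb) (nat_lit 124)) (.one (nat_lit 0xa00000500700b011000a00e158822511)) (.one (nat_lit 0xb00000500700b010000a00e178c20511)))) (.br (Nat.shiftLeft (nat_lit 0x100000100500700b011) (nat_lit 64)) (.br (Nat.shiftLeft (nat_lit 0x1) (nat_lit 136)) (.one (nat_lit 0xb00000500700b011000a00e178c22511)) (.one (nat_lit 0x100000100500700b010200a02e416020611))) (.br (Nat.shiftLeft (nat_lit 0x800001)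 (nat_lit 113)) (.one (nat_lit 0x100000100500700b011200a02e416022611)) (.one (nat_lit 0x100000200500700b010400a02e416020611))))) (.br (Nat.shiftLeft (nat_lit 0x100000400500700b011) (nat_lit 64)) (.br (Nat.shiftLeft (nat_lit 0x100000300500700b011) (nat_lit 64)) (.br (Nat.shiftLeft (nat_lit 0x1000003) (nat_lit 112)) (.one (nat_lit 0x100000200500700b011400a02e416022611)) (.one (nat_lit 0x100000300500700b010600a02e416020611))) (.br (Nat.shiftLeft (nat_lit 0x400001) (nat_lit 114)) (.one (nat_lit 0x100000300500700b011600a02e416022611)) (.one (nat_lit 0x100000400500700b010800a02e416020611)))) (.br (Nat.shiftLeft (nat_lit 0x200000100500700b011) (nat_lit 64)) (.br (Nat.shiftLeft (nat_lit 0x1) (nat_lit 137)) (.one (nat_lit 0x100000400500700b011800a02e416022611)) (.one (nat_lit 0x200000100500700b010200a04e816020611))) (.br (Nat.shiftLeft (nat_lit 0x1000001) (nat_lit 113)) (.one (nat_lit 0x200000100500700b011200a04e816022611)) (.one (nat_lit 0x200000200500700b010400a04e816020611)))))) (.br (Nat.shiftLeft (nat_lit 0x1800001)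 (nat_lit 113)) (.br (Nat.shiftLeft (nat_lit 0x800001) (nat_lit 114)) (.br (Nat.shiftLeft (nat_lit 0x2000003) (nat_lit 112)) (.one (nat_lit 0x200000200500700b011400a04e816022611)) (.br (Nat.shiftLeft (nat_lit 0x200000300500700b011) (nat_lit 64)) (.one (nat_lit 0x200000300500700b010600a04e816020611)) (.one (nat_lit 0x200000300500700b011600a04e816022611)))) (.br (Nat.shiftLeft (nat_lit 0x3) (nat_lit 136)) (.br (Nat.shiftLeft (nat_lit 0x200000400500700b011) (nat_lit 64)) (.one (nat_lit 0x200000400500700b010800a04e816020611)) (.one (nat_lit 0x200000400500700b011800a04e816022611))) (.br (Nat.shiftLeft (nat_lit 0x300000100500700b011) (nat_lit 64)) (.one (nat_lit 0x300000100500700b010200a06ec16020611)) (.one (nat_lit 0x300000100500700b011200a06ec16022611))))) (.br (Nat.shiftLeft (nat_lit 0xc00001) (nat_lit 114)) (.br (Nat.shiftLeft (nat_lit 0x3000003) (nat_lit 112)) (.br (Nat.shiftLeft (nat_lit 0x300000200500700b011) (nat_lit 64)) (.one (nat_lit 0x300000200500700b010400a06ec16020611)) (.one (nat_lit 0x300000200500700b011400a06ec16022611)))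 (.br (Nat.shiftLeft (nat_lit 0x300000300500700b011) (nat_lit 64)) (.one (nat_lit 0x300000300500700b010600a06ec16020611)) (.one (nat_lit 0x300000300500700b011600a06ec16022611)))) (.br (Nat.shiftLeft (nat_lit 0x1) (nat_lit 138)) (.br (Nat.shiftLeft (nat_lit 0x300000400500700b011) (nat_lit 64)) (.one (nat_lit 0x300000400500700b010800a06ec16020611)) (.one (nat_lit 0x300000400500700b011800a06ec16022611))) (.br (Nat.shiftLeft (nat_lit 0x400000100500700b011) (nat_lit 64)) (.one (nat_lit 0x400000100500700b010200a08f016020611)) (.one (nat_lit 0x400000100500700b011200a08f016022611)))))))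
def t292 : k292.all (jb2 57 fl b0) = true := by decide +kernel
noncomputable def k293 : KT := (.br (Nat.shiftLeft (nat_lit 0x400000300500700b011) (nat_lit 64)) (.br (Nat.shiftLeft (nat_lit 0x400000200500700b011) (nat_lit 64)) (.one (nat_lit 0x400000200500700b010400a08f016020611)) (.br (Nat.shiftLeft (nat_lit 0x4000003) (nat_lit 112)) (.one (nat_lit 0x400000200500700b011400a08f016022611)) (.one (nat_lit 0x400000300500700b010600a08f016020611)))) (.br (Nat.shiftLeft (nat_lit 0x400000400500700b011) (nat_lit 64)) (.br (Nat.shiftLeft (nat_lit 0x1000001) (nat_lit 114)) (.one (nat_lit 0x400000300500700b011600a08f016022611)) (.one (nat_lit 0x400000400500700b010800a08f016020611))) (.br (Nat.shiftLeft (nat_lit 0x5) (nat_lit 136)) (.one (nat_lit 0x400000400500700b011800a08f016022611)) (.one (nat_lit 0x500000100500700b010200a0af416020611)))))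
def t293 : k293.all (jb2 57 fl b0) = true := by decide +kernel
noncomputable def k294 : KT := (.br (Nat.shiftLeft (nat_lit 0x500000200500700b011) (nat_lit 64)) (.br (Nat.shiftLeft (nat_lit 0x2800001) (nat_lit 113)) (.one (nat_lit 0x500000100500700b011200a0af416022611)) (.one (nat_lit 0x500000200500700b010400a0af416020611))) (.br (Nat.shiftLeft (nat_lit 0x5000003) (nat_lit 112)) (.one (nat_lit 0x500000200500700b011400a0af416022611)) (.one (nat_lit 0x500000300500700b010600a0af416020611))))
def t294 : k294.all (jb2 57 fl b0) = true := by decide +kernel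
noncomputable def k295 : KT := (.br (Nat.shiftLeft (nat_lit 0x500000400500700b011) (nat_lit 64)) (.br (Nat.shiftLeft (nat_lit 0x1400001) (nat_lit 114)) (.one (nat_lit 0x500000300500700b011600a0af416022611)) (.one (nat_lit 0x500000400500700b010800a0af416020611))) (.br (Nat.shiftLeft (nat_lit 0x3) (nat_lit 137)) (.one (nat_lit 0x500000400500700b011800a0af416022611)) (.one (nat_lit 0x600000100500700b010200a0cf816020611))))
def t295 : k295.all (jb2 57 fl b0) = true := by decide +kernel
noncomputable def k296 : KT := (.br (Nat.shiftLeft (nat_lit 0x3000001) (nat_lit 113)) (.one (nat_lit 0x600000100500700b011200a0cf816022611)) (.br (Nat.shiftLeft (nat_lit 0x600000200500700b011) (nat_lit 64)) (.one (nat_lit 0x600000200500700b010400a0cf816020611)) (.one (nat_lit 0x600000200500700b011400a0cf816022611))))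
def t296 : k296.all (jb2 57 fl b0) = true := by decide +kernel
noncomputable def k297 : KT := (.br (Nat.shiftLeft (nat_lit 0x1800001) (nat_lit 114)) (.br (Nat.shiftLeft (nat_lit 0x600000300500700b011) (nat_lit 64)) (.one (nat_lit 0x600000300500700b010600a0cf816020611)) (.one (nat_lit 0x600000300500700b011600a0cf816022611))) (.br (Nat.shiftLeft (nat_lit 0x600000400500700b011) (nat_lit 64)) (.one (nat_lit 0x600000400500700b010800a0cf816020611)) (.one (nat_lit 0x600000400500700b011800a0cf816022611))))
def t297 : k297.all (jb2 57 fl b0) = true := by decide +kernel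
noncomputable def k298 : KT := (.br (Nat.shiftLeft (nat_lit 0x700000100500700b011) (nat_lit 64)) (.one (nat_lit 0x700000100500700b010200a0efc16020611)) (.br (Nat.shiftLeft (nat_lit 0x3800001) (nat_lit 113)) (.one (nat_lit 0x700000100500700b011200a0efc16022611)) (.one (nat_lit 0x700000200500700b010400a0efc16020611))))
def t298 : k298.all (jb2 57 fl b0) = true := by decide +kernel
noncomputable def k299 : KT := (.br (Nat.shiftLeft (nat_lit 0x1c00001) (nat_lit 114)) (.br (Nat.shiftLeft (nat_lit 0x7000003) (nat_lit 112)) (.one (nat_lit 0x700000200500700b011400a0efc16022611)) (.br (Nat.shiftLeft (nat_lit 0x700000300500700b011) (nat_lit 64)) (.one (nat_lit 0x700000300500700b010600a0efc16020611)) (.one (nat_lit 0x700000300500700b011600a0efc16022611)))) (.br (Nat.shiftLeft (nat_lit 0x700000400500700b011) (nat_lit 64)) (.one (nat_lit 0x700000400500700b010800a0efc16020611)) (.br (Nat.shiftLeft (nat_lit 0x1) (nat_lit 139)) (.one (nat_lit 0x700000400500700b011800a0efc16022611)) (.one (nat_lit 0x800000100500700b010200a110016020611)))))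
def t299 : k299.all (jb2 57 fl b0) = true := by decide +kernel
noncomputable def k300 : KT := (.br (Nat.shiftLeft (nat_lit 0x8000003) (nat_lit 112)) (.br (Nat.shiftLeft (nat_lit 0x4000001) (nat_lit 113)) (.one (nat_lit 0x800000100500700b011200a110016022611)) (.br (Nat.shiftLeft (nat_lit 0x800000200500700b011) (nat_lit 64)) (.one (nat_lit 0x800000200500700b010400a110016020611)) (.one (nat_lit 0x800000200500700b011400a110016022611)))) (.br (Nat.shiftLeft (nat_lit 0x2000001) (nat_lit 114)) (.br (Nat.shiftLeft (nat_lit 0x800000300500700b011) (nat_lit 64)) (.one (nat_lit 0x800000300500700b010600a110016020611)) (.one (nat_lit 0x800000300500700b011600a110016022611))) (.br (Nat.shiftLeft (nat_lit 0x800000400500700b011) (nat_lit 64)) (.one (nat_lit 0x800000400500700b010800a110016020611)) (.one (nat_lit 0x800000400500700b011800a110016022611)))))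
def t300 : k300.all (jb2 57 fl b0) = true := by decide +kernel
noncomputable def k301 : KT := (.br (Nat.shiftLeft (nat_lit 0x900000300500700b011) (nat_lit 64)) (.br (Nat.shiftLeft (nat_lit 0x4800001) (nat_lit 113)) (.br (Nat.shiftLeft (nat_lit 0x900000100500700b011) (nat_lit 64)) (.one (nat_lit 0x900000100500700b010200a130416020611)) (.one (nat_lit 0x900000100500700b011200a130416022611))) (.br (Nat.shiftLeft (nat_lit 0x900000200500700b011) (nat_lit 64)) (.one (nat_lit 0x900000200500700b010400a130416020611)) (.br (Nat.shiftLeft (nat_lit 0x9000003) (nat_lit 112)) (.one (nat_lit 0x900000200500700b011400a130416022611)) (.one (nat_lit 0x900000300500700b010600a130416020611))))) (.br (Nat.shiftLeft (nat_lit 0x900000400500700b011) (nat_lit 64)) (.br (Nat.shiftLeft (nat_lit 0x2400001) (nat_lit 114)) (.one (nat_lit 0x900000300500700b011600a130416022611)) (.one (nat_lit 0x900000400500700b010800a130416020611))) (.br (Nat.shiftLeft (nat_lit 0x5) (nat_lit 137)) (.one (nat_lit 0x900000400500700b011800a130416022611)) (.br (Nat.shiftLeft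 (nat_lit 0xa00000100500700b011) (nat_lit 64)) (.one (nat_lit 0xa00000100500700b010200a150816020611)) (.one (nat_lit 0xa00000100500700b011200a150816022611))))))
def t301 : k301.all (jb2 57 fl b0) = true := by decide +kernel
noncomputable def k302 : KT := (.br (Nat.shiftLeft (nat_lit 0xb00000200500700b011) (nat_lit 64)) (.br (Nat.shiftLeft (nat_lit 0x2800001) (nat_lit 114)) (.br (Nat.shiftLeft (nat_lit 0xa000003) (nat_lit 112)) (.br (Nat.shiftLeft (nat_lit 0xa00000200500700b011) (nat_lit 64)) (.one (nat_lit 0xa00000200500700b010400a150816020611)) (.one (nat_lit 0xa00000200500700b011400a150816022611))) (.br (Nat.shiftLeft (nat_lit 0xa00000300500700b011) (nat_lit 64)) (.one (nat_lit 0xa00000300500700b010600a150816020611)) (.one (nat_lit 0xa00000300500700b011600a150816022611)))) (.br (Nat.shiftLeft (nat_lit 0xb) (nat_lit 136)) (.br (Nat.shiftLeft (nat_lit 0xa00000400500700b011) (nat_lit 64)) (.one (nat_lit 0xa00000400500700b010800a150816020611)) (.one (nat_lit 0xa00000400500700b011800a150816022611))) (.br (Nat.shiftLeft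 (nat_lit 0xb00000100500700b011) (nat_lit 64)) (.one (nat_lit 0xb00000100500700b010200a170c16020611)) (.br (Nat.shiftLeft (nat_lit 0x5800001) (nat_lit 113)) (.one (nat_lit 0xb00000100500700b011200a170c16022611)) (.one (nat_lit 0xb00000200500700b010400a170c16020611)))))) (.br (Nat.shiftLeft (nat_lit 0x1) (nat_lit 148)) (.br (Nat.shiftLeft (nat_lit 0xb00000300500700b011) (nat_lit 64)) (.br (Nat.shiftLeft (nat_lit 0xb000003) (nat_lit 112)) (.one (nat_lit 0xb00000200500700b011400a170c16022611)) (.one (nat_lit 0xb00000300500700b010600a170c16020611))) (.br (Nat.shiftLeft (nat_lit 0x2c00001) (nat_lit 114)) (.one (nat_lit 0xb00000300500700b011600a170c16022611)) (.br (Nat.shiftLeft (nat_lit 0xb00000400500700b011) (nat_lit 64)) (.one (nat_lit 0xb00000400500700b010800a170c16020611)) (.one (nat_lit 0xb00000400500700b011800a170c16022611))))) (.br (Nat.shiftLeft (nat_lit 0x3) (nat_lit 148)) (.br (Nat.shiftLeft (nat_lit 0x1) (nat_lit 149)) (.one (nat_lit 0x100000100200500700b010402a40e036420711)) (.one (nat_lit 0x200000100200500700b010404a80e036420711)))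 (.br (Nat.shiftLeft (nat_lit 0x1) (nat_lit 150)) (.one (nat_lit 0x300000100200500700b010406ac0e036420711)) (.br (Nat.shiftLeft (nat_lit 0x5) (nat_lit 148)) (.one (nat_lit 0x400000100200500700b010408b00e036420711)) (.one (nat_lit 0x500000100200500700b01040ab40e036420711)))))))
def t302 : k302.all (jb2 57 fl b0) = true := by decide +kernel
noncomputable def k303 : KT := (.br (Nat.shiftLeft (nat_lit 0x9) (nat_lit 148)) (.br (Nat.shiftLeft (nat_lit 0x7) (nat_lit 148)) (.one (nat_lit 0x600000100200500700b01040cb80e036420711)) (.br (Nat.shiftLeft (nat_lit 0x1) (nat_lit 151)) (.one (nat_lit 0x700000100200500700b01040ebc0e036420711)) (.one (nat_lit 0x800000100200500700b010410c00e036420711)))) (.br (Nat.shiftLeft (nat_lit 0x5) (nat_lit 149)) (.one (nat_lit 0x900000100200500700b010412c40e036420711)) (.br (Nat.shiftLeft (nat_lit 0xb) (nat_lit 148)) (.one (nat_lit 0xa00000100200500700b010414c80e036420711)) (.one (nat_lit 0xb00000100200500700b010416cc0e036420711)))))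
def t303 : k303.all (jb2 57 fl b0) = true := by decide +kernel
noncomputable def s16 : KT := (.br (nat_lit 0x900000500700b011000a00e138422511) (.br (nat_lit 0x200300500700b011600a00e056822760) (.br (nat_lit 0x100300500700b011600a00e036422760) (.br (nat_lit 0x100200500700b011400a00e036422760) k280 (.br (nat_lit 0x100300500700b010600a00e036420760) k281 k282)) (.br (nat_lit 0x200000500700b011000a00e056822511) k283 (.br (nat_lit 0x200300500700b010600a00e056820760) k284 k285))) (.br (nat_lit 0x300400500700b011800a00e076c22760) (.br (nat_lit 0x200400500700b010800a00e056820760) k286 (.br (nat_lit 0x300000500700b011000a00e076c22511) k287 k288)) (.br (nat_lit 0x600000500700b010000a00e0d7820511) k289 (.br (nat_lit 0x700000500700b011000a00e0f7c22511) k290 k291)))) (.br (nat_lit 0x600000400500700b011800a0cf816022611) (.br (nat_lit 0x500000300500700b010600a0af416020611) (.br (nat_lit 0x400000100500700b011200a08f016022611) k292 (.br (nat_lit 0x500000100500700b010200a0af416020611) k293 k294)) (.br (nat_lit 0x600000100500700b010200a0cf816020611)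 k295 (.br (nat_lit 0x600000200500700b011400a0cf816022611) k296 k297))) (.br (nat_lit 0x800000400500700b011800a110016022611) (.br (nat_lit 0x700000200500700b010400a0efc16020611) k298 (.br (nat_lit 0x800000100500700b010200a110016020611) k299 k300)) (.br (nat_lit 0xa00000100500700b011200a150816022611) k301 (.br (nat_lit 0x500000100200500700b01040ab40e036420711) k302 k303)))))
noncomputable def u16 : KT := (.br (Nat.shiftLeft (nat_lit 0x500700b011) (nat_lit 64)) (.one (nat_lit 0x500700b010000a00e016020540)) (.one (nat_lit 0x500700b011000a00e016022540)))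
def w16 : u16.all (wj 57 s16) = true := by decide +kernel
def o16 : OkW 57 (jb2 57 fl) u16 := .lift s16 _ (.br _ _ _ (.br _ _ _ (.br _ _ _ (.br _ _ _ (.leaf b0 k280 t280) (.br _ _ _ (.leaf b0 k281 t281) (.leaf b0 k282 t282))) (.br _ _ _ (.leaf b0 k283 t283) (.br _ _ _ (.leaf b0 k284 t284) (.leaf b0 k285 t285)))) (.br _ _ _ (.br _ _ _ (.leaf b0 k286 t286) (.br _ _ _ (.leaf b0 k287 t287) (.leaf b0 k288 t288))) (.br _ _ _ (.leaf b0 k289 t289) (.br _ _ _ (.leaf b0 k290 t290) (.leaf b292 k291 t291))))) (.br _ _ _ (.br _ _ _ (.br _ _ _ (.leaf b0 k292 t292) (.br _ _ _ (.leaf b0 k293 t293) (.leaf b0 k294 t294))) (.br _ _ _ (.leaf b0 k295 t295) (.br _ _ _ (.leaf b0 k296 t296) (.leaf b0 k297 t297)))) (.br _ _ _ (.br _ _ _ (.leaf b0 k298 t298) (.br _ _ _ (.leaf b0 k299 t299) (.leaf b0 k300 t300))) (.br _ _ _ (.leaf b0 k301 t301) (.br _ _ _ (.leaf b0 k302 t302) (.leaf b0 k303 t303)))))) w16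
noncomputable def k304 : KT := (.br (Nat.shiftLeft (nat_lit 0x1) (nat_lit 113)) (.br (Nat.shiftLeft (nat_lit 0x1401c03) (nat_lit 78)) (.one (nat_lit 0x500700b012000a00e016025500)) (.br (Nat.shiftLeft (nat_lit 0x1) (nat_lit 112)) (.one (nat_lit 0x500700c00d000a00e01801b500)) (.one (nat_lit 0x100500700b012200a00e016024650)))) (.br (Nat.shiftLeft (nat_lit 0x1) (nat_lit 114)) (.br (Nat.shiftLeft (nat_lit 0x3) (nat_lit 112)) (.one (nat_lit 0x200500700b012400a00e016025600)) (.one (nat_lit 0x300500700b012600a00e016025600))) (.br (Nat.shiftLeft (nat_lit 0x1) (nat_lit 124)) (.one (nat_lit 0x400500700b012800a00e016025600)) (.one (nat_lit 0x100000500700b012000a00e036424511)))))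
def t304 : k304.all (jb2 57 fl b0) = true := by decide +kernel
noncomputable def k305 : KT := (.br (Nat.shiftLeft (nat_lit 0x1003) (nat_lit 112)) (.one (nat_lit 0x100200500700b012400a00e036424760)) (.one (nat_lit 0x100300500700b012600a00e036424760)))
def t305 : k305.all (jb2 57 fl b0) = true := by decide +kernel
noncomputable def k306 : KT := (.br (Nat.shiftLeft (nat_lit 0x1001) (nat_lit 113)) (.br (Nat.shiftLeft (nat_lit 0x1) (nat_lit 125)) (.one (nat_lit 0x100400500700b012800a00e036424760)) (.one (nat_lit 0x200000500700b012000a00e056824511))) (.br (Nat.shiftLeft (nat_lit 0x801) (nat_lit 114)) (.one (nat_lit 0x200300500700b012600a00e056824760)) (.br (Nat.shiftLeft (nat_lit 0x3) (nat_lit 124)) (.one (nat_lit 0x200400500700b012800a00e056824760)) (.one (nat_lit 0x300000500700b012000a00e076c24511)))))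
def t306 : k306.all (jb2 57 fl b0) = true := by decide +kernel
noncomputable def k307 : KT := (.br (Nat.shiftLeft (nat_lit 0x5) (nat_lit 124)) (.br (Nat.shiftLeft (nat_lit 0x1) (nat_lit 126)) (.one (nat_lit 0x300400500700b012800a00e076c24760)) (.one (nat_lit 0x400000500700b012000a00e097024511))) (.br (Nat.shiftLeft (nat_lit 0x3) (nat_lit 125)) (.one (nat_lit 0x500000500700b012000a00e0b7424511)) (.br (Nat.shiftLeft (nat_lit 0x7) (nat_lit 124)) (.one (nat_lit 0x600000500700b012000a00e0d7824511)) (.one (nat_lit 0x700000500700b012000a00e0f7c24511)))))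
def t307 : k307.all (jb2 57 fl b0) = true := by decide +kernel
noncomputable def k308 : KT := (.br (Nat.shiftLeft (nat_lit 0x800001) (nat_lit 114)) (.br (Nat.shiftLeft (nat_lit 0x1) (nat_lit 136)) (.br (Nat.shiftLeft (nat_lit 0x5) (nat_lit 125)) (.br (Nat.shiftLeft (nat_lit 0x9) (nat_lit 124)) (.one (nat_lit 0x800000500700b012000a00e118024511)) (.one (nat_lit 0x900000500700b012000a00e138424511))) (.br (Nat.shiftLeft (nat_lit 0xb) (nat_lit 124)) (.one (nat_lit 0xa00000500700b012000a00e158824511)) (.one (nat_lit 0xb00000500700b012000a00e178c24511)))) (.br (Nat.shiftLeft (nat_lit 0x400001) (nat_lit 114)) (.br (Nat.shiftLeft (nat_lit 0x1000003) (nat_lit 112)) (.one (nat_lit 0x100000200500700b012400a02e416024611)) (.one (nat_lit 0x100000300500700b012600a02e416024611))) (.br (Nat.shiftLeft (nat_lit 0x1) (nat_lit 137)) (.one (nat_lit 0x100000400500700b012800a02e416024611)) (.br (Nat.shiftLeft (nat_lit 0x2000003) (nat_lit 112)) (.one (nat_lit 0x200000200500700b012400a04e816024611)) (.one (nat_lit 0x200000300500700b012600a04e816024611))))))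 (.br (Nat.shiftLeft (nat_lit 0x4000003) (nat_lit 112)) (.br (Nat.shiftLeft (nat_lit 0x3000003) (nat_lit 112)) (.br (Nat.shiftLeft (nat_lit 0x3) (nat_lit 136)) (.one (nat_lit 0x200000400500700b012800a04e816024611)) (.one (nat_lit 0x300000200500700b012400a06ec16024611))) (.br (Nat.shiftLeft (nat_lit 0xc00001) (nat_lit 114)) (.one (nat_lit 0x300000300500700b012600a06ec16024611)) (.br (Nat.shiftLeft (nat_lit 0x1) (nat_lit 138)) (.one (nat_lit 0x300000400500700b012800a06ec16024611)) (.one (nat_lit 0x400000200500700b012400a08f016024611))))) (.br (Nat.shiftLeft (nat_lit 0x5) (nat_lit 136)) (.br (Nat.shiftLeft (nat_lit 0x1000001) (nat_lit 114)) (.one (nat_lit 0x400000300500700b012600a08f016024611)) (.one (nat_lit 0x400000400500700b012800a08f016024611))) (.br (Nat.shiftLeft (nat_lit 0x5000003) (nat_lit 112)) (.one (nat_lit 0x500000200500700b012400a0af416024611)) (.br (Nat.shiftLeft (nat_lit 0x1400001) (nat_lit 114)) (.one (nat_lit 0x500000300500700b012600a0af416024611)) (.one (nat_lit 0x500000400500700b012800a0af416024611)))))))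
def t308 : k308.all (jb2 57 fl b0) = true := by decide +kernel
noncomputable def k309 : KT := (.br (Nat.shiftLeft (nat_lit 0x9) (nat_lit 136)) (.br (Nat.shiftLeft (nat_lit 0x7000003) (nat_lit 112)) (.br (Nat.shiftLeft (nat_lit 0x1800001) (nat_lit 114)) (.br (Nat.shiftLeft (nat_lit 0x6000003) (nat_lit 112)) (.one (nat_lit 0x600000200500700b012400a0cf816024611)) (.one (nat_lit 0x600000300500700b012600a0cf816024611))) (.br (Nat.shiftLeft (nat_lit 0x7) (nat_lit 136)) (.one (nat_lit 0x600000400500700b012800a0cf816024611)) (.one (nat_lit 0x700000200500700b012400a0efc16024611)))) (.br (Nat.shiftLeft (nat_lit 0x1) (nat_lit 139)) (.br (Nat.shiftLeft (nat_lit 0x1c00001) (nat_lit 114)) (.one (nat_lit 0x700000300500700b012600a0efc16024611)) (.one (nat_lit 0x700000400500700b012800a0efc16024611))) (.br (Nat.shiftLeft (nat_lit 0x8000003) (nat_lit 112)) (.one (nat_lit 0x800000200500700b012400a110016024611)) (.br (Nat.shiftLeft (nat_lit 0x2000001) (nat_lit 114)) (.one (nat_lit 0x800000300500700b012600a110016024611)) (.one (nat_lit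 0x800000400500700b012800a110016024611)))))) (.br (Nat.shiftLeft (nat_lit 0xa000003) (nat_lit 112)) (.br (Nat.shiftLeft (nat_lit 0x2400001) (nat_lit 114)) (.br (Nat.shiftLeft (nat_lit 0x9000003) (nat_lit 112)) (.one (nat_lit 0x900000200500700b012400a130416024611)) (.one (nat_lit 0x900000300500700b012600a130416024611))) (.br (Nat.shiftLeft (nat_lit 0x5) (nat_lit 137)) (.one (nat_lit 0x900000400500700b012800a130416024611)) (.one (nat_lit 0xa00000200500700b012400a150816024611)))) (.br (Nat.shiftLeft (nat_lit 0xb) (nat_lit 136)) (.br (Nat.shiftLeft (nat_lit 0x2800001) (nat_lit 114)) (.one (nat_lit 0xa00000300500700b012600a150816024611)) (.one (nat_lit 0xa00000400500700b012800a150816024611))) (.br (Nat.shiftLeft (nat_lit 0xb000003) (nat_lit 112)) (.one (nat_lit 0xb00000200500700b012400a170c16024611)) (.br (Nat.shiftLeft (nat_lit 0x2c00001) (nat_lit 114)) (.one (nat_lit 0xb00000300500700b012600a170c16024611)) (.one (nat_lit 0xb00000400500700b012800a170c16024611)))))))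
def t309 : k309.all (jb2 57 fl b0) = true := by decide +kernel
noncomputable def s17 : KT := (.br (nat_lit 0x300000500700b012000a00e076c24511) (.br (nat_lit 0x100000500700b012000a00e036424511) k304 (.br (nat_lit 0x100300500700b012600a00e036424760) k305 k306)) (.br (nat_lit 0x700000500700b012000a00e0f7c24511) k307 (.br (nat_lit 0x500000400500700b012800a0af416024611) k308 k309)))
noncomputable def u17 : KT := (.br (Nat.shiftLeft (nat_lit 0x1401c03) (nat_lit 78)) (.one (nat_lit 0x500700b012000a00e016024540)) (.one (nat_lit 0x500700c00d000a00e01801b500)))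
def w17 : u17.all (wj 57 s17) = true := by decide +kernel
def o17 : OkW 57 (jb2 57 fl) u17 := .lift s17 _ (.br _ _ _ (.br _ _ _ (.leaf b0 k304 t304) (.br _ _ _ (.leaf b0 k305 t305) (.leaf b0 k306 t306))) (.br _ _ _ (.leaf b0 k307 t307) (.br _ _ _ (.leaf b0 k308 t308) (.leaf b0 k309 t309)))) w17
noncomputable def k310 : KT := (.br (Nat.shiftLeft (nat_lit 0x1) (nat_lit 124)) (.br (Nat.shiftLeft (nat_lit 0x1) (nat_lit 113)) (.br (Nat.shiftLeft (nat_lit 0x1) (nat_lit 112)) (.one (nat_lit 0x500700c00e000a00e01801d500)) (.one (nat_lit 0x100500700c00e200a00e01801d600))) (.br (Nat.shiftLeft (nat_lit 0x3) (nat_lit 112)) (.one (nat_lit 0x200500700c00e400a00e01801d600)) (.br (Nat.shiftLeft (nat_lit 0x1) (nat_lit 114)) (.one (nat_lit 0x300500700c00e600a00e01801d600)) (.one (nat_lit 0x400500700c00e800a00e01801d600))))) (.br (Nat.shiftLeft (nat_lit 0x401) (nat_lit 114)) (.br (Nat.shiftLeft (nat_lit 0x801) (nat_lit 113)) (.one (nat_lit 0x100000500700c00e000a00e03841c511)) (.br (Nat.shiftLeft (nat_lit 0x1003) (nat_lit 112)) (.one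 (nat_lit 0x100200500700c00e400a00e03841d700)) (.one (nat_lit 0x100300500700c00e600a00e03841d700)))) (.br (Nat.shiftLeft (nat_lit 0x1) (nat_lit 125)) (.one (nat_lit 0x100400500700c00e800a00e03841c760)) (.br (Nat.shiftLeft (nat_lit 0x1001) (nat_lit 113)) (.one (nat_lit 0x200000500700c00e000a00e05881c511)) (.one (nat_lit 0x200300500700c00e600a00e05881d700))))))
def t310 : k310.all (jb2 57 fl b0) = true := by decide +kernel
noncomputable def k311 : KT := (.br (Nat.shiftLeft (nat_lit 0x3) (nat_lit 124)) (.one (nat_lit 0x200400500700c00e800a00e05881c760)) (.one (nat_lit 0x300000500700c00e000a00e078c1c511)))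
def t311 : k311.all (jb2 57 fl b0) = true := by decide +kernel
noncomputable def k312 : KT := (.br (Nat.shiftLeft (nat_lit 0x1) (nat_lit 126)) (.one (nat_lit 0x300400500700c00e800a00e078c1c760)) (.one (nat_lit 0x400000500700c00e000a00e09901c511)))
def t312 : k312.all (jb2 57 fl b0) = true := by decide +kernel
noncomputable def k313 : KT := (.br (Nat.shiftLeft (nat_lit 0x3) (nat_lit 125)) (.one (nat_lit 0x500000500700c00e000a00e0b941c511)) (.one (nat_lit 0x600000500700c00e000a00e0d981c511)))
def t313 : k313.all (jb2 57 fl b0) = true := by decide +kernel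
noncomputable def k314 : KT := (.br (Nat.shiftLeft (nat_lit 0x1) (nat_lit 127)) (.one (nat_lit 0x700000500700c00e000a00e0f9c1c511)) (.one (nat_lit 0x800000500700c00e000a00e11a01c511)))
def t314 : k314.all (jb2 57 fl b0) = true := by decide +kernel
noncomputable def k315 : KT := (.br (Nat.shiftLeft (nat_lit 0x1) (nat_lit 136)) (.br (Nat.shiftLeft (nat_lit 0xb) (nat_lit 124)) (.br (Nat.shiftLeft (nat_lit 0x5) (nat_lit 125)) (.one (nat_lit 0x900000500700c00e000a00e13a41c511)) (.one (nat_lit 0xa00000500700c00e000a00e15a81c511))) (.br (Nat.shiftLeft (nat_lit 0x3) (nat_lit 126)) (.one (nat_lit 0xb00000500700c00e000a00e17ac1c511)) (.one (nat_lit 0xc00000500700c00e000a00e19b01c511)))) (.br (Nat.shiftLeft (nat_lit 0x1000003) (nat_lit 112)) (.br (Nat.shiftLeft (nat_lit 0x800001) (nat_lit 113)) (.one (nat_lit 0x100000100500700c00e200a02e41801c611)) (.one (nat_lit 0x100000200500700c00e400a02e41801c611))) (.br (Nat.shiftLeft (nat_lit 0x400001) (nat_lit 114)) (.one (nat_lit 0x100000300500700c00e600a02e41801c611)) (.one (nat_lit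 0x100000400500700c00e800a02e41801c611)))))
noncomputable def b316 : BT := .node (nat_lit 0x1) (nat_lit 0x96449b950c0041dc000ad6010008800028) .leaf .leaf
def t315 : k315.all (jb2 57 fl b316) = true := by decide +kernel
noncomputable def k316 : KT := (.br (Nat.shiftLeft (nat_lit 0x3) (nat_lit 136)) (.br (Nat.shiftLeft (nat_lit 0x1000001) (nat_lit 113)) (.br (Nat.shiftLeft (nat_lit 0x1) (nat_lit 137)) (.one (nat_lit 0x100200300500700c00e600a02e45881c870)) (.one (nat_lit 0x200000100500700c00e200a04e81801c611))) (.br (Nat.shiftLeft (nat_lit 0x2000003) (nat_lit 112)) (.one (nat_lit 0x200000200500700c00e400a04e81801c611)) (.br (Nat.shiftLeft (nat_lit 0x800001) (nat_lit 114)) (.one (nat_lit 0x200000300500700c00e600a04e81801c611)) (.one (nat_lit 0x200000400500700c00e800a04e81801c611))))) (.br (Nat.shiftLeft (nat_lit 0xc00001) (nat_lit 114)) (.br (Nat.shiftLeft (nat_lit 0x1800001) (nat_lit 113)) (.one (nat_lit 0x300000100500700c00e200a06ec1801c611)) (.br (Nat.shiftLeft (nat_lit 0x3000003) (nat_lit 112)) (.one (nat_lit 0x300000200500700c00e400a06ec1801c611))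 (.one (nat_lit 0x300000300500700c00e600a06ec1801c611)))) (.br (Nat.shiftLeft (nat_lit 0x1) (nat_lit 138)) (.one (nat_lit 0x300000400500700c00e800a06ec1801c611)) (.br (Nat.shiftLeft (nat_lit 0x2000001) (nat_lit 113)) (.one (nat_lit 0x400000100500700c00e200a08f01801c611)) (.one (nat_lit 0x400000200500700c00e400a08f01801c611))))))
def t316 : k316.all (jb2 57 fl b0) = true := by decide +kernel
noncomputable def k317 : KT := (.br (Nat.shiftLeft (nat_lit 0x5) (nat_lit 136)) (.br (Nat.shiftLeft (nat_lit 0x1000001) (nat_lit 114)) (.one (nat_lit 0x400000300500700c00e600a08f01801c611)) (.one (nat_lit 0x400000400500700c00e800a08f01801c611))) (.br (Nat.shiftLeft (nat_lit 0x2800001) (nat_lit 113)) (.one (nat_lit 0x500000100500700c00e200a0af41801c611)) (.one (nat_lit 0x500000200500700c00e400a0af41801c611))))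
def t317 : k317.all (jb2 57 fl b0) = true := by decide +kernel
noncomputable def k318 : KT := (.br (Nat.shiftLeft (nat_lit 0x1400001) (nat_lit 114)) (.one (nat_lit 0x500000300500700c00e600a0af41801c611)) (.one (nat_lit 0x500000400500700c00e800a0af41801c611)))
noncomputable def b319 : BT := .node (nat_lit 0x1) (nat_lit 0x6d912e932493428b24d40032da000ad5c003357000cb602000e300028) .leaf .leaf
def t318 : k318.all (jb2 57 fl b319) = true := by decide +kernel
noncomputable def k319 : KT := (.one (nat_lit 0x600000100500700c00e200a0cf81801c611))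
noncomputable def b320 : BT := .node (nat_lit 0x1) (nat_lit 0xdb26d992f4003a980008b8810008800028) .leaf .leaf
def t319 : k319.all (jb2 57 fl b320) = true := by decide +kernel
noncomputable def k320 : KT := (.br (Nat.shiftLeft (nat_lit 0x6000003) (nat_lit 112)) (.one (nat_lit 0x600000200500700c00e400a0cf81801c611)) (.one (nat_lit 0x600000300500700c00e600a0cf81801c611)))
noncomputable def b321 : BT := .node (nat_lit 0xb) (nat_lit 0xde125da5900032da000ab681db225f13ac003a980008c801001b0001b0001b0001b00015000150000f0000f0000f0000f0000f0000f0) .leaf .leaf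
def t320 : k320.all (jb2 57 fl b321) = true := by decide +kernel
noncomputable def k321 : KT := (.br (Nat.shiftLeft (nat_lit 0x7) (nat_lit 136)) (.one (nat_lit 0x600000400500700c00e800a0cf81801c611)) (.one (nat_lit 0x700000100500700c00e200a0efc1801c611)))
def t321 : k321.all (jb2 57 fl b0) = true := by decide +kernel
noncomputable def k322 : KT := (.br (Nat.shiftLeft (nat_lit 0x7000003) (nat_lit 112)) (.one (nat_lit 0x700000200500700c00e400a0efc1801c611)) (.br (Nat.shiftLeft (nat_lit 0x1c00001) (nat_lit 114)) (.one (nat_lit 0x700000300500700c00e600a0efc1801c611)) (.one (nat_lit 0x700000400500700c00e800a0efc1801c611))))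
def t322 : k322.all (jb2 57 fl b0) = true := by decide +kernel
noncomputable def k323 : KT := (.br (Nat.shiftLeft (nat_lit 0x4000001) (nat_lit 113)) (.one (nat_lit 0x800000100500700c00e200a11001801c611)) (.br (Nat.shiftLeft (nat_lit 0x8000003) (nat_lit 112)) (.one (nat_lit 0x800000200500700c00e400a11001801c611)) (.one (nat_lit 0x800000300500700c00e600a11001801c611))))
def t323 : k323.all (jb2 57 fl b0) = true := by decide +kernel
noncomputable def k324 : KT := (.br (Nat.shiftLeft (nat_lit 0x9000003) (nat_lit 112)) (.br (Nat.shiftLeft (nat_lit 0x9) (nat_lit 136)) (.one (nat_lit 0x800000400500700c00e800a11001801c611)) (.br (Nat.shiftLeft (nat_lit 0x4800001) (nat_lit 113)) (.one (nat_lit 0x900000100500700c00e200a13041801c611)) (.one (nat_lit 0x900000200500700c00e400a13041801c611)))) (.br (Nat.shiftLeft (nat_lit 0x2400001) (nat_lit 114)) (.one (nat_lit 0x900000300500700c00e600a13041801c611)) (.br (Nat.shiftLeft (nat_lit 0x5) (nat_lit 137)) (.one (nat_lit 0x900000400500700c00e800a13041801c611)) (.one (nat_lit 0xa00000100500700c00e200a15081801c611)))))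
def t324 : k324.all (jb2 57 fl b0) = true := by decide +kernel
noncomputable def k325 : KT := (.br (Nat.shiftLeft (nat_lit 0x1) (nat_lit 148)) (.br (Nat.shiftLeft (nat_lit 0xb000003) (nat_lit 112)) (.br (Nat.shiftLeft (nat_lit 0x2800001) (nat_lit 114)) (.br (Nat.shiftLeft (nat_lit 0xa000003) (nat_lit 112)) (.one (nat_lit 0xa00000200500700c00e400a15081801c611)) (.one (nat_lit 0xa00000300500700c00e600a15081801c611))) (.br (Nat.shiftLeft (nat_lit 0xb) (nat_lit 136)) (.one (nat_lit 0xa00000400500700c00e800a15081801c611)) (.br (Nat.shiftLeft (nat_lit 0x5800001) (nat_lit 113)) (.one (nat_lit 0xb00000100500700c00e200a170c1801c611)) (.one (nat_lit 0xb00000200500700c00e400a170c1801c611))))) (.br (Nat.shiftLeft (nat_lit 0x6000001) (nat_lit 113)) (.br (Nat.shiftLeft (nat_lit 0x2c00001) (nat_lit 114)) (.one (nat_lit 0xb00000300500700c00e600a170c1801c611)) (.br (Nat.shiftLeft (nat_lit 0x3) (nat_lit 138)) (.one (nat_lit 0xb00000400500700c00e800a170c1801c611)) (.one (nat_lit 0xc00000100500700c00e200a19101801c611)))) (.br (Nat.shiftLeft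 (nat_lit 0xc000003) (nat_lit 112)) (.one (nat_lit 0xc00000200500700c00e400a19101801c611)) (.br (Nat.shiftLeft (nat_lit 0x3000001) (nat_lit 114)) (.one (nat_lit 0xc00000300500700c00e600a19101801c611)) (.one (nat_lit 0xc00000400500700c00e800a19101801c611)))))) (.br (Nat.shiftLeft (nat_lit 0x1000001) (nat_lit 125)) (.br (Nat.shiftLeft (nat_lit 0x800001) (nat_lit 125)) (.br (Nat.shiftLeft (nat_lit 0x1000001003) (nat_lit 112)) (.one (nat_lit 0x100000100200500700c00e402a40e03841c711)) (.one (nat_lit 0x100000100300500700c00e602a40e03841c711))) (.br (Nat.shiftLeft (nat_lit 0x1) (nat_lit 149)) (.one (nat_lit 0x100000200300500700c00e602a40e05881c711)) (.br (Nat.shiftLeft (nat_lit 0x2000001003) (nat_lit 112)) (.one (nat_lit 0x200000100200500700c00e404a80e03841c711)) (.one (nat_lit 0x200000100300500700c00e604a80e03841c711))))) (.br (Nat.shiftLeft (nat_lit 0x1800001) (nat_lit 125)) (.br (Nat.shiftLeft (nat_lit 0x3) (nat_lit 148)) (.one (nat_lit 0x200000200300500700c00e604a80e05881c711)) (.br (Nat.shiftLeft (nat_lit 0x3000001003)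 (nat_lit 112)) (.one (nat_lit 0x300000100200500700c00e406ac0e03841c711)) (.one (nat_lit 0x300000100300500700c00e606ac0e03841c711)))) (.br (Nat.shiftLeft (nat_lit 0x1) (nat_lit 150)) (.one (nat_lit 0x300000200300500700c00e606ac0e05881c711)) (.br (Nat.shiftLeft (nat_lit 0x4000001003) (nat_lit 112)) (.one (nat_lit 0x400000100200500700c00e408b00e03841c711)) (.one (nat_lit 0x400000100300500700c00e608b00e03841c711)))))))
def t325 : k325.all (jb2 57 fl b0) = true := by decide +kernel
noncomputable def k326 : KT := (.br (Nat.shiftLeft (nat_lit 0x5000001003) (nat_lit 112)) (.br (Nat.shiftLeft (nat_lit 0x5) (nat_lit 148)) (.one (nat_lit 0x400000200300500700c00e608b00e05881c711)) (.one (nat_lit 0x500000100200500700c00e40ab40e03841c711))) (.br (Nat.shiftLeft (nat_lit 0x2800001) (nat_lit 125)) (.one (nat_lit 0x500000100300500700c00e60ab40e03841c711)) (.one (nat_lit 0x500000200300500700c00e60ab40e05881c711))))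
noncomputable def b327 : BT := .node (nat_lit 0x2f) (nat_lit 0x37849749926d924d526800196d0005630001d4c00055b216d913aca88001d0f80047320cc8b6cc9d6db225c12f52684eb28b80074b200157000065b000155100074b80015ad072316d992f40032990008b8819912a2a58c003319000ca641006b2006b2005f7005f7005f7005f7005f7005f7005f7005f7005f7005f7005f7005f7005f7005f7005f7005f700597005970059700597005970059700597005970059700597005970059700481004200042000420003c0003c0003c0003c0003c0003c0003c0003c0003c0003c0003c0003c0003c0003c0) .leaf .leaf
def t326 : k326.all (jb2 57 fl b327) = true := by decide +kernel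
noncomputable def k327 : KT := (.br (Nat.shiftLeft (nat_lit 0x6000001003) (nat_lit 112)) (.one (nat_lit 0x600000100200500700c00e40cb80e03841c711)) (.br (Nat.shiftLeft (nat_lit 0x3000001) (nat_lit 125)) (.one (nat_lit 0x600000100300500700c00e60cb80e03841c711)) (.one (nat_lit 0x600000200300500700c00e60cb80e05881c711))))
def t327 : k327.all (jb2 57 fl b0) = true := by decide +kernel
noncomputable def k328 : KT := (.br (Nat.shiftLeft (nat_lit 0x3800001) (nat_lit 125)) (.br (Nat.shiftLeft (nat_lit 0x7000001003) (nat_lit 112)) (.one (nat_lit 0x700000100200500700c00e40ebc0e03841c711)) (.one (nat_lit 0x700000100300500700c00e60ebc0e03841c711))) (.br (Nat.shiftLeft (nat_lit 0x1) (nat_lit 151)) (.one (nat_lit 0x700000200300500700c00e60ebc0e05881c711)) (.br (Nat.shiftLeft (nat_lit 0x8000001003) (nat_lit 112)) (.one (nat_lit 0x800000100200500700c00e410c00e03841c711)) (.one (nat_lit 0x800000100300500700c00e610c00e03841c711)))))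
def t328 : k328.all (jb2 57 fl b0) = true := by decide +kernel
noncomputable def k329 : KT := (.br (Nat.shiftLeft (nat_lit 0x5000001) (nat_lit 125)) (.br (Nat.shiftLeft (nat_lit 0x4800001) (nat_lit 125)) (.br (Nat.shiftLeft (nat_lit 0x9) (nat_lit 148)) (.one (nat_lit 0x800000200300500700c00e610c00e05881c711)) (.br (Nat.shiftLeft (nat_lit 0x9000001003) (nat_lit 112)) (.one (nat_lit 0x900000100200500700c00e412c40e03841c711)) (.one (nat_lit 0x900000100300500700c00e612c40e03841c711)))) (.br (Nat.shiftLeft (nat_lit 0x5) (nat_lit 149)) (.one (nat_lit 0x900000200300500700c00e612c40e05881c711)) (.br (Nat.shiftLeft (nat_lit 0xa000001003) (nat_lit 112)) (.one (nat_lit 0xa00000100200500700c00e414c80e03841c711)) (.one (nat_lit 0xa00000100300500700c00e614c80e03841c711))))) (.br (Nat.shiftLeft (nat_lit 0x5800001) (nat_lit 125)) (.br (Nat.shiftLeft (nat_lit 0xb) (nat_lit 148)) (.one (nat_lit 0xa00000200300500700c00e614c80e05881c711)) (.br (Nat.shiftLeft (nat_lit 0xb000001003) (nat_lit 112)) (.one (nat_lit 0xb00000100200500700c00e416cc0e03841c711))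 (.one (nat_lit 0xb00000100300500700c00e616cc0e03841c711)))) (.br (Nat.shiftLeft (nat_lit 0xc000001003) (nat_lit 112)) (.br (Nat.shiftLeft (nat_lit 0x3) (nat_lit 150)) (.one (nat_lit 0xb00000200300500700c00e616cc0e05881c711)) (.one (nat_lit 0xc00000100200500700c00e418d00e03841c711))) (.br (Nat.shiftLeft (nat_lit 0x6000001) (nat_lit 125)) (.one (nat_lit 0xc00000100300500700c00e618d00e03841c711)) (.one (nat_lit 0xc00000200300500700c00e618d00e05881c711))))))
def t329 : k329.all (jb2 57 fl b0) = true := by decide +kernel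
noncomputable def s18 : KT := (.br (nat_lit 0x600000100500700c00e200a0cf81801c611) (.br (nat_lit 0x800000500700c00e000a00e11a01c511) (.br (nat_lit 0x300000500700c00e000a00e078c1c511) (.br (nat_lit 0x200300500700c00e600a00e05881d700) k310 k311) (.br (nat_lit 0x400000500700c00e000a00e09901c511) k312 (.br (nat_lit 0x600000500700c00e000a00e0d981c511) k313 k314))) (.br (nat_lit 0x400000200500700c00e400a08f01801c611) (.br (nat_lit 0x100000400500700c00e800a02e41801c611) k315 k316) (.br (nat_lit 0x500000200500700c00e400a0af41801c611) k317 (.br (nat_lit 0x500000400500700c00e800a0af41801c611) k318 k319)))) (.br (nat_lit 0xa00000100500700c00e200a15081801c611) (.br (nat_lit 0x700000100500700c00e200a0efc1801c611) (.br (nat_lit 0x600000300500700c00e600a0cf81801c611) k320 k321) (.br (nat_lit 0x700000400500700c00e800a0efc1801c611) k322 (.br (nat_lit 0x800000300500700c00e600a11001801c611) k323 k324))) (.br (nat_lit 0x500000200300500700c00e60ab40e05881c711) (.br (nat_lit 0x400000100300500700c00e608b00e03841c711) k325 k326) (.br (nat_lit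 0x600000200300500700c00e60cb80e05881c711) k327 (.br (nat_lit 0x800000100300500700c00e610c00e03841c711) k328 k329)))))
noncomputable def u18 : KT := (.one (nat_lit 0x500700c00e000a00e01801c540))
def w18 : u18.all (wj 57 s18) = true := by decide +kernel
def o18 : OkW 57 (jb2 57 fl) u18 := .lift s18 _ (.br _ _ _ (.br _ _ _ (.br _ _ _ (.br _ _ _ (.leaf b0 k310 t310) (.leaf b0 k311 t311)) (.br _ _ _ (.leaf b0 k312 t312) (.br _ _ _ (.leaf b0 k313 t313) (.leaf b0 k314 t314)))) (.br _ _ _ (.br _ _ _ (.leaf b316 k315 t315) (.leaf b0 k316 t316)) (.br _ _ _ (.leaf b0 k317 t317) (.br _ _ _ (.leaf b319 k318 t318) (.leaf b320 k319 t319))))) (.br _ _ _ (.br _ _ _ (.br _ _ _ (.leaf b321 k320 t320) (.leaf b0 k321 t321)) (.br _ _ _ (.leaf b0 k322 t322) (.br _ _ _ (.leaf b0 k323 t323) (.leaf b0 k324 t324)))) (.br _ _ _ (.br _ _ _ (.leaf b0 k325 t325) (.leaf b327 k326 t326)) (.br _ _ _ (.leaf b0 k327 t327) (.br _ _ _ (.leaf b0 k328 t328) (.leaf b0 k329 t329)))))) w18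
noncomputable def k330 : KT := (.br (Nat.shiftLeft (nat_lit 0x300500700c01) (nat_lit 68)) (.br (Nat.shiftLeft (nat_lit 0x100500700c01) (nat_lit 68)) (.br (Nat.shiftLeft (nat_lit 0x500700c01) (nat_lit 68)) (.one (nat_lit 0x500700c00f000a00e01801f500)) (.br (Nat.shiftLeft (nat_lit 0x1) (nat_lit 112)) (.one (nat_lit 0x500700c010000a00e018021500)) (.one (nat_lit 0x100500700c00f200a00e01801f600)))) (.br (Nat.shiftLeft (nat_lit 0x200500700c01) (nat_lit 68)) (.br (Nat.shiftLeft (nat_lit 0x1) (nat_lit 113)) (.one (nat_lit 0x100500700c010200a00e018021600)) (.one (nat_lit 0x200500700c00f400a00e01801f600))) (.br (Nat.shiftLeft (nat_lit 0x3) (nat_lit 112)) (.one (nat_lit 0x200500700c010400a00e018021600)) (.one (nat_lit 0x300500700c00f600a00e01801f600))))) (.br (Nat.shiftLeft (nat_lit 0x1) (nat_lit 124)) (.br (Nat.shiftLeft (nat_lit 0x1) (nat_lit 114)) (.one (nat_lit 0x300500700c010600a00e018021600)) (.br (Nat.shiftLeft (nat_lit 0x400500700c01) (nat_lit 68)) (.one (nat_lit 0x400500700c00f800a00e01801f600)) (.one (nat_lit 0x400500700c010800a00e018021600))))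 (.br (Nat.shiftLeft (nat_lit 0x801) (nat_lit 113)) (.br (Nat.shiftLeft (nat_lit 0x100000500700c01) (nat_lit 68)) (.one (nat_lit 0x100000500700c00f000a00e03841e511)) (.one (nat_lit 0x100000500700c010000a00e038420511))) (.br (Nat.shiftLeft (nat_lit 0x100200500700c01) (nat_lit 68)) (.one (nat_lit 0x100200500700c00f400a00e03841f700)) (.one (nat_lit 0x100200500700c010400a00e038420760))))))
def t330 : k330.all (jb2 57 fl b0) = true := by decide +kernel
noncomputable def k331 : KT := (.one (nat_lit 0x100300500700c00f600a00e03841e760))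
def t331 : k331.all (jb2 57 fl b0) = true := by decide +kernel
noncomputable def k332 : KT := (.one (nat_lit 0x100300500700c010600a00e038420760))
def t332 : k332.all (jb2 57 fl b0) = true := by decide +kernel
noncomputable def k333 : KT := (.br (Nat.shiftLeft (nat_lit 0x1) (nat_lit 125)) (.br (Nat.shiftLeft (nat_lit 0x100400500700c01) (nat_lit 68)) (.one (nat_lit 0x100400500700c00f800a00e03841e760)) (.one (nat_lit 0x100400500700c010800a00e038420760))) (.br (Nat.shiftLeft (nat_lit 0x200000500700c01) (nat_lit 68)) (.one (nat_lit 0x200000500700c00f000a00e05881e511)) (.one (nat_lit 0x200000500700c010000a00e058820511))))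
def t333 : k333.all (jb2 57 fl b0) = true := by decide +kernel
noncomputable def k334 : KT := (.one (nat_lit 0x200300500700c00f600a00e05881e760))
def t334 : k334.all (jb2 57 fl b0) = true := by decide +kernel
noncomputable def k335 : KT := (.one (nat_lit 0x200300500700c010600a00e058820760))
def t335 : k335.all (jb2 57 fl b0) = true := by decide +kernel
noncomputable def k336 : KT := (.one (nat_lit 0x200400500700c00f800a00e05881e760))
def t336 : k336.all (jb2 57 fl b0) = true := by decide +kernel
noncomputable def k337 : KT := (.br (Nat.shiftLeft (nat_lit 0x3) (nat_lit 124)) (.one (nat_lit 0x200400500700c010800a00e058820760)) (.br (Nat.shiftLeft (nat_lit 0x300000500700c01) (nat_lit 68)) (.one (nat_lit 0x300000500700c00f000a00e078c1e511)) (.one (nat_lit 0x300000500700c010000a00e078c20511))))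
def t337 : k337.all (jb2 57 fl b0) = true := by decide +kernel
noncomputable def k338 : KT := (.br (Nat.shiftLeft (nat_lit 0x300400500700c01) (nat_lit 68)) (.one (nat_lit 0x300400500700c00f800a00e078c1e760)) (.one (nat_lit 0x300400500700c010800a00e078c20760)))
def t338 : k338.all (jb2 57 fl b0) = true := by decide +kernel
noncomputable def k339 : KT := (.br (Nat.shiftLeft (nat_lit 0x5) (nat_lit 124)) (.br (Nat.shiftLeft (nat_lit 0x400000500700c01) (nat_lit 68)) (.one (nat_lit 0x400000500700c00f000a00e09901e511)) (.one (nat_lit 0x400000500700c010000a00e099020511))) (.br (Nat.shiftLeft (nat_lit 0x500000500700c01) (nat_lit 68)) (.one (nat_lit 0x500000500700c00f000a00e0b941e511)) (.br (Nat.shiftLeft (nat_lit 0x3) (nat_lit 125)) (.one (nat_lit 0x500000500700c010000a00e0b9420511)) (.one (nat_lit 0x600000500700c00f000a00e0d981e511)))))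
def t339 : k339.all (jb2 57 fl b0) = true := by decide +kernel
noncomputable def k340 : KT := (.br (Nat.shiftLeft (nat_lit 0x7) (nat_lit 124)) (.one (nat_lit 0x600000500700c010000a00e0d9820511)) (.br (Nat.shiftLeft (nat_lit 0x700000500700c01) (nat_lit 68)) (.one (nat_lit 0x700000500700c00f000a00e0f9c1e511)) (.one (nat_lit 0x700000500700c010000a00e0f9c20511))))
def t340 : k340.all (jb2 57 fl b0) = true := by decide +kernel
noncomputable def k341 : KT := (.br (Nat.shiftLeft (nat_lit 0x9) (nat_lit 124)) (.br (Nat.shiftLeft (nat_lit 0x800000500700c01) (nat_lit 68)) (.one (nat_lit 0x800000500700c00f000a00e11a01e511)) (.one (nat_lit 0x800000500700c010000a00e11a020511))) (.br (Nat.shiftLeft (nat_lit 0x900000500700c01) (nat_lit 68)) (.one (nat_lit 0x900000500700c00f000a00e13a41e511)) (.one (nat_lit 0x900000500700c010000a00e13a420511))))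
noncomputable def b342 : BT := .node (nat_lit 0xb) (nat_lit 0x150d26c4bc001076c0032da068a258ca2a96349c24e0003a98002cb6400ba99004ea6020020900209001aa001aa001aa001aa000f0000f0000f0000f0000f0000f0) .leaf .leaf
def t341 : k341.all (jb2 57 fl b342) = true := by decide +kernel
noncomputable def k342 : KT := (.br (Nat.shiftLeft (nat_lit 0x1000001) (nat_lit 113)) (.br (Nat.shiftLeft (nat_lit 0x800001) (nat_lit 113)) (.br (Nat.shiftLeft (nat_lit 0x3) (nat_lit 126)) (.br (Nat.shiftLeft (nat_lit 0xb) (nat_lit 124)) (.br (Nat.shiftLeft (nat_lit 0xa00000500700c01) (nat_lit 68)) (.one (nat_lit 0xa00000500700c00f000a00e15a81e511)) (.one (nat_lit 0xa00000500700c010000a00e15a820511))) (.br (Nat.shiftLeft (nat_lit 0xb00000500700c01) (nat_lit 68)) (.one (nat_lit 0xb00000500700c00f000a00e17ac1e511)) (.one (nat_lit 0xb00000500700c010000a00e17ac20511)))) (.br (Nat.shiftLeft (nat_lit 0x1) (nat_lit 136)) (.br (Nat.shiftLeft (nat_lit 0xc00000500700c01) (nat_lit 68)) (.one (nat_lit 0xc00000500700c00f000a00e19b01e511)) (.one (nat_lit 0xc00000500700c010000a00e19b020511)))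 (.br (Nat.shiftLeft (nat_lit 0x100000100500700c01) (nat_lit 68)) (.one (nat_lit 0x100000100500700c00f200a02e41801e611)) (.one (nat_lit 0x100000100500700c010200a02e418020611))))) (.br (Nat.shiftLeft (nat_lit 0x400001) (nat_lit 114)) (.br (Nat.shiftLeft (nat_lit 0x1000003) (nat_lit 112)) (.br (Nat.shiftLeft (nat_lit 0x100000200500700c01) (nat_lit 68)) (.one (nat_lit 0x100000200500700c00f400a02e41801e611)) (.one (nat_lit 0x100000200500700c010400a02e418020611))) (.br (Nat.shiftLeft (nat_lit 0x100000300500700c01) (nat_lit 68)) (.one (nat_lit 0x100000300500700c00f600a02e41801e611)) (.one (nat_lit 0x100000300500700c010600a02e418020611)))) (.br (Nat.shiftLeft (nat_lit 0x1) (nat_lit 137)) (.br (Nat.shiftLeft (nat_lit 0x100000400500700c01) (nat_lit 68)) (.one (nat_lit 0x100000400500700c00f800a02e41801e611)) (.one (nat_lit 0x100000400500700c010800a02e418020611))) (.br (Nat.shiftLeft (nat_lit 0x200000100500700c01) (nat_lit 68)) (.one (nat_lit 0x200000100500700c00f200a04e81801e611)) (.one (nat_lit 0x200000100500700c010200a04e818020611))))))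 (.br (Nat.shiftLeft (nat_lit 0x1800001) (nat_lit 113)) (.br (Nat.shiftLeft (nat_lit 0x800001) (nat_lit 114)) (.br (Nat.shiftLeft (nat_lit 0x2000003) (nat_lit 112)) (.br (Nat.shiftLeft (nat_lit 0x200000200500700c01) (nat_lit 68)) (.one (nat_lit 0x200000200500700c00f400a04e81801e611)) (.one (nat_lit 0x200000200500700c010400a04e818020611))) (.br (Nat.shiftLeft (nat_lit 0x200000300500700c01) (nat_lit 68)) (.one (nat_lit 0x200000300500700c00f600a04e81801e611)) (.one (nat_lit 0x200000300500700c010600a04e818020611)))) (.br (Nat.shiftLeft (nat_lit 0x3) (nat_lit 136)) (.br (Nat.shiftLeft (nat_lit 0x200000400500700c01) (nat_lit 68)) (.one (nat_lit 0x200000400500700c00f800a04e81801e611)) (.one (nat_lit 0x200000400500700c010800a04e818020611))) (.br (Nat.shiftLeft (nat_lit 0x300000100500700c01) (nat_lit 68)) (.one (nat_lit 0x300000100500700c00f200a06ec1801e611)) (.one (nat_lit 0x300000100500700c010200a06ec18020611))))) (.br (Nat.shiftLeft (nat_lit 0xc00001) (nat_lit 114)) (.br (Nat.shiftLeft (nat_lit 0x3000003) (nat_lit 112))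 (.br (Nat.shiftLeft (nat_lit 0x300000200500700c01) (nat_lit 68)) (.one (nat_lit 0x300000200500700c00f400a06ec1801e611)) (.one (nat_lit 0x300000200500700c010400a06ec18020611))) (.br (Nat.shiftLeft (nat_lit 0x300000300500700c01) (nat_lit 68)) (.one (nat_lit 0x300000300500700c00f600a06ec1801e611)) (.one (nat_lit 0x300000300500700c010600a06ec18020611)))) (.br (Nat.shiftLeft (nat_lit 0x1) (nat_lit 138)) (.br (Nat.shiftLeft (nat_lit 0x300000400500700c01) (nat_lit 68)) (.one (nat_lit 0x300000400500700c00f800a06ec1801e611)) (.one (nat_lit 0x300000400500700c010800a06ec18020611))) (.br (Nat.shiftLeft (nat_lit 0x400000100500700c01) (nat_lit 68)) (.one (nat_lit 0x400000100500700c00f200a08f01801e611)) (.one (nat_lit 0x400000100500700c010200a08f018020611)))))))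
def t342 : k342.all (jb2 57 fl b0) = true := by decide +kernel
noncomputable def k343 : KT := (.br (Nat.shiftLeft (nat_lit 0x400000300500700c01) (nat_lit 68)) (.br (Nat.shiftLeft (nat_lit 0x400000200500700c01) (nat_lit 68)) (.one (nat_lit 0x400000200500700c00f400a08f01801e611)) (.br (Nat.shiftLeft (nat_lit 0x4000003) (nat_lit 112)) (.one (nat_lit 0x400000200500700c010400a08f018020611)) (.one (nat_lit 0x400000300500700c00f600a08f01801e611)))) (.br (Nat.shiftLeft (nat_lit 0x400000400500700c01) (nat_lit 68)) (.br (Nat.shiftLeft (nat_lit 0x1000001) (nat_lit 114)) (.one (nat_lit 0x400000300500700c010600a08f018020611)) (.one (nat_lit 0x400000400500700c00f800a08f01801e611))) (.br (Nat.shiftLeft (nat_lit 0x5) (nat_lit 136)) (.one (nat_lit 0x400000400500700c010800a08f018020611)) (.one (nat_lit 0x500000100500700c00f200a0af41801e611)))))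
def t343 : k343.all (jb2 57 fl b0) = true := by decide +kernel
noncomputable def k344 : KT := (.br (Nat.shiftLeft (nat_lit 0x500000200500700c01) (nat_lit 68)) (.br (Nat.shiftLeft (nat_lit 0x2800001) (nat_lit 113)) (.one (nat_lit 0x500000100500700c010200a0af418020611)) (.one (nat_lit 0x500000200500700c00f400a0af41801e611))) (.br (Nat.shiftLeft (nat_lit 0x5000003) (nat_lit 112)) (.one (nat_lit 0x500000200500700c010400a0af418020611)) (.one (nat_lit 0x500000300500700c00f600a0af41801e611))))
def t344 : k344.all (jb2 57 fl b0) = true := by decide +kernel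
noncomputable def k345 : KT := (.br (Nat.shiftLeft (nat_lit 0x500000400500700c01) (nat_lit 68)) (.br (Nat.shiftLeft (nat_lit 0x1400001) (nat_lit 114)) (.one (nat_lit 0x500000300500700c010600a0af418020611)) (.one (nat_lit 0x500000400500700c00f800a0af41801e611))) (.br (Nat.shiftLeft (nat_lit 0x3) (nat_lit 137)) (.one (nat_lit 0x500000400500700c010800a0af418020611)) (.one (nat_lit 0x600000100500700c00f200a0cf81801e611))))
def t345 : k345.all (jb2 57 fl b0) = true := by decide +kernel
noncomputable def k346 : KT := (.br (Nat.shiftLeft (nat_lit 0x3000001) (nat_lit 113)) (.one (nat_lit 0x600000100500700c010200a0cf818020611)) (.br (Nat.shiftLeft (nat_lit 0x600000200500700c01) (nat_lit 68)) (.one (nat_lit 0x600000200500700c00f400a0cf81801e611)) (.one (nat_lit 0x600000200500700c010400a0cf818020611))))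
def t346 : k346.all (jb2 57 fl b0) = true := by decide +kernel
noncomputable def k347 : KT := (.br (Nat.shiftLeft (nat_lit 0x1800001) (nat_lit 114)) (.br (Nat.shiftLeft (nat_lit 0x600000300500700c01) (nat_lit 68)) (.one (nat_lit 0x600000300500700c00f600a0cf81801e611)) (.one (nat_lit 0x600000300500700c010600a0cf818020611))) (.br (Nat.shiftLeft (nat_lit 0x600000400500700c01) (nat_lit 68)) (.one (nat_lit 0x600000400500700c00f800a0cf81801e611)) (.one (nat_lit 0x600000400500700c010800a0cf818020611))))
def t347 : k347.all (jb2 57 fl b0) = true := by decide +kernel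
noncomputable def k348 : KT := (.br (Nat.shiftLeft (nat_lit 0x700000100500700c01) (nat_lit 68)) (.one (nat_lit 0x700000100500700c00f200a0efc1801e611)) (.br (Nat.shiftLeft (nat_lit 0x3800001) (nat_lit 113)) (.one (nat_lit 0x700000100500700c010200a0efc18020611)) (.one (nat_lit 0x700000200500700c00f400a0efc1801e611))))
def t348 : k348.all (jb2 57 fl b0) = true := by decide +kernel
noncomputable def k349 : KT := (.br (Nat.shiftLeft (nat_lit 0x1c00001) (nat_lit 114)) (.br (Nat.shiftLeft (nat_lit 0x7000003) (nat_lit 112)) (.one (nat_lit 0x700000200500700c010400a0efc18020611)) (.br (Nat.shiftLeft (nat_lit 0x700000300500700c01) (nat_lit 68)) (.one (nat_lit 0x700000300500700c00f600a0efc1801e611)) (.one (nat_lit 0x700000300500700c010600a0efc18020611)))) (.br (Nat.shiftLeft (nat_lit 0x700000400500700c01) (nat_lit 68)) (.one (nat_lit 0x700000400500700c00f800a0efc1801e611)) (.br (Nat.shiftLeft (nat_lit 0x1) (nat_lit 139)) (.one (nat_lit 0x700000400500700c010800a0efc18020611)) (.one (nat_lit 0x800000100500700c00f200a11001801e611)))))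
def t349 : k349.all (jb2 57 fl b0) = true := by decide +kernel
noncomputable def k350 : KT := (.br (Nat.shiftLeft (nat_lit 0x8000003) (nat_lit 112)) (.br (Nat.shiftLeft (nat_lit 0x4000001) (nat_lit 113)) (.one (nat_lit 0x800000100500700c010200a110018020611)) (.br (Nat.shiftLeft (nat_lit 0x800000200500700c01) (nat_lit 68)) (.one (nat_lit 0x800000200500700c00f400a11001801e611)) (.one (nat_lit 0x800000200500700c010400a110018020611)))) (.br (Nat.shiftLeft (nat_lit 0x2000001) (nat_lit 114)) (.br (Nat.shiftLeft (nat_lit 0x800000300500700c01) (nat_lit 68)) (.one (nat_lit 0x800000300500700c00f600a11001801e611)) (.one (nat_lit 0x800000300500700c010600a110018020611))) (.br (Nat.shiftLeft (nat_lit 0x800000400500700c01) (nat_lit 68)) (.one (nat_lit 0x800000400500700c00f800a11001801e611)) (.one (nat_lit 0x800000400500700c010800a110018020611)))))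
def t350 : k350.all (jb2 57 fl b0) = true := by decide +kernel
noncomputable def k351 : KT := (.br (Nat.shiftLeft (nat_lit 0x900000300500700c01) (nat_lit 68)) (.br (Nat.shiftLeft (nat_lit 0x4800001) (nat_lit 113)) (.br (Nat.shiftLeft (nat_lit 0x900000100500700c01) (nat_lit 68)) (.one (nat_lit 0x900000100500700c00f200a13041801e611)) (.one (nat_lit 0x900000100500700c010200a130418020611))) (.br (Nat.shiftLeft (nat_lit 0x900000200500700c01) (nat_lit 68)) (.one (nat_lit 0x900000200500700c00f400a13041801e611)) (.br (Nat.shiftLeft (nat_lit 0x9000003) (nat_lit 112)) (.one (nat_lit 0x900000200500700c010400a130418020611)) (.one (nat_lit 0x900000300500700c00f600a13041801e611))))) (.br (Nat.shiftLeft (nat_lit 0x5) (nat_lit 137)) (.br (Nat.shiftLeft (nat_lit 0x2400001) (nat_lit 114)) (.one (nat_lit 0x900000300500700c010600a130418020611)) (.br (Nat.shiftLeft (nat_lit 0x900000400500700c01) (nat_lit 68)) (.one (nat_lit 0x900000400500700c00f800a13041801e611)) (.one (nat_lit 0x900000400500700c010800a130418020611)))) (.br (Nat.shiftLeft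 (nat_lit 0xa00000100500700c01) (nat_lit 68)) (.one (nat_lit 0xa00000100500700c00f200a15081801e611)) (.br (Nat.shiftLeft (nat_lit 0x5000001) (nat_lit 113)) (.one (nat_lit 0xa00000100500700c010200a150818020611)) (.one (nat_lit 0xa00000200500700c00f400a15081801e611))))))
def t351 : k351.all (jb2 57 fl b0) = true := by decide +kernel
noncomputable def k352 : KT := (.br (Nat.shiftLeft (nat_lit 0x3) (nat_lit 138)) (.br (Nat.shiftLeft (nat_lit 0xb00000100500700c01) (nat_lit 68)) (.br (Nat.shiftLeft (nat_lit 0x2800001) (nat_lit 114)) (.br (Nat.shiftLeft (nat_lit 0xa000003) (nat_lit 112)) (.one (nat_lit 0xa00000200500700c010400a150818020611)) (.br (Nat.shiftLeft (nat_lit 0xa00000300500700c01) (nat_lit 68)) (.one (nat_lit 0xa00000300500700c00f600a15081801e611)) (.one (nat_lit 0xa00000300500700c010600a150818020611)))) (.br (Nat.shiftLeft (nat_lit 0xa00000400500700c01) (nat_lit 68)) (.one (nat_lit 0xa00000400500700c00f800a15081801e611)) (.br (Nat.shiftLeft (nat_lit 0xb) (nat_lit 136)) (.one (nat_lit 0xa00000400500700c010800a150818020611))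 (.one (nat_lit 0xb00000100500700c00f200a170c1801e611))))) (.br (Nat.shiftLeft (nat_lit 0xb000003) (nat_lit 112)) (.br (Nat.shiftLeft (nat_lit 0x5800001) (nat_lit 113)) (.one (nat_lit 0xb00000100500700c010200a170c18020611)) (.br (Nat.shiftLeft (nat_lit 0xb00000200500700c01) (nat_lit 68)) (.one (nat_lit 0xb00000200500700c00f400a170c1801e611)) (.one (nat_lit 0xb00000200500700c010400a170c18020611)))) (.br (Nat.shiftLeft (nat_lit 0x2c00001) (nat_lit 114)) (.br (Nat.shiftLeft (nat_lit 0xb00000300500700c01) (nat_lit 68)) (.one (nat_lit 0xb00000300500700c00f600a170c1801e611)) (.one (nat_lit 0xb00000300500700c010600a170c18020611))) (.br (Nat.shiftLeft (nat_lit 0xb00000400500700c01) (nat_lit 68)) (.one (nat_lit 0xb00000400500700c00f800a170c1801e611)) (.one (nat_lit 0xb00000400500700c010800a170c18020611)))))) (.br (Nat.shiftLeft (nat_lit 0x3000001) (nat_lit 114)) (.br (Nat.shiftLeft (nat_lit 0xc00000200500700c01) (nat_lit 68)) (.br (Nat.shiftLeft (nat_lit 0xc00000100500700c01) (nat_lit 68)) (.one (nat_lit 0xc00000100500700c00f200a19101801e611))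 (.br (Nat.shiftLeft (nat_lit 0x6000001) (nat_lit 113)) (.one (nat_lit 0xc00000100500700c010200a191018020611)) (.one (nat_lit 0xc00000200500700c00f400a19101801e611)))) (.br (Nat.shiftLeft (nat_lit 0xc000003) (nat_lit 112)) (.one (nat_lit 0xc00000200500700c010400a191018020611)) (.br (Nat.shiftLeft (nat_lit 0xc00000300500700c01) (nat_lit 68)) (.one (nat_lit 0xc00000300500700c00f600a19101801e611)) (.one (nat_lit 0xc00000300500700c010600a191018020611))))) (.br (Nat.shiftLeft (nat_lit 0x1) (nat_lit 149)) (.br (Nat.shiftLeft (nat_lit 0xc00000400500700c01) (nat_lit 68)) (.one (nat_lit 0xc00000400500700c00f800a19101801e611)) (.br (Nat.shiftLeft (nat_lit 0x1) (nat_lit 148)) (.one (nat_lit 0xc00000400500700c010800a191018020611)) (.one (nat_lit 0x100000100200500700c00f402a40e03841e711)))) (.br (Nat.shiftLeft (nat_lit 0x1) (nat_lit 150)) (.br (Nat.shiftLeft (nat_lit 0x3) (nat_lit 148)) (.one (nat_lit 0x200000100200500700c00f404a80e03841e711)) (.one (nat_lit 0x300000100200500700c00f406ac0e03841e711))) (.br (Nat.shiftLeft (nat_lit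 0x5) (nat_lit 148)) (.one (nat_lit 0x400000100200500700c00f408b00e03841e711)) (.one (nat_lit 0x500000100200500700c00f40ab40e03841e711)))))))
def t352 : k352.all (jb2 57 fl b0) = true := by decide +kernel
noncomputable def k353 : KT := (.br (Nat.shiftLeft (nat_lit 0x9) (nat_lit 148)) (.br (Nat.shiftLeft (nat_lit 0x7) (nat_lit 148)) (.one (nat_lit 0x600000100200500700c00f40cb80e03841e711)) (.br (Nat.shiftLeft (nat_lit 0x1) (nat_lit 151)) (.one (nat_lit 0x700000100200500700c00f40ebc0e03841e711)) (.one (nat_lit 0x800000100200500700c00f410c00e03841e711)))) (.br (Nat.shiftLeft (nat_lit 0xb) (nat_lit 148)) (.br (Nat.shiftLeft (nat_lit 0x5) (nat_lit 149)) (.one (nat_lit 0x900000100200500700c00f412c40e03841e711)) (.one (nat_lit 0xa00000100200500700c00f414c80e03841e711))) (.br (Nat.shiftLeft (nat_lit 0x3) (nat_lit 150)) (.one (nat_lit 0xb00000100200500700c00f416cc0e03841e711)) (.one (nat_lit 0xc00000100200500700c00f418d00e03841e711)))))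
def t353 : k353.all (jb2 57 fl b0) = true := by decide +kernel
noncomputable def s19 : KT := (.br (nat_lit 0x900000500700c010000a00e13a420511) (.br (nat_lit 0x200300500700c010600a00e058820760) (.br (nat_lit 0x100300500700c010600a00e038420760) (.br (nat_lit 0x100200500700c010400a00e038420760) k330 (.br (nat_lit 0x100300500700c00f600a00e03841e760) k331 k332)) (.br (nat_lit 0x200000500700c010000a00e058820511) k333 (.br (nat_lit 0x200300500700c00f600a00e05881e760) k334 k335))) (.br (nat_lit 0x300400500700c010800a00e078c20760) (.br (nat_lit 0x200400500700c00f800a00e05881e760) k336 (.br (nat_lit 0x300000500700c010000a00e078c20511) k337 k338)) (.br (nat_lit 0x600000500700c00f000a00e0d981e511) k339 (.br (nat_lit 0x700000500700c010000a00e0f9c20511) k340 k341)))) (.br (nat_lit 0x600000400500700c010800a0cf818020611) (.br (nat_lit 0x500000300500700c00f600a0af41801e611) (.br (nat_lit 0x400000100500700c010200a08f018020611) k342 (.br (nat_lit 0x500000100500700c00f200a0af41801e611) k343 k344)) (.br (nat_lit 0x600000100500700c00f200a0cf81801e611)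 k345 (.br (nat_lit 0x600000200500700c010400a0cf818020611) k346 k347))) (.br (nat_lit 0x800000400500700c010800a110018020611) (.br (nat_lit 0x700000200500700c00f400a0efc1801e611) k348 (.br (nat_lit 0x800000100500700c00f200a11001801e611) k349 k350)) (.br (nat_lit 0xa00000200500700c00f400a15081801e611) k351 (.br (nat_lit 0x500000100200500700c00f40ab40e03841e711) k352 k353)))))
noncomputable def u19 : KT := (.br (Nat.shiftLeft (nat_lit 0x500700c01) (nat_lit 68)) (.one (nat_lit 0x500700c00f000a00e01801e540)) (.one (nat_lit 0x500700c010000a00e018020540)))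
def w19 : u19.all (wj 57 s19) = true := by decide +kernel
def o19 : OkW 57 (jb2 57 fl) u19 := .lift s19 _ (.br _ _ _ (.br _ _ _ (.br _ _ _ (.br _ _ _ (.leaf b0 k330 t330) (.br _ _ _ (.leaf b0 k331 t331) (.leaf b0 k332 t332))) (.br _ _ _ (.leaf b0 k333 t333) (.br _ _ _ (.leaf b0 k334 t334) (.leaf b0 k335 t335)))) (.br _ _ _ (.br _ _ _ (.leaf b0 k336 t336) (.br _ _ _ (.leaf b0 k337 t337) (.leaf b0 k338 t338))) (.br _ _ _ (.leaf b0 k339 t339) (.br _ _ _ (.leaf b0 k340 t340) (.leaf b342 k341 t341))))) (.br _ _ _ (.br _ _ _ (.br _ _ _ (.leaf b0 k342 t342) (.br _ _ _ (.leaf b0 k343 t343) (.leaf b0 k344 t344))) (.br _ _ _ (.leaf b0 k345 t345) (.br _ _ _ (.leaf b0 k346 t346) (.leaf b0 k347 t347)))) (.br _ _ _ (.br _ _ _ (.leaf b0 k348 t348) (.br _ _ _ (.leaf b0 k349 t349) (.leaf b0 k350 t350))) (.br _ _ _ (.leaf b0 k351 t351) (.br _ _ _ (.leaf b0 k352 t352) (.leaf b0 k353 t353)))))) w19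
noncomputable def k354 : KT := (.br (Nat.shiftLeft (nat_lit 0x500700d) (nat_lit 76)) (.br (Nat.shiftLeft (nat_lit 0x2803806009) (nat_lit 65)) (.one (nat_lit 0x500700c011000a00e018023500)) (.one (nat_lit 0x500700c012000a00e018025500))) (.br (Nat.shiftLeft (nat_lit 0x1) (nat_lit 112)) (.one (nat_lit 0x500700d00e000a00e01a01d500)) (.one (nat_lit 0x100500700c011200a00e018022650))))
def t354 : k354.all (jb2 57 fl b0) = true := by decide +kernel
noncomputable def k355 : KT := (.br (Nat.shiftLeft (nat_lit 0x100500700d) (nat_lit 76)) (.one (nat_lit 0x100500700c012200a00e018024650)) (.br (Nat.shiftLeft (nat_lit 0x1) (nat_lit 113)) (.one (nat_lit 0x100500700d00e200a00e01a01d600)) (.one (nat_lit 0x200500700c011400a00e018023600))))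
def t355 : k355.all (jb2 57 fl b0) = true := by decide +kernel
noncomputable def k356 : KT := (.br (Nat.shiftLeft (nat_lit 0x200500700d) (nat_lit 76)) (.one (nat_lit 0x200500700c012400a00e018024650)) (.br (Nat.shiftLeft (nat_lit 0x3) (nat_lit 112)) (.one (nat_lit 0x200500700d00e400a00e01a01d600)) (.one (nat_lit 0x300500700c011600a00e018023600))))
def t356 : k356.all (jb2 57 fl b0) = true := by decide +kernel
noncomputable def k357 : KT := (.br (Nat.shiftLeft (nat_lit 0x300500700d) (nat_lit 76)) (.one (nat_lit 0x300500700c012600a00e018024650)) (.br (Nat.shiftLeft (nat_lit 0x1) (nat_lit 114)) (.one (nat_lit 0x300500700d00e600a00e01a01d600)) (.one (nat_lit 0x400500700c011800a00e018023600))))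
def t357 : k357.all (jb2 57 fl b0) = true := by decide +kernel
noncomputable def k358 : KT := (.br (Nat.shiftLeft (nat_lit 0x1) (nat_lit 124)) (.br (Nat.shiftLeft (nat_lit 0x400500700d) (nat_lit 76)) (.one (nat_lit 0x400500700c012800a00e018024650)) (.one (nat_lit 0x400500700d00e800a00e01a01d600))) (.br (Nat.shiftLeft (nat_lit 0x800002803806009) (nat_lit 65)) (.one (nat_lit 0x100000500700c011000a00e038422511)) (.br (Nat.shiftLeft (nat_lit 0x100000500700d) (nat_lit 76)) (.one (nat_lit 0x100000500700c012000a00e038424511)) (.one (nat_lit 0x100000500700d00e000a00e03a41c511)))))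
def t358 : k358.all (jb2 57 fl b0) = true := by decide +kernel
noncomputable def k359 : KT := (.one (nat_lit 0x100200500700c011400a00e038422760))
def t359 : k359.all (jb2 57 fl b0) = true := by decide +kernel
noncomputable def k360 : KT := (.one (nat_lit 0x100200500700d00e400a00e03a41c760))
def t360 : k360.all (jb2 57 fl b0) = true := by decide +kernel
noncomputable def k361 : KT := (.one (nat_lit 0x100300500700c011600a00e038422760))
def t361 : k361.all (jb2 57 fl b0) = true := by decide +kernel
noncomputable def k362 : KT := (.br (Nat.shiftLeft (nat_lit 0x401) (nat_lit 114)) (.one (nat_lit 0x100300500700d00e600a00e03a41c760)) (.one (nat_lit 0x100400500700c011800a00e038422760)))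
def t362 : k362.all (jb2 57 fl b0) = true := by decide +kernel
noncomputable def k363 : KT := (.br (Nat.shiftLeft (nat_lit 0x1000002803806009) (nat_lit 65)) (.br (Nat.shiftLeft (nat_lit 0x1) (nat_lit 125)) (.one (nat_lit 0x100400500700d00e800a00e03a41c760)) (.one (nat_lit 0x200000500700c011000a00e058822511))) (.br (Nat.shiftLeft (nat_lit 0x200000500700d) (nat_lit 76)) (.one (nat_lit 0x200000500700c012000a00e058824511)) (.br (Nat.shiftLeft (nat_lit 0x1001) (nat_lit 113)) (.one (nat_lit 0x200000500700d00e000a00e05a81c511)) (.one (nat_lit 0x200300500700c011600a00e058822760)))))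
def t363 : k363.all (jb2 57 fl b0) = true := by decide +kernel
noncomputable def k364 : KT := (.one (nat_lit 0x200300500700d00e600a00e05a81c760))
def t364 : k364.all (jb2 57 fl b0) = true := by decide +kernel
noncomputable def k365 : KT := (.br (Nat.shiftLeft (nat_lit 0x3) (nat_lit 124)) (.br (Nat.shiftLeft (nat_lit 0x200400500700d) (nat_lit 76)) (.one (nat_lit 0x200400500700c011800a00e058822760)) (.one (nat_lit 0x200400500700d00e800a00e05a81c760))) (.br (Nat.shiftLeft (nat_lit 0x1800002803806009) (nat_lit 65)) (.one (nat_lit 0x300000500700c011000a00e078c22511)) (.br (Nat.shiftLeft (nat_lit 0x300000500700d) (nat_lit 76)) (.one (nat_lit 0x300000500700c012000a00e078c24511)) (.one (nat_lit 0x300000500700d00e000a00e07ac1c511)))))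
def t365 : k365.all (jb2 57 fl b0) = true := by decide +kernel
noncomputable def k366 : KT := (.br (Nat.shiftLeft (nat_lit 0x1) (nat_lit 126)) (.br (Nat.shiftLeft (nat_lit 0x300400500700d) (nat_lit 76)) (.one (nat_lit 0x300400500700c011800a00e078c22760)) (.one (nat_lit 0x300400500700d00e800a00e07ac1c760))) (.br (Nat.shiftLeft (nat_lit 0x2000002803806009) (nat_lit 65)) (.one (nat_lit 0x400000500700c011000a00e099022511)) (.one (nat_lit 0x400000500700c012000a00e099024511))))
def t366 : k366.all (jb2 57 fl b0) = true := by decide +kernel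
noncomputable def k367 : KT := (.br (Nat.shiftLeft (nat_lit 0x500000500700d) (nat_lit 76)) (.br (Nat.shiftLeft (nat_lit 0x5) (nat_lit 124)) (.one (nat_lit 0x400000500700d00e000a00e09b01c511)) (.br (Nat.shiftLeft (nat_lit 0x2800002803806009) (nat_lit 65)) (.one (nat_lit 0x500000500700c011000a00e0b9422511)) (.one (nat_lit 0x500000500700c012000a00e0b9424511)))) (.br (Nat.shiftLeft (nat_lit 0x3) (nat_lit 125)) (.one (nat_lit 0x500000500700d00e000a00e0bb41c511)) (.br (Nat.shiftLeft (nat_lit 0x3000002803806009) (nat_lit 65)) (.one (nat_lit 0x600000500700c011000a00e0d9822511)) (.one (nat_lit 0x600000500700c012000a00e0d9824511)))))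
def t367 : k367.all (jb2 57 fl b0) = true := by decide +kernel
noncomputable def k368 : KT := (.br (Nat.shiftLeft (nat_lit 0x3800002803806009) (nat_lit 65)) (.br (Nat.shiftLeft (nat_lit 0x7) (nat_lit 124)) (.one (nat_lit 0x600000500700d00e000a00e0db81c511)) (.one (nat_lit 0x700000500700c011000a00e0f9c22511))) (.br (Nat.shiftLeft (nat_lit 0x700000500700d) (nat_lit 76)) (.one (nat_lit 0x700000500700c012000a00e0f9c24511)) (.one (nat_lit 0x700000500700d00e000a00e0fbc1c511))))
def t368 : k368.all (jb2 57 fl b0) = true := by decide +kernel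
noncomputable def k369 : KT := (.br (Nat.shiftLeft (nat_lit 0x4800002803806009) (nat_lit 65)) (.br (Nat.shiftLeft (nat_lit 0x800000500700d) (nat_lit 76)) (.br (Nat.shiftLeft (nat_lit 0x4000002803806009) (nat_lit 65)) (.one (nat_lit 0x800000500700c011000a00e11a022511)) (.one (nat_lit 0x800000500700c012000a00e11a024511))) (.br (Nat.shiftLeft (nat_lit 0x9) (nat_lit 124)) (.one (nat_lit 0x800000500700d00e000a00e11c01c511)) (.one (nat_lit 0x900000500700c011000a00e13a422511)))) (.br (Nat.shiftLeft (nat_lit 0x5) (nat_lit 125)) (.br (Nat.shiftLeft (nat_lit 0x900000500700d) (nat_lit 76)) (.one (nat_lit 0x900000500700c012000a00e13a424511)) (.one (nat_lit 0x900000500700d00e000a00e13c41c511))) (.br (Nat.shiftLeft (nat_lit 0x5000002803806009) (nat_lit 65)) (.one (nat_lit 0xa00000500700c011000a00e15a822511)) (.one (nat_lit 0xa00000500700c012000a00e15a824511)))))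
def t369 : k369.all (jb2 57 fl b0) = true := by decide +kernel
noncomputable def k370 : KT := (.br (Nat.shiftLeft (nat_lit 0x1000001) (nat_lit 113)) (.br (Nat.shiftLeft (nat_lit 0x1) (nat_lit 136)) (.br (Nat.shiftLeft (nat_lit 0x3) (nat_lit 126)) (.br (Nat.shiftLeft (nat_lit 0x5800002803806009) (nat_lit 65)) (.br (Nat.shiftLeft (nat_lit 0xb) (nat_lit 124)) (.one (nat_lit 0xa00000500700d00e000a00e15c81c511)) (.one (nat_lit 0xb00000500700c011000a00e17ac22511))) (.br (Nat.shiftLeft (nat_lit 0xb00000500700d) (nat_lit 76)) (.one (nat_lit 0xb00000500700c012000a00e17ac24511)) (.one (nat_lit 0xb00000500700d00e000a00e17cc1c511)))) (.br (Nat.shiftLeft (nat_lit 0xc00000500700d) (nat_lit 76)) (.br (Nat.shiftLeft (nat_lit 0x6000002803806009) (nat_lit 65)) (.one (nat_lit 0xc00000500700c011000a00e19b022511)) (.one (nat_lit 0xc00000500700c012000a00e19b024511))) (.br (Nat.shiftLeft (nat_lit 0xd) (nat_lit 124)) (.one (nat_lit 0xc00000500700d00e000a00e19d01c511)) (.one (nat_lit 0xd00000500700d00e000a00e1bd41c511))))) (.br (Nat.shiftLeft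 (nat_lit 0x100000300500700d) (nat_lit 76)) (.br (Nat.shiftLeft (nat_lit 0x100000200500700d) (nat_lit 76)) (.br (Nat.shiftLeft (nat_lit 0x800001) (nat_lit 113)) (.one (nat_lit 0x100000100500700d00e200a02e41a01c611)) (.one (nat_lit 0x100000200500700c011400a02e418022611))) (.br (Nat.shiftLeft (nat_lit 0x1000003) (nat_lit 112)) (.one (nat_lit 0x100000200500700d00e400a02e41a01c611)) (.one (nat_lit 0x100000300500700c011600a02e418022611)))) (.br (Nat.shiftLeft (nat_lit 0x100000400500700d) (nat_lit 76)) (.br (Nat.shiftLeft (nat_lit 0x400001) (nat_lit 114)) (.one (nat_lit 0x100000300500700d00e600a02e41a01c611)) (.one (nat_lit 0x100000400500700c011800a02e418022611))) (.br (Nat.shiftLeft (nat_lit 0x1) (nat_lit 137)) (.one (nat_lit 0x100000400500700d00e800a02e41a01c611)) (.one (nat_lit 0x200000100500700d00e200a04e81a01c611)))))) (.br (Nat.shiftLeft (nat_lit 0x300000200500700d) (nat_lit 76)) (.br (Nat.shiftLeft (nat_lit 0x800001) (nat_lit 114)) (.br (Nat.shiftLeft (nat_lit 0x2000003) (nat_lit 112)) (.br (Nat.shiftLeft (nat_lit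 0x200000200500700d) (nat_lit 76)) (.one (nat_lit 0x200000200500700c011400a04e818022611)) (.one (nat_lit 0x200000200500700d00e400a04e81a01c611))) (.br (Nat.shiftLeft (nat_lit 0x200000300500700d) (nat_lit 76)) (.one (nat_lit 0x200000300500700c011600a04e818022611)) (.one (nat_lit 0x200000300500700d00e600a04e81a01c611)))) (.br (Nat.shiftLeft (nat_lit 0x3) (nat_lit 136)) (.br (Nat.shiftLeft (nat_lit 0x200000400500700d) (nat_lit 76)) (.one (nat_lit 0x200000400500700c011800a04e818022611)) (.one (nat_lit 0x200000400500700d00e800a04e81a01c611))) (.br (Nat.shiftLeft (nat_lit 0x1800001) (nat_lit 113)) (.one (nat_lit 0x300000100500700d00e200a06ec1a01c611)) (.one (nat_lit 0x300000200500700c011400a06ec18022611))))) (.br (Nat.shiftLeft (nat_lit 0x300000400500700d) (nat_lit 76)) (.br (Nat.shiftLeft (nat_lit 0x300000300500700d) (nat_lit 76)) (.br (Nat.shiftLeft (nat_lit 0x3000003) (nat_lit 112)) (.one (nat_lit 0x300000200500700d00e400a06ec1a01c611)) (.one (nat_lit 0x300000300500700c011600a06ec18022611))) (.br (Nat.shiftLeft (nat_lit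 0xc00001) (nat_lit 114)) (.one (nat_lit 0x300000300500700d00e600a06ec1a01c611)) (.one (nat_lit 0x300000400500700c011800a06ec18022611)))) (.br (Nat.shiftLeft (nat_lit 0x2000001) (nat_lit 113)) (.br (Nat.shiftLeft (nat_lit 0x1) (nat_lit 138)) (.one (nat_lit 0x300000400500700d00e800a06ec1a01c611)) (.one (nat_lit 0x400000100500700d00e200a08f01a01c611))) (.br (Nat.shiftLeft (nat_lit 0x400000200500700d) (nat_lit 76)) (.one (nat_lit 0x400000200500700c011400a08f018022611)) (.br (Nat.shiftLeft (nat_lit 0x4000003) (nat_lit 112)) (.one (nat_lit 0x400000200500700d00e400a08f01a01c611)) (.one (nat_lit 0x400000300500700c011600a08f018022611))))))))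
def t370 : k370.all (jb2 57 fl b0) = true := by decide +kernel
noncomputable def k371 : KT := (.br (Nat.shiftLeft (nat_lit 0x5) (nat_lit 136)) (.br (Nat.shiftLeft (nat_lit 0x1000001) (nat_lit 114)) (.one (nat_lit 0x400000300500700d00e600a08f01a01c611)) (.br (Nat.shiftLeft (nat_lit 0x400000400500700d) (nat_lit 76)) (.one (nat_lit 0x400000400500700c011800a08f018022611)) (.one (nat_lit 0x400000400500700d00e800a08f01a01c611)))) (.br (Nat.shiftLeft (nat_lit 0x500000200500700d) (nat_lit 76)) (.br (Nat.shiftLeft (nat_lit 0x2800001) (nat_lit 113)) (.one (nat_lit 0x500000100500700d00e200a0af41a01c611)) (.one (nat_lit 0x500000200500700c011400a0af418022611))) (.br (Nat.shiftLeft (nat_lit 0x5000003) (nat_lit 112)) (.one (nat_lit 0x500000200500700d00e400a0af41a01c611)) (.one (nat_lit 0x500000300500700c011600a0af418022611)))))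
def t371 : k371.all (jb2 57 fl b0) = true := by decide +kernel
noncomputable def k372 : KT := (.br (Nat.shiftLeft (nat_lit 0x500000400500700d) (nat_lit 76)) (.br (Nat.shiftLeft (nat_lit 0x1400001) (nat_lit 114)) (.one (nat_lit 0x500000300500700d00e600a0af41a01c611)) (.one (nat_lit 0x500000400500700c011800a0af418022611))) (.br (Nat.shiftLeft (nat_lit 0x3) (nat_lit 137)) (.one (nat_lit 0x500000400500700d00e800a0af41a01c611)) (.br (Nat.shiftLeft (nat_lit 0x3000001) (nat_lit 113)) (.one (nat_lit 0x600000100500700d00e200a0cf81a01c611)) (.one (nat_lit 0x600000200500700c011400a0cf818022611)))))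
def t372 : k372.all (jb2 57 fl b0) = true := by decide +kernel
noncomputable def k373 : KT := (.br (Nat.shiftLeft (nat_lit 0x600000300500700d) (nat_lit 76)) (.br (Nat.shiftLeft (nat_lit 0x6000003) (nat_lit 112)) (.one (nat_lit 0x600000200500700d00e400a0cf81a01c611)) (.one (nat_lit 0x600000300500700c011600a0cf818022611))) (.br (Nat.shiftLeft (nat_lit 0x1800001) (nat_lit 114)) (.one (nat_lit 0x600000300500700d00e600a0cf81a01c611)) (.br (Nat.shiftLeft (nat_lit 0x600000400500700d) (nat_lit 76)) (.one (nat_lit 0x600000400500700c011800a0cf818022611)) (.one (nat_lit 0x600000400500700d00e800a0cf81a01c611)))))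
def t373 : k373.all (jb2 57 fl b0) = true := by decide +kernel
noncomputable def k374 : KT := (.br (Nat.shiftLeft (nat_lit 0x7000003) (nat_lit 112)) (.br (Nat.shiftLeft (nat_lit 0x3800001) (nat_lit 113)) (.one (nat_lit 0x700000100500700d00e200a0efc1a01c611)) (.br (Nat.shiftLeft (nat_lit 0x700000200500700d) (nat_lit 76)) (.one (nat_lit 0x700000200500700c011400a0efc18022611)) (.one (nat_lit 0x700000200500700d00e400a0efc1a01c611)))) (.br (Nat.shiftLeft (nat_lit 0x700000300500700d) (nat_lit 76)) (.one (nat_lit 0x700000300500700c011600a0efc18022611)) (.br (Nat.shiftLeft (nat_lit 0x1c00001) (nat_lit 114)) (.one (nat_lit 0x700000300500700d00e600a0efc1a01c611)) (.one (nat_lit 0x700000400500700c011800a0efc18022611)))))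
def t374 : k374.all (jb2 57 fl b0) = true := by decide +kernel
noncomputable def k375 : KT := (.br (Nat.shiftLeft (nat_lit 0x8000003) (nat_lit 112)) (.br (Nat.shiftLeft (nat_lit 0x4000001) (nat_lit 113)) (.br (Nat.shiftLeft (nat_lit 0x1) (nat_lit 139)) (.one (nat_lit 0x700000400500700d00e800a0efc1a01c611)) (.one (nat_lit 0x800000100500700d00e200a11001a01c611))) (.br (Nat.shiftLeft (nat_lit 0x800000200500700d) (nat_lit 76)) (.one (nat_lit 0x800000200500700c011400a110018022611)) (.one (nat_lit 0x800000200500700d00e400a11001a01c611)))) (.br (Nat.shiftLeft (nat_lit 0x2000001) (nat_lit 114)) (.br (Nat.shiftLeft (nat_lit 0x800000300500700d) (nat_lit 76)) (.one (nat_lit 0x800000300500700c011600a110018022611)) (.one (nat_lit 0x800000300500700d00e600a11001a01c611))) (.br (Nat.shiftLeft (nat_lit 0x800000400500700d) (nat_lit 76)) (.one (nat_lit 0x800000400500700c011800a110018022611)) (.br (Nat.shiftLeft (nat_lit 0x9) (nat_lit 136)) (.one (nat_lit 0x800000400500700d00e800a11001a01c611)) (.one (nat_lit 0x900000100500700d00e200a13041a01c611))))))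
def t375 : k375.all (jb2 57 fl b0) = true := by decide +kernel
noncomputable def k376 : KT := (.br (Nat.shiftLeft (nat_lit 0xb00000200500700d) (nat_lit 76)) (.br (Nat.shiftLeft (nat_lit 0x5000001) (nat_lit 113)) (.br (Nat.shiftLeft (nat_lit 0x900000300500700d) (nat_lit 76)) (.br (Nat.shiftLeft (nat_lit 0x900000200500700d) (nat_lit 76)) (.one (nat_lit 0x900000200500700c011400a130418022611)) (.br (Nat.shiftLeft (nat_lit 0x9000003) (nat_lit 112)) (.one (nat_lit 0x900000200500700d00e400a13041a01c611)) (.one (nat_lit 0x900000300500700c011600a130418022611)))) (.br (Nat.shiftLeft (nat_lit 0x900000400500700d) (nat_lit 76)) (.br (Nat.shiftLeft (nat_lit 0x2400001) (nat_lit 114)) (.one (nat_lit 0x900000300500700d00e600a13041a01c611)) (.one (nat_lit 0x900000400500700c011800a130418022611))) (.br (Nat.shiftLeft (nat_lit 0x5) (nat_lit 137)) (.one (nat_lit 0x900000400500700d00e800a13041a01c611)) (.one (nat_lit 0xa00000100500700d00e200a15081a01c611))))) (.br (Nat.shiftLeft (nat_lit 0x2800001) (nat_lit 114)) (.br (Nat.shiftLeft (nat_lit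 0xa000003) (nat_lit 112)) (.br (Nat.shiftLeft (nat_lit 0xa00000200500700d) (nat_lit 76)) (.one (nat_lit 0xa00000200500700c011400a150818022611)) (.one (nat_lit 0xa00000200500700d00e400a15081a01c611))) (.br (Nat.shiftLeft (nat_lit 0xa00000300500700d) (nat_lit 76)) (.one (nat_lit 0xa00000300500700c011600a150818022611)) (.one (nat_lit 0xa00000300500700d00e600a15081a01c611)))) (.br (Nat.shiftLeft (nat_lit 0xb) (nat_lit 136)) (.br (Nat.shiftLeft (nat_lit 0xa00000400500700d) (nat_lit 76)) (.one (nat_lit 0xa00000400500700c011800a150818022611)) (.one (nat_lit 0xa00000400500700d00e800a15081a01c611))) (.br (Nat.shiftLeft (nat_lit 0x5800001) (nat_lit 113)) (.one (nat_lit 0xb00000100500700d00e200a170c1a01c611)) (.one (nat_lit 0xb00000200500700c011400a170c18022611)))))) (.br (Nat.shiftLeft (nat_lit 0xc000003) (nat_lit 112)) (.br (Nat.shiftLeft (nat_lit 0xb00000400500700d) (nat_lit 76)) (.br (Nat.shiftLeft (nat_lit 0xb00000300500700d) (nat_lit 76)) (.br (Nat.shiftLeft (nat_lit 0xb000003) (nat_lit 112)) (.one (nat_lit 0xb00000200500700d00e400a170c1a01c611))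 (.one (nat_lit 0xb00000300500700c011600a170c18022611))) (.br (Nat.shiftLeft (nat_lit 0x2c00001) (nat_lit 114)) (.one (nat_lit 0xb00000300500700d00e600a170c1a01c611)) (.one (nat_lit 0xb00000400500700c011800a170c18022611)))) (.br (Nat.shiftLeft (nat_lit 0x6000001) (nat_lit 113)) (.br (Nat.shiftLeft (nat_lit 0x3) (nat_lit 138)) (.one (nat_lit 0xb00000400500700d00e800a170c1a01c611)) (.one (nat_lit 0xc00000100500700d00e200a19101a01c611))) (.br (Nat.shiftLeft (nat_lit 0xc00000200500700d) (nat_lit 76)) (.one (nat_lit 0xc00000200500700c011400a191018022611)) (.one (nat_lit 0xc00000200500700d00e400a19101a01c611))))) (.br (Nat.shiftLeft (nat_lit 0xd) (nat_lit 136)) (.br (Nat.shiftLeft (nat_lit 0x3000001) (nat_lit 114)) (.br (Nat.shiftLeft (nat_lit 0xc00000300500700d) (nat_lit 76)) (.one (nat_lit 0xc00000300500700c011600a191018022611)) (.one (nat_lit 0xc00000300500700d00e600a19101a01c611))) (.br (Nat.shiftLeft (nat_lit 0xc00000400500700d) (nat_lit 76)) (.one (nat_lit 0xc00000400500700c011800a191018022611)) (.one (nat_lit 0xc00000400500700d00e800a19101a01c611))))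 (.br (Nat.shiftLeft (nat_lit 0xd000003) (nat_lit 112)) (.br (Nat.shiftLeft (nat_lit 0x6800001) (nat_lit 113)) (.one (nat_lit 0xd00000100500700d00e200a1b141a01c611)) (.one (nat_lit 0xd00000200500700d00e400a1b141a01c611))) (.br (Nat.shiftLeft (nat_lit 0x3400001) (nat_lit 114)) (.one (nat_lit 0xd00000300500700d00e600a1b141a01c611)) (.one (nat_lit 0xd00000400500700d00e800a1b141a01c611)))))))
def t376 : k376.all (jb2 57 fl b0) = true := by decide +kernel
noncomputable def s20 : KT := (.br (nat_lit 0x200300500700d00e600a00e05a81c760) (.br (nat_lit 0x100000500700d00e000a00e03a41c511) (.br (nat_lit 0x200500700c011400a00e018023600) (.br (nat_lit 0x100500700c011200a00e018022650) k354 k355) (.br (nat_lit 0x300500700c011600a00e018023600) k356 (.br (nat_lit 0x400500700c011800a00e018023600) k357 k358))) (.br (nat_lit 0x100300500700c011600a00e038422760) (.br (nat_lit 0x100200500700c011400a00e038422760) k359 (.br (nat_lit 0x100200500700d00e400a00e03a41c760) k360 k361)) (.br (nat_lit 0x100400500700c011800a00e038422760) k362 (.br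 (nat_lit 0x200300500700c011600a00e058822760) k363 k364)))) (.br (nat_lit 0x400000300500700c011600a08f018022611) (.br (nat_lit 0x600000500700c012000a00e0d9824511) (.br (nat_lit 0x300000500700d00e000a00e07ac1c511) k365 (.br (nat_lit 0x400000500700c012000a00e099024511) k366 k367)) (.br (nat_lit 0x700000500700d00e000a00e0fbc1c511) k368 (.br (nat_lit 0xa00000500700c012000a00e15a824511) k369 k370))) (.br (nat_lit 0x600000400500700d00e800a0cf81a01c611) (.br (nat_lit 0x500000300500700c011600a0af418022611) k371 (.br (nat_lit 0x600000200500700c011400a0cf818022611) k372 k373)) (.br (nat_lit 0x700000400500700c011800a0efc18022611) k374 (.br (nat_lit 0x900000100500700d00e200a13041a01c611) k375 k376)))))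
noncomputable def u20 : KT := (.br (Nat.shiftLeft (nat_lit 0x2803806009) (nat_lit 65)) (.one (nat_lit 0x500700c011000a00e018022540)) (.br (Nat.shiftLeft (nat_lit 0x500700d) (nat_lit 76)) (.one (nat_lit 0x500700c012000a00e018024540)) (.one (nat_lit 0x500700d00e000a00e01a01c540))))
def w20 : u20.all (wj 57 s20) = true := by decide +kernel
def o20 : OkW 57 (jb2 57 fl) u20 := .lift s20 _ (.br _ _ _ (.br _ _ _ (.br _ _ _ (.br _ _ _ (.leaf b0 k354 t354) (.leaf b0 k355 t355)) (.br _ _ _ (.leaf b0 k356 t356) (.br _ _ _ (.leaf b0 k357 t357) (.leaf b0 k358 t358)))) (.br _ _ _ (.br _ _ _ (.leaf b0 k359 t359) (.br _ _ _ (.leaf b0 k360 t360) (.leaf b0 k361 t361))) (.br _ _ _ (.leaf b0 k362 t362) (.br _ _ _ (.leaf b0 k363 t363) (.leaf b0 k364 t364))))) (.br _ _ _ (.br _ _ _ (.br _ _ _ (.leaf b0 k365 t365) (.br _ _ _ (.leaf b0 k366 t366) (.leaf b0 k367 t367))) (.br _ _ _ (.leaf b0 k368 t368) (.br _ _ _ (.leaf b0 k369 t369) (.leaf b0 k370 t370)))) (.br _ _ _ (.br _ _ _ (.leaf b0 k371 t371) (.br _ _ _ (.leaf b0 k372 t372) (.leaf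 b0 k373 t373))) (.br _ _ _ (.leaf b0 k374 t374) (.br _ _ _ (.leaf b0 k375 t375) (.leaf b0 k376 t376)))))) w20
noncomputable def k : KT := (.br (nat_lit 0x5007009011000a00e012022540) (.br (nat_lit 0x500600d010000a00c01a020540) (.br (nat_lit 0x500600c00f000a00c01801e540) (.br (nat_lit 0x500600c00e000a00c01801d500) u0 u1) (.br (nat_lit 0x500600c011000a00c018022540) u2 (.br (nat_lit 0x500600d00e000a00c01a01c540) u3 u4))) (.br (nat_lit 0x5007008011000a00e010022540) (.br (nat_lit 0x5007008010000a00e010021500) u5 u6) (.br (nat_lit 0x5007008012000a00e010024540) u7 (.br (nat_lit 0x5007009010000a00e012021500) u8 u9)))) (.br (nat_lit 0x500700b00e000a00e01601d500) (.br (nat_lit 0x500700a00f000a00e01401f500) (.br (nat_lit 0x5007009013000a00e012026540) u10 u11) (.br (nat_lit 0x500700a010000a00e014020540) u12 (.br (nat_lit 0x500700a012000a00e014024540) u13 u14))) (.br (nat_lit 0x500700c00d000a00e01801b500) (.br (nat_lit 0x500700b00f000a00e01601e540) u15 (.br (nat_lit 0x500700b011000a00e016022540) u16 u17)) (.br (nat_lit 0x500700c00e000a00e01801c540)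 u18 (.br (nat_lit 0x500700c010000a00e018020540) u19 u20)))))
theorem ok : OkW 57 (jb2 57 fl) k := (.br _ _ _ (.br _ _ _ (.br _ _ _ (.br _ _ _ o0 o1) (.br _ _ _ o2 (.br _ _ _ o3 o4))) (.br _ _ _ (.br _ _ _ o5 o6) (.br _ _ _ o7 (.br _ _ _ o8 o9)))) (.br _ _ _ (.br _ _ _ (.br _ _ _ o10 o11) (.br _ _ _ o12 (.br _ _ _ o13 o14))) (.br _ _ _ (.br _ _ _ o15 (.br _ _ _ o16 o17)) (.br _ _ _ o18 (.br _ _ _ o19 o20)))))

end Pool.Agent.Lib.MP_ed43e6_ag.Q.Y57.R35
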