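import Pool.Agent.Lib.MP_ed43e6_ag.Y57.Fl

namespace Pool.Agent.Lib.MP_ed43e6_ag.Q.Y57.R36

set_option linter.defProp false

noncomputable def b0 : BT := .node (nat_lit 1) (nat_lit 0) .leaf .leaf
noncomputable def k0 : KT := (.br (Nat.shiftLeft (nat_lit 0x500700d011) (nat_lit 64)) (.br (Nat.shiftLeft (nat_lit 0x500700d01) (nat_lit 68)) (.one (nat_lit 0x500700d00f000a00e01a01f500)) (.one (nat_lit 0x500700d010000a00e01a021500))) (.br (Nat.shiftLeft (nat_lit 0x1) (nat_lit 112)) (.one (nat_lit 0x500700d011000a00e01a023500)) (.br (Nat.shiftLeft (nat_lit 0x100500700d01) (nat_lit 68)) (.one (nat_lit 0x100500700d00f200a00e01a01f600)) (.one (nat_lit 0x100500700d010200a00e01a020650)))))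
def t0 : k0.all (jb2 57 fl b0) = true := by decide +kernel
noncomputable def k1 : KT := (.br (Nat.shiftLeft (nat_lit 0x1) (nat_lit 113)) (.one (nat_lit 0x100500700d011200a00e01a022650)) (.br (Nat.shiftLeft (nat_lit 0x200500700d01) (nat_lit 68)) (.one (nat_lit 0x200500700d00f400a00e01a01f600)) (.one (nat_lit 0x200500700d010400a00e01a021600))))
def t1 : k1.all (jb2 57 fl b0) = true := by decide +kernel
noncomputable def k2 : KT := (.br (Nat.shiftLeft (nat_lit 0x3) (nat_lit 112)) (.one (nat_lit 0x200500700d011400a00e01a022650)) (.br (Nat.shiftLeft (nat_lit 0x300500700d01) (nat_lit 68)) (.one (nat_lit 0x300500700d00f600a00e01a01f600)) (.one (nat_lit 0x300500700d010600a00e01a021600))))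
def t2 : k2.all (jb2 57 fl b0) = true := by decide +kernel
noncomputable def k3 : KT := (.br (Nat.shiftLeft (nat_lit 0x1) (nat_lit 114)) (.one (nat_lit 0x300500700d011600a00e01a022650)) (.br (Nat.shiftLeft (nat_lit 0x400500700d01) (nat_lit 68)) (.one (nat_lit 0x400500700d00f800a00e01a01f600)) (.one (nat_lit 0x400500700d010800a00e01a021600))))
def t3 : k3.all (jb2 57 fl b0) = true := by decide +kernel
noncomputable def k4 : KT := (.br (Nat.shiftLeft (nat_lit 0x100000500700d01) (nat_lit 68)) (.br (Nat.shiftLeft (nat_lit 0x1) (nat_lit 124)) (.one (nat_lit 0x400500700d011800a00e01a022650)) (.one (nat_lit 0x100000500700d00f000a00e03a41e511))) (.br (Nat.shiftLeft (nat_lit 0x100000500700d011) (nat_lit 64)) (.one (nat_lit 0x100000500700d010000a00e03a420511)) (.one (nat_lit 0x100000500700d011000a00e03a422511))))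
def t4 : k4.all (jb2 57 fl b0) = true := by decide +kernel
noncomputable def k5 : KT := (.one (nat_lit 0x100200500700d00f400a00e03a41e760))
def t5 : k5.all (jb2 57 fl b0) = true := by decide +kernel
noncomputable def k6 : KT := (.one (nat_lit 0x100200500700d010400a00e03a420760))
def t6 : k6.all (jb2 57 fl b0) = true := by decide +kernel
noncomputable def k7 : KT := (.br (Nat.shiftLeft (nat_lit 0x100300500700d01) (nat_lit 68)) (.one (nat_lit 0x100300500700d00f600a00e03a41e760)) (.one (nat_lit 0x100300500700d010600a00e03a420760)))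
def t7 : k7.all (jb2 57 fl b0) = true := by decide +kernel
noncomputable def k8 : KT := (.br (Nat.shiftLeft (nat_lit 0x1) (nat_lit 125)) (.br (Nat.shiftLeft (nat_lit 0x100400500700d01) (nat_lit 68)) (.one (nat_lit 0x100400500700d00f800a00e03a41e760)) (.one (nat_lit 0x100400500700d010800a00e03a420760))) (.br (Nat.shiftLeft (nat_lit 0x200000500700d01) (nat_lit 68)) (.one (nat_lit 0x200000500700d00f000a00e05a81e511)) (.br (Nat.shiftLeft (nat_lit 0x200000500700d011) (nat_lit 64)) (.one (nat_lit 0x200000500700d010000a00e05a820511)) (.one (nat_lit 0x200000500700d011000a00e05a822511)))))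
def t8 : k8.all (jb2 57 fl b0) = true := by decide +kernel
noncomputable def k9 : KT := (.one (nat_lit 0x200300500700d00f600a00e05a81e760))
def t9 : k9.all (jb2 57 fl b0) = true := by decide +kernel
noncomputable def k10 : KT := (.br (Nat.shiftLeft (nat_lit 0x801) (nat_lit 114)) (.one (nat_lit 0x200300500700d010600a00e05a820760)) (.one (nat_lit 0x200400500700d00f800a00e05a81e760)))
def t10 : k10.all (jb2 57 fl b0) = true := by decide +kernel
noncomputable def k11 : KT := (.br (Nat.shiftLeft (nat_lit 0x300000500700d01) (nat_lit 68)) (.br (Nat.shiftLeft (nat_lit 0x3) (nat_lit 124)) (.one (nat_lit 0x200400500700d010800a00e05a820760)) (.one (nat_lit 0x300000500700d00f000a00e07ac1e511))) (.br (Nat.shiftLeft (nat_lit 0x300000500700d011) (nat_lit 64)) (.one (nat_lit 0x300000500700d010000a00e07ac20511)) (.br (Nat.shiftLeft (nat_lit 0xc01) (nat_lit 114)) (.one (nat_lit 0x300000500700d011000a00e07ac22511)) (.one (nat_lit 0x300400500700d00f800a00e07ac1e760)))))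
def t11 : k11.all (jb2 57 fl b0) = true := by decide +kernel
noncomputable def k12 : KT := (.br (Nat.shiftLeft (nat_lit 0x400000500700d011) (nat_lit 64)) (.br (Nat.shiftLeft (nat_lit 0x1) (nat_lit 126)) (.one (nat_lit 0x300400500700d010800a00e07ac20760)) (.br (Nat.shiftLeft (nat_lit 0x400000500700d01) (nat_lit 68)) (.one (nat_lit 0x400000500700d00f000a00e09b01e511)) (.one (nat_lit 0x400000500700d010000a00e09b020511)))) (.br (Nat.shiftLeft (nat_lit 0x500000500700d01) (nat_lit 68)) (.br (Nat.shiftLeft (nat_lit 0x5) (nat_lit 124)) (.one (nat_lit 0x400000500700d011000a00e09b022511)) (.one (nat_lit 0x500000500700d00f000a00e0bb41e511))) (.br (Nat.shiftLeft (nat_lit 0x500000500700d011) (nat_lit 64)) (.one (nat_lit 0x500000500700d010000a00e0bb420511)) (.one (nat_lit 0x500000500700d011000a00e0bb422511)))))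
def t12 : k12.all (jb2 57 fl b0) = true := by decide +kernel
noncomputable def k13 : KT := (.br (Nat.shiftLeft (nat_lit 0x600000500700d011) (nat_lit 64)) (.br (Nat.shiftLeft (nat_lit 0x600000500700d01) (nat_lit 68)) (.one (nat_lit 0x600000500700d00f000a00e0db81e511)) (.one (nat_lit 0x600000500700d010000a00e0db820511))) (.br (Nat.shiftLeft (nat_lit 0x7) (nat_lit 124)) (.one (nat_lit 0x600000500700d011000a00e0db822511)) (.one (nat_lit 0x700000500700d00f000a00e0fbc1e511))))
def t13 : k13.all (jb2 57 fl b0) = true := by decide +kernel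
noncomputable def k14 : KT := (.br (Nat.shiftLeft (nat_lit 0x800000500700d01) (nat_lit 68)) (.br (Nat.shiftLeft (nat_lit 0x700000500700d011) (nat_lit 64)) (.one (nat_lit 0x700000500700d010000a00e0fbc20511)) (.br (Nat.shiftLeft (nat_lit 0x1) (nat_lit 127)) (.one (nat_lit 0x700000500700d011000a00e0fbc22511)) (.one (nat_lit 0x800000500700d00f000a00e11c01e511)))) (.br (Nat.shiftLeft (nat_lit 0x800000500700d011) (nat_lit 64)) (.one (nat_lit 0x800000500700d010000a00e11c020511)) (.br (Nat.shiftLeft (nat_lit 0x9) (nat_lit 124)) (.one (nat_lit 0x800000500700d011000a00e11c022511)) (.one (nat_lit 0x900000500700d00f000a00e13c41e511)))))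
def t14 : k14.all (jb2 57 fl b0) = true := by decide +kernel
noncomputable def k15 : KT := (.br (Nat.shiftLeft (nat_lit 0x100000300500700d01) (nat_lit 68)) (.br (Nat.shiftLeft (nat_lit 0xc00000500700d01) (nat_lit 68)) (.br (Nat.shiftLeft (nat_lit 0xa00000500700d011) (nat_lit 64)) (.br (Nat.shiftLeft (nat_lit 0x5) (nat_lit 125)) (.br (Nat.shiftLeft (nat_lit 0x900000500700d011) (nat_lit 64)) (.one (nat_lit 0x900000500700d010000a00e13c420511)) (.one (nat_lit 0x900000500700d011000a00e13c422511))) (.br (Nat.shiftLeft (nat_lit 0xa00000500700d01) (nat_lit 68)) (.one (nat_lit 0xa00000500700d00f000a00e15c81e511)) (.one (nat_lit 0xa00000500700d010000a00e15c820511)))) (.br (Nat.shiftLeft (nat_lit 0xb00000500700d01) (nat_lit 68)) (.br (Nat.shiftLeft (nat_lit 0xb) (nat_lit 124)) (.one (nat_lit 0xa00000500700d011000a00e15c822511)) (.one (nat_lit 0xb00000500700d00f000a00e17cc1e511))) (.br (Nat.shiftLeft (nat_lit 0xb00000500700d011) (nat_lit 64)) (.one (nat_lit 0xb00000500700d010000a00e17cc20511)) (.br (Nat.shiftLeft (nat_lit 0x3)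 (nat_lit 126)) (.one (nat_lit 0xb00000500700d011000a00e17cc22511)) (.one (nat_lit 0xc00000500700d00f000a00e19d01e511)))))) (.br (Nat.shiftLeft (nat_lit 0xd00000500700d011) (nat_lit 64)) (.br (Nat.shiftLeft (nat_lit 0xd) (nat_lit 124)) (.br (Nat.shiftLeft (nat_lit 0xc00000500700d011) (nat_lit 64)) (.one (nat_lit 0xc00000500700d010000a00e19d020511)) (.one (nat_lit 0xc00000500700d011000a00e19d022511))) (.br (Nat.shiftLeft (nat_lit 0xd00000500700d01) (nat_lit 68)) (.one (nat_lit 0xd00000500700d00f000a00e1bd41e511)) (.one (nat_lit 0xd00000500700d010000a00e1bd420511)))) (.br (Nat.shiftLeft (nat_lit 0x800001) (nat_lit 113)) (.br (Nat.shiftLeft (nat_lit 0x1) (nat_lit 136)) (.one (nat_lit 0xd00000500700d011000a00e1bd422511)) (.one (nat_lit 0x100000100500700d00f200a02e41a01e611))) (.br (Nat.shiftLeft (nat_lit 0x100000200500700d01) (nat_lit 68)) (.one (nat_lit 0x100000200500700d00f400a02e41a01e611)) (.br (Nat.shiftLeft (nat_lit 0x1000003) (nat_lit 112)) (.one (nat_lit 0x100000200500700d010400a02e41a020611)) (.one (nat_lit 0x100000300500700d00f600a02e41a01e611)))))))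 (.br (Nat.shiftLeft (nat_lit 0x200000400500700d01) (nat_lit 68)) (.br (Nat.shiftLeft (nat_lit 0x1000001) (nat_lit 113)) (.br (Nat.shiftLeft (nat_lit 0x100000400500700d01) (nat_lit 68)) (.br (Nat.shiftLeft (nat_lit 0x400001) (nat_lit 114)) (.one (nat_lit 0x100000300500700d010600a02e41a020611)) (.one (nat_lit 0x100000400500700d00f800a02e41a01e611))) (.br (Nat.shiftLeft (nat_lit 0x1) (nat_lit 137)) (.one (nat_lit 0x100000400500700d010800a02e41a020611)) (.one (nat_lit 0x200000100500700d00f200a04e81a01e611)))) (.br (Nat.shiftLeft (nat_lit 0x2000003) (nat_lit 112)) (.br (Nat.shiftLeft (nat_lit 0x200000200500700d01) (nat_lit 68)) (.one (nat_lit 0x200000200500700d00f400a04e81a01e611)) (.one (nat_lit 0x200000200500700d010400a04e81a020611))) (.br (Nat.shiftLeft (nat_lit 0x200000300500700d01) (nat_lit 68)) (.one (nat_lit 0x200000300500700d00f600a04e81a01e611)) (.br (Nat.shiftLeft (nat_lit 0x800001) (nat_lit 114)) (.one (nat_lit 0x200000300500700d010600a04e81a020611)) (.one (nat_lit 0x200000400500700d00f800a04e81a01e611)))))) (.br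 (Nat.shiftLeft (nat_lit 0x300000300500700d01) (nat_lit 68)) (.br (Nat.shiftLeft (nat_lit 0x1800001) (nat_lit 113)) (.br (Nat.shiftLeft (nat_lit 0x3) (nat_lit 136)) (.one (nat_lit 0x200000400500700d010800a04e81a020611)) (.one (nat_lit 0x300000100500700d00f200a06ec1a01e611))) (.br (Nat.shiftLeft (nat_lit 0x300000200500700d01) (nat_lit 68)) (.one (nat_lit 0x300000200500700d00f400a06ec1a01e611)) (.br (Nat.shiftLeft (nat_lit 0x3000003) (nat_lit 112)) (.one (nat_lit 0x300000200500700d010400a06ec1a020611)) (.one (nat_lit 0x300000300500700d00f600a06ec1a01e611))))) (.br (Nat.shiftLeft (nat_lit 0x300000400500700d01) (nat_lit 68)) (.br (Nat.shiftLeft (nat_lit 0xc00001) (nat_lit 114)) (.one (nat_lit 0x300000300500700d010600a06ec1a020611)) (.one (nat_lit 0x300000400500700d00f800a06ec1a01e611))) (.br (Nat.shiftLeft (nat_lit 0x1) (nat_lit 138)) (.one (nat_lit 0x300000400500700d010800a06ec1a020611)) (.br (Nat.shiftLeft (nat_lit 0x2000001) (nat_lit 113)) (.one (nat_lit 0x400000100500700d00f200a08f01a01e611)) (.one (nat_lit 0x400000200500700d00f400a08f01a01e611))))))))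
def t15 : k15.all (jb2 57 fl b0) = true := by decide +kernel
noncomputable def k16 : KT := (.br (Nat.shiftLeft (nat_lit 0x400000400500700d01) (nat_lit 68)) (.br (Nat.shiftLeft (nat_lit 0x400000300500700d01) (nat_lit 68)) (.br (Nat.shiftLeft (nat_lit 0x4000003) (nat_lit 112)) (.one (nat_lit 0x400000200500700d010400a08f01a020611)) (.one (nat_lit 0x400000300500700d00f600a08f01a01e611))) (.br (Nat.shiftLeft (nat_lit 0x1000001) (nat_lit 114)) (.one (nat_lit 0x400000300500700d010600a08f01a020611)) (.one (nat_lit 0x400000400500700d00f800a08f01a01e611)))) (.br (Nat.shiftLeft (nat_lit 0x2800001) (nat_lit 113)) (.br (Nat.shiftLeft (nat_lit 0x5) (nat_lit 136)) (.one (nat_lit 0x400000400500700d010800a08f01a020611)) (.one (nat_lit 0x500000100500700d00f200a0af41a01e611))) (.br (Nat.shiftLeft (nat_lit 0x500000200500700d01) (nat_lit 68)) (.one (nat_lit 0x500000200500700d00f400a0af41a01e611)) (.one (nat_lit 0x500000200500700d010400a0af41a020611)))))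
def t16 : k16.all (jb2 57 fl b0) = true := by decide +kernel
noncomputable def k17 : KT := (.br (Nat.shiftLeft (nat_lit 0x500000400500700d01) (nat_lit 68)) (.br (Nat.shiftLeft (nat_lit 0x500000300500700d01) (nat_lit 68)) (.one (nat_lit 0x500000300500700d00f600a0af41a01e611)) (.br (Nat.shiftLeft (nat_lit 0x1400001) (nat_lit 114)) (.one (nat_lit 0x500000300500700d010600a0af41a020611)) (.one (nat_lit 0x500000400500700d00f800a0af41a01e611)))) (.br (Nat.shiftLeft (nat_lit 0x3) (nat_lit 137)) (.one (nat_lit 0x500000400500700d010800a0af41a020611)) (.br (Nat.shiftLeft (nat_lit 0x3000001) (nat_lit 113)) (.one (nat_lit 0x600000100500700d00f200a0cf81a01e611)) (.one (nat_lit 0x600000200500700d00f400a0cf81a01e611)))))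
def t17 : k17.all (jb2 57 fl b0) = true := by decide +kernel
noncomputable def k18 : KT := (.br (Nat.shiftLeft (nat_lit 0x1800001) (nat_lit 114)) (.br (Nat.shiftLeft (nat_lit 0x6000003) (nat_lit 112)) (.one (nat_lit 0x600000200500700d010400a0cf81a020611)) (.br (Nat.shiftLeft (nat_lit 0x600000300500700d01) (nat_lit 68)) (.one (nat_lit 0x600000300500700d00f600a0cf81a01e611)) (.one (nat_lit 0x600000300500700d010600a0cf81a020611)))) (.br (Nat.shiftLeft (nat_lit 0x7) (nat_lit 136)) (.br (Nat.shiftLeft (nat_lit 0x600000400500700d01) (nat_lit 68)) (.one (nat_lit 0x600000400500700d00f800a0cf81a01e611)) (.one (nat_lit 0x600000400500700d010800a0cf81a020611))) (.br (Nat.shiftLeft (nat_lit 0x3800001) (nat_lit 113)) (.one (nat_lit 0x700000100500700d00f200a0efc1a01e611)) (.one (nat_lit 0x700000200500700d00f400a0efc1a01e611)))))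
def t18 : k18.all (jb2 57 fl b0) = true := by decide +kernel
noncomputable def k19 : KT := (.br (Nat.shiftLeft (nat_lit 0x4000001) (nat_lit 113)) (.br (Nat.shiftLeft (nat_lit 0x1c00001) (nat_lit 114)) (.br (Nat.shiftLeft (nat_lit 0x7000003) (nat_lit 112)) (.one (nat_lit 0x700000200500700d010400a0efc1a020611)) (.br (Nat.shiftLeft (nat_lit 0x700000300500700d01) (nat_lit 68)) (.one (nat_lit 0x700000300500700d00f600a0efc1a01e611)) (.one (nat_lit 0x700000300500700d010600a0efc1a020611)))) (.br (Nat.shiftLeft (nat_lit 0x700000400500700d01) (nat_lit 68)) (.one (nat_lit 0x700000400500700d00f800a0efc1a01e611)) (.br (Nat.shiftLeft (nat_lit 0x1) (nat_lit 139)) (.one (nat_lit 0x700000400500700d010800a0efc1a020611)) (.one (nat_lit 0x800000100500700d00f200a11001a01e611))))) (.br (Nat.shiftLeft (nat_lit 0x800000300500700d01) (nat_lit 68)) (.br (Nat.shiftLeft (nat_lit 0x800000200500700d01) (nat_lit 68)) (.one (nat_lit 0x800000200500700d00f400a11001a01e611)) (.br (Nat.shiftLeft (nat_lit 0x8000003) (nat_lit 112)) (.one (nat_lit 0x800000200500700d010400a11001a020611))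 (.one (nat_lit 0x800000300500700d00f600a11001a01e611)))) (.br (Nat.shiftLeft (nat_lit 0x2000001) (nat_lit 114)) (.one (nat_lit 0x800000300500700d010600a11001a020611)) (.br (Nat.shiftLeft (nat_lit 0x800000400500700d01) (nat_lit 68)) (.one (nat_lit 0x800000400500700d00f800a11001a01e611)) (.one (nat_lit 0x800000400500700d010800a11001a020611))))))
def t19 : k19.all (jb2 57 fl b0) = true := by decide +kernel
noncomputable def k20 : KT := (.br (Nat.shiftLeft (nat_lit 0xb000003) (nat_lit 112)) (.br (Nat.shiftLeft (nat_lit 0x5000001) (nat_lit 113)) (.br (Nat.shiftLeft (nat_lit 0x900000300500700d01) (nat_lit 68)) (.br (Nat.shiftLeft (nat_lit 0x900000200500700d01) (nat_lit 68)) (.br (Nat.shiftLeft (nat_lit 0x4800001) (nat_lit 113)) (.one (nat_lit 0x900000100500700d00f200a13041a01e611)) (.one (nat_lit 0x900000200500700d00f400a13041a01e611))) (.br (Nat.shiftLeft (nat_lit 0x9000003) (nat_lit 112)) (.one (nat_lit 0x900000200500700d010400a13041a020611)) (.one (nat_lit 0x900000300500700d00f600a13041a01e611)))) (.br (Nat.shiftLeft (nat_lit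 0x900000400500700d01) (nat_lit 68)) (.br (Nat.shiftLeft (nat_lit 0x2400001) (nat_lit 114)) (.one (nat_lit 0x900000300500700d010600a13041a020611)) (.one (nat_lit 0x900000400500700d00f800a13041a01e611))) (.br (Nat.shiftLeft (nat_lit 0x5) (nat_lit 137)) (.one (nat_lit 0x900000400500700d010800a13041a020611)) (.one (nat_lit 0xa00000100500700d00f200a15081a01e611))))) (.br (Nat.shiftLeft (nat_lit 0x2800001) (nat_lit 114)) (.br (Nat.shiftLeft (nat_lit 0xa000003) (nat_lit 112)) (.br (Nat.shiftLeft (nat_lit 0xa00000200500700d01) (nat_lit 68)) (.one (nat_lit 0xa00000200500700d00f400a15081a01e611)) (.one (nat_lit 0xa00000200500700d010400a15081a020611))) (.br (Nat.shiftLeft (nat_lit 0xa00000300500700d01) (nat_lit 68)) (.one (nat_lit 0xa00000300500700d00f600a15081a01e611)) (.one (nat_lit 0xa00000300500700d010600a15081a020611)))) (.br (Nat.shiftLeft (nat_lit 0xb) (nat_lit 136)) (.br (Nat.shiftLeft (nat_lit 0xa00000400500700d01) (nat_lit 68)) (.one (nat_lit 0xa00000400500700d00f800a15081a01e611)) (.one (nat_lit 0xa00000400500700d010800a15081a020611)))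 (.br (Nat.shiftLeft (nat_lit 0x5800001) (nat_lit 113)) (.one (nat_lit 0xb00000100500700d00f200a170c1a01e611)) (.br (Nat.shiftLeft (nat_lit 0xb00000200500700d01) (nat_lit 68)) (.one (nat_lit 0xb00000200500700d00f400a170c1a01e611)) (.one (nat_lit 0xb00000200500700d010400a170c1a020611))))))) (.br (Nat.shiftLeft (nat_lit 0xc00000300500700d01) (nat_lit 68)) (.br (Nat.shiftLeft (nat_lit 0x3) (nat_lit 138)) (.br (Nat.shiftLeft (nat_lit 0x2c00001) (nat_lit 114)) (.br (Nat.shiftLeft (nat_lit 0xb00000300500700d01) (nat_lit 68)) (.one (nat_lit 0xb00000300500700d00f600a170c1a01e611)) (.one (nat_lit 0xb00000300500700d010600a170c1a020611))) (.br (Nat.shiftLeft (nat_lit 0xb00000400500700d01) (nat_lit 68)) (.one (nat_lit 0xb00000400500700d00f800a170c1a01e611)) (.one (nat_lit 0xb00000400500700d010800a170c1a020611)))) (.br (Nat.shiftLeft (nat_lit 0xc00000200500700d01) (nat_lit 68)) (.br (Nat.shiftLeft (nat_lit 0x6000001) (nat_lit 113)) (.one (nat_lit 0xc00000100500700d00f200a19101a01e611)) (.one (nat_lit 0xc00000200500700d00f400a19101a01e611)))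 (.br (Nat.shiftLeft (nat_lit 0xc000003) (nat_lit 112)) (.one (nat_lit 0xc00000200500700d010400a19101a020611)) (.one (nat_lit 0xc00000300500700d00f600a19101a01e611))))) (.br (Nat.shiftLeft (nat_lit 0x6800001) (nat_lit 113)) (.br (Nat.shiftLeft (nat_lit 0xc00000400500700d01) (nat_lit 68)) (.br (Nat.shiftLeft (nat_lit 0x3000001) (nat_lit 114)) (.one (nat_lit 0xc00000300500700d010600a19101a020611)) (.one (nat_lit 0xc00000400500700d00f800a19101a01e611))) (.br (Nat.shiftLeft (nat_lit 0xd) (nat_lit 136)) (.one (nat_lit 0xc00000400500700d010800a19101a020611)) (.one (nat_lit 0xd00000100500700d00f200a1b141a01e611)))) (.br (Nat.shiftLeft (nat_lit 0xd000003) (nat_lit 112)) (.br (Nat.shiftLeft (nat_lit 0xd00000200500700d01) (nat_lit 68)) (.one (nat_lit 0xd00000200500700d00f400a1b141a01e611)) (.one (nat_lit 0xd00000200500700d010400a1b141a020611))) (.br (Nat.shiftLeft (nat_lit 0xd00000300500700d01) (nat_lit 68)) (.one (nat_lit 0xd00000300500700d00f600a1b141a01e611)) (.br (Nat.shiftLeft (nat_lit 0x3400001) (nat_lit 114)) (.one (nat_lit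 0xd00000300500700d010600a1b141a020611)) (.one (nat_lit 0xd00000400500700d00f800a1b141a01e611))))))))
def t20 : k20.all (jb2 57 fl b0) = true := by decide +kernel
noncomputable def s0 : KT := (.br (nat_lit 0x200300500700d00f600a00e05a81e760) (.br (nat_lit 0x100000500700d011000a00e03a422511) (.br (nat_lit 0x200500700d010400a00e01a021600) (.br (nat_lit 0x100500700d010200a00e01a020650) k0 k1) (.br (nat_lit 0x300500700d010600a00e01a021600) k2 (.br (nat_lit 0x400500700d010800a00e01a021600) k3 k4))) (.br (nat_lit 0x100200500700d010400a00e03a420760) (.br (nat_lit 0x100200500700d00f400a00e03a41e760) k5 k6) (.br (nat_lit 0x100300500700d010600a00e03a420760) k7 (.br (nat_lit 0x200000500700d011000a00e05a822511) k8 k9)))) (.br (nat_lit 0x900000500700d00f000a00e13c41e511) (.br (nat_lit 0x300400500700d00f800a00e07ac1e760) (.br (nat_lit 0x200400500700d00f800a00e05a81e760) k10 k11) (.br (nat_lit 0x500000500700d011000a00e0bb422511) k12 (.br (nat_lit 0x700000500700d00f000a00e0fbc1e511) k13 k14))) (.br (nat_lit 0x600000200500700d00f400a0cf81a01e611)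 (.br (nat_lit 0x400000200500700d00f400a08f01a01e611) k15 (.br (nat_lit 0x500000200500700d010400a0af41a020611) k16 k17)) (.br (nat_lit 0x700000200500700d00f400a0efc1a01e611) k18 (.br (nat_lit 0x800000400500700d010800a11001a020611) k19 k20)))))
noncomputable def u0 : KT := (.br (Nat.shiftLeft (nat_lit 0x500700d01) (nat_lit 68)) (.one (nat_lit 0x500700d00f000a00e01a01e540)) (.br (Nat.shiftLeft (nat_lit 0x500700d011) (nat_lit 64)) (.one (nat_lit 0x500700d010000a00e01a020540)) (.one (nat_lit 0x500700d011000a00e01a022540))))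
def w0 : u0.all (wj 57 s0) = true := by decide +kernel
def o0 : OkW 57 (jb2 57 fl) u0 := .lift s0 _ (.br _ _ _ (.br _ _ _ (.br _ _ _ (.br _ _ _ (.leaf b0 k0 t0) (.leaf b0 k1 t1)) (.br _ _ _ (.leaf b0 k2 t2) (.br _ _ _ (.leaf b0 k3 t3) (.leaf b0 k4 t4)))) (.br _ _ _ (.br _ _ _ (.leaf b0 k5 t5) (.leaf b0 k6 t6)) (.br _ _ _ (.leaf b0 k7 t7) (.br _ _ _ (.leaf b0 k8 t8) (.leaf b0 k9 t9))))) (.br _ _ _ (.br _ _ _ (.br _ _ _ (.leaf b0 k10 t10) (.leaf b0 k11 t11)) (.br _ _ _ (.leaf b0 k12 t12) (.br _ _ _ (.leaf b0 k13 t13) (.leaf b0 k14 t14)))) (.br _ _ _ (.br _ _ _ (.leaf b0 k15 t15) (.br _ _ _ (.leaf b0 k16 t16) (.leaf b0 k17 t17))) (.br _ _ _ (.leaf b0 k18 t18) (.br _ _ _ (.leaf b0 k19 t19) (.leaf b0 k20 t20)))))) w0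
noncomputable def k21 : KT := (.br (Nat.shiftLeft (nat_lit 0x2804004807) (nat_lit 65)) (.br (Nat.shiftLeft (nat_lit 0x500800900b) (nat_lit 64)) (.br (Nat.shiftLeft (nat_lit 0xa01) (nat_lit 91)) (.one (nat_lit 0x500700e00f000a00e01c01f500)) (.one (nat_lit 0x500800900a000a010012015500))) (.br (Nat.shiftLeft (nat_lit 0x1402002403) (nat_lit 66)) (.one (nat_lit 0x500800900b000a010012017500)) (.br (Nat.shiftLeft (nat_lit 0x500800900d) (nat_lit 64)) (.one (nat_lit 0x500800900c000a010012019500)) (.one (nat_lit 0x500800900d000a01001201b500))))) (.br (Nat.shiftLeft (nat_lit 0x3) (nat_lit 112)) (.br (Nat.shiftLeft (nat_lit 0x1) (nat_lit 112)) (.one (nat_lit 0x500800900e000a01001201d500)) (.br (Nat.shiftLeft (nat_lit 0x1) (nat_lit 113)) (.one (nat_lit 0x100500700e00f200a00e01c01e650)) (.one (nat_lit 0x200500700e00f400a00e01c01f600)))) (.br (Nat.shiftLeft (nat_lit 0x1) (nat_lit 114)) (.one (nat_lit 0x300500700e00f600a00e01c01f600)) (.br (Nat.shiftLeft (nat_lit 0x1) (nat_lit 124)) (.one (nat_lit 0x400500700e00f800a00e01c01f600))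 (.one (nat_lit 0x100000500700e00f000a00e03c41e511))))))
def t21 : k21.all (jb2 57 fl b0) = true := by decide +kernel
noncomputable def k22 : KT := (.br (Nat.shiftLeft (nat_lit 0x1003) (nat_lit 112)) (.one (nat_lit 0x100200500700e00f400a00e03c41e760)) (.br (Nat.shiftLeft (nat_lit 0x401) (nat_lit 114)) (.one (nat_lit 0x100300500700e00f600a00e03c41e760)) (.one (nat_lit 0x100400500700e00f800a00e03c41e760))))
def t22 : k22.all (jb2 57 fl b0) = true := by decide +kernel
noncomputable def k23 : KT := (.br (Nat.shiftLeft (nat_lit 0x801) (nat_lit 114)) (.br (Nat.shiftLeft (nat_lit 0x1001) (nat_lit 113)) (.one (nat_lit 0x200000500700e00f000a00e05c81e511)) (.one (nat_lit 0x200300500700e00f600a00e05c81e760))) (.br (Nat.shiftLeft (nat_lit 0x3) (nat_lit 124)) (.one (nat_lit 0x200400500700e00f800a00e05c81e760)) (.br (Nat.shiftLeft (nat_lit 0xc01) (nat_lit 114)) (.one (nat_lit 0x300000500700e00f000a00e07cc1e511)) (.one (nat_lit 0x300400500700e00f800a00e07cc1e760)))))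
def t23 : k23.all (jb2 57 fl b0) = true := by decide +kernel
noncomputable def k24 : KT := (.br (Nat.shiftLeft (nat_lit 0x7) (nat_lit 125)) (.br (Nat.shiftLeft (nat_lit 0x9) (nat_lit 124)) (.br (Nat.shiftLeft (nat_lit 0x3) (nat_lit 125)) (.br (Nat.shiftLeft (nat_lit 0x5) (nat_lit 124)) (.one (nat_lit 0x400000500700e00f000a00e09d01e511)) (.one (nat_lit 0x500000500700e00f000a00e0bd41e511))) (.br (Nat.shiftLeft (nat_lit 0x7) (nat_lit 124)) (.one (nat_lit 0x600000500700e00f000a00e0dd81e511)) (.br (Nat.shiftLeft (nat_lit 0x1) (nat_lit 127)) (.one (nat_lit 0x700000500700e00f000a00e0fdc1e511)) (.one (nat_lit 0x800000500700e00f000a00e11e01e511))))) (.br (Nat.shiftLeft (nat_lit 0xb) (nat_lit 124)) (.br (Nat.shiftLeft (nat_lit 0x5) (nat_lit 125)) (.one (nat_lit 0x900000500700e00f000a00e13e41e511)) (.one (nat_lit 0xa00000500700e00f000a00e15e81e511))) (.br (Nat.shiftLeft (nat_lit 0x3) (nat_lit 126)) (.one (nat_lit 0xb00000500700e00f000a00e17ec1e511)) (.br (Nat.shiftLeft (nat_lit 0xd) (nat_lit 124)) (.one (nat_lit 0xc00000500700e00f000a00e19f01e511))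 (.one (nat_lit 0xd00000500700e00f000a00e1bf41e511)))))) (.br (Nat.shiftLeft (nat_lit 0x2000003) (nat_lit 112)) (.br (Nat.shiftLeft (nat_lit 0x1000003) (nat_lit 112)) (.br (Nat.shiftLeft (nat_lit 0x1) (nat_lit 136)) (.one (nat_lit 0xe00000500700e00f000a00e1df81e511)) (.one (nat_lit 0x100000200500700e00f400a02e41c01e611))) (.br (Nat.shiftLeft (nat_lit 0x400001) (nat_lit 114)) (.one (nat_lit 0x100000300500700e00f600a02e41c01e611)) (.br (Nat.shiftLeft (nat_lit 0x1) (nat_lit 137)) (.one (nat_lit 0x100000400500700e00f800a02e41c01e611)) (.one (nat_lit 0x200000200500700e00f400a04e81c01e611))))) (.br (Nat.shiftLeft (nat_lit 0x3) (nat_lit 136)) (.br (Nat.shiftLeft (nat_lit 0x800001) (nat_lit 114)) (.one (nat_lit 0x200000300500700e00f600a04e81c01e611)) (.one (nat_lit 0x200000400500700e00f800a04e81c01e611))) (.br (Nat.shiftLeft (nat_lit 0x3000003) (nat_lit 112)) (.one (nat_lit 0x300000200500700e00f400a06ec1c01e611)) (.br (Nat.shiftLeft (nat_lit 0xc00001) (nat_lit 114)) (.one (nat_lit 0x300000300500700e00f600a06ec1c01e611)) (.one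 (nat_lit 0x300000400500700e00f800a06ec1c01e611)))))))
def t24 : k24.all (jb2 57 fl b0) = true := by decide +kernel
noncomputable def k25 : KT := (.br (Nat.shiftLeft (nat_lit 0x3) (nat_lit 137)) (.br (Nat.shiftLeft (nat_lit 0x5) (nat_lit 136)) (.br (Nat.shiftLeft (nat_lit 0x4000003) (nat_lit 112)) (.one (nat_lit 0x400000200500700e00f400a08f01c01e611)) (.br (Nat.shiftLeft (nat_lit 0x1000001) (nat_lit 114)) (.one (nat_lit 0x400000300500700e00f600a08f01c01e611)) (.one (nat_lit 0x400000400500700e00f800a08f01c01e611)))) (.br (Nat.shiftLeft (nat_lit 0x5000003) (nat_lit 112)) (.one (nat_lit 0x500000200500700e00f400a0af41c01e611)) (.br (Nat.shiftLeft (nat_lit 0x1400001) (nat_lit 114)) (.one (nat_lit 0x500000300500700e00f600a0af41c01e611)) (.one (nat_lit 0x500000400500700e00f800a0af41c01e611))))) (.br (Nat.shiftLeft (nat_lit 0x7) (nat_lit 136)) (.br (Nat.shiftLeft (nat_lit 0x6000003) (nat_lit 112)) (.one (nat_lit 0x600000200500700e00f400a0cf81c01e611)) (.br (Nat.shiftLeft (nat_lit 0x1800001) (nat_lit 114)) (.one (nat_lit 0x600000300500700e00f600a0cf81c01e611))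 (.one (nat_lit 0x600000400500700e00f800a0cf81c01e611)))) (.br (Nat.shiftLeft (nat_lit 0x7000003) (nat_lit 112)) (.one (nat_lit 0x700000200500700e00f400a0efc1c01e611)) (.br (Nat.shiftLeft (nat_lit 0x1c00001) (nat_lit 114)) (.one (nat_lit 0x700000300500700e00f600a0efc1c01e611)) (.one (nat_lit 0x700000400500700e00f800a0efc1c01e611))))))
def t25 : k25.all (jb2 57 fl b0) = true := by decide +kernel
noncomputable def k26 : KT := (.br (Nat.shiftLeft (nat_lit 0xb) (nat_lit 136)) (.br (Nat.shiftLeft (nat_lit 0x9000003) (nat_lit 112)) (.br (Nat.shiftLeft (nat_lit 0x2000001) (nat_lit 114)) (.br (Nat.shiftLeft (nat_lit 0x8000003) (nat_lit 112)) (.one (nat_lit 0x800000200500700e00f400a11001c01e611)) (.one (nat_lit 0x800000300500700e00f600a11001c01e611))) (.br (Nat.shiftLeft (nat_lit 0x9) (nat_lit 136)) (.one (nat_lit 0x800000400500700e00f800a11001c01e611)) (.one (nat_lit 0x900000200500700e00f400a13041c01e611)))) (.br (Nat.shiftLeft (nat_lit 0x5) (nat_lit 137)) (.br (Nat.shiftLeft (nat_lit 0x2400001) (nat_lit 114)) (.one (nat_lit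 0x900000300500700e00f600a13041c01e611)) (.one (nat_lit 0x900000400500700e00f800a13041c01e611))) (.br (Nat.shiftLeft (nat_lit 0xa000003) (nat_lit 112)) (.one (nat_lit 0xa00000200500700e00f400a15081c01e611)) (.br (Nat.shiftLeft (nat_lit 0x2800001) (nat_lit 114)) (.one (nat_lit 0xa00000300500700e00f600a15081c01e611)) (.one (nat_lit 0xa00000400500700e00f800a15081c01e611)))))) (.br (Nat.shiftLeft (nat_lit 0xc000003) (nat_lit 112)) (.br (Nat.shiftLeft (nat_lit 0x2c00001) (nat_lit 114)) (.br (Nat.shiftLeft (nat_lit 0xb000003) (nat_lit 112)) (.one (nat_lit 0xb00000200500700e00f400a170c1c01e611)) (.one (nat_lit 0xb00000300500700e00f600a170c1c01e611))) (.br (Nat.shiftLeft (nat_lit 0x3) (nat_lit 138)) (.one (nat_lit 0xb00000400500700e00f800a170c1c01e611)) (.one (nat_lit 0xc00000200500700e00f400a19101c01e611)))) (.br (Nat.shiftLeft (nat_lit 0xd) (nat_lit 136)) (.br (Nat.shiftLeft (nat_lit 0x3000001) (nat_lit 114)) (.one (nat_lit 0xc00000300500700e00f600a19101c01e611)) (.one (nat_lit 0xc00000400500700e00f800a19101c01e611))) (.br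 (Nat.shiftLeft (nat_lit 0xd000003) (nat_lit 112)) (.one (nat_lit 0xd00000200500700e00f400a1b141c01e611)) (.br (Nat.shiftLeft (nat_lit 0x7) (nat_lit 137)) (.one (nat_lit 0xd00000300500700e00f600a1b141c01e611)) (.one (nat_lit 0xe00000200500700e00f400a1d181c01e611)))))))
def t26 : k26.all (jb2 57 fl b0) = true := by decide +kernel
noncomputable def s1 : KT := (.br (nat_lit 0x300400500700e00f800a00e07cc1e760) (.br (nat_lit 0x100000500700e00f000a00e03c41e511) k21 (.br (nat_lit 0x100400500700e00f800a00e03c41e760) k22 k23)) (.br (nat_lit 0x300000400500700e00f800a06ec1c01e611) k24 (.br (nat_lit 0x700000400500700e00f800a0efc1c01e611) k25 k26)))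
noncomputable def u1 : KT := (.br (Nat.shiftLeft (nat_lit 0x1402002403) (nat_lit 66)) (.br (Nat.shiftLeft (nat_lit 0xa01) (nat_lit 91)) (.one (nat_lit 0x500700e00f000a00e01c01e540)) (.br (Nat.shiftLeft (nat_lit 0x500800900b) (nat_lit 64)) (.one (nat_lit 0x500800900a000a010012015500)) (.one (nat_lit 0x500800900b000a010012017500)))) (.br (Nat.shiftLeft (nat_lit 0x500800900d) (nat_lit 64)) (.one (nat_lit 0x500800900c000a010012019500)) (.br (Nat.shiftLeft (nat_lit 0x2804004807) (nat_lit 65)) (.one (nat_lit 0x500800900d000a01001201b500)) (.one (nat_lit 0x500800900e000a01001201d500)))))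
def w1 : u1.all (wj 57 s1) = true := by decide +kernel
def o1 : OkW 57 (jb2 57 fl) u1 := .lift s1 _ (.br _ _ _ (.br _ _ _ (.leaf b0 k21 t21) (.br _ _ _ (.leaf b0 k22 t22) (.leaf b0 k23 t23))) (.br _ _ _ (.leaf b0 k24 t24) (.br _ _ _ (.leaf b0 k25 t25) (.leaf b0 k26 t26)))) w1
noncomputable def k27 : KT := (.br (Nat.shiftLeft (nat_lit 0x1) (nat_lit 114)) (.br (Nat.shiftLeft (nat_lit 0x1) (nat_lit 113)) (.br (Nat.shiftLeft (nat_lit 0x1) (nat_lit 112)) (.one (nat_lit 0x500800900f000a01001201f500)) (.one (nat_lit 0x100500800900f200a01001201f600))) (.br (Nat.shiftLeft (nat_lit 0x3) (nat_lit 112)) (.one (nat_lit 0x200500800900f400a01001201f600)) (.one (nat_lit 0x300500800900f600a01001201f600)))) (.br (Nat.shiftLeft (nat_lit 0x801) (nat_lit 113)) (.br (Nat.shiftLeft (nat_lit 0x1) (nat_lit 124)) (.one (nat_lit 0x400500800900f800a01001201f600)) (.one (nat_lit 0x100000500800900f000a01003241e511))) (.br (Nat.shiftLeft (nat_lit 0x1003) (nat_lit 112)) (.one (nat_lit 0x100200500800900f400a01003241f700)) (.one (nat_lit 0x100300500800900f600a01003241f700)))))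
def t27 : k27.all (jb2 57 fl b0) = true := by decide +kernel
noncomputable def k28 : KT := (.one (nat_lit 0x100400500800900f800a01003241e760))
def t28 : k28.all (jb2 57 fl b0) = true := by decide +kernel
noncomputable def k29 : KT := (.br (Nat.shiftLeft (nat_lit 0xc01) (nat_lit 114)) (.br (Nat.shiftLeft (nat_lit 0x801) (nat_lit 114)) (.br (Nat.shiftLeft (nat_lit 0x1001) (nat_lit 113)) (.one (nat_lit 0x200000500800900f000a01005281e511)) (.one (nat_lit 0x200300500800900f600a01005281f700))) (.br (Nat.shiftLeft (nat_lit 0x3) (nat_lit 124)) (.one (nat_lit 0x200400500800900f800a01005281f700)) (.one (nat_lit 0x300000500800900f000a010072c1e511)))) (.br (Nat.shiftLeft (nat_lit 0x5) (nat_lit 124)) (.br (Nat.shiftLeft (nat_lit 0x1) (nat_lit 126)) (.one (nat_lit 0x300400500800900f800a010072c1f700)) (.one (nat_lit 0x400000500800900f000a01009301e511))) (.br (Nat.shiftLeft (nat_lit 0x3) (nat_lit 125)) (.one (nat_lit 0x500000500800900f000a0100b341e511)) (.one (nat_lit 0x600000500800900f000a0100d381e511)))))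
noncomputable def b30 : BT := .node (nat_lit 0x1) (nat_lit 0x48c5b664bf28a145ca2cde128ba5900032990008b8c003a98000e964003318000ab6830013f00028) .leaf .leaf
def t29 : k29.all (jb2 57 fl b30) = true := by decide +kernel
noncomputable def k30 : KT := (.one (nat_lit 0x700000500800900f000a0100f3c1e511))
noncomputable def b31 : BT := .node (nat_lit 0x1) (nat_lit 0x1231274a64800329d0008d6010008900028) .leaf .leaf
def t30 : k30.all (jb2 57 fl b31) = true := by decide +kernel
noncomputable def k31 : KT := (.one (nat_lit 0x800000500800900f000a01011401e511))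
noncomputable def b32 : BT := .node (nat_lit 0xb) (nat_lit 0x132296425f00074b40015510323128ba4e00033170008b781963274a5940032da000ca6c1002110021100211001b100150001500015000150001500015000150000f0) .leaf .leaf
def t31 : k31.all (jb2 57 fl b32) = true := by decide +kernel
noncomputable def k32 : KT := (.br (Nat.shiftLeft (nat_lit 0x800001) (nat_lit 113)) (.br (Nat.shiftLeft (nat_lit 0x1) (nat_lit 136)) (.one (nat_lit 0x900000500800900f000a01013441e511)) (.one (nat_lit 0x100000100500800900f200a03041201e611))) (.br (Nat.shiftLeft (nat_lit 0x1000003) (nat_lit 112)) (.one (nat_lit 0x100000200500800900f400a03041201e611)) (.br (Nat.shiftLeft (nat_lit 0x400001) (nat_lit 114)) (.one (nat_lit 0x100000300500800900f600a03041201e611)) (.one (nat_lit 0x100000400500800900f800a03041201e611)))))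
def t32 : k32.all (jb2 57 fl b0) = true := by decide +kernel
noncomputable def k33 : KT := (.one (nat_lit 0x100200300500800900f600a03045281e870))
def t33 : k33.all (jb2 57 fl b0) = true := by decide +kernel
noncomputable def k34 : KT := (.br (Nat.shiftLeft (nat_lit 0x1000001) (nat_lit 113)) (.br (Nat.shiftLeft (nat_lit 0x1003) (nat_lit 124)) (.one (nat_lit 0x100200400500800900f800a03045281e870)) (.br (Nat.shiftLeft (nat_lit 0x1) (nat_lit 137)) (.one (nat_lit 0x100300400500800900f800a030472c1e870)) (.one (nat_lit 0x200000100500800900f200a05081201e611)))) (.br (Nat.shiftLeft (nat_lit 0x2000003) (nat_lit 112)) (.one (nat_lit 0x200000200500800900f400a05081201e611)) (.br (Nat.shiftLeft (nat_lit 0x800001) (nat_lit 114)) (.one (nat_lit 0x200000300500800900f600a05081201e611)) (.one (nat_lit 0x200000400500800900f800a05081201e611)))))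
def t34 : k34.all (jb2 57 fl b0) = true := by decide +kernel
noncomputable def k35 : KT := (.br (Nat.shiftLeft (nat_lit 0xc00001) (nat_lit 114)) (.br (Nat.shiftLeft (nat_lit 0x1800001) (nat_lit 113)) (.br (Nat.shiftLeft (nat_lit 0x3) (nat_lit 136)) (.one (nat_lit 0x200300400500800900f800a050872c1e870)) (.one (nat_lit 0x300000100500800900f200a070c1201e611))) (.br (Nat.shiftLeft (nat_lit 0x3000003) (nat_lit 112)) (.one (nat_lit 0x300000200500800900f400a070c1201e611)) (.one (nat_lit 0x300000300500800900f600a070c1201e611)))) (.br (Nat.shiftLeft (nat_lit 0x2000001) (nat_lit 113)) (.br (Nat.shiftLeft (nat_lit 0x1) (nat_lit 138)) (.one (nat_lit 0x300000400500800900f800a070c1201e611)) (.one (nat_lit 0x400000100500800900f200a09101201e611))) (.br (Nat.shiftLeft (nat_lit 0x4000003) (nat_lit 112)) (.one (nat_lit 0x400000200500800900f400a09101201e611)) (.br (Nat.shiftLeft (nat_lit 0x1000001) (nat_lit 114)) (.one (nat_lit 0x400000300500800900f600a09101201e611)) (.one (nat_lit 0x400000400500800900f800a09101201e611))))))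
def t35 : k35.all (jb2 57 fl b0) = true := by decide +kernel
noncomputable def k36 : KT := (.br (Nat.shiftLeft (nat_lit 0x2800001) (nat_lit 113)) (.one (nat_lit 0x500000100500800900f200a0b141201e611)) (.one (nat_lit 0x500000200500800900f400a0b141201e611)))
def t36 : k36.all (jb2 57 fl b0) = true := by decide +kernel
noncomputable def k37 : KT := (.br (Nat.shiftLeft (nat_lit 0x1400001) (nat_lit 114)) (.one (nat_lit 0x500000300500800900f600a0b141201e611)) (.one (nat_lit 0x500000400500800900f800a0b141201e611)))
def t37 : k37.all (jb2 57 fl b0) = true := by decide +kernel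
noncomputable def k38 : KT := (.one (nat_lit 0x600000100500800900f200a0d181201e611))
noncomputable def b39 : BT := .node (nat_lit 0x1) (nat_lit 0x9914c912f80032d8000c89010008800028) .leaf .leaf
def t38 : k38.all (jb2 57 fl b39) = true := by decide +kernel
noncomputable def k39 : KT := (.one (nat_lit 0x600000200500800900f400a0d181201e611))
noncomputable def b40 : BT := .node (nat_lit 0x1) (nat_lit 0x9924b2145c003a59000ac6c10008800028) .leaf .leaf
def t39 : k39.all (jb2 57 fl b40) = true := by decide +kernel
noncomputable def k40 : KT := (.br (Nat.shiftLeft (nat_lit 0x1800001) (nat_lit 114)) (.one (nat_lit 0x600000300500800900f600a0d181201e611)) (.one (nat_lit 0x600000400500800900f800a0d181201e611)))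
noncomputable def b41 : BT := .node (nat_lit 0xb) (nat_lit 0x12312a226493229352b900065b40011ac00074360015ea8523128b9514003a5a0006e6c10020d0020d0020d0020d0020d0020d0020d0015100151000f0000f0000f0) .leaf .leaf
def t40 : k40.all (jb2 57 fl b41) = true := by decide +kernel
noncomputable def k41 : KT := (.one (nat_lit 0x700000100500800900f200a0f1c1201e611))
noncomputable def b42 : BT := .node (nat_lit 0x1) (nat_lit 0x4b1b6cc97c96228b145c003a98000aa88003a59000ac702000e300028) .leaf .leaf
def t41 : k41.all (jb2 57 fl b42) = true := by decide +kernel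
noncomputable def k42 : KT := (.br (Nat.shiftLeft (nat_lit 0x7000003) (nat_lit 112)) (.one (nat_lit 0x700000200500800900f400a0f1c1201e611)) (.one (nat_lit 0x700000300500800900f600a0f1c1201e611)))
noncomputable def b43 : BT := .node (nat_lit 0xb) (nat_lit 0x99249b12f4003a1c000ab7c193525f945c003a20000ad641001b0001b0001b0001b0001b0001b00015000150000f0000f0000f0000f0) .leaf .leaf
def t42 : k42.all (jb2 57 fl b43) = true := by decide +kernel
noncomputable def k43 : KT := (.br (Nat.shiftLeft (nat_lit 0x1) (nat_lit 139)) (.one (nat_lit 0x700000400500800900f800a0f1c1201e611)) (.one (nat_lit 0x800000100500800900f200a11201201e611)))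
noncomputable def b44 : BT := .node (nat_lit 0x1) (nat_lit 0xdb349ba4dc0032d8000ca6c10008800028) .leaf .leaf
def t43 : k43.all (jb2 57 fl b44) = true := by decide +kernel
noncomputable def k44 : KT := (.br (Nat.shiftLeft (nat_lit 0x8000003) (nat_lit 112)) (.one (nat_lit 0x800000200500800900f400a11201201e611)) (.br (Nat.shiftLeft (nat_lit 0x2000001) (nat_lit 114)) (.one (nat_lit 0x800000300500800900f600a11201201e611)) (.one (nat_lit 0x800000400500800900f800a11201201e611))))
def t44 : k44.all (jb2 57 fl b0) = true := by decide +kernel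
noncomputable def k45 : KT := (.br (Nat.shiftLeft (nat_lit 0x4800001) (nat_lit 113)) (.one (nat_lit 0x900000100500800900f200a13241201e611)) (.br (Nat.shiftLeft (nat_lit 0x9000003) (nat_lit 112)) (.one (nat_lit 0x900000200500800900f400a13241201e611)) (.one (nat_lit 0x900000300500800900f600a13241201e611))))
noncomputable def b46 : BT := .node (nat_lit 0x1) (nat_lit 0x96349c945800421a000ac6c10008800028) .leaf .leaf
def t45 : k45.all (jb2 57 fl b46) = true := by decide +kernel
noncomputable def k46 : KT := (.br (Nat.shiftLeft (nat_lit 0x2000003) (nat_lit 124)) (.br (Nat.shiftLeft (nat_lit 0x1000003) (nat_lit 124)) (.br (Nat.shiftLeft (nat_lit 0x1000001003) (nat_lit 112)) (.br (Nat.shiftLeft (nat_lit 0x1) (nat_lit 148)) (.one (nat_lit 0x900000400500800900f800a13241201e611)) (.one (nat_lit 0x100000100200500800900f402a41003241e711))) (.br (Nat.shiftLeft (nat_lit 0x800001) (nat_lit 125)) (.one (nat_lit 0x100000100300500800900f602a41003241e711)) (.br (Nat.shiftLeft (nat_lit 0x400000801) (nat_lit 114)) (.one (nat_lit 0x100000200300500800900f602a41005281e711))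 (.one (nat_lit 0x100000200400500800900f802a41005281e711))))) (.br (Nat.shiftLeft (nat_lit 0x2000001003) (nat_lit 112)) (.br (Nat.shiftLeft (nat_lit 0x1) (nat_lit 149)) (.one (nat_lit 0x100000300400500800900f802a410072c1e711)) (.one (nat_lit 0x200000100200500800900f404a81003241e711))) (.br (Nat.shiftLeft (nat_lit 0x1000001) (nat_lit 125)) (.one (nat_lit 0x200000100300500800900f604a81003241e711)) (.br (Nat.shiftLeft (nat_lit 0x800000801) (nat_lit 114)) (.one (nat_lit 0x200000200300500800900f604a81005281e711)) (.one (nat_lit 0x200000200400500800900f804a81005281e711)))))) (.br (Nat.shiftLeft (nat_lit 0x3000003) (nat_lit 124)) (.br (Nat.shiftLeft (nat_lit 0x3000001003) (nat_lit 112)) (.br (Nat.shiftLeft (nat_lit 0x3) (nat_lit 148)) (.one (nat_lit 0x200000300400500800900f804a810072c1e711)) (.one (nat_lit 0x300000100200500800900f406ac1003241e711))) (.br (Nat.shiftLeft (nat_lit 0x1800001) (nat_lit 125)) (.one (nat_lit 0x300000100300500800900f606ac1003241e711)) (.br (Nat.shiftLeft (nat_lit 0xc00000801) (nat_lit 114)) (.one (nat_lit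 0x300000200300500800900f606ac1005281e711)) (.one (nat_lit 0x300000200400500800900f806ac1005281e711))))) (.br (Nat.shiftLeft (nat_lit 0x2000001) (nat_lit 125)) (.br (Nat.shiftLeft (nat_lit 0x1) (nat_lit 150)) (.one (nat_lit 0x300000300400500800900f806ac10072c1e711)) (.br (Nat.shiftLeft (nat_lit 0x4000001003) (nat_lit 112)) (.one (nat_lit 0x400000100200500800900f408b01003241e711)) (.one (nat_lit 0x400000100300500800900f608b01003241e711)))) (.br (Nat.shiftLeft (nat_lit 0x1000000801) (nat_lit 114)) (.one (nat_lit 0x400000200300500800900f608b01005281e711)) (.br (Nat.shiftLeft (nat_lit 0x4000003) (nat_lit 124)) (.one (nat_lit 0x400000200400500800900f808b01005281e711)) (.one (nat_lit 0x400000300400500800900f808b010072c1e711)))))))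
def t46 : k46.all (jb2 57 fl b0) = true := by decide +kernel
noncomputable def k47 : KT := (.br (Nat.shiftLeft (nat_lit 0x5000001003) (nat_lit 112)) (.one (nat_lit 0x500000100200500800900f40ab41003241e711)) (.br (Nat.shiftLeft (nat_lit 0x2800001) (nat_lit 125)) (.one (nat_lit 0x500000100300500800900f60ab41003241e711)) (.one (nat_lit 0x500000200300500800900f60ab41005281e711))))
noncomputable def b48 : BT := .node (nat_lit 0x17) (nat_lit 0x3784a30573000e870002399064624bf4c924d097a4be000c890002358000ea60002ae10b784a889924b1258ca2e00196d0005630001d2c800563814c8a4d497c001d0d80055c20c9a12f8ae6001cd180057ac0ed91510a88001d4c00047320ed912f52689912a212e00032dc000ab640032da000cb602005920059200532004760047600476003bb003bb003bb003bb003bb003bb0035b0035b0035b002fb0029b0029b0029b0029b0029b0029b001e0001e0) .leaf .leaf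
def t47 : k47.all (jb2 57 fl b48) = true := by decide +kernel
noncomputable def k48 : KT := (.br (Nat.shiftLeft (nat_lit 0x5000003) (nat_lit 124)) (.one (nat_lit 0x500000200400500800900f80ab41005281e711)) (.br (Nat.shiftLeft (nat_lit 0x3) (nat_lit 149)) (.one (nat_lit 0x500000300400500800900f80ab410072c1e711)) (.one (nat_lit 0x600000100200500800900f40cb81003241e711))))
noncomputable def b49 : BT := .node (nat_lit 0xb) (nat_lit 0x6d9145cae4001d2d00047ae0c9a945d26a9626d995c8003356000cb60013a59004af5420020b0020b0020b001ab001ab001ab000f0000f0000f0000f0000f0000f0) .leaf .leaf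
def t48 : k48.all (jb2 57 fl b49) = true := by decide +kernel
noncomputable def k49 : KT := (.br (Nat.shiftLeft (nat_lit 0x1800000801) (nat_lit 114)) (.br (Nat.shiftLeft (nat_lit 0x3000001) (nat_lit 125)) (.one (nat_lit 0x600000100300500800900f60cb81003241e711)) (.one (nat_lit 0x600000200300500800900f60cb81005281e711))) (.br (Nat.shiftLeft (nat_lit 0x6000003) (nat_lit 124)) (.one (nat_lit 0x600000200400500800900f80cb81005281e711)) (.one (nat_lit 0x600000300400500800900f80cb810072c1e711))))
noncomputable def b50 : BT := .node (nat_lit 0x1) (nat_lit 0xdb249a92f800329a000ab8410008800028) .leaf .leaf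
def t49 : k49.all (jb2 57 fl b50) = true := by decide +kernel
noncomputable def k50 : KT := (.br (Nat.shiftLeft (nat_lit 0x3800001) (nat_lit 125)) (.br (Nat.shiftLeft (nat_lit 0x7000001003) (nat_lit 112)) (.one (nat_lit 0x700000100200500800900f40ebc1003241e711)) (.one (nat_lit 0x700000100300500800900f60ebc1003241e711))) (.br (Nat.shiftLeft (nat_lit 0x1c00000801) (nat_lit 114)) (.one (nat_lit 0x700000200300500800900f60ebc1005281e711)) (.one (nat_lit 0x700000200400500800900f80ebc1005281e711))))
noncomputable def b51 : BT := .node (nat_lit 0x1) (nat_lit 0x93525f145c003a1f000ad6810008800028) .leaf .leaf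
def t50 : k50.all (jb2 57 fl b51) = true := by decide +kernel
noncomputable def k51 : KT := (.br (Nat.shiftLeft (nat_lit 0x4000001) (nat_lit 125)) (.br (Nat.shiftLeft (nat_lit 0x1) (nat_lit 151)) (.one (nat_lit 0x700000300400500800900f80ebc10072c1e711)) (.br (Nat.shiftLeft (nat_lit 0x8000001003) (nat_lit 112)) (.one (nat_lit 0x800000100200500800900f410c01003241e711)) (.one (nat_lit 0x800000100300500800900f610c01003241e711)))) (.br (Nat.shiftLeft (nat_lit 0x2000000801) (nat_lit 114)) (.one (nat_lit 0x800000200300500800900f610c01005281e711)) (.br (Nat.shiftLeft (nat_lit 0x8000003) (nat_lit 124)) (.one (nat_lit 0x800000200400500800900f810c01005281e711)) (.one (nat_lit 0x800000300400500800900f810c010072c1e711)))))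
def t51 : k51.all (jb2 57 fl b0) = true := by decide +kernel
noncomputable def k52 : KT := (.br (Nat.shiftLeft (nat_lit 0x4800001) (nat_lit 125)) (.br (Nat.shiftLeft (nat_lit 0x9000001003) (nat_lit 112)) (.one (nat_lit 0x900000100200500800900f412c41003241e711)) (.one (nat_lit 0x900000100300500800900f612c41003241e711))) (.br (Nat.shiftLeft (nat_lit 0x2400000801) (nat_lit 114)) (.one (nat_lit 0x900000200300500800900f612c41005281e711)) (.br (Nat.shiftLeft (nat_lit 0x9000003) (nat_lit 124)) (.one (nat_lit 0x900000200400500800900f812c41005281e711)) (.one (nat_lit 0x900000300400500800900f812c410072c1e711)))))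
def t52 : k52.all (jb2 57 fl b0) = true := by decide +kernel
noncomputable def s2 : KT := (.br (nat_lit 0x600000200500800900f400a0d181201e611) (.br (nat_lit 0x100000400500800900f800a03041201e611) (.br (nat_lit 0x600000500800900f000a0100d381e511) (.br (nat_lit 0x100300500800900f600a01003241f700) k27 (.br (nat_lit 0x100400500800900f800a01003241e760) k28 k29)) (.br (nat_lit 0x700000500800900f000a0100f3c1e511) k30 (.br (nat_lit 0x800000500800900f000a01011401e511) k31 k32))) (.br (nat_lit 0x400000400500800900f800a09101201e611) (.br (nat_lit 0x100200300500800900f600a03045281e870) k33 (.br (nat_lit 0x200000400500800900f800a05081201e611) k34 k35)) (.br (nat_lit 0x500000400500800900f800a0b141201e611) (.br (nat_lit 0x500000200500800900f400a0b141201e611) k36 k37) (.br (nat_lit 0x600000100500800900f200a0d181201e611) k38 k39)))) (.br (nat_lit 0x900000300500800900f600a13241201e611) (.br (nat_lit 0x700000300500800900f600a0f1c1201e611) (.br (nat_lit 0x600000400500800900f800a0d181201e611) k40 (.br (nat_lit 0x700000100500800900f200a0f1c1201e611)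 k41 k42)) (.br (nat_lit 0x800000100500800900f200a11201201e611) k43 (.br (nat_lit 0x800000400500800900f800a11201201e611) k44 k45))) (.br (nat_lit 0x600000100200500800900f40cb81003241e711) (.br (nat_lit 0x400000300400500800900f808b010072c1e711) k46 (.br (nat_lit 0x500000200300500800900f60ab41005281e711) k47 k48)) (.br (nat_lit 0x700000200400500800900f80ebc1005281e711) (.br (nat_lit 0x600000300400500800900f80cb810072c1e711) k49 k50) (.br (nat_lit 0x800000300400500800900f810c010072c1e711) k51 k52)))))
noncomputable def u2 : KT := (.one (nat_lit 0x500800900f000a01001201e540))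
def w2 : u2.all (wj 57 s2) = true := by decide +kernel
def o2 : OkW 57 (jb2 57 fl) u2 := .lift s2 _ (.br _ _ _ (.br _ _ _ (.br _ _ _ (.br _ _ _ (.leaf b0 k27 t27) (.br _ _ _ (.leaf b0 k28 t28) (.leaf b30 k29 t29))) (.br _ _ _ (.leaf b31 k30 t30) (.br _ _ _ (.leaf b32 k31 t31) (.leaf b0 k32 t32)))) (.br _ _ _ (.br _ _ _ (.leaf b0 k33 t33) (.br _ _ _ (.leaf b0 k34 t34) (.leaf b0 k35 t35))) (.br _ _ _ (.br _ _ _ (.leaf b0 k36 t36) (.leaf b0 k37 t37)) (.br _ _ _ (.leaf b39 k38 t38) (.leaf b40 k39 t39))))) (.br _ _ _ (.br _ _ _ (.br _ _ _ (.leaf b41 k40 t40) (.br _ _ _ (.leaf b42 k41 t41) (.leaf b43 k42 t42))) (.br _ _ _ (.leaf b44 k43 t43) (.br _ _ _ (.leaf b0 k44 t44) (.leaf b46 k45 t45)))) (.br _ _ _ (.br _ _ _ (.leaf b0 k46 t46) (.br _ _ _ (.leaf b48 k47 t47) (.leaf b49 k48 t48))) (.br _ _ _ (.br _ _ _ (.leaf b50 k49 t49) (.leaf b51 k50 t50)) (.br _ _ _ (.leaf b0 k51 t51) (.leaf b0 k52 t52)))))) w2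
noncomputable def k53 : KT := (.br (Nat.shiftLeft (nat_lit 0x1) (nat_lit 124)) (.br (Nat.shiftLeft (nat_lit 0x1) (nat_lit 113)) (.br (Nat.shiftLeft (nat_lit 0x1) (nat_lit 112)) (.one (nat_lit 0x5008009010000a010012021500)) (.one (nat_lit 0x1005008009010200a010012021600))) (.br (Nat.shiftLeft (nat_lit 0x3) (nat_lit 112)) (.one (nat_lit 0x2005008009010400a010012021600)) (.br (Nat.shiftLeft (nat_lit 0x1) (nat_lit 114)) (.one (nat_lit 0x3005008009010600a010012021600)) (.one (nat_lit 0x4005008009010800a010012021600))))) (.br (Nat.shiftLeft (nat_lit 0x401) (nat_lit 114)) (.br (Nat.shiftLeft (nat_lit 0x801) (nat_lit 113)) (.one (nat_lit 0x1000005008009010000a010032420511)) (.br (Nat.shiftLeft (nat_lit 0x1003) (nat_lit 112)) (.one (nat_lit 0x1002005008009010400a010032421700)) (.one (nat_lit 0x1003005008009010600a010032421700)))) (.br (Nat.shiftLeft (nat_lit 0x1) (nat_lit 125)) (.one (nat_lit 0x1004005008009010800a010032420760)) (.br (Nat.shiftLeft (nat_lit 0x1001) (nat_lit 113)) (.one (nat_lit 0x2000005008009010000a010052820511))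 (.one (nat_lit 0x2003005008009010600a010052821700))))))
def t53 : k53.all (jb2 57 fl b0) = true := by decide +kernel
noncomputable def k54 : KT := (.br (Nat.shiftLeft (nat_lit 0x3) (nat_lit 124)) (.one (nat_lit 0x2004005008009010800a010052820760)) (.one (nat_lit 0x3000005008009010000a010072c20511)))
def t54 : k54.all (jb2 57 fl b0) = true := by decide +kernel
noncomputable def k55 : KT := (.br (Nat.shiftLeft (nat_lit 0x1) (nat_lit 126)) (.one (nat_lit 0x3004005008009010800a010072c20760)) (.one (nat_lit 0x4000005008009010000a010093020511)))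
def t55 : k55.all (jb2 57 fl b0) = true := by decide +kernel
noncomputable def k56 : KT := (.br (Nat.shiftLeft (nat_lit 0x3) (nat_lit 125)) (.one (nat_lit 0x5000005008009010000a0100b3420511)) (.one (nat_lit 0x6000005008009010000a0100d3820511)))
def t56 : k56.all (jb2 57 fl b0) = true := by decide +kernel
noncomputable def k57 : KT := (.br (Nat.shiftLeft (nat_lit 0x1) (nat_lit 127)) (.one (nat_lit 0x7000005008009010000a0100f3c20511)) (.one (nat_lit 0x8000005008009010000a010114020511)))
def t57 : k57.all (jb2 57 fl b0) = true := by decide +kernel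
noncomputable def k58 : KT := (.br (Nat.shiftLeft (nat_lit 0x1000001) (nat_lit 113)) (.br (Nat.shiftLeft (nat_lit 0x1000003) (nat_lit 112)) (.br (Nat.shiftLeft (nat_lit 0x1) (nat_lit 136)) (.one (nat_lit 0x9000005008009010000a010134420511)) (.br (Nat.shiftLeft (nat_lit 0x800001) (nat_lit 113)) (.one (nat_lit 0x1000001005008009010200a030412020611)) (.one (nat_lit 0x1000002005008009010400a030412020611)))) (.br (Nat.shiftLeft (nat_lit 0x801) (nat_lit 125)) (.br (Nat.shiftLeft (nat_lit 0x400001) (nat_lit 114)) (.one (nat_lit 0x1000003005008009010600a030412020611)) (.one (nat_lit 0x1000004005008009010800a030412020611))) (.br (Nat.shiftLeft (nat_lit 0x1) (nat_lit 137)) (.one (nat_lit 0x1002003005008009010600a030452820870)) (.one (nat_lit 0x2000001005008009010200a050812020611))))) (.br (Nat.shiftLeft (nat_lit 0x3) (nat_lit 136)) (.br (Nat.shiftLeft (nat_lit 0x2000003) (nat_lit 112)) (.one (nat_lit 0x2000002005008009010400a050812020611)) (.br (Nat.shiftLeft (nat_lit 0x800001) (nat_lit 114)) (.one (nat_lit 0x2000003005008009010600a050812020611))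 (.one (nat_lit 0x2000004005008009010800a050812020611)))) (.br (Nat.shiftLeft (nat_lit 0x3000003) (nat_lit 112)) (.br (Nat.shiftLeft (nat_lit 0x1800001) (nat_lit 113)) (.one (nat_lit 0x3000001005008009010200a070c12020611)) (.one (nat_lit 0x3000002005008009010400a070c12020611))) (.br (Nat.shiftLeft (nat_lit 0xc00001) (nat_lit 114)) (.one (nat_lit 0x3000003005008009010600a070c12020611)) (.one (nat_lit 0x3000004005008009010800a070c12020611))))))
def t58 : k58.all (jb2 57 fl b0) = true := by decide +kernel
noncomputable def k59 : KT := (.br (Nat.shiftLeft (nat_lit 0x4000003) (nat_lit 112)) (.br (Nat.shiftLeft (nat_lit 0x2000001) (nat_lit 113)) (.one (nat_lit 0x4000001005008009010200a091012020611)) (.one (nat_lit 0x4000002005008009010400a091012020611))) (.br (Nat.shiftLeft (nat_lit 0x1000001) (nat_lit 114)) (.one (nat_lit 0x4000003005008009010600a091012020611)) (.br (Nat.shiftLeft (nat_lit 0x5) (nat_lit 136)) (.one (nat_lit 0x4000004005008009010800a091012020611)) (.one (nat_lit 0x5000001005008009010200a0b1412020611)))))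
def t59 : k59.all (jb2 57 fl b0) = true := by decide +kernel
noncomputable def k60 : KT := (.br (Nat.shiftLeft (nat_lit 0x5000003) (nat_lit 112)) (.one (nat_lit 0x5000002005008009010400a0b1412020611)) (.br (Nat.shiftLeft (nat_lit 0x1400001) (nat_lit 114)) (.one (nat_lit 0x5000003005008009010600a0b1412020611)) (.one (nat_lit 0x5000004005008009010800a0b1412020611))))
def t60 : k60.all (jb2 57 fl b0) = true := by decide +kernel
noncomputable def k61 : KT := (.br (Nat.shiftLeft (nat_lit 0x3000001) (nat_lit 113)) (.one (nat_lit 0x6000001005008009010200a0d1812020611)) (.one (nat_lit 0x6000002005008009010400a0d1812020611)))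
def t61 : k61.all (jb2 57 fl b0) = true := by decide +kernel
noncomputable def k62 : KT := (.br (Nat.shiftLeft (nat_lit 0x1800001) (nat_lit 114)) (.one (nat_lit 0x6000003005008009010600a0d1812020611)) (.one (nat_lit 0x6000004005008009010800a0d1812020611)))
def t62 : k62.all (jb2 57 fl b0) = true := by decide +kernel
noncomputable def k63 : KT := (.br (Nat.shiftLeft (nat_lit 0x3800001) (nat_lit 113)) (.one (nat_lit 0x7000001005008009010200a0f1c12020611)) (.one (nat_lit 0x7000002005008009010400a0f1c12020611)))
def t63 : k63.all (jb2 57 fl b0) = true := by decide +kernel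
noncomputable def k64 : KT := (.br (Nat.shiftLeft (nat_lit 0x1c00001) (nat_lit 114)) (.one (nat_lit 0x7000003005008009010600a0f1c12020611)) (.br (Nat.shiftLeft (nat_lit 0x1) (nat_lit 139)) (.one (nat_lit 0x7000004005008009010800a0f1c12020611)) (.one (nat_lit 0x8000001005008009010200a112012020611))))
def t64 : k64.all (jb2 57 fl b0) = true := by decide +kernel
noncomputable def k65 : KT := (.br (Nat.shiftLeft (nat_lit 0x2000001) (nat_lit 114)) (.br (Nat.shiftLeft (nat_lit 0x8000003) (nat_lit 112)) (.one (nat_lit 0x8000002005008009010400a112012020611)) (.one (nat_lit 0x8000003005008009010600a112012020611))) (.br (Nat.shiftLeft (nat_lit 0x9) (nat_lit 136)) (.one (nat_lit 0x8000004005008009010800a112012020611)) (.one (nat_lit 0x9000001005008009010200a132412020611))))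
def t65 : k65.all (jb2 57 fl b0) = true := by decide +kernel
noncomputable def k66 : KT := (.br (Nat.shiftLeft (nat_lit 0x2000001003) (nat_lit 112)) (.br (Nat.shiftLeft (nat_lit 0x1) (nat_lit 148)) (.br (Nat.shiftLeft (nat_lit 0x9000003) (nat_lit 112)) (.one (nat_lit 0x9000002005008009010400a132412020611)) (.br (Nat.shiftLeft (nat_lit 0x2400001) (nat_lit 114)) (.one (nat_lit 0x9000003005008009010600a132412020611)) (.one (nat_lit 0x9000004005008009010800a132412020611)))) (.br (Nat.shiftLeft (nat_lit 0x800001) (nat_lit 125)) (.br (Nat.shiftLeft (nat_lit 0x1000001003) (nat_lit 112)) (.one (nat_lit 0x1000001002005008009010402a410032420711)) (.one (nat_lit 0x1000001003005008009010602a410032420711))) (.br (Nat.shiftLeft (nat_lit 0x1) (nat_lit 149)) (.one (nat_lit 0x1000002003005008009010602a410052820711)) (.one (nat_lit 0x2000001002005008009010404a810032420711))))) (.br (Nat.shiftLeft (nat_lit 0x1800001) (nat_lit 125)) (.br (Nat.shiftLeft (nat_lit 0x3) (nat_lit 148)) (.br (Nat.shiftLeft (nat_lit 0x1000001) (nat_lit 125))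 (.one (nat_lit 0x2000001003005008009010604a810032420711)) (.one (nat_lit 0x2000002003005008009010604a810052820711))) (.br (Nat.shiftLeft (nat_lit 0x3000001003) (nat_lit 112)) (.one (nat_lit 0x3000001002005008009010406ac10032420711)) (.one (nat_lit 0x3000001003005008009010606ac10032420711)))) (.br (Nat.shiftLeft (nat_lit 0x4000001003) (nat_lit 112)) (.br (Nat.shiftLeft (nat_lit 0x1) (nat_lit 150)) (.one (nat_lit 0x3000002003005008009010606ac10052820711)) (.one (nat_lit 0x4000001002005008009010408b010032420711))) (.br (Nat.shiftLeft (nat_lit 0x2000001) (nat_lit 125)) (.one (nat_lit 0x4000001003005008009010608b010032420711)) (.one (nat_lit 0x4000002003005008009010608b010052820711))))))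
def t66 : k66.all (jb2 57 fl b0) = true := by decide +kernel
noncomputable def k67 : KT := (.br (Nat.shiftLeft (nat_lit 0x5000001003) (nat_lit 112)) (.one (nat_lit 0x500000100200500800901040ab410032420711)) (.br (Nat.shiftLeft (nat_lit 0x2800001) (nat_lit 125)) (.one (nat_lit 0x500000100300500800901060ab410032420711)) (.one (nat_lit 0x500000200300500800901060ab410052820711))))
def t67 : k67.all (jb2 57 fl b0) = true := by decide +kernel
noncomputable def k68 : KT := (.br (Nat.shiftLeft (nat_lit 0x3000001) (nat_lit 125)) (.br (Nat.shiftLeft (nat_lit 0x6000001003) (nat_lit 112)) (.one (nat_lit 0x600000100200500800901040cb810032420711)) (.one (nat_lit 0x600000100300500800901060cb810032420711))) (.br (Nat.shiftLeft (nat_lit 0x7) (nat_lit 148)) (.one (nat_lit 0x600000200300500800901060cb810052820711)) (.one (nat_lit 0x700000100200500800901040ebc10032420711))))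
def t68 : k68.all (jb2 57 fl b0) = true := by decide +kernel
noncomputable def k69 : KT := (.br (Nat.shiftLeft (nat_lit 0x4000001) (nat_lit 125)) (.br (Nat.shiftLeft (nat_lit 0x1) (nat_lit 151)) (.br (Nat.shiftLeft (nat_lit 0x3800001) (nat_lit 125)) (.one (nat_lit 0x700000100300500800901060ebc10032420711)) (.one (nat_lit 0x700000200300500800901060ebc10052820711))) (.br (Nat.shiftLeft (nat_lit 0x8000001003) (nat_lit 112)) (.one (nat_lit 0x8000001002005008009010410c010032420711)) (.one (nat_lit 0x8000001003005008009010610c010032420711)))) (.br (Nat.shiftLeft (nat_lit 0x9000001003) (nat_lit 112)) (.br (Nat.shiftLeft (nat_lit 0x9) (nat_lit 148)) (.one (nat_lit 0x8000002003005008009010610c010052820711)) (.one (nat_lit 0x9000001002005008009010412c410032420711))) (.br (Nat.shiftLeft (nat_lit 0x4800001) (nat_lit 125)) (.one (nat_lit 0x9000001003005008009010612c410032420711)) (.one (nat_lit 0x9000002003005008009010612c410052820711)))))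
def t69 : k69.all (jb2 57 fl b0) = true := by decide +kernel
noncomputable def s3 : KT := (.br (nat_lit 0x5000004005008009010800a0b1412020611) (.br (nat_lit 0x6000005008009010000a0100d3820511) (.br (nat_lit 0x3000005008009010000a010072c20511) (.br (nat_lit 0x2003005008009010600a010052821700) k53 k54) (.br (nat_lit 0x4000005008009010000a010093020511) k55 k56)) (.br (nat_lit 0x3000004005008009010800a070c12020611) (.br (nat_lit 0x8000005008009010000a010114020511) k57 k58) (.br (nat_lit 0x5000001005008009010200a0b1412020611) k59 k60))) (.br (nat_lit 0x8000001005008009010200a112012020611) (.br (nat_lit 0x6000004005008009010800a0d1812020611) (.br (nat_lit 0x6000002005008009010400a0d1812020611) k61 k62) (.br (nat_lit 0x7000002005008009010400a0f1c12020611) k63 k64)) (.br (nat_lit 0x4000002003005008009010608b010052820711) (.br (nat_lit 0x9000001005008009010200a132412020611) k65 k66) (.br (nat_lit 0x500000200300500800901060ab410052820711) k67 (.br (nat_lit 0x700000100200500800901040ebc10032420711) k68 k69)))))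
noncomputable def u3 : KT := (.one (nat_lit 0x5008009010000a010012020540))
def w3 : u3.all (wj 57 s3) = true := by decide +kernel
def o3 : OkW 57 (jb2 57 fl) u3 := .lift s3 _ (.br _ _ _ (.br _ _ _ (.br _ _ _ (.br _ _ _ (.leaf b0 k53 t53) (.leaf b0 k54 t54)) (.br _ _ _ (.leaf b0 k55 t55) (.leaf b0 k56 t56))) (.br _ _ _ (.br _ _ _ (.leaf b0 k57 t57) (.leaf b0 k58 t58)) (.br _ _ _ (.leaf b0 k59 t59) (.leaf b0 k60 t60)))) (.br _ _ _ (.br _ _ _ (.br _ _ _ (.leaf b0 k61 t61) (.leaf b0 k62 t62)) (.br _ _ _ (.leaf b0 k63 t63) (.leaf b0 k64 t64))) (.br _ _ _ (.br _ _ _ (.leaf b0 k65 t65) (.leaf b0 k66 t66)) (.br _ _ _ (.leaf b0 k67 t67) (.br _ _ _ (.leaf b0 k68 t68) (.leaf b0 k69 t69)))))) w3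
noncomputable def k70 : KT := (.br (Nat.shiftLeft (nat_lit 0x3) (nat_lit 112)) (.br (Nat.shiftLeft (nat_lit 0x802804004809) (nat_lit 65)) (.br (Nat.shiftLeft (nat_lit 0x2804004809) (nat_lit 65)) (.one (nat_lit 0x5008009011000a010012023500)) (.br (Nat.shiftLeft (nat_lit 0x1) (nat_lit 112)) (.one (nat_lit 0x5008009012000a010012025500)) (.one (nat_lit 0x1005008009011200a010012023600)))) (.br (Nat.shiftLeft (nat_lit 0x1) (nat_lit 113)) (.one (nat_lit 0x1005008009012200a010012025600)) (.br (Nat.shiftLeft (nat_lit 0x1002804004809) (nat_lit 65)) (.one (nat_lit 0x2005008009011400a010012023600)) (.one (nat_lit 0x2005008009012400a010012025600))))) (.br (Nat.shiftLeft (nat_lit 0x2002804004809) (nat_lit 65)) (.br (Nat.shiftLeft (nat_lit 0x1802804004809) (nat_lit 65)) (.one (nat_lit 0x3005008009011600a010012023600)) (.br (Nat.shiftLeft (nat_lit 0x1) (nat_lit 114)) (.one (nat_lit 0x3005008009012600a010012025600)) (.one (nat_lit 0x4005008009011800a010012023600)))) (.br (Nat.shiftLeft (nat_lit 0x800002804004809) (nat_lit 65)) (.br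 (Nat.shiftLeft (nat_lit 0x1) (nat_lit 124)) (.one (nat_lit 0x4005008009012800a010012025600)) (.one (nat_lit 0x1000005008009011000a010032422511))) (.br (Nat.shiftLeft (nat_lit 0x801) (nat_lit 113)) (.one (nat_lit 0x1000005008009012000a010032424511)) (.one (nat_lit 0x1002005008009011400a010032422760))))))
def t70 : k70.all (jb2 57 fl b0) = true := by decide +kernel
noncomputable def k71 : KT := (.one (nat_lit 0x1002005008009012400a010032424760))
def t71 : k71.all (jb2 57 fl b0) = true := by decide +kernel
noncomputable def k72 : KT := (.one (nat_lit 0x1003005008009011600a010032422760))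
def t72 : k72.all (jb2 57 fl b0) = true := by decide +kernel
noncomputable def k73 : KT := (.br (Nat.shiftLeft (nat_lit 0x401) (nat_lit 114)) (.one (nat_lit 0x1003005008009012600a010032424760)) (.one (nat_lit 0x1004005008009011800a010032422760)))
def t73 : k73.all (jb2 57 fl b0) = true := by decide +kernel
noncomputable def k74 : KT := (.br (Nat.shiftLeft (nat_lit 0x1) (nat_lit 125)) (.one (nat_lit 0x1004005008009012800a010032424760)) (.br (Nat.shiftLeft (nat_lit 0x1000002804004809) (nat_lit 65)) (.one (nat_lit 0x2000005008009011000a010052822511)) (.one (nat_lit 0x2000005008009012000a010052824511))))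
def t74 : k74.all (jb2 57 fl b0) = true := by decide +kernel
noncomputable def k75 : KT := (.one (nat_lit 0x2003005008009011600a010052822760))
def t75 : k75.all (jb2 57 fl b0) = true := by decide +kernel
noncomputable def k76 : KT := (.one (nat_lit 0x2003005008009012600a010052824760))
def t76 : k76.all (jb2 57 fl b0) = true := by decide +kernel
noncomputable def k77 : KT := (.br (Nat.shiftLeft (nat_lit 0x1002002804004809) (nat_lit 65)) (.one (nat_lit 0x2004005008009011800a010052822760)) (.br (Nat.shiftLeft (nat_lit 0x3) (nat_lit 124)) (.one (nat_lit 0x2004005008009012800a010052824760)) (.one (nat_lit 0x3000005008009011000a010072c22511))))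
def t77 : k77.all (jb2 57 fl b0) = true := by decide +kernel
noncomputable def k78 : KT := (.br (Nat.shiftLeft (nat_lit 0xc01) (nat_lit 114)) (.one (nat_lit 0x3000005008009012000a010072c24511)) (.br (Nat.shiftLeft (nat_lit 0x1802002804004809) (nat_lit 65)) (.one (nat_lit 0x3004005008009011800a010072c22760)) (.one (nat_lit 0x3004005008009012800a010072c24760))))
def t78 : k78.all (jb2 57 fl b0) = true := by decide +kernel
noncomputable def k79 : KT := (.br (Nat.shiftLeft (nat_lit 0x2800002804004809) (nat_lit 65)) (.br (Nat.shiftLeft (nat_lit 0x2000002804004809) (nat_lit 65)) (.one (nat_lit 0x4000005008009011000a010093022511)) (.br (Nat.shiftLeft (nat_lit 0x5) (nat_lit 124)) (.one (nat_lit 0x4000005008009012000a010093024511)) (.one (nat_lit 0x5000005008009011000a0100b3422511)))) (.br (Nat.shiftLeft (nat_lit 0x3) (nat_lit 125)) (.one (nat_lit 0x5000005008009012000a0100b3424511)) (.br (Nat.shiftLeft (nat_lit 0x3000002804004809) (nat_lit 65)) (.one (nat_lit 0x6000005008009011000a0100d3822511)) (.one (nat_lit 0x6000005008009012000a0100d3824511)))))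
def t79 : k79.all (jb2 57 fl b0) = true := by decide +kernel
noncomputable def k80 : KT := (.br (Nat.shiftLeft (nat_lit 0x3800002804004809) (nat_lit 65)) (.one (nat_lit 0x7000005008009011000a0100f3c22511)) (.br (Nat.shiftLeft (nat_lit 0x1) (nat_lit 127)) (.one (nat_lit 0x7000005008009012000a0100f3c24511)) (.one (nat_lit 0x8000005008009011000a010114022511))))
def t80 : k80.all (jb2 57 fl b0) = true := by decide +kernel
noncomputable def k81 : KT := (.br (Nat.shiftLeft (nat_lit 0x1000001002804004809) (nat_lit 65)) (.br (Nat.shiftLeft (nat_lit 0x1000003) (nat_lit 112)) (.br (Nat.shiftLeft (nat_lit 0x1) (nat_lit 136)) (.br (Nat.shiftLeft (nat_lit 0x9) (nat_lit 124)) (.one (nat_lit 0x8000005008009012000a010114024511)) (.br (Nat.shiftLeft (nat_lit 0x4800002804004809) (nat_lit 65)) (.one (nat_lit 0x9000005008009011000a010134422511)) (.one (nat_lit 0x9000005008009012000a010134424511)))) (.br (Nat.shiftLeft (nat_lit 0x800001) (nat_lit 113)) (.br (Nat.shiftLeft (nat_lit 0x800000802804004809) (nat_lit 65)) (.one (nat_lit 0x1000001005008009011200a030412022611))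 (.one (nat_lit 0x1000001005008009012200a030412024611))) (.br (Nat.shiftLeft (nat_lit 0x800001002804004809) (nat_lit 65)) (.one (nat_lit 0x1000002005008009011400a030412022611)) (.one (nat_lit 0x1000002005008009012400a030412024611))))) (.br (Nat.shiftLeft (nat_lit 0x800002002804004809) (nat_lit 65)) (.br (Nat.shiftLeft (nat_lit 0x800001802804004809) (nat_lit 65)) (.one (nat_lit 0x1000003005008009011600a030412022611)) (.br (Nat.shiftLeft (nat_lit 0x400001) (nat_lit 114)) (.one (nat_lit 0x1000003005008009012600a030412024611)) (.one (nat_lit 0x1000004005008009011800a030412022611)))) (.br (Nat.shiftLeft (nat_lit 0x1000000802804004809) (nat_lit 65)) (.br (Nat.shiftLeft (nat_lit 0x1) (nat_lit 137)) (.one (nat_lit 0x1000004005008009012800a030412024611)) (.one (nat_lit 0x2000001005008009011200a050812022611))) (.br (Nat.shiftLeft (nat_lit 0x1000001) (nat_lit 113)) (.one (nat_lit 0x2000001005008009012200a050812024611)) (.one (nat_lit 0x2000002005008009011400a050812022611)))))) (.br (Nat.shiftLeft (nat_lit 0x1800001) (nat_lit 113))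 (.br (Nat.shiftLeft (nat_lit 0x800001) (nat_lit 114)) (.br (Nat.shiftLeft (nat_lit 0x2000003) (nat_lit 112)) (.one (nat_lit 0x2000002005008009012400a050812024611)) (.br (Nat.shiftLeft (nat_lit 0x1000001802804004809) (nat_lit 65)) (.one (nat_lit 0x2000003005008009011600a050812022611)) (.one (nat_lit 0x2000003005008009012600a050812024611)))) (.br (Nat.shiftLeft (nat_lit 0x3) (nat_lit 136)) (.br (Nat.shiftLeft (nat_lit 0x1000002002804004809) (nat_lit 65)) (.one (nat_lit 0x2000004005008009011800a050812022611)) (.one (nat_lit 0x2000004005008009012800a050812024611))) (.br (Nat.shiftLeft (nat_lit 0x1800000802804004809) (nat_lit 65)) (.one (nat_lit 0x3000001005008009011200a070c12022611)) (.one (nat_lit 0x3000001005008009012200a070c12024611))))) (.br (Nat.shiftLeft (nat_lit 0xc00001) (nat_lit 114)) (.br (Nat.shiftLeft (nat_lit 0x3000003) (nat_lit 112)) (.br (Nat.shiftLeft (nat_lit 0x1800001002804004809) (nat_lit 65)) (.one (nat_lit 0x3000002005008009011400a070c12022611)) (.one (nat_lit 0x3000002005008009012400a070c12024611)))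 (.br (Nat.shiftLeft (nat_lit 0x1800001802804004809) (nat_lit 65)) (.one (nat_lit 0x3000003005008009011600a070c12022611)) (.one (nat_lit 0x3000003005008009012600a070c12024611)))) (.br (Nat.shiftLeft (nat_lit 0x1) (nat_lit 138)) (.br (Nat.shiftLeft (nat_lit 0x1800002002804004809) (nat_lit 65)) (.one (nat_lit 0x3000004005008009011800a070c12022611)) (.one (nat_lit 0x3000004005008009012800a070c12024611))) (.br (Nat.shiftLeft (nat_lit 0x2000000802804004809) (nat_lit 65)) (.one (nat_lit 0x4000001005008009011200a091012022611)) (.one (nat_lit 0x4000001005008009012200a091012024611)))))))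
def t81 : k81.all (jb2 57 fl b0) = true := by decide +kernel
noncomputable def k82 : KT := (.br (Nat.shiftLeft (nat_lit 0x1000001) (nat_lit 114)) (.br (Nat.shiftLeft (nat_lit 0x4000003) (nat_lit 112)) (.br (Nat.shiftLeft (nat_lit 0x2000001002804004809) (nat_lit 65)) (.one (nat_lit 0x4000002005008009011400a091012022611)) (.one (nat_lit 0x4000002005008009012400a091012024611))) (.br (Nat.shiftLeft (nat_lit 0x2000001802804004809) (nat_lit 65)) (.one (nat_lit 0x4000003005008009011600a091012022611)) (.one (nat_lit 0x4000003005008009012600a091012024611)))) (.br (Nat.shiftLeft (nat_lit 0x5) (nat_lit 136)) (.br (Nat.shiftLeft (nat_lit 0x2000002002804004809) (nat_lit 65)) (.one (nat_lit 0x4000004005008009011800a091012022611)) (.one (nat_lit 0x4000004005008009012800a091012024611))) (.br (Nat.shiftLeft (nat_lit 0x2800000802804004809) (nat_lit 65)) (.one (nat_lit 0x5000001005008009011200a0b1412022611)) (.one (nat_lit 0x5000001005008009012200a0b1412024611)))))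
def t82 : k82.all (jb2 57 fl b0) = true := by decide +kernel
noncomputable def k83 : KT := (.br (Nat.shiftLeft (nat_lit 0x2800001802804004809) (nat_lit 65)) (.br (Nat.shiftLeft (nat_lit 0x2800001002804004809) (nat_lit 65)) (.one (nat_lit 0x5000002005008009011400a0b1412022611)) (.br (Nat.shiftLeft (nat_lit 0x5000003) (nat_lit 112)) (.one (nat_lit 0x5000002005008009012400a0b1412024611)) (.one (nat_lit 0x5000003005008009011600a0b1412022611)))) (.br (Nat.shiftLeft (nat_lit 0x1400001) (nat_lit 114)) (.one (nat_lit 0x5000003005008009012600a0b1412024611)) (.br (Nat.shiftLeft (nat_lit 0x2800002002804004809) (nat_lit 65)) (.one (nat_lit 0x5000004005008009011800a0b1412022611)) (.one (nat_lit 0x5000004005008009012800a0b1412024611)))))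
def t83 : k83.all (jb2 57 fl b0) = true := by decide +kernel
noncomputable def k84 : KT := (.br (Nat.shiftLeft (nat_lit 0x3000000802804004809) (nat_lit 65)) (.one (nat_lit 0x6000001005008009011200a0d1812022611)) (.br (Nat.shiftLeft (nat_lit 0x3000001) (nat_lit 113)) (.one (nat_lit 0x6000001005008009012200a0d1812024611)) (.one (nat_lit 0x6000002005008009011400a0d1812022611))))
def t84 : k84.all (jb2 57 fl b0) = true := by decide +kernel
noncomputable def k85 : KT := (.br (Nat.shiftLeft (nat_lit 0x3000001802804004809) (nat_lit 65)) (.br (Nat.shiftLeft (nat_lit 0x6000003) (nat_lit 112)) (.one (nat_lit 0x6000002005008009012400a0d1812024611)) (.one (nat_lit 0x6000003005008009011600a0d1812022611))) (.br (Nat.shiftLeft (nat_lit 0x1800001) (nat_lit 114)) (.one (nat_lit 0x6000003005008009012600a0d1812024611)) (.br (Nat.shiftLeft (nat_lit 0x3000002002804004809) (nat_lit 65)) (.one (nat_lit 0x6000004005008009011800a0d1812022611)) (.one (nat_lit 0x6000004005008009012800a0d1812024611)))))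
def t85 : k85.all (jb2 57 fl b0) = true := by decide +kernel
noncomputable def k86 : KT := (.br (Nat.shiftLeft (nat_lit 0x3800001) (nat_lit 113)) (.br (Nat.shiftLeft (nat_lit 0x3800000802804004809) (nat_lit 65)) (.one (nat_lit 0x7000001005008009011200a0f1c12022611)) (.one (nat_lit 0x7000001005008009012200a0f1c12024611))) (.br (Nat.shiftLeft (nat_lit 0x3800001002804004809) (nat_lit 65)) (.one (nat_lit 0x7000002005008009011400a0f1c12022611)) (.one (nat_lit 0x7000002005008009012400a0f1c12024611))))
def t86 : k86.all (jb2 57 fl b0) = true := by decide +kernel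
noncomputable def k87 : KT := (.br (Nat.shiftLeft (nat_lit 0x3800002002804004809) (nat_lit 65)) (.br (Nat.shiftLeft (nat_lit 0x3800001802804004809) (nat_lit 65)) (.one (nat_lit 0x7000003005008009011600a0f1c12022611)) (.br (Nat.shiftLeft (nat_lit 0x1c00001) (nat_lit 114)) (.one (nat_lit 0x7000003005008009012600a0f1c12024611)) (.one (nat_lit 0x7000004005008009011800a0f1c12022611)))) (.br (Nat.shiftLeft (nat_lit 0x1) (nat_lit 139)) (.one (nat_lit 0x7000004005008009012800a0f1c12024611)) (.br (Nat.shiftLeft (nat_lit 0x4000000802804004809) (nat_lit 65)) (.one (nat_lit 0x8000001005008009011200a112012022611)) (.one (nat_lit 0x8000001005008009012200a112012024611)))))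
def t87 : k87.all (jb2 57 fl b0) = true := by decide +kernel
noncomputable def k88 : KT := (.br (Nat.shiftLeft (nat_lit 0x2000001) (nat_lit 114)) (.br (Nat.shiftLeft (nat_lit 0x8000003) (nat_lit 112)) (.br (Nat.shiftLeft (nat_lit 0x4000001002804004809) (nat_lit 65)) (.one (nat_lit 0x8000002005008009011400a112012022611)) (.one (nat_lit 0x8000002005008009012400a112012024611))) (.br (Nat.shiftLeft (nat_lit 0x4000001802804004809) (nat_lit 65)) (.one (nat_lit 0x8000003005008009011600a112012022611)) (.one (nat_lit 0x8000003005008009012600a112012024611)))) (.br (Nat.shiftLeft (nat_lit 0x9) (nat_lit 136)) (.br (Nat.shiftLeft (nat_lit 0x4000002002804004809) (nat_lit 65)) (.one (nat_lit 0x8000004005008009011800a112012022611)) (.one (nat_lit 0x8000004005008009012800a112012024611))) (.br (Nat.shiftLeft (nat_lit 0x4800000802804004809) (nat_lit 65)) (.one (nat_lit 0x9000001005008009011200a132412022611)) (.br (Nat.shiftLeft (nat_lit 0x4800001) (nat_lit 113)) (.one (nat_lit 0x9000001005008009012200a132412024611)) (.one (nat_lit 0x9000002005008009011400a132412022611))))))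
def t88 : k88.all (jb2 57 fl b0) = true := by decide +kernel
noncomputable def k89 : KT := (.br (Nat.shiftLeft (nat_lit 0x4800001802804004809) (nat_lit 65)) (.br (Nat.shiftLeft (nat_lit 0x9000003) (nat_lit 112)) (.one (nat_lit 0x9000002005008009012400a132412024611)) (.one (nat_lit 0x9000003005008009011600a132412022611))) (.br (Nat.shiftLeft (nat_lit 0x2400001) (nat_lit 114)) (.one (nat_lit 0x9000003005008009012600a132412024611)) (.br (Nat.shiftLeft (nat_lit 0x4800002002804004809) (nat_lit 65)) (.one (nat_lit 0x9000004005008009011800a132412022611)) (.one (nat_lit 0x9000004005008009012800a132412024611)))))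
def t89 : k89.all (jb2 57 fl b0) = true := by decide +kernel
noncomputable def s4 : KT := (.br (nat_lit 0x6000005008009012000a0100d3824511) (.br (nat_lit 0x2000005008009012000a010052824511) (.br (nat_lit 0x1002005008009012400a010032424760) (.br (nat_lit 0x1002005008009011400a010032422760) k70 k71) (.br (nat_lit 0x1003005008009011600a010032422760) k72 (.br (nat_lit 0x1004005008009011800a010032422760) k73 k74))) (.br (nat_lit 0x2003005008009012600a010052824760) (.br (nat_lit 0x2003005008009011600a010052822760) k75 k76) (.br (nat_lit 0x3000005008009011000a010072c22511) k77 (.br (nat_lit 0x3004005008009012800a010072c24760) k78 k79)))) (.br (nat_lit 0x6000002005008009011400a0d1812022611) (.br (nat_lit 0x4000001005008009012200a091012024611) (.br (nat_lit 0x8000005008009011000a010114022511) k80 k81) (.br (nat_lit 0x5000001005008009012200a0b1412024611) k82 (.br (nat_lit 0x5000004005008009012800a0b1412024611) k83 k84))) (.br (nat_lit 0x7000002005008009012400a0f1c12024611) (.br (nat_lit 0x6000004005008009012800a0d1812024611)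 k85 k86) (.br (nat_lit 0x8000001005008009012200a112012024611) k87 (.br (nat_lit 0x9000002005008009011400a132412022611) k88 k89)))))
noncomputable def u4 : KT := (.br (Nat.shiftLeft (nat_lit 0x2804004809) (nat_lit 65)) (.one (nat_lit 0x5008009011000a010012022540)) (.one (nat_lit 0x5008009012000a010012024540)))
def w4 : u4.all (wj 57 s4) = true := by decide +kernel
def o4 : OkW 57 (jb2 57 fl) u4 := .lift s4 _ (.br _ _ _ (.br _ _ _ (.br _ _ _ (.br _ _ _ (.leaf b0 k70 t70) (.leaf b0 k71 t71)) (.br _ _ _ (.leaf b0 k72 t72) (.br _ _ _ (.leaf b0 k73 t73) (.leaf b0 k74 t74)))) (.br _ _ _ (.br _ _ _ (.leaf b0 k75 t75) (.leaf b0 k76 t76)) (.br _ _ _ (.leaf b0 k77 t77) (.br _ _ _ (.leaf b0 k78 t78) (.leaf b0 k79 t79))))) (.br _ _ _ (.br _ _ _ (.br _ _ _ (.leaf b0 k80 t80) (.leaf b0 k81 t81)) (.br _ _ _ (.leaf b0 k82 t82) (.br _ _ _ (.leaf b0 k83 t83) (.leaf b0 k84 t84)))) (.br _ _ _ (.br _ _ _ (.leaf b0 k85 t85) (.leaf b0 k86 t86)) (.br _ _ _ (.leaf b0 k87 t87) (.br _ _ _ (.leaf b0 k88 t88) (.leaf b0 k89 t89)))))) w4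
noncomputable def k90 : KT := (.br (Nat.shiftLeft (nat_lit 0x1) (nat_lit 112)) (.br (Nat.shiftLeft (nat_lit 0x1402002803) (nat_lit 66)) (.br (Nat.shiftLeft (nat_lit 0x2804005) (nat_lit 77)) (.one (nat_lit 0x5008009013000a010012027500)) (.one (nat_lit 0x500800a00b000a010014017500))) (.br (Nat.shiftLeft (nat_lit 0x500800a00d) (nat_lit 64)) (.one (nat_lit 0x500800a00c000a010014019500)) (.br (Nat.shiftLeft (nat_lit 0x2804005007) (nat_lit 65)) (.one (nat_lit 0x500800a00d000a01001401b500)) (.one (nat_lit 0x500800a00e000a01001401d500))))) (.br (Nat.shiftLeft (nat_lit 0x3) (nat_lit 112)) (.br (Nat.shiftLeft (nat_lit 0x1) (nat_lit 113)) (.one (nat_lit 0x1005008009013200a010012026650)) (.one (nat_lit 0x2005008009013400a010012027600))) (.br (Nat.shiftLeft (nat_lit 0x1) (nat_lit 114)) (.one (nat_lit 0x3005008009013600a010012027600)) (.br (Nat.shiftLeft (nat_lit 0x1) (nat_lit 124)) (.one (nat_lit 0x4005008009013800a010012027600)) (.one (nat_lit 0x1000005008009013000a010032426511))))))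
def t90 : k90.all (jb2 57 fl b0) = true := by decide +kernel
noncomputable def k91 : KT := (.br (Nat.shiftLeft (nat_lit 0x401) (nat_lit 114)) (.br (Nat.shiftLeft (nat_lit 0x1003) (nat_lit 112)) (.one (nat_lit 0x1002005008009013400a010032426760)) (.one (nat_lit 0x1003005008009013600a010032426760))) (.br (Nat.shiftLeft (nat_lit 0x1) (nat_lit 125)) (.one (nat_lit 0x1004005008009013800a010032426760)) (.one (nat_lit 0x2000005008009013000a010052826511))))
def t91 : k91.all (jb2 57 fl b0) = true := by decide +kernel
noncomputable def k92 : KT := (.br (Nat.shiftLeft (nat_lit 0x3) (nat_lit 124)) (.br (Nat.shiftLeft (nat_lit 0x801) (nat_lit 114)) (.one (nat_lit 0x2003005008009013600a010052826760)) (.one (nat_lit 0x2004005008009013800a010052826760))) (.br (Nat.shiftLeft (nat_lit 0xc01) (nat_lit 114)) (.one (nat_lit 0x3000005008009013000a010072c26511)) (.one (nat_lit 0x3004005008009013800a010072c26760))))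
def t92 : k92.all (jb2 57 fl b0) = true := by decide +kernel
noncomputable def k93 : KT := (.br (Nat.shiftLeft (nat_lit 0x400001) (nat_lit 114)) (.br (Nat.shiftLeft (nat_lit 0x1) (nat_lit 127)) (.br (Nat.shiftLeft (nat_lit 0x3) (nat_lit 125)) (.br (Nat.shiftLeft (nat_lit 0x5) (nat_lit 124)) (.one (nat_lit 0x4000005008009013000a010093026511)) (.one (nat_lit 0x5000005008009013000a0100b3426511))) (.br (Nat.shiftLeft (nat_lit 0x7) (nat_lit 124)) (.one (nat_lit 0x6000005008009013000a0100d3826511)) (.one (nat_lit 0x7000005008009013000a0100f3c26511)))) (.br (Nat.shiftLeft (nat_lit 0x1) (nat_lit 136)) (.br (Nat.shiftLeft (nat_lit 0x9) (nat_lit 124)) (.one (nat_lit 0x8000005008009013000a010114026511)) (.one (nat_lit 0x9000005008009013000a010134426511))) (.br (Nat.shiftLeft (nat_lit 0x1000003) (nat_lit 112)) (.one (nat_lit 0x1000002005008009013400a030412026611)) (.one (nat_lit 0x1000003005008009013600a030412026611))))) (.br (Nat.shiftLeft (nat_lit 0x3) (nat_lit 136)) (.br (Nat.shiftLeft (nat_lit 0x2000003) (nat_lit 112)) (.br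 (Nat.shiftLeft (nat_lit 0x1) (nat_lit 137)) (.one (nat_lit 0x1000004005008009013800a030412026611)) (.one (nat_lit 0x2000002005008009013400a050812026611))) (.br (Nat.shiftLeft (nat_lit 0x800001) (nat_lit 114)) (.one (nat_lit 0x2000003005008009013600a050812026611)) (.one (nat_lit 0x2000004005008009013800a050812026611)))) (.br (Nat.shiftLeft (nat_lit 0xc00001) (nat_lit 114)) (.br (Nat.shiftLeft (nat_lit 0x3000003) (nat_lit 112)) (.one (nat_lit 0x3000002005008009013400a070c12026611)) (.one (nat_lit 0x3000003005008009013600a070c12026611))) (.br (Nat.shiftLeft (nat_lit 0x1) (nat_lit 138)) (.one (nat_lit 0x3000004005008009013800a070c12026611)) (.br (Nat.shiftLeft (nat_lit 0x4000003) (nat_lit 112)) (.one (nat_lit 0x4000002005008009013400a091012026611)) (.one (nat_lit 0x4000003005008009013600a091012026611)))))))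
def t93 : k93.all (jb2 57 fl b0) = true := by decide +kernel
noncomputable def k94 : KT := (.br (Nat.shiftLeft (nat_lit 0x7) (nat_lit 136)) (.br (Nat.shiftLeft (nat_lit 0x1400001) (nat_lit 114)) (.br (Nat.shiftLeft (nat_lit 0x5) (nat_lit 136)) (.one (nat_lit 0x4000004005008009013800a091012026611)) (.br (Nat.shiftLeft (nat_lit 0x5000003) (nat_lit 112)) (.one (nat_lit 0x5000002005008009013400a0b1412026611)) (.one (nat_lit 0x5000003005008009013600a0b1412026611)))) (.br (Nat.shiftLeft (nat_lit 0x6000003) (nat_lit 112)) (.br (Nat.shiftLeft (nat_lit 0x3) (nat_lit 137)) (.one (nat_lit 0x5000004005008009013800a0b1412026611)) (.one (nat_lit 0x6000002005008009013400a0d1812026611))) (.br (Nat.shiftLeft (nat_lit 0x1800001) (nat_lit 114)) (.one (nat_lit 0x6000003005008009013600a0d1812026611)) (.one (nat_lit 0x6000004005008009013800a0d1812026611))))) (.br (Nat.shiftLeft (nat_lit 0x1) (nat_lit 139)) (.br (Nat.shiftLeft (nat_lit 0x7000003) (nat_lit 112)) (.one (nat_lit 0x7000002005008009013400a0f1c12026611)) (.br (Nat.shiftLeft (nat_lit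 0x1c00001) (nat_lit 114)) (.one (nat_lit 0x7000003005008009013600a0f1c12026611)) (.one (nat_lit 0x7000004005008009013800a0f1c12026611)))) (.br (Nat.shiftLeft (nat_lit 0x2000001) (nat_lit 114)) (.br (Nat.shiftLeft (nat_lit 0x8000003) (nat_lit 112)) (.one (nat_lit 0x8000002005008009013400a112012026611)) (.one (nat_lit 0x8000003005008009013600a112012026611))) (.br (Nat.shiftLeft (nat_lit 0x9) (nat_lit 136)) (.one (nat_lit 0x8000004005008009013800a112012026611)) (.one (nat_lit 0x9000002005008009013400a132412026611))))))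
def t94 : k94.all (jb2 57 fl b0) = true := by decide +kernel
noncomputable def k95 : KT := (.br (Nat.shiftLeft (nat_lit 0x2400001) (nat_lit 114)) (.one (nat_lit 0x9000003005008009013600a132412026611)) (.one (nat_lit 0x9000004005008009013800a132412026611)))
def t95 : k95.all (jb2 57 fl b0) = true := by decide +kernel
noncomputable def s5 : KT := (.br (nat_lit 0x3004005008009013800a010072c26760) (.br (nat_lit 0x1000005008009013000a010032426511) k90 (.br (nat_lit 0x2000005008009013000a010052826511) k91 k92)) (.br (nat_lit 0x4000003005008009013600a091012026611) k93 (.br (nat_lit 0x9000002005008009013400a132412026611) k94 k95)))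
noncomputable def u5 : KT := (.br (Nat.shiftLeft (nat_lit 0x1402002803) (nat_lit 66)) (.br (Nat.shiftLeft (nat_lit 0x2804005) (nat_lit 77)) (.one (nat_lit 0x5008009013000a010012026540)) (.one (nat_lit 0x500800a00b000a010014017500))) (.br (Nat.shiftLeft (nat_lit 0x500800a00d) (nat_lit 64)) (.one (nat_lit 0x500800a00c000a010014019500)) (.br (Nat.shiftLeft (nat_lit 0x2804005007) (nat_lit 65)) (.one (nat_lit 0x500800a00d000a01001401b500)) (.one (nat_lit 0x500800a00e000a01001401d500)))))
def w5 : u5.all (wj 57 s5) = true := by decide +kernel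
def o5 : OkW 57 (jb2 57 fl) u5 := .lift s5 _ (.br _ _ _ (.br _ _ _ (.leaf b0 k90 t90) (.br _ _ _ (.leaf b0 k91 t91) (.leaf b0 k92 t92))) (.br _ _ _ (.leaf b0 k93 t93) (.br _ _ _ (.leaf b0 k94 t94) (.leaf b0 k95 t95)))) w5
noncomputable def k96 : KT := (.br (Nat.shiftLeft (nat_lit 0x1) (nat_lit 124)) (.br (Nat.shiftLeft (nat_lit 0x1) (nat_lit 113)) (.br (Nat.shiftLeft (nat_lit 0x1) (nat_lit 112)) (.one (nat_lit 0x500800a00f000a01001401f500)) (.one (nat_lit 0x100500800a00f200a01001401f600))) (.br (Nat.shiftLeft (nat_lit 0x3) (nat_lit 112)) (.one (nat_lit 0x200500800a00f400a01001401f600)) (.br (Nat.shiftLeft (nat_lit 0x1) (nat_lit 114)) (.one (nat_lit 0x300500800a00f600a01001401f600)) (.one (nat_lit 0x400500800a00f800a01001401f600))))) (.br (Nat.shiftLeft (nat_lit 0x401) (nat_lit 114)) (.br (Nat.shiftLeft (nat_lit 0x801) (nat_lit 113)) (.one (nat_lit 0x100000500800a00f000a01003441e511)) (.br (Nat.shiftLeft (nat_lit 0x1003) (nat_lit 112)) (.one (nat_lit 0x100200500800a00f400a01003441f700)) (.one (nat_lit 0x100300500800a00f600a01003441f700))))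 (.br (Nat.shiftLeft (nat_lit 0x1) (nat_lit 125)) (.one (nat_lit 0x100400500800a00f800a01003441e760)) (.br (Nat.shiftLeft (nat_lit 0x1001) (nat_lit 113)) (.one (nat_lit 0x200000500800a00f000a01005481e511)) (.one (nat_lit 0x200300500800a00f600a01005481f700))))))
def t96 : k96.all (jb2 57 fl b0) = true := by decide +kernel
noncomputable def k97 : KT := (.br (Nat.shiftLeft (nat_lit 0x3) (nat_lit 124)) (.one (nat_lit 0x200400500800a00f800a01005481e760)) (.one (nat_lit 0x300000500800a00f000a010074c1e511)))
def t97 : k97.all (jb2 57 fl b0) = true := by decide +kernel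
noncomputable def k98 : KT := (.br (Nat.shiftLeft (nat_lit 0x1) (nat_lit 126)) (.one (nat_lit 0x300400500800a00f800a010074c1e760)) (.one (nat_lit 0x400000500800a00f000a01009501e511)))
def t98 : k98.all (jb2 57 fl b0) = true := by decide +kernel
noncomputable def k99 : KT := (.br (Nat.shiftLeft (nat_lit 0x3) (nat_lit 125)) (.one (nat_lit 0x500000500800a00f000a0100b541e511)) (.one (nat_lit 0x600000500800a00f000a0100d581e511)))
def t99 : k99.all (jb2 57 fl b0) = true := by decide +kernel
noncomputable def k100 : KT := (.one (nat_lit 0x700000500800a00f000a0100f5c1e511))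
noncomputable def b101 : BT := .node (nat_lit 0x1) (nat_lit 0xdb32a224d8003356000ab6c10008800028) .leaf .leaf
def t100 : k100.all (jb2 57 fl b101) = true := by decide +kernel
noncomputable def k101 : KT := (.br (Nat.shiftLeft (nat_lit 0x9) (nat_lit 124)) (.one (nat_lit 0x800000500800a00f000a01011601e511)) (.one (nat_lit 0x900000500800a00f000a01013641e511)))
noncomputable def b102 : BT := .node (nat_lit 0x17) (nat_lit 0x1511b689376d9b6cc97c00610d00065b000996c001554616d992f8a2e96325e9510003a1f0008d700039e2000ad642db36d992f4003a980008b8819644b21510003a98000ad5c19916da145c003a5a000ac6c196449b92f8003a5b000ab7c1004d50041b0036000360003600036000360003600036000300002a0002400024000240001e0001e0001e0001e0001e0001e0001e0001e0001e0001e0) .leaf .leaf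
def t101 : k101.all (jb2 57 fl b102) = true := by decide +kernel
noncomputable def k102 : KT := (.br (Nat.shiftLeft (nat_lit 0x1000001) (nat_lit 113)) (.br (Nat.shiftLeft (nat_lit 0x1000003) (nat_lit 112)) (.br (Nat.shiftLeft (nat_lit 0x1) (nat_lit 136)) (.one (nat_lit 0xa00000500800a00f000a01015681e511)) (.br (Nat.shiftLeft (nat_lit 0x800001) (nat_lit 113)) (.one (nat_lit 0x100000100500800a00f200a03041401e611)) (.one (nat_lit 0x100000200500800a00f400a03041401e611)))) (.br (Nat.shiftLeft (nat_lit 0x801) (nat_lit 125)) (.br (Nat.shiftLeft (nat_lit 0x400001) (nat_lit 114)) (.one (nat_lit 0x100000300500800a00f600a03041401e611)) (.one (nat_lit 0x100000400500800a00f800a03041401e611))) (.br (Nat.shiftLeft (nat_lit 0x1) (nat_lit 137)) (.one (nat_lit 0x100200300500800a00f600a03045481e870)) (.one (nat_lit 0x200000100500800a00f200a05081401e611))))) (.br (Nat.shiftLeft (nat_lit 0x3) (nat_lit 136)) (.br (Nat.shiftLeft (nat_lit 0x2000003) (nat_lit 112)) (.one (nat_lit 0x200000200500800a00f400a05081401e611)) (.br (Nat.shiftLeft (nat_lit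 0x800001) (nat_lit 114)) (.one (nat_lit 0x200000300500800a00f600a05081401e611)) (.one (nat_lit 0x200000400500800a00f800a05081401e611)))) (.br (Nat.shiftLeft (nat_lit 0x3000003) (nat_lit 112)) (.br (Nat.shiftLeft (nat_lit 0x1800001) (nat_lit 113)) (.one (nat_lit 0x300000100500800a00f200a070c1401e611)) (.one (nat_lit 0x300000200500800a00f400a070c1401e611))) (.br (Nat.shiftLeft (nat_lit 0xc00001) (nat_lit 114)) (.one (nat_lit 0x300000300500800a00f600a070c1401e611)) (.one (nat_lit 0x300000400500800a00f800a070c1401e611))))))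
noncomputable def b103 : BT := .node (nat_lit 0x1) (nat_lit 0x28aa590a8696325ea4e400421a000ad600032d8000ca782000e200028) .leaf .leaf
def t102 : k102.all (jb2 57 fl b103) = true := by decide +kernel
noncomputable def k103 : KT := (.br (Nat.shiftLeft (nat_lit 0x4000003) (nat_lit 112)) (.br (Nat.shiftLeft (nat_lit 0x2000001) (nat_lit 113)) (.one (nat_lit 0x400000100500800a00f200a09101401e611)) (.one (nat_lit 0x400000200500800a00f400a09101401e611))) (.br (Nat.shiftLeft (nat_lit 0x1000001) (nat_lit 114)) (.one (nat_lit 0x400000300500800a00f600a09101401e611)) (.br (Nat.shiftLeft (nat_lit 0x5) (nat_lit 136)) (.one (nat_lit 0x400000400500800a00f800a09101401e611)) (.one (nat_lit 0x500000100500800a00f200a0b141401e611)))))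
def t103 : k103.all (jb2 57 fl b0) = true := by decide +kernel
noncomputable def k104 : KT := (.br (Nat.shiftLeft (nat_lit 0x5000003) (nat_lit 112)) (.one (nat_lit 0x500000200500800a00f400a0b141401e611)) (.br (Nat.shiftLeft (nat_lit 0x1400001) (nat_lit 114)) (.one (nat_lit 0x500000300500800a00f600a0b141401e611)) (.one (nat_lit 0x500000400500800a00f800a0b141401e611))))
noncomputable def b105 : BT := .node (nat_lit 0x1) (nat_lit 0x4b1951126923128bb6cc003395000ca64002b1c000ab642000e300028) .leaf .leaf
def t104 : k104.all (jb2 57 fl b105) = true := by decide +kernel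
noncomputable def k105 : KT := (.one (nat_lit 0x600000100500800a00f200a0d181401e611))
noncomputable def b106 : BT := .node (nat_lit 0xb) (nat_lit 0x9352741510003a1d000ae581de149b145c00325c000ad641001b0001b0001b0001b00015000150000f0000f0000f0000f0000f0000f0) .leaf .leaf
def t105 : k105.all (jb2 57 fl b106) = true := by decide +kernel
noncomputable def k106 : KT := (.br (Nat.shiftLeft (nat_lit 0x6000003) (nat_lit 112)) (.one (nat_lit 0x600000200500800a00f400a0d181401e611)) (.one (nat_lit 0x600000300500800a00f600a0d181401e611)))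
noncomputable def b107 : BT := .node (nat_lit 0x17) (nat_lit 0x12312a215cc003a590006f64191893a12c800158d80055b40ef093a526cdb228b1460003319000aa70003a590008d74293528b9510003a98000ae5c1003bd003bd003bd003bd003bd003bd003bd003bd0035c0035c0035c002fb002fb002fb002fb002fb002fb002fb0024000240001e0001e0001e0001e0) .leaf .leaf
def t106 : k106.all (jb2 57 fl b107) = true := by decide +kernel
noncomputable def k107 : KT := (.br (Nat.shiftLeft (nat_lit 0x7) (nat_lit 136)) (.one (nat_lit 0x600000400500800a00f800a0d181401e611)) (.one (nat_lit 0x700000100500800a00f200a0f1c1401e611)))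
noncomputable def b108 : BT := .node (nat_lit 0x1) (nat_lit 0x6d993a097c9636da145c0032d8000aa88003a99000ad602000e300028) .leaf .leaf
def t107 : k107.all (jb2 57 fl b108) = true := by decide +kernel
noncomputable def k108 : KT := (.br (Nat.shiftLeft (nat_lit 0x7000003) (nat_lit 112)) (.one (nat_lit 0x700000200500800a00f400a0f1c1401e611)) (.br (Nat.shiftLeft (nat_lit 0x1c00001) (nat_lit 114)) (.one (nat_lit 0x700000300500800a00f600a0f1c1401e611)) (.one (nat_lit 0x700000400500800a00f800a0f1c1401e611))))
noncomputable def b109 : BT := .node (nat_lit 0x1) (nat_lit 0xdb249b24d80032d8000ca6c10008800028) .leaf .leaf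
def t108 : k108.all (jb2 57 fl b109) = true := by decide +kernel
noncomputable def k109 : KT := (.br (Nat.shiftLeft (nat_lit 0x4000001) (nat_lit 113)) (.one (nat_lit 0x800000100500800a00f200a11201401e611)) (.br (Nat.shiftLeft (nat_lit 0x8000003) (nat_lit 112)) (.one (nat_lit 0x800000200500800a00f400a11201401e611)) (.one (nat_lit 0x800000300500800a00f600a11201401e611))))
noncomputable def b110 : BT := .node (nat_lit 0x1) (nat_lit 0xdb225e93a4003a980008c7c10008800028) .leaf .leaf
def t109 : k109.all (jb2 57 fl b110) = true := by decide +kernel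
noncomputable def k110 : KT := (.br (Nat.shiftLeft (nat_lit 0x4800001) (nat_lit 113)) (.br (Nat.shiftLeft (nat_lit 0x9) (nat_lit 136)) (.one (nat_lit 0x800000400500800a00f800a11201401e611)) (.one (nat_lit 0x900000100500800a00f200a13241401e611))) (.br (Nat.shiftLeft (nat_lit 0x9000003) (nat_lit 112)) (.one (nat_lit 0x900000200500800a00f400a13241401e611)) (.br (Nat.shiftLeft (nat_lit 0x2400001) (nat_lit 114)) (.one (nat_lit 0x900000300500800a00f600a13241401e611)) (.one (nat_lit 0x900000400500800a00f800a13241401e611)))))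
def t110 : k110.all (jb2 57 fl b0) = true := by decide +kernel
noncomputable def k111 : KT := (.br (Nat.shiftLeft (nat_lit 0x2000001003) (nat_lit 112)) (.br (Nat.shiftLeft (nat_lit 0x1) (nat_lit 148)) (.br (Nat.shiftLeft (nat_lit 0xa000003) (nat_lit 112)) (.br (Nat.shiftLeft (nat_lit 0x5000001) (nat_lit 113)) (.one (nat_lit 0xa00000100500800a00f200a15281401e611)) (.one (nat_lit 0xa00000200500800a00f400a15281401e611))) (.br (Nat.shiftLeft (nat_lit 0x2800001) (nat_lit 114)) (.one (nat_lit 0xa00000300500800a00f600a15281401e611)) (.one (nat_lit 0xa00000400500800a00f800a15281401e611)))) (.br (Nat.shiftLeft (nat_lit 0x800001) (nat_lit 125)) (.br (Nat.shiftLeft (nat_lit 0x1000001003) (nat_lit 112)) (.one (nat_lit 0x100000100200500800a00f402a41003441e711)) (.one (nat_lit 0x100000100300500800a00f602a41003441e711))) (.br (Nat.shiftLeft (nat_lit 0x1) (nat_lit 149)) (.one (nat_lit 0x100000200300500800a00f602a41005481e711)) (.one (nat_lit 0x200000100200500800a00f404a81003441e711))))) (.br (Nat.shiftLeft (nat_lit 0x1800001) (nat_lit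 125)) (.br (Nat.shiftLeft (nat_lit 0x3) (nat_lit 148)) (.br (Nat.shiftLeft (nat_lit 0x1000001) (nat_lit 125)) (.one (nat_lit 0x200000100300500800a00f604a81003441e711)) (.one (nat_lit 0x200000200300500800a00f604a81005481e711))) (.br (Nat.shiftLeft (nat_lit 0x3000001003) (nat_lit 112)) (.one (nat_lit 0x300000100200500800a00f406ac1003441e711)) (.one (nat_lit 0x300000100300500800a00f606ac1003441e711)))) (.br (Nat.shiftLeft (nat_lit 0x4000001003) (nat_lit 112)) (.br (Nat.shiftLeft (nat_lit 0x1) (nat_lit 150)) (.one (nat_lit 0x300000200300500800a00f606ac1005481e711)) (.one (nat_lit 0x400000100200500800a00f408b01003441e711))) (.br (Nat.shiftLeft (nat_lit 0x2000001) (nat_lit 125)) (.one (nat_lit 0x400000100300500800a00f608b01003441e711)) (.one (nat_lit 0x400000200300500800a00f608b01005481e711))))))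
def t111 : k111.all (jb2 57 fl b0) = true := by decide +kernel
noncomputable def k112 : KT := (.br (Nat.shiftLeft (nat_lit 0x5000001003) (nat_lit 112)) (.one (nat_lit 0x500000100200500800a00f40ab41003441e711)) (.br (Nat.shiftLeft (nat_lit 0x2800001) (nat_lit 125)) (.one (nat_lit 0x500000100300500800a00f60ab41003441e711)) (.one (nat_lit 0x500000200300500800a00f60ab41005481e711))))
noncomputable def b113 : BT := .node (nat_lit 0x2f) (nat_lit 0x12684be28c36c89d4572000e878002b5b000e77c0023d70a64526a4e9000e86c002b1c06645b664e94c8a4d497cdb225c24d0003a59000ac70003a1b000ab840032d8000ca643de12741514003a1c0008d6c1db228ba4d4003357000ab681006b1006b1006b1006b1006b1006b1006b1006b1006b1006b1006b1006b1006b1005f6005f6005f6005f6005f6005f6005f6005f6005f6005f6005f6005f6005f6005f6005f6005f600596005960059600596005960059600596005960059600596005960059600480004200042000420003c0003c0003c0) .leaf .leaf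
def t112 : k112.all (jb2 57 fl b113) = true := by decide +kernel
noncomputable def k113 : KT := (.br (Nat.shiftLeft (nat_lit 0x6000001003) (nat_lit 112)) (.one (nat_lit 0x600000100200500800a00f40cb81003441e711)) (.br (Nat.shiftLeft (nat_lit 0x3000001) (nat_lit 125)) (.one (nat_lit 0x600000100300500800a00f60cb81003441e711)) (.one (nat_lit 0x600000200300500800a00f60cb81005481e711))))
noncomputable def b114 : BT := .node (nat_lit 0x11) (nat_lit 0x99125f15cc0039a3000ad641db225c145c0032d8000ad641002280022800228001c8001c800168001680016800168001680016800168001680016800168001680016800168) .leaf .leaf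
def t113 : k113.all (jb2 57 fl b114) = true := by decide +kernel
noncomputable def k114 : KT := (.br (Nat.shiftLeft (nat_lit 0x3800001) (nat_lit 125)) (.br (Nat.shiftLeft (nat_lit 0x7000001003) (nat_lit 112)) (.one (nat_lit 0x700000100200500800a00f40ebc1003441e711)) (.one (nat_lit 0x700000100300500800a00f60ebc1003441e711))) (.br (Nat.shiftLeft (nat_lit 0x1) (nat_lit 151)) (.one (nat_lit 0x700000200300500800a00f60ebc1005481e711)) (.br (Nat.shiftLeft (nat_lit 0x8000001003) (nat_lit 112)) (.one (nat_lit 0x800000100200500800a00f410c01003441e711)) (.one (nat_lit 0x800000100300500800a00f610c01003441e711)))))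
def t114 : k114.all (jb2 57 fl b0) = true := by decide +kernel
noncomputable def k115 : KT := (.br (Nat.shiftLeft (nat_lit 0x4800001) (nat_lit 125)) (.br (Nat.shiftLeft (nat_lit 0x9) (nat_lit 148)) (.one (nat_lit 0x800000200300500800a00f610c01005481e711)) (.br (Nat.shiftLeft (nat_lit 0x9000001003) (nat_lit 112)) (.one (nat_lit 0x900000100200500800a00f412c41003441e711)) (.one (nat_lit 0x900000100300500800a00f612c41003441e711)))) (.br (Nat.shiftLeft (nat_lit 0xa000001003) (nat_lit 112)) (.br (Nat.shiftLeft (nat_lit 0x5) (nat_lit 149)) (.one (nat_lit 0x900000200300500800a00f612c41005481e711)) (.one (nat_lit 0xa00000100200500800a00f414c81003441e711))) (.br (Nat.shiftLeft (nat_lit 0x5000001) (nat_lit 125)) (.one (nat_lit 0xa00000100300500800a00f614c81003441e711)) (.one (nat_lit 0xa00000200300500800a00f614c81005481e711)))))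
def t115 : k115.all (jb2 57 fl b0) = true := by decide +kernel
noncomputable def s6 : KT := (.br (nat_lit 0x600000100500800a00f200a0d181401e611) (.br (nat_lit 0x700000500800a00f000a0100f5c1e511) (.br (nat_lit 0x300000500800a00f000a010074c1e511) (.br (nat_lit 0x200300500800a00f600a01005481f700) k96 k97) (.br (nat_lit 0x400000500800a00f000a01009501e511) k98 (.br (nat_lit 0x600000500800a00f000a0100d581e511) k99 k100))) (.br (nat_lit 0x300000400500800a00f800a070c1401e611) (.br (nat_lit 0x900000500800a00f000a01013641e511) k101 k102) (.br (nat_lit 0x500000100500800a00f200a0b141401e611) k103 (.br (nat_lit 0x500000400500800a00f800a0b141401e611) k104 k105)))) (.br (nat_lit 0x900000400500800a00f800a13241401e611) (.br (nat_lit 0x700000100500800a00f200a0f1c1401e611) (.br (nat_lit 0x600000300500800a00f600a0d181401e611) k106 k107) (.br (nat_lit 0x700000400500800a00f800a0f1c1401e611) k108 (.br (nat_lit 0x800000300500800a00f600a11201401e611) k109 k110))) (.br (nat_lit 0x500000200300500800a00f60ab41005481e711) (.br (nat_lit 0x400000200300500800a00f608b01005481e711)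 k111 k112) (.br (nat_lit 0x600000200300500800a00f60cb81005481e711) k113 (.br (nat_lit 0x800000100300500800a00f610c01003441e711) k114 k115)))))
noncomputable def u6 : KT := (.one (nat_lit 0x500800a00f000a01001401e540))
def w6 : u6.all (wj 57 s6) = true := by decide +kernel
def o6 : OkW 57 (jb2 57 fl) u6 := .lift s6 _ (.br _ _ _ (.br _ _ _ (.br _ _ _ (.br _ _ _ (.leaf b0 k96 t96) (.leaf b0 k97 t97)) (.br _ _ _ (.leaf b0 k98 t98) (.br _ _ _ (.leaf b0 k99 t99) (.leaf b101 k100 t100)))) (.br _ _ _ (.br _ _ _ (.leaf b102 k101 t101) (.leaf b103 k102 t102)) (.br _ _ _ (.leaf b0 k103 t103) (.br _ _ _ (.leaf b105 k104 t104) (.leaf b106 k105 t105))))) (.br _ _ _ (.br _ _ _ (.br _ _ _ (.leaf b107 k106 t106) (.leaf b108 k107 t107)) (.br _ _ _ (.leaf b109 k108 t108) (.br _ _ _ (.leaf b110 k109 t109) (.leaf b0 k110 t110)))) (.br _ _ _ (.br _ _ _ (.leaf b0 k111 t111) (.leaf b113 k112 t112)) (.br _ _ _ (.leaf b114 k113 t113) (.br _ _ _ (.leaf b0 k114 t114) (.leaf b0 k115 t115)))))) w6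
noncomputable def k116 : KT := (.br (Nat.shiftLeft (nat_lit 0x300500800a011) (nat_lit 64)) (.br (Nat.shiftLeft (nat_lit 0x100500800a011) (nat_lit 64)) (.br (Nat.shiftLeft (nat_lit 0x500800a011) (nat_lit 64)) (.one (nat_lit 0x500800a010000a010014021500)) (.br (Nat.shiftLeft (nat_lit 0x1) (nat_lit 112)) (.one (nat_lit 0x500800a011000a010014023500)) (.one (nat_lit 0x100500800a010200a010014021600)))) (.br (Nat.shiftLeft (nat_lit 0x200500800a011) (nat_lit 64)) (.br (Nat.shiftLeft (nat_lit 0x1) (nat_lit 113)) (.one (nat_lit 0x100500800a011200a010014023600)) (.one (nat_lit 0x200500800a010400a010014021600))) (.br (Nat.shiftLeft (nat_lit 0x3) (nat_lit 112)) (.one (nat_lit 0x200500800a011400a010014023600)) (.one (nat_lit 0x300500800a010600a010014021600))))) (.br (Nat.shiftLeft (nat_lit 0x1) (nat_lit 124)) (.br (Nat.shiftLeft (nat_lit 0x1) (nat_lit 114)) (.one (nat_lit 0x300500800a011600a010014023600)) (.br (Nat.shiftLeft (nat_lit 0x400500800a011) (nat_lit 64)) (.one (nat_lit 0x400500800a010800a010014021600)) (.one (nat_lit 0x400500800a011800a010014023600))))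 (.br (Nat.shiftLeft (nat_lit 0x801) (nat_lit 113)) (.br (Nat.shiftLeft (nat_lit 0x100000500800a011) (nat_lit 64)) (.one (nat_lit 0x100000500800a010000a010034420511)) (.one (nat_lit 0x100000500800a011000a010034422511))) (.br (Nat.shiftLeft (nat_lit 0x100200500800a011) (nat_lit 64)) (.one (nat_lit 0x100200500800a010400a010034421700)) (.one (nat_lit 0x100200500800a011400a010034422760))))))
def t116 : k116.all (jb2 57 fl b0) = true := by decide +kernel
noncomputable def k117 : KT := (.one (nat_lit 0x100300500800a010600a010034420760))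
def t117 : k117.all (jb2 57 fl b0) = true := by decide +kernel
noncomputable def k118 : KT := (.one (nat_lit 0x100300500800a011600a010034422760))
def t118 : k118.all (jb2 57 fl b0) = true := by decide +kernel
noncomputable def k119 : KT := (.br (Nat.shiftLeft (nat_lit 0x1) (nat_lit 125)) (.br (Nat.shiftLeft (nat_lit 0x100400500800a011) (nat_lit 64)) (.one (nat_lit 0x100400500800a010800a010034420760)) (.one (nat_lit 0x100400500800a011800a010034422760))) (.br (Nat.shiftLeft (nat_lit 0x200000500800a011) (nat_lit 64)) (.one (nat_lit 0x200000500800a010000a010054820511)) (.one (nat_lit 0x200000500800a011000a010054822511))))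
def t119 : k119.all (jb2 57 fl b0) = true := by decide +kernel
noncomputable def k120 : KT := (.one (nat_lit 0x200300500800a010600a010054820760))
def t120 : k120.all (jb2 57 fl b0) = true := by decide +kernel
noncomputable def k121 : KT := (.one (nat_lit 0x200300500800a011600a010054822760))
def t121 : k121.all (jb2 57 fl b0) = true := by decide +kernel
noncomputable def k122 : KT := (.one (nat_lit 0x200400500800a010800a010054820760))
def t122 : k122.all (jb2 57 fl b0) = true := by decide +kernel
noncomputable def k123 : KT := (.br (Nat.shiftLeft (nat_lit 0x3) (nat_lit 124)) (.one (nat_lit 0x200400500800a011800a010054822760)) (.br (Nat.shiftLeft (nat_lit 0x300000500800a011) (nat_lit 64)) (.one (nat_lit 0x300000500800a010000a010074c20511)) (.one (nat_lit 0x300000500800a011000a010074c22511))))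
def t123 : k123.all (jb2 57 fl b0) = true := by decide +kernel
noncomputable def k124 : KT := (.br (Nat.shiftLeft (nat_lit 0x300400500800a011) (nat_lit 64)) (.one (nat_lit 0x300400500800a010800a010074c20760)) (.one (nat_lit 0x300400500800a011800a010074c22760)))
def t124 : k124.all (jb2 57 fl b0) = true := by decide +kernel
noncomputable def k125 : KT := (.br (Nat.shiftLeft (nat_lit 0x5) (nat_lit 124)) (.br (Nat.shiftLeft (nat_lit 0x400000500800a011) (nat_lit 64)) (.one (nat_lit 0x400000500800a010000a010095020511)) (.one (nat_lit 0x400000500800a011000a010095022511))) (.br (Nat.shiftLeft (nat_lit 0x500000500800a011) (nat_lit 64)) (.one (nat_lit 0x500000500800a010000a0100b5420511)) (.br (Nat.shiftLeft (nat_lit 0x3) (nat_lit 125)) (.one (nat_lit 0x500000500800a011000a0100b5422511)) (.one (nat_lit 0x600000500800a010000a0100d5820511)))))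
def t125 : k125.all (jb2 57 fl b0) = true := by decide +kernel
noncomputable def k126 : KT := (.br (Nat.shiftLeft (nat_lit 0x7) (nat_lit 124)) (.one (nat_lit 0x600000500800a011000a0100d5822511)) (.br (Nat.shiftLeft (nat_lit 0x700000500800a011) (nat_lit 64)) (.one (nat_lit 0x700000500800a010000a0100f5c20511)) (.one (nat_lit 0x700000500800a011000a0100f5c22511))))
def t126 : k126.all (jb2 57 fl b0) = true := by decide +kernel
noncomputable def k127 : KT := (.br (Nat.shiftLeft (nat_lit 0x9) (nat_lit 124)) (.br (Nat.shiftLeft (nat_lit 0x800000500800a011) (nat_lit 64)) (.one (nat_lit 0x800000500800a010000a010116020511)) (.one (nat_lit 0x800000500800a011000a010116022511))) (.br (Nat.shiftLeft (nat_lit 0x900000500800a011) (nat_lit 64)) (.one (nat_lit 0x900000500800a010000a010136420511)) (.one (nat_lit 0x900000500800a011000a010136422511))))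
def t127 : k127.all (jb2 57 fl b0) = true := by decide +kernel
noncomputable def k128 : KT := (.br (Nat.shiftLeft (nat_lit 0x200000300500800a011) (nat_lit 64)) (.br (Nat.shiftLeft (nat_lit 0x100000300500800a011) (nat_lit 64)) (.br (Nat.shiftLeft (nat_lit 0x100000100500800a011) (nat_lit 64)) (.br (Nat.shiftLeft (nat_lit 0xa00000500800a011) (nat_lit 64)) (.one (nat_lit 0xa00000500800a010000a010156820511)) (.br (Nat.shiftLeft (nat_lit 0x1) (nat_lit 136)) (.one (nat_lit 0xa00000500800a011000a010156822511)) (.one (nat_lit 0x100000100500800a010200a030414020611)))) (.br (Nat.shiftLeft (nat_lit 0x100000200500800a011) (nat_lit 64)) (.br (Nat.shiftLeft (nat_lit 0x800001) (nat_lit 113)) (.one (nat_lit 0x100000100500800a011200a030414022611)) (.one (nat_lit 0x100000200500800a010400a030414020611))) (.br (Nat.shiftLeft (nat_lit 0x1000003) (nat_lit 112)) (.one (nat_lit 0x100000200500800a011400a030414022611)) (.one (nat_lit 0x100000300500800a010600a030414020611))))) (.br (Nat.shiftLeft (nat_lit 0x200000100500800a011) (nat_lit 64)) (.br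 (Nat.shiftLeft (nat_lit 0x100000400500800a011) (nat_lit 64)) (.br (Nat.shiftLeft (nat_lit 0x400001) (nat_lit 114)) (.one (nat_lit 0x100000300500800a011600a030414022611)) (.one (nat_lit 0x100000400500800a010800a030414020611))) (.br (Nat.shiftLeft (nat_lit 0x1) (nat_lit 137)) (.one (nat_lit 0x100000400500800a011800a030414022611)) (.one (nat_lit 0x200000100500800a010200a050814020611)))) (.br (Nat.shiftLeft (nat_lit 0x200000200500800a011) (nat_lit 64)) (.br (Nat.shiftLeft (nat_lit 0x1000001) (nat_lit 113)) (.one (nat_lit 0x200000100500800a011200a050814022611)) (.one (nat_lit 0x200000200500800a010400a050814020611))) (.br (Nat.shiftLeft (nat_lit 0x2000003) (nat_lit 112)) (.one (nat_lit 0x200000200500800a011400a050814022611)) (.one (nat_lit 0x200000300500800a010600a050814020611)))))) (.br (Nat.shiftLeft (nat_lit 0x3000003) (nat_lit 112)) (.br (Nat.shiftLeft (nat_lit 0x3) (nat_lit 136)) (.br (Nat.shiftLeft (nat_lit 0x800001) (nat_lit 114)) (.one (nat_lit 0x200000300500800a011600a050814022611)) (.br (Nat.shiftLeft (nat_lit 0x200000400500800a011)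 (nat_lit 64)) (.one (nat_lit 0x200000400500800a010800a050814020611)) (.one (nat_lit 0x200000400500800a011800a050814022611)))) (.br (Nat.shiftLeft (nat_lit 0x1800001) (nat_lit 113)) (.br (Nat.shiftLeft (nat_lit 0x300000100500800a011) (nat_lit 64)) (.one (nat_lit 0x300000100500800a010200a070c14020611)) (.one (nat_lit 0x300000100500800a011200a070c14022611))) (.br (Nat.shiftLeft (nat_lit 0x300000200500800a011) (nat_lit 64)) (.one (nat_lit 0x300000200500800a010400a070c14020611)) (.one (nat_lit 0x300000200500800a011400a070c14022611))))) (.br (Nat.shiftLeft (nat_lit 0x1) (nat_lit 138)) (.br (Nat.shiftLeft (nat_lit 0xc00001) (nat_lit 114)) (.br (Nat.shiftLeft (nat_lit 0x300000300500800a011) (nat_lit 64)) (.one (nat_lit 0x300000300500800a010600a070c14020611)) (.one (nat_lit 0x300000300500800a011600a070c14022611))) (.br (Nat.shiftLeft (nat_lit 0x300000400500800a011) (nat_lit 64)) (.one (nat_lit 0x300000400500800a010800a070c14020611)) (.one (nat_lit 0x300000400500800a011800a070c14022611)))) (.br (Nat.shiftLeft (nat_lit 0x2000001)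 (nat_lit 113)) (.br (Nat.shiftLeft (nat_lit 0x400000100500800a011) (nat_lit 64)) (.one (nat_lit 0x400000100500800a010200a091014020611)) (.one (nat_lit 0x400000100500800a011200a091014022611))) (.br (Nat.shiftLeft (nat_lit 0x400000200500800a011) (nat_lit 64)) (.one (nat_lit 0x400000200500800a010400a091014020611)) (.one (nat_lit 0x400000200500800a011400a091014022611)))))))
def t128 : k128.all (jb2 57 fl b0) = true := by decide +kernel
noncomputable def k129 : KT := (.br (Nat.shiftLeft (nat_lit 0x400000400500800a011) (nat_lit 64)) (.br (Nat.shiftLeft (nat_lit 0x400000300500800a011) (nat_lit 64)) (.one (nat_lit 0x400000300500800a010600a091014020611)) (.br (Nat.shiftLeft (nat_lit 0x1000001) (nat_lit 114)) (.one (nat_lit 0x400000300500800a011600a091014022611)) (.one (nat_lit 0x400000400500800a010800a091014020611)))) (.br (Nat.shiftLeft (nat_lit 0x5) (nat_lit 136)) (.one (nat_lit 0x400000400500800a011800a091014022611)) (.br (Nat.shiftLeft (nat_lit 0x500000100500800a011) (nat_lit 64)) (.one (nat_lit 0x500000100500800a010200a0b1414020611))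 (.one (nat_lit 0x500000100500800a011200a0b1414022611)))))
def t129 : k129.all (jb2 57 fl b0) = true := by decide +kernel
noncomputable def k130 : KT := (.br (Nat.shiftLeft (nat_lit 0x5000003) (nat_lit 112)) (.br (Nat.shiftLeft (nat_lit 0x500000200500800a011) (nat_lit 64)) (.one (nat_lit 0x500000200500800a010400a0b1414020611)) (.one (nat_lit 0x500000200500800a011400a0b1414022611))) (.br (Nat.shiftLeft (nat_lit 0x500000300500800a011) (nat_lit 64)) (.one (nat_lit 0x500000300500800a010600a0b1414020611)) (.one (nat_lit 0x500000300500800a011600a0b1414022611))))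
def t130 : k130.all (jb2 57 fl b0) = true := by decide +kernel
noncomputable def k131 : KT := (.br (Nat.shiftLeft (nat_lit 0x3) (nat_lit 137)) (.br (Nat.shiftLeft (nat_lit 0x500000400500800a011) (nat_lit 64)) (.one (nat_lit 0x500000400500800a010800a0b1414020611)) (.one (nat_lit 0x500000400500800a011800a0b1414022611))) (.br (Nat.shiftLeft (nat_lit 0x600000100500800a011) (nat_lit 64)) (.one (nat_lit 0x600000100500800a010200a0d1814020611)) (.one (nat_lit 0x600000100500800a011200a0d1814022611))))
def t131 : k131.all (jb2 57 fl b0) = true := by decide +kernel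
noncomputable def k132 : KT := (.br (Nat.shiftLeft (nat_lit 0x6000003) (nat_lit 112)) (.br (Nat.shiftLeft (nat_lit 0x600000200500800a011) (nat_lit 64)) (.one (nat_lit 0x600000200500800a010400a0d1814020611)) (.one (nat_lit 0x600000200500800a011400a0d1814022611))) (.br (Nat.shiftLeft (nat_lit 0x600000300500800a011) (nat_lit 64)) (.one (nat_lit 0x600000300500800a010600a0d1814020611)) (.one (nat_lit 0x600000300500800a011600a0d1814022611))))
def t132 : k132.all (jb2 57 fl b0) = true := by decide +kernel
noncomputable def k133 : KT := (.br (Nat.shiftLeft (nat_lit 0x7) (nat_lit 136)) (.br (Nat.shiftLeft (nat_lit 0x600000400500800a011) (nat_lit 64)) (.one (nat_lit 0x600000400500800a010800a0d1814020611)) (.one (nat_lit 0x600000400500800a011800a0d1814022611))) (.br (Nat.shiftLeft (nat_lit 0x700000100500800a011) (nat_lit 64)) (.one (nat_lit 0x700000100500800a010200a0f1c14020611)) (.one (nat_lit 0x700000100500800a011200a0f1c14022611))))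
def t133 : k133.all (jb2 57 fl b0) = true := by decide +kernel
noncomputable def k134 : KT := (.br (Nat.shiftLeft (nat_lit 0x700000300500800a011) (nat_lit 64)) (.br (Nat.shiftLeft (nat_lit 0x700000200500800a011) (nat_lit 64)) (.one (nat_lit 0x700000200500800a010400a0f1c14020611)) (.br (Nat.shiftLeft (nat_lit 0x7000003) (nat_lit 112)) (.one (nat_lit 0x700000200500800a011400a0f1c14022611)) (.one (nat_lit 0x700000300500800a010600a0f1c14020611)))) (.br (Nat.shiftLeft (nat_lit 0x1c00001) (nat_lit 114)) (.one (nat_lit 0x700000300500800a011600a0f1c14022611)) (.br (Nat.shiftLeft (nat_lit 0x700000400500800a011) (nat_lit 64)) (.one (nat_lit 0x700000400500800a010800a0f1c14020611)) (.one (nat_lit 0x700000400500800a011800a0f1c14022611)))))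
def t134 : k134.all (jb2 57 fl b0) = true := by decide +kernel
noncomputable def k135 : KT := (.br (Nat.shiftLeft (nat_lit 0x4000001) (nat_lit 113)) (.br (Nat.shiftLeft (nat_lit 0x800000100500800a011) (nat_lit 64)) (.one (nat_lit 0x800000100500800a010200a112014020611)) (.one (nat_lit 0x800000100500800a011200a112014022611))) (.br (Nat.shiftLeft (nat_lit 0x800000200500800a011) (nat_lit 64)) (.one (nat_lit 0x800000200500800a010400a112014020611)) (.br (Nat.shiftLeft (nat_lit 0x8000003) (nat_lit 112)) (.one (nat_lit 0x800000200500800a011400a112014022611)) (.one (nat_lit 0x800000300500800a010600a112014020611)))))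
def t135 : k135.all (jb2 57 fl b0) = true := by decide +kernel
noncomputable def k136 : KT := (.br (Nat.shiftLeft (nat_lit 0x4800001) (nat_lit 113)) (.br (Nat.shiftLeft (nat_lit 0x800000400500800a011) (nat_lit 64)) (.br (Nat.shiftLeft (nat_lit 0x2000001) (nat_lit 114)) (.one (nat_lit 0x800000300500800a011600a112014022611)) (.one (nat_lit 0x800000400500800a010800a112014020611))) (.br (Nat.shiftLeft (nat_lit 0x9) (nat_lit 136)) (.one (nat_lit 0x800000400500800a011800a112014022611)) (.br (Nat.shiftLeft (nat_lit 0x900000100500800a011) (nat_lit 64)) (.one (nat_lit 0x900000100500800a010200a132414020611)) (.one (nat_lit 0x900000100500800a011200a132414022611))))) (.br (Nat.shiftLeft (nat_lit 0x900000300500800a011) (nat_lit 64)) (.br (Nat.shiftLeft (nat_lit 0x900000200500800a011) (nat_lit 64)) (.one (nat_lit 0x900000200500800a010400a132414020611)) (.br (Nat.shiftLeft (nat_lit 0x9000003) (nat_lit 112)) (.one (nat_lit 0x900000200500800a011400a132414022611)) (.one (nat_lit 0x900000300500800a010600a132414020611)))) (.br (Nat.shiftLeft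 (nat_lit 0x2400001) (nat_lit 114)) (.one (nat_lit 0x900000300500800a011600a132414022611)) (.br (Nat.shiftLeft (nat_lit 0x900000400500800a011) (nat_lit 64)) (.one (nat_lit 0x900000400500800a010800a132414020611)) (.one (nat_lit 0x900000400500800a011800a132414022611))))))
def t136 : k136.all (jb2 57 fl b0) = true := by decide +kernel
noncomputable def k137 : KT := (.br (Nat.shiftLeft (nat_lit 0x2800001) (nat_lit 114)) (.br (Nat.shiftLeft (nat_lit 0xa00000200500800a011) (nat_lit 64)) (.br (Nat.shiftLeft (nat_lit 0xa00000100500800a011) (nat_lit 64)) (.one (nat_lit 0xa00000100500800a010200a152814020611)) (.br (Nat.shiftLeft (nat_lit 0x5000001) (nat_lit 113)) (.one (nat_lit 0xa00000100500800a011200a152814022611)) (.one (nat_lit 0xa00000200500800a010400a152814020611)))) (.br (Nat.shiftLeft (nat_lit 0xa000003) (nat_lit 112)) (.one (nat_lit 0xa00000200500800a011400a152814022611)) (.br (Nat.shiftLeft (nat_lit 0xa00000300500800a011) (nat_lit 64)) (.one (nat_lit 0xa00000300500800a010600a152814020611)) (.one (nat_lit 0xa00000300500800a011600a152814022611)))))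 (.br (Nat.shiftLeft (nat_lit 0x1) (nat_lit 149)) (.br (Nat.shiftLeft (nat_lit 0xa00000400500800a011) (nat_lit 64)) (.one (nat_lit 0xa00000400500800a010800a152814020611)) (.br (Nat.shiftLeft (nat_lit 0x1) (nat_lit 148)) (.one (nat_lit 0xa00000400500800a011800a152814022611)) (.one (nat_lit 0x100000100200500800a010402a410034420711)))) (.br (Nat.shiftLeft (nat_lit 0x1) (nat_lit 150)) (.br (Nat.shiftLeft (nat_lit 0x3) (nat_lit 148)) (.one (nat_lit 0x200000100200500800a010404a810034420711)) (.one (nat_lit 0x300000100200500800a010406ac10034420711))) (.br (Nat.shiftLeft (nat_lit 0x5) (nat_lit 148)) (.one (nat_lit 0x400000100200500800a010408b010034420711)) (.one (nat_lit 0x500000100200500800a01040ab410034420711))))))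
def t137 : k137.all (jb2 57 fl b0) = true := by decide +kernel
noncomputable def k138 : KT := (.br (Nat.shiftLeft (nat_lit 0x1) (nat_lit 151)) (.br (Nat.shiftLeft (nat_lit 0x7) (nat_lit 148)) (.one (nat_lit 0x600000100200500800a01040cb810034420711)) (.one (nat_lit 0x700000100200500800a01040ebc10034420711))) (.br (Nat.shiftLeft (nat_lit 0x9) (nat_lit 148)) (.one (nat_lit 0x800000100200500800a010410c010034420711)) (.br (Nat.shiftLeft (nat_lit 0x5) (nat_lit 149)) (.one (nat_lit 0x900000100200500800a010412c410034420711)) (.one (nat_lit 0xa00000100200500800a010414c810034420711)))))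
def t138 : k138.all (jb2 57 fl b0) = true := by decide +kernel
noncomputable def s7 : KT := (.br (nat_lit 0x700000500800a011000a0100f5c22511) (.br (nat_lit 0x200300500800a010600a010054820760) (.br (nat_lit 0x100300500800a010600a010034420760) (.br (nat_lit 0x100200500800a011400a010034422760) k116 k117) (.br (nat_lit 0x100300500800a011600a010034422760) k118 (.br (nat_lit 0x200000500800a011000a010054822511) k119 k120))) (.br (nat_lit 0x300000500800a011000a010074c22511) (.br (nat_lit 0x200300500800a011600a010054822760) k121 (.br (nat_lit 0x200400500800a010800a010054820760) k122 k123)) (.br (nat_lit 0x300400500800a011800a010074c22760) k124 (.br (nat_lit 0x600000500800a010000a0100d5820511) k125 k126)))) (.br (nat_lit 0x600000300500800a011600a0d1814022611) (.br (nat_lit 0x500000100500800a011200a0b1414022611) (.br (nat_lit 0x900000500800a011000a010136422511) k127 (.br (nat_lit 0x400000200500800a011400a091014022611) k128 k129)) (.br (nat_lit 0x500000300500800a011600a0b1414022611) k130 (.br (nat_lit 0x600000100500800a011200a0d1814022611)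 k131 k132))) (.br (nat_lit 0x800000300500800a010600a112014020611) (.br (nat_lit 0x700000100500800a011200a0f1c14022611) k133 (.br (nat_lit 0x700000400500800a011800a0f1c14022611) k134 k135)) (.br (nat_lit 0x900000400500800a011800a132414022611) k136 (.br (nat_lit 0x500000100200500800a01040ab410034420711) k137 k138)))))
noncomputable def u7 : KT := (.br (Nat.shiftLeft (nat_lit 0x500800a011) (nat_lit 64)) (.one (nat_lit 0x500800a010000a010014020540)) (.one (nat_lit 0x500800a011000a010014022540)))
def w7 : u7.all (wj 57 s7) = true := by decide +kernel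
def o7 : OkW 57 (jb2 57 fl) u7 := .lift s7 _ (.br _ _ _ (.br _ _ _ (.br _ _ _ (.br _ _ _ (.leaf b0 k116 t116) (.leaf b0 k117 t117)) (.br _ _ _ (.leaf b0 k118 t118) (.br _ _ _ (.leaf b0 k119 t119) (.leaf b0 k120 t120)))) (.br _ _ _ (.br _ _ _ (.leaf b0 k121 t121) (.br _ _ _ (.leaf b0 k122 t122) (.leaf b0 k123 t123))) (.br _ _ _ (.leaf b0 k124 t124) (.br _ _ _ (.leaf b0 k125 t125) (.leaf b0 k126 t126))))) (.br _ _ _ (.br _ _ _ (.br _ _ _ (.leaf b0 k127 t127) (.br _ _ _ (.leaf b0 k128 t128) (.leaf b0 k129 t129))) (.br _ _ _ (.leaf b0 k130 t130) (.br _ _ _ (.leaf b0 k131 t131) (.leaf b0 k132 t132)))) (.br _ _ _ (.br _ _ _ (.leaf b0 k133 t133) (.br _ _ _ (.leaf b0 k134 t134) (.leaf b0 k135 t135))) (.br _ _ _ (.leaf b0 k136 t136) (.br _ _ _ (.leaf b0 k137 t137) (.leaf b0 k138 t138)))))) w7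
noncomputable def k139 : KT := (.br (Nat.shiftLeft (nat_lit 0x500800b) (nat_lit 76)) (.br (Nat.shiftLeft (nat_lit 0x500800a013) (nat_lit 64)) (.one (nat_lit 0x500800a012000a010014025500)) (.one (nat_lit 0x500800a013000a010014027500))) (.br (Nat.shiftLeft (nat_lit 0x500800b00d) (nat_lit 64)) (.one (nat_lit 0x500800b00c000a010016019500)) (.br (Nat.shiftLeft (nat_lit 0x1) (nat_lit 112)) (.one (nat_lit 0x500800b00d000a01001601b500)) (.one (nat_lit 0x100500800a012200a010014024650)))))
def t139 : k139.all (jb2 57 fl b0) = true := by decide +kernel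
noncomputable def k140 : KT := (.br (Nat.shiftLeft (nat_lit 0x1) (nat_lit 113)) (.one (nat_lit 0x100500800a013200a010014026650)) (.one (nat_lit 0x200500800a012400a010014025600)))
def t140 : k140.all (jb2 57 fl b0) = true := by decide +kernel
noncomputable def k141 : KT := (.br (Nat.shiftLeft (nat_lit 0x3) (nat_lit 112)) (.one (nat_lit 0x200500800a013400a010014026650)) (.one (nat_lit 0x300500800a012600a010014025600)))
def t141 : k141.all (jb2 57 fl b0) = true := by decide +kernel
noncomputable def k142 : KT := (.br (Nat.shiftLeft (nat_lit 0x1) (nat_lit 114)) (.one (nat_lit 0x300500800a013600a010014026650)) (.one (nat_lit 0x400500800a012800a010014025600)))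
def t142 : k142.all (jb2 57 fl b0) = true := by decide +kernel
noncomputable def k143 : KT := (.br (Nat.shiftLeft (nat_lit 0x1) (nat_lit 124)) (.one (nat_lit 0x400500800a013800a010014026650)) (.br (Nat.shiftLeft (nat_lit 0x100000500800a013) (nat_lit 64)) (.one (nat_lit 0x100000500800a012000a010034424511)) (.one (nat_lit 0x100000500800a013000a010034426511))))
def t143 : k143.all (jb2 57 fl b0) = true := by decide +kernel
noncomputable def k144 : KT := (.br (Nat.shiftLeft (nat_lit 0x1003) (nat_lit 112)) (.one (nat_lit 0x100200500800a012400a010034424760)) (.one (nat_lit 0x100300500800a012600a010034424760)))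
def t144 : k144.all (jb2 57 fl b0) = true := by decide +kernel
noncomputable def k145 : KT := (.br (Nat.shiftLeft (nat_lit 0x1001) (nat_lit 113)) (.br (Nat.shiftLeft (nat_lit 0x1) (nat_lit 125)) (.one (nat_lit 0x100400500800a012800a010034424760)) (.br (Nat.shiftLeft (nat_lit 0x200000500800a013) (nat_lit 64)) (.one (nat_lit 0x200000500800a012000a010054824511)) (.one (nat_lit 0x200000500800a013000a010054826511)))) (.br (Nat.shiftLeft (nat_lit 0x3) (nat_lit 124)) (.br (Nat.shiftLeft (nat_lit 0x801) (nat_lit 114)) (.one (nat_lit 0x200300500800a012600a010054824760)) (.one (nat_lit 0x200400500800a012800a010054824760))) (.br (Nat.shiftLeft (nat_lit 0x300000500800a013) (nat_lit 64)) (.one (nat_lit 0x300000500800a012000a010074c24511)) (.one (nat_lit 0x300000500800a013000a010074c26511)))))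
def t145 : k145.all (jb2 57 fl b0) = true := by decide +kernel
noncomputable def k146 : KT := (.br (Nat.shiftLeft (nat_lit 0x5) (nat_lit 124)) (.br (Nat.shiftLeft (nat_lit 0x1) (nat_lit 126)) (.one (nat_lit 0x300400500800a012800a010074c24760)) (.br (Nat.shiftLeft (nat_lit 0x400000500800a013) (nat_lit 64)) (.one (nat_lit 0x400000500800a012000a010095024511)) (.one (nat_lit 0x400000500800a013000a010095026511)))) (.br (Nat.shiftLeft (nat_lit 0x500000500800a013) (nat_lit 64)) (.one (nat_lit 0x500000500800a012000a0100b5424511)) (.br (Nat.shiftLeft (nat_lit 0x3) (nat_lit 125)) (.one (nat_lit 0x500000500800a013000a0100b5426511)) (.one (nat_lit 0x600000500800a012000a0100d5824511)))))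
def t146 : k146.all (jb2 57 fl b0) = true := by decide +kernel
noncomputable def k147 : KT := (.br (Nat.shiftLeft (nat_lit 0xa00000500800a013) (nat_lit 64)) (.br (Nat.shiftLeft (nat_lit 0x800000500800a013) (nat_lit 64)) (.br (Nat.shiftLeft (nat_lit 0x700000500800a013) (nat_lit 64)) (.br (Nat.shiftLeft (nat_lit 0x7) (nat_lit 124)) (.one (nat_lit 0x600000500800a013000a0100d5826511)) (.one (nat_lit 0x700000500800a012000a0100f5c24511))) (.br (Nat.shiftLeft (nat_lit 0x1) (nat_lit 127)) (.one (nat_lit 0x700000500800a013000a0100f5c26511)) (.one (nat_lit 0x800000500800a012000a010116024511)))) (.br (Nat.shiftLeft (nat_lit 0x900000500800a013) (nat_lit 64)) (.br (Nat.shiftLeft (nat_lit 0x9) (nat_lit 124)) (.one (nat_lit 0x800000500800a013000a010116026511)) (.one (nat_lit 0x900000500800a012000a010136424511))) (.br (Nat.shiftLeft (nat_lit 0x5) (nat_lit 125)) (.one (nat_lit 0x900000500800a013000a010136426511)) (.one (nat_lit 0xa00000500800a012000a010156824511))))) (.br (Nat.shiftLeft (nat_lit 0x1) (nat_lit 137)) (.br (Nat.shiftLeft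 (nat_lit 0x1000003) (nat_lit 112)) (.br (Nat.shiftLeft (nat_lit 0x1) (nat_lit 136)) (.one (nat_lit 0xa00000500800a013000a010156826511)) (.one (nat_lit 0x100000200500800a012400a030414024611))) (.br (Nat.shiftLeft (nat_lit 0x400001) (nat_lit 114)) (.one (nat_lit 0x100000300500800a012600a030414024611)) (.one (nat_lit 0x100000400500800a012800a030414024611)))) (.br (Nat.shiftLeft (nat_lit 0x800001) (nat_lit 114)) (.br (Nat.shiftLeft (nat_lit 0x2000003) (nat_lit 112)) (.one (nat_lit 0x200000200500800a012400a050814024611)) (.one (nat_lit 0x200000300500800a012600a050814024611))) (.br (Nat.shiftLeft (nat_lit 0x3) (nat_lit 136)) (.one (nat_lit 0x200000400500800a012800a050814024611)) (.one (nat_lit 0x300000200500800a012400a070c14024611))))))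
def t147 : k147.all (jb2 57 fl b0) = true := by decide +kernel
noncomputable def k148 : KT := (.br (Nat.shiftLeft (nat_lit 0x5) (nat_lit 136)) (.br (Nat.shiftLeft (nat_lit 0x1) (nat_lit 138)) (.br (Nat.shiftLeft (nat_lit 0xc00001) (nat_lit 114)) (.one (nat_lit 0x300000300500800a012600a070c14024611)) (.one (nat_lit 0x300000400500800a012800a070c14024611))) (.br (Nat.shiftLeft (nat_lit 0x4000003) (nat_lit 112)) (.one (nat_lit 0x400000200500800a012400a091014024611)) (.br (Nat.shiftLeft (nat_lit 0x1000001) (nat_lit 114)) (.one (nat_lit 0x400000300500800a012600a091014024611)) (.one (nat_lit 0x400000400500800a012800a091014024611))))) (.br (Nat.shiftLeft (nat_lit 0x3) (nat_lit 137)) (.br (Nat.shiftLeft (nat_lit 0x5000003) (nat_lit 112)) (.one (nat_lit 0x500000200500800a012400a0b1414024611)) (.br (Nat.shiftLeft (nat_lit 0x1400001) (nat_lit 114)) (.one (nat_lit 0x500000300500800a012600a0b1414024611)) (.one (nat_lit 0x500000400500800a012800a0b1414024611)))) (.br (Nat.shiftLeft (nat_lit 0x6000003) (nat_lit 112)) (.one (nat_lit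 0x600000200500800a012400a0d1814024611)) (.br (Nat.shiftLeft (nat_lit 0x1800001) (nat_lit 114)) (.one (nat_lit 0x600000300500800a012600a0d1814024611)) (.one (nat_lit 0x600000400500800a012800a0d1814024611))))))
def t148 : k148.all (jb2 57 fl b0) = true := by decide +kernel
noncomputable def k149 : KT := (.br (Nat.shiftLeft (nat_lit 0x9) (nat_lit 136)) (.br (Nat.shiftLeft (nat_lit 0x1) (nat_lit 139)) (.br (Nat.shiftLeft (nat_lit 0x7000003) (nat_lit 112)) (.one (nat_lit 0x700000200500800a012400a0f1c14024611)) (.br (Nat.shiftLeft (nat_lit 0x1c00001) (nat_lit 114)) (.one (nat_lit 0x700000300500800a012600a0f1c14024611)) (.one (nat_lit 0x700000400500800a012800a0f1c14024611)))) (.br (Nat.shiftLeft (nat_lit 0x8000003) (nat_lit 112)) (.one (nat_lit 0x800000200500800a012400a112014024611)) (.br (Nat.shiftLeft (nat_lit 0x2000001) (nat_lit 114)) (.one (nat_lit 0x800000300500800a012600a112014024611)) (.one (nat_lit 0x800000400500800a012800a112014024611))))) (.br (Nat.shiftLeft (nat_lit 0x5) (nat_lit 137)) (.br (Nat.shiftLeft (nat_lit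 0x9000003) (nat_lit 112)) (.one (nat_lit 0x900000200500800a012400a132414024611)) (.br (Nat.shiftLeft (nat_lit 0x2400001) (nat_lit 114)) (.one (nat_lit 0x900000300500800a012600a132414024611)) (.one (nat_lit 0x900000400500800a012800a132414024611)))) (.br (Nat.shiftLeft (nat_lit 0xa000003) (nat_lit 112)) (.one (nat_lit 0xa00000200500800a012400a152814024611)) (.br (Nat.shiftLeft (nat_lit 0x2800001) (nat_lit 114)) (.one (nat_lit 0xa00000300500800a012600a152814024611)) (.one (nat_lit 0xa00000400500800a012800a152814024611))))))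
def t149 : k149.all (jb2 57 fl b0) = true := by decide +kernel
noncomputable def s8 : KT := (.br (nat_lit 0x100000500800a013000a010034426511) (.br (nat_lit 0x200500800a012400a010014025600) (.br (nat_lit 0x100500800a012200a010014024650) k139 k140) (.br (nat_lit 0x300500800a012600a010014025600) k141 (.br (nat_lit 0x400500800a012800a010014025600) k142 k143))) (.br (nat_lit 0x600000500800a012000a0100d5824511) (.br (nat_lit 0x100300500800a012600a010034424760) k144 (.br (nat_lit 0x300000500800a013000a010074c26511) k145 k146)) (.br (nat_lit 0x300000200500800a012400a070c14024611) k147 (.br (nat_lit 0x600000400500800a012800a0d1814024611) k148 k149))))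
noncomputable def u8 : KT := (.br (Nat.shiftLeft (nat_lit 0x500800b) (nat_lit 76)) (.br (Nat.shiftLeft (nat_lit 0x500800a013) (nat_lit 64)) (.one (nat_lit 0x500800a012000a010014024540)) (.one (nat_lit 0x500800a013000a010014026540))) (.br (Nat.shiftLeft (nat_lit 0x500800b00d) (nat_lit 64)) (.one (nat_lit 0x500800b00c000a010016019500)) (.one (nat_lit 0x500800b00d000a01001601b500))))
def w8 : u8.all (wj 57 s8) = true := by decide +kernel
def o8 : OkW 57 (jb2 57 fl) u8 := .lift s8 _ (.br _ _ _ (.br _ _ _ (.br _ _ _ (.leaf b0 k139 t139) (.leaf b0 k140 t140)) (.br _ _ _ (.leaf b0 k141 t141) (.br _ _ _ (.leaf b0 k142 t142) (.leaf b0 k143 t143)))) (.br _ _ _ (.br _ _ _ (.leaf b0 k144 t144) (.br _ _ _ (.leaf b0 k145 t145) (.leaf b0 k146 t146))) (.br _ _ _ (.leaf b0 k147 t147) (.br _ _ _ (.leaf b0 k148 t148) (.leaf b0 k149 t149))))) w8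
noncomputable def k150 : KT := (.br (Nat.shiftLeft (nat_lit 0x1) (nat_lit 124)) (.br (Nat.shiftLeft (nat_lit 0x1) (nat_lit 113)) (.br (Nat.shiftLeft (nat_lit 0x1) (nat_lit 112)) (.one (nat_lit 0x500800b00e000a01001601d500)) (.one (nat_lit 0x100500800b00e200a01001601d600))) (.br (Nat.shiftLeft (nat_lit 0x3) (nat_lit 112)) (.one (nat_lit 0x200500800b00e400a01001601d600)) (.br (Nat.shiftLeft (nat_lit 0x1) (nat_lit 114)) (.one (nat_lit 0x300500800b00e600a01001601d600)) (.one (nat_lit 0x400500800b00e800a01001601d600))))) (.br (Nat.shiftLeft (nat_lit 0x401) (nat_lit 114)) (.br (Nat.shiftLeft (nat_lit 0x801) (nat_lit 113)) (.one (nat_lit 0x100000500800b00e000a01003641c511)) (.br (Nat.shiftLeft (nat_lit 0x1003) (nat_lit 112)) (.one (nat_lit 0x100200500800b00e400a01003641d700)) (.one (nat_lit 0x100300500800b00e600a01003641d700)))) (.br (Nat.shiftLeft (nat_lit 0x1) (nat_lit 125)) (.one (nat_lit 0x100400500800b00e800a01003641c760)) (.br (Nat.shiftLeft (nat_lit 0x1001) (nat_lit 113)) (.one (nat_lit 0x200000500800b00e000a01005681c511))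 (.one (nat_lit 0x200300500800b00e600a01005681d700))))))
def t150 : k150.all (jb2 57 fl b0) = true := by decide +kernel
noncomputable def k151 : KT := (.one (nat_lit 0x200400500800b00e800a01005681c760))
def t151 : k151.all (jb2 57 fl b0) = true := by decide +kernel
noncomputable def k152 : KT := (.br (Nat.shiftLeft (nat_lit 0xc01) (nat_lit 114)) (.one (nat_lit 0x300000500800b00e000a010076c1c511)) (.br (Nat.shiftLeft (nat_lit 0x1) (nat_lit 126)) (.one (nat_lit 0x300400500800b00e800a010076c1c760)) (.one (nat_lit 0x400000500800b00e000a01009701c511))))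
def t152 : k152.all (jb2 57 fl b0) = true := by decide +kernel
noncomputable def k153 : KT := (.br (Nat.shiftLeft (nat_lit 0x3) (nat_lit 125)) (.one (nat_lit 0x500000500800b00e000a0100b741c511)) (.one (nat_lit 0x600000500800b00e000a0100d781c511)))
def t153 : k153.all (jb2 57 fl b0) = true := by decide +kernel
noncomputable def k154 : KT := (.one (nat_lit 0x700000500800b00e000a0100f7c1c511))
noncomputable def b155 : BT := .node (nat_lit 0xb) (nat_lit 0x258ca2e5446f092f52c8001d4c00056b200193080055b4151427493a92c696427536cdb6696349b12f497a00dd0e80365b6015d4c00455bc001d4c00365b0011d4c00255bc24b212f497a9916da13a8003a98000ab7c00421a0008c782003d6003d60031b0031b0031b0031b0031b0031b001ab000f0000f0000f0) .leaf .leaf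
def t154 : k154.all (jb2 57 fl b155) = true := by decide +kernel
noncomputable def k155 : KT := (.br (Nat.shiftLeft (nat_lit 0x9) (nat_lit 124)) (.one (nat_lit 0x800000500800b00e000a01011801c511)) (.one (nat_lit 0x900000500800b00e000a01013841c511)))
noncomputable def b156 : BT := .node (nat_lit 0x17) (nat_lit 0x96325e92f12c69384b180065b400193080074bc00196c054512c896449ba4dc97a00210d00065b0001d4c00055bc14b192f8a2c001d0f80056360cb192f0a8854449b13a12c69372a200073c20015ac00083b600196c00074b60015cb07b644be25e80075320011710326e4bd274139c9d4517000cb680032d9000e96c0033170a58d2c64bd4b213a09d200d96c00364c400996c800653a14b2145c9d0db225e93a8003317000cb60003a5b000ac6c20075c006a1006a1006a1006a1006a1006a1006a1005e700587004710047100471004110041100411004110041100411003560029b0029b0029b001e0) .leaf .leaf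
def t155 : k155.all (jb2 57 fl b156) = true := by decide +kernel
noncomputable def k156 : KT := (.br (Nat.shiftLeft (nat_lit 0x400001) (nat_lit 114)) (.br (Nat.shiftLeft (nat_lit 0x1) (nat_lit 136)) (.br (Nat.shiftLeft (nat_lit 0xb) (nat_lit 124)) (.one (nat_lit 0xa00000500800b00e000a01015881c511)) (.one (nat_lit 0xb00000500800b00e000a010178c1c511))) (.br (Nat.shiftLeft (nat_lit 0x800001) (nat_lit 113)) (.one (nat_lit 0x100000100500800b00e200a03041601c611)) (.br (Nat.shiftLeft (nat_lit 0x1000003) (nat_lit 112)) (.one (nat_lit 0x100000200500800b00e400a03041601c611)) (.one (nat_lit 0x100000300500800b00e600a03041601c611))))) (.br (Nat.shiftLeft (nat_lit 0x1) (nat_lit 137)) (.br (Nat.shiftLeft (nat_lit 0x801) (nat_lit 125)) (.one (nat_lit 0x100000400500800b00e800a03041601c611)) (.one (nat_lit 0x100200300500800b00e600a03045681c870))) (.br (Nat.shiftLeft (nat_lit 0x1000001) (nat_lit 113)) (.one (nat_lit 0x200000100500800b00e200a05081601c611)) (.br (Nat.shiftLeft (nat_lit 0x2000003) (nat_lit 112)) (.one (nat_lit 0x200000200500800b00e400a05081601c611))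 (.one (nat_lit 0x200000300500800b00e600a05081601c611))))))
noncomputable def b157 : BT := .node (nat_lit 0x1) (nat_lit 0x96428b13a80032da000ca7010008800028) .leaf .leaf
def t156 : k156.all (jb2 57 fl b157) = true := by decide +kernel
noncomputable def k157 : KT := (.br (Nat.shiftLeft (nat_lit 0x1) (nat_lit 138)) (.br (Nat.shiftLeft (nat_lit 0x1800001) (nat_lit 113)) (.br (Nat.shiftLeft (nat_lit 0x3) (nat_lit 136)) (.one (nat_lit 0x200000400500800b00e800a05081601c611)) (.one (nat_lit 0x300000100500800b00e200a070c1601c611))) (.br (Nat.shiftLeft (nat_lit 0x3000003) (nat_lit 112)) (.one (nat_lit 0x300000200500800b00e400a070c1601c611)) (.br (Nat.shiftLeft (nat_lit 0xc00001) (nat_lit 114)) (.one (nat_lit 0x300000300500800b00e600a070c1601c611)) (.one (nat_lit 0x300000400500800b00e800a070c1601c611))))) (.br (Nat.shiftLeft (nat_lit 0x4000003) (nat_lit 112)) (.br (Nat.shiftLeft (nat_lit 0x2000001) (nat_lit 113)) (.one (nat_lit 0x400000100500800b00e200a09101601c611)) (.one (nat_lit 0x400000200500800b00e400a09101601c611))) (.br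 (Nat.shiftLeft (nat_lit 0x1000001) (nat_lit 114)) (.one (nat_lit 0x400000300500800b00e600a09101601c611)) (.br (Nat.shiftLeft (nat_lit 0x5) (nat_lit 136)) (.one (nat_lit 0x400000400500800b00e800a09101601c611)) (.one (nat_lit 0x500000100500800b00e200a0b141601c611))))))
def t157 : k157.all (jb2 57 fl b0) = true := by decide +kernel
noncomputable def k158 : KT := (.br (Nat.shiftLeft (nat_lit 0x5000003) (nat_lit 112)) (.one (nat_lit 0x500000200500800b00e400a0b141601c611)) (.br (Nat.shiftLeft (nat_lit 0x1400001) (nat_lit 114)) (.one (nat_lit 0x500000300500800b00e600a0b141601c611)) (.one (nat_lit 0x500000400500800b00e800a0b141601c611))))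
noncomputable def b159 : BT := .node (nat_lit 0x1) (nat_lit 0x91893a8ae6de12a224d40039df0006f64003395000aa6c2000e400028) .leaf .leaf
def t158 : k158.all (jb2 57 fl b159) = true := by decide +kernel
noncomputable def k159 : KT := (.one (nat_lit 0x600000100500800b00e200a0d181601c611))
noncomputable def b160 : BT := .node (nat_lit 0xb) (nat_lit 0x6f092f0a8adb327412f40039e00008d6c0032d8000ab7c29352751510003a5b000ae581de125e9514003a1d0008d6c10026b001b0001b000150001500015000150001500015000150000f0000f0) .leaf .leaf
def t159 : k159.all (jb2 57 fl b160) = true := by decide +kernel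
noncomputable def k160 : KT := (.br (Nat.shiftLeft (nat_lit 0x6000003) (nat_lit 112)) (.one (nat_lit 0x600000200500800b00e400a0d181601c611)) (.one (nat_lit 0x600000300500800b00e600a0d181601c611)))
noncomputable def b161 : BT := .node (nat_lit 0x17) (nat_lit 0x126a93528ba644a2e936000ea60002b5a000cc6400325c0b785b664bd000ca64002adf0778497c99249a93a926b23127524d8003223000ac600032dc000cb60002b1c000aa703db327524d64625172b9000663200156d00074b4000dec052316d9945c0032990008d7010052d0052d0052d0052d0052d0052d0052d00472004720047200412004120041200412004120041200412002fc002fc00241002410024100241001e0) .leaf .leaf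
def t160 : k160.all (jb2 57 fl b161) = true := by decide +kernel
noncomputable def k161 : KT := (.br (Nat.shiftLeft (nat_lit 0x7) (nat_lit 136)) (.one (nat_lit 0x600000400500800b00e800a0d181601c611)) (.one (nat_lit 0x700000100500800b00e200a0f1c1601c611)))
noncomputable def b162 : BT := .node (nat_lit 0xb) (nat_lit 0x93625e945c003a5b000ad64196325e951126c4bd28bb6cc97a936918945db6893627524dc00b9e2002ad6000ba5b002ad6400b2dc000ab6800ab1b004ab6800b318002cb64596428b14580032da000cb6810037c0037c0031c0031c0031c0031c00150001500015000150000f0000f0) .leaf .leaf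
def t161 : k161.all (jb2 57 fl b162) = true := by decide +kernel
noncomputable def k162 : KT := (.br (Nat.shiftLeft (nat_lit 0x7000003) (nat_lit 112)) (.one (nat_lit 0x700000200500800b00e400a0f1c1601c611)) (.br (Nat.shiftLeft (nat_lit 0x1c00001) (nat_lit 114)) (.one (nat_lit 0x700000300500800b00e600a0f1c1601c611)) (.one (nat_lit 0x700000400500800b00e800a0f1c1601c611))))
noncomputable def b163 : BT := .node (nat_lit 0x1) (nat_lit 0xdb227524d8003319000ab6c10008800028) .leaf .leaf
def t162 : k162.all (jb2 57 fl b163) = true := by decide +kernel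
noncomputable def k163 : KT := (.br (Nat.shiftLeft (nat_lit 0x4000001) (nat_lit 113)) (.one (nat_lit 0x800000100500800b00e200a11201601c611)) (.br (Nat.shiftLeft (nat_lit 0x8000003) (nat_lit 112)) (.one (nat_lit 0x800000200500800b00e400a11201601c611)) (.one (nat_lit 0x800000300500800b00e600a11201601c611))))
noncomputable def b164 : BT := .node (nat_lit 0xb) (nat_lit 0x4b292f4a88db36d9945c003a1d000ad5c003a980008d702db327413a80032d8000ac6c10020b0020b0020b0020b00150001500015000150001500015000150000f0) .leaf .leaf
def t163 : k163.all (jb2 57 fl b164) = true := by decide +kernel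
noncomputable def k164 : KT := (.br (Nat.shiftLeft (nat_lit 0x4800001) (nat_lit 113)) (.br (Nat.shiftLeft (nat_lit 0x9) (nat_lit 136)) (.one (nat_lit 0x800000400500800b00e800a11201601c611)) (.one (nat_lit 0x900000100500800b00e200a13241601c611))) (.br (Nat.shiftLeft (nat_lit 0x9000003) (nat_lit 112)) (.one (nat_lit 0x900000200500800b00e400a13241601c611)) (.br (Nat.shiftLeft (nat_lit 0x2400001) (nat_lit 114)) (.one (nat_lit 0x900000300500800b00e600a13241601c611)) (.one (nat_lit 0x900000400500800b00e800a13241601c611)))))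
def t164 : k164.all (jb2 57 fl b0) = true := by decide +kernel
noncomputable def k165 : KT := (.br (Nat.shiftLeft (nat_lit 0x1000001003) (nat_lit 112)) (.br (Nat.shiftLeft (nat_lit 0xb) (nat_lit 136)) (.br (Nat.shiftLeft (nat_lit 0xa000003) (nat_lit 112)) (.br (Nat.shiftLeft (nat_lit 0x5000001) (nat_lit 113)) (.one (nat_lit 0xa00000100500800b00e200a15281601c611)) (.one (nat_lit 0xa00000200500800b00e400a15281601c611))) (.br (Nat.shiftLeft (nat_lit 0x2800001) (nat_lit 114)) (.one (nat_lit 0xa00000300500800b00e600a15281601c611)) (.one (nat_lit 0xa00000400500800b00e800a15281601c611)))) (.br (Nat.shiftLeft (nat_lit 0xb000003) (nat_lit 112)) (.br (Nat.shiftLeft (nat_lit 0x5800001) (nat_lit 113)) (.one (nat_lit 0xb00000100500800b00e200a172c1601c611)) (.one (nat_lit 0xb00000200500800b00e400a172c1601c611))) (.br (Nat.shiftLeft (nat_lit 0x2c00001) (nat_lit 114)) (.one (nat_lit 0xb00000300500800b00e600a172c1601c611)) (.br (Nat.shiftLeft (nat_lit 0x1) (nat_lit 148)) (.one (nat_lit 0xb00000400500800b00e800a172c1601c611)) (.one (nat_lit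 0x100000100200500800b00e402a41003641c711)))))) (.br (Nat.shiftLeft (nat_lit 0x1000001) (nat_lit 125)) (.br (Nat.shiftLeft (nat_lit 0x1) (nat_lit 149)) (.br (Nat.shiftLeft (nat_lit 0x800001) (nat_lit 125)) (.one (nat_lit 0x100000100300500800b00e602a41003641c711)) (.one (nat_lit 0x100000200300500800b00e602a41005681c711))) (.br (Nat.shiftLeft (nat_lit 0x2000001003) (nat_lit 112)) (.one (nat_lit 0x200000100200500800b00e404a81003641c711)) (.one (nat_lit 0x200000100300500800b00e604a81003641c711)))) (.br (Nat.shiftLeft (nat_lit 0x3000001003) (nat_lit 112)) (.br (Nat.shiftLeft (nat_lit 0x3) (nat_lit 148)) (.one (nat_lit 0x200000200300500800b00e604a81005681c711)) (.one (nat_lit 0x300000100200500800b00e406ac1003641c711))) (.br (Nat.shiftLeft (nat_lit 0x1800001) (nat_lit 125)) (.one (nat_lit 0x300000100300500800b00e606ac1003641c711)) (.br (Nat.shiftLeft (nat_lit 0x1) (nat_lit 150)) (.one (nat_lit 0x300000200300500800b00e606ac1005681c711)) (.one (nat_lit 0x400000100200500800b00e408b01003641c711)))))))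
def t165 : k165.all (jb2 57 fl b0) = true := by decide +kernel
noncomputable def k166 : KT := (.br (Nat.shiftLeft (nat_lit 0x5) (nat_lit 148)) (.br (Nat.shiftLeft (nat_lit 0x2000001) (nat_lit 125)) (.one (nat_lit 0x400000100300500800b00e608b01003641c711)) (.one (nat_lit 0x400000200300500800b00e608b01005681c711))) (.br (Nat.shiftLeft (nat_lit 0x5000001003) (nat_lit 112)) (.one (nat_lit 0x500000100200500800b00e40ab41003641c711)) (.one (nat_lit 0x500000100300500800b00e60ab41003641c711))))
noncomputable def b167 : BT := .node (nat_lit 0x2f) (nat_lit 0x1bc24ea2a2b6c897c992000e96800235b000c88c002b570a645268572000e868002bd5064d09d45176f092f526a93525e9510003a98000ad680032dd000aa6c0039e0000ae5c39342751510003a5b000ae5c1db22751460003a5a0008d741006b1006b1006b1006b1006b1006b1006b1005f6005f6005f6005f6005f6005f6005f6005f6005f6005f6005f6005f6005f6005f6005f6005f600596005960059600596005960059600596005960059600596005960059600480004200042000420003c0003c0003c0003c0003c0003c0003c0003c0003c0) .leaf .leaf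
def t166 : k166.all (jb2 57 fl b167) = true := by decide +kernel
noncomputable def k167 : KT := (.br (Nat.shiftLeft (nat_lit 0x6000001003) (nat_lit 112)) (.br (Nat.shiftLeft (nat_lit 0x3) (nat_lit 149)) (.one (nat_lit 0x500000200300500800b00e60ab41005681c711)) (.one (nat_lit 0x600000100200500800b00e40cb81003641c711))) (.br (Nat.shiftLeft (nat_lit 0x3000001) (nat_lit 125)) (.one (nat_lit 0x600000100300500800b00e60cb81003641c711)) (.one (nat_lit 0x600000200300500800b00e60cb81005681c711))))
noncomputable def b168 : BT := .node (nat_lit 0x11) (nat_lit 0x3784b4296349a945cae60019ea00055b2001d0e00057ac16d913acae493527515140039e00008f5c003a1d000ae602002de002de002de002de002de00223002230016800168001680016800168001680016800168001680016800168) .leaf .leaf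
def t167 : k167.all (jb2 57 fl b168) = true := by decide +kernel
noncomputable def k168 : KT := (.br (Nat.shiftLeft (nat_lit 0x3800001) (nat_lit 125)) (.br (Nat.shiftLeft (nat_lit 0x7000001003) (nat_lit 112)) (.one (nat_lit 0x700000100200500800b00e40ebc1003641c711)) (.one (nat_lit 0x700000100300500800b00e60ebc1003641c711))) (.br (Nat.shiftLeft (nat_lit 0x1) (nat_lit 151)) (.one (nat_lit 0x700000200300500800b00e60ebc1005681c711)) (.br (Nat.shiftLeft (nat_lit 0x8000001003) (nat_lit 112)) (.one (nat_lit 0x800000100200500800b00e410c01003641c711)) (.one (nat_lit 0x800000100300500800b00e610c01003641c711)))))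
def t168 : k168.all (jb2 57 fl b0) = true := by decide +kernel
noncomputable def k169 : KT := (.br (Nat.shiftLeft (nat_lit 0xa000001003) (nat_lit 112)) (.br (Nat.shiftLeft (nat_lit 0x9000001003) (nat_lit 112)) (.br (Nat.shiftLeft (nat_lit 0x9) (nat_lit 148)) (.one (nat_lit 0x800000200300500800b00e610c01005681c711)) (.one (nat_lit 0x900000100200500800b00e412c41003641c711))) (.br (Nat.shiftLeft (nat_lit 0x4800001) (nat_lit 125)) (.one (nat_lit 0x900000100300500800b00e612c41003641c711)) (.br (Nat.shiftLeft (nat_lit 0x5) (nat_lit 149)) (.one (nat_lit 0x900000200300500800b00e612c41005681c711)) (.one (nat_lit 0xa00000100200500800b00e414c81003641c711))))) (.br (Nat.shiftLeft (nat_lit 0xb) (nat_lit 148)) (.br (Nat.shiftLeft (nat_lit 0x5000001) (nat_lit 125)) (.one (nat_lit 0xa00000100300500800b00e614c81003641c711)) (.one (nat_lit 0xa00000200300500800b00e614c81005681c711))) (.br (Nat.shiftLeft (nat_lit 0xb000001003) (nat_lit 112)) (.one (nat_lit 0xb00000100200500800b00e416cc1003641c711)) (.br (Nat.shiftLeft (nat_lit 0x5800001)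 (nat_lit 125)) (.one (nat_lit 0xb00000100300500800b00e616cc1003641c711)) (.one (nat_lit 0xb00000200300500800b00e616cc1005681c711))))))
def t169 : k169.all (jb2 57 fl b0) = true := by decide +kernel
noncomputable def s9 : KT := (.br (nat_lit 0x600000100500800b00e200a0d181601c611) (.br (nat_lit 0x700000500800b00e000a0100f7c1c511) (.br (nat_lit 0x200400500800b00e800a01005681c760) (.br (nat_lit 0x200300500800b00e600a01005681d700) k150 k151) (.br (nat_lit 0x400000500800b00e000a01009701c511) k152 (.br (nat_lit 0x600000500800b00e000a0100d781c511) k153 k154))) (.br (nat_lit 0x200000300500800b00e600a05081601c611) (.br (nat_lit 0x900000500800b00e000a01013841c511) k155 k156) (.br (nat_lit 0x500000100500800b00e200a0b141601c611) k157 (.br (nat_lit 0x500000400500800b00e800a0b141601c611) k158 k159)))) (.br (nat_lit 0x900000400500800b00e800a13241601c611) (.br (nat_lit 0x700000100500800b00e200a0f1c1601c611) (.br (nat_lit 0x600000300500800b00e600a0d181601c611) k160 k161) (.br (nat_lit 0x700000400500800b00e800a0f1c1601c611) k162 (.br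 (nat_lit 0x800000300500800b00e600a11201601c611) k163 k164))) (.br (nat_lit 0x500000100300500800b00e60ab41003641c711) (.br (nat_lit 0x400000100200500800b00e408b01003641c711) k165 k166) (.br (nat_lit 0x600000200300500800b00e60cb81005681c711) k167 (.br (nat_lit 0x800000100300500800b00e610c01003641c711) k168 k169)))))
noncomputable def u9 : KT := (.one (nat_lit 0x500800b00e000a01001601c540))
def w9 : u9.all (wj 57 s9) = true := by decide +kernel
def o9 : OkW 57 (jb2 57 fl) u9 := .lift s9 _ (.br _ _ _ (.br _ _ _ (.br _ _ _ (.br _ _ _ (.leaf b0 k150 t150) (.leaf b0 k151 t151)) (.br _ _ _ (.leaf b0 k152 t152) (.br _ _ _ (.leaf b0 k153 t153) (.leaf b155 k154 t154)))) (.br _ _ _ (.br _ _ _ (.leaf b156 k155 t155) (.leaf b157 k156 t156)) (.br _ _ _ (.leaf b0 k157 t157) (.br _ _ _ (.leaf b159 k158 t158) (.leaf b160 k159 t159))))) (.br _ _ _ (.br _ _ _ (.br _ _ _ (.leaf b161 k160 t160) (.leaf b162 k161 t161)) (.br _ _ _ (.leaf b163 k162 t162) (.br _ _ _ (.leaf b164 k163 t163) (.leaf b0 k164 t164)))) (.br _ _ _ (.br _ _ _ (.leaf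 b0 k165 t165) (.leaf b167 k166 t166)) (.br _ _ _ (.leaf b168 k167 t167) (.br _ _ _ (.leaf b0 k168 t168) (.leaf b0 k169 t169)))))) w9
noncomputable def k170 : KT := (.br (Nat.shiftLeft (nat_lit 0x1) (nat_lit 114)) (.br (Nat.shiftLeft (nat_lit 0x1) (nat_lit 113)) (.br (Nat.shiftLeft (nat_lit 0x1) (nat_lit 112)) (.one (nat_lit 0x500800b00f000a01001601f500)) (.one (nat_lit 0x100500800b00f200a01001601f600))) (.br (Nat.shiftLeft (nat_lit 0x3) (nat_lit 112)) (.one (nat_lit 0x200500800b00f400a01001601f600)) (.one (nat_lit 0x300500800b00f600a01001601f600)))) (.br (Nat.shiftLeft (nat_lit 0x801) (nat_lit 113)) (.br (Nat.shiftLeft (nat_lit 0x1) (nat_lit 124)) (.one (nat_lit 0x400500800b00f800a01001601f600)) (.one (nat_lit 0x100000500800b00f000a01003641e511))) (.br (Nat.shiftLeft (nat_lit 0x1003) (nat_lit 112)) (.one (nat_lit 0x100200500800b00f400a01003641f700)) (.one (nat_lit 0x100300500800b00f600a01003641e760)))))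
def t170 : k170.all (jb2 57 fl b0) = true := by decide +kernel
noncomputable def k171 : KT := (.br (Nat.shiftLeft (nat_lit 0x1) (nat_lit 125)) (.one (nat_lit 0x100400500800b00f800a01003641e760)) (.one (nat_lit 0x200000500800b00f000a01005681e511)))
def t171 : k171.all (jb2 57 fl b0) = true := by decide +kernel
noncomputable def k172 : KT := (.one (nat_lit 0x200300500800b00f600a01005681e760))
def t172 : k172.all (jb2 57 fl b0) = true := by decide +kernel
noncomputable def k173 : KT := (.br (Nat.shiftLeft (nat_lit 0x3) (nat_lit 124)) (.one (nat_lit 0x200400500800b00f800a01005681e760)) (.one (nat_lit 0x300000500800b00f000a010076c1e511)))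
def t173 : k173.all (jb2 57 fl b0) = true := by decide +kernel
noncomputable def k174 : KT := (.br (Nat.shiftLeft (nat_lit 0x1) (nat_lit 126)) (.one (nat_lit 0x300400500800b00f800a010076c1e760)) (.br (Nat.shiftLeft (nat_lit 0x5) (nat_lit 124)) (.one (nat_lit 0x400000500800b00f000a01009701e511)) (.one (nat_lit 0x500000500800b00f000a0100b741e511))))
def t174 : k174.all (jb2 57 fl b0) = true := by decide +kernel
noncomputable def k175 : KT := (.br (Nat.shiftLeft (nat_lit 0x7) (nat_lit 124)) (.one (nat_lit 0x600000500800b00f000a0100d781e511)) (.one (nat_lit 0x700000500800b00f000a0100f7c1e511)))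
noncomputable def b176 : BT := .node (nat_lit 0x1) (nat_lit 0x93628b93a0003318000cb6010008800028) .leaf .leaf
def t175 : k175.all (jb2 57 fl b176) = true := by decide +kernel
noncomputable def k176 : KT := (.br (Nat.shiftLeft (nat_lit 0x400001) (nat_lit 114)) (.br (Nat.shiftLeft (nat_lit 0xb) (nat_lit 124)) (.br (Nat.shiftLeft (nat_lit 0x9) (nat_lit 124)) (.one (nat_lit 0x800000500800b00f000a01011801e511)) (.br (Nat.shiftLeft (nat_lit 0x5) (nat_lit 125)) (.one (nat_lit 0x900000500800b00f000a01013841e511)) (.one (nat_lit 0xa00000500800b00f000a01015881e511)))) (.br (Nat.shiftLeft (nat_lit 0x800001) (nat_lit 113)) (.br (Nat.shiftLeft (nat_lit 0x1) (nat_lit 136)) (.one (nat_lit 0xb00000500800b00f000a010178c1e511)) (.one (nat_lit 0x100000100500800b00f200a03041601e611))) (.br (Nat.shiftLeft (nat_lit 0x1000003) (nat_lit 112)) (.one (nat_lit 0x100000200500800b00f400a03041601e611)) (.one (nat_lit 0x100000300500800b00f600a03041601e611))))) (.br (Nat.shiftLeft (nat_lit 0x800001) (nat_lit 114)) (.br (Nat.shiftLeft (nat_lit 0x1000001)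 (nat_lit 113)) (.br (Nat.shiftLeft (nat_lit 0x1) (nat_lit 137)) (.one (nat_lit 0x100000400500800b00f800a03041601e611)) (.one (nat_lit 0x200000100500800b00f200a05081601e611))) (.br (Nat.shiftLeft (nat_lit 0x2000003) (nat_lit 112)) (.one (nat_lit 0x200000200500800b00f400a05081601e611)) (.one (nat_lit 0x200000300500800b00f600a05081601e611)))) (.br (Nat.shiftLeft (nat_lit 0x1800001) (nat_lit 113)) (.br (Nat.shiftLeft (nat_lit 0x3) (nat_lit 136)) (.one (nat_lit 0x200000400500800b00f800a05081601e611)) (.one (nat_lit 0x300000100500800b00f200a070c1601e611))) (.br (Nat.shiftLeft (nat_lit 0x3000003) (nat_lit 112)) (.one (nat_lit 0x300000200500800b00f400a070c1601e611)) (.one (nat_lit 0x300000300500800b00f600a070c1601e611))))))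
noncomputable def b177 : BT := .node (nat_lit 0xb) (nat_lit 0x6d912fc97a935275a58c003a9a0008b880032dc000cb602db225f24e00032db000ab74196325f15100039e4000ad5c10026b001b0001b0001b0001b000150000f0000f0000f0000f0000f0000f0) .leaf .leaf
def t176 : k176.all (jb2 57 fl b177) = true := by decide +kernel
noncomputable def k177 : KT := (.br (Nat.shiftLeft (nat_lit 0x4000003) (nat_lit 112)) (.br (Nat.shiftLeft (nat_lit 0x1) (nat_lit 138)) (.one (nat_lit 0x300000400500800b00f800a070c1601e611)) (.br (Nat.shiftLeft (nat_lit 0x2000001) (nat_lit 113)) (.one (nat_lit 0x400000100500800b00f200a09101601e611)) (.one (nat_lit 0x400000200500800b00f400a09101601e611)))) (.br (Nat.shiftLeft (nat_lit 0x5) (nat_lit 136)) (.br (Nat.shiftLeft (nat_lit 0x1000001) (nat_lit 114)) (.one (nat_lit 0x400000300500800b00f600a09101601e611)) (.one (nat_lit 0x400000400500800b00f800a09101601e611))) (.br (Nat.shiftLeft (nat_lit 0x2800001) (nat_lit 113)) (.one (nat_lit 0x500000100500800b00f200a0b141601e611)) (.one (nat_lit 0x500000200500800b00f400a0b141601e611)))))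
def t177 : k177.all (jb2 57 fl b0) = true := by decide +kernel
noncomputable def k178 : KT := (.br (Nat.shiftLeft (nat_lit 0x1400001) (nat_lit 114)) (.one (nat_lit 0x500000300500800b00f600a0b141601e611)) (.br (Nat.shiftLeft (nat_lit 0x3) (nat_lit 137)) (.one (nat_lit 0x500000400500800b00f800a0b141601e611)) (.one (nat_lit 0x600000100500800b00f200a0d181601e611))))
def t178 : k178.all (jb2 57 fl b0) = true := by decide +kernel
noncomputable def k179 : KT := (.br (Nat.shiftLeft (nat_lit 0x6000003) (nat_lit 112)) (.one (nat_lit 0x600000200500800b00f400a0d181601e611)) (.br (Nat.shiftLeft (nat_lit 0x1800001) (nat_lit 114)) (.one (nat_lit 0x600000300500800b00f600a0d181601e611)) (.one (nat_lit 0x600000400500800b00f800a0d181601e611))))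
def t179 : k179.all (jb2 57 fl b0) = true := by decide +kernel
noncomputable def k180 : KT := (.br (Nat.shiftLeft (nat_lit 0x7000003) (nat_lit 112)) (.br (Nat.shiftLeft (nat_lit 0x3800001) (nat_lit 113)) (.one (nat_lit 0x700000100500800b00f200a0f1c1601e611)) (.one (nat_lit 0x700000200500800b00f400a0f1c1601e611))) (.br (Nat.shiftLeft (nat_lit 0x1c00001) (nat_lit 114)) (.one (nat_lit 0x700000300500800b00f600a0f1c1601e611)) (.one (nat_lit 0x700000400500800b00f800a0f1c1601e611))))
def t180 : k180.all (jb2 57 fl b0) = true := by decide +kernel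
noncomputable def k181 : KT := (.br (Nat.shiftLeft (nat_lit 0x8000003) (nat_lit 112)) (.br (Nat.shiftLeft (nat_lit 0x4000001) (nat_lit 113)) (.one (nat_lit 0x800000100500800b00f200a11201601e611)) (.one (nat_lit 0x800000200500800b00f400a11201601e611))) (.br (Nat.shiftLeft (nat_lit 0x2000001) (nat_lit 114)) (.one (nat_lit 0x800000300500800b00f600a11201601e611)) (.br (Nat.shiftLeft (nat_lit 0x9) (nat_lit 136)) (.one (nat_lit 0x800000400500800b00f800a11201601e611)) (.one (nat_lit 0x900000100500800b00f200a13241601e611)))))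
def t181 : k181.all (jb2 57 fl b0) = true := by decide +kernel
noncomputable def k182 : KT := (.br (Nat.shiftLeft (nat_lit 0xb) (nat_lit 136)) (.br (Nat.shiftLeft (nat_lit 0x5) (nat_lit 137)) (.br (Nat.shiftLeft (nat_lit 0x9000003) (nat_lit 112)) (.one (nat_lit 0x900000200500800b00f400a13241601e611)) (.br (Nat.shiftLeft (nat_lit 0x2400001) (nat_lit 114)) (.one (nat_lit 0x900000300500800b00f600a13241601e611)) (.one (nat_lit 0x900000400500800b00f800a13241601e611)))) (.br (Nat.shiftLeft (nat_lit 0xa000003) (nat_lit 112)) (.br (Nat.shiftLeft (nat_lit 0x5000001) (nat_lit 113)) (.one (nat_lit 0xa00000100500800b00f200a15281601e611)) (.one (nat_lit 0xa00000200500800b00f400a15281601e611))) (.br (Nat.shiftLeft (nat_lit 0x2800001) (nat_lit 114)) (.one (nat_lit 0xa00000300500800b00f600a15281601e611)) (.one (nat_lit 0xa00000400500800b00f800a15281601e611))))) (.br (Nat.shiftLeft (nat_lit 0x1) (nat_lit 148)) (.br (Nat.shiftLeft (nat_lit 0xb000003) (nat_lit 112)) (.br (Nat.shiftLeft (nat_lit 0x5800001) (nat_lit 113)) (.one (nat_lit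 0xb00000100500800b00f200a172c1601e611)) (.one (nat_lit 0xb00000200500800b00f400a172c1601e611))) (.br (Nat.shiftLeft (nat_lit 0x2c00001) (nat_lit 114)) (.one (nat_lit 0xb00000300500800b00f600a172c1601e611)) (.one (nat_lit 0xb00000400500800b00f800a172c1601e611)))) (.br (Nat.shiftLeft (nat_lit 0x3) (nat_lit 148)) (.br (Nat.shiftLeft (nat_lit 0x1) (nat_lit 149)) (.one (nat_lit 0x100000100200500800b00f402a41003641e711)) (.one (nat_lit 0x200000100200500800b00f404a81003641e711))) (.br (Nat.shiftLeft (nat_lit 0x1) (nat_lit 150)) (.one (nat_lit 0x300000100200500800b00f406ac1003641e711)) (.one (nat_lit 0x400000100200500800b00f408b01003641e711))))))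
def t182 : k182.all (jb2 57 fl b0) = true := by decide +kernel
noncomputable def k183 : KT := (.br (Nat.shiftLeft (nat_lit 0x1) (nat_lit 151)) (.br (Nat.shiftLeft (nat_lit 0x3) (nat_lit 149)) (.one (nat_lit 0x500000100200500800b00f40ab41003641e711)) (.br (Nat.shiftLeft (nat_lit 0x7) (nat_lit 148)) (.one (nat_lit 0x600000100200500800b00f40cb81003641e711)) (.one (nat_lit 0x700000100200500800b00f40ebc1003641e711)))) (.br (Nat.shiftLeft (nat_lit 0x5) (nat_lit 149)) (.br (Nat.shiftLeft (nat_lit 0x9) (nat_lit 148)) (.one (nat_lit 0x800000100200500800b00f410c01003641e711)) (.one (nat_lit 0x900000100200500800b00f412c41003641e711))) (.br (Nat.shiftLeft (nat_lit 0xb) (nat_lit 148)) (.one (nat_lit 0xa00000100200500800b00f414c81003641e711)) (.one (nat_lit 0xb00000100200500800b00f416cc1003641e711)))))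
def t183 : k183.all (jb2 57 fl b0) = true := by decide +kernel
noncomputable def s10 : KT := (.br (nat_lit 0x300000300500800b00f600a070c1601e611) (.br (nat_lit 0x200300500800b00f600a01005681e760) (.br (nat_lit 0x100300500800b00f600a01003641e760) k170 (.br (nat_lit 0x200000500800b00f000a01005681e511) k171 k172)) (.br (nat_lit 0x500000500800b00f000a0100b741e511) (.br (nat_lit 0x300000500800b00f000a010076c1e511) k173 k174) (.br (nat_lit 0x700000500800b00f000a0100f7c1e511) k175 k176))) (.br (nat_lit 0x600000400500800b00f800a0d181601e611) (.br (nat_lit 0x500000200500800b00f400a0b141601e611) k177 (.br (nat_lit 0x600000100500800b00f200a0d181601e611) k178 k179)) (.br (nat_lit 0x900000100500800b00f200a13241601e611) (.br (nat_lit 0x700000400500800b00f800a0f1c1601e611) k180 k181) (.br (nat_lit 0x400000100200500800b00f408b01003641e711) k182 k183))))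
noncomputable def u10 : KT := (.one (nat_lit 0x500800b00f000a01001601e540))
def w10 : u10.all (wj 57 s10) = true := by decide +kernel
def o10 : OkW 57 (jb2 57 fl) u10 := .lift s10 _ (.br _ _ _ (.br _ _ _ (.br _ _ _ (.leaf b0 k170 t170) (.br _ _ _ (.leaf b0 k171 t171) (.leaf b0 k172 t172))) (.br _ _ _ (.br _ _ _ (.leaf b0 k173 t173) (.leaf b0 k174 t174)) (.br _ _ _ (.leaf b176 k175 t175) (.leaf b177 k176 t176)))) (.br _ _ _ (.br _ _ _ (.leaf b0 k177 t177) (.br _ _ _ (.leaf b0 k178 t178) (.leaf b0 k179 t179))) (.br _ _ _ (.br _ _ _ (.leaf b0 k180 t180) (.leaf b0 k181 t181)) (.br _ _ _ (.leaf b0 k182 t182) (.leaf b0 k183 t183))))) w10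
noncomputable def k184 : KT := (.br (Nat.shiftLeft (nat_lit 0x2804005809) (nat_lit 65)) (.br (Nat.shiftLeft (nat_lit 0x500800b011) (nat_lit 64)) (.one (nat_lit 0x500800b010000a010016021500)) (.one (nat_lit 0x500800b011000a010016023500))) (.br (Nat.shiftLeft (nat_lit 0x1) (nat_lit 112)) (.one (nat_lit 0x500800b012000a010016025500)) (.br (Nat.shiftLeft (nat_lit 0x100500800b011) (nat_lit 64)) (.one (nat_lit 0x100500800b010200a010016021600)) (.one (nat_lit 0x100500800b011200a010016022650)))))
def t184 : k184.all (jb2 57 fl b0) = true := by decide +kernel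
noncomputable def k185 : KT := (.br (Nat.shiftLeft (nat_lit 0x1) (nat_lit 113)) (.one (nat_lit 0x100500800b012200a010016024650)) (.br (Nat.shiftLeft (nat_lit 0x200500800b011) (nat_lit 64)) (.one (nat_lit 0x200500800b010400a010016021600)) (.one (nat_lit 0x200500800b011400a010016023600))))
def t185 : k185.all (jb2 57 fl b0) = true := by decide +kernel
noncomputable def k186 : KT := (.br (Nat.shiftLeft (nat_lit 0x3) (nat_lit 112)) (.one (nat_lit 0x200500800b012400a010016024650)) (.br (Nat.shiftLeft (nat_lit 0x300500800b011) (nat_lit 64)) (.one (nat_lit 0x300500800b010600a010016021600)) (.one (nat_lit 0x300500800b011600a010016023600))))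
def t186 : k186.all (jb2 57 fl b0) = true := by decide +kernel
noncomputable def k187 : KT := (.br (Nat.shiftLeft (nat_lit 0x1) (nat_lit 114)) (.one (nat_lit 0x300500800b012600a010016024650)) (.br (Nat.shiftLeft (nat_lit 0x400500800b011) (nat_lit 64)) (.one (nat_lit 0x400500800b010800a010016021600)) (.one (nat_lit 0x400500800b011800a010016023600))))
def t187 : k187.all (jb2 57 fl b0) = true := by decide +kernel
noncomputable def k188 : KT := (.br (Nat.shiftLeft (nat_lit 0x100000500800b011) (nat_lit 64)) (.br (Nat.shiftLeft (nat_lit 0x1) (nat_lit 124)) (.one (nat_lit 0x400500800b012800a010016024650)) (.one (nat_lit 0x100000500800b010000a010036420511))) (.br (Nat.shiftLeft (nat_lit 0x800002804005809) (nat_lit 65)) (.one (nat_lit 0x100000500800b011000a010036422511)) (.one (nat_lit 0x100000500800b012000a010036424511))))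
def t188 : k188.all (jb2 57 fl b0) = true := by decide +kernel
noncomputable def k189 : KT := (.one (nat_lit 0x100200500800b010400a010036420760))
def t189 : k189.all (jb2 57 fl b0) = true := by decide +kernel
noncomputable def k190 : KT := (.one (nat_lit 0x100200500800b011400a010036422760))
def t190 : k190.all (jb2 57 fl b0) = true := by decide +kernel
noncomputable def k191 : KT := (.br (Nat.shiftLeft (nat_lit 0x100300500800b011) (nat_lit 64)) (.one (nat_lit 0x100300500800b010600a010036420760)) (.one (nat_lit 0x100300500800b011600a010036422760)))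
def t191 : k191.all (jb2 57 fl b0) = true := by decide +kernel
noncomputable def k192 : KT := (.br (Nat.shiftLeft (nat_lit 0x1) (nat_lit 125)) (.br (Nat.shiftLeft (nat_lit 0x100400500800b011) (nat_lit 64)) (.one (nat_lit 0x100400500800b010800a010036420760)) (.one (nat_lit 0x100400500800b011800a010036422760))) (.br (Nat.shiftLeft (nat_lit 0x200000500800b011) (nat_lit 64)) (.one (nat_lit 0x200000500800b010000a010056820511)) (.br (Nat.shiftLeft (nat_lit 0x1000002804005809) (nat_lit 65)) (.one (nat_lit 0x200000500800b011000a010056822511)) (.one (nat_lit 0x200000500800b012000a010056824511)))))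
def t192 : k192.all (jb2 57 fl b0) = true := by decide +kernel
noncomputable def k193 : KT := (.one (nat_lit 0x200300500800b010600a010056820760))
def t193 : k193.all (jb2 57 fl b0) = true := by decide +kernel
noncomputable def k194 : KT := (.br (Nat.shiftLeft (nat_lit 0x801) (nat_lit 114)) (.one (nat_lit 0x200300500800b011600a010056822760)) (.one (nat_lit 0x200400500800b010800a010056820760)))
def t194 : k194.all (jb2 57 fl b0) = true := by decide +kernel
noncomputable def k195 : KT := (.br (Nat.shiftLeft (nat_lit 0x300000500800b011) (nat_lit 64)) (.br (Nat.shiftLeft (nat_lit 0x3) (nat_lit 124)) (.one (nat_lit 0x200400500800b011800a010056822760)) (.one (nat_lit 0x300000500800b010000a010076c20511))) (.br (Nat.shiftLeft (nat_lit 0x1800002804005809) (nat_lit 65)) (.one (nat_lit 0x300000500800b011000a010076c22511)) (.br (Nat.shiftLeft (nat_lit 0xc01) (nat_lit 114)) (.one (nat_lit 0x300000500800b012000a010076c24511)) (.one (nat_lit 0x300400500800b010800a010076c20760)))))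
def t195 : k195.all (jb2 57 fl b0) = true := by decide +kernel
noncomputable def k196 : KT := (.br (Nat.shiftLeft (nat_lit 0x2000002804005809) (nat_lit 65)) (.br (Nat.shiftLeft (nat_lit 0x1) (nat_lit 126)) (.one (nat_lit 0x300400500800b011800a010076c22760)) (.br (Nat.shiftLeft (nat_lit 0x400000500800b011) (nat_lit 64)) (.one (nat_lit 0x400000500800b010000a010097020511)) (.one (nat_lit 0x400000500800b011000a010097022511)))) (.br (Nat.shiftLeft (nat_lit 0x500000500800b011) (nat_lit 64)) (.br (Nat.shiftLeft (nat_lit 0x5) (nat_lit 124)) (.one (nat_lit 0x400000500800b012000a010097024511)) (.one (nat_lit 0x500000500800b010000a0100b7420511))) (.br (Nat.shiftLeft (nat_lit 0x2800002804005809) (nat_lit 65)) (.one (nat_lit 0x500000500800b011000a0100b7422511)) (.one (nat_lit 0x500000500800b012000a0100b7424511)))))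
def t196 : k196.all (jb2 57 fl b0) = true := by decide +kernel
noncomputable def k197 : KT := (.br (Nat.shiftLeft (nat_lit 0x3000002804005809) (nat_lit 65)) (.br (Nat.shiftLeft (nat_lit 0x600000500800b011) (nat_lit 64)) (.one (nat_lit 0x600000500800b010000a0100d7820511)) (.one (nat_lit 0x600000500800b011000a0100d7822511))) (.br (Nat.shiftLeft (nat_lit 0x7) (nat_lit 124)) (.one (nat_lit 0x600000500800b012000a0100d7824511)) (.one (nat_lit 0x700000500800b010000a0100f7c20511))))
def t197 : k197.all (jb2 57 fl b0) = true := by decide +kernel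
noncomputable def k198 : KT := (.br (Nat.shiftLeft (nat_lit 0x800000500800b011) (nat_lit 64)) (.br (Nat.shiftLeft (nat_lit 0x3800002804005809) (nat_lit 65)) (.one (nat_lit 0x700000500800b011000a0100f7c22511)) (.br (Nat.shiftLeft (nat_lit 0x1) (nat_lit 127)) (.one (nat_lit 0x700000500800b012000a0100f7c24511)) (.one (nat_lit 0x800000500800b010000a010118020511)))) (.br (Nat.shiftLeft (nat_lit 0x4000002804005809) (nat_lit 65)) (.one (nat_lit 0x800000500800b011000a010118022511)) (.br (Nat.shiftLeft (nat_lit 0x9) (nat_lit 124)) (.one (nat_lit 0x800000500800b012000a010118024511)) (.one (nat_lit 0x900000500800b010000a010138420511)))))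
def t198 : k198.all (jb2 57 fl b0) = true := by decide +kernel
noncomputable def k199 : KT := (.br (Nat.shiftLeft (nat_lit 0x1000001) (nat_lit 113)) (.br (Nat.shiftLeft (nat_lit 0x1) (nat_lit 136)) (.br (Nat.shiftLeft (nat_lit 0x5000002804005809) (nat_lit 65)) (.br (Nat.shiftLeft (nat_lit 0x5) (nat_lit 125)) (.br (Nat.shiftLeft (nat_lit 0x4800002804005809) (nat_lit 65)) (.one (nat_lit 0x900000500800b011000a010138422511)) (.one (nat_lit 0x900000500800b012000a010138424511))) (.br (Nat.shiftLeft (nat_lit 0xa00000500800b011) (nat_lit 64)) (.one (nat_lit 0xa00000500800b010000a010158820511)) (.one (nat_lit 0xa00000500800b011000a010158822511)))) (.br (Nat.shiftLeft (nat_lit 0xb00000500800b011) (nat_lit 64)) (.br (Nat.shiftLeft (nat_lit 0xb) (nat_lit 124)) (.one (nat_lit 0xa00000500800b012000a010158824511)) (.one (nat_lit 0xb00000500800b010000a010178c20511))) (.br (Nat.shiftLeft (nat_lit 0x5800002804005809) (nat_lit 65)) (.one (nat_lit 0xb00000500800b011000a010178c22511)) (.one (nat_lit 0xb00000500800b012000a010178c24511)))))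 (.br (Nat.shiftLeft (nat_lit 0x100000300500800b011) (nat_lit 64)) (.br (Nat.shiftLeft (nat_lit 0x100000200500800b011) (nat_lit 64)) (.br (Nat.shiftLeft (nat_lit 0x800001) (nat_lit 113)) (.one (nat_lit 0x100000100500800b010200a030416020611)) (.one (nat_lit 0x100000200500800b010400a030416020611))) (.br (Nat.shiftLeft (nat_lit 0x1000003) (nat_lit 112)) (.one (nat_lit 0x100000200500800b011400a030416022611)) (.one (nat_lit 0x100000300500800b010600a030416020611)))) (.br (Nat.shiftLeft (nat_lit 0x100000400500800b011) (nat_lit 64)) (.br (Nat.shiftLeft (nat_lit 0x400001) (nat_lit 114)) (.one (nat_lit 0x100000300500800b011600a030416022611)) (.one (nat_lit 0x100000400500800b010800a030416020611))) (.br (Nat.shiftLeft (nat_lit 0x1) (nat_lit 137)) (.one (nat_lit 0x100000400500800b011800a030416022611)) (.one (nat_lit 0x200000100500800b010200a050816020611)))))) (.br (Nat.shiftLeft (nat_lit 0x300000200500800b011) (nat_lit 64)) (.br (Nat.shiftLeft (nat_lit 0x800001) (nat_lit 114)) (.br (Nat.shiftLeft (nat_lit 0x2000003) (nat_lit 112))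 (.br (Nat.shiftLeft (nat_lit 0x200000200500800b011) (nat_lit 64)) (.one (nat_lit 0x200000200500800b010400a050816020611)) (.one (nat_lit 0x200000200500800b011400a050816022611))) (.br (Nat.shiftLeft (nat_lit 0x200000300500800b011) (nat_lit 64)) (.one (nat_lit 0x200000300500800b010600a050816020611)) (.one (nat_lit 0x200000300500800b011600a050816022611)))) (.br (Nat.shiftLeft (nat_lit 0x3) (nat_lit 136)) (.br (Nat.shiftLeft (nat_lit 0x200000400500800b011) (nat_lit 64)) (.one (nat_lit 0x200000400500800b010800a050816020611)) (.one (nat_lit 0x200000400500800b011800a050816022611))) (.br (Nat.shiftLeft (nat_lit 0x1800001) (nat_lit 113)) (.one (nat_lit 0x300000100500800b010200a070c16020611)) (.one (nat_lit 0x300000200500800b010400a070c16020611))))) (.br (Nat.shiftLeft (nat_lit 0x300000400500800b011) (nat_lit 64)) (.br (Nat.shiftLeft (nat_lit 0x300000300500800b011) (nat_lit 64)) (.br (Nat.shiftLeft (nat_lit 0x3000003) (nat_lit 112)) (.one (nat_lit 0x300000200500800b011400a070c16022611)) (.one (nat_lit 0x300000300500800b010600a070c16020611)))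 (.br (Nat.shiftLeft (nat_lit 0xc00001) (nat_lit 114)) (.one (nat_lit 0x300000300500800b011600a070c16022611)) (.one (nat_lit 0x300000400500800b010800a070c16020611)))) (.br (Nat.shiftLeft (nat_lit 0x2000001) (nat_lit 113)) (.br (Nat.shiftLeft (nat_lit 0x1) (nat_lit 138)) (.one (nat_lit 0x300000400500800b011800a070c16022611)) (.one (nat_lit 0x400000100500800b010200a091016020611))) (.br (Nat.shiftLeft (nat_lit 0x400000200500800b011) (nat_lit 64)) (.one (nat_lit 0x400000200500800b010400a091016020611)) (.one (nat_lit 0x400000200500800b011400a091016022611)))))))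
def t199 : k199.all (jb2 57 fl b0) = true := by decide +kernel
noncomputable def k200 : KT := (.br (Nat.shiftLeft (nat_lit 0x400000400500800b011) (nat_lit 64)) (.br (Nat.shiftLeft (nat_lit 0x400000300500800b011) (nat_lit 64)) (.one (nat_lit 0x400000300500800b010600a091016020611)) (.br (Nat.shiftLeft (nat_lit 0x1000001) (nat_lit 114)) (.one (nat_lit 0x400000300500800b011600a091016022611)) (.one (nat_lit 0x400000400500800b010800a091016020611)))) (.br (Nat.shiftLeft (nat_lit 0x2800001) (nat_lit 113)) (.br (Nat.shiftLeft (nat_lit 0x5) (nat_lit 136)) (.one (nat_lit 0x400000400500800b011800a091016022611)) (.one (nat_lit 0x500000100500800b010200a0b1416020611))) (.br (Nat.shiftLeft (nat_lit 0x500000200500800b011) (nat_lit 64)) (.one (nat_lit 0x500000200500800b010400a0b1416020611)) (.one (nat_lit 0x500000200500800b011400a0b1416022611)))))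
def t200 : k200.all (jb2 57 fl b0) = true := by decide +kernel
noncomputable def k201 : KT := (.br (Nat.shiftLeft (nat_lit 0x1400001) (nat_lit 114)) (.br (Nat.shiftLeft (nat_lit 0x500000300500800b011) (nat_lit 64)) (.one (nat_lit 0x500000300500800b010600a0b1416020611)) (.one (nat_lit 0x500000300500800b011600a0b1416022611))) (.br (Nat.shiftLeft (nat_lit 0x500000400500800b011) (nat_lit 64)) (.one (nat_lit 0x500000400500800b010800a0b1416020611)) (.br (Nat.shiftLeft (nat_lit 0x3) (nat_lit 137)) (.one (nat_lit 0x500000400500800b011800a0b1416022611)) (.one (nat_lit 0x600000100500800b010200a0d1816020611)))))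
def t201 : k201.all (jb2 57 fl b0) = true := by decide +kernel
noncomputable def k202 : KT := (.br (Nat.shiftLeft (nat_lit 0x600000300500800b011) (nat_lit 64)) (.br (Nat.shiftLeft (nat_lit 0x600000200500800b011) (nat_lit 64)) (.one (nat_lit 0x600000200500800b010400a0d1816020611)) (.br (Nat.shiftLeft (nat_lit 0x6000003) (nat_lit 112)) (.one (nat_lit 0x600000200500800b011400a0d1816022611)) (.one (nat_lit 0x600000300500800b010600a0d1816020611)))) (.br (Nat.shiftLeft (nat_lit 0x1800001) (nat_lit 114)) (.one (nat_lit 0x600000300500800b011600a0d1816022611)) (.br (Nat.shiftLeft (nat_lit 0x600000400500800b011) (nat_lit 64)) (.one (nat_lit 0x600000400500800b010800a0d1816020611)) (.one (nat_lit 0x600000400500800b011800a0d1816022611)))))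
def t202 : k202.all (jb2 57 fl b0) = true := by decide +kernel
noncomputable def k203 : KT := (.br (Nat.shiftLeft (nat_lit 0x7000003) (nat_lit 112)) (.br (Nat.shiftLeft (nat_lit 0x3800001) (nat_lit 113)) (.one (nat_lit 0x700000100500800b010200a0f1c16020611)) (.br (Nat.shiftLeft (nat_lit 0x700000200500800b011) (nat_lit 64)) (.one (nat_lit 0x700000200500800b010400a0f1c16020611)) (.one (nat_lit 0x700000200500800b011400a0f1c16022611)))) (.br (Nat.shiftLeft (nat_lit 0x1c00001) (nat_lit 114)) (.br (Nat.shiftLeft (nat_lit 0x700000300500800b011) (nat_lit 64)) (.one (nat_lit 0x700000300500800b010600a0f1c16020611)) (.one (nat_lit 0x700000300500800b011600a0f1c16022611))) (.br (Nat.shiftLeft (nat_lit 0x700000400500800b011) (nat_lit 64)) (.one (nat_lit 0x700000400500800b010800a0f1c16020611)) (.one (nat_lit 0x700000400500800b011800a0f1c16022611)))))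
def t203 : k203.all (jb2 57 fl b0) = true := by decide +kernel
noncomputable def k204 : KT := (.br (Nat.shiftLeft (nat_lit 0x9) (nat_lit 136)) (.br (Nat.shiftLeft (nat_lit 0x8000003) (nat_lit 112)) (.br (Nat.shiftLeft (nat_lit 0x4000001) (nat_lit 113)) (.one (nat_lit 0x800000100500800b010200a112016020611)) (.br (Nat.shiftLeft (nat_lit 0x800000200500800b011) (nat_lit 64)) (.one (nat_lit 0x800000200500800b010400a112016020611)) (.one (nat_lit 0x800000200500800b011400a112016022611)))) (.br (Nat.shiftLeft (nat_lit 0x2000001) (nat_lit 114)) (.br (Nat.shiftLeft (nat_lit 0x800000300500800b011) (nat_lit 64)) (.one (nat_lit 0x800000300500800b010600a112016020611)) (.one (nat_lit 0x800000300500800b011600a112016022611))) (.br (Nat.shiftLeft (nat_lit 0x800000400500800b011) (nat_lit 64)) (.one (nat_lit 0x800000400500800b010800a112016020611)) (.one (nat_lit 0x800000400500800b011800a112016022611))))) (.br (Nat.shiftLeft (nat_lit 0x9000003) (nat_lit 112)) (.br (Nat.shiftLeft (nat_lit 0x4800001) (nat_lit 113)) (.one (nat_lit 0x900000100500800b010200a132416020611))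 (.br (Nat.shiftLeft (nat_lit 0x900000200500800b011) (nat_lit 64)) (.one (nat_lit 0x900000200500800b010400a132416020611)) (.one (nat_lit 0x900000200500800b011400a132416022611)))) (.br (Nat.shiftLeft (nat_lit 0x2400001) (nat_lit 114)) (.br (Nat.shiftLeft (nat_lit 0x900000300500800b011) (nat_lit 64)) (.one (nat_lit 0x900000300500800b010600a132416020611)) (.one (nat_lit 0x900000300500800b011600a132416022611))) (.br (Nat.shiftLeft (nat_lit 0x900000400500800b011) (nat_lit 64)) (.one (nat_lit 0x900000400500800b010800a132416020611)) (.one (nat_lit 0x900000400500800b011800a132416022611))))))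
def t204 : k204.all (jb2 57 fl b0) = true := by decide +kernel
noncomputable def k205 : KT := (.br (Nat.shiftLeft (nat_lit 0xb) (nat_lit 136)) (.br (Nat.shiftLeft (nat_lit 0xa000003) (nat_lit 112)) (.br (Nat.shiftLeft (nat_lit 0x5000001) (nat_lit 113)) (.one (nat_lit 0xa00000100500800b010200a152816020611)) (.br (Nat.shiftLeft (nat_lit 0xa00000200500800b011) (nat_lit 64)) (.one (nat_lit 0xa00000200500800b010400a152816020611)) (.one (nat_lit 0xa00000200500800b011400a152816022611)))) (.br (Nat.shiftLeft (nat_lit 0x2800001) (nat_lit 114)) (.br (Nat.shiftLeft (nat_lit 0xa00000300500800b011) (nat_lit 64)) (.one (nat_lit 0xa00000300500800b010600a152816020611)) (.one (nat_lit 0xa00000300500800b011600a152816022611))) (.br (Nat.shiftLeft (nat_lit 0xa00000400500800b011) (nat_lit 64)) (.one (nat_lit 0xa00000400500800b010800a152816020611)) (.one (nat_lit 0xa00000400500800b011800a152816022611))))) (.br (Nat.shiftLeft (nat_lit 0xb000003) (nat_lit 112)) (.br (Nat.shiftLeft (nat_lit 0x5800001) (nat_lit 113)) (.one (nat_lit 0xb00000100500800b010200a172c16020611))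 (.br (Nat.shiftLeft (nat_lit 0xb00000200500800b011) (nat_lit 64)) (.one (nat_lit 0xb00000200500800b010400a172c16020611)) (.one (nat_lit 0xb00000200500800b011400a172c16022611)))) (.br (Nat.shiftLeft (nat_lit 0x2c00001) (nat_lit 114)) (.br (Nat.shiftLeft (nat_lit 0xb00000300500800b011) (nat_lit 64)) (.one (nat_lit 0xb00000300500800b010600a172c16020611)) (.one (nat_lit 0xb00000300500800b011600a172c16022611))) (.br (Nat.shiftLeft (nat_lit 0xb00000400500800b011) (nat_lit 64)) (.one (nat_lit 0xb00000400500800b010800a172c16020611)) (.one (nat_lit 0xb00000400500800b011800a172c16022611))))))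
def t205 : k205.all (jb2 57 fl b0) = true := by decide +kernel
noncomputable def s11 : KT := (.br (nat_lit 0x200400500800b010800a010056820760) (.br (nat_lit 0x100000500800b012000a010036424511) (.br (nat_lit 0x200500800b011400a010016023600) (.br (nat_lit 0x100500800b011200a010016022650) k184 k185) (.br (nat_lit 0x300500800b011600a010016023600) k186 (.br (nat_lit 0x400500800b011800a010016023600) k187 k188))) (.br (nat_lit 0x100300500800b011600a010036422760) (.br (nat_lit 0x100200500800b010400a010036420760) k189 (.br (nat_lit 0x100200500800b011400a010036422760) k190 k191)) (.br (nat_lit 0x200000500800b012000a010056824511) k192 (.br (nat_lit 0x200300500800b010600a010056820760) k193 k194)))) (.br (nat_lit 0x400000200500800b011400a091016022611) (.br (nat_lit 0x500000500800b012000a0100b7424511) (.br (nat_lit 0x300400500800b010800a010076c20760) k195 k196) (.br (nat_lit 0x700000500800b010000a0100f7c20511) k197 (.br (nat_lit 0x900000500800b010000a010138420511) k198 k199))) (.br (nat_lit 0x600000400500800b011800a0d1816022611)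 (.br (nat_lit 0x500000200500800b011400a0b1416022611) k200 (.br (nat_lit 0x600000100500800b010200a0d1816020611) k201 k202)) (.br (nat_lit 0x700000400500800b011800a0f1c16022611) k203 (.br (nat_lit 0x900000400500800b011800a132416022611) k204 k205)))))
noncomputable def u11 : KT := (.br (Nat.shiftLeft (nat_lit 0x500800b011) (nat_lit 64)) (.one (nat_lit 0x500800b010000a010016020540)) (.br (Nat.shiftLeft (nat_lit 0x2804005809) (nat_lit 65)) (.one (nat_lit 0x500800b011000a010016022540)) (.one (nat_lit 0x500800b012000a010016024540))))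
def w11 : u11.all (wj 57 s11) = true := by decide +kernel
def o11 : OkW 57 (jb2 57 fl) u11 := .lift s11 _ (.br _ _ _ (.br _ _ _ (.br _ _ _ (.br _ _ _ (.leaf b0 k184 t184) (.leaf b0 k185 t185)) (.br _ _ _ (.leaf b0 k186 t186) (.br _ _ _ (.leaf b0 k187 t187) (.leaf b0 k188 t188)))) (.br _ _ _ (.br _ _ _ (.leaf b0 k189 t189) (.br _ _ _ (.leaf b0 k190 t190) (.leaf b0 k191 t191))) (.br _ _ _ (.leaf b0 k192 t192) (.br _ _ _ (.leaf b0 k193 t193) (.leaf b0 k194 t194))))) (.br _ _ _ (.br _ _ _ (.br _ _ _ (.leaf b0 k195 t195) (.leaf b0 k196 t196)) (.br _ _ _ (.leaf b0 k197 t197) (.br _ _ _ (.leaf b0 k198 t198) (.leaf b0 k199 t199)))) (.br _ _ _ (.br _ _ _ (.leaf b0 k200 t200) (.br _ _ _ (.leaf b0 k201 t201) (.leaf b0 k202 t202))) (.br _ _ _ (.leaf b0 k203 t203) (.br _ _ _ (.leaf b0 k204 t204) (.leaf b0 k205 t205)))))) w11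
noncomputable def k206 : KT := (.br (Nat.shiftLeft (nat_lit 0x1) (nat_lit 124)) (.br (Nat.shiftLeft (nat_lit 0x1) (nat_lit 113)) (.br (Nat.shiftLeft (nat_lit 0x1) (nat_lit 112)) (.one (nat_lit 0x500800c00d000a01001801b500)) (.one (nat_lit 0x100500800c00d200a01001801b600))) (.br (Nat.shiftLeft (nat_lit 0x3) (nat_lit 112)) (.one (nat_lit 0x200500800c00d400a01001801b600)) (.br (Nat.shiftLeft (nat_lit 0x1) (nat_lit 114)) (.one (nat_lit 0x300500800c00d600a01001801b600)) (.one (nat_lit 0x400500800c00d800a01001801b600))))) (.br (Nat.shiftLeft (nat_lit 0x401) (nat_lit 114)) (.br (Nat.shiftLeft (nat_lit 0x801) (nat_lit 113)) (.one (nat_lit 0x100000500800c00d000a01003841a511)) (.br (Nat.shiftLeft (nat_lit 0x1003) (nat_lit 112)) (.one (nat_lit 0x100200500800c00d400a01003841b700)) (.one (nat_lit 0x100300500800c00d600a01003841b700)))) (.br (Nat.shiftLeft (nat_lit 0x1) (nat_lit 125)) (.one (nat_lit 0x100400500800c00d800a01003841a760)) (.br (Nat.shiftLeft (nat_lit 0x1001) (nat_lit 113)) (.one (nat_lit 0x200000500800c00d000a01005881a511))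 (.one (nat_lit 0x200300500800c00d600a01005881b700))))))
def t206 : k206.all (jb2 57 fl b0) = true := by decide +kernel
noncomputable def k207 : KT := (.br (Nat.shiftLeft (nat_lit 0x3) (nat_lit 124)) (.one (nat_lit 0x200400500800c00d800a01005881a760)) (.one (nat_lit 0x300000500800c00d000a010078c1a511)))
def t207 : k207.all (jb2 57 fl b0) = true := by decide +kernel
noncomputable def k208 : KT := (.br (Nat.shiftLeft (nat_lit 0x1) (nat_lit 126)) (.one (nat_lit 0x300400500800c00d800a010078c1a760)) (.one (nat_lit 0x400000500800c00d000a01009901a511)))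
def t208 : k208.all (jb2 57 fl b0) = true := by decide +kernel
noncomputable def k209 : KT := (.br (Nat.shiftLeft (nat_lit 0x3) (nat_lit 125)) (.one (nat_lit 0x500000500800c00d000a0100b941a511)) (.one (nat_lit 0x600000500800c00d000a0100d981a511)))
def t209 : k209.all (jb2 57 fl b0) = true := by decide +kernel
noncomputable def k210 : KT := (.br (Nat.shiftLeft (nat_lit 0x1) (nat_lit 127)) (.one (nat_lit 0x700000500800c00d000a0100f9c1a511)) (.one (nat_lit 0x800000500800c00d000a01011a01a511)))
def t210 : k210.all (jb2 57 fl b0) = true := by decide +kernel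
noncomputable def k211 : KT := (.br (Nat.shiftLeft (nat_lit 0x1) (nat_lit 136)) (.br (Nat.shiftLeft (nat_lit 0xb) (nat_lit 124)) (.br (Nat.shiftLeft (nat_lit 0x5) (nat_lit 125)) (.one (nat_lit 0x900000500800c00d000a01013a41a511)) (.one (nat_lit 0xa00000500800c00d000a01015a81a511))) (.br (Nat.shiftLeft (nat_lit 0x3) (nat_lit 126)) (.one (nat_lit 0xb00000500800c00d000a01017ac1a511)) (.one (nat_lit 0xc00000500800c00d000a01019b01a511)))) (.br (Nat.shiftLeft (nat_lit 0x1000003) (nat_lit 112)) (.br (Nat.shiftLeft (nat_lit 0x800001) (nat_lit 113)) (.one (nat_lit 0x100000100500800c00d200a03041801a611)) (.one (nat_lit 0x100000200500800c00d400a03041801a611))) (.br (Nat.shiftLeft (nat_lit 0x400001) (nat_lit 114)) (.one (nat_lit 0x100000300500800c00d600a03041801a611)) (.one (nat_lit 0x100000400500800c00d800a03041801a611)))))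
def t211 : k211.all (jb2 57 fl b0) = true := by decide +kernel
noncomputable def k212 : KT := (.br (Nat.shiftLeft (nat_lit 0x1800001) (nat_lit 113)) (.br (Nat.shiftLeft (nat_lit 0x2000003) (nat_lit 112)) (.br (Nat.shiftLeft (nat_lit 0x1) (nat_lit 137)) (.one (nat_lit 0x100200300500800c00d600a03045881a870)) (.br (Nat.shiftLeft (nat_lit 0x1000001) (nat_lit 113)) (.one (nat_lit 0x200000100500800c00d200a05081801a611)) (.one (nat_lit 0x200000200500800c00d400a05081801a611)))) (.br (Nat.shiftLeft (nat_lit 0x800001) (nat_lit 114)) (.one (nat_lit 0x200000300500800c00d600a05081801a611)) (.br (Nat.shiftLeft (nat_lit 0x3) (nat_lit 136)) (.one (nat_lit 0x200000400500800c00d800a05081801a611)) (.one (nat_lit 0x300000100500800c00d200a070c1801a611))))) (.br (Nat.shiftLeft (nat_lit 0x1) (nat_lit 138)) (.br (Nat.shiftLeft (nat_lit 0x3000003) (nat_lit 112)) (.one (nat_lit 0x300000200500800c00d400a070c1801a611)) (.br (Nat.shiftLeft (nat_lit 0xc00001) (nat_lit 114)) (.one (nat_lit 0x300000300500800c00d600a070c1801a611)) (.one (nat_lit 0x300000400500800c00d800a070c1801a611))))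 (.br (Nat.shiftLeft (nat_lit 0x2000001) (nat_lit 113)) (.one (nat_lit 0x400000100500800c00d200a09101801a611)) (.br (Nat.shiftLeft (nat_lit 0x4000003) (nat_lit 112)) (.one (nat_lit 0x400000200500800c00d400a09101801a611)) (.one (nat_lit 0x400000300500800c00d600a09101801a611))))))
def t212 : k212.all (jb2 57 fl b0) = true := by decide +kernel
noncomputable def k213 : KT := (.br (Nat.shiftLeft (nat_lit 0x2800001) (nat_lit 113)) (.br (Nat.shiftLeft (nat_lit 0x5) (nat_lit 136)) (.one (nat_lit 0x400000400500800c00d800a09101801a611)) (.one (nat_lit 0x500000100500800c00d200a0b141801a611))) (.br (Nat.shiftLeft (nat_lit 0x5000003) (nat_lit 112)) (.one (nat_lit 0x500000200500800c00d400a0b141801a611)) (.one (nat_lit 0x500000300500800c00d600a0b141801a611))))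
def t213 : k213.all (jb2 57 fl b0) = true := by decide +kernel
noncomputable def k214 : KT := (.br (Nat.shiftLeft (nat_lit 0x3) (nat_lit 137)) (.one (nat_lit 0x500000400500800c00d800a0b141801a611)) (.one (nat_lit 0x600000100500800c00d200a0d181801a611)))
def t214 : k214.all (jb2 57 fl b0) = true := by decide +kernel
noncomputable def k215 : KT := (.br (Nat.shiftLeft (nat_lit 0x6000003) (nat_lit 112)) (.one (nat_lit 0x600000200500800c00d400a0d181801a611)) (.br (Nat.shiftLeft (nat_lit 0x1800001) (nat_lit 114)) (.one (nat_lit 0x600000300500800c00d600a0d181801a611)) (.one (nat_lit 0x600000400500800c00d800a0d181801a611))))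
def t215 : k215.all (jb2 57 fl b0) = true := by decide +kernel
noncomputable def k216 : KT := (.br (Nat.shiftLeft (nat_lit 0x3800001) (nat_lit 113)) (.one (nat_lit 0x700000100500800c00d200a0f1c1801a611)) (.one (nat_lit 0x700000200500800c00d400a0f1c1801a611)))
def t216 : k216.all (jb2 57 fl b0) = true := by decide +kernel
noncomputable def k217 : KT := (.br (Nat.shiftLeft (nat_lit 0x1c00001) (nat_lit 114)) (.one (nat_lit 0x700000300500800c00d600a0f1c1801a611)) (.br (Nat.shiftLeft (nat_lit 0x1) (nat_lit 139)) (.one (nat_lit 0x700000400500800c00d800a0f1c1801a611)) (.one (nat_lit 0x800000100500800c00d200a11201801a611))))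
def t217 : k217.all (jb2 57 fl b0) = true := by decide +kernel
noncomputable def k218 : KT := (.br (Nat.shiftLeft (nat_lit 0x2000001) (nat_lit 114)) (.br (Nat.shiftLeft (nat_lit 0x8000003) (nat_lit 112)) (.one (nat_lit 0x800000200500800c00d400a11201801a611)) (.one (nat_lit 0x800000300500800c00d600a11201801a611))) (.br (Nat.shiftLeft (nat_lit 0x9) (nat_lit 136)) (.one (nat_lit 0x800000400500800c00d800a11201801a611)) (.one (nat_lit 0x900000100500800c00d200a13241801a611))))
def t218 : k218.all (jb2 57 fl b0) = true := by decide +kernel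
noncomputable def k219 : KT := (.br (Nat.shiftLeft (nat_lit 0x2800001) (nat_lit 114)) (.br (Nat.shiftLeft (nat_lit 0x5) (nat_lit 137)) (.br (Nat.shiftLeft (nat_lit 0x9000003) (nat_lit 112)) (.one (nat_lit 0x900000200500800c00d400a13241801a611)) (.br (Nat.shiftLeft (nat_lit 0x2400001) (nat_lit 114)) (.one (nat_lit 0x900000300500800c00d600a13241801a611)) (.one (nat_lit 0x900000400500800c00d800a13241801a611)))) (.br (Nat.shiftLeft (nat_lit 0x5000001) (nat_lit 113)) (.one (nat_lit 0xa00000100500800c00d200a15281801a611)) (.br (Nat.shiftLeft (nat_lit 0xa000003) (nat_lit 112)) (.one (nat_lit 0xa00000200500800c00d400a15281801a611)) (.one (nat_lit 0xa00000300500800c00d600a15281801a611))))) (.br (Nat.shiftLeft (nat_lit 0xb000003) (nat_lit 112)) (.br (Nat.shiftLeft (nat_lit 0xb) (nat_lit 136)) (.one (nat_lit 0xa00000400500800c00d800a15281801a611)) (.br (Nat.shiftLeft (nat_lit 0x5800001) (nat_lit 113)) (.one (nat_lit 0xb00000100500800c00d200a172c1801a611)) (.one (nat_lit 0xb00000200500800c00d400a172c1801a611)))) (.br (Nat.shiftLeft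 (nat_lit 0x2c00001) (nat_lit 114)) (.one (nat_lit 0xb00000300500800c00d600a172c1801a611)) (.br (Nat.shiftLeft (nat_lit 0x3) (nat_lit 138)) (.one (nat_lit 0xb00000400500800c00d800a172c1801a611)) (.one (nat_lit 0xc00000100500800c00d200a19301801a611))))))
def t219 : k219.all (jb2 57 fl b0) = true := by decide +kernel
noncomputable def k220 : KT := (.br (Nat.shiftLeft (nat_lit 0x1000001) (nat_lit 125)) (.br (Nat.shiftLeft (nat_lit 0x1000001003) (nat_lit 112)) (.br (Nat.shiftLeft (nat_lit 0x3000001) (nat_lit 114)) (.br (Nat.shiftLeft (nat_lit 0xc000003) (nat_lit 112)) (.one (nat_lit 0xc00000200500800c00d400a19301801a611)) (.one (nat_lit 0xc00000300500800c00d600a19301801a611))) (.br (Nat.shiftLeft (nat_lit 0x1) (nat_lit 148)) (.one (nat_lit 0xc00000400500800c00d800a19301801a611)) (.one (nat_lit 0x100000100200500800c00d402a41003841a711)))) (.br (Nat.shiftLeft (nat_lit 0x1) (nat_lit 149)) (.br (Nat.shiftLeft (nat_lit 0x800001) (nat_lit 125)) (.one (nat_lit 0x100000100300500800c00d602a41003841a711)) (.one (nat_lit 0x100000200300500800c00d602a41005881a711)))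 (.br (Nat.shiftLeft (nat_lit 0x2000001003) (nat_lit 112)) (.one (nat_lit 0x200000100200500800c00d404a81003841a711)) (.one (nat_lit 0x200000100300500800c00d604a81003841a711))))) (.br (Nat.shiftLeft (nat_lit 0x1) (nat_lit 150)) (.br (Nat.shiftLeft (nat_lit 0x3000001003) (nat_lit 112)) (.br (Nat.shiftLeft (nat_lit 0x3) (nat_lit 148)) (.one (nat_lit 0x200000200300500800c00d604a81005881a711)) (.one (nat_lit 0x300000100200500800c00d406ac1003841a711))) (.br (Nat.shiftLeft (nat_lit 0x1800001) (nat_lit 125)) (.one (nat_lit 0x300000100300500800c00d606ac1003841a711)) (.one (nat_lit 0x300000200300500800c00d606ac1005881a711)))) (.br (Nat.shiftLeft (nat_lit 0x2000001) (nat_lit 125)) (.br (Nat.shiftLeft (nat_lit 0x4000001003) (nat_lit 112)) (.one (nat_lit 0x400000100200500800c00d408b01003841a711)) (.one (nat_lit 0x400000100300500800c00d608b01003841a711))) (.br (Nat.shiftLeft (nat_lit 0x5) (nat_lit 148)) (.one (nat_lit 0x400000200300500800c00d608b01005881a711)) (.one (nat_lit 0x500000100200500800c00d40ab41003841a711))))))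
def t220 : k220.all (jb2 57 fl b0) = true := by decide +kernel
noncomputable def k221 : KT := (.br (Nat.shiftLeft (nat_lit 0x3) (nat_lit 149)) (.br (Nat.shiftLeft (nat_lit 0x2800001) (nat_lit 125)) (.one (nat_lit 0x500000100300500800c00d60ab41003841a711)) (.one (nat_lit 0x500000200300500800c00d60ab41005881a711))) (.br (Nat.shiftLeft (nat_lit 0x6000001003) (nat_lit 112)) (.one (nat_lit 0x600000100200500800c00d40cb81003841a711)) (.one (nat_lit 0x600000100300500800c00d60cb81003841a711))))
def t221 : k221.all (jb2 57 fl b0) = true := by decide +kernel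
noncomputable def k222 : KT := (.br (Nat.shiftLeft (nat_lit 0x7000001003) (nat_lit 112)) (.br (Nat.shiftLeft (nat_lit 0x7) (nat_lit 148)) (.one (nat_lit 0x600000200300500800c00d60cb81005881a711)) (.one (nat_lit 0x700000100200500800c00d40ebc1003841a711))) (.br (Nat.shiftLeft (nat_lit 0x3800001) (nat_lit 125)) (.one (nat_lit 0x700000100300500800c00d60ebc1003841a711)) (.br (Nat.shiftLeft (nat_lit 0x1) (nat_lit 151)) (.one (nat_lit 0x700000200300500800c00d60ebc1005881a711)) (.one (nat_lit 0x800000100200500800c00d410c01003841a711)))))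
def t222 : k222.all (jb2 57 fl b0) = true := by decide +kernel
noncomputable def k223 : KT := (.br (Nat.shiftLeft (nat_lit 0x5000001) (nat_lit 125)) (.br (Nat.shiftLeft (nat_lit 0x9000001003) (nat_lit 112)) (.br (Nat.shiftLeft (nat_lit 0x4000001) (nat_lit 125)) (.one (nat_lit 0x800000100300500800c00d610c01003841a711)) (.br (Nat.shiftLeft (nat_lit 0x9) (nat_lit 148)) (.one (nat_lit 0x800000200300500800c00d610c01005881a711)) (.one (nat_lit 0x900000100200500800c00d412c41003841a711)))) (.br (Nat.shiftLeft (nat_lit 0x5) (nat_lit 149)) (.br (Nat.shiftLeft (nat_lit 0x4800001) (nat_lit 125)) (.one (nat_lit 0x900000100300500800c00d612c41003841a711)) (.one (nat_lit 0x900000200300500800c00d612c41005881a711))) (.br (Nat.shiftLeft (nat_lit 0xa000001003) (nat_lit 112)) (.one (nat_lit 0xa00000100200500800c00d414c81003841a711)) (.one (nat_lit 0xa00000100300500800c00d614c81003841a711))))) (.br (Nat.shiftLeft (nat_lit 0x5800001) (nat_lit 125)) (.br (Nat.shiftLeft (nat_lit 0xb) (nat_lit 148)) (.one (nat_lit 0xa00000200300500800c00d614c81005881a711))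 (.br (Nat.shiftLeft (nat_lit 0xb000001003) (nat_lit 112)) (.one (nat_lit 0xb00000100200500800c00d416cc1003841a711)) (.one (nat_lit 0xb00000100300500800c00d616cc1003841a711)))) (.br (Nat.shiftLeft (nat_lit 0xc000001003) (nat_lit 112)) (.br (Nat.shiftLeft (nat_lit 0x3) (nat_lit 150)) (.one (nat_lit 0xb00000200300500800c00d616cc1005881a711)) (.one (nat_lit 0xc00000100200500800c00d418d01003841a711))) (.br (Nat.shiftLeft (nat_lit 0x6000001) (nat_lit 125)) (.one (nat_lit 0xc00000100300500800c00d618d01003841a711)) (.one (nat_lit 0xc00000200300500800c00d618d01005881a711))))))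
def t223 : k223.all (jb2 57 fl b0) = true := by decide +kernel
noncomputable def s12 : KT := (.br (nat_lit 0x600000100500800c00d200a0d181801a611) (.br (nat_lit 0x600000500800c00d000a0100d981a511) (.br (nat_lit 0x300000500800c00d000a010078c1a511) (.br (nat_lit 0x200300500800c00d600a01005881b700) k206 k207) (.br (nat_lit 0x400000500800c00d000a01009901a511) k208 k209)) (.br (nat_lit 0x100000400500800c00d800a03041801a611) (.br (nat_lit 0x800000500800c00d000a01011a01a511) k210 k211) (.br (nat_lit 0x400000300500800c00d600a09101801a611) k212 (.br (nat_lit 0x500000300500800c00d600a0b141801a611) k213 k214)))) (.br (nat_lit 0x900000100500800c00d200a13241801a611) (.br (nat_lit 0x700000200500800c00d400a0f1c1801a611) (.br (nat_lit 0x600000400500800c00d800a0d181801a611) k215 k216) (.br (nat_lit 0x800000100500800c00d200a11201801a611) k217 k218)) (.br (nat_lit 0x500000100200500800c00d40ab41003841a711) (.br (nat_lit 0xc00000100500800c00d200a19301801a611) k219 k220) (.br (nat_lit 0x600000100300500800c00d60cb81003841a711) k221 (.br (nat_lit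 0x800000100200500800c00d410c01003841a711) k222 k223)))))
noncomputable def u12 : KT := (.one (nat_lit 0x500800c00d000a01001801a540))
def w12 : u12.all (wj 57 s12) = true := by decide +kernel
def o12 : OkW 57 (jb2 57 fl) u12 := .lift s12 _ (.br _ _ _ (.br _ _ _ (.br _ _ _ (.br _ _ _ (.leaf b0 k206 t206) (.leaf b0 k207 t207)) (.br _ _ _ (.leaf b0 k208 t208) (.leaf b0 k209 t209))) (.br _ _ _ (.br _ _ _ (.leaf b0 k210 t210) (.leaf b0 k211 t211)) (.br _ _ _ (.leaf b0 k212 t212) (.br _ _ _ (.leaf b0 k213 t213) (.leaf b0 k214 t214))))) (.br _ _ _ (.br _ _ _ (.br _ _ _ (.leaf b0 k215 t215) (.leaf b0 k216 t216)) (.br _ _ _ (.leaf b0 k217 t217) (.leaf b0 k218 t218))) (.br _ _ _ (.br _ _ _ (.leaf b0 k219 t219) (.leaf b0 k220 t220)) (.br _ _ _ (.leaf b0 k221 t221) (.br _ _ _ (.leaf b0 k222 t222) (.leaf b0 k223 t223)))))) w12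
noncomputable def k224 : KT := (.br (Nat.shiftLeft (nat_lit 0x300500800c00f) (nat_lit 64)) (.br (Nat.shiftLeft (nat_lit 0x100500800c00f) (nat_lit 64)) (.br (Nat.shiftLeft (nat_lit 0x500800c00f) (nat_lit 64)) (.one (nat_lit 0x500800c00e000a01001801d500)) (.br (Nat.shiftLeft (nat_lit 0x1) (nat_lit 112)) (.one (nat_lit 0x500800c00f000a01001801f500)) (.one (nat_lit 0x100500800c00e200a01001801d600)))) (.br (Nat.shiftLeft (nat_lit 0x200500800c00f) (nat_lit 64)) (.br (Nat.shiftLeft (nat_lit 0x1) (nat_lit 113)) (.one (nat_lit 0x100500800c00f200a01001801f600)) (.one (nat_lit 0x200500800c00e400a01001801d600))) (.br (Nat.shiftLeft (nat_lit 0x3) (nat_lit 112)) (.one (nat_lit 0x200500800c00f400a01001801f600)) (.one (nat_lit 0x300500800c00e600a01001801d600))))) (.br (Nat.shiftLeft (nat_lit 0x1) (nat_lit 124)) (.br (Nat.shiftLeft (nat_lit 0x1) (nat_lit 114)) (.one (nat_lit 0x300500800c00f600a01001801f600)) (.br (Nat.shiftLeft (nat_lit 0x400500800c00f) (nat_lit 64)) (.one (nat_lit 0x400500800c00e800a01001801d600)) (.one (nat_lit 0x400500800c00f800a01001801f600))))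 (.br (Nat.shiftLeft (nat_lit 0x801) (nat_lit 113)) (.br (Nat.shiftLeft (nat_lit 0x100000500800c00f) (nat_lit 64)) (.one (nat_lit 0x100000500800c00e000a01003841c511)) (.one (nat_lit 0x100000500800c00f000a01003841e511))) (.br (Nat.shiftLeft (nat_lit 0x100200500800c00f) (nat_lit 64)) (.one (nat_lit 0x100200500800c00e400a01003841d700)) (.one (nat_lit 0x100200500800c00f400a01003841e760))))))
def t224 : k224.all (jb2 57 fl b0) = true := by decide +kernel
noncomputable def k225 : KT := (.one (nat_lit 0x100300500800c00e600a01003841c760))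
def t225 : k225.all (jb2 57 fl b0) = true := by decide +kernel
noncomputable def k226 : KT := (.one (nat_lit 0x100300500800c00f600a01003841e760))
def t226 : k226.all (jb2 57 fl b0) = true := by decide +kernel
noncomputable def k227 : KT := (.br (Nat.shiftLeft (nat_lit 0x1) (nat_lit 125)) (.br (Nat.shiftLeft (nat_lit 0x100400500800c00f) (nat_lit 64)) (.one (nat_lit 0x100400500800c00e800a01003841c760)) (.one (nat_lit 0x100400500800c00f800a01003841e760))) (.br (Nat.shiftLeft (nat_lit 0x200000500800c00f) (nat_lit 64)) (.one (nat_lit 0x200000500800c00e000a01005881c511)) (.one (nat_lit 0x200000500800c00f000a01005881e511))))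
def t227 : k227.all (jb2 57 fl b0) = true := by decide +kernel
noncomputable def k228 : KT := (.one (nat_lit 0x200300500800c00e600a01005881c760))
def t228 : k228.all (jb2 57 fl b0) = true := by decide +kernel
noncomputable def k229 : KT := (.one (nat_lit 0x200300500800c00f600a01005881e760))
def t229 : k229.all (jb2 57 fl b0) = true := by decide +kernel
noncomputable def k230 : KT := (.one (nat_lit 0x200400500800c00e800a01005881c760))
def t230 : k230.all (jb2 57 fl b0) = true := by decide +kernel
noncomputable def k231 : KT := (.br (Nat.shiftLeft (nat_lit 0x3) (nat_lit 124)) (.one (nat_lit 0x200400500800c00f800a01005881e760)) (.br (Nat.shiftLeft (nat_lit 0x300000500800c00f) (nat_lit 64)) (.one (nat_lit 0x300000500800c00e000a010078c1c511)) (.one (nat_lit 0x300000500800c00f000a010078c1e511))))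
def t231 : k231.all (jb2 57 fl b0) = true := by decide +kernel
noncomputable def k232 : KT := (.br (Nat.shiftLeft (nat_lit 0x300400500800c00f) (nat_lit 64)) (.one (nat_lit 0x300400500800c00e800a010078c1c760)) (.one (nat_lit 0x300400500800c00f800a010078c1e760)))
def t232 : k232.all (jb2 57 fl b0) = true := by decide +kernel
noncomputable def k233 : KT := (.br (Nat.shiftLeft (nat_lit 0x5) (nat_lit 124)) (.br (Nat.shiftLeft (nat_lit 0x400000500800c00f) (nat_lit 64)) (.one (nat_lit 0x400000500800c00e000a01009901c511)) (.one (nat_lit 0x400000500800c00f000a01009901e511))) (.br (Nat.shiftLeft (nat_lit 0x500000500800c00f) (nat_lit 64)) (.one (nat_lit 0x500000500800c00e000a0100b941c511)) (.br (Nat.shiftLeft (nat_lit 0x3) (nat_lit 125)) (.one (nat_lit 0x500000500800c00f000a0100b941e511)) (.one (nat_lit 0x600000500800c00e000a0100d981c511)))))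
def t233 : k233.all (jb2 57 fl b0) = true := by decide +kernel
noncomputable def k234 : KT := (.br (Nat.shiftLeft (nat_lit 0x7) (nat_lit 124)) (.one (nat_lit 0x600000500800c00f000a0100d981e511)) (.br (Nat.shiftLeft (nat_lit 0x700000500800c00f) (nat_lit 64)) (.one (nat_lit 0x700000500800c00e000a0100f9c1c511)) (.one (nat_lit 0x700000500800c00f000a0100f9c1e511))))
def t234 : k234.all (jb2 57 fl b0) = true := by decide +kernel
noncomputable def k235 : KT := (.br (Nat.shiftLeft (nat_lit 0x9) (nat_lit 124)) (.br (Nat.shiftLeft (nat_lit 0x800000500800c00f) (nat_lit 64)) (.one (nat_lit 0x800000500800c00e000a01011a01c511)) (.one (nat_lit 0x800000500800c00f000a01011a01e511))) (.br (Nat.shiftLeft (nat_lit 0x900000500800c00f) (nat_lit 64)) (.one (nat_lit 0x900000500800c00e000a01013a41c511)) (.one (nat_lit 0x900000500800c00f000a01013a41e511))))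
noncomputable def b236 : BT := .node (nat_lit 0x1) (nat_lit 0x5146da258c0049da000ac6010008700028) .leaf .leaf
def t235 : k235.all (jb2 57 fl b236) = true := by decide +kernel
noncomputable def k236 : KT := (.br (Nat.shiftLeft (nat_lit 0x1000001) (nat_lit 113)) (.br (Nat.shiftLeft (nat_lit 0x800001) (nat_lit 113)) (.br (Nat.shiftLeft (nat_lit 0x3) (nat_lit 126)) (.br (Nat.shiftLeft (nat_lit 0xb) (nat_lit 124)) (.br (Nat.shiftLeft (nat_lit 0xa00000500800c00f) (nat_lit 64)) (.one (nat_lit 0xa00000500800c00e000a01015a81c511)) (.one (nat_lit 0xa00000500800c00f000a01015a81e511))) (.br (Nat.shiftLeft (nat_lit 0xb00000500800c00f) (nat_lit 64)) (.one (nat_lit 0xb00000500800c00e000a01017ac1c511)) (.one (nat_lit 0xb00000500800c00f000a01017ac1e511)))) (.br (Nat.shiftLeft (nat_lit 0x1) (nat_lit 136)) (.br (Nat.shiftLeft (nat_lit 0xc00000500800c00f) (nat_lit 64)) (.one (nat_lit 0xc00000500800c00e000a01019b01c511)) (.one (nat_lit 0xc00000500800c00f000a01019b01e511))) (.br (Nat.shiftLeft (nat_lit 0x100000100500800c00f) (nat_lit 64))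 (.one (nat_lit 0x100000100500800c00e200a03041801c611)) (.one (nat_lit 0x100000100500800c00f200a03041801e611))))) (.br (Nat.shiftLeft (nat_lit 0x400001) (nat_lit 114)) (.br (Nat.shiftLeft (nat_lit 0x1000003) (nat_lit 112)) (.br (Nat.shiftLeft (nat_lit 0x100000200500800c00f) (nat_lit 64)) (.one (nat_lit 0x100000200500800c00e400a03041801c611)) (.one (nat_lit 0x100000200500800c00f400a03041801e611))) (.br (Nat.shiftLeft (nat_lit 0x100000300500800c00f) (nat_lit 64)) (.one (nat_lit 0x100000300500800c00e600a03041801c611)) (.one (nat_lit 0x100000300500800c00f600a03041801e611)))) (.br (Nat.shiftLeft (nat_lit 0x1) (nat_lit 137)) (.br (Nat.shiftLeft (nat_lit 0x100000400500800c00f) (nat_lit 64)) (.one (nat_lit 0x100000400500800c00e800a03041801c611)) (.one (nat_lit 0x100000400500800c00f800a03041801e611))) (.br (Nat.shiftLeft (nat_lit 0x200000100500800c00f) (nat_lit 64)) (.one (nat_lit 0x200000100500800c00e200a05081801c611)) (.one (nat_lit 0x200000100500800c00f200a05081801e611)))))) (.br (Nat.shiftLeft (nat_lit 0x1800001) (nat_lit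 113)) (.br (Nat.shiftLeft (nat_lit 0x800001) (nat_lit 114)) (.br (Nat.shiftLeft (nat_lit 0x2000003) (nat_lit 112)) (.br (Nat.shiftLeft (nat_lit 0x200000200500800c00f) (nat_lit 64)) (.one (nat_lit 0x200000200500800c00e400a05081801c611)) (.one (nat_lit 0x200000200500800c00f400a05081801e611))) (.br (Nat.shiftLeft (nat_lit 0x200000300500800c00f) (nat_lit 64)) (.one (nat_lit 0x200000300500800c00e600a05081801c611)) (.one (nat_lit 0x200000300500800c00f600a05081801e611)))) (.br (Nat.shiftLeft (nat_lit 0x3) (nat_lit 136)) (.br (Nat.shiftLeft (nat_lit 0x200000400500800c00f) (nat_lit 64)) (.one (nat_lit 0x200000400500800c00e800a05081801c611)) (.one (nat_lit 0x200000400500800c00f800a05081801e611))) (.br (Nat.shiftLeft (nat_lit 0x300000100500800c00f) (nat_lit 64)) (.one (nat_lit 0x300000100500800c00e200a070c1801c611)) (.one (nat_lit 0x300000100500800c00f200a070c1801e611))))) (.br (Nat.shiftLeft (nat_lit 0xc00001) (nat_lit 114)) (.br (Nat.shiftLeft (nat_lit 0x3000003) (nat_lit 112)) (.br (Nat.shiftLeft (nat_lit 0x300000200500800c00f)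 (nat_lit 64)) (.one (nat_lit 0x300000200500800c00e400a070c1801c611)) (.one (nat_lit 0x300000200500800c00f400a070c1801e611))) (.br (Nat.shiftLeft (nat_lit 0x300000300500800c00f) (nat_lit 64)) (.one (nat_lit 0x300000300500800c00e600a070c1801c611)) (.one (nat_lit 0x300000300500800c00f600a070c1801e611)))) (.br (Nat.shiftLeft (nat_lit 0x1) (nat_lit 138)) (.br (Nat.shiftLeft (nat_lit 0x300000400500800c00f) (nat_lit 64)) (.one (nat_lit 0x300000400500800c00e800a070c1801c611)) (.one (nat_lit 0x300000400500800c00f800a070c1801e611))) (.br (Nat.shiftLeft (nat_lit 0x400000100500800c00f) (nat_lit 64)) (.one (nat_lit 0x400000100500800c00e200a09101801c611)) (.one (nat_lit 0x400000100500800c00f200a09101801e611)))))))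
def t236 : k236.all (jb2 57 fl b0) = true := by decide +kernel
noncomputable def k237 : KT := (.br (Nat.shiftLeft (nat_lit 0x400000300500800c00f) (nat_lit 64)) (.br (Nat.shiftLeft (nat_lit 0x400000200500800c00f) (nat_lit 64)) (.one (nat_lit 0x400000200500800c00e400a09101801c611)) (.br (Nat.shiftLeft (nat_lit 0x4000003) (nat_lit 112)) (.one (nat_lit 0x400000200500800c00f400a09101801e611)) (.one (nat_lit 0x400000300500800c00e600a09101801c611)))) (.br (Nat.shiftLeft (nat_lit 0x400000400500800c00f) (nat_lit 64)) (.br (Nat.shiftLeft (nat_lit 0x1000001) (nat_lit 114)) (.one (nat_lit 0x400000300500800c00f600a09101801e611)) (.one (nat_lit 0x400000400500800c00e800a09101801c611))) (.br (Nat.shiftLeft (nat_lit 0x5) (nat_lit 136)) (.one (nat_lit 0x400000400500800c00f800a09101801e611)) (.one (nat_lit 0x500000100500800c00e200a0b141801c611)))))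
def t237 : k237.all (jb2 57 fl b0) = true := by decide +kernel
noncomputable def k238 : KT := (.br (Nat.shiftLeft (nat_lit 0x500000200500800c00f) (nat_lit 64)) (.br (Nat.shiftLeft (nat_lit 0x2800001) (nat_lit 113)) (.one (nat_lit 0x500000100500800c00f200a0b141801e611)) (.one (nat_lit 0x500000200500800c00e400a0b141801c611))) (.br (Nat.shiftLeft (nat_lit 0x5000003) (nat_lit 112)) (.one (nat_lit 0x500000200500800c00f400a0b141801e611)) (.one (nat_lit 0x500000300500800c00e600a0b141801c611))))
def t238 : k238.all (jb2 57 fl b0) = true := by decide +kernel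
noncomputable def k239 : KT := (.br (Nat.shiftLeft (nat_lit 0x500000400500800c00f) (nat_lit 64)) (.br (Nat.shiftLeft (nat_lit 0x1400001) (nat_lit 114)) (.one (nat_lit 0x500000300500800c00f600a0b141801e611)) (.one (nat_lit 0x500000400500800c00e800a0b141801c611))) (.br (Nat.shiftLeft (nat_lit 0x3) (nat_lit 137)) (.one (nat_lit 0x500000400500800c00f800a0b141801e611)) (.one (nat_lit 0x600000100500800c00e200a0d181801c611))))
def t239 : k239.all (jb2 57 fl b0) = true := by decide +kernel
noncomputable def k240 : KT := (.br (Nat.shiftLeft (nat_lit 0x3000001) (nat_lit 113)) (.one (nat_lit 0x600000100500800c00f200a0d181801e611)) (.br (Nat.shiftLeft (nat_lit 0x600000200500800c00f) (nat_lit 64)) (.one (nat_lit 0x600000200500800c00e400a0d181801c611)) (.one (nat_lit 0x600000200500800c00f400a0d181801e611))))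
def t240 : k240.all (jb2 57 fl b0) = true := by decide +kernel
noncomputable def k241 : KT := (.br (Nat.shiftLeft (nat_lit 0x1800001) (nat_lit 114)) (.br (Nat.shiftLeft (nat_lit 0x600000300500800c00f) (nat_lit 64)) (.one (nat_lit 0x600000300500800c00e600a0d181801c611)) (.one (nat_lit 0x600000300500800c00f600a0d181801e611))) (.br (Nat.shiftLeft (nat_lit 0x600000400500800c00f) (nat_lit 64)) (.one (nat_lit 0x600000400500800c00e800a0d181801c611)) (.one (nat_lit 0x600000400500800c00f800a0d181801e611))))
def t241 : k241.all (jb2 57 fl b0) = true := by decide +kernel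
noncomputable def k242 : KT := (.br (Nat.shiftLeft (nat_lit 0x700000100500800c00f) (nat_lit 64)) (.one (nat_lit 0x700000100500800c00e200a0f1c1801c611)) (.br (Nat.shiftLeft (nat_lit 0x3800001) (nat_lit 113)) (.one (nat_lit 0x700000100500800c00f200a0f1c1801e611)) (.one (nat_lit 0x700000200500800c00e400a0f1c1801c611))))
def t242 : k242.all (jb2 57 fl b0) = true := by decide +kernel
noncomputable def k243 : KT := (.br (Nat.shiftLeft (nat_lit 0x1c00001) (nat_lit 114)) (.br (Nat.shiftLeft (nat_lit 0x7000003) (nat_lit 112)) (.one (nat_lit 0x700000200500800c00f400a0f1c1801e611)) (.br (Nat.shiftLeft (nat_lit 0x700000300500800c00f) (nat_lit 64)) (.one (nat_lit 0x700000300500800c00e600a0f1c1801c611)) (.one (nat_lit 0x700000300500800c00f600a0f1c1801e611)))) (.br (Nat.shiftLeft (nat_lit 0x700000400500800c00f) (nat_lit 64)) (.one (nat_lit 0x700000400500800c00e800a0f1c1801c611)) (.br (Nat.shiftLeft (nat_lit 0x1) (nat_lit 139)) (.one (nat_lit 0x700000400500800c00f800a0f1c1801e611)) (.one (nat_lit 0x800000100500800c00e200a11201801c611)))))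
def t243 : k243.all (jb2 57 fl b0) = true := by decide +kernel
noncomputable def k244 : KT := (.br (Nat.shiftLeft (nat_lit 0x8000003) (nat_lit 112)) (.br (Nat.shiftLeft (nat_lit 0x4000001) (nat_lit 113)) (.one (nat_lit 0x800000100500800c00f200a11201801e611)) (.br (Nat.shiftLeft (nat_lit 0x800000200500800c00f) (nat_lit 64)) (.one (nat_lit 0x800000200500800c00e400a11201801c611)) (.one (nat_lit 0x800000200500800c00f400a11201801e611)))) (.br (Nat.shiftLeft (nat_lit 0x2000001) (nat_lit 114)) (.br (Nat.shiftLeft (nat_lit 0x800000300500800c00f) (nat_lit 64)) (.one (nat_lit 0x800000300500800c00e600a11201801c611)) (.one (nat_lit 0x800000300500800c00f600a11201801e611))) (.br (Nat.shiftLeft (nat_lit 0x800000400500800c00f) (nat_lit 64)) (.one (nat_lit 0x800000400500800c00e800a11201801c611)) (.one (nat_lit 0x800000400500800c00f800a11201801e611)))))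
def t244 : k244.all (jb2 57 fl b0) = true := by decide +kernel
noncomputable def k245 : KT := (.br (Nat.shiftLeft (nat_lit 0x2400001) (nat_lit 114)) (.br (Nat.shiftLeft (nat_lit 0x900000200500800c00f) (nat_lit 64)) (.br (Nat.shiftLeft (nat_lit 0x900000100500800c00f) (nat_lit 64)) (.one (nat_lit 0x900000100500800c00e200a13241801c611)) (.br (Nat.shiftLeft (nat_lit 0x4800001) (nat_lit 113)) (.one (nat_lit 0x900000100500800c00f200a13241801e611)) (.one (nat_lit 0x900000200500800c00e400a13241801c611)))) (.br (Nat.shiftLeft (nat_lit 0x9000003) (nat_lit 112)) (.one (nat_lit 0x900000200500800c00f400a13241801e611)) (.br (Nat.shiftLeft (nat_lit 0x900000300500800c00f) (nat_lit 64)) (.one (nat_lit 0x900000300500800c00e600a13241801c611)) (.one (nat_lit 0x900000300500800c00f600a13241801e611))))) (.br (Nat.shiftLeft (nat_lit 0xa00000100500800c00f) (nat_lit 64)) (.br (Nat.shiftLeft (nat_lit 0x900000400500800c00f) (nat_lit 64)) (.one (nat_lit 0x900000400500800c00e800a13241801c611)) (.br (Nat.shiftLeft (nat_lit 0x5) (nat_lit 137)) (.one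 (nat_lit 0x900000400500800c00f800a13241801e611)) (.one (nat_lit 0xa00000100500800c00e200a15281801c611)))) (.br (Nat.shiftLeft (nat_lit 0x5000001) (nat_lit 113)) (.one (nat_lit 0xa00000100500800c00f200a15281801e611)) (.br (Nat.shiftLeft (nat_lit 0xa00000200500800c00f) (nat_lit 64)) (.one (nat_lit 0xa00000200500800c00e400a15281801c611)) (.one (nat_lit 0xa00000200500800c00f400a15281801e611))))))
def t245 : k245.all (jb2 57 fl b0) = true := by decide +kernel
noncomputable def k246 : KT := (.br (Nat.shiftLeft (nat_lit 0x3) (nat_lit 138)) (.br (Nat.shiftLeft (nat_lit 0x5800001) (nat_lit 113)) (.br (Nat.shiftLeft (nat_lit 0xa00000400500800c00f) (nat_lit 64)) (.br (Nat.shiftLeft (nat_lit 0xa00000300500800c00f) (nat_lit 64)) (.one (nat_lit 0xa00000300500800c00e600a15281801c611)) (.br (Nat.shiftLeft (nat_lit 0x2800001) (nat_lit 114)) (.one (nat_lit 0xa00000300500800c00f600a15281801e611)) (.one (nat_lit 0xa00000400500800c00e800a15281801c611)))) (.br (Nat.shiftLeft (nat_lit 0xb) (nat_lit 136)) (.one (nat_lit 0xa00000400500800c00f800a15281801e611))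 (.br (Nat.shiftLeft (nat_lit 0xb00000100500800c00f) (nat_lit 64)) (.one (nat_lit 0xb00000100500800c00e200a172c1801c611)) (.one (nat_lit 0xb00000100500800c00f200a172c1801e611))))) (.br (Nat.shiftLeft (nat_lit 0xb00000300500800c00f) (nat_lit 64)) (.br (Nat.shiftLeft (nat_lit 0xb00000200500800c00f) (nat_lit 64)) (.one (nat_lit 0xb00000200500800c00e400a172c1801c611)) (.br (Nat.shiftLeft (nat_lit 0xb000003) (nat_lit 112)) (.one (nat_lit 0xb00000200500800c00f400a172c1801e611)) (.one (nat_lit 0xb00000300500800c00e600a172c1801c611)))) (.br (Nat.shiftLeft (nat_lit 0x2c00001) (nat_lit 114)) (.one (nat_lit 0xb00000300500800c00f600a172c1801e611)) (.br (Nat.shiftLeft (nat_lit 0xb00000400500800c00f) (nat_lit 64)) (.one (nat_lit 0xb00000400500800c00e800a172c1801c611)) (.one (nat_lit 0xb00000400500800c00f800a172c1801e611)))))) (.br (Nat.shiftLeft (nat_lit 0x3000001) (nat_lit 114)) (.br (Nat.shiftLeft (nat_lit 0xc00000200500800c00f) (nat_lit 64)) (.br (Nat.shiftLeft (nat_lit 0xc00000100500800c00f) (nat_lit 64)) (.one (nat_lit 0xc00000100500800c00e200a19301801c611))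 (.br (Nat.shiftLeft (nat_lit 0x6000001) (nat_lit 113)) (.one (nat_lit 0xc00000100500800c00f200a19301801e611)) (.one (nat_lit 0xc00000200500800c00e400a19301801c611)))) (.br (Nat.shiftLeft (nat_lit 0xc000003) (nat_lit 112)) (.one (nat_lit 0xc00000200500800c00f400a19301801e611)) (.br (Nat.shiftLeft (nat_lit 0xc00000300500800c00f) (nat_lit 64)) (.one (nat_lit 0xc00000300500800c00e600a19301801c611)) (.one (nat_lit 0xc00000300500800c00f600a19301801e611))))) (.br (Nat.shiftLeft (nat_lit 0x1) (nat_lit 149)) (.br (Nat.shiftLeft (nat_lit 0xc00000400500800c00f) (nat_lit 64)) (.one (nat_lit 0xc00000400500800c00e800a19301801c611)) (.br (Nat.shiftLeft (nat_lit 0x1) (nat_lit 148)) (.one (nat_lit 0xc00000400500800c00f800a19301801e611)) (.one (nat_lit 0x100000100200500800c00e402a41003841c711)))) (.br (Nat.shiftLeft (nat_lit 0x1) (nat_lit 150)) (.br (Nat.shiftLeft (nat_lit 0x3) (nat_lit 148)) (.one (nat_lit 0x200000100200500800c00e404a81003841c711)) (.one (nat_lit 0x300000100200500800c00e406ac1003841c711))) (.br (Nat.shiftLeft (nat_lit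 0x5) (nat_lit 148)) (.one (nat_lit 0x400000100200500800c00e408b01003841c711)) (.one (nat_lit 0x500000100200500800c00e40ab41003841c711)))))))
def t246 : k246.all (jb2 57 fl b0) = true := by decide +kernel
noncomputable def k247 : KT := (.br (Nat.shiftLeft (nat_lit 0x9) (nat_lit 148)) (.br (Nat.shiftLeft (nat_lit 0x7) (nat_lit 148)) (.one (nat_lit 0x600000100200500800c00e40cb81003841c711)) (.br (Nat.shiftLeft (nat_lit 0x1) (nat_lit 151)) (.one (nat_lit 0x700000100200500800c00e40ebc1003841c711)) (.one (nat_lit 0x800000100200500800c00e410c01003841c711)))) (.br (Nat.shiftLeft (nat_lit 0xb) (nat_lit 148)) (.br (Nat.shiftLeft (nat_lit 0x5) (nat_lit 149)) (.one (nat_lit 0x900000100200500800c00e412c41003841c711)) (.one (nat_lit 0xa00000100200500800c00e414c81003841c711))) (.br (Nat.shiftLeft (nat_lit 0x3) (nat_lit 150)) (.one (nat_lit 0xb00000100200500800c00e416cc1003841c711)) (.one (nat_lit 0xc00000100200500800c00e418d01003841c711)))))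
def t247 : k247.all (jb2 57 fl b0) = true := by decide +kernel
noncomputable def s13 : KT := (.br (nat_lit 0x900000500800c00f000a01013a41e511) (.br (nat_lit 0x200300500800c00f600a01005881e760) (.br (nat_lit 0x100300500800c00f600a01003841e760) (.br (nat_lit 0x100200500800c00f400a01003841e760) k224 (.br (nat_lit 0x100300500800c00e600a01003841c760) k225 k226)) (.br (nat_lit 0x200000500800c00f000a01005881e511) k227 (.br (nat_lit 0x200300500800c00e600a01005881c760) k228 k229))) (.br (nat_lit 0x300400500800c00f800a010078c1e760) (.br (nat_lit 0x200400500800c00e800a01005881c760) k230 (.br (nat_lit 0x300000500800c00f000a010078c1e511) k231 k232)) (.br (nat_lit 0x600000500800c00e000a0100d981c511) k233 (.br (nat_lit 0x700000500800c00f000a0100f9c1e511) k234 k235)))) (.br (nat_lit 0x600000400500800c00f800a0d181801e611) (.br (nat_lit 0x500000300500800c00e600a0b141801c611) (.br (nat_lit 0x400000100500800c00f200a09101801e611) k236 (.br (nat_lit 0x500000100500800c00e200a0b141801c611) k237 k238)) (.br (nat_lit 0x600000100500800c00e200a0d181801c611)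 k239 (.br (nat_lit 0x600000200500800c00f400a0d181801e611) k240 k241))) (.br (nat_lit 0x800000400500800c00f800a11201801e611) (.br (nat_lit 0x700000200500800c00e400a0f1c1801c611) k242 (.br (nat_lit 0x800000100500800c00e200a11201801c611) k243 k244)) (.br (nat_lit 0xa00000200500800c00f400a15281801e611) k245 (.br (nat_lit 0x500000100200500800c00e40ab41003841c711) k246 k247)))))
noncomputable def u13 : KT := (.br (Nat.shiftLeft (nat_lit 0x500800c00f) (nat_lit 64)) (.one (nat_lit 0x500800c00e000a01001801c540)) (.one (nat_lit 0x500800c00f000a01001801e540)))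
def w13 : u13.all (wj 57 s13) = true := by decide +kernel
def o13 : OkW 57 (jb2 57 fl) u13 := .lift s13 _ (.br _ _ _ (.br _ _ _ (.br _ _ _ (.br _ _ _ (.leaf b0 k224 t224) (.br _ _ _ (.leaf b0 k225 t225) (.leaf b0 k226 t226))) (.br _ _ _ (.leaf b0 k227 t227) (.br _ _ _ (.leaf b0 k228 t228) (.leaf b0 k229 t229)))) (.br _ _ _ (.br _ _ _ (.leaf b0 k230 t230) (.br _ _ _ (.leaf b0 k231 t231) (.leaf b0 k232 t232))) (.br _ _ _ (.leaf b0 k233 t233) (.br _ _ _ (.leaf b0 k234 t234) (.leaf b236 k235 t235))))) (.br _ _ _ (.br _ _ _ (.br _ _ _ (.leaf b0 k236 t236) (.br _ _ _ (.leaf b0 k237 t237) (.leaf b0 k238 t238))) (.br _ _ _ (.leaf b0 k239 t239) (.br _ _ _ (.leaf b0 k240 t240) (.leaf b0 k241 t241)))) (.br _ _ _ (.br _ _ _ (.leaf b0 k242 t242) (.br _ _ _ (.leaf b0 k243 t243) (.leaf b0 k244 t244))) (.br _ _ _ (.leaf b0 k245 t245) (.br _ _ _ (.leaf b0 k246 t246) (.leaf b0 k247 t247)))))) w13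
noncomputable def k248 : KT := (.br (Nat.shiftLeft (nat_lit 0x500800d) (nat_lit 76)) (.br (Nat.shiftLeft (nat_lit 0x500800c011) (nat_lit 64)) (.one (nat_lit 0x500800c010000a010018021500)) (.one (nat_lit 0x500800c011000a010018023500))) (.br (Nat.shiftLeft (nat_lit 0x1) (nat_lit 112)) (.one (nat_lit 0x500800d00e000a01001a01d500)) (.one (nat_lit 0x100500800c010200a010018020650))))
def t248 : k248.all (jb2 57 fl b0) = true := by decide +kernel
noncomputable def k249 : KT := (.br (Nat.shiftLeft (nat_lit 0x100500800d) (nat_lit 76)) (.one (nat_lit 0x100500800c011200a010018022650)) (.br (Nat.shiftLeft (nat_lit 0x1) (nat_lit 113)) (.one (nat_lit 0x100500800d00e200a01001a01d600)) (.one (nat_lit 0x200500800c010400a010018021600))))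
def t249 : k249.all (jb2 57 fl b0) = true := by decide +kernel
noncomputable def k250 : KT := (.br (Nat.shiftLeft (nat_lit 0x200500800d) (nat_lit 76)) (.one (nat_lit 0x200500800c011400a010018022650)) (.br (Nat.shiftLeft (nat_lit 0x3) (nat_lit 112)) (.one (nat_lit 0x200500800d00e400a01001a01d600)) (.one (nat_lit 0x300500800c010600a010018021600))))
def t250 : k250.all (jb2 57 fl b0) = true := by decide +kernel
noncomputable def k251 : KT := (.br (Nat.shiftLeft (nat_lit 0x300500800d) (nat_lit 76)) (.one (nat_lit 0x300500800c011600a010018022650)) (.br (Nat.shiftLeft (nat_lit 0x1) (nat_lit 114)) (.one (nat_lit 0x300500800d00e600a01001a01d600)) (.one (nat_lit 0x400500800c010800a010018021600))))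
def t251 : k251.all (jb2 57 fl b0) = true := by decide +kernel
noncomputable def k252 : KT := (.br (Nat.shiftLeft (nat_lit 0x1) (nat_lit 124)) (.br (Nat.shiftLeft (nat_lit 0x400500800d) (nat_lit 76)) (.one (nat_lit 0x400500800c011800a010018022650)) (.one (nat_lit 0x400500800d00e800a01001a01d600))) (.br (Nat.shiftLeft (nat_lit 0x100000500800c011) (nat_lit 64)) (.one (nat_lit 0x100000500800c010000a010038420511)) (.br (Nat.shiftLeft (nat_lit 0x100000500800d) (nat_lit 76)) (.one (nat_lit 0x100000500800c011000a010038422511)) (.one (nat_lit 0x100000500800d00e000a01003a41c511)))))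
def t252 : k252.all (jb2 57 fl b0) = true := by decide +kernel
noncomputable def k253 : KT := (.one (nat_lit 0x100200500800c010400a010038420760))
def t253 : k253.all (jb2 57 fl b0) = true := by decide +kernel
noncomputable def k254 : KT := (.one (nat_lit 0x100200500800d00e400a01003a41c760))
def t254 : k254.all (jb2 57 fl b0) = true := by decide +kernel
noncomputable def k255 : KT := (.br (Nat.shiftLeft (nat_lit 0x100300500800d) (nat_lit 76)) (.one (nat_lit 0x100300500800c010600a010038420760)) (.one (nat_lit 0x100300500800d00e600a01003a41c760)))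
def t255 : k255.all (jb2 57 fl b0) = true := by decide +kernel
noncomputable def k256 : KT := (.br (Nat.shiftLeft (nat_lit 0x200000500800c011) (nat_lit 64)) (.br (Nat.shiftLeft (nat_lit 0x100400500800d) (nat_lit 76)) (.one (nat_lit 0x100400500800c010800a010038420760)) (.br (Nat.shiftLeft (nat_lit 0x1) (nat_lit 125)) (.one (nat_lit 0x100400500800d00e800a01003a41c760)) (.one (nat_lit 0x200000500800c010000a010058820511)))) (.br (Nat.shiftLeft (nat_lit 0x200000500800d) (nat_lit 76)) (.one (nat_lit 0x200000500800c011000a010058822511)) (.br (Nat.shiftLeft (nat_lit 0x1001) (nat_lit 113)) (.one (nat_lit 0x200000500800d00e000a01005a81c511)) (.one (nat_lit 0x200300500800c010600a010058820760)))))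
def t256 : k256.all (jb2 57 fl b0) = true := by decide +kernel
noncomputable def k257 : KT := (.br (Nat.shiftLeft (nat_lit 0x801) (nat_lit 114)) (.one (nat_lit 0x200300500800d00e600a01005a81c760)) (.one (nat_lit 0x200400500800c010800a010058820760)))
def t257 : k257.all (jb2 57 fl b0) = true := by decide +kernel
noncomputable def k258 : KT := (.br (Nat.shiftLeft (nat_lit 0x300000500800c011) (nat_lit 64)) (.br (Nat.shiftLeft (nat_lit 0x3) (nat_lit 124)) (.one (nat_lit 0x200400500800d00e800a01005a81c760)) (.one (nat_lit 0x300000500800c010000a010078c20511))) (.br (Nat.shiftLeft (nat_lit 0x300000500800d) (nat_lit 76)) (.one (nat_lit 0x300000500800c011000a010078c22511)) (.br (Nat.shiftLeft (nat_lit 0xc01) (nat_lit 114)) (.one (nat_lit 0x300000500800d00e000a01007ac1c511)) (.one (nat_lit 0x300400500800c010800a010078c20760)))))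
def t258 : k258.all (jb2 57 fl b0) = true := by decide +kernel
noncomputable def k259 : KT := (.br (Nat.shiftLeft (nat_lit 0x400000500800d) (nat_lit 76)) (.br (Nat.shiftLeft (nat_lit 0x1) (nat_lit 126)) (.one (nat_lit 0x300400500800d00e800a01007ac1c760)) (.br (Nat.shiftLeft (nat_lit 0x400000500800c011) (nat_lit 64)) (.one (nat_lit 0x400000500800c010000a010099020511)) (.one (nat_lit 0x400000500800c011000a010099022511)))) (.br (Nat.shiftLeft (nat_lit 0x5) (nat_lit 124)) (.one (nat_lit 0x400000500800d00e000a01009b01c511)) (.br (Nat.shiftLeft (nat_lit 0x500000500800c011) (nat_lit 64)) (.one (nat_lit 0x500000500800c010000a0100b9420511)) (.one (nat_lit 0x500000500800c011000a0100b9422511)))))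
def t259 : k259.all (jb2 57 fl b0) = true := by decide +kernel
noncomputable def k260 : KT := (.br (Nat.shiftLeft (nat_lit 0x600000500800c011) (nat_lit 64)) (.br (Nat.shiftLeft (nat_lit 0x3) (nat_lit 125)) (.one (nat_lit 0x500000500800d00e000a0100bb41c511)) (.one (nat_lit 0x600000500800c010000a0100d9820511))) (.br (Nat.shiftLeft (nat_lit 0x600000500800d) (nat_lit 76)) (.one (nat_lit 0x600000500800c011000a0100d9822511)) (.br (Nat.shiftLeft (nat_lit 0x7) (nat_lit 124)) (.one (nat_lit 0x600000500800d00e000a0100db81c511)) (.one (nat_lit 0x700000500800c010000a0100f9c20511)))))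
def t260 : k260.all (jb2 57 fl b0) = true := by decide +kernel
noncomputable def k261 : KT := (.br (Nat.shiftLeft (nat_lit 0x800000500800c011) (nat_lit 64)) (.br (Nat.shiftLeft (nat_lit 0x700000500800d) (nat_lit 76)) (.one (nat_lit 0x700000500800c011000a0100f9c22511)) (.br (Nat.shiftLeft (nat_lit 0x1) (nat_lit 127)) (.one (nat_lit 0x700000500800d00e000a0100fbc1c511)) (.one (nat_lit 0x800000500800c010000a01011a020511)))) (.br (Nat.shiftLeft (nat_lit 0x9) (nat_lit 124)) (.br (Nat.shiftLeft (nat_lit 0x800000500800d) (nat_lit 76)) (.one (nat_lit 0x800000500800c011000a01011a022511)) (.one (nat_lit 0x800000500800d00e000a01011c01c511))) (.br (Nat.shiftLeft (nat_lit 0x900000500800c011) (nat_lit 64)) (.one (nat_lit 0x900000500800c010000a01013a420511)) (.one (nat_lit 0x900000500800c011000a01013a422511)))))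
def t261 : k261.all (jb2 57 fl b0) = true := by decide +kernel
noncomputable def k262 : KT := (.br (Nat.shiftLeft (nat_lit 0x100000400500800d) (nat_lit 76)) (.br (Nat.shiftLeft (nat_lit 0xc00000500800c011) (nat_lit 64)) (.br (Nat.shiftLeft (nat_lit 0xb) (nat_lit 124)) (.br (Nat.shiftLeft (nat_lit 0xa00000500800c011) (nat_lit 64)) (.br (Nat.shiftLeft (nat_lit 0x5) (nat_lit 125)) (.one (nat_lit 0x900000500800d00e000a01013c41c511)) (.one (nat_lit 0xa00000500800c010000a01015a820511))) (.br (Nat.shiftLeft (nat_lit 0xa00000500800d) (nat_lit 76)) (.one (nat_lit 0xa00000500800c011000a01015a822511)) (.one (nat_lit 0xa00000500800d00e000a01015c81c511)))) (.br (Nat.shiftLeft (nat_lit 0xb00000500800d) (nat_lit 76)) (.br (Nat.shiftLeft (nat_lit 0xb00000500800c011) (nat_lit 64)) (.one (nat_lit 0xb00000500800c010000a01017ac20511)) (.one (nat_lit 0xb00000500800c011000a01017ac22511))) (.br (Nat.shiftLeft (nat_lit 0x3) (nat_lit 126)) (.one (nat_lit 0xb00000500800d00e000a01017cc1c511)) (.one (nat_lit 0xc00000500800c010000a01019b020511)))))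 (.br (Nat.shiftLeft (nat_lit 0x800001) (nat_lit 113)) (.br (Nat.shiftLeft (nat_lit 0xd) (nat_lit 124)) (.br (Nat.shiftLeft (nat_lit 0xc00000500800d) (nat_lit 76)) (.one (nat_lit 0xc00000500800c011000a01019b022511)) (.one (nat_lit 0xc00000500800d00e000a01019d01c511))) (.br (Nat.shiftLeft (nat_lit 0x1) (nat_lit 136)) (.one (nat_lit 0xd00000500800d00e000a0101bd41c511)) (.one (nat_lit 0x100000100500800d00e200a03041a01c611)))) (.br (Nat.shiftLeft (nat_lit 0x1000003) (nat_lit 112)) (.br (Nat.shiftLeft (nat_lit 0x100000200500800d) (nat_lit 76)) (.one (nat_lit 0x100000200500800c010400a030418020611)) (.one (nat_lit 0x100000200500800d00e400a03041a01c611))) (.br (Nat.shiftLeft (nat_lit 0x100000300500800d) (nat_lit 76)) (.one (nat_lit 0x100000300500800c010600a030418020611)) (.br (Nat.shiftLeft (nat_lit 0x400001) (nat_lit 114)) (.one (nat_lit 0x100000300500800d00e600a03041a01c611)) (.one (nat_lit 0x100000400500800c010800a030418020611))))))) (.br (Nat.shiftLeft (nat_lit 0x3) (nat_lit 136)) (.br (Nat.shiftLeft (nat_lit 0x2000003)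 (nat_lit 112)) (.br (Nat.shiftLeft (nat_lit 0x1000001) (nat_lit 113)) (.br (Nat.shiftLeft (nat_lit 0x1) (nat_lit 137)) (.one (nat_lit 0x100000400500800d00e800a03041a01c611)) (.one (nat_lit 0x200000100500800d00e200a05081a01c611))) (.br (Nat.shiftLeft (nat_lit 0x200000200500800d) (nat_lit 76)) (.one (nat_lit 0x200000200500800c010400a050818020611)) (.one (nat_lit 0x200000200500800d00e400a05081a01c611)))) (.br (Nat.shiftLeft (nat_lit 0x800001) (nat_lit 114)) (.br (Nat.shiftLeft (nat_lit 0x200000300500800d) (nat_lit 76)) (.one (nat_lit 0x200000300500800c010600a050818020611)) (.one (nat_lit 0x200000300500800d00e600a05081a01c611))) (.br (Nat.shiftLeft (nat_lit 0x200000400500800d) (nat_lit 76)) (.one (nat_lit 0x200000400500800c010800a050818020611)) (.one (nat_lit 0x200000400500800d00e800a05081a01c611))))) (.br (Nat.shiftLeft (nat_lit 0x300000300500800d) (nat_lit 76)) (.br (Nat.shiftLeft (nat_lit 0x300000200500800d) (nat_lit 76)) (.br (Nat.shiftLeft (nat_lit 0x1800001) (nat_lit 113)) (.one (nat_lit 0x300000100500800d00e200a070c1a01c611))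 (.one (nat_lit 0x300000200500800c010400a070c18020611))) (.br (Nat.shiftLeft (nat_lit 0x3000003) (nat_lit 112)) (.one (nat_lit 0x300000200500800d00e400a070c1a01c611)) (.one (nat_lit 0x300000300500800c010600a070c18020611)))) (.br (Nat.shiftLeft (nat_lit 0x300000400500800d) (nat_lit 76)) (.br (Nat.shiftLeft (nat_lit 0xc00001) (nat_lit 114)) (.one (nat_lit 0x300000300500800d00e600a070c1a01c611)) (.one (nat_lit 0x300000400500800c010800a070c18020611))) (.br (Nat.shiftLeft (nat_lit 0x1) (nat_lit 138)) (.one (nat_lit 0x300000400500800d00e800a070c1a01c611)) (.br (Nat.shiftLeft (nat_lit 0x2000001) (nat_lit 113)) (.one (nat_lit 0x400000100500800d00e200a09101a01c611)) (.one (nat_lit 0x400000200500800c010400a091018020611))))))))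
def t262 : k262.all (jb2 57 fl b0) = true := by decide +kernel
noncomputable def k263 : KT := (.br (Nat.shiftLeft (nat_lit 0x400000400500800d) (nat_lit 76)) (.br (Nat.shiftLeft (nat_lit 0x400000300500800d) (nat_lit 76)) (.br (Nat.shiftLeft (nat_lit 0x4000003) (nat_lit 112)) (.one (nat_lit 0x400000200500800d00e400a09101a01c611)) (.one (nat_lit 0x400000300500800c010600a091018020611))) (.br (Nat.shiftLeft (nat_lit 0x1000001) (nat_lit 114)) (.one (nat_lit 0x400000300500800d00e600a09101a01c611)) (.one (nat_lit 0x400000400500800c010800a091018020611)))) (.br (Nat.shiftLeft (nat_lit 0x2800001) (nat_lit 113)) (.br (Nat.shiftLeft (nat_lit 0x5) (nat_lit 136)) (.one (nat_lit 0x400000400500800d00e800a09101a01c611)) (.one (nat_lit 0x500000100500800d00e200a0b141a01c611))) (.br (Nat.shiftLeft (nat_lit 0x500000200500800d) (nat_lit 76)) (.one (nat_lit 0x500000200500800c010400a0b1418020611)) (.one (nat_lit 0x500000200500800d00e400a0b141a01c611)))))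
def t263 : k263.all (jb2 57 fl b0) = true := by decide +kernel
noncomputable def k264 : KT := (.br (Nat.shiftLeft (nat_lit 0x500000400500800d) (nat_lit 76)) (.br (Nat.shiftLeft (nat_lit 0x500000300500800d) (nat_lit 76)) (.one (nat_lit 0x500000300500800c010600a0b1418020611)) (.br (Nat.shiftLeft (nat_lit 0x1400001) (nat_lit 114)) (.one (nat_lit 0x500000300500800d00e600a0b141a01c611)) (.one (nat_lit 0x500000400500800c010800a0b1418020611)))) (.br (Nat.shiftLeft (nat_lit 0x3) (nat_lit 137)) (.one (nat_lit 0x500000400500800d00e800a0b141a01c611)) (.br (Nat.shiftLeft (nat_lit 0x3000001) (nat_lit 113)) (.one (nat_lit 0x600000100500800d00e200a0d181a01c611)) (.one (nat_lit 0x600000200500800c010400a0d1818020611)))))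
def t264 : k264.all (jb2 57 fl b0) = true := by decide +kernel
noncomputable def k265 : KT := (.br (Nat.shiftLeft (nat_lit 0x1800001) (nat_lit 114)) (.br (Nat.shiftLeft (nat_lit 0x6000003) (nat_lit 112)) (.one (nat_lit 0x600000200500800d00e400a0d181a01c611)) (.br (Nat.shiftLeft (nat_lit 0x600000300500800d) (nat_lit 76)) (.one (nat_lit 0x600000300500800c010600a0d1818020611)) (.one (nat_lit 0x600000300500800d00e600a0d181a01c611)))) (.br (Nat.shiftLeft (nat_lit 0x7) (nat_lit 136)) (.br (Nat.shiftLeft (nat_lit 0x600000400500800d) (nat_lit 76)) (.one (nat_lit 0x600000400500800c010800a0d1818020611)) (.one (nat_lit 0x600000400500800d00e800a0d181a01c611))) (.br (Nat.shiftLeft (nat_lit 0x3800001) (nat_lit 113)) (.one (nat_lit 0x700000100500800d00e200a0f1c1a01c611)) (.one (nat_lit 0x700000200500800c010400a0f1c18020611)))))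
def t265 : k265.all (jb2 57 fl b0) = true := by decide +kernel
noncomputable def k266 : KT := (.br (Nat.shiftLeft (nat_lit 0x4000001) (nat_lit 113)) (.br (Nat.shiftLeft (nat_lit 0x1c00001) (nat_lit 114)) (.br (Nat.shiftLeft (nat_lit 0x7000003) (nat_lit 112)) (.one (nat_lit 0x700000200500800d00e400a0f1c1a01c611)) (.br (Nat.shiftLeft (nat_lit 0x700000300500800d) (nat_lit 76)) (.one (nat_lit 0x700000300500800c010600a0f1c18020611)) (.one (nat_lit 0x700000300500800d00e600a0f1c1a01c611)))) (.br (Nat.shiftLeft (nat_lit 0x700000400500800d) (nat_lit 76)) (.one (nat_lit 0x700000400500800c010800a0f1c18020611)) (.br (Nat.shiftLeft (nat_lit 0x1) (nat_lit 139)) (.one (nat_lit 0x700000400500800d00e800a0f1c1a01c611)) (.one (nat_lit 0x800000100500800d00e200a11201a01c611))))) (.br (Nat.shiftLeft (nat_lit 0x800000300500800d) (nat_lit 76)) (.br (Nat.shiftLeft (nat_lit 0x800000200500800d) (nat_lit 76)) (.one (nat_lit 0x800000200500800c010400a112018020611)) (.br (Nat.shiftLeft (nat_lit 0x8000003) (nat_lit 112)) (.one (nat_lit 0x800000200500800d00e400a11201a01c611))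 (.one (nat_lit 0x800000300500800c010600a112018020611)))) (.br (Nat.shiftLeft (nat_lit 0x2000001) (nat_lit 114)) (.one (nat_lit 0x800000300500800d00e600a11201a01c611)) (.br (Nat.shiftLeft (nat_lit 0x800000400500800d) (nat_lit 76)) (.one (nat_lit 0x800000400500800c010800a112018020611)) (.one (nat_lit 0x800000400500800d00e800a11201a01c611))))))
def t266 : k266.all (jb2 57 fl b0) = true := by decide +kernel
noncomputable def k267 : KT := (.br (Nat.shiftLeft (nat_lit 0xb00000200500800d) (nat_lit 76)) (.br (Nat.shiftLeft (nat_lit 0x5000001) (nat_lit 113)) (.br (Nat.shiftLeft (nat_lit 0x900000300500800d) (nat_lit 76)) (.br (Nat.shiftLeft (nat_lit 0x900000200500800d) (nat_lit 76)) (.br (Nat.shiftLeft (nat_lit 0x4800001) (nat_lit 113)) (.one (nat_lit 0x900000100500800d00e200a13241a01c611)) (.one (nat_lit 0x900000200500800c010400a132418020611))) (.br (Nat.shiftLeft (nat_lit 0x9000003) (nat_lit 112)) (.one (nat_lit 0x900000200500800d00e400a13241a01c611)) (.one (nat_lit 0x900000300500800c010600a132418020611)))) (.br (Nat.shiftLeft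 (nat_lit 0x900000400500800d) (nat_lit 76)) (.br (Nat.shiftLeft (nat_lit 0x2400001) (nat_lit 114)) (.one (nat_lit 0x900000300500800d00e600a13241a01c611)) (.one (nat_lit 0x900000400500800c010800a132418020611))) (.br (Nat.shiftLeft (nat_lit 0x5) (nat_lit 137)) (.one (nat_lit 0x900000400500800d00e800a13241a01c611)) (.one (nat_lit 0xa00000100500800d00e200a15281a01c611))))) (.br (Nat.shiftLeft (nat_lit 0x2800001) (nat_lit 114)) (.br (Nat.shiftLeft (nat_lit 0xa000003) (nat_lit 112)) (.br (Nat.shiftLeft (nat_lit 0xa00000200500800d) (nat_lit 76)) (.one (nat_lit 0xa00000200500800c010400a152818020611)) (.one (nat_lit 0xa00000200500800d00e400a15281a01c611))) (.br (Nat.shiftLeft (nat_lit 0xa00000300500800d) (nat_lit 76)) (.one (nat_lit 0xa00000300500800c010600a152818020611)) (.one (nat_lit 0xa00000300500800d00e600a15281a01c611)))) (.br (Nat.shiftLeft (nat_lit 0xb) (nat_lit 136)) (.br (Nat.shiftLeft (nat_lit 0xa00000400500800d) (nat_lit 76)) (.one (nat_lit 0xa00000400500800c010800a152818020611)) (.one (nat_lit 0xa00000400500800d00e800a15281a01c611)))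 (.br (Nat.shiftLeft (nat_lit 0x5800001) (nat_lit 113)) (.one (nat_lit 0xb00000100500800d00e200a172c1a01c611)) (.one (nat_lit 0xb00000200500800c010400a172c18020611)))))) (.br (Nat.shiftLeft (nat_lit 0xc000003) (nat_lit 112)) (.br (Nat.shiftLeft (nat_lit 0xb00000400500800d) (nat_lit 76)) (.br (Nat.shiftLeft (nat_lit 0xb00000300500800d) (nat_lit 76)) (.br (Nat.shiftLeft (nat_lit 0xb000003) (nat_lit 112)) (.one (nat_lit 0xb00000200500800d00e400a172c1a01c611)) (.one (nat_lit 0xb00000300500800c010600a172c18020611))) (.br (Nat.shiftLeft (nat_lit 0x2c00001) (nat_lit 114)) (.one (nat_lit 0xb00000300500800d00e600a172c1a01c611)) (.one (nat_lit 0xb00000400500800c010800a172c18020611)))) (.br (Nat.shiftLeft (nat_lit 0x6000001) (nat_lit 113)) (.br (Nat.shiftLeft (nat_lit 0x3) (nat_lit 138)) (.one (nat_lit 0xb00000400500800d00e800a172c1a01c611)) (.one (nat_lit 0xc00000100500800d00e200a19301a01c611))) (.br (Nat.shiftLeft (nat_lit 0xc00000200500800d) (nat_lit 76)) (.one (nat_lit 0xc00000200500800c010400a193018020611)) (.one (nat_lit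 0xc00000200500800d00e400a19301a01c611))))) (.br (Nat.shiftLeft (nat_lit 0xd) (nat_lit 136)) (.br (Nat.shiftLeft (nat_lit 0x3000001) (nat_lit 114)) (.br (Nat.shiftLeft (nat_lit 0xc00000300500800d) (nat_lit 76)) (.one (nat_lit 0xc00000300500800c010600a193018020611)) (.one (nat_lit 0xc00000300500800d00e600a19301a01c611))) (.br (Nat.shiftLeft (nat_lit 0xc00000400500800d) (nat_lit 76)) (.one (nat_lit 0xc00000400500800c010800a193018020611)) (.one (nat_lit 0xc00000400500800d00e800a19301a01c611)))) (.br (Nat.shiftLeft (nat_lit 0xd000003) (nat_lit 112)) (.br (Nat.shiftLeft (nat_lit 0x6800001) (nat_lit 113)) (.one (nat_lit 0xd00000100500800d00e200a1b341a01c611)) (.one (nat_lit 0xd00000200500800d00e400a1b341a01c611))) (.br (Nat.shiftLeft (nat_lit 0x3400001) (nat_lit 114)) (.one (nat_lit 0xd00000300500800d00e600a1b341a01c611)) (.one (nat_lit 0xd00000400500800d00e800a1b341a01c611)))))))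
def t267 : k267.all (jb2 57 fl b0) = true := by decide +kernel
noncomputable def s14 : KT := (.br (nat_lit 0x200400500800c010800a010058820760) (.br (nat_lit 0x100000500800d00e000a01003a41c511) (.br (nat_lit 0x200500800c010400a010018021600) (.br (nat_lit 0x100500800c010200a010018020650) k248 k249) (.br (nat_lit 0x300500800c010600a010018021600) k250 (.br (nat_lit 0x400500800c010800a010018021600) k251 k252))) (.br (nat_lit 0x100200500800d00e400a01003a41c760) (.br (nat_lit 0x100200500800c010400a010038420760) k253 k254) (.br (nat_lit 0x100300500800d00e600a01003a41c760) k255 (.br (nat_lit 0x200300500800c010600a010058820760) k256 k257)))) (.br (nat_lit 0x400000200500800c010400a091018020611) (.br (nat_lit 0x500000500800c011000a0100b9422511) (.br (nat_lit 0x300400500800c010800a010078c20760) k258 k259) (.br (nat_lit 0x700000500800c010000a0100f9c20511) k260 (.br (nat_lit 0x900000500800c011000a01013a422511) k261 k262))) (.br (nat_lit 0x600000200500800c010400a0d1818020611) (.br (nat_lit 0x500000200500800d00e400a0b141a01c611) k263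 k264) (.br (nat_lit 0x700000200500800c010400a0f1c18020611) k265 (.br (nat_lit 0x800000400500800d00e800a11201a01c611) k266 k267)))))
noncomputable def u14 : KT := (.br (Nat.shiftLeft (nat_lit 0x500800c011) (nat_lit 64)) (.one (nat_lit 0x500800c010000a010018020540)) (.br (Nat.shiftLeft (nat_lit 0x500800d) (nat_lit 76)) (.one (nat_lit 0x500800c011000a010018022540)) (.one (nat_lit 0x500800d00e000a01001a01c540))))
def w14 : u14.all (wj 57 s14) = true := by decide +kernel
def o14 : OkW 57 (jb2 57 fl) u14 := .lift s14 _ (.br _ _ _ (.br _ _ _ (.br _ _ _ (.br _ _ _ (.leaf b0 k248 t248) (.leaf b0 k249 t249)) (.br _ _ _ (.leaf b0 k250 t250) (.br _ _ _ (.leaf b0 k251 t251) (.leaf b0 k252 t252)))) (.br _ _ _ (.br _ _ _ (.leaf b0 k253 t253) (.leaf b0 k254 t254)) (.br _ _ _ (.leaf b0 k255 t255) (.br _ _ _ (.leaf b0 k256 t256) (.leaf b0 k257 t257))))) (.br _ _ _ (.br _ _ _ (.br _ _ _ (.leaf b0 k258 t258) (.leaf b0 k259 t259)) (.br _ _ _ (.leaf b0 k260 t260) (.br _ _ _ (.leaf b0 k261 t261) (.leaf b0 k262 t262)))) (.br _ _ _ (.br _ _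 _ (.leaf b0 k263 t263) (.leaf b0 k264 t264)) (.br _ _ _ (.leaf b0 k265 t265) (.br _ _ _ (.leaf b0 k266 t266) (.leaf b0 k267 t267)))))) w14
noncomputable def k268 : KT := (.br (Nat.shiftLeft (nat_lit 0x5009) (nat_lit 88)) (.br (Nat.shiftLeft (nat_lit 0x500800d01) (nat_lit 68)) (.one (nat_lit 0x500800d00f000a01001a01f500)) (.br (Nat.shiftLeft (nat_lit 0x2804007) (nat_lit 77)) (.one (nat_lit 0x500800d010000a01001a021500)) (.one (nat_lit 0x500800e00f000a01001c01f500)))) (.br (Nat.shiftLeft (nat_lit 0x500900a00d) (nat_lit 64)) (.br (Nat.shiftLeft (nat_lit 0x1402402803) (nat_lit 66)) (.one (nat_lit 0x500900a00b000a012014017500)) (.one (nat_lit 0x500900a00c000a012014019500))) (.br (Nat.shiftLeft (nat_lit 0x1) (nat_lit 112)) (.one (nat_lit 0x500900a00d000a01201401b500)) (.one (nat_lit 0x100500800d00f200a01001a01e650)))))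
def t268 : k268.all (jb2 57 fl b0) = true := by decide +kernel
noncomputable def k269 : KT := (.one (nat_lit 0x100500800d010200a01001a020650))
def t269 : k269.all (jb2 57 fl b0) = true := by decide +kernel
noncomputable def k270 : KT := (.br (Nat.shiftLeft (nat_lit 0x1) (nat_lit 113)) (.one (nat_lit 0x100500800e00f200a01001c01e650)) (.one (nat_lit 0x200500800d00f400a01001a01f600)))
def t270 : k270.all (jb2 57 fl b0) = true := by decide +kernel
noncomputable def k271 : KT := (.one (nat_lit 0x200500800d010400a01001a020650))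
def t271 : k271.all (jb2 57 fl b0) = true := by decide +kernel
noncomputable def k272 : KT := (.br (Nat.shiftLeft (nat_lit 0x3) (nat_lit 112)) (.one (nat_lit 0x200500800e00f400a01001c01e650)) (.one (nat_lit 0x300500800d00f600a01001a01f600)))
def t272 : k272.all (jb2 57 fl b0) = true := by decide +kernel
noncomputable def k273 : KT := (.one (nat_lit 0x300500800d010600a01001a020650))
def t273 : k273.all (jb2 57 fl b0) = true := by decide +kernel
noncomputable def k274 : KT := (.br (Nat.shiftLeft (nat_lit 0x1) (nat_lit 114)) (.one (nat_lit 0x300500800e00f600a01001c01e650)) (.one (nat_lit 0x400500800d00f800a01001a01f600)))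
def t274 : k274.all (jb2 57 fl b0) = true := by decide +kernel
noncomputable def k275 : KT := (.one (nat_lit 0x400500800d010800a01001a020650))
def t275 : k275.all (jb2 57 fl b0) = true := by decide +kernel
noncomputable def k276 : KT := (.br (Nat.shiftLeft (nat_lit 0x100000500800d01) (nat_lit 68)) (.br (Nat.shiftLeft (nat_lit 0x1) (nat_lit 124)) (.one (nat_lit 0x400500800e00f800a01001c01e650)) (.one (nat_lit 0x100000500800d00f000a01003a41e511))) (.br (Nat.shiftLeft (nat_lit 0x800002804007) (nat_lit 77)) (.one (nat_lit 0x100000500800d010000a01003a420511)) (.one (nat_lit 0x100000500800e00f000a01003c41e511))))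
def t276 : k276.all (jb2 57 fl b0) = true := by decide +kernel
noncomputable def k277 : KT := (.br (Nat.shiftLeft (nat_lit 0x1003) (nat_lit 112)) (.one (nat_lit 0x100200500800d00f400a01003a41e760)) (.one (nat_lit 0x100300500800d00f600a01003a41e760)))
def t277 : k277.all (jb2 57 fl b0) = true := by decide +kernel
noncomputable def k278 : KT := (.br (Nat.shiftLeft (nat_lit 0x1001) (nat_lit 113)) (.br (Nat.shiftLeft (nat_lit 0x200000500800d01) (nat_lit 68)) (.br (Nat.shiftLeft (nat_lit 0x1) (nat_lit 125)) (.one (nat_lit 0x100400500800d00f800a01003a41e760)) (.one (nat_lit 0x200000500800d00f000a01005a81e511))) (.br (Nat.shiftLeft (nat_lit 0x1000002804007) (nat_lit 77)) (.one (nat_lit 0x200000500800d010000a01005a820511)) (.one (nat_lit 0x200000500800e00f000a01005c81e511)))) (.br (Nat.shiftLeft (nat_lit 0x3) (nat_lit 124)) (.br (Nat.shiftLeft (nat_lit 0x801) (nat_lit 114)) (.one (nat_lit 0x200300500800d00f600a01005a81e760)) (.one (nat_lit 0x200400500800d00f800a01005a81e760))) (.br (Nat.shiftLeft (nat_lit 0x300000500800d01)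 (nat_lit 68)) (.one (nat_lit 0x300000500800d00f000a01007ac1e511)) (.br (Nat.shiftLeft (nat_lit 0x1800002804007) (nat_lit 77)) (.one (nat_lit 0x300000500800d010000a01007ac20511)) (.one (nat_lit 0x300000500800e00f000a01007cc1e511))))))
def t278 : k278.all (jb2 57 fl b0) = true := by decide +kernel
noncomputable def k279 : KT := (.br (Nat.shiftLeft (nat_lit 0x2000002804007) (nat_lit 77)) (.br (Nat.shiftLeft (nat_lit 0x1) (nat_lit 126)) (.one (nat_lit 0x300400500800d00f800a01007ac1e760)) (.br (Nat.shiftLeft (nat_lit 0x400000500800d01) (nat_lit 68)) (.one (nat_lit 0x400000500800d00f000a01009b01e511)) (.one (nat_lit 0x400000500800d010000a01009b020511)))) (.br (Nat.shiftLeft (nat_lit 0x500000500800d01) (nat_lit 68)) (.br (Nat.shiftLeft (nat_lit 0x5) (nat_lit 124)) (.one (nat_lit 0x400000500800e00f000a01009d01e511)) (.one (nat_lit 0x500000500800d00f000a0100bb41e511))) (.br (Nat.shiftLeft (nat_lit 0x2800002804007) (nat_lit 77)) (.one (nat_lit 0x500000500800d010000a0100bb420511)) (.one (nat_lit 0x500000500800e00f000a0100bd41e511)))))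
def t279 : k279.all (jb2 57 fl b0) = true := by decide +kernel
noncomputable def k280 : KT := (.br (Nat.shiftLeft (nat_lit 0x7) (nat_lit 124)) (.br (Nat.shiftLeft (nat_lit 0x600000500800d01) (nat_lit 68)) (.one (nat_lit 0x600000500800d00f000a0100db81e511)) (.br (Nat.shiftLeft (nat_lit 0x3000002804007) (nat_lit 77)) (.one (nat_lit 0x600000500800d010000a0100db820511)) (.one (nat_lit 0x600000500800e00f000a0100dd81e511)))) (.br (Nat.shiftLeft (nat_lit 0x700000500800d01) (nat_lit 68)) (.one (nat_lit 0x700000500800d00f000a0100fbc1e511)) (.br (Nat.shiftLeft (nat_lit 0x3800002804007) (nat_lit 77)) (.one (nat_lit 0x700000500800d010000a0100fbc20511)) (.one (nat_lit 0x700000500800e00f000a0100fdc1e511)))))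
def t280 : k280.all (jb2 57 fl b0) = true := by decide +kernel
noncomputable def k281 : KT := (.br (Nat.shiftLeft (nat_lit 0x6000002804007) (nat_lit 77)) (.br (Nat.shiftLeft (nat_lit 0xa00000500800d01) (nat_lit 68)) (.br (Nat.shiftLeft (nat_lit 0x9) (nat_lit 124)) (.br (Nat.shiftLeft (nat_lit 0x800000500800d01) (nat_lit 68)) (.one (nat_lit 0x800000500800d00f000a01011c01e511)) (.br (Nat.shiftLeft (nat_lit 0x4000002804007) (nat_lit 77)) (.one (nat_lit 0x800000500800d010000a01011c020511)) (.one (nat_lit 0x800000500800e00f000a01011e01e511)))) (.br (Nat.shiftLeft (nat_lit 0x4800002804007) (nat_lit 77)) (.br (Nat.shiftLeft (nat_lit 0x900000500800d01) (nat_lit 68)) (.one (nat_lit 0x900000500800d00f000a01013c41e511)) (.one (nat_lit 0x900000500800d010000a01013c420511))) (.br (Nat.shiftLeft (nat_lit 0x5) (nat_lit 125)) (.one (nat_lit 0x900000500800e00f000a01013e41e511)) (.one (nat_lit 0xa00000500800d00f000a01015c81e511))))) (.br (Nat.shiftLeft (nat_lit 0xb00000500800d01) (nat_lit 68)) (.br (Nat.shiftLeft (nat_lit 0x5000002804007)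 (nat_lit 77)) (.one (nat_lit 0xa00000500800d010000a01015c820511)) (.br (Nat.shiftLeft (nat_lit 0xb) (nat_lit 124)) (.one (nat_lit 0xa00000500800e00f000a01015e81e511)) (.one (nat_lit 0xb00000500800d00f000a01017cc1e511)))) (.br (Nat.shiftLeft (nat_lit 0x3) (nat_lit 126)) (.br (Nat.shiftLeft (nat_lit 0x5800002804007) (nat_lit 77)) (.one (nat_lit 0xb00000500800d010000a01017cc20511)) (.one (nat_lit 0xb00000500800e00f000a01017ec1e511))) (.br (Nat.shiftLeft (nat_lit 0xc00000500800d01) (nat_lit 68)) (.one (nat_lit 0xc00000500800d00f000a01019d01e511)) (.one (nat_lit 0xc00000500800d010000a01019d020511)))))) (.br (Nat.shiftLeft (nat_lit 0x400001) (nat_lit 114)) (.br (Nat.shiftLeft (nat_lit 0x6800002804007) (nat_lit 77)) (.br (Nat.shiftLeft (nat_lit 0xd) (nat_lit 124)) (.one (nat_lit 0xc00000500800e00f000a01019f01e511)) (.br (Nat.shiftLeft (nat_lit 0xd00000500800d01) (nat_lit 68)) (.one (nat_lit 0xd00000500800d00f000a0101bd41e511)) (.one (nat_lit 0xd00000500800d010000a0101bd420511)))) (.br (Nat.shiftLeft (nat_lit 0x1) (nat_lit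 136)) (.br (Nat.shiftLeft (nat_lit 0x7) (nat_lit 125)) (.one (nat_lit 0xd00000500800e00f000a0101bf41e511)) (.one (nat_lit 0xe00000500800e00f000a0101df81e511))) (.br (Nat.shiftLeft (nat_lit 0x1000003) (nat_lit 112)) (.one (nat_lit 0x100000200500800d00f400a03041a01e611)) (.one (nat_lit 0x100000300500800d00f600a03041a01e611))))) (.br (Nat.shiftLeft (nat_lit 0x800001) (nat_lit 114)) (.br (Nat.shiftLeft (nat_lit 0x1) (nat_lit 137)) (.one (nat_lit 0x100000400500800d00f800a03041a01e611)) (.br (Nat.shiftLeft (nat_lit 0x2000003) (nat_lit 112)) (.one (nat_lit 0x200000200500800d00f400a05081a01e611)) (.one (nat_lit 0x200000300500800d00f600a05081a01e611)))) (.br (Nat.shiftLeft (nat_lit 0x3000003) (nat_lit 112)) (.br (Nat.shiftLeft (nat_lit 0x3) (nat_lit 136)) (.one (nat_lit 0x200000400500800d00f800a05081a01e611)) (.one (nat_lit 0x300000200500800d00f400a070c1a01e611))) (.br (Nat.shiftLeft (nat_lit 0xc00001) (nat_lit 114)) (.one (nat_lit 0x300000300500800d00f600a070c1a01e611)) (.one (nat_lit 0x300000400500800d00f800a070c1a01e611)))))))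
def t281 : k281.all (jb2 57 fl b0) = true := by decide +kernel
noncomputable def k282 : KT := (.br (Nat.shiftLeft (nat_lit 0x1400001) (nat_lit 114)) (.br (Nat.shiftLeft (nat_lit 0x1000001) (nat_lit 114)) (.br (Nat.shiftLeft (nat_lit 0x4000003) (nat_lit 112)) (.one (nat_lit 0x400000200500800d00f400a09101a01e611)) (.one (nat_lit 0x400000300500800d00f600a09101a01e611))) (.br (Nat.shiftLeft (nat_lit 0x5) (nat_lit 136)) (.one (nat_lit 0x400000400500800d00f800a09101a01e611)) (.br (Nat.shiftLeft (nat_lit 0x5000003) (nat_lit 112)) (.one (nat_lit 0x500000200500800d00f400a0b141a01e611)) (.one (nat_lit 0x500000300500800d00f600a0b141a01e611))))) (.br (Nat.shiftLeft (nat_lit 0x6000003) (nat_lit 112)) (.br (Nat.shiftLeft (nat_lit 0x3) (nat_lit 137)) (.one (nat_lit 0x500000400500800d00f800a0b141a01e611)) (.one (nat_lit 0x600000200500800d00f400a0d181a01e611))) (.br (Nat.shiftLeft (nat_lit 0x1800001) (nat_lit 114)) (.one (nat_lit 0x600000300500800d00f600a0d181a01e611)) (.br (Nat.shiftLeft (nat_lit 0x7) (nat_lit 136)) (.one (nat_lit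 0x600000400500800d00f800a0d181a01e611)) (.one (nat_lit 0x700000200500800d00f400a0f1c1a01e611))))))
def t282 : k282.all (jb2 57 fl b0) = true := by decide +kernel
noncomputable def k283 : KT := (.br (Nat.shiftLeft (nat_lit 0xa000003) (nat_lit 112)) (.br (Nat.shiftLeft (nat_lit 0x2000001) (nat_lit 114)) (.br (Nat.shiftLeft (nat_lit 0x1) (nat_lit 139)) (.br (Nat.shiftLeft (nat_lit 0x1c00001) (nat_lit 114)) (.one (nat_lit 0x700000300500800d00f600a0f1c1a01e611)) (.one (nat_lit 0x700000400500800d00f800a0f1c1a01e611))) (.br (Nat.shiftLeft (nat_lit 0x8000003) (nat_lit 112)) (.one (nat_lit 0x800000200500800d00f400a11201a01e611)) (.one (nat_lit 0x800000300500800d00f600a11201a01e611)))) (.br (Nat.shiftLeft (nat_lit 0x9000003) (nat_lit 112)) (.br (Nat.shiftLeft (nat_lit 0x9) (nat_lit 136)) (.one (nat_lit 0x800000400500800d00f800a11201a01e611)) (.one (nat_lit 0x900000200500800d00f400a13241a01e611))) (.br (Nat.shiftLeft (nat_lit 0x2400001) (nat_lit 114)) (.one (nat_lit 0x900000300500800d00f600a13241a01e611)) (.br (Nat.shiftLeft (nat_lit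 0x5) (nat_lit 137)) (.one (nat_lit 0x900000400500800d00f800a13241a01e611)) (.one (nat_lit 0xa00000200500800d00f400a15281a01e611)))))) (.br (Nat.shiftLeft (nat_lit 0x3) (nat_lit 138)) (.br (Nat.shiftLeft (nat_lit 0xb) (nat_lit 136)) (.br (Nat.shiftLeft (nat_lit 0x2800001) (nat_lit 114)) (.one (nat_lit 0xa00000300500800d00f600a15281a01e611)) (.one (nat_lit 0xa00000400500800d00f800a15281a01e611))) (.br (Nat.shiftLeft (nat_lit 0xb000003) (nat_lit 112)) (.one (nat_lit 0xb00000200500800d00f400a172c1a01e611)) (.br (Nat.shiftLeft (nat_lit 0x2c00001) (nat_lit 114)) (.one (nat_lit 0xb00000300500800d00f600a172c1a01e611)) (.one (nat_lit 0xb00000400500800d00f800a172c1a01e611))))) (.br (Nat.shiftLeft (nat_lit 0x3000001) (nat_lit 114)) (.br (Nat.shiftLeft (nat_lit 0xc000003) (nat_lit 112)) (.one (nat_lit 0xc00000200500800d00f400a19301a01e611)) (.one (nat_lit 0xc00000300500800d00f600a19301a01e611))) (.br (Nat.shiftLeft (nat_lit 0xd) (nat_lit 136)) (.one (nat_lit 0xc00000400500800d00f800a19301a01e611)) (.br (Nat.shiftLeft (nat_lit 0xd000003)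 (nat_lit 112)) (.one (nat_lit 0xd00000200500800d00f400a1b341a01e611)) (.one (nat_lit 0xd00000300500800d00f600a1b341a01e611)))))))
def t283 : k283.all (jb2 57 fl b0) = true := by decide +kernel
noncomputable def s15 : KT := (.br (nat_lit 0x400500800d010800a01001a020650) (.br (nat_lit 0x200500800d010400a01001a020650) (.br (nat_lit 0x100500800d010200a01001a020650) (.br (nat_lit 0x100500800d00f200a01001a01e650) k268 k269) (.br (nat_lit 0x200500800d00f400a01001a01f600) k270 k271)) (.br (nat_lit 0x300500800d010600a01001a020650) (.br (nat_lit 0x300500800d00f600a01001a01f600) k272 k273) (.br (nat_lit 0x400500800d00f800a01001a01f600) k274 k275))) (.br (nat_lit 0x500000500800e00f000a0100bd41e511) (.br (nat_lit 0x100300500800d00f600a01003a41e760) (.br (nat_lit 0x100000500800e00f000a01003c41e511) k276 k277) (.br (nat_lit 0x300000500800e00f000a01007cc1e511) k278 k279)) (.br (nat_lit 0x300000400500800d00f800a070c1a01e611) (.br (nat_lit 0x700000500800e00f000a0100fdc1e511) k280 k281) (.br (nat_lit 0x700000200500800d00f400a0f1c1a01e611)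 k282 k283))))
noncomputable def u15 : KT := (.br (Nat.shiftLeft (nat_lit 0x5009) (nat_lit 88)) (.br (Nat.shiftLeft (nat_lit 0x500800d01) (nat_lit 68)) (.one (nat_lit 0x500800d00f000a01001a01e540)) (.br (Nat.shiftLeft (nat_lit 0x2804007) (nat_lit 77)) (.one (nat_lit 0x500800d010000a01001a020540)) (.one (nat_lit 0x500800e00f000a01001c01e540)))) (.br (Nat.shiftLeft (nat_lit 0x1402402803) (nat_lit 66)) (.one (nat_lit 0x500900a00b000a012014017500)) (.br (Nat.shiftLeft (nat_lit 0x500900a00d) (nat_lit 64)) (.one (nat_lit 0x500900a00c000a012014019500)) (.one (nat_lit 0x500900a00d000a01201401b500)))))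
def w15 : u15.all (wj 57 s15) = true := by decide +kernel
def o15 : OkW 57 (jb2 57 fl) u15 := .lift s15 _ (.br _ _ _ (.br _ _ _ (.br _ _ _ (.br _ _ _ (.leaf b0 k268 t268) (.leaf b0 k269 t269)) (.br _ _ _ (.leaf b0 k270 t270) (.leaf b0 k271 t271))) (.br _ _ _ (.br _ _ _ (.leaf b0 k272 t272) (.leaf b0 k273 t273)) (.br _ _ _ (.leaf b0 k274 t274) (.leaf b0 k275 t275)))) (.br _ _ _ (.br _ _ _ (.br _ _ _ (.leaf b0 k276 t276) (.leaf b0 k277 t277)) (.br _ _ _ (.leaf b0 k278 t278) (.leaf b0 k279 t279))) (.br _ _ _ (.br _ _ _ (.leaf b0 k280 t280) (.leaf b0 k281 t281)) (.br _ _ _ (.leaf b0 k282 t282) (.leaf b0 k283 t283))))) w15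
noncomputable def k284 : KT := (.br (Nat.shiftLeft (nat_lit 0x1) (nat_lit 124)) (.br (Nat.shiftLeft (nat_lit 0x1) (nat_lit 113)) (.br (Nat.shiftLeft (nat_lit 0x1) (nat_lit 112)) (.one (nat_lit 0x500900a00e000a01201401d500)) (.one (nat_lit 0x100500900a00e200a01201401d600))) (.br (Nat.shiftLeft (nat_lit 0x3) (nat_lit 112)) (.one (nat_lit 0x200500900a00e400a01201401d600)) (.br (Nat.shiftLeft (nat_lit 0x1) (nat_lit 114)) (.one (nat_lit 0x300500900a00e600a01201401d600)) (.one (nat_lit 0x400500900a00e800a01201401d600))))) (.br (Nat.shiftLeft (nat_lit 0x401) (nat_lit 114)) (.br (Nat.shiftLeft (nat_lit 0x801) (nat_lit 113)) (.one (nat_lit 0x100000500900a00e000a01203441c511)) (.br (Nat.shiftLeft (nat_lit 0x1003) (nat_lit 112)) (.one (nat_lit 0x100200500900a00e400a01203441d700)) (.one (nat_lit 0x100300500900a00e600a01203441d700)))) (.br (Nat.shiftLeft (nat_lit 0x1) (nat_lit 125)) (.one (nat_lit 0x100400500900a00e800a01203441c760)) (.br (Nat.shiftLeft (nat_lit 0x1001) (nat_lit 113)) (.one (nat_lit 0x200000500900a00e000a01205481c511))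 (.one (nat_lit 0x200300500900a00e600a01205481d700))))))
def t284 : k284.all (jb2 57 fl b0) = true := by decide +kernel
noncomputable def k285 : KT := (.br (Nat.shiftLeft (nat_lit 0x3) (nat_lit 124)) (.one (nat_lit 0x200400500900a00e800a01205481c760)) (.one (nat_lit 0x300000500900a00e000a012074c1c511)))
def t285 : k285.all (jb2 57 fl b0) = true := by decide +kernel
noncomputable def k286 : KT := (.br (Nat.shiftLeft (nat_lit 0x1) (nat_lit 126)) (.one (nat_lit 0x300400500900a00e800a012074c1c760)) (.one (nat_lit 0x400000500900a00e000a01209501c511)))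
def t286 : k286.all (jb2 57 fl b0) = true := by decide +kernel
noncomputable def k287 : KT := (.br (Nat.shiftLeft (nat_lit 0x3) (nat_lit 125)) (.one (nat_lit 0x500000500900a00e000a0120b541c511)) (.one (nat_lit 0x600000500900a00e000a0120d581c511)))
def t287 : k287.all (jb2 57 fl b0) = true := by decide +kernel
noncomputable def k288 : KT := (.br (Nat.shiftLeft (nat_lit 0x1) (nat_lit 127)) (.one (nat_lit 0x700000500900a00e000a0120f5c1c511)) (.one (nat_lit 0x800000500900a00e000a01211601c511)))
def t288 : k288.all (jb2 57 fl b0) = true := by decide +kernel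
noncomputable def k289 : KT := (.br (Nat.shiftLeft (nat_lit 0x800001) (nat_lit 113)) (.br (Nat.shiftLeft (nat_lit 0x5) (nat_lit 125)) (.one (nat_lit 0x900000500900a00e000a01213641c511)) (.br (Nat.shiftLeft (nat_lit 0x1) (nat_lit 136)) (.one (nat_lit 0xa00000500900a00e000a01215681c511)) (.one (nat_lit 0x100000100500900a00e200a03241401c611)))) (.br (Nat.shiftLeft (nat_lit 0x1000003) (nat_lit 112)) (.one (nat_lit 0x100000200500900a00e400a03241401c611)) (.br (Nat.shiftLeft (nat_lit 0x400001) (nat_lit 114)) (.one (nat_lit 0x100000300500900a00e600a03241401c611)) (.one (nat_lit 0x100000400500900a00e800a03241401c611)))))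
noncomputable def b290 : BT := .node (nat_lit 0xb) (nat_lit 0x2a1a4e097854427412f00041dd000cb60003a1c000ca702db36d9a4e0003a98000ab7410020a0020a0020a0020a00150001500015000150001500015000150000f0) .leaf .leaf
def t289 : k289.all (jb2 57 fl b290) = true := by decide +kernel
noncomputable def k290 : KT := (.br (Nat.shiftLeft (nat_lit 0x1800001) (nat_lit 113)) (.br (Nat.shiftLeft (nat_lit 0x2000003) (nat_lit 112)) (.br (Nat.shiftLeft (nat_lit 0x1) (nat_lit 137)) (.one (nat_lit 0x100200300500900a00e600a03245481c870)) (.br (Nat.shiftLeft (nat_lit 0x1000001) (nat_lit 113)) (.one (nat_lit 0x200000100500900a00e200a05281401c611)) (.one (nat_lit 0x200000200500900a00e400a05281401c611)))) (.br (Nat.shiftLeft (nat_lit 0x800001) (nat_lit 114)) (.one (nat_lit 0x200000300500900a00e600a05281401c611)) (.br (Nat.shiftLeft (nat_lit 0x3) (nat_lit 136)) (.one (nat_lit 0x200000400500900a00e800a05281401c611)) (.one (nat_lit 0x300000100500900a00e200a072c1401c611))))) (.br (Nat.shiftLeft (nat_lit 0x1) (nat_lit 138)) (.br (Nat.shiftLeft (nat_lit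 0x3000003) (nat_lit 112)) (.one (nat_lit 0x300000200500900a00e400a072c1401c611)) (.br (Nat.shiftLeft (nat_lit 0xc00001) (nat_lit 114)) (.one (nat_lit 0x300000300500900a00e600a072c1401c611)) (.one (nat_lit 0x300000400500900a00e800a072c1401c611)))) (.br (Nat.shiftLeft (nat_lit 0x2000001) (nat_lit 113)) (.one (nat_lit 0x400000100500900a00e200a09301401c611)) (.br (Nat.shiftLeft (nat_lit 0x4000003) (nat_lit 112)) (.one (nat_lit 0x400000200500900a00e400a09301401c611)) (.one (nat_lit 0x400000300500900a00e600a09301401c611))))))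
def t290 : k290.all (jb2 57 fl b0) = true := by decide +kernel
noncomputable def k291 : KT := (.br (Nat.shiftLeft (nat_lit 0x2800001) (nat_lit 113)) (.br (Nat.shiftLeft (nat_lit 0x5) (nat_lit 136)) (.one (nat_lit 0x400000400500900a00e800a09301401c611)) (.one (nat_lit 0x500000100500900a00e200a0b341401c611))) (.br (Nat.shiftLeft (nat_lit 0x5000003) (nat_lit 112)) (.one (nat_lit 0x500000200500900a00e400a0b341401c611)) (.one (nat_lit 0x500000300500900a00e600a0b341401c611))))
def t291 : k291.all (jb2 57 fl b0) = true := by decide +kernel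
noncomputable def k292 : KT := (.br (Nat.shiftLeft (nat_lit 0x3) (nat_lit 137)) (.one (nat_lit 0x500000400500900a00e800a0b341401c611)) (.one (nat_lit 0x600000100500900a00e200a0d381401c611)))
def t292 : k292.all (jb2 57 fl b0) = true := by decide +kernel
noncomputable def k293 : KT := (.br (Nat.shiftLeft (nat_lit 0x6000003) (nat_lit 112)) (.one (nat_lit 0x600000200500900a00e400a0d381401c611)) (.br (Nat.shiftLeft (nat_lit 0x1800001) (nat_lit 114)) (.one (nat_lit 0x600000300500900a00e600a0d381401c611)) (.one (nat_lit 0x600000400500900a00e800a0d381401c611))))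
def t293 : k293.all (jb2 57 fl b0) = true := by decide +kernel
noncomputable def k294 : KT := (.br (Nat.shiftLeft (nat_lit 0x3800001) (nat_lit 113)) (.one (nat_lit 0x700000100500900a00e200a0f3c1401c611)) (.one (nat_lit 0x700000200500900a00e400a0f3c1401c611)))
def t294 : k294.all (jb2 57 fl b0) = true := by decide +kernel
noncomputable def k295 : KT := (.br (Nat.shiftLeft (nat_lit 0x1c00001) (nat_lit 114)) (.one (nat_lit 0x700000300500900a00e600a0f3c1401c611)) (.br (Nat.shiftLeft (nat_lit 0x1) (nat_lit 139)) (.one (nat_lit 0x700000400500900a00e800a0f3c1401c611)) (.one (nat_lit 0x800000100500900a00e200a11401401c611))))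
def t295 : k295.all (jb2 57 fl b0) = true := by decide +kernel
noncomputable def k296 : KT := (.br (Nat.shiftLeft (nat_lit 0x2000001) (nat_lit 114)) (.br (Nat.shiftLeft (nat_lit 0x8000003) (nat_lit 112)) (.one (nat_lit 0x800000200500900a00e400a11401401c611)) (.one (nat_lit 0x800000300500900a00e600a11401401c611))) (.br (Nat.shiftLeft (nat_lit 0x9) (nat_lit 136)) (.one (nat_lit 0x800000400500900a00e800a11401401c611)) (.one (nat_lit 0x900000100500900a00e200a13441401c611))))
def t296 : k296.all (jb2 57 fl b0) = true := by decide +kernel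
noncomputable def k297 : KT := (.br (Nat.shiftLeft (nat_lit 0x1000001003) (nat_lit 112)) (.br (Nat.shiftLeft (nat_lit 0x5000001) (nat_lit 113)) (.br (Nat.shiftLeft (nat_lit 0x2400001) (nat_lit 114)) (.br (Nat.shiftLeft (nat_lit 0x9000003) (nat_lit 112)) (.one (nat_lit 0x900000200500900a00e400a13441401c611)) (.one (nat_lit 0x900000300500900a00e600a13441401c611))) (.br (Nat.shiftLeft (nat_lit 0x5) (nat_lit 137)) (.one (nat_lit 0x900000400500900a00e800a13441401c611)) (.one (nat_lit 0xa00000100500900a00e200a15481401c611)))) (.br (Nat.shiftLeft (nat_lit 0x2800001) (nat_lit 114)) (.br (Nat.shiftLeft (nat_lit 0xa000003) (nat_lit 112)) (.one (nat_lit 0xa00000200500900a00e400a15481401c611)) (.one (nat_lit 0xa00000300500900a00e600a15481401c611))) (.br (Nat.shiftLeft (nat_lit 0x1) (nat_lit 148)) (.one (nat_lit 0xa00000400500900a00e800a15481401c611)) (.one (nat_lit 0x100000100200500900a00e402a41203441c711))))) (.br (Nat.shiftLeft (nat_lit 0x1000001) (nat_lit 125)) (.br (Nat.shiftLeft (nat_lit 0x1) (nat_lit 149)) (.br (Nat.shiftLeft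 (nat_lit 0x800001) (nat_lit 125)) (.one (nat_lit 0x100000100300500900a00e602a41203441c711)) (.one (nat_lit 0x100000200300500900a00e602a41205481c711))) (.br (Nat.shiftLeft (nat_lit 0x2000001003) (nat_lit 112)) (.one (nat_lit 0x200000100200500900a00e404a81203441c711)) (.one (nat_lit 0x200000100300500900a00e604a81203441c711)))) (.br (Nat.shiftLeft (nat_lit 0x3000001003) (nat_lit 112)) (.br (Nat.shiftLeft (nat_lit 0x3) (nat_lit 148)) (.one (nat_lit 0x200000200300500900a00e604a81205481c711)) (.one (nat_lit 0x300000100200500900a00e406ac1203441c711))) (.br (Nat.shiftLeft (nat_lit 0x1800001) (nat_lit 125)) (.one (nat_lit 0x300000100300500900a00e606ac1203441c711)) (.br (Nat.shiftLeft (nat_lit 0x1) (nat_lit 150)) (.one (nat_lit 0x300000200300500900a00e606ac1205481c711)) (.one (nat_lit 0x400000100200500900a00e408b01203441c711)))))))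
def t297 : k297.all (jb2 57 fl b0) = true := by decide +kernel
noncomputable def k298 : KT := (.br (Nat.shiftLeft (nat_lit 0x5) (nat_lit 148)) (.br (Nat.shiftLeft (nat_lit 0x2000001) (nat_lit 125)) (.one (nat_lit 0x400000100300500900a00e608b01203441c711)) (.one (nat_lit 0x400000200300500900a00e608b01205481c711))) (.br (Nat.shiftLeft (nat_lit 0x5000001003) (nat_lit 112)) (.one (nat_lit 0x500000100200500900a00e40ab41203441c711)) (.br (Nat.shiftLeft (nat_lit 0x2800001) (nat_lit 125)) (.one (nat_lit 0x500000100300500900a00e60ab41203441c711)) (.one (nat_lit 0x500000200300500900a00e60ab41205481c711)))))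
def t298 : k298.all (jb2 57 fl b0) = true := by decide +kernel
noncomputable def k299 : KT := (.br (Nat.shiftLeft (nat_lit 0x3000001) (nat_lit 125)) (.br (Nat.shiftLeft (nat_lit 0x6000001003) (nat_lit 112)) (.one (nat_lit 0x600000100200500900a00e40cb81203441c711)) (.one (nat_lit 0x600000100300500900a00e60cb81203441c711))) (.br (Nat.shiftLeft (nat_lit 0x7) (nat_lit 148)) (.one (nat_lit 0x600000200300500900a00e60cb81205481c711)) (.one (nat_lit 0x700000100200500900a00e40ebc1203441c711))))
def t299 : k299.all (jb2 57 fl b0) = true := by decide +kernel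
noncomputable def k300 : KT := (.br (Nat.shiftLeft (nat_lit 0x4000001) (nat_lit 125)) (.br (Nat.shiftLeft (nat_lit 0x1) (nat_lit 151)) (.br (Nat.shiftLeft (nat_lit 0x3800001) (nat_lit 125)) (.one (nat_lit 0x700000100300500900a00e60ebc1203441c711)) (.one (nat_lit 0x700000200300500900a00e60ebc1205481c711))) (.br (Nat.shiftLeft (nat_lit 0x8000001003) (nat_lit 112)) (.one (nat_lit 0x800000100200500900a00e410c01203441c711)) (.one (nat_lit 0x800000100300500900a00e610c01203441c711)))) (.br (Nat.shiftLeft (nat_lit 0x9000001003) (nat_lit 112)) (.br (Nat.shiftLeft (nat_lit 0x9) (nat_lit 148)) (.one (nat_lit 0x800000200300500900a00e610c01205481c711)) (.one (nat_lit 0x900000100200500900a00e412c41203441c711))) (.br (Nat.shiftLeft (nat_lit 0x4800001) (nat_lit 125)) (.one (nat_lit 0x900000100300500900a00e612c41203441c711)) (.one (nat_lit 0x900000200300500900a00e612c41205481c711)))))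
def t300 : k300.all (jb2 57 fl b0) = true := by decide +kernel
noncomputable def k301 : KT := (.br (Nat.shiftLeft (nat_lit 0xa000001003) (nat_lit 112)) (.one (nat_lit 0xa00000100200500900a00e414c81203441c711)) (.br (Nat.shiftLeft (nat_lit 0x5000001) (nat_lit 125)) (.one (nat_lit 0xa00000100300500900a00e614c81203441c711)) (.one (nat_lit 0xa00000200300500900a00e614c81205481c711))))
def t301 : k301.all (jb2 57 fl b0) = true := by decide +kernel
noncomputable def s16 : KT := (.br (nat_lit 0x600000100500900a00e200a0d381401c611) (.br (nat_lit 0x600000500900a00e000a0120d581c511) (.br (nat_lit 0x300000500900a00e000a012074c1c511) (.br (nat_lit 0x200300500900a00e600a01205481d700) k284 k285) (.br (nat_lit 0x400000500900a00e000a01209501c511) k286 k287)) (.br (nat_lit 0x100000400500900a00e800a03241401c611) (.br (nat_lit 0x800000500900a00e000a01211601c511) k288 k289) (.br (nat_lit 0x400000300500900a00e600a09301401c611) k290 (.br (nat_lit 0x500000300500900a00e600a0b341401c611) k291 k292)))) (.br (nat_lit 0x900000100500900a00e200a13441401c611)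 (.br (nat_lit 0x700000200500900a00e400a0f3c1401c611) (.br (nat_lit 0x600000400500900a00e800a0d381401c611) k293 k294) (.br (nat_lit 0x800000100500900a00e200a11401401c611) k295 k296)) (.br (nat_lit 0x500000200300500900a00e60ab41205481c711) (.br (nat_lit 0x400000100200500900a00e408b01203441c711) k297 k298) (.br (nat_lit 0x700000100200500900a00e40ebc1203441c711) k299 (.br (nat_lit 0x900000200300500900a00e612c41205481c711) k300 k301)))))
noncomputable def u16 : KT := (.one (nat_lit 0x500900a00e000a01201401c540))
def w16 : u16.all (wj 57 s16) = true := by decide +kernel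
def o16 : OkW 57 (jb2 57 fl) u16 := .lift s16 _ (.br _ _ _ (.br _ _ _ (.br _ _ _ (.br _ _ _ (.leaf b0 k284 t284) (.leaf b0 k285 t285)) (.br _ _ _ (.leaf b0 k286 t286) (.leaf b0 k287 t287))) (.br _ _ _ (.br _ _ _ (.leaf b0 k288 t288) (.leaf b290 k289 t289)) (.br _ _ _ (.leaf b0 k290 t290) (.br _ _ _ (.leaf b0 k291 t291) (.leaf b0 k292 t292))))) (.br _ _ _ (.br _ _ _ (.br _ _ _ (.leaf b0 k293 t293) (.leaf b0 k294 t294)) (.br _ _ _ (.leaf b0 k295 t295) (.leaf b0 k296 t296))) (.br _ _ _ (.br _ _ _ (.leaf b0 k297 t297) (.leaf b0 k298 t298)) (.br _ _ _ (.leaf b0 k299 t299) (.br _ _ _ (.leaf b0 k300 t300) (.leaf b0 k301 t301)))))) w16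
noncomputable def k302 : KT := (.br (Nat.shiftLeft (nat_lit 0x3) (nat_lit 112)) (.br (Nat.shiftLeft (nat_lit 0x100500900a01) (nat_lit 68)) (.br (Nat.shiftLeft (nat_lit 0x500900a01) (nat_lit 68)) (.one (nat_lit 0x500900a00f000a01201401f500)) (.br (Nat.shiftLeft (nat_lit 0x1) (nat_lit 112)) (.one (nat_lit 0x500900a010000a012014021500)) (.one (nat_lit 0x100500900a00f200a01201401f600)))) (.br (Nat.shiftLeft (nat_lit 0x1) (nat_lit 113)) (.one (nat_lit 0x100500900a010200a012014021600)) (.br (Nat.shiftLeft (nat_lit 0x200500900a01) (nat_lit 68)) (.one (nat_lit 0x200500900a00f400a01201401f600)) (.one (nat_lit 0x200500900a010400a012014021600))))) (.br (Nat.shiftLeft (nat_lit 0x400500900a01) (nat_lit 68)) (.br (Nat.shiftLeft (nat_lit 0x300500900a01) (nat_lit 68)) (.one (nat_lit 0x300500900a00f600a01201401f600)) (.br (Nat.shiftLeft (nat_lit 0x1) (nat_lit 114)) (.one (nat_lit 0x300500900a010600a012014021600)) (.one (nat_lit 0x400500900a00f800a01201401f600)))) (.br (Nat.shiftLeft (nat_lit 0x1) (nat_lit 124)) (.one (nat_lit 0x400500900a010800a012014021600))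 (.br (Nat.shiftLeft (nat_lit 0x100000500900a01) (nat_lit 68)) (.one (nat_lit 0x100000500900a00f000a01203441e511)) (.one (nat_lit 0x100000500900a010000a012034420511))))))
def t302 : k302.all (jb2 57 fl b0) = true := by decide +kernel
noncomputable def k303 : KT := (.one (nat_lit 0x100200500900a00f400a01203441e760))
def t303 : k303.all (jb2 57 fl b0) = true := by decide +kernel
noncomputable def k304 : KT := (.one (nat_lit 0x100200500900a010400a012034420760))
def t304 : k304.all (jb2 57 fl b0) = true := by decide +kernel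
noncomputable def k305 : KT := (.one (nat_lit 0x100300500900a00f600a01203441e760))
def t305 : k305.all (jb2 57 fl b0) = true := by decide +kernel
noncomputable def k306 : KT := (.br (Nat.shiftLeft (nat_lit 0x401) (nat_lit 114)) (.one (nat_lit 0x100300500900a010600a012034420760)) (.one (nat_lit 0x100400500900a00f800a01203441e760)))
def t306 : k306.all (jb2 57 fl b0) = true := by decide +kernel
noncomputable def k307 : KT := (.br (Nat.shiftLeft (nat_lit 0x1) (nat_lit 125)) (.one (nat_lit 0x100400500900a010800a012034420760)) (.br (Nat.shiftLeft (nat_lit 0x200000500900a01) (nat_lit 68)) (.one (nat_lit 0x200000500900a00f000a01205481e511)) (.one (nat_lit 0x200000500900a010000a012054820511))))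
def t307 : k307.all (jb2 57 fl b0) = true := by decide +kernel
noncomputable def k308 : KT := (.one (nat_lit 0x200300500900a00f600a01205481e760))
def t308 : k308.all (jb2 57 fl b0) = true := by decide +kernel
noncomputable def k309 : KT := (.one (nat_lit 0x200300500900a010600a012054820760))
def t309 : k309.all (jb2 57 fl b0) = true := by decide +kernel
noncomputable def k310 : KT := (.br (Nat.shiftLeft (nat_lit 0x200400500900a01) (nat_lit 68)) (.one (nat_lit 0x200400500900a00f800a01205481e760)) (.one (nat_lit 0x200400500900a010800a012054820760)))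
def t310 : k310.all (jb2 57 fl b0) = true := by decide +kernel
noncomputable def k311 : KT := (.br (Nat.shiftLeft (nat_lit 0x300000500900a01) (nat_lit 68)) (.one (nat_lit 0x300000500900a00f000a012074c1e511)) (.br (Nat.shiftLeft (nat_lit 0xc01) (nat_lit 114)) (.one (nat_lit 0x300000500900a010000a012074c20511)) (.one (nat_lit 0x300400500900a00f800a012074c1e760))))
def t311 : k311.all (jb2 57 fl b0) = true := by decide +kernel
noncomputable def k312 : KT := (.br (Nat.shiftLeft (nat_lit 0x400000500900a01) (nat_lit 68)) (.br (Nat.shiftLeft (nat_lit 0x1) (nat_lit 126)) (.one (nat_lit 0x300400500900a010800a012074c20760)) (.one (nat_lit 0x400000500900a00f000a01209501e511))) (.br (Nat.shiftLeft (nat_lit 0x5) (nat_lit 124)) (.one (nat_lit 0x400000500900a010000a012095020511)) (.br (Nat.shiftLeft (nat_lit 0x500000500900a01) (nat_lit 68)) (.one (nat_lit 0x500000500900a00f000a0120b541e511)) (.one (nat_lit 0x500000500900a010000a0120b5420511)))))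
def t312 : k312.all (jb2 57 fl b0) = true := by decide +kernel
noncomputable def k313 : KT := (.br (Nat.shiftLeft (nat_lit 0x600000500900a01) (nat_lit 68)) (.one (nat_lit 0x600000500900a00f000a0120d581e511)) (.br (Nat.shiftLeft (nat_lit 0x7) (nat_lit 124)) (.one (nat_lit 0x600000500900a010000a0120d5820511)) (.one (nat_lit 0x700000500900a00f000a0120f5c1e511))))
def t313 : k313.all (jb2 57 fl b0) = true := by decide +kernel
noncomputable def k314 : KT := (.br (Nat.shiftLeft (nat_lit 0x800000500900a01) (nat_lit 68)) (.br (Nat.shiftLeft (nat_lit 0x1) (nat_lit 127)) (.one (nat_lit 0x700000500900a010000a0120f5c20511)) (.one (nat_lit 0x800000500900a00f000a01211601e511))) (.br (Nat.shiftLeft (nat_lit 0x9) (nat_lit 124)) (.one (nat_lit 0x800000500900a010000a012116020511)) (.one (nat_lit 0x900000500900a00f000a01213641e511))))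
noncomputable def b315 : BT := .node (nat_lit 0x1) (nat_lit 0xdb249ba4e00032d8000ca7810008800028) .leaf .leaf
def t314 : k314.all (jb2 57 fl b315) = true := by decide +kernel
noncomputable def k315 : KT := (.br (Nat.shiftLeft (nat_lit 0x2000003) (nat_lit 112)) (.br (Nat.shiftLeft (nat_lit 0x1000003) (nat_lit 112)) (.br (Nat.shiftLeft (nat_lit 0x1) (nat_lit 136)) (.br (Nat.shiftLeft (nat_lit 0x5) (nat_lit 125)) (.one (nat_lit 0x900000500900a010000a012136420511)) (.br (Nat.shiftLeft (nat_lit 0xa00000500900a01) (nat_lit 68)) (.one (nat_lit 0xa00000500900a00f000a01215681e511)) (.one (nat_lit 0xa00000500900a010000a012156820511)))) (.br (Nat.shiftLeft (nat_lit 0x800001) (nat_lit 113)) (.br (Nat.shiftLeft (nat_lit 0x100000100500900a01) (nat_lit 68)) (.one (nat_lit 0x100000100500900a00f200a03241401e611)) (.one (nat_lit 0x100000100500900a010200a032414020611))) (.br (Nat.shiftLeft (nat_lit 0x100000200500900a01) (nat_lit 68)) (.one (nat_lit 0x100000200500900a00f400a03241401e611)) (.one (nat_lit 0x100000200500900a010400a032414020611)))))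 (.br (Nat.shiftLeft (nat_lit 0x1) (nat_lit 137)) (.br (Nat.shiftLeft (nat_lit 0x400001) (nat_lit 114)) (.br (Nat.shiftLeft (nat_lit 0x100000300500900a01) (nat_lit 68)) (.one (nat_lit 0x100000300500900a00f600a03241401e611)) (.one (nat_lit 0x100000300500900a010600a032414020611))) (.br (Nat.shiftLeft (nat_lit 0x100000400500900a01) (nat_lit 68)) (.one (nat_lit 0x100000400500900a00f800a03241401e611)) (.one (nat_lit 0x100000400500900a010800a032414020611)))) (.br (Nat.shiftLeft (nat_lit 0x1000001) (nat_lit 113)) (.br (Nat.shiftLeft (nat_lit 0x200000100500900a01) (nat_lit 68)) (.one (nat_lit 0x200000100500900a00f200a05281401e611)) (.one (nat_lit 0x200000100500900a010200a052814020611))) (.br (Nat.shiftLeft (nat_lit 0x200000200500900a01) (nat_lit 68)) (.one (nat_lit 0x200000200500900a00f400a05281401e611)) (.one (nat_lit 0x200000200500900a010400a052814020611)))))) (.br (Nat.shiftLeft (nat_lit 0x300000200500900a01) (nat_lit 68)) (.br (Nat.shiftLeft (nat_lit 0x200000400500900a01) (nat_lit 68)) (.br (Nat.shiftLeft (nat_lit 0x200000300500900a01)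 (nat_lit 68)) (.one (nat_lit 0x200000300500900a00f600a05281401e611)) (.br (Nat.shiftLeft (nat_lit 0x800001) (nat_lit 114)) (.one (nat_lit 0x200000300500900a010600a052814020611)) (.one (nat_lit 0x200000400500900a00f800a05281401e611)))) (.br (Nat.shiftLeft (nat_lit 0x300000100500900a01) (nat_lit 68)) (.br (Nat.shiftLeft (nat_lit 0x3) (nat_lit 136)) (.one (nat_lit 0x200000400500900a010800a052814020611)) (.one (nat_lit 0x300000100500900a00f200a072c1401e611))) (.br (Nat.shiftLeft (nat_lit 0x1800001) (nat_lit 113)) (.one (nat_lit 0x300000100500900a010200a072c14020611)) (.one (nat_lit 0x300000200500900a00f400a072c1401e611))))) (.br (Nat.shiftLeft (nat_lit 0x300000400500900a01) (nat_lit 68)) (.br (Nat.shiftLeft (nat_lit 0x300000300500900a01) (nat_lit 68)) (.br (Nat.shiftLeft (nat_lit 0x3000003) (nat_lit 112)) (.one (nat_lit 0x300000200500900a010400a072c14020611)) (.one (nat_lit 0x300000300500900a00f600a072c1401e611))) (.br (Nat.shiftLeft (nat_lit 0xc00001) (nat_lit 114)) (.one (nat_lit 0x300000300500900a010600a072c14020611))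 (.one (nat_lit 0x300000400500900a00f800a072c1401e611)))) (.br (Nat.shiftLeft (nat_lit 0x400000100500900a01) (nat_lit 68)) (.br (Nat.shiftLeft (nat_lit 0x1) (nat_lit 138)) (.one (nat_lit 0x300000400500900a010800a072c14020611)) (.one (nat_lit 0x400000100500900a00f200a09301401e611))) (.br (Nat.shiftLeft (nat_lit 0x2000001) (nat_lit 113)) (.one (nat_lit 0x400000100500900a010200a093014020611)) (.one (nat_lit 0x400000200500900a00f400a09301401e611)))))))
def t315 : k315.all (jb2 57 fl b0) = true := by decide +kernel
noncomputable def k316 : KT := (.br (Nat.shiftLeft (nat_lit 0x1000001) (nat_lit 114)) (.br (Nat.shiftLeft (nat_lit 0x4000003) (nat_lit 112)) (.one (nat_lit 0x400000200500900a010400a093014020611)) (.br (Nat.shiftLeft (nat_lit 0x400000300500900a01) (nat_lit 68)) (.one (nat_lit 0x400000300500900a00f600a09301401e611)) (.one (nat_lit 0x400000300500900a010600a093014020611)))) (.br (Nat.shiftLeft (nat_lit 0x5) (nat_lit 136)) (.br (Nat.shiftLeft (nat_lit 0x400000400500900a01) (nat_lit 68)) (.one (nat_lit 0x400000400500900a00f800a09301401e611))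 (.one (nat_lit 0x400000400500900a010800a093014020611))) (.br (Nat.shiftLeft (nat_lit 0x500000100500900a01) (nat_lit 68)) (.one (nat_lit 0x500000100500900a00f200a0b341401e611)) (.one (nat_lit 0x500000100500900a010200a0b3414020611)))))
def t316 : k316.all (jb2 57 fl b0) = true := by decide +kernel
noncomputable def k317 : KT := (.br (Nat.shiftLeft (nat_lit 0x500000300500900a01) (nat_lit 68)) (.br (Nat.shiftLeft (nat_lit 0x500000200500900a01) (nat_lit 68)) (.one (nat_lit 0x500000200500900a00f400a0b341401e611)) (.br (Nat.shiftLeft (nat_lit 0x5000003) (nat_lit 112)) (.one (nat_lit 0x500000200500900a010400a0b3414020611)) (.one (nat_lit 0x500000300500900a00f600a0b341401e611)))) (.br (Nat.shiftLeft (nat_lit 0x1400001) (nat_lit 114)) (.one (nat_lit 0x500000300500900a010600a0b3414020611)) (.br (Nat.shiftLeft (nat_lit 0x500000400500900a01) (nat_lit 68)) (.one (nat_lit 0x500000400500900a00f800a0b341401e611)) (.one (nat_lit 0x500000400500900a010800a0b3414020611)))))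
def t317 : k317.all (jb2 57 fl b0) = true := by decide +kernel
noncomputable def k318 : KT := (.br (Nat.shiftLeft (nat_lit 0x600000100500900a01) (nat_lit 68)) (.one (nat_lit 0x600000100500900a00f200a0d381401e611)) (.br (Nat.shiftLeft (nat_lit 0x3000001) (nat_lit 113)) (.one (nat_lit 0x600000100500900a010200a0d3814020611)) (.one (nat_lit 0x600000200500900a00f400a0d381401e611))))
def t318 : k318.all (jb2 57 fl b0) = true := by decide +kernel
noncomputable def k319 : KT := (.br (Nat.shiftLeft (nat_lit 0x600000300500900a01) (nat_lit 68)) (.br (Nat.shiftLeft (nat_lit 0x6000003) (nat_lit 112)) (.one (nat_lit 0x600000200500900a010400a0d3814020611)) (.one (nat_lit 0x600000300500900a00f600a0d381401e611))) (.br (Nat.shiftLeft (nat_lit 0x1800001) (nat_lit 114)) (.one (nat_lit 0x600000300500900a010600a0d3814020611)) (.br (Nat.shiftLeft (nat_lit 0x600000400500900a01) (nat_lit 68)) (.one (nat_lit 0x600000400500900a00f800a0d381401e611)) (.one (nat_lit 0x600000400500900a010800a0d3814020611)))))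
def t319 : k319.all (jb2 57 fl b0) = true := by decide +kernel
noncomputable def k320 : KT := (.br (Nat.shiftLeft (nat_lit 0x700000100500900a01) (nat_lit 68)) (.one (nat_lit 0x700000100500900a00f200a0f3c1401e611)) (.br (Nat.shiftLeft (nat_lit 0x3800001) (nat_lit 113)) (.one (nat_lit 0x700000100500900a010200a0f3c14020611)) (.one (nat_lit 0x700000200500900a00f400a0f3c1401e611))))
def t320 : k320.all (jb2 57 fl b0) = true := by decide +kernel
noncomputable def k321 : KT := (.br (Nat.shiftLeft (nat_lit 0x1c00001) (nat_lit 114)) (.br (Nat.shiftLeft (nat_lit 0x7000003) (nat_lit 112)) (.one (nat_lit 0x700000200500900a010400a0f3c14020611)) (.br (Nat.shiftLeft (nat_lit 0x700000300500900a01) (nat_lit 68)) (.one (nat_lit 0x700000300500900a00f600a0f3c1401e611)) (.one (nat_lit 0x700000300500900a010600a0f3c14020611)))) (.br (Nat.shiftLeft (nat_lit 0x700000400500900a01) (nat_lit 68)) (.one (nat_lit 0x700000400500900a00f800a0f3c1401e611)) (.br (Nat.shiftLeft (nat_lit 0x1) (nat_lit 139)) (.one (nat_lit 0x700000400500900a010800a0f3c14020611))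 (.one (nat_lit 0x800000100500900a00f200a11401401e611)))))
def t321 : k321.all (jb2 57 fl b0) = true := by decide +kernel
noncomputable def k322 : KT := (.br (Nat.shiftLeft (nat_lit 0x800000300500900a01) (nat_lit 68)) (.br (Nat.shiftLeft (nat_lit 0x800000200500900a01) (nat_lit 68)) (.br (Nat.shiftLeft (nat_lit 0x4000001) (nat_lit 113)) (.one (nat_lit 0x800000100500900a010200a114014020611)) (.one (nat_lit 0x800000200500900a00f400a11401401e611))) (.br (Nat.shiftLeft (nat_lit 0x8000003) (nat_lit 112)) (.one (nat_lit 0x800000200500900a010400a114014020611)) (.one (nat_lit 0x800000300500900a00f600a11401401e611)))) (.br (Nat.shiftLeft (nat_lit 0x800000400500900a01) (nat_lit 68)) (.br (Nat.shiftLeft (nat_lit 0x2000001) (nat_lit 114)) (.one (nat_lit 0x800000300500900a010600a114014020611)) (.one (nat_lit 0x800000400500900a00f800a11401401e611))) (.br (Nat.shiftLeft (nat_lit 0x9) (nat_lit 136)) (.one (nat_lit 0x800000400500900a010800a114014020611)) (.one (nat_lit 0x900000100500900a00f200a13441401e611)))))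
def t322 : k322.all (jb2 57 fl b0) = true := by decide +kernel
noncomputable def k323 : KT := (.br (Nat.shiftLeft (nat_lit 0x5) (nat_lit 137)) (.br (Nat.shiftLeft (nat_lit 0x9000003) (nat_lit 112)) (.br (Nat.shiftLeft (nat_lit 0x4800001) (nat_lit 113)) (.one (nat_lit 0x900000100500900a010200a134414020611)) (.br (Nat.shiftLeft (nat_lit 0x900000200500900a01) (nat_lit 68)) (.one (nat_lit 0x900000200500900a00f400a13441401e611)) (.one (nat_lit 0x900000200500900a010400a134414020611)))) (.br (Nat.shiftLeft (nat_lit 0x2400001) (nat_lit 114)) (.br (Nat.shiftLeft (nat_lit 0x900000300500900a01) (nat_lit 68)) (.one (nat_lit 0x900000300500900a00f600a13441401e611)) (.one (nat_lit 0x900000300500900a010600a134414020611))) (.br (Nat.shiftLeft (nat_lit 0x900000400500900a01) (nat_lit 68)) (.one (nat_lit 0x900000400500900a00f800a13441401e611)) (.one (nat_lit 0x900000400500900a010800a134414020611))))) (.br (Nat.shiftLeft (nat_lit 0xa000003) (nat_lit 112)) (.br (Nat.shiftLeft (nat_lit 0x5000001) (nat_lit 113)) (.br (Nat.shiftLeft (nat_lit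 0xa00000100500900a01) (nat_lit 68)) (.one (nat_lit 0xa00000100500900a00f200a15481401e611)) (.one (nat_lit 0xa00000100500900a010200a154814020611))) (.br (Nat.shiftLeft (nat_lit 0xa00000200500900a01) (nat_lit 68)) (.one (nat_lit 0xa00000200500900a00f400a15481401e611)) (.one (nat_lit 0xa00000200500900a010400a154814020611)))) (.br (Nat.shiftLeft (nat_lit 0x2800001) (nat_lit 114)) (.br (Nat.shiftLeft (nat_lit 0xa00000300500900a01) (nat_lit 68)) (.one (nat_lit 0xa00000300500900a00f600a15481401e611)) (.one (nat_lit 0xa00000300500900a010600a154814020611))) (.br (Nat.shiftLeft (nat_lit 0xa00000400500900a01) (nat_lit 68)) (.one (nat_lit 0xa00000400500900a00f800a15481401e611)) (.one (nat_lit 0xa00000400500900a010800a154814020611))))))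
def t323 : k323.all (jb2 57 fl b0) = true := by decide +kernel
noncomputable def s17 : KT := (.br (nat_lit 0x500000500900a010000a0120b5420511) (.br (nat_lit 0x100400500900a00f800a01203441e760) (.br (nat_lit 0x100200500900a00f400a01203441e760) (.br (nat_lit 0x100000500900a010000a012034420511) k302 k303) (.br (nat_lit 0x100200500900a010400a012034420760) k304 (.br (nat_lit 0x100300500900a00f600a01203441e760) k305 k306))) (.br (nat_lit 0x200300500900a010600a012054820760) (.br (nat_lit 0x200000500900a010000a012054820511) k307 (.br (nat_lit 0x200300500900a00f600a01205481e760) k308 k309)) (.br (nat_lit 0x200400500900a010800a012054820760) k310 (.br (nat_lit 0x300400500900a00f800a012074c1e760) k311 k312)))) (.br (nat_lit 0x500000400500900a010800a0b3414020611) (.br (nat_lit 0x900000500900a00f000a01213641e511) (.br (nat_lit 0x700000500900a00f000a0120f5c1e511) k313 k314) (.br (nat_lit 0x400000200500900a00f400a09301401e611) k315 (.br (nat_lit 0x500000100500900a010200a0b3414020611) k316 k317))) (.br (nat_lit 0x700000200500900a00f400a0f3c1401e611)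 (.br (nat_lit 0x600000200500900a00f400a0d381401e611) k318 (.br (nat_lit 0x600000400500900a010800a0d3814020611) k319 k320)) (.br (nat_lit 0x800000100500900a00f200a11401401e611) k321 (.br (nat_lit 0x900000100500900a00f200a13441401e611) k322 k323)))))
noncomputable def u17 : KT := (.br (Nat.shiftLeft (nat_lit 0x500900a01) (nat_lit 68)) (.one (nat_lit 0x500900a00f000a01201401e540)) (.one (nat_lit 0x500900a010000a012014020540)))
def w17 : u17.all (wj 57 s17) = true := by decide +kernel
def o17 : OkW 57 (jb2 57 fl) u17 := .lift s17 _ (.br _ _ _ (.br _ _ _ (.br _ _ _ (.br _ _ _ (.leaf b0 k302 t302) (.leaf b0 k303 t303)) (.br _ _ _ (.leaf b0 k304 t304) (.br _ _ _ (.leaf b0 k305 t305) (.leaf b0 k306 t306)))) (.br _ _ _ (.br _ _ _ (.leaf b0 k307 t307) (.br _ _ _ (.leaf b0 k308 t308) (.leaf b0 k309 t309))) (.br _ _ _ (.leaf b0 k310 t310) (.br _ _ _ (.leaf b0 k311 t311) (.leaf b0 k312 t312))))) (.br _ _ _ (.br _ _ _ (.br _ _ _ (.leaf b0 k313 t313) (.leaf b315 k314 t314)) (.br _ _ _ (.leaf b0 k315 t315) (.br _ _ _ (.leaf b0 k316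 t316) (.leaf b0 k317 t317)))) (.br _ _ _ (.br _ _ _ (.leaf b0 k318 t318) (.br _ _ _ (.leaf b0 k319 t319) (.leaf b0 k320 t320))) (.br _ _ _ (.leaf b0 k321 t321) (.br _ _ _ (.leaf b0 k322 t322) (.leaf b0 k323 t323)))))) w17
noncomputable def k324 : KT := (.br (Nat.shiftLeft (nat_lit 0x500900b) (nat_lit 76)) (.br (Nat.shiftLeft (nat_lit 0x2804805009) (nat_lit 65)) (.one (nat_lit 0x500900a011000a012014023500)) (.one (nat_lit 0x500900a012000a012014025500))) (.br (Nat.shiftLeft (nat_lit 0x1) (nat_lit 112)) (.one (nat_lit 0x500900b00c000a012016019500)) (.one (nat_lit 0x100500900a011200a012014022650))))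
def t324 : k324.all (jb2 57 fl b0) = true := by decide +kernel
noncomputable def k325 : KT := (.br (Nat.shiftLeft (nat_lit 0x1) (nat_lit 113)) (.one (nat_lit 0x100500900a012200a012014024650)) (.one (nat_lit 0x200500900a011400a012014023600)))
def t325 : k325.all (jb2 57 fl b0) = true := by decide +kernel
noncomputable def k326 : KT := (.br (Nat.shiftLeft (nat_lit 0x3) (nat_lit 112)) (.one (nat_lit 0x200500900a012400a012014024650)) (.one (nat_lit 0x300500900a011600a012014023600)))
def t326 : k326.all (jb2 57 fl b0) = true := by decide +kernel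
noncomputable def k327 : KT := (.br (Nat.shiftLeft (nat_lit 0x1) (nat_lit 114)) (.one (nat_lit 0x300500900a012600a012014024650)) (.one (nat_lit 0x400500900a011800a012014023600)))
def t327 : k327.all (jb2 57 fl b0) = true := by decide +kernel
noncomputable def k328 : KT := (.br (Nat.shiftLeft (nat_lit 0x1) (nat_lit 124)) (.one (nat_lit 0x400500900a012800a012014024650)) (.br (Nat.shiftLeft (nat_lit 0x800002804805009) (nat_lit 65)) (.one (nat_lit 0x100000500900a011000a012034422511)) (.one (nat_lit 0x100000500900a012000a012034424511))))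
def t328 : k328.all (jb2 57 fl b0) = true := by decide +kernel
noncomputable def k329 : KT := (.br (Nat.shiftLeft (nat_lit 0x1003) (nat_lit 112)) (.one (nat_lit 0x100200500900a011400a012034422760)) (.one (nat_lit 0x100300500900a011600a012034422760)))
def t329 : k329.all (jb2 57 fl b0) = true := by decide +kernel
noncomputable def k330 : KT := (.br (Nat.shiftLeft (nat_lit 0x1001) (nat_lit 113)) (.br (Nat.shiftLeft (nat_lit 0x1) (nat_lit 125)) (.one (nat_lit 0x100400500900a011800a012034422760)) (.br (Nat.shiftLeft (nat_lit 0x1000002804805009) (nat_lit 65)) (.one (nat_lit 0x200000500900a011000a012054822511)) (.one (nat_lit 0x200000500900a012000a012054824511)))) (.br (Nat.shiftLeft (nat_lit 0x3) (nat_lit 124)) (.br (Nat.shiftLeft (nat_lit 0x801) (nat_lit 114)) (.one (nat_lit 0x200300500900a011600a012054822760)) (.one (nat_lit 0x200400500900a011800a012054822760))) (.br (Nat.shiftLeft (nat_lit 0x1800002804805009) (nat_lit 65)) (.one (nat_lit 0x300000500900a011000a012074c22511)) (.one (nat_lit 0x300000500900a012000a012074c24511)))))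
def t330 : k330.all (jb2 57 fl b0) = true := by decide +kernel
noncomputable def k331 : KT := (.br (Nat.shiftLeft (nat_lit 0x5) (nat_lit 124)) (.br (Nat.shiftLeft (nat_lit 0x1) (nat_lit 126)) (.one (nat_lit 0x300400500900a011800a012074c22760)) (.br (Nat.shiftLeft (nat_lit 0x2000002804805009) (nat_lit 65)) (.one (nat_lit 0x400000500900a011000a012095022511)) (.one (nat_lit 0x400000500900a012000a012095024511)))) (.br (Nat.shiftLeft (nat_lit 0x3) (nat_lit 125)) (.br (Nat.shiftLeft (nat_lit 0x2800002804805009) (nat_lit 65)) (.one (nat_lit 0x500000500900a011000a0120b5422511)) (.one (nat_lit 0x500000500900a012000a0120b5424511))) (.br (Nat.shiftLeft (nat_lit 0x3000002804805009) (nat_lit 65)) (.one (nat_lit 0x600000500900a011000a0120d5822511)) (.one (nat_lit 0x600000500900a012000a0120d5824511)))))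
def t331 : k331.all (jb2 57 fl b0) = true := by decide +kernel
noncomputable def k332 : KT := (.br (Nat.shiftLeft (nat_lit 0x1000003) (nat_lit 112)) (.br (Nat.shiftLeft (nat_lit 0x9) (nat_lit 124)) (.br (Nat.shiftLeft (nat_lit 0x1) (nat_lit 127)) (.br (Nat.shiftLeft (nat_lit 0x3800002804805009) (nat_lit 65)) (.one (nat_lit 0x700000500900a011000a0120f5c22511)) (.one (nat_lit 0x700000500900a012000a0120f5c24511))) (.br (Nat.shiftLeft (nat_lit 0x4000002804805009) (nat_lit 65)) (.one (nat_lit 0x800000500900a011000a012116022511)) (.one (nat_lit 0x800000500900a012000a012116024511)))) (.br (Nat.shiftLeft (nat_lit 0x5) (nat_lit 125)) (.br (Nat.shiftLeft (nat_lit 0x4800002804805009) (nat_lit 65)) (.one (nat_lit 0x900000500900a011000a012136422511)) (.one (nat_lit 0x900000500900a012000a012136424511))) (.br (Nat.shiftLeft (nat_lit 0x5000002804805009) (nat_lit 65)) (.one (nat_lit 0xa00000500900a011000a012156822511)) (.br (Nat.shiftLeft (nat_lit 0x1) (nat_lit 136)) (.one (nat_lit 0xa00000500900a012000a012156824511)) (.one (nat_lit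 0x100000200500900a011400a032414022611)))))) (.br (Nat.shiftLeft (nat_lit 0x3) (nat_lit 136)) (.br (Nat.shiftLeft (nat_lit 0x1) (nat_lit 137)) (.br (Nat.shiftLeft (nat_lit 0x400001) (nat_lit 114)) (.one (nat_lit 0x100000300500900a011600a032414022611)) (.one (nat_lit 0x100000400500900a011800a032414022611))) (.br (Nat.shiftLeft (nat_lit 0x2000003) (nat_lit 112)) (.one (nat_lit 0x200000200500900a011400a052814022611)) (.br (Nat.shiftLeft (nat_lit 0x800001) (nat_lit 114)) (.one (nat_lit 0x200000300500900a011600a052814022611)) (.one (nat_lit 0x200000400500900a011800a052814022611))))) (.br (Nat.shiftLeft (nat_lit 0xc00001) (nat_lit 114)) (.br (Nat.shiftLeft (nat_lit 0x3000003) (nat_lit 112)) (.one (nat_lit 0x300000200500900a011400a072c14022611)) (.one (nat_lit 0x300000300500900a011600a072c14022611))) (.br (Nat.shiftLeft (nat_lit 0x1) (nat_lit 138)) (.one (nat_lit 0x300000400500900a011800a072c14022611)) (.br (Nat.shiftLeft (nat_lit 0x4000003) (nat_lit 112)) (.one (nat_lit 0x400000200500900a011400a093014022611)) (.one (nat_lit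 0x400000300500900a011600a093014022611)))))))
def t332 : k332.all (jb2 57 fl b0) = true := by decide +kernel
noncomputable def k333 : KT := (.br (Nat.shiftLeft (nat_lit 0x1800001) (nat_lit 114)) (.br (Nat.shiftLeft (nat_lit 0x1400001) (nat_lit 114)) (.br (Nat.shiftLeft (nat_lit 0x5) (nat_lit 136)) (.one (nat_lit 0x400000400500900a011800a093014022611)) (.br (Nat.shiftLeft (nat_lit 0x5000003) (nat_lit 112)) (.one (nat_lit 0x500000200500900a011400a0b3414022611)) (.one (nat_lit 0x500000300500900a011600a0b3414022611)))) (.br (Nat.shiftLeft (nat_lit 0x3) (nat_lit 137)) (.one (nat_lit 0x500000400500900a011800a0b3414022611)) (.br (Nat.shiftLeft (nat_lit 0x6000003) (nat_lit 112)) (.one (nat_lit 0x600000200500900a011400a0d3814022611)) (.one (nat_lit 0x600000300500900a011600a0d3814022611))))) (.br (Nat.shiftLeft (nat_lit 0x1c00001) (nat_lit 114)) (.br (Nat.shiftLeft (nat_lit 0x7) (nat_lit 136)) (.one (nat_lit 0x600000400500900a011800a0d3814022611)) (.br (Nat.shiftLeft (nat_lit 0x7000003) (nat_lit 112)) (.one (nat_lit 0x700000200500900a011400a0f3c14022611))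 (.one (nat_lit 0x700000300500900a011600a0f3c14022611)))) (.br (Nat.shiftLeft (nat_lit 0x8000003) (nat_lit 112)) (.br (Nat.shiftLeft (nat_lit 0x1) (nat_lit 139)) (.one (nat_lit 0x700000400500900a011800a0f3c14022611)) (.one (nat_lit 0x800000200500900a011400a114014022611))) (.br (Nat.shiftLeft (nat_lit 0x2000001) (nat_lit 114)) (.one (nat_lit 0x800000300500900a011600a114014022611)) (.one (nat_lit 0x800000400500900a011800a114014022611))))))
def t333 : k333.all (jb2 57 fl b0) = true := by decide +kernel
noncomputable def k334 : KT := (.br (Nat.shiftLeft (nat_lit 0x5) (nat_lit 137)) (.br (Nat.shiftLeft (nat_lit 0x9000003) (nat_lit 112)) (.one (nat_lit 0x900000200500900a011400a134414022611)) (.br (Nat.shiftLeft (nat_lit 0x2400001) (nat_lit 114)) (.one (nat_lit 0x900000300500900a011600a134414022611)) (.one (nat_lit 0x900000400500900a011800a134414022611)))) (.br (Nat.shiftLeft (nat_lit 0xa000003) (nat_lit 112)) (.one (nat_lit 0xa00000200500900a011400a154814022611)) (.br (Nat.shiftLeft (nat_lit 0x2800001) (nat_lit 114)) (.one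 (nat_lit 0xa00000300500900a011600a154814022611)) (.one (nat_lit 0xa00000400500900a011800a154814022611)))))
def t334 : k334.all (jb2 57 fl b0) = true := by decide +kernel
noncomputable def s18 : KT := (.br (nat_lit 0x100000500900a012000a012034424511) (.br (nat_lit 0x200500900a011400a012014023600) (.br (nat_lit 0x100500900a011200a012014022650) k324 k325) (.br (nat_lit 0x300500900a011600a012014023600) k326 (.br (nat_lit 0x400500900a011800a012014023600) k327 k328))) (.br (nat_lit 0x600000500900a012000a0120d5824511) (.br (nat_lit 0x100300500900a011600a012034422760) k329 (.br (nat_lit 0x300000500900a012000a012074c24511) k330 k331)) (.br (nat_lit 0x400000300500900a011600a093014022611) k332 (.br (nat_lit 0x800000400500900a011800a114014022611) k333 k334))))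
noncomputable def u18 : KT := (.br (Nat.shiftLeft (nat_lit 0x2804805009) (nat_lit 65)) (.one (nat_lit 0x500900a011000a012014022540)) (.br (Nat.shiftLeft (nat_lit 0x500900b) (nat_lit 76)) (.one (nat_lit 0x500900a012000a012014024540)) (.one (nat_lit 0x500900b00c000a012016019500))))
def w18 : u18.all (wj 57 s18) = true := by decide +kernel
def o18 : OkW 57 (jb2 57 fl) u18 := .lift s18 _ (.br _ _ _ (.br _ _ _ (.br _ _ _ (.leaf b0 k324 t324) (.leaf b0 k325 t325)) (.br _ _ _ (.leaf b0 k326 t326) (.br _ _ _ (.leaf b0 k327 t327) (.leaf b0 k328 t328)))) (.br _ _ _ (.br _ _ _ (.leaf b0 k329 t329) (.br _ _ _ (.leaf b0 k330 t330) (.leaf b0 k331 t331))) (.br _ _ _ (.leaf b0 k332 t332) (.br _ _ _ (.leaf b0 k333 t333) (.leaf b0 k334 t334))))) w18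
noncomputable def k335 : KT := (.br (Nat.shiftLeft (nat_lit 0x1) (nat_lit 124)) (.br (Nat.shiftLeft (nat_lit 0x1) (nat_lit 113)) (.br (Nat.shiftLeft (nat_lit 0x1) (nat_lit 112)) (.one (nat_lit 0x500900b00d000a01201601b500)) (.one (nat_lit 0x100500900b00d200a01201601b600))) (.br (Nat.shiftLeft (nat_lit 0x3) (nat_lit 112)) (.one (nat_lit 0x200500900b00d400a01201601b600)) (.br (Nat.shiftLeft (nat_lit 0x1) (nat_lit 114)) (.one (nat_lit 0x300500900b00d600a01201601b600)) (.one (nat_lit 0x400500900b00d800a01201601b600))))) (.br (Nat.shiftLeft (nat_lit 0x401) (nat_lit 114)) (.br (Nat.shiftLeft (nat_lit 0x801) (nat_lit 113)) (.one (nat_lit 0x100000500900b00d000a01203641a511)) (.br (Nat.shiftLeft (nat_lit 0x1003) (nat_lit 112)) (.one (nat_lit 0x100200500900b00d400a01203641b700)) (.one (nat_lit 0x100300500900b00d600a01203641b700)))) (.br (Nat.shiftLeft (nat_lit 0x1) (nat_lit 125)) (.one (nat_lit 0x100400500900b00d800a01203641a760)) (.br (Nat.shiftLeft (nat_lit 0x1001) (nat_lit 113)) (.one (nat_lit 0x200000500900b00d000a01205681a511))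 (.one (nat_lit 0x200300500900b00d600a01205681b700))))))
def t335 : k335.all (jb2 57 fl b0) = true := by decide +kernel
noncomputable def k336 : KT := (.br (Nat.shiftLeft (nat_lit 0x3) (nat_lit 124)) (.one (nat_lit 0x200400500900b00d800a01205681a760)) (.one (nat_lit 0x300000500900b00d000a012076c1a511)))
def t336 : k336.all (jb2 57 fl b0) = true := by decide +kernel
noncomputable def k337 : KT := (.br (Nat.shiftLeft (nat_lit 0x1) (nat_lit 126)) (.one (nat_lit 0x300400500900b00d800a012076c1a760)) (.one (nat_lit 0x400000500900b00d000a01209701a511)))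
def t337 : k337.all (jb2 57 fl b0) = true := by decide +kernel
noncomputable def k338 : KT := (.br (Nat.shiftLeft (nat_lit 0x3) (nat_lit 125)) (.one (nat_lit 0x500000500900b00d000a0120b741a511)) (.one (nat_lit 0x600000500900b00d000a0120d781a511)))
def t338 : k338.all (jb2 57 fl b0) = true := by decide +kernel
noncomputable def k339 : KT := (.br (Nat.shiftLeft (nat_lit 0x1) (nat_lit 127)) (.one (nat_lit 0x700000500900b00d000a0120f7c1a511)) (.one (nat_lit 0x800000500900b00d000a01211801a511)))
def t339 : k339.all (jb2 57 fl b0) = true := by decide +kernel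
noncomputable def k340 : KT := (.br (Nat.shiftLeft (nat_lit 0x1) (nat_lit 136)) (.br (Nat.shiftLeft (nat_lit 0x5) (nat_lit 125)) (.one (nat_lit 0x900000500900b00d000a01213841a511)) (.br (Nat.shiftLeft (nat_lit 0xb) (nat_lit 124)) (.one (nat_lit 0xa00000500900b00d000a01215881a511)) (.one (nat_lit 0xb00000500900b00d000a012178c1a511)))) (.br (Nat.shiftLeft (nat_lit 0x1000003) (nat_lit 112)) (.br (Nat.shiftLeft (nat_lit 0x800001) (nat_lit 113)) (.one (nat_lit 0x100000100500900b00d200a03241601a611)) (.one (nat_lit 0x100000200500900b00d400a03241601a611))) (.br (Nat.shiftLeft (nat_lit 0x400001) (nat_lit 114)) (.one (nat_lit 0x100000300500900b00d600a03241601a611)) (.one (nat_lit 0x100000400500900b00d800a03241601a611)))))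
def t340 : k340.all (jb2 57 fl b0) = true := by decide +kernel
noncomputable def k341 : KT := (.br (Nat.shiftLeft (nat_lit 0x3) (nat_lit 136)) (.br (Nat.shiftLeft (nat_lit 0x1000001) (nat_lit 113)) (.br (Nat.shiftLeft (nat_lit 0x1) (nat_lit 137)) (.one (nat_lit 0x100200300500900b00d600a03245681a870)) (.one (nat_lit 0x200000100500900b00d200a05281601a611))) (.br (Nat.shiftLeft (nat_lit 0x2000003) (nat_lit 112)) (.one (nat_lit 0x200000200500900b00d400a05281601a611)) (.br (Nat.shiftLeft (nat_lit 0x800001) (nat_lit 114)) (.one (nat_lit 0x200000300500900b00d600a05281601a611)) (.one (nat_lit 0x200000400500900b00d800a05281601a611))))) (.br (Nat.shiftLeft (nat_lit 0xc00001) (nat_lit 114)) (.br (Nat.shiftLeft (nat_lit 0x1800001) (nat_lit 113)) (.one (nat_lit 0x300000100500900b00d200a072c1601a611)) (.br (Nat.shiftLeft (nat_lit 0x3000003) (nat_lit 112)) (.one (nat_lit 0x300000200500900b00d400a072c1601a611)) (.one (nat_lit 0x300000300500900b00d600a072c1601a611)))) (.br (Nat.shiftLeft (nat_lit 0x1) (nat_lit 138)) (.one (nat_lit 0x300000400500900b00d800a072c1601a611))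 (.br (Nat.shiftLeft (nat_lit 0x2000001) (nat_lit 113)) (.one (nat_lit 0x400000100500900b00d200a09301601a611)) (.one (nat_lit 0x400000200500900b00d400a09301601a611))))))
def t341 : k341.all (jb2 57 fl b0) = true := by decide +kernel
noncomputable def k342 : KT := (.br (Nat.shiftLeft (nat_lit 0x5) (nat_lit 136)) (.br (Nat.shiftLeft (nat_lit 0x1000001) (nat_lit 114)) (.one (nat_lit 0x400000300500900b00d600a09301601a611)) (.one (nat_lit 0x400000400500900b00d800a09301601a611))) (.br (Nat.shiftLeft (nat_lit 0x2800001) (nat_lit 113)) (.one (nat_lit 0x500000100500900b00d200a0b341601a611)) (.one (nat_lit 0x500000200500900b00d400a0b341601a611))))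
def t342 : k342.all (jb2 57 fl b0) = true := by decide +kernel
noncomputable def k343 : KT := (.br (Nat.shiftLeft (nat_lit 0x1400001) (nat_lit 114)) (.one (nat_lit 0x500000300500900b00d600a0b341601a611)) (.one (nat_lit 0x500000400500900b00d800a0b341601a611)))
noncomputable def b344 : BT := .node (nat_lit 0x1) (nat_lit 0x49a92f0ae493425b92f00039df000af540032d8000ca7c2000e300028) .leaf .leaf
def t343 : k343.all (jb2 57 fl b344) = true := by decide +kernel
noncomputable def k344 : KT := (.one (nat_lit 0x600000100500900b00d200a0d381601a611))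
noncomputable def b345 : BT := .node (nat_lit 0x1) (nat_lit 0x93527524d40032dc000cb6010008800028) .leaf .leaf
def t344 : k344.all (jb2 57 fl b345) = true := by decide +kernel
noncomputable def k345 : KT := (.br (Nat.shiftLeft (nat_lit 0x6000003) (nat_lit 112)) (.one (nat_lit 0x600000200500900b00d400a0d381601a611)) (.one (nat_lit 0x600000300500900b00d600a0d381601a611)))
noncomputable def b346 : BT := .node (nat_lit 0xb) (nat_lit 0xde12a215c8003a5a0008e601db327524d40032dc000ab681001b0001500015000150001500015000150001500015000150000f0000f0) .leaf .leaf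
def t345 : k345.all (jb2 57 fl b346) = true := by decide +kernel
noncomputable def k346 : KT := (.br (Nat.shiftLeft (nat_lit 0x7) (nat_lit 136)) (.one (nat_lit 0x600000400500900b00d800a0d381601a611)) (.one (nat_lit 0x700000100500900b00d200a0f3c1601a611)))
def t346 : k346.all (jb2 57 fl b0) = true := by decide +kernel
noncomputable def k347 : KT := (.br (Nat.shiftLeft (nat_lit 0x7000003) (nat_lit 112)) (.one (nat_lit 0x700000200500900b00d400a0f3c1601a611)) (.br (Nat.shiftLeft (nat_lit 0x1c00001) (nat_lit 114)) (.one (nat_lit 0x700000300500900b00d600a0f3c1601a611)) (.one (nat_lit 0x700000400500900b00d800a0f3c1601a611))))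
def t347 : k347.all (jb2 57 fl b0) = true := by decide +kernel
noncomputable def k348 : KT := (.br (Nat.shiftLeft (nat_lit 0x4000001) (nat_lit 113)) (.one (nat_lit 0x800000100500900b00d200a11401601a611)) (.br (Nat.shiftLeft (nat_lit 0x8000003) (nat_lit 112)) (.one (nat_lit 0x800000200500900b00d400a11401601a611)) (.one (nat_lit 0x800000300500900b00d600a11401601a611))))
def t348 : k348.all (jb2 57 fl b0) = true := by decide +kernel
noncomputable def k349 : KT := (.br (Nat.shiftLeft (nat_lit 0x9000003) (nat_lit 112)) (.br (Nat.shiftLeft (nat_lit 0x9) (nat_lit 136)) (.one (nat_lit 0x800000400500900b00d800a11401601a611)) (.br (Nat.shiftLeft (nat_lit 0x4800001) (nat_lit 113)) (.one (nat_lit 0x900000100500900b00d200a13441601a611)) (.one (nat_lit 0x900000200500900b00d400a13441601a611)))) (.br (Nat.shiftLeft (nat_lit 0x2400001) (nat_lit 114)) (.one (nat_lit 0x900000300500900b00d600a13441601a611)) (.br (Nat.shiftLeft (nat_lit 0x5) (nat_lit 137)) (.one (nat_lit 0x900000400500900b00d800a13441601a611)) (.one (nat_lit 0xa00000100500900b00d200a15481601a611)))))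
def t349 : k349.all (jb2 57 fl b0) = true := by decide +kernel
noncomputable def k350 : KT := (.br (Nat.shiftLeft (nat_lit 0x800001) (nat_lit 125)) (.br (Nat.shiftLeft (nat_lit 0x5800001) (nat_lit 113)) (.br (Nat.shiftLeft (nat_lit 0x2800001) (nat_lit 114)) (.br (Nat.shiftLeft (nat_lit 0xa000003) (nat_lit 112)) (.one (nat_lit 0xa00000200500900b00d400a15481601a611)) (.one (nat_lit 0xa00000300500900b00d600a15481601a611))) (.br (Nat.shiftLeft (nat_lit 0xb) (nat_lit 136)) (.one (nat_lit 0xa00000400500900b00d800a15481601a611)) (.one (nat_lit 0xb00000100500900b00d200a174c1601a611)))) (.br (Nat.shiftLeft (nat_lit 0x2c00001) (nat_lit 114)) (.br (Nat.shiftLeft (nat_lit 0xb000003) (nat_lit 112)) (.one (nat_lit 0xb00000200500900b00d400a174c1601a611)) (.one (nat_lit 0xb00000300500900b00d600a174c1601a611))) (.br (Nat.shiftLeft (nat_lit 0x1) (nat_lit 148)) (.one (nat_lit 0xb00000400500900b00d800a174c1601a611)) (.br (Nat.shiftLeft (nat_lit 0x1000001003) (nat_lit 112)) (.one (nat_lit 0x100000100200500900b00d402a41203641a711)) (.one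 (nat_lit 0x100000100300500900b00d602a41203641a711)))))) (.br (Nat.shiftLeft (nat_lit 0x3000001003) (nat_lit 112)) (.br (Nat.shiftLeft (nat_lit 0x2000001003) (nat_lit 112)) (.br (Nat.shiftLeft (nat_lit 0x1) (nat_lit 149)) (.one (nat_lit 0x100000200300500900b00d602a41205681a711)) (.one (nat_lit 0x200000100200500900b00d404a81203641a711))) (.br (Nat.shiftLeft (nat_lit 0x1000001) (nat_lit 125)) (.one (nat_lit 0x200000100300500900b00d604a81203641a711)) (.br (Nat.shiftLeft (nat_lit 0x3) (nat_lit 148)) (.one (nat_lit 0x200000200300500900b00d604a81205681a711)) (.one (nat_lit 0x300000100200500900b00d406ac1203641a711))))) (.br (Nat.shiftLeft (nat_lit 0x1) (nat_lit 150)) (.br (Nat.shiftLeft (nat_lit 0x1800001) (nat_lit 125)) (.one (nat_lit 0x300000100300500900b00d606ac1203641a711)) (.one (nat_lit 0x300000200300500900b00d606ac1205681a711))) (.br (Nat.shiftLeft (nat_lit 0x4000001003) (nat_lit 112)) (.one (nat_lit 0x400000100200500900b00d408b01203641a711)) (.br (Nat.shiftLeft (nat_lit 0x2000001) (nat_lit 125)) (.one (nat_lit 0x400000100300500900b00d608b01203641a711))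 (.one (nat_lit 0x400000200300500900b00d608b01205681a711)))))))
def t350 : k350.all (jb2 57 fl b0) = true := by decide +kernel
noncomputable def k351 : KT := (.br (Nat.shiftLeft (nat_lit 0x5000001003) (nat_lit 112)) (.one (nat_lit 0x500000100200500900b00d40ab41203641a711)) (.br (Nat.shiftLeft (nat_lit 0x2800001) (nat_lit 125)) (.one (nat_lit 0x500000100300500900b00d60ab41203641a711)) (.one (nat_lit 0x500000200300500900b00d60ab41205681a711))))
noncomputable def b352 : BT := .node (nat_lit 0x2f) (nat_lit 0x36c8a3093449a12f0ae40019ac00055b2001cf000057aa14b115c92c60019ab00065b00c9a13acb42db24b195112c693525e000734200160a00065b00015ac80074b200156f872312a224d40033570008b6c1db22749464003a1b0008d781006b2006b2006b2006b2006b2006b2005f7005f7005f7005f7005f7005f7005f7005f7005f7005f7005f7005f7005f7005f7005f7005f700597005970059700597005970059700597005970059700597005970059700481004200042000420003c0003c0003c0003c0003c0003c0003c0003c0003c0003c0) .leaf .leaf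
def t351 : k351.all (jb2 57 fl b352) = true := by decide +kernel
noncomputable def k352 : KT := (.br (Nat.shiftLeft (nat_lit 0x6000001003) (nat_lit 112)) (.one (nat_lit 0x600000100200500900b00d40cb81203641a711)) (.br (Nat.shiftLeft (nat_lit 0x3000001) (nat_lit 125)) (.one (nat_lit 0x600000100300500900b00d60cb81203641a711)) (.one (nat_lit 0x600000200300500900b00d60cb81205681a711))))
def t352 : k352.all (jb2 57 fl b0) = true := by decide +kernel
noncomputable def k353 : KT := (.br (Nat.shiftLeft (nat_lit 0x3800001) (nat_lit 125)) (.br (Nat.shiftLeft (nat_lit 0x7000001003) (nat_lit 112)) (.one (nat_lit 0x700000100200500900b00d40ebc1203641a711)) (.one (nat_lit 0x700000100300500900b00d60ebc1203641a711))) (.br (Nat.shiftLeft (nat_lit 0x1) (nat_lit 151)) (.one (nat_lit 0x700000200300500900b00d60ebc1205681a711)) (.br (Nat.shiftLeft (nat_lit 0x8000001003) (nat_lit 112)) (.one (nat_lit 0x800000100200500900b00d410c01203641a711)) (.one (nat_lit 0x800000100300500900b00d610c01203641a711)))))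
def t353 : k353.all (jb2 57 fl b0) = true := by decide +kernel
noncomputable def k354 : KT := (.br (Nat.shiftLeft (nat_lit 0xa000001003) (nat_lit 112)) (.br (Nat.shiftLeft (nat_lit 0x9000001003) (nat_lit 112)) (.br (Nat.shiftLeft (nat_lit 0x9) (nat_lit 148)) (.one (nat_lit 0x800000200300500900b00d610c01205681a711)) (.one (nat_lit 0x900000100200500900b00d412c41203641a711))) (.br (Nat.shiftLeft (nat_lit 0x4800001) (nat_lit 125)) (.one (nat_lit 0x900000100300500900b00d612c41203641a711)) (.br (Nat.shiftLeft (nat_lit 0x5) (nat_lit 149)) (.one (nat_lit 0x900000200300500900b00d612c41205681a711)) (.one (nat_lit 0xa00000100200500900b00d414c81203641a711))))) (.br (Nat.shiftLeft (nat_lit 0xb) (nat_lit 148)) (.br (Nat.shiftLeft (nat_lit 0x5000001) (nat_lit 125)) (.one (nat_lit 0xa00000100300500900b00d614c81203641a711)) (.one (nat_lit 0xa00000200300500900b00d614c81205681a711))) (.br (Nat.shiftLeft (nat_lit 0xb000001003) (nat_lit 112)) (.one (nat_lit 0xb00000100200500900b00d416cc1203641a711)) (.br (Nat.shiftLeft (nat_lit 0x5800001)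 (nat_lit 125)) (.one (nat_lit 0xb00000100300500900b00d616cc1203641a711)) (.one (nat_lit 0xb00000200300500900b00d616cc1205681a711))))))
def t354 : k354.all (jb2 57 fl b0) = true := by decide +kernel
noncomputable def s19 : KT := (.br (nat_lit 0x600000100500900b00d200a0d381601a611) (.br (nat_lit 0x800000500900b00d000a01211801a511) (.br (nat_lit 0x300000500900b00d000a012076c1a511) (.br (nat_lit 0x200300500900b00d600a01205681b700) k335 k336) (.br (nat_lit 0x400000500900b00d000a01209701a511) k337 (.br (nat_lit 0x600000500900b00d000a0120d781a511) k338 k339))) (.br (nat_lit 0x400000200500900b00d400a09301601a611) (.br (nat_lit 0x100000400500900b00d800a03241601a611) k340 k341) (.br (nat_lit 0x500000200500900b00d400a0b341601a611) k342 (.br (nat_lit 0x500000400500900b00d800a0b341601a611) k343 k344)))) (.br (nat_lit 0xa00000100500900b00d200a15481601a611) (.br (nat_lit 0x700000100500900b00d200a0f3c1601a611) (.br (nat_lit 0x600000300500900b00d600a0d381601a611) k345 k346) (.br (nat_lit 0x700000400500900b00d800a0f3c1601a611) k347 (.br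 (nat_lit 0x800000300500900b00d600a11401601a611) k348 k349))) (.br (nat_lit 0x500000200300500900b00d60ab41205681a711) (.br (nat_lit 0x400000200300500900b00d608b01205681a711) k350 k351) (.br (nat_lit 0x600000200300500900b00d60cb81205681a711) k352 (.br (nat_lit 0x800000100300500900b00d610c01203641a711) k353 k354)))))
noncomputable def u19 : KT := (.one (nat_lit 0x500900b00d000a01201601a540))
def w19 : u19.all (wj 57 s19) = true := by decide +kernel
def o19 : OkW 57 (jb2 57 fl) u19 := .lift s19 _ (.br _ _ _ (.br _ _ _ (.br _ _ _ (.br _ _ _ (.leaf b0 k335 t335) (.leaf b0 k336 t336)) (.br _ _ _ (.leaf b0 k337 t337) (.br _ _ _ (.leaf b0 k338 t338) (.leaf b0 k339 t339)))) (.br _ _ _ (.br _ _ _ (.leaf b0 k340 t340) (.leaf b0 k341 t341)) (.br _ _ _ (.leaf b0 k342 t342) (.br _ _ _ (.leaf b344 k343 t343) (.leaf b345 k344 t344))))) (.br _ _ _ (.br _ _ _ (.br _ _ _ (.leaf b346 k345 t345) (.leaf b0 k346 t346)) (.br _ _ _ (.leaf b0 k347 t347) (.br _ _ _ (.leaf b0 k348 t348) (.leaf b0 k349 t349)))) (.br _ _ _ (.br _ _ _ (.leaf b0 k350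 t350) (.leaf b352 k351 t351)) (.br _ _ _ (.leaf b0 k352 t352) (.br _ _ _ (.leaf b0 k353 t353) (.leaf b0 k354 t354)))))) w19
noncomputable def k : KT := (.br (nat_lit 0x500800b00e000a01001601c540) (.br (nat_lit 0x5008009012000a010012024540) (.br (nat_lit 0x500800900e000a01001201d500) (.br (nat_lit 0x500700d011000a00e01a022540) u0 u1) (.br (nat_lit 0x500800900f000a01001201e540) u2 (.br (nat_lit 0x5008009010000a010012020540) u3 u4))) (.br (nat_lit 0x500800a00f000a01001401e540) (.br (nat_lit 0x500800a00e000a01001401d500) u5 u6) (.br (nat_lit 0x500800a011000a010014022540) u7 (.br (nat_lit 0x500800b00d000a01001601b500) u8 u9)))) (.br (nat_lit 0x500800d00e000a01001a01c540) (.br (nat_lit 0x500800b012000a010016024540) (.br (nat_lit 0x500800b00f000a01001601e540) u10 u11) (.br (nat_lit 0x500800c00d000a01001801a540) u12 (.br (nat_lit 0x500800c00f000a01001801e540) u13 u14))) (.br (nat_lit 0x500900a00e000a01201401c540) (.br (nat_lit 0x500900a00d000a01201401b500) u15 u16) (.br (nat_lit 0x500900a010000a012014020540) u17 (.br (nat_lit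 0x500900b00c000a012016019500) u18 u19)))))
theorem ok : OkW 57 (jb2 57 fl) k := (.br _ _ _ (.br _ _ _ (.br _ _ _ (.br _ _ _ o0 o1) (.br _ _ _ o2 (.br _ _ _ o3 o4))) (.br _ _ _ (.br _ _ _ o5 o6) (.br _ _ _ o7 (.br _ _ _ o8 o9)))) (.br _ _ _ (.br _ _ _ (.br _ _ _ o10 o11) (.br _ _ _ o12 (.br _ _ _ o13 o14))) (.br _ _ _ (.br _ _ _ o15 o16) (.br _ _ _ o17 (.br _ _ _ o18 o19)))))

end Pool.Agent.Lib.MP_ed43e6_ag.Q.Y57.R36
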