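import Pool.Agent.Lib.MP_ed43e6_ag.Y57.Fl

namespace Pool.Agent.Lib.MP_ed43e6_ag.Q.Y57.R37

set_option linter.defProp false

noncomputable def b0 : BT := .node (nat_lit 1) (nat_lit 0) .leaf .leaf
noncomputable def k0 : KT := (.br (Nat.shiftLeft (nat_lit 0x300500900b00f) (nat_lit 64)) (.br (Nat.shiftLeft (nat_lit 0x100500900b00f) (nat_lit 64)) (.br (Nat.shiftLeft (nat_lit 0x500900b00f) (nat_lit 64)) (.one (nat_lit 0x500900b00e000a01201601d500)) (.br (Nat.shiftLeft (nat_lit 0x1) (nat_lit 112)) (.one (nat_lit 0x500900b00f000a01201601f500)) (.one (nat_lit 0x100500900b00e200a01201601d600)))) (.br (Nat.shiftLeft (nat_lit 0x200500900b00f) (nat_lit 64)) (.br (Nat.shiftLeft (nat_lit 0x1) (nat_lit 113)) (.one (nat_lit 0x100500900b00f200a01201601f600)) (.one (nat_lit 0x200500900b00e400a01201601d600))) (.br (Nat.shiftLeft (nat_lit 0x3) (nat_lit 112)) (.one (nat_lit 0x200500900b00f400a01201601f600)) (.one (nat_lit 0x300500900b00e600a01201601d600))))) (.br (Nat.shiftLeft (nat_lit 0x1) (nat_lit 124)) (.br (Nat.shiftLeft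 (nat_lit 0x1) (nat_lit 114)) (.one (nat_lit 0x300500900b00f600a01201601f600)) (.br (Nat.shiftLeft (nat_lit 0x400500900b00f) (nat_lit 64)) (.one (nat_lit 0x400500900b00e800a01201601d600)) (.one (nat_lit 0x400500900b00f800a01201601f600)))) (.br (Nat.shiftLeft (nat_lit 0x801) (nat_lit 113)) (.br (Nat.shiftLeft (nat_lit 0x100000500900b00f) (nat_lit 64)) (.one (nat_lit 0x100000500900b00e000a01203641c511)) (.one (nat_lit 0x100000500900b00f000a01203641e511))) (.br (Nat.shiftLeft (nat_lit 0x100200500900b00f) (nat_lit 64)) (.one (nat_lit 0x100200500900b00e400a01203641d700)) (.one (nat_lit 0x100200500900b00f400a01203641e760))))))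
def t0 : k0.all (jb2 57 fl b0) = true := by decide +kernel
noncomputable def k1 : KT := (.one (nat_lit 0x100300500900b00e600a01203641c760))
def t1 : k1.all (jb2 57 fl b0) = true := by decide +kernel
noncomputable def k2 : KT := (.one (nat_lit 0x100300500900b00f600a01203641e760))
def t2 : k2.all (jb2 57 fl b0) = true := by decide +kernel
noncomputable def k3 : KT := (.br (Nat.shiftLeft (nat_lit 0x1) (nat_lit 125)) (.br (Nat.shiftLeft (nat_lit 0x100400500900b00f) (nat_lit 64)) (.one (nat_lit 0x100400500900b00e800a01203641c760)) (.one (nat_lit 0x100400500900b00f800a01203641e760))) (.br (Nat.shiftLeft (nat_lit 0x200000500900b00f) (nat_lit 64)) (.one (nat_lit 0x200000500900b00e000a01205681c511)) (.one (nat_lit 0x200000500900b00f000a01205681e511))))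
def t3 : k3.all (jb2 57 fl b0) = true := by decide +kernel
noncomputable def k4 : KT := (.one (nat_lit 0x200300500900b00e600a01205681c760))
def t4 : k4.all (jb2 57 fl b0) = true := by decide +kernel
noncomputable def k5 : KT := (.one (nat_lit 0x200300500900b00f600a01205681e760))
def t5 : k5.all (jb2 57 fl b0) = true := by decide +kernel
noncomputable def k6 : KT := (.one (nat_lit 0x200400500900b00e800a01205681c760))
def t6 : k6.all (jb2 57 fl b0) = true := by decide +kernel
noncomputable def k7 : KT := (.br (Nat.shiftLeft (nat_lit 0x3) (nat_lit 124)) (.one (nat_lit 0x200400500900b00f800a01205681e760)) (.br (Nat.shiftLeft (nat_lit 0x300000500900b00f) (nat_lit 64)) (.one (nat_lit 0x300000500900b00e000a012076c1c511)) (.one (nat_lit 0x300000500900b00f000a012076c1e511))))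
def t7 : k7.all (jb2 57 fl b0) = true := by decide +kernel
noncomputable def k8 : KT := (.br (Nat.shiftLeft (nat_lit 0x300400500900b00f) (nat_lit 64)) (.one (nat_lit 0x300400500900b00e800a012076c1c760)) (.one (nat_lit 0x300400500900b00f800a012076c1e760)))
def t8 : k8.all (jb2 57 fl b0) = true := by decide +kernel
noncomputable def k9 : KT := (.br (Nat.shiftLeft (nat_lit 0x5) (nat_lit 124)) (.br (Nat.shiftLeft (nat_lit 0x400000500900b00f) (nat_lit 64)) (.one (nat_lit 0x400000500900b00e000a01209701c511)) (.one (nat_lit 0x400000500900b00f000a01209701e511))) (.br (Nat.shiftLeft (nat_lit 0x500000500900b00f) (nat_lit 64)) (.one (nat_lit 0x500000500900b00e000a0120b741c511)) (.br (Nat.shiftLeft (nat_lit 0x3) (nat_lit 125)) (.one (nat_lit 0x500000500900b00f000a0120b741e511)) (.one (nat_lit 0x600000500900b00e000a0120d781c511)))))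
def t9 : k9.all (jb2 57 fl b0) = true := by decide +kernel
noncomputable def k10 : KT := (.br (Nat.shiftLeft (nat_lit 0x7) (nat_lit 124)) (.one (nat_lit 0x600000500900b00f000a0120d781e511)) (.br (Nat.shiftLeft (nat_lit 0x700000500900b00f) (nat_lit 64)) (.one (nat_lit 0x700000500900b00e000a0120f7c1c511)) (.one (nat_lit 0x700000500900b00f000a0120f7c1e511))))
def t10 : k10.all (jb2 57 fl b0) = true := by decide +kernel
noncomputable def k11 : KT := (.br (Nat.shiftLeft (nat_lit 0x9) (nat_lit 124)) (.br (Nat.shiftLeft (nat_lit 0x800000500900b00f) (nat_lit 64)) (.one (nat_lit 0x800000500900b00e000a01211801c511)) (.one (nat_lit 0x800000500900b00f000a01211801e511))) (.br (Nat.shiftLeft (nat_lit 0x900000500900b00f) (nat_lit 64)) (.one (nat_lit 0x900000500900b00e000a01213841c511)) (.one (nat_lit 0x900000500900b00f000a01213841e511))))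
def t11 : k11.all (jb2 57 fl b0) = true := by decide +kernel
noncomputable def k12 : KT := (.br (Nat.shiftLeft (nat_lit 0x200000200500900b00f) (nat_lit 64)) (.br (Nat.shiftLeft (nat_lit 0x100000200500900b00f) (nat_lit 64)) (.br (Nat.shiftLeft (nat_lit 0xb00000500900b00f) (nat_lit 64)) (.br (Nat.shiftLeft (nat_lit 0xa00000500900b00f) (nat_lit 64)) (.one (nat_lit 0xa00000500900b00e000a01215881c511)) (.br (Nat.shiftLeft (nat_lit 0xb) (nat_lit 124)) (.one (nat_lit 0xa00000500900b00f000a01215881e511)) (.one (nat_lit 0xb00000500900b00e000a012178c1c511)))) (.br (Nat.shiftLeft (nat_lit 0x100000100500900b00f) (nat_lit 64)) (.br (Nat.shiftLeft (nat_lit 0x1) (nat_lit 136)) (.one (nat_lit 0xb00000500900b00f000a012178c1e511)) (.one (nat_lit 0x100000100500900b00e200a03241601c611))) (.br (Nat.shiftLeft (nat_lit 0x800001) (nat_lit 113)) (.one (nat_lit 0x100000100500900b00f200a03241601e611)) (.one (nat_lit 0x100000200500900b00e400a03241601c611))))) (.br (Nat.shiftLeft (nat_lit 0x100000400500900b00f) (nat_lit 64)) (.br (Nat.shiftLeft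 (nat_lit 0x100000300500900b00f) (nat_lit 64)) (.br (Nat.shiftLeft (nat_lit 0x1000003) (nat_lit 112)) (.one (nat_lit 0x100000200500900b00f400a03241601e611)) (.one (nat_lit 0x100000300500900b00e600a03241601c611))) (.br (Nat.shiftLeft (nat_lit 0x400001) (nat_lit 114)) (.one (nat_lit 0x100000300500900b00f600a03241601e611)) (.one (nat_lit 0x100000400500900b00e800a03241601c611)))) (.br (Nat.shiftLeft (nat_lit 0x200000100500900b00f) (nat_lit 64)) (.br (Nat.shiftLeft (nat_lit 0x1) (nat_lit 137)) (.one (nat_lit 0x100000400500900b00f800a03241601e611)) (.one (nat_lit 0x200000100500900b00e200a05281601c611))) (.br (Nat.shiftLeft (nat_lit 0x1000001) (nat_lit 113)) (.one (nat_lit 0x200000100500900b00f200a05281601e611)) (.one (nat_lit 0x200000200500900b00e400a05281601c611)))))) (.br (Nat.shiftLeft (nat_lit 0x300000200500900b00f) (nat_lit 64)) (.br (Nat.shiftLeft (nat_lit 0x200000400500900b00f) (nat_lit 64)) (.br (Nat.shiftLeft (nat_lit 0x200000300500900b00f) (nat_lit 64)) (.br (Nat.shiftLeft (nat_lit 0x2000003) (nat_lit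 112)) (.one (nat_lit 0x200000200500900b00f400a05281601e611)) (.one (nat_lit 0x200000300500900b00e600a05281601c611))) (.br (Nat.shiftLeft (nat_lit 0x800001) (nat_lit 114)) (.one (nat_lit 0x200000300500900b00f600a05281601e611)) (.one (nat_lit 0x200000400500900b00e800a05281601c611)))) (.br (Nat.shiftLeft (nat_lit 0x300000100500900b00f) (nat_lit 64)) (.br (Nat.shiftLeft (nat_lit 0x3) (nat_lit 136)) (.one (nat_lit 0x200000400500900b00f800a05281601e611)) (.one (nat_lit 0x300000100500900b00e200a072c1601c611))) (.br (Nat.shiftLeft (nat_lit 0x1800001) (nat_lit 113)) (.one (nat_lit 0x300000100500900b00f200a072c1601e611)) (.one (nat_lit 0x300000200500900b00e400a072c1601c611))))) (.br (Nat.shiftLeft (nat_lit 0x300000400500900b00f) (nat_lit 64)) (.br (Nat.shiftLeft (nat_lit 0x300000300500900b00f) (nat_lit 64)) (.br (Nat.shiftLeft (nat_lit 0x3000003) (nat_lit 112)) (.one (nat_lit 0x300000200500900b00f400a072c1601e611)) (.one (nat_lit 0x300000300500900b00e600a072c1601c611))) (.br (Nat.shiftLeft (nat_lit 0xc00001) (nat_lit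 114)) (.one (nat_lit 0x300000300500900b00f600a072c1601e611)) (.one (nat_lit 0x300000400500900b00e800a072c1601c611)))) (.br (Nat.shiftLeft (nat_lit 0x400000100500900b00f) (nat_lit 64)) (.br (Nat.shiftLeft (nat_lit 0x1) (nat_lit 138)) (.one (nat_lit 0x300000400500900b00f800a072c1601e611)) (.one (nat_lit 0x400000100500900b00e200a09301601c611))) (.br (Nat.shiftLeft (nat_lit 0x2000001) (nat_lit 113)) (.one (nat_lit 0x400000100500900b00f200a09301601e611)) (.one (nat_lit 0x400000200500900b00e400a09301601c611)))))))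
def t12 : k12.all (jb2 57 fl b0) = true := by decide +kernel
noncomputable def k13 : KT := (.br (Nat.shiftLeft (nat_lit 0x1000001) (nat_lit 114)) (.br (Nat.shiftLeft (nat_lit 0x4000003) (nat_lit 112)) (.one (nat_lit 0x400000200500900b00f400a09301601e611)) (.br (Nat.shiftLeft (nat_lit 0x400000300500900b00f) (nat_lit 64)) (.one (nat_lit 0x400000300500900b00e600a09301601c611)) (.one (nat_lit 0x400000300500900b00f600a09301601e611)))) (.br (Nat.shiftLeft (nat_lit 0x5) (nat_lit 136)) (.br (Nat.shiftLeft (nat_lit 0x400000400500900b00f) (nat_lit 64)) (.one (nat_lit 0x400000400500900b00e800a09301601c611)) (.one (nat_lit 0x400000400500900b00f800a09301601e611))) (.br (Nat.shiftLeft (nat_lit 0x500000100500900b00f) (nat_lit 64)) (.one (nat_lit 0x500000100500900b00e200a0b341601c611)) (.one (nat_lit 0x500000100500900b00f200a0b341601e611)))))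
def t13 : k13.all (jb2 57 fl b0) = true := by decide +kernel
noncomputable def k14 : KT := (.br (Nat.shiftLeft (nat_lit 0x5000003) (nat_lit 112)) (.br (Nat.shiftLeft (nat_lit 0x500000200500900b00f) (nat_lit 64)) (.one (nat_lit 0x500000200500900b00e400a0b341601c611)) (.one (nat_lit 0x500000200500900b00f400a0b341601e611))) (.br (Nat.shiftLeft (nat_lit 0x500000300500900b00f) (nat_lit 64)) (.one (nat_lit 0x500000300500900b00e600a0b341601c611)) (.one (nat_lit 0x500000300500900b00f600a0b341601e611))))
def t14 : k14.all (jb2 57 fl b0) = true := by decide +kernel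
noncomputable def k15 : KT := (.br (Nat.shiftLeft (nat_lit 0x3) (nat_lit 137)) (.br (Nat.shiftLeft (nat_lit 0x500000400500900b00f) (nat_lit 64)) (.one (nat_lit 0x500000400500900b00e800a0b341601c611)) (.one (nat_lit 0x500000400500900b00f800a0b341601e611))) (.br (Nat.shiftLeft (nat_lit 0x600000100500900b00f) (nat_lit 64)) (.one (nat_lit 0x600000100500900b00e200a0d381601c611)) (.one (nat_lit 0x600000100500900b00f200a0d381601e611))))
def t15 : k15.all (jb2 57 fl b0) = true := by decide +kernel
noncomputable def k16 : KT := (.br (Nat.shiftLeft (nat_lit 0x6000003) (nat_lit 112)) (.br (Nat.shiftLeft (nat_lit 0x600000200500900b00f) (nat_lit 64)) (.one (nat_lit 0x600000200500900b00e400a0d381601c611)) (.one (nat_lit 0x600000200500900b00f400a0d381601e611))) (.br (Nat.shiftLeft (nat_lit 0x600000300500900b00f) (nat_lit 64)) (.one (nat_lit 0x600000300500900b00e600a0d381601c611)) (.one (nat_lit 0x600000300500900b00f600a0d381601e611))))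
def t16 : k16.all (jb2 57 fl b0) = true := by decide +kernel
noncomputable def k17 : KT := (.br (Nat.shiftLeft (nat_lit 0x7) (nat_lit 136)) (.br (Nat.shiftLeft (nat_lit 0x600000400500900b00f) (nat_lit 64)) (.one (nat_lit 0x600000400500900b00e800a0d381601c611)) (.one (nat_lit 0x600000400500900b00f800a0d381601e611))) (.br (Nat.shiftLeft (nat_lit 0x700000100500900b00f) (nat_lit 64)) (.one (nat_lit 0x700000100500900b00e200a0f3c1601c611)) (.one (nat_lit 0x700000100500900b00f200a0f3c1601e611))))
def t17 : k17.all (jb2 57 fl b0) = true := by decide +kernel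
noncomputable def k18 : KT := (.br (Nat.shiftLeft (nat_lit 0x700000300500900b00f) (nat_lit 64)) (.br (Nat.shiftLeft (nat_lit 0x700000200500900b00f) (nat_lit 64)) (.one (nat_lit 0x700000200500900b00e400a0f3c1601c611)) (.br (Nat.shiftLeft (nat_lit 0x7000003) (nat_lit 112)) (.one (nat_lit 0x700000200500900b00f400a0f3c1601e611)) (.one (nat_lit 0x700000300500900b00e600a0f3c1601c611)))) (.br (Nat.shiftLeft (nat_lit 0x1c00001) (nat_lit 114)) (.one (nat_lit 0x700000300500900b00f600a0f3c1601e611)) (.br (Nat.shiftLeft (nat_lit 0x700000400500900b00f) (nat_lit 64)) (.one (nat_lit 0x700000400500900b00e800a0f3c1601c611)) (.one (nat_lit 0x700000400500900b00f800a0f3c1601e611)))))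
def t18 : k18.all (jb2 57 fl b0) = true := by decide +kernel
noncomputable def k19 : KT := (.br (Nat.shiftLeft (nat_lit 0x4000001) (nat_lit 113)) (.br (Nat.shiftLeft (nat_lit 0x800000100500900b00f) (nat_lit 64)) (.one (nat_lit 0x800000100500900b00e200a11401601c611)) (.one (nat_lit 0x800000100500900b00f200a11401601e611))) (.br (Nat.shiftLeft (nat_lit 0x800000200500900b00f) (nat_lit 64)) (.one (nat_lit 0x800000200500900b00e400a11401601c611)) (.br (Nat.shiftLeft (nat_lit 0x8000003) (nat_lit 112)) (.one (nat_lit 0x800000200500900b00f400a11401601e611)) (.one (nat_lit 0x800000300500900b00e600a11401601c611)))))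
def t19 : k19.all (jb2 57 fl b0) = true := by decide +kernel
noncomputable def k20 : KT := (.br (Nat.shiftLeft (nat_lit 0x900000200500900b00f) (nat_lit 64)) (.br (Nat.shiftLeft (nat_lit 0x9) (nat_lit 136)) (.br (Nat.shiftLeft (nat_lit 0x2000001) (nat_lit 114)) (.one (nat_lit 0x800000300500900b00f600a11401601e611)) (.br (Nat.shiftLeft (nat_lit 0x800000400500900b00f) (nat_lit 64)) (.one (nat_lit 0x800000400500900b00e800a11401601c611)) (.one (nat_lit 0x800000400500900b00f800a11401601e611)))) (.br (Nat.shiftLeft (nat_lit 0x900000100500900b00f) (nat_lit 64)) (.one (nat_lit 0x900000100500900b00e200a13441601c611)) (.br (Nat.shiftLeft (nat_lit 0x4800001) (nat_lit 113)) (.one (nat_lit 0x900000100500900b00f200a13441601e611)) (.one (nat_lit 0x900000200500900b00e400a13441601c611))))) (.br (Nat.shiftLeft (nat_lit 0x2400001) (nat_lit 114)) (.br (Nat.shiftLeft (nat_lit 0x9000003) (nat_lit 112)) (.one (nat_lit 0x900000200500900b00f400a13441601e611)) (.br (Nat.shiftLeft (nat_lit 0x900000300500900b00f) (nat_lit 64)) (.one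 (nat_lit 0x900000300500900b00e600a13441601c611)) (.one (nat_lit 0x900000300500900b00f600a13441601e611)))) (.br (Nat.shiftLeft (nat_lit 0x900000400500900b00f) (nat_lit 64)) (.one (nat_lit 0x900000400500900b00e800a13441601c611)) (.br (Nat.shiftLeft (nat_lit 0x5) (nat_lit 137)) (.one (nat_lit 0x900000400500900b00f800a13441601e611)) (.one (nat_lit 0xa00000100500900b00e200a15481601c611))))))
def t20 : k20.all (jb2 57 fl b0) = true := by decide +kernel
noncomputable def k21 : KT := (.br (Nat.shiftLeft (nat_lit 0xb00000200500900b00f) (nat_lit 64)) (.br (Nat.shiftLeft (nat_lit 0x2800001) (nat_lit 114)) (.br (Nat.shiftLeft (nat_lit 0xa00000200500900b00f) (nat_lit 64)) (.br (Nat.shiftLeft (nat_lit 0x5000001) (nat_lit 113)) (.one (nat_lit 0xa00000100500900b00f200a15481601e611)) (.one (nat_lit 0xa00000200500900b00e400a15481601c611))) (.br (Nat.shiftLeft (nat_lit 0xa000003) (nat_lit 112)) (.one (nat_lit 0xa00000200500900b00f400a15481601e611)) (.br (Nat.shiftLeft (nat_lit 0xa00000300500900b00f) (nat_lit 64)) (.one (nat_lit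 0xa00000300500900b00e600a15481601c611)) (.one (nat_lit 0xa00000300500900b00f600a15481601e611))))) (.br (Nat.shiftLeft (nat_lit 0xb) (nat_lit 136)) (.br (Nat.shiftLeft (nat_lit 0xa00000400500900b00f) (nat_lit 64)) (.one (nat_lit 0xa00000400500900b00e800a15481601c611)) (.one (nat_lit 0xa00000400500900b00f800a15481601e611))) (.br (Nat.shiftLeft (nat_lit 0xb00000100500900b00f) (nat_lit 64)) (.one (nat_lit 0xb00000100500900b00e200a174c1601c611)) (.br (Nat.shiftLeft (nat_lit 0x5800001) (nat_lit 113)) (.one (nat_lit 0xb00000100500900b00f200a174c1601e611)) (.one (nat_lit 0xb00000200500900b00e400a174c1601c611)))))) (.br (Nat.shiftLeft (nat_lit 0x1) (nat_lit 148)) (.br (Nat.shiftLeft (nat_lit 0xb00000300500900b00f) (nat_lit 64)) (.br (Nat.shiftLeft (nat_lit 0xb000003) (nat_lit 112)) (.one (nat_lit 0xb00000200500900b00f400a174c1601e611)) (.one (nat_lit 0xb00000300500900b00e600a174c1601c611))) (.br (Nat.shiftLeft (nat_lit 0x2c00001) (nat_lit 114)) (.one (nat_lit 0xb00000300500900b00f600a174c1601e611)) (.br (Nat.shiftLeft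 (nat_lit 0xb00000400500900b00f) (nat_lit 64)) (.one (nat_lit 0xb00000400500900b00e800a174c1601c611)) (.one (nat_lit 0xb00000400500900b00f800a174c1601e611))))) (.br (Nat.shiftLeft (nat_lit 0x3) (nat_lit 148)) (.br (Nat.shiftLeft (nat_lit 0x1) (nat_lit 149)) (.one (nat_lit 0x100000100200500900b00e402a41203641c711)) (.one (nat_lit 0x200000100200500900b00e404a81203641c711))) (.br (Nat.shiftLeft (nat_lit 0x1) (nat_lit 150)) (.one (nat_lit 0x300000100200500900b00e406ac1203641c711)) (.br (Nat.shiftLeft (nat_lit 0x5) (nat_lit 148)) (.one (nat_lit 0x400000100200500900b00e408b01203641c711)) (.one (nat_lit 0x500000100200500900b00e40ab41203641c711)))))))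
def t21 : k21.all (jb2 57 fl b0) = true := by decide +kernel
noncomputable def k22 : KT := (.br (Nat.shiftLeft (nat_lit 0x9) (nat_lit 148)) (.br (Nat.shiftLeft (nat_lit 0x7) (nat_lit 148)) (.one (nat_lit 0x600000100200500900b00e40cb81203641c711)) (.br (Nat.shiftLeft (nat_lit 0x1) (nat_lit 151)) (.one (nat_lit 0x700000100200500900b00e40ebc1203641c711)) (.one (nat_lit 0x800000100200500900b00e410c01203641c711)))) (.br (Nat.shiftLeft (nat_lit 0x5) (nat_lit 149)) (.one (nat_lit 0x900000100200500900b00e412c41203641c711)) (.br (Nat.shiftLeft (nat_lit 0xb) (nat_lit 148)) (.one (nat_lit 0xa00000100200500900b00e414c81203641c711)) (.one (nat_lit 0xb00000100200500900b00e416cc1203641c711)))))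
def t22 : k22.all (jb2 57 fl b0) = true := by decide +kernel
noncomputable def s0 : KT := (.br (nat_lit 0x700000500900b00f000a0120f7c1e511) (.br (nat_lit 0x200300500900b00e600a01205681c760) (.br (nat_lit 0x100300500900b00e600a01203641c760) (.br (nat_lit 0x100200500900b00f400a01203641e760) k0 k1) (.br (nat_lit 0x100300500900b00f600a01203641e760) k2 (.br (nat_lit 0x200000500900b00f000a01205681e511) k3 k4))) (.br (nat_lit 0x300000500900b00f000a012076c1e511) (.br (nat_lit 0x200300500900b00f600a01205681e760) k5 (.br (nat_lit 0x200400500900b00e800a01205681c760) k6 k7)) (.br (nat_lit 0x300400500900b00f800a012076c1e760) k8 (.br (nat_lit 0x600000500900b00e000a0120d781c511) k9 k10)))) (.br (nat_lit 0x600000300500900b00f600a0d381601e611) (.br (nat_lit 0x500000100500900b00f200a0b341601e611) (.br (nat_lit 0x900000500900b00f000a01213841e511) k11 (.br (nat_lit 0x400000200500900b00e400a09301601c611) k12 k13)) (.br (nat_lit 0x500000300500900b00f600a0b341601e611) k14 (.br (nat_lit 0x600000100500900b00f200a0d381601e611) k15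 k16))) (.br (nat_lit 0x800000300500900b00e600a11401601c611) (.br (nat_lit 0x700000100500900b00f200a0f3c1601e611) k17 (.br (nat_lit 0x700000400500900b00f800a0f3c1601e611) k18 k19)) (.br (nat_lit 0xa00000100500900b00e200a15481601c611) k20 (.br (nat_lit 0x500000100200500900b00e40ab41203641c711) k21 k22)))))
noncomputable def u0 : KT := (.br (Nat.shiftLeft (nat_lit 0x500900b00f) (nat_lit 64)) (.one (nat_lit 0x500900b00e000a01201601c540)) (.one (nat_lit 0x500900b00f000a01201601e540)))
def w0 : u0.all (wj 57 s0) = true := by decide +kernel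
def o0 : OkW 57 (jb2 57 fl) u0 := .lift s0 _ (.br _ _ _ (.br _ _ _ (.br _ _ _ (.br _ _ _ (.leaf b0 k0 t0) (.leaf b0 k1 t1)) (.br _ _ _ (.leaf b0 k2 t2) (.br _ _ _ (.leaf b0 k3 t3) (.leaf b0 k4 t4)))) (.br _ _ _ (.br _ _ _ (.leaf b0 k5 t5) (.br _ _ _ (.leaf b0 k6 t6) (.leaf b0 k7 t7))) (.br _ _ _ (.leaf b0 k8 t8) (.br _ _ _ (.leaf b0 k9 t9) (.leaf b0 k10 t10))))) (.br _ _ _ (.br _ _ _ (.br _ _ _ (.leaf b0 k11 t11) (.br _ _ _ (.leaf b0 k12 t12) (.leaf b0 k13 t13))) (.br _ _ _ (.leaf b0 k14 t14) (.br _ _ _ (.leaf b0 k15 t15) (.leaf b0 k16 t16)))) (.br _ _ _ (.br _ _ _ (.leaf b0 k17 t17) (.br _ _ _ (.leaf b0 k18 t18) (.leaf b0 k19 t19))) (.br _ _ _ (.leaf b0 k20 t20) (.br _ _ _ (.leaf b0 k21 t21) (.leaf b0 k22 t22)))))) w0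
noncomputable def k23 : KT := (.br (Nat.shiftLeft (nat_lit 0x1402403) (nat_lit 78)) (.br (Nat.shiftLeft (nat_lit 0x500900b011) (nat_lit 64)) (.one (nat_lit 0x500900b010000a012016021500)) (.one (nat_lit 0x500900b011000a012016023500))) (.br (Nat.shiftLeft (nat_lit 0x1) (nat_lit 112)) (.one (nat_lit 0x500900c00d000a01201801b500)) (.one (nat_lit 0x100500900b010200a012016020650))))
def t23 : k23.all (jb2 57 fl b0) = true := by decide +kernel
noncomputable def k24 : KT := (.br (Nat.shiftLeft (nat_lit 0x401402403) (nat_lit 78)) (.one (nat_lit 0x100500900b011200a012016022650)) (.br (Nat.shiftLeft (nat_lit 0x1) (nat_lit 113)) (.one (nat_lit 0x100500900c00d200a01201801b600)) (.one (nat_lit 0x200500900b010400a012016021600))))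
def t24 : k24.all (jb2 57 fl b0) = true := by decide +kernel
noncomputable def k25 : KT := (.br (Nat.shiftLeft (nat_lit 0x801402403) (nat_lit 78)) (.one (nat_lit 0x200500900b011400a012016022650)) (.br (Nat.shiftLeft (nat_lit 0x3) (nat_lit 112)) (.one (nat_lit 0x200500900c00d400a01201801b600)) (.one (nat_lit 0x300500900b010600a012016021600))))
def t25 : k25.all (jb2 57 fl b0) = true := by decide +kernel
noncomputable def k26 : KT := (.br (Nat.shiftLeft (nat_lit 0xc01402403) (nat_lit 78)) (.one (nat_lit 0x300500900b011600a012016022650)) (.br (Nat.shiftLeft (nat_lit 0x1) (nat_lit 114)) (.one (nat_lit 0x300500900c00d600a01201801b600)) (.one (nat_lit 0x400500900b010800a012016021600))))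
def t26 : k26.all (jb2 57 fl b0) = true := by decide +kernel
noncomputable def k27 : KT := (.br (Nat.shiftLeft (nat_lit 0x1) (nat_lit 124)) (.br (Nat.shiftLeft (nat_lit 0x1001402403) (nat_lit 78)) (.one (nat_lit 0x400500900b011800a012016022650)) (.one (nat_lit 0x400500900c00d800a01201801b600))) (.br (Nat.shiftLeft (nat_lit 0x100000500900b011) (nat_lit 64)) (.one (nat_lit 0x100000500900b010000a012036420511)) (.br (Nat.shiftLeft (nat_lit 0x400001402403) (nat_lit 78)) (.one (nat_lit 0x100000500900b011000a012036422511)) (.one (nat_lit 0x100000500900c00d000a01203841a511)))))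
def t27 : k27.all (jb2 57 fl b0) = true := by decide +kernel
noncomputable def k28 : KT := (.br (Nat.shiftLeft (nat_lit 0x400801402403) (nat_lit 78)) (.one (nat_lit 0x100200500900b010400a012036420760)) (.br (Nat.shiftLeft (nat_lit 0x1003) (nat_lit 112)) (.one (nat_lit 0x100200500900c00d400a01203841b700)) (.one (nat_lit 0x100300500900b010600a012036420760))))
def t28 : k28.all (jb2 57 fl b0) = true := by decide +kernel
noncomputable def k29 : KT := (.br (Nat.shiftLeft (nat_lit 0x401) (nat_lit 114)) (.one (nat_lit 0x100300500900c00d600a01203841a760)) (.one (nat_lit 0x100400500900b010800a012036420760)))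
def t29 : k29.all (jb2 57 fl b0) = true := by decide +kernel
noncomputable def k30 : KT := (.br (Nat.shiftLeft (nat_lit 0x200000500900b011) (nat_lit 64)) (.br (Nat.shiftLeft (nat_lit 0x1) (nat_lit 125)) (.one (nat_lit 0x100400500900c00d800a01203841a760)) (.one (nat_lit 0x200000500900b010000a012056820511))) (.br (Nat.shiftLeft (nat_lit 0x800001402403) (nat_lit 78)) (.one (nat_lit 0x200000500900b011000a012056822511)) (.br (Nat.shiftLeft (nat_lit 0x1001) (nat_lit 113)) (.one (nat_lit 0x200000500900c00d000a01205881a511)) (.one (nat_lit 0x200300500900b010600a012056820760)))))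
def t30 : k30.all (jb2 57 fl b0) = true := by decide +kernel
noncomputable def k31 : KT := (.one (nat_lit 0x200300500900c00d600a01205881a760))
def t31 : k31.all (jb2 57 fl b0) = true := by decide +kernel
noncomputable def k32 : KT := (.br (Nat.shiftLeft (nat_lit 0x3) (nat_lit 124)) (.br (Nat.shiftLeft (nat_lit 0x801001402403) (nat_lit 78)) (.one (nat_lit 0x200400500900b010800a012056820760)) (.one (nat_lit 0x200400500900c00d800a01205881a760))) (.br (Nat.shiftLeft (nat_lit 0x300000500900b011) (nat_lit 64)) (.one (nat_lit 0x300000500900b010000a012076c20511)) (.br (Nat.shiftLeft (nat_lit 0xc00001402403) (nat_lit 78)) (.one (nat_lit 0x300000500900b011000a012076c22511)) (.one (nat_lit 0x300000500900c00d000a012078c1a511)))))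
def t32 : k32.all (jb2 57 fl b0) = true := by decide +kernel
noncomputable def k33 : KT := (.br (Nat.shiftLeft (nat_lit 0x1) (nat_lit 126)) (.br (Nat.shiftLeft (nat_lit 0xc01001402403) (nat_lit 78)) (.one (nat_lit 0x300400500900b010800a012076c20760)) (.one (nat_lit 0x300400500900c00d800a012078c1a760))) (.br (Nat.shiftLeft (nat_lit 0x400000500900b011) (nat_lit 64)) (.one (nat_lit 0x400000500900b010000a012097020511)) (.one (nat_lit 0x400000500900b011000a012097022511))))
def t33 : k33.all (jb2 57 fl b0) = true := by decide +kernel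
noncomputable def k34 : KT := (.br (Nat.shiftLeft (nat_lit 0x1400001402403) (nat_lit 78)) (.br (Nat.shiftLeft (nat_lit 0x5) (nat_lit 124)) (.one (nat_lit 0x400000500900c00d000a01209901a511)) (.br (Nat.shiftLeft (nat_lit 0x500000500900b011) (nat_lit 64)) (.one (nat_lit 0x500000500900b010000a0120b7420511)) (.one (nat_lit 0x500000500900b011000a0120b7422511)))) (.br (Nat.shiftLeft (nat_lit 0x3) (nat_lit 125)) (.one (nat_lit 0x500000500900c00d000a0120b941a511)) (.br (Nat.shiftLeft (nat_lit 0x600000500900b011) (nat_lit 64)) (.one (nat_lit 0x600000500900b010000a0120d7820511)) (.one (nat_lit 0x600000500900b011000a0120d7822511)))))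
def t34 : k34.all (jb2 57 fl b0) = true := by decide +kernel
noncomputable def k35 : KT := (.br (Nat.shiftLeft (nat_lit 0x700000500900b011) (nat_lit 64)) (.br (Nat.shiftLeft (nat_lit 0x7) (nat_lit 124)) (.one (nat_lit 0x600000500900c00d000a0120d981a511)) (.one (nat_lit 0x700000500900b010000a0120f7c20511))) (.br (Nat.shiftLeft (nat_lit 0x1c00001402403) (nat_lit 78)) (.one (nat_lit 0x700000500900b011000a0120f7c22511)) (.one (nat_lit 0x700000500900c00d000a0120f9c1a511))))
def t35 : k35.all (jb2 57 fl b0) = true := by decide +kernel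
noncomputable def k36 : KT := (.br (Nat.shiftLeft (nat_lit 0x9) (nat_lit 124)) (.br (Nat.shiftLeft (nat_lit 0x800000500900b011) (nat_lit 64)) (.one (nat_lit 0x800000500900b010000a012118020511)) (.br (Nat.shiftLeft (nat_lit 0x2000001402403) (nat_lit 78)) (.one (nat_lit 0x800000500900b011000a012118022511)) (.one (nat_lit 0x800000500900c00d000a01211a01a511)))) (.br (Nat.shiftLeft (nat_lit 0x2400001402403) (nat_lit 78)) (.br (Nat.shiftLeft (nat_lit 0x900000500900b011) (nat_lit 64)) (.one (nat_lit 0x900000500900b010000a012138420511)) (.one (nat_lit 0x900000500900b011000a012138422511))) (.br (Nat.shiftLeft (nat_lit 0x5) (nat_lit 125)) (.one (nat_lit 0x900000500900c00d000a01213a41a511)) (.one (nat_lit 0xa00000500900b010000a012158820511)))))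
def t36 : k36.all (jb2 57 fl b0) = true := by decide +kernel
noncomputable def k37 : KT := (.br (Nat.shiftLeft (nat_lit 0x800000801402403) (nat_lit 78)) (.br (Nat.shiftLeft (nat_lit 0x800001) (nat_lit 113)) (.br (Nat.shiftLeft (nat_lit 0xb00000500900b011) (nat_lit 64)) (.br (Nat.shiftLeft (nat_lit 0x2800001402403) (nat_lit 78)) (.one (nat_lit 0xa00000500900b011000a012158822511)) (.br (Nat.shiftLeft (nat_lit 0xb) (nat_lit 124)) (.one (nat_lit 0xa00000500900c00d000a01215a81a511)) (.one (nat_lit 0xb00000500900b010000a012178c20511)))) (.br (Nat.shiftLeft (nat_lit 0x3) (nat_lit 126)) (.br (Nat.shiftLeft (nat_lit 0x2c00001402403) (nat_lit 78)) (.one (nat_lit 0xb00000500900b011000a012178c22511)) (.one (nat_lit 0xb00000500900c00d000a01217ac1a511))) (.br (Nat.shiftLeft (nat_lit 0x1) (nat_lit 136)) (.one (nat_lit 0xc00000500900c00d000a01219b01a511)) (.one (nat_lit 0x100000100500900c00d200a03241801a611))))) (.br (Nat.shiftLeft (nat_lit 0x400001) (nat_lit 114)) (.br (Nat.shiftLeft (nat_lit 0x1000003) (nat_lit 112))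 (.br (Nat.shiftLeft (nat_lit 0x400000801402403) (nat_lit 78)) (.one (nat_lit 0x100000200500900b010400a032416020611)) (.one (nat_lit 0x100000200500900c00d400a03241801a611))) (.br (Nat.shiftLeft (nat_lit 0x400000c01402403) (nat_lit 78)) (.one (nat_lit 0x100000300500900b010600a032416020611)) (.one (nat_lit 0x100000300500900c00d600a03241801a611)))) (.br (Nat.shiftLeft (nat_lit 0x1) (nat_lit 137)) (.br (Nat.shiftLeft (nat_lit 0x400001001402403) (nat_lit 78)) (.one (nat_lit 0x100000400500900b010800a032416020611)) (.one (nat_lit 0x100000400500900c00d800a03241801a611))) (.br (Nat.shiftLeft (nat_lit 0x1000001) (nat_lit 113)) (.one (nat_lit 0x200000100500900c00d200a05281801a611)) (.one (nat_lit 0x200000200500900b010400a052816020611)))))) (.br (Nat.shiftLeft (nat_lit 0x3000003) (nat_lit 112)) (.br (Nat.shiftLeft (nat_lit 0x800001001402403) (nat_lit 78)) (.br (Nat.shiftLeft (nat_lit 0x800000c01402403) (nat_lit 78)) (.br (Nat.shiftLeft (nat_lit 0x2000003) (nat_lit 112)) (.one (nat_lit 0x200000200500900c00d400a05281801a611))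 (.one (nat_lit 0x200000300500900b010600a052816020611))) (.br (Nat.shiftLeft (nat_lit 0x800001) (nat_lit 114)) (.one (nat_lit 0x200000300500900c00d600a05281801a611)) (.one (nat_lit 0x200000400500900b010800a052816020611)))) (.br (Nat.shiftLeft (nat_lit 0x1800001) (nat_lit 113)) (.br (Nat.shiftLeft (nat_lit 0x3) (nat_lit 136)) (.one (nat_lit 0x200000400500900c00d800a05281801a611)) (.one (nat_lit 0x300000100500900c00d200a072c1801a611))) (.br (Nat.shiftLeft (nat_lit 0xc00000801402403) (nat_lit 78)) (.one (nat_lit 0x300000200500900b010400a072c16020611)) (.one (nat_lit 0x300000200500900c00d400a072c1801a611))))) (.br (Nat.shiftLeft (nat_lit 0x1) (nat_lit 138)) (.br (Nat.shiftLeft (nat_lit 0xc00001) (nat_lit 114)) (.br (Nat.shiftLeft (nat_lit 0xc00000c01402403) (nat_lit 78)) (.one (nat_lit 0x300000300500900b010600a072c16020611)) (.one (nat_lit 0x300000300500900c00d600a072c1801a611))) (.br (Nat.shiftLeft (nat_lit 0xc00001001402403) (nat_lit 78)) (.one (nat_lit 0x300000400500900b010800a072c16020611)) (.one (nat_lit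 0x300000400500900c00d800a072c1801a611)))) (.br (Nat.shiftLeft (nat_lit 0x1000000801402403) (nat_lit 78)) (.br (Nat.shiftLeft (nat_lit 0x2000001) (nat_lit 113)) (.one (nat_lit 0x400000100500900c00d200a09301801a611)) (.one (nat_lit 0x400000200500900b010400a093016020611))) (.br (Nat.shiftLeft (nat_lit 0x4000003) (nat_lit 112)) (.one (nat_lit 0x400000200500900c00d400a09301801a611)) (.one (nat_lit 0x400000300500900b010600a093016020611)))))))
def t37 : k37.all (jb2 57 fl b0) = true := by decide +kernel
noncomputable def k38 : KT := (.br (Nat.shiftLeft (nat_lit 0x5) (nat_lit 136)) (.br (Nat.shiftLeft (nat_lit 0x1000001) (nat_lit 114)) (.one (nat_lit 0x400000300500900c00d600a09301801a611)) (.br (Nat.shiftLeft (nat_lit 0x1000001001402403) (nat_lit 78)) (.one (nat_lit 0x400000400500900b010800a093016020611)) (.one (nat_lit 0x400000400500900c00d800a09301801a611)))) (.br (Nat.shiftLeft (nat_lit 0x1400000801402403) (nat_lit 78)) (.br (Nat.shiftLeft (nat_lit 0x2800001) (nat_lit 113)) (.one (nat_lit 0x500000100500900c00d200a0b341801a611))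 (.one (nat_lit 0x500000200500900b010400a0b3416020611))) (.br (Nat.shiftLeft (nat_lit 0x5000003) (nat_lit 112)) (.one (nat_lit 0x500000200500900c00d400a0b341801a611)) (.one (nat_lit 0x500000300500900b010600a0b3416020611)))))
def t38 : k38.all (jb2 57 fl b0) = true := by decide +kernel
noncomputable def k39 : KT := (.br (Nat.shiftLeft (nat_lit 0x1400001001402403) (nat_lit 78)) (.br (Nat.shiftLeft (nat_lit 0x1400001) (nat_lit 114)) (.one (nat_lit 0x500000300500900c00d600a0b341801a611)) (.one (nat_lit 0x500000400500900b010800a0b3416020611))) (.br (Nat.shiftLeft (nat_lit 0x3) (nat_lit 137)) (.one (nat_lit 0x500000400500900c00d800a0b341801a611)) (.br (Nat.shiftLeft (nat_lit 0x3000001) (nat_lit 113)) (.one (nat_lit 0x600000100500900c00d200a0d381801a611)) (.one (nat_lit 0x600000200500900b010400a0d3816020611)))))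
def t39 : k39.all (jb2 57 fl b0) = true := by decide +kernel
noncomputable def k40 : KT := (.br (Nat.shiftLeft (nat_lit 0x1800000c01402403) (nat_lit 78)) (.br (Nat.shiftLeft (nat_lit 0x6000003) (nat_lit 112)) (.one (nat_lit 0x600000200500900c00d400a0d381801a611)) (.one (nat_lit 0x600000300500900b010600a0d3816020611))) (.br (Nat.shiftLeft (nat_lit 0x1800001) (nat_lit 114)) (.one (nat_lit 0x600000300500900c00d600a0d381801a611)) (.br (Nat.shiftLeft (nat_lit 0x1800001001402403) (nat_lit 78)) (.one (nat_lit 0x600000400500900b010800a0d3816020611)) (.one (nat_lit 0x600000400500900c00d800a0d381801a611)))))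
def t40 : k40.all (jb2 57 fl b0) = true := by decide +kernel
noncomputable def k41 : KT := (.br (Nat.shiftLeft (nat_lit 0x7000003) (nat_lit 112)) (.br (Nat.shiftLeft (nat_lit 0x3800001) (nat_lit 113)) (.one (nat_lit 0x700000100500900c00d200a0f3c1801a611)) (.br (Nat.shiftLeft (nat_lit 0x1c00000801402403) (nat_lit 78)) (.one (nat_lit 0x700000200500900b010400a0f3c16020611)) (.one (nat_lit 0x700000200500900c00d400a0f3c1801a611)))) (.br (Nat.shiftLeft (nat_lit 0x1c00000c01402403) (nat_lit 78)) (.one (nat_lit 0x700000300500900b010600a0f3c16020611)) (.br (Nat.shiftLeft (nat_lit 0x1c00001) (nat_lit 114)) (.one (nat_lit 0x700000300500900c00d600a0f3c1801a611)) (.one (nat_lit 0x700000400500900b010800a0f3c16020611)))))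
def t41 : k41.all (jb2 57 fl b0) = true := by decide +kernel
noncomputable def k42 : KT := (.br (Nat.shiftLeft (nat_lit 0x8000003) (nat_lit 112)) (.br (Nat.shiftLeft (nat_lit 0x4000001) (nat_lit 113)) (.br (Nat.shiftLeft (nat_lit 0x1) (nat_lit 139)) (.one (nat_lit 0x700000400500900c00d800a0f3c1801a611)) (.one (nat_lit 0x800000100500900c00d200a11401801a611))) (.br (Nat.shiftLeft (nat_lit 0x2000000801402403) (nat_lit 78)) (.one (nat_lit 0x800000200500900b010400a114016020611)) (.one (nat_lit 0x800000200500900c00d400a11401801a611)))) (.br (Nat.shiftLeft (nat_lit 0x2000001) (nat_lit 114)) (.br (Nat.shiftLeft (nat_lit 0x2000000c01402403) (nat_lit 78)) (.one (nat_lit 0x800000300500900b010600a114016020611)) (.one (nat_lit 0x800000300500900c00d600a11401801a611))) (.br (Nat.shiftLeft (nat_lit 0x2000001001402403) (nat_lit 78)) (.one (nat_lit 0x800000400500900b010800a114016020611)) (.one (nat_lit 0x800000400500900c00d800a11401801a611)))))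
def t42 : k42.all (jb2 57 fl b0) = true := by decide +kernel
noncomputable def k43 : KT := (.br (Nat.shiftLeft (nat_lit 0x2800001001402403) (nat_lit 78)) (.br (Nat.shiftLeft (nat_lit 0x2400001001402403) (nat_lit 78)) (.br (Nat.shiftLeft (nat_lit 0x9000003) (nat_lit 112)) (.br (Nat.shiftLeft (nat_lit 0x4800001) (nat_lit 113)) (.one (nat_lit 0x900000100500900c00d200a13441801a611)) (.br (Nat.shiftLeft (nat_lit 0x2400000801402403) (nat_lit 78)) (.one (nat_lit 0x900000200500900b010400a134416020611)) (.one (nat_lit 0x900000200500900c00d400a13441801a611)))) (.br (Nat.shiftLeft (nat_lit 0x2400000c01402403) (nat_lit 78)) (.one (nat_lit 0x900000300500900b010600a134416020611)) (.br (Nat.shiftLeft (nat_lit 0x2400001) (nat_lit 114)) (.one (nat_lit 0x900000300500900c00d600a13441801a611)) (.one (nat_lit 0x900000400500900b010800a134416020611))))) (.br (Nat.shiftLeft (nat_lit 0x2800000801402403) (nat_lit 78)) (.br (Nat.shiftLeft (nat_lit 0x5) (nat_lit 137)) (.one (nat_lit 0x900000400500900c00d800a13441801a611)) (.br (Nat.shiftLeft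 (nat_lit 0x5000001) (nat_lit 113)) (.one (nat_lit 0xa00000100500900c00d200a15481801a611)) (.one (nat_lit 0xa00000200500900b010400a154816020611)))) (.br (Nat.shiftLeft (nat_lit 0x2800000c01402403) (nat_lit 78)) (.br (Nat.shiftLeft (nat_lit 0xa000003) (nat_lit 112)) (.one (nat_lit 0xa00000200500900c00d400a15481801a611)) (.one (nat_lit 0xa00000300500900b010600a154816020611))) (.br (Nat.shiftLeft (nat_lit 0x2800001) (nat_lit 114)) (.one (nat_lit 0xa00000300500900c00d600a15481801a611)) (.one (nat_lit 0xa00000400500900b010800a154816020611)))))) (.br (Nat.shiftLeft (nat_lit 0x2c00001001402403) (nat_lit 78)) (.br (Nat.shiftLeft (nat_lit 0x2c00000801402403) (nat_lit 78)) (.br (Nat.shiftLeft (nat_lit 0xb) (nat_lit 136)) (.one (nat_lit 0xa00000400500900c00d800a15481801a611)) (.br (Nat.shiftLeft (nat_lit 0x5800001) (nat_lit 113)) (.one (nat_lit 0xb00000100500900c00d200a174c1801a611)) (.one (nat_lit 0xb00000200500900b010400a174c16020611)))) (.br (Nat.shiftLeft (nat_lit 0x2c00000c01402403) (nat_lit 78)) (.br (Nat.shiftLeft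 (nat_lit 0xb000003) (nat_lit 112)) (.one (nat_lit 0xb00000200500900c00d400a174c1801a611)) (.one (nat_lit 0xb00000300500900b010600a174c16020611))) (.br (Nat.shiftLeft (nat_lit 0x2c00001) (nat_lit 114)) (.one (nat_lit 0xb00000300500900c00d600a174c1801a611)) (.one (nat_lit 0xb00000400500900b010800a174c16020611))))) (.br (Nat.shiftLeft (nat_lit 0xc000003) (nat_lit 112)) (.br (Nat.shiftLeft (nat_lit 0x3) (nat_lit 138)) (.one (nat_lit 0xb00000400500900c00d800a174c1801a611)) (.br (Nat.shiftLeft (nat_lit 0x6000001) (nat_lit 113)) (.one (nat_lit 0xc00000100500900c00d200a19501801a611)) (.one (nat_lit 0xc00000200500900c00d400a19501801a611)))) (.br (Nat.shiftLeft (nat_lit 0x1) (nat_lit 148)) (.br (Nat.shiftLeft (nat_lit 0x3000001) (nat_lit 114)) (.one (nat_lit 0xc00000300500900c00d600a19501801a611)) (.one (nat_lit 0xc00000400500900c00d800a19501801a611))) (.br (Nat.shiftLeft (nat_lit 0x1) (nat_lit 149)) (.one (nat_lit 0x100000100200500900c00d402a41203841a711)) (.one (nat_lit 0x200000100200500900c00d404a81203841a711)))))))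
def t43 : k43.all (jb2 57 fl b0) = true := by decide +kernel
noncomputable def k44 : KT := (.br (Nat.shiftLeft (nat_lit 0x1) (nat_lit 151)) (.br (Nat.shiftLeft (nat_lit 0x5) (nat_lit 148)) (.br (Nat.shiftLeft (nat_lit 0x1) (nat_lit 150)) (.one (nat_lit 0x300000100200500900c00d406ac1203841a711)) (.one (nat_lit 0x400000100200500900c00d408b01203841a711))) (.br (Nat.shiftLeft (nat_lit 0x3) (nat_lit 149)) (.one (nat_lit 0x500000100200500900c00d40ab41203841a711)) (.br (Nat.shiftLeft (nat_lit 0x7) (nat_lit 148)) (.one (nat_lit 0x600000100200500900c00d40cb81203841a711)) (.one (nat_lit 0x700000100200500900c00d40ebc1203841a711))))) (.br (Nat.shiftLeft (nat_lit 0x5) (nat_lit 149)) (.br (Nat.shiftLeft (nat_lit 0x9) (nat_lit 148)) (.one (nat_lit 0x800000100200500900c00d410c01203841a711)) (.one (nat_lit 0x900000100200500900c00d412c41203841a711))) (.br (Nat.shiftLeft (nat_lit 0xb) (nat_lit 148)) (.one (nat_lit 0xa00000100200500900c00d414c81203841a711)) (.br (Nat.shiftLeft (nat_lit 0x3) (nat_lit 150)) (.one (nat_lit 0xb00000100200500900c00d416cc1203841a711))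 (.one (nat_lit 0xc00000100200500900c00d418d01203841a711))))))
def t44 : k44.all (jb2 57 fl b0) = true := by decide +kernel
noncomputable def s1 : KT := (.br (nat_lit 0x400000500900b011000a012097022511) (.br (nat_lit 0x100000500900c00d000a01203841a511) (.br (nat_lit 0x200500900b010400a012016021600) (.br (nat_lit 0x100500900b010200a012016020650) k23 k24) (.br (nat_lit 0x300500900b010600a012016021600) k25 (.br (nat_lit 0x400500900b010800a012016021600) k26 k27))) (.br (nat_lit 0x200300500900b010600a012056820760) (.br (nat_lit 0x100300500900b010600a012036420760) k28 (.br (nat_lit 0x100400500900b010800a012036420760) k29 k30)) (.br (nat_lit 0x200300500900c00d600a01205881a760) k31 (.br (nat_lit 0x300000500900c00d000a012078c1a511) k32 k33)))) (.br (nat_lit 0x500000300500900b010600a0b3416020611) (.br (nat_lit 0x700000500900c00d000a0120f9c1a511) (.br (nat_lit 0x600000500900b011000a0120d7822511) k34 k35) (.br (nat_lit 0xa00000500900b010000a012158820511) k36 (.br (nat_lit 0x400000300500900b010600a093016020611) k37 k38)))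 (.br (nat_lit 0x700000400500900b010800a0f3c16020611) (.br (nat_lit 0x600000200500900b010400a0d3816020611) k39 (.br (nat_lit 0x600000400500900c00d800a0d381801a611) k40 k41)) (.br (nat_lit 0x800000400500900c00d800a11401801a611) k42 (.br (nat_lit 0x200000100200500900c00d404a81203841a711) k43 k44)))))
noncomputable def u1 : KT := (.br (Nat.shiftLeft (nat_lit 0x500900b011) (nat_lit 64)) (.one (nat_lit 0x500900b010000a012016020540)) (.br (Nat.shiftLeft (nat_lit 0x1402403) (nat_lit 78)) (.one (nat_lit 0x500900b011000a012016022540)) (.one (nat_lit 0x500900c00d000a01201801a540))))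
def w1 : u1.all (wj 57 s1) = true := by decide +kernel
def o1 : OkW 57 (jb2 57 fl) u1 := .lift s1 _ (.br _ _ _ (.br _ _ _ (.br _ _ _ (.br _ _ _ (.leaf b0 k23 t23) (.leaf b0 k24 t24)) (.br _ _ _ (.leaf b0 k25 t25) (.br _ _ _ (.leaf b0 k26 t26) (.leaf b0 k27 t27)))) (.br _ _ _ (.br _ _ _ (.leaf b0 k28 t28) (.br _ _ _ (.leaf b0 k29 t29) (.leaf b0 k30 t30))) (.br _ _ _ (.leaf b0 k31 t31) (.br _ _ _ (.leaf b0 k32 t32) (.leaf b0 k33 t33))))) (.br _ _ _ (.br _ _ _ (.br _ _ _ (.leaf b0 k34 t34) (.leaf b0 k35 t35)) (.br _ _ _ (.leaf b0 k36 t36) (.br _ _ _ (.leaf b0 k37 t37) (.leaf b0 k38 t38)))) (.br _ _ _ (.br _ _ _ (.leaf b0 k39 t39) (.br _ _ _ (.leaf b0 k40 t40) (.leaf b0 k41 t41))) (.br _ _ _ (.leaf b0 k42 t42) (.br _ _ _ (.leaf b0 k43 t43) (.leaf b0 k44 t44)))))) w1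
noncomputable def k45 : KT := (.br (Nat.shiftLeft (nat_lit 0x500900c01) (nat_lit 68)) (.br (Nat.shiftLeft (nat_lit 0x500900c00f) (nat_lit 64)) (.one (nat_lit 0x500900c00e000a01201801d500)) (.one (nat_lit 0x500900c00f000a01201801f500))) (.br (Nat.shiftLeft (nat_lit 0x1) (nat_lit 112)) (.one (nat_lit 0x500900c010000a012018021500)) (.br (Nat.shiftLeft (nat_lit 0x100500900c00f) (nat_lit 64)) (.one (nat_lit 0x100500900c00e200a01201801d600)) (.one (nat_lit 0x100500900c00f200a01201801e650)))))
def t45 : k45.all (jb2 57 fl b0) = true := by decide +kernel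
noncomputable def k46 : KT := (.br (Nat.shiftLeft (nat_lit 0x1) (nat_lit 113)) (.one (nat_lit 0x100500900c010200a012018020650)) (.br (Nat.shiftLeft (nat_lit 0x200500900c00f) (nat_lit 64)) (.one (nat_lit 0x200500900c00e400a01201801d600)) (.one (nat_lit 0x200500900c00f400a01201801f600))))
def t46 : k46.all (jb2 57 fl b0) = true := by decide +kernel
noncomputable def k47 : KT := (.br (Nat.shiftLeft (nat_lit 0x3) (nat_lit 112)) (.one (nat_lit 0x200500900c010400a012018020650)) (.br (Nat.shiftLeft (nat_lit 0x300500900c00f) (nat_lit 64)) (.one (nat_lit 0x300500900c00e600a01201801d600)) (.one (nat_lit 0x300500900c00f600a01201801f600))))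
def t47 : k47.all (jb2 57 fl b0) = true := by decide +kernel
noncomputable def k48 : KT := (.br (Nat.shiftLeft (nat_lit 0x1) (nat_lit 114)) (.one (nat_lit 0x300500900c010600a012018020650)) (.br (Nat.shiftLeft (nat_lit 0x400500900c00f) (nat_lit 64)) (.one (nat_lit 0x400500900c00e800a01201801d600)) (.one (nat_lit 0x400500900c00f800a01201801f600))))
def t48 : k48.all (jb2 57 fl b0) = true := by decide +kernel
noncomputable def k49 : KT := (.br (Nat.shiftLeft (nat_lit 0x100000500900c00f) (nat_lit 64)) (.br (Nat.shiftLeft (nat_lit 0x1) (nat_lit 124)) (.one (nat_lit 0x400500900c010800a012018020650)) (.one (nat_lit 0x100000500900c00e000a01203841c511))) (.br (Nat.shiftLeft (nat_lit 0x100000500900c01) (nat_lit 68)) (.one (nat_lit 0x100000500900c00f000a01203841e511)) (.one (nat_lit 0x100000500900c010000a012038420511))))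
def t49 : k49.all (jb2 57 fl b0) = true := by decide +kernel
noncomputable def k50 : KT := (.one (nat_lit 0x100200500900c00e400a01203841c760))
def t50 : k50.all (jb2 57 fl b0) = true := by decide +kernel
noncomputable def k51 : KT := (.one (nat_lit 0x100200500900c00f400a01203841e760))
def t51 : k51.all (jb2 57 fl b0) = true := by decide +kernel
noncomputable def k52 : KT := (.br (Nat.shiftLeft (nat_lit 0x100300500900c00f) (nat_lit 64)) (.one (nat_lit 0x100300500900c00e600a01203841c760)) (.one (nat_lit 0x100300500900c00f600a01203841e760)))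
def t52 : k52.all (jb2 57 fl b0) = true := by decide +kernel
noncomputable def k53 : KT := (.br (Nat.shiftLeft (nat_lit 0x1) (nat_lit 125)) (.br (Nat.shiftLeft (nat_lit 0x100400500900c00f) (nat_lit 64)) (.one (nat_lit 0x100400500900c00e800a01203841c760)) (.one (nat_lit 0x100400500900c00f800a01203841e760))) (.br (Nat.shiftLeft (nat_lit 0x200000500900c00f) (nat_lit 64)) (.one (nat_lit 0x200000500900c00e000a01205881c511)) (.br (Nat.shiftLeft (nat_lit 0x200000500900c01) (nat_lit 68)) (.one (nat_lit 0x200000500900c00f000a01205881e511)) (.one (nat_lit 0x200000500900c010000a012058820511)))))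
def t53 : k53.all (jb2 57 fl b0) = true := by decide +kernel
noncomputable def k54 : KT := (.one (nat_lit 0x200300500900c00e600a01205881c760))
def t54 : k54.all (jb2 57 fl b0) = true := by decide +kernel
noncomputable def k55 : KT := (.br (Nat.shiftLeft (nat_lit 0x801) (nat_lit 114)) (.one (nat_lit 0x200300500900c00f600a01205881e760)) (.one (nat_lit 0x200400500900c00e800a01205881c760)))
def t55 : k55.all (jb2 57 fl b0) = true := by decide +kernel
noncomputable def k56 : KT := (.br (Nat.shiftLeft (nat_lit 0x300000500900c00f) (nat_lit 64)) (.br (Nat.shiftLeft (nat_lit 0x3) (nat_lit 124)) (.one (nat_lit 0x200400500900c00f800a01205881e760)) (.one (nat_lit 0x300000500900c00e000a012078c1c511))) (.br (Nat.shiftLeft (nat_lit 0x300000500900c01) (nat_lit 68)) (.one (nat_lit 0x300000500900c00f000a012078c1e511)) (.br (Nat.shiftLeft (nat_lit 0xc01) (nat_lit 114)) (.one (nat_lit 0x300000500900c010000a012078c20511)) (.one (nat_lit 0x300400500900c00e800a012078c1c760)))))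
def t56 : k56.all (jb2 57 fl b0) = true := by decide +kernel
noncomputable def k57 : KT := (.br (Nat.shiftLeft (nat_lit 0x400000500900c01) (nat_lit 68)) (.br (Nat.shiftLeft (nat_lit 0x1) (nat_lit 126)) (.one (nat_lit 0x300400500900c00f800a012078c1e760)) (.br (Nat.shiftLeft (nat_lit 0x400000500900c00f) (nat_lit 64)) (.one (nat_lit 0x400000500900c00e000a01209901c511)) (.one (nat_lit 0x400000500900c00f000a01209901e511)))) (.br (Nat.shiftLeft (nat_lit 0x500000500900c00f) (nat_lit 64)) (.br (Nat.shiftLeft (nat_lit 0x5) (nat_lit 124)) (.one (nat_lit 0x400000500900c010000a012099020511)) (.one (nat_lit 0x500000500900c00e000a0120b941c511))) (.br (Nat.shiftLeft (nat_lit 0x500000500900c01) (nat_lit 68)) (.one (nat_lit 0x500000500900c00f000a0120b941e511)) (.one (nat_lit 0x500000500900c010000a0120b9420511)))))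
def t57 : k57.all (jb2 57 fl b0) = true := by decide +kernel
noncomputable def k58 : KT := (.br (Nat.shiftLeft (nat_lit 0x600000500900c01) (nat_lit 68)) (.br (Nat.shiftLeft (nat_lit 0x600000500900c00f) (nat_lit 64)) (.one (nat_lit 0x600000500900c00e000a0120d981c511)) (.one (nat_lit 0x600000500900c00f000a0120d981e511))) (.br (Nat.shiftLeft (nat_lit 0x7) (nat_lit 124)) (.one (nat_lit 0x600000500900c010000a0120d9820511)) (.one (nat_lit 0x700000500900c00e000a0120f9c1c511))))
def t58 : k58.all (jb2 57 fl b0) = true := by decide +kernel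
noncomputable def k59 : KT := (.br (Nat.shiftLeft (nat_lit 0x800000500900c00f) (nat_lit 64)) (.br (Nat.shiftLeft (nat_lit 0x700000500900c01) (nat_lit 68)) (.one (nat_lit 0x700000500900c00f000a0120f9c1e511)) (.br (Nat.shiftLeft (nat_lit 0x1) (nat_lit 127)) (.one (nat_lit 0x700000500900c010000a0120f9c20511)) (.one (nat_lit 0x800000500900c00e000a01211a01c511)))) (.br (Nat.shiftLeft (nat_lit 0x800000500900c01) (nat_lit 68)) (.one (nat_lit 0x800000500900c00f000a01211a01e511)) (.br (Nat.shiftLeft (nat_lit 0x9) (nat_lit 124)) (.one (nat_lit 0x800000500900c010000a01211a020511)) (.one (nat_lit 0x900000500900c00e000a01213a41c511)))))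
def t59 : k59.all (jb2 57 fl b0) = true := by decide +kernel
noncomputable def k60 : KT := (.br (Nat.shiftLeft (nat_lit 0x100000400500900c00f) (nat_lit 64)) (.br (Nat.shiftLeft (nat_lit 0x3) (nat_lit 126)) (.br (Nat.shiftLeft (nat_lit 0xa00000500900c01) (nat_lit 68)) (.br (Nat.shiftLeft (nat_lit 0x5) (nat_lit 125)) (.br (Nat.shiftLeft (nat_lit 0x900000500900c01) (nat_lit 68)) (.one (nat_lit 0x900000500900c00f000a01213a41e511)) (.one (nat_lit 0x900000500900c010000a01213a420511))) (.br (Nat.shiftLeft (nat_lit 0xa00000500900c00f) (nat_lit 64)) (.one (nat_lit 0xa00000500900c00e000a01215a81c511)) (.one (nat_lit 0xa00000500900c00f000a01215a81e511)))) (.br (Nat.shiftLeft (nat_lit 0xb00000500900c00f) (nat_lit 64)) (.br (Nat.shiftLeft (nat_lit 0xb) (nat_lit 124)) (.one (nat_lit 0xa00000500900c010000a01215a820511)) (.one (nat_lit 0xb00000500900c00e000a01217ac1c511))) (.br (Nat.shiftLeft (nat_lit 0xb00000500900c01) (nat_lit 68)) (.one (nat_lit 0xb00000500900c00f000a01217ac1e511)) (.one (nat_lit 0xb00000500900c010000a01217ac20511)))))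 (.br (Nat.shiftLeft (nat_lit 0x800001) (nat_lit 113)) (.br (Nat.shiftLeft (nat_lit 0xc00000500900c01) (nat_lit 68)) (.br (Nat.shiftLeft (nat_lit 0xc00000500900c00f) (nat_lit 64)) (.one (nat_lit 0xc00000500900c00e000a01219b01c511)) (.one (nat_lit 0xc00000500900c00f000a01219b01e511))) (.br (Nat.shiftLeft (nat_lit 0x1) (nat_lit 136)) (.one (nat_lit 0xc00000500900c010000a01219b020511)) (.one (nat_lit 0x100000100500900c00e200a03241801c611)))) (.br (Nat.shiftLeft (nat_lit 0x1000003) (nat_lit 112)) (.br (Nat.shiftLeft (nat_lit 0x100000200500900c00f) (nat_lit 64)) (.one (nat_lit 0x100000200500900c00e400a03241801c611)) (.one (nat_lit 0x100000200500900c00f400a03241801e611))) (.br (Nat.shiftLeft (nat_lit 0x100000300500900c00f) (nat_lit 64)) (.one (nat_lit 0x100000300500900c00e600a03241801c611)) (.br (Nat.shiftLeft (nat_lit 0x400001) (nat_lit 114)) (.one (nat_lit 0x100000300500900c00f600a03241801e611)) (.one (nat_lit 0x100000400500900c00e800a03241801c611))))))) (.br (Nat.shiftLeft (nat_lit 0x3) (nat_lit 136)) (.br (Nat.shiftLeft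 (nat_lit 0x2000003) (nat_lit 112)) (.br (Nat.shiftLeft (nat_lit 0x1000001) (nat_lit 113)) (.br (Nat.shiftLeft (nat_lit 0x1) (nat_lit 137)) (.one (nat_lit 0x100000400500900c00f800a03241801e611)) (.one (nat_lit 0x200000100500900c00e200a05281801c611))) (.br (Nat.shiftLeft (nat_lit 0x200000200500900c00f) (nat_lit 64)) (.one (nat_lit 0x200000200500900c00e400a05281801c611)) (.one (nat_lit 0x200000200500900c00f400a05281801e611)))) (.br (Nat.shiftLeft (nat_lit 0x800001) (nat_lit 114)) (.br (Nat.shiftLeft (nat_lit 0x200000300500900c00f) (nat_lit 64)) (.one (nat_lit 0x200000300500900c00e600a05281801c611)) (.one (nat_lit 0x200000300500900c00f600a05281801e611))) (.br (Nat.shiftLeft (nat_lit 0x200000400500900c00f) (nat_lit 64)) (.one (nat_lit 0x200000400500900c00e800a05281801c611)) (.one (nat_lit 0x200000400500900c00f800a05281801e611))))) (.br (Nat.shiftLeft (nat_lit 0x300000300500900c00f) (nat_lit 64)) (.br (Nat.shiftLeft (nat_lit 0x300000200500900c00f) (nat_lit 64)) (.br (Nat.shiftLeft (nat_lit 0x1800001) (nat_lit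 113)) (.one (nat_lit 0x300000100500900c00e200a072c1801c611)) (.one (nat_lit 0x300000200500900c00e400a072c1801c611))) (.br (Nat.shiftLeft (nat_lit 0x3000003) (nat_lit 112)) (.one (nat_lit 0x300000200500900c00f400a072c1801e611)) (.one (nat_lit 0x300000300500900c00e600a072c1801c611)))) (.br (Nat.shiftLeft (nat_lit 0x300000400500900c00f) (nat_lit 64)) (.br (Nat.shiftLeft (nat_lit 0xc00001) (nat_lit 114)) (.one (nat_lit 0x300000300500900c00f600a072c1801e611)) (.one (nat_lit 0x300000400500900c00e800a072c1801c611))) (.br (Nat.shiftLeft (nat_lit 0x1) (nat_lit 138)) (.one (nat_lit 0x300000400500900c00f800a072c1801e611)) (.br (Nat.shiftLeft (nat_lit 0x2000001) (nat_lit 113)) (.one (nat_lit 0x400000100500900c00e200a09301801c611)) (.one (nat_lit 0x400000200500900c00e400a09301801c611))))))))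
def t60 : k60.all (jb2 57 fl b0) = true := by decide +kernel
noncomputable def k61 : KT := (.br (Nat.shiftLeft (nat_lit 0x400000400500900c00f) (nat_lit 64)) (.br (Nat.shiftLeft (nat_lit 0x400000300500900c00f) (nat_lit 64)) (.br (Nat.shiftLeft (nat_lit 0x4000003) (nat_lit 112)) (.one (nat_lit 0x400000200500900c00f400a09301801e611)) (.one (nat_lit 0x400000300500900c00e600a09301801c611))) (.br (Nat.shiftLeft (nat_lit 0x1000001) (nat_lit 114)) (.one (nat_lit 0x400000300500900c00f600a09301801e611)) (.one (nat_lit 0x400000400500900c00e800a09301801c611)))) (.br (Nat.shiftLeft (nat_lit 0x2800001) (nat_lit 113)) (.br (Nat.shiftLeft (nat_lit 0x5) (nat_lit 136)) (.one (nat_lit 0x400000400500900c00f800a09301801e611)) (.one (nat_lit 0x500000100500900c00e200a0b341801c611))) (.br (Nat.shiftLeft (nat_lit 0x500000200500900c00f) (nat_lit 64)) (.one (nat_lit 0x500000200500900c00e400a0b341801c611)) (.one (nat_lit 0x500000200500900c00f400a0b341801e611)))))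
def t61 : k61.all (jb2 57 fl b0) = true := by decide +kernel
noncomputable def k62 : KT := (.br (Nat.shiftLeft (nat_lit 0x1400001) (nat_lit 114)) (.br (Nat.shiftLeft (nat_lit 0x500000300500900c00f) (nat_lit 64)) (.one (nat_lit 0x500000300500900c00e600a0b341801c611)) (.one (nat_lit 0x500000300500900c00f600a0b341801e611))) (.br (Nat.shiftLeft (nat_lit 0x500000400500900c00f) (nat_lit 64)) (.one (nat_lit 0x500000400500900c00e800a0b341801c611)) (.br (Nat.shiftLeft (nat_lit 0x3) (nat_lit 137)) (.one (nat_lit 0x500000400500900c00f800a0b341801e611)) (.one (nat_lit 0x600000100500900c00e200a0d381801c611)))))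
def t62 : k62.all (jb2 57 fl b0) = true := by decide +kernel
noncomputable def k63 : KT := (.br (Nat.shiftLeft (nat_lit 0x600000300500900c00f) (nat_lit 64)) (.br (Nat.shiftLeft (nat_lit 0x600000200500900c00f) (nat_lit 64)) (.one (nat_lit 0x600000200500900c00e400a0d381801c611)) (.br (Nat.shiftLeft (nat_lit 0x6000003) (nat_lit 112)) (.one (nat_lit 0x600000200500900c00f400a0d381801e611)) (.one (nat_lit 0x600000300500900c00e600a0d381801c611)))) (.br (Nat.shiftLeft (nat_lit 0x1800001) (nat_lit 114)) (.one (nat_lit 0x600000300500900c00f600a0d381801e611)) (.br (Nat.shiftLeft (nat_lit 0x600000400500900c00f) (nat_lit 64)) (.one (nat_lit 0x600000400500900c00e800a0d381801c611)) (.one (nat_lit 0x600000400500900c00f800a0d381801e611)))))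
def t63 : k63.all (jb2 57 fl b0) = true := by decide +kernel
noncomputable def k64 : KT := (.br (Nat.shiftLeft (nat_lit 0x7000003) (nat_lit 112)) (.br (Nat.shiftLeft (nat_lit 0x3800001) (nat_lit 113)) (.one (nat_lit 0x700000100500900c00e200a0f3c1801c611)) (.br (Nat.shiftLeft (nat_lit 0x700000200500900c00f) (nat_lit 64)) (.one (nat_lit 0x700000200500900c00e400a0f3c1801c611)) (.one (nat_lit 0x700000200500900c00f400a0f3c1801e611)))) (.br (Nat.shiftLeft (nat_lit 0x1c00001) (nat_lit 114)) (.br (Nat.shiftLeft (nat_lit 0x700000300500900c00f) (nat_lit 64)) (.one (nat_lit 0x700000300500900c00e600a0f3c1801c611)) (.one (nat_lit 0x700000300500900c00f600a0f3c1801e611))) (.br (Nat.shiftLeft (nat_lit 0x700000400500900c00f) (nat_lit 64)) (.one (nat_lit 0x700000400500900c00e800a0f3c1801c611)) (.one (nat_lit 0x700000400500900c00f800a0f3c1801e611)))))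
def t64 : k64.all (jb2 57 fl b0) = true := by decide +kernel
noncomputable def k65 : KT := (.br (Nat.shiftLeft (nat_lit 0x4800001) (nat_lit 113)) (.br (Nat.shiftLeft (nat_lit 0x800000300500900c00f) (nat_lit 64)) (.br (Nat.shiftLeft (nat_lit 0x800000200500900c00f) (nat_lit 64)) (.br (Nat.shiftLeft (nat_lit 0x4000001) (nat_lit 113)) (.one (nat_lit 0x800000100500900c00e200a11401801c611)) (.one (nat_lit 0x800000200500900c00e400a11401801c611))) (.br (Nat.shiftLeft (nat_lit 0x8000003) (nat_lit 112)) (.one (nat_lit 0x800000200500900c00f400a11401801e611)) (.one (nat_lit 0x800000300500900c00e600a11401801c611)))) (.br (Nat.shiftLeft (nat_lit 0x800000400500900c00f) (nat_lit 64)) (.br (Nat.shiftLeft (nat_lit 0x2000001) (nat_lit 114)) (.one (nat_lit 0x800000300500900c00f600a11401801e611)) (.one (nat_lit 0x800000400500900c00e800a11401801c611))) (.br (Nat.shiftLeft (nat_lit 0x9) (nat_lit 136)) (.one (nat_lit 0x800000400500900c00f800a11401801e611)) (.one (nat_lit 0x900000100500900c00e200a13441801c611))))) (.br (Nat.shiftLeft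 (nat_lit 0x2400001) (nat_lit 114)) (.br (Nat.shiftLeft (nat_lit 0x9000003) (nat_lit 112)) (.br (Nat.shiftLeft (nat_lit 0x900000200500900c00f) (nat_lit 64)) (.one (nat_lit 0x900000200500900c00e400a13441801c611)) (.one (nat_lit 0x900000200500900c00f400a13441801e611))) (.br (Nat.shiftLeft (nat_lit 0x900000300500900c00f) (nat_lit 64)) (.one (nat_lit 0x900000300500900c00e600a13441801c611)) (.one (nat_lit 0x900000300500900c00f600a13441801e611)))) (.br (Nat.shiftLeft (nat_lit 0x5) (nat_lit 137)) (.br (Nat.shiftLeft (nat_lit 0x900000400500900c00f) (nat_lit 64)) (.one (nat_lit 0x900000400500900c00e800a13441801c611)) (.one (nat_lit 0x900000400500900c00f800a13441801e611))) (.br (Nat.shiftLeft (nat_lit 0x5000001) (nat_lit 113)) (.one (nat_lit 0xa00000100500900c00e200a15481801c611)) (.one (nat_lit 0xa00000200500900c00e400a15481801c611))))))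
def t65 : k65.all (jb2 57 fl b0) = true := by decide +kernel
noncomputable def k66 : KT := (.br (Nat.shiftLeft (nat_lit 0xb00000300500900c00f) (nat_lit 64)) (.br (Nat.shiftLeft (nat_lit 0xa00000400500900c00f) (nat_lit 64)) (.br (Nat.shiftLeft (nat_lit 0xa00000300500900c00f) (nat_lit 64)) (.br (Nat.shiftLeft (nat_lit 0xa000003) (nat_lit 112)) (.one (nat_lit 0xa00000200500900c00f400a15481801e611)) (.one (nat_lit 0xa00000300500900c00e600a15481801c611))) (.br (Nat.shiftLeft (nat_lit 0x2800001) (nat_lit 114)) (.one (nat_lit 0xa00000300500900c00f600a15481801e611)) (.one (nat_lit 0xa00000400500900c00e800a15481801c611)))) (.br (Nat.shiftLeft (nat_lit 0x5800001) (nat_lit 113)) (.br (Nat.shiftLeft (nat_lit 0xb) (nat_lit 136)) (.one (nat_lit 0xa00000400500900c00f800a15481801e611)) (.one (nat_lit 0xb00000100500900c00e200a174c1801c611))) (.br (Nat.shiftLeft (nat_lit 0xb00000200500900c00f) (nat_lit 64)) (.one (nat_lit 0xb00000200500900c00e400a174c1801c611)) (.br (Nat.shiftLeft (nat_lit 0xb000003) (nat_lit 112)) (.one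 (nat_lit 0xb00000200500900c00f400a174c1801e611)) (.one (nat_lit 0xb00000300500900c00e600a174c1801c611)))))) (.br (Nat.shiftLeft (nat_lit 0xc00000200500900c00f) (nat_lit 64)) (.br (Nat.shiftLeft (nat_lit 0xb00000400500900c00f) (nat_lit 64)) (.br (Nat.shiftLeft (nat_lit 0x2c00001) (nat_lit 114)) (.one (nat_lit 0xb00000300500900c00f600a174c1801e611)) (.one (nat_lit 0xb00000400500900c00e800a174c1801c611))) (.br (Nat.shiftLeft (nat_lit 0x3) (nat_lit 138)) (.one (nat_lit 0xb00000400500900c00f800a174c1801e611)) (.br (Nat.shiftLeft (nat_lit 0x6000001) (nat_lit 113)) (.one (nat_lit 0xc00000100500900c00e200a19501801c611)) (.one (nat_lit 0xc00000200500900c00e400a19501801c611))))) (.br (Nat.shiftLeft (nat_lit 0xc00000300500900c00f) (nat_lit 64)) (.br (Nat.shiftLeft (nat_lit 0xc000003) (nat_lit 112)) (.one (nat_lit 0xc00000200500900c00f400a19501801e611)) (.one (nat_lit 0xc00000300500900c00e600a19501801c611))) (.br (Nat.shiftLeft (nat_lit 0x3000001) (nat_lit 114)) (.one (nat_lit 0xc00000300500900c00f600a19501801e611))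 (.br (Nat.shiftLeft (nat_lit 0xc00000400500900c00f) (nat_lit 64)) (.one (nat_lit 0xc00000400500900c00e800a19501801c611)) (.one (nat_lit 0xc00000400500900c00f800a19501801e611)))))))
def t66 : k66.all (jb2 57 fl b0) = true := by decide +kernel
noncomputable def s2 : KT := (.br (nat_lit 0x200400500900c00e800a01205881c760) (.br (nat_lit 0x100000500900c010000a012038420511) (.br (nat_lit 0x200500900c00f400a01201801f600) (.br (nat_lit 0x100500900c00f200a01201801e650) k45 k46) (.br (nat_lit 0x300500900c00f600a01201801f600) k47 (.br (nat_lit 0x400500900c00f800a01201801f600) k48 k49))) (.br (nat_lit 0x100300500900c00f600a01203841e760) (.br (nat_lit 0x100200500900c00e400a01203841c760) k50 (.br (nat_lit 0x100200500900c00f400a01203841e760) k51 k52)) (.br (nat_lit 0x200000500900c010000a012058820511) k53 (.br (nat_lit 0x200300500900c00e600a01205881c760) k54 k55)))) (.br (nat_lit 0x400000200500900c00e400a09301801c611) (.br (nat_lit 0x500000500900c010000a0120b9420511) (.br (nat_lit 0x300400500900c00e800a012078c1c760) k56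 k57) (.br (nat_lit 0x700000500900c00e000a0120f9c1c511) k58 (.br (nat_lit 0x900000500900c00e000a01213a41c511) k59 k60))) (.br (nat_lit 0x600000400500900c00f800a0d381801e611) (.br (nat_lit 0x500000200500900c00f400a0b341801e611) k61 (.br (nat_lit 0x600000100500900c00e200a0d381801c611) k62 k63)) (.br (nat_lit 0x700000400500900c00f800a0f3c1801e611) k64 (.br (nat_lit 0xa00000200500900c00e400a15481801c611) k65 k66)))))
noncomputable def u2 : KT := (.br (Nat.shiftLeft (nat_lit 0x500900c00f) (nat_lit 64)) (.one (nat_lit 0x500900c00e000a01201801c540)) (.br (Nat.shiftLeft (nat_lit 0x500900c01) (nat_lit 68)) (.one (nat_lit 0x500900c00f000a01201801e540)) (.one (nat_lit 0x500900c010000a012018020540))))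
def w2 : u2.all (wj 57 s2) = true := by decide +kernel
def o2 : OkW 57 (jb2 57 fl) u2 := .lift s2 _ (.br _ _ _ (.br _ _ _ (.br _ _ _ (.br _ _ _ (.leaf b0 k45 t45) (.leaf b0 k46 t46)) (.br _ _ _ (.leaf b0 k47 t47) (.br _ _ _ (.leaf b0 k48 t48) (.leaf b0 k49 t49)))) (.br _ _ _ (.br _ _ _ (.leaf b0 k50 t50) (.br _ _ _ (.leaf b0 k51 t51) (.leaf b0 k52 t52))) (.br _ _ _ (.leaf b0 k53 t53) (.br _ _ _ (.leaf b0 k54 t54) (.leaf b0 k55 t55))))) (.br _ _ _ (.br _ _ _ (.br _ _ _ (.leaf b0 k56 t56) (.leaf b0 k57 t57)) (.br _ _ _ (.leaf b0 k58 t58) (.br _ _ _ (.leaf b0 k59 t59) (.leaf b0 k60 t60)))) (.br _ _ _ (.br _ _ _ (.leaf b0 k61 t61) (.br _ _ _ (.leaf b0 k62 t62) (.leaf b0 k63 t63))) (.br _ _ _ (.leaf b0 k64 t64) (.br _ _ _ (.leaf b0 k65 t65) (.leaf b0 k66 t66)))))) w2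
noncomputable def k67 : KT := (.br (Nat.shiftLeft (nat_lit 0x500900d00f) (nat_lit 64)) (.one (nat_lit 0x500900d00e000a01201a01d500)) (.br (Nat.shiftLeft (nat_lit 0x1) (nat_lit 112)) (.one (nat_lit 0x500900d00f000a01201a01f500)) (.one (nat_lit 0x100500900d00e200a01201a01c650))))
def t67 : k67.all (jb2 57 fl b0) = true := by decide +kernel
noncomputable def k68 : KT := (.br (Nat.shiftLeft (nat_lit 0x1) (nat_lit 113)) (.one (nat_lit 0x100500900d00f200a01201a01e650)) (.one (nat_lit 0x200500900d00e400a01201a01d600)))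
def t68 : k68.all (jb2 57 fl b0) = true := by decide +kernel
noncomputable def k69 : KT := (.br (Nat.shiftLeft (nat_lit 0x3) (nat_lit 112)) (.one (nat_lit 0x200500900d00f400a01201a01e650)) (.one (nat_lit 0x300500900d00e600a01201a01d600)))
def t69 : k69.all (jb2 57 fl b0) = true := by decide +kernel
noncomputable def k70 : KT := (.br (Nat.shiftLeft (nat_lit 0x1) (nat_lit 114)) (.one (nat_lit 0x300500900d00f600a01201a01e650)) (.one (nat_lit 0x400500900d00e800a01201a01d600)))
def t70 : k70.all (jb2 57 fl b0) = true := by decide +kernel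
noncomputable def k71 : KT := (.br (Nat.shiftLeft (nat_lit 0x1) (nat_lit 124)) (.one (nat_lit 0x400500900d00f800a01201a01e650)) (.br (Nat.shiftLeft (nat_lit 0x100000500900d00f) (nat_lit 64)) (.one (nat_lit 0x100000500900d00e000a01203a41c511)) (.one (nat_lit 0x100000500900d00f000a01203a41e511))))
def t71 : k71.all (jb2 57 fl b0) = true := by decide +kernel
noncomputable def k72 : KT := (.br (Nat.shiftLeft (nat_lit 0x1003) (nat_lit 112)) (.one (nat_lit 0x100200500900d00e400a01203a41c760)) (.one (nat_lit 0x100300500900d00e600a01203a41c760)))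
def t72 : k72.all (jb2 57 fl b0) = true := by decide +kernel
noncomputable def k73 : KT := (.br (Nat.shiftLeft (nat_lit 0x1001) (nat_lit 113)) (.br (Nat.shiftLeft (nat_lit 0x1) (nat_lit 125)) (.one (nat_lit 0x100400500900d00e800a01203a41c760)) (.br (Nat.shiftLeft (nat_lit 0x200000500900d00f) (nat_lit 64)) (.one (nat_lit 0x200000500900d00e000a01205a81c511)) (.one (nat_lit 0x200000500900d00f000a01205a81e511)))) (.br (Nat.shiftLeft (nat_lit 0x3) (nat_lit 124)) (.br (Nat.shiftLeft (nat_lit 0x801) (nat_lit 114)) (.one (nat_lit 0x200300500900d00e600a01205a81c760)) (.one (nat_lit 0x200400500900d00e800a01205a81c760))) (.br (Nat.shiftLeft (nat_lit 0x300000500900d00f) (nat_lit 64)) (.one (nat_lit 0x300000500900d00e000a01207ac1c511)) (.one (nat_lit 0x300000500900d00f000a01207ac1e511)))))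
def t73 : k73.all (jb2 57 fl b0) = true := by decide +kernel
noncomputable def k74 : KT := (.br (Nat.shiftLeft (nat_lit 0x5) (nat_lit 124)) (.br (Nat.shiftLeft (nat_lit 0x1) (nat_lit 126)) (.one (nat_lit 0x300400500900d00e800a01207ac1c760)) (.br (Nat.shiftLeft (nat_lit 0x400000500900d00f) (nat_lit 64)) (.one (nat_lit 0x400000500900d00e000a01209b01c511)) (.one (nat_lit 0x400000500900d00f000a01209b01e511)))) (.br (Nat.shiftLeft (nat_lit 0x3) (nat_lit 125)) (.br (Nat.shiftLeft (nat_lit 0x500000500900d00f) (nat_lit 64)) (.one (nat_lit 0x500000500900d00e000a0120bb41c511)) (.one (nat_lit 0x500000500900d00f000a0120bb41e511))) (.br (Nat.shiftLeft (nat_lit 0x600000500900d00f) (nat_lit 64)) (.one (nat_lit 0x600000500900d00e000a0120db81c511)) (.one (nat_lit 0x600000500900d00f000a0120db81e511)))))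
def t74 : k74.all (jb2 57 fl b0) = true := by decide +kernel
noncomputable def k75 : KT := (.br (Nat.shiftLeft (nat_lit 0xc00000500900d00f) (nat_lit 64)) (.br (Nat.shiftLeft (nat_lit 0x900000500900d00f) (nat_lit 64)) (.br (Nat.shiftLeft (nat_lit 0x1) (nat_lit 127)) (.br (Nat.shiftLeft (nat_lit 0x700000500900d00f) (nat_lit 64)) (.one (nat_lit 0x700000500900d00e000a0120fbc1c511)) (.one (nat_lit 0x700000500900d00f000a0120fbc1e511))) (.br (Nat.shiftLeft (nat_lit 0x800000500900d00f) (nat_lit 64)) (.one (nat_lit 0x800000500900d00e000a01211c01c511)) (.br (Nat.shiftLeft (nat_lit 0x9) (nat_lit 124)) (.one (nat_lit 0x800000500900d00f000a01211c01e511)) (.one (nat_lit 0x900000500900d00e000a01213c41c511))))) (.br (Nat.shiftLeft (nat_lit 0xb) (nat_lit 124)) (.br (Nat.shiftLeft (nat_lit 0x5) (nat_lit 125)) (.one (nat_lit 0x900000500900d00f000a01213c41e511)) (.br (Nat.shiftLeft (nat_lit 0xa00000500900d00f) (nat_lit 64)) (.one (nat_lit 0xa00000500900d00e000a01215c81c511)) (.one (nat_lit 0xa00000500900d00f000a01215c81e511))))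 (.br (Nat.shiftLeft (nat_lit 0xb00000500900d00f) (nat_lit 64)) (.one (nat_lit 0xb00000500900d00e000a01217cc1c511)) (.br (Nat.shiftLeft (nat_lit 0x3) (nat_lit 126)) (.one (nat_lit 0xb00000500900d00f000a01217cc1e511)) (.one (nat_lit 0xc00000500900d00e000a01219d01c511)))))) (.br (Nat.shiftLeft (nat_lit 0x1) (nat_lit 137)) (.br (Nat.shiftLeft (nat_lit 0x1) (nat_lit 136)) (.br (Nat.shiftLeft (nat_lit 0xd) (nat_lit 124)) (.one (nat_lit 0xc00000500900d00f000a01219d01e511)) (.br (Nat.shiftLeft (nat_lit 0xd00000500900d00f) (nat_lit 64)) (.one (nat_lit 0xd00000500900d00e000a0121bd41c511)) (.one (nat_lit 0xd00000500900d00f000a0121bd41e511)))) (.br (Nat.shiftLeft (nat_lit 0x1000003) (nat_lit 112)) (.one (nat_lit 0x100000200500900d00e400a03241a01c611)) (.br (Nat.shiftLeft (nat_lit 0x400001) (nat_lit 114)) (.one (nat_lit 0x100000300500900d00e600a03241a01c611)) (.one (nat_lit 0x100000400500900d00e800a03241a01c611))))) (.br (Nat.shiftLeft (nat_lit 0x3) (nat_lit 136)) (.br (Nat.shiftLeft (nat_lit 0x2000003) (nat_lit 112))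 (.one (nat_lit 0x200000200500900d00e400a05281a01c611)) (.br (Nat.shiftLeft (nat_lit 0x800001) (nat_lit 114)) (.one (nat_lit 0x200000300500900d00e600a05281a01c611)) (.one (nat_lit 0x200000400500900d00e800a05281a01c611)))) (.br (Nat.shiftLeft (nat_lit 0x3000003) (nat_lit 112)) (.one (nat_lit 0x300000200500900d00e400a072c1a01c611)) (.br (Nat.shiftLeft (nat_lit 0xc00001) (nat_lit 114)) (.one (nat_lit 0x300000300500900d00e600a072c1a01c611)) (.one (nat_lit 0x300000400500900d00e800a072c1a01c611)))))))
def t75 : k75.all (jb2 57 fl b0) = true := by decide +kernel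
noncomputable def k76 : KT := (.br (Nat.shiftLeft (nat_lit 0x3) (nat_lit 137)) (.br (Nat.shiftLeft (nat_lit 0x5) (nat_lit 136)) (.br (Nat.shiftLeft (nat_lit 0x4000003) (nat_lit 112)) (.one (nat_lit 0x400000200500900d00e400a09301a01c611)) (.br (Nat.shiftLeft (nat_lit 0x1000001) (nat_lit 114)) (.one (nat_lit 0x400000300500900d00e600a09301a01c611)) (.one (nat_lit 0x400000400500900d00e800a09301a01c611)))) (.br (Nat.shiftLeft (nat_lit 0x5000003) (nat_lit 112)) (.one (nat_lit 0x500000200500900d00e400a0b341a01c611)) (.br (Nat.shiftLeft (nat_lit 0x1400001) (nat_lit 114)) (.one (nat_lit 0x500000300500900d00e600a0b341a01c611)) (.one (nat_lit 0x500000400500900d00e800a0b341a01c611))))) (.br (Nat.shiftLeft (nat_lit 0x7) (nat_lit 136)) (.br (Nat.shiftLeft (nat_lit 0x6000003) (nat_lit 112)) (.one (nat_lit 0x600000200500900d00e400a0d381a01c611)) (.br (Nat.shiftLeft (nat_lit 0x1800001) (nat_lit 114)) (.one (nat_lit 0x600000300500900d00e600a0d381a01c611)) (.one (nat_lit 0x600000400500900d00e800a0d381a01c611)))) (.br (Nat.shiftLeft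 (nat_lit 0x7000003) (nat_lit 112)) (.one (nat_lit 0x700000200500900d00e400a0f3c1a01c611)) (.br (Nat.shiftLeft (nat_lit 0x1c00001) (nat_lit 114)) (.one (nat_lit 0x700000300500900d00e600a0f3c1a01c611)) (.one (nat_lit 0x700000400500900d00e800a0f3c1a01c611))))))
def t76 : k76.all (jb2 57 fl b0) = true := by decide +kernel
noncomputable def k77 : KT := (.br (Nat.shiftLeft (nat_lit 0x2800001) (nat_lit 114)) (.br (Nat.shiftLeft (nat_lit 0x9000003) (nat_lit 112)) (.br (Nat.shiftLeft (nat_lit 0x2000001) (nat_lit 114)) (.br (Nat.shiftLeft (nat_lit 0x8000003) (nat_lit 112)) (.one (nat_lit 0x800000200500900d00e400a11401a01c611)) (.one (nat_lit 0x800000300500900d00e600a11401a01c611))) (.br (Nat.shiftLeft (nat_lit 0x9) (nat_lit 136)) (.one (nat_lit 0x800000400500900d00e800a11401a01c611)) (.one (nat_lit 0x900000200500900d00e400a13441a01c611)))) (.br (Nat.shiftLeft (nat_lit 0x5) (nat_lit 137)) (.br (Nat.shiftLeft (nat_lit 0x2400001) (nat_lit 114)) (.one (nat_lit 0x900000300500900d00e600a13441a01c611)) (.one (nat_lit 0x900000400500900d00e800a13441a01c611)))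 (.br (Nat.shiftLeft (nat_lit 0xa000003) (nat_lit 112)) (.one (nat_lit 0xa00000200500900d00e400a15481a01c611)) (.one (nat_lit 0xa00000300500900d00e600a15481a01c611))))) (.br (Nat.shiftLeft (nat_lit 0x3) (nat_lit 138)) (.br (Nat.shiftLeft (nat_lit 0xb000003) (nat_lit 112)) (.br (Nat.shiftLeft (nat_lit 0xb) (nat_lit 136)) (.one (nat_lit 0xa00000400500900d00e800a15481a01c611)) (.one (nat_lit 0xb00000200500900d00e400a174c1a01c611))) (.br (Nat.shiftLeft (nat_lit 0x2c00001) (nat_lit 114)) (.one (nat_lit 0xb00000300500900d00e600a174c1a01c611)) (.one (nat_lit 0xb00000400500900d00e800a174c1a01c611)))) (.br (Nat.shiftLeft (nat_lit 0x3000001) (nat_lit 114)) (.br (Nat.shiftLeft (nat_lit 0xc000003) (nat_lit 112)) (.one (nat_lit 0xc00000200500900d00e400a19501a01c611)) (.one (nat_lit 0xc00000300500900d00e600a19501a01c611))) (.br (Nat.shiftLeft (nat_lit 0xd) (nat_lit 136)) (.one (nat_lit 0xc00000400500900d00e800a19501a01c611)) (.br (Nat.shiftLeft (nat_lit 0xd000003) (nat_lit 112)) (.one (nat_lit 0xd00000200500900d00e400a1b541a01c611))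 (.one (nat_lit 0xd00000300500900d00e600a1b541a01c611)))))))
def t77 : k77.all (jb2 57 fl b0) = true := by decide +kernel
noncomputable def s3 : KT := (.br (nat_lit 0x100000500900d00f000a01203a41e511) (.br (nat_lit 0x200500900d00e400a01201a01d600) (.br (nat_lit 0x100500900d00e200a01201a01c650) k67 k68) (.br (nat_lit 0x300500900d00e600a01201a01d600) k69 (.br (nat_lit 0x400500900d00e800a01201a01d600) k70 k71))) (.br (nat_lit 0x600000500900d00f000a0120db81e511) (.br (nat_lit 0x100300500900d00e600a01203a41c760) k72 (.br (nat_lit 0x300000500900d00f000a01207ac1e511) k73 k74)) (.br (nat_lit 0x300000400500900d00e800a072c1a01c611) k75 (.br (nat_lit 0x700000400500900d00e800a0f3c1a01c611) k76 k77))))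
noncomputable def u3 : KT := (.br (Nat.shiftLeft (nat_lit 0x500900d00f) (nat_lit 64)) (.one (nat_lit 0x500900d00e000a01201a01c540)) (.one (nat_lit 0x500900d00f000a01201a01e540)))
def w3 : u3.all (wj 57 s3) = true := by decide +kernel
def o3 : OkW 57 (jb2 57 fl) u3 := .lift s3 _ (.br _ _ _ (.br _ _ _ (.br _ _ _ (.leaf b0 k67 t67) (.leaf b0 k68 t68)) (.br _ _ _ (.leaf b0 k69 t69) (.br _ _ _ (.leaf b0 k70 t70) (.leaf b0 k71 t71)))) (.br _ _ _ (.br _ _ _ (.leaf b0 k72 t72) (.br _ _ _ (.leaf b0 k73 t73) (.leaf b0 k74 t74))) (.br _ _ _ (.leaf b0 k75 t75) (.br _ _ _ (.leaf b0 k76 t76) (.leaf b0 k77 t77))))) w3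
noncomputable def k78 : KT := (.br (Nat.shiftLeft (nat_lit 0x1) (nat_lit 114)) (.br (Nat.shiftLeft (nat_lit 0x1) (nat_lit 113)) (.br (Nat.shiftLeft (nat_lit 0x1) (nat_lit 112)) (.one (nat_lit 0x500a00b00c000a014016019500)) (.one (nat_lit 0x100500a00b00c200a014016019600))) (.br (Nat.shiftLeft (nat_lit 0x3) (nat_lit 112)) (.one (nat_lit 0x200500a00b00c400a014016019600)) (.one (nat_lit 0x300500a00b00c600a014016019600)))) (.br (Nat.shiftLeft (nat_lit 0x801) (nat_lit 113)) (.br (Nat.shiftLeft (nat_lit 0x1) (nat_lit 124)) (.one (nat_lit 0x400500a00b00c800a014016019600)) (.one (nat_lit 0x100000500a00b00c000a014036418511))) (.br (Nat.shiftLeft (nat_lit 0x1003) (nat_lit 112)) (.one (nat_lit 0x100200500a00b00c400a014036419700)) (.one (nat_lit 0x100300500a00b00c600a014036418760)))))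
def t78 : k78.all (jb2 57 fl b0) = true := by decide +kernel
noncomputable def k79 : KT := (.br (Nat.shiftLeft (nat_lit 0x1) (nat_lit 125)) (.one (nat_lit 0x100400500a00b00c800a014036418760)) (.br (Nat.shiftLeft (nat_lit 0x1001) (nat_lit 113)) (.one (nat_lit 0x200000500a00b00c000a014056818511)) (.one (nat_lit 0x200300500a00b00c600a014056819700))))
def t79 : k79.all (jb2 57 fl b0) = true := by decide +kernel
noncomputable def k80 : KT := (.br (Nat.shiftLeft (nat_lit 0x3) (nat_lit 124)) (.one (nat_lit 0x200400500a00b00c800a014056818760)) (.one (nat_lit 0x300000500a00b00c000a014076c18511)))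
def t80 : k80.all (jb2 57 fl b0) = true := by decide +kernel
noncomputable def k81 : KT := (.br (Nat.shiftLeft (nat_lit 0x1) (nat_lit 126)) (.one (nat_lit 0x300400500a00b00c800a014076c18760)) (.one (nat_lit 0x400000500a00b00c000a014097018511)))
def t81 : k81.all (jb2 57 fl b0) = true := by decide +kernel
noncomputable def k82 : KT := (.br (Nat.shiftLeft (nat_lit 0x3) (nat_lit 125)) (.one (nat_lit 0x500000500a00b00c000a0140b7418511)) (.br (Nat.shiftLeft (nat_lit 0x7) (nat_lit 124)) (.one (nat_lit 0x600000500a00b00c000a0140d7818511)) (.one (nat_lit 0x700000500a00b00c000a0140f7c18511))))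
def t82 : k82.all (jb2 57 fl b0) = true := by decide +kernel
noncomputable def k83 : KT := (.br (Nat.shiftLeft (nat_lit 0x1) (nat_lit 136)) (.br (Nat.shiftLeft (nat_lit 0x5) (nat_lit 125)) (.br (Nat.shiftLeft (nat_lit 0x9) (nat_lit 124)) (.one (nat_lit 0x800000500a00b00c000a014118018511)) (.one (nat_lit 0x900000500a00b00c000a014138418511))) (.br (Nat.shiftLeft (nat_lit 0xb) (nat_lit 124)) (.one (nat_lit 0xa00000500a00b00c000a014158818511)) (.one (nat_lit 0xb00000500a00b00c000a014178c18511)))) (.br (Nat.shiftLeft (nat_lit 0x1000003) (nat_lit 112)) (.br (Nat.shiftLeft (nat_lit 0x800001) (nat_lit 113)) (.one (nat_lit 0x100000100500a00b00c200a034416018611)) (.one (nat_lit 0x100000200500a00b00c400a034416018611))) (.br (Nat.shiftLeft (nat_lit 0x400001) (nat_lit 114)) (.one (nat_lit 0x100000300500a00b00c600a034416018611)) (.one (nat_lit 0x100000400500a00b00c800a034416018611)))))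
def t83 : k83.all (jb2 57 fl b0) = true := by decide +kernel
noncomputable def k84 : KT := (.br (Nat.shiftLeft (nat_lit 0x1800001) (nat_lit 113)) (.br (Nat.shiftLeft (nat_lit 0x2000003) (nat_lit 112)) (.br (Nat.shiftLeft (nat_lit 0x1) (nat_lit 137)) (.one (nat_lit 0x100200300500a00b00c600a034456818870)) (.br (Nat.shiftLeft (nat_lit 0x1000001) (nat_lit 113)) (.one (nat_lit 0x200000100500a00b00c200a054816018611)) (.one (nat_lit 0x200000200500a00b00c400a054816018611)))) (.br (Nat.shiftLeft (nat_lit 0x800001) (nat_lit 114)) (.one (nat_lit 0x200000300500a00b00c600a054816018611)) (.br (Nat.shiftLeft (nat_lit 0x3) (nat_lit 136)) (.one (nat_lit 0x200000400500a00b00c800a054816018611)) (.one (nat_lit 0x300000100500a00b00c200a074c16018611))))) (.br (Nat.shiftLeft (nat_lit 0x1) (nat_lit 138)) (.br (Nat.shiftLeft (nat_lit 0x3000003) (nat_lit 112)) (.one (nat_lit 0x300000200500a00b00c400a074c16018611)) (.br (Nat.shiftLeft (nat_lit 0xc00001) (nat_lit 114)) (.one (nat_lit 0x300000300500a00b00c600a074c16018611)) (.one (nat_lit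 0x300000400500a00b00c800a074c16018611)))) (.br (Nat.shiftLeft (nat_lit 0x4000003) (nat_lit 112)) (.br (Nat.shiftLeft (nat_lit 0x2000001) (nat_lit 113)) (.one (nat_lit 0x400000100500a00b00c200a095016018611)) (.one (nat_lit 0x400000200500a00b00c400a095016018611))) (.br (Nat.shiftLeft (nat_lit 0x1000001) (nat_lit 114)) (.one (nat_lit 0x400000300500a00b00c600a095016018611)) (.one (nat_lit 0x400000400500a00b00c800a095016018611))))))
def t84 : k84.all (jb2 57 fl b0) = true := by decide +kernel
noncomputable def k85 : KT := (.br (Nat.shiftLeft (nat_lit 0x5000003) (nat_lit 112)) (.br (Nat.shiftLeft (nat_lit 0x2800001) (nat_lit 113)) (.one (nat_lit 0x500000100500a00b00c200a0b5416018611)) (.one (nat_lit 0x500000200500a00b00c400a0b5416018611))) (.br (Nat.shiftLeft (nat_lit 0x1400001) (nat_lit 114)) (.one (nat_lit 0x500000300500a00b00c600a0b5416018611)) (.one (nat_lit 0x500000400500a00b00c800a0b5416018611))))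
def t85 : k85.all (jb2 57 fl b0) = true := by decide +kernel
noncomputable def k86 : KT := (.br (Nat.shiftLeft (nat_lit 0x3000001) (nat_lit 113)) (.one (nat_lit 0x600000100500a00b00c200a0d5816018611)) (.br (Nat.shiftLeft (nat_lit 0x6000003) (nat_lit 112)) (.one (nat_lit 0x600000200500a00b00c400a0d5816018611)) (.one (nat_lit 0x600000300500a00b00c600a0d5816018611))))
def t86 : k86.all (jb2 57 fl b0) = true := by decide +kernel
noncomputable def k87 : KT := (.br (Nat.shiftLeft (nat_lit 0x7) (nat_lit 136)) (.one (nat_lit 0x600000400500a00b00c800a0d5816018611)) (.br (Nat.shiftLeft (nat_lit 0x3800001) (nat_lit 113)) (.one (nat_lit 0x700000100500a00b00c200a0f5c16018611)) (.one (nat_lit 0x700000200500a00b00c400a0f5c16018611))))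
def t87 : k87.all (jb2 57 fl b0) = true := by decide +kernel
noncomputable def k88 : KT := (.br (Nat.shiftLeft (nat_lit 0x1) (nat_lit 139)) (.br (Nat.shiftLeft (nat_lit 0x1c00001) (nat_lit 114)) (.one (nat_lit 0x700000300500a00b00c600a0f5c16018611)) (.one (nat_lit 0x700000400500a00b00c800a0f5c16018611))) (.br (Nat.shiftLeft (nat_lit 0x4000001) (nat_lit 113)) (.one (nat_lit 0x800000100500a00b00c200a116016018611)) (.br (Nat.shiftLeft (nat_lit 0x8000003) (nat_lit 112)) (.one (nat_lit 0x800000200500a00b00c400a116016018611)) (.one (nat_lit 0x800000300500a00b00c600a116016018611)))))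
def t88 : k88.all (jb2 57 fl b0) = true := by decide +kernel
noncomputable def k89 : KT := (.br (Nat.shiftLeft (nat_lit 0x2400001) (nat_lit 114)) (.br (Nat.shiftLeft (nat_lit 0x4800001) (nat_lit 113)) (.br (Nat.shiftLeft (nat_lit 0x9) (nat_lit 136)) (.one (nat_lit 0x800000400500a00b00c800a116016018611)) (.one (nat_lit 0x900000100500a00b00c200a136416018611))) (.br (Nat.shiftLeft (nat_lit 0x9000003) (nat_lit 112)) (.one (nat_lit 0x900000200500a00b00c400a136416018611)) (.one (nat_lit 0x900000300500a00b00c600a136416018611)))) (.br (Nat.shiftLeft (nat_lit 0x5000001) (nat_lit 113)) (.br (Nat.shiftLeft (nat_lit 0x5) (nat_lit 137)) (.one (nat_lit 0x900000400500a00b00c800a136416018611)) (.one (nat_lit 0xa00000100500a00b00c200a156816018611))) (.br (Nat.shiftLeft (nat_lit 0xa000003) (nat_lit 112)) (.one (nat_lit 0xa00000200500a00b00c400a156816018611)) (.br (Nat.shiftLeft (nat_lit 0x2800001) (nat_lit 114)) (.one (nat_lit 0xa00000300500a00b00c600a156816018611)) (.one (nat_lit 0xa00000400500a00b00c800a156816018611))))))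
def t89 : k89.all (jb2 57 fl b0) = true := by decide +kernel
noncomputable def k90 : KT := (.br (Nat.shiftLeft (nat_lit 0x1000001) (nat_lit 125)) (.br (Nat.shiftLeft (nat_lit 0x2c00001) (nat_lit 114)) (.br (Nat.shiftLeft (nat_lit 0x5800001) (nat_lit 113)) (.one (nat_lit 0xb00000100500a00b00c200a176c16018611)) (.br (Nat.shiftLeft (nat_lit 0xb000003) (nat_lit 112)) (.one (nat_lit 0xb00000200500a00b00c400a176c16018611)) (.one (nat_lit 0xb00000300500a00b00c600a176c16018611)))) (.br (Nat.shiftLeft (nat_lit 0x800001) (nat_lit 125)) (.br (Nat.shiftLeft (nat_lit 0x1) (nat_lit 148)) (.one (nat_lit 0xb00000400500a00b00c800a176c16018611)) (.one (nat_lit 0x100000100200500a00b00c402a414036418711))) (.br (Nat.shiftLeft (nat_lit 0x1) (nat_lit 149)) (.one (nat_lit 0x100000200300500a00b00c602a414056818711)) (.one (nat_lit 0x200000100200500a00b00c404a814036418711))))) (.br (Nat.shiftLeft (nat_lit 0x1) (nat_lit 150)) (.br (Nat.shiftLeft (nat_lit 0x3) (nat_lit 148)) (.one (nat_lit 0x200000200300500a00b00c604a814056818711))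 (.br (Nat.shiftLeft (nat_lit 0x1800001) (nat_lit 125)) (.one (nat_lit 0x300000100200500a00b00c406ac14036418711)) (.one (nat_lit 0x300000200300500a00b00c606ac14056818711)))) (.br (Nat.shiftLeft (nat_lit 0x5) (nat_lit 148)) (.br (Nat.shiftLeft (nat_lit 0x2000001) (nat_lit 125)) (.one (nat_lit 0x400000100200500a00b00c408b014036418711)) (.one (nat_lit 0x400000200300500a00b00c608b014056818711))) (.br (Nat.shiftLeft (nat_lit 0x2800001) (nat_lit 125)) (.one (nat_lit 0x500000100200500a00b00c40ab414036418711)) (.one (nat_lit 0x500000200300500a00b00c60ab414056818711))))))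
def t90 : k90.all (jb2 57 fl b0) = true := by decide +kernel
noncomputable def k91 : KT := (.br (Nat.shiftLeft (nat_lit 0x3800001) (nat_lit 125)) (.br (Nat.shiftLeft (nat_lit 0x3000001) (nat_lit 125)) (.one (nat_lit 0x600000100200500a00b00c40cb814036418711)) (.br (Nat.shiftLeft (nat_lit 0x7) (nat_lit 148)) (.one (nat_lit 0x600000200300500a00b00c60cb814056818711)) (.one (nat_lit 0x700000100200500a00b00c40ebc14036418711)))) (.br (Nat.shiftLeft (nat_lit 0x1) (nat_lit 151)) (.one (nat_lit 0x700000200300500a00b00c60ebc14056818711)) (.br (Nat.shiftLeft (nat_lit 0x4000001) (nat_lit 125)) (.one (nat_lit 0x800000100200500a00b00c410c014036418711)) (.one (nat_lit 0x800000200300500a00b00c610c014056818711)))))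
def t91 : k91.all (jb2 57 fl b0) = true := by decide +kernel
noncomputable def k92 : KT := (.br (Nat.shiftLeft (nat_lit 0x5000001) (nat_lit 125)) (.br (Nat.shiftLeft (nat_lit 0x4800001) (nat_lit 125)) (.one (nat_lit 0x900000100200500a00b00c412c414036418711)) (.br (Nat.shiftLeft (nat_lit 0x5) (nat_lit 149)) (.one (nat_lit 0x900000200300500a00b00c612c414056818711)) (.one (nat_lit 0xa00000100200500a00b00c414c814036418711)))) (.br (Nat.shiftLeft (nat_lit 0xb) (nat_lit 148)) (.one (nat_lit 0xa00000200300500a00b00c614c814056818711)) (.br (Nat.shiftLeft (nat_lit 0x5800001) (nat_lit 125)) (.one (nat_lit 0xb00000100200500a00b00c416cc14036418711)) (.one (nat_lit 0xb00000200300500a00b00c616cc14056818711)))))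
def t92 : k92.all (jb2 57 fl b0) = true := by decide +kernel
noncomputable def s4 : KT := (.br (nat_lit 0x400000400500a00b00c800a095016018611) (.br (nat_lit 0x300000500a00b00c000a014076c18511) (.br (nat_lit 0x100300500a00b00c600a014036418760) k78 (.br (nat_lit 0x200300500a00b00c600a014056819700) k79 k80)) (.br (nat_lit 0x700000500a00b00c000a0140f7c18511) (.br (nat_lit 0x400000500a00b00c000a014097018511) k81 k82) (.br (nat_lit 0x100000400500a00b00c800a034416018611) k83 k84))) (.br (nat_lit 0x800000300500a00b00c600a116016018611) (.br (nat_lit 0x600000300500a00b00c600a0d5816018611) (.br (nat_lit 0x500000400500a00b00c800a0b5416018611) k85 k86) (.br (nat_lit 0x700000200500a00b00c400a0f5c16018611) k87 k88)) (.br (nat_lit 0x500000200300500a00b00c60ab414056818711) (.br (nat_lit 0xa00000400500a00b00c800a156816018611) k89 k90) (.br (nat_lit 0x800000200300500a00b00c610c014056818711) k91 k92))))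
noncomputable def u4 : KT := (.one (nat_lit 0x500a00b00c000a014016018540))
def w4 : u4.all (wj 57 s4) = true := by decide +kernel
def o4 : OkW 57 (jb2 57 fl) u4 := .lift s4 _ (.br _ _ _ (.br _ _ _ (.br _ _ _ (.leaf b0 k78 t78) (.br _ _ _ (.leaf b0 k79 t79) (.leaf b0 k80 t80))) (.br _ _ _ (.br _ _ _ (.leaf b0 k81 t81) (.leaf b0 k82 t82)) (.br _ _ _ (.leaf b0 k83 t83) (.leaf b0 k84 t84)))) (.br _ _ _ (.br _ _ _ (.br _ _ _ (.leaf b0 k85 t85) (.leaf b0 k86 t86)) (.br _ _ _ (.leaf b0 k87 t87) (.leaf b0 k88 t88))) (.br _ _ _ (.br _ _ _ (.leaf b0 k89 t89) (.leaf b0 k90 t90)) (.br _ _ _ (.leaf b0 k91 t91) (.leaf b0 k92 t92))))) w4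
noncomputable def k93 : KT := (.br (Nat.shiftLeft (nat_lit 0x3) (nat_lit 112)) (.br (Nat.shiftLeft (nat_lit 0x802805005807) (nat_lit 65)) (.br (Nat.shiftLeft (nat_lit 0x2805005807) (nat_lit 65)) (.one (nat_lit 0x500a00b00d000a01401601b500)) (.br (Nat.shiftLeft (nat_lit 0x1) (nat_lit 112)) (.one (nat_lit 0x500a00b00e000a01401601d500)) (.one (nat_lit 0x100500a00b00d200a01401601b600)))) (.br (Nat.shiftLeft (nat_lit 0x1) (nat_lit 113)) (.one (nat_lit 0x100500a00b00e200a01401601d600)) (.br (Nat.shiftLeft (nat_lit 0x1002805005807) (nat_lit 65)) (.one (nat_lit 0x200500a00b00d400a01401601b600)) (.one (nat_lit 0x200500a00b00e400a01401601d600))))) (.br (Nat.shiftLeft (nat_lit 0x2002805005807) (nat_lit 65)) (.br (Nat.shiftLeft (nat_lit 0x1802805005807) (nat_lit 65)) (.one (nat_lit 0x300500a00b00d600a01401601b600)) (.br (Nat.shiftLeft (nat_lit 0x1) (nat_lit 114)) (.one (nat_lit 0x300500a00b00e600a01401601d600)) (.one (nat_lit 0x400500a00b00d800a01401601b600)))) (.br (Nat.shiftLeft (nat_lit 0x800002805005807) (nat_lit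 65)) (.br (Nat.shiftLeft (nat_lit 0x1) (nat_lit 124)) (.one (nat_lit 0x400500a00b00e800a01401601d600)) (.one (nat_lit 0x100000500a00b00d000a01403641a511))) (.br (Nat.shiftLeft (nat_lit 0x801) (nat_lit 113)) (.one (nat_lit 0x100000500a00b00e000a01403641c511)) (.one (nat_lit 0x100200500a00b00d400a01403641a760))))))
def t93 : k93.all (jb2 57 fl b0) = true := by decide +kernel
noncomputable def k94 : KT := (.one (nat_lit 0x100200500a00b00e400a01403641c760))
def t94 : k94.all (jb2 57 fl b0) = true := by decide +kernel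
noncomputable def k95 : KT := (.one (nat_lit 0x100300500a00b00d600a01403641a760))
def t95 : k95.all (jb2 57 fl b0) = true := by decide +kernel
noncomputable def k96 : KT := (.br (Nat.shiftLeft (nat_lit 0x401) (nat_lit 114)) (.one (nat_lit 0x100300500a00b00e600a01403641c760)) (.one (nat_lit 0x100400500a00b00d800a01403641a760)))
def t96 : k96.all (jb2 57 fl b0) = true := by decide +kernel
noncomputable def k97 : KT := (.br (Nat.shiftLeft (nat_lit 0x1) (nat_lit 125)) (.one (nat_lit 0x100400500a00b00e800a01403641c760)) (.br (Nat.shiftLeft (nat_lit 0x1000002805005807) (nat_lit 65)) (.one (nat_lit 0x200000500a00b00d000a01405681a511)) (.one (nat_lit 0x200000500a00b00e000a01405681c511))))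
def t97 : k97.all (jb2 57 fl b0) = true := by decide +kernel
noncomputable def k98 : KT := (.one (nat_lit 0x200300500a00b00d600a01405681a760))
def t98 : k98.all (jb2 57 fl b0) = true := by decide +kernel
noncomputable def k99 : KT := (.one (nat_lit 0x200300500a00b00e600a01405681c760))
def t99 : k99.all (jb2 57 fl b0) = true := by decide +kernel
noncomputable def k100 : KT := (.br (Nat.shiftLeft (nat_lit 0x1002002805005807) (nat_lit 65)) (.one (nat_lit 0x200400500a00b00d800a01405681a760)) (.br (Nat.shiftLeft (nat_lit 0x3) (nat_lit 124)) (.one (nat_lit 0x200400500a00b00e800a01405681c760)) (.one (nat_lit 0x300000500a00b00d000a014076c1a511))))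
def t100 : k100.all (jb2 57 fl b0) = true := by decide +kernel
noncomputable def k101 : KT := (.br (Nat.shiftLeft (nat_lit 0xc01) (nat_lit 114)) (.one (nat_lit 0x300000500a00b00e000a014076c1c511)) (.br (Nat.shiftLeft (nat_lit 0x1802002805005807) (nat_lit 65)) (.one (nat_lit 0x300400500a00b00d800a014076c1a760)) (.one (nat_lit 0x300400500a00b00e800a014076c1c760))))
def t101 : k101.all (jb2 57 fl b0) = true := by decide +kernel
noncomputable def k102 : KT := (.br (Nat.shiftLeft (nat_lit 0x2800002805005807) (nat_lit 65)) (.br (Nat.shiftLeft (nat_lit 0x2000002805005807) (nat_lit 65)) (.one (nat_lit 0x400000500a00b00d000a01409701a511)) (.br (Nat.shiftLeft (nat_lit 0x5) (nat_lit 124)) (.one (nat_lit 0x400000500a00b00e000a01409701c511)) (.one (nat_lit 0x500000500a00b00d000a0140b741a511)))) (.br (Nat.shiftLeft (nat_lit 0x3) (nat_lit 125)) (.one (nat_lit 0x500000500a00b00e000a0140b741c511)) (.br (Nat.shiftLeft (nat_lit 0x3000002805005807) (nat_lit 65)) (.one (nat_lit 0x600000500a00b00d000a0140d781a511)) (.one (nat_lit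 0x600000500a00b00e000a0140d781c511)))))
def t102 : k102.all (jb2 57 fl b0) = true := by decide +kernel
noncomputable def k103 : KT := (.br (Nat.shiftLeft (nat_lit 0x1) (nat_lit 127)) (.br (Nat.shiftLeft (nat_lit 0x3800002805005807) (nat_lit 65)) (.one (nat_lit 0x700000500a00b00d000a0140f7c1a511)) (.one (nat_lit 0x700000500a00b00e000a0140f7c1c511))) (.br (Nat.shiftLeft (nat_lit 0x4000002805005807) (nat_lit 65)) (.one (nat_lit 0x800000500a00b00d000a01411801a511)) (.one (nat_lit 0x800000500a00b00e000a01411801c511))))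
def t103 : k103.all (jb2 57 fl b0) = true := by decide +kernel
noncomputable def k104 : KT := (.br (Nat.shiftLeft (nat_lit 0x1000000802805005807) (nat_lit 65)) (.br (Nat.shiftLeft (nat_lit 0x800000802805005807) (nat_lit 65)) (.br (Nat.shiftLeft (nat_lit 0x5000002805005807) (nat_lit 65)) (.br (Nat.shiftLeft (nat_lit 0x4800002805005807) (nat_lit 65)) (.one (nat_lit 0x900000500a00b00d000a01413841a511)) (.br (Nat.shiftLeft (nat_lit 0x5) (nat_lit 125)) (.one (nat_lit 0x900000500a00b00e000a01413841c511)) (.one (nat_lit 0xa00000500a00b00d000a01415881a511)))) (.br (Nat.shiftLeft (nat_lit 0x5800002805005807) (nat_lit 65)) (.br (Nat.shiftLeft (nat_lit 0xb) (nat_lit 124)) (.one (nat_lit 0xa00000500a00b00e000a01415881c511)) (.one (nat_lit 0xb00000500a00b00d000a014178c1a511))) (.br (Nat.shiftLeft (nat_lit 0x1) (nat_lit 136)) (.one (nat_lit 0xb00000500a00b00e000a014178c1c511)) (.one (nat_lit 0x100000100500a00b00d200a03441601a611))))) (.br (Nat.shiftLeft (nat_lit 0x800001802805005807) (nat_lit 65)) (.br (Nat.shiftLeft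 (nat_lit 0x800001002805005807) (nat_lit 65)) (.br (Nat.shiftLeft (nat_lit 0x800001) (nat_lit 113)) (.one (nat_lit 0x100000100500a00b00e200a03441601c611)) (.one (nat_lit 0x100000200500a00b00d400a03441601a611))) (.br (Nat.shiftLeft (nat_lit 0x1000003) (nat_lit 112)) (.one (nat_lit 0x100000200500a00b00e400a03441601c611)) (.one (nat_lit 0x100000300500a00b00d600a03441601a611)))) (.br (Nat.shiftLeft (nat_lit 0x800002002805005807) (nat_lit 65)) (.br (Nat.shiftLeft (nat_lit 0x400001) (nat_lit 114)) (.one (nat_lit 0x100000300500a00b00e600a03441601c611)) (.one (nat_lit 0x100000400500a00b00d800a03441601a611))) (.br (Nat.shiftLeft (nat_lit 0x1) (nat_lit 137)) (.one (nat_lit 0x100000400500a00b00e800a03441601c611)) (.one (nat_lit 0x200000100500a00b00d200a05481601a611)))))) (.br (Nat.shiftLeft (nat_lit 0x3) (nat_lit 136)) (.br (Nat.shiftLeft (nat_lit 0x2000003) (nat_lit 112)) (.br (Nat.shiftLeft (nat_lit 0x1000001) (nat_lit 113)) (.one (nat_lit 0x200000100500a00b00e200a05481601c611)) (.br (Nat.shiftLeft (nat_lit 0x1000001002805005807)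 (nat_lit 65)) (.one (nat_lit 0x200000200500a00b00d400a05481601a611)) (.one (nat_lit 0x200000200500a00b00e400a05481601c611)))) (.br (Nat.shiftLeft (nat_lit 0x800001) (nat_lit 114)) (.br (Nat.shiftLeft (nat_lit 0x1000001802805005807) (nat_lit 65)) (.one (nat_lit 0x200000300500a00b00d600a05481601a611)) (.one (nat_lit 0x200000300500a00b00e600a05481601c611))) (.br (Nat.shiftLeft (nat_lit 0x1000002002805005807) (nat_lit 65)) (.one (nat_lit 0x200000400500a00b00d800a05481601a611)) (.one (nat_lit 0x200000400500a00b00e800a05481601c611))))) (.br (Nat.shiftLeft (nat_lit 0x3000003) (nat_lit 112)) (.br (Nat.shiftLeft (nat_lit 0x1800001) (nat_lit 113)) (.br (Nat.shiftLeft (nat_lit 0x1800000802805005807) (nat_lit 65)) (.one (nat_lit 0x300000100500a00b00d200a074c1601a611)) (.one (nat_lit 0x300000100500a00b00e200a074c1601c611))) (.br (Nat.shiftLeft (nat_lit 0x1800001002805005807) (nat_lit 65)) (.one (nat_lit 0x300000200500a00b00d400a074c1601a611)) (.one (nat_lit 0x300000200500a00b00e400a074c1601c611)))) (.br (Nat.shiftLeft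 (nat_lit 0xc00001) (nat_lit 114)) (.br (Nat.shiftLeft (nat_lit 0x1800001802805005807) (nat_lit 65)) (.one (nat_lit 0x300000300500a00b00d600a074c1601a611)) (.one (nat_lit 0x300000300500a00b00e600a074c1601c611))) (.br (Nat.shiftLeft (nat_lit 0x1800002002805005807) (nat_lit 65)) (.one (nat_lit 0x300000400500a00b00d800a074c1601a611)) (.one (nat_lit 0x300000400500a00b00e800a074c1601c611)))))))
def t104 : k104.all (jb2 57 fl b0) = true := by decide +kernel
noncomputable def k105 : KT := (.br (Nat.shiftLeft (nat_lit 0x4000003) (nat_lit 112)) (.br (Nat.shiftLeft (nat_lit 0x2000001) (nat_lit 113)) (.br (Nat.shiftLeft (nat_lit 0x2000000802805005807) (nat_lit 65)) (.one (nat_lit 0x400000100500a00b00d200a09501601a611)) (.one (nat_lit 0x400000100500a00b00e200a09501601c611))) (.br (Nat.shiftLeft (nat_lit 0x2000001002805005807) (nat_lit 65)) (.one (nat_lit 0x400000200500a00b00d400a09501601a611)) (.one (nat_lit 0x400000200500a00b00e400a09501601c611)))) (.br (Nat.shiftLeft (nat_lit 0x1000001) (nat_lit 114)) (.br (Nat.shiftLeft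 (nat_lit 0x2000001802805005807) (nat_lit 65)) (.one (nat_lit 0x400000300500a00b00d600a09501601a611)) (.one (nat_lit 0x400000300500a00b00e600a09501601c611))) (.br (Nat.shiftLeft (nat_lit 0x2000002002805005807) (nat_lit 65)) (.one (nat_lit 0x400000400500a00b00d800a09501601a611)) (.br (Nat.shiftLeft (nat_lit 0x5) (nat_lit 136)) (.one (nat_lit 0x400000400500a00b00e800a09501601c611)) (.one (nat_lit 0x500000100500a00b00d200a0b541601a611))))))
def t105 : k105.all (jb2 57 fl b0) = true := by decide +kernel
noncomputable def k106 : KT := (.br (Nat.shiftLeft (nat_lit 0x2800001002805005807) (nat_lit 65)) (.br (Nat.shiftLeft (nat_lit 0x2800001) (nat_lit 113)) (.one (nat_lit 0x500000100500a00b00e200a0b541601c611)) (.one (nat_lit 0x500000200500a00b00d400a0b541601a611))) (.br (Nat.shiftLeft (nat_lit 0x5000003) (nat_lit 112)) (.one (nat_lit 0x500000200500a00b00e400a0b541601c611)) (.br (Nat.shiftLeft (nat_lit 0x2800001802805005807) (nat_lit 65)) (.one (nat_lit 0x500000300500a00b00d600a0b541601a611)) (.one (nat_lit 0x500000300500a00b00e600a0b541601c611)))))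
def t106 : k106.all (jb2 57 fl b0) = true := by decide +kernel
noncomputable def k107 : KT := (.br (Nat.shiftLeft (nat_lit 0x3) (nat_lit 137)) (.br (Nat.shiftLeft (nat_lit 0x2800002002805005807) (nat_lit 65)) (.one (nat_lit 0x500000400500a00b00d800a0b541601a611)) (.one (nat_lit 0x500000400500a00b00e800a0b541601c611))) (.br (Nat.shiftLeft (nat_lit 0x3000000802805005807) (nat_lit 65)) (.one (nat_lit 0x600000100500a00b00d200a0d581601a611)) (.one (nat_lit 0x600000100500a00b00e200a0d581601c611))))
def t107 : k107.all (jb2 57 fl b0) = true := by decide +kernel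
noncomputable def k108 : KT := (.br (Nat.shiftLeft (nat_lit 0x6000003) (nat_lit 112)) (.br (Nat.shiftLeft (nat_lit 0x3000001002805005807) (nat_lit 65)) (.one (nat_lit 0x600000200500a00b00d400a0d581601a611)) (.one (nat_lit 0x600000200500a00b00e400a0d581601c611))) (.br (Nat.shiftLeft (nat_lit 0x3000001802805005807) (nat_lit 65)) (.one (nat_lit 0x600000300500a00b00d600a0d581601a611)) (.br (Nat.shiftLeft (nat_lit 0x1800001) (nat_lit 114)) (.one (nat_lit 0x600000300500a00b00e600a0d581601c611)) (.one (nat_lit 0x600000400500a00b00d800a0d581601a611)))))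
def t108 : k108.all (jb2 57 fl b0) = true := by decide +kernel
noncomputable def k109 : KT := (.br (Nat.shiftLeft (nat_lit 0x3800000802805005807) (nat_lit 65)) (.br (Nat.shiftLeft (nat_lit 0x7) (nat_lit 136)) (.one (nat_lit 0x600000400500a00b00e800a0d581601c611)) (.one (nat_lit 0x700000100500a00b00d200a0f5c1601a611))) (.br (Nat.shiftLeft (nat_lit 0x3800001) (nat_lit 113)) (.one (nat_lit 0x700000100500a00b00e200a0f5c1601c611)) (.one (nat_lit 0x700000200500a00b00d400a0f5c1601a611))))
def t109 : k109.all (jb2 57 fl b0) = true := by decide +kernel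
noncomputable def k110 : KT := (.br (Nat.shiftLeft (nat_lit 0x1c00001) (nat_lit 114)) (.br (Nat.shiftLeft (nat_lit 0x7000003) (nat_lit 112)) (.one (nat_lit 0x700000200500a00b00e400a0f5c1601c611)) (.br (Nat.shiftLeft (nat_lit 0x3800001802805005807) (nat_lit 65)) (.one (nat_lit 0x700000300500a00b00d600a0f5c1601a611)) (.one (nat_lit 0x700000300500a00b00e600a0f5c1601c611)))) (.br (Nat.shiftLeft (nat_lit 0x1) (nat_lit 139)) (.br (Nat.shiftLeft (nat_lit 0x3800002002805005807) (nat_lit 65)) (.one (nat_lit 0x700000400500a00b00d800a0f5c1601a611)) (.one (nat_lit 0x700000400500a00b00e800a0f5c1601c611))) (.br (Nat.shiftLeft (nat_lit 0x4000000802805005807) (nat_lit 65)) (.one (nat_lit 0x800000100500a00b00d200a11601601a611)) (.one (nat_lit 0x800000100500a00b00e200a11601601c611)))))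
def t110 : k110.all (jb2 57 fl b0) = true := by decide +kernel
noncomputable def k111 : KT := (.br (Nat.shiftLeft (nat_lit 0x4000002002805005807) (nat_lit 65)) (.br (Nat.shiftLeft (nat_lit 0x8000003) (nat_lit 112)) (.br (Nat.shiftLeft (nat_lit 0x4000001002805005807) (nat_lit 65)) (.one (nat_lit 0x800000200500a00b00d400a11601601a611)) (.one (nat_lit 0x800000200500a00b00e400a11601601c611))) (.br (Nat.shiftLeft (nat_lit 0x4000001802805005807) (nat_lit 65)) (.one (nat_lit 0x800000300500a00b00d600a11601601a611)) (.br (Nat.shiftLeft (nat_lit 0x2000001) (nat_lit 114)) (.one (nat_lit 0x800000300500a00b00e600a11601601c611)) (.one (nat_lit 0x800000400500a00b00d800a11601601a611))))) (.br (Nat.shiftLeft (nat_lit 0x4800000802805005807) (nat_lit 65)) (.br (Nat.shiftLeft (nat_lit 0x9) (nat_lit 136)) (.one (nat_lit 0x800000400500a00b00e800a11601601c611)) (.one (nat_lit 0x900000100500a00b00d200a13641601a611))) (.br (Nat.shiftLeft (nat_lit 0x4800001) (nat_lit 113)) (.one (nat_lit 0x900000100500a00b00e200a13641601c611)) (.br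 (Nat.shiftLeft (nat_lit 0x4800001002805005807) (nat_lit 65)) (.one (nat_lit 0x900000200500a00b00d400a13641601a611)) (.one (nat_lit 0x900000200500a00b00e400a13641601c611))))))
def t111 : k111.all (jb2 57 fl b0) = true := by decide +kernel
noncomputable def k112 : KT := (.br (Nat.shiftLeft (nat_lit 0x2800001) (nat_lit 114)) (.br (Nat.shiftLeft (nat_lit 0x5000000802805005807) (nat_lit 65)) (.br (Nat.shiftLeft (nat_lit 0x2400001) (nat_lit 114)) (.br (Nat.shiftLeft (nat_lit 0x4800001802805005807) (nat_lit 65)) (.one (nat_lit 0x900000300500a00b00d600a13641601a611)) (.one (nat_lit 0x900000300500a00b00e600a13641601c611))) (.br (Nat.shiftLeft (nat_lit 0x4800002002805005807) (nat_lit 65)) (.one (nat_lit 0x900000400500a00b00d800a13641601a611)) (.br (Nat.shiftLeft (nat_lit 0x5) (nat_lit 137)) (.one (nat_lit 0x900000400500a00b00e800a13641601c611)) (.one (nat_lit 0xa00000100500a00b00d200a15681601a611))))) (.br (Nat.shiftLeft (nat_lit 0x5000001002805005807) (nat_lit 65)) (.br (Nat.shiftLeft (nat_lit 0x5000001) (nat_lit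 113)) (.one (nat_lit 0xa00000100500a00b00e200a15681601c611)) (.one (nat_lit 0xa00000200500a00b00d400a15681601a611))) (.br (Nat.shiftLeft (nat_lit 0xa000003) (nat_lit 112)) (.one (nat_lit 0xa00000200500a00b00e400a15681601c611)) (.br (Nat.shiftLeft (nat_lit 0x5000001802805005807) (nat_lit 65)) (.one (nat_lit 0xa00000300500a00b00d600a15681601a611)) (.one (nat_lit 0xa00000300500a00b00e600a15681601c611)))))) (.br (Nat.shiftLeft (nat_lit 0x5800001002805005807) (nat_lit 65)) (.br (Nat.shiftLeft (nat_lit 0xb) (nat_lit 136)) (.br (Nat.shiftLeft (nat_lit 0x5000002002805005807) (nat_lit 65)) (.one (nat_lit 0xa00000400500a00b00d800a15681601a611)) (.one (nat_lit 0xa00000400500a00b00e800a15681601c611))) (.br (Nat.shiftLeft (nat_lit 0x5800000802805005807) (nat_lit 65)) (.one (nat_lit 0xb00000100500a00b00d200a176c1601a611)) (.br (Nat.shiftLeft (nat_lit 0x5800001) (nat_lit 113)) (.one (nat_lit 0xb00000100500a00b00e200a176c1601c611)) (.one (nat_lit 0xb00000200500a00b00d400a176c1601a611))))) (.br (Nat.shiftLeft (nat_lit 0x5800001802805005807)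 (nat_lit 65)) (.br (Nat.shiftLeft (nat_lit 0xb000003) (nat_lit 112)) (.one (nat_lit 0xb00000200500a00b00e400a176c1601c611)) (.one (nat_lit 0xb00000300500a00b00d600a176c1601a611))) (.br (Nat.shiftLeft (nat_lit 0x2c00001) (nat_lit 114)) (.one (nat_lit 0xb00000300500a00b00e600a176c1601c611)) (.br (Nat.shiftLeft (nat_lit 0x5800002002805005807) (nat_lit 65)) (.one (nat_lit 0xb00000400500a00b00d800a176c1601a611)) (.one (nat_lit 0xb00000400500a00b00e800a176c1601c611)))))))
def t112 : k112.all (jb2 57 fl b0) = true := by decide +kernel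
noncomputable def s5 : KT := (.br (nat_lit 0x600000500a00b00e000a0140d781c511) (.br (nat_lit 0x200000500a00b00e000a01405681c511) (.br (nat_lit 0x100200500a00b00e400a01403641c760) (.br (nat_lit 0x100200500a00b00d400a01403641a760) k93 k94) (.br (nat_lit 0x100300500a00b00d600a01403641a760) k95 (.br (nat_lit 0x100400500a00b00d800a01403641a760) k96 k97))) (.br (nat_lit 0x200300500a00b00e600a01405681c760) (.br (nat_lit 0x200300500a00b00d600a01405681a760) k98 k99) (.br (nat_lit 0x300000500a00b00d000a014076c1a511) k100 (.br (nat_lit 0x300400500a00b00e800a014076c1c760) k101 k102)))) (.br (nat_lit 0x600000100500a00b00e200a0d581601c611) (.br (nat_lit 0x300000400500a00b00e800a074c1601c611) (.br (nat_lit 0x800000500a00b00e000a01411801c511) k103 k104) (.br (nat_lit 0x500000100500a00b00d200a0b541601a611) k105 (.br (nat_lit 0x500000300500a00b00e600a0b541601c611) k106 k107))) (.br (nat_lit 0x700000200500a00b00d400a0f5c1601a611) (.br (nat_lit 0x600000400500a00b00d800a0d581601a611) k108 k109) (.br (nat_lit 0x800000100500a00b00e200a11601601c611)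 k110 (.br (nat_lit 0x900000200500a00b00e400a13641601c611) k111 k112)))))
noncomputable def u5 : KT := (.br (Nat.shiftLeft (nat_lit 0x2805005807) (nat_lit 65)) (.one (nat_lit 0x500a00b00d000a01401601a540)) (.one (nat_lit 0x500a00b00e000a01401601c540)))
def w5 : u5.all (wj 57 s5) = true := by decide +kernel
def o5 : OkW 57 (jb2 57 fl) u5 := .lift s5 _ (.br _ _ _ (.br _ _ _ (.br _ _ _ (.br _ _ _ (.leaf b0 k93 t93) (.leaf b0 k94 t94)) (.br _ _ _ (.leaf b0 k95 t95) (.br _ _ _ (.leaf b0 k96 t96) (.leaf b0 k97 t97)))) (.br _ _ _ (.br _ _ _ (.leaf b0 k98 t98) (.leaf b0 k99 t99)) (.br _ _ _ (.leaf b0 k100 t100) (.br _ _ _ (.leaf b0 k101 t101) (.leaf b0 k102 t102))))) (.br _ _ _ (.br _ _ _ (.br _ _ _ (.leaf b0 k103 t103) (.leaf b0 k104 t104)) (.br _ _ _ (.leaf b0 k105 t105) (.br _ _ _ (.leaf b0 k106 t106) (.leaf b0 k107 t107)))) (.br _ _ _ (.br _ _ _ (.leaf b0 k108 t108) (.leaf b0 k109 t109)) (.br _ _ _ (.leaf b0 k110 t110) (.br _ _ _ (.leaf b0 k111 t111) (.leaf b0 k112 t112)))))) w5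
noncomputable def k113 : KT := (.br (Nat.shiftLeft (nat_lit 0x1402803) (nat_lit 78)) (.br (Nat.shiftLeft (nat_lit 0x500a00b01) (nat_lit 68)) (.one (nat_lit 0x500a00b00f000a01401601f500)) (.one (nat_lit 0x500a00b010000a014016021500))) (.br (Nat.shiftLeft (nat_lit 0x1) (nat_lit 112)) (.one (nat_lit 0x500a00c00d000a01401801b500)) (.one (nat_lit 0x100500a00b00f200a01401601e650))))
def t113 : k113.all (jb2 57 fl b0) = true := by decide +kernel
noncomputable def k114 : KT := (.br (Nat.shiftLeft (nat_lit 0x401402803) (nat_lit 78)) (.one (nat_lit 0x100500a00b010200a014016020650)) (.br (Nat.shiftLeft (nat_lit 0x1) (nat_lit 113)) (.one (nat_lit 0x100500a00c00d200a01401801b600)) (.one (nat_lit 0x200500a00b00f400a01401601f600))))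
def t114 : k114.all (jb2 57 fl b0) = true := by decide +kernel
noncomputable def k115 : KT := (.br (Nat.shiftLeft (nat_lit 0x801402803) (nat_lit 78)) (.one (nat_lit 0x200500a00b010400a014016020650)) (.br (Nat.shiftLeft (nat_lit 0x3) (nat_lit 112)) (.one (nat_lit 0x200500a00c00d400a01401801b600)) (.one (nat_lit 0x300500a00b00f600a01401601f600))))
def t115 : k115.all (jb2 57 fl b0) = true := by decide +kernel
noncomputable def k116 : KT := (.br (Nat.shiftLeft (nat_lit 0xc01402803) (nat_lit 78)) (.one (nat_lit 0x300500a00b010600a014016020650)) (.br (Nat.shiftLeft (nat_lit 0x1) (nat_lit 114)) (.one (nat_lit 0x300500a00c00d600a01401801b600)) (.one (nat_lit 0x400500a00b00f800a01401601f600))))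
def t116 : k116.all (jb2 57 fl b0) = true := by decide +kernel
noncomputable def k117 : KT := (.br (Nat.shiftLeft (nat_lit 0x1) (nat_lit 124)) (.br (Nat.shiftLeft (nat_lit 0x1001402803) (nat_lit 78)) (.one (nat_lit 0x400500a00b010800a014016020650)) (.one (nat_lit 0x400500a00c00d800a01401801b600))) (.br (Nat.shiftLeft (nat_lit 0x100000500a00b01) (nat_lit 68)) (.one (nat_lit 0x100000500a00b00f000a01403641e511)) (.br (Nat.shiftLeft (nat_lit 0x400001402803) (nat_lit 78)) (.one (nat_lit 0x100000500a00b010000a014036420511)) (.one (nat_lit 0x100000500a00c00d000a01403841a511)))))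
def t117 : k117.all (jb2 57 fl b0) = true := by decide +kernel
noncomputable def k118 : KT := (.one (nat_lit 0x100200500a00b00f400a01403641e760))
def t118 : k118.all (jb2 57 fl b0) = true := by decide +kernel
noncomputable def k119 : KT := (.one (nat_lit 0x100200500a00c00d400a01403841a760))
def t119 : k119.all (jb2 57 fl b0) = true := by decide +kernel
noncomputable def k120 : KT := (.br (Nat.shiftLeft (nat_lit 0x400c01402803) (nat_lit 78)) (.one (nat_lit 0x100300500a00b00f600a01403641e760)) (.one (nat_lit 0x100300500a00c00d600a01403841a760)))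
def t120 : k120.all (jb2 57 fl b0) = true := by decide +kernel
noncomputable def k121 : KT := (.br (Nat.shiftLeft (nat_lit 0x200000500a00b01) (nat_lit 68)) (.br (Nat.shiftLeft (nat_lit 0x401001402803) (nat_lit 78)) (.one (nat_lit 0x100400500a00b00f800a01403641e760)) (.br (Nat.shiftLeft (nat_lit 0x1) (nat_lit 125)) (.one (nat_lit 0x100400500a00c00d800a01403841a760)) (.one (nat_lit 0x200000500a00b00f000a01405681e511)))) (.br (Nat.shiftLeft (nat_lit 0x800001402803) (nat_lit 78)) (.one (nat_lit 0x200000500a00b010000a014056820511)) (.br (Nat.shiftLeft (nat_lit 0x1001) (nat_lit 113)) (.one (nat_lit 0x200000500a00c00d000a01405881a511)) (.one (nat_lit 0x200300500a00b00f600a01405681e760)))))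
def t121 : k121.all (jb2 57 fl b0) = true := by decide +kernel
noncomputable def k122 : KT := (.br (Nat.shiftLeft (nat_lit 0x801) (nat_lit 114)) (.one (nat_lit 0x200300500a00c00d600a01405881a760)) (.one (nat_lit 0x200400500a00b00f800a01405681e760)))
def t122 : k122.all (jb2 57 fl b0) = true := by decide +kernel
noncomputable def k123 : KT := (.br (Nat.shiftLeft (nat_lit 0x300000500a00b01) (nat_lit 68)) (.br (Nat.shiftLeft (nat_lit 0x3) (nat_lit 124)) (.one (nat_lit 0x200400500a00c00d800a01405881a760)) (.one (nat_lit 0x300000500a00b00f000a014076c1e511))) (.br (Nat.shiftLeft (nat_lit 0xc00001402803) (nat_lit 78)) (.one (nat_lit 0x300000500a00b010000a014076c20511)) (.br (Nat.shiftLeft (nat_lit 0xc01) (nat_lit 114)) (.one (nat_lit 0x300000500a00c00d000a014078c1a511)) (.one (nat_lit 0x300400500a00b00f800a014076c1e760)))))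
def t123 : k123.all (jb2 57 fl b0) = true := by decide +kernel
noncomputable def k124 : KT := (.br (Nat.shiftLeft (nat_lit 0x1000001402803) (nat_lit 78)) (.br (Nat.shiftLeft (nat_lit 0x1) (nat_lit 126)) (.one (nat_lit 0x300400500a00c00d800a014078c1a760)) (.br (Nat.shiftLeft (nat_lit 0x400000500a00b01) (nat_lit 68)) (.one (nat_lit 0x400000500a00b00f000a01409701e511)) (.one (nat_lit 0x400000500a00b010000a014097020511)))) (.br (Nat.shiftLeft (nat_lit 0x500000500a00b01) (nat_lit 68)) (.br (Nat.shiftLeft (nat_lit 0x5) (nat_lit 124)) (.one (nat_lit 0x400000500a00c00d000a01409901a511)) (.one (nat_lit 0x500000500a00b00f000a0140b741e511))) (.br (Nat.shiftLeft (nat_lit 0x1400001402803) (nat_lit 78)) (.one (nat_lit 0x500000500a00b010000a0140b7420511)) (.one (nat_lit 0x500000500a00c00d000a0140b941a511)))))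
def t124 : k124.all (jb2 57 fl b0) = true := by decide +kernel
noncomputable def k125 : KT := (.br (Nat.shiftLeft (nat_lit 0x1800001402803) (nat_lit 78)) (.br (Nat.shiftLeft (nat_lit 0x600000500a00b01) (nat_lit 68)) (.one (nat_lit 0x600000500a00b00f000a0140d781e511)) (.one (nat_lit 0x600000500a00b010000a0140d7820511))) (.br (Nat.shiftLeft (nat_lit 0x7) (nat_lit 124)) (.one (nat_lit 0x600000500a00c00d000a0140d981a511)) (.br (Nat.shiftLeft (nat_lit 0x700000500a00b01) (nat_lit 68)) (.one (nat_lit 0x700000500a00b00f000a0140f7c1e511)) (.one (nat_lit 0x700000500a00b010000a0140f7c20511)))))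
def t125 : k125.all (jb2 57 fl b0) = true := by decide +kernel
noncomputable def k126 : KT := (.br (Nat.shiftLeft (nat_lit 0x9) (nat_lit 124)) (.br (Nat.shiftLeft (nat_lit 0x800000500a00b01) (nat_lit 68)) (.br (Nat.shiftLeft (nat_lit 0x1) (nat_lit 127)) (.one (nat_lit 0x700000500a00c00d000a0140f9c1a511)) (.one (nat_lit 0x800000500a00b00f000a01411801e511))) (.br (Nat.shiftLeft (nat_lit 0x2000001402803) (nat_lit 78)) (.one (nat_lit 0x800000500a00b010000a014118020511)) (.one (nat_lit 0x800000500a00c00d000a01411a01a511)))) (.br (Nat.shiftLeft (nat_lit 0x2400001402803) (nat_lit 78)) (.br (Nat.shiftLeft (nat_lit 0x900000500a00b01) (nat_lit 68)) (.one (nat_lit 0x900000500a00b00f000a01413841e511)) (.one (nat_lit 0x900000500a00b010000a014138420511))) (.br (Nat.shiftLeft (nat_lit 0x5) (nat_lit 125)) (.one (nat_lit 0x900000500a00c00d000a01413a41a511)) (.br (Nat.shiftLeft (nat_lit 0xa00000500a00b01) (nat_lit 68)) (.one (nat_lit 0xa00000500a00b00f000a01415881e511)) (.one (nat_lit 0xa00000500a00b010000a014158820511))))))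
def t126 : k126.all (jb2 57 fl b0) = true := by decide +kernel
noncomputable def k127 : KT := (.br (Nat.shiftLeft (nat_lit 0x800000c01402803) (nat_lit 78)) (.br (Nat.shiftLeft (nat_lit 0x1000003) (nat_lit 112)) (.br (Nat.shiftLeft (nat_lit 0x3) (nat_lit 126)) (.br (Nat.shiftLeft (nat_lit 0xb00000500a00b01) (nat_lit 68)) (.br (Nat.shiftLeft (nat_lit 0xb) (nat_lit 124)) (.one (nat_lit 0xa00000500a00c00d000a01415a81a511)) (.one (nat_lit 0xb00000500a00b00f000a014178c1e511))) (.br (Nat.shiftLeft (nat_lit 0x2c00001402803) (nat_lit 78)) (.one (nat_lit 0xb00000500a00b010000a014178c20511)) (.one (nat_lit 0xb00000500a00c00d000a01417ac1a511)))) (.br (Nat.shiftLeft (nat_lit 0x800001) (nat_lit 113)) (.br (Nat.shiftLeft (nat_lit 0x1) (nat_lit 136)) (.one (nat_lit 0xc00000500a00c00d000a01419b01a511)) (.one (nat_lit 0x100000100500a00c00d200a03441801a611))) (.br (Nat.shiftLeft (nat_lit 0x400000801402803) (nat_lit 78)) (.one (nat_lit 0x100000200500a00b00f400a03441601e611)) (.one (nat_lit 0x100000200500a00c00d400a03441801a611)))))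 (.br (Nat.shiftLeft (nat_lit 0x1) (nat_lit 137)) (.br (Nat.shiftLeft (nat_lit 0x400001) (nat_lit 114)) (.br (Nat.shiftLeft (nat_lit 0x400000c01402803) (nat_lit 78)) (.one (nat_lit 0x100000300500a00b00f600a03441601e611)) (.one (nat_lit 0x100000300500a00c00d600a03441801a611))) (.br (Nat.shiftLeft (nat_lit 0x400001001402803) (nat_lit 78)) (.one (nat_lit 0x100000400500a00b00f800a03441601e611)) (.one (nat_lit 0x100000400500a00c00d800a03441801a611)))) (.br (Nat.shiftLeft (nat_lit 0x800000801402803) (nat_lit 78)) (.br (Nat.shiftLeft (nat_lit 0x1000001) (nat_lit 113)) (.one (nat_lit 0x200000100500a00c00d200a05481801a611)) (.one (nat_lit 0x200000200500a00b00f400a05481601e611))) (.br (Nat.shiftLeft (nat_lit 0x2000003) (nat_lit 112)) (.one (nat_lit 0x200000200500a00c00d400a05481801a611)) (.one (nat_lit 0x200000300500a00b00f600a05481601e611)))))) (.br (Nat.shiftLeft (nat_lit 0xc00001) (nat_lit 114)) (.br (Nat.shiftLeft (nat_lit 0x1800001) (nat_lit 113)) (.br (Nat.shiftLeft (nat_lit 0x800001001402803) (nat_lit 78)) (.br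 (Nat.shiftLeft (nat_lit 0x800001) (nat_lit 114)) (.one (nat_lit 0x200000300500a00c00d600a05481801a611)) (.one (nat_lit 0x200000400500a00b00f800a05481601e611))) (.br (Nat.shiftLeft (nat_lit 0x3) (nat_lit 136)) (.one (nat_lit 0x200000400500a00c00d800a05481801a611)) (.one (nat_lit 0x300000100500a00c00d200a074c1801a611)))) (.br (Nat.shiftLeft (nat_lit 0x3000003) (nat_lit 112)) (.br (Nat.shiftLeft (nat_lit 0xc00000801402803) (nat_lit 78)) (.one (nat_lit 0x300000200500a00b00f400a074c1601e611)) (.one (nat_lit 0x300000200500a00c00d400a074c1801a611))) (.br (Nat.shiftLeft (nat_lit 0xc00000c01402803) (nat_lit 78)) (.one (nat_lit 0x300000300500a00b00f600a074c1601e611)) (.one (nat_lit 0x300000300500a00c00d600a074c1801a611))))) (.br (Nat.shiftLeft (nat_lit 0x1000000801402803) (nat_lit 78)) (.br (Nat.shiftLeft (nat_lit 0x1) (nat_lit 138)) (.br (Nat.shiftLeft (nat_lit 0xc00001001402803) (nat_lit 78)) (.one (nat_lit 0x300000400500a00b00f800a074c1601e611)) (.one (nat_lit 0x300000400500a00c00d800a074c1801a611))) (.br (Nat.shiftLeft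 (nat_lit 0x2000001) (nat_lit 113)) (.one (nat_lit 0x400000100500a00c00d200a09501801a611)) (.one (nat_lit 0x400000200500a00b00f400a09501601e611)))) (.br (Nat.shiftLeft (nat_lit 0x1000000c01402803) (nat_lit 78)) (.br (Nat.shiftLeft (nat_lit 0x4000003) (nat_lit 112)) (.one (nat_lit 0x400000200500a00c00d400a09501801a611)) (.one (nat_lit 0x400000300500a00b00f600a09501601e611))) (.br (Nat.shiftLeft (nat_lit 0x1000001) (nat_lit 114)) (.one (nat_lit 0x400000300500a00c00d600a09501801a611)) (.one (nat_lit 0x400000400500a00b00f800a09501601e611)))))))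
def t127 : k127.all (jb2 57 fl b0) = true := by decide +kernel
noncomputable def k128 : KT := (.br (Nat.shiftLeft (nat_lit 0x5000003) (nat_lit 112)) (.br (Nat.shiftLeft (nat_lit 0x2800001) (nat_lit 113)) (.br (Nat.shiftLeft (nat_lit 0x5) (nat_lit 136)) (.one (nat_lit 0x400000400500a00c00d800a09501801a611)) (.one (nat_lit 0x500000100500a00c00d200a0b541801a611))) (.br (Nat.shiftLeft (nat_lit 0x1400000801402803) (nat_lit 78)) (.one (nat_lit 0x500000200500a00b00f400a0b541601e611)) (.one (nat_lit 0x500000200500a00c00d400a0b541801a611)))) (.br (Nat.shiftLeft (nat_lit 0x1400001) (nat_lit 114)) (.br (Nat.shiftLeft (nat_lit 0x1400000c01402803) (nat_lit 78)) (.one (nat_lit 0x500000300500a00b00f600a0b541601e611)) (.one (nat_lit 0x500000300500a00c00d600a0b541801a611))) (.br (Nat.shiftLeft (nat_lit 0x1400001001402803) (nat_lit 78)) (.one (nat_lit 0x500000400500a00b00f800a0b541601e611)) (.one (nat_lit 0x500000400500a00c00d800a0b541801a611)))))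
def t128 : k128.all (jb2 57 fl b0) = true := by decide +kernel
noncomputable def k129 : KT := (.br (Nat.shiftLeft (nat_lit 0x6000003) (nat_lit 112)) (.br (Nat.shiftLeft (nat_lit 0x3000001) (nat_lit 113)) (.one (nat_lit 0x600000100500a00c00d200a0d581801a611)) (.br (Nat.shiftLeft (nat_lit 0x1800000801402803) (nat_lit 78)) (.one (nat_lit 0x600000200500a00b00f400a0d581601e611)) (.one (nat_lit 0x600000200500a00c00d400a0d581801a611)))) (.br (Nat.shiftLeft (nat_lit 0x1800001) (nat_lit 114)) (.br (Nat.shiftLeft (nat_lit 0x1800000c01402803) (nat_lit 78)) (.one (nat_lit 0x600000300500a00b00f600a0d581601e611)) (.one (nat_lit 0x600000300500a00c00d600a0d581801a611))) (.br (Nat.shiftLeft (nat_lit 0x1800001001402803) (nat_lit 78)) (.one (nat_lit 0x600000400500a00b00f800a0d581601e611)) (.one (nat_lit 0x600000400500a00c00d800a0d581801a611)))))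
def t129 : k129.all (jb2 57 fl b0) = true := by decide +kernel
noncomputable def k130 : KT := (.br (Nat.shiftLeft (nat_lit 0x1c00000c01402803) (nat_lit 78)) (.br (Nat.shiftLeft (nat_lit 0x1c00000801402803) (nat_lit 78)) (.br (Nat.shiftLeft (nat_lit 0x3800001) (nat_lit 113)) (.one (nat_lit 0x700000100500a00c00d200a0f5c1801a611)) (.one (nat_lit 0x700000200500a00b00f400a0f5c1601e611))) (.br (Nat.shiftLeft (nat_lit 0x7000003) (nat_lit 112)) (.one (nat_lit 0x700000200500a00c00d400a0f5c1801a611)) (.one (nat_lit 0x700000300500a00b00f600a0f5c1601e611)))) (.br (Nat.shiftLeft (nat_lit 0x1c00001001402803) (nat_lit 78)) (.br (Nat.shiftLeft (nat_lit 0x1c00001) (nat_lit 114)) (.one (nat_lit 0x700000300500a00c00d600a0f5c1801a611)) (.one (nat_lit 0x700000400500a00b00f800a0f5c1601e611))) (.br (Nat.shiftLeft (nat_lit 0x1) (nat_lit 139)) (.one (nat_lit 0x700000400500a00c00d800a0f5c1801a611)) (.br (Nat.shiftLeft (nat_lit 0x4000001) (nat_lit 113)) (.one (nat_lit 0x800000100500a00c00d200a11601801a611)) (.one (nat_lit 0x800000200500a00b00f400a11601601e611))))))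
def t130 : k130.all (jb2 57 fl b0) = true := by decide +kernel
noncomputable def k131 : KT := (.br (Nat.shiftLeft (nat_lit 0xa000003) (nat_lit 112)) (.br (Nat.shiftLeft (nat_lit 0x2400000801402803) (nat_lit 78)) (.br (Nat.shiftLeft (nat_lit 0x2000001) (nat_lit 114)) (.br (Nat.shiftLeft (nat_lit 0x8000003) (nat_lit 112)) (.one (nat_lit 0x800000200500a00c00d400a11601801a611)) (.br (Nat.shiftLeft (nat_lit 0x2000000c01402803) (nat_lit 78)) (.one (nat_lit 0x800000300500a00b00f600a11601601e611)) (.one (nat_lit 0x800000300500a00c00d600a11601801a611)))) (.br (Nat.shiftLeft (nat_lit 0x9) (nat_lit 136)) (.br (Nat.shiftLeft (nat_lit 0x2000001001402803) (nat_lit 78)) (.one (nat_lit 0x800000400500a00b00f800a11601601e611)) (.one (nat_lit 0x800000400500a00c00d800a11601801a611))) (.br (Nat.shiftLeft (nat_lit 0x4800001) (nat_lit 113)) (.one (nat_lit 0x900000100500a00c00d200a13641801a611)) (.one (nat_lit 0x900000200500a00b00f400a13641601e611))))) (.br (Nat.shiftLeft (nat_lit 0x2400001001402803) (nat_lit 78)) (.br (Nat.shiftLeft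 (nat_lit 0x2400000c01402803) (nat_lit 78)) (.br (Nat.shiftLeft (nat_lit 0x9000003) (nat_lit 112)) (.one (nat_lit 0x900000200500a00c00d400a13641801a611)) (.one (nat_lit 0x900000300500a00b00f600a13641601e611))) (.br (Nat.shiftLeft (nat_lit 0x2400001) (nat_lit 114)) (.one (nat_lit 0x900000300500a00c00d600a13641801a611)) (.one (nat_lit 0x900000400500a00b00f800a13641601e611)))) (.br (Nat.shiftLeft (nat_lit 0x5000001) (nat_lit 113)) (.br (Nat.shiftLeft (nat_lit 0x5) (nat_lit 137)) (.one (nat_lit 0x900000400500a00c00d800a13641801a611)) (.one (nat_lit 0xa00000100500a00c00d200a15681801a611))) (.br (Nat.shiftLeft (nat_lit 0x2800000801402803) (nat_lit 78)) (.one (nat_lit 0xa00000200500a00b00f400a15681601e611)) (.one (nat_lit 0xa00000200500a00c00d400a15681801a611)))))) (.br (Nat.shiftLeft (nat_lit 0xb000003) (nat_lit 112)) (.br (Nat.shiftLeft (nat_lit 0x2800001001402803) (nat_lit 78)) (.br (Nat.shiftLeft (nat_lit 0x2800000c01402803) (nat_lit 78)) (.one (nat_lit 0xa00000300500a00b00f600a15681601e611)) (.br (Nat.shiftLeft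 (nat_lit 0x2800001) (nat_lit 114)) (.one (nat_lit 0xa00000300500a00c00d600a15681801a611)) (.one (nat_lit 0xa00000400500a00b00f800a15681601e611)))) (.br (Nat.shiftLeft (nat_lit 0x5800001) (nat_lit 113)) (.br (Nat.shiftLeft (nat_lit 0xb) (nat_lit 136)) (.one (nat_lit 0xa00000400500a00c00d800a15681801a611)) (.one (nat_lit 0xb00000100500a00c00d200a176c1801a611))) (.br (Nat.shiftLeft (nat_lit 0x2c00000801402803) (nat_lit 78)) (.one (nat_lit 0xb00000200500a00b00f400a176c1601e611)) (.one (nat_lit 0xb00000200500a00c00d400a176c1801a611))))) (.br (Nat.shiftLeft (nat_lit 0x3) (nat_lit 138)) (.br (Nat.shiftLeft (nat_lit 0x2c00001) (nat_lit 114)) (.br (Nat.shiftLeft (nat_lit 0x2c00000c01402803) (nat_lit 78)) (.one (nat_lit 0xb00000300500a00b00f600a176c1601e611)) (.one (nat_lit 0xb00000300500a00c00d600a176c1801a611))) (.br (Nat.shiftLeft (nat_lit 0x2c00001001402803) (nat_lit 78)) (.one (nat_lit 0xb00000400500a00b00f800a176c1601e611)) (.one (nat_lit 0xb00000400500a00c00d800a176c1801a611)))) (.br (Nat.shiftLeft (nat_lit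 0xc000003) (nat_lit 112)) (.br (Nat.shiftLeft (nat_lit 0x6000001) (nat_lit 113)) (.one (nat_lit 0xc00000100500a00c00d200a19701801a611)) (.one (nat_lit 0xc00000200500a00c00d400a19701801a611))) (.br (Nat.shiftLeft (nat_lit 0x3000001) (nat_lit 114)) (.one (nat_lit 0xc00000300500a00c00d600a19701801a611)) (.one (nat_lit 0xc00000400500a00c00d800a19701801a611)))))))
def t131 : k131.all (jb2 57 fl b0) = true := by decide +kernel
noncomputable def s6 : KT := (.br (nat_lit 0x200300500a00b00f600a01405681e760) (.br (nat_lit 0x400500a00b00f800a01401601f600) (.br (nat_lit 0x200500a00b00f400a01401601f600) (.br (nat_lit 0x100500a00b00f200a01401601e650) k113 k114) (.br (nat_lit 0x300500a00b00f600a01401601f600) k115 k116)) (.br (nat_lit 0x100200500a00b00f400a01403641e760) (.br (nat_lit 0x100000500a00c00d000a01403841a511) k117 k118) (.br (nat_lit 0x100200500a00c00d400a01403841a760) k119 (.br (nat_lit 0x100300500a00c00d600a01403841a760) k120 k121)))) (.br (nat_lit 0xa00000500a00b010000a014158820511) (.br (nat_lit 0x300400500a00b00f800a014076c1e760)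 (.br (nat_lit 0x200400500a00b00f800a01405681e760) k122 k123) (.br (nat_lit 0x500000500a00c00d000a0140b941a511) k124 (.br (nat_lit 0x700000500a00b010000a0140f7c20511) k125 k126))) (.br (nat_lit 0x500000400500a00c00d800a0b541801a611) (.br (nat_lit 0x400000400500a00b00f800a09501601e611) k127 k128) (.br (nat_lit 0x600000400500a00c00d800a0d581801a611) k129 (.br (nat_lit 0x800000200500a00b00f400a11601601e611) k130 k131)))))
noncomputable def u6 : KT := (.br (Nat.shiftLeft (nat_lit 0x500a00b01) (nat_lit 68)) (.one (nat_lit 0x500a00b00f000a01401601e540)) (.br (Nat.shiftLeft (nat_lit 0x1402803) (nat_lit 78)) (.one (nat_lit 0x500a00b010000a014016020540)) (.one (nat_lit 0x500a00c00d000a01401801a540))))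
def w6 : u6.all (wj 57 s6) = true := by decide +kernel
def o6 : OkW 57 (jb2 57 fl) u6 := .lift s6 _ (.br _ _ _ (.br _ _ _ (.br _ _ _ (.br _ _ _ (.leaf b0 k113 t113) (.leaf b0 k114 t114)) (.br _ _ _ (.leaf b0 k115 t115) (.leaf b0 k116 t116))) (.br _ _ _ (.br _ _ _ (.leaf b0 k117 t117) (.leaf b0 k118 t118)) (.br _ _ _ (.leaf b0 k119 t119) (.br _ _ _ (.leaf b0 k120 t120) (.leaf b0 k121 t121))))) (.br _ _ _ (.br _ _ _ (.br _ _ _ (.leaf b0 k122 t122) (.leaf b0 k123 t123)) (.br _ _ _ (.leaf b0 k124 t124) (.br _ _ _ (.leaf b0 k125 t125) (.leaf b0 k126 t126)))) (.br _ _ _ (.br _ _ _ (.leaf b0 k127 t127) (.leaf b0 k128 t128)) (.br _ _ _ (.leaf b0 k129 t129) (.br _ _ _ (.leaf b0 k130 t130) (.leaf b0 k131 t131)))))) w6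
noncomputable def k132 : KT := (.br (Nat.shiftLeft (nat_lit 0x500a00d) (nat_lit 76)) (.br (Nat.shiftLeft (nat_lit 0x500a00c00f) (nat_lit 64)) (.one (nat_lit 0x500a00c00e000a01401801d500)) (.one (nat_lit 0x500a00c00f000a01401801f500))) (.br (Nat.shiftLeft (nat_lit 0x500b) (nat_lit 88)) (.one (nat_lit 0x500a00d00e000a01401a01d500)) (.br (Nat.shiftLeft (nat_lit 0x1) (nat_lit 112)) (.one (nat_lit 0x500b00c00d000a01601801b500)) (.one (nat_lit 0x100500a00c00e200a01401801c650)))))
def t132 : k132.all (jb2 57 fl b0) = true := by decide +kernel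
noncomputable def k133 : KT := (.one (nat_lit 0x100500a00c00f200a01401801e650))
def t133 : k133.all (jb2 57 fl b0) = true := by decide +kernel
noncomputable def k134 : KT := (.one (nat_lit 0x100500a00d00e200a01401a01c650))
def t134 : k134.all (jb2 57 fl b0) = true := by decide +kernel
noncomputable def k135 : KT := (.br (Nat.shiftLeft (nat_lit 0x1) (nat_lit 113)) (.one (nat_lit 0x100500b00c00d200a01601801a650)) (.one (nat_lit 0x200500a00c00e400a01401801d600)))
def t135 : k135.all (jb2 57 fl b0) = true := by decide +kernel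
noncomputable def k136 : KT := (.one (nat_lit 0x200500a00c00f400a01401801e650))
def t136 : k136.all (jb2 57 fl b0) = true := by decide +kernel
noncomputable def k137 : KT := (.br (Nat.shiftLeft (nat_lit 0x200500b) (nat_lit 88)) (.one (nat_lit 0x200500a00d00e400a01401a01c650)) (.br (Nat.shiftLeft (nat_lit 0x3) (nat_lit 112)) (.one (nat_lit 0x200500b00c00d400a01601801b600)) (.one (nat_lit 0x300500a00c00e600a01401801d600))))
def t137 : k137.all (jb2 57 fl b0) = true := by decide +kernel
noncomputable def k138 : KT := (.one (nat_lit 0x300500a00c00f600a01401801e650))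
def t138 : k138.all (jb2 57 fl b0) = true := by decide +kernel
noncomputable def k139 : KT := (.br (Nat.shiftLeft (nat_lit 0x300500b) (nat_lit 88)) (.one (nat_lit 0x300500a00d00e600a01401a01c650)) (.br (Nat.shiftLeft (nat_lit 0x1) (nat_lit 114)) (.one (nat_lit 0x300500b00c00d600a01601801b600)) (.one (nat_lit 0x400500a00c00e800a01401801d600))))
def t139 : k139.all (jb2 57 fl b0) = true := by decide +kernel
noncomputable def k140 : KT := (.one (nat_lit 0x400500a00c00f800a01401801e650))
def t140 : k140.all (jb2 57 fl b0) = true := by decide +kernel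
noncomputable def k141 : KT := (.br (Nat.shiftLeft (nat_lit 0x100000500a00c00f) (nat_lit 64)) (.br (Nat.shiftLeft (nat_lit 0x400500b) (nat_lit 88)) (.one (nat_lit 0x400500a00d00e800a01401a01c650)) (.br (Nat.shiftLeft (nat_lit 0x1) (nat_lit 124)) (.one (nat_lit 0x400500b00c00d800a01601801b600)) (.one (nat_lit 0x100000500a00c00e000a01403841c511)))) (.br (Nat.shiftLeft (nat_lit 0x100000500a00d) (nat_lit 76)) (.one (nat_lit 0x100000500a00c00f000a01403841e511)) (.br (Nat.shiftLeft (nat_lit 0x100000500b) (nat_lit 88)) (.one (nat_lit 0x100000500a00d00e000a01403a41c511)) (.one (nat_lit 0x100000500b00c00d000a01603841a511)))))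
def t141 : k141.all (jb2 57 fl b0) = true := by decide +kernel
noncomputable def k142 : KT := (.br (Nat.shiftLeft (nat_lit 0x100200500b) (nat_lit 88)) (.one (nat_lit 0x100200500a00c00e400a01403841c760)) (.one (nat_lit 0x100200500b00c00d400a01603841a760)))
def t142 : k142.all (jb2 57 fl b0) = true := by decide +kernel
noncomputable def k143 : KT := (.br (Nat.shiftLeft (nat_lit 0x100300500b) (nat_lit 88)) (.one (nat_lit 0x100300500a00c00e600a01403841c760)) (.br (Nat.shiftLeft (nat_lit 0x401) (nat_lit 114)) (.one (nat_lit 0x100300500b00c00d600a01603841a760)) (.one (nat_lit 0x100400500a00c00e800a01403841c760))))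
def t143 : k143.all (jb2 57 fl b0) = true := by decide +kernel
noncomputable def k144 : KT := (.br (Nat.shiftLeft (nat_lit 0x200000500a00d) (nat_lit 76)) (.br (Nat.shiftLeft (nat_lit 0x1) (nat_lit 125)) (.one (nat_lit 0x100400500b00c00d800a01603841a760)) (.br (Nat.shiftLeft (nat_lit 0x200000500a00c00f) (nat_lit 64)) (.one (nat_lit 0x200000500a00c00e000a01405881c511)) (.one (nat_lit 0x200000500a00c00f000a01405881e511)))) (.br (Nat.shiftLeft (nat_lit 0x200000500b) (nat_lit 88)) (.one (nat_lit 0x200000500a00d00e000a01405a81c511)) (.br (Nat.shiftLeft (nat_lit 0x1001) (nat_lit 113)) (.one (nat_lit 0x200000500b00c00d000a01605881a511)) (.one (nat_lit 0x200300500a00c00e600a01405881c760)))))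
def t144 : k144.all (jb2 57 fl b0) = true := by decide +kernel
noncomputable def k145 : KT := (.br (Nat.shiftLeft (nat_lit 0x3) (nat_lit 124)) (.br (Nat.shiftLeft (nat_lit 0x801) (nat_lit 114)) (.one (nat_lit 0x200300500b00c00d600a01605881a760)) (.br (Nat.shiftLeft (nat_lit 0x200400500b) (nat_lit 88)) (.one (nat_lit 0x200400500a00c00e800a01405881c760)) (.one (nat_lit 0x200400500b00c00d800a01605881a760)))) (.br (Nat.shiftLeft (nat_lit 0x300000500a00c00f) (nat_lit 64)) (.one (nat_lit 0x300000500a00c00e000a014078c1c511)) (.br (Nat.shiftLeft (nat_lit 0x300000500a00d) (nat_lit 76)) (.one (nat_lit 0x300000500a00c00f000a014078c1e511)) (.one (nat_lit 0x300000500a00d00e000a01407ac1c511)))))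
def t145 : k145.all (jb2 57 fl b0) = true := by decide +kernel
noncomputable def k146 : KT := (.br (Nat.shiftLeft (nat_lit 0x400000500a00c00f) (nat_lit 64)) (.br (Nat.shiftLeft (nat_lit 0x300400500b) (nat_lit 88)) (.br (Nat.shiftLeft (nat_lit 0xc01) (nat_lit 114)) (.one (nat_lit 0x300000500b00c00d000a016078c1a511)) (.one (nat_lit 0x300400500a00c00e800a014078c1c760))) (.br (Nat.shiftLeft (nat_lit 0x1) (nat_lit 126)) (.one (nat_lit 0x300400500b00c00d800a016078c1a760)) (.one (nat_lit 0x400000500a00c00e000a01409901c511)))) (.br (Nat.shiftLeft (nat_lit 0x400000500b) (nat_lit 88)) (.br (Nat.shiftLeft (nat_lit 0x400000500a00d) (nat_lit 76)) (.one (nat_lit 0x400000500a00c00f000a01409901e511)) (.one (nat_lit 0x400000500a00d00e000a01409b01c511))) (.br (Nat.shiftLeft (nat_lit 0x5) (nat_lit 124)) (.one (nat_lit 0x400000500b00c00d000a01609901a511)) (.one (nat_lit 0x500000500a00c00e000a0140b941c511)))))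
def t146 : k146.all (jb2 57 fl b0) = true := by decide +kernel
noncomputable def k147 : KT := (.br (Nat.shiftLeft (nat_lit 0x3) (nat_lit 125)) (.br (Nat.shiftLeft (nat_lit 0x500000500a00d) (nat_lit 76)) (.one (nat_lit 0x500000500a00c00f000a0140b941e511)) (.br (Nat.shiftLeft (nat_lit 0x500000500b) (nat_lit 88)) (.one (nat_lit 0x500000500a00d00e000a0140bb41c511)) (.one (nat_lit 0x500000500b00c00d000a0160b941a511)))) (.br (Nat.shiftLeft (nat_lit 0x600000500a00c00f) (nat_lit 64)) (.one (nat_lit 0x600000500a00c00e000a0140d981c511)) (.br (Nat.shiftLeft (nat_lit 0x600000500a00d) (nat_lit 76)) (.one (nat_lit 0x600000500a00c00f000a0140d981e511)) (.one (nat_lit 0x600000500a00d00e000a0140db81c511)))))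
def t147 : k147.all (jb2 57 fl b0) = true := by decide +kernel
noncomputable def k148 : KT := (.br (Nat.shiftLeft (nat_lit 0x700000500a00d) (nat_lit 76)) (.br (Nat.shiftLeft (nat_lit 0x7) (nat_lit 124)) (.one (nat_lit 0x600000500b00c00d000a0160d981a511)) (.br (Nat.shiftLeft (nat_lit 0x700000500a00c00f) (nat_lit 64)) (.one (nat_lit 0x700000500a00c00e000a0140f9c1c511)) (.one (nat_lit 0x700000500a00c00f000a0140f9c1e511)))) (.br (Nat.shiftLeft (nat_lit 0x1) (nat_lit 127)) (.br (Nat.shiftLeft (nat_lit 0x700000500b) (nat_lit 88)) (.one (nat_lit 0x700000500a00d00e000a0140fbc1c511)) (.one (nat_lit 0x700000500b00c00d000a0160f9c1a511))) (.br (Nat.shiftLeft (nat_lit 0x800000500a00c00f) (nat_lit 64)) (.one (nat_lit 0x800000500a00c00e000a01411a01c511)) (.one (nat_lit 0x800000500a00c00f000a01411a01e511)))))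
def t148 : k148.all (jb2 57 fl b0) = true := by decide +kernel
noncomputable def k149 : KT := (.br (Nat.shiftLeft (nat_lit 0xc00000500b) (nat_lit 88)) (.br (Nat.shiftLeft (nat_lit 0xa00000500a00d) (nat_lit 76)) (.br (Nat.shiftLeft (nat_lit 0x900000500a00d) (nat_lit 76)) (.br (Nat.shiftLeft (nat_lit 0x9) (nat_lit 124)) (.br (Nat.shiftLeft (nat_lit 0x800000500b) (nat_lit 88)) (.one (nat_lit 0x800000500a00d00e000a01411c01c511)) (.one (nat_lit 0x800000500b00c00d000a01611a01a511))) (.br (Nat.shiftLeft (nat_lit 0x900000500a00c00f) (nat_lit 64)) (.one (nat_lit 0x900000500a00c00e000a01413a41c511)) (.one (nat_lit 0x900000500a00c00f000a01413a41e511)))) (.br (Nat.shiftLeft (nat_lit 0x5) (nat_lit 125)) (.br (Nat.shiftLeft (nat_lit 0x900000500b) (nat_lit 88)) (.one (nat_lit 0x900000500a00d00e000a01413c41c511)) (.one (nat_lit 0x900000500b00c00d000a01613a41a511))) (.br (Nat.shiftLeft (nat_lit 0xa00000500a00c00f) (nat_lit 64)) (.one (nat_lit 0xa00000500a00c00e000a01415a81c511)) (.one (nat_lit 0xa00000500a00c00f000a01415a81e511)))))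 (.br (Nat.shiftLeft (nat_lit 0xb00000500a00d) (nat_lit 76)) (.br (Nat.shiftLeft (nat_lit 0xb) (nat_lit 124)) (.br (Nat.shiftLeft (nat_lit 0xa00000500b) (nat_lit 88)) (.one (nat_lit 0xa00000500a00d00e000a01415c81c511)) (.one (nat_lit 0xa00000500b00c00d000a01615a81a511))) (.br (Nat.shiftLeft (nat_lit 0xb00000500a00c00f) (nat_lit 64)) (.one (nat_lit 0xb00000500a00c00e000a01417ac1c511)) (.one (nat_lit 0xb00000500a00c00f000a01417ac1e511)))) (.br (Nat.shiftLeft (nat_lit 0x3) (nat_lit 126)) (.br (Nat.shiftLeft (nat_lit 0xb00000500b) (nat_lit 88)) (.one (nat_lit 0xb00000500a00d00e000a01417cc1c511)) (.one (nat_lit 0xb00000500b00c00d000a01617ac1a511))) (.br (Nat.shiftLeft (nat_lit 0xc00000500a00c00f) (nat_lit 64)) (.one (nat_lit 0xc00000500a00c00e000a01419b01c511)) (.br (Nat.shiftLeft (nat_lit 0xc00000500a00d) (nat_lit 76)) (.one (nat_lit 0xc00000500a00c00f000a01419b01e511)) (.one (nat_lit 0xc00000500a00d00e000a01419d01c511))))))) (.br (Nat.shiftLeft (nat_lit 0x1) (nat_lit 137)) (.br (Nat.shiftLeft (nat_lit 0x1000003)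 (nat_lit 112)) (.br (Nat.shiftLeft (nat_lit 0x1) (nat_lit 136)) (.br (Nat.shiftLeft (nat_lit 0xd) (nat_lit 124)) (.one (nat_lit 0xc00000500b00c00d000a01619b01a511)) (.one (nat_lit 0xd00000500a00d00e000a0141bd41c511))) (.br (Nat.shiftLeft (nat_lit 0x100000200500b) (nat_lit 88)) (.one (nat_lit 0x100000200500a00c00e400a03441801c611)) (.one (nat_lit 0x100000200500b00c00d400a03641801a611)))) (.br (Nat.shiftLeft (nat_lit 0x400001) (nat_lit 114)) (.br (Nat.shiftLeft (nat_lit 0x100000300500b) (nat_lit 88)) (.one (nat_lit 0x100000300500a00c00e600a03441801c611)) (.one (nat_lit 0x100000300500b00c00d600a03641801a611))) (.br (Nat.shiftLeft (nat_lit 0x100000400500b) (nat_lit 88)) (.one (nat_lit 0x100000400500a00c00e800a03441801c611)) (.one (nat_lit 0x100000400500b00c00d800a03641801a611))))) (.br (Nat.shiftLeft (nat_lit 0x800001) (nat_lit 114)) (.br (Nat.shiftLeft (nat_lit 0x2000003) (nat_lit 112)) (.br (Nat.shiftLeft (nat_lit 0x200000200500b) (nat_lit 88)) (.one (nat_lit 0x200000200500a00c00e400a05481801c611)) (.one (nat_lit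 0x200000200500b00c00d400a05681801a611))) (.br (Nat.shiftLeft (nat_lit 0x200000300500b) (nat_lit 88)) (.one (nat_lit 0x200000300500a00c00e600a05481801c611)) (.one (nat_lit 0x200000300500b00c00d600a05681801a611)))) (.br (Nat.shiftLeft (nat_lit 0x3) (nat_lit 136)) (.br (Nat.shiftLeft (nat_lit 0x200000400500b) (nat_lit 88)) (.one (nat_lit 0x200000400500a00c00e800a05481801c611)) (.one (nat_lit 0x200000400500b00c00d800a05681801a611))) (.br (Nat.shiftLeft (nat_lit 0x300000200500b) (nat_lit 88)) (.one (nat_lit 0x300000200500a00c00e400a074c1801c611)) (.br (Nat.shiftLeft (nat_lit 0x3000003) (nat_lit 112)) (.one (nat_lit 0x300000200500b00c00d400a076c1801a611)) (.one (nat_lit 0x300000300500a00c00e600a074c1801c611))))))))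
def t149 : k149.all (jb2 57 fl b0) = true := by decide +kernel
noncomputable def k150 : KT := (.br (Nat.shiftLeft (nat_lit 0x400000300500b) (nat_lit 88)) (.br (Nat.shiftLeft (nat_lit 0x1) (nat_lit 138)) (.br (Nat.shiftLeft (nat_lit 0xc00001) (nat_lit 114)) (.one (nat_lit 0x300000300500b00c00d600a076c1801a611)) (.br (Nat.shiftLeft (nat_lit 0x300000400500b) (nat_lit 88)) (.one (nat_lit 0x300000400500a00c00e800a074c1801c611)) (.one (nat_lit 0x300000400500b00c00d800a076c1801a611)))) (.br (Nat.shiftLeft (nat_lit 0x400000200500b) (nat_lit 88)) (.one (nat_lit 0x400000200500a00c00e400a09501801c611)) (.br (Nat.shiftLeft (nat_lit 0x4000003) (nat_lit 112)) (.one (nat_lit 0x400000200500b00c00d400a09701801a611)) (.one (nat_lit 0x400000300500a00c00e600a09501801c611))))) (.br (Nat.shiftLeft (nat_lit 0x5) (nat_lit 136)) (.br (Nat.shiftLeft (nat_lit 0x1000001) (nat_lit 114)) (.one (nat_lit 0x400000300500b00c00d600a09701801a611)) (.br (Nat.shiftLeft (nat_lit 0x400000400500b) (nat_lit 88)) (.one (nat_lit 0x400000400500a00c00e800a09501801c611))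 (.one (nat_lit 0x400000400500b00c00d800a09701801a611)))) (.br (Nat.shiftLeft (nat_lit 0x5000003) (nat_lit 112)) (.br (Nat.shiftLeft (nat_lit 0x500000200500b) (nat_lit 88)) (.one (nat_lit 0x500000200500a00c00e400a0b541801c611)) (.one (nat_lit 0x500000200500b00c00d400a0b741801a611))) (.br (Nat.shiftLeft (nat_lit 0x500000300500b) (nat_lit 88)) (.one (nat_lit 0x500000300500a00c00e600a0b541801c611)) (.one (nat_lit 0x500000300500b00c00d600a0b741801a611))))))
def t150 : k150.all (jb2 57 fl b0) = true := by decide +kernel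
noncomputable def k151 : KT := (.br (Nat.shiftLeft (nat_lit 0x600000300500b) (nat_lit 88)) (.br (Nat.shiftLeft (nat_lit 0x3) (nat_lit 137)) (.br (Nat.shiftLeft (nat_lit 0x500000400500b) (nat_lit 88)) (.one (nat_lit 0x500000400500a00c00e800a0b541801c611)) (.one (nat_lit 0x500000400500b00c00d800a0b741801a611))) (.br (Nat.shiftLeft (nat_lit 0x600000200500b) (nat_lit 88)) (.one (nat_lit 0x600000200500a00c00e400a0d581801c611)) (.br (Nat.shiftLeft (nat_lit 0x6000003) (nat_lit 112)) (.one (nat_lit 0x600000200500b00c00d400a0d781801a611)) (.one (nat_lit 0x600000300500a00c00e600a0d581801c611))))) (.br (Nat.shiftLeft (nat_lit 0x7) (nat_lit 136)) (.br (Nat.shiftLeft (nat_lit 0x1800001) (nat_lit 114)) (.one (nat_lit 0x600000300500b00c00d600a0d781801a611)) (.br (Nat.shiftLeft (nat_lit 0x600000400500b) (nat_lit 88)) (.one (nat_lit 0x600000400500a00c00e800a0d581801c611)) (.one (nat_lit 0x600000400500b00c00d800a0d781801a611)))) (.br (Nat.shiftLeft (nat_lit 0x700000200500b) (nat_lit 88)) (.one (nat_lit 0x700000200500a00c00e400a0f5c1801c611))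 (.br (Nat.shiftLeft (nat_lit 0x7000003) (nat_lit 112)) (.one (nat_lit 0x700000200500b00c00d400a0f7c1801a611)) (.one (nat_lit 0x700000300500a00c00e600a0f5c1801c611))))))
def t151 : k151.all (jb2 57 fl b0) = true := by decide +kernel
noncomputable def k152 : KT := (.br (Nat.shiftLeft (nat_lit 0xa00000200500b) (nat_lit 88)) (.br (Nat.shiftLeft (nat_lit 0x800000400500b) (nat_lit 88)) (.br (Nat.shiftLeft (nat_lit 0x800000200500b) (nat_lit 88)) (.br (Nat.shiftLeft (nat_lit 0x700000400500b) (nat_lit 88)) (.br (Nat.shiftLeft (nat_lit 0x1c00001) (nat_lit 114)) (.one (nat_lit 0x700000300500b00c00d600a0f7c1801a611)) (.one (nat_lit 0x700000400500a00c00e800a0f5c1801c611))) (.br (Nat.shiftLeft (nat_lit 0x1) (nat_lit 139)) (.one (nat_lit 0x700000400500b00c00d800a0f7c1801a611)) (.one (nat_lit 0x800000200500a00c00e400a11601801c611)))) (.br (Nat.shiftLeft (nat_lit 0x800000300500b) (nat_lit 88)) (.br (Nat.shiftLeft (nat_lit 0x8000003) (nat_lit 112)) (.one (nat_lit 0x800000200500b00c00d400a11801801a611)) (.one (nat_lit 0x800000300500a00c00e600a11601801c611)))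 (.br (Nat.shiftLeft (nat_lit 0x2000001) (nat_lit 114)) (.one (nat_lit 0x800000300500b00c00d600a11801801a611)) (.one (nat_lit 0x800000400500a00c00e800a11601801c611))))) (.br (Nat.shiftLeft (nat_lit 0x900000300500b) (nat_lit 88)) (.br (Nat.shiftLeft (nat_lit 0x900000200500b) (nat_lit 88)) (.br (Nat.shiftLeft (nat_lit 0x9) (nat_lit 136)) (.one (nat_lit 0x800000400500b00c00d800a11801801a611)) (.one (nat_lit 0x900000200500a00c00e400a13641801c611))) (.br (Nat.shiftLeft (nat_lit 0x9000003) (nat_lit 112)) (.one (nat_lit 0x900000200500b00c00d400a13841801a611)) (.one (nat_lit 0x900000300500a00c00e600a13641801c611)))) (.br (Nat.shiftLeft (nat_lit 0x900000400500b) (nat_lit 88)) (.br (Nat.shiftLeft (nat_lit 0x2400001) (nat_lit 114)) (.one (nat_lit 0x900000300500b00c00d600a13841801a611)) (.one (nat_lit 0x900000400500a00c00e800a13641801c611))) (.br (Nat.shiftLeft (nat_lit 0x5) (nat_lit 137)) (.one (nat_lit 0x900000400500b00c00d800a13841801a611)) (.one (nat_lit 0xa00000200500a00c00e400a15681801c611)))))) (.br (Nat.shiftLeft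 (nat_lit 0xb00000300500b) (nat_lit 88)) (.br (Nat.shiftLeft (nat_lit 0xa00000400500b) (nat_lit 88)) (.br (Nat.shiftLeft (nat_lit 0xa00000300500b) (nat_lit 88)) (.br (Nat.shiftLeft (nat_lit 0xa000003) (nat_lit 112)) (.one (nat_lit 0xa00000200500b00c00d400a15881801a611)) (.one (nat_lit 0xa00000300500a00c00e600a15681801c611))) (.br (Nat.shiftLeft (nat_lit 0x2800001) (nat_lit 114)) (.one (nat_lit 0xa00000300500b00c00d600a15881801a611)) (.one (nat_lit 0xa00000400500a00c00e800a15681801c611)))) (.br (Nat.shiftLeft (nat_lit 0xb00000200500b) (nat_lit 88)) (.br (Nat.shiftLeft (nat_lit 0xb) (nat_lit 136)) (.one (nat_lit 0xa00000400500b00c00d800a15881801a611)) (.one (nat_lit 0xb00000200500a00c00e400a176c1801c611))) (.br (Nat.shiftLeft (nat_lit 0xb000003) (nat_lit 112)) (.one (nat_lit 0xb00000200500b00c00d400a178c1801a611)) (.one (nat_lit 0xb00000300500a00c00e600a176c1801c611))))) (.br (Nat.shiftLeft (nat_lit 0xc00000200500b) (nat_lit 88)) (.br (Nat.shiftLeft (nat_lit 0xb00000400500b) (nat_lit 88)) (.br (Nat.shiftLeft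 (nat_lit 0x2c00001) (nat_lit 114)) (.one (nat_lit 0xb00000300500b00c00d600a178c1801a611)) (.one (nat_lit 0xb00000400500a00c00e800a176c1801c611))) (.br (Nat.shiftLeft (nat_lit 0x3) (nat_lit 138)) (.one (nat_lit 0xb00000400500b00c00d800a178c1801a611)) (.one (nat_lit 0xc00000200500a00c00e400a19701801c611)))) (.br (Nat.shiftLeft (nat_lit 0xc00000300500b) (nat_lit 88)) (.br (Nat.shiftLeft (nat_lit 0xc000003) (nat_lit 112)) (.one (nat_lit 0xc00000200500b00c00d400a19901801a611)) (.one (nat_lit 0xc00000300500a00c00e600a19701801c611))) (.br (Nat.shiftLeft (nat_lit 0x3000001) (nat_lit 114)) (.one (nat_lit 0xc00000300500b00c00d600a19901801a611)) (.br (Nat.shiftLeft (nat_lit 0xc00000400500b) (nat_lit 88)) (.one (nat_lit 0xc00000400500a00c00e800a19701801c611)) (.one (nat_lit 0xc00000400500b00c00d800a19901801a611))))))))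
def t152 : k152.all (jb2 57 fl b0) = true := by decide +kernel
noncomputable def s7 : KT := (.br (nat_lit 0x100000500b00c00d000a01603841a511) (.br (nat_lit 0x200500a00c00f400a01401801e650) (.br (nat_lit 0x100500a00c00f200a01401801e650) (.br (nat_lit 0x100500a00c00e200a01401801c650) k132 k133) (.br (nat_lit 0x100500a00d00e200a01401a01c650) k134 (.br (nat_lit 0x200500a00c00e400a01401801d600) k135 k136))) (.br (nat_lit 0x300500a00c00f600a01401801e650) (.br (nat_lit 0x300500a00c00e600a01401801d600) k137 k138) (.br (nat_lit 0x400500a00c00e800a01401801d600) k139 (.br (nat_lit 0x400500a00c00f800a01401801e650) k140 k141)))) (.br (nat_lit 0x500000500a00c00e000a0140b941c511) (.br (nat_lit 0x100400500a00c00e800a01403841c760) (.br (nat_lit 0x100200500b00c00d400a01603841a760) k142 k143) (.br (nat_lit 0x200300500a00c00e600a01405881c760) k144 (.br (nat_lit 0x300000500a00d00e000a01407ac1c511) k145 k146))) (.br (nat_lit 0x300000300500a00c00e600a074c1801c611) (.br (nat_lit 0x600000500a00d00e000a0140db81c511) k147 (.br (nat_lit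 0x800000500a00c00f000a01411a01e511) k148 k149)) (.br (nat_lit 0x500000300500b00c00d600a0b741801a611) k150 (.br (nat_lit 0x700000300500a00c00e600a0f5c1801c611) k151 k152)))))
noncomputable def u7 : KT := (.br (Nat.shiftLeft (nat_lit 0x500a00d) (nat_lit 76)) (.br (Nat.shiftLeft (nat_lit 0x500a00c00f) (nat_lit 64)) (.one (nat_lit 0x500a00c00e000a01401801c540)) (.one (nat_lit 0x500a00c00f000a01401801e540))) (.br (Nat.shiftLeft (nat_lit 0x500b) (nat_lit 88)) (.one (nat_lit 0x500a00d00e000a01401a01c540)) (.one (nat_lit 0x500b00c00d000a01601801a540))))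
def w7 : u7.all (wj 57 s7) = true := by decide +kernel
def o7 : OkW 57 (jb2 57 fl) u7 := .lift s7 _ (.br _ _ _ (.br _ _ _ (.br _ _ _ (.br _ _ _ (.leaf b0 k132 t132) (.leaf b0 k133 t133)) (.br _ _ _ (.leaf b0 k134 t134) (.br _ _ _ (.leaf b0 k135 t135) (.leaf b0 k136 t136)))) (.br _ _ _ (.br _ _ _ (.leaf b0 k137 t137) (.leaf b0 k138 t138)) (.br _ _ _ (.leaf b0 k139 t139) (.br _ _ _ (.leaf b0 k140 t140) (.leaf b0 k141 t141))))) (.br _ _ _ (.br _ _ _ (.br _ _ _ (.leaf b0 k142 t142) (.leaf b0 k143 t143)) (.br _ _ _ (.leaf b0 k144 t144) (.br _ _ _ (.leaf b0 k145 t145) (.leaf b0 k146 t146)))) (.br _ _ _ (.br _ _ _ (.leaf b0 k147 t147) (.br _ _ _ (.leaf b0 k148 t148) (.leaf b0 k149 t149))) (.br _ _ _ (.leaf b0 k150 t150) (.br _ _ _ (.leaf b0 k151 t151) (.leaf b0 k152 t152)))))) w7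
noncomputable def k153 : KT := (.br (Nat.shiftLeft (nat_lit 0x600000700d) (nat_lit 64)) (.br (Nat.shiftLeft (nat_lit 0x600000601) (nat_lit 68)) (.br (Nat.shiftLeft (nat_lit 0x600000600b) (nat_lit 64)) (.br (Nat.shiftLeft (nat_lit 0xc00000c01) (nat_lit 67)) (.br (Nat.shiftLeft (nat_lit 0x3) (nat_lit 101)) (.one (nat_lit 0x500b00c00e000a01601801d500)) (.one (nat_lit 0x6000006007000c00000c00e311))) (.br (Nat.shiftLeft (nat_lit 0x6000006009) (nat_lit 64)) (.one (nat_lit 0x6000006008000c00000c010311)) (.br (Nat.shiftLeft (nat_lit 0x3000003005) (nat_lit 65)) (.one (nat_lit 0x6000006009000c00000c012311)) (.one (nat_lit 0x600000600a000c00000c014311))))) (.br (Nat.shiftLeft (nat_lit 0x600000600d) (nat_lit 64)) (.br (Nat.shiftLeft (nat_lit 0x1800001803) (nat_lit 66)) (.one (nat_lit 0x600000600b000c00000c016311)) (.one (nat_lit 0x600000600c000c00000c018311))) (.br (Nat.shiftLeft (nat_lit 0x3000003007) (nat_lit 65)) (.one (nat_lit 0x600000600d000c00000c01a311)) (.br (Nat.shiftLeft (nat_lit 0x600000600f) (nat_lit 64))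 (.one (nat_lit 0x600000600e000c00000c01c311)) (.one (nat_lit 0x600000600f000c00000c01e311)))))) (.br (Nat.shiftLeft (nat_lit 0x6000007) (nat_lit 76)) (.br (Nat.shiftLeft (nat_lit 0x3000003009) (nat_lit 65)) (.br (Nat.shiftLeft (nat_lit 0x6000006011) (nat_lit 64)) (.one (nat_lit 0x6000006010000c00000c020311)) (.one (nat_lit 0x6000006011000c00000c022311))) (.br (Nat.shiftLeft (nat_lit 0x6000006013) (nat_lit 64)) (.one (nat_lit 0x6000006012000c00000c024311)) (.br (Nat.shiftLeft (nat_lit 0x1800001805) (nat_lit 66)) (.one (nat_lit 0x6000006013000c00000c026311)) (.one (nat_lit 0x6000006014000c00000c028311))))) (.br (Nat.shiftLeft (nat_lit 0x3000003805) (nat_lit 65)) (.br (Nat.shiftLeft (nat_lit 0x6000007009) (nat_lit 64)) (.one (nat_lit 0x6000007008000c00000e010311)) (.one (nat_lit 0x6000007009000c00000e012311))) (.br (Nat.shiftLeft (nat_lit 0x600000700b) (nat_lit 64)) (.one (nat_lit 0x600000700a000c00000e014311)) (.br (Nat.shiftLeft (nat_lit 0x1800001c03) (nat_lit 66)) (.one (nat_lit 0x600000700b000c00000e016311))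 (.one (nat_lit 0x600000700c000c00000e018311))))))) (.br (Nat.shiftLeft (nat_lit 0x6000007017) (nat_lit 64)) (.br (Nat.shiftLeft (nat_lit 0x3000003809) (nat_lit 65)) (.br (Nat.shiftLeft (nat_lit 0x600000700f) (nat_lit 64)) (.br (Nat.shiftLeft (nat_lit 0x3000003807) (nat_lit 65)) (.one (nat_lit 0x600000700d000c00000e01a311)) (.one (nat_lit 0x600000700e000c00000e01c311))) (.br (Nat.shiftLeft (nat_lit 0x600000701) (nat_lit 68)) (.one (nat_lit 0x600000700f000c00000e01e311)) (.br (Nat.shiftLeft (nat_lit 0x6000007011) (nat_lit 64)) (.one (nat_lit 0x6000007010000c00000e020311)) (.one (nat_lit 0x6000007011000c00000e022311))))) (.br (Nat.shiftLeft (nat_lit 0x1800001c05) (nat_lit 66)) (.br (Nat.shiftLeft (nat_lit 0x6000007013) (nat_lit 64)) (.one (nat_lit 0x6000007012000c00000e024311)) (.one (nat_lit 0x6000007013000c00000e026311))) (.br (Nat.shiftLeft (nat_lit 0x6000007015) (nat_lit 64)) (.one (nat_lit 0x6000007014000c00000e028311)) (.br (Nat.shiftLeft (nat_lit 0x300000380b) (nat_lit 65)) (.one (nat_lit 0x6000007015000c00000e02a311))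 (.one (nat_lit 0x6000007016000c00000e02c311)))))) (.br (Nat.shiftLeft (nat_lit 0x600000800b) (nat_lit 64)) (.br (Nat.shiftLeft (nat_lit 0x6000007019) (nat_lit 64)) (.br (Nat.shiftLeft (nat_lit 0xc00000e03) (nat_lit 67)) (.one (nat_lit 0x6000007017000c00000e02e311)) (.one (nat_lit 0x6000007018000c00000e030311))) (.br (Nat.shiftLeft (nat_lit 0xc00001) (nat_lit 79)) (.one (nat_lit 0x6000007019000c00000e032311)) (.br (Nat.shiftLeft (nat_lit 0x3000004005) (nat_lit 65)) (.one (nat_lit 0x6000008009000c000010012311)) (.one (nat_lit 0x600000800a000c000010014311))))) (.br (Nat.shiftLeft (nat_lit 0x600000800d) (nat_lit 64)) (.br (Nat.shiftLeft (nat_lit 0x1800002003) (nat_lit 66)) (.one (nat_lit 0x600000800b000c000010016311)) (.one (nat_lit 0x600000800c000c000010018311))) (.br (Nat.shiftLeft (nat_lit 0x3000004007) (nat_lit 65)) (.one (nat_lit 0x600000800d000c00001001a311)) (.br (Nat.shiftLeft (nat_lit 0x600000800f) (nat_lit 64)) (.one (nat_lit 0x600000800e000c00001001c311)) (.one (nat_lit 0x600000800f000c00001001e311))))))))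
def t153 : k153.all (jb2 57 fl b0) = true := by decide +kernel
noncomputable def k154 : KT := (.br (Nat.shiftLeft (nat_lit 0x600000900b) (nat_lit 64)) (.br (Nat.shiftLeft (nat_lit 0x300000400b) (nat_lit 65)) (.br (Nat.shiftLeft (nat_lit 0x6000008013) (nat_lit 64)) (.br (Nat.shiftLeft (nat_lit 0x6000008011) (nat_lit 64)) (.one (nat_lit 0x6000008010000c000010020311)) (.br (Nat.shiftLeft (nat_lit 0x3000004009) (nat_lit 65)) (.one (nat_lit 0x6000008011000c000010022311)) (.one (nat_lit 0x6000008012000c000010024311)))) (.br (Nat.shiftLeft (nat_lit 0x1800002005) (nat_lit 66)) (.one (nat_lit 0x6000008013000c000010026311)) (.br (Nat.shiftLeft (nat_lit 0x6000008015) (nat_lit 64)) (.one (nat_lit 0x6000008014000c000010028311)) (.one (nat_lit 0x6000008015000c00001002a311))))) (.br (Nat.shiftLeft (nat_lit 0x6000008019) (nat_lit 64)) (.br (Nat.shiftLeft (nat_lit 0x6000008017) (nat_lit 64)) (.one (nat_lit 0x6000008016000c00001002c311)) (.br (Nat.shiftLeft (nat_lit 0xc00001003) (nat_lit 67)) (.one (nat_lit 0x6000008017000c00001002e311))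 (.one (nat_lit 0x6000008018000c000010030311)))) (.br (Nat.shiftLeft (nat_lit 0x300000400d) (nat_lit 65)) (.one (nat_lit 0x6000008019000c000010032311)) (.br (Nat.shiftLeft (nat_lit 0x6000009) (nat_lit 76)) (.one (nat_lit 0x600000801a000c000010034311)) (.one (nat_lit 0x600000900a000c000012014311)))))) (.br (Nat.shiftLeft (nat_lit 0x6000009011) (nat_lit 64)) (.br (Nat.shiftLeft (nat_lit 0x3000004807) (nat_lit 65)) (.br (Nat.shiftLeft (nat_lit 0x1800002403) (nat_lit 66)) (.one (nat_lit 0x600000900b000c000012016311)) (.br (Nat.shiftLeft (nat_lit 0x600000900d) (nat_lit 64)) (.one (nat_lit 0x600000900c000c000012018311)) (.one (nat_lit 0x600000900d000c00001201a311)))) (.br (Nat.shiftLeft (nat_lit 0x600000900f) (nat_lit 64)) (.one (nat_lit 0x600000900e000c00001201c311)) (.br (Nat.shiftLeft (nat_lit 0x600000901) (nat_lit 68)) (.one (nat_lit 0x600000900f000c00001201e311)) (.one (nat_lit 0x6000009010000c000012020311))))) (.br (Nat.shiftLeft (nat_lit 0x1800002405) (nat_lit 66)) (.br (Nat.shiftLeft (nat_lit 0x3000004809)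 (nat_lit 65)) (.one (nat_lit 0x6000009011000c000012022311)) (.br (Nat.shiftLeft (nat_lit 0x6000009013) (nat_lit 64)) (.one (nat_lit 0x6000009012000c000012024311)) (.one (nat_lit 0x6000009013000c000012026311)))) (.br (Nat.shiftLeft (nat_lit 0x300000480b) (nat_lit 65)) (.br (Nat.shiftLeft (nat_lit 0x6000009015) (nat_lit 64)) (.one (nat_lit 0x6000009014000c000012028311)) (.one (nat_lit 0x6000009015000c00001202a311))) (.br (Nat.shiftLeft (nat_lit 0x1) (nat_lit 112)) (.one (nat_lit 0x6000009016000c00001202c311)) (.one (nat_lit 0x100500b00c00e200a01601801c650)))))))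
def t154 : k154.all (jb2 57 fl b0) = true := by decide +kernel
noncomputable def k155 : KT := (.one (nat_lit 0x200500b00c00e400a01601801c650))
def t155 : k155.all (jb2 57 fl b0) = true := by decide +kernel
noncomputable def k156 : KT := (.one (nat_lit 0x300500b00c00e600a01601801c650))
def t156 : k156.all (jb2 57 fl b0) = true := by decide +kernel
noncomputable def k157 : KT := (.br (Nat.shiftLeft (nat_lit 0x3) (nat_lit 124)) (.br (Nat.shiftLeft (nat_lit 0x1) (nat_lit 124)) (.one (nat_lit 0x400500b00c00e800a01601801c650)) (.br (Nat.shiftLeft (nat_lit 0x1) (nat_lit 125)) (.one (nat_lit 0x100000500b00c00e000a01603841c511)) (.one (nat_lit 0x200000500b00c00e000a01605881c511)))) (.br (Nat.shiftLeft (nat_lit 0x1) (nat_lit 126)) (.one (nat_lit 0x300000500b00c00e000a016078c1c511)) (.br (Nat.shiftLeft (nat_lit 0x5) (nat_lit 124)) (.one (nat_lit 0x400000500b00c00e000a01609901c511)) (.one (nat_lit 0x500000500b00c00e000a0160b941c511)))))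
def t157 : k157.all (jb2 57 fl b0) = true := by decide +kernel
noncomputable def k158 : KT := (.br (Nat.shiftLeft (nat_lit 0x9) (nat_lit 124)) (.br (Nat.shiftLeft (nat_lit 0x7) (nat_lit 124)) (.one (nat_lit 0x600000500b00c00e000a0160d981c511)) (.br (Nat.shiftLeft (nat_lit 0x1) (nat_lit 127)) (.one (nat_lit 0x700000500b00c00e000a0160f9c1c511)) (.one (nat_lit 0x800000500b00c00e000a01611a01c511)))) (.br (Nat.shiftLeft (nat_lit 0xb) (nat_lit 124)) (.br (Nat.shiftLeft (nat_lit 0x5) (nat_lit 125)) (.one (nat_lit 0x900000500b00c00e000a01613a41c511)) (.one (nat_lit 0xa00000500b00c00e000a01615a81c511))) (.br (Nat.shiftLeft (nat_lit 0x3) (nat_lit 126)) (.one (nat_lit 0xb00000500b00c00e000a01617ac1c511)) (.one (nat_lit 0xc00000500b00c00e000a01619b01c511)))))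
def t158 : k158.all (jb2 57 fl b0) = true := by decide +kernel
noncomputable def s8 : KT := (.br (nat_lit 0x200500b00c00e400a01601801c650) (.br (nat_lit 0x600000800f000c00001001e311) k153 (.br (nat_lit 0x100500b00c00e200a01601801c650) k154 k155)) (.br (nat_lit 0x300500b00c00e600a01601801c650) k156 (.br (nat_lit 0x500000500b00c00e000a0160b941c511) k157 k158)))
noncomputable def u8 : KT := (.br (Nat.shiftLeft (nat_lit 0x6000007019) (nat_lit 64)) (.br (Nat.shiftLeft (nat_lit 0x6000007009) (nat_lit 64)) (.br (Nat.shiftLeft (nat_lit 0x3000003007) (nat_lit 65)) (.br (Nat.shiftLeft (nat_lit 0x3000003005) (nat_lit 65)) (.br (Nat.shiftLeft (nat_lit 0xc00000c01) (nat_lit 67)) (.br (Nat.shiftLeft (nat_lit 0x3) (nat_lit 101)) (.one (nat_lit 0x500b00c00e000a01601801c540)) (.one (nat_lit 0x6000006007000c00000c00e311))) (.br (Nat.shiftLeft (nat_lit 0x6000006009) (nat_lit 64)) (.one (nat_lit 0x6000006008000c00000c010311)) (.one (nat_lit 0x6000006009000c00000c012311)))) (.br (Nat.shiftLeft (nat_lit 0x1800001803) (nat_lit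 66)) (.br (Nat.shiftLeft (nat_lit 0x600000600b) (nat_lit 64)) (.one (nat_lit 0x600000600a000c00000c014311)) (.one (nat_lit 0x600000600b000c00000c016311))) (.br (Nat.shiftLeft (nat_lit 0x600000600d) (nat_lit 64)) (.one (nat_lit 0x600000600c000c00000c018311)) (.one (nat_lit 0x600000600d000c00000c01a311))))) (.br (Nat.shiftLeft (nat_lit 0x3000003009) (nat_lit 65)) (.br (Nat.shiftLeft (nat_lit 0x600000601) (nat_lit 68)) (.br (Nat.shiftLeft (nat_lit 0x600000600f) (nat_lit 64)) (.one (nat_lit 0x600000600e000c00000c01c311)) (.one (nat_lit 0x600000600f000c00000c01e311))) (.br (Nat.shiftLeft (nat_lit 0x6000006011) (nat_lit 64)) (.one (nat_lit 0x6000006010000c00000c020311)) (.one (nat_lit 0x6000006011000c00000c022311)))) (.br (Nat.shiftLeft (nat_lit 0x1800001805) (nat_lit 66)) (.br (Nat.shiftLeft (nat_lit 0x6000006013) (nat_lit 64)) (.one (nat_lit 0x6000006012000c00000c024311)) (.one (nat_lit 0x6000006013000c00000c026311))) (.br (Nat.shiftLeft (nat_lit 0x6000007) (nat_lit 76)) (.one (nat_lit 0x6000006014000c00000c028311))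 (.one (nat_lit 0x6000007008000c00000e010311)))))) (.br (Nat.shiftLeft (nat_lit 0x6000007011) (nat_lit 64)) (.br (Nat.shiftLeft (nat_lit 0x600000700d) (nat_lit 64)) (.br (Nat.shiftLeft (nat_lit 0x600000700b) (nat_lit 64)) (.br (Nat.shiftLeft (nat_lit 0x3000003805) (nat_lit 65)) (.one (nat_lit 0x6000007009000c00000e012311)) (.one (nat_lit 0x600000700a000c00000e014311))) (.br (Nat.shiftLeft (nat_lit 0x1800001c03) (nat_lit 66)) (.one (nat_lit 0x600000700b000c00000e016311)) (.one (nat_lit 0x600000700c000c00000e018311)))) (.br (Nat.shiftLeft (nat_lit 0x600000700f) (nat_lit 64)) (.br (Nat.shiftLeft (nat_lit 0x3000003807) (nat_lit 65)) (.one (nat_lit 0x600000700d000c00000e01a311)) (.one (nat_lit 0x600000700e000c00000e01c311))) (.br (Nat.shiftLeft (nat_lit 0x600000701) (nat_lit 68)) (.one (nat_lit 0x600000700f000c00000e01e311)) (.one (nat_lit 0x6000007010000c00000e020311))))) (.br (Nat.shiftLeft (nat_lit 0x6000007015) (nat_lit 64)) (.br (Nat.shiftLeft (nat_lit 0x6000007013) (nat_lit 64)) (.br (Nat.shiftLeft (nat_lit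 0x3000003809) (nat_lit 65)) (.one (nat_lit 0x6000007011000c00000e022311)) (.one (nat_lit 0x6000007012000c00000e024311))) (.br (Nat.shiftLeft (nat_lit 0x1800001c05) (nat_lit 66)) (.one (nat_lit 0x6000007013000c00000e026311)) (.one (nat_lit 0x6000007014000c00000e028311)))) (.br (Nat.shiftLeft (nat_lit 0x6000007017) (nat_lit 64)) (.br (Nat.shiftLeft (nat_lit 0x300000380b) (nat_lit 65)) (.one (nat_lit 0x6000007015000c00000e02a311)) (.one (nat_lit 0x6000007016000c00000e02c311))) (.br (Nat.shiftLeft (nat_lit 0xc00000e03) (nat_lit 67)) (.one (nat_lit 0x6000007017000c00000e02e311)) (.one (nat_lit 0x6000007018000c00000e030311))))))) (.br (Nat.shiftLeft (nat_lit 0xc00001003) (nat_lit 67)) (.br (Nat.shiftLeft (nat_lit 0x600000801) (nat_lit 68)) (.br (Nat.shiftLeft (nat_lit 0x1800002003) (nat_lit 66)) (.br (Nat.shiftLeft (nat_lit 0x3000004005) (nat_lit 65)) (.br (Nat.shiftLeft (nat_lit 0xc00001) (nat_lit 79)) (.one (nat_lit 0x6000007019000c00000e032311)) (.one (nat_lit 0x6000008009000c000010012311))) (.br (Nat.shiftLeft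 (nat_lit 0x600000800b) (nat_lit 64)) (.one (nat_lit 0x600000800a000c000010014311)) (.one (nat_lit 0x600000800b000c000010016311)))) (.br (Nat.shiftLeft (nat_lit 0x3000004007) (nat_lit 65)) (.br (Nat.shiftLeft (nat_lit 0x600000800d) (nat_lit 64)) (.one (nat_lit 0x600000800c000c000010018311)) (.one (nat_lit 0x600000800d000c00001001a311))) (.br (Nat.shiftLeft (nat_lit 0x600000800f) (nat_lit 64)) (.one (nat_lit 0x600000800e000c00001001c311)) (.one (nat_lit 0x600000800f000c00001001e311))))) (.br (Nat.shiftLeft (nat_lit 0x1800002005) (nat_lit 66)) (.br (Nat.shiftLeft (nat_lit 0x3000004009) (nat_lit 65)) (.br (Nat.shiftLeft (nat_lit 0x6000008011) (nat_lit 64)) (.one (nat_lit 0x6000008010000c000010020311)) (.one (nat_lit 0x6000008011000c000010022311))) (.br (Nat.shiftLeft (nat_lit 0x6000008013) (nat_lit 64)) (.one (nat_lit 0x6000008012000c000010024311)) (.one (nat_lit 0x6000008013000c000010026311)))) (.br (Nat.shiftLeft (nat_lit 0x300000400b) (nat_lit 65)) (.br (Nat.shiftLeft (nat_lit 0x6000008015) (nat_lit 64))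 (.one (nat_lit 0x6000008014000c000010028311)) (.one (nat_lit 0x6000008015000c00001002a311))) (.br (Nat.shiftLeft (nat_lit 0x6000008017) (nat_lit 64)) (.one (nat_lit 0x6000008016000c00001002c311)) (.one (nat_lit 0x6000008017000c00001002e311)))))) (.br (Nat.shiftLeft (nat_lit 0x600000900f) (nat_lit 64)) (.br (Nat.shiftLeft (nat_lit 0x600000900b) (nat_lit 64)) (.br (Nat.shiftLeft (nat_lit 0x300000400d) (nat_lit 65)) (.br (Nat.shiftLeft (nat_lit 0x6000008019) (nat_lit 64)) (.one (nat_lit 0x6000008018000c000010030311)) (.one (nat_lit 0x6000008019000c000010032311))) (.br (Nat.shiftLeft (nat_lit 0x6000009) (nat_lit 76)) (.one (nat_lit 0x600000801a000c000010034311)) (.one (nat_lit 0x600000900a000c000012014311)))) (.br (Nat.shiftLeft (nat_lit 0x600000900d) (nat_lit 64)) (.br (Nat.shiftLeft (nat_lit 0x1800002403) (nat_lit 66)) (.one (nat_lit 0x600000900b000c000012016311)) (.one (nat_lit 0x600000900c000c000012018311))) (.br (Nat.shiftLeft (nat_lit 0x3000004807) (nat_lit 65)) (.one (nat_lit 0x600000900d000c00001201a311))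 (.one (nat_lit 0x600000900e000c00001201c311))))) (.br (Nat.shiftLeft (nat_lit 0x6000009013) (nat_lit 64)) (.br (Nat.shiftLeft (nat_lit 0x6000009011) (nat_lit 64)) (.br (Nat.shiftLeft (nat_lit 0x600000901) (nat_lit 68)) (.one (nat_lit 0x600000900f000c00001201e311)) (.one (nat_lit 0x6000009010000c000012020311))) (.br (Nat.shiftLeft (nat_lit 0x3000004809) (nat_lit 65)) (.one (nat_lit 0x6000009011000c000012022311)) (.one (nat_lit 0x6000009012000c000012024311)))) (.br (Nat.shiftLeft (nat_lit 0x6000009015) (nat_lit 64)) (.br (Nat.shiftLeft (nat_lit 0x1800002405) (nat_lit 66)) (.one (nat_lit 0x6000009013000c000012026311)) (.one (nat_lit 0x6000009014000c000012028311))) (.br (Nat.shiftLeft (nat_lit 0x300000480b) (nat_lit 65)) (.one (nat_lit 0x6000009015000c00001202a311)) (.one (nat_lit 0x6000009016000c00001202c311))))))))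
def w8 : u8.all (wj 57 s8) = true := by decide +kernel
def o8 : OkW 57 (jb2 57 fl) u8 := .lift s8 _ (.br _ _ _ (.br _ _ _ (.leaf b0 k153 t153) (.br _ _ _ (.leaf b0 k154 t154) (.leaf b0 k155 t155))) (.br _ _ _ (.leaf b0 k156 t156) (.br _ _ _ (.leaf b0 k157 t157) (.leaf b0 k158 t158)))) w8
noncomputable def k159 : KT := (.br (Nat.shiftLeft (nat_lit 0x600000b00d) (nat_lit 64)) (.br (Nat.shiftLeft (nat_lit 0x600000a011) (nat_lit 64)) (.br (Nat.shiftLeft (nat_lit 0x1800002803) (nat_lit 66)) (.br (Nat.shiftLeft (nat_lit 0x6000009019) (nat_lit 64)) (.br (Nat.shiftLeft (nat_lit 0xc00001203) (nat_lit 67)) (.one (nat_lit 0x6000009017000c00001202e311)) (.one (nat_lit 0x6000009018000c000012030311))) (.br (Nat.shiftLeft (nat_lit 0x300000480d) (nat_lit 65)) (.one (nat_lit 0x6000009019000c000012032311)) (.br (Nat.shiftLeft (nat_lit 0x3000005) (nat_lit 77)) (.one (nat_lit 0x600000901a000c000012034311)) (.one (nat_lit 0x600000a00b000c000014016311))))) (.br (Nat.shiftLeft (nat_lit 0x3000005007) (nat_lit 65)) (.br (Nat.shiftLeft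 (nat_lit 0x600000a00d) (nat_lit 64)) (.one (nat_lit 0x600000a00c000c000014018311)) (.one (nat_lit 0x600000a00d000c00001401a311))) (.br (Nat.shiftLeft (nat_lit 0x600000a00f) (nat_lit 64)) (.one (nat_lit 0x600000a00e000c00001401c311)) (.br (Nat.shiftLeft (nat_lit 0x600000a01) (nat_lit 68)) (.one (nat_lit 0x600000a00f000c00001401e311)) (.one (nat_lit 0x600000a010000c000014020311)))))) (.br (Nat.shiftLeft (nat_lit 0x300000500b) (nat_lit 65)) (.br (Nat.shiftLeft (nat_lit 0x600000a013) (nat_lit 64)) (.br (Nat.shiftLeft (nat_lit 0x3000005009) (nat_lit 65)) (.one (nat_lit 0x600000a011000c000014022311)) (.one (nat_lit 0x600000a012000c000014024311))) (.br (Nat.shiftLeft (nat_lit 0x1800002805) (nat_lit 66)) (.one (nat_lit 0x600000a013000c000014026311)) (.br (Nat.shiftLeft (nat_lit 0x600000a015) (nat_lit 64)) (.one (nat_lit 0x600000a014000c000014028311)) (.one (nat_lit 0x600000a015000c00001402a311))))) (.br (Nat.shiftLeft (nat_lit 0xc00001403) (nat_lit 67)) (.br (Nat.shiftLeft (nat_lit 0x600000a017) (nat_lit 64)) (.one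 (nat_lit 0x600000a016000c00001402c311)) (.one (nat_lit 0x600000a017000c00001402e311))) (.br (Nat.shiftLeft (nat_lit 0x600000a019) (nat_lit 64)) (.one (nat_lit 0x600000a018000c000014030311)) (.br (Nat.shiftLeft (nat_lit 0x600000b) (nat_lit 76)) (.one (nat_lit 0x600000a019000c000014032311)) (.one (nat_lit 0x600000b00c000c000016018311))))))) (.br (Nat.shiftLeft (nat_lit 0x600000b017) (nat_lit 64)) (.br (Nat.shiftLeft (nat_lit 0x3000005809) (nat_lit 65)) (.br (Nat.shiftLeft (nat_lit 0x600000b00f) (nat_lit 64)) (.br (Nat.shiftLeft (nat_lit 0x3000005807) (nat_lit 65)) (.one (nat_lit 0x600000b00d000c00001601a311)) (.one (nat_lit 0x600000b00e000c00001601c311))) (.br (Nat.shiftLeft (nat_lit 0x600000b01) (nat_lit 68)) (.one (nat_lit 0x600000b00f000c00001601e311)) (.br (Nat.shiftLeft (nat_lit 0x600000b011) (nat_lit 64)) (.one (nat_lit 0x600000b010000c000016020311)) (.one (nat_lit 0x600000b011000c000016022311))))) (.br (Nat.shiftLeft (nat_lit 0x1800002c05) (nat_lit 66)) (.br (Nat.shiftLeft (nat_lit 0x600000b013) (nat_lit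 64)) (.one (nat_lit 0x600000b012000c000016024311)) (.one (nat_lit 0x600000b013000c000016026311))) (.br (Nat.shiftLeft (nat_lit 0x600000b015) (nat_lit 64)) (.one (nat_lit 0x600000b014000c000016028311)) (.br (Nat.shiftLeft (nat_lit 0x300000580b) (nat_lit 65)) (.one (nat_lit 0x600000b015000c00001602a311)) (.one (nat_lit 0x600000b016000c00001602c311)))))) (.br (Nat.shiftLeft (nat_lit 0x600000c01) (nat_lit 68)) (.br (Nat.shiftLeft (nat_lit 0x1800003) (nat_lit 78)) (.br (Nat.shiftLeft (nat_lit 0xc00001603) (nat_lit 67)) (.one (nat_lit 0x600000b017000c00001602e311)) (.one (nat_lit 0x600000b018000c000016030311))) (.br (Nat.shiftLeft (nat_lit 0x3000006007) (nat_lit 65)) (.one (nat_lit 0x600000c00d000c00001801a311)) (.br (Nat.shiftLeft (nat_lit 0x600000c00f) (nat_lit 64)) (.one (nat_lit 0x600000c00e000c00001801c311)) (.one (nat_lit 0x600000c00f000c00001801e311))))) (.br (Nat.shiftLeft (nat_lit 0x3000006009) (nat_lit 65)) (.br (Nat.shiftLeft (nat_lit 0x600000c011) (nat_lit 64)) (.one (nat_lit 0x600000c010000c000018020311))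 (.one (nat_lit 0x600000c011000c000018022311))) (.br (Nat.shiftLeft (nat_lit 0x600000c013) (nat_lit 64)) (.one (nat_lit 0x600000c012000c000018024311)) (.br (Nat.shiftLeft (nat_lit 0x1800003005) (nat_lit 66)) (.one (nat_lit 0x600000c013000c000018026311)) (.one (nat_lit 0x600000c014000c000018028311))))))))
def t159 : k159.all (jb2 57 fl b0) = true := by decide +kernel
noncomputable def k160 : KT := (.br (Nat.shiftLeft (nat_lit 0x300000680b) (nat_lit 65)) (.br (Nat.shiftLeft (nat_lit 0x600000d01) (nat_lit 68)) (.br (Nat.shiftLeft (nat_lit 0xc00001803) (nat_lit 67)) (.br (Nat.shiftLeft (nat_lit 0x300000600b) (nat_lit 65)) (.one (nat_lit 0x600000c015000c00001802a311)) (.br (Nat.shiftLeft (nat_lit 0x600000c017) (nat_lit 64)) (.one (nat_lit 0x600000c016000c00001802c311)) (.one (nat_lit 0x600000c017000c00001802e311)))) (.br (Nat.shiftLeft (nat_lit 0x600000d) (nat_lit 76)) (.one (nat_lit 0x600000c018000c000018030311)) (.br (Nat.shiftLeft (nat_lit 0x600000d00f) (nat_lit 64)) (.one (nat_lit 0x600000d00e000c00001a01c311))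 (.one (nat_lit 0x600000d00f000c00001a01e311))))) (.br (Nat.shiftLeft (nat_lit 0x600000d013) (nat_lit 64)) (.br (Nat.shiftLeft (nat_lit 0x600000d011) (nat_lit 64)) (.one (nat_lit 0x600000d010000c00001a020311)) (.br (Nat.shiftLeft (nat_lit 0x3000006809) (nat_lit 65)) (.one (nat_lit 0x600000d011000c00001a022311)) (.one (nat_lit 0x600000d012000c00001a024311)))) (.br (Nat.shiftLeft (nat_lit 0x1800003405) (nat_lit 66)) (.one (nat_lit 0x600000d013000c00001a026311)) (.br (Nat.shiftLeft (nat_lit 0x600000d015) (nat_lit 64)) (.one (nat_lit 0x600000d014000c00001a028311)) (.one (nat_lit 0x600000d015000c00001a02a311)))))) (.br (Nat.shiftLeft (nat_lit 0x600000e013) (nat_lit 64)) (.br (Nat.shiftLeft (nat_lit 0x600000e01) (nat_lit 68)) (.br (Nat.shiftLeft (nat_lit 0x600000d017) (nat_lit 64)) (.one (nat_lit 0x600000d016000c00001a02c311)) (.br (Nat.shiftLeft (nat_lit 0x3000007) (nat_lit 77)) (.one (nat_lit 0x600000d017000c00001a02e311)) (.one (nat_lit 0x600000e00f000c00001c01e311)))) (.br (Nat.shiftLeft (nat_lit 0x600000e011)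 (nat_lit 64)) (.one (nat_lit 0x600000e010000c00001c020311)) (.br (Nat.shiftLeft (nat_lit 0x3000007009) (nat_lit 65)) (.one (nat_lit 0x600000e011000c00001c022311)) (.one (nat_lit 0x600000e012000c00001c024311))))) (.br (Nat.shiftLeft (nat_lit 0x300000700b) (nat_lit 65)) (.br (Nat.shiftLeft (nat_lit 0x1800003805) (nat_lit 66)) (.one (nat_lit 0x600000e013000c00001c026311)) (.br (Nat.shiftLeft (nat_lit 0x600000e015) (nat_lit 64)) (.one (nat_lit 0x600000e014000c00001c028311)) (.one (nat_lit 0x600000e015000c00001c02a311)))) (.br (Nat.shiftLeft (nat_lit 0x600000f) (nat_lit 76)) (.one (nat_lit 0x600000e016000c00001c02c311)) (.br (Nat.shiftLeft (nat_lit 0x600000f011) (nat_lit 64)) (.one (nat_lit 0x600000f010000c00001e020311)) (.one (nat_lit 0x600000f011000c00001e022311)))))))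
def t160 : k160.all (jb2 57 fl b0) = true := by decide +kernel
noncomputable def u9 : KT := (.br (nat_lit 0x600000c014000c000018028311) k159 k160)
def o9 : OkW 57 (jb2 57 fl) u9 := (.br _ _ _ (.leaf b0 k159 t159) (.leaf b0 k160 t160))
noncomputable def k161 : KT := (.br (Nat.shiftLeft (nat_lit 0x600700800d) (nat_lit 64)) (.br (Nat.shiftLeft (nat_lit 0x6000010013) (nat_lit 64)) (.br (Nat.shiftLeft (nat_lit 0x600000f015) (nat_lit 64)) (.br (Nat.shiftLeft (nat_lit 0x600000f013) (nat_lit 64)) (.one (nat_lit 0x600000f012000c00001e024311)) (.br (Nat.shiftLeft (nat_lit 0x1800003c05) (nat_lit 66)) (.one (nat_lit 0x600000f013000c00001e026311)) (.one (nat_lit 0x600000f014000c00001e028311)))) (.br (Nat.shiftLeft (nat_lit 0x600001) (nat_lit 80)) (.one (nat_lit 0x600000f015000c00001e02a311)) (.br (Nat.shiftLeft (nat_lit 0x3000008009) (nat_lit 65)) (.one (nat_lit 0x6000010011000c000020022311)) (.one (nat_lit 0x6000010012000c000020024311))))) (.br (Nat.shiftLeft (nat_lit 0x6000011013) (nat_lit 64)) (.br (Nat.shiftLeft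 (nat_lit 0x1800004005) (nat_lit 66)) (.one (nat_lit 0x6000010013000c000020026311)) (.br (Nat.shiftLeft (nat_lit 0x6000011) (nat_lit 76)) (.one (nat_lit 0x6000010014000c000020028311)) (.one (nat_lit 0x6000011012000c000022024311)))) (.br (Nat.shiftLeft (nat_lit 0x1801) (nat_lit 90)) (.one (nat_lit 0x6000011013000c000022026311)) (.br (Nat.shiftLeft (nat_lit 0x1801c02003) (nat_lit 66)) (.one (nat_lit 0x600700800b000c00e010017500)) (.one (nat_lit 0x600700800c000c00e010019500)))))) (.br (Nat.shiftLeft (nat_lit 0x3) (nat_lit 112)) (.br (Nat.shiftLeft (nat_lit 0x600700801) (nat_lit 68)) (.br (Nat.shiftLeft (nat_lit 0x3003804007) (nat_lit 65)) (.one (nat_lit 0x600700800d000c00e01001b500)) (.br (Nat.shiftLeft (nat_lit 0x600700800f) (nat_lit 64)) (.one (nat_lit 0x600700800e000c00e01001d500)) (.one (nat_lit 0x600700800f000c00e01001f500)))) (.br (Nat.shiftLeft (nat_lit 0x1) (nat_lit 112)) (.one (nat_lit 0x6007008010000c00e010021500)) (.br (Nat.shiftLeft (nat_lit 0x1) (nat_lit 113)) (.one (nat_lit 0x1006007008010200c00e010021600))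 (.one (nat_lit 0x2006007008010400c00e010021600))))) (.br (Nat.shiftLeft (nat_lit 0x1) (nat_lit 124)) (.br (Nat.shiftLeft (nat_lit 0x1) (nat_lit 114)) (.one (nat_lit 0x3006007008010600c00e010021600)) (.br (Nat.shiftLeft (nat_lit 0x5) (nat_lit 112)) (.one (nat_lit 0x4006007008010800c00e010021600)) (.one (nat_lit 0x5006007008010a00c00e010021600)))) (.br (Nat.shiftLeft (nat_lit 0x1003) (nat_lit 112)) (.br (Nat.shiftLeft (nat_lit 0x801) (nat_lit 113)) (.one (nat_lit 0x1000006007008010000c00e030420511)) (.one (nat_lit 0x1002006007008010400c00e030421700))) (.br (Nat.shiftLeft (nat_lit 0x401) (nat_lit 114)) (.one (nat_lit 0x1003006007008010600c00e030421700)) (.one (nat_lit 0x1004006007008010800c00e030420760)))))))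
def t161 : k161.all (jb2 57 fl b0) = true := by decide +kernel
noncomputable def k162 : KT := (.br (Nat.shiftLeft (nat_lit 0x1001) (nat_lit 113)) (.br (Nat.shiftLeft (nat_lit 0x1) (nat_lit 125)) (.one (nat_lit 0x1005006007008010a00c00e030420760)) (.one (nat_lit 0x2000006007008010000c00e050820511))) (.br (Nat.shiftLeft (nat_lit 0x801) (nat_lit 114)) (.one (nat_lit 0x2003006007008010600c00e050821700)) (.one (nat_lit 0x2004006007008010800c00e050821700))))
def t162 : k162.all (jb2 57 fl b0) = true := by decide +kernel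
noncomputable def k163 : KT := (.br (Nat.shiftLeft (nat_lit 0x3) (nat_lit 124)) (.one (nat_lit 0x2005006007008010a00c00e050820760)) (.br (Nat.shiftLeft (nat_lit 0xc01) (nat_lit 114)) (.one (nat_lit 0x3000006007008010000c00e070c20511)) (.one (nat_lit 0x3004006007008010800c00e070c21700))))
def t163 : k163.all (jb2 57 fl b0) = true := by decide +kernel
noncomputable def k164 : KT := (.br (Nat.shiftLeft (nat_lit 0x1) (nat_lit 126)) (.one (nat_lit 0x3005006007008010a00c00e070c20760)) (.one (nat_lit 0x4000006007008010000c00e091020511)))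
def t164 : k164.all (jb2 57 fl b0) = true := by decide +kernel
noncomputable def k165 : KT := (.br (Nat.shiftLeft (nat_lit 0x5) (nat_lit 124)) (.one (nat_lit 0x4005006007008010a00c00e091020760)) (.one (nat_lit 0x5000006007008010000c00e0b1420511)))
def t165 : k165.all (jb2 57 fl b0) = true := by decide +kernel
noncomputable def k166 : KT := (.br (Nat.shiftLeft (nat_lit 0x7) (nat_lit 124)) (.one (nat_lit 0x6000006007008010000c00e0d1820511)) (.one (nat_lit 0x7000006007008010000c00e0f1c20511)))
def t166 : k166.all (jb2 57 fl b0) = true := by decide +kernel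
noncomputable def k167 : KT := (.br (Nat.shiftLeft (nat_lit 0x1000003) (nat_lit 112)) (.br (Nat.shiftLeft (nat_lit 0x1) (nat_lit 136)) (.one (nat_lit 0x8000006007008010000c00e112020511)) (.br (Nat.shiftLeft (nat_lit 0x800001) (nat_lit 113)) (.one (nat_lit 0x1000001006007008010200c02e410020611)) (.one (nat_lit 0x1000002006007008010400c02e410020611)))) (.br (Nat.shiftLeft (nat_lit 0x400001) (nat_lit 114)) (.one (nat_lit 0x1000003006007008010600c02e410020611)) (.br (Nat.shiftLeft (nat_lit 0x1000005) (nat_lit 112)) (.one (nat_lit 0x1000004006007008010800c02e410020611)) (.one (nat_lit 0x1000005006007008010a00c02e410020611)))))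
def t167 : k167.all (jb2 57 fl b0) = true := by decide +kernel
noncomputable def k168 : KT := (.one (nat_lit 0x1002003006007008010600c02e450820870))
def t168 : k168.all (jb2 57 fl b0) = true := by decide +kernel
noncomputable def k169 : KT := (.br (Nat.shiftLeft (nat_lit 0x1000001) (nat_lit 113)) (.br (Nat.shiftLeft (nat_lit 0x1003) (nat_lit 124)) (.one (nat_lit 0x1002004006007008010800c02e450820870)) (.br (Nat.shiftLeft (nat_lit 0x1) (nat_lit 137)) (.one (nat_lit 0x1003004006007008010800c02e470c20870)) (.one (nat_lit 0x2000001006007008010200c04e810020611)))) (.br (Nat.shiftLeft (nat_lit 0x800001) (nat_lit 114)) (.br (Nat.shiftLeft (nat_lit 0x2000003) (nat_lit 112)) (.one (nat_lit 0x2000002006007008010400c04e810020611)) (.one (nat_lit 0x2000003006007008010600c04e810020611))) (.br (Nat.shiftLeft (nat_lit 0x2000005) (nat_lit 112)) (.one (nat_lit 0x2000004006007008010800c04e810020611)) (.one (nat_lit 0x2000005006007008010a00c04e810020611)))))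
def t169 : k169.all (jb2 57 fl b0) = true := by decide +kernel
noncomputable def k170 : KT := (.br (Nat.shiftLeft (nat_lit 0x3000005) (nat_lit 112)) (.br (Nat.shiftLeft (nat_lit 0x1800001) (nat_lit 113)) (.br (Nat.shiftLeft (nat_lit 0x3) (nat_lit 136)) (.one (nat_lit 0x2003004006007008010800c04e870c20870)) (.one (nat_lit 0x3000001006007008010200c06ec10020611))) (.br (Nat.shiftLeft (nat_lit 0x3000003) (nat_lit 112)) (.one (nat_lit 0x3000002006007008010400c06ec10020611)) (.br (Nat.shiftLeft (nat_lit 0xc00001) (nat_lit 114)) (.one (nat_lit 0x3000003006007008010600c06ec10020611)) (.one (nat_lit 0x3000004006007008010800c06ec10020611))))) (.br (Nat.shiftLeft (nat_lit 0x4000003) (nat_lit 112)) (.br (Nat.shiftLeft (nat_lit 0x1) (nat_lit 138)) (.one (nat_lit 0x3000005006007008010a00c06ec10020611)) (.br (Nat.shiftLeft (nat_lit 0x2000001) (nat_lit 113)) (.one (nat_lit 0x4000001006007008010200c08f010020611)) (.one (nat_lit 0x4000002006007008010400c08f010020611)))) (.br (Nat.shiftLeft (nat_lit 0x1000001) (nat_lit 114))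 (.one (nat_lit 0x4000003006007008010600c08f010020611)) (.br (Nat.shiftLeft (nat_lit 0x4000005) (nat_lit 112)) (.one (nat_lit 0x4000004006007008010800c08f010020611)) (.one (nat_lit 0x4000005006007008010a00c08f010020611))))))
def t170 : k170.all (jb2 57 fl b0) = true := by decide +kernel
noncomputable def k171 : KT := (.br (Nat.shiftLeft (nat_lit 0x2800001) (nat_lit 113)) (.one (nat_lit 0x5000001006007008010200c0af410020611)) (.br (Nat.shiftLeft (nat_lit 0x5000003) (nat_lit 112)) (.one (nat_lit 0x5000002006007008010400c0af410020611)) (.one (nat_lit 0x5000003006007008010600c0af410020611))))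
def t171 : k171.all (jb2 57 fl b0) = true := by decide +kernel
noncomputable def k172 : KT := (.br (Nat.shiftLeft (nat_lit 0x5000005) (nat_lit 112)) (.one (nat_lit 0x5000004006007008010800c0af410020611)) (.br (Nat.shiftLeft (nat_lit 0x3) (nat_lit 137)) (.one (nat_lit 0x5000005006007008010a00c0af410020611)) (.one (nat_lit 0x6000001006007008010200c0cf810020611))))
def t172 : k172.all (jb2 57 fl b0) = true := by decide +kernel
noncomputable def k173 : KT := (.br (Nat.shiftLeft (nat_lit 0x6000003) (nat_lit 112)) (.one (nat_lit 0x6000002006007008010400c0cf810020611)) (.one (nat_lit 0x6000003006007008010600c0cf810020611)))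
def t173 : k173.all (jb2 57 fl b0) = true := by decide +kernel
noncomputable def k174 : KT := (.br (Nat.shiftLeft (nat_lit 0x6000005) (nat_lit 112)) (.one (nat_lit 0x6000004006007008010800c0cf810020611)) (.one (nat_lit 0x6000005006007008010a00c0cf810020611)))
def t174 : k174.all (jb2 57 fl b0) = true := by decide +kernel
noncomputable def k175 : KT := (.one (nat_lit 0x7000001006007008010200c0efc10020611))
def t175 : k175.all (jb2 57 fl b0) = true := by decide +kernel
noncomputable def k176 : KT := (.br (Nat.shiftLeft (nat_lit 0x7000003) (nat_lit 112)) (.one (nat_lit 0x7000002006007008010400c0efc10020611)) (.one (nat_lit 0x7000003006007008010600c0efc10020611)))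
def t176 : k176.all (jb2 57 fl b0) = true := by decide +kernel
noncomputable def k177 : KT := (.br (Nat.shiftLeft (nat_lit 0x7000005) (nat_lit 112)) (.one (nat_lit 0x7000004006007008010800c0efc10020611)) (.br (Nat.shiftLeft (nat_lit 0x1) (nat_lit 139)) (.one (nat_lit 0x7000005006007008010a00c0efc10020611)) (.one (nat_lit 0x8000001006007008010200c110010020611))))
def t177 : k177.all (jb2 57 fl b0) = true := by decide +kernel
noncomputable def k178 : KT := (.br (Nat.shiftLeft (nat_lit 0x1) (nat_lit 149)) (.br (Nat.shiftLeft (nat_lit 0x1) (nat_lit 148)) (.br (Nat.shiftLeft (nat_lit 0x2000001) (nat_lit 114)) (.br (Nat.shiftLeft (nat_lit 0x8000003) (nat_lit 112)) (.one (nat_lit 0x8000002006007008010400c110010020611)) (.one (nat_lit 0x8000003006007008010600c110010020611))) (.br (Nat.shiftLeft (nat_lit 0x8000005) (nat_lit 112)) (.one (nat_lit 0x8000004006007008010800c110010020611)) (.one (nat_lit 0x8000005006007008010a00c110010020611)))) (.br (Nat.shiftLeft (nat_lit 0x800001) (nat_lit 125)) (.br (Nat.shiftLeft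 (nat_lit 0x1000001003) (nat_lit 112)) (.one (nat_lit 0x1000001002006007008010402c40e030420711)) (.one (nat_lit 0x1000001003006007008010602c40e030420711))) (.br (Nat.shiftLeft (nat_lit 0x400000801) (nat_lit 114)) (.one (nat_lit 0x1000002003006007008010602c40e050820711)) (.br (Nat.shiftLeft (nat_lit 0x1000003) (nat_lit 124)) (.one (nat_lit 0x1000002004006007008010802c40e050820711)) (.one (nat_lit 0x1000003004006007008010802c40e070c20711)))))) (.br (Nat.shiftLeft (nat_lit 0x3) (nat_lit 148)) (.br (Nat.shiftLeft (nat_lit 0x1000001) (nat_lit 125)) (.br (Nat.shiftLeft (nat_lit 0x2000001003) (nat_lit 112)) (.one (nat_lit 0x2000001002006007008010404c80e030420711)) (.one (nat_lit 0x2000001003006007008010604c80e030420711))) (.br (Nat.shiftLeft (nat_lit 0x800000801) (nat_lit 114)) (.one (nat_lit 0x2000002003006007008010604c80e050820711)) (.br (Nat.shiftLeft (nat_lit 0x2000003) (nat_lit 124)) (.one (nat_lit 0x2000002004006007008010804c80e050820711)) (.one (nat_lit 0x2000003004006007008010804c80e070c20711))))) (.br (Nat.shiftLeft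 (nat_lit 0x1800001) (nat_lit 125)) (.br (Nat.shiftLeft (nat_lit 0x3000001003) (nat_lit 112)) (.one (nat_lit 0x3000001002006007008010406cc0e030420711)) (.one (nat_lit 0x3000001003006007008010606cc0e030420711))) (.br (Nat.shiftLeft (nat_lit 0xc00000801) (nat_lit 114)) (.one (nat_lit 0x3000002003006007008010606cc0e050820711)) (.br (Nat.shiftLeft (nat_lit 0x3000003) (nat_lit 124)) (.one (nat_lit 0x3000002004006007008010806cc0e050820711)) (.one (nat_lit 0x3000003004006007008010806cc0e070c20711)))))))
def t178 : k178.all (jb2 57 fl b0) = true := by decide +kernel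
noncomputable def k179 : KT := (.br (Nat.shiftLeft (nat_lit 0x1000000801) (nat_lit 114)) (.br (Nat.shiftLeft (nat_lit 0x4000001003) (nat_lit 112)) (.one (nat_lit 0x4000001002006007008010408d00e030420711)) (.br (Nat.shiftLeft (nat_lit 0x2000001) (nat_lit 125)) (.one (nat_lit 0x4000001003006007008010608d00e030420711)) (.one (nat_lit 0x4000002003006007008010608d00e050820711)))) (.br (Nat.shiftLeft (nat_lit 0x4000003) (nat_lit 124)) (.one (nat_lit 0x4000002004006007008010808d00e050820711)) (.br (Nat.shiftLeft (nat_lit 0x5) (nat_lit 148)) (.one (nat_lit 0x4000003004006007008010808d00e070c20711)) (.one (nat_lit 0x500000100200600700801040ad40e030420711)))))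
def t179 : k179.all (jb2 57 fl b0) = true := by decide +kernel
noncomputable def k180 : KT := (.br (Nat.shiftLeft (nat_lit 0x1400000801) (nat_lit 114)) (.br (Nat.shiftLeft (nat_lit 0x2800001) (nat_lit 125)) (.one (nat_lit 0x500000100300600700801060ad40e030420711)) (.one (nat_lit 0x500000200300600700801060ad40e050820711))) (.br (Nat.shiftLeft (nat_lit 0x5000003) (nat_lit 124)) (.one (nat_lit 0x500000200400600700801080ad40e050820711)) (.one (nat_lit 0x500000300400600700801080ad40e070c20711))))
def t180 : k180.all (jb2 57 fl b0) = true := by decide +kernel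
noncomputable def k181 : KT := (.br (Nat.shiftLeft (nat_lit 0x6000001003) (nat_lit 112)) (.one (nat_lit 0x600000100200600700801040cd80e030420711)) (.br (Nat.shiftLeft (nat_lit 0x3000001) (nat_lit 125)) (.one (nat_lit 0x600000100300600700801060cd80e030420711)) (.one (nat_lit 0x600000200300600700801060cd80e050820711))))
def t181 : k181.all (jb2 57 fl b0) = true := by decide +kernel
noncomputable def k182 : KT := (.br (Nat.shiftLeft (nat_lit 0x7) (nat_lit 148)) (.br (Nat.shiftLeft (nat_lit 0x6000003) (nat_lit 124)) (.one (nat_lit 0x600000200400600700801080cd80e050820711)) (.one (nat_lit 0x600000300400600700801080cd80e070c20711))) (.br (Nat.shiftLeft (nat_lit 0x7000001003) (nat_lit 112)) (.one (nat_lit 0x700000100200600700801040edc0e030420711)) (.one (nat_lit 0x700000100300600700801060edc0e030420711))))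
def t182 : k182.all (jb2 57 fl b0) = true := by decide +kernel
noncomputable def k183 : KT := (.br (Nat.shiftLeft (nat_lit 0x8000001003) (nat_lit 112)) (.br (Nat.shiftLeft (nat_lit 0x7000003) (nat_lit 124)) (.br (Nat.shiftLeft (nat_lit 0x1c00000801) (nat_lit 114)) (.one (nat_lit 0x700000200300600700801060edc0e050820711)) (.one (nat_lit 0x700000200400600700801080edc0e050820711))) (.br (Nat.shiftLeft (nat_lit 0x1) (nat_lit 151)) (.one (nat_lit 0x700000300400600700801080edc0e070c20711)) (.one (nat_lit 0x8000001002006007008010410e00e030420711)))) (.br (Nat.shiftLeft (nat_lit 0x2000000801) (nat_lit 114)) (.br (Nat.shiftLeft (nat_lit 0x4000001) (nat_lit 125)) (.one (nat_lit 0x8000001003006007008010610e00e030420711)) (.one (nat_lit 0x8000002003006007008010610e00e050820711))) (.br (Nat.shiftLeft (nat_lit 0x8000003) (nat_lit 124)) (.one (nat_lit 0x8000002004006007008010810e00e050820711)) (.one (nat_lit 0x8000003004006007008010810e00e070c20711)))))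
def t183 : k183.all (jb2 57 fl b0) = true := by decide +kernel
noncomputable def s10 : KT := (.br (nat_lit 0x5000003006007008010600c0af410020611) (.br (nat_lit 0x5000006007008010000c00e0b1420511) (.br (nat_lit 0x2004006007008010800c00e050821700) (.br (nat_lit 0x1004006007008010800c00e030420760) k161 k162) (.br (nat_lit 0x3004006007008010800c00e070c21700) k163 (.br (nat_lit 0x4000006007008010000c00e091020511) k164 k165))) (.br (nat_lit 0x1002003006007008010600c02e450820870) (.br (nat_lit 0x7000006007008010000c00e0f1c20511) k166 (.br (nat_lit 0x1000005006007008010a00c02e410020611) k167 k168)) (.br (nat_lit 0x2000005006007008010a00c04e810020611) k169 (.br (nat_lit 0x4000005006007008010a00c08f010020611) k170 k171)))) (.br (nat_lit 0x8000001006007008010200c110010020611) (.br (nat_lit 0x6000005006007008010a00c0cf810020611) (.br (nat_lit 0x6000001006007008010200c0cf810020611) k172 (.br (nat_lit 0x6000003006007008010600c0cf810020611) k173 k174)) (.br (nat_lit 0x7000001006007008010200c0efc10020611) k175 (.br (nat_lit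 0x7000003006007008010600c0efc10020611) k176 k177))) (.br (nat_lit 0x500000300400600700801080ad40e070c20711) (.br (nat_lit 0x3000003004006007008010806cc0e070c20711) k178 (.br (nat_lit 0x500000100200600700801040ad40e030420711) k179 k180)) (.br (nat_lit 0x600000200300600700801060cd80e050820711) k181 (.br (nat_lit 0x700000100300600700801060edc0e030420711) k182 k183)))))
noncomputable def u10 : KT := (.br (Nat.shiftLeft (nat_lit 0x6000011) (nat_lit 76)) (.br (Nat.shiftLeft (nat_lit 0x600001) (nat_lit 80)) (.br (Nat.shiftLeft (nat_lit 0x1800003c05) (nat_lit 66)) (.br (Nat.shiftLeft (nat_lit 0x600000f013) (nat_lit 64)) (.one (nat_lit 0x600000f012000c00001e024311)) (.one (nat_lit 0x600000f013000c00001e026311))) (.br (Nat.shiftLeft (nat_lit 0x600000f015) (nat_lit 64)) (.one (nat_lit 0x600000f014000c00001e028311)) (.one (nat_lit 0x600000f015000c00001e02a311)))) (.br (Nat.shiftLeft (nat_lit 0x6000010013) (nat_lit 64)) (.br (Nat.shiftLeft (nat_lit 0x3000008009) (nat_lit 65)) (.one (nat_lit 0x6000010011000c000020022311))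 (.one (nat_lit 0x6000010012000c000020024311))) (.br (Nat.shiftLeft (nat_lit 0x1800004005) (nat_lit 66)) (.one (nat_lit 0x6000010013000c000020026311)) (.one (nat_lit 0x6000010014000c000020028311))))) (.br (Nat.shiftLeft (nat_lit 0x600700800d) (nat_lit 64)) (.br (Nat.shiftLeft (nat_lit 0x1801) (nat_lit 90)) (.br (Nat.shiftLeft (nat_lit 0x6000011013) (nat_lit 64)) (.one (nat_lit 0x6000011012000c000022024311)) (.one (nat_lit 0x6000011013000c000022026311))) (.br (Nat.shiftLeft (nat_lit 0x1801c02003) (nat_lit 66)) (.one (nat_lit 0x600700800b000c00e010017500)) (.one (nat_lit 0x600700800c000c00e010019500)))) (.br (Nat.shiftLeft (nat_lit 0x600700800f) (nat_lit 64)) (.br (Nat.shiftLeft (nat_lit 0x3003804007) (nat_lit 65)) (.one (nat_lit 0x600700800d000c00e01001b500)) (.one (nat_lit 0x600700800e000c00e01001d500))) (.br (Nat.shiftLeft (nat_lit 0x600700801) (nat_lit 68)) (.one (nat_lit 0x600700800f000c00e01001f500)) (.one (nat_lit 0x6007008010000c00e010020540))))))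
def w10 : u10.all (wj 57 s10) = true := by decide +kernel
def o10 : OkW 57 (jb2 57 fl) u10 := .lift s10 _ (.br _ _ _ (.br _ _ _ (.br _ _ _ (.br _ _ _ (.leaf b0 k161 t161) (.leaf b0 k162 t162)) (.br _ _ _ (.leaf b0 k163 t163) (.br _ _ _ (.leaf b0 k164 t164) (.leaf b0 k165 t165)))) (.br _ _ _ (.br _ _ _ (.leaf b0 k166 t166) (.br _ _ _ (.leaf b0 k167 t167) (.leaf b0 k168 t168))) (.br _ _ _ (.leaf b0 k169 t169) (.br _ _ _ (.leaf b0 k170 t170) (.leaf b0 k171 t171))))) (.br _ _ _ (.br _ _ _ (.br _ _ _ (.leaf b0 k172 t172) (.br _ _ _ (.leaf b0 k173 t173) (.leaf b0 k174 t174))) (.br _ _ _ (.leaf b0 k175 t175) (.br _ _ _ (.leaf b0 k176 t176) (.leaf b0 k177 t177)))) (.br _ _ _ (.br _ _ _ (.leaf b0 k178 t178) (.br _ _ _ (.leaf b0 k179 t179) (.leaf b0 k180 t180))) (.br _ _ _ (.leaf b0 k181 t181) (.br _ _ _ (.leaf b0 k182 t182) (.leaf b0 k183 t183)))))) w10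
noncomputable def k184 : KT := (.br (Nat.shiftLeft (nat_lit 0x1) (nat_lit 114)) (.br (Nat.shiftLeft (nat_lit 0x1) (nat_lit 113)) (.br (Nat.shiftLeft (nat_lit 0x1) (nat_lit 112)) (.one (nat_lit 0x6007008011000c00e010023500)) (.one (nat_lit 0x1006007008011200c00e010023600))) (.br (Nat.shiftLeft (nat_lit 0x3) (nat_lit 112)) (.one (nat_lit 0x2006007008011400c00e010023600)) (.one (nat_lit 0x3006007008011600c00e010023600)))) (.br (Nat.shiftLeft (nat_lit 0x1) (nat_lit 124)) (.br (Nat.shiftLeft (nat_lit 0x5) (nat_lit 112)) (.one (nat_lit 0x4006007008011800c00e010023600)) (.one (nat_lit 0x5006007008011a00c00e010023600))) (.br (Nat.shiftLeft (nat_lit 0x801) (nat_lit 113)) (.one (nat_lit 0x1000006007008011000c00e030422511)) (.br (Nat.shiftLeft (nat_lit 0x1003) (nat_lit 112)) (.one (nat_lit 0x1002006007008011400c00e030423700)) (.one (nat_lit 0x1003006007008011600c00e030422760))))))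
def t184 : k184.all (jb2 57 fl b0) = true := by decide +kernel
noncomputable def k185 : KT := (.br (Nat.shiftLeft (nat_lit 0x1) (nat_lit 125)) (.br (Nat.shiftLeft (nat_lit 0x1005) (nat_lit 112)) (.one (nat_lit 0x1004006007008011800c00e030422760)) (.one (nat_lit 0x1005006007008011a00c00e030422760))) (.br (Nat.shiftLeft (nat_lit 0x1001) (nat_lit 113)) (.one (nat_lit 0x2000006007008011000c00e050822511)) (.one (nat_lit 0x2003006007008011600c00e050823700))))
def t185 : k185.all (jb2 57 fl b0) = true := by decide +kernel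
noncomputable def k186 : KT := (.one (nat_lit 0x2004006007008011800c00e050822760))
def t186 : k186.all (jb2 57 fl b0) = true := by decide +kernel
noncomputable def k187 : KT := (.br (Nat.shiftLeft (nat_lit 0x3) (nat_lit 124)) (.one (nat_lit 0x2005006007008011a00c00e050822760)) (.one (nat_lit 0x3000006007008011000c00e070c22511)))
def t187 : k187.all (jb2 57 fl b0) = true := by decide +kernel
noncomputable def k188 : KT := (.one (nat_lit 0x3004006007008011800c00e070c22760))
def t188 : k188.all (jb2 57 fl b0) = true := by decide +kernel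
noncomputable def k189 : KT := (.br (Nat.shiftLeft (nat_lit 0x1) (nat_lit 126)) (.one (nat_lit 0x3005006007008011a00c00e070c22760)) (.one (nat_lit 0x4000006007008011000c00e091022511)))
def t189 : k189.all (jb2 57 fl b0) = true := by decide +kernel
noncomputable def k190 : KT := (.br (Nat.shiftLeft (nat_lit 0x5) (nat_lit 124)) (.one (nat_lit 0x4005006007008011a00c00e091022760)) (.br (Nat.shiftLeft (nat_lit 0x3) (nat_lit 125)) (.one (nat_lit 0x5000006007008011000c00e0b1422511)) (.one (nat_lit 0x6000006007008011000c00e0d1822511))))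
def t190 : k190.all (jb2 57 fl b0) = true := by decide +kernel
noncomputable def k191 : KT := (.br (Nat.shiftLeft (nat_lit 0x800001) (nat_lit 113)) (.br (Nat.shiftLeft (nat_lit 0x1) (nat_lit 127)) (.one (nat_lit 0x7000006007008011000c00e0f1c22511)) (.br (Nat.shiftLeft (nat_lit 0x1) (nat_lit 136)) (.one (nat_lit 0x8000006007008011000c00e112022511)) (.one (nat_lit 0x1000001006007008011200c02e410022611)))) (.br (Nat.shiftLeft (nat_lit 0x400001) (nat_lit 114)) (.br (Nat.shiftLeft (nat_lit 0x1000003) (nat_lit 112)) (.one (nat_lit 0x1000002006007008011400c02e410022611)) (.one (nat_lit 0x1000003006007008011600c02e410022611))) (.br (Nat.shiftLeft (nat_lit 0x1000005) (nat_lit 112)) (.one (nat_lit 0x1000004006007008011800c02e410022611)) (.one (nat_lit 0x1000005006007008011a00c02e410022611)))))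
def t191 : k191.all (jb2 57 fl b0) = true := by decide +kernel
noncomputable def k192 : KT := (.br (Nat.shiftLeft (nat_lit 0x1800001) (nat_lit 113)) (.br (Nat.shiftLeft (nat_lit 0x2000003) (nat_lit 112)) (.br (Nat.shiftLeft (nat_lit 0x1) (nat_lit 137)) (.one (nat_lit 0x1002003006007008011600c02e450822870)) (.br (Nat.shiftLeft (nat_lit 0x1000001) (nat_lit 113)) (.one (nat_lit 0x2000001006007008011200c04e810022611)) (.one (nat_lit 0x2000002006007008011400c04e810022611)))) (.br (Nat.shiftLeft (nat_lit 0x2000005) (nat_lit 112)) (.br (Nat.shiftLeft (nat_lit 0x800001) (nat_lit 114)) (.one (nat_lit 0x2000003006007008011600c04e810022611)) (.one (nat_lit 0x2000004006007008011800c04e810022611))) (.br (Nat.shiftLeft (nat_lit 0x3) (nat_lit 136)) (.one (nat_lit 0x2000005006007008011a00c04e810022611)) (.one (nat_lit 0x3000001006007008011200c06ec10022611))))) (.br (Nat.shiftLeft (nat_lit 0x1) (nat_lit 138)) (.br (Nat.shiftLeft (nat_lit 0xc00001) (nat_lit 114)) (.br (Nat.shiftLeft (nat_lit 0x3000003) (nat_lit 112)) (.one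 (nat_lit 0x3000002006007008011400c06ec10022611)) (.one (nat_lit 0x3000003006007008011600c06ec10022611))) (.br (Nat.shiftLeft (nat_lit 0x3000005) (nat_lit 112)) (.one (nat_lit 0x3000004006007008011800c06ec10022611)) (.one (nat_lit 0x3000005006007008011a00c06ec10022611)))) (.br (Nat.shiftLeft (nat_lit 0x4000003) (nat_lit 112)) (.br (Nat.shiftLeft (nat_lit 0x2000001) (nat_lit 113)) (.one (nat_lit 0x4000001006007008011200c08f010022611)) (.one (nat_lit 0x4000002006007008011400c08f010022611))) (.br (Nat.shiftLeft (nat_lit 0x1000001) (nat_lit 114)) (.one (nat_lit 0x4000003006007008011600c08f010022611)) (.one (nat_lit 0x4000004006007008011800c08f010022611))))))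
def t192 : k192.all (jb2 57 fl b0) = true := by decide +kernel
noncomputable def k193 : KT := (.br (Nat.shiftLeft (nat_lit 0x2800001) (nat_lit 113)) (.br (Nat.shiftLeft (nat_lit 0x5) (nat_lit 136)) (.one (nat_lit 0x4000005006007008011a00c08f010022611)) (.one (nat_lit 0x5000001006007008011200c0af410022611))) (.br (Nat.shiftLeft (nat_lit 0x5000003) (nat_lit 112)) (.one (nat_lit 0x5000002006007008011400c0af410022611)) (.one (nat_lit 0x5000003006007008011600c0af410022611))))
def t193 : k193.all (jb2 57 fl b0) = true := by decide +kernel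
noncomputable def k194 : KT := (.br (Nat.shiftLeft (nat_lit 0x5000005) (nat_lit 112)) (.one (nat_lit 0x5000004006007008011800c0af410022611)) (.br (Nat.shiftLeft (nat_lit 0x3) (nat_lit 137)) (.one (nat_lit 0x5000005006007008011a00c0af410022611)) (.one (nat_lit 0x6000001006007008011200c0cf810022611))))
def t194 : k194.all (jb2 57 fl b0) = true := by decide +kernel
noncomputable def k195 : KT := (.br (Nat.shiftLeft (nat_lit 0x1800001) (nat_lit 114)) (.br (Nat.shiftLeft (nat_lit 0x6000003) (nat_lit 112)) (.one (nat_lit 0x6000002006007008011400c0cf810022611)) (.one (nat_lit 0x6000003006007008011600c0cf810022611))) (.br (Nat.shiftLeft (nat_lit 0x6000005) (nat_lit 112)) (.one (nat_lit 0x6000004006007008011800c0cf810022611)) (.one (nat_lit 0x6000005006007008011a00c0cf810022611))))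
def t195 : k195.all (jb2 57 fl b0) = true := by decide +kernel
noncomputable def k196 : KT := (.br (Nat.shiftLeft (nat_lit 0x3800001) (nat_lit 113)) (.one (nat_lit 0x7000001006007008011200c0efc10022611)) (.br (Nat.shiftLeft (nat_lit 0x7000003) (nat_lit 112)) (.one (nat_lit 0x7000002006007008011400c0efc10022611)) (.one (nat_lit 0x7000003006007008011600c0efc10022611))))
def t196 : k196.all (jb2 57 fl b0) = true := by decide +kernel
noncomputable def k197 : KT := (.br (Nat.shiftLeft (nat_lit 0x4000001) (nat_lit 113)) (.br (Nat.shiftLeft (nat_lit 0x7000005) (nat_lit 112)) (.one (nat_lit 0x7000004006007008011800c0efc10022611)) (.br (Nat.shiftLeft (nat_lit 0x1) (nat_lit 139)) (.one (nat_lit 0x7000005006007008011a00c0efc10022611)) (.one (nat_lit 0x8000001006007008011200c110010022611)))) (.br (Nat.shiftLeft (nat_lit 0x8000003) (nat_lit 112)) (.one (nat_lit 0x8000002006007008011400c110010022611)) (.br (Nat.shiftLeft (nat_lit 0x2000001) (nat_lit 114)) (.one (nat_lit 0x8000003006007008011600c110010022611)) (.one (nat_lit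 0x8000004006007008011800c110010022611)))))
def t197 : k197.all (jb2 57 fl b0) = true := by decide +kernel
noncomputable def k198 : KT := (.br (Nat.shiftLeft (nat_lit 0x3) (nat_lit 148)) (.br (Nat.shiftLeft (nat_lit 0x800001) (nat_lit 125)) (.br (Nat.shiftLeft (nat_lit 0x1) (nat_lit 148)) (.one (nat_lit 0x8000005006007008011a00c110010022611)) (.one (nat_lit 0x1000001002006007008011402c40e030422711))) (.br (Nat.shiftLeft (nat_lit 0x1) (nat_lit 149)) (.one (nat_lit 0x1000002003006007008011602c40e050822711)) (.br (Nat.shiftLeft (nat_lit 0x1000001) (nat_lit 125)) (.one (nat_lit 0x2000001002006007008011404c80e030422711)) (.one (nat_lit 0x2000002003006007008011604c80e050822711))))) (.br (Nat.shiftLeft (nat_lit 0x2000001) (nat_lit 125)) (.br (Nat.shiftLeft (nat_lit 0x1800001) (nat_lit 125)) (.one (nat_lit 0x3000001002006007008011406cc0e030422711)) (.br (Nat.shiftLeft (nat_lit 0x1) (nat_lit 150)) (.one (nat_lit 0x3000002003006007008011606cc0e050822711)) (.one (nat_lit 0x4000001002006007008011408d00e030422711))))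 (.br (Nat.shiftLeft (nat_lit 0x5) (nat_lit 148)) (.one (nat_lit 0x4000002003006007008011608d00e050822711)) (.br (Nat.shiftLeft (nat_lit 0x2800001) (nat_lit 125)) (.one (nat_lit 0x500000100200600700801140ad40e030422711)) (.one (nat_lit 0x500000200300600700801160ad40e050822711))))))
def t198 : k198.all (jb2 57 fl b0) = true := by decide +kernel
noncomputable def k199 : KT := (.br (Nat.shiftLeft (nat_lit 0x3800001) (nat_lit 125)) (.br (Nat.shiftLeft (nat_lit 0x3000001) (nat_lit 125)) (.one (nat_lit 0x600000100200600700801140cd80e030422711)) (.br (Nat.shiftLeft (nat_lit 0x7) (nat_lit 148)) (.one (nat_lit 0x600000200300600700801160cd80e050822711)) (.one (nat_lit 0x700000100200600700801140edc0e030422711)))) (.br (Nat.shiftLeft (nat_lit 0x1) (nat_lit 151)) (.one (nat_lit 0x700000200300600700801160edc0e050822711)) (.br (Nat.shiftLeft (nat_lit 0x4000001) (nat_lit 125)) (.one (nat_lit 0x8000001002006007008011410e00e030422711)) (.one (nat_lit 0x8000002003006007008011610e00e050822711)))))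
def t199 : k199.all (jb2 57 fl b0) = true := by decide +kernel
noncomputable def s11 : KT := (.br (nat_lit 0x1000005006007008011a00c02e410022611) (.br (nat_lit 0x3000006007008011000c00e070c22511) (.br (nat_lit 0x2003006007008011600c00e050823700) (.br (nat_lit 0x1003006007008011600c00e030422760) k184 k185) (.br (nat_lit 0x2004006007008011800c00e050822760) k186 k187)) (.br (nat_lit 0x4000006007008011000c00e091022511) (.br (nat_lit 0x3004006007008011800c00e070c22760) k188 k189) (.br (nat_lit 0x6000006007008011000c00e0d1822511) k190 k191))) (.br (nat_lit 0x6000005006007008011a00c0cf810022611) (.br (nat_lit 0x5000003006007008011600c0af410022611) (.br (nat_lit 0x4000004006007008011800c08f010022611) k192 k193) (.br (nat_lit 0x6000001006007008011200c0cf810022611) k194 k195)) (.br (nat_lit 0x8000004006007008011800c110010022611) (.br (nat_lit 0x7000003006007008011600c0efc10022611) k196 k197) (.br (nat_lit 0x500000200300600700801160ad40e050822711) k198 k199))))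
noncomputable def u11 : KT := (.one (nat_lit 0x6007008011000c00e010022540))
def w11 : u11.all (wj 57 s11) = true := by decide +kernel
def o11 : OkW 57 (jb2 57 fl) u11 := .lift s11 _ (.br _ _ _ (.br _ _ _ (.br _ _ _ (.br _ _ _ (.leaf b0 k184 t184) (.leaf b0 k185 t185)) (.br _ _ _ (.leaf b0 k186 t186) (.leaf b0 k187 t187))) (.br _ _ _ (.br _ _ _ (.leaf b0 k188 t188) (.leaf b0 k189 t189)) (.br _ _ _ (.leaf b0 k190 t190) (.leaf b0 k191 t191)))) (.br _ _ _ (.br _ _ _ (.br _ _ _ (.leaf b0 k192 t192) (.leaf b0 k193 t193)) (.br _ _ _ (.leaf b0 k194 t194) (.leaf b0 k195 t195))) (.br _ _ _ (.br _ _ _ (.leaf b0 k196 t196) (.leaf b0 k197 t197)) (.br _ _ _ (.leaf b0 k198 t198) (.leaf b0 k199 t199))))) w11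
noncomputable def k200 : KT := (.br (Nat.shiftLeft (nat_lit 0x3006007008013) (nat_lit 64)) (.br (Nat.shiftLeft (nat_lit 0x1006007008013) (nat_lit 64)) (.br (Nat.shiftLeft (nat_lit 0x6007008013) (nat_lit 64)) (.one (nat_lit 0x6007008012000c00e010025500)) (.br (Nat.shiftLeft (nat_lit 0x1) (nat_lit 112)) (.one (nat_lit 0x6007008013000c00e010027500)) (.one (nat_lit 0x1006007008012200c00e010025600)))) (.br (Nat.shiftLeft (nat_lit 0x2006007008013) (nat_lit 64)) (.br (Nat.shiftLeft (nat_lit 0x1) (nat_lit 113)) (.one (nat_lit 0x1006007008013200c00e010026650)) (.one (nat_lit 0x2006007008012400c00e010025600))) (.br (Nat.shiftLeft (nat_lit 0x3) (nat_lit 112)) (.one (nat_lit 0x2006007008013400c00e010027600)) (.one (nat_lit 0x3006007008012600c00e010025600))))) (.br (Nat.shiftLeft (nat_lit 0x5) (nat_lit 112)) (.br (Nat.shiftLeft (nat_lit 0x1) (nat_lit 114)) (.one (nat_lit 0x3006007008013600c00e010027600)) (.br (Nat.shiftLeft (nat_lit 0x4006007008013) (nat_lit 64)) (.one (nat_lit 0x4006007008012800c00e010025600)) (.one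 (nat_lit 0x4006007008013800c00e010027600)))) (.br (Nat.shiftLeft (nat_lit 0x1) (nat_lit 124)) (.br (Nat.shiftLeft (nat_lit 0x5006007008013) (nat_lit 64)) (.one (nat_lit 0x5006007008012a00c00e010025600)) (.one (nat_lit 0x5006007008013a00c00e010027600))) (.br (Nat.shiftLeft (nat_lit 0x1000006007008013) (nat_lit 64)) (.one (nat_lit 0x1000006007008012000c00e030424511)) (.one (nat_lit 0x1000006007008013000c00e030426511))))))
def t200 : k200.all (jb2 57 fl b0) = true := by decide +kernel
noncomputable def k201 : KT := (.one (nat_lit 0x1002006007008012400c00e030424760))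
def t201 : k201.all (jb2 57 fl b0) = true := by decide +kernel
noncomputable def k202 : KT := (.one (nat_lit 0x1002006007008013400c00e030426760))
def t202 : k202.all (jb2 57 fl b0) = true := by decide +kernel
noncomputable def k203 : KT := (.br (Nat.shiftLeft (nat_lit 0x1003006007008013) (nat_lit 64)) (.one (nat_lit 0x1003006007008012600c00e030424760)) (.one (nat_lit 0x1003006007008013600c00e030426760)))
def t203 : k203.all (jb2 57 fl b0) = true := by decide +kernel
noncomputable def k204 : KT := (.br (Nat.shiftLeft (nat_lit 0x1004006007008013) (nat_lit 64)) (.one (nat_lit 0x1004006007008012800c00e030424760)) (.br (Nat.shiftLeft (nat_lit 0x1005) (nat_lit 112)) (.one (nat_lit 0x1004006007008013800c00e030426760)) (.one (nat_lit 0x1005006007008012a00c00e030424760))))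
def t204 : k204.all (jb2 57 fl b0) = true := by decide +kernel
noncomputable def k205 : KT := (.br (Nat.shiftLeft (nat_lit 0x2000006007008013) (nat_lit 64)) (.br (Nat.shiftLeft (nat_lit 0x1) (nat_lit 125)) (.one (nat_lit 0x1005006007008013a00c00e030426760)) (.one (nat_lit 0x2000006007008012000c00e050824511))) (.br (Nat.shiftLeft (nat_lit 0x1001) (nat_lit 113)) (.one (nat_lit 0x2000006007008013000c00e050826511)) (.one (nat_lit 0x2003006007008012600c00e050824760))))
def t205 : k205.all (jb2 57 fl b0) = true := by decide +kernel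
noncomputable def k206 : KT := (.one (nat_lit 0x2003006007008013600c00e050826760))
def t206 : k206.all (jb2 57 fl b0) = true := by decide +kernel
noncomputable def k207 : KT := (.br (Nat.shiftLeft (nat_lit 0x2004006007008013) (nat_lit 64)) (.one (nat_lit 0x2004006007008012800c00e050824760)) (.one (nat_lit 0x2004006007008013800c00e050826760)))
def t207 : k207.all (jb2 57 fl b0) = true := by decide +kernel
noncomputable def k208 : KT := (.br (Nat.shiftLeft (nat_lit 0x3) (nat_lit 124)) (.br (Nat.shiftLeft (nat_lit 0x2005006007008013) (nat_lit 64)) (.one (nat_lit 0x2005006007008012a00c00e050824760)) (.one (nat_lit 0x2005006007008013a00c00e050826760))) (.br (Nat.shiftLeft (nat_lit 0x3000006007008013) (nat_lit 64)) (.one (nat_lit 0x3000006007008012000c00e070c24511)) (.one (nat_lit 0x3000006007008013000c00e070c26511))))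
def t208 : k208.all (jb2 57 fl b0) = true := by decide +kernel
noncomputable def k209 : KT := (.br (Nat.shiftLeft (nat_lit 0x3004006007008013) (nat_lit 64)) (.one (nat_lit 0x3004006007008012800c00e070c24760)) (.one (nat_lit 0x3004006007008013800c00e070c26760)))
def t209 : k209.all (jb2 57 fl b0) = true := by decide +kernel
noncomputable def k210 : KT := (.br (Nat.shiftLeft (nat_lit 0x1) (nat_lit 126)) (.br (Nat.shiftLeft (nat_lit 0x3005006007008013) (nat_lit 64)) (.one (nat_lit 0x3005006007008012a00c00e070c24760)) (.one (nat_lit 0x3005006007008013a00c00e070c26760))) (.br (Nat.shiftLeft (nat_lit 0x4000006007008013) (nat_lit 64)) (.one (nat_lit 0x4000006007008012000c00e091024511)) (.one (nat_lit 0x4000006007008013000c00e091026511))))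
def t210 : k210.all (jb2 57 fl b0) = true := by decide +kernel
noncomputable def k211 : KT := (.br (Nat.shiftLeft (nat_lit 0x5) (nat_lit 124)) (.br (Nat.shiftLeft (nat_lit 0x4005006007008013) (nat_lit 64)) (.one (nat_lit 0x4005006007008012a00c00e091024760)) (.one (nat_lit 0x4005006007008013a00c00e091026760))) (.br (Nat.shiftLeft (nat_lit 0x5000006007008013) (nat_lit 64)) (.one (nat_lit 0x5000006007008012000c00e0b1424511)) (.one (nat_lit 0x5000006007008013000c00e0b1426511))))
def t211 : k211.all (jb2 57 fl b0) = true := by decide +kernel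
noncomputable def k212 : KT := (.br (Nat.shiftLeft (nat_lit 0x7) (nat_lit 124)) (.br (Nat.shiftLeft (nat_lit 0x6000006007008013) (nat_lit 64)) (.one (nat_lit 0x6000006007008012000c00e0d1824511)) (.one (nat_lit 0x6000006007008013000c00e0d1826511))) (.br (Nat.shiftLeft (nat_lit 0x7000006007008013) (nat_lit 64)) (.one (nat_lit 0x7000006007008012000c00e0f1c24511)) (.one (nat_lit 0x7000006007008013000c00e0f1c26511))))
def t212 : k212.all (jb2 57 fl b0) = true := by decide +kernel
noncomputable def k213 : KT := (.br (Nat.shiftLeft (nat_lit 0x800001) (nat_lit 114)) (.br (Nat.shiftLeft (nat_lit 0x1000004006007008013) (nat_lit 64)) (.br (Nat.shiftLeft (nat_lit 0x1000002006007008013) (nat_lit 64)) (.br (Nat.shiftLeft (nat_lit 0x1) (nat_lit 136)) (.br (Nat.shiftLeft (nat_lit 0x8000006007008013) (nat_lit 64)) (.one (nat_lit 0x8000006007008012000c00e112024511)) (.one (nat_lit 0x8000006007008013000c00e112026511))) (.br (Nat.shiftLeft (nat_lit 0x800001) (nat_lit 113)) (.one (nat_lit 0x1000001006007008012200c02e410024611))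 (.one (nat_lit 0x1000002006007008012400c02e410024611)))) (.br (Nat.shiftLeft (nat_lit 0x1000003006007008013) (nat_lit 64)) (.br (Nat.shiftLeft (nat_lit 0x1000003) (nat_lit 112)) (.one (nat_lit 0x1000002006007008013400c02e410026611)) (.one (nat_lit 0x1000003006007008012600c02e410024611))) (.br (Nat.shiftLeft (nat_lit 0x400001) (nat_lit 114)) (.one (nat_lit 0x1000003006007008013600c02e410026611)) (.one (nat_lit 0x1000004006007008012800c02e410024611))))) (.br (Nat.shiftLeft (nat_lit 0x1000001) (nat_lit 113)) (.br (Nat.shiftLeft (nat_lit 0x1000005006007008013) (nat_lit 64)) (.br (Nat.shiftLeft (nat_lit 0x1000005) (nat_lit 112)) (.one (nat_lit 0x1000004006007008013800c02e410026611)) (.one (nat_lit 0x1000005006007008012a00c02e410024611))) (.br (Nat.shiftLeft (nat_lit 0x1) (nat_lit 137)) (.one (nat_lit 0x1000005006007008013a00c02e410026611)) (.one (nat_lit 0x2000001006007008012200c04e810024611)))) (.br (Nat.shiftLeft (nat_lit 0x2000003) (nat_lit 112)) (.br (Nat.shiftLeft (nat_lit 0x2000002006007008013) (nat_lit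 64)) (.one (nat_lit 0x2000002006007008012400c04e810024611)) (.one (nat_lit 0x2000002006007008013400c04e810026611))) (.br (Nat.shiftLeft (nat_lit 0x2000003006007008013) (nat_lit 64)) (.one (nat_lit 0x2000003006007008012600c04e810024611)) (.one (nat_lit 0x2000003006007008013600c04e810026611)))))) (.br (Nat.shiftLeft (nat_lit 0x3000003006007008013) (nat_lit 64)) (.br (Nat.shiftLeft (nat_lit 0x3) (nat_lit 136)) (.br (Nat.shiftLeft (nat_lit 0x2000005) (nat_lit 112)) (.br (Nat.shiftLeft (nat_lit 0x2000004006007008013) (nat_lit 64)) (.one (nat_lit 0x2000004006007008012800c04e810024611)) (.one (nat_lit 0x2000004006007008013800c04e810026611))) (.br (Nat.shiftLeft (nat_lit 0x2000005006007008013) (nat_lit 64)) (.one (nat_lit 0x2000005006007008012a00c04e810024611)) (.one (nat_lit 0x2000005006007008013a00c04e810026611)))) (.br (Nat.shiftLeft (nat_lit 0x3000002006007008013) (nat_lit 64)) (.br (Nat.shiftLeft (nat_lit 0x1800001) (nat_lit 113)) (.one (nat_lit 0x3000001006007008012200c06ec10024611)) (.one (nat_lit 0x3000002006007008012400c06ec10024611)))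 (.br (Nat.shiftLeft (nat_lit 0x3000003) (nat_lit 112)) (.one (nat_lit 0x3000002006007008013400c06ec10026611)) (.one (nat_lit 0x3000003006007008012600c06ec10024611))))) (.br (Nat.shiftLeft (nat_lit 0x3000005006007008013) (nat_lit 64)) (.br (Nat.shiftLeft (nat_lit 0x3000004006007008013) (nat_lit 64)) (.br (Nat.shiftLeft (nat_lit 0xc00001) (nat_lit 114)) (.one (nat_lit 0x3000003006007008013600c06ec10026611)) (.one (nat_lit 0x3000004006007008012800c06ec10024611))) (.br (Nat.shiftLeft (nat_lit 0x3000005) (nat_lit 112)) (.one (nat_lit 0x3000004006007008013800c06ec10026611)) (.one (nat_lit 0x3000005006007008012a00c06ec10024611)))) (.br (Nat.shiftLeft (nat_lit 0x2000001) (nat_lit 113)) (.br (Nat.shiftLeft (nat_lit 0x1) (nat_lit 138)) (.one (nat_lit 0x3000005006007008013a00c06ec10026611)) (.one (nat_lit 0x4000001006007008012200c08f010024611))) (.br (Nat.shiftLeft (nat_lit 0x4000002006007008013) (nat_lit 64)) (.one (nat_lit 0x4000002006007008012400c08f010024611)) (.one (nat_lit 0x4000002006007008013400c08f010026611)))))))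
def t213 : k213.all (jb2 57 fl b0) = true := by decide +kernel
noncomputable def k214 : KT := (.br (Nat.shiftLeft (nat_lit 0x4000005) (nat_lit 112)) (.br (Nat.shiftLeft (nat_lit 0x1000001) (nat_lit 114)) (.br (Nat.shiftLeft (nat_lit 0x4000003006007008013) (nat_lit 64)) (.one (nat_lit 0x4000003006007008012600c08f010024611)) (.one (nat_lit 0x4000003006007008013600c08f010026611))) (.br (Nat.shiftLeft (nat_lit 0x4000004006007008013) (nat_lit 64)) (.one (nat_lit 0x4000004006007008012800c08f010024611)) (.one (nat_lit 0x4000004006007008013800c08f010026611)))) (.br (Nat.shiftLeft (nat_lit 0x5) (nat_lit 136)) (.br (Nat.shiftLeft (nat_lit 0x4000005006007008013) (nat_lit 64)) (.one (nat_lit 0x4000005006007008012a00c08f010024611)) (.one (nat_lit 0x4000005006007008013a00c08f010026611))) (.br (Nat.shiftLeft (nat_lit 0x2800001) (nat_lit 113)) (.one (nat_lit 0x5000001006007008012200c0af410024611)) (.one (nat_lit 0x5000002006007008012400c0af410024611)))))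
def t214 : k214.all (jb2 57 fl b0) = true := by decide +kernel
noncomputable def k215 : KT := (.br (Nat.shiftLeft (nat_lit 0x1400001) (nat_lit 114)) (.br (Nat.shiftLeft (nat_lit 0x5000003) (nat_lit 112)) (.one (nat_lit 0x5000002006007008013400c0af410026611)) (.br (Nat.shiftLeft (nat_lit 0x5000003006007008013) (nat_lit 64)) (.one (nat_lit 0x5000003006007008012600c0af410024611)) (.one (nat_lit 0x5000003006007008013600c0af410026611)))) (.br (Nat.shiftLeft (nat_lit 0x5000005) (nat_lit 112)) (.br (Nat.shiftLeft (nat_lit 0x5000004006007008013) (nat_lit 64)) (.one (nat_lit 0x5000004006007008012800c0af410024611)) (.one (nat_lit 0x5000004006007008013800c0af410026611))) (.br (Nat.shiftLeft (nat_lit 0x5000005006007008013) (nat_lit 64)) (.one (nat_lit 0x5000005006007008012a00c0af410024611)) (.one (nat_lit 0x5000005006007008013a00c0af410026611)))))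
def t215 : k215.all (jb2 57 fl b0) = true := by decide +kernel
noncomputable def k216 : KT := (.br (Nat.shiftLeft (nat_lit 0x6000002006007008013) (nat_lit 64)) (.br (Nat.shiftLeft (nat_lit 0x3000001) (nat_lit 113)) (.one (nat_lit 0x6000001006007008012200c0cf810024611)) (.one (nat_lit 0x6000002006007008012400c0cf810024611))) (.br (Nat.shiftLeft (nat_lit 0x6000003) (nat_lit 112)) (.one (nat_lit 0x6000002006007008013400c0cf810026611)) (.br (Nat.shiftLeft (nat_lit 0x6000003006007008013) (nat_lit 64)) (.one (nat_lit 0x6000003006007008012600c0cf810024611)) (.one (nat_lit 0x6000003006007008013600c0cf810026611)))))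
def t216 : k216.all (jb2 57 fl b0) = true := by decide +kernel
noncomputable def k217 : KT := (.br (Nat.shiftLeft (nat_lit 0x6000005006007008013) (nat_lit 64)) (.br (Nat.shiftLeft (nat_lit 0x6000004006007008013) (nat_lit 64)) (.one (nat_lit 0x6000004006007008012800c0cf810024611)) (.br (Nat.shiftLeft (nat_lit 0x6000005) (nat_lit 112)) (.one (nat_lit 0x6000004006007008013800c0cf810026611)) (.one (nat_lit 0x6000005006007008012a00c0cf810024611)))) (.br (Nat.shiftLeft (nat_lit 0x3800001) (nat_lit 113)) (.br (Nat.shiftLeft (nat_lit 0x7) (nat_lit 136)) (.one (nat_lit 0x6000005006007008013a00c0cf810026611)) (.one (nat_lit 0x7000001006007008012200c0efc10024611))) (.br (Nat.shiftLeft (nat_lit 0x7000002006007008013) (nat_lit 64)) (.one (nat_lit 0x7000002006007008012400c0efc10024611)) (.one (nat_lit 0x7000002006007008013400c0efc10026611)))))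
def t217 : k217.all (jb2 57 fl b0) = true := by decide +kernel
noncomputable def k218 : KT := (.br (Nat.shiftLeft (nat_lit 0x7000005006007008013) (nat_lit 64)) (.br (Nat.shiftLeft (nat_lit 0x1c00001) (nat_lit 114)) (.br (Nat.shiftLeft (nat_lit 0x7000003006007008013) (nat_lit 64)) (.one (nat_lit 0x7000003006007008012600c0efc10024611)) (.one (nat_lit 0x7000003006007008013600c0efc10026611))) (.br (Nat.shiftLeft (nat_lit 0x7000004006007008013) (nat_lit 64)) (.one (nat_lit 0x7000004006007008012800c0efc10024611)) (.br (Nat.shiftLeft (nat_lit 0x7000005) (nat_lit 112)) (.one (nat_lit 0x7000004006007008013800c0efc10026611)) (.one (nat_lit 0x7000005006007008012a00c0efc10024611))))) (.br (Nat.shiftLeft (nat_lit 0x4000001) (nat_lit 113)) (.br (Nat.shiftLeft (nat_lit 0x1) (nat_lit 139)) (.one (nat_lit 0x7000005006007008013a00c0efc10026611)) (.one (nat_lit 0x8000001006007008012200c110010024611))) (.br (Nat.shiftLeft (nat_lit 0x8000002006007008013) (nat_lit 64)) (.one (nat_lit 0x8000002006007008012400c110010024611)) (.br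 (Nat.shiftLeft (nat_lit 0x8000003) (nat_lit 112)) (.one (nat_lit 0x8000002006007008013400c110010026611)) (.one (nat_lit 0x8000003006007008012600c110010024611))))))
def t218 : k218.all (jb2 57 fl b0) = true := by decide +kernel
noncomputable def k219 : KT := (.br (Nat.shiftLeft (nat_lit 0x8000004006007008013) (nat_lit 64)) (.br (Nat.shiftLeft (nat_lit 0x2000001) (nat_lit 114)) (.one (nat_lit 0x8000003006007008013600c110010026611)) (.one (nat_lit 0x8000004006007008012800c110010024611))) (.br (Nat.shiftLeft (nat_lit 0x8000005) (nat_lit 112)) (.one (nat_lit 0x8000004006007008013800c110010026611)) (.br (Nat.shiftLeft (nat_lit 0x8000005006007008013) (nat_lit 64)) (.one (nat_lit 0x8000005006007008012a00c110010024611)) (.one (nat_lit 0x8000005006007008013a00c110010026611)))))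
def t219 : k219.all (jb2 57 fl b0) = true := by decide +kernel
noncomputable def s12 : KT := (.br (nat_lit 0x3004006007008013800c00e070c26760) (.br (nat_lit 0x1005006007008012a00c00e030424760) (.br (nat_lit 0x1002006007008012400c00e030424760) (.br (nat_lit 0x1000006007008013000c00e030426511) k200 k201) (.br (nat_lit 0x1002006007008013400c00e030426760) k202 (.br (nat_lit 0x1003006007008013600c00e030426760) k203 k204))) (.br (nat_lit 0x2003006007008013600c00e050826760) (.br (nat_lit 0x2003006007008012600c00e050824760) k205 k206) (.br (nat_lit 0x2004006007008013800c00e050826760) k207 (.br (nat_lit 0x3000006007008013000c00e070c26511) k208 k209)))) (.br (nat_lit 0x5000002006007008012400c0af410024611) (.br (nat_lit 0x5000006007008013000c00e0b1426511) (.br (nat_lit 0x4000006007008013000c00e091026511) k210 k211) (.br (nat_lit 0x7000006007008013000c00e0f1c26511) k212 (.br (nat_lit 0x4000002006007008013400c08f010026611) k213 k214))) (.br (nat_lit 0x6000003006007008013600c0cf810026611) (.br (nat_lit 0x5000005006007008013a00c0af410026611)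 k215 k216) (.br (nat_lit 0x7000002006007008013400c0efc10026611) k217 (.br (nat_lit 0x8000003006007008012600c110010024611) k218 k219)))))
noncomputable def u12 : KT := (.br (Nat.shiftLeft (nat_lit 0x6007008013) (nat_lit 64)) (.one (nat_lit 0x6007008012000c00e010024540)) (.one (nat_lit 0x6007008013000c00e010026540)))
def w12 : u12.all (wj 57 s12) = true := by decide +kernel
def o12 : OkW 57 (jb2 57 fl) u12 := .lift s12 _ (.br _ _ _ (.br _ _ _ (.br _ _ _ (.br _ _ _ (.leaf b0 k200 t200) (.leaf b0 k201 t201)) (.br _ _ _ (.leaf b0 k202 t202) (.br _ _ _ (.leaf b0 k203 t203) (.leaf b0 k204 t204)))) (.br _ _ _ (.br _ _ _ (.leaf b0 k205 t205) (.leaf b0 k206 t206)) (.br _ _ _ (.leaf b0 k207 t207) (.br _ _ _ (.leaf b0 k208 t208) (.leaf b0 k209 t209))))) (.br _ _ _ (.br _ _ _ (.br _ _ _ (.leaf b0 k210 t210) (.leaf b0 k211 t211)) (.br _ _ _ (.leaf b0 k212 t212) (.br _ _ _ (.leaf b0 k213 t213) (.leaf b0 k214 t214)))) (.br _ _ _ (.br _ _ _ (.leaf b0 k215 t215) (.leaf b0 k216 t216)) (.br _ _ _ (.leaf b0 k217 t217) (.br _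 _ _ (.leaf b0 k218 t218) (.leaf b0 k219 t219)))))) w12
noncomputable def k220 : KT := (.br (Nat.shiftLeft (nat_lit 0x600700900d) (nat_lit 64)) (.br (Nat.shiftLeft (nat_lit 0x600700900b) (nat_lit 64)) (.br (Nat.shiftLeft (nat_lit 0x6007009) (nat_lit 76)) (.one (nat_lit 0x6007008014000c00e010029500)) (.one (nat_lit 0x600700900a000c00e012015500))) (.br (Nat.shiftLeft (nat_lit 0x1801c02403) (nat_lit 66)) (.one (nat_lit 0x600700900b000c00e012017500)) (.one (nat_lit 0x600700900c000c00e012019500)))) (.br (Nat.shiftLeft (nat_lit 0x600700900f) (nat_lit 64)) (.br (Nat.shiftLeft (nat_lit 0x3003804807) (nat_lit 65)) (.one (nat_lit 0x600700900d000c00e01201b500)) (.one (nat_lit 0x600700900e000c00e01201d500))) (.br (Nat.shiftLeft (nat_lit 0x1) (nat_lit 112)) (.one (nat_lit 0x600700900f000c00e01201f500)) (.one (nat_lit 0x1006007008014200c00e010028650)))))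
def t220 : k220.all (jb2 57 fl b0) = true := by decide +kernel
noncomputable def k221 : KT := (.br (Nat.shiftLeft (nat_lit 0x3) (nat_lit 112)) (.one (nat_lit 0x2006007008014400c00e010028650)) (.br (Nat.shiftLeft (nat_lit 0x1) (nat_lit 114)) (.one (nat_lit 0x3006007008014600c00e010029600)) (.one (nat_lit 0x4006007008014800c00e010029600))))
def t221 : k221.all (jb2 57 fl b0) = true := by decide +kernel
noncomputable def k222 : KT := (.br (Nat.shiftLeft (nat_lit 0x1) (nat_lit 124)) (.one (nat_lit 0x5006007008014a00c00e010028650)) (.one (nat_lit 0x1000006007008014000c00e030428511)))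
def t222 : k222.all (jb2 57 fl b0) = true := by decide +kernel
noncomputable def k223 : KT := (.br (Nat.shiftLeft (nat_lit 0x1) (nat_lit 125)) (.br (Nat.shiftLeft (nat_lit 0x401) (nat_lit 114)) (.one (nat_lit 0x1003006007008014600c00e030428760)) (.one (nat_lit 0x1004006007008014800c00e030428760))) (.br (Nat.shiftLeft (nat_lit 0x1001) (nat_lit 113)) (.one (nat_lit 0x2000006007008014000c00e050828511)) (.one (nat_lit 0x2003006007008014600c00e050828760))))
def t223 : k223.all (jb2 57 fl b0) = true := by decide +kernel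
noncomputable def k224 : KT := (.br (Nat.shiftLeft (nat_lit 0x1) (nat_lit 126)) (.br (Nat.shiftLeft (nat_lit 0x3) (nat_lit 124)) (.one (nat_lit 0x2004006007008014800c00e050828760)) (.br (Nat.shiftLeft (nat_lit 0xc01) (nat_lit 114)) (.one (nat_lit 0x3000006007008014000c00e070c28511)) (.one (nat_lit 0x3004006007008014800c00e070c28760)))) (.br (Nat.shiftLeft (nat_lit 0x5) (nat_lit 124)) (.one (nat_lit 0x4000006007008014000c00e091028511)) (.br (Nat.shiftLeft (nat_lit 0x3) (nat_lit 125)) (.one (nat_lit 0x5000006007008014000c00e0b1428511)) (.one (nat_lit 0x6000006007008014000c00e0d1828511)))))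
def t224 : k224.all (jb2 57 fl b0) = true := by decide +kernel
noncomputable def k225 : KT := (.br (Nat.shiftLeft (nat_lit 0x1000001) (nat_lit 114)) (.br (Nat.shiftLeft (nat_lit 0x1) (nat_lit 137)) (.br (Nat.shiftLeft (nat_lit 0x1) (nat_lit 136)) (.br (Nat.shiftLeft (nat_lit 0x1) (nat_lit 127)) (.one (nat_lit 0x7000006007008014000c00e0f1c28511)) (.one (nat_lit 0x8000006007008014000c00e112028511))) (.br (Nat.shiftLeft (nat_lit 0x400001) (nat_lit 114)) (.one (nat_lit 0x1000003006007008014600c02e410028611)) (.one (nat_lit 0x1000004006007008014800c02e410028611)))) (.br (Nat.shiftLeft (nat_lit 0x3) (nat_lit 136)) (.br (Nat.shiftLeft (nat_lit 0x800001) (nat_lit 114)) (.one (nat_lit 0x2000003006007008014600c04e810028611)) (.one (nat_lit 0x2000004006007008014800c04e810028611))) (.br (Nat.shiftLeft (nat_lit 0xc00001) (nat_lit 114)) (.one (nat_lit 0x3000003006007008014600c06ec10028611)) (.br (Nat.shiftLeft (nat_lit 0x1) (nat_lit 138)) (.one (nat_lit 0x3000004006007008014800c06ec10028611)) (.one (nat_lit 0x4000003006007008014600c08f010028611))))))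 (.br (Nat.shiftLeft (nat_lit 0x1800001) (nat_lit 114)) (.br (Nat.shiftLeft (nat_lit 0x1400001) (nat_lit 114)) (.br (Nat.shiftLeft (nat_lit 0x5) (nat_lit 136)) (.one (nat_lit 0x4000004006007008014800c08f010028611)) (.one (nat_lit 0x5000003006007008014600c0af410028611))) (.br (Nat.shiftLeft (nat_lit 0x3) (nat_lit 137)) (.one (nat_lit 0x5000004006007008014800c0af410028611)) (.one (nat_lit 0x6000003006007008014600c0cf810028611)))) (.br (Nat.shiftLeft (nat_lit 0x1c00001) (nat_lit 114)) (.br (Nat.shiftLeft (nat_lit 0x7) (nat_lit 136)) (.one (nat_lit 0x6000004006007008014800c0cf810028611)) (.one (nat_lit 0x7000003006007008014600c0efc10028611))) (.br (Nat.shiftLeft (nat_lit 0x1) (nat_lit 139)) (.one (nat_lit 0x7000004006007008014800c0efc10028611)) (.br (Nat.shiftLeft (nat_lit 0x2000001) (nat_lit 114)) (.one (nat_lit 0x8000003006007008014600c110010028611)) (.one (nat_lit 0x8000004006007008014800c110010028611)))))))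
def t225 : k225.all (jb2 57 fl b0) = true := by decide +kernel
noncomputable def s13 : KT := (.br (nat_lit 0x1000006007008014000c00e030428511) (.br (nat_lit 0x1006007008014200c00e010028650) k220 (.br (nat_lit 0x4006007008014800c00e010029600) k221 k222)) (.br (nat_lit 0x2003006007008014600c00e050828760) k223 (.br (nat_lit 0x6000006007008014000c00e0d1828511) k224 k225)))
noncomputable def u13 : KT := (.br (Nat.shiftLeft (nat_lit 0x1801c02403) (nat_lit 66)) (.br (Nat.shiftLeft (nat_lit 0x6007009) (nat_lit 76)) (.one (nat_lit 0x6007008014000c00e010028540)) (.br (Nat.shiftLeft (nat_lit 0x600700900b) (nat_lit 64)) (.one (nat_lit 0x600700900a000c00e012015500)) (.one (nat_lit 0x600700900b000c00e012017500)))) (.br (Nat.shiftLeft (nat_lit 0x3003804807) (nat_lit 65)) (.br (Nat.shiftLeft (nat_lit 0x600700900d) (nat_lit 64)) (.one (nat_lit 0x600700900c000c00e012019500)) (.one (nat_lit 0x600700900d000c00e01201b500))) (.br (Nat.shiftLeft (nat_lit 0x600700900f) (nat_lit 64)) (.one (nat_lit 0x600700900e000c00e01201d500))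 (.one (nat_lit 0x600700900f000c00e01201f500)))))
def w13 : u13.all (wj 57 s13) = true := by decide +kernel
def o13 : OkW 57 (jb2 57 fl) u13 := .lift s13 _ (.br _ _ _ (.br _ _ _ (.leaf b0 k220 t220) (.br _ _ _ (.leaf b0 k221 t221) (.leaf b0 k222 t222))) (.br _ _ _ (.leaf b0 k223 t223) (.br _ _ _ (.leaf b0 k224 t224) (.leaf b0 k225 t225)))) w13
noncomputable def k226 : KT := (.br (Nat.shiftLeft (nat_lit 0x5) (nat_lit 112)) (.br (Nat.shiftLeft (nat_lit 0x1) (nat_lit 113)) (.br (Nat.shiftLeft (nat_lit 0x1) (nat_lit 112)) (.one (nat_lit 0x6007009010000c00e012021500)) (.one (nat_lit 0x1006007009010200c00e012021600))) (.br (Nat.shiftLeft (nat_lit 0x3) (nat_lit 112)) (.one (nat_lit 0x2006007009010400c00e012021600)) (.br (Nat.shiftLeft (nat_lit 0x1) (nat_lit 114)) (.one (nat_lit 0x3006007009010600c00e012021600)) (.one (nat_lit 0x4006007009010800c00e012021600))))) (.br (Nat.shiftLeft (nat_lit 0x801) (nat_lit 113)) (.br (Nat.shiftLeft (nat_lit 0x1) (nat_lit 124)) (.one (nat_lit 0x5006007009010a00c00e012021600)) (.one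 (nat_lit 0x1000006007009010000c00e032420511))) (.br (Nat.shiftLeft (nat_lit 0x1003) (nat_lit 112)) (.one (nat_lit 0x1002006007009010400c00e032421700)) (.br (Nat.shiftLeft (nat_lit 0x401) (nat_lit 114)) (.one (nat_lit 0x1003006007009010600c00e032421700)) (.one (nat_lit 0x1004006007009010800c00e032420760))))))
def t226 : k226.all (jb2 57 fl b0) = true := by decide +kernel
noncomputable def k227 : KT := (.br (Nat.shiftLeft (nat_lit 0x1) (nat_lit 125)) (.one (nat_lit 0x1005006007009010a00c00e032420760)) (.br (Nat.shiftLeft (nat_lit 0x1001) (nat_lit 113)) (.one (nat_lit 0x2000006007009010000c00e052820511)) (.one (nat_lit 0x2003006007009010600c00e052821700))))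
def t227 : k227.all (jb2 57 fl b0) = true := by decide +kernel
noncomputable def k228 : KT := (.one (nat_lit 0x2004006007009010800c00e052820760))
def t228 : k228.all (jb2 57 fl b0) = true := by decide +kernel
noncomputable def k229 : KT := (.br (Nat.shiftLeft (nat_lit 0x3) (nat_lit 124)) (.one (nat_lit 0x2005006007009010a00c00e052820760)) (.one (nat_lit 0x3000006007009010000c00e072c20511)))
def t229 : k229.all (jb2 57 fl b0) = true := by decide +kernel
noncomputable def k230 : KT := (.one (nat_lit 0x3004006007009010800c00e072c20760))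
def t230 : k230.all (jb2 57 fl b0) = true := by decide +kernel
noncomputable def k231 : KT := (.br (Nat.shiftLeft (nat_lit 0x1) (nat_lit 126)) (.one (nat_lit 0x3005006007009010a00c00e072c20760)) (.one (nat_lit 0x4000006007009010000c00e093020511)))
def t231 : k231.all (jb2 57 fl b0) = true := by decide +kernel
noncomputable def k232 : KT := (.br (Nat.shiftLeft (nat_lit 0x5) (nat_lit 124)) (.one (nat_lit 0x4005006007009010a00c00e093020760)) (.one (nat_lit 0x5000006007009010000c00e0b3420511)))
def t232 : k232.all (jb2 57 fl b0) = true := by decide +kernel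
noncomputable def k233 : KT := (.br (Nat.shiftLeft (nat_lit 0x7) (nat_lit 124)) (.one (nat_lit 0x6000006007009010000c00e0d3820511)) (.one (nat_lit 0x7000006007009010000c00e0f3c20511)))
def t233 : k233.all (jb2 57 fl b0) = true := by decide +kernel
noncomputable def k234 : KT := (.br (Nat.shiftLeft (nat_lit 0x800001) (nat_lit 113)) (.br (Nat.shiftLeft (nat_lit 0x9) (nat_lit 124)) (.one (nat_lit 0x8000006007009010000c00e114020511)) (.br (Nat.shiftLeft (nat_lit 0x1) (nat_lit 136)) (.one (nat_lit 0x9000006007009010000c00e134420511)) (.one (nat_lit 0x1000001006007009010200c02e412020611)))) (.br (Nat.shiftLeft (nat_lit 0x400001) (nat_lit 114)) (.br (Nat.shiftLeft (nat_lit 0x1000003) (nat_lit 112)) (.one (nat_lit 0x1000002006007009010400c02e412020611)) (.one (nat_lit 0x1000003006007009010600c02e412020611))) (.br (Nat.shiftLeft (nat_lit 0x1000005) (nat_lit 112)) (.one (nat_lit 0x1000004006007009010800c02e412020611)) (.one (nat_lit 0x1000005006007009010a00c02e412020611)))))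
def t234 : k234.all (jb2 57 fl b0) = true := by decide +kernel
noncomputable def k235 : KT := (.br (Nat.shiftLeft (nat_lit 0x1800001) (nat_lit 113)) (.br (Nat.shiftLeft (nat_lit 0x2000003) (nat_lit 112)) (.br (Nat.shiftLeft (nat_lit 0x1) (nat_lit 137)) (.one (nat_lit 0x1002003006007009010600c02e452820870)) (.br (Nat.shiftLeft (nat_lit 0x1000001) (nat_lit 113)) (.one (nat_lit 0x2000001006007009010200c04e812020611)) (.one (nat_lit 0x2000002006007009010400c04e812020611)))) (.br (Nat.shiftLeft (nat_lit 0x2000005) (nat_lit 112)) (.br (Nat.shiftLeft (nat_lit 0x800001) (nat_lit 114)) (.one (nat_lit 0x2000003006007009010600c04e812020611)) (.one (nat_lit 0x2000004006007009010800c04e812020611))) (.br (Nat.shiftLeft (nat_lit 0x3) (nat_lit 136)) (.one (nat_lit 0x2000005006007009010a00c04e812020611)) (.one (nat_lit 0x3000001006007009010200c06ec12020611))))) (.br (Nat.shiftLeft (nat_lit 0x3000005) (nat_lit 112)) (.br (Nat.shiftLeft (nat_lit 0x3000003) (nat_lit 112)) (.one (nat_lit 0x3000002006007009010400c06ec12020611))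 (.br (Nat.shiftLeft (nat_lit 0xc00001) (nat_lit 114)) (.one (nat_lit 0x3000003006007009010600c06ec12020611)) (.one (nat_lit 0x3000004006007009010800c06ec12020611)))) (.br (Nat.shiftLeft (nat_lit 0x2000001) (nat_lit 113)) (.br (Nat.shiftLeft (nat_lit 0x1) (nat_lit 138)) (.one (nat_lit 0x3000005006007009010a00c06ec12020611)) (.one (nat_lit 0x4000001006007009010200c08f012020611))) (.br (Nat.shiftLeft (nat_lit 0x4000003) (nat_lit 112)) (.one (nat_lit 0x4000002006007009010400c08f012020611)) (.one (nat_lit 0x4000003006007009010600c08f012020611))))))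
def t235 : k235.all (jb2 57 fl b0) = true := by decide +kernel
noncomputable def k236 : KT := (.br (Nat.shiftLeft (nat_lit 0x5) (nat_lit 136)) (.br (Nat.shiftLeft (nat_lit 0x4000005) (nat_lit 112)) (.one (nat_lit 0x4000004006007009010800c08f012020611)) (.one (nat_lit 0x4000005006007009010a00c08f012020611))) (.br (Nat.shiftLeft (nat_lit 0x2800001) (nat_lit 113)) (.one (nat_lit 0x5000001006007009010200c0af412020611)) (.one (nat_lit 0x5000002006007009010400c0af412020611))))
def t236 : k236.all (jb2 57 fl b0) = true := by decide +kernel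
noncomputable def k237 : KT := (.br (Nat.shiftLeft (nat_lit 0x1400001) (nat_lit 114)) (.one (nat_lit 0x5000003006007009010600c0af412020611)) (.br (Nat.shiftLeft (nat_lit 0x5000005) (nat_lit 112)) (.one (nat_lit 0x5000004006007009010800c0af412020611)) (.one (nat_lit 0x5000005006007009010a00c0af412020611))))
def t237 : k237.all (jb2 57 fl b0) = true := by decide +kernel
noncomputable def k238 : KT := (.br (Nat.shiftLeft (nat_lit 0x3000001) (nat_lit 113)) (.one (nat_lit 0x6000001006007009010200c0cf812020611)) (.one (nat_lit 0x6000002006007009010400c0cf812020611)))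
def t238 : k238.all (jb2 57 fl b0) = true := by decide +kernel
noncomputable def k239 : KT := (.br (Nat.shiftLeft (nat_lit 0x1800001) (nat_lit 114)) (.one (nat_lit 0x6000003006007009010600c0cf812020611)) (.br (Nat.shiftLeft (nat_lit 0x6000005) (nat_lit 112)) (.one (nat_lit 0x6000004006007009010800c0cf812020611)) (.one (nat_lit 0x6000005006007009010a00c0cf812020611))))
def t239 : k239.all (jb2 57 fl b0) = true := by decide +kernel
noncomputable def k240 : KT := (.br (Nat.shiftLeft (nat_lit 0x3800001) (nat_lit 113)) (.one (nat_lit 0x7000001006007009010200c0efc12020611)) (.one (nat_lit 0x7000002006007009010400c0efc12020611)))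
def t240 : k240.all (jb2 57 fl b0) = true := by decide +kernel
noncomputable def k241 : KT := (.br (Nat.shiftLeft (nat_lit 0x7000005) (nat_lit 112)) (.br (Nat.shiftLeft (nat_lit 0x1c00001) (nat_lit 114)) (.one (nat_lit 0x7000003006007009010600c0efc12020611)) (.one (nat_lit 0x7000004006007009010800c0efc12020611))) (.br (Nat.shiftLeft (nat_lit 0x1) (nat_lit 139)) (.one (nat_lit 0x7000005006007009010a00c0efc12020611)) (.one (nat_lit 0x8000001006007009010200c110012020611))))
def t241 : k241.all (jb2 57 fl b0) = true := by decide +kernel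
noncomputable def k242 : KT := (.br (Nat.shiftLeft (nat_lit 0x2000001) (nat_lit 114)) (.br (Nat.shiftLeft (nat_lit 0x8000003) (nat_lit 112)) (.one (nat_lit 0x8000002006007009010400c110012020611)) (.one (nat_lit 0x8000003006007009010600c110012020611))) (.br (Nat.shiftLeft (nat_lit 0x8000005) (nat_lit 112)) (.one (nat_lit 0x8000004006007009010800c110012020611)) (.br (Nat.shiftLeft (nat_lit 0x9) (nat_lit 136)) (.one (nat_lit 0x8000005006007009010a00c110012020611)) (.one (nat_lit 0x9000001006007009010200c130412020611)))))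
def t242 : k242.all (jb2 57 fl b0) = true := by decide +kernel
noncomputable def k243 : KT := (.br (Nat.shiftLeft (nat_lit 0x2000001003) (nat_lit 112)) (.br (Nat.shiftLeft (nat_lit 0x1) (nat_lit 148)) (.br (Nat.shiftLeft (nat_lit 0x2400001) (nat_lit 114)) (.br (Nat.shiftLeft (nat_lit 0x9000003) (nat_lit 112)) (.one (nat_lit 0x9000002006007009010400c130412020611)) (.one (nat_lit 0x9000003006007009010600c130412020611))) (.br (Nat.shiftLeft (nat_lit 0x9000005) (nat_lit 112)) (.one (nat_lit 0x9000004006007009010800c130412020611)) (.one (nat_lit 0x9000005006007009010a00c130412020611)))) (.br (Nat.shiftLeft (nat_lit 0x800001) (nat_lit 125)) (.br (Nat.shiftLeft (nat_lit 0x1000001003) (nat_lit 112)) (.one (nat_lit 0x1000001002006007009010402c40e032420711)) (.one (nat_lit 0x1000001003006007009010602c40e032420711))) (.br (Nat.shiftLeft (nat_lit 0x1) (nat_lit 149)) (.one (nat_lit 0x1000002003006007009010602c40e052820711)) (.one (nat_lit 0x2000001002006007009010404c80e032420711))))) (.br (Nat.shiftLeft (nat_lit 0x1800001)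 (nat_lit 125)) (.br (Nat.shiftLeft (nat_lit 0x3) (nat_lit 148)) (.br (Nat.shiftLeft (nat_lit 0x1000001) (nat_lit 125)) (.one (nat_lit 0x2000001003006007009010604c80e032420711)) (.one (nat_lit 0x2000002003006007009010604c80e052820711))) (.br (Nat.shiftLeft (nat_lit 0x3000001003) (nat_lit 112)) (.one (nat_lit 0x3000001002006007009010406cc0e032420711)) (.one (nat_lit 0x3000001003006007009010606cc0e032420711)))) (.br (Nat.shiftLeft (nat_lit 0x4000001003) (nat_lit 112)) (.br (Nat.shiftLeft (nat_lit 0x1) (nat_lit 150)) (.one (nat_lit 0x3000002003006007009010606cc0e052820711)) (.one (nat_lit 0x4000001002006007009010408d00e032420711))) (.br (Nat.shiftLeft (nat_lit 0x2000001) (nat_lit 125)) (.one (nat_lit 0x4000001003006007009010608d00e032420711)) (.one (nat_lit 0x4000002003006007009010608d00e052820711))))))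
def t243 : k243.all (jb2 57 fl b0) = true := by decide +kernel
noncomputable def k244 : KT := (.br (Nat.shiftLeft (nat_lit 0x5000001003) (nat_lit 112)) (.one (nat_lit 0x500000100200600700901040ad40e032420711)) (.br (Nat.shiftLeft (nat_lit 0x2800001) (nat_lit 125)) (.one (nat_lit 0x500000100300600700901060ad40e032420711)) (.one (nat_lit 0x500000200300600700901060ad40e052820711))))
def t244 : k244.all (jb2 57 fl b0) = true := by decide +kernel
noncomputable def k245 : KT := (.br (Nat.shiftLeft (nat_lit 0x3000001) (nat_lit 125)) (.br (Nat.shiftLeft (nat_lit 0x6000001003) (nat_lit 112)) (.one (nat_lit 0x600000100200600700901040cd80e032420711)) (.one (nat_lit 0x600000100300600700901060cd80e032420711))) (.br (Nat.shiftLeft (nat_lit 0x7) (nat_lit 148)) (.one (nat_lit 0x600000200300600700901060cd80e052820711)) (.one (nat_lit 0x700000100200600700901040edc0e032420711))))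
def t245 : k245.all (jb2 57 fl b0) = true := by decide +kernel
noncomputable def k246 : KT := (.br (Nat.shiftLeft (nat_lit 0x4000001) (nat_lit 125)) (.br (Nat.shiftLeft (nat_lit 0x1) (nat_lit 151)) (.br (Nat.shiftLeft (nat_lit 0x3800001) (nat_lit 125)) (.one (nat_lit 0x700000100300600700901060edc0e032420711)) (.one (nat_lit 0x700000200300600700901060edc0e052820711))) (.br (Nat.shiftLeft (nat_lit 0x8000001003) (nat_lit 112)) (.one (nat_lit 0x8000001002006007009010410e00e032420711)) (.one (nat_lit 0x8000001003006007009010610e00e032420711)))) (.br (Nat.shiftLeft (nat_lit 0x9000001003) (nat_lit 112)) (.br (Nat.shiftLeft (nat_lit 0x9) (nat_lit 148)) (.one (nat_lit 0x8000002003006007009010610e00e052820711)) (.one (nat_lit 0x9000001002006007009010412e40e032420711))) (.br (Nat.shiftLeft (nat_lit 0x4800001) (nat_lit 125)) (.one (nat_lit 0x9000001003006007009010612e40e032420711)) (.one (nat_lit 0x9000002003006007009010612e40e052820711)))))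
def t246 : k246.all (jb2 57 fl b0) = true := by decide +kernel
noncomputable def s14 : KT := (.br (nat_lit 0x4000003006007009010600c08f012020611) (.br (nat_lit 0x3004006007009010800c00e072c20760) (.br (nat_lit 0x2003006007009010600c00e052821700) (.br (nat_lit 0x1004006007009010800c00e032420760) k226 k227) (.br (nat_lit 0x2004006007009010800c00e052820760) k228 (.br (nat_lit 0x3000006007009010000c00e072c20511) k229 k230))) (.br (nat_lit 0x5000006007009010000c00e0b3420511) (.br (nat_lit 0x4000006007009010000c00e093020511) k231 k232) (.br (nat_lit 0x7000006007009010000c00e0f3c20511) k233 (.br (nat_lit 0x1000005006007009010a00c02e412020611) k234 k235)))) (.br (nat_lit 0x7000002006007009010400c0efc12020611) (.br (nat_lit 0x5000005006007009010a00c0af412020611) (.br (nat_lit 0x5000002006007009010400c0af412020611) k236 k237) (.br (nat_lit 0x6000002006007009010400c0cf812020611) k238 (.br (nat_lit 0x6000005006007009010a00c0cf812020611) k239 k240))) (.br (nat_lit 0x4000002003006007009010608d00e052820711) (.br (nat_lit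 0x8000001006007009010200c110012020611) k241 (.br (nat_lit 0x9000001006007009010200c130412020611) k242 k243)) (.br (nat_lit 0x500000200300600700901060ad40e052820711) k244 (.br (nat_lit 0x700000100200600700901040edc0e032420711) k245 k246)))))
noncomputable def u14 : KT := (.one (nat_lit 0x6007009010000c00e012020540))
def w14 : u14.all (wj 57 s14) = true := by decide +kernel
def o14 : OkW 57 (jb2 57 fl) u14 := .lift s14 _ (.br _ _ _ (.br _ _ _ (.br _ _ _ (.br _ _ _ (.leaf b0 k226 t226) (.leaf b0 k227 t227)) (.br _ _ _ (.leaf b0 k228 t228) (.br _ _ _ (.leaf b0 k229 t229) (.leaf b0 k230 t230)))) (.br _ _ _ (.br _ _ _ (.leaf b0 k231 t231) (.leaf b0 k232 t232)) (.br _ _ _ (.leaf b0 k233 t233) (.br _ _ _ (.leaf b0 k234 t234) (.leaf b0 k235 t235))))) (.br _ _ _ (.br _ _ _ (.br _ _ _ (.leaf b0 k236 t236) (.leaf b0 k237 t237)) (.br _ _ _ (.leaf b0 k238 t238) (.br _ _ _ (.leaf b0 k239 t239) (.leaf b0 k240 t240)))) (.br _ _ _ (.br _ _ _ (.leaf b0 k241 t241) (.br _ _ _ (.leaf b0 k242 t242) (.leaf b0 k243 t243))) (.br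 _ _ _ (.leaf b0 k244 t244) (.br _ _ _ (.leaf b0 k245 t245) (.leaf b0 k246 t246)))))) w14
noncomputable def k247 : KT := (.br (Nat.shiftLeft (nat_lit 0x1803003804809) (nat_lit 65)) (.br (Nat.shiftLeft (nat_lit 0x803003804809) (nat_lit 65)) (.br (Nat.shiftLeft (nat_lit 0x3003804809) (nat_lit 65)) (.one (nat_lit 0x6007009011000c00e012023500)) (.br (Nat.shiftLeft (nat_lit 0x1) (nat_lit 112)) (.one (nat_lit 0x6007009012000c00e012025500)) (.one (nat_lit 0x1006007009011200c00e012023600)))) (.br (Nat.shiftLeft (nat_lit 0x1003003804809) (nat_lit 65)) (.br (Nat.shiftLeft (nat_lit 0x1) (nat_lit 113)) (.one (nat_lit 0x1006007009012200c00e012025600)) (.one (nat_lit 0x2006007009011400c00e012023600))) (.br (Nat.shiftLeft (nat_lit 0x3) (nat_lit 112)) (.one (nat_lit 0x2006007009012400c00e012025600)) (.one (nat_lit 0x3006007009011600c00e012023600))))) (.br (Nat.shiftLeft (nat_lit 0x2803003804809) (nat_lit 65)) (.br (Nat.shiftLeft (nat_lit 0x2003003804809) (nat_lit 65)) (.br (Nat.shiftLeft (nat_lit 0x1) (nat_lit 114)) (.one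 (nat_lit 0x3006007009012600c00e012025600)) (.one (nat_lit 0x4006007009011800c00e012023600))) (.br (Nat.shiftLeft (nat_lit 0x5) (nat_lit 112)) (.one (nat_lit 0x4006007009012800c00e012025600)) (.one (nat_lit 0x5006007009011a00c00e012023600)))) (.br (Nat.shiftLeft (nat_lit 0x800003003804809) (nat_lit 65)) (.br (Nat.shiftLeft (nat_lit 0x1) (nat_lit 124)) (.one (nat_lit 0x5006007009012a00c00e012025600)) (.one (nat_lit 0x1000006007009011000c00e032422511))) (.br (Nat.shiftLeft (nat_lit 0x801) (nat_lit 113)) (.one (nat_lit 0x1000006007009012000c00e032424511)) (.one (nat_lit 0x1002006007009011400c00e032422760))))))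
def t247 : k247.all (jb2 57 fl b0) = true := by decide +kernel
noncomputable def k248 : KT := (.one (nat_lit 0x1002006007009012400c00e032424760))
def t248 : k248.all (jb2 57 fl b0) = true := by decide +kernel
noncomputable def k249 : KT := (.one (nat_lit 0x1003006007009011600c00e032422760))
def t249 : k249.all (jb2 57 fl b0) = true := by decide +kernel
noncomputable def k250 : KT := (.br (Nat.shiftLeft (nat_lit 0x401) (nat_lit 114)) (.one (nat_lit 0x1003006007009012600c00e032424760)) (.one (nat_lit 0x1004006007009011800c00e032422760)))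
def t250 : k250.all (jb2 57 fl b0) = true := by decide +kernel
noncomputable def k251 : KT := (.br (Nat.shiftLeft (nat_lit 0x802803003804809) (nat_lit 65)) (.br (Nat.shiftLeft (nat_lit 0x1005) (nat_lit 112)) (.one (nat_lit 0x1004006007009012800c00e032424760)) (.one (nat_lit 0x1005006007009011a00c00e032422760))) (.br (Nat.shiftLeft (nat_lit 0x1) (nat_lit 125)) (.one (nat_lit 0x1005006007009012a00c00e032424760)) (.br (Nat.shiftLeft (nat_lit 0x1000003003804809) (nat_lit 65)) (.one (nat_lit 0x2000006007009011000c00e052822511)) (.one (nat_lit 0x2000006007009012000c00e052824511)))))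
def t251 : k251.all (jb2 57 fl b0) = true := by decide +kernel
noncomputable def k252 : KT := (.one (nat_lit 0x2003006007009011600c00e052822760))
def t252 : k252.all (jb2 57 fl b0) = true := by decide +kernel
noncomputable def k253 : KT := (.one (nat_lit 0x2003006007009012600c00e052824760))
def t253 : k253.all (jb2 57 fl b0) = true := by decide +kernel
noncomputable def k254 : KT := (.one (nat_lit 0x2004006007009011800c00e052822760))
def t254 : k254.all (jb2 57 fl b0) = true := by decide +kernel
noncomputable def k255 : KT := (.br (Nat.shiftLeft (nat_lit 0x2005) (nat_lit 112)) (.one (nat_lit 0x2004006007009012800c00e052824760)) (.one (nat_lit 0x2005006007009011a00c00e052822760)))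
def t255 : k255.all (jb2 57 fl b0) = true := by decide +kernel
noncomputable def k256 : KT := (.br (Nat.shiftLeft (nat_lit 0x1800003003804809) (nat_lit 65)) (.br (Nat.shiftLeft (nat_lit 0x3) (nat_lit 124)) (.one (nat_lit 0x2005006007009012a00c00e052824760)) (.one (nat_lit 0x3000006007009011000c00e072c22511))) (.br (Nat.shiftLeft (nat_lit 0xc01) (nat_lit 114)) (.one (nat_lit 0x3000006007009012000c00e072c24511)) (.one (nat_lit 0x3004006007009011800c00e072c22760))))
def t256 : k256.all (jb2 57 fl b0) = true := by decide +kernel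
noncomputable def k257 : KT := (.br (Nat.shiftLeft (nat_lit 0x3005) (nat_lit 112)) (.one (nat_lit 0x3004006007009012800c00e072c24760)) (.one (nat_lit 0x3005006007009011a00c00e072c22760)))
def t257 : k257.all (jb2 57 fl b0) = true := by decide +kernel
noncomputable def k258 : KT := (.br (Nat.shiftLeft (nat_lit 0x2000003003804809) (nat_lit 65)) (.br (Nat.shiftLeft (nat_lit 0x1) (nat_lit 126)) (.one (nat_lit 0x3005006007009012a00c00e072c24760)) (.one (nat_lit 0x4000006007009011000c00e093022511))) (.br (Nat.shiftLeft (nat_lit 0x1001) (nat_lit 114)) (.one (nat_lit 0x4000006007009012000c00e093024511)) (.one (nat_lit 0x4005006007009011a00c00e093022760))))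
def t258 : k258.all (jb2 57 fl b0) = true := by decide +kernel
noncomputable def k259 : KT := (.br (Nat.shiftLeft (nat_lit 0x2800003003804809) (nat_lit 65)) (.br (Nat.shiftLeft (nat_lit 0x5) (nat_lit 124)) (.one (nat_lit 0x4005006007009012a00c00e093024760)) (.one (nat_lit 0x5000006007009011000c00e0b3422511))) (.br (Nat.shiftLeft (nat_lit 0x3) (nat_lit 125)) (.one (nat_lit 0x5000006007009012000c00e0b3424511)) (.one (nat_lit 0x6000006007009011000c00e0d3822511))))
def t259 : k259.all (jb2 57 fl b0) = true := by decide +kernel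
noncomputable def k260 : KT := (.br (Nat.shiftLeft (nat_lit 0x7) (nat_lit 124)) (.one (nat_lit 0x6000006007009012000c00e0d3824511)) (.br (Nat.shiftLeft (nat_lit 0x3800003003804809) (nat_lit 65)) (.one (nat_lit 0x7000006007009011000c00e0f3c22511)) (.one (nat_lit 0x7000006007009012000c00e0f3c24511))))
def t260 : k260.all (jb2 57 fl b0) = true := by decide +kernel
noncomputable def k261 : KT := (.br (Nat.shiftLeft (nat_lit 0x1000001) (nat_lit 113)) (.br (Nat.shiftLeft (nat_lit 0x1000003) (nat_lit 112)) (.br (Nat.shiftLeft (nat_lit 0x1) (nat_lit 136)) (.br (Nat.shiftLeft (nat_lit 0x9) (nat_lit 124)) (.br (Nat.shiftLeft (nat_lit 0x4000003003804809) (nat_lit 65)) (.one (nat_lit 0x8000006007009011000c00e114022511)) (.one (nat_lit 0x8000006007009012000c00e114024511))) (.br (Nat.shiftLeft (nat_lit 0x4800003003804809) (nat_lit 65)) (.one (nat_lit 0x9000006007009011000c00e134422511)) (.one (nat_lit 0x9000006007009012000c00e134424511)))) (.br (Nat.shiftLeft (nat_lit 0x800001) (nat_lit 113)) (.br (Nat.shiftLeft (nat_lit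 0x800000803003804809) (nat_lit 65)) (.one (nat_lit 0x1000001006007009011200c02e412022611)) (.one (nat_lit 0x1000001006007009012200c02e412024611))) (.br (Nat.shiftLeft (nat_lit 0x800001003003804809) (nat_lit 65)) (.one (nat_lit 0x1000002006007009011400c02e412022611)) (.one (nat_lit 0x1000002006007009012400c02e412024611))))) (.br (Nat.shiftLeft (nat_lit 0x1000005) (nat_lit 112)) (.br (Nat.shiftLeft (nat_lit 0x400001) (nat_lit 114)) (.br (Nat.shiftLeft (nat_lit 0x800001803003804809) (nat_lit 65)) (.one (nat_lit 0x1000003006007009011600c02e412022611)) (.one (nat_lit 0x1000003006007009012600c02e412024611))) (.br (Nat.shiftLeft (nat_lit 0x800002003003804809) (nat_lit 65)) (.one (nat_lit 0x1000004006007009011800c02e412022611)) (.one (nat_lit 0x1000004006007009012800c02e412024611)))) (.br (Nat.shiftLeft (nat_lit 0x1) (nat_lit 137)) (.br (Nat.shiftLeft (nat_lit 0x800002803003804809) (nat_lit 65)) (.one (nat_lit 0x1000005006007009011a00c02e412022611)) (.one (nat_lit 0x1000005006007009012a00c02e412024611))) (.br (Nat.shiftLeft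 (nat_lit 0x1000000803003804809) (nat_lit 65)) (.one (nat_lit 0x2000001006007009011200c04e812022611)) (.one (nat_lit 0x2000001006007009012200c04e812024611)))))) (.br (Nat.shiftLeft (nat_lit 0x3) (nat_lit 136)) (.br (Nat.shiftLeft (nat_lit 0x800001) (nat_lit 114)) (.br (Nat.shiftLeft (nat_lit 0x2000003) (nat_lit 112)) (.br (Nat.shiftLeft (nat_lit 0x1000001003003804809) (nat_lit 65)) (.one (nat_lit 0x2000002006007009011400c04e812022611)) (.one (nat_lit 0x2000002006007009012400c04e812024611))) (.br (Nat.shiftLeft (nat_lit 0x1000001803003804809) (nat_lit 65)) (.one (nat_lit 0x2000003006007009011600c04e812022611)) (.one (nat_lit 0x2000003006007009012600c04e812024611)))) (.br (Nat.shiftLeft (nat_lit 0x2000005) (nat_lit 112)) (.br (Nat.shiftLeft (nat_lit 0x1000002003003804809) (nat_lit 65)) (.one (nat_lit 0x2000004006007009011800c04e812022611)) (.one (nat_lit 0x2000004006007009012800c04e812024611))) (.br (Nat.shiftLeft (nat_lit 0x1000002803003804809) (nat_lit 65)) (.one (nat_lit 0x2000005006007009011a00c04e812022611))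 (.one (nat_lit 0x2000005006007009012a00c04e812024611))))) (.br (Nat.shiftLeft (nat_lit 0x3000003) (nat_lit 112)) (.br (Nat.shiftLeft (nat_lit 0x1800001) (nat_lit 113)) (.br (Nat.shiftLeft (nat_lit 0x1800000803003804809) (nat_lit 65)) (.one (nat_lit 0x3000001006007009011200c06ec12022611)) (.one (nat_lit 0x3000001006007009012200c06ec12024611))) (.br (Nat.shiftLeft (nat_lit 0x1800001003003804809) (nat_lit 65)) (.one (nat_lit 0x3000002006007009011400c06ec12022611)) (.one (nat_lit 0x3000002006007009012400c06ec12024611)))) (.br (Nat.shiftLeft (nat_lit 0xc00001) (nat_lit 114)) (.br (Nat.shiftLeft (nat_lit 0x1800001803003804809) (nat_lit 65)) (.one (nat_lit 0x3000003006007009011600c06ec12022611)) (.one (nat_lit 0x3000003006007009012600c06ec12024611))) (.br (Nat.shiftLeft (nat_lit 0x1800002003003804809) (nat_lit 65)) (.one (nat_lit 0x3000004006007009011800c06ec12022611)) (.one (nat_lit 0x3000004006007009012800c06ec12024611)))))))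
def t261 : k261.all (jb2 57 fl b0) = true := by decide +kernel
noncomputable def k262 : KT := (.br (Nat.shiftLeft (nat_lit 0x4000003) (nat_lit 112)) (.br (Nat.shiftLeft (nat_lit 0x2000000803003804809) (nat_lit 65)) (.br (Nat.shiftLeft (nat_lit 0x1800002803003804809) (nat_lit 65)) (.one (nat_lit 0x3000005006007009011a00c06ec12022611)) (.br (Nat.shiftLeft (nat_lit 0x1) (nat_lit 138)) (.one (nat_lit 0x3000005006007009012a00c06ec12024611)) (.one (nat_lit 0x4000001006007009011200c08f012022611)))) (.br (Nat.shiftLeft (nat_lit 0x2000001) (nat_lit 113)) (.one (nat_lit 0x4000001006007009012200c08f012024611)) (.br (Nat.shiftLeft (nat_lit 0x2000001003003804809) (nat_lit 65)) (.one (nat_lit 0x4000002006007009011400c08f012022611)) (.one (nat_lit 0x4000002006007009012400c08f012024611))))) (.br (Nat.shiftLeft (nat_lit 0x2000002003003804809) (nat_lit 65)) (.br (Nat.shiftLeft (nat_lit 0x2000001803003804809) (nat_lit 65)) (.one (nat_lit 0x4000003006007009011600c08f012022611)) (.br (Nat.shiftLeft (nat_lit 0x1000001) (nat_lit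 114)) (.one (nat_lit 0x4000003006007009012600c08f012024611)) (.one (nat_lit 0x4000004006007009011800c08f012022611)))) (.br (Nat.shiftLeft (nat_lit 0x4000005) (nat_lit 112)) (.one (nat_lit 0x4000004006007009012800c08f012024611)) (.br (Nat.shiftLeft (nat_lit 0x2000002803003804809) (nat_lit 65)) (.one (nat_lit 0x4000005006007009011a00c08f012022611)) (.one (nat_lit 0x4000005006007009012a00c08f012024611))))))
def t262 : k262.all (jb2 57 fl b0) = true := by decide +kernel
noncomputable def k263 : KT := (.br (Nat.shiftLeft (nat_lit 0x2800001) (nat_lit 113)) (.br (Nat.shiftLeft (nat_lit 0x2800000803003804809) (nat_lit 65)) (.one (nat_lit 0x5000001006007009011200c0af412022611)) (.one (nat_lit 0x5000001006007009012200c0af412024611))) (.br (Nat.shiftLeft (nat_lit 0x2800001003003804809) (nat_lit 65)) (.one (nat_lit 0x5000002006007009011400c0af412022611)) (.one (nat_lit 0x5000002006007009012400c0af412024611))))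
def t263 : k263.all (jb2 57 fl b0) = true := by decide +kernel
noncomputable def k264 : KT := (.br (Nat.shiftLeft (nat_lit 0x2800002003003804809) (nat_lit 65)) (.br (Nat.shiftLeft (nat_lit 0x2800001803003804809) (nat_lit 65)) (.one (nat_lit 0x5000003006007009011600c0af412022611)) (.br (Nat.shiftLeft (nat_lit 0x1400001) (nat_lit 114)) (.one (nat_lit 0x5000003006007009012600c0af412024611)) (.one (nat_lit 0x5000004006007009011800c0af412022611)))) (.br (Nat.shiftLeft (nat_lit 0x5000005) (nat_lit 112)) (.one (nat_lit 0x5000004006007009012800c0af412024611)) (.br (Nat.shiftLeft (nat_lit 0x2800002803003804809) (nat_lit 65)) (.one (nat_lit 0x5000005006007009011a00c0af412022611)) (.one (nat_lit 0x5000005006007009012a00c0af412024611)))))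
def t264 : k264.all (jb2 57 fl b0) = true := by decide +kernel
noncomputable def k265 : KT := (.br (Nat.shiftLeft (nat_lit 0x3000000803003804809) (nat_lit 65)) (.one (nat_lit 0x6000001006007009011200c0cf812022611)) (.br (Nat.shiftLeft (nat_lit 0x3000001) (nat_lit 113)) (.one (nat_lit 0x6000001006007009012200c0cf812024611)) (.one (nat_lit 0x6000002006007009011400c0cf812022611))))
def t265 : k265.all (jb2 57 fl b0) = true := by decide +kernel
noncomputable def k266 : KT := (.br (Nat.shiftLeft (nat_lit 0x1800001) (nat_lit 114)) (.br (Nat.shiftLeft (nat_lit 0x6000003) (nat_lit 112)) (.one (nat_lit 0x6000002006007009012400c0cf812024611)) (.br (Nat.shiftLeft (nat_lit 0x3000001803003804809) (nat_lit 65)) (.one (nat_lit 0x6000003006007009011600c0cf812022611)) (.one (nat_lit 0x6000003006007009012600c0cf812024611)))) (.br (Nat.shiftLeft (nat_lit 0x6000005) (nat_lit 112)) (.br (Nat.shiftLeft (nat_lit 0x3000002003003804809) (nat_lit 65)) (.one (nat_lit 0x6000004006007009011800c0cf812022611)) (.one (nat_lit 0x6000004006007009012800c0cf812024611)))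 (.br (Nat.shiftLeft (nat_lit 0x3000002803003804809) (nat_lit 65)) (.one (nat_lit 0x6000005006007009011a00c0cf812022611)) (.one (nat_lit 0x6000005006007009012a00c0cf812024611)))))
def t266 : k266.all (jb2 57 fl b0) = true := by decide +kernel
noncomputable def k267 : KT := (.br (Nat.shiftLeft (nat_lit 0x3800000803003804809) (nat_lit 65)) (.one (nat_lit 0x7000001006007009011200c0efc12022611)) (.br (Nat.shiftLeft (nat_lit 0x3800001) (nat_lit 113)) (.one (nat_lit 0x7000001006007009012200c0efc12024611)) (.one (nat_lit 0x7000002006007009011400c0efc12022611))))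
def t267 : k267.all (jb2 57 fl b0) = true := by decide +kernel
noncomputable def k268 : KT := (.br (Nat.shiftLeft (nat_lit 0x3800002003003804809) (nat_lit 65)) (.br (Nat.shiftLeft (nat_lit 0x3800001803003804809) (nat_lit 65)) (.br (Nat.shiftLeft (nat_lit 0x7000003) (nat_lit 112)) (.one (nat_lit 0x7000002006007009012400c0efc12024611)) (.one (nat_lit 0x7000003006007009011600c0efc12022611))) (.br (Nat.shiftLeft (nat_lit 0x1c00001) (nat_lit 114)) (.one (nat_lit 0x7000003006007009012600c0efc12024611)) (.one (nat_lit 0x7000004006007009011800c0efc12022611)))) (.br (Nat.shiftLeft (nat_lit 0x3800002803003804809) (nat_lit 65)) (.br (Nat.shiftLeft (nat_lit 0x7000005) (nat_lit 112)) (.one (nat_lit 0x7000004006007009012800c0efc12024611)) (.one (nat_lit 0x7000005006007009011a00c0efc12022611))) (.br (Nat.shiftLeft (nat_lit 0x1) (nat_lit 139)) (.one (nat_lit 0x7000005006007009012a00c0efc12024611)) (.one (nat_lit 0x8000001006007009011200c110012022611)))))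
def t268 : k268.all (jb2 57 fl b0) = true := by decide +kernel
noncomputable def k269 : KT := (.br (Nat.shiftLeft (nat_lit 0x2000001) (nat_lit 114)) (.br (Nat.shiftLeft (nat_lit 0x4000001003003804809) (nat_lit 65)) (.br (Nat.shiftLeft (nat_lit 0x4000001) (nat_lit 113)) (.one (nat_lit 0x8000001006007009012200c110012024611)) (.one (nat_lit 0x8000002006007009011400c110012022611))) (.br (Nat.shiftLeft (nat_lit 0x8000003) (nat_lit 112)) (.one (nat_lit 0x8000002006007009012400c110012024611)) (.br (Nat.shiftLeft (nat_lit 0x4000001803003804809) (nat_lit 65)) (.one (nat_lit 0x8000003006007009011600c110012022611)) (.one (nat_lit 0x8000003006007009012600c110012024611))))) (.br (Nat.shiftLeft (nat_lit 0x8000005) (nat_lit 112)) (.br (Nat.shiftLeft (nat_lit 0x4000002003003804809) (nat_lit 65)) (.one (nat_lit 0x8000004006007009011800c110012022611)) (.one (nat_lit 0x8000004006007009012800c110012024611))) (.br (Nat.shiftLeft (nat_lit 0x4000002803003804809) (nat_lit 65)) (.one (nat_lit 0x8000005006007009011a00c110012022611))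 (.br (Nat.shiftLeft (nat_lit 0x9) (nat_lit 136)) (.one (nat_lit 0x8000005006007009012a00c110012024611)) (.one (nat_lit 0x9000001006007009011200c130412022611))))))
def t269 : k269.all (jb2 57 fl b0) = true := by decide +kernel
noncomputable def k270 : KT := (.br (Nat.shiftLeft (nat_lit 0x4800001803003804809) (nat_lit 65)) (.br (Nat.shiftLeft (nat_lit 0x4800001003003804809) (nat_lit 65)) (.br (Nat.shiftLeft (nat_lit 0x4800001) (nat_lit 113)) (.one (nat_lit 0x9000001006007009012200c130412024611)) (.one (nat_lit 0x9000002006007009011400c130412022611))) (.br (Nat.shiftLeft (nat_lit 0x9000003) (nat_lit 112)) (.one (nat_lit 0x9000002006007009012400c130412024611)) (.one (nat_lit 0x9000003006007009011600c130412022611)))) (.br (Nat.shiftLeft (nat_lit 0x4800002003003804809) (nat_lit 65)) (.br (Nat.shiftLeft (nat_lit 0x2400001) (nat_lit 114)) (.one (nat_lit 0x9000003006007009012600c130412024611)) (.one (nat_lit 0x9000004006007009011800c130412022611))) (.br (Nat.shiftLeft (nat_lit 0x9000005) (nat_lit 112)) (.one (nat_lit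 0x9000004006007009012800c130412024611)) (.br (Nat.shiftLeft (nat_lit 0x4800002803003804809) (nat_lit 65)) (.one (nat_lit 0x9000005006007009011a00c130412022611)) (.one (nat_lit 0x9000005006007009012a00c130412024611))))))
def t270 : k270.all (jb2 57 fl b0) = true := by decide +kernel
noncomputable def s15 : KT := (.br (nat_lit 0x4005006007009011a00c00e093022760) (.br (nat_lit 0x2003006007009011600c00e052822760) (.br (nat_lit 0x1003006007009011600c00e032422760) (.br (nat_lit 0x1002006007009011400c00e032422760) k247 (.br (nat_lit 0x1002006007009012400c00e032424760) k248 k249)) (.br (nat_lit 0x1004006007009011800c00e032422760) k250 (.br (nat_lit 0x2000006007009012000c00e052824511) k251 k252))) (.br (nat_lit 0x2005006007009011a00c00e052822760) (.br (nat_lit 0x2003006007009012600c00e052824760) k253 (.br (nat_lit 0x2004006007009011800c00e052822760) k254 k255)) (.br (nat_lit 0x3004006007009011800c00e072c22760) k256 (.br (nat_lit 0x3005006007009011a00c00e072c22760) k257 k258)))) (.br (nat_lit 0x5000005006007009012a00c0af412024611)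 (.br (nat_lit 0x3000004006007009012800c06ec12024611) (.br (nat_lit 0x6000006007009011000c00e0d3822511) k259 (.br (nat_lit 0x7000006007009012000c00e0f3c24511) k260 k261)) (.br (nat_lit 0x4000005006007009012a00c08f012024611) k262 (.br (nat_lit 0x5000002006007009012400c0af412024611) k263 k264))) (.br (nat_lit 0x7000002006007009011400c0efc12022611) (.br (nat_lit 0x6000002006007009011400c0cf812022611) k265 (.br (nat_lit 0x6000005006007009012a00c0cf812024611) k266 k267)) (.br (nat_lit 0x8000001006007009011200c110012022611) k268 (.br (nat_lit 0x9000001006007009011200c130412022611) k269 k270)))))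
noncomputable def u15 : KT := (.br (Nat.shiftLeft (nat_lit 0x3003804809) (nat_lit 65)) (.one (nat_lit 0x6007009011000c00e012022540)) (.one (nat_lit 0x6007009012000c00e012024540)))
def w15 : u15.all (wj 57 s15) = true := by decide +kernel
def o15 : OkW 57 (jb2 57 fl) u15 := .lift s15 _ (.br _ _ _ (.br _ _ _ (.br _ _ _ (.br _ _ _ (.leaf b0 k247 t247) (.br _ _ _ (.leaf b0 k248 t248) (.leaf b0 k249 t249))) (.br _ _ _ (.leaf b0 k250 t250) (.br _ _ _ (.leaf b0 k251 t251) (.leaf b0 k252 t252)))) (.br _ _ _ (.br _ _ _ (.leaf b0 k253 t253) (.br _ _ _ (.leaf b0 k254 t254) (.leaf b0 k255 t255))) (.br _ _ _ (.leaf b0 k256 t256) (.br _ _ _ (.leaf b0 k257 t257) (.leaf b0 k258 t258))))) (.br _ _ _ (.br _ _ _ (.br _ _ _ (.leaf b0 k259 t259) (.br _ _ _ (.leaf b0 k260 t260) (.leaf b0 k261 t261))) (.br _ _ _ (.leaf b0 k262 t262) (.br _ _ _ (.leaf b0 k263 t263) (.leaf b0 k264 t264)))) (.br _ _ _ (.br _ _ _ (.leaf b0 k265 t265) (.br _ _ _ (.leaf b0 k266 t266) (.leaf b0 k267 t267))) (.br _ _ _ (.leaf b0 k268 t268) (.br _ _ _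 (.leaf b0 k269 t269) (.leaf b0 k270 t270)))))) w15
noncomputable def k271 : KT := (.br (Nat.shiftLeft (nat_lit 0x1801c02803) (nat_lit 66)) (.br (Nat.shiftLeft (nat_lit 0x1801c02405) (nat_lit 66)) (.one (nat_lit 0x6007009013000c00e012027500)) (.br (Nat.shiftLeft (nat_lit 0x3003805) (nat_lit 77)) (.one (nat_lit 0x6007009014000c00e012029500)) (.one (nat_lit 0x600700a00b000c00e014017500)))) (.br (Nat.shiftLeft (nat_lit 0x3003805007) (nat_lit 65)) (.br (Nat.shiftLeft (nat_lit 0x600700a00d) (nat_lit 64)) (.one (nat_lit 0x600700a00c000c00e014019500)) (.one (nat_lit 0x600700a00d000c00e01401b500))) (.br (Nat.shiftLeft (nat_lit 0x1) (nat_lit 112)) (.one (nat_lit 0x600700a00e000c00e01401d500)) (.one (nat_lit 0x1006007009013200c00e012026650)))))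
def t271 : k271.all (jb2 57 fl b0) = true := by decide +kernel
noncomputable def k272 : KT := (.one (nat_lit 0x1006007009014200c00e012028650))
def t272 : k272.all (jb2 57 fl b0) = true := by decide +kernel
noncomputable def k273 : KT := (.one (nat_lit 0x2006007009013400c00e012026650))
def t273 : k273.all (jb2 57 fl b0) = true := by decide +kernel
noncomputable def k274 : KT := (.br (Nat.shiftLeft (nat_lit 0x3) (nat_lit 112)) (.one (nat_lit 0x2006007009014400c00e012028650)) (.one (nat_lit 0x3006007009013600c00e012027600)))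
def t274 : k274.all (jb2 57 fl b0) = true := by decide +kernel
noncomputable def k275 : KT := (.br (Nat.shiftLeft (nat_lit 0x1) (nat_lit 114)) (.one (nat_lit 0x3006007009014600c00e012028650)) (.one (nat_lit 0x4006007009013800c00e012027600)))
def t275 : k275.all (jb2 57 fl b0) = true := by decide +kernel
noncomputable def k276 : KT := (.one (nat_lit 0x4006007009014800c00e012028650))
def t276 : k276.all (jb2 57 fl b0) = true := by decide +kernel
noncomputable def k277 : KT := (.one (nat_lit 0x5006007009013a00c00e012026650))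
def t277 : k277.all (jb2 57 fl b0) = true := by decide +kernel
noncomputable def k278 : KT := (.br (Nat.shiftLeft (nat_lit 0x400001801c02405) (nat_lit 66)) (.br (Nat.shiftLeft (nat_lit 0x1) (nat_lit 124)) (.one (nat_lit 0x5006007009014a00c00e012028650)) (.one (nat_lit 0x1000006007009013000c00e032426511))) (.br (Nat.shiftLeft (nat_lit 0x801) (nat_lit 113)) (.one (nat_lit 0x1000006007009014000c00e032428511)) (.one (nat_lit 0x1003006007009013600c00e032426760))))
def t278 : k278.all (jb2 57 fl b0) = true := by decide +kernel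
noncomputable def k279 : KT := (.br (Nat.shiftLeft (nat_lit 0x1001) (nat_lit 113)) (.br (Nat.shiftLeft (nat_lit 0x1) (nat_lit 125)) (.one (nat_lit 0x1004006007009013800c00e032426760)) (.br (Nat.shiftLeft (nat_lit 0x800001801c02405) (nat_lit 66)) (.one (nat_lit 0x2000006007009013000c00e052826511)) (.one (nat_lit 0x2000006007009014000c00e052828511)))) (.br (Nat.shiftLeft (nat_lit 0x3) (nat_lit 124)) (.br (Nat.shiftLeft (nat_lit 0x801) (nat_lit 114)) (.one (nat_lit 0x2003006007009013600c00e052826760)) (.one (nat_lit 0x2004006007009013800c00e052826760))) (.br (Nat.shiftLeft (nat_lit 0xc00001801c02405) (nat_lit 66)) (.one (nat_lit 0x3000006007009013000c00e072c26511)) (.one (nat_lit 0x3000006007009014000c00e072c28511)))))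
def t279 : k279.all (jb2 57 fl b0) = true := by decide +kernel
noncomputable def k280 : KT := (.br (Nat.shiftLeft (nat_lit 0x5) (nat_lit 124)) (.br (Nat.shiftLeft (nat_lit 0x1) (nat_lit 126)) (.one (nat_lit 0x3004006007009013800c00e072c26760)) (.br (Nat.shiftLeft (nat_lit 0x1000001801c02405) (nat_lit 66)) (.one (nat_lit 0x4000006007009013000c00e093026511)) (.one (nat_lit 0x4000006007009014000c00e093028511)))) (.br (Nat.shiftLeft (nat_lit 0x3) (nat_lit 125)) (.br (Nat.shiftLeft (nat_lit 0x1400001801c02405) (nat_lit 66)) (.one (nat_lit 0x5000006007009013000c00e0b3426511)) (.one (nat_lit 0x5000006007009014000c00e0b3428511))) (.br (Nat.shiftLeft (nat_lit 0x1800001801c02405) (nat_lit 66)) (.one (nat_lit 0x6000006007009013000c00e0d3826511)) (.one (nat_lit 0x6000006007009014000c00e0d3828511)))))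
def t280 : k280.all (jb2 57 fl b0) = true := by decide +kernel
noncomputable def k281 : KT := (.br (Nat.shiftLeft (nat_lit 0x1) (nat_lit 137)) (.br (Nat.shiftLeft (nat_lit 0x9) (nat_lit 124)) (.br (Nat.shiftLeft (nat_lit 0x1) (nat_lit 127)) (.br (Nat.shiftLeft (nat_lit 0x1c00001801c02405) (nat_lit 66)) (.one (nat_lit 0x7000006007009013000c00e0f3c26511)) (.one (nat_lit 0x7000006007009014000c00e0f3c28511))) (.br (Nat.shiftLeft (nat_lit 0x2000001801c02405) (nat_lit 66)) (.one (nat_lit 0x8000006007009013000c00e114026511)) (.one (nat_lit 0x8000006007009014000c00e114028511)))) (.br (Nat.shiftLeft (nat_lit 0x1) (nat_lit 136)) (.br (Nat.shiftLeft (nat_lit 0x2400001801c02405) (nat_lit 66)) (.one (nat_lit 0x9000006007009013000c00e134426511)) (.one (nat_lit 0x9000006007009014000c00e134428511))) (.br (Nat.shiftLeft (nat_lit 0x400001) (nat_lit 114)) (.one (nat_lit 0x1000003006007009013600c02e412026611)) (.one (nat_lit 0x1000004006007009013800c02e412026611))))) (.br (Nat.shiftLeft (nat_lit 0x1) (nat_lit 138)) (.br (Nat.shiftLeft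 (nat_lit 0x3) (nat_lit 136)) (.br (Nat.shiftLeft (nat_lit 0x800001) (nat_lit 114)) (.one (nat_lit 0x2000003006007009013600c04e812026611)) (.one (nat_lit 0x2000004006007009013800c04e812026611))) (.br (Nat.shiftLeft (nat_lit 0xc00001) (nat_lit 114)) (.one (nat_lit 0x3000003006007009013600c06ec12026611)) (.one (nat_lit 0x3000004006007009013800c06ec12026611)))) (.br (Nat.shiftLeft (nat_lit 0x5) (nat_lit 136)) (.br (Nat.shiftLeft (nat_lit 0x1000001) (nat_lit 114)) (.one (nat_lit 0x4000003006007009013600c08f012026611)) (.one (nat_lit 0x4000004006007009013800c08f012026611))) (.br (Nat.shiftLeft (nat_lit 0x1400001) (nat_lit 114)) (.one (nat_lit 0x5000003006007009013600c0af412026611)) (.one (nat_lit 0x5000004006007009013800c0af412026611))))))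
def t281 : k281.all (jb2 57 fl b0) = true := by decide +kernel
noncomputable def k282 : KT := (.br (Nat.shiftLeft (nat_lit 0x1) (nat_lit 139)) (.br (Nat.shiftLeft (nat_lit 0x7) (nat_lit 136)) (.br (Nat.shiftLeft (nat_lit 0x1800001) (nat_lit 114)) (.one (nat_lit 0x6000003006007009013600c0cf812026611)) (.one (nat_lit 0x6000004006007009013800c0cf812026611))) (.br (Nat.shiftLeft (nat_lit 0x1c00001) (nat_lit 114)) (.one (nat_lit 0x7000003006007009013600c0efc12026611)) (.one (nat_lit 0x7000004006007009013800c0efc12026611)))) (.br (Nat.shiftLeft (nat_lit 0x9) (nat_lit 136)) (.br (Nat.shiftLeft (nat_lit 0x2000001) (nat_lit 114)) (.one (nat_lit 0x8000003006007009013600c110012026611)) (.one (nat_lit 0x8000004006007009013800c110012026611))) (.br (Nat.shiftLeft (nat_lit 0x2400001) (nat_lit 114)) (.one (nat_lit 0x9000003006007009013600c130412026611)) (.one (nat_lit 0x9000004006007009013800c130412026611)))))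
def t282 : k282.all (jb2 57 fl b0) = true := by decide +kernel
noncomputable def s16 : KT := (.br (nat_lit 0x4006007009014800c00e012028650) (.br (nat_lit 0x2006007009013400c00e012026650) (.br (nat_lit 0x1006007009013200c00e012026650) k271 (.br (nat_lit 0x1006007009014200c00e012028650) k272 k273)) (.br (nat_lit 0x3006007009013600c00e012027600) k274 (.br (nat_lit 0x4006007009013800c00e012027600) k275 k276))) (.br (nat_lit 0x3000006007009014000c00e072c28511) (.br (nat_lit 0x5006007009013a00c00e012026650) k277 (.br (nat_lit 0x1003006007009013600c00e032426760) k278 k279)) (.br (nat_lit 0x6000006007009014000c00e0d3828511) k280 (.br (nat_lit 0x5000004006007009013800c0af412026611) k281 k282))))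
noncomputable def u16 : KT := (.br (Nat.shiftLeft (nat_lit 0x1801c02803) (nat_lit 66)) (.br (Nat.shiftLeft (nat_lit 0x1801c02405) (nat_lit 66)) (.one (nat_lit 0x6007009013000c00e012026540)) (.br (Nat.shiftLeft (nat_lit 0x3003805) (nat_lit 77)) (.one (nat_lit 0x6007009014000c00e012028540)) (.one (nat_lit 0x600700a00b000c00e014017500)))) (.br (Nat.shiftLeft (nat_lit 0x600700a00d) (nat_lit 64)) (.one (nat_lit 0x600700a00c000c00e014019500)) (.br (Nat.shiftLeft (nat_lit 0x3003805007) (nat_lit 65)) (.one (nat_lit 0x600700a00d000c00e01401b500)) (.one (nat_lit 0x600700a00e000c00e01401d500)))))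
def w16 : u16.all (wj 57 s16) = true := by decide +kernel
def o16 : OkW 57 (jb2 57 fl) u16 := .lift s16 _ (.br _ _ _ (.br _ _ _ (.br _ _ _ (.leaf b0 k271 t271) (.br _ _ _ (.leaf b0 k272 t272) (.leaf b0 k273 t273))) (.br _ _ _ (.leaf b0 k274 t274) (.br _ _ _ (.leaf b0 k275 t275) (.leaf b0 k276 t276)))) (.br _ _ _ (.br _ _ _ (.leaf b0 k277 t277) (.br _ _ _ (.leaf b0 k278 t278) (.leaf b0 k279 t279))) (.br _ _ _ (.leaf b0 k280 t280) (.br _ _ _ (.leaf b0 k281 t281) (.leaf b0 k282 t282))))) w16
noncomputable def k283 : KT := (.br (Nat.shiftLeft (nat_lit 0x5) (nat_lit 112)) (.br (Nat.shiftLeft (nat_lit 0x1) (nat_lit 113)) (.br (Nat.shiftLeft (nat_lit 0x1) (nat_lit 112)) (.one (nat_lit 0x600700a00f000c00e01401f500)) (.one (nat_lit 0x100600700a00f200c00e01401f600))) (.br (Nat.shiftLeft (nat_lit 0x3) (nat_lit 112)) (.one (nat_lit 0x200600700a00f400c00e01401f600)) (.br (Nat.shiftLeft (nat_lit 0x1) (nat_lit 114)) (.one (nat_lit 0x300600700a00f600c00e01401f600)) (.one (nat_lit 0x400600700a00f800c00e01401f600))))) (.br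 (Nat.shiftLeft (nat_lit 0x801) (nat_lit 113)) (.br (Nat.shiftLeft (nat_lit 0x1) (nat_lit 124)) (.one (nat_lit 0x500600700a00fa00c00e01401f600)) (.one (nat_lit 0x100000600700a00f000c00e03441e511))) (.br (Nat.shiftLeft (nat_lit 0x1003) (nat_lit 112)) (.one (nat_lit 0x100200600700a00f400c00e03441f700)) (.br (Nat.shiftLeft (nat_lit 0x401) (nat_lit 114)) (.one (nat_lit 0x100300600700a00f600c00e03441f700)) (.one (nat_lit 0x100400600700a00f800c00e03441e760))))))
def t283 : k283.all (jb2 57 fl b0) = true := by decide +kernel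
noncomputable def k284 : KT := (.br (Nat.shiftLeft (nat_lit 0x1) (nat_lit 125)) (.one (nat_lit 0x100500600700a00fa00c00e03441e760)) (.br (Nat.shiftLeft (nat_lit 0x1001) (nat_lit 113)) (.one (nat_lit 0x200000600700a00f000c00e05481e511)) (.one (nat_lit 0x200300600700a00f600c00e05481f700))))
def t284 : k284.all (jb2 57 fl b0) = true := by decide +kernel
noncomputable def k285 : KT := (.one (nat_lit 0x200400600700a00f800c00e05481e760))
def t285 : k285.all (jb2 57 fl b0) = true := by decide +kernel
noncomputable def k286 : KT := (.br (Nat.shiftLeft (nat_lit 0x3) (nat_lit 124)) (.one (nat_lit 0x200500600700a00fa00c00e05481e760)) (.one (nat_lit 0x300000600700a00f000c00e074c1e511)))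
def t286 : k286.all (jb2 57 fl b0) = true := by decide +kernel
noncomputable def k287 : KT := (.one (nat_lit 0x300400600700a00f800c00e074c1e760))
def t287 : k287.all (jb2 57 fl b0) = true := by decide +kernel
noncomputable def k288 : KT := (.br (Nat.shiftLeft (nat_lit 0x1) (nat_lit 126)) (.one (nat_lit 0x300500600700a00fa00c00e074c1e760)) (.one (nat_lit 0x400000600700a00f000c00e09501e511)))
def t288 : k288.all (jb2 57 fl b0) = true := by decide +kernel
noncomputable def k289 : KT := (.br (Nat.shiftLeft (nat_lit 0x5) (nat_lit 124)) (.one (nat_lit 0x400500600700a00fa00c00e09501e760)) (.one (nat_lit 0x500000600700a00f000c00e0b541e511)))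
def t289 : k289.all (jb2 57 fl b0) = true := by decide +kernel
noncomputable def k290 : KT := (.br (Nat.shiftLeft (nat_lit 0x7) (nat_lit 124)) (.one (nat_lit 0x600000600700a00f000c00e0d581e511)) (.one (nat_lit 0x700000600700a00f000c00e0f5c1e511)))
def t290 : k290.all (jb2 57 fl b0) = true := by decide +kernel
noncomputable def k291 : KT := (.br (Nat.shiftLeft (nat_lit 0x800001) (nat_lit 113)) (.br (Nat.shiftLeft (nat_lit 0x5) (nat_lit 125)) (.br (Nat.shiftLeft (nat_lit 0x9) (nat_lit 124)) (.one (nat_lit 0x800000600700a00f000c00e11601e511)) (.one (nat_lit 0x900000600700a00f000c00e13641e511))) (.br (Nat.shiftLeft (nat_lit 0x1) (nat_lit 136)) (.one (nat_lit 0xa00000600700a00f000c00e15681e511)) (.one (nat_lit 0x100000100600700a00f200c02e41401e611)))) (.br (Nat.shiftLeft (nat_lit 0x400001) (nat_lit 114)) (.br (Nat.shiftLeft (nat_lit 0x1000003) (nat_lit 112)) (.one (nat_lit 0x100000200600700a00f400c02e41401e611)) (.one (nat_lit 0x100000300600700a00f600c02e41401e611))) (.br (Nat.shiftLeft (nat_lit 0x1000005) (nat_lit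 112)) (.one (nat_lit 0x100000400600700a00f800c02e41401e611)) (.one (nat_lit 0x100000500600700a00fa00c02e41401e611)))))
def t291 : k291.all (jb2 57 fl b0) = true := by decide +kernel
noncomputable def k292 : KT := (.br (Nat.shiftLeft (nat_lit 0x3) (nat_lit 136)) (.br (Nat.shiftLeft (nat_lit 0x2000003) (nat_lit 112)) (.br (Nat.shiftLeft (nat_lit 0x1) (nat_lit 137)) (.one (nat_lit 0x100200300600700a00f600c02e45481e870)) (.br (Nat.shiftLeft (nat_lit 0x1000001) (nat_lit 113)) (.one (nat_lit 0x200000100600700a00f200c04e81401e611)) (.one (nat_lit 0x200000200600700a00f400c04e81401e611)))) (.br (Nat.shiftLeft (nat_lit 0x800001) (nat_lit 114)) (.one (nat_lit 0x200000300600700a00f600c04e81401e611)) (.br (Nat.shiftLeft (nat_lit 0x2000005) (nat_lit 112)) (.one (nat_lit 0x200000400600700a00f800c04e81401e611)) (.one (nat_lit 0x200000500600700a00fa00c04e81401e611))))) (.br (Nat.shiftLeft (nat_lit 0xc00001) (nat_lit 114)) (.br (Nat.shiftLeft (nat_lit 0x1800001) (nat_lit 113)) (.one (nat_lit 0x300000100600700a00f200c06ec1401e611))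 (.br (Nat.shiftLeft (nat_lit 0x3000003) (nat_lit 112)) (.one (nat_lit 0x300000200600700a00f400c06ec1401e611)) (.one (nat_lit 0x300000300600700a00f600c06ec1401e611)))) (.br (Nat.shiftLeft (nat_lit 0x1) (nat_lit 138)) (.br (Nat.shiftLeft (nat_lit 0x3000005) (nat_lit 112)) (.one (nat_lit 0x300000400600700a00f800c06ec1401e611)) (.one (nat_lit 0x300000500600700a00fa00c06ec1401e611))) (.br (Nat.shiftLeft (nat_lit 0x2000001) (nat_lit 113)) (.one (nat_lit 0x400000100600700a00f200c08f01401e611)) (.one (nat_lit 0x400000200600700a00f400c08f01401e611))))))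
def t292 : k292.all (jb2 57 fl b0) = true := by decide +kernel
noncomputable def k293 : KT := (.br (Nat.shiftLeft (nat_lit 0x4000005) (nat_lit 112)) (.br (Nat.shiftLeft (nat_lit 0x1000001) (nat_lit 114)) (.one (nat_lit 0x400000300600700a00f600c08f01401e611)) (.one (nat_lit 0x400000400600700a00f800c08f01401e611))) (.br (Nat.shiftLeft (nat_lit 0x5) (nat_lit 136)) (.one (nat_lit 0x400000500600700a00fa00c08f01401e611)) (.br (Nat.shiftLeft (nat_lit 0x2800001) (nat_lit 113)) (.one (nat_lit 0x500000100600700a00f200c0af41401e611)) (.one (nat_lit 0x500000200600700a00f400c0af41401e611)))))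
def t293 : k293.all (jb2 57 fl b0) = true := by decide +kernel
noncomputable def k294 : KT := (.br (Nat.shiftLeft (nat_lit 0x1400001) (nat_lit 114)) (.one (nat_lit 0x500000300600700a00f600c0af41401e611)) (.br (Nat.shiftLeft (nat_lit 0x5000005) (nat_lit 112)) (.one (nat_lit 0x500000400600700a00f800c0af41401e611)) (.one (nat_lit 0x500000500600700a00fa00c0af41401e611))))
def t294 : k294.all (jb2 57 fl b0) = true := by decide +kernel
noncomputable def k295 : KT := (.br (Nat.shiftLeft (nat_lit 0x3000001) (nat_lit 113)) (.one (nat_lit 0x600000100600700a00f200c0cf81401e611)) (.one (nat_lit 0x600000200600700a00f400c0cf81401e611)))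
def t295 : k295.all (jb2 57 fl b0) = true := by decide +kernel
noncomputable def k296 : KT := (.br (Nat.shiftLeft (nat_lit 0x1800001) (nat_lit 114)) (.one (nat_lit 0x600000300600700a00f600c0cf81401e611)) (.br (Nat.shiftLeft (nat_lit 0x6000005) (nat_lit 112)) (.one (nat_lit 0x600000400600700a00f800c0cf81401e611)) (.one (nat_lit 0x600000500600700a00fa00c0cf81401e611))))
def t296 : k296.all (jb2 57 fl b0) = true := by decide +kernel
noncomputable def k297 : KT := (.br (Nat.shiftLeft (nat_lit 0x3800001) (nat_lit 113)) (.one (nat_lit 0x700000100600700a00f200c0efc1401e611)) (.one (nat_lit 0x700000200600700a00f400c0efc1401e611)))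
def t297 : k297.all (jb2 57 fl b0) = true := by decide +kernel
noncomputable def k298 : KT := (.br (Nat.shiftLeft (nat_lit 0x7000005) (nat_lit 112)) (.br (Nat.shiftLeft (nat_lit 0x1c00001) (nat_lit 114)) (.one (nat_lit 0x700000300600700a00f600c0efc1401e611)) (.one (nat_lit 0x700000400600700a00f800c0efc1401e611))) (.br (Nat.shiftLeft (nat_lit 0x1) (nat_lit 139)) (.one (nat_lit 0x700000500600700a00fa00c0efc1401e611)) (.one (nat_lit 0x800000100600700a00f200c11001401e611))))
def t298 : k298.all (jb2 57 fl b0) = true := by decide +kernel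
noncomputable def k299 : KT := (.br (Nat.shiftLeft (nat_lit 0x2000001) (nat_lit 114)) (.br (Nat.shiftLeft (nat_lit 0x8000003) (nat_lit 112)) (.one (nat_lit 0x800000200600700a00f400c11001401e611)) (.one (nat_lit 0x800000300600700a00f600c11001401e611))) (.br (Nat.shiftLeft (nat_lit 0x8000005) (nat_lit 112)) (.one (nat_lit 0x800000400600700a00f800c11001401e611)) (.br (Nat.shiftLeft (nat_lit 0x9) (nat_lit 136)) (.one (nat_lit 0x800000500600700a00fa00c11001401e611)) (.one (nat_lit 0x900000100600700a00f200c13041401e611)))))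
def t299 : k299.all (jb2 57 fl b0) = true := by decide +kernel
noncomputable def k300 : KT := (.br (Nat.shiftLeft (nat_lit 0x1) (nat_lit 148)) (.br (Nat.shiftLeft (nat_lit 0x5) (nat_lit 137)) (.br (Nat.shiftLeft (nat_lit 0x2400001) (nat_lit 114)) (.br (Nat.shiftLeft (nat_lit 0x9000003) (nat_lit 112)) (.one (nat_lit 0x900000200600700a00f400c13041401e611)) (.one (nat_lit 0x900000300600700a00f600c13041401e611))) (.br (Nat.shiftLeft (nat_lit 0x9000005) (nat_lit 112)) (.one (nat_lit 0x900000400600700a00f800c13041401e611)) (.one (nat_lit 0x900000500600700a00fa00c13041401e611)))) (.br (Nat.shiftLeft (nat_lit 0xa000003) (nat_lit 112)) (.br (Nat.shiftLeft (nat_lit 0x5000001) (nat_lit 113)) (.one (nat_lit 0xa00000100600700a00f200c15081401e611)) (.one (nat_lit 0xa00000200600700a00f400c15081401e611))) (.br (Nat.shiftLeft (nat_lit 0x2800001) (nat_lit 114)) (.one (nat_lit 0xa00000300600700a00f600c15081401e611)) (.br (Nat.shiftLeft (nat_lit 0xa000005) (nat_lit 112)) (.one (nat_lit 0xa00000400600700a00f800c15081401e611))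 (.one (nat_lit 0xa00000500600700a00fa00c15081401e611)))))) (.br (Nat.shiftLeft (nat_lit 0x2000001003) (nat_lit 112)) (.br (Nat.shiftLeft (nat_lit 0x800001) (nat_lit 125)) (.br (Nat.shiftLeft (nat_lit 0x1000001003) (nat_lit 112)) (.one (nat_lit 0x100000100200600700a00f402c40e03441e711)) (.one (nat_lit 0x100000100300600700a00f602c40e03441e711))) (.br (Nat.shiftLeft (nat_lit 0x1) (nat_lit 149)) (.one (nat_lit 0x100000200300600700a00f602c40e05481e711)) (.one (nat_lit 0x200000100200600700a00f404c80e03441e711)))) (.br (Nat.shiftLeft (nat_lit 0x3) (nat_lit 148)) (.br (Nat.shiftLeft (nat_lit 0x1000001) (nat_lit 125)) (.one (nat_lit 0x200000100300600700a00f604c80e03441e711)) (.one (nat_lit 0x200000200300600700a00f604c80e05481e711))) (.br (Nat.shiftLeft (nat_lit 0x3000001003) (nat_lit 112)) (.one (nat_lit 0x300000100200600700a00f406cc0e03441e711)) (.br (Nat.shiftLeft (nat_lit 0x1800001) (nat_lit 125)) (.one (nat_lit 0x300000100300600700a00f606cc0e03441e711)) (.one (nat_lit 0x300000200300600700a00f606cc0e05481e711)))))))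
def t300 : k300.all (jb2 57 fl b0) = true := by decide +kernel
noncomputable def k301 : KT := (.br (Nat.shiftLeft (nat_lit 0x2000001) (nat_lit 125)) (.br (Nat.shiftLeft (nat_lit 0x4000001003) (nat_lit 112)) (.one (nat_lit 0x400000100200600700a00f408d00e03441e711)) (.one (nat_lit 0x400000100300600700a00f608d00e03441e711))) (.br (Nat.shiftLeft (nat_lit 0x5) (nat_lit 148)) (.one (nat_lit 0x400000200300600700a00f608d00e05481e711)) (.br (Nat.shiftLeft (nat_lit 0x5000001003) (nat_lit 112)) (.one (nat_lit 0x500000100200600700a00f40ad40e03441e711)) (.one (nat_lit 0x500000100300600700a00f60ad40e03441e711)))))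
def t301 : k301.all (jb2 57 fl b0) = true := by decide +kernel
noncomputable def k302 : KT := (.br (Nat.shiftLeft (nat_lit 0x6000001003) (nat_lit 112)) (.br (Nat.shiftLeft (nat_lit 0x3) (nat_lit 149)) (.one (nat_lit 0x500000200300600700a00f60ad40e05481e711)) (.one (nat_lit 0x600000100200600700a00f40cd80e03441e711))) (.br (Nat.shiftLeft (nat_lit 0x3000001) (nat_lit 125)) (.one (nat_lit 0x600000100300600700a00f60cd80e03441e711)) (.one (nat_lit 0x600000200300600700a00f60cd80e05481e711))))
def t302 : k302.all (jb2 57 fl b0) = true := by decide +kernel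
noncomputable def k303 : KT := (.br (Nat.shiftLeft (nat_lit 0x3800001) (nat_lit 125)) (.br (Nat.shiftLeft (nat_lit 0x7000001003) (nat_lit 112)) (.one (nat_lit 0x700000100200600700a00f40edc0e03441e711)) (.one (nat_lit 0x700000100300600700a00f60edc0e03441e711))) (.br (Nat.shiftLeft (nat_lit 0x1) (nat_lit 151)) (.one (nat_lit 0x700000200300600700a00f60edc0e05481e711)) (.br (Nat.shiftLeft (nat_lit 0x8000001003) (nat_lit 112)) (.one (nat_lit 0x800000100200600700a00f410e00e03441e711)) (.one (nat_lit 0x800000100300600700a00f610e00e03441e711)))))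
def t303 : k303.all (jb2 57 fl b0) = true := by decide +kernel
noncomputable def k304 : KT := (.br (Nat.shiftLeft (nat_lit 0x4800001) (nat_lit 125)) (.br (Nat.shiftLeft (nat_lit 0x9) (nat_lit 148)) (.one (nat_lit 0x800000200300600700a00f610e00e05481e711)) (.br (Nat.shiftLeft (nat_lit 0x9000001003) (nat_lit 112)) (.one (nat_lit 0x900000100200600700a00f412e40e03441e711)) (.one (nat_lit 0x900000100300600700a00f612e40e03441e711)))) (.br (Nat.shiftLeft (nat_lit 0xa000001003) (nat_lit 112)) (.br (Nat.shiftLeft (nat_lit 0x5) (nat_lit 149)) (.one (nat_lit 0x900000200300600700a00f612e40e05481e711)) (.one (nat_lit 0xa00000100200600700a00f414e80e03441e711))) (.br (Nat.shiftLeft (nat_lit 0x5000001) (nat_lit 125)) (.one (nat_lit 0xa00000100300600700a00f614e80e03441e711)) (.one (nat_lit 0xa00000200300600700a00f614e80e05481e711)))))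
def t304 : k304.all (jb2 57 fl b0) = true := by decide +kernel
noncomputable def s17 : KT := (.br (nat_lit 0x500000200600700a00f400c0af41401e611) (.br (nat_lit 0x300400600700a00f800c00e074c1e760) (.br (nat_lit 0x200300600700a00f600c00e05481f700) (.br (nat_lit 0x100400600700a00f800c00e03441e760) k283 k284) (.br (nat_lit 0x200400600700a00f800c00e05481e760) k285 (.br (nat_lit 0x300000600700a00f000c00e074c1e511) k286 k287))) (.br (nat_lit 0x700000600700a00f000c00e0f5c1e511) (.br (nat_lit 0x400000600700a00f000c00e09501e511) k288 (.br (nat_lit 0x500000600700a00f000c00e0b541e511) k289 k290)) (.br (nat_lit 0x100000500600700a00fa00c02e41401e611) k291 (.br (nat_lit 0x400000200600700a00f400c08f01401e611) k292 k293)))) (.br (nat_lit 0x800000100600700a00f200c11001401e611) (.br (nat_lit 0x600000200600700a00f400c0cf81401e611) (.br (nat_lit 0x500000500600700a00fa00c0af41401e611) k294 k295) (.br (nat_lit 0x600000500600700a00fa00c0cf81401e611) k296 (.br (nat_lit 0x700000200600700a00f400c0efc1401e611) k297 k298))) (.br (nat_lit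 0x500000100300600700a00f60ad40e03441e711) (.br (nat_lit 0x900000100600700a00f200c13041401e611) k299 (.br (nat_lit 0x300000200300600700a00f606cc0e05481e711) k300 k301)) (.br (nat_lit 0x600000200300600700a00f60cd80e05481e711) k302 (.br (nat_lit 0x800000100300600700a00f610e00e03441e711) k303 k304)))))
noncomputable def u17 : KT := (.one (nat_lit 0x600700a00f000c00e01401e540))
def w17 : u17.all (wj 57 s17) = true := by decide +kernel
def o17 : OkW 57 (jb2 57 fl) u17 := .lift s17 _ (.br _ _ _ (.br _ _ _ (.br _ _ _ (.br _ _ _ (.leaf b0 k283 t283) (.leaf b0 k284 t284)) (.br _ _ _ (.leaf b0 k285 t285) (.br _ _ _ (.leaf b0 k286 t286) (.leaf b0 k287 t287)))) (.br _ _ _ (.br _ _ _ (.leaf b0 k288 t288) (.br _ _ _ (.leaf b0 k289 t289) (.leaf b0 k290 t290))) (.br _ _ _ (.leaf b0 k291 t291) (.br _ _ _ (.leaf b0 k292 t292) (.leaf b0 k293 t293))))) (.br _ _ _ (.br _ _ _ (.br _ _ _ (.leaf b0 k294 t294) (.leaf b0 k295 t295)) (.br _ _ _ (.leaf b0 k296 t296) (.br _ _ _ (.leaf b0 k297 t297) (.leaf b0 k298 t298)))) (.br _ _ _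 (.br _ _ _ (.leaf b0 k299 t299) (.br _ _ _ (.leaf b0 k300 t300) (.leaf b0 k301 t301))) (.br _ _ _ (.leaf b0 k302 t302) (.br _ _ _ (.leaf b0 k303 t303) (.leaf b0 k304 t304)))))) w17
noncomputable def k305 : KT := (.br (Nat.shiftLeft (nat_lit 0x1) (nat_lit 114)) (.br (Nat.shiftLeft (nat_lit 0x1) (nat_lit 113)) (.br (Nat.shiftLeft (nat_lit 0x1) (nat_lit 112)) (.one (nat_lit 0x600700a010000c00e014021500)) (.one (nat_lit 0x100600700a010200c00e014021600))) (.br (Nat.shiftLeft (nat_lit 0x3) (nat_lit 112)) (.one (nat_lit 0x200600700a010400c00e014021600)) (.one (nat_lit 0x300600700a010600c00e014021600)))) (.br (Nat.shiftLeft (nat_lit 0x1) (nat_lit 124)) (.br (Nat.shiftLeft (nat_lit 0x5) (nat_lit 112)) (.one (nat_lit 0x400600700a010800c00e014021600)) (.one (nat_lit 0x500600700a010a00c00e014021600))) (.br (Nat.shiftLeft (nat_lit 0x801) (nat_lit 113)) (.one (nat_lit 0x100000600700a010000c00e034420511)) (.br (Nat.shiftLeft (nat_lit 0x1003) (nat_lit 112)) (.one (nat_lit 0x100200600700a010400c00e034421700)) (.one (nat_lit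 0x100300600700a010600c00e034420760))))))
def t305 : k305.all (jb2 57 fl b0) = true := by decide +kernel
noncomputable def k306 : KT := (.br (Nat.shiftLeft (nat_lit 0x1005) (nat_lit 112)) (.one (nat_lit 0x100400600700a010800c00e034420760)) (.br (Nat.shiftLeft (nat_lit 0x1) (nat_lit 125)) (.one (nat_lit 0x100500600700a010a00c00e034420760)) (.one (nat_lit 0x200000600700a010000c00e054820511))))
def t306 : k306.all (jb2 57 fl b0) = true := by decide +kernel
noncomputable def k307 : KT := (.one (nat_lit 0x200300600700a010600c00e054820760))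
def t307 : k307.all (jb2 57 fl b0) = true := by decide +kernel
noncomputable def k308 : KT := (.one (nat_lit 0x200400600700a010800c00e054820760))
def t308 : k308.all (jb2 57 fl b0) = true := by decide +kernel
noncomputable def k309 : KT := (.br (Nat.shiftLeft (nat_lit 0x3) (nat_lit 124)) (.one (nat_lit 0x200500600700a010a00c00e054820760)) (.one (nat_lit 0x300000600700a010000c00e074c20511)))
def t309 : k309.all (jb2 57 fl b0) = true := by decide +kernel
noncomputable def k310 : KT := (.one (nat_lit 0x300400600700a010800c00e074c20760))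
def t310 : k310.all (jb2 57 fl b0) = true := by decide +kernel
noncomputable def k311 : KT := (.br (Nat.shiftLeft (nat_lit 0x1) (nat_lit 126)) (.one (nat_lit 0x300500600700a010a00c00e074c20760)) (.br (Nat.shiftLeft (nat_lit 0x1001) (nat_lit 114)) (.one (nat_lit 0x400000600700a010000c00e095020511)) (.one (nat_lit 0x400500600700a010a00c00e095020760))))
def t311 : k311.all (jb2 57 fl b0) = true := by decide +kernel
noncomputable def k312 : KT := (.br (Nat.shiftLeft (nat_lit 0x3) (nat_lit 125)) (.one (nat_lit 0x500000600700a010000c00e0b5420511)) (.br (Nat.shiftLeft (nat_lit 0x7) (nat_lit 124)) (.one (nat_lit 0x600000600700a010000c00e0d5820511)) (.one (nat_lit 0x700000600700a010000c00e0f5c20511))))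
def t312 : k312.all (jb2 57 fl b0) = true := by decide +kernel
noncomputable def k313 : KT := (.br (Nat.shiftLeft (nat_lit 0x2000003) (nat_lit 112)) (.br (Nat.shiftLeft (nat_lit 0x1000003) (nat_lit 112)) (.br (Nat.shiftLeft (nat_lit 0x5) (nat_lit 125)) (.br (Nat.shiftLeft (nat_lit 0x9) (nat_lit 124)) (.one (nat_lit 0x800000600700a010000c00e116020511)) (.one (nat_lit 0x900000600700a010000c00e136420511))) (.br (Nat.shiftLeft (nat_lit 0x1) (nat_lit 136)) (.one (nat_lit 0xa00000600700a010000c00e156820511)) (.br (Nat.shiftLeft (nat_lit 0x800001) (nat_lit 113)) (.one (nat_lit 0x100000100600700a010200c02e414020611)) (.one (nat_lit 0x100000200600700a010400c02e414020611))))) (.br (Nat.shiftLeft (nat_lit 0x1000005) (nat_lit 112)) (.br (Nat.shiftLeft (nat_lit 0x400001) (nat_lit 114)) (.one (nat_lit 0x100000300600700a010600c02e414020611)) (.one (nat_lit 0x100000400600700a010800c02e414020611))) (.br (Nat.shiftLeft (nat_lit 0x1) (nat_lit 137)) (.one (nat_lit 0x100000500600700a010a00c02e414020611)) (.br (Nat.shiftLeft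 (nat_lit 0x1000001) (nat_lit 113)) (.one (nat_lit 0x200000100600700a010200c04e814020611)) (.one (nat_lit 0x200000200600700a010400c04e814020611)))))) (.br (Nat.shiftLeft (nat_lit 0x3000003) (nat_lit 112)) (.br (Nat.shiftLeft (nat_lit 0x2000005) (nat_lit 112)) (.br (Nat.shiftLeft (nat_lit 0x800001) (nat_lit 114)) (.one (nat_lit 0x200000300600700a010600c04e814020611)) (.one (nat_lit 0x200000400600700a010800c04e814020611))) (.br (Nat.shiftLeft (nat_lit 0x3) (nat_lit 136)) (.one (nat_lit 0x200000500600700a010a00c04e814020611)) (.br (Nat.shiftLeft (nat_lit 0x1800001) (nat_lit 113)) (.one (nat_lit 0x300000100600700a010200c06ec14020611)) (.one (nat_lit 0x300000200600700a010400c06ec14020611))))) (.br (Nat.shiftLeft (nat_lit 0x3000005) (nat_lit 112)) (.br (Nat.shiftLeft (nat_lit 0xc00001) (nat_lit 114)) (.one (nat_lit 0x300000300600700a010600c06ec14020611)) (.one (nat_lit 0x300000400600700a010800c06ec14020611))) (.br (Nat.shiftLeft (nat_lit 0x1) (nat_lit 138)) (.one (nat_lit 0x300000500600700a010a00c06ec14020611))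 (.br (Nat.shiftLeft (nat_lit 0x2000001) (nat_lit 113)) (.one (nat_lit 0x400000100600700a010200c08f014020611)) (.one (nat_lit 0x400000200600700a010400c08f014020611)))))))
def t313 : k313.all (jb2 57 fl b0) = true := by decide +kernel
noncomputable def k314 : KT := (.br (Nat.shiftLeft (nat_lit 0x5) (nat_lit 136)) (.br (Nat.shiftLeft (nat_lit 0x1000001) (nat_lit 114)) (.one (nat_lit 0x400000300600700a010600c08f014020611)) (.br (Nat.shiftLeft (nat_lit 0x4000005) (nat_lit 112)) (.one (nat_lit 0x400000400600700a010800c08f014020611)) (.one (nat_lit 0x400000500600700a010a00c08f014020611)))) (.br (Nat.shiftLeft (nat_lit 0x2800001) (nat_lit 113)) (.one (nat_lit 0x500000100600700a010200c0af414020611)) (.br (Nat.shiftLeft (nat_lit 0x5000003) (nat_lit 112)) (.one (nat_lit 0x500000200600700a010400c0af414020611)) (.one (nat_lit 0x500000300600700a010600c0af414020611)))))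
def t314 : k314.all (jb2 57 fl b0) = true := by decide +kernel
noncomputable def k315 : KT := (.br (Nat.shiftLeft (nat_lit 0x3) (nat_lit 137)) (.br (Nat.shiftLeft (nat_lit 0x5000005) (nat_lit 112)) (.one (nat_lit 0x500000400600700a010800c0af414020611)) (.one (nat_lit 0x500000500600700a010a00c0af414020611))) (.br (Nat.shiftLeft (nat_lit 0x3000001) (nat_lit 113)) (.one (nat_lit 0x600000100600700a010200c0cf814020611)) (.one (nat_lit 0x600000200600700a010400c0cf814020611))))
def t315 : k315.all (jb2 57 fl b0) = true := by decide +kernel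
noncomputable def k316 : KT := (.br (Nat.shiftLeft (nat_lit 0x6000005) (nat_lit 112)) (.br (Nat.shiftLeft (nat_lit 0x1800001) (nat_lit 114)) (.one (nat_lit 0x600000300600700a010600c0cf814020611)) (.one (nat_lit 0x600000400600700a010800c0cf814020611))) (.br (Nat.shiftLeft (nat_lit 0x7) (nat_lit 136)) (.one (nat_lit 0x600000500600700a010a00c0cf814020611)) (.one (nat_lit 0x700000100600700a010200c0efc14020611))))
def t316 : k316.all (jb2 57 fl b0) = true := by decide +kernel
noncomputable def k317 : KT := (.br (Nat.shiftLeft (nat_lit 0x1c00001) (nat_lit 114)) (.br (Nat.shiftLeft (nat_lit 0x7000003) (nat_lit 112)) (.one (nat_lit 0x700000200600700a010400c0efc14020611)) (.one (nat_lit 0x700000300600700a010600c0efc14020611))) (.br (Nat.shiftLeft (nat_lit 0x7000005) (nat_lit 112)) (.one (nat_lit 0x700000400600700a010800c0efc14020611)) (.br (Nat.shiftLeft (nat_lit 0x1) (nat_lit 139)) (.one (nat_lit 0x700000500600700a010a00c0efc14020611)) (.one (nat_lit 0x800000100600700a010200c110014020611)))))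
def t317 : k317.all (jb2 57 fl b0) = true := by decide +kernel
noncomputable def k318 : KT := (.br (Nat.shiftLeft (nat_lit 0x4800001) (nat_lit 113)) (.br (Nat.shiftLeft (nat_lit 0x2000001) (nat_lit 114)) (.br (Nat.shiftLeft (nat_lit 0x8000003) (nat_lit 112)) (.one (nat_lit 0x800000200600700a010400c110014020611)) (.one (nat_lit 0x800000300600700a010600c110014020611))) (.br (Nat.shiftLeft (nat_lit 0x8000005) (nat_lit 112)) (.one (nat_lit 0x800000400600700a010800c110014020611)) (.br (Nat.shiftLeft (nat_lit 0x9) (nat_lit 136)) (.one (nat_lit 0x800000500600700a010a00c110014020611)) (.one (nat_lit 0x900000100600700a010200c130414020611))))) (.br (Nat.shiftLeft (nat_lit 0x2400001) (nat_lit 114)) (.br (Nat.shiftLeft (nat_lit 0x9000003) (nat_lit 112)) (.one (nat_lit 0x900000200600700a010400c130414020611)) (.one (nat_lit 0x900000300600700a010600c130414020611))) (.br (Nat.shiftLeft (nat_lit 0x9000005) (nat_lit 112)) (.one (nat_lit 0x900000400600700a010800c130414020611)) (.br (Nat.shiftLeft (nat_lit 0x5) (nat_lit 137))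 (.one (nat_lit 0x900000500600700a010a00c130414020611)) (.one (nat_lit 0xa00000100600700a010200c150814020611))))))
def t318 : k318.all (jb2 57 fl b0) = true := by decide +kernel
noncomputable def k319 : KT := (.br (Nat.shiftLeft (nat_lit 0x1) (nat_lit 149)) (.br (Nat.shiftLeft (nat_lit 0x2800001) (nat_lit 114)) (.br (Nat.shiftLeft (nat_lit 0xa000003) (nat_lit 112)) (.one (nat_lit 0xa00000200600700a010400c150814020611)) (.one (nat_lit 0xa00000300600700a010600c150814020611))) (.br (Nat.shiftLeft (nat_lit 0xa000005) (nat_lit 112)) (.one (nat_lit 0xa00000400600700a010800c150814020611)) (.br (Nat.shiftLeft (nat_lit 0x1) (nat_lit 148)) (.one (nat_lit 0xa00000500600700a010a00c150814020611)) (.one (nat_lit 0x100000100200600700a010402c40e034420711))))) (.br (Nat.shiftLeft (nat_lit 0x5) (nat_lit 148)) (.br (Nat.shiftLeft (nat_lit 0x3) (nat_lit 148)) (.one (nat_lit 0x200000100200600700a010404c80e034420711)) (.br (Nat.shiftLeft (nat_lit 0x1) (nat_lit 150)) (.one (nat_lit 0x300000100200600700a010406cc0e034420711)) (.one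 (nat_lit 0x400000100200600700a010408d00e034420711)))) (.br (Nat.shiftLeft (nat_lit 0x3) (nat_lit 149)) (.one (nat_lit 0x500000100200600700a01040ad40e034420711)) (.br (Nat.shiftLeft (nat_lit 0x7) (nat_lit 148)) (.one (nat_lit 0x600000100200600700a01040cd80e034420711)) (.one (nat_lit 0x700000100200600700a01040edc0e034420711))))))
def t319 : k319.all (jb2 57 fl b0) = true := by decide +kernel
noncomputable def k320 : KT := (.br (Nat.shiftLeft (nat_lit 0x9) (nat_lit 148)) (.one (nat_lit 0x800000100200600700a010410e00e034420711)) (.br (Nat.shiftLeft (nat_lit 0x5) (nat_lit 149)) (.one (nat_lit 0x900000100200600700a010412e40e034420711)) (.one (nat_lit 0xa00000100200600700a010414e80e034420711))))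
def t320 : k320.all (jb2 57 fl b0) = true := by decide +kernel
noncomputable def s18 : KT := (.br (nat_lit 0x700000600700a010000c00e0f5c20511) (.br (nat_lit 0x200400600700a010800c00e054820760) (.br (nat_lit 0x200000600700a010000c00e054820511) (.br (nat_lit 0x100300600700a010600c00e034420760) k305 k306) (.br (nat_lit 0x200300600700a010600c00e054820760) k307 k308)) (.br (nat_lit 0x300400600700a010800c00e074c20760) (.br (nat_lit 0x300000600700a010000c00e074c20511) k309 k310) (.br (nat_lit 0x400500600700a010a00c00e095020760) k311 k312))) (.br (nat_lit 0x700000100600700a010200c0efc14020611) (.br (nat_lit 0x500000300600700a010600c0af414020611) (.br (nat_lit 0x400000200600700a010400c08f014020611) k313 k314) (.br (nat_lit 0x600000200600700a010400c0cf814020611) k315 k316)) (.br (nat_lit 0xa00000100600700a010200c150814020611) (.br (nat_lit 0x800000100600700a010200c110014020611) k317 k318) (.br (nat_lit 0x700000100200600700a01040edc0e034420711) k319 k320))))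
noncomputable def u18 : KT := (.one (nat_lit 0x600700a010000c00e014020540))
def w18 : u18.all (wj 57 s18) = true := by decide +kernel
def o18 : OkW 57 (jb2 57 fl) u18 := .lift s18 _ (.br _ _ _ (.br _ _ _ (.br _ _ _ (.br _ _ _ (.leaf b0 k305 t305) (.leaf b0 k306 t306)) (.br _ _ _ (.leaf b0 k307 t307) (.leaf b0 k308 t308))) (.br _ _ _ (.br _ _ _ (.leaf b0 k309 t309) (.leaf b0 k310 t310)) (.br _ _ _ (.leaf b0 k311 t311) (.leaf b0 k312 t312)))) (.br _ _ _ (.br _ _ _ (.br _ _ _ (.leaf b0 k313 t313) (.leaf b0 k314 t314)) (.br _ _ _ (.leaf b0 k315 t315) (.leaf b0 k316 t316))) (.br _ _ _ (.br _ _ _ (.leaf b0 k317 t317) (.leaf b0 k318 t318)) (.br _ _ _ (.leaf b0 k319 t319) (.leaf b0 k320 t320))))) w18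
noncomputable def k321 : KT := (.br (Nat.shiftLeft (nat_lit 0x600700b) (nat_lit 76)) (.br (Nat.shiftLeft (nat_lit 0x3003805009) (nat_lit 65)) (.one (nat_lit 0x600700a011000c00e014023500)) (.br (Nat.shiftLeft (nat_lit 0x600700a013) (nat_lit 64)) (.one (nat_lit 0x600700a012000c00e014025500)) (.one (nat_lit 0x600700a013000c00e014027500)))) (.br (Nat.shiftLeft (nat_lit 0x1) (nat_lit 112)) (.br (Nat.shiftLeft (nat_lit 0x600700b00d) (nat_lit 64)) (.one (nat_lit 0x600700b00c000c00e016019500)) (.one (nat_lit 0x600700b00d000c00e01601b500))) (.br (Nat.shiftLeft (nat_lit 0x803003805009) (nat_lit 65)) (.one (nat_lit 0x100600700a011200c00e014023600)) (.one (nat_lit 0x100600700a012200c00e014024650)))))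
def t321 : k321.all (jb2 57 fl b0) = true := by decide +kernel
noncomputable def k322 : KT := (.br (Nat.shiftLeft (nat_lit 0x1) (nat_lit 113)) (.one (nat_lit 0x100600700a013200c00e014026650)) (.br (Nat.shiftLeft (nat_lit 0x1003003805009) (nat_lit 65)) (.one (nat_lit 0x200600700a011400c00e014023600)) (.one (nat_lit 0x200600700a012400c00e014025600))))
def t322 : k322.all (jb2 57 fl b0) = true := by decide +kernel
noncomputable def k323 : KT := (.br (Nat.shiftLeft (nat_lit 0x3) (nat_lit 112)) (.one (nat_lit 0x200600700a013400c00e014026650)) (.br (Nat.shiftLeft (nat_lit 0x1803003805009) (nat_lit 65)) (.one (nat_lit 0x300600700a011600c00e014023600)) (.one (nat_lit 0x300600700a012600c00e014025600))))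
def t323 : k323.all (jb2 57 fl b0) = true := by decide +kernel
noncomputable def k324 : KT := (.br (Nat.shiftLeft (nat_lit 0x1) (nat_lit 114)) (.one (nat_lit 0x300600700a013600c00e014026650)) (.br (Nat.shiftLeft (nat_lit 0x2003003805009) (nat_lit 65)) (.one (nat_lit 0x400600700a011800c00e014023600)) (.one (nat_lit 0x400600700a012800c00e014025600))))
def t324 : k324.all (jb2 57 fl b0) = true := by decide +kernel
noncomputable def k325 : KT := (.br (Nat.shiftLeft (nat_lit 0x5) (nat_lit 112)) (.one (nat_lit 0x400600700a013800c00e014026650)) (.one (nat_lit 0x500600700a011a00c00e014023600)))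
def t325 : k325.all (jb2 57 fl b0) = true := by decide +kernel
noncomputable def k326 : KT := (.one (nat_lit 0x500600700a012a00c00e014024650))
def t326 : k326.all (jb2 57 fl b0) = true := by decide +kernel
noncomputable def k327 : KT := (.br (Nat.shiftLeft (nat_lit 0x800003003805009) (nat_lit 65)) (.br (Nat.shiftLeft (nat_lit 0x1) (nat_lit 124)) (.one (nat_lit 0x500600700a013a00c00e014026650)) (.one (nat_lit 0x100000600700a011000c00e034422511))) (.br (Nat.shiftLeft (nat_lit 0x100000600700a013) (nat_lit 64)) (.one (nat_lit 0x100000600700a012000c00e034424511)) (.one (nat_lit 0x100000600700a013000c00e034426511))))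
def t327 : k327.all (jb2 57 fl b0) = true := by decide +kernel
noncomputable def k328 : KT := (.one (nat_lit 0x100200600700a011400c00e034422760))
def t328 : k328.all (jb2 57 fl b0) = true := by decide +kernel
noncomputable def k329 : KT := (.br (Nat.shiftLeft (nat_lit 0x1003) (nat_lit 112)) (.one (nat_lit 0x100200600700a012400c00e034424760)) (.one (nat_lit 0x100300600700a011600c00e034422760)))
def t329 : k329.all (jb2 57 fl b0) = true := by decide +kernel
noncomputable def k330 : KT := (.br (Nat.shiftLeft (nat_lit 0x401) (nat_lit 114)) (.one (nat_lit 0x100300600700a012600c00e034424760)) (.br (Nat.shiftLeft (nat_lit 0x802003003805009) (nat_lit 65)) (.one (nat_lit 0x100400600700a011800c00e034422760)) (.one (nat_lit 0x100400600700a012800c00e034424760))))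
def t330 : k330.all (jb2 57 fl b0) = true := by decide +kernel
noncomputable def k331 : KT := (.br (Nat.shiftLeft (nat_lit 0x1000003003805009) (nat_lit 65)) (.br (Nat.shiftLeft (nat_lit 0x1) (nat_lit 125)) (.one (nat_lit 0x100500600700a011a00c00e034422760)) (.one (nat_lit 0x200000600700a011000c00e054822511))) (.br (Nat.shiftLeft (nat_lit 0x200000600700a013) (nat_lit 64)) (.one (nat_lit 0x200000600700a012000c00e054824511)) (.br (Nat.shiftLeft (nat_lit 0x1001) (nat_lit 113)) (.one (nat_lit 0x200000600700a013000c00e054826511)) (.one (nat_lit 0x200300600700a011600c00e054822760)))))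
def t331 : k331.all (jb2 57 fl b0) = true := by decide +kernel
noncomputable def k332 : KT := (.br (Nat.shiftLeft (nat_lit 0x801) (nat_lit 114)) (.one (nat_lit 0x200300600700a012600c00e054824760)) (.one (nat_lit 0x200400600700a011800c00e054822760)))
def t332 : k332.all (jb2 57 fl b0) = true := by decide +kernel
noncomputable def k333 : KT := (.br (Nat.shiftLeft (nat_lit 0x3) (nat_lit 124)) (.br (Nat.shiftLeft (nat_lit 0x2005) (nat_lit 112)) (.one (nat_lit 0x200400600700a012800c00e054824760)) (.one (nat_lit 0x200500600700a011a00c00e054822760))) (.br (Nat.shiftLeft (nat_lit 0x1800003003805009) (nat_lit 65)) (.one (nat_lit 0x300000600700a011000c00e074c22511)) (.br (Nat.shiftLeft (nat_lit 0x300000600700a013) (nat_lit 64)) (.one (nat_lit 0x300000600700a012000c00e074c24511)) (.one (nat_lit 0x300000600700a013000c00e074c26511)))))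
def t333 : k333.all (jb2 57 fl b0) = true := by decide +kernel
noncomputable def k334 : KT := (.br (Nat.shiftLeft (nat_lit 0x1802003003805009) (nat_lit 65)) (.one (nat_lit 0x300400600700a011800c00e074c22760)) (.br (Nat.shiftLeft (nat_lit 0x3005) (nat_lit 112)) (.one (nat_lit 0x300400600700a012800c00e074c24760)) (.one (nat_lit 0x300500600700a011a00c00e074c22760))))
def t334 : k334.all (jb2 57 fl b0) = true := by decide +kernel
noncomputable def k335 : KT := (.br (Nat.shiftLeft (nat_lit 0x1001) (nat_lit 114)) (.br (Nat.shiftLeft (nat_lit 0x2000003003805009) (nat_lit 65)) (.one (nat_lit 0x400000600700a011000c00e095022511)) (.br (Nat.shiftLeft (nat_lit 0x400000600700a013) (nat_lit 64)) (.one (nat_lit 0x400000600700a012000c00e095024511)) (.one (nat_lit 0x400000600700a013000c00e095026511)))) (.br (Nat.shiftLeft (nat_lit 0x2800003003805009) (nat_lit 65)) (.br (Nat.shiftLeft (nat_lit 0x5) (nat_lit 124)) (.one (nat_lit 0x400500600700a011a00c00e095022760)) (.one (nat_lit 0x500000600700a011000c00e0b5422511))) (.br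 (Nat.shiftLeft (nat_lit 0x500000600700a013) (nat_lit 64)) (.one (nat_lit 0x500000600700a012000c00e0b5424511)) (.one (nat_lit 0x500000600700a013000c00e0b5426511)))))
def t335 : k335.all (jb2 57 fl b0) = true := by decide +kernel
noncomputable def k336 : KT := (.br (Nat.shiftLeft (nat_lit 0x600000600700a013) (nat_lit 64)) (.br (Nat.shiftLeft (nat_lit 0x3000003003805009) (nat_lit 65)) (.one (nat_lit 0x600000600700a011000c00e0d5822511)) (.one (nat_lit 0x600000600700a012000c00e0d5824511))) (.br (Nat.shiftLeft (nat_lit 0x7) (nat_lit 124)) (.one (nat_lit 0x600000600700a013000c00e0d5826511)) (.br (Nat.shiftLeft (nat_lit 0x3800003003805009) (nat_lit 65)) (.one (nat_lit 0x700000600700a011000c00e0f5c22511)) (.one (nat_lit 0x700000600700a012000c00e0f5c24511)))))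
def t336 : k336.all (jb2 57 fl b0) = true := by decide +kernel
noncomputable def k337 : KT := (.br (Nat.shiftLeft (nat_lit 0xa00000600700a013) (nat_lit 64)) (.br (Nat.shiftLeft (nat_lit 0x9) (nat_lit 124)) (.br (Nat.shiftLeft (nat_lit 0x4000003003805009) (nat_lit 65)) (.br (Nat.shiftLeft (nat_lit 0x1) (nat_lit 127)) (.one (nat_lit 0x700000600700a013000c00e0f5c26511)) (.one (nat_lit 0x800000600700a011000c00e116022511))) (.br (Nat.shiftLeft (nat_lit 0x800000600700a013) (nat_lit 64)) (.one (nat_lit 0x800000600700a012000c00e116024511)) (.one (nat_lit 0x800000600700a013000c00e116026511)))) (.br (Nat.shiftLeft (nat_lit 0x900000600700a013) (nat_lit 64)) (.br (Nat.shiftLeft (nat_lit 0x4800003003805009) (nat_lit 65)) (.one (nat_lit 0x900000600700a011000c00e136422511)) (.one (nat_lit 0x900000600700a012000c00e136424511))) (.br (Nat.shiftLeft (nat_lit 0x5) (nat_lit 125)) (.one (nat_lit 0x900000600700a013000c00e136426511)) (.br (Nat.shiftLeft (nat_lit 0x5000003003805009) (nat_lit 65)) (.one (nat_lit 0xa00000600700a011000c00e156822511))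 (.one (nat_lit 0xa00000600700a012000c00e156824511)))))) (.br (Nat.shiftLeft (nat_lit 0x800001803003805009) (nat_lit 65)) (.br (Nat.shiftLeft (nat_lit 0x800001) (nat_lit 113)) (.br (Nat.shiftLeft (nat_lit 0x1) (nat_lit 136)) (.one (nat_lit 0xa00000600700a013000c00e156826511)) (.one (nat_lit 0x100000100600700a011200c02e414022611))) (.br (Nat.shiftLeft (nat_lit 0x800001003003805009) (nat_lit 65)) (.one (nat_lit 0x100000200600700a011400c02e414022611)) (.br (Nat.shiftLeft (nat_lit 0x1000003) (nat_lit 112)) (.one (nat_lit 0x100000200600700a012400c02e414024611)) (.one (nat_lit 0x100000300600700a011600c02e414022611))))) (.br (Nat.shiftLeft (nat_lit 0x800002003003805009) (nat_lit 65)) (.br (Nat.shiftLeft (nat_lit 0x400001) (nat_lit 114)) (.one (nat_lit 0x100000300600700a012600c02e414024611)) (.one (nat_lit 0x100000400600700a011800c02e414022611))) (.br (Nat.shiftLeft (nat_lit 0x1000005) (nat_lit 112)) (.one (nat_lit 0x100000400600700a012800c02e414024611)) (.br (Nat.shiftLeft (nat_lit 0x1) (nat_lit 137)) (.one (nat_lit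 0x100000500600700a011a00c02e414022611)) (.one (nat_lit 0x200000100600700a011200c04e814022611)))))))
def t337 : k337.all (jb2 57 fl b0) = true := by decide +kernel
noncomputable def k338 : KT := (.br (Nat.shiftLeft (nat_lit 0x1800001803003805009) (nat_lit 65)) (.br (Nat.shiftLeft (nat_lit 0x1000002003003805009) (nat_lit 65)) (.br (Nat.shiftLeft (nat_lit 0x2000003) (nat_lit 112)) (.br (Nat.shiftLeft (nat_lit 0x1000001003003805009) (nat_lit 65)) (.one (nat_lit 0x200000200600700a011400c04e814022611)) (.one (nat_lit 0x200000200600700a012400c04e814024611))) (.br (Nat.shiftLeft (nat_lit 0x1000001803003805009) (nat_lit 65)) (.one (nat_lit 0x200000300600700a011600c04e814022611)) (.br (Nat.shiftLeft (nat_lit 0x800001) (nat_lit 114)) (.one (nat_lit 0x200000300600700a012600c04e814024611)) (.one (nat_lit 0x200000400600700a011800c04e814022611))))) (.br (Nat.shiftLeft (nat_lit 0x1800001) (nat_lit 113)) (.br (Nat.shiftLeft (nat_lit 0x2000005) (nat_lit 112)) (.one (nat_lit 0x200000400600700a012800c04e814024611)) (.br (Nat.shiftLeft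 (nat_lit 0x3) (nat_lit 136)) (.one (nat_lit 0x200000500600700a011a00c04e814022611)) (.one (nat_lit 0x300000100600700a011200c06ec14022611)))) (.br (Nat.shiftLeft (nat_lit 0x1800001003003805009) (nat_lit 65)) (.one (nat_lit 0x300000200600700a011400c06ec14022611)) (.br (Nat.shiftLeft (nat_lit 0x3000003) (nat_lit 112)) (.one (nat_lit 0x300000200600700a012400c06ec14024611)) (.one (nat_lit 0x300000300600700a011600c06ec14022611)))))) (.br (Nat.shiftLeft (nat_lit 0x2000001003003805009) (nat_lit 65)) (.br (Nat.shiftLeft (nat_lit 0x3000005) (nat_lit 112)) (.br (Nat.shiftLeft (nat_lit 0xc00001) (nat_lit 114)) (.one (nat_lit 0x300000300600700a012600c06ec14024611)) (.br (Nat.shiftLeft (nat_lit 0x1800002003003805009) (nat_lit 65)) (.one (nat_lit 0x300000400600700a011800c06ec14022611)) (.one (nat_lit 0x300000400600700a012800c06ec14024611)))) (.br (Nat.shiftLeft (nat_lit 0x1) (nat_lit 138)) (.one (nat_lit 0x300000500600700a011a00c06ec14022611)) (.br (Nat.shiftLeft (nat_lit 0x2000001) (nat_lit 113)) (.one (nat_lit 0x400000100600700a011200c08f014022611))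 (.one (nat_lit 0x400000200600700a011400c08f014022611))))) (.br (Nat.shiftLeft (nat_lit 0x1000001) (nat_lit 114)) (.br (Nat.shiftLeft (nat_lit 0x4000003) (nat_lit 112)) (.one (nat_lit 0x400000200600700a012400c08f014024611)) (.br (Nat.shiftLeft (nat_lit 0x2000001803003805009) (nat_lit 65)) (.one (nat_lit 0x400000300600700a011600c08f014022611)) (.one (nat_lit 0x400000300600700a012600c08f014024611)))) (.br (Nat.shiftLeft (nat_lit 0x2000002003003805009) (nat_lit 65)) (.one (nat_lit 0x400000400600700a011800c08f014022611)) (.br (Nat.shiftLeft (nat_lit 0x4000005) (nat_lit 112)) (.one (nat_lit 0x400000400600700a012800c08f014024611)) (.one (nat_lit 0x400000500600700a011a00c08f014022611)))))))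
def t338 : k338.all (jb2 57 fl b0) = true := by decide +kernel
noncomputable def k339 : KT := (.br (Nat.shiftLeft (nat_lit 0x2800001803003805009) (nat_lit 65)) (.br (Nat.shiftLeft (nat_lit 0x2800001003003805009) (nat_lit 65)) (.br (Nat.shiftLeft (nat_lit 0x2800001) (nat_lit 113)) (.one (nat_lit 0x500000100600700a011200c0af414022611)) (.one (nat_lit 0x500000200600700a011400c0af414022611))) (.br (Nat.shiftLeft (nat_lit 0x5000003) (nat_lit 112)) (.one (nat_lit 0x500000200600700a012400c0af414024611)) (.one (nat_lit 0x500000300600700a011600c0af414022611)))) (.br (Nat.shiftLeft (nat_lit 0x2800002003003805009) (nat_lit 65)) (.br (Nat.shiftLeft (nat_lit 0x1400001) (nat_lit 114)) (.one (nat_lit 0x500000300600700a012600c0af414024611)) (.one (nat_lit 0x500000400600700a011800c0af414022611))) (.br (Nat.shiftLeft (nat_lit 0x5000005) (nat_lit 112)) (.one (nat_lit 0x500000400600700a012800c0af414024611)) (.one (nat_lit 0x500000500600700a011a00c0af414022611)))))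
def t339 : k339.all (jb2 57 fl b0) = true := by decide +kernel
noncomputable def k340 : KT := (.br (Nat.shiftLeft (nat_lit 0x6000003) (nat_lit 112)) (.br (Nat.shiftLeft (nat_lit 0x3000001) (nat_lit 113)) (.one (nat_lit 0x600000100600700a011200c0cf814022611)) (.br (Nat.shiftLeft (nat_lit 0x3000001003003805009) (nat_lit 65)) (.one (nat_lit 0x600000200600700a011400c0cf814022611)) (.one (nat_lit 0x600000200600700a012400c0cf814024611)))) (.br (Nat.shiftLeft (nat_lit 0x3000001803003805009) (nat_lit 65)) (.one (nat_lit 0x600000300600700a011600c0cf814022611)) (.br (Nat.shiftLeft (nat_lit 0x1800001) (nat_lit 114)) (.one (nat_lit 0x600000300600700a012600c0cf814024611)) (.one (nat_lit 0x600000400600700a011800c0cf814022611)))))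
def t340 : k340.all (jb2 57 fl b0) = true := by decide +kernel
noncomputable def k341 : KT := (.br (Nat.shiftLeft (nat_lit 0x7000003) (nat_lit 112)) (.br (Nat.shiftLeft (nat_lit 0x7) (nat_lit 136)) (.br (Nat.shiftLeft (nat_lit 0x6000005) (nat_lit 112)) (.one (nat_lit 0x600000400600700a012800c0cf814024611)) (.one (nat_lit 0x600000500600700a011a00c0cf814022611))) (.br (Nat.shiftLeft (nat_lit 0x3800001) (nat_lit 113)) (.one (nat_lit 0x700000100600700a011200c0efc14022611)) (.br (Nat.shiftLeft (nat_lit 0x3800001003003805009) (nat_lit 65)) (.one (nat_lit 0x700000200600700a011400c0efc14022611)) (.one (nat_lit 0x700000200600700a012400c0efc14024611))))) (.br (Nat.shiftLeft (nat_lit 0x1c00001) (nat_lit 114)) (.br (Nat.shiftLeft (nat_lit 0x3800001803003805009) (nat_lit 65)) (.one (nat_lit 0x700000300600700a011600c0efc14022611)) (.one (nat_lit 0x700000300600700a012600c0efc14024611))) (.br (Nat.shiftLeft (nat_lit 0x3800002003003805009) (nat_lit 65)) (.one (nat_lit 0x700000400600700a011800c0efc14022611)) (.br (Nat.shiftLeft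 (nat_lit 0x7000005) (nat_lit 112)) (.one (nat_lit 0x700000400600700a012800c0efc14024611)) (.one (nat_lit 0x700000500600700a011a00c0efc14022611))))))
def t341 : k341.all (jb2 57 fl b0) = true := by decide +kernel
noncomputable def k342 : KT := (.br (Nat.shiftLeft (nat_lit 0x4800001) (nat_lit 113)) (.br (Nat.shiftLeft (nat_lit 0x4000001803003805009) (nat_lit 65)) (.br (Nat.shiftLeft (nat_lit 0x4000001003003805009) (nat_lit 65)) (.br (Nat.shiftLeft (nat_lit 0x4000001) (nat_lit 113)) (.one (nat_lit 0x800000100600700a011200c110014022611)) (.one (nat_lit 0x800000200600700a011400c110014022611))) (.br (Nat.shiftLeft (nat_lit 0x8000003) (nat_lit 112)) (.one (nat_lit 0x800000200600700a012400c110014024611)) (.one (nat_lit 0x800000300600700a011600c110014022611)))) (.br (Nat.shiftLeft (nat_lit 0x4000002003003805009) (nat_lit 65)) (.br (Nat.shiftLeft (nat_lit 0x2000001) (nat_lit 114)) (.one (nat_lit 0x800000300600700a012600c110014024611)) (.one (nat_lit 0x800000400600700a011800c110014022611))) (.br (Nat.shiftLeft (nat_lit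 0x8000005) (nat_lit 112)) (.one (nat_lit 0x800000400600700a012800c110014024611)) (.br (Nat.shiftLeft (nat_lit 0x9) (nat_lit 136)) (.one (nat_lit 0x800000500600700a011a00c110014022611)) (.one (nat_lit 0x900000100600700a011200c130414022611)))))) (.br (Nat.shiftLeft (nat_lit 0x4800002003003805009) (nat_lit 65)) (.br (Nat.shiftLeft (nat_lit 0x9000003) (nat_lit 112)) (.br (Nat.shiftLeft (nat_lit 0x4800001003003805009) (nat_lit 65)) (.one (nat_lit 0x900000200600700a011400c130414022611)) (.one (nat_lit 0x900000200600700a012400c130414024611))) (.br (Nat.shiftLeft (nat_lit 0x4800001803003805009) (nat_lit 65)) (.one (nat_lit 0x900000300600700a011600c130414022611)) (.br (Nat.shiftLeft (nat_lit 0x2400001) (nat_lit 114)) (.one (nat_lit 0x900000300600700a012600c130414024611)) (.one (nat_lit 0x900000400600700a011800c130414022611))))) (.br (Nat.shiftLeft (nat_lit 0x5) (nat_lit 137)) (.br (Nat.shiftLeft (nat_lit 0x9000005) (nat_lit 112)) (.one (nat_lit 0x900000400600700a012800c130414024611)) (.one (nat_lit 0x900000500600700a011a00c130414022611)))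 (.br (Nat.shiftLeft (nat_lit 0x5000001) (nat_lit 113)) (.one (nat_lit 0xa00000100600700a011200c150814022611)) (.br (Nat.shiftLeft (nat_lit 0x5000001003003805009) (nat_lit 65)) (.one (nat_lit 0xa00000200600700a011400c150814022611)) (.one (nat_lit 0xa00000200600700a012400c150814024611)))))))
def t342 : k342.all (jb2 57 fl b0) = true := by decide +kernel
noncomputable def k343 : KT := (.br (Nat.shiftLeft (nat_lit 0x2800001) (nat_lit 114)) (.br (Nat.shiftLeft (nat_lit 0x5000001803003805009) (nat_lit 65)) (.one (nat_lit 0xa00000300600700a011600c150814022611)) (.one (nat_lit 0xa00000300600700a012600c150814024611))) (.br (Nat.shiftLeft (nat_lit 0x5000002003003805009) (nat_lit 65)) (.one (nat_lit 0xa00000400600700a011800c150814022611)) (.br (Nat.shiftLeft (nat_lit 0xa000005) (nat_lit 112)) (.one (nat_lit 0xa00000400600700a012800c150814024611)) (.one (nat_lit 0xa00000500600700a011a00c150814022611)))))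
def t343 : k343.all (jb2 57 fl b0) = true := by decide +kernel
noncomputable def s19 : KT := (.br (nat_lit 0x200300600700a011600c00e054822760) (.br (nat_lit 0x500600700a011a00c00e014023600) (.br (nat_lit 0x200600700a012400c00e014025600) (.br (nat_lit 0x100600700a012200c00e014024650) k321 k322) (.br (nat_lit 0x300600700a012600c00e014025600) k323 (.br (nat_lit 0x400600700a012800c00e014025600) k324 k325))) (.br (nat_lit 0x100200600700a011400c00e034422760) (.br (nat_lit 0x500600700a012a00c00e014024650) k326 (.br (nat_lit 0x100000600700a013000c00e034426511) k327 k328)) (.br (nat_lit 0x100300600700a011600c00e034422760) k329 (.br (nat_lit 0x100400600700a012800c00e034424760) k330 k331)))) (.br (nat_lit 0x200000100600700a011200c04e814022611) (.br (nat_lit 0x300500600700a011a00c00e074c22760) (.br (nat_lit 0x200400600700a011800c00e054822760) k332 (.br (nat_lit 0x300000600700a013000c00e074c26511) k333 k334)) (.br (nat_lit 0x500000600700a013000c00e0b5426511) k335 (.br (nat_lit 0x700000600700a012000c00e0f5c24511) k336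 k337))) (.br (nat_lit 0x600000400600700a011800c0cf814022611) (.br (nat_lit 0x400000500600700a011a00c08f014022611) k338 (.br (nat_lit 0x500000500600700a011a00c0af414022611) k339 k340)) (.br (nat_lit 0x700000500600700a011a00c0efc14022611) k341 (.br (nat_lit 0xa00000200600700a012400c150814024611) k342 k343)))))
noncomputable def u19 : KT := (.br (Nat.shiftLeft (nat_lit 0x600700a013) (nat_lit 64)) (.br (Nat.shiftLeft (nat_lit 0x3003805009) (nat_lit 65)) (.one (nat_lit 0x600700a011000c00e014022540)) (.one (nat_lit 0x600700a012000c00e014024540))) (.br (Nat.shiftLeft (nat_lit 0x600700b) (nat_lit 76)) (.one (nat_lit 0x600700a013000c00e014026540)) (.br (Nat.shiftLeft (nat_lit 0x600700b00d) (nat_lit 64)) (.one (nat_lit 0x600700b00c000c00e016019500)) (.one (nat_lit 0x600700b00d000c00e01601b500)))))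
def w19 : u19.all (wj 57 s19) = true := by decide +kernel
def o19 : OkW 57 (jb2 57 fl) u19 := .lift s19 _ (.br _ _ _ (.br _ _ _ (.br _ _ _ (.br _ _ _ (.leaf b0 k321 t321) (.leaf b0 k322 t322)) (.br _ _ _ (.leaf b0 k323 t323) (.br _ _ _ (.leaf b0 k324 t324) (.leaf b0 k325 t325)))) (.br _ _ _ (.br _ _ _ (.leaf b0 k326 t326) (.br _ _ _ (.leaf b0 k327 t327) (.leaf b0 k328 t328))) (.br _ _ _ (.leaf b0 k329 t329) (.br _ _ _ (.leaf b0 k330 t330) (.leaf b0 k331 t331))))) (.br _ _ _ (.br _ _ _ (.br _ _ _ (.leaf b0 k332 t332) (.br _ _ _ (.leaf b0 k333 t333) (.leaf b0 k334 t334))) (.br _ _ _ (.leaf b0 k335 t335) (.br _ _ _ (.leaf b0 k336 t336) (.leaf b0 k337 t337)))) (.br _ _ _ (.br _ _ _ (.leaf b0 k338 t338) (.br _ _ _ (.leaf b0 k339 t339) (.leaf b0 k340 t340))) (.br _ _ _ (.leaf b0 k341 t341) (.br _ _ _ (.leaf b0 k342 t342) (.leaf b0 k343 t343)))))) w19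
noncomputable def k344 : KT := (.br (Nat.shiftLeft (nat_lit 0x5) (nat_lit 112)) (.br (Nat.shiftLeft (nat_lit 0x1) (nat_lit 113)) (.br (Nat.shiftLeft (nat_lit 0x1) (nat_lit 112)) (.one (nat_lit 0x600700b00e000c00e01601d500)) (.one (nat_lit 0x100600700b00e200c00e01601d600))) (.br (Nat.shiftLeft (nat_lit 0x3) (nat_lit 112)) (.one (nat_lit 0x200600700b00e400c00e01601d600)) (.br (Nat.shiftLeft (nat_lit 0x1) (nat_lit 114)) (.one (nat_lit 0x300600700b00e600c00e01601d600)) (.one (nat_lit 0x400600700b00e800c00e01601d600))))) (.br (Nat.shiftLeft (nat_lit 0x801) (nat_lit 113)) (.br (Nat.shiftLeft (nat_lit 0x1) (nat_lit 124)) (.one (nat_lit 0x500600700b00ea00c00e01601d600)) (.one (nat_lit 0x100000600700b00e000c00e03641c511))) (.br (Nat.shiftLeft (nat_lit 0x1003) (nat_lit 112)) (.one (nat_lit 0x100200600700b00e400c00e03641d700)) (.br (Nat.shiftLeft (nat_lit 0x401) (nat_lit 114)) (.one (nat_lit 0x100300600700b00e600c00e03641d700)) (.one (nat_lit 0x100400600700b00e800c00e03641c760))))))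
def t344 : k344.all (jb2 57 fl b0) = true := by decide +kernel
noncomputable def k345 : KT := (.br (Nat.shiftLeft (nat_lit 0x1) (nat_lit 125)) (.one (nat_lit 0x100500600700b00ea00c00e03641c760)) (.br (Nat.shiftLeft (nat_lit 0x1001) (nat_lit 113)) (.one (nat_lit 0x200000600700b00e000c00e05681c511)) (.one (nat_lit 0x200300600700b00e600c00e05681d700))))
def t345 : k345.all (jb2 57 fl b0) = true := by decide +kernel
noncomputable def k346 : KT := (.one (nat_lit 0x200400600700b00e800c00e05681c760))
def t346 : k346.all (jb2 57 fl b0) = true := by decide +kernel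
noncomputable def k347 : KT := (.br (Nat.shiftLeft (nat_lit 0x3) (nat_lit 124)) (.one (nat_lit 0x200500600700b00ea00c00e05681c760)) (.one (nat_lit 0x300000600700b00e000c00e076c1c511)))
def t347 : k347.all (jb2 57 fl b0) = true := by decide +kernel
noncomputable def k348 : KT := (.one (nat_lit 0x300400600700b00e800c00e076c1c760))
def t348 : k348.all (jb2 57 fl b0) = true := by decide +kernel
noncomputable def k349 : KT := (.br (Nat.shiftLeft (nat_lit 0x1) (nat_lit 126)) (.one (nat_lit 0x300500600700b00ea00c00e076c1c760)) (.one (nat_lit 0x400000600700b00e000c00e09701c511)))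
def t349 : k349.all (jb2 57 fl b0) = true := by decide +kernel
noncomputable def k350 : KT := (.br (Nat.shiftLeft (nat_lit 0x5) (nat_lit 124)) (.one (nat_lit 0x400500600700b00ea00c00e09701c760)) (.one (nat_lit 0x500000600700b00e000c00e0b741c511)))
def t350 : k350.all (jb2 57 fl b0) = true := by decide +kernel
noncomputable def k351 : KT := (.br (Nat.shiftLeft (nat_lit 0x7) (nat_lit 124)) (.one (nat_lit 0x600000600700b00e000c00e0d781c511)) (.one (nat_lit 0x700000600700b00e000c00e0f7c1c511)))
def t351 : k351.all (jb2 57 fl b0) = true := by decide +kernel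
noncomputable def k352 : KT := (.br (Nat.shiftLeft (nat_lit 0x9) (nat_lit 124)) (.one (nat_lit 0x800000600700b00e000c00e11801c511)) (.br (Nat.shiftLeft (nat_lit 0x5) (nat_lit 125)) (.one (nat_lit 0x900000600700b00e000c00e13841c511)) (.one (nat_lit 0xa00000600700b00e000c00e15881c511))))
def t352 : k352.all (jb2 57 fl b0) = true := by decide +kernel
noncomputable def k353 : KT := (.br (Nat.shiftLeft (nat_lit 0x2000003) (nat_lit 112)) (.br (Nat.shiftLeft (nat_lit 0x400001) (nat_lit 114)) (.br (Nat.shiftLeft (nat_lit 0x800001) (nat_lit 113)) (.br (Nat.shiftLeft (nat_lit 0x1) (nat_lit 136)) (.one (nat_lit 0xb00000600700b00e000c00e178c1c511)) (.one (nat_lit 0x100000100600700b00e200c02e41601c611))) (.br (Nat.shiftLeft (nat_lit 0x1000003) (nat_lit 112)) (.one (nat_lit 0x100000200600700b00e400c02e41601c611)) (.one (nat_lit 0x100000300600700b00e600c02e41601c611)))) (.br (Nat.shiftLeft (nat_lit 0x801) (nat_lit 125)) (.br (Nat.shiftLeft (nat_lit 0x1000005) (nat_lit 112)) (.one (nat_lit 0x100000400600700b00e800c02e41601c611))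 (.one (nat_lit 0x100000500600700b00ea00c02e41601c611))) (.br (Nat.shiftLeft (nat_lit 0x1) (nat_lit 137)) (.one (nat_lit 0x100200300600700b00e600c02e45681c870)) (.br (Nat.shiftLeft (nat_lit 0x1000001) (nat_lit 113)) (.one (nat_lit 0x200000100600700b00e200c04e81601c611)) (.one (nat_lit 0x200000200600700b00e400c04e81601c611)))))) (.br (Nat.shiftLeft (nat_lit 0x1800001) (nat_lit 113)) (.br (Nat.shiftLeft (nat_lit 0x2000005) (nat_lit 112)) (.br (Nat.shiftLeft (nat_lit 0x800001) (nat_lit 114)) (.one (nat_lit 0x200000300600700b00e600c04e81601c611)) (.one (nat_lit 0x200000400600700b00e800c04e81601c611))) (.br (Nat.shiftLeft (nat_lit 0x3) (nat_lit 136)) (.one (nat_lit 0x200000500600700b00ea00c04e81601c611)) (.one (nat_lit 0x300000100600700b00e200c06ec1601c611)))) (.br (Nat.shiftLeft (nat_lit 0xc00001) (nat_lit 114)) (.br (Nat.shiftLeft (nat_lit 0x3000003) (nat_lit 112)) (.one (nat_lit 0x300000200600700b00e400c06ec1601c611)) (.one (nat_lit 0x300000300600700b00e600c06ec1601c611))) (.br (Nat.shiftLeft (nat_lit 0x3000005)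 (nat_lit 112)) (.one (nat_lit 0x300000400600700b00e800c06ec1601c611)) (.br (Nat.shiftLeft (nat_lit 0x1) (nat_lit 138)) (.one (nat_lit 0x300000500600700b00ea00c06ec1601c611)) (.one (nat_lit 0x400000100600700b00e200c08f01601c611)))))))
def t353 : k353.all (jb2 57 fl b0) = true := by decide +kernel
noncomputable def k354 : KT := (.br (Nat.shiftLeft (nat_lit 0x4000005) (nat_lit 112)) (.br (Nat.shiftLeft (nat_lit 0x4000003) (nat_lit 112)) (.one (nat_lit 0x400000200600700b00e400c08f01601c611)) (.br (Nat.shiftLeft (nat_lit 0x1000001) (nat_lit 114)) (.one (nat_lit 0x400000300600700b00e600c08f01601c611)) (.one (nat_lit 0x400000400600700b00e800c08f01601c611)))) (.br (Nat.shiftLeft (nat_lit 0x5) (nat_lit 136)) (.one (nat_lit 0x400000500600700b00ea00c08f01601c611)) (.br (Nat.shiftLeft (nat_lit 0x2800001) (nat_lit 113)) (.one (nat_lit 0x500000100600700b00e200c0af41601c611)) (.one (nat_lit 0x500000200600700b00e400c0af41601c611)))))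
def t354 : k354.all (jb2 57 fl b0) = true := by decide +kernel
noncomputable def k355 : KT := (.br (Nat.shiftLeft (nat_lit 0x1400001) (nat_lit 114)) (.one (nat_lit 0x500000300600700b00e600c0af41601c611)) (.br (Nat.shiftLeft (nat_lit 0x5000005) (nat_lit 112)) (.one (nat_lit 0x500000400600700b00e800c0af41601c611)) (.one (nat_lit 0x500000500600700b00ea00c0af41601c611))))
def t355 : k355.all (jb2 57 fl b0) = true := by decide +kernel
noncomputable def k356 : KT := (.br (Nat.shiftLeft (nat_lit 0x3000001) (nat_lit 113)) (.one (nat_lit 0x600000100600700b00e200c0cf81601c611)) (.one (nat_lit 0x600000200600700b00e400c0cf81601c611)))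
def t356 : k356.all (jb2 57 fl b0) = true := by decide +kernel
noncomputable def k357 : KT := (.br (Nat.shiftLeft (nat_lit 0x1800001) (nat_lit 114)) (.one (nat_lit 0x600000300600700b00e600c0cf81601c611)) (.br (Nat.shiftLeft (nat_lit 0x6000005) (nat_lit 112)) (.one (nat_lit 0x600000400600700b00e800c0cf81601c611)) (.one (nat_lit 0x600000500600700b00ea00c0cf81601c611))))
def t357 : k357.all (jb2 57 fl b0) = true := by decide +kernel
noncomputable def k358 : KT := (.br (Nat.shiftLeft (nat_lit 0x3800001) (nat_lit 113)) (.one (nat_lit 0x700000100600700b00e200c0efc1601c611)) (.one (nat_lit 0x700000200600700b00e400c0efc1601c611)))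
noncomputable def b359 : BT := .node (nat_lit 0x1) (nat_lit 0x96327412f40032d9000c98410008800028) .leaf .leaf
def t358 : k358.all (jb2 57 fl b359) = true := by decide +kernel
noncomputable def k359 : KT := (.br (Nat.shiftLeft (nat_lit 0x7000005) (nat_lit 112)) (.br (Nat.shiftLeft (nat_lit 0x1c00001) (nat_lit 114)) (.one (nat_lit 0x700000300600700b00e600c0efc1601c611)) (.one (nat_lit 0x700000400600700b00e800c0efc1601c611))) (.br (Nat.shiftLeft (nat_lit 0x1) (nat_lit 139)) (.one (nat_lit 0x700000500600700b00ea00c0efc1601c611)) (.one (nat_lit 0x800000100600700b00e200c11001601c611))))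
def t359 : k359.all (jb2 57 fl b0) = true := by decide +kernel
noncomputable def k360 : KT := (.br (Nat.shiftLeft (nat_lit 0x2000001) (nat_lit 114)) (.br (Nat.shiftLeft (nat_lit 0x8000003) (nat_lit 112)) (.one (nat_lit 0x800000200600700b00e400c11001601c611)) (.one (nat_lit 0x800000300600700b00e600c11001601c611))) (.br (Nat.shiftLeft (nat_lit 0x8000005) (nat_lit 112)) (.one (nat_lit 0x800000400600700b00e800c11001601c611)) (.br (Nat.shiftLeft (nat_lit 0x9) (nat_lit 136)) (.one (nat_lit 0x800000500600700b00ea00c11001601c611)) (.one (nat_lit 0x900000100600700b00e200c13041601c611)))))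
def t360 : k360.all (jb2 57 fl b0) = true := by decide +kernel
noncomputable def k361 : KT := (.br (Nat.shiftLeft (nat_lit 0x5000001) (nat_lit 113)) (.br (Nat.shiftLeft (nat_lit 0x2400001) (nat_lit 114)) (.br (Nat.shiftLeft (nat_lit 0x9000003) (nat_lit 112)) (.one (nat_lit 0x900000200600700b00e400c13041601c611)) (.one (nat_lit 0x900000300600700b00e600c13041601c611))) (.br (Nat.shiftLeft (nat_lit 0x9000005) (nat_lit 112)) (.one (nat_lit 0x900000400600700b00e800c13041601c611)) (.br (Nat.shiftLeft (nat_lit 0x5) (nat_lit 137)) (.one (nat_lit 0x900000500600700b00ea00c13041601c611)) (.one (nat_lit 0xa00000100600700b00e200c15081601c611))))) (.br (Nat.shiftLeft (nat_lit 0xa000005) (nat_lit 112)) (.br (Nat.shiftLeft (nat_lit 0xa000003) (nat_lit 112)) (.one (nat_lit 0xa00000200600700b00e400c15081601c611)) (.br (Nat.shiftLeft (nat_lit 0x2800001) (nat_lit 114)) (.one (nat_lit 0xa00000300600700b00e600c15081601c611)) (.one (nat_lit 0xa00000400600700b00e800c15081601c611)))) (.br (Nat.shiftLeft (nat_lit 0xb) (nat_lit 136))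 (.one (nat_lit 0xa00000500600700b00ea00c15081601c611)) (.br (Nat.shiftLeft (nat_lit 0x5800001) (nat_lit 113)) (.one (nat_lit 0xb00000100600700b00e200c170c1601c611)) (.one (nat_lit 0xb00000200600700b00e400c170c1601c611))))))
def t361 : k361.all (jb2 57 fl b0) = true := by decide +kernel
noncomputable def k362 : KT := (.br (Nat.shiftLeft (nat_lit 0x1000001) (nat_lit 125)) (.br (Nat.shiftLeft (nat_lit 0x1000001003) (nat_lit 112)) (.br (Nat.shiftLeft (nat_lit 0xb000005) (nat_lit 112)) (.br (Nat.shiftLeft (nat_lit 0x2c00001) (nat_lit 114)) (.one (nat_lit 0xb00000300600700b00e600c170c1601c611)) (.one (nat_lit 0xb00000400600700b00e800c170c1601c611))) (.br (Nat.shiftLeft (nat_lit 0x1) (nat_lit 148)) (.one (nat_lit 0xb00000500600700b00ea00c170c1601c611)) (.one (nat_lit 0x100000100200600700b00e402c40e03641c711)))) (.br (Nat.shiftLeft (nat_lit 0x1) (nat_lit 149)) (.br (Nat.shiftLeft (nat_lit 0x800001) (nat_lit 125)) (.one (nat_lit 0x100000100300600700b00e602c40e03641c711)) (.one (nat_lit 0x100000200300600700b00e602c40e05681c711)))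 (.br (Nat.shiftLeft (nat_lit 0x2000001003) (nat_lit 112)) (.one (nat_lit 0x200000100200600700b00e404c80e03641c711)) (.one (nat_lit 0x200000100300600700b00e604c80e03641c711))))) (.br (Nat.shiftLeft (nat_lit 0x1) (nat_lit 150)) (.br (Nat.shiftLeft (nat_lit 0x3000001003) (nat_lit 112)) (.br (Nat.shiftLeft (nat_lit 0x3) (nat_lit 148)) (.one (nat_lit 0x200000200300600700b00e604c80e05681c711)) (.one (nat_lit 0x300000100200600700b00e406cc0e03641c711))) (.br (Nat.shiftLeft (nat_lit 0x1800001) (nat_lit 125)) (.one (nat_lit 0x300000100300600700b00e606cc0e03641c711)) (.one (nat_lit 0x300000200300600700b00e606cc0e05681c711)))) (.br (Nat.shiftLeft (nat_lit 0x2000001) (nat_lit 125)) (.br (Nat.shiftLeft (nat_lit 0x4000001003) (nat_lit 112)) (.one (nat_lit 0x400000100200600700b00e408d00e03641c711)) (.one (nat_lit 0x400000100300600700b00e608d00e03641c711))) (.br (Nat.shiftLeft (nat_lit 0x5) (nat_lit 148)) (.one (nat_lit 0x400000200300600700b00e608d00e05681c711)) (.one (nat_lit 0x500000100200600700b00e40ad40e03641c711))))))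
def t362 : k362.all (jb2 57 fl b0) = true := by decide +kernel
noncomputable def k363 : KT := (.br (Nat.shiftLeft (nat_lit 0x2800001) (nat_lit 125)) (.one (nat_lit 0x500000100300600700b00e60ad40e03641c711)) (.br (Nat.shiftLeft (nat_lit 0x3) (nat_lit 149)) (.one (nat_lit 0x500000200300600700b00e60ad40e05681c711)) (.one (nat_lit 0x600000100200600700b00e40cd80e03641c711))))
def t363 : k363.all (jb2 57 fl b0) = true := by decide +kernel
noncomputable def k364 : KT := (.br (Nat.shiftLeft (nat_lit 0x7) (nat_lit 148)) (.br (Nat.shiftLeft (nat_lit 0x3000001) (nat_lit 125)) (.one (nat_lit 0x600000100300600700b00e60cd80e03641c711)) (.one (nat_lit 0x600000200300600700b00e60cd80e05681c711))) (.br (Nat.shiftLeft (nat_lit 0x7000001003) (nat_lit 112)) (.one (nat_lit 0x700000100200600700b00e40edc0e03641c711)) (.one (nat_lit 0x700000100300600700b00e60edc0e03641c711))))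
def t364 : k364.all (jb2 57 fl b0) = true := by decide +kernel
noncomputable def k365 : KT := (.br (Nat.shiftLeft (nat_lit 0x4800001) (nat_lit 125)) (.br (Nat.shiftLeft (nat_lit 0x4000001) (nat_lit 125)) (.br (Nat.shiftLeft (nat_lit 0x1) (nat_lit 151)) (.one (nat_lit 0x700000200300600700b00e60edc0e05681c711)) (.br (Nat.shiftLeft (nat_lit 0x8000001003) (nat_lit 112)) (.one (nat_lit 0x800000100200600700b00e410e00e03641c711)) (.one (nat_lit 0x800000100300600700b00e610e00e03641c711)))) (.br (Nat.shiftLeft (nat_lit 0x9) (nat_lit 148)) (.one (nat_lit 0x800000200300600700b00e610e00e05681c711)) (.br (Nat.shiftLeft (nat_lit 0x9000001003) (nat_lit 112)) (.one (nat_lit 0x900000100200600700b00e412e40e03641c711)) (.one (nat_lit 0x900000100300600700b00e612e40e03641c711))))) (.br (Nat.shiftLeft (nat_lit 0x5000001) (nat_lit 125)) (.br (Nat.shiftLeft (nat_lit 0x5) (nat_lit 149)) (.one (nat_lit 0x900000200300600700b00e612e40e05681c711)) (.br (Nat.shiftLeft (nat_lit 0xa000001003) (nat_lit 112)) (.one (nat_lit 0xa00000100200600700b00e414e80e03641c711))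 (.one (nat_lit 0xa00000100300600700b00e614e80e03641c711)))) (.br (Nat.shiftLeft (nat_lit 0xb000001003) (nat_lit 112)) (.br (Nat.shiftLeft (nat_lit 0xb) (nat_lit 148)) (.one (nat_lit 0xa00000200300600700b00e614e80e05681c711)) (.one (nat_lit 0xb00000100200600700b00e416ec0e03641c711))) (.br (Nat.shiftLeft (nat_lit 0x5800001) (nat_lit 125)) (.one (nat_lit 0xb00000100300600700b00e616ec0e03641c711)) (.one (nat_lit 0xb00000200300600700b00e616ec0e05681c711))))))
def t365 : k365.all (jb2 57 fl b0) = true := by decide +kernel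
noncomputable def s20 : KT := (.br (nat_lit 0x500000200600700b00e400c0af41601c611) (.br (nat_lit 0x300400600700b00e800c00e076c1c760) (.br (nat_lit 0x200300600700b00e600c00e05681d700) (.br (nat_lit 0x100400600700b00e800c00e03641c760) k344 k345) (.br (nat_lit 0x200400600700b00e800c00e05681c760) k346 (.br (nat_lit 0x300000600700b00e000c00e076c1c511) k347 k348))) (.br (nat_lit 0x700000600700b00e000c00e0f7c1c511) (.br (nat_lit 0x400000600700b00e000c00e09701c511) k349 (.br (nat_lit 0x500000600700b00e000c00e0b741c511) k350 k351)) (.br (nat_lit 0xa00000600700b00e000c00e15881c511) k352 (.br (nat_lit 0x400000100600700b00e200c08f01601c611) k353 k354)))) (.br (nat_lit 0x800000100600700b00e200c11001601c611) (.br (nat_lit 0x600000200600700b00e400c0cf81601c611) (.br (nat_lit 0x500000500600700b00ea00c0af41601c611) k355 k356) (.br (nat_lit 0x600000500600700b00ea00c0cf81601c611) k357 (.br (nat_lit 0x700000200600700b00e400c0efc1601c611) k358 k359))) (.br (nat_lit 0x500000100200600700b00e40ad40e03641c711) (.br (nat_lit 0x900000100600700b00e200c13041601c611)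 k360 (.br (nat_lit 0xb00000200600700b00e400c170c1601c611) k361 k362)) (.br (nat_lit 0x600000100200600700b00e40cd80e03641c711) k363 (.br (nat_lit 0x700000100300600700b00e60edc0e03641c711) k364 k365)))))
noncomputable def u20 : KT := (.one (nat_lit 0x600700b00e000c00e01601c540))
def w20 : u20.all (wj 57 s20) = true := by decide +kernel
def o20 : OkW 57 (jb2 57 fl) u20 := .lift s20 _ (.br _ _ _ (.br _ _ _ (.br _ _ _ (.br _ _ _ (.leaf b0 k344 t344) (.leaf b0 k345 t345)) (.br _ _ _ (.leaf b0 k346 t346) (.br _ _ _ (.leaf b0 k347 t347) (.leaf b0 k348 t348)))) (.br _ _ _ (.br _ _ _ (.leaf b0 k349 t349) (.br _ _ _ (.leaf b0 k350 t350) (.leaf b0 k351 t351))) (.br _ _ _ (.leaf b0 k352 t352) (.br _ _ _ (.leaf b0 k353 t353) (.leaf b0 k354 t354))))) (.br _ _ _ (.br _ _ _ (.br _ _ _ (.leaf b0 k355 t355) (.leaf b0 k356 t356)) (.br _ _ _ (.leaf b0 k357 t357) (.br _ _ _ (.leaf b359 k358 t358) (.leaf b0 k359 t359)))) (.br _ _ _ (.br _ _ _ (.leaf b0 k360 t360) (.br _ _ _ (.leaf b0 k361 t361) (.leaf b0 k362 t362))) (.br _ _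 _ (.leaf b0 k363 t363) (.br _ _ _ (.leaf b0 k364 t364) (.leaf b0 k365 t365)))))) w20
noncomputable def k : KT := (.br (nat_lit 0x600000f011000c00001e022311) (.br (nat_lit 0x500a00b00c000a014016018540) (.br (nat_lit 0x500900c00d000a01201801a540) (.br (nat_lit 0x500900b00f000a01201601e540) u0 u1) (.br (nat_lit 0x500900c010000a012018020540) u2 (.br (nat_lit 0x500900d00f000a01201a01e540) u3 u4))) (.br (nat_lit 0x500a00c00d000a01401801a540) (.br (nat_lit 0x500a00b00e000a01401601c540) u5 u6) (.br (nat_lit 0x500b00c00d000a01601801a540) u7 (.br (nat_lit 0x6000009016000c00001202c311) u8 u9)))) (.br (nat_lit 0x6007009010000c00e012020540) (.br (nat_lit 0x6007008011000c00e010022540) (.br (nat_lit 0x6007008010000c00e010020540) u10 u11) (.br (nat_lit 0x6007008013000c00e010026540) u12 (.br (nat_lit 0x600700900f000c00e01201f500) u13 u14))) (.br (nat_lit 0x600700a00f000c00e01401e540) (.br (nat_lit 0x6007009012000c00e012024540) u15 (.br (nat_lit 0x600700a00e000c00e01401d500) u16 u17)) (.br (nat_lit 0x600700a010000c00e014020540)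 u18 (.br (nat_lit 0x600700b00d000c00e01601b500) u19 u20)))))
theorem ok : OkW 57 (jb2 57 fl) k := (.br _ _ _ (.br _ _ _ (.br _ _ _ (.br _ _ _ o0 o1) (.br _ _ _ o2 (.br _ _ _ o3 o4))) (.br _ _ _ (.br _ _ _ o5 o6) (.br _ _ _ o7 (.br _ _ _ o8 o9)))) (.br _ _ _ (.br _ _ _ (.br _ _ _ o10 o11) (.br _ _ _ o12 (.br _ _ _ o13 o14))) (.br _ _ _ (.br _ _ _ o15 (.br _ _ _ o16 o17)) (.br _ _ _ o18 (.br _ _ _ o19 o20)))))

end Pool.Agent.Lib.MP_ed43e6_ag.Q.Y57.R37
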