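import Pool.Agent.Lib.MP_ed43e6_ag.Y57.Fl

namespace Pool.Agent.Lib.MP_ed43e6_ag.Q.Y57.R38

set_option linter.defProp false

noncomputable def b0 : BT := .node (nat_lit 1) (nat_lit 0) .leaf .leaf
noncomputable def k0 : KT := (.br (Nat.shiftLeft (nat_lit 0x1) (nat_lit 114)) (.br (Nat.shiftLeft (nat_lit 0x1) (nat_lit 113)) (.br (Nat.shiftLeft (nat_lit 0x1) (nat_lit 112)) (.one (nat_lit 0x600700b00f000c00e01601f500)) (.one (nat_lit 0x100600700b00f200c00e01601f600))) (.br (Nat.shiftLeft (nat_lit 0x3) (nat_lit 112)) (.one (nat_lit 0x200600700b00f400c00e01601f600)) (.one (nat_lit 0x300600700b00f600c00e01601f600)))) (.br (Nat.shiftLeft (nat_lit 0x1) (nat_lit 124)) (.br (Nat.shiftLeft (nat_lit 0x5) (nat_lit 112)) (.one (nat_lit 0x400600700b00f800c00e01601f600)) (.one (nat_lit 0x500600700b00fa00c00e01601f600))) (.br (Nat.shiftLeft (nat_lit 0x801) (nat_lit 113)) (.one (nat_lit 0x100000600700b00f000c00e03641e511)) (.br (Nat.shiftLeft (nat_lit 0x1003) (nat_lit 112)) (.one (nat_lit 0x100200600700b00f400c00e03641f700)) (.one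 (nat_lit 0x100300600700b00f600c00e03641e760))))))
def t0 : k0.all (jb2 57 fl b0) = true := by decide +kernel
noncomputable def k1 : KT := (.br (Nat.shiftLeft (nat_lit 0x1005) (nat_lit 112)) (.one (nat_lit 0x100400600700b00f800c00e03641e760)) (.br (Nat.shiftLeft (nat_lit 0x1) (nat_lit 125)) (.one (nat_lit 0x100500600700b00fa00c00e03641e760)) (.one (nat_lit 0x200000600700b00f000c00e05681e511))))
def t1 : k1.all (jb2 57 fl b0) = true := by decide +kernel
noncomputable def k2 : KT := (.one (nat_lit 0x200300600700b00f600c00e05681e760))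
def t2 : k2.all (jb2 57 fl b0) = true := by decide +kernel
noncomputable def k3 : KT := (.one (nat_lit 0x200400600700b00f800c00e05681e760))
def t3 : k3.all (jb2 57 fl b0) = true := by decide +kernel
noncomputable def k4 : KT := (.br (Nat.shiftLeft (nat_lit 0x3) (nat_lit 124)) (.one (nat_lit 0x200500600700b00fa00c00e05681e760)) (.one (nat_lit 0x300000600700b00f000c00e076c1e511)))
def t4 : k4.all (jb2 57 fl b0) = true := by decide +kernel
noncomputable def k5 : KT := (.one (nat_lit 0x300400600700b00f800c00e076c1e760))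
def t5 : k5.all (jb2 57 fl b0) = true := by decide +kernel
noncomputable def k6 : KT := (.br (Nat.shiftLeft (nat_lit 0x1) (nat_lit 126)) (.one (nat_lit 0x300500600700b00fa00c00e076c1e760)) (.br (Nat.shiftLeft (nat_lit 0x1001) (nat_lit 114)) (.one (nat_lit 0x400000600700b00f000c00e09701e511)) (.one (nat_lit 0x400500600700b00fa00c00e09701e760))))
def t6 : k6.all (jb2 57 fl b0) = true := by decide +kernel
noncomputable def k7 : KT := (.br (Nat.shiftLeft (nat_lit 0x3) (nat_lit 125)) (.one (nat_lit 0x500000600700b00f000c00e0b741e511)) (.br (Nat.shiftLeft (nat_lit 0x7) (nat_lit 124)) (.one (nat_lit 0x600000600700b00f000c00e0d781e511)) (.one (nat_lit 0x700000600700b00f000c00e0f7c1e511))))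
def t7 : k7.all (jb2 57 fl b0) = true := by decide +kernel
noncomputable def k8 : KT := (.br (Nat.shiftLeft (nat_lit 0x1000001) (nat_lit 113)) (.br (Nat.shiftLeft (nat_lit 0x800001) (nat_lit 113)) (.br (Nat.shiftLeft (nat_lit 0x5) (nat_lit 125)) (.br (Nat.shiftLeft (nat_lit 0x9) (nat_lit 124)) (.one (nat_lit 0x800000600700b00f000c00e11801e511)) (.one (nat_lit 0x900000600700b00f000c00e13841e511))) (.br (Nat.shiftLeft (nat_lit 0xb) (nat_lit 124)) (.one (nat_lit 0xa00000600700b00f000c00e15881e511)) (.br (Nat.shiftLeft (nat_lit 0x1) (nat_lit 136)) (.one (nat_lit 0xb00000600700b00f000c00e178c1e511)) (.one (nat_lit 0x100000100600700b00f200c02e41601e611))))) (.br (Nat.shiftLeft (nat_lit 0x400001) (nat_lit 114)) (.br (Nat.shiftLeft (nat_lit 0x1000003) (nat_lit 112)) (.one (nat_lit 0x100000200600700b00f400c02e41601e611)) (.one (nat_lit 0x100000300600700b00f600c02e41601e611))) (.br (Nat.shiftLeft (nat_lit 0x1000005) (nat_lit 112)) (.one (nat_lit 0x100000400600700b00f800c02e41601e611)) (.br (Nat.shiftLeft (nat_lit 0x1)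 (nat_lit 137)) (.one (nat_lit 0x100000500600700b00fa00c02e41601e611)) (.one (nat_lit 0x200000100600700b00f200c04e81601e611)))))) (.br (Nat.shiftLeft (nat_lit 0x1800001) (nat_lit 113)) (.br (Nat.shiftLeft (nat_lit 0x800001) (nat_lit 114)) (.br (Nat.shiftLeft (nat_lit 0x2000003) (nat_lit 112)) (.one (nat_lit 0x200000200600700b00f400c04e81601e611)) (.one (nat_lit 0x200000300600700b00f600c04e81601e611))) (.br (Nat.shiftLeft (nat_lit 0x2000005) (nat_lit 112)) (.one (nat_lit 0x200000400600700b00f800c04e81601e611)) (.br (Nat.shiftLeft (nat_lit 0x3) (nat_lit 136)) (.one (nat_lit 0x200000500600700b00fa00c04e81601e611)) (.one (nat_lit 0x300000100600700b00f200c06ec1601e611))))) (.br (Nat.shiftLeft (nat_lit 0xc00001) (nat_lit 114)) (.br (Nat.shiftLeft (nat_lit 0x3000003) (nat_lit 112)) (.one (nat_lit 0x300000200600700b00f400c06ec1601e611)) (.one (nat_lit 0x300000300600700b00f600c06ec1601e611))) (.br (Nat.shiftLeft (nat_lit 0x3000005) (nat_lit 112)) (.one (nat_lit 0x300000400600700b00f800c06ec1601e611)) (.br (Nat.shiftLeft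 (nat_lit 0x1) (nat_lit 138)) (.one (nat_lit 0x300000500600700b00fa00c06ec1601e611)) (.one (nat_lit 0x400000100600700b00f200c08f01601e611)))))))
def t8 : k8.all (jb2 57 fl b0) = true := by decide +kernel
noncomputable def k9 : KT := (.br (Nat.shiftLeft (nat_lit 0x4000005) (nat_lit 112)) (.br (Nat.shiftLeft (nat_lit 0x4000003) (nat_lit 112)) (.one (nat_lit 0x400000200600700b00f400c08f01601e611)) (.br (Nat.shiftLeft (nat_lit 0x1000001) (nat_lit 114)) (.one (nat_lit 0x400000300600700b00f600c08f01601e611)) (.one (nat_lit 0x400000400600700b00f800c08f01601e611)))) (.br (Nat.shiftLeft (nat_lit 0x5) (nat_lit 136)) (.one (nat_lit 0x400000500600700b00fa00c08f01601e611)) (.br (Nat.shiftLeft (nat_lit 0x2800001) (nat_lit 113)) (.one (nat_lit 0x500000100600700b00f200c0af41601e611)) (.one (nat_lit 0x500000200600700b00f400c0af41601e611)))))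
def t9 : k9.all (jb2 57 fl b0) = true := by decide +kernel
noncomputable def k10 : KT := (.br (Nat.shiftLeft (nat_lit 0x5000005) (nat_lit 112)) (.br (Nat.shiftLeft (nat_lit 0x1400001) (nat_lit 114)) (.one (nat_lit 0x500000300600700b00f600c0af41601e611)) (.one (nat_lit 0x500000400600700b00f800c0af41601e611))) (.br (Nat.shiftLeft (nat_lit 0x3) (nat_lit 137)) (.one (nat_lit 0x500000500600700b00fa00c0af41601e611)) (.one (nat_lit 0x600000100600700b00f200c0cf81601e611))))
def t10 : k10.all (jb2 57 fl b0) = true := by decide +kernel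
noncomputable def k11 : KT := (.br (Nat.shiftLeft (nat_lit 0x1800001) (nat_lit 114)) (.br (Nat.shiftLeft (nat_lit 0x6000003) (nat_lit 112)) (.one (nat_lit 0x600000200600700b00f400c0cf81601e611)) (.one (nat_lit 0x600000300600700b00f600c0cf81601e611))) (.br (Nat.shiftLeft (nat_lit 0x6000005) (nat_lit 112)) (.one (nat_lit 0x600000400600700b00f800c0cf81601e611)) (.one (nat_lit 0x600000500600700b00fa00c0cf81601e611))))
def t11 : k11.all (jb2 57 fl b0) = true := by decide +kernel
noncomputable def k12 : KT := (.br (Nat.shiftLeft (nat_lit 0x7000003) (nat_lit 112)) (.br (Nat.shiftLeft (nat_lit 0x3800001) (nat_lit 113)) (.one (nat_lit 0x700000100600700b00f200c0efc1601e611)) (.one (nat_lit 0x700000200600700b00f400c0efc1601e611))) (.br (Nat.shiftLeft (nat_lit 0x1c00001) (nat_lit 114)) (.one (nat_lit 0x700000300600700b00f600c0efc1601e611)) (.one (nat_lit 0x700000400600700b00f800c0efc1601e611))))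
def t12 : k12.all (jb2 57 fl b0) = true := by decide +kernel
noncomputable def k13 : KT := (.br (Nat.shiftLeft (nat_lit 0x8000003) (nat_lit 112)) (.br (Nat.shiftLeft (nat_lit 0x1) (nat_lit 139)) (.one (nat_lit 0x700000500600700b00fa00c0efc1601e611)) (.br (Nat.shiftLeft (nat_lit 0x4000001) (nat_lit 113)) (.one (nat_lit 0x800000100600700b00f200c11001601e611)) (.one (nat_lit 0x800000200600700b00f400c11001601e611)))) (.br (Nat.shiftLeft (nat_lit 0x8000005) (nat_lit 112)) (.br (Nat.shiftLeft (nat_lit 0x2000001) (nat_lit 114)) (.one (nat_lit 0x800000300600700b00f600c11001601e611)) (.one (nat_lit 0x800000400600700b00f800c11001601e611))) (.br (Nat.shiftLeft (nat_lit 0x9) (nat_lit 136)) (.one (nat_lit 0x800000500600700b00fa00c11001601e611)) (.one (nat_lit 0x900000100600700b00f200c13041601e611)))))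
def t13 : k13.all (jb2 57 fl b0) = true := by decide +kernel
noncomputable def k14 : KT := (.br (Nat.shiftLeft (nat_lit 0xb) (nat_lit 136)) (.br (Nat.shiftLeft (nat_lit 0x5) (nat_lit 137)) (.br (Nat.shiftLeft (nat_lit 0x2400001) (nat_lit 114)) (.br (Nat.shiftLeft (nat_lit 0x9000003) (nat_lit 112)) (.one (nat_lit 0x900000200600700b00f400c13041601e611)) (.one (nat_lit 0x900000300600700b00f600c13041601e611))) (.br (Nat.shiftLeft (nat_lit 0x9000005) (nat_lit 112)) (.one (nat_lit 0x900000400600700b00f800c13041601e611)) (.one (nat_lit 0x900000500600700b00fa00c13041601e611)))) (.br (Nat.shiftLeft (nat_lit 0xa000003) (nat_lit 112)) (.br (Nat.shiftLeft (nat_lit 0x5000001) (nat_lit 113)) (.one (nat_lit 0xa00000100600700b00f200c15081601e611)) (.one (nat_lit 0xa00000200600700b00f400c15081601e611))) (.br (Nat.shiftLeft (nat_lit 0x2800001) (nat_lit 114)) (.one (nat_lit 0xa00000300600700b00f600c15081601e611)) (.br (Nat.shiftLeft (nat_lit 0xa000005) (nat_lit 112)) (.one (nat_lit 0xa00000400600700b00f800c15081601e611)) (.one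 (nat_lit 0xa00000500600700b00fa00c15081601e611)))))) (.br (Nat.shiftLeft (nat_lit 0xb000005) (nat_lit 112)) (.br (Nat.shiftLeft (nat_lit 0xb000003) (nat_lit 112)) (.br (Nat.shiftLeft (nat_lit 0x5800001) (nat_lit 113)) (.one (nat_lit 0xb00000100600700b00f200c170c1601e611)) (.one (nat_lit 0xb00000200600700b00f400c170c1601e611))) (.br (Nat.shiftLeft (nat_lit 0x2c00001) (nat_lit 114)) (.one (nat_lit 0xb00000300600700b00f600c170c1601e611)) (.one (nat_lit 0xb00000400600700b00f800c170c1601e611)))) (.br (Nat.shiftLeft (nat_lit 0x1) (nat_lit 149)) (.br (Nat.shiftLeft (nat_lit 0x1) (nat_lit 148)) (.one (nat_lit 0xb00000500600700b00fa00c170c1601e611)) (.one (nat_lit 0x100000100200600700b00f402c40e03641e711))) (.br (Nat.shiftLeft (nat_lit 0x3) (nat_lit 148)) (.one (nat_lit 0x200000100200600700b00f404c80e03641e711)) (.br (Nat.shiftLeft (nat_lit 0x1) (nat_lit 150)) (.one (nat_lit 0x300000100200600700b00f406cc0e03641e711)) (.one (nat_lit 0x400000100200600700b00f408d00e03641e711)))))))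
def t14 : k14.all (jb2 57 fl b0) = true := by decide +kernel
noncomputable def k15 : KT := (.br (Nat.shiftLeft (nat_lit 0x1) (nat_lit 151)) (.br (Nat.shiftLeft (nat_lit 0x3) (nat_lit 149)) (.one (nat_lit 0x500000100200600700b00f40ad40e03641e711)) (.br (Nat.shiftLeft (nat_lit 0x7) (nat_lit 148)) (.one (nat_lit 0x600000100200600700b00f40cd80e03641e711)) (.one (nat_lit 0x700000100200600700b00f40edc0e03641e711)))) (.br (Nat.shiftLeft (nat_lit 0x5) (nat_lit 149)) (.br (Nat.shiftLeft (nat_lit 0x9) (nat_lit 148)) (.one (nat_lit 0x800000100200600700b00f410e00e03641e711)) (.one (nat_lit 0x900000100200600700b00f412e40e03641e711))) (.br (Nat.shiftLeft (nat_lit 0xb) (nat_lit 148)) (.one (nat_lit 0xa00000100200600700b00f414e80e03641e711)) (.one (nat_lit 0xb00000100200600700b00f416ec0e03641e711)))))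
def t15 : k15.all (jb2 57 fl b0) = true := by decide +kernel
noncomputable def s0 : KT := (.br (nat_lit 0x700000600700b00f000c00e0f7c1e511) (.br (nat_lit 0x200400600700b00f800c00e05681e760) (.br (nat_lit 0x200000600700b00f000c00e05681e511) (.br (nat_lit 0x100300600700b00f600c00e03641e760) k0 k1) (.br (nat_lit 0x200300600700b00f600c00e05681e760) k2 k3)) (.br (nat_lit 0x300400600700b00f800c00e076c1e760) (.br (nat_lit 0x300000600700b00f000c00e076c1e511) k4 k5) (.br (nat_lit 0x400500600700b00fa00c00e09701e760) k6 k7))) (.br (nat_lit 0x600000500600700b00fa00c0cf81601e611) (.br (nat_lit 0x500000200600700b00f400c0af41601e611) (.br (nat_lit 0x400000100600700b00f200c08f01601e611) k8 k9) (.br (nat_lit 0x600000100600700b00f200c0cf81601e611) k10 k11)) (.br (nat_lit 0x900000100600700b00f200c13041601e611) (.br (nat_lit 0x700000400600700b00f800c0efc1601e611) k12 k13) (.br (nat_lit 0x400000100200600700b00f408d00e03641e711) k14 k15))))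
noncomputable def u0 : KT := (.one (nat_lit 0x600700b00f000c00e01601e540))
def w0 : u0.all (wj 57 s0) = true := by decide +kernel
def o0 : OkW 57 (jb2 57 fl) u0 := .lift s0 _ (.br _ _ _ (.br _ _ _ (.br _ _ _ (.br _ _ _ (.leaf b0 k0 t0) (.leaf b0 k1 t1)) (.br _ _ _ (.leaf b0 k2 t2) (.leaf b0 k3 t3))) (.br _ _ _ (.br _ _ _ (.leaf b0 k4 t4) (.leaf b0 k5 t5)) (.br _ _ _ (.leaf b0 k6 t6) (.leaf b0 k7 t7)))) (.br _ _ _ (.br _ _ _ (.br _ _ _ (.leaf b0 k8 t8) (.leaf b0 k9 t9)) (.br _ _ _ (.leaf b0 k10 t10) (.leaf b0 k11 t11))) (.br _ _ _ (.br _ _ _ (.leaf b0 k12 t12) (.leaf b0 k13 t13)) (.br _ _ _ (.leaf b0 k14 t14) (.leaf b0 k15 t15))))) w0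
noncomputable def k16 : KT := (.br (Nat.shiftLeft (nat_lit 0x3003805809) (nat_lit 65)) (.br (Nat.shiftLeft (nat_lit 0x600700b011) (nat_lit 64)) (.one (nat_lit 0x600700b010000c00e016021500)) (.one (nat_lit 0x600700b011000c00e016023500))) (.br (Nat.shiftLeft (nat_lit 0x1) (nat_lit 112)) (.one (nat_lit 0x600700b012000c00e016025500)) (.br (Nat.shiftLeft (nat_lit 0x100600700b011) (nat_lit 64)) (.one (nat_lit 0x100600700b010200c00e016021600)) (.one (nat_lit 0x100600700b011200c00e016022650)))))
def t16 : k16.all (jb2 57 fl b0) = true := by decide +kernel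
noncomputable def k17 : KT := (.br (Nat.shiftLeft (nat_lit 0x1) (nat_lit 113)) (.one (nat_lit 0x100600700b012200c00e016024650)) (.br (Nat.shiftLeft (nat_lit 0x200600700b011) (nat_lit 64)) (.one (nat_lit 0x200600700b010400c00e016021600)) (.one (nat_lit 0x200600700b011400c00e016023600))))
def t17 : k17.all (jb2 57 fl b0) = true := by decide +kernel
noncomputable def k18 : KT := (.br (Nat.shiftLeft (nat_lit 0x3) (nat_lit 112)) (.one (nat_lit 0x200600700b012400c00e016024650)) (.br (Nat.shiftLeft (nat_lit 0x300600700b011) (nat_lit 64)) (.one (nat_lit 0x300600700b010600c00e016021600)) (.one (nat_lit 0x300600700b011600c00e016023600))))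
def t18 : k18.all (jb2 57 fl b0) = true := by decide +kernel
noncomputable def k19 : KT := (.br (Nat.shiftLeft (nat_lit 0x1) (nat_lit 114)) (.one (nat_lit 0x300600700b012600c00e016024650)) (.br (Nat.shiftLeft (nat_lit 0x400600700b011) (nat_lit 64)) (.one (nat_lit 0x400600700b010800c00e016021600)) (.one (nat_lit 0x400600700b011800c00e016023600))))
def t19 : k19.all (jb2 57 fl b0) = true := by decide +kernel
noncomputable def k20 : KT := (.br (Nat.shiftLeft (nat_lit 0x5) (nat_lit 112)) (.one (nat_lit 0x400600700b012800c00e016024650)) (.one (nat_lit 0x500600700b010a00c00e016021600)))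
def t20 : k20.all (jb2 57 fl b0) = true := by decide +kernel
noncomputable def k21 : KT := (.one (nat_lit 0x500600700b011a00c00e016022650))
def t21 : k21.all (jb2 57 fl b0) = true := by decide +kernel
noncomputable def k22 : KT := (.br (Nat.shiftLeft (nat_lit 0x100000600700b011) (nat_lit 64)) (.br (Nat.shiftLeft (nat_lit 0x1) (nat_lit 124)) (.one (nat_lit 0x500600700b012a00c00e016024650)) (.one (nat_lit 0x100000600700b010000c00e036420511))) (.br (Nat.shiftLeft (nat_lit 0x800003003805809) (nat_lit 65)) (.one (nat_lit 0x100000600700b011000c00e036422511)) (.one (nat_lit 0x100000600700b012000c00e036424511))))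
def t22 : k22.all (jb2 57 fl b0) = true := by decide +kernel
noncomputable def k23 : KT := (.one (nat_lit 0x100200600700b010400c00e036420760))
def t23 : k23.all (jb2 57 fl b0) = true := by decide +kernel
noncomputable def k24 : KT := (.br (Nat.shiftLeft (nat_lit 0x1003) (nat_lit 112)) (.one (nat_lit 0x100200600700b011400c00e036422760)) (.one (nat_lit 0x100300600700b010600c00e036420760)))
def t24 : k24.all (jb2 57 fl b0) = true := by decide +kernel
noncomputable def k25 : KT := (.br (Nat.shiftLeft (nat_lit 0x401) (nat_lit 114)) (.one (nat_lit 0x100300600700b011600c00e036422760)) (.br (Nat.shiftLeft (nat_lit 0x100400600700b011) (nat_lit 64)) (.one (nat_lit 0x100400600700b010800c00e036420760)) (.one (nat_lit 0x100400600700b011800c00e036422760))))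
def t25 : k25.all (jb2 57 fl b0) = true := by decide +kernel
noncomputable def k26 : KT := (.br (Nat.shiftLeft (nat_lit 0x200000600700b011) (nat_lit 64)) (.br (Nat.shiftLeft (nat_lit 0x1) (nat_lit 125)) (.one (nat_lit 0x100500600700b010a00c00e036420760)) (.one (nat_lit 0x200000600700b010000c00e056820511))) (.br (Nat.shiftLeft (nat_lit 0x1000003003805809) (nat_lit 65)) (.one (nat_lit 0x200000600700b011000c00e056822511)) (.br (Nat.shiftLeft (nat_lit 0x1001) (nat_lit 113)) (.one (nat_lit 0x200000600700b012000c00e056824511)) (.one (nat_lit 0x200300600700b010600c00e056820760)))))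
def t26 : k26.all (jb2 57 fl b0) = true := by decide +kernel
noncomputable def k27 : KT := (.br (Nat.shiftLeft (nat_lit 0x801) (nat_lit 114)) (.one (nat_lit 0x200300600700b011600c00e056822760)) (.one (nat_lit 0x200400600700b010800c00e056820760)))
def t27 : k27.all (jb2 57 fl b0) = true := by decide +kernel
noncomputable def k28 : KT := (.br (Nat.shiftLeft (nat_lit 0x3) (nat_lit 124)) (.br (Nat.shiftLeft (nat_lit 0x2005) (nat_lit 112)) (.one (nat_lit 0x200400600700b011800c00e056822760)) (.one (nat_lit 0x200500600700b010a00c00e056820760))) (.br (Nat.shiftLeft (nat_lit 0x300000600700b011) (nat_lit 64)) (.one (nat_lit 0x300000600700b010000c00e076c20511)) (.br (Nat.shiftLeft (nat_lit 0x1800003003805809) (nat_lit 65)) (.one (nat_lit 0x300000600700b011000c00e076c22511)) (.one (nat_lit 0x300000600700b012000c00e076c24511)))))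
def t28 : k28.all (jb2 57 fl b0) = true := by decide +kernel
noncomputable def k29 : KT := (.br (Nat.shiftLeft (nat_lit 0x300400600700b011) (nat_lit 64)) (.one (nat_lit 0x300400600700b010800c00e076c20760)) (.br (Nat.shiftLeft (nat_lit 0x3005) (nat_lit 112)) (.one (nat_lit 0x300400600700b011800c00e076c22760)) (.one (nat_lit 0x300500600700b010a00c00e076c20760))))
def t29 : k29.all (jb2 57 fl b0) = true := by decide +kernel
noncomputable def k30 : KT := (.br (Nat.shiftLeft (nat_lit 0x1001) (nat_lit 114)) (.br (Nat.shiftLeft (nat_lit 0x400000600700b011) (nat_lit 64)) (.one (nat_lit 0x400000600700b010000c00e097020511)) (.br (Nat.shiftLeft (nat_lit 0x2000003003805809) (nat_lit 65)) (.one (nat_lit 0x400000600700b011000c00e097022511)) (.one (nat_lit 0x400000600700b012000c00e097024511)))) (.br (Nat.shiftLeft (nat_lit 0x500000600700b011) (nat_lit 64)) (.br (Nat.shiftLeft (nat_lit 0x5) (nat_lit 124)) (.one (nat_lit 0x400500600700b010a00c00e097020760)) (.one (nat_lit 0x500000600700b010000c00e0b7420511))) (.br (Nat.shiftLeft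 (nat_lit 0x2800003003805809) (nat_lit 65)) (.one (nat_lit 0x500000600700b011000c00e0b7422511)) (.one (nat_lit 0x500000600700b012000c00e0b7424511)))))
def t30 : k30.all (jb2 57 fl b0) = true := by decide +kernel
noncomputable def k31 : KT := (.br (Nat.shiftLeft (nat_lit 0x3000003003805809) (nat_lit 65)) (.br (Nat.shiftLeft (nat_lit 0x600000600700b011) (nat_lit 64)) (.one (nat_lit 0x600000600700b010000c00e0d7820511)) (.one (nat_lit 0x600000600700b011000c00e0d7822511))) (.br (Nat.shiftLeft (nat_lit 0x7) (nat_lit 124)) (.one (nat_lit 0x600000600700b012000c00e0d7824511)) (.br (Nat.shiftLeft (nat_lit 0x700000600700b011) (nat_lit 64)) (.one (nat_lit 0x700000600700b010000c00e0f7c20511)) (.one (nat_lit 0x700000600700b011000c00e0f7c22511)))))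
def t31 : k31.all (jb2 57 fl b0) = true := by decide +kernel
noncomputable def k32 : KT := (.br (Nat.shiftLeft (nat_lit 0x9) (nat_lit 124)) (.br (Nat.shiftLeft (nat_lit 0x800000600700b011) (nat_lit 64)) (.br (Nat.shiftLeft (nat_lit 0x1) (nat_lit 127)) (.one (nat_lit 0x700000600700b012000c00e0f7c24511)) (.one (nat_lit 0x800000600700b010000c00e118020511))) (.br (Nat.shiftLeft (nat_lit 0x4000003003805809) (nat_lit 65)) (.one (nat_lit 0x800000600700b011000c00e118022511)) (.one (nat_lit 0x800000600700b012000c00e118024511)))) (.br (Nat.shiftLeft (nat_lit 0x4800003003805809) (nat_lit 65)) (.br (Nat.shiftLeft (nat_lit 0x900000600700b011) (nat_lit 64)) (.one (nat_lit 0x900000600700b010000c00e138420511)) (.one (nat_lit 0x900000600700b011000c00e138422511))) (.br (Nat.shiftLeft (nat_lit 0x5) (nat_lit 125)) (.one (nat_lit 0x900000600700b012000c00e138424511)) (.br (Nat.shiftLeft (nat_lit 0xa00000600700b011) (nat_lit 64)) (.one (nat_lit 0xa00000600700b010000c00e158820511)) (.one (nat_lit 0xa00000600700b011000c00e158822511))))))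
def t32 : k32.all (jb2 57 fl b0) = true := by decide +kernel
noncomputable def k33 : KT := (.br (Nat.shiftLeft (nat_lit 0x800001) (nat_lit 114)) (.br (Nat.shiftLeft (nat_lit 0x100000300600700b011) (nat_lit 64)) (.br (Nat.shiftLeft (nat_lit 0x1) (nat_lit 136)) (.br (Nat.shiftLeft (nat_lit 0xb00000600700b011) (nat_lit 64)) (.br (Nat.shiftLeft (nat_lit 0xb) (nat_lit 124)) (.one (nat_lit 0xa00000600700b012000c00e158824511)) (.one (nat_lit 0xb00000600700b010000c00e178c20511))) (.br (Nat.shiftLeft (nat_lit 0x5800003003805809) (nat_lit 65)) (.one (nat_lit 0xb00000600700b011000c00e178c22511)) (.one (nat_lit 0xb00000600700b012000c00e178c24511)))) (.br (Nat.shiftLeft (nat_lit 0x100000200600700b011) (nat_lit 64)) (.br (Nat.shiftLeft (nat_lit 0x800001) (nat_lit 113)) (.one (nat_lit 0x100000100600700b010200c02e416020611)) (.one (nat_lit 0x100000200600700b010400c02e416020611))) (.br (Nat.shiftLeft (nat_lit 0x1000003) (nat_lit 112)) (.one (nat_lit 0x100000200600700b011400c02e416022611)) (.one (nat_lit 0x100000300600700b010600c02e416020611)))))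 (.br (Nat.shiftLeft (nat_lit 0x1) (nat_lit 137)) (.br (Nat.shiftLeft (nat_lit 0x100000400600700b011) (nat_lit 64)) (.br (Nat.shiftLeft (nat_lit 0x400001) (nat_lit 114)) (.one (nat_lit 0x100000300600700b011600c02e416022611)) (.one (nat_lit 0x100000400600700b010800c02e416020611))) (.br (Nat.shiftLeft (nat_lit 0x1000005) (nat_lit 112)) (.one (nat_lit 0x100000400600700b011800c02e416022611)) (.one (nat_lit 0x100000500600700b010a00c02e416020611)))) (.br (Nat.shiftLeft (nat_lit 0x200000200600700b011) (nat_lit 64)) (.br (Nat.shiftLeft (nat_lit 0x1000001) (nat_lit 113)) (.one (nat_lit 0x200000100600700b010200c04e816020611)) (.one (nat_lit 0x200000200600700b010400c04e816020611))) (.br (Nat.shiftLeft (nat_lit 0x2000003) (nat_lit 112)) (.one (nat_lit 0x200000200600700b011400c04e816022611)) (.br (Nat.shiftLeft (nat_lit 0x200000300600700b011) (nat_lit 64)) (.one (nat_lit 0x200000300600700b010600c04e816020611)) (.one (nat_lit 0x200000300600700b011600c04e816022611))))))) (.br (Nat.shiftLeft (nat_lit 0x300000400600700b011)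 (nat_lit 64)) (.br (Nat.shiftLeft (nat_lit 0x1800001) (nat_lit 113)) (.br (Nat.shiftLeft (nat_lit 0x2000005) (nat_lit 112)) (.br (Nat.shiftLeft (nat_lit 0x200000400600700b011) (nat_lit 64)) (.one (nat_lit 0x200000400600700b010800c04e816020611)) (.one (nat_lit 0x200000400600700b011800c04e816022611))) (.br (Nat.shiftLeft (nat_lit 0x3) (nat_lit 136)) (.one (nat_lit 0x200000500600700b010a00c04e816020611)) (.one (nat_lit 0x300000100600700b010200c06ec16020611)))) (.br (Nat.shiftLeft (nat_lit 0x3000003) (nat_lit 112)) (.br (Nat.shiftLeft (nat_lit 0x300000200600700b011) (nat_lit 64)) (.one (nat_lit 0x300000200600700b010400c06ec16020611)) (.one (nat_lit 0x300000200600700b011400c06ec16022611))) (.br (Nat.shiftLeft (nat_lit 0x300000300600700b011) (nat_lit 64)) (.one (nat_lit 0x300000300600700b010600c06ec16020611)) (.br (Nat.shiftLeft (nat_lit 0xc00001) (nat_lit 114)) (.one (nat_lit 0x300000300600700b011600c06ec16022611)) (.one (nat_lit 0x300000400600700b010800c06ec16020611)))))) (.br (Nat.shiftLeft (nat_lit 0x400000200600700b011)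 (nat_lit 64)) (.br (Nat.shiftLeft (nat_lit 0x1) (nat_lit 138)) (.br (Nat.shiftLeft (nat_lit 0x3000005) (nat_lit 112)) (.one (nat_lit 0x300000400600700b011800c06ec16022611)) (.one (nat_lit 0x300000500600700b010a00c06ec16020611))) (.br (Nat.shiftLeft (nat_lit 0x2000001) (nat_lit 113)) (.one (nat_lit 0x400000100600700b010200c08f016020611)) (.one (nat_lit 0x400000200600700b010400c08f016020611)))) (.br (Nat.shiftLeft (nat_lit 0x400000300600700b011) (nat_lit 64)) (.br (Nat.shiftLeft (nat_lit 0x4000003) (nat_lit 112)) (.one (nat_lit 0x400000200600700b011400c08f016022611)) (.one (nat_lit 0x400000300600700b010600c08f016020611))) (.br (Nat.shiftLeft (nat_lit 0x1000001) (nat_lit 114)) (.one (nat_lit 0x400000300600700b011600c08f016022611)) (.br (Nat.shiftLeft (nat_lit 0x400000400600700b011) (nat_lit 64)) (.one (nat_lit 0x400000400600700b010800c08f016020611)) (.one (nat_lit 0x400000400600700b011800c08f016022611))))))))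
def t33 : k33.all (jb2 57 fl b0) = true := by decide +kernel
noncomputable def k34 : KT := (.br (Nat.shiftLeft (nat_lit 0x5000003) (nat_lit 112)) (.br (Nat.shiftLeft (nat_lit 0x2800001) (nat_lit 113)) (.br (Nat.shiftLeft (nat_lit 0x5) (nat_lit 136)) (.one (nat_lit 0x400000500600700b010a00c08f016020611)) (.one (nat_lit 0x500000100600700b010200c0af416020611))) (.br (Nat.shiftLeft (nat_lit 0x500000200600700b011) (nat_lit 64)) (.one (nat_lit 0x500000200600700b010400c0af416020611)) (.one (nat_lit 0x500000200600700b011400c0af416022611)))) (.br (Nat.shiftLeft (nat_lit 0x1400001) (nat_lit 114)) (.br (Nat.shiftLeft (nat_lit 0x500000300600700b011) (nat_lit 64)) (.one (nat_lit 0x500000300600700b010600c0af416020611)) (.one (nat_lit 0x500000300600700b011600c0af416022611))) (.br (Nat.shiftLeft (nat_lit 0x500000400600700b011) (nat_lit 64)) (.one (nat_lit 0x500000400600700b010800c0af416020611)) (.one (nat_lit 0x500000400600700b011800c0af416022611)))))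
def t34 : k34.all (jb2 57 fl b0) = true := by decide +kernel
noncomputable def k35 : KT := (.br (Nat.shiftLeft (nat_lit 0x600000200600700b011) (nat_lit 64)) (.br (Nat.shiftLeft (nat_lit 0x3) (nat_lit 137)) (.one (nat_lit 0x500000500600700b010a00c0af416020611)) (.br (Nat.shiftLeft (nat_lit 0x3000001) (nat_lit 113)) (.one (nat_lit 0x600000100600700b010200c0cf816020611)) (.one (nat_lit 0x600000200600700b010400c0cf816020611)))) (.br (Nat.shiftLeft (nat_lit 0x6000003) (nat_lit 112)) (.one (nat_lit 0x600000200600700b011400c0cf816022611)) (.br (Nat.shiftLeft (nat_lit 0x600000300600700b011) (nat_lit 64)) (.one (nat_lit 0x600000300600700b010600c0cf816020611)) (.one (nat_lit 0x600000300600700b011600c0cf816022611)))))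
def t35 : k35.all (jb2 57 fl b0) = true := by decide +kernel
noncomputable def k36 : KT := (.br (Nat.shiftLeft (nat_lit 0x3800001) (nat_lit 113)) (.br (Nat.shiftLeft (nat_lit 0x6000005) (nat_lit 112)) (.br (Nat.shiftLeft (nat_lit 0x600000400600700b011) (nat_lit 64)) (.one (nat_lit 0x600000400600700b010800c0cf816020611)) (.one (nat_lit 0x600000400600700b011800c0cf816022611))) (.br (Nat.shiftLeft (nat_lit 0x7) (nat_lit 136)) (.one (nat_lit 0x600000500600700b010a00c0cf816020611)) (.one (nat_lit 0x700000100600700b010200c0efc16020611)))) (.br (Nat.shiftLeft (nat_lit 0x7000003) (nat_lit 112)) (.br (Nat.shiftLeft (nat_lit 0x700000200600700b011) (nat_lit 64)) (.one (nat_lit 0x700000200600700b010400c0efc16020611)) (.one (nat_lit 0x700000200600700b011400c0efc16022611))) (.br (Nat.shiftLeft (nat_lit 0x700000300600700b011) (nat_lit 64)) (.one (nat_lit 0x700000300600700b010600c0efc16020611)) (.br (Nat.shiftLeft (nat_lit 0x1c00001) (nat_lit 114)) (.one (nat_lit 0x700000300600700b011600c0efc16022611)) (.one (nat_lit 0x700000400600700b010800c0efc16020611))))))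
def t36 : k36.all (jb2 57 fl b0) = true := by decide +kernel
noncomputable def k37 : KT := (.br (Nat.shiftLeft (nat_lit 0x8000005) (nat_lit 112)) (.br (Nat.shiftLeft (nat_lit 0x800000200600700b011) (nat_lit 64)) (.br (Nat.shiftLeft (nat_lit 0x1) (nat_lit 139)) (.br (Nat.shiftLeft (nat_lit 0x7000005) (nat_lit 112)) (.one (nat_lit 0x700000400600700b011800c0efc16022611)) (.one (nat_lit 0x700000500600700b010a00c0efc16020611))) (.br (Nat.shiftLeft (nat_lit 0x4000001) (nat_lit 113)) (.one (nat_lit 0x800000100600700b010200c110016020611)) (.one (nat_lit 0x800000200600700b010400c110016020611)))) (.br (Nat.shiftLeft (nat_lit 0x800000300600700b011) (nat_lit 64)) (.br (Nat.shiftLeft (nat_lit 0x8000003) (nat_lit 112)) (.one (nat_lit 0x800000200600700b011400c110016022611)) (.one (nat_lit 0x800000300600700b010600c110016020611))) (.br (Nat.shiftLeft (nat_lit 0x2000001) (nat_lit 114)) (.one (nat_lit 0x800000300600700b011600c110016022611)) (.br (Nat.shiftLeft (nat_lit 0x800000400600700b011) (nat_lit 64)) (.one (nat_lit 0x800000400600700b010800c110016020611))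 (.one (nat_lit 0x800000400600700b011800c110016022611)))))) (.br (Nat.shiftLeft (nat_lit 0x9000003) (nat_lit 112)) (.br (Nat.shiftLeft (nat_lit 0x4800001) (nat_lit 113)) (.br (Nat.shiftLeft (nat_lit 0x9) (nat_lit 136)) (.one (nat_lit 0x800000500600700b010a00c110016020611)) (.one (nat_lit 0x900000100600700b010200c130416020611))) (.br (Nat.shiftLeft (nat_lit 0x900000200600700b011) (nat_lit 64)) (.one (nat_lit 0x900000200600700b010400c130416020611)) (.one (nat_lit 0x900000200600700b011400c130416022611)))) (.br (Nat.shiftLeft (nat_lit 0x2400001) (nat_lit 114)) (.br (Nat.shiftLeft (nat_lit 0x900000300600700b011) (nat_lit 64)) (.one (nat_lit 0x900000300600700b010600c130416020611)) (.one (nat_lit 0x900000300600700b011600c130416022611))) (.br (Nat.shiftLeft (nat_lit 0x900000400600700b011) (nat_lit 64)) (.one (nat_lit 0x900000400600700b010800c130416020611)) (.br (Nat.shiftLeft (nat_lit 0x9000005) (nat_lit 112)) (.one (nat_lit 0x900000400600700b011800c130416022611)) (.one (nat_lit 0x900000500600700b010a00c130416020611)))))))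
def t37 : k37.all (jb2 57 fl b0) = true := by decide +kernel
noncomputable def k38 : KT := (.br (Nat.shiftLeft (nat_lit 0xb) (nat_lit 136)) (.br (Nat.shiftLeft (nat_lit 0xa00000300600700b011) (nat_lit 64)) (.br (Nat.shiftLeft (nat_lit 0xa00000200600700b011) (nat_lit 64)) (.br (Nat.shiftLeft (nat_lit 0x5000001) (nat_lit 113)) (.one (nat_lit 0xa00000100600700b010200c150816020611)) (.one (nat_lit 0xa00000200600700b010400c150816020611))) (.br (Nat.shiftLeft (nat_lit 0xa000003) (nat_lit 112)) (.one (nat_lit 0xa00000200600700b011400c150816022611)) (.one (nat_lit 0xa00000300600700b010600c150816020611)))) (.br (Nat.shiftLeft (nat_lit 0xa00000400600700b011) (nat_lit 64)) (.br (Nat.shiftLeft (nat_lit 0x2800001) (nat_lit 114)) (.one (nat_lit 0xa00000300600700b011600c150816022611)) (.one (nat_lit 0xa00000400600700b010800c150816020611))) (.br (Nat.shiftLeft (nat_lit 0xa000005) (nat_lit 112)) (.one (nat_lit 0xa00000400600700b011800c150816022611)) (.one (nat_lit 0xa00000500600700b010a00c150816020611))))) (.br (Nat.shiftLeft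 (nat_lit 0xb00000300600700b011) (nat_lit 64)) (.br (Nat.shiftLeft (nat_lit 0xb00000200600700b011) (nat_lit 64)) (.br (Nat.shiftLeft (nat_lit 0x5800001) (nat_lit 113)) (.one (nat_lit 0xb00000100600700b010200c170c16020611)) (.one (nat_lit 0xb00000200600700b010400c170c16020611))) (.br (Nat.shiftLeft (nat_lit 0xb000003) (nat_lit 112)) (.one (nat_lit 0xb00000200600700b011400c170c16022611)) (.one (nat_lit 0xb00000300600700b010600c170c16020611)))) (.br (Nat.shiftLeft (nat_lit 0xb00000400600700b011) (nat_lit 64)) (.br (Nat.shiftLeft (nat_lit 0x2c00001) (nat_lit 114)) (.one (nat_lit 0xb00000300600700b011600c170c16022611)) (.one (nat_lit 0xb00000400600700b010800c170c16020611))) (.br (Nat.shiftLeft (nat_lit 0xb000005) (nat_lit 112)) (.one (nat_lit 0xb00000400600700b011800c170c16022611)) (.one (nat_lit 0xb00000500600700b010a00c170c16020611))))))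
def t38 : k38.all (jb2 57 fl b0) = true := by decide +kernel
noncomputable def s1 : KT := (.br (nat_lit 0x200300600700b010600c00e056820760) (.br (nat_lit 0x500600700b010a00c00e016021600) (.br (nat_lit 0x200600700b011400c00e016023600) (.br (nat_lit 0x100600700b011200c00e016022650) k16 k17) (.br (nat_lit 0x300600700b011600c00e016023600) k18 (.br (nat_lit 0x400600700b011800c00e016023600) k19 k20))) (.br (nat_lit 0x100200600700b010400c00e036420760) (.br (nat_lit 0x500600700b011a00c00e016022650) k21 (.br (nat_lit 0x100000600700b012000c00e036424511) k22 k23)) (.br (nat_lit 0x100300600700b010600c00e036420760) k24 (.br (nat_lit 0x100400600700b011800c00e036422760) k25 k26)))) (.br (nat_lit 0xa00000600700b011000c00e158822511) (.br (nat_lit 0x300500600700b010a00c00e076c20760) (.br (nat_lit 0x200400600700b010800c00e056820760) k27 (.br (nat_lit 0x300000600700b012000c00e076c24511) k28 k29)) (.br (nat_lit 0x500000600700b012000c00e0b7424511) k30 (.br (nat_lit 0x700000600700b011000c00e0f7c22511) k31 k32))) (.br (nat_lit 0x600000300600700b011600c0cf816022611)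 (.br (nat_lit 0x400000400600700b011800c08f016022611) k33 (.br (nat_lit 0x500000400600700b011800c0af416022611) k34 k35)) (.br (nat_lit 0x700000400600700b010800c0efc16020611) k36 (.br (nat_lit 0x900000500600700b010a00c130416020611) k37 k38)))))
noncomputable def u1 : KT := (.br (Nat.shiftLeft (nat_lit 0x600700b011) (nat_lit 64)) (.one (nat_lit 0x600700b010000c00e016020540)) (.br (Nat.shiftLeft (nat_lit 0x3003805809) (nat_lit 65)) (.one (nat_lit 0x600700b011000c00e016022540)) (.one (nat_lit 0x600700b012000c00e016024540))))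
def w1 : u1.all (wj 57 s1) = true := by decide +kernel
def o1 : OkW 57 (jb2 57 fl) u1 := .lift s1 _ (.br _ _ _ (.br _ _ _ (.br _ _ _ (.br _ _ _ (.leaf b0 k16 t16) (.leaf b0 k17 t17)) (.br _ _ _ (.leaf b0 k18 t18) (.br _ _ _ (.leaf b0 k19 t19) (.leaf b0 k20 t20)))) (.br _ _ _ (.br _ _ _ (.leaf b0 k21 t21) (.br _ _ _ (.leaf b0 k22 t22) (.leaf b0 k23 t23))) (.br _ _ _ (.leaf b0 k24 t24) (.br _ _ _ (.leaf b0 k25 t25) (.leaf b0 k26 t26))))) (.br _ _ _ (.br _ _ _ (.br _ _ _ (.leaf b0 k27 t27) (.br _ _ _ (.leaf b0 k28 t28) (.leaf b0 k29 t29))) (.br _ _ _ (.leaf b0 k30 t30) (.br _ _ _ (.leaf b0 k31 t31) (.leaf b0 k32 t32)))) (.br _ _ _ (.br _ _ _ (.leaf b0 k33 t33) (.br _ _ _ (.leaf b0 k34 t34) (.leaf b0 k35 t35))) (.br _ _ _ (.leaf b0 k36 t36) (.br _ _ _ (.leaf b0 k37 t37) (.leaf b0 k38 t38)))))) w1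
noncomputable def k39 : KT := (.br (Nat.shiftLeft (nat_lit 0x5) (nat_lit 112)) (.br (Nat.shiftLeft (nat_lit 0x1) (nat_lit 113)) (.br (Nat.shiftLeft (nat_lit 0x1) (nat_lit 112)) (.one (nat_lit 0x600700c00d000c00e01801b500)) (.one (nat_lit 0x100600700c00d200c00e01801b600))) (.br (Nat.shiftLeft (nat_lit 0x3) (nat_lit 112)) (.one (nat_lit 0x200600700c00d400c00e01801b600)) (.br (Nat.shiftLeft (nat_lit 0x1) (nat_lit 114)) (.one (nat_lit 0x300600700c00d600c00e01801b600)) (.one (nat_lit 0x400600700c00d800c00e01801b600))))) (.br (Nat.shiftLeft (nat_lit 0x801) (nat_lit 113)) (.br (Nat.shiftLeft (nat_lit 0x1) (nat_lit 124)) (.one (nat_lit 0x500600700c00da00c00e01801b600)) (.one (nat_lit 0x100000600700c00d000c00e03841a511))) (.br (Nat.shiftLeft (nat_lit 0x1003) (nat_lit 112)) (.one (nat_lit 0x100200600700c00d400c00e03841b700)) (.br (Nat.shiftLeft (nat_lit 0x401) (nat_lit 114)) (.one (nat_lit 0x100300600700c00d600c00e03841b700)) (.one (nat_lit 0x100400600700c00d800c00e03841a760))))))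
def t39 : k39.all (jb2 57 fl b0) = true := by decide +kernel
noncomputable def k40 : KT := (.br (Nat.shiftLeft (nat_lit 0x1) (nat_lit 125)) (.one (nat_lit 0x100500600700c00da00c00e03841a760)) (.br (Nat.shiftLeft (nat_lit 0x1001) (nat_lit 113)) (.one (nat_lit 0x200000600700c00d000c00e05881a511)) (.one (nat_lit 0x200300600700c00d600c00e05881b700))))
def t40 : k40.all (jb2 57 fl b0) = true := by decide +kernel
noncomputable def k41 : KT := (.one (nat_lit 0x200400600700c00d800c00e05881a760))
def t41 : k41.all (jb2 57 fl b0) = true := by decide +kernel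
noncomputable def k42 : KT := (.br (Nat.shiftLeft (nat_lit 0x3) (nat_lit 124)) (.one (nat_lit 0x200500600700c00da00c00e05881a760)) (.one (nat_lit 0x300000600700c00d000c00e078c1a511)))
def t42 : k42.all (jb2 57 fl b0) = true := by decide +kernel
noncomputable def k43 : KT := (.one (nat_lit 0x300400600700c00d800c00e078c1a760))
def t43 : k43.all (jb2 57 fl b0) = true := by decide +kernel
noncomputable def k44 : KT := (.br (Nat.shiftLeft (nat_lit 0x1) (nat_lit 126)) (.one (nat_lit 0x300500600700c00da00c00e078c1a760)) (.one (nat_lit 0x400000600700c00d000c00e09901a511)))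
def t44 : k44.all (jb2 57 fl b0) = true := by decide +kernel
noncomputable def k45 : KT := (.br (Nat.shiftLeft (nat_lit 0x5) (nat_lit 124)) (.one (nat_lit 0x400500600700c00da00c00e09901a760)) (.one (nat_lit 0x500000600700c00d000c00e0b941a511)))
def t45 : k45.all (jb2 57 fl b0) = true := by decide +kernel
noncomputable def k46 : KT := (.br (Nat.shiftLeft (nat_lit 0x7) (nat_lit 124)) (.one (nat_lit 0x600000600700c00d000c00e0d981a511)) (.one (nat_lit 0x700000600700c00d000c00e0f9c1a511)))
def t46 : k46.all (jb2 57 fl b0) = true := by decide +kernel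
noncomputable def k47 : KT := (.br (Nat.shiftLeft (nat_lit 0x1) (nat_lit 136)) (.br (Nat.shiftLeft (nat_lit 0x5) (nat_lit 125)) (.br (Nat.shiftLeft (nat_lit 0x9) (nat_lit 124)) (.one (nat_lit 0x800000600700c00d000c00e11a01a511)) (.one (nat_lit 0x900000600700c00d000c00e13a41a511))) (.br (Nat.shiftLeft (nat_lit 0xb) (nat_lit 124)) (.one (nat_lit 0xa00000600700c00d000c00e15a81a511)) (.br (Nat.shiftLeft (nat_lit 0x3) (nat_lit 126)) (.one (nat_lit 0xb00000600700c00d000c00e17ac1a511)) (.one (nat_lit 0xc00000600700c00d000c00e19b01a511))))) (.br (Nat.shiftLeft (nat_lit 0x1000003) (nat_lit 112)) (.br (Nat.shiftLeft (nat_lit 0x800001) (nat_lit 113)) (.one (nat_lit 0x100000100600700c00d200c02e41801a611)) (.one (nat_lit 0x100000200600700c00d400c02e41801a611))) (.br (Nat.shiftLeft (nat_lit 0x400001) (nat_lit 114)) (.one (nat_lit 0x100000300600700c00d600c02e41801a611)) (.br (Nat.shiftLeft (nat_lit 0x1000005) (nat_lit 112)) (.one (nat_lit 0x100000400600700c00d800c02e41801a611)) (.one (nat_lit 0x100000500600700c00da00c02e41801a611))))))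
def t47 : k47.all (jb2 57 fl b0) = true := by decide +kernel
noncomputable def k48 : KT := (.br (Nat.shiftLeft (nat_lit 0x1800001) (nat_lit 113)) (.br (Nat.shiftLeft (nat_lit 0x2000003) (nat_lit 112)) (.br (Nat.shiftLeft (nat_lit 0x1) (nat_lit 137)) (.one (nat_lit 0x100200300600700c00d600c02e45881a870)) (.br (Nat.shiftLeft (nat_lit 0x1000001) (nat_lit 113)) (.one (nat_lit 0x200000100600700c00d200c04e81801a611)) (.one (nat_lit 0x200000200600700c00d400c04e81801a611)))) (.br (Nat.shiftLeft (nat_lit 0x2000005) (nat_lit 112)) (.br (Nat.shiftLeft (nat_lit 0x800001) (nat_lit 114)) (.one (nat_lit 0x200000300600700c00d600c04e81801a611)) (.one (nat_lit 0x200000400600700c00d800c04e81801a611))) (.br (Nat.shiftLeft (nat_lit 0x3) (nat_lit 136)) (.one (nat_lit 0x200000500600700c00da00c04e81801a611)) (.one (nat_lit 0x300000100600700c00d200c06ec1801a611))))) (.br (Nat.shiftLeft (nat_lit 0x3000005) (nat_lit 112)) (.br (Nat.shiftLeft (nat_lit 0x3000003) (nat_lit 112)) (.one (nat_lit 0x300000200600700c00d400c06ec1801a611)) (.br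 (Nat.shiftLeft (nat_lit 0xc00001) (nat_lit 114)) (.one (nat_lit 0x300000300600700c00d600c06ec1801a611)) (.one (nat_lit 0x300000400600700c00d800c06ec1801a611)))) (.br (Nat.shiftLeft (nat_lit 0x2000001) (nat_lit 113)) (.br (Nat.shiftLeft (nat_lit 0x1) (nat_lit 138)) (.one (nat_lit 0x300000500600700c00da00c06ec1801a611)) (.one (nat_lit 0x400000100600700c00d200c08f01801a611))) (.br (Nat.shiftLeft (nat_lit 0x4000003) (nat_lit 112)) (.one (nat_lit 0x400000200600700c00d400c08f01801a611)) (.one (nat_lit 0x400000300600700c00d600c08f01801a611))))))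
def t48 : k48.all (jb2 57 fl b0) = true := by decide +kernel
noncomputable def k49 : KT := (.br (Nat.shiftLeft (nat_lit 0x5) (nat_lit 136)) (.br (Nat.shiftLeft (nat_lit 0x4000005) (nat_lit 112)) (.one (nat_lit 0x400000400600700c00d800c08f01801a611)) (.one (nat_lit 0x400000500600700c00da00c08f01801a611))) (.br (Nat.shiftLeft (nat_lit 0x2800001) (nat_lit 113)) (.one (nat_lit 0x500000100600700c00d200c0af41801a611)) (.br (Nat.shiftLeft (nat_lit 0x5000003) (nat_lit 112)) (.one (nat_lit 0x500000200600700c00d400c0af41801a611)) (.one (nat_lit 0x500000300600700c00d600c0af41801a611)))))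
def t49 : k49.all (jb2 57 fl b0) = true := by decide +kernel
noncomputable def k50 : KT := (.br (Nat.shiftLeft (nat_lit 0x5000005) (nat_lit 112)) (.one (nat_lit 0x500000400600700c00d800c0af41801a611)) (.br (Nat.shiftLeft (nat_lit 0x3) (nat_lit 137)) (.one (nat_lit 0x500000500600700c00da00c0af41801a611)) (.one (nat_lit 0x600000100600700c00d200c0cf81801a611))))
def t50 : k50.all (jb2 57 fl b0) = true := by decide +kernel
noncomputable def k51 : KT := (.br (Nat.shiftLeft (nat_lit 0x1800001) (nat_lit 114)) (.br (Nat.shiftLeft (nat_lit 0x6000003) (nat_lit 112)) (.one (nat_lit 0x600000200600700c00d400c0cf81801a611)) (.one (nat_lit 0x600000300600700c00d600c0cf81801a611))) (.br (Nat.shiftLeft (nat_lit 0x6000005) (nat_lit 112)) (.one (nat_lit 0x600000400600700c00d800c0cf81801a611)) (.one (nat_lit 0x600000500600700c00da00c0cf81801a611))))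
def t51 : k51.all (jb2 57 fl b0) = true := by decide +kernel
noncomputable def k52 : KT := (.br (Nat.shiftLeft (nat_lit 0x3800001) (nat_lit 113)) (.one (nat_lit 0x700000100600700c00d200c0efc1801a611)) (.one (nat_lit 0x700000200600700c00d400c0efc1801a611)))
def t52 : k52.all (jb2 57 fl b0) = true := by decide +kernel
noncomputable def k53 : KT := (.br (Nat.shiftLeft (nat_lit 0x7000005) (nat_lit 112)) (.br (Nat.shiftLeft (nat_lit 0x1c00001) (nat_lit 114)) (.one (nat_lit 0x700000300600700c00d600c0efc1801a611)) (.one (nat_lit 0x700000400600700c00d800c0efc1801a611))) (.br (Nat.shiftLeft (nat_lit 0x1) (nat_lit 139)) (.one (nat_lit 0x700000500600700c00da00c0efc1801a611)) (.one (nat_lit 0x800000100600700c00d200c11001801a611))))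
def t53 : k53.all (jb2 57 fl b0) = true := by decide +kernel
noncomputable def k54 : KT := (.br (Nat.shiftLeft (nat_lit 0x8000005) (nat_lit 112)) (.br (Nat.shiftLeft (nat_lit 0x8000003) (nat_lit 112)) (.one (nat_lit 0x800000200600700c00d400c11001801a611)) (.br (Nat.shiftLeft (nat_lit 0x2000001) (nat_lit 114)) (.one (nat_lit 0x800000300600700c00d600c11001801a611)) (.one (nat_lit 0x800000400600700c00d800c11001801a611)))) (.br (Nat.shiftLeft (nat_lit 0x9) (nat_lit 136)) (.one (nat_lit 0x800000500600700c00da00c11001801a611)) (.br (Nat.shiftLeft (nat_lit 0x4800001) (nat_lit 113)) (.one (nat_lit 0x900000100600700c00d200c13041801a611)) (.one (nat_lit 0x900000200600700c00d400c13041801a611)))))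
def t54 : k54.all (jb2 57 fl b0) = true := by decide +kernel
noncomputable def k55 : KT := (.br (Nat.shiftLeft (nat_lit 0x3) (nat_lit 138)) (.br (Nat.shiftLeft (nat_lit 0x2800001) (nat_lit 114)) (.br (Nat.shiftLeft (nat_lit 0x5) (nat_lit 137)) (.br (Nat.shiftLeft (nat_lit 0x2400001) (nat_lit 114)) (.one (nat_lit 0x900000300600700c00d600c13041801a611)) (.br (Nat.shiftLeft (nat_lit 0x9000005) (nat_lit 112)) (.one (nat_lit 0x900000400600700c00d800c13041801a611)) (.one (nat_lit 0x900000500600700c00da00c13041801a611)))) (.br (Nat.shiftLeft (nat_lit 0x5000001) (nat_lit 113)) (.one (nat_lit 0xa00000100600700c00d200c15081801a611)) (.br (Nat.shiftLeft (nat_lit 0xa000003) (nat_lit 112)) (.one (nat_lit 0xa00000200600700c00d400c15081801a611)) (.one (nat_lit 0xa00000300600700c00d600c15081801a611))))) (.br (Nat.shiftLeft (nat_lit 0x5800001) (nat_lit 113)) (.br (Nat.shiftLeft (nat_lit 0xa000005) (nat_lit 112)) (.one (nat_lit 0xa00000400600700c00d800c15081801a611)) (.br (Nat.shiftLeft (nat_lit 0xb) (nat_lit 136)) (.one (nat_lit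 0xa00000500600700c00da00c15081801a611)) (.one (nat_lit 0xb00000100600700c00d200c170c1801a611)))) (.br (Nat.shiftLeft (nat_lit 0x2c00001) (nat_lit 114)) (.br (Nat.shiftLeft (nat_lit 0xb000003) (nat_lit 112)) (.one (nat_lit 0xb00000200600700c00d400c170c1801a611)) (.one (nat_lit 0xb00000300600700c00d600c170c1801a611))) (.br (Nat.shiftLeft (nat_lit 0xb000005) (nat_lit 112)) (.one (nat_lit 0xb00000400600700c00d800c170c1801a611)) (.one (nat_lit 0xb00000500600700c00da00c170c1801a611)))))) (.br (Nat.shiftLeft (nat_lit 0x1000001003) (nat_lit 112)) (.br (Nat.shiftLeft (nat_lit 0x3000001) (nat_lit 114)) (.br (Nat.shiftLeft (nat_lit 0x6000001) (nat_lit 113)) (.one (nat_lit 0xc00000100600700c00d200c19101801a611)) (.br (Nat.shiftLeft (nat_lit 0xc000003) (nat_lit 112)) (.one (nat_lit 0xc00000200600700c00d400c19101801a611)) (.one (nat_lit 0xc00000300600700c00d600c19101801a611)))) (.br (Nat.shiftLeft (nat_lit 0xc000005) (nat_lit 112)) (.one (nat_lit 0xc00000400600700c00d800c19101801a611)) (.br (Nat.shiftLeft (nat_lit 0x1) (nat_lit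 148)) (.one (nat_lit 0xc00000500600700c00da00c19101801a611)) (.one (nat_lit 0x100000100200600700c00d402c40e03841a711))))) (.br (Nat.shiftLeft (nat_lit 0x2000001003) (nat_lit 112)) (.br (Nat.shiftLeft (nat_lit 0x800001) (nat_lit 125)) (.one (nat_lit 0x100000100300600700c00d602c40e03841a711)) (.br (Nat.shiftLeft (nat_lit 0x1) (nat_lit 149)) (.one (nat_lit 0x100000200300600700c00d602c40e05881a711)) (.one (nat_lit 0x200000100200600700c00d404c80e03841a711)))) (.br (Nat.shiftLeft (nat_lit 0x3) (nat_lit 148)) (.br (Nat.shiftLeft (nat_lit 0x1000001) (nat_lit 125)) (.one (nat_lit 0x200000100300600700c00d604c80e03841a711)) (.one (nat_lit 0x200000200300600700c00d604c80e05881a711))) (.br (Nat.shiftLeft (nat_lit 0x3000001003) (nat_lit 112)) (.one (nat_lit 0x300000100200600700c00d406cc0e03841a711)) (.one (nat_lit 0x300000100300600700c00d606cc0e03841a711)))))))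
def t55 : k55.all (jb2 57 fl b0) = true := by decide +kernel
noncomputable def k56 : KT := (.br (Nat.shiftLeft (nat_lit 0x2000001) (nat_lit 125)) (.br (Nat.shiftLeft (nat_lit 0x1) (nat_lit 150)) (.one (nat_lit 0x300000200300600700c00d606cc0e05881a711)) (.br (Nat.shiftLeft (nat_lit 0x4000001003) (nat_lit 112)) (.one (nat_lit 0x400000100200600700c00d408d00e03841a711)) (.one (nat_lit 0x400000100300600700c00d608d00e03841a711)))) (.br (Nat.shiftLeft (nat_lit 0x5) (nat_lit 148)) (.one (nat_lit 0x400000200300600700c00d608d00e05881a711)) (.br (Nat.shiftLeft (nat_lit 0x5000001003) (nat_lit 112)) (.one (nat_lit 0x500000100200600700c00d40ad40e03841a711)) (.one (nat_lit 0x500000100300600700c00d60ad40e03841a711)))))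
def t56 : k56.all (jb2 57 fl b0) = true := by decide +kernel
noncomputable def k57 : KT := (.br (Nat.shiftLeft (nat_lit 0x6000001003) (nat_lit 112)) (.br (Nat.shiftLeft (nat_lit 0x3) (nat_lit 149)) (.one (nat_lit 0x500000200300600700c00d60ad40e05881a711)) (.one (nat_lit 0x600000100200600700c00d40cd80e03841a711))) (.br (Nat.shiftLeft (nat_lit 0x3000001) (nat_lit 125)) (.one (nat_lit 0x600000100300600700c00d60cd80e03841a711)) (.one (nat_lit 0x600000200300600700c00d60cd80e05881a711))))
def t57 : k57.all (jb2 57 fl b0) = true := by decide +kernel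
noncomputable def k58 : KT := (.br (Nat.shiftLeft (nat_lit 0x1) (nat_lit 151)) (.br (Nat.shiftLeft (nat_lit 0x7000001003) (nat_lit 112)) (.one (nat_lit 0x700000100200600700c00d40edc0e03841a711)) (.br (Nat.shiftLeft (nat_lit 0x3800001) (nat_lit 125)) (.one (nat_lit 0x700000100300600700c00d60edc0e03841a711)) (.one (nat_lit 0x700000200300600700c00d60edc0e05881a711)))) (.br (Nat.shiftLeft (nat_lit 0x4000001) (nat_lit 125)) (.br (Nat.shiftLeft (nat_lit 0x8000001003) (nat_lit 112)) (.one (nat_lit 0x800000100200600700c00d410e00e03841a711)) (.one (nat_lit 0x800000100300600700c00d610e00e03841a711))) (.br (Nat.shiftLeft (nat_lit 0x9) (nat_lit 148)) (.one (nat_lit 0x800000200300600700c00d610e00e05881a711)) (.one (nat_lit 0x900000100200600700c00d412e40e03841a711)))))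
def t58 : k58.all (jb2 57 fl b0) = true := by decide +kernel
noncomputable def k59 : KT := (.br (Nat.shiftLeft (nat_lit 0xb) (nat_lit 148)) (.br (Nat.shiftLeft (nat_lit 0x5) (nat_lit 149)) (.br (Nat.shiftLeft (nat_lit 0x4800001) (nat_lit 125)) (.one (nat_lit 0x900000100300600700c00d612e40e03841a711)) (.one (nat_lit 0x900000200300600700c00d612e40e05881a711))) (.br (Nat.shiftLeft (nat_lit 0xa000001003) (nat_lit 112)) (.one (nat_lit 0xa00000100200600700c00d414e80e03841a711)) (.br (Nat.shiftLeft (nat_lit 0x5000001) (nat_lit 125)) (.one (nat_lit 0xa00000100300600700c00d614e80e03841a711)) (.one (nat_lit 0xa00000200300600700c00d614e80e05881a711))))) (.br (Nat.shiftLeft (nat_lit 0x3) (nat_lit 150)) (.br (Nat.shiftLeft (nat_lit 0xb000001003) (nat_lit 112)) (.one (nat_lit 0xb00000100200600700c00d416ec0e03841a711)) (.br (Nat.shiftLeft (nat_lit 0x5800001) (nat_lit 125)) (.one (nat_lit 0xb00000100300600700c00d616ec0e03841a711)) (.one (nat_lit 0xb00000200300600700c00d616ec0e05881a711)))) (.br (Nat.shiftLeft (nat_lit 0xc000001003)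 (nat_lit 112)) (.one (nat_lit 0xc00000100200600700c00d418f00e03841a711)) (.br (Nat.shiftLeft (nat_lit 0x6000001) (nat_lit 125)) (.one (nat_lit 0xc00000100300600700c00d618f00e03841a711)) (.one (nat_lit 0xc00000200300600700c00d618f00e05881a711))))))
def t59 : k59.all (jb2 57 fl b0) = true := by decide +kernel
noncomputable def s2 : KT := (.br (nat_lit 0x400000300600700c00d600c08f01801a611) (.br (nat_lit 0x300400600700c00d800c00e078c1a760) (.br (nat_lit 0x200300600700c00d600c00e05881b700) (.br (nat_lit 0x100400600700c00d800c00e03841a760) k39 k40) (.br (nat_lit 0x200400600700c00d800c00e05881a760) k41 (.br (nat_lit 0x300000600700c00d000c00e078c1a511) k42 k43))) (.br (nat_lit 0x500000600700c00d000c00e0b941a511) (.br (nat_lit 0x400000600700c00d000c00e09901a511) k44 k45) (.br (nat_lit 0x700000600700c00d000c00e0f9c1a511) k46 (.br (nat_lit 0x100000500600700c00da00c02e41801a611) k47 k48)))) (.br (nat_lit 0x800000100600700c00d200c11001801a611) (.br (nat_lit 0x600000100600700c00d200c0cf81801a611) (.br (nat_lit 0x500000300600700c00d600c0af41801a611)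 k49 k50) (.br (nat_lit 0x600000500600700c00da00c0cf81801a611) k51 (.br (nat_lit 0x700000200600700c00d400c0efc1801a611) k52 k53))) (.br (nat_lit 0x500000100300600700c00d60ad40e03841a711) (.br (nat_lit 0x900000200600700c00d400c13041801a611) k54 (.br (nat_lit 0x300000100300600700c00d606cc0e03841a711) k55 k56)) (.br (nat_lit 0x600000200300600700c00d60cd80e05881a711) k57 (.br (nat_lit 0x900000100200600700c00d412e40e03841a711) k58 k59)))))
noncomputable def u2 : KT := (.one (nat_lit 0x600700c00d000c00e01801a540))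
def w2 : u2.all (wj 57 s2) = true := by decide +kernel
def o2 : OkW 57 (jb2 57 fl) u2 := .lift s2 _ (.br _ _ _ (.br _ _ _ (.br _ _ _ (.br _ _ _ (.leaf b0 k39 t39) (.leaf b0 k40 t40)) (.br _ _ _ (.leaf b0 k41 t41) (.br _ _ _ (.leaf b0 k42 t42) (.leaf b0 k43 t43)))) (.br _ _ _ (.br _ _ _ (.leaf b0 k44 t44) (.leaf b0 k45 t45)) (.br _ _ _ (.leaf b0 k46 t46) (.br _ _ _ (.leaf b0 k47 t47) (.leaf b0 k48 t48))))) (.br _ _ _ (.br _ _ _ (.br _ _ _ (.leaf b0 k49 t49) (.leaf b0 k50 t50)) (.br _ _ _ (.leaf b0 k51 t51) (.br _ _ _ (.leaf b0 k52 t52) (.leaf b0 k53 t53)))) (.br _ _ _ (.br _ _ _ (.leaf b0 k54 t54) (.br _ _ _ (.leaf b0 k55 t55) (.leaf b0 k56 t56))) (.br _ _ _ (.leaf b0 k57 t57) (.br _ _ _ (.leaf b0 k58 t58) (.leaf b0 k59 t59)))))) w2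
noncomputable def k60 : KT := (.br (Nat.shiftLeft (nat_lit 0x1) (nat_lit 114)) (.br (Nat.shiftLeft (nat_lit 0x1) (nat_lit 113)) (.br (Nat.shiftLeft (nat_lit 0x1) (nat_lit 112)) (.one (nat_lit 0x600700c00e000c00e01801d500)) (.one (nat_lit 0x100600700c00e200c00e01801d600))) (.br (Nat.shiftLeft (nat_lit 0x3) (nat_lit 112)) (.one (nat_lit 0x200600700c00e400c00e01801d600)) (.one (nat_lit 0x300600700c00e600c00e01801d600)))) (.br (Nat.shiftLeft (nat_lit 0x1) (nat_lit 124)) (.br (Nat.shiftLeft (nat_lit 0x5) (nat_lit 112)) (.one (nat_lit 0x400600700c00e800c00e01801d600)) (.one (nat_lit 0x500600700c00ea00c00e01801d600))) (.br (Nat.shiftLeft (nat_lit 0x801) (nat_lit 113)) (.one (nat_lit 0x100000600700c00e000c00e03841c511)) (.br (Nat.shiftLeft (nat_lit 0x1003) (nat_lit 112)) (.one (nat_lit 0x100200600700c00e400c00e03841d700)) (.one (nat_lit 0x100300600700c00e600c00e03841c760))))))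
def t60 : k60.all (jb2 57 fl b0) = true := by decide +kernel
noncomputable def k61 : KT := (.br (Nat.shiftLeft (nat_lit 0x1005) (nat_lit 112)) (.one (nat_lit 0x100400600700c00e800c00e03841c760)) (.br (Nat.shiftLeft (nat_lit 0x1) (nat_lit 125)) (.one (nat_lit 0x100500600700c00ea00c00e03841c760)) (.one (nat_lit 0x200000600700c00e000c00e05881c511))))
def t61 : k61.all (jb2 57 fl b0) = true := by decide +kernel
noncomputable def k62 : KT := (.one (nat_lit 0x200300600700c00e600c00e05881c760))
def t62 : k62.all (jb2 57 fl b0) = true := by decide +kernel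
noncomputable def k63 : KT := (.one (nat_lit 0x200400600700c00e800c00e05881c760))
def t63 : k63.all (jb2 57 fl b0) = true := by decide +kernel
noncomputable def k64 : KT := (.br (Nat.shiftLeft (nat_lit 0x3) (nat_lit 124)) (.one (nat_lit 0x200500600700c00ea00c00e05881c760)) (.one (nat_lit 0x300000600700c00e000c00e078c1c511)))
def t64 : k64.all (jb2 57 fl b0) = true := by decide +kernel
noncomputable def k65 : KT := (.br (Nat.shiftLeft (nat_lit 0x3005) (nat_lit 112)) (.one (nat_lit 0x300400600700c00e800c00e078c1c760)) (.one (nat_lit 0x300500600700c00ea00c00e078c1c760)))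
def t65 : k65.all (jb2 57 fl b0) = true := by decide +kernel
noncomputable def k66 : KT := (.br (Nat.shiftLeft (nat_lit 0x5) (nat_lit 124)) (.br (Nat.shiftLeft (nat_lit 0x1001) (nat_lit 114)) (.one (nat_lit 0x400000600700c00e000c00e09901c511)) (.one (nat_lit 0x400500600700c00ea00c00e09901c760))) (.br (Nat.shiftLeft (nat_lit 0x3) (nat_lit 125)) (.one (nat_lit 0x500000600700c00e000c00e0b941c511)) (.one (nat_lit 0x600000600700c00e000c00e0d981c511))))
def t66 : k66.all (jb2 57 fl b0) = true := by decide +kernel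
noncomputable def k67 : KT := (.br (Nat.shiftLeft (nat_lit 0x9) (nat_lit 124)) (.br (Nat.shiftLeft (nat_lit 0x1) (nat_lit 127)) (.one (nat_lit 0x700000600700c00e000c00e0f9c1c511)) (.one (nat_lit 0x800000600700c00e000c00e11a01c511))) (.br (Nat.shiftLeft (nat_lit 0x5) (nat_lit 125)) (.one (nat_lit 0x900000600700c00e000c00e13a41c511)) (.one (nat_lit 0xa00000600700c00e000c00e15a81c511))))
def t67 : k67.all (jb2 57 fl b0) = true := by decide +kernel
noncomputable def k68 : KT := (.br (Nat.shiftLeft (nat_lit 0x2000005) (nat_lit 112)) (.br (Nat.shiftLeft (nat_lit 0x400001) (nat_lit 114)) (.br (Nat.shiftLeft (nat_lit 0x1) (nat_lit 136)) (.br (Nat.shiftLeft (nat_lit 0x3) (nat_lit 126)) (.one (nat_lit 0xb00000600700c00e000c00e17ac1c511)) (.one (nat_lit 0xc00000600700c00e000c00e19b01c511))) (.br (Nat.shiftLeft (nat_lit 0x800001) (nat_lit 113)) (.one (nat_lit 0x100000100600700c00e200c02e41801c611)) (.br (Nat.shiftLeft (nat_lit 0x1000003) (nat_lit 112)) (.one (nat_lit 0x100000200600700c00e400c02e41801c611)) (.one (nat_lit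 0x100000300600700c00e600c02e41801c611))))) (.br (Nat.shiftLeft (nat_lit 0x1000001) (nat_lit 113)) (.br (Nat.shiftLeft (nat_lit 0x1000005) (nat_lit 112)) (.one (nat_lit 0x100000400600700c00e800c02e41801c611)) (.br (Nat.shiftLeft (nat_lit 0x1) (nat_lit 137)) (.one (nat_lit 0x100000500600700c00ea00c02e41801c611)) (.one (nat_lit 0x200000100600700c00e200c04e81801c611)))) (.br (Nat.shiftLeft (nat_lit 0x2000003) (nat_lit 112)) (.one (nat_lit 0x200000200600700c00e400c04e81801c611)) (.br (Nat.shiftLeft (nat_lit 0x800001) (nat_lit 114)) (.one (nat_lit 0x200000300600700c00e600c04e81801c611)) (.one (nat_lit 0x200000400600700c00e800c04e81801c611)))))) (.br (Nat.shiftLeft (nat_lit 0x1) (nat_lit 138)) (.br (Nat.shiftLeft (nat_lit 0x3000003) (nat_lit 112)) (.br (Nat.shiftLeft (nat_lit 0x3) (nat_lit 136)) (.one (nat_lit 0x200000500600700c00ea00c04e81801c611)) (.br (Nat.shiftLeft (nat_lit 0x1800001) (nat_lit 113)) (.one (nat_lit 0x300000100600700c00e200c06ec1801c611)) (.one (nat_lit 0x300000200600700c00e400c06ec1801c611))))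 (.br (Nat.shiftLeft (nat_lit 0xc00001) (nat_lit 114)) (.one (nat_lit 0x300000300600700c00e600c06ec1801c611)) (.br (Nat.shiftLeft (nat_lit 0x3000005) (nat_lit 112)) (.one (nat_lit 0x300000400600700c00e800c06ec1801c611)) (.one (nat_lit 0x300000500600700c00ea00c06ec1801c611))))) (.br (Nat.shiftLeft (nat_lit 0x1000001) (nat_lit 114)) (.br (Nat.shiftLeft (nat_lit 0x2000001) (nat_lit 113)) (.one (nat_lit 0x400000100600700c00e200c08f01801c611)) (.br (Nat.shiftLeft (nat_lit 0x4000003) (nat_lit 112)) (.one (nat_lit 0x400000200600700c00e400c08f01801c611)) (.one (nat_lit 0x400000300600700c00e600c08f01801c611)))) (.br (Nat.shiftLeft (nat_lit 0x4000005) (nat_lit 112)) (.one (nat_lit 0x400000400600700c00e800c08f01801c611)) (.br (Nat.shiftLeft (nat_lit 0x5) (nat_lit 136)) (.one (nat_lit 0x400000500600700c00ea00c08f01801c611)) (.one (nat_lit 0x500000100600700c00e200c0af41801c611)))))))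
def t68 : k68.all (jb2 57 fl b0) = true := by decide +kernel
noncomputable def k69 : KT := (.br (Nat.shiftLeft (nat_lit 0x1400001) (nat_lit 114)) (.br (Nat.shiftLeft (nat_lit 0x5000003) (nat_lit 112)) (.one (nat_lit 0x500000200600700c00e400c0af41801c611)) (.one (nat_lit 0x500000300600700c00e600c0af41801c611))) (.br (Nat.shiftLeft (nat_lit 0x5000005) (nat_lit 112)) (.one (nat_lit 0x500000400600700c00e800c0af41801c611)) (.one (nat_lit 0x500000500600700c00ea00c0af41801c611))))
def t69 : k69.all (jb2 57 fl b0) = true := by decide +kernel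
noncomputable def k70 : KT := (.br (Nat.shiftLeft (nat_lit 0x3000001) (nat_lit 113)) (.one (nat_lit 0x600000100600700c00e200c0cf81801c611)) (.br (Nat.shiftLeft (nat_lit 0x6000003) (nat_lit 112)) (.one (nat_lit 0x600000200600700c00e400c0cf81801c611)) (.one (nat_lit 0x600000300600700c00e600c0cf81801c611))))
def t70 : k70.all (jb2 57 fl b0) = true := by decide +kernel
noncomputable def k71 : KT := (.br (Nat.shiftLeft (nat_lit 0x7) (nat_lit 136)) (.br (Nat.shiftLeft (nat_lit 0x6000005) (nat_lit 112)) (.one (nat_lit 0x600000400600700c00e800c0cf81801c611)) (.one (nat_lit 0x600000500600700c00ea00c0cf81801c611))) (.br (Nat.shiftLeft (nat_lit 0x3800001) (nat_lit 113)) (.one (nat_lit 0x700000100600700c00e200c0efc1801c611)) (.one (nat_lit 0x700000200600700c00e400c0efc1801c611))))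
def t71 : k71.all (jb2 57 fl b0) = true := by decide +kernel
noncomputable def k72 : KT := (.br (Nat.shiftLeft (nat_lit 0x4000001) (nat_lit 113)) (.br (Nat.shiftLeft (nat_lit 0x7000005) (nat_lit 112)) (.br (Nat.shiftLeft (nat_lit 0x1c00001) (nat_lit 114)) (.one (nat_lit 0x700000300600700c00e600c0efc1801c611)) (.one (nat_lit 0x700000400600700c00e800c0efc1801c611))) (.br (Nat.shiftLeft (nat_lit 0x1) (nat_lit 139)) (.one (nat_lit 0x700000500600700c00ea00c0efc1801c611)) (.one (nat_lit 0x800000100600700c00e200c11001801c611)))) (.br (Nat.shiftLeft (nat_lit 0x2000001) (nat_lit 114)) (.br (Nat.shiftLeft (nat_lit 0x8000003) (nat_lit 112)) (.one (nat_lit 0x800000200600700c00e400c11001801c611)) (.one (nat_lit 0x800000300600700c00e600c11001801c611))) (.br (Nat.shiftLeft (nat_lit 0x8000005) (nat_lit 112)) (.one (nat_lit 0x800000400600700c00e800c11001801c611)) (.one (nat_lit 0x800000500600700c00ea00c11001801c611)))))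
def t72 : k72.all (jb2 57 fl b0) = true := by decide +kernel
noncomputable def k73 : KT := (.br (Nat.shiftLeft (nat_lit 0x5800001) (nat_lit 113)) (.br (Nat.shiftLeft (nat_lit 0x5) (nat_lit 137)) (.br (Nat.shiftLeft (nat_lit 0x9000003) (nat_lit 112)) (.br (Nat.shiftLeft (nat_lit 0x4800001) (nat_lit 113)) (.one (nat_lit 0x900000100600700c00e200c13041801c611)) (.one (nat_lit 0x900000200600700c00e400c13041801c611))) (.br (Nat.shiftLeft (nat_lit 0x2400001) (nat_lit 114)) (.one (nat_lit 0x900000300600700c00e600c13041801c611)) (.br (Nat.shiftLeft (nat_lit 0x9000005) (nat_lit 112)) (.one (nat_lit 0x900000400600700c00e800c13041801c611)) (.one (nat_lit 0x900000500600700c00ea00c13041801c611))))) (.br (Nat.shiftLeft (nat_lit 0x2800001) (nat_lit 114)) (.br (Nat.shiftLeft (nat_lit 0x5000001) (nat_lit 113)) (.one (nat_lit 0xa00000100600700c00e200c15081801c611)) (.br (Nat.shiftLeft (nat_lit 0xa000003) (nat_lit 112)) (.one (nat_lit 0xa00000200600700c00e400c15081801c611)) (.one (nat_lit 0xa00000300600700c00e600c15081801c611))))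 (.br (Nat.shiftLeft (nat_lit 0xa000005) (nat_lit 112)) (.one (nat_lit 0xa00000400600700c00e800c15081801c611)) (.br (Nat.shiftLeft (nat_lit 0xb) (nat_lit 136)) (.one (nat_lit 0xa00000500600700c00ea00c15081801c611)) (.one (nat_lit 0xb00000100600700c00e200c170c1801c611)))))) (.br (Nat.shiftLeft (nat_lit 0xc000003) (nat_lit 112)) (.br (Nat.shiftLeft (nat_lit 0xb000005) (nat_lit 112)) (.br (Nat.shiftLeft (nat_lit 0xb000003) (nat_lit 112)) (.one (nat_lit 0xb00000200600700c00e400c170c1801c611)) (.br (Nat.shiftLeft (nat_lit 0x2c00001) (nat_lit 114)) (.one (nat_lit 0xb00000300600700c00e600c170c1801c611)) (.one (nat_lit 0xb00000400600700c00e800c170c1801c611)))) (.br (Nat.shiftLeft (nat_lit 0x3) (nat_lit 138)) (.one (nat_lit 0xb00000500600700c00ea00c170c1801c611)) (.br (Nat.shiftLeft (nat_lit 0x6000001) (nat_lit 113)) (.one (nat_lit 0xc00000100600700c00e200c19101801c611)) (.one (nat_lit 0xc00000200600700c00e400c19101801c611))))) (.br (Nat.shiftLeft (nat_lit 0x1) (nat_lit 148)) (.br (Nat.shiftLeft (nat_lit 0x3000001) (nat_lit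 114)) (.one (nat_lit 0xc00000300600700c00e600c19101801c611)) (.br (Nat.shiftLeft (nat_lit 0xc000005) (nat_lit 112)) (.one (nat_lit 0xc00000400600700c00e800c19101801c611)) (.one (nat_lit 0xc00000500600700c00ea00c19101801c611)))) (.br (Nat.shiftLeft (nat_lit 0x1) (nat_lit 149)) (.one (nat_lit 0x100000100200600700c00e402c40e03841c711)) (.br (Nat.shiftLeft (nat_lit 0x3) (nat_lit 148)) (.one (nat_lit 0x200000100200600700c00e404c80e03841c711)) (.one (nat_lit 0x300000100200600700c00e406cc0e03841c711)))))))
def t73 : k73.all (jb2 57 fl b0) = true := by decide +kernel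
noncomputable def k74 : KT := (.br (Nat.shiftLeft (nat_lit 0x1) (nat_lit 151)) (.br (Nat.shiftLeft (nat_lit 0x3) (nat_lit 149)) (.br (Nat.shiftLeft (nat_lit 0x5) (nat_lit 148)) (.one (nat_lit 0x400000100200600700c00e408d00e03841c711)) (.one (nat_lit 0x500000100200600700c00e40ad40e03841c711))) (.br (Nat.shiftLeft (nat_lit 0x7) (nat_lit 148)) (.one (nat_lit 0x600000100200600700c00e40cd80e03841c711)) (.one (nat_lit 0x700000100200600700c00e40edc0e03841c711)))) (.br (Nat.shiftLeft (nat_lit 0x5) (nat_lit 149)) (.br (Nat.shiftLeft (nat_lit 0x9) (nat_lit 148)) (.one (nat_lit 0x800000100200600700c00e410e00e03841c711)) (.one (nat_lit 0x900000100200600700c00e412e40e03841c711))) (.br (Nat.shiftLeft (nat_lit 0xb) (nat_lit 148)) (.one (nat_lit 0xa00000100200600700c00e414e80e03841c711)) (.br (Nat.shiftLeft (nat_lit 0x3) (nat_lit 150)) (.one (nat_lit 0xb00000100200600700c00e416ec0e03841c711)) (.one (nat_lit 0xc00000100200600700c00e418f00e03841c711))))))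
def t74 : k74.all (jb2 57 fl b0) = true := by decide +kernel
noncomputable def s3 : KT := (.br (nat_lit 0x600000600700c00e000c00e0d981c511) (.br (nat_lit 0x200300600700c00e600c00e05881c760) (.br (nat_lit 0x100300600700c00e600c00e03841c760) k60 (.br (nat_lit 0x200000600700c00e000c00e05881c511) k61 k62)) (.br (nat_lit 0x300000600700c00e000c00e078c1c511) (.br (nat_lit 0x200400600700c00e800c00e05881c760) k63 k64) (.br (nat_lit 0x300500600700c00ea00c00e078c1c760) k65 k66))) (.br (nat_lit 0x600000300600700c00e600c0cf81801c611) (.br (nat_lit 0x500000100600700c00e200c0af41801c611) (.br (nat_lit 0xa00000600700c00e000c00e15a81c511) k67 k68) (.br (nat_lit 0x500000500600700c00ea00c0af41801c611) k69 k70)) (.br (nat_lit 0x800000500600700c00ea00c11001801c611) (.br (nat_lit 0x700000200600700c00e400c0efc1801c611) k71 k72) (.br (nat_lit 0x300000100200600700c00e406cc0e03841c711) k73 k74))))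
noncomputable def u3 : KT := (.one (nat_lit 0x600700c00e000c00e01801c540))
def w3 : u3.all (wj 57 s3) = true := by decide +kernel
def o3 : OkW 57 (jb2 57 fl) u3 := .lift s3 _ (.br _ _ _ (.br _ _ _ (.br _ _ _ (.leaf b0 k60 t60) (.br _ _ _ (.leaf b0 k61 t61) (.leaf b0 k62 t62))) (.br _ _ _ (.br _ _ _ (.leaf b0 k63 t63) (.leaf b0 k64 t64)) (.br _ _ _ (.leaf b0 k65 t65) (.leaf b0 k66 t66)))) (.br _ _ _ (.br _ _ _ (.br _ _ _ (.leaf b0 k67 t67) (.leaf b0 k68 t68)) (.br _ _ _ (.leaf b0 k69 t69) (.leaf b0 k70 t70))) (.br _ _ _ (.br _ _ _ (.leaf b0 k71 t71) (.leaf b0 k72 t72)) (.br _ _ _ (.leaf b0 k73 t73) (.leaf b0 k74 t74))))) w3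
noncomputable def k75 : KT := (.br (Nat.shiftLeft (nat_lit 0x600700c011) (nat_lit 64)) (.br (Nat.shiftLeft (nat_lit 0x600700c01) (nat_lit 68)) (.one (nat_lit 0x600700c00f000c00e01801f500)) (.one (nat_lit 0x600700c010000c00e018021500))) (.br (Nat.shiftLeft (nat_lit 0x1) (nat_lit 112)) (.one (nat_lit 0x600700c011000c00e018023500)) (.br (Nat.shiftLeft (nat_lit 0x100600700c01) (nat_lit 68)) (.one (nat_lit 0x100600700c00f200c00e01801f600)) (.one (nat_lit 0x100600700c010200c00e018020650)))))
def t75 : k75.all (jb2 57 fl b0) = true := by decide +kernel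
noncomputable def k76 : KT := (.br (Nat.shiftLeft (nat_lit 0x1) (nat_lit 113)) (.one (nat_lit 0x100600700c011200c00e018022650)) (.br (Nat.shiftLeft (nat_lit 0x200600700c01) (nat_lit 68)) (.one (nat_lit 0x200600700c00f400c00e01801f600)) (.one (nat_lit 0x200600700c010400c00e018021600))))
def t76 : k76.all (jb2 57 fl b0) = true := by decide +kernel
noncomputable def k77 : KT := (.br (Nat.shiftLeft (nat_lit 0x3) (nat_lit 112)) (.one (nat_lit 0x200600700c011400c00e018022650)) (.br (Nat.shiftLeft (nat_lit 0x300600700c01) (nat_lit 68)) (.one (nat_lit 0x300600700c00f600c00e01801f600)) (.one (nat_lit 0x300600700c010600c00e018021600))))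
def t77 : k77.all (jb2 57 fl b0) = true := by decide +kernel
noncomputable def k78 : KT := (.br (Nat.shiftLeft (nat_lit 0x1) (nat_lit 114)) (.one (nat_lit 0x300600700c011600c00e018022650)) (.br (Nat.shiftLeft (nat_lit 0x400600700c01) (nat_lit 68)) (.one (nat_lit 0x400600700c00f800c00e01801f600)) (.one (nat_lit 0x400600700c010800c00e018021600))))
def t78 : k78.all (jb2 57 fl b0) = true := by decide +kernel
noncomputable def k79 : KT := (.br (Nat.shiftLeft (nat_lit 0x5) (nat_lit 112)) (.one (nat_lit 0x400600700c011800c00e018022650)) (.one (nat_lit 0x500600700c00fa00c00e01801f600)))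
def t79 : k79.all (jb2 57 fl b0) = true := by decide +kernel
noncomputable def k80 : KT := (.one (nat_lit 0x500600700c010a00c00e018020650))
def t80 : k80.all (jb2 57 fl b0) = true := by decide +kernel
noncomputable def k81 : KT := (.br (Nat.shiftLeft (nat_lit 0x100000600700c01) (nat_lit 68)) (.br (Nat.shiftLeft (nat_lit 0x1) (nat_lit 124)) (.one (nat_lit 0x500600700c011a00c00e018022650)) (.one (nat_lit 0x100000600700c00f000c00e03841e511))) (.br (Nat.shiftLeft (nat_lit 0x100000600700c011) (nat_lit 64)) (.one (nat_lit 0x100000600700c010000c00e038420511)) (.one (nat_lit 0x100000600700c011000c00e038422511))))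
def t81 : k81.all (jb2 57 fl b0) = true := by decide +kernel
noncomputable def k82 : KT := (.one (nat_lit 0x100200600700c00f400c00e03841e760))
def t82 : k82.all (jb2 57 fl b0) = true := by decide +kernel
noncomputable def k83 : KT := (.br (Nat.shiftLeft (nat_lit 0x1003) (nat_lit 112)) (.one (nat_lit 0x100200600700c010400c00e038420760)) (.one (nat_lit 0x100300600700c00f600c00e03841e760)))
def t83 : k83.all (jb2 57 fl b0) = true := by decide +kernel
noncomputable def k84 : KT := (.br (Nat.shiftLeft (nat_lit 0x401) (nat_lit 114)) (.one (nat_lit 0x100300600700c010600c00e038420760)) (.br (Nat.shiftLeft (nat_lit 0x100400600700c01) (nat_lit 68)) (.one (nat_lit 0x100400600700c00f800c00e03841e760)) (.one (nat_lit 0x100400600700c010800c00e038420760))))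
def t84 : k84.all (jb2 57 fl b0) = true := by decide +kernel
noncomputable def k85 : KT := (.br (Nat.shiftLeft (nat_lit 0x200000600700c01) (nat_lit 68)) (.br (Nat.shiftLeft (nat_lit 0x1) (nat_lit 125)) (.one (nat_lit 0x100500600700c00fa00c00e03841e760)) (.one (nat_lit 0x200000600700c00f000c00e05881e511))) (.br (Nat.shiftLeft (nat_lit 0x200000600700c011) (nat_lit 64)) (.one (nat_lit 0x200000600700c010000c00e058820511)) (.br (Nat.shiftLeft (nat_lit 0x1001) (nat_lit 113)) (.one (nat_lit 0x200000600700c011000c00e058822511)) (.one (nat_lit 0x200300600700c00f600c00e05881e760)))))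
def t85 : k85.all (jb2 57 fl b0) = true := by decide +kernel
noncomputable def k86 : KT := (.br (Nat.shiftLeft (nat_lit 0x801) (nat_lit 114)) (.one (nat_lit 0x200300600700c010600c00e058820760)) (.one (nat_lit 0x200400600700c00f800c00e05881e760)))
def t86 : k86.all (jb2 57 fl b0) = true := by decide +kernel
noncomputable def k87 : KT := (.br (Nat.shiftLeft (nat_lit 0x3) (nat_lit 124)) (.br (Nat.shiftLeft (nat_lit 0x2005) (nat_lit 112)) (.one (nat_lit 0x200400600700c010800c00e058820760)) (.one (nat_lit 0x200500600700c00fa00c00e05881e760))) (.br (Nat.shiftLeft (nat_lit 0x300000600700c01) (nat_lit 68)) (.one (nat_lit 0x300000600700c00f000c00e078c1e511)) (.br (Nat.shiftLeft (nat_lit 0x300000600700c011) (nat_lit 64)) (.one (nat_lit 0x300000600700c010000c00e078c20511)) (.one (nat_lit 0x300000600700c011000c00e078c22511)))))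
def t87 : k87.all (jb2 57 fl b0) = true := by decide +kernel
noncomputable def k88 : KT := (.br (Nat.shiftLeft (nat_lit 0x300400600700c01) (nat_lit 68)) (.one (nat_lit 0x300400600700c00f800c00e078c1e760)) (.br (Nat.shiftLeft (nat_lit 0x3005) (nat_lit 112)) (.one (nat_lit 0x300400600700c010800c00e078c20760)) (.one (nat_lit 0x300500600700c00fa00c00e078c1e760))))
def t88 : k88.all (jb2 57 fl b0) = true := by decide +kernel
noncomputable def k89 : KT := (.br (Nat.shiftLeft (nat_lit 0x1001) (nat_lit 114)) (.br (Nat.shiftLeft (nat_lit 0x400000600700c01) (nat_lit 68)) (.one (nat_lit 0x400000600700c00f000c00e09901e511)) (.br (Nat.shiftLeft (nat_lit 0x400000600700c011) (nat_lit 64)) (.one (nat_lit 0x400000600700c010000c00e099020511)) (.one (nat_lit 0x400000600700c011000c00e099022511)))) (.br (Nat.shiftLeft (nat_lit 0x500000600700c01) (nat_lit 68)) (.br (Nat.shiftLeft (nat_lit 0x5) (nat_lit 124)) (.one (nat_lit 0x400500600700c00fa00c00e09901e760)) (.one (nat_lit 0x500000600700c00f000c00e0b941e511))) (.br (Nat.shiftLeft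 (nat_lit 0x500000600700c011) (nat_lit 64)) (.one (nat_lit 0x500000600700c010000c00e0b9420511)) (.one (nat_lit 0x500000600700c011000c00e0b9422511)))))
def t89 : k89.all (jb2 57 fl b0) = true := by decide +kernel
noncomputable def k90 : KT := (.br (Nat.shiftLeft (nat_lit 0x600000600700c011) (nat_lit 64)) (.br (Nat.shiftLeft (nat_lit 0x600000600700c01) (nat_lit 68)) (.one (nat_lit 0x600000600700c00f000c00e0d981e511)) (.one (nat_lit 0x600000600700c010000c00e0d9820511))) (.br (Nat.shiftLeft (nat_lit 0x7) (nat_lit 124)) (.one (nat_lit 0x600000600700c011000c00e0d9822511)) (.br (Nat.shiftLeft (nat_lit 0x700000600700c01) (nat_lit 68)) (.one (nat_lit 0x700000600700c00f000c00e0f9c1e511)) (.one (nat_lit 0x700000600700c010000c00e0f9c20511)))))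
def t90 : k90.all (jb2 57 fl b0) = true := by decide +kernel
noncomputable def k91 : KT := (.br (Nat.shiftLeft (nat_lit 0x900000600700c01) (nat_lit 68)) (.br (Nat.shiftLeft (nat_lit 0x800000600700c01) (nat_lit 68)) (.br (Nat.shiftLeft (nat_lit 0x1) (nat_lit 127)) (.one (nat_lit 0x700000600700c011000c00e0f9c22511)) (.one (nat_lit 0x800000600700c00f000c00e11a01e511))) (.br (Nat.shiftLeft (nat_lit 0x800000600700c011) (nat_lit 64)) (.one (nat_lit 0x800000600700c010000c00e11a020511)) (.br (Nat.shiftLeft (nat_lit 0x9) (nat_lit 124)) (.one (nat_lit 0x800000600700c011000c00e11a022511)) (.one (nat_lit 0x900000600700c00f000c00e13a41e511))))) (.br (Nat.shiftLeft (nat_lit 0x5) (nat_lit 125)) (.br (Nat.shiftLeft (nat_lit 0x900000600700c011) (nat_lit 64)) (.one (nat_lit 0x900000600700c010000c00e13a420511)) (.one (nat_lit 0x900000600700c011000c00e13a422511))) (.br (Nat.shiftLeft (nat_lit 0xa00000600700c01) (nat_lit 68)) (.one (nat_lit 0xa00000600700c00f000c00e15a81e511)) (.br (Nat.shiftLeft (nat_lit 0xa00000600700c011) (nat_lit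 64)) (.one (nat_lit 0xa00000600700c010000c00e15a820511)) (.one (nat_lit 0xa00000600700c011000c00e15a822511))))))
def t91 : k91.all (jb2 57 fl b0) = true := by decide +kernel
noncomputable def k92 : KT := (.br (Nat.shiftLeft (nat_lit 0x200000300600700c01) (nat_lit 68)) (.br (Nat.shiftLeft (nat_lit 0x1000003) (nat_lit 112)) (.br (Nat.shiftLeft (nat_lit 0xc00000600700c01) (nat_lit 68)) (.br (Nat.shiftLeft (nat_lit 0xb00000600700c011) (nat_lit 64)) (.br (Nat.shiftLeft (nat_lit 0xb00000600700c01) (nat_lit 68)) (.one (nat_lit 0xb00000600700c00f000c00e17ac1e511)) (.one (nat_lit 0xb00000600700c010000c00e17ac20511))) (.br (Nat.shiftLeft (nat_lit 0x3) (nat_lit 126)) (.one (nat_lit 0xb00000600700c011000c00e17ac22511)) (.one (nat_lit 0xc00000600700c00f000c00e19b01e511)))) (.br (Nat.shiftLeft (nat_lit 0x1) (nat_lit 136)) (.br (Nat.shiftLeft (nat_lit 0xc00000600700c011) (nat_lit 64)) (.one (nat_lit 0xc00000600700c010000c00e19b020511)) (.one (nat_lit 0xc00000600700c011000c00e19b022511))) (.br (Nat.shiftLeft (nat_lit 0x800001)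 (nat_lit 113)) (.one (nat_lit 0x100000100600700c00f200c02e41801e611)) (.br (Nat.shiftLeft (nat_lit 0x100000200600700c01) (nat_lit 68)) (.one (nat_lit 0x100000200600700c00f400c02e41801e611)) (.one (nat_lit 0x100000200600700c010400c02e418020611)))))) (.br (Nat.shiftLeft (nat_lit 0x1000005) (nat_lit 112)) (.br (Nat.shiftLeft (nat_lit 0x400001) (nat_lit 114)) (.br (Nat.shiftLeft (nat_lit 0x100000300600700c01) (nat_lit 68)) (.one (nat_lit 0x100000300600700c00f600c02e41801e611)) (.one (nat_lit 0x100000300600700c010600c02e418020611))) (.br (Nat.shiftLeft (nat_lit 0x100000400600700c01) (nat_lit 68)) (.one (nat_lit 0x100000400600700c00f800c02e41801e611)) (.one (nat_lit 0x100000400600700c010800c02e418020611)))) (.br (Nat.shiftLeft (nat_lit 0x1000001) (nat_lit 113)) (.br (Nat.shiftLeft (nat_lit 0x1) (nat_lit 137)) (.one (nat_lit 0x100000500600700c00fa00c02e41801e611)) (.one (nat_lit 0x200000100600700c00f200c04e81801e611))) (.br (Nat.shiftLeft (nat_lit 0x200000200600700c01) (nat_lit 68)) (.one (nat_lit 0x200000200600700c00f400c04e81801e611))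 (.br (Nat.shiftLeft (nat_lit 0x2000003) (nat_lit 112)) (.one (nat_lit 0x200000200600700c010400c04e818020611)) (.one (nat_lit 0x200000300600700c00f600c04e81801e611))))))) (.br (Nat.shiftLeft (nat_lit 0xc00001) (nat_lit 114)) (.br (Nat.shiftLeft (nat_lit 0x3) (nat_lit 136)) (.br (Nat.shiftLeft (nat_lit 0x200000400600700c01) (nat_lit 68)) (.br (Nat.shiftLeft (nat_lit 0x800001) (nat_lit 114)) (.one (nat_lit 0x200000300600700c010600c04e818020611)) (.one (nat_lit 0x200000400600700c00f800c04e81801e611))) (.br (Nat.shiftLeft (nat_lit 0x2000005) (nat_lit 112)) (.one (nat_lit 0x200000400600700c010800c04e818020611)) (.one (nat_lit 0x200000500600700c00fa00c04e81801e611)))) (.br (Nat.shiftLeft (nat_lit 0x300000200600700c01) (nat_lit 68)) (.br (Nat.shiftLeft (nat_lit 0x1800001) (nat_lit 113)) (.one (nat_lit 0x300000100600700c00f200c06ec1801e611)) (.one (nat_lit 0x300000200600700c00f400c06ec1801e611))) (.br (Nat.shiftLeft (nat_lit 0x3000003) (nat_lit 112)) (.one (nat_lit 0x300000200600700c010400c06ec18020611)) (.br (Nat.shiftLeft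 (nat_lit 0x300000300600700c01) (nat_lit 68)) (.one (nat_lit 0x300000300600700c00f600c06ec1801e611)) (.one (nat_lit 0x300000300600700c010600c06ec18020611)))))) (.br (Nat.shiftLeft (nat_lit 0x400000200600700c01) (nat_lit 68)) (.br (Nat.shiftLeft (nat_lit 0x3000005) (nat_lit 112)) (.br (Nat.shiftLeft (nat_lit 0x300000400600700c01) (nat_lit 68)) (.one (nat_lit 0x300000400600700c00f800c06ec1801e611)) (.one (nat_lit 0x300000400600700c010800c06ec18020611))) (.br (Nat.shiftLeft (nat_lit 0x1) (nat_lit 138)) (.one (nat_lit 0x300000500600700c00fa00c06ec1801e611)) (.br (Nat.shiftLeft (nat_lit 0x2000001) (nat_lit 113)) (.one (nat_lit 0x400000100600700c00f200c08f01801e611)) (.one (nat_lit 0x400000200600700c00f400c08f01801e611))))) (.br (Nat.shiftLeft (nat_lit 0x400000300600700c01) (nat_lit 68)) (.br (Nat.shiftLeft (nat_lit 0x4000003) (nat_lit 112)) (.one (nat_lit 0x400000200600700c010400c08f018020611)) (.one (nat_lit 0x400000300600700c00f600c08f01801e611))) (.br (Nat.shiftLeft (nat_lit 0x1000001) (nat_lit 114)) (.one (nat_lit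 0x400000300600700c010600c08f018020611)) (.br (Nat.shiftLeft (nat_lit 0x400000400600700c01) (nat_lit 68)) (.one (nat_lit 0x400000400600700c00f800c08f01801e611)) (.one (nat_lit 0x400000400600700c010800c08f018020611))))))))
def t92 : k92.all (jb2 57 fl b0) = true := by decide +kernel
noncomputable def k93 : KT := (.br (Nat.shiftLeft (nat_lit 0x5000003) (nat_lit 112)) (.br (Nat.shiftLeft (nat_lit 0x2800001) (nat_lit 113)) (.br (Nat.shiftLeft (nat_lit 0x5) (nat_lit 136)) (.one (nat_lit 0x400000500600700c00fa00c08f01801e611)) (.one (nat_lit 0x500000100600700c00f200c0af41801e611))) (.br (Nat.shiftLeft (nat_lit 0x500000200600700c01) (nat_lit 68)) (.one (nat_lit 0x500000200600700c00f400c0af41801e611)) (.one (nat_lit 0x500000200600700c010400c0af418020611)))) (.br (Nat.shiftLeft (nat_lit 0x1400001) (nat_lit 114)) (.br (Nat.shiftLeft (nat_lit 0x500000300600700c01) (nat_lit 68)) (.one (nat_lit 0x500000300600700c00f600c0af41801e611)) (.one (nat_lit 0x500000300600700c010600c0af418020611))) (.br (Nat.shiftLeft (nat_lit 0x500000400600700c01)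 (nat_lit 68)) (.one (nat_lit 0x500000400600700c00f800c0af41801e611)) (.one (nat_lit 0x500000400600700c010800c0af418020611)))))
def t93 : k93.all (jb2 57 fl b0) = true := by decide +kernel
noncomputable def k94 : KT := (.br (Nat.shiftLeft (nat_lit 0x600000200600700c01) (nat_lit 68)) (.br (Nat.shiftLeft (nat_lit 0x3) (nat_lit 137)) (.one (nat_lit 0x500000500600700c00fa00c0af41801e611)) (.br (Nat.shiftLeft (nat_lit 0x3000001) (nat_lit 113)) (.one (nat_lit 0x600000100600700c00f200c0cf81801e611)) (.one (nat_lit 0x600000200600700c00f400c0cf81801e611)))) (.br (Nat.shiftLeft (nat_lit 0x6000003) (nat_lit 112)) (.one (nat_lit 0x600000200600700c010400c0cf818020611)) (.br (Nat.shiftLeft (nat_lit 0x600000300600700c01) (nat_lit 68)) (.one (nat_lit 0x600000300600700c00f600c0cf81801e611)) (.one (nat_lit 0x600000300600700c010600c0cf818020611)))))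
def t94 : k94.all (jb2 57 fl b0) = true := by decide +kernel
noncomputable def k95 : KT := (.br (Nat.shiftLeft (nat_lit 0x3800001) (nat_lit 113)) (.br (Nat.shiftLeft (nat_lit 0x6000005) (nat_lit 112)) (.br (Nat.shiftLeft (nat_lit 0x600000400600700c01) (nat_lit 68)) (.one (nat_lit 0x600000400600700c00f800c0cf81801e611)) (.one (nat_lit 0x600000400600700c010800c0cf818020611))) (.br (Nat.shiftLeft (nat_lit 0x7) (nat_lit 136)) (.one (nat_lit 0x600000500600700c00fa00c0cf81801e611)) (.one (nat_lit 0x700000100600700c00f200c0efc1801e611)))) (.br (Nat.shiftLeft (nat_lit 0x7000003) (nat_lit 112)) (.br (Nat.shiftLeft (nat_lit 0x700000200600700c01) (nat_lit 68)) (.one (nat_lit 0x700000200600700c00f400c0efc1801e611)) (.one (nat_lit 0x700000200600700c010400c0efc18020611))) (.br (Nat.shiftLeft (nat_lit 0x700000300600700c01) (nat_lit 68)) (.one (nat_lit 0x700000300600700c00f600c0efc1801e611)) (.one (nat_lit 0x700000300600700c010600c0efc18020611)))))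
def t95 : k95.all (jb2 57 fl b0) = true := by decide +kernel
noncomputable def k96 : KT := (.br (Nat.shiftLeft (nat_lit 0x800000400600700c01) (nat_lit 68)) (.br (Nat.shiftLeft (nat_lit 0x4000001) (nat_lit 113)) (.br (Nat.shiftLeft (nat_lit 0x7000005) (nat_lit 112)) (.br (Nat.shiftLeft (nat_lit 0x700000400600700c01) (nat_lit 68)) (.one (nat_lit 0x700000400600700c00f800c0efc1801e611)) (.one (nat_lit 0x700000400600700c010800c0efc18020611))) (.br (Nat.shiftLeft (nat_lit 0x1) (nat_lit 139)) (.one (nat_lit 0x700000500600700c00fa00c0efc1801e611)) (.one (nat_lit 0x800000100600700c00f200c11001801e611)))) (.br (Nat.shiftLeft (nat_lit 0x8000003) (nat_lit 112)) (.br (Nat.shiftLeft (nat_lit 0x800000200600700c01) (nat_lit 68)) (.one (nat_lit 0x800000200600700c00f400c11001801e611)) (.one (nat_lit 0x800000200600700c010400c110018020611))) (.br (Nat.shiftLeft (nat_lit 0x800000300600700c01) (nat_lit 68)) (.one (nat_lit 0x800000300600700c00f600c11001801e611)) (.br (Nat.shiftLeft (nat_lit 0x2000001) (nat_lit 114)) (.one (nat_lit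 0x800000300600700c010600c110018020611)) (.one (nat_lit 0x800000400600700c00f800c11001801e611)))))) (.br (Nat.shiftLeft (nat_lit 0x9000003) (nat_lit 112)) (.br (Nat.shiftLeft (nat_lit 0x9) (nat_lit 136)) (.br (Nat.shiftLeft (nat_lit 0x8000005) (nat_lit 112)) (.one (nat_lit 0x800000400600700c010800c110018020611)) (.one (nat_lit 0x800000500600700c00fa00c11001801e611))) (.br (Nat.shiftLeft (nat_lit 0x4800001) (nat_lit 113)) (.one (nat_lit 0x900000100600700c00f200c13041801e611)) (.br (Nat.shiftLeft (nat_lit 0x900000200600700c01) (nat_lit 68)) (.one (nat_lit 0x900000200600700c00f400c13041801e611)) (.one (nat_lit 0x900000200600700c010400c130418020611))))) (.br (Nat.shiftLeft (nat_lit 0x2400001) (nat_lit 114)) (.br (Nat.shiftLeft (nat_lit 0x900000300600700c01) (nat_lit 68)) (.one (nat_lit 0x900000300600700c00f600c13041801e611)) (.one (nat_lit 0x900000300600700c010600c130418020611))) (.br (Nat.shiftLeft (nat_lit 0x900000400600700c01) (nat_lit 68)) (.one (nat_lit 0x900000400600700c00f800c13041801e611)) (.br (Nat.shiftLeft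 (nat_lit 0x9000005) (nat_lit 112)) (.one (nat_lit 0x900000400600700c010800c130418020611)) (.one (nat_lit 0x900000500600700c00fa00c13041801e611)))))))
def t96 : k96.all (jb2 57 fl b0) = true := by decide +kernel
noncomputable def k97 : KT := (.br (Nat.shiftLeft (nat_lit 0xb00000300600700c01) (nat_lit 68)) (.br (Nat.shiftLeft (nat_lit 0xa00000400600700c01) (nat_lit 68)) (.br (Nat.shiftLeft (nat_lit 0xa000003) (nat_lit 112)) (.br (Nat.shiftLeft (nat_lit 0x5000001) (nat_lit 113)) (.one (nat_lit 0xa00000100600700c00f200c15081801e611)) (.br (Nat.shiftLeft (nat_lit 0xa00000200600700c01) (nat_lit 68)) (.one (nat_lit 0xa00000200600700c00f400c15081801e611)) (.one (nat_lit 0xa00000200600700c010400c150818020611)))) (.br (Nat.shiftLeft (nat_lit 0xa00000300600700c01) (nat_lit 68)) (.one (nat_lit 0xa00000300600700c00f600c15081801e611)) (.br (Nat.shiftLeft (nat_lit 0x2800001) (nat_lit 114)) (.one (nat_lit 0xa00000300600700c010600c150818020611)) (.one (nat_lit 0xa00000400600700c00f800c15081801e611))))) (.br (Nat.shiftLeft (nat_lit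 0x5800001) (nat_lit 113)) (.br (Nat.shiftLeft (nat_lit 0xa000005) (nat_lit 112)) (.one (nat_lit 0xa00000400600700c010800c150818020611)) (.br (Nat.shiftLeft (nat_lit 0xb) (nat_lit 136)) (.one (nat_lit 0xa00000500600700c00fa00c15081801e611)) (.one (nat_lit 0xb00000100600700c00f200c170c1801e611)))) (.br (Nat.shiftLeft (nat_lit 0xb00000200600700c01) (nat_lit 68)) (.one (nat_lit 0xb00000200600700c00f400c170c1801e611)) (.br (Nat.shiftLeft (nat_lit 0xb000003) (nat_lit 112)) (.one (nat_lit 0xb00000200600700c010400c170c18020611)) (.one (nat_lit 0xb00000300600700c00f600c170c1801e611)))))) (.br (Nat.shiftLeft (nat_lit 0xc00000200600700c01) (nat_lit 68)) (.br (Nat.shiftLeft (nat_lit 0xb000005) (nat_lit 112)) (.br (Nat.shiftLeft (nat_lit 0x2c00001) (nat_lit 114)) (.one (nat_lit 0xb00000300600700c010600c170c18020611)) (.br (Nat.shiftLeft (nat_lit 0xb00000400600700c01) (nat_lit 68)) (.one (nat_lit 0xb00000400600700c00f800c170c1801e611)) (.one (nat_lit 0xb00000400600700c010800c170c18020611)))) (.br (Nat.shiftLeft (nat_lit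 0x3) (nat_lit 138)) (.one (nat_lit 0xb00000500600700c00fa00c170c1801e611)) (.br (Nat.shiftLeft (nat_lit 0x6000001) (nat_lit 113)) (.one (nat_lit 0xc00000100600700c00f200c19101801e611)) (.one (nat_lit 0xc00000200600700c00f400c19101801e611))))) (.br (Nat.shiftLeft (nat_lit 0x3000001) (nat_lit 114)) (.br (Nat.shiftLeft (nat_lit 0xc000003) (nat_lit 112)) (.one (nat_lit 0xc00000200600700c010400c191018020611)) (.br (Nat.shiftLeft (nat_lit 0xc00000300600700c01) (nat_lit 68)) (.one (nat_lit 0xc00000300600700c00f600c19101801e611)) (.one (nat_lit 0xc00000300600700c010600c191018020611)))) (.br (Nat.shiftLeft (nat_lit 0xc00000400600700c01) (nat_lit 68)) (.one (nat_lit 0xc00000400600700c00f800c19101801e611)) (.br (Nat.shiftLeft (nat_lit 0xc000005) (nat_lit 112)) (.one (nat_lit 0xc00000400600700c010800c191018020611)) (.one (nat_lit 0xc00000500600700c00fa00c19101801e611)))))))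
def t97 : k97.all (jb2 57 fl b0) = true := by decide +kernel
noncomputable def s4 : KT := (.br (nat_lit 0x200300600700c00f600c00e05881e760) (.br (nat_lit 0x500600700c00fa00c00e01801f600) (.br (nat_lit 0x200600700c010400c00e018021600) (.br (nat_lit 0x100600700c010200c00e018020650) k75 k76) (.br (nat_lit 0x300600700c010600c00e018021600) k77 (.br (nat_lit 0x400600700c010800c00e018021600) k78 k79))) (.br (nat_lit 0x100200600700c00f400c00e03841e760) (.br (nat_lit 0x500600700c010a00c00e018020650) k80 (.br (nat_lit 0x100000600700c011000c00e038422511) k81 k82)) (.br (nat_lit 0x100300600700c00f600c00e03841e760) k83 (.br (nat_lit 0x100400600700c010800c00e038420760) k84 k85)))) (.br (nat_lit 0xa00000600700c011000c00e15a822511) (.br (nat_lit 0x300500600700c00fa00c00e078c1e760) (.br (nat_lit 0x200400600700c00f800c00e05881e760) k86 (.br (nat_lit 0x300000600700c011000c00e078c22511) k87 k88)) (.br (nat_lit 0x500000600700c011000c00e0b9422511) k89 (.br (nat_lit 0x700000600700c010000c00e0f9c20511) k90 k91))) (.br (nat_lit 0x600000300600700c010600c0cf818020611)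 (.br (nat_lit 0x400000400600700c010800c08f018020611) k92 (.br (nat_lit 0x500000400600700c010800c0af418020611) k93 k94)) (.br (nat_lit 0x700000300600700c010600c0efc18020611) k95 (.br (nat_lit 0x900000500600700c00fa00c13041801e611) k96 k97)))))
noncomputable def u4 : KT := (.br (Nat.shiftLeft (nat_lit 0x600700c01) (nat_lit 68)) (.one (nat_lit 0x600700c00f000c00e01801e540)) (.br (Nat.shiftLeft (nat_lit 0x600700c011) (nat_lit 64)) (.one (nat_lit 0x600700c010000c00e018020540)) (.one (nat_lit 0x600700c011000c00e018022540))))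
def w4 : u4.all (wj 57 s4) = true := by decide +kernel
def o4 : OkW 57 (jb2 57 fl) u4 := .lift s4 _ (.br _ _ _ (.br _ _ _ (.br _ _ _ (.br _ _ _ (.leaf b0 k75 t75) (.leaf b0 k76 t76)) (.br _ _ _ (.leaf b0 k77 t77) (.br _ _ _ (.leaf b0 k78 t78) (.leaf b0 k79 t79)))) (.br _ _ _ (.br _ _ _ (.leaf b0 k80 t80) (.br _ _ _ (.leaf b0 k81 t81) (.leaf b0 k82 t82))) (.br _ _ _ (.leaf b0 k83 t83) (.br _ _ _ (.leaf b0 k84 t84) (.leaf b0 k85 t85))))) (.br _ _ _ (.br _ _ _ (.br _ _ _ (.leaf b0 k86 t86) (.br _ _ _ (.leaf b0 k87 t87) (.leaf b0 k88 t88))) (.br _ _ _ (.leaf b0 k89 t89) (.br _ _ _ (.leaf b0 k90 t90) (.leaf b0 k91 t91)))) (.br _ _ _ (.br _ _ _ (.leaf b0 k92 t92) (.br _ _ _ (.leaf b0 k93 t93) (.leaf b0 k94 t94))) (.br _ _ _ (.leaf b0 k95 t95) (.br _ _ _ (.leaf b0 k96 t96) (.leaf b0 k97 t97)))))) w4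
noncomputable def k98 : KT := (.br (Nat.shiftLeft (nat_lit 0x600700d00f) (nat_lit 64)) (.br (Nat.shiftLeft (nat_lit 0x600700d) (nat_lit 76)) (.one (nat_lit 0x600700c012000c00e018025500)) (.one (nat_lit 0x600700d00e000c00e01a01d500))) (.br (Nat.shiftLeft (nat_lit 0x1) (nat_lit 112)) (.one (nat_lit 0x600700d00f000c00e01a01f500)) (.br (Nat.shiftLeft (nat_lit 0x100600700d) (nat_lit 76)) (.one (nat_lit 0x100600700c012200c00e018024650)) (.one (nat_lit 0x100600700d00e200c00e01a01d600)))))
def t98 : k98.all (jb2 57 fl b0) = true := by decide +kernel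
noncomputable def k99 : KT := (.one (nat_lit 0x100600700d00f200c00e01a01e650))
def t99 : k99.all (jb2 57 fl b0) = true := by decide +kernel
noncomputable def k100 : KT := (.br (Nat.shiftLeft (nat_lit 0x200600700d) (nat_lit 76)) (.one (nat_lit 0x200600700c012400c00e018024650)) (.br (Nat.shiftLeft (nat_lit 0x200600700d00f) (nat_lit 64)) (.one (nat_lit 0x200600700d00e400c00e01a01d600)) (.one (nat_lit 0x200600700d00f400c00e01a01f600))))
def t100 : k100.all (jb2 57 fl b0) = true := by decide +kernel
noncomputable def k101 : KT := (.br (Nat.shiftLeft (nat_lit 0x300600700d) (nat_lit 76)) (.one (nat_lit 0x300600700c012600c00e018024650)) (.br (Nat.shiftLeft (nat_lit 0x300600700d00f) (nat_lit 64)) (.one (nat_lit 0x300600700d00e600c00e01a01d600)) (.one (nat_lit 0x300600700d00f600c00e01a01f600))))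
def t101 : k101.all (jb2 57 fl b0) = true := by decide +kernel
noncomputable def k102 : KT := (.br (Nat.shiftLeft (nat_lit 0x400600700d00f) (nat_lit 64)) (.br (Nat.shiftLeft (nat_lit 0x400600700d) (nat_lit 76)) (.one (nat_lit 0x400600700c012800c00e018024650)) (.one (nat_lit 0x400600700d00e800c00e01a01d600))) (.br (Nat.shiftLeft (nat_lit 0x5) (nat_lit 112)) (.one (nat_lit 0x400600700d00f800c00e01a01f600)) (.br (Nat.shiftLeft (nat_lit 0x500600700d) (nat_lit 76)) (.one (nat_lit 0x500600700c012a00c00e018024650)) (.one (nat_lit 0x500600700d00ea00c00e01a01d600)))))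
def t102 : k102.all (jb2 57 fl b0) = true := by decide +kernel
noncomputable def k103 : KT := (.br (Nat.shiftLeft (nat_lit 0x100000600700d) (nat_lit 76)) (.br (Nat.shiftLeft (nat_lit 0x1) (nat_lit 124)) (.one (nat_lit 0x500600700d00fa00c00e01a01e650)) (.one (nat_lit 0x100000600700c012000c00e038424511))) (.br (Nat.shiftLeft (nat_lit 0x100000600700d00f) (nat_lit 64)) (.one (nat_lit 0x100000600700d00e000c00e03a41c511)) (.one (nat_lit 0x100000600700d00f000c00e03a41e511))))
def t103 : k103.all (jb2 57 fl b0) = true := by decide +kernel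
noncomputable def k104 : KT := (.one (nat_lit 0x100200600700d00e400c00e03a41c760))
def t104 : k104.all (jb2 57 fl b0) = true := by decide +kernel
noncomputable def k105 : KT := (.br (Nat.shiftLeft (nat_lit 0x1003) (nat_lit 112)) (.one (nat_lit 0x100200600700d00f400c00e03a41e760)) (.one (nat_lit 0x100300600700d00e600c00e03a41c760)))
def t105 : k105.all (jb2 57 fl b0) = true := by decide +kernel
noncomputable def k106 : KT := (.br (Nat.shiftLeft (nat_lit 0x401) (nat_lit 114)) (.one (nat_lit 0x100300600700d00f600c00e03a41e760)) (.br (Nat.shiftLeft (nat_lit 0x100400600700d00f) (nat_lit 64)) (.one (nat_lit 0x100400600700d00e800c00e03a41c760)) (.one (nat_lit 0x100400600700d00f800c00e03a41e760))))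
def t106 : k106.all (jb2 57 fl b0) = true := by decide +kernel
noncomputable def k107 : KT := (.br (Nat.shiftLeft (nat_lit 0x200000600700d) (nat_lit 76)) (.br (Nat.shiftLeft (nat_lit 0x1) (nat_lit 125)) (.one (nat_lit 0x100500600700d00ea00c00e03a41c760)) (.one (nat_lit 0x200000600700c012000c00e058824511))) (.br (Nat.shiftLeft (nat_lit 0x200000600700d00f) (nat_lit 64)) (.one (nat_lit 0x200000600700d00e000c00e05a81c511)) (.br (Nat.shiftLeft (nat_lit 0x1001) (nat_lit 113)) (.one (nat_lit 0x200000600700d00f000c00e05a81e511)) (.one (nat_lit 0x200300600700d00e600c00e05a81c760)))))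
def t107 : k107.all (jb2 57 fl b0) = true := by decide +kernel
noncomputable def k108 : KT := (.br (Nat.shiftLeft (nat_lit 0x801) (nat_lit 114)) (.one (nat_lit 0x200300600700d00f600c00e05a81e760)) (.one (nat_lit 0x200400600700d00e800c00e05a81c760)))
def t108 : k108.all (jb2 57 fl b0) = true := by decide +kernel
noncomputable def k109 : KT := (.br (Nat.shiftLeft (nat_lit 0x3) (nat_lit 124)) (.br (Nat.shiftLeft (nat_lit 0x2005) (nat_lit 112)) (.one (nat_lit 0x200400600700d00f800c00e05a81e760)) (.one (nat_lit 0x200500600700d00ea00c00e05a81c760))) (.br (Nat.shiftLeft (nat_lit 0x300000600700d) (nat_lit 76)) (.one (nat_lit 0x300000600700c012000c00e078c24511)) (.br (Nat.shiftLeft (nat_lit 0x300000600700d00f) (nat_lit 64)) (.one (nat_lit 0x300000600700d00e000c00e07ac1c511)) (.one (nat_lit 0x300000600700d00f000c00e07ac1e511)))))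
def t109 : k109.all (jb2 57 fl b0) = true := by decide +kernel
noncomputable def k110 : KT := (.br (Nat.shiftLeft (nat_lit 0x300400600700d00f) (nat_lit 64)) (.one (nat_lit 0x300400600700d00e800c00e07ac1c760)) (.br (Nat.shiftLeft (nat_lit 0x3005) (nat_lit 112)) (.one (nat_lit 0x300400600700d00f800c00e07ac1e760)) (.one (nat_lit 0x300500600700d00ea00c00e07ac1c760))))
def t110 : k110.all (jb2 57 fl b0) = true := by decide +kernel
noncomputable def k111 : KT := (.br (Nat.shiftLeft (nat_lit 0x5) (nat_lit 124)) (.br (Nat.shiftLeft (nat_lit 0x400000600700d00f) (nat_lit 64)) (.br (Nat.shiftLeft (nat_lit 0x400000600700d) (nat_lit 76)) (.one (nat_lit 0x400000600700c012000c00e099024511)) (.one (nat_lit 0x400000600700d00e000c00e09b01c511))) (.br (Nat.shiftLeft (nat_lit 0x1001) (nat_lit 114)) (.one (nat_lit 0x400000600700d00f000c00e09b01e511)) (.one (nat_lit 0x400500600700d00ea00c00e09b01c760)))) (.br (Nat.shiftLeft (nat_lit 0x500000600700d00f) (nat_lit 64)) (.br (Nat.shiftLeft (nat_lit 0x500000600700d) (nat_lit 76)) (.one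 (nat_lit 0x500000600700c012000c00e0b9424511)) (.one (nat_lit 0x500000600700d00e000c00e0bb41c511))) (.br (Nat.shiftLeft (nat_lit 0x3) (nat_lit 125)) (.one (nat_lit 0x500000600700d00f000c00e0bb41e511)) (.one (nat_lit 0x600000600700c012000c00e0d9824511)))))
def t111 : k111.all (jb2 57 fl b0) = true := by decide +kernel
noncomputable def k112 : KT := (.br (Nat.shiftLeft (nat_lit 0x700000600700d) (nat_lit 76)) (.br (Nat.shiftLeft (nat_lit 0x600000600700d00f) (nat_lit 64)) (.one (nat_lit 0x600000600700d00e000c00e0db81c511)) (.br (Nat.shiftLeft (nat_lit 0x7) (nat_lit 124)) (.one (nat_lit 0x600000600700d00f000c00e0db81e511)) (.one (nat_lit 0x700000600700c012000c00e0f9c24511)))) (.br (Nat.shiftLeft (nat_lit 0x700000600700d00f) (nat_lit 64)) (.one (nat_lit 0x700000600700d00e000c00e0fbc1c511)) (.br (Nat.shiftLeft (nat_lit 0x1) (nat_lit 127)) (.one (nat_lit 0x700000600700d00f000c00e0fbc1e511)) (.one (nat_lit 0x800000600700c012000c00e11a024511)))))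
def t112 : k112.all (jb2 57 fl b0) = true := by decide +kernel
noncomputable def k113 : KT := (.br (Nat.shiftLeft (nat_lit 0x1) (nat_lit 136)) (.br (Nat.shiftLeft (nat_lit 0xb) (nat_lit 124)) (.br (Nat.shiftLeft (nat_lit 0x900000600700d00f) (nat_lit 64)) (.br (Nat.shiftLeft (nat_lit 0x9) (nat_lit 124)) (.br (Nat.shiftLeft (nat_lit 0x800000600700d00f) (nat_lit 64)) (.one (nat_lit 0x800000600700d00e000c00e11c01c511)) (.one (nat_lit 0x800000600700d00f000c00e11c01e511))) (.br (Nat.shiftLeft (nat_lit 0x900000600700d) (nat_lit 76)) (.one (nat_lit 0x900000600700c012000c00e13a424511)) (.one (nat_lit 0x900000600700d00e000c00e13c41c511)))) (.br (Nat.shiftLeft (nat_lit 0xa00000600700d) (nat_lit 76)) (.br (Nat.shiftLeft (nat_lit 0x5) (nat_lit 125)) (.one (nat_lit 0x900000600700d00f000c00e13c41e511)) (.one (nat_lit 0xa00000600700c012000c00e15a824511))) (.br (Nat.shiftLeft (nat_lit 0xa00000600700d00f) (nat_lit 64)) (.one (nat_lit 0xa00000600700d00e000c00e15c81c511)) (.one (nat_lit 0xa00000600700d00f000c00e15c81e511)))))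 (.br (Nat.shiftLeft (nat_lit 0xc00000600700d) (nat_lit 76)) (.br (Nat.shiftLeft (nat_lit 0xb00000600700d00f) (nat_lit 64)) (.br (Nat.shiftLeft (nat_lit 0xb00000600700d) (nat_lit 76)) (.one (nat_lit 0xb00000600700c012000c00e17ac24511)) (.one (nat_lit 0xb00000600700d00e000c00e17cc1c511))) (.br (Nat.shiftLeft (nat_lit 0x3) (nat_lit 126)) (.one (nat_lit 0xb00000600700d00f000c00e17cc1e511)) (.one (nat_lit 0xc00000600700c012000c00e19b024511)))) (.br (Nat.shiftLeft (nat_lit 0xd) (nat_lit 124)) (.br (Nat.shiftLeft (nat_lit 0xc00000600700d00f) (nat_lit 64)) (.one (nat_lit 0xc00000600700d00e000c00e19d01c511)) (.one (nat_lit 0xc00000600700d00f000c00e19d01e511))) (.br (Nat.shiftLeft (nat_lit 0xd00000600700d00f) (nat_lit 64)) (.one (nat_lit 0xd00000600700d00e000c00e1bd41c511)) (.one (nat_lit 0xd00000600700d00f000c00e1bd41e511)))))) (.br (Nat.shiftLeft (nat_lit 0x1) (nat_lit 137)) (.br (Nat.shiftLeft (nat_lit 0x100000300600700d00f) (nat_lit 64)) (.br (Nat.shiftLeft (nat_lit 0x100000200600700d00f) (nat_lit 64)) (.br (Nat.shiftLeft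 (nat_lit 0x800001) (nat_lit 113)) (.one (nat_lit 0x100000100600700d00e200c02e41a01c611)) (.one (nat_lit 0x100000200600700d00e400c02e41a01c611))) (.br (Nat.shiftLeft (nat_lit 0x1000003) (nat_lit 112)) (.one (nat_lit 0x100000200600700d00f400c02e41a01e611)) (.one (nat_lit 0x100000300600700d00e600c02e41a01c611)))) (.br (Nat.shiftLeft (nat_lit 0x100000400600700d00f) (nat_lit 64)) (.br (Nat.shiftLeft (nat_lit 0x400001) (nat_lit 114)) (.one (nat_lit 0x100000300600700d00f600c02e41a01e611)) (.one (nat_lit 0x100000400600700d00e800c02e41a01c611))) (.br (Nat.shiftLeft (nat_lit 0x1000005) (nat_lit 112)) (.one (nat_lit 0x100000400600700d00f800c02e41a01e611)) (.one (nat_lit 0x100000500600700d00ea00c02e41a01c611))))) (.br (Nat.shiftLeft (nat_lit 0x200000300600700d00f) (nat_lit 64)) (.br (Nat.shiftLeft (nat_lit 0x200000200600700d00f) (nat_lit 64)) (.br (Nat.shiftLeft (nat_lit 0x1000001) (nat_lit 113)) (.one (nat_lit 0x200000100600700d00e200c04e81a01c611)) (.one (nat_lit 0x200000200600700d00e400c04e81a01c611))) (.br (Nat.shiftLeft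 (nat_lit 0x2000003) (nat_lit 112)) (.one (nat_lit 0x200000200600700d00f400c04e81a01e611)) (.one (nat_lit 0x200000300600700d00e600c04e81a01c611)))) (.br (Nat.shiftLeft (nat_lit 0x200000400600700d00f) (nat_lit 64)) (.br (Nat.shiftLeft (nat_lit 0x800001) (nat_lit 114)) (.one (nat_lit 0x200000300600700d00f600c04e81a01e611)) (.one (nat_lit 0x200000400600700d00e800c04e81a01c611))) (.br (Nat.shiftLeft (nat_lit 0x2000005) (nat_lit 112)) (.one (nat_lit 0x200000400600700d00f800c04e81a01e611)) (.br (Nat.shiftLeft (nat_lit 0x3) (nat_lit 136)) (.one (nat_lit 0x200000500600700d00ea00c04e81a01c611)) (.one (nat_lit 0x300000100600700d00e200c06ec1a01c611))))))))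
def t113 : k113.all (jb2 57 fl b0) = true := by decide +kernel
noncomputable def k114 : KT := (.br (Nat.shiftLeft (nat_lit 0x2000001) (nat_lit 113)) (.br (Nat.shiftLeft (nat_lit 0xc00001) (nat_lit 114)) (.br (Nat.shiftLeft (nat_lit 0x3000003) (nat_lit 112)) (.br (Nat.shiftLeft (nat_lit 0x300000200600700d00f) (nat_lit 64)) (.one (nat_lit 0x300000200600700d00e400c06ec1a01c611)) (.one (nat_lit 0x300000200600700d00f400c06ec1a01e611))) (.br (Nat.shiftLeft (nat_lit 0x300000300600700d00f) (nat_lit 64)) (.one (nat_lit 0x300000300600700d00e600c06ec1a01c611)) (.one (nat_lit 0x300000300600700d00f600c06ec1a01e611)))) (.br (Nat.shiftLeft (nat_lit 0x3000005) (nat_lit 112)) (.br (Nat.shiftLeft (nat_lit 0x300000400600700d00f) (nat_lit 64)) (.one (nat_lit 0x300000400600700d00e800c06ec1a01c611)) (.one (nat_lit 0x300000400600700d00f800c06ec1a01e611))) (.br (Nat.shiftLeft (nat_lit 0x1) (nat_lit 138)) (.one (nat_lit 0x300000500600700d00ea00c06ec1a01c611)) (.one (nat_lit 0x400000100600700d00e200c08f01a01c611))))) (.br (Nat.shiftLeft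 (nat_lit 0x1000001) (nat_lit 114)) (.br (Nat.shiftLeft (nat_lit 0x4000003) (nat_lit 112)) (.br (Nat.shiftLeft (nat_lit 0x400000200600700d00f) (nat_lit 64)) (.one (nat_lit 0x400000200600700d00e400c08f01a01c611)) (.one (nat_lit 0x400000200600700d00f400c08f01a01e611))) (.br (Nat.shiftLeft (nat_lit 0x400000300600700d00f) (nat_lit 64)) (.one (nat_lit 0x400000300600700d00e600c08f01a01c611)) (.one (nat_lit 0x400000300600700d00f600c08f01a01e611)))) (.br (Nat.shiftLeft (nat_lit 0x4000005) (nat_lit 112)) (.br (Nat.shiftLeft (nat_lit 0x400000400600700d00f) (nat_lit 64)) (.one (nat_lit 0x400000400600700d00e800c08f01a01c611)) (.one (nat_lit 0x400000400600700d00f800c08f01a01e611))) (.br (Nat.shiftLeft (nat_lit 0x5) (nat_lit 136)) (.one (nat_lit 0x400000500600700d00ea00c08f01a01c611)) (.one (nat_lit 0x500000100600700d00e200c0af41a01c611))))))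
def t114 : k114.all (jb2 57 fl b0) = true := by decide +kernel
noncomputable def k115 : KT := (.br (Nat.shiftLeft (nat_lit 0x1400001) (nat_lit 114)) (.br (Nat.shiftLeft (nat_lit 0x5000003) (nat_lit 112)) (.br (Nat.shiftLeft (nat_lit 0x500000200600700d00f) (nat_lit 64)) (.one (nat_lit 0x500000200600700d00e400c0af41a01c611)) (.one (nat_lit 0x500000200600700d00f400c0af41a01e611))) (.br (Nat.shiftLeft (nat_lit 0x500000300600700d00f) (nat_lit 64)) (.one (nat_lit 0x500000300600700d00e600c0af41a01c611)) (.one (nat_lit 0x500000300600700d00f600c0af41a01e611)))) (.br (Nat.shiftLeft (nat_lit 0x5000005) (nat_lit 112)) (.br (Nat.shiftLeft (nat_lit 0x500000400600700d00f) (nat_lit 64)) (.one (nat_lit 0x500000400600700d00e800c0af41a01c611)) (.one (nat_lit 0x500000400600700d00f800c0af41a01e611))) (.br (Nat.shiftLeft (nat_lit 0x3) (nat_lit 137)) (.one (nat_lit 0x500000500600700d00ea00c0af41a01c611)) (.one (nat_lit 0x600000100600700d00e200c0cf81a01c611)))))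
def t115 : k115.all (jb2 57 fl b0) = true := by decide +kernel
noncomputable def k116 : KT := (.br (Nat.shiftLeft (nat_lit 0x1800001) (nat_lit 114)) (.br (Nat.shiftLeft (nat_lit 0x6000003) (nat_lit 112)) (.br (Nat.shiftLeft (nat_lit 0x600000200600700d00f) (nat_lit 64)) (.one (nat_lit 0x600000200600700d00e400c0cf81a01c611)) (.one (nat_lit 0x600000200600700d00f400c0cf81a01e611))) (.br (Nat.shiftLeft (nat_lit 0x600000300600700d00f) (nat_lit 64)) (.one (nat_lit 0x600000300600700d00e600c0cf81a01c611)) (.one (nat_lit 0x600000300600700d00f600c0cf81a01e611)))) (.br (Nat.shiftLeft (nat_lit 0x6000005) (nat_lit 112)) (.br (Nat.shiftLeft (nat_lit 0x600000400600700d00f) (nat_lit 64)) (.one (nat_lit 0x600000400600700d00e800c0cf81a01c611)) (.one (nat_lit 0x600000400600700d00f800c0cf81a01e611))) (.br (Nat.shiftLeft (nat_lit 0x7) (nat_lit 136)) (.one (nat_lit 0x600000500600700d00ea00c0cf81a01c611)) (.one (nat_lit 0x700000100600700d00e200c0efc1a01c611)))))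
def t116 : k116.all (jb2 57 fl b0) = true := by decide +kernel
noncomputable def k117 : KT := (.br (Nat.shiftLeft (nat_lit 0x1) (nat_lit 139)) (.br (Nat.shiftLeft (nat_lit 0x700000300600700d00f) (nat_lit 64)) (.br (Nat.shiftLeft (nat_lit 0x700000200600700d00f) (nat_lit 64)) (.one (nat_lit 0x700000200600700d00e400c0efc1a01c611)) (.br (Nat.shiftLeft (nat_lit 0x7000003) (nat_lit 112)) (.one (nat_lit 0x700000200600700d00f400c0efc1a01e611)) (.one (nat_lit 0x700000300600700d00e600c0efc1a01c611)))) (.br (Nat.shiftLeft (nat_lit 0x700000400600700d00f) (nat_lit 64)) (.br (Nat.shiftLeft (nat_lit 0x1c00001) (nat_lit 114)) (.one (nat_lit 0x700000300600700d00f600c0efc1a01e611)) (.one (nat_lit 0x700000400600700d00e800c0efc1a01c611))) (.br (Nat.shiftLeft (nat_lit 0x7000005) (nat_lit 112)) (.one (nat_lit 0x700000400600700d00f800c0efc1a01e611)) (.one (nat_lit 0x700000500600700d00ea00c0efc1a01c611))))) (.br (Nat.shiftLeft (nat_lit 0x8000003) (nat_lit 112)) (.br (Nat.shiftLeft (nat_lit 0x4000001) (nat_lit 113)) (.one (nat_lit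 0x800000100600700d00e200c11001a01c611)) (.br (Nat.shiftLeft (nat_lit 0x800000200600700d00f) (nat_lit 64)) (.one (nat_lit 0x800000200600700d00e400c11001a01c611)) (.one (nat_lit 0x800000200600700d00f400c11001a01e611)))) (.br (Nat.shiftLeft (nat_lit 0x2000001) (nat_lit 114)) (.br (Nat.shiftLeft (nat_lit 0x800000300600700d00f) (nat_lit 64)) (.one (nat_lit 0x800000300600700d00e600c11001a01c611)) (.one (nat_lit 0x800000300600700d00f600c11001a01e611))) (.br (Nat.shiftLeft (nat_lit 0x800000400600700d00f) (nat_lit 64)) (.one (nat_lit 0x800000400600700d00e800c11001a01c611)) (.one (nat_lit 0x800000400600700d00f800c11001a01e611))))))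
def t117 : k117.all (jb2 57 fl b0) = true := by decide +kernel
noncomputable def k118 : KT := (.br (Nat.shiftLeft (nat_lit 0xb00000200600700d00f) (nat_lit 64)) (.br (Nat.shiftLeft (nat_lit 0x5) (nat_lit 137)) (.br (Nat.shiftLeft (nat_lit 0x9000003) (nat_lit 112)) (.br (Nat.shiftLeft (nat_lit 0x4800001) (nat_lit 113)) (.br (Nat.shiftLeft (nat_lit 0x9) (nat_lit 136)) (.one (nat_lit 0x800000500600700d00ea00c11001a01c611)) (.one (nat_lit 0x900000100600700d00e200c13041a01c611))) (.br (Nat.shiftLeft (nat_lit 0x900000200600700d00f) (nat_lit 64)) (.one (nat_lit 0x900000200600700d00e400c13041a01c611)) (.one (nat_lit 0x900000200600700d00f400c13041a01e611)))) (.br (Nat.shiftLeft (nat_lit 0x2400001) (nat_lit 114)) (.br (Nat.shiftLeft (nat_lit 0x900000300600700d00f) (nat_lit 64)) (.one (nat_lit 0x900000300600700d00e600c13041a01c611)) (.one (nat_lit 0x900000300600700d00f600c13041a01e611))) (.br (Nat.shiftLeft (nat_lit 0x900000400600700d00f) (nat_lit 64)) (.one (nat_lit 0x900000400600700d00e800c13041a01c611)) (.br (Nat.shiftLeft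 (nat_lit 0x9000005) (nat_lit 112)) (.one (nat_lit 0x900000400600700d00f800c13041a01e611)) (.one (nat_lit 0x900000500600700d00ea00c13041a01c611)))))) (.br (Nat.shiftLeft (nat_lit 0x2800001) (nat_lit 114)) (.br (Nat.shiftLeft (nat_lit 0xa00000200600700d00f) (nat_lit 64)) (.br (Nat.shiftLeft (nat_lit 0x5000001) (nat_lit 113)) (.one (nat_lit 0xa00000100600700d00e200c15081a01c611)) (.one (nat_lit 0xa00000200600700d00e400c15081a01c611))) (.br (Nat.shiftLeft (nat_lit 0xa000003) (nat_lit 112)) (.one (nat_lit 0xa00000200600700d00f400c15081a01e611)) (.br (Nat.shiftLeft (nat_lit 0xa00000300600700d00f) (nat_lit 64)) (.one (nat_lit 0xa00000300600700d00e600c15081a01c611)) (.one (nat_lit 0xa00000300600700d00f600c15081a01e611))))) (.br (Nat.shiftLeft (nat_lit 0xa000005) (nat_lit 112)) (.br (Nat.shiftLeft (nat_lit 0xa00000400600700d00f) (nat_lit 64)) (.one (nat_lit 0xa00000400600700d00e800c15081a01c611)) (.one (nat_lit 0xa00000400600700d00f800c15081a01e611))) (.br (Nat.shiftLeft (nat_lit 0xb) (nat_lit 136)) (.one (nat_lit 0xa00000500600700d00ea00c15081a01c611))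 (.br (Nat.shiftLeft (nat_lit 0x5800001) (nat_lit 113)) (.one (nat_lit 0xb00000100600700d00e200c170c1a01c611)) (.one (nat_lit 0xb00000200600700d00e400c170c1a01c611))))))) (.br (Nat.shiftLeft (nat_lit 0xc00000300600700d00f) (nat_lit 64)) (.br (Nat.shiftLeft (nat_lit 0xb000005) (nat_lit 112)) (.br (Nat.shiftLeft (nat_lit 0xb00000300600700d00f) (nat_lit 64)) (.br (Nat.shiftLeft (nat_lit 0xb000003) (nat_lit 112)) (.one (nat_lit 0xb00000200600700d00f400c170c1a01e611)) (.one (nat_lit 0xb00000300600700d00e600c170c1a01c611))) (.br (Nat.shiftLeft (nat_lit 0x2c00001) (nat_lit 114)) (.one (nat_lit 0xb00000300600700d00f600c170c1a01e611)) (.br (Nat.shiftLeft (nat_lit 0xb00000400600700d00f) (nat_lit 64)) (.one (nat_lit 0xb00000400600700d00e800c170c1a01c611)) (.one (nat_lit 0xb00000400600700d00f800c170c1a01e611))))) (.br (Nat.shiftLeft (nat_lit 0x6000001) (nat_lit 113)) (.br (Nat.shiftLeft (nat_lit 0x3) (nat_lit 138)) (.one (nat_lit 0xb00000500600700d00ea00c170c1a01c611)) (.one (nat_lit 0xc00000100600700d00e200c19101a01c611)))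 (.br (Nat.shiftLeft (nat_lit 0xc00000200600700d00f) (nat_lit 64)) (.one (nat_lit 0xc00000200600700d00e400c19101a01c611)) (.br (Nat.shiftLeft (nat_lit 0xc000003) (nat_lit 112)) (.one (nat_lit 0xc00000200600700d00f400c19101a01e611)) (.one (nat_lit 0xc00000300600700d00e600c19101a01c611)))))) (.br (Nat.shiftLeft (nat_lit 0x6800001) (nat_lit 113)) (.br (Nat.shiftLeft (nat_lit 0xc00000400600700d00f) (nat_lit 64)) (.br (Nat.shiftLeft (nat_lit 0x3000001) (nat_lit 114)) (.one (nat_lit 0xc00000300600700d00f600c19101a01e611)) (.one (nat_lit 0xc00000400600700d00e800c19101a01c611))) (.br (Nat.shiftLeft (nat_lit 0xc000005) (nat_lit 112)) (.one (nat_lit 0xc00000400600700d00f800c19101a01e611)) (.br (Nat.shiftLeft (nat_lit 0xd) (nat_lit 136)) (.one (nat_lit 0xc00000500600700d00ea00c19101a01c611)) (.one (nat_lit 0xd00000100600700d00e200c1b141a01c611))))) (.br (Nat.shiftLeft (nat_lit 0xd000003) (nat_lit 112)) (.br (Nat.shiftLeft (nat_lit 0xd00000200600700d00f) (nat_lit 64)) (.one (nat_lit 0xd00000200600700d00e400c1b141a01c611))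 (.one (nat_lit 0xd00000200600700d00f400c1b141a01e611))) (.br (Nat.shiftLeft (nat_lit 0xd00000300600700d00f) (nat_lit 64)) (.one (nat_lit 0xd00000300600700d00e600c1b141a01c611)) (.br (Nat.shiftLeft (nat_lit 0x3400001) (nat_lit 114)) (.one (nat_lit 0xd00000300600700d00f600c1b141a01e611)) (.one (nat_lit 0xd00000400600700d00e800c1b141a01c611))))))))
def t118 : k118.all (jb2 57 fl b0) = true := by decide +kernel
noncomputable def s5 : KT := (.br (nat_lit 0x200300600700d00e600c00e05a81c760) (.br (nat_lit 0x500600700d00ea00c00e01a01d600) (.br (nat_lit 0x100600700d00f200c00e01a01e650) (.br (nat_lit 0x100600700d00e200c00e01a01d600) k98 k99) (.br (nat_lit 0x200600700d00f400c00e01a01f600) k100 (.br (nat_lit 0x300600700d00f600c00e01a01f600) k101 k102))) (.br (nat_lit 0x100200600700d00e400c00e03a41c760) (.br (nat_lit 0x100000600700d00f000c00e03a41e511) k103 k104) (.br (nat_lit 0x100300600700d00e600c00e03a41c760) k105 (.br (nat_lit 0x100400600700d00f800c00e03a41e760) k106 k107)))) (.br (nat_lit 0x800000600700c012000c00e11a024511)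 (.br (nat_lit 0x300000600700d00f000c00e07ac1e511) (.br (nat_lit 0x200400600700d00e800c00e05a81c760) k108 k109) (.br (nat_lit 0x300500600700d00ea00c00e07ac1c760) k110 (.br (nat_lit 0x600000600700c012000c00e0d9824511) k111 k112))) (.br (nat_lit 0x600000100600700d00e200c0cf81a01c611) (.br (nat_lit 0x300000100600700d00e200c06ec1a01c611) k113 (.br (nat_lit 0x500000100600700d00e200c0af41a01c611) k114 k115)) (.br (nat_lit 0x700000100600700d00e200c0efc1a01c611) k116 (.br (nat_lit 0x800000400600700d00f800c11001a01e611) k117 k118)))))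
noncomputable def u5 : KT := (.br (Nat.shiftLeft (nat_lit 0x600700d) (nat_lit 76)) (.one (nat_lit 0x600700c012000c00e018024540)) (.br (Nat.shiftLeft (nat_lit 0x600700d00f) (nat_lit 64)) (.one (nat_lit 0x600700d00e000c00e01a01c540)) (.one (nat_lit 0x600700d00f000c00e01a01e540))))
def w5 : u5.all (wj 57 s5) = true := by decide +kernel
def o5 : OkW 57 (jb2 57 fl) u5 := .lift s5 _ (.br _ _ _ (.br _ _ _ (.br _ _ _ (.br _ _ _ (.leaf b0 k98 t98) (.leaf b0 k99 t99)) (.br _ _ _ (.leaf b0 k100 t100) (.br _ _ _ (.leaf b0 k101 t101) (.leaf b0 k102 t102)))) (.br _ _ _ (.br _ _ _ (.leaf b0 k103 t103) (.leaf b0 k104 t104)) (.br _ _ _ (.leaf b0 k105 t105) (.br _ _ _ (.leaf b0 k106 t106) (.leaf b0 k107 t107))))) (.br _ _ _ (.br _ _ _ (.br _ _ _ (.leaf b0 k108 t108) (.leaf b0 k109 t109)) (.br _ _ _ (.leaf b0 k110 t110) (.br _ _ _ (.leaf b0 k111 t111) (.leaf b0 k112 t112)))) (.br _ _ _ (.br _ _ _ (.leaf b0 k113 t113) (.br _ _ _ (.leaf b0 k114 t114) (.leaf b0 k115 t115))) (.br _ _ _ (.leaf b0 k116 t116) (.br _ _ _ (.leaf b0 k117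 t117) (.leaf b0 k118 t118)))))) w5
noncomputable def k119 : KT := (.br (Nat.shiftLeft (nat_lit 0x600800900b) (nat_lit 64)) (.br (Nat.shiftLeft (nat_lit 0x3003807) (nat_lit 77)) (.br (Nat.shiftLeft (nat_lit 0x600700d011) (nat_lit 64)) (.one (nat_lit 0x600700d010000c00e01a021500)) (.one (nat_lit 0x600700d011000c00e01a023500))) (.br (Nat.shiftLeft (nat_lit 0xc01) (nat_lit 91)) (.one (nat_lit 0x600700e00f000c00e01c01f500)) (.one (nat_lit 0x600800900a000c010012015500)))) (.br (Nat.shiftLeft (nat_lit 0x600800900d) (nat_lit 64)) (.br (Nat.shiftLeft (nat_lit 0x1802002403) (nat_lit 66)) (.one (nat_lit 0x600800900b000c010012017500)) (.one (nat_lit 0x600800900c000c010012019500))) (.br (Nat.shiftLeft (nat_lit 0x3004004807) (nat_lit 65)) (.one (nat_lit 0x600800900d000c01001201b500)) (.br (Nat.shiftLeft (nat_lit 0x1) (nat_lit 112)) (.one (nat_lit 0x600800900e000c01001201d500)) (.one (nat_lit 0x100600700d010200c00e01a020650))))))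
def t119 : k119.all (jb2 57 fl b0) = true := by decide +kernel
noncomputable def k120 : KT := (.one (nat_lit 0x100600700d011200c00e01a022650))
def t120 : k120.all (jb2 57 fl b0) = true := by decide +kernel
noncomputable def k121 : KT := (.one (nat_lit 0x100600700e00f200c00e01c01e650))
def t121 : k121.all (jb2 57 fl b0) = true := by decide +kernel
noncomputable def k122 : KT := (.one (nat_lit 0x200600700d010400c00e01a020650))
def t122 : k122.all (jb2 57 fl b0) = true := by decide +kernel
noncomputable def k123 : KT := (.one (nat_lit 0x200600700d011400c00e01a022650))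
def t123 : k123.all (jb2 57 fl b0) = true := by decide +kernel
noncomputable def k124 : KT := (.one (nat_lit 0x200600700e00f400c00e01c01e650))
def t124 : k124.all (jb2 57 fl b0) = true := by decide +kernel
noncomputable def k125 : KT := (.one (nat_lit 0x300600700d010600c00e01a020650))
def t125 : k125.all (jb2 57 fl b0) = true := by decide +kernel
noncomputable def k126 : KT := (.one (nat_lit 0x300600700d011600c00e01a022650))
def t126 : k126.all (jb2 57 fl b0) = true := by decide +kernel
noncomputable def k127 : KT := (.one (nat_lit 0x300600700e00f600c00e01c01e650))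
def t127 : k127.all (jb2 57 fl b0) = true := by decide +kernel
noncomputable def k128 : KT := (.one (nat_lit 0x400600700d010800c00e01a020650))
def t128 : k128.all (jb2 57 fl b0) = true := by decide +kernel
noncomputable def k129 : KT := (.one (nat_lit 0x400600700d011800c00e01a022650))
def t129 : k129.all (jb2 57 fl b0) = true := by decide +kernel
noncomputable def k130 : KT := (.one (nat_lit 0x400600700e00f800c00e01c01e650))
def t130 : k130.all (jb2 57 fl b0) = true := by decide +kernel
noncomputable def k131 : KT := (.one (nat_lit 0x500600700d010a00c00e01a020650))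
def t131 : k131.all (jb2 57 fl b0) = true := by decide +kernel
noncomputable def k132 : KT := (.one (nat_lit 0x500600700d011a00c00e01a022650))
def t132 : k132.all (jb2 57 fl b0) = true := by decide +kernel
noncomputable def k133 : KT := (.br (Nat.shiftLeft (nat_lit 0x1000003003807) (nat_lit 77)) (.br (Nat.shiftLeft (nat_lit 0x800003003807) (nat_lit 77)) (.br (Nat.shiftLeft (nat_lit 0x1) (nat_lit 124)) (.one (nat_lit 0x500600700e00fa00c00e01c01e650)) (.br (Nat.shiftLeft (nat_lit 0x100000600700d011) (nat_lit 64)) (.one (nat_lit 0x100000600700d010000c00e03a420511)) (.one (nat_lit 0x100000600700d011000c00e03a422511)))) (.br (Nat.shiftLeft (nat_lit 0x1) (nat_lit 125)) (.one (nat_lit 0x100000600700e00f000c00e03c41e511)) (.br (Nat.shiftLeft (nat_lit 0x200000600700d011) (nat_lit 64)) (.one (nat_lit 0x200000600700d010000c00e05a820511)) (.one (nat_lit 0x200000600700d011000c00e05a822511))))) (.br (Nat.shiftLeft (nat_lit 0x1800003003807) (nat_lit 77)) (.br (Nat.shiftLeft (nat_lit 0x3) (nat_lit 124)) (.one (nat_lit 0x200000600700e00f000c00e05c81e511))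 (.br (Nat.shiftLeft (nat_lit 0x300000600700d011) (nat_lit 64)) (.one (nat_lit 0x300000600700d010000c00e07ac20511)) (.one (nat_lit 0x300000600700d011000c00e07ac22511)))) (.br (Nat.shiftLeft (nat_lit 0x400000600700d011) (nat_lit 64)) (.br (Nat.shiftLeft (nat_lit 0x1) (nat_lit 126)) (.one (nat_lit 0x300000600700e00f000c00e07cc1e511)) (.one (nat_lit 0x400000600700d010000c00e09b020511))) (.br (Nat.shiftLeft (nat_lit 0x2000003003807) (nat_lit 77)) (.one (nat_lit 0x400000600700d011000c00e09b022511)) (.one (nat_lit 0x400000600700e00f000c00e09d01e511))))))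
def t133 : k133.all (jb2 57 fl b0) = true := by decide +kernel
noncomputable def k134 : KT := (.br (Nat.shiftLeft (nat_lit 0x600000600700d011) (nat_lit 64)) (.br (Nat.shiftLeft (nat_lit 0x2800003003807) (nat_lit 77)) (.br (Nat.shiftLeft (nat_lit 0x500000600700d011) (nat_lit 64)) (.one (nat_lit 0x500000600700d010000c00e0bb420511)) (.one (nat_lit 0x500000600700d011000c00e0bb422511))) (.br (Nat.shiftLeft (nat_lit 0x3) (nat_lit 125)) (.one (nat_lit 0x500000600700e00f000c00e0bd41e511)) (.one (nat_lit 0x600000600700d010000c00e0db820511)))) (.br (Nat.shiftLeft (nat_lit 0x7) (nat_lit 124)) (.br (Nat.shiftLeft (nat_lit 0x3000003003807) (nat_lit 77)) (.one (nat_lit 0x600000600700d011000c00e0db822511)) (.one (nat_lit 0x600000600700e00f000c00e0dd81e511))) (.br (Nat.shiftLeft (nat_lit 0x700000600700d011) (nat_lit 64)) (.one (nat_lit 0x700000600700d010000c00e0fbc20511)) (.one (nat_lit 0x700000600700d011000c00e0fbc22511)))))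
def t134 : k134.all (jb2 57 fl b0) = true := by decide +kernel
noncomputable def k135 : KT := (.br (Nat.shiftLeft (nat_lit 0xb) (nat_lit 124)) (.br (Nat.shiftLeft (nat_lit 0x900000600700d011) (nat_lit 64)) (.br (Nat.shiftLeft (nat_lit 0x800000600700d011) (nat_lit 64)) (.br (Nat.shiftLeft (nat_lit 0x1) (nat_lit 127)) (.one (nat_lit 0x700000600700e00f000c00e0fdc1e511)) (.one (nat_lit 0x800000600700d010000c00e11c020511))) (.br (Nat.shiftLeft (nat_lit 0x4000003003807) (nat_lit 77)) (.one (nat_lit 0x800000600700d011000c00e11c022511)) (.br (Nat.shiftLeft (nat_lit 0x9) (nat_lit 124)) (.one (nat_lit 0x800000600700e00f000c00e11e01e511)) (.one (nat_lit 0x900000600700d010000c00e13c420511))))) (.br (Nat.shiftLeft (nat_lit 0x5) (nat_lit 125)) (.br (Nat.shiftLeft (nat_lit 0x4800003003807) (nat_lit 77)) (.one (nat_lit 0x900000600700d011000c00e13c422511)) (.one (nat_lit 0x900000600700e00f000c00e13e41e511))) (.br (Nat.shiftLeft (nat_lit 0xa00000600700d011) (nat_lit 64)) (.one (nat_lit 0xa00000600700d010000c00e15c820511)) (.br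 (Nat.shiftLeft (nat_lit 0x5000003003807) (nat_lit 77)) (.one (nat_lit 0xa00000600700d011000c00e15c822511)) (.one (nat_lit 0xa00000600700e00f000c00e15e81e511)))))) (.br (Nat.shiftLeft (nat_lit 0x6000003003807) (nat_lit 77)) (.br (Nat.shiftLeft (nat_lit 0x5800003003807) (nat_lit 77)) (.br (Nat.shiftLeft (nat_lit 0xb00000600700d011) (nat_lit 64)) (.one (nat_lit 0xb00000600700d010000c00e17cc20511)) (.one (nat_lit 0xb00000600700d011000c00e17cc22511))) (.br (Nat.shiftLeft (nat_lit 0x3) (nat_lit 126)) (.one (nat_lit 0xb00000600700e00f000c00e17ec1e511)) (.br (Nat.shiftLeft (nat_lit 0xc00000600700d011) (nat_lit 64)) (.one (nat_lit 0xc00000600700d010000c00e19d020511)) (.one (nat_lit 0xc00000600700d011000c00e19d022511))))) (.br (Nat.shiftLeft (nat_lit 0xd00000600700d011) (nat_lit 64)) (.br (Nat.shiftLeft (nat_lit 0xd) (nat_lit 124)) (.one (nat_lit 0xc00000600700e00f000c00e19f01e511)) (.one (nat_lit 0xd00000600700d010000c00e1bd420511))) (.br (Nat.shiftLeft (nat_lit 0x6800003003807) (nat_lit 77)) (.one (nat_lit 0xd00000600700d011000c00e1bd422511))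 (.br (Nat.shiftLeft (nat_lit 0x7) (nat_lit 125)) (.one (nat_lit 0xd00000600700e00f000c00e1bf41e511)) (.one (nat_lit 0xe00000600700e00f000c00e1df81e511)))))))
def t135 : k135.all (jb2 57 fl b0) = true := by decide +kernel
noncomputable def s6 : KT := (.br (nat_lit 0x300600700d011600c00e01a022650) (.br (nat_lit 0x200600700d010400c00e01a020650) (.br (nat_lit 0x100600700d011200c00e01a022650) (.br (nat_lit 0x100600700d010200c00e01a020650) k119 k120) (.br (nat_lit 0x100600700e00f200c00e01c01e650) k121 k122)) (.br (nat_lit 0x200600700e00f400c00e01c01e650) (.br (nat_lit 0x200600700d011400c00e01a022650) k123 k124) (.br (nat_lit 0x300600700d010600c00e01a020650) k125 k126))) (.br (nat_lit 0x400600700e00f800c00e01c01e650) (.br (nat_lit 0x400600700d010800c00e01a020650) (.br (nat_lit 0x300600700e00f600c00e01c01e650) k127 k128) (.br (nat_lit 0x400600700d011800c00e01a022650) k129 k130)) (.br (nat_lit 0x500600700d011a00c00e01a022650) (.br (nat_lit 0x500600700d010a00c00e01a020650) k131 k132) (.br (nat_lit 0x400000600700e00f000c00e09d01e511)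 k133 (.br (nat_lit 0x700000600700d011000c00e0fbc22511) k134 k135)))))
noncomputable def u6 : KT := (.br (Nat.shiftLeft (nat_lit 0x600800900b) (nat_lit 64)) (.br (Nat.shiftLeft (nat_lit 0x3003807) (nat_lit 77)) (.br (Nat.shiftLeft (nat_lit 0x600700d011) (nat_lit 64)) (.one (nat_lit 0x600700d010000c00e01a020540)) (.one (nat_lit 0x600700d011000c00e01a022540))) (.br (Nat.shiftLeft (nat_lit 0xc01) (nat_lit 91)) (.one (nat_lit 0x600700e00f000c00e01c01e540)) (.one (nat_lit 0x600800900a000c010012015500)))) (.br (Nat.shiftLeft (nat_lit 0x600800900d) (nat_lit 64)) (.br (Nat.shiftLeft (nat_lit 0x1802002403) (nat_lit 66)) (.one (nat_lit 0x600800900b000c010012017500)) (.one (nat_lit 0x600800900c000c010012019500))) (.br (Nat.shiftLeft (nat_lit 0x3004004807) (nat_lit 65)) (.one (nat_lit 0x600800900d000c01001201b500)) (.one (nat_lit 0x600800900e000c01001201d500)))))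
def w6 : u6.all (wj 57 s6) = true := by decide +kernel
def o6 : OkW 57 (jb2 57 fl) u6 := .lift s6 _ (.br _ _ _ (.br _ _ _ (.br _ _ _ (.br _ _ _ (.leaf b0 k119 t119) (.leaf b0 k120 t120)) (.br _ _ _ (.leaf b0 k121 t121) (.leaf b0 k122 t122))) (.br _ _ _ (.br _ _ _ (.leaf b0 k123 t123) (.leaf b0 k124 t124)) (.br _ _ _ (.leaf b0 k125 t125) (.leaf b0 k126 t126)))) (.br _ _ _ (.br _ _ _ (.br _ _ _ (.leaf b0 k127 t127) (.leaf b0 k128 t128)) (.br _ _ _ (.leaf b0 k129 t129) (.leaf b0 k130 t130))) (.br _ _ _ (.br _ _ _ (.leaf b0 k131 t131) (.leaf b0 k132 t132)) (.br _ _ _ (.leaf b0 k133 t133) (.br _ _ _ (.leaf b0 k134 t134) (.leaf b0 k135 t135)))))) w6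
noncomputable def k136 : KT := (.br (Nat.shiftLeft (nat_lit 0x5) (nat_lit 112)) (.br (Nat.shiftLeft (nat_lit 0x1) (nat_lit 113)) (.br (Nat.shiftLeft (nat_lit 0x1) (nat_lit 112)) (.one (nat_lit 0x600800900f000c01001201f500)) (.one (nat_lit 0x100600800900f200c01001201f600))) (.br (Nat.shiftLeft (nat_lit 0x3) (nat_lit 112)) (.one (nat_lit 0x200600800900f400c01001201f600)) (.br (Nat.shiftLeft (nat_lit 0x1) (nat_lit 114)) (.one (nat_lit 0x300600800900f600c01001201f600)) (.one (nat_lit 0x400600800900f800c01001201f600))))) (.br (Nat.shiftLeft (nat_lit 0x801) (nat_lit 113)) (.br (Nat.shiftLeft (nat_lit 0x1) (nat_lit 124)) (.one (nat_lit 0x500600800900fa00c01001201f600)) (.one (nat_lit 0x100000600800900f000c01003241e511))) (.br (Nat.shiftLeft (nat_lit 0x1003) (nat_lit 112)) (.one (nat_lit 0x100200600800900f400c01003241f700)) (.br (Nat.shiftLeft (nat_lit 0x401) (nat_lit 114)) (.one (nat_lit 0x100300600800900f600c01003241f700)) (.one (nat_lit 0x100400600800900f800c01003241e760))))))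
def t136 : k136.all (jb2 57 fl b0) = true := by decide +kernel
noncomputable def k137 : KT := (.br (Nat.shiftLeft (nat_lit 0x1) (nat_lit 125)) (.one (nat_lit 0x100500600800900fa00c01003241e760)) (.br (Nat.shiftLeft (nat_lit 0x1001) (nat_lit 113)) (.one (nat_lit 0x200000600800900f000c01005281e511)) (.one (nat_lit 0x200300600800900f600c01005281f700))))
def t137 : k137.all (jb2 57 fl b0) = true := by decide +kernel
noncomputable def k138 : KT := (.one (nat_lit 0x200400600800900f800c01005281e760))
def t138 : k138.all (jb2 57 fl b0) = true := by decide +kernel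
noncomputable def k139 : KT := (.br (Nat.shiftLeft (nat_lit 0x3) (nat_lit 124)) (.one (nat_lit 0x200500600800900fa00c01005281e760)) (.one (nat_lit 0x300000600800900f000c010072c1e511)))
def t139 : k139.all (jb2 57 fl b0) = true := by decide +kernel
noncomputable def k140 : KT := (.one (nat_lit 0x300400600800900f800c010072c1e760))
def t140 : k140.all (jb2 57 fl b0) = true := by decide +kernel
noncomputable def k141 : KT := (.br (Nat.shiftLeft (nat_lit 0x1) (nat_lit 126)) (.one (nat_lit 0x300500600800900fa00c010072c1e760)) (.one (nat_lit 0x400000600800900f000c01009301e511)))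
def t141 : k141.all (jb2 57 fl b0) = true := by decide +kernel
noncomputable def k142 : KT := (.br (Nat.shiftLeft (nat_lit 0x5) (nat_lit 124)) (.one (nat_lit 0x400500600800900fa00c01009301e760)) (.one (nat_lit 0x500000600800900f000c0100b341e511)))
def t142 : k142.all (jb2 57 fl b0) = true := by decide +kernel
noncomputable def k143 : KT := (.br (Nat.shiftLeft (nat_lit 0x7) (nat_lit 124)) (.one (nat_lit 0x600000600800900f000c0100d381e511)) (.one (nat_lit 0x700000600800900f000c0100f3c1e511)))
def t143 : k143.all (jb2 57 fl b0) = true := by decide +kernel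
noncomputable def k144 : KT := (.br (Nat.shiftLeft (nat_lit 0x800001) (nat_lit 113)) (.br (Nat.shiftLeft (nat_lit 0x9) (nat_lit 124)) (.one (nat_lit 0x800000600800900f000c01011401e511)) (.br (Nat.shiftLeft (nat_lit 0x1) (nat_lit 136)) (.one (nat_lit 0x900000600800900f000c01013441e511)) (.one (nat_lit 0x100000100600800900f200c03041201e611)))) (.br (Nat.shiftLeft (nat_lit 0x400001) (nat_lit 114)) (.br (Nat.shiftLeft (nat_lit 0x1000003) (nat_lit 112)) (.one (nat_lit 0x100000200600800900f400c03041201e611)) (.one (nat_lit 0x100000300600800900f600c03041201e611))) (.br (Nat.shiftLeft (nat_lit 0x1000005) (nat_lit 112)) (.one (nat_lit 0x100000400600800900f800c03041201e611)) (.one (nat_lit 0x100000500600800900fa00c03041201e611)))))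
def t144 : k144.all (jb2 57 fl b0) = true := by decide +kernel
noncomputable def k145 : KT := (.br (Nat.shiftLeft (nat_lit 0x1800001) (nat_lit 113)) (.br (Nat.shiftLeft (nat_lit 0x2000003) (nat_lit 112)) (.br (Nat.shiftLeft (nat_lit 0x1) (nat_lit 137)) (.one (nat_lit 0x100200300600800900f600c03045281e870)) (.br (Nat.shiftLeft (nat_lit 0x1000001) (nat_lit 113)) (.one (nat_lit 0x200000100600800900f200c05081201e611)) (.one (nat_lit 0x200000200600800900f400c05081201e611)))) (.br (Nat.shiftLeft (nat_lit 0x2000005) (nat_lit 112)) (.br (Nat.shiftLeft (nat_lit 0x800001) (nat_lit 114)) (.one (nat_lit 0x200000300600800900f600c05081201e611)) (.one (nat_lit 0x200000400600800900f800c05081201e611))) (.br (Nat.shiftLeft (nat_lit 0x3) (nat_lit 136)) (.one (nat_lit 0x200000500600800900fa00c05081201e611)) (.one (nat_lit 0x300000100600800900f200c070c1201e611))))) (.br (Nat.shiftLeft (nat_lit 0x3000005) (nat_lit 112)) (.br (Nat.shiftLeft (nat_lit 0x3000003) (nat_lit 112)) (.one (nat_lit 0x300000200600800900f400c070c1201e611))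 (.br (Nat.shiftLeft (nat_lit 0xc00001) (nat_lit 114)) (.one (nat_lit 0x300000300600800900f600c070c1201e611)) (.one (nat_lit 0x300000400600800900f800c070c1201e611)))) (.br (Nat.shiftLeft (nat_lit 0x2000001) (nat_lit 113)) (.br (Nat.shiftLeft (nat_lit 0x1) (nat_lit 138)) (.one (nat_lit 0x300000500600800900fa00c070c1201e611)) (.one (nat_lit 0x400000100600800900f200c09101201e611))) (.br (Nat.shiftLeft (nat_lit 0x4000003) (nat_lit 112)) (.one (nat_lit 0x400000200600800900f400c09101201e611)) (.one (nat_lit 0x400000300600800900f600c09101201e611))))))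
def t145 : k145.all (jb2 57 fl b0) = true := by decide +kernel
noncomputable def k146 : KT := (.br (Nat.shiftLeft (nat_lit 0x5) (nat_lit 136)) (.br (Nat.shiftLeft (nat_lit 0x4000005) (nat_lit 112)) (.one (nat_lit 0x400000400600800900f800c09101201e611)) (.one (nat_lit 0x400000500600800900fa00c09101201e611))) (.br (Nat.shiftLeft (nat_lit 0x2800001) (nat_lit 113)) (.one (nat_lit 0x500000100600800900f200c0b141201e611)) (.one (nat_lit 0x500000200600800900f400c0b141201e611))))
def t146 : k146.all (jb2 57 fl b0) = true := by decide +kernel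
noncomputable def k147 : KT := (.br (Nat.shiftLeft (nat_lit 0x1400001) (nat_lit 114)) (.one (nat_lit 0x500000300600800900f600c0b141201e611)) (.br (Nat.shiftLeft (nat_lit 0x5000005) (nat_lit 112)) (.one (nat_lit 0x500000400600800900f800c0b141201e611)) (.one (nat_lit 0x500000500600800900fa00c0b141201e611))))
def t147 : k147.all (jb2 57 fl b0) = true := by decide +kernel
noncomputable def k148 : KT := (.br (Nat.shiftLeft (nat_lit 0x3000001) (nat_lit 113)) (.one (nat_lit 0x600000100600800900f200c0d181201e611)) (.one (nat_lit 0x600000200600800900f400c0d181201e611)))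
def t148 : k148.all (jb2 57 fl b0) = true := by decide +kernel
noncomputable def k149 : KT := (.br (Nat.shiftLeft (nat_lit 0x1800001) (nat_lit 114)) (.one (nat_lit 0x600000300600800900f600c0d181201e611)) (.br (Nat.shiftLeft (nat_lit 0x6000005) (nat_lit 112)) (.one (nat_lit 0x600000400600800900f800c0d181201e611)) (.one (nat_lit 0x600000500600800900fa00c0d181201e611))))
def t149 : k149.all (jb2 57 fl b0) = true := by decide +kernel
noncomputable def k150 : KT := (.br (Nat.shiftLeft (nat_lit 0x3800001) (nat_lit 113)) (.one (nat_lit 0x700000100600800900f200c0f1c1201e611)) (.one (nat_lit 0x700000200600800900f400c0f1c1201e611)))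
def t150 : k150.all (jb2 57 fl b0) = true := by decide +kernel
noncomputable def k151 : KT := (.br (Nat.shiftLeft (nat_lit 0x7000005) (nat_lit 112)) (.br (Nat.shiftLeft (nat_lit 0x1c00001) (nat_lit 114)) (.one (nat_lit 0x700000300600800900f600c0f1c1201e611)) (.one (nat_lit 0x700000400600800900f800c0f1c1201e611))) (.br (Nat.shiftLeft (nat_lit 0x1) (nat_lit 139)) (.one (nat_lit 0x700000500600800900fa00c0f1c1201e611)) (.one (nat_lit 0x800000100600800900f200c11201201e611))))
def t151 : k151.all (jb2 57 fl b0) = true := by decide +kernel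
noncomputable def k152 : KT := (.br (Nat.shiftLeft (nat_lit 0x2000001) (nat_lit 114)) (.br (Nat.shiftLeft (nat_lit 0x8000003) (nat_lit 112)) (.one (nat_lit 0x800000200600800900f400c11201201e611)) (.one (nat_lit 0x800000300600800900f600c11201201e611))) (.br (Nat.shiftLeft (nat_lit 0x8000005) (nat_lit 112)) (.one (nat_lit 0x800000400600800900f800c11201201e611)) (.br (Nat.shiftLeft (nat_lit 0x9) (nat_lit 136)) (.one (nat_lit 0x800000500600800900fa00c11201201e611)) (.one (nat_lit 0x900000100600800900f200c13241201e611)))))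
def t152 : k152.all (jb2 57 fl b0) = true := by decide +kernel
noncomputable def k153 : KT := (.br (Nat.shiftLeft (nat_lit 0x2000001003) (nat_lit 112)) (.br (Nat.shiftLeft (nat_lit 0x1) (nat_lit 148)) (.br (Nat.shiftLeft (nat_lit 0x2400001) (nat_lit 114)) (.br (Nat.shiftLeft (nat_lit 0x9000003) (nat_lit 112)) (.one (nat_lit 0x900000200600800900f400c13241201e611)) (.one (nat_lit 0x900000300600800900f600c13241201e611))) (.br (Nat.shiftLeft (nat_lit 0x9000005) (nat_lit 112)) (.one (nat_lit 0x900000400600800900f800c13241201e611)) (.one (nat_lit 0x900000500600800900fa00c13241201e611)))) (.br (Nat.shiftLeft (nat_lit 0x800001) (nat_lit 125)) (.br (Nat.shiftLeft (nat_lit 0x1000001003) (nat_lit 112)) (.one (nat_lit 0x100000100200600800900f402c41003241e711)) (.one (nat_lit 0x100000100300600800900f602c41003241e711))) (.br (Nat.shiftLeft (nat_lit 0x1) (nat_lit 149)) (.one (nat_lit 0x100000200300600800900f602c41005281e711)) (.one (nat_lit 0x200000100200600800900f404c81003241e711))))) (.br (Nat.shiftLeft (nat_lit 0x1800001)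 (nat_lit 125)) (.br (Nat.shiftLeft (nat_lit 0x3) (nat_lit 148)) (.br (Nat.shiftLeft (nat_lit 0x1000001) (nat_lit 125)) (.one (nat_lit 0x200000100300600800900f604c81003241e711)) (.one (nat_lit 0x200000200300600800900f604c81005281e711))) (.br (Nat.shiftLeft (nat_lit 0x3000001003) (nat_lit 112)) (.one (nat_lit 0x300000100200600800900f406cc1003241e711)) (.one (nat_lit 0x300000100300600800900f606cc1003241e711)))) (.br (Nat.shiftLeft (nat_lit 0x4000001003) (nat_lit 112)) (.br (Nat.shiftLeft (nat_lit 0x1) (nat_lit 150)) (.one (nat_lit 0x300000200300600800900f606cc1005281e711)) (.one (nat_lit 0x400000100200600800900f408d01003241e711))) (.br (Nat.shiftLeft (nat_lit 0x2000001) (nat_lit 125)) (.one (nat_lit 0x400000100300600800900f608d01003241e711)) (.one (nat_lit 0x400000200300600800900f608d01005281e711))))))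
def t153 : k153.all (jb2 57 fl b0) = true := by decide +kernel
noncomputable def k154 : KT := (.br (Nat.shiftLeft (nat_lit 0x5000001003) (nat_lit 112)) (.one (nat_lit 0x500000100200600800900f40ad41003241e711)) (.br (Nat.shiftLeft (nat_lit 0x2800001) (nat_lit 125)) (.one (nat_lit 0x500000100300600800900f60ad41003241e711)) (.one (nat_lit 0x500000200300600800900f60ad41005281e711))))
def t154 : k154.all (jb2 57 fl b0) = true := by decide +kernel
noncomputable def k155 : KT := (.br (Nat.shiftLeft (nat_lit 0x3000001) (nat_lit 125)) (.br (Nat.shiftLeft (nat_lit 0x6000001003) (nat_lit 112)) (.one (nat_lit 0x600000100200600800900f40cd81003241e711)) (.one (nat_lit 0x600000100300600800900f60cd81003241e711))) (.br (Nat.shiftLeft (nat_lit 0x7) (nat_lit 148)) (.one (nat_lit 0x600000200300600800900f60cd81005281e711)) (.one (nat_lit 0x700000100200600800900f40edc1003241e711))))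
def t155 : k155.all (jb2 57 fl b0) = true := by decide +kernel
noncomputable def k156 : KT := (.br (Nat.shiftLeft (nat_lit 0x4000001) (nat_lit 125)) (.br (Nat.shiftLeft (nat_lit 0x1) (nat_lit 151)) (.br (Nat.shiftLeft (nat_lit 0x3800001) (nat_lit 125)) (.one (nat_lit 0x700000100300600800900f60edc1003241e711)) (.one (nat_lit 0x700000200300600800900f60edc1005281e711))) (.br (Nat.shiftLeft (nat_lit 0x8000001003) (nat_lit 112)) (.one (nat_lit 0x800000100200600800900f410e01003241e711)) (.one (nat_lit 0x800000100300600800900f610e01003241e711)))) (.br (Nat.shiftLeft (nat_lit 0x9000001003) (nat_lit 112)) (.br (Nat.shiftLeft (nat_lit 0x9) (nat_lit 148)) (.one (nat_lit 0x800000200300600800900f610e01005281e711)) (.one (nat_lit 0x900000100200600800900f412e41003241e711))) (.br (Nat.shiftLeft (nat_lit 0x4800001) (nat_lit 125)) (.one (nat_lit 0x900000100300600800900f612e41003241e711)) (.one (nat_lit 0x900000200300600800900f612e41005281e711)))))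
def t156 : k156.all (jb2 57 fl b0) = true := by decide +kernel
noncomputable def s7 : KT := (.br (nat_lit 0x400000300600800900f600c09101201e611) (.br (nat_lit 0x300400600800900f800c010072c1e760) (.br (nat_lit 0x200300600800900f600c01005281f700) (.br (nat_lit 0x100400600800900f800c01003241e760) k136 k137) (.br (nat_lit 0x200400600800900f800c01005281e760) k138 (.br (nat_lit 0x300000600800900f000c010072c1e511) k139 k140))) (.br (nat_lit 0x500000600800900f000c0100b341e511) (.br (nat_lit 0x400000600800900f000c01009301e511) k141 k142) (.br (nat_lit 0x700000600800900f000c0100f3c1e511) k143 (.br (nat_lit 0x100000500600800900fa00c03041201e611) k144 k145)))) (.br (nat_lit 0x700000200600800900f400c0f1c1201e611) (.br (nat_lit 0x500000500600800900fa00c0b141201e611) (.br (nat_lit 0x500000200600800900f400c0b141201e611) k146 k147) (.br (nat_lit 0x600000200600800900f400c0d181201e611) k148 (.br (nat_lit 0x600000500600800900fa00c0d181201e611) k149 k150))) (.br (nat_lit 0x400000200300600800900f608d01005281e711) (.br (nat_lit 0x800000100600800900f200c11201201e611)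 k151 (.br (nat_lit 0x900000100600800900f200c13241201e611) k152 k153)) (.br (nat_lit 0x500000200300600800900f60ad41005281e711) k154 (.br (nat_lit 0x700000100200600800900f40edc1003241e711) k155 k156)))))
noncomputable def u7 : KT := (.one (nat_lit 0x600800900f000c01001201e540))
def w7 : u7.all (wj 57 s7) = true := by decide +kernel
def o7 : OkW 57 (jb2 57 fl) u7 := .lift s7 _ (.br _ _ _ (.br _ _ _ (.br _ _ _ (.br _ _ _ (.leaf b0 k136 t136) (.leaf b0 k137 t137)) (.br _ _ _ (.leaf b0 k138 t138) (.br _ _ _ (.leaf b0 k139 t139) (.leaf b0 k140 t140)))) (.br _ _ _ (.br _ _ _ (.leaf b0 k141 t141) (.leaf b0 k142 t142)) (.br _ _ _ (.leaf b0 k143 t143) (.br _ _ _ (.leaf b0 k144 t144) (.leaf b0 k145 t145))))) (.br _ _ _ (.br _ _ _ (.br _ _ _ (.leaf b0 k146 t146) (.leaf b0 k147 t147)) (.br _ _ _ (.leaf b0 k148 t148) (.br _ _ _ (.leaf b0 k149 t149) (.leaf b0 k150 t150)))) (.br _ _ _ (.br _ _ _ (.leaf b0 k151 t151) (.br _ _ _ (.leaf b0 k152 t152) (.leaf b0 k153 t153))) (.br _ _ _ (.leaf b0 k154 t154) (.br _ _ _ (.leaf b0 k155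 t155) (.leaf b0 k156 t156)))))) w7
noncomputable def k157 : KT := (.br (Nat.shiftLeft (nat_lit 0x3006008009011) (nat_lit 64)) (.br (Nat.shiftLeft (nat_lit 0x1006008009011) (nat_lit 64)) (.br (Nat.shiftLeft (nat_lit 0x6008009011) (nat_lit 64)) (.one (nat_lit 0x6008009010000c010012021500)) (.br (Nat.shiftLeft (nat_lit 0x1) (nat_lit 112)) (.one (nat_lit 0x6008009011000c010012023500)) (.one (nat_lit 0x1006008009010200c010012021600)))) (.br (Nat.shiftLeft (nat_lit 0x2006008009011) (nat_lit 64)) (.br (Nat.shiftLeft (nat_lit 0x1) (nat_lit 113)) (.one (nat_lit 0x1006008009011200c010012023600)) (.one (nat_lit 0x2006008009010400c010012021600))) (.br (Nat.shiftLeft (nat_lit 0x3) (nat_lit 112)) (.one (nat_lit 0x2006008009011400c010012023600)) (.one (nat_lit 0x3006008009010600c010012021600))))) (.br (Nat.shiftLeft (nat_lit 0x5006008009011) (nat_lit 64)) (.br (Nat.shiftLeft (nat_lit 0x4006008009011) (nat_lit 64)) (.br (Nat.shiftLeft (nat_lit 0x1) (nat_lit 114)) (.one (nat_lit 0x3006008009011600c010012023600)) (.one (nat_lit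 0x4006008009010800c010012021600))) (.br (Nat.shiftLeft (nat_lit 0x5) (nat_lit 112)) (.one (nat_lit 0x4006008009011800c010012023600)) (.one (nat_lit 0x5006008009010a00c010012021600)))) (.br (Nat.shiftLeft (nat_lit 0x1000006008009011) (nat_lit 64)) (.br (Nat.shiftLeft (nat_lit 0x1) (nat_lit 124)) (.one (nat_lit 0x5006008009011a00c010012023600)) (.one (nat_lit 0x1000006008009010000c010032420511))) (.br (Nat.shiftLeft (nat_lit 0x801) (nat_lit 113)) (.one (nat_lit 0x1000006008009011000c010032422511)) (.one (nat_lit 0x1002006008009010400c010032420760))))))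
def t157 : k157.all (jb2 57 fl b0) = true := by decide +kernel
noncomputable def k158 : KT := (.one (nat_lit 0x1002006008009011400c010032422760))
def t158 : k158.all (jb2 57 fl b0) = true := by decide +kernel
noncomputable def k159 : KT := (.one (nat_lit 0x1003006008009010600c010032420760))
def t159 : k159.all (jb2 57 fl b0) = true := by decide +kernel
noncomputable def k160 : KT := (.br (Nat.shiftLeft (nat_lit 0x401) (nat_lit 114)) (.one (nat_lit 0x1003006008009011600c010032422760)) (.one (nat_lit 0x1004006008009010800c010032420760)))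
def t160 : k160.all (jb2 57 fl b0) = true := by decide +kernel
noncomputable def k161 : KT := (.br (Nat.shiftLeft (nat_lit 0x1005006008009011) (nat_lit 64)) (.br (Nat.shiftLeft (nat_lit 0x1005) (nat_lit 112)) (.one (nat_lit 0x1004006008009011800c010032422760)) (.one (nat_lit 0x1005006008009010a00c010032420760))) (.br (Nat.shiftLeft (nat_lit 0x1) (nat_lit 125)) (.one (nat_lit 0x1005006008009011a00c010032422760)) (.br (Nat.shiftLeft (nat_lit 0x2000006008009011) (nat_lit 64)) (.one (nat_lit 0x2000006008009010000c010052820511)) (.one (nat_lit 0x2000006008009011000c010052822511)))))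
def t161 : k161.all (jb2 57 fl b0) = true := by decide +kernel
noncomputable def k162 : KT := (.one (nat_lit 0x2003006008009010600c010052820760))
def t162 : k162.all (jb2 57 fl b0) = true := by decide +kernel
noncomputable def k163 : KT := (.one (nat_lit 0x2003006008009011600c010052822760))
def t163 : k163.all (jb2 57 fl b0) = true := by decide +kernel
noncomputable def k164 : KT := (.one (nat_lit 0x2004006008009010800c010052820760))
def t164 : k164.all (jb2 57 fl b0) = true := by decide +kernel
noncomputable def k165 : KT := (.br (Nat.shiftLeft (nat_lit 0x2005) (nat_lit 112)) (.one (nat_lit 0x2004006008009011800c010052822760)) (.one (nat_lit 0x2005006008009010a00c010052820760)))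
def t165 : k165.all (jb2 57 fl b0) = true := by decide +kernel
noncomputable def k166 : KT := (.br (Nat.shiftLeft (nat_lit 0x3000006008009011) (nat_lit 64)) (.br (Nat.shiftLeft (nat_lit 0x3) (nat_lit 124)) (.one (nat_lit 0x2005006008009011a00c010052822760)) (.one (nat_lit 0x3000006008009010000c010072c20511))) (.br (Nat.shiftLeft (nat_lit 0xc01) (nat_lit 114)) (.one (nat_lit 0x3000006008009011000c010072c22511)) (.one (nat_lit 0x3004006008009010800c010072c20760))))
def t166 : k166.all (jb2 57 fl b0) = true := by decide +kernel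
noncomputable def k167 : KT := (.br (Nat.shiftLeft (nat_lit 0x3005) (nat_lit 112)) (.one (nat_lit 0x3004006008009011800c010072c22760)) (.one (nat_lit 0x3005006008009010a00c010072c20760)))
def t167 : k167.all (jb2 57 fl b0) = true := by decide +kernel
noncomputable def k168 : KT := (.br (Nat.shiftLeft (nat_lit 0x4000006008009011) (nat_lit 64)) (.br (Nat.shiftLeft (nat_lit 0x1) (nat_lit 126)) (.one (nat_lit 0x3005006008009011a00c010072c22760)) (.one (nat_lit 0x4000006008009010000c010093020511))) (.br (Nat.shiftLeft (nat_lit 0x1001) (nat_lit 114)) (.one (nat_lit 0x4000006008009011000c010093022511)) (.one (nat_lit 0x4005006008009010a00c010093020760))))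
def t168 : k168.all (jb2 57 fl b0) = true := by decide +kernel
noncomputable def k169 : KT := (.br (Nat.shiftLeft (nat_lit 0x5000006008009011) (nat_lit 64)) (.br (Nat.shiftLeft (nat_lit 0x5) (nat_lit 124)) (.one (nat_lit 0x4005006008009011a00c010093022760)) (.one (nat_lit 0x5000006008009010000c0100b3420511))) (.br (Nat.shiftLeft (nat_lit 0x3) (nat_lit 125)) (.one (nat_lit 0x5000006008009011000c0100b3422511)) (.one (nat_lit 0x6000006008009010000c0100d3820511))))
def t169 : k169.all (jb2 57 fl b0) = true := by decide +kernel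
noncomputable def k170 : KT := (.br (Nat.shiftLeft (nat_lit 0x7) (nat_lit 124)) (.one (nat_lit 0x6000006008009011000c0100d3822511)) (.br (Nat.shiftLeft (nat_lit 0x7000006008009011) (nat_lit 64)) (.one (nat_lit 0x7000006008009010000c0100f3c20511)) (.one (nat_lit 0x7000006008009011000c0100f3c22511))))
def t170 : k170.all (jb2 57 fl b0) = true := by decide +kernel
noncomputable def k171 : KT := (.br (Nat.shiftLeft (nat_lit 0x2000001006008009011) (nat_lit 64)) (.br (Nat.shiftLeft (nat_lit 0x1000002006008009011) (nat_lit 64)) (.br (Nat.shiftLeft (nat_lit 0x9000006008009011) (nat_lit 64)) (.br (Nat.shiftLeft (nat_lit 0x8000006008009011) (nat_lit 64)) (.one (nat_lit 0x8000006008009010000c010114020511)) (.br (Nat.shiftLeft (nat_lit 0x9) (nat_lit 124)) (.one (nat_lit 0x8000006008009011000c010114022511)) (.one (nat_lit 0x9000006008009010000c010134420511)))) (.br (Nat.shiftLeft (nat_lit 0x1000001006008009011) (nat_lit 64)) (.br (Nat.shiftLeft (nat_lit 0x1) (nat_lit 136)) (.one (nat_lit 0x9000006008009011000c010134422511))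 (.one (nat_lit 0x1000001006008009010200c030412020611))) (.br (Nat.shiftLeft (nat_lit 0x800001) (nat_lit 113)) (.one (nat_lit 0x1000001006008009011200c030412022611)) (.one (nat_lit 0x1000002006008009010400c030412020611))))) (.br (Nat.shiftLeft (nat_lit 0x1000004006008009011) (nat_lit 64)) (.br (Nat.shiftLeft (nat_lit 0x1000003006008009011) (nat_lit 64)) (.br (Nat.shiftLeft (nat_lit 0x1000003) (nat_lit 112)) (.one (nat_lit 0x1000002006008009011400c030412022611)) (.one (nat_lit 0x1000003006008009010600c030412020611))) (.br (Nat.shiftLeft (nat_lit 0x400001) (nat_lit 114)) (.one (nat_lit 0x1000003006008009011600c030412022611)) (.one (nat_lit 0x1000004006008009010800c030412020611)))) (.br (Nat.shiftLeft (nat_lit 0x1000005006008009011) (nat_lit 64)) (.br (Nat.shiftLeft (nat_lit 0x1000005) (nat_lit 112)) (.one (nat_lit 0x1000004006008009011800c030412022611)) (.one (nat_lit 0x1000005006008009010a00c030412020611))) (.br (Nat.shiftLeft (nat_lit 0x1) (nat_lit 137)) (.one (nat_lit 0x1000005006008009011a00c030412022611))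 (.one (nat_lit 0x2000001006008009010200c050812020611)))))) (.br (Nat.shiftLeft (nat_lit 0x2000005006008009011) (nat_lit 64)) (.br (Nat.shiftLeft (nat_lit 0x2000003006008009011) (nat_lit 64)) (.br (Nat.shiftLeft (nat_lit 0x2000002006008009011) (nat_lit 64)) (.br (Nat.shiftLeft (nat_lit 0x1000001) (nat_lit 113)) (.one (nat_lit 0x2000001006008009011200c050812022611)) (.one (nat_lit 0x2000002006008009010400c050812020611))) (.br (Nat.shiftLeft (nat_lit 0x2000003) (nat_lit 112)) (.one (nat_lit 0x2000002006008009011400c050812022611)) (.one (nat_lit 0x2000003006008009010600c050812020611)))) (.br (Nat.shiftLeft (nat_lit 0x2000004006008009011) (nat_lit 64)) (.br (Nat.shiftLeft (nat_lit 0x800001) (nat_lit 114)) (.one (nat_lit 0x2000003006008009011600c050812022611)) (.one (nat_lit 0x2000004006008009010800c050812020611))) (.br (Nat.shiftLeft (nat_lit 0x2000005) (nat_lit 112)) (.one (nat_lit 0x2000004006008009011800c050812022611)) (.one (nat_lit 0x2000005006008009010a00c050812020611))))) (.br (Nat.shiftLeft (nat_lit 0x3000002006008009011)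 (nat_lit 64)) (.br (Nat.shiftLeft (nat_lit 0x3000001006008009011) (nat_lit 64)) (.br (Nat.shiftLeft (nat_lit 0x3) (nat_lit 136)) (.one (nat_lit 0x2000005006008009011a00c050812022611)) (.one (nat_lit 0x3000001006008009010200c070c12020611))) (.br (Nat.shiftLeft (nat_lit 0x1800001) (nat_lit 113)) (.one (nat_lit 0x3000001006008009011200c070c12022611)) (.one (nat_lit 0x3000002006008009010400c070c12020611)))) (.br (Nat.shiftLeft (nat_lit 0x3000003006008009011) (nat_lit 64)) (.br (Nat.shiftLeft (nat_lit 0x3000003) (nat_lit 112)) (.one (nat_lit 0x3000002006008009011400c070c12022611)) (.one (nat_lit 0x3000003006008009010600c070c12020611))) (.br (Nat.shiftLeft (nat_lit 0xc00001) (nat_lit 114)) (.one (nat_lit 0x3000003006008009011600c070c12022611)) (.one (nat_lit 0x3000004006008009010800c070c12020611)))))))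
def t171 : k171.all (jb2 57 fl b0) = true := by decide +kernel
noncomputable def k172 : KT := (.br (Nat.shiftLeft (nat_lit 0x4000002006008009011) (nat_lit 64)) (.br (Nat.shiftLeft (nat_lit 0x1) (nat_lit 138)) (.br (Nat.shiftLeft (nat_lit 0x3000005) (nat_lit 112)) (.one (nat_lit 0x3000004006008009011800c070c12022611)) (.br (Nat.shiftLeft (nat_lit 0x3000005006008009011) (nat_lit 64)) (.one (nat_lit 0x3000005006008009010a00c070c12020611)) (.one (nat_lit 0x3000005006008009011a00c070c12022611)))) (.br (Nat.shiftLeft (nat_lit 0x4000001006008009011) (nat_lit 64)) (.one (nat_lit 0x4000001006008009010200c091012020611)) (.br (Nat.shiftLeft (nat_lit 0x2000001) (nat_lit 113)) (.one (nat_lit 0x4000001006008009011200c091012022611)) (.one (nat_lit 0x4000002006008009010400c091012020611))))) (.br (Nat.shiftLeft (nat_lit 0x1000001) (nat_lit 114)) (.br (Nat.shiftLeft (nat_lit 0x4000003) (nat_lit 112)) (.one (nat_lit 0x4000002006008009011400c091012022611)) (.br (Nat.shiftLeft (nat_lit 0x4000003006008009011) (nat_lit 64)) (.one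 (nat_lit 0x4000003006008009010600c091012020611)) (.one (nat_lit 0x4000003006008009011600c091012022611)))) (.br (Nat.shiftLeft (nat_lit 0x4000005) (nat_lit 112)) (.br (Nat.shiftLeft (nat_lit 0x4000004006008009011) (nat_lit 64)) (.one (nat_lit 0x4000004006008009010800c091012020611)) (.one (nat_lit 0x4000004006008009011800c091012022611))) (.br (Nat.shiftLeft (nat_lit 0x4000005006008009011) (nat_lit 64)) (.one (nat_lit 0x4000005006008009010a00c091012020611)) (.one (nat_lit 0x4000005006008009011a00c091012022611))))))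
def t172 : k172.all (jb2 57 fl b0) = true := by decide +kernel
noncomputable def k173 : KT := (.br (Nat.shiftLeft (nat_lit 0x2800001) (nat_lit 113)) (.br (Nat.shiftLeft (nat_lit 0x5000001006008009011) (nat_lit 64)) (.one (nat_lit 0x5000001006008009010200c0b1412020611)) (.one (nat_lit 0x5000001006008009011200c0b1412022611))) (.br (Nat.shiftLeft (nat_lit 0x5000002006008009011) (nat_lit 64)) (.one (nat_lit 0x5000002006008009010400c0b1412020611)) (.one (nat_lit 0x5000002006008009011400c0b1412022611))))
def t173 : k173.all (jb2 57 fl b0) = true := by decide +kernel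
noncomputable def k174 : KT := (.br (Nat.shiftLeft (nat_lit 0x5000004006008009011) (nat_lit 64)) (.br (Nat.shiftLeft (nat_lit 0x5000003006008009011) (nat_lit 64)) (.one (nat_lit 0x5000003006008009010600c0b1412020611)) (.br (Nat.shiftLeft (nat_lit 0x1400001) (nat_lit 114)) (.one (nat_lit 0x5000003006008009011600c0b1412022611)) (.one (nat_lit 0x5000004006008009010800c0b1412020611)))) (.br (Nat.shiftLeft (nat_lit 0x5000005) (nat_lit 112)) (.one (nat_lit 0x5000004006008009011800c0b1412022611)) (.br (Nat.shiftLeft (nat_lit 0x5000005006008009011) (nat_lit 64)) (.one (nat_lit 0x5000005006008009010a00c0b1412020611)) (.one (nat_lit 0x5000005006008009011a00c0b1412022611)))))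
def t174 : k174.all (jb2 57 fl b0) = true := by decide +kernel
noncomputable def k175 : KT := (.br (Nat.shiftLeft (nat_lit 0x6000001006008009011) (nat_lit 64)) (.one (nat_lit 0x6000001006008009010200c0d1812020611)) (.br (Nat.shiftLeft (nat_lit 0x3000001) (nat_lit 113)) (.one (nat_lit 0x6000001006008009011200c0d1812022611)) (.one (nat_lit 0x6000002006008009010400c0d1812020611))))
def t175 : k175.all (jb2 57 fl b0) = true := by decide +kernel
noncomputable def k176 : KT := (.br (Nat.shiftLeft (nat_lit 0x1800001) (nat_lit 114)) (.br (Nat.shiftLeft (nat_lit 0x6000003) (nat_lit 112)) (.one (nat_lit 0x6000002006008009011400c0d1812022611)) (.br (Nat.shiftLeft (nat_lit 0x6000003006008009011) (nat_lit 64)) (.one (nat_lit 0x6000003006008009010600c0d1812020611)) (.one (nat_lit 0x6000003006008009011600c0d1812022611)))) (.br (Nat.shiftLeft (nat_lit 0x6000005) (nat_lit 112)) (.br (Nat.shiftLeft (nat_lit 0x6000004006008009011) (nat_lit 64)) (.one (nat_lit 0x6000004006008009010800c0d1812020611)) (.one (nat_lit 0x6000004006008009011800c0d1812022611)))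 (.br (Nat.shiftLeft (nat_lit 0x6000005006008009011) (nat_lit 64)) (.one (nat_lit 0x6000005006008009010a00c0d1812020611)) (.one (nat_lit 0x6000005006008009011a00c0d1812022611)))))
def t176 : k176.all (jb2 57 fl b0) = true := by decide +kernel
noncomputable def k177 : KT := (.br (Nat.shiftLeft (nat_lit 0x7000001006008009011) (nat_lit 64)) (.one (nat_lit 0x7000001006008009010200c0f1c12020611)) (.br (Nat.shiftLeft (nat_lit 0x3800001) (nat_lit 113)) (.one (nat_lit 0x7000001006008009011200c0f1c12022611)) (.one (nat_lit 0x7000002006008009010400c0f1c12020611))))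
def t177 : k177.all (jb2 57 fl b0) = true := by decide +kernel
noncomputable def k178 : KT := (.br (Nat.shiftLeft (nat_lit 0x7000004006008009011) (nat_lit 64)) (.br (Nat.shiftLeft (nat_lit 0x7000003006008009011) (nat_lit 64)) (.br (Nat.shiftLeft (nat_lit 0x7000003) (nat_lit 112)) (.one (nat_lit 0x7000002006008009011400c0f1c12022611)) (.one (nat_lit 0x7000003006008009010600c0f1c12020611))) (.br (Nat.shiftLeft (nat_lit 0x1c00001) (nat_lit 114)) (.one (nat_lit 0x7000003006008009011600c0f1c12022611)) (.one (nat_lit 0x7000004006008009010800c0f1c12020611)))) (.br (Nat.shiftLeft (nat_lit 0x7000005006008009011) (nat_lit 64)) (.br (Nat.shiftLeft (nat_lit 0x7000005) (nat_lit 112)) (.one (nat_lit 0x7000004006008009011800c0f1c12022611)) (.one (nat_lit 0x7000005006008009010a00c0f1c12020611))) (.br (Nat.shiftLeft (nat_lit 0x1) (nat_lit 139)) (.one (nat_lit 0x7000005006008009011a00c0f1c12022611)) (.one (nat_lit 0x8000001006008009010200c112012020611)))))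
def t178 : k178.all (jb2 57 fl b0) = true := by decide +kernel
noncomputable def k179 : KT := (.br (Nat.shiftLeft (nat_lit 0x2000001) (nat_lit 114)) (.br (Nat.shiftLeft (nat_lit 0x8000002006008009011) (nat_lit 64)) (.br (Nat.shiftLeft (nat_lit 0x4000001) (nat_lit 113)) (.one (nat_lit 0x8000001006008009011200c112012022611)) (.one (nat_lit 0x8000002006008009010400c112012020611))) (.br (Nat.shiftLeft (nat_lit 0x8000003) (nat_lit 112)) (.one (nat_lit 0x8000002006008009011400c112012022611)) (.br (Nat.shiftLeft (nat_lit 0x8000003006008009011) (nat_lit 64)) (.one (nat_lit 0x8000003006008009010600c112012020611)) (.one (nat_lit 0x8000003006008009011600c112012022611))))) (.br (Nat.shiftLeft (nat_lit 0x8000005) (nat_lit 112)) (.br (Nat.shiftLeft (nat_lit 0x8000004006008009011) (nat_lit 64)) (.one (nat_lit 0x8000004006008009010800c112012020611)) (.one (nat_lit 0x8000004006008009011800c112012022611))) (.br (Nat.shiftLeft (nat_lit 0x8000005006008009011) (nat_lit 64)) (.one (nat_lit 0x8000005006008009010a00c112012020611))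 (.br (Nat.shiftLeft (nat_lit 0x9) (nat_lit 136)) (.one (nat_lit 0x8000005006008009011a00c112012022611)) (.one (nat_lit 0x9000001006008009010200c132412020611))))))
def t179 : k179.all (jb2 57 fl b0) = true := by decide +kernel
noncomputable def k180 : KT := (.br (Nat.shiftLeft (nat_lit 0x9000003006008009011) (nat_lit 64)) (.br (Nat.shiftLeft (nat_lit 0x9000002006008009011) (nat_lit 64)) (.br (Nat.shiftLeft (nat_lit 0x4800001) (nat_lit 113)) (.one (nat_lit 0x9000001006008009011200c132412022611)) (.one (nat_lit 0x9000002006008009010400c132412020611))) (.br (Nat.shiftLeft (nat_lit 0x9000003) (nat_lit 112)) (.one (nat_lit 0x9000002006008009011400c132412022611)) (.one (nat_lit 0x9000003006008009010600c132412020611)))) (.br (Nat.shiftLeft (nat_lit 0x9000004006008009011) (nat_lit 64)) (.br (Nat.shiftLeft (nat_lit 0x2400001) (nat_lit 114)) (.one (nat_lit 0x9000003006008009011600c132412022611)) (.one (nat_lit 0x9000004006008009010800c132412020611))) (.br (Nat.shiftLeft (nat_lit 0x9000005) (nat_lit 112)) (.one (nat_lit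 0x9000004006008009011800c132412022611)) (.br (Nat.shiftLeft (nat_lit 0x9000005006008009011) (nat_lit 64)) (.one (nat_lit 0x9000005006008009010a00c132412020611)) (.one (nat_lit 0x9000005006008009011a00c132412022611))))))
def t180 : k180.all (jb2 57 fl b0) = true := by decide +kernel
noncomputable def s8 : KT := (.br (nat_lit 0x4005006008009010a00c010093020760) (.br (nat_lit 0x2003006008009010600c010052820760) (.br (nat_lit 0x1003006008009010600c010032420760) (.br (nat_lit 0x1002006008009010400c010032420760) k157 (.br (nat_lit 0x1002006008009011400c010032422760) k158 k159)) (.br (nat_lit 0x1004006008009010800c010032420760) k160 (.br (nat_lit 0x2000006008009011000c010052822511) k161 k162))) (.br (nat_lit 0x2005006008009010a00c010052820760) (.br (nat_lit 0x2003006008009011600c010052822760) k163 (.br (nat_lit 0x2004006008009010800c010052820760) k164 k165)) (.br (nat_lit 0x3004006008009010800c010072c20760) k166 (.br (nat_lit 0x3005006008009010a00c010072c20760) k167 k168)))) (.br (nat_lit 0x5000005006008009011a00c0b1412022611)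 (.br (nat_lit 0x3000004006008009010800c070c12020611) (.br (nat_lit 0x6000006008009010000c0100d3820511) k169 (.br (nat_lit 0x7000006008009011000c0100f3c22511) k170 k171)) (.br (nat_lit 0x4000005006008009011a00c091012022611) k172 (.br (nat_lit 0x5000002006008009011400c0b1412022611) k173 k174))) (.br (nat_lit 0x7000002006008009010400c0f1c12020611) (.br (nat_lit 0x6000002006008009010400c0d1812020611) k175 (.br (nat_lit 0x6000005006008009011a00c0d1812022611) k176 k177)) (.br (nat_lit 0x8000001006008009010200c112012020611) k178 (.br (nat_lit 0x9000001006008009010200c132412020611) k179 k180)))))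
noncomputable def u8 : KT := (.br (Nat.shiftLeft (nat_lit 0x6008009011) (nat_lit 64)) (.one (nat_lit 0x6008009010000c010012020540)) (.one (nat_lit 0x6008009011000c010012022540)))
def w8 : u8.all (wj 57 s8) = true := by decide +kernel
def o8 : OkW 57 (jb2 57 fl) u8 := .lift s8 _ (.br _ _ _ (.br _ _ _ (.br _ _ _ (.br _ _ _ (.leaf b0 k157 t157) (.br _ _ _ (.leaf b0 k158 t158) (.leaf b0 k159 t159))) (.br _ _ _ (.leaf b0 k160 t160) (.br _ _ _ (.leaf b0 k161 t161) (.leaf b0 k162 t162)))) (.br _ _ _ (.br _ _ _ (.leaf b0 k163 t163) (.br _ _ _ (.leaf b0 k164 t164) (.leaf b0 k165 t165))) (.br _ _ _ (.leaf b0 k166 t166) (.br _ _ _ (.leaf b0 k167 t167) (.leaf b0 k168 t168))))) (.br _ _ _ (.br _ _ _ (.br _ _ _ (.leaf b0 k169 t169) (.br _ _ _ (.leaf b0 k170 t170) (.leaf b0 k171 t171))) (.br _ _ _ (.leaf b0 k172 t172) (.br _ _ _ (.leaf b0 k173 t173) (.leaf b0 k174 t174)))) (.br _ _ _ (.br _ _ _ (.leaf b0 k175 t175) (.br _ _ _ (.leaf b0 k176 t176) (.leaf b0 k177 t177))) (.br _ _ _ (.leaf b0 k178 t178) (.br _ _ _ (.leaf b0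 k179 t179) (.leaf b0 k180 t180)))))) w8
noncomputable def k181 : KT := (.br (Nat.shiftLeft (nat_lit 0x1802002803) (nat_lit 66)) (.br (Nat.shiftLeft (nat_lit 0x6008009013) (nat_lit 64)) (.one (nat_lit 0x6008009012000c010012025500)) (.br (Nat.shiftLeft (nat_lit 0x3004005) (nat_lit 77)) (.one (nat_lit 0x6008009013000c010012027500)) (.one (nat_lit 0x600800a00b000c010014017500)))) (.br (Nat.shiftLeft (nat_lit 0x600800a00d) (nat_lit 64)) (.one (nat_lit 0x600800a00c000c010014019500)) (.br (Nat.shiftLeft (nat_lit 0x1) (nat_lit 112)) (.one (nat_lit 0x600800a00d000c01001401b500)) (.one (nat_lit 0x1006008009012200c010012024650)))))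
def t181 : k181.all (jb2 57 fl b0) = true := by decide +kernel
noncomputable def k182 : KT := (.br (Nat.shiftLeft (nat_lit 0x1) (nat_lit 113)) (.one (nat_lit 0x1006008009013200c010012026650)) (.one (nat_lit 0x2006008009012400c010012025600)))
def t182 : k182.all (jb2 57 fl b0) = true := by decide +kernel
noncomputable def k183 : KT := (.br (Nat.shiftLeft (nat_lit 0x3) (nat_lit 112)) (.one (nat_lit 0x2006008009013400c010012026650)) (.one (nat_lit 0x3006008009012600c010012025600)))
def t183 : k183.all (jb2 57 fl b0) = true := by decide +kernel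
noncomputable def k184 : KT := (.br (Nat.shiftLeft (nat_lit 0x1) (nat_lit 114)) (.one (nat_lit 0x3006008009013600c010012026650)) (.one (nat_lit 0x4006008009012800c010012025600)))
def t184 : k184.all (jb2 57 fl b0) = true := by decide +kernel
noncomputable def k185 : KT := (.one (nat_lit 0x4006008009013800c010012026650))
def t185 : k185.all (jb2 57 fl b0) = true := by decide +kernel
noncomputable def k186 : KT := (.one (nat_lit 0x5006008009012a00c010012024650))
def t186 : k186.all (jb2 57 fl b0) = true := by decide +kernel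
noncomputable def k187 : KT := (.br (Nat.shiftLeft (nat_lit 0x1) (nat_lit 124)) (.one (nat_lit 0x5006008009013a00c010012026650)) (.br (Nat.shiftLeft (nat_lit 0x1000006008009013) (nat_lit 64)) (.one (nat_lit 0x1000006008009012000c010032424511)) (.one (nat_lit 0x1000006008009013000c010032426511))))
def t187 : k187.all (jb2 57 fl b0) = true := by decide +kernel
noncomputable def k188 : KT := (.br (Nat.shiftLeft (nat_lit 0x401) (nat_lit 114)) (.br (Nat.shiftLeft (nat_lit 0x1003) (nat_lit 112)) (.one (nat_lit 0x1002006008009012400c010032424760)) (.one (nat_lit 0x1003006008009012600c010032424760))) (.br (Nat.shiftLeft (nat_lit 0x1) (nat_lit 125)) (.one (nat_lit 0x1004006008009012800c010032424760)) (.br (Nat.shiftLeft (nat_lit 0x2000006008009013) (nat_lit 64)) (.one (nat_lit 0x2000006008009012000c010052824511)) (.one (nat_lit 0x2000006008009013000c010052826511)))))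
def t188 : k188.all (jb2 57 fl b0) = true := by decide +kernel
noncomputable def k189 : KT := (.br (Nat.shiftLeft (nat_lit 0x3) (nat_lit 124)) (.br (Nat.shiftLeft (nat_lit 0x801) (nat_lit 114)) (.one (nat_lit 0x2003006008009012600c010052824760)) (.one (nat_lit 0x2004006008009012800c010052824760))) (.br (Nat.shiftLeft (nat_lit 0x3000006008009013) (nat_lit 64)) (.one (nat_lit 0x3000006008009012000c010072c24511)) (.br (Nat.shiftLeft (nat_lit 0xc01) (nat_lit 114)) (.one (nat_lit 0x3000006008009013000c010072c26511)) (.one (nat_lit 0x3004006008009012800c010072c24760)))))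
def t189 : k189.all (jb2 57 fl b0) = true := by decide +kernel
noncomputable def k190 : KT := (.br (Nat.shiftLeft (nat_lit 0x3) (nat_lit 125)) (.br (Nat.shiftLeft (nat_lit 0x5) (nat_lit 124)) (.br (Nat.shiftLeft (nat_lit 0x4000006008009013) (nat_lit 64)) (.one (nat_lit 0x4000006008009012000c010093024511)) (.one (nat_lit 0x4000006008009013000c010093026511))) (.br (Nat.shiftLeft (nat_lit 0x5000006008009013) (nat_lit 64)) (.one (nat_lit 0x5000006008009012000c0100b3424511)) (.one (nat_lit 0x5000006008009013000c0100b3426511)))) (.br (Nat.shiftLeft (nat_lit 0x7) (nat_lit 124)) (.br (Nat.shiftLeft (nat_lit 0x6000006008009013) (nat_lit 64)) (.one (nat_lit 0x6000006008009012000c0100d3824511)) (.one (nat_lit 0x6000006008009013000c0100d3826511))) (.br (Nat.shiftLeft (nat_lit 0x7000006008009013) (nat_lit 64)) (.one (nat_lit 0x7000006008009012000c0100f3c24511)) (.one (nat_lit 0x7000006008009013000c0100f3c26511)))))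
def t190 : k190.all (jb2 57 fl b0) = true := by decide +kernel
noncomputable def k191 : KT := (.br (Nat.shiftLeft (nat_lit 0x800001) (nat_lit 114)) (.br (Nat.shiftLeft (nat_lit 0x1) (nat_lit 136)) (.br (Nat.shiftLeft (nat_lit 0x9) (nat_lit 124)) (.br (Nat.shiftLeft (nat_lit 0x8000006008009013) (nat_lit 64)) (.one (nat_lit 0x8000006008009012000c010114024511)) (.one (nat_lit 0x8000006008009013000c010114026511))) (.br (Nat.shiftLeft (nat_lit 0x9000006008009013) (nat_lit 64)) (.one (nat_lit 0x9000006008009012000c010134424511)) (.one (nat_lit 0x9000006008009013000c010134426511)))) (.br (Nat.shiftLeft (nat_lit 0x400001) (nat_lit 114)) (.br (Nat.shiftLeft (nat_lit 0x1000003) (nat_lit 112)) (.one (nat_lit 0x1000002006008009012400c030412024611)) (.one (nat_lit 0x1000003006008009012600c030412024611))) (.br (Nat.shiftLeft (nat_lit 0x1) (nat_lit 137)) (.one (nat_lit 0x1000004006008009012800c030412024611)) (.br (Nat.shiftLeft (nat_lit 0x2000003) (nat_lit 112)) (.one (nat_lit 0x2000002006008009012400c050812024611)) (.one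 (nat_lit 0x2000003006008009012600c050812024611)))))) (.br (Nat.shiftLeft (nat_lit 0x4000003) (nat_lit 112)) (.br (Nat.shiftLeft (nat_lit 0x3000003) (nat_lit 112)) (.br (Nat.shiftLeft (nat_lit 0x3) (nat_lit 136)) (.one (nat_lit 0x2000004006008009012800c050812024611)) (.one (nat_lit 0x3000002006008009012400c070c12024611))) (.br (Nat.shiftLeft (nat_lit 0xc00001) (nat_lit 114)) (.one (nat_lit 0x3000003006008009012600c070c12024611)) (.br (Nat.shiftLeft (nat_lit 0x1) (nat_lit 138)) (.one (nat_lit 0x3000004006008009012800c070c12024611)) (.one (nat_lit 0x4000002006008009012400c091012024611))))) (.br (Nat.shiftLeft (nat_lit 0x5) (nat_lit 136)) (.br (Nat.shiftLeft (nat_lit 0x1000001) (nat_lit 114)) (.one (nat_lit 0x4000003006008009012600c091012024611)) (.one (nat_lit 0x4000004006008009012800c091012024611))) (.br (Nat.shiftLeft (nat_lit 0x5000003) (nat_lit 112)) (.one (nat_lit 0x5000002006008009012400c0b1412024611)) (.br (Nat.shiftLeft (nat_lit 0x1400001) (nat_lit 114)) (.one (nat_lit 0x5000003006008009012600c0b1412024611))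 (.one (nat_lit 0x5000004006008009012800c0b1412024611)))))))
def t191 : k191.all (jb2 57 fl b0) = true := by decide +kernel
noncomputable def k192 : KT := (.br (Nat.shiftLeft (nat_lit 0x1) (nat_lit 139)) (.br (Nat.shiftLeft (nat_lit 0x7) (nat_lit 136)) (.br (Nat.shiftLeft (nat_lit 0x6000003) (nat_lit 112)) (.one (nat_lit 0x6000002006008009012400c0d1812024611)) (.br (Nat.shiftLeft (nat_lit 0x1800001) (nat_lit 114)) (.one (nat_lit 0x6000003006008009012600c0d1812024611)) (.one (nat_lit 0x6000004006008009012800c0d1812024611)))) (.br (Nat.shiftLeft (nat_lit 0x7000003) (nat_lit 112)) (.one (nat_lit 0x7000002006008009012400c0f1c12024611)) (.br (Nat.shiftLeft (nat_lit 0x1c00001) (nat_lit 114)) (.one (nat_lit 0x7000003006008009012600c0f1c12024611)) (.one (nat_lit 0x7000004006008009012800c0f1c12024611))))) (.br (Nat.shiftLeft (nat_lit 0x9) (nat_lit 136)) (.br (Nat.shiftLeft (nat_lit 0x8000003) (nat_lit 112)) (.one (nat_lit 0x8000002006008009012400c112012024611)) (.br (Nat.shiftLeft (nat_lit 0x2000001) (nat_lit 114)) (.one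 (nat_lit 0x8000003006008009012600c112012024611)) (.one (nat_lit 0x8000004006008009012800c112012024611)))) (.br (Nat.shiftLeft (nat_lit 0x9000003) (nat_lit 112)) (.one (nat_lit 0x9000002006008009012400c132412024611)) (.br (Nat.shiftLeft (nat_lit 0x2400001) (nat_lit 114)) (.one (nat_lit 0x9000003006008009012600c132412024611)) (.one (nat_lit 0x9000004006008009012800c132412024611))))))
def t192 : k192.all (jb2 57 fl b0) = true := by decide +kernel
noncomputable def s9 : KT := (.br (nat_lit 0x5006008009012a00c010012024650) (.br (nat_lit 0x3006008009012600c010012025600) (.br (nat_lit 0x1006008009012200c010012024650) k181 (.br (nat_lit 0x2006008009012400c010012025600) k182 k183)) (.br (nat_lit 0x4006008009012800c010012025600) k184 (.br (nat_lit 0x4006008009013800c010012026650) k185 k186))) (.br (nat_lit 0x3004006008009012800c010072c24760) (.br (nat_lit 0x1000006008009013000c010032426511) k187 (.br (nat_lit 0x2000006008009013000c010052826511) k188 k189)) (.br (nat_lit 0x7000006008009013000c0100f3c26511) k190 (.br (nat_lit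 0x5000004006008009012800c0b1412024611) k191 k192))))
noncomputable def u9 : KT := (.br (Nat.shiftLeft (nat_lit 0x3004005) (nat_lit 77)) (.br (Nat.shiftLeft (nat_lit 0x6008009013) (nat_lit 64)) (.one (nat_lit 0x6008009012000c010012024540)) (.one (nat_lit 0x6008009013000c010012026540))) (.br (Nat.shiftLeft (nat_lit 0x1802002803) (nat_lit 66)) (.one (nat_lit 0x600800a00b000c010014017500)) (.br (Nat.shiftLeft (nat_lit 0x600800a00d) (nat_lit 64)) (.one (nat_lit 0x600800a00c000c010014019500)) (.one (nat_lit 0x600800a00d000c01001401b500)))))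
def w9 : u9.all (wj 57 s9) = true := by decide +kernel
def o9 : OkW 57 (jb2 57 fl) u9 := .lift s9 _ (.br _ _ _ (.br _ _ _ (.br _ _ _ (.leaf b0 k181 t181) (.br _ _ _ (.leaf b0 k182 t182) (.leaf b0 k183 t183))) (.br _ _ _ (.leaf b0 k184 t184) (.br _ _ _ (.leaf b0 k185 t185) (.leaf b0 k186 t186)))) (.br _ _ _ (.br _ _ _ (.leaf b0 k187 t187) (.br _ _ _ (.leaf b0 k188 t188) (.leaf b0 k189 t189))) (.br _ _ _ (.leaf b0 k190 t190) (.br _ _ _ (.leaf b0 k191 t191) (.leaf b0 k192 t192))))) w9
noncomputable def k193 : KT := (.br (Nat.shiftLeft (nat_lit 0x5) (nat_lit 112)) (.br (Nat.shiftLeft (nat_lit 0x1) (nat_lit 113)) (.br (Nat.shiftLeft (nat_lit 0x1) (nat_lit 112)) (.one (nat_lit 0x600800a00e000c01001401d500)) (.one (nat_lit 0x100600800a00e200c01001401d600))) (.br (Nat.shiftLeft (nat_lit 0x3) (nat_lit 112)) (.one (nat_lit 0x200600800a00e400c01001401d600)) (.br (Nat.shiftLeft (nat_lit 0x1) (nat_lit 114)) (.one (nat_lit 0x300600800a00e600c01001401d600)) (.one (nat_lit 0x400600800a00e800c01001401d600))))) (.br (Nat.shiftLeft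 (nat_lit 0x801) (nat_lit 113)) (.br (Nat.shiftLeft (nat_lit 0x1) (nat_lit 124)) (.one (nat_lit 0x500600800a00ea00c01001401d600)) (.one (nat_lit 0x100000600800a00e000c01003441c511))) (.br (Nat.shiftLeft (nat_lit 0x1003) (nat_lit 112)) (.one (nat_lit 0x100200600800a00e400c01003441d700)) (.br (Nat.shiftLeft (nat_lit 0x401) (nat_lit 114)) (.one (nat_lit 0x100300600800a00e600c01003441d700)) (.one (nat_lit 0x100400600800a00e800c01003441c760))))))
def t193 : k193.all (jb2 57 fl b0) = true := by decide +kernel
noncomputable def k194 : KT := (.br (Nat.shiftLeft (nat_lit 0x1001) (nat_lit 113)) (.br (Nat.shiftLeft (nat_lit 0x1) (nat_lit 125)) (.one (nat_lit 0x100500600800a00ea00c01003441c760)) (.one (nat_lit 0x200000600800a00e000c01005481c511))) (.br (Nat.shiftLeft (nat_lit 0x801) (nat_lit 114)) (.one (nat_lit 0x200300600800a00e600c01005481d700)) (.one (nat_lit 0x200400600800a00e800c01005481d700))))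
def t194 : k194.all (jb2 57 fl b0) = true := by decide +kernel
noncomputable def k195 : KT := (.br (Nat.shiftLeft (nat_lit 0x3) (nat_lit 124)) (.one (nat_lit 0x200500600800a00ea00c01005481c760)) (.one (nat_lit 0x300000600800a00e000c010074c1c511)))
def t195 : k195.all (jb2 57 fl b0) = true := by decide +kernel
noncomputable def k196 : KT := (.one (nat_lit 0x300400600800a00e800c010074c1c760))
def t196 : k196.all (jb2 57 fl b0) = true := by decide +kernel
noncomputable def k197 : KT := (.br (Nat.shiftLeft (nat_lit 0x1) (nat_lit 126)) (.one (nat_lit 0x300500600800a00ea00c010074c1c760)) (.one (nat_lit 0x400000600800a00e000c01009501c511)))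
def t197 : k197.all (jb2 57 fl b0) = true := by decide +kernel
noncomputable def k198 : KT := (.br (Nat.shiftLeft (nat_lit 0x5) (nat_lit 124)) (.one (nat_lit 0x400500600800a00ea00c01009501c760)) (.one (nat_lit 0x500000600800a00e000c0100b541c511)))
def t198 : k198.all (jb2 57 fl b0) = true := by decide +kernel
noncomputable def k199 : KT := (.br (Nat.shiftLeft (nat_lit 0x7) (nat_lit 124)) (.one (nat_lit 0x600000600800a00e000c0100d581c511)) (.one (nat_lit 0x700000600800a00e000c0100f5c1c511)))
noncomputable def b200 : BT := .node (nat_lit 0x1) (nat_lit 0x99149b2648003a1c000cb6010008800028) .leaf .leaf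
def t199 : k199.all (jb2 57 fl b200) = true := by decide +kernel
noncomputable def k200 : KT := (.br (Nat.shiftLeft (nat_lit 0x800001) (nat_lit 113)) (.br (Nat.shiftLeft (nat_lit 0x5) (nat_lit 125)) (.br (Nat.shiftLeft (nat_lit 0x9) (nat_lit 124)) (.one (nat_lit 0x800000600800a00e000c01011601c511)) (.one (nat_lit 0x900000600800a00e000c01013641c511))) (.br (Nat.shiftLeft (nat_lit 0x1) (nat_lit 136)) (.one (nat_lit 0xa00000600800a00e000c01015681c511)) (.one (nat_lit 0x100000100600800a00e200c03041401c611)))) (.br (Nat.shiftLeft (nat_lit 0x400001) (nat_lit 114)) (.br (Nat.shiftLeft (nat_lit 0x1000003) (nat_lit 112)) (.one (nat_lit 0x100000200600800a00e400c03041401c611)) (.one (nat_lit 0x100000300600800a00e600c03041401c611))) (.br (Nat.shiftLeft (nat_lit 0x1000005) (nat_lit 112)) (.one (nat_lit 0x100000400600800a00e800c03041401c611)) (.one (nat_lit 0x100000500600800a00ea00c03041401c611)))))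
def t200 : k200.all (jb2 57 fl b0) = true := by decide +kernel
noncomputable def k201 : KT := (.br (Nat.shiftLeft (nat_lit 0x400801) (nat_lit 114)) (.one (nat_lit 0x100200300600800a00e600c03045481c870)) (.one (nat_lit 0x100200400600800a00e800c03045481c870)))
def t201 : k201.all (jb2 57 fl b0) = true := by decide +kernel
noncomputable def k202 : KT := (.br (Nat.shiftLeft (nat_lit 0xc00001) (nat_lit 114)) (.br (Nat.shiftLeft (nat_lit 0x2000005) (nat_lit 112)) (.br (Nat.shiftLeft (nat_lit 0x2000003) (nat_lit 112)) (.br (Nat.shiftLeft (nat_lit 0x1000001) (nat_lit 113)) (.one (nat_lit 0x200000100600800a00e200c05081401c611)) (.one (nat_lit 0x200000200600800a00e400c05081401c611))) (.br (Nat.shiftLeft (nat_lit 0x800001) (nat_lit 114)) (.one (nat_lit 0x200000300600800a00e600c05081401c611)) (.one (nat_lit 0x200000400600800a00e800c05081401c611)))) (.br (Nat.shiftLeft (nat_lit 0x1800001) (nat_lit 113)) (.br (Nat.shiftLeft (nat_lit 0x3) (nat_lit 136)) (.one (nat_lit 0x200000500600800a00ea00c05081401c611)) (.one (nat_lit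 0x300000100600800a00e200c070c1401c611))) (.br (Nat.shiftLeft (nat_lit 0x3000003) (nat_lit 112)) (.one (nat_lit 0x300000200600800a00e400c070c1401c611)) (.one (nat_lit 0x300000300600800a00e600c070c1401c611))))) (.br (Nat.shiftLeft (nat_lit 0x4000003) (nat_lit 112)) (.br (Nat.shiftLeft (nat_lit 0x1) (nat_lit 138)) (.br (Nat.shiftLeft (nat_lit 0x3000005) (nat_lit 112)) (.one (nat_lit 0x300000400600800a00e800c070c1401c611)) (.one (nat_lit 0x300000500600800a00ea00c070c1401c611))) (.br (Nat.shiftLeft (nat_lit 0x2000001) (nat_lit 113)) (.one (nat_lit 0x400000100600800a00e200c09101401c611)) (.one (nat_lit 0x400000200600800a00e400c09101401c611)))) (.br (Nat.shiftLeft (nat_lit 0x4000005) (nat_lit 112)) (.br (Nat.shiftLeft (nat_lit 0x1000001) (nat_lit 114)) (.one (nat_lit 0x400000300600800a00e600c09101401c611)) (.one (nat_lit 0x400000400600800a00e800c09101401c611))) (.br (Nat.shiftLeft (nat_lit 0x5) (nat_lit 136)) (.one (nat_lit 0x400000500600800a00ea00c09101401c611)) (.one (nat_lit 0x500000100600800a00e200c0b141401c611))))))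
def t202 : k202.all (jb2 57 fl b0) = true := by decide +kernel
noncomputable def k203 : KT := (.br (Nat.shiftLeft (nat_lit 0x5000003) (nat_lit 112)) (.one (nat_lit 0x500000200600800a00e400c0b141401c611)) (.br (Nat.shiftLeft (nat_lit 0x1400001) (nat_lit 114)) (.one (nat_lit 0x500000300600800a00e600c0b141401c611)) (.one (nat_lit 0x500000400600800a00e800c0b141401c611))))
noncomputable def b204 : BT := .node (nat_lit 0x1) (nat_lit 0x6d912e0a8adb225e95c80032d8000ad680039df0008f5c2000e300028) .leaf .leaf
def t203 : k203.all (jb2 57 fl b204) = true := by decide +kernel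
noncomputable def k204 : KT := (.br (Nat.shiftLeft (nat_lit 0x3) (nat_lit 137)) (.one (nat_lit 0x500000500600800a00ea00c0b141401c611)) (.one (nat_lit 0x600000100600800a00e200c0d181401c611)))
noncomputable def b205 : BT := .node (nat_lit 0x1) (nat_lit 0x9352751458003a98000ad6410008800028) .leaf .leaf
def t204 : k204.all (jb2 57 fl b205) = true := by decide +kernel
noncomputable def k205 : KT := (.br (Nat.shiftLeft (nat_lit 0x6000003) (nat_lit 112)) (.one (nat_lit 0x600000200600800a00e400c0d181401c611)) (.one (nat_lit 0x600000300600800a00e600c0d181401c611)))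
noncomputable def b206 : BT := .node (nat_lit 0x17) (nat_lit 0xde128b95cc003a5a0008e64196428a9458003a59000ad641de125ea4d800329f000aa70100300002a0002a0002a000240002400024000240002400024000240001e0001e0001e0001e0001e0001e0001e0001e0001e0001e0001e0001e0001e0) .leaf .leaf
def t205 : k205.all (jb2 57 fl b206) = true := by decide +kernel
noncomputable def k206 : KT := (.br (Nat.shiftLeft (nat_lit 0x6000005) (nat_lit 112)) (.one (nat_lit 0x600000400600800a00e800c0d181401c611)) (.br (Nat.shiftLeft (nat_lit 0x7) (nat_lit 136)) (.one (nat_lit 0x600000500600800a00ea00c0d181401c611)) (.one (nat_lit 0x700000100600800a00e200c0f1c1401c611))))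
noncomputable def b207 : BT := .node (nat_lit 0xb) (nat_lit 0x93625e93a00032db000cb601de149b92f000325d000ab781001b000150001500015000150001500015000150000f0000f0000f0000f0) .leaf .leaf
def t206 : k206.all (jb2 57 fl b207) = true := by decide +kernel
noncomputable def k207 : KT := (.br (Nat.shiftLeft (nat_lit 0x7000003) (nat_lit 112)) (.one (nat_lit 0x700000200600800a00e400c0f1c1401c611)) (.br (Nat.shiftLeft (nat_lit 0x1c00001) (nat_lit 114)) (.one (nat_lit 0x700000300600800a00e600c0f1c1401c611)) (.one (nat_lit 0x700000400600800a00e800c0f1c1401c611))))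
noncomputable def b208 : BT := .node (nat_lit 0x1) (nat_lit 0x49b12f4a88db22b9258c0039e1000ae58003356000ac602000e300028) .leaf .leaf
def t207 : k207.all (jb2 57 fl b208) = true := by decide +kernel
noncomputable def k208 : KT := (.br (Nat.shiftLeft (nat_lit 0x1) (nat_lit 139)) (.one (nat_lit 0x700000500600800a00ea00c0f1c1401c611)) (.br (Nat.shiftLeft (nat_lit 0x4000001) (nat_lit 113)) (.one (nat_lit 0x800000100600800a00e200c11201401c611)) (.one (nat_lit 0x800000200600800a00e400c11201401c611))))
def t208 : k208.all (jb2 57 fl b0) = true := by decide +kernel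
noncomputable def k209 : KT := (.br (Nat.shiftLeft (nat_lit 0x9) (nat_lit 136)) (.br (Nat.shiftLeft (nat_lit 0x2000001) (nat_lit 114)) (.one (nat_lit 0x800000300600800a00e600c11201401c611)) (.br (Nat.shiftLeft (nat_lit 0x8000005) (nat_lit 112)) (.one (nat_lit 0x800000400600800a00e800c11201401c611)) (.one (nat_lit 0x800000500600800a00ea00c11201401c611)))) (.br (Nat.shiftLeft (nat_lit 0x4800001) (nat_lit 113)) (.one (nat_lit 0x900000100600800a00e200c13241401c611)) (.br (Nat.shiftLeft (nat_lit 0x9000003) (nat_lit 112)) (.one (nat_lit 0x900000200600800a00e400c13241401c611)) (.one (nat_lit 0x900000300600800a00e600c13241401c611)))))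
def t209 : k209.all (jb2 57 fl b0) = true := by decide +kernel
noncomputable def k210 : KT := (.br (Nat.shiftLeft (nat_lit 0x400000801) (nat_lit 114)) (.br (Nat.shiftLeft (nat_lit 0x2800001) (nat_lit 114)) (.br (Nat.shiftLeft (nat_lit 0x5) (nat_lit 137)) (.br (Nat.shiftLeft (nat_lit 0x9000005) (nat_lit 112)) (.one (nat_lit 0x900000400600800a00e800c13241401c611)) (.one (nat_lit 0x900000500600800a00ea00c13241401c611))) (.br (Nat.shiftLeft (nat_lit 0x5000001) (nat_lit 113)) (.one (nat_lit 0xa00000100600800a00e200c15281401c611)) (.br (Nat.shiftLeft (nat_lit 0xa000003) (nat_lit 112)) (.one (nat_lit 0xa00000200600800a00e400c15281401c611)) (.one (nat_lit 0xa00000300600800a00e600c15281401c611))))) (.br (Nat.shiftLeft (nat_lit 0x1) (nat_lit 148)) (.br (Nat.shiftLeft (nat_lit 0xa000005) (nat_lit 112)) (.one (nat_lit 0xa00000400600800a00e800c15281401c611)) (.one (nat_lit 0xa00000500600800a00ea00c15281401c611))) (.br (Nat.shiftLeft (nat_lit 0x1000001003) (nat_lit 112)) (.one (nat_lit 0x100000100200600800a00e402c41003441c711))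 (.br (Nat.shiftLeft (nat_lit 0x800001) (nat_lit 125)) (.one (nat_lit 0x100000100300600800a00e602c41003441c711)) (.one (nat_lit 0x100000200300600800a00e602c41005481c711)))))) (.br (Nat.shiftLeft (nat_lit 0x3) (nat_lit 148)) (.br (Nat.shiftLeft (nat_lit 0x2000001003) (nat_lit 112)) (.br (Nat.shiftLeft (nat_lit 0x1) (nat_lit 149)) (.one (nat_lit 0x100000200400600800a00e802c41005481c711)) (.one (nat_lit 0x200000100200600800a00e404c81003441c711))) (.br (Nat.shiftLeft (nat_lit 0x1000001) (nat_lit 125)) (.one (nat_lit 0x200000100300600800a00e604c81003441c711)) (.br (Nat.shiftLeft (nat_lit 0x800000801) (nat_lit 114)) (.one (nat_lit 0x200000200300600800a00e604c81005481c711)) (.one (nat_lit 0x200000200400600800a00e804c81005481c711))))) (.br (Nat.shiftLeft (nat_lit 0xc00000801) (nat_lit 114)) (.br (Nat.shiftLeft (nat_lit 0x3000001003) (nat_lit 112)) (.one (nat_lit 0x300000100200600800a00e406cc1003441c711)) (.br (Nat.shiftLeft (nat_lit 0x1800001) (nat_lit 125)) (.one (nat_lit 0x300000100300600800a00e606cc1003441c711))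 (.one (nat_lit 0x300000200300600800a00e606cc1005481c711)))) (.br (Nat.shiftLeft (nat_lit 0x1) (nat_lit 150)) (.one (nat_lit 0x300000200400600800a00e806cc1005481c711)) (.br (Nat.shiftLeft (nat_lit 0x4000001003) (nat_lit 112)) (.one (nat_lit 0x400000100200600800a00e408d01003441c711)) (.one (nat_lit 0x400000100300600800a00e608d01003441c711)))))))
def t210 : k210.all (jb2 57 fl b0) = true := by decide +kernel
noncomputable def k211 : KT := (.br (Nat.shiftLeft (nat_lit 0x5) (nat_lit 148)) (.br (Nat.shiftLeft (nat_lit 0x1000000801) (nat_lit 114)) (.one (nat_lit 0x400000200300600800a00e608d01005481c711)) (.one (nat_lit 0x400000200400600800a00e808d01005481c711))) (.br (Nat.shiftLeft (nat_lit 0x5000001003) (nat_lit 112)) (.one (nat_lit 0x500000100200600800a00e40ad41003441c711)) (.one (nat_lit 0x500000100300600800a00e60ad41003441c711))))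
noncomputable def b212 : BT := .node (nat_lit 0x2f) (nat_lit 0x1bc24e72a300074360011ae0326a4e928bb6c89704bd4c894592c6001d2c80056b400196c00055440019ab80065321ef093a8b42001cd000047ae0c9a24d4a8a001d4c00057300c9a24d497b2312a2a58c003a98000ab80002b5a000ab642006b1006b1006b1006b1006b1006b1006b1006b1006b1006b1006b1006b1006b1006b1006b1006b10065100651006510065100651006510065100651006510065100651006510053b004db004db004db0047b0047b0047b0047b0047b0047b0047b0047b0047b0047b0047b0047b0047b0047b0047b003c0) .leaf .leaf
def t211 : k211.all (jb2 57 fl b212) = true := by decide +kernel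
noncomputable def k212 : KT := (.br (Nat.shiftLeft (nat_lit 0x3) (nat_lit 149)) (.br (Nat.shiftLeft (nat_lit 0x1400000801) (nat_lit 114)) (.one (nat_lit 0x500000200300600800a00e60ad41005481c711)) (.one (nat_lit 0x500000200400600800a00e80ad41005481c711))) (.br (Nat.shiftLeft (nat_lit 0x6000001003) (nat_lit 112)) (.one (nat_lit 0x600000100200600800a00e40cd81003441c711)) (.one (nat_lit 0x600000100300600800a00e60cd81003441c711))))
noncomputable def b213 : BT := .node (nat_lit 0x13) (nat_lit 0x96228c145c003a98000ac701db22a2a4d8003357000ab6c1db225ea58c003262000ac601002b0002b0002500025000250002500025000250001f0001f0001f0001f0001f0001f0001f0001f0001f0001900019000190) .leaf .leaf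
def t212 : k212.all (jb2 57 fl b213) = true := by decide +kernel
noncomputable def k213 : KT := (.br (Nat.shiftLeft (nat_lit 0x7) (nat_lit 148)) (.br (Nat.shiftLeft (nat_lit 0x1800000801) (nat_lit 114)) (.one (nat_lit 0x600000200300600800a00e60cd81005481c711)) (.one (nat_lit 0x600000200400600800a00e80cd81005481c711))) (.br (Nat.shiftLeft (nat_lit 0x7000001003) (nat_lit 112)) (.one (nat_lit 0x700000100200600800a00e40edc1003441c711)) (.br (Nat.shiftLeft (nat_lit 0x3800001) (nat_lit 125)) (.one (nat_lit 0x700000100300600800a00e60edc1003441c711)) (.one (nat_lit 0x700000200300600800a00e60edc1005481c711)))))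
noncomputable def b214 : BT := .node (nat_lit 0x1) (nat_lit 0xdb228b24d8003319000ab6c10008800028) .leaf .leaf
def t213 : k213.all (jb2 57 fl b214) = true := by decide +kernel
noncomputable def k214 : KT := (.br (Nat.shiftLeft (nat_lit 0x9000001003) (nat_lit 112)) (.br (Nat.shiftLeft (nat_lit 0x4000001) (nat_lit 125)) (.br (Nat.shiftLeft (nat_lit 0x1) (nat_lit 151)) (.one (nat_lit 0x700000200400600800a00e80edc1005481c711)) (.br (Nat.shiftLeft (nat_lit 0x8000001003) (nat_lit 112)) (.one (nat_lit 0x800000100200600800a00e410e01003441c711)) (.one (nat_lit 0x800000100300600800a00e610e01003441c711)))) (.br (Nat.shiftLeft (nat_lit 0x2000000801) (nat_lit 114)) (.one (nat_lit 0x800000200300600800a00e610e01005481c711)) (.br (Nat.shiftLeft (nat_lit 0x9) (nat_lit 148)) (.one (nat_lit 0x800000200400600800a00e810e01005481c711)) (.one (nat_lit 0x900000100200600800a00e412e41003441c711))))) (.br (Nat.shiftLeft (nat_lit 0x5) (nat_lit 149)) (.br (Nat.shiftLeft (nat_lit 0x4800001) (nat_lit 125)) (.one (nat_lit 0x900000100300600800a00e612e41003441c711))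 (.br (Nat.shiftLeft (nat_lit 0x2400000801) (nat_lit 114)) (.one (nat_lit 0x900000200300600800a00e612e41005481c711)) (.one (nat_lit 0x900000200400600800a00e812e41005481c711)))) (.br (Nat.shiftLeft (nat_lit 0x5000001) (nat_lit 125)) (.br (Nat.shiftLeft (nat_lit 0xa000001003) (nat_lit 112)) (.one (nat_lit 0xa00000100200600800a00e414e81003441c711)) (.one (nat_lit 0xa00000100300600800a00e614e81003441c711))) (.br (Nat.shiftLeft (nat_lit 0x2800000801) (nat_lit 114)) (.one (nat_lit 0xa00000200300600800a00e614e81005481c711)) (.one (nat_lit 0xa00000200400600800a00e814e81005481c711))))))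
def t214 : k214.all (jb2 57 fl b0) = true := by decide +kernel
noncomputable def s10 : KT := (.br (nat_lit 0x500000400600800a00e800c0b141401c611) (.br (nat_lit 0x400000600800a00e000c01009501c511) (.br (nat_lit 0x200400600800a00e800c01005481d700) (.br (nat_lit 0x100400600800a00e800c01003441c760) k193 k194) (.br (nat_lit 0x300000600800a00e000c010074c1c511) k195 (.br (nat_lit 0x300400600800a00e800c010074c1c760) k196 k197))) (.br (nat_lit 0x100000500600800a00ea00c03041401c611) (.br (nat_lit 0x500000600800a00e000c0100b541c511) k198 (.br (nat_lit 0x700000600800a00e000c0100f5c1c511) k199 k200)) (.br (nat_lit 0x100200400600800a00e800c03045481c870) k201 (.br (nat_lit 0x500000100600800a00e200c0b141401c611) k202 k203)))) (.br (nat_lit 0x800000200600800a00e400c11201401c611) (.br (nat_lit 0x600000300600800a00e600c0d181401c611) (.br (nat_lit 0x600000100600800a00e200c0d181401c611) k204 k205) (.br (nat_lit 0x700000100600800a00e200c0f1c1401c611) k206 (.br (nat_lit 0x700000400600800a00e800c0f1c1401c611) k207 k208))) (.br (nat_lit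 0x500000100300600800a00e60ad41003441c711) (.br (nat_lit 0x900000300600800a00e600c13241401c611) k209 (.br (nat_lit 0x400000100300600800a00e608d01003441c711) k210 k211)) (.br (nat_lit 0x600000100300600800a00e60cd81003441c711) k212 (.br (nat_lit 0x700000200300600800a00e60edc1005481c711) k213 k214)))))
noncomputable def u10 : KT := (.one (nat_lit 0x600800a00e000c01001401c540))
def w10 : u10.all (wj 57 s10) = true := by decide +kernel
def o10 : OkW 57 (jb2 57 fl) u10 := .lift s10 _ (.br _ _ _ (.br _ _ _ (.br _ _ _ (.br _ _ _ (.leaf b0 k193 t193) (.leaf b0 k194 t194)) (.br _ _ _ (.leaf b0 k195 t195) (.br _ _ _ (.leaf b0 k196 t196) (.leaf b0 k197 t197)))) (.br _ _ _ (.br _ _ _ (.leaf b0 k198 t198) (.br _ _ _ (.leaf b200 k199 t199) (.leaf b0 k200 t200))) (.br _ _ _ (.leaf b0 k201 t201) (.br _ _ _ (.leaf b0 k202 t202) (.leaf b204 k203 t203))))) (.br _ _ _ (.br _ _ _ (.br _ _ _ (.leaf b205 k204 t204) (.leaf b206 k205 t205)) (.br _ _ _ (.leaf b207 k206 t206) (.br _ _ _ (.leaf b208 k207 t207) (.leaf b0 k208 t208)))) (.br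 _ _ _ (.br _ _ _ (.leaf b0 k209 t209) (.br _ _ _ (.leaf b0 k210 t210) (.leaf b212 k211 t211))) (.br _ _ _ (.leaf b213 k212 t212) (.br _ _ _ (.leaf b214 k213 t213) (.leaf b0 k214 t214)))))) w10
noncomputable def k215 : KT := (.br (Nat.shiftLeft (nat_lit 0x1) (nat_lit 114)) (.br (Nat.shiftLeft (nat_lit 0x1) (nat_lit 113)) (.br (Nat.shiftLeft (nat_lit 0x1) (nat_lit 112)) (.one (nat_lit 0x600800a00f000c01001401f500)) (.one (nat_lit 0x100600800a00f200c01001401f600))) (.br (Nat.shiftLeft (nat_lit 0x3) (nat_lit 112)) (.one (nat_lit 0x200600800a00f400c01001401f600)) (.one (nat_lit 0x300600800a00f600c01001401f600)))) (.br (Nat.shiftLeft (nat_lit 0x1) (nat_lit 124)) (.br (Nat.shiftLeft (nat_lit 0x5) (nat_lit 112)) (.one (nat_lit 0x400600800a00f800c01001401f600)) (.one (nat_lit 0x500600800a00fa00c01001401f600))) (.br (Nat.shiftLeft (nat_lit 0x801) (nat_lit 113)) (.one (nat_lit 0x100000600800a00f000c01003441e511)) (.br (Nat.shiftLeft (nat_lit 0x1003) (nat_lit 112)) (.one (nat_lit 0x100200600800a00f400c01003441f700)) (.one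 (nat_lit 0x100300600800a00f600c01003441e760))))))
def t215 : k215.all (jb2 57 fl b0) = true := by decide +kernel
noncomputable def k216 : KT := (.br (Nat.shiftLeft (nat_lit 0x1005) (nat_lit 112)) (.one (nat_lit 0x100400600800a00f800c01003441e760)) (.br (Nat.shiftLeft (nat_lit 0x1) (nat_lit 125)) (.one (nat_lit 0x100500600800a00fa00c01003441e760)) (.one (nat_lit 0x200000600800a00f000c01005481e511))))
def t216 : k216.all (jb2 57 fl b0) = true := by decide +kernel
noncomputable def k217 : KT := (.one (nat_lit 0x200300600800a00f600c01005481e760))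
def t217 : k217.all (jb2 57 fl b0) = true := by decide +kernel
noncomputable def k218 : KT := (.one (nat_lit 0x200400600800a00f800c01005481e760))
def t218 : k218.all (jb2 57 fl b0) = true := by decide +kernel
noncomputable def k219 : KT := (.br (Nat.shiftLeft (nat_lit 0x3) (nat_lit 124)) (.one (nat_lit 0x200500600800a00fa00c01005481e760)) (.one (nat_lit 0x300000600800a00f000c010074c1e511)))
def t219 : k219.all (jb2 57 fl b0) = true := by decide +kernel
noncomputable def k220 : KT := (.one (nat_lit 0x300400600800a00f800c010074c1e760))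
def t220 : k220.all (jb2 57 fl b0) = true := by decide +kernel
noncomputable def k221 : KT := (.br (Nat.shiftLeft (nat_lit 0x1) (nat_lit 126)) (.one (nat_lit 0x300500600800a00fa00c010074c1e760)) (.br (Nat.shiftLeft (nat_lit 0x1001) (nat_lit 114)) (.one (nat_lit 0x400000600800a00f000c01009501e511)) (.one (nat_lit 0x400500600800a00fa00c01009501e760))))
def t221 : k221.all (jb2 57 fl b0) = true := by decide +kernel
noncomputable def k222 : KT := (.br (Nat.shiftLeft (nat_lit 0x3) (nat_lit 125)) (.one (nat_lit 0x500000600800a00f000c0100b541e511)) (.br (Nat.shiftLeft (nat_lit 0x7) (nat_lit 124)) (.one (nat_lit 0x600000600800a00f000c0100d581e511)) (.one (nat_lit 0x700000600800a00f000c0100f5c1e511))))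
def t222 : k222.all (jb2 57 fl b0) = true := by decide +kernel
noncomputable def k223 : KT := (.br (Nat.shiftLeft (nat_lit 0x1000001) (nat_lit 113)) (.br (Nat.shiftLeft (nat_lit 0x800001) (nat_lit 113)) (.br (Nat.shiftLeft (nat_lit 0x5) (nat_lit 125)) (.br (Nat.shiftLeft (nat_lit 0x9) (nat_lit 124)) (.one (nat_lit 0x800000600800a00f000c01011601e511)) (.one (nat_lit 0x900000600800a00f000c01013641e511))) (.br (Nat.shiftLeft (nat_lit 0x1) (nat_lit 136)) (.one (nat_lit 0xa00000600800a00f000c01015681e511)) (.one (nat_lit 0x100000100600800a00f200c03041401e611)))) (.br (Nat.shiftLeft (nat_lit 0x400001) (nat_lit 114)) (.br (Nat.shiftLeft (nat_lit 0x1000003) (nat_lit 112)) (.one (nat_lit 0x100000200600800a00f400c03041401e611)) (.one (nat_lit 0x100000300600800a00f600c03041401e611))) (.br (Nat.shiftLeft (nat_lit 0x1000005) (nat_lit 112)) (.one (nat_lit 0x100000400600800a00f800c03041401e611)) (.br (Nat.shiftLeft (nat_lit 0x1) (nat_lit 137)) (.one (nat_lit 0x100000500600800a00fa00c03041401e611)) (.one (nat_lit 0x200000100600800a00f200c05081401e611))))))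 (.br (Nat.shiftLeft (nat_lit 0x1800001) (nat_lit 113)) (.br (Nat.shiftLeft (nat_lit 0x800001) (nat_lit 114)) (.br (Nat.shiftLeft (nat_lit 0x2000003) (nat_lit 112)) (.one (nat_lit 0x200000200600800a00f400c05081401e611)) (.one (nat_lit 0x200000300600800a00f600c05081401e611))) (.br (Nat.shiftLeft (nat_lit 0x2000005) (nat_lit 112)) (.one (nat_lit 0x200000400600800a00f800c05081401e611)) (.br (Nat.shiftLeft (nat_lit 0x3) (nat_lit 136)) (.one (nat_lit 0x200000500600800a00fa00c05081401e611)) (.one (nat_lit 0x300000100600800a00f200c070c1401e611))))) (.br (Nat.shiftLeft (nat_lit 0xc00001) (nat_lit 114)) (.br (Nat.shiftLeft (nat_lit 0x3000003) (nat_lit 112)) (.one (nat_lit 0x300000200600800a00f400c070c1401e611)) (.one (nat_lit 0x300000300600800a00f600c070c1401e611))) (.br (Nat.shiftLeft (nat_lit 0x3000005) (nat_lit 112)) (.one (nat_lit 0x300000400600800a00f800c070c1401e611)) (.br (Nat.shiftLeft (nat_lit 0x1) (nat_lit 138)) (.one (nat_lit 0x300000500600800a00fa00c070c1401e611)) (.one (nat_lit 0x400000100600800a00f200c09101401e611)))))))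
def t223 : k223.all (jb2 57 fl b0) = true := by decide +kernel
noncomputable def k224 : KT := (.br (Nat.shiftLeft (nat_lit 0x4000005) (nat_lit 112)) (.br (Nat.shiftLeft (nat_lit 0x4000003) (nat_lit 112)) (.one (nat_lit 0x400000200600800a00f400c09101401e611)) (.br (Nat.shiftLeft (nat_lit 0x1000001) (nat_lit 114)) (.one (nat_lit 0x400000300600800a00f600c09101401e611)) (.one (nat_lit 0x400000400600800a00f800c09101401e611)))) (.br (Nat.shiftLeft (nat_lit 0x5) (nat_lit 136)) (.one (nat_lit 0x400000500600800a00fa00c09101401e611)) (.br (Nat.shiftLeft (nat_lit 0x2800001) (nat_lit 113)) (.one (nat_lit 0x500000100600800a00f200c0b141401e611)) (.one (nat_lit 0x500000200600800a00f400c0b141401e611)))))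
def t224 : k224.all (jb2 57 fl b0) = true := by decide +kernel
noncomputable def k225 : KT := (.br (Nat.shiftLeft (nat_lit 0x5000005) (nat_lit 112)) (.br (Nat.shiftLeft (nat_lit 0x1400001) (nat_lit 114)) (.one (nat_lit 0x500000300600800a00f600c0b141401e611)) (.one (nat_lit 0x500000400600800a00f800c0b141401e611))) (.br (Nat.shiftLeft (nat_lit 0x3) (nat_lit 137)) (.one (nat_lit 0x500000500600800a00fa00c0b141401e611)) (.one (nat_lit 0x600000100600800a00f200c0d181401e611))))
def t225 : k225.all (jb2 57 fl b0) = true := by decide +kernel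
noncomputable def k226 : KT := (.br (Nat.shiftLeft (nat_lit 0x1800001) (nat_lit 114)) (.br (Nat.shiftLeft (nat_lit 0x6000003) (nat_lit 112)) (.one (nat_lit 0x600000200600800a00f400c0d181401e611)) (.one (nat_lit 0x600000300600800a00f600c0d181401e611))) (.br (Nat.shiftLeft (nat_lit 0x6000005) (nat_lit 112)) (.one (nat_lit 0x600000400600800a00f800c0d181401e611)) (.one (nat_lit 0x600000500600800a00fa00c0d181401e611))))
def t226 : k226.all (jb2 57 fl b0) = true := by decide +kernel
noncomputable def k227 : KT := (.br (Nat.shiftLeft (nat_lit 0x3800001) (nat_lit 113)) (.one (nat_lit 0x700000100600800a00f200c0f1c1401e611)) (.br (Nat.shiftLeft (nat_lit 0x7000003) (nat_lit 112)) (.one (nat_lit 0x700000200600800a00f400c0f1c1401e611)) (.one (nat_lit 0x700000300600800a00f600c0f1c1401e611))))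
def t227 : k227.all (jb2 57 fl b0) = true := by decide +kernel
noncomputable def k228 : KT := (.br (Nat.shiftLeft (nat_lit 0x4000001) (nat_lit 113)) (.br (Nat.shiftLeft (nat_lit 0x7000005) (nat_lit 112)) (.one (nat_lit 0x700000400600800a00f800c0f1c1401e611)) (.br (Nat.shiftLeft (nat_lit 0x1) (nat_lit 139)) (.one (nat_lit 0x700000500600800a00fa00c0f1c1401e611)) (.one (nat_lit 0x800000100600800a00f200c11201401e611)))) (.br (Nat.shiftLeft (nat_lit 0x2000001) (nat_lit 114)) (.br (Nat.shiftLeft (nat_lit 0x8000003) (nat_lit 112)) (.one (nat_lit 0x800000200600800a00f400c11201401e611)) (.one (nat_lit 0x800000300600800a00f600c11201401e611))) (.br (Nat.shiftLeft (nat_lit 0x8000005) (nat_lit 112)) (.one (nat_lit 0x800000400600800a00f800c11201401e611)) (.one (nat_lit 0x800000500600800a00fa00c11201401e611)))))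
def t228 : k228.all (jb2 57 fl b0) = true := by decide +kernel
noncomputable def k229 : KT := (.br (Nat.shiftLeft (nat_lit 0xa000003) (nat_lit 112)) (.br (Nat.shiftLeft (nat_lit 0x2400001) (nat_lit 114)) (.br (Nat.shiftLeft (nat_lit 0x4800001) (nat_lit 113)) (.one (nat_lit 0x900000100600800a00f200c13241401e611)) (.br (Nat.shiftLeft (nat_lit 0x9000003) (nat_lit 112)) (.one (nat_lit 0x900000200600800a00f400c13241401e611)) (.one (nat_lit 0x900000300600800a00f600c13241401e611)))) (.br (Nat.shiftLeft (nat_lit 0x5) (nat_lit 137)) (.br (Nat.shiftLeft (nat_lit 0x9000005) (nat_lit 112)) (.one (nat_lit 0x900000400600800a00f800c13241401e611)) (.one (nat_lit 0x900000500600800a00fa00c13241401e611))) (.br (Nat.shiftLeft (nat_lit 0x5000001) (nat_lit 113)) (.one (nat_lit 0xa00000100600800a00f200c15281401e611)) (.one (nat_lit 0xa00000200600800a00f400c15281401e611))))) (.br (Nat.shiftLeft (nat_lit 0x1) (nat_lit 148)) (.br (Nat.shiftLeft (nat_lit 0x2800001) (nat_lit 114)) (.one (nat_lit 0xa00000300600800a00f600c15281401e611))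 (.br (Nat.shiftLeft (nat_lit 0xa000005) (nat_lit 112)) (.one (nat_lit 0xa00000400600800a00f800c15281401e611)) (.one (nat_lit 0xa00000500600800a00fa00c15281401e611)))) (.br (Nat.shiftLeft (nat_lit 0x3) (nat_lit 148)) (.br (Nat.shiftLeft (nat_lit 0x1) (nat_lit 149)) (.one (nat_lit 0x100000100200600800a00f402c41003441e711)) (.one (nat_lit 0x200000100200600800a00f404c81003441e711))) (.br (Nat.shiftLeft (nat_lit 0x1) (nat_lit 150)) (.one (nat_lit 0x300000100200600800a00f406cc1003441e711)) (.one (nat_lit 0x400000100200600800a00f408d01003441e711))))))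
def t229 : k229.all (jb2 57 fl b0) = true := by decide +kernel
noncomputable def k230 : KT := (.br (Nat.shiftLeft (nat_lit 0x1) (nat_lit 151)) (.br (Nat.shiftLeft (nat_lit 0x3) (nat_lit 149)) (.one (nat_lit 0x500000100200600800a00f40ad41003441e711)) (.br (Nat.shiftLeft (nat_lit 0x7) (nat_lit 148)) (.one (nat_lit 0x600000100200600800a00f40cd81003441e711)) (.one (nat_lit 0x700000100200600800a00f40edc1003441e711)))) (.br (Nat.shiftLeft (nat_lit 0x9) (nat_lit 148)) (.one (nat_lit 0x800000100200600800a00f410e01003441e711)) (.br (Nat.shiftLeft (nat_lit 0x5) (nat_lit 149)) (.one (nat_lit 0x900000100200600800a00f412e41003441e711)) (.one (nat_lit 0xa00000100200600800a00f414e81003441e711)))))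
def t230 : k230.all (jb2 57 fl b0) = true := by decide +kernel
noncomputable def s11 : KT := (.br (nat_lit 0x700000600800a00f000c0100f5c1e511) (.br (nat_lit 0x200400600800a00f800c01005481e760) (.br (nat_lit 0x200000600800a00f000c01005481e511) (.br (nat_lit 0x100300600800a00f600c01003441e760) k215 k216) (.br (nat_lit 0x200300600800a00f600c01005481e760) k217 k218)) (.br (nat_lit 0x300400600800a00f800c010074c1e760) (.br (nat_lit 0x300000600800a00f000c010074c1e511) k219 k220) (.br (nat_lit 0x400500600800a00fa00c01009501e760) k221 k222))) (.br (nat_lit 0x600000500600800a00fa00c0d181401e611) (.br (nat_lit 0x500000200600800a00f400c0b141401e611) (.br (nat_lit 0x400000100600800a00f200c09101401e611) k223 k224) (.br (nat_lit 0x600000100600800a00f200c0d181401e611) k225 k226)) (.br (nat_lit 0x800000500600800a00fa00c11201401e611) (.br (nat_lit 0x700000300600800a00f600c0f1c1401e611) k227 k228) (.br (nat_lit 0x400000100200600800a00f408d01003441e711) k229 k230))))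
noncomputable def u11 : KT := (.one (nat_lit 0x600800a00f000c01001401e540))
def w11 : u11.all (wj 57 s11) = true := by decide +kernel
def o11 : OkW 57 (jb2 57 fl) u11 := .lift s11 _ (.br _ _ _ (.br _ _ _ (.br _ _ _ (.br _ _ _ (.leaf b0 k215 t215) (.leaf b0 k216 t216)) (.br _ _ _ (.leaf b0 k217 t217) (.leaf b0 k218 t218))) (.br _ _ _ (.br _ _ _ (.leaf b0 k219 t219) (.leaf b0 k220 t220)) (.br _ _ _ (.leaf b0 k221 t221) (.leaf b0 k222 t222)))) (.br _ _ _ (.br _ _ _ (.br _ _ _ (.leaf b0 k223 t223) (.leaf b0 k224 t224)) (.br _ _ _ (.leaf b0 k225 t225) (.leaf b0 k226 t226))) (.br _ _ _ (.br _ _ _ (.leaf b0 k227 t227) (.leaf b0 k228 t228)) (.br _ _ _ (.leaf b0 k229 t229) (.leaf b0 k230 t230))))) w11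
noncomputable def k231 : KT := (.br (Nat.shiftLeft (nat_lit 0x3004005009) (nat_lit 65)) (.br (Nat.shiftLeft (nat_lit 0x600800a011) (nat_lit 64)) (.one (nat_lit 0x600800a010000c010014021500)) (.one (nat_lit 0x600800a011000c010014023500))) (.br (Nat.shiftLeft (nat_lit 0x1) (nat_lit 112)) (.one (nat_lit 0x600800a012000c010014025500)) (.br (Nat.shiftLeft (nat_lit 0x100600800a011) (nat_lit 64)) (.one (nat_lit 0x100600800a010200c010014021600)) (.one (nat_lit 0x100600800a011200c010014022650)))))
def t231 : k231.all (jb2 57 fl b0) = true := by decide +kernel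
noncomputable def k232 : KT := (.br (Nat.shiftLeft (nat_lit 0x1) (nat_lit 113)) (.one (nat_lit 0x100600800a012200c010014024650)) (.br (Nat.shiftLeft (nat_lit 0x200600800a011) (nat_lit 64)) (.one (nat_lit 0x200600800a010400c010014021600)) (.one (nat_lit 0x200600800a011400c010014023600))))
def t232 : k232.all (jb2 57 fl b0) = true := by decide +kernel
noncomputable def k233 : KT := (.br (Nat.shiftLeft (nat_lit 0x3) (nat_lit 112)) (.one (nat_lit 0x200600800a012400c010014024650)) (.br (Nat.shiftLeft (nat_lit 0x300600800a011) (nat_lit 64)) (.one (nat_lit 0x300600800a010600c010014021600)) (.one (nat_lit 0x300600800a011600c010014023600))))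
def t233 : k233.all (jb2 57 fl b0) = true := by decide +kernel
noncomputable def k234 : KT := (.br (Nat.shiftLeft (nat_lit 0x1) (nat_lit 114)) (.one (nat_lit 0x300600800a012600c010014024650)) (.br (Nat.shiftLeft (nat_lit 0x400600800a011) (nat_lit 64)) (.one (nat_lit 0x400600800a010800c010014021600)) (.one (nat_lit 0x400600800a011800c010014023600))))
def t234 : k234.all (jb2 57 fl b0) = true := by decide +kernel
noncomputable def k235 : KT := (.br (Nat.shiftLeft (nat_lit 0x5) (nat_lit 112)) (.one (nat_lit 0x400600800a012800c010014024650)) (.one (nat_lit 0x500600800a010a00c010014021600)))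
def t235 : k235.all (jb2 57 fl b0) = true := by decide +kernel
noncomputable def k236 : KT := (.one (nat_lit 0x500600800a011a00c010014022650))
def t236 : k236.all (jb2 57 fl b0) = true := by decide +kernel
noncomputable def k237 : KT := (.br (Nat.shiftLeft (nat_lit 0x100000600800a011) (nat_lit 64)) (.br (Nat.shiftLeft (nat_lit 0x1) (nat_lit 124)) (.one (nat_lit 0x500600800a012a00c010014024650)) (.one (nat_lit 0x100000600800a010000c010034420511))) (.br (Nat.shiftLeft (nat_lit 0x800003004005009) (nat_lit 65)) (.one (nat_lit 0x100000600800a011000c010034422511)) (.one (nat_lit 0x100000600800a012000c010034424511))))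
def t237 : k237.all (jb2 57 fl b0) = true := by decide +kernel
noncomputable def k238 : KT := (.one (nat_lit 0x100200600800a010400c010034420760))
def t238 : k238.all (jb2 57 fl b0) = true := by decide +kernel
noncomputable def k239 : KT := (.one (nat_lit 0x100200600800a011400c010034422760))
def t239 : k239.all (jb2 57 fl b0) = true := by decide +kernel
noncomputable def k240 : KT := (.br (Nat.shiftLeft (nat_lit 0x100300600800a011) (nat_lit 64)) (.one (nat_lit 0x100300600800a010600c010034420760)) (.one (nat_lit 0x100300600800a011600c010034422760)))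
def t240 : k240.all (jb2 57 fl b0) = true := by decide +kernel
noncomputable def k241 : KT := (.br (Nat.shiftLeft (nat_lit 0x1) (nat_lit 125)) (.br (Nat.shiftLeft (nat_lit 0x100400600800a011) (nat_lit 64)) (.one (nat_lit 0x100400600800a010800c010034420760)) (.br (Nat.shiftLeft (nat_lit 0x1005) (nat_lit 112)) (.one (nat_lit 0x100400600800a011800c010034422760)) (.one (nat_lit 0x100500600800a010a00c010034420760)))) (.br (Nat.shiftLeft (nat_lit 0x200000600800a011) (nat_lit 64)) (.one (nat_lit 0x200000600800a010000c010054820511)) (.br (Nat.shiftLeft (nat_lit 0x1000003004005009) (nat_lit 65)) (.one (nat_lit 0x200000600800a011000c010054822511)) (.one (nat_lit 0x200000600800a012000c010054824511)))))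
def t241 : k241.all (jb2 57 fl b0) = true := by decide +kernel
noncomputable def k242 : KT := (.one (nat_lit 0x200300600800a010600c010054820760))
def t242 : k242.all (jb2 57 fl b0) = true := by decide +kernel
noncomputable def k243 : KT := (.br (Nat.shiftLeft (nat_lit 0x801) (nat_lit 114)) (.one (nat_lit 0x200300600800a011600c010054822760)) (.one (nat_lit 0x200400600800a010800c010054820760)))
def t243 : k243.all (jb2 57 fl b0) = true := by decide +kernel
noncomputable def k244 : KT := (.br (Nat.shiftLeft (nat_lit 0x3) (nat_lit 124)) (.br (Nat.shiftLeft (nat_lit 0x2005) (nat_lit 112)) (.one (nat_lit 0x200400600800a011800c010054822760)) (.one (nat_lit 0x200500600800a010a00c010054820760))) (.br (Nat.shiftLeft (nat_lit 0x300000600800a011) (nat_lit 64)) (.one (nat_lit 0x300000600800a010000c010074c20511)) (.br (Nat.shiftLeft (nat_lit 0x1800003004005009) (nat_lit 65)) (.one (nat_lit 0x300000600800a011000c010074c22511)) (.one (nat_lit 0x300000600800a012000c010074c24511)))))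
def t244 : k244.all (jb2 57 fl b0) = true := by decide +kernel
noncomputable def k245 : KT := (.br (Nat.shiftLeft (nat_lit 0x300400600800a011) (nat_lit 64)) (.one (nat_lit 0x300400600800a010800c010074c20760)) (.br (Nat.shiftLeft (nat_lit 0x3005) (nat_lit 112)) (.one (nat_lit 0x300400600800a011800c010074c22760)) (.one (nat_lit 0x300500600800a010a00c010074c20760))))
def t245 : k245.all (jb2 57 fl b0) = true := by decide +kernel
noncomputable def k246 : KT := (.br (Nat.shiftLeft (nat_lit 0x1001) (nat_lit 114)) (.br (Nat.shiftLeft (nat_lit 0x400000600800a011) (nat_lit 64)) (.one (nat_lit 0x400000600800a010000c010095020511)) (.br (Nat.shiftLeft (nat_lit 0x2000003004005009) (nat_lit 65)) (.one (nat_lit 0x400000600800a011000c010095022511)) (.one (nat_lit 0x400000600800a012000c010095024511)))) (.br (Nat.shiftLeft (nat_lit 0x500000600800a011) (nat_lit 64)) (.br (Nat.shiftLeft (nat_lit 0x5) (nat_lit 124)) (.one (nat_lit 0x400500600800a010a00c010095020760)) (.one (nat_lit 0x500000600800a010000c0100b5420511))) (.br (Nat.shiftLeft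 (nat_lit 0x2800003004005009) (nat_lit 65)) (.one (nat_lit 0x500000600800a011000c0100b5422511)) (.one (nat_lit 0x500000600800a012000c0100b5424511)))))
def t246 : k246.all (jb2 57 fl b0) = true := by decide +kernel
noncomputable def k247 : KT := (.br (Nat.shiftLeft (nat_lit 0x3000003004005009) (nat_lit 65)) (.br (Nat.shiftLeft (nat_lit 0x600000600800a011) (nat_lit 64)) (.one (nat_lit 0x600000600800a010000c0100d5820511)) (.one (nat_lit 0x600000600800a011000c0100d5822511))) (.br (Nat.shiftLeft (nat_lit 0x7) (nat_lit 124)) (.one (nat_lit 0x600000600800a012000c0100d5824511)) (.one (nat_lit 0x700000600800a010000c0100f5c20511))))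
def t247 : k247.all (jb2 57 fl b0) = true := by decide +kernel
noncomputable def k248 : KT := (.br (Nat.shiftLeft (nat_lit 0x800000600800a011) (nat_lit 64)) (.br (Nat.shiftLeft (nat_lit 0x3800003004005009) (nat_lit 65)) (.one (nat_lit 0x700000600800a011000c0100f5c22511)) (.br (Nat.shiftLeft (nat_lit 0x1) (nat_lit 127)) (.one (nat_lit 0x700000600800a012000c0100f5c24511)) (.one (nat_lit 0x800000600800a010000c010116020511)))) (.br (Nat.shiftLeft (nat_lit 0x4000003004005009) (nat_lit 65)) (.one (nat_lit 0x800000600800a011000c010116022511)) (.br (Nat.shiftLeft (nat_lit 0x9) (nat_lit 124)) (.one (nat_lit 0x800000600800a012000c010116024511)) (.one (nat_lit 0x900000600800a010000c010136420511)))))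
def t248 : k248.all (jb2 57 fl b0) = true := by decide +kernel
noncomputable def k249 : KT := (.br (Nat.shiftLeft (nat_lit 0x2000003) (nat_lit 112)) (.br (Nat.shiftLeft (nat_lit 0x1000003) (nat_lit 112)) (.br (Nat.shiftLeft (nat_lit 0x5000003004005009) (nat_lit 65)) (.br (Nat.shiftLeft (nat_lit 0x5) (nat_lit 125)) (.br (Nat.shiftLeft (nat_lit 0x4800003004005009) (nat_lit 65)) (.one (nat_lit 0x900000600800a011000c010136422511)) (.one (nat_lit 0x900000600800a012000c010136424511))) (.br (Nat.shiftLeft (nat_lit 0xa00000600800a011) (nat_lit 64)) (.one (nat_lit 0xa00000600800a010000c010156820511)) (.one (nat_lit 0xa00000600800a011000c010156822511)))) (.br (Nat.shiftLeft (nat_lit 0x800001) (nat_lit 113)) (.br (Nat.shiftLeft (nat_lit 0x1) (nat_lit 136)) (.one (nat_lit 0xa00000600800a012000c010156824511)) (.one (nat_lit 0x100000100600800a010200c030414020611))) (.br (Nat.shiftLeft (nat_lit 0x100000200600800a011) (nat_lit 64)) (.one (nat_lit 0x100000200600800a010400c030414020611)) (.one (nat_lit 0x100000200600800a011400c030414022611)))))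 (.br (Nat.shiftLeft (nat_lit 0x1000005) (nat_lit 112)) (.br (Nat.shiftLeft (nat_lit 0x400001) (nat_lit 114)) (.br (Nat.shiftLeft (nat_lit 0x100000300600800a011) (nat_lit 64)) (.one (nat_lit 0x100000300600800a010600c030414020611)) (.one (nat_lit 0x100000300600800a011600c030414022611))) (.br (Nat.shiftLeft (nat_lit 0x100000400600800a011) (nat_lit 64)) (.one (nat_lit 0x100000400600800a010800c030414020611)) (.one (nat_lit 0x100000400600800a011800c030414022611)))) (.br (Nat.shiftLeft (nat_lit 0x1000001) (nat_lit 113)) (.br (Nat.shiftLeft (nat_lit 0x1) (nat_lit 137)) (.one (nat_lit 0x100000500600800a010a00c030414020611)) (.one (nat_lit 0x200000100600800a010200c050814020611))) (.br (Nat.shiftLeft (nat_lit 0x200000200600800a011) (nat_lit 64)) (.one (nat_lit 0x200000200600800a010400c050814020611)) (.one (nat_lit 0x200000200600800a011400c050814022611)))))) (.br (Nat.shiftLeft (nat_lit 0x3000003) (nat_lit 112)) (.br (Nat.shiftLeft (nat_lit 0x2000005) (nat_lit 112)) (.br (Nat.shiftLeft (nat_lit 0x800001) (nat_lit 114))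 (.br (Nat.shiftLeft (nat_lit 0x200000300600800a011) (nat_lit 64)) (.one (nat_lit 0x200000300600800a010600c050814020611)) (.one (nat_lit 0x200000300600800a011600c050814022611))) (.br (Nat.shiftLeft (nat_lit 0x200000400600800a011) (nat_lit 64)) (.one (nat_lit 0x200000400600800a010800c050814020611)) (.one (nat_lit 0x200000400600800a011800c050814022611)))) (.br (Nat.shiftLeft (nat_lit 0x1800001) (nat_lit 113)) (.br (Nat.shiftLeft (nat_lit 0x3) (nat_lit 136)) (.one (nat_lit 0x200000500600800a010a00c050814020611)) (.one (nat_lit 0x300000100600800a010200c070c14020611))) (.br (Nat.shiftLeft (nat_lit 0x300000200600800a011) (nat_lit 64)) (.one (nat_lit 0x300000200600800a010400c070c14020611)) (.one (nat_lit 0x300000200600800a011400c070c14022611))))) (.br (Nat.shiftLeft (nat_lit 0x3000005) (nat_lit 112)) (.br (Nat.shiftLeft (nat_lit 0xc00001) (nat_lit 114)) (.br (Nat.shiftLeft (nat_lit 0x300000300600800a011) (nat_lit 64)) (.one (nat_lit 0x300000300600800a010600c070c14020611)) (.one (nat_lit 0x300000300600800a011600c070c14022611)))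 (.br (Nat.shiftLeft (nat_lit 0x300000400600800a011) (nat_lit 64)) (.one (nat_lit 0x300000400600800a010800c070c14020611)) (.one (nat_lit 0x300000400600800a011800c070c14022611)))) (.br (Nat.shiftLeft (nat_lit 0x2000001) (nat_lit 113)) (.br (Nat.shiftLeft (nat_lit 0x1) (nat_lit 138)) (.one (nat_lit 0x300000500600800a010a00c070c14020611)) (.one (nat_lit 0x400000100600800a010200c091014020611))) (.br (Nat.shiftLeft (nat_lit 0x400000200600800a011) (nat_lit 64)) (.one (nat_lit 0x400000200600800a010400c091014020611)) (.br (Nat.shiftLeft (nat_lit 0x4000003) (nat_lit 112)) (.one (nat_lit 0x400000200600800a011400c091014022611)) (.one (nat_lit 0x400000300600800a010600c091014020611))))))))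
def t249 : k249.all (jb2 57 fl b0) = true := by decide +kernel
noncomputable def k250 : KT := (.br (Nat.shiftLeft (nat_lit 0x5) (nat_lit 136)) (.br (Nat.shiftLeft (nat_lit 0x400000400600800a011) (nat_lit 64)) (.br (Nat.shiftLeft (nat_lit 0x1000001) (nat_lit 114)) (.one (nat_lit 0x400000300600800a011600c091014022611)) (.one (nat_lit 0x400000400600800a010800c091014020611))) (.br (Nat.shiftLeft (nat_lit 0x4000005) (nat_lit 112)) (.one (nat_lit 0x400000400600800a011800c091014022611)) (.one (nat_lit 0x400000500600800a010a00c091014020611)))) (.br (Nat.shiftLeft (nat_lit 0x500000200600800a011) (nat_lit 64)) (.br (Nat.shiftLeft (nat_lit 0x2800001) (nat_lit 113)) (.one (nat_lit 0x500000100600800a010200c0b1414020611)) (.one (nat_lit 0x500000200600800a010400c0b1414020611))) (.br (Nat.shiftLeft (nat_lit 0x5000003) (nat_lit 112)) (.one (nat_lit 0x500000200600800a011400c0b1414022611)) (.one (nat_lit 0x500000300600800a010600c0b1414020611)))))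
def t250 : k250.all (jb2 57 fl b0) = true := by decide +kernel
noncomputable def k251 : KT := (.br (Nat.shiftLeft (nat_lit 0x5000005) (nat_lit 112)) (.br (Nat.shiftLeft (nat_lit 0x1400001) (nat_lit 114)) (.one (nat_lit 0x500000300600800a011600c0b1414022611)) (.br (Nat.shiftLeft (nat_lit 0x500000400600800a011) (nat_lit 64)) (.one (nat_lit 0x500000400600800a010800c0b1414020611)) (.one (nat_lit 0x500000400600800a011800c0b1414022611)))) (.br (Nat.shiftLeft (nat_lit 0x3) (nat_lit 137)) (.one (nat_lit 0x500000500600800a010a00c0b1414020611)) (.br (Nat.shiftLeft (nat_lit 0x3000001) (nat_lit 113)) (.one (nat_lit 0x600000100600800a010200c0d1814020611)) (.one (nat_lit 0x600000200600800a010400c0d1814020611)))))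
def t251 : k251.all (jb2 57 fl b0) = true := by decide +kernel
noncomputable def k252 : KT := (.br (Nat.shiftLeft (nat_lit 0x1800001) (nat_lit 114)) (.br (Nat.shiftLeft (nat_lit 0x6000003) (nat_lit 112)) (.one (nat_lit 0x600000200600800a011400c0d1814022611)) (.br (Nat.shiftLeft (nat_lit 0x600000300600800a011) (nat_lit 64)) (.one (nat_lit 0x600000300600800a010600c0d1814020611)) (.one (nat_lit 0x600000300600800a011600c0d1814022611)))) (.br (Nat.shiftLeft (nat_lit 0x6000005) (nat_lit 112)) (.br (Nat.shiftLeft (nat_lit 0x600000400600800a011) (nat_lit 64)) (.one (nat_lit 0x600000400600800a010800c0d1814020611)) (.one (nat_lit 0x600000400600800a011800c0d1814022611))) (.br (Nat.shiftLeft (nat_lit 0x7) (nat_lit 136)) (.one (nat_lit 0x600000500600800a010a00c0d1814020611)) (.one (nat_lit 0x700000100600800a010200c0f1c14020611)))))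
def t252 : k252.all (jb2 57 fl b0) = true := by decide +kernel
noncomputable def k253 : KT := (.br (Nat.shiftLeft (nat_lit 0x1c00001) (nat_lit 114)) (.br (Nat.shiftLeft (nat_lit 0x7000003) (nat_lit 112)) (.br (Nat.shiftLeft (nat_lit 0x700000200600800a011) (nat_lit 64)) (.one (nat_lit 0x700000200600800a010400c0f1c14020611)) (.one (nat_lit 0x700000200600800a011400c0f1c14022611))) (.br (Nat.shiftLeft (nat_lit 0x700000300600800a011) (nat_lit 64)) (.one (nat_lit 0x700000300600800a010600c0f1c14020611)) (.one (nat_lit 0x700000300600800a011600c0f1c14022611)))) (.br (Nat.shiftLeft (nat_lit 0x7000005) (nat_lit 112)) (.br (Nat.shiftLeft (nat_lit 0x700000400600800a011) (nat_lit 64)) (.one (nat_lit 0x700000400600800a010800c0f1c14020611)) (.one (nat_lit 0x700000400600800a011800c0f1c14022611))) (.br (Nat.shiftLeft (nat_lit 0x1) (nat_lit 139)) (.one (nat_lit 0x700000500600800a010a00c0f1c14020611)) (.br (Nat.shiftLeft (nat_lit 0x4000001) (nat_lit 113)) (.one (nat_lit 0x800000100600800a010200c112014020611)) (.one (nat_lit 0x800000200600800a010400c112014020611))))))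
def t253 : k253.all (jb2 57 fl b0) = true := by decide +kernel
noncomputable def k254 : KT := (.br (Nat.shiftLeft (nat_lit 0x2400001) (nat_lit 114)) (.br (Nat.shiftLeft (nat_lit 0x8000005) (nat_lit 112)) (.br (Nat.shiftLeft (nat_lit 0x800000300600800a011) (nat_lit 64)) (.br (Nat.shiftLeft (nat_lit 0x8000003) (nat_lit 112)) (.one (nat_lit 0x800000200600800a011400c112014022611)) (.one (nat_lit 0x800000300600800a010600c112014020611))) (.br (Nat.shiftLeft (nat_lit 0x2000001) (nat_lit 114)) (.one (nat_lit 0x800000300600800a011600c112014022611)) (.br (Nat.shiftLeft (nat_lit 0x800000400600800a011) (nat_lit 64)) (.one (nat_lit 0x800000400600800a010800c112014020611)) (.one (nat_lit 0x800000400600800a011800c112014022611))))) (.br (Nat.shiftLeft (nat_lit 0x900000200600800a011) (nat_lit 64)) (.br (Nat.shiftLeft (nat_lit 0x9) (nat_lit 136)) (.one (nat_lit 0x800000500600800a010a00c112014020611)) (.br (Nat.shiftLeft (nat_lit 0x4800001) (nat_lit 113)) (.one (nat_lit 0x900000100600800a010200c132414020611)) (.one (nat_lit 0x900000200600800a010400c132414020611))))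 (.br (Nat.shiftLeft (nat_lit 0x9000003) (nat_lit 112)) (.one (nat_lit 0x900000200600800a011400c132414022611)) (.br (Nat.shiftLeft (nat_lit 0x900000300600800a011) (nat_lit 64)) (.one (nat_lit 0x900000300600800a010600c132414020611)) (.one (nat_lit 0x900000300600800a011600c132414022611)))))) (.br (Nat.shiftLeft (nat_lit 0xa00000200600800a011) (nat_lit 64)) (.br (Nat.shiftLeft (nat_lit 0x9000005) (nat_lit 112)) (.br (Nat.shiftLeft (nat_lit 0x900000400600800a011) (nat_lit 64)) (.one (nat_lit 0x900000400600800a010800c132414020611)) (.one (nat_lit 0x900000400600800a011800c132414022611))) (.br (Nat.shiftLeft (nat_lit 0x5) (nat_lit 137)) (.one (nat_lit 0x900000500600800a010a00c132414020611)) (.br (Nat.shiftLeft (nat_lit 0x5000001) (nat_lit 113)) (.one (nat_lit 0xa00000100600800a010200c152814020611)) (.one (nat_lit 0xa00000200600800a010400c152814020611))))) (.br (Nat.shiftLeft (nat_lit 0x2800001) (nat_lit 114)) (.br (Nat.shiftLeft (nat_lit 0xa000003) (nat_lit 112)) (.one (nat_lit 0xa00000200600800a011400c152814022611))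 (.br (Nat.shiftLeft (nat_lit 0xa00000300600800a011) (nat_lit 64)) (.one (nat_lit 0xa00000300600800a010600c152814020611)) (.one (nat_lit 0xa00000300600800a011600c152814022611)))) (.br (Nat.shiftLeft (nat_lit 0xa00000400600800a011) (nat_lit 64)) (.one (nat_lit 0xa00000400600800a010800c152814020611)) (.br (Nat.shiftLeft (nat_lit 0xa000005) (nat_lit 112)) (.one (nat_lit 0xa00000400600800a011800c152814022611)) (.one (nat_lit 0xa00000500600800a010a00c152814020611)))))))
def t254 : k254.all (jb2 57 fl b0) = true := by decide +kernel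
noncomputable def s12 : KT := (.br (nat_lit 0x200300600800a010600c010054820760) (.br (nat_lit 0x500600800a011a00c010014022650) (.br (nat_lit 0x300600800a011600c010014023600) (.br (nat_lit 0x100600800a011200c010014022650) k231 (.br (nat_lit 0x200600800a011400c010014023600) k232 k233)) (.br (nat_lit 0x400600800a011800c010014023600) k234 (.br (nat_lit 0x500600800a010a00c010014021600) k235 k236))) (.br (nat_lit 0x100200600800a011400c010034422760) (.br (nat_lit 0x100000600800a012000c010034424511) k237 (.br (nat_lit 0x100200600800a010400c010034420760) k238 k239)) (.br (nat_lit 0x100300600800a011600c010034422760) k240 (.br (nat_lit 0x200000600800a012000c010054824511) k241 k242)))) (.br (nat_lit 0x900000600800a010000c010136420511) (.br (nat_lit 0x300500600800a010a00c010074c20760) (.br (nat_lit 0x200400600800a010800c010054820760) k243 (.br (nat_lit 0x300000600800a012000c010074c24511) k244 k245)) (.br (nat_lit 0x500000600800a012000c0100b5424511) k246 (.br (nat_lit 0x700000600800a010000c0100f5c20511) k247 k248))) (.br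 (nat_lit 0x600000200600800a010400c0d1814020611) (.br (nat_lit 0x400000300600800a010600c091014020611) k249 (.br (nat_lit 0x500000300600800a010600c0b1414020611) k250 k251)) (.br (nat_lit 0x700000100600800a010200c0f1c14020611) k252 (.br (nat_lit 0x800000200600800a010400c112014020611) k253 k254)))))
noncomputable def u12 : KT := (.br (Nat.shiftLeft (nat_lit 0x600800a011) (nat_lit 64)) (.one (nat_lit 0x600800a010000c010014020540)) (.br (Nat.shiftLeft (nat_lit 0x3004005009) (nat_lit 65)) (.one (nat_lit 0x600800a011000c010014022540)) (.one (nat_lit 0x600800a012000c010014024540))))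
def w12 : u12.all (wj 57 s12) = true := by decide +kernel
def o12 : OkW 57 (jb2 57 fl) u12 := .lift s12 _ (.br _ _ _ (.br _ _ _ (.br _ _ _ (.br _ _ _ (.leaf b0 k231 t231) (.br _ _ _ (.leaf b0 k232 t232) (.leaf b0 k233 t233))) (.br _ _ _ (.leaf b0 k234 t234) (.br _ _ _ (.leaf b0 k235 t235) (.leaf b0 k236 t236)))) (.br _ _ _ (.br _ _ _ (.leaf b0 k237 t237) (.br _ _ _ (.leaf b0 k238 t238) (.leaf b0 k239 t239))) (.br _ _ _ (.leaf b0 k240 t240) (.br _ _ _ (.leaf b0 k241 t241) (.leaf b0 k242 t242))))) (.br _ _ _ (.br _ _ _ (.br _ _ _ (.leaf b0 k243 t243) (.br _ _ _ (.leaf b0 k244 t244) (.leaf b0 k245 t245))) (.br _ _ _ (.leaf b0 k246 t246) (.br _ _ _ (.leaf b0 k247 t247) (.leaf b0 k248 t248)))) (.br _ _ _ (.br _ _ _ (.leaf b0 k249 t249) (.br _ _ _ (.leaf b0 k250 t250) (.leaf b0 k251 t251))) (.br _ _ _ (.leaf b0 k252 t252) (.br _ _ _ (.leaf b0 k253 t253) (.leaf b0 k254 t254)))))) w12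
noncomputable def k255 : KT := (.br (Nat.shiftLeft (nat_lit 0x1) (nat_lit 112)) (.br (Nat.shiftLeft (nat_lit 0x600800b) (nat_lit 76)) (.one (nat_lit 0x600800a013000c010014027500)) (.one (nat_lit 0x600800b00c000c010016019500))) (.br (Nat.shiftLeft (nat_lit 0x1) (nat_lit 113)) (.one (nat_lit 0x100600800a013200c010014026650)) (.one (nat_lit 0x200600800a013400c010014026650))))
def t255 : k255.all (jb2 57 fl b0) = true := by decide +kernel
noncomputable def k256 : KT := (.one (nat_lit 0x300600800a013600c010014026650))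
def t256 : k256.all (jb2 57 fl b0) = true := by decide +kernel
noncomputable def k257 : KT := (.br (Nat.shiftLeft (nat_lit 0x1) (nat_lit 124)) (.br (Nat.shiftLeft (nat_lit 0x5) (nat_lit 112)) (.one (nat_lit 0x400600800a013800c010014026650)) (.one (nat_lit 0x500600800a013a00c010014026650))) (.br (Nat.shiftLeft (nat_lit 0x1) (nat_lit 125)) (.one (nat_lit 0x100000600800a013000c010034426511)) (.br (Nat.shiftLeft (nat_lit 0x3) (nat_lit 124)) (.one (nat_lit 0x200000600800a013000c010054826511)) (.one (nat_lit 0x300000600800a013000c010074c26511)))))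
def t257 : k257.all (jb2 57 fl b0) = true := by decide +kernel
noncomputable def k258 : KT := (.br (Nat.shiftLeft (nat_lit 0x7) (nat_lit 124)) (.br (Nat.shiftLeft (nat_lit 0x5) (nat_lit 124)) (.one (nat_lit 0x400000600800a013000c010095026511)) (.br (Nat.shiftLeft (nat_lit 0x3) (nat_lit 125)) (.one (nat_lit 0x500000600800a013000c0100b5426511)) (.one (nat_lit 0x600000600800a013000c0100d5826511)))) (.br (Nat.shiftLeft (nat_lit 0x9) (nat_lit 124)) (.br (Nat.shiftLeft (nat_lit 0x1) (nat_lit 127)) (.one (nat_lit 0x700000600800a013000c0100f5c26511)) (.one (nat_lit 0x800000600800a013000c010116026511))) (.br (Nat.shiftLeft (nat_lit 0x5) (nat_lit 125)) (.one (nat_lit 0x900000600800a013000c010136426511)) (.one (nat_lit 0xa00000600800a013000c010156826511)))))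
def t258 : k258.all (jb2 57 fl b0) = true := by decide +kernel
noncomputable def s13 : KT := (.br (nat_lit 0x300600800a013600c010014026650) (.br (nat_lit 0x200600800a013400c010014026650) k255 k256) (.br (nat_lit 0x300000600800a013000c010074c26511) k257 k258))
noncomputable def u13 : KT := (.br (Nat.shiftLeft (nat_lit 0x600800b) (nat_lit 76)) (.one (nat_lit 0x600800a013000c010014026540)) (.one (nat_lit 0x600800b00c000c010016019500)))
def w13 : u13.all (wj 57 s13) = true := by decide +kernel
def o13 : OkW 57 (jb2 57 fl) u13 := .lift s13 _ (.br _ _ _ (.br _ _ _ (.leaf b0 k255 t255) (.leaf b0 k256 t256)) (.br _ _ _ (.leaf b0 k257 t257) (.leaf b0 k258 t258))) w13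
noncomputable def k259 : KT := (.br (Nat.shiftLeft (nat_lit 0x5) (nat_lit 112)) (.br (Nat.shiftLeft (nat_lit 0x1) (nat_lit 113)) (.br (Nat.shiftLeft (nat_lit 0x1) (nat_lit 112)) (.one (nat_lit 0x600800b00d000c01001601b500)) (.one (nat_lit 0x100600800b00d200c01001601b600))) (.br (Nat.shiftLeft (nat_lit 0x3) (nat_lit 112)) (.one (nat_lit 0x200600800b00d400c01001601b600)) (.br (Nat.shiftLeft (nat_lit 0x1) (nat_lit 114)) (.one (nat_lit 0x300600800b00d600c01001601b600)) (.one (nat_lit 0x400600800b00d800c01001601b600))))) (.br (Nat.shiftLeft (nat_lit 0x801) (nat_lit 113)) (.br (Nat.shiftLeft (nat_lit 0x1) (nat_lit 124)) (.one (nat_lit 0x500600800b00da00c01001601b600)) (.one (nat_lit 0x100000600800b00d000c01003641a511))) (.br (Nat.shiftLeft (nat_lit 0x1003) (nat_lit 112)) (.one (nat_lit 0x100200600800b00d400c01003641b700)) (.br (Nat.shiftLeft (nat_lit 0x401) (nat_lit 114)) (.one (nat_lit 0x100300600800b00d600c01003641b700)) (.one (nat_lit 0x100400600800b00d800c01003641a760))))))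
def t259 : k259.all (jb2 57 fl b0) = true := by decide +kernel
noncomputable def k260 : KT := (.br (Nat.shiftLeft (nat_lit 0x1001) (nat_lit 113)) (.br (Nat.shiftLeft (nat_lit 0x1) (nat_lit 125)) (.one (nat_lit 0x100500600800b00da00c01003641a760)) (.one (nat_lit 0x200000600800b00d000c01005681a511))) (.br (Nat.shiftLeft (nat_lit 0x801) (nat_lit 114)) (.one (nat_lit 0x200300600800b00d600c01005681b700)) (.one (nat_lit 0x200400600800b00d800c01005681b700))))
def t260 : k260.all (jb2 57 fl b0) = true := by decide +kernel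
noncomputable def k261 : KT := (.br (Nat.shiftLeft (nat_lit 0x3) (nat_lit 124)) (.one (nat_lit 0x200500600800b00da00c01005681a760)) (.one (nat_lit 0x300000600800b00d000c010076c1a511)))
def t261 : k261.all (jb2 57 fl b0) = true := by decide +kernel
noncomputable def k262 : KT := (.one (nat_lit 0x300400600800b00d800c010076c1a760))
def t262 : k262.all (jb2 57 fl b0) = true := by decide +kernel
noncomputable def k263 : KT := (.br (Nat.shiftLeft (nat_lit 0x1) (nat_lit 126)) (.one (nat_lit 0x300500600800b00da00c010076c1a760)) (.one (nat_lit 0x400000600800b00d000c01009701a511)))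
def t263 : k263.all (jb2 57 fl b0) = true := by decide +kernel
noncomputable def k264 : KT := (.br (Nat.shiftLeft (nat_lit 0x5) (nat_lit 124)) (.one (nat_lit 0x400500600800b00da00c01009701a760)) (.one (nat_lit 0x500000600800b00d000c0100b741a511)))
def t264 : k264.all (jb2 57 fl b0) = true := by decide +kernel
noncomputable def k265 : KT := (.br (Nat.shiftLeft (nat_lit 0x7) (nat_lit 124)) (.one (nat_lit 0x600000600800b00d000c0100d781a511)) (.one (nat_lit 0x700000600800b00d000c0100f7c1a511)))
noncomputable def b266 : BT := .node (nat_lit 0x1) (nat_lit 0xdb325e258c00329e000ac6010008800028) .leaf .leaf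
def t265 : k265.all (jb2 57 fl b266) = true := by decide +kernel
noncomputable def k266 : KT := (.br (Nat.shiftLeft (nat_lit 0x9) (nat_lit 124)) (.one (nat_lit 0x800000600800b00d000c01011801a511)) (.br (Nat.shiftLeft (nat_lit 0x5) (nat_lit 125)) (.one (nat_lit 0x900000600800b00d000c01013841a511)) (.one (nat_lit 0xa00000600800b00d000c01015881a511))))
def t266 : k266.all (jb2 57 fl b0) = true := by decide +kernel
noncomputable def k267 : KT := (.br (Nat.shiftLeft (nat_lit 0x1000003) (nat_lit 112)) (.br (Nat.shiftLeft (nat_lit 0x1) (nat_lit 136)) (.one (nat_lit 0xb00000600800b00d000c010178c1a511)) (.br (Nat.shiftLeft (nat_lit 0x800001) (nat_lit 113)) (.one (nat_lit 0x100000100600800b00d200c03041601a611)) (.one (nat_lit 0x100000200600800b00d400c03041601a611)))) (.br (Nat.shiftLeft (nat_lit 0x1000005) (nat_lit 112)) (.br (Nat.shiftLeft (nat_lit 0x400001) (nat_lit 114)) (.one (nat_lit 0x100000300600800b00d600c03041601a611)) (.one (nat_lit 0x100000400600800b00d800c03041601a611))) (.br (Nat.shiftLeft (nat_lit 0x801)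 (nat_lit 125)) (.one (nat_lit 0x100000500600800b00da00c03041601a611)) (.one (nat_lit 0x100200300600800b00d600c03045681a870)))))
def t267 : k267.all (jb2 57 fl b0) = true := by decide +kernel
noncomputable def k268 : KT := (.br (Nat.shiftLeft (nat_lit 0x1800001) (nat_lit 113)) (.br (Nat.shiftLeft (nat_lit 0x2000003) (nat_lit 112)) (.br (Nat.shiftLeft (nat_lit 0x1) (nat_lit 137)) (.one (nat_lit 0x100200400600800b00d800c03045681a870)) (.br (Nat.shiftLeft (nat_lit 0x1000001) (nat_lit 113)) (.one (nat_lit 0x200000100600800b00d200c05081601a611)) (.one (nat_lit 0x200000200600800b00d400c05081601a611)))) (.br (Nat.shiftLeft (nat_lit 0x2000005) (nat_lit 112)) (.br (Nat.shiftLeft (nat_lit 0x800001) (nat_lit 114)) (.one (nat_lit 0x200000300600800b00d600c05081601a611)) (.one (nat_lit 0x200000400600800b00d800c05081601a611))) (.br (Nat.shiftLeft (nat_lit 0x3) (nat_lit 136)) (.one (nat_lit 0x200000500600800b00da00c05081601a611)) (.one (nat_lit 0x300000100600800b00d200c070c1601a611))))) (.br (Nat.shiftLeft (nat_lit 0x3000005)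 (nat_lit 112)) (.br (Nat.shiftLeft (nat_lit 0x3000003) (nat_lit 112)) (.one (nat_lit 0x300000200600800b00d400c070c1601a611)) (.br (Nat.shiftLeft (nat_lit 0xc00001) (nat_lit 114)) (.one (nat_lit 0x300000300600800b00d600c070c1601a611)) (.one (nat_lit 0x300000400600800b00d800c070c1601a611)))) (.br (Nat.shiftLeft (nat_lit 0x2000001) (nat_lit 113)) (.br (Nat.shiftLeft (nat_lit 0x1) (nat_lit 138)) (.one (nat_lit 0x300000500600800b00da00c070c1601a611)) (.one (nat_lit 0x400000100600800b00d200c09101601a611))) (.br (Nat.shiftLeft (nat_lit 0x4000003) (nat_lit 112)) (.one (nat_lit 0x400000200600800b00d400c09101601a611)) (.one (nat_lit 0x400000300600800b00d600c09101601a611))))))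
def t268 : k268.all (jb2 57 fl b0) = true := by decide +kernel
noncomputable def k269 : KT := (.br (Nat.shiftLeft (nat_lit 0x5) (nat_lit 136)) (.br (Nat.shiftLeft (nat_lit 0x4000005) (nat_lit 112)) (.one (nat_lit 0x400000400600800b00d800c09101601a611)) (.one (nat_lit 0x400000500600800b00da00c09101601a611))) (.br (Nat.shiftLeft (nat_lit 0x2800001) (nat_lit 113)) (.one (nat_lit 0x500000100600800b00d200c0b141601a611)) (.one (nat_lit 0x500000200600800b00d400c0b141601a611))))
def t269 : k269.all (jb2 57 fl b0) = true := by decide +kernel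
noncomputable def k270 : KT := (.br (Nat.shiftLeft (nat_lit 0x1400001) (nat_lit 114)) (.one (nat_lit 0x500000300600800b00d600c0b141601a611)) (.br (Nat.shiftLeft (nat_lit 0x5000005) (nat_lit 112)) (.one (nat_lit 0x500000400600800b00d800c0b141601a611)) (.one (nat_lit 0x500000500600800b00da00c0b141601a611))))
noncomputable def b271 : BT := .node (nat_lit 0x1) (nat_lit 0x6d9a4d0a2ede128c258c003299000ad680032dc000ab642000e300028) .leaf .leaf
def t270 : k270.all (jb2 57 fl b271) = true := by decide +kernel
noncomputable def k271 : KT := (.one (nat_lit 0x600000100600800b00d200c0d181601a611))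
noncomputable def b272 : BT := .node (nat_lit 0x1) (nat_lit 0x123125da5900032db0008c6810008900028) .leaf .leaf
def t271 : k271.all (jb2 57 fl b272) = true := by decide +kernel
noncomputable def k272 : KT := (.br (Nat.shiftLeft (nat_lit 0x6000003) (nat_lit 112)) (.one (nat_lit 0x600000200600800b00d400c0d181601a611)) (.one (nat_lit 0x600000300600800b00d600c0d181601a611)))
noncomputable def b273 : BT := .node (nat_lit 0x17) (nat_lit 0x123125e26480032220008d60193625d15140039de000ae5c193528b24d8003319000cb641003010030100301002a0002a0002a0002a0002a0002a0002a000240002400024000240002400024000240002400024000240002400024000240001e0) .leaf .leaf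
def t272 : k272.all (jb2 57 fl b273) = true := by decide +kernel
noncomputable def k273 : KT := (.br (Nat.shiftLeft (nat_lit 0x6000005) (nat_lit 112)) (.one (nat_lit 0x600000400600800b00d800c0d181601a611)) (.br (Nat.shiftLeft (nat_lit 0x7) (nat_lit 136)) (.one (nat_lit 0x600000500600800b00da00c0d181601a611)) (.one (nat_lit 0x700000100600800b00d200c0f1c1601a611))))
noncomputable def b274 : BT := .node (nat_lit 0xb) (nat_lit 0x6f0a4d9b6600196c00065320ce849b15140041db000ae581001af001af001af001af001af0014f0014f0014f0014f000f0000f0000f0) .leaf .leaf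
def t273 : k273.all (jb2 57 fl b274) = true := by decide +kernel
noncomputable def k274 : KT := (.br (Nat.shiftLeft (nat_lit 0x7000003) (nat_lit 112)) (.one (nat_lit 0x700000200600800b00d400c0f1c1601a611)) (.br (Nat.shiftLeft (nat_lit 0x1c00001) (nat_lit 114)) (.one (nat_lit 0x700000300600800b00d600c0f1c1601a611)) (.one (nat_lit 0x700000400600800b00d800c0f1c1601a611))))
noncomputable def b275 : BT := .node (nat_lit 0x1) (nat_lit 0x93625d15140039de000ae6010008800028) .leaf .leaf
def t274 : k274.all (jb2 57 fl b275) = true := by decide +kernel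
noncomputable def k275 : KT := (.br (Nat.shiftLeft (nat_lit 0x1) (nat_lit 139)) (.one (nat_lit 0x700000500600800b00da00c0f1c1601a611)) (.br (Nat.shiftLeft (nat_lit 0x4000001) (nat_lit 113)) (.one (nat_lit 0x800000100600800b00d200c11201601a611)) (.one (nat_lit 0x800000200600800b00d400c11201601a611))))
def t275 : k275.all (jb2 57 fl b0) = true := by decide +kernel
noncomputable def k276 : KT := (.br (Nat.shiftLeft (nat_lit 0x9) (nat_lit 136)) (.br (Nat.shiftLeft (nat_lit 0x2000001) (nat_lit 114)) (.one (nat_lit 0x800000300600800b00d600c11201601a611)) (.br (Nat.shiftLeft (nat_lit 0x8000005) (nat_lit 112)) (.one (nat_lit 0x800000400600800b00d800c11201601a611)) (.one (nat_lit 0x800000500600800b00da00c11201601a611)))) (.br (Nat.shiftLeft (nat_lit 0x4800001) (nat_lit 113)) (.one (nat_lit 0x900000100600800b00d200c13241601a611)) (.br (Nat.shiftLeft (nat_lit 0x9000003) (nat_lit 112)) (.one (nat_lit 0x900000200600800b00d400c13241601a611)) (.one (nat_lit 0x900000300600800b00d600c13241601a611)))))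
def t276 : k276.all (jb2 57 fl b0) = true := by decide +kernel
noncomputable def k277 : KT := (.br (Nat.shiftLeft (nat_lit 0x1) (nat_lit 148)) (.br (Nat.shiftLeft (nat_lit 0xa000005) (nat_lit 112)) (.br (Nat.shiftLeft (nat_lit 0x5000001) (nat_lit 113)) (.br (Nat.shiftLeft (nat_lit 0x9000005) (nat_lit 112)) (.one (nat_lit 0x900000400600800b00d800c13241601a611)) (.br (Nat.shiftLeft (nat_lit 0x5) (nat_lit 137)) (.one (nat_lit 0x900000500600800b00da00c13241601a611)) (.one (nat_lit 0xa00000100600800b00d200c15281601a611)))) (.br (Nat.shiftLeft (nat_lit 0xa000003) (nat_lit 112)) (.one (nat_lit 0xa00000200600800b00d400c15281601a611)) (.br (Nat.shiftLeft (nat_lit 0x2800001) (nat_lit 114)) (.one (nat_lit 0xa00000300600800b00d600c15281601a611)) (.one (nat_lit 0xa00000400600800b00d800c15281601a611))))) (.br (Nat.shiftLeft (nat_lit 0xb000003) (nat_lit 112)) (.br (Nat.shiftLeft (nat_lit 0xb) (nat_lit 136)) (.one (nat_lit 0xa00000500600800b00da00c15281601a611)) (.br (Nat.shiftLeft (nat_lit 0x5800001) (nat_lit 113)) (.one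 (nat_lit 0xb00000100600800b00d200c172c1601a611)) (.one (nat_lit 0xb00000200600800b00d400c172c1601a611)))) (.br (Nat.shiftLeft (nat_lit 0x2c00001) (nat_lit 114)) (.one (nat_lit 0xb00000300600800b00d600c172c1601a611)) (.br (Nat.shiftLeft (nat_lit 0xb000005) (nat_lit 112)) (.one (nat_lit 0xb00000400600800b00d800c172c1601a611)) (.one (nat_lit 0xb00000500600800b00da00c172c1601a611)))))) (.br (Nat.shiftLeft (nat_lit 0x1000001) (nat_lit 125)) (.br (Nat.shiftLeft (nat_lit 0x400000801) (nat_lit 114)) (.br (Nat.shiftLeft (nat_lit 0x1000001003) (nat_lit 112)) (.one (nat_lit 0x100000100200600800b00d402c41003641a711)) (.br (Nat.shiftLeft (nat_lit 0x800001) (nat_lit 125)) (.one (nat_lit 0x100000100300600800b00d602c41003641a711)) (.one (nat_lit 0x100000200300600800b00d602c41005681a711)))) (.br (Nat.shiftLeft (nat_lit 0x1) (nat_lit 149)) (.one (nat_lit 0x100000200400600800b00d802c41005681a711)) (.br (Nat.shiftLeft (nat_lit 0x2000001003) (nat_lit 112)) (.one (nat_lit 0x200000100200600800b00d404c81003641a711)) (.one (nat_lit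 0x200000100300600800b00d604c81003641a711))))) (.br (Nat.shiftLeft (nat_lit 0x3000001003) (nat_lit 112)) (.br (Nat.shiftLeft (nat_lit 0x800000801) (nat_lit 114)) (.one (nat_lit 0x200000200300600800b00d604c81005681a711)) (.br (Nat.shiftLeft (nat_lit 0x3) (nat_lit 148)) (.one (nat_lit 0x200000200400600800b00d804c81005681a711)) (.one (nat_lit 0x300000100200600800b00d406cc1003641a711)))) (.br (Nat.shiftLeft (nat_lit 0xc00000801) (nat_lit 114)) (.br (Nat.shiftLeft (nat_lit 0x1800001) (nat_lit 125)) (.one (nat_lit 0x300000100300600800b00d606cc1003641a711)) (.one (nat_lit 0x300000200300600800b00d606cc1005681a711))) (.br (Nat.shiftLeft (nat_lit 0x1) (nat_lit 150)) (.one (nat_lit 0x300000200400600800b00d806cc1005681a711)) (.one (nat_lit 0x400000100200600800b00d408d01003641a711)))))))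
def t277 : k277.all (jb2 57 fl b0) = true := by decide +kernel
noncomputable def k278 : KT := (.br (Nat.shiftLeft (nat_lit 0x1000000801) (nat_lit 114)) (.br (Nat.shiftLeft (nat_lit 0x2000001) (nat_lit 125)) (.one (nat_lit 0x400000100300600800b00d608d01003641a711)) (.one (nat_lit 0x400000200300600800b00d608d01005681a711))) (.br (Nat.shiftLeft (nat_lit 0x5) (nat_lit 148)) (.one (nat_lit 0x400000200400600800b00d808d01005681a711)) (.br (Nat.shiftLeft (nat_lit 0x5000001003) (nat_lit 112)) (.one (nat_lit 0x500000100200600800b00d40ad41003641a711)) (.one (nat_lit 0x500000100300600800b00d60ad41003641a711)))))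
noncomputable def b279 : BT := .node (nat_lit 0x2f) (nat_lit 0x1bc293549a00065b000194c83b645172a2a6449d49356d912dc978001d2d000473400198d00064b600196c00055be1cc8a58ca8c001d2c80056b40cc8a58d268001d2c80065320ed913a926b2312a2a4d40032dd000ab68002b98000aa6c2006b1006b1006b1006b1006b1006b1006b1006b1006b1006b10065100651006510065100651006510065100651006510065100651006510053b004db004db004db0047b0047b0047b0047b0047b0047b0047b0047b0047b0047b0047b0047b0047b0047b0047b003c0003c0003c0003c0003c0003c0003c0) .leaf .leaf
def t278 : k278.all (jb2 57 fl b279) = true := by decide +kernel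
noncomputable def k279 : KT := (.br (Nat.shiftLeft (nat_lit 0x3) (nat_lit 149)) (.br (Nat.shiftLeft (nat_lit 0x1400000801) (nat_lit 114)) (.one (nat_lit 0x500000200300600800b00d60ad41005681a711)) (.one (nat_lit 0x500000200400600800b00d80ad41005681a711))) (.br (Nat.shiftLeft (nat_lit 0x6000001003) (nat_lit 112)) (.one (nat_lit 0x600000100200600800b00d40cd81003641a711)) (.one (nat_lit 0x600000100300600800b00d60cd81003641a711))))
noncomputable def b280 : BT := .node (nat_lit 0x13) (nat_lit 0x2589b66545000ea60002b97064624ea49a80065ba00116d8323128c258c0032dc0008c641002b2002b2002b2002b2002b2002b2002b200252002520025200252001f1001f1001f1001f1001f1001f1001900019000190) .leaf .leaf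
def t279 : k279.all (jb2 57 fl b280) = true := by decide +kernel
noncomputable def k280 : KT := (.br (Nat.shiftLeft (nat_lit 0x7) (nat_lit 148)) (.br (Nat.shiftLeft (nat_lit 0x1800000801) (nat_lit 114)) (.one (nat_lit 0x600000200300600800b00d60cd81005681a711)) (.one (nat_lit 0x600000200400600800b00d80cd81005681a711))) (.br (Nat.shiftLeft (nat_lit 0x7000001003) (nat_lit 112)) (.one (nat_lit 0x700000100200600800b00d40edc1003641a711)) (.br (Nat.shiftLeft (nat_lit 0x3800001) (nat_lit 125)) (.one (nat_lit 0x700000100300600800b00d60edc1003641a711)) (.one (nat_lit 0x700000200300600800b00d60edc1005681a711)))))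
def t280 : k280.all (jb2 57 fl b0) = true := by decide +kernel
noncomputable def k281 : KT := (.br (Nat.shiftLeft (nat_lit 0x4800001) (nat_lit 125)) (.br (Nat.shiftLeft (nat_lit 0x4000001) (nat_lit 125)) (.br (Nat.shiftLeft (nat_lit 0x1) (nat_lit 151)) (.one (nat_lit 0x700000200400600800b00d80edc1005681a711)) (.br (Nat.shiftLeft (nat_lit 0x8000001003) (nat_lit 112)) (.one (nat_lit 0x800000100200600800b00d410e01003641a711)) (.one (nat_lit 0x800000100300600800b00d610e01003641a711)))) (.br (Nat.shiftLeft (nat_lit 0x9) (nat_lit 148)) (.br (Nat.shiftLeft (nat_lit 0x2000000801) (nat_lit 114)) (.one (nat_lit 0x800000200300600800b00d610e01005681a711)) (.one (nat_lit 0x800000200400600800b00d810e01005681a711))) (.br (Nat.shiftLeft (nat_lit 0x9000001003) (nat_lit 112)) (.one (nat_lit 0x900000100200600800b00d412e41003641a711)) (.one (nat_lit 0x900000100300600800b00d612e41003641a711))))) (.br (Nat.shiftLeft (nat_lit 0xa000001003) (nat_lit 112)) (.br (Nat.shiftLeft (nat_lit 0x2400000801) (nat_lit 114)) (.one (nat_lit 0x900000200300600800b00d612e41005681a711))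 (.br (Nat.shiftLeft (nat_lit 0x5) (nat_lit 149)) (.one (nat_lit 0x900000200400600800b00d812e41005681a711)) (.one (nat_lit 0xa00000100200600800b00d414e81003641a711)))) (.br (Nat.shiftLeft (nat_lit 0x2800000801) (nat_lit 114)) (.br (Nat.shiftLeft (nat_lit 0x5000001) (nat_lit 125)) (.one (nat_lit 0xa00000100300600800b00d614e81003641a711)) (.one (nat_lit 0xa00000200300600800b00d614e81005681a711))) (.br (Nat.shiftLeft (nat_lit 0xb) (nat_lit 148)) (.one (nat_lit 0xa00000200400600800b00d814e81005681a711)) (.one (nat_lit 0xb00000100200600800b00d416ec1003641a711))))))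
def t281 : k281.all (jb2 57 fl b0) = true := by decide +kernel
noncomputable def k282 : KT := (.br (Nat.shiftLeft (nat_lit 0x5800001) (nat_lit 125)) (.one (nat_lit 0xb00000100300600800b00d616ec1003641a711)) (.br (Nat.shiftLeft (nat_lit 0x2c00000801) (nat_lit 114)) (.one (nat_lit 0xb00000200300600800b00d616ec1005681a711)) (.one (nat_lit 0xb00000200400600800b00d816ec1005681a711))))
def t282 : k282.all (jb2 57 fl b0) = true := by decide +kernel
noncomputable def s14 : KT := (.br (nat_lit 0x500000500600800b00da00c0b141601a611) (.br (nat_lit 0x500000600800b00d000c0100b741a511) (.br (nat_lit 0x300000600800b00d000c010076c1a511) (.br (nat_lit 0x100400600800b00d800c01003641a760) k259 (.br (nat_lit 0x200400600800b00d800c01005681b700) k260 k261)) (.br (nat_lit 0x300400600800b00d800c010076c1a760) k262 (.br (nat_lit 0x400000600800b00d000c01009701a511) k263 k264))) (.br (nat_lit 0x100200300600800b00d600c03045681a870) (.br (nat_lit 0x700000600800b00d000c0100f7c1a511) k265 (.br (nat_lit 0xa00000600800b00d000c01015881a511)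 k266 k267)) (.br (nat_lit 0x400000300600800b00d600c09101601a611) k268 (.br (nat_lit 0x500000200600800b00d400c0b141601a611) k269 k270)))) (.br (nat_lit 0x900000300600800b00d600c13241601a611) (.br (nat_lit 0x700000100600800b00d200c0f1c1601a611) (.br (nat_lit 0x600000100600800b00d200c0d181601a611) k271 (.br (nat_lit 0x600000300600800b00d600c0d181601a611) k272 k273)) (.br (nat_lit 0x700000400600800b00d800c0f1c1601a611) k274 (.br (nat_lit 0x800000200600800b00d400c11201601a611) k275 k276))) (.br (nat_lit 0x600000100300600800b00d60cd81003641a711) (.br (nat_lit 0x400000100200600800b00d408d01003641a711) k277 (.br (nat_lit 0x500000100300600800b00d60ad41003641a711) k278 k279)) (.br (nat_lit 0x700000200300600800b00d60edc1005681a711) k280 (.br (nat_lit 0xb00000100200600800b00d416ec1003641a711) k281 k282)))))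
noncomputable def u14 : KT := (.one (nat_lit 0x600800b00d000c01001601a540))
def w14 : u14.all (wj 57 s14) = true := by decide +kernel
def o14 : OkW 57 (jb2 57 fl) u14 := .lift s14 _ (.br _ _ _ (.br _ _ _ (.br _ _ _ (.br _ _ _ (.leaf b0 k259 t259) (.br _ _ _ (.leaf b0 k260 t260) (.leaf b0 k261 t261))) (.br _ _ _ (.leaf b0 k262 t262) (.br _ _ _ (.leaf b0 k263 t263) (.leaf b0 k264 t264)))) (.br _ _ _ (.br _ _ _ (.leaf b266 k265 t265) (.br _ _ _ (.leaf b0 k266 t266) (.leaf b0 k267 t267))) (.br _ _ _ (.leaf b0 k268 t268) (.br _ _ _ (.leaf b0 k269 t269) (.leaf b271 k270 t270))))) (.br _ _ _ (.br _ _ _ (.br _ _ _ (.leaf b272 k271 t271) (.br _ _ _ (.leaf b273 k272 t272) (.leaf b274 k273 t273))) (.br _ _ _ (.leaf b275 k274 t274) (.br _ _ _ (.leaf b0 k275 t275) (.leaf b0 k276 t276)))) (.br _ _ _ (.br _ _ _ (.leaf b0 k277 t277) (.br _ _ _ (.leaf b279 k278 t278) (.leaf b280 k279 t279))) (.br _ _ _ (.leaf b0 k280 t280) (.br _ _ _ (.leaf b0 k281 t281) (.leaf b0 k282 t282)))))) w14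
noncomputable def k283 : KT := (.br (Nat.shiftLeft (nat_lit 0x1) (nat_lit 114)) (.br (Nat.shiftLeft (nat_lit 0x1) (nat_lit 113)) (.br (Nat.shiftLeft (nat_lit 0x1) (nat_lit 112)) (.one (nat_lit 0x600800b00e000c01001601d500)) (.one (nat_lit 0x100600800b00e200c01001601d600))) (.br (Nat.shiftLeft (nat_lit 0x3) (nat_lit 112)) (.one (nat_lit 0x200600800b00e400c01001601d600)) (.one (nat_lit 0x300600800b00e600c01001601d600)))) (.br (Nat.shiftLeft (nat_lit 0x1) (nat_lit 124)) (.br (Nat.shiftLeft (nat_lit 0x5) (nat_lit 112)) (.one (nat_lit 0x400600800b00e800c01001601d600)) (.one (nat_lit 0x500600800b00ea00c01001601d600))) (.br (Nat.shiftLeft (nat_lit 0x801) (nat_lit 113)) (.one (nat_lit 0x100000600800b00e000c01003641c511)) (.br (Nat.shiftLeft (nat_lit 0x1003) (nat_lit 112)) (.one (nat_lit 0x100200600800b00e400c01003641d700)) (.one (nat_lit 0x100300600800b00e600c01003641c760))))))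
def t283 : k283.all (jb2 57 fl b0) = true := by decide +kernel
noncomputable def k284 : KT := (.br (Nat.shiftLeft (nat_lit 0x1005) (nat_lit 112)) (.one (nat_lit 0x100400600800b00e800c01003641c760)) (.br (Nat.shiftLeft (nat_lit 0x1) (nat_lit 125)) (.one (nat_lit 0x100500600800b00ea00c01003641c760)) (.one (nat_lit 0x200000600800b00e000c01005681c511))))
def t284 : k284.all (jb2 57 fl b0) = true := by decide +kernel
noncomputable def k285 : KT := (.one (nat_lit 0x200300600800b00e600c01005681c760))
def t285 : k285.all (jb2 57 fl b0) = true := by decide +kernel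
noncomputable def k286 : KT := (.one (nat_lit 0x200400600800b00e800c01005681c760))
def t286 : k286.all (jb2 57 fl b0) = true := by decide +kernel
noncomputable def k287 : KT := (.br (Nat.shiftLeft (nat_lit 0x3) (nat_lit 124)) (.one (nat_lit 0x200500600800b00ea00c01005681c760)) (.one (nat_lit 0x300000600800b00e000c010076c1c511)))
def t287 : k287.all (jb2 57 fl b0) = true := by decide +kernel
noncomputable def k288 : KT := (.one (nat_lit 0x300400600800b00e800c010076c1c760))
def t288 : k288.all (jb2 57 fl b0) = true := by decide +kernel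
noncomputable def k289 : KT := (.br (Nat.shiftLeft (nat_lit 0x1) (nat_lit 126)) (.one (nat_lit 0x300500600800b00ea00c010076c1c760)) (.br (Nat.shiftLeft (nat_lit 0x1001) (nat_lit 114)) (.one (nat_lit 0x400000600800b00e000c01009701c511)) (.one (nat_lit 0x400500600800b00ea00c01009701c760))))
def t289 : k289.all (jb2 57 fl b0) = true := by decide +kernel
noncomputable def k290 : KT := (.br (Nat.shiftLeft (nat_lit 0x3) (nat_lit 125)) (.one (nat_lit 0x500000600800b00e000c0100b741c511)) (.br (Nat.shiftLeft (nat_lit 0x7) (nat_lit 124)) (.one (nat_lit 0x600000600800b00e000c0100d781c511)) (.one (nat_lit 0x700000600800b00e000c0100f7c1c511))))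
def t290 : k290.all (jb2 57 fl b0) = true := by decide +kernel
noncomputable def k291 : KT := (.br (Nat.shiftLeft (nat_lit 0x1) (nat_lit 137)) (.br (Nat.shiftLeft (nat_lit 0x1) (nat_lit 136)) (.br (Nat.shiftLeft (nat_lit 0x5) (nat_lit 125)) (.br (Nat.shiftLeft (nat_lit 0x9) (nat_lit 124)) (.one (nat_lit 0x800000600800b00e000c01011801c511)) (.one (nat_lit 0x900000600800b00e000c01013841c511))) (.br (Nat.shiftLeft (nat_lit 0xb) (nat_lit 124)) (.one (nat_lit 0xa00000600800b00e000c01015881c511)) (.one (nat_lit 0xb00000600800b00e000c010178c1c511)))) (.br (Nat.shiftLeft (nat_lit 0x1000003) (nat_lit 112)) (.br (Nat.shiftLeft (nat_lit 0x800001) (nat_lit 113)) (.one (nat_lit 0x100000100600800b00e200c03041601c611)) (.one (nat_lit 0x100000200600800b00e400c03041601c611))) (.br (Nat.shiftLeft (nat_lit 0x400001) (nat_lit 114)) (.one (nat_lit 0x100000300600800b00e600c03041601c611)) (.br (Nat.shiftLeft (nat_lit 0x1000005) (nat_lit 112)) (.one (nat_lit 0x100000400600800b00e800c03041601c611)) (.one (nat_lit 0x100000500600800b00ea00c03041601c611))))))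 (.br (Nat.shiftLeft (nat_lit 0x3) (nat_lit 136)) (.br (Nat.shiftLeft (nat_lit 0x2000003) (nat_lit 112)) (.br (Nat.shiftLeft (nat_lit 0x1000001) (nat_lit 113)) (.one (nat_lit 0x200000100600800b00e200c05081601c611)) (.one (nat_lit 0x200000200600800b00e400c05081601c611))) (.br (Nat.shiftLeft (nat_lit 0x800001) (nat_lit 114)) (.one (nat_lit 0x200000300600800b00e600c05081601c611)) (.br (Nat.shiftLeft (nat_lit 0x2000005) (nat_lit 112)) (.one (nat_lit 0x200000400600800b00e800c05081601c611)) (.one (nat_lit 0x200000500600800b00ea00c05081601c611))))) (.br (Nat.shiftLeft (nat_lit 0x3000003) (nat_lit 112)) (.br (Nat.shiftLeft (nat_lit 0x1800001) (nat_lit 113)) (.one (nat_lit 0x300000100600800b00e200c070c1601c611)) (.one (nat_lit 0x300000200600800b00e400c070c1601c611))) (.br (Nat.shiftLeft (nat_lit 0xc00001) (nat_lit 114)) (.one (nat_lit 0x300000300600800b00e600c070c1601c611)) (.br (Nat.shiftLeft (nat_lit 0x3000005) (nat_lit 112)) (.one (nat_lit 0x300000400600800b00e800c070c1601c611)) (.one (nat_lit 0x300000500600800b00ea00c070c1601c611)))))))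
def t291 : k291.all (jb2 57 fl b0) = true := by decide +kernel
noncomputable def k292 : KT := (.br (Nat.shiftLeft (nat_lit 0x1000001) (nat_lit 114)) (.br (Nat.shiftLeft (nat_lit 0x2000001) (nat_lit 113)) (.one (nat_lit 0x400000100600800b00e200c09101601c611)) (.br (Nat.shiftLeft (nat_lit 0x4000003) (nat_lit 112)) (.one (nat_lit 0x400000200600800b00e400c09101601c611)) (.one (nat_lit 0x400000300600800b00e600c09101601c611)))) (.br (Nat.shiftLeft (nat_lit 0x4000005) (nat_lit 112)) (.one (nat_lit 0x400000400600800b00e800c09101601c611)) (.br (Nat.shiftLeft (nat_lit 0x5) (nat_lit 136)) (.one (nat_lit 0x400000500600800b00ea00c09101601c611)) (.one (nat_lit 0x500000100600800b00e200c0b141601c611)))))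
def t292 : k292.all (jb2 57 fl b0) = true := by decide +kernel
noncomputable def k293 : KT := (.br (Nat.shiftLeft (nat_lit 0x1400001) (nat_lit 114)) (.br (Nat.shiftLeft (nat_lit 0x5000003) (nat_lit 112)) (.one (nat_lit 0x500000200600800b00e400c0b141601c611)) (.one (nat_lit 0x500000300600800b00e600c0b141601c611))) (.br (Nat.shiftLeft (nat_lit 0x5000005) (nat_lit 112)) (.one (nat_lit 0x500000400600800b00e800c0b141601c611)) (.one (nat_lit 0x500000500600800b00ea00c0b141601c611))))
def t293 : k293.all (jb2 57 fl b0) = true := by decide +kernel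
noncomputable def k294 : KT := (.br (Nat.shiftLeft (nat_lit 0x3000001) (nat_lit 113)) (.one (nat_lit 0x600000100600800b00e200c0d181601c611)) (.one (nat_lit 0x600000200600800b00e400c0d181601c611)))
def t294 : k294.all (jb2 57 fl b0) = true := by decide +kernel
noncomputable def k295 : KT := (.br (Nat.shiftLeft (nat_lit 0x6000005) (nat_lit 112)) (.br (Nat.shiftLeft (nat_lit 0x1800001) (nat_lit 114)) (.one (nat_lit 0x600000300600800b00e600c0d181601c611)) (.one (nat_lit 0x600000400600800b00e800c0d181601c611))) (.br (Nat.shiftLeft (nat_lit 0x7) (nat_lit 136)) (.one (nat_lit 0x600000500600800b00ea00c0d181601c611)) (.one (nat_lit 0x700000100600800b00e200c0f1c1601c611))))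
def t295 : k295.all (jb2 57 fl b0) = true := by decide +kernel
noncomputable def k296 : KT := (.br (Nat.shiftLeft (nat_lit 0x1c00001) (nat_lit 114)) (.br (Nat.shiftLeft (nat_lit 0x7000003) (nat_lit 112)) (.one (nat_lit 0x700000200600800b00e400c0f1c1601c611)) (.one (nat_lit 0x700000300600800b00e600c0f1c1601c611))) (.br (Nat.shiftLeft (nat_lit 0x7000005) (nat_lit 112)) (.one (nat_lit 0x700000400600800b00e800c0f1c1601c611)) (.br (Nat.shiftLeft (nat_lit 0x1) (nat_lit 139)) (.one (nat_lit 0x700000500600800b00ea00c0f1c1601c611)) (.one (nat_lit 0x800000100600800b00e200c11201601c611)))))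
def t296 : k296.all (jb2 57 fl b0) = true := by decide +kernel
noncomputable def k297 : KT := (.br (Nat.shiftLeft (nat_lit 0x4800001) (nat_lit 113)) (.br (Nat.shiftLeft (nat_lit 0x2000001) (nat_lit 114)) (.br (Nat.shiftLeft (nat_lit 0x8000003) (nat_lit 112)) (.one (nat_lit 0x800000200600800b00e400c11201601c611)) (.one (nat_lit 0x800000300600800b00e600c11201601c611))) (.br (Nat.shiftLeft (nat_lit 0x8000005) (nat_lit 112)) (.one (nat_lit 0x800000400600800b00e800c11201601c611)) (.br (Nat.shiftLeft (nat_lit 0x9) (nat_lit 136)) (.one (nat_lit 0x800000500600800b00ea00c11201601c611)) (.one (nat_lit 0x900000100600800b00e200c13241601c611))))) (.br (Nat.shiftLeft (nat_lit 0x2400001) (nat_lit 114)) (.br (Nat.shiftLeft (nat_lit 0x9000003) (nat_lit 112)) (.one (nat_lit 0x900000200600800b00e400c13241601c611)) (.one (nat_lit 0x900000300600800b00e600c13241601c611))) (.br (Nat.shiftLeft (nat_lit 0x9000005) (nat_lit 112)) (.one (nat_lit 0x900000400600800b00e800c13241601c611)) (.br (Nat.shiftLeft (nat_lit 0x5) (nat_lit 137))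 (.one (nat_lit 0x900000500600800b00ea00c13241601c611)) (.one (nat_lit 0xa00000100600800b00e200c15281601c611))))))
def t297 : k297.all (jb2 57 fl b0) = true := by decide +kernel
noncomputable def k298 : KT := (.br (Nat.shiftLeft (nat_lit 0x2c00001) (nat_lit 114)) (.br (Nat.shiftLeft (nat_lit 0xa000005) (nat_lit 112)) (.br (Nat.shiftLeft (nat_lit 0xa000003) (nat_lit 112)) (.one (nat_lit 0xa00000200600800b00e400c15281601c611)) (.br (Nat.shiftLeft (nat_lit 0x2800001) (nat_lit 114)) (.one (nat_lit 0xa00000300600800b00e600c15281601c611)) (.one (nat_lit 0xa00000400600800b00e800c15281601c611)))) (.br (Nat.shiftLeft (nat_lit 0x5800001) (nat_lit 113)) (.br (Nat.shiftLeft (nat_lit 0xb) (nat_lit 136)) (.one (nat_lit 0xa00000500600800b00ea00c15281601c611)) (.one (nat_lit 0xb00000100600800b00e200c172c1601c611))) (.br (Nat.shiftLeft (nat_lit 0xb000003) (nat_lit 112)) (.one (nat_lit 0xb00000200600800b00e400c172c1601c611)) (.one (nat_lit 0xb00000300600800b00e600c172c1601c611))))) (.br (Nat.shiftLeft (nat_lit 0x3) (nat_lit 148))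 (.br (Nat.shiftLeft (nat_lit 0x1) (nat_lit 148)) (.br (Nat.shiftLeft (nat_lit 0xb000005) (nat_lit 112)) (.one (nat_lit 0xb00000400600800b00e800c172c1601c611)) (.one (nat_lit 0xb00000500600800b00ea00c172c1601c611))) (.br (Nat.shiftLeft (nat_lit 0x1) (nat_lit 149)) (.one (nat_lit 0x100000100200600800b00e402c41003641c711)) (.one (nat_lit 0x200000100200600800b00e404c81003641c711)))) (.br (Nat.shiftLeft (nat_lit 0x5) (nat_lit 148)) (.br (Nat.shiftLeft (nat_lit 0x1) (nat_lit 150)) (.one (nat_lit 0x300000100200600800b00e406cc1003641c711)) (.one (nat_lit 0x400000100200600800b00e408d01003641c711))) (.br (Nat.shiftLeft (nat_lit 0x3) (nat_lit 149)) (.one (nat_lit 0x500000100200600800b00e40ad41003641c711)) (.one (nat_lit 0x600000100200600800b00e40cd81003641c711))))))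
def t298 : k298.all (jb2 57 fl b0) = true := by decide +kernel
noncomputable def k299 : KT := (.br (Nat.shiftLeft (nat_lit 0x9) (nat_lit 148)) (.br (Nat.shiftLeft (nat_lit 0x1) (nat_lit 151)) (.one (nat_lit 0x700000100200600800b00e40edc1003641c711)) (.one (nat_lit 0x800000100200600800b00e410e01003641c711))) (.br (Nat.shiftLeft (nat_lit 0x5) (nat_lit 149)) (.one (nat_lit 0x900000100200600800b00e412e41003641c711)) (.br (Nat.shiftLeft (nat_lit 0xb) (nat_lit 148)) (.one (nat_lit 0xa00000100200600800b00e414e81003641c711)) (.one (nat_lit 0xb00000100200600800b00e416ec1003641c711)))))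
def t299 : k299.all (jb2 57 fl b0) = true := by decide +kernel
noncomputable def s15 : KT := (.br (nat_lit 0x700000600800b00e000c0100f7c1c511) (.br (nat_lit 0x200400600800b00e800c01005681c760) (.br (nat_lit 0x200000600800b00e000c01005681c511) (.br (nat_lit 0x100300600800b00e600c01003641c760) k283 k284) (.br (nat_lit 0x200300600800b00e600c01005681c760) k285 k286)) (.br (nat_lit 0x300400600800b00e800c010076c1c760) (.br (nat_lit 0x300000600800b00e000c010076c1c511) k287 k288) (.br (nat_lit 0x400500600800b00ea00c01009701c760) k289 k290))) (.br (nat_lit 0x600000200600800b00e400c0d181601c611) (.br (nat_lit 0x500000100600800b00e200c0b141601c611) (.br (nat_lit 0x300000500600800b00ea00c070c1601c611) k291 k292) (.br (nat_lit 0x500000500600800b00ea00c0b141601c611) k293 k294)) (.br (nat_lit 0x800000100600800b00e200c11201601c611) (.br (nat_lit 0x700000100600800b00e200c0f1c1601c611) k295 k296) (.br (nat_lit 0xa00000100600800b00e200c15281601c611) k297 (.br (nat_lit 0x600000100200600800b00e40cd81003641c711) k298 k299)))))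
noncomputable def u15 : KT := (.one (nat_lit 0x600800b00e000c01001601c540))
def w15 : u15.all (wj 57 s15) = true := by decide +kernel
def o15 : OkW 57 (jb2 57 fl) u15 := .lift s15 _ (.br _ _ _ (.br _ _ _ (.br _ _ _ (.br _ _ _ (.leaf b0 k283 t283) (.leaf b0 k284 t284)) (.br _ _ _ (.leaf b0 k285 t285) (.leaf b0 k286 t286))) (.br _ _ _ (.br _ _ _ (.leaf b0 k287 t287) (.leaf b0 k288 t288)) (.br _ _ _ (.leaf b0 k289 t289) (.leaf b0 k290 t290)))) (.br _ _ _ (.br _ _ _ (.br _ _ _ (.leaf b0 k291 t291) (.leaf b0 k292 t292)) (.br _ _ _ (.leaf b0 k293 t293) (.leaf b0 k294 t294))) (.br _ _ _ (.br _ _ _ (.leaf b0 k295 t295) (.leaf b0 k296 t296)) (.br _ _ _ (.leaf b0 k297 t297) (.br _ _ _ (.leaf b0 k298 t298) (.leaf b0 k299 t299)))))) w15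
noncomputable def k300 : KT := (.br (Nat.shiftLeft (nat_lit 0x200600800b01) (nat_lit 68)) (.br (Nat.shiftLeft (nat_lit 0x1) (nat_lit 112)) (.br (Nat.shiftLeft (nat_lit 0x600800b01) (nat_lit 68)) (.one (nat_lit 0x600800b00f000c01001601f500)) (.one (nat_lit 0x600800b010000c010016021500))) (.br (Nat.shiftLeft (nat_lit 0x100600800b01) (nat_lit 68)) (.one (nat_lit 0x100600800b00f200c01001601f600)) (.br (Nat.shiftLeft (nat_lit 0x1) (nat_lit 113)) (.one (nat_lit 0x100600800b010200c010016020650)) (.one (nat_lit 0x200600800b00f400c01001601f600))))) (.br (Nat.shiftLeft (nat_lit 0x1) (nat_lit 114)) (.br (Nat.shiftLeft (nat_lit 0x3) (nat_lit 112)) (.one (nat_lit 0x200600800b010400c010016021600)) (.br (Nat.shiftLeft (nat_lit 0x300600800b01) (nat_lit 68)) (.one (nat_lit 0x300600800b00f600c01001601f600)) (.one (nat_lit 0x300600800b010600c010016021600)))) (.br (Nat.shiftLeft (nat_lit 0x400600800b01) (nat_lit 68)) (.one (nat_lit 0x400600800b00f800c01001601f600)) (.br (Nat.shiftLeft (nat_lit 0x5) (nat_lit 112)) (.one (nat_lit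 0x400600800b010800c010016021600)) (.one (nat_lit 0x500600800b00fa00c01001601f600))))))
def t300 : k300.all (jb2 57 fl b0) = true := by decide +kernel
noncomputable def k301 : KT := (.br (Nat.shiftLeft (nat_lit 0x1) (nat_lit 124)) (.one (nat_lit 0x500600800b010a00c010016020650)) (.br (Nat.shiftLeft (nat_lit 0x100000600800b01) (nat_lit 68)) (.one (nat_lit 0x100000600800b00f000c01003641e511)) (.one (nat_lit 0x100000600800b010000c010036420511))))
def t301 : k301.all (jb2 57 fl b0) = true := by decide +kernel
noncomputable def k302 : KT := (.one (nat_lit 0x100200600800b00f400c01003641e760))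
def t302 : k302.all (jb2 57 fl b0) = true := by decide +kernel
noncomputable def k303 : KT := (.one (nat_lit 0x100200600800b010400c010036420760))
def t303 : k303.all (jb2 57 fl b0) = true := by decide +kernel
noncomputable def k304 : KT := (.br (Nat.shiftLeft (nat_lit 0x100300600800b01) (nat_lit 68)) (.one (nat_lit 0x100300600800b00f600c01003641e760)) (.one (nat_lit 0x100300600800b010600c010036420760)))
def t304 : k304.all (jb2 57 fl b0) = true := by decide +kernel
noncomputable def k305 : KT := (.br (Nat.shiftLeft (nat_lit 0x1005) (nat_lit 112)) (.br (Nat.shiftLeft (nat_lit 0x100400600800b01) (nat_lit 68)) (.one (nat_lit 0x100400600800b00f800c01003641e760)) (.one (nat_lit 0x100400600800b010800c010036420760))) (.br (Nat.shiftLeft (nat_lit 0x1) (nat_lit 125)) (.one (nat_lit 0x100500600800b00fa00c01003641e760)) (.br (Nat.shiftLeft (nat_lit 0x200000600800b01) (nat_lit 68)) (.one (nat_lit 0x200000600800b00f000c01005681e511)) (.one (nat_lit 0x200000600800b010000c010056820511)))))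
def t305 : k305.all (jb2 57 fl b0) = true := by decide +kernel
noncomputable def k306 : KT := (.one (nat_lit 0x200300600800b00f600c01005681e760))
def t306 : k306.all (jb2 57 fl b0) = true := by decide +kernel
noncomputable def k307 : KT := (.br (Nat.shiftLeft (nat_lit 0x801) (nat_lit 114)) (.one (nat_lit 0x200300600800b010600c010056820760)) (.one (nat_lit 0x200400600800b00f800c01005681e760)))
def t307 : k307.all (jb2 57 fl b0) = true := by decide +kernel
noncomputable def k308 : KT := (.br (Nat.shiftLeft (nat_lit 0x3) (nat_lit 124)) (.br (Nat.shiftLeft (nat_lit 0x2005) (nat_lit 112)) (.one (nat_lit 0x200400600800b010800c010056820760)) (.one (nat_lit 0x200500600800b00fa00c01005681e760))) (.br (Nat.shiftLeft (nat_lit 0x300000600800b01) (nat_lit 68)) (.one (nat_lit 0x300000600800b00f000c010076c1e511)) (.one (nat_lit 0x300000600800b010000c010076c20511))))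
def t308 : k308.all (jb2 57 fl b0) = true := by decide +kernel
noncomputable def k309 : KT := (.br (Nat.shiftLeft (nat_lit 0x300400600800b01) (nat_lit 68)) (.one (nat_lit 0x300400600800b00f800c010076c1e760)) (.br (Nat.shiftLeft (nat_lit 0x3005) (nat_lit 112)) (.one (nat_lit 0x300400600800b010800c010076c20760)) (.one (nat_lit 0x300500600800b00fa00c010076c1e760))))
def t309 : k309.all (jb2 57 fl b0) = true := by decide +kernel
noncomputable def k310 : KT := (.br (Nat.shiftLeft (nat_lit 0x5) (nat_lit 124)) (.br (Nat.shiftLeft (nat_lit 0x400000600800b01) (nat_lit 68)) (.one (nat_lit 0x400000600800b00f000c01009701e511)) (.br (Nat.shiftLeft (nat_lit 0x1001) (nat_lit 114)) (.one (nat_lit 0x400000600800b010000c010097020511)) (.one (nat_lit 0x400500600800b00fa00c01009701e760)))) (.br (Nat.shiftLeft (nat_lit 0x500000600800b01) (nat_lit 68)) (.one (nat_lit 0x500000600800b00f000c0100b741e511)) (.br (Nat.shiftLeft (nat_lit 0x3) (nat_lit 125)) (.one (nat_lit 0x500000600800b010000c0100b7420511)) (.one (nat_lit 0x600000600800b00f000c0100d781e511)))))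
def t310 : k310.all (jb2 57 fl b0) = true := by decide +kernel
noncomputable def k311 : KT := (.br (Nat.shiftLeft (nat_lit 0x700000600800b01) (nat_lit 68)) (.br (Nat.shiftLeft (nat_lit 0x7) (nat_lit 124)) (.one (nat_lit 0x600000600800b010000c0100d7820511)) (.one (nat_lit 0x700000600800b00f000c0100f7c1e511))) (.br (Nat.shiftLeft (nat_lit 0x1) (nat_lit 127)) (.one (nat_lit 0x700000600800b010000c0100f7c20511)) (.one (nat_lit 0x800000600800b00f000c01011801e511))))
def t311 : k311.all (jb2 57 fl b0) = true := by decide +kernel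
noncomputable def k312 : KT := (.br (Nat.shiftLeft (nat_lit 0x1000001) (nat_lit 113)) (.br (Nat.shiftLeft (nat_lit 0x800001) (nat_lit 113)) (.br (Nat.shiftLeft (nat_lit 0xa00000600800b01) (nat_lit 68)) (.br (Nat.shiftLeft (nat_lit 0x900000600800b01) (nat_lit 68)) (.br (Nat.shiftLeft (nat_lit 0x9) (nat_lit 124)) (.one (nat_lit 0x800000600800b010000c010118020511)) (.one (nat_lit 0x900000600800b00f000c01013841e511))) (.br (Nat.shiftLeft (nat_lit 0x5) (nat_lit 125)) (.one (nat_lit 0x900000600800b010000c010138420511)) (.one (nat_lit 0xa00000600800b00f000c01015881e511)))) (.br (Nat.shiftLeft (nat_lit 0xb00000600800b01) (nat_lit 68)) (.br (Nat.shiftLeft (nat_lit 0xb) (nat_lit 124)) (.one (nat_lit 0xa00000600800b010000c010158820511)) (.one (nat_lit 0xb00000600800b00f000c010178c1e511))) (.br (Nat.shiftLeft (nat_lit 0x1) (nat_lit 136)) (.one (nat_lit 0xb00000600800b010000c010178c20511)) (.one (nat_lit 0x100000100600800b00f200c03041601e611))))) (.br (Nat.shiftLeft (nat_lit 0x400001) (nat_lit 114)) (.br (Nat.shiftLeft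 (nat_lit 0x1000003) (nat_lit 112)) (.br (Nat.shiftLeft (nat_lit 0x100000200600800b01) (nat_lit 68)) (.one (nat_lit 0x100000200600800b00f400c03041601e611)) (.one (nat_lit 0x100000200600800b010400c030416020611))) (.br (Nat.shiftLeft (nat_lit 0x100000300600800b01) (nat_lit 68)) (.one (nat_lit 0x100000300600800b00f600c03041601e611)) (.one (nat_lit 0x100000300600800b010600c030416020611)))) (.br (Nat.shiftLeft (nat_lit 0x1000005) (nat_lit 112)) (.br (Nat.shiftLeft (nat_lit 0x100000400600800b01) (nat_lit 68)) (.one (nat_lit 0x100000400600800b00f800c03041601e611)) (.one (nat_lit 0x100000400600800b010800c030416020611))) (.br (Nat.shiftLeft (nat_lit 0x1) (nat_lit 137)) (.one (nat_lit 0x100000500600800b00fa00c03041601e611)) (.one (nat_lit 0x200000100600800b00f200c05081601e611)))))) (.br (Nat.shiftLeft (nat_lit 0x1800001) (nat_lit 113)) (.br (Nat.shiftLeft (nat_lit 0x800001) (nat_lit 114)) (.br (Nat.shiftLeft (nat_lit 0x2000003) (nat_lit 112)) (.br (Nat.shiftLeft (nat_lit 0x200000200600800b01) (nat_lit 68)) (.one (nat_lit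 0x200000200600800b00f400c05081601e611)) (.one (nat_lit 0x200000200600800b010400c050816020611))) (.br (Nat.shiftLeft (nat_lit 0x200000300600800b01) (nat_lit 68)) (.one (nat_lit 0x200000300600800b00f600c05081601e611)) (.one (nat_lit 0x200000300600800b010600c050816020611)))) (.br (Nat.shiftLeft (nat_lit 0x2000005) (nat_lit 112)) (.br (Nat.shiftLeft (nat_lit 0x200000400600800b01) (nat_lit 68)) (.one (nat_lit 0x200000400600800b00f800c05081601e611)) (.one (nat_lit 0x200000400600800b010800c050816020611))) (.br (Nat.shiftLeft (nat_lit 0x3) (nat_lit 136)) (.one (nat_lit 0x200000500600800b00fa00c05081601e611)) (.one (nat_lit 0x300000100600800b00f200c070c1601e611))))) (.br (Nat.shiftLeft (nat_lit 0xc00001) (nat_lit 114)) (.br (Nat.shiftLeft (nat_lit 0x3000003) (nat_lit 112)) (.br (Nat.shiftLeft (nat_lit 0x300000200600800b01) (nat_lit 68)) (.one (nat_lit 0x300000200600800b00f400c070c1601e611)) (.one (nat_lit 0x300000200600800b010400c070c16020611))) (.br (Nat.shiftLeft (nat_lit 0x300000300600800b01) (nat_lit 68)) (.one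 (nat_lit 0x300000300600800b00f600c070c1601e611)) (.one (nat_lit 0x300000300600800b010600c070c16020611)))) (.br (Nat.shiftLeft (nat_lit 0x3000005) (nat_lit 112)) (.br (Nat.shiftLeft (nat_lit 0x300000400600800b01) (nat_lit 68)) (.one (nat_lit 0x300000400600800b00f800c070c1601e611)) (.one (nat_lit 0x300000400600800b010800c070c16020611))) (.br (Nat.shiftLeft (nat_lit 0x1) (nat_lit 138)) (.one (nat_lit 0x300000500600800b00fa00c070c1601e611)) (.one (nat_lit 0x400000100600800b00f200c09101601e611)))))))
def t312 : k312.all (jb2 57 fl b0) = true := by decide +kernel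
noncomputable def k313 : KT := (.br (Nat.shiftLeft (nat_lit 0x1000001) (nat_lit 114)) (.br (Nat.shiftLeft (nat_lit 0x4000003) (nat_lit 112)) (.br (Nat.shiftLeft (nat_lit 0x400000200600800b01) (nat_lit 68)) (.one (nat_lit 0x400000200600800b00f400c09101601e611)) (.one (nat_lit 0x400000200600800b010400c091016020611))) (.br (Nat.shiftLeft (nat_lit 0x400000300600800b01) (nat_lit 68)) (.one (nat_lit 0x400000300600800b00f600c09101601e611)) (.one (nat_lit 0x400000300600800b010600c091016020611)))) (.br (Nat.shiftLeft (nat_lit 0x4000005) (nat_lit 112)) (.br (Nat.shiftLeft (nat_lit 0x400000400600800b01) (nat_lit 68)) (.one (nat_lit 0x400000400600800b00f800c09101601e611)) (.one (nat_lit 0x400000400600800b010800c091016020611))) (.br (Nat.shiftLeft (nat_lit 0x5) (nat_lit 136)) (.one (nat_lit 0x400000500600800b00fa00c09101601e611)) (.br (Nat.shiftLeft (nat_lit 0x2800001) (nat_lit 113)) (.one (nat_lit 0x500000100600800b00f200c0b141601e611)) (.one (nat_lit 0x500000200600800b00f400c0b141601e611))))))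
def t313 : k313.all (jb2 57 fl b0) = true := by decide +kernel
noncomputable def k314 : KT := (.br (Nat.shiftLeft (nat_lit 0x1400001) (nat_lit 114)) (.br (Nat.shiftLeft (nat_lit 0x5000003) (nat_lit 112)) (.one (nat_lit 0x500000200600800b010400c0b1416020611)) (.br (Nat.shiftLeft (nat_lit 0x500000300600800b01) (nat_lit 68)) (.one (nat_lit 0x500000300600800b00f600c0b141601e611)) (.one (nat_lit 0x500000300600800b010600c0b1416020611)))) (.br (Nat.shiftLeft (nat_lit 0x500000400600800b01) (nat_lit 68)) (.one (nat_lit 0x500000400600800b00f800c0b141601e611)) (.br (Nat.shiftLeft (nat_lit 0x5000005) (nat_lit 112)) (.one (nat_lit 0x500000400600800b010800c0b1416020611)) (.one (nat_lit 0x500000500600800b00fa00c0b141601e611)))))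
def t314 : k314.all (jb2 57 fl b0) = true := by decide +kernel
noncomputable def k315 : KT := (.br (Nat.shiftLeft (nat_lit 0x600000200600800b01) (nat_lit 68)) (.br (Nat.shiftLeft (nat_lit 0x3000001) (nat_lit 113)) (.one (nat_lit 0x600000100600800b00f200c0d181601e611)) (.one (nat_lit 0x600000200600800b00f400c0d181601e611))) (.br (Nat.shiftLeft (nat_lit 0x6000003) (nat_lit 112)) (.one (nat_lit 0x600000200600800b010400c0d1816020611)) (.br (Nat.shiftLeft (nat_lit 0x600000300600800b01) (nat_lit 68)) (.one (nat_lit 0x600000300600800b00f600c0d181601e611)) (.one (nat_lit 0x600000300600800b010600c0d1816020611)))))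
def t315 : k315.all (jb2 57 fl b0) = true := by decide +kernel
noncomputable def k316 : KT := (.br (Nat.shiftLeft (nat_lit 0x7) (nat_lit 136)) (.br (Nat.shiftLeft (nat_lit 0x600000400600800b01) (nat_lit 68)) (.one (nat_lit 0x600000400600800b00f800c0d181601e611)) (.br (Nat.shiftLeft (nat_lit 0x6000005) (nat_lit 112)) (.one (nat_lit 0x600000400600800b010800c0d1816020611)) (.one (nat_lit 0x600000500600800b00fa00c0d181601e611)))) (.br (Nat.shiftLeft (nat_lit 0x700000200600800b01) (nat_lit 68)) (.br (Nat.shiftLeft (nat_lit 0x3800001) (nat_lit 113)) (.one (nat_lit 0x700000100600800b00f200c0f1c1601e611)) (.one (nat_lit 0x700000200600800b00f400c0f1c1601e611))) (.br (Nat.shiftLeft (nat_lit 0x7000003) (nat_lit 112)) (.one (nat_lit 0x700000200600800b010400c0f1c16020611)) (.one (nat_lit 0x700000300600800b00f600c0f1c1601e611)))))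
def t316 : k316.all (jb2 57 fl b0) = true := by decide +kernel
noncomputable def k317 : KT := (.br (Nat.shiftLeft (nat_lit 0x8000003) (nat_lit 112)) (.br (Nat.shiftLeft (nat_lit 0x7000005) (nat_lit 112)) (.br (Nat.shiftLeft (nat_lit 0x1c00001) (nat_lit 114)) (.one (nat_lit 0x700000300600800b010600c0f1c16020611)) (.br (Nat.shiftLeft (nat_lit 0x700000400600800b01) (nat_lit 68)) (.one (nat_lit 0x700000400600800b00f800c0f1c1601e611)) (.one (nat_lit 0x700000400600800b010800c0f1c16020611)))) (.br (Nat.shiftLeft (nat_lit 0x4000001) (nat_lit 113)) (.br (Nat.shiftLeft (nat_lit 0x1) (nat_lit 139)) (.one (nat_lit 0x700000500600800b00fa00c0f1c1601e611)) (.one (nat_lit 0x800000100600800b00f200c11201601e611))) (.br (Nat.shiftLeft (nat_lit 0x800000200600800b01) (nat_lit 68)) (.one (nat_lit 0x800000200600800b00f400c11201601e611)) (.one (nat_lit 0x800000200600800b010400c112016020611))))) (.br (Nat.shiftLeft (nat_lit 0x800000400600800b01) (nat_lit 68)) (.br (Nat.shiftLeft (nat_lit 0x800000300600800b01) (nat_lit 68)) (.one (nat_lit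 0x800000300600800b00f600c11201601e611)) (.br (Nat.shiftLeft (nat_lit 0x2000001) (nat_lit 114)) (.one (nat_lit 0x800000300600800b010600c112016020611)) (.one (nat_lit 0x800000400600800b00f800c11201601e611)))) (.br (Nat.shiftLeft (nat_lit 0x9) (nat_lit 136)) (.br (Nat.shiftLeft (nat_lit 0x8000005) (nat_lit 112)) (.one (nat_lit 0x800000400600800b010800c112016020611)) (.one (nat_lit 0x800000500600800b00fa00c11201601e611))) (.br (Nat.shiftLeft (nat_lit 0x4800001) (nat_lit 113)) (.one (nat_lit 0x900000100600800b00f200c13241601e611)) (.one (nat_lit 0x900000200600800b00f400c13241601e611))))))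
def t317 : k317.all (jb2 57 fl b0) = true := by decide +kernel
noncomputable def k318 : KT := (.br (Nat.shiftLeft (nat_lit 0x2800001) (nat_lit 114)) (.br (Nat.shiftLeft (nat_lit 0x9000005) (nat_lit 112)) (.br (Nat.shiftLeft (nat_lit 0x900000300600800b01) (nat_lit 68)) (.br (Nat.shiftLeft (nat_lit 0x9000003) (nat_lit 112)) (.one (nat_lit 0x900000200600800b010400c132416020611)) (.one (nat_lit 0x900000300600800b00f600c13241601e611))) (.br (Nat.shiftLeft (nat_lit 0x2400001) (nat_lit 114)) (.one (nat_lit 0x900000300600800b010600c132416020611)) (.br (Nat.shiftLeft (nat_lit 0x900000400600800b01) (nat_lit 68)) (.one (nat_lit 0x900000400600800b00f800c13241601e611)) (.one (nat_lit 0x900000400600800b010800c132416020611))))) (.br (Nat.shiftLeft (nat_lit 0xa00000200600800b01) (nat_lit 68)) (.br (Nat.shiftLeft (nat_lit 0x5) (nat_lit 137)) (.one (nat_lit 0x900000500600800b00fa00c13241601e611)) (.br (Nat.shiftLeft (nat_lit 0x5000001) (nat_lit 113)) (.one (nat_lit 0xa00000100600800b00f200c15281601e611)) (.one (nat_lit 0xa00000200600800b00f400c15281601e611))))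 (.br (Nat.shiftLeft (nat_lit 0xa000003) (nat_lit 112)) (.one (nat_lit 0xa00000200600800b010400c152816020611)) (.br (Nat.shiftLeft (nat_lit 0xa00000300600800b01) (nat_lit 68)) (.one (nat_lit 0xa00000300600800b00f600c15281601e611)) (.one (nat_lit 0xa00000300600800b010600c152816020611)))))) (.br (Nat.shiftLeft (nat_lit 0xb00000200600800b01) (nat_lit 68)) (.br (Nat.shiftLeft (nat_lit 0xa000005) (nat_lit 112)) (.br (Nat.shiftLeft (nat_lit 0xa00000400600800b01) (nat_lit 68)) (.one (nat_lit 0xa00000400600800b00f800c15281601e611)) (.one (nat_lit 0xa00000400600800b010800c152816020611))) (.br (Nat.shiftLeft (nat_lit 0xb) (nat_lit 136)) (.one (nat_lit 0xa00000500600800b00fa00c15281601e611)) (.br (Nat.shiftLeft (nat_lit 0x5800001) (nat_lit 113)) (.one (nat_lit 0xb00000100600800b00f200c172c1601e611)) (.one (nat_lit 0xb00000200600800b00f400c172c1601e611))))) (.br (Nat.shiftLeft (nat_lit 0x2c00001) (nat_lit 114)) (.br (Nat.shiftLeft (nat_lit 0xb000003) (nat_lit 112)) (.one (nat_lit 0xb00000200600800b010400c172c16020611))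 (.br (Nat.shiftLeft (nat_lit 0xb00000300600800b01) (nat_lit 68)) (.one (nat_lit 0xb00000300600800b00f600c172c1601e611)) (.one (nat_lit 0xb00000300600800b010600c172c16020611)))) (.br (Nat.shiftLeft (nat_lit 0xb00000400600800b01) (nat_lit 68)) (.one (nat_lit 0xb00000400600800b00f800c172c1601e611)) (.br (Nat.shiftLeft (nat_lit 0xb000005) (nat_lit 112)) (.one (nat_lit 0xb00000400600800b010800c172c16020611)) (.one (nat_lit 0xb00000500600800b00fa00c172c1601e611)))))))
def t318 : k318.all (jb2 57 fl b0) = true := by decide +kernel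
noncomputable def s16 : KT := (.br (nat_lit 0x300000600800b010000c010076c20511) (.br (nat_lit 0x100200600800b010400c010036420760) (.br (nat_lit 0x100000600800b010000c010036420511) (.br (nat_lit 0x500600800b00fa00c01001601f600) k300 k301) (.br (nat_lit 0x100200600800b00f400c01003641e760) k302 k303)) (.br (nat_lit 0x200000600800b010000c010056820511) (.br (nat_lit 0x100300600800b010600c010036420760) k304 k305) (.br (nat_lit 0x200300600800b00f600c01005681e760) k306 (.br (nat_lit 0x200400600800b00f800c01005681e760) k307 k308)))) (.br (nat_lit 0x500000200600800b00f400c0b141601e611) (.br (nat_lit 0x600000600800b00f000c0100d781e511) (.br (nat_lit 0x300500600800b00fa00c010076c1e760) k309 k310) (.br (nat_lit 0x800000600800b00f000c01011801e511) k311 (.br (nat_lit 0x400000100600800b00f200c09101601e611) k312 k313))) (.br (nat_lit 0x600000300600800b010600c0d1816020611) (.br (nat_lit 0x500000500600800b00fa00c0b141601e611) k314 k315) (.br (nat_lit 0x700000300600800b00f600c0f1c1601e611) k316 (.br (nat_lit 0x900000200600800b00f400c13241601e611)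 k317 k318)))))
noncomputable def u16 : KT := (.br (Nat.shiftLeft (nat_lit 0x600800b01) (nat_lit 68)) (.one (nat_lit 0x600800b00f000c01001601e540)) (.one (nat_lit 0x600800b010000c010016020540)))
def w16 : u16.all (wj 57 s16) = true := by decide +kernel
def o16 : OkW 57 (jb2 57 fl) u16 := .lift s16 _ (.br _ _ _ (.br _ _ _ (.br _ _ _ (.br _ _ _ (.leaf b0 k300 t300) (.leaf b0 k301 t301)) (.br _ _ _ (.leaf b0 k302 t302) (.leaf b0 k303 t303))) (.br _ _ _ (.br _ _ _ (.leaf b0 k304 t304) (.leaf b0 k305 t305)) (.br _ _ _ (.leaf b0 k306 t306) (.br _ _ _ (.leaf b0 k307 t307) (.leaf b0 k308 t308))))) (.br _ _ _ (.br _ _ _ (.br _ _ _ (.leaf b0 k309 t309) (.leaf b0 k310 t310)) (.br _ _ _ (.leaf b0 k311 t311) (.br _ _ _ (.leaf b0 k312 t312) (.leaf b0 k313 t313)))) (.br _ _ _ (.br _ _ _ (.leaf b0 k314 t314) (.leaf b0 k315 t315)) (.br _ _ _ (.leaf b0 k316 t316) (.br _ _ _ (.leaf b0 k317 t317) (.leaf b0 k318 t318)))))) w16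
noncomputable def k319 : KT := (.br (Nat.shiftLeft (nat_lit 0x3004005809) (nat_lit 65)) (.one (nat_lit 0x600800b011000c010016023500)) (.br (Nat.shiftLeft (nat_lit 0x1) (nat_lit 112)) (.one (nat_lit 0x600800b012000c010016025500)) (.one (nat_lit 0x100600800b011200c010016022650))))
def t319 : k319.all (jb2 57 fl b0) = true := by decide +kernel
noncomputable def k320 : KT := (.one (nat_lit 0x100600800b012200c010016024650))
def t320 : k320.all (jb2 57 fl b0) = true := by decide +kernel
noncomputable def k321 : KT := (.one (nat_lit 0x200600800b011400c010016022650))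
def t321 : k321.all (jb2 57 fl b0) = true := by decide +kernel
noncomputable def k322 : KT := (.one (nat_lit 0x200600800b012400c010016024650))
def t322 : k322.all (jb2 57 fl b0) = true := by decide +kernel
noncomputable def k323 : KT := (.one (nat_lit 0x300600800b011600c010016022650))
def t323 : k323.all (jb2 57 fl b0) = true := by decide +kernel
noncomputable def k324 : KT := (.one (nat_lit 0x300600800b012600c010016024650))
def t324 : k324.all (jb2 57 fl b0) = true := by decide +kernel
noncomputable def k325 : KT := (.one (nat_lit 0x400600800b011800c010016022650))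
def t325 : k325.all (jb2 57 fl b0) = true := by decide +kernel
noncomputable def k326 : KT := (.one (nat_lit 0x400600800b012800c010016024650))
def t326 : k326.all (jb2 57 fl b0) = true := by decide +kernel
noncomputable def k327 : KT := (.one (nat_lit 0x500600800b011a00c010016022650))
def t327 : k327.all (jb2 57 fl b0) = true := by decide +kernel
noncomputable def k328 : KT := (.br (Nat.shiftLeft (nat_lit 0x1800003004005809) (nat_lit 65)) (.br (Nat.shiftLeft (nat_lit 0x1) (nat_lit 125)) (.br (Nat.shiftLeft (nat_lit 0x1) (nat_lit 124)) (.one (nat_lit 0x500600800b012a00c010016024650)) (.br (Nat.shiftLeft (nat_lit 0x800003004005809) (nat_lit 65)) (.one (nat_lit 0x100000600800b011000c010036422511)) (.one (nat_lit 0x100000600800b012000c010036424511)))) (.br (Nat.shiftLeft (nat_lit 0x1000003004005809) (nat_lit 65)) (.one (nat_lit 0x200000600800b011000c010056822511)) (.br (Nat.shiftLeft (nat_lit 0x3) (nat_lit 124)) (.one (nat_lit 0x200000600800b012000c010056824511)) (.one (nat_lit 0x300000600800b011000c010076c22511)))))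 (.br (Nat.shiftLeft (nat_lit 0x5) (nat_lit 124)) (.br (Nat.shiftLeft (nat_lit 0x1) (nat_lit 126)) (.one (nat_lit 0x300000600800b012000c010076c24511)) (.br (Nat.shiftLeft (nat_lit 0x2000003004005809) (nat_lit 65)) (.one (nat_lit 0x400000600800b011000c010097022511)) (.one (nat_lit 0x400000600800b012000c010097024511)))) (.br (Nat.shiftLeft (nat_lit 0x2800003004005809) (nat_lit 65)) (.one (nat_lit 0x500000600800b011000c0100b7422511)) (.br (Nat.shiftLeft (nat_lit 0x3) (nat_lit 125)) (.one (nat_lit 0x500000600800b012000c0100b7424511)) (.one (nat_lit 0x600000600800b011000c0100d7822511))))))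
def t328 : k328.all (jb2 57 fl b0) = true := by decide +kernel
noncomputable def k329 : KT := (.br (Nat.shiftLeft (nat_lit 0x9) (nat_lit 124)) (.br (Nat.shiftLeft (nat_lit 0x3800003004005809) (nat_lit 65)) (.br (Nat.shiftLeft (nat_lit 0x7) (nat_lit 124)) (.one (nat_lit 0x600000600800b012000c0100d7824511)) (.one (nat_lit 0x700000600800b011000c0100f7c22511))) (.br (Nat.shiftLeft (nat_lit 0x1) (nat_lit 127)) (.one (nat_lit 0x700000600800b012000c0100f7c24511)) (.br (Nat.shiftLeft (nat_lit 0x4000003004005809) (nat_lit 65)) (.one (nat_lit 0x800000600800b011000c010118022511)) (.one (nat_lit 0x800000600800b012000c010118024511))))) (.br (Nat.shiftLeft (nat_lit 0x5000003004005809) (nat_lit 65)) (.br (Nat.shiftLeft (nat_lit 0x4800003004005809) (nat_lit 65)) (.one (nat_lit 0x900000600800b011000c010138422511)) (.br (Nat.shiftLeft (nat_lit 0x5) (nat_lit 125)) (.one (nat_lit 0x900000600800b012000c010138424511)) (.one (nat_lit 0xa00000600800b011000c010158822511)))) (.br (Nat.shiftLeft (nat_lit 0xb) (nat_lit 124)) (.one (nat_lit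 0xa00000600800b012000c010158824511)) (.br (Nat.shiftLeft (nat_lit 0x5800003004005809) (nat_lit 65)) (.one (nat_lit 0xb00000600800b011000c010178c22511)) (.one (nat_lit 0xb00000600800b012000c010178c24511))))))
def t329 : k329.all (jb2 57 fl b0) = true := by decide +kernel
noncomputable def s17 : KT := (.br (nat_lit 0x300600800b011600c010016022650) (.br (nat_lit 0x100600800b012200c010016024650) (.br (nat_lit 0x100600800b011200c010016022650) k319 k320) (.br (nat_lit 0x200600800b011400c010016022650) k321 (.br (nat_lit 0x200600800b012400c010016024650) k322 k323))) (.br (nat_lit 0x400600800b012800c010016024650) (.br (nat_lit 0x300600800b012600c010016024650) k324 (.br (nat_lit 0x400600800b011800c010016022650) k325 k326)) (.br (nat_lit 0x500600800b011a00c010016022650) k327 (.br (nat_lit 0x600000600800b011000c0100d7822511) k328 k329))))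
noncomputable def u17 : KT := (.br (Nat.shiftLeft (nat_lit 0x3004005809) (nat_lit 65)) (.one (nat_lit 0x600800b011000c010016022540)) (.one (nat_lit 0x600800b012000c010016024540)))
def w17 : u17.all (wj 57 s17) = true := by decide +kernel
def o17 : OkW 57 (jb2 57 fl) u17 := .lift s17 _ (.br _ _ _ (.br _ _ _ (.br _ _ _ (.leaf b0 k319 t319) (.leaf b0 k320 t320)) (.br _ _ _ (.leaf b0 k321 t321) (.br _ _ _ (.leaf b0 k322 t322) (.leaf b0 k323 t323)))) (.br _ _ _ (.br _ _ _ (.leaf b0 k324 t324) (.br _ _ _ (.leaf b0 k325 t325) (.leaf b0 k326 t326))) (.br _ _ _ (.leaf b0 k327 t327) (.br _ _ _ (.leaf b0 k328 t328) (.leaf b0 k329 t329))))) w17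
noncomputable def k330 : KT := (.br (Nat.shiftLeft (nat_lit 0x1) (nat_lit 114)) (.br (Nat.shiftLeft (nat_lit 0x1) (nat_lit 113)) (.br (Nat.shiftLeft (nat_lit 0x1) (nat_lit 112)) (.one (nat_lit 0x600800c00d000c01001801b500)) (.one (nat_lit 0x100600800c00d200c01001801b600))) (.br (Nat.shiftLeft (nat_lit 0x3) (nat_lit 112)) (.one (nat_lit 0x200600800c00d400c01001801b600)) (.one (nat_lit 0x300600800c00d600c01001801b600)))) (.br (Nat.shiftLeft (nat_lit 0x1) (nat_lit 124)) (.br (Nat.shiftLeft (nat_lit 0x5) (nat_lit 112)) (.one (nat_lit 0x400600800c00d800c01001801b600)) (.one (nat_lit 0x500600800c00da00c01001801b600))) (.br (Nat.shiftLeft (nat_lit 0x801) (nat_lit 113)) (.one (nat_lit 0x100000600800c00d000c01003841a511)) (.br (Nat.shiftLeft (nat_lit 0x1003) (nat_lit 112)) (.one (nat_lit 0x100200600800c00d400c01003841b700)) (.one (nat_lit 0x100300600800c00d600c01003841a760))))))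
def t330 : k330.all (jb2 57 fl b0) = true := by decide +kernel
noncomputable def k331 : KT := (.br (Nat.shiftLeft (nat_lit 0x1005) (nat_lit 112)) (.one (nat_lit 0x100400600800c00d800c01003841a760)) (.br (Nat.shiftLeft (nat_lit 0x1) (nat_lit 125)) (.one (nat_lit 0x100500600800c00da00c01003841a760)) (.one (nat_lit 0x200000600800c00d000c01005881a511))))
def t331 : k331.all (jb2 57 fl b0) = true := by decide +kernel
noncomputable def k332 : KT := (.one (nat_lit 0x200300600800c00d600c01005881a760))
def t332 : k332.all (jb2 57 fl b0) = true := by decide +kernel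
noncomputable def k333 : KT := (.one (nat_lit 0x200400600800c00d800c01005881a760))
def t333 : k333.all (jb2 57 fl b0) = true := by decide +kernel
noncomputable def k334 : KT := (.br (Nat.shiftLeft (nat_lit 0x3) (nat_lit 124)) (.one (nat_lit 0x200500600800c00da00c01005881a760)) (.one (nat_lit 0x300000600800c00d000c010078c1a511)))
def t334 : k334.all (jb2 57 fl b0) = true := by decide +kernel
noncomputable def k335 : KT := (.one (nat_lit 0x300400600800c00d800c010078c1a760))
def t335 : k335.all (jb2 57 fl b0) = true := by decide +kernel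
noncomputable def k336 : KT := (.br (Nat.shiftLeft (nat_lit 0x1) (nat_lit 126)) (.one (nat_lit 0x300500600800c00da00c010078c1a760)) (.br (Nat.shiftLeft (nat_lit 0x1001) (nat_lit 114)) (.one (nat_lit 0x400000600800c00d000c01009901a511)) (.one (nat_lit 0x400500600800c00da00c01009901a760))))
def t336 : k336.all (jb2 57 fl b0) = true := by decide +kernel
noncomputable def k337 : KT := (.br (Nat.shiftLeft (nat_lit 0x3) (nat_lit 125)) (.one (nat_lit 0x500000600800c00d000c0100b941a511)) (.br (Nat.shiftLeft (nat_lit 0x7) (nat_lit 124)) (.one (nat_lit 0x600000600800c00d000c0100d981a511)) (.one (nat_lit 0x700000600800c00d000c0100f9c1a511))))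
def t337 : k337.all (jb2 57 fl b0) = true := by decide +kernel
noncomputable def k338 : KT := (.br (Nat.shiftLeft (nat_lit 0x1) (nat_lit 137)) (.br (Nat.shiftLeft (nat_lit 0x1) (nat_lit 136)) (.br (Nat.shiftLeft (nat_lit 0x5) (nat_lit 125)) (.br (Nat.shiftLeft (nat_lit 0x9) (nat_lit 124)) (.one (nat_lit 0x800000600800c00d000c01011a01a511)) (.one (nat_lit 0x900000600800c00d000c01013a41a511))) (.br (Nat.shiftLeft (nat_lit 0xb) (nat_lit 124)) (.one (nat_lit 0xa00000600800c00d000c01015a81a511)) (.br (Nat.shiftLeft (nat_lit 0x3) (nat_lit 126)) (.one (nat_lit 0xb00000600800c00d000c01017ac1a511)) (.one (nat_lit 0xc00000600800c00d000c01019b01a511))))) (.br (Nat.shiftLeft (nat_lit 0x1000003) (nat_lit 112)) (.br (Nat.shiftLeft (nat_lit 0x800001) (nat_lit 113)) (.one (nat_lit 0x100000100600800c00d200c03041801a611)) (.one (nat_lit 0x100000200600800c00d400c03041801a611))) (.br (Nat.shiftLeft (nat_lit 0x400001) (nat_lit 114)) (.one (nat_lit 0x100000300600800c00d600c03041801a611)) (.br (Nat.shiftLeft (nat_lit 0x1000005) (nat_lit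 112)) (.one (nat_lit 0x100000400600800c00d800c03041801a611)) (.one (nat_lit 0x100000500600800c00da00c03041801a611)))))) (.br (Nat.shiftLeft (nat_lit 0x3) (nat_lit 136)) (.br (Nat.shiftLeft (nat_lit 0x2000003) (nat_lit 112)) (.br (Nat.shiftLeft (nat_lit 0x1000001) (nat_lit 113)) (.one (nat_lit 0x200000100600800c00d200c05081801a611)) (.one (nat_lit 0x200000200600800c00d400c05081801a611))) (.br (Nat.shiftLeft (nat_lit 0x800001) (nat_lit 114)) (.one (nat_lit 0x200000300600800c00d600c05081801a611)) (.br (Nat.shiftLeft (nat_lit 0x2000005) (nat_lit 112)) (.one (nat_lit 0x200000400600800c00d800c05081801a611)) (.one (nat_lit 0x200000500600800c00da00c05081801a611))))) (.br (Nat.shiftLeft (nat_lit 0xc00001) (nat_lit 114)) (.br (Nat.shiftLeft (nat_lit 0x1800001) (nat_lit 113)) (.one (nat_lit 0x300000100600800c00d200c070c1801a611)) (.br (Nat.shiftLeft (nat_lit 0x3000003) (nat_lit 112)) (.one (nat_lit 0x300000200600800c00d400c070c1801a611)) (.one (nat_lit 0x300000300600800c00d600c070c1801a611)))) (.br (Nat.shiftLeft (nat_lit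 0x3000005) (nat_lit 112)) (.one (nat_lit 0x300000400600800c00d800c070c1801a611)) (.br (Nat.shiftLeft (nat_lit 0x1) (nat_lit 138)) (.one (nat_lit 0x300000500600800c00da00c070c1801a611)) (.one (nat_lit 0x400000100600800c00d200c09101801a611)))))))
def t338 : k338.all (jb2 57 fl b0) = true := by decide +kernel
noncomputable def k339 : KT := (.br (Nat.shiftLeft (nat_lit 0x4000005) (nat_lit 112)) (.br (Nat.shiftLeft (nat_lit 0x4000003) (nat_lit 112)) (.one (nat_lit 0x400000200600800c00d400c09101801a611)) (.br (Nat.shiftLeft (nat_lit 0x1000001) (nat_lit 114)) (.one (nat_lit 0x400000300600800c00d600c09101801a611)) (.one (nat_lit 0x400000400600800c00d800c09101801a611)))) (.br (Nat.shiftLeft (nat_lit 0x5) (nat_lit 136)) (.one (nat_lit 0x400000500600800c00da00c09101801a611)) (.br (Nat.shiftLeft (nat_lit 0x2800001) (nat_lit 113)) (.one (nat_lit 0x500000100600800c00d200c0b141801a611)) (.one (nat_lit 0x500000200600800c00d400c0b141801a611)))))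
def t339 : k339.all (jb2 57 fl b0) = true := by decide +kernel
noncomputable def k340 : KT := (.br (Nat.shiftLeft (nat_lit 0x5000005) (nat_lit 112)) (.br (Nat.shiftLeft (nat_lit 0x1400001) (nat_lit 114)) (.one (nat_lit 0x500000300600800c00d600c0b141801a611)) (.one (nat_lit 0x500000400600800c00d800c0b141801a611))) (.br (Nat.shiftLeft (nat_lit 0x3) (nat_lit 137)) (.one (nat_lit 0x500000500600800c00da00c0b141801a611)) (.one (nat_lit 0x600000100600800c00d200c0d181801a611))))
def t340 : k340.all (jb2 57 fl b0) = true := by decide +kernel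
noncomputable def k341 : KT := (.br (Nat.shiftLeft (nat_lit 0x1800001) (nat_lit 114)) (.br (Nat.shiftLeft (nat_lit 0x6000003) (nat_lit 112)) (.one (nat_lit 0x600000200600800c00d400c0d181801a611)) (.one (nat_lit 0x600000300600800c00d600c0d181801a611))) (.br (Nat.shiftLeft (nat_lit 0x6000005) (nat_lit 112)) (.one (nat_lit 0x600000400600800c00d800c0d181801a611)) (.one (nat_lit 0x600000500600800c00da00c0d181801a611))))
def t341 : k341.all (jb2 57 fl b0) = true := by decide +kernel
noncomputable def k342 : KT := (.br (Nat.shiftLeft (nat_lit 0x7000003) (nat_lit 112)) (.br (Nat.shiftLeft (nat_lit 0x3800001) (nat_lit 113)) (.one (nat_lit 0x700000100600800c00d200c0f1c1801a611)) (.one (nat_lit 0x700000200600800c00d400c0f1c1801a611))) (.br (Nat.shiftLeft (nat_lit 0x1c00001) (nat_lit 114)) (.one (nat_lit 0x700000300600800c00d600c0f1c1801a611)) (.br (Nat.shiftLeft (nat_lit 0x7000005) (nat_lit 112)) (.one (nat_lit 0x700000400600800c00d800c0f1c1801a611)) (.one (nat_lit 0x700000500600800c00da00c0f1c1801a611)))))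
def t342 : k342.all (jb2 57 fl b0) = true := by decide +kernel
noncomputable def k343 : KT := (.br (Nat.shiftLeft (nat_lit 0x8000005) (nat_lit 112)) (.br (Nat.shiftLeft (nat_lit 0x8000003) (nat_lit 112)) (.br (Nat.shiftLeft (nat_lit 0x4000001) (nat_lit 113)) (.one (nat_lit 0x800000100600800c00d200c11201801a611)) (.one (nat_lit 0x800000200600800c00d400c11201801a611))) (.br (Nat.shiftLeft (nat_lit 0x2000001) (nat_lit 114)) (.one (nat_lit 0x800000300600800c00d600c11201801a611)) (.one (nat_lit 0x800000400600800c00d800c11201801a611)))) (.br (Nat.shiftLeft (nat_lit 0x4800001) (nat_lit 113)) (.br (Nat.shiftLeft (nat_lit 0x9) (nat_lit 136)) (.one (nat_lit 0x800000500600800c00da00c11201801a611)) (.one (nat_lit 0x900000100600800c00d200c13241801a611))) (.br (Nat.shiftLeft (nat_lit 0x9000003) (nat_lit 112)) (.one (nat_lit 0x900000200600800c00d400c13241801a611)) (.one (nat_lit 0x900000300600800c00d600c13241801a611)))))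
def t343 : k343.all (jb2 57 fl b0) = true := by decide +kernel
noncomputable def k344 : KT := (.br (Nat.shiftLeft (nat_lit 0xb000005) (nat_lit 112)) (.br (Nat.shiftLeft (nat_lit 0x2800001) (nat_lit 114)) (.br (Nat.shiftLeft (nat_lit 0x5) (nat_lit 137)) (.br (Nat.shiftLeft (nat_lit 0x9000005) (nat_lit 112)) (.one (nat_lit 0x900000400600800c00d800c13241801a611)) (.one (nat_lit 0x900000500600800c00da00c13241801a611))) (.br (Nat.shiftLeft (nat_lit 0x5000001) (nat_lit 113)) (.one (nat_lit 0xa00000100600800c00d200c15281801a611)) (.br (Nat.shiftLeft (nat_lit 0xa000003) (nat_lit 112)) (.one (nat_lit 0xa00000200600800c00d400c15281801a611)) (.one (nat_lit 0xa00000300600800c00d600c15281801a611))))) (.br (Nat.shiftLeft (nat_lit 0x5800001) (nat_lit 113)) (.br (Nat.shiftLeft (nat_lit 0xa000005) (nat_lit 112)) (.one (nat_lit 0xa00000400600800c00d800c15281801a611)) (.br (Nat.shiftLeft (nat_lit 0xb) (nat_lit 136)) (.one (nat_lit 0xa00000500600800c00da00c15281801a611)) (.one (nat_lit 0xb00000100600800c00d200c172c1801a611))))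 (.br (Nat.shiftLeft (nat_lit 0xb000003) (nat_lit 112)) (.one (nat_lit 0xb00000200600800c00d400c172c1801a611)) (.br (Nat.shiftLeft (nat_lit 0x2c00001) (nat_lit 114)) (.one (nat_lit 0xb00000300600800c00d600c172c1801a611)) (.one (nat_lit 0xb00000400600800c00d800c172c1801a611)))))) (.br (Nat.shiftLeft (nat_lit 0xc000005) (nat_lit 112)) (.br (Nat.shiftLeft (nat_lit 0x6000001) (nat_lit 113)) (.br (Nat.shiftLeft (nat_lit 0x3) (nat_lit 138)) (.one (nat_lit 0xb00000500600800c00da00c172c1801a611)) (.one (nat_lit 0xc00000100600800c00d200c19301801a611))) (.br (Nat.shiftLeft (nat_lit 0xc000003) (nat_lit 112)) (.one (nat_lit 0xc00000200600800c00d400c19301801a611)) (.br (Nat.shiftLeft (nat_lit 0x3000001) (nat_lit 114)) (.one (nat_lit 0xc00000300600800c00d600c19301801a611)) (.one (nat_lit 0xc00000400600800c00d800c19301801a611))))) (.br (Nat.shiftLeft (nat_lit 0x3) (nat_lit 148)) (.br (Nat.shiftLeft (nat_lit 0x1) (nat_lit 148)) (.one (nat_lit 0xc00000500600800c00da00c19301801a611)) (.br (Nat.shiftLeft (nat_lit 0x1) (nat_lit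 149)) (.one (nat_lit 0x100000100200600800c00d402c41003841a711)) (.one (nat_lit 0x200000100200600800c00d404c81003841a711)))) (.br (Nat.shiftLeft (nat_lit 0x1) (nat_lit 150)) (.one (nat_lit 0x300000100200600800c00d406cc1003841a711)) (.br (Nat.shiftLeft (nat_lit 0x5) (nat_lit 148)) (.one (nat_lit 0x400000100200600800c00d408d01003841a711)) (.one (nat_lit 0x500000100200600800c00d40ad41003841a711)))))))
def t344 : k344.all (jb2 57 fl b0) = true := by decide +kernel
noncomputable def k345 : KT := (.br (Nat.shiftLeft (nat_lit 0x9) (nat_lit 148)) (.br (Nat.shiftLeft (nat_lit 0x7) (nat_lit 148)) (.one (nat_lit 0x600000100200600800c00d40cd81003841a711)) (.br (Nat.shiftLeft (nat_lit 0x1) (nat_lit 151)) (.one (nat_lit 0x700000100200600800c00d40edc1003841a711)) (.one (nat_lit 0x800000100200600800c00d410e01003841a711)))) (.br (Nat.shiftLeft (nat_lit 0xb) (nat_lit 148)) (.br (Nat.shiftLeft (nat_lit 0x5) (nat_lit 149)) (.one (nat_lit 0x900000100200600800c00d412e41003841a711)) (.one (nat_lit 0xa00000100200600800c00d414e81003841a711)))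 (.br (Nat.shiftLeft (nat_lit 0x3) (nat_lit 150)) (.one (nat_lit 0xb00000100200600800c00d416ec1003841a711)) (.one (nat_lit 0xc00000100200600800c00d418f01003841a711)))))
def t345 : k345.all (jb2 57 fl b0) = true := by decide +kernel
noncomputable def s18 : KT := (.br (nat_lit 0x700000600800c00d000c0100f9c1a511) (.br (nat_lit 0x200400600800c00d800c01005881a760) (.br (nat_lit 0x200000600800c00d000c01005881a511) (.br (nat_lit 0x100300600800c00d600c01003841a760) k330 k331) (.br (nat_lit 0x200300600800c00d600c01005881a760) k332 k333)) (.br (nat_lit 0x300400600800c00d800c010078c1a760) (.br (nat_lit 0x300000600800c00d000c010078c1a511) k334 k335) (.br (nat_lit 0x400500600800c00da00c01009901a760) k336 k337))) (.br (nat_lit 0x600000500600800c00da00c0d181801a611) (.br (nat_lit 0x500000200600800c00d400c0b141801a611) (.br (nat_lit 0x400000100600800c00d200c09101801a611) k338 k339) (.br (nat_lit 0x600000100600800c00d200c0d181801a611) k340 k341)) (.br (nat_lit 0x900000300600800c00d600c13241801a611) (.br (nat_lit 0x700000500600800c00da00c0f1c1801a611)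 k342 k343) (.br (nat_lit 0x500000100200600800c00d40ad41003841a711) k344 k345))))
noncomputable def u18 : KT := (.one (nat_lit 0x600800c00d000c01001801a540))
def w18 : u18.all (wj 57 s18) = true := by decide +kernel
def o18 : OkW 57 (jb2 57 fl) u18 := .lift s18 _ (.br _ _ _ (.br _ _ _ (.br _ _ _ (.br _ _ _ (.leaf b0 k330 t330) (.leaf b0 k331 t331)) (.br _ _ _ (.leaf b0 k332 t332) (.leaf b0 k333 t333))) (.br _ _ _ (.br _ _ _ (.leaf b0 k334 t334) (.leaf b0 k335 t335)) (.br _ _ _ (.leaf b0 k336 t336) (.leaf b0 k337 t337)))) (.br _ _ _ (.br _ _ _ (.br _ _ _ (.leaf b0 k338 t338) (.leaf b0 k339 t339)) (.br _ _ _ (.leaf b0 k340 t340) (.leaf b0 k341 t341))) (.br _ _ _ (.br _ _ _ (.leaf b0 k342 t342) (.leaf b0 k343 t343)) (.br _ _ _ (.leaf b0 k344 t344) (.leaf b0 k345 t345))))) w18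
noncomputable def k346 : KT := (.br (Nat.shiftLeft (nat_lit 0x200600800c00f) (nat_lit 64)) (.br (Nat.shiftLeft (nat_lit 0x1) (nat_lit 112)) (.br (Nat.shiftLeft (nat_lit 0x600800c00f) (nat_lit 64)) (.one (nat_lit 0x600800c00e000c01001801d500)) (.one (nat_lit 0x600800c00f000c01001801f500))) (.br (Nat.shiftLeft (nat_lit 0x100600800c00f) (nat_lit 64)) (.one (nat_lit 0x100600800c00e200c01001801d600)) (.br (Nat.shiftLeft (nat_lit 0x1) (nat_lit 113)) (.one (nat_lit 0x100600800c00f200c01001801e650)) (.one (nat_lit 0x200600800c00e400c01001801d600))))) (.br (Nat.shiftLeft (nat_lit 0x1) (nat_lit 114)) (.br (Nat.shiftLeft (nat_lit 0x3) (nat_lit 112)) (.one (nat_lit 0x200600800c00f400c01001801f600)) (.br (Nat.shiftLeft (nat_lit 0x300600800c00f) (nat_lit 64)) (.one (nat_lit 0x300600800c00e600c01001801d600)) (.one (nat_lit 0x300600800c00f600c01001801f600)))) (.br (Nat.shiftLeft (nat_lit 0x400600800c00f) (nat_lit 64)) (.one (nat_lit 0x400600800c00e800c01001801d600)) (.br (Nat.shiftLeft (nat_lit 0x5) (nat_lit 112)) (.one (nat_lit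 0x400600800c00f800c01001801f600)) (.one (nat_lit 0x500600800c00ea00c01001801d600))))))
def t346 : k346.all (jb2 57 fl b0) = true := by decide +kernel
noncomputable def k347 : KT := (.br (Nat.shiftLeft (nat_lit 0x1) (nat_lit 124)) (.one (nat_lit 0x500600800c00fa00c01001801e650)) (.br (Nat.shiftLeft (nat_lit 0x100000600800c00f) (nat_lit 64)) (.one (nat_lit 0x100000600800c00e000c01003841c511)) (.one (nat_lit 0x100000600800c00f000c01003841e511))))
def t347 : k347.all (jb2 57 fl b0) = true := by decide +kernel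
noncomputable def k348 : KT := (.one (nat_lit 0x100200600800c00e400c01003841c760))
def t348 : k348.all (jb2 57 fl b0) = true := by decide +kernel
noncomputable def k349 : KT := (.one (nat_lit 0x100200600800c00f400c01003841e760))
def t349 : k349.all (jb2 57 fl b0) = true := by decide +kernel
noncomputable def k350 : KT := (.br (Nat.shiftLeft (nat_lit 0x100300600800c00f) (nat_lit 64)) (.one (nat_lit 0x100300600800c00e600c01003841c760)) (.one (nat_lit 0x100300600800c00f600c01003841e760)))
def t350 : k350.all (jb2 57 fl b0) = true := by decide +kernel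
noncomputable def k351 : KT := (.br (Nat.shiftLeft (nat_lit 0x1005) (nat_lit 112)) (.br (Nat.shiftLeft (nat_lit 0x100400600800c00f) (nat_lit 64)) (.one (nat_lit 0x100400600800c00e800c01003841c760)) (.one (nat_lit 0x100400600800c00f800c01003841e760))) (.br (Nat.shiftLeft (nat_lit 0x1) (nat_lit 125)) (.one (nat_lit 0x100500600800c00ea00c01003841c760)) (.br (Nat.shiftLeft (nat_lit 0x200000600800c00f) (nat_lit 64)) (.one (nat_lit 0x200000600800c00e000c01005881c511)) (.one (nat_lit 0x200000600800c00f000c01005881e511)))))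
def t351 : k351.all (jb2 57 fl b0) = true := by decide +kernel
noncomputable def k352 : KT := (.one (nat_lit 0x200300600800c00e600c01005881c760))
def t352 : k352.all (jb2 57 fl b0) = true := by decide +kernel
noncomputable def k353 : KT := (.br (Nat.shiftLeft (nat_lit 0x801) (nat_lit 114)) (.one (nat_lit 0x200300600800c00f600c01005881e760)) (.one (nat_lit 0x200400600800c00e800c01005881c760)))
def t353 : k353.all (jb2 57 fl b0) = true := by decide +kernel
noncomputable def k354 : KT := (.br (Nat.shiftLeft (nat_lit 0x3) (nat_lit 124)) (.br (Nat.shiftLeft (nat_lit 0x2005) (nat_lit 112)) (.one (nat_lit 0x200400600800c00f800c01005881e760)) (.one (nat_lit 0x200500600800c00ea00c01005881c760))) (.br (Nat.shiftLeft (nat_lit 0x300000600800c00f) (nat_lit 64)) (.one (nat_lit 0x300000600800c00e000c010078c1c511)) (.one (nat_lit 0x300000600800c00f000c010078c1e511))))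
def t354 : k354.all (jb2 57 fl b0) = true := by decide +kernel
noncomputable def k355 : KT := (.br (Nat.shiftLeft (nat_lit 0x300400600800c00f) (nat_lit 64)) (.one (nat_lit 0x300400600800c00e800c010078c1c760)) (.br (Nat.shiftLeft (nat_lit 0x3005) (nat_lit 112)) (.one (nat_lit 0x300400600800c00f800c010078c1e760)) (.one (nat_lit 0x300500600800c00ea00c010078c1c760))))
def t355 : k355.all (jb2 57 fl b0) = true := by decide +kernel
noncomputable def k356 : KT := (.br (Nat.shiftLeft (nat_lit 0x5) (nat_lit 124)) (.br (Nat.shiftLeft (nat_lit 0x400000600800c00f) (nat_lit 64)) (.one (nat_lit 0x400000600800c00e000c01009901c511)) (.br (Nat.shiftLeft (nat_lit 0x1001) (nat_lit 114)) (.one (nat_lit 0x400000600800c00f000c01009901e511)) (.one (nat_lit 0x400500600800c00ea00c01009901c760)))) (.br (Nat.shiftLeft (nat_lit 0x500000600800c00f) (nat_lit 64)) (.one (nat_lit 0x500000600800c00e000c0100b941c511)) (.br (Nat.shiftLeft (nat_lit 0x3) (nat_lit 125)) (.one (nat_lit 0x500000600800c00f000c0100b941e511)) (.one (nat_lit 0x600000600800c00e000c0100d981c511)))))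
def t356 : k356.all (jb2 57 fl b0) = true := by decide +kernel
noncomputable def k357 : KT := (.br (Nat.shiftLeft (nat_lit 0x700000600800c00f) (nat_lit 64)) (.br (Nat.shiftLeft (nat_lit 0x7) (nat_lit 124)) (.one (nat_lit 0x600000600800c00f000c0100d981e511)) (.one (nat_lit 0x700000600800c00e000c0100f9c1c511))) (.br (Nat.shiftLeft (nat_lit 0x1) (nat_lit 127)) (.one (nat_lit 0x700000600800c00f000c0100f9c1e511)) (.one (nat_lit 0x800000600800c00e000c01011a01c511))))
def t357 : k357.all (jb2 57 fl b0) = true := by decide +kernel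
noncomputable def k358 : KT := (.br (Nat.shiftLeft (nat_lit 0x1000005) (nat_lit 112)) (.br (Nat.shiftLeft (nat_lit 0xc00000600800c00f) (nat_lit 64)) (.br (Nat.shiftLeft (nat_lit 0xa00000600800c00f) (nat_lit 64)) (.br (Nat.shiftLeft (nat_lit 0x900000600800c00f) (nat_lit 64)) (.br (Nat.shiftLeft (nat_lit 0x9) (nat_lit 124)) (.one (nat_lit 0x800000600800c00f000c01011a01e511)) (.one (nat_lit 0x900000600800c00e000c01013a41c511))) (.br (Nat.shiftLeft (nat_lit 0x5) (nat_lit 125)) (.one (nat_lit 0x900000600800c00f000c01013a41e511)) (.one (nat_lit 0xa00000600800c00e000c01015a81c511)))) (.br (Nat.shiftLeft (nat_lit 0xb00000600800c00f) (nat_lit 64)) (.br (Nat.shiftLeft (nat_lit 0xb) (nat_lit 124)) (.one (nat_lit 0xa00000600800c00f000c01015a81e511)) (.one (nat_lit 0xb00000600800c00e000c01017ac1c511))) (.br (Nat.shiftLeft (nat_lit 0x3) (nat_lit 126)) (.one (nat_lit 0xb00000600800c00f000c01017ac1e511)) (.one (nat_lit 0xc00000600800c00e000c01019b01c511))))) (.br (Nat.shiftLeft (nat_lit 0x1000003) (nat_lit 112)) (.br (Nat.shiftLeft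 (nat_lit 0x800001) (nat_lit 113)) (.br (Nat.shiftLeft (nat_lit 0x1) (nat_lit 136)) (.one (nat_lit 0xc00000600800c00f000c01019b01e511)) (.one (nat_lit 0x100000100600800c00e200c03041801c611))) (.br (Nat.shiftLeft (nat_lit 0x100000200600800c00f) (nat_lit 64)) (.one (nat_lit 0x100000200600800c00e400c03041801c611)) (.one (nat_lit 0x100000200600800c00f400c03041801e611)))) (.br (Nat.shiftLeft (nat_lit 0x400001) (nat_lit 114)) (.br (Nat.shiftLeft (nat_lit 0x100000300600800c00f) (nat_lit 64)) (.one (nat_lit 0x100000300600800c00e600c03041801c611)) (.one (nat_lit 0x100000300600800c00f600c03041801e611))) (.br (Nat.shiftLeft (nat_lit 0x100000400600800c00f) (nat_lit 64)) (.one (nat_lit 0x100000400600800c00e800c03041801c611)) (.one (nat_lit 0x100000400600800c00f800c03041801e611)))))) (.br (Nat.shiftLeft (nat_lit 0x2000005) (nat_lit 112)) (.br (Nat.shiftLeft (nat_lit 0x2000003) (nat_lit 112)) (.br (Nat.shiftLeft (nat_lit 0x1000001) (nat_lit 113)) (.br (Nat.shiftLeft (nat_lit 0x1) (nat_lit 137)) (.one (nat_lit 0x100000500600800c00ea00c03041801c611))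 (.one (nat_lit 0x200000100600800c00e200c05081801c611))) (.br (Nat.shiftLeft (nat_lit 0x200000200600800c00f) (nat_lit 64)) (.one (nat_lit 0x200000200600800c00e400c05081801c611)) (.one (nat_lit 0x200000200600800c00f400c05081801e611)))) (.br (Nat.shiftLeft (nat_lit 0x800001) (nat_lit 114)) (.br (Nat.shiftLeft (nat_lit 0x200000300600800c00f) (nat_lit 64)) (.one (nat_lit 0x200000300600800c00e600c05081801c611)) (.one (nat_lit 0x200000300600800c00f600c05081801e611))) (.br (Nat.shiftLeft (nat_lit 0x200000400600800c00f) (nat_lit 64)) (.one (nat_lit 0x200000400600800c00e800c05081801c611)) (.one (nat_lit 0x200000400600800c00f800c05081801e611))))) (.br (Nat.shiftLeft (nat_lit 0x3000003) (nat_lit 112)) (.br (Nat.shiftLeft (nat_lit 0x1800001) (nat_lit 113)) (.br (Nat.shiftLeft (nat_lit 0x3) (nat_lit 136)) (.one (nat_lit 0x200000500600800c00ea00c05081801c611)) (.one (nat_lit 0x300000100600800c00e200c070c1801c611))) (.br (Nat.shiftLeft (nat_lit 0x300000200600800c00f) (nat_lit 64)) (.one (nat_lit 0x300000200600800c00e400c070c1801c611))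 (.one (nat_lit 0x300000200600800c00f400c070c1801e611)))) (.br (Nat.shiftLeft (nat_lit 0xc00001) (nat_lit 114)) (.br (Nat.shiftLeft (nat_lit 0x300000300600800c00f) (nat_lit 64)) (.one (nat_lit 0x300000300600800c00e600c070c1801c611)) (.one (nat_lit 0x300000300600800c00f600c070c1801e611))) (.br (Nat.shiftLeft (nat_lit 0x300000400600800c00f) (nat_lit 64)) (.one (nat_lit 0x300000400600800c00e800c070c1801c611)) (.br (Nat.shiftLeft (nat_lit 0x3000005) (nat_lit 112)) (.one (nat_lit 0x300000400600800c00f800c070c1801e611)) (.one (nat_lit 0x300000500600800c00ea00c070c1801c611))))))))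
def t358 : k358.all (jb2 57 fl b0) = true := by decide +kernel
noncomputable def k359 : KT := (.br (Nat.shiftLeft (nat_lit 0x400000300600800c00f) (nat_lit 64)) (.br (Nat.shiftLeft (nat_lit 0x400000200600800c00f) (nat_lit 64)) (.br (Nat.shiftLeft (nat_lit 0x2000001) (nat_lit 113)) (.one (nat_lit 0x400000100600800c00e200c09101801c611)) (.one (nat_lit 0x400000200600800c00e400c09101801c611))) (.br (Nat.shiftLeft (nat_lit 0x4000003) (nat_lit 112)) (.one (nat_lit 0x400000200600800c00f400c09101801e611)) (.one (nat_lit 0x400000300600800c00e600c09101801c611)))) (.br (Nat.shiftLeft (nat_lit 0x400000400600800c00f) (nat_lit 64)) (.br (Nat.shiftLeft (nat_lit 0x1000001) (nat_lit 114)) (.one (nat_lit 0x400000300600800c00f600c09101801e611)) (.one (nat_lit 0x400000400600800c00e800c09101801c611))) (.br (Nat.shiftLeft (nat_lit 0x4000005) (nat_lit 112)) (.one (nat_lit 0x400000400600800c00f800c09101801e611)) (.br (Nat.shiftLeft (nat_lit 0x5) (nat_lit 136)) (.one (nat_lit 0x400000500600800c00ea00c09101801c611)) (.one (nat_lit 0x500000100600800c00e200c0b141801c611))))))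
def t359 : k359.all (jb2 57 fl b0) = true := by decide +kernel
noncomputable def k360 : KT := (.br (Nat.shiftLeft (nat_lit 0x500000300600800c00f) (nat_lit 64)) (.br (Nat.shiftLeft (nat_lit 0x500000200600800c00f) (nat_lit 64)) (.one (nat_lit 0x500000200600800c00e400c0b141801c611)) (.br (Nat.shiftLeft (nat_lit 0x5000003) (nat_lit 112)) (.one (nat_lit 0x500000200600800c00f400c0b141801e611)) (.one (nat_lit 0x500000300600800c00e600c0b141801c611)))) (.br (Nat.shiftLeft (nat_lit 0x500000400600800c00f) (nat_lit 64)) (.br (Nat.shiftLeft (nat_lit 0x1400001) (nat_lit 114)) (.one (nat_lit 0x500000300600800c00f600c0b141801e611)) (.one (nat_lit 0x500000400600800c00e800c0b141801c611))) (.br (Nat.shiftLeft (nat_lit 0x5000005) (nat_lit 112)) (.one (nat_lit 0x500000400600800c00f800c0b141801e611)) (.one (nat_lit 0x500000500600800c00ea00c0b141801c611)))))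
def t360 : k360.all (jb2 57 fl b0) = true := by decide +kernel
noncomputable def k361 : KT := (.br (Nat.shiftLeft (nat_lit 0x600000200600800c00f) (nat_lit 64)) (.br (Nat.shiftLeft (nat_lit 0x3000001) (nat_lit 113)) (.one (nat_lit 0x600000100600800c00e200c0d181801c611)) (.one (nat_lit 0x600000200600800c00e400c0d181801c611))) (.br (Nat.shiftLeft (nat_lit 0x6000003) (nat_lit 112)) (.one (nat_lit 0x600000200600800c00f400c0d181801e611)) (.br (Nat.shiftLeft (nat_lit 0x600000300600800c00f) (nat_lit 64)) (.one (nat_lit 0x600000300600800c00e600c0d181801c611)) (.one (nat_lit 0x600000300600800c00f600c0d181801e611)))))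
def t361 : k361.all (jb2 57 fl b0) = true := by decide +kernel
noncomputable def k362 : KT := (.br (Nat.shiftLeft (nat_lit 0x3800001) (nat_lit 113)) (.br (Nat.shiftLeft (nat_lit 0x6000005) (nat_lit 112)) (.br (Nat.shiftLeft (nat_lit 0x600000400600800c00f) (nat_lit 64)) (.one (nat_lit 0x600000400600800c00e800c0d181801c611)) (.one (nat_lit 0x600000400600800c00f800c0d181801e611))) (.br (Nat.shiftLeft (nat_lit 0x7) (nat_lit 136)) (.one (nat_lit 0x600000500600800c00ea00c0d181801c611)) (.one (nat_lit 0x700000100600800c00e200c0f1c1801c611)))) (.br (Nat.shiftLeft (nat_lit 0x7000003) (nat_lit 112)) (.br (Nat.shiftLeft (nat_lit 0x700000200600800c00f) (nat_lit 64)) (.one (nat_lit 0x700000200600800c00e400c0f1c1801c611)) (.one (nat_lit 0x700000200600800c00f400c0f1c1801e611))) (.br (Nat.shiftLeft (nat_lit 0x700000300600800c00f) (nat_lit 64)) (.one (nat_lit 0x700000300600800c00e600c0f1c1801c611)) (.one (nat_lit 0x700000300600800c00f600c0f1c1801e611)))))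
def t362 : k362.all (jb2 57 fl b0) = true := by decide +kernel
noncomputable def k363 : KT := (.br (Nat.shiftLeft (nat_lit 0x2000001) (nat_lit 114)) (.br (Nat.shiftLeft (nat_lit 0x4000001) (nat_lit 113)) (.br (Nat.shiftLeft (nat_lit 0x7000005) (nat_lit 112)) (.br (Nat.shiftLeft (nat_lit 0x700000400600800c00f) (nat_lit 64)) (.one (nat_lit 0x700000400600800c00e800c0f1c1801c611)) (.one (nat_lit 0x700000400600800c00f800c0f1c1801e611))) (.br (Nat.shiftLeft (nat_lit 0x1) (nat_lit 139)) (.one (nat_lit 0x700000500600800c00ea00c0f1c1801c611)) (.one (nat_lit 0x800000100600800c00e200c11201801c611)))) (.br (Nat.shiftLeft (nat_lit 0x8000003) (nat_lit 112)) (.br (Nat.shiftLeft (nat_lit 0x800000200600800c00f) (nat_lit 64)) (.one (nat_lit 0x800000200600800c00e400c11201801c611)) (.one (nat_lit 0x800000200600800c00f400c11201801e611))) (.br (Nat.shiftLeft (nat_lit 0x800000300600800c00f) (nat_lit 64)) (.one (nat_lit 0x800000300600800c00e600c11201801c611)) (.one (nat_lit 0x800000300600800c00f600c11201801e611))))) (.br (Nat.shiftLeft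 (nat_lit 0x4800001) (nat_lit 113)) (.br (Nat.shiftLeft (nat_lit 0x8000005) (nat_lit 112)) (.br (Nat.shiftLeft (nat_lit 0x800000400600800c00f) (nat_lit 64)) (.one (nat_lit 0x800000400600800c00e800c11201801c611)) (.one (nat_lit 0x800000400600800c00f800c11201801e611))) (.br (Nat.shiftLeft (nat_lit 0x9) (nat_lit 136)) (.one (nat_lit 0x800000500600800c00ea00c11201801c611)) (.one (nat_lit 0x900000100600800c00e200c13241801c611)))) (.br (Nat.shiftLeft (nat_lit 0x9000003) (nat_lit 112)) (.br (Nat.shiftLeft (nat_lit 0x900000200600800c00f) (nat_lit 64)) (.one (nat_lit 0x900000200600800c00e400c13241801c611)) (.one (nat_lit 0x900000200600800c00f400c13241801e611))) (.br (Nat.shiftLeft (nat_lit 0x900000300600800c00f) (nat_lit 64)) (.one (nat_lit 0x900000300600800c00e600c13241801c611)) (.one (nat_lit 0x900000300600800c00f600c13241801e611))))))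
def t363 : k363.all (jb2 57 fl b0) = true := by decide +kernel
noncomputable def k364 : KT := (.br (Nat.shiftLeft (nat_lit 0xb00000200600800c00f) (nat_lit 64)) (.br (Nat.shiftLeft (nat_lit 0xa000003) (nat_lit 112)) (.br (Nat.shiftLeft (nat_lit 0x5) (nat_lit 137)) (.br (Nat.shiftLeft (nat_lit 0x900000400600800c00f) (nat_lit 64)) (.one (nat_lit 0x900000400600800c00e800c13241801c611)) (.br (Nat.shiftLeft (nat_lit 0x9000005) (nat_lit 112)) (.one (nat_lit 0x900000400600800c00f800c13241801e611)) (.one (nat_lit 0x900000500600800c00ea00c13241801c611)))) (.br (Nat.shiftLeft (nat_lit 0x5000001) (nat_lit 113)) (.one (nat_lit 0xa00000100600800c00e200c15281801c611)) (.br (Nat.shiftLeft (nat_lit 0xa00000200600800c00f) (nat_lit 64)) (.one (nat_lit 0xa00000200600800c00e400c15281801c611)) (.one (nat_lit 0xa00000200600800c00f400c15281801e611))))) (.br (Nat.shiftLeft (nat_lit 0xa00000400600800c00f) (nat_lit 64)) (.br (Nat.shiftLeft (nat_lit 0xa00000300600800c00f) (nat_lit 64)) (.one (nat_lit 0xa00000300600800c00e600c15281801c611))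 (.br (Nat.shiftLeft (nat_lit 0x2800001) (nat_lit 114)) (.one (nat_lit 0xa00000300600800c00f600c15281801e611)) (.one (nat_lit 0xa00000400600800c00e800c15281801c611)))) (.br (Nat.shiftLeft (nat_lit 0xb) (nat_lit 136)) (.br (Nat.shiftLeft (nat_lit 0xa000005) (nat_lit 112)) (.one (nat_lit 0xa00000400600800c00f800c15281801e611)) (.one (nat_lit 0xa00000500600800c00ea00c15281801c611))) (.br (Nat.shiftLeft (nat_lit 0x5800001) (nat_lit 113)) (.one (nat_lit 0xb00000100600800c00e200c172c1801c611)) (.one (nat_lit 0xb00000200600800c00e400c172c1801c611)))))) (.br (Nat.shiftLeft (nat_lit 0x6000001) (nat_lit 113)) (.br (Nat.shiftLeft (nat_lit 0x2c00001) (nat_lit 114)) (.br (Nat.shiftLeft (nat_lit 0xb000003) (nat_lit 112)) (.one (nat_lit 0xb00000200600800c00f400c172c1801e611)) (.br (Nat.shiftLeft (nat_lit 0xb00000300600800c00f) (nat_lit 64)) (.one (nat_lit 0xb00000300600800c00e600c172c1801c611)) (.one (nat_lit 0xb00000300600800c00f600c172c1801e611)))) (.br (Nat.shiftLeft (nat_lit 0xb000005) (nat_lit 112)) (.br (Nat.shiftLeft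 (nat_lit 0xb00000400600800c00f) (nat_lit 64)) (.one (nat_lit 0xb00000400600800c00e800c172c1801c611)) (.one (nat_lit 0xb00000400600800c00f800c172c1801e611))) (.br (Nat.shiftLeft (nat_lit 0x3) (nat_lit 138)) (.one (nat_lit 0xb00000500600800c00ea00c172c1801c611)) (.one (nat_lit 0xc00000100600800c00e200c19301801c611))))) (.br (Nat.shiftLeft (nat_lit 0xc00000300600800c00f) (nat_lit 64)) (.br (Nat.shiftLeft (nat_lit 0xc00000200600800c00f) (nat_lit 64)) (.one (nat_lit 0xc00000200600800c00e400c19301801c611)) (.br (Nat.shiftLeft (nat_lit 0xc000003) (nat_lit 112)) (.one (nat_lit 0xc00000200600800c00f400c19301801e611)) (.one (nat_lit 0xc00000300600800c00e600c19301801c611)))) (.br (Nat.shiftLeft (nat_lit 0xc00000400600800c00f) (nat_lit 64)) (.br (Nat.shiftLeft (nat_lit 0x3000001) (nat_lit 114)) (.one (nat_lit 0xc00000300600800c00f600c19301801e611)) (.one (nat_lit 0xc00000400600800c00e800c19301801c611))) (.br (Nat.shiftLeft (nat_lit 0xc000005) (nat_lit 112)) (.one (nat_lit 0xc00000400600800c00f800c19301801e611)) (.one (nat_lit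 0xc00000500600800c00ea00c19301801c611)))))))
def t364 : k364.all (jb2 57 fl b0) = true := by decide +kernel
noncomputable def s19 : KT := (.br (nat_lit 0x300000600800c00f000c010078c1e511) (.br (nat_lit 0x100200600800c00f400c01003841e760) (.br (nat_lit 0x100000600800c00f000c01003841e511) (.br (nat_lit 0x500600800c00ea00c01001801d600) k346 k347) (.br (nat_lit 0x100200600800c00e400c01003841c760) k348 k349)) (.br (nat_lit 0x200000600800c00f000c01005881e511) (.br (nat_lit 0x100300600800c00f600c01003841e760) k350 k351) (.br (nat_lit 0x200300600800c00e600c01005881c760) k352 (.br (nat_lit 0x200400600800c00e800c01005881c760) k353 k354)))) (.br (nat_lit 0x500000100600800c00e200c0b141801c611) (.br (nat_lit 0x600000600800c00e000c0100d981c511) (.br (nat_lit 0x300500600800c00ea00c010078c1c760) k355 k356) (.br (nat_lit 0x800000600800c00e000c01011a01c511) k357 (.br (nat_lit 0x300000500600800c00ea00c070c1801c611) k358 k359))) (.br (nat_lit 0x600000300600800c00f600c0d181801e611) (.br (nat_lit 0x500000500600800c00ea00c0b141801c611)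 k360 k361) (.br (nat_lit 0x700000300600800c00f600c0f1c1801e611) k362 (.br (nat_lit 0x900000300600800c00f600c13241801e611) k363 k364)))))
noncomputable def u19 : KT := (.br (Nat.shiftLeft (nat_lit 0x600800c00f) (nat_lit 64)) (.one (nat_lit 0x600800c00e000c01001801c540)) (.one (nat_lit 0x600800c00f000c01001801e540)))
def w19 : u19.all (wj 57 s19) = true := by decide +kernel
def o19 : OkW 57 (jb2 57 fl) u19 := .lift s19 _ (.br _ _ _ (.br _ _ _ (.br _ _ _ (.br _ _ _ (.leaf b0 k346 t346) (.leaf b0 k347 t347)) (.br _ _ _ (.leaf b0 k348 t348) (.leaf b0 k349 t349))) (.br _ _ _ (.br _ _ _ (.leaf b0 k350 t350) (.leaf b0 k351 t351)) (.br _ _ _ (.leaf b0 k352 t352) (.br _ _ _ (.leaf b0 k353 t353) (.leaf b0 k354 t354))))) (.br _ _ _ (.br _ _ _ (.br _ _ _ (.leaf b0 k355 t355) (.leaf b0 k356 t356)) (.br _ _ _ (.leaf b0 k357 t357) (.br _ _ _ (.leaf b0 k358 t358) (.leaf b0 k359 t359)))) (.br _ _ _ (.br _ _ _ (.leaf b0 k360 t360) (.leaf b0 k361 t361)) (.br _ _ _ (.leaf b0 k362 t362) (.br _ _ _ (.leaf b0 k363 t363) (.leaf b0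 k364 t364)))))) w19
noncomputable def k365 : KT := (.br (Nat.shiftLeft (nat_lit 0x600800d) (nat_lit 76)) (.br (Nat.shiftLeft (nat_lit 0x600800c011) (nat_lit 64)) (.one (nat_lit 0x600800c010000c010018021500)) (.one (nat_lit 0x600800c011000c010018023500))) (.br (Nat.shiftLeft (nat_lit 0x600800d00f) (nat_lit 64)) (.one (nat_lit 0x600800d00e000c01001a01d500)) (.br (Nat.shiftLeft (nat_lit 0x1) (nat_lit 112)) (.one (nat_lit 0x600800d00f000c01001a01f500)) (.one (nat_lit 0x100600800c010200c010018020650)))))
def t365 : k365.all (jb2 57 fl b0) = true := by decide +kernel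
noncomputable def k366 : KT := (.one (nat_lit 0x100600800c011200c010018022650))
def t366 : k366.all (jb2 57 fl b0) = true := by decide +kernel
noncomputable def k367 : KT := (.one (nat_lit 0x100600800d00e200c01001a01c650))
def t367 : k367.all (jb2 57 fl b0) = true := by decide +kernel
noncomputable def k368 : KT := (.one (nat_lit 0x100600800d00f200c01001a01e650))
def t368 : k368.all (jb2 57 fl b0) = true := by decide +kernel
noncomputable def k369 : KT := (.one (nat_lit 0x200600800c010400c010018020650))
def t369 : k369.all (jb2 57 fl b0) = true := by decide +kernel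
noncomputable def k370 : KT := (.br (Nat.shiftLeft (nat_lit 0x200600800d) (nat_lit 76)) (.one (nat_lit 0x200600800c011400c010018022650)) (.one (nat_lit 0x200600800d00e400c01001a01d600)))
def t370 : k370.all (jb2 57 fl b0) = true := by decide +kernel
noncomputable def k371 : KT := (.one (nat_lit 0x200600800d00f400c01001a01e650))
def t371 : k371.all (jb2 57 fl b0) = true := by decide +kernel
noncomputable def k372 : KT := (.one (nat_lit 0x300600800c010600c010018020650))
def t372 : k372.all (jb2 57 fl b0) = true := by decide +kernel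
noncomputable def k373 : KT := (.br (Nat.shiftLeft (nat_lit 0x300600800d) (nat_lit 76)) (.one (nat_lit 0x300600800c011600c010018022650)) (.one (nat_lit 0x300600800d00e600c01001a01d600)))
def t373 : k373.all (jb2 57 fl b0) = true := by decide +kernel
noncomputable def k374 : KT := (.one (nat_lit 0x300600800d00f600c01001a01e650))
def t374 : k374.all (jb2 57 fl b0) = true := by decide +kernel
noncomputable def k375 : KT := (.one (nat_lit 0x400600800c010800c010018020650))
def t375 : k375.all (jb2 57 fl b0) = true := by decide +kernel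
noncomputable def k376 : KT := (.br (Nat.shiftLeft (nat_lit 0x400600800d) (nat_lit 76)) (.one (nat_lit 0x400600800c011800c010018022650)) (.one (nat_lit 0x400600800d00e800c01001a01d600)))
def t376 : k376.all (jb2 57 fl b0) = true := by decide +kernel
noncomputable def k377 : KT := (.one (nat_lit 0x400600800d00f800c01001a01e650))
def t377 : k377.all (jb2 57 fl b0) = true := by decide +kernel
noncomputable def k378 : KT := (.one (nat_lit 0x500600800c010a00c010018020650))
def t378 : k378.all (jb2 57 fl b0) = true := by decide +kernel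
noncomputable def k379 : KT := (.one (nat_lit 0x500600800c011a00c010018022650))
def t379 : k379.all (jb2 57 fl b0) = true := by decide +kernel
noncomputable def k380 : KT := (.one (nat_lit 0x500600800d00ea00c01001a01c650))
def t380 : k380.all (jb2 57 fl b0) = true := by decide +kernel
noncomputable def k381 : KT := (.br (Nat.shiftLeft (nat_lit 0x100000600800c011) (nat_lit 64)) (.br (Nat.shiftLeft (nat_lit 0x1) (nat_lit 124)) (.one (nat_lit 0x500600800d00fa00c01001a01e650)) (.one (nat_lit 0x100000600800c010000c010038420511))) (.br (Nat.shiftLeft (nat_lit 0x100000600800d) (nat_lit 76)) (.one (nat_lit 0x100000600800c011000c010038422511)) (.br (Nat.shiftLeft (nat_lit 0x100000600800d00f) (nat_lit 64)) (.one (nat_lit 0x100000600800d00e000c01003a41c511)) (.one (nat_lit 0x100000600800d00f000c01003a41e511)))))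
def t381 : k381.all (jb2 57 fl b0) = true := by decide +kernel
noncomputable def k382 : KT := (.br (Nat.shiftLeft (nat_lit 0x1003) (nat_lit 112)) (.one (nat_lit 0x100200600800d00e400c01003a41c760)) (.one (nat_lit 0x100300600800d00e600c01003a41c760)))
def t382 : k382.all (jb2 57 fl b0) = true := by decide +kernel
noncomputable def k383 : KT := (.br (Nat.shiftLeft (nat_lit 0x1001) (nat_lit 113)) (.br (Nat.shiftLeft (nat_lit 0x200000600800c011) (nat_lit 64)) (.br (Nat.shiftLeft (nat_lit 0x1) (nat_lit 125)) (.one (nat_lit 0x100400600800d00e800c01003a41c760)) (.one (nat_lit 0x200000600800c010000c010058820511))) (.br (Nat.shiftLeft (nat_lit 0x200000600800d) (nat_lit 76)) (.one (nat_lit 0x200000600800c011000c010058822511)) (.br (Nat.shiftLeft (nat_lit 0x200000600800d00f) (nat_lit 64)) (.one (nat_lit 0x200000600800d00e000c01005a81c511)) (.one (nat_lit 0x200000600800d00f000c01005a81e511))))) (.br (Nat.shiftLeft (nat_lit 0x300000600800c011) (nat_lit 64)) (.br (Nat.shiftLeft (nat_lit 0x801) (nat_lit 114)) (.one (nat_lit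 0x200300600800d00e600c01005a81c760)) (.br (Nat.shiftLeft (nat_lit 0x3) (nat_lit 124)) (.one (nat_lit 0x200400600800d00e800c01005a81c760)) (.one (nat_lit 0x300000600800c010000c010078c20511)))) (.br (Nat.shiftLeft (nat_lit 0x300000600800d) (nat_lit 76)) (.one (nat_lit 0x300000600800c011000c010078c22511)) (.br (Nat.shiftLeft (nat_lit 0x300000600800d00f) (nat_lit 64)) (.one (nat_lit 0x300000600800d00e000c01007ac1c511)) (.one (nat_lit 0x300000600800d00f000c01007ac1e511))))))
def t383 : k383.all (jb2 57 fl b0) = true := by decide +kernel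
noncomputable def k384 : KT := (.br (Nat.shiftLeft (nat_lit 0x400000600800d00f) (nat_lit 64)) (.br (Nat.shiftLeft (nat_lit 0x400000600800c011) (nat_lit 64)) (.br (Nat.shiftLeft (nat_lit 0x1) (nat_lit 126)) (.one (nat_lit 0x300400600800d00e800c01007ac1c760)) (.one (nat_lit 0x400000600800c010000c010099020511))) (.br (Nat.shiftLeft (nat_lit 0x400000600800d) (nat_lit 76)) (.one (nat_lit 0x400000600800c011000c010099022511)) (.one (nat_lit 0x400000600800d00e000c01009b01c511)))) (.br (Nat.shiftLeft (nat_lit 0x500000600800c011) (nat_lit 64)) (.br (Nat.shiftLeft (nat_lit 0x5) (nat_lit 124)) (.one (nat_lit 0x400000600800d00f000c01009b01e511)) (.one (nat_lit 0x500000600800c010000c0100b9420511))) (.br (Nat.shiftLeft (nat_lit 0x500000600800d) (nat_lit 76)) (.one (nat_lit 0x500000600800c011000c0100b9422511)) (.one (nat_lit 0x500000600800d00e000c0100bb41c511)))))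
def t384 : k384.all (jb2 57 fl b0) = true := by decide +kernel
noncomputable def k385 : KT := (.br (Nat.shiftLeft (nat_lit 0x600000600800d) (nat_lit 76)) (.br (Nat.shiftLeft (nat_lit 0x3) (nat_lit 125)) (.one (nat_lit 0x500000600800d00f000c0100bb41e511)) (.br (Nat.shiftLeft (nat_lit 0x600000600800c011) (nat_lit 64)) (.one (nat_lit 0x600000600800c010000c0100d9820511)) (.one (nat_lit 0x600000600800c011000c0100d9822511)))) (.br (Nat.shiftLeft (nat_lit 0x7) (nat_lit 124)) (.br (Nat.shiftLeft (nat_lit 0x600000600800d00f) (nat_lit 64)) (.one (nat_lit 0x600000600800d00e000c0100db81c511)) (.one (nat_lit 0x600000600800d00f000c0100db81e511))) (.br (Nat.shiftLeft (nat_lit 0x700000600800c011) (nat_lit 64)) (.one (nat_lit 0x700000600800c010000c0100f9c20511)) (.one (nat_lit 0x700000600800c011000c0100f9c22511)))))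
def t385 : k385.all (jb2 57 fl b0) = true := by decide +kernel
noncomputable def k386 : KT := (.br (Nat.shiftLeft (nat_lit 0x9) (nat_lit 124)) (.br (Nat.shiftLeft (nat_lit 0x800000600800c011) (nat_lit 64)) (.br (Nat.shiftLeft (nat_lit 0x700000600800d00f) (nat_lit 64)) (.one (nat_lit 0x700000600800d00e000c0100fbc1c511)) (.br (Nat.shiftLeft (nat_lit 0x1) (nat_lit 127)) (.one (nat_lit 0x700000600800d00f000c0100fbc1e511)) (.one (nat_lit 0x800000600800c010000c01011a020511)))) (.br (Nat.shiftLeft (nat_lit 0x800000600800d) (nat_lit 76)) (.one (nat_lit 0x800000600800c011000c01011a022511)) (.br (Nat.shiftLeft (nat_lit 0x800000600800d00f) (nat_lit 64)) (.one (nat_lit 0x800000600800d00e000c01011c01c511)) (.one (nat_lit 0x800000600800d00f000c01011c01e511))))) (.br (Nat.shiftLeft (nat_lit 0x900000600800d00f) (nat_lit 64)) (.br (Nat.shiftLeft (nat_lit 0x900000600800c011) (nat_lit 64)) (.one (nat_lit 0x900000600800c010000c01013a420511)) (.br (Nat.shiftLeft (nat_lit 0x900000600800d) (nat_lit 76)) (.one (nat_lit 0x900000600800c011000c01013a422511))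 (.one (nat_lit 0x900000600800d00e000c01013c41c511)))) (.br (Nat.shiftLeft (nat_lit 0x5) (nat_lit 125)) (.one (nat_lit 0x900000600800d00f000c01013c41e511)) (.br (Nat.shiftLeft (nat_lit 0xa00000600800c011) (nat_lit 64)) (.one (nat_lit 0xa00000600800c010000c01015a820511)) (.one (nat_lit 0xa00000600800c011000c01015a822511))))))
def t386 : k386.all (jb2 57 fl b0) = true := by decide +kernel
noncomputable def k387 : KT := (.br (Nat.shiftLeft (nat_lit 0x1000003) (nat_lit 112)) (.br (Nat.shiftLeft (nat_lit 0x3) (nat_lit 126)) (.br (Nat.shiftLeft (nat_lit 0xb00000600800c011) (nat_lit 64)) (.br (Nat.shiftLeft (nat_lit 0xa00000600800d00f) (nat_lit 64)) (.one (nat_lit 0xa00000600800d00e000c01015c81c511)) (.br (Nat.shiftLeft (nat_lit 0xb) (nat_lit 124)) (.one (nat_lit 0xa00000600800d00f000c01015c81e511)) (.one (nat_lit 0xb00000600800c010000c01017ac20511)))) (.br (Nat.shiftLeft (nat_lit 0xb00000600800d) (nat_lit 76)) (.one (nat_lit 0xb00000600800c011000c01017ac22511)) (.br (Nat.shiftLeft (nat_lit 0xb00000600800d00f) (nat_lit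 64)) (.one (nat_lit 0xb00000600800d00e000c01017cc1c511)) (.one (nat_lit 0xb00000600800d00f000c01017cc1e511))))) (.br (Nat.shiftLeft (nat_lit 0xc00000600800d00f) (nat_lit 64)) (.br (Nat.shiftLeft (nat_lit 0xc00000600800c011) (nat_lit 64)) (.one (nat_lit 0xc00000600800c010000c01019b020511)) (.br (Nat.shiftLeft (nat_lit 0xc00000600800d) (nat_lit 76)) (.one (nat_lit 0xc00000600800c011000c01019b022511)) (.one (nat_lit 0xc00000600800d00e000c01019d01c511)))) (.br (Nat.shiftLeft (nat_lit 0xd00000600800d00f) (nat_lit 64)) (.br (Nat.shiftLeft (nat_lit 0xd) (nat_lit 124)) (.one (nat_lit 0xc00000600800d00f000c01019d01e511)) (.one (nat_lit 0xd00000600800d00e000c0101bd41c511))) (.br (Nat.shiftLeft (nat_lit 0x1) (nat_lit 136)) (.one (nat_lit 0xd00000600800d00f000c0101bd41e511)) (.one (nat_lit 0x100000200600800d00e400c03041a01c611)))))) (.br (Nat.shiftLeft (nat_lit 0xc00001) (nat_lit 114)) (.br (Nat.shiftLeft (nat_lit 0x2000003) (nat_lit 112)) (.br (Nat.shiftLeft (nat_lit 0x400001) (nat_lit 114)) (.one (nat_lit 0x100000300600800d00e600c03041a01c611))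 (.br (Nat.shiftLeft (nat_lit 0x1) (nat_lit 137)) (.one (nat_lit 0x100000400600800d00e800c03041a01c611)) (.one (nat_lit 0x200000200600800d00e400c05081a01c611)))) (.br (Nat.shiftLeft (nat_lit 0x3) (nat_lit 136)) (.br (Nat.shiftLeft (nat_lit 0x800001) (nat_lit 114)) (.one (nat_lit 0x200000300600800d00e600c05081a01c611)) (.one (nat_lit 0x200000400600800d00e800c05081a01c611))) (.br (Nat.shiftLeft (nat_lit 0x3000003) (nat_lit 112)) (.one (nat_lit 0x300000200600800d00e400c070c1a01c611)) (.one (nat_lit 0x300000300600800d00e600c070c1a01c611))))) (.br (Nat.shiftLeft (nat_lit 0x1000001) (nat_lit 114)) (.br (Nat.shiftLeft (nat_lit 0x1) (nat_lit 138)) (.one (nat_lit 0x300000400600800d00e800c070c1a01c611)) (.br (Nat.shiftLeft (nat_lit 0x4000003) (nat_lit 112)) (.one (nat_lit 0x400000200600800d00e400c09101a01c611)) (.one (nat_lit 0x400000300600800d00e600c09101a01c611)))) (.br (Nat.shiftLeft (nat_lit 0x5000003) (nat_lit 112)) (.br (Nat.shiftLeft (nat_lit 0x5) (nat_lit 136)) (.one (nat_lit 0x400000400600800d00e800c09101a01c611))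 (.one (nat_lit 0x500000200600800d00e400c0b141a01c611))) (.br (Nat.shiftLeft (nat_lit 0x1400001) (nat_lit 114)) (.one (nat_lit 0x500000300600800d00e600c0b141a01c611)) (.one (nat_lit 0x500000400600800d00e800c0b141a01c611)))))))
def t387 : k387.all (jb2 57 fl b0) = true := by decide +kernel
noncomputable def k388 : KT := (.br (Nat.shiftLeft (nat_lit 0x2400001) (nat_lit 114)) (.br (Nat.shiftLeft (nat_lit 0x1c00001) (nat_lit 114)) (.br (Nat.shiftLeft (nat_lit 0x1800001) (nat_lit 114)) (.br (Nat.shiftLeft (nat_lit 0x6000003) (nat_lit 112)) (.one (nat_lit 0x600000200600800d00e400c0d181a01c611)) (.one (nat_lit 0x600000300600800d00e600c0d181a01c611))) (.br (Nat.shiftLeft (nat_lit 0x7) (nat_lit 136)) (.one (nat_lit 0x600000400600800d00e800c0d181a01c611)) (.br (Nat.shiftLeft (nat_lit 0x7000003) (nat_lit 112)) (.one (nat_lit 0x700000200600800d00e400c0f1c1a01c611)) (.one (nat_lit 0x700000300600800d00e600c0f1c1a01c611))))) (.br (Nat.shiftLeft (nat_lit 0x2000001) (nat_lit 114)) (.br (Nat.shiftLeft (nat_lit 0x1) (nat_lit 139))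 (.one (nat_lit 0x700000400600800d00e800c0f1c1a01c611)) (.br (Nat.shiftLeft (nat_lit 0x8000003) (nat_lit 112)) (.one (nat_lit 0x800000200600800d00e400c11201a01c611)) (.one (nat_lit 0x800000300600800d00e600c11201a01c611)))) (.br (Nat.shiftLeft (nat_lit 0x9) (nat_lit 136)) (.one (nat_lit 0x800000400600800d00e800c11201a01c611)) (.br (Nat.shiftLeft (nat_lit 0x9000003) (nat_lit 112)) (.one (nat_lit 0x900000200600800d00e400c13241a01c611)) (.one (nat_lit 0x900000300600800d00e600c13241a01c611)))))) (.br (Nat.shiftLeft (nat_lit 0x2c00001) (nat_lit 114)) (.br (Nat.shiftLeft (nat_lit 0x2800001) (nat_lit 114)) (.br (Nat.shiftLeft (nat_lit 0x5) (nat_lit 137)) (.one (nat_lit 0x900000400600800d00e800c13241a01c611)) (.br (Nat.shiftLeft (nat_lit 0xa000003) (nat_lit 112)) (.one (nat_lit 0xa00000200600800d00e400c15281a01c611)) (.one (nat_lit 0xa00000300600800d00e600c15281a01c611)))) (.br (Nat.shiftLeft (nat_lit 0xb) (nat_lit 136)) (.one (nat_lit 0xa00000400600800d00e800c15281a01c611)) (.br (Nat.shiftLeft (nat_lit 0xb000003) (nat_lit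 112)) (.one (nat_lit 0xb00000200600800d00e400c172c1a01c611)) (.one (nat_lit 0xb00000300600800d00e600c172c1a01c611))))) (.br (Nat.shiftLeft (nat_lit 0x3000001) (nat_lit 114)) (.br (Nat.shiftLeft (nat_lit 0x3) (nat_lit 138)) (.one (nat_lit 0xb00000400600800d00e800c172c1a01c611)) (.br (Nat.shiftLeft (nat_lit 0xc000003) (nat_lit 112)) (.one (nat_lit 0xc00000200600800d00e400c19301a01c611)) (.one (nat_lit 0xc00000300600800d00e600c19301a01c611)))) (.br (Nat.shiftLeft (nat_lit 0xd) (nat_lit 136)) (.one (nat_lit 0xc00000400600800d00e800c19301a01c611)) (.br (Nat.shiftLeft (nat_lit 0xd000003) (nat_lit 112)) (.one (nat_lit 0xd00000200600800d00e400c1b341a01c611)) (.one (nat_lit 0xd00000300600800d00e600c1b341a01c611)))))))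
def t388 : k388.all (jb2 57 fl b0) = true := by decide +kernel
noncomputable def s20 : KT := (.br (nat_lit 0x400600800d00e800c01001a01d600) (.br (nat_lit 0x200600800d00e400c01001a01d600) (.br (nat_lit 0x100600800d00e200c01001a01c650) (.br (nat_lit 0x100600800c010200c010018020650) k365 (.br (nat_lit 0x100600800c011200c010018022650) k366 k367)) (.br (nat_lit 0x100600800d00f200c01001a01e650) k368 (.br (nat_lit 0x200600800c010400c010018020650) k369 k370))) (.br (nat_lit 0x300600800d00e600c01001a01d600) (.br (nat_lit 0x200600800d00f400c01001a01e650) k371 (.br (nat_lit 0x300600800c010600c010018020650) k372 k373)) (.br (nat_lit 0x300600800d00f600c01001a01e650) k374 (.br (nat_lit 0x400600800c010800c010018020650) k375 k376)))) (.br (nat_lit 0x100300600800d00e600c01003a41c760) (.br (nat_lit 0x500600800c011a00c010018022650) (.br (nat_lit 0x400600800d00f800c01001a01e650) k377 (.br (nat_lit 0x500600800c010a00c010018020650) k378 k379)) (.br (nat_lit 0x500600800d00ea00c01001a01c650) k380 (.br (nat_lit 0x100000600800d00f000c01003a41e511)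 k381 k382))) (.br (nat_lit 0x700000600800c011000c0100f9c22511) (.br (nat_lit 0x300000600800d00f000c01007ac1e511) k383 (.br (nat_lit 0x500000600800d00e000c0100bb41c511) k384 k385)) (.br (nat_lit 0xa00000600800c011000c01015a822511) k386 (.br (nat_lit 0x500000400600800d00e800c0b141a01c611) k387 k388)))))
noncomputable def u20 : KT := (.br (Nat.shiftLeft (nat_lit 0x600800d) (nat_lit 76)) (.br (Nat.shiftLeft (nat_lit 0x600800c011) (nat_lit 64)) (.one (nat_lit 0x600800c010000c010018020540)) (.one (nat_lit 0x600800c011000c010018022540))) (.br (Nat.shiftLeft (nat_lit 0x600800d00f) (nat_lit 64)) (.one (nat_lit 0x600800d00e000c01001a01c540)) (.one (nat_lit 0x600800d00f000c01001a01e540))))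
def w20 : u20.all (wj 57 s20) = true := by decide +kernel
def o20 : OkW 57 (jb2 57 fl) u20 := .lift s20 _ (.br _ _ _ (.br _ _ _ (.br _ _ _ (.br _ _ _ (.leaf b0 k365 t365) (.br _ _ _ (.leaf b0 k366 t366) (.leaf b0 k367 t367))) (.br _ _ _ (.leaf b0 k368 t368) (.br _ _ _ (.leaf b0 k369 t369) (.leaf b0 k370 t370)))) (.br _ _ _ (.br _ _ _ (.leaf b0 k371 t371) (.br _ _ _ (.leaf b0 k372 t372) (.leaf b0 k373 t373))) (.br _ _ _ (.leaf b0 k374 t374) (.br _ _ _ (.leaf b0 k375 t375) (.leaf b0 k376 t376))))) (.br _ _ _ (.br _ _ _ (.br _ _ _ (.leaf b0 k377 t377) (.br _ _ _ (.leaf b0 k378 t378) (.leaf b0 k379 t379))) (.br _ _ _ (.leaf b0 k380 t380) (.br _ _ _ (.leaf b0 k381 t381) (.leaf b0 k382 t382)))) (.br _ _ _ (.br _ _ _ (.leaf b0 k383 t383) (.br _ _ _ (.leaf b0 k384 t384) (.leaf b0 k385 t385))) (.br _ _ _ (.leaf b0 k386 t386) (.br _ _ _ (.leaf b0 k387 t387) (.leaf b0 k388 t388)))))) w20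
noncomputable def k : KT := (.br (nat_lit 0x600800a00d000c01001401b500) (.br (nat_lit 0x600700c011000c00e018022540) (.br (nat_lit 0x600700b012000c00e016024540) (.br (nat_lit 0x600700b00f000c00e01601e540) u0 u1) (.br (nat_lit 0x600700c00d000c00e01801a540) u2 (.br (nat_lit 0x600700c00e000c00e01801c540) u3 u4))) (.br (nat_lit 0x600800900e000c01001201d500) (.br (nat_lit 0x600700d00f000c00e01a01e540) u5 u6) (.br (nat_lit 0x600800900f000c01001201e540) u7 (.br (nat_lit 0x6008009011000c010012022540) u8 u9)))) (.br (nat_lit 0x600800b00d000c01001601a540) (.br (nat_lit 0x600800a00f000c01001401e540) (.br (nat_lit 0x600800a00e000c01001401c540) u10 u11) (.br (nat_lit 0x600800a012000c010014024540) u12 (.br (nat_lit 0x600800b00c000c010016019500) u13 u14))) (.br (nat_lit 0x600800b012000c010016024540) (.br (nat_lit 0x600800b00e000c01001601c540) u15 (.br (nat_lit 0x600800b010000c010016020540) u16 u17)) (.br (nat_lit 0x600800c00d000c01001801a540) u18 (.br (nat_lit 0x600800c00f000c01001801e540) u19 u20)))))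
theorem ok : OkW 57 (jb2 57 fl) k := (.br _ _ _ (.br _ _ _ (.br _ _ _ (.br _ _ _ o0 o1) (.br _ _ _ o2 (.br _ _ _ o3 o4))) (.br _ _ _ (.br _ _ _ o5 o6) (.br _ _ _ o7 (.br _ _ _ o8 o9)))) (.br _ _ _ (.br _ _ _ (.br _ _ _ o10 o11) (.br _ _ _ o12 (.br _ _ _ o13 o14))) (.br _ _ _ (.br _ _ _ o15 (.br _ _ _ o16 o17)) (.br _ _ _ o18 (.br _ _ _ o19 o20)))))

end Pool.Agent.Lib.MP_ed43e6_ag.Q.Y57.R38
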