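import Pool.Agent.Lib.MP_ed43e6_ag.Y57.Fl

namespace Pool.Agent.Lib.MP_ed43e6_ag.Q.Y57.R39

set_option linter.defProp false

noncomputable def b0 : BT := .node (nat_lit 1) (nat_lit 0) .leaf .leaf
noncomputable def k0 : KT := (.br (Nat.shiftLeft (nat_lit 0x1802402803) (nat_lit 66)) (.br (Nat.shiftLeft (nat_lit 0x3004007) (nat_lit 77)) (.one (nat_lit 0x600800d010000c01001a021500)) (.br (Nat.shiftLeft (nat_lit 0x6009) (nat_lit 88)) (.one (nat_lit 0x600800e00f000c01001c01f500)) (.one (nat_lit 0x600900a00b000c012014017500)))) (.br (Nat.shiftLeft (nat_lit 0x1) (nat_lit 112)) (.one (nat_lit 0x600900a00c000c012014019500)) (.br (Nat.shiftLeft (nat_lit 0x803004007) (nat_lit 77)) (.one (nat_lit 0x100600800d010200c01001a020650)) (.one (nat_lit 0x100600800e00f200c01001c01e650)))))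
def t0 : k0.all (jb2 57 fl b0) = true := by decide +kernel
noncomputable def k1 : KT := (.one (nat_lit 0x200600800d010400c01001a020650))
def t1 : k1.all (jb2 57 fl b0) = true := by decide +kernel
noncomputable def k2 : KT := (.one (nat_lit 0x200600800e00f400c01001c01e650))
def t2 : k2.all (jb2 57 fl b0) = true := by decide +kernel
noncomputable def k3 : KT := (.one (nat_lit 0x300600800d010600c01001a020650))
def t3 : k3.all (jb2 57 fl b0) = true := by decide +kernel
noncomputable def k4 : KT := (.one (nat_lit 0x300600800e00f600c01001c01e650))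
def t4 : k4.all (jb2 57 fl b0) = true := by decide +kernel
noncomputable def k5 : KT := (.one (nat_lit 0x400600800d010800c01001a020650))
def t5 : k5.all (jb2 57 fl b0) = true := by decide +kernel
noncomputable def k6 : KT := (.br (Nat.shiftLeft (nat_lit 0x5) (nat_lit 112)) (.one (nat_lit 0x400600800e00f800c01001c01e650)) (.one (nat_lit 0x500600800d010a00c01001a020650)))
def t6 : k6.all (jb2 57 fl b0) = true := by decide +kernel
noncomputable def k7 : KT := (.br (Nat.shiftLeft (nat_lit 0x1800003004007) (nat_lit 77)) (.br (Nat.shiftLeft (nat_lit 0x1) (nat_lit 125)) (.br (Nat.shiftLeft (nat_lit 0x1) (nat_lit 124)) (.one (nat_lit 0x500600800e00fa00c01001c01e650)) (.br (Nat.shiftLeft (nat_lit 0x800003004007) (nat_lit 77)) (.one (nat_lit 0x100000600800d010000c01003a420511)) (.one (nat_lit 0x100000600800e00f000c01003c41e511)))) (.br (Nat.shiftLeft (nat_lit 0x1000003004007) (nat_lit 77)) (.one (nat_lit 0x200000600800d010000c01005a820511)) (.br (Nat.shiftLeft (nat_lit 0x3) (nat_lit 124)) (.one (nat_lit 0x200000600800e00f000c01005c81e511))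 (.one (nat_lit 0x300000600800d010000c01007ac20511))))) (.br (Nat.shiftLeft (nat_lit 0x5) (nat_lit 124)) (.br (Nat.shiftLeft (nat_lit 0x1) (nat_lit 126)) (.one (nat_lit 0x300000600800e00f000c01007cc1e511)) (.br (Nat.shiftLeft (nat_lit 0x2000003004007) (nat_lit 77)) (.one (nat_lit 0x400000600800d010000c01009b020511)) (.one (nat_lit 0x400000600800e00f000c01009d01e511)))) (.br (Nat.shiftLeft (nat_lit 0x2800003004007) (nat_lit 77)) (.one (nat_lit 0x500000600800d010000c0100bb420511)) (.br (Nat.shiftLeft (nat_lit 0x3) (nat_lit 125)) (.one (nat_lit 0x500000600800e00f000c0100bd41e511)) (.one (nat_lit 0x600000600800d010000c0100db820511))))))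
def t7 : k7.all (jb2 57 fl b0) = true := by decide +kernel
noncomputable def k8 : KT := (.br (Nat.shiftLeft (nat_lit 0x5000003004007) (nat_lit 77)) (.br (Nat.shiftLeft (nat_lit 0x4000003004007) (nat_lit 77)) (.br (Nat.shiftLeft (nat_lit 0x3800003004007) (nat_lit 77)) (.br (Nat.shiftLeft (nat_lit 0x7) (nat_lit 124)) (.one (nat_lit 0x600000600800e00f000c0100dd81e511)) (.one (nat_lit 0x700000600800d010000c0100fbc20511))) (.br (Nat.shiftLeft (nat_lit 0x1) (nat_lit 127)) (.one (nat_lit 0x700000600800e00f000c0100fdc1e511)) (.one (nat_lit 0x800000600800d010000c01011c020511)))) (.br (Nat.shiftLeft (nat_lit 0x4800003004007) (nat_lit 77)) (.br (Nat.shiftLeft (nat_lit 0x9) (nat_lit 124)) (.one (nat_lit 0x800000600800e00f000c01011e01e511)) (.one (nat_lit 0x900000600800d010000c01013c420511))) (.br (Nat.shiftLeft (nat_lit 0x5) (nat_lit 125)) (.one (nat_lit 0x900000600800e00f000c01013e41e511)) (.one (nat_lit 0xa00000600800d010000c01015c820511))))) (.br (Nat.shiftLeft (nat_lit 0x6000003004007) (nat_lit 77)) (.br (Nat.shiftLeft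 (nat_lit 0x5800003004007) (nat_lit 77)) (.br (Nat.shiftLeft (nat_lit 0xb) (nat_lit 124)) (.one (nat_lit 0xa00000600800e00f000c01015e81e511)) (.one (nat_lit 0xb00000600800d010000c01017cc20511))) (.br (Nat.shiftLeft (nat_lit 0x3) (nat_lit 126)) (.one (nat_lit 0xb00000600800e00f000c01017ec1e511)) (.one (nat_lit 0xc00000600800d010000c01019d020511)))) (.br (Nat.shiftLeft (nat_lit 0x6800003004007) (nat_lit 77)) (.br (Nat.shiftLeft (nat_lit 0xd) (nat_lit 124)) (.one (nat_lit 0xc00000600800e00f000c01019f01e511)) (.one (nat_lit 0xd00000600800d010000c0101bd420511))) (.br (Nat.shiftLeft (nat_lit 0x7) (nat_lit 125)) (.one (nat_lit 0xd00000600800e00f000c0101bf41e511)) (.one (nat_lit 0xe00000600800e00f000c0101df81e511))))))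
def t8 : k8.all (jb2 57 fl b0) = true := by decide +kernel
noncomputable def s0 : KT := (.br (nat_lit 0x300600800d010600c01001a020650) (.br (nat_lit 0x200600800d010400c01001a020650) (.br (nat_lit 0x100600800e00f200c01001c01e650) k0 k1) (.br (nat_lit 0x200600800e00f400c01001c01e650) k2 k3)) (.br (nat_lit 0x400600800d010800c01001a020650) (.br (nat_lit 0x300600800e00f600c01001c01e650) k4 k5) (.br (nat_lit 0x500600800d010a00c01001a020650) k6 (.br (nat_lit 0x600000600800d010000c0100db820511) k7 k8))))
noncomputable def u0 : KT := (.br (Nat.shiftLeft (nat_lit 0x6009) (nat_lit 88)) (.br (Nat.shiftLeft (nat_lit 0x3004007) (nat_lit 77)) (.one (nat_lit 0x600800d010000c01001a020540)) (.one (nat_lit 0x600800e00f000c01001c01e540))) (.br (Nat.shiftLeft (nat_lit 0x1802402803) (nat_lit 66)) (.one (nat_lit 0x600900a00b000c012014017500)) (.one (nat_lit 0x600900a00c000c012014019500))))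
def w0 : u0.all (wj 57 s0) = true := by decide +kernel
def o0 : OkW 57 (jb2 57 fl) u0 := .lift s0 _ (.br _ _ _ (.br _ _ _ (.br _ _ _ (.leaf b0 k0 t0) (.leaf b0 k1 t1)) (.br _ _ _ (.leaf b0 k2 t2) (.leaf b0 k3 t3))) (.br _ _ _ (.br _ _ _ (.leaf b0 k4 t4) (.leaf b0 k5 t5)) (.br _ _ _ (.leaf b0 k6 t6) (.br _ _ _ (.leaf b0 k7 t7) (.leaf b0 k8 t8))))) w0
noncomputable def k9 : KT := (.br (Nat.shiftLeft (nat_lit 0x5) (nat_lit 112)) (.br (Nat.shiftLeft (nat_lit 0x1) (nat_lit 113)) (.br (Nat.shiftLeft (nat_lit 0x1) (nat_lit 112)) (.one (nat_lit 0x600900a00d000c01201401b500)) (.one (nat_lit 0x100600900a00d200c01201401b600))) (.br (Nat.shiftLeft (nat_lit 0x3) (nat_lit 112)) (.one (nat_lit 0x200600900a00d400c01201401b600)) (.br (Nat.shiftLeft (nat_lit 0x1) (nat_lit 114)) (.one (nat_lit 0x300600900a00d600c01201401b600)) (.one (nat_lit 0x400600900a00d800c01201401b600))))) (.br (Nat.shiftLeft (nat_lit 0x801) (nat_lit 113)) (.br (Nat.shiftLeft (nat_lit 0x1) (nat_lit 124)) (.one (nat_lit 0x500600900a00da00c01201401b600))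 (.one (nat_lit 0x100000600900a00d000c01203441a511))) (.br (Nat.shiftLeft (nat_lit 0x1003) (nat_lit 112)) (.one (nat_lit 0x100200600900a00d400c01203441b700)) (.br (Nat.shiftLeft (nat_lit 0x401) (nat_lit 114)) (.one (nat_lit 0x100300600900a00d600c01203441b700)) (.one (nat_lit 0x100400600900a00d800c01203441a760))))))
def t9 : k9.all (jb2 57 fl b0) = true := by decide +kernel
noncomputable def k10 : KT := (.br (Nat.shiftLeft (nat_lit 0x1) (nat_lit 125)) (.one (nat_lit 0x100500600900a00da00c01203441a760)) (.br (Nat.shiftLeft (nat_lit 0x1001) (nat_lit 113)) (.one (nat_lit 0x200000600900a00d000c01205481a511)) (.one (nat_lit 0x200300600900a00d600c01205481b700))))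
def t10 : k10.all (jb2 57 fl b0) = true := by decide +kernel
noncomputable def k11 : KT := (.one (nat_lit 0x200400600900a00d800c01205481a760))
def t11 : k11.all (jb2 57 fl b0) = true := by decide +kernel
noncomputable def k12 : KT := (.br (Nat.shiftLeft (nat_lit 0x3) (nat_lit 124)) (.one (nat_lit 0x200500600900a00da00c01205481a760)) (.one (nat_lit 0x300000600900a00d000c012074c1a511)))
def t12 : k12.all (jb2 57 fl b0) = true := by decide +kernel
noncomputable def k13 : KT := (.one (nat_lit 0x300400600900a00d800c012074c1a760))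
def t13 : k13.all (jb2 57 fl b0) = true := by decide +kernel
noncomputable def k14 : KT := (.br (Nat.shiftLeft (nat_lit 0x1) (nat_lit 126)) (.one (nat_lit 0x300500600900a00da00c012074c1a760)) (.one (nat_lit 0x400000600900a00d000c01209501a511)))
def t14 : k14.all (jb2 57 fl b0) = true := by decide +kernel
noncomputable def k15 : KT := (.br (Nat.shiftLeft (nat_lit 0x5) (nat_lit 124)) (.one (nat_lit 0x400500600900a00da00c01209501a760)) (.one (nat_lit 0x500000600900a00d000c0120b541a511)))
def t15 : k15.all (jb2 57 fl b0) = true := by decide +kernel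
noncomputable def k16 : KT := (.br (Nat.shiftLeft (nat_lit 0x7) (nat_lit 124)) (.one (nat_lit 0x600000600900a00d000c0120d581a511)) (.one (nat_lit 0x700000600900a00d000c0120f5c1a511)))
def t16 : k16.all (jb2 57 fl b0) = true := by decide +kernel
noncomputable def k17 : KT := (.br (Nat.shiftLeft (nat_lit 0x800001) (nat_lit 113)) (.br (Nat.shiftLeft (nat_lit 0x5) (nat_lit 125)) (.br (Nat.shiftLeft (nat_lit 0x9) (nat_lit 124)) (.one (nat_lit 0x800000600900a00d000c01211601a511)) (.one (nat_lit 0x900000600900a00d000c01213641a511))) (.br (Nat.shiftLeft (nat_lit 0x1) (nat_lit 136)) (.one (nat_lit 0xa00000600900a00d000c01215681a511)) (.one (nat_lit 0x100000100600900a00d200c03241401a611)))) (.br (Nat.shiftLeft (nat_lit 0x400001) (nat_lit 114)) (.br (Nat.shiftLeft (nat_lit 0x1000003) (nat_lit 112)) (.one (nat_lit 0x100000200600900a00d400c03241401a611)) (.one (nat_lit 0x100000300600900a00d600c03241401a611))) (.br (Nat.shiftLeft (nat_lit 0x1000005) (nat_lit 112)) (.one (nat_lit 0x100000400600900a00d800c03241401a611))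 (.one (nat_lit 0x100000500600900a00da00c03241401a611)))))
def t17 : k17.all (jb2 57 fl b0) = true := by decide +kernel
noncomputable def k18 : KT := (.br (Nat.shiftLeft (nat_lit 0x3) (nat_lit 136)) (.br (Nat.shiftLeft (nat_lit 0x2000003) (nat_lit 112)) (.br (Nat.shiftLeft (nat_lit 0x1) (nat_lit 137)) (.one (nat_lit 0x100200300600900a00d600c03245481a870)) (.br (Nat.shiftLeft (nat_lit 0x1000001) (nat_lit 113)) (.one (nat_lit 0x200000100600900a00d200c05281401a611)) (.one (nat_lit 0x200000200600900a00d400c05281401a611)))) (.br (Nat.shiftLeft (nat_lit 0x800001) (nat_lit 114)) (.one (nat_lit 0x200000300600900a00d600c05281401a611)) (.br (Nat.shiftLeft (nat_lit 0x2000005) (nat_lit 112)) (.one (nat_lit 0x200000400600900a00d800c05281401a611)) (.one (nat_lit 0x200000500600900a00da00c05281401a611))))) (.br (Nat.shiftLeft (nat_lit 0xc00001) (nat_lit 114)) (.br (Nat.shiftLeft (nat_lit 0x1800001) (nat_lit 113)) (.one (nat_lit 0x300000100600900a00d200c072c1401a611)) (.br (Nat.shiftLeft (nat_lit 0x3000003) (nat_lit 112))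 (.one (nat_lit 0x300000200600900a00d400c072c1401a611)) (.one (nat_lit 0x300000300600900a00d600c072c1401a611)))) (.br (Nat.shiftLeft (nat_lit 0x1) (nat_lit 138)) (.br (Nat.shiftLeft (nat_lit 0x3000005) (nat_lit 112)) (.one (nat_lit 0x300000400600900a00d800c072c1401a611)) (.one (nat_lit 0x300000500600900a00da00c072c1401a611))) (.br (Nat.shiftLeft (nat_lit 0x2000001) (nat_lit 113)) (.one (nat_lit 0x400000100600900a00d200c09301401a611)) (.one (nat_lit 0x400000200600900a00d400c09301401a611))))))
def t18 : k18.all (jb2 57 fl b0) = true := by decide +kernel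
noncomputable def k19 : KT := (.br (Nat.shiftLeft (nat_lit 0x4000005) (nat_lit 112)) (.br (Nat.shiftLeft (nat_lit 0x1000001) (nat_lit 114)) (.one (nat_lit 0x400000300600900a00d600c09301401a611)) (.one (nat_lit 0x400000400600900a00d800c09301401a611))) (.br (Nat.shiftLeft (nat_lit 0x5) (nat_lit 136)) (.one (nat_lit 0x400000500600900a00da00c09301401a611)) (.br (Nat.shiftLeft (nat_lit 0x2800001) (nat_lit 113)) (.one (nat_lit 0x500000100600900a00d200c0b341401a611)) (.one (nat_lit 0x500000200600900a00d400c0b341401a611)))))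
def t19 : k19.all (jb2 57 fl b0) = true := by decide +kernel
noncomputable def k20 : KT := (.br (Nat.shiftLeft (nat_lit 0x1400001) (nat_lit 114)) (.one (nat_lit 0x500000300600900a00d600c0b341401a611)) (.br (Nat.shiftLeft (nat_lit 0x5000005) (nat_lit 112)) (.one (nat_lit 0x500000400600900a00d800c0b341401a611)) (.one (nat_lit 0x500000500600900a00da00c0b341401a611))))
def t20 : k20.all (jb2 57 fl b0) = true := by decide +kernel
noncomputable def k21 : KT := (.br (Nat.shiftLeft (nat_lit 0x3000001) (nat_lit 113)) (.one (nat_lit 0x600000100600900a00d200c0d381401a611)) (.one (nat_lit 0x600000200600900a00d400c0d381401a611)))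
def t21 : k21.all (jb2 57 fl b0) = true := by decide +kernel
noncomputable def k22 : KT := (.br (Nat.shiftLeft (nat_lit 0x1800001) (nat_lit 114)) (.one (nat_lit 0x600000300600900a00d600c0d381401a611)) (.br (Nat.shiftLeft (nat_lit 0x6000005) (nat_lit 112)) (.one (nat_lit 0x600000400600900a00d800c0d381401a611)) (.one (nat_lit 0x600000500600900a00da00c0d381401a611))))
def t22 : k22.all (jb2 57 fl b0) = true := by decide +kernel
noncomputable def k23 : KT := (.br (Nat.shiftLeft (nat_lit 0x3800001) (nat_lit 113)) (.one (nat_lit 0x700000100600900a00d200c0f3c1401a611)) (.one (nat_lit 0x700000200600900a00d400c0f3c1401a611)))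
def t23 : k23.all (jb2 57 fl b0) = true := by decide +kernel
noncomputable def k24 : KT := (.br (Nat.shiftLeft (nat_lit 0x7000005) (nat_lit 112)) (.br (Nat.shiftLeft (nat_lit 0x1c00001) (nat_lit 114)) (.one (nat_lit 0x700000300600900a00d600c0f3c1401a611)) (.one (nat_lit 0x700000400600900a00d800c0f3c1401a611))) (.br (Nat.shiftLeft (nat_lit 0x1) (nat_lit 139)) (.one (nat_lit 0x700000500600900a00da00c0f3c1401a611)) (.one (nat_lit 0x800000100600900a00d200c11401401a611))))
def t24 : k24.all (jb2 57 fl b0) = true := by decide +kernel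
noncomputable def k25 : KT := (.br (Nat.shiftLeft (nat_lit 0x2000001) (nat_lit 114)) (.br (Nat.shiftLeft (nat_lit 0x8000003) (nat_lit 112)) (.one (nat_lit 0x800000200600900a00d400c11401401a611)) (.one (nat_lit 0x800000300600900a00d600c11401401a611))) (.br (Nat.shiftLeft (nat_lit 0x8000005) (nat_lit 112)) (.one (nat_lit 0x800000400600900a00d800c11401401a611)) (.br (Nat.shiftLeft (nat_lit 0x9) (nat_lit 136)) (.one (nat_lit 0x800000500600900a00da00c11401401a611)) (.one (nat_lit 0x900000100600900a00d200c13441401a611)))))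
def t25 : k25.all (jb2 57 fl b0) = true := by decide +kernel
noncomputable def k26 : KT := (.br (Nat.shiftLeft (nat_lit 0x1) (nat_lit 148)) (.br (Nat.shiftLeft (nat_lit 0x5) (nat_lit 137)) (.br (Nat.shiftLeft (nat_lit 0x2400001) (nat_lit 114)) (.br (Nat.shiftLeft (nat_lit 0x9000003) (nat_lit 112)) (.one (nat_lit 0x900000200600900a00d400c13441401a611)) (.one (nat_lit 0x900000300600900a00d600c13441401a611))) (.br (Nat.shiftLeft (nat_lit 0x9000005) (nat_lit 112)) (.one (nat_lit 0x900000400600900a00d800c13441401a611)) (.one (nat_lit 0x900000500600900a00da00c13441401a611)))) (.br (Nat.shiftLeft (nat_lit 0xa000003) (nat_lit 112)) (.br (Nat.shiftLeft (nat_lit 0x5000001) (nat_lit 113)) (.one (nat_lit 0xa00000100600900a00d200c15481401a611)) (.one (nat_lit 0xa00000200600900a00d400c15481401a611))) (.br (Nat.shiftLeft (nat_lit 0x2800001) (nat_lit 114)) (.one (nat_lit 0xa00000300600900a00d600c15481401a611)) (.br (Nat.shiftLeft (nat_lit 0xa000005) (nat_lit 112)) (.one (nat_lit 0xa00000400600900a00d800c15481401a611))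 (.one (nat_lit 0xa00000500600900a00da00c15481401a611)))))) (.br (Nat.shiftLeft (nat_lit 0x1000001) (nat_lit 125)) (.br (Nat.shiftLeft (nat_lit 0x800001) (nat_lit 125)) (.br (Nat.shiftLeft (nat_lit 0x1000001003) (nat_lit 112)) (.one (nat_lit 0x100000100200600900a00d402c41203441a711)) (.one (nat_lit 0x100000100300600900a00d602c41203441a711))) (.br (Nat.shiftLeft (nat_lit 0x1) (nat_lit 149)) (.one (nat_lit 0x100000200300600900a00d602c41205481a711)) (.br (Nat.shiftLeft (nat_lit 0x2000001003) (nat_lit 112)) (.one (nat_lit 0x200000100200600900a00d404c81203441a711)) (.one (nat_lit 0x200000100300600900a00d604c81203441a711))))) (.br (Nat.shiftLeft (nat_lit 0x3000001003) (nat_lit 112)) (.br (Nat.shiftLeft (nat_lit 0x3) (nat_lit 148)) (.one (nat_lit 0x200000200300600900a00d604c81205481a711)) (.one (nat_lit 0x300000100200600900a00d406cc1203441a711))) (.br (Nat.shiftLeft (nat_lit 0x1800001) (nat_lit 125)) (.one (nat_lit 0x300000100300600900a00d606cc1203441a711)) (.br (Nat.shiftLeft (nat_lit 0x1) (nat_lit 150)) (.one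 (nat_lit 0x300000200300600900a00d606cc1205481a711)) (.one (nat_lit 0x400000100200600900a00d408d01203441a711)))))))
def t26 : k26.all (jb2 57 fl b0) = true := by decide +kernel
noncomputable def k27 : KT := (.br (Nat.shiftLeft (nat_lit 0x5) (nat_lit 148)) (.br (Nat.shiftLeft (nat_lit 0x2000001) (nat_lit 125)) (.one (nat_lit 0x400000100300600900a00d608d01203441a711)) (.one (nat_lit 0x400000200300600900a00d608d01205481a711))) (.br (Nat.shiftLeft (nat_lit 0x5000001003) (nat_lit 112)) (.one (nat_lit 0x500000100200600900a00d40ad41203441a711)) (.br (Nat.shiftLeft (nat_lit 0x2800001) (nat_lit 125)) (.one (nat_lit 0x500000100300600900a00d60ad41203441a711)) (.one (nat_lit 0x500000200300600900a00d60ad41205481a711)))))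
def t27 : k27.all (jb2 57 fl b0) = true := by decide +kernel
noncomputable def k28 : KT := (.br (Nat.shiftLeft (nat_lit 0x6000001003) (nat_lit 112)) (.one (nat_lit 0x600000100200600900a00d40cd81203441a711)) (.br (Nat.shiftLeft (nat_lit 0x3000001) (nat_lit 125)) (.one (nat_lit 0x600000100300600900a00d60cd81203441a711)) (.one (nat_lit 0x600000200300600900a00d60cd81205481a711))))
def t28 : k28.all (jb2 57 fl b0) = true := by decide +kernel
noncomputable def k29 : KT := (.br (Nat.shiftLeft (nat_lit 0x1) (nat_lit 151)) (.br (Nat.shiftLeft (nat_lit 0x7000001003) (nat_lit 112)) (.one (nat_lit 0x700000100200600900a00d40edc1203441a711)) (.br (Nat.shiftLeft (nat_lit 0x3800001) (nat_lit 125)) (.one (nat_lit 0x700000100300600900a00d60edc1203441a711)) (.one (nat_lit 0x700000200300600900a00d60edc1205481a711)))) (.br (Nat.shiftLeft (nat_lit 0x8000001003) (nat_lit 112)) (.one (nat_lit 0x800000100200600900a00d410e01203441a711)) (.br (Nat.shiftLeft (nat_lit 0x4000001) (nat_lit 125)) (.one (nat_lit 0x800000100300600900a00d610e01203441a711))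 (.one (nat_lit 0x800000200300600900a00d610e01205481a711)))))
def t29 : k29.all (jb2 57 fl b0) = true := by decide +kernel
noncomputable def k30 : KT := (.br (Nat.shiftLeft (nat_lit 0x5) (nat_lit 149)) (.br (Nat.shiftLeft (nat_lit 0x9000001003) (nat_lit 112)) (.one (nat_lit 0x900000100200600900a00d412e41203441a711)) (.br (Nat.shiftLeft (nat_lit 0x4800001) (nat_lit 125)) (.one (nat_lit 0x900000100300600900a00d612e41203441a711)) (.one (nat_lit 0x900000200300600900a00d612e41205481a711)))) (.br (Nat.shiftLeft (nat_lit 0xa000001003) (nat_lit 112)) (.one (nat_lit 0xa00000100200600900a00d414e81203441a711)) (.br (Nat.shiftLeft (nat_lit 0x5000001) (nat_lit 125)) (.one (nat_lit 0xa00000100300600900a00d614e81203441a711)) (.one (nat_lit 0xa00000200300600900a00d614e81205481a711)))))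
def t30 : k30.all (jb2 57 fl b0) = true := by decide +kernel
noncomputable def s1 : KT := (.br (nat_lit 0x500000200600900a00d400c0b341401a611) (.br (nat_lit 0x300400600900a00d800c012074c1a760) (.br (nat_lit 0x200300600900a00d600c01205481b700) (.br (nat_lit 0x100400600900a00d800c01203441a760) k9 k10) (.br (nat_lit 0x200400600900a00d800c01205481a760) k11 (.br (nat_lit 0x300000600900a00d000c012074c1a511) k12 k13))) (.br (nat_lit 0x700000600900a00d000c0120f5c1a511) (.br (nat_lit 0x400000600900a00d000c01209501a511) k14 (.br (nat_lit 0x500000600900a00d000c0120b541a511) k15 k16)) (.br (nat_lit 0x100000500600900a00da00c03241401a611) k17 (.br (nat_lit 0x400000200600900a00d400c09301401a611) k18 k19)))) (.br (nat_lit 0x800000100600900a00d200c11401401a611) (.br (nat_lit 0x600000200600900a00d400c0d381401a611) (.br (nat_lit 0x500000500600900a00da00c0b341401a611) k20 k21) (.br (nat_lit 0x600000500600900a00da00c0d381401a611) k22 (.br (nat_lit 0x700000200600900a00d400c0f3c1401a611) k23 k24))) (.br (nat_lit 0x500000200300600900a00d60ad41205481a711)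 (.br (nat_lit 0x900000100600900a00d200c13441401a611) k25 (.br (nat_lit 0x400000100200600900a00d408d01203441a711) k26 k27)) (.br (nat_lit 0x600000200300600900a00d60cd81205481a711) k28 (.br (nat_lit 0x800000200300600900a00d610e01205481a711) k29 k30)))))
noncomputable def u1 : KT := (.one (nat_lit 0x600900a00d000c01201401a540))
def w1 : u1.all (wj 57 s1) = true := by decide +kernel
def o1 : OkW 57 (jb2 57 fl) u1 := .lift s1 _ (.br _ _ _ (.br _ _ _ (.br _ _ _ (.br _ _ _ (.leaf b0 k9 t9) (.leaf b0 k10 t10)) (.br _ _ _ (.leaf b0 k11 t11) (.br _ _ _ (.leaf b0 k12 t12) (.leaf b0 k13 t13)))) (.br _ _ _ (.br _ _ _ (.leaf b0 k14 t14) (.br _ _ _ (.leaf b0 k15 t15) (.leaf b0 k16 t16))) (.br _ _ _ (.leaf b0 k17 t17) (.br _ _ _ (.leaf b0 k18 t18) (.leaf b0 k19 t19))))) (.br _ _ _ (.br _ _ _ (.br _ _ _ (.leaf b0 k20 t20) (.leaf b0 k21 t21)) (.br _ _ _ (.leaf b0 k22 t22) (.br _ _ _ (.leaf b0 k23 t23) (.leaf b0 k24 t24)))) (.br _ _ _ (.br _ _ _ (.leaf b0 k25 t25) (.br _ _ _ (.leaf b0 k26 t26) (.leaf b0 k27 t27))) (.br _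 _ _ (.leaf b0 k28 t28) (.br _ _ _ (.leaf b0 k29 t29) (.leaf b0 k30 t30)))))) w1
noncomputable def k31 : KT := (.br (Nat.shiftLeft (nat_lit 0x3) (nat_lit 112)) (.br (Nat.shiftLeft (nat_lit 0x1) (nat_lit 112)) (.one (nat_lit 0x600900a00e000c01201401d500)) (.br (Nat.shiftLeft (nat_lit 0x1) (nat_lit 113)) (.one (nat_lit 0x100600900a00e200c01201401d600)) (.one (nat_lit 0x200600900a00e400c01201401d600)))) (.br (Nat.shiftLeft (nat_lit 0x5) (nat_lit 112)) (.br (Nat.shiftLeft (nat_lit 0x1) (nat_lit 114)) (.one (nat_lit 0x300600900a00e600c01201401d600)) (.one (nat_lit 0x400600900a00e800c01201401d600))) (.br (Nat.shiftLeft (nat_lit 0x1) (nat_lit 124)) (.one (nat_lit 0x500600900a00ea00c01201401d600)) (.one (nat_lit 0x100000600900a00e000c01203441c511)))))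
def t31 : k31.all (jb2 57 fl b0) = true := by decide +kernel
noncomputable def k32 : KT := (.one (nat_lit 0x100200600900a00e400c01203441c760))
def t32 : k32.all (jb2 57 fl b0) = true := by decide +kernel
noncomputable def k33 : KT := (.one (nat_lit 0x100300600900a00e600c01203441c760))
def t33 : k33.all (jb2 57 fl b0) = true := by decide +kernel
noncomputable def k34 : KT := (.br (Nat.shiftLeft (nat_lit 0x1005) (nat_lit 112)) (.one (nat_lit 0x100400600900a00e800c01203441c760)) (.br (Nat.shiftLeft (nat_lit 0x1) (nat_lit 125)) (.one (nat_lit 0x100500600900a00ea00c01203441c760)) (.one (nat_lit 0x200000600900a00e000c01205481c511))))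
def t34 : k34.all (jb2 57 fl b0) = true := by decide +kernel
noncomputable def k35 : KT := (.one (nat_lit 0x200300600900a00e600c01205481c760))
def t35 : k35.all (jb2 57 fl b0) = true := by decide +kernel
noncomputable def k36 : KT := (.one (nat_lit 0x200400600900a00e800c01205481c760))
def t36 : k36.all (jb2 57 fl b0) = true := by decide +kernel
noncomputable def k37 : KT := (.br (Nat.shiftLeft (nat_lit 0x3) (nat_lit 124)) (.one (nat_lit 0x200500600900a00ea00c01205481c760)) (.one (nat_lit 0x300000600900a00e000c012074c1c511)))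
def t37 : k37.all (jb2 57 fl b0) = true := by decide +kernel
noncomputable def k38 : KT := (.one (nat_lit 0x300400600900a00e800c012074c1c760))
def t38 : k38.all (jb2 57 fl b0) = true := by decide +kernel
noncomputable def k39 : KT := (.br (Nat.shiftLeft (nat_lit 0x1) (nat_lit 126)) (.one (nat_lit 0x300500600900a00ea00c012074c1c760)) (.br (Nat.shiftLeft (nat_lit 0x1001) (nat_lit 114)) (.one (nat_lit 0x400000600900a00e000c01209501c511)) (.one (nat_lit 0x400500600900a00ea00c01209501c760))))
def t39 : k39.all (jb2 57 fl b0) = true := by decide +kernel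
noncomputable def k40 : KT := (.br (Nat.shiftLeft (nat_lit 0x3) (nat_lit 125)) (.one (nat_lit 0x500000600900a00e000c0120b541c511)) (.br (Nat.shiftLeft (nat_lit 0x7) (nat_lit 124)) (.one (nat_lit 0x600000600900a00e000c0120d581c511)) (.one (nat_lit 0x700000600900a00e000c0120f5c1c511))))
def t40 : k40.all (jb2 57 fl b0) = true := by decide +kernel
noncomputable def k41 : KT := (.br (Nat.shiftLeft (nat_lit 0x2000003) (nat_lit 112)) (.br (Nat.shiftLeft (nat_lit 0x1000003) (nat_lit 112)) (.br (Nat.shiftLeft (nat_lit 0x5) (nat_lit 125)) (.br (Nat.shiftLeft (nat_lit 0x9) (nat_lit 124)) (.one (nat_lit 0x800000600900a00e000c01211601c511)) (.one (nat_lit 0x900000600900a00e000c01213641c511))) (.br (Nat.shiftLeft (nat_lit 0x1) (nat_lit 136)) (.one (nat_lit 0xa00000600900a00e000c01215681c511)) (.br (Nat.shiftLeft (nat_lit 0x800001) (nat_lit 113)) (.one (nat_lit 0x100000100600900a00e200c03241401c611)) (.one (nat_lit 0x100000200600900a00e400c03241401c611))))) (.br (Nat.shiftLeft (nat_lit 0x1000005) (nat_lit 112)) (.br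 (Nat.shiftLeft (nat_lit 0x400001) (nat_lit 114)) (.one (nat_lit 0x100000300600900a00e600c03241401c611)) (.one (nat_lit 0x100000400600900a00e800c03241401c611))) (.br (Nat.shiftLeft (nat_lit 0x1) (nat_lit 137)) (.one (nat_lit 0x100000500600900a00ea00c03241401c611)) (.br (Nat.shiftLeft (nat_lit 0x1000001) (nat_lit 113)) (.one (nat_lit 0x200000100600900a00e200c05281401c611)) (.one (nat_lit 0x200000200600900a00e400c05281401c611)))))) (.br (Nat.shiftLeft (nat_lit 0x3000003) (nat_lit 112)) (.br (Nat.shiftLeft (nat_lit 0x2000005) (nat_lit 112)) (.br (Nat.shiftLeft (nat_lit 0x800001) (nat_lit 114)) (.one (nat_lit 0x200000300600900a00e600c05281401c611)) (.one (nat_lit 0x200000400600900a00e800c05281401c611))) (.br (Nat.shiftLeft (nat_lit 0x3) (nat_lit 136)) (.one (nat_lit 0x200000500600900a00ea00c05281401c611)) (.br (Nat.shiftLeft (nat_lit 0x1800001) (nat_lit 113)) (.one (nat_lit 0x300000100600900a00e200c072c1401c611)) (.one (nat_lit 0x300000200600900a00e400c072c1401c611))))) (.br (Nat.shiftLeft (nat_lit 0x3000005)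 (nat_lit 112)) (.br (Nat.shiftLeft (nat_lit 0xc00001) (nat_lit 114)) (.one (nat_lit 0x300000300600900a00e600c072c1401c611)) (.one (nat_lit 0x300000400600900a00e800c072c1401c611))) (.br (Nat.shiftLeft (nat_lit 0x1) (nat_lit 138)) (.one (nat_lit 0x300000500600900a00ea00c072c1401c611)) (.br (Nat.shiftLeft (nat_lit 0x2000001) (nat_lit 113)) (.one (nat_lit 0x400000100600900a00e200c09301401c611)) (.one (nat_lit 0x400000200600900a00e400c09301401c611)))))))
def t41 : k41.all (jb2 57 fl b0) = true := by decide +kernel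
noncomputable def k42 : KT := (.br (Nat.shiftLeft (nat_lit 0x5) (nat_lit 136)) (.br (Nat.shiftLeft (nat_lit 0x1000001) (nat_lit 114)) (.one (nat_lit 0x400000300600900a00e600c09301401c611)) (.br (Nat.shiftLeft (nat_lit 0x4000005) (nat_lit 112)) (.one (nat_lit 0x400000400600900a00e800c09301401c611)) (.one (nat_lit 0x400000500600900a00ea00c09301401c611)))) (.br (Nat.shiftLeft (nat_lit 0x2800001) (nat_lit 113)) (.one (nat_lit 0x500000100600900a00e200c0b341401c611)) (.br (Nat.shiftLeft (nat_lit 0x5000003) (nat_lit 112)) (.one (nat_lit 0x500000200600900a00e400c0b341401c611)) (.one (nat_lit 0x500000300600900a00e600c0b341401c611)))))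
def t42 : k42.all (jb2 57 fl b0) = true := by decide +kernel
noncomputable def k43 : KT := (.br (Nat.shiftLeft (nat_lit 0x3) (nat_lit 137)) (.br (Nat.shiftLeft (nat_lit 0x5000005) (nat_lit 112)) (.one (nat_lit 0x500000400600900a00e800c0b341401c611)) (.one (nat_lit 0x500000500600900a00ea00c0b341401c611))) (.br (Nat.shiftLeft (nat_lit 0x3000001) (nat_lit 113)) (.one (nat_lit 0x600000100600900a00e200c0d381401c611)) (.one (nat_lit 0x600000200600900a00e400c0d381401c611))))
def t43 : k43.all (jb2 57 fl b0) = true := by decide +kernel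
noncomputable def k44 : KT := (.br (Nat.shiftLeft (nat_lit 0x6000005) (nat_lit 112)) (.br (Nat.shiftLeft (nat_lit 0x1800001) (nat_lit 114)) (.one (nat_lit 0x600000300600900a00e600c0d381401c611)) (.one (nat_lit 0x600000400600900a00e800c0d381401c611))) (.br (Nat.shiftLeft (nat_lit 0x7) (nat_lit 136)) (.one (nat_lit 0x600000500600900a00ea00c0d381401c611)) (.one (nat_lit 0x700000100600900a00e200c0f3c1401c611))))
def t44 : k44.all (jb2 57 fl b0) = true := by decide +kernel
noncomputable def k45 : KT := (.br (Nat.shiftLeft (nat_lit 0x1c00001) (nat_lit 114)) (.br (Nat.shiftLeft (nat_lit 0x7000003) (nat_lit 112)) (.one (nat_lit 0x700000200600900a00e400c0f3c1401c611)) (.one (nat_lit 0x700000300600900a00e600c0f3c1401c611))) (.br (Nat.shiftLeft (nat_lit 0x7000005) (nat_lit 112)) (.one (nat_lit 0x700000400600900a00e800c0f3c1401c611)) (.br (Nat.shiftLeft (nat_lit 0x1) (nat_lit 139)) (.one (nat_lit 0x700000500600900a00ea00c0f3c1401c611)) (.one (nat_lit 0x800000100600900a00e200c11401401c611)))))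
def t45 : k45.all (jb2 57 fl b0) = true := by decide +kernel
noncomputable def k46 : KT := (.br (Nat.shiftLeft (nat_lit 0x4800001) (nat_lit 113)) (.br (Nat.shiftLeft (nat_lit 0x2000001) (nat_lit 114)) (.br (Nat.shiftLeft (nat_lit 0x8000003) (nat_lit 112)) (.one (nat_lit 0x800000200600900a00e400c11401401c611)) (.one (nat_lit 0x800000300600900a00e600c11401401c611))) (.br (Nat.shiftLeft (nat_lit 0x8000005) (nat_lit 112)) (.one (nat_lit 0x800000400600900a00e800c11401401c611)) (.br (Nat.shiftLeft (nat_lit 0x9) (nat_lit 136)) (.one (nat_lit 0x800000500600900a00ea00c11401401c611)) (.one (nat_lit 0x900000100600900a00e200c13441401c611))))) (.br (Nat.shiftLeft (nat_lit 0x9000005) (nat_lit 112)) (.br (Nat.shiftLeft (nat_lit 0x9000003) (nat_lit 112)) (.one (nat_lit 0x900000200600900a00e400c13441401c611)) (.br (Nat.shiftLeft (nat_lit 0x2400001) (nat_lit 114)) (.one (nat_lit 0x900000300600900a00e600c13441401c611)) (.one (nat_lit 0x900000400600900a00e800c13441401c611)))) (.br (Nat.shiftLeft (nat_lit 0x5) (nat_lit 137))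 (.one (nat_lit 0x900000500600900a00ea00c13441401c611)) (.br (Nat.shiftLeft (nat_lit 0x5000001) (nat_lit 113)) (.one (nat_lit 0xa00000100600900a00e200c15481401c611)) (.one (nat_lit 0xa00000200600900a00e400c15481401c611))))))
def t46 : k46.all (jb2 57 fl b0) = true := by decide +kernel
noncomputable def k47 : KT := (.br (Nat.shiftLeft (nat_lit 0x2800001) (nat_lit 114)) (.one (nat_lit 0xa00000300600900a00e600c15481401c611)) (.br (Nat.shiftLeft (nat_lit 0xa000005) (nat_lit 112)) (.one (nat_lit 0xa00000400600900a00e800c15481401c611)) (.one (nat_lit 0xa00000500600900a00ea00c15481401c611))))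
def t47 : k47.all (jb2 57 fl b0) = true := by decide +kernel
noncomputable def s2 : KT := (.br (nat_lit 0x300400600900a00e800c012074c1c760) (.br (nat_lit 0x200000600900a00e000c01205481c511) (.br (nat_lit 0x100200600900a00e400c01203441c760) (.br (nat_lit 0x100000600900a00e000c01203441c511) k31 k32) (.br (nat_lit 0x100300600900a00e600c01203441c760) k33 k34)) (.br (nat_lit 0x200400600900a00e800c01205481c760) (.br (nat_lit 0x200300600900a00e600c01205481c760) k35 k36) (.br (nat_lit 0x300000600900a00e000c012074c1c511) k37 k38))) (.br (nat_lit 0x500000300600900a00e600c0b341401c611) (.br (nat_lit 0x700000600900a00e000c0120f5c1c511) (.br (nat_lit 0x400500600900a00ea00c01209501c760) k39 k40) (.br (nat_lit 0x400000200600900a00e400c09301401c611) k41 k42)) (.br (nat_lit 0x700000100600900a00e200c0f3c1401c611) (.br (nat_lit 0x600000200600900a00e400c0d381401c611) k43 k44) (.br (nat_lit 0x800000100600900a00e200c11401401c611) k45 (.br (nat_lit 0xa00000200600900a00e400c15481401c611) k46 k47)))))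
noncomputable def u2 : KT := (.one (nat_lit 0x600900a00e000c01201401c540))
def w2 : u2.all (wj 57 s2) = true := by decide +kernel
def o2 : OkW 57 (jb2 57 fl) u2 := .lift s2 _ (.br _ _ _ (.br _ _ _ (.br _ _ _ (.br _ _ _ (.leaf b0 k31 t31) (.leaf b0 k32 t32)) (.br _ _ _ (.leaf b0 k33 t33) (.leaf b0 k34 t34))) (.br _ _ _ (.br _ _ _ (.leaf b0 k35 t35) (.leaf b0 k36 t36)) (.br _ _ _ (.leaf b0 k37 t37) (.leaf b0 k38 t38)))) (.br _ _ _ (.br _ _ _ (.br _ _ _ (.leaf b0 k39 t39) (.leaf b0 k40 t40)) (.br _ _ _ (.leaf b0 k41 t41) (.leaf b0 k42 t42))) (.br _ _ _ (.br _ _ _ (.leaf b0 k43 t43) (.leaf b0 k44 t44)) (.br _ _ _ (.leaf b0 k45 t45) (.br _ _ _ (.leaf b0 k46 t46) (.leaf b0 k47 t47)))))) w2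
noncomputable def k48 : KT := (.br (Nat.shiftLeft (nat_lit 0x600900a011) (nat_lit 64)) (.br (Nat.shiftLeft (nat_lit 0x600900a01) (nat_lit 68)) (.one (nat_lit 0x600900a00f000c01201401f500)) (.one (nat_lit 0x600900a010000c012014021500))) (.br (Nat.shiftLeft (nat_lit 0x1) (nat_lit 112)) (.one (nat_lit 0x600900a011000c012014023500)) (.br (Nat.shiftLeft (nat_lit 0x100600900a01) (nat_lit 68)) (.one (nat_lit 0x100600900a00f200c01201401f600)) (.one (nat_lit 0x100600900a010200c012014020650)))))
def t48 : k48.all (jb2 57 fl b0) = true := by decide +kernel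
noncomputable def k49 : KT := (.br (Nat.shiftLeft (nat_lit 0x1) (nat_lit 113)) (.one (nat_lit 0x100600900a011200c012014022650)) (.br (Nat.shiftLeft (nat_lit 0x200600900a01) (nat_lit 68)) (.one (nat_lit 0x200600900a00f400c01201401f600)) (.one (nat_lit 0x200600900a010400c012014021600))))
def t49 : k49.all (jb2 57 fl b0) = true := by decide +kernel
noncomputable def k50 : KT := (.br (Nat.shiftLeft (nat_lit 0x3) (nat_lit 112)) (.one (nat_lit 0x200600900a011400c012014022650)) (.br (Nat.shiftLeft (nat_lit 0x300600900a01) (nat_lit 68)) (.one (nat_lit 0x300600900a00f600c01201401f600)) (.one (nat_lit 0x300600900a010600c012014021600))))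
def t50 : k50.all (jb2 57 fl b0) = true := by decide +kernel
noncomputable def k51 : KT := (.br (Nat.shiftLeft (nat_lit 0x1) (nat_lit 114)) (.one (nat_lit 0x300600900a011600c012014022650)) (.br (Nat.shiftLeft (nat_lit 0x400600900a01) (nat_lit 68)) (.one (nat_lit 0x400600900a00f800c01201401f600)) (.one (nat_lit 0x400600900a010800c012014021600))))
def t51 : k51.all (jb2 57 fl b0) = true := by decide +kernel
noncomputable def k52 : KT := (.br (Nat.shiftLeft (nat_lit 0x5) (nat_lit 112)) (.one (nat_lit 0x400600900a011800c012014022650)) (.one (nat_lit 0x500600900a00fa00c01201401f600)))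
def t52 : k52.all (jb2 57 fl b0) = true := by decide +kernel
noncomputable def k53 : KT := (.one (nat_lit 0x500600900a010a00c012014020650))
def t53 : k53.all (jb2 57 fl b0) = true := by decide +kernel
noncomputable def k54 : KT := (.br (Nat.shiftLeft (nat_lit 0x100000600900a01) (nat_lit 68)) (.br (Nat.shiftLeft (nat_lit 0x1) (nat_lit 124)) (.one (nat_lit 0x500600900a011a00c012014022650)) (.one (nat_lit 0x100000600900a00f000c01203441e511))) (.br (Nat.shiftLeft (nat_lit 0x100000600900a011) (nat_lit 64)) (.one (nat_lit 0x100000600900a010000c012034420511)) (.one (nat_lit 0x100000600900a011000c012034422511))))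
def t54 : k54.all (jb2 57 fl b0) = true := by decide +kernel
noncomputable def k55 : KT := (.one (nat_lit 0x100200600900a00f400c01203441e760))
def t55 : k55.all (jb2 57 fl b0) = true := by decide +kernel
noncomputable def k56 : KT := (.br (Nat.shiftLeft (nat_lit 0x1003) (nat_lit 112)) (.one (nat_lit 0x100200600900a010400c012034420760)) (.one (nat_lit 0x100300600900a00f600c01203441e760)))
def t56 : k56.all (jb2 57 fl b0) = true := by decide +kernel
noncomputable def k57 : KT := (.br (Nat.shiftLeft (nat_lit 0x401) (nat_lit 114)) (.one (nat_lit 0x100300600900a010600c012034420760)) (.br (Nat.shiftLeft (nat_lit 0x100400600900a01) (nat_lit 68)) (.one (nat_lit 0x100400600900a00f800c01203441e760)) (.one (nat_lit 0x100400600900a010800c012034420760))))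
def t57 : k57.all (jb2 57 fl b0) = true := by decide +kernel
noncomputable def k58 : KT := (.br (Nat.shiftLeft (nat_lit 0x200000600900a01) (nat_lit 68)) (.br (Nat.shiftLeft (nat_lit 0x1) (nat_lit 125)) (.one (nat_lit 0x100500600900a00fa00c01203441e760)) (.one (nat_lit 0x200000600900a00f000c01205481e511))) (.br (Nat.shiftLeft (nat_lit 0x200000600900a011) (nat_lit 64)) (.one (nat_lit 0x200000600900a010000c012054820511)) (.br (Nat.shiftLeft (nat_lit 0x1001) (nat_lit 113)) (.one (nat_lit 0x200000600900a011000c012054822511)) (.one (nat_lit 0x200300600900a00f600c01205481e760)))))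
def t58 : k58.all (jb2 57 fl b0) = true := by decide +kernel
noncomputable def k59 : KT := (.br (Nat.shiftLeft (nat_lit 0x801) (nat_lit 114)) (.one (nat_lit 0x200300600900a010600c012054820760)) (.one (nat_lit 0x200400600900a00f800c01205481e760)))
def t59 : k59.all (jb2 57 fl b0) = true := by decide +kernel
noncomputable def k60 : KT := (.br (Nat.shiftLeft (nat_lit 0x3) (nat_lit 124)) (.br (Nat.shiftLeft (nat_lit 0x2005) (nat_lit 112)) (.one (nat_lit 0x200400600900a010800c012054820760)) (.one (nat_lit 0x200500600900a00fa00c01205481e760))) (.br (Nat.shiftLeft (nat_lit 0x300000600900a01) (nat_lit 68)) (.one (nat_lit 0x300000600900a00f000c012074c1e511)) (.br (Nat.shiftLeft (nat_lit 0x300000600900a011) (nat_lit 64)) (.one (nat_lit 0x300000600900a010000c012074c20511)) (.one (nat_lit 0x300000600900a011000c012074c22511)))))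
def t60 : k60.all (jb2 57 fl b0) = true := by decide +kernel
noncomputable def k61 : KT := (.br (Nat.shiftLeft (nat_lit 0x300400600900a01) (nat_lit 68)) (.one (nat_lit 0x300400600900a00f800c012074c1e760)) (.br (Nat.shiftLeft (nat_lit 0x3005) (nat_lit 112)) (.one (nat_lit 0x300400600900a010800c012074c20760)) (.one (nat_lit 0x300500600900a00fa00c012074c1e760))))
def t61 : k61.all (jb2 57 fl b0) = true := by decide +kernel
noncomputable def k62 : KT := (.br (Nat.shiftLeft (nat_lit 0x1001) (nat_lit 114)) (.br (Nat.shiftLeft (nat_lit 0x400000600900a01) (nat_lit 68)) (.one (nat_lit 0x400000600900a00f000c01209501e511)) (.br (Nat.shiftLeft (nat_lit 0x400000600900a011) (nat_lit 64)) (.one (nat_lit 0x400000600900a010000c012095020511)) (.one (nat_lit 0x400000600900a011000c012095022511)))) (.br (Nat.shiftLeft (nat_lit 0x500000600900a01) (nat_lit 68)) (.br (Nat.shiftLeft (nat_lit 0x5) (nat_lit 124)) (.one (nat_lit 0x400500600900a00fa00c01209501e760)) (.one (nat_lit 0x500000600900a00f000c0120b541e511))) (.br (Nat.shiftLeft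 (nat_lit 0x500000600900a011) (nat_lit 64)) (.one (nat_lit 0x500000600900a010000c0120b5420511)) (.one (nat_lit 0x500000600900a011000c0120b5422511)))))
def t62 : k62.all (jb2 57 fl b0) = true := by decide +kernel
noncomputable def k63 : KT := (.br (Nat.shiftLeft (nat_lit 0x600000600900a011) (nat_lit 64)) (.br (Nat.shiftLeft (nat_lit 0x600000600900a01) (nat_lit 68)) (.one (nat_lit 0x600000600900a00f000c0120d581e511)) (.one (nat_lit 0x600000600900a010000c0120d5820511))) (.br (Nat.shiftLeft (nat_lit 0x7) (nat_lit 124)) (.one (nat_lit 0x600000600900a011000c0120d5822511)) (.br (Nat.shiftLeft (nat_lit 0x700000600900a01) (nat_lit 68)) (.one (nat_lit 0x700000600900a00f000c0120f5c1e511)) (.one (nat_lit 0x700000600900a010000c0120f5c20511)))))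
def t63 : k63.all (jb2 57 fl b0) = true := by decide +kernel
noncomputable def k64 : KT := (.br (Nat.shiftLeft (nat_lit 0x5) (nat_lit 125)) (.br (Nat.shiftLeft (nat_lit 0x800000600900a011) (nat_lit 64)) (.br (Nat.shiftLeft (nat_lit 0x1) (nat_lit 127)) (.one (nat_lit 0x700000600900a011000c0120f5c22511)) (.br (Nat.shiftLeft (nat_lit 0x800000600900a01) (nat_lit 68)) (.one (nat_lit 0x800000600900a00f000c01211601e511)) (.one (nat_lit 0x800000600900a010000c012116020511)))) (.br (Nat.shiftLeft (nat_lit 0x900000600900a01) (nat_lit 68)) (.br (Nat.shiftLeft (nat_lit 0x9) (nat_lit 124)) (.one (nat_lit 0x800000600900a011000c012116022511)) (.one (nat_lit 0x900000600900a00f000c01213641e511))) (.br (Nat.shiftLeft (nat_lit 0x900000600900a011) (nat_lit 64)) (.one (nat_lit 0x900000600900a010000c012136420511)) (.one (nat_lit 0x900000600900a011000c012136422511))))) (.br (Nat.shiftLeft (nat_lit 0x1) (nat_lit 136)) (.br (Nat.shiftLeft (nat_lit 0xa00000600900a01) (nat_lit 68)) (.one (nat_lit 0xa00000600900a00f000c01215681e511))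 (.br (Nat.shiftLeft (nat_lit 0xa00000600900a011) (nat_lit 64)) (.one (nat_lit 0xa00000600900a010000c012156820511)) (.one (nat_lit 0xa00000600900a011000c012156822511)))) (.br (Nat.shiftLeft (nat_lit 0x100000200600900a01) (nat_lit 68)) (.br (Nat.shiftLeft (nat_lit 0x800001) (nat_lit 113)) (.one (nat_lit 0x100000100600900a00f200c03241401e611)) (.one (nat_lit 0x100000200600900a00f400c03241401e611))) (.br (Nat.shiftLeft (nat_lit 0x1000003) (nat_lit 112)) (.one (nat_lit 0x100000200600900a010400c032414020611)) (.one (nat_lit 0x100000300600900a00f600c03241401e611))))))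
def t64 : k64.all (jb2 57 fl b0) = true := by decide +kernel
noncomputable def k65 : KT := (.br (Nat.shiftLeft (nat_lit 0x300000200600900a01) (nat_lit 68)) (.br (Nat.shiftLeft (nat_lit 0x2000003) (nat_lit 112)) (.br (Nat.shiftLeft (nat_lit 0x1000005) (nat_lit 112)) (.br (Nat.shiftLeft (nat_lit 0x400001) (nat_lit 114)) (.one (nat_lit 0x100000300600900a010600c032414020611)) (.br (Nat.shiftLeft (nat_lit 0x100000400600900a01) (nat_lit 68)) (.one (nat_lit 0x100000400600900a00f800c03241401e611)) (.one (nat_lit 0x100000400600900a010800c032414020611)))) (.br (Nat.shiftLeft (nat_lit 0x1000001) (nat_lit 113)) (.br (Nat.shiftLeft (nat_lit 0x1) (nat_lit 137)) (.one (nat_lit 0x100000500600900a00fa00c03241401e611)) (.one (nat_lit 0x200000100600900a00f200c05281401e611))) (.br (Nat.shiftLeft (nat_lit 0x200000200600900a01) (nat_lit 68)) (.one (nat_lit 0x200000200600900a00f400c05281401e611)) (.one (nat_lit 0x200000200600900a010400c052814020611))))) (.br (Nat.shiftLeft (nat_lit 0x200000400600900a01) (nat_lit 68)) (.br (Nat.shiftLeft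 (nat_lit 0x200000300600900a01) (nat_lit 68)) (.one (nat_lit 0x200000300600900a00f600c05281401e611)) (.br (Nat.shiftLeft (nat_lit 0x800001) (nat_lit 114)) (.one (nat_lit 0x200000300600900a010600c052814020611)) (.one (nat_lit 0x200000400600900a00f800c05281401e611)))) (.br (Nat.shiftLeft (nat_lit 0x3) (nat_lit 136)) (.br (Nat.shiftLeft (nat_lit 0x2000005) (nat_lit 112)) (.one (nat_lit 0x200000400600900a010800c052814020611)) (.one (nat_lit 0x200000500600900a00fa00c05281401e611))) (.br (Nat.shiftLeft (nat_lit 0x1800001) (nat_lit 113)) (.one (nat_lit 0x300000100600900a00f200c072c1401e611)) (.one (nat_lit 0x300000200600900a00f400c072c1401e611)))))) (.br (Nat.shiftLeft (nat_lit 0x2000001) (nat_lit 113)) (.br (Nat.shiftLeft (nat_lit 0xc00001) (nat_lit 114)) (.br (Nat.shiftLeft (nat_lit 0x3000003) (nat_lit 112)) (.one (nat_lit 0x300000200600900a010400c072c14020611)) (.br (Nat.shiftLeft (nat_lit 0x300000300600900a01) (nat_lit 68)) (.one (nat_lit 0x300000300600900a00f600c072c1401e611)) (.one (nat_lit 0x300000300600900a010600c072c14020611))))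 (.br (Nat.shiftLeft (nat_lit 0x3000005) (nat_lit 112)) (.br (Nat.shiftLeft (nat_lit 0x300000400600900a01) (nat_lit 68)) (.one (nat_lit 0x300000400600900a00f800c072c1401e611)) (.one (nat_lit 0x300000400600900a010800c072c14020611))) (.br (Nat.shiftLeft (nat_lit 0x1) (nat_lit 138)) (.one (nat_lit 0x300000500600900a00fa00c072c1401e611)) (.one (nat_lit 0x400000100600900a00f200c09301401e611))))) (.br (Nat.shiftLeft (nat_lit 0x400000300600900a01) (nat_lit 68)) (.br (Nat.shiftLeft (nat_lit 0x400000200600900a01) (nat_lit 68)) (.one (nat_lit 0x400000200600900a00f400c09301401e611)) (.br (Nat.shiftLeft (nat_lit 0x4000003) (nat_lit 112)) (.one (nat_lit 0x400000200600900a010400c093014020611)) (.one (nat_lit 0x400000300600900a00f600c09301401e611)))) (.br (Nat.shiftLeft (nat_lit 0x400000400600900a01) (nat_lit 68)) (.br (Nat.shiftLeft (nat_lit 0x1000001) (nat_lit 114)) (.one (nat_lit 0x400000300600900a010600c093014020611)) (.one (nat_lit 0x400000400600900a00f800c09301401e611))) (.br (Nat.shiftLeft (nat_lit 0x4000005) (nat_lit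 112)) (.one (nat_lit 0x400000400600900a010800c093014020611)) (.one (nat_lit 0x400000500600900a00fa00c09301401e611)))))))
def t65 : k65.all (jb2 57 fl b0) = true := by decide +kernel
noncomputable def k66 : KT := (.br (Nat.shiftLeft (nat_lit 0x500000300600900a01) (nat_lit 68)) (.br (Nat.shiftLeft (nat_lit 0x500000200600900a01) (nat_lit 68)) (.br (Nat.shiftLeft (nat_lit 0x2800001) (nat_lit 113)) (.one (nat_lit 0x500000100600900a00f200c0b341401e611)) (.one (nat_lit 0x500000200600900a00f400c0b341401e611))) (.br (Nat.shiftLeft (nat_lit 0x5000003) (nat_lit 112)) (.one (nat_lit 0x500000200600900a010400c0b3414020611)) (.one (nat_lit 0x500000300600900a00f600c0b341401e611)))) (.br (Nat.shiftLeft (nat_lit 0x500000400600900a01) (nat_lit 68)) (.br (Nat.shiftLeft (nat_lit 0x1400001) (nat_lit 114)) (.one (nat_lit 0x500000300600900a010600c0b3414020611)) (.one (nat_lit 0x500000400600900a00f800c0b341401e611))) (.br (Nat.shiftLeft (nat_lit 0x5000005) (nat_lit 112)) (.one (nat_lit 0x500000400600900a010800c0b3414020611)) (.one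 (nat_lit 0x500000500600900a00fa00c0b341401e611)))))
def t66 : k66.all (jb2 57 fl b0) = true := by decide +kernel
noncomputable def k67 : KT := (.br (Nat.shiftLeft (nat_lit 0x6000003) (nat_lit 112)) (.br (Nat.shiftLeft (nat_lit 0x3000001) (nat_lit 113)) (.one (nat_lit 0x600000100600900a00f200c0d381401e611)) (.br (Nat.shiftLeft (nat_lit 0x600000200600900a01) (nat_lit 68)) (.one (nat_lit 0x600000200600900a00f400c0d381401e611)) (.one (nat_lit 0x600000200600900a010400c0d3814020611)))) (.br (Nat.shiftLeft (nat_lit 0x600000300600900a01) (nat_lit 68)) (.one (nat_lit 0x600000300600900a00f600c0d381401e611)) (.br (Nat.shiftLeft (nat_lit 0x1800001) (nat_lit 114)) (.one (nat_lit 0x600000300600900a010600c0d3814020611)) (.one (nat_lit 0x600000400600900a00f800c0d381401e611)))))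
def t67 : k67.all (jb2 57 fl b0) = true := by decide +kernel
noncomputable def k68 : KT := (.br (Nat.shiftLeft (nat_lit 0x7000003) (nat_lit 112)) (.br (Nat.shiftLeft (nat_lit 0x7) (nat_lit 136)) (.br (Nat.shiftLeft (nat_lit 0x6000005) (nat_lit 112)) (.one (nat_lit 0x600000400600900a010800c0d3814020611)) (.one (nat_lit 0x600000500600900a00fa00c0d381401e611))) (.br (Nat.shiftLeft (nat_lit 0x3800001) (nat_lit 113)) (.one (nat_lit 0x700000100600900a00f200c0f3c1401e611)) (.br (Nat.shiftLeft (nat_lit 0x700000200600900a01) (nat_lit 68)) (.one (nat_lit 0x700000200600900a00f400c0f3c1401e611)) (.one (nat_lit 0x700000200600900a010400c0f3c14020611))))) (.br (Nat.shiftLeft (nat_lit 0x1c00001) (nat_lit 114)) (.br (Nat.shiftLeft (nat_lit 0x700000300600900a01) (nat_lit 68)) (.one (nat_lit 0x700000300600900a00f600c0f3c1401e611)) (.one (nat_lit 0x700000300600900a010600c0f3c14020611))) (.br (Nat.shiftLeft (nat_lit 0x700000400600900a01) (nat_lit 68)) (.one (nat_lit 0x700000400600900a00f800c0f3c1401e611)) (.br (Nat.shiftLeft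 (nat_lit 0x7000005) (nat_lit 112)) (.one (nat_lit 0x700000400600900a010800c0f3c14020611)) (.one (nat_lit 0x700000500600900a00fa00c0f3c1401e611))))))
def t68 : k68.all (jb2 57 fl b0) = true := by decide +kernel
noncomputable def k69 : KT := (.br (Nat.shiftLeft (nat_lit 0x4800001) (nat_lit 113)) (.br (Nat.shiftLeft (nat_lit 0x800000300600900a01) (nat_lit 68)) (.br (Nat.shiftLeft (nat_lit 0x800000200600900a01) (nat_lit 68)) (.br (Nat.shiftLeft (nat_lit 0x4000001) (nat_lit 113)) (.one (nat_lit 0x800000100600900a00f200c11401401e611)) (.one (nat_lit 0x800000200600900a00f400c11401401e611))) (.br (Nat.shiftLeft (nat_lit 0x8000003) (nat_lit 112)) (.one (nat_lit 0x800000200600900a010400c114014020611)) (.one (nat_lit 0x800000300600900a00f600c11401401e611)))) (.br (Nat.shiftLeft (nat_lit 0x800000400600900a01) (nat_lit 68)) (.br (Nat.shiftLeft (nat_lit 0x2000001) (nat_lit 114)) (.one (nat_lit 0x800000300600900a010600c114014020611)) (.one (nat_lit 0x800000400600900a00f800c11401401e611))) (.br (Nat.shiftLeft (nat_lit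 0x8000005) (nat_lit 112)) (.one (nat_lit 0x800000400600900a010800c114014020611)) (.br (Nat.shiftLeft (nat_lit 0x9) (nat_lit 136)) (.one (nat_lit 0x800000500600900a00fa00c11401401e611)) (.one (nat_lit 0x900000100600900a00f200c13441401e611)))))) (.br (Nat.shiftLeft (nat_lit 0x900000400600900a01) (nat_lit 68)) (.br (Nat.shiftLeft (nat_lit 0x9000003) (nat_lit 112)) (.br (Nat.shiftLeft (nat_lit 0x900000200600900a01) (nat_lit 68)) (.one (nat_lit 0x900000200600900a00f400c13441401e611)) (.one (nat_lit 0x900000200600900a010400c134414020611))) (.br (Nat.shiftLeft (nat_lit 0x900000300600900a01) (nat_lit 68)) (.one (nat_lit 0x900000300600900a00f600c13441401e611)) (.br (Nat.shiftLeft (nat_lit 0x2400001) (nat_lit 114)) (.one (nat_lit 0x900000300600900a010600c134414020611)) (.one (nat_lit 0x900000400600900a00f800c13441401e611))))) (.br (Nat.shiftLeft (nat_lit 0x5) (nat_lit 137)) (.br (Nat.shiftLeft (nat_lit 0x9000005) (nat_lit 112)) (.one (nat_lit 0x900000400600900a010800c134414020611)) (.one (nat_lit 0x900000500600900a00fa00c13441401e611)))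 (.br (Nat.shiftLeft (nat_lit 0x5000001) (nat_lit 113)) (.one (nat_lit 0xa00000100600900a00f200c15481401e611)) (.br (Nat.shiftLeft (nat_lit 0xa00000200600900a01) (nat_lit 68)) (.one (nat_lit 0xa00000200600900a00f400c15481401e611)) (.one (nat_lit 0xa00000200600900a010400c154814020611)))))))
def t69 : k69.all (jb2 57 fl b0) = true := by decide +kernel
noncomputable def k70 : KT := (.br (Nat.shiftLeft (nat_lit 0x2800001) (nat_lit 114)) (.br (Nat.shiftLeft (nat_lit 0xa00000300600900a01) (nat_lit 68)) (.one (nat_lit 0xa00000300600900a00f600c15481401e611)) (.one (nat_lit 0xa00000300600900a010600c154814020611))) (.br (Nat.shiftLeft (nat_lit 0xa00000400600900a01) (nat_lit 68)) (.one (nat_lit 0xa00000400600900a00f800c15481401e611)) (.br (Nat.shiftLeft (nat_lit 0xa000005) (nat_lit 112)) (.one (nat_lit 0xa00000400600900a010800c154814020611)) (.one (nat_lit 0xa00000500600900a00fa00c15481401e611)))))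
def t70 : k70.all (jb2 57 fl b0) = true := by decide +kernel
noncomputable def s3 : KT := (.br (nat_lit 0x200300600900a00f600c01205481e760) (.br (nat_lit 0x500600900a00fa00c01201401f600) (.br (nat_lit 0x200600900a010400c012014021600) (.br (nat_lit 0x100600900a010200c012014020650) k48 k49) (.br (nat_lit 0x300600900a010600c012014021600) k50 (.br (nat_lit 0x400600900a010800c012014021600) k51 k52))) (.br (nat_lit 0x100200600900a00f400c01203441e760) (.br (nat_lit 0x500600900a010a00c012014020650) k53 (.br (nat_lit 0x100000600900a011000c012034422511) k54 k55)) (.br (nat_lit 0x100300600900a00f600c01203441e760) k56 (.br (nat_lit 0x100400600900a010800c012034420760) k57 k58)))) (.br (nat_lit 0x100000300600900a00f600c03241401e611) (.br (nat_lit 0x300500600900a00fa00c012074c1e760) (.br (nat_lit 0x200400600900a00f800c01205481e760) k59 (.br (nat_lit 0x300000600900a011000c012074c22511) k60 k61)) (.br (nat_lit 0x500000600900a011000c0120b5422511) k62 (.br (nat_lit 0x700000600900a010000c0120f5c20511) k63 k64))) (.br (nat_lit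 0x600000400600900a00f800c0d381401e611) (.br (nat_lit 0x400000500600900a00fa00c09301401e611) k65 (.br (nat_lit 0x500000500600900a00fa00c0b341401e611) k66 k67)) (.br (nat_lit 0x700000500600900a00fa00c0f3c1401e611) k68 (.br (nat_lit 0xa00000200600900a010400c154814020611) k69 k70)))))
noncomputable def u3 : KT := (.br (Nat.shiftLeft (nat_lit 0x600900a01) (nat_lit 68)) (.one (nat_lit 0x600900a00f000c01201401e540)) (.br (Nat.shiftLeft (nat_lit 0x600900a011) (nat_lit 64)) (.one (nat_lit 0x600900a010000c012014020540)) (.one (nat_lit 0x600900a011000c012014022540))))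
def w3 : u3.all (wj 57 s3) = true := by decide +kernel
def o3 : OkW 57 (jb2 57 fl) u3 := .lift s3 _ (.br _ _ _ (.br _ _ _ (.br _ _ _ (.br _ _ _ (.leaf b0 k48 t48) (.leaf b0 k49 t49)) (.br _ _ _ (.leaf b0 k50 t50) (.br _ _ _ (.leaf b0 k51 t51) (.leaf b0 k52 t52)))) (.br _ _ _ (.br _ _ _ (.leaf b0 k53 t53) (.br _ _ _ (.leaf b0 k54 t54) (.leaf b0 k55 t55))) (.br _ _ _ (.leaf b0 k56 t56) (.br _ _ _ (.leaf b0 k57 t57) (.leaf b0 k58 t58))))) (.br _ _ _ (.br _ _ _ (.br _ _ _ (.leaf b0 k59 t59) (.br _ _ _ (.leaf b0 k60 t60) (.leaf b0 k61 t61))) (.br _ _ _ (.leaf b0 k62 t62) (.br _ _ _ (.leaf b0 k63 t63) (.leaf b0 k64 t64)))) (.br _ _ _ (.br _ _ _ (.leaf b0 k65 t65) (.br _ _ _ (.leaf b0 k66 t66) (.leaf b0 k67 t67))) (.br _ _ _ (.leaf b0 k68 t68) (.br _ _ _ (.leaf b0 k69 t69) (.leaf b0 k70 t70)))))) w3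
noncomputable def k71 : KT := (.br (Nat.shiftLeft (nat_lit 0x1) (nat_lit 112)) (.one (nat_lit 0x600900a012000c012014025500)) (.br (Nat.shiftLeft (nat_lit 0x1) (nat_lit 113)) (.one (nat_lit 0x100600900a012200c012014024650)) (.one (nat_lit 0x200600900a012400c012014024650))))
def t71 : k71.all (jb2 57 fl b0) = true := by decide +kernel
noncomputable def k72 : KT := (.one (nat_lit 0x300600900a012600c012014024650))
def t72 : k72.all (jb2 57 fl b0) = true := by decide +kernel
noncomputable def k73 : KT := (.br (Nat.shiftLeft (nat_lit 0x1) (nat_lit 124)) (.br (Nat.shiftLeft (nat_lit 0x5) (nat_lit 112)) (.one (nat_lit 0x400600900a012800c012014024650)) (.one (nat_lit 0x500600900a012a00c012014024650))) (.br (Nat.shiftLeft (nat_lit 0x1) (nat_lit 125)) (.one (nat_lit 0x100000600900a012000c012034424511)) (.br (Nat.shiftLeft (nat_lit 0x3) (nat_lit 124)) (.one (nat_lit 0x200000600900a012000c012054824511)) (.one (nat_lit 0x300000600900a012000c012074c24511)))))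
def t73 : k73.all (jb2 57 fl b0) = true := by decide +kernel
noncomputable def k74 : KT := (.br (Nat.shiftLeft (nat_lit 0x7) (nat_lit 124)) (.br (Nat.shiftLeft (nat_lit 0x5) (nat_lit 124)) (.one (nat_lit 0x400000600900a012000c012095024511)) (.br (Nat.shiftLeft (nat_lit 0x3) (nat_lit 125)) (.one (nat_lit 0x500000600900a012000c0120b5424511)) (.one (nat_lit 0x600000600900a012000c0120d5824511)))) (.br (Nat.shiftLeft (nat_lit 0x9) (nat_lit 124)) (.br (Nat.shiftLeft (nat_lit 0x1) (nat_lit 127)) (.one (nat_lit 0x700000600900a012000c0120f5c24511)) (.one (nat_lit 0x800000600900a012000c012116024511))) (.br (Nat.shiftLeft (nat_lit 0x5) (nat_lit 125)) (.one (nat_lit 0x900000600900a012000c012136424511)) (.one (nat_lit 0xa00000600900a012000c012156824511)))))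
def t74 : k74.all (jb2 57 fl b0) = true := by decide +kernel
noncomputable def s4 : KT := (.br (nat_lit 0x300600900a012600c012014024650) (.br (nat_lit 0x200600900a012400c012014024650) k71 k72) (.br (nat_lit 0x300000600900a012000c012074c24511) k73 k74))
noncomputable def u4 : KT := (.one (nat_lit 0x600900a012000c012014024540))
def w4 : u4.all (wj 57 s4) = true := by decide +kernel
def o4 : OkW 57 (jb2 57 fl) u4 := .lift s4 _ (.br _ _ _ (.br _ _ _ (.leaf b0 k71 t71) (.leaf b0 k72 t72)) (.br _ _ _ (.leaf b0 k73 t73) (.leaf b0 k74 t74))) w4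
noncomputable def k75 : KT := (.br (Nat.shiftLeft (nat_lit 0x5) (nat_lit 112)) (.br (Nat.shiftLeft (nat_lit 0x1) (nat_lit 113)) (.br (Nat.shiftLeft (nat_lit 0x1) (nat_lit 112)) (.one (nat_lit 0x600900b00c000c012016019500)) (.one (nat_lit 0x100600900b00c200c012016019600))) (.br (Nat.shiftLeft (nat_lit 0x3) (nat_lit 112)) (.one (nat_lit 0x200600900b00c400c012016019600)) (.br (Nat.shiftLeft (nat_lit 0x1) (nat_lit 114)) (.one (nat_lit 0x300600900b00c600c012016019600)) (.one (nat_lit 0x400600900b00c800c012016019600))))) (.br (Nat.shiftLeft (nat_lit 0x801) (nat_lit 113)) (.br (Nat.shiftLeft (nat_lit 0x1) (nat_lit 124)) (.one (nat_lit 0x500600900b00ca00c012016019600)) (.one (nat_lit 0x100000600900b00c000c012036418511))) (.br (Nat.shiftLeft (nat_lit 0x1003) (nat_lit 112)) (.one (nat_lit 0x100200600900b00c400c012036419700)) (.br (Nat.shiftLeft (nat_lit 0x401) (nat_lit 114)) (.one (nat_lit 0x100300600900b00c600c012036419700)) (.one (nat_lit 0x100400600900b00c800c012036418760))))))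
def t75 : k75.all (jb2 57 fl b0) = true := by decide +kernel
noncomputable def k76 : KT := (.br (Nat.shiftLeft (nat_lit 0x1) (nat_lit 125)) (.one (nat_lit 0x100500600900b00ca00c012036418760)) (.br (Nat.shiftLeft (nat_lit 0x1001) (nat_lit 113)) (.one (nat_lit 0x200000600900b00c000c012056818511)) (.one (nat_lit 0x200300600900b00c600c012056819700))))
def t76 : k76.all (jb2 57 fl b0) = true := by decide +kernel
noncomputable def k77 : KT := (.one (nat_lit 0x200400600900b00c800c012056818760))
def t77 : k77.all (jb2 57 fl b0) = true := by decide +kernel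
noncomputable def k78 : KT := (.br (Nat.shiftLeft (nat_lit 0x3) (nat_lit 124)) (.one (nat_lit 0x200500600900b00ca00c012056818760)) (.one (nat_lit 0x300000600900b00c000c012076c18511)))
def t78 : k78.all (jb2 57 fl b0) = true := by decide +kernel
noncomputable def k79 : KT := (.one (nat_lit 0x300400600900b00c800c012076c18760))
def t79 : k79.all (jb2 57 fl b0) = true := by decide +kernel
noncomputable def k80 : KT := (.br (Nat.shiftLeft (nat_lit 0x1) (nat_lit 126)) (.one (nat_lit 0x300500600900b00ca00c012076c18760)) (.one (nat_lit 0x400000600900b00c000c012097018511)))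
def t80 : k80.all (jb2 57 fl b0) = true := by decide +kernel
noncomputable def k81 : KT := (.br (Nat.shiftLeft (nat_lit 0x5) (nat_lit 124)) (.one (nat_lit 0x400500600900b00ca00c012097018760)) (.one (nat_lit 0x500000600900b00c000c0120b7418511)))
def t81 : k81.all (jb2 57 fl b0) = true := by decide +kernel
noncomputable def k82 : KT := (.br (Nat.shiftLeft (nat_lit 0x7) (nat_lit 124)) (.one (nat_lit 0x600000600900b00c000c0120d7818511)) (.one (nat_lit 0x700000600900b00c000c0120f7c18511)))
def t82 : k82.all (jb2 57 fl b0) = true := by decide +kernel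
noncomputable def k83 : KT := (.br (Nat.shiftLeft (nat_lit 0x1) (nat_lit 136)) (.br (Nat.shiftLeft (nat_lit 0x5) (nat_lit 125)) (.br (Nat.shiftLeft (nat_lit 0x9) (nat_lit 124)) (.one (nat_lit 0x800000600900b00c000c012118018511)) (.one (nat_lit 0x900000600900b00c000c012138418511))) (.br (Nat.shiftLeft (nat_lit 0xb) (nat_lit 124)) (.one (nat_lit 0xa00000600900b00c000c012158818511)) (.one (nat_lit 0xb00000600900b00c000c012178c18511)))) (.br (Nat.shiftLeft (nat_lit 0x1000003) (nat_lit 112)) (.br (Nat.shiftLeft (nat_lit 0x800001) (nat_lit 113)) (.one (nat_lit 0x100000100600900b00c200c032416018611)) (.one (nat_lit 0x100000200600900b00c400c032416018611))) (.br (Nat.shiftLeft (nat_lit 0x400001) (nat_lit 114)) (.one (nat_lit 0x100000300600900b00c600c032416018611)) (.br (Nat.shiftLeft (nat_lit 0x1000005) (nat_lit 112)) (.one (nat_lit 0x100000400600900b00c800c032416018611)) (.one (nat_lit 0x100000500600900b00ca00c032416018611))))))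
def t83 : k83.all (jb2 57 fl b0) = true := by decide +kernel
noncomputable def k84 : KT := (.br (Nat.shiftLeft (nat_lit 0x1800001) (nat_lit 113)) (.br (Nat.shiftLeft (nat_lit 0x2000003) (nat_lit 112)) (.br (Nat.shiftLeft (nat_lit 0x1) (nat_lit 137)) (.one (nat_lit 0x100200300600900b00c600c032456818870)) (.br (Nat.shiftLeft (nat_lit 0x1000001) (nat_lit 113)) (.one (nat_lit 0x200000100600900b00c200c052816018611)) (.one (nat_lit 0x200000200600900b00c400c052816018611)))) (.br (Nat.shiftLeft (nat_lit 0x2000005) (nat_lit 112)) (.br (Nat.shiftLeft (nat_lit 0x800001) (nat_lit 114)) (.one (nat_lit 0x200000300600900b00c600c052816018611)) (.one (nat_lit 0x200000400600900b00c800c052816018611))) (.br (Nat.shiftLeft (nat_lit 0x3) (nat_lit 136)) (.one (nat_lit 0x200000500600900b00ca00c052816018611)) (.one (nat_lit 0x300000100600900b00c200c072c16018611))))) (.br (Nat.shiftLeft (nat_lit 0x3000005) (nat_lit 112)) (.br (Nat.shiftLeft (nat_lit 0x3000003) (nat_lit 112)) (.one (nat_lit 0x300000200600900b00c400c072c16018611))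 (.br (Nat.shiftLeft (nat_lit 0xc00001) (nat_lit 114)) (.one (nat_lit 0x300000300600900b00c600c072c16018611)) (.one (nat_lit 0x300000400600900b00c800c072c16018611)))) (.br (Nat.shiftLeft (nat_lit 0x2000001) (nat_lit 113)) (.br (Nat.shiftLeft (nat_lit 0x1) (nat_lit 138)) (.one (nat_lit 0x300000500600900b00ca00c072c16018611)) (.one (nat_lit 0x400000100600900b00c200c093016018611))) (.br (Nat.shiftLeft (nat_lit 0x4000003) (nat_lit 112)) (.one (nat_lit 0x400000200600900b00c400c093016018611)) (.one (nat_lit 0x400000300600900b00c600c093016018611))))))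
def t84 : k84.all (jb2 57 fl b0) = true := by decide +kernel
noncomputable def k85 : KT := (.br (Nat.shiftLeft (nat_lit 0x5) (nat_lit 136)) (.br (Nat.shiftLeft (nat_lit 0x4000005) (nat_lit 112)) (.one (nat_lit 0x400000400600900b00c800c093016018611)) (.one (nat_lit 0x400000500600900b00ca00c093016018611))) (.br (Nat.shiftLeft (nat_lit 0x2800001) (nat_lit 113)) (.one (nat_lit 0x500000100600900b00c200c0b3416018611)) (.one (nat_lit 0x500000200600900b00c400c0b3416018611))))
def t85 : k85.all (jb2 57 fl b0) = true := by decide +kernel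
noncomputable def k86 : KT := (.br (Nat.shiftLeft (nat_lit 0x1400001) (nat_lit 114)) (.one (nat_lit 0x500000300600900b00c600c0b3416018611)) (.br (Nat.shiftLeft (nat_lit 0x5000005) (nat_lit 112)) (.one (nat_lit 0x500000400600900b00c800c0b3416018611)) (.one (nat_lit 0x500000500600900b00ca00c0b3416018611))))
def t86 : k86.all (jb2 57 fl b0) = true := by decide +kernel
noncomputable def k87 : KT := (.br (Nat.shiftLeft (nat_lit 0x3000001) (nat_lit 113)) (.one (nat_lit 0x600000100600900b00c200c0d3816018611)) (.one (nat_lit 0x600000200600900b00c400c0d3816018611)))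
def t87 : k87.all (jb2 57 fl b0) = true := by decide +kernel
noncomputable def k88 : KT := (.br (Nat.shiftLeft (nat_lit 0x1800001) (nat_lit 114)) (.one (nat_lit 0x600000300600900b00c600c0d3816018611)) (.br (Nat.shiftLeft (nat_lit 0x6000005) (nat_lit 112)) (.one (nat_lit 0x600000400600900b00c800c0d3816018611)) (.one (nat_lit 0x600000500600900b00ca00c0d3816018611))))
def t88 : k88.all (jb2 57 fl b0) = true := by decide +kernel
noncomputable def k89 : KT := (.br (Nat.shiftLeft (nat_lit 0x3800001) (nat_lit 113)) (.one (nat_lit 0x700000100600900b00c200c0f3c16018611)) (.one (nat_lit 0x700000200600900b00c400c0f3c16018611)))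
def t89 : k89.all (jb2 57 fl b0) = true := by decide +kernel
noncomputable def k90 : KT := (.br (Nat.shiftLeft (nat_lit 0x7000005) (nat_lit 112)) (.br (Nat.shiftLeft (nat_lit 0x1c00001) (nat_lit 114)) (.one (nat_lit 0x700000300600900b00c600c0f3c16018611)) (.one (nat_lit 0x700000400600900b00c800c0f3c16018611))) (.br (Nat.shiftLeft (nat_lit 0x1) (nat_lit 139)) (.one (nat_lit 0x700000500600900b00ca00c0f3c16018611)) (.one (nat_lit 0x800000100600900b00c200c114016018611))))
def t90 : k90.all (jb2 57 fl b0) = true := by decide +kernel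
noncomputable def k91 : KT := (.br (Nat.shiftLeft (nat_lit 0x2000001) (nat_lit 114)) (.br (Nat.shiftLeft (nat_lit 0x8000003) (nat_lit 112)) (.one (nat_lit 0x800000200600900b00c400c114016018611)) (.one (nat_lit 0x800000300600900b00c600c114016018611))) (.br (Nat.shiftLeft (nat_lit 0x8000005) (nat_lit 112)) (.one (nat_lit 0x800000400600900b00c800c114016018611)) (.br (Nat.shiftLeft (nat_lit 0x9) (nat_lit 136)) (.one (nat_lit 0x800000500600900b00ca00c114016018611)) (.one (nat_lit 0x900000100600900b00c200c134416018611)))))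
def t91 : k91.all (jb2 57 fl b0) = true := by decide +kernel
noncomputable def k92 : KT := (.br (Nat.shiftLeft (nat_lit 0x5800001) (nat_lit 113)) (.br (Nat.shiftLeft (nat_lit 0x5000001) (nat_lit 113)) (.br (Nat.shiftLeft (nat_lit 0x2400001) (nat_lit 114)) (.br (Nat.shiftLeft (nat_lit 0x9000003) (nat_lit 112)) (.one (nat_lit 0x900000200600900b00c400c134416018611)) (.one (nat_lit 0x900000300600900b00c600c134416018611))) (.br (Nat.shiftLeft (nat_lit 0x9000005) (nat_lit 112)) (.one (nat_lit 0x900000400600900b00c800c134416018611)) (.br (Nat.shiftLeft (nat_lit 0x5) (nat_lit 137)) (.one (nat_lit 0x900000500600900b00ca00c134416018611)) (.one (nat_lit 0xa00000100600900b00c200c154816018611))))) (.br (Nat.shiftLeft (nat_lit 0x2800001) (nat_lit 114)) (.br (Nat.shiftLeft (nat_lit 0xa000003) (nat_lit 112)) (.one (nat_lit 0xa00000200600900b00c400c154816018611)) (.one (nat_lit 0xa00000300600900b00c600c154816018611))) (.br (Nat.shiftLeft (nat_lit 0xa000005) (nat_lit 112)) (.one (nat_lit 0xa00000400600900b00c800c154816018611))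 (.br (Nat.shiftLeft (nat_lit 0xb) (nat_lit 136)) (.one (nat_lit 0xa00000500600900b00ca00c154816018611)) (.one (nat_lit 0xb00000100600900b00c200c174c16018611)))))) (.br (Nat.shiftLeft (nat_lit 0x1000001003) (nat_lit 112)) (.br (Nat.shiftLeft (nat_lit 0x2c00001) (nat_lit 114)) (.br (Nat.shiftLeft (nat_lit 0xb000003) (nat_lit 112)) (.one (nat_lit 0xb00000200600900b00c400c174c16018611)) (.one (nat_lit 0xb00000300600900b00c600c174c16018611))) (.br (Nat.shiftLeft (nat_lit 0xb000005) (nat_lit 112)) (.one (nat_lit 0xb00000400600900b00c800c174c16018611)) (.br (Nat.shiftLeft (nat_lit 0x1) (nat_lit 148)) (.one (nat_lit 0xb00000500600900b00ca00c174c16018611)) (.one (nat_lit 0x100000100200600900b00c402c412036418711))))) (.br (Nat.shiftLeft (nat_lit 0x1) (nat_lit 149)) (.br (Nat.shiftLeft (nat_lit 0x800001) (nat_lit 125)) (.one (nat_lit 0x100000100300600900b00c602c412036418711)) (.one (nat_lit 0x100000200300600900b00c602c412056818711))) (.br (Nat.shiftLeft (nat_lit 0x2000001003) (nat_lit 112)) (.one (nat_lit 0x200000100200600900b00c404c812036418711))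 (.br (Nat.shiftLeft (nat_lit 0x1000001) (nat_lit 125)) (.one (nat_lit 0x200000100300600900b00c604c812036418711)) (.one (nat_lit 0x200000200300600900b00c604c812056818711)))))))
def t92 : k92.all (jb2 57 fl b0) = true := by decide +kernel
noncomputable def k93 : KT := (.br (Nat.shiftLeft (nat_lit 0x4000001003) (nat_lit 112)) (.br (Nat.shiftLeft (nat_lit 0x1800001) (nat_lit 125)) (.br (Nat.shiftLeft (nat_lit 0x3000001003) (nat_lit 112)) (.one (nat_lit 0x300000100200600900b00c406cc12036418711)) (.one (nat_lit 0x300000100300600900b00c606cc12036418711))) (.br (Nat.shiftLeft (nat_lit 0x1) (nat_lit 150)) (.one (nat_lit 0x300000200300600900b00c606cc12056818711)) (.one (nat_lit 0x400000100200600900b00c408d012036418711)))) (.br (Nat.shiftLeft (nat_lit 0x5) (nat_lit 148)) (.br (Nat.shiftLeft (nat_lit 0x2000001) (nat_lit 125)) (.one (nat_lit 0x400000100300600900b00c608d012036418711)) (.one (nat_lit 0x400000200300600900b00c608d012056818711))) (.br (Nat.shiftLeft (nat_lit 0x5000001003) (nat_lit 112)) (.one (nat_lit 0x500000100200600900b00c40ad412036418711))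 (.one (nat_lit 0x500000100300600900b00c60ad412036418711)))))
def t93 : k93.all (jb2 57 fl b0) = true := by decide +kernel
noncomputable def k94 : KT := (.br (Nat.shiftLeft (nat_lit 0x6000001003) (nat_lit 112)) (.br (Nat.shiftLeft (nat_lit 0x3) (nat_lit 149)) (.one (nat_lit 0x500000200300600900b00c60ad412056818711)) (.one (nat_lit 0x600000100200600900b00c40cd812036418711))) (.br (Nat.shiftLeft (nat_lit 0x3000001) (nat_lit 125)) (.one (nat_lit 0x600000100300600900b00c60cd812036418711)) (.one (nat_lit 0x600000200300600900b00c60cd812056818711))))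
def t94 : k94.all (jb2 57 fl b0) = true := by decide +kernel
noncomputable def k95 : KT := (.br (Nat.shiftLeft (nat_lit 0x1) (nat_lit 151)) (.br (Nat.shiftLeft (nat_lit 0x7000001003) (nat_lit 112)) (.one (nat_lit 0x700000100200600900b00c40edc12036418711)) (.br (Nat.shiftLeft (nat_lit 0x3800001) (nat_lit 125)) (.one (nat_lit 0x700000100300600900b00c60edc12036418711)) (.one (nat_lit 0x700000200300600900b00c60edc12056818711)))) (.br (Nat.shiftLeft (nat_lit 0x8000001003) (nat_lit 112)) (.one (nat_lit 0x800000100200600900b00c410e012036418711)) (.br (Nat.shiftLeft (nat_lit 0x4000001) (nat_lit 125)) (.one (nat_lit 0x800000100300600900b00c610e012036418711)) (.one (nat_lit 0x800000200300600900b00c610e012056818711)))))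
def t95 : k95.all (jb2 57 fl b0) = true := by decide +kernel
noncomputable def k96 : KT := (.br (Nat.shiftLeft (nat_lit 0xa000001003) (nat_lit 112)) (.br (Nat.shiftLeft (nat_lit 0x4800001) (nat_lit 125)) (.br (Nat.shiftLeft (nat_lit 0x9000001003) (nat_lit 112)) (.one (nat_lit 0x900000100200600900b00c412e412036418711)) (.one (nat_lit 0x900000100300600900b00c612e412036418711))) (.br (Nat.shiftLeft (nat_lit 0x5) (nat_lit 149)) (.one (nat_lit 0x900000200300600900b00c612e412056818711)) (.one (nat_lit 0xa00000100200600900b00c414e812036418711)))) (.br (Nat.shiftLeft (nat_lit 0xb) (nat_lit 148)) (.br (Nat.shiftLeft (nat_lit 0x5000001) (nat_lit 125)) (.one (nat_lit 0xa00000100300600900b00c614e812036418711)) (.one (nat_lit 0xa00000200300600900b00c614e812056818711))) (.br (Nat.shiftLeft (nat_lit 0xb000001003) (nat_lit 112)) (.one (nat_lit 0xb00000100200600900b00c416ec12036418711)) (.br (Nat.shiftLeft (nat_lit 0x5800001) (nat_lit 125)) (.one (nat_lit 0xb00000100300600900b00c616ec12036418711)) (.one (nat_lit 0xb00000200300600900b00c616ec12056818711))))))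
def t96 : k96.all (jb2 57 fl b0) = true := by decide +kernel
noncomputable def s5 : KT := (.br (nat_lit 0x500000200600900b00c400c0b3416018611) (.br (nat_lit 0x300400600900b00c800c012076c18760) (.br (nat_lit 0x200300600900b00c600c012056819700) (.br (nat_lit 0x100400600900b00c800c012036418760) k75 k76) (.br (nat_lit 0x200400600900b00c800c012056818760) k77 (.br (nat_lit 0x300000600900b00c000c012076c18511) k78 k79))) (.br (nat_lit 0x700000600900b00c000c0120f7c18511) (.br (nat_lit 0x400000600900b00c000c012097018511) k80 (.br (nat_lit 0x500000600900b00c000c0120b7418511) k81 k82)) (.br (nat_lit 0x100000500600900b00ca00c032416018611) k83 (.br (nat_lit 0x400000300600900b00c600c093016018611) k84 k85)))) (.br (nat_lit 0x800000100600900b00c200c114016018611) (.br (nat_lit 0x600000200600900b00c400c0d3816018611) (.br (nat_lit 0x500000500600900b00ca00c0b3416018611) k86 k87) (.br (nat_lit 0x600000500600900b00ca00c0d3816018611) k88 (.br (nat_lit 0x700000200600900b00c400c0f3c16018611) k89 k90))) (.br (nat_lit 0x500000100300600900b00c60ad412036418711)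 (.br (nat_lit 0x900000100600900b00c200c134416018611) k91 (.br (nat_lit 0x200000200300600900b00c604c812056818711) k92 k93)) (.br (nat_lit 0x600000200300600900b00c60cd812056818711) k94 (.br (nat_lit 0x800000200300600900b00c610e012056818711) k95 k96)))))
noncomputable def u5 : KT := (.one (nat_lit 0x600900b00c000c012016018540))
def w5 : u5.all (wj 57 s5) = true := by decide +kernel
def o5 : OkW 57 (jb2 57 fl) u5 := .lift s5 _ (.br _ _ _ (.br _ _ _ (.br _ _ _ (.br _ _ _ (.leaf b0 k75 t75) (.leaf b0 k76 t76)) (.br _ _ _ (.leaf b0 k77 t77) (.br _ _ _ (.leaf b0 k78 t78) (.leaf b0 k79 t79)))) (.br _ _ _ (.br _ _ _ (.leaf b0 k80 t80) (.br _ _ _ (.leaf b0 k81 t81) (.leaf b0 k82 t82))) (.br _ _ _ (.leaf b0 k83 t83) (.br _ _ _ (.leaf b0 k84 t84) (.leaf b0 k85 t85))))) (.br _ _ _ (.br _ _ _ (.br _ _ _ (.leaf b0 k86 t86) (.leaf b0 k87 t87)) (.br _ _ _ (.leaf b0 k88 t88) (.br _ _ _ (.leaf b0 k89 t89) (.leaf b0 k90 t90)))) (.br _ _ _ (.br _ _ _ (.leaf b0 k91 t91) (.br _ _ _ (.leaf b0 k92 t92) (.leaf b0 k93 t93))) (.br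 _ _ _ (.leaf b0 k94 t94) (.br _ _ _ (.leaf b0 k95 t95) (.leaf b0 k96 t96)))))) w5
noncomputable def k97 : KT := (.br (Nat.shiftLeft (nat_lit 0x1) (nat_lit 114)) (.br (Nat.shiftLeft (nat_lit 0x1) (nat_lit 113)) (.br (Nat.shiftLeft (nat_lit 0x1) (nat_lit 112)) (.one (nat_lit 0x600900b00d000c01201601b500)) (.one (nat_lit 0x100600900b00d200c01201601b600))) (.br (Nat.shiftLeft (nat_lit 0x3) (nat_lit 112)) (.one (nat_lit 0x200600900b00d400c01201601b600)) (.one (nat_lit 0x300600900b00d600c01201601b600)))) (.br (Nat.shiftLeft (nat_lit 0x1) (nat_lit 124)) (.br (Nat.shiftLeft (nat_lit 0x5) (nat_lit 112)) (.one (nat_lit 0x400600900b00d800c01201601b600)) (.one (nat_lit 0x500600900b00da00c01201601b600))) (.br (Nat.shiftLeft (nat_lit 0x801) (nat_lit 113)) (.one (nat_lit 0x100000600900b00d000c01203641a511)) (.br (Nat.shiftLeft (nat_lit 0x1003) (nat_lit 112)) (.one (nat_lit 0x100200600900b00d400c01203641b700)) (.one (nat_lit 0x100300600900b00d600c01203641a760))))))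
def t97 : k97.all (jb2 57 fl b0) = true := by decide +kernel
noncomputable def k98 : KT := (.br (Nat.shiftLeft (nat_lit 0x1005) (nat_lit 112)) (.one (nat_lit 0x100400600900b00d800c01203641a760)) (.br (Nat.shiftLeft (nat_lit 0x1) (nat_lit 125)) (.one (nat_lit 0x100500600900b00da00c01203641a760)) (.one (nat_lit 0x200000600900b00d000c01205681a511))))
def t98 : k98.all (jb2 57 fl b0) = true := by decide +kernel
noncomputable def k99 : KT := (.one (nat_lit 0x200300600900b00d600c01205681a760))
def t99 : k99.all (jb2 57 fl b0) = true := by decide +kernel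
noncomputable def k100 : KT := (.one (nat_lit 0x200400600900b00d800c01205681a760))
def t100 : k100.all (jb2 57 fl b0) = true := by decide +kernel
noncomputable def k101 : KT := (.br (Nat.shiftLeft (nat_lit 0x3) (nat_lit 124)) (.one (nat_lit 0x200500600900b00da00c01205681a760)) (.one (nat_lit 0x300000600900b00d000c012076c1a511)))
def t101 : k101.all (jb2 57 fl b0) = true := by decide +kernel
noncomputable def k102 : KT := (.one (nat_lit 0x300400600900b00d800c012076c1a760))
def t102 : k102.all (jb2 57 fl b0) = true := by decide +kernel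
noncomputable def k103 : KT := (.br (Nat.shiftLeft (nat_lit 0x1) (nat_lit 126)) (.one (nat_lit 0x300500600900b00da00c012076c1a760)) (.br (Nat.shiftLeft (nat_lit 0x1001) (nat_lit 114)) (.one (nat_lit 0x400000600900b00d000c01209701a511)) (.one (nat_lit 0x400500600900b00da00c01209701a760))))
def t103 : k103.all (jb2 57 fl b0) = true := by decide +kernel
noncomputable def k104 : KT := (.br (Nat.shiftLeft (nat_lit 0x3) (nat_lit 125)) (.one (nat_lit 0x500000600900b00d000c0120b741a511)) (.br (Nat.shiftLeft (nat_lit 0x7) (nat_lit 124)) (.one (nat_lit 0x600000600900b00d000c0120d781a511)) (.one (nat_lit 0x700000600900b00d000c0120f7c1a511))))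
def t104 : k104.all (jb2 57 fl b0) = true := by decide +kernel
noncomputable def k105 : KT := (.br (Nat.shiftLeft (nat_lit 0x1000001) (nat_lit 113)) (.br (Nat.shiftLeft (nat_lit 0x800001) (nat_lit 113)) (.br (Nat.shiftLeft (nat_lit 0x5) (nat_lit 125)) (.br (Nat.shiftLeft (nat_lit 0x9) (nat_lit 124)) (.one (nat_lit 0x800000600900b00d000c01211801a511)) (.one (nat_lit 0x900000600900b00d000c01213841a511))) (.br (Nat.shiftLeft (nat_lit 0xb) (nat_lit 124)) (.one (nat_lit 0xa00000600900b00d000c01215881a511)) (.br (Nat.shiftLeft (nat_lit 0x1) (nat_lit 136)) (.one (nat_lit 0xb00000600900b00d000c012178c1a511)) (.one (nat_lit 0x100000100600900b00d200c03241601a611))))) (.br (Nat.shiftLeft (nat_lit 0x400001) (nat_lit 114)) (.br (Nat.shiftLeft (nat_lit 0x1000003) (nat_lit 112)) (.one (nat_lit 0x100000200600900b00d400c03241601a611)) (.one (nat_lit 0x100000300600900b00d600c03241601a611))) (.br (Nat.shiftLeft (nat_lit 0x1000005) (nat_lit 112)) (.one (nat_lit 0x100000400600900b00d800c03241601a611)) (.br (Nat.shiftLeft (nat_lit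 0x1) (nat_lit 137)) (.one (nat_lit 0x100000500600900b00da00c03241601a611)) (.one (nat_lit 0x200000100600900b00d200c05281601a611)))))) (.br (Nat.shiftLeft (nat_lit 0x1800001) (nat_lit 113)) (.br (Nat.shiftLeft (nat_lit 0x800001) (nat_lit 114)) (.br (Nat.shiftLeft (nat_lit 0x2000003) (nat_lit 112)) (.one (nat_lit 0x200000200600900b00d400c05281601a611)) (.one (nat_lit 0x200000300600900b00d600c05281601a611))) (.br (Nat.shiftLeft (nat_lit 0x2000005) (nat_lit 112)) (.one (nat_lit 0x200000400600900b00d800c05281601a611)) (.br (Nat.shiftLeft (nat_lit 0x3) (nat_lit 136)) (.one (nat_lit 0x200000500600900b00da00c05281601a611)) (.one (nat_lit 0x300000100600900b00d200c072c1601a611))))) (.br (Nat.shiftLeft (nat_lit 0xc00001) (nat_lit 114)) (.br (Nat.shiftLeft (nat_lit 0x3000003) (nat_lit 112)) (.one (nat_lit 0x300000200600900b00d400c072c1601a611)) (.one (nat_lit 0x300000300600900b00d600c072c1601a611))) (.br (Nat.shiftLeft (nat_lit 0x3000005) (nat_lit 112)) (.one (nat_lit 0x300000400600900b00d800c072c1601a611)) (.br (Nat.shiftLeft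 (nat_lit 0x1) (nat_lit 138)) (.one (nat_lit 0x300000500600900b00da00c072c1601a611)) (.one (nat_lit 0x400000100600900b00d200c09301601a611)))))))
def t105 : k105.all (jb2 57 fl b0) = true := by decide +kernel
noncomputable def k106 : KT := (.br (Nat.shiftLeft (nat_lit 0x4000005) (nat_lit 112)) (.br (Nat.shiftLeft (nat_lit 0x4000003) (nat_lit 112)) (.one (nat_lit 0x400000200600900b00d400c09301601a611)) (.br (Nat.shiftLeft (nat_lit 0x1000001) (nat_lit 114)) (.one (nat_lit 0x400000300600900b00d600c09301601a611)) (.one (nat_lit 0x400000400600900b00d800c09301601a611)))) (.br (Nat.shiftLeft (nat_lit 0x5) (nat_lit 136)) (.one (nat_lit 0x400000500600900b00da00c09301601a611)) (.br (Nat.shiftLeft (nat_lit 0x2800001) (nat_lit 113)) (.one (nat_lit 0x500000100600900b00d200c0b341601a611)) (.one (nat_lit 0x500000200600900b00d400c0b341601a611)))))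
def t106 : k106.all (jb2 57 fl b0) = true := by decide +kernel
noncomputable def k107 : KT := (.br (Nat.shiftLeft (nat_lit 0x5000005) (nat_lit 112)) (.br (Nat.shiftLeft (nat_lit 0x1400001) (nat_lit 114)) (.one (nat_lit 0x500000300600900b00d600c0b341601a611)) (.one (nat_lit 0x500000400600900b00d800c0b341601a611))) (.br (Nat.shiftLeft (nat_lit 0x3) (nat_lit 137)) (.one (nat_lit 0x500000500600900b00da00c0b341601a611)) (.one (nat_lit 0x600000100600900b00d200c0d381601a611))))
def t107 : k107.all (jb2 57 fl b0) = true := by decide +kernel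
noncomputable def k108 : KT := (.br (Nat.shiftLeft (nat_lit 0x1800001) (nat_lit 114)) (.br (Nat.shiftLeft (nat_lit 0x6000003) (nat_lit 112)) (.one (nat_lit 0x600000200600900b00d400c0d381601a611)) (.one (nat_lit 0x600000300600900b00d600c0d381601a611))) (.br (Nat.shiftLeft (nat_lit 0x6000005) (nat_lit 112)) (.one (nat_lit 0x600000400600900b00d800c0d381601a611)) (.one (nat_lit 0x600000500600900b00da00c0d381601a611))))
def t108 : k108.all (jb2 57 fl b0) = true := by decide +kernel
noncomputable def k109 : KT := (.br (Nat.shiftLeft (nat_lit 0x7000003) (nat_lit 112)) (.br (Nat.shiftLeft (nat_lit 0x3800001) (nat_lit 113)) (.one (nat_lit 0x700000100600900b00d200c0f3c1601a611)) (.one (nat_lit 0x700000200600900b00d400c0f3c1601a611))) (.br (Nat.shiftLeft (nat_lit 0x1c00001) (nat_lit 114)) (.one (nat_lit 0x700000300600900b00d600c0f3c1601a611)) (.one (nat_lit 0x700000400600900b00d800c0f3c1601a611))))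
def t109 : k109.all (jb2 57 fl b0) = true := by decide +kernel
noncomputable def k110 : KT := (.br (Nat.shiftLeft (nat_lit 0x8000003) (nat_lit 112)) (.br (Nat.shiftLeft (nat_lit 0x1) (nat_lit 139)) (.one (nat_lit 0x700000500600900b00da00c0f3c1601a611)) (.br (Nat.shiftLeft (nat_lit 0x4000001) (nat_lit 113)) (.one (nat_lit 0x800000100600900b00d200c11401601a611)) (.one (nat_lit 0x800000200600900b00d400c11401601a611)))) (.br (Nat.shiftLeft (nat_lit 0x8000005) (nat_lit 112)) (.br (Nat.shiftLeft (nat_lit 0x2000001) (nat_lit 114)) (.one (nat_lit 0x800000300600900b00d600c11401601a611)) (.one (nat_lit 0x800000400600900b00d800c11401601a611))) (.br (Nat.shiftLeft (nat_lit 0x9) (nat_lit 136)) (.one (nat_lit 0x800000500600900b00da00c11401601a611)) (.one (nat_lit 0x900000100600900b00d200c13441601a611)))))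
def t110 : k110.all (jb2 57 fl b0) = true := by decide +kernel
noncomputable def k111 : KT := (.br (Nat.shiftLeft (nat_lit 0xb) (nat_lit 136)) (.br (Nat.shiftLeft (nat_lit 0x5) (nat_lit 137)) (.br (Nat.shiftLeft (nat_lit 0x2400001) (nat_lit 114)) (.br (Nat.shiftLeft (nat_lit 0x9000003) (nat_lit 112)) (.one (nat_lit 0x900000200600900b00d400c13441601a611)) (.one (nat_lit 0x900000300600900b00d600c13441601a611))) (.br (Nat.shiftLeft (nat_lit 0x9000005) (nat_lit 112)) (.one (nat_lit 0x900000400600900b00d800c13441601a611)) (.one (nat_lit 0x900000500600900b00da00c13441601a611)))) (.br (Nat.shiftLeft (nat_lit 0xa000003) (nat_lit 112)) (.br (Nat.shiftLeft (nat_lit 0x5000001) (nat_lit 113)) (.one (nat_lit 0xa00000100600900b00d200c15481601a611)) (.one (nat_lit 0xa00000200600900b00d400c15481601a611))) (.br (Nat.shiftLeft (nat_lit 0x2800001) (nat_lit 114)) (.one (nat_lit 0xa00000300600900b00d600c15481601a611)) (.br (Nat.shiftLeft (nat_lit 0xa000005) (nat_lit 112)) (.one (nat_lit 0xa00000400600900b00d800c15481601a611))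 (.one (nat_lit 0xa00000500600900b00da00c15481601a611)))))) (.br (Nat.shiftLeft (nat_lit 0xb000005) (nat_lit 112)) (.br (Nat.shiftLeft (nat_lit 0xb000003) (nat_lit 112)) (.br (Nat.shiftLeft (nat_lit 0x5800001) (nat_lit 113)) (.one (nat_lit 0xb00000100600900b00d200c174c1601a611)) (.one (nat_lit 0xb00000200600900b00d400c174c1601a611))) (.br (Nat.shiftLeft (nat_lit 0x2c00001) (nat_lit 114)) (.one (nat_lit 0xb00000300600900b00d600c174c1601a611)) (.one (nat_lit 0xb00000400600900b00d800c174c1601a611)))) (.br (Nat.shiftLeft (nat_lit 0x1) (nat_lit 149)) (.br (Nat.shiftLeft (nat_lit 0x1) (nat_lit 148)) (.one (nat_lit 0xb00000500600900b00da00c174c1601a611)) (.one (nat_lit 0x100000100200600900b00d402c41203641a711))) (.br (Nat.shiftLeft (nat_lit 0x3) (nat_lit 148)) (.one (nat_lit 0x200000100200600900b00d404c81203641a711)) (.br (Nat.shiftLeft (nat_lit 0x1) (nat_lit 150)) (.one (nat_lit 0x300000100200600900b00d406cc1203641a711)) (.one (nat_lit 0x400000100200600900b00d408d01203641a711)))))))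
def t111 : k111.all (jb2 57 fl b0) = true := by decide +kernel
noncomputable def k112 : KT := (.br (Nat.shiftLeft (nat_lit 0x1) (nat_lit 151)) (.br (Nat.shiftLeft (nat_lit 0x3) (nat_lit 149)) (.one (nat_lit 0x500000100200600900b00d40ad41203641a711)) (.br (Nat.shiftLeft (nat_lit 0x7) (nat_lit 148)) (.one (nat_lit 0x600000100200600900b00d40cd81203641a711)) (.one (nat_lit 0x700000100200600900b00d40edc1203641a711)))) (.br (Nat.shiftLeft (nat_lit 0x5) (nat_lit 149)) (.br (Nat.shiftLeft (nat_lit 0x9) (nat_lit 148)) (.one (nat_lit 0x800000100200600900b00d410e01203641a711)) (.one (nat_lit 0x900000100200600900b00d412e41203641a711))) (.br (Nat.shiftLeft (nat_lit 0xb) (nat_lit 148)) (.one (nat_lit 0xa00000100200600900b00d414e81203641a711)) (.one (nat_lit 0xb00000100200600900b00d416ec1203641a711)))))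
def t112 : k112.all (jb2 57 fl b0) = true := by decide +kernel
noncomputable def s6 : KT := (.br (nat_lit 0x700000600900b00d000c0120f7c1a511) (.br (nat_lit 0x200400600900b00d800c01205681a760) (.br (nat_lit 0x200000600900b00d000c01205681a511) (.br (nat_lit 0x100300600900b00d600c01203641a760) k97 k98) (.br (nat_lit 0x200300600900b00d600c01205681a760) k99 k100)) (.br (nat_lit 0x300400600900b00d800c012076c1a760) (.br (nat_lit 0x300000600900b00d000c012076c1a511) k101 k102) (.br (nat_lit 0x400500600900b00da00c01209701a760) k103 k104))) (.br (nat_lit 0x600000500600900b00da00c0d381601a611) (.br (nat_lit 0x500000200600900b00d400c0b341601a611) (.br (nat_lit 0x400000100600900b00d200c09301601a611) k105 k106) (.br (nat_lit 0x600000100600900b00d200c0d381601a611) k107 k108)) (.br (nat_lit 0x900000100600900b00d200c13441601a611) (.br (nat_lit 0x700000400600900b00d800c0f3c1601a611) k109 k110) (.br (nat_lit 0x400000100200600900b00d408d01203641a711) k111 k112))))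
noncomputable def u6 : KT := (.one (nat_lit 0x600900b00d000c01201601a540))
def w6 : u6.all (wj 57 s6) = true := by decide +kernel
def o6 : OkW 57 (jb2 57 fl) u6 := .lift s6 _ (.br _ _ _ (.br _ _ _ (.br _ _ _ (.br _ _ _ (.leaf b0 k97 t97) (.leaf b0 k98 t98)) (.br _ _ _ (.leaf b0 k99 t99) (.leaf b0 k100 t100))) (.br _ _ _ (.br _ _ _ (.leaf b0 k101 t101) (.leaf b0 k102 t102)) (.br _ _ _ (.leaf b0 k103 t103) (.leaf b0 k104 t104)))) (.br _ _ _ (.br _ _ _ (.br _ _ _ (.leaf b0 k105 t105) (.leaf b0 k106 t106)) (.br _ _ _ (.leaf b0 k107 t107) (.leaf b0 k108 t108))) (.br _ _ _ (.br _ _ _ (.leaf b0 k109 t109) (.leaf b0 k110 t110)) (.br _ _ _ (.leaf b0 k111 t111) (.leaf b0 k112 t112))))) w6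
noncomputable def k113 : KT := (.br (Nat.shiftLeft (nat_lit 0x200600900b00f) (nat_lit 64)) (.br (Nat.shiftLeft (nat_lit 0x1) (nat_lit 112)) (.br (Nat.shiftLeft (nat_lit 0x600900b00f) (nat_lit 64)) (.one (nat_lit 0x600900b00e000c01201601d500)) (.one (nat_lit 0x600900b00f000c01201601f500))) (.br (Nat.shiftLeft (nat_lit 0x100600900b00f) (nat_lit 64)) (.one (nat_lit 0x100600900b00e200c01201601d600)) (.br (Nat.shiftLeft (nat_lit 0x1) (nat_lit 113)) (.one (nat_lit 0x100600900b00f200c01201601e650)) (.one (nat_lit 0x200600900b00e400c01201601d600))))) (.br (Nat.shiftLeft (nat_lit 0x1) (nat_lit 114)) (.br (Nat.shiftLeft (nat_lit 0x3) (nat_lit 112)) (.one (nat_lit 0x200600900b00f400c01201601f600)) (.br (Nat.shiftLeft (nat_lit 0x300600900b00f) (nat_lit 64)) (.one (nat_lit 0x300600900b00e600c01201601d600)) (.one (nat_lit 0x300600900b00f600c01201601f600)))) (.br (Nat.shiftLeft (nat_lit 0x400600900b00f) (nat_lit 64)) (.one (nat_lit 0x400600900b00e800c01201601d600)) (.br (Nat.shiftLeft (nat_lit 0x5) (nat_lit 112)) (.one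 (nat_lit 0x400600900b00f800c01201601f600)) (.one (nat_lit 0x500600900b00ea00c01201601d600))))))
def t113 : k113.all (jb2 57 fl b0) = true := by decide +kernel
noncomputable def k114 : KT := (.br (Nat.shiftLeft (nat_lit 0x1) (nat_lit 124)) (.one (nat_lit 0x500600900b00fa00c01201601e650)) (.br (Nat.shiftLeft (nat_lit 0x100000600900b00f) (nat_lit 64)) (.one (nat_lit 0x100000600900b00e000c01203641c511)) (.one (nat_lit 0x100000600900b00f000c01203641e511))))
def t114 : k114.all (jb2 57 fl b0) = true := by decide +kernel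
noncomputable def k115 : KT := (.one (nat_lit 0x100200600900b00e400c01203641c760))
def t115 : k115.all (jb2 57 fl b0) = true := by decide +kernel
noncomputable def k116 : KT := (.one (nat_lit 0x100200600900b00f400c01203641e760))
def t116 : k116.all (jb2 57 fl b0) = true := by decide +kernel
noncomputable def k117 : KT := (.br (Nat.shiftLeft (nat_lit 0x100300600900b00f) (nat_lit 64)) (.one (nat_lit 0x100300600900b00e600c01203641c760)) (.one (nat_lit 0x100300600900b00f600c01203641e760)))
def t117 : k117.all (jb2 57 fl b0) = true := by decide +kernel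
noncomputable def k118 : KT := (.br (Nat.shiftLeft (nat_lit 0x1005) (nat_lit 112)) (.br (Nat.shiftLeft (nat_lit 0x100400600900b00f) (nat_lit 64)) (.one (nat_lit 0x100400600900b00e800c01203641c760)) (.one (nat_lit 0x100400600900b00f800c01203641e760))) (.br (Nat.shiftLeft (nat_lit 0x1) (nat_lit 125)) (.one (nat_lit 0x100500600900b00ea00c01203641c760)) (.br (Nat.shiftLeft (nat_lit 0x200000600900b00f) (nat_lit 64)) (.one (nat_lit 0x200000600900b00e000c01205681c511)) (.one (nat_lit 0x200000600900b00f000c01205681e511)))))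
def t118 : k118.all (jb2 57 fl b0) = true := by decide +kernel
noncomputable def k119 : KT := (.one (nat_lit 0x200300600900b00e600c01205681c760))
def t119 : k119.all (jb2 57 fl b0) = true := by decide +kernel
noncomputable def k120 : KT := (.br (Nat.shiftLeft (nat_lit 0x801) (nat_lit 114)) (.one (nat_lit 0x200300600900b00f600c01205681e760)) (.one (nat_lit 0x200400600900b00e800c01205681c760)))
def t120 : k120.all (jb2 57 fl b0) = true := by decide +kernel
noncomputable def k121 : KT := (.br (Nat.shiftLeft (nat_lit 0x3) (nat_lit 124)) (.br (Nat.shiftLeft (nat_lit 0x2005) (nat_lit 112)) (.one (nat_lit 0x200400600900b00f800c01205681e760)) (.one (nat_lit 0x200500600900b00ea00c01205681c760))) (.br (Nat.shiftLeft (nat_lit 0x300000600900b00f) (nat_lit 64)) (.one (nat_lit 0x300000600900b00e000c012076c1c511)) (.one (nat_lit 0x300000600900b00f000c012076c1e511))))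
def t121 : k121.all (jb2 57 fl b0) = true := by decide +kernel
noncomputable def k122 : KT := (.br (Nat.shiftLeft (nat_lit 0x300400600900b00f) (nat_lit 64)) (.one (nat_lit 0x300400600900b00e800c012076c1c760)) (.br (Nat.shiftLeft (nat_lit 0x3005) (nat_lit 112)) (.one (nat_lit 0x300400600900b00f800c012076c1e760)) (.one (nat_lit 0x300500600900b00ea00c012076c1c760))))
def t122 : k122.all (jb2 57 fl b0) = true := by decide +kernel
noncomputable def k123 : KT := (.br (Nat.shiftLeft (nat_lit 0x5) (nat_lit 124)) (.br (Nat.shiftLeft (nat_lit 0x400000600900b00f) (nat_lit 64)) (.one (nat_lit 0x400000600900b00e000c01209701c511)) (.br (Nat.shiftLeft (nat_lit 0x1001) (nat_lit 114)) (.one (nat_lit 0x400000600900b00f000c01209701e511)) (.one (nat_lit 0x400500600900b00ea00c01209701c760)))) (.br (Nat.shiftLeft (nat_lit 0x500000600900b00f) (nat_lit 64)) (.one (nat_lit 0x500000600900b00e000c0120b741c511)) (.br (Nat.shiftLeft (nat_lit 0x3) (nat_lit 125)) (.one (nat_lit 0x500000600900b00f000c0120b741e511)) (.one (nat_lit 0x600000600900b00e000c0120d781c511)))))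
def t123 : k123.all (jb2 57 fl b0) = true := by decide +kernel
noncomputable def k124 : KT := (.br (Nat.shiftLeft (nat_lit 0x700000600900b00f) (nat_lit 64)) (.br (Nat.shiftLeft (nat_lit 0x7) (nat_lit 124)) (.one (nat_lit 0x600000600900b00f000c0120d781e511)) (.one (nat_lit 0x700000600900b00e000c0120f7c1c511))) (.br (Nat.shiftLeft (nat_lit 0x1) (nat_lit 127)) (.one (nat_lit 0x700000600900b00f000c0120f7c1e511)) (.one (nat_lit 0x800000600900b00e000c01211801c511))))
def t124 : k124.all (jb2 57 fl b0) = true := by decide +kernel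
noncomputable def k125 : KT := (.br (Nat.shiftLeft (nat_lit 0x1000001) (nat_lit 113)) (.br (Nat.shiftLeft (nat_lit 0x800001) (nat_lit 113)) (.br (Nat.shiftLeft (nat_lit 0xa00000600900b00f) (nat_lit 64)) (.br (Nat.shiftLeft (nat_lit 0x900000600900b00f) (nat_lit 64)) (.br (Nat.shiftLeft (nat_lit 0x9) (nat_lit 124)) (.one (nat_lit 0x800000600900b00f000c01211801e511)) (.one (nat_lit 0x900000600900b00e000c01213841c511))) (.br (Nat.shiftLeft (nat_lit 0x5) (nat_lit 125)) (.one (nat_lit 0x900000600900b00f000c01213841e511)) (.one (nat_lit 0xa00000600900b00e000c01215881c511)))) (.br (Nat.shiftLeft (nat_lit 0xb00000600900b00f) (nat_lit 64)) (.br (Nat.shiftLeft (nat_lit 0xb) (nat_lit 124)) (.one (nat_lit 0xa00000600900b00f000c01215881e511)) (.one (nat_lit 0xb00000600900b00e000c012178c1c511))) (.br (Nat.shiftLeft (nat_lit 0x1) (nat_lit 136)) (.one (nat_lit 0xb00000600900b00f000c012178c1e511)) (.one (nat_lit 0x100000100600900b00e200c03241601c611))))) (.br (Nat.shiftLeft (nat_lit 0x400001) (nat_lit 114)) (.br (Nat.shiftLeft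 (nat_lit 0x1000003) (nat_lit 112)) (.br (Nat.shiftLeft (nat_lit 0x100000200600900b00f) (nat_lit 64)) (.one (nat_lit 0x100000200600900b00e400c03241601c611)) (.one (nat_lit 0x100000200600900b00f400c03241601e611))) (.br (Nat.shiftLeft (nat_lit 0x100000300600900b00f) (nat_lit 64)) (.one (nat_lit 0x100000300600900b00e600c03241601c611)) (.one (nat_lit 0x100000300600900b00f600c03241601e611)))) (.br (Nat.shiftLeft (nat_lit 0x1000005) (nat_lit 112)) (.br (Nat.shiftLeft (nat_lit 0x100000400600900b00f) (nat_lit 64)) (.one (nat_lit 0x100000400600900b00e800c03241601c611)) (.one (nat_lit 0x100000400600900b00f800c03241601e611))) (.br (Nat.shiftLeft (nat_lit 0x1) (nat_lit 137)) (.one (nat_lit 0x100000500600900b00ea00c03241601c611)) (.one (nat_lit 0x200000100600900b00e200c05281601c611)))))) (.br (Nat.shiftLeft (nat_lit 0x1800001) (nat_lit 113)) (.br (Nat.shiftLeft (nat_lit 0x800001) (nat_lit 114)) (.br (Nat.shiftLeft (nat_lit 0x2000003) (nat_lit 112)) (.br (Nat.shiftLeft (nat_lit 0x200000200600900b00f) (nat_lit 64)) (.one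 (nat_lit 0x200000200600900b00e400c05281601c611)) (.one (nat_lit 0x200000200600900b00f400c05281601e611))) (.br (Nat.shiftLeft (nat_lit 0x200000300600900b00f) (nat_lit 64)) (.one (nat_lit 0x200000300600900b00e600c05281601c611)) (.one (nat_lit 0x200000300600900b00f600c05281601e611)))) (.br (Nat.shiftLeft (nat_lit 0x2000005) (nat_lit 112)) (.br (Nat.shiftLeft (nat_lit 0x200000400600900b00f) (nat_lit 64)) (.one (nat_lit 0x200000400600900b00e800c05281601c611)) (.one (nat_lit 0x200000400600900b00f800c05281601e611))) (.br (Nat.shiftLeft (nat_lit 0x3) (nat_lit 136)) (.one (nat_lit 0x200000500600900b00ea00c05281601c611)) (.one (nat_lit 0x300000100600900b00e200c072c1601c611))))) (.br (Nat.shiftLeft (nat_lit 0xc00001) (nat_lit 114)) (.br (Nat.shiftLeft (nat_lit 0x3000003) (nat_lit 112)) (.br (Nat.shiftLeft (nat_lit 0x300000200600900b00f) (nat_lit 64)) (.one (nat_lit 0x300000200600900b00e400c072c1601c611)) (.one (nat_lit 0x300000200600900b00f400c072c1601e611))) (.br (Nat.shiftLeft (nat_lit 0x300000300600900b00f) (nat_lit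 64)) (.one (nat_lit 0x300000300600900b00e600c072c1601c611)) (.one (nat_lit 0x300000300600900b00f600c072c1601e611)))) (.br (Nat.shiftLeft (nat_lit 0x3000005) (nat_lit 112)) (.br (Nat.shiftLeft (nat_lit 0x300000400600900b00f) (nat_lit 64)) (.one (nat_lit 0x300000400600900b00e800c072c1601c611)) (.one (nat_lit 0x300000400600900b00f800c072c1601e611))) (.br (Nat.shiftLeft (nat_lit 0x1) (nat_lit 138)) (.one (nat_lit 0x300000500600900b00ea00c072c1601c611)) (.one (nat_lit 0x400000100600900b00e200c09301601c611)))))))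
def t125 : k125.all (jb2 57 fl b0) = true := by decide +kernel
noncomputable def k126 : KT := (.br (Nat.shiftLeft (nat_lit 0x1000001) (nat_lit 114)) (.br (Nat.shiftLeft (nat_lit 0x4000003) (nat_lit 112)) (.br (Nat.shiftLeft (nat_lit 0x400000200600900b00f) (nat_lit 64)) (.one (nat_lit 0x400000200600900b00e400c09301601c611)) (.one (nat_lit 0x400000200600900b00f400c09301601e611))) (.br (Nat.shiftLeft (nat_lit 0x400000300600900b00f) (nat_lit 64)) (.one (nat_lit 0x400000300600900b00e600c09301601c611)) (.one (nat_lit 0x400000300600900b00f600c09301601e611)))) (.br (Nat.shiftLeft (nat_lit 0x4000005) (nat_lit 112)) (.br (Nat.shiftLeft (nat_lit 0x400000400600900b00f) (nat_lit 64)) (.one (nat_lit 0x400000400600900b00e800c09301601c611)) (.one (nat_lit 0x400000400600900b00f800c09301601e611))) (.br (Nat.shiftLeft (nat_lit 0x5) (nat_lit 136)) (.one (nat_lit 0x400000500600900b00ea00c09301601c611)) (.br (Nat.shiftLeft (nat_lit 0x2800001) (nat_lit 113)) (.one (nat_lit 0x500000100600900b00e200c0b341601c611)) (.one (nat_lit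 0x500000200600900b00e400c0b341601c611))))))
def t126 : k126.all (jb2 57 fl b0) = true := by decide +kernel
noncomputable def k127 : KT := (.br (Nat.shiftLeft (nat_lit 0x1400001) (nat_lit 114)) (.br (Nat.shiftLeft (nat_lit 0x5000003) (nat_lit 112)) (.one (nat_lit 0x500000200600900b00f400c0b341601e611)) (.br (Nat.shiftLeft (nat_lit 0x500000300600900b00f) (nat_lit 64)) (.one (nat_lit 0x500000300600900b00e600c0b341601c611)) (.one (nat_lit 0x500000300600900b00f600c0b341601e611)))) (.br (Nat.shiftLeft (nat_lit 0x500000400600900b00f) (nat_lit 64)) (.one (nat_lit 0x500000400600900b00e800c0b341601c611)) (.br (Nat.shiftLeft (nat_lit 0x5000005) (nat_lit 112)) (.one (nat_lit 0x500000400600900b00f800c0b341601e611)) (.one (nat_lit 0x500000500600900b00ea00c0b341601c611)))))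
def t127 : k127.all (jb2 57 fl b0) = true := by decide +kernel
noncomputable def k128 : KT := (.br (Nat.shiftLeft (nat_lit 0x600000200600900b00f) (nat_lit 64)) (.br (Nat.shiftLeft (nat_lit 0x3000001) (nat_lit 113)) (.one (nat_lit 0x600000100600900b00e200c0d381601c611)) (.one (nat_lit 0x600000200600900b00e400c0d381601c611))) (.br (Nat.shiftLeft (nat_lit 0x6000003) (nat_lit 112)) (.one (nat_lit 0x600000200600900b00f400c0d381601e611)) (.br (Nat.shiftLeft (nat_lit 0x600000300600900b00f) (nat_lit 64)) (.one (nat_lit 0x600000300600900b00e600c0d381601c611)) (.one (nat_lit 0x600000300600900b00f600c0d381601e611)))))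
def t128 : k128.all (jb2 57 fl b0) = true := by decide +kernel
noncomputable def k129 : KT := (.br (Nat.shiftLeft (nat_lit 0x7) (nat_lit 136)) (.br (Nat.shiftLeft (nat_lit 0x600000400600900b00f) (nat_lit 64)) (.one (nat_lit 0x600000400600900b00e800c0d381601c611)) (.br (Nat.shiftLeft (nat_lit 0x6000005) (nat_lit 112)) (.one (nat_lit 0x600000400600900b00f800c0d381601e611)) (.one (nat_lit 0x600000500600900b00ea00c0d381601c611)))) (.br (Nat.shiftLeft (nat_lit 0x700000200600900b00f) (nat_lit 64)) (.br (Nat.shiftLeft (nat_lit 0x3800001) (nat_lit 113)) (.one (nat_lit 0x700000100600900b00e200c0f3c1601c611)) (.one (nat_lit 0x700000200600900b00e400c0f3c1601c611))) (.br (Nat.shiftLeft (nat_lit 0x7000003) (nat_lit 112)) (.one (nat_lit 0x700000200600900b00f400c0f3c1601e611)) (.one (nat_lit 0x700000300600900b00e600c0f3c1601c611)))))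
def t129 : k129.all (jb2 57 fl b0) = true := by decide +kernel
noncomputable def k130 : KT := (.br (Nat.shiftLeft (nat_lit 0x8000003) (nat_lit 112)) (.br (Nat.shiftLeft (nat_lit 0x7000005) (nat_lit 112)) (.br (Nat.shiftLeft (nat_lit 0x1c00001) (nat_lit 114)) (.one (nat_lit 0x700000300600900b00f600c0f3c1601e611)) (.br (Nat.shiftLeft (nat_lit 0x700000400600900b00f) (nat_lit 64)) (.one (nat_lit 0x700000400600900b00e800c0f3c1601c611)) (.one (nat_lit 0x700000400600900b00f800c0f3c1601e611)))) (.br (Nat.shiftLeft (nat_lit 0x4000001) (nat_lit 113)) (.br (Nat.shiftLeft (nat_lit 0x1) (nat_lit 139)) (.one (nat_lit 0x700000500600900b00ea00c0f3c1601c611)) (.one (nat_lit 0x800000100600900b00e200c11401601c611))) (.br (Nat.shiftLeft (nat_lit 0x800000200600900b00f) (nat_lit 64)) (.one (nat_lit 0x800000200600900b00e400c11401601c611)) (.one (nat_lit 0x800000200600900b00f400c11401601e611))))) (.br (Nat.shiftLeft (nat_lit 0x800000400600900b00f) (nat_lit 64)) (.br (Nat.shiftLeft (nat_lit 0x800000300600900b00f) (nat_lit 64))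 (.one (nat_lit 0x800000300600900b00e600c11401601c611)) (.br (Nat.shiftLeft (nat_lit 0x2000001) (nat_lit 114)) (.one (nat_lit 0x800000300600900b00f600c11401601e611)) (.one (nat_lit 0x800000400600900b00e800c11401601c611)))) (.br (Nat.shiftLeft (nat_lit 0x9) (nat_lit 136)) (.br (Nat.shiftLeft (nat_lit 0x8000005) (nat_lit 112)) (.one (nat_lit 0x800000400600900b00f800c11401601e611)) (.one (nat_lit 0x800000500600900b00ea00c11401601c611))) (.br (Nat.shiftLeft (nat_lit 0x4800001) (nat_lit 113)) (.one (nat_lit 0x900000100600900b00e200c13441601c611)) (.one (nat_lit 0x900000200600900b00e400c13441601c611))))))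
def t130 : k130.all (jb2 57 fl b0) = true := by decide +kernel
noncomputable def k131 : KT := (.br (Nat.shiftLeft (nat_lit 0x2800001) (nat_lit 114)) (.br (Nat.shiftLeft (nat_lit 0x9000005) (nat_lit 112)) (.br (Nat.shiftLeft (nat_lit 0x900000300600900b00f) (nat_lit 64)) (.br (Nat.shiftLeft (nat_lit 0x9000003) (nat_lit 112)) (.one (nat_lit 0x900000200600900b00f400c13441601e611)) (.one (nat_lit 0x900000300600900b00e600c13441601c611))) (.br (Nat.shiftLeft (nat_lit 0x2400001) (nat_lit 114)) (.one (nat_lit 0x900000300600900b00f600c13441601e611)) (.br (Nat.shiftLeft (nat_lit 0x900000400600900b00f) (nat_lit 64)) (.one (nat_lit 0x900000400600900b00e800c13441601c611)) (.one (nat_lit 0x900000400600900b00f800c13441601e611))))) (.br (Nat.shiftLeft (nat_lit 0xa00000200600900b00f) (nat_lit 64)) (.br (Nat.shiftLeft (nat_lit 0x5) (nat_lit 137)) (.one (nat_lit 0x900000500600900b00ea00c13441601c611)) (.br (Nat.shiftLeft (nat_lit 0x5000001) (nat_lit 113)) (.one (nat_lit 0xa00000100600900b00e200c15481601c611)) (.one (nat_lit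 0xa00000200600900b00e400c15481601c611)))) (.br (Nat.shiftLeft (nat_lit 0xa000003) (nat_lit 112)) (.one (nat_lit 0xa00000200600900b00f400c15481601e611)) (.br (Nat.shiftLeft (nat_lit 0xa00000300600900b00f) (nat_lit 64)) (.one (nat_lit 0xa00000300600900b00e600c15481601c611)) (.one (nat_lit 0xa00000300600900b00f600c15481601e611)))))) (.br (Nat.shiftLeft (nat_lit 0xb00000200600900b00f) (nat_lit 64)) (.br (Nat.shiftLeft (nat_lit 0xa000005) (nat_lit 112)) (.br (Nat.shiftLeft (nat_lit 0xa00000400600900b00f) (nat_lit 64)) (.one (nat_lit 0xa00000400600900b00e800c15481601c611)) (.one (nat_lit 0xa00000400600900b00f800c15481601e611))) (.br (Nat.shiftLeft (nat_lit 0xb) (nat_lit 136)) (.one (nat_lit 0xa00000500600900b00ea00c15481601c611)) (.br (Nat.shiftLeft (nat_lit 0x5800001) (nat_lit 113)) (.one (nat_lit 0xb00000100600900b00e200c174c1601c611)) (.one (nat_lit 0xb00000200600900b00e400c174c1601c611))))) (.br (Nat.shiftLeft (nat_lit 0x2c00001) (nat_lit 114)) (.br (Nat.shiftLeft (nat_lit 0xb000003) (nat_lit 112)) (.one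 (nat_lit 0xb00000200600900b00f400c174c1601e611)) (.br (Nat.shiftLeft (nat_lit 0xb00000300600900b00f) (nat_lit 64)) (.one (nat_lit 0xb00000300600900b00e600c174c1601c611)) (.one (nat_lit 0xb00000300600900b00f600c174c1601e611)))) (.br (Nat.shiftLeft (nat_lit 0xb00000400600900b00f) (nat_lit 64)) (.one (nat_lit 0xb00000400600900b00e800c174c1601c611)) (.br (Nat.shiftLeft (nat_lit 0xb000005) (nat_lit 112)) (.one (nat_lit 0xb00000400600900b00f800c174c1601e611)) (.one (nat_lit 0xb00000500600900b00ea00c174c1601c611)))))))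
def t131 : k131.all (jb2 57 fl b0) = true := by decide +kernel
noncomputable def s7 : KT := (.br (nat_lit 0x300000600900b00f000c012076c1e511) (.br (nat_lit 0x100200600900b00f400c01203641e760) (.br (nat_lit 0x100000600900b00f000c01203641e511) (.br (nat_lit 0x500600900b00ea00c01201601d600) k113 k114) (.br (nat_lit 0x100200600900b00e400c01203641c760) k115 k116)) (.br (nat_lit 0x200000600900b00f000c01205681e511) (.br (nat_lit 0x100300600900b00f600c01203641e760) k117 k118) (.br (nat_lit 0x200300600900b00e600c01205681c760) k119 (.br (nat_lit 0x200400600900b00e800c01205681c760) k120 k121)))) (.br (nat_lit 0x500000200600900b00e400c0b341601c611) (.br (nat_lit 0x600000600900b00e000c0120d781c511) (.br (nat_lit 0x300500600900b00ea00c012076c1c760) k122 k123) (.br (nat_lit 0x800000600900b00e000c01211801c511) k124 (.br (nat_lit 0x400000100600900b00e200c09301601c611) k125 k126))) (.br (nat_lit 0x600000300600900b00f600c0d381601e611) (.br (nat_lit 0x500000500600900b00ea00c0b341601c611) k127 k128) (.br (nat_lit 0x700000300600900b00e600c0f3c1601c611)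 k129 (.br (nat_lit 0x900000200600900b00e400c13441601c611) k130 k131)))))
noncomputable def u7 : KT := (.br (Nat.shiftLeft (nat_lit 0x600900b00f) (nat_lit 64)) (.one (nat_lit 0x600900b00e000c01201601c540)) (.one (nat_lit 0x600900b00f000c01201601e540)))
def w7 : u7.all (wj 57 s7) = true := by decide +kernel
def o7 : OkW 57 (jb2 57 fl) u7 := .lift s7 _ (.br _ _ _ (.br _ _ _ (.br _ _ _ (.br _ _ _ (.leaf b0 k113 t113) (.leaf b0 k114 t114)) (.br _ _ _ (.leaf b0 k115 t115) (.leaf b0 k116 t116))) (.br _ _ _ (.br _ _ _ (.leaf b0 k117 t117) (.leaf b0 k118 t118)) (.br _ _ _ (.leaf b0 k119 t119) (.br _ _ _ (.leaf b0 k120 t120) (.leaf b0 k121 t121))))) (.br _ _ _ (.br _ _ _ (.br _ _ _ (.leaf b0 k122 t122) (.leaf b0 k123 t123)) (.br _ _ _ (.leaf b0 k124 t124) (.br _ _ _ (.leaf b0 k125 t125) (.leaf b0 k126 t126)))) (.br _ _ _ (.br _ _ _ (.leaf b0 k127 t127) (.leaf b0 k128 t128)) (.br _ _ _ (.leaf b0 k129 t129) (.br _ _ _ (.leaf b0 k130 t130) (.leaf b0 k131 t131)))))) w7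
noncomputable def k132 : KT := (.br (Nat.shiftLeft (nat_lit 0x1802403) (nat_lit 78)) (.br (Nat.shiftLeft (nat_lit 0x600900b011) (nat_lit 64)) (.one (nat_lit 0x600900b010000c012016021500)) (.one (nat_lit 0x600900b011000c012016023500))) (.br (Nat.shiftLeft (nat_lit 0x1) (nat_lit 112)) (.one (nat_lit 0x600900c00d000c01201801b500)) (.one (nat_lit 0x100600900b010200c012016020650))))
def t132 : k132.all (jb2 57 fl b0) = true := by decide +kernel
noncomputable def k133 : KT := (.br (Nat.shiftLeft (nat_lit 0x401802403) (nat_lit 78)) (.one (nat_lit 0x100600900b011200c012016022650)) (.one (nat_lit 0x100600900c00d200c01201801b600)))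
def t133 : k133.all (jb2 57 fl b0) = true := by decide +kernel
noncomputable def k134 : KT := (.one (nat_lit 0x200600900b010400c012016020650))
def t134 : k134.all (jb2 57 fl b0) = true := by decide +kernel
noncomputable def k135 : KT := (.br (Nat.shiftLeft (nat_lit 0x801802403) (nat_lit 78)) (.one (nat_lit 0x200600900b011400c012016022650)) (.one (nat_lit 0x200600900c00d400c01201801b600)))
def t135 : k135.all (jb2 57 fl b0) = true := by decide +kernel
noncomputable def k136 : KT := (.one (nat_lit 0x300600900b010600c012016020650))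
def t136 : k136.all (jb2 57 fl b0) = true := by decide +kernel
noncomputable def k137 : KT := (.br (Nat.shiftLeft (nat_lit 0xc01802403) (nat_lit 78)) (.one (nat_lit 0x300600900b011600c012016022650)) (.one (nat_lit 0x300600900c00d600c01201801b600)))
def t137 : k137.all (jb2 57 fl b0) = true := by decide +kernel
noncomputable def k138 : KT := (.one (nat_lit 0x400600900b010800c012016020650))
def t138 : k138.all (jb2 57 fl b0) = true := by decide +kernel
noncomputable def k139 : KT := (.br (Nat.shiftLeft (nat_lit 0x1001802403) (nat_lit 78)) (.one (nat_lit 0x400600900b011800c012016022650)) (.one (nat_lit 0x400600900c00d800c01201801b600)))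
def t139 : k139.all (jb2 57 fl b0) = true := by decide +kernel
noncomputable def k140 : KT := (.one (nat_lit 0x500600900b010a00c012016020650))
def t140 : k140.all (jb2 57 fl b0) = true := by decide +kernel
noncomputable def k141 : KT := (.br (Nat.shiftLeft (nat_lit 0x1) (nat_lit 124)) (.br (Nat.shiftLeft (nat_lit 0x1401802403) (nat_lit 78)) (.one (nat_lit 0x500600900b011a00c012016022650)) (.one (nat_lit 0x500600900c00da00c01201801b600))) (.br (Nat.shiftLeft (nat_lit 0x100000600900b011) (nat_lit 64)) (.one (nat_lit 0x100000600900b010000c012036420511)) (.br (Nat.shiftLeft (nat_lit 0x400001802403) (nat_lit 78)) (.one (nat_lit 0x100000600900b011000c012036422511)) (.one (nat_lit 0x100000600900c00d000c01203841a511)))))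
def t141 : k141.all (jb2 57 fl b0) = true := by decide +kernel
noncomputable def k142 : KT := (.one (nat_lit 0x100200600900c00d400c01203841a760))
def t142 : k142.all (jb2 57 fl b0) = true := by decide +kernel
noncomputable def k143 : KT := (.br (Nat.shiftLeft (nat_lit 0x401) (nat_lit 114)) (.one (nat_lit 0x100300600900c00d600c01203841a760)) (.one (nat_lit 0x100400600900c00d800c01203841a760)))
def t143 : k143.all (jb2 57 fl b0) = true := by decide +kernel
noncomputable def k144 : KT := (.br (Nat.shiftLeft (nat_lit 0x200000600900b011) (nat_lit 64)) (.br (Nat.shiftLeft (nat_lit 0x1) (nat_lit 125)) (.one (nat_lit 0x100500600900c00da00c01203841a760)) (.one (nat_lit 0x200000600900b010000c012056820511))) (.br (Nat.shiftLeft (nat_lit 0x800001802403) (nat_lit 78)) (.one (nat_lit 0x200000600900b011000c012056822511)) (.br (Nat.shiftLeft (nat_lit 0x1001) (nat_lit 113)) (.one (nat_lit 0x200000600900c00d000c01205881a511)) (.one (nat_lit 0x200300600900c00d600c01205881a760)))))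
def t144 : k144.all (jb2 57 fl b0) = true := by decide +kernel
noncomputable def k145 : KT := (.br (Nat.shiftLeft (nat_lit 0x3) (nat_lit 124)) (.br (Nat.shiftLeft (nat_lit 0x2005) (nat_lit 112)) (.one (nat_lit 0x200400600900c00d800c01205881a760)) (.one (nat_lit 0x200500600900c00da00c01205881a760))) (.br (Nat.shiftLeft (nat_lit 0x300000600900b011) (nat_lit 64)) (.one (nat_lit 0x300000600900b010000c012076c20511)) (.br (Nat.shiftLeft (nat_lit 0xc00001802403) (nat_lit 78)) (.one (nat_lit 0x300000600900b011000c012076c22511)) (.one (nat_lit 0x300000600900c00d000c012078c1a511)))))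
def t145 : k145.all (jb2 57 fl b0) = true := by decide +kernel
noncomputable def k146 : KT := (.br (Nat.shiftLeft (nat_lit 0x1) (nat_lit 126)) (.br (Nat.shiftLeft (nat_lit 0x3005) (nat_lit 112)) (.one (nat_lit 0x300400600900c00d800c012078c1a760)) (.one (nat_lit 0x300500600900c00da00c012078c1a760))) (.br (Nat.shiftLeft (nat_lit 0x400000600900b011) (nat_lit 64)) (.one (nat_lit 0x400000600900b010000c012097020511)) (.br (Nat.shiftLeft (nat_lit 0x1000001802403) (nat_lit 78)) (.one (nat_lit 0x400000600900b011000c012097022511)) (.one (nat_lit 0x400000600900c00d000c01209901a511)))))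
def t146 : k146.all (jb2 57 fl b0) = true := by decide +kernel
noncomputable def k147 : KT := (.br (Nat.shiftLeft (nat_lit 0x1400001802403) (nat_lit 78)) (.br (Nat.shiftLeft (nat_lit 0x5) (nat_lit 124)) (.one (nat_lit 0x400500600900c00da00c01209901a760)) (.br (Nat.shiftLeft (nat_lit 0x500000600900b011) (nat_lit 64)) (.one (nat_lit 0x500000600900b010000c0120b7420511)) (.one (nat_lit 0x500000600900b011000c0120b7422511)))) (.br (Nat.shiftLeft (nat_lit 0x3) (nat_lit 125)) (.one (nat_lit 0x500000600900c00d000c0120b941a511)) (.br (Nat.shiftLeft (nat_lit 0x600000600900b011) (nat_lit 64)) (.one (nat_lit 0x600000600900b010000c0120d7820511)) (.one (nat_lit 0x600000600900b011000c0120d7822511)))))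
def t147 : k147.all (jb2 57 fl b0) = true := by decide +kernel
noncomputable def k148 : KT := (.br (Nat.shiftLeft (nat_lit 0x1c00001802403) (nat_lit 78)) (.br (Nat.shiftLeft (nat_lit 0x7) (nat_lit 124)) (.one (nat_lit 0x600000600900c00d000c0120d981a511)) (.br (Nat.shiftLeft (nat_lit 0x700000600900b011) (nat_lit 64)) (.one (nat_lit 0x700000600900b010000c0120f7c20511)) (.one (nat_lit 0x700000600900b011000c0120f7c22511)))) (.br (Nat.shiftLeft (nat_lit 0x1) (nat_lit 127)) (.one (nat_lit 0x700000600900c00d000c0120f9c1a511)) (.br (Nat.shiftLeft (nat_lit 0x800000600900b011) (nat_lit 64)) (.one (nat_lit 0x800000600900b010000c012118020511)) (.one (nat_lit 0x800000600900b011000c012118022511)))))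
def t148 : k148.all (jb2 57 fl b0) = true := by decide +kernel
noncomputable def k149 : KT := (.br (Nat.shiftLeft (nat_lit 0x1000003) (nat_lit 112)) (.br (Nat.shiftLeft (nat_lit 0x2800001802403) (nat_lit 78)) (.br (Nat.shiftLeft (nat_lit 0x2400001802403) (nat_lit 78)) (.br (Nat.shiftLeft (nat_lit 0x9) (nat_lit 124)) (.one (nat_lit 0x800000600900c00d000c01211a01a511)) (.br (Nat.shiftLeft (nat_lit 0x900000600900b011) (nat_lit 64)) (.one (nat_lit 0x900000600900b010000c012138420511)) (.one (nat_lit 0x900000600900b011000c012138422511)))) (.br (Nat.shiftLeft (nat_lit 0x5) (nat_lit 125)) (.one (nat_lit 0x900000600900c00d000c01213a41a511)) (.br (Nat.shiftLeft (nat_lit 0xa00000600900b011) (nat_lit 64)) (.one (nat_lit 0xa00000600900b010000c012158820511)) (.one (nat_lit 0xa00000600900b011000c012158822511))))) (.br (Nat.shiftLeft (nat_lit 0x2c00001802403) (nat_lit 78)) (.br (Nat.shiftLeft (nat_lit 0xb) (nat_lit 124)) (.one (nat_lit 0xa00000600900c00d000c01215a81a511)) (.br (Nat.shiftLeft (nat_lit 0xb00000600900b011)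 (nat_lit 64)) (.one (nat_lit 0xb00000600900b010000c012178c20511)) (.one (nat_lit 0xb00000600900b011000c012178c22511)))) (.br (Nat.shiftLeft (nat_lit 0x1) (nat_lit 136)) (.br (Nat.shiftLeft (nat_lit 0x3) (nat_lit 126)) (.one (nat_lit 0xb00000600900c00d000c01217ac1a511)) (.one (nat_lit 0xc00000600900c00d000c01219b01a511))) (.br (Nat.shiftLeft (nat_lit 0x800001) (nat_lit 113)) (.one (nat_lit 0x100000100600900c00d200c03241801a611)) (.one (nat_lit 0x100000200600900c00d400c03241801a611)))))) (.br (Nat.shiftLeft (nat_lit 0x2000005) (nat_lit 112)) (.br (Nat.shiftLeft (nat_lit 0x1) (nat_lit 137)) (.br (Nat.shiftLeft (nat_lit 0x400001) (nat_lit 114)) (.one (nat_lit 0x100000300600900c00d600c03241801a611)) (.br (Nat.shiftLeft (nat_lit 0x1000005) (nat_lit 112)) (.one (nat_lit 0x100000400600900c00d800c03241801a611)) (.one (nat_lit 0x100000500600900c00da00c03241801a611)))) (.br (Nat.shiftLeft (nat_lit 0x2000003) (nat_lit 112)) (.br (Nat.shiftLeft (nat_lit 0x1000001) (nat_lit 113)) (.one (nat_lit 0x200000100600900c00d200c05281801a611))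 (.one (nat_lit 0x200000200600900c00d400c05281801a611))) (.br (Nat.shiftLeft (nat_lit 0x800001) (nat_lit 114)) (.one (nat_lit 0x200000300600900c00d600c05281801a611)) (.one (nat_lit 0x200000400600900c00d800c05281801a611))))) (.br (Nat.shiftLeft (nat_lit 0x3000003) (nat_lit 112)) (.br (Nat.shiftLeft (nat_lit 0x3) (nat_lit 136)) (.one (nat_lit 0x200000500600900c00da00c05281801a611)) (.br (Nat.shiftLeft (nat_lit 0x1800001) (nat_lit 113)) (.one (nat_lit 0x300000100600900c00d200c072c1801a611)) (.one (nat_lit 0x300000200600900c00d400c072c1801a611)))) (.br (Nat.shiftLeft (nat_lit 0x3000005) (nat_lit 112)) (.br (Nat.shiftLeft (nat_lit 0xc00001) (nat_lit 114)) (.one (nat_lit 0x300000300600900c00d600c072c1801a611)) (.one (nat_lit 0x300000400600900c00d800c072c1801a611))) (.br (Nat.shiftLeft (nat_lit 0x1) (nat_lit 138)) (.one (nat_lit 0x300000500600900c00da00c072c1801a611)) (.one (nat_lit 0x400000100600900c00d200c09301801a611)))))))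
def t149 : k149.all (jb2 57 fl b0) = true := by decide +kernel
noncomputable def k150 : KT := (.br (Nat.shiftLeft (nat_lit 0x5) (nat_lit 136)) (.br (Nat.shiftLeft (nat_lit 0x1000001) (nat_lit 114)) (.br (Nat.shiftLeft (nat_lit 0x4000003) (nat_lit 112)) (.one (nat_lit 0x400000200600900c00d400c09301801a611)) (.one (nat_lit 0x400000300600900c00d600c09301801a611))) (.br (Nat.shiftLeft (nat_lit 0x4000005) (nat_lit 112)) (.one (nat_lit 0x400000400600900c00d800c09301801a611)) (.one (nat_lit 0x400000500600900c00da00c09301801a611)))) (.br (Nat.shiftLeft (nat_lit 0x5000003) (nat_lit 112)) (.br (Nat.shiftLeft (nat_lit 0x2800001) (nat_lit 113)) (.one (nat_lit 0x500000100600900c00d200c0b341801a611)) (.one (nat_lit 0x500000200600900c00d400c0b341801a611))) (.br (Nat.shiftLeft (nat_lit 0x1400001) (nat_lit 114)) (.one (nat_lit 0x500000300600900c00d600c0b341801a611)) (.one (nat_lit 0x500000400600900c00d800c0b341801a611)))))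
def t150 : k150.all (jb2 57 fl b0) = true := by decide +kernel
noncomputable def k151 : KT := (.br (Nat.shiftLeft (nat_lit 0x6000003) (nat_lit 112)) (.br (Nat.shiftLeft (nat_lit 0x3) (nat_lit 137)) (.one (nat_lit 0x500000500600900c00da00c0b341801a611)) (.br (Nat.shiftLeft (nat_lit 0x3000001) (nat_lit 113)) (.one (nat_lit 0x600000100600900c00d200c0d381801a611)) (.one (nat_lit 0x600000200600900c00d400c0d381801a611)))) (.br (Nat.shiftLeft (nat_lit 0x1800001) (nat_lit 114)) (.one (nat_lit 0x600000300600900c00d600c0d381801a611)) (.br (Nat.shiftLeft (nat_lit 0x6000005) (nat_lit 112)) (.one (nat_lit 0x600000400600900c00d800c0d381801a611)) (.one (nat_lit 0x600000500600900c00da00c0d381801a611)))))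
def t151 : k151.all (jb2 57 fl b0) = true := by decide +kernel
noncomputable def k152 : KT := (.br (Nat.shiftLeft (nat_lit 0x7000005) (nat_lit 112)) (.br (Nat.shiftLeft (nat_lit 0x7000003) (nat_lit 112)) (.br (Nat.shiftLeft (nat_lit 0x3800001) (nat_lit 113)) (.one (nat_lit 0x700000100600900c00d200c0f3c1801a611)) (.one (nat_lit 0x700000200600900c00d400c0f3c1801a611))) (.br (Nat.shiftLeft (nat_lit 0x1c00001) (nat_lit 114)) (.one (nat_lit 0x700000300600900c00d600c0f3c1801a611)) (.one (nat_lit 0x700000400600900c00d800c0f3c1801a611)))) (.br (Nat.shiftLeft (nat_lit 0x4000001) (nat_lit 113)) (.br (Nat.shiftLeft (nat_lit 0x1) (nat_lit 139)) (.one (nat_lit 0x700000500600900c00da00c0f3c1801a611)) (.one (nat_lit 0x800000100600900c00d200c11401801a611))) (.br (Nat.shiftLeft (nat_lit 0x8000003) (nat_lit 112)) (.one (nat_lit 0x800000200600900c00d400c11401801a611)) (.br (Nat.shiftLeft (nat_lit 0x2000001) (nat_lit 114)) (.one (nat_lit 0x800000300600900c00d600c11401801a611)) (.one (nat_lit 0x800000400600900c00d800c11401801a611))))))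
def t152 : k152.all (jb2 57 fl b0) = true := by decide +kernel
noncomputable def k153 : KT := (.br (Nat.shiftLeft (nat_lit 0xa000005) (nat_lit 112)) (.br (Nat.shiftLeft (nat_lit 0x9000005) (nat_lit 112)) (.br (Nat.shiftLeft (nat_lit 0x4800001) (nat_lit 113)) (.br (Nat.shiftLeft (nat_lit 0x9) (nat_lit 136)) (.one (nat_lit 0x800000500600900c00da00c11401801a611)) (.one (nat_lit 0x900000100600900c00d200c13441801a611))) (.br (Nat.shiftLeft (nat_lit 0x9000003) (nat_lit 112)) (.one (nat_lit 0x900000200600900c00d400c13441801a611)) (.br (Nat.shiftLeft (nat_lit 0x2400001) (nat_lit 114)) (.one (nat_lit 0x900000300600900c00d600c13441801a611)) (.one (nat_lit 0x900000400600900c00d800c13441801a611))))) (.br (Nat.shiftLeft (nat_lit 0x5000001) (nat_lit 113)) (.br (Nat.shiftLeft (nat_lit 0x5) (nat_lit 137)) (.one (nat_lit 0x900000500600900c00da00c13441801a611)) (.one (nat_lit 0xa00000100600900c00d200c15481801a611))) (.br (Nat.shiftLeft (nat_lit 0xa000003) (nat_lit 112)) (.one (nat_lit 0xa00000200600900c00d400c15481801a611))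 (.br (Nat.shiftLeft (nat_lit 0x2800001) (nat_lit 114)) (.one (nat_lit 0xa00000300600900c00d600c15481801a611)) (.one (nat_lit 0xa00000400600900c00d800c15481801a611)))))) (.br (Nat.shiftLeft (nat_lit 0xb000005) (nat_lit 112)) (.br (Nat.shiftLeft (nat_lit 0x5800001) (nat_lit 113)) (.br (Nat.shiftLeft (nat_lit 0xb) (nat_lit 136)) (.one (nat_lit 0xa00000500600900c00da00c15481801a611)) (.one (nat_lit 0xb00000100600900c00d200c174c1801a611))) (.br (Nat.shiftLeft (nat_lit 0xb000003) (nat_lit 112)) (.one (nat_lit 0xb00000200600900c00d400c174c1801a611)) (.br (Nat.shiftLeft (nat_lit 0x2c00001) (nat_lit 114)) (.one (nat_lit 0xb00000300600900c00d600c174c1801a611)) (.one (nat_lit 0xb00000400600900c00d800c174c1801a611))))) (.br (Nat.shiftLeft (nat_lit 0xc000003) (nat_lit 112)) (.br (Nat.shiftLeft (nat_lit 0x3) (nat_lit 138)) (.one (nat_lit 0xb00000500600900c00da00c174c1801a611)) (.br (Nat.shiftLeft (nat_lit 0x6000001) (nat_lit 113)) (.one (nat_lit 0xc00000100600900c00d200c19501801a611)) (.one (nat_lit 0xc00000200600900c00d400c19501801a611))))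 (.br (Nat.shiftLeft (nat_lit 0x3000001) (nat_lit 114)) (.one (nat_lit 0xc00000300600900c00d600c19501801a611)) (.br (Nat.shiftLeft (nat_lit 0xc000005) (nat_lit 112)) (.one (nat_lit 0xc00000400600900c00d800c19501801a611)) (.one (nat_lit 0xc00000500600900c00da00c19501801a611)))))))
def t153 : k153.all (jb2 57 fl b0) = true := by decide +kernel
noncomputable def s8 : KT := (.br (nat_lit 0x100200600900c00d400c01203841a760) (.br (nat_lit 0x300600900b010600c012016020650) (.br (nat_lit 0x100600900c00d200c01201801b600) (.br (nat_lit 0x100600900b010200c012016020650) k132 k133) (.br (nat_lit 0x200600900b010400c012016020650) k134 (.br (nat_lit 0x200600900c00d400c01201801b600) k135 k136))) (.br (nat_lit 0x400600900c00d800c01201801b600) (.br (nat_lit 0x300600900c00d600c01201801b600) k137 (.br (nat_lit 0x400600900b010800c012016020650) k138 k139)) (.br (nat_lit 0x500600900b010a00c012016020650) k140 (.br (nat_lit 0x100000600900c00d000c01203841a511) k141 k142)))) (.br (nat_lit 0x600000600900b011000c0120d7822511) (.br (nat_lit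 0x200300600900c00d600c01205881a760) (.br (nat_lit 0x100400600900c00d800c01203841a760) k143 k144) (.br (nat_lit 0x300000600900c00d000c012078c1a511) k145 (.br (nat_lit 0x400000600900c00d000c01209901a511) k146 k147))) (.br (nat_lit 0x500000400600900c00d800c0b341801a611) (.br (nat_lit 0x800000600900b011000c012118022511) k148 (.br (nat_lit 0x400000100600900c00d200c09301801a611) k149 k150)) (.br (nat_lit 0x600000500600900c00da00c0d381801a611) k151 (.br (nat_lit 0x800000400600900c00d800c11401801a611) k152 k153)))))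
noncomputable def u8 : KT := (.br (Nat.shiftLeft (nat_lit 0x600900b011) (nat_lit 64)) (.one (nat_lit 0x600900b010000c012016020540)) (.br (Nat.shiftLeft (nat_lit 0x1802403) (nat_lit 78)) (.one (nat_lit 0x600900b011000c012016022540)) (.one (nat_lit 0x600900c00d000c01201801a540))))
def w8 : u8.all (wj 57 s8) = true := by decide +kernel
def o8 : OkW 57 (jb2 57 fl) u8 := .lift s8 _ (.br _ _ _ (.br _ _ _ (.br _ _ _ (.br _ _ _ (.leaf b0 k132 t132) (.leaf b0 k133 t133)) (.br _ _ _ (.leaf b0 k134 t134) (.br _ _ _ (.leaf b0 k135 t135) (.leaf b0 k136 t136)))) (.br _ _ _ (.br _ _ _ (.leaf b0 k137 t137) (.br _ _ _ (.leaf b0 k138 t138) (.leaf b0 k139 t139))) (.br _ _ _ (.leaf b0 k140 t140) (.br _ _ _ (.leaf b0 k141 t141) (.leaf b0 k142 t142))))) (.br _ _ _ (.br _ _ _ (.br _ _ _ (.leaf b0 k143 t143) (.leaf b0 k144 t144)) (.br _ _ _ (.leaf b0 k145 t145) (.br _ _ _ (.leaf b0 k146 t146) (.leaf b0 k147 t147)))) (.br _ _ _ (.br _ _ _ (.leaf b0 k148 t148) (.br _ _ _ (.leaf b0 k149 t149) (.leaf b0 k150 t150))) (.br _ _ _ (.leaf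 b0 k151 t151) (.br _ _ _ (.leaf b0 k152 t152) (.leaf b0 k153 t153)))))) w8
noncomputable def k154 : KT := (.br (Nat.shiftLeft (nat_lit 0x600900c01) (nat_lit 68)) (.br (Nat.shiftLeft (nat_lit 0x600900c00f) (nat_lit 64)) (.one (nat_lit 0x600900c00e000c01201801d500)) (.one (nat_lit 0x600900c00f000c01201801f500))) (.br (Nat.shiftLeft (nat_lit 0x600900d) (nat_lit 76)) (.one (nat_lit 0x600900c010000c012018021500)) (.br (Nat.shiftLeft (nat_lit 0x1) (nat_lit 112)) (.one (nat_lit 0x600900d00e000c01201a01d500)) (.one (nat_lit 0x100600900c00e200c01201801c650)))))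
def t154 : k154.all (jb2 57 fl b0) = true := by decide +kernel
noncomputable def k155 : KT := (.one (nat_lit 0x100600900c00f200c01201801e650))
def t155 : k155.all (jb2 57 fl b0) = true := by decide +kernel
noncomputable def k156 : KT := (.one (nat_lit 0x100600900c010200c012018020650))
def t156 : k156.all (jb2 57 fl b0) = true := by decide +kernel
noncomputable def k157 : KT := (.br (Nat.shiftLeft (nat_lit 0x1) (nat_lit 113)) (.one (nat_lit 0x100600900d00e200c01201a01c650)) (.one (nat_lit 0x200600900c00e400c01201801d600)))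
def t157 : k157.all (jb2 57 fl b0) = true := by decide +kernel
noncomputable def k158 : KT := (.one (nat_lit 0x200600900c00f400c01201801e650))
def t158 : k158.all (jb2 57 fl b0) = true := by decide +kernel
noncomputable def k159 : KT := (.one (nat_lit 0x200600900c010400c012018020650))
def t159 : k159.all (jb2 57 fl b0) = true := by decide +kernel
noncomputable def k160 : KT := (.br (Nat.shiftLeft (nat_lit 0x3) (nat_lit 112)) (.one (nat_lit 0x200600900d00e400c01201a01c650)) (.one (nat_lit 0x300600900c00e600c01201801d600)))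
def t160 : k160.all (jb2 57 fl b0) = true := by decide +kernel
noncomputable def k161 : KT := (.one (nat_lit 0x300600900c00f600c01201801e650))
def t161 : k161.all (jb2 57 fl b0) = true := by decide +kernel
noncomputable def k162 : KT := (.one (nat_lit 0x300600900c010600c012018020650))
def t162 : k162.all (jb2 57 fl b0) = true := by decide +kernel
noncomputable def k163 : KT := (.br (Nat.shiftLeft (nat_lit 0x1) (nat_lit 114)) (.one (nat_lit 0x300600900d00e600c01201a01c650)) (.one (nat_lit 0x400600900c00e800c01201801d600)))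
def t163 : k163.all (jb2 57 fl b0) = true := by decide +kernel
noncomputable def k164 : KT := (.one (nat_lit 0x400600900c00f800c01201801e650))
def t164 : k164.all (jb2 57 fl b0) = true := by decide +kernel
noncomputable def k165 : KT := (.one (nat_lit 0x400600900c010800c012018020650))
def t165 : k165.all (jb2 57 fl b0) = true := by decide +kernel
noncomputable def k166 : KT := (.one (nat_lit 0x400600900d00e800c01201a01c650))
def t166 : k166.all (jb2 57 fl b0) = true := by decide +kernel
noncomputable def k167 : KT := (.one (nat_lit 0x500600900c00ea00c01201801c650))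
def t167 : k167.all (jb2 57 fl b0) = true := by decide +kernel
noncomputable def k168 : KT := (.one (nat_lit 0x500600900c00fa00c01201801e650))
def t168 : k168.all (jb2 57 fl b0) = true := by decide +kernel
noncomputable def k169 : KT := (.one (nat_lit 0x500600900c010a00c012018020650))
def t169 : k169.all (jb2 57 fl b0) = true := by decide +kernel
noncomputable def k170 : KT := (.br (Nat.shiftLeft (nat_lit 0x100000600900c00f) (nat_lit 64)) (.br (Nat.shiftLeft (nat_lit 0x1) (nat_lit 124)) (.one (nat_lit 0x500600900d00ea00c01201a01c650)) (.one (nat_lit 0x100000600900c00e000c01203841c511))) (.br (Nat.shiftLeft (nat_lit 0x100000600900c01) (nat_lit 68)) (.one (nat_lit 0x100000600900c00f000c01203841e511)) (.br (Nat.shiftLeft (nat_lit 0x100000600900d) (nat_lit 76)) (.one (nat_lit 0x100000600900c010000c012038420511)) (.one (nat_lit 0x100000600900d00e000c01203a41c511)))))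
def t170 : k170.all (jb2 57 fl b0) = true := by decide +kernel
noncomputable def k171 : KT := (.br (Nat.shiftLeft (nat_lit 0x1003) (nat_lit 112)) (.one (nat_lit 0x100200600900c00e400c01203841c760)) (.one (nat_lit 0x100300600900c00e600c01203841c760)))
def t171 : k171.all (jb2 57 fl b0) = true := by decide +kernel
noncomputable def k172 : KT := (.br (Nat.shiftLeft (nat_lit 0x200000600900c01) (nat_lit 68)) (.br (Nat.shiftLeft (nat_lit 0x1) (nat_lit 125)) (.one (nat_lit 0x100400600900c00e800c01203841c760)) (.br (Nat.shiftLeft (nat_lit 0x200000600900c00f) (nat_lit 64)) (.one (nat_lit 0x200000600900c00e000c01205881c511)) (.one (nat_lit 0x200000600900c00f000c01205881e511)))) (.br (Nat.shiftLeft (nat_lit 0x1001) (nat_lit 113)) (.br (Nat.shiftLeft (nat_lit 0x200000600900d) (nat_lit 76)) (.one (nat_lit 0x200000600900c010000c012058820511)) (.one (nat_lit 0x200000600900d00e000c01205a81c511))) (.br (Nat.shiftLeft (nat_lit 0x801) (nat_lit 114)) (.one (nat_lit 0x200300600900c00e600c01205881c760)) (.one (nat_lit 0x200400600900c00e800c01205881c760)))))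
def t172 : k172.all (jb2 57 fl b0) = true := by decide +kernel
noncomputable def k173 : KT := (.br (Nat.shiftLeft (nat_lit 0x400000600900c00f) (nat_lit 64)) (.br (Nat.shiftLeft (nat_lit 0x300000600900d) (nat_lit 76)) (.br (Nat.shiftLeft (nat_lit 0x300000600900c00f) (nat_lit 64)) (.one (nat_lit 0x300000600900c00e000c012078c1c511)) (.br (Nat.shiftLeft (nat_lit 0x300000600900c01) (nat_lit 68)) (.one (nat_lit 0x300000600900c00f000c012078c1e511)) (.one (nat_lit 0x300000600900c010000c012078c20511)))) (.br (Nat.shiftLeft (nat_lit 0xc01) (nat_lit 114)) (.one (nat_lit 0x300000600900d00e000c01207ac1c511)) (.br (Nat.shiftLeft (nat_lit 0x1) (nat_lit 126)) (.one (nat_lit 0x300400600900c00e800c012078c1c760)) (.one (nat_lit 0x400000600900c00e000c01209901c511))))) (.br (Nat.shiftLeft (nat_lit 0x5) (nat_lit 124)) (.br (Nat.shiftLeft (nat_lit 0x400000600900c01) (nat_lit 68)) (.one (nat_lit 0x400000600900c00f000c01209901e511)) (.br (Nat.shiftLeft (nat_lit 0x400000600900d) (nat_lit 76)) (.one (nat_lit 0x400000600900c010000c012099020511))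 (.one (nat_lit 0x400000600900d00e000c01209b01c511)))) (.br (Nat.shiftLeft (nat_lit 0x500000600900c00f) (nat_lit 64)) (.one (nat_lit 0x500000600900c00e000c0120b941c511)) (.br (Nat.shiftLeft (nat_lit 0x500000600900c01) (nat_lit 68)) (.one (nat_lit 0x500000600900c00f000c0120b941e511)) (.one (nat_lit 0x500000600900c010000c0120b9420511))))))
def t173 : k173.all (jb2 57 fl b0) = true := by decide +kernel
noncomputable def k174 : KT := (.br (Nat.shiftLeft (nat_lit 0x600000600900c01) (nat_lit 68)) (.br (Nat.shiftLeft (nat_lit 0x3) (nat_lit 125)) (.one (nat_lit 0x500000600900d00e000c0120bb41c511)) (.br (Nat.shiftLeft (nat_lit 0x600000600900c00f) (nat_lit 64)) (.one (nat_lit 0x600000600900c00e000c0120d981c511)) (.one (nat_lit 0x600000600900c00f000c0120d981e511)))) (.br (Nat.shiftLeft (nat_lit 0x600000600900d) (nat_lit 76)) (.one (nat_lit 0x600000600900c010000c0120d9820511)) (.br (Nat.shiftLeft (nat_lit 0x7) (nat_lit 124)) (.one (nat_lit 0x600000600900d00e000c0120db81c511)) (.one (nat_lit 0x700000600900c00e000c0120f9c1c511)))))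
def t174 : k174.all (jb2 57 fl b0) = true := by decide +kernel
noncomputable def k175 : KT := (.br (Nat.shiftLeft (nat_lit 0x800000600900c01) (nat_lit 68)) (.br (Nat.shiftLeft (nat_lit 0x700000600900d) (nat_lit 76)) (.br (Nat.shiftLeft (nat_lit 0x700000600900c01) (nat_lit 68)) (.one (nat_lit 0x700000600900c00f000c0120f9c1e511)) (.one (nat_lit 0x700000600900c010000c0120f9c20511))) (.br (Nat.shiftLeft (nat_lit 0x1) (nat_lit 127)) (.one (nat_lit 0x700000600900d00e000c0120fbc1c511)) (.br (Nat.shiftLeft (nat_lit 0x800000600900c00f) (nat_lit 64)) (.one (nat_lit 0x800000600900c00e000c01211a01c511)) (.one (nat_lit 0x800000600900c00f000c01211a01e511))))) (.br (Nat.shiftLeft (nat_lit 0x900000600900c00f) (nat_lit 64)) (.br (Nat.shiftLeft (nat_lit 0x800000600900d) (nat_lit 76)) (.one (nat_lit 0x800000600900c010000c01211a020511)) (.br (Nat.shiftLeft (nat_lit 0x9) (nat_lit 124)) (.one (nat_lit 0x800000600900d00e000c01211c01c511)) (.one (nat_lit 0x900000600900c00e000c01213a41c511)))) (.br (Nat.shiftLeft (nat_lit 0x900000600900c01)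 (nat_lit 68)) (.one (nat_lit 0x900000600900c00f000c01213a41e511)) (.br (Nat.shiftLeft (nat_lit 0x900000600900d) (nat_lit 76)) (.one (nat_lit 0x900000600900c010000c01213a420511)) (.one (nat_lit 0x900000600900d00e000c01213c41c511))))))
def t175 : k175.all (jb2 57 fl b0) = true := by decide +kernel
noncomputable def k176 : KT := (.br (Nat.shiftLeft (nat_lit 0x1000003) (nat_lit 112)) (.br (Nat.shiftLeft (nat_lit 0xb00000600900d) (nat_lit 76)) (.br (Nat.shiftLeft (nat_lit 0xa00000600900d) (nat_lit 76)) (.br (Nat.shiftLeft (nat_lit 0xa00000600900c00f) (nat_lit 64)) (.one (nat_lit 0xa00000600900c00e000c01215a81c511)) (.br (Nat.shiftLeft (nat_lit 0xa00000600900c01) (nat_lit 68)) (.one (nat_lit 0xa00000600900c00f000c01215a81e511)) (.one (nat_lit 0xa00000600900c010000c01215a820511)))) (.br (Nat.shiftLeft (nat_lit 0xb00000600900c00f) (nat_lit 64)) (.br (Nat.shiftLeft (nat_lit 0xb) (nat_lit 124)) (.one (nat_lit 0xa00000600900d00e000c01215c81c511)) (.one (nat_lit 0xb00000600900c00e000c01217ac1c511))) (.br (Nat.shiftLeft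 (nat_lit 0xb00000600900c01) (nat_lit 68)) (.one (nat_lit 0xb00000600900c00f000c01217ac1e511)) (.one (nat_lit 0xb00000600900c010000c01217ac20511))))) (.br (Nat.shiftLeft (nat_lit 0xc00000600900c01) (nat_lit 68)) (.br (Nat.shiftLeft (nat_lit 0x3) (nat_lit 126)) (.one (nat_lit 0xb00000600900d00e000c01217cc1c511)) (.br (Nat.shiftLeft (nat_lit 0xc00000600900c00f) (nat_lit 64)) (.one (nat_lit 0xc00000600900c00e000c01219b01c511)) (.one (nat_lit 0xc00000600900c00f000c01219b01e511)))) (.br (Nat.shiftLeft (nat_lit 0xd) (nat_lit 124)) (.br (Nat.shiftLeft (nat_lit 0xc00000600900d) (nat_lit 76)) (.one (nat_lit 0xc00000600900c010000c01219b020511)) (.one (nat_lit 0xc00000600900d00e000c01219d01c511))) (.br (Nat.shiftLeft (nat_lit 0x1) (nat_lit 136)) (.one (nat_lit 0xd00000600900d00e000c0121bd41c511)) (.one (nat_lit 0x100000200600900c00e400c03241801c611)))))) (.br (Nat.shiftLeft (nat_lit 0xc00001) (nat_lit 114)) (.br (Nat.shiftLeft (nat_lit 0x2000003) (nat_lit 112)) (.br (Nat.shiftLeft (nat_lit 0x400001) (nat_lit 114))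 (.one (nat_lit 0x100000300600900c00e600c03241801c611)) (.br (Nat.shiftLeft (nat_lit 0x1) (nat_lit 137)) (.one (nat_lit 0x100000400600900c00e800c03241801c611)) (.one (nat_lit 0x200000200600900c00e400c05281801c611)))) (.br (Nat.shiftLeft (nat_lit 0x3) (nat_lit 136)) (.br (Nat.shiftLeft (nat_lit 0x800001) (nat_lit 114)) (.one (nat_lit 0x200000300600900c00e600c05281801c611)) (.one (nat_lit 0x200000400600900c00e800c05281801c611))) (.br (Nat.shiftLeft (nat_lit 0x3000003) (nat_lit 112)) (.one (nat_lit 0x300000200600900c00e400c072c1801c611)) (.one (nat_lit 0x300000300600900c00e600c072c1801c611))))) (.br (Nat.shiftLeft (nat_lit 0x1000001) (nat_lit 114)) (.br (Nat.shiftLeft (nat_lit 0x1) (nat_lit 138)) (.one (nat_lit 0x300000400600900c00e800c072c1801c611)) (.br (Nat.shiftLeft (nat_lit 0x4000003) (nat_lit 112)) (.one (nat_lit 0x400000200600900c00e400c09301801c611)) (.one (nat_lit 0x400000300600900c00e600c09301801c611)))) (.br (Nat.shiftLeft (nat_lit 0x5000003) (nat_lit 112)) (.br (Nat.shiftLeft (nat_lit 0x5) (nat_lit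 136)) (.one (nat_lit 0x400000400600900c00e800c09301801c611)) (.one (nat_lit 0x500000200600900c00e400c0b341801c611))) (.br (Nat.shiftLeft (nat_lit 0x1400001) (nat_lit 114)) (.one (nat_lit 0x500000300600900c00e600c0b341801c611)) (.one (nat_lit 0x500000400600900c00e800c0b341801c611)))))))
def t176 : k176.all (jb2 57 fl b0) = true := by decide +kernel
noncomputable def k177 : KT := (.br (Nat.shiftLeft (nat_lit 0x9000003) (nat_lit 112)) (.br (Nat.shiftLeft (nat_lit 0x1c00001) (nat_lit 114)) (.br (Nat.shiftLeft (nat_lit 0x1800001) (nat_lit 114)) (.br (Nat.shiftLeft (nat_lit 0x6000003) (nat_lit 112)) (.one (nat_lit 0x600000200600900c00e400c0d381801c611)) (.one (nat_lit 0x600000300600900c00e600c0d381801c611))) (.br (Nat.shiftLeft (nat_lit 0x7) (nat_lit 136)) (.one (nat_lit 0x600000400600900c00e800c0d381801c611)) (.br (Nat.shiftLeft (nat_lit 0x7000003) (nat_lit 112)) (.one (nat_lit 0x700000200600900c00e400c0f3c1801c611)) (.one (nat_lit 0x700000300600900c00e600c0f3c1801c611))))) (.br (Nat.shiftLeft (nat_lit 0x8000003)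 (nat_lit 112)) (.br (Nat.shiftLeft (nat_lit 0x1) (nat_lit 139)) (.one (nat_lit 0x700000400600900c00e800c0f3c1801c611)) (.one (nat_lit 0x800000200600900c00e400c11401801c611))) (.br (Nat.shiftLeft (nat_lit 0x2000001) (nat_lit 114)) (.one (nat_lit 0x800000300600900c00e600c11401801c611)) (.br (Nat.shiftLeft (nat_lit 0x9) (nat_lit 136)) (.one (nat_lit 0x800000400600900c00e800c11401801c611)) (.one (nat_lit 0x900000200600900c00e400c13441801c611)))))) (.br (Nat.shiftLeft (nat_lit 0xb) (nat_lit 136)) (.br (Nat.shiftLeft (nat_lit 0x5) (nat_lit 137)) (.br (Nat.shiftLeft (nat_lit 0x2400001) (nat_lit 114)) (.one (nat_lit 0x900000300600900c00e600c13441801c611)) (.one (nat_lit 0x900000400600900c00e800c13441801c611))) (.br (Nat.shiftLeft (nat_lit 0xa000003) (nat_lit 112)) (.one (nat_lit 0xa00000200600900c00e400c15481801c611)) (.br (Nat.shiftLeft (nat_lit 0x2800001) (nat_lit 114)) (.one (nat_lit 0xa00000300600900c00e600c15481801c611)) (.one (nat_lit 0xa00000400600900c00e800c15481801c611))))) (.br (Nat.shiftLeft (nat_lit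 0x3) (nat_lit 138)) (.br (Nat.shiftLeft (nat_lit 0xb000003) (nat_lit 112)) (.one (nat_lit 0xb00000200600900c00e400c174c1801c611)) (.br (Nat.shiftLeft (nat_lit 0x2c00001) (nat_lit 114)) (.one (nat_lit 0xb00000300600900c00e600c174c1801c611)) (.one (nat_lit 0xb00000400600900c00e800c174c1801c611)))) (.br (Nat.shiftLeft (nat_lit 0xc000003) (nat_lit 112)) (.one (nat_lit 0xc00000200600900c00e400c19501801c611)) (.br (Nat.shiftLeft (nat_lit 0x3000001) (nat_lit 114)) (.one (nat_lit 0xc00000300600900c00e600c19501801c611)) (.one (nat_lit 0xc00000400600900c00e800c19501801c611)))))))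
def t177 : k177.all (jb2 57 fl b0) = true := by decide +kernel
noncomputable def s9 : KT := (.br (nat_lit 0x400600900c010800c012018020650) (.br (nat_lit 0x200600900c010400c012018020650) (.br (nat_lit 0x100600900c010200c012018020650) (.br (nat_lit 0x100600900c00e200c01201801c650) k154 (.br (nat_lit 0x100600900c00f200c01201801e650) k155 k156)) (.br (nat_lit 0x200600900c00e400c01201801d600) k157 (.br (nat_lit 0x200600900c00f400c01201801e650) k158 k159))) (.br (nat_lit 0x300600900c010600c012018020650) (.br (nat_lit 0x300600900c00e600c01201801d600) k160 (.br (nat_lit 0x300600900c00f600c01201801e650) k161 k162)) (.br (nat_lit 0x400600900c00e800c01201801d600) k163 (.br (nat_lit 0x400600900c00f800c01201801e650) k164 k165)))) (.br (nat_lit 0x100300600900c00e600c01203841c760) (.br (nat_lit 0x500600900c00fa00c01201801e650) (.br (nat_lit 0x400600900d00e800c01201a01c650) k166 (.br (nat_lit 0x500600900c00ea00c01201801c650) k167 k168)) (.br (nat_lit 0x500600900c010a00c012018020650) k169 (.br (nat_lit 0x100000600900d00e000c01203a41c511)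 k170 k171))) (.br (nat_lit 0x700000600900c00e000c0120f9c1c511) (.br (nat_lit 0x200400600900c00e800c01205881c760) k172 (.br (nat_lit 0x500000600900c010000c0120b9420511) k173 k174)) (.br (nat_lit 0x900000600900d00e000c01213c41c511) k175 (.br (nat_lit 0x500000400600900c00e800c0b341801c611) k176 k177)))))
noncomputable def u9 : KT := (.br (Nat.shiftLeft (nat_lit 0x600900c01) (nat_lit 68)) (.br (Nat.shiftLeft (nat_lit 0x600900c00f) (nat_lit 64)) (.one (nat_lit 0x600900c00e000c01201801c540)) (.one (nat_lit 0x600900c00f000c01201801e540))) (.br (Nat.shiftLeft (nat_lit 0x600900d) (nat_lit 76)) (.one (nat_lit 0x600900c010000c012018020540)) (.one (nat_lit 0x600900d00e000c01201a01c540))))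
def w9 : u9.all (wj 57 s9) = true := by decide +kernel
def o9 : OkW 57 (jb2 57 fl) u9 := .lift s9 _ (.br _ _ _ (.br _ _ _ (.br _ _ _ (.br _ _ _ (.leaf b0 k154 t154) (.br _ _ _ (.leaf b0 k155 t155) (.leaf b0 k156 t156))) (.br _ _ _ (.leaf b0 k157 t157) (.br _ _ _ (.leaf b0 k158 t158) (.leaf b0 k159 t159)))) (.br _ _ _ (.br _ _ _ (.leaf b0 k160 t160) (.br _ _ _ (.leaf b0 k161 t161) (.leaf b0 k162 t162))) (.br _ _ _ (.leaf b0 k163 t163) (.br _ _ _ (.leaf b0 k164 t164) (.leaf b0 k165 t165))))) (.br _ _ _ (.br _ _ _ (.br _ _ _ (.leaf b0 k166 t166) (.br _ _ _ (.leaf b0 k167 t167) (.leaf b0 k168 t168))) (.br _ _ _ (.leaf b0 k169 t169) (.br _ _ _ (.leaf b0 k170 t170) (.leaf b0 k171 t171)))) (.br _ _ _ (.br _ _ _ (.leaf b0 k172 t172) (.br _ _ _ (.leaf b0 k173 t173) (.leaf b0 k174 t174))) (.br _ _ _ (.leaf b0 k175 t175) (.br _ _ _ (.leaf b0 k176 t176) (.leaf b0 k177 t177)))))) w9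
noncomputable def k178 : KT := (.br (Nat.shiftLeft (nat_lit 0x803005) (nat_lit 89)) (.br (Nat.shiftLeft (nat_lit 0x3005) (nat_lit 89)) (.one (nat_lit 0x600900d00f000c01201a01f500)) (.br (Nat.shiftLeft (nat_lit 0x1) (nat_lit 112)) (.one (nat_lit 0x600a00b00c000c014016019500)) (.one (nat_lit 0x100600900d00f200c01201a01e650)))) (.br (Nat.shiftLeft (nat_lit 0x1) (nat_lit 113)) (.one (nat_lit 0x100600a00b00c200c014016019600)) (.br (Nat.shiftLeft (nat_lit 0x1003005) (nat_lit 89)) (.one (nat_lit 0x200600900d00f400c01201a01e650)) (.one (nat_lit 0x200600a00b00c400c014016019600)))))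
def t178 : k178.all (jb2 57 fl b0) = true := by decide +kernel
noncomputable def k179 : KT := (.br (Nat.shiftLeft (nat_lit 0x1803005) (nat_lit 89)) (.one (nat_lit 0x300600900d00f600c01201a01e650)) (.one (nat_lit 0x300600a00b00c600c014016019600)))
def t179 : k179.all (jb2 57 fl b0) = true := by decide +kernel
noncomputable def k180 : KT := (.br (Nat.shiftLeft (nat_lit 0x2803005) (nat_lit 89)) (.br (Nat.shiftLeft (nat_lit 0x2003005) (nat_lit 89)) (.one (nat_lit 0x400600900d00f800c01201a01e650)) (.br (Nat.shiftLeft (nat_lit 0x5) (nat_lit 112)) (.one (nat_lit 0x400600a00b00c800c014016019600)) (.one (nat_lit 0x500600900d00fa00c01201a01e650)))) (.br (Nat.shiftLeft (nat_lit 0x1) (nat_lit 124)) (.one (nat_lit 0x500600a00b00ca00c014016019600)) (.br (Nat.shiftLeft (nat_lit 0x800003005) (nat_lit 89)) (.one (nat_lit 0x100000600900d00f000c01203a41e511)) (.one (nat_lit 0x100000600a00b00c000c014036418511)))))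
def t180 : k180.all (jb2 57 fl b0) = true := by decide +kernel
noncomputable def k181 : KT := (.one (nat_lit 0x100200600a00b00c400c014036418760))
def t181 : k181.all (jb2 57 fl b0) = true := by decide +kernel
noncomputable def k182 : KT := (.one (nat_lit 0x100300600a00b00c600c014036418760))
def t182 : k182.all (jb2 57 fl b0) = true := by decide +kernel
noncomputable def k183 : KT := (.br (Nat.shiftLeft (nat_lit 0x1) (nat_lit 125)) (.br (Nat.shiftLeft (nat_lit 0x1005) (nat_lit 112)) (.one (nat_lit 0x100400600a00b00c800c014036418760)) (.one (nat_lit 0x100500600a00b00ca00c014036418760))) (.br (Nat.shiftLeft (nat_lit 0x1000003005) (nat_lit 89)) (.one (nat_lit 0x200000600900d00f000c01205a81e511)) (.one (nat_lit 0x200000600a00b00c000c014056818511))))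
def t183 : k183.all (jb2 57 fl b0) = true := by decide +kernel
noncomputable def k184 : KT := (.one (nat_lit 0x200300600a00b00c600c014056818760))
def t184 : k184.all (jb2 57 fl b0) = true := by decide +kernel
noncomputable def k185 : KT := (.br (Nat.shiftLeft (nat_lit 0x3) (nat_lit 124)) (.br (Nat.shiftLeft (nat_lit 0x2005) (nat_lit 112)) (.one (nat_lit 0x200400600a00b00c800c014056818760)) (.one (nat_lit 0x200500600a00b00ca00c014056818760))) (.br (Nat.shiftLeft (nat_lit 0x1800003005) (nat_lit 89)) (.one (nat_lit 0x300000600900d00f000c01207ac1e511)) (.one (nat_lit 0x300000600a00b00c000c014076c18511))))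
def t185 : k185.all (jb2 57 fl b0) = true := by decide +kernel
noncomputable def k186 : KT := (.br (Nat.shiftLeft (nat_lit 0x3005) (nat_lit 112)) (.one (nat_lit 0x300400600a00b00c800c014076c18760)) (.one (nat_lit 0x300500600a00b00ca00c014076c18760)))
def t186 : k186.all (jb2 57 fl b0) = true := by decide +kernel
noncomputable def k187 : KT := (.br (Nat.shiftLeft (nat_lit 0x5) (nat_lit 124)) (.br (Nat.shiftLeft (nat_lit 0x2000003005) (nat_lit 89)) (.one (nat_lit 0x400000600900d00f000c01209b01e511)) (.br (Nat.shiftLeft (nat_lit 0x1001) (nat_lit 114)) (.one (nat_lit 0x400000600a00b00c000c014097018511)) (.one (nat_lit 0x400500600a00b00ca00c014097018760)))) (.br (Nat.shiftLeft (nat_lit 0x2800003005) (nat_lit 89)) (.one (nat_lit 0x500000600900d00f000c0120bb41e511)) (.br (Nat.shiftLeft (nat_lit 0x3) (nat_lit 125)) (.one (nat_lit 0x500000600a00b00c000c0140b7418511)) (.one (nat_lit 0x600000600900d00f000c0120db81e511)))))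
def t187 : k187.all (jb2 57 fl b0) = true := by decide +kernel
noncomputable def k188 : KT := (.br (Nat.shiftLeft (nat_lit 0x1) (nat_lit 127)) (.br (Nat.shiftLeft (nat_lit 0x7) (nat_lit 124)) (.one (nat_lit 0x600000600a00b00c000c0140d7818511)) (.br (Nat.shiftLeft (nat_lit 0x3800003005) (nat_lit 89)) (.one (nat_lit 0x700000600900d00f000c0120fbc1e511)) (.one (nat_lit 0x700000600a00b00c000c0140f7c18511)))) (.br (Nat.shiftLeft (nat_lit 0x4000003005) (nat_lit 89)) (.one (nat_lit 0x800000600900d00f000c01211c01e511)) (.br (Nat.shiftLeft (nat_lit 0x9) (nat_lit 124)) (.one (nat_lit 0x800000600a00b00c000c014118018511)) (.one (nat_lit 0x900000600900d00f000c01213c41e511)))))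
def t188 : k188.all (jb2 57 fl b0) = true := by decide +kernel
noncomputable def k189 : KT := (.br (Nat.shiftLeft (nat_lit 0x1000001) (nat_lit 113)) (.br (Nat.shiftLeft (nat_lit 0xd) (nat_lit 124)) (.br (Nat.shiftLeft (nat_lit 0xb) (nat_lit 124)) (.br (Nat.shiftLeft (nat_lit 0x5) (nat_lit 125)) (.one (nat_lit 0x900000600a00b00c000c014138418511)) (.br (Nat.shiftLeft (nat_lit 0x5000003005) (nat_lit 89)) (.one (nat_lit 0xa00000600900d00f000c01215c81e511)) (.one (nat_lit 0xa00000600a00b00c000c014158818511)))) (.br (Nat.shiftLeft (nat_lit 0x5800003005) (nat_lit 89)) (.one (nat_lit 0xb00000600900d00f000c01217cc1e511)) (.br (Nat.shiftLeft (nat_lit 0x3) (nat_lit 126)) (.one (nat_lit 0xb00000600a00b00c000c014178c18511)) (.one (nat_lit 0xc00000600900d00f000c01219d01e511))))) (.br (Nat.shiftLeft (nat_lit 0x1000003) (nat_lit 112)) (.br (Nat.shiftLeft (nat_lit 0x1) (nat_lit 136)) (.one (nat_lit 0xd00000600900d00f000c0121bd41e511)) (.br (Nat.shiftLeft (nat_lit 0x800001) (nat_lit 113)) (.one (nat_lit 0x100000100600a00b00c200c034416018611))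 (.one (nat_lit 0x100000200600a00b00c400c034416018611)))) (.br (Nat.shiftLeft (nat_lit 0x1000005) (nat_lit 112)) (.br (Nat.shiftLeft (nat_lit 0x400001) (nat_lit 114)) (.one (nat_lit 0x100000300600a00b00c600c034416018611)) (.one (nat_lit 0x100000400600a00b00c800c034416018611))) (.br (Nat.shiftLeft (nat_lit 0x1) (nat_lit 137)) (.one (nat_lit 0x100000500600a00b00ca00c034416018611)) (.one (nat_lit 0x200000100600a00b00c200c054816018611)))))) (.br (Nat.shiftLeft (nat_lit 0x3000003) (nat_lit 112)) (.br (Nat.shiftLeft (nat_lit 0x2000005) (nat_lit 112)) (.br (Nat.shiftLeft (nat_lit 0x2000003) (nat_lit 112)) (.one (nat_lit 0x200000200600a00b00c400c054816018611)) (.br (Nat.shiftLeft (nat_lit 0x800001) (nat_lit 114)) (.one (nat_lit 0x200000300600a00b00c600c054816018611)) (.one (nat_lit 0x200000400600a00b00c800c054816018611)))) (.br (Nat.shiftLeft (nat_lit 0x3) (nat_lit 136)) (.one (nat_lit 0x200000500600a00b00ca00c054816018611)) (.br (Nat.shiftLeft (nat_lit 0x1800001) (nat_lit 113)) (.one (nat_lit 0x300000100600a00b00c200c074c16018611))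 (.one (nat_lit 0x300000200600a00b00c400c074c16018611))))) (.br (Nat.shiftLeft (nat_lit 0x1) (nat_lit 138)) (.br (Nat.shiftLeft (nat_lit 0xc00001) (nat_lit 114)) (.one (nat_lit 0x300000300600a00b00c600c074c16018611)) (.br (Nat.shiftLeft (nat_lit 0x3000005) (nat_lit 112)) (.one (nat_lit 0x300000400600a00b00c800c074c16018611)) (.one (nat_lit 0x300000500600a00b00ca00c074c16018611)))) (.br (Nat.shiftLeft (nat_lit 0x4000003) (nat_lit 112)) (.br (Nat.shiftLeft (nat_lit 0x2000001) (nat_lit 113)) (.one (nat_lit 0x400000100600a00b00c200c095016018611)) (.one (nat_lit 0x400000200600a00b00c400c095016018611))) (.br (Nat.shiftLeft (nat_lit 0x1000001) (nat_lit 114)) (.one (nat_lit 0x400000300600a00b00c600c095016018611)) (.one (nat_lit 0x400000400600a00b00c800c095016018611)))))))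
def t189 : k189.all (jb2 57 fl b0) = true := by decide +kernel
noncomputable def k190 : KT := (.br (Nat.shiftLeft (nat_lit 0x5000003) (nat_lit 112)) (.br (Nat.shiftLeft (nat_lit 0x5) (nat_lit 136)) (.one (nat_lit 0x400000500600a00b00ca00c095016018611)) (.br (Nat.shiftLeft (nat_lit 0x2800001) (nat_lit 113)) (.one (nat_lit 0x500000100600a00b00c200c0b5416018611)) (.one (nat_lit 0x500000200600a00b00c400c0b5416018611)))) (.br (Nat.shiftLeft (nat_lit 0x1400001) (nat_lit 114)) (.one (nat_lit 0x500000300600a00b00c600c0b5416018611)) (.br (Nat.shiftLeft (nat_lit 0x5000005) (nat_lit 112)) (.one (nat_lit 0x500000400600a00b00c800c0b5416018611)) (.one (nat_lit 0x500000500600a00b00ca00c0b5416018611)))))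
def t190 : k190.all (jb2 57 fl b0) = true := by decide +kernel
noncomputable def k191 : KT := (.br (Nat.shiftLeft (nat_lit 0x6000003) (nat_lit 112)) (.br (Nat.shiftLeft (nat_lit 0x3000001) (nat_lit 113)) (.one (nat_lit 0x600000100600a00b00c200c0d5816018611)) (.one (nat_lit 0x600000200600a00b00c400c0d5816018611))) (.br (Nat.shiftLeft (nat_lit 0x1800001) (nat_lit 114)) (.one (nat_lit 0x600000300600a00b00c600c0d5816018611)) (.br (Nat.shiftLeft (nat_lit 0x6000005) (nat_lit 112)) (.one (nat_lit 0x600000400600a00b00c800c0d5816018611)) (.one (nat_lit 0x600000500600a00b00ca00c0d5816018611)))))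
def t191 : k191.all (jb2 57 fl b0) = true := by decide +kernel
noncomputable def k192 : KT := (.br (Nat.shiftLeft (nat_lit 0x1c00001) (nat_lit 114)) (.br (Nat.shiftLeft (nat_lit 0x3800001) (nat_lit 113)) (.one (nat_lit 0x700000100600a00b00c200c0f5c16018611)) (.br (Nat.shiftLeft (nat_lit 0x7000003) (nat_lit 112)) (.one (nat_lit 0x700000200600a00b00c400c0f5c16018611)) (.one (nat_lit 0x700000300600a00b00c600c0f5c16018611)))) (.br (Nat.shiftLeft (nat_lit 0x7000005) (nat_lit 112)) (.one (nat_lit 0x700000400600a00b00c800c0f5c16018611)) (.br (Nat.shiftLeft (nat_lit 0x1) (nat_lit 139)) (.one (nat_lit 0x700000500600a00b00ca00c0f5c16018611)) (.one (nat_lit 0x800000100600a00b00c200c116016018611)))))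
def t192 : k192.all (jb2 57 fl b0) = true := by decide +kernel
noncomputable def k193 : KT := (.br (Nat.shiftLeft (nat_lit 0x2400001) (nat_lit 114)) (.br (Nat.shiftLeft (nat_lit 0x8000005) (nat_lit 112)) (.br (Nat.shiftLeft (nat_lit 0x8000003) (nat_lit 112)) (.one (nat_lit 0x800000200600a00b00c400c116016018611)) (.br (Nat.shiftLeft (nat_lit 0x2000001) (nat_lit 114)) (.one (nat_lit 0x800000300600a00b00c600c116016018611)) (.one (nat_lit 0x800000400600a00b00c800c116016018611)))) (.br (Nat.shiftLeft (nat_lit 0x4800001) (nat_lit 113)) (.br (Nat.shiftLeft (nat_lit 0x9) (nat_lit 136)) (.one (nat_lit 0x800000500600a00b00ca00c116016018611)) (.one (nat_lit 0x900000100600a00b00c200c136416018611))) (.br (Nat.shiftLeft (nat_lit 0x9000003) (nat_lit 112)) (.one (nat_lit 0x900000200600a00b00c400c136416018611)) (.one (nat_lit 0x900000300600a00b00c600c136416018611))))) (.br (Nat.shiftLeft (nat_lit 0xa000003) (nat_lit 112)) (.br (Nat.shiftLeft (nat_lit 0x5) (nat_lit 137)) (.br (Nat.shiftLeft (nat_lit 0x9000005) (nat_lit 112))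 (.one (nat_lit 0x900000400600a00b00c800c136416018611)) (.one (nat_lit 0x900000500600a00b00ca00c136416018611))) (.br (Nat.shiftLeft (nat_lit 0x5000001) (nat_lit 113)) (.one (nat_lit 0xa00000100600a00b00c200c156816018611)) (.one (nat_lit 0xa00000200600a00b00c400c156816018611)))) (.br (Nat.shiftLeft (nat_lit 0xa000005) (nat_lit 112)) (.br (Nat.shiftLeft (nat_lit 0x2800001) (nat_lit 114)) (.one (nat_lit 0xa00000300600a00b00c600c156816018611)) (.one (nat_lit 0xa00000400600a00b00c800c156816018611))) (.br (Nat.shiftLeft (nat_lit 0xb) (nat_lit 136)) (.one (nat_lit 0xa00000500600a00b00ca00c156816018611)) (.one (nat_lit 0xb00000100600a00b00c200c176c16018611))))))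
def t193 : k193.all (jb2 57 fl b0) = true := by decide +kernel
noncomputable def k194 : KT := (.br (Nat.shiftLeft (nat_lit 0x2c00001) (nat_lit 114)) (.br (Nat.shiftLeft (nat_lit 0xb000003) (nat_lit 112)) (.one (nat_lit 0xb00000200600a00b00c400c176c16018611)) (.one (nat_lit 0xb00000300600a00b00c600c176c16018611))) (.br (Nat.shiftLeft (nat_lit 0xb000005) (nat_lit 112)) (.one (nat_lit 0xb00000400600a00b00c800c176c16018611)) (.one (nat_lit 0xb00000500600a00b00ca00c176c16018611))))
def t194 : k194.all (jb2 57 fl b0) = true := by decide +kernel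
noncomputable def s10 : KT := (.br (nat_lit 0x300000600a00b00c000c014076c18511) (.br (nat_lit 0x100200600a00b00c400c014036418760) (.br (nat_lit 0x300600a00b00c600c014016019600) (.br (nat_lit 0x200600a00b00c400c014016019600) k178 k179) (.br (nat_lit 0x100000600a00b00c000c014036418511) k180 k181)) (.br (nat_lit 0x200000600a00b00c000c014056818511) (.br (nat_lit 0x100300600a00b00c600c014036418760) k182 k183) (.br (nat_lit 0x200300600a00b00c600c014056818760) k184 k185))) (.br (nat_lit 0x400000400600a00b00c800c095016018611) (.br (nat_lit 0x600000600900d00f000c0120db81e511) (.br (nat_lit 0x300500600a00b00ca00c014076c18760) k186 k187) (.br (nat_lit 0x900000600900d00f000c01213c41e511) k188 k189)) (.br (nat_lit 0x600000500600a00b00ca00c0d5816018611) (.br (nat_lit 0x500000500600a00b00ca00c0b5416018611) k190 k191) (.br (nat_lit 0x800000100600a00b00c200c116016018611) k192 (.br (nat_lit 0xb00000100600a00b00c200c176c16018611) k193 k194)))))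
noncomputable def u10 : KT := (.br (Nat.shiftLeft (nat_lit 0x3005) (nat_lit 89)) (.one (nat_lit 0x600900d00f000c01201a01e540)) (.one (nat_lit 0x600a00b00c000c014016018540)))
def w10 : u10.all (wj 57 s10) = true := by decide +kernel
def o10 : OkW 57 (jb2 57 fl) u10 := .lift s10 _ (.br _ _ _ (.br _ _ _ (.br _ _ _ (.br _ _ _ (.leaf b0 k178 t178) (.leaf b0 k179 t179)) (.br _ _ _ (.leaf b0 k180 t180) (.leaf b0 k181 t181))) (.br _ _ _ (.br _ _ _ (.leaf b0 k182 t182) (.leaf b0 k183 t183)) (.br _ _ _ (.leaf b0 k184 t184) (.leaf b0 k185 t185)))) (.br _ _ _ (.br _ _ _ (.br _ _ _ (.leaf b0 k186 t186) (.leaf b0 k187 t187)) (.br _ _ _ (.leaf b0 k188 t188) (.leaf b0 k189 t189))) (.br _ _ _ (.br _ _ _ (.leaf b0 k190 t190) (.leaf b0 k191 t191)) (.br _ _ _ (.leaf b0 k192 t192) (.br _ _ _ (.leaf b0 k193 t193) (.leaf b0 k194 t194)))))) w10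
noncomputable def k195 : KT := (.br (Nat.shiftLeft (nat_lit 0x600a00b00f) (nat_lit 64)) (.br (Nat.shiftLeft (nat_lit 0x3005005807) (nat_lit 65)) (.one (nat_lit 0x600a00b00d000c01401601b500)) (.one (nat_lit 0x600a00b00e000c01401601d500))) (.br (Nat.shiftLeft (nat_lit 0x1) (nat_lit 112)) (.one (nat_lit 0x600a00b00f000c01401601f500)) (.br (Nat.shiftLeft (nat_lit 0x803005005807) (nat_lit 65)) (.one (nat_lit 0x100600a00b00d200c01401601b600)) (.one (nat_lit 0x100600a00b00e200c01401601c650)))))
def t195 : k195.all (jb2 57 fl b0) = true := by decide +kernel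
noncomputable def k196 : KT := (.br (Nat.shiftLeft (nat_lit 0x1) (nat_lit 113)) (.one (nat_lit 0x100600a00b00f200c01401601e650)) (.br (Nat.shiftLeft (nat_lit 0x1003005005807) (nat_lit 65)) (.one (nat_lit 0x200600a00b00d400c01401601b600)) (.one (nat_lit 0x200600a00b00e400c01401601d600))))
def t196 : k196.all (jb2 57 fl b0) = true := by decide +kernel
noncomputable def k197 : KT := (.br (Nat.shiftLeft (nat_lit 0x3) (nat_lit 112)) (.one (nat_lit 0x200600a00b00f400c01401601e650)) (.br (Nat.shiftLeft (nat_lit 0x1803005005807) (nat_lit 65)) (.one (nat_lit 0x300600a00b00d600c01401601b600)) (.one (nat_lit 0x300600a00b00e600c01401601d600))))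
def t197 : k197.all (jb2 57 fl b0) = true := by decide +kernel
noncomputable def k198 : KT := (.br (Nat.shiftLeft (nat_lit 0x1) (nat_lit 114)) (.one (nat_lit 0x300600a00b00f600c01401601e650)) (.br (Nat.shiftLeft (nat_lit 0x2003005005807) (nat_lit 65)) (.one (nat_lit 0x400600a00b00d800c01401601b600)) (.one (nat_lit 0x400600a00b00e800c01401601d600))))
def t198 : k198.all (jb2 57 fl b0) = true := by decide +kernel
noncomputable def k199 : KT := (.br (Nat.shiftLeft (nat_lit 0x5) (nat_lit 112)) (.one (nat_lit 0x400600a00b00f800c01401601e650)) (.one (nat_lit 0x500600a00b00da00c01401601b600)))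
def t199 : k199.all (jb2 57 fl b0) = true := by decide +kernel
noncomputable def k200 : KT := (.one (nat_lit 0x500600a00b00ea00c01401601c650))
def t200 : k200.all (jb2 57 fl b0) = true := by decide +kernel
noncomputable def k201 : KT := (.br (Nat.shiftLeft (nat_lit 0x800003005005807) (nat_lit 65)) (.br (Nat.shiftLeft (nat_lit 0x1) (nat_lit 124)) (.one (nat_lit 0x500600a00b00fa00c01401601e650)) (.one (nat_lit 0x100000600a00b00d000c01403641a511))) (.br (Nat.shiftLeft (nat_lit 0x100000600a00b00f) (nat_lit 64)) (.one (nat_lit 0x100000600a00b00e000c01403641c511)) (.one (nat_lit 0x100000600a00b00f000c01403641e511))))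
def t201 : k201.all (jb2 57 fl b0) = true := by decide +kernel
noncomputable def k202 : KT := (.one (nat_lit 0x100200600a00b00d400c01403641a760))
def t202 : k202.all (jb2 57 fl b0) = true := by decide +kernel
noncomputable def k203 : KT := (.br (Nat.shiftLeft (nat_lit 0x1003) (nat_lit 112)) (.one (nat_lit 0x100200600a00b00e400c01403641c760)) (.one (nat_lit 0x100300600a00b00d600c01403641a760)))
def t203 : k203.all (jb2 57 fl b0) = true := by decide +kernel
noncomputable def k204 : KT := (.br (Nat.shiftLeft (nat_lit 0x401) (nat_lit 114)) (.one (nat_lit 0x100300600a00b00e600c01403641c760)) (.br (Nat.shiftLeft (nat_lit 0x802003005005807) (nat_lit 65)) (.one (nat_lit 0x100400600a00b00d800c01403641a760)) (.one (nat_lit 0x100400600a00b00e800c01403641c760))))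
def t204 : k204.all (jb2 57 fl b0) = true := by decide +kernel
noncomputable def k205 : KT := (.br (Nat.shiftLeft (nat_lit 0x1000003005005807) (nat_lit 65)) (.br (Nat.shiftLeft (nat_lit 0x1) (nat_lit 125)) (.one (nat_lit 0x100500600a00b00da00c01403641a760)) (.one (nat_lit 0x200000600a00b00d000c01405681a511))) (.br (Nat.shiftLeft (nat_lit 0x200000600a00b00f) (nat_lit 64)) (.one (nat_lit 0x200000600a00b00e000c01405681c511)) (.br (Nat.shiftLeft (nat_lit 0x1001) (nat_lit 113)) (.one (nat_lit 0x200000600a00b00f000c01405681e511)) (.one (nat_lit 0x200300600a00b00d600c01405681a760)))))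
def t205 : k205.all (jb2 57 fl b0) = true := by decide +kernel
noncomputable def k206 : KT := (.br (Nat.shiftLeft (nat_lit 0x801) (nat_lit 114)) (.one (nat_lit 0x200300600a00b00e600c01405681c760)) (.one (nat_lit 0x200400600a00b00d800c01405681a760)))
def t206 : k206.all (jb2 57 fl b0) = true := by decide +kernel
noncomputable def k207 : KT := (.br (Nat.shiftLeft (nat_lit 0x3) (nat_lit 124)) (.br (Nat.shiftLeft (nat_lit 0x2005) (nat_lit 112)) (.one (nat_lit 0x200400600a00b00e800c01405681c760)) (.one (nat_lit 0x200500600a00b00da00c01405681a760))) (.br (Nat.shiftLeft (nat_lit 0x1800003005005807) (nat_lit 65)) (.one (nat_lit 0x300000600a00b00d000c014076c1a511)) (.br (Nat.shiftLeft (nat_lit 0x300000600a00b00f) (nat_lit 64)) (.one (nat_lit 0x300000600a00b00e000c014076c1c511)) (.one (nat_lit 0x300000600a00b00f000c014076c1e511)))))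
def t207 : k207.all (jb2 57 fl b0) = true := by decide +kernel
noncomputable def k208 : KT := (.br (Nat.shiftLeft (nat_lit 0x1802003005005807) (nat_lit 65)) (.one (nat_lit 0x300400600a00b00d800c014076c1a760)) (.br (Nat.shiftLeft (nat_lit 0x3005) (nat_lit 112)) (.one (nat_lit 0x300400600a00b00e800c014076c1c760)) (.one (nat_lit 0x300500600a00b00da00c014076c1a760))))
def t208 : k208.all (jb2 57 fl b0) = true := by decide +kernel
noncomputable def k209 : KT := (.br (Nat.shiftLeft (nat_lit 0x1001) (nat_lit 114)) (.br (Nat.shiftLeft (nat_lit 0x2000003005005807) (nat_lit 65)) (.one (nat_lit 0x400000600a00b00d000c01409701a511)) (.br (Nat.shiftLeft (nat_lit 0x400000600a00b00f) (nat_lit 64)) (.one (nat_lit 0x400000600a00b00e000c01409701c511)) (.one (nat_lit 0x400000600a00b00f000c01409701e511)))) (.br (Nat.shiftLeft (nat_lit 0x2800003005005807) (nat_lit 65)) (.br (Nat.shiftLeft (nat_lit 0x5) (nat_lit 124)) (.one (nat_lit 0x400500600a00b00da00c01409701a760)) (.one (nat_lit 0x500000600a00b00d000c0140b741a511))) (.br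 (Nat.shiftLeft (nat_lit 0x500000600a00b00f) (nat_lit 64)) (.one (nat_lit 0x500000600a00b00e000c0140b741c511)) (.one (nat_lit 0x500000600a00b00f000c0140b741e511)))))
def t209 : k209.all (jb2 57 fl b0) = true := by decide +kernel
noncomputable def k210 : KT := (.br (Nat.shiftLeft (nat_lit 0x600000600a00b00f) (nat_lit 64)) (.br (Nat.shiftLeft (nat_lit 0x3000003005005807) (nat_lit 65)) (.one (nat_lit 0x600000600a00b00d000c0140d781a511)) (.one (nat_lit 0x600000600a00b00e000c0140d781c511))) (.br (Nat.shiftLeft (nat_lit 0x7) (nat_lit 124)) (.one (nat_lit 0x600000600a00b00f000c0140d781e511)) (.br (Nat.shiftLeft (nat_lit 0x3800003005005807) (nat_lit 65)) (.one (nat_lit 0x700000600a00b00d000c0140f7c1a511)) (.one (nat_lit 0x700000600a00b00e000c0140f7c1c511)))))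
def t210 : k210.all (jb2 57 fl b0) = true := by decide +kernel
noncomputable def k211 : KT := (.br (Nat.shiftLeft (nat_lit 0x4800003005005807) (nat_lit 65)) (.br (Nat.shiftLeft (nat_lit 0x4000003005005807) (nat_lit 65)) (.br (Nat.shiftLeft (nat_lit 0x1) (nat_lit 127)) (.one (nat_lit 0x700000600a00b00f000c0140f7c1e511)) (.one (nat_lit 0x800000600a00b00d000c01411801a511))) (.br (Nat.shiftLeft (nat_lit 0x800000600a00b00f) (nat_lit 64)) (.one (nat_lit 0x800000600a00b00e000c01411801c511)) (.br (Nat.shiftLeft (nat_lit 0x9) (nat_lit 124)) (.one (nat_lit 0x800000600a00b00f000c01411801e511)) (.one (nat_lit 0x900000600a00b00d000c01413841a511))))) (.br (Nat.shiftLeft (nat_lit 0x5) (nat_lit 125)) (.br (Nat.shiftLeft (nat_lit 0x900000600a00b00f) (nat_lit 64)) (.one (nat_lit 0x900000600a00b00e000c01413841c511)) (.one (nat_lit 0x900000600a00b00f000c01413841e511))) (.br (Nat.shiftLeft (nat_lit 0x5000003005005807) (nat_lit 65)) (.one (nat_lit 0xa00000600a00b00d000c01415881a511)) (.br (Nat.shiftLeft (nat_lit 0xa00000600a00b00f)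 (nat_lit 64)) (.one (nat_lit 0xa00000600a00b00e000c01415881c511)) (.one (nat_lit 0xa00000600a00b00f000c01415881e511))))))
def t211 : k211.all (jb2 57 fl b0) = true := by decide +kernel
noncomputable def k212 : KT := (.br (Nat.shiftLeft (nat_lit 0x1000002003005005807) (nat_lit 65)) (.br (Nat.shiftLeft (nat_lit 0x400001) (nat_lit 114)) (.br (Nat.shiftLeft (nat_lit 0x800001) (nat_lit 113)) (.br (Nat.shiftLeft (nat_lit 0xb00000600a00b00f) (nat_lit 64)) (.br (Nat.shiftLeft (nat_lit 0x5800003005005807) (nat_lit 65)) (.one (nat_lit 0xb00000600a00b00d000c014178c1a511)) (.one (nat_lit 0xb00000600a00b00e000c014178c1c511))) (.br (Nat.shiftLeft (nat_lit 0x1) (nat_lit 136)) (.one (nat_lit 0xb00000600a00b00f000c014178c1e511)) (.one (nat_lit 0x100000100600a00b00d200c03441601a611)))) (.br (Nat.shiftLeft (nat_lit 0x1000003) (nat_lit 112)) (.br (Nat.shiftLeft (nat_lit 0x800001003005005807) (nat_lit 65)) (.one (nat_lit 0x100000200600a00b00d400c03441601a611)) (.one (nat_lit 0x100000200600a00b00e400c03441601c611))) (.br (Nat.shiftLeft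 (nat_lit 0x800001803005005807) (nat_lit 65)) (.one (nat_lit 0x100000300600a00b00d600c03441601a611)) (.one (nat_lit 0x100000300600a00b00e600c03441601c611))))) (.br (Nat.shiftLeft (nat_lit 0x1000001) (nat_lit 113)) (.br (Nat.shiftLeft (nat_lit 0x1000005) (nat_lit 112)) (.br (Nat.shiftLeft (nat_lit 0x800002003005005807) (nat_lit 65)) (.one (nat_lit 0x100000400600a00b00d800c03441601a611)) (.one (nat_lit 0x100000400600a00b00e800c03441601c611))) (.br (Nat.shiftLeft (nat_lit 0x1) (nat_lit 137)) (.one (nat_lit 0x100000500600a00b00da00c03441601a611)) (.one (nat_lit 0x200000100600a00b00d200c05481601a611)))) (.br (Nat.shiftLeft (nat_lit 0x2000003) (nat_lit 112)) (.br (Nat.shiftLeft (nat_lit 0x1000001003005005807) (nat_lit 65)) (.one (nat_lit 0x200000200600a00b00d400c05481601a611)) (.one (nat_lit 0x200000200600a00b00e400c05481601c611))) (.br (Nat.shiftLeft (nat_lit 0x1000001803005005807) (nat_lit 65)) (.one (nat_lit 0x200000300600a00b00d600c05481601a611)) (.br (Nat.shiftLeft (nat_lit 0x800001) (nat_lit 114)) (.one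 (nat_lit 0x200000300600a00b00e600c05481601c611)) (.one (nat_lit 0x200000400600a00b00d800c05481601a611))))))) (.br (Nat.shiftLeft (nat_lit 0x3000005) (nat_lit 112)) (.br (Nat.shiftLeft (nat_lit 0x1800001003005005807) (nat_lit 65)) (.br (Nat.shiftLeft (nat_lit 0x3) (nat_lit 136)) (.br (Nat.shiftLeft (nat_lit 0x2000005) (nat_lit 112)) (.one (nat_lit 0x200000400600a00b00e800c05481601c611)) (.one (nat_lit 0x200000500600a00b00da00c05481601a611))) (.br (Nat.shiftLeft (nat_lit 0x1800001) (nat_lit 113)) (.one (nat_lit 0x300000100600a00b00d200c074c1601a611)) (.one (nat_lit 0x300000200600a00b00d400c074c1601a611)))) (.br (Nat.shiftLeft (nat_lit 0x1800001803005005807) (nat_lit 65)) (.br (Nat.shiftLeft (nat_lit 0x3000003) (nat_lit 112)) (.one (nat_lit 0x300000200600a00b00e400c074c1601c611)) (.one (nat_lit 0x300000300600a00b00d600c074c1601a611))) (.br (Nat.shiftLeft (nat_lit 0xc00001) (nat_lit 114)) (.one (nat_lit 0x300000300600a00b00e600c074c1601c611)) (.br (Nat.shiftLeft (nat_lit 0x1800002003005005807) (nat_lit 65))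 (.one (nat_lit 0x300000400600a00b00d800c074c1601a611)) (.one (nat_lit 0x300000400600a00b00e800c074c1601c611)))))) (.br (Nat.shiftLeft (nat_lit 0x4000003) (nat_lit 112)) (.br (Nat.shiftLeft (nat_lit 0x2000001) (nat_lit 113)) (.br (Nat.shiftLeft (nat_lit 0x1) (nat_lit 138)) (.one (nat_lit 0x300000500600a00b00da00c074c1601a611)) (.one (nat_lit 0x400000100600a00b00d200c09501601a611))) (.br (Nat.shiftLeft (nat_lit 0x2000001003005005807) (nat_lit 65)) (.one (nat_lit 0x400000200600a00b00d400c09501601a611)) (.one (nat_lit 0x400000200600a00b00e400c09501601c611)))) (.br (Nat.shiftLeft (nat_lit 0x1000001) (nat_lit 114)) (.br (Nat.shiftLeft (nat_lit 0x2000001803005005807) (nat_lit 65)) (.one (nat_lit 0x400000300600a00b00d600c09501601a611)) (.one (nat_lit 0x400000300600a00b00e600c09501601c611))) (.br (Nat.shiftLeft (nat_lit 0x2000002003005005807) (nat_lit 65)) (.one (nat_lit 0x400000400600a00b00d800c09501601a611)) (.br (Nat.shiftLeft (nat_lit 0x4000005) (nat_lit 112)) (.one (nat_lit 0x400000400600a00b00e800c09501601c611))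 (.one (nat_lit 0x400000500600a00b00da00c09501601a611))))))))
def t212 : k212.all (jb2 57 fl b0) = true := by decide +kernel
noncomputable def k213 : KT := (.br (Nat.shiftLeft (nat_lit 0x2800001803005005807) (nat_lit 65)) (.br (Nat.shiftLeft (nat_lit 0x2800001003005005807) (nat_lit 65)) (.br (Nat.shiftLeft (nat_lit 0x2800001) (nat_lit 113)) (.one (nat_lit 0x500000100600a00b00d200c0b541601a611)) (.one (nat_lit 0x500000200600a00b00d400c0b541601a611))) (.br (Nat.shiftLeft (nat_lit 0x5000003) (nat_lit 112)) (.one (nat_lit 0x500000200600a00b00e400c0b541601c611)) (.one (nat_lit 0x500000300600a00b00d600c0b541601a611)))) (.br (Nat.shiftLeft (nat_lit 0x2800002003005005807) (nat_lit 65)) (.br (Nat.shiftLeft (nat_lit 0x1400001) (nat_lit 114)) (.one (nat_lit 0x500000300600a00b00e600c0b541601c611)) (.one (nat_lit 0x500000400600a00b00d800c0b541601a611))) (.br (Nat.shiftLeft (nat_lit 0x5000005) (nat_lit 112)) (.one (nat_lit 0x500000400600a00b00e800c0b541601c611)) (.one (nat_lit 0x500000500600a00b00da00c0b541601a611)))))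
def t213 : k213.all (jb2 57 fl b0) = true := by decide +kernel
noncomputable def k214 : KT := (.br (Nat.shiftLeft (nat_lit 0x6000003) (nat_lit 112)) (.br (Nat.shiftLeft (nat_lit 0x3000001) (nat_lit 113)) (.one (nat_lit 0x600000100600a00b00d200c0d581601a611)) (.br (Nat.shiftLeft (nat_lit 0x3000001003005005807) (nat_lit 65)) (.one (nat_lit 0x600000200600a00b00d400c0d581601a611)) (.one (nat_lit 0x600000200600a00b00e400c0d581601c611)))) (.br (Nat.shiftLeft (nat_lit 0x1800001) (nat_lit 114)) (.br (Nat.shiftLeft (nat_lit 0x3000001803005005807) (nat_lit 65)) (.one (nat_lit 0x600000300600a00b00d600c0d581601a611)) (.one (nat_lit 0x600000300600a00b00e600c0d581601c611))) (.br (Nat.shiftLeft (nat_lit 0x3000002003005005807) (nat_lit 65)) (.one (nat_lit 0x600000400600a00b00d800c0d581601a611)) (.one (nat_lit 0x600000400600a00b00e800c0d581601c611)))))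
def t214 : k214.all (jb2 57 fl b0) = true := by decide +kernel
noncomputable def k215 : KT := (.br (Nat.shiftLeft (nat_lit 0x7000003) (nat_lit 112)) (.br (Nat.shiftLeft (nat_lit 0x3800001) (nat_lit 113)) (.br (Nat.shiftLeft (nat_lit 0x7) (nat_lit 136)) (.one (nat_lit 0x600000500600a00b00da00c0d581601a611)) (.one (nat_lit 0x700000100600a00b00d200c0f5c1601a611))) (.br (Nat.shiftLeft (nat_lit 0x3800001003005005807) (nat_lit 65)) (.one (nat_lit 0x700000200600a00b00d400c0f5c1601a611)) (.one (nat_lit 0x700000200600a00b00e400c0f5c1601c611)))) (.br (Nat.shiftLeft (nat_lit 0x1c00001) (nat_lit 114)) (.br (Nat.shiftLeft (nat_lit 0x3800001803005005807) (nat_lit 65)) (.one (nat_lit 0x700000300600a00b00d600c0f5c1601a611)) (.one (nat_lit 0x700000300600a00b00e600c0f5c1601c611))) (.br (Nat.shiftLeft (nat_lit 0x3800002003005005807) (nat_lit 65)) (.one (nat_lit 0x700000400600a00b00d800c0f5c1601a611)) (.br (Nat.shiftLeft (nat_lit 0x7000005) (nat_lit 112)) (.one (nat_lit 0x700000400600a00b00e800c0f5c1601c611)) (.one (nat_lit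 0x700000500600a00b00da00c0f5c1601a611))))))
def t215 : k215.all (jb2 57 fl b0) = true := by decide +kernel
noncomputable def k216 : KT := (.br (Nat.shiftLeft (nat_lit 0x4800001803005005807) (nat_lit 65)) (.br (Nat.shiftLeft (nat_lit 0x4000002003005005807) (nat_lit 65)) (.br (Nat.shiftLeft (nat_lit 0x8000003) (nat_lit 112)) (.br (Nat.shiftLeft (nat_lit 0x4000001) (nat_lit 113)) (.one (nat_lit 0x800000100600a00b00d200c11601601a611)) (.br (Nat.shiftLeft (nat_lit 0x4000001003005005807) (nat_lit 65)) (.one (nat_lit 0x800000200600a00b00d400c11601601a611)) (.one (nat_lit 0x800000200600a00b00e400c11601601c611)))) (.br (Nat.shiftLeft (nat_lit 0x4000001803005005807) (nat_lit 65)) (.one (nat_lit 0x800000300600a00b00d600c11601601a611)) (.br (Nat.shiftLeft (nat_lit 0x2000001) (nat_lit 114)) (.one (nat_lit 0x800000300600a00b00e600c11601601c611)) (.one (nat_lit 0x800000400600a00b00d800c11601601a611))))) (.br (Nat.shiftLeft (nat_lit 0x4800001) (nat_lit 113)) (.br (Nat.shiftLeft (nat_lit 0x8000005) (nat_lit 112)) (.one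 (nat_lit 0x800000400600a00b00e800c11601601c611)) (.br (Nat.shiftLeft (nat_lit 0x9) (nat_lit 136)) (.one (nat_lit 0x800000500600a00b00da00c11601601a611)) (.one (nat_lit 0x900000100600a00b00d200c13641601a611)))) (.br (Nat.shiftLeft (nat_lit 0x4800001003005005807) (nat_lit 65)) (.one (nat_lit 0x900000200600a00b00d400c13641601a611)) (.br (Nat.shiftLeft (nat_lit 0x9000003) (nat_lit 112)) (.one (nat_lit 0x900000200600a00b00e400c13641601c611)) (.one (nat_lit 0x900000300600a00b00d600c13641601a611)))))) (.br (Nat.shiftLeft (nat_lit 0x5000001003005005807) (nat_lit 65)) (.br (Nat.shiftLeft (nat_lit 0x9000005) (nat_lit 112)) (.br (Nat.shiftLeft (nat_lit 0x2400001) (nat_lit 114)) (.one (nat_lit 0x900000300600a00b00e600c13641601c611)) (.br (Nat.shiftLeft (nat_lit 0x4800002003005005807) (nat_lit 65)) (.one (nat_lit 0x900000400600a00b00d800c13641601a611)) (.one (nat_lit 0x900000400600a00b00e800c13641601c611)))) (.br (Nat.shiftLeft (nat_lit 0x5) (nat_lit 137)) (.one (nat_lit 0x900000500600a00b00da00c13641601a611)) (.br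 (Nat.shiftLeft (nat_lit 0x5000001) (nat_lit 113)) (.one (nat_lit 0xa00000100600a00b00d200c15681601a611)) (.one (nat_lit 0xa00000200600a00b00d400c15681601a611))))) (.br (Nat.shiftLeft (nat_lit 0x2800001) (nat_lit 114)) (.br (Nat.shiftLeft (nat_lit 0xa000003) (nat_lit 112)) (.one (nat_lit 0xa00000200600a00b00e400c15681601c611)) (.br (Nat.shiftLeft (nat_lit 0x5000001803005005807) (nat_lit 65)) (.one (nat_lit 0xa00000300600a00b00d600c15681601a611)) (.one (nat_lit 0xa00000300600a00b00e600c15681601c611)))) (.br (Nat.shiftLeft (nat_lit 0x5000002003005005807) (nat_lit 65)) (.one (nat_lit 0xa00000400600a00b00d800c15681601a611)) (.br (Nat.shiftLeft (nat_lit 0xa000005) (nat_lit 112)) (.one (nat_lit 0xa00000400600a00b00e800c15681601c611)) (.one (nat_lit 0xa00000500600a00b00da00c15681601a611)))))))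
def t216 : k216.all (jb2 57 fl b0) = true := by decide +kernel
noncomputable def k217 : KT := (.br (Nat.shiftLeft (nat_lit 0x5800001803005005807) (nat_lit 65)) (.br (Nat.shiftLeft (nat_lit 0x5800001003005005807) (nat_lit 65)) (.br (Nat.shiftLeft (nat_lit 0x5800001) (nat_lit 113)) (.one (nat_lit 0xb00000100600a00b00d200c176c1601a611)) (.one (nat_lit 0xb00000200600a00b00d400c176c1601a611))) (.br (Nat.shiftLeft (nat_lit 0xb000003) (nat_lit 112)) (.one (nat_lit 0xb00000200600a00b00e400c176c1601c611)) (.one (nat_lit 0xb00000300600a00b00d600c176c1601a611)))) (.br (Nat.shiftLeft (nat_lit 0x5800002003005005807) (nat_lit 65)) (.br (Nat.shiftLeft (nat_lit 0x2c00001) (nat_lit 114)) (.one (nat_lit 0xb00000300600a00b00e600c176c1601c611)) (.one (nat_lit 0xb00000400600a00b00d800c176c1601a611))) (.br (Nat.shiftLeft (nat_lit 0xb000005) (nat_lit 112)) (.one (nat_lit 0xb00000400600a00b00e800c176c1601c611)) (.one (nat_lit 0xb00000500600a00b00da00c176c1601a611)))))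
def t217 : k217.all (jb2 57 fl b0) = true := by decide +kernel
noncomputable def s11 : KT := (.br (nat_lit 0x200300600a00b00d600c01405681a760) (.br (nat_lit 0x500600a00b00da00c01401601b600) (.br (nat_lit 0x200600a00b00e400c01401601d600) (.br (nat_lit 0x100600a00b00e200c01401601c650) k195 k196) (.br (nat_lit 0x300600a00b00e600c01401601d600) k197 (.br (nat_lit 0x400600a00b00e800c01401601d600) k198 k199))) (.br (nat_lit 0x100200600a00b00d400c01403641a760) (.br (nat_lit 0x500600a00b00ea00c01401601c650) k200 (.br (nat_lit 0x100000600a00b00f000c01403641e511) k201 k202)) (.br (nat_lit 0x100300600a00b00d600c01403641a760) k203 (.br (nat_lit 0x100400600a00b00e800c01403641c760) k204 k205)))) (.br (nat_lit 0xa00000600a00b00f000c01415881e511) (.br (nat_lit 0x300500600a00b00da00c014076c1a760) (.br (nat_lit 0x200400600a00b00d800c01405681a760) k206 (.br (nat_lit 0x300000600a00b00f000c014076c1e511) k207 k208)) (.br (nat_lit 0x500000600a00b00f000c0140b741e511) k209 (.br (nat_lit 0x700000600a00b00e000c0140f7c1c511) k210 k211)))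 (.br (nat_lit 0x600000400600a00b00e800c0d581601c611) (.br (nat_lit 0x400000500600a00b00da00c09501601a611) k212 (.br (nat_lit 0x500000500600a00b00da00c0b541601a611) k213 k214)) (.br (nat_lit 0x700000500600a00b00da00c0f5c1601a611) k215 (.br (nat_lit 0xa00000500600a00b00da00c15681601a611) k216 k217)))))
noncomputable def u11 : KT := (.br (Nat.shiftLeft (nat_lit 0x3005005807) (nat_lit 65)) (.one (nat_lit 0x600a00b00d000c01401601a540)) (.br (Nat.shiftLeft (nat_lit 0x600a00b00f) (nat_lit 64)) (.one (nat_lit 0x600a00b00e000c01401601c540)) (.one (nat_lit 0x600a00b00f000c01401601e540))))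
def w11 : u11.all (wj 57 s11) = true := by decide +kernel
def o11 : OkW 57 (jb2 57 fl) u11 := .lift s11 _ (.br _ _ _ (.br _ _ _ (.br _ _ _ (.br _ _ _ (.leaf b0 k195 t195) (.leaf b0 k196 t196)) (.br _ _ _ (.leaf b0 k197 t197) (.br _ _ _ (.leaf b0 k198 t198) (.leaf b0 k199 t199)))) (.br _ _ _ (.br _ _ _ (.leaf b0 k200 t200) (.br _ _ _ (.leaf b0 k201 t201) (.leaf b0 k202 t202))) (.br _ _ _ (.leaf b0 k203 t203) (.br _ _ _ (.leaf b0 k204 t204) (.leaf b0 k205 t205))))) (.br _ _ _ (.br _ _ _ (.br _ _ _ (.leaf b0 k206 t206) (.br _ _ _ (.leaf b0 k207 t207) (.leaf b0 k208 t208))) (.br _ _ _ (.leaf b0 k209 t209) (.br _ _ _ (.leaf b0 k210 t210) (.leaf b0 k211 t211)))) (.br _ _ _ (.br _ _ _ (.leaf b0 k212 t212) (.br _ _ _ (.leaf b0 k213 t213) (.leaf b0 k214 t214))) (.br _ _ _ (.leaf b0 k215 t215) (.br _ _ _ (.leaf b0 k216 t216) (.leaf b0 k217 t217)))))) w11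
noncomputable def k218 : KT := (.br (Nat.shiftLeft (nat_lit 0x600a00c00f) (nat_lit 64)) (.br (Nat.shiftLeft (nat_lit 0x1802803) (nat_lit 78)) (.one (nat_lit 0x600a00b010000c014016021500)) (.br (Nat.shiftLeft (nat_lit 0x3005006007) (nat_lit 65)) (.one (nat_lit 0x600a00c00d000c01401801b500)) (.one (nat_lit 0x600a00c00e000c01401801d500)))) (.br (Nat.shiftLeft (nat_lit 0x600a00d) (nat_lit 76)) (.one (nat_lit 0x600a00c00f000c01401801f500)) (.br (Nat.shiftLeft (nat_lit 0x1) (nat_lit 112)) (.one (nat_lit 0x600a00d00e000c01401a01d500)) (.one (nat_lit 0x100600a00b010200c014016020650)))))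
def t218 : k218.all (jb2 57 fl b0) = true := by decide +kernel
noncomputable def k219 : KT := (.one (nat_lit 0x100600a00c00d200c01401801a650))
def t219 : k219.all (jb2 57 fl b0) = true := by decide +kernel
noncomputable def k220 : KT := (.one (nat_lit 0x100600a00c00e200c01401801c650))
def t220 : k220.all (jb2 57 fl b0) = true := by decide +kernel
noncomputable def k221 : KT := (.br (Nat.shiftLeft (nat_lit 0x100600a00d) (nat_lit 76)) (.one (nat_lit 0x100600a00c00f200c01401801e650)) (.one (nat_lit 0x100600a00d00e200c01401a01c650)))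
def t221 : k221.all (jb2 57 fl b0) = true := by decide +kernel
noncomputable def k222 : KT := (.br (Nat.shiftLeft (nat_lit 0x801802803) (nat_lit 78)) (.one (nat_lit 0x200600a00b010400c014016020650)) (.one (nat_lit 0x200600a00c00d400c01401801b600)))
def t222 : k222.all (jb2 57 fl b0) = true := by decide +kernel
noncomputable def k223 : KT := (.one (nat_lit 0x200600a00c00e400c01401801c650))
def t223 : k223.all (jb2 57 fl b0) = true := by decide +kernel
noncomputable def k224 : KT := (.one (nat_lit 0x200600a00c00f400c01401801e650))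
def t224 : k224.all (jb2 57 fl b0) = true := by decide +kernel
noncomputable def k225 : KT := (.one (nat_lit 0x200600a00d00e400c01401a01c650))
def t225 : k225.all (jb2 57 fl b0) = true := by decide +kernel
noncomputable def k226 : KT := (.br (Nat.shiftLeft (nat_lit 0xc01802803) (nat_lit 78)) (.one (nat_lit 0x300600a00b010600c014016020650)) (.one (nat_lit 0x300600a00c00d600c01401801b600)))
def t226 : k226.all (jb2 57 fl b0) = true := by decide +kernel
noncomputable def k227 : KT := (.one (nat_lit 0x300600a00c00e600c01401801c650))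
def t227 : k227.all (jb2 57 fl b0) = true := by decide +kernel
noncomputable def k228 : KT := (.one (nat_lit 0x300600a00c00f600c01401801e650))
def t228 : k228.all (jb2 57 fl b0) = true := by decide +kernel
noncomputable def k229 : KT := (.one (nat_lit 0x300600a00d00e600c01401a01c650))
def t229 : k229.all (jb2 57 fl b0) = true := by decide +kernel
noncomputable def k230 : KT := (.br (Nat.shiftLeft (nat_lit 0x1001802803) (nat_lit 78)) (.one (nat_lit 0x400600a00b010800c014016020650)) (.one (nat_lit 0x400600a00c00d800c01401801b600)))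
def t230 : k230.all (jb2 57 fl b0) = true := by decide +kernel
noncomputable def k231 : KT := (.one (nat_lit 0x400600a00c00e800c01401801c650))
def t231 : k231.all (jb2 57 fl b0) = true := by decide +kernel
noncomputable def k232 : KT := (.one (nat_lit 0x400600a00c00f800c01401801e650))
def t232 : k232.all (jb2 57 fl b0) = true := by decide +kernel
noncomputable def k233 : KT := (.br (Nat.shiftLeft (nat_lit 0x5) (nat_lit 112)) (.one (nat_lit 0x400600a00d00e800c01401a01c650)) (.one (nat_lit 0x500600a00b010a00c014016020650)))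
def t233 : k233.all (jb2 57 fl b0) = true := by decide +kernel
noncomputable def k234 : KT := (.one (nat_lit 0x500600a00c00da00c01401801a650))
def t234 : k234.all (jb2 57 fl b0) = true := by decide +kernel
noncomputable def k235 : KT := (.one (nat_lit 0x500600a00c00ea00c01401801c650))
def t235 : k235.all (jb2 57 fl b0) = true := by decide +kernel
noncomputable def k236 : KT := (.br (Nat.shiftLeft (nat_lit 0x400001802803) (nat_lit 78)) (.br (Nat.shiftLeft (nat_lit 0x500600a00d) (nat_lit 76)) (.one (nat_lit 0x500600a00c00fa00c01401801e650)) (.br (Nat.shiftLeft (nat_lit 0x1) (nat_lit 124)) (.one (nat_lit 0x500600a00d00ea00c01401a01c650)) (.one (nat_lit 0x100000600a00b010000c014036420511)))) (.br (Nat.shiftLeft (nat_lit 0x100000600a00c00f) (nat_lit 64)) (.br (Nat.shiftLeft (nat_lit 0x800003005006007) (nat_lit 65)) (.one (nat_lit 0x100000600a00c00d000c01403841a511)) (.one (nat_lit 0x100000600a00c00e000c01403841c511))) (.br (Nat.shiftLeft (nat_lit 0x100000600a00d) (nat_lit 76)) (.one (nat_lit 0x100000600a00c00f000c01403841e511))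 (.one (nat_lit 0x100000600a00d00e000c01403a41c511)))))
def t236 : k236.all (jb2 57 fl b0) = true := by decide +kernel
noncomputable def k237 : KT := (.br (Nat.shiftLeft (nat_lit 0x1003) (nat_lit 112)) (.one (nat_lit 0x100200600a00c00d400c01403841a760)) (.one (nat_lit 0x100300600a00c00d600c01403841a760)))
def t237 : k237.all (jb2 57 fl b0) = true := by decide +kernel
noncomputable def k238 : KT := (.br (Nat.shiftLeft (nat_lit 0x200000600a00d) (nat_lit 76)) (.br (Nat.shiftLeft (nat_lit 0x800001802803) (nat_lit 78)) (.br (Nat.shiftLeft (nat_lit 0x1) (nat_lit 125)) (.one (nat_lit 0x100400600a00c00d800c01403841a760)) (.one (nat_lit 0x200000600a00b010000c014056820511))) (.br (Nat.shiftLeft (nat_lit 0x1000003005006007) (nat_lit 65)) (.one (nat_lit 0x200000600a00c00d000c01405881a511)) (.br (Nat.shiftLeft (nat_lit 0x200000600a00c00f) (nat_lit 64)) (.one (nat_lit 0x200000600a00c00e000c01405881c511)) (.one (nat_lit 0x200000600a00c00f000c01405881e511))))) (.br (Nat.shiftLeft (nat_lit 0x3) (nat_lit 124)) (.br (Nat.shiftLeft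 (nat_lit 0x1001) (nat_lit 113)) (.one (nat_lit 0x200000600a00d00e000c01405a81c511)) (.br (Nat.shiftLeft (nat_lit 0x801) (nat_lit 114)) (.one (nat_lit 0x200300600a00c00d600c01405881a760)) (.one (nat_lit 0x200400600a00c00d800c01405881a760)))) (.br (Nat.shiftLeft (nat_lit 0xc00001802803) (nat_lit 78)) (.one (nat_lit 0x300000600a00b010000c014076c20511)) (.br (Nat.shiftLeft (nat_lit 0x1800003005006007) (nat_lit 65)) (.one (nat_lit 0x300000600a00c00d000c014078c1a511)) (.one (nat_lit 0x300000600a00c00e000c014078c1c511))))))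
def t238 : k238.all (jb2 57 fl b0) = true := by decide +kernel
noncomputable def k239 : KT := (.br (Nat.shiftLeft (nat_lit 0x2000003005006007) (nat_lit 65)) (.br (Nat.shiftLeft (nat_lit 0xc01) (nat_lit 114)) (.br (Nat.shiftLeft (nat_lit 0x300000600a00d) (nat_lit 76)) (.one (nat_lit 0x300000600a00c00f000c014078c1e511)) (.one (nat_lit 0x300000600a00d00e000c01407ac1c511))) (.br (Nat.shiftLeft (nat_lit 0x1) (nat_lit 126)) (.one (nat_lit 0x300400600a00c00d800c014078c1a760)) (.br (Nat.shiftLeft (nat_lit 0x1000001802803) (nat_lit 78)) (.one (nat_lit 0x400000600a00b010000c014097020511)) (.one (nat_lit 0x400000600a00c00d000c01409901a511))))) (.br (Nat.shiftLeft (nat_lit 0x5) (nat_lit 124)) (.br (Nat.shiftLeft (nat_lit 0x400000600a00c00f) (nat_lit 64)) (.one (nat_lit 0x400000600a00c00e000c01409901c511)) (.br (Nat.shiftLeft (nat_lit 0x400000600a00d) (nat_lit 76)) (.one (nat_lit 0x400000600a00c00f000c01409901e511)) (.one (nat_lit 0x400000600a00d00e000c01409b01c511)))) (.br (Nat.shiftLeft (nat_lit 0x1400001802803) (nat_lit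 78)) (.one (nat_lit 0x500000600a00b010000c0140b7420511)) (.br (Nat.shiftLeft (nat_lit 0x2800003005006007) (nat_lit 65)) (.one (nat_lit 0x500000600a00c00d000c0140b941a511)) (.one (nat_lit 0x500000600a00c00e000c0140b941c511))))))
def t239 : k239.all (jb2 57 fl b0) = true := by decide +kernel
noncomputable def k240 : KT := (.br (Nat.shiftLeft (nat_lit 0x3000003005006007) (nat_lit 65)) (.br (Nat.shiftLeft (nat_lit 0x3) (nat_lit 125)) (.br (Nat.shiftLeft (nat_lit 0x500000600a00d) (nat_lit 76)) (.one (nat_lit 0x500000600a00c00f000c0140b941e511)) (.one (nat_lit 0x500000600a00d00e000c0140bb41c511))) (.br (Nat.shiftLeft (nat_lit 0x1800001802803) (nat_lit 78)) (.one (nat_lit 0x600000600a00b010000c0140d7820511)) (.one (nat_lit 0x600000600a00c00d000c0140d981a511)))) (.br (Nat.shiftLeft (nat_lit 0x600000600a00d) (nat_lit 76)) (.br (Nat.shiftLeft (nat_lit 0x600000600a00c00f) (nat_lit 64)) (.one (nat_lit 0x600000600a00c00e000c0140d981c511)) (.one (nat_lit 0x600000600a00c00f000c0140d981e511))) (.br (Nat.shiftLeft (nat_lit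 0x7) (nat_lit 124)) (.one (nat_lit 0x600000600a00d00e000c0140db81c511)) (.one (nat_lit 0x700000600a00b010000c0140f7c20511)))))
def t240 : k240.all (jb2 57 fl b0) = true := by decide +kernel
noncomputable def k241 : KT := (.br (Nat.shiftLeft (nat_lit 0x2000001802803) (nat_lit 78)) (.br (Nat.shiftLeft (nat_lit 0x700000600a00c00f) (nat_lit 64)) (.br (Nat.shiftLeft (nat_lit 0x3800003005006007) (nat_lit 65)) (.one (nat_lit 0x700000600a00c00d000c0140f9c1a511)) (.one (nat_lit 0x700000600a00c00e000c0140f9c1c511))) (.br (Nat.shiftLeft (nat_lit 0x700000600a00d) (nat_lit 76)) (.one (nat_lit 0x700000600a00c00f000c0140f9c1e511)) (.br (Nat.shiftLeft (nat_lit 0x1) (nat_lit 127)) (.one (nat_lit 0x700000600a00d00e000c0140fbc1c511)) (.one (nat_lit 0x800000600a00b010000c014118020511))))) (.br (Nat.shiftLeft (nat_lit 0x800000600a00d) (nat_lit 76)) (.br (Nat.shiftLeft (nat_lit 0x4000003005006007) (nat_lit 65)) (.one (nat_lit 0x800000600a00c00d000c01411a01a511)) (.br (Nat.shiftLeft (nat_lit 0x800000600a00c00f) (nat_lit 64))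 (.one (nat_lit 0x800000600a00c00e000c01411a01c511)) (.one (nat_lit 0x800000600a00c00f000c01411a01e511)))) (.br (Nat.shiftLeft (nat_lit 0x9) (nat_lit 124)) (.one (nat_lit 0x800000600a00d00e000c01411c01c511)) (.br (Nat.shiftLeft (nat_lit 0x2400001802803) (nat_lit 78)) (.one (nat_lit 0x900000600a00b010000c014138420511)) (.one (nat_lit 0x900000600a00c00d000c01413a41a511))))))
def t241 : k241.all (jb2 57 fl b0) = true := by decide +kernel
noncomputable def k242 : KT := (.br (Nat.shiftLeft (nat_lit 0xc00000600a00d) (nat_lit 76)) (.br (Nat.shiftLeft (nat_lit 0xb) (nat_lit 124)) (.br (Nat.shiftLeft (nat_lit 0x2800001802803) (nat_lit 78)) (.br (Nat.shiftLeft (nat_lit 0x900000600a00d) (nat_lit 76)) (.br (Nat.shiftLeft (nat_lit 0x900000600a00c00f) (nat_lit 64)) (.one (nat_lit 0x900000600a00c00e000c01413a41c511)) (.one (nat_lit 0x900000600a00c00f000c01413a41e511))) (.br (Nat.shiftLeft (nat_lit 0x5) (nat_lit 125)) (.one (nat_lit 0x900000600a00d00e000c01413c41c511)) (.one (nat_lit 0xa00000600a00b010000c014158820511))))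 (.br (Nat.shiftLeft (nat_lit 0xa00000600a00c00f) (nat_lit 64)) (.br (Nat.shiftLeft (nat_lit 0x5000003005006007) (nat_lit 65)) (.one (nat_lit 0xa00000600a00c00d000c01415a81a511)) (.one (nat_lit 0xa00000600a00c00e000c01415a81c511))) (.br (Nat.shiftLeft (nat_lit 0xa00000600a00d) (nat_lit 76)) (.one (nat_lit 0xa00000600a00c00f000c01415a81e511)) (.one (nat_lit 0xa00000600a00d00e000c01415c81c511))))) (.br (Nat.shiftLeft (nat_lit 0xb00000600a00d) (nat_lit 76)) (.br (Nat.shiftLeft (nat_lit 0x5800003005006007) (nat_lit 65)) (.br (Nat.shiftLeft (nat_lit 0x2c00001802803) (nat_lit 78)) (.one (nat_lit 0xb00000600a00b010000c014178c20511)) (.one (nat_lit 0xb00000600a00c00d000c01417ac1a511))) (.br (Nat.shiftLeft (nat_lit 0xb00000600a00c00f) (nat_lit 64)) (.one (nat_lit 0xb00000600a00c00e000c01417ac1c511)) (.one (nat_lit 0xb00000600a00c00f000c01417ac1e511)))) (.br (Nat.shiftLeft (nat_lit 0x6000003005006007) (nat_lit 65)) (.br (Nat.shiftLeft (nat_lit 0x3) (nat_lit 126)) (.one (nat_lit 0xb00000600a00d00e000c01417cc1c511))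 (.one (nat_lit 0xc00000600a00c00d000c01419b01a511))) (.br (Nat.shiftLeft (nat_lit 0xc00000600a00c00f) (nat_lit 64)) (.one (nat_lit 0xc00000600a00c00e000c01419b01c511)) (.one (nat_lit 0xc00000600a00c00f000c01419b01e511)))))) (.br (Nat.shiftLeft (nat_lit 0x3) (nat_lit 136)) (.br (Nat.shiftLeft (nat_lit 0x400001) (nat_lit 114)) (.br (Nat.shiftLeft (nat_lit 0x1) (nat_lit 136)) (.br (Nat.shiftLeft (nat_lit 0xd) (nat_lit 124)) (.one (nat_lit 0xc00000600a00d00e000c01419d01c511)) (.one (nat_lit 0xd00000600a00d00e000c0141bd41c511))) (.br (Nat.shiftLeft (nat_lit 0x1000003) (nat_lit 112)) (.one (nat_lit 0x100000200600a00c00d400c03441801a611)) (.one (nat_lit 0x100000300600a00c00d600c03441801a611)))) (.br (Nat.shiftLeft (nat_lit 0x2000003) (nat_lit 112)) (.br (Nat.shiftLeft (nat_lit 0x1) (nat_lit 137)) (.one (nat_lit 0x100000400600a00c00d800c03441801a611)) (.one (nat_lit 0x200000200600a00c00d400c05481801a611))) (.br (Nat.shiftLeft (nat_lit 0x800001) (nat_lit 114)) (.one (nat_lit 0x200000300600a00c00d600c05481801a611))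 (.one (nat_lit 0x200000400600a00c00d800c05481801a611))))) (.br (Nat.shiftLeft (nat_lit 0x4000003) (nat_lit 112)) (.br (Nat.shiftLeft (nat_lit 0xc00001) (nat_lit 114)) (.br (Nat.shiftLeft (nat_lit 0x3000003) (nat_lit 112)) (.one (nat_lit 0x300000200600a00c00d400c074c1801a611)) (.one (nat_lit 0x300000300600a00c00d600c074c1801a611))) (.br (Nat.shiftLeft (nat_lit 0x1) (nat_lit 138)) (.one (nat_lit 0x300000400600a00c00d800c074c1801a611)) (.one (nat_lit 0x400000200600a00c00d400c09501801a611)))) (.br (Nat.shiftLeft (nat_lit 0x5) (nat_lit 136)) (.br (Nat.shiftLeft (nat_lit 0x1000001) (nat_lit 114)) (.one (nat_lit 0x400000300600a00c00d600c09501801a611)) (.one (nat_lit 0x400000400600a00c00d800c09501801a611))) (.br (Nat.shiftLeft (nat_lit 0x5000003) (nat_lit 112)) (.one (nat_lit 0x500000200600a00c00d400c0b541801a611)) (.one (nat_lit 0x500000300600a00c00d600c0b541801a611)))))))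
def t242 : k242.all (jb2 57 fl b0) = true := by decide +kernel
noncomputable def k243 : KT := (.br (Nat.shiftLeft (nat_lit 0x9000003) (nat_lit 112)) (.br (Nat.shiftLeft (nat_lit 0x7000003) (nat_lit 112)) (.br (Nat.shiftLeft (nat_lit 0x6000003) (nat_lit 112)) (.br (Nat.shiftLeft (nat_lit 0x3) (nat_lit 137)) (.one (nat_lit 0x500000400600a00c00d800c0b541801a611)) (.one (nat_lit 0x600000200600a00c00d400c0d581801a611))) (.br (Nat.shiftLeft (nat_lit 0x1800001) (nat_lit 114)) (.one (nat_lit 0x600000300600a00c00d600c0d581801a611)) (.br (Nat.shiftLeft (nat_lit 0x7) (nat_lit 136)) (.one (nat_lit 0x600000400600a00c00d800c0d581801a611)) (.one (nat_lit 0x700000200600a00c00d400c0f5c1801a611))))) (.br (Nat.shiftLeft (nat_lit 0x8000003) (nat_lit 112)) (.br (Nat.shiftLeft (nat_lit 0x1c00001) (nat_lit 114)) (.one (nat_lit 0x700000300600a00c00d600c0f5c1801a611)) (.br (Nat.shiftLeft (nat_lit 0x1) (nat_lit 139)) (.one (nat_lit 0x700000400600a00c00d800c0f5c1801a611)) (.one (nat_lit 0x800000200600a00c00d400c11601801a611)))) (.br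 (Nat.shiftLeft (nat_lit 0x2000001) (nat_lit 114)) (.one (nat_lit 0x800000300600a00c00d600c11601801a611)) (.br (Nat.shiftLeft (nat_lit 0x9) (nat_lit 136)) (.one (nat_lit 0x800000400600a00c00d800c11601801a611)) (.one (nat_lit 0x900000200600a00c00d400c13641801a611)))))) (.br (Nat.shiftLeft (nat_lit 0xb) (nat_lit 136)) (.br (Nat.shiftLeft (nat_lit 0x5) (nat_lit 137)) (.br (Nat.shiftLeft (nat_lit 0x2400001) (nat_lit 114)) (.one (nat_lit 0x900000300600a00c00d600c13641801a611)) (.one (nat_lit 0x900000400600a00c00d800c13641801a611))) (.br (Nat.shiftLeft (nat_lit 0xa000003) (nat_lit 112)) (.one (nat_lit 0xa00000200600a00c00d400c15681801a611)) (.br (Nat.shiftLeft (nat_lit 0x2800001) (nat_lit 114)) (.one (nat_lit 0xa00000300600a00c00d600c15681801a611)) (.one (nat_lit 0xa00000400600a00c00d800c15681801a611))))) (.br (Nat.shiftLeft (nat_lit 0x3) (nat_lit 138)) (.br (Nat.shiftLeft (nat_lit 0xb000003) (nat_lit 112)) (.one (nat_lit 0xb00000200600a00c00d400c176c1801a611)) (.br (Nat.shiftLeft (nat_lit 0x2c00001) (nat_lit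 114)) (.one (nat_lit 0xb00000300600a00c00d600c176c1801a611)) (.one (nat_lit 0xb00000400600a00c00d800c176c1801a611)))) (.br (Nat.shiftLeft (nat_lit 0xc000003) (nat_lit 112)) (.one (nat_lit 0xc00000200600a00c00d400c19701801a611)) (.br (Nat.shiftLeft (nat_lit 0x3000001) (nat_lit 114)) (.one (nat_lit 0xc00000300600a00c00d600c19701801a611)) (.one (nat_lit 0xc00000400600a00c00d800c19701801a611)))))))
def t243 : k243.all (jb2 57 fl b0) = true := by decide +kernel
noncomputable def s12 : KT := (.br (nat_lit 0x400600a00c00d800c01401801b600) (.br (nat_lit 0x200600a00c00e400c01401801c650) (.br (nat_lit 0x100600a00c00e200c01401801c650) (.br (nat_lit 0x100600a00b010200c014016020650) k218 (.br (nat_lit 0x100600a00c00d200c01401801a650) k219 k220)) (.br (nat_lit 0x100600a00d00e200c01401a01c650) k221 (.br (nat_lit 0x200600a00c00d400c01401801b600) k222 k223))) (.br (nat_lit 0x300600a00c00d600c01401801b600) (.br (nat_lit 0x200600a00c00f400c01401801e650) k224 (.br (nat_lit 0x200600a00d00e400c01401a01c650) k225 k226)) (.br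 (nat_lit 0x300600a00c00f600c01401801e650) (.br (nat_lit 0x300600a00c00e600c01401801c650) k227 k228) (.br (nat_lit 0x300600a00d00e600c01401a01c650) k229 k230)))) (.br (nat_lit 0x100000600a00d00e000c01403a41c511) (.br (nat_lit 0x500600a00b010a00c014016020650) (.br (nat_lit 0x400600a00c00e800c01401801c650) k231 (.br (nat_lit 0x400600a00c00f800c01401801e650) k232 k233)) (.br (nat_lit 0x500600a00c00da00c01401801a650) k234 (.br (nat_lit 0x500600a00c00ea00c01401801c650) k235 k236))) (.br (nat_lit 0x500000600a00c00e000c0140b941c511) (.br (nat_lit 0x100300600a00c00d600c01403841a760) k237 (.br (nat_lit 0x300000600a00c00e000c014078c1c511) k238 k239)) (.br (nat_lit 0x900000600a00c00d000c01413a41a511) (.br (nat_lit 0x700000600a00b010000c0140f7c20511) k240 k241) (.br (nat_lit 0x500000300600a00c00d600c0b541801a611) k242 k243)))))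
noncomputable def u12 : KT := (.br (Nat.shiftLeft (nat_lit 0x3005006007) (nat_lit 65)) (.br (Nat.shiftLeft (nat_lit 0x1802803) (nat_lit 78)) (.one (nat_lit 0x600a00b010000c014016020540)) (.one (nat_lit 0x600a00c00d000c01401801a540))) (.br (Nat.shiftLeft (nat_lit 0x600a00c00f) (nat_lit 64)) (.one (nat_lit 0x600a00c00e000c01401801c540)) (.br (Nat.shiftLeft (nat_lit 0x600a00d) (nat_lit 76)) (.one (nat_lit 0x600a00c00f000c01401801e540)) (.one (nat_lit 0x600a00d00e000c01401a01c540)))))
def w12 : u12.all (wj 57 s12) = true := by decide +kernel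
def o12 : OkW 57 (jb2 57 fl) u12 := .lift s12 _ (.br _ _ _ (.br _ _ _ (.br _ _ _ (.br _ _ _ (.leaf b0 k218 t218) (.br _ _ _ (.leaf b0 k219 t219) (.leaf b0 k220 t220))) (.br _ _ _ (.leaf b0 k221 t221) (.br _ _ _ (.leaf b0 k222 t222) (.leaf b0 k223 t223)))) (.br _ _ _ (.br _ _ _ (.leaf b0 k224 t224) (.br _ _ _ (.leaf b0 k225 t225) (.leaf b0 k226 t226))) (.br _ _ _ (.br _ _ _ (.leaf b0 k227 t227) (.leaf b0 k228 t228)) (.br _ _ _ (.leaf b0 k229 t229) (.leaf b0 k230 t230))))) (.br _ _ _ (.br _ _ _ (.br _ _ _ (.leaf b0 k231 t231) (.br _ _ _ (.leaf b0 k232 t232) (.leaf b0 k233 t233))) (.br _ _ _ (.leaf b0 k234 t234) (.br _ _ _ (.leaf b0 k235 t235) (.leaf b0 k236 t236)))) (.br _ _ _ (.br _ _ _ (.leaf b0 k237 t237) (.br _ _ _ (.leaf b0 k238 t238) (.leaf b0 k239 t239))) (.br _ _ _ (.br _ _ _ (.leaf b0 k240 t240) (.leaf b0 k241 t241)) (.br _ _ _ (.leaf b0 k242 t242) (.leaf b0 k243 t243)))))) w12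
noncomputable def k244 : KT := (.br (Nat.shiftLeft (nat_lit 0xe00001) (nat_lit 79)) (.br (Nat.shiftLeft (nat_lit 0x700000701) (nat_lit 68)) (.br (Nat.shiftLeft (nat_lit 0x700000700b) (nat_lit 64)) (.br (Nat.shiftLeft (nat_lit 0x7) (nat_lit 100)) (.br (Nat.shiftLeft (nat_lit 0x3005806007) (nat_lit 65)) (.one (nat_lit 0x600b00c00d000c01601801b500)) (.one (nat_lit 0x600b00c00e000c01601801d500))) (.br (Nat.shiftLeft (nat_lit 0x7000007009) (nat_lit 64)) (.one (nat_lit 0x7000007008000e00000e010311)) (.br (Nat.shiftLeft (nat_lit 0x3800003805) (nat_lit 65)) (.one (nat_lit 0x7000007009000e00000e012311)) (.one (nat_lit 0x700000700a000e00000e014311))))) (.br (Nat.shiftLeft (nat_lit 0x700000700d) (nat_lit 64)) (.br (Nat.shiftLeft (nat_lit 0x1c00001c03) (nat_lit 66)) (.one (nat_lit 0x700000700b000e00000e016311)) (.one (nat_lit 0x700000700c000e00000e018311))) (.br (Nat.shiftLeft (nat_lit 0x3800003807) (nat_lit 65)) (.one (nat_lit 0x700000700d000e00000e01a311)) (.br (Nat.shiftLeft (nat_lit 0x700000700f) (nat_lit 64))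 (.one (nat_lit 0x700000700e000e00000e01c311)) (.one (nat_lit 0x700000700f000e00000e01e311)))))) (.br (Nat.shiftLeft (nat_lit 0x7000007015) (nat_lit 64)) (.br (Nat.shiftLeft (nat_lit 0x3800003809) (nat_lit 65)) (.br (Nat.shiftLeft (nat_lit 0x7000007011) (nat_lit 64)) (.one (nat_lit 0x7000007010000e00000e020311)) (.one (nat_lit 0x7000007011000e00000e022311))) (.br (Nat.shiftLeft (nat_lit 0x7000007013) (nat_lit 64)) (.one (nat_lit 0x7000007012000e00000e024311)) (.br (Nat.shiftLeft (nat_lit 0x1c00001c05) (nat_lit 66)) (.one (nat_lit 0x7000007013000e00000e026311)) (.one (nat_lit 0x7000007014000e00000e028311))))) (.br (Nat.shiftLeft (nat_lit 0x7000007017) (nat_lit 64)) (.br (Nat.shiftLeft (nat_lit 0x380000380b) (nat_lit 65)) (.one (nat_lit 0x7000007015000e00000e02a311)) (.one (nat_lit 0x7000007016000e00000e02c311))) (.br (Nat.shiftLeft (nat_lit 0xe00000e03) (nat_lit 67)) (.one (nat_lit 0x7000007017000e00000e02e311)) (.br (Nat.shiftLeft (nat_lit 0x7000007019) (nat_lit 64)) (.one (nat_lit 0x7000007018000e00000e030311))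 (.one (nat_lit 0x7000007019000e00000e032311))))))) (.br (Nat.shiftLeft (nat_lit 0x7000008013) (nat_lit 64)) (.br (Nat.shiftLeft (nat_lit 0x3800004007) (nat_lit 65)) (.br (Nat.shiftLeft (nat_lit 0x700000800b) (nat_lit 64)) (.br (Nat.shiftLeft (nat_lit 0x3800004005) (nat_lit 65)) (.one (nat_lit 0x7000008009000e000010012311)) (.one (nat_lit 0x700000800a000e000010014311))) (.br (Nat.shiftLeft (nat_lit 0x1c00002003) (nat_lit 66)) (.one (nat_lit 0x700000800b000e000010016311)) (.br (Nat.shiftLeft (nat_lit 0x700000800d) (nat_lit 64)) (.one (nat_lit 0x700000800c000e000010018311)) (.one (nat_lit 0x700000800d000e00001001a311))))) (.br (Nat.shiftLeft (nat_lit 0x700000801) (nat_lit 68)) (.br (Nat.shiftLeft (nat_lit 0x700000800f) (nat_lit 64)) (.one (nat_lit 0x700000800e000e00001001c311)) (.one (nat_lit 0x700000800f000e00001001e311))) (.br (Nat.shiftLeft (nat_lit 0x7000008011) (nat_lit 64)) (.one (nat_lit 0x7000008010000e000010020311)) (.br (Nat.shiftLeft (nat_lit 0x3800004009) (nat_lit 65)) (.one (nat_lit 0x7000008011000e000010022311))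 (.one (nat_lit 0x7000008012000e000010024311)))))) (.br (Nat.shiftLeft (nat_lit 0xe00001003) (nat_lit 67)) (.br (Nat.shiftLeft (nat_lit 0x7000008015) (nat_lit 64)) (.br (Nat.shiftLeft (nat_lit 0x1c00002005) (nat_lit 66)) (.one (nat_lit 0x7000008013000e000010026311)) (.one (nat_lit 0x7000008014000e000010028311))) (.br (Nat.shiftLeft (nat_lit 0x380000400b) (nat_lit 65)) (.one (nat_lit 0x7000008015000e00001002a311)) (.br (Nat.shiftLeft (nat_lit 0x7000008017) (nat_lit 64)) (.one (nat_lit 0x7000008016000e00001002c311)) (.one (nat_lit 0x7000008017000e00001002e311))))) (.br (Nat.shiftLeft (nat_lit 0x380000400d) (nat_lit 65)) (.br (Nat.shiftLeft (nat_lit 0x7000008019) (nat_lit 64)) (.one (nat_lit 0x7000008018000e000010030311)) (.one (nat_lit 0x7000008019000e000010032311))) (.br (Nat.shiftLeft (nat_lit 0x7000009) (nat_lit 76)) (.one (nat_lit 0x700000801a000e000010034311)) (.br (Nat.shiftLeft (nat_lit 0x700000900b) (nat_lit 64)) (.one (nat_lit 0x700000900a000e000012014311)) (.one (nat_lit 0x700000900b000e000012016311))))))))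
def t244 : k244.all (jb2 57 fl b0) = true := by decide +kernel
noncomputable def k245 : KT := (.br (Nat.shiftLeft (nat_lit 0xe00001203) (nat_lit 67)) (.br (Nat.shiftLeft (nat_lit 0x3800004809) (nat_lit 65)) (.br (Nat.shiftLeft (nat_lit 0x700000900f) (nat_lit 64)) (.br (Nat.shiftLeft (nat_lit 0x700000900d) (nat_lit 64)) (.one (nat_lit 0x700000900c000e000012018311)) (.br (Nat.shiftLeft (nat_lit 0x3800004807) (nat_lit 65)) (.one (nat_lit 0x700000900d000e00001201a311)) (.one (nat_lit 0x700000900e000e00001201c311)))) (.br (Nat.shiftLeft (nat_lit 0x700000901) (nat_lit 68)) (.one (nat_lit 0x700000900f000e00001201e311)) (.br (Nat.shiftLeft (nat_lit 0x7000009011) (nat_lit 64)) (.one (nat_lit 0x7000009010000e000012020311)) (.one (nat_lit 0x7000009011000e000012022311))))) (.br (Nat.shiftLeft (nat_lit 0x7000009015) (nat_lit 64)) (.br (Nat.shiftLeft (nat_lit 0x7000009013) (nat_lit 64)) (.one (nat_lit 0x7000009012000e000012024311)) (.br (Nat.shiftLeft (nat_lit 0x1c00002405) (nat_lit 66)) (.one (nat_lit 0x7000009013000e000012026311))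 (.one (nat_lit 0x7000009014000e000012028311)))) (.br (Nat.shiftLeft (nat_lit 0x380000480b) (nat_lit 65)) (.one (nat_lit 0x7000009015000e00001202a311)) (.br (Nat.shiftLeft (nat_lit 0x7000009017) (nat_lit 64)) (.one (nat_lit 0x7000009016000e00001202c311)) (.one (nat_lit 0x7000009017000e00001202e311)))))) (.br (Nat.shiftLeft (nat_lit 0x3800005007) (nat_lit 65)) (.br (Nat.shiftLeft (nat_lit 0x3800005) (nat_lit 77)) (.br (Nat.shiftLeft (nat_lit 0x7000009019) (nat_lit 64)) (.one (nat_lit 0x7000009018000e000012030311)) (.br (Nat.shiftLeft (nat_lit 0x380000480d) (nat_lit 65)) (.one (nat_lit 0x7000009019000e000012032311)) (.one (nat_lit 0x700000901a000e000012034311)))) (.br (Nat.shiftLeft (nat_lit 0x1c00002803) (nat_lit 66)) (.one (nat_lit 0x700000a00b000e000014016311)) (.br (Nat.shiftLeft (nat_lit 0x700000a00d) (nat_lit 64)) (.one (nat_lit 0x700000a00c000e000014018311)) (.one (nat_lit 0x700000a00d000e00001401a311))))) (.br (Nat.shiftLeft (nat_lit 0x700000a011) (nat_lit 64)) (.br (Nat.shiftLeft (nat_lit 0x700000a00f)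 (nat_lit 64)) (.one (nat_lit 0x700000a00e000e00001401c311)) (.br (Nat.shiftLeft (nat_lit 0x700000a01) (nat_lit 68)) (.one (nat_lit 0x700000a00f000e00001401e311)) (.one (nat_lit 0x700000a010000e000014020311)))) (.br (Nat.shiftLeft (nat_lit 0x700000a013) (nat_lit 64)) (.br (Nat.shiftLeft (nat_lit 0x3800005009) (nat_lit 65)) (.one (nat_lit 0x700000a011000e000014022311)) (.one (nat_lit 0x700000a012000e000014024311))) (.br (Nat.shiftLeft (nat_lit 0x1) (nat_lit 112)) (.one (nat_lit 0x700000a013000e000014026311)) (.one (nat_lit 0x100600b00c00d200c01601801a650)))))))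
def t245 : k245.all (jb2 57 fl b0) = true := by decide +kernel
noncomputable def k246 : KT := (.one (nat_lit 0x100600b00c00e200c01601801c650))
def t246 : k246.all (jb2 57 fl b0) = true := by decide +kernel
noncomputable def k247 : KT := (.one (nat_lit 0x200600b00c00d400c01601801a650))
def t247 : k247.all (jb2 57 fl b0) = true := by decide +kernel
noncomputable def k248 : KT := (.one (nat_lit 0x200600b00c00e400c01601801c650))
def t248 : k248.all (jb2 57 fl b0) = true := by decide +kernel
noncomputable def k249 : KT := (.one (nat_lit 0x300600b00c00d600c01601801a650))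
def t249 : k249.all (jb2 57 fl b0) = true := by decide +kernel
noncomputable def k250 : KT := (.one (nat_lit 0x300600b00c00e600c01601801c650))
def t250 : k250.all (jb2 57 fl b0) = true := by decide +kernel
noncomputable def k251 : KT := (.one (nat_lit 0x400600b00c00d800c01601801a650))
def t251 : k251.all (jb2 57 fl b0) = true := by decide +kernel
noncomputable def k252 : KT := (.one (nat_lit 0x400600b00c00e800c01601801c650))
def t252 : k252.all (jb2 57 fl b0) = true := by decide +kernel
noncomputable def k253 : KT := (.one (nat_lit 0x500600b00c00da00c01601801a650))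
def t253 : k253.all (jb2 57 fl b0) = true := by decide +kernel
noncomputable def k254 : KT := (.br (Nat.shiftLeft (nat_lit 0x1800003005806007) (nat_lit 65)) (.br (Nat.shiftLeft (nat_lit 0x1) (nat_lit 125)) (.br (Nat.shiftLeft (nat_lit 0x1) (nat_lit 124)) (.one (nat_lit 0x500600b00c00ea00c01601801c650)) (.br (Nat.shiftLeft (nat_lit 0x800003005806007) (nat_lit 65)) (.one (nat_lit 0x100000600b00c00d000c01603841a511)) (.one (nat_lit 0x100000600b00c00e000c01603841c511)))) (.br (Nat.shiftLeft (nat_lit 0x1000003005806007) (nat_lit 65)) (.one (nat_lit 0x200000600b00c00d000c01605881a511)) (.br (Nat.shiftLeft (nat_lit 0x3) (nat_lit 124)) (.one (nat_lit 0x200000600b00c00e000c01605881c511)) (.one (nat_lit 0x300000600b00c00d000c016078c1a511))))) (.br (Nat.shiftLeft (nat_lit 0x5) (nat_lit 124)) (.br (Nat.shiftLeft (nat_lit 0x1) (nat_lit 126)) (.one (nat_lit 0x300000600b00c00e000c016078c1c511)) (.br (Nat.shiftLeft (nat_lit 0x2000003005806007) (nat_lit 65)) (.one (nat_lit 0x400000600b00c00d000c01609901a511)) (.one (nat_lit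 0x400000600b00c00e000c01609901c511)))) (.br (Nat.shiftLeft (nat_lit 0x2800003005806007) (nat_lit 65)) (.one (nat_lit 0x500000600b00c00d000c0160b941a511)) (.br (Nat.shiftLeft (nat_lit 0x3) (nat_lit 125)) (.one (nat_lit 0x500000600b00c00e000c0160b941c511)) (.one (nat_lit 0x600000600b00c00d000c0160d981a511))))))
def t254 : k254.all (jb2 57 fl b0) = true := by decide +kernel
noncomputable def k255 : KT := (.br (Nat.shiftLeft (nat_lit 0x4800003005806007) (nat_lit 65)) (.br (Nat.shiftLeft (nat_lit 0x1) (nat_lit 127)) (.br (Nat.shiftLeft (nat_lit 0x7) (nat_lit 124)) (.one (nat_lit 0x600000600b00c00e000c0160d981c511)) (.br (Nat.shiftLeft (nat_lit 0x3800003005806007) (nat_lit 65)) (.one (nat_lit 0x700000600b00c00d000c0160f9c1a511)) (.one (nat_lit 0x700000600b00c00e000c0160f9c1c511)))) (.br (Nat.shiftLeft (nat_lit 0x4000003005806007) (nat_lit 65)) (.one (nat_lit 0x800000600b00c00d000c01611a01a511)) (.br (Nat.shiftLeft (nat_lit 0x9) (nat_lit 124)) (.one (nat_lit 0x800000600b00c00e000c01611a01c511)) (.one (nat_lit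 0x900000600b00c00d000c01613a41a511))))) (.br (Nat.shiftLeft (nat_lit 0xb) (nat_lit 124)) (.br (Nat.shiftLeft (nat_lit 0x5) (nat_lit 125)) (.one (nat_lit 0x900000600b00c00e000c01613a41c511)) (.br (Nat.shiftLeft (nat_lit 0x5000003005806007) (nat_lit 65)) (.one (nat_lit 0xa00000600b00c00d000c01615a81a511)) (.one (nat_lit 0xa00000600b00c00e000c01615a81c511)))) (.br (Nat.shiftLeft (nat_lit 0x3) (nat_lit 126)) (.br (Nat.shiftLeft (nat_lit 0x5800003005806007) (nat_lit 65)) (.one (nat_lit 0xb00000600b00c00d000c01617ac1a511)) (.one (nat_lit 0xb00000600b00c00e000c01617ac1c511))) (.br (Nat.shiftLeft (nat_lit 0x6000003005806007) (nat_lit 65)) (.one (nat_lit 0xc00000600b00c00d000c01619b01a511)) (.one (nat_lit 0xc00000600b00c00e000c01619b01c511))))))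
def t255 : k255.all (jb2 57 fl b0) = true := by decide +kernel
noncomputable def s13 : KT := (.br (nat_lit 0x300600b00c00d600c01601801a650) (.br (nat_lit 0x100600b00c00e200c01601801c650) (.br (nat_lit 0x700000900b000e000012016311) k244 (.br (nat_lit 0x100600b00c00d200c01601801a650) k245 k246)) (.br (nat_lit 0x200600b00c00d400c01601801a650) k247 (.br (nat_lit 0x200600b00c00e400c01601801c650) k248 k249))) (.br (nat_lit 0x400600b00c00e800c01601801c650) (.br (nat_lit 0x300600b00c00e600c01601801c650) k250 (.br (nat_lit 0x400600b00c00d800c01601801a650) k251 k252)) (.br (nat_lit 0x500600b00c00da00c01601801a650) k253 (.br (nat_lit 0x600000600b00c00d000c0160d981a511) k254 k255))))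
noncomputable def u13 : KT := (.br (Nat.shiftLeft (nat_lit 0x7000008015) (nat_lit 64)) (.br (Nat.shiftLeft (nat_lit 0x380000380b) (nat_lit 65)) (.br (Nat.shiftLeft (nat_lit 0x3800003807) (nat_lit 65)) (.br (Nat.shiftLeft (nat_lit 0x3800003805) (nat_lit 65)) (.br (Nat.shiftLeft (nat_lit 0x7) (nat_lit 100)) (.br (Nat.shiftLeft (nat_lit 0x3005806007) (nat_lit 65)) (.one (nat_lit 0x600b00c00d000c01601801a540)) (.one (nat_lit 0x600b00c00e000c01601801c540))) (.br (Nat.shiftLeft (nat_lit 0x7000007009) (nat_lit 64)) (.one (nat_lit 0x7000007008000e00000e010311)) (.one (nat_lit 0x7000007009000e00000e012311)))) (.br (Nat.shiftLeft (nat_lit 0x1c00001c03) (nat_lit 66)) (.br (Nat.shiftLeft (nat_lit 0x700000700b) (nat_lit 64)) (.one (nat_lit 0x700000700a000e00000e014311)) (.one (nat_lit 0x700000700b000e00000e016311))) (.br (Nat.shiftLeft (nat_lit 0x700000700d) (nat_lit 64)) (.one (nat_lit 0x700000700c000e00000e018311)) (.one (nat_lit 0x700000700d000e00000e01a311))))) (.br (Nat.shiftLeft (nat_lit 0x3800003809) (nat_lit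 65)) (.br (Nat.shiftLeft (nat_lit 0x700000701) (nat_lit 68)) (.br (Nat.shiftLeft (nat_lit 0x700000700f) (nat_lit 64)) (.one (nat_lit 0x700000700e000e00000e01c311)) (.one (nat_lit 0x700000700f000e00000e01e311))) (.br (Nat.shiftLeft (nat_lit 0x7000007011) (nat_lit 64)) (.one (nat_lit 0x7000007010000e00000e020311)) (.one (nat_lit 0x7000007011000e00000e022311)))) (.br (Nat.shiftLeft (nat_lit 0x1c00001c05) (nat_lit 66)) (.br (Nat.shiftLeft (nat_lit 0x7000007013) (nat_lit 64)) (.one (nat_lit 0x7000007012000e00000e024311)) (.one (nat_lit 0x7000007013000e00000e026311))) (.br (Nat.shiftLeft (nat_lit 0x7000007015) (nat_lit 64)) (.one (nat_lit 0x7000007014000e00000e028311)) (.one (nat_lit 0x7000007015000e00000e02a311)))))) (.br (Nat.shiftLeft (nat_lit 0x700000800d) (nat_lit 64)) (.br (Nat.shiftLeft (nat_lit 0xe00001) (nat_lit 79)) (.br (Nat.shiftLeft (nat_lit 0xe00000e03) (nat_lit 67)) (.br (Nat.shiftLeft (nat_lit 0x7000007017) (nat_lit 64)) (.one (nat_lit 0x7000007016000e00000e02c311)) (.one (nat_lit 0x7000007017000e00000e02e311)))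 (.br (Nat.shiftLeft (nat_lit 0x7000007019) (nat_lit 64)) (.one (nat_lit 0x7000007018000e00000e030311)) (.one (nat_lit 0x7000007019000e00000e032311)))) (.br (Nat.shiftLeft (nat_lit 0x700000800b) (nat_lit 64)) (.br (Nat.shiftLeft (nat_lit 0x3800004005) (nat_lit 65)) (.one (nat_lit 0x7000008009000e000010012311)) (.one (nat_lit 0x700000800a000e000010014311))) (.br (Nat.shiftLeft (nat_lit 0x1c00002003) (nat_lit 66)) (.one (nat_lit 0x700000800b000e000010016311)) (.one (nat_lit 0x700000800c000e000010018311))))) (.br (Nat.shiftLeft (nat_lit 0x7000008011) (nat_lit 64)) (.br (Nat.shiftLeft (nat_lit 0x700000800f) (nat_lit 64)) (.br (Nat.shiftLeft (nat_lit 0x3800004007) (nat_lit 65)) (.one (nat_lit 0x700000800d000e00001001a311)) (.one (nat_lit 0x700000800e000e00001001c311))) (.br (Nat.shiftLeft (nat_lit 0x700000801) (nat_lit 68)) (.one (nat_lit 0x700000800f000e00001001e311)) (.one (nat_lit 0x7000008010000e000010020311)))) (.br (Nat.shiftLeft (nat_lit 0x7000008013) (nat_lit 64)) (.br (Nat.shiftLeft (nat_lit 0x3800004009)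 (nat_lit 65)) (.one (nat_lit 0x7000008011000e000010022311)) (.one (nat_lit 0x7000008012000e000010024311))) (.br (Nat.shiftLeft (nat_lit 0x1c00002005) (nat_lit 66)) (.one (nat_lit 0x7000008013000e000010026311)) (.one (nat_lit 0x7000008014000e000010028311))))))) (.br (Nat.shiftLeft (nat_lit 0x1c00002405) (nat_lit 66)) (.br (Nat.shiftLeft (nat_lit 0x1c00002403) (nat_lit 66)) (.br (Nat.shiftLeft (nat_lit 0x7000008019) (nat_lit 64)) (.br (Nat.shiftLeft (nat_lit 0x7000008017) (nat_lit 64)) (.br (Nat.shiftLeft (nat_lit 0x380000400b) (nat_lit 65)) (.one (nat_lit 0x7000008015000e00001002a311)) (.one (nat_lit 0x7000008016000e00001002c311))) (.br (Nat.shiftLeft (nat_lit 0xe00001003) (nat_lit 67)) (.one (nat_lit 0x7000008017000e00001002e311)) (.one (nat_lit 0x7000008018000e000010030311)))) (.br (Nat.shiftLeft (nat_lit 0x7000009) (nat_lit 76)) (.br (Nat.shiftLeft (nat_lit 0x380000400d) (nat_lit 65)) (.one (nat_lit 0x7000008019000e000010032311)) (.one (nat_lit 0x700000801a000e000010034311))) (.br (Nat.shiftLeft (nat_lit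 0x700000900b) (nat_lit 64)) (.one (nat_lit 0x700000900a000e000012014311)) (.one (nat_lit 0x700000900b000e000012016311))))) (.br (Nat.shiftLeft (nat_lit 0x700000901) (nat_lit 68)) (.br (Nat.shiftLeft (nat_lit 0x3800004807) (nat_lit 65)) (.br (Nat.shiftLeft (nat_lit 0x700000900d) (nat_lit 64)) (.one (nat_lit 0x700000900c000e000012018311)) (.one (nat_lit 0x700000900d000e00001201a311))) (.br (Nat.shiftLeft (nat_lit 0x700000900f) (nat_lit 64)) (.one (nat_lit 0x700000900e000e00001201c311)) (.one (nat_lit 0x700000900f000e00001201e311)))) (.br (Nat.shiftLeft (nat_lit 0x3800004809) (nat_lit 65)) (.br (Nat.shiftLeft (nat_lit 0x7000009011) (nat_lit 64)) (.one (nat_lit 0x7000009010000e000012020311)) (.one (nat_lit 0x7000009011000e000012022311))) (.br (Nat.shiftLeft (nat_lit 0x7000009013) (nat_lit 64)) (.one (nat_lit 0x7000009012000e000012024311)) (.one (nat_lit 0x7000009013000e000012026311)))))) (.br (Nat.shiftLeft (nat_lit 0x1c00002803) (nat_lit 66)) (.br (Nat.shiftLeft (nat_lit 0xe00001203) (nat_lit 67)) (.br (Nat.shiftLeft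 (nat_lit 0x380000480b) (nat_lit 65)) (.br (Nat.shiftLeft (nat_lit 0x7000009015) (nat_lit 64)) (.one (nat_lit 0x7000009014000e000012028311)) (.one (nat_lit 0x7000009015000e00001202a311))) (.br (Nat.shiftLeft (nat_lit 0x7000009017) (nat_lit 64)) (.one (nat_lit 0x7000009016000e00001202c311)) (.one (nat_lit 0x7000009017000e00001202e311)))) (.br (Nat.shiftLeft (nat_lit 0x380000480d) (nat_lit 65)) (.br (Nat.shiftLeft (nat_lit 0x7000009019) (nat_lit 64)) (.one (nat_lit 0x7000009018000e000012030311)) (.one (nat_lit 0x7000009019000e000012032311))) (.br (Nat.shiftLeft (nat_lit 0x3800005) (nat_lit 77)) (.one (nat_lit 0x700000901a000e000012034311)) (.one (nat_lit 0x700000a00b000e000014016311))))) (.br (Nat.shiftLeft (nat_lit 0x700000a01) (nat_lit 68)) (.br (Nat.shiftLeft (nat_lit 0x3800005007) (nat_lit 65)) (.br (Nat.shiftLeft (nat_lit 0x700000a00d) (nat_lit 64)) (.one (nat_lit 0x700000a00c000e000014018311)) (.one (nat_lit 0x700000a00d000e00001401a311))) (.br (Nat.shiftLeft (nat_lit 0x700000a00f) (nat_lit 64)) (.one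 (nat_lit 0x700000a00e000e00001401c311)) (.one (nat_lit 0x700000a00f000e00001401e311)))) (.br (Nat.shiftLeft (nat_lit 0x3800005009) (nat_lit 65)) (.br (Nat.shiftLeft (nat_lit 0x700000a011) (nat_lit 64)) (.one (nat_lit 0x700000a010000e000014020311)) (.one (nat_lit 0x700000a011000e000014022311))) (.br (Nat.shiftLeft (nat_lit 0x700000a013) (nat_lit 64)) (.one (nat_lit 0x700000a012000e000014024311)) (.one (nat_lit 0x700000a013000e000014026311))))))))
def w13 : u13.all (wj 57 s13) = true := by decide +kernel
def o13 : OkW 57 (jb2 57 fl) u13 := .lift s13 _ (.br _ _ _ (.br _ _ _ (.br _ _ _ (.leaf b0 k244 t244) (.br _ _ _ (.leaf b0 k245 t245) (.leaf b0 k246 t246))) (.br _ _ _ (.leaf b0 k247 t247) (.br _ _ _ (.leaf b0 k248 t248) (.leaf b0 k249 t249)))) (.br _ _ _ (.br _ _ _ (.leaf b0 k250 t250) (.br _ _ _ (.leaf b0 k251 t251) (.leaf b0 k252 t252))) (.br _ _ _ (.leaf b0 k253 t253) (.br _ _ _ (.leaf b0 k254 t254) (.leaf b0 k255 t255))))) w13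
noncomputable def k256 : KT := (.br (Nat.shiftLeft (nat_lit 0x3800006007) (nat_lit 65)) (.br (Nat.shiftLeft (nat_lit 0x700000b01) (nat_lit 68)) (.br (Nat.shiftLeft (nat_lit 0x700000a019) (nat_lit 64)) (.br (Nat.shiftLeft (nat_lit 0x380000500b) (nat_lit 65)) (.br (Nat.shiftLeft (nat_lit 0x700000a015) (nat_lit 64)) (.one (nat_lit 0x700000a014000e000014028311)) (.one (nat_lit 0x700000a015000e00001402a311))) (.br (Nat.shiftLeft (nat_lit 0x700000a017) (nat_lit 64)) (.one (nat_lit 0x700000a016000e00001402c311)) (.br (Nat.shiftLeft (nat_lit 0xe00001403) (nat_lit 67)) (.one (nat_lit 0x700000a017000e00001402e311)) (.one (nat_lit 0x700000a018000e000014030311))))) (.br (Nat.shiftLeft (nat_lit 0x700000b00d) (nat_lit 64)) (.br (Nat.shiftLeft (nat_lit 0x700000b) (nat_lit 76)) (.one (nat_lit 0x700000a019000e000014032311)) (.one (nat_lit 0x700000b00c000e000016018311))) (.br (Nat.shiftLeft (nat_lit 0x3800005807) (nat_lit 65)) (.one (nat_lit 0x700000b00d000e00001601a311)) (.br (Nat.shiftLeft (nat_lit 0x700000b00f) (nat_lit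 64)) (.one (nat_lit 0x700000b00e000e00001601c311)) (.one (nat_lit 0x700000b00f000e00001601e311)))))) (.br (Nat.shiftLeft (nat_lit 0x700000b015) (nat_lit 64)) (.br (Nat.shiftLeft (nat_lit 0x3800005809) (nat_lit 65)) (.br (Nat.shiftLeft (nat_lit 0x700000b011) (nat_lit 64)) (.one (nat_lit 0x700000b010000e000016020311)) (.one (nat_lit 0x700000b011000e000016022311))) (.br (Nat.shiftLeft (nat_lit 0x700000b013) (nat_lit 64)) (.one (nat_lit 0x700000b012000e000016024311)) (.br (Nat.shiftLeft (nat_lit 0x1c00002c05) (nat_lit 66)) (.one (nat_lit 0x700000b013000e000016026311)) (.one (nat_lit 0x700000b014000e000016028311))))) (.br (Nat.shiftLeft (nat_lit 0x700000b017) (nat_lit 64)) (.br (Nat.shiftLeft (nat_lit 0x380000580b) (nat_lit 65)) (.one (nat_lit 0x700000b015000e00001602a311)) (.one (nat_lit 0x700000b016000e00001602c311))) (.br (Nat.shiftLeft (nat_lit 0xe00001603) (nat_lit 67)) (.one (nat_lit 0x700000b017000e00001602e311)) (.br (Nat.shiftLeft (nat_lit 0x1c00003) (nat_lit 78)) (.one (nat_lit 0x700000b018000e000016030311))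 (.one (nat_lit 0x700000c00d000e00001801a311))))))) (.br (Nat.shiftLeft (nat_lit 0xe00001803) (nat_lit 67)) (.br (Nat.shiftLeft (nat_lit 0x700000c013) (nat_lit 64)) (.br (Nat.shiftLeft (nat_lit 0x700000c01) (nat_lit 68)) (.br (Nat.shiftLeft (nat_lit 0x700000c00f) (nat_lit 64)) (.one (nat_lit 0x700000c00e000e00001801c311)) (.one (nat_lit 0x700000c00f000e00001801e311))) (.br (Nat.shiftLeft (nat_lit 0x700000c011) (nat_lit 64)) (.one (nat_lit 0x700000c010000e000018020311)) (.br (Nat.shiftLeft (nat_lit 0x3800006009) (nat_lit 65)) (.one (nat_lit 0x700000c011000e000018022311)) (.one (nat_lit 0x700000c012000e000018024311))))) (.br (Nat.shiftLeft (nat_lit 0x700000c015) (nat_lit 64)) (.br (Nat.shiftLeft (nat_lit 0x1c00003005) (nat_lit 66)) (.one (nat_lit 0x700000c013000e000018026311)) (.one (nat_lit 0x700000c014000e000018028311))) (.br (Nat.shiftLeft (nat_lit 0x380000600b) (nat_lit 65)) (.one (nat_lit 0x700000c015000e00001802a311)) (.br (Nat.shiftLeft (nat_lit 0x700000c017) (nat_lit 64)) (.one (nat_lit 0x700000c016000e00001802c311))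 (.one (nat_lit 0x700000c017000e00001802e311)))))) (.br (Nat.shiftLeft (nat_lit 0x3800006809) (nat_lit 65)) (.br (Nat.shiftLeft (nat_lit 0x700000d00f) (nat_lit 64)) (.br (Nat.shiftLeft (nat_lit 0x700000d) (nat_lit 76)) (.one (nat_lit 0x700000c018000e000018030311)) (.one (nat_lit 0x700000d00e000e00001a01c311))) (.br (Nat.shiftLeft (nat_lit 0x700000d01) (nat_lit 68)) (.one (nat_lit 0x700000d00f000e00001a01e311)) (.br (Nat.shiftLeft (nat_lit 0x700000d011) (nat_lit 64)) (.one (nat_lit 0x700000d010000e00001a020311)) (.one (nat_lit 0x700000d011000e00001a022311))))) (.br (Nat.shiftLeft (nat_lit 0x1c00003405) (nat_lit 66)) (.br (Nat.shiftLeft (nat_lit 0x700000d013) (nat_lit 64)) (.one (nat_lit 0x700000d012000e00001a024311)) (.one (nat_lit 0x700000d013000e00001a026311))) (.br (Nat.shiftLeft (nat_lit 0x700000d015) (nat_lit 64)) (.one (nat_lit 0x700000d014000e00001a028311)) (.br (Nat.shiftLeft (nat_lit 0x380000680b) (nat_lit 65)) (.one (nat_lit 0x700000d015000e00001a02a311)) (.one (nat_lit 0x700000d016000e00001a02c311))))))))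
def t256 : k256.all (jb2 57 fl b0) = true := by decide +kernel
noncomputable def k257 : KT := (.br (Nat.shiftLeft (nat_lit 0x700000f013) (nat_lit 64)) (.br (Nat.shiftLeft (nat_lit 0x1c00003805) (nat_lit 66)) (.br (Nat.shiftLeft (nat_lit 0x700000e011) (nat_lit 64)) (.br (Nat.shiftLeft (nat_lit 0x3800007) (nat_lit 77)) (.one (nat_lit 0x700000d017000e00001a02e311)) (.br (Nat.shiftLeft (nat_lit 0x700000e01) (nat_lit 68)) (.one (nat_lit 0x700000e00f000e00001c01e311)) (.one (nat_lit 0x700000e010000e00001c020311)))) (.br (Nat.shiftLeft (nat_lit 0x3800007009) (nat_lit 65)) (.one (nat_lit 0x700000e011000e00001c022311)) (.br (Nat.shiftLeft (nat_lit 0x700000e013) (nat_lit 64)) (.one (nat_lit 0x700000e012000e00001c024311)) (.one (nat_lit 0x700000e013000e00001c026311))))) (.br (Nat.shiftLeft (nat_lit 0x700000f) (nat_lit 76)) (.br (Nat.shiftLeft (nat_lit 0x700000e015) (nat_lit 64)) (.one (nat_lit 0x700000e014000e00001c028311)) (.br (Nat.shiftLeft (nat_lit 0x380000700b) (nat_lit 65)) (.one (nat_lit 0x700000e015000e00001c02a311))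 (.one (nat_lit 0x700000e016000e00001c02c311)))) (.br (Nat.shiftLeft (nat_lit 0x700000f011) (nat_lit 64)) (.one (nat_lit 0x700000f010000e00001e020311)) (.br (Nat.shiftLeft (nat_lit 0x3800007809) (nat_lit 65)) (.one (nat_lit 0x700000f011000e00001e022311)) (.one (nat_lit 0x700000f012000e00001e024311)))))) (.br (Nat.shiftLeft (nat_lit 0x1c00004005) (nat_lit 66)) (.br (Nat.shiftLeft (nat_lit 0x700001) (nat_lit 80)) (.br (Nat.shiftLeft (nat_lit 0x1c00003c05) (nat_lit 66)) (.one (nat_lit 0x700000f013000e00001e026311)) (.br (Nat.shiftLeft (nat_lit 0x700000f015) (nat_lit 64)) (.one (nat_lit 0x700000f014000e00001e028311)) (.one (nat_lit 0x700000f015000e00001e02a311)))) (.br (Nat.shiftLeft (nat_lit 0x3800008009) (nat_lit 65)) (.one (nat_lit 0x7000010011000e000020022311)) (.br (Nat.shiftLeft (nat_lit 0x7000010013) (nat_lit 64)) (.one (nat_lit 0x7000010012000e000020024311)) (.one (nat_lit 0x7000010013000e000020026311))))) (.br (Nat.shiftLeft (nat_lit 0xe01) (nat_lit 91)) (.br (Nat.shiftLeft (nat_lit 0x7000011) (nat_lit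 76)) (.one (nat_lit 0x7000010014000e000020028311)) (.br (Nat.shiftLeft (nat_lit 0x7000011013) (nat_lit 64)) (.one (nat_lit 0x7000011012000e000022024311)) (.one (nat_lit 0x7000011013000e000022026311)))) (.br (Nat.shiftLeft (nat_lit 0x700800900b) (nat_lit 64)) (.one (nat_lit 0x700800900a000e010012015500)) (.br (Nat.shiftLeft (nat_lit 0x1c02002403) (nat_lit 66)) (.one (nat_lit 0x700800900b000e010012017500)) (.one (nat_lit 0x700800900c000e010012019500)))))))
def t257 : k257.all (jb2 57 fl b0) = true := by decide +kernel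
noncomputable def u14 : KT := (.br (nat_lit 0x700000d016000e00001a02c311) k256 k257)
def o14 : OkW 57 (jb2 57 fl) u14 := (.br _ _ _ (.leaf b0 k256 t256) (.leaf b0 k257 t257))
noncomputable def k258 : KT := (.br (Nat.shiftLeft (nat_lit 0x1) (nat_lit 114)) (.br (Nat.shiftLeft (nat_lit 0x1) (nat_lit 112)) (.br (Nat.shiftLeft (nat_lit 0x3804004807) (nat_lit 65)) (.one (nat_lit 0x700800900d000e01001201b500)) (.one (nat_lit 0x700800900e000e01001201d500))) (.br (Nat.shiftLeft (nat_lit 0x1) (nat_lit 113)) (.one (nat_lit 0x100700800900e200e01001201d600)) (.br (Nat.shiftLeft (nat_lit 0x3) (nat_lit 112)) (.one (nat_lit 0x200700800900e400e01001201d600)) (.one (nat_lit 0x300700800900e600e01001201d600))))) (.br (Nat.shiftLeft (nat_lit 0x1) (nat_lit 124)) (.br (Nat.shiftLeft (nat_lit 0x5) (nat_lit 112)) (.one (nat_lit 0x400700800900e800e01001201d600)) (.br (Nat.shiftLeft (nat_lit 0x3) (nat_lit 113)) (.one (nat_lit 0x500700800900ea00e01001201d600)) (.one (nat_lit 0x600700800900ec00e01001201d600)))) (.br (Nat.shiftLeft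 (nat_lit 0x801) (nat_lit 113)) (.one (nat_lit 0x100000700800900e000e01003241c511)) (.br (Nat.shiftLeft (nat_lit 0x1003) (nat_lit 112)) (.one (nat_lit 0x100200700800900e400e01003241d700)) (.one (nat_lit 0x100300700800900e600e01003241c760))))))
def t258 : k258.all (jb2 57 fl b0) = true := by decide +kernel
noncomputable def k259 : KT := (.one (nat_lit 0x100400700800900e800e01003241c760))
def t259 : k259.all (jb2 57 fl b0) = true := by decide +kernel
noncomputable def k260 : KT := (.br (Nat.shiftLeft (nat_lit 0x1) (nat_lit 125)) (.br (Nat.shiftLeft (nat_lit 0x803) (nat_lit 113)) (.one (nat_lit 0x100500700800900ea00e01003241c760)) (.one (nat_lit 0x100600700800900ec00e01003241c760))) (.br (Nat.shiftLeft (nat_lit 0x1001) (nat_lit 113)) (.one (nat_lit 0x200000700800900e000e01005281c511)) (.one (nat_lit 0x200300700800900e600e01005281d700))))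
def t260 : k260.all (jb2 57 fl b0) = true := by decide +kernel
noncomputable def k261 : KT := (.one (nat_lit 0x200400700800900e800e01005281c760))
def t261 : k261.all (jb2 57 fl b0) = true := by decide +kernel
noncomputable def k262 : KT := (.br (Nat.shiftLeft (nat_lit 0x1003) (nat_lit 113)) (.one (nat_lit 0x200500700800900ea00e01005281c760)) (.br (Nat.shiftLeft (nat_lit 0x3) (nat_lit 124)) (.one (nat_lit 0x200600700800900ec00e01005281c760)) (.one (nat_lit 0x300000700800900e000e010072c1c511))))
def t262 : k262.all (jb2 57 fl b0) = true := by decide +kernel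
noncomputable def k263 : KT := (.one (nat_lit 0x300400700800900e800e010072c1c760))
def t263 : k263.all (jb2 57 fl b0) = true := by decide +kernel
noncomputable def k264 : KT := (.br (Nat.shiftLeft (nat_lit 0x1803) (nat_lit 113)) (.one (nat_lit 0x300500700800900ea00e010072c1c760)) (.one (nat_lit 0x300600700800900ec00e010072c1c760)))
def t264 : k264.all (jb2 57 fl b0) = true := by decide +kernel
noncomputable def k265 : KT := (.br (Nat.shiftLeft (nat_lit 0x1001) (nat_lit 114)) (.one (nat_lit 0x400000700800900e000e01009301c511)) (.br (Nat.shiftLeft (nat_lit 0x2003) (nat_lit 113)) (.one (nat_lit 0x400500700800900ea00e01009301c760)) (.one (nat_lit 0x400600700800900ec00e01009301c760))))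
def t265 : k265.all (jb2 57 fl b0) = true := by decide +kernel
noncomputable def k266 : KT := (.br (Nat.shiftLeft (nat_lit 0x1401) (nat_lit 114)) (.one (nat_lit 0x500000700800900e000e0100b341c511)) (.br (Nat.shiftLeft (nat_lit 0x3) (nat_lit 125)) (.one (nat_lit 0x500600700800900ec00e0100b341c760)) (.one (nat_lit 0x600000700800900e000e0100d381c511))))
def t266 : k266.all (jb2 57 fl b0) = true := by decide +kernel
noncomputable def k267 : KT := (.br (Nat.shiftLeft (nat_lit 0x800001) (nat_lit 113)) (.br (Nat.shiftLeft (nat_lit 0x9) (nat_lit 124)) (.br (Nat.shiftLeft (nat_lit 0x1) (nat_lit 127)) (.one (nat_lit 0x700000700800900e000e0100f3c1c511)) (.one (nat_lit 0x800000700800900e000e01011401c511))) (.br (Nat.shiftLeft (nat_lit 0x1) (nat_lit 136)) (.one (nat_lit 0x900000700800900e000e01013441c511)) (.one (nat_lit 0x100000100700800900e200e03041201c611)))) (.br (Nat.shiftLeft (nat_lit 0x400001) (nat_lit 114)) (.br (Nat.shiftLeft (nat_lit 0x1000003) (nat_lit 112)) (.one (nat_lit 0x100000200700800900e400e03041201c611))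 (.one (nat_lit 0x100000300700800900e600e03041201c611))) (.br (Nat.shiftLeft (nat_lit 0x1000005) (nat_lit 112)) (.one (nat_lit 0x100000400700800900e800e03041201c611)) (.br (Nat.shiftLeft (nat_lit 0x800003) (nat_lit 113)) (.one (nat_lit 0x100000500700800900ea00e03041201c611)) (.one (nat_lit 0x100000600700800900ec00e03041201c611))))))
def t267 : k267.all (jb2 57 fl b0) = true := by decide +kernel
noncomputable def k268 : KT := (.br (Nat.shiftLeft (nat_lit 0x1800001) (nat_lit 113)) (.br (Nat.shiftLeft (nat_lit 0x800001) (nat_lit 114)) (.br (Nat.shiftLeft (nat_lit 0x1000001) (nat_lit 113)) (.br (Nat.shiftLeft (nat_lit 0x1) (nat_lit 137)) (.one (nat_lit 0x100200300700800900e600e03045281c870)) (.one (nat_lit 0x200000100700800900e200e05081201c611))) (.br (Nat.shiftLeft (nat_lit 0x2000003) (nat_lit 112)) (.one (nat_lit 0x200000200700800900e400e05081201c611)) (.one (nat_lit 0x200000300700800900e600e05081201c611)))) (.br (Nat.shiftLeft (nat_lit 0x1000003) (nat_lit 113)) (.br (Nat.shiftLeft (nat_lit 0x2000005) (nat_lit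 112)) (.one (nat_lit 0x200000400700800900e800e05081201c611)) (.one (nat_lit 0x200000500700800900ea00e05081201c611))) (.br (Nat.shiftLeft (nat_lit 0x3) (nat_lit 136)) (.one (nat_lit 0x200000600700800900ec00e05081201c611)) (.one (nat_lit 0x300000100700800900e200e070c1201c611))))) (.br (Nat.shiftLeft (nat_lit 0x1800003) (nat_lit 113)) (.br (Nat.shiftLeft (nat_lit 0xc00001) (nat_lit 114)) (.br (Nat.shiftLeft (nat_lit 0x3000003) (nat_lit 112)) (.one (nat_lit 0x300000200700800900e400e070c1201c611)) (.one (nat_lit 0x300000300700800900e600e070c1201c611))) (.br (Nat.shiftLeft (nat_lit 0x3000005) (nat_lit 112)) (.one (nat_lit 0x300000400700800900e800e070c1201c611)) (.one (nat_lit 0x300000500700800900ea00e070c1201c611)))) (.br (Nat.shiftLeft (nat_lit 0x2000001) (nat_lit 113)) (.br (Nat.shiftLeft (nat_lit 0x1) (nat_lit 138)) (.one (nat_lit 0x300000600700800900ec00e070c1201c611)) (.one (nat_lit 0x400000100700800900e200e09101201c611))) (.br (Nat.shiftLeft (nat_lit 0x4000003) (nat_lit 112)) (.one (nat_lit 0x400000200700800900e400e09101201c611))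 (.one (nat_lit 0x400000300700800900e600e09101201c611))))))
def t268 : k268.all (jb2 57 fl b0) = true := by decide +kernel
noncomputable def k269 : KT := (.br (Nat.shiftLeft (nat_lit 0x2000003) (nat_lit 113)) (.br (Nat.shiftLeft (nat_lit 0x4000005) (nat_lit 112)) (.one (nat_lit 0x400000400700800900e800e09101201c611)) (.one (nat_lit 0x400000500700800900ea00e09101201c611))) (.br (Nat.shiftLeft (nat_lit 0x5) (nat_lit 136)) (.one (nat_lit 0x400000600700800900ec00e09101201c611)) (.br (Nat.shiftLeft (nat_lit 0x2800001) (nat_lit 113)) (.one (nat_lit 0x500000100700800900e200e0b141201c611)) (.one (nat_lit 0x500000200700800900e400e0b141201c611)))))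
def t269 : k269.all (jb2 57 fl b0) = true := by decide +kernel
noncomputable def k270 : KT := (.br (Nat.shiftLeft (nat_lit 0x5000005) (nat_lit 112)) (.br (Nat.shiftLeft (nat_lit 0x1400001) (nat_lit 114)) (.one (nat_lit 0x500000300700800900e600e0b141201c611)) (.one (nat_lit 0x500000400700800900e800e0b141201c611))) (.br (Nat.shiftLeft (nat_lit 0x2800003) (nat_lit 113)) (.one (nat_lit 0x500000500700800900ea00e0b141201c611)) (.one (nat_lit 0x500000600700800900ec00e0b141201c611))))
def t270 : k270.all (jb2 57 fl b0) = true := by decide +kernel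
noncomputable def k271 : KT := (.br (Nat.shiftLeft (nat_lit 0x3000001) (nat_lit 113)) (.one (nat_lit 0x600000100700800900e200e0d181201c611)) (.one (nat_lit 0x600000200700800900e400e0d181201c611)))
def t271 : k271.all (jb2 57 fl b0) = true := by decide +kernel
noncomputable def k272 : KT := (.br (Nat.shiftLeft (nat_lit 0x6000005) (nat_lit 112)) (.br (Nat.shiftLeft (nat_lit 0x1800001) (nat_lit 114)) (.one (nat_lit 0x600000300700800900e600e0d181201c611)) (.one (nat_lit 0x600000400700800900e800e0d181201c611))) (.br (Nat.shiftLeft (nat_lit 0x3000003) (nat_lit 113)) (.one (nat_lit 0x600000500700800900ea00e0d181201c611)) (.one (nat_lit 0x600000600700800900ec00e0d181201c611))))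
def t272 : k272.all (jb2 57 fl b0) = true := by decide +kernel
noncomputable def k273 : KT := (.br (Nat.shiftLeft (nat_lit 0x3800001) (nat_lit 113)) (.one (nat_lit 0x700000100700800900e200e0f1c1201c611)) (.one (nat_lit 0x700000200700800900e400e0f1c1201c611)))
def t273 : k273.all (jb2 57 fl b0) = true := by decide +kernel
noncomputable def k274 : KT := (.br (Nat.shiftLeft (nat_lit 0x7000005) (nat_lit 112)) (.br (Nat.shiftLeft (nat_lit 0x1c00001) (nat_lit 114)) (.one (nat_lit 0x700000300700800900e600e0f1c1201c611)) (.one (nat_lit 0x700000400700800900e800e0f1c1201c611))) (.br (Nat.shiftLeft (nat_lit 0x3800003) (nat_lit 113)) (.one (nat_lit 0x700000500700800900ea00e0f1c1201c611)) (.br (Nat.shiftLeft (nat_lit 0x1) (nat_lit 139)) (.one (nat_lit 0x700000600700800900ec00e0f1c1201c611)) (.one (nat_lit 0x800000100700800900e200e11201201c611)))))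
def t274 : k274.all (jb2 57 fl b0) = true := by decide +kernel
noncomputable def k275 : KT := (.br (Nat.shiftLeft (nat_lit 0x8000005) (nat_lit 112)) (.br (Nat.shiftLeft (nat_lit 0x8000003) (nat_lit 112)) (.one (nat_lit 0x800000200700800900e400e11201201c611)) (.br (Nat.shiftLeft (nat_lit 0x2000001) (nat_lit 114)) (.one (nat_lit 0x800000300700800900e600e11201201c611)) (.one (nat_lit 0x800000400700800900e800e11201201c611)))) (.br (Nat.shiftLeft (nat_lit 0x4000003) (nat_lit 113)) (.one (nat_lit 0x800000500700800900ea00e11201201c611)) (.br (Nat.shiftLeft (nat_lit 0x9) (nat_lit 136)) (.one (nat_lit 0x800000600700800900ec00e11201201c611)) (.one (nat_lit 0x900000100700800900e200e13241201c611)))))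
def t275 : k275.all (jb2 57 fl b0) = true := by decide +kernel
noncomputable def k276 : KT := (.br (Nat.shiftLeft (nat_lit 0x1) (nat_lit 149)) (.br (Nat.shiftLeft (nat_lit 0x9000005) (nat_lit 112)) (.br (Nat.shiftLeft (nat_lit 0x9000003) (nat_lit 112)) (.one (nat_lit 0x900000200700800900e400e13241201c611)) (.br (Nat.shiftLeft (nat_lit 0x2400001) (nat_lit 114)) (.one (nat_lit 0x900000300700800900e600e13241201c611)) (.one (nat_lit 0x900000400700800900e800e13241201c611)))) (.br (Nat.shiftLeft (nat_lit 0x1) (nat_lit 148)) (.br (Nat.shiftLeft (nat_lit 0x4800003) (nat_lit 113)) (.one (nat_lit 0x900000500700800900ea00e13241201c611)) (.one (nat_lit 0x900000600700800900ec00e13241201c611))) (.br (Nat.shiftLeft (nat_lit 0x800001) (nat_lit 125)) (.one (nat_lit 0x100000100200700800900e402e41003241c711)) (.one (nat_lit 0x100000200300700800900e602e41005281c711))))) (.br (Nat.shiftLeft (nat_lit 0x1800001) (nat_lit 125)) (.br (Nat.shiftLeft (nat_lit 0x1000001) (nat_lit 125)) (.one (nat_lit 0x200000100200700800900e404e81003241c711))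 (.br (Nat.shiftLeft (nat_lit 0x3) (nat_lit 148)) (.one (nat_lit 0x200000200300700800900e604e81005281c711)) (.one (nat_lit 0x300000100200700800900e406ec1003241c711)))) (.br (Nat.shiftLeft (nat_lit 0x2000001) (nat_lit 125)) (.br (Nat.shiftLeft (nat_lit 0x1) (nat_lit 150)) (.one (nat_lit 0x300000200300700800900e606ec1005281c711)) (.one (nat_lit 0x400000100200700800900e408f01003241c711))) (.br (Nat.shiftLeft (nat_lit 0x5) (nat_lit 148)) (.one (nat_lit 0x400000200300700800900e608f01005281c711)) (.one (nat_lit 0x500000100200700800900e40af41003241c711))))))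
def t276 : k276.all (jb2 57 fl b0) = true := by decide +kernel
noncomputable def k277 : KT := (.br (Nat.shiftLeft (nat_lit 0x3000001) (nat_lit 125)) (.br (Nat.shiftLeft (nat_lit 0x3) (nat_lit 149)) (.one (nat_lit 0x500000200300700800900e60af41005281c711)) (.one (nat_lit 0x600000100200700800900e40cf81003241c711))) (.br (Nat.shiftLeft (nat_lit 0x7) (nat_lit 148)) (.one (nat_lit 0x600000200300700800900e60cf81005281c711)) (.br (Nat.shiftLeft (nat_lit 0x3800001) (nat_lit 125)) (.one (nat_lit 0x700000100200700800900e40efc1003241c711)) (.one (nat_lit 0x700000200300700800900e60efc1005281c711)))))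
def t277 : k277.all (jb2 57 fl b0) = true := by decide +kernel
noncomputable def k278 : KT := (.br (Nat.shiftLeft (nat_lit 0x9) (nat_lit 148)) (.br (Nat.shiftLeft (nat_lit 0x4000001) (nat_lit 125)) (.one (nat_lit 0x800000100200700800900e411001003241c711)) (.one (nat_lit 0x800000200300700800900e611001005281c711))) (.br (Nat.shiftLeft (nat_lit 0x4800001) (nat_lit 125)) (.one (nat_lit 0x900000100200700800900e413041003241c711)) (.one (nat_lit 0x900000200300700800900e613041005281c711))))
def t278 : k278.all (jb2 57 fl b0) = true := by decide +kernel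
noncomputable def s15 : KT := (.br (nat_lit 0x100000600700800900ec00e03041201c611) (.br (nat_lit 0x300000700800900e000e010072c1c511) (.br (nat_lit 0x100400700800900e800e01003241c760) (.br (nat_lit 0x100300700800900e600e01003241c760) k258 k259) (.br (nat_lit 0x200300700800900e600e01005281d700) k260 (.br (nat_lit 0x200400700800900e800e01005281c760) k261 k262))) (.br (nat_lit 0x300600700800900ec00e010072c1c760) (.br (nat_lit 0x300400700800900e800e010072c1c760) k263 k264) (.br (nat_lit 0x400600700800900ec00e01009301c760) k265 (.br (nat_lit 0x600000700800900e000e0100d381c511) k266 k267)))) (.br (nat_lit 0x600000600700800900ec00e0d181201c611) (.br (nat_lit 0x500000200700800900e400e0b141201c611) (.br (nat_lit 0x400000300700800900e600e09101201c611) k268 k269) (.br (nat_lit 0x500000600700800900ec00e0b141201c611) k270 (.br (nat_lit 0x600000200700800900e400e0d181201c611) k271 k272))) (.br (nat_lit 0x900000100700800900e200e13241201c611) (.br (nat_lit 0x700000200700800900e400e0f1c1201c611) k273 (.br (nat_lit 0x800000100700800900e200e11201201c611)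 k274 k275)) (.br (nat_lit 0x500000100200700800900e40af41003241c711) k276 (.br (nat_lit 0x700000200300700800900e60efc1005281c711) k277 k278)))))
noncomputable def u15 : KT := (.br (Nat.shiftLeft (nat_lit 0x3804004807) (nat_lit 65)) (.one (nat_lit 0x700800900d000e01001201b500)) (.one (nat_lit 0x700800900e000e01001201c540)))
def w15 : u15.all (wj 57 s15) = true := by decide +kernel
def o15 : OkW 57 (jb2 57 fl) u15 := .lift s15 _ (.br _ _ _ (.br _ _ _ (.br _ _ _ (.br _ _ _ (.leaf b0 k258 t258) (.leaf b0 k259 t259)) (.br _ _ _ (.leaf b0 k260 t260) (.br _ _ _ (.leaf b0 k261 t261) (.leaf b0 k262 t262)))) (.br _ _ _ (.br _ _ _ (.leaf b0 k263 t263) (.leaf b0 k264 t264)) (.br _ _ _ (.leaf b0 k265 t265) (.br _ _ _ (.leaf b0 k266 t266) (.leaf b0 k267 t267))))) (.br _ _ _ (.br _ _ _ (.br _ _ _ (.leaf b0 k268 t268) (.leaf b0 k269 t269)) (.br _ _ _ (.leaf b0 k270 t270) (.br _ _ _ (.leaf b0 k271 t271) (.leaf b0 k272 t272)))) (.br _ _ _ (.br _ _ _ (.leaf b0 k273 t273) (.br _ _ _ (.leaf b0 k274 t274) (.leaf b0 k275 t275)))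 (.br _ _ _ (.leaf b0 k276 t276) (.br _ _ _ (.leaf b0 k277 t277) (.leaf b0 k278 t278)))))) w15
noncomputable def k279 : KT := (.br (Nat.shiftLeft (nat_lit 0x1) (nat_lit 114)) (.br (Nat.shiftLeft (nat_lit 0x1) (nat_lit 113)) (.br (Nat.shiftLeft (nat_lit 0x1) (nat_lit 112)) (.one (nat_lit 0x700800900f000e01001201f500)) (.one (nat_lit 0x100700800900f200e01001201f600))) (.br (Nat.shiftLeft (nat_lit 0x3) (nat_lit 112)) (.one (nat_lit 0x200700800900f400e01001201f600)) (.one (nat_lit 0x300700800900f600e01001201f600)))) (.br (Nat.shiftLeft (nat_lit 0x3) (nat_lit 113)) (.br (Nat.shiftLeft (nat_lit 0x5) (nat_lit 112)) (.one (nat_lit 0x400700800900f800e01001201f600)) (.one (nat_lit 0x500700800900fa00e01001201f600))) (.br (Nat.shiftLeft (nat_lit 0x1) (nat_lit 124)) (.one (nat_lit 0x600700800900fc00e01001201f600)) (.br (Nat.shiftLeft (nat_lit 0x801) (nat_lit 113)) (.one (nat_lit 0x100000700800900f000e01003241e511)) (.one (nat_lit 0x100200700800900f400e01003241e760))))))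
def t279 : k279.all (jb2 57 fl b0) = true := by decide +kernel
noncomputable def k280 : KT := (.one (nat_lit 0x100300700800900f600e01003241e760))
def t280 : k280.all (jb2 57 fl b0) = true := by decide +kernel
noncomputable def k281 : KT := (.br (Nat.shiftLeft (nat_lit 0x803) (nat_lit 113)) (.br (Nat.shiftLeft (nat_lit 0x1005) (nat_lit 112)) (.one (nat_lit 0x100400700800900f800e01003241e760)) (.one (nat_lit 0x100500700800900fa00e01003241e760))) (.br (Nat.shiftLeft (nat_lit 0x1) (nat_lit 125)) (.one (nat_lit 0x100600700800900fc00e01003241e760)) (.one (nat_lit 0x200000700800900f000e01005281e511))))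
def t281 : k281.all (jb2 57 fl b0) = true := by decide +kernel
noncomputable def k282 : KT := (.one (nat_lit 0x200300700800900f600e01005281e760))
def t282 : k282.all (jb2 57 fl b0) = true := by decide +kernel
noncomputable def k283 : KT := (.br (Nat.shiftLeft (nat_lit 0x2005) (nat_lit 112)) (.one (nat_lit 0x200400700800900f800e01005281e760)) (.one (nat_lit 0x200500700800900fa00e01005281e760)))
def t283 : k283.all (jb2 57 fl b0) = true := by decide +kernel
noncomputable def k284 : KT := (.br (Nat.shiftLeft (nat_lit 0x3) (nat_lit 124)) (.one (nat_lit 0x200600700800900fc00e01005281e760)) (.br (Nat.shiftLeft (nat_lit 0xc01) (nat_lit 114)) (.one (nat_lit 0x300000700800900f000e010072c1e511)) (.one (nat_lit 0x300400700800900f800e010072c1e760))))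
def t284 : k284.all (jb2 57 fl b0) = true := by decide +kernel
noncomputable def k285 : KT := (.br (Nat.shiftLeft (nat_lit 0x1803) (nat_lit 113)) (.one (nat_lit 0x300500700800900fa00e010072c1e760)) (.br (Nat.shiftLeft (nat_lit 0x1) (nat_lit 126)) (.one (nat_lit 0x300600700800900fc00e010072c1e760)) (.one (nat_lit 0x400000700800900f000e01009301e511))))
def t285 : k285.all (jb2 57 fl b0) = true := by decide +kernel
noncomputable def k286 : KT := (.br (Nat.shiftLeft (nat_lit 0x5) (nat_lit 124)) (.br (Nat.shiftLeft (nat_lit 0x2003) (nat_lit 113)) (.one (nat_lit 0x400500700800900fa00e01009301e760)) (.one (nat_lit 0x400600700800900fc00e01009301e760))) (.br (Nat.shiftLeft (nat_lit 0x1401) (nat_lit 114)) (.one (nat_lit 0x500000700800900f000e0100b341e511)) (.one (nat_lit 0x500600700800900fc00e0100b341e760))))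
def t286 : k286.all (jb2 57 fl b0) = true := by decide +kernel
noncomputable def k287 : KT := (.br (Nat.shiftLeft (nat_lit 0x1000005) (nat_lit 112)) (.br (Nat.shiftLeft (nat_lit 0x1) (nat_lit 136)) (.br (Nat.shiftLeft (nat_lit 0x1) (nat_lit 127)) (.br (Nat.shiftLeft (nat_lit 0x7) (nat_lit 124)) (.one (nat_lit 0x600000700800900f000e0100d381e511)) (.one (nat_lit 0x700000700800900f000e0100f3c1e511))) (.br (Nat.shiftLeft (nat_lit 0x9) (nat_lit 124)) (.one (nat_lit 0x800000700800900f000e01011401e511)) (.one (nat_lit 0x900000700800900f000e01013441e511)))) (.br (Nat.shiftLeft (nat_lit 0x1000003) (nat_lit 112)) (.br (Nat.shiftLeft (nat_lit 0x800001) (nat_lit 113)) (.one (nat_lit 0x100000100700800900f200e03041201e611)) (.one (nat_lit 0x100000200700800900f400e03041201e611))) (.br (Nat.shiftLeft (nat_lit 0x400001) (nat_lit 114)) (.one (nat_lit 0x100000300700800900f600e03041201e611)) (.one (nat_lit 0x100000400700800900f800e03041201e611))))) (.br (Nat.shiftLeft (nat_lit 0x2000003) (nat_lit 112)) (.br (Nat.shiftLeft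 (nat_lit 0x1) (nat_lit 137)) (.br (Nat.shiftLeft (nat_lit 0x800003) (nat_lit 113)) (.one (nat_lit 0x100000500700800900fa00e03041201e611)) (.one (nat_lit 0x100000600700800900fc00e03041201e611))) (.br (Nat.shiftLeft (nat_lit 0x1000001) (nat_lit 113)) (.one (nat_lit 0x200000100700800900f200e05081201e611)) (.one (nat_lit 0x200000200700800900f400e05081201e611)))) (.br (Nat.shiftLeft (nat_lit 0x2000005) (nat_lit 112)) (.br (Nat.shiftLeft (nat_lit 0x800001) (nat_lit 114)) (.one (nat_lit 0x200000300700800900f600e05081201e611)) (.one (nat_lit 0x200000400700800900f800e05081201e611))) (.br (Nat.shiftLeft (nat_lit 0x1000003) (nat_lit 113)) (.one (nat_lit 0x200000500700800900fa00e05081201e611)) (.br (Nat.shiftLeft (nat_lit 0x3) (nat_lit 136)) (.one (nat_lit 0x200000600700800900fc00e05081201e611)) (.one (nat_lit 0x300000100700800900f200e070c1201e611)))))))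
def t287 : k287.all (jb2 57 fl b0) = true := by decide +kernel
noncomputable def k288 : KT := (.br (Nat.shiftLeft (nat_lit 0x2000001) (nat_lit 113)) (.br (Nat.shiftLeft (nat_lit 0x3000005) (nat_lit 112)) (.br (Nat.shiftLeft (nat_lit 0x3000003) (nat_lit 112)) (.one (nat_lit 0x300000200700800900f400e070c1201e611)) (.br (Nat.shiftLeft (nat_lit 0xc00001) (nat_lit 114)) (.one (nat_lit 0x300000300700800900f600e070c1201e611)) (.one (nat_lit 0x300000400700800900f800e070c1201e611)))) (.br (Nat.shiftLeft (nat_lit 0x1800003) (nat_lit 113)) (.one (nat_lit 0x300000500700800900fa00e070c1201e611)) (.br (Nat.shiftLeft (nat_lit 0x1) (nat_lit 138)) (.one (nat_lit 0x300000600700800900fc00e070c1201e611)) (.one (nat_lit 0x400000100700800900f200e09101201e611))))) (.br (Nat.shiftLeft (nat_lit 0x4000005) (nat_lit 112)) (.br (Nat.shiftLeft (nat_lit 0x4000003) (nat_lit 112)) (.one (nat_lit 0x400000200700800900f400e09101201e611)) (.br (Nat.shiftLeft (nat_lit 0x1000001) (nat_lit 114)) (.one (nat_lit 0x400000300700800900f600e09101201e611))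 (.one (nat_lit 0x400000400700800900f800e09101201e611)))) (.br (Nat.shiftLeft (nat_lit 0x2000003) (nat_lit 113)) (.one (nat_lit 0x400000500700800900fa00e09101201e611)) (.br (Nat.shiftLeft (nat_lit 0x5) (nat_lit 136)) (.one (nat_lit 0x400000600700800900fc00e09101201e611)) (.one (nat_lit 0x500000100700800900f200e0b141201e611))))))
def t288 : k288.all (jb2 57 fl b0) = true := by decide +kernel
noncomputable def k289 : KT := (.br (Nat.shiftLeft (nat_lit 0x5000005) (nat_lit 112)) (.br (Nat.shiftLeft (nat_lit 0x5000003) (nat_lit 112)) (.one (nat_lit 0x500000200700800900f400e0b141201e611)) (.br (Nat.shiftLeft (nat_lit 0x1400001) (nat_lit 114)) (.one (nat_lit 0x500000300700800900f600e0b141201e611)) (.one (nat_lit 0x500000400700800900f800e0b141201e611)))) (.br (Nat.shiftLeft (nat_lit 0x2800003) (nat_lit 113)) (.one (nat_lit 0x500000500700800900fa00e0b141201e611)) (.br (Nat.shiftLeft (nat_lit 0x3) (nat_lit 137)) (.one (nat_lit 0x500000600700800900fc00e0b141201e611)) (.one (nat_lit 0x600000100700800900f200e0d181201e611)))))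
def t289 : k289.all (jb2 57 fl b0) = true := by decide +kernel
noncomputable def k290 : KT := (.br (Nat.shiftLeft (nat_lit 0x6000005) (nat_lit 112)) (.br (Nat.shiftLeft (nat_lit 0x6000003) (nat_lit 112)) (.one (nat_lit 0x600000200700800900f400e0d181201e611)) (.br (Nat.shiftLeft (nat_lit 0x1800001) (nat_lit 114)) (.one (nat_lit 0x600000300700800900f600e0d181201e611)) (.one (nat_lit 0x600000400700800900f800e0d181201e611)))) (.br (Nat.shiftLeft (nat_lit 0x3000003) (nat_lit 113)) (.one (nat_lit 0x600000500700800900fa00e0d181201e611)) (.br (Nat.shiftLeft (nat_lit 0x7) (nat_lit 136)) (.one (nat_lit 0x600000600700800900fc00e0d181201e611)) (.one (nat_lit 0x700000100700800900f200e0f1c1201e611)))))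
def t290 : k290.all (jb2 57 fl b0) = true := by decide +kernel
noncomputable def k291 : KT := (.br (Nat.shiftLeft (nat_lit 0x7000005) (nat_lit 112)) (.br (Nat.shiftLeft (nat_lit 0x7000003) (nat_lit 112)) (.one (nat_lit 0x700000200700800900f400e0f1c1201e611)) (.br (Nat.shiftLeft (nat_lit 0x1c00001) (nat_lit 114)) (.one (nat_lit 0x700000300700800900f600e0f1c1201e611)) (.one (nat_lit 0x700000400700800900f800e0f1c1201e611)))) (.br (Nat.shiftLeft (nat_lit 0x1) (nat_lit 139)) (.br (Nat.shiftLeft (nat_lit 0x3800003) (nat_lit 113)) (.one (nat_lit 0x700000500700800900fa00e0f1c1201e611)) (.one (nat_lit 0x700000600700800900fc00e0f1c1201e611))) (.br (Nat.shiftLeft (nat_lit 0x4000001) (nat_lit 113)) (.one (nat_lit 0x800000100700800900f200e11201201e611)) (.one (nat_lit 0x800000200700800900f400e11201201e611)))))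
def t291 : k291.all (jb2 57 fl b0) = true := by decide +kernel
noncomputable def k292 : KT := (.br (Nat.shiftLeft (nat_lit 0x4800001) (nat_lit 113)) (.br (Nat.shiftLeft (nat_lit 0x8000005) (nat_lit 112)) (.br (Nat.shiftLeft (nat_lit 0x2000001) (nat_lit 114)) (.one (nat_lit 0x800000300700800900f600e11201201e611)) (.one (nat_lit 0x800000400700800900f800e11201201e611))) (.br (Nat.shiftLeft (nat_lit 0x4000003) (nat_lit 113)) (.one (nat_lit 0x800000500700800900fa00e11201201e611)) (.br (Nat.shiftLeft (nat_lit 0x9) (nat_lit 136)) (.one (nat_lit 0x800000600700800900fc00e11201201e611)) (.one (nat_lit 0x900000100700800900f200e13241201e611))))) (.br (Nat.shiftLeft (nat_lit 0x2400001) (nat_lit 114)) (.br (Nat.shiftLeft (nat_lit 0x9000003) (nat_lit 112)) (.one (nat_lit 0x900000200700800900f400e13241201e611)) (.one (nat_lit 0x900000300700800900f600e13241201e611))) (.br (Nat.shiftLeft (nat_lit 0x9000005) (nat_lit 112)) (.one (nat_lit 0x900000400700800900f800e13241201e611)) (.br (Nat.shiftLeft (nat_lit 0x4800003) (nat_lit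 113)) (.one (nat_lit 0x900000500700800900fa00e13241201e611)) (.one (nat_lit 0x900000600700800900fc00e13241201e611))))))
def t292 : k292.all (jb2 57 fl b0) = true := by decide +kernel
noncomputable def s16 : KT := (.br (nat_lit 0x400000700800900f000e01009301e511) (.br (nat_lit 0x200000700800900f000e01005281e511) (.br (nat_lit 0x100200700800900f400e01003241e760) k279 (.br (nat_lit 0x100300700800900f600e01003241e760) k280 k281)) (.br (nat_lit 0x200500700800900fa00e01005281e760) (.br (nat_lit 0x200300700800900f600e01005281e760) k282 k283) (.br (nat_lit 0x300400700800900f800e010072c1e760) k284 k285))) (.br (nat_lit 0x500000100700800900f200e0b141201e611) (.br (nat_lit 0x500600700800900fc00e0100b341e760) k286 (.br (nat_lit 0x300000100700800900f200e070c1201e611) k287 k288)) (.br (nat_lit 0x700000100700800900f200e0f1c1201e611) (.br (nat_lit 0x600000100700800900f200e0d181201e611) k289 k290) (.br (nat_lit 0x800000200700800900f400e11201201e611) k291 k292))))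
noncomputable def u16 : KT := (.one (nat_lit 0x700800900f000e01001201e540))
def w16 : u16.all (wj 57 s16) = true := by decide +kernel
def o16 : OkW 57 (jb2 57 fl) u16 := .lift s16 _ (.br _ _ _ (.br _ _ _ (.br _ _ _ (.leaf b0 k279 t279) (.br _ _ _ (.leaf b0 k280 t280) (.leaf b0 k281 t281))) (.br _ _ _ (.br _ _ _ (.leaf b0 k282 t282) (.leaf b0 k283 t283)) (.br _ _ _ (.leaf b0 k284 t284) (.leaf b0 k285 t285)))) (.br _ _ _ (.br _ _ _ (.leaf b0 k286 t286) (.br _ _ _ (.leaf b0 k287 t287) (.leaf b0 k288 t288))) (.br _ _ _ (.br _ _ _ (.leaf b0 k289 t289) (.leaf b0 k290 t290)) (.br _ _ _ (.leaf b0 k291 t291) (.leaf b0 k292 t292))))) w16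
noncomputable def k293 : KT := (.br (Nat.shiftLeft (nat_lit 0x3804004809) (nat_lit 65)) (.br (Nat.shiftLeft (nat_lit 0x7008009011) (nat_lit 64)) (.one (nat_lit 0x7008009010000e010012021500)) (.one (nat_lit 0x7008009011000e010012023500))) (.br (Nat.shiftLeft (nat_lit 0x1) (nat_lit 112)) (.one (nat_lit 0x7008009012000e010012025500)) (.one (nat_lit 0x1007008009010200e010012020650))))
def t293 : k293.all (jb2 57 fl b0) = true := by decide +kernel
noncomputable def k294 : KT := (.one (nat_lit 0x1007008009011200e010012022650))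
def t294 : k294.all (jb2 57 fl b0) = true := by decide +kernel
noncomputable def k295 : KT := (.br (Nat.shiftLeft (nat_lit 0x1) (nat_lit 113)) (.one (nat_lit 0x1007008009012200e010012024650)) (.one (nat_lit 0x2007008009010400e010012021600)))
def t295 : k295.all (jb2 57 fl b0) = true := by decide +kernel
noncomputable def k296 : KT := (.one (nat_lit 0x2007008009011400e010012022650))
def t296 : k296.all (jb2 57 fl b0) = true := by decide +kernel
noncomputable def k297 : KT := (.br (Nat.shiftLeft (nat_lit 0x3) (nat_lit 112)) (.one (nat_lit 0x2007008009012400e010012024650)) (.br (Nat.shiftLeft (nat_lit 0x3007008009011) (nat_lit 64)) (.one (nat_lit 0x3007008009010600e010012021600)) (.one (nat_lit 0x3007008009011600e010012023600))))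
def t297 : k297.all (jb2 57 fl b0) = true := by decide +kernel
noncomputable def k298 : KT := (.br (Nat.shiftLeft (nat_lit 0x1) (nat_lit 114)) (.one (nat_lit 0x3007008009012600e010012024650)) (.br (Nat.shiftLeft (nat_lit 0x4007008009011) (nat_lit 64)) (.one (nat_lit 0x4007008009010800e010012021600)) (.one (nat_lit 0x4007008009011800e010012023600))))
def t298 : k298.all (jb2 57 fl b0) = true := by decide +kernel
noncomputable def k299 : KT := (.br (Nat.shiftLeft (nat_lit 0x5) (nat_lit 112)) (.one (nat_lit 0x4007008009012800e010012024650)) (.one (nat_lit 0x5007008009010a00e010012021600)))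
def t299 : k299.all (jb2 57 fl b0) = true := by decide +kernel
noncomputable def k300 : KT := (.one (nat_lit 0x5007008009011a00e010012022650))
def t300 : k300.all (jb2 57 fl b0) = true := by decide +kernel
noncomputable def k301 : KT := (.br (Nat.shiftLeft (nat_lit 0x3) (nat_lit 113)) (.one (nat_lit 0x5007008009012a00e010012024650)) (.one (nat_lit 0x6007008009010c00e010012021600)))
def t301 : k301.all (jb2 57 fl b0) = true := by decide +kernel
noncomputable def k302 : KT := (.one (nat_lit 0x6007008009011c00e010012022650))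
def t302 : k302.all (jb2 57 fl b0) = true := by decide +kernel
noncomputable def k303 : KT := (.br (Nat.shiftLeft (nat_lit 0x1000007008009011) (nat_lit 64)) (.br (Nat.shiftLeft (nat_lit 0x1) (nat_lit 124)) (.one (nat_lit 0x6007008009012c00e010012024650)) (.one (nat_lit 0x1000007008009010000e010032420511))) (.br (Nat.shiftLeft (nat_lit 0x800003804004809) (nat_lit 65)) (.one (nat_lit 0x1000007008009011000e010032422511)) (.one (nat_lit 0x1000007008009012000e010032424511))))
def t303 : k303.all (jb2 57 fl b0) = true := by decide +kernel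
noncomputable def k304 : KT := (.br (Nat.shiftLeft (nat_lit 0x1003) (nat_lit 112)) (.one (nat_lit 0x1002007008009010400e010032420760)) (.one (nat_lit 0x1003007008009010600e010032420760)))
def t304 : k304.all (jb2 57 fl b0) = true := by decide +kernel
noncomputable def k305 : KT := (.br (Nat.shiftLeft (nat_lit 0x401) (nat_lit 114)) (.one (nat_lit 0x1003007008009011600e010032422760)) (.br (Nat.shiftLeft (nat_lit 0x1004007008009011) (nat_lit 64)) (.one (nat_lit 0x1004007008009010800e010032420760)) (.one (nat_lit 0x1004007008009011800e010032422760))))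
def t305 : k305.all (jb2 57 fl b0) = true := by decide +kernel
noncomputable def k306 : KT := (.br (Nat.shiftLeft (nat_lit 0x2000007008009011) (nat_lit 64)) (.br (Nat.shiftLeft (nat_lit 0x803) (nat_lit 113)) (.one (nat_lit 0x1005007008009010a00e010032420760)) (.br (Nat.shiftLeft (nat_lit 0x1) (nat_lit 125)) (.one (nat_lit 0x1006007008009010c00e010032420760)) (.one (nat_lit 0x2000007008009010000e010052820511)))) (.br (Nat.shiftLeft (nat_lit 0x1000003804004809) (nat_lit 65)) (.one (nat_lit 0x2000007008009011000e010052822511)) (.br (Nat.shiftLeft (nat_lit 0x1001) (nat_lit 113)) (.one (nat_lit 0x2000007008009012000e010052824511)) (.one (nat_lit 0x2003007008009010600e010052820760)))))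
def t306 : k306.all (jb2 57 fl b0) = true := by decide +kernel
noncomputable def k307 : KT := (.br (Nat.shiftLeft (nat_lit 0x801) (nat_lit 114)) (.one (nat_lit 0x2003007008009011600e010052822760)) (.one (nat_lit 0x2004007008009010800e010052820760)))
def t307 : k307.all (jb2 57 fl b0) = true := by decide +kernel
noncomputable def k308 : KT := (.br (Nat.shiftLeft (nat_lit 0x3) (nat_lit 124)) (.br (Nat.shiftLeft (nat_lit 0x2005) (nat_lit 112)) (.one (nat_lit 0x2004007008009011800e010052822760)) (.br (Nat.shiftLeft (nat_lit 0x1003) (nat_lit 113)) (.one (nat_lit 0x2005007008009010a00e010052820760)) (.one (nat_lit 0x2006007008009010c00e010052820760)))) (.br (Nat.shiftLeft (nat_lit 0x3000007008009011) (nat_lit 64)) (.one (nat_lit 0x3000007008009010000e010072c20511)) (.br (Nat.shiftLeft (nat_lit 0x1800003804004809) (nat_lit 65)) (.one (nat_lit 0x3000007008009011000e010072c22511)) (.one (nat_lit 0x3000007008009012000e010072c24511)))))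
def t308 : k308.all (jb2 57 fl b0) = true := by decide +kernel
noncomputable def k309 : KT := (.br (Nat.shiftLeft (nat_lit 0x3004007008009011) (nat_lit 64)) (.one (nat_lit 0x3004007008009010800e010072c20760)) (.br (Nat.shiftLeft (nat_lit 0x3005) (nat_lit 112)) (.one (nat_lit 0x3004007008009011800e010072c22760)) (.one (nat_lit 0x3005007008009010a00e010072c20760))))
def t309 : k309.all (jb2 57 fl b0) = true := by decide +kernel
noncomputable def k310 : KT := (.br (Nat.shiftLeft (nat_lit 0x2000003804004809) (nat_lit 65)) (.br (Nat.shiftLeft (nat_lit 0x1) (nat_lit 126)) (.one (nat_lit 0x3006007008009010c00e010072c20760)) (.br (Nat.shiftLeft (nat_lit 0x4000007008009011) (nat_lit 64)) (.one (nat_lit 0x4000007008009010000e010093020511)) (.one (nat_lit 0x4000007008009011000e010093022511)))) (.br (Nat.shiftLeft (nat_lit 0x2003) (nat_lit 113)) (.br (Nat.shiftLeft (nat_lit 0x1001) (nat_lit 114)) (.one (nat_lit 0x4000007008009012000e010093024511)) (.one (nat_lit 0x4005007008009010a00e010093020760))) (.br (Nat.shiftLeft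 (nat_lit 0x5) (nat_lit 124)) (.one (nat_lit 0x4006007008009010c00e010093020760)) (.one (nat_lit 0x5000007008009010000e0100b3420511)))))
def t310 : k310.all (jb2 57 fl b0) = true := by decide +kernel
noncomputable def k311 : KT := (.br (Nat.shiftLeft (nat_lit 0x3) (nat_lit 125)) (.br (Nat.shiftLeft (nat_lit 0x2800003804004809) (nat_lit 65)) (.one (nat_lit 0x5000007008009011000e0100b3422511)) (.br (Nat.shiftLeft (nat_lit 0x1401) (nat_lit 114)) (.one (nat_lit 0x5000007008009012000e0100b3424511)) (.one (nat_lit 0x5006007008009010c00e0100b3420760)))) (.br (Nat.shiftLeft (nat_lit 0x6000007008009011) (nat_lit 64)) (.one (nat_lit 0x6000007008009010000e0100d3820511)) (.br (Nat.shiftLeft (nat_lit 0x3000003804004809) (nat_lit 65)) (.one (nat_lit 0x6000007008009011000e0100d3822511)) (.one (nat_lit 0x6000007008009012000e0100d3824511)))))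
def t311 : k311.all (jb2 57 fl b0) = true := by decide +kernel
noncomputable def k312 : KT := (.br (Nat.shiftLeft (nat_lit 0x1) (nat_lit 127)) (.br (Nat.shiftLeft (nat_lit 0x7000007008009011) (nat_lit 64)) (.one (nat_lit 0x7000007008009010000e0100f3c20511)) (.br (Nat.shiftLeft (nat_lit 0x3800003804004809) (nat_lit 65)) (.one (nat_lit 0x7000007008009011000e0100f3c22511)) (.one (nat_lit 0x7000007008009012000e0100f3c24511)))) (.br (Nat.shiftLeft (nat_lit 0x4000003804004809) (nat_lit 65)) (.br (Nat.shiftLeft (nat_lit 0x8000007008009011) (nat_lit 64)) (.one (nat_lit 0x8000007008009010000e010114020511)) (.one (nat_lit 0x8000007008009011000e010114022511))) (.br (Nat.shiftLeft (nat_lit 0x9) (nat_lit 124)) (.one (nat_lit 0x8000007008009012000e010114024511)) (.one (nat_lit 0x9000007008009010000e010134420511)))))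
def t312 : k312.all (jb2 57 fl b0) = true := by decide +kernel
noncomputable def k313 : KT := (.br (Nat.shiftLeft (nat_lit 0x1000003) (nat_lit 113)) (.br (Nat.shiftLeft (nat_lit 0x1000005) (nat_lit 112)) (.br (Nat.shiftLeft (nat_lit 0x1000003) (nat_lit 112)) (.br (Nat.shiftLeft (nat_lit 0x4800003804004809) (nat_lit 65)) (.one (nat_lit 0x9000007008009011000e010134422511)) (.br (Nat.shiftLeft (nat_lit 0x1) (nat_lit 136)) (.one (nat_lit 0x9000007008009012000e010134424511)) (.one (nat_lit 0x1000002007008009010400e030412020611)))) (.br (Nat.shiftLeft (nat_lit 0x400001) (nat_lit 114)) (.br (Nat.shiftLeft (nat_lit 0x1000003007008009011) (nat_lit 64)) (.one (nat_lit 0x1000003007008009010600e030412020611)) (.one (nat_lit 0x1000003007008009011600e030412022611))) (.br (Nat.shiftLeft (nat_lit 0x1000004007008009011) (nat_lit 64)) (.one (nat_lit 0x1000004007008009010800e030412020611)) (.one (nat_lit 0x1000004007008009011800e030412022611))))) (.br (Nat.shiftLeft (nat_lit 0x2000003007008009011) (nat_lit 64)) (.br (Nat.shiftLeft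 (nat_lit 0x1) (nat_lit 137)) (.br (Nat.shiftLeft (nat_lit 0x800003) (nat_lit 113)) (.one (nat_lit 0x1000005007008009010a00e030412020611)) (.one (nat_lit 0x1000006007008009010c00e030412020611))) (.br (Nat.shiftLeft (nat_lit 0x2000003) (nat_lit 112)) (.one (nat_lit 0x2000002007008009010400e050812020611)) (.one (nat_lit 0x2000003007008009010600e050812020611)))) (.br (Nat.shiftLeft (nat_lit 0x2000004007008009011) (nat_lit 64)) (.br (Nat.shiftLeft (nat_lit 0x800001) (nat_lit 114)) (.one (nat_lit 0x2000003007008009011600e050812022611)) (.one (nat_lit 0x2000004007008009010800e050812020611))) (.br (Nat.shiftLeft (nat_lit 0x2000005) (nat_lit 112)) (.one (nat_lit 0x2000004007008009011800e050812022611)) (.one (nat_lit 0x2000005007008009010a00e050812020611)))))) (.br (Nat.shiftLeft (nat_lit 0x1) (nat_lit 138)) (.br (Nat.shiftLeft (nat_lit 0xc00001) (nat_lit 114)) (.br (Nat.shiftLeft (nat_lit 0x3000003) (nat_lit 112)) (.br (Nat.shiftLeft (nat_lit 0x3) (nat_lit 136)) (.one (nat_lit 0x2000006007008009010c00e050812020611))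 (.one (nat_lit 0x3000002007008009010400e070c12020611))) (.br (Nat.shiftLeft (nat_lit 0x3000003007008009011) (nat_lit 64)) (.one (nat_lit 0x3000003007008009010600e070c12020611)) (.one (nat_lit 0x3000003007008009011600e070c12022611)))) (.br (Nat.shiftLeft (nat_lit 0x3000005) (nat_lit 112)) (.br (Nat.shiftLeft (nat_lit 0x3000004007008009011) (nat_lit 64)) (.one (nat_lit 0x3000004007008009010800e070c12020611)) (.one (nat_lit 0x3000004007008009011800e070c12022611))) (.br (Nat.shiftLeft (nat_lit 0x1800003) (nat_lit 113)) (.one (nat_lit 0x3000005007008009010a00e070c12020611)) (.one (nat_lit 0x3000006007008009010c00e070c12020611))))) (.br (Nat.shiftLeft (nat_lit 0x4000004007008009011) (nat_lit 64)) (.br (Nat.shiftLeft (nat_lit 0x4000003007008009011) (nat_lit 64)) (.br (Nat.shiftLeft (nat_lit 0x4000003) (nat_lit 112)) (.one (nat_lit 0x4000002007008009010400e091012020611)) (.one (nat_lit 0x4000003007008009010600e091012020611))) (.br (Nat.shiftLeft (nat_lit 0x1000001) (nat_lit 114)) (.one (nat_lit 0x4000003007008009011600e091012022611))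 (.one (nat_lit 0x4000004007008009010800e091012020611)))) (.br (Nat.shiftLeft (nat_lit 0x2000003) (nat_lit 113)) (.br (Nat.shiftLeft (nat_lit 0x4000005) (nat_lit 112)) (.one (nat_lit 0x4000004007008009011800e091012022611)) (.one (nat_lit 0x4000005007008009010a00e091012020611))) (.br (Nat.shiftLeft (nat_lit 0x5) (nat_lit 136)) (.one (nat_lit 0x4000006007008009010c00e091012020611)) (.one (nat_lit 0x5000002007008009010400e0b1412020611)))))))
def t313 : k313.all (jb2 57 fl b0) = true := by decide +kernel
noncomputable def k314 : KT := (.br (Nat.shiftLeft (nat_lit 0x2800003) (nat_lit 113)) (.br (Nat.shiftLeft (nat_lit 0x1400001) (nat_lit 114)) (.br (Nat.shiftLeft (nat_lit 0x5000003007008009011) (nat_lit 64)) (.one (nat_lit 0x5000003007008009010600e0b1412020611)) (.one (nat_lit 0x5000003007008009011600e0b1412022611))) (.br (Nat.shiftLeft (nat_lit 0x5000004007008009011) (nat_lit 64)) (.one (nat_lit 0x5000004007008009010800e0b1412020611)) (.br (Nat.shiftLeft (nat_lit 0x5000005) (nat_lit 112)) (.one (nat_lit 0x5000004007008009011800e0b1412022611))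 (.one (nat_lit 0x5000005007008009010a00e0b1412020611))))) (.br (Nat.shiftLeft (nat_lit 0x6000003) (nat_lit 112)) (.br (Nat.shiftLeft (nat_lit 0x3) (nat_lit 137)) (.one (nat_lit 0x5000006007008009010c00e0b1412020611)) (.one (nat_lit 0x6000002007008009010400e0d1812020611))) (.br (Nat.shiftLeft (nat_lit 0x6000003007008009011) (nat_lit 64)) (.one (nat_lit 0x6000003007008009010600e0d1812020611)) (.br (Nat.shiftLeft (nat_lit 0x1800001) (nat_lit 114)) (.one (nat_lit 0x6000003007008009011600e0d1812022611)) (.one (nat_lit 0x6000004007008009010800e0d1812020611))))))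
def t314 : k314.all (jb2 57 fl b0) = true := by decide +kernel
noncomputable def k315 : KT := (.br (Nat.shiftLeft (nat_lit 0x3800003) (nat_lit 113)) (.br (Nat.shiftLeft (nat_lit 0x7000003) (nat_lit 112)) (.br (Nat.shiftLeft (nat_lit 0x3000003) (nat_lit 113)) (.br (Nat.shiftLeft (nat_lit 0x6000005) (nat_lit 112)) (.one (nat_lit 0x6000004007008009011800e0d1812022611)) (.one (nat_lit 0x6000005007008009010a00e0d1812020611))) (.br (Nat.shiftLeft (nat_lit 0x7) (nat_lit 136)) (.one (nat_lit 0x6000006007008009010c00e0d1812020611)) (.one (nat_lit 0x7000002007008009010400e0f1c12020611)))) (.br (Nat.shiftLeft (nat_lit 0x1c00001) (nat_lit 114)) (.br (Nat.shiftLeft (nat_lit 0x7000003007008009011) (nat_lit 64)) (.one (nat_lit 0x7000003007008009010600e0f1c12020611)) (.one (nat_lit 0x7000003007008009011600e0f1c12022611))) (.br (Nat.shiftLeft (nat_lit 0x7000004007008009011) (nat_lit 64)) (.one (nat_lit 0x7000004007008009010800e0f1c12020611)) (.br (Nat.shiftLeft (nat_lit 0x7000005) (nat_lit 112)) (.one (nat_lit 0x7000004007008009011800e0f1c12022611))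 (.one (nat_lit 0x7000005007008009010a00e0f1c12020611)))))) (.br (Nat.shiftLeft (nat_lit 0x8000004007008009011) (nat_lit 64)) (.br (Nat.shiftLeft (nat_lit 0x8000003) (nat_lit 112)) (.br (Nat.shiftLeft (nat_lit 0x1) (nat_lit 139)) (.one (nat_lit 0x7000006007008009010c00e0f1c12020611)) (.one (nat_lit 0x8000002007008009010400e112012020611))) (.br (Nat.shiftLeft (nat_lit 0x8000003007008009011) (nat_lit 64)) (.one (nat_lit 0x8000003007008009010600e112012020611)) (.br (Nat.shiftLeft (nat_lit 0x2000001) (nat_lit 114)) (.one (nat_lit 0x8000003007008009011600e112012022611)) (.one (nat_lit 0x8000004007008009010800e112012020611))))) (.br (Nat.shiftLeft (nat_lit 0x4000003) (nat_lit 113)) (.br (Nat.shiftLeft (nat_lit 0x8000005) (nat_lit 112)) (.one (nat_lit 0x8000004007008009011800e112012022611)) (.one (nat_lit 0x8000005007008009010a00e112012020611))) (.br (Nat.shiftLeft (nat_lit 0x9) (nat_lit 136)) (.one (nat_lit 0x8000006007008009010c00e112012020611)) (.br (Nat.shiftLeft (nat_lit 0x9000003) (nat_lit 112)) (.one (nat_lit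 0x9000002007008009010400e132412020611)) (.one (nat_lit 0x9000003007008009010600e132412020611)))))))
def t315 : k315.all (jb2 57 fl b0) = true := by decide +kernel
noncomputable def k316 : KT := (.br (Nat.shiftLeft (nat_lit 0x9000004007008009011) (nat_lit 64)) (.br (Nat.shiftLeft (nat_lit 0x2400001) (nat_lit 114)) (.one (nat_lit 0x9000003007008009011600e132412022611)) (.one (nat_lit 0x9000004007008009010800e132412020611))) (.br (Nat.shiftLeft (nat_lit 0x9000005) (nat_lit 112)) (.one (nat_lit 0x9000004007008009011800e132412022611)) (.br (Nat.shiftLeft (nat_lit 0x4800003) (nat_lit 113)) (.one (nat_lit 0x9000005007008009010a00e132412020611)) (.one (nat_lit 0x9000006007008009010c00e132412020611)))))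
def t316 : k316.all (jb2 57 fl b0) = true := by decide +kernel
noncomputable def s17 : KT := (.br (nat_lit 0x1003007008009010600e010032420760) (.br (nat_lit 0x4007008009011800e010012023600) (.br (nat_lit 0x2007008009010400e010012021600) (.br (nat_lit 0x1007008009010200e010012020650) k293 (.br (nat_lit 0x1007008009011200e010012022650) k294 k295)) (.br (nat_lit 0x2007008009011400e010012022650) k296 (.br (nat_lit 0x3007008009011600e010012023600) k297 k298))) (.br (nat_lit 0x6007008009010c00e010012021600) (.br (nat_lit 0x5007008009010a00e010012021600) k299 (.br (nat_lit 0x5007008009011a00e010012022650) k300 k301)) (.br (nat_lit 0x6007008009011c00e010012022650) k302 (.br (nat_lit 0x1000007008009012000e010032424511) k303 k304)))) (.br (nat_lit 0x5000007008009010000e0100b3420511) (.br (nat_lit 0x2004007008009010800e010052820760) (.br (nat_lit 0x1004007008009011800e010032422760) k305 (.br (nat_lit 0x2003007008009010600e010052820760) k306 k307)) (.br (nat_lit 0x3000007008009012000e010072c24511) k308 (.br (nat_lit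 0x3005007008009010a00e010072c20760) k309 k310))) (.br (nat_lit 0x5000002007008009010400e0b1412020611) (.br (nat_lit 0x6000007008009012000e0100d3824511) k311 (.br (nat_lit 0x9000007008009010000e010134420511) k312 k313)) (.br (nat_lit 0x6000004007008009010800e0d1812020611) k314 (.br (nat_lit 0x9000003007008009010600e132412020611) k315 k316)))))
noncomputable def u17 : KT := (.br (Nat.shiftLeft (nat_lit 0x7008009011) (nat_lit 64)) (.one (nat_lit 0x7008009010000e010012020540)) (.br (Nat.shiftLeft (nat_lit 0x3804004809) (nat_lit 65)) (.one (nat_lit 0x7008009011000e010012022540)) (.one (nat_lit 0x7008009012000e010012024540))))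
def w17 : u17.all (wj 57 s17) = true := by decide +kernel
def o17 : OkW 57 (jb2 57 fl) u17 := .lift s17 _ (.br _ _ _ (.br _ _ _ (.br _ _ _ (.br _ _ _ (.leaf b0 k293 t293) (.br _ _ _ (.leaf b0 k294 t294) (.leaf b0 k295 t295))) (.br _ _ _ (.leaf b0 k296 t296) (.br _ _ _ (.leaf b0 k297 t297) (.leaf b0 k298 t298)))) (.br _ _ _ (.br _ _ _ (.leaf b0 k299 t299) (.br _ _ _ (.leaf b0 k300 t300) (.leaf b0 k301 t301))) (.br _ _ _ (.leaf b0 k302 t302) (.br _ _ _ (.leaf b0 k303 t303) (.leaf b0 k304 t304))))) (.br _ _ _ (.br _ _ _ (.br _ _ _ (.leaf b0 k305 t305) (.br _ _ _ (.leaf b0 k306 t306) (.leaf b0 k307 t307))) (.br _ _ _ (.leaf b0 k308 t308) (.br _ _ _ (.leaf b0 k309 t309) (.leaf b0 k310 t310)))) (.br _ _ _ (.br _ _ _ (.leaf b0 k311 t311) (.br _ _ _ (.leaf b0 k312 t312) (.leaf b0 k313 t313))) (.br _ _ _ (.leaf b0 k314 t314) (.br _ _ _ (.leaf b0 k315 t315) (.leaf b0 k316 t316)))))) w17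
noncomputable def k317 : KT := (.br (Nat.shiftLeft (nat_lit 0x1c02002803) (nat_lit 66)) (.br (Nat.shiftLeft (nat_lit 0x3804005) (nat_lit 77)) (.one (nat_lit 0x7008009013000e010012027500)) (.one (nat_lit 0x700800a00b000e010014017500))) (.br (Nat.shiftLeft (nat_lit 0x1) (nat_lit 112)) (.one (nat_lit 0x700800a00c000e010014019500)) (.br (Nat.shiftLeft (nat_lit 0x1) (nat_lit 113)) (.one (nat_lit 0x1007008009013200e010012026650)) (.one (nat_lit 0x2007008009013400e010012026650)))))
def t317 : k317.all (jb2 57 fl b0) = true := by decide +kernel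
noncomputable def k318 : KT := (.one (nat_lit 0x3007008009013600e010012026650))
def t318 : k318.all (jb2 57 fl b0) = true := by decide +kernel
noncomputable def k319 : KT := (.br (Nat.shiftLeft (nat_lit 0x5) (nat_lit 112)) (.one (nat_lit 0x4007008009013800e010012026650)) (.one (nat_lit 0x5007008009013a00e010012026650)))
def t319 : k319.all (jb2 57 fl b0) = true := by decide +kernel
noncomputable def k320 : KT := (.br (Nat.shiftLeft (nat_lit 0x5) (nat_lit 124)) (.br (Nat.shiftLeft (nat_lit 0x1) (nat_lit 125)) (.br (Nat.shiftLeft (nat_lit 0x1) (nat_lit 124)) (.one (nat_lit 0x6007008009013c00e010012026650)) (.one (nat_lit 0x1000007008009013000e010032426511))) (.br (Nat.shiftLeft (nat_lit 0x3) (nat_lit 124)) (.one (nat_lit 0x2000007008009013000e010052826511)) (.br (Nat.shiftLeft (nat_lit 0x1) (nat_lit 126)) (.one (nat_lit 0x3000007008009013000e010072c26511)) (.one (nat_lit 0x4000007008009013000e010093026511))))) (.br (Nat.shiftLeft (nat_lit 0x7) (nat_lit 124)) (.br (Nat.shiftLeft (nat_lit 0x3) (nat_lit 125))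 (.one (nat_lit 0x5000007008009013000e0100b3426511)) (.one (nat_lit 0x6000007008009013000e0100d3826511))) (.br (Nat.shiftLeft (nat_lit 0x1) (nat_lit 127)) (.one (nat_lit 0x7000007008009013000e0100f3c26511)) (.br (Nat.shiftLeft (nat_lit 0x9) (nat_lit 124)) (.one (nat_lit 0x8000007008009013000e010114026511)) (.one (nat_lit 0x9000007008009013000e010134426511))))))
def t320 : k320.all (jb2 57 fl b0) = true := by decide +kernel
noncomputable def s18 : KT := (.br (nat_lit 0x3007008009013600e010012026650) (.br (nat_lit 0x2007008009013400e010012026650) k317 k318) (.br (nat_lit 0x5007008009013a00e010012026650) k319 k320))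
noncomputable def u18 : KT := (.br (Nat.shiftLeft (nat_lit 0x3804005) (nat_lit 77)) (.one (nat_lit 0x7008009013000e010012026540)) (.br (Nat.shiftLeft (nat_lit 0x1c02002803) (nat_lit 66)) (.one (nat_lit 0x700800a00b000e010014017500)) (.one (nat_lit 0x700800a00c000e010014019500))))
def w18 : u18.all (wj 57 s18) = true := by decide +kernel
def o18 : OkW 57 (jb2 57 fl) u18 := .lift s18 _ (.br _ _ _ (.br _ _ _ (.leaf b0 k317 t317) (.leaf b0 k318 t318)) (.br _ _ _ (.leaf b0 k319 t319) (.leaf b0 k320 t320))) w18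
noncomputable def k321 : KT := (.br (Nat.shiftLeft (nat_lit 0x5) (nat_lit 112)) (.br (Nat.shiftLeft (nat_lit 0x1) (nat_lit 113)) (.br (Nat.shiftLeft (nat_lit 0x1) (nat_lit 112)) (.one (nat_lit 0x700800a00d000e01001401b500)) (.one (nat_lit 0x100700800a00d200e01001401b600))) (.br (Nat.shiftLeft (nat_lit 0x3) (nat_lit 112)) (.one (nat_lit 0x200700800a00d400e01001401b600)) (.br (Nat.shiftLeft (nat_lit 0x1) (nat_lit 114)) (.one (nat_lit 0x300700800a00d600e01001401b600)) (.one (nat_lit 0x400700800a00d800e01001401b600))))) (.br (Nat.shiftLeft (nat_lit 0x801) (nat_lit 113)) (.br (Nat.shiftLeft (nat_lit 0x3) (nat_lit 113)) (.one (nat_lit 0x500700800a00da00e01001401b600)) (.br (Nat.shiftLeft (nat_lit 0x1) (nat_lit 124)) (.one (nat_lit 0x600700800a00dc00e01001401b600)) (.one (nat_lit 0x100000700800a00d000e01003441a511)))) (.br (Nat.shiftLeft (nat_lit 0x1003) (nat_lit 112)) (.one (nat_lit 0x100200700800a00d400e01003441b700)) (.br (Nat.shiftLeft (nat_lit 0x401) (nat_lit 114)) (.one (nat_lit 0x100300700800a00d600e01003441b700))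 (.one (nat_lit 0x100400700800a00d800e01003441a760))))))
def t321 : k321.all (jb2 57 fl b0) = true := by decide +kernel
noncomputable def k322 : KT := (.br (Nat.shiftLeft (nat_lit 0x1) (nat_lit 125)) (.br (Nat.shiftLeft (nat_lit 0x803) (nat_lit 113)) (.one (nat_lit 0x100500700800a00da00e01003441a760)) (.one (nat_lit 0x100600700800a00dc00e01003441a760))) (.br (Nat.shiftLeft (nat_lit 0x1001) (nat_lit 113)) (.one (nat_lit 0x200000700800a00d000e01005481a511)) (.one (nat_lit 0x200300700800a00d600e01005481b700))))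
def t322 : k322.all (jb2 57 fl b0) = true := by decide +kernel
noncomputable def k323 : KT := (.one (nat_lit 0x200400700800a00d800e01005481a760))
def t323 : k323.all (jb2 57 fl b0) = true := by decide +kernel
noncomputable def k324 : KT := (.one (nat_lit 0x200500700800a00da00e01005481a760))
def t324 : k324.all (jb2 57 fl b0) = true := by decide +kernel
noncomputable def k325 : KT := (.br (Nat.shiftLeft (nat_lit 0x3) (nat_lit 124)) (.one (nat_lit 0x200600700800a00dc00e01005481a760)) (.one (nat_lit 0x300000700800a00d000e010074c1a511)))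
def t325 : k325.all (jb2 57 fl b0) = true := by decide +kernel
noncomputable def k326 : KT := (.one (nat_lit 0x300400700800a00d800e010074c1a760))
def t326 : k326.all (jb2 57 fl b0) = true := by decide +kernel
noncomputable def k327 : KT := (.one (nat_lit 0x300500700800a00da00e010074c1a760))
def t327 : k327.all (jb2 57 fl b0) = true := by decide +kernel
noncomputable def k328 : KT := (.br (Nat.shiftLeft (nat_lit 0x1) (nat_lit 126)) (.one (nat_lit 0x300600700800a00dc00e010074c1a760)) (.one (nat_lit 0x400000700800a00d000e01009501a511)))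
def t328 : k328.all (jb2 57 fl b0) = true := by decide +kernel
noncomputable def k329 : KT := (.br (Nat.shiftLeft (nat_lit 0x2003) (nat_lit 113)) (.one (nat_lit 0x400500700800a00da00e01009501a760)) (.one (nat_lit 0x400600700800a00dc00e01009501a760)))
def t329 : k329.all (jb2 57 fl b0) = true := by decide +kernel
noncomputable def k330 : KT := (.br (Nat.shiftLeft (nat_lit 0x1401) (nat_lit 114)) (.one (nat_lit 0x500000700800a00d000e0100b541a511)) (.br (Nat.shiftLeft (nat_lit 0x3) (nat_lit 125)) (.one (nat_lit 0x500600700800a00dc00e0100b541a760)) (.one (nat_lit 0x600000700800a00d000e0100d581a511))))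
def t330 : k330.all (jb2 57 fl b0) = true := by decide +kernel
noncomputable def k331 : KT := (.br (Nat.shiftLeft (nat_lit 0x1) (nat_lit 127)) (.one (nat_lit 0x700000700800a00d000e0100f5c1a511)) (.one (nat_lit 0x800000700800a00d000e01011601a511)))
def t331 : k331.all (jb2 57 fl b0) = true := by decide +kernel
noncomputable def k332 : KT := (.br (Nat.shiftLeft (nat_lit 0x400001) (nat_lit 114)) (.br (Nat.shiftLeft (nat_lit 0x1) (nat_lit 136)) (.br (Nat.shiftLeft (nat_lit 0x5) (nat_lit 125)) (.one (nat_lit 0x900000700800a00d000e01013641a511)) (.one (nat_lit 0xa00000700800a00d000e01015681a511))) (.br (Nat.shiftLeft (nat_lit 0x800001) (nat_lit 113)) (.one (nat_lit 0x100000100700800a00d200e03041401a611)) (.br (Nat.shiftLeft (nat_lit 0x1000003) (nat_lit 112)) (.one (nat_lit 0x100000200700800a00d400e03041401a611)) (.one (nat_lit 0x100000300700800a00d600e03041401a611))))) (.br (Nat.shiftLeft (nat_lit 0x800003) (nat_lit 113)) (.br (Nat.shiftLeft (nat_lit 0x1000005) (nat_lit 112)) (.one (nat_lit 0x100000400700800a00d800e03041401a611))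 (.one (nat_lit 0x100000500700800a00da00e03041401a611))) (.br (Nat.shiftLeft (nat_lit 0x801) (nat_lit 125)) (.one (nat_lit 0x100000600700800a00dc00e03041401a611)) (.br (Nat.shiftLeft (nat_lit 0x1) (nat_lit 137)) (.one (nat_lit 0x100200300700800a00d600e03045481a870)) (.one (nat_lit 0x200000100700800a00d200e05081401a611))))))
def t332 : k332.all (jb2 57 fl b0) = true := by decide +kernel
noncomputable def k333 : KT := (.br (Nat.shiftLeft (nat_lit 0xc00001) (nat_lit 114)) (.br (Nat.shiftLeft (nat_lit 0x1000003) (nat_lit 113)) (.br (Nat.shiftLeft (nat_lit 0x800001) (nat_lit 114)) (.br (Nat.shiftLeft (nat_lit 0x2000003) (nat_lit 112)) (.one (nat_lit 0x200000200700800a00d400e05081401a611)) (.one (nat_lit 0x200000300700800a00d600e05081401a611))) (.br (Nat.shiftLeft (nat_lit 0x2000005) (nat_lit 112)) (.one (nat_lit 0x200000400700800a00d800e05081401a611)) (.one (nat_lit 0x200000500700800a00da00e05081401a611)))) (.br (Nat.shiftLeft (nat_lit 0x1800001) (nat_lit 113)) (.br (Nat.shiftLeft (nat_lit 0x3) (nat_lit 136))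 (.one (nat_lit 0x200000600700800a00dc00e05081401a611)) (.one (nat_lit 0x300000100700800a00d200e070c1401a611))) (.br (Nat.shiftLeft (nat_lit 0x3000003) (nat_lit 112)) (.one (nat_lit 0x300000200700800a00d400e070c1401a611)) (.one (nat_lit 0x300000300700800a00d600e070c1401a611))))) (.br (Nat.shiftLeft (nat_lit 0x2000001) (nat_lit 113)) (.br (Nat.shiftLeft (nat_lit 0x1800003) (nat_lit 113)) (.br (Nat.shiftLeft (nat_lit 0x3000005) (nat_lit 112)) (.one (nat_lit 0x300000400700800a00d800e070c1401a611)) (.one (nat_lit 0x300000500700800a00da00e070c1401a611))) (.br (Nat.shiftLeft (nat_lit 0x1) (nat_lit 138)) (.one (nat_lit 0x300000600700800a00dc00e070c1401a611)) (.one (nat_lit 0x400000100700800a00d200e09101401a611)))) (.br (Nat.shiftLeft (nat_lit 0x1000001) (nat_lit 114)) (.br (Nat.shiftLeft (nat_lit 0x4000003) (nat_lit 112)) (.one (nat_lit 0x400000200700800a00d400e09101401a611)) (.one (nat_lit 0x400000300700800a00d600e09101401a611))) (.br (Nat.shiftLeft (nat_lit 0x4000005) (nat_lit 112)) (.one (nat_lit 0x400000400700800a00d800e09101401a611))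 (.br (Nat.shiftLeft (nat_lit 0x2000003) (nat_lit 113)) (.one (nat_lit 0x400000500700800a00da00e09101401a611)) (.one (nat_lit 0x400000600700800a00dc00e09101401a611)))))))
def t333 : k333.all (jb2 57 fl b0) = true := by decide +kernel
noncomputable def k334 : KT := (.br (Nat.shiftLeft (nat_lit 0x2800001) (nat_lit 113)) (.one (nat_lit 0x500000100700800a00d200e0b141401a611)) (.br (Nat.shiftLeft (nat_lit 0x5000003) (nat_lit 112)) (.one (nat_lit 0x500000200700800a00d400e0b141401a611)) (.one (nat_lit 0x500000300700800a00d600e0b141401a611))))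
def t334 : k334.all (jb2 57 fl b0) = true := by decide +kernel
noncomputable def k335 : KT := (.br (Nat.shiftLeft (nat_lit 0x2800003) (nat_lit 113)) (.br (Nat.shiftLeft (nat_lit 0x5000005) (nat_lit 112)) (.one (nat_lit 0x500000400700800a00d800e0b141401a611)) (.one (nat_lit 0x500000500700800a00da00e0b141401a611))) (.br (Nat.shiftLeft (nat_lit 0x3) (nat_lit 137)) (.one (nat_lit 0x500000600700800a00dc00e0b141401a611)) (.one (nat_lit 0x600000100700800a00d200e0d181401a611))))
def t335 : k335.all (jb2 57 fl b0) = true := by decide +kernel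
noncomputable def k336 : KT := (.br (Nat.shiftLeft (nat_lit 0x6000003) (nat_lit 112)) (.one (nat_lit 0x600000200700800a00d400e0d181401a611)) (.br (Nat.shiftLeft (nat_lit 0x1800001) (nat_lit 114)) (.one (nat_lit 0x600000300700800a00d600e0d181401a611)) (.one (nat_lit 0x600000400700800a00d800e0d181401a611))))
def t336 : k336.all (jb2 57 fl b0) = true := by decide +kernel
noncomputable def k337 : KT := (.br (Nat.shiftLeft (nat_lit 0x3000003) (nat_lit 113)) (.one (nat_lit 0x600000500700800a00da00e0d181401a611)) (.br (Nat.shiftLeft (nat_lit 0x7) (nat_lit 136)) (.one (nat_lit 0x600000600700800a00dc00e0d181401a611)) (.one (nat_lit 0x700000100700800a00d200e0f1c1401a611))))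
def t337 : k337.all (jb2 57 fl b0) = true := by decide +kernel
noncomputable def k338 : KT := (.br (Nat.shiftLeft (nat_lit 0x1c00001) (nat_lit 114)) (.br (Nat.shiftLeft (nat_lit 0x7000003) (nat_lit 112)) (.one (nat_lit 0x700000200700800a00d400e0f1c1401a611)) (.one (nat_lit 0x700000300700800a00d600e0f1c1401a611))) (.br (Nat.shiftLeft (nat_lit 0x7000005) (nat_lit 112)) (.one (nat_lit 0x700000400700800a00d800e0f1c1401a611)) (.br (Nat.shiftLeft (nat_lit 0x3800003) (nat_lit 113)) (.one (nat_lit 0x700000500700800a00da00e0f1c1401a611)) (.one (nat_lit 0x700000600700800a00dc00e0f1c1401a611)))))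
def t338 : k338.all (jb2 57 fl b0) = true := by decide +kernel
noncomputable def k339 : KT := (.br (Nat.shiftLeft (nat_lit 0x8000003) (nat_lit 112)) (.br (Nat.shiftLeft (nat_lit 0x4000001) (nat_lit 113)) (.one (nat_lit 0x800000100700800a00d200e11201401a611)) (.one (nat_lit 0x800000200700800a00d400e11201401a611))) (.br (Nat.shiftLeft (nat_lit 0x2000001) (nat_lit 114)) (.one (nat_lit 0x800000300700800a00d600e11201401a611)) (.one (nat_lit 0x800000400700800a00d800e11201401a611))))
def t339 : k339.all (jb2 57 fl b0) = true := by decide +kernel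
noncomputable def k340 : KT := (.br (Nat.shiftLeft (nat_lit 0x2400001) (nat_lit 114)) (.br (Nat.shiftLeft (nat_lit 0x9) (nat_lit 136)) (.br (Nat.shiftLeft (nat_lit 0x4000003) (nat_lit 113)) (.one (nat_lit 0x800000500700800a00da00e11201401a611)) (.one (nat_lit 0x800000600700800a00dc00e11201401a611))) (.br (Nat.shiftLeft (nat_lit 0x4800001) (nat_lit 113)) (.one (nat_lit 0x900000100700800a00d200e13241401a611)) (.br (Nat.shiftLeft (nat_lit 0x9000003) (nat_lit 112)) (.one (nat_lit 0x900000200700800a00d400e13241401a611)) (.one (nat_lit 0x900000300700800a00d600e13241401a611))))) (.br (Nat.shiftLeft (nat_lit 0x4800003) (nat_lit 113)) (.br (Nat.shiftLeft (nat_lit 0x9000005) (nat_lit 112)) (.one (nat_lit 0x900000400700800a00d800e13241401a611)) (.one (nat_lit 0x900000500700800a00da00e13241401a611))) (.br (Nat.shiftLeft (nat_lit 0x5) (nat_lit 137)) (.one (nat_lit 0x900000600700800a00dc00e13241401a611)) (.br (Nat.shiftLeft (nat_lit 0x5000001) (nat_lit 113)) (.one (nat_lit 0xa00000100700800a00d200e15281401a611)) (.one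 (nat_lit 0xa00000200700800a00d400e15281401a611))))))
def t340 : k340.all (jb2 57 fl b0) = true := by decide +kernel
noncomputable def k341 : KT := (.br (Nat.shiftLeft (nat_lit 0x2000001003) (nat_lit 112)) (.br (Nat.shiftLeft (nat_lit 0x1) (nat_lit 148)) (.br (Nat.shiftLeft (nat_lit 0xa000005) (nat_lit 112)) (.br (Nat.shiftLeft (nat_lit 0x2800001) (nat_lit 114)) (.one (nat_lit 0xa00000300700800a00d600e15281401a611)) (.one (nat_lit 0xa00000400700800a00d800e15281401a611))) (.br (Nat.shiftLeft (nat_lit 0x5000003) (nat_lit 113)) (.one (nat_lit 0xa00000500700800a00da00e15281401a611)) (.one (nat_lit 0xa00000600700800a00dc00e15281401a611)))) (.br (Nat.shiftLeft (nat_lit 0x800001) (nat_lit 125)) (.br (Nat.shiftLeft (nat_lit 0x1000001003) (nat_lit 112)) (.one (nat_lit 0x100000100200700800a00d402e41003441a711)) (.one (nat_lit 0x100000100300700800a00d602e41003441a711))) (.br (Nat.shiftLeft (nat_lit 0x1) (nat_lit 149)) (.one (nat_lit 0x100000200300700800a00d602e41005481a711)) (.one (nat_lit 0x200000100200700800a00d404e81003441a711)))))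 (.br (Nat.shiftLeft (nat_lit 0x1800001) (nat_lit 125)) (.br (Nat.shiftLeft (nat_lit 0x3) (nat_lit 148)) (.br (Nat.shiftLeft (nat_lit 0x1000001) (nat_lit 125)) (.one (nat_lit 0x200000100300700800a00d604e81003441a711)) (.one (nat_lit 0x200000200300700800a00d604e81005481a711))) (.br (Nat.shiftLeft (nat_lit 0x3000001003) (nat_lit 112)) (.one (nat_lit 0x300000100200700800a00d406ec1003441a711)) (.one (nat_lit 0x300000100300700800a00d606ec1003441a711)))) (.br (Nat.shiftLeft (nat_lit 0x4000001003) (nat_lit 112)) (.br (Nat.shiftLeft (nat_lit 0x1) (nat_lit 150)) (.one (nat_lit 0x300000200300700800a00d606ec1005481a711)) (.one (nat_lit 0x400000100200700800a00d408f01003441a711))) (.br (Nat.shiftLeft (nat_lit 0x2000001) (nat_lit 125)) (.one (nat_lit 0x400000100300700800a00d608f01003441a711)) (.br (Nat.shiftLeft (nat_lit 0x5) (nat_lit 148)) (.one (nat_lit 0x400000200300700800a00d608f01005481a711)) (.one (nat_lit 0x500000100200700800a00d40af41003441a711)))))))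
def t341 : k341.all (jb2 57 fl b0) = true := by decide +kernel
noncomputable def k342 : KT := (.br (Nat.shiftLeft (nat_lit 0x3) (nat_lit 149)) (.br (Nat.shiftLeft (nat_lit 0x2800001) (nat_lit 125)) (.one (nat_lit 0x500000100300700800a00d60af41003441a711)) (.one (nat_lit 0x500000200300700800a00d60af41005481a711))) (.br (Nat.shiftLeft (nat_lit 0x6000001003) (nat_lit 112)) (.one (nat_lit 0x600000100200700800a00d40cf81003441a711)) (.one (nat_lit 0x600000100300700800a00d60cf81003441a711))))
def t342 : k342.all (jb2 57 fl b0) = true := by decide +kernel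
noncomputable def k343 : KT := (.br (Nat.shiftLeft (nat_lit 0x7000001003) (nat_lit 112)) (.br (Nat.shiftLeft (nat_lit 0x7) (nat_lit 148)) (.one (nat_lit 0x600000200300700800a00d60cf81005481a711)) (.one (nat_lit 0x700000100200700800a00d40efc1003441a711))) (.br (Nat.shiftLeft (nat_lit 0x3800001) (nat_lit 125)) (.one (nat_lit 0x700000100300700800a00d60efc1003441a711)) (.br (Nat.shiftLeft (nat_lit 0x1) (nat_lit 151)) (.one (nat_lit 0x700000200300700800a00d60efc1005481a711)) (.one (nat_lit 0x800000100200700800a00d411001003441a711)))))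
def t343 : k343.all (jb2 57 fl b0) = true := by decide +kernel
noncomputable def k344 : KT := (.br (Nat.shiftLeft (nat_lit 0x4800001) (nat_lit 125)) (.br (Nat.shiftLeft (nat_lit 0x9) (nat_lit 148)) (.br (Nat.shiftLeft (nat_lit 0x4000001) (nat_lit 125)) (.one (nat_lit 0x800000100300700800a00d611001003441a711)) (.one (nat_lit 0x800000200300700800a00d611001005481a711))) (.br (Nat.shiftLeft (nat_lit 0x9000001003) (nat_lit 112)) (.one (nat_lit 0x900000100200700800a00d413041003441a711)) (.one (nat_lit 0x900000100300700800a00d613041003441a711)))) (.br (Nat.shiftLeft (nat_lit 0xa000001003) (nat_lit 112)) (.br (Nat.shiftLeft (nat_lit 0x5) (nat_lit 149)) (.one (nat_lit 0x900000200300700800a00d613041005481a711)) (.one (nat_lit 0xa00000100200700800a00d415081003441a711))) (.br (Nat.shiftLeft (nat_lit 0x5000001) (nat_lit 125)) (.one (nat_lit 0xa00000100300700800a00d615081003441a711)) (.one (nat_lit 0xa00000200300700800a00d615081005481a711)))))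
def t344 : k344.all (jb2 57 fl b0) = true := by decide +kernel
noncomputable def s19 : KT := (.br (nat_lit 0x200000100700800a00d200e05081401a611) (.br (nat_lit 0x300400700800a00d800e010074c1a760) (.br (nat_lit 0x200400700800a00d800e01005481a760) (.br (nat_lit 0x100400700800a00d800e01003441a760) k321 (.br (nat_lit 0x200300700800a00d600e01005481b700) k322 k323)) (.br (nat_lit 0x200500700800a00da00e01005481a760) k324 (.br (nat_lit 0x300000700800a00d000e010074c1a511) k325 k326))) (.br (nat_lit 0x400600700800a00dc00e01009501a760) (.br (nat_lit 0x300500700800a00da00e010074c1a760) k327 (.br (nat_lit 0x400000700800a00d000e01009501a511) k328 k329)) (.br (nat_lit 0x600000700800a00d000e0100d581a511) k330 (.br (nat_lit 0x800000700800a00d000e01011601a511) k331 k332)))) (.br (nat_lit 0x700000600700800a00dc00e0f1c1401a611) (.br (nat_lit 0x600000100700800a00d200e0d181401a611) (.br (nat_lit 0x400000600700800a00dc00e09101401a611) k333 (.br (nat_lit 0x500000300700800a00d600e0b141401a611) k334 k335)) (.br (nat_lit 0x600000400700800a00d800e0d181401a611)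 k336 (.br (nat_lit 0x700000100700800a00d200e0f1c1401a611) k337 k338))) (.br (nat_lit 0x500000100200700800a00d40af41003441a711) (.br (nat_lit 0x800000400700800a00d800e11201401a611) k339 (.br (nat_lit 0xa00000200700800a00d400e15281401a611) k340 k341)) (.br (nat_lit 0x600000100300700800a00d60cf81003441a711) k342 (.br (nat_lit 0x800000100200700800a00d411001003441a711) k343 k344)))))
noncomputable def u19 : KT := (.one (nat_lit 0x700800a00d000e01001401a540))
def w19 : u19.all (wj 57 s19) = true := by decide +kernel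
def o19 : OkW 57 (jb2 57 fl) u19 := .lift s19 _ (.br _ _ _ (.br _ _ _ (.br _ _ _ (.br _ _ _ (.leaf b0 k321 t321) (.br _ _ _ (.leaf b0 k322 t322) (.leaf b0 k323 t323))) (.br _ _ _ (.leaf b0 k324 t324) (.br _ _ _ (.leaf b0 k325 t325) (.leaf b0 k326 t326)))) (.br _ _ _ (.br _ _ _ (.leaf b0 k327 t327) (.br _ _ _ (.leaf b0 k328 t328) (.leaf b0 k329 t329))) (.br _ _ _ (.leaf b0 k330 t330) (.br _ _ _ (.leaf b0 k331 t331) (.leaf b0 k332 t332))))) (.br _ _ _ (.br _ _ _ (.br _ _ _ (.leaf b0 k333 t333) (.br _ _ _ (.leaf b0 k334 t334) (.leaf b0 k335 t335))) (.br _ _ _ (.leaf b0 k336 t336) (.br _ _ _ (.leaf b0 k337 t337) (.leaf b0 k338 t338)))) (.br _ _ _ (.br _ _ _ (.leaf b0 k339 t339) (.br _ _ _ (.leaf b0 k340 t340) (.leaf b0 k341 t341))) (.br _ _ _ (.leaf b0 k342 t342) (.br _ _ _ (.leaf b0 k343 t343) (.leaf b0 k344 t344)))))) w19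
noncomputable def k345 : KT := (.br (Nat.shiftLeft (nat_lit 0x1) (nat_lit 114)) (.br (Nat.shiftLeft (nat_lit 0x1) (nat_lit 113)) (.br (Nat.shiftLeft (nat_lit 0x1) (nat_lit 112)) (.one (nat_lit 0x700800a00e000e01001401d500)) (.one (nat_lit 0x100700800a00e200e01001401d600))) (.br (Nat.shiftLeft (nat_lit 0x3) (nat_lit 112)) (.one (nat_lit 0x200700800a00e400e01001401d600)) (.one (nat_lit 0x300700800a00e600e01001401d600)))) (.br (Nat.shiftLeft (nat_lit 0x3) (nat_lit 113)) (.br (Nat.shiftLeft (nat_lit 0x5) (nat_lit 112)) (.one (nat_lit 0x400700800a00e800e01001401d600)) (.one (nat_lit 0x500700800a00ea00e01001401d600))) (.br (Nat.shiftLeft (nat_lit 0x1) (nat_lit 124)) (.one (nat_lit 0x600700800a00ec00e01001401d600)) (.br (Nat.shiftLeft (nat_lit 0x801) (nat_lit 113)) (.one (nat_lit 0x100000700800a00e000e01003441c511)) (.one (nat_lit 0x100200700800a00e400e01003441c760))))))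
def t345 : k345.all (jb2 57 fl b0) = true := by decide +kernel
noncomputable def k346 : KT := (.one (nat_lit 0x100300700800a00e600e01003441c760))
def t346 : k346.all (jb2 57 fl b0) = true := by decide +kernel
noncomputable def k347 : KT := (.br (Nat.shiftLeft (nat_lit 0x1005) (nat_lit 112)) (.one (nat_lit 0x100400700800a00e800e01003441c760)) (.one (nat_lit 0x100500700800a00ea00e01003441c760)))
def t347 : k347.all (jb2 57 fl b0) = true := by decide +kernel
noncomputable def k348 : KT := (.br (Nat.shiftLeft (nat_lit 0x1) (nat_lit 125)) (.one (nat_lit 0x100600700800a00ec00e01003441c760)) (.one (nat_lit 0x200000700800a00e000e01005481c511)))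
def t348 : k348.all (jb2 57 fl b0) = true := by decide +kernel
noncomputable def k349 : KT := (.one (nat_lit 0x200300700800a00e600e01005481c760))
def t349 : k349.all (jb2 57 fl b0) = true := by decide +kernel
noncomputable def k350 : KT := (.one (nat_lit 0x200400700800a00e800e01005481c760))
def t350 : k350.all (jb2 57 fl b0) = true := by decide +kernel
noncomputable def k351 : KT := (.br (Nat.shiftLeft (nat_lit 0x1003) (nat_lit 113)) (.one (nat_lit 0x200500700800a00ea00e01005481c760)) (.br (Nat.shiftLeft (nat_lit 0x3) (nat_lit 124)) (.one (nat_lit 0x200600700800a00ec00e01005481c760)) (.one (nat_lit 0x300000700800a00e000e010074c1c511))))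
def t351 : k351.all (jb2 57 fl b0) = true := by decide +kernel
noncomputable def k352 : KT := (.one (nat_lit 0x300400700800a00e800e010074c1c760))
def t352 : k352.all (jb2 57 fl b0) = true := by decide +kernel
noncomputable def k353 : KT := (.br (Nat.shiftLeft (nat_lit 0x1803) (nat_lit 113)) (.one (nat_lit 0x300500700800a00ea00e010074c1c760)) (.br (Nat.shiftLeft (nat_lit 0x1) (nat_lit 126)) (.one (nat_lit 0x300600700800a00ec00e010074c1c760)) (.one (nat_lit 0x400000700800a00e000e01009501c511))))
def t353 : k353.all (jb2 57 fl b0) = true := by decide +kernel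
noncomputable def k354 : KT := (.br (Nat.shiftLeft (nat_lit 0x5) (nat_lit 124)) (.br (Nat.shiftLeft (nat_lit 0x2003) (nat_lit 113)) (.one (nat_lit 0x400500700800a00ea00e01009501c760)) (.one (nat_lit 0x400600700800a00ec00e01009501c760))) (.br (Nat.shiftLeft (nat_lit 0x1401) (nat_lit 114)) (.one (nat_lit 0x500000700800a00e000e0100b541c511)) (.one (nat_lit 0x500600700800a00ec00e0100b541c760))))
def t354 : k354.all (jb2 57 fl b0) = true := by decide +kernel
noncomputable def k355 : KT := (.br (Nat.shiftLeft (nat_lit 0x7) (nat_lit 124)) (.one (nat_lit 0x600000700800a00e000e0100d581c511)) (.br (Nat.shiftLeft (nat_lit 0x1) (nat_lit 127)) (.one (nat_lit 0x700000700800a00e000e0100f5c1c511)) (.one (nat_lit 0x800000700800a00e000e01011601c511))))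
def t355 : k355.all (jb2 57 fl b0) = true := by decide +kernel
noncomputable def k356 : KT := (.br (Nat.shiftLeft (nat_lit 0x2000005) (nat_lit 112)) (.br (Nat.shiftLeft (nat_lit 0x1000005) (nat_lit 112)) (.br (Nat.shiftLeft (nat_lit 0x800001) (nat_lit 113)) (.br (Nat.shiftLeft (nat_lit 0x5) (nat_lit 125)) (.one (nat_lit 0x900000700800a00e000e01013641c511)) (.br (Nat.shiftLeft (nat_lit 0x1) (nat_lit 136)) (.one (nat_lit 0xa00000700800a00e000e01015681c511)) (.one (nat_lit 0x100000100700800a00e200e03041401c611)))) (.br (Nat.shiftLeft (nat_lit 0x1000003) (nat_lit 112)) (.one (nat_lit 0x100000200700800a00e400e03041401c611)) (.br (Nat.shiftLeft (nat_lit 0x400001) (nat_lit 114)) (.one (nat_lit 0x100000300700800a00e600e03041401c611)) (.one (nat_lit 0x100000400700800a00e800e03041401c611))))) (.br (Nat.shiftLeft (nat_lit 0x1000001) (nat_lit 113)) (.br (Nat.shiftLeft (nat_lit 0x800003) (nat_lit 113)) (.one (nat_lit 0x100000500700800a00ea00e03041401c611)) (.br (Nat.shiftLeft (nat_lit 0x1) (nat_lit 137)) (.one (nat_lit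 0x100000600700800a00ec00e03041401c611)) (.one (nat_lit 0x200000100700800a00e200e05081401c611)))) (.br (Nat.shiftLeft (nat_lit 0x2000003) (nat_lit 112)) (.one (nat_lit 0x200000200700800a00e400e05081401c611)) (.br (Nat.shiftLeft (nat_lit 0x800001) (nat_lit 114)) (.one (nat_lit 0x200000300700800a00e600e05081401c611)) (.one (nat_lit 0x200000400700800a00e800e05081401c611)))))) (.br (Nat.shiftLeft (nat_lit 0x3000005) (nat_lit 112)) (.br (Nat.shiftLeft (nat_lit 0x1800001) (nat_lit 113)) (.br (Nat.shiftLeft (nat_lit 0x1000003) (nat_lit 113)) (.one (nat_lit 0x200000500700800a00ea00e05081401c611)) (.br (Nat.shiftLeft (nat_lit 0x3) (nat_lit 136)) (.one (nat_lit 0x200000600700800a00ec00e05081401c611)) (.one (nat_lit 0x300000100700800a00e200e070c1401c611)))) (.br (Nat.shiftLeft (nat_lit 0x3000003) (nat_lit 112)) (.one (nat_lit 0x300000200700800a00e400e070c1401c611)) (.br (Nat.shiftLeft (nat_lit 0xc00001) (nat_lit 114)) (.one (nat_lit 0x300000300700800a00e600e070c1401c611)) (.one (nat_lit 0x300000400700800a00e800e070c1401c611)))))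 (.br (Nat.shiftLeft (nat_lit 0x2000001) (nat_lit 113)) (.br (Nat.shiftLeft (nat_lit 0x1800003) (nat_lit 113)) (.one (nat_lit 0x300000500700800a00ea00e070c1401c611)) (.br (Nat.shiftLeft (nat_lit 0x1) (nat_lit 138)) (.one (nat_lit 0x300000600700800a00ec00e070c1401c611)) (.one (nat_lit 0x400000100700800a00e200e09101401c611)))) (.br (Nat.shiftLeft (nat_lit 0x1000001) (nat_lit 114)) (.br (Nat.shiftLeft (nat_lit 0x4000003) (nat_lit 112)) (.one (nat_lit 0x400000200700800a00e400e09101401c611)) (.one (nat_lit 0x400000300700800a00e600e09101401c611))) (.br (Nat.shiftLeft (nat_lit 0x4000005) (nat_lit 112)) (.one (nat_lit 0x400000400700800a00e800e09101401c611)) (.one (nat_lit 0x400000500700800a00ea00e09101401c611)))))))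
def t356 : k356.all (jb2 57 fl b0) = true := by decide +kernel
noncomputable def k357 : KT := (.br (Nat.shiftLeft (nat_lit 0x5000003) (nat_lit 112)) (.br (Nat.shiftLeft (nat_lit 0x5) (nat_lit 136)) (.one (nat_lit 0x400000600700800a00ec00e09101401c611)) (.br (Nat.shiftLeft (nat_lit 0x2800001) (nat_lit 113)) (.one (nat_lit 0x500000100700800a00e200e0b141401c611)) (.one (nat_lit 0x500000200700800a00e400e0b141401c611)))) (.br (Nat.shiftLeft (nat_lit 0x1400001) (nat_lit 114)) (.one (nat_lit 0x500000300700800a00e600e0b141401c611)) (.br (Nat.shiftLeft (nat_lit 0x5000005) (nat_lit 112)) (.one (nat_lit 0x500000400700800a00e800e0b141401c611)) (.one (nat_lit 0x500000500700800a00ea00e0b141401c611)))))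
def t357 : k357.all (jb2 57 fl b0) = true := by decide +kernel
noncomputable def k358 : KT := (.br (Nat.shiftLeft (nat_lit 0x3000001) (nat_lit 113)) (.br (Nat.shiftLeft (nat_lit 0x3) (nat_lit 137)) (.one (nat_lit 0x500000600700800a00ec00e0b141401c611)) (.one (nat_lit 0x600000100700800a00e200e0d181401c611))) (.br (Nat.shiftLeft (nat_lit 0x6000003) (nat_lit 112)) (.one (nat_lit 0x600000200700800a00e400e0d181401c611)) (.one (nat_lit 0x600000300700800a00e600e0d181401c611))))
def t358 : k358.all (jb2 57 fl b0) = true := by decide +kernel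
noncomputable def k359 : KT := (.br (Nat.shiftLeft (nat_lit 0x3000003) (nat_lit 113)) (.br (Nat.shiftLeft (nat_lit 0x6000005) (nat_lit 112)) (.one (nat_lit 0x600000400700800a00e800e0d181401c611)) (.one (nat_lit 0x600000500700800a00ea00e0d181401c611))) (.br (Nat.shiftLeft (nat_lit 0x7) (nat_lit 136)) (.one (nat_lit 0x600000600700800a00ec00e0d181401c611)) (.br (Nat.shiftLeft (nat_lit 0x3800001) (nat_lit 113)) (.one (nat_lit 0x700000100700800a00e200e0f1c1401c611)) (.one (nat_lit 0x700000200700800a00e400e0f1c1401c611)))))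
def t359 : k359.all (jb2 57 fl b0) = true := by decide +kernel
noncomputable def k360 : KT := (.br (Nat.shiftLeft (nat_lit 0x3800003) (nat_lit 113)) (.br (Nat.shiftLeft (nat_lit 0x1c00001) (nat_lit 114)) (.one (nat_lit 0x700000300700800a00e600e0f1c1401c611)) (.br (Nat.shiftLeft (nat_lit 0x7000005) (nat_lit 112)) (.one (nat_lit 0x700000400700800a00e800e0f1c1401c611)) (.one (nat_lit 0x700000500700800a00ea00e0f1c1401c611)))) (.br (Nat.shiftLeft (nat_lit 0x4000001) (nat_lit 113)) (.br (Nat.shiftLeft (nat_lit 0x1) (nat_lit 139)) (.one (nat_lit 0x700000600700800a00ec00e0f1c1401c611)) (.one (nat_lit 0x800000100700800a00e200e11201401c611))) (.br (Nat.shiftLeft (nat_lit 0x8000003) (nat_lit 112)) (.one (nat_lit 0x800000200700800a00e400e11201401c611)) (.one (nat_lit 0x800000300700800a00e600e11201401c611)))))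
def t360 : k360.all (jb2 57 fl b0) = true := by decide +kernel
noncomputable def k361 : KT := (.br (Nat.shiftLeft (nat_lit 0x9000005) (nat_lit 112)) (.br (Nat.shiftLeft (nat_lit 0x9) (nat_lit 136)) (.br (Nat.shiftLeft (nat_lit 0x8000005) (nat_lit 112)) (.one (nat_lit 0x800000400700800a00e800e11201401c611)) (.br (Nat.shiftLeft (nat_lit 0x4000003) (nat_lit 113)) (.one (nat_lit 0x800000500700800a00ea00e11201401c611)) (.one (nat_lit 0x800000600700800a00ec00e11201401c611)))) (.br (Nat.shiftLeft (nat_lit 0x9000003) (nat_lit 112)) (.br (Nat.shiftLeft (nat_lit 0x4800001) (nat_lit 113)) (.one (nat_lit 0x900000100700800a00e200e13241401c611)) (.one (nat_lit 0x900000200700800a00e400e13241401c611))) (.br (Nat.shiftLeft (nat_lit 0x2400001) (nat_lit 114)) (.one (nat_lit 0x900000300700800a00e600e13241401c611)) (.one (nat_lit 0x900000400700800a00e800e13241401c611))))) (.br (Nat.shiftLeft (nat_lit 0xa000003) (nat_lit 112)) (.br (Nat.shiftLeft (nat_lit 0x5) (nat_lit 137)) (.br (Nat.shiftLeft (nat_lit 0x4800003) (nat_lit 113))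 (.one (nat_lit 0x900000500700800a00ea00e13241401c611)) (.one (nat_lit 0x900000600700800a00ec00e13241401c611))) (.br (Nat.shiftLeft (nat_lit 0x5000001) (nat_lit 113)) (.one (nat_lit 0xa00000100700800a00e200e15281401c611)) (.one (nat_lit 0xa00000200700800a00e400e15281401c611)))) (.br (Nat.shiftLeft (nat_lit 0xa000005) (nat_lit 112)) (.br (Nat.shiftLeft (nat_lit 0x2800001) (nat_lit 114)) (.one (nat_lit 0xa00000300700800a00e600e15281401c611)) (.one (nat_lit 0xa00000400700800a00e800e15281401c611))) (.br (Nat.shiftLeft (nat_lit 0x5000003) (nat_lit 113)) (.one (nat_lit 0xa00000500700800a00ea00e15281401c611)) (.one (nat_lit 0xa00000600700800a00ec00e15281401c611))))))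
def t361 : k361.all (jb2 57 fl b0) = true := by decide +kernel
noncomputable def s20 : KT := (.br (nat_lit 0x300400700800a00e800e010074c1c760) (.br (nat_lit 0x200000700800a00e000e01005481c511) (.br (nat_lit 0x100300700800a00e600e01003441c760) (.br (nat_lit 0x100200700800a00e400e01003441c760) k345 k346) (.br (nat_lit 0x100500700800a00ea00e01003441c760) k347 k348)) (.br (nat_lit 0x200400700800a00e800e01005481c760) (.br (nat_lit 0x200300700800a00e600e01005481c760) k349 k350) (.br (nat_lit 0x300000700800a00e000e010074c1c511) k351 k352))) (.br (nat_lit 0x400000500700800a00ea00e09101401c611) (.br (nat_lit 0x500600700800a00ec00e0100b541c760) (.br (nat_lit 0x400000700800a00e000e01009501c511) k353 k354) (.br (nat_lit 0x800000700800a00e000e01011601c511) k355 k356)) (.br (nat_lit 0x600000300700800a00e600e0d181401c611) (.br (nat_lit 0x500000500700800a00ea00e0b141401c611) k357 k358) (.br (nat_lit 0x700000200700800a00e400e0f1c1401c611) k359 (.br (nat_lit 0x800000300700800a00e600e11201401c611) k360 k361)))))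
noncomputable def u20 : KT := (.one (nat_lit 0x700800a00e000e01001401c540))
def w20 : u20.all (wj 57 s20) = true := by decide +kernel
def o20 : OkW 57 (jb2 57 fl) u20 := .lift s20 _ (.br _ _ _ (.br _ _ _ (.br _ _ _ (.br _ _ _ (.leaf b0 k345 t345) (.leaf b0 k346 t346)) (.br _ _ _ (.leaf b0 k347 t347) (.leaf b0 k348 t348))) (.br _ _ _ (.br _ _ _ (.leaf b0 k349 t349) (.leaf b0 k350 t350)) (.br _ _ _ (.leaf b0 k351 t351) (.leaf b0 k352 t352)))) (.br _ _ _ (.br _ _ _ (.br _ _ _ (.leaf b0 k353 t353) (.leaf b0 k354 t354)) (.br _ _ _ (.leaf b0 k355 t355) (.leaf b0 k356 t356))) (.br _ _ _ (.br _ _ _ (.leaf b0 k357 t357) (.leaf b0 k358 t358)) (.br _ _ _ (.leaf b0 k359 t359) (.br _ _ _ (.leaf b0 k360 t360) (.leaf b0 k361 t361)))))) w20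
noncomputable def k362 : KT := (.br (Nat.shiftLeft (nat_lit 0x200700800a01) (nat_lit 68)) (.br (Nat.shiftLeft (nat_lit 0x1) (nat_lit 112)) (.br (Nat.shiftLeft (nat_lit 0x700800a01) (nat_lit 68)) (.one (nat_lit 0x700800a00f000e01001401f500)) (.one (nat_lit 0x700800a010000e010014021500))) (.br (Nat.shiftLeft (nat_lit 0x100700800a01) (nat_lit 68)) (.one (nat_lit 0x100700800a00f200e01001401f600)) (.br (Nat.shiftLeft (nat_lit 0x1) (nat_lit 113)) (.one (nat_lit 0x100700800a010200e010014020650)) (.one (nat_lit 0x200700800a00f400e01001401f600))))) (.br (Nat.shiftLeft (nat_lit 0x1) (nat_lit 114)) (.br (Nat.shiftLeft (nat_lit 0x3) (nat_lit 112)) (.one (nat_lit 0x200700800a010400e010014021600)) (.br (Nat.shiftLeft (nat_lit 0x300700800a01) (nat_lit 68)) (.one (nat_lit 0x300700800a00f600e01001401f600)) (.one (nat_lit 0x300700800a010600e010014021600)))) (.br (Nat.shiftLeft (nat_lit 0x400700800a01) (nat_lit 68)) (.one (nat_lit 0x400700800a00f800e01001401f600)) (.br (Nat.shiftLeft (nat_lit 0x5) (nat_lit 112)) (.one (nat_lit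 0x400700800a010800e010014021600)) (.one (nat_lit 0x500700800a00fa00e01001401f600))))))
def t362 : k362.all (jb2 57 fl b0) = true := by decide +kernel
noncomputable def k363 : KT := (.br (Nat.shiftLeft (nat_lit 0x3) (nat_lit 113)) (.one (nat_lit 0x500700800a010a00e010014020650)) (.one (nat_lit 0x600700800a00fc00e01001401f600)))
def t363 : k363.all (jb2 57 fl b0) = true := by decide +kernel
noncomputable def k364 : KT := (.br (Nat.shiftLeft (nat_lit 0x1) (nat_lit 124)) (.one (nat_lit 0x600700800a010c00e010014020650)) (.br (Nat.shiftLeft (nat_lit 0x100000700800a01) (nat_lit 68)) (.one (nat_lit 0x100000700800a00f000e01003441e511)) (.one (nat_lit 0x100000700800a010000e010034420511))))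
def t364 : k364.all (jb2 57 fl b0) = true := by decide +kernel
noncomputable def k365 : KT := (.one (nat_lit 0x100200700800a00f400e01003441e760))
def t365 : k365.all (jb2 57 fl b0) = true := by decide +kernel
noncomputable def k366 : KT := (.br (Nat.shiftLeft (nat_lit 0x1003) (nat_lit 112)) (.one (nat_lit 0x100200700800a010400e010034420760)) (.one (nat_lit 0x100300700800a00f600e01003441e760)))
def t366 : k366.all (jb2 57 fl b0) = true := by decide +kernel
noncomputable def k367 : KT := (.br (Nat.shiftLeft (nat_lit 0x401) (nat_lit 114)) (.one (nat_lit 0x100300700800a010600e010034420760)) (.br (Nat.shiftLeft (nat_lit 0x100400700800a01) (nat_lit 68)) (.one (nat_lit 0x100400700800a00f800e01003441e760)) (.one (nat_lit 0x100400700800a010800e010034420760))))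
def t367 : k367.all (jb2 57 fl b0) = true := by decide +kernel
noncomputable def k368 : KT := (.br (Nat.shiftLeft (nat_lit 0x1) (nat_lit 125)) (.br (Nat.shiftLeft (nat_lit 0x803) (nat_lit 113)) (.one (nat_lit 0x100500700800a00fa00e01003441e760)) (.one (nat_lit 0x100600700800a00fc00e01003441e760))) (.br (Nat.shiftLeft (nat_lit 0x200000700800a01) (nat_lit 68)) (.one (nat_lit 0x200000700800a00f000e01005481e511)) (.br (Nat.shiftLeft (nat_lit 0x1001) (nat_lit 113)) (.one (nat_lit 0x200000700800a010000e010054820511)) (.one (nat_lit 0x200300700800a00f600e01005481e760)))))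
def t368 : k368.all (jb2 57 fl b0) = true := by decide +kernel
noncomputable def k369 : KT := (.br (Nat.shiftLeft (nat_lit 0x801) (nat_lit 114)) (.one (nat_lit 0x200300700800a010600e010054820760)) (.one (nat_lit 0x200400700800a00f800e01005481e760)))
def t369 : k369.all (jb2 57 fl b0) = true := by decide +kernel
noncomputable def k370 : KT := (.br (Nat.shiftLeft (nat_lit 0x1003) (nat_lit 113)) (.br (Nat.shiftLeft (nat_lit 0x2005) (nat_lit 112)) (.one (nat_lit 0x200400700800a010800e010054820760)) (.one (nat_lit 0x200500700800a00fa00e01005481e760))) (.br (Nat.shiftLeft (nat_lit 0x3) (nat_lit 124)) (.one (nat_lit 0x200600700800a00fc00e01005481e760)) (.br (Nat.shiftLeft (nat_lit 0x300000700800a01) (nat_lit 68)) (.one (nat_lit 0x300000700800a00f000e010074c1e511)) (.one (nat_lit 0x300000700800a010000e010074c20511)))))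
def t370 : k370.all (jb2 57 fl b0) = true := by decide +kernel
noncomputable def k371 : KT := (.br (Nat.shiftLeft (nat_lit 0x300400700800a01) (nat_lit 68)) (.one (nat_lit 0x300400700800a00f800e010074c1e760)) (.br (Nat.shiftLeft (nat_lit 0x3005) (nat_lit 112)) (.one (nat_lit 0x300400700800a010800e010074c20760)) (.one (nat_lit 0x300500700800a00fa00e010074c1e760))))
def t371 : k371.all (jb2 57 fl b0) = true := by decide +kernel
noncomputable def k372 : KT := (.br (Nat.shiftLeft (nat_lit 0x1001) (nat_lit 114)) (.br (Nat.shiftLeft (nat_lit 0x1) (nat_lit 126)) (.one (nat_lit 0x300600700800a00fc00e010074c1e760)) (.br (Nat.shiftLeft (nat_lit 0x400000700800a01) (nat_lit 68)) (.one (nat_lit 0x400000700800a00f000e01009501e511)) (.one (nat_lit 0x400000700800a010000e010095020511)))) (.br (Nat.shiftLeft (nat_lit 0x2003) (nat_lit 113)) (.one (nat_lit 0x400500700800a00fa00e01009501e760)) (.br (Nat.shiftLeft (nat_lit 0x5) (nat_lit 124)) (.one (nat_lit 0x400600700800a00fc00e01009501e760)) (.one (nat_lit 0x500000700800a00f000e0100b541e511)))))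
def t372 : k372.all (jb2 57 fl b0) = true := by decide +kernel
noncomputable def k373 : KT := (.br (Nat.shiftLeft (nat_lit 0x3) (nat_lit 125)) (.br (Nat.shiftLeft (nat_lit 0x1401) (nat_lit 114)) (.one (nat_lit 0x500000700800a010000e0100b5420511)) (.one (nat_lit 0x500600700800a00fc00e0100b541e760))) (.br (Nat.shiftLeft (nat_lit 0x600000700800a01) (nat_lit 68)) (.one (nat_lit 0x600000700800a00f000e0100d581e511)) (.br (Nat.shiftLeft (nat_lit 0x7) (nat_lit 124)) (.one (nat_lit 0x600000700800a010000e0100d5820511)) (.one (nat_lit 0x700000700800a00f000e0100f5c1e511)))))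
def t373 : k373.all (jb2 57 fl b0) = true := by decide +kernel
noncomputable def k374 : KT := (.br (Nat.shiftLeft (nat_lit 0x1000005) (nat_lit 112)) (.br (Nat.shiftLeft (nat_lit 0x1) (nat_lit 136)) (.br (Nat.shiftLeft (nat_lit 0x9) (nat_lit 124)) (.br (Nat.shiftLeft (nat_lit 0x1) (nat_lit 127)) (.one (nat_lit 0x700000700800a010000e0100f5c20511)) (.br (Nat.shiftLeft (nat_lit 0x800000700800a01) (nat_lit 68)) (.one (nat_lit 0x800000700800a00f000e01011601e511)) (.one (nat_lit 0x800000700800a010000e010116020511)))) (.br (Nat.shiftLeft (nat_lit 0x5) (nat_lit 125)) (.br (Nat.shiftLeft (nat_lit 0x900000700800a01) (nat_lit 68)) (.one (nat_lit 0x900000700800a00f000e01013641e511)) (.one (nat_lit 0x900000700800a010000e010136420511))) (.br (Nat.shiftLeft (nat_lit 0xa00000700800a01) (nat_lit 68)) (.one (nat_lit 0xa00000700800a00f000e01015681e511)) (.one (nat_lit 0xa00000700800a010000e010156820511))))) (.br (Nat.shiftLeft (nat_lit 0x1000003) (nat_lit 112)) (.br (Nat.shiftLeft (nat_lit 0x800001) (nat_lit 113)) (.one (nat_lit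 0x100000100700800a00f200e03041401e611)) (.br (Nat.shiftLeft (nat_lit 0x100000200700800a01) (nat_lit 68)) (.one (nat_lit 0x100000200700800a00f400e03041401e611)) (.one (nat_lit 0x100000200700800a010400e030414020611)))) (.br (Nat.shiftLeft (nat_lit 0x400001) (nat_lit 114)) (.br (Nat.shiftLeft (nat_lit 0x100000300700800a01) (nat_lit 68)) (.one (nat_lit 0x100000300700800a00f600e03041401e611)) (.one (nat_lit 0x100000300700800a010600e030414020611))) (.br (Nat.shiftLeft (nat_lit 0x100000400700800a01) (nat_lit 68)) (.one (nat_lit 0x100000400700800a00f800e03041401e611)) (.one (nat_lit 0x100000400700800a010800e030414020611)))))) (.br (Nat.shiftLeft (nat_lit 0x800001) (nat_lit 114)) (.br (Nat.shiftLeft (nat_lit 0x1000001) (nat_lit 113)) (.br (Nat.shiftLeft (nat_lit 0x800003) (nat_lit 113)) (.one (nat_lit 0x100000500700800a00fa00e03041401e611)) (.br (Nat.shiftLeft (nat_lit 0x1) (nat_lit 137)) (.one (nat_lit 0x100000600700800a00fc00e03041401e611)) (.one (nat_lit 0x200000100700800a00f200e05081401e611)))) (.br (Nat.shiftLeft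 (nat_lit 0x2000003) (nat_lit 112)) (.br (Nat.shiftLeft (nat_lit 0x200000200700800a01) (nat_lit 68)) (.one (nat_lit 0x200000200700800a00f400e05081401e611)) (.one (nat_lit 0x200000200700800a010400e050814020611))) (.br (Nat.shiftLeft (nat_lit 0x200000300700800a01) (nat_lit 68)) (.one (nat_lit 0x200000300700800a00f600e05081401e611)) (.one (nat_lit 0x200000300700800a010600e050814020611))))) (.br (Nat.shiftLeft (nat_lit 0x1000003) (nat_lit 113)) (.br (Nat.shiftLeft (nat_lit 0x200000400700800a01) (nat_lit 68)) (.one (nat_lit 0x200000400700800a00f800e05081401e611)) (.br (Nat.shiftLeft (nat_lit 0x2000005) (nat_lit 112)) (.one (nat_lit 0x200000400700800a010800e050814020611)) (.one (nat_lit 0x200000500700800a00fa00e05081401e611)))) (.br (Nat.shiftLeft (nat_lit 0x1800001) (nat_lit 113)) (.br (Nat.shiftLeft (nat_lit 0x3) (nat_lit 136)) (.one (nat_lit 0x200000600700800a00fc00e05081401e611)) (.one (nat_lit 0x300000100700800a00f200e070c1401e611))) (.br (Nat.shiftLeft (nat_lit 0x300000200700800a01) (nat_lit 68)) (.one (nat_lit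 0x300000200700800a00f400e070c1401e611)) (.one (nat_lit 0x300000200700800a010400e070c14020611)))))))
def t374 : k374.all (jb2 57 fl b0) = true := by decide +kernel
noncomputable def k375 : KT := (.br (Nat.shiftLeft (nat_lit 0x2000001) (nat_lit 113)) (.br (Nat.shiftLeft (nat_lit 0x300000400700800a01) (nat_lit 68)) (.br (Nat.shiftLeft (nat_lit 0x300000300700800a01) (nat_lit 68)) (.one (nat_lit 0x300000300700800a00f600e070c1401e611)) (.br (Nat.shiftLeft (nat_lit 0xc00001) (nat_lit 114)) (.one (nat_lit 0x300000300700800a010600e070c14020611)) (.one (nat_lit 0x300000400700800a00f800e070c1401e611)))) (.br (Nat.shiftLeft (nat_lit 0x1800003) (nat_lit 113)) (.br (Nat.shiftLeft (nat_lit 0x3000005) (nat_lit 112)) (.one (nat_lit 0x300000400700800a010800e070c14020611)) (.one (nat_lit 0x300000500700800a00fa00e070c1401e611))) (.br (Nat.shiftLeft (nat_lit 0x1) (nat_lit 138)) (.one (nat_lit 0x300000600700800a00fc00e070c1401e611)) (.one (nat_lit 0x400000100700800a00f200e09101401e611))))) (.br (Nat.shiftLeft (nat_lit 0x1000001)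 (nat_lit 114)) (.br (Nat.shiftLeft (nat_lit 0x4000003) (nat_lit 112)) (.br (Nat.shiftLeft (nat_lit 0x400000200700800a01) (nat_lit 68)) (.one (nat_lit 0x400000200700800a00f400e09101401e611)) (.one (nat_lit 0x400000200700800a010400e091014020611))) (.br (Nat.shiftLeft (nat_lit 0x400000300700800a01) (nat_lit 68)) (.one (nat_lit 0x400000300700800a00f600e09101401e611)) (.one (nat_lit 0x400000300700800a010600e091014020611)))) (.br (Nat.shiftLeft (nat_lit 0x4000005) (nat_lit 112)) (.br (Nat.shiftLeft (nat_lit 0x400000400700800a01) (nat_lit 68)) (.one (nat_lit 0x400000400700800a00f800e09101401e611)) (.one (nat_lit 0x400000400700800a010800e091014020611))) (.br (Nat.shiftLeft (nat_lit 0x2000003) (nat_lit 113)) (.one (nat_lit 0x400000500700800a00fa00e09101401e611)) (.one (nat_lit 0x400000600700800a00fc00e09101401e611))))))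
def t375 : k375.all (jb2 57 fl b0) = true := by decide +kernel
noncomputable def k376 : KT := (.br (Nat.shiftLeft (nat_lit 0x500000300700800a01) (nat_lit 68)) (.br (Nat.shiftLeft (nat_lit 0x500000200700800a01) (nat_lit 68)) (.br (Nat.shiftLeft (nat_lit 0x2800001) (nat_lit 113)) (.one (nat_lit 0x500000100700800a00f200e0b141401e611)) (.one (nat_lit 0x500000200700800a00f400e0b141401e611))) (.br (Nat.shiftLeft (nat_lit 0x5000003) (nat_lit 112)) (.one (nat_lit 0x500000200700800a010400e0b1414020611)) (.one (nat_lit 0x500000300700800a00f600e0b141401e611)))) (.br (Nat.shiftLeft (nat_lit 0x500000400700800a01) (nat_lit 68)) (.br (Nat.shiftLeft (nat_lit 0x1400001) (nat_lit 114)) (.one (nat_lit 0x500000300700800a010600e0b1414020611)) (.one (nat_lit 0x500000400700800a00f800e0b141401e611))) (.br (Nat.shiftLeft (nat_lit 0x5000005) (nat_lit 112)) (.one (nat_lit 0x500000400700800a010800e0b1414020611)) (.one (nat_lit 0x500000500700800a00fa00e0b141401e611)))))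
def t376 : k376.all (jb2 57 fl b0) = true := by decide +kernel
noncomputable def k377 : KT := (.br (Nat.shiftLeft (nat_lit 0x600000200700800a01) (nat_lit 68)) (.br (Nat.shiftLeft (nat_lit 0x3) (nat_lit 137)) (.one (nat_lit 0x500000600700800a00fc00e0b141401e611)) (.br (Nat.shiftLeft (nat_lit 0x3000001) (nat_lit 113)) (.one (nat_lit 0x600000100700800a00f200e0d181401e611)) (.one (nat_lit 0x600000200700800a00f400e0d181401e611)))) (.br (Nat.shiftLeft (nat_lit 0x600000300700800a01) (nat_lit 68)) (.br (Nat.shiftLeft (nat_lit 0x6000003) (nat_lit 112)) (.one (nat_lit 0x600000200700800a010400e0d1814020611)) (.one (nat_lit 0x600000300700800a00f600e0d181401e611))) (.br (Nat.shiftLeft (nat_lit 0x1800001) (nat_lit 114)) (.one (nat_lit 0x600000300700800a010600e0d1814020611)) (.one (nat_lit 0x600000400700800a00f800e0d181401e611)))))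
def t377 : k377.all (jb2 57 fl b0) = true := by decide +kernel
noncomputable def k378 : KT := (.br (Nat.shiftLeft (nat_lit 0x700000200700800a01) (nat_lit 68)) (.br (Nat.shiftLeft (nat_lit 0x3000003) (nat_lit 113)) (.br (Nat.shiftLeft (nat_lit 0x6000005) (nat_lit 112)) (.one (nat_lit 0x600000400700800a010800e0d1814020611)) (.one (nat_lit 0x600000500700800a00fa00e0d181401e611))) (.br (Nat.shiftLeft (nat_lit 0x7) (nat_lit 136)) (.one (nat_lit 0x600000600700800a00fc00e0d181401e611)) (.br (Nat.shiftLeft (nat_lit 0x3800001) (nat_lit 113)) (.one (nat_lit 0x700000100700800a00f200e0f1c1401e611)) (.one (nat_lit 0x700000200700800a00f400e0f1c1401e611))))) (.br (Nat.shiftLeft (nat_lit 0x1c00001) (nat_lit 114)) (.br (Nat.shiftLeft (nat_lit 0x7000003) (nat_lit 112)) (.one (nat_lit 0x700000200700800a010400e0f1c14020611)) (.br (Nat.shiftLeft (nat_lit 0x700000300700800a01) (nat_lit 68)) (.one (nat_lit 0x700000300700800a00f600e0f1c1401e611)) (.one (nat_lit 0x700000300700800a010600e0f1c14020611)))) (.br (Nat.shiftLeft (nat_lit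 0x700000400700800a01) (nat_lit 68)) (.one (nat_lit 0x700000400700800a00f800e0f1c1401e611)) (.br (Nat.shiftLeft (nat_lit 0x7000005) (nat_lit 112)) (.one (nat_lit 0x700000400700800a010800e0f1c14020611)) (.one (nat_lit 0x700000500700800a00fa00e0f1c1401e611))))))
def t378 : k378.all (jb2 57 fl b0) = true := by decide +kernel
noncomputable def k379 : KT := (.br (Nat.shiftLeft (nat_lit 0x9) (nat_lit 136)) (.br (Nat.shiftLeft (nat_lit 0x800000300700800a01) (nat_lit 68)) (.br (Nat.shiftLeft (nat_lit 0x4000001) (nat_lit 113)) (.br (Nat.shiftLeft (nat_lit 0x1) (nat_lit 139)) (.one (nat_lit 0x700000600700800a00fc00e0f1c1401e611)) (.one (nat_lit 0x800000100700800a00f200e11201401e611))) (.br (Nat.shiftLeft (nat_lit 0x800000200700800a01) (nat_lit 68)) (.one (nat_lit 0x800000200700800a00f400e11201401e611)) (.br (Nat.shiftLeft (nat_lit 0x8000003) (nat_lit 112)) (.one (nat_lit 0x800000200700800a010400e112014020611)) (.one (nat_lit 0x800000300700800a00f600e11201401e611))))) (.br (Nat.shiftLeft (nat_lit 0x800000400700800a01)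 (nat_lit 68)) (.br (Nat.shiftLeft (nat_lit 0x2000001) (nat_lit 114)) (.one (nat_lit 0x800000300700800a010600e112014020611)) (.one (nat_lit 0x800000400700800a00f800e11201401e611))) (.br (Nat.shiftLeft (nat_lit 0x8000005) (nat_lit 112)) (.one (nat_lit 0x800000400700800a010800e112014020611)) (.br (Nat.shiftLeft (nat_lit 0x4000003) (nat_lit 113)) (.one (nat_lit 0x800000500700800a00fa00e11201401e611)) (.one (nat_lit 0x800000600700800a00fc00e11201401e611)))))) (.br (Nat.shiftLeft (nat_lit 0x2400001) (nat_lit 114)) (.br (Nat.shiftLeft (nat_lit 0x900000200700800a01) (nat_lit 68)) (.br (Nat.shiftLeft (nat_lit 0x4800001) (nat_lit 113)) (.one (nat_lit 0x900000100700800a00f200e13241401e611)) (.one (nat_lit 0x900000200700800a00f400e13241401e611))) (.br (Nat.shiftLeft (nat_lit 0x9000003) (nat_lit 112)) (.one (nat_lit 0x900000200700800a010400e132414020611)) (.br (Nat.shiftLeft (nat_lit 0x900000300700800a01) (nat_lit 68)) (.one (nat_lit 0x900000300700800a00f600e13241401e611)) (.one (nat_lit 0x900000300700800a010600e132414020611)))))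 (.br (Nat.shiftLeft (nat_lit 0x9000005) (nat_lit 112)) (.br (Nat.shiftLeft (nat_lit 0x900000400700800a01) (nat_lit 68)) (.one (nat_lit 0x900000400700800a00f800e13241401e611)) (.one (nat_lit 0x900000400700800a010800e132414020611))) (.br (Nat.shiftLeft (nat_lit 0x4800003) (nat_lit 113)) (.one (nat_lit 0x900000500700800a00fa00e13241401e611)) (.br (Nat.shiftLeft (nat_lit 0x5) (nat_lit 137)) (.one (nat_lit 0x900000600700800a00fc00e13241401e611)) (.one (nat_lit 0xa00000100700800a00f200e15281401e611)))))))
def t379 : k379.all (jb2 57 fl b0) = true := by decide +kernel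
noncomputable def k380 : KT := (.br (Nat.shiftLeft (nat_lit 0x2800001) (nat_lit 114)) (.br (Nat.shiftLeft (nat_lit 0xa000003) (nat_lit 112)) (.br (Nat.shiftLeft (nat_lit 0xa00000200700800a01) (nat_lit 68)) (.one (nat_lit 0xa00000200700800a00f400e15281401e611)) (.one (nat_lit 0xa00000200700800a010400e152814020611))) (.br (Nat.shiftLeft (nat_lit 0xa00000300700800a01) (nat_lit 68)) (.one (nat_lit 0xa00000300700800a00f600e15281401e611)) (.one (nat_lit 0xa00000300700800a010600e152814020611)))) (.br (Nat.shiftLeft (nat_lit 0xa000005) (nat_lit 112)) (.br (Nat.shiftLeft (nat_lit 0xa00000400700800a01) (nat_lit 68)) (.one (nat_lit 0xa00000400700800a00f800e15281401e611)) (.one (nat_lit 0xa00000400700800a010800e152814020611))) (.br (Nat.shiftLeft (nat_lit 0x5000003) (nat_lit 113)) (.one (nat_lit 0xa00000500700800a00fa00e15281401e611)) (.one (nat_lit 0xa00000600700800a00fc00e15281401e611)))))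
def t380 : k380.all (jb2 57 fl b0) = true := by decide +kernel
noncomputable def s21 : KT := (.br (nat_lit 0x300000700800a010000e010074c20511) (.br (nat_lit 0x100200700800a00f400e01003441e760) (.br (nat_lit 0x600700800a00fc00e01001401f600) (.br (nat_lit 0x500700800a00fa00e01001401f600) k362 k363) (.br (nat_lit 0x100000700800a010000e010034420511) k364 k365)) (.br (nat_lit 0x100400700800a010800e010034420760) (.br (nat_lit 0x100300700800a00f600e01003441e760) k366 k367) (.br (nat_lit 0x200300700800a00f600e01005481e760) k368 (.br (nat_lit 0x200400700800a00f800e01005481e760) k369 k370)))) (.br (nat_lit 0x400000600700800a00fc00e09101401e611) (.br (nat_lit 0x500000700800a00f000e0100b541e511) (.br (nat_lit 0x300500700800a00fa00e010074c1e760) k371 k372) (.br (nat_lit 0x700000700800a00f000e0100f5c1e511) k373 (.br (nat_lit 0x300000200700800a010400e070c14020611) k374 k375))) (.br (nat_lit 0x600000400700800a00f800e0d181401e611) (.br (nat_lit 0x500000500700800a00fa00e0b141401e611) k376 k377) (.br (nat_lit 0x700000500700800a00fa00e0f1c1401e611)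 k378 (.br (nat_lit 0xa00000100700800a00f200e15281401e611) k379 k380)))))
noncomputable def u21 : KT := (.br (Nat.shiftLeft (nat_lit 0x700800a01) (nat_lit 68)) (.one (nat_lit 0x700800a00f000e01001401e540)) (.one (nat_lit 0x700800a010000e010014020540)))
def w21 : u21.all (wj 57 s21) = true := by decide +kernel
def o21 : OkW 57 (jb2 57 fl) u21 := .lift s21 _ (.br _ _ _ (.br _ _ _ (.br _ _ _ (.br _ _ _ (.leaf b0 k362 t362) (.leaf b0 k363 t363)) (.br _ _ _ (.leaf b0 k364 t364) (.leaf b0 k365 t365))) (.br _ _ _ (.br _ _ _ (.leaf b0 k366 t366) (.leaf b0 k367 t367)) (.br _ _ _ (.leaf b0 k368 t368) (.br _ _ _ (.leaf b0 k369 t369) (.leaf b0 k370 t370))))) (.br _ _ _ (.br _ _ _ (.br _ _ _ (.leaf b0 k371 t371) (.leaf b0 k372 t372)) (.br _ _ _ (.leaf b0 k373 t373) (.br _ _ _ (.leaf b0 k374 t374) (.leaf b0 k375 t375)))) (.br _ _ _ (.br _ _ _ (.leaf b0 k376 t376) (.leaf b0 k377 t377)) (.br _ _ _ (.leaf b0 k378 t378) (.br _ _ _ (.leaf b0 k379 t379) (.leaf b0 k380 t380)))))) w21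
noncomputable def k : KT := (.br (nat_lit 0x600a00b00c000c014016018540) (.br (nat_lit 0x600900a012000c012014024540) (.br (nat_lit 0x600900a00d000c01201401a540) (.br (nat_lit 0x600900a00c000c012014019500) u0 u1) (.br (nat_lit 0x600900a00e000c01201401c540) u2 (.br (nat_lit 0x600900a011000c012014022540) u3 u4))) (.br (nat_lit 0x600900b00f000c01201601e540) (.br (nat_lit 0x600900b00c000c012016018540) u5 (.br (nat_lit 0x600900b00d000c01201601a540) u6 u7)) (.br (nat_lit 0x600900c00d000c01201801a540) u8 (.br (nat_lit 0x600900d00e000c01201a01c540) u9 u10)))) (.br (nat_lit 0x700800900e000e01001201c540) (.br (nat_lit 0x600a00d00e000c01401a01c540) (.br (nat_lit 0x600a00b00f000c01401601e540) u11 u12) (.br (nat_lit 0x700000a013000e000014026311) u13 (.br (nat_lit 0x700800900c000e010012019500) u14 u15))) (.br (nat_lit 0x700800a00c000e010014019500) (.br (nat_lit 0x700800900f000e01001201e540) u16 (.br (nat_lit 0x7008009012000e010012024540) u17 u18)) (.br (nat_lit 0x700800a00d000e01001401a540) u19 (.br (nat_lit 0x700800a00e000e01001401c540)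 u20 u21)))))
theorem ok : OkW 57 (jb2 57 fl) k := (.br _ _ _ (.br _ _ _ (.br _ _ _ (.br _ _ _ o0 o1) (.br _ _ _ o2 (.br _ _ _ o3 o4))) (.br _ _ _ (.br _ _ _ o5 (.br _ _ _ o6 o7)) (.br _ _ _ o8 (.br _ _ _ o9 o10)))) (.br _ _ _ (.br _ _ _ (.br _ _ _ o11 o12) (.br _ _ _ o13 (.br _ _ _ o14 o15))) (.br _ _ _ (.br _ _ _ o16 (.br _ _ _ o17 o18)) (.br _ _ _ o19 (.br _ _ _ o20 o21)))))

end Pool.Agent.Lib.MP_ed43e6_ag.Q.Y57.R39
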