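import Pool.Agent.Lib.MP_ed43e6_ag.Y57.Fl

namespace Pool.Agent.Lib.MP_ed43e6_ag.Q.Y57.R40

set_option linter.defProp false

noncomputable def b0 : BT := .node (nat_lit 1) (nat_lit 0) .leaf .leaf
noncomputable def k0 : KT := (.br (Nat.shiftLeft (nat_lit 0x700800a013) (nat_lit 64)) (.br (Nat.shiftLeft (nat_lit 0x3804005009) (nat_lit 65)) (.one (nat_lit 0x700800a011000e010014023500)) (.one (nat_lit 0x700800a012000e010014025500))) (.br (Nat.shiftLeft (nat_lit 0x1) (nat_lit 112)) (.one (nat_lit 0x700800a013000e010014027500)) (.br (Nat.shiftLeft (nat_lit 0x803804005009) (nat_lit 65)) (.one (nat_lit 0x100700800a011200e010014022650)) (.one (nat_lit 0x100700800a012200e010014024650)))))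
def t0 : k0.all (jb2 57 fl b0) = true := by decide +kernel
noncomputable def k1 : KT := (.one (nat_lit 0x100700800a013200e010014026650))
def t1 : k1.all (jb2 57 fl b0) = true := by decide +kernel
noncomputable def k2 : KT := (.one (nat_lit 0x200700800a011400e010014022650))
def t2 : k2.all (jb2 57 fl b0) = true := by decide +kernel
noncomputable def k3 : KT := (.br (Nat.shiftLeft (nat_lit 0x200700800a013) (nat_lit 64)) (.one (nat_lit 0x200700800a012400e010014024650)) (.one (nat_lit 0x200700800a013400e010014026650)))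
def t3 : k3.all (jb2 57 fl b0) = true := by decide +kernel
noncomputable def k4 : KT := (.one (nat_lit 0x300700800a011600e010014022650))
def t4 : k4.all (jb2 57 fl b0) = true := by decide +kernel
noncomputable def k5 : KT := (.br (Nat.shiftLeft (nat_lit 0x300700800a013) (nat_lit 64)) (.one (nat_lit 0x300700800a012600e010014024650)) (.one (nat_lit 0x300700800a013600e010014026650)))
def t5 : k5.all (jb2 57 fl b0) = true := by decide +kernel
noncomputable def k6 : KT := (.one (nat_lit 0x400700800a011800e010014022650))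
def t6 : k6.all (jb2 57 fl b0) = true := by decide +kernel
noncomputable def k7 : KT := (.br (Nat.shiftLeft (nat_lit 0x400700800a013) (nat_lit 64)) (.one (nat_lit 0x400700800a012800e010014024650)) (.one (nat_lit 0x400700800a013800e010014026650)))
def t7 : k7.all (jb2 57 fl b0) = true := by decide +kernel
noncomputable def k8 : KT := (.one (nat_lit 0x500700800a011a00e010014022650))
def t8 : k8.all (jb2 57 fl b0) = true := by decide +kernel
noncomputable def k9 : KT := (.br (Nat.shiftLeft (nat_lit 0x500700800a013) (nat_lit 64)) (.one (nat_lit 0x500700800a012a00e010014024650)) (.one (nat_lit 0x500700800a013a00e010014026650)))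
def t9 : k9.all (jb2 57 fl b0) = true := by decide +kernel
noncomputable def k10 : KT := (.br (Nat.shiftLeft (nat_lit 0x800003804005009) (nat_lit 65)) (.br (Nat.shiftLeft (nat_lit 0x600700800a013) (nat_lit 64)) (.br (Nat.shiftLeft (nat_lit 0x3003804005009) (nat_lit 65)) (.one (nat_lit 0x600700800a011c00e010014022650)) (.one (nat_lit 0x600700800a012c00e010014024650))) (.br (Nat.shiftLeft (nat_lit 0x1) (nat_lit 124)) (.one (nat_lit 0x600700800a013c00e010014026650)) (.one (nat_lit 0x100000700800a011000e010034422511)))) (.br (Nat.shiftLeft (nat_lit 0x1) (nat_lit 125)) (.br (Nat.shiftLeft (nat_lit 0x100000700800a013) (nat_lit 64)) (.one (nat_lit 0x100000700800a012000e010034424511)) (.one (nat_lit 0x100000700800a013000e010034426511))) (.br (Nat.shiftLeft (nat_lit 0x1000003804005009) (nat_lit 65)) (.one (nat_lit 0x200000700800a011000e010054822511)) (.br (Nat.shiftLeft (nat_lit 0x200000700800a013) (nat_lit 64)) (.one (nat_lit 0x200000700800a012000e010054824511)) (.one (nat_lit 0x200000700800a013000e010054826511))))))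
def t10 : k10.all (jb2 57 fl b0) = true := by decide +kernel
noncomputable def k11 : KT := (.br (Nat.shiftLeft (nat_lit 0x5) (nat_lit 124)) (.br (Nat.shiftLeft (nat_lit 0x1) (nat_lit 126)) (.br (Nat.shiftLeft (nat_lit 0x1800003804005009) (nat_lit 65)) (.one (nat_lit 0x300000700800a011000e010074c22511)) (.br (Nat.shiftLeft (nat_lit 0x300000700800a013) (nat_lit 64)) (.one (nat_lit 0x300000700800a012000e010074c24511)) (.one (nat_lit 0x300000700800a013000e010074c26511)))) (.br (Nat.shiftLeft (nat_lit 0x2000003804005009) (nat_lit 65)) (.one (nat_lit 0x400000700800a011000e010095022511)) (.br (Nat.shiftLeft (nat_lit 0x400000700800a013) (nat_lit 64)) (.one (nat_lit 0x400000700800a012000e010095024511)) (.one (nat_lit 0x400000700800a013000e010095026511))))) (.br (Nat.shiftLeft (nat_lit 0x3) (nat_lit 125)) (.br (Nat.shiftLeft (nat_lit 0x2800003804005009) (nat_lit 65)) (.one (nat_lit 0x500000700800a011000e0100b5422511)) (.br (Nat.shiftLeft (nat_lit 0x500000700800a013) (nat_lit 64)) (.one (nat_lit 0x500000700800a012000e0100b5424511))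 (.one (nat_lit 0x500000700800a013000e0100b5426511)))) (.br (Nat.shiftLeft (nat_lit 0x600000700800a013) (nat_lit 64)) (.br (Nat.shiftLeft (nat_lit 0x3000003804005009) (nat_lit 65)) (.one (nat_lit 0x600000700800a011000e0100d5822511)) (.one (nat_lit 0x600000700800a012000e0100d5824511))) (.br (Nat.shiftLeft (nat_lit 0x7) (nat_lit 124)) (.one (nat_lit 0x600000700800a013000e0100d5826511)) (.one (nat_lit 0x700000700800a011000e0100f5c22511))))))
def t11 : k11.all (jb2 57 fl b0) = true := by decide +kernel
noncomputable def k12 : KT := (.br (Nat.shiftLeft (nat_lit 0x9) (nat_lit 124)) (.br (Nat.shiftLeft (nat_lit 0x1) (nat_lit 127)) (.br (Nat.shiftLeft (nat_lit 0x700000700800a013) (nat_lit 64)) (.one (nat_lit 0x700000700800a012000e0100f5c24511)) (.one (nat_lit 0x700000700800a013000e0100f5c26511))) (.br (Nat.shiftLeft (nat_lit 0x4000003804005009) (nat_lit 65)) (.one (nat_lit 0x800000700800a011000e010116022511)) (.br (Nat.shiftLeft (nat_lit 0x800000700800a013) (nat_lit 64)) (.one (nat_lit 0x800000700800a012000e010116024511))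 (.one (nat_lit 0x800000700800a013000e010116026511))))) (.br (Nat.shiftLeft (nat_lit 0x5) (nat_lit 125)) (.br (Nat.shiftLeft (nat_lit 0x4800003804005009) (nat_lit 65)) (.one (nat_lit 0x900000700800a011000e010136422511)) (.br (Nat.shiftLeft (nat_lit 0x900000700800a013) (nat_lit 64)) (.one (nat_lit 0x900000700800a012000e010136424511)) (.one (nat_lit 0x900000700800a013000e010136426511)))) (.br (Nat.shiftLeft (nat_lit 0x5000003804005009) (nat_lit 65)) (.one (nat_lit 0xa00000700800a011000e010156822511)) (.br (Nat.shiftLeft (nat_lit 0xa00000700800a013) (nat_lit 64)) (.one (nat_lit 0xa00000700800a012000e010156824511)) (.one (nat_lit 0xa00000700800a013000e010156826511))))))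
def t12 : k12.all (jb2 57 fl b0) = true := by decide +kernel
noncomputable def s0 : KT := (.br (nat_lit 0x300700800a013600e010014026650) (.br (nat_lit 0x200700800a011400e010014022650) (.br (nat_lit 0x100700800a012200e010014024650) k0 (.br (nat_lit 0x100700800a013200e010014026650) k1 k2)) (.br (nat_lit 0x200700800a013400e010014026650) k3 (.br (nat_lit 0x300700800a011600e010014022650) k4 k5))) (.br (nat_lit 0x500700800a011a00e010014022650) (.br (nat_lit 0x400700800a011800e010014022650) k6 (.br (nat_lit 0x400700800a013800e010014026650) k7 k8)) (.br (nat_lit 0x200000700800a013000e010054826511) (.br (nat_lit 0x500700800a013a00e010014026650) k9 k10) (.br (nat_lit 0x700000700800a011000e0100f5c22511) k11 k12))))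
noncomputable def u0 : KT := (.br (Nat.shiftLeft (nat_lit 0x3804005009) (nat_lit 65)) (.one (nat_lit 0x700800a011000e010014022540)) (.br (Nat.shiftLeft (nat_lit 0x700800a013) (nat_lit 64)) (.one (nat_lit 0x700800a012000e010014024540)) (.one (nat_lit 0x700800a013000e010014026540))))
def w0 : u0.all (wj 57 s0) = true := by decide +kernel
def o0 : OkW 57 (jb2 57 fl) u0 := .lift s0 _ (.br _ _ _ (.br _ _ _ (.br _ _ _ (.leaf b0 k0 t0) (.br _ _ _ (.leaf b0 k1 t1) (.leaf b0 k2 t2))) (.br _ _ _ (.leaf b0 k3 t3) (.br _ _ _ (.leaf b0 k4 t4) (.leaf b0 k5 t5)))) (.br _ _ _ (.br _ _ _ (.leaf b0 k6 t6) (.br _ _ _ (.leaf b0 k7 t7) (.leaf b0 k8 t8))) (.br _ _ _ (.br _ _ _ (.leaf b0 k9 t9) (.leaf b0 k10 t10)) (.br _ _ _ (.leaf b0 k11 t11) (.leaf b0 k12 t12))))) w0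
noncomputable def k13 : KT := (.br (Nat.shiftLeft (nat_lit 0x5) (nat_lit 112)) (.br (Nat.shiftLeft (nat_lit 0x1) (nat_lit 113)) (.br (Nat.shiftLeft (nat_lit 0x1) (nat_lit 112)) (.one (nat_lit 0x700800b00c000e010016019500)) (.one (nat_lit 0x100700800b00c200e010016019600))) (.br (Nat.shiftLeft (nat_lit 0x3) (nat_lit 112)) (.one (nat_lit 0x200700800b00c400e010016019600)) (.br (Nat.shiftLeft (nat_lit 0x1) (nat_lit 114)) (.one (nat_lit 0x300700800b00c600e010016019600)) (.one (nat_lit 0x400700800b00c800e010016019600))))) (.br (Nat.shiftLeft (nat_lit 0x801) (nat_lit 113)) (.br (Nat.shiftLeft (nat_lit 0x3) (nat_lit 113)) (.one (nat_lit 0x500700800b00ca00e010016019600)) (.br (Nat.shiftLeft (nat_lit 0x1) (nat_lit 124)) (.one (nat_lit 0x600700800b00cc00e010016019600)) (.one (nat_lit 0x100000700800b00c000e010036418511)))) (.br (Nat.shiftLeft (nat_lit 0x1003) (nat_lit 112)) (.one (nat_lit 0x100200700800b00c400e010036419700)) (.br (Nat.shiftLeft (nat_lit 0x401) (nat_lit 114)) (.one (nat_lit 0x100300700800b00c600e010036419700))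 (.one (nat_lit 0x100400700800b00c800e010036418760))))))
def t13 : k13.all (jb2 57 fl b0) = true := by decide +kernel
noncomputable def k14 : KT := (.br (Nat.shiftLeft (nat_lit 0x1) (nat_lit 125)) (.br (Nat.shiftLeft (nat_lit 0x803) (nat_lit 113)) (.one (nat_lit 0x100500700800b00ca00e010036418760)) (.one (nat_lit 0x100600700800b00cc00e010036418760))) (.br (Nat.shiftLeft (nat_lit 0x1001) (nat_lit 113)) (.one (nat_lit 0x200000700800b00c000e010056818511)) (.one (nat_lit 0x200300700800b00c600e010056819700))))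
def t14 : k14.all (jb2 57 fl b0) = true := by decide +kernel
noncomputable def k15 : KT := (.one (nat_lit 0x200400700800b00c800e010056818760))
def t15 : k15.all (jb2 57 fl b0) = true := by decide +kernel
noncomputable def k16 : KT := (.br (Nat.shiftLeft (nat_lit 0x1003) (nat_lit 113)) (.one (nat_lit 0x200500700800b00ca00e010056818760)) (.one (nat_lit 0x200600700800b00cc00e010056818760)))
def t16 : k16.all (jb2 57 fl b0) = true := by decide +kernel
noncomputable def k17 : KT := (.br (Nat.shiftLeft (nat_lit 0xc01) (nat_lit 114)) (.one (nat_lit 0x300000700800b00c000e010076c18511)) (.one (nat_lit 0x300400700800b00c800e010076c18760)))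
def t17 : k17.all (jb2 57 fl b0) = true := by decide +kernel
noncomputable def k18 : KT := (.one (nat_lit 0x300500700800b00ca00e010076c18760))
def t18 : k18.all (jb2 57 fl b0) = true := by decide +kernel
noncomputable def k19 : KT := (.br (Nat.shiftLeft (nat_lit 0x1) (nat_lit 126)) (.one (nat_lit 0x300600700800b00cc00e010076c18760)) (.br (Nat.shiftLeft (nat_lit 0x1001) (nat_lit 114)) (.one (nat_lit 0x400000700800b00c000e010097018511)) (.one (nat_lit 0x400500700800b00ca00e010097018760))))
def t19 : k19.all (jb2 57 fl b0) = true := by decide +kernel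
noncomputable def k20 : KT := (.br (Nat.shiftLeft (nat_lit 0x5) (nat_lit 124)) (.one (nat_lit 0x400600700800b00cc00e010097018760)) (.br (Nat.shiftLeft (nat_lit 0x1401) (nat_lit 114)) (.one (nat_lit 0x500000700800b00c000e0100b7418511)) (.one (nat_lit 0x500600700800b00cc00e0100b7418760))))
def t20 : k20.all (jb2 57 fl b0) = true := by decide +kernel
noncomputable def k21 : KT := (.br (Nat.shiftLeft (nat_lit 0x7) (nat_lit 124)) (.one (nat_lit 0x600000700800b00c000e0100d7818511)) (.br (Nat.shiftLeft (nat_lit 0x1) (nat_lit 127)) (.one (nat_lit 0x700000700800b00c000e0100f7c18511)) (.one (nat_lit 0x800000700800b00c000e010118018511))))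
def t21 : k21.all (jb2 57 fl b0) = true := by decide +kernel
noncomputable def k22 : KT := (.br (Nat.shiftLeft (nat_lit 0x800001) (nat_lit 113)) (.br (Nat.shiftLeft (nat_lit 0xb) (nat_lit 124)) (.br (Nat.shiftLeft (nat_lit 0x5) (nat_lit 125)) (.one (nat_lit 0x900000700800b00c000e010138418511)) (.one (nat_lit 0xa00000700800b00c000e010158818511))) (.br (Nat.shiftLeft (nat_lit 0x1) (nat_lit 136)) (.one (nat_lit 0xb00000700800b00c000e010178c18511)) (.one (nat_lit 0x100000100700800b00c200e030416018611)))) (.br (Nat.shiftLeft (nat_lit 0x400001) (nat_lit 114)) (.br (Nat.shiftLeft (nat_lit 0x1000003) (nat_lit 112)) (.one (nat_lit 0x100000200700800b00c400e030416018611)) (.one (nat_lit 0x100000300700800b00c600e030416018611))) (.br (Nat.shiftLeft (nat_lit 0x1000005) (nat_lit 112)) (.one (nat_lit 0x100000400700800b00c800e030416018611)) (.br (Nat.shiftLeft (nat_lit 0x800003) (nat_lit 113)) (.one (nat_lit 0x100000500700800b00ca00e030416018611)) (.one (nat_lit 0x100000600700800b00cc00e030416018611))))))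
def t22 : k22.all (jb2 57 fl b0) = true := by decide +kernel
noncomputable def k23 : KT := (.br (Nat.shiftLeft (nat_lit 0x1800001) (nat_lit 113)) (.br (Nat.shiftLeft (nat_lit 0x800001) (nat_lit 114)) (.br (Nat.shiftLeft (nat_lit 0x1000001) (nat_lit 113)) (.br (Nat.shiftLeft (nat_lit 0x1) (nat_lit 137)) (.one (nat_lit 0x100200300700800b00c600e030456818870)) (.one (nat_lit 0x200000100700800b00c200e050816018611))) (.br (Nat.shiftLeft (nat_lit 0x2000003) (nat_lit 112)) (.one (nat_lit 0x200000200700800b00c400e050816018611)) (.one (nat_lit 0x200000300700800b00c600e050816018611)))) (.br (Nat.shiftLeft (nat_lit 0x1000003) (nat_lit 113)) (.br (Nat.shiftLeft (nat_lit 0x2000005) (nat_lit 112)) (.one (nat_lit 0x200000400700800b00c800e050816018611)) (.one (nat_lit 0x200000500700800b00ca00e050816018611))) (.br (Nat.shiftLeft (nat_lit 0x3) (nat_lit 136)) (.one (nat_lit 0x200000600700800b00cc00e050816018611)) (.one (nat_lit 0x300000100700800b00c200e070c16018611))))) (.br (Nat.shiftLeft (nat_lit 0x1800003) (nat_lit 113))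 (.br (Nat.shiftLeft (nat_lit 0xc00001) (nat_lit 114)) (.br (Nat.shiftLeft (nat_lit 0x3000003) (nat_lit 112)) (.one (nat_lit 0x300000200700800b00c400e070c16018611)) (.one (nat_lit 0x300000300700800b00c600e070c16018611))) (.br (Nat.shiftLeft (nat_lit 0x3000005) (nat_lit 112)) (.one (nat_lit 0x300000400700800b00c800e070c16018611)) (.one (nat_lit 0x300000500700800b00ca00e070c16018611)))) (.br (Nat.shiftLeft (nat_lit 0x2000001) (nat_lit 113)) (.br (Nat.shiftLeft (nat_lit 0x1) (nat_lit 138)) (.one (nat_lit 0x300000600700800b00cc00e070c16018611)) (.one (nat_lit 0x400000100700800b00c200e091016018611))) (.br (Nat.shiftLeft (nat_lit 0x4000003) (nat_lit 112)) (.one (nat_lit 0x400000200700800b00c400e091016018611)) (.one (nat_lit 0x400000300700800b00c600e091016018611))))))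
def t23 : k23.all (jb2 57 fl b0) = true := by decide +kernel
noncomputable def k24 : KT := (.br (Nat.shiftLeft (nat_lit 0x2000003) (nat_lit 113)) (.br (Nat.shiftLeft (nat_lit 0x4000005) (nat_lit 112)) (.one (nat_lit 0x400000400700800b00c800e091016018611)) (.one (nat_lit 0x400000500700800b00ca00e091016018611))) (.br (Nat.shiftLeft (nat_lit 0x5) (nat_lit 136)) (.one (nat_lit 0x400000600700800b00cc00e091016018611)) (.br (Nat.shiftLeft (nat_lit 0x2800001) (nat_lit 113)) (.one (nat_lit 0x500000100700800b00c200e0b1416018611)) (.one (nat_lit 0x500000200700800b00c400e0b1416018611)))))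
def t24 : k24.all (jb2 57 fl b0) = true := by decide +kernel
noncomputable def k25 : KT := (.br (Nat.shiftLeft (nat_lit 0x5000005) (nat_lit 112)) (.br (Nat.shiftLeft (nat_lit 0x1400001) (nat_lit 114)) (.one (nat_lit 0x500000300700800b00c600e0b1416018611)) (.one (nat_lit 0x500000400700800b00c800e0b1416018611))) (.br (Nat.shiftLeft (nat_lit 0x2800003) (nat_lit 113)) (.one (nat_lit 0x500000500700800b00ca00e0b1416018611)) (.one (nat_lit 0x500000600700800b00cc00e0b1416018611))))
def t25 : k25.all (jb2 57 fl b0) = true := by decide +kernel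
noncomputable def k26 : KT := (.br (Nat.shiftLeft (nat_lit 0x3000001) (nat_lit 113)) (.one (nat_lit 0x600000100700800b00c200e0d1816018611)) (.one (nat_lit 0x600000200700800b00c400e0d1816018611)))
def t26 : k26.all (jb2 57 fl b0) = true := by decide +kernel
noncomputable def k27 : KT := (.br (Nat.shiftLeft (nat_lit 0x6000005) (nat_lit 112)) (.br (Nat.shiftLeft (nat_lit 0x1800001) (nat_lit 114)) (.one (nat_lit 0x600000300700800b00c600e0d1816018611)) (.one (nat_lit 0x600000400700800b00c800e0d1816018611))) (.br (Nat.shiftLeft (nat_lit 0x3000003) (nat_lit 113)) (.one (nat_lit 0x600000500700800b00ca00e0d1816018611)) (.one (nat_lit 0x600000600700800b00cc00e0d1816018611))))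
def t27 : k27.all (jb2 57 fl b0) = true := by decide +kernel
noncomputable def k28 : KT := (.br (Nat.shiftLeft (nat_lit 0x3800001) (nat_lit 113)) (.one (nat_lit 0x700000100700800b00c200e0f1c16018611)) (.one (nat_lit 0x700000200700800b00c400e0f1c16018611)))
def t28 : k28.all (jb2 57 fl b0) = true := by decide +kernel
noncomputable def k29 : KT := (.br (Nat.shiftLeft (nat_lit 0x7000005) (nat_lit 112)) (.br (Nat.shiftLeft (nat_lit 0x1c00001) (nat_lit 114)) (.one (nat_lit 0x700000300700800b00c600e0f1c16018611)) (.one (nat_lit 0x700000400700800b00c800e0f1c16018611))) (.br (Nat.shiftLeft (nat_lit 0x3800003) (nat_lit 113)) (.one (nat_lit 0x700000500700800b00ca00e0f1c16018611)) (.br (Nat.shiftLeft (nat_lit 0x1) (nat_lit 139)) (.one (nat_lit 0x700000600700800b00cc00e0f1c16018611)) (.one (nat_lit 0x800000100700800b00c200e112016018611)))))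
def t29 : k29.all (jb2 57 fl b0) = true := by decide +kernel
noncomputable def k30 : KT := (.br (Nat.shiftLeft (nat_lit 0x8000005) (nat_lit 112)) (.br (Nat.shiftLeft (nat_lit 0x8000003) (nat_lit 112)) (.one (nat_lit 0x800000200700800b00c400e112016018611)) (.br (Nat.shiftLeft (nat_lit 0x2000001) (nat_lit 114)) (.one (nat_lit 0x800000300700800b00c600e112016018611)) (.one (nat_lit 0x800000400700800b00c800e112016018611)))) (.br (Nat.shiftLeft (nat_lit 0x9) (nat_lit 136)) (.br (Nat.shiftLeft (nat_lit 0x4000003) (nat_lit 113)) (.one (nat_lit 0x800000500700800b00ca00e112016018611)) (.one (nat_lit 0x800000600700800b00cc00e112016018611))) (.br (Nat.shiftLeft (nat_lit 0x4800001) (nat_lit 113)) (.one (nat_lit 0x900000100700800b00c200e132416018611)) (.one (nat_lit 0x900000200700800b00c400e132416018611)))))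
def t30 : k30.all (jb2 57 fl b0) = true := by decide +kernel
noncomputable def k31 : KT := (.br (Nat.shiftLeft (nat_lit 0xb000003) (nat_lit 112)) (.br (Nat.shiftLeft (nat_lit 0xa000003) (nat_lit 112)) (.br (Nat.shiftLeft (nat_lit 0x4800003) (nat_lit 113)) (.br (Nat.shiftLeft (nat_lit 0x2400001) (nat_lit 114)) (.one (nat_lit 0x900000300700800b00c600e132416018611)) (.br (Nat.shiftLeft (nat_lit 0x9000005) (nat_lit 112)) (.one (nat_lit 0x900000400700800b00c800e132416018611)) (.one (nat_lit 0x900000500700800b00ca00e132416018611)))) (.br (Nat.shiftLeft (nat_lit 0x5) (nat_lit 137)) (.one (nat_lit 0x900000600700800b00cc00e132416018611)) (.br (Nat.shiftLeft (nat_lit 0x5000001) (nat_lit 113)) (.one (nat_lit 0xa00000100700800b00c200e152816018611)) (.one (nat_lit 0xa00000200700800b00c400e152816018611))))) (.br (Nat.shiftLeft (nat_lit 0x5000003) (nat_lit 113)) (.br (Nat.shiftLeft (nat_lit 0x2800001) (nat_lit 114)) (.one (nat_lit 0xa00000300700800b00c600e152816018611)) (.br (Nat.shiftLeft (nat_lit 0xa000005) (nat_lit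 112)) (.one (nat_lit 0xa00000400700800b00c800e152816018611)) (.one (nat_lit 0xa00000500700800b00ca00e152816018611)))) (.br (Nat.shiftLeft (nat_lit 0xb) (nat_lit 136)) (.one (nat_lit 0xa00000600700800b00cc00e152816018611)) (.br (Nat.shiftLeft (nat_lit 0x5800001) (nat_lit 113)) (.one (nat_lit 0xb00000100700800b00c200e172c16018611)) (.one (nat_lit 0xb00000200700800b00c400e172c16018611)))))) (.br (Nat.shiftLeft (nat_lit 0x800001) (nat_lit 125)) (.br (Nat.shiftLeft (nat_lit 0x5800003) (nat_lit 113)) (.br (Nat.shiftLeft (nat_lit 0x2c00001) (nat_lit 114)) (.one (nat_lit 0xb00000300700800b00c600e172c16018611)) (.br (Nat.shiftLeft (nat_lit 0xb000005) (nat_lit 112)) (.one (nat_lit 0xb00000400700800b00c800e172c16018611)) (.one (nat_lit 0xb00000500700800b00ca00e172c16018611)))) (.br (Nat.shiftLeft (nat_lit 0x1) (nat_lit 148)) (.one (nat_lit 0xb00000600700800b00cc00e172c16018611)) (.br (Nat.shiftLeft (nat_lit 0x1000001003) (nat_lit 112)) (.one (nat_lit 0x100000100200700800b00c402e410036418711)) (.one (nat_lit 0x100000100300700800b00c602e410036418711)))))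 (.br (Nat.shiftLeft (nat_lit 0x1000001) (nat_lit 125)) (.br (Nat.shiftLeft (nat_lit 0x1) (nat_lit 149)) (.one (nat_lit 0x100000200300700800b00c602e410056818711)) (.br (Nat.shiftLeft (nat_lit 0x2000001003) (nat_lit 112)) (.one (nat_lit 0x200000100200700800b00c404e810036418711)) (.one (nat_lit 0x200000100300700800b00c604e810036418711)))) (.br (Nat.shiftLeft (nat_lit 0x3000001003) (nat_lit 112)) (.br (Nat.shiftLeft (nat_lit 0x3) (nat_lit 148)) (.one (nat_lit 0x200000200300700800b00c604e810056818711)) (.one (nat_lit 0x300000100200700800b00c406ec10036418711))) (.br (Nat.shiftLeft (nat_lit 0x1800001) (nat_lit 125)) (.one (nat_lit 0x300000100300700800b00c606ec10036418711)) (.one (nat_lit 0x300000200300700800b00c606ec10056818711)))))))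
def t31 : k31.all (jb2 57 fl b0) = true := by decide +kernel
noncomputable def k32 : KT := (.br (Nat.shiftLeft (nat_lit 0x5) (nat_lit 148)) (.br (Nat.shiftLeft (nat_lit 0x4000001003) (nat_lit 112)) (.one (nat_lit 0x400000100200700800b00c408f010036418711)) (.br (Nat.shiftLeft (nat_lit 0x2000001) (nat_lit 125)) (.one (nat_lit 0x400000100300700800b00c608f010036418711)) (.one (nat_lit 0x400000200300700800b00c608f010056818711)))) (.br (Nat.shiftLeft (nat_lit 0x5000001003) (nat_lit 112)) (.one (nat_lit 0x500000100200700800b00c40af410036418711)) (.br (Nat.shiftLeft (nat_lit 0x2800001) (nat_lit 125)) (.one (nat_lit 0x500000100300700800b00c60af410036418711)) (.one (nat_lit 0x500000200300700800b00c60af410056818711)))))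
def t32 : k32.all (jb2 57 fl b0) = true := by decide +kernel
noncomputable def k33 : KT := (.br (Nat.shiftLeft (nat_lit 0x3000001) (nat_lit 125)) (.br (Nat.shiftLeft (nat_lit 0x6000001003) (nat_lit 112)) (.one (nat_lit 0x600000100200700800b00c40cf810036418711)) (.one (nat_lit 0x600000100300700800b00c60cf810036418711))) (.br (Nat.shiftLeft (nat_lit 0x7) (nat_lit 148)) (.one (nat_lit 0x600000200300700800b00c60cf810056818711)) (.one (nat_lit 0x700000100200700800b00c40efc10036418711))))
def t33 : k33.all (jb2 57 fl b0) = true := by decide +kernel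
noncomputable def k34 : KT := (.br (Nat.shiftLeft (nat_lit 0x9000001003) (nat_lit 112)) (.br (Nat.shiftLeft (nat_lit 0x8000001003) (nat_lit 112)) (.br (Nat.shiftLeft (nat_lit 0x3800001) (nat_lit 125)) (.one (nat_lit 0x700000100300700800b00c60efc10036418711)) (.br (Nat.shiftLeft (nat_lit 0x1) (nat_lit 151)) (.one (nat_lit 0x700000200300700800b00c60efc10056818711)) (.one (nat_lit 0x800000100200700800b00c4110010036418711)))) (.br (Nat.shiftLeft (nat_lit 0x4000001) (nat_lit 125)) (.one (nat_lit 0x800000100300700800b00c6110010036418711)) (.br (Nat.shiftLeft (nat_lit 0x9) (nat_lit 148)) (.one (nat_lit 0x800000200300700800b00c6110010056818711)) (.one (nat_lit 0x900000100200700800b00c4130410036418711))))) (.br (Nat.shiftLeft (nat_lit 0xa000001003) (nat_lit 112)) (.br (Nat.shiftLeft (nat_lit 0x4800001) (nat_lit 125)) (.one (nat_lit 0x900000100300700800b00c6130410036418711)) (.br (Nat.shiftLeft (nat_lit 0x5) (nat_lit 149)) (.one (nat_lit 0x900000200300700800b00c6130410056818711)) (.one (nat_lit 0xa00000100200700800b00c4150810036418711))))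 (.br (Nat.shiftLeft (nat_lit 0x5000001) (nat_lit 125)) (.one (nat_lit 0xa00000100300700800b00c6150810036418711)) (.br (Nat.shiftLeft (nat_lit 0xb) (nat_lit 148)) (.one (nat_lit 0xa00000200300700800b00c6150810056818711)) (.one (nat_lit 0xb00000100200700800b00c4170c10036418711))))))
def t34 : k34.all (jb2 57 fl b0) = true := by decide +kernel
noncomputable def k35 : KT := (.br (Nat.shiftLeft (nat_lit 0x5800001) (nat_lit 125)) (.one (nat_lit 0xb00000100300700800b00c6170c10036418711)) (.one (nat_lit 0xb00000200300700800b00c6170c10056818711)))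
def t35 : k35.all (jb2 57 fl b0) = true := by decide +kernel
noncomputable def s1 : KT := (.br (nat_lit 0x400000300700800b00c600e091016018611) (.br (nat_lit 0x300400700800b00c800e010076c18760) (.br (nat_lit 0x200300700800b00c600e010056819700) (.br (nat_lit 0x100400700800b00c800e010036418760) k13 k14) (.br (nat_lit 0x200400700800b00c800e010056818760) k15 (.br (nat_lit 0x200600700800b00cc00e010056818760) k16 k17))) (.br (nat_lit 0x500600700800b00cc00e0100b7418760) (.br (nat_lit 0x300500700800b00ca00e010076c18760) k18 (.br (nat_lit 0x400500700800b00ca00e010097018760) k19 k20)) (.br (nat_lit 0x800000700800b00c000e010118018511) k21 (.br (nat_lit 0x100000600700800b00cc00e030416018611) k22 k23)))) (.br (nat_lit 0x800000100700800b00c200e112016018611) (.br (nat_lit 0x600000200700800b00c400e0d1816018611) (.br (nat_lit 0x500000200700800b00c400e0b1416018611) k24 (.br (nat_lit 0x500000600700800b00cc00e0b1416018611) k25 k26)) (.br (nat_lit 0x600000600700800b00cc00e0d1816018611) k27 (.br (nat_lit 0x700000200700800b00c400e0f1c16018611)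 k28 k29))) (.br (nat_lit 0x500000200300700800b00c60af410056818711) (.br (nat_lit 0x900000200700800b00c400e132416018611) k30 (.br (nat_lit 0x300000200300700800b00c606ec10056818711) k31 k32)) (.br (nat_lit 0x700000100200700800b00c40efc10036418711) k33 (.br (nat_lit 0xb00000100200700800b00c4170c10036418711) k34 k35)))))
noncomputable def u1 : KT := (.one (nat_lit 0x700800b00c000e010016018540))
def w1 : u1.all (wj 57 s1) = true := by decide +kernel
def o1 : OkW 57 (jb2 57 fl) u1 := .lift s1 _ (.br _ _ _ (.br _ _ _ (.br _ _ _ (.br _ _ _ (.leaf b0 k13 t13) (.leaf b0 k14 t14)) (.br _ _ _ (.leaf b0 k15 t15) (.br _ _ _ (.leaf b0 k16 t16) (.leaf b0 k17 t17)))) (.br _ _ _ (.br _ _ _ (.leaf b0 k18 t18) (.br _ _ _ (.leaf b0 k19 t19) (.leaf b0 k20 t20))) (.br _ _ _ (.leaf b0 k21 t21) (.br _ _ _ (.leaf b0 k22 t22) (.leaf b0 k23 t23))))) (.br _ _ _ (.br _ _ _ (.br _ _ _ (.leaf b0 k24 t24) (.br _ _ _ (.leaf b0 k25 t25) (.leaf b0 k26 t26))) (.br _ _ _ (.leaf b0 k27 t27) (.br _ _ _ (.leaf b0 k28 t28) (.leaf b0 k29 t29))))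 (.br _ _ _ (.br _ _ _ (.leaf b0 k30 t30) (.br _ _ _ (.leaf b0 k31 t31) (.leaf b0 k32 t32))) (.br _ _ _ (.leaf b0 k33 t33) (.br _ _ _ (.leaf b0 k34 t34) (.leaf b0 k35 t35)))))) w1
noncomputable def k36 : KT := (.br (Nat.shiftLeft (nat_lit 0x1) (nat_lit 114)) (.br (Nat.shiftLeft (nat_lit 0x1) (nat_lit 113)) (.br (Nat.shiftLeft (nat_lit 0x1) (nat_lit 112)) (.one (nat_lit 0x700800b00d000e01001601b500)) (.one (nat_lit 0x100700800b00d200e01001601b600))) (.br (Nat.shiftLeft (nat_lit 0x3) (nat_lit 112)) (.one (nat_lit 0x200700800b00d400e01001601b600)) (.one (nat_lit 0x300700800b00d600e01001601b600)))) (.br (Nat.shiftLeft (nat_lit 0x3) (nat_lit 113)) (.br (Nat.shiftLeft (nat_lit 0x5) (nat_lit 112)) (.one (nat_lit 0x400700800b00d800e01001601b600)) (.one (nat_lit 0x500700800b00da00e01001601b600))) (.br (Nat.shiftLeft (nat_lit 0x1) (nat_lit 124)) (.one (nat_lit 0x600700800b00dc00e01001601b600)) (.one (nat_lit 0x100000700800b00d000e01003641a511)))))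
def t36 : k36.all (jb2 57 fl b0) = true := by decide +kernel
noncomputable def k37 : KT := (.one (nat_lit 0x100200700800b00d400e01003641a760))
def t37 : k37.all (jb2 57 fl b0) = true := by decide +kernel
noncomputable def k38 : KT := (.one (nat_lit 0x100300700800b00d600e01003641a760))
def t38 : k38.all (jb2 57 fl b0) = true := by decide +kernel
noncomputable def k39 : KT := (.br (Nat.shiftLeft (nat_lit 0x1005) (nat_lit 112)) (.one (nat_lit 0x100400700800b00d800e01003641a760)) (.one (nat_lit 0x100500700800b00da00e01003641a760)))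
def t39 : k39.all (jb2 57 fl b0) = true := by decide +kernel
noncomputable def k40 : KT := (.br (Nat.shiftLeft (nat_lit 0x1) (nat_lit 125)) (.one (nat_lit 0x100600700800b00dc00e01003641a760)) (.one (nat_lit 0x200000700800b00d000e01005681a511)))
def t40 : k40.all (jb2 57 fl b0) = true := by decide +kernel
noncomputable def k41 : KT := (.one (nat_lit 0x200300700800b00d600e01005681a760))
def t41 : k41.all (jb2 57 fl b0) = true := by decide +kernel
noncomputable def k42 : KT := (.one (nat_lit 0x200400700800b00d800e01005681a760))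
def t42 : k42.all (jb2 57 fl b0) = true := by decide +kernel
noncomputable def k43 : KT := (.br (Nat.shiftLeft (nat_lit 0x1003) (nat_lit 113)) (.one (nat_lit 0x200500700800b00da00e01005681a760)) (.br (Nat.shiftLeft (nat_lit 0x3) (nat_lit 124)) (.one (nat_lit 0x200600700800b00dc00e01005681a760)) (.one (nat_lit 0x300000700800b00d000e010076c1a511))))
def t43 : k43.all (jb2 57 fl b0) = true := by decide +kernel
noncomputable def k44 : KT := (.one (nat_lit 0x300400700800b00d800e010076c1a760))
def t44 : k44.all (jb2 57 fl b0) = true := by decide +kernel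
noncomputable def k45 : KT := (.br (Nat.shiftLeft (nat_lit 0x1803) (nat_lit 113)) (.one (nat_lit 0x300500700800b00da00e010076c1a760)) (.br (Nat.shiftLeft (nat_lit 0x1) (nat_lit 126)) (.one (nat_lit 0x300600700800b00dc00e010076c1a760)) (.one (nat_lit 0x400000700800b00d000e01009701a511))))
def t45 : k45.all (jb2 57 fl b0) = true := by decide +kernel
noncomputable def k46 : KT := (.br (Nat.shiftLeft (nat_lit 0x5) (nat_lit 124)) (.br (Nat.shiftLeft (nat_lit 0x2003) (nat_lit 113)) (.one (nat_lit 0x400500700800b00da00e01009701a760)) (.one (nat_lit 0x400600700800b00dc00e01009701a760))) (.br (Nat.shiftLeft (nat_lit 0x1401) (nat_lit 114)) (.one (nat_lit 0x500000700800b00d000e0100b741a511)) (.one (nat_lit 0x500600700800b00dc00e0100b741a760))))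
def t46 : k46.all (jb2 57 fl b0) = true := by decide +kernel
noncomputable def k47 : KT := (.br (Nat.shiftLeft (nat_lit 0x7) (nat_lit 124)) (.one (nat_lit 0x600000700800b00d000e0100d781a511)) (.br (Nat.shiftLeft (nat_lit 0x1) (nat_lit 127)) (.one (nat_lit 0x700000700800b00d000e0100f7c1a511)) (.one (nat_lit 0x800000700800b00d000e01011801a511))))
def t47 : k47.all (jb2 57 fl b0) = true := by decide +kernel
noncomputable def k48 : KT := (.br (Nat.shiftLeft (nat_lit 0x800001) (nat_lit 114)) (.br (Nat.shiftLeft (nat_lit 0x400001) (nat_lit 114)) (.br (Nat.shiftLeft (nat_lit 0x1) (nat_lit 136)) (.br (Nat.shiftLeft (nat_lit 0x5) (nat_lit 125)) (.one (nat_lit 0x900000700800b00d000e01013841a511)) (.br (Nat.shiftLeft (nat_lit 0xb) (nat_lit 124)) (.one (nat_lit 0xa00000700800b00d000e01015881a511)) (.one (nat_lit 0xb00000700800b00d000e010178c1a511)))) (.br (Nat.shiftLeft (nat_lit 0x800001) (nat_lit 113)) (.one (nat_lit 0x100000100700800b00d200e03041601a611)) (.br (Nat.shiftLeft (nat_lit 0x1000003) (nat_lit 112))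 (.one (nat_lit 0x100000200700800b00d400e03041601a611)) (.one (nat_lit 0x100000300700800b00d600e03041601a611))))) (.br (Nat.shiftLeft (nat_lit 0x1) (nat_lit 137)) (.br (Nat.shiftLeft (nat_lit 0x1000005) (nat_lit 112)) (.one (nat_lit 0x100000400700800b00d800e03041601a611)) (.br (Nat.shiftLeft (nat_lit 0x800003) (nat_lit 113)) (.one (nat_lit 0x100000500700800b00da00e03041601a611)) (.one (nat_lit 0x100000600700800b00dc00e03041601a611)))) (.br (Nat.shiftLeft (nat_lit 0x1000001) (nat_lit 113)) (.one (nat_lit 0x200000100700800b00d200e05081601a611)) (.br (Nat.shiftLeft (nat_lit 0x2000003) (nat_lit 112)) (.one (nat_lit 0x200000200700800b00d400e05081601a611)) (.one (nat_lit 0x200000300700800b00d600e05081601a611)))))) (.br (Nat.shiftLeft (nat_lit 0xc00001) (nat_lit 114)) (.br (Nat.shiftLeft (nat_lit 0x3) (nat_lit 136)) (.br (Nat.shiftLeft (nat_lit 0x2000005) (nat_lit 112)) (.one (nat_lit 0x200000400700800b00d800e05081601a611)) (.br (Nat.shiftLeft (nat_lit 0x1000003) (nat_lit 113)) (.one (nat_lit 0x200000500700800b00da00e05081601a611))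 (.one (nat_lit 0x200000600700800b00dc00e05081601a611)))) (.br (Nat.shiftLeft (nat_lit 0x1800001) (nat_lit 113)) (.one (nat_lit 0x300000100700800b00d200e070c1601a611)) (.br (Nat.shiftLeft (nat_lit 0x3000003) (nat_lit 112)) (.one (nat_lit 0x300000200700800b00d400e070c1601a611)) (.one (nat_lit 0x300000300700800b00d600e070c1601a611))))) (.br (Nat.shiftLeft (nat_lit 0x1) (nat_lit 138)) (.br (Nat.shiftLeft (nat_lit 0x3000005) (nat_lit 112)) (.one (nat_lit 0x300000400700800b00d800e070c1601a611)) (.br (Nat.shiftLeft (nat_lit 0x1800003) (nat_lit 113)) (.one (nat_lit 0x300000500700800b00da00e070c1601a611)) (.one (nat_lit 0x300000600700800b00dc00e070c1601a611)))) (.br (Nat.shiftLeft (nat_lit 0x4000003) (nat_lit 112)) (.br (Nat.shiftLeft (nat_lit 0x2000001) (nat_lit 113)) (.one (nat_lit 0x400000100700800b00d200e09101601a611)) (.one (nat_lit 0x400000200700800b00d400e09101601a611))) (.br (Nat.shiftLeft (nat_lit 0x1000001) (nat_lit 114)) (.one (nat_lit 0x400000300700800b00d600e09101601a611)) (.one (nat_lit 0x400000400700800b00d800e09101601a611)))))))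
def t48 : k48.all (jb2 57 fl b0) = true := by decide +kernel
noncomputable def k49 : KT := (.br (Nat.shiftLeft (nat_lit 0x2800001) (nat_lit 113)) (.br (Nat.shiftLeft (nat_lit 0x2000003) (nat_lit 113)) (.one (nat_lit 0x400000500700800b00da00e09101601a611)) (.br (Nat.shiftLeft (nat_lit 0x5) (nat_lit 136)) (.one (nat_lit 0x400000600700800b00dc00e09101601a611)) (.one (nat_lit 0x500000100700800b00d200e0b141601a611)))) (.br (Nat.shiftLeft (nat_lit 0x5000003) (nat_lit 112)) (.one (nat_lit 0x500000200700800b00d400e0b141601a611)) (.br (Nat.shiftLeft (nat_lit 0x1400001) (nat_lit 114)) (.one (nat_lit 0x500000300700800b00d600e0b141601a611)) (.one (nat_lit 0x500000400700800b00d800e0b141601a611)))))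
def t49 : k49.all (jb2 57 fl b0) = true := by decide +kernel
noncomputable def k50 : KT := (.br (Nat.shiftLeft (nat_lit 0x3) (nat_lit 137)) (.br (Nat.shiftLeft (nat_lit 0x2800003) (nat_lit 113)) (.one (nat_lit 0x500000500700800b00da00e0b141601a611)) (.one (nat_lit 0x500000600700800b00dc00e0b141601a611))) (.br (Nat.shiftLeft (nat_lit 0x3000001) (nat_lit 113)) (.one (nat_lit 0x600000100700800b00d200e0d181601a611)) (.one (nat_lit 0x600000200700800b00d400e0d181601a611))))
def t50 : k50.all (jb2 57 fl b0) = true := by decide +kernel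
noncomputable def k51 : KT := (.br (Nat.shiftLeft (nat_lit 0x6000005) (nat_lit 112)) (.br (Nat.shiftLeft (nat_lit 0x1800001) (nat_lit 114)) (.one (nat_lit 0x600000300700800b00d600e0d181601a611)) (.one (nat_lit 0x600000400700800b00d800e0d181601a611))) (.br (Nat.shiftLeft (nat_lit 0x3000003) (nat_lit 113)) (.one (nat_lit 0x600000500700800b00da00e0d181601a611)) (.br (Nat.shiftLeft (nat_lit 0x7) (nat_lit 136)) (.one (nat_lit 0x600000600700800b00dc00e0d181601a611)) (.one (nat_lit 0x700000100700800b00d200e0f1c1601a611)))))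
def t51 : k51.all (jb2 57 fl b0) = true := by decide +kernel
noncomputable def k52 : KT := (.br (Nat.shiftLeft (nat_lit 0x7000005) (nat_lit 112)) (.br (Nat.shiftLeft (nat_lit 0x7000003) (nat_lit 112)) (.one (nat_lit 0x700000200700800b00d400e0f1c1601a611)) (.br (Nat.shiftLeft (nat_lit 0x1c00001) (nat_lit 114)) (.one (nat_lit 0x700000300700800b00d600e0f1c1601a611)) (.one (nat_lit 0x700000400700800b00d800e0f1c1601a611)))) (.br (Nat.shiftLeft (nat_lit 0x3800003) (nat_lit 113)) (.one (nat_lit 0x700000500700800b00da00e0f1c1601a611)) (.br (Nat.shiftLeft (nat_lit 0x1) (nat_lit 139)) (.one (nat_lit 0x700000600700800b00dc00e0f1c1601a611)) (.one (nat_lit 0x800000100700800b00d200e11201601a611)))))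
def t52 : k52.all (jb2 57 fl b0) = true := by decide +kernel
noncomputable def k53 : KT := (.br (Nat.shiftLeft (nat_lit 0x9000003) (nat_lit 112)) (.br (Nat.shiftLeft (nat_lit 0x8000005) (nat_lit 112)) (.br (Nat.shiftLeft (nat_lit 0x8000003) (nat_lit 112)) (.one (nat_lit 0x800000200700800b00d400e11201601a611)) (.br (Nat.shiftLeft (nat_lit 0x2000001) (nat_lit 114)) (.one (nat_lit 0x800000300700800b00d600e11201601a611)) (.one (nat_lit 0x800000400700800b00d800e11201601a611)))) (.br (Nat.shiftLeft (nat_lit 0x9) (nat_lit 136)) (.br (Nat.shiftLeft (nat_lit 0x4000003) (nat_lit 113)) (.one (nat_lit 0x800000500700800b00da00e11201601a611)) (.one (nat_lit 0x800000600700800b00dc00e11201601a611))) (.br (Nat.shiftLeft (nat_lit 0x4800001) (nat_lit 113)) (.one (nat_lit 0x900000100700800b00d200e13241601a611)) (.one (nat_lit 0x900000200700800b00d400e13241601a611))))) (.br (Nat.shiftLeft (nat_lit 0x4800003) (nat_lit 113)) (.br (Nat.shiftLeft (nat_lit 0x2400001) (nat_lit 114)) (.one (nat_lit 0x900000300700800b00d600e13241601a611))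 (.br (Nat.shiftLeft (nat_lit 0x9000005) (nat_lit 112)) (.one (nat_lit 0x900000400700800b00d800e13241601a611)) (.one (nat_lit 0x900000500700800b00da00e13241601a611)))) (.br (Nat.shiftLeft (nat_lit 0x5000001) (nat_lit 113)) (.br (Nat.shiftLeft (nat_lit 0x5) (nat_lit 137)) (.one (nat_lit 0x900000600700800b00dc00e13241601a611)) (.one (nat_lit 0xa00000100700800b00d200e15281601a611))) (.br (Nat.shiftLeft (nat_lit 0xa000003) (nat_lit 112)) (.one (nat_lit 0xa00000200700800b00d400e15281601a611)) (.one (nat_lit 0xa00000300700800b00d600e15281601a611))))))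
def t53 : k53.all (jb2 57 fl b0) = true := by decide +kernel
noncomputable def k54 : KT := (.br (Nat.shiftLeft (nat_lit 0x5800001) (nat_lit 113)) (.br (Nat.shiftLeft (nat_lit 0x5000003) (nat_lit 113)) (.br (Nat.shiftLeft (nat_lit 0xa000005) (nat_lit 112)) (.one (nat_lit 0xa00000400700800b00d800e15281601a611)) (.one (nat_lit 0xa00000500700800b00da00e15281601a611))) (.br (Nat.shiftLeft (nat_lit 0xb) (nat_lit 136)) (.one (nat_lit 0xa00000600700800b00dc00e15281601a611)) (.one (nat_lit 0xb00000100700800b00d200e172c1601a611)))) (.br (Nat.shiftLeft (nat_lit 0x2c00001) (nat_lit 114)) (.br (Nat.shiftLeft (nat_lit 0xb000003) (nat_lit 112)) (.one (nat_lit 0xb00000200700800b00d400e172c1601a611)) (.one (nat_lit 0xb00000300700800b00d600e172c1601a611))) (.br (Nat.shiftLeft (nat_lit 0xb000005) (nat_lit 112)) (.one (nat_lit 0xb00000400700800b00d800e172c1601a611)) (.br (Nat.shiftLeft (nat_lit 0x5800003) (nat_lit 113)) (.one (nat_lit 0xb00000500700800b00da00e172c1601a611)) (.one (nat_lit 0xb00000600700800b00dc00e172c1601a611))))))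
def t54 : k54.all (jb2 57 fl b0) = true := by decide +kernel
noncomputable def s2 : KT := (.br (nat_lit 0x300400700800b00d800e010076c1a760) (.br (nat_lit 0x100500700800b00da00e01003641a760) (.br (nat_lit 0x100200700800b00d400e01003641a760) (.br (nat_lit 0x100000700800b00d000e01003641a511) k36 k37) (.br (nat_lit 0x100300700800b00d600e01003641a760) k38 k39)) (.br (nat_lit 0x200300700800b00d600e01005681a760) (.br (nat_lit 0x200000700800b00d000e01005681a511) k40 k41) (.br (nat_lit 0x200400700800b00d800e01005681a760) k42 (.br (nat_lit 0x300000700800b00d000e010076c1a511) k43 k44)))) (.br (nat_lit 0x500000400700800b00d800e0b141601a611) (.br (nat_lit 0x500600700800b00dc00e0100b741a760) (.br (nat_lit 0x400000700800b00d000e01009701a511) k45 k46) (.br (nat_lit 0x800000700800b00d000e01011801a511) k47 (.br (nat_lit 0x400000400700800b00d800e09101601a611) k48 k49))) (.br (nat_lit 0x700000100700800b00d200e0f1c1601a611) (.br (nat_lit 0x600000200700800b00d400e0d181601a611) k50 k51) (.br (nat_lit 0x800000100700800b00d200e11201601a611)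 k52 (.br (nat_lit 0xa00000300700800b00d600e15281601a611) k53 k54)))))
noncomputable def u2 : KT := (.one (nat_lit 0x700800b00d000e01001601a540))
def w2 : u2.all (wj 57 s2) = true := by decide +kernel
def o2 : OkW 57 (jb2 57 fl) u2 := .lift s2 _ (.br _ _ _ (.br _ _ _ (.br _ _ _ (.br _ _ _ (.leaf b0 k36 t36) (.leaf b0 k37 t37)) (.br _ _ _ (.leaf b0 k38 t38) (.leaf b0 k39 t39))) (.br _ _ _ (.br _ _ _ (.leaf b0 k40 t40) (.leaf b0 k41 t41)) (.br _ _ _ (.leaf b0 k42 t42) (.br _ _ _ (.leaf b0 k43 t43) (.leaf b0 k44 t44))))) (.br _ _ _ (.br _ _ _ (.br _ _ _ (.leaf b0 k45 t45) (.leaf b0 k46 t46)) (.br _ _ _ (.leaf b0 k47 t47) (.br _ _ _ (.leaf b0 k48 t48) (.leaf b0 k49 t49)))) (.br _ _ _ (.br _ _ _ (.leaf b0 k50 t50) (.leaf b0 k51 t51)) (.br _ _ _ (.leaf b0 k52 t52) (.br _ _ _ (.leaf b0 k53 t53) (.leaf b0 k54 t54)))))) w2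
noncomputable def k55 : KT := (.br (Nat.shiftLeft (nat_lit 0x200700800b00f) (nat_lit 64)) (.br (Nat.shiftLeft (nat_lit 0x1) (nat_lit 112)) (.br (Nat.shiftLeft (nat_lit 0x700800b00f) (nat_lit 64)) (.one (nat_lit 0x700800b00e000e01001601d500)) (.one (nat_lit 0x700800b00f000e01001601f500))) (.br (Nat.shiftLeft (nat_lit 0x100700800b00f) (nat_lit 64)) (.one (nat_lit 0x100700800b00e200e01001601d600)) (.br (Nat.shiftLeft (nat_lit 0x1) (nat_lit 113)) (.one (nat_lit 0x100700800b00f200e01001601e650)) (.one (nat_lit 0x200700800b00e400e01001601d600))))) (.br (Nat.shiftLeft (nat_lit 0x1) (nat_lit 114)) (.br (Nat.shiftLeft (nat_lit 0x3) (nat_lit 112)) (.one (nat_lit 0x200700800b00f400e01001601f600)) (.br (Nat.shiftLeft (nat_lit 0x300700800b00f) (nat_lit 64)) (.one (nat_lit 0x300700800b00e600e01001601d600)) (.one (nat_lit 0x300700800b00f600e01001601f600)))) (.br (Nat.shiftLeft (nat_lit 0x400700800b00f) (nat_lit 64)) (.one (nat_lit 0x400700800b00e800e01001601d600)) (.br (Nat.shiftLeft (nat_lit 0x5) (nat_lit 112)) (.one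 (nat_lit 0x400700800b00f800e01001601f600)) (.one (nat_lit 0x500700800b00ea00e01001601d600))))))
def t55 : k55.all (jb2 57 fl b0) = true := by decide +kernel
noncomputable def k56 : KT := (.br (Nat.shiftLeft (nat_lit 0x3) (nat_lit 113)) (.one (nat_lit 0x500700800b00fa00e01001601e650)) (.one (nat_lit 0x600700800b00ec00e01001601d600)))
def t56 : k56.all (jb2 57 fl b0) = true := by decide +kernel
noncomputable def k57 : KT := (.br (Nat.shiftLeft (nat_lit 0x1) (nat_lit 124)) (.one (nat_lit 0x600700800b00fc00e01001601e650)) (.br (Nat.shiftLeft (nat_lit 0x100000700800b00f) (nat_lit 64)) (.one (nat_lit 0x100000700800b00e000e01003641c511)) (.one (nat_lit 0x100000700800b00f000e01003641e511))))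
def t57 : k57.all (jb2 57 fl b0) = true := by decide +kernel
noncomputable def k58 : KT := (.one (nat_lit 0x100200700800b00e400e01003641c760))
def t58 : k58.all (jb2 57 fl b0) = true := by decide +kernel
noncomputable def k59 : KT := (.br (Nat.shiftLeft (nat_lit 0x1003) (nat_lit 112)) (.one (nat_lit 0x100200700800b00f400e01003641e760)) (.one (nat_lit 0x100300700800b00e600e01003641c760)))
def t59 : k59.all (jb2 57 fl b0) = true := by decide +kernel
noncomputable def k60 : KT := (.br (Nat.shiftLeft (nat_lit 0x401) (nat_lit 114)) (.one (nat_lit 0x100300700800b00f600e01003641e760)) (.br (Nat.shiftLeft (nat_lit 0x100400700800b00f) (nat_lit 64)) (.one (nat_lit 0x100400700800b00e800e01003641c760)) (.one (nat_lit 0x100400700800b00f800e01003641e760))))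
def t60 : k60.all (jb2 57 fl b0) = true := by decide +kernel
noncomputable def k61 : KT := (.br (Nat.shiftLeft (nat_lit 0x1) (nat_lit 125)) (.br (Nat.shiftLeft (nat_lit 0x803) (nat_lit 113)) (.one (nat_lit 0x100500700800b00ea00e01003641c760)) (.one (nat_lit 0x100600700800b00ec00e01003641c760))) (.br (Nat.shiftLeft (nat_lit 0x200000700800b00f) (nat_lit 64)) (.one (nat_lit 0x200000700800b00e000e01005681c511)) (.br (Nat.shiftLeft (nat_lit 0x1001) (nat_lit 113)) (.one (nat_lit 0x200000700800b00f000e01005681e511)) (.one (nat_lit 0x200300700800b00e600e01005681c760)))))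
def t61 : k61.all (jb2 57 fl b0) = true := by decide +kernel
noncomputable def k62 : KT := (.br (Nat.shiftLeft (nat_lit 0x801) (nat_lit 114)) (.one (nat_lit 0x200300700800b00f600e01005681e760)) (.one (nat_lit 0x200400700800b00e800e01005681c760)))
def t62 : k62.all (jb2 57 fl b0) = true := by decide +kernel
noncomputable def k63 : KT := (.br (Nat.shiftLeft (nat_lit 0x1003) (nat_lit 113)) (.br (Nat.shiftLeft (nat_lit 0x2005) (nat_lit 112)) (.one (nat_lit 0x200400700800b00f800e01005681e760)) (.one (nat_lit 0x200500700800b00ea00e01005681c760))) (.br (Nat.shiftLeft (nat_lit 0x3) (nat_lit 124)) (.one (nat_lit 0x200600700800b00ec00e01005681c760)) (.br (Nat.shiftLeft (nat_lit 0x300000700800b00f) (nat_lit 64)) (.one (nat_lit 0x300000700800b00e000e010076c1c511)) (.one (nat_lit 0x300000700800b00f000e010076c1e511)))))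
def t63 : k63.all (jb2 57 fl b0) = true := by decide +kernel
noncomputable def k64 : KT := (.br (Nat.shiftLeft (nat_lit 0x300400700800b00f) (nat_lit 64)) (.one (nat_lit 0x300400700800b00e800e010076c1c760)) (.br (Nat.shiftLeft (nat_lit 0x3005) (nat_lit 112)) (.one (nat_lit 0x300400700800b00f800e010076c1e760)) (.one (nat_lit 0x300500700800b00ea00e010076c1c760))))
def t64 : k64.all (jb2 57 fl b0) = true := by decide +kernel
noncomputable def k65 : KT := (.br (Nat.shiftLeft (nat_lit 0x1001) (nat_lit 114)) (.br (Nat.shiftLeft (nat_lit 0x1) (nat_lit 126)) (.one (nat_lit 0x300600700800b00ec00e010076c1c760)) (.br (Nat.shiftLeft (nat_lit 0x400000700800b00f) (nat_lit 64)) (.one (nat_lit 0x400000700800b00e000e01009701c511)) (.one (nat_lit 0x400000700800b00f000e01009701e511)))) (.br (Nat.shiftLeft (nat_lit 0x2003) (nat_lit 113)) (.one (nat_lit 0x400500700800b00ea00e01009701c760)) (.br (Nat.shiftLeft (nat_lit 0x5) (nat_lit 124)) (.one (nat_lit 0x400600700800b00ec00e01009701c760)) (.one (nat_lit 0x500000700800b00e000e0100b741c511)))))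
def t65 : k65.all (jb2 57 fl b0) = true := by decide +kernel
noncomputable def k66 : KT := (.br (Nat.shiftLeft (nat_lit 0x3) (nat_lit 125)) (.br (Nat.shiftLeft (nat_lit 0x1401) (nat_lit 114)) (.one (nat_lit 0x500000700800b00f000e0100b741e511)) (.one (nat_lit 0x500600700800b00ec00e0100b741c760))) (.br (Nat.shiftLeft (nat_lit 0x600000700800b00f) (nat_lit 64)) (.one (nat_lit 0x600000700800b00e000e0100d781c511)) (.br (Nat.shiftLeft (nat_lit 0x7) (nat_lit 124)) (.one (nat_lit 0x600000700800b00f000e0100d781e511)) (.one (nat_lit 0x700000700800b00e000e0100f7c1c511)))))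
def t66 : k66.all (jb2 57 fl b0) = true := by decide +kernel
noncomputable def k67 : KT := (.br (Nat.shiftLeft (nat_lit 0x100000200700800b00f) (nat_lit 64)) (.br (Nat.shiftLeft (nat_lit 0x5) (nat_lit 125)) (.br (Nat.shiftLeft (nat_lit 0x800000700800b00f) (nat_lit 64)) (.br (Nat.shiftLeft (nat_lit 0x1) (nat_lit 127)) (.one (nat_lit 0x700000700800b00f000e0100f7c1e511)) (.one (nat_lit 0x800000700800b00e000e01011801c511))) (.br (Nat.shiftLeft (nat_lit 0x9) (nat_lit 124)) (.one (nat_lit 0x800000700800b00f000e01011801e511)) (.br (Nat.shiftLeft (nat_lit 0x900000700800b00f) (nat_lit 64)) (.one (nat_lit 0x900000700800b00e000e01013841c511)) (.one (nat_lit 0x900000700800b00f000e01013841e511))))) (.br (Nat.shiftLeft (nat_lit 0xb00000700800b00f) (nat_lit 64)) (.br (Nat.shiftLeft (nat_lit 0xa00000700800b00f) (nat_lit 64)) (.one (nat_lit 0xa00000700800b00e000e01015881c511)) (.br (Nat.shiftLeft (nat_lit 0xb) (nat_lit 124)) (.one (nat_lit 0xa00000700800b00f000e01015881e511)) (.one (nat_lit 0xb00000700800b00e000e010178c1c511))))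 (.br (Nat.shiftLeft (nat_lit 0x1) (nat_lit 136)) (.one (nat_lit 0xb00000700800b00f000e010178c1e511)) (.br (Nat.shiftLeft (nat_lit 0x800001) (nat_lit 113)) (.one (nat_lit 0x100000100700800b00e200e03041601c611)) (.one (nat_lit 0x100000200700800b00e400e03041601c611)))))) (.br (Nat.shiftLeft (nat_lit 0x1000005) (nat_lit 112)) (.br (Nat.shiftLeft (nat_lit 0x100000300700800b00f) (nat_lit 64)) (.br (Nat.shiftLeft (nat_lit 0x1000003) (nat_lit 112)) (.one (nat_lit 0x100000200700800b00f400e03041601e611)) (.one (nat_lit 0x100000300700800b00e600e03041601c611))) (.br (Nat.shiftLeft (nat_lit 0x400001) (nat_lit 114)) (.one (nat_lit 0x100000300700800b00f600e03041601e611)) (.br (Nat.shiftLeft (nat_lit 0x100000400700800b00f) (nat_lit 64)) (.one (nat_lit 0x100000400700800b00e800e03041601c611)) (.one (nat_lit 0x100000400700800b00f800e03041601e611))))) (.br (Nat.shiftLeft (nat_lit 0x1000001) (nat_lit 113)) (.br (Nat.shiftLeft (nat_lit 0x800003) (nat_lit 113)) (.one (nat_lit 0x100000500700800b00ea00e03041601c611)) (.br (Nat.shiftLeft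 (nat_lit 0x1) (nat_lit 137)) (.one (nat_lit 0x100000600700800b00ec00e03041601c611)) (.one (nat_lit 0x200000100700800b00e200e05081601c611)))) (.br (Nat.shiftLeft (nat_lit 0x200000200700800b00f) (nat_lit 64)) (.one (nat_lit 0x200000200700800b00e400e05081601c611)) (.br (Nat.shiftLeft (nat_lit 0x2000003) (nat_lit 112)) (.one (nat_lit 0x200000200700800b00f400e05081601e611)) (.one (nat_lit 0x200000300700800b00e600e05081601c611)))))))
def t67 : k67.all (jb2 57 fl b0) = true := by decide +kernel
noncomputable def k68 : KT := (.br (Nat.shiftLeft (nat_lit 0x300000400700800b00f) (nat_lit 64)) (.br (Nat.shiftLeft (nat_lit 0x3) (nat_lit 136)) (.br (Nat.shiftLeft (nat_lit 0x200000400700800b00f) (nat_lit 64)) (.br (Nat.shiftLeft (nat_lit 0x800001) (nat_lit 114)) (.one (nat_lit 0x200000300700800b00f600e05081601e611)) (.one (nat_lit 0x200000400700800b00e800e05081601c611))) (.br (Nat.shiftLeft (nat_lit 0x2000005) (nat_lit 112)) (.one (nat_lit 0x200000400700800b00f800e05081601e611)) (.br (Nat.shiftLeft (nat_lit 0x1000003)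 (nat_lit 113)) (.one (nat_lit 0x200000500700800b00ea00e05081601c611)) (.one (nat_lit 0x200000600700800b00ec00e05081601c611))))) (.br (Nat.shiftLeft (nat_lit 0x3000003) (nat_lit 112)) (.br (Nat.shiftLeft (nat_lit 0x1800001) (nat_lit 113)) (.one (nat_lit 0x300000100700800b00e200e070c1601c611)) (.br (Nat.shiftLeft (nat_lit 0x300000200700800b00f) (nat_lit 64)) (.one (nat_lit 0x300000200700800b00e400e070c1601c611)) (.one (nat_lit 0x300000200700800b00f400e070c1601e611)))) (.br (Nat.shiftLeft (nat_lit 0x300000300700800b00f) (nat_lit 64)) (.one (nat_lit 0x300000300700800b00e600e070c1601c611)) (.br (Nat.shiftLeft (nat_lit 0xc00001) (nat_lit 114)) (.one (nat_lit 0x300000300700800b00f600e070c1601e611)) (.one (nat_lit 0x300000400700800b00e800e070c1601c611)))))) (.br (Nat.shiftLeft (nat_lit 0x4000003) (nat_lit 112)) (.br (Nat.shiftLeft (nat_lit 0x1) (nat_lit 138)) (.br (Nat.shiftLeft (nat_lit 0x3000005) (nat_lit 112)) (.one (nat_lit 0x300000400700800b00f800e070c1601e611)) (.br (Nat.shiftLeft (nat_lit 0x1800003) (nat_lit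 113)) (.one (nat_lit 0x300000500700800b00ea00e070c1601c611)) (.one (nat_lit 0x300000600700800b00ec00e070c1601c611)))) (.br (Nat.shiftLeft (nat_lit 0x2000001) (nat_lit 113)) (.one (nat_lit 0x400000100700800b00e200e09101601c611)) (.br (Nat.shiftLeft (nat_lit 0x400000200700800b00f) (nat_lit 64)) (.one (nat_lit 0x400000200700800b00e400e09101601c611)) (.one (nat_lit 0x400000200700800b00f400e09101601e611))))) (.br (Nat.shiftLeft (nat_lit 0x400000400700800b00f) (nat_lit 64)) (.br (Nat.shiftLeft (nat_lit 0x400000300700800b00f) (nat_lit 64)) (.one (nat_lit 0x400000300700800b00e600e09101601c611)) (.br (Nat.shiftLeft (nat_lit 0x1000001) (nat_lit 114)) (.one (nat_lit 0x400000300700800b00f600e09101601e611)) (.one (nat_lit 0x400000400700800b00e800e09101601c611)))) (.br (Nat.shiftLeft (nat_lit 0x4000005) (nat_lit 112)) (.one (nat_lit 0x400000400700800b00f800e09101601e611)) (.br (Nat.shiftLeft (nat_lit 0x2000003) (nat_lit 113)) (.one (nat_lit 0x400000500700800b00ea00e09101601c611)) (.one (nat_lit 0x400000600700800b00ec00e09101601c611)))))))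
def t68 : k68.all (jb2 57 fl b0) = true := by decide +kernel
noncomputable def k69 : KT := (.br (Nat.shiftLeft (nat_lit 0x500000300700800b00f) (nat_lit 64)) (.br (Nat.shiftLeft (nat_lit 0x500000200700800b00f) (nat_lit 64)) (.br (Nat.shiftLeft (nat_lit 0x2800001) (nat_lit 113)) (.one (nat_lit 0x500000100700800b00e200e0b141601c611)) (.one (nat_lit 0x500000200700800b00e400e0b141601c611))) (.br (Nat.shiftLeft (nat_lit 0x5000003) (nat_lit 112)) (.one (nat_lit 0x500000200700800b00f400e0b141601e611)) (.one (nat_lit 0x500000300700800b00e600e0b141601c611)))) (.br (Nat.shiftLeft (nat_lit 0x500000400700800b00f) (nat_lit 64)) (.br (Nat.shiftLeft (nat_lit 0x1400001) (nat_lit 114)) (.one (nat_lit 0x500000300700800b00f600e0b141601e611)) (.one (nat_lit 0x500000400700800b00e800e0b141601c611))) (.br (Nat.shiftLeft (nat_lit 0x5000005) (nat_lit 112)) (.one (nat_lit 0x500000400700800b00f800e0b141601e611)) (.one (nat_lit 0x500000500700800b00ea00e0b141601c611)))))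
def t69 : k69.all (jb2 57 fl b0) = true := by decide +kernel
noncomputable def k70 : KT := (.br (Nat.shiftLeft (nat_lit 0x600000200700800b00f) (nat_lit 64)) (.br (Nat.shiftLeft (nat_lit 0x3) (nat_lit 137)) (.one (nat_lit 0x500000600700800b00ec00e0b141601c611)) (.br (Nat.shiftLeft (nat_lit 0x3000001) (nat_lit 113)) (.one (nat_lit 0x600000100700800b00e200e0d181601c611)) (.one (nat_lit 0x600000200700800b00e400e0d181601c611)))) (.br (Nat.shiftLeft (nat_lit 0x6000003) (nat_lit 112)) (.one (nat_lit 0x600000200700800b00f400e0d181601e611)) (.br (Nat.shiftLeft (nat_lit 0x600000300700800b00f) (nat_lit 64)) (.one (nat_lit 0x600000300700800b00e600e0d181601c611)) (.one (nat_lit 0x600000300700800b00f600e0d181601e611)))))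
def t70 : k70.all (jb2 57 fl b0) = true := by decide +kernel
noncomputable def k71 : KT := (.br (Nat.shiftLeft (nat_lit 0x7) (nat_lit 136)) (.br (Nat.shiftLeft (nat_lit 0x6000005) (nat_lit 112)) (.br (Nat.shiftLeft (nat_lit 0x600000400700800b00f) (nat_lit 64)) (.one (nat_lit 0x600000400700800b00e800e0d181601c611)) (.one (nat_lit 0x600000400700800b00f800e0d181601e611))) (.br (Nat.shiftLeft (nat_lit 0x3000003) (nat_lit 113)) (.one (nat_lit 0x600000500700800b00ea00e0d181601c611)) (.one (nat_lit 0x600000600700800b00ec00e0d181601c611)))) (.br (Nat.shiftLeft (nat_lit 0x700000200700800b00f) (nat_lit 64)) (.br (Nat.shiftLeft (nat_lit 0x3800001) (nat_lit 113)) (.one (nat_lit 0x700000100700800b00e200e0f1c1601c611)) (.one (nat_lit 0x700000200700800b00e400e0f1c1601c611))) (.br (Nat.shiftLeft (nat_lit 0x7000003) (nat_lit 112)) (.one (nat_lit 0x700000200700800b00f400e0f1c1601e611)) (.br (Nat.shiftLeft (nat_lit 0x700000300700800b00f) (nat_lit 64)) (.one (nat_lit 0x700000300700800b00e600e0f1c1601c611)) (.one (nat_lit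 0x700000300700800b00f600e0f1c1601e611))))))
def t71 : k71.all (jb2 57 fl b0) = true := by decide +kernel
noncomputable def k72 : KT := (.br (Nat.shiftLeft (nat_lit 0x2000001) (nat_lit 114)) (.br (Nat.shiftLeft (nat_lit 0x1) (nat_lit 139)) (.br (Nat.shiftLeft (nat_lit 0x7000005) (nat_lit 112)) (.br (Nat.shiftLeft (nat_lit 0x700000400700800b00f) (nat_lit 64)) (.one (nat_lit 0x700000400700800b00e800e0f1c1601c611)) (.one (nat_lit 0x700000400700800b00f800e0f1c1601e611))) (.br (Nat.shiftLeft (nat_lit 0x3800003) (nat_lit 113)) (.one (nat_lit 0x700000500700800b00ea00e0f1c1601c611)) (.one (nat_lit 0x700000600700800b00ec00e0f1c1601c611)))) (.br (Nat.shiftLeft (nat_lit 0x800000200700800b00f) (nat_lit 64)) (.br (Nat.shiftLeft (nat_lit 0x4000001) (nat_lit 113)) (.one (nat_lit 0x800000100700800b00e200e11201601c611)) (.one (nat_lit 0x800000200700800b00e400e11201601c611))) (.br (Nat.shiftLeft (nat_lit 0x8000003) (nat_lit 112)) (.one (nat_lit 0x800000200700800b00f400e11201601e611)) (.br (Nat.shiftLeft (nat_lit 0x800000300700800b00f)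 (nat_lit 64)) (.one (nat_lit 0x800000300700800b00e600e11201601c611)) (.one (nat_lit 0x800000300700800b00f600e11201601e611)))))) (.br (Nat.shiftLeft (nat_lit 0x9) (nat_lit 136)) (.br (Nat.shiftLeft (nat_lit 0x8000005) (nat_lit 112)) (.br (Nat.shiftLeft (nat_lit 0x800000400700800b00f) (nat_lit 64)) (.one (nat_lit 0x800000400700800b00e800e11201601c611)) (.one (nat_lit 0x800000400700800b00f800e11201601e611))) (.br (Nat.shiftLeft (nat_lit 0x4000003) (nat_lit 113)) (.one (nat_lit 0x800000500700800b00ea00e11201601c611)) (.one (nat_lit 0x800000600700800b00ec00e11201601c611)))) (.br (Nat.shiftLeft (nat_lit 0x900000200700800b00f) (nat_lit 64)) (.br (Nat.shiftLeft (nat_lit 0x4800001) (nat_lit 113)) (.one (nat_lit 0x900000100700800b00e200e13241601c611)) (.one (nat_lit 0x900000200700800b00e400e13241601c611))) (.br (Nat.shiftLeft (nat_lit 0x9000003) (nat_lit 112)) (.one (nat_lit 0x900000200700800b00f400e13241601e611)) (.br (Nat.shiftLeft (nat_lit 0x900000300700800b00f) (nat_lit 64)) (.one (nat_lit 0x900000300700800b00e600e13241601c611))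 (.one (nat_lit 0x900000300700800b00f600e13241601e611)))))))
def t72 : k72.all (jb2 57 fl b0) = true := by decide +kernel
noncomputable def k73 : KT := (.br (Nat.shiftLeft (nat_lit 0xa000005) (nat_lit 112)) (.br (Nat.shiftLeft (nat_lit 0x5000001) (nat_lit 113)) (.br (Nat.shiftLeft (nat_lit 0x9000005) (nat_lit 112)) (.br (Nat.shiftLeft (nat_lit 0x900000400700800b00f) (nat_lit 64)) (.one (nat_lit 0x900000400700800b00e800e13241601c611)) (.one (nat_lit 0x900000400700800b00f800e13241601e611))) (.br (Nat.shiftLeft (nat_lit 0x4800003) (nat_lit 113)) (.one (nat_lit 0x900000500700800b00ea00e13241601c611)) (.br (Nat.shiftLeft (nat_lit 0x5) (nat_lit 137)) (.one (nat_lit 0x900000600700800b00ec00e13241601c611)) (.one (nat_lit 0xa00000100700800b00e200e15281601c611))))) (.br (Nat.shiftLeft (nat_lit 0xa00000300700800b00f) (nat_lit 64)) (.br (Nat.shiftLeft (nat_lit 0xa00000200700800b00f) (nat_lit 64)) (.one (nat_lit 0xa00000200700800b00e400e15281601c611)) (.br (Nat.shiftLeft (nat_lit 0xa000003) (nat_lit 112)) (.one (nat_lit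 0xa00000200700800b00f400e15281601e611)) (.one (nat_lit 0xa00000300700800b00e600e15281601c611)))) (.br (Nat.shiftLeft (nat_lit 0x2800001) (nat_lit 114)) (.one (nat_lit 0xa00000300700800b00f600e15281601e611)) (.br (Nat.shiftLeft (nat_lit 0xa00000400700800b00f) (nat_lit 64)) (.one (nat_lit 0xa00000400700800b00e800e15281601c611)) (.one (nat_lit 0xa00000400700800b00f800e15281601e611)))))) (.br (Nat.shiftLeft (nat_lit 0xb000003) (nat_lit 112)) (.br (Nat.shiftLeft (nat_lit 0xb) (nat_lit 136)) (.br (Nat.shiftLeft (nat_lit 0x5000003) (nat_lit 113)) (.one (nat_lit 0xa00000500700800b00ea00e15281601c611)) (.one (nat_lit 0xa00000600700800b00ec00e15281601c611))) (.br (Nat.shiftLeft (nat_lit 0x5800001) (nat_lit 113)) (.one (nat_lit 0xb00000100700800b00e200e172c1601c611)) (.br (Nat.shiftLeft (nat_lit 0xb00000200700800b00f) (nat_lit 64)) (.one (nat_lit 0xb00000200700800b00e400e172c1601c611)) (.one (nat_lit 0xb00000200700800b00f400e172c1601e611))))) (.br (Nat.shiftLeft (nat_lit 0xb00000400700800b00f) (nat_lit 64)) (.br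 (Nat.shiftLeft (nat_lit 0xb00000300700800b00f) (nat_lit 64)) (.one (nat_lit 0xb00000300700800b00e600e172c1601c611)) (.br (Nat.shiftLeft (nat_lit 0x2c00001) (nat_lit 114)) (.one (nat_lit 0xb00000300700800b00f600e172c1601e611)) (.one (nat_lit 0xb00000400700800b00e800e172c1601c611)))) (.br (Nat.shiftLeft (nat_lit 0xb000005) (nat_lit 112)) (.one (nat_lit 0xb00000400700800b00f800e172c1601e611)) (.br (Nat.shiftLeft (nat_lit 0x5800003) (nat_lit 113)) (.one (nat_lit 0xb00000500700800b00ea00e172c1601c611)) (.one (nat_lit 0xb00000600700800b00ec00e172c1601c611)))))))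
def t73 : k73.all (jb2 57 fl b0) = true := by decide +kernel
noncomputable def s3 : KT := (.br (nat_lit 0x300000700800b00f000e010076c1e511) (.br (nat_lit 0x100200700800b00e400e01003641c760) (.br (nat_lit 0x600700800b00ec00e01001601d600) (.br (nat_lit 0x500700800b00ea00e01001601d600) k55 k56) (.br (nat_lit 0x100000700800b00f000e01003641e511) k57 k58)) (.br (nat_lit 0x100400700800b00f800e01003641e760) (.br (nat_lit 0x100300700800b00e600e01003641c760) k59 k60) (.br (nat_lit 0x200300700800b00e600e01005681c760) k61 (.br (nat_lit 0x200400700800b00e800e01005681c760) k62 k63)))) (.br (nat_lit 0x400000600700800b00ec00e09101601c611) (.br (nat_lit 0x500000700800b00e000e0100b741c511) (.br (nat_lit 0x300500700800b00ea00e010076c1c760) k64 k65) (.br (nat_lit 0x700000700800b00e000e0100f7c1c511) k66 (.br (nat_lit 0x200000300700800b00e600e05081601c611) k67 k68))) (.br (nat_lit 0x600000300700800b00f600e0d181601e611) (.br (nat_lit 0x500000500700800b00ea00e0b141601c611) k69 k70) (.br (nat_lit 0x700000300700800b00f600e0f1c1601e611)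 k71 (.br (nat_lit 0x900000300700800b00f600e13241601e611) k72 k73)))))
noncomputable def u3 : KT := (.br (Nat.shiftLeft (nat_lit 0x700800b00f) (nat_lit 64)) (.one (nat_lit 0x700800b00e000e01001601c540)) (.one (nat_lit 0x700800b00f000e01001601e540)))
def w3 : u3.all (wj 57 s3) = true := by decide +kernel
def o3 : OkW 57 (jb2 57 fl) u3 := .lift s3 _ (.br _ _ _ (.br _ _ _ (.br _ _ _ (.br _ _ _ (.leaf b0 k55 t55) (.leaf b0 k56 t56)) (.br _ _ _ (.leaf b0 k57 t57) (.leaf b0 k58 t58))) (.br _ _ _ (.br _ _ _ (.leaf b0 k59 t59) (.leaf b0 k60 t60)) (.br _ _ _ (.leaf b0 k61 t61) (.br _ _ _ (.leaf b0 k62 t62) (.leaf b0 k63 t63))))) (.br _ _ _ (.br _ _ _ (.br _ _ _ (.leaf b0 k64 t64) (.leaf b0 k65 t65)) (.br _ _ _ (.leaf b0 k66 t66) (.br _ _ _ (.leaf b0 k67 t67) (.leaf b0 k68 t68)))) (.br _ _ _ (.br _ _ _ (.leaf b0 k69 t69) (.leaf b0 k70 t70)) (.br _ _ _ (.leaf b0 k71 t71) (.br _ _ _ (.leaf b0 k72 t72) (.leaf b0 k73 t73)))))) w3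
noncomputable def k74 : KT := (.br (Nat.shiftLeft (nat_lit 0x3804005809) (nat_lit 65)) (.br (Nat.shiftLeft (nat_lit 0x700800b011) (nat_lit 64)) (.one (nat_lit 0x700800b010000e010016021500)) (.one (nat_lit 0x700800b011000e010016023500))) (.br (Nat.shiftLeft (nat_lit 0x1c02003) (nat_lit 78)) (.one (nat_lit 0x700800b012000e010016025500)) (.br (Nat.shiftLeft (nat_lit 0x1) (nat_lit 112)) (.one (nat_lit 0x700800c00d000e01001801b500)) (.one (nat_lit 0x100700800b010200e010016020650)))))
def t74 : k74.all (jb2 57 fl b0) = true := by decide +kernel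
noncomputable def k75 : KT := (.br (Nat.shiftLeft (nat_lit 0x803804005809) (nat_lit 65)) (.one (nat_lit 0x100700800b011200e010016022650)) (.br (Nat.shiftLeft (nat_lit 0x401c02003) (nat_lit 78)) (.one (nat_lit 0x100700800b012200e010016024650)) (.one (nat_lit 0x100700800c00d200e01001801b600))))
def t75 : k75.all (jb2 57 fl b0) = true := by decide +kernel
noncomputable def k76 : KT := (.one (nat_lit 0x200700800b010400e010016020650))
def t76 : k76.all (jb2 57 fl b0) = true := by decide +kernel
noncomputable def k77 : KT := (.br (Nat.shiftLeft (nat_lit 0x1003804005809) (nat_lit 65)) (.one (nat_lit 0x200700800b011400e010016022650)) (.br (Nat.shiftLeft (nat_lit 0x801c02003) (nat_lit 78)) (.one (nat_lit 0x200700800b012400e010016024650)) (.one (nat_lit 0x200700800c00d400e01001801b600))))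
def t77 : k77.all (jb2 57 fl b0) = true := by decide +kernel
noncomputable def k78 : KT := (.one (nat_lit 0x300700800b010600e010016020650))
def t78 : k78.all (jb2 57 fl b0) = true := by decide +kernel
noncomputable def k79 : KT := (.br (Nat.shiftLeft (nat_lit 0x1803804005809) (nat_lit 65)) (.one (nat_lit 0x300700800b011600e010016022650)) (.br (Nat.shiftLeft (nat_lit 0xc01c02003) (nat_lit 78)) (.one (nat_lit 0x300700800b012600e010016024650)) (.one (nat_lit 0x300700800c00d600e01001801b600))))
def t79 : k79.all (jb2 57 fl b0) = true := by decide +kernel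
noncomputable def k80 : KT := (.one (nat_lit 0x400700800b010800e010016020650))
def t80 : k80.all (jb2 57 fl b0) = true := by decide +kernel
noncomputable def k81 : KT := (.br (Nat.shiftLeft (nat_lit 0x2003804005809) (nat_lit 65)) (.one (nat_lit 0x400700800b011800e010016022650)) (.br (Nat.shiftLeft (nat_lit 0x1001c02003) (nat_lit 78)) (.one (nat_lit 0x400700800b012800e010016024650)) (.one (nat_lit 0x400700800c00d800e01001801b600))))
def t81 : k81.all (jb2 57 fl b0) = true := by decide +kernel
noncomputable def k82 : KT := (.one (nat_lit 0x500700800b010a00e010016020650))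
def t82 : k82.all (jb2 57 fl b0) = true := by decide +kernel
noncomputable def k83 : KT := (.br (Nat.shiftLeft (nat_lit 0x2803804005809) (nat_lit 65)) (.one (nat_lit 0x500700800b011a00e010016022650)) (.br (Nat.shiftLeft (nat_lit 0x1401c02003) (nat_lit 78)) (.one (nat_lit 0x500700800b012a00e010016024650)) (.one (nat_lit 0x500700800c00da00e01001801b600))))
def t83 : k83.all (jb2 57 fl b0) = true := by decide +kernel
noncomputable def k84 : KT := (.br (Nat.shiftLeft (nat_lit 0x1) (nat_lit 124)) (.br (Nat.shiftLeft (nat_lit 0x3003804005809) (nat_lit 65)) (.br (Nat.shiftLeft (nat_lit 0x600700800b011) (nat_lit 64)) (.one (nat_lit 0x600700800b010c00e010016020650)) (.one (nat_lit 0x600700800b011c00e010016022650))) (.br (Nat.shiftLeft (nat_lit 0x1801c02003) (nat_lit 78)) (.one (nat_lit 0x600700800b012c00e010016024650)) (.one (nat_lit 0x600700800c00dc00e01001801b600)))) (.br (Nat.shiftLeft (nat_lit 0x800003804005809) (nat_lit 65)) (.br (Nat.shiftLeft (nat_lit 0x100000700800b011) (nat_lit 64)) (.one (nat_lit 0x100000700800b010000e010036420511))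 (.one (nat_lit 0x100000700800b011000e010036422511))) (.br (Nat.shiftLeft (nat_lit 0x400001c02003) (nat_lit 78)) (.one (nat_lit 0x100000700800b012000e010036424511)) (.one (nat_lit 0x100000700800c00d000e01003841a511)))))
def t84 : k84.all (jb2 57 fl b0) = true := by decide +kernel
noncomputable def k85 : KT := (.one (nat_lit 0x100200700800c00d400e01003841a760))
def t85 : k85.all (jb2 57 fl b0) = true := by decide +kernel
noncomputable def k86 : KT := (.br (Nat.shiftLeft (nat_lit 0x401) (nat_lit 114)) (.one (nat_lit 0x100300700800c00d600e01003841a760)) (.one (nat_lit 0x100400700800c00d800e01003841a760)))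
def t86 : k86.all (jb2 57 fl b0) = true := by decide +kernel
noncomputable def k87 : KT := (.br (Nat.shiftLeft (nat_lit 0x200000700800b011) (nat_lit 64)) (.br (Nat.shiftLeft (nat_lit 0x803) (nat_lit 113)) (.one (nat_lit 0x100500700800c00da00e01003841a760)) (.br (Nat.shiftLeft (nat_lit 0x1) (nat_lit 125)) (.one (nat_lit 0x100600700800c00dc00e01003841a760)) (.one (nat_lit 0x200000700800b010000e010056820511)))) (.br (Nat.shiftLeft (nat_lit 0x800001c02003) (nat_lit 78)) (.br (Nat.shiftLeft (nat_lit 0x1000003804005809) (nat_lit 65)) (.one (nat_lit 0x200000700800b011000e010056822511)) (.one (nat_lit 0x200000700800b012000e010056824511))) (.br (Nat.shiftLeft (nat_lit 0x1001) (nat_lit 113)) (.one (nat_lit 0x200000700800c00d000e01005881a511)) (.one (nat_lit 0x200300700800c00d600e01005881a760)))))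
def t87 : k87.all (jb2 57 fl b0) = true := by decide +kernel
noncomputable def k88 : KT := (.br (Nat.shiftLeft (nat_lit 0x3) (nat_lit 124)) (.br (Nat.shiftLeft (nat_lit 0x2005) (nat_lit 112)) (.one (nat_lit 0x200400700800c00d800e01005881a760)) (.br (Nat.shiftLeft (nat_lit 0x1003) (nat_lit 113)) (.one (nat_lit 0x200500700800c00da00e01005881a760)) (.one (nat_lit 0x200600700800c00dc00e01005881a760)))) (.br (Nat.shiftLeft (nat_lit 0x1800003804005809) (nat_lit 65)) (.br (Nat.shiftLeft (nat_lit 0x300000700800b011) (nat_lit 64)) (.one (nat_lit 0x300000700800b010000e010076c20511)) (.one (nat_lit 0x300000700800b011000e010076c22511))) (.br (Nat.shiftLeft (nat_lit 0xc00001c02003) (nat_lit 78)) (.one (nat_lit 0x300000700800b012000e010076c24511)) (.one (nat_lit 0x300000700800c00d000e010078c1a511)))))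
def t88 : k88.all (jb2 57 fl b0) = true := by decide +kernel
noncomputable def k89 : KT := (.br (Nat.shiftLeft (nat_lit 0x1803) (nat_lit 113)) (.br (Nat.shiftLeft (nat_lit 0x3005) (nat_lit 112)) (.one (nat_lit 0x300400700800c00d800e010078c1a760)) (.one (nat_lit 0x300500700800c00da00e010078c1a760))) (.br (Nat.shiftLeft (nat_lit 0x1) (nat_lit 126)) (.one (nat_lit 0x300600700800c00dc00e010078c1a760)) (.br (Nat.shiftLeft (nat_lit 0x400000700800b011) (nat_lit 64)) (.one (nat_lit 0x400000700800b010000e010097020511)) (.one (nat_lit 0x400000700800b011000e010097022511)))))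
def t89 : k89.all (jb2 57 fl b0) = true := by decide +kernel
noncomputable def k90 : KT := (.br (Nat.shiftLeft (nat_lit 0x5) (nat_lit 124)) (.br (Nat.shiftLeft (nat_lit 0x1001) (nat_lit 114)) (.br (Nat.shiftLeft (nat_lit 0x1000001c02003) (nat_lit 78)) (.one (nat_lit 0x400000700800b012000e010097024511)) (.one (nat_lit 0x400000700800c00d000e01009901a511))) (.br (Nat.shiftLeft (nat_lit 0x2003) (nat_lit 113)) (.one (nat_lit 0x400500700800c00da00e01009901a760)) (.one (nat_lit 0x400600700800c00dc00e01009901a760)))) (.br (Nat.shiftLeft (nat_lit 0x2800003804005809) (nat_lit 65)) (.br (Nat.shiftLeft (nat_lit 0x500000700800b011) (nat_lit 64)) (.one (nat_lit 0x500000700800b010000e0100b7420511)) (.one (nat_lit 0x500000700800b011000e0100b7422511))) (.br (Nat.shiftLeft (nat_lit 0x1400001c02003) (nat_lit 78)) (.one (nat_lit 0x500000700800b012000e0100b7424511)) (.one (nat_lit 0x500000700800c00d000e0100b941a511)))))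
def t90 : k90.all (jb2 57 fl b0) = true := by decide +kernel
noncomputable def k91 : KT := (.br (Nat.shiftLeft (nat_lit 0x1800001c02003) (nat_lit 78)) (.br (Nat.shiftLeft (nat_lit 0x600000700800b011) (nat_lit 64)) (.br (Nat.shiftLeft (nat_lit 0x3) (nat_lit 125)) (.one (nat_lit 0x500600700800c00dc00e0100b941a760)) (.one (nat_lit 0x600000700800b010000e0100d7820511))) (.br (Nat.shiftLeft (nat_lit 0x3000003804005809) (nat_lit 65)) (.one (nat_lit 0x600000700800b011000e0100d7822511)) (.one (nat_lit 0x600000700800b012000e0100d7824511)))) (.br (Nat.shiftLeft (nat_lit 0x700000700800b011) (nat_lit 64)) (.br (Nat.shiftLeft (nat_lit 0x7) (nat_lit 124)) (.one (nat_lit 0x600000700800c00d000e0100d981a511)) (.one (nat_lit 0x700000700800b010000e0100f7c20511))) (.br (Nat.shiftLeft (nat_lit 0x3800003804005809) (nat_lit 65)) (.one (nat_lit 0x700000700800b011000e0100f7c22511)) (.one (nat_lit 0x700000700800b012000e0100f7c24511)))))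
def t91 : k91.all (jb2 57 fl b0) = true := by decide +kernel
noncomputable def k92 : KT := (.br (Nat.shiftLeft (nat_lit 0x2400001c02003) (nat_lit 78)) (.br (Nat.shiftLeft (nat_lit 0x2000001c02003) (nat_lit 78)) (.br (Nat.shiftLeft (nat_lit 0x800000700800b011) (nat_lit 64)) (.br (Nat.shiftLeft (nat_lit 0x1) (nat_lit 127)) (.one (nat_lit 0x700000700800c00d000e0100f9c1a511)) (.one (nat_lit 0x800000700800b010000e010118020511))) (.br (Nat.shiftLeft (nat_lit 0x4000003804005809) (nat_lit 65)) (.one (nat_lit 0x800000700800b011000e010118022511)) (.one (nat_lit 0x800000700800b012000e010118024511)))) (.br (Nat.shiftLeft (nat_lit 0x900000700800b011) (nat_lit 64)) (.br (Nat.shiftLeft (nat_lit 0x9) (nat_lit 124)) (.one (nat_lit 0x800000700800c00d000e01011a01a511)) (.one (nat_lit 0x900000700800b010000e010138420511))) (.br (Nat.shiftLeft (nat_lit 0x4800003804005809) (nat_lit 65)) (.one (nat_lit 0x900000700800b011000e010138422511)) (.one (nat_lit 0x900000700800b012000e010138424511))))) (.br (Nat.shiftLeft (nat_lit 0x2800001c02003)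 (nat_lit 78)) (.br (Nat.shiftLeft (nat_lit 0xa00000700800b011) (nat_lit 64)) (.br (Nat.shiftLeft (nat_lit 0x5) (nat_lit 125)) (.one (nat_lit 0x900000700800c00d000e01013a41a511)) (.one (nat_lit 0xa00000700800b010000e010158820511))) (.br (Nat.shiftLeft (nat_lit 0x5000003804005809) (nat_lit 65)) (.one (nat_lit 0xa00000700800b011000e010158822511)) (.one (nat_lit 0xa00000700800b012000e010158824511)))) (.br (Nat.shiftLeft (nat_lit 0xb00000700800b011) (nat_lit 64)) (.br (Nat.shiftLeft (nat_lit 0xb) (nat_lit 124)) (.one (nat_lit 0xa00000700800c00d000e01015a81a511)) (.one (nat_lit 0xb00000700800b010000e010178c20511))) (.br (Nat.shiftLeft (nat_lit 0x5800003804005809) (nat_lit 65)) (.one (nat_lit 0xb00000700800b011000e010178c22511)) (.one (nat_lit 0xb00000700800b012000e010178c24511))))))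
def t92 : k92.all (jb2 57 fl b0) = true := by decide +kernel
noncomputable def k93 : KT := (.br (Nat.shiftLeft (nat_lit 0x1000003) (nat_lit 113)) (.br (Nat.shiftLeft (nat_lit 0x1000005) (nat_lit 112)) (.br (Nat.shiftLeft (nat_lit 0x800001) (nat_lit 113)) (.br (Nat.shiftLeft (nat_lit 0x3) (nat_lit 126)) (.one (nat_lit 0xb00000700800c00d000e01017ac1a511)) (.br (Nat.shiftLeft (nat_lit 0x1) (nat_lit 136)) (.one (nat_lit 0xc00000700800c00d000e01019b01a511)) (.one (nat_lit 0x100000100700800c00d200e03041801a611)))) (.br (Nat.shiftLeft (nat_lit 0x1000003) (nat_lit 112)) (.one (nat_lit 0x100000200700800c00d400e03041801a611)) (.br (Nat.shiftLeft (nat_lit 0x400001) (nat_lit 114)) (.one (nat_lit 0x100000300700800c00d600e03041801a611)) (.one (nat_lit 0x100000400700800c00d800e03041801a611))))) (.br (Nat.shiftLeft (nat_lit 0x1000001) (nat_lit 113)) (.br (Nat.shiftLeft (nat_lit 0x800003) (nat_lit 113)) (.one (nat_lit 0x100000500700800c00da00e03041801a611)) (.br (Nat.shiftLeft (nat_lit 0x1) (nat_lit 137)) (.one (nat_lit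 0x100000600700800c00dc00e03041801a611)) (.one (nat_lit 0x200000100700800c00d200e05081801a611)))) (.br (Nat.shiftLeft (nat_lit 0x800001) (nat_lit 114)) (.br (Nat.shiftLeft (nat_lit 0x2000003) (nat_lit 112)) (.one (nat_lit 0x200000200700800c00d400e05081801a611)) (.one (nat_lit 0x200000300700800c00d600e05081801a611))) (.br (Nat.shiftLeft (nat_lit 0x2000005) (nat_lit 112)) (.one (nat_lit 0x200000400700800c00d800e05081801a611)) (.one (nat_lit 0x200000500700800c00da00e05081801a611)))))) (.br (Nat.shiftLeft (nat_lit 0x1) (nat_lit 138)) (.br (Nat.shiftLeft (nat_lit 0x3000003) (nat_lit 112)) (.br (Nat.shiftLeft (nat_lit 0x3) (nat_lit 136)) (.one (nat_lit 0x200000600700800c00dc00e05081801a611)) (.br (Nat.shiftLeft (nat_lit 0x1800001) (nat_lit 113)) (.one (nat_lit 0x300000100700800c00d200e070c1801a611)) (.one (nat_lit 0x300000200700800c00d400e070c1801a611)))) (.br (Nat.shiftLeft (nat_lit 0x3000005) (nat_lit 112)) (.br (Nat.shiftLeft (nat_lit 0xc00001) (nat_lit 114)) (.one (nat_lit 0x300000300700800c00d600e070c1801a611))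 (.one (nat_lit 0x300000400700800c00d800e070c1801a611))) (.br (Nat.shiftLeft (nat_lit 0x1800003) (nat_lit 113)) (.one (nat_lit 0x300000500700800c00da00e070c1801a611)) (.one (nat_lit 0x300000600700800c00dc00e070c1801a611))))) (.br (Nat.shiftLeft (nat_lit 0x1000001) (nat_lit 114)) (.br (Nat.shiftLeft (nat_lit 0x2000001) (nat_lit 113)) (.one (nat_lit 0x400000100700800c00d200e09101801a611)) (.br (Nat.shiftLeft (nat_lit 0x4000003) (nat_lit 112)) (.one (nat_lit 0x400000200700800c00d400e09101801a611)) (.one (nat_lit 0x400000300700800c00d600e09101801a611)))) (.br (Nat.shiftLeft (nat_lit 0x2000003) (nat_lit 113)) (.br (Nat.shiftLeft (nat_lit 0x4000005) (nat_lit 112)) (.one (nat_lit 0x400000400700800c00d800e09101801a611)) (.one (nat_lit 0x400000500700800c00da00e09101801a611))) (.br (Nat.shiftLeft (nat_lit 0x5) (nat_lit 136)) (.one (nat_lit 0x400000600700800c00dc00e09101801a611)) (.one (nat_lit 0x500000100700800c00d200e0b141801a611)))))))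
def t93 : k93.all (jb2 57 fl b0) = true := by decide +kernel
noncomputable def k94 : KT := (.br (Nat.shiftLeft (nat_lit 0x5000005) (nat_lit 112)) (.br (Nat.shiftLeft (nat_lit 0x5000003) (nat_lit 112)) (.one (nat_lit 0x500000200700800c00d400e0b141801a611)) (.br (Nat.shiftLeft (nat_lit 0x1400001) (nat_lit 114)) (.one (nat_lit 0x500000300700800c00d600e0b141801a611)) (.one (nat_lit 0x500000400700800c00d800e0b141801a611)))) (.br (Nat.shiftLeft (nat_lit 0x3) (nat_lit 137)) (.br (Nat.shiftLeft (nat_lit 0x2800003) (nat_lit 113)) (.one (nat_lit 0x500000500700800c00da00e0b141801a611)) (.one (nat_lit 0x500000600700800c00dc00e0b141801a611))) (.br (Nat.shiftLeft (nat_lit 0x3000001) (nat_lit 113)) (.one (nat_lit 0x600000100700800c00d200e0d181801a611)) (.one (nat_lit 0x600000200700800c00d400e0d181801a611)))))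
def t94 : k94.all (jb2 57 fl b0) = true := by decide +kernel
noncomputable def k95 : KT := (.br (Nat.shiftLeft (nat_lit 0x3800001) (nat_lit 113)) (.br (Nat.shiftLeft (nat_lit 0x6000005) (nat_lit 112)) (.br (Nat.shiftLeft (nat_lit 0x1800001) (nat_lit 114)) (.one (nat_lit 0x600000300700800c00d600e0d181801a611)) (.one (nat_lit 0x600000400700800c00d800e0d181801a611))) (.br (Nat.shiftLeft (nat_lit 0x3000003) (nat_lit 113)) (.one (nat_lit 0x600000500700800c00da00e0d181801a611)) (.br (Nat.shiftLeft (nat_lit 0x7) (nat_lit 136)) (.one (nat_lit 0x600000600700800c00dc00e0d181801a611)) (.one (nat_lit 0x700000100700800c00d200e0f1c1801a611))))) (.br (Nat.shiftLeft (nat_lit 0x1c00001) (nat_lit 114)) (.br (Nat.shiftLeft (nat_lit 0x7000003) (nat_lit 112)) (.one (nat_lit 0x700000200700800c00d400e0f1c1801a611)) (.one (nat_lit 0x700000300700800c00d600e0f1c1801a611))) (.br (Nat.shiftLeft (nat_lit 0x7000005) (nat_lit 112)) (.one (nat_lit 0x700000400700800c00d800e0f1c1801a611)) (.br (Nat.shiftLeft (nat_lit 0x3800003) (nat_lit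 113)) (.one (nat_lit 0x700000500700800c00da00e0f1c1801a611)) (.one (nat_lit 0x700000600700800c00dc00e0f1c1801a611))))))
def t95 : k95.all (jb2 57 fl b0) = true := by decide +kernel
noncomputable def k96 : KT := (.br (Nat.shiftLeft (nat_lit 0xa000003) (nat_lit 112)) (.br (Nat.shiftLeft (nat_lit 0x4800001) (nat_lit 113)) (.br (Nat.shiftLeft (nat_lit 0x2000001) (nat_lit 114)) (.br (Nat.shiftLeft (nat_lit 0x4000001) (nat_lit 113)) (.one (nat_lit 0x800000100700800c00d200e11201801a611)) (.br (Nat.shiftLeft (nat_lit 0x8000003) (nat_lit 112)) (.one (nat_lit 0x800000200700800c00d400e11201801a611)) (.one (nat_lit 0x800000300700800c00d600e11201801a611)))) (.br (Nat.shiftLeft (nat_lit 0x4000003) (nat_lit 113)) (.br (Nat.shiftLeft (nat_lit 0x8000005) (nat_lit 112)) (.one (nat_lit 0x800000400700800c00d800e11201801a611)) (.one (nat_lit 0x800000500700800c00da00e11201801a611))) (.br (Nat.shiftLeft (nat_lit 0x9) (nat_lit 136)) (.one (nat_lit 0x800000600700800c00dc00e11201801a611)) (.one (nat_lit 0x900000100700800c00d200e13241801a611)))))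 (.br (Nat.shiftLeft (nat_lit 0x9000005) (nat_lit 112)) (.br (Nat.shiftLeft (nat_lit 0x9000003) (nat_lit 112)) (.one (nat_lit 0x900000200700800c00d400e13241801a611)) (.br (Nat.shiftLeft (nat_lit 0x2400001) (nat_lit 114)) (.one (nat_lit 0x900000300700800c00d600e13241801a611)) (.one (nat_lit 0x900000400700800c00d800e13241801a611)))) (.br (Nat.shiftLeft (nat_lit 0x5) (nat_lit 137)) (.br (Nat.shiftLeft (nat_lit 0x4800003) (nat_lit 113)) (.one (nat_lit 0x900000500700800c00da00e13241801a611)) (.one (nat_lit 0x900000600700800c00dc00e13241801a611))) (.br (Nat.shiftLeft (nat_lit 0x5000001) (nat_lit 113)) (.one (nat_lit 0xa00000100700800c00d200e15281801a611)) (.one (nat_lit 0xa00000200700800c00d400e15281801a611)))))) (.br (Nat.shiftLeft (nat_lit 0x2c00001) (nat_lit 114)) (.br (Nat.shiftLeft (nat_lit 0x5000003) (nat_lit 113)) (.br (Nat.shiftLeft (nat_lit 0x2800001) (nat_lit 114)) (.one (nat_lit 0xa00000300700800c00d600e15281801a611)) (.br (Nat.shiftLeft (nat_lit 0xa000005) (nat_lit 112)) (.one (nat_lit 0xa00000400700800c00d800e15281801a611))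 (.one (nat_lit 0xa00000500700800c00da00e15281801a611)))) (.br (Nat.shiftLeft (nat_lit 0x5800001) (nat_lit 113)) (.br (Nat.shiftLeft (nat_lit 0xb) (nat_lit 136)) (.one (nat_lit 0xa00000600700800c00dc00e15281801a611)) (.one (nat_lit 0xb00000100700800c00d200e172c1801a611))) (.br (Nat.shiftLeft (nat_lit 0xb000003) (nat_lit 112)) (.one (nat_lit 0xb00000200700800c00d400e172c1801a611)) (.one (nat_lit 0xb00000300700800c00d600e172c1801a611))))) (.br (Nat.shiftLeft (nat_lit 0x6000001) (nat_lit 113)) (.br (Nat.shiftLeft (nat_lit 0x5800003) (nat_lit 113)) (.br (Nat.shiftLeft (nat_lit 0xb000005) (nat_lit 112)) (.one (nat_lit 0xb00000400700800c00d800e172c1801a611)) (.one (nat_lit 0xb00000500700800c00da00e172c1801a611))) (.br (Nat.shiftLeft (nat_lit 0x3) (nat_lit 138)) (.one (nat_lit 0xb00000600700800c00dc00e172c1801a611)) (.one (nat_lit 0xc00000100700800c00d200e19301801a611)))) (.br (Nat.shiftLeft (nat_lit 0x3000001) (nat_lit 114)) (.br (Nat.shiftLeft (nat_lit 0xc000003) (nat_lit 112)) (.one (nat_lit 0xc00000200700800c00d400e19301801a611))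 (.one (nat_lit 0xc00000300700800c00d600e19301801a611))) (.br (Nat.shiftLeft (nat_lit 0xc000005) (nat_lit 112)) (.one (nat_lit 0xc00000400700800c00d800e19301801a611)) (.one (nat_lit 0xc00000500700800c00da00e19301801a611)))))))
def t96 : k96.all (jb2 57 fl b0) = true := by decide +kernel
noncomputable def s4 : KT := (.br (nat_lit 0x100000700800c00d000e01003841a511) (.br (nat_lit 0x300700800b010600e010016020650) (.br (nat_lit 0x100700800c00d200e01001801b600) (.br (nat_lit 0x100700800b010200e010016020650) k74 k75) (.br (nat_lit 0x200700800b010400e010016020650) k76 (.br (nat_lit 0x200700800c00d400e01001801b600) k77 k78))) (.br (nat_lit 0x400700800c00d800e01001801b600) (.br (nat_lit 0x300700800c00d600e01001801b600) k79 (.br (nat_lit 0x400700800b010800e010016020650) k80 k81)) (.br (nat_lit 0x500700800b010a00e010016020650) k82 (.br (nat_lit 0x500700800c00da00e01001801b600) k83 k84)))) (.br (nat_lit 0x500000700800c00d000e0100b941a511) (.br (nat_lit 0x200300700800c00d600e01005881a760) (.br (nat_lit 0x100200700800c00d400e01003841a760)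 k85 (.br (nat_lit 0x100400700800c00d800e01003841a760) k86 k87)) (.br (nat_lit 0x300000700800c00d000e010078c1a511) k88 (.br (nat_lit 0x400000700800b011000e010097022511) k89 k90))) (.br (nat_lit 0x500000100700800c00d200e0b141801a611) (.br (nat_lit 0x700000700800b012000e0100f7c24511) k91 (.br (nat_lit 0xb00000700800b012000e010178c24511) k92 k93)) (.br (nat_lit 0x600000200700800c00d400e0d181801a611) k94 (.br (nat_lit 0x700000600700800c00dc00e0f1c1801a611) k95 k96)))))
noncomputable def u4 : KT := (.br (Nat.shiftLeft (nat_lit 0x3804005809) (nat_lit 65)) (.br (Nat.shiftLeft (nat_lit 0x700800b011) (nat_lit 64)) (.one (nat_lit 0x700800b010000e010016020540)) (.one (nat_lit 0x700800b011000e010016022540))) (.br (Nat.shiftLeft (nat_lit 0x1c02003) (nat_lit 78)) (.one (nat_lit 0x700800b012000e010016024540)) (.one (nat_lit 0x700800c00d000e01001801a540))))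
def w4 : u4.all (wj 57 s4) = true := by decide +kernel
def o4 : OkW 57 (jb2 57 fl) u4 := .lift s4 _ (.br _ _ _ (.br _ _ _ (.br _ _ _ (.br _ _ _ (.leaf b0 k74 t74) (.leaf b0 k75 t75)) (.br _ _ _ (.leaf b0 k76 t76) (.br _ _ _ (.leaf b0 k77 t77) (.leaf b0 k78 t78)))) (.br _ _ _ (.br _ _ _ (.leaf b0 k79 t79) (.br _ _ _ (.leaf b0 k80 t80) (.leaf b0 k81 t81))) (.br _ _ _ (.leaf b0 k82 t82) (.br _ _ _ (.leaf b0 k83 t83) (.leaf b0 k84 t84))))) (.br _ _ _ (.br _ _ _ (.br _ _ _ (.leaf b0 k85 t85) (.br _ _ _ (.leaf b0 k86 t86) (.leaf b0 k87 t87))) (.br _ _ _ (.leaf b0 k88 t88) (.br _ _ _ (.leaf b0 k89 t89) (.leaf b0 k90 t90)))) (.br _ _ _ (.br _ _ _ (.leaf b0 k91 t91) (.br _ _ _ (.leaf b0 k92 t92) (.leaf b0 k93 t93))) (.br _ _ _ (.leaf b0 k94 t94) (.br _ _ _ (.leaf b0 k95 t95) (.leaf b0 k96 t96)))))) w4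
noncomputable def k97 : KT := (.br (Nat.shiftLeft (nat_lit 0x700800c01) (nat_lit 68)) (.br (Nat.shiftLeft (nat_lit 0x700800c00f) (nat_lit 64)) (.one (nat_lit 0x700800c00e000e01001801d500)) (.one (nat_lit 0x700800c00f000e01001801f500))) (.br (Nat.shiftLeft (nat_lit 0x700800c011) (nat_lit 64)) (.one (nat_lit 0x700800c010000e010018021500)) (.br (Nat.shiftLeft (nat_lit 0x1) (nat_lit 112)) (.one (nat_lit 0x700800c011000e010018023500)) (.one (nat_lit 0x100700800c00e200e01001801c650)))))
def t97 : k97.all (jb2 57 fl b0) = true := by decide +kernel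
noncomputable def k98 : KT := (.one (nat_lit 0x100700800c00f200e01001801e650))
def t98 : k98.all (jb2 57 fl b0) = true := by decide +kernel
noncomputable def k99 : KT := (.br (Nat.shiftLeft (nat_lit 0x100700800c011) (nat_lit 64)) (.one (nat_lit 0x100700800c010200e010018020650)) (.br (Nat.shiftLeft (nat_lit 0x1) (nat_lit 113)) (.one (nat_lit 0x100700800c011200e010018022650)) (.one (nat_lit 0x200700800c00e400e01001801d600))))
def t99 : k99.all (jb2 57 fl b0) = true := by decide +kernel
noncomputable def k100 : KT := (.one (nat_lit 0x200700800c00f400e01001801e650))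
def t100 : k100.all (jb2 57 fl b0) = true := by decide +kernel
noncomputable def k101 : KT := (.br (Nat.shiftLeft (nat_lit 0x200700800c011) (nat_lit 64)) (.one (nat_lit 0x200700800c010400e010018020650)) (.br (Nat.shiftLeft (nat_lit 0x3) (nat_lit 112)) (.one (nat_lit 0x200700800c011400e010018022650)) (.one (nat_lit 0x300700800c00e600e01001801d600))))
def t101 : k101.all (jb2 57 fl b0) = true := by decide +kernel
noncomputable def k102 : KT := (.one (nat_lit 0x300700800c00f600e01001801e650))
def t102 : k102.all (jb2 57 fl b0) = true := by decide +kernel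
noncomputable def k103 : KT := (.br (Nat.shiftLeft (nat_lit 0x300700800c011) (nat_lit 64)) (.one (nat_lit 0x300700800c010600e010018020650)) (.br (Nat.shiftLeft (nat_lit 0x1) (nat_lit 114)) (.one (nat_lit 0x300700800c011600e010018022650)) (.one (nat_lit 0x400700800c00e800e01001801d600))))
def t103 : k103.all (jb2 57 fl b0) = true := by decide +kernel
noncomputable def k104 : KT := (.one (nat_lit 0x400700800c00f800e01001801e650))
def t104 : k104.all (jb2 57 fl b0) = true := by decide +kernel
noncomputable def k105 : KT := (.br (Nat.shiftLeft (nat_lit 0x400700800c011) (nat_lit 64)) (.one (nat_lit 0x400700800c010800e010018020650)) (.one (nat_lit 0x400700800c011800e010018022650)))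
def t105 : k105.all (jb2 57 fl b0) = true := by decide +kernel
noncomputable def k106 : KT := (.one (nat_lit 0x500700800c00ea00e01001801c650))
def t106 : k106.all (jb2 57 fl b0) = true := by decide +kernel
noncomputable def k107 : KT := (.one (nat_lit 0x500700800c00fa00e01001801e650))
def t107 : k107.all (jb2 57 fl b0) = true := by decide +kernel
noncomputable def k108 : KT := (.br (Nat.shiftLeft (nat_lit 0x500700800c011) (nat_lit 64)) (.one (nat_lit 0x500700800c010a00e010018020650)) (.one (nat_lit 0x500700800c011a00e010018022650)))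
def t108 : k108.all (jb2 57 fl b0) = true := by decide +kernel
noncomputable def k109 : KT := (.one (nat_lit 0x600700800c00ec00e01001801c650))
def t109 : k109.all (jb2 57 fl b0) = true := by decide +kernel
noncomputable def k110 : KT := (.br (Nat.shiftLeft (nat_lit 0x1) (nat_lit 124)) (.br (Nat.shiftLeft (nat_lit 0x600700800c01) (nat_lit 68)) (.one (nat_lit 0x600700800c00fc00e01001801e650)) (.br (Nat.shiftLeft (nat_lit 0x600700800c011) (nat_lit 64)) (.one (nat_lit 0x600700800c010c00e010018020650)) (.one (nat_lit 0x600700800c011c00e010018022650)))) (.br (Nat.shiftLeft (nat_lit 0x100000700800c01) (nat_lit 68)) (.br (Nat.shiftLeft (nat_lit 0x100000700800c00f) (nat_lit 64)) (.one (nat_lit 0x100000700800c00e000e01003841c511)) (.one (nat_lit 0x100000700800c00f000e01003841e511))) (.br (Nat.shiftLeft (nat_lit 0x100000700800c011) (nat_lit 64)) (.one (nat_lit 0x100000700800c010000e010038420511)) (.one (nat_lit 0x100000700800c011000e010038422511)))))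
def t110 : k110.all (jb2 57 fl b0) = true := by decide +kernel
noncomputable def k111 : KT := (.br (Nat.shiftLeft (nat_lit 0x1003) (nat_lit 112)) (.one (nat_lit 0x100200700800c00e400e01003841c760)) (.one (nat_lit 0x100300700800c00e600e01003841c760)))
def t111 : k111.all (jb2 57 fl b0) = true := by decide +kernel
noncomputable def k112 : KT := (.br (Nat.shiftLeft (nat_lit 0x1001) (nat_lit 113)) (.br (Nat.shiftLeft (nat_lit 0x200000700800c00f) (nat_lit 64)) (.br (Nat.shiftLeft (nat_lit 0x1) (nat_lit 125)) (.one (nat_lit 0x100400700800c00e800e01003841c760)) (.one (nat_lit 0x200000700800c00e000e01005881c511))) (.br (Nat.shiftLeft (nat_lit 0x200000700800c01) (nat_lit 68)) (.one (nat_lit 0x200000700800c00f000e01005881e511)) (.br (Nat.shiftLeft (nat_lit 0x200000700800c011) (nat_lit 64)) (.one (nat_lit 0x200000700800c010000e010058820511)) (.one (nat_lit 0x200000700800c011000e010058822511))))) (.br (Nat.shiftLeft (nat_lit 0x3) (nat_lit 124)) (.br (Nat.shiftLeft (nat_lit 0x801) (nat_lit 114)) (.one (nat_lit 0x200300700800c00e600e01005881c760))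 (.one (nat_lit 0x200400700800c00e800e01005881c760))) (.br (Nat.shiftLeft (nat_lit 0x300000700800c00f) (nat_lit 64)) (.one (nat_lit 0x300000700800c00e000e010078c1c511)) (.br (Nat.shiftLeft (nat_lit 0x300000700800c01) (nat_lit 68)) (.one (nat_lit 0x300000700800c00f000e010078c1e511)) (.one (nat_lit 0x300000700800c010000e010078c20511))))))
def t112 : k112.all (jb2 57 fl b0) = true := by decide +kernel
noncomputable def k113 : KT := (.br (Nat.shiftLeft (nat_lit 0x400000700800c011) (nat_lit 64)) (.br (Nat.shiftLeft (nat_lit 0x1) (nat_lit 126)) (.br (Nat.shiftLeft (nat_lit 0xc01) (nat_lit 114)) (.one (nat_lit 0x300000700800c011000e010078c22511)) (.one (nat_lit 0x300400700800c00e800e010078c1c760))) (.br (Nat.shiftLeft (nat_lit 0x400000700800c00f) (nat_lit 64)) (.one (nat_lit 0x400000700800c00e000e01009901c511)) (.br (Nat.shiftLeft (nat_lit 0x400000700800c01) (nat_lit 68)) (.one (nat_lit 0x400000700800c00f000e01009901e511)) (.one (nat_lit 0x400000700800c010000e010099020511))))) (.br (Nat.shiftLeft (nat_lit 0x500000700800c00f)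 (nat_lit 64)) (.br (Nat.shiftLeft (nat_lit 0x5) (nat_lit 124)) (.one (nat_lit 0x400000700800c011000e010099022511)) (.one (nat_lit 0x500000700800c00e000e0100b941c511))) (.br (Nat.shiftLeft (nat_lit 0x500000700800c01) (nat_lit 68)) (.one (nat_lit 0x500000700800c00f000e0100b941e511)) (.br (Nat.shiftLeft (nat_lit 0x500000700800c011) (nat_lit 64)) (.one (nat_lit 0x500000700800c010000e0100b9420511)) (.one (nat_lit 0x500000700800c011000e0100b9422511))))))
def t113 : k113.all (jb2 57 fl b0) = true := by decide +kernel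
noncomputable def k114 : KT := (.br (Nat.shiftLeft (nat_lit 0x7) (nat_lit 124)) (.br (Nat.shiftLeft (nat_lit 0x600000700800c01) (nat_lit 68)) (.br (Nat.shiftLeft (nat_lit 0x600000700800c00f) (nat_lit 64)) (.one (nat_lit 0x600000700800c00e000e0100d981c511)) (.one (nat_lit 0x600000700800c00f000e0100d981e511))) (.br (Nat.shiftLeft (nat_lit 0x600000700800c011) (nat_lit 64)) (.one (nat_lit 0x600000700800c010000e0100d9820511)) (.one (nat_lit 0x600000700800c011000e0100d9822511)))) (.br (Nat.shiftLeft (nat_lit 0x700000700800c01) (nat_lit 68)) (.br (Nat.shiftLeft (nat_lit 0x700000700800c00f) (nat_lit 64)) (.one (nat_lit 0x700000700800c00e000e0100f9c1c511)) (.one (nat_lit 0x700000700800c00f000e0100f9c1e511))) (.br (Nat.shiftLeft (nat_lit 0x700000700800c011) (nat_lit 64)) (.one (nat_lit 0x700000700800c010000e0100f9c20511)) (.one (nat_lit 0x700000700800c011000e0100f9c22511)))))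
def t114 : k114.all (jb2 57 fl b0) = true := by decide +kernel
noncomputable def k115 : KT := (.br (Nat.shiftLeft (nat_lit 0xb00000700800c011) (nat_lit 64)) (.br (Nat.shiftLeft (nat_lit 0x900000700800c011) (nat_lit 64)) (.br (Nat.shiftLeft (nat_lit 0x800000700800c011) (nat_lit 64)) (.br (Nat.shiftLeft (nat_lit 0x800000700800c00f) (nat_lit 64)) (.one (nat_lit 0x800000700800c00e000e01011a01c511)) (.br (Nat.shiftLeft (nat_lit 0x800000700800c01) (nat_lit 68)) (.one (nat_lit 0x800000700800c00f000e01011a01e511)) (.one (nat_lit 0x800000700800c010000e01011a020511)))) (.br (Nat.shiftLeft (nat_lit 0x900000700800c00f) (nat_lit 64)) (.br (Nat.shiftLeft (nat_lit 0x9) (nat_lit 124)) (.one (nat_lit 0x800000700800c011000e01011a022511)) (.one (nat_lit 0x900000700800c00e000e01013a41c511))) (.br (Nat.shiftLeft (nat_lit 0x900000700800c01) (nat_lit 68)) (.one (nat_lit 0x900000700800c00f000e01013a41e511)) (.one (nat_lit 0x900000700800c010000e01013a420511))))) (.br (Nat.shiftLeft (nat_lit 0xa00000700800c011) (nat_lit 64))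 (.br (Nat.shiftLeft (nat_lit 0xa00000700800c00f) (nat_lit 64)) (.br (Nat.shiftLeft (nat_lit 0x5) (nat_lit 125)) (.one (nat_lit 0x900000700800c011000e01013a422511)) (.one (nat_lit 0xa00000700800c00e000e01015a81c511))) (.br (Nat.shiftLeft (nat_lit 0xa00000700800c01) (nat_lit 68)) (.one (nat_lit 0xa00000700800c00f000e01015a81e511)) (.one (nat_lit 0xa00000700800c010000e01015a820511)))) (.br (Nat.shiftLeft (nat_lit 0xb00000700800c00f) (nat_lit 64)) (.br (Nat.shiftLeft (nat_lit 0xb) (nat_lit 124)) (.one (nat_lit 0xa00000700800c011000e01015a822511)) (.one (nat_lit 0xb00000700800c00e000e01017ac1c511))) (.br (Nat.shiftLeft (nat_lit 0xb00000700800c01) (nat_lit 68)) (.one (nat_lit 0xb00000700800c00f000e01017ac1e511)) (.one (nat_lit 0xb00000700800c010000e01017ac20511)))))) (.br (Nat.shiftLeft (nat_lit 0x400001) (nat_lit 114)) (.br (Nat.shiftLeft (nat_lit 0xc00000700800c01) (nat_lit 68)) (.br (Nat.shiftLeft (nat_lit 0x3) (nat_lit 126)) (.one (nat_lit 0xb00000700800c011000e01017ac22511)) (.br (Nat.shiftLeft (nat_lit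 0xc00000700800c00f) (nat_lit 64)) (.one (nat_lit 0xc00000700800c00e000e01019b01c511)) (.one (nat_lit 0xc00000700800c00f000e01019b01e511)))) (.br (Nat.shiftLeft (nat_lit 0x1) (nat_lit 136)) (.br (Nat.shiftLeft (nat_lit 0xc00000700800c011) (nat_lit 64)) (.one (nat_lit 0xc00000700800c010000e01019b020511)) (.one (nat_lit 0xc00000700800c011000e01019b022511))) (.br (Nat.shiftLeft (nat_lit 0x1000003) (nat_lit 112)) (.one (nat_lit 0x100000200700800c00e400e03041801c611)) (.one (nat_lit 0x100000300700800c00e600e03041801c611))))) (.br (Nat.shiftLeft (nat_lit 0x3) (nat_lit 136)) (.br (Nat.shiftLeft (nat_lit 0x2000003) (nat_lit 112)) (.br (Nat.shiftLeft (nat_lit 0x1) (nat_lit 137)) (.one (nat_lit 0x100000400700800c00e800e03041801c611)) (.one (nat_lit 0x200000200700800c00e400e05081801c611))) (.br (Nat.shiftLeft (nat_lit 0x800001) (nat_lit 114)) (.one (nat_lit 0x200000300700800c00e600e05081801c611)) (.one (nat_lit 0x200000400700800c00e800e05081801c611)))) (.br (Nat.shiftLeft (nat_lit 0xc00001) (nat_lit 114)) (.br (Nat.shiftLeft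 (nat_lit 0x3000003) (nat_lit 112)) (.one (nat_lit 0x300000200700800c00e400e070c1801c611)) (.one (nat_lit 0x300000300700800c00e600e070c1801c611))) (.br (Nat.shiftLeft (nat_lit 0x1) (nat_lit 138)) (.one (nat_lit 0x300000400700800c00e800e070c1801c611)) (.one (nat_lit 0x400000200700800c00e400e09101801c611)))))))
def t115 : k115.all (jb2 57 fl b0) = true := by decide +kernel
noncomputable def k116 : KT := (.br (Nat.shiftLeft (nat_lit 0x6000003) (nat_lit 112)) (.br (Nat.shiftLeft (nat_lit 0x5000003) (nat_lit 112)) (.br (Nat.shiftLeft (nat_lit 0x1000001) (nat_lit 114)) (.one (nat_lit 0x400000300700800c00e600e09101801c611)) (.br (Nat.shiftLeft (nat_lit 0x5) (nat_lit 136)) (.one (nat_lit 0x400000400700800c00e800e09101801c611)) (.one (nat_lit 0x500000200700800c00e400e0b141801c611)))) (.br (Nat.shiftLeft (nat_lit 0x1400001) (nat_lit 114)) (.one (nat_lit 0x500000300700800c00e600e0b141801c611)) (.br (Nat.shiftLeft (nat_lit 0x3) (nat_lit 137)) (.one (nat_lit 0x500000400700800c00e800e0b141801c611)) (.one (nat_lit 0x600000200700800c00e400e0d181801c611)))))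 (.br (Nat.shiftLeft (nat_lit 0x7000003) (nat_lit 112)) (.br (Nat.shiftLeft (nat_lit 0x1800001) (nat_lit 114)) (.one (nat_lit 0x600000300700800c00e600e0d181801c611)) (.br (Nat.shiftLeft (nat_lit 0x7) (nat_lit 136)) (.one (nat_lit 0x600000400700800c00e800e0d181801c611)) (.one (nat_lit 0x700000200700800c00e400e0f1c1801c611)))) (.br (Nat.shiftLeft (nat_lit 0x1c00001) (nat_lit 114)) (.one (nat_lit 0x700000300700800c00e600e0f1c1801c611)) (.br (Nat.shiftLeft (nat_lit 0x1) (nat_lit 139)) (.one (nat_lit 0x700000400700800c00e800e0f1c1801c611)) (.one (nat_lit 0x800000200700800c00e400e11201801c611))))))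
def t116 : k116.all (jb2 57 fl b0) = true := by decide +kernel
noncomputable def k117 : KT := (.br (Nat.shiftLeft (nat_lit 0x2800001) (nat_lit 114)) (.br (Nat.shiftLeft (nat_lit 0x9000003) (nat_lit 112)) (.br (Nat.shiftLeft (nat_lit 0x2000001) (nat_lit 114)) (.one (nat_lit 0x800000300700800c00e600e11201801c611)) (.br (Nat.shiftLeft (nat_lit 0x9) (nat_lit 136)) (.one (nat_lit 0x800000400700800c00e800e11201801c611)) (.one (nat_lit 0x900000200700800c00e400e13241801c611)))) (.br (Nat.shiftLeft (nat_lit 0x5) (nat_lit 137)) (.br (Nat.shiftLeft (nat_lit 0x2400001) (nat_lit 114)) (.one (nat_lit 0x900000300700800c00e600e13241801c611)) (.one (nat_lit 0x900000400700800c00e800e13241801c611))) (.br (Nat.shiftLeft (nat_lit 0xa000003) (nat_lit 112)) (.one (nat_lit 0xa00000200700800c00e400e15281801c611)) (.one (nat_lit 0xa00000300700800c00e600e15281801c611))))) (.br (Nat.shiftLeft (nat_lit 0x2c00001) (nat_lit 114)) (.br (Nat.shiftLeft (nat_lit 0xb) (nat_lit 136)) (.one (nat_lit 0xa00000400700800c00e800e15281801c611))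 (.br (Nat.shiftLeft (nat_lit 0xb000003) (nat_lit 112)) (.one (nat_lit 0xb00000200700800c00e400e172c1801c611)) (.one (nat_lit 0xb00000300700800c00e600e172c1801c611)))) (.br (Nat.shiftLeft (nat_lit 0xc000003) (nat_lit 112)) (.br (Nat.shiftLeft (nat_lit 0x3) (nat_lit 138)) (.one (nat_lit 0xb00000400700800c00e800e172c1801c611)) (.one (nat_lit 0xc00000200700800c00e400e19301801c611))) (.br (Nat.shiftLeft (nat_lit 0x3000001) (nat_lit 114)) (.one (nat_lit 0xc00000300700800c00e600e19301801c611)) (.one (nat_lit 0xc00000400700800c00e800e19301801c611))))))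
def t117 : k117.all (jb2 57 fl b0) = true := by decide +kernel
noncomputable def s5 : KT := (.br (nat_lit 0x500700800c00ea00e01001801c650) (.br (nat_lit 0x300700800c00e600e01001801d600) (.br (nat_lit 0x100700800c00f200e01001801e650) (.br (nat_lit 0x100700800c00e200e01001801c650) k97 k98) (.br (nat_lit 0x200700800c00e400e01001801d600) k99 (.br (nat_lit 0x200700800c00f400e01001801e650) k100 k101))) (.br (nat_lit 0x400700800c00e800e01001801d600) (.br (nat_lit 0x300700800c00f600e01001801e650) k102 k103) (.br (nat_lit 0x400700800c00f800e01001801e650) k104 (.br (nat_lit 0x400700800c011800e010018022650) k105 k106)))) (.br (nat_lit 0x100300700800c00e600e01003841c760) (.br (nat_lit 0x500700800c011a00e010018022650) (.br (nat_lit 0x500700800c00fa00e01001801e650) k107 k108) (.br (nat_lit 0x600700800c00ec00e01001801c650) k109 (.br (nat_lit 0x100000700800c011000e010038422511) k110 k111))) (.br (nat_lit 0x700000700800c011000e0100f9c22511) (.br (nat_lit 0x300000700800c010000e010078c20511) k112 (.br (nat_lit 0x500000700800c011000e0100b9422511)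 k113 k114)) (.br (nat_lit 0x400000200700800c00e400e09101801c611) k115 (.br (nat_lit 0x800000200700800c00e400e11201801c611) k116 k117)))))
noncomputable def u5 : KT := (.br (Nat.shiftLeft (nat_lit 0x700800c01) (nat_lit 68)) (.br (Nat.shiftLeft (nat_lit 0x700800c00f) (nat_lit 64)) (.one (nat_lit 0x700800c00e000e01001801c540)) (.one (nat_lit 0x700800c00f000e01001801e540))) (.br (Nat.shiftLeft (nat_lit 0x700800c011) (nat_lit 64)) (.one (nat_lit 0x700800c010000e010018020540)) (.one (nat_lit 0x700800c011000e010018022540))))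
def w5 : u5.all (wj 57 s5) = true := by decide +kernel
def o5 : OkW 57 (jb2 57 fl) u5 := .lift s5 _ (.br _ _ _ (.br _ _ _ (.br _ _ _ (.br _ _ _ (.leaf b0 k97 t97) (.leaf b0 k98 t98)) (.br _ _ _ (.leaf b0 k99 t99) (.br _ _ _ (.leaf b0 k100 t100) (.leaf b0 k101 t101)))) (.br _ _ _ (.br _ _ _ (.leaf b0 k102 t102) (.leaf b0 k103 t103)) (.br _ _ _ (.leaf b0 k104 t104) (.br _ _ _ (.leaf b0 k105 t105) (.leaf b0 k106 t106))))) (.br _ _ _ (.br _ _ _ (.br _ _ _ (.leaf b0 k107 t107) (.leaf b0 k108 t108)) (.br _ _ _ (.leaf b0 k109 t109) (.br _ _ _ (.leaf b0 k110 t110) (.leaf b0 k111 t111)))) (.br _ _ _ (.br _ _ _ (.leaf b0 k112 t112) (.br _ _ _ (.leaf b0 k113 t113) (.leaf b0 k114 t114))) (.br _ _ _ (.leaf b0 k115 t115) (.br _ _ _ (.leaf b0 k116 t116) (.leaf b0 k117 t117)))))) w5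
noncomputable def k118 : KT := (.br (Nat.shiftLeft (nat_lit 0x3804007) (nat_lit 77)) (.br (Nat.shiftLeft (nat_lit 0x700800d00f) (nat_lit 64)) (.one (nat_lit 0x700800d00e000e01001a01d500)) (.br (Nat.shiftLeft (nat_lit 0x700800d01) (nat_lit 68)) (.one (nat_lit 0x700800d00f000e01001a01f500)) (.one (nat_lit 0x700800d010000e01001a021500)))) (.br (Nat.shiftLeft (nat_lit 0x7009) (nat_lit 88)) (.one (nat_lit 0x700800e00f000e01001c01f500)) (.br (Nat.shiftLeft (nat_lit 0x1) (nat_lit 112)) (.one (nat_lit 0x700900a00b000e012014017500)) (.one (nat_lit 0x100700800d00e200e01001a01c650)))))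
def t118 : k118.all (jb2 57 fl b0) = true := by decide +kernel
noncomputable def k119 : KT := (.br (Nat.shiftLeft (nat_lit 0x100700800d01) (nat_lit 68)) (.one (nat_lit 0x100700800d00f200e01001a01e650)) (.one (nat_lit 0x100700800d010200e01001a020650)))
def t119 : k119.all (jb2 57 fl b0) = true := by decide +kernel
noncomputable def k120 : KT := (.one (nat_lit 0x100700800e00f200e01001c01e650))
def t120 : k120.all (jb2 57 fl b0) = true := by decide +kernel
noncomputable def k121 : KT := (.one (nat_lit 0x200700800d00e400e01001a01c650))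
def t121 : k121.all (jb2 57 fl b0) = true := by decide +kernel
noncomputable def k122 : KT := (.br (Nat.shiftLeft (nat_lit 0x200700800d01) (nat_lit 68)) (.one (nat_lit 0x200700800d00f400e01001a01e650)) (.one (nat_lit 0x200700800d010400e01001a020650)))
def t122 : k122.all (jb2 57 fl b0) = true := by decide +kernel
noncomputable def k123 : KT := (.one (nat_lit 0x200700800e00f400e01001c01e650))
def t123 : k123.all (jb2 57 fl b0) = true := by decide +kernel
noncomputable def k124 : KT := (.one (nat_lit 0x300700800d00e600e01001a01c650))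
def t124 : k124.all (jb2 57 fl b0) = true := by decide +kernel
noncomputable def k125 : KT := (.br (Nat.shiftLeft (nat_lit 0x300700800d01) (nat_lit 68)) (.one (nat_lit 0x300700800d00f600e01001a01e650)) (.one (nat_lit 0x300700800d010600e01001a020650)))
def t125 : k125.all (jb2 57 fl b0) = true := by decide +kernel
noncomputable def k126 : KT := (.one (nat_lit 0x300700800e00f600e01001c01e650))
def t126 : k126.all (jb2 57 fl b0) = true := by decide +kernel
noncomputable def k127 : KT := (.one (nat_lit 0x400700800d00e800e01001a01c650))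
def t127 : k127.all (jb2 57 fl b0) = true := by decide +kernel
noncomputable def k128 : KT := (.br (Nat.shiftLeft (nat_lit 0x400700800d01) (nat_lit 68)) (.one (nat_lit 0x400700800d00f800e01001a01e650)) (.one (nat_lit 0x400700800d010800e01001a020650)))
def t128 : k128.all (jb2 57 fl b0) = true := by decide +kernel
noncomputable def k129 : KT := (.br (Nat.shiftLeft (nat_lit 0x5) (nat_lit 112)) (.one (nat_lit 0x400700800e00f800e01001c01e650)) (.one (nat_lit 0x500700800d00ea00e01001a01c650)))
def t129 : k129.all (jb2 57 fl b0) = true := by decide +kernel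
noncomputable def k130 : KT := (.br (Nat.shiftLeft (nat_lit 0x500700800d01) (nat_lit 68)) (.one (nat_lit 0x500700800d00fa00e01001a01e650)) (.br (Nat.shiftLeft (nat_lit 0x2803804007) (nat_lit 77)) (.one (nat_lit 0x500700800d010a00e01001a020650)) (.one (nat_lit 0x500700800e00fa00e01001c01e650))))
def t130 : k130.all (jb2 57 fl b0) = true := by decide +kernel
noncomputable def k131 : KT := (.br (Nat.shiftLeft (nat_lit 0x600700800d00f) (nat_lit 64)) (.one (nat_lit 0x600700800d00ec00e01001a01c650)) (.br (Nat.shiftLeft (nat_lit 0x600700800d01) (nat_lit 68)) (.one (nat_lit 0x600700800d00fc00e01001a01e650)) (.one (nat_lit 0x600700800d010c00e01001a020650))))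
def t131 : k131.all (jb2 57 fl b0) = true := by decide +kernel
noncomputable def k132 : KT := (.br (Nat.shiftLeft (nat_lit 0x300000700800d00f) (nat_lit 64)) (.br (Nat.shiftLeft (nat_lit 0x1) (nat_lit 125)) (.br (Nat.shiftLeft (nat_lit 0x100000700800d00f) (nat_lit 64)) (.br (Nat.shiftLeft (nat_lit 0x1) (nat_lit 124)) (.one (nat_lit 0x600700800e00fc00e01001c01e650)) (.one (nat_lit 0x100000700800d00e000e01003a41c511))) (.br (Nat.shiftLeft (nat_lit 0x100000700800d01) (nat_lit 68)) (.one (nat_lit 0x100000700800d00f000e01003a41e511)) (.br (Nat.shiftLeft (nat_lit 0x800003804007) (nat_lit 77)) (.one (nat_lit 0x100000700800d010000e01003a420511)) (.one (nat_lit 0x100000700800e00f000e01003c41e511))))) (.br (Nat.shiftLeft (nat_lit 0x200000700800d01) (nat_lit 68)) (.br (Nat.shiftLeft (nat_lit 0x200000700800d00f) (nat_lit 64)) (.one (nat_lit 0x200000700800d00e000e01005a81c511)) (.one (nat_lit 0x200000700800d00f000e01005a81e511))) (.br (Nat.shiftLeft (nat_lit 0x1000003804007) (nat_lit 77)) (.one (nat_lit 0x200000700800d010000e01005a820511))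 (.br (Nat.shiftLeft (nat_lit 0x3) (nat_lit 124)) (.one (nat_lit 0x200000700800e00f000e01005c81e511)) (.one (nat_lit 0x300000700800d00e000e01007ac1c511)))))) (.br (Nat.shiftLeft (nat_lit 0x400000700800d01) (nat_lit 68)) (.br (Nat.shiftLeft (nat_lit 0x1800003804007) (nat_lit 77)) (.br (Nat.shiftLeft (nat_lit 0x300000700800d01) (nat_lit 68)) (.one (nat_lit 0x300000700800d00f000e01007ac1e511)) (.one (nat_lit 0x300000700800d010000e01007ac20511))) (.br (Nat.shiftLeft (nat_lit 0x1) (nat_lit 126)) (.one (nat_lit 0x300000700800e00f000e01007cc1e511)) (.br (Nat.shiftLeft (nat_lit 0x400000700800d00f) (nat_lit 64)) (.one (nat_lit 0x400000700800d00e000e01009b01c511)) (.one (nat_lit 0x400000700800d00f000e01009b01e511))))) (.br (Nat.shiftLeft (nat_lit 0x500000700800d00f) (nat_lit 64)) (.br (Nat.shiftLeft (nat_lit 0x2000003804007) (nat_lit 77)) (.one (nat_lit 0x400000700800d010000e01009b020511)) (.br (Nat.shiftLeft (nat_lit 0x5) (nat_lit 124)) (.one (nat_lit 0x400000700800e00f000e01009d01e511)) (.one (nat_lit 0x500000700800d00e000e0100bb41c511))))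 (.br (Nat.shiftLeft (nat_lit 0x500000700800d01) (nat_lit 68)) (.one (nat_lit 0x500000700800d00f000e0100bb41e511)) (.br (Nat.shiftLeft (nat_lit 0x2800003804007) (nat_lit 77)) (.one (nat_lit 0x500000700800d010000e0100bb420511)) (.one (nat_lit 0x500000700800e00f000e0100bd41e511)))))))
def t132 : k132.all (jb2 57 fl b0) = true := by decide +kernel
noncomputable def k133 : KT := (.br (Nat.shiftLeft (nat_lit 0x700000700800d01) (nat_lit 68)) (.br (Nat.shiftLeft (nat_lit 0x3000003804007) (nat_lit 77)) (.br (Nat.shiftLeft (nat_lit 0x600000700800d00f) (nat_lit 64)) (.one (nat_lit 0x600000700800d00e000e0100db81c511)) (.br (Nat.shiftLeft (nat_lit 0x600000700800d01) (nat_lit 68)) (.one (nat_lit 0x600000700800d00f000e0100db81e511)) (.one (nat_lit 0x600000700800d010000e0100db820511)))) (.br (Nat.shiftLeft (nat_lit 0x7) (nat_lit 124)) (.one (nat_lit 0x600000700800e00f000e0100dd81e511)) (.br (Nat.shiftLeft (nat_lit 0x700000700800d00f) (nat_lit 64)) (.one (nat_lit 0x700000700800d00e000e0100fbc1c511)) (.one (nat_lit 0x700000700800d00f000e0100fbc1e511)))))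 (.br (Nat.shiftLeft (nat_lit 0x800000700800d00f) (nat_lit 64)) (.br (Nat.shiftLeft (nat_lit 0x3800003804007) (nat_lit 77)) (.one (nat_lit 0x700000700800d010000e0100fbc20511)) (.br (Nat.shiftLeft (nat_lit 0x1) (nat_lit 127)) (.one (nat_lit 0x700000700800e00f000e0100fdc1e511)) (.one (nat_lit 0x800000700800d00e000e01011c01c511)))) (.br (Nat.shiftLeft (nat_lit 0x4000003804007) (nat_lit 77)) (.br (Nat.shiftLeft (nat_lit 0x800000700800d01) (nat_lit 68)) (.one (nat_lit 0x800000700800d00f000e01011c01e511)) (.one (nat_lit 0x800000700800d010000e01011c020511))) (.br (Nat.shiftLeft (nat_lit 0x9) (nat_lit 124)) (.one (nat_lit 0x800000700800e00f000e01011e01e511)) (.one (nat_lit 0x900000700800d00e000e01013c41c511))))))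
def t133 : k133.all (jb2 57 fl b0) = true := by decide +kernel
noncomputable def k134 : KT := (.br (Nat.shiftLeft (nat_lit 0xb00000700800d01) (nat_lit 68)) (.br (Nat.shiftLeft (nat_lit 0xa00000700800d00f) (nat_lit 64)) (.br (Nat.shiftLeft (nat_lit 0x4800003804007) (nat_lit 77)) (.br (Nat.shiftLeft (nat_lit 0x900000700800d01) (nat_lit 68)) (.one (nat_lit 0x900000700800d00f000e01013c41e511)) (.one (nat_lit 0x900000700800d010000e01013c420511))) (.br (Nat.shiftLeft (nat_lit 0x5) (nat_lit 125)) (.one (nat_lit 0x900000700800e00f000e01013e41e511)) (.one (nat_lit 0xa00000700800d00e000e01015c81c511)))) (.br (Nat.shiftLeft (nat_lit 0x5000003804007) (nat_lit 77)) (.br (Nat.shiftLeft (nat_lit 0xa00000700800d01) (nat_lit 68)) (.one (nat_lit 0xa00000700800d00f000e01015c81e511)) (.one (nat_lit 0xa00000700800d010000e01015c820511))) (.br (Nat.shiftLeft (nat_lit 0xb) (nat_lit 124)) (.one (nat_lit 0xa00000700800e00f000e01015e81e511)) (.br (Nat.shiftLeft (nat_lit 0xb00000700800d00f) (nat_lit 64)) (.one (nat_lit 0xb00000700800d00e000e01017cc1c511))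 (.one (nat_lit 0xb00000700800d00f000e01017cc1e511)))))) (.br (Nat.shiftLeft (nat_lit 0x6000003804007) (nat_lit 77)) (.br (Nat.shiftLeft (nat_lit 0x3) (nat_lit 126)) (.br (Nat.shiftLeft (nat_lit 0x5800003804007) (nat_lit 77)) (.one (nat_lit 0xb00000700800d010000e01017cc20511)) (.one (nat_lit 0xb00000700800e00f000e01017ec1e511))) (.br (Nat.shiftLeft (nat_lit 0xc00000700800d00f) (nat_lit 64)) (.one (nat_lit 0xc00000700800d00e000e01019d01c511)) (.br (Nat.shiftLeft (nat_lit 0xc00000700800d01) (nat_lit 68)) (.one (nat_lit 0xc00000700800d00f000e01019d01e511)) (.one (nat_lit 0xc00000700800d010000e01019d020511))))) (.br (Nat.shiftLeft (nat_lit 0xd00000700800d00f) (nat_lit 64)) (.br (Nat.shiftLeft (nat_lit 0xd) (nat_lit 124)) (.one (nat_lit 0xc00000700800e00f000e01019f01e511)) (.one (nat_lit 0xd00000700800d00e000e0101bd41c511))) (.br (Nat.shiftLeft (nat_lit 0xd00000700800d01) (nat_lit 68)) (.one (nat_lit 0xd00000700800d00f000e0101bd41e511)) (.br (Nat.shiftLeft (nat_lit 0x6800003804007) (nat_lit 77)) (.one (nat_lit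 0xd00000700800d010000e0101bd420511)) (.one (nat_lit 0xd00000700800e00f000e0101bf41e511)))))))
def t134 : k134.all (jb2 57 fl b0) = true := by decide +kernel
noncomputable def s6 : KT := (.br (nat_lit 0x300700800d010600e01001a020650) (.br (nat_lit 0x200700800d00e400e01001a01c650) (.br (nat_lit 0x100700800d010200e01001a020650) (.br (nat_lit 0x100700800d00e200e01001a01c650) k118 k119) (.br (nat_lit 0x100700800e00f200e01001c01e650) k120 k121)) (.br (nat_lit 0x200700800e00f400e01001c01e650) (.br (nat_lit 0x200700800d010400e01001a020650) k122 k123) (.br (nat_lit 0x300700800d00e600e01001a01c650) k124 k125))) (.br (nat_lit 0x500700800d00ea00e01001a01c650) (.br (nat_lit 0x400700800d00e800e01001a01c650) (.br (nat_lit 0x300700800e00f600e01001c01e650) k126 k127) (.br (nat_lit 0x400700800d010800e01001a020650) k128 k129)) (.br (nat_lit 0x600700800d010c00e01001a020650) (.br (nat_lit 0x500700800e00fa00e01001c01e650) k130 k131) (.br (nat_lit 0x500000700800e00f000e0100bd41e511) k132 (.br (nat_lit 0x900000700800d00e000e01013c41c511)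 k133 k134)))))
noncomputable def u6 : KT := (.br (Nat.shiftLeft (nat_lit 0x700800d01) (nat_lit 68)) (.br (Nat.shiftLeft (nat_lit 0x700800d00f) (nat_lit 64)) (.one (nat_lit 0x700800d00e000e01001a01c540)) (.one (nat_lit 0x700800d00f000e01001a01e540))) (.br (Nat.shiftLeft (nat_lit 0x3804007) (nat_lit 77)) (.one (nat_lit 0x700800d010000e01001a020540)) (.br (Nat.shiftLeft (nat_lit 0x7009) (nat_lit 88)) (.one (nat_lit 0x700800e00f000e01001c01e540)) (.one (nat_lit 0x700900a00b000e012014017500)))))
def w6 : u6.all (wj 57 s6) = true := by decide +kernel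
def o6 : OkW 57 (jb2 57 fl) u6 := .lift s6 _ (.br _ _ _ (.br _ _ _ (.br _ _ _ (.br _ _ _ (.leaf b0 k118 t118) (.leaf b0 k119 t119)) (.br _ _ _ (.leaf b0 k120 t120) (.leaf b0 k121 t121))) (.br _ _ _ (.br _ _ _ (.leaf b0 k122 t122) (.leaf b0 k123 t123)) (.br _ _ _ (.leaf b0 k124 t124) (.leaf b0 k125 t125)))) (.br _ _ _ (.br _ _ _ (.br _ _ _ (.leaf b0 k126 t126) (.leaf b0 k127 t127)) (.br _ _ _ (.leaf b0 k128 t128) (.leaf b0 k129 t129))) (.br _ _ _ (.br _ _ _ (.leaf b0 k130 t130) (.leaf b0 k131 t131)) (.br _ _ _ (.leaf b0 k132 t132) (.br _ _ _ (.leaf b0 k133 t133) (.leaf b0 k134 t134)))))) w6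
noncomputable def k135 : KT := (.br (Nat.shiftLeft (nat_lit 0x5) (nat_lit 112)) (.br (Nat.shiftLeft (nat_lit 0x1) (nat_lit 113)) (.br (Nat.shiftLeft (nat_lit 0x1) (nat_lit 112)) (.one (nat_lit 0x700900a00c000e012014019500)) (.one (nat_lit 0x100700900a00c200e012014019600))) (.br (Nat.shiftLeft (nat_lit 0x3) (nat_lit 112)) (.one (nat_lit 0x200700900a00c400e012014019600)) (.br (Nat.shiftLeft (nat_lit 0x1) (nat_lit 114)) (.one (nat_lit 0x300700900a00c600e012014019600)) (.one (nat_lit 0x400700900a00c800e012014019600))))) (.br (Nat.shiftLeft (nat_lit 0x801) (nat_lit 113)) (.br (Nat.shiftLeft (nat_lit 0x3) (nat_lit 113)) (.one (nat_lit 0x500700900a00ca00e012014019600)) (.br (Nat.shiftLeft (nat_lit 0x1) (nat_lit 124)) (.one (nat_lit 0x600700900a00cc00e012014019600)) (.one (nat_lit 0x100000700900a00c000e012034418511)))) (.br (Nat.shiftLeft (nat_lit 0x1003) (nat_lit 112)) (.one (nat_lit 0x100200700900a00c400e012034419700)) (.br (Nat.shiftLeft (nat_lit 0x401) (nat_lit 114)) (.one (nat_lit 0x100300700900a00c600e012034419700))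 (.one (nat_lit 0x100400700900a00c800e012034418760))))))
def t135 : k135.all (jb2 57 fl b0) = true := by decide +kernel
noncomputable def k136 : KT := (.br (Nat.shiftLeft (nat_lit 0x1) (nat_lit 125)) (.br (Nat.shiftLeft (nat_lit 0x803) (nat_lit 113)) (.one (nat_lit 0x100500700900a00ca00e012034418760)) (.one (nat_lit 0x100600700900a00cc00e012034418760))) (.br (Nat.shiftLeft (nat_lit 0x1001) (nat_lit 113)) (.one (nat_lit 0x200000700900a00c000e012054818511)) (.one (nat_lit 0x200300700900a00c600e012054819700))))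
def t136 : k136.all (jb2 57 fl b0) = true := by decide +kernel
noncomputable def k137 : KT := (.one (nat_lit 0x200400700900a00c800e012054818760))
def t137 : k137.all (jb2 57 fl b0) = true := by decide +kernel
noncomputable def k138 : KT := (.one (nat_lit 0x200500700900a00ca00e012054818760))
def t138 : k138.all (jb2 57 fl b0) = true := by decide +kernel
noncomputable def k139 : KT := (.br (Nat.shiftLeft (nat_lit 0x3) (nat_lit 124)) (.one (nat_lit 0x200600700900a00cc00e012054818760)) (.one (nat_lit 0x300000700900a00c000e012074c18511)))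
def t139 : k139.all (jb2 57 fl b0) = true := by decide +kernel
noncomputable def k140 : KT := (.one (nat_lit 0x300400700900a00c800e012074c18760))
def t140 : k140.all (jb2 57 fl b0) = true := by decide +kernel
noncomputable def k141 : KT := (.one (nat_lit 0x300500700900a00ca00e012074c18760))
def t141 : k141.all (jb2 57 fl b0) = true := by decide +kernel
noncomputable def k142 : KT := (.br (Nat.shiftLeft (nat_lit 0x1) (nat_lit 126)) (.one (nat_lit 0x300600700900a00cc00e012074c18760)) (.one (nat_lit 0x400000700900a00c000e012095018511)))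
def t142 : k142.all (jb2 57 fl b0) = true := by decide +kernel
noncomputable def k143 : KT := (.br (Nat.shiftLeft (nat_lit 0x2003) (nat_lit 113)) (.one (nat_lit 0x400500700900a00ca00e012095018760)) (.one (nat_lit 0x400600700900a00cc00e012095018760)))
def t143 : k143.all (jb2 57 fl b0) = true := by decide +kernel
noncomputable def k144 : KT := (.br (Nat.shiftLeft (nat_lit 0x1401) (nat_lit 114)) (.one (nat_lit 0x500000700900a00c000e0120b5418511)) (.br (Nat.shiftLeft (nat_lit 0x3) (nat_lit 125)) (.one (nat_lit 0x500600700900a00cc00e0120b5418760)) (.one (nat_lit 0x600000700900a00c000e0120d5818511))))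
def t144 : k144.all (jb2 57 fl b0) = true := by decide +kernel
noncomputable def k145 : KT := (.br (Nat.shiftLeft (nat_lit 0x1) (nat_lit 127)) (.one (nat_lit 0x700000700900a00c000e0120f5c18511)) (.br (Nat.shiftLeft (nat_lit 0x9) (nat_lit 124)) (.one (nat_lit 0x800000700900a00c000e012116018511)) (.one (nat_lit 0x900000700900a00c000e012136418511))))
def t145 : k145.all (jb2 57 fl b0) = true := by decide +kernel
noncomputable def k146 : KT := (.br (Nat.shiftLeft (nat_lit 0x2000003) (nat_lit 112)) (.br (Nat.shiftLeft (nat_lit 0x1000005) (nat_lit 112)) (.br (Nat.shiftLeft (nat_lit 0x800001) (nat_lit 113)) (.br (Nat.shiftLeft (nat_lit 0x1) (nat_lit 136)) (.one (nat_lit 0xa00000700900a00c000e012156818511)) (.one (nat_lit 0x100000100700900a00c200e032414018611))) (.br (Nat.shiftLeft (nat_lit 0x1000003) (nat_lit 112)) (.one (nat_lit 0x100000200700900a00c400e032414018611)) (.br (Nat.shiftLeft (nat_lit 0x400001) (nat_lit 114)) (.one (nat_lit 0x100000300700900a00c600e032414018611)) (.one (nat_lit 0x100000400700900a00c800e032414018611)))))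 (.br (Nat.shiftLeft (nat_lit 0x801) (nat_lit 125)) (.br (Nat.shiftLeft (nat_lit 0x800003) (nat_lit 113)) (.one (nat_lit 0x100000500700900a00ca00e032414018611)) (.one (nat_lit 0x100000600700900a00cc00e032414018611))) (.br (Nat.shiftLeft (nat_lit 0x1) (nat_lit 137)) (.one (nat_lit 0x100200300700900a00c600e032454818870)) (.br (Nat.shiftLeft (nat_lit 0x1000001) (nat_lit 113)) (.one (nat_lit 0x200000100700900a00c200e052814018611)) (.one (nat_lit 0x200000200700900a00c400e052814018611)))))) (.br (Nat.shiftLeft (nat_lit 0x1800001) (nat_lit 113)) (.br (Nat.shiftLeft (nat_lit 0x2000005) (nat_lit 112)) (.br (Nat.shiftLeft (nat_lit 0x800001) (nat_lit 114)) (.one (nat_lit 0x200000300700900a00c600e052814018611)) (.one (nat_lit 0x200000400700900a00c800e052814018611))) (.br (Nat.shiftLeft (nat_lit 0x1000003) (nat_lit 113)) (.one (nat_lit 0x200000500700900a00ca00e052814018611)) (.br (Nat.shiftLeft (nat_lit 0x3) (nat_lit 136)) (.one (nat_lit 0x200000600700900a00cc00e052814018611)) (.one (nat_lit 0x300000100700900a00c200e072c14018611)))))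 (.br (Nat.shiftLeft (nat_lit 0x3000005) (nat_lit 112)) (.br (Nat.shiftLeft (nat_lit 0x3000003) (nat_lit 112)) (.one (nat_lit 0x300000200700900a00c400e072c14018611)) (.br (Nat.shiftLeft (nat_lit 0xc00001) (nat_lit 114)) (.one (nat_lit 0x300000300700900a00c600e072c14018611)) (.one (nat_lit 0x300000400700900a00c800e072c14018611)))) (.br (Nat.shiftLeft (nat_lit 0x1800003) (nat_lit 113)) (.one (nat_lit 0x300000500700900a00ca00e072c14018611)) (.br (Nat.shiftLeft (nat_lit 0x1) (nat_lit 138)) (.one (nat_lit 0x300000600700900a00cc00e072c14018611)) (.one (nat_lit 0x400000100700900a00c200e093014018611)))))))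
def t146 : k146.all (jb2 57 fl b0) = true := by decide +kernel
noncomputable def k147 : KT := (.br (Nat.shiftLeft (nat_lit 0x4000005) (nat_lit 112)) (.br (Nat.shiftLeft (nat_lit 0x4000003) (nat_lit 112)) (.one (nat_lit 0x400000200700900a00c400e093014018611)) (.br (Nat.shiftLeft (nat_lit 0x1000001) (nat_lit 114)) (.one (nat_lit 0x400000300700900a00c600e093014018611)) (.one (nat_lit 0x400000400700900a00c800e093014018611)))) (.br (Nat.shiftLeft (nat_lit 0x2000003) (nat_lit 113)) (.one (nat_lit 0x400000500700900a00ca00e093014018611)) (.br (Nat.shiftLeft (nat_lit 0x5) (nat_lit 136)) (.one (nat_lit 0x400000600700900a00cc00e093014018611)) (.one (nat_lit 0x500000100700900a00c200e0b3414018611)))))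
def t147 : k147.all (jb2 57 fl b0) = true := by decide +kernel
noncomputable def k148 : KT := (.br (Nat.shiftLeft (nat_lit 0x1400001) (nat_lit 114)) (.br (Nat.shiftLeft (nat_lit 0x5000003) (nat_lit 112)) (.one (nat_lit 0x500000200700900a00c400e0b3414018611)) (.one (nat_lit 0x500000300700900a00c600e0b3414018611))) (.br (Nat.shiftLeft (nat_lit 0x5000005) (nat_lit 112)) (.one (nat_lit 0x500000400700900a00c800e0b3414018611)) (.br (Nat.shiftLeft (nat_lit 0x2800003) (nat_lit 113)) (.one (nat_lit 0x500000500700900a00ca00e0b3414018611)) (.one (nat_lit 0x500000600700900a00cc00e0b3414018611)))))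
def t148 : k148.all (jb2 57 fl b0) = true := by decide +kernel
noncomputable def k149 : KT := (.br (Nat.shiftLeft (nat_lit 0x3000001) (nat_lit 113)) (.one (nat_lit 0x600000100700900a00c200e0d3814018611)) (.one (nat_lit 0x600000200700900a00c400e0d3814018611)))
def t149 : k149.all (jb2 57 fl b0) = true := by decide +kernel
noncomputable def k150 : KT := (.br (Nat.shiftLeft (nat_lit 0x6000005) (nat_lit 112)) (.br (Nat.shiftLeft (nat_lit 0x1800001) (nat_lit 114)) (.one (nat_lit 0x600000300700900a00c600e0d3814018611)) (.one (nat_lit 0x600000400700900a00c800e0d3814018611))) (.br (Nat.shiftLeft (nat_lit 0x3000003) (nat_lit 113)) (.one (nat_lit 0x600000500700900a00ca00e0d3814018611)) (.one (nat_lit 0x600000600700900a00cc00e0d3814018611))))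
def t150 : k150.all (jb2 57 fl b0) = true := by decide +kernel
noncomputable def k151 : KT := (.br (Nat.shiftLeft (nat_lit 0x3800001) (nat_lit 113)) (.one (nat_lit 0x700000100700900a00c200e0f3c14018611)) (.one (nat_lit 0x700000200700900a00c400e0f3c14018611)))
def t151 : k151.all (jb2 57 fl b0) = true := by decide +kernel
noncomputable def k152 : KT := (.br (Nat.shiftLeft (nat_lit 0x7000005) (nat_lit 112)) (.br (Nat.shiftLeft (nat_lit 0x1c00001) (nat_lit 114)) (.one (nat_lit 0x700000300700900a00c600e0f3c14018611)) (.one (nat_lit 0x700000400700900a00c800e0f3c14018611))) (.br (Nat.shiftLeft (nat_lit 0x3800003) (nat_lit 113)) (.one (nat_lit 0x700000500700900a00ca00e0f3c14018611)) (.br (Nat.shiftLeft (nat_lit 0x1) (nat_lit 139)) (.one (nat_lit 0x700000600700900a00cc00e0f3c14018611)) (.one (nat_lit 0x800000100700900a00c200e114014018611)))))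
def t152 : k152.all (jb2 57 fl b0) = true := by decide +kernel
noncomputable def k153 : KT := (.br (Nat.shiftLeft (nat_lit 0x8000005) (nat_lit 112)) (.br (Nat.shiftLeft (nat_lit 0x8000003) (nat_lit 112)) (.one (nat_lit 0x800000200700900a00c400e114014018611)) (.br (Nat.shiftLeft (nat_lit 0x2000001) (nat_lit 114)) (.one (nat_lit 0x800000300700900a00c600e114014018611)) (.one (nat_lit 0x800000400700900a00c800e114014018611)))) (.br (Nat.shiftLeft (nat_lit 0x4000003) (nat_lit 113)) (.one (nat_lit 0x800000500700900a00ca00e114014018611)) (.br (Nat.shiftLeft (nat_lit 0x9) (nat_lit 136)) (.one (nat_lit 0x800000600700900a00cc00e114014018611)) (.one (nat_lit 0x900000100700900a00c200e134414018611)))))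
def t153 : k153.all (jb2 57 fl b0) = true := by decide +kernel
noncomputable def k154 : KT := (.br (Nat.shiftLeft (nat_lit 0x5000003) (nat_lit 113)) (.br (Nat.shiftLeft (nat_lit 0x5) (nat_lit 137)) (.br (Nat.shiftLeft (nat_lit 0x2400001) (nat_lit 114)) (.br (Nat.shiftLeft (nat_lit 0x9000003) (nat_lit 112)) (.one (nat_lit 0x900000200700900a00c400e134414018611)) (.one (nat_lit 0x900000300700900a00c600e134414018611))) (.br (Nat.shiftLeft (nat_lit 0x9000005) (nat_lit 112)) (.one (nat_lit 0x900000400700900a00c800e134414018611)) (.br (Nat.shiftLeft (nat_lit 0x4800003) (nat_lit 113)) (.one (nat_lit 0x900000500700900a00ca00e134414018611)) (.one (nat_lit 0x900000600700900a00cc00e134414018611))))) (.br (Nat.shiftLeft (nat_lit 0xa000003) (nat_lit 112)) (.br (Nat.shiftLeft (nat_lit 0x5000001) (nat_lit 113)) (.one (nat_lit 0xa00000100700900a00c200e154814018611)) (.one (nat_lit 0xa00000200700900a00c400e154814018611))) (.br (Nat.shiftLeft (nat_lit 0x2800001) (nat_lit 114)) (.one (nat_lit 0xa00000300700900a00c600e154814018611))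 (.br (Nat.shiftLeft (nat_lit 0xa000005) (nat_lit 112)) (.one (nat_lit 0xa00000400700900a00c800e154814018611)) (.one (nat_lit 0xa00000500700900a00ca00e154814018611)))))) (.br (Nat.shiftLeft (nat_lit 0x2000001003) (nat_lit 112)) (.br (Nat.shiftLeft (nat_lit 0x1000001003) (nat_lit 112)) (.br (Nat.shiftLeft (nat_lit 0x1) (nat_lit 148)) (.one (nat_lit 0xa00000600700900a00cc00e154814018611)) (.one (nat_lit 0x100000100200700900a00c402e412034418711))) (.br (Nat.shiftLeft (nat_lit 0x800001) (nat_lit 125)) (.one (nat_lit 0x100000100300700900a00c602e412034418711)) (.br (Nat.shiftLeft (nat_lit 0x1) (nat_lit 149)) (.one (nat_lit 0x100000200300700900a00c602e412054818711)) (.one (nat_lit 0x200000100200700900a00c404e812034418711))))) (.br (Nat.shiftLeft (nat_lit 0x3000001003) (nat_lit 112)) (.br (Nat.shiftLeft (nat_lit 0x1000001) (nat_lit 125)) (.one (nat_lit 0x200000100300700900a00c604e812034418711)) (.br (Nat.shiftLeft (nat_lit 0x3) (nat_lit 148)) (.one (nat_lit 0x200000200300700900a00c604e812054818711)) (.one (nat_lit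 0x300000100200700900a00c406ec12034418711)))) (.br (Nat.shiftLeft (nat_lit 0x1800001) (nat_lit 125)) (.one (nat_lit 0x300000100300700900a00c606ec12034418711)) (.br (Nat.shiftLeft (nat_lit 0x1) (nat_lit 150)) (.one (nat_lit 0x300000200300700900a00c606ec12054818711)) (.one (nat_lit 0x400000100200700900a00c408f012034418711)))))))
def t154 : k154.all (jb2 57 fl b0) = true := by decide +kernel
noncomputable def k155 : KT := (.br (Nat.shiftLeft (nat_lit 0x5) (nat_lit 148)) (.br (Nat.shiftLeft (nat_lit 0x2000001) (nat_lit 125)) (.one (nat_lit 0x400000100300700900a00c608f012034418711)) (.one (nat_lit 0x400000200300700900a00c608f012054818711))) (.br (Nat.shiftLeft (nat_lit 0x5000001003) (nat_lit 112)) (.one (nat_lit 0x500000100200700900a00c40af412034418711)) (.br (Nat.shiftLeft (nat_lit 0x2800001) (nat_lit 125)) (.one (nat_lit 0x500000100300700900a00c60af412034418711)) (.one (nat_lit 0x500000200300700900a00c60af412054818711)))))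
def t155 : k155.all (jb2 57 fl b0) = true := by decide +kernel
noncomputable def k156 : KT := (.br (Nat.shiftLeft (nat_lit 0x3000001) (nat_lit 125)) (.br (Nat.shiftLeft (nat_lit 0x6000001003) (nat_lit 112)) (.one (nat_lit 0x600000100200700900a00c40cf812034418711)) (.one (nat_lit 0x600000100300700900a00c60cf812034418711))) (.br (Nat.shiftLeft (nat_lit 0x7) (nat_lit 148)) (.one (nat_lit 0x600000200300700900a00c60cf812054818711)) (.one (nat_lit 0x700000100200700900a00c40efc12034418711))))
def t156 : k156.all (jb2 57 fl b0) = true := by decide +kernel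
noncomputable def k157 : KT := (.br (Nat.shiftLeft (nat_lit 0x9) (nat_lit 148)) (.br (Nat.shiftLeft (nat_lit 0x1) (nat_lit 151)) (.br (Nat.shiftLeft (nat_lit 0x3800001) (nat_lit 125)) (.one (nat_lit 0x700000100300700900a00c60efc12034418711)) (.one (nat_lit 0x700000200300700900a00c60efc12054818711))) (.br (Nat.shiftLeft (nat_lit 0x8000001003) (nat_lit 112)) (.one (nat_lit 0x800000100200700900a00c4110012034418711)) (.br (Nat.shiftLeft (nat_lit 0x4000001) (nat_lit 125)) (.one (nat_lit 0x800000100300700900a00c6110012034418711)) (.one (nat_lit 0x800000200300700900a00c6110012054818711))))) (.br (Nat.shiftLeft (nat_lit 0x5) (nat_lit 149)) (.br (Nat.shiftLeft (nat_lit 0x9000001003) (nat_lit 112)) (.one (nat_lit 0x900000100200700900a00c4130412034418711)) (.br (Nat.shiftLeft (nat_lit 0x4800001) (nat_lit 125)) (.one (nat_lit 0x900000100300700900a00c6130412034418711)) (.one (nat_lit 0x900000200300700900a00c6130412054818711)))) (.br (Nat.shiftLeft (nat_lit 0xa000001003) (nat_lit 112)) (.one (nat_lit 0xa00000100200700900a00c4150812034418711))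 (.br (Nat.shiftLeft (nat_lit 0x5000001) (nat_lit 125)) (.one (nat_lit 0xa00000100300700900a00c6150812034418711)) (.one (nat_lit 0xa00000200300700900a00c6150812054818711))))))
def t157 : k157.all (jb2 57 fl b0) = true := by decide +kernel
noncomputable def s7 : KT := (.br (nat_lit 0x900000700900a00c000e012136418511) (.br (nat_lit 0x300000700900a00c000e012074c18511) (.br (nat_lit 0x200300700900a00c600e012054819700) (.br (nat_lit 0x100400700900a00c800e012034418760) k135 k136) (.br (nat_lit 0x200400700900a00c800e012054818760) k137 (.br (nat_lit 0x200500700900a00ca00e012054818760) k138 k139))) (.br (nat_lit 0x400000700900a00c000e012095018511) (.br (nat_lit 0x300400700900a00c800e012074c18760) k140 (.br (nat_lit 0x300500700900a00ca00e012074c18760) k141 k142)) (.br (nat_lit 0x400600700900a00cc00e012095018760) k143 (.br (nat_lit 0x600000700900a00c000e0120d5818511) k144 k145)))) (.br (nat_lit 0x700000200700900a00c400e0f3c14018611) (.br (nat_lit 0x500000600700900a00cc00e0b3414018611) (.br (nat_lit 0x400000100700900a00c200e093014018611)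 k146 (.br (nat_lit 0x500000100700900a00c200e0b3414018611) k147 k148)) (.br (nat_lit 0x600000200700900a00c400e0d3814018611) k149 (.br (nat_lit 0x600000600700900a00cc00e0d3814018611) k150 k151))) (.br (nat_lit 0x400000100200700900a00c408f012034418711) (.br (nat_lit 0x800000100700900a00c200e114014018611) k152 (.br (nat_lit 0x900000100700900a00c200e134414018611) k153 k154)) (.br (nat_lit 0x500000200300700900a00c60af412054818711) k155 (.br (nat_lit 0x700000100200700900a00c40efc12034418711) k156 k157)))))
noncomputable def u7 : KT := (.one (nat_lit 0x700900a00c000e012014018540))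
def w7 : u7.all (wj 57 s7) = true := by decide +kernel
def o7 : OkW 57 (jb2 57 fl) u7 := .lift s7 _ (.br _ _ _ (.br _ _ _ (.br _ _ _ (.br _ _ _ (.leaf b0 k135 t135) (.leaf b0 k136 t136)) (.br _ _ _ (.leaf b0 k137 t137) (.br _ _ _ (.leaf b0 k138 t138) (.leaf b0 k139 t139)))) (.br _ _ _ (.br _ _ _ (.leaf b0 k140 t140) (.br _ _ _ (.leaf b0 k141 t141) (.leaf b0 k142 t142))) (.br _ _ _ (.leaf b0 k143 t143) (.br _ _ _ (.leaf b0 k144 t144) (.leaf b0 k145 t145))))) (.br _ _ _ (.br _ _ _ (.br _ _ _ (.leaf b0 k146 t146) (.br _ _ _ (.leaf b0 k147 t147) (.leaf b0 k148 t148))) (.br _ _ _ (.leaf b0 k149 t149) (.br _ _ _ (.leaf b0 k150 t150) (.leaf b0 k151 t151)))) (.br _ _ _ (.br _ _ _ (.leaf b0 k152 t152) (.br _ _ _ (.leaf b0 k153 t153) (.leaf b0 k154 t154))) (.br _ _ _ (.leaf b0 k155 t155) (.br _ _ _ (.leaf b0 k156 t156) (.leaf b0 k157 t157)))))) w7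
noncomputable def k158 : KT := (.br (Nat.shiftLeft (nat_lit 0x1) (nat_lit 114)) (.br (Nat.shiftLeft (nat_lit 0x1) (nat_lit 113)) (.br (Nat.shiftLeft (nat_lit 0x1) (nat_lit 112)) (.one (nat_lit 0x700900a00d000e01201401b500)) (.one (nat_lit 0x100700900a00d200e01201401b600))) (.br (Nat.shiftLeft (nat_lit 0x3) (nat_lit 112)) (.one (nat_lit 0x200700900a00d400e01201401b600)) (.one (nat_lit 0x300700900a00d600e01201401b600)))) (.br (Nat.shiftLeft (nat_lit 0x3) (nat_lit 113)) (.br (Nat.shiftLeft (nat_lit 0x5) (nat_lit 112)) (.one (nat_lit 0x400700900a00d800e01201401b600)) (.one (nat_lit 0x500700900a00da00e01201401b600))) (.br (Nat.shiftLeft (nat_lit 0x1) (nat_lit 124)) (.one (nat_lit 0x600700900a00dc00e01201401b600)) (.br (Nat.shiftLeft (nat_lit 0x801) (nat_lit 113)) (.one (nat_lit 0x100000700900a00d000e01203441a511)) (.one (nat_lit 0x100200700900a00d400e01203441a760))))))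
def t158 : k158.all (jb2 57 fl b0) = true := by decide +kernel
noncomputable def k159 : KT := (.one (nat_lit 0x100300700900a00d600e01203441a760))
def t159 : k159.all (jb2 57 fl b0) = true := by decide +kernel
noncomputable def k160 : KT := (.br (Nat.shiftLeft (nat_lit 0x1005) (nat_lit 112)) (.one (nat_lit 0x100400700900a00d800e01203441a760)) (.one (nat_lit 0x100500700900a00da00e01203441a760)))
def t160 : k160.all (jb2 57 fl b0) = true := by decide +kernel
noncomputable def k161 : KT := (.br (Nat.shiftLeft (nat_lit 0x1) (nat_lit 125)) (.one (nat_lit 0x100600700900a00dc00e01203441a760)) (.one (nat_lit 0x200000700900a00d000e01205481a511)))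
def t161 : k161.all (jb2 57 fl b0) = true := by decide +kernel
noncomputable def k162 : KT := (.one (nat_lit 0x200300700900a00d600e01205481a760))
def t162 : k162.all (jb2 57 fl b0) = true := by decide +kernel
noncomputable def k163 : KT := (.one (nat_lit 0x200400700900a00d800e01205481a760))
def t163 : k163.all (jb2 57 fl b0) = true := by decide +kernel
noncomputable def k164 : KT := (.br (Nat.shiftLeft (nat_lit 0x1003) (nat_lit 113)) (.one (nat_lit 0x200500700900a00da00e01205481a760)) (.br (Nat.shiftLeft (nat_lit 0x3) (nat_lit 124)) (.one (nat_lit 0x200600700900a00dc00e01205481a760)) (.one (nat_lit 0x300000700900a00d000e012074c1a511))))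
def t164 : k164.all (jb2 57 fl b0) = true := by decide +kernel
noncomputable def k165 : KT := (.one (nat_lit 0x300400700900a00d800e012074c1a760))
def t165 : k165.all (jb2 57 fl b0) = true := by decide +kernel
noncomputable def k166 : KT := (.br (Nat.shiftLeft (nat_lit 0x1803) (nat_lit 113)) (.one (nat_lit 0x300500700900a00da00e012074c1a760)) (.br (Nat.shiftLeft (nat_lit 0x1) (nat_lit 126)) (.one (nat_lit 0x300600700900a00dc00e012074c1a760)) (.one (nat_lit 0x400000700900a00d000e01209501a511))))
def t166 : k166.all (jb2 57 fl b0) = true := by decide +kernel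
noncomputable def k167 : KT := (.br (Nat.shiftLeft (nat_lit 0x5) (nat_lit 124)) (.br (Nat.shiftLeft (nat_lit 0x2003) (nat_lit 113)) (.one (nat_lit 0x400500700900a00da00e01209501a760)) (.one (nat_lit 0x400600700900a00dc00e01209501a760))) (.br (Nat.shiftLeft (nat_lit 0x1401) (nat_lit 114)) (.one (nat_lit 0x500000700900a00d000e0120b541a511)) (.one (nat_lit 0x500600700900a00dc00e0120b541a760))))
def t167 : k167.all (jb2 57 fl b0) = true := by decide +kernel
noncomputable def k168 : KT := (.br (Nat.shiftLeft (nat_lit 0x7) (nat_lit 124)) (.one (nat_lit 0x600000700900a00d000e0120d581a511)) (.br (Nat.shiftLeft (nat_lit 0x1) (nat_lit 127)) (.one (nat_lit 0x700000700900a00d000e0120f5c1a511)) (.one (nat_lit 0x800000700900a00d000e01211601a511))))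
def t168 : k168.all (jb2 57 fl b0) = true := by decide +kernel
noncomputable def k169 : KT := (.br (Nat.shiftLeft (nat_lit 0x2000005) (nat_lit 112)) (.br (Nat.shiftLeft (nat_lit 0x1000005) (nat_lit 112)) (.br (Nat.shiftLeft (nat_lit 0x800001) (nat_lit 113)) (.br (Nat.shiftLeft (nat_lit 0x5) (nat_lit 125)) (.one (nat_lit 0x900000700900a00d000e01213641a511)) (.br (Nat.shiftLeft (nat_lit 0x1) (nat_lit 136)) (.one (nat_lit 0xa00000700900a00d000e01215681a511)) (.one (nat_lit 0x100000100700900a00d200e03241401a611)))) (.br (Nat.shiftLeft (nat_lit 0x1000003) (nat_lit 112)) (.one (nat_lit 0x100000200700900a00d400e03241401a611)) (.br (Nat.shiftLeft (nat_lit 0x400001) (nat_lit 114)) (.one (nat_lit 0x100000300700900a00d600e03241401a611)) (.one (nat_lit 0x100000400700900a00d800e03241401a611))))) (.br (Nat.shiftLeft (nat_lit 0x1000001) (nat_lit 113)) (.br (Nat.shiftLeft (nat_lit 0x800003) (nat_lit 113)) (.one (nat_lit 0x100000500700900a00da00e03241401a611)) (.br (Nat.shiftLeft (nat_lit 0x1) (nat_lit 137)) (.one (nat_lit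 0x100000600700900a00dc00e03241401a611)) (.one (nat_lit 0x200000100700900a00d200e05281401a611)))) (.br (Nat.shiftLeft (nat_lit 0x2000003) (nat_lit 112)) (.one (nat_lit 0x200000200700900a00d400e05281401a611)) (.br (Nat.shiftLeft (nat_lit 0x800001) (nat_lit 114)) (.one (nat_lit 0x200000300700900a00d600e05281401a611)) (.one (nat_lit 0x200000400700900a00d800e05281401a611)))))) (.br (Nat.shiftLeft (nat_lit 0x3000005) (nat_lit 112)) (.br (Nat.shiftLeft (nat_lit 0x1800001) (nat_lit 113)) (.br (Nat.shiftLeft (nat_lit 0x1000003) (nat_lit 113)) (.one (nat_lit 0x200000500700900a00da00e05281401a611)) (.br (Nat.shiftLeft (nat_lit 0x3) (nat_lit 136)) (.one (nat_lit 0x200000600700900a00dc00e05281401a611)) (.one (nat_lit 0x300000100700900a00d200e072c1401a611)))) (.br (Nat.shiftLeft (nat_lit 0x3000003) (nat_lit 112)) (.one (nat_lit 0x300000200700900a00d400e072c1401a611)) (.br (Nat.shiftLeft (nat_lit 0xc00001) (nat_lit 114)) (.one (nat_lit 0x300000300700900a00d600e072c1401a611)) (.one (nat_lit 0x300000400700900a00d800e072c1401a611)))))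 (.br (Nat.shiftLeft (nat_lit 0x2000001) (nat_lit 113)) (.br (Nat.shiftLeft (nat_lit 0x1800003) (nat_lit 113)) (.one (nat_lit 0x300000500700900a00da00e072c1401a611)) (.br (Nat.shiftLeft (nat_lit 0x1) (nat_lit 138)) (.one (nat_lit 0x300000600700900a00dc00e072c1401a611)) (.one (nat_lit 0x400000100700900a00d200e09301401a611)))) (.br (Nat.shiftLeft (nat_lit 0x1000001) (nat_lit 114)) (.br (Nat.shiftLeft (nat_lit 0x4000003) (nat_lit 112)) (.one (nat_lit 0x400000200700900a00d400e09301401a611)) (.one (nat_lit 0x400000300700900a00d600e09301401a611))) (.br (Nat.shiftLeft (nat_lit 0x4000005) (nat_lit 112)) (.one (nat_lit 0x400000400700900a00d800e09301401a611)) (.one (nat_lit 0x400000500700900a00da00e09301401a611)))))))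
def t169 : k169.all (jb2 57 fl b0) = true := by decide +kernel
noncomputable def k170 : KT := (.br (Nat.shiftLeft (nat_lit 0x5000003) (nat_lit 112)) (.br (Nat.shiftLeft (nat_lit 0x5) (nat_lit 136)) (.one (nat_lit 0x400000600700900a00dc00e09301401a611)) (.br (Nat.shiftLeft (nat_lit 0x2800001) (nat_lit 113)) (.one (nat_lit 0x500000100700900a00d200e0b341401a611)) (.one (nat_lit 0x500000200700900a00d400e0b341401a611)))) (.br (Nat.shiftLeft (nat_lit 0x1400001) (nat_lit 114)) (.one (nat_lit 0x500000300700900a00d600e0b341401a611)) (.br (Nat.shiftLeft (nat_lit 0x5000005) (nat_lit 112)) (.one (nat_lit 0x500000400700900a00d800e0b341401a611)) (.one (nat_lit 0x500000500700900a00da00e0b341401a611)))))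
def t170 : k170.all (jb2 57 fl b0) = true := by decide +kernel
noncomputable def k171 : KT := (.br (Nat.shiftLeft (nat_lit 0x3000001) (nat_lit 113)) (.br (Nat.shiftLeft (nat_lit 0x3) (nat_lit 137)) (.one (nat_lit 0x500000600700900a00dc00e0b341401a611)) (.one (nat_lit 0x600000100700900a00d200e0d381401a611))) (.br (Nat.shiftLeft (nat_lit 0x6000003) (nat_lit 112)) (.one (nat_lit 0x600000200700900a00d400e0d381401a611)) (.one (nat_lit 0x600000300700900a00d600e0d381401a611))))
def t171 : k171.all (jb2 57 fl b0) = true := by decide +kernel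
noncomputable def k172 : KT := (.br (Nat.shiftLeft (nat_lit 0x3000003) (nat_lit 113)) (.br (Nat.shiftLeft (nat_lit 0x6000005) (nat_lit 112)) (.one (nat_lit 0x600000400700900a00d800e0d381401a611)) (.one (nat_lit 0x600000500700900a00da00e0d381401a611))) (.br (Nat.shiftLeft (nat_lit 0x7) (nat_lit 136)) (.one (nat_lit 0x600000600700900a00dc00e0d381401a611)) (.br (Nat.shiftLeft (nat_lit 0x3800001) (nat_lit 113)) (.one (nat_lit 0x700000100700900a00d200e0f3c1401a611)) (.one (nat_lit 0x700000200700900a00d400e0f3c1401a611)))))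
def t172 : k172.all (jb2 57 fl b0) = true := by decide +kernel
noncomputable def k173 : KT := (.br (Nat.shiftLeft (nat_lit 0x1) (nat_lit 139)) (.br (Nat.shiftLeft (nat_lit 0x7000005) (nat_lit 112)) (.br (Nat.shiftLeft (nat_lit 0x1c00001) (nat_lit 114)) (.one (nat_lit 0x700000300700900a00d600e0f3c1401a611)) (.one (nat_lit 0x700000400700900a00d800e0f3c1401a611))) (.br (Nat.shiftLeft (nat_lit 0x3800003) (nat_lit 113)) (.one (nat_lit 0x700000500700900a00da00e0f3c1401a611)) (.one (nat_lit 0x700000600700900a00dc00e0f3c1401a611)))) (.br (Nat.shiftLeft (nat_lit 0x8000003) (nat_lit 112)) (.br (Nat.shiftLeft (nat_lit 0x4000001) (nat_lit 113)) (.one (nat_lit 0x800000100700900a00d200e11401401a611)) (.one (nat_lit 0x800000200700900a00d400e11401401a611))) (.br (Nat.shiftLeft (nat_lit 0x2000001) (nat_lit 114)) (.one (nat_lit 0x800000300700900a00d600e11401401a611)) (.one (nat_lit 0x800000400700900a00d800e11401401a611)))))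
def t173 : k173.all (jb2 57 fl b0) = true := by decide +kernel
noncomputable def k174 : KT := (.br (Nat.shiftLeft (nat_lit 0x4800003) (nat_lit 113)) (.br (Nat.shiftLeft (nat_lit 0x4800001) (nat_lit 113)) (.br (Nat.shiftLeft (nat_lit 0x4000003) (nat_lit 113)) (.one (nat_lit 0x800000500700900a00da00e11401401a611)) (.br (Nat.shiftLeft (nat_lit 0x9) (nat_lit 136)) (.one (nat_lit 0x800000600700900a00dc00e11401401a611)) (.one (nat_lit 0x900000100700900a00d200e13441401a611)))) (.br (Nat.shiftLeft (nat_lit 0x2400001) (nat_lit 114)) (.br (Nat.shiftLeft (nat_lit 0x9000003) (nat_lit 112)) (.one (nat_lit 0x900000200700900a00d400e13441401a611)) (.one (nat_lit 0x900000300700900a00d600e13441401a611))) (.br (Nat.shiftLeft (nat_lit 0x9000005) (nat_lit 112)) (.one (nat_lit 0x900000400700900a00d800e13441401a611)) (.one (nat_lit 0x900000500700900a00da00e13441401a611))))) (.br (Nat.shiftLeft (nat_lit 0xa000003) (nat_lit 112)) (.br (Nat.shiftLeft (nat_lit 0x5) (nat_lit 137)) (.one (nat_lit 0x900000600700900a00dc00e13441401a611))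 (.br (Nat.shiftLeft (nat_lit 0x5000001) (nat_lit 113)) (.one (nat_lit 0xa00000100700900a00d200e15481401a611)) (.one (nat_lit 0xa00000200700900a00d400e15481401a611)))) (.br (Nat.shiftLeft (nat_lit 0xa000005) (nat_lit 112)) (.br (Nat.shiftLeft (nat_lit 0x2800001) (nat_lit 114)) (.one (nat_lit 0xa00000300700900a00d600e15481401a611)) (.one (nat_lit 0xa00000400700900a00d800e15481401a611))) (.br (Nat.shiftLeft (nat_lit 0x5000003) (nat_lit 113)) (.one (nat_lit 0xa00000500700900a00da00e15481401a611)) (.one (nat_lit 0xa00000600700900a00dc00e15481401a611))))))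
def t174 : k174.all (jb2 57 fl b0) = true := by decide +kernel
noncomputable def s8 : KT := (.br (nat_lit 0x300400700900a00d800e012074c1a760) (.br (nat_lit 0x200000700900a00d000e01205481a511) (.br (nat_lit 0x100300700900a00d600e01203441a760) (.br (nat_lit 0x100200700900a00d400e01203441a760) k158 k159) (.br (nat_lit 0x100500700900a00da00e01203441a760) k160 k161)) (.br (nat_lit 0x200400700900a00d800e01205481a760) (.br (nat_lit 0x200300700900a00d600e01205481a760) k162 k163) (.br (nat_lit 0x300000700900a00d000e012074c1a511) k164 k165))) (.br (nat_lit 0x400000500700900a00da00e09301401a611) (.br (nat_lit 0x500600700900a00dc00e0120b541a760) (.br (nat_lit 0x400000700900a00d000e01209501a511) k166 k167) (.br (nat_lit 0x800000700900a00d000e01211601a511) k168 k169)) (.br (nat_lit 0x600000300700900a00d600e0d381401a611) (.br (nat_lit 0x500000500700900a00da00e0b341401a611) k170 k171) (.br (nat_lit 0x700000200700900a00d400e0f3c1401a611) k172 (.br (nat_lit 0x800000400700900a00d800e11401401a611) k173 k174)))))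
noncomputable def u8 : KT := (.one (nat_lit 0x700900a00d000e01201401a540))
def w8 : u8.all (wj 57 s8) = true := by decide +kernel
def o8 : OkW 57 (jb2 57 fl) u8 := .lift s8 _ (.br _ _ _ (.br _ _ _ (.br _ _ _ (.br _ _ _ (.leaf b0 k158 t158) (.leaf b0 k159 t159)) (.br _ _ _ (.leaf b0 k160 t160) (.leaf b0 k161 t161))) (.br _ _ _ (.br _ _ _ (.leaf b0 k162 t162) (.leaf b0 k163 t163)) (.br _ _ _ (.leaf b0 k164 t164) (.leaf b0 k165 t165)))) (.br _ _ _ (.br _ _ _ (.br _ _ _ (.leaf b0 k166 t166) (.leaf b0 k167 t167)) (.br _ _ _ (.leaf b0 k168 t168) (.leaf b0 k169 t169))) (.br _ _ _ (.br _ _ _ (.leaf b0 k170 t170) (.leaf b0 k171 t171)) (.br _ _ _ (.leaf b0 k172 t172) (.br _ _ _ (.leaf b0 k173 t173) (.leaf b0 k174 t174)))))) w8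
noncomputable def k175 : KT := (.br (Nat.shiftLeft (nat_lit 0x200700900a00f) (nat_lit 64)) (.br (Nat.shiftLeft (nat_lit 0x1) (nat_lit 112)) (.br (Nat.shiftLeft (nat_lit 0x700900a00f) (nat_lit 64)) (.one (nat_lit 0x700900a00e000e01201401d500)) (.one (nat_lit 0x700900a00f000e01201401f500))) (.br (Nat.shiftLeft (nat_lit 0x100700900a00f) (nat_lit 64)) (.one (nat_lit 0x100700900a00e200e01201401d600)) (.br (Nat.shiftLeft (nat_lit 0x1) (nat_lit 113)) (.one (nat_lit 0x100700900a00f200e01201401e650)) (.one (nat_lit 0x200700900a00e400e01201401d600))))) (.br (Nat.shiftLeft (nat_lit 0x1) (nat_lit 114)) (.br (Nat.shiftLeft (nat_lit 0x3) (nat_lit 112)) (.one (nat_lit 0x200700900a00f400e01201401f600)) (.br (Nat.shiftLeft (nat_lit 0x300700900a00f) (nat_lit 64)) (.one (nat_lit 0x300700900a00e600e01201401d600)) (.one (nat_lit 0x300700900a00f600e01201401f600)))) (.br (Nat.shiftLeft (nat_lit 0x400700900a00f) (nat_lit 64)) (.one (nat_lit 0x400700900a00e800e01201401d600)) (.br (Nat.shiftLeft (nat_lit 0x5) (nat_lit 112)) (.one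 (nat_lit 0x400700900a00f800e01201401f600)) (.one (nat_lit 0x500700900a00ea00e01201401d600))))))
def t175 : k175.all (jb2 57 fl b0) = true := by decide +kernel
noncomputable def k176 : KT := (.br (Nat.shiftLeft (nat_lit 0x3) (nat_lit 113)) (.one (nat_lit 0x500700900a00fa00e01201401e650)) (.one (nat_lit 0x600700900a00ec00e01201401d600)))
def t176 : k176.all (jb2 57 fl b0) = true := by decide +kernel
noncomputable def k177 : KT := (.br (Nat.shiftLeft (nat_lit 0x1) (nat_lit 124)) (.one (nat_lit 0x600700900a00fc00e01201401e650)) (.br (Nat.shiftLeft (nat_lit 0x100000700900a00f) (nat_lit 64)) (.one (nat_lit 0x100000700900a00e000e01203441c511)) (.one (nat_lit 0x100000700900a00f000e01203441e511))))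
def t177 : k177.all (jb2 57 fl b0) = true := by decide +kernel
noncomputable def k178 : KT := (.one (nat_lit 0x100200700900a00e400e01203441c760))
def t178 : k178.all (jb2 57 fl b0) = true := by decide +kernel
noncomputable def k179 : KT := (.br (Nat.shiftLeft (nat_lit 0x1003) (nat_lit 112)) (.one (nat_lit 0x100200700900a00f400e01203441e760)) (.one (nat_lit 0x100300700900a00e600e01203441c760)))
def t179 : k179.all (jb2 57 fl b0) = true := by decide +kernel
noncomputable def k180 : KT := (.br (Nat.shiftLeft (nat_lit 0x401) (nat_lit 114)) (.one (nat_lit 0x100300700900a00f600e01203441e760)) (.br (Nat.shiftLeft (nat_lit 0x100400700900a00f) (nat_lit 64)) (.one (nat_lit 0x100400700900a00e800e01203441c760)) (.one (nat_lit 0x100400700900a00f800e01203441e760))))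
def t180 : k180.all (jb2 57 fl b0) = true := by decide +kernel
noncomputable def k181 : KT := (.br (Nat.shiftLeft (nat_lit 0x1) (nat_lit 125)) (.br (Nat.shiftLeft (nat_lit 0x803) (nat_lit 113)) (.one (nat_lit 0x100500700900a00ea00e01203441c760)) (.one (nat_lit 0x100600700900a00ec00e01203441c760))) (.br (Nat.shiftLeft (nat_lit 0x200000700900a00f) (nat_lit 64)) (.one (nat_lit 0x200000700900a00e000e01205481c511)) (.br (Nat.shiftLeft (nat_lit 0x1001) (nat_lit 113)) (.one (nat_lit 0x200000700900a00f000e01205481e511)) (.one (nat_lit 0x200300700900a00e600e01205481c760)))))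
def t181 : k181.all (jb2 57 fl b0) = true := by decide +kernel
noncomputable def k182 : KT := (.br (Nat.shiftLeft (nat_lit 0x801) (nat_lit 114)) (.one (nat_lit 0x200300700900a00f600e01205481e760)) (.one (nat_lit 0x200400700900a00e800e01205481c760)))
def t182 : k182.all (jb2 57 fl b0) = true := by decide +kernel
noncomputable def k183 : KT := (.br (Nat.shiftLeft (nat_lit 0x1003) (nat_lit 113)) (.br (Nat.shiftLeft (nat_lit 0x2005) (nat_lit 112)) (.one (nat_lit 0x200400700900a00f800e01205481e760)) (.one (nat_lit 0x200500700900a00ea00e01205481c760))) (.br (Nat.shiftLeft (nat_lit 0x3) (nat_lit 124)) (.one (nat_lit 0x200600700900a00ec00e01205481c760)) (.br (Nat.shiftLeft (nat_lit 0x300000700900a00f) (nat_lit 64)) (.one (nat_lit 0x300000700900a00e000e012074c1c511)) (.one (nat_lit 0x300000700900a00f000e012074c1e511)))))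
def t183 : k183.all (jb2 57 fl b0) = true := by decide +kernel
noncomputable def k184 : KT := (.br (Nat.shiftLeft (nat_lit 0x300400700900a00f) (nat_lit 64)) (.one (nat_lit 0x300400700900a00e800e012074c1c760)) (.br (Nat.shiftLeft (nat_lit 0x3005) (nat_lit 112)) (.one (nat_lit 0x300400700900a00f800e012074c1e760)) (.one (nat_lit 0x300500700900a00ea00e012074c1c760))))
def t184 : k184.all (jb2 57 fl b0) = true := by decide +kernel
noncomputable def k185 : KT := (.br (Nat.shiftLeft (nat_lit 0x1001) (nat_lit 114)) (.br (Nat.shiftLeft (nat_lit 0x1) (nat_lit 126)) (.one (nat_lit 0x300600700900a00ec00e012074c1c760)) (.br (Nat.shiftLeft (nat_lit 0x400000700900a00f) (nat_lit 64)) (.one (nat_lit 0x400000700900a00e000e01209501c511)) (.one (nat_lit 0x400000700900a00f000e01209501e511)))) (.br (Nat.shiftLeft (nat_lit 0x2003) (nat_lit 113)) (.one (nat_lit 0x400500700900a00ea00e01209501c760)) (.br (Nat.shiftLeft (nat_lit 0x5) (nat_lit 124)) (.one (nat_lit 0x400600700900a00ec00e01209501c760)) (.one (nat_lit 0x500000700900a00e000e0120b541c511)))))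
def t185 : k185.all (jb2 57 fl b0) = true := by decide +kernel
noncomputable def k186 : KT := (.br (Nat.shiftLeft (nat_lit 0x3) (nat_lit 125)) (.br (Nat.shiftLeft (nat_lit 0x1401) (nat_lit 114)) (.one (nat_lit 0x500000700900a00f000e0120b541e511)) (.one (nat_lit 0x500600700900a00ec00e0120b541c760))) (.br (Nat.shiftLeft (nat_lit 0x600000700900a00f) (nat_lit 64)) (.one (nat_lit 0x600000700900a00e000e0120d581c511)) (.br (Nat.shiftLeft (nat_lit 0x7) (nat_lit 124)) (.one (nat_lit 0x600000700900a00f000e0120d581e511)) (.one (nat_lit 0x700000700900a00e000e0120f5c1c511)))))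
def t186 : k186.all (jb2 57 fl b0) = true := by decide +kernel
noncomputable def k187 : KT := (.br (Nat.shiftLeft (nat_lit 0x1000005) (nat_lit 112)) (.br (Nat.shiftLeft (nat_lit 0x1) (nat_lit 136)) (.br (Nat.shiftLeft (nat_lit 0x9) (nat_lit 124)) (.br (Nat.shiftLeft (nat_lit 0x1) (nat_lit 127)) (.one (nat_lit 0x700000700900a00f000e0120f5c1e511)) (.br (Nat.shiftLeft (nat_lit 0x800000700900a00f) (nat_lit 64)) (.one (nat_lit 0x800000700900a00e000e01211601c511)) (.one (nat_lit 0x800000700900a00f000e01211601e511)))) (.br (Nat.shiftLeft (nat_lit 0x5) (nat_lit 125)) (.br (Nat.shiftLeft (nat_lit 0x900000700900a00f) (nat_lit 64)) (.one (nat_lit 0x900000700900a00e000e01213641c511)) (.one (nat_lit 0x900000700900a00f000e01213641e511))) (.br (Nat.shiftLeft (nat_lit 0xa00000700900a00f) (nat_lit 64)) (.one (nat_lit 0xa00000700900a00e000e01215681c511)) (.one (nat_lit 0xa00000700900a00f000e01215681e511))))) (.br (Nat.shiftLeft (nat_lit 0x1000003) (nat_lit 112)) (.br (Nat.shiftLeft (nat_lit 0x800001) (nat_lit 113)) (.one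 (nat_lit 0x100000100700900a00e200e03241401c611)) (.br (Nat.shiftLeft (nat_lit 0x100000200700900a00f) (nat_lit 64)) (.one (nat_lit 0x100000200700900a00e400e03241401c611)) (.one (nat_lit 0x100000200700900a00f400e03241401e611)))) (.br (Nat.shiftLeft (nat_lit 0x400001) (nat_lit 114)) (.br (Nat.shiftLeft (nat_lit 0x100000300700900a00f) (nat_lit 64)) (.one (nat_lit 0x100000300700900a00e600e03241401c611)) (.one (nat_lit 0x100000300700900a00f600e03241401e611))) (.br (Nat.shiftLeft (nat_lit 0x100000400700900a00f) (nat_lit 64)) (.one (nat_lit 0x100000400700900a00e800e03241401c611)) (.one (nat_lit 0x100000400700900a00f800e03241401e611)))))) (.br (Nat.shiftLeft (nat_lit 0x800001) (nat_lit 114)) (.br (Nat.shiftLeft (nat_lit 0x1000001) (nat_lit 113)) (.br (Nat.shiftLeft (nat_lit 0x800003) (nat_lit 113)) (.one (nat_lit 0x100000500700900a00ea00e03241401c611)) (.br (Nat.shiftLeft (nat_lit 0x1) (nat_lit 137)) (.one (nat_lit 0x100000600700900a00ec00e03241401c611)) (.one (nat_lit 0x200000100700900a00e200e05281401c611))))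 (.br (Nat.shiftLeft (nat_lit 0x2000003) (nat_lit 112)) (.br (Nat.shiftLeft (nat_lit 0x200000200700900a00f) (nat_lit 64)) (.one (nat_lit 0x200000200700900a00e400e05281401c611)) (.one (nat_lit 0x200000200700900a00f400e05281401e611))) (.br (Nat.shiftLeft (nat_lit 0x200000300700900a00f) (nat_lit 64)) (.one (nat_lit 0x200000300700900a00e600e05281401c611)) (.one (nat_lit 0x200000300700900a00f600e05281401e611))))) (.br (Nat.shiftLeft (nat_lit 0x3) (nat_lit 136)) (.br (Nat.shiftLeft (nat_lit 0x2000005) (nat_lit 112)) (.br (Nat.shiftLeft (nat_lit 0x200000400700900a00f) (nat_lit 64)) (.one (nat_lit 0x200000400700900a00e800e05281401c611)) (.one (nat_lit 0x200000400700900a00f800e05281401e611))) (.br (Nat.shiftLeft (nat_lit 0x1000003) (nat_lit 113)) (.one (nat_lit 0x200000500700900a00ea00e05281401c611)) (.one (nat_lit 0x200000600700900a00ec00e05281401c611)))) (.br (Nat.shiftLeft (nat_lit 0x300000200700900a00f) (nat_lit 64)) (.br (Nat.shiftLeft (nat_lit 0x1800001) (nat_lit 113)) (.one (nat_lit 0x300000100700900a00e200e072c1401c611))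 (.one (nat_lit 0x300000200700900a00e400e072c1401c611))) (.br (Nat.shiftLeft (nat_lit 0x3000003) (nat_lit 112)) (.one (nat_lit 0x300000200700900a00f400e072c1401e611)) (.one (nat_lit 0x300000300700900a00e600e072c1401c611)))))))
def t187 : k187.all (jb2 57 fl b0) = true := by decide +kernel
noncomputable def k188 : KT := (.br (Nat.shiftLeft (nat_lit 0x400000200700900a00f) (nat_lit 64)) (.br (Nat.shiftLeft (nat_lit 0x3000005) (nat_lit 112)) (.br (Nat.shiftLeft (nat_lit 0xc00001) (nat_lit 114)) (.one (nat_lit 0x300000300700900a00f600e072c1401e611)) (.br (Nat.shiftLeft (nat_lit 0x300000400700900a00f) (nat_lit 64)) (.one (nat_lit 0x300000400700900a00e800e072c1401c611)) (.one (nat_lit 0x300000400700900a00f800e072c1401e611)))) (.br (Nat.shiftLeft (nat_lit 0x1) (nat_lit 138)) (.br (Nat.shiftLeft (nat_lit 0x1800003) (nat_lit 113)) (.one (nat_lit 0x300000500700900a00ea00e072c1401c611)) (.one (nat_lit 0x300000600700900a00ec00e072c1401c611))) (.br (Nat.shiftLeft (nat_lit 0x2000001) (nat_lit 113)) (.one (nat_lit 0x400000100700900a00e200e09301401c611))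 (.one (nat_lit 0x400000200700900a00e400e09301401c611))))) (.br (Nat.shiftLeft (nat_lit 0x400000400700900a00f) (nat_lit 64)) (.br (Nat.shiftLeft (nat_lit 0x400000300700900a00f) (nat_lit 64)) (.br (Nat.shiftLeft (nat_lit 0x4000003) (nat_lit 112)) (.one (nat_lit 0x400000200700900a00f400e09301401e611)) (.one (nat_lit 0x400000300700900a00e600e09301401c611))) (.br (Nat.shiftLeft (nat_lit 0x1000001) (nat_lit 114)) (.one (nat_lit 0x400000300700900a00f600e09301401e611)) (.one (nat_lit 0x400000400700900a00e800e09301401c611)))) (.br (Nat.shiftLeft (nat_lit 0x2000003) (nat_lit 113)) (.br (Nat.shiftLeft (nat_lit 0x4000005) (nat_lit 112)) (.one (nat_lit 0x400000400700900a00f800e09301401e611)) (.one (nat_lit 0x400000500700900a00ea00e09301401c611))) (.br (Nat.shiftLeft (nat_lit 0x5) (nat_lit 136)) (.one (nat_lit 0x400000600700900a00ec00e09301401c611)) (.one (nat_lit 0x500000100700900a00e200e0b341401c611))))))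
def t188 : k188.all (jb2 57 fl b0) = true := by decide +kernel
noncomputable def k189 : KT := (.br (Nat.shiftLeft (nat_lit 0x1400001) (nat_lit 114)) (.br (Nat.shiftLeft (nat_lit 0x5000003) (nat_lit 112)) (.br (Nat.shiftLeft (nat_lit 0x500000200700900a00f) (nat_lit 64)) (.one (nat_lit 0x500000200700900a00e400e0b341401c611)) (.one (nat_lit 0x500000200700900a00f400e0b341401e611))) (.br (Nat.shiftLeft (nat_lit 0x500000300700900a00f) (nat_lit 64)) (.one (nat_lit 0x500000300700900a00e600e0b341401c611)) (.one (nat_lit 0x500000300700900a00f600e0b341401e611)))) (.br (Nat.shiftLeft (nat_lit 0x5000005) (nat_lit 112)) (.br (Nat.shiftLeft (nat_lit 0x500000400700900a00f) (nat_lit 64)) (.one (nat_lit 0x500000400700900a00e800e0b341401c611)) (.one (nat_lit 0x500000400700900a00f800e0b341401e611))) (.br (Nat.shiftLeft (nat_lit 0x2800003) (nat_lit 113)) (.one (nat_lit 0x500000500700900a00ea00e0b341401c611)) (.one (nat_lit 0x500000600700900a00ec00e0b341401c611)))))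
def t189 : k189.all (jb2 57 fl b0) = true := by decide +kernel
noncomputable def k190 : KT := (.br (Nat.shiftLeft (nat_lit 0x6000003) (nat_lit 112)) (.br (Nat.shiftLeft (nat_lit 0x3000001) (nat_lit 113)) (.one (nat_lit 0x600000100700900a00e200e0d381401c611)) (.br (Nat.shiftLeft (nat_lit 0x600000200700900a00f) (nat_lit 64)) (.one (nat_lit 0x600000200700900a00e400e0d381401c611)) (.one (nat_lit 0x600000200700900a00f400e0d381401e611)))) (.br (Nat.shiftLeft (nat_lit 0x1800001) (nat_lit 114)) (.br (Nat.shiftLeft (nat_lit 0x600000300700900a00f) (nat_lit 64)) (.one (nat_lit 0x600000300700900a00e600e0d381401c611)) (.one (nat_lit 0x600000300700900a00f600e0d381401e611))) (.br (Nat.shiftLeft (nat_lit 0x600000400700900a00f) (nat_lit 64)) (.one (nat_lit 0x600000400700900a00e800e0d381401c611)) (.one (nat_lit 0x600000400700900a00f800e0d381401e611)))))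
def t190 : k190.all (jb2 57 fl b0) = true := by decide +kernel
noncomputable def k191 : KT := (.br (Nat.shiftLeft (nat_lit 0x7000003) (nat_lit 112)) (.br (Nat.shiftLeft (nat_lit 0x7) (nat_lit 136)) (.br (Nat.shiftLeft (nat_lit 0x3000003) (nat_lit 113)) (.one (nat_lit 0x600000500700900a00ea00e0d381401c611)) (.one (nat_lit 0x600000600700900a00ec00e0d381401c611))) (.br (Nat.shiftLeft (nat_lit 0x3800001) (nat_lit 113)) (.one (nat_lit 0x700000100700900a00e200e0f3c1401c611)) (.br (Nat.shiftLeft (nat_lit 0x700000200700900a00f) (nat_lit 64)) (.one (nat_lit 0x700000200700900a00e400e0f3c1401c611)) (.one (nat_lit 0x700000200700900a00f400e0f3c1401e611))))) (.br (Nat.shiftLeft (nat_lit 0x700000400700900a00f) (nat_lit 64)) (.br (Nat.shiftLeft (nat_lit 0x700000300700900a00f) (nat_lit 64)) (.one (nat_lit 0x700000300700900a00e600e0f3c1401c611)) (.br (Nat.shiftLeft (nat_lit 0x1c00001) (nat_lit 114)) (.one (nat_lit 0x700000300700900a00f600e0f3c1401e611)) (.one (nat_lit 0x700000400700900a00e800e0f3c1401c611)))) (.br (Nat.shiftLeft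 (nat_lit 0x7000005) (nat_lit 112)) (.one (nat_lit 0x700000400700900a00f800e0f3c1401e611)) (.br (Nat.shiftLeft (nat_lit 0x3800003) (nat_lit 113)) (.one (nat_lit 0x700000500700900a00ea00e0f3c1401c611)) (.one (nat_lit 0x700000600700900a00ec00e0f3c1401c611))))))
def t191 : k191.all (jb2 57 fl b0) = true := by decide +kernel
noncomputable def k192 : KT := (.br (Nat.shiftLeft (nat_lit 0x4800001) (nat_lit 113)) (.br (Nat.shiftLeft (nat_lit 0x2000001) (nat_lit 114)) (.br (Nat.shiftLeft (nat_lit 0x800000200700900a00f) (nat_lit 64)) (.br (Nat.shiftLeft (nat_lit 0x4000001) (nat_lit 113)) (.one (nat_lit 0x800000100700900a00e200e11401401c611)) (.one (nat_lit 0x800000200700900a00e400e11401401c611))) (.br (Nat.shiftLeft (nat_lit 0x8000003) (nat_lit 112)) (.one (nat_lit 0x800000200700900a00f400e11401401e611)) (.br (Nat.shiftLeft (nat_lit 0x800000300700900a00f) (nat_lit 64)) (.one (nat_lit 0x800000300700900a00e600e11401401c611)) (.one (nat_lit 0x800000300700900a00f600e11401401e611))))) (.br (Nat.shiftLeft (nat_lit 0x8000005)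 (nat_lit 112)) (.br (Nat.shiftLeft (nat_lit 0x800000400700900a00f) (nat_lit 64)) (.one (nat_lit 0x800000400700900a00e800e11401401c611)) (.one (nat_lit 0x800000400700900a00f800e11401401e611))) (.br (Nat.shiftLeft (nat_lit 0x4000003) (nat_lit 113)) (.one (nat_lit 0x800000500700900a00ea00e11401401c611)) (.br (Nat.shiftLeft (nat_lit 0x9) (nat_lit 136)) (.one (nat_lit 0x800000600700900a00ec00e11401401c611)) (.one (nat_lit 0x900000100700900a00e200e13441401c611)))))) (.br (Nat.shiftLeft (nat_lit 0x900000400700900a00f) (nat_lit 64)) (.br (Nat.shiftLeft (nat_lit 0x9000003) (nat_lit 112)) (.br (Nat.shiftLeft (nat_lit 0x900000200700900a00f) (nat_lit 64)) (.one (nat_lit 0x900000200700900a00e400e13441401c611)) (.one (nat_lit 0x900000200700900a00f400e13441401e611))) (.br (Nat.shiftLeft (nat_lit 0x900000300700900a00f) (nat_lit 64)) (.one (nat_lit 0x900000300700900a00e600e13441401c611)) (.br (Nat.shiftLeft (nat_lit 0x2400001) (nat_lit 114)) (.one (nat_lit 0x900000300700900a00f600e13441401e611)) (.one (nat_lit 0x900000400700900a00e800e13441401c611)))))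 (.br (Nat.shiftLeft (nat_lit 0x5) (nat_lit 137)) (.br (Nat.shiftLeft (nat_lit 0x9000005) (nat_lit 112)) (.one (nat_lit 0x900000400700900a00f800e13441401e611)) (.br (Nat.shiftLeft (nat_lit 0x4800003) (nat_lit 113)) (.one (nat_lit 0x900000500700900a00ea00e13441401c611)) (.one (nat_lit 0x900000600700900a00ec00e13441401c611)))) (.br (Nat.shiftLeft (nat_lit 0x5000001) (nat_lit 113)) (.one (nat_lit 0xa00000100700900a00e200e15481401c611)) (.br (Nat.shiftLeft (nat_lit 0xa00000200700900a00f) (nat_lit 64)) (.one (nat_lit 0xa00000200700900a00e400e15481401c611)) (.one (nat_lit 0xa00000200700900a00f400e15481401e611)))))))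
def t192 : k192.all (jb2 57 fl b0) = true := by decide +kernel
noncomputable def k193 : KT := (.br (Nat.shiftLeft (nat_lit 0xa00000400700900a00f) (nat_lit 64)) (.br (Nat.shiftLeft (nat_lit 0xa00000300700900a00f) (nat_lit 64)) (.one (nat_lit 0xa00000300700900a00e600e15481401c611)) (.br (Nat.shiftLeft (nat_lit 0x2800001) (nat_lit 114)) (.one (nat_lit 0xa00000300700900a00f600e15481401e611)) (.one (nat_lit 0xa00000400700900a00e800e15481401c611)))) (.br (Nat.shiftLeft (nat_lit 0xa000005) (nat_lit 112)) (.one (nat_lit 0xa00000400700900a00f800e15481401e611)) (.br (Nat.shiftLeft (nat_lit 0x5000003) (nat_lit 113)) (.one (nat_lit 0xa00000500700900a00ea00e15481401c611)) (.one (nat_lit 0xa00000600700900a00ec00e15481401c611)))))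
def t193 : k193.all (jb2 57 fl b0) = true := by decide +kernel
noncomputable def s9 : KT := (.br (nat_lit 0x300000700900a00f000e012074c1e511) (.br (nat_lit 0x100200700900a00e400e01203441c760) (.br (nat_lit 0x600700900a00ec00e01201401d600) (.br (nat_lit 0x500700900a00ea00e01201401d600) k175 k176) (.br (nat_lit 0x100000700900a00f000e01203441e511) k177 k178)) (.br (nat_lit 0x100400700900a00f800e01203441e760) (.br (nat_lit 0x100300700900a00e600e01203441c760) k179 k180) (.br (nat_lit 0x200300700900a00e600e01205481c760) k181 (.br (nat_lit 0x200400700900a00e800e01205481c760) k182 k183)))) (.br (nat_lit 0x500000100700900a00e200e0b341401c611) (.br (nat_lit 0x500000700900a00e000e0120b541c511) (.br (nat_lit 0x300500700900a00ea00e012074c1c760) k184 k185) (.br (nat_lit 0x700000700900a00e000e0120f5c1c511) k186 (.br (nat_lit 0x300000300700900a00e600e072c1401c611) k187 k188))) (.br (nat_lit 0x600000400700900a00f800e0d381401e611) (.br (nat_lit 0x500000600700900a00ec00e0b341401c611) k189 k190) (.br (nat_lit 0x700000600700900a00ec00e0f3c1401c611)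 k191 (.br (nat_lit 0xa00000200700900a00f400e15481401e611) k192 k193)))))
noncomputable def u9 : KT := (.br (Nat.shiftLeft (nat_lit 0x700900a00f) (nat_lit 64)) (.one (nat_lit 0x700900a00e000e01201401c540)) (.one (nat_lit 0x700900a00f000e01201401e540)))
def w9 : u9.all (wj 57 s9) = true := by decide +kernel
def o9 : OkW 57 (jb2 57 fl) u9 := .lift s9 _ (.br _ _ _ (.br _ _ _ (.br _ _ _ (.br _ _ _ (.leaf b0 k175 t175) (.leaf b0 k176 t176)) (.br _ _ _ (.leaf b0 k177 t177) (.leaf b0 k178 t178))) (.br _ _ _ (.br _ _ _ (.leaf b0 k179 t179) (.leaf b0 k180 t180)) (.br _ _ _ (.leaf b0 k181 t181) (.br _ _ _ (.leaf b0 k182 t182) (.leaf b0 k183 t183))))) (.br _ _ _ (.br _ _ _ (.br _ _ _ (.leaf b0 k184 t184) (.leaf b0 k185 t185)) (.br _ _ _ (.leaf b0 k186 t186) (.br _ _ _ (.leaf b0 k187 t187) (.leaf b0 k188 t188)))) (.br _ _ _ (.br _ _ _ (.leaf b0 k189 t189) (.leaf b0 k190 t190)) (.br _ _ _ (.leaf b0 k191 t191) (.br _ _ _ (.leaf b0 k192 t192) (.leaf b0 k193 t193)))))) w9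
noncomputable def k194 : KT := (.br (Nat.shiftLeft (nat_lit 0x3804805009) (nat_lit 65)) (.br (Nat.shiftLeft (nat_lit 0x700900a011) (nat_lit 64)) (.one (nat_lit 0x700900a010000e012014021500)) (.one (nat_lit 0x700900a011000e012014023500))) (.br (Nat.shiftLeft (nat_lit 0x1) (nat_lit 112)) (.one (nat_lit 0x700900a012000e012014025500)) (.br (Nat.shiftLeft (nat_lit 0x100700900a011) (nat_lit 64)) (.one (nat_lit 0x100700900a010200e012014020650)) (.one (nat_lit 0x100700900a011200e012014022650)))))
def t194 : k194.all (jb2 57 fl b0) = true := by decide +kernel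
noncomputable def k195 : KT := (.one (nat_lit 0x100700900a012200e012014024650))
def t195 : k195.all (jb2 57 fl b0) = true := by decide +kernel
noncomputable def k196 : KT := (.one (nat_lit 0x200700900a010400e012014020650))
def t196 : k196.all (jb2 57 fl b0) = true := by decide +kernel
noncomputable def k197 : KT := (.br (Nat.shiftLeft (nat_lit 0x1003804805009) (nat_lit 65)) (.one (nat_lit 0x200700900a011400e012014022650)) (.one (nat_lit 0x200700900a012400e012014024650)))
def t197 : k197.all (jb2 57 fl b0) = true := by decide +kernel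
noncomputable def k198 : KT := (.one (nat_lit 0x300700900a010600e012014020650))
def t198 : k198.all (jb2 57 fl b0) = true := by decide +kernel
noncomputable def k199 : KT := (.br (Nat.shiftLeft (nat_lit 0x1803804805009) (nat_lit 65)) (.one (nat_lit 0x300700900a011600e012014022650)) (.one (nat_lit 0x300700900a012600e012014024650)))
def t199 : k199.all (jb2 57 fl b0) = true := by decide +kernel
noncomputable def k200 : KT := (.one (nat_lit 0x400700900a010800e012014020650))
def t200 : k200.all (jb2 57 fl b0) = true := by decide +kernel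
noncomputable def k201 : KT := (.br (Nat.shiftLeft (nat_lit 0x2003804805009) (nat_lit 65)) (.one (nat_lit 0x400700900a011800e012014022650)) (.one (nat_lit 0x400700900a012800e012014024650)))
def t201 : k201.all (jb2 57 fl b0) = true := by decide +kernel
noncomputable def k202 : KT := (.one (nat_lit 0x500700900a010a00e012014020650))
def t202 : k202.all (jb2 57 fl b0) = true := by decide +kernel
noncomputable def k203 : KT := (.br (Nat.shiftLeft (nat_lit 0x2803804805009) (nat_lit 65)) (.one (nat_lit 0x500700900a011a00e012014022650)) (.one (nat_lit 0x500700900a012a00e012014024650)))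
def t203 : k203.all (jb2 57 fl b0) = true := by decide +kernel
noncomputable def k204 : KT := (.br (Nat.shiftLeft (nat_lit 0x100000700900a011) (nat_lit 64)) (.br (Nat.shiftLeft (nat_lit 0x3003804805009) (nat_lit 65)) (.br (Nat.shiftLeft (nat_lit 0x600700900a011) (nat_lit 64)) (.one (nat_lit 0x600700900a010c00e012014020650)) (.one (nat_lit 0x600700900a011c00e012014022650))) (.br (Nat.shiftLeft (nat_lit 0x1) (nat_lit 124)) (.one (nat_lit 0x600700900a012c00e012014024650)) (.one (nat_lit 0x100000700900a010000e012034420511)))) (.br (Nat.shiftLeft (nat_lit 0x1) (nat_lit 125)) (.br (Nat.shiftLeft (nat_lit 0x800003804805009) (nat_lit 65)) (.one (nat_lit 0x100000700900a011000e012034422511)) (.one (nat_lit 0x100000700900a012000e012034424511))) (.br (Nat.shiftLeft (nat_lit 0x200000700900a011) (nat_lit 64)) (.one (nat_lit 0x200000700900a010000e012054820511)) (.br (Nat.shiftLeft (nat_lit 0x1000003804805009) (nat_lit 65)) (.one (nat_lit 0x200000700900a011000e012054822511)) (.one (nat_lit 0x200000700900a012000e012054824511))))))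
def t204 : k204.all (jb2 57 fl b0) = true := by decide +kernel
noncomputable def k205 : KT := (.br (Nat.shiftLeft (nat_lit 0x5) (nat_lit 124)) (.br (Nat.shiftLeft (nat_lit 0x1) (nat_lit 126)) (.br (Nat.shiftLeft (nat_lit 0x300000700900a011) (nat_lit 64)) (.one (nat_lit 0x300000700900a010000e012074c20511)) (.br (Nat.shiftLeft (nat_lit 0x1800003804805009) (nat_lit 65)) (.one (nat_lit 0x300000700900a011000e012074c22511)) (.one (nat_lit 0x300000700900a012000e012074c24511)))) (.br (Nat.shiftLeft (nat_lit 0x400000700900a011) (nat_lit 64)) (.one (nat_lit 0x400000700900a010000e012095020511)) (.br (Nat.shiftLeft (nat_lit 0x2000003804805009) (nat_lit 65)) (.one (nat_lit 0x400000700900a011000e012095022511)) (.one (nat_lit 0x400000700900a012000e012095024511))))) (.br (Nat.shiftLeft (nat_lit 0x3) (nat_lit 125)) (.br (Nat.shiftLeft (nat_lit 0x500000700900a011) (nat_lit 64)) (.one (nat_lit 0x500000700900a010000e0120b5420511)) (.br (Nat.shiftLeft (nat_lit 0x2800003804805009) (nat_lit 65)) (.one (nat_lit 0x500000700900a011000e0120b5422511))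 (.one (nat_lit 0x500000700900a012000e0120b5424511)))) (.br (Nat.shiftLeft (nat_lit 0x3000003804805009) (nat_lit 65)) (.br (Nat.shiftLeft (nat_lit 0x600000700900a011) (nat_lit 64)) (.one (nat_lit 0x600000700900a010000e0120d5820511)) (.one (nat_lit 0x600000700900a011000e0120d5822511))) (.br (Nat.shiftLeft (nat_lit 0x7) (nat_lit 124)) (.one (nat_lit 0x600000700900a012000e0120d5824511)) (.one (nat_lit 0x700000700900a010000e0120f5c20511))))))
def t205 : k205.all (jb2 57 fl b0) = true := by decide +kernel
noncomputable def k206 : KT := (.br (Nat.shiftLeft (nat_lit 0x9) (nat_lit 124)) (.br (Nat.shiftLeft (nat_lit 0x1) (nat_lit 127)) (.br (Nat.shiftLeft (nat_lit 0x3800003804805009) (nat_lit 65)) (.one (nat_lit 0x700000700900a011000e0120f5c22511)) (.one (nat_lit 0x700000700900a012000e0120f5c24511))) (.br (Nat.shiftLeft (nat_lit 0x800000700900a011) (nat_lit 64)) (.one (nat_lit 0x800000700900a010000e012116020511)) (.br (Nat.shiftLeft (nat_lit 0x4000003804805009) (nat_lit 65)) (.one (nat_lit 0x800000700900a011000e012116022511))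 (.one (nat_lit 0x800000700900a012000e012116024511))))) (.br (Nat.shiftLeft (nat_lit 0x5) (nat_lit 125)) (.br (Nat.shiftLeft (nat_lit 0x900000700900a011) (nat_lit 64)) (.one (nat_lit 0x900000700900a010000e012136420511)) (.br (Nat.shiftLeft (nat_lit 0x4800003804805009) (nat_lit 65)) (.one (nat_lit 0x900000700900a011000e012136422511)) (.one (nat_lit 0x900000700900a012000e012136424511)))) (.br (Nat.shiftLeft (nat_lit 0xa00000700900a011) (nat_lit 64)) (.one (nat_lit 0xa00000700900a010000e012156820511)) (.br (Nat.shiftLeft (nat_lit 0x5000003804805009) (nat_lit 65)) (.one (nat_lit 0xa00000700900a011000e012156822511)) (.one (nat_lit 0xa00000700900a012000e012156824511))))))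
def t206 : k206.all (jb2 57 fl b0) = true := by decide +kernel
noncomputable def s10 : KT := (.br (nat_lit 0x300700900a012600e012014024650) (.br (nat_lit 0x200700900a010400e012014020650) (.br (nat_lit 0x100700900a011200e012014022650) k194 (.br (nat_lit 0x100700900a012200e012014024650) k195 k196)) (.br (nat_lit 0x200700900a012400e012014024650) k197 (.br (nat_lit 0x300700900a010600e012014020650) k198 k199))) (.br (nat_lit 0x500700900a010a00e012014020650) (.br (nat_lit 0x400700900a010800e012014020650) k200 (.br (nat_lit 0x400700900a012800e012014024650) k201 k202)) (.br (nat_lit 0x200000700900a012000e012054824511) (.br (nat_lit 0x500700900a012a00e012014024650) k203 k204) (.br (nat_lit 0x700000700900a010000e0120f5c20511) k205 k206))))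
noncomputable def u10 : KT := (.br (Nat.shiftLeft (nat_lit 0x700900a011) (nat_lit 64)) (.one (nat_lit 0x700900a010000e012014020540)) (.br (Nat.shiftLeft (nat_lit 0x3804805009) (nat_lit 65)) (.one (nat_lit 0x700900a011000e012014022540)) (.one (nat_lit 0x700900a012000e012014024540))))
def w10 : u10.all (wj 57 s10) = true := by decide +kernel
def o10 : OkW 57 (jb2 57 fl) u10 := .lift s10 _ (.br _ _ _ (.br _ _ _ (.br _ _ _ (.leaf b0 k194 t194) (.br _ _ _ (.leaf b0 k195 t195) (.leaf b0 k196 t196))) (.br _ _ _ (.leaf b0 k197 t197) (.br _ _ _ (.leaf b0 k198 t198) (.leaf b0 k199 t199)))) (.br _ _ _ (.br _ _ _ (.leaf b0 k200 t200) (.br _ _ _ (.leaf b0 k201 t201) (.leaf b0 k202 t202))) (.br _ _ _ (.br _ _ _ (.leaf b0 k203 t203) (.leaf b0 k204 t204)) (.br _ _ _ (.leaf b0 k205 t205) (.leaf b0 k206 t206))))) w10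
noncomputable def k207 : KT := (.br (Nat.shiftLeft (nat_lit 0x1) (nat_lit 114)) (.br (Nat.shiftLeft (nat_lit 0x1) (nat_lit 113)) (.br (Nat.shiftLeft (nat_lit 0x1) (nat_lit 112)) (.one (nat_lit 0x700900b00c000e012016019500)) (.one (nat_lit 0x100700900b00c200e012016019600))) (.br (Nat.shiftLeft (nat_lit 0x3) (nat_lit 112)) (.one (nat_lit 0x200700900b00c400e012016019600)) (.one (nat_lit 0x300700900b00c600e012016019600)))) (.br (Nat.shiftLeft (nat_lit 0x3) (nat_lit 113)) (.br (Nat.shiftLeft (nat_lit 0x5) (nat_lit 112)) (.one (nat_lit 0x400700900b00c800e012016019600)) (.one (nat_lit 0x500700900b00ca00e012016019600))) (.br (Nat.shiftLeft (nat_lit 0x1) (nat_lit 124)) (.one (nat_lit 0x600700900b00cc00e012016019600)) (.br (Nat.shiftLeft (nat_lit 0x801) (nat_lit 113)) (.one (nat_lit 0x100000700900b00c000e012036418511)) (.one (nat_lit 0x100200700900b00c400e012036418760))))))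
def t207 : k207.all (jb2 57 fl b0) = true := by decide +kernel
noncomputable def k208 : KT := (.one (nat_lit 0x100300700900b00c600e012036418760))
def t208 : k208.all (jb2 57 fl b0) = true := by decide +kernel
noncomputable def k209 : KT := (.br (Nat.shiftLeft (nat_lit 0x1005) (nat_lit 112)) (.one (nat_lit 0x100400700900b00c800e012036418760)) (.one (nat_lit 0x100500700900b00ca00e012036418760)))
def t209 : k209.all (jb2 57 fl b0) = true := by decide +kernel
noncomputable def k210 : KT := (.br (Nat.shiftLeft (nat_lit 0x1) (nat_lit 125)) (.one (nat_lit 0x100600700900b00cc00e012036418760)) (.one (nat_lit 0x200000700900b00c000e012056818511)))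
def t210 : k210.all (jb2 57 fl b0) = true := by decide +kernel
noncomputable def k211 : KT := (.one (nat_lit 0x200300700900b00c600e012056818760))
def t211 : k211.all (jb2 57 fl b0) = true := by decide +kernel
noncomputable def k212 : KT := (.one (nat_lit 0x200400700900b00c800e012056818760))
def t212 : k212.all (jb2 57 fl b0) = true := by decide +kernel
noncomputable def k213 : KT := (.br (Nat.shiftLeft (nat_lit 0x1003) (nat_lit 113)) (.one (nat_lit 0x200500700900b00ca00e012056818760)) (.br (Nat.shiftLeft (nat_lit 0x3) (nat_lit 124)) (.one (nat_lit 0x200600700900b00cc00e012056818760)) (.one (nat_lit 0x300000700900b00c000e012076c18511))))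
def t213 : k213.all (jb2 57 fl b0) = true := by decide +kernel
noncomputable def k214 : KT := (.one (nat_lit 0x300400700900b00c800e012076c18760))
def t214 : k214.all (jb2 57 fl b0) = true := by decide +kernel
noncomputable def k215 : KT := (.br (Nat.shiftLeft (nat_lit 0x1803) (nat_lit 113)) (.one (nat_lit 0x300500700900b00ca00e012076c18760)) (.br (Nat.shiftLeft (nat_lit 0x1) (nat_lit 126)) (.one (nat_lit 0x300600700900b00cc00e012076c18760)) (.one (nat_lit 0x400000700900b00c000e012097018511))))
def t215 : k215.all (jb2 57 fl b0) = true := by decide +kernel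
noncomputable def k216 : KT := (.br (Nat.shiftLeft (nat_lit 0x5) (nat_lit 124)) (.br (Nat.shiftLeft (nat_lit 0x2003) (nat_lit 113)) (.one (nat_lit 0x400500700900b00ca00e012097018760)) (.one (nat_lit 0x400600700900b00cc00e012097018760))) (.br (Nat.shiftLeft (nat_lit 0x1401) (nat_lit 114)) (.one (nat_lit 0x500000700900b00c000e0120b7418511)) (.one (nat_lit 0x500600700900b00cc00e0120b7418760))))
def t216 : k216.all (jb2 57 fl b0) = true := by decide +kernel
noncomputable def k217 : KT := (.br (Nat.shiftLeft (nat_lit 0x1) (nat_lit 127)) (.br (Nat.shiftLeft (nat_lit 0x7) (nat_lit 124)) (.one (nat_lit 0x600000700900b00c000e0120d7818511)) (.one (nat_lit 0x700000700900b00c000e0120f7c18511))) (.br (Nat.shiftLeft (nat_lit 0x9) (nat_lit 124)) (.one (nat_lit 0x800000700900b00c000e012118018511)) (.one (nat_lit 0x900000700900b00c000e012138418511))))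
def t217 : k217.all (jb2 57 fl b0) = true := by decide +kernel
noncomputable def k218 : KT := (.br (Nat.shiftLeft (nat_lit 0x1000003) (nat_lit 113)) (.br (Nat.shiftLeft (nat_lit 0x1000005) (nat_lit 112)) (.br (Nat.shiftLeft (nat_lit 0x800001) (nat_lit 113)) (.br (Nat.shiftLeft (nat_lit 0xb) (nat_lit 124)) (.one (nat_lit 0xa00000700900b00c000e012158818511)) (.br (Nat.shiftLeft (nat_lit 0x1) (nat_lit 136)) (.one (nat_lit 0xb00000700900b00c000e012178c18511)) (.one (nat_lit 0x100000100700900b00c200e032416018611)))) (.br (Nat.shiftLeft (nat_lit 0x1000003) (nat_lit 112)) (.one (nat_lit 0x100000200700900b00c400e032416018611)) (.br (Nat.shiftLeft (nat_lit 0x400001) (nat_lit 114)) (.one (nat_lit 0x100000300700900b00c600e032416018611)) (.one (nat_lit 0x100000400700900b00c800e032416018611))))) (.br (Nat.shiftLeft (nat_lit 0x1000001) (nat_lit 113)) (.br (Nat.shiftLeft (nat_lit 0x800003) (nat_lit 113)) (.one (nat_lit 0x100000500700900b00ca00e032416018611)) (.br (Nat.shiftLeft (nat_lit 0x1) (nat_lit 137)) (.one (nat_lit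 0x100000600700900b00cc00e032416018611)) (.one (nat_lit 0x200000100700900b00c200e052816018611)))) (.br (Nat.shiftLeft (nat_lit 0x800001) (nat_lit 114)) (.br (Nat.shiftLeft (nat_lit 0x2000003) (nat_lit 112)) (.one (nat_lit 0x200000200700900b00c400e052816018611)) (.one (nat_lit 0x200000300700900b00c600e052816018611))) (.br (Nat.shiftLeft (nat_lit 0x2000005) (nat_lit 112)) (.one (nat_lit 0x200000400700900b00c800e052816018611)) (.one (nat_lit 0x200000500700900b00ca00e052816018611)))))) (.br (Nat.shiftLeft (nat_lit 0x1800003) (nat_lit 113)) (.br (Nat.shiftLeft (nat_lit 0x3000003) (nat_lit 112)) (.br (Nat.shiftLeft (nat_lit 0x3) (nat_lit 136)) (.one (nat_lit 0x200000600700900b00cc00e052816018611)) (.br (Nat.shiftLeft (nat_lit 0x1800001) (nat_lit 113)) (.one (nat_lit 0x300000100700900b00c200e072c16018611)) (.one (nat_lit 0x300000200700900b00c400e072c16018611)))) (.br (Nat.shiftLeft (nat_lit 0xc00001) (nat_lit 114)) (.one (nat_lit 0x300000300700900b00c600e072c16018611)) (.br (Nat.shiftLeft (nat_lit 0x3000005)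 (nat_lit 112)) (.one (nat_lit 0x300000400700900b00c800e072c16018611)) (.one (nat_lit 0x300000500700900b00ca00e072c16018611))))) (.br (Nat.shiftLeft (nat_lit 0x4000003) (nat_lit 112)) (.br (Nat.shiftLeft (nat_lit 0x1) (nat_lit 138)) (.one (nat_lit 0x300000600700900b00cc00e072c16018611)) (.br (Nat.shiftLeft (nat_lit 0x2000001) (nat_lit 113)) (.one (nat_lit 0x400000100700900b00c200e093016018611)) (.one (nat_lit 0x400000200700900b00c400e093016018611)))) (.br (Nat.shiftLeft (nat_lit 0x4000005) (nat_lit 112)) (.br (Nat.shiftLeft (nat_lit 0x1000001) (nat_lit 114)) (.one (nat_lit 0x400000300700900b00c600e093016018611)) (.one (nat_lit 0x400000400700900b00c800e093016018611))) (.br (Nat.shiftLeft (nat_lit 0x2000003) (nat_lit 113)) (.one (nat_lit 0x400000500700900b00ca00e093016018611)) (.one (nat_lit 0x400000600700900b00cc00e093016018611)))))))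
def t218 : k218.all (jb2 57 fl b0) = true := by decide +kernel
noncomputable def k219 : KT := (.br (Nat.shiftLeft (nat_lit 0x1400001) (nat_lit 114)) (.br (Nat.shiftLeft (nat_lit 0x2800001) (nat_lit 113)) (.one (nat_lit 0x500000100700900b00c200e0b3416018611)) (.br (Nat.shiftLeft (nat_lit 0x5000003) (nat_lit 112)) (.one (nat_lit 0x500000200700900b00c400e0b3416018611)) (.one (nat_lit 0x500000300700900b00c600e0b3416018611)))) (.br (Nat.shiftLeft (nat_lit 0x5000005) (nat_lit 112)) (.one (nat_lit 0x500000400700900b00c800e0b3416018611)) (.br (Nat.shiftLeft (nat_lit 0x2800003) (nat_lit 113)) (.one (nat_lit 0x500000500700900b00ca00e0b3416018611)) (.one (nat_lit 0x500000600700900b00cc00e0b3416018611)))))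
def t219 : k219.all (jb2 57 fl b0) = true := by decide +kernel
noncomputable def k220 : KT := (.br (Nat.shiftLeft (nat_lit 0x6000003) (nat_lit 112)) (.br (Nat.shiftLeft (nat_lit 0x3000001) (nat_lit 113)) (.one (nat_lit 0x600000100700900b00c200e0d3816018611)) (.one (nat_lit 0x600000200700900b00c400e0d3816018611))) (.br (Nat.shiftLeft (nat_lit 0x1800001) (nat_lit 114)) (.one (nat_lit 0x600000300700900b00c600e0d3816018611)) (.one (nat_lit 0x600000400700900b00c800e0d3816018611))))
def t220 : k220.all (jb2 57 fl b0) = true := by decide +kernel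
noncomputable def k221 : KT := (.br (Nat.shiftLeft (nat_lit 0x3800001) (nat_lit 113)) (.br (Nat.shiftLeft (nat_lit 0x3000003) (nat_lit 113)) (.one (nat_lit 0x600000500700900b00ca00e0d3816018611)) (.br (Nat.shiftLeft (nat_lit 0x7) (nat_lit 136)) (.one (nat_lit 0x600000600700900b00cc00e0d3816018611)) (.one (nat_lit 0x700000100700900b00c200e0f3c16018611)))) (.br (Nat.shiftLeft (nat_lit 0x7000003) (nat_lit 112)) (.one (nat_lit 0x700000200700900b00c400e0f3c16018611)) (.br (Nat.shiftLeft (nat_lit 0x1c00001) (nat_lit 114)) (.one (nat_lit 0x700000300700900b00c600e0f3c16018611)) (.one (nat_lit 0x700000400700900b00c800e0f3c16018611)))))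
def t221 : k221.all (jb2 57 fl b0) = true := by decide +kernel
noncomputable def k222 : KT := (.br (Nat.shiftLeft (nat_lit 0x2000001) (nat_lit 114)) (.br (Nat.shiftLeft (nat_lit 0x1) (nat_lit 139)) (.br (Nat.shiftLeft (nat_lit 0x3800003) (nat_lit 113)) (.one (nat_lit 0x700000500700900b00ca00e0f3c16018611)) (.one (nat_lit 0x700000600700900b00cc00e0f3c16018611))) (.br (Nat.shiftLeft (nat_lit 0x4000001) (nat_lit 113)) (.one (nat_lit 0x800000100700900b00c200e114016018611)) (.br (Nat.shiftLeft (nat_lit 0x8000003) (nat_lit 112)) (.one (nat_lit 0x800000200700900b00c400e114016018611)) (.one (nat_lit 0x800000300700900b00c600e114016018611))))) (.br (Nat.shiftLeft (nat_lit 0x4000003) (nat_lit 113)) (.br (Nat.shiftLeft (nat_lit 0x8000005) (nat_lit 112)) (.one (nat_lit 0x800000400700900b00c800e114016018611)) (.one (nat_lit 0x800000500700900b00ca00e114016018611))) (.br (Nat.shiftLeft (nat_lit 0x9) (nat_lit 136)) (.one (nat_lit 0x800000600700900b00cc00e114016018611)) (.br (Nat.shiftLeft (nat_lit 0x4800001) (nat_lit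 113)) (.one (nat_lit 0x900000100700900b00c200e134416018611)) (.one (nat_lit 0x900000200700900b00c400e134416018611))))))
def t222 : k222.all (jb2 57 fl b0) = true := by decide +kernel
noncomputable def k223 : KT := (.br (Nat.shiftLeft (nat_lit 0xa000005) (nat_lit 112)) (.br (Nat.shiftLeft (nat_lit 0x5) (nat_lit 137)) (.br (Nat.shiftLeft (nat_lit 0x9000005) (nat_lit 112)) (.br (Nat.shiftLeft (nat_lit 0x2400001) (nat_lit 114)) (.one (nat_lit 0x900000300700900b00c600e134416018611)) (.one (nat_lit 0x900000400700900b00c800e134416018611))) (.br (Nat.shiftLeft (nat_lit 0x4800003) (nat_lit 113)) (.one (nat_lit 0x900000500700900b00ca00e134416018611)) (.one (nat_lit 0x900000600700900b00cc00e134416018611)))) (.br (Nat.shiftLeft (nat_lit 0xa000003) (nat_lit 112)) (.br (Nat.shiftLeft (nat_lit 0x5000001) (nat_lit 113)) (.one (nat_lit 0xa00000100700900b00c200e154816018611)) (.one (nat_lit 0xa00000200700900b00c400e154816018611))) (.br (Nat.shiftLeft (nat_lit 0x2800001) (nat_lit 114)) (.one (nat_lit 0xa00000300700900b00c600e154816018611))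 (.one (nat_lit 0xa00000400700900b00c800e154816018611))))) (.br (Nat.shiftLeft (nat_lit 0xb000003) (nat_lit 112)) (.br (Nat.shiftLeft (nat_lit 0xb) (nat_lit 136)) (.br (Nat.shiftLeft (nat_lit 0x5000003) (nat_lit 113)) (.one (nat_lit 0xa00000500700900b00ca00e154816018611)) (.one (nat_lit 0xa00000600700900b00cc00e154816018611))) (.br (Nat.shiftLeft (nat_lit 0x5800001) (nat_lit 113)) (.one (nat_lit 0xb00000100700900b00c200e174c16018611)) (.one (nat_lit 0xb00000200700900b00c400e174c16018611)))) (.br (Nat.shiftLeft (nat_lit 0xb000005) (nat_lit 112)) (.br (Nat.shiftLeft (nat_lit 0x2c00001) (nat_lit 114)) (.one (nat_lit 0xb00000300700900b00c600e174c16018611)) (.one (nat_lit 0xb00000400700900b00c800e174c16018611))) (.br (Nat.shiftLeft (nat_lit 0x5800003) (nat_lit 113)) (.one (nat_lit 0xb00000500700900b00ca00e174c16018611)) (.one (nat_lit 0xb00000600700900b00cc00e174c16018611))))))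
def t223 : k223.all (jb2 57 fl b0) = true := by decide +kernel
noncomputable def s11 : KT := (.br (nat_lit 0x300400700900b00c800e012076c18760) (.br (nat_lit 0x200000700900b00c000e012056818511) (.br (nat_lit 0x100300700900b00c600e012036418760) (.br (nat_lit 0x100200700900b00c400e012036418760) k207 k208) (.br (nat_lit 0x100500700900b00ca00e012036418760) k209 k210)) (.br (nat_lit 0x200400700900b00c800e012056818760) (.br (nat_lit 0x200300700900b00c600e012056818760) k211 k212) (.br (nat_lit 0x300000700900b00c000e012076c18511) k213 k214))) (.br (nat_lit 0x400000600700900b00cc00e093016018611) (.br (nat_lit 0x500600700900b00cc00e0120b7418760) (.br (nat_lit 0x400000700900b00c000e012097018511) k215 k216) (.br (nat_lit 0x900000700900b00c000e012138418511) k217 k218)) (.br (nat_lit 0x600000400700900b00c800e0d3816018611) (.br (nat_lit 0x500000600700900b00cc00e0b3416018611) k219 k220) (.br (nat_lit 0x700000400700900b00c800e0f3c16018611) k221 (.br (nat_lit 0x900000200700900b00c400e134416018611) k222 k223)))))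
noncomputable def u11 : KT := (.one (nat_lit 0x700900b00c000e012016018540))
def w11 : u11.all (wj 57 s11) = true := by decide +kernel
def o11 : OkW 57 (jb2 57 fl) u11 := .lift s11 _ (.br _ _ _ (.br _ _ _ (.br _ _ _ (.br _ _ _ (.leaf b0 k207 t207) (.leaf b0 k208 t208)) (.br _ _ _ (.leaf b0 k209 t209) (.leaf b0 k210 t210))) (.br _ _ _ (.br _ _ _ (.leaf b0 k211 t211) (.leaf b0 k212 t212)) (.br _ _ _ (.leaf b0 k213 t213) (.leaf b0 k214 t214)))) (.br _ _ _ (.br _ _ _ (.br _ _ _ (.leaf b0 k215 t215) (.leaf b0 k216 t216)) (.br _ _ _ (.leaf b0 k217 t217) (.leaf b0 k218 t218))) (.br _ _ _ (.br _ _ _ (.leaf b0 k219 t219) (.leaf b0 k220 t220)) (.br _ _ _ (.leaf b0 k221 t221) (.br _ _ _ (.leaf b0 k222 t222) (.leaf b0 k223 t223)))))) w11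
noncomputable def k224 : KT := (.br (Nat.shiftLeft (nat_lit 0x1003804805807) (nat_lit 65)) (.br (Nat.shiftLeft (nat_lit 0x1) (nat_lit 112)) (.br (Nat.shiftLeft (nat_lit 0x3804805807) (nat_lit 65)) (.one (nat_lit 0x700900b00d000e01201601b500)) (.one (nat_lit 0x700900b00e000e01201601d500))) (.br (Nat.shiftLeft (nat_lit 0x803804805807) (nat_lit 65)) (.one (nat_lit 0x100700900b00d200e01201601b600)) (.br (Nat.shiftLeft (nat_lit 0x1) (nat_lit 113)) (.one (nat_lit 0x100700900b00e200e01201601c650)) (.one (nat_lit 0x200700900b00d400e01201601b600))))) (.br (Nat.shiftLeft (nat_lit 0x1) (nat_lit 114)) (.br (Nat.shiftLeft (nat_lit 0x3) (nat_lit 112)) (.one (nat_lit 0x200700900b00e400e01201601d600)) (.br (Nat.shiftLeft (nat_lit 0x1803804805807) (nat_lit 65)) (.one (nat_lit 0x300700900b00d600e01201601b600)) (.one (nat_lit 0x300700900b00e600e01201601d600)))) (.br (Nat.shiftLeft (nat_lit 0x2003804805807) (nat_lit 65)) (.one (nat_lit 0x400700900b00d800e01201601b600)) (.br (Nat.shiftLeft (nat_lit 0x5) (nat_lit 112)) (.one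 (nat_lit 0x400700900b00e800e01201601d600)) (.one (nat_lit 0x500700900b00da00e01201601b600))))))
def t224 : k224.all (jb2 57 fl b0) = true := by decide +kernel
noncomputable def k225 : KT := (.br (Nat.shiftLeft (nat_lit 0x3) (nat_lit 113)) (.one (nat_lit 0x500700900b00ea00e01201601c650)) (.one (nat_lit 0x600700900b00dc00e01201601b600)))
def t225 : k225.all (jb2 57 fl b0) = true := by decide +kernel
noncomputable def k226 : KT := (.br (Nat.shiftLeft (nat_lit 0x1) (nat_lit 124)) (.one (nat_lit 0x600700900b00ec00e01201601c650)) (.br (Nat.shiftLeft (nat_lit 0x800003804805807) (nat_lit 65)) (.one (nat_lit 0x100000700900b00d000e01203641a511)) (.one (nat_lit 0x100000700900b00e000e01203641c511))))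
def t226 : k226.all (jb2 57 fl b0) = true := by decide +kernel
noncomputable def k227 : KT := (.one (nat_lit 0x100200700900b00d400e01203641a760))
def t227 : k227.all (jb2 57 fl b0) = true := by decide +kernel
noncomputable def k228 : KT := (.one (nat_lit 0x100200700900b00e400e01203641c760))
def t228 : k228.all (jb2 57 fl b0) = true := by decide +kernel
noncomputable def k229 : KT := (.br (Nat.shiftLeft (nat_lit 0x801803804805807) (nat_lit 65)) (.one (nat_lit 0x100300700900b00d600e01203641a760)) (.one (nat_lit 0x100300700900b00e600e01203641c760)))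
def t229 : k229.all (jb2 57 fl b0) = true := by decide +kernel
noncomputable def k230 : KT := (.br (Nat.shiftLeft (nat_lit 0x802003804805807) (nat_lit 65)) (.one (nat_lit 0x100400700900b00d800e01203641a760)) (.br (Nat.shiftLeft (nat_lit 0x1005) (nat_lit 112)) (.one (nat_lit 0x100400700900b00e800e01203641c760)) (.one (nat_lit 0x100500700900b00da00e01203641a760))))
def t230 : k230.all (jb2 57 fl b0) = true := by decide +kernel
noncomputable def k231 : KT := (.br (Nat.shiftLeft (nat_lit 0x1000003804805807) (nat_lit 65)) (.br (Nat.shiftLeft (nat_lit 0x1) (nat_lit 125)) (.one (nat_lit 0x100600700900b00dc00e01203641a760)) (.one (nat_lit 0x200000700900b00d000e01205681a511))) (.br (Nat.shiftLeft (nat_lit 0x1001) (nat_lit 113)) (.one (nat_lit 0x200000700900b00e000e01205681c511)) (.one (nat_lit 0x200300700900b00d600e01205681a760))))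
def t231 : k231.all (jb2 57 fl b0) = true := by decide +kernel
noncomputable def k232 : KT := (.br (Nat.shiftLeft (nat_lit 0x801) (nat_lit 114)) (.one (nat_lit 0x200300700900b00e600e01205681c760)) (.one (nat_lit 0x200400700900b00d800e01205681a760)))
def t232 : k232.all (jb2 57 fl b0) = true := by decide +kernel
noncomputable def k233 : KT := (.br (Nat.shiftLeft (nat_lit 0x1003) (nat_lit 113)) (.br (Nat.shiftLeft (nat_lit 0x2005) (nat_lit 112)) (.one (nat_lit 0x200400700900b00e800e01205681c760)) (.one (nat_lit 0x200500700900b00da00e01205681a760))) (.br (Nat.shiftLeft (nat_lit 0x3) (nat_lit 124)) (.one (nat_lit 0x200600700900b00dc00e01205681a760)) (.br (Nat.shiftLeft (nat_lit 0x1800003804805807) (nat_lit 65)) (.one (nat_lit 0x300000700900b00d000e012076c1a511)) (.one (nat_lit 0x300000700900b00e000e012076c1c511)))))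
def t233 : k233.all (jb2 57 fl b0) = true := by decide +kernel
noncomputable def k234 : KT := (.br (Nat.shiftLeft (nat_lit 0x1802003804805807) (nat_lit 65)) (.one (nat_lit 0x300400700900b00d800e012076c1a760)) (.br (Nat.shiftLeft (nat_lit 0x3005) (nat_lit 112)) (.one (nat_lit 0x300400700900b00e800e012076c1c760)) (.one (nat_lit 0x300500700900b00da00e012076c1a760))))
def t234 : k234.all (jb2 57 fl b0) = true := by decide +kernel
noncomputable def k235 : KT := (.br (Nat.shiftLeft (nat_lit 0x1001) (nat_lit 114)) (.br (Nat.shiftLeft (nat_lit 0x1) (nat_lit 126)) (.one (nat_lit 0x300600700900b00dc00e012076c1a760)) (.br (Nat.shiftLeft (nat_lit 0x2000003804805807) (nat_lit 65)) (.one (nat_lit 0x400000700900b00d000e01209701a511)) (.one (nat_lit 0x400000700900b00e000e01209701c511)))) (.br (Nat.shiftLeft (nat_lit 0x2003) (nat_lit 113)) (.one (nat_lit 0x400500700900b00da00e01209701a760)) (.br (Nat.shiftLeft (nat_lit 0x5) (nat_lit 124)) (.one (nat_lit 0x400600700900b00dc00e01209701a760)) (.one (nat_lit 0x500000700900b00d000e0120b741a511)))))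
def t235 : k235.all (jb2 57 fl b0) = true := by decide +kernel
noncomputable def k236 : KT := (.br (Nat.shiftLeft (nat_lit 0x3) (nat_lit 125)) (.br (Nat.shiftLeft (nat_lit 0x1401) (nat_lit 114)) (.one (nat_lit 0x500000700900b00e000e0120b741c511)) (.one (nat_lit 0x500600700900b00dc00e0120b741a760))) (.br (Nat.shiftLeft (nat_lit 0x3000003804805807) (nat_lit 65)) (.one (nat_lit 0x600000700900b00d000e0120d781a511)) (.br (Nat.shiftLeft (nat_lit 0x7) (nat_lit 124)) (.one (nat_lit 0x600000700900b00e000e0120d781c511)) (.one (nat_lit 0x700000700900b00d000e0120f7c1a511)))))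
def t236 : k236.all (jb2 57 fl b0) = true := by decide +kernel
noncomputable def k237 : KT := (.br (Nat.shiftLeft (nat_lit 0x1) (nat_lit 136)) (.br (Nat.shiftLeft (nat_lit 0x4800003804805807) (nat_lit 65)) (.br (Nat.shiftLeft (nat_lit 0x4000003804805807) (nat_lit 65)) (.br (Nat.shiftLeft (nat_lit 0x1) (nat_lit 127)) (.one (nat_lit 0x700000700900b00e000e0120f7c1c511)) (.one (nat_lit 0x800000700900b00d000e01211801a511))) (.br (Nat.shiftLeft (nat_lit 0x9) (nat_lit 124)) (.one (nat_lit 0x800000700900b00e000e01211801c511)) (.one (nat_lit 0x900000700900b00d000e01213841a511)))) (.br (Nat.shiftLeft (nat_lit 0x5000003804805807) (nat_lit 65)) (.br (Nat.shiftLeft (nat_lit 0x5) (nat_lit 125)) (.one (nat_lit 0x900000700900b00e000e01213841c511)) (.one (nat_lit 0xa00000700900b00d000e01215881a511))) (.br (Nat.shiftLeft (nat_lit 0xb) (nat_lit 124)) (.one (nat_lit 0xa00000700900b00e000e01215881c511)) (.br (Nat.shiftLeft (nat_lit 0x5800003804805807) (nat_lit 65)) (.one (nat_lit 0xb00000700900b00d000e012178c1a511)) (.one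 (nat_lit 0xb00000700900b00e000e012178c1c511)))))) (.br (Nat.shiftLeft (nat_lit 0x400001) (nat_lit 114)) (.br (Nat.shiftLeft (nat_lit 0x800001003804805807) (nat_lit 65)) (.br (Nat.shiftLeft (nat_lit 0x800001) (nat_lit 113)) (.one (nat_lit 0x100000100700900b00d200e03241601a611)) (.one (nat_lit 0x100000200700900b00d400e03241601a611))) (.br (Nat.shiftLeft (nat_lit 0x1000003) (nat_lit 112)) (.one (nat_lit 0x100000200700900b00e400e03241601c611)) (.br (Nat.shiftLeft (nat_lit 0x800001803804805807) (nat_lit 65)) (.one (nat_lit 0x100000300700900b00d600e03241601a611)) (.one (nat_lit 0x100000300700900b00e600e03241601c611))))) (.br (Nat.shiftLeft (nat_lit 0x1000005) (nat_lit 112)) (.br (Nat.shiftLeft (nat_lit 0x800002003804805807) (nat_lit 65)) (.one (nat_lit 0x100000400700900b00d800e03241601a611)) (.one (nat_lit 0x100000400700900b00e800e03241601c611))) (.br (Nat.shiftLeft (nat_lit 0x800003) (nat_lit 113)) (.one (nat_lit 0x100000500700900b00da00e03241601a611)) (.br (Nat.shiftLeft (nat_lit 0x1) (nat_lit 137)) (.one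 (nat_lit 0x100000600700900b00dc00e03241601a611)) (.one (nat_lit 0x200000100700900b00d200e05281601a611)))))))
def t237 : k237.all (jb2 57 fl b0) = true := by decide +kernel
noncomputable def k238 : KT := (.br (Nat.shiftLeft (nat_lit 0xc00001) (nat_lit 114)) (.br (Nat.shiftLeft (nat_lit 0x2000005) (nat_lit 112)) (.br (Nat.shiftLeft (nat_lit 0x1000001803804805807) (nat_lit 65)) (.br (Nat.shiftLeft (nat_lit 0x1000001003804805807) (nat_lit 65)) (.one (nat_lit 0x200000200700900b00d400e05281601a611)) (.br (Nat.shiftLeft (nat_lit 0x2000003) (nat_lit 112)) (.one (nat_lit 0x200000200700900b00e400e05281601c611)) (.one (nat_lit 0x200000300700900b00d600e05281601a611)))) (.br (Nat.shiftLeft (nat_lit 0x800001) (nat_lit 114)) (.one (nat_lit 0x200000300700900b00e600e05281601c611)) (.br (Nat.shiftLeft (nat_lit 0x1000002003804805807) (nat_lit 65)) (.one (nat_lit 0x200000400700900b00d800e05281601a611)) (.one (nat_lit 0x200000400700900b00e800e05281601c611))))) (.br (Nat.shiftLeft (nat_lit 0x1800001) (nat_lit 113)) (.br (Nat.shiftLeft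 (nat_lit 0x1000003) (nat_lit 113)) (.one (nat_lit 0x200000500700900b00da00e05281601a611)) (.br (Nat.shiftLeft (nat_lit 0x3) (nat_lit 136)) (.one (nat_lit 0x200000600700900b00dc00e05281601a611)) (.one (nat_lit 0x300000100700900b00d200e072c1601a611)))) (.br (Nat.shiftLeft (nat_lit 0x3000003) (nat_lit 112)) (.br (Nat.shiftLeft (nat_lit 0x1800001003804805807) (nat_lit 65)) (.one (nat_lit 0x300000200700900b00d400e072c1601a611)) (.one (nat_lit 0x300000200700900b00e400e072c1601c611))) (.br (Nat.shiftLeft (nat_lit 0x1800001803804805807) (nat_lit 65)) (.one (nat_lit 0x300000300700900b00d600e072c1601a611)) (.one (nat_lit 0x300000300700900b00e600e072c1601c611)))))) (.br (Nat.shiftLeft (nat_lit 0x2000001003804805807) (nat_lit 65)) (.br (Nat.shiftLeft (nat_lit 0x1800003) (nat_lit 113)) (.br (Nat.shiftLeft (nat_lit 0x1800002003804805807) (nat_lit 65)) (.one (nat_lit 0x300000400700900b00d800e072c1601a611)) (.br (Nat.shiftLeft (nat_lit 0x3000005) (nat_lit 112)) (.one (nat_lit 0x300000400700900b00e800e072c1601c611))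 (.one (nat_lit 0x300000500700900b00da00e072c1601a611)))) (.br (Nat.shiftLeft (nat_lit 0x1) (nat_lit 138)) (.one (nat_lit 0x300000600700900b00dc00e072c1601a611)) (.br (Nat.shiftLeft (nat_lit 0x2000001) (nat_lit 113)) (.one (nat_lit 0x400000100700900b00d200e09301601a611)) (.one (nat_lit 0x400000200700900b00d400e09301601a611))))) (.br (Nat.shiftLeft (nat_lit 0x1000001) (nat_lit 114)) (.br (Nat.shiftLeft (nat_lit 0x4000003) (nat_lit 112)) (.one (nat_lit 0x400000200700900b00e400e09301601c611)) (.br (Nat.shiftLeft (nat_lit 0x2000001803804805807) (nat_lit 65)) (.one (nat_lit 0x400000300700900b00d600e09301601a611)) (.one (nat_lit 0x400000300700900b00e600e09301601c611)))) (.br (Nat.shiftLeft (nat_lit 0x4000005) (nat_lit 112)) (.br (Nat.shiftLeft (nat_lit 0x2000002003804805807) (nat_lit 65)) (.one (nat_lit 0x400000400700900b00d800e09301601a611)) (.one (nat_lit 0x400000400700900b00e800e09301601c611))) (.br (Nat.shiftLeft (nat_lit 0x2000003) (nat_lit 113)) (.one (nat_lit 0x400000500700900b00da00e09301601a611)) (.one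 (nat_lit 0x400000600700900b00dc00e09301601a611)))))))
def t238 : k238.all (jb2 57 fl b0) = true := by decide +kernel
noncomputable def k239 : KT := (.br (Nat.shiftLeft (nat_lit 0x5000003) (nat_lit 112)) (.br (Nat.shiftLeft (nat_lit 0x2800001) (nat_lit 113)) (.one (nat_lit 0x500000100700900b00d200e0b341601a611)) (.br (Nat.shiftLeft (nat_lit 0x2800001003804805807) (nat_lit 65)) (.one (nat_lit 0x500000200700900b00d400e0b341601a611)) (.one (nat_lit 0x500000200700900b00e400e0b341601c611)))) (.br (Nat.shiftLeft (nat_lit 0x2800001803804805807) (nat_lit 65)) (.one (nat_lit 0x500000300700900b00d600e0b341601a611)) (.br (Nat.shiftLeft (nat_lit 0x1400001) (nat_lit 114)) (.one (nat_lit 0x500000300700900b00e600e0b341601c611)) (.one (nat_lit 0x500000400700900b00d800e0b341601a611)))))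
def t239 : k239.all (jb2 57 fl b0) = true := by decide +kernel
noncomputable def k240 : KT := (.br (Nat.shiftLeft (nat_lit 0x3) (nat_lit 137)) (.br (Nat.shiftLeft (nat_lit 0x5000005) (nat_lit 112)) (.one (nat_lit 0x500000400700900b00e800e0b341601c611)) (.br (Nat.shiftLeft (nat_lit 0x2800003) (nat_lit 113)) (.one (nat_lit 0x500000500700900b00da00e0b341601a611)) (.one (nat_lit 0x500000600700900b00dc00e0b341601a611)))) (.br (Nat.shiftLeft (nat_lit 0x3000001) (nat_lit 113)) (.one (nat_lit 0x600000100700900b00d200e0d381601a611)) (.br (Nat.shiftLeft (nat_lit 0x3000001003804805807) (nat_lit 65)) (.one (nat_lit 0x600000200700900b00d400e0d381601a611)) (.one (nat_lit 0x600000200700900b00e400e0d381601c611)))))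
def t240 : k240.all (jb2 57 fl b0) = true := by decide +kernel
noncomputable def k241 : KT := (.br (Nat.shiftLeft (nat_lit 0x6000005) (nat_lit 112)) (.br (Nat.shiftLeft (nat_lit 0x1800001) (nat_lit 114)) (.br (Nat.shiftLeft (nat_lit 0x3000001803804805807) (nat_lit 65)) (.one (nat_lit 0x600000300700900b00d600e0d381601a611)) (.one (nat_lit 0x600000300700900b00e600e0d381601c611))) (.br (Nat.shiftLeft (nat_lit 0x3000002003804805807) (nat_lit 65)) (.one (nat_lit 0x600000400700900b00d800e0d381601a611)) (.one (nat_lit 0x600000400700900b00e800e0d381601c611)))) (.br (Nat.shiftLeft (nat_lit 0x7) (nat_lit 136)) (.br (Nat.shiftLeft (nat_lit 0x3000003) (nat_lit 113)) (.one (nat_lit 0x600000500700900b00da00e0d381601a611)) (.one (nat_lit 0x600000600700900b00dc00e0d381601a611))) (.br (Nat.shiftLeft (nat_lit 0x3800001) (nat_lit 113)) (.one (nat_lit 0x700000100700900b00d200e0f3c1601a611)) (.one (nat_lit 0x700000200700900b00d400e0f3c1601a611)))))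
def t241 : k241.all (jb2 57 fl b0) = true := by decide +kernel
noncomputable def k242 : KT := (.br (Nat.shiftLeft (nat_lit 0x1) (nat_lit 139)) (.br (Nat.shiftLeft (nat_lit 0x1c00001) (nat_lit 114)) (.br (Nat.shiftLeft (nat_lit 0x7000003) (nat_lit 112)) (.one (nat_lit 0x700000200700900b00e400e0f3c1601c611)) (.br (Nat.shiftLeft (nat_lit 0x3800001803804805807) (nat_lit 65)) (.one (nat_lit 0x700000300700900b00d600e0f3c1601a611)) (.one (nat_lit 0x700000300700900b00e600e0f3c1601c611)))) (.br (Nat.shiftLeft (nat_lit 0x7000005) (nat_lit 112)) (.br (Nat.shiftLeft (nat_lit 0x3800002003804805807) (nat_lit 65)) (.one (nat_lit 0x700000400700900b00d800e0f3c1601a611)) (.one (nat_lit 0x700000400700900b00e800e0f3c1601c611))) (.br (Nat.shiftLeft (nat_lit 0x3800003) (nat_lit 113)) (.one (nat_lit 0x700000500700900b00da00e0f3c1601a611)) (.one (nat_lit 0x700000600700900b00dc00e0f3c1601a611))))) (.br (Nat.shiftLeft (nat_lit 0x8000003) (nat_lit 112)) (.br (Nat.shiftLeft (nat_lit 0x4000001) (nat_lit 113)) (.one (nat_lit 0x800000100700900b00d200e11401601a611))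 (.br (Nat.shiftLeft (nat_lit 0x4000001003804805807) (nat_lit 65)) (.one (nat_lit 0x800000200700900b00d400e11401601a611)) (.one (nat_lit 0x800000200700900b00e400e11401601c611)))) (.br (Nat.shiftLeft (nat_lit 0x2000001) (nat_lit 114)) (.br (Nat.shiftLeft (nat_lit 0x4000001803804805807) (nat_lit 65)) (.one (nat_lit 0x800000300700900b00d600e11401601a611)) (.one (nat_lit 0x800000300700900b00e600e11401601c611))) (.br (Nat.shiftLeft (nat_lit 0x4000002003804805807) (nat_lit 65)) (.one (nat_lit 0x800000400700900b00d800e11401601a611)) (.one (nat_lit 0x800000400700900b00e800e11401601c611))))))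
def t242 : k242.all (jb2 57 fl b0) = true := by decide +kernel
noncomputable def k243 : KT := (.br (Nat.shiftLeft (nat_lit 0xa000003) (nat_lit 112)) (.br (Nat.shiftLeft (nat_lit 0x2400001) (nat_lit 114)) (.br (Nat.shiftLeft (nat_lit 0x4800001) (nat_lit 113)) (.br (Nat.shiftLeft (nat_lit 0x4000003) (nat_lit 113)) (.one (nat_lit 0x800000500700900b00da00e11401601a611)) (.br (Nat.shiftLeft (nat_lit 0x9) (nat_lit 136)) (.one (nat_lit 0x800000600700900b00dc00e11401601a611)) (.one (nat_lit 0x900000100700900b00d200e13441601a611)))) (.br (Nat.shiftLeft (nat_lit 0x9000003) (nat_lit 112)) (.br (Nat.shiftLeft (nat_lit 0x4800001003804805807) (nat_lit 65)) (.one (nat_lit 0x900000200700900b00d400e13441601a611)) (.one (nat_lit 0x900000200700900b00e400e13441601c611))) (.br (Nat.shiftLeft (nat_lit 0x4800001803804805807) (nat_lit 65)) (.one (nat_lit 0x900000300700900b00d600e13441601a611)) (.one (nat_lit 0x900000300700900b00e600e13441601c611))))) (.br (Nat.shiftLeft (nat_lit 0x4800003) (nat_lit 113)) (.br (Nat.shiftLeft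 (nat_lit 0x4800002003804805807) (nat_lit 65)) (.one (nat_lit 0x900000400700900b00d800e13441601a611)) (.br (Nat.shiftLeft (nat_lit 0x9000005) (nat_lit 112)) (.one (nat_lit 0x900000400700900b00e800e13441601c611)) (.one (nat_lit 0x900000500700900b00da00e13441601a611)))) (.br (Nat.shiftLeft (nat_lit 0x5000001) (nat_lit 113)) (.br (Nat.shiftLeft (nat_lit 0x5) (nat_lit 137)) (.one (nat_lit 0x900000600700900b00dc00e13441601a611)) (.one (nat_lit 0xa00000100700900b00d200e15481601a611))) (.br (Nat.shiftLeft (nat_lit 0x5000001003804805807) (nat_lit 65)) (.one (nat_lit 0xa00000200700900b00d400e15481601a611)) (.one (nat_lit 0xa00000200700900b00e400e15481601c611)))))) (.br (Nat.shiftLeft (nat_lit 0x5800001) (nat_lit 113)) (.br (Nat.shiftLeft (nat_lit 0x5000002003804805807) (nat_lit 65)) (.br (Nat.shiftLeft (nat_lit 0x5000001803804805807) (nat_lit 65)) (.one (nat_lit 0xa00000300700900b00d600e15481601a611)) (.br (Nat.shiftLeft (nat_lit 0x2800001) (nat_lit 114)) (.one (nat_lit 0xa00000300700900b00e600e15481601c611))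 (.one (nat_lit 0xa00000400700900b00d800e15481601a611)))) (.br (Nat.shiftLeft (nat_lit 0x5000003) (nat_lit 113)) (.br (Nat.shiftLeft (nat_lit 0xa000005) (nat_lit 112)) (.one (nat_lit 0xa00000400700900b00e800e15481601c611)) (.one (nat_lit 0xa00000500700900b00da00e15481601a611))) (.br (Nat.shiftLeft (nat_lit 0xb) (nat_lit 136)) (.one (nat_lit 0xa00000600700900b00dc00e15481601a611)) (.one (nat_lit 0xb00000100700900b00d200e174c1601a611))))) (.br (Nat.shiftLeft (nat_lit 0x2c00001) (nat_lit 114)) (.br (Nat.shiftLeft (nat_lit 0xb000003) (nat_lit 112)) (.br (Nat.shiftLeft (nat_lit 0x5800001003804805807) (nat_lit 65)) (.one (nat_lit 0xb00000200700900b00d400e174c1601a611)) (.one (nat_lit 0xb00000200700900b00e400e174c1601c611))) (.br (Nat.shiftLeft (nat_lit 0x5800001803804805807) (nat_lit 65)) (.one (nat_lit 0xb00000300700900b00d600e174c1601a611)) (.one (nat_lit 0xb00000300700900b00e600e174c1601c611)))) (.br (Nat.shiftLeft (nat_lit 0xb000005) (nat_lit 112)) (.br (Nat.shiftLeft (nat_lit 0x5800002003804805807) (nat_lit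 65)) (.one (nat_lit 0xb00000400700900b00d800e174c1601a611)) (.one (nat_lit 0xb00000400700900b00e800e174c1601c611))) (.br (Nat.shiftLeft (nat_lit 0x5800003) (nat_lit 113)) (.one (nat_lit 0xb00000500700900b00da00e174c1601a611)) (.one (nat_lit 0xb00000600700900b00dc00e174c1601a611)))))))
def t243 : k243.all (jb2 57 fl b0) = true := by decide +kernel
noncomputable def s12 : KT := (.br (nat_lit 0x300000700900b00e000e012076c1c511) (.br (nat_lit 0x100200700900b00e400e01203641c760) (.br (nat_lit 0x600700900b00dc00e01201601b600) (.br (nat_lit 0x500700900b00da00e01201601b600) k224 k225) (.br (nat_lit 0x100000700900b00e000e01203641c511) k226 (.br (nat_lit 0x100200700900b00d400e01203641a760) k227 k228))) (.br (nat_lit 0x100500700900b00da00e01203641a760) (.br (nat_lit 0x100300700900b00e600e01203641c760) k229 k230) (.br (nat_lit 0x200300700900b00d600e01205681a760) k231 (.br (nat_lit 0x200400700900b00d800e01205681a760) k232 k233)))) (.br (nat_lit 0x400000600700900b00dc00e09301601a611) (.br (nat_lit 0x500000700900b00d000e0120b741a511)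 (.br (nat_lit 0x300500700900b00da00e012076c1a760) k234 k235) (.br (nat_lit 0x700000700900b00d000e0120f7c1a511) k236 (.br (nat_lit 0x200000100700900b00d200e05281601a611) k237 k238))) (.br (nat_lit 0x600000200700900b00e400e0d381601c611) (.br (nat_lit 0x500000400700900b00d800e0b341601a611) k239 k240) (.br (nat_lit 0x700000200700900b00d400e0f3c1601a611) k241 (.br (nat_lit 0x800000400700900b00e800e11401601c611) k242 k243)))))
noncomputable def u12 : KT := (.br (Nat.shiftLeft (nat_lit 0x3804805807) (nat_lit 65)) (.one (nat_lit 0x700900b00d000e01201601a540)) (.one (nat_lit 0x700900b00e000e01201601c540)))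
def w12 : u12.all (wj 57 s12) = true := by decide +kernel
def o12 : OkW 57 (jb2 57 fl) u12 := .lift s12 _ (.br _ _ _ (.br _ _ _ (.br _ _ _ (.br _ _ _ (.leaf b0 k224 t224) (.leaf b0 k225 t225)) (.br _ _ _ (.leaf b0 k226 t226) (.br _ _ _ (.leaf b0 k227 t227) (.leaf b0 k228 t228)))) (.br _ _ _ (.br _ _ _ (.leaf b0 k229 t229) (.leaf b0 k230 t230)) (.br _ _ _ (.leaf b0 k231 t231) (.br _ _ _ (.leaf b0 k232 t232) (.leaf b0 k233 t233))))) (.br _ _ _ (.br _ _ _ (.br _ _ _ (.leaf b0 k234 t234) (.leaf b0 k235 t235)) (.br _ _ _ (.leaf b0 k236 t236) (.br _ _ _ (.leaf b0 k237 t237) (.leaf b0 k238 t238)))) (.br _ _ _ (.br _ _ _ (.leaf b0 k239 t239) (.leaf b0 k240 t240)) (.br _ _ _ (.leaf b0 k241 t241) (.br _ _ _ (.leaf b0 k242 t242) (.leaf b0 k243 t243)))))) w12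
noncomputable def k244 : KT := (.br (Nat.shiftLeft (nat_lit 0x700900b011) (nat_lit 64)) (.br (Nat.shiftLeft (nat_lit 0x700900b01) (nat_lit 68)) (.one (nat_lit 0x700900b00f000e01201601f500)) (.one (nat_lit 0x700900b010000e012016021500))) (.br (Nat.shiftLeft (nat_lit 0x1c02403) (nat_lit 78)) (.one (nat_lit 0x700900b011000e012016023500)) (.br (Nat.shiftLeft (nat_lit 0x1) (nat_lit 112)) (.one (nat_lit 0x700900c00d000e01201801b500)) (.one (nat_lit 0x100700900b00f200e01201601e650)))))
def t244 : k244.all (jb2 57 fl b0) = true := by decide +kernel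
noncomputable def k245 : KT := (.br (Nat.shiftLeft (nat_lit 0x100700900b011) (nat_lit 64)) (.one (nat_lit 0x100700900b010200e012016020650)) (.one (nat_lit 0x100700900b011200e012016022650)))
def t245 : k245.all (jb2 57 fl b0) = true := by decide +kernel
noncomputable def k246 : KT := (.one (nat_lit 0x100700900c00d200e01201801a650))
def t246 : k246.all (jb2 57 fl b0) = true := by decide +kernel
noncomputable def k247 : KT := (.one (nat_lit 0x200700900b00f400e01201601e650))
def t247 : k247.all (jb2 57 fl b0) = true := by decide +kernel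
noncomputable def k248 : KT := (.br (Nat.shiftLeft (nat_lit 0x200700900b011) (nat_lit 64)) (.one (nat_lit 0x200700900b010400e012016020650)) (.br (Nat.shiftLeft (nat_lit 0x801c02403) (nat_lit 78)) (.one (nat_lit 0x200700900b011400e012016022650)) (.one (nat_lit 0x200700900c00d400e01201801b600))))
def t248 : k248.all (jb2 57 fl b0) = true := by decide +kernel
noncomputable def k249 : KT := (.one (nat_lit 0x300700900b00f600e01201601e650))
def t249 : k249.all (jb2 57 fl b0) = true := by decide +kernel
noncomputable def k250 : KT := (.br (Nat.shiftLeft (nat_lit 0x300700900b011) (nat_lit 64)) (.one (nat_lit 0x300700900b010600e012016020650)) (.br (Nat.shiftLeft (nat_lit 0xc01c02403) (nat_lit 78)) (.one (nat_lit 0x300700900b011600e012016022650)) (.one (nat_lit 0x300700900c00d600e01201801b600))))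
def t250 : k250.all (jb2 57 fl b0) = true := by decide +kernel
noncomputable def k251 : KT := (.one (nat_lit 0x400700900b00f800e01201601e650))
def t251 : k251.all (jb2 57 fl b0) = true := by decide +kernel
noncomputable def k252 : KT := (.br (Nat.shiftLeft (nat_lit 0x400700900b011) (nat_lit 64)) (.one (nat_lit 0x400700900b010800e012016020650)) (.br (Nat.shiftLeft (nat_lit 0x1001c02403) (nat_lit 78)) (.one (nat_lit 0x400700900b011800e012016022650)) (.one (nat_lit 0x400700900c00d800e01201801b600))))
def t252 : k252.all (jb2 57 fl b0) = true := by decide +kernel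
noncomputable def k253 : KT := (.one (nat_lit 0x500700900b00fa00e01201601e650))
def t253 : k253.all (jb2 57 fl b0) = true := by decide +kernel
noncomputable def k254 : KT := (.br (Nat.shiftLeft (nat_lit 0x500700900b011) (nat_lit 64)) (.one (nat_lit 0x500700900b010a00e012016020650)) (.one (nat_lit 0x500700900b011a00e012016022650)))
def t254 : k254.all (jb2 57 fl b0) = true := by decide +kernel
noncomputable def k255 : KT := (.one (nat_lit 0x500700900c00da00e01201801a650))
def t255 : k255.all (jb2 57 fl b0) = true := by decide +kernel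
noncomputable def k256 : KT := (.br (Nat.shiftLeft (nat_lit 0x600700900b01) (nat_lit 68)) (.one (nat_lit 0x600700900b00fc00e01201601e650)) (.br (Nat.shiftLeft (nat_lit 0x600700900b011) (nat_lit 64)) (.one (nat_lit 0x600700900b010c00e012016020650)) (.one (nat_lit 0x600700900b011c00e012016022650))))
def t256 : k256.all (jb2 57 fl b0) = true := by decide +kernel
noncomputable def k257 : KT := (.br (Nat.shiftLeft (nat_lit 0x100000700900b01) (nat_lit 68)) (.br (Nat.shiftLeft (nat_lit 0x1) (nat_lit 124)) (.one (nat_lit 0x600700900c00dc00e01201801a650)) (.one (nat_lit 0x100000700900b00f000e01203641e511))) (.br (Nat.shiftLeft (nat_lit 0x100000700900b011) (nat_lit 64)) (.one (nat_lit 0x100000700900b010000e012036420511)) (.br (Nat.shiftLeft (nat_lit 0x400001c02403) (nat_lit 78)) (.one (nat_lit 0x100000700900b011000e012036422511)) (.one (nat_lit 0x100000700900c00d000e01203841a511)))))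
def t257 : k257.all (jb2 57 fl b0) = true := by decide +kernel
noncomputable def k258 : KT := (.br (Nat.shiftLeft (nat_lit 0x1003) (nat_lit 112)) (.one (nat_lit 0x100200700900c00d400e01203841a760)) (.one (nat_lit 0x100300700900c00d600e01203841a760)))
def t258 : k258.all (jb2 57 fl b0) = true := by decide +kernel
noncomputable def k259 : KT := (.br (Nat.shiftLeft (nat_lit 0x1001) (nat_lit 113)) (.br (Nat.shiftLeft (nat_lit 0x200000700900b01) (nat_lit 68)) (.br (Nat.shiftLeft (nat_lit 0x1) (nat_lit 125)) (.one (nat_lit 0x100400700900c00d800e01203841a760)) (.one (nat_lit 0x200000700900b00f000e01205681e511))) (.br (Nat.shiftLeft (nat_lit 0x200000700900b011) (nat_lit 64)) (.one (nat_lit 0x200000700900b010000e012056820511)) (.br (Nat.shiftLeft (nat_lit 0x800001c02403) (nat_lit 78)) (.one (nat_lit 0x200000700900b011000e012056822511)) (.one (nat_lit 0x200000700900c00d000e01205881a511))))) (.br (Nat.shiftLeft (nat_lit 0x3) (nat_lit 124)) (.br (Nat.shiftLeft (nat_lit 0x801) (nat_lit 114)) (.one (nat_lit 0x200300700900c00d600e01205881a760))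 (.one (nat_lit 0x200400700900c00d800e01205881a760))) (.br (Nat.shiftLeft (nat_lit 0x300000700900b01) (nat_lit 68)) (.one (nat_lit 0x300000700900b00f000e012076c1e511)) (.br (Nat.shiftLeft (nat_lit 0x300000700900b011) (nat_lit 64)) (.one (nat_lit 0x300000700900b010000e012076c20511)) (.one (nat_lit 0x300000700900b011000e012076c22511))))))
def t259 : k259.all (jb2 57 fl b0) = true := by decide +kernel
noncomputable def k260 : KT := (.br (Nat.shiftLeft (nat_lit 0x1000001c02403) (nat_lit 78)) (.br (Nat.shiftLeft (nat_lit 0x1) (nat_lit 126)) (.br (Nat.shiftLeft (nat_lit 0xc01) (nat_lit 114)) (.one (nat_lit 0x300000700900c00d000e012078c1a511)) (.one (nat_lit 0x300400700900c00d800e012078c1a760))) (.br (Nat.shiftLeft (nat_lit 0x400000700900b01) (nat_lit 68)) (.one (nat_lit 0x400000700900b00f000e01209701e511)) (.br (Nat.shiftLeft (nat_lit 0x400000700900b011) (nat_lit 64)) (.one (nat_lit 0x400000700900b010000e012097020511)) (.one (nat_lit 0x400000700900b011000e012097022511))))) (.br (Nat.shiftLeft (nat_lit 0x500000700900b01)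 (nat_lit 68)) (.br (Nat.shiftLeft (nat_lit 0x5) (nat_lit 124)) (.one (nat_lit 0x400000700900c00d000e01209901a511)) (.one (nat_lit 0x500000700900b00f000e0120b741e511))) (.br (Nat.shiftLeft (nat_lit 0x500000700900b011) (nat_lit 64)) (.one (nat_lit 0x500000700900b010000e0120b7420511)) (.br (Nat.shiftLeft (nat_lit 0x1400001c02403) (nat_lit 78)) (.one (nat_lit 0x500000700900b011000e0120b7422511)) (.one (nat_lit 0x500000700900c00d000e0120b941a511))))))
def t260 : k260.all (jb2 57 fl b0) = true := by decide +kernel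
noncomputable def k261 : KT := (.br (Nat.shiftLeft (nat_lit 0x7) (nat_lit 124)) (.br (Nat.shiftLeft (nat_lit 0x600000700900b011) (nat_lit 64)) (.br (Nat.shiftLeft (nat_lit 0x600000700900b01) (nat_lit 68)) (.one (nat_lit 0x600000700900b00f000e0120d781e511)) (.one (nat_lit 0x600000700900b010000e0120d7820511))) (.br (Nat.shiftLeft (nat_lit 0x1800001c02403) (nat_lit 78)) (.one (nat_lit 0x600000700900b011000e0120d7822511)) (.one (nat_lit 0x600000700900c00d000e0120d981a511)))) (.br (Nat.shiftLeft (nat_lit 0x700000700900b011) (nat_lit 64)) (.br (Nat.shiftLeft (nat_lit 0x700000700900b01) (nat_lit 68)) (.one (nat_lit 0x700000700900b00f000e0120f7c1e511)) (.one (nat_lit 0x700000700900b010000e0120f7c20511))) (.br (Nat.shiftLeft (nat_lit 0x1c00001c02403) (nat_lit 78)) (.one (nat_lit 0x700000700900b011000e0120f7c22511)) (.one (nat_lit 0x700000700900c00d000e0120f9c1a511)))))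
def t261 : k261.all (jb2 57 fl b0) = true := by decide +kernel
noncomputable def k262 : KT := (.br (Nat.shiftLeft (nat_lit 0xb00000700900b011) (nat_lit 64)) (.br (Nat.shiftLeft (nat_lit 0x2400001c02403) (nat_lit 78)) (.br (Nat.shiftLeft (nat_lit 0x2000001c02403) (nat_lit 78)) (.br (Nat.shiftLeft (nat_lit 0x800000700900b01) (nat_lit 68)) (.one (nat_lit 0x800000700900b00f000e01211801e511)) (.br (Nat.shiftLeft (nat_lit 0x800000700900b011) (nat_lit 64)) (.one (nat_lit 0x800000700900b010000e012118020511)) (.one (nat_lit 0x800000700900b011000e012118022511)))) (.br (Nat.shiftLeft (nat_lit 0x900000700900b01) (nat_lit 68)) (.br (Nat.shiftLeft (nat_lit 0x9) (nat_lit 124)) (.one (nat_lit 0x800000700900c00d000e01211a01a511)) (.one (nat_lit 0x900000700900b00f000e01213841e511))) (.br (Nat.shiftLeft (nat_lit 0x900000700900b011) (nat_lit 64)) (.one (nat_lit 0x900000700900b010000e012138420511)) (.one (nat_lit 0x900000700900b011000e012138422511))))) (.br (Nat.shiftLeft (nat_lit 0xa00000700900b011) (nat_lit 64)) (.br (Nat.shiftLeft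 (nat_lit 0x5) (nat_lit 125)) (.one (nat_lit 0x900000700900c00d000e01213a41a511)) (.br (Nat.shiftLeft (nat_lit 0xa00000700900b01) (nat_lit 68)) (.one (nat_lit 0xa00000700900b00f000e01215881e511)) (.one (nat_lit 0xa00000700900b010000e012158820511)))) (.br (Nat.shiftLeft (nat_lit 0xb) (nat_lit 124)) (.br (Nat.shiftLeft (nat_lit 0x2800001c02403) (nat_lit 78)) (.one (nat_lit 0xa00000700900b011000e012158822511)) (.one (nat_lit 0xa00000700900c00d000e01215a81a511))) (.br (Nat.shiftLeft (nat_lit 0xb00000700900b01) (nat_lit 68)) (.one (nat_lit 0xb00000700900b00f000e012178c1e511)) (.one (nat_lit 0xb00000700900b010000e012178c20511)))))) (.br (Nat.shiftLeft (nat_lit 0x2000003) (nat_lit 112)) (.br (Nat.shiftLeft (nat_lit 0x1) (nat_lit 136)) (.br (Nat.shiftLeft (nat_lit 0x2c00001c02403) (nat_lit 78)) (.one (nat_lit 0xb00000700900b011000e012178c22511)) (.br (Nat.shiftLeft (nat_lit 0x3) (nat_lit 126)) (.one (nat_lit 0xb00000700900c00d000e01217ac1a511)) (.one (nat_lit 0xc00000700900c00d000e01219b01a511)))) (.br (Nat.shiftLeft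 (nat_lit 0x400001) (nat_lit 114)) (.br (Nat.shiftLeft (nat_lit 0x1000003) (nat_lit 112)) (.one (nat_lit 0x100000200700900c00d400e03241801a611)) (.one (nat_lit 0x100000300700900c00d600e03241801a611))) (.br (Nat.shiftLeft (nat_lit 0x1) (nat_lit 137)) (.one (nat_lit 0x100000400700900c00d800e03241801a611)) (.one (nat_lit 0x200000200700900c00d400e05281801a611))))) (.br (Nat.shiftLeft (nat_lit 0x3000003) (nat_lit 112)) (.br (Nat.shiftLeft (nat_lit 0x800001) (nat_lit 114)) (.one (nat_lit 0x200000300700900c00d600e05281801a611)) (.br (Nat.shiftLeft (nat_lit 0x3) (nat_lit 136)) (.one (nat_lit 0x200000400700900c00d800e05281801a611)) (.one (nat_lit 0x300000200700900c00d400e072c1801a611)))) (.br (Nat.shiftLeft (nat_lit 0x1) (nat_lit 138)) (.br (Nat.shiftLeft (nat_lit 0xc00001) (nat_lit 114)) (.one (nat_lit 0x300000300700900c00d600e072c1801a611)) (.one (nat_lit 0x300000400700900c00d800e072c1801a611))) (.br (Nat.shiftLeft (nat_lit 0x4000003) (nat_lit 112)) (.one (nat_lit 0x400000200700900c00d400e09301801a611)) (.one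 (nat_lit 0x400000300700900c00d600e09301801a611)))))))
def t262 : k262.all (jb2 57 fl b0) = true := by decide +kernel
noncomputable def k263 : KT := (.br (Nat.shiftLeft (nat_lit 0x7) (nat_lit 136)) (.br (Nat.shiftLeft (nat_lit 0x1400001) (nat_lit 114)) (.br (Nat.shiftLeft (nat_lit 0x5) (nat_lit 136)) (.one (nat_lit 0x400000400700900c00d800e09301801a611)) (.br (Nat.shiftLeft (nat_lit 0x5000003) (nat_lit 112)) (.one (nat_lit 0x500000200700900c00d400e0b341801a611)) (.one (nat_lit 0x500000300700900c00d600e0b341801a611)))) (.br (Nat.shiftLeft (nat_lit 0x6000003) (nat_lit 112)) (.br (Nat.shiftLeft (nat_lit 0x3) (nat_lit 137)) (.one (nat_lit 0x500000400700900c00d800e0b341801a611)) (.one (nat_lit 0x600000200700900c00d400e0d381801a611))) (.br (Nat.shiftLeft (nat_lit 0x1800001) (nat_lit 114)) (.one (nat_lit 0x600000300700900c00d600e0d381801a611)) (.one (nat_lit 0x600000400700900c00d800e0d381801a611))))) (.br (Nat.shiftLeft (nat_lit 0x1) (nat_lit 139)) (.br (Nat.shiftLeft (nat_lit 0x7000003) (nat_lit 112)) (.one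 (nat_lit 0x700000200700900c00d400e0f3c1801a611)) (.br (Nat.shiftLeft (nat_lit 0x1c00001) (nat_lit 114)) (.one (nat_lit 0x700000300700900c00d600e0f3c1801a611)) (.one (nat_lit 0x700000400700900c00d800e0f3c1801a611)))) (.br (Nat.shiftLeft (nat_lit 0x2000001) (nat_lit 114)) (.br (Nat.shiftLeft (nat_lit 0x8000003) (nat_lit 112)) (.one (nat_lit 0x800000200700900c00d400e11401801a611)) (.one (nat_lit 0x800000300700900c00d600e11401801a611))) (.br (Nat.shiftLeft (nat_lit 0x9) (nat_lit 136)) (.one (nat_lit 0x800000400700900c00d800e11401801a611)) (.one (nat_lit 0x900000200700900c00d400e13441801a611))))))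
def t263 : k263.all (jb2 57 fl b0) = true := by decide +kernel
noncomputable def k264 : KT := (.br (Nat.shiftLeft (nat_lit 0xb) (nat_lit 136)) (.br (Nat.shiftLeft (nat_lit 0x5) (nat_lit 137)) (.br (Nat.shiftLeft (nat_lit 0x2400001) (nat_lit 114)) (.one (nat_lit 0x900000300700900c00d600e13441801a611)) (.one (nat_lit 0x900000400700900c00d800e13441801a611))) (.br (Nat.shiftLeft (nat_lit 0xa000003) (nat_lit 112)) (.one (nat_lit 0xa00000200700900c00d400e15481801a611)) (.br (Nat.shiftLeft (nat_lit 0x2800001) (nat_lit 114)) (.one (nat_lit 0xa00000300700900c00d600e15481801a611)) (.one (nat_lit 0xa00000400700900c00d800e15481801a611))))) (.br (Nat.shiftLeft (nat_lit 0x3) (nat_lit 138)) (.br (Nat.shiftLeft (nat_lit 0xb000003) (nat_lit 112)) (.one (nat_lit 0xb00000200700900c00d400e174c1801a611)) (.br (Nat.shiftLeft (nat_lit 0x2c00001) (nat_lit 114)) (.one (nat_lit 0xb00000300700900c00d600e174c1801a611)) (.one (nat_lit 0xb00000400700900c00d800e174c1801a611)))) (.br (Nat.shiftLeft (nat_lit 0xc000003) (nat_lit 112))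 (.one (nat_lit 0xc00000200700900c00d400e19501801a611)) (.br (Nat.shiftLeft (nat_lit 0x3000001) (nat_lit 114)) (.one (nat_lit 0xc00000300700900c00d600e19501801a611)) (.one (nat_lit 0xc00000400700900c00d800e19501801a611))))))
def t264 : k264.all (jb2 57 fl b0) = true := by decide +kernel
noncomputable def s13 : KT := (.br (nat_lit 0x500700900b00fa00e01201601e650) (.br (nat_lit 0x200700900c00d400e01201801b600) (.br (nat_lit 0x100700900b011200e012016022650) (.br (nat_lit 0x100700900b00f200e01201601e650) k244 k245) (.br (nat_lit 0x100700900c00d200e01201801a650) k246 (.br (nat_lit 0x200700900b00f400e01201601e650) k247 k248))) (.br (nat_lit 0x300700900c00d600e01201801b600) (.br (nat_lit 0x300700900b00f600e01201601e650) k249 k250) (.br (nat_lit 0x400700900b00f800e01201601e650) k251 (.br (nat_lit 0x400700900c00d800e01201801b600) k252 k253)))) (.br (nat_lit 0x100300700900c00d600e01203841a760) (.br (nat_lit 0x500700900c00da00e01201801a650) (.br (nat_lit 0x500700900b011a00e012016022650) k254 k255) (.br (nat_lit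 0x600700900b011c00e012016022650) k256 (.br (nat_lit 0x100000700900c00d000e01203841a511) k257 k258))) (.br (nat_lit 0x700000700900c00d000e0120f9c1a511) (.br (nat_lit 0x300000700900b011000e012076c22511) k259 (.br (nat_lit 0x500000700900c00d000e0120b941a511) k260 k261)) (.br (nat_lit 0x400000300700900c00d600e09301801a611) k262 (.br (nat_lit 0x900000200700900c00d400e13441801a611) k263 k264)))))
noncomputable def u13 : KT := (.br (Nat.shiftLeft (nat_lit 0x700900b011) (nat_lit 64)) (.br (Nat.shiftLeft (nat_lit 0x700900b01) (nat_lit 68)) (.one (nat_lit 0x700900b00f000e01201601e540)) (.one (nat_lit 0x700900b010000e012016020540))) (.br (Nat.shiftLeft (nat_lit 0x1c02403) (nat_lit 78)) (.one (nat_lit 0x700900b011000e012016022540)) (.one (nat_lit 0x700900c00d000e01201801a540))))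
def w13 : u13.all (wj 57 s13) = true := by decide +kernel
def o13 : OkW 57 (jb2 57 fl) u13 := .lift s13 _ (.br _ _ _ (.br _ _ _ (.br _ _ _ (.br _ _ _ (.leaf b0 k244 t244) (.leaf b0 k245 t245)) (.br _ _ _ (.leaf b0 k246 t246) (.br _ _ _ (.leaf b0 k247 t247) (.leaf b0 k248 t248)))) (.br _ _ _ (.br _ _ _ (.leaf b0 k249 t249) (.leaf b0 k250 t250)) (.br _ _ _ (.leaf b0 k251 t251) (.br _ _ _ (.leaf b0 k252 t252) (.leaf b0 k253 t253))))) (.br _ _ _ (.br _ _ _ (.br _ _ _ (.leaf b0 k254 t254) (.leaf b0 k255 t255)) (.br _ _ _ (.leaf b0 k256 t256) (.br _ _ _ (.leaf b0 k257 t257) (.leaf b0 k258 t258)))) (.br _ _ _ (.br _ _ _ (.leaf b0 k259 t259) (.br _ _ _ (.leaf b0 k260 t260) (.leaf b0 k261 t261))) (.br _ _ _ (.leaf b0 k262 t262) (.br _ _ _ (.leaf b0 k263 t263) (.leaf b0 k264 t264)))))) w13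
noncomputable def k265 : KT := (.br (Nat.shiftLeft (nat_lit 0x700900d) (nat_lit 76)) (.br (Nat.shiftLeft (nat_lit 0x700900c00f) (nat_lit 64)) (.one (nat_lit 0x700900c00e000e01201801d500)) (.br (Nat.shiftLeft (nat_lit 0x700900c01) (nat_lit 68)) (.one (nat_lit 0x700900c00f000e01201801f500)) (.one (nat_lit 0x700900c010000e012018021500)))) (.br (Nat.shiftLeft (nat_lit 0x700900d00f) (nat_lit 64)) (.one (nat_lit 0x700900d00e000e01201a01d500)) (.br (Nat.shiftLeft (nat_lit 0x1) (nat_lit 112)) (.one (nat_lit 0x700900d00f000e01201a01f500)) (.one (nat_lit 0x100700900c00e200e01201801c650)))))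
def t265 : k265.all (jb2 57 fl b0) = true := by decide +kernel
noncomputable def k266 : KT := (.br (Nat.shiftLeft (nat_lit 0x100700900c01) (nat_lit 68)) (.one (nat_lit 0x100700900c00f200e01201801e650)) (.one (nat_lit 0x100700900c010200e012018020650)))
def t266 : k266.all (jb2 57 fl b0) = true := by decide +kernel
noncomputable def k267 : KT := (.br (Nat.shiftLeft (nat_lit 0x100700900d00f) (nat_lit 64)) (.one (nat_lit 0x100700900d00e200e01201a01c650)) (.one (nat_lit 0x100700900d00f200e01201a01e650)))
def t267 : k267.all (jb2 57 fl b0) = true := by decide +kernel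
noncomputable def k268 : KT := (.one (nat_lit 0x200700900c00e400e01201801c650))
def t268 : k268.all (jb2 57 fl b0) = true := by decide +kernel
noncomputable def k269 : KT := (.br (Nat.shiftLeft (nat_lit 0x200700900c01) (nat_lit 68)) (.one (nat_lit 0x200700900c00f400e01201801e650)) (.one (nat_lit 0x200700900c010400e012018020650)))
def t269 : k269.all (jb2 57 fl b0) = true := by decide +kernel
noncomputable def k270 : KT := (.br (Nat.shiftLeft (nat_lit 0x200700900d00f) (nat_lit 64)) (.one (nat_lit 0x200700900d00e400e01201a01c650)) (.one (nat_lit 0x200700900d00f400e01201a01e650)))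
def t270 : k270.all (jb2 57 fl b0) = true := by decide +kernel
noncomputable def k271 : KT := (.one (nat_lit 0x300700900c00e600e01201801c650))
def t271 : k271.all (jb2 57 fl b0) = true := by decide +kernel
noncomputable def k272 : KT := (.br (Nat.shiftLeft (nat_lit 0x300700900c01) (nat_lit 68)) (.one (nat_lit 0x300700900c00f600e01201801e650)) (.one (nat_lit 0x300700900c010600e012018020650)))
def t272 : k272.all (jb2 57 fl b0) = true := by decide +kernel
noncomputable def k273 : KT := (.br (Nat.shiftLeft (nat_lit 0x300700900d00f) (nat_lit 64)) (.one (nat_lit 0x300700900d00e600e01201a01c650)) (.one (nat_lit 0x300700900d00f600e01201a01e650)))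
def t273 : k273.all (jb2 57 fl b0) = true := by decide +kernel
noncomputable def k274 : KT := (.one (nat_lit 0x400700900c00e800e01201801c650))
def t274 : k274.all (jb2 57 fl b0) = true := by decide +kernel
noncomputable def k275 : KT := (.br (Nat.shiftLeft (nat_lit 0x400700900c01) (nat_lit 68)) (.one (nat_lit 0x400700900c00f800e01201801e650)) (.one (nat_lit 0x400700900c010800e012018020650)))
def t275 : k275.all (jb2 57 fl b0) = true := by decide +kernel
noncomputable def k276 : KT := (.br (Nat.shiftLeft (nat_lit 0x400700900d00f) (nat_lit 64)) (.one (nat_lit 0x400700900d00e800e01201a01c650)) (.one (nat_lit 0x400700900d00f800e01201a01e650)))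
def t276 : k276.all (jb2 57 fl b0) = true := by decide +kernel
noncomputable def k277 : KT := (.one (nat_lit 0x500700900c00ea00e01201801c650))
def t277 : k277.all (jb2 57 fl b0) = true := by decide +kernel
noncomputable def k278 : KT := (.br (Nat.shiftLeft (nat_lit 0x500700900c01) (nat_lit 68)) (.one (nat_lit 0x500700900c00fa00e01201801e650)) (.one (nat_lit 0x500700900c010a00e012018020650)))
def t278 : k278.all (jb2 57 fl b0) = true := by decide +kernel
noncomputable def k279 : KT := (.br (Nat.shiftLeft (nat_lit 0x500700900d00f) (nat_lit 64)) (.one (nat_lit 0x500700900d00ea00e01201a01c650)) (.one (nat_lit 0x500700900d00fa00e01201a01e650)))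
def t279 : k279.all (jb2 57 fl b0) = true := by decide +kernel
noncomputable def k280 : KT := (.br (Nat.shiftLeft (nat_lit 0x600700900c00f) (nat_lit 64)) (.one (nat_lit 0x600700900c00ec00e01201801c650)) (.br (Nat.shiftLeft (nat_lit 0x600700900c01) (nat_lit 68)) (.one (nat_lit 0x600700900c00fc00e01201801e650)) (.one (nat_lit 0x600700900c010c00e012018020650))))
def t280 : k280.all (jb2 57 fl b0) = true := by decide +kernel
noncomputable def k281 : KT := (.br (Nat.shiftLeft (nat_lit 0x200000700900d00f) (nat_lit 64)) (.br (Nat.shiftLeft (nat_lit 0x100000700900d) (nat_lit 76)) (.br (Nat.shiftLeft (nat_lit 0x1) (nat_lit 124)) (.br (Nat.shiftLeft (nat_lit 0x600700900d00f) (nat_lit 64)) (.one (nat_lit 0x600700900d00ec00e01201a01c650)) (.one (nat_lit 0x600700900d00fc00e01201a01e650))) (.br (Nat.shiftLeft (nat_lit 0x100000700900c00f) (nat_lit 64)) (.one (nat_lit 0x100000700900c00e000e01203841c511)) (.br (Nat.shiftLeft (nat_lit 0x100000700900c01) (nat_lit 68)) (.one (nat_lit 0x100000700900c00f000e01203841e511))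 (.one (nat_lit 0x100000700900c010000e012038420511))))) (.br (Nat.shiftLeft (nat_lit 0x200000700900c00f) (nat_lit 64)) (.br (Nat.shiftLeft (nat_lit 0x100000700900d00f) (nat_lit 64)) (.one (nat_lit 0x100000700900d00e000e01203a41c511)) (.br (Nat.shiftLeft (nat_lit 0x1) (nat_lit 125)) (.one (nat_lit 0x100000700900d00f000e01203a41e511)) (.one (nat_lit 0x200000700900c00e000e01205881c511)))) (.br (Nat.shiftLeft (nat_lit 0x200000700900c01) (nat_lit 68)) (.one (nat_lit 0x200000700900c00f000e01205881e511)) (.br (Nat.shiftLeft (nat_lit 0x200000700900d) (nat_lit 76)) (.one (nat_lit 0x200000700900c010000e012058820511)) (.one (nat_lit 0x200000700900d00e000e01205a81c511)))))) (.br (Nat.shiftLeft (nat_lit 0x300000700900d00f) (nat_lit 64)) (.br (Nat.shiftLeft (nat_lit 0x300000700900c00f) (nat_lit 64)) (.br (Nat.shiftLeft (nat_lit 0x3) (nat_lit 124)) (.one (nat_lit 0x200000700900d00f000e01205a81e511)) (.one (nat_lit 0x300000700900c00e000e012078c1c511))) (.br (Nat.shiftLeft (nat_lit 0x300000700900c01) (nat_lit 68)) (.one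 (nat_lit 0x300000700900c00f000e012078c1e511)) (.br (Nat.shiftLeft (nat_lit 0x300000700900d) (nat_lit 76)) (.one (nat_lit 0x300000700900c010000e012078c20511)) (.one (nat_lit 0x300000700900d00e000e01207ac1c511))))) (.br (Nat.shiftLeft (nat_lit 0x400000700900c01) (nat_lit 68)) (.br (Nat.shiftLeft (nat_lit 0x1) (nat_lit 126)) (.one (nat_lit 0x300000700900d00f000e01207ac1e511)) (.br (Nat.shiftLeft (nat_lit 0x400000700900c00f) (nat_lit 64)) (.one (nat_lit 0x400000700900c00e000e01209901c511)) (.one (nat_lit 0x400000700900c00f000e01209901e511)))) (.br (Nat.shiftLeft (nat_lit 0x400000700900d) (nat_lit 76)) (.one (nat_lit 0x400000700900c010000e012099020511)) (.br (Nat.shiftLeft (nat_lit 0x400000700900d00f) (nat_lit 64)) (.one (nat_lit 0x400000700900d00e000e01209b01c511)) (.one (nat_lit 0x400000700900d00f000e01209b01e511)))))))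
def t281 : k281.all (jb2 57 fl b0) = true := by decide +kernel
noncomputable def k282 : KT := (.br (Nat.shiftLeft (nat_lit 0x3) (nat_lit 125)) (.br (Nat.shiftLeft (nat_lit 0x500000700900c01) (nat_lit 68)) (.br (Nat.shiftLeft (nat_lit 0x500000700900c00f) (nat_lit 64)) (.one (nat_lit 0x500000700900c00e000e0120b941c511)) (.one (nat_lit 0x500000700900c00f000e0120b941e511))) (.br (Nat.shiftLeft (nat_lit 0x500000700900d) (nat_lit 76)) (.one (nat_lit 0x500000700900c010000e0120b9420511)) (.br (Nat.shiftLeft (nat_lit 0x500000700900d00f) (nat_lit 64)) (.one (nat_lit 0x500000700900d00e000e0120bb41c511)) (.one (nat_lit 0x500000700900d00f000e0120bb41e511))))) (.br (Nat.shiftLeft (nat_lit 0x600000700900c01) (nat_lit 68)) (.br (Nat.shiftLeft (nat_lit 0x600000700900c00f) (nat_lit 64)) (.one (nat_lit 0x600000700900c00e000e0120d981c511)) (.one (nat_lit 0x600000700900c00f000e0120d981e511))) (.br (Nat.shiftLeft (nat_lit 0x600000700900d) (nat_lit 76)) (.one (nat_lit 0x600000700900c010000e0120d9820511)) (.br (Nat.shiftLeft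 (nat_lit 0x600000700900d00f) (nat_lit 64)) (.one (nat_lit 0x600000700900d00e000e0120db81c511)) (.one (nat_lit 0x600000700900d00f000e0120db81e511))))))
def t282 : k282.all (jb2 57 fl b0) = true := by decide +kernel
noncomputable def k283 : KT := (.br (Nat.shiftLeft (nat_lit 0x9) (nat_lit 124)) (.br (Nat.shiftLeft (nat_lit 0x1) (nat_lit 127)) (.br (Nat.shiftLeft (nat_lit 0x700000700900c01) (nat_lit 68)) (.br (Nat.shiftLeft (nat_lit 0x700000700900c00f) (nat_lit 64)) (.one (nat_lit 0x700000700900c00e000e0120f9c1c511)) (.one (nat_lit 0x700000700900c00f000e0120f9c1e511))) (.br (Nat.shiftLeft (nat_lit 0x700000700900d) (nat_lit 76)) (.one (nat_lit 0x700000700900c010000e0120f9c20511)) (.br (Nat.shiftLeft (nat_lit 0x700000700900d00f) (nat_lit 64)) (.one (nat_lit 0x700000700900d00e000e0120fbc1c511)) (.one (nat_lit 0x700000700900d00f000e0120fbc1e511))))) (.br (Nat.shiftLeft (nat_lit 0x800000700900c01) (nat_lit 68)) (.br (Nat.shiftLeft (nat_lit 0x800000700900c00f) (nat_lit 64)) (.one (nat_lit 0x800000700900c00e000e01211a01c511))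 (.one (nat_lit 0x800000700900c00f000e01211a01e511))) (.br (Nat.shiftLeft (nat_lit 0x800000700900d) (nat_lit 76)) (.one (nat_lit 0x800000700900c010000e01211a020511)) (.br (Nat.shiftLeft (nat_lit 0x800000700900d00f) (nat_lit 64)) (.one (nat_lit 0x800000700900d00e000e01211c01c511)) (.one (nat_lit 0x800000700900d00f000e01211c01e511)))))) (.br (Nat.shiftLeft (nat_lit 0x5) (nat_lit 125)) (.br (Nat.shiftLeft (nat_lit 0x900000700900c01) (nat_lit 68)) (.br (Nat.shiftLeft (nat_lit 0x900000700900c00f) (nat_lit 64)) (.one (nat_lit 0x900000700900c00e000e01213a41c511)) (.one (nat_lit 0x900000700900c00f000e01213a41e511))) (.br (Nat.shiftLeft (nat_lit 0x900000700900d) (nat_lit 76)) (.one (nat_lit 0x900000700900c010000e01213a420511)) (.br (Nat.shiftLeft (nat_lit 0x900000700900d00f) (nat_lit 64)) (.one (nat_lit 0x900000700900d00e000e01213c41c511)) (.one (nat_lit 0x900000700900d00f000e01213c41e511))))) (.br (Nat.shiftLeft (nat_lit 0xa00000700900d) (nat_lit 76)) (.br (Nat.shiftLeft (nat_lit 0xa00000700900c00f) (nat_lit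 64)) (.one (nat_lit 0xa00000700900c00e000e01215a81c511)) (.br (Nat.shiftLeft (nat_lit 0xa00000700900c01) (nat_lit 68)) (.one (nat_lit 0xa00000700900c00f000e01215a81e511)) (.one (nat_lit 0xa00000700900c010000e01215a820511)))) (.br (Nat.shiftLeft (nat_lit 0xa00000700900d00f) (nat_lit 64)) (.one (nat_lit 0xa00000700900d00e000e01215c81c511)) (.br (Nat.shiftLeft (nat_lit 0xb) (nat_lit 124)) (.one (nat_lit 0xa00000700900d00f000e01215c81e511)) (.one (nat_lit 0xb00000700900c00e000e01217ac1c511)))))))
def t283 : k283.all (jb2 57 fl b0) = true := by decide +kernel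
noncomputable def k284 : KT := (.br (Nat.shiftLeft (nat_lit 0xc00000700900c00f) (nat_lit 64)) (.br (Nat.shiftLeft (nat_lit 0xb00000700900d) (nat_lit 76)) (.br (Nat.shiftLeft (nat_lit 0xb00000700900c01) (nat_lit 68)) (.one (nat_lit 0xb00000700900c00f000e01217ac1e511)) (.one (nat_lit 0xb00000700900c010000e01217ac20511))) (.br (Nat.shiftLeft (nat_lit 0xb00000700900d00f) (nat_lit 64)) (.one (nat_lit 0xb00000700900d00e000e01217cc1c511)) (.br (Nat.shiftLeft (nat_lit 0x3) (nat_lit 126)) (.one (nat_lit 0xb00000700900d00f000e01217cc1e511)) (.one (nat_lit 0xc00000700900c00e000e01219b01c511))))) (.br (Nat.shiftLeft (nat_lit 0xc00000700900d00f) (nat_lit 64)) (.br (Nat.shiftLeft (nat_lit 0xc00000700900c01) (nat_lit 68)) (.one (nat_lit 0xc00000700900c00f000e01219b01e511)) (.br (Nat.shiftLeft (nat_lit 0xc00000700900d) (nat_lit 76)) (.one (nat_lit 0xc00000700900c010000e01219b020511)) (.one (nat_lit 0xc00000700900d00e000e01219d01c511)))) (.br (Nat.shiftLeft (nat_lit 0xd) (nat_lit 124)) (.one (nat_lit 0xc00000700900d00f000e01219d01e511))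 (.br (Nat.shiftLeft (nat_lit 0xd00000700900d00f) (nat_lit 64)) (.one (nat_lit 0xd00000700900d00e000e0121bd41c511)) (.one (nat_lit 0xd00000700900d00f000e0121bd41e511))))))
def t284 : k284.all (jb2 57 fl b0) = true := by decide +kernel
noncomputable def s14 : KT := (.br (nat_lit 0x400700900c00e800e01201801c650) (.br (nat_lit 0x200700900c010400e012018020650) (.br (nat_lit 0x100700900c010200e012018020650) (.br (nat_lit 0x100700900c00e200e01201801c650) k265 k266) (.br (nat_lit 0x100700900d00f200e01201a01e650) k267 (.br (nat_lit 0x200700900c00e400e01201801c650) k268 k269))) (.br (nat_lit 0x300700900c00e600e01201801c650) (.br (nat_lit 0x200700900d00f400e01201a01e650) k270 k271) (.br (nat_lit 0x300700900c010600e012018020650) k272 (.br (nat_lit 0x300700900d00f600e01201a01e650) k273 k274)))) (.br (nat_lit 0x500700900d00fa00e01201a01e650) (.br (nat_lit 0x400700900d00f800e01201a01e650) (.br (nat_lit 0x400700900c010800e012018020650) k275 k276) (.br (nat_lit 0x500700900c00ea00e01201801c650) k277 (.br (nat_lit 0x500700900c010a00e012018020650)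 k278 k279))) (.br (nat_lit 0x400000700900d00f000e01209b01e511) (.br (nat_lit 0x600700900c010c00e012018020650) k280 k281) (.br (nat_lit 0x600000700900d00f000e0120db81e511) k282 (.br (nat_lit 0xb00000700900c00e000e01217ac1c511) k283 k284)))))
noncomputable def u14 : KT := (.br (Nat.shiftLeft (nat_lit 0x700900c01) (nat_lit 68)) (.br (Nat.shiftLeft (nat_lit 0x700900c00f) (nat_lit 64)) (.one (nat_lit 0x700900c00e000e01201801c540)) (.one (nat_lit 0x700900c00f000e01201801e540))) (.br (Nat.shiftLeft (nat_lit 0x700900d) (nat_lit 76)) (.one (nat_lit 0x700900c010000e012018020540)) (.br (Nat.shiftLeft (nat_lit 0x700900d00f) (nat_lit 64)) (.one (nat_lit 0x700900d00e000e01201a01c540)) (.one (nat_lit 0x700900d00f000e01201a01e540)))))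
def w14 : u14.all (wj 57 s14) = true := by decide +kernel
def o14 : OkW 57 (jb2 57 fl) u14 := .lift s14 _ (.br _ _ _ (.br _ _ _ (.br _ _ _ (.br _ _ _ (.leaf b0 k265 t265) (.leaf b0 k266 t266)) (.br _ _ _ (.leaf b0 k267 t267) (.br _ _ _ (.leaf b0 k268 t268) (.leaf b0 k269 t269)))) (.br _ _ _ (.br _ _ _ (.leaf b0 k270 t270) (.leaf b0 k271 t271)) (.br _ _ _ (.leaf b0 k272 t272) (.br _ _ _ (.leaf b0 k273 t273) (.leaf b0 k274 t274))))) (.br _ _ _ (.br _ _ _ (.br _ _ _ (.leaf b0 k275 t275) (.leaf b0 k276 t276)) (.br _ _ _ (.leaf b0 k277 t277) (.br _ _ _ (.leaf b0 k278 t278) (.leaf b0 k279 t279)))) (.br _ _ _ (.br _ _ _ (.leaf b0 k280 t280) (.leaf b0 k281 t281)) (.br _ _ _ (.leaf b0 k282 t282) (.br _ _ _ (.leaf b0 k283 t283) (.leaf b0 k284 t284)))))) w14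
noncomputable def k285 : KT := (.br (Nat.shiftLeft (nat_lit 0x200700a00b00d) (nat_lit 64)) (.br (Nat.shiftLeft (nat_lit 0x1) (nat_lit 112)) (.br (Nat.shiftLeft (nat_lit 0x700a00b00d) (nat_lit 64)) (.one (nat_lit 0x700a00b00c000e014016019500)) (.one (nat_lit 0x700a00b00d000e01401601b500))) (.br (Nat.shiftLeft (nat_lit 0x100700a00b00d) (nat_lit 64)) (.one (nat_lit 0x100700a00b00c200e014016019600)) (.br (Nat.shiftLeft (nat_lit 0x1) (nat_lit 113)) (.one (nat_lit 0x100700a00b00d200e01401601a650)) (.one (nat_lit 0x200700a00b00c400e014016019600))))) (.br (Nat.shiftLeft (nat_lit 0x1) (nat_lit 114)) (.br (Nat.shiftLeft (nat_lit 0x3) (nat_lit 112)) (.one (nat_lit 0x200700a00b00d400e01401601b600)) (.br (Nat.shiftLeft (nat_lit 0x300700a00b00d) (nat_lit 64)) (.one (nat_lit 0x300700a00b00c600e014016019600)) (.one (nat_lit 0x300700a00b00d600e01401601b600)))) (.br (Nat.shiftLeft (nat_lit 0x400700a00b00d) (nat_lit 64)) (.one (nat_lit 0x400700a00b00c800e014016019600)) (.br (Nat.shiftLeft (nat_lit 0x5) (nat_lit 112)) (.one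 (nat_lit 0x400700a00b00d800e01401601b600)) (.one (nat_lit 0x500700a00b00ca00e014016019600))))))
def t285 : k285.all (jb2 57 fl b0) = true := by decide +kernel
noncomputable def k286 : KT := (.br (Nat.shiftLeft (nat_lit 0x3) (nat_lit 113)) (.one (nat_lit 0x500700a00b00da00e01401601a650)) (.one (nat_lit 0x600700a00b00cc00e014016019600)))
def t286 : k286.all (jb2 57 fl b0) = true := by decide +kernel
noncomputable def k287 : KT := (.br (Nat.shiftLeft (nat_lit 0x1) (nat_lit 124)) (.one (nat_lit 0x600700a00b00dc00e01401601a650)) (.br (Nat.shiftLeft (nat_lit 0x100000700a00b00d) (nat_lit 64)) (.one (nat_lit 0x100000700a00b00c000e014036418511)) (.one (nat_lit 0x100000700a00b00d000e01403641a511))))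
def t287 : k287.all (jb2 57 fl b0) = true := by decide +kernel
noncomputable def k288 : KT := (.one (nat_lit 0x100200700a00b00c400e014036418760))
def t288 : k288.all (jb2 57 fl b0) = true := by decide +kernel
noncomputable def k289 : KT := (.br (Nat.shiftLeft (nat_lit 0x1003) (nat_lit 112)) (.one (nat_lit 0x100200700a00b00d400e01403641a760)) (.one (nat_lit 0x100300700a00b00c600e014036418760)))
def t289 : k289.all (jb2 57 fl b0) = true := by decide +kernel
noncomputable def k290 : KT := (.br (Nat.shiftLeft (nat_lit 0x401) (nat_lit 114)) (.one (nat_lit 0x100300700a00b00d600e01403641a760)) (.br (Nat.shiftLeft (nat_lit 0x100400700a00b00d) (nat_lit 64)) (.one (nat_lit 0x100400700a00b00c800e014036418760)) (.one (nat_lit 0x100400700a00b00d800e01403641a760))))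
def t290 : k290.all (jb2 57 fl b0) = true := by decide +kernel
noncomputable def k291 : KT := (.br (Nat.shiftLeft (nat_lit 0x1) (nat_lit 125)) (.br (Nat.shiftLeft (nat_lit 0x803) (nat_lit 113)) (.one (nat_lit 0x100500700a00b00ca00e014036418760)) (.one (nat_lit 0x100600700a00b00cc00e014036418760))) (.br (Nat.shiftLeft (nat_lit 0x200000700a00b00d) (nat_lit 64)) (.one (nat_lit 0x200000700a00b00c000e014056818511)) (.br (Nat.shiftLeft (nat_lit 0x1001) (nat_lit 113)) (.one (nat_lit 0x200000700a00b00d000e01405681a511)) (.one (nat_lit 0x200300700a00b00c600e014056818760)))))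
def t291 : k291.all (jb2 57 fl b0) = true := by decide +kernel
noncomputable def k292 : KT := (.br (Nat.shiftLeft (nat_lit 0x801) (nat_lit 114)) (.one (nat_lit 0x200300700a00b00d600e01405681a760)) (.one (nat_lit 0x200400700a00b00c800e014056818760)))
def t292 : k292.all (jb2 57 fl b0) = true := by decide +kernel
noncomputable def k293 : KT := (.br (Nat.shiftLeft (nat_lit 0x1003) (nat_lit 113)) (.br (Nat.shiftLeft (nat_lit 0x2005) (nat_lit 112)) (.one (nat_lit 0x200400700a00b00d800e01405681a760)) (.one (nat_lit 0x200500700a00b00ca00e014056818760))) (.br (Nat.shiftLeft (nat_lit 0x3) (nat_lit 124)) (.one (nat_lit 0x200600700a00b00cc00e014056818760)) (.br (Nat.shiftLeft (nat_lit 0x300000700a00b00d) (nat_lit 64)) (.one (nat_lit 0x300000700a00b00c000e014076c18511)) (.one (nat_lit 0x300000700a00b00d000e014076c1a511)))))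
def t293 : k293.all (jb2 57 fl b0) = true := by decide +kernel
noncomputable def k294 : KT := (.br (Nat.shiftLeft (nat_lit 0x300400700a00b00d) (nat_lit 64)) (.one (nat_lit 0x300400700a00b00c800e014076c18760)) (.br (Nat.shiftLeft (nat_lit 0x3005) (nat_lit 112)) (.one (nat_lit 0x300400700a00b00d800e014076c1a760)) (.one (nat_lit 0x300500700a00b00ca00e014076c18760))))
def t294 : k294.all (jb2 57 fl b0) = true := by decide +kernel
noncomputable def k295 : KT := (.br (Nat.shiftLeft (nat_lit 0x1001) (nat_lit 114)) (.br (Nat.shiftLeft (nat_lit 0x1) (nat_lit 126)) (.one (nat_lit 0x300600700a00b00cc00e014076c18760)) (.br (Nat.shiftLeft (nat_lit 0x400000700a00b00d) (nat_lit 64)) (.one (nat_lit 0x400000700a00b00c000e014097018511)) (.one (nat_lit 0x400000700a00b00d000e01409701a511)))) (.br (Nat.shiftLeft (nat_lit 0x2003) (nat_lit 113)) (.one (nat_lit 0x400500700a00b00ca00e014097018760)) (.br (Nat.shiftLeft (nat_lit 0x5) (nat_lit 124)) (.one (nat_lit 0x400600700a00b00cc00e014097018760)) (.one (nat_lit 0x500000700a00b00c000e0140b7418511)))))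
def t295 : k295.all (jb2 57 fl b0) = true := by decide +kernel
noncomputable def k296 : KT := (.br (Nat.shiftLeft (nat_lit 0x600000700a00b00d) (nat_lit 64)) (.br (Nat.shiftLeft (nat_lit 0x1401) (nat_lit 114)) (.one (nat_lit 0x500000700a00b00d000e0140b741a511)) (.br (Nat.shiftLeft (nat_lit 0x3) (nat_lit 125)) (.one (nat_lit 0x500600700a00b00cc00e0140b7418760)) (.one (nat_lit 0x600000700a00b00c000e0140d7818511)))) (.br (Nat.shiftLeft (nat_lit 0x7) (nat_lit 124)) (.one (nat_lit 0x600000700a00b00d000e0140d781a511)) (.br (Nat.shiftLeft (nat_lit 0x700000700a00b00d) (nat_lit 64)) (.one (nat_lit 0x700000700a00b00c000e0140f7c18511)) (.one (nat_lit 0x700000700a00b00d000e0140f7c1a511)))))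
def t296 : k296.all (jb2 57 fl b0) = true := by decide +kernel
noncomputable def k297 : KT := (.br (Nat.shiftLeft (nat_lit 0x1) (nat_lit 137)) (.br (Nat.shiftLeft (nat_lit 0x1) (nat_lit 136)) (.br (Nat.shiftLeft (nat_lit 0x5) (nat_lit 125)) (.br (Nat.shiftLeft (nat_lit 0x9) (nat_lit 124)) (.br (Nat.shiftLeft (nat_lit 0x800000700a00b00d) (nat_lit 64)) (.one (nat_lit 0x800000700a00b00c000e014118018511)) (.one (nat_lit 0x800000700a00b00d000e01411801a511))) (.br (Nat.shiftLeft (nat_lit 0x900000700a00b00d) (nat_lit 64)) (.one (nat_lit 0x900000700a00b00c000e014138418511)) (.one (nat_lit 0x900000700a00b00d000e01413841a511)))) (.br (Nat.shiftLeft (nat_lit 0xb) (nat_lit 124)) (.br (Nat.shiftLeft (nat_lit 0xa00000700a00b00d) (nat_lit 64)) (.one (nat_lit 0xa00000700a00b00c000e014158818511)) (.one (nat_lit 0xa00000700a00b00d000e01415881a511))) (.br (Nat.shiftLeft (nat_lit 0xb00000700a00b00d) (nat_lit 64)) (.one (nat_lit 0xb00000700a00b00c000e014178c18511)) (.one (nat_lit 0xb00000700a00b00d000e014178c1a511))))) (.br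 (Nat.shiftLeft (nat_lit 0x100000300700a00b00d) (nat_lit 64)) (.br (Nat.shiftLeft (nat_lit 0x100000200700a00b00d) (nat_lit 64)) (.br (Nat.shiftLeft (nat_lit 0x800001) (nat_lit 113)) (.one (nat_lit 0x100000100700a00b00c200e034416018611)) (.one (nat_lit 0x100000200700a00b00c400e034416018611))) (.br (Nat.shiftLeft (nat_lit 0x1000003) (nat_lit 112)) (.one (nat_lit 0x100000200700a00b00d400e03441601a611)) (.one (nat_lit 0x100000300700a00b00c600e034416018611)))) (.br (Nat.shiftLeft (nat_lit 0x100000400700a00b00d) (nat_lit 64)) (.br (Nat.shiftLeft (nat_lit 0x400001) (nat_lit 114)) (.one (nat_lit 0x100000300700a00b00d600e03441601a611)) (.one (nat_lit 0x100000400700a00b00c800e034416018611))) (.br (Nat.shiftLeft (nat_lit 0x1000005) (nat_lit 112)) (.one (nat_lit 0x100000400700a00b00d800e03441601a611)) (.br (Nat.shiftLeft (nat_lit 0x800003) (nat_lit 113)) (.one (nat_lit 0x100000500700a00b00ca00e034416018611)) (.one (nat_lit 0x100000600700a00b00cc00e034416018611))))))) (.br (Nat.shiftLeft (nat_lit 0x3) (nat_lit 136))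 (.br (Nat.shiftLeft (nat_lit 0x200000300700a00b00d) (nat_lit 64)) (.br (Nat.shiftLeft (nat_lit 0x200000200700a00b00d) (nat_lit 64)) (.br (Nat.shiftLeft (nat_lit 0x1000001) (nat_lit 113)) (.one (nat_lit 0x200000100700a00b00c200e054816018611)) (.one (nat_lit 0x200000200700a00b00c400e054816018611))) (.br (Nat.shiftLeft (nat_lit 0x2000003) (nat_lit 112)) (.one (nat_lit 0x200000200700a00b00d400e05481601a611)) (.one (nat_lit 0x200000300700a00b00c600e054816018611)))) (.br (Nat.shiftLeft (nat_lit 0x200000400700a00b00d) (nat_lit 64)) (.br (Nat.shiftLeft (nat_lit 0x800001) (nat_lit 114)) (.one (nat_lit 0x200000300700a00b00d600e05481601a611)) (.one (nat_lit 0x200000400700a00b00c800e054816018611))) (.br (Nat.shiftLeft (nat_lit 0x2000005) (nat_lit 112)) (.one (nat_lit 0x200000400700a00b00d800e05481601a611)) (.br (Nat.shiftLeft (nat_lit 0x1000003) (nat_lit 113)) (.one (nat_lit 0x200000500700a00b00ca00e054816018611)) (.one (nat_lit 0x200000600700a00b00cc00e054816018611)))))) (.br (Nat.shiftLeft (nat_lit 0x300000300700a00b00d)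 (nat_lit 64)) (.br (Nat.shiftLeft (nat_lit 0x300000200700a00b00d) (nat_lit 64)) (.br (Nat.shiftLeft (nat_lit 0x1800001) (nat_lit 113)) (.one (nat_lit 0x300000100700a00b00c200e074c16018611)) (.one (nat_lit 0x300000200700a00b00c400e074c16018611))) (.br (Nat.shiftLeft (nat_lit 0x3000003) (nat_lit 112)) (.one (nat_lit 0x300000200700a00b00d400e074c1601a611)) (.one (nat_lit 0x300000300700a00b00c600e074c16018611)))) (.br (Nat.shiftLeft (nat_lit 0x300000400700a00b00d) (nat_lit 64)) (.br (Nat.shiftLeft (nat_lit 0xc00001) (nat_lit 114)) (.one (nat_lit 0x300000300700a00b00d600e074c1601a611)) (.one (nat_lit 0x300000400700a00b00c800e074c16018611))) (.br (Nat.shiftLeft (nat_lit 0x3000005) (nat_lit 112)) (.one (nat_lit 0x300000400700a00b00d800e074c1601a611)) (.br (Nat.shiftLeft (nat_lit 0x1800003) (nat_lit 113)) (.one (nat_lit 0x300000500700a00b00ca00e074c16018611)) (.one (nat_lit 0x300000600700a00b00cc00e074c16018611))))))))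
def t297 : k297.all (jb2 57 fl b0) = true := by decide +kernel
noncomputable def k298 : KT := (.br (Nat.shiftLeft (nat_lit 0x1000001) (nat_lit 114)) (.br (Nat.shiftLeft (nat_lit 0x400000200700a00b00d) (nat_lit 64)) (.br (Nat.shiftLeft (nat_lit 0x2000001) (nat_lit 113)) (.one (nat_lit 0x400000100700a00b00c200e095016018611)) (.one (nat_lit 0x400000200700a00b00c400e095016018611))) (.br (Nat.shiftLeft (nat_lit 0x4000003) (nat_lit 112)) (.one (nat_lit 0x400000200700a00b00d400e09501601a611)) (.br (Nat.shiftLeft (nat_lit 0x400000300700a00b00d) (nat_lit 64)) (.one (nat_lit 0x400000300700a00b00c600e095016018611)) (.one (nat_lit 0x400000300700a00b00d600e09501601a611))))) (.br (Nat.shiftLeft (nat_lit 0x4000005) (nat_lit 112)) (.br (Nat.shiftLeft (nat_lit 0x400000400700a00b00d) (nat_lit 64)) (.one (nat_lit 0x400000400700a00b00c800e095016018611)) (.one (nat_lit 0x400000400700a00b00d800e09501601a611))) (.br (Nat.shiftLeft (nat_lit 0x2000003) (nat_lit 113)) (.one (nat_lit 0x400000500700a00b00ca00e095016018611)) (.br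 (Nat.shiftLeft (nat_lit 0x5) (nat_lit 136)) (.one (nat_lit 0x400000600700a00b00cc00e095016018611)) (.one (nat_lit 0x500000100700a00b00c200e0b5416018611))))))
def t298 : k298.all (jb2 57 fl b0) = true := by decide +kernel
noncomputable def k299 : KT := (.br (Nat.shiftLeft (nat_lit 0x1400001) (nat_lit 114)) (.br (Nat.shiftLeft (nat_lit 0x5000003) (nat_lit 112)) (.br (Nat.shiftLeft (nat_lit 0x500000200700a00b00d) (nat_lit 64)) (.one (nat_lit 0x500000200700a00b00c400e0b5416018611)) (.one (nat_lit 0x500000200700a00b00d400e0b541601a611))) (.br (Nat.shiftLeft (nat_lit 0x500000300700a00b00d) (nat_lit 64)) (.one (nat_lit 0x500000300700a00b00c600e0b5416018611)) (.one (nat_lit 0x500000300700a00b00d600e0b541601a611)))) (.br (Nat.shiftLeft (nat_lit 0x5000005) (nat_lit 112)) (.br (Nat.shiftLeft (nat_lit 0x500000400700a00b00d) (nat_lit 64)) (.one (nat_lit 0x500000400700a00b00c800e0b5416018611)) (.one (nat_lit 0x500000400700a00b00d800e0b541601a611))) (.br (Nat.shiftLeft (nat_lit 0x2800003) (nat_lit 113)) (.one (nat_lit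 0x500000500700a00b00ca00e0b5416018611)) (.one (nat_lit 0x500000600700a00b00cc00e0b5416018611)))))
def t299 : k299.all (jb2 57 fl b0) = true := by decide +kernel
noncomputable def k300 : KT := (.br (Nat.shiftLeft (nat_lit 0x600000300700a00b00d) (nat_lit 64)) (.br (Nat.shiftLeft (nat_lit 0x600000200700a00b00d) (nat_lit 64)) (.br (Nat.shiftLeft (nat_lit 0x3000001) (nat_lit 113)) (.one (nat_lit 0x600000100700a00b00c200e0d5816018611)) (.one (nat_lit 0x600000200700a00b00c400e0d5816018611))) (.br (Nat.shiftLeft (nat_lit 0x6000003) (nat_lit 112)) (.one (nat_lit 0x600000200700a00b00d400e0d581601a611)) (.one (nat_lit 0x600000300700a00b00c600e0d5816018611)))) (.br (Nat.shiftLeft (nat_lit 0x600000400700a00b00d) (nat_lit 64)) (.br (Nat.shiftLeft (nat_lit 0x1800001) (nat_lit 114)) (.one (nat_lit 0x600000300700a00b00d600e0d581601a611)) (.one (nat_lit 0x600000400700a00b00c800e0d5816018611))) (.br (Nat.shiftLeft (nat_lit 0x6000005) (nat_lit 112)) (.one (nat_lit 0x600000400700a00b00d800e0d581601a611)) (.br (Nat.shiftLeft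 (nat_lit 0x3000003) (nat_lit 113)) (.one (nat_lit 0x600000500700a00b00ca00e0d5816018611)) (.one (nat_lit 0x600000600700a00b00cc00e0d5816018611))))))
def t300 : k300.all (jb2 57 fl b0) = true := by decide +kernel
noncomputable def k301 : KT := (.br (Nat.shiftLeft (nat_lit 0x1c00001) (nat_lit 114)) (.br (Nat.shiftLeft (nat_lit 0x700000200700a00b00d) (nat_lit 64)) (.br (Nat.shiftLeft (nat_lit 0x3800001) (nat_lit 113)) (.one (nat_lit 0x700000100700a00b00c200e0f5c16018611)) (.one (nat_lit 0x700000200700a00b00c400e0f5c16018611))) (.br (Nat.shiftLeft (nat_lit 0x7000003) (nat_lit 112)) (.one (nat_lit 0x700000200700a00b00d400e0f5c1601a611)) (.br (Nat.shiftLeft (nat_lit 0x700000300700a00b00d) (nat_lit 64)) (.one (nat_lit 0x700000300700a00b00c600e0f5c16018611)) (.one (nat_lit 0x700000300700a00b00d600e0f5c1601a611))))) (.br (Nat.shiftLeft (nat_lit 0x3800003) (nat_lit 113)) (.br (Nat.shiftLeft (nat_lit 0x700000400700a00b00d) (nat_lit 64)) (.one (nat_lit 0x700000400700a00b00c800e0f5c16018611)) (.br (Nat.shiftLeft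 (nat_lit 0x7000005) (nat_lit 112)) (.one (nat_lit 0x700000400700a00b00d800e0f5c1601a611)) (.one (nat_lit 0x700000500700a00b00ca00e0f5c16018611)))) (.br (Nat.shiftLeft (nat_lit 0x1) (nat_lit 139)) (.one (nat_lit 0x700000600700a00b00cc00e0f5c16018611)) (.br (Nat.shiftLeft (nat_lit 0x4000001) (nat_lit 113)) (.one (nat_lit 0x800000100700a00b00c200e116016018611)) (.one (nat_lit 0x800000200700a00b00c400e116016018611))))))
def t301 : k301.all (jb2 57 fl b0) = true := by decide +kernel
noncomputable def k302 : KT := (.br (Nat.shiftLeft (nat_lit 0x5000001) (nat_lit 113)) (.br (Nat.shiftLeft (nat_lit 0x4800001) (nat_lit 113)) (.br (Nat.shiftLeft (nat_lit 0x800000400700a00b00d) (nat_lit 64)) (.br (Nat.shiftLeft (nat_lit 0x800000300700a00b00d) (nat_lit 64)) (.br (Nat.shiftLeft (nat_lit 0x8000003) (nat_lit 112)) (.one (nat_lit 0x800000200700a00b00d400e11601601a611)) (.one (nat_lit 0x800000300700a00b00c600e116016018611))) (.br (Nat.shiftLeft (nat_lit 0x2000001) (nat_lit 114)) (.one (nat_lit 0x800000300700a00b00d600e11601601a611))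 (.one (nat_lit 0x800000400700a00b00c800e116016018611)))) (.br (Nat.shiftLeft (nat_lit 0x4000003) (nat_lit 113)) (.br (Nat.shiftLeft (nat_lit 0x8000005) (nat_lit 112)) (.one (nat_lit 0x800000400700a00b00d800e11601601a611)) (.one (nat_lit 0x800000500700a00b00ca00e116016018611))) (.br (Nat.shiftLeft (nat_lit 0x9) (nat_lit 136)) (.one (nat_lit 0x800000600700a00b00cc00e116016018611)) (.one (nat_lit 0x900000100700a00b00c200e136416018611))))) (.br (Nat.shiftLeft (nat_lit 0x2400001) (nat_lit 114)) (.br (Nat.shiftLeft (nat_lit 0x9000003) (nat_lit 112)) (.br (Nat.shiftLeft (nat_lit 0x900000200700a00b00d) (nat_lit 64)) (.one (nat_lit 0x900000200700a00b00c400e136416018611)) (.one (nat_lit 0x900000200700a00b00d400e13641601a611))) (.br (Nat.shiftLeft (nat_lit 0x900000300700a00b00d) (nat_lit 64)) (.one (nat_lit 0x900000300700a00b00c600e136416018611)) (.one (nat_lit 0x900000300700a00b00d600e13641601a611)))) (.br (Nat.shiftLeft (nat_lit 0x9000005) (nat_lit 112)) (.br (Nat.shiftLeft (nat_lit 0x900000400700a00b00d) (nat_lit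 64)) (.one (nat_lit 0x900000400700a00b00c800e136416018611)) (.one (nat_lit 0x900000400700a00b00d800e13641601a611))) (.br (Nat.shiftLeft (nat_lit 0x4800003) (nat_lit 113)) (.one (nat_lit 0x900000500700a00b00ca00e136416018611)) (.br (Nat.shiftLeft (nat_lit 0x5) (nat_lit 137)) (.one (nat_lit 0x900000600700a00b00cc00e136416018611)) (.one (nat_lit 0xa00000100700a00b00c200e156816018611))))))) (.br (Nat.shiftLeft (nat_lit 0xb) (nat_lit 136)) (.br (Nat.shiftLeft (nat_lit 0x2800001) (nat_lit 114)) (.br (Nat.shiftLeft (nat_lit 0xa000003) (nat_lit 112)) (.br (Nat.shiftLeft (nat_lit 0xa00000200700a00b00d) (nat_lit 64)) (.one (nat_lit 0xa00000200700a00b00c400e156816018611)) (.one (nat_lit 0xa00000200700a00b00d400e15681601a611))) (.br (Nat.shiftLeft (nat_lit 0xa00000300700a00b00d) (nat_lit 64)) (.one (nat_lit 0xa00000300700a00b00c600e156816018611)) (.one (nat_lit 0xa00000300700a00b00d600e15681601a611)))) (.br (Nat.shiftLeft (nat_lit 0xa000005) (nat_lit 112)) (.br (Nat.shiftLeft (nat_lit 0xa00000400700a00b00d) (nat_lit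 64)) (.one (nat_lit 0xa00000400700a00b00c800e156816018611)) (.one (nat_lit 0xa00000400700a00b00d800e15681601a611))) (.br (Nat.shiftLeft (nat_lit 0x5000003) (nat_lit 113)) (.one (nat_lit 0xa00000500700a00b00ca00e156816018611)) (.one (nat_lit 0xa00000600700a00b00cc00e156816018611))))) (.br (Nat.shiftLeft (nat_lit 0xb00000300700a00b00d) (nat_lit 64)) (.br (Nat.shiftLeft (nat_lit 0xb00000200700a00b00d) (nat_lit 64)) (.br (Nat.shiftLeft (nat_lit 0x5800001) (nat_lit 113)) (.one (nat_lit 0xb00000100700a00b00c200e176c16018611)) (.one (nat_lit 0xb00000200700a00b00c400e176c16018611))) (.br (Nat.shiftLeft (nat_lit 0xb000003) (nat_lit 112)) (.one (nat_lit 0xb00000200700a00b00d400e176c1601a611)) (.one (nat_lit 0xb00000300700a00b00c600e176c16018611)))) (.br (Nat.shiftLeft (nat_lit 0xb00000400700a00b00d) (nat_lit 64)) (.br (Nat.shiftLeft (nat_lit 0x2c00001) (nat_lit 114)) (.one (nat_lit 0xb00000300700a00b00d600e176c1601a611)) (.one (nat_lit 0xb00000400700a00b00c800e176c16018611))) (.br (Nat.shiftLeft (nat_lit 0xb000005)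 (nat_lit 112)) (.one (nat_lit 0xb00000400700a00b00d800e176c1601a611)) (.br (Nat.shiftLeft (nat_lit 0x5800003) (nat_lit 113)) (.one (nat_lit 0xb00000500700a00b00ca00e176c16018611)) (.one (nat_lit 0xb00000600700a00b00cc00e176c16018611))))))))
def t302 : k302.all (jb2 57 fl b0) = true := by decide +kernel
noncomputable def s15 : KT := (.br (nat_lit 0x300000700a00b00d000e014076c1a511) (.br (nat_lit 0x100200700a00b00c400e014036418760) (.br (nat_lit 0x600700a00b00cc00e014016019600) (.br (nat_lit 0x500700a00b00ca00e014016019600) k285 k286) (.br (nat_lit 0x100000700a00b00d000e01403641a511) k287 k288)) (.br (nat_lit 0x100400700a00b00d800e01403641a760) (.br (nat_lit 0x100300700a00b00c600e014036418760) k289 k290) (.br (nat_lit 0x200300700a00b00c600e014056818760) k291 (.br (nat_lit 0x200400700a00b00c800e014056818760) k292 k293)))) (.br (nat_lit 0x300000600700a00b00cc00e074c16018611) (.br (nat_lit 0x500000700a00b00c000e0140b7418511) (.br (nat_lit 0x300500700a00b00ca00e014076c18760) k294 k295) (.br (nat_lit 0x700000700a00b00d000e0140f7c1a511)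 k296 k297)) (.br (nat_lit 0x500000600700a00b00cc00e0b5416018611) (.br (nat_lit 0x500000100700a00b00c200e0b5416018611) k298 k299) (.br (nat_lit 0x600000600700a00b00cc00e0d5816018611) k300 (.br (nat_lit 0x800000200700a00b00c400e116016018611) k301 k302)))))
noncomputable def u15 : KT := (.br (Nat.shiftLeft (nat_lit 0x700a00b00d) (nat_lit 64)) (.one (nat_lit 0x700a00b00c000e014016018540)) (.one (nat_lit 0x700a00b00d000e01401601a540)))
def w15 : u15.all (wj 57 s15) = true := by decide +kernel
def o15 : OkW 57 (jb2 57 fl) u15 := .lift s15 _ (.br _ _ _ (.br _ _ _ (.br _ _ _ (.br _ _ _ (.leaf b0 k285 t285) (.leaf b0 k286 t286)) (.br _ _ _ (.leaf b0 k287 t287) (.leaf b0 k288 t288))) (.br _ _ _ (.br _ _ _ (.leaf b0 k289 t289) (.leaf b0 k290 t290)) (.br _ _ _ (.leaf b0 k291 t291) (.br _ _ _ (.leaf b0 k292 t292) (.leaf b0 k293 t293))))) (.br _ _ _ (.br _ _ _ (.br _ _ _ (.leaf b0 k294 t294) (.leaf b0 k295 t295)) (.br _ _ _ (.leaf b0 k296 t296) (.leaf b0 k297 t297))) (.br _ _ _ (.br _ _ _ (.leaf b0 k298 t298) (.leaf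 b0 k299 t299)) (.br _ _ _ (.leaf b0 k300 t300) (.br _ _ _ (.leaf b0 k301 t301) (.leaf b0 k302 t302)))))) w15
noncomputable def k303 : KT := (.br (Nat.shiftLeft (nat_lit 0x1c02803) (nat_lit 78)) (.br (Nat.shiftLeft (nat_lit 0x700a00b00f) (nat_lit 64)) (.one (nat_lit 0x700a00b00e000e01401601d500)) (.br (Nat.shiftLeft (nat_lit 0x700a00b01) (nat_lit 68)) (.one (nat_lit 0x700a00b00f000e01401601f500)) (.one (nat_lit 0x700a00b010000e014016021500)))) (.br (Nat.shiftLeft (nat_lit 0x1) (nat_lit 112)) (.br (Nat.shiftLeft (nat_lit 0x3805006007) (nat_lit 65)) (.one (nat_lit 0x700a00c00d000e01401801b500)) (.one (nat_lit 0x700a00c00e000e01401801d500))) (.br (Nat.shiftLeft (nat_lit 0x100700a00b00f) (nat_lit 64)) (.one (nat_lit 0x100700a00b00e200e01401601c650)) (.one (nat_lit 0x100700a00b00f200e01401601e650)))))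
def t303 : k303.all (jb2 57 fl b0) = true := by decide +kernel
noncomputable def k304 : KT := (.br (Nat.shiftLeft (nat_lit 0x401c02803) (nat_lit 78)) (.one (nat_lit 0x100700a00b010200e014016020650)) (.one (nat_lit 0x100700a00c00d200e01401801a650)))
def t304 : k304.all (jb2 57 fl b0) = true := by decide +kernel
noncomputable def k305 : KT := (.one (nat_lit 0x100700a00c00e200e01401801c650))
def t305 : k305.all (jb2 57 fl b0) = true := by decide +kernel
noncomputable def k306 : KT := (.one (nat_lit 0x200700a00b00e400e01401601c650))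
def t306 : k306.all (jb2 57 fl b0) = true := by decide +kernel
noncomputable def k307 : KT := (.br (Nat.shiftLeft (nat_lit 0x200700a00b01) (nat_lit 68)) (.one (nat_lit 0x200700a00b00f400e01401601e650)) (.one (nat_lit 0x200700a00b010400e014016020650)))
def t307 : k307.all (jb2 57 fl b0) = true := by decide +kernel
noncomputable def k308 : KT := (.one (nat_lit 0x200700a00c00d400e01401801a650))
def t308 : k308.all (jb2 57 fl b0) = true := by decide +kernel
noncomputable def k309 : KT := (.one (nat_lit 0x200700a00c00e400e01401801c650))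
def t309 : k309.all (jb2 57 fl b0) = true := by decide +kernel
noncomputable def k310 : KT := (.one (nat_lit 0x300700a00b00e600e01401601c650))
def t310 : k310.all (jb2 57 fl b0) = true := by decide +kernel
noncomputable def k311 : KT := (.br (Nat.shiftLeft (nat_lit 0x300700a00b01) (nat_lit 68)) (.one (nat_lit 0x300700a00b00f600e01401601e650)) (.one (nat_lit 0x300700a00b010600e014016020650)))
def t311 : k311.all (jb2 57 fl b0) = true := by decide +kernel
noncomputable def k312 : KT := (.one (nat_lit 0x300700a00c00d600e01401801a650))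
def t312 : k312.all (jb2 57 fl b0) = true := by decide +kernel
noncomputable def k313 : KT := (.one (nat_lit 0x300700a00c00e600e01401801c650))
def t313 : k313.all (jb2 57 fl b0) = true := by decide +kernel
noncomputable def k314 : KT := (.one (nat_lit 0x400700a00b00e800e01401601c650))
def t314 : k314.all (jb2 57 fl b0) = true := by decide +kernel
noncomputable def k315 : KT := (.br (Nat.shiftLeft (nat_lit 0x400700a00b01) (nat_lit 68)) (.one (nat_lit 0x400700a00b00f800e01401601e650)) (.one (nat_lit 0x400700a00b010800e014016020650)))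
def t315 : k315.all (jb2 57 fl b0) = true := by decide +kernel
noncomputable def k316 : KT := (.one (nat_lit 0x400700a00c00d800e01401801a650))
def t316 : k316.all (jb2 57 fl b0) = true := by decide +kernel
noncomputable def k317 : KT := (.one (nat_lit 0x400700a00c00e800e01401801c650))
def t317 : k317.all (jb2 57 fl b0) = true := by decide +kernel
noncomputable def k318 : KT := (.one (nat_lit 0x500700a00b00ea00e01401601c650))
def t318 : k318.all (jb2 57 fl b0) = true := by decide +kernel
noncomputable def k319 : KT := (.br (Nat.shiftLeft (nat_lit 0x500700a00b01) (nat_lit 68)) (.one (nat_lit 0x500700a00b00fa00e01401601e650)) (.one (nat_lit 0x500700a00b010a00e014016020650)))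
def t319 : k319.all (jb2 57 fl b0) = true := by decide +kernel
noncomputable def k320 : KT := (.one (nat_lit 0x500700a00c00da00e01401801a650))
def t320 : k320.all (jb2 57 fl b0) = true := by decide +kernel
noncomputable def k321 : KT := (.br (Nat.shiftLeft (nat_lit 0x3) (nat_lit 113)) (.one (nat_lit 0x500700a00c00ea00e01401801c650)) (.one (nat_lit 0x600700a00b00ec00e01401601c650)))
def t321 : k321.all (jb2 57 fl b0) = true := by decide +kernel
noncomputable def k322 : KT := (.br (Nat.shiftLeft (nat_lit 0x600700a00b01) (nat_lit 68)) (.one (nat_lit 0x600700a00b00fc00e01401601e650)) (.br (Nat.shiftLeft (nat_lit 0x1801c02803) (nat_lit 78)) (.one (nat_lit 0x600700a00b010c00e014016020650)) (.one (nat_lit 0x600700a00c00dc00e01401801a650))))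
def t322 : k322.all (jb2 57 fl b0) = true := by decide +kernel
noncomputable def k323 : KT := (.br (Nat.shiftLeft (nat_lit 0x3) (nat_lit 124)) (.br (Nat.shiftLeft (nat_lit 0x800003805006007) (nat_lit 65)) (.br (Nat.shiftLeft (nat_lit 0x100000700a00b00f) (nat_lit 64)) (.br (Nat.shiftLeft (nat_lit 0x1) (nat_lit 124)) (.one (nat_lit 0x600700a00c00ec00e01401801c650)) (.one (nat_lit 0x100000700a00b00e000e01403641c511))) (.br (Nat.shiftLeft (nat_lit 0x100000700a00b01) (nat_lit 68)) (.one (nat_lit 0x100000700a00b00f000e01403641e511)) (.br (Nat.shiftLeft (nat_lit 0x400001c02803) (nat_lit 78)) (.one (nat_lit 0x100000700a00b010000e014036420511)) (.one (nat_lit 0x100000700a00c00d000e01403841a511))))) (.br (Nat.shiftLeft (nat_lit 0x200000700a00b01) (nat_lit 68)) (.br (Nat.shiftLeft (nat_lit 0x1) (nat_lit 125)) (.one (nat_lit 0x100000700a00c00e000e01403841c511)) (.br (Nat.shiftLeft (nat_lit 0x200000700a00b00f) (nat_lit 64)) (.one (nat_lit 0x200000700a00b00e000e01405681c511)) (.one (nat_lit 0x200000700a00b00f000e01405681e511))))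 (.br (Nat.shiftLeft (nat_lit 0x800001c02803) (nat_lit 78)) (.one (nat_lit 0x200000700a00b010000e014056820511)) (.br (Nat.shiftLeft (nat_lit 0x1000003805006007) (nat_lit 65)) (.one (nat_lit 0x200000700a00c00d000e01405881a511)) (.one (nat_lit 0x200000700a00c00e000e01405881c511)))))) (.br (Nat.shiftLeft (nat_lit 0x400000700a00b00f) (nat_lit 64)) (.br (Nat.shiftLeft (nat_lit 0xc00001c02803) (nat_lit 78)) (.br (Nat.shiftLeft (nat_lit 0x300000700a00b00f) (nat_lit 64)) (.one (nat_lit 0x300000700a00b00e000e014076c1c511)) (.br (Nat.shiftLeft (nat_lit 0x300000700a00b01) (nat_lit 68)) (.one (nat_lit 0x300000700a00b00f000e014076c1e511)) (.one (nat_lit 0x300000700a00b010000e014076c20511)))) (.br (Nat.shiftLeft (nat_lit 0x1800003805006007) (nat_lit 65)) (.one (nat_lit 0x300000700a00c00d000e014078c1a511)) (.br (Nat.shiftLeft (nat_lit 0x1) (nat_lit 126)) (.one (nat_lit 0x300000700a00c00e000e014078c1c511)) (.one (nat_lit 0x400000700a00b00e000e01409701c511))))) (.br (Nat.shiftLeft (nat_lit 0x2000003805006007) (nat_lit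 65)) (.br (Nat.shiftLeft (nat_lit 0x400000700a00b01) (nat_lit 68)) (.one (nat_lit 0x400000700a00b00f000e01409701e511)) (.br (Nat.shiftLeft (nat_lit 0x1000001c02803) (nat_lit 78)) (.one (nat_lit 0x400000700a00b010000e014097020511)) (.one (nat_lit 0x400000700a00c00d000e01409901a511)))) (.br (Nat.shiftLeft (nat_lit 0x5) (nat_lit 124)) (.one (nat_lit 0x400000700a00c00e000e01409901c511)) (.br (Nat.shiftLeft (nat_lit 0x500000700a00b00f) (nat_lit 64)) (.one (nat_lit 0x500000700a00b00e000e0140b741c511)) (.one (nat_lit 0x500000700a00b00f000e0140b741e511)))))))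
def t323 : k323.all (jb2 57 fl b0) = true := by decide +kernel
noncomputable def k324 : KT := (.br (Nat.shiftLeft (nat_lit 0x600000700a00b00f) (nat_lit 64)) (.br (Nat.shiftLeft (nat_lit 0x2800003805006007) (nat_lit 65)) (.br (Nat.shiftLeft (nat_lit 0x1400001c02803) (nat_lit 78)) (.one (nat_lit 0x500000700a00b010000e0140b7420511)) (.one (nat_lit 0x500000700a00c00d000e0140b941a511))) (.br (Nat.shiftLeft (nat_lit 0x3) (nat_lit 125)) (.one (nat_lit 0x500000700a00c00e000e0140b941c511)) (.one (nat_lit 0x600000700a00b00e000e0140d781c511)))) (.br (Nat.shiftLeft (nat_lit 0x1800001c02803) (nat_lit 78)) (.br (Nat.shiftLeft (nat_lit 0x600000700a00b01) (nat_lit 68)) (.one (nat_lit 0x600000700a00b00f000e0140d781e511)) (.one (nat_lit 0x600000700a00b010000e0140d7820511))) (.br (Nat.shiftLeft (nat_lit 0x3000003805006007) (nat_lit 65)) (.one (nat_lit 0x600000700a00c00d000e0140d981a511)) (.br (Nat.shiftLeft (nat_lit 0x7) (nat_lit 124)) (.one (nat_lit 0x600000700a00c00e000e0140d981c511)) (.one (nat_lit 0x700000700a00b00e000e0140f7c1c511))))))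
def t324 : k324.all (jb2 57 fl b0) = true := by decide +kernel
noncomputable def k325 : KT := (.br (Nat.shiftLeft (nat_lit 0x9) (nat_lit 124)) (.br (Nat.shiftLeft (nat_lit 0x1) (nat_lit 127)) (.br (Nat.shiftLeft (nat_lit 0x1c00001c02803) (nat_lit 78)) (.br (Nat.shiftLeft (nat_lit 0x700000700a00b01) (nat_lit 68)) (.one (nat_lit 0x700000700a00b00f000e0140f7c1e511)) (.one (nat_lit 0x700000700a00b010000e0140f7c20511))) (.br (Nat.shiftLeft (nat_lit 0x3800003805006007) (nat_lit 65)) (.one (nat_lit 0x700000700a00c00d000e0140f9c1a511)) (.one (nat_lit 0x700000700a00c00e000e0140f9c1c511)))) (.br (Nat.shiftLeft (nat_lit 0x800000700a00b01) (nat_lit 68)) (.br (Nat.shiftLeft (nat_lit 0x800000700a00b00f) (nat_lit 64)) (.one (nat_lit 0x800000700a00b00e000e01411801c511)) (.one (nat_lit 0x800000700a00b00f000e01411801e511))) (.br (Nat.shiftLeft (nat_lit 0x2000001c02803) (nat_lit 78)) (.one (nat_lit 0x800000700a00b010000e014118020511)) (.br (Nat.shiftLeft (nat_lit 0x4000003805006007) (nat_lit 65)) (.one (nat_lit 0x800000700a00c00d000e01411a01a511))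 (.one (nat_lit 0x800000700a00c00e000e01411a01c511)))))) (.br (Nat.shiftLeft (nat_lit 0x5) (nat_lit 125)) (.br (Nat.shiftLeft (nat_lit 0x900000700a00b01) (nat_lit 68)) (.br (Nat.shiftLeft (nat_lit 0x900000700a00b00f) (nat_lit 64)) (.one (nat_lit 0x900000700a00b00e000e01413841c511)) (.one (nat_lit 0x900000700a00b00f000e01413841e511))) (.br (Nat.shiftLeft (nat_lit 0x2400001c02803) (nat_lit 78)) (.one (nat_lit 0x900000700a00b010000e014138420511)) (.br (Nat.shiftLeft (nat_lit 0x4800003805006007) (nat_lit 65)) (.one (nat_lit 0x900000700a00c00d000e01413a41a511)) (.one (nat_lit 0x900000700a00c00e000e01413a41c511))))) (.br (Nat.shiftLeft (nat_lit 0xa00000700a00b01) (nat_lit 68)) (.br (Nat.shiftLeft (nat_lit 0xa00000700a00b00f) (nat_lit 64)) (.one (nat_lit 0xa00000700a00b00e000e01415881c511)) (.one (nat_lit 0xa00000700a00b00f000e01415881e511))) (.br (Nat.shiftLeft (nat_lit 0x2800001c02803) (nat_lit 78)) (.one (nat_lit 0xa00000700a00b010000e014158820511)) (.br (Nat.shiftLeft (nat_lit 0x5000003805006007) (nat_lit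 65)) (.one (nat_lit 0xa00000700a00c00d000e01415a81a511)) (.one (nat_lit 0xa00000700a00c00e000e01415a81c511)))))))
def t325 : k325.all (jb2 57 fl b0) = true := by decide +kernel
noncomputable def k326 : KT := (.br (Nat.shiftLeft (nat_lit 0x2c00001c02803) (nat_lit 78)) (.br (Nat.shiftLeft (nat_lit 0xb00000700a00b00f) (nat_lit 64)) (.one (nat_lit 0xb00000700a00b00e000e014178c1c511)) (.br (Nat.shiftLeft (nat_lit 0xb00000700a00b01) (nat_lit 68)) (.one (nat_lit 0xb00000700a00b00f000e014178c1e511)) (.one (nat_lit 0xb00000700a00b010000e014178c20511)))) (.br (Nat.shiftLeft (nat_lit 0x3) (nat_lit 126)) (.br (Nat.shiftLeft (nat_lit 0x5800003805006007) (nat_lit 65)) (.one (nat_lit 0xb00000700a00c00d000e01417ac1a511)) (.one (nat_lit 0xb00000700a00c00e000e01417ac1c511))) (.br (Nat.shiftLeft (nat_lit 0x6000003805006007) (nat_lit 65)) (.one (nat_lit 0xc00000700a00c00d000e01419b01a511)) (.one (nat_lit 0xc00000700a00c00e000e01419b01c511)))))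
def t326 : k326.all (jb2 57 fl b0) = true := by decide +kernel
noncomputable def s16 : KT := (.br (nat_lit 0x400700a00b00e800e01401601c650) (.br (nat_lit 0x200700a00c00d400e01401801a650) (.br (nat_lit 0x100700a00c00e200e01401801c650) (.br (nat_lit 0x100700a00b00f200e01401601e650) k303 (.br (nat_lit 0x100700a00c00d200e01401801a650) k304 k305)) (.br (nat_lit 0x200700a00b00e400e01401601c650) k306 (.br (nat_lit 0x200700a00b010400e014016020650) k307 k308))) (.br (nat_lit 0x300700a00b010600e014016020650) (.br (nat_lit 0x200700a00c00e400e01401801c650) k309 (.br (nat_lit 0x300700a00b00e600e01401601c650) k310 k311)) (.br (nat_lit 0x300700a00c00d600e01401801a650) k312 (.br (nat_lit 0x300700a00c00e600e01401801c650) k313 k314)))) (.br (nat_lit 0x500700a00c00da00e01401801a650) (.br (nat_lit 0x400700a00c00e800e01401801c650) (.br (nat_lit 0x400700a00b010800e014016020650) k315 (.br (nat_lit 0x400700a00c00d800e01401801a650) k316 k317)) (.br (nat_lit 0x500700a00b00ea00e01401601c650) k318 (.br (nat_lit 0x500700a00b010a00e014016020650)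 k319 k320))) (.br (nat_lit 0x500000700a00b00f000e0140b741e511) (.br (nat_lit 0x600700a00b00ec00e01401601c650) k321 (.br (nat_lit 0x600700a00c00dc00e01401801a650) k322 k323)) (.br (nat_lit 0x700000700a00b00e000e0140f7c1c511) k324 (.br (nat_lit 0xa00000700a00c00e000e01415a81c511) k325 k326)))))
noncomputable def u16 : KT := (.br (Nat.shiftLeft (nat_lit 0x700a00b01) (nat_lit 68)) (.br (Nat.shiftLeft (nat_lit 0x700a00b00f) (nat_lit 64)) (.one (nat_lit 0x700a00b00e000e01401601c540)) (.one (nat_lit 0x700a00b00f000e01401601e540))) (.br (Nat.shiftLeft (nat_lit 0x1c02803) (nat_lit 78)) (.one (nat_lit 0x700a00b010000e014016020540)) (.br (Nat.shiftLeft (nat_lit 0x3805006007) (nat_lit 65)) (.one (nat_lit 0x700a00c00d000e01401801a540)) (.one (nat_lit 0x700a00c00e000e01401801c540)))))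
def w16 : u16.all (wj 57 s16) = true := by decide +kernel
def o16 : OkW 57 (jb2 57 fl) u16 := .lift s16 _ (.br _ _ _ (.br _ _ _ (.br _ _ _ (.br _ _ _ (.leaf b0 k303 t303) (.br _ _ _ (.leaf b0 k304 t304) (.leaf b0 k305 t305))) (.br _ _ _ (.leaf b0 k306 t306) (.br _ _ _ (.leaf b0 k307 t307) (.leaf b0 k308 t308)))) (.br _ _ _ (.br _ _ _ (.leaf b0 k309 t309) (.br _ _ _ (.leaf b0 k310 t310) (.leaf b0 k311 t311))) (.br _ _ _ (.leaf b0 k312 t312) (.br _ _ _ (.leaf b0 k313 t313) (.leaf b0 k314 t314))))) (.br _ _ _ (.br _ _ _ (.br _ _ _ (.leaf b0 k315 t315) (.br _ _ _ (.leaf b0 k316 t316) (.leaf b0 k317 t317))) (.br _ _ _ (.leaf b0 k318 t318) (.br _ _ _ (.leaf b0 k319 t319) (.leaf b0 k320 t320)))) (.br _ _ _ (.br _ _ _ (.leaf b0 k321 t321) (.br _ _ _ (.leaf b0 k322 t322) (.leaf b0 k323 t323))) (.br _ _ _ (.leaf b0 k324 t324) (.br _ _ _ (.leaf b0 k325 t325) (.leaf b0 k326 t326)))))) w16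
noncomputable def k327 : KT := (.br (Nat.shiftLeft (nat_lit 0x8000008019) (nat_lit 64)) (.br (Nat.shiftLeft (nat_lit 0x800000800f) (nat_lit 64)) (.br (Nat.shiftLeft (nat_lit 0x4000004005) (nat_lit 65)) (.br (Nat.shiftLeft (nat_lit 0x700b) (nat_lit 88)) (.br (Nat.shiftLeft (nat_lit 0x700a00d) (nat_lit 76)) (.one (nat_lit 0x700a00c00f000e01401801f500)) (.one (nat_lit 0x700a00d00e000e01401a01d500))) (.br (Nat.shiftLeft (nat_lit 0x3805806007) (nat_lit 65)) (.one (nat_lit 0x700b00c00d000e01601801b500)) (.br (Nat.shiftLeft (nat_lit 0x1) (nat_lit 103)) (.one (nat_lit 0x700b00c00e000e01601801d500)) (.one (nat_lit 0x80000080090010000010012311))))) (.br (Nat.shiftLeft (nat_lit 0x2000002003) (nat_lit 66)) (.br (Nat.shiftLeft (nat_lit 0x800000800b) (nat_lit 64)) (.one (nat_lit 0x800000800a0010000010014311)) (.one (nat_lit 0x800000800b0010000010016311))) (.br (Nat.shiftLeft (nat_lit 0x800000800d) (nat_lit 64)) (.one (nat_lit 0x800000800c0010000010018311)) (.br (Nat.shiftLeft (nat_lit 0x4000004007) (nat_lit 65)) (.one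 (nat_lit 0x800000800d001000001001a311)) (.one (nat_lit 0x800000800e001000001001c311)))))) (.br (Nat.shiftLeft (nat_lit 0x2000002005) (nat_lit 66)) (.br (Nat.shiftLeft (nat_lit 0x8000008011) (nat_lit 64)) (.br (Nat.shiftLeft (nat_lit 0x800000801) (nat_lit 68)) (.one (nat_lit 0x800000800f001000001001e311)) (.one (nat_lit 0x80000080100010000010020311))) (.br (Nat.shiftLeft (nat_lit 0x4000004009) (nat_lit 65)) (.one (nat_lit 0x80000080110010000010022311)) (.br (Nat.shiftLeft (nat_lit 0x8000008013) (nat_lit 64)) (.one (nat_lit 0x80000080120010000010024311)) (.one (nat_lit 0x80000080130010000010026311))))) (.br (Nat.shiftLeft (nat_lit 0x400000400b) (nat_lit 65)) (.br (Nat.shiftLeft (nat_lit 0x8000008015) (nat_lit 64)) (.one (nat_lit 0x80000080140010000010028311)) (.one (nat_lit 0x8000008015001000001002a311))) (.br (Nat.shiftLeft (nat_lit 0x8000008017) (nat_lit 64)) (.one (nat_lit 0x8000008016001000001002c311)) (.br (Nat.shiftLeft (nat_lit 0x1000001003) (nat_lit 67)) (.one (nat_lit 0x8000008017001000001002e311))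 (.one (nat_lit 0x80000080180010000010030311))))))) (.br (Nat.shiftLeft (nat_lit 0x4000004809) (nat_lit 65)) (.br (Nat.shiftLeft (nat_lit 0x800000900d) (nat_lit 64)) (.br (Nat.shiftLeft (nat_lit 0x8000009) (nat_lit 76)) (.br (Nat.shiftLeft (nat_lit 0x400000400d) (nat_lit 65)) (.one (nat_lit 0x80000080190010000010032311)) (.one (nat_lit 0x800000801a0010000010034311))) (.br (Nat.shiftLeft (nat_lit 0x800000900b) (nat_lit 64)) (.one (nat_lit 0x800000900a0010000012014311)) (.br (Nat.shiftLeft (nat_lit 0x2000002403) (nat_lit 66)) (.one (nat_lit 0x800000900b0010000012016311)) (.one (nat_lit 0x800000900c0010000012018311))))) (.br (Nat.shiftLeft (nat_lit 0x800000900f) (nat_lit 64)) (.br (Nat.shiftLeft (nat_lit 0x4000004807) (nat_lit 65)) (.one (nat_lit 0x800000900d001000001201a311)) (.one (nat_lit 0x800000900e001000001201c311))) (.br (Nat.shiftLeft (nat_lit 0x800000901) (nat_lit 68)) (.one (nat_lit 0x800000900f001000001201e311)) (.br (Nat.shiftLeft (nat_lit 0x8000009011) (nat_lit 64)) (.one (nat_lit 0x80000090100010000012020311))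 (.one (nat_lit 0x80000090110010000012022311)))))) (.br (Nat.shiftLeft (nat_lit 0x8000009017) (nat_lit 64)) (.br (Nat.shiftLeft (nat_lit 0x2000002405) (nat_lit 66)) (.br (Nat.shiftLeft (nat_lit 0x8000009013) (nat_lit 64)) (.one (nat_lit 0x80000090120010000012024311)) (.one (nat_lit 0x80000090130010000012026311))) (.br (Nat.shiftLeft (nat_lit 0x8000009015) (nat_lit 64)) (.one (nat_lit 0x80000090140010000012028311)) (.br (Nat.shiftLeft (nat_lit 0x400000480b) (nat_lit 65)) (.one (nat_lit 0x8000009015001000001202a311)) (.one (nat_lit 0x8000009016001000001202c311))))) (.br (Nat.shiftLeft (nat_lit 0x8000009019) (nat_lit 64)) (.br (Nat.shiftLeft (nat_lit 0x1000001203) (nat_lit 67)) (.one (nat_lit 0x8000009017001000001202e311)) (.one (nat_lit 0x80000090180010000012030311))) (.br (Nat.shiftLeft (nat_lit 0x400000480d) (nat_lit 65)) (.one (nat_lit 0x80000090190010000012032311)) (.br (Nat.shiftLeft (nat_lit 0x4000005) (nat_lit 77)) (.one (nat_lit 0x800000901a0010000012034311)) (.one (nat_lit 0x800000a00b0010000014016311))))))))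
def t327 : k327.all (jb2 57 fl b0) = true := by decide +kernel
noncomputable def k328 : KT := (.br (Nat.shiftLeft (nat_lit 0x800000a019) (nat_lit 64)) (.br (Nat.shiftLeft (nat_lit 0x4000005009) (nat_lit 65)) (.br (Nat.shiftLeft (nat_lit 0x800000a00f) (nat_lit 64)) (.br (Nat.shiftLeft (nat_lit 0x800000a00d) (nat_lit 64)) (.one (nat_lit 0x800000a00c0010000014018311)) (.br (Nat.shiftLeft (nat_lit 0x4000005007) (nat_lit 65)) (.one (nat_lit 0x800000a00d001000001401a311)) (.one (nat_lit 0x800000a00e001000001401c311)))) (.br (Nat.shiftLeft (nat_lit 0x800000a01) (nat_lit 68)) (.one (nat_lit 0x800000a00f001000001401e311)) (.br (Nat.shiftLeft (nat_lit 0x800000a011) (nat_lit 64)) (.one (nat_lit 0x800000a0100010000014020311)) (.one (nat_lit 0x800000a0110010000014022311))))) (.br (Nat.shiftLeft (nat_lit 0x800000a015) (nat_lit 64)) (.br (Nat.shiftLeft (nat_lit 0x800000a013) (nat_lit 64)) (.one (nat_lit 0x800000a0120010000014024311)) (.br (Nat.shiftLeft (nat_lit 0x2000002805) (nat_lit 66)) (.one (nat_lit 0x800000a0130010000014026311))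 (.one (nat_lit 0x800000a0140010000014028311)))) (.br (Nat.shiftLeft (nat_lit 0x800000a017) (nat_lit 64)) (.br (Nat.shiftLeft (nat_lit 0x400000500b) (nat_lit 65)) (.one (nat_lit 0x800000a015001000001402a311)) (.one (nat_lit 0x800000a016001000001402c311))) (.br (Nat.shiftLeft (nat_lit 0x1000001403) (nat_lit 67)) (.one (nat_lit 0x800000a017001000001402e311)) (.one (nat_lit 0x800000a0180010000014030311)))))) (.br (Nat.shiftLeft (nat_lit 0x800000b011) (nat_lit 64)) (.br (Nat.shiftLeft (nat_lit 0x4000005807) (nat_lit 65)) (.br (Nat.shiftLeft (nat_lit 0x800000b) (nat_lit 76)) (.one (nat_lit 0x800000a0190010000014032311)) (.br (Nat.shiftLeft (nat_lit 0x800000b00d) (nat_lit 64)) (.one (nat_lit 0x800000b00c0010000016018311)) (.one (nat_lit 0x800000b00d001000001601a311)))) (.br (Nat.shiftLeft (nat_lit 0x800000b00f) (nat_lit 64)) (.one (nat_lit 0x800000b00e001000001601c311)) (.br (Nat.shiftLeft (nat_lit 0x800000b01) (nat_lit 68)) (.one (nat_lit 0x800000b00f001000001601e311)) (.one (nat_lit 0x800000b0100010000016020311)))))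 (.br (Nat.shiftLeft (nat_lit 0x2000002c05) (nat_lit 66)) (.br (Nat.shiftLeft (nat_lit 0x4000005809) (nat_lit 65)) (.one (nat_lit 0x800000b0110010000016022311)) (.br (Nat.shiftLeft (nat_lit 0x800000b013) (nat_lit 64)) (.one (nat_lit 0x800000b0120010000016024311)) (.one (nat_lit 0x800000b0130010000016026311)))) (.br (Nat.shiftLeft (nat_lit 0x1) (nat_lit 112)) (.br (Nat.shiftLeft (nat_lit 0x800000b015) (nat_lit 64)) (.one (nat_lit 0x800000b0140010000016028311)) (.one (nat_lit 0x800000b015001000001602a311))) (.br (Nat.shiftLeft (nat_lit 0x100700a00d) (nat_lit 76)) (.one (nat_lit 0x100700a00c00f200e01401801e650)) (.one (nat_lit 0x100700a00d00e200e01401a01c650)))))))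
def t328 : k328.all (jb2 57 fl b0) = true := by decide +kernel
noncomputable def k329 : KT := (.br (Nat.shiftLeft (nat_lit 0x803805806007) (nat_lit 65)) (.one (nat_lit 0x100700b00c00d200e01601801a650)) (.one (nat_lit 0x100700b00c00e200e01601801c650)))
def t329 : k329.all (jb2 57 fl b0) = true := by decide +kernel
noncomputable def k330 : KT := (.br (Nat.shiftLeft (nat_lit 0x200700a00d) (nat_lit 76)) (.one (nat_lit 0x200700a00c00f400e01401801e650)) (.one (nat_lit 0x200700a00d00e400e01401a01c650)))
def t330 : k330.all (jb2 57 fl b0) = true := by decide +kernel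
noncomputable def k331 : KT := (.br (Nat.shiftLeft (nat_lit 0x1003805806007) (nat_lit 65)) (.one (nat_lit 0x200700b00c00d400e01601801a650)) (.one (nat_lit 0x200700b00c00e400e01601801c650)))
def t331 : k331.all (jb2 57 fl b0) = true := by decide +kernel
noncomputable def k332 : KT := (.br (Nat.shiftLeft (nat_lit 0x300700a00d) (nat_lit 76)) (.one (nat_lit 0x300700a00c00f600e01401801e650)) (.one (nat_lit 0x300700a00d00e600e01401a01c650)))
def t332 : k332.all (jb2 57 fl b0) = true := by decide +kernel
noncomputable def k333 : KT := (.br (Nat.shiftLeft (nat_lit 0x1803805806007) (nat_lit 65)) (.one (nat_lit 0x300700b00c00d600e01601801a650)) (.one (nat_lit 0x300700b00c00e600e01601801c650)))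
def t333 : k333.all (jb2 57 fl b0) = true := by decide +kernel
noncomputable def k334 : KT := (.br (Nat.shiftLeft (nat_lit 0x400700a00d) (nat_lit 76)) (.one (nat_lit 0x400700a00c00f800e01401801e650)) (.one (nat_lit 0x400700a00d00e800e01401a01c650)))
def t334 : k334.all (jb2 57 fl b0) = true := by decide +kernel
noncomputable def k335 : KT := (.br (Nat.shiftLeft (nat_lit 0x2003805806007) (nat_lit 65)) (.one (nat_lit 0x400700b00c00d800e01601801a650)) (.one (nat_lit 0x400700b00c00e800e01601801c650)))
def t335 : k335.all (jb2 57 fl b0) = true := by decide +kernel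
noncomputable def k336 : KT := (.br (Nat.shiftLeft (nat_lit 0x500700a00d) (nat_lit 76)) (.one (nat_lit 0x500700a00c00fa00e01401801e650)) (.br (Nat.shiftLeft (nat_lit 0x500700b) (nat_lit 88)) (.one (nat_lit 0x500700a00d00ea00e01401a01c650)) (.one (nat_lit 0x500700b00c00da00e01601801a650))))
def t336 : k336.all (jb2 57 fl b0) = true := by decide +kernel
noncomputable def k337 : KT := (.br (Nat.shiftLeft (nat_lit 0x600700a00d) (nat_lit 76)) (.br (Nat.shiftLeft (nat_lit 0x3) (nat_lit 113)) (.one (nat_lit 0x500700b00c00ea00e01601801c650)) (.one (nat_lit 0x600700a00c00fc00e01401801e650))) (.br (Nat.shiftLeft (nat_lit 0x600700b) (nat_lit 88)) (.one (nat_lit 0x600700a00d00ec00e01401a01c650)) (.one (nat_lit 0x600700b00c00dc00e01601801a650))))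
def t337 : k337.all (jb2 57 fl b0) = true := by decide +kernel
noncomputable def k338 : KT := (.br (Nat.shiftLeft (nat_lit 0x300000700b) (nat_lit 88)) (.br (Nat.shiftLeft (nat_lit 0x1) (nat_lit 125)) (.br (Nat.shiftLeft (nat_lit 0x100000700a00d) (nat_lit 76)) (.br (Nat.shiftLeft (nat_lit 0x1) (nat_lit 124)) (.one (nat_lit 0x600700b00c00ec00e01601801c650)) (.one (nat_lit 0x100000700a00c00f000e01403841e511))) (.br (Nat.shiftLeft (nat_lit 0x100000700b) (nat_lit 88)) (.one (nat_lit 0x100000700a00d00e000e01403a41c511)) (.br (Nat.shiftLeft (nat_lit 0x800003805806007) (nat_lit 65)) (.one (nat_lit 0x100000700b00c00d000e01603841a511)) (.one (nat_lit 0x100000700b00c00e000e01603841c511))))) (.br (Nat.shiftLeft (nat_lit 0x1000003805806007) (nat_lit 65)) (.br (Nat.shiftLeft (nat_lit 0x200000700a00d) (nat_lit 76)) (.one (nat_lit 0x200000700a00c00f000e01405881e511)) (.br (Nat.shiftLeft (nat_lit 0x200000700b) (nat_lit 88)) (.one (nat_lit 0x200000700a00d00e000e01405a81c511)) (.one (nat_lit 0x200000700b00c00d000e01605881a511))))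 (.br (Nat.shiftLeft (nat_lit 0x3) (nat_lit 124)) (.one (nat_lit 0x200000700b00c00e000e01605881c511)) (.br (Nat.shiftLeft (nat_lit 0x300000700a00d) (nat_lit 76)) (.one (nat_lit 0x300000700a00c00f000e014078c1e511)) (.one (nat_lit 0x300000700a00d00e000e01407ac1c511)))))) (.br (Nat.shiftLeft (nat_lit 0x2000003805806007) (nat_lit 65)) (.br (Nat.shiftLeft (nat_lit 0x1) (nat_lit 126)) (.br (Nat.shiftLeft (nat_lit 0x1800003805806007) (nat_lit 65)) (.one (nat_lit 0x300000700b00c00d000e016078c1a511)) (.one (nat_lit 0x300000700b00c00e000e016078c1c511))) (.br (Nat.shiftLeft (nat_lit 0x400000700a00d) (nat_lit 76)) (.one (nat_lit 0x400000700a00c00f000e01409901e511)) (.br (Nat.shiftLeft (nat_lit 0x400000700b) (nat_lit 88)) (.one (nat_lit 0x400000700a00d00e000e01409b01c511)) (.one (nat_lit 0x400000700b00c00d000e01609901a511))))) (.br (Nat.shiftLeft (nat_lit 0x500000700b) (nat_lit 88)) (.br (Nat.shiftLeft (nat_lit 0x5) (nat_lit 124)) (.one (nat_lit 0x400000700b00c00e000e01609901c511)) (.br (Nat.shiftLeft (nat_lit 0x500000700a00d)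 (nat_lit 76)) (.one (nat_lit 0x500000700a00c00f000e0140b941e511)) (.one (nat_lit 0x500000700a00d00e000e0140bb41c511)))) (.br (Nat.shiftLeft (nat_lit 0x2800003805806007) (nat_lit 65)) (.one (nat_lit 0x500000700b00c00d000e0160b941a511)) (.br (Nat.shiftLeft (nat_lit 0x3) (nat_lit 125)) (.one (nat_lit 0x500000700b00c00e000e0160b941c511)) (.one (nat_lit 0x600000700a00c00f000e0140d981e511)))))))
def t338 : k338.all (jb2 57 fl b0) = true := by decide +kernel
noncomputable def k339 : KT := (.br (Nat.shiftLeft (nat_lit 0x4800003805806007) (nat_lit 65)) (.br (Nat.shiftLeft (nat_lit 0x1) (nat_lit 127)) (.br (Nat.shiftLeft (nat_lit 0x7) (nat_lit 124)) (.br (Nat.shiftLeft (nat_lit 0x600000700b) (nat_lit 88)) (.one (nat_lit 0x600000700a00d00e000e0140db81c511)) (.br (Nat.shiftLeft (nat_lit 0x3000003805806007) (nat_lit 65)) (.one (nat_lit 0x600000700b00c00d000e0160d981a511)) (.one (nat_lit 0x600000700b00c00e000e0160d981c511)))) (.br (Nat.shiftLeft (nat_lit 0x700000700b) (nat_lit 88)) (.br (Nat.shiftLeft (nat_lit 0x700000700a00d)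 (nat_lit 76)) (.one (nat_lit 0x700000700a00c00f000e0140f9c1e511)) (.one (nat_lit 0x700000700a00d00e000e0140fbc1c511))) (.br (Nat.shiftLeft (nat_lit 0x3800003805806007) (nat_lit 65)) (.one (nat_lit 0x700000700b00c00d000e0160f9c1a511)) (.one (nat_lit 0x700000700b00c00e000e0160f9c1c511))))) (.br (Nat.shiftLeft (nat_lit 0x4000003805806007) (nat_lit 65)) (.br (Nat.shiftLeft (nat_lit 0x800000700a00d) (nat_lit 76)) (.one (nat_lit 0x800000700a00c00f000e01411a01e511)) (.br (Nat.shiftLeft (nat_lit 0x800000700b) (nat_lit 88)) (.one (nat_lit 0x800000700a00d00e000e01411c01c511)) (.one (nat_lit 0x800000700b00c00d000e01611a01a511)))) (.br (Nat.shiftLeft (nat_lit 0x900000700a00d) (nat_lit 76)) (.br (Nat.shiftLeft (nat_lit 0x9) (nat_lit 124)) (.one (nat_lit 0x800000700b00c00e000e01611a01c511)) (.one (nat_lit 0x900000700a00c00f000e01413a41e511))) (.br (Nat.shiftLeft (nat_lit 0x900000700b) (nat_lit 88)) (.one (nat_lit 0x900000700a00d00e000e01413c41c511)) (.one (nat_lit 0x900000700b00c00d000e01613a41a511)))))) (.br (Nat.shiftLeft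 (nat_lit 0xb00000700b) (nat_lit 88)) (.br (Nat.shiftLeft (nat_lit 0xa00000700b) (nat_lit 88)) (.br (Nat.shiftLeft (nat_lit 0x5) (nat_lit 125)) (.one (nat_lit 0x900000700b00c00e000e01613a41c511)) (.br (Nat.shiftLeft (nat_lit 0xa00000700a00d) (nat_lit 76)) (.one (nat_lit 0xa00000700a00c00f000e01415a81e511)) (.one (nat_lit 0xa00000700a00d00e000e01415c81c511)))) (.br (Nat.shiftLeft (nat_lit 0xb) (nat_lit 124)) (.br (Nat.shiftLeft (nat_lit 0x5000003805806007) (nat_lit 65)) (.one (nat_lit 0xa00000700b00c00d000e01615a81a511)) (.one (nat_lit 0xa00000700b00c00e000e01615a81c511))) (.br (Nat.shiftLeft (nat_lit 0xb00000700a00d) (nat_lit 76)) (.one (nat_lit 0xb00000700a00c00f000e01417ac1e511)) (.one (nat_lit 0xb00000700a00d00e000e01417cc1c511))))) (.br (Nat.shiftLeft (nat_lit 0xc00000700a00d) (nat_lit 76)) (.br (Nat.shiftLeft (nat_lit 0x5800003805806007) (nat_lit 65)) (.one (nat_lit 0xb00000700b00c00d000e01617ac1a511)) (.br (Nat.shiftLeft (nat_lit 0x3) (nat_lit 126)) (.one (nat_lit 0xb00000700b00c00e000e01617ac1c511))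 (.one (nat_lit 0xc00000700a00c00f000e01419b01e511)))) (.br (Nat.shiftLeft (nat_lit 0x6000003805806007) (nat_lit 65)) (.br (Nat.shiftLeft (nat_lit 0xc00000700b) (nat_lit 88)) (.one (nat_lit 0xc00000700a00d00e000e01419d01c511)) (.one (nat_lit 0xc00000700b00c00d000e01619b01a511))) (.br (Nat.shiftLeft (nat_lit 0xd) (nat_lit 124)) (.one (nat_lit 0xc00000700b00c00e000e01619b01c511)) (.one (nat_lit 0xd00000700a00d00e000e0141bd41c511)))))))
def t339 : k339.all (jb2 57 fl b0) = true := by decide +kernel
noncomputable def s17 : KT := (.br (nat_lit 0x300700a00d00e600e01401a01c650) (.br (nat_lit 0x100700b00c00e200e01601801c650) (.br (nat_lit 0x800000a00b0010000014016311) k327 (.br (nat_lit 0x100700a00d00e200e01401a01c650) k328 k329)) (.br (nat_lit 0x200700a00d00e400e01401a01c650) k330 (.br (nat_lit 0x200700b00c00e400e01601801c650) k331 k332))) (.br (nat_lit 0x400700b00c00e800e01601801c650) (.br (nat_lit 0x300700b00c00e600e01601801c650) k333 (.br (nat_lit 0x400700a00d00e800e01401a01c650) k334 k335)) (.br (nat_lit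 0x600700b00c00dc00e01601801a650) (.br (nat_lit 0x500700b00c00da00e01601801a650) k336 k337) (.br (nat_lit 0x600000700a00c00f000e0140d981e511) k338 k339))))
noncomputable def u17 : KT := (.br (Nat.shiftLeft (nat_lit 0x2000002405) (nat_lit 66)) (.br (Nat.shiftLeft (nat_lit 0x8000008015) (nat_lit 64)) (.br (Nat.shiftLeft (nat_lit 0x800000800d) (nat_lit 64)) (.br (Nat.shiftLeft (nat_lit 0x1) (nat_lit 103)) (.br (Nat.shiftLeft (nat_lit 0x700b) (nat_lit 88)) (.br (Nat.shiftLeft (nat_lit 0x700a00d) (nat_lit 76)) (.one (nat_lit 0x700a00c00f000e01401801e540)) (.one (nat_lit 0x700a00d00e000e01401a01c540))) (.br (Nat.shiftLeft (nat_lit 0x3805806007) (nat_lit 65)) (.one (nat_lit 0x700b00c00d000e01601801a540)) (.one (nat_lit 0x700b00c00e000e01601801c540)))) (.br (Nat.shiftLeft (nat_lit 0x800000800b) (nat_lit 64)) (.br (Nat.shiftLeft (nat_lit 0x4000004005) (nat_lit 65)) (.one (nat_lit 0x80000080090010000010012311)) (.one (nat_lit 0x800000800a0010000010014311))) (.br (Nat.shiftLeft (nat_lit 0x2000002003) (nat_lit 66))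 (.one (nat_lit 0x800000800b0010000010016311)) (.one (nat_lit 0x800000800c0010000010018311))))) (.br (Nat.shiftLeft (nat_lit 0x8000008011) (nat_lit 64)) (.br (Nat.shiftLeft (nat_lit 0x800000800f) (nat_lit 64)) (.br (Nat.shiftLeft (nat_lit 0x4000004007) (nat_lit 65)) (.one (nat_lit 0x800000800d001000001001a311)) (.one (nat_lit 0x800000800e001000001001c311))) (.br (Nat.shiftLeft (nat_lit 0x800000801) (nat_lit 68)) (.one (nat_lit 0x800000800f001000001001e311)) (.one (nat_lit 0x80000080100010000010020311)))) (.br (Nat.shiftLeft (nat_lit 0x8000008013) (nat_lit 64)) (.br (Nat.shiftLeft (nat_lit 0x4000004009) (nat_lit 65)) (.one (nat_lit 0x80000080110010000010022311)) (.one (nat_lit 0x80000080120010000010024311))) (.br (Nat.shiftLeft (nat_lit 0x2000002005) (nat_lit 66)) (.one (nat_lit 0x80000080130010000010026311)) (.one (nat_lit 0x80000080140010000010028311)))))) (.br (Nat.shiftLeft (nat_lit 0x2000002403) (nat_lit 66)) (.br (Nat.shiftLeft (nat_lit 0x8000008019) (nat_lit 64)) (.br (Nat.shiftLeft (nat_lit 0x8000008017)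 (nat_lit 64)) (.br (Nat.shiftLeft (nat_lit 0x400000400b) (nat_lit 65)) (.one (nat_lit 0x8000008015001000001002a311)) (.one (nat_lit 0x8000008016001000001002c311))) (.br (Nat.shiftLeft (nat_lit 0x1000001003) (nat_lit 67)) (.one (nat_lit 0x8000008017001000001002e311)) (.one (nat_lit 0x80000080180010000010030311)))) (.br (Nat.shiftLeft (nat_lit 0x8000009) (nat_lit 76)) (.br (Nat.shiftLeft (nat_lit 0x400000400d) (nat_lit 65)) (.one (nat_lit 0x80000080190010000010032311)) (.one (nat_lit 0x800000801a0010000010034311))) (.br (Nat.shiftLeft (nat_lit 0x800000900b) (nat_lit 64)) (.one (nat_lit 0x800000900a0010000012014311)) (.one (nat_lit 0x800000900b0010000012016311))))) (.br (Nat.shiftLeft (nat_lit 0x800000901) (nat_lit 68)) (.br (Nat.shiftLeft (nat_lit 0x4000004807) (nat_lit 65)) (.br (Nat.shiftLeft (nat_lit 0x800000900d) (nat_lit 64)) (.one (nat_lit 0x800000900c0010000012018311)) (.one (nat_lit 0x800000900d001000001201a311))) (.br (Nat.shiftLeft (nat_lit 0x800000900f) (nat_lit 64)) (.one (nat_lit 0x800000900e001000001201c311))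 (.one (nat_lit 0x800000900f001000001201e311)))) (.br (Nat.shiftLeft (nat_lit 0x4000004809) (nat_lit 65)) (.br (Nat.shiftLeft (nat_lit 0x8000009011) (nat_lit 64)) (.one (nat_lit 0x80000090100010000012020311)) (.one (nat_lit 0x80000090110010000012022311))) (.br (Nat.shiftLeft (nat_lit 0x8000009013) (nat_lit 64)) (.one (nat_lit 0x80000090120010000012024311)) (.one (nat_lit 0x80000090130010000012026311))))))) (.br (Nat.shiftLeft (nat_lit 0x2000002805) (nat_lit 66)) (.br (Nat.shiftLeft (nat_lit 0x2000002803) (nat_lit 66)) (.br (Nat.shiftLeft (nat_lit 0x1000001203) (nat_lit 67)) (.br (Nat.shiftLeft (nat_lit 0x400000480b) (nat_lit 65)) (.br (Nat.shiftLeft (nat_lit 0x8000009015) (nat_lit 64)) (.one (nat_lit 0x80000090140010000012028311)) (.one (nat_lit 0x8000009015001000001202a311))) (.br (Nat.shiftLeft (nat_lit 0x8000009017) (nat_lit 64)) (.one (nat_lit 0x8000009016001000001202c311)) (.one (nat_lit 0x8000009017001000001202e311)))) (.br (Nat.shiftLeft (nat_lit 0x400000480d) (nat_lit 65)) (.br (Nat.shiftLeft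 (nat_lit 0x8000009019) (nat_lit 64)) (.one (nat_lit 0x80000090180010000012030311)) (.one (nat_lit 0x80000090190010000012032311))) (.br (Nat.shiftLeft (nat_lit 0x4000005) (nat_lit 77)) (.one (nat_lit 0x800000901a0010000012034311)) (.one (nat_lit 0x800000a00b0010000014016311))))) (.br (Nat.shiftLeft (nat_lit 0x800000a01) (nat_lit 68)) (.br (Nat.shiftLeft (nat_lit 0x4000005007) (nat_lit 65)) (.br (Nat.shiftLeft (nat_lit 0x800000a00d) (nat_lit 64)) (.one (nat_lit 0x800000a00c0010000014018311)) (.one (nat_lit 0x800000a00d001000001401a311))) (.br (Nat.shiftLeft (nat_lit 0x800000a00f) (nat_lit 64)) (.one (nat_lit 0x800000a00e001000001401c311)) (.one (nat_lit 0x800000a00f001000001401e311)))) (.br (Nat.shiftLeft (nat_lit 0x4000005009) (nat_lit 65)) (.br (Nat.shiftLeft (nat_lit 0x800000a011) (nat_lit 64)) (.one (nat_lit 0x800000a0100010000014020311)) (.one (nat_lit 0x800000a0110010000014022311))) (.br (Nat.shiftLeft (nat_lit 0x800000a013) (nat_lit 64)) (.one (nat_lit 0x800000a0120010000014024311)) (.one (nat_lit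 0x800000a0130010000014026311)))))) (.br (Nat.shiftLeft (nat_lit 0x4000005807) (nat_lit 65)) (.br (Nat.shiftLeft (nat_lit 0x1000001403) (nat_lit 67)) (.br (Nat.shiftLeft (nat_lit 0x400000500b) (nat_lit 65)) (.br (Nat.shiftLeft (nat_lit 0x800000a015) (nat_lit 64)) (.one (nat_lit 0x800000a0140010000014028311)) (.one (nat_lit 0x800000a015001000001402a311))) (.br (Nat.shiftLeft (nat_lit 0x800000a017) (nat_lit 64)) (.one (nat_lit 0x800000a016001000001402c311)) (.one (nat_lit 0x800000a017001000001402e311)))) (.br (Nat.shiftLeft (nat_lit 0x800000b) (nat_lit 76)) (.br (Nat.shiftLeft (nat_lit 0x800000a019) (nat_lit 64)) (.one (nat_lit 0x800000a0180010000014030311)) (.one (nat_lit 0x800000a0190010000014032311))) (.br (Nat.shiftLeft (nat_lit 0x800000b00d) (nat_lit 64)) (.one (nat_lit 0x800000b00c0010000016018311)) (.one (nat_lit 0x800000b00d001000001601a311))))) (.br (Nat.shiftLeft (nat_lit 0x4000005809) (nat_lit 65)) (.br (Nat.shiftLeft (nat_lit 0x800000b01) (nat_lit 68)) (.br (Nat.shiftLeft (nat_lit 0x800000b00f)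 (nat_lit 64)) (.one (nat_lit 0x800000b00e001000001601c311)) (.one (nat_lit 0x800000b00f001000001601e311))) (.br (Nat.shiftLeft (nat_lit 0x800000b011) (nat_lit 64)) (.one (nat_lit 0x800000b0100010000016020311)) (.one (nat_lit 0x800000b0110010000016022311)))) (.br (Nat.shiftLeft (nat_lit 0x2000002c05) (nat_lit 66)) (.br (Nat.shiftLeft (nat_lit 0x800000b013) (nat_lit 64)) (.one (nat_lit 0x800000b0120010000016024311)) (.one (nat_lit 0x800000b0130010000016026311))) (.br (Nat.shiftLeft (nat_lit 0x800000b015) (nat_lit 64)) (.one (nat_lit 0x800000b0140010000016028311)) (.one (nat_lit 0x800000b015001000001602a311))))))))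
def w17 : u17.all (wj 57 s17) = true := by decide +kernel
def o17 : OkW 57 (jb2 57 fl) u17 := .lift s17 _ (.br _ _ _ (.br _ _ _ (.br _ _ _ (.leaf b0 k327 t327) (.br _ _ _ (.leaf b0 k328 t328) (.leaf b0 k329 t329))) (.br _ _ _ (.leaf b0 k330 t330) (.br _ _ _ (.leaf b0 k331 t331) (.leaf b0 k332 t332)))) (.br _ _ _ (.br _ _ _ (.leaf b0 k333 t333) (.br _ _ _ (.leaf b0 k334 t334) (.leaf b0 k335 t335))) (.br _ _ _ (.br _ _ _ (.leaf b0 k336 t336) (.leaf b0 k337 t337)) (.br _ _ _ (.leaf b0 k338 t338) (.leaf b0 k339 t339))))) w17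
noncomputable def k340 : KT := (.br (Nat.shiftLeft (nat_lit 0x800000d013) (nat_lit 64)) (.br (Nat.shiftLeft (nat_lit 0x2000003005) (nat_lit 66)) (.br (Nat.shiftLeft (nat_lit 0x800000c00f) (nat_lit 64)) (.br (Nat.shiftLeft (nat_lit 0x1000001603) (nat_lit 67)) (.br (Nat.shiftLeft (nat_lit 0x800000b017) (nat_lit 64)) (.one (nat_lit 0x800000b016001000001602c311)) (.one (nat_lit 0x800000b017001000001602e311))) (.br (Nat.shiftLeft (nat_lit 0x2000003) (nat_lit 78)) (.one (nat_lit 0x800000b0180010000016030311)) (.br (Nat.shiftLeft (nat_lit 0x4000006007) (nat_lit 65)) (.one (nat_lit 0x800000c00d001000001801a311)) (.one (nat_lit 0x800000c00e001000001801c311))))) (.br (Nat.shiftLeft (nat_lit 0x800000c011) (nat_lit 64)) (.br (Nat.shiftLeft (nat_lit 0x800000c01) (nat_lit 68)) (.one (nat_lit 0x800000c00f001000001801e311)) (.one (nat_lit 0x800000c0100010000018020311))) (.br (Nat.shiftLeft (nat_lit 0x4000006009) (nat_lit 65)) (.one (nat_lit 0x800000c0110010000018022311)) (.br (Nat.shiftLeft (nat_lit 0x800000c013) (nat_lit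 64)) (.one (nat_lit 0x800000c0120010000018024311)) (.one (nat_lit 0x800000c0130010000018026311)))))) (.br (Nat.shiftLeft (nat_lit 0x800000d) (nat_lit 76)) (.br (Nat.shiftLeft (nat_lit 0x400000600b) (nat_lit 65)) (.br (Nat.shiftLeft (nat_lit 0x800000c015) (nat_lit 64)) (.one (nat_lit 0x800000c0140010000018028311)) (.one (nat_lit 0x800000c015001000001802a311))) (.br (Nat.shiftLeft (nat_lit 0x800000c017) (nat_lit 64)) (.one (nat_lit 0x800000c016001000001802c311)) (.br (Nat.shiftLeft (nat_lit 0x1000001803) (nat_lit 67)) (.one (nat_lit 0x800000c017001000001802e311)) (.one (nat_lit 0x800000c0180010000018030311))))) (.br (Nat.shiftLeft (nat_lit 0x800000d01) (nat_lit 68)) (.br (Nat.shiftLeft (nat_lit 0x800000d00f) (nat_lit 64)) (.one (nat_lit 0x800000d00e001000001a01c311)) (.one (nat_lit 0x800000d00f001000001a01e311))) (.br (Nat.shiftLeft (nat_lit 0x800000d011) (nat_lit 64)) (.one (nat_lit 0x800000d010001000001a020311)) (.br (Nat.shiftLeft (nat_lit 0x4000006809) (nat_lit 65)) (.one (nat_lit 0x800000d011001000001a022311))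 (.one (nat_lit 0x800000d012001000001a024311))))))) (.br (Nat.shiftLeft (nat_lit 0x2000003805) (nat_lit 66)) (.br (Nat.shiftLeft (nat_lit 0x4000007) (nat_lit 77)) (.br (Nat.shiftLeft (nat_lit 0x800000d015) (nat_lit 64)) (.br (Nat.shiftLeft (nat_lit 0x2000003405) (nat_lit 66)) (.one (nat_lit 0x800000d013001000001a026311)) (.one (nat_lit 0x800000d014001000001a028311))) (.br (Nat.shiftLeft (nat_lit 0x400000680b) (nat_lit 65)) (.one (nat_lit 0x800000d015001000001a02a311)) (.br (Nat.shiftLeft (nat_lit 0x800000d017) (nat_lit 64)) (.one (nat_lit 0x800000d016001000001a02c311)) (.one (nat_lit 0x800000d017001000001a02e311))))) (.br (Nat.shiftLeft (nat_lit 0x800000e011) (nat_lit 64)) (.br (Nat.shiftLeft (nat_lit 0x800000e01) (nat_lit 68)) (.one (nat_lit 0x800000e00f001000001c01e311)) (.one (nat_lit 0x800000e010001000001c020311))) (.br (Nat.shiftLeft (nat_lit 0x4000007009) (nat_lit 65)) (.one (nat_lit 0x800000e011001000001c022311)) (.br (Nat.shiftLeft (nat_lit 0x800000e013) (nat_lit 64)) (.one (nat_lit 0x800000e012001000001c024311))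 (.one (nat_lit 0x800000e013001000001c026311)))))) (.br (Nat.shiftLeft (nat_lit 0x4000007809) (nat_lit 65)) (.br (Nat.shiftLeft (nat_lit 0x400000700b) (nat_lit 65)) (.br (Nat.shiftLeft (nat_lit 0x800000e015) (nat_lit 64)) (.one (nat_lit 0x800000e014001000001c028311)) (.one (nat_lit 0x800000e015001000001c02a311))) (.br (Nat.shiftLeft (nat_lit 0x800000f) (nat_lit 76)) (.one (nat_lit 0x800000e016001000001c02c311)) (.br (Nat.shiftLeft (nat_lit 0x800000f011) (nat_lit 64)) (.one (nat_lit 0x800000f010001000001e020311)) (.one (nat_lit 0x800000f011001000001e022311))))) (.br (Nat.shiftLeft (nat_lit 0x2000003c05) (nat_lit 66)) (.br (Nat.shiftLeft (nat_lit 0x800000f013) (nat_lit 64)) (.one (nat_lit 0x800000f012001000001e024311)) (.one (nat_lit 0x800000f013001000001e026311))) (.br (Nat.shiftLeft (nat_lit 0x800000f015) (nat_lit 64)) (.one (nat_lit 0x800000f014001000001e028311)) (.br (Nat.shiftLeft (nat_lit 0x800001) (nat_lit 80)) (.one (nat_lit 0x800000f015001000001e02a311)) (.one (nat_lit 0x80000100110010000020022311))))))))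
def t340 : k340.all (jb2 57 fl b0) = true := by decide +kernel
noncomputable def k341 : KT := (.br (Nat.shiftLeft (nat_lit 0x3) (nat_lit 112)) (.br (Nat.shiftLeft (nat_lit 0x8000011013) (nat_lit 64)) (.br (Nat.shiftLeft (nat_lit 0x2000004005) (nat_lit 66)) (.br (Nat.shiftLeft (nat_lit 0x8000010013) (nat_lit 64)) (.one (nat_lit 0x80000100120010000020024311)) (.one (nat_lit 0x80000100130010000020026311))) (.br (Nat.shiftLeft (nat_lit 0x8000011) (nat_lit 76)) (.one (nat_lit 0x80000100140010000020028311)) (.one (nat_lit 0x80000110120010000022024311)))) (.br (Nat.shiftLeft (nat_lit 0x1) (nat_lit 112)) (.br (Nat.shiftLeft (nat_lit 0x1001) (nat_lit 91)) (.one (nat_lit 0x80000110130010000022026311)) (.one (nat_lit 0x800900a00b0010012014017500))) (.br (Nat.shiftLeft (nat_lit 0x1) (nat_lit 113)) (.one (nat_lit 0x100800900a00b2010012014017600)) (.one (nat_lit 0x200800900a00b4010012014017600))))) (.br (Nat.shiftLeft (nat_lit 0x7) (nat_lit 112)) (.br (Nat.shiftLeft (nat_lit 0x5) (nat_lit 112)) (.br (Nat.shiftLeft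 (nat_lit 0x1) (nat_lit 114)) (.one (nat_lit 0x300800900a00b6010012014017600)) (.one (nat_lit 0x400800900a00b8010012014017600))) (.br (Nat.shiftLeft (nat_lit 0x3) (nat_lit 113)) (.one (nat_lit 0x500800900a00ba010012014017600)) (.one (nat_lit 0x600800900a00bc010012014017600)))) (.br (Nat.shiftLeft (nat_lit 0x801) (nat_lit 113)) (.br (Nat.shiftLeft (nat_lit 0x1) (nat_lit 124)) (.one (nat_lit 0x700800900a00be010012014017600)) (.one (nat_lit 0x100000800900a00b0010012034416511))) (.br (Nat.shiftLeft (nat_lit 0x1003) (nat_lit 112)) (.one (nat_lit 0x100200800900a00b4010012034417700)) (.one (nat_lit 0x100300800900a00b6010012034416760))))))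
def t341 : k341.all (jb2 57 fl b0) = true := by decide +kernel
noncomputable def k342 : KT := (.br (Nat.shiftLeft (nat_lit 0x1005) (nat_lit 112)) (.one (nat_lit 0x100400800900a00b8010012034416760)) (.one (nat_lit 0x100500800900a00ba010012034416760)))
def t342 : k342.all (jb2 57 fl b0) = true := by decide +kernel
noncomputable def k343 : KT := (.br (Nat.shiftLeft (nat_lit 0x1) (nat_lit 125)) (.br (Nat.shiftLeft (nat_lit 0x1007) (nat_lit 112)) (.one (nat_lit 0x100600800900a00bc010012034416760)) (.one (nat_lit 0x100700800900a00be010012034416760))) (.br (Nat.shiftLeft (nat_lit 0x1001) (nat_lit 113)) (.one (nat_lit 0x200000800900a00b0010012054816511)) (.one (nat_lit 0x200300800900a00b6010012054817700))))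
def t343 : k343.all (jb2 57 fl b0) = true := by decide +kernel
noncomputable def k344 : KT := (.one (nat_lit 0x200400800900a00b8010012054816760))
def t344 : k344.all (jb2 57 fl b0) = true := by decide +kernel
noncomputable def k345 : KT := (.br (Nat.shiftLeft (nat_lit 0x1003) (nat_lit 113)) (.one (nat_lit 0x200500800900a00ba010012054816760)) (.one (nat_lit 0x200600800900a00bc010012054816760)))
def t345 : k345.all (jb2 57 fl b0) = true := by decide +kernel
noncomputable def k346 : KT := (.br (Nat.shiftLeft (nat_lit 0x3) (nat_lit 124)) (.one (nat_lit 0x200700800900a00be010012054816760)) (.one (nat_lit 0x300000800900a00b0010012074c16511)))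
def t346 : k346.all (jb2 57 fl b0) = true := by decide +kernel
noncomputable def k347 : KT := (.one (nat_lit 0x300400800900a00b8010012074c16760))
def t347 : k347.all (jb2 57 fl b0) = true := by decide +kernel
noncomputable def k348 : KT := (.br (Nat.shiftLeft (nat_lit 0x1803) (nat_lit 113)) (.one (nat_lit 0x300500800900a00ba010012074c16760)) (.one (nat_lit 0x300600800900a00bc010012074c16760)))
def t348 : k348.all (jb2 57 fl b0) = true := by decide +kernel
noncomputable def k349 : KT := (.br (Nat.shiftLeft (nat_lit 0x1) (nat_lit 126)) (.one (nat_lit 0x300700800900a00be010012074c16760)) (.br (Nat.shiftLeft (nat_lit 0x1001) (nat_lit 114)) (.one (nat_lit 0x400000800900a00b0010012095016511)) (.one (nat_lit 0x400500800900a00ba010012095016760))))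
def t349 : k349.all (jb2 57 fl b0) = true := by decide +kernel
noncomputable def k350 : KT := (.br (Nat.shiftLeft (nat_lit 0x4007) (nat_lit 112)) (.one (nat_lit 0x400600800900a00bc010012095016760)) (.br (Nat.shiftLeft (nat_lit 0x5) (nat_lit 124)) (.one (nat_lit 0x400700800900a00be010012095016760)) (.one (nat_lit 0x500000800900a00b00100120b5416511))))
def t350 : k350.all (jb2 57 fl b0) = true := by decide +kernel
noncomputable def k351 : KT := (.br (Nat.shiftLeft (nat_lit 0x3) (nat_lit 125)) (.br (Nat.shiftLeft (nat_lit 0x5007) (nat_lit 112)) (.one (nat_lit 0x500600800900a00bc0100120b5416760)) (.one (nat_lit 0x500700800900a00be0100120b5416760))) (.br (Nat.shiftLeft (nat_lit 0x1801) (nat_lit 114)) (.one (nat_lit 0x600000800900a00b00100120d5816511)) (.one (nat_lit 0x600700800900a00be0100120d5816760))))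
def t351 : k351.all (jb2 57 fl b0) = true := by decide +kernel
noncomputable def k352 : KT := (.br (Nat.shiftLeft (nat_lit 0x800001) (nat_lit 113)) (.br (Nat.shiftLeft (nat_lit 0x9) (nat_lit 124)) (.br (Nat.shiftLeft (nat_lit 0x1) (nat_lit 127)) (.one (nat_lit 0x700000800900a00b00100120f5c16511)) (.one (nat_lit 0x800000800900a00b0010012116016511))) (.br (Nat.shiftLeft (nat_lit 0x5) (nat_lit 125)) (.one (nat_lit 0x900000800900a00b0010012136416511)) (.br (Nat.shiftLeft (nat_lit 0x1) (nat_lit 136)) (.one (nat_lit 0xa00000800900a00b0010012156816511)) (.one (nat_lit 0x100000100800900a00b2010032414016611))))) (.br (Nat.shiftLeft (nat_lit 0x400001) (nat_lit 114)) (.br (Nat.shiftLeft (nat_lit 0x1000003) (nat_lit 112)) (.one (nat_lit 0x100000200800900a00b4010032414016611)) (.one (nat_lit 0x100000300800900a00b6010032414016611))) (.br (Nat.shiftLeft (nat_lit 0x1000005) (nat_lit 112)) (.one (nat_lit 0x100000400800900a00b8010032414016611)) (.br (Nat.shiftLeft (nat_lit 0x800003) (nat_lit 113)) (.one (nat_lit 0x100000500800900a00ba010032414016611))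 (.one (nat_lit 0x100000600800900a00bc010032414016611))))))
def t352 : k352.all (jb2 57 fl b0) = true := by decide +kernel
noncomputable def k353 : KT := (.br (Nat.shiftLeft (nat_lit 0x1800001) (nat_lit 113)) (.br (Nat.shiftLeft (nat_lit 0x800001) (nat_lit 114)) (.br (Nat.shiftLeft (nat_lit 0x1) (nat_lit 137)) (.br (Nat.shiftLeft (nat_lit 0x801) (nat_lit 125)) (.one (nat_lit 0x100000700800900a00be010032414016611)) (.one (nat_lit 0x100200300800900a00b6010032454816870))) (.br (Nat.shiftLeft (nat_lit 0x1000001) (nat_lit 113)) (.one (nat_lit 0x200000100800900a00b2010052814016611)) (.br (Nat.shiftLeft (nat_lit 0x2000003) (nat_lit 112)) (.one (nat_lit 0x200000200800900a00b4010052814016611)) (.one (nat_lit 0x200000300800900a00b6010052814016611))))) (.br (Nat.shiftLeft (nat_lit 0x1000003) (nat_lit 113)) (.br (Nat.shiftLeft (nat_lit 0x2000005) (nat_lit 112)) (.one (nat_lit 0x200000400800900a00b8010052814016611)) (.one (nat_lit 0x200000500800900a00ba010052814016611))) (.br (Nat.shiftLeft (nat_lit 0x2000007) (nat_lit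 112)) (.one (nat_lit 0x200000600800900a00bc010052814016611)) (.br (Nat.shiftLeft (nat_lit 0x3) (nat_lit 136)) (.one (nat_lit 0x200000700800900a00be010052814016611)) (.one (nat_lit 0x300000100800900a00b2010072c14016611)))))) (.br (Nat.shiftLeft (nat_lit 0x3000007) (nat_lit 112)) (.br (Nat.shiftLeft (nat_lit 0xc00001) (nat_lit 114)) (.br (Nat.shiftLeft (nat_lit 0x3000003) (nat_lit 112)) (.one (nat_lit 0x300000200800900a00b4010072c14016611)) (.one (nat_lit 0x300000300800900a00b6010072c14016611))) (.br (Nat.shiftLeft (nat_lit 0x3000005) (nat_lit 112)) (.one (nat_lit 0x300000400800900a00b8010072c14016611)) (.br (Nat.shiftLeft (nat_lit 0x1800003) (nat_lit 113)) (.one (nat_lit 0x300000500800900a00ba010072c14016611)) (.one (nat_lit 0x300000600800900a00bc010072c14016611))))) (.br (Nat.shiftLeft (nat_lit 0x2000001) (nat_lit 113)) (.br (Nat.shiftLeft (nat_lit 0x1) (nat_lit 138)) (.one (nat_lit 0x300000700800900a00be010072c14016611)) (.one (nat_lit 0x400000100800900a00b2010093014016611))) (.br (Nat.shiftLeft (nat_lit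 0x4000003) (nat_lit 112)) (.one (nat_lit 0x400000200800900a00b4010093014016611)) (.br (Nat.shiftLeft (nat_lit 0x1000001) (nat_lit 114)) (.one (nat_lit 0x400000300800900a00b6010093014016611)) (.one (nat_lit 0x400000400800900a00b8010093014016611)))))))
def t353 : k353.all (jb2 57 fl b0) = true := by decide +kernel
noncomputable def k354 : KT := (.br (Nat.shiftLeft (nat_lit 0x5) (nat_lit 136)) (.br (Nat.shiftLeft (nat_lit 0x2000003) (nat_lit 113)) (.one (nat_lit 0x400000500800900a00ba010093014016611)) (.br (Nat.shiftLeft (nat_lit 0x4000007) (nat_lit 112)) (.one (nat_lit 0x400000600800900a00bc010093014016611)) (.one (nat_lit 0x400000700800900a00be010093014016611)))) (.br (Nat.shiftLeft (nat_lit 0x2800001) (nat_lit 113)) (.one (nat_lit 0x500000100800900a00b20100b3414016611)) (.br (Nat.shiftLeft (nat_lit 0x5000003) (nat_lit 112)) (.one (nat_lit 0x500000200800900a00b40100b3414016611)) (.one (nat_lit 0x500000300800900a00b60100b3414016611)))))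
def t354 : k354.all (jb2 57 fl b0) = true := by decide +kernel
noncomputable def k355 : KT := (.br (Nat.shiftLeft (nat_lit 0x2800003) (nat_lit 113)) (.br (Nat.shiftLeft (nat_lit 0x5000005) (nat_lit 112)) (.one (nat_lit 0x500000400800900a00b80100b3414016611)) (.one (nat_lit 0x500000500800900a00ba0100b3414016611))) (.br (Nat.shiftLeft (nat_lit 0x5000007) (nat_lit 112)) (.one (nat_lit 0x500000600800900a00bc0100b3414016611)) (.br (Nat.shiftLeft (nat_lit 0x3) (nat_lit 137)) (.one (nat_lit 0x500000700800900a00be0100b3414016611)) (.one (nat_lit 0x600000100800900a00b20100d3814016611)))))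
def t355 : k355.all (jb2 57 fl b0) = true := by decide +kernel
noncomputable def k356 : KT := (.br (Nat.shiftLeft (nat_lit 0x6000005) (nat_lit 112)) (.br (Nat.shiftLeft (nat_lit 0x6000003) (nat_lit 112)) (.one (nat_lit 0x600000200800900a00b40100d3814016611)) (.br (Nat.shiftLeft (nat_lit 0x1800001) (nat_lit 114)) (.one (nat_lit 0x600000300800900a00b60100d3814016611)) (.one (nat_lit 0x600000400800900a00b80100d3814016611)))) (.br (Nat.shiftLeft (nat_lit 0x3000003) (nat_lit 113)) (.one (nat_lit 0x600000500800900a00ba0100d3814016611)) (.br (Nat.shiftLeft (nat_lit 0x6000007) (nat_lit 112)) (.one (nat_lit 0x600000600800900a00bc0100d3814016611)) (.one (nat_lit 0x600000700800900a00be0100d3814016611)))))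
def t356 : k356.all (jb2 57 fl b0) = true := by decide +kernel
noncomputable def k357 : KT := (.br (Nat.shiftLeft (nat_lit 0x7000003) (nat_lit 112)) (.br (Nat.shiftLeft (nat_lit 0x3800001) (nat_lit 113)) (.one (nat_lit 0x700000100800900a00b20100f3c14016611)) (.one (nat_lit 0x700000200800900a00b40100f3c14016611))) (.br (Nat.shiftLeft (nat_lit 0x1c00001) (nat_lit 114)) (.one (nat_lit 0x700000300800900a00b60100f3c14016611)) (.one (nat_lit 0x700000400800900a00b80100f3c14016611))))
def t357 : k357.all (jb2 57 fl b0) = true := by decide +kernel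
noncomputable def k358 : KT := (.br (Nat.shiftLeft (nat_lit 0x4000001) (nat_lit 113)) (.br (Nat.shiftLeft (nat_lit 0x7000007) (nat_lit 112)) (.br (Nat.shiftLeft (nat_lit 0x3800003) (nat_lit 113)) (.one (nat_lit 0x700000500800900a00ba0100f3c14016611)) (.one (nat_lit 0x700000600800900a00bc0100f3c14016611))) (.br (Nat.shiftLeft (nat_lit 0x1) (nat_lit 139)) (.one (nat_lit 0x700000700800900a00be0100f3c14016611)) (.one (nat_lit 0x800000100800900a00b2010114014016611)))) (.br (Nat.shiftLeft (nat_lit 0x2000001) (nat_lit 114)) (.br (Nat.shiftLeft (nat_lit 0x8000003) (nat_lit 112)) (.one (nat_lit 0x800000200800900a00b4010114014016611)) (.one (nat_lit 0x800000300800900a00b6010114014016611))) (.br (Nat.shiftLeft (nat_lit 0x8000005) (nat_lit 112)) (.one (nat_lit 0x800000400800900a00b8010114014016611)) (.br (Nat.shiftLeft (nat_lit 0x4000003) (nat_lit 113)) (.one (nat_lit 0x800000500800900a00ba010114014016611)) (.one (nat_lit 0x800000600800900a00bc010114014016611))))))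
def t358 : k358.all (jb2 57 fl b0) = true := by decide +kernel
noncomputable def k359 : KT := (.br (Nat.shiftLeft (nat_lit 0xa000003) (nat_lit 112)) (.br (Nat.shiftLeft (nat_lit 0x9000005) (nat_lit 112)) (.br (Nat.shiftLeft (nat_lit 0x4800001) (nat_lit 113)) (.br (Nat.shiftLeft (nat_lit 0x9) (nat_lit 136)) (.one (nat_lit 0x800000700800900a00be010114014016611)) (.one (nat_lit 0x900000100800900a00b2010134414016611))) (.br (Nat.shiftLeft (nat_lit 0x9000003) (nat_lit 112)) (.one (nat_lit 0x900000200800900a00b4010134414016611)) (.br (Nat.shiftLeft (nat_lit 0x2400001) (nat_lit 114)) (.one (nat_lit 0x900000300800900a00b6010134414016611)) (.one (nat_lit 0x900000400800900a00b8010134414016611))))) (.br (Nat.shiftLeft (nat_lit 0x9000007) (nat_lit 112)) (.br (Nat.shiftLeft (nat_lit 0x4800003) (nat_lit 113)) (.one (nat_lit 0x900000500800900a00ba010134414016611)) (.one (nat_lit 0x900000600800900a00bc010134414016611))) (.br (Nat.shiftLeft (nat_lit 0x5) (nat_lit 137)) (.one (nat_lit 0x900000700800900a00be010134414016611))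 (.br (Nat.shiftLeft (nat_lit 0x5000001) (nat_lit 113)) (.one (nat_lit 0xa00000100800900a00b2010154814016611)) (.one (nat_lit 0xa00000200800900a00b4010154814016611)))))) (.br (Nat.shiftLeft (nat_lit 0x1) (nat_lit 148)) (.br (Nat.shiftLeft (nat_lit 0xa000005) (nat_lit 112)) (.br (Nat.shiftLeft (nat_lit 0x2800001) (nat_lit 114)) (.one (nat_lit 0xa00000300800900a00b6010154814016611)) (.one (nat_lit 0xa00000400800900a00b8010154814016611))) (.br (Nat.shiftLeft (nat_lit 0x5000003) (nat_lit 113)) (.one (nat_lit 0xa00000500800900a00ba010154814016611)) (.br (Nat.shiftLeft (nat_lit 0xa000007) (nat_lit 112)) (.one (nat_lit 0xa00000600800900a00bc010154814016611)) (.one (nat_lit 0xa00000700800900a00be010154814016611))))) (.br (Nat.shiftLeft (nat_lit 0x1) (nat_lit 149)) (.br (Nat.shiftLeft (nat_lit 0x800001) (nat_lit 125)) (.one (nat_lit 0x100000100200800900a00b4030412034416711)) (.one (nat_lit 0x100000200300800900a00b6030412054816711))) (.br (Nat.shiftLeft (nat_lit 0x1000001) (nat_lit 125)) (.one (nat_lit 0x200000100200800900a00b4050812034416711))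 (.br (Nat.shiftLeft (nat_lit 0x3) (nat_lit 148)) (.one (nat_lit 0x200000200300800900a00b6050812054816711)) (.one (nat_lit 0x300000100200800900a00b4070c12034416711)))))))
def t359 : k359.all (jb2 57 fl b0) = true := by decide +kernel
noncomputable def k360 : KT := (.br (Nat.shiftLeft (nat_lit 0x5) (nat_lit 148)) (.br (Nat.shiftLeft (nat_lit 0x1) (nat_lit 150)) (.one (nat_lit 0x300000200300800900a00b6070c12054816711)) (.br (Nat.shiftLeft (nat_lit 0x2000001) (nat_lit 125)) (.one (nat_lit 0x400000100200800900a00b4091012034416711)) (.one (nat_lit 0x400000200300800900a00b6091012054816711)))) (.br (Nat.shiftLeft (nat_lit 0x3) (nat_lit 149)) (.br (Nat.shiftLeft (nat_lit 0x2800001) (nat_lit 125)) (.one (nat_lit 0x500000100200800900a00b40b1412034416711)) (.one (nat_lit 0x500000200300800900a00b60b1412054816711))) (.br (Nat.shiftLeft (nat_lit 0x3000001) (nat_lit 125)) (.one (nat_lit 0x600000100200800900a00b40d1812034416711)) (.one (nat_lit 0x600000200300800900a00b60d1812054816711)))))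
def t360 : k360.all (jb2 57 fl b0) = true := by decide +kernel
noncomputable def k361 : KT := (.br (Nat.shiftLeft (nat_lit 0x9) (nat_lit 148)) (.br (Nat.shiftLeft (nat_lit 0x1) (nat_lit 151)) (.br (Nat.shiftLeft (nat_lit 0x3800001) (nat_lit 125)) (.one (nat_lit 0x700000100200800900a00b40f1c12034416711)) (.one (nat_lit 0x700000200300800900a00b60f1c12054816711))) (.br (Nat.shiftLeft (nat_lit 0x4000001) (nat_lit 125)) (.one (nat_lit 0x800000100200800900a00b4112012034416711)) (.one (nat_lit 0x800000200300800900a00b6112012054816711)))) (.br (Nat.shiftLeft (nat_lit 0x5) (nat_lit 149)) (.br (Nat.shiftLeft (nat_lit 0x4800001) (nat_lit 125)) (.one (nat_lit 0x900000100200800900a00b4132412034416711)) (.one (nat_lit 0x900000200300800900a00b6132412054816711))) (.br (Nat.shiftLeft (nat_lit 0x5000001) (nat_lit 125)) (.one (nat_lit 0xa00000100200800900a00b4152812034416711)) (.one (nat_lit 0xa00000200300800900a00b6152812054816711)))))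
def t361 : k361.all (jb2 57 fl b0) = true := by decide +kernel
noncomputable def s18 : KT := (.br (nat_lit 0x500000800900a00b00100120b5416511) (.br (nat_lit 0x200400800900a00b8010012054816760) (.br (nat_lit 0x100300800900a00b6010012034416760) (.br (nat_lit 0x80000100110010000020022311) k340 k341) (.br (nat_lit 0x100500800900a00ba010012034416760) k342 (.br (nat_lit 0x200300800900a00b6010012054817700) k343 k344))) (.br (nat_lit 0x300400800900a00b8010012074c16760) (.br (nat_lit 0x200600800900a00bc010012054816760) k345 (.br (nat_lit 0x300000800900a00b0010012074c16511) k346 k347)) (.br (nat_lit 0x300600800900a00bc010012074c16760) k348 (.br (nat_lit 0x400500800900a00ba010012095016760) k349 k350)))) (.br (nat_lit 0x600000100800900a00b20100d3814016611) (.br (nat_lit 0x100000600800900a00bc010032414016611) (.br (nat_lit 0x600700800900a00be0100120d5816760) k351 k352) (.br (nat_lit 0x400000400800900a00b8010093014016611) k353 (.br (nat_lit 0x500000300800900a00b60100b3414016611) k354 k355))) (.br (nat_lit 0x800000600800900a00bc010114014016611)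 (.br (nat_lit 0x600000700800900a00be0100d3814016611) k356 (.br (nat_lit 0x700000400800900a00b80100f3c14016611) k357 k358)) (.br (nat_lit 0x300000100200800900a00b4070c12034416711) k359 (.br (nat_lit 0x600000200300800900a00b60d1812054816711) k360 k361)))))
noncomputable def u18 : KT := (.br (Nat.shiftLeft (nat_lit 0x400000680b) (nat_lit 65)) (.br (Nat.shiftLeft (nat_lit 0x800000c015) (nat_lit 64)) (.br (Nat.shiftLeft (nat_lit 0x800000c00f) (nat_lit 64)) (.br (Nat.shiftLeft (nat_lit 0x1000001603) (nat_lit 67)) (.br (Nat.shiftLeft (nat_lit 0x800000b017) (nat_lit 64)) (.one (nat_lit 0x800000b016001000001602c311)) (.one (nat_lit 0x800000b017001000001602e311))) (.br (Nat.shiftLeft (nat_lit 0x2000003) (nat_lit 78)) (.one (nat_lit 0x800000b0180010000016030311)) (.br (Nat.shiftLeft (nat_lit 0x4000006007) (nat_lit 65)) (.one (nat_lit 0x800000c00d001000001801a311)) (.one (nat_lit 0x800000c00e001000001801c311))))) (.br (Nat.shiftLeft (nat_lit 0x4000006009) (nat_lit 65)) (.br (Nat.shiftLeft (nat_lit 0x800000c01) (nat_lit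 68)) (.one (nat_lit 0x800000c00f001000001801e311)) (.br (Nat.shiftLeft (nat_lit 0x800000c011) (nat_lit 64)) (.one (nat_lit 0x800000c0100010000018020311)) (.one (nat_lit 0x800000c0110010000018022311)))) (.br (Nat.shiftLeft (nat_lit 0x800000c013) (nat_lit 64)) (.one (nat_lit 0x800000c0120010000018024311)) (.br (Nat.shiftLeft (nat_lit 0x2000003005) (nat_lit 66)) (.one (nat_lit 0x800000c0130010000018026311)) (.one (nat_lit 0x800000c0140010000018028311)))))) (.br (Nat.shiftLeft (nat_lit 0x800000d01) (nat_lit 68)) (.br (Nat.shiftLeft (nat_lit 0x1000001803) (nat_lit 67)) (.br (Nat.shiftLeft (nat_lit 0x400000600b) (nat_lit 65)) (.one (nat_lit 0x800000c015001000001802a311)) (.br (Nat.shiftLeft (nat_lit 0x800000c017) (nat_lit 64)) (.one (nat_lit 0x800000c016001000001802c311)) (.one (nat_lit 0x800000c017001000001802e311)))) (.br (Nat.shiftLeft (nat_lit 0x800000d) (nat_lit 76)) (.one (nat_lit 0x800000c0180010000018030311)) (.br (Nat.shiftLeft (nat_lit 0x800000d00f) (nat_lit 64)) (.one (nat_lit 0x800000d00e001000001a01c311))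 (.one (nat_lit 0x800000d00f001000001a01e311))))) (.br (Nat.shiftLeft (nat_lit 0x800000d013) (nat_lit 64)) (.br (Nat.shiftLeft (nat_lit 0x800000d011) (nat_lit 64)) (.one (nat_lit 0x800000d010001000001a020311)) (.br (Nat.shiftLeft (nat_lit 0x4000006809) (nat_lit 65)) (.one (nat_lit 0x800000d011001000001a022311)) (.one (nat_lit 0x800000d012001000001a024311)))) (.br (Nat.shiftLeft (nat_lit 0x2000003405) (nat_lit 66)) (.one (nat_lit 0x800000d013001000001a026311)) (.br (Nat.shiftLeft (nat_lit 0x800000d015) (nat_lit 64)) (.one (nat_lit 0x800000d014001000001a028311)) (.one (nat_lit 0x800000d015001000001a02a311))))))) (.br (Nat.shiftLeft (nat_lit 0x800000f011) (nat_lit 64)) (.br (Nat.shiftLeft (nat_lit 0x4000007009) (nat_lit 65)) (.br (Nat.shiftLeft (nat_lit 0x4000007) (nat_lit 77)) (.br (Nat.shiftLeft (nat_lit 0x800000d017) (nat_lit 64)) (.one (nat_lit 0x800000d016001000001a02c311)) (.one (nat_lit 0x800000d017001000001a02e311))) (.br (Nat.shiftLeft (nat_lit 0x800000e01) (nat_lit 68)) (.one (nat_lit 0x800000e00f001000001c01e311))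 (.br (Nat.shiftLeft (nat_lit 0x800000e011) (nat_lit 64)) (.one (nat_lit 0x800000e010001000001c020311)) (.one (nat_lit 0x800000e011001000001c022311))))) (.br (Nat.shiftLeft (nat_lit 0x800000e015) (nat_lit 64)) (.br (Nat.shiftLeft (nat_lit 0x800000e013) (nat_lit 64)) (.one (nat_lit 0x800000e012001000001c024311)) (.br (Nat.shiftLeft (nat_lit 0x2000003805) (nat_lit 66)) (.one (nat_lit 0x800000e013001000001c026311)) (.one (nat_lit 0x800000e014001000001c028311)))) (.br (Nat.shiftLeft (nat_lit 0x400000700b) (nat_lit 65)) (.one (nat_lit 0x800000e015001000001c02a311)) (.br (Nat.shiftLeft (nat_lit 0x800000f) (nat_lit 76)) (.one (nat_lit 0x800000e016001000001c02c311)) (.one (nat_lit 0x800000f010001000001e020311)))))) (.br (Nat.shiftLeft (nat_lit 0x4000008009) (nat_lit 65)) (.br (Nat.shiftLeft (nat_lit 0x2000003c05) (nat_lit 66)) (.br (Nat.shiftLeft (nat_lit 0x4000007809) (nat_lit 65)) (.one (nat_lit 0x800000f011001000001e022311)) (.br (Nat.shiftLeft (nat_lit 0x800000f013) (nat_lit 64)) (.one (nat_lit 0x800000f012001000001e024311))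 (.one (nat_lit 0x800000f013001000001e026311)))) (.br (Nat.shiftLeft (nat_lit 0x800000f015) (nat_lit 64)) (.one (nat_lit 0x800000f014001000001e028311)) (.br (Nat.shiftLeft (nat_lit 0x800001) (nat_lit 80)) (.one (nat_lit 0x800000f015001000001e02a311)) (.one (nat_lit 0x80000100110010000020022311))))) (.br (Nat.shiftLeft (nat_lit 0x8000011) (nat_lit 76)) (.br (Nat.shiftLeft (nat_lit 0x8000010013) (nat_lit 64)) (.one (nat_lit 0x80000100120010000020024311)) (.br (Nat.shiftLeft (nat_lit 0x2000004005) (nat_lit 66)) (.one (nat_lit 0x80000100130010000020026311)) (.one (nat_lit 0x80000100140010000020028311)))) (.br (Nat.shiftLeft (nat_lit 0x8000011013) (nat_lit 64)) (.one (nat_lit 0x80000110120010000022024311)) (.br (Nat.shiftLeft (nat_lit 0x1001) (nat_lit 91)) (.one (nat_lit 0x80000110130010000022026311)) (.one (nat_lit 0x800900a00b0010012014016540))))))))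
def w18 : u18.all (wj 57 s18) = true := by decide +kernel
def o18 : OkW 57 (jb2 57 fl) u18 := .lift s18 _ (.br _ _ _ (.br _ _ _ (.br _ _ _ (.br _ _ _ (.leaf b0 k340 t340) (.leaf b0 k341 t341)) (.br _ _ _ (.leaf b0 k342 t342) (.br _ _ _ (.leaf b0 k343 t343) (.leaf b0 k344 t344)))) (.br _ _ _ (.br _ _ _ (.leaf b0 k345 t345) (.br _ _ _ (.leaf b0 k346 t346) (.leaf b0 k347 t347))) (.br _ _ _ (.leaf b0 k348 t348) (.br _ _ _ (.leaf b0 k349 t349) (.leaf b0 k350 t350))))) (.br _ _ _ (.br _ _ _ (.br _ _ _ (.leaf b0 k351 t351) (.leaf b0 k352 t352)) (.br _ _ _ (.leaf b0 k353 t353) (.br _ _ _ (.leaf b0 k354 t354) (.leaf b0 k355 t355)))) (.br _ _ _ (.br _ _ _ (.leaf b0 k356 t356) (.br _ _ _ (.leaf b0 k357 t357) (.leaf b0 k358 t358))) (.br _ _ _ (.leaf b0 k359 t359) (.br _ _ _ (.leaf b0 k360 t360) (.leaf b0 k361 t361)))))) w18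
noncomputable def k : KT := (.br (nat_lit 0x700900a00d000e01201401a540) (.br (nat_lit 0x700800b00f000e01001601e540) (.br (nat_lit 0x700800b00c000e010016018540) (.br (nat_lit 0x700800a013000e010014026540) u0 u1) (.br (nat_lit 0x700800b00d000e01001601a540) u2 u3)) (.br (nat_lit 0x700800c011000e010018022540) (.br (nat_lit 0x700800c00d000e01001801a540) u4 u5) (.br (nat_lit 0x700900a00b000e012014017500) u6 (.br (nat_lit 0x700900a00c000e012014018540) u7 u8)))) (.br (nat_lit 0x700900c00d000e01201801a540) (.br (nat_lit 0x700900a012000e012014024540) (.br (nat_lit 0x700900a00f000e01201401e540) u9 u10) (.br (nat_lit 0x700900b00c000e012016018540) u11 (.br (nat_lit 0x700900b00e000e01201601c540) u12 u13))) (.br (nat_lit 0x700a00b00d000e01401601a540) (.br (nat_lit 0x700900d00f000e01201a01e540) u14 u15) (.br (nat_lit 0x700a00c00e000e01401801c540) u16 (.br (nat_lit 0x800000b015001000001602a311) u17 u18)))))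
theorem ok : OkW 57 (jb2 57 fl) k := (.br _ _ _ (.br _ _ _ (.br _ _ _ (.br _ _ _ o0 o1) (.br _ _ _ o2 o3)) (.br _ _ _ (.br _ _ _ o4 o5) (.br _ _ _ o6 (.br _ _ _ o7 o8)))) (.br _ _ _ (.br _ _ _ (.br _ _ _ o9 o10) (.br _ _ _ o11 (.br _ _ _ o12 o13))) (.br _ _ _ (.br _ _ _ o14 o15) (.br _ _ _ o16 (.br _ _ _ o17 o18)))))

end Pool.Agent.Lib.MP_ed43e6_ag.Q.Y57.R40
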