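import Pool.Agent.Lib.MP_ed43e6_ag.Y57.Fl

namespace Pool.Agent.Lib.MP_ed43e6_ag.Q.Y57.R7

set_option linter.defProp false

noncomputable def b0 : BT := .node (nat_lit 1) (nat_lit 0) .leaf .leaf
noncomputable def k0 : KT := (.br (Nat.shiftLeft (nat_lit 0x1003) (nat_lit 100)) (.br (Nat.shiftLeft (nat_lit 0x3) (nat_lit 100)) (.br (Nat.shiftLeft (nat_lit 0x1) (nat_lit 100)) (.one (nat_lit 0x400b0110000008016023400)) (.br (Nat.shiftLeft (nat_lit 0x1) (nat_lit 101)) (.one (nat_lit 0x100400b0110002008016022540)) (.one (nat_lit 0x200400b0110004008016023500)))) (.br (Nat.shiftLeft (nat_lit 0x1) (nat_lit 112)) (.one (nat_lit 0x300400b0110006008016023500)) (.br (Nat.shiftLeft (nat_lit 0x801) (nat_lit 101)) (.one (nat_lit 0x100000400b0112000008016022411)) (.one (nat_lit 0x100200400b0112004008016023600))))) (.br (Nat.shiftLeft (nat_lit 0x3) (nat_lit 112)) (.br (Nat.shiftLeft (nat_lit 0x1) (nat_lit 113)) (.one (nat_lit 0x100300400b0112006008016023600)) (.br (Nat.shiftLeft (nat_lit 0x1001) (nat_lit 101)) (.one (nat_lit 0x200000400b0114000008016022411))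 (.one (nat_lit 0x200300400b0114006008016023600)))) (.br (Nat.shiftLeft (nat_lit 0x5) (nat_lit 112)) (.br (Nat.shiftLeft (nat_lit 0x1) (nat_lit 114)) (.one (nat_lit 0x300000400b0116000008016022411)) (.one (nat_lit 0x400000400b0118000008016022411))) (.br (Nat.shiftLeft (nat_lit 0x3) (nat_lit 113)) (.one (nat_lit 0x500000400b011a000008016022411)) (.one (nat_lit 0x600000400b011c000008016022411))))))
noncomputable def b1 : BT := .node (nat_lit 0xb) (nat_lit 0x1b644bf289a58d270938000e97c002359000ea6400329d0b6c897e4ea000ca7c002adf076cdb664e86d9a58ca26513289a4e00032d8006ac60013a98004ac6001ba98004e974393749c13a4003a99000ac6810038100381002c6002c6002c6002c60026600150000f0000f0000f0000f0) .leaf .leaf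
def t0 : k0.all (jb2 57 fl b1) = true := by decide +kernel
noncomputable def k1 : KT := (.br (Nat.shiftLeft (nat_lit 0x1) (nat_lit 125)) (.br (Nat.shiftLeft (nat_lit 0xb) (nat_lit 112)) (.br (Nat.shiftLeft (nat_lit 0x9) (nat_lit 112)) (.br (Nat.shiftLeft (nat_lit 0x1) (nat_lit 115)) (.one (nat_lit 0x700000400b011e000008016022411)) (.one (nat_lit 0x800000400b0110000008016124411))) (.br (Nat.shiftLeft (nat_lit 0x5) (nat_lit 113)) (.one (nat_lit 0x900000400b0112000008016124411)) (.one (nat_lit 0xa00000400b0114000008016124411)))) (.br (Nat.shiftLeft (nat_lit 0x1000003) (nat_lit 100)) (.br (Nat.shiftLeft (nat_lit 0x1) (nat_lit 124)) (.one (nat_lit 0xb00000400b0116000008016124411)) (.one (nat_lit 0x100000200400b0110004008036422511))) (.br (Nat.shiftLeft (nat_lit 0x801) (nat_lit 113)) (.one (nat_lit 0x100000300400b0110006008036422511)) (.one (nat_lit 0x100200300400b0114006008036423700))))) (.br (Nat.shiftLeft (nat_lit 0x1) (nat_lit 126)) (.br (Nat.shiftLeft (nat_lit 0x3) (nat_lit 124)) (.br (Nat.shiftLeft (nat_lit 0x2000003)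 (nat_lit 100)) (.one (nat_lit 0x200000200400b0110004008056822511)) (.one (nat_lit 0x200000300400b0110006008056822511))) (.br (Nat.shiftLeft (nat_lit 0x3000003) (nat_lit 100)) (.one (nat_lit 0x300000200400b0110004008076c22511)) (.one (nat_lit 0x300000300400b0110006008076c22511)))) (.br (Nat.shiftLeft (nat_lit 0x5) (nat_lit 124)) (.br (Nat.shiftLeft (nat_lit 0x4000003) (nat_lit 100)) (.one (nat_lit 0x400000200400b0110004008097022511)) (.one (nat_lit 0x400000300400b0110006008097022511))) (.br (Nat.shiftLeft (nat_lit 0x5000003) (nat_lit 100)) (.one (nat_lit 0x500000200400b01100040080b7422511)) (.br (Nat.shiftLeft (nat_lit 0x3) (nat_lit 125)) (.one (nat_lit 0x500000300400b01100060080b7422511)) (.one (nat_lit 0x600000200400b01100040080d7822511)))))))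
noncomputable def b2 : BT := .node (nat_lit 0x3) (nat_lit 0x27512fc9d0001d4c00065b00ed9258ca264e927492f80032d9000ac60003a99000ca7820016a0016a0010b00050) .leaf .leaf
def t1 : k1.all (jb2 57 fl b2) = true := by decide +kernel
noncomputable def k2 : KT := (.br (Nat.shiftLeft (nat_lit 0x7000003) (nat_lit 100)) (.br (Nat.shiftLeft (nat_lit 0x7) (nat_lit 124)) (.one (nat_lit 0x600000300400b01100060080d7822511)) (.one (nat_lit 0x700000200400b01100040080f7c22511))) (.br (Nat.shiftLeft (nat_lit 0x1) (nat_lit 127)) (.one (nat_lit 0x700000300400b01100060080f7c22511)) (.one (nat_lit 0x800000200400b0110004008118022511))))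
noncomputable def b3 : BT := .node (nat_lit 0x1) (nat_lit 0xdb3275259000329e000ac6010008800028) .leaf .leaf
def t2 : k2.all (jb2 57 fl b3) = true := by decide +kernel
noncomputable def k3 : KT := (.br (Nat.shiftLeft (nat_lit 0x9) (nat_lit 124)) (.one (nat_lit 0x800000300400b0110006008118022511)) (.br (Nat.shiftLeft (nat_lit 0x9000003) (nat_lit 100)) (.one (nat_lit 0x900000200400b0110004008138422511)) (.one (nat_lit 0x900000300400b0110006008138422511))))
noncomputable def b4 : BT := .node (nat_lit 0x13) (nat_lit 0x5422609450003a24000ca6819d093725d93a497a4be4c8a58ca8400612c80065b0005d2e80165b4005d2c80265b01d134b213a8003a98000ca78100363003040030400304003040030400304001ef001ef0019000190001900019000190001900019000190001900019000190) .leaf .leaf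
def t3 : k3.all (jb2 57 fl b4) = true := by decide +kernel
noncomputable def k4 : KT := (.br (Nat.shiftLeft (nat_lit 0xa000003) (nat_lit 100)) (.one (nat_lit 0xa00000200400b0110004008158822511)) (.br (Nat.shiftLeft (nat_lit 0xb) (nat_lit 124)) (.one (nat_lit 0xa00000300400b0110006008158822511)) (.one (nat_lit 0xb00000200400b0110004008178c22511))))
noncomputable def b5 : BT := .node (nat_lit 0x17) (nat_lit 0xde125f2591270938274000653c00156d00084b200158c053a12724e949c13a49d000a12d00065b200d96d00365b014b124e097edb26d9a58c003a98000ca7c004259000ac602db325f144d26e4ea27480074bc0011ac00065b600196c852704bd27513a497e4e927424e09d2005d2e8015636005d2f80165b2001d4c80275321cb1a4e49d0001d2e80056320ed993a92c6db325f13a400329f000ac60003a5e0008c782006fc006fc006fc006fc006fc006fc00641006410058700587005870058700587004cc004cc00411002fb002fb002fb0029b0029b0029b0029b001e0) .leaf .leaf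
def t4 : k4.all (jb2 57 fl b5) = true := by decide +kernel
noncomputable def k5 : KT := (.br (Nat.shiftLeft (nat_lit 0x3) (nat_lit 136)) (.br (Nat.shiftLeft (nat_lit 0x800001) (nat_lit 113)) (.br (Nat.shiftLeft (nat_lit 0x1) (nat_lit 136)) (.one (nat_lit 0xb00000300400b0110006008178c22511)) (.br (Nat.shiftLeft (nat_lit 0x1000001003) (nat_lit 100)) (.one (nat_lit 0x100000100200400b0112004028416022611)) (.one (nat_lit 0x100000100300400b0112006028416022611)))) (.br (Nat.shiftLeft (nat_lit 0x2000001003) (nat_lit 100)) (.br (Nat.shiftLeft (nat_lit 0x1) (nat_lit 137)) (.one (nat_lit 0x100000200300400b0114006028416022611)) (.one (nat_lit 0x200000100200400b0112004048816022611))) (.br (Nat.shiftLeft (nat_lit 0x1000001) (nat_lit 113)) (.one (nat_lit 0x200000100300400b0112006048816022611)) (.one (nat_lit 0x200000200300400b0114006048816022611))))) (.br (Nat.shiftLeft (nat_lit 0x1) (nat_lit 138)) (.br (Nat.shiftLeft (nat_lit 0x3000001003) (nat_lit 100)) (.one (nat_lit 0x300000100200400b0112004068c16022611)) (.br (Nat.shiftLeft (nat_lit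 0x1800001) (nat_lit 113)) (.one (nat_lit 0x300000100300400b0112006068c16022611)) (.one (nat_lit 0x300000200300400b0114006068c16022611)))) (.br (Nat.shiftLeft (nat_lit 0x2000001) (nat_lit 113)) (.br (Nat.shiftLeft (nat_lit 0x4000001003) (nat_lit 100)) (.one (nat_lit 0x400000100200400b0112004089016022611)) (.one (nat_lit 0x400000100300400b0112006089016022611))) (.br (Nat.shiftLeft (nat_lit 0x5) (nat_lit 136)) (.one (nat_lit 0x400000200300400b0114006089016022611)) (.one (nat_lit 0x500000100200400b01120040a9416022611))))))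
def t5 : k5.all (jb2 57 fl b0) = true := by decide +kernel
noncomputable def k6 : KT := (.br (Nat.shiftLeft (nat_lit 0x2800001) (nat_lit 113)) (.one (nat_lit 0x500000100300400b01120060a9416022611)) (.one (nat_lit 0x500000200300400b01140060a9416022611)))
def t6 : k6.all (jb2 57 fl b0) = true := by decide +kernel
noncomputable def k7 : KT := (.br (Nat.shiftLeft (nat_lit 0x6000001003) (nat_lit 100)) (.one (nat_lit 0x600000100200400b01120040c9816022611)) (.one (nat_lit 0x600000100300400b01120060c9816022611)))
def t7 : k7.all (jb2 57 fl b0) = true := by decide +kernel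
noncomputable def k8 : KT := (.br (Nat.shiftLeft (nat_lit 0x7) (nat_lit 136)) (.one (nat_lit 0x600000200300400b01140060c9816022611)) (.one (nat_lit 0x700000100200400b01120040e9c16022611)))
def t8 : k8.all (jb2 57 fl b0) = true := by decide +kernel
noncomputable def k9 : KT := (.br (Nat.shiftLeft (nat_lit 0x3800001) (nat_lit 113)) (.one (nat_lit 0x700000100300400b01120060e9c16022611)) (.one (nat_lit 0x700000200300400b01140060e9c16022611)))
noncomputable def b10 : BT := .node (nat_lit 0x1) (nat_lit 0x27412f897c4e82741300003a5e000cb6c003a98000ca882000e200028) .leaf .leaf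
def t9 : k9.all (jb2 57 fl b10) = true := by decide +kernel
noncomputable def k10 : KT := (.br (Nat.shiftLeft (nat_lit 0x8000001003) (nat_lit 100)) (.one (nat_lit 0x800000100200400b011200410a016022611)) (.one (nat_lit 0x800000100300400b011200610a016022611)))
noncomputable def b11 : BT := .node (nat_lit 0xb) (nat_lit 0x6f0a591324001d2c80056300cc8a4dd324001d0e80065b00ce849b93a0003a98004ea6010020f0020f0020f001af001af001af0014f0014f000f0000f0000f0000f0) .leaf .leaf
def t10 : k10.all (jb2 57 fl b11) = true := by decide +kernel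
noncomputable def k11 : KT := (.br (Nat.shiftLeft (nat_lit 0x9) (nat_lit 136)) (.one (nat_lit 0x800000200300400b011400610a016022611)) (.one (nat_lit 0x900000100200400b011200412a416022611)))
noncomputable def b12 : BT := .node (nat_lit 0x1d) (nat_lit 0x27413a497e001d4c80065400ef093aca84db36d9a58c00ba200028d600132d8000cb6029d24bd27493a126e4c0000e9740032da000ea600032a20a4dd26c4bf49b13a8976001d4c00055c000196e00065b2148c498254227424e126e001cf3000373000212d00065b016f09304a864e925f12f80039e50008d64003a5e000cb68293827493a40032d9000cb641db249c13a400329d000ac6810071e0071e006bf0060400604006040054a0048f0048f0048f003d300318002b8002b8002b8002b8002b8002b8002b8002b8002b8002b8002b8002b8002b8002b800258002580025800258) .leaf .leaf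
def t11 : k11.all (jb2 57 fl b12) = true := by decide +kernel
noncomputable def k12 : KT := (.br (Nat.shiftLeft (nat_lit 0x4800001) (nat_lit 113)) (.one (nat_lit 0x900000100300400b011200612a416022611)) (.one (nat_lit 0x900000200300400b011400612a416022611)))
noncomputable def b13 : BT := .node (nat_lit 0x1d) (nat_lit 0x9189304a864e827493009d093825f00073ca000dcc800753200195080084b400156f87b644c12a193a097e4e9000e794002398000e9800032da0a7493a497e96349c92f8003a99000ca7c003a5d000ab7c29d093725fc8c497c939000ea640032da000ab7c002a9f0a4dc97a4ea49b93009d093827413a0003a5d000ac70003a9b000ac640032d9000cb64393749c12fdb664c128a24dd2704bf004cb680032da002e89000a359002cb6400b2a00e4d89824e849b12fc9d2001d4e0005632001d30000563614c924e49d096327424e09d24bf25fa4dc9d4937000e878002b19000cb6400329d000ea600032a0000cb700032d81264497a4eb000e974002aa1065d930097c001d4d80065b20cb1a4e497c001d2e80055be0ce849c12f926c937260000753400194f8007530001571853a12704e8000ea68003a98067424e09d093827493a0013a9a000cb6401ba99006ac64200ce800bd100b1600b1600a5c009a20088c0088c00776006bb006bb0054a0054a0054a0054a004ea004ea004ea004ea004ea004ea004ea004ea004ea0048b0042b0042b003710031200258)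 .leaf .leaf
def t12 : k12.all (jb2 57 fl b13) = true := by decide +kernel
noncomputable def k13 : KT := (.br (Nat.shiftLeft (nat_lit 0xa000001003) (nat_lit 100)) (.one (nat_lit 0xa00000100200400b011200414a816022611)) (.one (nat_lit 0xa00000100300400b011200614a816022611)))
noncomputable def b14 : BT := .node (nat_lit 0x2f) (nat_lit 0x54249c944c00421d000ca6419764c127424e52704be49c24e097e001d4e00065b0001d4c80055bc001d4c00055c01ce925f92fd2724be25f24dd2704bf002ea6400b29f002cb6000b2d8004cb680032da0f6c9b664e8000cb60002b18064dc9d4937000cb700032d80674130097e93749c13a89d093825fb6cc97c93a000ea680032d9000ea64002b1b0010964002ae0000cb60002adf127424e497c00212d00055be0ce826013a0003a9a000ea6019d093927400084b400196c83b664bd27513a09804bf49ba4e09d2001d2e800463e001d4d00065b200212c80056361d1349d13a127093827400074bc00196c00084b200158c053a09d24bf6d912f49d493949c12f8003a9a000ea6000329e000ab7c0032d9000cb603918a4e4a29231260a64800421d0006d680032260008d6029d04bf274a4e09804be49c92f897e4e827492fc01ba5f004cb6801ba9b006ab780132d8000ca7c00ba9a004ea60400ea700e4800d3300c1e00c1e00c1e00c1e00c1e00bbe00bbe00bbe00bbe00b5e00b5e00b5e00b5e009ee0098f0098f00930009300093000930009300093000930008d1008d1008d1008d1008d1008d1008d1008d1007bb007bb007bb007bb007bb0070100701005ec005ec005ec005ec005ec00530003c0)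 .leaf .leaf
def t13 : k13.all (jb2 57 fl b14) = true := by decide +kernel
noncomputable def k14 : KT := (.br (Nat.shiftLeft (nat_lit 0xb) (nat_lit 136)) (.one (nat_lit 0xa00000200300400b011400614a816022611)) (.br (Nat.shiftLeft (nat_lit 0xb000001003) (nat_lit 100)) (.one (nat_lit 0xb00000100200400b011200416ac16022611)) (.one (nat_lit 0xb00000100300400b011200616ac16022611))))
noncomputable def b15 : BT := .node (nat_lit 0xb) (nat_lit 0x49ca4e497c001d4c80055bc0c9b930097e4e9274a4dd26e93925f00075340015708007532001d4c000753800196c07bc25434c924dd2724be49c24e09d000198b8005630001d4d80055c0001d4c80065b21ce949ba4dc003a98000ea601003db0037b0037b0037b0037b00265002650014f0014f0014f000f0000f0) .leaf .leaf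
def t14 : k14.all (jb2 57 fl b15) = true := by decide +kernel
noncomputable def k15 : KT := (.br (Nat.shiftLeft (nat_lit 0x3) (nat_lit 148)) (.br (Nat.shiftLeft (nat_lit 0x1) (nat_lit 148)) (.one (nat_lit 0xb00000200300400b011400616ac16022611)) (.br (Nat.shiftLeft (nat_lit 0x1) (nat_lit 149)) (.one (nat_lit 0x100000100200300400b0114026408036422711)) (.one (nat_lit 0x200000100200300400b0114046808036422711)))) (.br (Nat.shiftLeft (nat_lit 0x1) (nat_lit 150)) (.one (nat_lit 0x300000100200300400b0114066c08036422711)) (.br (Nat.shiftLeft (nat_lit 0x5) (nat_lit 148)) (.one (nat_lit 0x400000100200300400b0114087008036422711)) (.one (nat_lit 0x500000100200300400b01140a7408036422711)))))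
def t15 : k15.all (jb2 57 fl b0) = true := by decide +kernel
noncomputable def k16 : KT := (.br (Nat.shiftLeft (nat_lit 0x7) (nat_lit 148)) (.one (nat_lit 0x600000100200300400b01140c7808036422711)) (.one (nat_lit 0x700000100200300400b01140e7c08036422711)))
noncomputable def b17 : BT := .node (nat_lit 0xb) (nat_lit 0x126a4e8275000753000158e83b644eb4c93785382542002c980012b57002cc5c002b570a4d897c93628a24dc9d2de149ba6480032db000cb6000421a000ac6c003a1c000ac603003210032100321002c10020600206000f0000f0000f0000f0000f0000f0) .leaf .leaf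
def t16 : k16.all (jb2 57 fl b17) = true := by decide +kernel
noncomputable def k17 : KT := (.br (Nat.shiftLeft (nat_lit 0x9) (nat_lit 148)) (.one (nat_lit 0x800000100200300400b0114108008036422711)) (.br (Nat.shiftLeft (nat_lit 0x5) (nat_lit 149)) (.one (nat_lit 0x900000100200300400b0114128408036422711)) (.one (nat_lit 0xa00000100200300400b0114148808036422711))))
noncomputable def b18 : BT := .node (nat_lit 0x17) (nat_lit 0x13a097a4ea27412fc9d24e925f13a0013a5d004cb7000ba98000cb6c003a5e002cb64396349c13a526c4ea49b00074b800158d00065ba00196c053a12704e84c8a4e49d093727492f926e4bf274801753400596c801743e00158c80265b400994f80074c000558d092c64bd27512ed26c4bf6d924e0a2893627493a4003a5d000ab7c003a98000cb7000421b0008d64003a9a000ac6c493849b92fc003a98000ab80193627493a4003a9a000ac6c1de12b92648003356000ac601db2260945097693725f80074480011ac800753000196e05bc29374b1b6cc9d2937000ca70003299000cb68002adc0b6c9b664ea000cb60002adf0674930097c93726012fc003a9a000cb60003a9b000cb64200a410092c0087100871008710070100590005900059000590005900053000530004d000470003b5003b5003b5002fa002fa002fa0029a0029a001e0)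 .leaf .leaf
def t17 : k17.all (jb2 57 fl b18) = true := by decide +kernel
noncomputable def k18 : KT := (.one (nat_lit 0xb00000100200300400b0114168c08036422711))
def t18 : k18.all (jb2 57 fl b0) = true := by decide +kernel
noncomputable def s0 : KT := (.br (nat_lit 0x700000100200400b01120040e9c16022611) (.br (nat_lit 0x900000300400b0110006008138422511) (.br (nat_lit 0x600000200400b01100040080d7822511) (.br (nat_lit 0x600000400b011c000008016022411) k0 k1) (.br (nat_lit 0x800000200400b0110004008118022511) k2 k3)) (.br (nat_lit 0x500000100200400b01120040a9416022611) (.br (nat_lit 0xb00000200400b0110004008178c22511) k4 k5) (.br (nat_lit 0x500000200300400b01140060a9416022611) k6 (.br (nat_lit 0x600000100300400b01120060c9816022611) k7 k8)))) (.br (nat_lit 0xa00000100300400b011200614a816022611) (.br (nat_lit 0x800000100300400b011200610a016022611) (.br (nat_lit 0x700000200300400b01140060e9c16022611) k9 k10) (.br (nat_lit 0x900000100200400b011200412a416022611) k11 (.br (nat_lit 0x900000200300400b011400612a416022611) k12 k13)))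 (.br (nat_lit 0x500000100200300400b01140a7408036422711) (.br (nat_lit 0xb00000100300400b011200616ac16022611) k14 k15) (.br (nat_lit 0x700000100200300400b01140e7c08036422711) k16 (.br (nat_lit 0xa00000100200300400b0114148808036422711) k17 k18)))))
noncomputable def u0 : KT := (.one (nat_lit 0x400b0110000008016022430))
def w0 : u0.all (wj 57 s0) = true := by decide +kernel
def o0 : OkW 57 (jb2 57 fl) u0 := .lift s0 _ (.br _ _ _ (.br _ _ _ (.br _ _ _ (.br _ _ _ (.leaf b1 k0 t0) (.leaf b2 k1 t1)) (.br _ _ _ (.leaf b3 k2 t2) (.leaf b4 k3 t3))) (.br _ _ _ (.br _ _ _ (.leaf b5 k4 t4) (.leaf b0 k5 t5)) (.br _ _ _ (.leaf b0 k6 t6) (.br _ _ _ (.leaf b0 k7 t7) (.leaf b0 k8 t8))))) (.br _ _ _ (.br _ _ _ (.br _ _ _ (.leaf b10 k9 t9) (.leaf b11 k10 t10)) (.br _ _ _ (.leaf b12 k11 t11) (.br _ _ _ (.leaf b13 k12 t12) (.leaf b14 k13 t13)))) (.br _ _ _ (.br _ _ _ (.leaf b15 k14 t14) (.leaf b0 k15 t15)) (.br _ _ _ (.leaf b17 k16 t16) (.br _ _ _ (.leaf b18 k17 t17) (.leaf b0 k18 t18)))))) w0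
noncomputable def k19 : KT := (.br (Nat.shiftLeft (nat_lit 0x1003) (nat_lit 100)) (.br (Nat.shiftLeft (nat_lit 0x3) (nat_lit 100)) (.br (Nat.shiftLeft (nat_lit 0x1) (nat_lit 100)) (.one (nat_lit 0x400b0120000008016025400)) (.br (Nat.shiftLeft (nat_lit 0x1) (nat_lit 101)) (.one (nat_lit 0x100400b0120002008016024540)) (.one (nat_lit 0x200400b0120004008016025500)))) (.br (Nat.shiftLeft (nat_lit 0x1) (nat_lit 112)) (.one (nat_lit 0x300400b0120006008016025500)) (.br (Nat.shiftLeft (nat_lit 0x801) (nat_lit 101)) (.one (nat_lit 0x100000400b0122000008016024411)) (.one (nat_lit 0x100200400b0122004008016025600))))) (.br (Nat.shiftLeft (nat_lit 0x3) (nat_lit 112)) (.br (Nat.shiftLeft (nat_lit 0x1) (nat_lit 113)) (.one (nat_lit 0x100300400b0122006008016025600)) (.br (Nat.shiftLeft (nat_lit 0x1001) (nat_lit 101)) (.one (nat_lit 0x200000400b0124000008016024411)) (.one (nat_lit 0x200300400b0124006008016025600)))) (.br (Nat.shiftLeft (nat_lit 0x5) (nat_lit 112)) (.br (Nat.shiftLeft (nat_lit 0x1) (nat_lit 114)) (.one (nat_lit 0x300000400b0126000008016024411))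 (.one (nat_lit 0x400000400b0128000008016024411))) (.br (Nat.shiftLeft (nat_lit 0x3) (nat_lit 113)) (.one (nat_lit 0x500000400b012a000008016024411)) (.one (nat_lit 0x600000400b012c000008016024411))))))
noncomputable def b20 : BT := .node (nat_lit 0xb) (nat_lit 0x6d993a92c600194f80056300d134b192fd2c64ea289800753000194f00074bc00158c8544c9d44bf6d9b6cd2c6001d2f000653e001d4c00065b014e949c93a0003a9a000ea60100323002c3002c3002c3002c3002090014f0014f0014f0014f0014f000f0) .leaf .leaf
def t19 : k19.all (jb2 57 fl b20) = true := by decide +kernel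
noncomputable def k20 : KT := (.br (Nat.shiftLeft (nat_lit 0x1) (nat_lit 125)) (.br (Nat.shiftLeft (nat_lit 0xb) (nat_lit 112)) (.br (Nat.shiftLeft (nat_lit 0x9) (nat_lit 112)) (.br (Nat.shiftLeft (nat_lit 0x1) (nat_lit 115)) (.one (nat_lit 0x700000400b012e000008016024411)) (.one (nat_lit 0x800000400b0120000008016126411))) (.br (Nat.shiftLeft (nat_lit 0x5) (nat_lit 113)) (.one (nat_lit 0x900000400b0122000008016126411)) (.one (nat_lit 0xa00000400b0124000008016126411)))) (.br (Nat.shiftLeft (nat_lit 0x1000003) (nat_lit 100)) (.br (Nat.shiftLeft (nat_lit 0x1) (nat_lit 124)) (.one (nat_lit 0xb00000400b0126000008016126411)) (.one (nat_lit 0x100000200400b0120004008036424511))) (.br (Nat.shiftLeft (nat_lit 0x801) (nat_lit 113)) (.one (nat_lit 0x100000300400b0120006008036424511)) (.one (nat_lit 0x100200300400b0124006008036425700))))) (.br (Nat.shiftLeft (nat_lit 0x1) (nat_lit 126)) (.br (Nat.shiftLeft (nat_lit 0x3) (nat_lit 124)) (.br (Nat.shiftLeft (nat_lit 0x2000003) (nat_lit 100)) (.one (nat_lit 0x200000200400b0120004008056824511))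 (.one (nat_lit 0x200000300400b0120006008056824511))) (.br (Nat.shiftLeft (nat_lit 0x3000003) (nat_lit 100)) (.one (nat_lit 0x300000200400b0120004008076c24511)) (.one (nat_lit 0x300000300400b0120006008076c24511)))) (.br (Nat.shiftLeft (nat_lit 0x5) (nat_lit 124)) (.br (Nat.shiftLeft (nat_lit 0x4000003) (nat_lit 100)) (.one (nat_lit 0x400000200400b0120004008097024511)) (.one (nat_lit 0x400000300400b0120006008097024511))) (.br (Nat.shiftLeft (nat_lit 0x5000003) (nat_lit 100)) (.one (nat_lit 0x500000200400b01200040080b7424511)) (.br (Nat.shiftLeft (nat_lit 0x3) (nat_lit 125)) (.one (nat_lit 0x500000300400b01200060080b7424511)) (.one (nat_lit 0x600000200400b01200040080d7824511)))))))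
noncomputable def b21 : BT := .node (nat_lit 0x3) (nat_lit 0x6d913a49d4001d4c800463e0d1228992fc003a98000e97c10010f000af0005000050) .leaf .leaf
def t20 : k20.all (jb2 57 fl b21) = true := by decide +kernel
noncomputable def k21 : KT := (.br (Nat.shiftLeft (nat_lit 0x7000003) (nat_lit 100)) (.br (Nat.shiftLeft (nat_lit 0x7) (nat_lit 124)) (.one (nat_lit 0x600000300400b01200060080d7824511)) (.one (nat_lit 0x700000200400b01200040080f7c24511))) (.br (Nat.shiftLeft (nat_lit 0x1) (nat_lit 127)) (.one (nat_lit 0x700000300400b01200060080f7c24511)) (.one (nat_lit 0x800000200400b0120004008118024511))))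
def t21 : k21.all (jb2 57 fl b0) = true := by decide +kernel
noncomputable def k22 : KT := (.br (Nat.shiftLeft (nat_lit 0x9) (nat_lit 124)) (.one (nat_lit 0x800000300400b0120006008118024511)) (.br (Nat.shiftLeft (nat_lit 0x9000003) (nat_lit 100)) (.one (nat_lit 0x900000200400b0120004008138424511)) (.one (nat_lit 0x900000300400b0120006008138424511))))
def t22 : k22.all (jb2 57 fl b0) = true := by decide +kernel
noncomputable def k23 : KT := (.br (Nat.shiftLeft (nat_lit 0x1000001003) (nat_lit 100)) (.br (Nat.shiftLeft (nat_lit 0xb) (nat_lit 124)) (.br (Nat.shiftLeft (nat_lit 0xa000003) (nat_lit 100)) (.one (nat_lit 0xa00000200400b0120004008158824511)) (.one (nat_lit 0xa00000300400b0120006008158824511))) (.br (Nat.shiftLeft (nat_lit 0xb000003) (nat_lit 100)) (.one (nat_lit 0xb00000200400b0120004008178c24511)) (.br (Nat.shiftLeft (nat_lit 0x1) (nat_lit 136)) (.one (nat_lit 0xb00000300400b0120006008178c24511)) (.one (nat_lit 0x100000100200400b0122004028416024611))))) (.br (Nat.shiftLeft (nat_lit 0x2000001003) (nat_lit 100))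 (.br (Nat.shiftLeft (nat_lit 0x800001) (nat_lit 113)) (.one (nat_lit 0x100000100300400b0122006028416024611)) (.br (Nat.shiftLeft (nat_lit 0x1) (nat_lit 137)) (.one (nat_lit 0x100000200300400b0124006028416024611)) (.one (nat_lit 0x200000100200400b0122004048816024611)))) (.br (Nat.shiftLeft (nat_lit 0x1000001) (nat_lit 113)) (.one (nat_lit 0x200000100300400b0122006048816024611)) (.br (Nat.shiftLeft (nat_lit 0x3) (nat_lit 136)) (.one (nat_lit 0x200000200300400b0124006048816024611)) (.one (nat_lit 0x300000100200400b0122004068c16024611))))))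
noncomputable def b24 : BT := .node (nat_lit 0x17) (nat_lit 0x4e926013a0003a9a000cb6019d0938260000753000196d833a49d04c0000ea600032a00658c9d24bf000cb6400329e076cdb66939274930097e001d4c00155ba005d4c802753016f0b6d097e00194d00055bc0d1449c92fc003a5d000ca7c1004d7004d7004d7004780047800419004190041900419004190041900419003ba0035a0035a0029f0029f0029f0029f0023f0023f0023f001e0001e0) .leaf .leaf
def t23 : k23.all (jb2 57 fl b24) = true := by decide +kernel
noncomputable def k24 : KT := (.br (Nat.shiftLeft (nat_lit 0x4000001003) (nat_lit 100)) (.br (Nat.shiftLeft (nat_lit 0x1800001) (nat_lit 113)) (.one (nat_lit 0x300000100300400b0122006068c16024611)) (.br (Nat.shiftLeft (nat_lit 0x1) (nat_lit 138)) (.one (nat_lit 0x300000200300400b0124006068c16024611)) (.one (nat_lit 0x400000100200400b0122004089016024611)))) (.br (Nat.shiftLeft (nat_lit 0x5) (nat_lit 136)) (.br (Nat.shiftLeft (nat_lit 0x2000001) (nat_lit 113)) (.one (nat_lit 0x400000100300400b0122006089016024611)) (.one (nat_lit 0x400000200300400b0124006089016024611))) (.br (Nat.shiftLeft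 (nat_lit 0x5000001003) (nat_lit 100)) (.one (nat_lit 0x500000100200400b01220040a9416024611)) (.one (nat_lit 0x500000100300400b01220060a9416024611)))))
def t24 : k24.all (jb2 57 fl b0) = true := by decide +kernel
noncomputable def k25 : KT := (.br (Nat.shiftLeft (nat_lit 0x3) (nat_lit 137)) (.one (nat_lit 0x500000200300400b01240060a9416024611)) (.br (Nat.shiftLeft (nat_lit 0x6000001003) (nat_lit 100)) (.one (nat_lit 0x600000100200400b01220040c9816024611)) (.one (nat_lit 0x600000100300400b01220060c9816024611))))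
def t25 : k25.all (jb2 57 fl b0) = true := by decide +kernel
noncomputable def k26 : KT := (.br (Nat.shiftLeft (nat_lit 0x7) (nat_lit 136)) (.one (nat_lit 0x600000200300400b01240060c9816024611)) (.one (nat_lit 0x700000100200400b01220040e9c16024611)))
def t26 : k26.all (jb2 57 fl b0) = true := by decide +kernel
noncomputable def k27 : KT := (.br (Nat.shiftLeft (nat_lit 0x3800001) (nat_lit 113)) (.one (nat_lit 0x700000100300400b01220060e9c16024611)) (.one (nat_lit 0x700000200300400b01240060e9c16024611)))
def t27 : k27.all (jb2 57 fl b0) = true := by decide +kernel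
noncomputable def k28 : KT := (.br (Nat.shiftLeft (nat_lit 0x8000001003) (nat_lit 100)) (.one (nat_lit 0x800000100200400b012200410a016024611)) (.br (Nat.shiftLeft (nat_lit 0x4000001) (nat_lit 113)) (.one (nat_lit 0x800000100300400b012200610a016024611)) (.one (nat_lit 0x800000200300400b012400610a016024611))))
noncomputable def b29 : BT := .node (nat_lit 0x1) (nat_lit 0x4e849c130000425a000ab8410008700028) .leaf .leaf
def t28 : k28.all (jb2 57 fl b29) = true := by decide +kernel
noncomputable def k29 : KT := (.br (Nat.shiftLeft (nat_lit 0x9000001003) (nat_lit 100)) (.one (nat_lit 0x900000100200400b012200412a416024611)) (.br (Nat.shiftLeft (nat_lit 0x4800001) (nat_lit 113)) (.one (nat_lit 0x900000100300400b012200612a416024611)) (.one (nat_lit 0x900000200300400b012400612a416024611))))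
noncomputable def b30 : BT := .node (nat_lit 0x1d) (nat_lit 0x4e925f93a4003a5e000cb6c1db327493a8003a990008c781de149c944c003a1e000ac60193727512f00032dc000cb60193626012fc0032db000cb68196327424e40032d9000ca7410049700438003d8003d800378003780037800378003780031800318003180031800318003180031800318003180031800318003180031800318003180031800318002b8002b80025800258) .leaf .leaf
def t29 : k29.all (jb2 57 fl b30) = true := by decide +kernel
noncomputable def k30 : KT := (.br (Nat.shiftLeft (nat_lit 0xa000001003) (nat_lit 100)) (.one (nat_lit 0xa00000100200400b012200414a816024611)) (.br (Nat.shiftLeft (nat_lit 0x5000001) (nat_lit 113)) (.one (nat_lit 0xa00000100300400b012200614a816024611)) (.one (nat_lit 0xa00000200300400b012400614a816024611))))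
noncomputable def b31 : BT := .node (nat_lit 0x17) (nat_lit 0x126e4c149b80065b800196c03b6493725f00065b000156f8326e4bf275258ca2651327413009d2001d4c000563800196c00065b0001d4d00065b21ce82749300003a9a000ca84193749c93000032db000ca84193849c13a0003a9a000ac601004d5004d5004d50047500415004150041500415004150041500415004150041500415002ff002ff002ff002ff002a0002a00024000240001e0001e0) .leaf .leaf
def t30 : k30.all (jb2 57 fl b31) = true := by decide +kernel
noncomputable def k31 : KT := (.br (Nat.shiftLeft (nat_lit 0x1) (nat_lit 148)) (.br (Nat.shiftLeft (nat_lit 0xb000001003) (nat_lit 100)) (.one (nat_lit 0xb00000100200400b012200416ac16024611)) (.br (Nat.shiftLeft (nat_lit 0x5800001) (nat_lit 113)) (.one (nat_lit 0xb00000100300400b012200616ac16024611)) (.one (nat_lit 0xb00000200300400b012400616ac16024611)))) (.br (Nat.shiftLeft (nat_lit 0x3) (nat_lit 148)) (.br (Nat.shiftLeft (nat_lit 0x1) (nat_lit 149)) (.one (nat_lit 0x100000100200300400b0124026408036424711)) (.one (nat_lit 0x200000100200300400b0124046808036424711))) (.br (Nat.shiftLeft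 (nat_lit 0x1) (nat_lit 150)) (.one (nat_lit 0x300000100200300400b0124066c08036424711)) (.one (nat_lit 0x400000100200300400b0124087008036424711)))))
def t31 : k31.all (jb2 57 fl b0) = true := by decide +kernel
noncomputable def k32 : KT := (.br (Nat.shiftLeft (nat_lit 0x3) (nat_lit 149)) (.one (nat_lit 0x500000100200300400b01240a7408036424711)) (.br (Nat.shiftLeft (nat_lit 0x7) (nat_lit 148)) (.one (nat_lit 0x600000100200300400b01240c7808036424711)) (.one (nat_lit 0x700000100200300400b01240e7c08036424711))))
noncomputable def b33 : BT := .node (nat_lit 0x1) (nat_lit 0x93649b1304003a98000ab8c10008800028) .leaf .leaf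
def t32 : k32.all (jb2 57 fl b33) = true := by decide +kernel
noncomputable def k33 : KT := (.br (Nat.shiftLeft (nat_lit 0x5) (nat_lit 149)) (.br (Nat.shiftLeft (nat_lit 0x9) (nat_lit 148)) (.one (nat_lit 0x800000100200300400b0124108008036424711)) (.one (nat_lit 0x900000100200300400b0124128408036424711))) (.br (Nat.shiftLeft (nat_lit 0xb) (nat_lit 148)) (.one (nat_lit 0xa00000100200300400b0124148808036424711)) (.one (nat_lit 0xb00000100200300400b0124168c08036424711))))
noncomputable def b34 : BT := .node (nat_lit 0x1) (nat_lit 0x9372601300003a99000ab8410008800028) .leaf .leaf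
def t33 : k33.all (jb2 57 fl b34) = true := by decide +kernel
noncomputable def s1 : KT := (.br (nat_lit 0x600000100300400b01220060c9816024611) (.br (nat_lit 0x800000200400b0120004008118024511) (.br (nat_lit 0x600000400b012c000008016024411) k19 (.br (nat_lit 0x600000200400b01200040080d7824511) k20 k21)) (.br (nat_lit 0x300000100200400b0122004068c16024611) (.br (nat_lit 0x900000300400b0120006008138424511) k22 k23) (.br (nat_lit 0x500000100300400b01220060a9416024611) k24 k25))) (.br (nat_lit 0x900000200300400b012400612a416024611) (.br (nat_lit 0x700000200300400b01240060e9c16024611) (.br (nat_lit 0x700000100200400b01220040e9c16024611) k26 k27) (.br (nat_lit 0x800000200300400b012400610a016024611) k28 k29)) (.br (nat_lit 0x400000100200300400b0124087008036424711) (.br (nat_lit 0xa00000200300400b012400614a816024611) k30 k31) (.br (nat_lit 0x700000100200300400b01240e7c08036424711) k32 k33))))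
noncomputable def u1 : KT := (.one (nat_lit 0x400b0120000008016024430))
def w1 : u1.all (wj 57 s1) = true := by decide +kernel
def o1 : OkW 57 (jb2 57 fl) u1 := .lift s1 _ (.br _ _ _ (.br _ _ _ (.br _ _ _ (.leaf b20 k19 t19) (.br _ _ _ (.leaf b21 k20 t20) (.leaf b0 k21 t21))) (.br _ _ _ (.br _ _ _ (.leaf b0 k22 t22) (.leaf b24 k23 t23)) (.br _ _ _ (.leaf b0 k24 t24) (.leaf b0 k25 t25)))) (.br _ _ _ (.br _ _ _ (.br _ _ _ (.leaf b0 k26 t26) (.leaf b0 k27 t27)) (.br _ _ _ (.leaf b29 k28 t28) (.leaf b30 k29 t29))) (.br _ _ _ (.br _ _ _ (.leaf b31 k30 t30) (.leaf b0 k31 t31)) (.br _ _ _ (.leaf b33 k32 t32) (.leaf b34 k33 t33))))) w1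
noncomputable def k34 : KT := (.br (Nat.shiftLeft (nat_lit 0x1002c05) (nat_lit 66)) (.one (nat_lit 0x400b0130000008016027400)) (.br (Nat.shiftLeft (nat_lit 0x1) (nat_lit 100)) (.one (nat_lit 0x400b0140000008016029400)) (.one (nat_lit 0x100400b0130002008016026540))))
noncomputable def b35 : BT := .node (nat_lit 0x3) (nat_lit 0x51349c93a4004259000ca7819382609300003a9a000ab8010010f000b00005000050) .leaf .leaf
def t34 : k34.all (jb2 57 fl b35) = true := by decide +kernel
noncomputable def k35 : KT := (.br (Nat.shiftLeft (nat_lit 0x1) (nat_lit 113)) (.br (Nat.shiftLeft (nat_lit 0x1) (nat_lit 112)) (.br (Nat.shiftLeft (nat_lit 0x801002c05) (nat_lit 66)) (.br (Nat.shiftLeft (nat_lit 0x1) (nat_lit 101)) (.one (nat_lit 0x100400b0140002008016028540)) (.one (nat_lit 0x200400b0130004008016027500))) (.br (Nat.shiftLeft (nat_lit 0x3) (nat_lit 100)) (.one (nat_lit 0x200400b0140004008016029500)) (.br (Nat.shiftLeft (nat_lit 0xc01002c05) (nat_lit 66)) (.one (nat_lit 0x300400b0130006008016027500)) (.one (nat_lit 0x300400b0140006008016029500)))))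 (.br (Nat.shiftLeft (nat_lit 0x400801002c05) (nat_lit 66)) (.br (Nat.shiftLeft (nat_lit 0x400001002c05) (nat_lit 66)) (.one (nat_lit 0x100000400b0132000008016026411)) (.br (Nat.shiftLeft (nat_lit 0x801) (nat_lit 101)) (.one (nat_lit 0x100000400b0142000008016028411)) (.one (nat_lit 0x100200400b0132004008016027600)))) (.br (Nat.shiftLeft (nat_lit 0x1003) (nat_lit 100)) (.one (nat_lit 0x100200400b0142004008016029600)) (.br (Nat.shiftLeft (nat_lit 0x400c01002c05) (nat_lit 66)) (.one (nat_lit 0x100300400b0132006008016027600)) (.one (nat_lit 0x100300400b0142006008016029600)))))) (.br (Nat.shiftLeft (nat_lit 0x1) (nat_lit 114)) (.br (Nat.shiftLeft (nat_lit 0x800c01002c05) (nat_lit 66)) (.br (Nat.shiftLeft (nat_lit 0x800001002c05) (nat_lit 66)) (.one (nat_lit 0x200000400b0134000008016026411)) (.br (Nat.shiftLeft (nat_lit 0x1001) (nat_lit 101)) (.one (nat_lit 0x200000400b0144000008016028411)) (.one (nat_lit 0x200300400b0134006008016027600)))) (.br (Nat.shiftLeft (nat_lit 0x3) (nat_lit 112)) (.one (nat_lit 0x200300400b0144006008016029600))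 (.br (Nat.shiftLeft (nat_lit 0xc00001002c05) (nat_lit 66)) (.one (nat_lit 0x300000400b0136000008016026411)) (.one (nat_lit 0x300000400b0146000008016028411))))) (.br (Nat.shiftLeft (nat_lit 0x1400001002c05) (nat_lit 66)) (.br (Nat.shiftLeft (nat_lit 0x1000001002c05) (nat_lit 66)) (.one (nat_lit 0x400000400b0138000008016026411)) (.br (Nat.shiftLeft (nat_lit 0x5) (nat_lit 112)) (.one (nat_lit 0x400000400b0148000008016028411)) (.one (nat_lit 0x500000400b013a000008016026411)))) (.br (Nat.shiftLeft (nat_lit 0x3) (nat_lit 113)) (.one (nat_lit 0x500000400b014a000008016028411)) (.br (Nat.shiftLeft (nat_lit 0x1800001002c05) (nat_lit 66)) (.one (nat_lit 0x600000400b013c000008016026411)) (.one (nat_lit 0x600000400b014c000008016028411)))))))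
def t35 : k35.all (jb2 57 fl b0) = true := by decide +kernel
noncomputable def k36 : KT := (.br (Nat.shiftLeft (nat_lit 0x2800001002c05) (nat_lit 66)) (.br (Nat.shiftLeft (nat_lit 0x2000001002c05) (nat_lit 66)) (.br (Nat.shiftLeft (nat_lit 0x1c00001002c05) (nat_lit 66)) (.one (nat_lit 0x700000400b013e000008016026411)) (.br (Nat.shiftLeft (nat_lit 0x1) (nat_lit 115)) (.one (nat_lit 0x700000400b014e000008016028411)) (.one (nat_lit 0x800000400b0130000008016128411)))) (.br (Nat.shiftLeft (nat_lit 0x2400001002c05) (nat_lit 66)) (.br (Nat.shiftLeft (nat_lit 0x9) (nat_lit 112)) (.one (nat_lit 0x800000400b014000000801612a411)) (.one (nat_lit 0x900000400b0132000008016128411))) (.br (Nat.shiftLeft (nat_lit 0x5) (nat_lit 113)) (.one (nat_lit 0x900000400b014200000801612a411)) (.one (nat_lit 0xa00000400b0134000008016128411))))) (.br (Nat.shiftLeft (nat_lit 0x400000801002c05) (nat_lit 66)) (.br (Nat.shiftLeft (nat_lit 0x2c00001002c05) (nat_lit 66)) (.br (Nat.shiftLeft (nat_lit 0xb) (nat_lit 112)) (.one (nat_lit 0xa00000400b014400000801612a411))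 (.one (nat_lit 0xb00000400b0136000008016128411))) (.br (Nat.shiftLeft (nat_lit 0x1) (nat_lit 124)) (.one (nat_lit 0xb00000400b014600000801612a411)) (.one (nat_lit 0x100000200400b0130004008036426511)))) (.br (Nat.shiftLeft (nat_lit 0x400000c01002c05) (nat_lit 66)) (.br (Nat.shiftLeft (nat_lit 0x1000003) (nat_lit 100)) (.one (nat_lit 0x100000200400b0140004008036428511)) (.one (nat_lit 0x100000300400b0130006008036426511))) (.br (Nat.shiftLeft (nat_lit 0x801) (nat_lit 113)) (.one (nat_lit 0x100000300400b0140006008036428511)) (.one (nat_lit 0x100200300400b0134006008036427700))))))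
def t36 : k36.all (jb2 57 fl b0) = true := by decide +kernel
noncomputable def k37 : KT := (.one (nat_lit 0x100200300400b0144006008036428760))
def t37 : k37.all (jb2 57 fl b0) = true := by decide +kernel
noncomputable def k38 : KT := (.br (Nat.shiftLeft (nat_lit 0x1) (nat_lit 126)) (.br (Nat.shiftLeft (nat_lit 0x3) (nat_lit 124)) (.br (Nat.shiftLeft (nat_lit 0x2000003) (nat_lit 100)) (.br (Nat.shiftLeft (nat_lit 0x800000801002c05) (nat_lit 66)) (.one (nat_lit 0x200000200400b0130004008056826511)) (.one (nat_lit 0x200000200400b0140004008056828511))) (.br (Nat.shiftLeft (nat_lit 0x800000c01002c05) (nat_lit 66)) (.one (nat_lit 0x200000300400b0130006008056826511)) (.one (nat_lit 0x200000300400b0140006008056828511)))) (.br (Nat.shiftLeft (nat_lit 0x3000003) (nat_lit 100)) (.br (Nat.shiftLeft (nat_lit 0xc00000801002c05) (nat_lit 66)) (.one (nat_lit 0x300000200400b0130004008076c26511)) (.one (nat_lit 0x300000200400b0140004008076c28511))) (.br (Nat.shiftLeft (nat_lit 0xc00000c01002c05) (nat_lit 66)) (.one (nat_lit 0x300000300400b0130006008076c26511))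 (.one (nat_lit 0x300000300400b0140006008076c28511))))) (.br (Nat.shiftLeft (nat_lit 0x5) (nat_lit 124)) (.br (Nat.shiftLeft (nat_lit 0x4000003) (nat_lit 100)) (.br (Nat.shiftLeft (nat_lit 0x1000000801002c05) (nat_lit 66)) (.one (nat_lit 0x400000200400b0130004008097026511)) (.one (nat_lit 0x400000200400b0140004008097028511))) (.br (Nat.shiftLeft (nat_lit 0x1000000c01002c05) (nat_lit 66)) (.one (nat_lit 0x400000300400b0130006008097026511)) (.one (nat_lit 0x400000300400b0140006008097028511)))) (.br (Nat.shiftLeft (nat_lit 0x5000003) (nat_lit 100)) (.br (Nat.shiftLeft (nat_lit 0x1400000801002c05) (nat_lit 66)) (.one (nat_lit 0x500000200400b01300040080b7426511)) (.one (nat_lit 0x500000200400b01400040080b7428511))) (.br (Nat.shiftLeft (nat_lit 0x1400000c01002c05) (nat_lit 66)) (.one (nat_lit 0x500000300400b01300060080b7426511)) (.one (nat_lit 0x500000300400b01400060080b7428511))))))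
def t38 : k38.all (jb2 57 fl b0) = true := by decide +kernel
noncomputable def k39 : KT := (.br (Nat.shiftLeft (nat_lit 0x6000003) (nat_lit 100)) (.br (Nat.shiftLeft (nat_lit 0x1800000801002c05) (nat_lit 66)) (.one (nat_lit 0x600000200400b01300040080d7826511)) (.one (nat_lit 0x600000200400b01400040080d7828511))) (.br (Nat.shiftLeft (nat_lit 0x1800000c01002c05) (nat_lit 66)) (.one (nat_lit 0x600000300400b01300060080d7826511)) (.br (Nat.shiftLeft (nat_lit 0x7) (nat_lit 124)) (.one (nat_lit 0x600000300400b01400060080d7828511)) (.one (nat_lit 0x700000200400b01300040080f7c26511)))))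
def t39 : k39.all (jb2 57 fl b0) = true := by decide +kernel
noncomputable def k40 : KT := (.br (Nat.shiftLeft (nat_lit 0x1c00000c01002c05) (nat_lit 66)) (.br (Nat.shiftLeft (nat_lit 0x7000003) (nat_lit 100)) (.one (nat_lit 0x700000200400b01400040080f7c28511)) (.one (nat_lit 0x700000300400b01300060080f7c26511))) (.br (Nat.shiftLeft (nat_lit 0x1) (nat_lit 127)) (.one (nat_lit 0x700000300400b01400060080f7c28511)) (.br (Nat.shiftLeft (nat_lit 0x2000000801002c05) (nat_lit 66)) (.one (nat_lit 0x800000200400b0130004008118026511)) (.one (nat_lit 0x800000200400b0140004008118028511)))))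
def t40 : k40.all (jb2 57 fl b0) = true := by decide +kernel
noncomputable def k41 : KT := (.br (Nat.shiftLeft (nat_lit 0x9) (nat_lit 124)) (.br (Nat.shiftLeft (nat_lit 0x2000000c01002c05) (nat_lit 66)) (.one (nat_lit 0x800000300400b0130006008118026511)) (.one (nat_lit 0x800000300400b0140006008118028511))) (.br (Nat.shiftLeft (nat_lit 0x2400000801002c05) (nat_lit 66)) (.one (nat_lit 0x900000200400b0130004008138426511)) (.one (nat_lit 0x900000200400b0140004008138428511))))
def t41 : k41.all (jb2 57 fl b0) = true := by decide +kernel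
noncomputable def k42 : KT := (.br (Nat.shiftLeft (nat_lit 0x5) (nat_lit 125)) (.br (Nat.shiftLeft (nat_lit 0x2400000c01002c05) (nat_lit 66)) (.one (nat_lit 0x900000300400b0130006008138426511)) (.one (nat_lit 0x900000300400b0140006008138428511))) (.br (Nat.shiftLeft (nat_lit 0x2800000801002c05) (nat_lit 66)) (.one (nat_lit 0xa00000200400b0130004008158826511)) (.br (Nat.shiftLeft (nat_lit 0xa000003) (nat_lit 100)) (.one (nat_lit 0xa00000200400b0140004008158828511)) (.one (nat_lit 0xa00000300400b0130006008158826511)))))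
def t42 : k42.all (jb2 57 fl b0) = true := by decide +kernel
noncomputable def k43 : KT := (.br (Nat.shiftLeft (nat_lit 0x1) (nat_lit 137)) (.br (Nat.shiftLeft (nat_lit 0x1) (nat_lit 136)) (.br (Nat.shiftLeft (nat_lit 0x2c00000801002c05) (nat_lit 66)) (.br (Nat.shiftLeft (nat_lit 0xb) (nat_lit 124)) (.one (nat_lit 0xa00000300400b0140006008158828511)) (.one (nat_lit 0xb00000200400b0130004008178c26511))) (.br (Nat.shiftLeft (nat_lit 0xb000003) (nat_lit 100)) (.one (nat_lit 0xb00000200400b0140004008178c28511)) (.br (Nat.shiftLeft (nat_lit 0x2c00000c01002c05) (nat_lit 66)) (.one (nat_lit 0xb00000300400b0130006008178c26511)) (.one (nat_lit 0xb00000300400b0140006008178c28511))))) (.br (Nat.shiftLeft (nat_lit 0x400000400c01002c05) (nat_lit 66)) (.br (Nat.shiftLeft (nat_lit 0x400000400801002c05) (nat_lit 66)) (.one (nat_lit 0x100000100200400b0132004028416026611)) (.br (Nat.shiftLeft (nat_lit 0x1000001003) (nat_lit 100)) (.one (nat_lit 0x100000100200400b0142004028416028611)) (.one (nat_lit 0x100000100300400b0132006028416026611))))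 (.br (Nat.shiftLeft (nat_lit 0x800001) (nat_lit 113)) (.one (nat_lit 0x100000100300400b0142006028416028611)) (.br (Nat.shiftLeft (nat_lit 0x400000800c01002c05) (nat_lit 66)) (.one (nat_lit 0x100000200300400b0134006028416026611)) (.one (nat_lit 0x100000200300400b0144006028416028611)))))) (.br (Nat.shiftLeft (nat_lit 0x3) (nat_lit 136)) (.br (Nat.shiftLeft (nat_lit 0x800000400c01002c05) (nat_lit 66)) (.br (Nat.shiftLeft (nat_lit 0x800000400801002c05) (nat_lit 66)) (.one (nat_lit 0x200000100200400b0132004048816026611)) (.br (Nat.shiftLeft (nat_lit 0x2000001003) (nat_lit 100)) (.one (nat_lit 0x200000100200400b0142004048816028611)) (.one (nat_lit 0x200000100300400b0132006048816026611)))) (.br (Nat.shiftLeft (nat_lit 0x1000001) (nat_lit 113)) (.one (nat_lit 0x200000100300400b0142006048816028611)) (.br (Nat.shiftLeft (nat_lit 0x800000800c01002c05) (nat_lit 66)) (.one (nat_lit 0x200000200300400b0134006048816026611)) (.one (nat_lit 0x200000200300400b0144006048816028611))))) (.br (Nat.shiftLeft (nat_lit 0xc00000400c01002c05) (nat_lit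 66)) (.br (Nat.shiftLeft (nat_lit 0xc00000400801002c05) (nat_lit 66)) (.one (nat_lit 0x300000100200400b0132004068c16026611)) (.br (Nat.shiftLeft (nat_lit 0x3000001003) (nat_lit 100)) (.one (nat_lit 0x300000100200400b0142004068c16028611)) (.one (nat_lit 0x300000100300400b0132006068c16026611)))) (.br (Nat.shiftLeft (nat_lit 0x1800001) (nat_lit 113)) (.one (nat_lit 0x300000100300400b0142006068c16028611)) (.br (Nat.shiftLeft (nat_lit 0xc00000800c01002c05) (nat_lit 66)) (.one (nat_lit 0x300000200300400b0134006068c16026611)) (.one (nat_lit 0x300000200300400b0144006068c16028611)))))))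
def t43 : k43.all (jb2 57 fl b0) = true := by decide +kernel
noncomputable def k44 : KT := (.br (Nat.shiftLeft (nat_lit 0x1000000400c01002c05) (nat_lit 66)) (.br (Nat.shiftLeft (nat_lit 0x1000000400801002c05) (nat_lit 66)) (.one (nat_lit 0x400000100200400b0132004089016026611)) (.br (Nat.shiftLeft (nat_lit 0x4000001003) (nat_lit 100)) (.one (nat_lit 0x400000100200400b0142004089016028611)) (.one (nat_lit 0x400000100300400b0132006089016026611)))) (.br (Nat.shiftLeft (nat_lit 0x1000000800c01002c05) (nat_lit 66)) (.br (Nat.shiftLeft (nat_lit 0x2000001) (nat_lit 113)) (.one (nat_lit 0x400000100300400b0142006089016028611)) (.one (nat_lit 0x400000200300400b0134006089016026611))) (.br (Nat.shiftLeft (nat_lit 0x5) (nat_lit 136)) (.one (nat_lit 0x400000200300400b0144006089016028611)) (.one (nat_lit 0x500000100200400b01320040a9416026611)))))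
def t44 : k44.all (jb2 57 fl b0) = true := by decide +kernel
noncomputable def k45 : KT := (.br (Nat.shiftLeft (nat_lit 0x5000001003) (nat_lit 100)) (.one (nat_lit 0x500000100200400b01420040a9416028611)) (.br (Nat.shiftLeft (nat_lit 0x1400000400c01002c05) (nat_lit 66)) (.one (nat_lit 0x500000100300400b01320060a9416026611)) (.one (nat_lit 0x500000100300400b01420060a9416028611))))
def t45 : k45.all (jb2 57 fl b0) = true := by decide +kernel
noncomputable def k46 : KT := (.br (Nat.shiftLeft (nat_lit 0x1400000800c01002c05) (nat_lit 66)) (.one (nat_lit 0x500000200300400b01340060a9416026611)) (.br (Nat.shiftLeft (nat_lit 0x3) (nat_lit 137)) (.one (nat_lit 0x500000200300400b01440060a9416028611)) (.one (nat_lit 0x600000100200400b01320040c9816026611))))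
def t46 : k46.all (jb2 57 fl b0) = true := by decide +kernel
noncomputable def k47 : KT := (.br (Nat.shiftLeft (nat_lit 0x6000001003) (nat_lit 100)) (.one (nat_lit 0x600000100200400b01420040c9816028611)) (.br (Nat.shiftLeft (nat_lit 0x1800000400c01002c05) (nat_lit 66)) (.one (nat_lit 0x600000100300400b01320060c9816026611)) (.one (nat_lit 0x600000100300400b01420060c9816028611))))
def t47 : k47.all (jb2 57 fl b0) = true := by decide +kernel
noncomputable def k48 : KT := (.br (Nat.shiftLeft (nat_lit 0x7) (nat_lit 136)) (.br (Nat.shiftLeft (nat_lit 0x1800000800c01002c05) (nat_lit 66)) (.one (nat_lit 0x600000200300400b01340060c9816026611)) (.one (nat_lit 0x600000200300400b01440060c9816028611))) (.br (Nat.shiftLeft (nat_lit 0x1c00000400801002c05) (nat_lit 66)) (.one (nat_lit 0x700000100200400b01320040e9c16026611)) (.one (nat_lit 0x700000100200400b01420040e9c16028611))))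
def t48 : k48.all (jb2 57 fl b0) = true := by decide +kernel
noncomputable def k49 : KT := (.br (Nat.shiftLeft (nat_lit 0x1c00000400c01002c05) (nat_lit 66)) (.one (nat_lit 0x700000100300400b01320060e9c16026611)) (.br (Nat.shiftLeft (nat_lit 0x3800001) (nat_lit 113)) (.one (nat_lit 0x700000100300400b01420060e9c16028611)) (.one (nat_lit 0x700000200300400b01340060e9c16026611))))
def t49 : k49.all (jb2 57 fl b0) = true := by decide +kernel
noncomputable def k50 : KT := (.br (Nat.shiftLeft (nat_lit 0x1) (nat_lit 139)) (.one (nat_lit 0x700000200300400b01440060e9c16028611)) (.br (Nat.shiftLeft (nat_lit 0x2000000400801002c05) (nat_lit 66)) (.one (nat_lit 0x800000100200400b013200410a016026611)) (.one (nat_lit 0x800000100200400b014200410a016028611))))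
def t50 : k50.all (jb2 57 fl b0) = true := by decide +kernel
noncomputable def k51 : KT := (.br (Nat.shiftLeft (nat_lit 0x4000001) (nat_lit 113)) (.br (Nat.shiftLeft (nat_lit 0x2000000400c01002c05) (nat_lit 66)) (.one (nat_lit 0x800000100300400b013200610a016026611)) (.one (nat_lit 0x800000100300400b014200610a016028611))) (.br (Nat.shiftLeft (nat_lit 0x2000000800c01002c05) (nat_lit 66)) (.one (nat_lit 0x800000200300400b013400610a016026611)) (.one (nat_lit 0x800000200300400b014400610a016028611))))
def t51 : k51.all (jb2 57 fl b0) = true := by decide +kernel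
noncomputable def k52 : KT := (.br (Nat.shiftLeft (nat_lit 0x9000001003) (nat_lit 100)) (.br (Nat.shiftLeft (nat_lit 0x2400000400801002c05) (nat_lit 66)) (.one (nat_lit 0x900000100200400b013200412a416026611)) (.one (nat_lit 0x900000100200400b014200412a416028611))) (.br (Nat.shiftLeft (nat_lit 0x2400000400c01002c05) (nat_lit 66)) (.one (nat_lit 0x900000100300400b013200612a416026611)) (.one (nat_lit 0x900000100300400b014200612a416028611))))
def t52 : k52.all (jb2 57 fl b0) = true := by decide +kernel
noncomputable def k53 : KT := (.br (Nat.shiftLeft (nat_lit 0x5) (nat_lit 137)) (.br (Nat.shiftLeft (nat_lit 0x2400000800c01002c05) (nat_lit 66)) (.one (nat_lit 0x900000200300400b013400612a416026611)) (.one (nat_lit 0x900000200300400b014400612a416028611))) (.br (Nat.shiftLeft (nat_lit 0x2800000400801002c05) (nat_lit 66)) (.one (nat_lit 0xa00000100200400b013200414a816026611)) (.br (Nat.shiftLeft (nat_lit 0xa000001003) (nat_lit 100)) (.one (nat_lit 0xa00000100200400b014200414a816028611)) (.one (nat_lit 0xa00000100300400b013200614a816026611)))))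
def t53 : k53.all (jb2 57 fl b0) = true := by decide +kernel
noncomputable def k54 : KT := (.br (Nat.shiftLeft (nat_lit 0xb) (nat_lit 136)) (.br (Nat.shiftLeft (nat_lit 0x5000001) (nat_lit 113)) (.one (nat_lit 0xa00000100300400b014200614a816028611)) (.br (Nat.shiftLeft (nat_lit 0x2800000800c01002c05) (nat_lit 66)) (.one (nat_lit 0xa00000200300400b013400614a816026611)) (.one (nat_lit 0xa00000200300400b014400614a816028611)))) (.br (Nat.shiftLeft (nat_lit 0xb000001003) (nat_lit 100)) (.br (Nat.shiftLeft (nat_lit 0x2c00000400801002c05) (nat_lit 66)) (.one (nat_lit 0xb00000100200400b013200416ac16026611)) (.one (nat_lit 0xb00000100200400b014200416ac16028611))) (.br (Nat.shiftLeft (nat_lit 0x2c00000400c01002c05) (nat_lit 66)) (.one (nat_lit 0xb00000100300400b013200616ac16026611)) (.one (nat_lit 0xb00000100300400b014200616ac16028611)))))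
def t54 : k54.all (jb2 57 fl b0) = true := by decide +kernel
noncomputable def k55 : KT := (.br (Nat.shiftLeft (nat_lit 0x3) (nat_lit 148)) (.br (Nat.shiftLeft (nat_lit 0x1) (nat_lit 148)) (.br (Nat.shiftLeft (nat_lit 0x2c00000800c01002c05) (nat_lit 66)) (.one (nat_lit 0xb00000200300400b013400616ac16026611)) (.one (nat_lit 0xb00000200300400b014400616ac16028611))) (.br (Nat.shiftLeft (nat_lit 0x1) (nat_lit 149)) (.one (nat_lit 0x100000100200300400b0134026408036426711)) (.one (nat_lit 0x200000100200300400b0134046808036426711)))) (.br (Nat.shiftLeft (nat_lit 0x5) (nat_lit 148)) (.br (Nat.shiftLeft (nat_lit 0x1) (nat_lit 150)) (.one (nat_lit 0x300000100200300400b0134066c08036426711)) (.one (nat_lit 0x400000100200300400b0134087008036426711))) (.br (Nat.shiftLeft (nat_lit 0x3) (nat_lit 149)) (.one (nat_lit 0x500000100200300400b01340a7408036426711)) (.one (nat_lit 0x600000100200300400b01340c7808036426711)))))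
def t55 : k55.all (jb2 57 fl b0) = true := by decide +kernel
noncomputable def k56 : KT := (.br (Nat.shiftLeft (nat_lit 0x9) (nat_lit 148)) (.br (Nat.shiftLeft (nat_lit 0x1) (nat_lit 151)) (.one (nat_lit 0x700000100200300400b01340e7c08036426711)) (.one (nat_lit 0x800000100200300400b0134108008036426711))) (.br (Nat.shiftLeft (nat_lit 0x5) (nat_lit 149)) (.one (nat_lit 0x900000100200300400b0134128408036426711)) (.br (Nat.shiftLeft (nat_lit 0xb) (nat_lit 148)) (.one (nat_lit 0xa00000100200300400b0134148808036426711)) (.one (nat_lit 0xb00000100200300400b0134168c08036426711)))))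
def t56 : k56.all (jb2 57 fl b0) = true := by decide +kernel
noncomputable def s2 : KT := (.br (nat_lit 0x500000100200400b01320040a9416026611) (.br (nat_lit 0x500000300400b01400060080b7428511) (.br (nat_lit 0x600000400b014c000008016028411) (.br (nat_lit 0x100400b0130002008016026540) k34 k35) (.br (nat_lit 0x100200300400b0134006008036427700) k36 (.br (nat_lit 0x100200300400b0144006008036428760) k37 k38))) (.br (nat_lit 0x900000200400b0140004008138428511) (.br (nat_lit 0x700000200400b01300040080f7c26511) k39 (.br (nat_lit 0x800000200400b0140004008118028511) k40 k41)) (.br (nat_lit 0xa00000300400b0130006008158826511) k42 (.br (nat_lit 0x300000200300400b0144006068c16028611) k43 k44)))) (.br (nat_lit 0x800000100200400b014200410a016028611) (.br (nat_lit 0x600000100300400b01420060c9816028611) (.br (nat_lit 0x500000100300400b01420060a9416028611) k45 (.br (nat_lit 0x600000100200400b01320040c9816026611) k46 k47)) (.br (nat_lit 0x700000100200400b01420040e9c16028611) k48 (.br (nat_lit 0x700000200300400b01340060e9c16026611) k49 k50)))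 (.br (nat_lit 0xa00000100300400b013200614a816026611) (.br (nat_lit 0x800000200300400b014400610a016028611) k51 (.br (nat_lit 0x900000100300400b014200612a416028611) k52 k53)) (.br (nat_lit 0xb00000100300400b014200616ac16028611) k54 (.br (nat_lit 0x600000100200300400b01340c7808036426711) k55 k56)))))
noncomputable def u2 : KT := (.br (Nat.shiftLeft (nat_lit 0x1002c05) (nat_lit 66)) (.one (nat_lit 0x400b0130000008016026430)) (.one (nat_lit 0x400b0140000008016028430)))
def w2 : u2.all (wj 57 s2) = true := by decide +kernel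
def o2 : OkW 57 (jb2 57 fl) u2 := .lift s2 _ (.br _ _ _ (.br _ _ _ (.br _ _ _ (.br _ _ _ (.leaf b35 k34 t34) (.leaf b0 k35 t35)) (.br _ _ _ (.leaf b0 k36 t36) (.br _ _ _ (.leaf b0 k37 t37) (.leaf b0 k38 t38)))) (.br _ _ _ (.br _ _ _ (.leaf b0 k39 t39) (.br _ _ _ (.leaf b0 k40 t40) (.leaf b0 k41 t41))) (.br _ _ _ (.leaf b0 k42 t42) (.br _ _ _ (.leaf b0 k43 t43) (.leaf b0 k44 t44))))) (.br _ _ _ (.br _ _ _ (.br _ _ _ (.leaf b0 k45 t45) (.br _ _ _ (.leaf b0 k46 t46) (.leaf b0 k47 t47))) (.br _ _ _ (.leaf b0 k48 t48) (.br _ _ _ (.leaf b0 k49 t49) (.leaf b0 k50 t50)))) (.br _ _ _ (.br _ _ _ (.leaf b0 k51 t51) (.br _ _ _ (.leaf b0 k52 t52) (.leaf b0 k53 t53))) (.br _ _ _ (.leaf b0 k54 t54) (.br _ _ _ (.leaf b0 k55 t55) (.leaf b0 k56 t56)))))) w2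
noncomputable def k57 : KT := (.br (Nat.shiftLeft (nat_lit 0x400b017) (nat_lit 64)) (.br (Nat.shiftLeft (nat_lit 0x200580b) (nat_lit 65)) (.one (nat_lit 0x400b015000000801602b400)) (.one (nat_lit 0x400b016000000801602d400))) (.br (Nat.shiftLeft (nat_lit 0x1) (nat_lit 100)) (.one (nat_lit 0x400b017000000801602f400)) (.one (nat_lit 0x100400b015000200801602a540))))
def t57 : k57.all (jb2 57 fl b0) = true := by decide +kernel
noncomputable def k58 : KT := (.one (nat_lit 0x100400b016000200801602c540))
def t58 : k58.all (jb2 57 fl b0) = true := by decide +kernel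
noncomputable def k59 : KT := (.br (Nat.shiftLeft (nat_lit 0x300400b017) (nat_lit 64)) (.br (Nat.shiftLeft (nat_lit 0x200400b017) (nat_lit 64)) (.br (Nat.shiftLeft (nat_lit 0x1) (nat_lit 101)) (.one (nat_lit 0x100400b017000200801602e540)) (.br (Nat.shiftLeft (nat_lit 0x100200580b) (nat_lit 65)) (.one (nat_lit 0x200400b015000400801602b500)) (.one (nat_lit 0x200400b016000400801602d500)))) (.br (Nat.shiftLeft (nat_lit 0x3) (nat_lit 100)) (.one (nat_lit 0x200400b017000400801602f500)) (.br (Nat.shiftLeft (nat_lit 0x180200580b) (nat_lit 65)) (.one (nat_lit 0x300400b015000600801602b500)) (.one (nat_lit 0x300400b016000600801602d500))))) (.br (Nat.shiftLeft (nat_lit 0x100000400b017) (nat_lit 64)) (.br (Nat.shiftLeft (nat_lit 0x1) (nat_lit 112)) (.one (nat_lit 0x300400b017000600801602f500)) (.br (Nat.shiftLeft (nat_lit 0x80000200580b) (nat_lit 65)) (.one (nat_lit 0x100000400b015200000801602a411)) (.one (nat_lit 0x100000400b016200000801602c411)))) (.br (Nat.shiftLeft (nat_lit 0x801) (nat_lit 101)) (.one (nat_lit 0x100000400b017200000801602e411))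 (.br (Nat.shiftLeft (nat_lit 0x80100200580b) (nat_lit 65)) (.one (nat_lit 0x100200400b015200400801602b600)) (.one (nat_lit 0x100200400b016200400801602d600))))))
def t59 : k59.all (jb2 57 fl b0) = true := by decide +kernel
noncomputable def k60 : KT := (.br (Nat.shiftLeft (nat_lit 0x1003) (nat_lit 100)) (.one (nat_lit 0x100200400b017200400801602e650)) (.one (nat_lit 0x100300400b015200600801602b600)))
def t60 : k60.all (jb2 57 fl b0) = true := by decide +kernel
noncomputable def k61 : KT := (.one (nat_lit 0x100300400b016200600801602c650))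
def t61 : k61.all (jb2 57 fl b0) = true := by decide +kernel
noncomputable def k62 : KT := (.br (Nat.shiftLeft (nat_lit 0x200000400b017) (nat_lit 64)) (.br (Nat.shiftLeft (nat_lit 0x1) (nat_lit 113)) (.one (nat_lit 0x100300400b017200600801602e650)) (.br (Nat.shiftLeft (nat_lit 0x100000200580b) (nat_lit 65)) (.one (nat_lit 0x200000400b015400000801602a411)) (.one (nat_lit 0x200000400b016400000801602c411)))) (.br (Nat.shiftLeft (nat_lit 0x1001) (nat_lit 101)) (.one (nat_lit 0x200000400b017400000801602e411)) (.br (Nat.shiftLeft (nat_lit 0x100180200580b) (nat_lit 65)) (.one (nat_lit 0x200300400b015400600801602b600)) (.one (nat_lit 0x200300400b016400600801602d600)))))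
def t62 : k62.all (jb2 57 fl b0) = true := by decide +kernel
noncomputable def k63 : KT := (.br (Nat.shiftLeft (nat_lit 0x300000400b017) (nat_lit 64)) (.br (Nat.shiftLeft (nat_lit 0x3) (nat_lit 112)) (.one (nat_lit 0x200300400b017400600801602e650)) (.br (Nat.shiftLeft (nat_lit 0x180000200580b) (nat_lit 65)) (.one (nat_lit 0x300000400b015600000801602a411)) (.one (nat_lit 0x300000400b016600000801602c411)))) (.br (Nat.shiftLeft (nat_lit 0x1) (nat_lit 114)) (.one (nat_lit 0x300000400b017600000801602e411)) (.br (Nat.shiftLeft (nat_lit 0x200000200580b) (nat_lit 65)) (.one (nat_lit 0x400000400b015800000801602a411)) (.one (nat_lit 0x400000400b016800000801602c411)))))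
def t63 : k63.all (jb2 57 fl b0) = true := by decide +kernel
noncomputable def k64 : KT := (.br (Nat.shiftLeft (nat_lit 0x480000200580b) (nat_lit 65)) (.br (Nat.shiftLeft (nat_lit 0x7) (nat_lit 112)) (.br (Nat.shiftLeft (nat_lit 0x500000400b017) (nat_lit 64)) (.br (Nat.shiftLeft (nat_lit 0x5) (nat_lit 112)) (.one (nat_lit 0x400000400b017800000801602e411)) (.br (Nat.shiftLeft (nat_lit 0x280000200580b) (nat_lit 65)) (.one (nat_lit 0x500000400b015a00000801602a411)) (.one (nat_lit 0x500000400b016a00000801602c411)))) (.br (Nat.shiftLeft (nat_lit 0x300000200580b) (nat_lit 65)) (.br (Nat.shiftLeft (nat_lit 0x3) (nat_lit 113)) (.one (nat_lit 0x500000400b017a00000801602e411)) (.one (nat_lit 0x600000400b015c00000801602a411))) (.br (Nat.shiftLeft (nat_lit 0x600000400b017) (nat_lit 64)) (.one (nat_lit 0x600000400b016c00000801602c411)) (.one (nat_lit 0x600000400b017c00000801602e411))))) (.br (Nat.shiftLeft (nat_lit 0x1) (nat_lit 115)) (.br (Nat.shiftLeft (nat_lit 0x380000200580b) (nat_lit 65)) (.one (nat_lit 0x700000400b015e00000801602a411))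 (.br (Nat.shiftLeft (nat_lit 0x700000400b017) (nat_lit 64)) (.one (nat_lit 0x700000400b016e00000801602c411)) (.one (nat_lit 0x700000400b017e00000801602e411)))) (.br (Nat.shiftLeft (nat_lit 0x800000400b017) (nat_lit 64)) (.br (Nat.shiftLeft (nat_lit 0x400000200580b) (nat_lit 65)) (.one (nat_lit 0x800000400b015000000801612c411)) (.one (nat_lit 0x800000400b016000000801612e411))) (.br (Nat.shiftLeft (nat_lit 0x9) (nat_lit 112)) (.one (nat_lit 0x800000400b0170000008016130411)) (.one (nat_lit 0x900000400b015200000801612c411)))))) (.br (Nat.shiftLeft (nat_lit 0xb00000400b017) (nat_lit 64)) (.br (Nat.shiftLeft (nat_lit 0x500000200580b) (nat_lit 65)) (.br (Nat.shiftLeft (nat_lit 0x900000400b017) (nat_lit 64)) (.one (nat_lit 0x900000400b016200000801612e411)) (.br (Nat.shiftLeft (nat_lit 0x5) (nat_lit 113)) (.one (nat_lit 0x900000400b0172000008016130411)) (.one (nat_lit 0xa00000400b015400000801612c411)))) (.br (Nat.shiftLeft (nat_lit 0xb) (nat_lit 112)) (.br (Nat.shiftLeft (nat_lit 0xa00000400b017) (nat_lit 64)) (.one (nat_lit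 0xa00000400b016400000801612e411)) (.one (nat_lit 0xa00000400b0174000008016130411))) (.br (Nat.shiftLeft (nat_lit 0x580000200580b) (nat_lit 65)) (.one (nat_lit 0xb00000400b015600000801612c411)) (.one (nat_lit 0xb00000400b016600000801612e411))))) (.br (Nat.shiftLeft (nat_lit 0x100000200400b017) (nat_lit 64)) (.br (Nat.shiftLeft (nat_lit 0x1) (nat_lit 124)) (.one (nat_lit 0xb00000400b0176000008016130411)) (.br (Nat.shiftLeft (nat_lit 0x80000100200580b) (nat_lit 65)) (.one (nat_lit 0x100000200400b015000400803642a511)) (.one (nat_lit 0x100000200400b016000400803642c511)))) (.br (Nat.shiftLeft (nat_lit 0x80000180200580b) (nat_lit 65)) (.br (Nat.shiftLeft (nat_lit 0x1000003) (nat_lit 100)) (.one (nat_lit 0x100000200400b017000400803642e511)) (.one (nat_lit 0x100000300400b015000600803642a511))) (.br (Nat.shiftLeft (nat_lit 0x100000300400b017) (nat_lit 64)) (.one (nat_lit 0x100000300400b016000600803642c511)) (.one (nat_lit 0x100000300400b017000600803642e511)))))))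
def t64 : k64.all (jb2 57 fl b0) = true := by decide +kernel
noncomputable def k65 : KT := (.one (nat_lit 0x100200300400b015400600803642a760))
def t65 : k65.all (jb2 57 fl b0) = true := by decide +kernel
noncomputable def k66 : KT := (.br (Nat.shiftLeft (nat_lit 0x180000100200580b) (nat_lit 65)) (.br (Nat.shiftLeft (nat_lit 0x2000003) (nat_lit 100)) (.br (Nat.shiftLeft (nat_lit 0x100000100200580b) (nat_lit 65)) (.br (Nat.shiftLeft (nat_lit 0x1) (nat_lit 125)) (.one (nat_lit 0x100200300400b016400600803642c760)) (.one (nat_lit 0x200000200400b015000400805682a511))) (.br (Nat.shiftLeft (nat_lit 0x200000200400b017) (nat_lit 64)) (.one (nat_lit 0x200000200400b016000400805682c511)) (.one (nat_lit 0x200000200400b017000400805682e511)))) (.br (Nat.shiftLeft (nat_lit 0x200000300400b017) (nat_lit 64)) (.br (Nat.shiftLeft (nat_lit 0x100000180200580b) (nat_lit 65)) (.one (nat_lit 0x200000300400b015000600805682a511)) (.one (nat_lit 0x200000300400b016000600805682c511))) (.br (Nat.shiftLeft (nat_lit 0x3) (nat_lit 124)) (.one (nat_lit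 0x200000300400b017000600805682e511)) (.one (nat_lit 0x300000200400b0150004008076c2a511))))) (.br (Nat.shiftLeft (nat_lit 0x300000300400b017) (nat_lit 64)) (.br (Nat.shiftLeft (nat_lit 0x3000003) (nat_lit 100)) (.br (Nat.shiftLeft (nat_lit 0x300000200400b017) (nat_lit 64)) (.one (nat_lit 0x300000200400b0160004008076c2c511)) (.one (nat_lit 0x300000200400b0170004008076c2e511))) (.br (Nat.shiftLeft (nat_lit 0x180000180200580b) (nat_lit 65)) (.one (nat_lit 0x300000300400b0150006008076c2a511)) (.one (nat_lit 0x300000300400b0160006008076c2c511)))) (.br (Nat.shiftLeft (nat_lit 0x200000100200580b) (nat_lit 65)) (.br (Nat.shiftLeft (nat_lit 0x1) (nat_lit 126)) (.one (nat_lit 0x300000300400b0170006008076c2e511)) (.one (nat_lit 0x400000200400b015000400809702a511))) (.br (Nat.shiftLeft (nat_lit 0x400000200400b017) (nat_lit 64)) (.one (nat_lit 0x400000200400b016000400809702c511)) (.br (Nat.shiftLeft (nat_lit 0x4000003) (nat_lit 100)) (.one (nat_lit 0x400000200400b017000400809702e511)) (.one (nat_lit 0x400000300400b015000600809702a511)))))))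
def t66 : k66.all (jb2 57 fl b0) = true := by decide +kernel
noncomputable def k67 : KT := (.br (Nat.shiftLeft (nat_lit 0x500000200400b017) (nat_lit 64)) (.br (Nat.shiftLeft (nat_lit 0x5) (nat_lit 124)) (.br (Nat.shiftLeft (nat_lit 0x400000300400b017) (nat_lit 64)) (.one (nat_lit 0x400000300400b016000600809702c511)) (.one (nat_lit 0x400000300400b017000600809702e511))) (.br (Nat.shiftLeft (nat_lit 0x280000100200580b) (nat_lit 65)) (.one (nat_lit 0x500000200400b01500040080b742a511)) (.one (nat_lit 0x500000200400b01600040080b742c511)))) (.br (Nat.shiftLeft (nat_lit 0x280000180200580b) (nat_lit 65)) (.br (Nat.shiftLeft (nat_lit 0x5000003) (nat_lit 100)) (.one (nat_lit 0x500000200400b01700040080b742e511)) (.one (nat_lit 0x500000300400b01500060080b742a511))) (.br (Nat.shiftLeft (nat_lit 0x500000300400b017) (nat_lit 64)) (.one (nat_lit 0x500000300400b01600060080b742c511)) (.one (nat_lit 0x500000300400b01700060080b742e511)))))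
def t67 : k67.all (jb2 57 fl b0) = true := by decide +kernel
noncomputable def k68 : KT := (.br (Nat.shiftLeft (nat_lit 0x6000003) (nat_lit 100)) (.br (Nat.shiftLeft (nat_lit 0x300000100200580b) (nat_lit 65)) (.one (nat_lit 0x600000200400b01500040080d782a511)) (.br (Nat.shiftLeft (nat_lit 0x600000200400b017) (nat_lit 64)) (.one (nat_lit 0x600000200400b01600040080d782c511)) (.one (nat_lit 0x600000200400b01700040080d782e511)))) (.br (Nat.shiftLeft (nat_lit 0x600000300400b017) (nat_lit 64)) (.br (Nat.shiftLeft (nat_lit 0x300000180200580b) (nat_lit 65)) (.one (nat_lit 0x600000300400b01500060080d782a511)) (.one (nat_lit 0x600000300400b01600060080d782c511))) (.br (Nat.shiftLeft (nat_lit 0x7) (nat_lit 124)) (.one (nat_lit 0x600000300400b01700060080d782e511)) (.one (nat_lit 0x700000200400b01500040080f7c2a511)))))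
def t68 : k68.all (jb2 57 fl b0) = true := by decide +kernel
noncomputable def k69 : KT := (.br (Nat.shiftLeft (nat_lit 0x380000180200580b) (nat_lit 65)) (.br (Nat.shiftLeft (nat_lit 0x700000200400b017) (nat_lit 64)) (.one (nat_lit 0x700000200400b01600040080f7c2c511)) (.br (Nat.shiftLeft (nat_lit 0x7000003) (nat_lit 100)) (.one (nat_lit 0x700000200400b01700040080f7c2e511)) (.one (nat_lit 0x700000300400b01500060080f7c2a511)))) (.br (Nat.shiftLeft (nat_lit 0x1) (nat_lit 127)) (.br (Nat.shiftLeft (nat_lit 0x700000300400b017) (nat_lit 64)) (.one (nat_lit 0x700000300400b01600060080f7c2c511)) (.one (nat_lit 0x700000300400b01700060080f7c2e511))) (.br (Nat.shiftLeft (nat_lit 0x400000100200580b) (nat_lit 65)) (.one (nat_lit 0x800000200400b015000400811802a511)) (.one (nat_lit 0x800000200400b016000400811802c511)))))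
def t69 : k69.all (jb2 57 fl b0) = true := by decide +kernel
noncomputable def k70 : KT := (.br (Nat.shiftLeft (nat_lit 0x9) (nat_lit 124)) (.br (Nat.shiftLeft (nat_lit 0x400000180200580b) (nat_lit 65)) (.br (Nat.shiftLeft (nat_lit 0x8000003) (nat_lit 100)) (.one (nat_lit 0x800000200400b017000400811802e511)) (.one (nat_lit 0x800000300400b015000600811802a511))) (.br (Nat.shiftLeft (nat_lit 0x800000300400b017) (nat_lit 64)) (.one (nat_lit 0x800000300400b016000600811802c511)) (.one (nat_lit 0x800000300400b017000600811802e511)))) (.br (Nat.shiftLeft (nat_lit 0x900000200400b017) (nat_lit 64)) (.br (Nat.shiftLeft (nat_lit 0x480000100200580b) (nat_lit 65)) (.one (nat_lit 0x900000200400b015000400813842a511)) (.one (nat_lit 0x900000200400b016000400813842c511))) (.br (Nat.shiftLeft (nat_lit 0x9000003) (nat_lit 100)) (.one (nat_lit 0x900000200400b017000400813842e511)) (.one (nat_lit 0x900000300400b015000600813842a511)))))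
def t70 : k70.all (jb2 57 fl b0) = true := by decide +kernel
noncomputable def k71 : KT := (.br (Nat.shiftLeft (nat_lit 0xa000003) (nat_lit 100)) (.br (Nat.shiftLeft (nat_lit 0x5) (nat_lit 125)) (.br (Nat.shiftLeft (nat_lit 0x900000300400b017) (nat_lit 64)) (.one (nat_lit 0x900000300400b016000600813842c511)) (.one (nat_lit 0x900000300400b017000600813842e511))) (.br (Nat.shiftLeft (nat_lit 0x500000100200580b) (nat_lit 65)) (.one (nat_lit 0xa00000200400b015000400815882a511)) (.br (Nat.shiftLeft (nat_lit 0xa00000200400b017) (nat_lit 64)) (.one (nat_lit 0xa00000200400b016000400815882c511)) (.one (nat_lit 0xa00000200400b017000400815882e511))))) (.br (Nat.shiftLeft (nat_lit 0xa00000300400b017) (nat_lit 64)) (.br (Nat.shiftLeft (nat_lit 0x500000180200580b) (nat_lit 65)) (.one (nat_lit 0xa00000300400b015000600815882a511)) (.one (nat_lit 0xa00000300400b016000600815882c511))) (.br (Nat.shiftLeft (nat_lit 0xb) (nat_lit 124)) (.one (nat_lit 0xa00000300400b017000600815882e511)) (.br (Nat.shiftLeft (nat_lit 0x580000100200580b) (nat_lit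 65)) (.one (nat_lit 0xb00000200400b0150004008178c2a511)) (.one (nat_lit 0xb00000200400b0160004008178c2c511))))))
def t71 : k71.all (jb2 57 fl b0) = true := by decide +kernel
noncomputable def k72 : KT := (.br (Nat.shiftLeft (nat_lit 0x1000001) (nat_lit 113)) (.br (Nat.shiftLeft (nat_lit 0x1000001003) (nat_lit 100)) (.br (Nat.shiftLeft (nat_lit 0xb00000300400b017) (nat_lit 64)) (.br (Nat.shiftLeft (nat_lit 0xb000003) (nat_lit 100)) (.one (nat_lit 0xb00000200400b0170004008178c2e511)) (.br (Nat.shiftLeft (nat_lit 0x580000180200580b) (nat_lit 65)) (.one (nat_lit 0xb00000300400b0150006008178c2a511)) (.one (nat_lit 0xb00000300400b0160006008178c2c511)))) (.br (Nat.shiftLeft (nat_lit 0x1) (nat_lit 136)) (.one (nat_lit 0xb00000300400b0170006008178c2e511)) (.br (Nat.shiftLeft (nat_lit 0x80000080100200580b) (nat_lit 65)) (.one (nat_lit 0x100000100200400b015200402841602a611)) (.one (nat_lit 0x100000100200400b016200402841602c611))))) (.br (Nat.shiftLeft (nat_lit 0x1) (nat_lit 137)) (.br (Nat.shiftLeft (nat_lit 0x800001) (nat_lit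 113)) (.one (nat_lit 0x100000100300400b015200602841602a611)) (.br (Nat.shiftLeft (nat_lit 0x80000100180200580b) (nat_lit 65)) (.one (nat_lit 0x100000200300400b015400602841602a611)) (.one (nat_lit 0x100000200300400b016400602841602c611)))) (.br (Nat.shiftLeft (nat_lit 0x100000080100200580b) (nat_lit 65)) (.one (nat_lit 0x200000100200400b015200404881602a611)) (.br (Nat.shiftLeft (nat_lit 0x2000001003) (nat_lit 100)) (.one (nat_lit 0x200000100200400b016200404881602c611)) (.one (nat_lit 0x200000100300400b015200604881602a611)))))) (.br (Nat.shiftLeft (nat_lit 0x180000100180200580b) (nat_lit 65)) (.br (Nat.shiftLeft (nat_lit 0x180000080100200580b) (nat_lit 65)) (.br (Nat.shiftLeft (nat_lit 0x100000100180200580b) (nat_lit 65)) (.one (nat_lit 0x200000200300400b015400604881602a611)) (.br (Nat.shiftLeft (nat_lit 0x3) (nat_lit 136)) (.one (nat_lit 0x200000200300400b016400604881602c611)) (.one (nat_lit 0x300000100200400b0152004068c1602a611)))) (.br (Nat.shiftLeft (nat_lit 0x3000001003) (nat_lit 100)) (.one (nat_lit 0x300000100200400b0162004068c1602c611))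 (.br (Nat.shiftLeft (nat_lit 0x1800001) (nat_lit 113)) (.one (nat_lit 0x300000100300400b0152006068c1602a611)) (.one (nat_lit 0x300000200300400b0154006068c1602a611))))) (.br (Nat.shiftLeft (nat_lit 0x4000001003) (nat_lit 100)) (.br (Nat.shiftLeft (nat_lit 0x1) (nat_lit 138)) (.one (nat_lit 0x300000200300400b0164006068c1602c611)) (.br (Nat.shiftLeft (nat_lit 0x200000080100200580b) (nat_lit 65)) (.one (nat_lit 0x400000100200400b015200408901602a611)) (.one (nat_lit 0x400000100200400b016200408901602c611)))) (.br (Nat.shiftLeft (nat_lit 0x2000001) (nat_lit 113)) (.one (nat_lit 0x400000100300400b015200608901602a611)) (.br (Nat.shiftLeft (nat_lit 0x200000100180200580b) (nat_lit 65)) (.one (nat_lit 0x400000200300400b015400608901602a611)) (.one (nat_lit 0x400000200300400b016400608901602c611)))))))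
def t72 : k72.all (jb2 57 fl b0) = true := by decide +kernel
noncomputable def k73 : KT := (.br (Nat.shiftLeft (nat_lit 0x5000001003) (nat_lit 100)) (.br (Nat.shiftLeft (nat_lit 0x280000080100200580b) (nat_lit 65)) (.one (nat_lit 0x500000100200400b01520040a941602a611)) (.one (nat_lit 0x500000100200400b01620040a941602c611))) (.br (Nat.shiftLeft (nat_lit 0x2800001) (nat_lit 113)) (.one (nat_lit 0x500000100300400b01520060a941602a611)) (.br (Nat.shiftLeft (nat_lit 0x280000100180200580b) (nat_lit 65)) (.one (nat_lit 0x500000200300400b01540060a941602a611)) (.one (nat_lit 0x500000200300400b01640060a941602c611)))))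
def t73 : k73.all (jb2 57 fl b0) = true := by decide +kernel
noncomputable def k74 : KT := (.br (Nat.shiftLeft (nat_lit 0x6000001003) (nat_lit 100)) (.br (Nat.shiftLeft (nat_lit 0x300000080100200580b) (nat_lit 65)) (.one (nat_lit 0x600000100200400b01520040c981602a611)) (.one (nat_lit 0x600000100200400b01620040c981602c611))) (.br (Nat.shiftLeft (nat_lit 0x3000001) (nat_lit 113)) (.one (nat_lit 0x600000100300400b01520060c981602a611)) (.br (Nat.shiftLeft (nat_lit 0x300000100180200580b) (nat_lit 65)) (.one (nat_lit 0x600000200300400b01540060c981602a611)) (.one (nat_lit 0x600000200300400b01640060c981602c611)))))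
def t74 : k74.all (jb2 57 fl b0) = true := by decide +kernel
noncomputable def k75 : KT := (.br (Nat.shiftLeft (nat_lit 0x3800001) (nat_lit 113)) (.br (Nat.shiftLeft (nat_lit 0x380000080100200580b) (nat_lit 65)) (.one (nat_lit 0x700000100200400b01520040e9c1602a611)) (.br (Nat.shiftLeft (nat_lit 0x7000001003) (nat_lit 100)) (.one (nat_lit 0x700000100200400b01620040e9c1602c611)) (.one (nat_lit 0x700000100300400b01520060e9c1602a611)))) (.br (Nat.shiftLeft (nat_lit 0x380000100180200580b) (nat_lit 65)) (.one (nat_lit 0x700000200300400b01540060e9c1602a611)) (.br (Nat.shiftLeft (nat_lit 0x1) (nat_lit 139)) (.one (nat_lit 0x700000200300400b01640060e9c1602c611)) (.one (nat_lit 0x800000100200400b015200410a01602a611)))))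
def t75 : k75.all (jb2 57 fl b0) = true := by decide +kernel
noncomputable def k76 : KT := (.br (Nat.shiftLeft (nat_lit 0x400000100180200580b) (nat_lit 65)) (.br (Nat.shiftLeft (nat_lit 0x8000001003) (nat_lit 100)) (.one (nat_lit 0x800000100200400b016200410a01602c611)) (.br (Nat.shiftLeft (nat_lit 0x4000001) (nat_lit 113)) (.one (nat_lit 0x800000100300400b015200610a01602a611)) (.one (nat_lit 0x800000200300400b015400610a01602a611)))) (.br (Nat.shiftLeft (nat_lit 0x480000080100200580b) (nat_lit 65)) (.br (Nat.shiftLeft (nat_lit 0x9) (nat_lit 136)) (.one (nat_lit 0x800000200300400b016400610a01602c611)) (.one (nat_lit 0x900000100200400b015200412a41602a611))) (.br (Nat.shiftLeft (nat_lit 0x9000001003) (nat_lit 100)) (.one (nat_lit 0x900000100200400b016200412a41602c611)) (.one (nat_lit 0x900000100300400b015200612a41602a611)))))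
def t76 : k76.all (jb2 57 fl b0) = true := by decide +kernel
noncomputable def k77 : KT := (.br (Nat.shiftLeft (nat_lit 0x500000100180200580b) (nat_lit 65)) (.br (Nat.shiftLeft (nat_lit 0x500000080100200580b) (nat_lit 65)) (.br (Nat.shiftLeft (nat_lit 0x480000100180200580b) (nat_lit 65)) (.one (nat_lit 0x900000200300400b015400612a41602a611)) (.br (Nat.shiftLeft (nat_lit 0x5) (nat_lit 137)) (.one (nat_lit 0x900000200300400b016400612a41602c611)) (.one (nat_lit 0xa00000100200400b015200414a81602a611)))) (.br (Nat.shiftLeft (nat_lit 0xa000001003) (nat_lit 100)) (.one (nat_lit 0xa00000100200400b016200414a81602c611)) (.br (Nat.shiftLeft (nat_lit 0x5000001) (nat_lit 113)) (.one (nat_lit 0xa00000100300400b015200614a81602a611)) (.one (nat_lit 0xa00000200300400b015400614a81602a611))))) (.br (Nat.shiftLeft (nat_lit 0xb000001003) (nat_lit 100)) (.br (Nat.shiftLeft (nat_lit 0xb) (nat_lit 136)) (.one (nat_lit 0xa00000200300400b016400614a81602c611)) (.br (Nat.shiftLeft (nat_lit 0x580000080100200580b) (nat_lit 65)) (.one (nat_lit 0xb00000100200400b015200416ac1602a611))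 (.one (nat_lit 0xb00000100200400b016200416ac1602c611)))) (.br (Nat.shiftLeft (nat_lit 0x5800001) (nat_lit 113)) (.one (nat_lit 0xb00000100300400b015200616ac1602a611)) (.br (Nat.shiftLeft (nat_lit 0x580000100180200580b) (nat_lit 65)) (.one (nat_lit 0xb00000200300400b015400616ac1602a611)) (.one (nat_lit 0xb00000200300400b016400616ac1602c611))))))
def t77 : k77.all (jb2 57 fl b0) = true := by decide +kernel
noncomputable def s3 : KT := (.br (nat_lit 0x400000300400b015000600809702a511) (.br (nat_lit 0x100300400b016200600801602c650) (.br (nat_lit 0x100400b016000200801602c540) (.br (nat_lit 0x100400b015000200801602a540) k57 k58) (.br (nat_lit 0x100200400b016200400801602d600) k59 (.br (nat_lit 0x100300400b015200600801602b600) k60 k61))) (.br (nat_lit 0x400000400b016800000801602c411) (.br (nat_lit 0x200300400b016400600801602d600) k62 k63) (.br (nat_lit 0x100000300400b017000600803642e511) k64 (.br (nat_lit 0x100200300400b015400600803642a760) k65 k66)))) (.br (nat_lit 0xb00000200400b0160004008178c2c511) (.br (nat_lit 0x700000200400b01500040080f7c2a511)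 (.br (nat_lit 0x500000300400b01700060080b742e511) k67 k68) (.br (nat_lit 0x800000200400b016000400811802c511) k69 (.br (nat_lit 0x900000300400b015000600813842a511) k70 k71))) (.br (nat_lit 0x600000200300400b01640060c981602c611) (.br (nat_lit 0x400000200300400b016400608901602c611) k72 (.br (nat_lit 0x500000200300400b01640060a941602c611) k73 k74)) (.br (nat_lit 0x800000100200400b015200410a01602a611) k75 (.br (nat_lit 0x900000100300400b015200612a41602a611) k76 k77)))))
noncomputable def u3 : KT := (.br (Nat.shiftLeft (nat_lit 0x200580b) (nat_lit 65)) (.one (nat_lit 0x400b015000000801602a430)) (.br (Nat.shiftLeft (nat_lit 0x400b017) (nat_lit 64)) (.one (nat_lit 0x400b016000000801602c430)) (.one (nat_lit 0x400b017000000801602e430))))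
def w3 : u3.all (wj 57 s3) = true := by decide +kernel
def o3 : OkW 57 (jb2 57 fl) u3 := .lift s3 _ (.br _ _ _ (.br _ _ _ (.br _ _ _ (.br _ _ _ (.leaf b0 k57 t57) (.leaf b0 k58 t58)) (.br _ _ _ (.leaf b0 k59 t59) (.br _ _ _ (.leaf b0 k60 t60) (.leaf b0 k61 t61)))) (.br _ _ _ (.br _ _ _ (.leaf b0 k62 t62) (.leaf b0 k63 t63)) (.br _ _ _ (.leaf b0 k64 t64) (.br _ _ _ (.leaf b0 k65 t65) (.leaf b0 k66 t66))))) (.br _ _ _ (.br _ _ _ (.br _ _ _ (.leaf b0 k67 t67) (.leaf b0 k68 t68)) (.br _ _ _ (.leaf b0 k69 t69) (.br _ _ _ (.leaf b0 k70 t70) (.leaf b0 k71 t71)))) (.br _ _ _ (.br _ _ _ (.leaf b0 k72 t72) (.br _ _ _ (.leaf b0 k73 t73) (.leaf b0 k74 t74))) (.br _ _ _ (.leaf b0 k75 t75) (.br _ _ _ (.leaf b0 k76 t76) (.leaf b0 k77 t77)))))) w3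
noncomputable def k78 : KT := (.br (Nat.shiftLeft (nat_lit 0x1) (nat_lit 100)) (.one (nat_lit 0x400b0180000008016031400)) (.one (nat_lit 0x100400b0180002008016030540)))
def t78 : k78.all (jb2 57 fl b0) = true := by decide +kernel
noncomputable def k79 : KT := (.br (Nat.shiftLeft (nat_lit 0xc01003) (nat_lit 78)) (.br (Nat.shiftLeft (nat_lit 0x1) (nat_lit 101)) (.one (nat_lit 0x100400c00d000200801801a540)) (.br (Nat.shiftLeft (nat_lit 0x3) (nat_lit 100)) (.one (nat_lit 0x200400b0180004008016031500)) (.one (nat_lit 0x300400b0180006008016031500)))) (.br (Nat.shiftLeft (nat_lit 0x1) (nat_lit 112)) (.one (nat_lit 0x300400c00d000600801801b500)) (.br (Nat.shiftLeft (nat_lit 0x400001003) (nat_lit 78)) (.one (nat_lit 0x100000400b0182000008016030411)) (.one (nat_lit 0x100000400c00d200000801801a411)))))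
def t79 : k79.all (jb2 57 fl b0) = true := by decide +kernel
noncomputable def k80 : KT := (.br (Nat.shiftLeft (nat_lit 0x400801003) (nat_lit 78)) (.one (nat_lit 0x100200400b0182004008016030650)) (.one (nat_lit 0x100200400c00d200400801801b600)))
def t80 : k80.all (jb2 57 fl b0) = true := by decide +kernel
noncomputable def k81 : KT := (.br (Nat.shiftLeft (nat_lit 0x1) (nat_lit 113)) (.br (Nat.shiftLeft (nat_lit 0x400c01003) (nat_lit 78)) (.one (nat_lit 0x100300400b0182006008016030650)) (.one (nat_lit 0x100300400c00d200600801801b600))) (.br (Nat.shiftLeft (nat_lit 0x800001003) (nat_lit 78)) (.one (nat_lit 0x200000400b0184000008016030411)) (.one (nat_lit 0x200000400c00d400000801801a411))))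
def t81 : k81.all (jb2 57 fl b0) = true := by decide +kernel
noncomputable def k82 : KT := (.br (Nat.shiftLeft (nat_lit 0x1400001003) (nat_lit 78)) (.br (Nat.shiftLeft (nat_lit 0xc00001003) (nat_lit 78)) (.br (Nat.shiftLeft (nat_lit 0x800c01003) (nat_lit 78)) (.one (nat_lit 0x200300400b0184006008016030650)) (.br (Nat.shiftLeft (nat_lit 0x3) (nat_lit 112)) (.one (nat_lit 0x200300400c00d400600801801b600)) (.one (nat_lit 0x300000400b0186000008016030411)))) (.br (Nat.shiftLeft (nat_lit 0x1000001003) (nat_lit 78)) (.br (Nat.shiftLeft (nat_lit 0x1) (nat_lit 114)) (.one (nat_lit 0x300000400c00d600000801801a411)) (.one (nat_lit 0x400000400b0188000008016030411))) (.br (Nat.shiftLeft (nat_lit 0x5) (nat_lit 112)) (.one (nat_lit 0x400000400c00d800000801801a411)) (.one (nat_lit 0x500000400b018a000008016030411))))) (.br (Nat.shiftLeft (nat_lit 0x7) (nat_lit 112)) (.br (Nat.shiftLeft (nat_lit 0x3) (nat_lit 113)) (.one (nat_lit 0x500000400c00da00000801801a411)) (.br (Nat.shiftLeft (nat_lit 0x1800001003) (nat_lit 78)) (.one (nat_lit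 0x600000400b018c000008016030411)) (.one (nat_lit 0x600000400c00dc00000801801a411)))) (.br (Nat.shiftLeft (nat_lit 0x1) (nat_lit 115)) (.br (Nat.shiftLeft (nat_lit 0x1c00001003) (nat_lit 78)) (.one (nat_lit 0x700000400b018e000008016030411)) (.one (nat_lit 0x700000400c00de00000801801a411))) (.br (Nat.shiftLeft (nat_lit 0x2000001003) (nat_lit 78)) (.one (nat_lit 0x800000400b0180000008016132411)) (.one (nat_lit 0x800000400c00d000000801811c411))))))
def t82 : k82.all (jb2 57 fl b0) = true := by decide +kernel
noncomputable def k83 : KT := (.br (Nat.shiftLeft (nat_lit 0x800000801003) (nat_lit 78)) (.br (Nat.shiftLeft (nat_lit 0x3) (nat_lit 114)) (.br (Nat.shiftLeft (nat_lit 0x2800001003) (nat_lit 78)) (.br (Nat.shiftLeft (nat_lit 0x2400001003) (nat_lit 78)) (.one (nat_lit 0x900000400b0182000008016132411)) (.br (Nat.shiftLeft (nat_lit 0x5) (nat_lit 113)) (.one (nat_lit 0x900000400c00d200000801811c411)) (.one (nat_lit 0xa00000400b0184000008016132411)))) (.br (Nat.shiftLeft (nat_lit 0xb) (nat_lit 112)) (.one (nat_lit 0xa00000400c00d400000801811c411))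 (.br (Nat.shiftLeft (nat_lit 0x2c00001003) (nat_lit 78)) (.one (nat_lit 0xb00000400b0186000008016132411)) (.one (nat_lit 0xb00000400c00d600000801811c411))))) (.br (Nat.shiftLeft (nat_lit 0x1000003) (nat_lit 100)) (.br (Nat.shiftLeft (nat_lit 0x1) (nat_lit 124)) (.one (nat_lit 0xc00000400c00d800000801811c411)) (.br (Nat.shiftLeft (nat_lit 0x400000801003) (nat_lit 78)) (.one (nat_lit 0x100000200400b0180004008036430511)) (.one (nat_lit 0x100000200400c00d000400803841a511)))) (.br (Nat.shiftLeft (nat_lit 0x801) (nat_lit 113)) (.br (Nat.shiftLeft (nat_lit 0x400000c01003) (nat_lit 78)) (.one (nat_lit 0x100000300400b0180006008036430511)) (.one (nat_lit 0x100000300400c00d000600803841a511))) (.br (Nat.shiftLeft (nat_lit 0x1) (nat_lit 125)) (.one (nat_lit 0x100200300400c00d400600803841b700)) (.one (nat_lit 0x200000200400b0180004008056830511)))))) (.br (Nat.shiftLeft (nat_lit 0x1) (nat_lit 126)) (.br (Nat.shiftLeft (nat_lit 0x3) (nat_lit 124)) (.br (Nat.shiftLeft (nat_lit 0x2000003) (nat_lit 100)) (.one (nat_lit 0x200000200400c00d000400805881a511))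 (.br (Nat.shiftLeft (nat_lit 0x800000c01003) (nat_lit 78)) (.one (nat_lit 0x200000300400b0180006008056830511)) (.one (nat_lit 0x200000300400c00d000600805881a511)))) (.br (Nat.shiftLeft (nat_lit 0x3000003) (nat_lit 100)) (.br (Nat.shiftLeft (nat_lit 0xc00000801003) (nat_lit 78)) (.one (nat_lit 0x300000200400b0180004008076c30511)) (.one (nat_lit 0x300000200400c00d0004008078c1a511))) (.br (Nat.shiftLeft (nat_lit 0xc00000c01003) (nat_lit 78)) (.one (nat_lit 0x300000300400b0180006008076c30511)) (.one (nat_lit 0x300000300400c00d0006008078c1a511))))) (.br (Nat.shiftLeft (nat_lit 0x1000000c01003) (nat_lit 78)) (.br (Nat.shiftLeft (nat_lit 0x1000000801003) (nat_lit 78)) (.one (nat_lit 0x400000200400b0180004008097030511)) (.br (Nat.shiftLeft (nat_lit 0x4000003) (nat_lit 100)) (.one (nat_lit 0x400000200400c00d000400809901a511)) (.one (nat_lit 0x400000300400b0180006008097030511)))) (.br (Nat.shiftLeft (nat_lit 0x1400000801003) (nat_lit 78)) (.br (Nat.shiftLeft (nat_lit 0x5) (nat_lit 124)) (.one (nat_lit 0x400000300400c00d000600809901a511))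 (.one (nat_lit 0x500000200400b01800040080b7430511))) (.br (Nat.shiftLeft (nat_lit 0x5000003) (nat_lit 100)) (.one (nat_lit 0x500000200400c00d00040080b941a511)) (.one (nat_lit 0x500000300400b01800060080b7430511)))))))
def t83 : k83.all (jb2 57 fl b0) = true := by decide +kernel
noncomputable def k84 : KT := (.br (Nat.shiftLeft (nat_lit 0x6000003) (nat_lit 100)) (.br (Nat.shiftLeft (nat_lit 0x3) (nat_lit 125)) (.one (nat_lit 0x500000300400c00d00060080b941a511)) (.br (Nat.shiftLeft (nat_lit 0x1800000801003) (nat_lit 78)) (.one (nat_lit 0x600000200400b01800040080d7830511)) (.one (nat_lit 0x600000200400c00d00040080d981a511)))) (.br (Nat.shiftLeft (nat_lit 0x7) (nat_lit 124)) (.br (Nat.shiftLeft (nat_lit 0x1800000c01003) (nat_lit 78)) (.one (nat_lit 0x600000300400b01800060080d7830511)) (.one (nat_lit 0x600000300400c00d00060080d981a511))) (.br (Nat.shiftLeft (nat_lit 0x1c00000801003) (nat_lit 78)) (.one (nat_lit 0x700000200400b01800040080f7c30511)) (.one (nat_lit 0x700000200400c00d00040080f9c1a511)))))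
def t84 : k84.all (jb2 57 fl b0) = true := by decide +kernel
noncomputable def k85 : KT := (.br (Nat.shiftLeft (nat_lit 0x2000000801003) (nat_lit 78)) (.br (Nat.shiftLeft (nat_lit 0x1c00000c01003) (nat_lit 78)) (.one (nat_lit 0x700000300400b01800060080f7c30511)) (.br (Nat.shiftLeft (nat_lit 0x1) (nat_lit 127)) (.one (nat_lit 0x700000300400c00d00060080f9c1a511)) (.one (nat_lit 0x800000200400b0180004008118030511)))) (.br (Nat.shiftLeft (nat_lit 0x2000000c01003) (nat_lit 78)) (.br (Nat.shiftLeft (nat_lit 0x8000003) (nat_lit 100)) (.one (nat_lit 0x800000200400c00d000400811a01a511)) (.one (nat_lit 0x800000300400b0180006008118030511))) (.br (Nat.shiftLeft (nat_lit 0x9) (nat_lit 124)) (.one (nat_lit 0x800000300400c00d000600811a01a511)) (.one (nat_lit 0x900000200400b0180004008138430511)))))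
def t85 : k85.all (jb2 57 fl b0) = true := by decide +kernel
noncomputable def k86 : KT := (.br (Nat.shiftLeft (nat_lit 0x2800000801003) (nat_lit 78)) (.br (Nat.shiftLeft (nat_lit 0x2400000c01003) (nat_lit 78)) (.br (Nat.shiftLeft (nat_lit 0x9000003) (nat_lit 100)) (.one (nat_lit 0x900000200400c00d000400813a41a511)) (.one (nat_lit 0x900000300400b0180006008138430511))) (.br (Nat.shiftLeft (nat_lit 0x5) (nat_lit 125)) (.one (nat_lit 0x900000300400c00d000600813a41a511)) (.one (nat_lit 0xa00000200400b0180004008158830511)))) (.br (Nat.shiftLeft (nat_lit 0x2800000c01003) (nat_lit 78)) (.br (Nat.shiftLeft (nat_lit 0xa000003) (nat_lit 100)) (.one (nat_lit 0xa00000200400c00d000400815a81a511)) (.one (nat_lit 0xa00000300400b0180006008158830511))) (.br (Nat.shiftLeft (nat_lit 0xb) (nat_lit 124)) (.one (nat_lit 0xa00000300400c00d000600815a81a511)) (.br (Nat.shiftLeft (nat_lit 0x2c00000801003) (nat_lit 78)) (.one (nat_lit 0xb00000200400b0180004008178c30511)) (.one (nat_lit 0xb00000200400c00d000400817ac1a511))))))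
def t86 : k86.all (jb2 57 fl b0) = true := by decide +kernel
noncomputable def k87 : KT := (.br (Nat.shiftLeft (nat_lit 0x2000001003) (nat_lit 100)) (.br (Nat.shiftLeft (nat_lit 0x1) (nat_lit 136)) (.br (Nat.shiftLeft (nat_lit 0x3) (nat_lit 126)) (.br (Nat.shiftLeft (nat_lit 0x2c00000c01003) (nat_lit 78)) (.one (nat_lit 0xb00000300400b0180006008178c30511)) (.one (nat_lit 0xb00000300400c00d000600817ac1a511))) (.br (Nat.shiftLeft (nat_lit 0xc000003) (nat_lit 100)) (.one (nat_lit 0xc00000200400c00d000400819b01a511)) (.one (nat_lit 0xc00000300400c00d000600819b01a511)))) (.br (Nat.shiftLeft (nat_lit 0x800001) (nat_lit 113)) (.br (Nat.shiftLeft (nat_lit 0x1000001003) (nat_lit 100)) (.one (nat_lit 0x100000100200400c00d200402841801a611)) (.one (nat_lit 0x100000100300400c00d200602841801a611))) (.br (Nat.shiftLeft (nat_lit 0x1) (nat_lit 137)) (.one (nat_lit 0x100000200300400c00d400602841801a611)) (.one (nat_lit 0x200000100200400c00d200404881801a611))))) (.br (Nat.shiftLeft (nat_lit 0x1800001) (nat_lit 113)) (.br (Nat.shiftLeft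 (nat_lit 0x3) (nat_lit 136)) (.br (Nat.shiftLeft (nat_lit 0x1000001) (nat_lit 113)) (.one (nat_lit 0x200000100300400c00d200604881801a611)) (.one (nat_lit 0x200000200300400c00d400604881801a611))) (.br (Nat.shiftLeft (nat_lit 0x3000001003) (nat_lit 100)) (.one (nat_lit 0x300000100200400c00d2004068c1801a611)) (.one (nat_lit 0x300000100300400c00d2006068c1801a611)))) (.br (Nat.shiftLeft (nat_lit 0x4000001003) (nat_lit 100)) (.br (Nat.shiftLeft (nat_lit 0x1) (nat_lit 138)) (.one (nat_lit 0x300000200300400c00d4006068c1801a611)) (.one (nat_lit 0x400000100200400c00d200408901801a611))) (.br (Nat.shiftLeft (nat_lit 0x2000001) (nat_lit 113)) (.one (nat_lit 0x400000100300400c00d200608901801a611)) (.one (nat_lit 0x400000200300400c00d400608901801a611))))))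
def t87 : k87.all (jb2 57 fl b0) = true := by decide +kernel
noncomputable def k88 : KT := (.br (Nat.shiftLeft (nat_lit 0x5000001003) (nat_lit 100)) (.one (nat_lit 0x500000100200400c00d20040a941801a611)) (.one (nat_lit 0x500000100300400c00d20060a941801a611)))
def t88 : k88.all (jb2 57 fl b0) = true := by decide +kernel
noncomputable def k89 : KT := (.br (Nat.shiftLeft (nat_lit 0x3) (nat_lit 137)) (.one (nat_lit 0x500000200300400c00d40060a941801a611)) (.one (nat_lit 0x600000100200400c00d20040c981801a611)))
def t89 : k89.all (jb2 57 fl b0) = true := by decide +kernel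
noncomputable def k90 : KT := (.br (Nat.shiftLeft (nat_lit 0x3000001) (nat_lit 113)) (.one (nat_lit 0x600000100300400c00d20060c981801a611)) (.one (nat_lit 0x600000200300400c00d40060c981801a611)))
def t90 : k90.all (jb2 57 fl b0) = true := by decide +kernel
noncomputable def k91 : KT := (.br (Nat.shiftLeft (nat_lit 0x7000001003) (nat_lit 100)) (.one (nat_lit 0x700000100200400c00d20040e9c1801a611)) (.one (nat_lit 0x700000100300400c00d20060e9c1801a611)))
def t91 : k91.all (jb2 57 fl b0) = true := by decide +kernel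
noncomputable def k92 : KT := (.br (Nat.shiftLeft (nat_lit 0x1) (nat_lit 139)) (.one (nat_lit 0x700000200300400c00d40060e9c1801a611)) (.one (nat_lit 0x800000100200400c00d200410a01801a611)))
def t92 : k92.all (jb2 57 fl b0) = true := by decide +kernel
noncomputable def k93 : KT := (.br (Nat.shiftLeft (nat_lit 0x4000001) (nat_lit 113)) (.one (nat_lit 0x800000100300400c00d200610a01801a611)) (.one (nat_lit 0x800000200300400c00d400610a01801a611)))
def t93 : k93.all (jb2 57 fl b0) = true := by decide +kernel
noncomputable def k94 : KT := (.br (Nat.shiftLeft (nat_lit 0x9000001003) (nat_lit 100)) (.one (nat_lit 0x900000100200400c00d200412a41801a611)) (.one (nat_lit 0x900000100300400c00d200612a41801a611)))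
def t94 : k94.all (jb2 57 fl b0) = true := by decide +kernel
noncomputable def k95 : KT := (.br (Nat.shiftLeft (nat_lit 0x5) (nat_lit 137)) (.one (nat_lit 0x900000200300400c00d400612a41801a611)) (.br (Nat.shiftLeft (nat_lit 0xa000001003) (nat_lit 100)) (.one (nat_lit 0xa00000100200400c00d200414a81801a611)) (.one (nat_lit 0xa00000100300400c00d200614a81801a611))))
def t95 : k95.all (jb2 57 fl b0) = true := by decide +kernel
noncomputable def k96 : KT := (.br (Nat.shiftLeft (nat_lit 0xb) (nat_lit 136)) (.one (nat_lit 0xa00000200300400c00d400614a81801a611)) (.br (Nat.shiftLeft (nat_lit 0xb000001003) (nat_lit 100)) (.one (nat_lit 0xb00000100200400c00d200416ac1801a611)) (.one (nat_lit 0xb00000100300400c00d200616ac1801a611))))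
def t96 : k96.all (jb2 57 fl b0) = true := by decide +kernel
noncomputable def k97 : KT := (.br (Nat.shiftLeft (nat_lit 0x6000001) (nat_lit 113)) (.br (Nat.shiftLeft (nat_lit 0x3) (nat_lit 138)) (.one (nat_lit 0xb00000200300400c00d400616ac1801a611)) (.br (Nat.shiftLeft (nat_lit 0xc000001003) (nat_lit 100)) (.one (nat_lit 0xc00000100200400c00d200418b01801a611)) (.one (nat_lit 0xc00000100300400c00d200618b01801a611)))) (.br (Nat.shiftLeft (nat_lit 0x1) (nat_lit 149)) (.br (Nat.shiftLeft (nat_lit 0x1) (nat_lit 148)) (.one (nat_lit 0xc00000200300400c00d400618b01801a611)) (.one (nat_lit 0x100000100200300400c00d402640803841a711))) (.br (Nat.shiftLeft (nat_lit 0x3) (nat_lit 148)) (.one (nat_lit 0x200000100200300400c00d404680803841a711)) (.one (nat_lit 0x300000100200300400c00d4066c0803841a711)))))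
def t97 : k97.all (jb2 57 fl b0) = true := by decide +kernel
noncomputable def k98 : KT := (.br (Nat.shiftLeft (nat_lit 0x5) (nat_lit 148)) (.one (nat_lit 0x400000100200300400c00d408700803841a711)) (.one (nat_lit 0x500000100200300400c00d40a740803841a711)))
def t98 : k98.all (jb2 57 fl b0) = true := by decide +kernel
noncomputable def k99 : KT := (.br (Nat.shiftLeft (nat_lit 0x7) (nat_lit 148)) (.one (nat_lit 0x600000100200300400c00d40c780803841a711)) (.one (nat_lit 0x700000100200300400c00d40e7c0803841a711)))
def t99 : k99.all (jb2 57 fl b0) = true := by decide +kernel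
noncomputable def k100 : KT := (.br (Nat.shiftLeft (nat_lit 0x9) (nat_lit 148)) (.one (nat_lit 0x800000100200300400c00d410800803841a711)) (.one (nat_lit 0x900000100200300400c00d412840803841a711)))
def t100 : k100.all (jb2 57 fl b0) = true := by decide +kernel
noncomputable def k101 : KT := (.br (Nat.shiftLeft (nat_lit 0xb) (nat_lit 148)) (.one (nat_lit 0xa00000100200300400c00d414880803841a711)) (.br (Nat.shiftLeft (nat_lit 0x3) (nat_lit 150)) (.one (nat_lit 0xb00000100200300400c00d4168c0803841a711)) (.one (nat_lit 0xc00000100200300400c00d418900803841a711))))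
def t101 : k101.all (jb2 57 fl b0) = true := by decide +kernel
noncomputable def s4 : KT := (.br (nat_lit 0x600000100200400c00d20040c981801a611) (.br (nat_lit 0x500000300400b01800060080b7430511) (.br (nat_lit 0x100200400c00d200400801801b600) (.br (nat_lit 0x100400b0180002008016030540) k78 (.br (nat_lit 0x100000400c00d200000801801a411) k79 k80)) (.br (nat_lit 0x200000400c00d400000801801a411) k81 (.br (nat_lit 0x800000400c00d000000801811c411) k82 k83))) (.br (nat_lit 0xb00000200400c00d000400817ac1a511) (.br (nat_lit 0x700000200400c00d00040080f9c1a511) k84 (.br (nat_lit 0x900000200400b0180004008138430511) k85 k86)) (.br (nat_lit 0x400000200300400c00d400608901801a611) k87 (.br (nat_lit 0x500000100300400c00d20060a941801a611) k88 k89)))) (.br (nat_lit 0xa00000100300400c00d200614a81801a611) (.br (nat_lit 0x800000100200400c00d200410a01801a611) (.br (nat_lit 0x600000200300400c00d40060c981801a611) k90 (.br (nat_lit 0x700000100300400c00d20060e9c1801a611) k91 k92)) (.br (nat_lit 0x800000200300400c00d400610a01801a611) k93 (.br (nat_lit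 0x900000100300400c00d200612a41801a611) k94 k95))) (.br (nat_lit 0x500000100200300400c00d40a740803841a711) (.br (nat_lit 0xb00000100300400c00d200616ac1801a611) k96 (.br (nat_lit 0x300000100200300400c00d4066c0803841a711) k97 k98)) (.br (nat_lit 0x700000100200300400c00d40e7c0803841a711) k99 (.br (nat_lit 0x900000100200300400c00d412840803841a711) k100 k101)))))
noncomputable def u4 : KT := (.br (Nat.shiftLeft (nat_lit 0x1003) (nat_lit 78)) (.one (nat_lit 0x400b0180000008016030430)) (.one (nat_lit 0x400c00d000000801801a430)))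
def w4 : u4.all (wj 57 s4) = true := by decide +kernel
def o4 : OkW 57 (jb2 57 fl) u4 := .lift s4 _ (.br _ _ _ (.br _ _ _ (.br _ _ _ (.br _ _ _ (.leaf b0 k78 t78) (.br _ _ _ (.leaf b0 k79 t79) (.leaf b0 k80 t80))) (.br _ _ _ (.leaf b0 k81 t81) (.br _ _ _ (.leaf b0 k82 t82) (.leaf b0 k83 t83)))) (.br _ _ _ (.br _ _ _ (.leaf b0 k84 t84) (.br _ _ _ (.leaf b0 k85 t85) (.leaf b0 k86 t86))) (.br _ _ _ (.leaf b0 k87 t87) (.br _ _ _ (.leaf b0 k88 t88) (.leaf b0 k89 t89))))) (.br _ _ _ (.br _ _ _ (.br _ _ _ (.leaf b0 k90 t90) (.br _ _ _ (.leaf b0 k91 t91) (.leaf b0 k92 t92))) (.br _ _ _ (.leaf b0 k93 t93) (.br _ _ _ (.leaf b0 k94 t94) (.leaf b0 k95 t95)))) (.br _ _ _ (.br _ _ _ (.leaf b0 k96 t96) (.br _ _ _ (.leaf b0 k97 t97) (.leaf b0 k98 t98))) (.br _ _ _ (.leaf b0 k99 t99) (.br _ _ _ (.leaf b0 k100 t100) (.leaf b0 k101 t101)))))) w4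
noncomputable def k102 : KT := (.br (Nat.shiftLeft (nat_lit 0x3) (nat_lit 112)) (.br (Nat.shiftLeft (nat_lit 0x801) (nat_lit 101)) (.br (Nat.shiftLeft (nat_lit 0x3) (nat_lit 100)) (.br (Nat.shiftLeft (nat_lit 0x1) (nat_lit 101)) (.one (nat_lit 0x100400c00e000200801801c540)) (.one (nat_lit 0x200400c00e000400801801d500))) (.br (Nat.shiftLeft (nat_lit 0x1) (nat_lit 112)) (.one (nat_lit 0x300400c00e000600801801d500)) (.one (nat_lit 0x100000400c00e200000801801c411)))) (.br (Nat.shiftLeft (nat_lit 0x1) (nat_lit 113)) (.br (Nat.shiftLeft (nat_lit 0x1003) (nat_lit 100)) (.one (nat_lit 0x100200400c00e200400801801d600)) (.one (nat_lit 0x100300400c00e200600801801d600))) (.br (Nat.shiftLeft (nat_lit 0x1001) (nat_lit 101)) (.one (nat_lit 0x200000400c00e400000801801c411)) (.one (nat_lit 0x200300400c00e400600801801d600))))) (.br (Nat.shiftLeft (nat_lit 0x7) (nat_lit 112)) (.br (Nat.shiftLeft (nat_lit 0x5) (nat_lit 112)) (.br (Nat.shiftLeft (nat_lit 0x1) (nat_lit 114)) (.one (nat_lit 0x300000400c00e600000801801c411)) (.one (nat_lit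 0x400000400c00e800000801801c411))) (.br (Nat.shiftLeft (nat_lit 0x3) (nat_lit 113)) (.one (nat_lit 0x500000400c00ea00000801801c411)) (.one (nat_lit 0x600000400c00ec00000801801c411)))) (.br (Nat.shiftLeft (nat_lit 0x9) (nat_lit 112)) (.br (Nat.shiftLeft (nat_lit 0x1) (nat_lit 115)) (.one (nat_lit 0x700000400c00ee00000801801c411)) (.one (nat_lit 0x800000400c00e000000801811e411))) (.br (Nat.shiftLeft (nat_lit 0x5) (nat_lit 113)) (.one (nat_lit 0x900000400c00e200000801811e411)) (.br (Nat.shiftLeft (nat_lit 0xb) (nat_lit 112)) (.one (nat_lit 0xa00000400c00e400000801811e411)) (.one (nat_lit 0xb00000400c00e600000801811e411)))))))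
def t102 : k102.all (jb2 57 fl b0) = true := by decide +kernel
noncomputable def k103 : KT := (.br (Nat.shiftLeft (nat_lit 0x3000003) (nat_lit 100)) (.br (Nat.shiftLeft (nat_lit 0x801) (nat_lit 113)) (.br (Nat.shiftLeft (nat_lit 0x1) (nat_lit 124)) (.one (nat_lit 0xc00000400c00e800000801811e411)) (.br (Nat.shiftLeft (nat_lit 0x1000003) (nat_lit 100)) (.one (nat_lit 0x100000200400c00e000400803841c511)) (.one (nat_lit 0x100000300400c00e000600803841c511)))) (.br (Nat.shiftLeft (nat_lit 0x2000003) (nat_lit 100)) (.br (Nat.shiftLeft (nat_lit 0x1) (nat_lit 125)) (.one (nat_lit 0x100200300400c00e400600803841d700)) (.one (nat_lit 0x200000200400c00e000400805881c511))) (.br (Nat.shiftLeft (nat_lit 0x3) (nat_lit 124)) (.one (nat_lit 0x200000300400c00e000600805881c511)) (.one (nat_lit 0x300000200400c00e0004008078c1c511))))) (.br (Nat.shiftLeft (nat_lit 0x5) (nat_lit 124)) (.br (Nat.shiftLeft (nat_lit 0x1) (nat_lit 126)) (.one (nat_lit 0x300000300400c00e0006008078c1c511)) (.br (Nat.shiftLeft (nat_lit 0x4000003) (nat_lit 100)) (.one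 (nat_lit 0x400000200400c00e000400809901c511)) (.one (nat_lit 0x400000300400c00e000600809901c511)))) (.br (Nat.shiftLeft (nat_lit 0x3) (nat_lit 125)) (.br (Nat.shiftLeft (nat_lit 0x5000003) (nat_lit 100)) (.one (nat_lit 0x500000200400c00e00040080b941c511)) (.one (nat_lit 0x500000300400c00e00060080b941c511))) (.br (Nat.shiftLeft (nat_lit 0x6000003) (nat_lit 100)) (.one (nat_lit 0x600000200400c00e00040080d981c511)) (.one (nat_lit 0x600000300400c00e00060080d981c511))))))
def t103 : k103.all (jb2 57 fl b0) = true := by decide +kernel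
noncomputable def k104 : KT := (.br (Nat.shiftLeft (nat_lit 0x1) (nat_lit 127)) (.br (Nat.shiftLeft (nat_lit 0x7000003) (nat_lit 100)) (.one (nat_lit 0x700000200400c00e00040080f9c1c511)) (.one (nat_lit 0x700000300400c00e00060080f9c1c511))) (.br (Nat.shiftLeft (nat_lit 0x8000003) (nat_lit 100)) (.one (nat_lit 0x800000200400c00e000400811a01c511)) (.one (nat_lit 0x800000300400c00e000600811a01c511))))
def t104 : k104.all (jb2 57 fl b0) = true := by decide +kernel
noncomputable def k105 : KT := (.br (Nat.shiftLeft (nat_lit 0x5) (nat_lit 125)) (.br (Nat.shiftLeft (nat_lit 0x9000003) (nat_lit 100)) (.one (nat_lit 0x900000200400c00e000400813a41c511)) (.one (nat_lit 0x900000300400c00e000600813a41c511))) (.br (Nat.shiftLeft (nat_lit 0xa000003) (nat_lit 100)) (.one (nat_lit 0xa00000200400c00e000400815a81c511)) (.br (Nat.shiftLeft (nat_lit 0xb) (nat_lit 124)) (.one (nat_lit 0xa00000300400c00e000600815a81c511)) (.one (nat_lit 0xb00000200400c00e000400817ac1c511)))))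
def t105 : k105.all (jb2 57 fl b0) = true := by decide +kernel
noncomputable def k106 : KT := (.br (Nat.shiftLeft (nat_lit 0x2000001003) (nat_lit 100)) (.br (Nat.shiftLeft (nat_lit 0x1) (nat_lit 136)) (.br (Nat.shiftLeft (nat_lit 0x3) (nat_lit 126)) (.one (nat_lit 0xb00000300400c00e000600817ac1c511)) (.br (Nat.shiftLeft (nat_lit 0xc000003) (nat_lit 100)) (.one (nat_lit 0xc00000200400c00e000400819b01c511)) (.one (nat_lit 0xc00000300400c00e000600819b01c511)))) (.br (Nat.shiftLeft (nat_lit 0x800001) (nat_lit 113)) (.br (Nat.shiftLeft (nat_lit 0x1000001003) (nat_lit 100)) (.one (nat_lit 0x100000100200400c00e200402841801c611)) (.one (nat_lit 0x100000100300400c00e200602841801c611))) (.br (Nat.shiftLeft (nat_lit 0x1) (nat_lit 137)) (.one (nat_lit 0x100000200300400c00e400602841801c611)) (.one (nat_lit 0x200000100200400c00e200404881801c611))))) (.br (Nat.shiftLeft (nat_lit 0x1800001) (nat_lit 113)) (.br (Nat.shiftLeft (nat_lit 0x3) (nat_lit 136)) (.br (Nat.shiftLeft (nat_lit 0x1000001) (nat_lit 113)) (.one (nat_lit 0x200000100300400c00e200604881801c611))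 (.one (nat_lit 0x200000200300400c00e400604881801c611))) (.br (Nat.shiftLeft (nat_lit 0x3000001003) (nat_lit 100)) (.one (nat_lit 0x300000100200400c00e2004068c1801c611)) (.one (nat_lit 0x300000100300400c00e2006068c1801c611)))) (.br (Nat.shiftLeft (nat_lit 0x4000001003) (nat_lit 100)) (.br (Nat.shiftLeft (nat_lit 0x1) (nat_lit 138)) (.one (nat_lit 0x300000200300400c00e4006068c1801c611)) (.one (nat_lit 0x400000100200400c00e200408901801c611))) (.br (Nat.shiftLeft (nat_lit 0x2000001) (nat_lit 113)) (.one (nat_lit 0x400000100300400c00e200608901801c611)) (.one (nat_lit 0x400000200300400c00e400608901801c611))))))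
def t106 : k106.all (jb2 57 fl b0) = true := by decide +kernel
noncomputable def k107 : KT := (.br (Nat.shiftLeft (nat_lit 0x5000001003) (nat_lit 100)) (.one (nat_lit 0x500000100200400c00e20040a941801c611)) (.one (nat_lit 0x500000100300400c00e20060a941801c611)))
def t107 : k107.all (jb2 57 fl b0) = true := by decide +kernel
noncomputable def k108 : KT := (.br (Nat.shiftLeft (nat_lit 0x3) (nat_lit 137)) (.one (nat_lit 0x500000200300400c00e40060a941801c611)) (.one (nat_lit 0x600000100200400c00e20040c981801c611)))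
def t108 : k108.all (jb2 57 fl b0) = true := by decide +kernel
noncomputable def k109 : KT := (.br (Nat.shiftLeft (nat_lit 0x3000001) (nat_lit 113)) (.one (nat_lit 0x600000100300400c00e20060c981801c611)) (.one (nat_lit 0x600000200300400c00e40060c981801c611)))
def t109 : k109.all (jb2 57 fl b0) = true := by decide +kernel
noncomputable def k110 : KT := (.br (Nat.shiftLeft (nat_lit 0x7000001003) (nat_lit 100)) (.one (nat_lit 0x700000100200400c00e20040e9c1801c611)) (.one (nat_lit 0x700000100300400c00e20060e9c1801c611)))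
noncomputable def b111 : BT := .node (nat_lit 0x1) (nat_lit 0x12316f112f4002b18000a98c10008900028) .leaf .leaf
def t110 : k110.all (jb2 57 fl b111) = true := by decide +kernel
noncomputable def k111 : KT := (.br (Nat.shiftLeft (nat_lit 0x1) (nat_lit 139)) (.one (nat_lit 0x700000200300400c00e40060e9c1801c611)) (.one (nat_lit 0x800000100200400c00e200410a01801c611)))
noncomputable def b112 : BT := .node (nat_lit 0x1) (nat_lit 0xdb3275a59000329f000ac6010008800028) .leaf .leaf
def t111 : k111.all (jb2 57 fl b112) = true := by decide +kernel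
noncomputable def k112 : KT := (.br (Nat.shiftLeft (nat_lit 0x4000001) (nat_lit 113)) (.one (nat_lit 0x800000100300400c00e200610a01801c611)) (.one (nat_lit 0x800000200300400c00e400610a01801c611)))
def t112 : k112.all (jb2 57 fl b0) = true := by decide +kernel
noncomputable def k113 : KT := (.br (Nat.shiftLeft (nat_lit 0x9000001003) (nat_lit 100)) (.one (nat_lit 0x900000100200400c00e200412a41801c611)) (.one (nat_lit 0x900000100300400c00e200612a41801c611)))
def t113 : k113.all (jb2 57 fl b0) = true := by decide +kernel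
noncomputable def k114 : KT := (.br (Nat.shiftLeft (nat_lit 0x5) (nat_lit 137)) (.one (nat_lit 0x900000200300400c00e400612a41801c611)) (.br (Nat.shiftLeft (nat_lit 0xa000001003) (nat_lit 100)) (.one (nat_lit 0xa00000100200400c00e200414a81801c611)) (.one (nat_lit 0xa00000100300400c00e200614a81801c611))))
def t114 : k114.all (jb2 57 fl b0) = true := by decide +kernel
noncomputable def k115 : KT := (.br (Nat.shiftLeft (nat_lit 0xb) (nat_lit 136)) (.one (nat_lit 0xa00000200300400c00e400614a81801c611)) (.br (Nat.shiftLeft (nat_lit 0xb000001003) (nat_lit 100)) (.one (nat_lit 0xb00000100200400c00e200416ac1801c611)) (.one (nat_lit 0xb00000100300400c00e200616ac1801c611))))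
def t115 : k115.all (jb2 57 fl b0) = true := by decide +kernel
noncomputable def k116 : KT := (.br (Nat.shiftLeft (nat_lit 0x6000001) (nat_lit 113)) (.br (Nat.shiftLeft (nat_lit 0x3) (nat_lit 138)) (.one (nat_lit 0xb00000200300400c00e400616ac1801c611)) (.br (Nat.shiftLeft (nat_lit 0xc000001003) (nat_lit 100)) (.one (nat_lit 0xc00000100200400c00e200418b01801c611)) (.one (nat_lit 0xc00000100300400c00e200618b01801c611)))) (.br (Nat.shiftLeft (nat_lit 0x1) (nat_lit 149)) (.br (Nat.shiftLeft (nat_lit 0x1) (nat_lit 148)) (.one (nat_lit 0xc00000200300400c00e400618b01801c611)) (.one (nat_lit 0x100000100200300400c00e402640803841c711))) (.br (Nat.shiftLeft (nat_lit 0x3) (nat_lit 148)) (.one (nat_lit 0x200000100200300400c00e404680803841c711)) (.one (nat_lit 0x300000100200300400c00e4066c0803841c711)))))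
def t116 : k116.all (jb2 57 fl b0) = true := by decide +kernel
noncomputable def k117 : KT := (.br (Nat.shiftLeft (nat_lit 0x5) (nat_lit 148)) (.one (nat_lit 0x400000100200300400c00e408700803841c711)) (.one (nat_lit 0x500000100200300400c00e40a740803841c711)))
def t117 : k117.all (jb2 57 fl b0) = true := by decide +kernel
noncomputable def k118 : KT := (.br (Nat.shiftLeft (nat_lit 0x7) (nat_lit 148)) (.one (nat_lit 0x600000100200300400c00e40c780803841c711)) (.one (nat_lit 0x700000100200300400c00e40e7c0803841c711)))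
noncomputable def b119 : BT := .node (nat_lit 0xb) (nat_lit 0x24629636f1000653200158c03b644be49b00065ba00156d8323149b950c0041db0006e64100212001b1001b1001b1001b100151001510015100151000f0000f0000f0) .leaf .leaf
def t118 : k118.all (jb2 57 fl b119) = true := by decide +kernel
noncomputable def k119 : KT := (.br (Nat.shiftLeft (nat_lit 0x9) (nat_lit 148)) (.one (nat_lit 0x800000100200300400c00e410800803841c711)) (.br (Nat.shiftLeft (nat_lit 0x5) (nat_lit 149)) (.one (nat_lit 0x900000100200300400c00e412840803841c711)) (.one (nat_lit 0xa00000100200300400c00e414880803841c711))))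
def t119 : k119.all (jb2 57 fl b0) = true := by decide +kernel
noncomputable def k120 : KT := (.br (Nat.shiftLeft (nat_lit 0x3) (nat_lit 150)) (.one (nat_lit 0xb00000100200300400c00e4168c0803841c711)) (.one (nat_lit 0xc00000100200300400c00e418900803841c711)))
def t120 : k120.all (jb2 57 fl b0) = true := by decide +kernel
noncomputable def s5 : KT := (.br (nat_lit 0x700000100300400c00e20060e9c1801c611) (.br (nat_lit 0xb00000200400c00e000400817ac1c511) (.br (nat_lit 0x600000300400c00e00060080d981c511) (.br (nat_lit 0xb00000400c00e600000801811e411) k102 k103) (.br (nat_lit 0x800000300400c00e000600811a01c511) k104 k105)) (.br (nat_lit 0x500000100300400c00e20060a941801c611) (.br (nat_lit 0x400000200300400c00e400608901801c611) k106 k107) (.br (nat_lit 0x600000100200400c00e20040c981801c611) k108 (.br (nat_lit 0x600000200300400c00e40060c981801c611) k109 k110)))) (.br (nat_lit 0xb00000100300400c00e200616ac1801c611) (.br (nat_lit 0x800000200300400c00e400610a01801c611) (.br (nat_lit 0x800000100200400c00e200410a01801c611) k111 k112)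 (.br (nat_lit 0x900000100300400c00e200612a41801c611) k113 (.br (nat_lit 0xa00000100300400c00e200614a81801c611) k114 k115))) (.br (nat_lit 0x500000100200300400c00e40a740803841c711) (.br (nat_lit 0x300000100200300400c00e4066c0803841c711) k116 k117) (.br (nat_lit 0x700000100200300400c00e40e7c0803841c711) k118 (.br (nat_lit 0xa00000100200300400c00e414880803841c711) k119 k120)))))
noncomputable def u5 : KT := (.one (nat_lit 0x400c00e000000801801c430))
def w5 : u5.all (wj 57 s5) = true := by decide +kernel
def o5 : OkW 57 (jb2 57 fl) u5 := .lift s5 _ (.br _ _ _ (.br _ _ _ (.br _ _ _ (.br _ _ _ (.leaf b0 k102 t102) (.leaf b0 k103 t103)) (.br _ _ _ (.leaf b0 k104 t104) (.leaf b0 k105 t105))) (.br _ _ _ (.br _ _ _ (.leaf b0 k106 t106) (.leaf b0 k107 t107)) (.br _ _ _ (.leaf b0 k108 t108) (.br _ _ _ (.leaf b0 k109 t109) (.leaf b111 k110 t110))))) (.br _ _ _ (.br _ _ _ (.br _ _ _ (.leaf b112 k111 t111) (.leaf b0 k112 t112)) (.br _ _ _ (.leaf b0 k113 t113) (.br _ _ _ (.leaf b0 k114 t114) (.leaf b0 k115 t115)))) (.br _ _ _ (.br _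 _ _ (.leaf b0 k116 t116) (.leaf b0 k117 t117)) (.br _ _ _ (.leaf b119 k118 t118) (.br _ _ _ (.leaf b0 k119 t119) (.leaf b0 k120 t120)))))) w5
noncomputable def k121 : KT := (.br (Nat.shiftLeft (nat_lit 0x1001) (nat_lit 101)) (.br (Nat.shiftLeft (nat_lit 0x1) (nat_lit 112)) (.br (Nat.shiftLeft (nat_lit 0x1) (nat_lit 101)) (.one (nat_lit 0x100400c00f000200801801e540)) (.br (Nat.shiftLeft (nat_lit 0x3) (nat_lit 100)) (.one (nat_lit 0x200400c00f000400801801f500)) (.one (nat_lit 0x300400c00f000600801801f500)))) (.br (Nat.shiftLeft (nat_lit 0x1003) (nat_lit 100)) (.br (Nat.shiftLeft (nat_lit 0x801) (nat_lit 101)) (.one (nat_lit 0x100000400c00f200000801801e411)) (.one (nat_lit 0x100200400c00f200400801801f600))) (.br (Nat.shiftLeft (nat_lit 0x1) (nat_lit 113)) (.one (nat_lit 0x100300400c00f200600801801f600)) (.one (nat_lit 0x200000400c00f400000801801e411))))) (.br (Nat.shiftLeft (nat_lit 0x5) (nat_lit 112)) (.br (Nat.shiftLeft (nat_lit 0x3) (nat_lit 112)) (.one (nat_lit 0x200300400c00f400600801801f600)) (.br (Nat.shiftLeft (nat_lit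 0x1) (nat_lit 114)) (.one (nat_lit 0x300000400c00f600000801801e411)) (.one (nat_lit 0x400000400c00f800000801801e411)))) (.br (Nat.shiftLeft (nat_lit 0x7) (nat_lit 112)) (.br (Nat.shiftLeft (nat_lit 0x3) (nat_lit 113)) (.one (nat_lit 0x500000400c00fa00000801801e411)) (.one (nat_lit 0x600000400c00fc00000801801e411))) (.br (Nat.shiftLeft (nat_lit 0x1) (nat_lit 115)) (.one (nat_lit 0x700000400c00fe00000801801e411)) (.one (nat_lit 0x800000400c00f0000008018120411))))))
def t121 : k121.all (jb2 57 fl b0) = true := by decide +kernel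
noncomputable def k122 : KT := (.br (Nat.shiftLeft (nat_lit 0x2000003) (nat_lit 100)) (.br (Nat.shiftLeft (nat_lit 0x1) (nat_lit 124)) (.br (Nat.shiftLeft (nat_lit 0xb) (nat_lit 112)) (.br (Nat.shiftLeft (nat_lit 0x5) (nat_lit 113)) (.one (nat_lit 0x900000400c00f2000008018120411)) (.one (nat_lit 0xa00000400c00f4000008018120411))) (.br (Nat.shiftLeft (nat_lit 0x3) (nat_lit 114)) (.one (nat_lit 0xb00000400c00f6000008018120411)) (.one (nat_lit 0xc00000400c00f8000008018120411)))) (.br (Nat.shiftLeft (nat_lit 0x801) (nat_lit 113)) (.br (Nat.shiftLeft (nat_lit 0x1000003) (nat_lit 100)) (.one (nat_lit 0x100000200400c00f000400803841e511)) (.one (nat_lit 0x100000300400c00f000600803841e511))) (.br (Nat.shiftLeft (nat_lit 0x1) (nat_lit 125)) (.one (nat_lit 0x100200300400c00f400600803841f700)) (.one (nat_lit 0x200000200400c00f000400805881e511))))) (.br (Nat.shiftLeft (nat_lit 0x4000003) (nat_lit 100)) (.br (Nat.shiftLeft (nat_lit 0x3000003) (nat_lit 100)) (.br (Nat.shiftLeft (nat_lit 0x3) (nat_lit 124)) (.one (nat_lit 0x200000300400c00f000600805881e511))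 (.one (nat_lit 0x300000200400c00f0004008078c1e511))) (.br (Nat.shiftLeft (nat_lit 0x1) (nat_lit 126)) (.one (nat_lit 0x300000300400c00f0006008078c1e511)) (.one (nat_lit 0x400000200400c00f000400809901e511)))) (.br (Nat.shiftLeft (nat_lit 0x5000003) (nat_lit 100)) (.br (Nat.shiftLeft (nat_lit 0x5) (nat_lit 124)) (.one (nat_lit 0x400000300400c00f000600809901e511)) (.one (nat_lit 0x500000200400c00f00040080b941e511))) (.br (Nat.shiftLeft (nat_lit 0x3) (nat_lit 125)) (.one (nat_lit 0x500000300400c00f00060080b941e511)) (.one (nat_lit 0x600000200400c00f00040080d981e511))))))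
def t122 : k122.all (jb2 57 fl b0) = true := by decide +kernel
noncomputable def k123 : KT := (.br (Nat.shiftLeft (nat_lit 0x7000003) (nat_lit 100)) (.br (Nat.shiftLeft (nat_lit 0x7) (nat_lit 124)) (.one (nat_lit 0x600000300400c00f00060080d981e511)) (.one (nat_lit 0x700000200400c00f00040080f9c1e511))) (.br (Nat.shiftLeft (nat_lit 0x1) (nat_lit 127)) (.one (nat_lit 0x700000300400c00f00060080f9c1e511)) (.one (nat_lit 0x800000200400c00f000400811a01e511))))
noncomputable def b124 : BT := .node (nat_lit 0x3) (nat_lit 0x25d12f897c001d4c00065ba0ef136cc9d693625d93ac003299000ab7c003a5b000ac7420016a0016a0010b00050) .leaf .leaf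
def t123 : k123.all (jb2 57 fl b124) = true := by decide +kernel
noncomputable def k124 : KT := (.br (Nat.shiftLeft (nat_lit 0x9000003) (nat_lit 100)) (.br (Nat.shiftLeft (nat_lit 0x9) (nat_lit 124)) (.one (nat_lit 0x800000300400c00f000600811a01e511)) (.one (nat_lit 0x900000200400c00f000400813a41e511))) (.br (Nat.shiftLeft (nat_lit 0x5) (nat_lit 125)) (.one (nat_lit 0x900000300400c00f000600813a41e511)) (.one (nat_lit 0xa00000200400c00f000400815a81e511))))
noncomputable def b125 : BT := .node (nat_lit 0x1) (nat_lit 0x12316da24dc00329a000ab6c10008900028) .leaf .leaf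
def t124 : k124.all (jb2 57 fl b125) = true := by decide +kernel
noncomputable def k125 : KT := (.br (Nat.shiftLeft (nat_lit 0x800001) (nat_lit 113)) (.br (Nat.shiftLeft (nat_lit 0x3) (nat_lit 126)) (.br (Nat.shiftLeft (nat_lit 0xb) (nat_lit 124)) (.one (nat_lit 0xa00000300400c00f000600815a81e511)) (.br (Nat.shiftLeft (nat_lit 0xb000003) (nat_lit 100)) (.one (nat_lit 0xb00000200400c00f000400817ac1e511)) (.one (nat_lit 0xb00000300400c00f000600817ac1e511)))) (.br (Nat.shiftLeft (nat_lit 0x1) (nat_lit 136)) (.br (Nat.shiftLeft (nat_lit 0xc000003) (nat_lit 100)) (.one (nat_lit 0xc00000200400c00f000400819b01e511)) (.one (nat_lit 0xc00000300400c00f000600819b01e511))) (.br (Nat.shiftLeft (nat_lit 0x1000001003) (nat_lit 100)) (.one (nat_lit 0x100000100200400c00f200402841801e611)) (.one (nat_lit 0x100000100300400c00f200602841801e611))))) (.br (Nat.shiftLeft (nat_lit 0x1000001) (nat_lit 113)) (.br (Nat.shiftLeft (nat_lit 0x1) (nat_lit 137)) (.one (nat_lit 0x100000200300400c00f400602841801e611)) (.br (Nat.shiftLeft (nat_lit 0x2000001003)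 (nat_lit 100)) (.one (nat_lit 0x200000100200400c00f200404881801e611)) (.one (nat_lit 0x200000100300400c00f200604881801e611)))) (.br (Nat.shiftLeft (nat_lit 0x3000001003) (nat_lit 100)) (.br (Nat.shiftLeft (nat_lit 0x3) (nat_lit 136)) (.one (nat_lit 0x200000200300400c00f400604881801e611)) (.one (nat_lit 0x300000100200400c00f2004068c1801e611))) (.br (Nat.shiftLeft (nat_lit 0x1800001) (nat_lit 113)) (.one (nat_lit 0x300000100300400c00f2006068c1801e611)) (.one (nat_lit 0x300000200300400c00f4006068c1801e611))))))
def t125 : k125.all (jb2 57 fl b0) = true := by decide +kernel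
noncomputable def k126 : KT := (.br (Nat.shiftLeft (nat_lit 0x2000001) (nat_lit 113)) (.br (Nat.shiftLeft (nat_lit 0x4000001003) (nat_lit 100)) (.one (nat_lit 0x400000100200400c00f200408901801e611)) (.one (nat_lit 0x400000100300400c00f200608901801e611))) (.br (Nat.shiftLeft (nat_lit 0x5) (nat_lit 136)) (.one (nat_lit 0x400000200300400c00f400608901801e611)) (.one (nat_lit 0x500000100200400c00f20040a941801e611))))
def t126 : k126.all (jb2 57 fl b0) = true := by decide +kernel
noncomputable def k127 : KT := (.br (Nat.shiftLeft (nat_lit 0x2800001) (nat_lit 113)) (.one (nat_lit 0x500000100300400c00f20060a941801e611)) (.one (nat_lit 0x500000200300400c00f40060a941801e611)))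
def t127 : k127.all (jb2 57 fl b0) = true := by decide +kernel
noncomputable def k128 : KT := (.br (Nat.shiftLeft (nat_lit 0x6000001003) (nat_lit 100)) (.one (nat_lit 0x600000100200400c00f20040c981801e611)) (.one (nat_lit 0x600000100300400c00f20060c981801e611)))
def t128 : k128.all (jb2 57 fl b0) = true := by decide +kernel
noncomputable def k129 : KT := (.br (Nat.shiftLeft (nat_lit 0x7) (nat_lit 136)) (.one (nat_lit 0x600000200300400c00f40060c981801e611)) (.one (nat_lit 0x700000100200400c00f20040e9c1801e611)))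
def t129 : k129.all (jb2 57 fl b0) = true := by decide +kernel
noncomputable def k130 : KT := (.one (nat_lit 0x700000100300400c00f20060e9c1801e611))
noncomputable def b131 : BT := .node (nat_lit 0xb) (nat_lit 0x6f092f92c923125d24da4632326d980064c400156d00065b000154e000753000156c87bc29364c9000743800158c032316d9a590003299000ac601002c7001b1001b1001510015100151001510015100151000f0000f0000f0) .leaf .leaf
def t130 : k130.all (jb2 57 fl b131) = true := by decide +kernel
noncomputable def k131 : KT := (.br (Nat.shiftLeft (nat_lit 0x1) (nat_lit 139)) (.one (nat_lit 0x700000200300400c00f40060e9c1801e611)) (.one (nat_lit 0x800000100200400c00f200410a01801e611)))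
noncomputable def b132 : BT := .node (nat_lit 0xb) (nat_lit 0x378526c4be6d992f92c8de16d993b000325c000ab8000329f000ac60003a590008c803de249b13a800325c000ac7010026600266002660026600266002660026600266002660015000150000f0) .leaf .leaf
def t131 : k131.all (jb2 57 fl b132) = true := by decide +kernel
noncomputable def k132 : KT := (.br (Nat.shiftLeft (nat_lit 0x4000001) (nat_lit 113)) (.one (nat_lit 0x800000100300400c00f200610a01801e611)) (.one (nat_lit 0x800000200300400c00f400610a01801e611)))
noncomputable def b133 : BT := .node (nat_lit 0x1) (nat_lit 0x2a1258c97cde225f258c003a59000c98800329f000ab642000e200028) .leaf .leaf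
def t132 : k132.all (jb2 57 fl b133) = true := by decide +kernel
noncomputable def k133 : KT := (.br (Nat.shiftLeft (nat_lit 0x9000001003) (nat_lit 100)) (.one (nat_lit 0x900000100200400c00f200412a41801e611)) (.one (nat_lit 0x900000100300400c00f200612a41801e611)))
def t133 : k133.all (jb2 57 fl b0) = true := by decide +kernel
noncomputable def k134 : KT := (.br (Nat.shiftLeft (nat_lit 0x5) (nat_lit 137)) (.one (nat_lit 0x900000200300400c00f400612a41801e611)) (.br (Nat.shiftLeft (nat_lit 0xa000001003) (nat_lit 100)) (.one (nat_lit 0xa00000100200400c00f200414a81801e611)) (.one (nat_lit 0xa00000100300400c00f200614a81801e611))))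
def t134 : k134.all (jb2 57 fl b0) = true := by decide +kernel
noncomputable def k135 : KT := (.br (Nat.shiftLeft (nat_lit 0xb000001003) (nat_lit 100)) (.br (Nat.shiftLeft (nat_lit 0xb) (nat_lit 136)) (.one (nat_lit 0xa00000200300400c00f400614a81801e611)) (.one (nat_lit 0xb00000100200400c00f200416ac1801e611))) (.br (Nat.shiftLeft (nat_lit 0x5800001) (nat_lit 113)) (.one (nat_lit 0xb00000100300400c00f200616ac1801e611)) (.one (nat_lit 0xb00000200300400c00f400616ac1801e611))))
def t135 : k135.all (jb2 57 fl b0) = true := by decide +kernel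
noncomputable def k136 : KT := (.br (Nat.shiftLeft (nat_lit 0x1) (nat_lit 148)) (.br (Nat.shiftLeft (nat_lit 0xc000001003) (nat_lit 100)) (.one (nat_lit 0xc00000100200400c00f200418b01801e611)) (.br (Nat.shiftLeft (nat_lit 0x6000001) (nat_lit 113)) (.one (nat_lit 0xc00000100300400c00f200618b01801e611)) (.one (nat_lit 0xc00000200300400c00f400618b01801e611)))) (.br (Nat.shiftLeft (nat_lit 0x3) (nat_lit 148)) (.br (Nat.shiftLeft (nat_lit 0x1) (nat_lit 149)) (.one (nat_lit 0x100000100200300400c00f402640803841e711)) (.one (nat_lit 0x200000100200300400c00f404680803841e711))) (.br (Nat.shiftLeft (nat_lit 0x1) (nat_lit 150)) (.one (nat_lit 0x300000100200300400c00f4066c0803841e711)) (.one (nat_lit 0x400000100200300400c00f408700803841e711)))))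
def t136 : k136.all (jb2 57 fl b0) = true := by decide +kernel
noncomputable def k137 : KT := (.br (Nat.shiftLeft (nat_lit 0x3) (nat_lit 149)) (.one (nat_lit 0x500000100200300400c00f40a740803841e711)) (.one (nat_lit 0x600000100200300400c00f40c780803841e711)))
def t137 : k137.all (jb2 57 fl b0) = true := by decide +kernel
noncomputable def k138 : KT := (.br (Nat.shiftLeft (nat_lit 0x1) (nat_lit 151)) (.one (nat_lit 0x700000100200300400c00f40e7c0803841e711)) (.one (nat_lit 0x800000100200300400c00f410800803841e711)))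
noncomputable def b139 : BT := .node (nat_lit 0x35) (nat_lit 0x25d24d897c001d4c80065b80cc9259097923127524dc003a59000ab7c002b1c000aa74296349b12f8003a98000ab7c196349b93aa4625724c900074b600158e000662e0011ac0526c4be27548c497a937000ea60002b1c000ca7c0022dd0b6c9b669366f0a4dcae496325f9508003a98000ab6c00419c0008e600039e3000ad5c393649b12f8003a98000ab841918950d3252312b927040032d80008d600033170008e5c20095a0095a0095a0095a0095a0095a0095a0095a0095a0095a0095a0095a0095a0095a0095a0095a0095a0095a0095a0095a0095a008fb008fb008fb00840007e0007e0007250072500725007250072500725007250066a0066a0066a0066a0066a0066a0055400554005540055400554004f4004f4004f4004f4004f4004f4004380043800438) .leaf .leaf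
def t138 : k138.all (jb2 57 fl b139) = true := by decide +kernel
noncomputable def k139 : KT := (.br (Nat.shiftLeft (nat_lit 0xb) (nat_lit 148)) (.br (Nat.shiftLeft (nat_lit 0x5) (nat_lit 149)) (.one (nat_lit 0x900000100200300400c00f412840803841e711)) (.one (nat_lit 0xa00000100200300400c00f414880803841e711))) (.br (Nat.shiftLeft (nat_lit 0x3) (nat_lit 150)) (.one (nat_lit 0xb00000100200300400c00f4168c0803841e711)) (.one (nat_lit 0xc00000100200300400c00f418900803841e711))))
def t139 : k139.all (jb2 57 fl b0) = true := by decide +kernel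
noncomputable def s6 : KT := (.br (nat_lit 0x700000100200400c00f20040e9c1801e611) (.br (nat_lit 0xa00000200400c00f000400815a81e511) (.br (nat_lit 0x600000200400c00f00040080d981e511) (.br (nat_lit 0x800000400c00f0000008018120411) k121 k122) (.br (nat_lit 0x800000200400c00f000400811a01e511) k123 k124)) (.br (nat_lit 0x500000100200400c00f20040a941801e611) (.br (nat_lit 0x300000200300400c00f4006068c1801e611) k125 k126) (.br (nat_lit 0x500000200300400c00f40060a941801e611) k127 (.br (nat_lit 0x600000100300400c00f20060c981801e611) k128 k129)))) (.br (nat_lit 0xa00000100300400c00f200614a81801e611) (.br (nat_lit 0x800000100200400c00f200410a01801e611) (.br (nat_lit 0x700000100300400c00f20060e9c1801e611) k130 k131) (.br (nat_lit 0x800000200300400c00f400610a01801e611) k132 (.br (nat_lit 0x900000100300400c00f200612a41801e611) k133 k134))) (.br (nat_lit 0x400000100200300400c00f408700803841e711) (.br (nat_lit 0xb00000200300400c00f400616ac1801e611) k135 k136) (.br (nat_lit 0x600000100200300400c00f40c780803841e711) k137 (.br (nat_lit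 0x800000100200300400c00f410800803841e711) k138 k139)))))
noncomputable def u6 : KT := (.one (nat_lit 0x400c00f000000801801e430))
def w6 : u6.all (wj 57 s6) = true := by decide +kernel
def o6 : OkW 57 (jb2 57 fl) u6 := .lift s6 _ (.br _ _ _ (.br _ _ _ (.br _ _ _ (.br _ _ _ (.leaf b0 k121 t121) (.leaf b0 k122 t122)) (.br _ _ _ (.leaf b124 k123 t123) (.leaf b125 k124 t124))) (.br _ _ _ (.br _ _ _ (.leaf b0 k125 t125) (.leaf b0 k126 t126)) (.br _ _ _ (.leaf b0 k127 t127) (.br _ _ _ (.leaf b0 k128 t128) (.leaf b0 k129 t129))))) (.br _ _ _ (.br _ _ _ (.br _ _ _ (.leaf b131 k130 t130) (.leaf b132 k131 t131)) (.br _ _ _ (.leaf b133 k132 t132) (.br _ _ _ (.leaf b0 k133 t133) (.leaf b0 k134 t134)))) (.br _ _ _ (.br _ _ _ (.leaf b0 k135 t135) (.leaf b0 k136 t136)) (.br _ _ _ (.leaf b0 k137 t137) (.br _ _ _ (.leaf b139 k138 t138) (.leaf b0 k139 t139)))))) w6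
noncomputable def k140 : KT := (.br (Nat.shiftLeft (nat_lit 0x1) (nat_lit 113)) (.br (Nat.shiftLeft (nat_lit 0x3) (nat_lit 100)) (.br (Nat.shiftLeft (nat_lit 0x1) (nat_lit 100)) (.one (nat_lit 0x400c0100000008018021400)) (.br (Nat.shiftLeft (nat_lit 0x1) (nat_lit 101)) (.one (nat_lit 0x100400c0100002008018020540)) (.one (nat_lit 0x200400c0100004008018021500)))) (.br (Nat.shiftLeft (nat_lit 0x801) (nat_lit 101)) (.br (Nat.shiftLeft (nat_lit 0x1) (nat_lit 112)) (.one (nat_lit 0x300400c0100006008018021500)) (.one (nat_lit 0x100000400c0102000008018020411))) (.br (Nat.shiftLeft (nat_lit 0x1003) (nat_lit 100)) (.one (nat_lit 0x100200400c0102004008018021600)) (.one (nat_lit 0x100300400c0102006008018021600))))) (.br (Nat.shiftLeft (nat_lit 0x1) (nat_lit 114)) (.br (Nat.shiftLeft (nat_lit 0x1001) (nat_lit 101)) (.one (nat_lit 0x200000400c0104000008018020411)) (.br (Nat.shiftLeft (nat_lit 0x3) (nat_lit 112)) (.one (nat_lit 0x200300400c0104006008018021600)) (.one (nat_lit 0x300000400c0106000008018020411)))) (.br (Nat.shiftLeft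 (nat_lit 0x3) (nat_lit 113)) (.br (Nat.shiftLeft (nat_lit 0x5) (nat_lit 112)) (.one (nat_lit 0x400000400c0108000008018020411)) (.one (nat_lit 0x500000400c010a000008018020411))) (.br (Nat.shiftLeft (nat_lit 0x7) (nat_lit 112)) (.one (nat_lit 0x600000400c010c000008018020411)) (.one (nat_lit 0x700000400c010e000008018020411))))))
def t140 : k140.all (jb2 57 fl b0) = true := by decide +kernel
noncomputable def k141 : KT := (.br (Nat.shiftLeft (nat_lit 0x1) (nat_lit 125)) (.br (Nat.shiftLeft (nat_lit 0x3) (nat_lit 114)) (.br (Nat.shiftLeft (nat_lit 0x5) (nat_lit 113)) (.br (Nat.shiftLeft (nat_lit 0x9) (nat_lit 112)) (.one (nat_lit 0x800000400c0100000008018122411)) (.one (nat_lit 0x900000400c0102000008018122411))) (.br (Nat.shiftLeft (nat_lit 0xb) (nat_lit 112)) (.one (nat_lit 0xa00000400c0104000008018122411)) (.one (nat_lit 0xb00000400c0106000008018122411)))) (.br (Nat.shiftLeft (nat_lit 0x1000003) (nat_lit 100)) (.br (Nat.shiftLeft (nat_lit 0x1) (nat_lit 124)) (.one (nat_lit 0xc00000400c0108000008018122411)) (.one (nat_lit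 0x100000200400c0100004008038420511))) (.br (Nat.shiftLeft (nat_lit 0x801) (nat_lit 113)) (.one (nat_lit 0x100000300400c0100006008038420511)) (.one (nat_lit 0x100200300400c0104006008038421700))))) (.br (Nat.shiftLeft (nat_lit 0x1) (nat_lit 126)) (.br (Nat.shiftLeft (nat_lit 0x3) (nat_lit 124)) (.br (Nat.shiftLeft (nat_lit 0x2000003) (nat_lit 100)) (.one (nat_lit 0x200000200400c0100004008058820511)) (.one (nat_lit 0x200000300400c0100006008058820511))) (.br (Nat.shiftLeft (nat_lit 0x3000003) (nat_lit 100)) (.one (nat_lit 0x300000200400c0100004008078c20511)) (.one (nat_lit 0x300000300400c0100006008078c20511)))) (.br (Nat.shiftLeft (nat_lit 0x5) (nat_lit 124)) (.br (Nat.shiftLeft (nat_lit 0x4000003) (nat_lit 100)) (.one (nat_lit 0x400000200400c0100004008099020511)) (.one (nat_lit 0x400000300400c0100006008099020511))) (.br (Nat.shiftLeft (nat_lit 0x5000003) (nat_lit 100)) (.one (nat_lit 0x500000200400c01000040080b9420511)) (.br (Nat.shiftLeft (nat_lit 0x3) (nat_lit 125)) (.one (nat_lit 0x500000300400c01000060080b9420511))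 (.one (nat_lit 0x600000200400c01000040080d9820511)))))))
def t141 : k141.all (jb2 57 fl b0) = true := by decide +kernel
noncomputable def k142 : KT := (.br (Nat.shiftLeft (nat_lit 0x7000003) (nat_lit 100)) (.br (Nat.shiftLeft (nat_lit 0x7) (nat_lit 124)) (.one (nat_lit 0x600000300400c01000060080d9820511)) (.one (nat_lit 0x700000200400c01000040080f9c20511))) (.br (Nat.shiftLeft (nat_lit 0x1) (nat_lit 127)) (.one (nat_lit 0x700000300400c01000060080f9c20511)) (.one (nat_lit 0x800000200400c010000400811a020511))))
noncomputable def b143 : BT := .node (nat_lit 0x1) (nat_lit 0x123225fa58c0032630008c6410008900028) .leaf .leaf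
def t142 : k142.all (jb2 57 fl b143) = true := by decide +kernel
noncomputable def k143 : KT := (.br (Nat.shiftLeft (nat_lit 0x9000003) (nat_lit 100)) (.br (Nat.shiftLeft (nat_lit 0x9) (nat_lit 124)) (.one (nat_lit 0x800000300400c010000600811a020511)) (.one (nat_lit 0x900000200400c010000400813a420511))) (.br (Nat.shiftLeft (nat_lit 0x5) (nat_lit 125)) (.one (nat_lit 0x900000300400c010000600813a420511)) (.one (nat_lit 0xa00000200400c010000400815a820511))))
noncomputable def b144 : BT := .node (nat_lit 0x1) (nat_lit 0x48c497e5426f0a4e12c69914b195080032250008d60003a5c000ab64003a59000cb6030013f00028) .leaf .leaf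
def t143 : k143.all (jb2 57 fl b144) = true := by decide +kernel
noncomputable def k144 : KT := (.br (Nat.shiftLeft (nat_lit 0x800001) (nat_lit 113)) (.br (Nat.shiftLeft (nat_lit 0x3) (nat_lit 126)) (.br (Nat.shiftLeft (nat_lit 0xb) (nat_lit 124)) (.one (nat_lit 0xa00000300400c010000600815a820511)) (.br (Nat.shiftLeft (nat_lit 0xb000003) (nat_lit 100)) (.one (nat_lit 0xb00000200400c010000400817ac20511)) (.one (nat_lit 0xb00000300400c010000600817ac20511)))) (.br (Nat.shiftLeft (nat_lit 0x1) (nat_lit 136)) (.br (Nat.shiftLeft (nat_lit 0xc000003) (nat_lit 100)) (.one (nat_lit 0xc00000200400c010000400819b020511)) (.one (nat_lit 0xc00000300400c010000600819b020511))) (.br (Nat.shiftLeft (nat_lit 0x1000001003) (nat_lit 100)) (.one (nat_lit 0x100000100200400c0102004028418020611)) (.one (nat_lit 0x100000100300400c0102006028418020611))))) (.br (Nat.shiftLeft (nat_lit 0x1000001) (nat_lit 113)) (.br (Nat.shiftLeft (nat_lit 0x1) (nat_lit 137)) (.one (nat_lit 0x100000200300400c0104006028418020611)) (.br (Nat.shiftLeft (nat_lit 0x2000001003)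 (nat_lit 100)) (.one (nat_lit 0x200000100200400c0102004048818020611)) (.one (nat_lit 0x200000100300400c0102006048818020611)))) (.br (Nat.shiftLeft (nat_lit 0x3000001003) (nat_lit 100)) (.br (Nat.shiftLeft (nat_lit 0x3) (nat_lit 136)) (.one (nat_lit 0x200000200300400c0104006048818020611)) (.one (nat_lit 0x300000100200400c0102004068c18020611))) (.br (Nat.shiftLeft (nat_lit 0x1800001) (nat_lit 113)) (.one (nat_lit 0x300000100300400c0102006068c18020611)) (.one (nat_lit 0x300000200300400c0104006068c18020611))))))
def t144 : k144.all (jb2 57 fl b0) = true := by decide +kernel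
noncomputable def k145 : KT := (.br (Nat.shiftLeft (nat_lit 0x2000001) (nat_lit 113)) (.br (Nat.shiftLeft (nat_lit 0x4000001003) (nat_lit 100)) (.one (nat_lit 0x400000100200400c0102004089018020611)) (.one (nat_lit 0x400000100300400c0102006089018020611))) (.br (Nat.shiftLeft (nat_lit 0x5) (nat_lit 136)) (.one (nat_lit 0x400000200300400c0104006089018020611)) (.br (Nat.shiftLeft (nat_lit 0x5000001003) (nat_lit 100)) (.one (nat_lit 0x500000100200400c01020040a9418020611)) (.one (nat_lit 0x500000100300400c01020060a9418020611)))))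
def t145 : k145.all (jb2 57 fl b0) = true := by decide +kernel
noncomputable def k146 : KT := (.br (Nat.shiftLeft (nat_lit 0x3) (nat_lit 137)) (.one (nat_lit 0x500000200300400c01040060a9418020611)) (.one (nat_lit 0x600000100200400c01020040c9818020611)))
def t146 : k146.all (jb2 57 fl b0) = true := by decide +kernel
noncomputable def k147 : KT := (.br (Nat.shiftLeft (nat_lit 0x3000001) (nat_lit 113)) (.one (nat_lit 0x600000100300400c01020060c9818020611)) (.one (nat_lit 0x600000200300400c01040060c9818020611)))
def t147 : k147.all (jb2 57 fl b0) = true := by decide +kernel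
noncomputable def k148 : KT := (.br (Nat.shiftLeft (nat_lit 0x7000001003) (nat_lit 100)) (.one (nat_lit 0x700000100200400c01020040e9c18020611)) (.one (nat_lit 0x700000100300400c01020060e9c18020611)))
noncomputable def b149 : BT := .node (nat_lit 0x1) (nat_lit 0x918b6d1b6696349b24d80032d8000ca64003a98000ca682000e400028) .leaf .leaf
def t148 : k148.all (jb2 57 fl b149) = true := by decide +kernel
noncomputable def k149 : KT := (.br (Nat.shiftLeft (nat_lit 0x1) (nat_lit 139)) (.one (nat_lit 0x700000200300400c01040060e9c18020611)) (.one (nat_lit 0x800000100200400c010200410a018020611)))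
def t149 : k149.all (jb2 57 fl b0) = true := by decide +kernel
noncomputable def k150 : KT := (.br (Nat.shiftLeft (nat_lit 0x4000001) (nat_lit 113)) (.one (nat_lit 0x800000100300400c010200610a018020611)) (.one (nat_lit 0x800000200300400c010400610a018020611)))
noncomputable def b151 : BT := .node (nat_lit 0xb) (nat_lit 0x49b93ac97600196e00065b00ed992fc97e001d4c80045c60ce927492fc003a98000ca80193749b12f8003a98000ab80191893acae4001cf080037b00cbb49b93a8003a98000cb6c10032f0032f002cf0026f0026f0021000210001b0001b00014f0014f000f0) .leaf .leaf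
def t150 : k150.all (jb2 57 fl b151) = true := by decide +kernel
noncomputable def k151 : KT := (.br (Nat.shiftLeft (nat_lit 0x9000001003) (nat_lit 100)) (.one (nat_lit 0x900000100200400c010200412a418020611)) (.br (Nat.shiftLeft (nat_lit 0x4800001) (nat_lit 113)) (.one (nat_lit 0x900000100300400c010200612a418020611)) (.one (nat_lit 0x900000200300400c010400612a418020611))))
def t151 : k151.all (jb2 57 fl b0) = true := by decide +kernel
noncomputable def k152 : KT := (.br (Nat.shiftLeft (nat_lit 0xa000001003) (nat_lit 100)) (.one (nat_lit 0xa00000100200400c010200414a818020611)) (.br (Nat.shiftLeft (nat_lit 0x5000001) (nat_lit 113)) (.one (nat_lit 0xa00000100300400c010200614a818020611)) (.one (nat_lit 0xa00000200300400c010400614a818020611))))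
def t152 : k152.all (jb2 57 fl b0) = true := by decide +kernel
noncomputable def k153 : KT := (.br (Nat.shiftLeft (nat_lit 0x5800001) (nat_lit 113)) (.br (Nat.shiftLeft (nat_lit 0xb000001003) (nat_lit 100)) (.one (nat_lit 0xb00000100200400c010200416ac18020611)) (.one (nat_lit 0xb00000100300400c010200616ac18020611))) (.br (Nat.shiftLeft (nat_lit 0x3) (nat_lit 138)) (.one (nat_lit 0xb00000200300400c010400616ac18020611)) (.br (Nat.shiftLeft (nat_lit 0xc000001003) (nat_lit 100)) (.one (nat_lit 0xc00000100200400c010200418b018020611)) (.one (nat_lit 0xc00000100300400c010200618b018020611)))))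
def t153 : k153.all (jb2 57 fl b0) = true := by decide +kernel
noncomputable def k154 : KT := (.br (Nat.shiftLeft (nat_lit 0x3) (nat_lit 148)) (.br (Nat.shiftLeft (nat_lit 0x1) (nat_lit 148)) (.one (nat_lit 0xc00000200300400c010400618b018020611)) (.br (Nat.shiftLeft (nat_lit 0x1) (nat_lit 149)) (.one (nat_lit 0x100000100200300400c0104026408038420711)) (.one (nat_lit 0x200000100200300400c0104046808038420711)))) (.br (Nat.shiftLeft (nat_lit 0x5) (nat_lit 148)) (.br (Nat.shiftLeft (nat_lit 0x1) (nat_lit 150)) (.one (nat_lit 0x300000100200300400c0104066c08038420711)) (.one (nat_lit 0x400000100200300400c0104087008038420711))) (.br (Nat.shiftLeft (nat_lit 0x3) (nat_lit 149)) (.one (nat_lit 0x500000100200300400c01040a7408038420711)) (.one (nat_lit 0x600000100200300400c01040c7808038420711)))))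
def t154 : k154.all (jb2 57 fl b0) = true := by decide +kernel
noncomputable def k155 : KT := (.br (Nat.shiftLeft (nat_lit 0x1) (nat_lit 151)) (.one (nat_lit 0x700000100200300400c01040e7c08038420711)) (.br (Nat.shiftLeft (nat_lit 0x9) (nat_lit 148)) (.one (nat_lit 0x800000100200300400c0104108008038420711)) (.one (nat_lit 0x900000100200300400c0104128408038420711))))
noncomputable def b156 : BT := .node (nat_lit 0x17) (nat_lit 0x24d926c4bf000cb600032a2064d897e936000cb740032d8067412fc97c93649c1451b66937275000753200195000084360015ab800653800158d873224bb27580065b0001930832312a12649bc2db349b37849784ec000ad5c002b18000e964002adb000e96c0022e20e644980572000e694002b58065d24d89d657249b93a8003a98000cb7400419c000ac70200646005e600586005860058600471004710047100471004710047100471004710047100411002fa002fa0029a001e0001e0001e0001e0001e0001e0) .leaf .leaf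
def t155 : k155.all (jb2 57 fl b156) = true := by decide +kernel
noncomputable def k156 : KT := (.br (Nat.shiftLeft (nat_lit 0xb) (nat_lit 148)) (.one (nat_lit 0xa00000100200300400c0104148808038420711)) (.br (Nat.shiftLeft (nat_lit 0x3) (nat_lit 150)) (.one (nat_lit 0xb00000100200300400c0104168c08038420711)) (.one (nat_lit 0xc00000100200300400c0104189008038420711))))
def t156 : k156.all (jb2 57 fl b0) = true := by decide +kernel
noncomputable def s7 : KT := (.br (nat_lit 0x600000200300400c01040060c9818020611) (.br (nat_lit 0xa00000200400c010000400815a820511) (.br (nat_lit 0x600000200400c01000040080d9820511) (.br (nat_lit 0x700000400c010e000008018020411) k140 k141) (.br (nat_lit 0x800000200400c010000400811a020511) k142 k143)) (.br (nat_lit 0x500000100300400c01020060a9418020611) (.br (nat_lit 0x300000200300400c0104006068c18020611) k144 k145) (.br (nat_lit 0x600000100200400c01020040c9818020611) k146 k147))) (.br (nat_lit 0x900000200300400c010400612a418020611) (.br (nat_lit 0x800000100200400c010200410a018020611) (.br (nat_lit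 0x700000100300400c01020060e9c18020611) k148 k149) (.br (nat_lit 0x800000200300400c010400610a018020611) k150 k151)) (.br (nat_lit 0xc00000100300400c010200618b018020611) (.br (nat_lit 0xa00000200300400c010400614a818020611) k152 k153) (.br (nat_lit 0x600000100200300400c01040c7808038420711) k154 (.br (nat_lit 0x900000100200300400c0104128408038420711) k155 k156)))))
noncomputable def u7 : KT := (.one (nat_lit 0x400c0100000008018020430))
def w7 : u7.all (wj 57 s7) = true := by decide +kernel
def o7 : OkW 57 (jb2 57 fl) u7 := .lift s7 _ (.br _ _ _ (.br _ _ _ (.br _ _ _ (.br _ _ _ (.leaf b0 k140 t140) (.leaf b0 k141 t141)) (.br _ _ _ (.leaf b143 k142 t142) (.leaf b144 k143 t143))) (.br _ _ _ (.br _ _ _ (.leaf b0 k144 t144) (.leaf b0 k145 t145)) (.br _ _ _ (.leaf b0 k146 t146) (.leaf b0 k147 t147)))) (.br _ _ _ (.br _ _ _ (.br _ _ _ (.leaf b149 k148 t148) (.leaf b0 k149 t149)) (.br _ _ _ (.leaf b151 k150 t150) (.leaf b0 k151 t151))) (.br _ _ _ (.br _ _ _ (.leaf b0 k152 t152) (.leaf b0 k153 t153)) (.br _ _ _ (.leaf b0 k154 t154)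 (.br _ _ _ (.leaf b156 k155 t155) (.leaf b0 k156 t156)))))) w7
noncomputable def k157 : KT := (.br (Nat.shiftLeft (nat_lit 0x1003) (nat_lit 100)) (.br (Nat.shiftLeft (nat_lit 0x3) (nat_lit 100)) (.br (Nat.shiftLeft (nat_lit 0x1) (nat_lit 100)) (.one (nat_lit 0x400c0110000008018023400)) (.br (Nat.shiftLeft (nat_lit 0x1) (nat_lit 101)) (.one (nat_lit 0x100400c0110002008018022540)) (.one (nat_lit 0x200400c0110004008018023500)))) (.br (Nat.shiftLeft (nat_lit 0x1) (nat_lit 112)) (.one (nat_lit 0x300400c0110006008018023500)) (.br (Nat.shiftLeft (nat_lit 0x801) (nat_lit 101)) (.one (nat_lit 0x100000400c0112000008018022411)) (.one (nat_lit 0x100200400c0112004008018023600))))) (.br (Nat.shiftLeft (nat_lit 0x3) (nat_lit 112)) (.br (Nat.shiftLeft (nat_lit 0x1) (nat_lit 113)) (.one (nat_lit 0x100300400c0112006008018023600)) (.br (Nat.shiftLeft (nat_lit 0x1001) (nat_lit 101)) (.one (nat_lit 0x200000400c0114000008018022411)) (.one (nat_lit 0x200300400c0114006008018023600)))) (.br (Nat.shiftLeft (nat_lit 0x5) (nat_lit 112)) (.br (Nat.shiftLeft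 (nat_lit 0x1) (nat_lit 114)) (.one (nat_lit 0x300000400c0116000008018022411)) (.one (nat_lit 0x400000400c0118000008018022411))) (.br (Nat.shiftLeft (nat_lit 0x3) (nat_lit 113)) (.one (nat_lit 0x500000400c011a000008018022411)) (.one (nat_lit 0x600000400c011c000008018022411))))))
def t157 : k157.all (jb2 57 fl b0) = true := by decide +kernel
noncomputable def k158 : KT := (.br (Nat.shiftLeft (nat_lit 0x1) (nat_lit 125)) (.br (Nat.shiftLeft (nat_lit 0xb) (nat_lit 112)) (.br (Nat.shiftLeft (nat_lit 0x9) (nat_lit 112)) (.br (Nat.shiftLeft (nat_lit 0x1) (nat_lit 115)) (.one (nat_lit 0x700000400c011e000008018022411)) (.one (nat_lit 0x800000400c0110000008018124411))) (.br (Nat.shiftLeft (nat_lit 0x5) (nat_lit 113)) (.one (nat_lit 0x900000400c0112000008018124411)) (.one (nat_lit 0xa00000400c0114000008018124411)))) (.br (Nat.shiftLeft (nat_lit 0x1) (nat_lit 124)) (.br (Nat.shiftLeft (nat_lit 0x3) (nat_lit 114)) (.one (nat_lit 0xb00000400c0116000008018124411)) (.one (nat_lit 0xc00000400c0118000008018124411))) (.br (Nat.shiftLeft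 (nat_lit 0x1000003) (nat_lit 100)) (.one (nat_lit 0x100000200400c0110004008038422511)) (.br (Nat.shiftLeft (nat_lit 0x801) (nat_lit 113)) (.one (nat_lit 0x100000300400c0110006008038422511)) (.one (nat_lit 0x100200300400c0114006008038423700)))))) (.br (Nat.shiftLeft (nat_lit 0x1) (nat_lit 126)) (.br (Nat.shiftLeft (nat_lit 0x3) (nat_lit 124)) (.br (Nat.shiftLeft (nat_lit 0x2000003) (nat_lit 100)) (.one (nat_lit 0x200000200400c0110004008058822511)) (.one (nat_lit 0x200000300400c0110006008058822511))) (.br (Nat.shiftLeft (nat_lit 0x3000003) (nat_lit 100)) (.one (nat_lit 0x300000200400c0110004008078c22511)) (.one (nat_lit 0x300000300400c0110006008078c22511)))) (.br (Nat.shiftLeft (nat_lit 0x5) (nat_lit 124)) (.br (Nat.shiftLeft (nat_lit 0x4000003) (nat_lit 100)) (.one (nat_lit 0x400000200400c0110004008099022511)) (.one (nat_lit 0x400000300400c0110006008099022511))) (.br (Nat.shiftLeft (nat_lit 0x5000003) (nat_lit 100)) (.one (nat_lit 0x500000200400c01100040080b9422511)) (.br (Nat.shiftLeft (nat_lit 0x3) (nat_lit 125)) (.one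 (nat_lit 0x500000300400c01100060080b9422511)) (.one (nat_lit 0x600000200400c01100040080d9822511)))))))
def t158 : k158.all (jb2 57 fl b0) = true := by decide +kernel
noncomputable def k159 : KT := (.br (Nat.shiftLeft (nat_lit 0x7000003) (nat_lit 100)) (.br (Nat.shiftLeft (nat_lit 0x7) (nat_lit 124)) (.one (nat_lit 0x600000300400c01100060080d9822511)) (.one (nat_lit 0x700000200400c01100040080f9c22511))) (.br (Nat.shiftLeft (nat_lit 0x1) (nat_lit 127)) (.one (nat_lit 0x700000300400c01100060080f9c22511)) (.one (nat_lit 0x800000200400c011000400811a022511))))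
def t159 : k159.all (jb2 57 fl b0) = true := by decide +kernel
noncomputable def k160 : KT := (.br (Nat.shiftLeft (nat_lit 0x9000003) (nat_lit 100)) (.br (Nat.shiftLeft (nat_lit 0x9) (nat_lit 124)) (.one (nat_lit 0x800000300400c011000600811a022511)) (.one (nat_lit 0x900000200400c011000400813a422511))) (.br (Nat.shiftLeft (nat_lit 0x5) (nat_lit 125)) (.one (nat_lit 0x900000300400c011000600813a422511)) (.one (nat_lit 0xa00000200400c011000400815a822511))))
def t160 : k160.all (jb2 57 fl b0) = true := by decide +kernel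
noncomputable def k161 : KT := (.br (Nat.shiftLeft (nat_lit 0x800001) (nat_lit 113)) (.br (Nat.shiftLeft (nat_lit 0x3) (nat_lit 126)) (.br (Nat.shiftLeft (nat_lit 0xb) (nat_lit 124)) (.one (nat_lit 0xa00000300400c011000600815a822511)) (.br (Nat.shiftLeft (nat_lit 0xb000003) (nat_lit 100)) (.one (nat_lit 0xb00000200400c011000400817ac22511)) (.one (nat_lit 0xb00000300400c011000600817ac22511)))) (.br (Nat.shiftLeft (nat_lit 0x1) (nat_lit 136)) (.br (Nat.shiftLeft (nat_lit 0xc000003) (nat_lit 100)) (.one (nat_lit 0xc00000200400c011000400819b022511)) (.one (nat_lit 0xc00000300400c011000600819b022511))) (.br (Nat.shiftLeft (nat_lit 0x1000001003) (nat_lit 100)) (.one (nat_lit 0x100000100200400c0112004028418022611)) (.one (nat_lit 0x100000100300400c0112006028418022611))))) (.br (Nat.shiftLeft (nat_lit 0x1000001) (nat_lit 113)) (.br (Nat.shiftLeft (nat_lit 0x1) (nat_lit 137)) (.one (nat_lit 0x100000200300400c0114006028418022611)) (.br (Nat.shiftLeft (nat_lit 0x2000001003) (nat_lit 100)) (.one (nat_lit 0x200000100200400c0112004048818022611))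 (.one (nat_lit 0x200000100300400c0112006048818022611)))) (.br (Nat.shiftLeft (nat_lit 0x3000001003) (nat_lit 100)) (.br (Nat.shiftLeft (nat_lit 0x3) (nat_lit 136)) (.one (nat_lit 0x200000200300400c0114006048818022611)) (.one (nat_lit 0x300000100200400c0112004068c18022611))) (.br (Nat.shiftLeft (nat_lit 0x1800001) (nat_lit 113)) (.one (nat_lit 0x300000100300400c0112006068c18022611)) (.one (nat_lit 0x300000200300400c0114006068c18022611))))))
def t161 : k161.all (jb2 57 fl b0) = true := by decide +kernel
noncomputable def k162 : KT := (.br (Nat.shiftLeft (nat_lit 0x2000001) (nat_lit 113)) (.br (Nat.shiftLeft (nat_lit 0x4000001003) (nat_lit 100)) (.one (nat_lit 0x400000100200400c0112004089018022611)) (.one (nat_lit 0x400000100300400c0112006089018022611))) (.br (Nat.shiftLeft (nat_lit 0x5) (nat_lit 136)) (.one (nat_lit 0x400000200300400c0114006089018022611)) (.br (Nat.shiftLeft (nat_lit 0x5000001003) (nat_lit 100)) (.one (nat_lit 0x500000100200400c01120040a9418022611)) (.one (nat_lit 0x500000100300400c01120060a9418022611)))))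
def t162 : k162.all (jb2 57 fl b0) = true := by decide +kernel
noncomputable def k163 : KT := (.br (Nat.shiftLeft (nat_lit 0x3) (nat_lit 137)) (.one (nat_lit 0x500000200300400c01140060a9418022611)) (.br (Nat.shiftLeft (nat_lit 0x6000001003) (nat_lit 100)) (.one (nat_lit 0x600000100200400c01120040c9818022611)) (.one (nat_lit 0x600000100300400c01120060c9818022611))))
def t163 : k163.all (jb2 57 fl b0) = true := by decide +kernel
noncomputable def k164 : KT := (.br (Nat.shiftLeft (nat_lit 0x7) (nat_lit 136)) (.one (nat_lit 0x600000200300400c01140060c9818022611)) (.one (nat_lit 0x700000100200400c01120040e9c18022611)))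
def t164 : k164.all (jb2 57 fl b0) = true := by decide +kernel
noncomputable def k165 : KT := (.br (Nat.shiftLeft (nat_lit 0x3800001) (nat_lit 113)) (.one (nat_lit 0x700000100300400c01120060e9c18022611)) (.one (nat_lit 0x700000200300400c01140060e9c18022611)))
def t165 : k165.all (jb2 57 fl b0) = true := by decide +kernel
noncomputable def k166 : KT := (.br (Nat.shiftLeft (nat_lit 0x8000001003) (nat_lit 100)) (.one (nat_lit 0x800000100200400c011200410a018022611)) (.br (Nat.shiftLeft (nat_lit 0x4000001) (nat_lit 113)) (.one (nat_lit 0x800000100300400c011200610a018022611)) (.one (nat_lit 0x800000200300400c011400610a018022611))))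
noncomputable def b167 : BT := .node (nat_lit 0x1) (nat_lit 0x93625d93000032d8000ca8c10008800028) .leaf .leaf
def t166 : k166.all (jb2 57 fl b167) = true := by decide +kernel
noncomputable def k167 : KT := (.br (Nat.shiftLeft (nat_lit 0x9000001003) (nat_lit 100)) (.one (nat_lit 0x900000100200400c011200412a418022611)) (.br (Nat.shiftLeft (nat_lit 0x4800001) (nat_lit 113)) (.one (nat_lit 0x900000100300400c011200612a418022611)) (.one (nat_lit 0x900000200300400c011400612a418022611))))
noncomputable def b168 : BT := .node (nat_lit 0x3) (nat_lit 0x51449c12fc00421c000ab7c1de127524e40032da000aa7c10010f000b0000b000050) .leaf .leaf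
def t167 : k167.all (jb2 57 fl b168) = true := by decide +kernel
noncomputable def k168 : KT := (.br (Nat.shiftLeft (nat_lit 0x5000001) (nat_lit 113)) (.br (Nat.shiftLeft (nat_lit 0xa000001003) (nat_lit 100)) (.one (nat_lit 0xa00000100200400c011200414a818022611)) (.one (nat_lit 0xa00000100300400c011200614a818022611))) (.br (Nat.shiftLeft (nat_lit 0xb) (nat_lit 136)) (.one (nat_lit 0xa00000200300400c011400614a818022611)) (.one (nat_lit 0xb00000100200400c011200416ac18022611))))
def t168 : k168.all (jb2 57 fl b0) = true := by decide +kernel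
noncomputable def k169 : KT := (.br (Nat.shiftLeft (nat_lit 0x6000001) (nat_lit 113)) (.br (Nat.shiftLeft (nat_lit 0x3) (nat_lit 138)) (.br (Nat.shiftLeft (nat_lit 0x5800001) (nat_lit 113)) (.one (nat_lit 0xb00000100300400c011200616ac18022611)) (.one (nat_lit 0xb00000200300400c011400616ac18022611))) (.br (Nat.shiftLeft (nat_lit 0xc000001003) (nat_lit 100)) (.one (nat_lit 0xc00000100200400c011200418b018022611)) (.one (nat_lit 0xc00000100300400c011200618b018022611)))) (.br (Nat.shiftLeft (nat_lit 0x1) (nat_lit 149)) (.br (Nat.shiftLeft (nat_lit 0x1) (nat_lit 148)) (.one (nat_lit 0xc00000200300400c011400618b018022611)) (.one (nat_lit 0x100000100200300400c0114026408038422711))) (.br (Nat.shiftLeft (nat_lit 0x3) (nat_lit 148)) (.one (nat_lit 0x200000100200300400c0114046808038422711)) (.br (Nat.shiftLeft (nat_lit 0x1) (nat_lit 150)) (.one (nat_lit 0x300000100200300400c0114066c08038422711)) (.one (nat_lit 0x400000100200300400c0114087008038422711))))))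
def t169 : k169.all (jb2 57 fl b0) = true := by decide +kernel
noncomputable def k170 : KT := (.br (Nat.shiftLeft (nat_lit 0x3) (nat_lit 149)) (.one (nat_lit 0x500000100200300400c01140a7408038422711)) (.br (Nat.shiftLeft (nat_lit 0x7) (nat_lit 148)) (.one (nat_lit 0x600000100200300400c01140c7808038422711)) (.one (nat_lit 0x700000100200300400c01140e7c08038422711))))
noncomputable def b171 : BT := .node (nat_lit 0x1) (nat_lit 0x12316d993000032990008b9410008900028) .leaf .leaf
def t170 : k170.all (jb2 57 fl b171) = true := by decide +kernel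
noncomputable def k171 : KT := (.br (Nat.shiftLeft (nat_lit 0x5) (nat_lit 149)) (.br (Nat.shiftLeft (nat_lit 0x9) (nat_lit 148)) (.one (nat_lit 0x800000100200300400c0114108008038422711)) (.one (nat_lit 0x900000100200300400c0114128408038422711))) (.br (Nat.shiftLeft (nat_lit 0xb) (nat_lit 148)) (.one (nat_lit 0xa00000100200300400c0114148808038422711)) (.br (Nat.shiftLeft (nat_lit 0x3) (nat_lit 150)) (.one (nat_lit 0xb00000100200300400c0114168c08038422711)) (.one (nat_lit 0xc00000100200300400c0114189008038422711)))))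
noncomputable def b172 : BT := .node (nat_lit 0x1) (nat_lit 0x4e827492fc003a99000ca8410008700028) .leaf .leaf
def t171 : k171.all (jb2 57 fl b172) = true := by decide +kernel
noncomputable def s8 : KT := (.br (nat_lit 0x600000100300400c01120060c9818022611) (.br (nat_lit 0x800000200400c011000400811a022511) (.br (nat_lit 0x600000400c011c000008018022411) k157 (.br (nat_lit 0x600000200400c01100040080d9822511) k158 k159)) (.br (nat_lit 0x300000200300400c0114006068c18022611) (.br (nat_lit 0xa00000200400c011000400815a822511) k160 k161) (.br (nat_lit 0x500000100300400c01120060a9418022611) k162 k163))) (.br (nat_lit 0x900000200300400c011400612a418022611) (.br (nat_lit 0x700000200300400c01140060e9c18022611) (.br (nat_lit 0x700000100200400c01120040e9c18022611) k164 k165) (.br (nat_lit 0x800000200300400c011400610a018022611) k166 k167)) (.br (nat_lit 0x400000100200300400c0114087008038422711) (.br (nat_lit 0xb00000100200400c011200416ac18022611) k168 k169) (.br (nat_lit 0x700000100200300400c01140e7c08038422711) k170 k171))))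
noncomputable def u8 : KT := (.one (nat_lit 0x400c0110000008018022430))
def w8 : u8.all (wj 57 s8) = true := by decide +kernel
def o8 : OkW 57 (jb2 57 fl) u8 := .lift s8 _ (.br _ _ _ (.br _ _ _ (.br _ _ _ (.leaf b0 k157 t157) (.br _ _ _ (.leaf b0 k158 t158) (.leaf b0 k159 t159))) (.br _ _ _ (.br _ _ _ (.leaf b0 k160 t160) (.leaf b0 k161 t161)) (.br _ _ _ (.leaf b0 k162 t162) (.leaf b0 k163 t163)))) (.br _ _ _ (.br _ _ _ (.br _ _ _ (.leaf b0 k164 t164) (.leaf b0 k165 t165)) (.br _ _ _ (.leaf b167 k166 t166) (.leaf b168 k167 t167))) (.br _ _ _ (.br _ _ _ (.leaf b0 k168 t168) (.leaf b0 k169 t169)) (.br _ _ _ (.leaf b171 k170 t170) (.leaf b172 k171 t171))))) w8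
noncomputable def k172 : KT := (.br (Nat.shiftLeft (nat_lit 0x1003) (nat_lit 100)) (.br (Nat.shiftLeft (nat_lit 0x3) (nat_lit 100)) (.br (Nat.shiftLeft (nat_lit 0x1) (nat_lit 100)) (.one (nat_lit 0x400c0120000008018025400)) (.br (Nat.shiftLeft (nat_lit 0x1) (nat_lit 101)) (.one (nat_lit 0x100400c0120002008018024540)) (.one (nat_lit 0x200400c0120004008018025500)))) (.br (Nat.shiftLeft (nat_lit 0x1) (nat_lit 112)) (.one (nat_lit 0x300400c0120006008018025500)) (.br (Nat.shiftLeft (nat_lit 0x801) (nat_lit 101)) (.one (nat_lit 0x100000400c0122000008018024411)) (.one (nat_lit 0x100200400c0122004008018025600))))) (.br (Nat.shiftLeft (nat_lit 0x3) (nat_lit 112)) (.br (Nat.shiftLeft (nat_lit 0x1) (nat_lit 113)) (.one (nat_lit 0x100300400c0122006008018025600)) (.br (Nat.shiftLeft (nat_lit 0x1001) (nat_lit 101)) (.one (nat_lit 0x200000400c0124000008018024411)) (.one (nat_lit 0x200300400c0124006008018025600)))) (.br (Nat.shiftLeft (nat_lit 0x5) (nat_lit 112)) (.br (Nat.shiftLeft (nat_lit 0x1) (nat_lit 114)) (.one (nat_lit 0x300000400c0126000008018024411))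 (.one (nat_lit 0x400000400c0128000008018024411))) (.br (Nat.shiftLeft (nat_lit 0x3) (nat_lit 113)) (.one (nat_lit 0x500000400c012a000008018024411)) (.one (nat_lit 0x600000400c012c000008018024411))))))
noncomputable def b173 : BT := .node (nat_lit 0x1) (nat_lit 0x5134b1a4e0003a98004ea6010008700028) .leaf .leaf
def t172 : k172.all (jb2 57 fl b173) = true := by decide +kernel
noncomputable def k173 : KT := (.br (Nat.shiftLeft (nat_lit 0x1) (nat_lit 125)) (.br (Nat.shiftLeft (nat_lit 0xb) (nat_lit 112)) (.br (Nat.shiftLeft (nat_lit 0x9) (nat_lit 112)) (.br (Nat.shiftLeft (nat_lit 0x1) (nat_lit 115)) (.one (nat_lit 0x700000400c012e000008018024411)) (.one (nat_lit 0x800000400c0120000008018126411))) (.br (Nat.shiftLeft (nat_lit 0x5) (nat_lit 113)) (.one (nat_lit 0x900000400c0122000008018126411)) (.one (nat_lit 0xa00000400c0124000008018126411)))) (.br (Nat.shiftLeft (nat_lit 0x1) (nat_lit 124)) (.br (Nat.shiftLeft (nat_lit 0x3) (nat_lit 114)) (.one (nat_lit 0xb00000400c0126000008018126411)) (.one (nat_lit 0xc00000400c0128000008018126411)))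 (.br (Nat.shiftLeft (nat_lit 0x1000003) (nat_lit 100)) (.one (nat_lit 0x100000200400c0120004008038424511)) (.br (Nat.shiftLeft (nat_lit 0x801) (nat_lit 113)) (.one (nat_lit 0x100000300400c0120006008038424511)) (.one (nat_lit 0x100200300400c0124006008038425700)))))) (.br (Nat.shiftLeft (nat_lit 0x1) (nat_lit 126)) (.br (Nat.shiftLeft (nat_lit 0x3) (nat_lit 124)) (.br (Nat.shiftLeft (nat_lit 0x2000003) (nat_lit 100)) (.one (nat_lit 0x200000200400c0120004008058824511)) (.one (nat_lit 0x200000300400c0120006008058824511))) (.br (Nat.shiftLeft (nat_lit 0x3000003) (nat_lit 100)) (.one (nat_lit 0x300000200400c0120004008078c24511)) (.one (nat_lit 0x300000300400c0120006008078c24511)))) (.br (Nat.shiftLeft (nat_lit 0x5) (nat_lit 124)) (.br (Nat.shiftLeft (nat_lit 0x4000003) (nat_lit 100)) (.one (nat_lit 0x400000200400c0120004008099024511)) (.one (nat_lit 0x400000300400c0120006008099024511))) (.br (Nat.shiftLeft (nat_lit 0x5000003) (nat_lit 100)) (.one (nat_lit 0x500000200400c01200040080b9424511)) (.br (Nat.shiftLeft (nat_lit 0x3)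 (nat_lit 125)) (.one (nat_lit 0x500000300400c01200060080b9424511)) (.one (nat_lit 0x600000200400c01200040080d9824511)))))))
def t173 : k173.all (jb2 57 fl b0) = true := by decide +kernel
noncomputable def k174 : KT := (.br (Nat.shiftLeft (nat_lit 0x7000003) (nat_lit 100)) (.br (Nat.shiftLeft (nat_lit 0x7) (nat_lit 124)) (.one (nat_lit 0x600000300400c01200060080d9824511)) (.one (nat_lit 0x700000200400c01200040080f9c24511))) (.br (Nat.shiftLeft (nat_lit 0x1) (nat_lit 127)) (.one (nat_lit 0x700000300400c01200060080f9c24511)) (.one (nat_lit 0x800000200400c012000400811a024511))))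
def t174 : k174.all (jb2 57 fl b0) = true := by decide +kernel
noncomputable def k175 : KT := (.br (Nat.shiftLeft (nat_lit 0x9000003) (nat_lit 100)) (.br (Nat.shiftLeft (nat_lit 0x9) (nat_lit 124)) (.one (nat_lit 0x800000300400c012000600811a024511)) (.one (nat_lit 0x900000200400c012000400813a424511))) (.br (Nat.shiftLeft (nat_lit 0x5) (nat_lit 125)) (.one (nat_lit 0x900000300400c012000600813a424511)) (.one (nat_lit 0xa00000200400c012000400815a824511))))
def t175 : k175.all (jb2 57 fl b0) = true := by decide +kernel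
noncomputable def k176 : KT := (.br (Nat.shiftLeft (nat_lit 0x800001) (nat_lit 113)) (.br (Nat.shiftLeft (nat_lit 0x3) (nat_lit 126)) (.br (Nat.shiftLeft (nat_lit 0xb) (nat_lit 124)) (.one (nat_lit 0xa00000300400c012000600815a824511)) (.br (Nat.shiftLeft (nat_lit 0xb000003) (nat_lit 100)) (.one (nat_lit 0xb00000200400c012000400817ac24511)) (.one (nat_lit 0xb00000300400c012000600817ac24511)))) (.br (Nat.shiftLeft (nat_lit 0x1) (nat_lit 136)) (.br (Nat.shiftLeft (nat_lit 0xc000003) (nat_lit 100)) (.one (nat_lit 0xc00000200400c012000400819b024511)) (.one (nat_lit 0xc00000300400c012000600819b024511))) (.br (Nat.shiftLeft (nat_lit 0x1000001003) (nat_lit 100)) (.one (nat_lit 0x100000100200400c0122004028418024611)) (.one (nat_lit 0x100000100300400c0122006028418024611))))) (.br (Nat.shiftLeft (nat_lit 0x3) (nat_lit 136)) (.br (Nat.shiftLeft (nat_lit 0x2000001003) (nat_lit 100)) (.br (Nat.shiftLeft (nat_lit 0x1) (nat_lit 137)) (.one (nat_lit 0x100000200300400c0124006028418024611)) (.one (nat_lit 0x200000100200400c0122004048818024611)))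 (.br (Nat.shiftLeft (nat_lit 0x1000001) (nat_lit 113)) (.one (nat_lit 0x200000100300400c0122006048818024611)) (.one (nat_lit 0x200000200300400c0124006048818024611)))) (.br (Nat.shiftLeft (nat_lit 0x1800001) (nat_lit 113)) (.br (Nat.shiftLeft (nat_lit 0x3000001003) (nat_lit 100)) (.one (nat_lit 0x300000100200400c0122004068c18024611)) (.one (nat_lit 0x300000100300400c0122006068c18024611))) (.br (Nat.shiftLeft (nat_lit 0x1) (nat_lit 138)) (.one (nat_lit 0x300000200300400c0124006068c18024611)) (.one (nat_lit 0x400000100200400c0122004089018024611))))))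
def t176 : k176.all (jb2 57 fl b0) = true := by decide +kernel
noncomputable def k177 : KT := (.br (Nat.shiftLeft (nat_lit 0x5) (nat_lit 136)) (.br (Nat.shiftLeft (nat_lit 0x2000001) (nat_lit 113)) (.one (nat_lit 0x400000100300400c0122006089018024611)) (.one (nat_lit 0x400000200300400c0124006089018024611))) (.br (Nat.shiftLeft (nat_lit 0x5000001003) (nat_lit 100)) (.one (nat_lit 0x500000100200400c01220040a9418024611)) (.one (nat_lit 0x500000100300400c01220060a9418024611))))
def t177 : k177.all (jb2 57 fl b0) = true := by decide +kernel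
noncomputable def k178 : KT := (.br (Nat.shiftLeft (nat_lit 0x3) (nat_lit 137)) (.one (nat_lit 0x500000200300400c01240060a9418024611)) (.br (Nat.shiftLeft (nat_lit 0x6000001003) (nat_lit 100)) (.one (nat_lit 0x600000100200400c01220040c9818024611)) (.one (nat_lit 0x600000100300400c01220060c9818024611))))
def t178 : k178.all (jb2 57 fl b0) = true := by decide +kernel
noncomputable def k179 : KT := (.br (Nat.shiftLeft (nat_lit 0x7) (nat_lit 136)) (.one (nat_lit 0x600000200300400c01240060c9818024611)) (.br (Nat.shiftLeft (nat_lit 0x7000001003) (nat_lit 100)) (.one (nat_lit 0x700000100200400c01220040e9c18024611)) (.one (nat_lit 0x700000100300400c01220060e9c18024611))))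
def t179 : k179.all (jb2 57 fl b0) = true := by decide +kernel
noncomputable def k180 : KT := (.br (Nat.shiftLeft (nat_lit 0x1) (nat_lit 139)) (.one (nat_lit 0x700000200300400c01240060e9c18024611)) (.br (Nat.shiftLeft (nat_lit 0x8000001003) (nat_lit 100)) (.one (nat_lit 0x800000100200400c012200410a018024611)) (.one (nat_lit 0x800000100300400c012200610a018024611))))
def t180 : k180.all (jb2 57 fl b0) = true := by decide +kernel
noncomputable def k181 : KT := (.br (Nat.shiftLeft (nat_lit 0x9000001003) (nat_lit 100)) (.br (Nat.shiftLeft (nat_lit 0x9) (nat_lit 136)) (.one (nat_lit 0x800000200300400c012400610a018024611)) (.one (nat_lit 0x900000100200400c012200412a418024611))) (.br (Nat.shiftLeft (nat_lit 0x4800001) (nat_lit 113)) (.one (nat_lit 0x900000100300400c012200612a418024611)) (.one (nat_lit 0x900000200300400c012400612a418024611))))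
def t181 : k181.all (jb2 57 fl b0) = true := by decide +kernel
noncomputable def k182 : KT := (.br (Nat.shiftLeft (nat_lit 0x5000001) (nat_lit 113)) (.br (Nat.shiftLeft (nat_lit 0xa000001003) (nat_lit 100)) (.one (nat_lit 0xa00000100200400c012200414a818024611)) (.one (nat_lit 0xa00000100300400c012200614a818024611))) (.br (Nat.shiftLeft (nat_lit 0xb) (nat_lit 136)) (.one (nat_lit 0xa00000200300400c012400614a818024611)) (.br (Nat.shiftLeft (nat_lit 0xb000001003) (nat_lit 100)) (.one (nat_lit 0xb00000100200400c012200416ac18024611)) (.one (nat_lit 0xb00000100300400c012200616ac18024611)))))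
def t182 : k182.all (jb2 57 fl b0) = true := by decide +kernel
noncomputable def k183 : KT := (.br (Nat.shiftLeft (nat_lit 0x1) (nat_lit 149)) (.br (Nat.shiftLeft (nat_lit 0xc000001003) (nat_lit 100)) (.br (Nat.shiftLeft (nat_lit 0x3) (nat_lit 138)) (.one (nat_lit 0xb00000200300400c012400616ac18024611)) (.one (nat_lit 0xc00000100200400c012200418b018024611))) (.br (Nat.shiftLeft (nat_lit 0x6000001) (nat_lit 113)) (.one (nat_lit 0xc00000100300400c012200618b018024611)) (.br (Nat.shiftLeft (nat_lit 0x1) (nat_lit 148)) (.one (nat_lit 0xc00000200300400c012400618b018024611)) (.one (nat_lit 0x100000100200300400c0124026408038424711))))) (.br (Nat.shiftLeft (nat_lit 0x1) (nat_lit 150)) (.br (Nat.shiftLeft (nat_lit 0x3) (nat_lit 148)) (.one (nat_lit 0x200000100200300400c0124046808038424711)) (.one (nat_lit 0x300000100200300400c0124066c08038424711))) (.br (Nat.shiftLeft (nat_lit 0x5) (nat_lit 148)) (.one (nat_lit 0x400000100200300400c0124087008038424711)) (.br (Nat.shiftLeft (nat_lit 0x3) (nat_lit 149)) (.one (nat_lit 0x500000100200300400c01240a7408038424711))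 (.one (nat_lit 0x600000100200300400c01240c7808038424711))))))
def t183 : k183.all (jb2 57 fl b0) = true := by decide +kernel
noncomputable def k184 : KT := (.br (Nat.shiftLeft (nat_lit 0x5) (nat_lit 149)) (.br (Nat.shiftLeft (nat_lit 0x1) (nat_lit 151)) (.one (nat_lit 0x700000100200300400c01240e7c08038424711)) (.br (Nat.shiftLeft (nat_lit 0x9) (nat_lit 148)) (.one (nat_lit 0x800000100200300400c0124108008038424711)) (.one (nat_lit 0x900000100200300400c0124128408038424711)))) (.br (Nat.shiftLeft (nat_lit 0xb) (nat_lit 148)) (.one (nat_lit 0xa00000100200300400c0124148808038424711)) (.br (Nat.shiftLeft (nat_lit 0x3) (nat_lit 150)) (.one (nat_lit 0xb00000100200300400c0124168c08038424711)) (.one (nat_lit 0xc00000100200300400c0124189008038424711)))))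
def t184 : k184.all (jb2 57 fl b0) = true := by decide +kernel
noncomputable def s9 : KT := (.br (nat_lit 0x500000100300400c01220060a9418024611) (.br (nat_lit 0x800000200400c012000400811a024511) (.br (nat_lit 0x600000400c012c000008018024411) k172 (.br (nat_lit 0x600000200400c01200040080d9824511) k173 k174)) (.br (nat_lit 0xa00000200400c012000400815a824511) k175 (.br (nat_lit 0x400000100200400c0122004089018024611) k176 k177))) (.br (nat_lit 0x800000100300400c012200610a018024611) (.br (nat_lit 0x600000100300400c01220060c9818024611) k178 (.br (nat_lit 0x700000100300400c01220060e9c18024611) k179 k180)) (.br (nat_lit 0xb00000100300400c012200616ac18024611) (.br (nat_lit 0x900000200300400c012400612a418024611) k181 k182) (.br (nat_lit 0x600000100200300400c01240c7808038424711) k183 k184))))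
noncomputable def u9 : KT := (.one (nat_lit 0x400c0120000008018024430))
def w9 : u9.all (wj 57 s9) = true := by decide +kernel
def o9 : OkW 57 (jb2 57 fl) u9 := .lift s9 _ (.br _ _ _ (.br _ _ _ (.br _ _ _ (.leaf b173 k172 t172) (.br _ _ _ (.leaf b0 k173 t173) (.leaf b0 k174 t174))) (.br _ _ _ (.leaf b0 k175 t175) (.br _ _ _ (.leaf b0 k176 t176) (.leaf b0 k177 t177)))) (.br _ _ _ (.br _ _ _ (.leaf b0 k178 t178) (.br _ _ _ (.leaf b0 k179 t179) (.leaf b0 k180 t180))) (.br _ _ _ (.br _ _ _ (.leaf b0 k181 t181) (.leaf b0 k182 t182)) (.br _ _ _ (.leaf b0 k183 t183) (.leaf b0 k184 t184))))) w9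
noncomputable def k185 : KT := (.br (Nat.shiftLeft (nat_lit 0x1003005) (nat_lit 66)) (.one (nat_lit 0x400c0130000008018027400)) (.br (Nat.shiftLeft (nat_lit 0x1) (nat_lit 100)) (.one (nat_lit 0x400c0140000008018029400)) (.one (nat_lit 0x100400c0130002008018026540))))
noncomputable def b186 : BT := .node (nat_lit 0x3) (nat_lit 0x49ca4e8980001d4d80055be0c9c13089d251327493ac003a64000ac60003a98000ca8020016b0016b0010b00050) .leaf .leaf
def t185 : k185.all (jb2 57 fl b186) = true := by decide +kernel
noncomputable def k186 : KT := (.br (Nat.shiftLeft (nat_lit 0x400c01003005) (nat_lit 66)) (.br (Nat.shiftLeft (nat_lit 0x1) (nat_lit 112)) (.br (Nat.shiftLeft (nat_lit 0x801003005) (nat_lit 66)) (.br (Nat.shiftLeft (nat_lit 0x1) (nat_lit 101)) (.one (nat_lit 0x100400c0140002008018028540)) (.one (nat_lit 0x200400c0130004008018027500))) (.br (Nat.shiftLeft (nat_lit 0x3) (nat_lit 100)) (.one (nat_lit 0x200400c0140004008018029500)) (.br (Nat.shiftLeft (nat_lit 0xc01003005) (nat_lit 66)) (.one (nat_lit 0x300400c0130006008018027500))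 (.one (nat_lit 0x300400c0140006008018029500))))) (.br (Nat.shiftLeft (nat_lit 0x801) (nat_lit 101)) (.br (Nat.shiftLeft (nat_lit 0x400001003005) (nat_lit 66)) (.one (nat_lit 0x100000400c0132000008018026411)) (.one (nat_lit 0x100000400c0142000008018028411))) (.br (Nat.shiftLeft (nat_lit 0x400801003005) (nat_lit 66)) (.one (nat_lit 0x100200400c0132004008018027600)) (.br (Nat.shiftLeft (nat_lit 0x1003) (nat_lit 100)) (.one (nat_lit 0x100200400c0142004008018029600)) (.one (nat_lit 0x100300400c0132006008018027600)))))) (.br (Nat.shiftLeft (nat_lit 0x3) (nat_lit 112)) (.br (Nat.shiftLeft (nat_lit 0x800001003005) (nat_lit 66)) (.br (Nat.shiftLeft (nat_lit 0x1) (nat_lit 113)) (.one (nat_lit 0x100300400c0142006008018029600)) (.one (nat_lit 0x200000400c0134000008018026411))) (.br (Nat.shiftLeft (nat_lit 0x1001) (nat_lit 101)) (.one (nat_lit 0x200000400c0144000008018028411)) (.br (Nat.shiftLeft (nat_lit 0x800c01003005) (nat_lit 66)) (.one (nat_lit 0x200300400c0134006008018027600)) (.one (nat_lit 0x200300400c0144006008018029600)))))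 (.br (Nat.shiftLeft (nat_lit 0x1) (nat_lit 114)) (.br (Nat.shiftLeft (nat_lit 0xc00001003005) (nat_lit 66)) (.one (nat_lit 0x300000400c0136000008018026411)) (.one (nat_lit 0x300000400c0146000008018028411))) (.br (Nat.shiftLeft (nat_lit 0x1000001003005) (nat_lit 66)) (.one (nat_lit 0x400000400c0138000008018026411)) (.br (Nat.shiftLeft (nat_lit 0x5) (nat_lit 112)) (.one (nat_lit 0x400000400c0148000008018028411)) (.one (nat_lit 0x500000400c013a000008018026411)))))))
noncomputable def b187 : BT := .node (nat_lit 0x3) (nat_lit 0x93849d9304003a9d000cb601db349c930800329e000ab88100110000b00005000050) .leaf .leaf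
def t186 : k186.all (jb2 57 fl b187) = true := by decide +kernel
noncomputable def k187 : KT := (.br (Nat.shiftLeft (nat_lit 0x2800001003005) (nat_lit 66)) (.br (Nat.shiftLeft (nat_lit 0x1) (nat_lit 115)) (.br (Nat.shiftLeft (nat_lit 0x1800001003005) (nat_lit 66)) (.br (Nat.shiftLeft (nat_lit 0x3) (nat_lit 113)) (.one (nat_lit 0x500000400c014a000008018028411)) (.one (nat_lit 0x600000400c013c000008018026411))) (.br (Nat.shiftLeft (nat_lit 0x7) (nat_lit 112)) (.one (nat_lit 0x600000400c014c000008018028411)) (.br (Nat.shiftLeft (nat_lit 0x1c00001003005) (nat_lit 66)) (.one (nat_lit 0x700000400c013e000008018026411)) (.one (nat_lit 0x700000400c014e000008018028411))))) (.br (Nat.shiftLeft (nat_lit 0x9) (nat_lit 112)) (.br (Nat.shiftLeft (nat_lit 0x2000001003005) (nat_lit 66)) (.one (nat_lit 0x800000400c0130000008018128411)) (.one (nat_lit 0x800000400c014000000801812a411))) (.br (Nat.shiftLeft (nat_lit 0x2400001003005) (nat_lit 66)) (.one (nat_lit 0x900000400c0132000008018128411)) (.br (Nat.shiftLeft (nat_lit 0x5) (nat_lit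 113)) (.one (nat_lit 0x900000400c014200000801812a411)) (.one (nat_lit 0xa00000400c0134000008018128411)))))) (.br (Nat.shiftLeft (nat_lit 0x1) (nat_lit 124)) (.br (Nat.shiftLeft (nat_lit 0x2c00001003005) (nat_lit 66)) (.br (Nat.shiftLeft (nat_lit 0xb) (nat_lit 112)) (.one (nat_lit 0xa00000400c014400000801812a411)) (.one (nat_lit 0xb00000400c0136000008018128411))) (.br (Nat.shiftLeft (nat_lit 0x3) (nat_lit 114)) (.one (nat_lit 0xb00000400c014600000801812a411)) (.br (Nat.shiftLeft (nat_lit 0x3000001003005) (nat_lit 66)) (.one (nat_lit 0xc00000400c0138000008018128411)) (.one (nat_lit 0xc00000400c014800000801812a411))))) (.br (Nat.shiftLeft (nat_lit 0x1000003) (nat_lit 100)) (.br (Nat.shiftLeft (nat_lit 0x400000801003005) (nat_lit 66)) (.one (nat_lit 0x100000200400c0130004008038426511)) (.one (nat_lit 0x100000200400c0140004008038428511))) (.br (Nat.shiftLeft (nat_lit 0x400000c01003005) (nat_lit 66)) (.one (nat_lit 0x100000300400c0130006008038426511)) (.br (Nat.shiftLeft (nat_lit 0x801) (nat_lit 113)) (.one (nat_lit 0x100000300400c0140006008038428511))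 (.one (nat_lit 0x100200300400c0134006008038427700)))))))
noncomputable def b188 : BT := .node (nat_lit 0x1) (nat_lit 0x93826124e00032dd000cb6010008800028) .leaf .leaf
def t187 : k187.all (jb2 57 fl b188) = true := by decide +kernel
noncomputable def k188 : KT := (.br (Nat.shiftLeft (nat_lit 0x3) (nat_lit 124)) (.br (Nat.shiftLeft (nat_lit 0x800000801003005) (nat_lit 66)) (.br (Nat.shiftLeft (nat_lit 0x1) (nat_lit 125)) (.one (nat_lit 0x100200300400c0144006008038428760)) (.one (nat_lit 0x200000200400c0130004008058826511))) (.br (Nat.shiftLeft (nat_lit 0x2000003) (nat_lit 100)) (.one (nat_lit 0x200000200400c0140004008058828511)) (.br (Nat.shiftLeft (nat_lit 0x800000c01003005) (nat_lit 66)) (.one (nat_lit 0x200000300400c0130006008058826511)) (.one (nat_lit 0x200000300400c0140006008058828511))))) (.br (Nat.shiftLeft (nat_lit 0xc00000c01003005) (nat_lit 66)) (.br (Nat.shiftLeft (nat_lit 0xc00000801003005) (nat_lit 66)) (.one (nat_lit 0x300000200400c0130004008078c26511)) (.br (Nat.shiftLeft (nat_lit 0x3000003) (nat_lit 100))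 (.one (nat_lit 0x300000200400c0140004008078c28511)) (.one (nat_lit 0x300000300400c0130006008078c26511)))) (.br (Nat.shiftLeft (nat_lit 0x1) (nat_lit 126)) (.one (nat_lit 0x300000300400c0140006008078c28511)) (.br (Nat.shiftLeft (nat_lit 0x1000000801003005) (nat_lit 66)) (.one (nat_lit 0x400000200400c0130004008099026511)) (.one (nat_lit 0x400000200400c0140004008099028511))))))
def t188 : k188.all (jb2 57 fl b0) = true := by decide +kernel
noncomputable def k189 : KT := (.br (Nat.shiftLeft (nat_lit 0x1400000801003005) (nat_lit 66)) (.br (Nat.shiftLeft (nat_lit 0x1000000c01003005) (nat_lit 66)) (.one (nat_lit 0x400000300400c0130006008099026511)) (.br (Nat.shiftLeft (nat_lit 0x5) (nat_lit 124)) (.one (nat_lit 0x400000300400c0140006008099028511)) (.one (nat_lit 0x500000200400c01300040080b9426511)))) (.br (Nat.shiftLeft (nat_lit 0x1400000c01003005) (nat_lit 66)) (.br (Nat.shiftLeft (nat_lit 0x5000003) (nat_lit 100)) (.one (nat_lit 0x500000200400c01400040080b9428511)) (.one (nat_lit 0x500000300400c01300060080b9426511))) (.br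 (Nat.shiftLeft (nat_lit 0x3) (nat_lit 125)) (.one (nat_lit 0x500000300400c01400060080b9428511)) (.one (nat_lit 0x600000200400c01300040080d9826511)))))
def t189 : k189.all (jb2 57 fl b0) = true := by decide +kernel
noncomputable def k190 : KT := (.br (Nat.shiftLeft (nat_lit 0x7) (nat_lit 124)) (.br (Nat.shiftLeft (nat_lit 0x6000003) (nat_lit 100)) (.one (nat_lit 0x600000200400c01400040080d9828511)) (.br (Nat.shiftLeft (nat_lit 0x1800000c01003005) (nat_lit 66)) (.one (nat_lit 0x600000300400c01300060080d9826511)) (.one (nat_lit 0x600000300400c01400060080d9828511)))) (.br (Nat.shiftLeft (nat_lit 0x1c00000801003005) (nat_lit 66)) (.one (nat_lit 0x700000200400c01300040080f9c26511)) (.br (Nat.shiftLeft (nat_lit 0x7000003) (nat_lit 100)) (.one (nat_lit 0x700000200400c01400040080f9c28511)) (.one (nat_lit 0x700000300400c01300060080f9c26511)))))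
def t190 : k190.all (jb2 57 fl b0) = true := by decide +kernel
noncomputable def k191 : KT := (.br (Nat.shiftLeft (nat_lit 0x2000000801003005) (nat_lit 66)) (.br (Nat.shiftLeft (nat_lit 0x1) (nat_lit 127)) (.one (nat_lit 0x700000300400c01400060080f9c28511)) (.one (nat_lit 0x800000200400c013000400811a026511))) (.br (Nat.shiftLeft (nat_lit 0x8000003) (nat_lit 100)) (.one (nat_lit 0x800000200400c014000400811a028511)) (.br (Nat.shiftLeft (nat_lit 0x2000000c01003005) (nat_lit 66)) (.one (nat_lit 0x800000300400c013000600811a026511)) (.one (nat_lit 0x800000300400c014000600811a028511)))))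
def t191 : k191.all (jb2 57 fl b0) = true := by decide +kernel
noncomputable def k192 : KT := (.br (Nat.shiftLeft (nat_lit 0x9000003) (nat_lit 100)) (.br (Nat.shiftLeft (nat_lit 0x2400000801003005) (nat_lit 66)) (.one (nat_lit 0x900000200400c013000400813a426511)) (.one (nat_lit 0x900000200400c014000400813a428511))) (.br (Nat.shiftLeft (nat_lit 0x2400000c01003005) (nat_lit 66)) (.one (nat_lit 0x900000300400c013000600813a426511)) (.br (Nat.shiftLeft (nat_lit 0x5) (nat_lit 125)) (.one (nat_lit 0x900000300400c014000600813a428511)) (.one (nat_lit 0xa00000200400c013000400815a826511)))))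
def t192 : k192.all (jb2 57 fl b0) = true := by decide +kernel
noncomputable def k193 : KT := (.br (Nat.shiftLeft (nat_lit 0xb) (nat_lit 124)) (.br (Nat.shiftLeft (nat_lit 0xa000003) (nat_lit 100)) (.one (nat_lit 0xa00000200400c014000400815a828511)) (.br (Nat.shiftLeft (nat_lit 0x2800000c01003005) (nat_lit 66)) (.one (nat_lit 0xa00000300400c013000600815a826511)) (.one (nat_lit 0xa00000300400c014000600815a828511)))) (.br (Nat.shiftLeft (nat_lit 0xb000003) (nat_lit 100)) (.br (Nat.shiftLeft (nat_lit 0x2c00000801003005) (nat_lit 66)) (.one (nat_lit 0xb00000200400c013000400817ac26511)) (.one (nat_lit 0xb00000200400c014000400817ac28511))) (.br (Nat.shiftLeft (nat_lit 0x2c00000c01003005) (nat_lit 66)) (.one (nat_lit 0xb00000300400c013000600817ac26511)) (.one (nat_lit 0xb00000300400c014000600817ac28511)))))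
noncomputable def b194 : BT := .node (nat_lit 0x3) (nat_lit 0x93926093000032db000cb601db326024e40032d8000ca78100110000b00005000050) .leaf .leaf
def t193 : k193.all (jb2 57 fl b194) = true := by decide +kernel
noncomputable def k194 : KT := (.br (Nat.shiftLeft (nat_lit 0x800000400c01003005) (nat_lit 66)) (.br (Nat.shiftLeft (nat_lit 0x1000001003) (nat_lit 100)) (.br (Nat.shiftLeft (nat_lit 0x3000000c01003005) (nat_lit 66)) (.br (Nat.shiftLeft (nat_lit 0x3000000801003005) (nat_lit 66)) (.one (nat_lit 0xc00000200400c013000400819b026511)) (.br (Nat.shiftLeft (nat_lit 0xc000003) (nat_lit 100)) (.one (nat_lit 0xc00000200400c014000400819b028511)) (.one (nat_lit 0xc00000300400c013000600819b026511)))) (.br (Nat.shiftLeft (nat_lit 0x1) (nat_lit 136)) (.one (nat_lit 0xc00000300400c014000600819b028511)) (.br (Nat.shiftLeft (nat_lit 0x400000400801003005) (nat_lit 66)) (.one (nat_lit 0x100000100200400c0132004028418026611)) (.one (nat_lit 0x100000100200400c0142004028418028611))))) (.br (Nat.shiftLeft (nat_lit 0x400000800c01003005)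 (nat_lit 66)) (.br (Nat.shiftLeft (nat_lit 0x400000400c01003005) (nat_lit 66)) (.one (nat_lit 0x100000100300400c0132006028418026611)) (.br (Nat.shiftLeft (nat_lit 0x800001) (nat_lit 113)) (.one (nat_lit 0x100000100300400c0142006028418028611)) (.one (nat_lit 0x100000200300400c0134006028418026611)))) (.br (Nat.shiftLeft (nat_lit 0x800000400801003005) (nat_lit 66)) (.br (Nat.shiftLeft (nat_lit 0x1) (nat_lit 137)) (.one (nat_lit 0x100000200300400c0144006028418028611)) (.one (nat_lit 0x200000100200400c0132004048818026611))) (.br (Nat.shiftLeft (nat_lit 0x2000001003) (nat_lit 100)) (.one (nat_lit 0x200000100200400c0142004048818028611)) (.one (nat_lit 0x200000100300400c0132006048818026611)))))) (.br (Nat.shiftLeft (nat_lit 0xc00000400c01003005) (nat_lit 66)) (.br (Nat.shiftLeft (nat_lit 0x3) (nat_lit 136)) (.br (Nat.shiftLeft (nat_lit 0x1000001) (nat_lit 113)) (.one (nat_lit 0x200000100300400c0142006048818028611)) (.br (Nat.shiftLeft (nat_lit 0x800000800c01003005) (nat_lit 66)) (.one (nat_lit 0x200000200300400c0134006048818026611))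 (.one (nat_lit 0x200000200300400c0144006048818028611)))) (.br (Nat.shiftLeft (nat_lit 0xc00000400801003005) (nat_lit 66)) (.one (nat_lit 0x300000100200400c0132004068c18026611)) (.br (Nat.shiftLeft (nat_lit 0x3000001003) (nat_lit 100)) (.one (nat_lit 0x300000100200400c0142004068c18028611)) (.one (nat_lit 0x300000100300400c0132006068c18026611))))) (.br (Nat.shiftLeft (nat_lit 0x1) (nat_lit 138)) (.br (Nat.shiftLeft (nat_lit 0x1800001) (nat_lit 113)) (.one (nat_lit 0x300000100300400c0142006068c18028611)) (.br (Nat.shiftLeft (nat_lit 0xc00000800c01003005) (nat_lit 66)) (.one (nat_lit 0x300000200300400c0134006068c18026611)) (.one (nat_lit 0x300000200300400c0144006068c18028611)))) (.br (Nat.shiftLeft (nat_lit 0x4000001003) (nat_lit 100)) (.br (Nat.shiftLeft (nat_lit 0x1000000400801003005) (nat_lit 66)) (.one (nat_lit 0x400000100200400c0132004089018026611)) (.one (nat_lit 0x400000100200400c0142004089018028611))) (.br (Nat.shiftLeft (nat_lit 0x1000000400c01003005) (nat_lit 66)) (.one (nat_lit 0x400000100300400c0132006089018026611))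 (.one (nat_lit 0x400000100300400c0142006089018028611)))))))
def t194 : k194.all (jb2 57 fl b0) = true := by decide +kernel
noncomputable def k195 : KT := (.br (Nat.shiftLeft (nat_lit 0x5) (nat_lit 136)) (.br (Nat.shiftLeft (nat_lit 0x1000000800c01003005) (nat_lit 66)) (.one (nat_lit 0x400000200300400c0134006089018026611)) (.one (nat_lit 0x400000200300400c0144006089018028611))) (.br (Nat.shiftLeft (nat_lit 0x1400000400801003005) (nat_lit 66)) (.one (nat_lit 0x500000100200400c01320040a9418026611)) (.br (Nat.shiftLeft (nat_lit 0x5000001003) (nat_lit 100)) (.one (nat_lit 0x500000100200400c01420040a9418028611)) (.one (nat_lit 0x500000100300400c01320060a9418026611)))))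
def t195 : k195.all (jb2 57 fl b0) = true := by decide +kernel
noncomputable def k196 : KT := (.br (Nat.shiftLeft (nat_lit 0x1400000800c01003005) (nat_lit 66)) (.br (Nat.shiftLeft (nat_lit 0x2800001) (nat_lit 113)) (.one (nat_lit 0x500000100300400c01420060a9418028611)) (.one (nat_lit 0x500000200300400c01340060a9418026611))) (.br (Nat.shiftLeft (nat_lit 0x3) (nat_lit 137)) (.one (nat_lit 0x500000200300400c01440060a9418028611)) (.one (nat_lit 0x600000100200400c01320040c9818026611))))
def t196 : k196.all (jb2 57 fl b0) = true := by decide +kernel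
noncomputable def k197 : KT := (.br (Nat.shiftLeft (nat_lit 0x1800000400c01003005) (nat_lit 66)) (.br (Nat.shiftLeft (nat_lit 0x6000001003) (nat_lit 100)) (.one (nat_lit 0x600000100200400c01420040c9818028611)) (.one (nat_lit 0x600000100300400c01320060c9818026611))) (.br (Nat.shiftLeft (nat_lit 0x3000001) (nat_lit 113)) (.one (nat_lit 0x600000100300400c01420060c9818028611)) (.one (nat_lit 0x600000200300400c01340060c9818026611))))
def t197 : k197.all (jb2 57 fl b0) = true := by decide +kernel
noncomputable def k198 : KT := (.br (Nat.shiftLeft (nat_lit 0x1c00000400801003005) (nat_lit 66)) (.br (Nat.shiftLeft (nat_lit 0x7) (nat_lit 136)) (.one (nat_lit 0x600000200300400c01440060c9818028611)) (.one (nat_lit 0x700000100200400c01320040e9c18026611))) (.br (Nat.shiftLeft (nat_lit 0x7000001003) (nat_lit 100)) (.one (nat_lit 0x700000100200400c01420040e9c18028611)) (.one (nat_lit 0x700000100300400c01320060e9c18026611))))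
def t198 : k198.all (jb2 57 fl b0) = true := by decide +kernel
noncomputable def k199 : KT := (.br (Nat.shiftLeft (nat_lit 0x1c00000800c01003005) (nat_lit 66)) (.br (Nat.shiftLeft (nat_lit 0x3800001) (nat_lit 113)) (.one (nat_lit 0x700000100300400c01420060e9c18028611)) (.one (nat_lit 0x700000200300400c01340060e9c18026611))) (.br (Nat.shiftLeft (nat_lit 0x1) (nat_lit 139)) (.one (nat_lit 0x700000200300400c01440060e9c18028611)) (.br (Nat.shiftLeft (nat_lit 0x2000000400801003005) (nat_lit 66)) (.one (nat_lit 0x800000100200400c013200410a018026611)) (.one (nat_lit 0x800000100200400c014200410a018028611)))))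
def t199 : k199.all (jb2 57 fl b0) = true := by decide +kernel
noncomputable def k200 : KT := (.br (Nat.shiftLeft (nat_lit 0x4000001) (nat_lit 113)) (.br (Nat.shiftLeft (nat_lit 0x2000000400c01003005) (nat_lit 66)) (.one (nat_lit 0x800000100300400c013200610a018026611)) (.one (nat_lit 0x800000100300400c014200610a018028611))) (.br (Nat.shiftLeft (nat_lit 0x2000000800c01003005) (nat_lit 66)) (.one (nat_lit 0x800000200300400c013400610a018026611)) (.br (Nat.shiftLeft (nat_lit 0x9) (nat_lit 136)) (.one (nat_lit 0x800000200300400c014400610a018028611)) (.one (nat_lit 0x900000100200400c013200412a418026611)))))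
def t200 : k200.all (jb2 57 fl b0) = true := by decide +kernel
noncomputable def k201 : KT := (.br (Nat.shiftLeft (nat_lit 0x4800001) (nat_lit 113)) (.br (Nat.shiftLeft (nat_lit 0x9000001003) (nat_lit 100)) (.one (nat_lit 0x900000100200400c014200412a418028611)) (.br (Nat.shiftLeft (nat_lit 0x2400000400c01003005) (nat_lit 66)) (.one (nat_lit 0x900000100300400c013200612a418026611)) (.one (nat_lit 0x900000100300400c014200612a418028611)))) (.br (Nat.shiftLeft (nat_lit 0x2400000800c01003005) (nat_lit 66)) (.one (nat_lit 0x900000200300400c013400612a418026611)) (.br (Nat.shiftLeft (nat_lit 0x5) (nat_lit 137)) (.one (nat_lit 0x900000200300400c014400612a418028611)) (.one (nat_lit 0xa00000100200400c013200414a818026611)))))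
def t201 : k201.all (jb2 57 fl b0) = true := by decide +kernel
noncomputable def k202 : KT := (.br (Nat.shiftLeft (nat_lit 0x2800000800c01003005) (nat_lit 66)) (.br (Nat.shiftLeft (nat_lit 0x2800000400c01003005) (nat_lit 66)) (.br (Nat.shiftLeft (nat_lit 0xa000001003) (nat_lit 100)) (.one (nat_lit 0xa00000100200400c014200414a818028611)) (.one (nat_lit 0xa00000100300400c013200614a818026611))) (.br (Nat.shiftLeft (nat_lit 0x5000001) (nat_lit 113)) (.one (nat_lit 0xa00000100300400c014200614a818028611)) (.one (nat_lit 0xa00000200300400c013400614a818026611)))) (.br (Nat.shiftLeft (nat_lit 0x2c00000400801003005) (nat_lit 66)) (.br (Nat.shiftLeft (nat_lit 0xb) (nat_lit 136)) (.one (nat_lit 0xa00000200300400c014400614a818028611)) (.one (nat_lit 0xb00000100200400c013200416ac18026611))) (.br (Nat.shiftLeft (nat_lit 0xb000001003) (nat_lit 100)) (.one (nat_lit 0xb00000100200400c014200416ac18028611)) (.one (nat_lit 0xb00000100300400c013200616ac18026611)))))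
def t202 : k202.all (jb2 57 fl b0) = true := by decide +kernel
noncomputable def k203 : KT := (.br (Nat.shiftLeft (nat_lit 0x6000001) (nat_lit 113)) (.br (Nat.shiftLeft (nat_lit 0x3) (nat_lit 138)) (.br (Nat.shiftLeft (nat_lit 0x5800001) (nat_lit 113)) (.one (nat_lit 0xb00000100300400c014200616ac18028611)) (.br (Nat.shiftLeft (nat_lit 0x2c00000800c01003005) (nat_lit 66)) (.one (nat_lit 0xb00000200300400c013400616ac18026611)) (.one (nat_lit 0xb00000200300400c014400616ac18028611)))) (.br (Nat.shiftLeft (nat_lit 0xc000001003) (nat_lit 100)) (.br (Nat.shiftLeft (nat_lit 0x3000000400801003005) (nat_lit 66)) (.one (nat_lit 0xc00000100200400c013200418b018026611)) (.one (nat_lit 0xc00000100200400c014200418b018028611))) (.br (Nat.shiftLeft (nat_lit 0x3000000400c01003005) (nat_lit 66)) (.one (nat_lit 0xc00000100300400c013200618b018026611)) (.one (nat_lit 0xc00000100300400c014200618b018028611))))) (.br (Nat.shiftLeft (nat_lit 0x1) (nat_lit 149)) (.br (Nat.shiftLeft (nat_lit 0x3000000800c01003005) (nat_lit 66)) (.one (nat_lit 0xc00000200300400c013400618b018026611))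 (.br (Nat.shiftLeft (nat_lit 0x1) (nat_lit 148)) (.one (nat_lit 0xc00000200300400c014400618b018028611)) (.one (nat_lit 0x100000100200300400c0134026408038426711)))) (.br (Nat.shiftLeft (nat_lit 0x1) (nat_lit 150)) (.br (Nat.shiftLeft (nat_lit 0x3) (nat_lit 148)) (.one (nat_lit 0x200000100200300400c0134046808038426711)) (.one (nat_lit 0x300000100200300400c0134066c08038426711))) (.br (Nat.shiftLeft (nat_lit 0x5) (nat_lit 148)) (.one (nat_lit 0x400000100200300400c0134087008038426711)) (.one (nat_lit 0x500000100200300400c01340a7408038426711))))))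
def t203 : k203.all (jb2 57 fl b0) = true := by decide +kernel
noncomputable def k204 : KT := (.br (Nat.shiftLeft (nat_lit 0x9) (nat_lit 148)) (.br (Nat.shiftLeft (nat_lit 0x7) (nat_lit 148)) (.one (nat_lit 0x600000100200300400c01340c7808038426711)) (.br (Nat.shiftLeft (nat_lit 0x1) (nat_lit 151)) (.one (nat_lit 0x700000100200300400c01340e7c08038426711)) (.one (nat_lit 0x800000100200300400c0134108008038426711)))) (.br (Nat.shiftLeft (nat_lit 0xb) (nat_lit 148)) (.br (Nat.shiftLeft (nat_lit 0x5) (nat_lit 149)) (.one (nat_lit 0x900000100200300400c0134128408038426711)) (.one (nat_lit 0xa00000100200300400c0134148808038426711))) (.br (Nat.shiftLeft (nat_lit 0x3) (nat_lit 150)) (.one (nat_lit 0xb00000100200300400c0134168c08038426711)) (.one (nat_lit 0xc00000100200300400c0134189008038426711)))))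
def t204 : k204.all (jb2 57 fl b0) = true := by decide +kernel
noncomputable def s10 : KT := (.br (nat_lit 0x400000100300400c0142006089018028611) (.br (nat_lit 0x600000200400c01300040080d9826511) (.br (nat_lit 0x500000400c013a000008018026411) (.br (nat_lit 0x100400c0130002008018026540) k185 k186) (.br (nat_lit 0x100200300400c0134006008038427700) k187 (.br (nat_lit 0x400000200400c0140004008099028511) k188 k189))) (.br (nat_lit 0x800000300400c014000600811a028511) (.br (nat_lit 0x700000300400c01300060080f9c26511) k190 k191) (.br (nat_lit 0xa00000200400c013000400815a826511) k192 (.br (nat_lit 0xb00000300400c014000600817ac28511) k193 k194)))) (.br (nat_lit 0x800000100200400c014200410a018028611) (.br (nat_lit 0x600000100200400c01320040c9818026611) (.br (nat_lit 0x500000100300400c01320060a9418026611) k195 k196) (.br (nat_lit 0x600000200300400c01340060c9818026611) k197 (.br (nat_lit 0x700000100300400c01320060e9c18026611) k198 k199))) (.br (nat_lit 0xa00000100200400c013200414a818026611) (.br (nat_lit 0x900000100200400c013200412a418026611)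 k200 k201) (.br (nat_lit 0xb00000100300400c013200616ac18026611) k202 (.br (nat_lit 0x500000100200300400c01340a7408038426711) k203 k204)))))
noncomputable def u10 : KT := (.br (Nat.shiftLeft (nat_lit 0x1003005) (nat_lit 66)) (.one (nat_lit 0x400c0130000008018026430)) (.one (nat_lit 0x400c0140000008018028430)))
def w10 : u10.all (wj 57 s10) = true := by decide +kernel
def o10 : OkW 57 (jb2 57 fl) u10 := .lift s10 _ (.br _ _ _ (.br _ _ _ (.br _ _ _ (.br _ _ _ (.leaf b186 k185 t185) (.leaf b187 k186 t186)) (.br _ _ _ (.leaf b188 k187 t187) (.br _ _ _ (.leaf b0 k188 t188) (.leaf b0 k189 t189)))) (.br _ _ _ (.br _ _ _ (.leaf b0 k190 t190) (.leaf b0 k191 t191)) (.br _ _ _ (.leaf b0 k192 t192) (.br _ _ _ (.leaf b194 k193 t193) (.leaf b0 k194 t194))))) (.br _ _ _ (.br _ _ _ (.br _ _ _ (.leaf b0 k195 t195) (.leaf b0 k196 t196)) (.br _ _ _ (.leaf b0 k197 t197) (.br _ _ _ (.leaf b0 k198 t198) (.leaf b0 k199 t199)))) (.br _ _ _ (.br _ _ _ (.leaf b0 k200 t200) (.leaf b0 k201 t201)) (.br _ _ _ (.leaf b0 k202 t202) (.br _ _ _ (.leaf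 b0 k203 t203) (.leaf b0 k204 t204)))))) w10
noncomputable def k205 : KT := (.br (Nat.shiftLeft (nat_lit 0x400c017) (nat_lit 64)) (.br (Nat.shiftLeft (nat_lit 0x200600b) (nat_lit 65)) (.one (nat_lit 0x400c015000000801802b400)) (.one (nat_lit 0x400c016000000801802d400))) (.br (Nat.shiftLeft (nat_lit 0x801803) (nat_lit 67)) (.one (nat_lit 0x400c017000000801802f400)) (.br (Nat.shiftLeft (nat_lit 0x1) (nat_lit 100)) (.one (nat_lit 0x400c0180000008018031400)) (.one (nat_lit 0x100400c015000200801802a540)))))
def t205 : k205.all (jb2 57 fl b0) = true := by decide +kernel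
noncomputable def k206 : KT := (.one (nat_lit 0x100400c016000200801802c540))
def t206 : k206.all (jb2 57 fl b0) = true := by decide +kernel
noncomputable def k207 : KT := (.one (nat_lit 0x100400c017000200801802e540))
def t207 : k207.all (jb2 57 fl b0) = true := by decide +kernel
noncomputable def k208 : KT := (.br (Nat.shiftLeft (nat_lit 0x300400c017) (nat_lit 64)) (.br (Nat.shiftLeft (nat_lit 0x200400c017) (nat_lit 64)) (.br (Nat.shiftLeft (nat_lit 0x1) (nat_lit 101)) (.one (nat_lit 0x100400c0180002008018030540)) (.br (Nat.shiftLeft (nat_lit 0x100200600b) (nat_lit 65)) (.one (nat_lit 0x200400c015000400801802b500)) (.one (nat_lit 0x200400c016000400801802d500)))) (.br (Nat.shiftLeft (nat_lit 0x3) (nat_lit 100)) (.br (Nat.shiftLeft (nat_lit 0x400801803) (nat_lit 67)) (.one (nat_lit 0x200400c017000400801802f500)) (.one (nat_lit 0x200400c0180004008018031500))) (.br (Nat.shiftLeft (nat_lit 0x180200600b) (nat_lit 65)) (.one (nat_lit 0x300400c015000600801802b500)) (.one (nat_lit 0x300400c016000600801802d500))))) (.br (Nat.shiftLeft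 (nat_lit 0x80000200600b) (nat_lit 65)) (.br (Nat.shiftLeft (nat_lit 0x600801803) (nat_lit 67)) (.one (nat_lit 0x300400c017000600801802f500)) (.br (Nat.shiftLeft (nat_lit 0x1) (nat_lit 112)) (.one (nat_lit 0x300400c0180006008018031500)) (.one (nat_lit 0x100000400c015200000801802a411)))) (.br (Nat.shiftLeft (nat_lit 0x200000801803) (nat_lit 67)) (.br (Nat.shiftLeft (nat_lit 0x100000400c017) (nat_lit 64)) (.one (nat_lit 0x100000400c016200000801802c411)) (.one (nat_lit 0x100000400c017200000801802e411))) (.br (Nat.shiftLeft (nat_lit 0x801) (nat_lit 101)) (.one (nat_lit 0x100000400c0182000008018030411)) (.one (nat_lit 0x100200400c015200400801802b600))))))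
def t208 : k208.all (jb2 57 fl b0) = true := by decide +kernel
noncomputable def k209 : KT := (.one (nat_lit 0x100200400c016200400801802c650))
def t209 : k209.all (jb2 57 fl b0) = true := by decide +kernel
noncomputable def k210 : KT := (.one (nat_lit 0x100200400c017200400801802e650))
def t210 : k210.all (jb2 57 fl b0) = true := by decide +kernel
noncomputable def k211 : KT := (.one (nat_lit 0x100200400c0182004008018030650))
def t211 : k211.all (jb2 57 fl b0) = true := by decide +kernel
noncomputable def k212 : KT := (.one (nat_lit 0x100300400c015200600801802a650))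
def t212 : k212.all (jb2 57 fl b0) = true := by decide +kernel
noncomputable def k213 : KT := (.one (nat_lit 0x100300400c016200600801802c650))
def t213 : k213.all (jb2 57 fl b0) = true := by decide +kernel
noncomputable def k214 : KT := (.br (Nat.shiftLeft (nat_lit 0x100000200600b) (nat_lit 65)) (.br (Nat.shiftLeft (nat_lit 0x200600801803) (nat_lit 67)) (.one (nat_lit 0x100300400c017200600801802e650)) (.br (Nat.shiftLeft (nat_lit 0x1) (nat_lit 113)) (.one (nat_lit 0x100300400c0182006008018030650)) (.one (nat_lit 0x200000400c015400000801802a411)))) (.br (Nat.shiftLeft (nat_lit 0x400000801803) (nat_lit 67)) (.br (Nat.shiftLeft (nat_lit 0x200000400c017) (nat_lit 64)) (.one (nat_lit 0x200000400c016400000801802c411)) (.one (nat_lit 0x200000400c017400000801802e411))) (.br (Nat.shiftLeft (nat_lit 0x1001) (nat_lit 101)) (.one (nat_lit 0x200000400c0184000008018030411)) (.one (nat_lit 0x200300400c015400600801802b600)))))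
def t214 : k214.all (jb2 57 fl b0) = true := by decide +kernel
noncomputable def k215 : KT := (.one (nat_lit 0x200300400c016400600801802c650))
def t215 : k215.all (jb2 57 fl b0) = true := by decide +kernel
noncomputable def k216 : KT := (.one (nat_lit 0x200300400c017400600801802e650))
def t216 : k216.all (jb2 57 fl b0) = true := by decide +kernel
noncomputable def k217 : KT := (.br (Nat.shiftLeft (nat_lit 0x280000200600b) (nat_lit 65)) (.br (Nat.shiftLeft (nat_lit 0x1) (nat_lit 114)) (.br (Nat.shiftLeft (nat_lit 0x180000200600b) (nat_lit 65)) (.br (Nat.shiftLeft (nat_lit 0x3) (nat_lit 112)) (.one (nat_lit 0x200300400c0184006008018030650)) (.one (nat_lit 0x300000400c015600000801802a411))) (.br (Nat.shiftLeft (nat_lit 0x300000400c017) (nat_lit 64)) (.one (nat_lit 0x300000400c016600000801802c411)) (.br (Nat.shiftLeft (nat_lit 0x600000801803) (nat_lit 67)) (.one (nat_lit 0x300000400c017600000801802e411)) (.one (nat_lit 0x300000400c0186000008018030411))))) (.br (Nat.shiftLeft (nat_lit 0x400000400c017) (nat_lit 64)) (.br (Nat.shiftLeft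 (nat_lit 0x200000200600b) (nat_lit 65)) (.one (nat_lit 0x400000400c015800000801802a411)) (.one (nat_lit 0x400000400c016800000801802c411))) (.br (Nat.shiftLeft (nat_lit 0x800000801803) (nat_lit 67)) (.one (nat_lit 0x400000400c017800000801802e411)) (.br (Nat.shiftLeft (nat_lit 0x5) (nat_lit 112)) (.one (nat_lit 0x400000400c0188000008018030411)) (.one (nat_lit 0x500000400c015a00000801802a411)))))) (.br (Nat.shiftLeft (nat_lit 0x600000400c017) (nat_lit 64)) (.br (Nat.shiftLeft (nat_lit 0xa00000801803) (nat_lit 67)) (.br (Nat.shiftLeft (nat_lit 0x500000400c017) (nat_lit 64)) (.one (nat_lit 0x500000400c016a00000801802c411)) (.one (nat_lit 0x500000400c017a00000801802e411))) (.br (Nat.shiftLeft (nat_lit 0x3) (nat_lit 113)) (.one (nat_lit 0x500000400c018a000008018030411)) (.br (Nat.shiftLeft (nat_lit 0x300000200600b) (nat_lit 65)) (.one (nat_lit 0x600000400c015c00000801802a411)) (.one (nat_lit 0x600000400c016c00000801802c411))))) (.br (Nat.shiftLeft (nat_lit 0x380000200600b) (nat_lit 65)) (.br (Nat.shiftLeft (nat_lit 0xc00000801803)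 (nat_lit 67)) (.one (nat_lit 0x600000400c017c00000801802e411)) (.br (Nat.shiftLeft (nat_lit 0x7) (nat_lit 112)) (.one (nat_lit 0x600000400c018c000008018030411)) (.one (nat_lit 0x700000400c015e00000801802a411)))) (.br (Nat.shiftLeft (nat_lit 0x700000400c017) (nat_lit 64)) (.one (nat_lit 0x700000400c016e00000801802c411)) (.br (Nat.shiftLeft (nat_lit 0xe00000801803) (nat_lit 67)) (.one (nat_lit 0x700000400c017e00000801802e411)) (.one (nat_lit 0x700000400c018e000008018030411)))))))
def t217 : k217.all (jb2 57 fl b0) = true := by decide +kernel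
noncomputable def k218 : KT := (.br (Nat.shiftLeft (nat_lit 0xb00000400c017) (nat_lit 64)) (.br (Nat.shiftLeft (nat_lit 0x1200000801803) (nat_lit 67)) (.br (Nat.shiftLeft (nat_lit 0x1000000801803) (nat_lit 67)) (.br (Nat.shiftLeft (nat_lit 0x400000200600b) (nat_lit 65)) (.one (nat_lit 0x800000400c015000000801812c411)) (.br (Nat.shiftLeft (nat_lit 0x800000400c017) (nat_lit 64)) (.one (nat_lit 0x800000400c016000000801812e411)) (.one (nat_lit 0x800000400c0170000008018130411)))) (.br (Nat.shiftLeft (nat_lit 0x480000200600b) (nat_lit 65)) (.br (Nat.shiftLeft (nat_lit 0x9) (nat_lit 112)) (.one (nat_lit 0x800000400c0180000008018132411)) (.one (nat_lit 0x900000400c015200000801812c411))) (.br (Nat.shiftLeft (nat_lit 0x900000400c017) (nat_lit 64)) (.one (nat_lit 0x900000400c016200000801812e411)) (.one (nat_lit 0x900000400c0172000008018130411))))) (.br (Nat.shiftLeft (nat_lit 0xa00000400c017) (nat_lit 64)) (.br (Nat.shiftLeft (nat_lit 0x5) (nat_lit 113)) (.one (nat_lit 0x900000400c0182000008018132411)) (.br (Nat.shiftLeft (nat_lit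 0x500000200600b) (nat_lit 65)) (.one (nat_lit 0xa00000400c015400000801812c411)) (.one (nat_lit 0xa00000400c016400000801812e411)))) (.br (Nat.shiftLeft (nat_lit 0xb) (nat_lit 112)) (.br (Nat.shiftLeft (nat_lit 0x1400000801803) (nat_lit 67)) (.one (nat_lit 0xa00000400c0174000008018130411)) (.one (nat_lit 0xa00000400c0184000008018132411))) (.br (Nat.shiftLeft (nat_lit 0x580000200600b) (nat_lit 65)) (.one (nat_lit 0xb00000400c015600000801812c411)) (.one (nat_lit 0xb00000400c016600000801812e411)))))) (.br (Nat.shiftLeft (nat_lit 0x80000100200600b) (nat_lit 65)) (.br (Nat.shiftLeft (nat_lit 0x600000200600b) (nat_lit 65)) (.br (Nat.shiftLeft (nat_lit 0x1600000801803) (nat_lit 67)) (.one (nat_lit 0xb00000400c0176000008018130411)) (.br (Nat.shiftLeft (nat_lit 0x3) (nat_lit 114)) (.one (nat_lit 0xb00000400c0186000008018132411)) (.one (nat_lit 0xc00000400c015800000801812c411)))) (.br (Nat.shiftLeft (nat_lit 0x1800000801803) (nat_lit 67)) (.br (Nat.shiftLeft (nat_lit 0xc00000400c017) (nat_lit 64)) (.one (nat_lit 0xc00000400c016800000801812e411))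 (.one (nat_lit 0xc00000400c0178000008018130411))) (.br (Nat.shiftLeft (nat_lit 0x1) (nat_lit 124)) (.one (nat_lit 0xc00000400c0188000008018132411)) (.one (nat_lit 0x100000200400c015000400803842a511))))) (.br (Nat.shiftLeft (nat_lit 0x1000003) (nat_lit 100)) (.br (Nat.shiftLeft (nat_lit 0x100000200400c017) (nat_lit 64)) (.one (nat_lit 0x100000200400c016000400803842c511)) (.br (Nat.shiftLeft (nat_lit 0x200000400801803) (nat_lit 67)) (.one (nat_lit 0x100000200400c017000400803842e511)) (.one (nat_lit 0x100000200400c0180004008038430511)))) (.br (Nat.shiftLeft (nat_lit 0x100000300400c017) (nat_lit 64)) (.br (Nat.shiftLeft (nat_lit 0x80000180200600b) (nat_lit 65)) (.one (nat_lit 0x100000300400c015000600803842a511)) (.one (nat_lit 0x100000300400c016000600803842c511))) (.br (Nat.shiftLeft (nat_lit 0x200000600801803) (nat_lit 67)) (.one (nat_lit 0x100000300400c017000600803842e511)) (.one (nat_lit 0x100000300400c0180006008038430511)))))))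
def t218 : k218.all (jb2 57 fl b0) = true := by decide +kernel
noncomputable def k219 : KT := (.br (Nat.shiftLeft (nat_lit 0x180000100200600b) (nat_lit 65)) (.br (Nat.shiftLeft (nat_lit 0x2000003) (nat_lit 100)) (.br (Nat.shiftLeft (nat_lit 0x100000100200600b) (nat_lit 65)) (.br (Nat.shiftLeft (nat_lit 0x1) (nat_lit 125)) (.one (nat_lit 0x100200300400c015400600803842a760)) (.one (nat_lit 0x200000200400c015000400805882a511))) (.br (Nat.shiftLeft (nat_lit 0x200000200400c017) (nat_lit 64)) (.one (nat_lit 0x200000200400c016000400805882c511)) (.br (Nat.shiftLeft (nat_lit 0x400000400801803) (nat_lit 67)) (.one (nat_lit 0x200000200400c017000400805882e511)) (.one (nat_lit 0x200000200400c0180004008058830511))))) (.br (Nat.shiftLeft (nat_lit 0x200000300400c017) (nat_lit 64)) (.br (Nat.shiftLeft (nat_lit 0x100000180200600b) (nat_lit 65)) (.one (nat_lit 0x200000300400c015000600805882a511)) (.one (nat_lit 0x200000300400c016000600805882c511))) (.br (Nat.shiftLeft (nat_lit 0x400000600801803) (nat_lit 67)) (.one (nat_lit 0x200000300400c017000600805882e511))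 (.br (Nat.shiftLeft (nat_lit 0x3) (nat_lit 124)) (.one (nat_lit 0x200000300400c0180006008058830511)) (.one (nat_lit 0x300000200400c0150004008078c2a511)))))) (.br (Nat.shiftLeft (nat_lit 0x300000300400c017) (nat_lit 64)) (.br (Nat.shiftLeft (nat_lit 0x600000400801803) (nat_lit 67)) (.br (Nat.shiftLeft (nat_lit 0x300000200400c017) (nat_lit 64)) (.one (nat_lit 0x300000200400c0160004008078c2c511)) (.one (nat_lit 0x300000200400c0170004008078c2e511))) (.br (Nat.shiftLeft (nat_lit 0x3000003) (nat_lit 100)) (.one (nat_lit 0x300000200400c0180004008078c30511)) (.br (Nat.shiftLeft (nat_lit 0x180000180200600b) (nat_lit 65)) (.one (nat_lit 0x300000300400c0150006008078c2a511)) (.one (nat_lit 0x300000300400c0160006008078c2c511))))) (.br (Nat.shiftLeft (nat_lit 0x1) (nat_lit 126)) (.br (Nat.shiftLeft (nat_lit 0x600000600801803) (nat_lit 67)) (.one (nat_lit 0x300000300400c0170006008078c2e511)) (.one (nat_lit 0x300000300400c0180006008078c30511))) (.br (Nat.shiftLeft (nat_lit 0x200000100200600b) (nat_lit 65)) (.one (nat_lit 0x400000200400c015000400809902a511))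 (.br (Nat.shiftLeft (nat_lit 0x400000200400c017) (nat_lit 64)) (.one (nat_lit 0x400000200400c016000400809902c511)) (.one (nat_lit 0x400000200400c017000400809902e511)))))))
def t219 : k219.all (jb2 57 fl b0) = true := by decide +kernel
noncomputable def k220 : KT := (.br (Nat.shiftLeft (nat_lit 0x5) (nat_lit 124)) (.br (Nat.shiftLeft (nat_lit 0x200000180200600b) (nat_lit 65)) (.br (Nat.shiftLeft (nat_lit 0x4000003) (nat_lit 100)) (.one (nat_lit 0x400000200400c0180004008099030511)) (.one (nat_lit 0x400000300400c015000600809902a511))) (.br (Nat.shiftLeft (nat_lit 0x400000300400c017) (nat_lit 64)) (.one (nat_lit 0x400000300400c016000600809902c511)) (.br (Nat.shiftLeft (nat_lit 0x800000600801803) (nat_lit 67)) (.one (nat_lit 0x400000300400c017000600809902e511)) (.one (nat_lit 0x400000300400c0180006008099030511))))) (.br (Nat.shiftLeft (nat_lit 0x500000200400c017) (nat_lit 64)) (.br (Nat.shiftLeft (nat_lit 0x280000100200600b) (nat_lit 65)) (.one (nat_lit 0x500000200400c01500040080b942a511)) (.one (nat_lit 0x500000200400c01600040080b942c511)))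 (.br (Nat.shiftLeft (nat_lit 0xa00000400801803) (nat_lit 67)) (.one (nat_lit 0x500000200400c01700040080b942e511)) (.br (Nat.shiftLeft (nat_lit 0x5000003) (nat_lit 100)) (.one (nat_lit 0x500000200400c01800040080b9430511)) (.one (nat_lit 0x500000300400c01500060080b942a511))))))
def t220 : k220.all (jb2 57 fl b0) = true := by decide +kernel
noncomputable def k221 : KT := (.br (Nat.shiftLeft (nat_lit 0x300000100200600b) (nat_lit 65)) (.br (Nat.shiftLeft (nat_lit 0xa00000600801803) (nat_lit 67)) (.br (Nat.shiftLeft (nat_lit 0x500000300400c017) (nat_lit 64)) (.one (nat_lit 0x500000300400c01600060080b942c511)) (.one (nat_lit 0x500000300400c01700060080b942e511))) (.br (Nat.shiftLeft (nat_lit 0x3) (nat_lit 125)) (.one (nat_lit 0x500000300400c01800060080b9430511)) (.one (nat_lit 0x600000200400c01500040080d982a511)))) (.br (Nat.shiftLeft (nat_lit 0xc00000400801803) (nat_lit 67)) (.br (Nat.shiftLeft (nat_lit 0x600000200400c017) (nat_lit 64)) (.one (nat_lit 0x600000200400c01600040080d982c511)) (.one (nat_lit 0x600000200400c01700040080d982e511)))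 (.br (Nat.shiftLeft (nat_lit 0x6000003) (nat_lit 100)) (.one (nat_lit 0x600000200400c01800040080d9830511)) (.one (nat_lit 0x600000300400c01500060080d982a511)))))
def t221 : k221.all (jb2 57 fl b0) = true := by decide +kernel
noncomputable def k222 : KT := (.br (Nat.shiftLeft (nat_lit 0x380000100200600b) (nat_lit 65)) (.br (Nat.shiftLeft (nat_lit 0xc00000600801803) (nat_lit 67)) (.br (Nat.shiftLeft (nat_lit 0x600000300400c017) (nat_lit 64)) (.one (nat_lit 0x600000300400c01600060080d982c511)) (.one (nat_lit 0x600000300400c01700060080d982e511))) (.br (Nat.shiftLeft (nat_lit 0x7) (nat_lit 124)) (.one (nat_lit 0x600000300400c01800060080d9830511)) (.one (nat_lit 0x700000200400c01500040080f9c2a511)))) (.br (Nat.shiftLeft (nat_lit 0xe00000400801803) (nat_lit 67)) (.br (Nat.shiftLeft (nat_lit 0x700000200400c017) (nat_lit 64)) (.one (nat_lit 0x700000200400c01600040080f9c2c511)) (.one (nat_lit 0x700000200400c01700040080f9c2e511))) (.br (Nat.shiftLeft (nat_lit 0x7000003) (nat_lit 100)) (.one (nat_lit 0x700000200400c01800040080f9c30511))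 (.br (Nat.shiftLeft (nat_lit 0x380000180200600b) (nat_lit 65)) (.one (nat_lit 0x700000300400c01500060080f9c2a511)) (.one (nat_lit 0x700000300400c01600060080f9c2c511))))))
def t222 : k222.all (jb2 57 fl b0) = true := by decide +kernel
noncomputable def k223 : KT := (.br (Nat.shiftLeft (nat_lit 0x1000000400801803) (nat_lit 67)) (.br (Nat.shiftLeft (nat_lit 0x1) (nat_lit 127)) (.br (Nat.shiftLeft (nat_lit 0xe00000600801803) (nat_lit 67)) (.one (nat_lit 0x700000300400c01700060080f9c2e511)) (.one (nat_lit 0x700000300400c01800060080f9c30511))) (.br (Nat.shiftLeft (nat_lit 0x400000100200600b) (nat_lit 65)) (.one (nat_lit 0x800000200400c015000400811a02a511)) (.br (Nat.shiftLeft (nat_lit 0x800000200400c017) (nat_lit 64)) (.one (nat_lit 0x800000200400c016000400811a02c511)) (.one (nat_lit 0x800000200400c017000400811a02e511))))) (.br (Nat.shiftLeft (nat_lit 0x800000300400c017) (nat_lit 64)) (.br (Nat.shiftLeft (nat_lit 0x8000003) (nat_lit 100)) (.one (nat_lit 0x800000200400c018000400811a030511)) (.br (Nat.shiftLeft (nat_lit 0x400000180200600b)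 (nat_lit 65)) (.one (nat_lit 0x800000300400c015000600811a02a511)) (.one (nat_lit 0x800000300400c016000600811a02c511)))) (.br (Nat.shiftLeft (nat_lit 0x1000000600801803) (nat_lit 67)) (.one (nat_lit 0x800000300400c017000600811a02e511)) (.br (Nat.shiftLeft (nat_lit 0x9) (nat_lit 124)) (.one (nat_lit 0x800000300400c018000600811a030511)) (.one (nat_lit 0x900000200400c015000400813a42a511))))))
def t223 : k223.all (jb2 57 fl b0) = true := by decide +kernel
noncomputable def k224 : KT := (.br (Nat.shiftLeft (nat_lit 0x5) (nat_lit 125)) (.br (Nat.shiftLeft (nat_lit 0x9000003) (nat_lit 100)) (.br (Nat.shiftLeft (nat_lit 0x900000200400c017) (nat_lit 64)) (.one (nat_lit 0x900000200400c016000400813a42c511)) (.br (Nat.shiftLeft (nat_lit 0x1200000400801803) (nat_lit 67)) (.one (nat_lit 0x900000200400c017000400813a42e511)) (.one (nat_lit 0x900000200400c018000400813a430511)))) (.br (Nat.shiftLeft (nat_lit 0x900000300400c017) (nat_lit 64)) (.br (Nat.shiftLeft (nat_lit 0x480000180200600b) (nat_lit 65)) (.one (nat_lit 0x900000300400c015000600813a42a511))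 (.one (nat_lit 0x900000300400c016000600813a42c511))) (.br (Nat.shiftLeft (nat_lit 0x1200000600801803) (nat_lit 67)) (.one (nat_lit 0x900000300400c017000600813a42e511)) (.one (nat_lit 0x900000300400c018000600813a430511))))) (.br (Nat.shiftLeft (nat_lit 0xa000003) (nat_lit 100)) (.br (Nat.shiftLeft (nat_lit 0xa00000200400c017) (nat_lit 64)) (.br (Nat.shiftLeft (nat_lit 0x500000100200600b) (nat_lit 65)) (.one (nat_lit 0xa00000200400c015000400815a82a511)) (.one (nat_lit 0xa00000200400c016000400815a82c511))) (.br (Nat.shiftLeft (nat_lit 0x1400000400801803) (nat_lit 67)) (.one (nat_lit 0xa00000200400c017000400815a82e511)) (.one (nat_lit 0xa00000200400c018000400815a830511)))) (.br (Nat.shiftLeft (nat_lit 0xa00000300400c017) (nat_lit 64)) (.br (Nat.shiftLeft (nat_lit 0x500000180200600b) (nat_lit 65)) (.one (nat_lit 0xa00000300400c015000600815a82a511)) (.one (nat_lit 0xa00000300400c016000600815a82c511))) (.br (Nat.shiftLeft (nat_lit 0x1400000600801803) (nat_lit 67)) (.one (nat_lit 0xa00000300400c017000600815a82e511)) (.one (nat_lit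 0xa00000300400c018000600815a830511))))))
def t224 : k224.all (jb2 57 fl b0) = true := by decide +kernel
noncomputable def k225 : KT := (.br (Nat.shiftLeft (nat_lit 0xc000003) (nat_lit 100)) (.br (Nat.shiftLeft (nat_lit 0xb00000300400c017) (nat_lit 64)) (.br (Nat.shiftLeft (nat_lit 0x1600000400801803) (nat_lit 67)) (.br (Nat.shiftLeft (nat_lit 0x580000100200600b) (nat_lit 65)) (.one (nat_lit 0xb00000200400c015000400817ac2a511)) (.br (Nat.shiftLeft (nat_lit 0xb00000200400c017) (nat_lit 64)) (.one (nat_lit 0xb00000200400c016000400817ac2c511)) (.one (nat_lit 0xb00000200400c017000400817ac2e511)))) (.br (Nat.shiftLeft (nat_lit 0xb000003) (nat_lit 100)) (.one (nat_lit 0xb00000200400c018000400817ac30511)) (.br (Nat.shiftLeft (nat_lit 0x580000180200600b) (nat_lit 65)) (.one (nat_lit 0xb00000300400c015000600817ac2a511)) (.one (nat_lit 0xb00000300400c016000600817ac2c511))))) (.br (Nat.shiftLeft (nat_lit 0x600000100200600b) (nat_lit 65)) (.br (Nat.shiftLeft (nat_lit 0x1600000600801803) (nat_lit 67)) (.one (nat_lit 0xb00000300400c017000600817ac2e511))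 (.br (Nat.shiftLeft (nat_lit 0x3) (nat_lit 126)) (.one (nat_lit 0xb00000300400c018000600817ac30511)) (.one (nat_lit 0xc00000200400c015000400819b02a511)))) (.br (Nat.shiftLeft (nat_lit 0xc00000200400c017) (nat_lit 64)) (.one (nat_lit 0xc00000200400c016000400819b02c511)) (.br (Nat.shiftLeft (nat_lit 0x1800000400801803) (nat_lit 67)) (.one (nat_lit 0xc00000200400c017000400819b02e511)) (.one (nat_lit 0xc00000200400c018000400819b030511)))))) (.br (Nat.shiftLeft (nat_lit 0x1) (nat_lit 137)) (.br (Nat.shiftLeft (nat_lit 0x1800000600801803) (nat_lit 67)) (.br (Nat.shiftLeft (nat_lit 0x600000180200600b) (nat_lit 65)) (.one (nat_lit 0xc00000300400c015000600819b02a511)) (.br (Nat.shiftLeft (nat_lit 0xc00000300400c017) (nat_lit 64)) (.one (nat_lit 0xc00000300400c016000600819b02c511)) (.one (nat_lit 0xc00000300400c017000600819b02e511)))) (.br (Nat.shiftLeft (nat_lit 0x1) (nat_lit 136)) (.one (nat_lit 0xc00000300400c018000600819b030511)) (.br (Nat.shiftLeft (nat_lit 0x800001) (nat_lit 113)) (.one (nat_lit 0x100000100200400c015200402841802a611))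 (.one (nat_lit 0x100000200300400c015400602841802a611))))) (.br (Nat.shiftLeft (nat_lit 0x1800001) (nat_lit 113)) (.br (Nat.shiftLeft (nat_lit 0x1000001) (nat_lit 113)) (.one (nat_lit 0x200000100200400c015200404881802a611)) (.br (Nat.shiftLeft (nat_lit 0x3) (nat_lit 136)) (.one (nat_lit 0x200000200300400c015400604881802a611)) (.one (nat_lit 0x300000100200400c0152004068c1802a611)))) (.br (Nat.shiftLeft (nat_lit 0x1) (nat_lit 138)) (.one (nat_lit 0x300000200300400c0154006068c1802a611)) (.br (Nat.shiftLeft (nat_lit 0x2000001) (nat_lit 113)) (.one (nat_lit 0x400000100200400c015200408901802a611)) (.one (nat_lit 0x400000200300400c015400608901802a611)))))))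
def t225 : k225.all (jb2 57 fl b0) = true := by decide +kernel
noncomputable def k226 : KT := (.br (Nat.shiftLeft (nat_lit 0x3000001) (nat_lit 113)) (.br (Nat.shiftLeft (nat_lit 0x2800001) (nat_lit 113)) (.one (nat_lit 0x500000100200400c01520040a941802a611)) (.br (Nat.shiftLeft (nat_lit 0x3) (nat_lit 137)) (.one (nat_lit 0x500000200300400c01540060a941802a611)) (.one (nat_lit 0x600000100200400c01520040c981802a611)))) (.br (Nat.shiftLeft (nat_lit 0x7) (nat_lit 136)) (.one (nat_lit 0x600000200300400c01540060c981802a611)) (.br (Nat.shiftLeft (nat_lit 0x3800001) (nat_lit 113)) (.one (nat_lit 0x700000100200400c01520040e9c1802a611)) (.one (nat_lit 0x700000200300400c01540060e9c1802a611)))))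
def t226 : k226.all (jb2 57 fl b0) = true := by decide +kernel
noncomputable def k227 : KT := (.br (Nat.shiftLeft (nat_lit 0x5000001) (nat_lit 113)) (.br (Nat.shiftLeft (nat_lit 0x9) (nat_lit 136)) (.br (Nat.shiftLeft (nat_lit 0x4000001) (nat_lit 113)) (.one (nat_lit 0x800000100200400c015200410a01802a611)) (.one (nat_lit 0x800000200300400c015400610a01802a611))) (.br (Nat.shiftLeft (nat_lit 0x4800001) (nat_lit 113)) (.one (nat_lit 0x900000100200400c015200412a41802a611)) (.br (Nat.shiftLeft (nat_lit 0x5) (nat_lit 137)) (.one (nat_lit 0x900000200300400c015400612a41802a611)) (.one (nat_lit 0xa00000100200400c015200414a81802a611))))) (.br (Nat.shiftLeft (nat_lit 0x5800001) (nat_lit 113)) (.br (Nat.shiftLeft (nat_lit 0xb) (nat_lit 136)) (.one (nat_lit 0xa00000200300400c015400614a81802a611)) (.one (nat_lit 0xb00000100200400c015200416ac1802a611))) (.br (Nat.shiftLeft (nat_lit 0x3) (nat_lit 138)) (.one (nat_lit 0xb00000200300400c015400616ac1802a611)) (.br (Nat.shiftLeft (nat_lit 0x6000001) (nat_lit 113)) (.one (nat_lit 0xc00000100200400c015200418b01802a611))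 (.one (nat_lit 0xc00000200300400c015400618b01802a611))))))
def t227 : k227.all (jb2 57 fl b0) = true := by decide +kernel
noncomputable def s11 : KT := (.br (nat_lit 0x200300400c016400600801802c650) (.br (nat_lit 0x100200400c016200400801802c650) (.br (nat_lit 0x100400c016000200801802c540) (.br (nat_lit 0x100400c015000200801802a540) k205 k206) (.br (nat_lit 0x100400c017000200801802e540) k207 (.br (nat_lit 0x100200400c015200400801802b600) k208 k209))) (.br (nat_lit 0x100300400c015200600801802a650) (.br (nat_lit 0x100200400c017200400801802e650) k210 (.br (nat_lit 0x100200400c0182004008018030650) k211 k212)) (.br (nat_lit 0x100300400c016200600801802c650) k213 (.br (nat_lit 0x200300400c015400600801802b600) k214 k215)))) (.br (nat_lit 0x600000300400c01500060080d982a511) (.br (nat_lit 0x100000300400c0180006008038430511) (.br (nat_lit 0x200300400c017400600801802e650) k216 (.br (nat_lit 0x700000400c018e000008018030411) k217 k218)) (.br (nat_lit 0x400000200400c017000400809902e511) k219 (.br (nat_lit 0x500000300400c01500060080b942a511)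 k220 k221))) (.br (nat_lit 0xa00000300400c018000600815a830511) (.br (nat_lit 0x700000300400c01600060080f9c2c511) k222 (.br (nat_lit 0x900000200400c015000400813a42a511) k223 k224)) (.br (nat_lit 0x400000200300400c015400608901802a611) k225 (.br (nat_lit 0x700000200300400c01540060e9c1802a611) k226 k227)))))
noncomputable def u11 : KT := (.br (Nat.shiftLeft (nat_lit 0x400c017) (nat_lit 64)) (.br (Nat.shiftLeft (nat_lit 0x200600b) (nat_lit 65)) (.one (nat_lit 0x400c015000000801802a430)) (.one (nat_lit 0x400c016000000801802c430))) (.br (Nat.shiftLeft (nat_lit 0x801803) (nat_lit 67)) (.one (nat_lit 0x400c017000000801802e430)) (.one (nat_lit 0x400c0180000008018030430))))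
def w11 : u11.all (wj 57 s11) = true := by decide +kernel
def o11 : OkW 57 (jb2 57 fl) u11 := .lift s11 _ (.br _ _ _ (.br _ _ _ (.br _ _ _ (.br _ _ _ (.leaf b0 k205 t205) (.leaf b0 k206 t206)) (.br _ _ _ (.leaf b0 k207 t207) (.br _ _ _ (.leaf b0 k208 t208) (.leaf b0 k209 t209)))) (.br _ _ _ (.br _ _ _ (.leaf b0 k210 t210) (.br _ _ _ (.leaf b0 k211 t211) (.leaf b0 k212 t212))) (.br _ _ _ (.leaf b0 k213 t213) (.br _ _ _ (.leaf b0 k214 t214) (.leaf b0 k215 t215))))) (.br _ _ _ (.br _ _ _ (.br _ _ _ (.leaf b0 k216 t216) (.br _ _ _ (.leaf b0 k217 t217) (.leaf b0 k218 t218))) (.br _ _ _ (.leaf b0 k219 t219) (.br _ _ _ (.leaf b0 k220 t220) (.leaf b0 k221 t221)))) (.br _ _ _ (.br _ _ _ (.leaf b0 k222 t222) (.br _ _ _ (.leaf b0 k223 t223) (.leaf b0 k224 t224))) (.br _ _ _ (.leaf b0 k225 t225) (.br _ _ _ (.leaf b0 k226 t226) (.leaf b0 k227 t227)))))) w11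
noncomputable def k228 : KT := (.br (Nat.shiftLeft (nat_lit 0x3) (nat_lit 112)) (.br (Nat.shiftLeft (nat_lit 0x801) (nat_lit 101)) (.br (Nat.shiftLeft (nat_lit 0x3) (nat_lit 100)) (.br (Nat.shiftLeft (nat_lit 0x1) (nat_lit 101)) (.one (nat_lit 0x100400d00e000200801a01c540)) (.one (nat_lit 0x200400d00e000400801a01d500))) (.br (Nat.shiftLeft (nat_lit 0x1) (nat_lit 112)) (.one (nat_lit 0x300400d00e000600801a01d500)) (.one (nat_lit 0x100000400d00e200000801a01c411)))) (.br (Nat.shiftLeft (nat_lit 0x1) (nat_lit 113)) (.br (Nat.shiftLeft (nat_lit 0x1003) (nat_lit 100)) (.one (nat_lit 0x100200400d00e200400801a01d600)) (.one (nat_lit 0x100300400d00e200600801a01d600))) (.br (Nat.shiftLeft (nat_lit 0x1001) (nat_lit 101)) (.one (nat_lit 0x200000400d00e400000801a01c411)) (.one (nat_lit 0x200300400d00e400600801a01d600))))) (.br (Nat.shiftLeft (nat_lit 0x7) (nat_lit 112)) (.br (Nat.shiftLeft (nat_lit 0x5) (nat_lit 112)) (.br (Nat.shiftLeft (nat_lit 0x1) (nat_lit 114)) (.one (nat_lit 0x300000400d00e600000801a01c411)) (.one (nat_lit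 0x400000400d00e800000801a01c411))) (.br (Nat.shiftLeft (nat_lit 0x3) (nat_lit 113)) (.one (nat_lit 0x500000400d00ea00000801a01c411)) (.one (nat_lit 0x600000400d00ec00000801a01c411)))) (.br (Nat.shiftLeft (nat_lit 0x9) (nat_lit 112)) (.br (Nat.shiftLeft (nat_lit 0x1) (nat_lit 115)) (.one (nat_lit 0x700000400d00ee00000801a01c411)) (.one (nat_lit 0x800000400d00e000000801a11e411))) (.br (Nat.shiftLeft (nat_lit 0x5) (nat_lit 113)) (.one (nat_lit 0x900000400d00e200000801a11e411)) (.one (nat_lit 0xa00000400d00e400000801a11e411))))))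
def t228 : k228.all (jb2 57 fl b0) = true := by decide +kernel
noncomputable def k229 : KT := (.br (Nat.shiftLeft (nat_lit 0x3) (nat_lit 124)) (.br (Nat.shiftLeft (nat_lit 0x1000003) (nat_lit 100)) (.br (Nat.shiftLeft (nat_lit 0xd) (nat_lit 112)) (.br (Nat.shiftLeft (nat_lit 0x3) (nat_lit 114)) (.one (nat_lit 0xb00000400d00e600000801a11e411)) (.one (nat_lit 0xc00000400d00e800000801a11e411))) (.br (Nat.shiftLeft (nat_lit 0x1) (nat_lit 124)) (.one (nat_lit 0xd00000400d00ea00000801a11e411)) (.one (nat_lit 0x100000200400d00e000400803a41c511)))) (.br (Nat.shiftLeft (nat_lit 0x1) (nat_lit 125)) (.br (Nat.shiftLeft (nat_lit 0x801) (nat_lit 113)) (.one (nat_lit 0x100000300400d00e000600803a41c511)) (.one (nat_lit 0x100200300400d00e400600803a41d700))) (.br (Nat.shiftLeft (nat_lit 0x2000003) (nat_lit 100)) (.one (nat_lit 0x200000200400d00e000400805a81c511)) (.one (nat_lit 0x200000300400d00e000600805a81c511))))) (.br (Nat.shiftLeft (nat_lit 0x5) (nat_lit 124)) (.br (Nat.shiftLeft (nat_lit 0x1) (nat_lit 126)) (.br (Nat.shiftLeft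 (nat_lit 0x3000003) (nat_lit 100)) (.one (nat_lit 0x300000200400d00e000400807ac1c511)) (.one (nat_lit 0x300000300400d00e000600807ac1c511))) (.br (Nat.shiftLeft (nat_lit 0x4000003) (nat_lit 100)) (.one (nat_lit 0x400000200400d00e000400809b01c511)) (.one (nat_lit 0x400000300400d00e000600809b01c511)))) (.br (Nat.shiftLeft (nat_lit 0x3) (nat_lit 125)) (.br (Nat.shiftLeft (nat_lit 0x5000003) (nat_lit 100)) (.one (nat_lit 0x500000200400d00e00040080bb41c511)) (.one (nat_lit 0x500000300400d00e00060080bb41c511))) (.br (Nat.shiftLeft (nat_lit 0x6000003) (nat_lit 100)) (.one (nat_lit 0x600000200400d00e00040080db81c511)) (.one (nat_lit 0x600000300400d00e00060080db81c511))))))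
def t229 : k229.all (jb2 57 fl b0) = true := by decide +kernel
noncomputable def k230 : KT := (.br (Nat.shiftLeft (nat_lit 0x8000003) (nat_lit 100)) (.br (Nat.shiftLeft (nat_lit 0x7000003) (nat_lit 100)) (.one (nat_lit 0x700000200400d00e00040080fbc1c511)) (.br (Nat.shiftLeft (nat_lit 0x1) (nat_lit 127)) (.one (nat_lit 0x700000300400d00e00060080fbc1c511)) (.one (nat_lit 0x800000200400d00e000400811c01c511)))) (.br (Nat.shiftLeft (nat_lit 0x9) (nat_lit 124)) (.one (nat_lit 0x800000300400d00e000600811c01c511)) (.br (Nat.shiftLeft (nat_lit 0x9000003) (nat_lit 100)) (.one (nat_lit 0x900000200400d00e000400813c41c511)) (.one (nat_lit 0x900000300400d00e000600813c41c511)))))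
def t230 : k230.all (jb2 57 fl b0) = true := by decide +kernel
noncomputable def k231 : KT := (.br (Nat.shiftLeft (nat_lit 0xb000003) (nat_lit 100)) (.br (Nat.shiftLeft (nat_lit 0xa000003) (nat_lit 100)) (.one (nat_lit 0xa00000200400d00e000400815c81c511)) (.br (Nat.shiftLeft (nat_lit 0xb) (nat_lit 124)) (.one (nat_lit 0xa00000300400d00e000600815c81c511)) (.one (nat_lit 0xb00000200400d00e000400817cc1c511)))) (.br (Nat.shiftLeft (nat_lit 0xc000003) (nat_lit 100)) (.br (Nat.shiftLeft (nat_lit 0x3) (nat_lit 126)) (.one (nat_lit 0xb00000300400d00e000600817cc1c511)) (.one (nat_lit 0xc00000200400d00e000400819d01c511))) (.br (Nat.shiftLeft (nat_lit 0xd) (nat_lit 124)) (.one (nat_lit 0xc00000300400d00e000600819d01c511)) (.one (nat_lit 0xd00000200400d00e00040081bd41c511)))))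
def t231 : k231.all (jb2 57 fl b0) = true := by decide +kernel
noncomputable def k232 : KT := (.br (Nat.shiftLeft (nat_lit 0x3) (nat_lit 136)) (.br (Nat.shiftLeft (nat_lit 0x800001) (nat_lit 113)) (.br (Nat.shiftLeft (nat_lit 0x1) (nat_lit 136)) (.one (nat_lit 0xd00000300400d00e00060081bd41c511)) (.br (Nat.shiftLeft (nat_lit 0x1000001003) (nat_lit 100)) (.one (nat_lit 0x100000100200400d00e200402841a01c611)) (.one (nat_lit 0x100000100300400d00e200602841a01c611)))) (.br (Nat.shiftLeft (nat_lit 0x2000001003) (nat_lit 100)) (.br (Nat.shiftLeft (nat_lit 0x1) (nat_lit 137)) (.one (nat_lit 0x100000200300400d00e400602841a01c611)) (.one (nat_lit 0x200000100200400d00e200404881a01c611))) (.br (Nat.shiftLeft (nat_lit 0x1000001) (nat_lit 113)) (.one (nat_lit 0x200000100300400d00e200604881a01c611)) (.one (nat_lit 0x200000200300400d00e400604881a01c611))))) (.br (Nat.shiftLeft (nat_lit 0x1) (nat_lit 138)) (.br (Nat.shiftLeft (nat_lit 0x3000001003) (nat_lit 100)) (.one (nat_lit 0x300000100200400d00e2004068c1a01c611)) (.br (Nat.shiftLeft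 (nat_lit 0x1800001) (nat_lit 113)) (.one (nat_lit 0x300000100300400d00e2006068c1a01c611)) (.one (nat_lit 0x300000200300400d00e4006068c1a01c611)))) (.br (Nat.shiftLeft (nat_lit 0x2000001) (nat_lit 113)) (.br (Nat.shiftLeft (nat_lit 0x4000001003) (nat_lit 100)) (.one (nat_lit 0x400000100200400d00e200408901a01c611)) (.one (nat_lit 0x400000100300400d00e200608901a01c611))) (.br (Nat.shiftLeft (nat_lit 0x5) (nat_lit 136)) (.one (nat_lit 0x400000200300400d00e400608901a01c611)) (.one (nat_lit 0x500000100200400d00e20040a941a01c611))))))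
def t232 : k232.all (jb2 57 fl b0) = true := by decide +kernel
noncomputable def k233 : KT := (.br (Nat.shiftLeft (nat_lit 0x2800001) (nat_lit 113)) (.one (nat_lit 0x500000100300400d00e20060a941a01c611)) (.one (nat_lit 0x500000200300400d00e40060a941a01c611)))
def t233 : k233.all (jb2 57 fl b0) = true := by decide +kernel
noncomputable def k234 : KT := (.br (Nat.shiftLeft (nat_lit 0x6000001003) (nat_lit 100)) (.one (nat_lit 0x600000100200400d00e20040c981a01c611)) (.one (nat_lit 0x600000100300400d00e20060c981a01c611)))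
def t234 : k234.all (jb2 57 fl b0) = true := by decide +kernel
noncomputable def k235 : KT := (.br (Nat.shiftLeft (nat_lit 0x7) (nat_lit 136)) (.one (nat_lit 0x600000200300400d00e40060c981a01c611)) (.one (nat_lit 0x700000100200400d00e20040e9c1a01c611)))
def t235 : k235.all (jb2 57 fl b0) = true := by decide +kernel
noncomputable def k236 : KT := (.br (Nat.shiftLeft (nat_lit 0x3800001) (nat_lit 113)) (.one (nat_lit 0x700000100300400d00e20060e9c1a01c611)) (.one (nat_lit 0x700000200300400d00e40060e9c1a01c611)))
def t236 : k236.all (jb2 57 fl b0) = true := by decide +kernel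
noncomputable def k237 : KT := (.br (Nat.shiftLeft (nat_lit 0x8000001003) (nat_lit 100)) (.one (nat_lit 0x800000100200400d00e200410a01a01c611)) (.br (Nat.shiftLeft (nat_lit 0x4000001) (nat_lit 113)) (.one (nat_lit 0x800000100300400d00e200610a01a01c611)) (.one (nat_lit 0x800000200300400d00e400610a01a01c611))))
def t237 : k237.all (jb2 57 fl b0) = true := by decide +kernel
noncomputable def k238 : KT := (.br (Nat.shiftLeft (nat_lit 0x9000001003) (nat_lit 100)) (.one (nat_lit 0x900000100200400d00e200412a41a01c611)) (.br (Nat.shiftLeft (nat_lit 0x4800001) (nat_lit 113)) (.one (nat_lit 0x900000100300400d00e200612a41a01c611)) (.one (nat_lit 0x900000200300400d00e400612a41a01c611))))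
def t238 : k238.all (jb2 57 fl b0) = true := by decide +kernel
noncomputable def k239 : KT := (.br (Nat.shiftLeft (nat_lit 0x5000001) (nat_lit 113)) (.br (Nat.shiftLeft (nat_lit 0xa000001003) (nat_lit 100)) (.one (nat_lit 0xa00000100200400d00e200414a81a01c611)) (.one (nat_lit 0xa00000100300400d00e200614a81a01c611))) (.br (Nat.shiftLeft (nat_lit 0xb) (nat_lit 136)) (.one (nat_lit 0xa00000200300400d00e400614a81a01c611)) (.one (nat_lit 0xb00000100200400d00e200416ac1a01c611))))
def t239 : k239.all (jb2 57 fl b0) = true := by decide +kernel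
noncomputable def k240 : KT := (.br (Nat.shiftLeft (nat_lit 0xc000001003) (nat_lit 100)) (.br (Nat.shiftLeft (nat_lit 0x5800001) (nat_lit 113)) (.one (nat_lit 0xb00000100300400d00e200616ac1a01c611)) (.br (Nat.shiftLeft (nat_lit 0x3) (nat_lit 138)) (.one (nat_lit 0xb00000200300400d00e400616ac1a01c611)) (.one (nat_lit 0xc00000100200400d00e200418b01a01c611)))) (.br (Nat.shiftLeft (nat_lit 0x6000001) (nat_lit 113)) (.one (nat_lit 0xc00000100300400d00e200618b01a01c611)) (.br (Nat.shiftLeft (nat_lit 0xd) (nat_lit 136)) (.one (nat_lit 0xc00000200300400d00e400618b01a01c611)) (.one (nat_lit 0xd00000100200400d00e20041ab41a01c611)))))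
def t240 : k240.all (jb2 57 fl b0) = true := by decide +kernel
noncomputable def k241 : KT := (.br (Nat.shiftLeft (nat_lit 0x1) (nat_lit 149)) (.br (Nat.shiftLeft (nat_lit 0x6800001) (nat_lit 113)) (.one (nat_lit 0xd00000100300400d00e20061ab41a01c611)) (.br (Nat.shiftLeft (nat_lit 0x1) (nat_lit 148)) (.one (nat_lit 0xd00000200300400d00e40061ab41a01c611)) (.one (nat_lit 0x100000100200300400d00e402640803a41c711)))) (.br (Nat.shiftLeft (nat_lit 0x1) (nat_lit 150)) (.br (Nat.shiftLeft (nat_lit 0x3) (nat_lit 148)) (.one (nat_lit 0x200000100200300400d00e404680803a41c711)) (.one (nat_lit 0x300000100200300400d00e4066c0803a41c711))) (.br (Nat.shiftLeft (nat_lit 0x5) (nat_lit 148)) (.one (nat_lit 0x400000100200300400d00e408700803a41c711)) (.one (nat_lit 0x500000100200300400d00e40a740803a41c711)))))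
def t241 : k241.all (jb2 57 fl b0) = true := by decide +kernel
noncomputable def k242 : KT := (.br (Nat.shiftLeft (nat_lit 0x7) (nat_lit 148)) (.one (nat_lit 0x600000100200300400d00e40c780803a41c711)) (.br (Nat.shiftLeft (nat_lit 0x1) (nat_lit 151)) (.one (nat_lit 0x700000100200300400d00e40e7c0803a41c711)) (.one (nat_lit 0x800000100200300400d00e410800803a41c711))))
def t242 : k242.all (jb2 57 fl b0) = true := by decide +kernel
noncomputable def k243 : KT := (.br (Nat.shiftLeft (nat_lit 0xb) (nat_lit 148)) (.br (Nat.shiftLeft (nat_lit 0x5) (nat_lit 149)) (.one (nat_lit 0x900000100200300400d00e412840803a41c711)) (.one (nat_lit 0xa00000100200300400d00e414880803a41c711))) (.br (Nat.shiftLeft (nat_lit 0x3) (nat_lit 150)) (.one (nat_lit 0xb00000100200300400d00e4168c0803a41c711)) (.br (Nat.shiftLeft (nat_lit 0xd) (nat_lit 148)) (.one (nat_lit 0xc00000100200300400d00e418900803a41c711)) (.one (nat_lit 0xd00000100200300400d00e41a940803a41c711)))))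
def t243 : k243.all (jb2 57 fl b0) = true := by decide +kernel
noncomputable def s12 : KT := (.br (nat_lit 0x700000100200400d00e20040e9c1a01c611) (.br (nat_lit 0xd00000200400d00e00040081bd41c511) (.br (nat_lit 0x600000300400d00e00060080db81c511) (.br (nat_lit 0xa00000400d00e400000801a11e411) k228 k229) (.br (nat_lit 0x900000300400d00e000600813c41c511) k230 k231)) (.br (nat_lit 0x500000200300400d00e40060a941a01c611) (.br (nat_lit 0x500000100200400d00e20040a941a01c611) k232 k233) (.br (nat_lit 0x600000100300400d00e20060c981a01c611) k234 k235))) (.br (nat_lit 0xb00000100200400d00e200416ac1a01c611) (.br (nat_lit 0x800000200300400d00e400610a01a01c611) (.br (nat_lit 0x700000200300400d00e40060e9c1a01c611) k236 k237) (.br (nat_lit 0x900000200300400d00e400612a41a01c611) k238 k239)) (.br (nat_lit 0x500000100200300400d00e40a740803a41c711) (.br (nat_lit 0xd00000100200400d00e20041ab41a01c611) k240 k241) (.br (nat_lit 0x800000100200300400d00e410800803a41c711) k242 k243))))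
noncomputable def u12 : KT := (.one (nat_lit 0x400d00e000000801a01c430))
def w12 : u12.all (wj 57 s12) = true := by decide +kernel
def o12 : OkW 57 (jb2 57 fl) u12 := .lift s12 _ (.br _ _ _ (.br _ _ _ (.br _ _ _ (.br _ _ _ (.leaf b0 k228 t228) (.leaf b0 k229 t229)) (.br _ _ _ (.leaf b0 k230 t230) (.leaf b0 k231 t231))) (.br _ _ _ (.br _ _ _ (.leaf b0 k232 t232) (.leaf b0 k233 t233)) (.br _ _ _ (.leaf b0 k234 t234) (.leaf b0 k235 t235)))) (.br _ _ _ (.br _ _ _ (.br _ _ _ (.leaf b0 k236 t236) (.leaf b0 k237 t237)) (.br _ _ _ (.leaf b0 k238 t238) (.leaf b0 k239 t239))) (.br _ _ _ (.br _ _ _ (.leaf b0 k240 t240) (.leaf b0 k241 t241)) (.br _ _ _ (.leaf b0 k242 t242) (.leaf b0 k243 t243))))) w12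
noncomputable def k244 : KT := (.br (Nat.shiftLeft (nat_lit 0x1001) (nat_lit 101)) (.br (Nat.shiftLeft (nat_lit 0x1) (nat_lit 112)) (.br (Nat.shiftLeft (nat_lit 0x1) (nat_lit 101)) (.br (Nat.shiftLeft (nat_lit 0x1) (nat_lit 100)) (.one (nat_lit 0x400d00f000000801a01f400)) (.one (nat_lit 0x100400d00f000200801a01e540))) (.br (Nat.shiftLeft (nat_lit 0x3) (nat_lit 100)) (.one (nat_lit 0x200400d00f000400801a01f500)) (.one (nat_lit 0x300400d00f000600801a01f500)))) (.br (Nat.shiftLeft (nat_lit 0x1003) (nat_lit 100)) (.br (Nat.shiftLeft (nat_lit 0x801) (nat_lit 101)) (.one (nat_lit 0x100000400d00f200000801a01e411)) (.one (nat_lit 0x100200400d00f200400801a01f600))) (.br (Nat.shiftLeft (nat_lit 0x1) (nat_lit 113)) (.one (nat_lit 0x100300400d00f200600801a01f600)) (.one (nat_lit 0x200000400d00f400000801a01e411))))) (.br (Nat.shiftLeft (nat_lit 0x3) (nat_lit 113)) (.br (Nat.shiftLeft (nat_lit 0x1) (nat_lit 114)) (.br (Nat.shiftLeft (nat_lit 0x3) (nat_lit 112)) (.one (nat_lit 0x200300400d00f400600801a01f600)) (.one (nat_lit 0x300000400d00f600000801a01e411)))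 (.br (Nat.shiftLeft (nat_lit 0x5) (nat_lit 112)) (.one (nat_lit 0x400000400d00f800000801a01e411)) (.one (nat_lit 0x500000400d00fa00000801a01e411)))) (.br (Nat.shiftLeft (nat_lit 0x1) (nat_lit 115)) (.br (Nat.shiftLeft (nat_lit 0x7) (nat_lit 112)) (.one (nat_lit 0x600000400d00fc00000801a01e411)) (.one (nat_lit 0x700000400d00fe00000801a01e411))) (.br (Nat.shiftLeft (nat_lit 0x9) (nat_lit 112)) (.one (nat_lit 0x800000400d00f000000801a120411)) (.one (nat_lit 0x900000400d00f200000801a120411))))))
def t244 : k244.all (jb2 57 fl b0) = true := by decide +kernel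
noncomputable def k245 : KT := (.br (Nat.shiftLeft (nat_lit 0x2000003) (nat_lit 100)) (.br (Nat.shiftLeft (nat_lit 0x1) (nat_lit 124)) (.br (Nat.shiftLeft (nat_lit 0x3) (nat_lit 114)) (.br (Nat.shiftLeft (nat_lit 0xb) (nat_lit 112)) (.one (nat_lit 0xa00000400d00f400000801a120411)) (.one (nat_lit 0xb00000400d00f600000801a120411))) (.br (Nat.shiftLeft (nat_lit 0xd) (nat_lit 112)) (.one (nat_lit 0xc00000400d00f800000801a120411)) (.one (nat_lit 0xd00000400d00fa00000801a120411)))) (.br (Nat.shiftLeft (nat_lit 0x801) (nat_lit 113)) (.br (Nat.shiftLeft (nat_lit 0x1000003) (nat_lit 100)) (.one (nat_lit 0x100000200400d00f000400803a41e511)) (.one (nat_lit 0x100000300400d00f000600803a41e511))) (.br (Nat.shiftLeft (nat_lit 0x1) (nat_lit 125)) (.one (nat_lit 0x100200300400d00f400600803a41f700)) (.one (nat_lit 0x200000200400d00f000400805a81e511))))) (.br (Nat.shiftLeft (nat_lit 0x4000003) (nat_lit 100)) (.br (Nat.shiftLeft (nat_lit 0x3000003) (nat_lit 100)) (.br (Nat.shiftLeft (nat_lit 0x3) (nat_lit 124)) (.one (nat_lit 0x200000300400d00f000600805a81e511))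 (.one (nat_lit 0x300000200400d00f000400807ac1e511))) (.br (Nat.shiftLeft (nat_lit 0x1) (nat_lit 126)) (.one (nat_lit 0x300000300400d00f000600807ac1e511)) (.one (nat_lit 0x400000200400d00f000400809b01e511)))) (.br (Nat.shiftLeft (nat_lit 0x5000003) (nat_lit 100)) (.br (Nat.shiftLeft (nat_lit 0x5) (nat_lit 124)) (.one (nat_lit 0x400000300400d00f000600809b01e511)) (.one (nat_lit 0x500000200400d00f00040080bb41e511))) (.br (Nat.shiftLeft (nat_lit 0x3) (nat_lit 125)) (.one (nat_lit 0x500000300400d00f00060080bb41e511)) (.one (nat_lit 0x600000200400d00f00040080db81e511))))))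
def t245 : k245.all (jb2 57 fl b0) = true := by decide +kernel
noncomputable def k246 : KT := (.br (Nat.shiftLeft (nat_lit 0x7000003) (nat_lit 100)) (.br (Nat.shiftLeft (nat_lit 0x7) (nat_lit 124)) (.one (nat_lit 0x600000300400d00f00060080db81e511)) (.one (nat_lit 0x700000200400d00f00040080fbc1e511))) (.br (Nat.shiftLeft (nat_lit 0x1) (nat_lit 127)) (.one (nat_lit 0x700000300400d00f00060080fbc1e511)) (.br (Nat.shiftLeft (nat_lit 0x8000003) (nat_lit 100)) (.one (nat_lit 0x800000200400d00f000400811c01e511)) (.one (nat_lit 0x800000300400d00f000600811c01e511)))))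
def t246 : k246.all (jb2 57 fl b0) = true := by decide +kernel
noncomputable def k247 : KT := (.br (Nat.shiftLeft (nat_lit 0xa000003) (nat_lit 100)) (.br (Nat.shiftLeft (nat_lit 0x9000003) (nat_lit 100)) (.one (nat_lit 0x900000200400d00f000400813c41e511)) (.br (Nat.shiftLeft (nat_lit 0x5) (nat_lit 125)) (.one (nat_lit 0x900000300400d00f000600813c41e511)) (.one (nat_lit 0xa00000200400d00f000400815c81e511)))) (.br (Nat.shiftLeft (nat_lit 0xb) (nat_lit 124)) (.one (nat_lit 0xa00000300400d00f000600815c81e511)) (.br (Nat.shiftLeft (nat_lit 0xb000003) (nat_lit 100)) (.one (nat_lit 0xb00000200400d00f000400817cc1e511)) (.one (nat_lit 0xb00000300400d00f000600817cc1e511)))))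
def t247 : k247.all (jb2 57 fl b0) = true := by decide +kernel
noncomputable def k248 : KT := (.br (Nat.shiftLeft (nat_lit 0x2000001003) (nat_lit 100)) (.br (Nat.shiftLeft (nat_lit 0x1) (nat_lit 136)) (.br (Nat.shiftLeft (nat_lit 0xd) (nat_lit 124)) (.br (Nat.shiftLeft (nat_lit 0xc000003) (nat_lit 100)) (.one (nat_lit 0xc00000200400d00f000400819d01e511)) (.one (nat_lit 0xc00000300400d00f000600819d01e511))) (.br (Nat.shiftLeft (nat_lit 0xd000003) (nat_lit 100)) (.one (nat_lit 0xd00000200400d00f00040081bd41e511)) (.one (nat_lit 0xd00000300400d00f00060081bd41e511)))) (.br (Nat.shiftLeft (nat_lit 0x800001) (nat_lit 113)) (.br (Nat.shiftLeft (nat_lit 0x1000001003) (nat_lit 100)) (.one (nat_lit 0x100000100200400d00f200402841a01e611)) (.one (nat_lit 0x100000100300400d00f200602841a01e611))) (.br (Nat.shiftLeft (nat_lit 0x1) (nat_lit 137)) (.one (nat_lit 0x100000200300400d00f400602841a01e611)) (.one (nat_lit 0x200000100200400d00f200404881a01e611))))) (.br (Nat.shiftLeft (nat_lit 0x1800001) (nat_lit 113)) (.br (Nat.shiftLeft (nat_lit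 0x3) (nat_lit 136)) (.br (Nat.shiftLeft (nat_lit 0x1000001) (nat_lit 113)) (.one (nat_lit 0x200000100300400d00f200604881a01e611)) (.one (nat_lit 0x200000200300400d00f400604881a01e611))) (.br (Nat.shiftLeft (nat_lit 0x3000001003) (nat_lit 100)) (.one (nat_lit 0x300000100200400d00f2004068c1a01e611)) (.one (nat_lit 0x300000100300400d00f2006068c1a01e611)))) (.br (Nat.shiftLeft (nat_lit 0x4000001003) (nat_lit 100)) (.br (Nat.shiftLeft (nat_lit 0x1) (nat_lit 138)) (.one (nat_lit 0x300000200300400d00f4006068c1a01e611)) (.one (nat_lit 0x400000100200400d00f200408901a01e611))) (.br (Nat.shiftLeft (nat_lit 0x2000001) (nat_lit 113)) (.one (nat_lit 0x400000100300400d00f200608901a01e611)) (.one (nat_lit 0x400000200300400d00f400608901a01e611))))))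
def t248 : k248.all (jb2 57 fl b0) = true := by decide +kernel
noncomputable def k249 : KT := (.br (Nat.shiftLeft (nat_lit 0x5000001003) (nat_lit 100)) (.one (nat_lit 0x500000100200400d00f20040a941a01e611)) (.one (nat_lit 0x500000100300400d00f20060a941a01e611)))
def t249 : k249.all (jb2 57 fl b0) = true := by decide +kernel
noncomputable def k250 : KT := (.br (Nat.shiftLeft (nat_lit 0x3) (nat_lit 137)) (.one (nat_lit 0x500000200300400d00f40060a941a01e611)) (.one (nat_lit 0x600000100200400d00f20040c981a01e611)))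
def t250 : k250.all (jb2 57 fl b0) = true := by decide +kernel
noncomputable def k251 : KT := (.br (Nat.shiftLeft (nat_lit 0x3000001) (nat_lit 113)) (.one (nat_lit 0x600000100300400d00f20060c981a01e611)) (.one (nat_lit 0x600000200300400d00f40060c981a01e611)))
def t251 : k251.all (jb2 57 fl b0) = true := by decide +kernel
noncomputable def k252 : KT := (.br (Nat.shiftLeft (nat_lit 0x7000001003) (nat_lit 100)) (.one (nat_lit 0x700000100200400d00f20040e9c1a01e611)) (.one (nat_lit 0x700000100300400d00f20060e9c1a01e611)))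
def t252 : k252.all (jb2 57 fl b0) = true := by decide +kernel
noncomputable def k253 : KT := (.br (Nat.shiftLeft (nat_lit 0x1) (nat_lit 139)) (.one (nat_lit 0x700000200300400d00f40060e9c1a01e611)) (.br (Nat.shiftLeft (nat_lit 0x8000001003) (nat_lit 100)) (.one (nat_lit 0x800000100200400d00f200410a01a01e611)) (.one (nat_lit 0x800000100300400d00f200610a01a01e611))))
def t253 : k253.all (jb2 57 fl b0) = true := by decide +kernel
noncomputable def k254 : KT := (.br (Nat.shiftLeft (nat_lit 0x9) (nat_lit 136)) (.one (nat_lit 0x800000200300400d00f400610a01a01e611)) (.br (Nat.shiftLeft (nat_lit 0x9000001003) (nat_lit 100)) (.one (nat_lit 0x900000100200400d00f200412a41a01e611)) (.one (nat_lit 0x900000100300400d00f200612a41a01e611))))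
def t254 : k254.all (jb2 57 fl b0) = true := by decide +kernel
noncomputable def k255 : KT := (.br (Nat.shiftLeft (nat_lit 0xa000001003) (nat_lit 100)) (.br (Nat.shiftLeft (nat_lit 0x5) (nat_lit 137)) (.one (nat_lit 0x900000200300400d00f400612a41a01e611)) (.one (nat_lit 0xa00000100200400d00f200414a81a01e611))) (.br (Nat.shiftLeft (nat_lit 0x5000001) (nat_lit 113)) (.one (nat_lit 0xa00000100300400d00f200614a81a01e611)) (.one (nat_lit 0xa00000200300400d00f400614a81a01e611))))
def t255 : k255.all (jb2 57 fl b0) = true := by decide +kernel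
noncomputable def k256 : KT := (.br (Nat.shiftLeft (nat_lit 0x3) (nat_lit 138)) (.br (Nat.shiftLeft (nat_lit 0xb000001003) (nat_lit 100)) (.one (nat_lit 0xb00000100200400d00f200416ac1a01e611)) (.br (Nat.shiftLeft (nat_lit 0x5800001) (nat_lit 113)) (.one (nat_lit 0xb00000100300400d00f200616ac1a01e611)) (.one (nat_lit 0xb00000200300400d00f400616ac1a01e611)))) (.br (Nat.shiftLeft (nat_lit 0xc000001003) (nat_lit 100)) (.one (nat_lit 0xc00000100200400d00f200418b01a01e611)) (.br (Nat.shiftLeft (nat_lit 0x6000001) (nat_lit 113)) (.one (nat_lit 0xc00000100300400d00f200618b01a01e611)) (.one (nat_lit 0xc00000200300400d00f400618b01a01e611)))))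
def t256 : k256.all (jb2 57 fl b0) = true := by decide +kernel
noncomputable def k257 : KT := (.br (Nat.shiftLeft (nat_lit 0x1) (nat_lit 149)) (.br (Nat.shiftLeft (nat_lit 0x6800001) (nat_lit 113)) (.br (Nat.shiftLeft (nat_lit 0xd000001003) (nat_lit 100)) (.one (nat_lit 0xd00000100200400d00f20041ab41a01e611)) (.one (nat_lit 0xd00000100300400d00f20061ab41a01e611))) (.br (Nat.shiftLeft (nat_lit 0x1) (nat_lit 148)) (.one (nat_lit 0xd00000200300400d00f40061ab41a01e611)) (.one (nat_lit 0x100000100200300400d00f402640803a41e711)))) (.br (Nat.shiftLeft (nat_lit 0x1) (nat_lit 150)) (.br (Nat.shiftLeft (nat_lit 0x3) (nat_lit 148)) (.one (nat_lit 0x200000100200300400d00f404680803a41e711)) (.one (nat_lit 0x300000100200300400d00f4066c0803a41e711))) (.br (Nat.shiftLeft (nat_lit 0x5) (nat_lit 148)) (.one (nat_lit 0x400000100200300400d00f408700803a41e711)) (.one (nat_lit 0x500000100200300400d00f40a740803a41e711)))))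
def t257 : k257.all (jb2 57 fl b0) = true := by decide +kernel
noncomputable def k258 : KT := (.br (Nat.shiftLeft (nat_lit 0x7) (nat_lit 148)) (.one (nat_lit 0x600000100200300400d00f40c780803a41e711)) (.br (Nat.shiftLeft (nat_lit 0x1) (nat_lit 151)) (.one (nat_lit 0x700000100200300400d00f40e7c0803a41e711)) (.one (nat_lit 0x800000100200300400d00f410800803a41e711))))
def t258 : k258.all (jb2 57 fl b0) = true := by decide +kernel
noncomputable def k259 : KT := (.br (Nat.shiftLeft (nat_lit 0xb) (nat_lit 148)) (.br (Nat.shiftLeft (nat_lit 0x5) (nat_lit 149)) (.one (nat_lit 0x900000100200300400d00f412840803a41e711)) (.one (nat_lit 0xa00000100200300400d00f414880803a41e711))) (.br (Nat.shiftLeft (nat_lit 0x3) (nat_lit 150)) (.one (nat_lit 0xb00000100200300400d00f4168c0803a41e711)) (.br (Nat.shiftLeft (nat_lit 0xd) (nat_lit 148)) (.one (nat_lit 0xc00000100200300400d00f418900803a41e711)) (.one (nat_lit 0xd00000100200300400d00f41a940803a41e711)))))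
def t259 : k259.all (jb2 57 fl b0) = true := by decide +kernel
noncomputable def s13 : KT := (.br (nat_lit 0x600000200300400d00f40060c981a01e611) (.br (nat_lit 0xb00000300400d00f000600817cc1e511) (.br (nat_lit 0x600000200400d00f00040080db81e511) (.br (nat_lit 0x900000400d00f200000801a120411) k244 k245) (.br (nat_lit 0x800000300400d00f000600811c01e511) k246 k247)) (.br (nat_lit 0x500000100300400d00f20060a941a01e611) (.br (nat_lit 0x400000200300400d00f400608901a01e611) k248 k249) (.br (nat_lit 0x600000100200400d00f20040c981a01e611) k250 k251))) (.br (nat_lit 0xa00000200300400d00f400614a81a01e611) (.br (nat_lit 0x800000100300400d00f200610a01a01e611) (.br (nat_lit 0x700000100300400d00f20060e9c1a01e611) k252 k253) (.br (nat_lit 0x900000100300400d00f200612a41a01e611) k254 k255)) (.br (nat_lit 0x500000100200300400d00f40a740803a41e711) (.br (nat_lit 0xc00000200300400d00f400618b01a01e611) k256 k257) (.br (nat_lit 0x800000100200300400d00f410800803a41e711) k258 k259))))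
noncomputable def u13 : KT := (.one (nat_lit 0x400d00f000000801a01e430))
def w13 : u13.all (wj 57 s13) = true := by decide +kernel
def o13 : OkW 57 (jb2 57 fl) u13 := .lift s13 _ (.br _ _ _ (.br _ _ _ (.br _ _ _ (.br _ _ _ (.leaf b0 k244 t244) (.leaf b0 k245 t245)) (.br _ _ _ (.leaf b0 k246 t246) (.leaf b0 k247 t247))) (.br _ _ _ (.br _ _ _ (.leaf b0 k248 t248) (.leaf b0 k249 t249)) (.br _ _ _ (.leaf b0 k250 t250) (.leaf b0 k251 t251)))) (.br _ _ _ (.br _ _ _ (.br _ _ _ (.leaf b0 k252 t252) (.leaf b0 k253 t253)) (.br _ _ _ (.leaf b0 k254 t254) (.leaf b0 k255 t255))) (.br _ _ _ (.br _ _ _ (.leaf b0 k256 t256) (.leaf b0 k257 t257)) (.br _ _ _ (.leaf b0 k258 t258) (.leaf b0 k259 t259))))) w13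
noncomputable def k260 : KT := (.br (Nat.shiftLeft (nat_lit 0x1) (nat_lit 113)) (.br (Nat.shiftLeft (nat_lit 0x3) (nat_lit 100)) (.br (Nat.shiftLeft (nat_lit 0x1) (nat_lit 100)) (.one (nat_lit 0x400d010000000801a021400)) (.br (Nat.shiftLeft (nat_lit 0x1) (nat_lit 101)) (.one (nat_lit 0x100400d010000200801a020540)) (.one (nat_lit 0x200400d010000400801a021500)))) (.br (Nat.shiftLeft (nat_lit 0x801) (nat_lit 101)) (.br (Nat.shiftLeft (nat_lit 0x1) (nat_lit 112)) (.one (nat_lit 0x300400d010000600801a021500)) (.one (nat_lit 0x100000400d010200000801a020411))) (.br (Nat.shiftLeft (nat_lit 0x1003) (nat_lit 100)) (.one (nat_lit 0x100200400d010200400801a021600)) (.one (nat_lit 0x100300400d010200600801a021600))))) (.br (Nat.shiftLeft (nat_lit 0x1) (nat_lit 114)) (.br (Nat.shiftLeft (nat_lit 0x1001) (nat_lit 101)) (.one (nat_lit 0x200000400d010400000801a020411)) (.br (Nat.shiftLeft (nat_lit 0x3) (nat_lit 112)) (.one (nat_lit 0x200300400d010400600801a021600)) (.one (nat_lit 0x300000400d010600000801a020411)))) (.br (Nat.shiftLeft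 (nat_lit 0x3) (nat_lit 113)) (.br (Nat.shiftLeft (nat_lit 0x5) (nat_lit 112)) (.one (nat_lit 0x400000400d010800000801a020411)) (.one (nat_lit 0x500000400d010a00000801a020411))) (.br (Nat.shiftLeft (nat_lit 0x7) (nat_lit 112)) (.one (nat_lit 0x600000400d010c00000801a020411)) (.one (nat_lit 0x700000400d010e00000801a020411))))))
def t260 : k260.all (jb2 57 fl b0) = true := by decide +kernel
noncomputable def k261 : KT := (.br (Nat.shiftLeft (nat_lit 0x1) (nat_lit 125)) (.br (Nat.shiftLeft (nat_lit 0x3) (nat_lit 114)) (.br (Nat.shiftLeft (nat_lit 0x5) (nat_lit 113)) (.br (Nat.shiftLeft (nat_lit 0x9) (nat_lit 112)) (.one (nat_lit 0x800000400d010000000801a122411)) (.one (nat_lit 0x900000400d010200000801a122411))) (.br (Nat.shiftLeft (nat_lit 0xb) (nat_lit 112)) (.one (nat_lit 0xa00000400d010400000801a122411)) (.one (nat_lit 0xb00000400d010600000801a122411)))) (.br (Nat.shiftLeft (nat_lit 0x1) (nat_lit 124)) (.br (Nat.shiftLeft (nat_lit 0xd) (nat_lit 112)) (.one (nat_lit 0xc00000400d010800000801a122411)) (.one (nat_lit 0xd00000400d010a00000801a122411)))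 (.br (Nat.shiftLeft (nat_lit 0x1000003) (nat_lit 100)) (.one (nat_lit 0x100000200400d010000400803a420511)) (.br (Nat.shiftLeft (nat_lit 0x801) (nat_lit 113)) (.one (nat_lit 0x100000300400d010000600803a420511)) (.one (nat_lit 0x100200300400d010400600803a421700)))))) (.br (Nat.shiftLeft (nat_lit 0x1) (nat_lit 126)) (.br (Nat.shiftLeft (nat_lit 0x3) (nat_lit 124)) (.br (Nat.shiftLeft (nat_lit 0x2000003) (nat_lit 100)) (.one (nat_lit 0x200000200400d010000400805a820511)) (.one (nat_lit 0x200000300400d010000600805a820511))) (.br (Nat.shiftLeft (nat_lit 0x3000003) (nat_lit 100)) (.one (nat_lit 0x300000200400d010000400807ac20511)) (.one (nat_lit 0x300000300400d010000600807ac20511)))) (.br (Nat.shiftLeft (nat_lit 0x5) (nat_lit 124)) (.br (Nat.shiftLeft (nat_lit 0x4000003) (nat_lit 100)) (.one (nat_lit 0x400000200400d010000400809b020511)) (.one (nat_lit 0x400000300400d010000600809b020511))) (.br (Nat.shiftLeft (nat_lit 0x5000003) (nat_lit 100)) (.one (nat_lit 0x500000200400d01000040080bb420511)) (.br (Nat.shiftLeft (nat_lit 0x3)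 (nat_lit 125)) (.one (nat_lit 0x500000300400d01000060080bb420511)) (.one (nat_lit 0x600000200400d01000040080db820511)))))))
def t261 : k261.all (jb2 57 fl b0) = true := by decide +kernel
noncomputable def k262 : KT := (.br (Nat.shiftLeft (nat_lit 0x7000003) (nat_lit 100)) (.br (Nat.shiftLeft (nat_lit 0x7) (nat_lit 124)) (.one (nat_lit 0x600000300400d01000060080db820511)) (.one (nat_lit 0x700000200400d01000040080fbc20511))) (.br (Nat.shiftLeft (nat_lit 0x1) (nat_lit 127)) (.one (nat_lit 0x700000300400d01000060080fbc20511)) (.one (nat_lit 0x800000200400d010000400811c020511))))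
def t262 : k262.all (jb2 57 fl b0) = true := by decide +kernel
noncomputable def k263 : KT := (.br (Nat.shiftLeft (nat_lit 0x9000003) (nat_lit 100)) (.br (Nat.shiftLeft (nat_lit 0x9) (nat_lit 124)) (.one (nat_lit 0x800000300400d010000600811c020511)) (.one (nat_lit 0x900000200400d010000400813c420511))) (.br (Nat.shiftLeft (nat_lit 0x5) (nat_lit 125)) (.one (nat_lit 0x900000300400d010000600813c420511)) (.br (Nat.shiftLeft (nat_lit 0xa000003) (nat_lit 100)) (.one (nat_lit 0xa00000200400d010000400815c820511)) (.one (nat_lit 0xa00000300400d010000600815c820511)))))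
def t263 : k263.all (jb2 57 fl b0) = true := by decide +kernel
noncomputable def k264 : KT := (.br (Nat.shiftLeft (nat_lit 0x800001) (nat_lit 113)) (.br (Nat.shiftLeft (nat_lit 0xd) (nat_lit 124)) (.br (Nat.shiftLeft (nat_lit 0x3) (nat_lit 126)) (.br (Nat.shiftLeft (nat_lit 0xb000003) (nat_lit 100)) (.one (nat_lit 0xb00000200400d010000400817cc20511)) (.one (nat_lit 0xb00000300400d010000600817cc20511))) (.br (Nat.shiftLeft (nat_lit 0xc000003) (nat_lit 100)) (.one (nat_lit 0xc00000200400d010000400819d020511)) (.one (nat_lit 0xc00000300400d010000600819d020511)))) (.br (Nat.shiftLeft (nat_lit 0x1) (nat_lit 136)) (.br (Nat.shiftLeft (nat_lit 0xd000003) (nat_lit 100)) (.one (nat_lit 0xd00000200400d01000040081bd420511)) (.one (nat_lit 0xd00000300400d01000060081bd420511))) (.br (Nat.shiftLeft (nat_lit 0x1000001003) (nat_lit 100)) (.one (nat_lit 0x100000100200400d010200402841a020611)) (.one (nat_lit 0x100000100300400d010200602841a020611))))) (.br (Nat.shiftLeft (nat_lit 0x3) (nat_lit 136)) (.br (Nat.shiftLeft (nat_lit 0x2000001003)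 (nat_lit 100)) (.br (Nat.shiftLeft (nat_lit 0x1) (nat_lit 137)) (.one (nat_lit 0x100000200300400d010400602841a020611)) (.one (nat_lit 0x200000100200400d010200404881a020611))) (.br (Nat.shiftLeft (nat_lit 0x1000001) (nat_lit 113)) (.one (nat_lit 0x200000100300400d010200604881a020611)) (.one (nat_lit 0x200000200300400d010400604881a020611)))) (.br (Nat.shiftLeft (nat_lit 0x1800001) (nat_lit 113)) (.br (Nat.shiftLeft (nat_lit 0x3000001003) (nat_lit 100)) (.one (nat_lit 0x300000100200400d0102004068c1a020611)) (.one (nat_lit 0x300000100300400d0102006068c1a020611))) (.br (Nat.shiftLeft (nat_lit 0x1) (nat_lit 138)) (.one (nat_lit 0x300000200300400d0104006068c1a020611)) (.one (nat_lit 0x400000100200400d010200408901a020611))))))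
def t264 : k264.all (jb2 57 fl b0) = true := by decide +kernel
noncomputable def k265 : KT := (.br (Nat.shiftLeft (nat_lit 0x5) (nat_lit 136)) (.br (Nat.shiftLeft (nat_lit 0x2000001) (nat_lit 113)) (.one (nat_lit 0x400000100300400d010200608901a020611)) (.one (nat_lit 0x400000200300400d010400608901a020611))) (.br (Nat.shiftLeft (nat_lit 0x5000001003) (nat_lit 100)) (.one (nat_lit 0x500000100200400d01020040a941a020611)) (.one (nat_lit 0x500000100300400d01020060a941a020611))))
def t265 : k265.all (jb2 57 fl b0) = true := by decide +kernel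
noncomputable def k266 : KT := (.br (Nat.shiftLeft (nat_lit 0x3) (nat_lit 137)) (.one (nat_lit 0x500000200300400d01040060a941a020611)) (.br (Nat.shiftLeft (nat_lit 0x6000001003) (nat_lit 100)) (.one (nat_lit 0x600000100200400d01020040c981a020611)) (.one (nat_lit 0x600000100300400d01020060c981a020611))))
def t266 : k266.all (jb2 57 fl b0) = true := by decide +kernel
noncomputable def k267 : KT := (.br (Nat.shiftLeft (nat_lit 0x7) (nat_lit 136)) (.one (nat_lit 0x600000200300400d01040060c981a020611)) (.br (Nat.shiftLeft (nat_lit 0x7000001003) (nat_lit 100)) (.one (nat_lit 0x700000100200400d01020040e9c1a020611)) (.one (nat_lit 0x700000100300400d01020060e9c1a020611))))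
def t267 : k267.all (jb2 57 fl b0) = true := by decide +kernel
noncomputable def k268 : KT := (.br (Nat.shiftLeft (nat_lit 0x1) (nat_lit 139)) (.one (nat_lit 0x700000200300400d01040060e9c1a020611)) (.br (Nat.shiftLeft (nat_lit 0x8000001003) (nat_lit 100)) (.one (nat_lit 0x800000100200400d010200410a01a020611)) (.one (nat_lit 0x800000100300400d010200610a01a020611))))
def t268 : k268.all (jb2 57 fl b0) = true := by decide +kernel
noncomputable def k269 : KT := (.br (Nat.shiftLeft (nat_lit 0x9000001003) (nat_lit 100)) (.br (Nat.shiftLeft (nat_lit 0x9) (nat_lit 136)) (.one (nat_lit 0x800000200300400d010400610a01a020611)) (.one (nat_lit 0x900000100200400d010200412a41a020611))) (.br (Nat.shiftLeft (nat_lit 0x4800001) (nat_lit 113)) (.one (nat_lit 0x900000100300400d010200612a41a020611)) (.one (nat_lit 0x900000200300400d010400612a41a020611))))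
def t269 : k269.all (jb2 57 fl b0) = true := by decide +kernel
noncomputable def k270 : KT := (.br (Nat.shiftLeft (nat_lit 0xb) (nat_lit 136)) (.br (Nat.shiftLeft (nat_lit 0xa000001003) (nat_lit 100)) (.one (nat_lit 0xa00000100200400d010200414a81a020611)) (.br (Nat.shiftLeft (nat_lit 0x5000001) (nat_lit 113)) (.one (nat_lit 0xa00000100300400d010200614a81a020611)) (.one (nat_lit 0xa00000200300400d010400614a81a020611)))) (.br (Nat.shiftLeft (nat_lit 0xb000001003) (nat_lit 100)) (.one (nat_lit 0xb00000100200400d010200416ac1a020611)) (.br (Nat.shiftLeft (nat_lit 0x5800001) (nat_lit 113)) (.one (nat_lit 0xb00000100300400d010200616ac1a020611)) (.one (nat_lit 0xb00000200300400d010400616ac1a020611)))))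
def t270 : k270.all (jb2 57 fl b0) = true := by decide +kernel
noncomputable def k271 : KT := (.br (Nat.shiftLeft (nat_lit 0x6800001) (nat_lit 113)) (.br (Nat.shiftLeft (nat_lit 0x6000001) (nat_lit 113)) (.br (Nat.shiftLeft (nat_lit 0xc000001003) (nat_lit 100)) (.one (nat_lit 0xc00000100200400d010200418b01a020611)) (.one (nat_lit 0xc00000100300400d010200618b01a020611))) (.br (Nat.shiftLeft (nat_lit 0xd) (nat_lit 136)) (.one (nat_lit 0xc00000200300400d010400618b01a020611)) (.br (Nat.shiftLeft (nat_lit 0xd000001003) (nat_lit 100)) (.one (nat_lit 0xd00000100200400d01020041ab41a020611)) (.one (nat_lit 0xd00000100300400d01020061ab41a020611))))) (.br (Nat.shiftLeft (nat_lit 0x3) (nat_lit 148)) (.br (Nat.shiftLeft (nat_lit 0x1) (nat_lit 148)) (.one (nat_lit 0xd00000200300400d01040061ab41a020611)) (.br (Nat.shiftLeft (nat_lit 0x1) (nat_lit 149)) (.one (nat_lit 0x100000100200300400d010402640803a420711)) (.one (nat_lit 0x200000100200300400d010404680803a420711)))) (.br (Nat.shiftLeft (nat_lit 0x1) (nat_lit 150)) (.one (nat_lit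 0x300000100200300400d0104066c0803a420711)) (.br (Nat.shiftLeft (nat_lit 0x5) (nat_lit 148)) (.one (nat_lit 0x400000100200300400d010408700803a420711)) (.one (nat_lit 0x500000100200300400d01040a740803a420711))))))
def t271 : k271.all (jb2 57 fl b0) = true := by decide +kernel
noncomputable def k272 : KT := (.br (Nat.shiftLeft (nat_lit 0x1) (nat_lit 151)) (.br (Nat.shiftLeft (nat_lit 0x7) (nat_lit 148)) (.one (nat_lit 0x600000100200300400d01040c780803a420711)) (.one (nat_lit 0x700000100200300400d01040e7c0803a420711))) (.br (Nat.shiftLeft (nat_lit 0x9) (nat_lit 148)) (.one (nat_lit 0x800000100200300400d010410800803a420711)) (.one (nat_lit 0x900000100200300400d010412840803a420711))))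
def t272 : k272.all (jb2 57 fl b0) = true := by decide +kernel
noncomputable def k273 : KT := (.br (Nat.shiftLeft (nat_lit 0x3) (nat_lit 150)) (.br (Nat.shiftLeft (nat_lit 0xb) (nat_lit 148)) (.one (nat_lit 0xa00000100200300400d010414880803a420711)) (.one (nat_lit 0xb00000100200300400d0104168c0803a420711))) (.br (Nat.shiftLeft (nat_lit 0xd) (nat_lit 148)) (.one (nat_lit 0xc00000100200300400d010418900803a420711)) (.one (nat_lit 0xd00000100200300400d01041a940803a420711))))
def t273 : k273.all (jb2 57 fl b0) = true := by decide +kernel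
noncomputable def s14 : KT := (.br (nat_lit 0x600000100300400d01020060c981a020611) (.br (nat_lit 0x800000200400d010000400811c020511) (.br (nat_lit 0x700000400d010e00000801a020411) k260 (.br (nat_lit 0x600000200400d01000040080db820511) k261 k262)) (.br (nat_lit 0x400000100200400d010200408901a020611) (.br (nat_lit 0xa00000300400d010000600815c820511) k263 k264) (.br (nat_lit 0x500000100300400d01020060a941a020611) k265 k266))) (.br (nat_lit 0x900000200300400d010400612a41a020611) (.br (nat_lit 0x700000100300400d01020060e9c1a020611) k267 (.br (nat_lit 0x800000100300400d010200610a01a020611) k268 k269)) (.br (nat_lit 0x500000100200300400d01040a740803a420711) (.br (nat_lit 0xb00000200300400d010400616ac1a020611) k270 k271) (.br (nat_lit 0x900000100200300400d010412840803a420711) k272 k273))))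
noncomputable def u14 : KT := (.one (nat_lit 0x400d010000000801a020430))
def w14 : u14.all (wj 57 s14) = true := by decide +kernel
def o14 : OkW 57 (jb2 57 fl) u14 := .lift s14 _ (.br _ _ _ (.br _ _ _ (.br _ _ _ (.leaf b0 k260 t260) (.br _ _ _ (.leaf b0 k261 t261) (.leaf b0 k262 t262))) (.br _ _ _ (.br _ _ _ (.leaf b0 k263 t263) (.leaf b0 k264 t264)) (.br _ _ _ (.leaf b0 k265 t265) (.leaf b0 k266 t266)))) (.br _ _ _ (.br _ _ _ (.leaf b0 k267 t267) (.br _ _ _ (.leaf b0 k268 t268) (.leaf b0 k269 t269))) (.br _ _ _ (.br _ _ _ (.leaf b0 k270 t270) (.leaf b0 k271 t271)) (.br _ _ _ (.leaf b0 k272 t272) (.leaf b0 k273 t273))))) w14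
noncomputable def k274 : KT := (.br (Nat.shiftLeft (nat_lit 0x1003) (nat_lit 100)) (.br (Nat.shiftLeft (nat_lit 0x3) (nat_lit 100)) (.br (Nat.shiftLeft (nat_lit 0x1) (nat_lit 100)) (.one (nat_lit 0x400d011000000801a023400)) (.br (Nat.shiftLeft (nat_lit 0x1) (nat_lit 101)) (.one (nat_lit 0x100400d011000200801a022540)) (.one (nat_lit 0x200400d011000400801a023500)))) (.br (Nat.shiftLeft (nat_lit 0x1) (nat_lit 112)) (.one (nat_lit 0x300400d011000600801a023500)) (.br (Nat.shiftLeft (nat_lit 0x801) (nat_lit 101)) (.one (nat_lit 0x100000400d011200000801a022411)) (.one (nat_lit 0x100200400d011200400801a023600))))) (.br (Nat.shiftLeft (nat_lit 0x3) (nat_lit 112)) (.br (Nat.shiftLeft (nat_lit 0x1) (nat_lit 113)) (.one (nat_lit 0x100300400d011200600801a023600)) (.br (Nat.shiftLeft (nat_lit 0x1001) (nat_lit 101)) (.one (nat_lit 0x200000400d011400000801a022411)) (.one (nat_lit 0x200300400d011400600801a023600)))) (.br (Nat.shiftLeft (nat_lit 0x5) (nat_lit 112)) (.br (Nat.shiftLeft (nat_lit 0x1) (nat_lit 114)) (.one (nat_lit 0x300000400d011600000801a022411))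 (.one (nat_lit 0x400000400d011800000801a022411))) (.br (Nat.shiftLeft (nat_lit 0x3) (nat_lit 113)) (.one (nat_lit 0x500000400d011a00000801a022411)) (.one (nat_lit 0x600000400d011c00000801a022411))))))
def t274 : k274.all (jb2 57 fl b0) = true := by decide +kernel
noncomputable def k275 : KT := (.br (Nat.shiftLeft (nat_lit 0x801) (nat_lit 113)) (.br (Nat.shiftLeft (nat_lit 0xb) (nat_lit 112)) (.br (Nat.shiftLeft (nat_lit 0x9) (nat_lit 112)) (.br (Nat.shiftLeft (nat_lit 0x1) (nat_lit 115)) (.one (nat_lit 0x700000400d011e00000801a022411)) (.one (nat_lit 0x800000400d011000000801a124411))) (.br (Nat.shiftLeft (nat_lit 0x5) (nat_lit 113)) (.one (nat_lit 0x900000400d011200000801a124411)) (.one (nat_lit 0xa00000400d011400000801a124411)))) (.br (Nat.shiftLeft (nat_lit 0xd) (nat_lit 112)) (.br (Nat.shiftLeft (nat_lit 0x3) (nat_lit 114)) (.one (nat_lit 0xb00000400d011600000801a124411)) (.one (nat_lit 0xc00000400d011800000801a124411))) (.br (Nat.shiftLeft (nat_lit 0x1) (nat_lit 124)) (.one (nat_lit 0xd00000400d011a00000801a124411))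 (.br (Nat.shiftLeft (nat_lit 0x1000003) (nat_lit 100)) (.one (nat_lit 0x100000200400d011000400803a422511)) (.one (nat_lit 0x100000300400d011000600803a422511)))))) (.br (Nat.shiftLeft (nat_lit 0x1) (nat_lit 126)) (.br (Nat.shiftLeft (nat_lit 0x2000003) (nat_lit 100)) (.br (Nat.shiftLeft (nat_lit 0x1) (nat_lit 125)) (.one (nat_lit 0x100200300400d011400600803a423700)) (.one (nat_lit 0x200000200400d011000400805a822511))) (.br (Nat.shiftLeft (nat_lit 0x3) (nat_lit 124)) (.one (nat_lit 0x200000300400d011000600805a822511)) (.br (Nat.shiftLeft (nat_lit 0x3000003) (nat_lit 100)) (.one (nat_lit 0x300000200400d011000400807ac22511)) (.one (nat_lit 0x300000300400d011000600807ac22511))))) (.br (Nat.shiftLeft (nat_lit 0x5) (nat_lit 124)) (.br (Nat.shiftLeft (nat_lit 0x4000003) (nat_lit 100)) (.one (nat_lit 0x400000200400d011000400809b022511)) (.one (nat_lit 0x400000300400d011000600809b022511))) (.br (Nat.shiftLeft (nat_lit 0x5000003) (nat_lit 100)) (.one (nat_lit 0x500000200400d01100040080bb422511)) (.br (Nat.shiftLeft (nat_lit 0x3)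 (nat_lit 125)) (.one (nat_lit 0x500000300400d01100060080bb422511)) (.one (nat_lit 0x600000200400d01100040080db822511)))))))
def t275 : k275.all (jb2 57 fl b0) = true := by decide +kernel
noncomputable def k276 : KT := (.br (Nat.shiftLeft (nat_lit 0x7000003) (nat_lit 100)) (.br (Nat.shiftLeft (nat_lit 0x7) (nat_lit 124)) (.one (nat_lit 0x600000300400d01100060080db822511)) (.one (nat_lit 0x700000200400d01100040080fbc22511))) (.br (Nat.shiftLeft (nat_lit 0x1) (nat_lit 127)) (.one (nat_lit 0x700000300400d01100060080fbc22511)) (.one (nat_lit 0x800000200400d011000400811c022511))))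
def t276 : k276.all (jb2 57 fl b0) = true := by decide +kernel
noncomputable def k277 : KT := (.br (Nat.shiftLeft (nat_lit 0x9000003) (nat_lit 100)) (.br (Nat.shiftLeft (nat_lit 0x9) (nat_lit 124)) (.one (nat_lit 0x800000300400d011000600811c022511)) (.one (nat_lit 0x900000200400d011000400813c422511))) (.br (Nat.shiftLeft (nat_lit 0x5) (nat_lit 125)) (.one (nat_lit 0x900000300400d011000600813c422511)) (.br (Nat.shiftLeft (nat_lit 0xa000003) (nat_lit 100)) (.one (nat_lit 0xa00000200400d011000400815c822511)) (.one (nat_lit 0xa00000300400d011000600815c822511)))))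
def t277 : k277.all (jb2 57 fl b0) = true := by decide +kernel
noncomputable def k278 : KT := (.br (Nat.shiftLeft (nat_lit 0x800001) (nat_lit 113)) (.br (Nat.shiftLeft (nat_lit 0xd) (nat_lit 124)) (.br (Nat.shiftLeft (nat_lit 0x3) (nat_lit 126)) (.br (Nat.shiftLeft (nat_lit 0xb000003) (nat_lit 100)) (.one (nat_lit 0xb00000200400d011000400817cc22511)) (.one (nat_lit 0xb00000300400d011000600817cc22511))) (.br (Nat.shiftLeft (nat_lit 0xc000003) (nat_lit 100)) (.one (nat_lit 0xc00000200400d011000400819d022511)) (.one (nat_lit 0xc00000300400d011000600819d022511)))) (.br (Nat.shiftLeft (nat_lit 0x1) (nat_lit 136)) (.br (Nat.shiftLeft (nat_lit 0xd000003) (nat_lit 100)) (.one (nat_lit 0xd00000200400d01100040081bd422511)) (.one (nat_lit 0xd00000300400d01100060081bd422511))) (.br (Nat.shiftLeft (nat_lit 0x1000001003) (nat_lit 100)) (.one (nat_lit 0x100000100200400d011200402841a022611)) (.one (nat_lit 0x100000100300400d011200602841a022611))))) (.br (Nat.shiftLeft (nat_lit 0x3) (nat_lit 136)) (.br (Nat.shiftLeft (nat_lit 0x2000001003)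 (nat_lit 100)) (.br (Nat.shiftLeft (nat_lit 0x1) (nat_lit 137)) (.one (nat_lit 0x100000200300400d011400602841a022611)) (.one (nat_lit 0x200000100200400d011200404881a022611))) (.br (Nat.shiftLeft (nat_lit 0x1000001) (nat_lit 113)) (.one (nat_lit 0x200000100300400d011200604881a022611)) (.one (nat_lit 0x200000200300400d011400604881a022611)))) (.br (Nat.shiftLeft (nat_lit 0x1800001) (nat_lit 113)) (.br (Nat.shiftLeft (nat_lit 0x3000001003) (nat_lit 100)) (.one (nat_lit 0x300000100200400d0112004068c1a022611)) (.one (nat_lit 0x300000100300400d0112006068c1a022611))) (.br (Nat.shiftLeft (nat_lit 0x1) (nat_lit 138)) (.one (nat_lit 0x300000200300400d0114006068c1a022611)) (.br (Nat.shiftLeft (nat_lit 0x4000001003) (nat_lit 100)) (.one (nat_lit 0x400000100200400d011200408901a022611)) (.one (nat_lit 0x400000100300400d011200608901a022611)))))))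
def t278 : k278.all (jb2 57 fl b0) = true := by decide +kernel
noncomputable def k279 : KT := (.br (Nat.shiftLeft (nat_lit 0x5000001003) (nat_lit 100)) (.br (Nat.shiftLeft (nat_lit 0x5) (nat_lit 136)) (.one (nat_lit 0x400000200300400d011400608901a022611)) (.one (nat_lit 0x500000100200400d01120040a941a022611))) (.br (Nat.shiftLeft (nat_lit 0x2800001) (nat_lit 113)) (.one (nat_lit 0x500000100300400d01120060a941a022611)) (.one (nat_lit 0x500000200300400d01140060a941a022611))))
def t279 : k279.all (jb2 57 fl b0) = true := by decide +kernel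
noncomputable def k280 : KT := (.br (Nat.shiftLeft (nat_lit 0x6000001003) (nat_lit 100)) (.one (nat_lit 0x600000100200400d01120040c981a022611)) (.br (Nat.shiftLeft (nat_lit 0x3000001) (nat_lit 113)) (.one (nat_lit 0x600000100300400d01120060c981a022611)) (.one (nat_lit 0x600000200300400d01140060c981a022611))))
def t280 : k280.all (jb2 57 fl b0) = true := by decide +kernel
noncomputable def k281 : KT := (.br (Nat.shiftLeft (nat_lit 0x7000001003) (nat_lit 100)) (.one (nat_lit 0x700000100200400d01120040e9c1a022611)) (.br (Nat.shiftLeft (nat_lit 0x3800001) (nat_lit 113)) (.one (nat_lit 0x700000100300400d01120060e9c1a022611)) (.one (nat_lit 0x700000200300400d01140060e9c1a022611))))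
def t281 : k281.all (jb2 57 fl b0) = true := by decide +kernel
noncomputable def k282 : KT := (.br (Nat.shiftLeft (nat_lit 0x8000001003) (nat_lit 100)) (.one (nat_lit 0x800000100200400d011200410a01a022611)) (.br (Nat.shiftLeft (nat_lit 0x4000001) (nat_lit 113)) (.one (nat_lit 0x800000100300400d011200610a01a022611)) (.one (nat_lit 0x800000200300400d011400610a01a022611))))
def t282 : k282.all (jb2 57 fl b0) = true := by decide +kernel
noncomputable def k283 : KT := (.br (Nat.shiftLeft (nat_lit 0x4800001) (nat_lit 113)) (.br (Nat.shiftLeft (nat_lit 0x9000001003) (nat_lit 100)) (.one (nat_lit 0x900000100200400d011200412a41a022611)) (.one (nat_lit 0x900000100300400d011200612a41a022611))) (.br (Nat.shiftLeft (nat_lit 0x5) (nat_lit 137)) (.one (nat_lit 0x900000200300400d011400612a41a022611)) (.br (Nat.shiftLeft (nat_lit 0xa000001003) (nat_lit 100)) (.one (nat_lit 0xa00000100200400d011200414a81a022611)) (.one (nat_lit 0xa00000100300400d011200614a81a022611)))))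
def t283 : k283.all (jb2 57 fl b0) = true := by decide +kernel
noncomputable def k284 : KT := (.br (Nat.shiftLeft (nat_lit 0xd) (nat_lit 136)) (.br (Nat.shiftLeft (nat_lit 0x5800001) (nat_lit 113)) (.br (Nat.shiftLeft (nat_lit 0xb) (nat_lit 136)) (.one (nat_lit 0xa00000200300400d011400614a81a022611)) (.br (Nat.shiftLeft (nat_lit 0xb000001003) (nat_lit 100)) (.one (nat_lit 0xb00000100200400d011200416ac1a022611)) (.one (nat_lit 0xb00000100300400d011200616ac1a022611)))) (.br (Nat.shiftLeft (nat_lit 0xc000001003) (nat_lit 100)) (.br (Nat.shiftLeft (nat_lit 0x3) (nat_lit 138)) (.one (nat_lit 0xb00000200300400d011400616ac1a022611)) (.one (nat_lit 0xc00000100200400d011200418b01a022611))) (.br (Nat.shiftLeft (nat_lit 0x6000001) (nat_lit 113)) (.one (nat_lit 0xc00000100300400d011200618b01a022611)) (.one (nat_lit 0xc00000200300400d011400618b01a022611))))) (.br (Nat.shiftLeft (nat_lit 0x1) (nat_lit 148)) (.br (Nat.shiftLeft (nat_lit 0xd000001003) (nat_lit 100)) (.one (nat_lit 0xd00000100200400d01120041ab41a022611)) (.br (Nat.shiftLeft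 (nat_lit 0x6800001) (nat_lit 113)) (.one (nat_lit 0xd00000100300400d01120061ab41a022611)) (.one (nat_lit 0xd00000200300400d01140061ab41a022611)))) (.br (Nat.shiftLeft (nat_lit 0x3) (nat_lit 148)) (.br (Nat.shiftLeft (nat_lit 0x1) (nat_lit 149)) (.one (nat_lit 0x100000100200300400d011402640803a422711)) (.one (nat_lit 0x200000100200300400d011404680803a422711))) (.br (Nat.shiftLeft (nat_lit 0x1) (nat_lit 150)) (.one (nat_lit 0x300000100200300400d0114066c0803a422711)) (.one (nat_lit 0x400000100200300400d011408700803a422711))))))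
def t284 : k284.all (jb2 57 fl b0) = true := by decide +kernel
noncomputable def k285 : KT := (.br (Nat.shiftLeft (nat_lit 0x7) (nat_lit 148)) (.br (Nat.shiftLeft (nat_lit 0x3) (nat_lit 149)) (.one (nat_lit 0x500000100200300400d01140a740803a422711)) (.one (nat_lit 0x600000100200300400d01140c780803a422711))) (.br (Nat.shiftLeft (nat_lit 0x1) (nat_lit 151)) (.one (nat_lit 0x700000100200300400d01140e7c0803a422711)) (.br (Nat.shiftLeft (nat_lit 0x9) (nat_lit 148)) (.one (nat_lit 0x800000100200300400d011410800803a422711)) (.one (nat_lit 0x900000100200300400d011412840803a422711)))))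
def t285 : k285.all (jb2 57 fl b0) = true := by decide +kernel
noncomputable def k286 : KT := (.br (Nat.shiftLeft (nat_lit 0x3) (nat_lit 150)) (.br (Nat.shiftLeft (nat_lit 0xb) (nat_lit 148)) (.one (nat_lit 0xa00000100200300400d011414880803a422711)) (.one (nat_lit 0xb00000100200300400d0114168c0803a422711))) (.br (Nat.shiftLeft (nat_lit 0xd) (nat_lit 148)) (.one (nat_lit 0xc00000100200300400d011418900803a422711)) (.one (nat_lit 0xd00000100200300400d01141a940803a422711))))
def t286 : k286.all (jb2 57 fl b0) = true := by decide +kernel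
noncomputable def s15 : KT := (.br (nat_lit 0x500000200300400d01140060a941a022611) (.br (nat_lit 0x800000200400d011000400811c022511) (.br (nat_lit 0x600000400d011c00000801a022411) k274 (.br (nat_lit 0x600000200400d01100040080db822511) k275 k276)) (.br (nat_lit 0xa00000300400d011000600815c822511) k277 (.br (nat_lit 0x400000100300400d011200608901a022611) k278 k279))) (.br (nat_lit 0x800000200300400d011400610a01a022611) (.br (nat_lit 0x600000200300400d01140060c981a022611) k280 (.br (nat_lit 0x700000200300400d01140060e9c1a022611) k281 k282)) (.br (nat_lit 0x400000100200300400d011408700803a422711) (.br (nat_lit 0xa00000100300400d011200614a81a022611) k283 k284) (.br (nat_lit 0x900000100200300400d011412840803a422711) k285 k286))))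
noncomputable def u15 : KT := (.one (nat_lit 0x400d011000000801a022430))
def w15 : u15.all (wj 57 s15) = true := by decide +kernel
def o15 : OkW 57 (jb2 57 fl) u15 := .lift s15 _ (.br _ _ _ (.br _ _ _ (.br _ _ _ (.leaf b0 k274 t274) (.br _ _ _ (.leaf b0 k275 t275) (.leaf b0 k276 t276))) (.br _ _ _ (.leaf b0 k277 t277) (.br _ _ _ (.leaf b0 k278 t278) (.leaf b0 k279 t279)))) (.br _ _ _ (.br _ _ _ (.leaf b0 k280 t280) (.br _ _ _ (.leaf b0 k281 t281) (.leaf b0 k282 t282))) (.br _ _ _ (.br _ _ _ (.leaf b0 k283 t283) (.leaf b0 k284 t284)) (.br _ _ _ (.leaf b0 k285 t285) (.leaf b0 k286 t286))))) w15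
noncomputable def k287 : KT := (.br (Nat.shiftLeft (nat_lit 0x400d013) (nat_lit 64)) (.one (nat_lit 0x400d012000000801a025400)) (.br (Nat.shiftLeft (nat_lit 0x1) (nat_lit 100)) (.one (nat_lit 0x400d013000000801a027400)) (.one (nat_lit 0x100400d012000200801a024540))))
def t287 : k287.all (jb2 57 fl b0) = true := by decide +kernel
noncomputable def k288 : KT := (.br (Nat.shiftLeft (nat_lit 0x100300400d013) (nat_lit 64)) (.br (Nat.shiftLeft (nat_lit 0x1) (nat_lit 112)) (.br (Nat.shiftLeft (nat_lit 0x200400d013) (nat_lit 64)) (.br (Nat.shiftLeft (nat_lit 0x1) (nat_lit 101)) (.one (nat_lit 0x100400d013000200801a026540)) (.one (nat_lit 0x200400d012000400801a025500))) (.br (Nat.shiftLeft (nat_lit 0x3) (nat_lit 100)) (.one (nat_lit 0x200400d013000400801a027500)) (.br (Nat.shiftLeft (nat_lit 0x300400d013) (nat_lit 64)) (.one (nat_lit 0x300400d012000600801a025500)) (.one (nat_lit 0x300400d013000600801a027500))))) (.br (Nat.shiftLeft (nat_lit 0x801) (nat_lit 101)) (.br (Nat.shiftLeft (nat_lit 0x100000400d013) (nat_lit 64)) (.one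 (nat_lit 0x100000400d012200000801a024411)) (.one (nat_lit 0x100000400d013200000801a026411))) (.br (Nat.shiftLeft (nat_lit 0x100200400d013) (nat_lit 64)) (.one (nat_lit 0x100200400d012200400801a025600)) (.br (Nat.shiftLeft (nat_lit 0x1003) (nat_lit 100)) (.one (nat_lit 0x100200400d013200400801a027600)) (.one (nat_lit 0x100300400d012200600801a025600)))))) (.br (Nat.shiftLeft (nat_lit 0x3) (nat_lit 112)) (.br (Nat.shiftLeft (nat_lit 0x200000400d013) (nat_lit 64)) (.br (Nat.shiftLeft (nat_lit 0x1) (nat_lit 113)) (.one (nat_lit 0x100300400d013200600801a027600)) (.one (nat_lit 0x200000400d012400000801a024411))) (.br (Nat.shiftLeft (nat_lit 0x1001) (nat_lit 101)) (.one (nat_lit 0x200000400d013400000801a026411)) (.br (Nat.shiftLeft (nat_lit 0x200300400d013) (nat_lit 64)) (.one (nat_lit 0x200300400d012400600801a025600)) (.one (nat_lit 0x200300400d013400600801a027600))))) (.br (Nat.shiftLeft (nat_lit 0x400000400d013) (nat_lit 64)) (.br (Nat.shiftLeft (nat_lit 0x300000400d013) (nat_lit 64)) (.one (nat_lit 0x300000400d012600000801a024411))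 (.br (Nat.shiftLeft (nat_lit 0x1) (nat_lit 114)) (.one (nat_lit 0x300000400d013600000801a026411)) (.one (nat_lit 0x400000400d012800000801a024411)))) (.br (Nat.shiftLeft (nat_lit 0x5) (nat_lit 112)) (.one (nat_lit 0x400000400d013800000801a026411)) (.br (Nat.shiftLeft (nat_lit 0x500000400d013) (nat_lit 64)) (.one (nat_lit 0x500000400d012a00000801a024411)) (.one (nat_lit 0x500000400d013a00000801a026411)))))))
def t288 : k288.all (jb2 57 fl b0) = true := by decide +kernel
noncomputable def k289 : KT := (.br (Nat.shiftLeft (nat_lit 0xb) (nat_lit 112)) (.br (Nat.shiftLeft (nat_lit 0x800000400d013) (nat_lit 64)) (.br (Nat.shiftLeft (nat_lit 0x7) (nat_lit 112)) (.br (Nat.shiftLeft (nat_lit 0x600000400d013) (nat_lit 64)) (.one (nat_lit 0x600000400d012c00000801a024411)) (.one (nat_lit 0x600000400d013c00000801a026411))) (.br (Nat.shiftLeft (nat_lit 0x700000400d013) (nat_lit 64)) (.one (nat_lit 0x700000400d012e00000801a024411)) (.br (Nat.shiftLeft (nat_lit 0x1) (nat_lit 115)) (.one (nat_lit 0x700000400d013e00000801a026411)) (.one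 (nat_lit 0x800000400d012000000801a126411))))) (.br (Nat.shiftLeft (nat_lit 0x900000400d013) (nat_lit 64)) (.br (Nat.shiftLeft (nat_lit 0x9) (nat_lit 112)) (.one (nat_lit 0x800000400d013000000801a128411)) (.one (nat_lit 0x900000400d012200000801a126411))) (.br (Nat.shiftLeft (nat_lit 0x5) (nat_lit 113)) (.one (nat_lit 0x900000400d013200000801a128411)) (.br (Nat.shiftLeft (nat_lit 0xa00000400d013) (nat_lit 64)) (.one (nat_lit 0xa00000400d012400000801a126411)) (.one (nat_lit 0xa00000400d013400000801a128411)))))) (.br (Nat.shiftLeft (nat_lit 0xd00000400d013) (nat_lit 64)) (.br (Nat.shiftLeft (nat_lit 0x3) (nat_lit 114)) (.br (Nat.shiftLeft (nat_lit 0xb00000400d013) (nat_lit 64)) (.one (nat_lit 0xb00000400d012600000801a126411)) (.one (nat_lit 0xb00000400d013600000801a128411))) (.br (Nat.shiftLeft (nat_lit 0xc00000400d013) (nat_lit 64)) (.one (nat_lit 0xc00000400d012800000801a126411)) (.br (Nat.shiftLeft (nat_lit 0xd) (nat_lit 112)) (.one (nat_lit 0xc00000400d013800000801a128411)) (.one (nat_lit 0xd00000400d012a00000801a126411)))))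 (.br (Nat.shiftLeft (nat_lit 0x1000003) (nat_lit 100)) (.br (Nat.shiftLeft (nat_lit 0x1) (nat_lit 124)) (.one (nat_lit 0xd00000400d013a00000801a128411)) (.br (Nat.shiftLeft (nat_lit 0x100000200400d013) (nat_lit 64)) (.one (nat_lit 0x100000200400d012000400803a424511)) (.one (nat_lit 0x100000200400d013000400803a426511)))) (.br (Nat.shiftLeft (nat_lit 0x100000300400d013) (nat_lit 64)) (.one (nat_lit 0x100000300400d012000600803a424511)) (.br (Nat.shiftLeft (nat_lit 0x801) (nat_lit 113)) (.one (nat_lit 0x100000300400d013000600803a426511)) (.one (nat_lit 0x100200300400d012400600803a425700)))))))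
def t289 : k289.all (jb2 57 fl b0) = true := by decide +kernel
noncomputable def k290 : KT := (.br (Nat.shiftLeft (nat_lit 0x3) (nat_lit 124)) (.br (Nat.shiftLeft (nat_lit 0x200000200400d013) (nat_lit 64)) (.br (Nat.shiftLeft (nat_lit 0x1) (nat_lit 125)) (.one (nat_lit 0x100200300400d013400600803a426760)) (.one (nat_lit 0x200000200400d012000400805a824511))) (.br (Nat.shiftLeft (nat_lit 0x2000003) (nat_lit 100)) (.one (nat_lit 0x200000200400d013000400805a826511)) (.br (Nat.shiftLeft (nat_lit 0x200000300400d013) (nat_lit 64)) (.one (nat_lit 0x200000300400d012000600805a824511)) (.one (nat_lit 0x200000300400d013000600805a826511))))) (.br (Nat.shiftLeft (nat_lit 0x300000300400d013) (nat_lit 64)) (.br (Nat.shiftLeft (nat_lit 0x300000200400d013) (nat_lit 64)) (.one (nat_lit 0x300000200400d012000400807ac24511)) (.br (Nat.shiftLeft (nat_lit 0x3000003) (nat_lit 100)) (.one (nat_lit 0x300000200400d013000400807ac26511)) (.one (nat_lit 0x300000300400d012000600807ac24511)))) (.br (Nat.shiftLeft (nat_lit 0x1) (nat_lit 126)) (.one (nat_lit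 0x300000300400d013000600807ac26511)) (.br (Nat.shiftLeft (nat_lit 0x400000200400d013) (nat_lit 64)) (.one (nat_lit 0x400000200400d012000400809b024511)) (.one (nat_lit 0x400000200400d013000400809b026511))))))
def t290 : k290.all (jb2 57 fl b0) = true := by decide +kernel
noncomputable def k291 : KT := (.br (Nat.shiftLeft (nat_lit 0x500000200400d013) (nat_lit 64)) (.br (Nat.shiftLeft (nat_lit 0x400000300400d013) (nat_lit 64)) (.one (nat_lit 0x400000300400d012000600809b024511)) (.br (Nat.shiftLeft (nat_lit 0x5) (nat_lit 124)) (.one (nat_lit 0x400000300400d013000600809b026511)) (.one (nat_lit 0x500000200400d01200040080bb424511)))) (.br (Nat.shiftLeft (nat_lit 0x500000300400d013) (nat_lit 64)) (.br (Nat.shiftLeft (nat_lit 0x5000003) (nat_lit 100)) (.one (nat_lit 0x500000200400d01300040080bb426511)) (.one (nat_lit 0x500000300400d01200060080bb424511))) (.br (Nat.shiftLeft (nat_lit 0x3) (nat_lit 125)) (.one (nat_lit 0x500000300400d01300060080bb426511)) (.one (nat_lit 0x600000200400d01200040080db824511)))))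
def t291 : k291.all (jb2 57 fl b0) = true := by decide +kernel
noncomputable def k292 : KT := (.br (Nat.shiftLeft (nat_lit 0x7) (nat_lit 124)) (.br (Nat.shiftLeft (nat_lit 0x6000003) (nat_lit 100)) (.one (nat_lit 0x600000200400d01300040080db826511)) (.br (Nat.shiftLeft (nat_lit 0x600000300400d013) (nat_lit 64)) (.one (nat_lit 0x600000300400d01200060080db824511)) (.one (nat_lit 0x600000300400d01300060080db826511)))) (.br (Nat.shiftLeft (nat_lit 0x700000200400d013) (nat_lit 64)) (.one (nat_lit 0x700000200400d01200040080fbc24511)) (.br (Nat.shiftLeft (nat_lit 0x7000003) (nat_lit 100)) (.one (nat_lit 0x700000200400d01300040080fbc26511)) (.one (nat_lit 0x700000300400d01200060080fbc24511)))))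
def t292 : k292.all (jb2 57 fl b0) = true := by decide +kernel
noncomputable def k293 : KT := (.br (Nat.shiftLeft (nat_lit 0x800000200400d013) (nat_lit 64)) (.br (Nat.shiftLeft (nat_lit 0x1) (nat_lit 127)) (.one (nat_lit 0x700000300400d01300060080fbc26511)) (.one (nat_lit 0x800000200400d012000400811c024511))) (.br (Nat.shiftLeft (nat_lit 0x8000003) (nat_lit 100)) (.one (nat_lit 0x800000200400d013000400811c026511)) (.br (Nat.shiftLeft (nat_lit 0x800000300400d013) (nat_lit 64)) (.one (nat_lit 0x800000300400d012000600811c024511)) (.one (nat_lit 0x800000300400d013000600811c026511)))))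
def t293 : k293.all (jb2 57 fl b0) = true := by decide +kernel
noncomputable def k294 : KT := (.br (Nat.shiftLeft (nat_lit 0x900000300400d013) (nat_lit 64)) (.br (Nat.shiftLeft (nat_lit 0x900000200400d013) (nat_lit 64)) (.one (nat_lit 0x900000200400d012000400813c424511)) (.br (Nat.shiftLeft (nat_lit 0x9000003) (nat_lit 100)) (.one (nat_lit 0x900000200400d013000400813c426511)) (.one (nat_lit 0x900000300400d012000600813c424511)))) (.br (Nat.shiftLeft (nat_lit 0x5) (nat_lit 125)) (.one (nat_lit 0x900000300400d013000600813c426511)) (.br (Nat.shiftLeft (nat_lit 0xa00000200400d013) (nat_lit 64)) (.one (nat_lit 0xa00000200400d012000400815c824511)) (.one (nat_lit 0xa00000200400d013000400815c826511)))))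
def t294 : k294.all (jb2 57 fl b0) = true := by decide +kernel
noncomputable def k295 : KT := (.br (Nat.shiftLeft (nat_lit 0xb00000300400d013) (nat_lit 64)) (.br (Nat.shiftLeft (nat_lit 0xb) (nat_lit 124)) (.br (Nat.shiftLeft (nat_lit 0xa00000300400d013) (nat_lit 64)) (.one (nat_lit 0xa00000300400d012000600815c824511)) (.one (nat_lit 0xa00000300400d013000600815c826511))) (.br (Nat.shiftLeft (nat_lit 0xb00000200400d013) (nat_lit 64)) (.one (nat_lit 0xb00000200400d012000400817cc24511)) (.br (Nat.shiftLeft (nat_lit 0xb000003) (nat_lit 100)) (.one (nat_lit 0xb00000200400d013000400817cc26511)) (.one (nat_lit 0xb00000300400d012000600817cc24511))))) (.br (Nat.shiftLeft (nat_lit 0xc00000200400d013) (nat_lit 64)) (.br (Nat.shiftLeft (nat_lit 0x3) (nat_lit 126)) (.one (nat_lit 0xb00000300400d013000600817cc26511)) (.one (nat_lit 0xc00000200400d012000400819d024511))) (.br (Nat.shiftLeft (nat_lit 0xc000003) (nat_lit 100)) (.one (nat_lit 0xc00000200400d013000400819d026511)) (.br (Nat.shiftLeft (nat_lit 0xc00000300400d013) (nat_lit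 64)) (.one (nat_lit 0xc00000300400d012000600819d024511)) (.one (nat_lit 0xc00000300400d013000600819d026511))))))
def t295 : k295.all (jb2 57 fl b0) = true := by decide +kernel
noncomputable def k296 : KT := (.br (Nat.shiftLeft (nat_lit 0x1000001) (nat_lit 113)) (.br (Nat.shiftLeft (nat_lit 0x100000100300400d013) (nat_lit 64)) (.br (Nat.shiftLeft (nat_lit 0xd00000300400d013) (nat_lit 64)) (.br (Nat.shiftLeft (nat_lit 0xd00000200400d013) (nat_lit 64)) (.one (nat_lit 0xd00000200400d01200040081bd424511)) (.br (Nat.shiftLeft (nat_lit 0xd000003) (nat_lit 100)) (.one (nat_lit 0xd00000200400d01300040081bd426511)) (.one (nat_lit 0xd00000300400d01200060081bd424511)))) (.br (Nat.shiftLeft (nat_lit 0x100000100200400d013) (nat_lit 64)) (.br (Nat.shiftLeft (nat_lit 0x1) (nat_lit 136)) (.one (nat_lit 0xd00000300400d01300060081bd426511)) (.one (nat_lit 0x100000100200400d012200402841a024611))) (.br (Nat.shiftLeft (nat_lit 0x1000001003) (nat_lit 100)) (.one (nat_lit 0x100000100200400d013200402841a026611)) (.one (nat_lit 0x100000100300400d012200602841a024611)))))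 (.br (Nat.shiftLeft (nat_lit 0x1) (nat_lit 137)) (.br (Nat.shiftLeft (nat_lit 0x800001) (nat_lit 113)) (.one (nat_lit 0x100000100300400d013200602841a026611)) (.br (Nat.shiftLeft (nat_lit 0x100000200300400d013) (nat_lit 64)) (.one (nat_lit 0x100000200300400d012400602841a024611)) (.one (nat_lit 0x100000200300400d013400602841a026611)))) (.br (Nat.shiftLeft (nat_lit 0x2000001003) (nat_lit 100)) (.br (Nat.shiftLeft (nat_lit 0x200000100200400d013) (nat_lit 64)) (.one (nat_lit 0x200000100200400d012200404881a024611)) (.one (nat_lit 0x200000100200400d013200404881a026611))) (.br (Nat.shiftLeft (nat_lit 0x200000100300400d013) (nat_lit 64)) (.one (nat_lit 0x200000100300400d012200604881a024611)) (.one (nat_lit 0x200000100300400d013200604881a026611)))))) (.br (Nat.shiftLeft (nat_lit 0x300000200300400d013) (nat_lit 64)) (.br (Nat.shiftLeft (nat_lit 0x300000100200400d013) (nat_lit 64)) (.br (Nat.shiftLeft (nat_lit 0x200000200300400d013) (nat_lit 64)) (.one (nat_lit 0x200000200300400d012400604881a024611)) (.br (Nat.shiftLeft (nat_lit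 0x3) (nat_lit 136)) (.one (nat_lit 0x200000200300400d013400604881a026611)) (.one (nat_lit 0x300000100200400d0122004068c1a024611)))) (.br (Nat.shiftLeft (nat_lit 0x300000100300400d013) (nat_lit 64)) (.br (Nat.shiftLeft (nat_lit 0x3000001003) (nat_lit 100)) (.one (nat_lit 0x300000100200400d0132004068c1a026611)) (.one (nat_lit 0x300000100300400d0122006068c1a024611))) (.br (Nat.shiftLeft (nat_lit 0x1800001) (nat_lit 113)) (.one (nat_lit 0x300000100300400d0132006068c1a026611)) (.one (nat_lit 0x300000200300400d0124006068c1a024611))))) (.br (Nat.shiftLeft (nat_lit 0x4000001003) (nat_lit 100)) (.br (Nat.shiftLeft (nat_lit 0x1) (nat_lit 138)) (.one (nat_lit 0x300000200300400d0134006068c1a026611)) (.br (Nat.shiftLeft (nat_lit 0x400000100200400d013) (nat_lit 64)) (.one (nat_lit 0x400000100200400d012200408901a024611)) (.one (nat_lit 0x400000100200400d013200408901a026611)))) (.br (Nat.shiftLeft (nat_lit 0x2000001) (nat_lit 113)) (.br (Nat.shiftLeft (nat_lit 0x400000100300400d013) (nat_lit 64)) (.one (nat_lit 0x400000100300400d012200608901a024611))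 (.one (nat_lit 0x400000100300400d013200608901a026611))) (.br (Nat.shiftLeft (nat_lit 0x400000200300400d013) (nat_lit 64)) (.one (nat_lit 0x400000200300400d012400608901a024611)) (.one (nat_lit 0x400000200300400d013400608901a026611)))))))
def t296 : k296.all (jb2 57 fl b0) = true := by decide +kernel
noncomputable def k297 : KT := (.br (Nat.shiftLeft (nat_lit 0x5000001003) (nat_lit 100)) (.br (Nat.shiftLeft (nat_lit 0x500000100200400d013) (nat_lit 64)) (.one (nat_lit 0x500000100200400d01220040a941a024611)) (.one (nat_lit 0x500000100200400d01320040a941a026611))) (.br (Nat.shiftLeft (nat_lit 0x500000100300400d013) (nat_lit 64)) (.one (nat_lit 0x500000100300400d01220060a941a024611)) (.one (nat_lit 0x500000100300400d01320060a941a026611))))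
def t297 : k297.all (jb2 57 fl b0) = true := by decide +kernel
noncomputable def k298 : KT := (.br (Nat.shiftLeft (nat_lit 0x3) (nat_lit 137)) (.br (Nat.shiftLeft (nat_lit 0x500000200300400d013) (nat_lit 64)) (.one (nat_lit 0x500000200300400d01240060a941a024611)) (.one (nat_lit 0x500000200300400d01340060a941a026611))) (.br (Nat.shiftLeft (nat_lit 0x600000100200400d013) (nat_lit 64)) (.one (nat_lit 0x600000100200400d01220040c981a024611)) (.one (nat_lit 0x600000100200400d01320040c981a026611))))
def t298 : k298.all (jb2 57 fl b0) = true := by decide +kernel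
noncomputable def k299 : KT := (.br (Nat.shiftLeft (nat_lit 0x3000001) (nat_lit 113)) (.br (Nat.shiftLeft (nat_lit 0x600000100300400d013) (nat_lit 64)) (.one (nat_lit 0x600000100300400d01220060c981a024611)) (.one (nat_lit 0x600000100300400d01320060c981a026611))) (.br (Nat.shiftLeft (nat_lit 0x600000200300400d013) (nat_lit 64)) (.one (nat_lit 0x600000200300400d01240060c981a024611)) (.one (nat_lit 0x600000200300400d01340060c981a026611))))
def t299 : k299.all (jb2 57 fl b0) = true := by decide +kernel
noncomputable def k300 : KT := (.br (Nat.shiftLeft (nat_lit 0x7000001003) (nat_lit 100)) (.br (Nat.shiftLeft (nat_lit 0x700000100200400d013) (nat_lit 64)) (.one (nat_lit 0x700000100200400d01220040e9c1a024611)) (.one (nat_lit 0x700000100200400d01320040e9c1a026611))) (.br (Nat.shiftLeft (nat_lit 0x700000100300400d013) (nat_lit 64)) (.one (nat_lit 0x700000100300400d01220060e9c1a024611)) (.one (nat_lit 0x700000100300400d01320060e9c1a026611))))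
def t300 : k300.all (jb2 57 fl b0) = true := by decide +kernel
noncomputable def k301 : KT := (.br (Nat.shiftLeft (nat_lit 0x1) (nat_lit 139)) (.br (Nat.shiftLeft (nat_lit 0x700000200300400d013) (nat_lit 64)) (.one (nat_lit 0x700000200300400d01240060e9c1a024611)) (.one (nat_lit 0x700000200300400d01340060e9c1a026611))) (.br (Nat.shiftLeft (nat_lit 0x800000100200400d013) (nat_lit 64)) (.one (nat_lit 0x800000100200400d012200410a01a024611)) (.br (Nat.shiftLeft (nat_lit 0x8000001003) (nat_lit 100)) (.one (nat_lit 0x800000100200400d013200410a01a026611)) (.one (nat_lit 0x800000100300400d012200610a01a024611)))))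
def t301 : k301.all (jb2 57 fl b0) = true := by decide +kernel
noncomputable def k302 : KT := (.br (Nat.shiftLeft (nat_lit 0x800000200300400d013) (nat_lit 64)) (.br (Nat.shiftLeft (nat_lit 0x4000001) (nat_lit 113)) (.one (nat_lit 0x800000100300400d013200610a01a026611)) (.one (nat_lit 0x800000200300400d012400610a01a024611))) (.br (Nat.shiftLeft (nat_lit 0x9) (nat_lit 136)) (.one (nat_lit 0x800000200300400d013400610a01a026611)) (.br (Nat.shiftLeft (nat_lit 0x900000100200400d013) (nat_lit 64)) (.one (nat_lit 0x900000100200400d012200412a41a024611)) (.one (nat_lit 0x900000100200400d013200412a41a026611)))))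
def t302 : k302.all (jb2 57 fl b0) = true := by decide +kernel
noncomputable def k303 : KT := (.br (Nat.shiftLeft (nat_lit 0x900000200300400d013) (nat_lit 64)) (.br (Nat.shiftLeft (nat_lit 0x900000100300400d013) (nat_lit 64)) (.one (nat_lit 0x900000100300400d012200612a41a024611)) (.br (Nat.shiftLeft (nat_lit 0x4800001) (nat_lit 113)) (.one (nat_lit 0x900000100300400d013200612a41a026611)) (.one (nat_lit 0x900000200300400d012400612a41a024611)))) (.br (Nat.shiftLeft (nat_lit 0xa00000100200400d013) (nat_lit 64)) (.br (Nat.shiftLeft (nat_lit 0x5) (nat_lit 137)) (.one (nat_lit 0x900000200300400d013400612a41a026611)) (.one (nat_lit 0xa00000100200400d012200414a81a024611))) (.br (Nat.shiftLeft (nat_lit 0xa000001003) (nat_lit 100)) (.one (nat_lit 0xa00000100200400d013200414a81a026611)) (.one (nat_lit 0xa00000100300400d012200614a81a024611)))))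
def t303 : k303.all (jb2 57 fl b0) = true := by decide +kernel
noncomputable def k304 : KT := (.br (Nat.shiftLeft (nat_lit 0xb00000100300400d013) (nat_lit 64)) (.br (Nat.shiftLeft (nat_lit 0xb) (nat_lit 136)) (.br (Nat.shiftLeft (nat_lit 0x5000001) (nat_lit 113)) (.one (nat_lit 0xa00000100300400d013200614a81a026611)) (.br (Nat.shiftLeft (nat_lit 0xa00000200300400d013) (nat_lit 64)) (.one (nat_lit 0xa00000200300400d012400614a81a024611)) (.one (nat_lit 0xa00000200300400d013400614a81a026611)))) (.br (Nat.shiftLeft (nat_lit 0xb00000100200400d013) (nat_lit 64)) (.one (nat_lit 0xb00000100200400d012200416ac1a024611)) (.br (Nat.shiftLeft (nat_lit 0xb000001003) (nat_lit 100)) (.one (nat_lit 0xb00000100200400d013200416ac1a026611)) (.one (nat_lit 0xb00000100300400d012200616ac1a024611))))) (.br (Nat.shiftLeft (nat_lit 0x3) (nat_lit 138)) (.br (Nat.shiftLeft (nat_lit 0x5800001) (nat_lit 113)) (.one (nat_lit 0xb00000100300400d013200616ac1a026611)) (.br (Nat.shiftLeft (nat_lit 0xb00000200300400d013) (nat_lit 64)) (.one (nat_lit 0xb00000200300400d012400616ac1a024611))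 (.one (nat_lit 0xb00000200300400d013400616ac1a026611)))) (.br (Nat.shiftLeft (nat_lit 0xc000001003) (nat_lit 100)) (.br (Nat.shiftLeft (nat_lit 0xc00000100200400d013) (nat_lit 64)) (.one (nat_lit 0xc00000100200400d012200418b01a024611)) (.one (nat_lit 0xc00000100200400d013200418b01a026611))) (.br (Nat.shiftLeft (nat_lit 0xc00000100300400d013) (nat_lit 64)) (.one (nat_lit 0xc00000100300400d012200618b01a024611)) (.one (nat_lit 0xc00000100300400d013200618b01a026611))))))
def t304 : k304.all (jb2 57 fl b0) = true := by decide +kernel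
noncomputable def k305 : KT := (.br (Nat.shiftLeft (nat_lit 0xd00000200300400d013) (nat_lit 64)) (.br (Nat.shiftLeft (nat_lit 0xd00000100200400d013) (nat_lit 64)) (.br (Nat.shiftLeft (nat_lit 0xc00000200300400d013) (nat_lit 64)) (.one (nat_lit 0xc00000200300400d012400618b01a024611)) (.br (Nat.shiftLeft (nat_lit 0xd) (nat_lit 136)) (.one (nat_lit 0xc00000200300400d013400618b01a026611)) (.one (nat_lit 0xd00000100200400d01220041ab41a024611)))) (.br (Nat.shiftLeft (nat_lit 0xd00000100300400d013) (nat_lit 64)) (.br (Nat.shiftLeft (nat_lit 0xd000001003) (nat_lit 100)) (.one (nat_lit 0xd00000100200400d01320041ab41a026611)) (.one (nat_lit 0xd00000100300400d01220061ab41a024611))) (.br (Nat.shiftLeft (nat_lit 0x6800001) (nat_lit 113)) (.one (nat_lit 0xd00000100300400d01320061ab41a026611)) (.one (nat_lit 0xd00000200300400d01240061ab41a024611))))) (.br (Nat.shiftLeft (nat_lit 0x1) (nat_lit 150)) (.br (Nat.shiftLeft (nat_lit 0x1) (nat_lit 149)) (.br (Nat.shiftLeft (nat_lit 0x1) (nat_lit 148)) (.one (nat_lit 0xd00000200300400d01340061ab41a026611))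 (.one (nat_lit 0x100000100200300400d012402640803a424711))) (.br (Nat.shiftLeft (nat_lit 0x3) (nat_lit 148)) (.one (nat_lit 0x200000100200300400d012404680803a424711)) (.one (nat_lit 0x300000100200300400d0124066c0803a424711)))) (.br (Nat.shiftLeft (nat_lit 0x3) (nat_lit 149)) (.br (Nat.shiftLeft (nat_lit 0x5) (nat_lit 148)) (.one (nat_lit 0x400000100200300400d012408700803a424711)) (.one (nat_lit 0x500000100200300400d01240a740803a424711))) (.br (Nat.shiftLeft (nat_lit 0x7) (nat_lit 148)) (.one (nat_lit 0x600000100200300400d01240c780803a424711)) (.one (nat_lit 0x700000100200300400d01240e7c0803a424711))))))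
def t305 : k305.all (jb2 57 fl b0) = true := by decide +kernel
noncomputable def k306 : KT := (.br (Nat.shiftLeft (nat_lit 0xb) (nat_lit 148)) (.br (Nat.shiftLeft (nat_lit 0x9) (nat_lit 148)) (.one (nat_lit 0x800000100200300400d012410800803a424711)) (.br (Nat.shiftLeft (nat_lit 0x5) (nat_lit 149)) (.one (nat_lit 0x900000100200300400d012412840803a424711)) (.one (nat_lit 0xa00000100200300400d012414880803a424711)))) (.br (Nat.shiftLeft (nat_lit 0x3) (nat_lit 150)) (.one (nat_lit 0xb00000100200300400d0124168c0803a424711)) (.br (Nat.shiftLeft (nat_lit 0xd) (nat_lit 148)) (.one (nat_lit 0xc00000100200300400d012418900803a424711)) (.one (nat_lit 0xd00000100200300400d01241a940803a424711)))))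
def t306 : k306.all (jb2 57 fl b0) = true := by decide +kernel
noncomputable def s16 : KT := (.br (nat_lit 0x400000200300400d013400608901a026611) (.br (nat_lit 0x600000200400d01200040080db824511) (.br (nat_lit 0x500000400d013a00000801a026411) (.br (nat_lit 0x100400d012000200801a024540) k287 k288) (.br (nat_lit 0x100200300400d012400600803a425700) k289 (.br (nat_lit 0x400000200400d013000400809b026511) k290 k291))) (.br (nat_lit 0x800000300400d013000600811c026511) (.br (nat_lit 0x700000300400d01200060080fbc24511) k292 k293) (.br (nat_lit 0xa00000200400d013000400815c826511) k294 (.br (nat_lit 0xc00000300400d013000600819d026511) k295 k296)))) (.br (nat_lit 0x800000100300400d012200610a01a024611) (.br (nat_lit 0x600000100200400d01320040c981a026611) (.br (nat_lit 0x500000100300400d01320060a941a026611) k297 k298) (.br (nat_lit 0x600000200300400d01340060c981a026611) k299 (.br (nat_lit 0x700000100300400d01320060e9c1a026611) k300 k301))) (.br (nat_lit 0xa00000100300400d012200614a81a024611) (.br (nat_lit 0x900000100200400d013200412a41a026611)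 k302 k303) (.br (nat_lit 0xc00000100300400d013200618b01a026611) k304 (.br (nat_lit 0x700000100200300400d01240e7c0803a424711) k305 k306)))))
noncomputable def u16 : KT := (.br (Nat.shiftLeft (nat_lit 0x400d013) (nat_lit 64)) (.one (nat_lit 0x400d012000000801a024430)) (.one (nat_lit 0x400d013000000801a026430)))
def w16 : u16.all (wj 57 s16) = true := by decide +kernel
def o16 : OkW 57 (jb2 57 fl) u16 := .lift s16 _ (.br _ _ _ (.br _ _ _ (.br _ _ _ (.br _ _ _ (.leaf b0 k287 t287) (.leaf b0 k288 t288)) (.br _ _ _ (.leaf b0 k289 t289) (.br _ _ _ (.leaf b0 k290 t290) (.leaf b0 k291 t291)))) (.br _ _ _ (.br _ _ _ (.leaf b0 k292 t292) (.leaf b0 k293 t293)) (.br _ _ _ (.leaf b0 k294 t294) (.br _ _ _ (.leaf b0 k295 t295) (.leaf b0 k296 t296))))) (.br _ _ _ (.br _ _ _ (.br _ _ _ (.leaf b0 k297 t297) (.leaf b0 k298 t298)) (.br _ _ _ (.leaf b0 k299 t299) (.br _ _ _ (.leaf b0 k300 t300) (.leaf b0 k301 t301)))) (.br _ _ _ (.br _ _ _ (.leaf b0 k302 t302) (.leaf b0 k303 t303)) (.br _ _ _ (.leaf b0 k304 t304) (.br _ _ _ (.leaf b0 k305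 t305) (.leaf b0 k306 t306)))))) w16
noncomputable def k307 : KT := (.br (Nat.shiftLeft (nat_lit 0x200680b) (nat_lit 65)) (.br (Nat.shiftLeft (nat_lit 0x400d015) (nat_lit 64)) (.one (nat_lit 0x400d014000000801a029400)) (.one (nat_lit 0x400d015000000801a02b400))) (.br (Nat.shiftLeft (nat_lit 0x400d017) (nat_lit 64)) (.one (nat_lit 0x400d016000000801a02d400)) (.br (Nat.shiftLeft (nat_lit 0x1) (nat_lit 100)) (.one (nat_lit 0x400d017000000801a02f400)) (.one (nat_lit 0x100400d014000200801a028540)))))
def t307 : k307.all (jb2 57 fl b0) = true := by decide +kernel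
noncomputable def k308 : KT := (.one (nat_lit 0x100400d015000200801a02a540))
def t308 : k308.all (jb2 57 fl b0) = true := by decide +kernel
noncomputable def k309 : KT := (.one (nat_lit 0x100400d016000200801a02c540))
def t309 : k309.all (jb2 57 fl b0) = true := by decide +kernel
noncomputable def k310 : KT := (.br (Nat.shiftLeft (nat_lit 0x180200680b) (nat_lit 65)) (.br (Nat.shiftLeft (nat_lit 0x100200680b) (nat_lit 65)) (.br (Nat.shiftLeft (nat_lit 0x1) (nat_lit 101)) (.one (nat_lit 0x100400d017000200801a02e540)) (.br (Nat.shiftLeft (nat_lit 0x200400d015) (nat_lit 64)) (.one (nat_lit 0x200400d014000400801a029500)) (.one (nat_lit 0x200400d015000400801a02b500)))) (.br (Nat.shiftLeft (nat_lit 0x3) (nat_lit 100)) (.br (Nat.shiftLeft (nat_lit 0x200400d017) (nat_lit 64)) (.one (nat_lit 0x200400d016000400801a02d500)) (.one (nat_lit 0x200400d017000400801a02f500))) (.br (Nat.shiftLeft (nat_lit 0x300400d015) (nat_lit 64)) (.one (nat_lit 0x300400d014000600801a029500)) (.one (nat_lit 0x300400d015000600801a02b500))))) (.br (Nat.shiftLeft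 (nat_lit 0x100000400d015) (nat_lit 64)) (.br (Nat.shiftLeft (nat_lit 0x300400d017) (nat_lit 64)) (.one (nat_lit 0x300400d016000600801a02d500)) (.br (Nat.shiftLeft (nat_lit 0x1) (nat_lit 112)) (.one (nat_lit 0x300400d017000600801a02f500)) (.one (nat_lit 0x100000400d014200000801a028411)))) (.br (Nat.shiftLeft (nat_lit 0x100000400d017) (nat_lit 64)) (.br (Nat.shiftLeft (nat_lit 0x80000200680b) (nat_lit 65)) (.one (nat_lit 0x100000400d015200000801a02a411)) (.one (nat_lit 0x100000400d016200000801a02c411))) (.br (Nat.shiftLeft (nat_lit 0x801) (nat_lit 101)) (.one (nat_lit 0x100000400d017200000801a02e411)) (.one (nat_lit 0x100200400d014200400801a029600))))))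
def t310 : k310.all (jb2 57 fl b0) = true := by decide +kernel
noncomputable def k311 : KT := (.one (nat_lit 0x100200400d015200400801a02a650))
def t311 : k311.all (jb2 57 fl b0) = true := by decide +kernel
noncomputable def k312 : KT := (.one (nat_lit 0x100200400d016200400801a02c650))
def t312 : k312.all (jb2 57 fl b0) = true := by decide +kernel
noncomputable def k313 : KT := (.one (nat_lit 0x100200400d017200400801a02e650))
def t313 : k313.all (jb2 57 fl b0) = true := by decide +kernel
noncomputable def k314 : KT := (.one (nat_lit 0x100300400d014200600801a028650))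
def t314 : k314.all (jb2 57 fl b0) = true := by decide +kernel
noncomputable def k315 : KT := (.one (nat_lit 0x100300400d015200600801a02a650))
def t315 : k315.all (jb2 57 fl b0) = true := by decide +kernel
noncomputable def k316 : KT := (.br (Nat.shiftLeft (nat_lit 0x200000400d015) (nat_lit 64)) (.br (Nat.shiftLeft (nat_lit 0x100300400d017) (nat_lit 64)) (.one (nat_lit 0x100300400d016200600801a02c650)) (.br (Nat.shiftLeft (nat_lit 0x1) (nat_lit 113)) (.one (nat_lit 0x100300400d017200600801a02e650)) (.one (nat_lit 0x200000400d014400000801a028411)))) (.br (Nat.shiftLeft (nat_lit 0x200000400d017) (nat_lit 64)) (.br (Nat.shiftLeft (nat_lit 0x100000200680b) (nat_lit 65)) (.one (nat_lit 0x200000400d015400000801a02a411)) (.one (nat_lit 0x200000400d016400000801a02c411))) (.br (Nat.shiftLeft (nat_lit 0x1001) (nat_lit 101)) (.one (nat_lit 0x200000400d017400000801a02e411)) (.one (nat_lit 0x200300400d014400600801a029600)))))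
def t316 : k316.all (jb2 57 fl b0) = true := by decide +kernel
noncomputable def k317 : KT := (.one (nat_lit 0x200300400d015400600801a02a650))
def t317 : k317.all (jb2 57 fl b0) = true := by decide +kernel
noncomputable def k318 : KT := (.one (nat_lit 0x200300400d016400600801a02c650))
def t318 : k318.all (jb2 57 fl b0) = true := by decide +kernel
noncomputable def k319 : KT := (.br (Nat.shiftLeft (nat_lit 0x500000400d015) (nat_lit 64)) (.br (Nat.shiftLeft (nat_lit 0x1) (nat_lit 114)) (.br (Nat.shiftLeft (nat_lit 0x300000400d015) (nat_lit 64)) (.br (Nat.shiftLeft (nat_lit 0x3) (nat_lit 112)) (.one (nat_lit 0x200300400d017400600801a02e650)) (.one (nat_lit 0x300000400d014600000801a028411))) (.br (Nat.shiftLeft (nat_lit 0x180000200680b) (nat_lit 65)) (.one (nat_lit 0x300000400d015600000801a02a411)) (.br (Nat.shiftLeft (nat_lit 0x300000400d017) (nat_lit 64)) (.one (nat_lit 0x300000400d016600000801a02c411)) (.one (nat_lit 0x300000400d017600000801a02e411))))) (.br (Nat.shiftLeft (nat_lit 0x200000200680b) (nat_lit 65)) (.br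 (Nat.shiftLeft (nat_lit 0x400000400d015) (nat_lit 64)) (.one (nat_lit 0x400000400d014800000801a028411)) (.one (nat_lit 0x400000400d015800000801a02a411))) (.br (Nat.shiftLeft (nat_lit 0x400000400d017) (nat_lit 64)) (.one (nat_lit 0x400000400d016800000801a02c411)) (.br (Nat.shiftLeft (nat_lit 0x5) (nat_lit 112)) (.one (nat_lit 0x400000400d017800000801a02e411)) (.one (nat_lit 0x500000400d014a00000801a028411)))))) (.br (Nat.shiftLeft (nat_lit 0x300000200680b) (nat_lit 65)) (.br (Nat.shiftLeft (nat_lit 0x500000400d017) (nat_lit 64)) (.br (Nat.shiftLeft (nat_lit 0x280000200680b) (nat_lit 65)) (.one (nat_lit 0x500000400d015a00000801a02a411)) (.one (nat_lit 0x500000400d016a00000801a02c411))) (.br (Nat.shiftLeft (nat_lit 0x3) (nat_lit 113)) (.one (nat_lit 0x500000400d017a00000801a02e411)) (.br (Nat.shiftLeft (nat_lit 0x600000400d015) (nat_lit 64)) (.one (nat_lit 0x600000400d014c00000801a028411)) (.one (nat_lit 0x600000400d015c00000801a02a411))))) (.br (Nat.shiftLeft (nat_lit 0x700000400d015) (nat_lit 64)) (.br (Nat.shiftLeft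 (nat_lit 0x600000400d017) (nat_lit 64)) (.one (nat_lit 0x600000400d016c00000801a02c411)) (.br (Nat.shiftLeft (nat_lit 0x7) (nat_lit 112)) (.one (nat_lit 0x600000400d017c00000801a02e411)) (.one (nat_lit 0x700000400d014e00000801a028411)))) (.br (Nat.shiftLeft (nat_lit 0x380000200680b) (nat_lit 65)) (.one (nat_lit 0x700000400d015e00000801a02a411)) (.br (Nat.shiftLeft (nat_lit 0x700000400d017) (nat_lit 64)) (.one (nat_lit 0x700000400d016e00000801a02c411)) (.one (nat_lit 0x700000400d017e00000801a02e411)))))))
def t319 : k319.all (jb2 57 fl b0) = true := by decide +kernel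
noncomputable def k320 : KT := (.br (Nat.shiftLeft (nat_lit 0x3) (nat_lit 114)) (.br (Nat.shiftLeft (nat_lit 0x5) (nat_lit 113)) (.br (Nat.shiftLeft (nat_lit 0x9) (nat_lit 112)) (.br (Nat.shiftLeft (nat_lit 0x400000200680b) (nat_lit 65)) (.br (Nat.shiftLeft (nat_lit 0x800000400d015) (nat_lit 64)) (.one (nat_lit 0x800000400d014000000801a12a411)) (.one (nat_lit 0x800000400d015000000801a12c411))) (.br (Nat.shiftLeft (nat_lit 0x800000400d017) (nat_lit 64)) (.one (nat_lit 0x800000400d016000000801a12e411)) (.one (nat_lit 0x800000400d017000000801a130411)))) (.br (Nat.shiftLeft (nat_lit 0x480000200680b) (nat_lit 65)) (.br (Nat.shiftLeft (nat_lit 0x900000400d015) (nat_lit 64)) (.one (nat_lit 0x900000400d014200000801a12a411)) (.one (nat_lit 0x900000400d015200000801a12c411))) (.br (Nat.shiftLeft (nat_lit 0x900000400d017) (nat_lit 64)) (.one (nat_lit 0x900000400d016200000801a12e411)) (.one (nat_lit 0x900000400d017200000801a130411))))) (.br (Nat.shiftLeft (nat_lit 0xb) (nat_lit 112)) (.br (Nat.shiftLeft (nat_lit 0x500000200680b)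 (nat_lit 65)) (.br (Nat.shiftLeft (nat_lit 0xa00000400d015) (nat_lit 64)) (.one (nat_lit 0xa00000400d014400000801a12a411)) (.one (nat_lit 0xa00000400d015400000801a12c411))) (.br (Nat.shiftLeft (nat_lit 0xa00000400d017) (nat_lit 64)) (.one (nat_lit 0xa00000400d016400000801a12e411)) (.one (nat_lit 0xa00000400d017400000801a130411)))) (.br (Nat.shiftLeft (nat_lit 0x580000200680b) (nat_lit 65)) (.br (Nat.shiftLeft (nat_lit 0xb00000400d015) (nat_lit 64)) (.one (nat_lit 0xb00000400d014600000801a12a411)) (.one (nat_lit 0xb00000400d015600000801a12c411))) (.br (Nat.shiftLeft (nat_lit 0xb00000400d017) (nat_lit 64)) (.one (nat_lit 0xb00000400d016600000801a12e411)) (.one (nat_lit 0xb00000400d017600000801a130411)))))) (.br (Nat.shiftLeft (nat_lit 0x1) (nat_lit 124)) (.br (Nat.shiftLeft (nat_lit 0xd) (nat_lit 112)) (.br (Nat.shiftLeft (nat_lit 0x600000200680b) (nat_lit 65)) (.br (Nat.shiftLeft (nat_lit 0xc00000400d015) (nat_lit 64)) (.one (nat_lit 0xc00000400d014800000801a12a411)) (.one (nat_lit 0xc00000400d015800000801a12c411))) (.br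 (Nat.shiftLeft (nat_lit 0xc00000400d017) (nat_lit 64)) (.one (nat_lit 0xc00000400d016800000801a12e411)) (.one (nat_lit 0xc00000400d017800000801a130411)))) (.br (Nat.shiftLeft (nat_lit 0x680000200680b) (nat_lit 65)) (.br (Nat.shiftLeft (nat_lit 0xd00000400d015) (nat_lit 64)) (.one (nat_lit 0xd00000400d014a00000801a12a411)) (.one (nat_lit 0xd00000400d015a00000801a12c411))) (.br (Nat.shiftLeft (nat_lit 0xd00000400d017) (nat_lit 64)) (.one (nat_lit 0xd00000400d016a00000801a12e411)) (.one (nat_lit 0xd00000400d017a00000801a130411))))) (.br (Nat.shiftLeft (nat_lit 0x1000003) (nat_lit 100)) (.br (Nat.shiftLeft (nat_lit 0x80000100200680b) (nat_lit 65)) (.br (Nat.shiftLeft (nat_lit 0x100000200400d015) (nat_lit 64)) (.one (nat_lit 0x100000200400d014000400803a428511)) (.one (nat_lit 0x100000200400d015000400803a42a511))) (.br (Nat.shiftLeft (nat_lit 0x100000200400d017) (nat_lit 64)) (.one (nat_lit 0x100000200400d016000400803a42c511)) (.one (nat_lit 0x100000200400d017000400803a42e511)))) (.br (Nat.shiftLeft (nat_lit 0x80000180200680b)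 (nat_lit 65)) (.br (Nat.shiftLeft (nat_lit 0x100000300400d015) (nat_lit 64)) (.one (nat_lit 0x100000300400d014000600803a428511)) (.one (nat_lit 0x100000300400d015000600803a42a511))) (.br (Nat.shiftLeft (nat_lit 0x100000300400d017) (nat_lit 64)) (.one (nat_lit 0x100000300400d016000600803a42c511)) (.one (nat_lit 0x100000300400d017000600803a42e511)))))))
def t320 : k320.all (jb2 57 fl b0) = true := by decide +kernel
noncomputable def k321 : KT := (.br (Nat.shiftLeft (nat_lit 0x300000200400d015) (nat_lit 64)) (.br (Nat.shiftLeft (nat_lit 0x2000003) (nat_lit 100)) (.br (Nat.shiftLeft (nat_lit 0x200000200400d015) (nat_lit 64)) (.br (Nat.shiftLeft (nat_lit 0x1) (nat_lit 125)) (.one (nat_lit 0x100200300400d014400600803a428760)) (.one (nat_lit 0x200000200400d014000400805a828511))) (.br (Nat.shiftLeft (nat_lit 0x100000100200680b) (nat_lit 65)) (.one (nat_lit 0x200000200400d015000400805a82a511)) (.br (Nat.shiftLeft (nat_lit 0x200000200400d017) (nat_lit 64)) (.one (nat_lit 0x200000200400d016000400805a82c511)) (.one (nat_lit 0x200000200400d017000400805a82e511)))))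 (.br (Nat.shiftLeft (nat_lit 0x100000180200680b) (nat_lit 65)) (.br (Nat.shiftLeft (nat_lit 0x200000300400d015) (nat_lit 64)) (.one (nat_lit 0x200000300400d014000600805a828511)) (.one (nat_lit 0x200000300400d015000600805a82a511))) (.br (Nat.shiftLeft (nat_lit 0x200000300400d017) (nat_lit 64)) (.one (nat_lit 0x200000300400d016000600805a82c511)) (.br (Nat.shiftLeft (nat_lit 0x3) (nat_lit 124)) (.one (nat_lit 0x200000300400d017000600805a82e511)) (.one (nat_lit 0x300000200400d014000400807ac28511)))))) (.br (Nat.shiftLeft (nat_lit 0x180000180200680b) (nat_lit 65)) (.br (Nat.shiftLeft (nat_lit 0x300000200400d017) (nat_lit 64)) (.br (Nat.shiftLeft (nat_lit 0x180000100200680b) (nat_lit 65)) (.one (nat_lit 0x300000200400d015000400807ac2a511)) (.one (nat_lit 0x300000200400d016000400807ac2c511))) (.br (Nat.shiftLeft (nat_lit 0x3000003) (nat_lit 100)) (.one (nat_lit 0x300000200400d017000400807ac2e511)) (.br (Nat.shiftLeft (nat_lit 0x300000300400d015) (nat_lit 64)) (.one (nat_lit 0x300000300400d014000600807ac28511)) (.one (nat_lit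 0x300000300400d015000600807ac2a511))))) (.br (Nat.shiftLeft (nat_lit 0x1) (nat_lit 126)) (.br (Nat.shiftLeft (nat_lit 0x300000300400d017) (nat_lit 64)) (.one (nat_lit 0x300000300400d016000600807ac2c511)) (.one (nat_lit 0x300000300400d017000600807ac2e511))) (.br (Nat.shiftLeft (nat_lit 0x400000200400d015) (nat_lit 64)) (.one (nat_lit 0x400000200400d014000400809b028511)) (.br (Nat.shiftLeft (nat_lit 0x200000100200680b) (nat_lit 65)) (.one (nat_lit 0x400000200400d015000400809b02a511)) (.one (nat_lit 0x400000200400d016000400809b02c511)))))))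
def t321 : k321.all (jb2 57 fl b0) = true := by decide +kernel
noncomputable def k322 : KT := (.br (Nat.shiftLeft (nat_lit 0x5) (nat_lit 124)) (.br (Nat.shiftLeft (nat_lit 0x400000300400d015) (nat_lit 64)) (.br (Nat.shiftLeft (nat_lit 0x4000003) (nat_lit 100)) (.one (nat_lit 0x400000200400d017000400809b02e511)) (.one (nat_lit 0x400000300400d014000600809b028511))) (.br (Nat.shiftLeft (nat_lit 0x200000180200680b) (nat_lit 65)) (.one (nat_lit 0x400000300400d015000600809b02a511)) (.br (Nat.shiftLeft (nat_lit 0x400000300400d017) (nat_lit 64)) (.one (nat_lit 0x400000300400d016000600809b02c511)) (.one (nat_lit 0x400000300400d017000600809b02e511))))) (.br (Nat.shiftLeft (nat_lit 0x280000100200680b) (nat_lit 65)) (.br (Nat.shiftLeft (nat_lit 0x500000200400d015) (nat_lit 64)) (.one (nat_lit 0x500000200400d01400040080bb428511)) (.one (nat_lit 0x500000200400d01500040080bb42a511))) (.br (Nat.shiftLeft (nat_lit 0x500000200400d017) (nat_lit 64)) (.one (nat_lit 0x500000200400d01600040080bb42c511)) (.br (Nat.shiftLeft (nat_lit 0x5000003)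 (nat_lit 100)) (.one (nat_lit 0x500000200400d01700040080bb42e511)) (.one (nat_lit 0x500000300400d01400060080bb428511))))))
def t322 : k322.all (jb2 57 fl b0) = true := by decide +kernel
noncomputable def k323 : KT := (.br (Nat.shiftLeft (nat_lit 0x600000200400d015) (nat_lit 64)) (.br (Nat.shiftLeft (nat_lit 0x500000300400d017) (nat_lit 64)) (.br (Nat.shiftLeft (nat_lit 0x280000180200680b) (nat_lit 65)) (.one (nat_lit 0x500000300400d01500060080bb42a511)) (.one (nat_lit 0x500000300400d01600060080bb42c511))) (.br (Nat.shiftLeft (nat_lit 0x3) (nat_lit 125)) (.one (nat_lit 0x500000300400d01700060080bb42e511)) (.one (nat_lit 0x600000200400d01400040080db828511)))) (.br (Nat.shiftLeft (nat_lit 0x600000200400d017) (nat_lit 64)) (.br (Nat.shiftLeft (nat_lit 0x300000100200680b) (nat_lit 65)) (.one (nat_lit 0x600000200400d01500040080db82a511)) (.one (nat_lit 0x600000200400d01600040080db82c511))) (.br (Nat.shiftLeft (nat_lit 0x6000003) (nat_lit 100)) (.one (nat_lit 0x600000200400d01700040080db82e511)) (.one (nat_lit 0x600000300400d01400060080db828511)))))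
def t323 : k323.all (jb2 57 fl b0) = true := by decide +kernel
noncomputable def k324 : KT := (.br (Nat.shiftLeft (nat_lit 0x700000200400d015) (nat_lit 64)) (.br (Nat.shiftLeft (nat_lit 0x600000300400d017) (nat_lit 64)) (.br (Nat.shiftLeft (nat_lit 0x300000180200680b) (nat_lit 65)) (.one (nat_lit 0x600000300400d01500060080db82a511)) (.one (nat_lit 0x600000300400d01600060080db82c511))) (.br (Nat.shiftLeft (nat_lit 0x7) (nat_lit 124)) (.one (nat_lit 0x600000300400d01700060080db82e511)) (.one (nat_lit 0x700000200400d01400040080fbc28511)))) (.br (Nat.shiftLeft (nat_lit 0x700000200400d017) (nat_lit 64)) (.br (Nat.shiftLeft (nat_lit 0x380000100200680b) (nat_lit 65)) (.one (nat_lit 0x700000200400d01500040080fbc2a511)) (.one (nat_lit 0x700000200400d01600040080fbc2c511))) (.br (Nat.shiftLeft (nat_lit 0x7000003) (nat_lit 100)) (.one (nat_lit 0x700000200400d01700040080fbc2e511)) (.br (Nat.shiftLeft (nat_lit 0x700000300400d015) (nat_lit 64)) (.one (nat_lit 0x700000300400d01400060080fbc28511)) (.one (nat_lit 0x700000300400d01500060080fbc2a511))))))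
def t324 : k324.all (jb2 57 fl b0) = true := by decide +kernel
noncomputable def k325 : KT := (.br (Nat.shiftLeft (nat_lit 0x800000200400d017) (nat_lit 64)) (.br (Nat.shiftLeft (nat_lit 0x1) (nat_lit 127)) (.br (Nat.shiftLeft (nat_lit 0x700000300400d017) (nat_lit 64)) (.one (nat_lit 0x700000300400d01600060080fbc2c511)) (.one (nat_lit 0x700000300400d01700060080fbc2e511))) (.br (Nat.shiftLeft (nat_lit 0x800000200400d015) (nat_lit 64)) (.one (nat_lit 0x800000200400d014000400811c028511)) (.br (Nat.shiftLeft (nat_lit 0x400000100200680b) (nat_lit 65)) (.one (nat_lit 0x800000200400d015000400811c02a511)) (.one (nat_lit 0x800000200400d016000400811c02c511))))) (.br (Nat.shiftLeft (nat_lit 0x400000180200680b) (nat_lit 65)) (.br (Nat.shiftLeft (nat_lit 0x8000003) (nat_lit 100)) (.one (nat_lit 0x800000200400d017000400811c02e511)) (.br (Nat.shiftLeft (nat_lit 0x800000300400d015) (nat_lit 64)) (.one (nat_lit 0x800000300400d014000600811c028511)) (.one (nat_lit 0x800000300400d015000600811c02a511)))) (.br (Nat.shiftLeft (nat_lit 0x800000300400d017)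 (nat_lit 64)) (.one (nat_lit 0x800000300400d016000600811c02c511)) (.br (Nat.shiftLeft (nat_lit 0x9) (nat_lit 124)) (.one (nat_lit 0x800000300400d017000600811c02e511)) (.one (nat_lit 0x900000200400d014000400813c428511))))))
def t325 : k325.all (jb2 57 fl b0) = true := by decide +kernel
noncomputable def k326 : KT := (.br (Nat.shiftLeft (nat_lit 0x5) (nat_lit 125)) (.br (Nat.shiftLeft (nat_lit 0x9000003) (nat_lit 100)) (.br (Nat.shiftLeft (nat_lit 0x480000100200680b) (nat_lit 65)) (.one (nat_lit 0x900000200400d015000400813c42a511)) (.br (Nat.shiftLeft (nat_lit 0x900000200400d017) (nat_lit 64)) (.one (nat_lit 0x900000200400d016000400813c42c511)) (.one (nat_lit 0x900000200400d017000400813c42e511)))) (.br (Nat.shiftLeft (nat_lit 0x480000180200680b) (nat_lit 65)) (.br (Nat.shiftLeft (nat_lit 0x900000300400d015) (nat_lit 64)) (.one (nat_lit 0x900000300400d014000600813c428511)) (.one (nat_lit 0x900000300400d015000600813c42a511))) (.br (Nat.shiftLeft (nat_lit 0x900000300400d017) (nat_lit 64)) (.one (nat_lit 0x900000300400d016000600813c42c511))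 (.one (nat_lit 0x900000300400d017000600813c42e511))))) (.br (Nat.shiftLeft (nat_lit 0xa000003) (nat_lit 100)) (.br (Nat.shiftLeft (nat_lit 0x500000100200680b) (nat_lit 65)) (.br (Nat.shiftLeft (nat_lit 0xa00000200400d015) (nat_lit 64)) (.one (nat_lit 0xa00000200400d014000400815c828511)) (.one (nat_lit 0xa00000200400d015000400815c82a511))) (.br (Nat.shiftLeft (nat_lit 0xa00000200400d017) (nat_lit 64)) (.one (nat_lit 0xa00000200400d016000400815c82c511)) (.one (nat_lit 0xa00000200400d017000400815c82e511)))) (.br (Nat.shiftLeft (nat_lit 0x500000180200680b) (nat_lit 65)) (.br (Nat.shiftLeft (nat_lit 0xa00000300400d015) (nat_lit 64)) (.one (nat_lit 0xa00000300400d014000600815c828511)) (.one (nat_lit 0xa00000300400d015000600815c82a511))) (.br (Nat.shiftLeft (nat_lit 0xa00000300400d017) (nat_lit 64)) (.one (nat_lit 0xa00000300400d016000600815c82c511)) (.one (nat_lit 0xa00000300400d017000600815c82e511))))))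
def t326 : k326.all (jb2 57 fl b0) = true := by decide +kernel
noncomputable def k327 : KT := (.br (Nat.shiftLeft (nat_lit 0xd) (nat_lit 124)) (.br (Nat.shiftLeft (nat_lit 0x3) (nat_lit 126)) (.br (Nat.shiftLeft (nat_lit 0xb000003) (nat_lit 100)) (.br (Nat.shiftLeft (nat_lit 0x580000100200680b) (nat_lit 65)) (.br (Nat.shiftLeft (nat_lit 0xb00000200400d015) (nat_lit 64)) (.one (nat_lit 0xb00000200400d014000400817cc28511)) (.one (nat_lit 0xb00000200400d015000400817cc2a511))) (.br (Nat.shiftLeft (nat_lit 0xb00000200400d017) (nat_lit 64)) (.one (nat_lit 0xb00000200400d016000400817cc2c511)) (.one (nat_lit 0xb00000200400d017000400817cc2e511)))) (.br (Nat.shiftLeft (nat_lit 0x580000180200680b) (nat_lit 65)) (.br (Nat.shiftLeft (nat_lit 0xb00000300400d015) (nat_lit 64)) (.one (nat_lit 0xb00000300400d014000600817cc28511)) (.one (nat_lit 0xb00000300400d015000600817cc2a511))) (.br (Nat.shiftLeft (nat_lit 0xb00000300400d017) (nat_lit 64)) (.one (nat_lit 0xb00000300400d016000600817cc2c511)) (.one (nat_lit 0xb00000300400d017000600817cc2e511)))))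 (.br (Nat.shiftLeft (nat_lit 0xc000003) (nat_lit 100)) (.br (Nat.shiftLeft (nat_lit 0x600000100200680b) (nat_lit 65)) (.br (Nat.shiftLeft (nat_lit 0xc00000200400d015) (nat_lit 64)) (.one (nat_lit 0xc00000200400d014000400819d028511)) (.one (nat_lit 0xc00000200400d015000400819d02a511))) (.br (Nat.shiftLeft (nat_lit 0xc00000200400d017) (nat_lit 64)) (.one (nat_lit 0xc00000200400d016000400819d02c511)) (.one (nat_lit 0xc00000200400d017000400819d02e511)))) (.br (Nat.shiftLeft (nat_lit 0x600000180200680b) (nat_lit 65)) (.br (Nat.shiftLeft (nat_lit 0xc00000300400d015) (nat_lit 64)) (.one (nat_lit 0xc00000300400d014000600819d028511)) (.one (nat_lit 0xc00000300400d015000600819d02a511))) (.br (Nat.shiftLeft (nat_lit 0xc00000300400d017) (nat_lit 64)) (.one (nat_lit 0xc00000300400d016000600819d02c511)) (.one (nat_lit 0xc00000300400d017000600819d02e511)))))) (.br (Nat.shiftLeft (nat_lit 0x1) (nat_lit 136)) (.br (Nat.shiftLeft (nat_lit 0xd000003) (nat_lit 100)) (.br (Nat.shiftLeft (nat_lit 0x680000100200680b) (nat_lit 65)) (.br (Nat.shiftLeft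 (nat_lit 0xd00000200400d015) (nat_lit 64)) (.one (nat_lit 0xd00000200400d01400040081bd428511)) (.one (nat_lit 0xd00000200400d01500040081bd42a511))) (.br (Nat.shiftLeft (nat_lit 0xd00000200400d017) (nat_lit 64)) (.one (nat_lit 0xd00000200400d01600040081bd42c511)) (.one (nat_lit 0xd00000200400d01700040081bd42e511)))) (.br (Nat.shiftLeft (nat_lit 0x680000180200680b) (nat_lit 65)) (.br (Nat.shiftLeft (nat_lit 0xd00000300400d015) (nat_lit 64)) (.one (nat_lit 0xd00000300400d01400060081bd428511)) (.one (nat_lit 0xd00000300400d01500060081bd42a511))) (.br (Nat.shiftLeft (nat_lit 0xd00000300400d017) (nat_lit 64)) (.one (nat_lit 0xd00000300400d01600060081bd42c511)) (.one (nat_lit 0xd00000300400d01700060081bd42e511))))) (.br (Nat.shiftLeft (nat_lit 0x3) (nat_lit 136)) (.br (Nat.shiftLeft (nat_lit 0x1) (nat_lit 137)) (.br (Nat.shiftLeft (nat_lit 0x800001) (nat_lit 113)) (.one (nat_lit 0x100000100200400d014200402841a028611)) (.one (nat_lit 0x100000200300400d014400602841a028611))) (.br (Nat.shiftLeft (nat_lit 0x1000001) (nat_lit 113))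 (.one (nat_lit 0x200000100200400d014200404881a028611)) (.one (nat_lit 0x200000200300400d014400604881a028611)))) (.br (Nat.shiftLeft (nat_lit 0x1) (nat_lit 138)) (.br (Nat.shiftLeft (nat_lit 0x1800001) (nat_lit 113)) (.one (nat_lit 0x300000100200400d0142004068c1a028611)) (.one (nat_lit 0x300000200300400d0144006068c1a028611))) (.br (Nat.shiftLeft (nat_lit 0x2000001) (nat_lit 113)) (.one (nat_lit 0x400000100200400d014200408901a028611)) (.one (nat_lit 0x400000200300400d014400608901a028611)))))))
def t327 : k327.all (jb2 57 fl b0) = true := by decide +kernel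
noncomputable def k328 : KT := (.br (Nat.shiftLeft (nat_lit 0x3000001) (nat_lit 113)) (.br (Nat.shiftLeft (nat_lit 0x2800001) (nat_lit 113)) (.one (nat_lit 0x500000100200400d01420040a941a028611)) (.br (Nat.shiftLeft (nat_lit 0x3) (nat_lit 137)) (.one (nat_lit 0x500000200300400d01440060a941a028611)) (.one (nat_lit 0x600000100200400d01420040c981a028611)))) (.br (Nat.shiftLeft (nat_lit 0x7) (nat_lit 136)) (.one (nat_lit 0x600000200300400d01440060c981a028611)) (.br (Nat.shiftLeft (nat_lit 0x3800001) (nat_lit 113)) (.one (nat_lit 0x700000100200400d01420040e9c1a028611)) (.one (nat_lit 0x700000200300400d01440060e9c1a028611)))))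
def t328 : k328.all (jb2 57 fl b0) = true := by decide +kernel
noncomputable def k329 : KT := (.br (Nat.shiftLeft (nat_lit 0xb) (nat_lit 136)) (.br (Nat.shiftLeft (nat_lit 0x4800001) (nat_lit 113)) (.br (Nat.shiftLeft (nat_lit 0x4000001) (nat_lit 113)) (.one (nat_lit 0x800000100200400d014200410a01a028611)) (.br (Nat.shiftLeft (nat_lit 0x9) (nat_lit 136)) (.one (nat_lit 0x800000200300400d014400610a01a028611)) (.one (nat_lit 0x900000100200400d014200412a41a028611)))) (.br (Nat.shiftLeft (nat_lit 0x5) (nat_lit 137)) (.one (nat_lit 0x900000200300400d014400612a41a028611)) (.br (Nat.shiftLeft (nat_lit 0x5000001) (nat_lit 113)) (.one (nat_lit 0xa00000100200400d014200414a81a028611)) (.one (nat_lit 0xa00000200300400d014400614a81a028611))))) (.br (Nat.shiftLeft (nat_lit 0x6000001) (nat_lit 113)) (.br (Nat.shiftLeft (nat_lit 0x5800001) (nat_lit 113)) (.one (nat_lit 0xb00000100200400d014200416ac1a028611)) (.br (Nat.shiftLeft (nat_lit 0x3) (nat_lit 138)) (.one (nat_lit 0xb00000200300400d014400616ac1a028611)) (.one (nat_lit 0xc00000100200400d014200418b01a028611))))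 (.br (Nat.shiftLeft (nat_lit 0xd) (nat_lit 136)) (.one (nat_lit 0xc00000200300400d014400618b01a028611)) (.br (Nat.shiftLeft (nat_lit 0x6800001) (nat_lit 113)) (.one (nat_lit 0xd00000100200400d01420041ab41a028611)) (.one (nat_lit 0xd00000200300400d01440061ab41a028611))))))
def t329 : k329.all (jb2 57 fl b0) = true := by decide +kernel
noncomputable def s17 : KT := (.br (nat_lit 0x200300400d015400600801a02a650) (.br (nat_lit 0x100200400d015200400801a02a650) (.br (nat_lit 0x100400d015000200801a02a540) (.br (nat_lit 0x100400d014000200801a028540) k307 k308) (.br (nat_lit 0x100400d016000200801a02c540) k309 (.br (nat_lit 0x100200400d014200400801a029600) k310 k311))) (.br (nat_lit 0x100300400d014200600801a028650) (.br (nat_lit 0x100200400d016200400801a02c650) k312 (.br (nat_lit 0x100200400d017200400801a02e650) k313 k314)) (.br (nat_lit 0x100300400d015200600801a02a650) k315 (.br (nat_lit 0x200300400d014400600801a029600) k316 k317)))) (.br (nat_lit 0x600000300400d01400060080db828511) (.br (nat_lit 0x100000300400d017000600803a42e511)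 (.br (nat_lit 0x200300400d016400600801a02c650) k318 (.br (nat_lit 0x700000400d017e00000801a02e411) k319 k320)) (.br (nat_lit 0x400000200400d016000400809b02c511) k321 (.br (nat_lit 0x500000300400d01400060080bb428511) k322 k323))) (.br (nat_lit 0xa00000300400d017000600815c82e511) (.br (nat_lit 0x700000300400d01500060080fbc2a511) k324 (.br (nat_lit 0x900000200400d014000400813c428511) k325 k326)) (.br (nat_lit 0x400000200300400d014400608901a028611) k327 (.br (nat_lit 0x700000200300400d01440060e9c1a028611) k328 k329)))))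
noncomputable def u17 : KT := (.br (Nat.shiftLeft (nat_lit 0x200680b) (nat_lit 65)) (.br (Nat.shiftLeft (nat_lit 0x400d015) (nat_lit 64)) (.one (nat_lit 0x400d014000000801a028430)) (.one (nat_lit 0x400d015000000801a02a430))) (.br (Nat.shiftLeft (nat_lit 0x400d017) (nat_lit 64)) (.one (nat_lit 0x400d016000000801a02c430)) (.one (nat_lit 0x400d017000000801a02e430))))
def w17 : u17.all (wj 57 s17) = true := by decide +kernel
def o17 : OkW 57 (jb2 57 fl) u17 := .lift s17 _ (.br _ _ _ (.br _ _ _ (.br _ _ _ (.br _ _ _ (.leaf b0 k307 t307) (.leaf b0 k308 t308)) (.br _ _ _ (.leaf b0 k309 t309) (.br _ _ _ (.leaf b0 k310 t310) (.leaf b0 k311 t311)))) (.br _ _ _ (.br _ _ _ (.leaf b0 k312 t312) (.br _ _ _ (.leaf b0 k313 t313) (.leaf b0 k314 t314))) (.br _ _ _ (.leaf b0 k315 t315) (.br _ _ _ (.leaf b0 k316 t316) (.leaf b0 k317 t317))))) (.br _ _ _ (.br _ _ _ (.br _ _ _ (.leaf b0 k318 t318) (.br _ _ _ (.leaf b0 k319 t319) (.leaf b0 k320 t320))) (.br _ _ _ (.leaf b0 k321 t321) (.br _ _ _ (.leaf b0 k322 t322) (.leaf b0 k323 t323))))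 (.br _ _ _ (.br _ _ _ (.leaf b0 k324 t324) (.br _ _ _ (.leaf b0 k325 t325) (.leaf b0 k326 t326))) (.br _ _ _ (.leaf b0 k327 t327) (.br _ _ _ (.leaf b0 k328 t328) (.leaf b0 k329 t329)))))) w17
noncomputable def k330 : KT := (.br (Nat.shiftLeft (nat_lit 0x1) (nat_lit 113)) (.br (Nat.shiftLeft (nat_lit 0x3) (nat_lit 100)) (.br (Nat.shiftLeft (nat_lit 0x1) (nat_lit 100)) (.one (nat_lit 0x400e00f000000801c01f400)) (.br (Nat.shiftLeft (nat_lit 0x1) (nat_lit 101)) (.one (nat_lit 0x100400e00f000200801c01e540)) (.one (nat_lit 0x200400e00f000400801c01f500)))) (.br (Nat.shiftLeft (nat_lit 0x801) (nat_lit 101)) (.br (Nat.shiftLeft (nat_lit 0x1) (nat_lit 112)) (.one (nat_lit 0x300400e00f000600801c01f500)) (.one (nat_lit 0x100000400e00f200000801c01e411))) (.br (Nat.shiftLeft (nat_lit 0x1003) (nat_lit 100)) (.one (nat_lit 0x100200400e00f200400801c01f600)) (.one (nat_lit 0x100300400e00f200600801c01f600))))) (.br (Nat.shiftLeft (nat_lit 0x5) (nat_lit 112)) (.br (Nat.shiftLeft (nat_lit 0x3) (nat_lit 112)) (.br (Nat.shiftLeft (nat_lit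 0x1001) (nat_lit 101)) (.one (nat_lit 0x200000400e00f400000801c01e411)) (.one (nat_lit 0x200300400e00f400600801c01f600))) (.br (Nat.shiftLeft (nat_lit 0x1) (nat_lit 114)) (.one (nat_lit 0x300000400e00f600000801c01e411)) (.one (nat_lit 0x400000400e00f800000801c01e411)))) (.br (Nat.shiftLeft (nat_lit 0x7) (nat_lit 112)) (.br (Nat.shiftLeft (nat_lit 0x3) (nat_lit 113)) (.one (nat_lit 0x500000400e00fa00000801c01e411)) (.one (nat_lit 0x600000400e00fc00000801c01e411))) (.br (Nat.shiftLeft (nat_lit 0x1) (nat_lit 115)) (.one (nat_lit 0x700000400e00fe00000801c01e411)) (.one (nat_lit 0x800000400e00f000000801c120411))))))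
def t330 : k330.all (jb2 57 fl b0) = true := by decide +kernel
noncomputable def k331 : KT := (.br (Nat.shiftLeft (nat_lit 0x1) (nat_lit 125)) (.br (Nat.shiftLeft (nat_lit 0xd) (nat_lit 112)) (.br (Nat.shiftLeft (nat_lit 0xb) (nat_lit 112)) (.br (Nat.shiftLeft (nat_lit 0x5) (nat_lit 113)) (.one (nat_lit 0x900000400e00f200000801c120411)) (.one (nat_lit 0xa00000400e00f400000801c120411))) (.br (Nat.shiftLeft (nat_lit 0x3) (nat_lit 114)) (.one (nat_lit 0xb00000400e00f600000801c120411)) (.one (nat_lit 0xc00000400e00f800000801c120411)))) (.br (Nat.shiftLeft (nat_lit 0x1) (nat_lit 124)) (.br (Nat.shiftLeft (nat_lit 0x7) (nat_lit 113)) (.one (nat_lit 0xd00000400e00fa00000801c120411)) (.one (nat_lit 0xe00000400e00fc00000801c120411))) (.br (Nat.shiftLeft (nat_lit 0x1000003) (nat_lit 100)) (.one (nat_lit 0x100000200400e00f000400803c41e511)) (.br (Nat.shiftLeft (nat_lit 0x801) (nat_lit 113)) (.one (nat_lit 0x100000300400e00f000600803c41e511)) (.one (nat_lit 0x100200300400e00f400600803c41f700)))))) (.br (Nat.shiftLeft (nat_lit 0x4000003)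 (nat_lit 100)) (.br (Nat.shiftLeft (nat_lit 0x3) (nat_lit 124)) (.br (Nat.shiftLeft (nat_lit 0x2000003) (nat_lit 100)) (.one (nat_lit 0x200000200400e00f000400805c81e511)) (.one (nat_lit 0x200000300400e00f000600805c81e511))) (.br (Nat.shiftLeft (nat_lit 0x3000003) (nat_lit 100)) (.one (nat_lit 0x300000200400e00f000400807cc1e511)) (.br (Nat.shiftLeft (nat_lit 0x1) (nat_lit 126)) (.one (nat_lit 0x300000300400e00f000600807cc1e511)) (.one (nat_lit 0x400000200400e00f000400809d01e511))))) (.br (Nat.shiftLeft (nat_lit 0x5000003) (nat_lit 100)) (.br (Nat.shiftLeft (nat_lit 0x5) (nat_lit 124)) (.one (nat_lit 0x400000300400e00f000600809d01e511)) (.one (nat_lit 0x500000200400e00f00040080bd41e511))) (.br (Nat.shiftLeft (nat_lit 0x3) (nat_lit 125)) (.one (nat_lit 0x500000300400e00f00060080bd41e511)) (.br (Nat.shiftLeft (nat_lit 0x6000003) (nat_lit 100)) (.one (nat_lit 0x600000200400e00f00040080dd81e511)) (.one (nat_lit 0x600000300400e00f00060080dd81e511)))))))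
def t331 : k331.all (jb2 57 fl b0) = true := by decide +kernel
noncomputable def k332 : KT := (.br (Nat.shiftLeft (nat_lit 0x8000003) (nat_lit 100)) (.br (Nat.shiftLeft (nat_lit 0x7000003) (nat_lit 100)) (.one (nat_lit 0x700000200400e00f00040080fdc1e511)) (.br (Nat.shiftLeft (nat_lit 0x1) (nat_lit 127)) (.one (nat_lit 0x700000300400e00f00060080fdc1e511)) (.one (nat_lit 0x800000200400e00f000400811e01e511)))) (.br (Nat.shiftLeft (nat_lit 0x9) (nat_lit 124)) (.one (nat_lit 0x800000300400e00f000600811e01e511)) (.br (Nat.shiftLeft (nat_lit 0x9000003) (nat_lit 100)) (.one (nat_lit 0x900000200400e00f000400813e41e511)) (.one (nat_lit 0x900000300400e00f000600813e41e511)))))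
def t332 : k332.all (jb2 57 fl b0) = true := by decide +kernel
noncomputable def k333 : KT := (.br (Nat.shiftLeft (nat_lit 0x3) (nat_lit 126)) (.br (Nat.shiftLeft (nat_lit 0xb) (nat_lit 124)) (.br (Nat.shiftLeft (nat_lit 0xa000003) (nat_lit 100)) (.one (nat_lit 0xa00000200400e00f000400815e81e511)) (.one (nat_lit 0xa00000300400e00f000600815e81e511))) (.br (Nat.shiftLeft (nat_lit 0xb000003) (nat_lit 100)) (.one (nat_lit 0xb00000200400e00f000400817ec1e511)) (.one (nat_lit 0xb00000300400e00f000600817ec1e511)))) (.br (Nat.shiftLeft (nat_lit 0xd) (nat_lit 124)) (.br (Nat.shiftLeft (nat_lit 0xc000003) (nat_lit 100)) (.one (nat_lit 0xc00000200400e00f000400819f01e511)) (.one (nat_lit 0xc00000300400e00f000600819f01e511))) (.br (Nat.shiftLeft (nat_lit 0xd000003) (nat_lit 100)) (.one (nat_lit 0xd00000200400e00f00040081bf41e511)) (.br (Nat.shiftLeft (nat_lit 0x7) (nat_lit 125)) (.one (nat_lit 0xd00000300400e00f00060081bf41e511)) (.one (nat_lit 0xe00000200400e00f00040081df81e511))))))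
def t333 : k333.all (jb2 57 fl b0) = true := by decide +kernel
noncomputable def k334 : KT := (.br (Nat.shiftLeft (nat_lit 0x3) (nat_lit 136)) (.br (Nat.shiftLeft (nat_lit 0x800001) (nat_lit 113)) (.br (Nat.shiftLeft (nat_lit 0x1) (nat_lit 136)) (.one (nat_lit 0xe00000300400e00f00060081df81e511)) (.br (Nat.shiftLeft (nat_lit 0x1000001003) (nat_lit 100)) (.one (nat_lit 0x100000100200400e00f200402841c01e611)) (.one (nat_lit 0x100000100300400e00f200602841c01e611)))) (.br (Nat.shiftLeft (nat_lit 0x2000001003) (nat_lit 100)) (.br (Nat.shiftLeft (nat_lit 0x1) (nat_lit 137)) (.one (nat_lit 0x100000200300400e00f400602841c01e611)) (.one (nat_lit 0x200000100200400e00f200404881c01e611))) (.br (Nat.shiftLeft (nat_lit 0x1000001) (nat_lit 113)) (.one (nat_lit 0x200000100300400e00f200604881c01e611)) (.one (nat_lit 0x200000200300400e00f400604881c01e611))))) (.br (Nat.shiftLeft (nat_lit 0x1) (nat_lit 138)) (.br (Nat.shiftLeft (nat_lit 0x3000001003) (nat_lit 100)) (.one (nat_lit 0x300000100200400e00f2004068c1c01e611)) (.br (Nat.shiftLeft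 (nat_lit 0x1800001) (nat_lit 113)) (.one (nat_lit 0x300000100300400e00f2006068c1c01e611)) (.one (nat_lit 0x300000200300400e00f4006068c1c01e611)))) (.br (Nat.shiftLeft (nat_lit 0x2000001) (nat_lit 113)) (.br (Nat.shiftLeft (nat_lit 0x4000001003) (nat_lit 100)) (.one (nat_lit 0x400000100200400e00f200408901c01e611)) (.one (nat_lit 0x400000100300400e00f200608901c01e611))) (.br (Nat.shiftLeft (nat_lit 0x5) (nat_lit 136)) (.one (nat_lit 0x400000200300400e00f400608901c01e611)) (.one (nat_lit 0x500000100200400e00f20040a941c01e611))))))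
def t334 : k334.all (jb2 57 fl b0) = true := by decide +kernel
noncomputable def k335 : KT := (.br (Nat.shiftLeft (nat_lit 0x2800001) (nat_lit 113)) (.one (nat_lit 0x500000100300400e00f20060a941c01e611)) (.br (Nat.shiftLeft (nat_lit 0x3) (nat_lit 137)) (.one (nat_lit 0x500000200300400e00f40060a941c01e611)) (.one (nat_lit 0x600000100200400e00f20040c981c01e611))))
def t335 : k335.all (jb2 57 fl b0) = true := by decide +kernel
noncomputable def k336 : KT := (.br (Nat.shiftLeft (nat_lit 0x3000001) (nat_lit 113)) (.one (nat_lit 0x600000100300400e00f20060c981c01e611)) (.br (Nat.shiftLeft (nat_lit 0x7) (nat_lit 136)) (.one (nat_lit 0x600000200300400e00f40060c981c01e611)) (.one (nat_lit 0x700000100200400e00f20040e9c1c01e611))))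
def t336 : k336.all (jb2 57 fl b0) = true := by decide +kernel
noncomputable def k337 : KT := (.br (Nat.shiftLeft (nat_lit 0x3800001) (nat_lit 113)) (.one (nat_lit 0x700000100300400e00f20060e9c1c01e611)) (.br (Nat.shiftLeft (nat_lit 0x1) (nat_lit 139)) (.one (nat_lit 0x700000200300400e00f40060e9c1c01e611)) (.one (nat_lit 0x800000100200400e00f200410a01c01e611))))
def t337 : k337.all (jb2 57 fl b0) = true := by decide +kernel
noncomputable def k338 : KT := (.br (Nat.shiftLeft (nat_lit 0x9) (nat_lit 136)) (.br (Nat.shiftLeft (nat_lit 0x4000001) (nat_lit 113)) (.one (nat_lit 0x800000100300400e00f200610a01c01e611)) (.one (nat_lit 0x800000200300400e00f400610a01c01e611))) (.br (Nat.shiftLeft (nat_lit 0x9000001003) (nat_lit 100)) (.one (nat_lit 0x900000100200400e00f200412a41c01e611)) (.one (nat_lit 0x900000100300400e00f200612a41c01e611))))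
def t338 : k338.all (jb2 57 fl b0) = true := by decide +kernel
noncomputable def k339 : KT := (.br (Nat.shiftLeft (nat_lit 0x5000001) (nat_lit 113)) (.br (Nat.shiftLeft (nat_lit 0x5) (nat_lit 137)) (.one (nat_lit 0x900000200300400e00f400612a41c01e611)) (.br (Nat.shiftLeft (nat_lit 0xa000001003) (nat_lit 100)) (.one (nat_lit 0xa00000100200400e00f200414a81c01e611)) (.one (nat_lit 0xa00000100300400e00f200614a81c01e611)))) (.br (Nat.shiftLeft (nat_lit 0xb000001003) (nat_lit 100)) (.br (Nat.shiftLeft (nat_lit 0xb) (nat_lit 136)) (.one (nat_lit 0xa00000200300400e00f400614a81c01e611)) (.one (nat_lit 0xb00000100200400e00f200416ac1c01e611))) (.br (Nat.shiftLeft (nat_lit 0x5800001) (nat_lit 113)) (.one (nat_lit 0xb00000100300400e00f200616ac1c01e611)) (.one (nat_lit 0xb00000200300400e00f400616ac1c01e611)))))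
def t339 : k339.all (jb2 57 fl b0) = true := by decide +kernel
noncomputable def k340 : KT := (.br (Nat.shiftLeft (nat_lit 0x7) (nat_lit 137)) (.br (Nat.shiftLeft (nat_lit 0xd) (nat_lit 136)) (.br (Nat.shiftLeft (nat_lit 0xc000001003) (nat_lit 100)) (.one (nat_lit 0xc00000100200400e00f200418b01c01e611)) (.br (Nat.shiftLeft (nat_lit 0x6000001) (nat_lit 113)) (.one (nat_lit 0xc00000100300400e00f200618b01c01e611)) (.one (nat_lit 0xc00000200300400e00f400618b01c01e611)))) (.br (Nat.shiftLeft (nat_lit 0xd000001003) (nat_lit 100)) (.one (nat_lit 0xd00000100200400e00f20041ab41c01e611)) (.br (Nat.shiftLeft (nat_lit 0x6800001) (nat_lit 113)) (.one (nat_lit 0xd00000100300400e00f20061ab41c01e611)) (.one (nat_lit 0xd00000200300400e00f40061ab41c01e611))))) (.br (Nat.shiftLeft (nat_lit 0x1) (nat_lit 148)) (.br (Nat.shiftLeft (nat_lit 0xe000001003) (nat_lit 100)) (.one (nat_lit 0xe00000100200400e00f20041cb81c01e611)) (.br (Nat.shiftLeft (nat_lit 0x7000001) (nat_lit 113)) (.one (nat_lit 0xe00000100300400e00f20061cb81c01e611)) (.one (nat_lit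 0xe00000200300400e00f40061cb81c01e611)))) (.br (Nat.shiftLeft (nat_lit 0x3) (nat_lit 148)) (.br (Nat.shiftLeft (nat_lit 0x1) (nat_lit 149)) (.one (nat_lit 0x100000100200300400e00f402640803c41e711)) (.one (nat_lit 0x200000100200300400e00f404680803c41e711))) (.br (Nat.shiftLeft (nat_lit 0x1) (nat_lit 150)) (.one (nat_lit 0x300000100200300400e00f4066c0803c41e711)) (.one (nat_lit 0x400000100200300400e00f408700803c41e711))))))
def t340 : k340.all (jb2 57 fl b0) = true := by decide +kernel
noncomputable def k341 : KT := (.br (Nat.shiftLeft (nat_lit 0x7) (nat_lit 148)) (.br (Nat.shiftLeft (nat_lit 0x3) (nat_lit 149)) (.one (nat_lit 0x500000100200300400e00f40a740803c41e711)) (.one (nat_lit 0x600000100200300400e00f40c780803c41e711))) (.br (Nat.shiftLeft (nat_lit 0x1) (nat_lit 151)) (.one (nat_lit 0x700000100200300400e00f40e7c0803c41e711)) (.one (nat_lit 0x800000100200300400e00f410800803c41e711))))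
def t341 : k341.all (jb2 57 fl b0) = true := by decide +kernel
noncomputable def k342 : KT := (.br (Nat.shiftLeft (nat_lit 0x3) (nat_lit 150)) (.br (Nat.shiftLeft (nat_lit 0x5) (nat_lit 149)) (.one (nat_lit 0x900000100200300400e00f412840803c41e711)) (.br (Nat.shiftLeft (nat_lit 0xb) (nat_lit 148)) (.one (nat_lit 0xa00000100200300400e00f414880803c41e711)) (.one (nat_lit 0xb00000100200300400e00f4168c0803c41e711)))) (.br (Nat.shiftLeft (nat_lit 0xd) (nat_lit 148)) (.one (nat_lit 0xc00000100200300400e00f418900803c41e711)) (.br (Nat.shiftLeft (nat_lit 0x7) (nat_lit 149)) (.one (nat_lit 0xd00000100200300400e00f41a940803c41e711)) (.one (nat_lit 0xe00000100200300400e00f41c980803c41e711)))))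
def t342 : k342.all (jb2 57 fl b0) = true := by decide +kernel
noncomputable def s18 : KT := (.br (nat_lit 0x600000100200400e00f20040c981c01e611) (.br (nat_lit 0x900000300400e00f000600813e41e511) (.br (nat_lit 0x800000400e00f000000801c120411) k330 (.br (nat_lit 0x600000300400e00f00060080dd81e511) k331 k332)) (.br (nat_lit 0xe00000200400e00f00040081df81e511) k333 (.br (nat_lit 0x500000100200400e00f20040a941c01e611) k334 k335))) (.br (nat_lit 0x900000100300400e00f200612a41c01e611) (.br (nat_lit 0x700000100200400e00f20040e9c1c01e611) k336 (.br (nat_lit 0x800000100200400e00f200410a01c01e611) k337 k338)) (.br (nat_lit 0x400000100200300400e00f408700803c41e711) (.br (nat_lit 0xb00000200300400e00f400616ac1c01e611) k339 k340) (.br (nat_lit 0x800000100200300400e00f410800803c41e711) k341 k342))))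
noncomputable def u18 : KT := (.one (nat_lit 0x400e00f000000801c01e430))
def w18 : u18.all (wj 57 s18) = true := by decide +kernel
def o18 : OkW 57 (jb2 57 fl) u18 := .lift s18 _ (.br _ _ _ (.br _ _ _ (.br _ _ _ (.leaf b0 k330 t330) (.br _ _ _ (.leaf b0 k331 t331) (.leaf b0 k332 t332))) (.br _ _ _ (.leaf b0 k333 t333) (.br _ _ _ (.leaf b0 k334 t334) (.leaf b0 k335 t335)))) (.br _ _ _ (.br _ _ _ (.leaf b0 k336 t336) (.br _ _ _ (.leaf b0 k337 t337) (.leaf b0 k338 t338))) (.br _ _ _ (.br _ _ _ (.leaf b0 k339 t339) (.leaf b0 k340 t340)) (.br _ _ _ (.leaf b0 k341 t341) (.leaf b0 k342 t342))))) w18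
noncomputable def k343 : KT := (.br (Nat.shiftLeft (nat_lit 0x400e011) (nat_lit 64)) (.one (nat_lit 0x400e010000000801c021400)) (.br (Nat.shiftLeft (nat_lit 0x1) (nat_lit 100)) (.one (nat_lit 0x400e011000000801c023400)) (.one (nat_lit 0x100400e010000200801c020540))))
def t343 : k343.all (jb2 57 fl b0) = true := by decide +kernel
noncomputable def k344 : KT := (.br (Nat.shiftLeft (nat_lit 0x100300400e011) (nat_lit 64)) (.br (Nat.shiftLeft (nat_lit 0x1) (nat_lit 112)) (.br (Nat.shiftLeft (nat_lit 0x200400e011) (nat_lit 64)) (.br (Nat.shiftLeft (nat_lit 0x1) (nat_lit 101)) (.one (nat_lit 0x100400e011000200801c022540)) (.one (nat_lit 0x200400e010000400801c021500))) (.br (Nat.shiftLeft (nat_lit 0x3) (nat_lit 100)) (.one (nat_lit 0x200400e011000400801c023500)) (.br (Nat.shiftLeft (nat_lit 0x300400e011) (nat_lit 64)) (.one (nat_lit 0x300400e010000600801c021500)) (.one (nat_lit 0x300400e011000600801c023500))))) (.br (Nat.shiftLeft (nat_lit 0x801) (nat_lit 101)) (.br (Nat.shiftLeft (nat_lit 0x100000400e011) (nat_lit 64)) (.one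 (nat_lit 0x100000400e010200000801c020411)) (.one (nat_lit 0x100000400e011200000801c022411))) (.br (Nat.shiftLeft (nat_lit 0x100200400e011) (nat_lit 64)) (.one (nat_lit 0x100200400e010200400801c021600)) (.br (Nat.shiftLeft (nat_lit 0x1003) (nat_lit 100)) (.one (nat_lit 0x100200400e011200400801c023600)) (.one (nat_lit 0x100300400e010200600801c021600)))))) (.br (Nat.shiftLeft (nat_lit 0x3) (nat_lit 112)) (.br (Nat.shiftLeft (nat_lit 0x200000400e011) (nat_lit 64)) (.br (Nat.shiftLeft (nat_lit 0x1) (nat_lit 113)) (.one (nat_lit 0x100300400e011200600801c023600)) (.one (nat_lit 0x200000400e010400000801c020411))) (.br (Nat.shiftLeft (nat_lit 0x1001) (nat_lit 101)) (.one (nat_lit 0x200000400e011400000801c022411)) (.br (Nat.shiftLeft (nat_lit 0x200300400e011) (nat_lit 64)) (.one (nat_lit 0x200300400e010400600801c021600)) (.one (nat_lit 0x200300400e011400600801c023600))))) (.br (Nat.shiftLeft (nat_lit 0x1) (nat_lit 114)) (.br (Nat.shiftLeft (nat_lit 0x300000400e011) (nat_lit 64)) (.one (nat_lit 0x300000400e010600000801c020411))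 (.one (nat_lit 0x300000400e011600000801c022411))) (.br (Nat.shiftLeft (nat_lit 0x400000400e011) (nat_lit 64)) (.one (nat_lit 0x400000400e010800000801c020411)) (.br (Nat.shiftLeft (nat_lit 0x5) (nat_lit 112)) (.one (nat_lit 0x400000400e011800000801c022411)) (.one (nat_lit 0x500000400e010a00000801c020411)))))))
def t344 : k344.all (jb2 57 fl b0) = true := by decide +kernel
noncomputable def k345 : KT := (.br (Nat.shiftLeft (nat_lit 0xb00000400e011) (nat_lit 64)) (.br (Nat.shiftLeft (nat_lit 0x800000400e011) (nat_lit 64)) (.br (Nat.shiftLeft (nat_lit 0x7) (nat_lit 112)) (.br (Nat.shiftLeft (nat_lit 0x3) (nat_lit 113)) (.one (nat_lit 0x500000400e011a00000801c022411)) (.br (Nat.shiftLeft (nat_lit 0x600000400e011) (nat_lit 64)) (.one (nat_lit 0x600000400e010c00000801c020411)) (.one (nat_lit 0x600000400e011c00000801c022411)))) (.br (Nat.shiftLeft (nat_lit 0x700000400e011) (nat_lit 64)) (.one (nat_lit 0x700000400e010e00000801c020411)) (.br (Nat.shiftLeft (nat_lit 0x1) (nat_lit 115)) (.one (nat_lit 0x700000400e011e00000801c022411))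 (.one (nat_lit 0x800000400e010000000801c122411))))) (.br (Nat.shiftLeft (nat_lit 0x5) (nat_lit 113)) (.br (Nat.shiftLeft (nat_lit 0x9) (nat_lit 112)) (.one (nat_lit 0x800000400e011000000801c124411)) (.br (Nat.shiftLeft (nat_lit 0x900000400e011) (nat_lit 64)) (.one (nat_lit 0x900000400e010200000801c122411)) (.one (nat_lit 0x900000400e011200000801c124411)))) (.br (Nat.shiftLeft (nat_lit 0xa00000400e011) (nat_lit 64)) (.one (nat_lit 0xa00000400e010400000801c122411)) (.br (Nat.shiftLeft (nat_lit 0xb) (nat_lit 112)) (.one (nat_lit 0xa00000400e011400000801c124411)) (.one (nat_lit 0xb00000400e010600000801c122411)))))) (.br (Nat.shiftLeft (nat_lit 0xe00000400e011) (nat_lit 64)) (.br (Nat.shiftLeft (nat_lit 0xd) (nat_lit 112)) (.br (Nat.shiftLeft (nat_lit 0x3) (nat_lit 114)) (.one (nat_lit 0xb00000400e011600000801c124411)) (.br (Nat.shiftLeft (nat_lit 0xc00000400e011) (nat_lit 64)) (.one (nat_lit 0xc00000400e010800000801c122411)) (.one (nat_lit 0xc00000400e011800000801c124411)))) (.br (Nat.shiftLeft (nat_lit 0xd00000400e011)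 (nat_lit 64)) (.one (nat_lit 0xd00000400e010a00000801c122411)) (.br (Nat.shiftLeft (nat_lit 0x7) (nat_lit 113)) (.one (nat_lit 0xd00000400e011a00000801c124411)) (.one (nat_lit 0xe00000400e010c00000801c122411))))) (.br (Nat.shiftLeft (nat_lit 0x1000003) (nat_lit 100)) (.br (Nat.shiftLeft (nat_lit 0x1) (nat_lit 124)) (.one (nat_lit 0xe00000400e011c00000801c124411)) (.br (Nat.shiftLeft (nat_lit 0x100000200400e011) (nat_lit 64)) (.one (nat_lit 0x100000200400e010000400803c420511)) (.one (nat_lit 0x100000200400e011000400803c422511)))) (.br (Nat.shiftLeft (nat_lit 0x100000300400e011) (nat_lit 64)) (.one (nat_lit 0x100000300400e010000600803c420511)) (.br (Nat.shiftLeft (nat_lit 0x801) (nat_lit 113)) (.one (nat_lit 0x100000300400e011000600803c422511)) (.one (nat_lit 0x100200300400e010400600803c421700)))))))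
def t345 : k345.all (jb2 57 fl b0) = true := by decide +kernel
noncomputable def k346 : KT := (.br (Nat.shiftLeft (nat_lit 0x200000200400e011) (nat_lit 64)) (.br (Nat.shiftLeft (nat_lit 0x1) (nat_lit 125)) (.one (nat_lit 0x100200300400e011400600803c422760)) (.one (nat_lit 0x200000200400e010000400805c820511))) (.br (Nat.shiftLeft (nat_lit 0x2000003) (nat_lit 100)) (.one (nat_lit 0x200000200400e011000400805c822511)) (.br (Nat.shiftLeft (nat_lit 0x200000300400e011) (nat_lit 64)) (.one (nat_lit 0x200000300400e010000600805c820511)) (.one (nat_lit 0x200000300400e011000600805c822511)))))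
def t346 : k346.all (jb2 57 fl b0) = true := by decide +kernel
noncomputable def k347 : KT := (.br (Nat.shiftLeft (nat_lit 0x4000003) (nat_lit 100)) (.br (Nat.shiftLeft (nat_lit 0x300000300400e011) (nat_lit 64)) (.br (Nat.shiftLeft (nat_lit 0x300000200400e011) (nat_lit 64)) (.one (nat_lit 0x300000200400e010000400807cc20511)) (.br (Nat.shiftLeft (nat_lit 0x3000003) (nat_lit 100)) (.one (nat_lit 0x300000200400e011000400807cc22511)) (.one (nat_lit 0x300000300400e010000600807cc20511)))) (.br (Nat.shiftLeft (nat_lit 0x1) (nat_lit 126)) (.one (nat_lit 0x300000300400e011000600807cc22511)) (.br (Nat.shiftLeft (nat_lit 0x400000200400e011) (nat_lit 64)) (.one (nat_lit 0x400000200400e010000400809d020511)) (.one (nat_lit 0x400000200400e011000400809d022511))))) (.br (Nat.shiftLeft (nat_lit 0x500000200400e011) (nat_lit 64)) (.br (Nat.shiftLeft (nat_lit 0x400000300400e011) (nat_lit 64)) (.one (nat_lit 0x400000300400e010000600809d020511)) (.br (Nat.shiftLeft (nat_lit 0x5) (nat_lit 124)) (.one (nat_lit 0x400000300400e011000600809d022511))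 (.one (nat_lit 0x500000200400e01000040080bd420511)))) (.br (Nat.shiftLeft (nat_lit 0x5000003) (nat_lit 100)) (.one (nat_lit 0x500000200400e01100040080bd422511)) (.br (Nat.shiftLeft (nat_lit 0x500000300400e011) (nat_lit 64)) (.one (nat_lit 0x500000300400e01000060080bd420511)) (.one (nat_lit 0x500000300400e01100060080bd422511))))))
def t347 : k347.all (jb2 57 fl b0) = true := by decide +kernel
noncomputable def k348 : KT := (.br (Nat.shiftLeft (nat_lit 0x600000300400e011) (nat_lit 64)) (.br (Nat.shiftLeft (nat_lit 0x600000200400e011) (nat_lit 64)) (.one (nat_lit 0x600000200400e01000040080dd820511)) (.br (Nat.shiftLeft (nat_lit 0x6000003) (nat_lit 100)) (.one (nat_lit 0x600000200400e01100040080dd822511)) (.one (nat_lit 0x600000300400e01000060080dd820511)))) (.br (Nat.shiftLeft (nat_lit 0x7) (nat_lit 124)) (.one (nat_lit 0x600000300400e01100060080dd822511)) (.br (Nat.shiftLeft (nat_lit 0x700000200400e011) (nat_lit 64)) (.one (nat_lit 0x700000200400e01000040080fdc20511)) (.one (nat_lit 0x700000200400e01100040080fdc22511)))))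
def t348 : k348.all (jb2 57 fl b0) = true := by decide +kernel
noncomputable def k349 : KT := (.br (Nat.shiftLeft (nat_lit 0x800000200400e011) (nat_lit 64)) (.br (Nat.shiftLeft (nat_lit 0x700000300400e011) (nat_lit 64)) (.one (nat_lit 0x700000300400e01000060080fdc20511)) (.br (Nat.shiftLeft (nat_lit 0x1) (nat_lit 127)) (.one (nat_lit 0x700000300400e01100060080fdc22511)) (.one (nat_lit 0x800000200400e010000400811e020511)))) (.br (Nat.shiftLeft (nat_lit 0x8000003) (nat_lit 100)) (.one (nat_lit 0x800000200400e011000400811e022511)) (.br (Nat.shiftLeft (nat_lit 0x800000300400e011) (nat_lit 64)) (.one (nat_lit 0x800000300400e010000600811e020511)) (.one (nat_lit 0x800000300400e011000600811e022511)))))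
def t349 : k349.all (jb2 57 fl b0) = true := by decide +kernel
noncomputable def k350 : KT := (.br (Nat.shiftLeft (nat_lit 0x900000300400e011) (nat_lit 64)) (.br (Nat.shiftLeft (nat_lit 0x900000200400e011) (nat_lit 64)) (.one (nat_lit 0x900000200400e010000400813e420511)) (.br (Nat.shiftLeft (nat_lit 0x9000003) (nat_lit 100)) (.one (nat_lit 0x900000200400e011000400813e422511)) (.one (nat_lit 0x900000300400e010000600813e420511)))) (.br (Nat.shiftLeft (nat_lit 0xa00000200400e011) (nat_lit 64)) (.br (Nat.shiftLeft (nat_lit 0x5) (nat_lit 125)) (.one (nat_lit 0x900000300400e011000600813e422511)) (.one (nat_lit 0xa00000200400e010000400815e820511))) (.br (Nat.shiftLeft (nat_lit 0xa000003) (nat_lit 100)) (.one (nat_lit 0xa00000200400e011000400815e822511)) (.one (nat_lit 0xa00000300400e010000600815e820511)))))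
def t350 : k350.all (jb2 57 fl b0) = true := by decide +kernel
noncomputable def k351 : KT := (.br (Nat.shiftLeft (nat_lit 0x3) (nat_lit 126)) (.br (Nat.shiftLeft (nat_lit 0xb00000200400e011) (nat_lit 64)) (.br (Nat.shiftLeft (nat_lit 0xb) (nat_lit 124)) (.one (nat_lit 0xa00000300400e011000600815e822511)) (.one (nat_lit 0xb00000200400e010000400817ec20511))) (.br (Nat.shiftLeft (nat_lit 0xb000003) (nat_lit 100)) (.one (nat_lit 0xb00000200400e011000400817ec22511)) (.br (Nat.shiftLeft (nat_lit 0xb00000300400e011) (nat_lit 64)) (.one (nat_lit 0xb00000300400e010000600817ec20511)) (.one (nat_lit 0xb00000300400e011000600817ec22511))))) (.br (Nat.shiftLeft (nat_lit 0xc00000300400e011) (nat_lit 64)) (.br (Nat.shiftLeft (nat_lit 0xc00000200400e011) (nat_lit 64)) (.one (nat_lit 0xc00000200400e010000400819f020511)) (.br (Nat.shiftLeft (nat_lit 0xc000003) (nat_lit 100)) (.one (nat_lit 0xc00000200400e011000400819f022511)) (.one (nat_lit 0xc00000300400e010000600819f020511)))) (.br (Nat.shiftLeft (nat_lit 0xd) (nat_lit 124)) (.one (nat_lit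 0xc00000300400e011000600819f022511)) (.br (Nat.shiftLeft (nat_lit 0xd00000200400e011) (nat_lit 64)) (.one (nat_lit 0xd00000200400e01000040081bf420511)) (.one (nat_lit 0xd00000200400e01100040081bf422511))))))
def t351 : k351.all (jb2 57 fl b0) = true := by decide +kernel
noncomputable def k352 : KT := (.br (Nat.shiftLeft (nat_lit 0x2000001003) (nat_lit 100)) (.br (Nat.shiftLeft (nat_lit 0x100000100200400e011) (nat_lit 64)) (.br (Nat.shiftLeft (nat_lit 0xe00000200400e011) (nat_lit 64)) (.br (Nat.shiftLeft (nat_lit 0xd00000300400e011) (nat_lit 64)) (.one (nat_lit 0xd00000300400e01000060081bf420511)) (.br (Nat.shiftLeft (nat_lit 0x7) (nat_lit 125)) (.one (nat_lit 0xd00000300400e01100060081bf422511)) (.one (nat_lit 0xe00000200400e01000040081df820511)))) (.br (Nat.shiftLeft (nat_lit 0xe00000300400e011) (nat_lit 64)) (.br (Nat.shiftLeft (nat_lit 0xe000003) (nat_lit 100)) (.one (nat_lit 0xe00000200400e01100040081df822511)) (.one (nat_lit 0xe00000300400e01000060081df820511))) (.br (Nat.shiftLeft (nat_lit 0x1) (nat_lit 136)) (.one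 (nat_lit 0xe00000300400e01100060081df822511)) (.one (nat_lit 0x100000100200400e010200402841c020611))))) (.br (Nat.shiftLeft (nat_lit 0x800001) (nat_lit 113)) (.br (Nat.shiftLeft (nat_lit 0x1000001003) (nat_lit 100)) (.one (nat_lit 0x100000100200400e011200402841c022611)) (.br (Nat.shiftLeft (nat_lit 0x100000100300400e011) (nat_lit 64)) (.one (nat_lit 0x100000100300400e010200602841c020611)) (.one (nat_lit 0x100000100300400e011200602841c022611)))) (.br (Nat.shiftLeft (nat_lit 0x1) (nat_lit 137)) (.br (Nat.shiftLeft (nat_lit 0x100000200300400e011) (nat_lit 64)) (.one (nat_lit 0x100000200300400e010400602841c020611)) (.one (nat_lit 0x100000200300400e011400602841c022611))) (.br (Nat.shiftLeft (nat_lit 0x200000100200400e011) (nat_lit 64)) (.one (nat_lit 0x200000100200400e010200404881c020611)) (.one (nat_lit 0x200000100200400e011200404881c022611)))))) (.br (Nat.shiftLeft (nat_lit 0x300000100300400e011) (nat_lit 64)) (.br (Nat.shiftLeft (nat_lit 0x200000200300400e011) (nat_lit 64)) (.br (Nat.shiftLeft (nat_lit 0x200000100300400e011)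 (nat_lit 64)) (.one (nat_lit 0x200000100300400e010200604881c020611)) (.br (Nat.shiftLeft (nat_lit 0x1000001) (nat_lit 113)) (.one (nat_lit 0x200000100300400e011200604881c022611)) (.one (nat_lit 0x200000200300400e010400604881c020611)))) (.br (Nat.shiftLeft (nat_lit 0x300000100200400e011) (nat_lit 64)) (.br (Nat.shiftLeft (nat_lit 0x3) (nat_lit 136)) (.one (nat_lit 0x200000200300400e011400604881c022611)) (.one (nat_lit 0x300000100200400e0102004068c1c020611))) (.br (Nat.shiftLeft (nat_lit 0x3000001003) (nat_lit 100)) (.one (nat_lit 0x300000100200400e0112004068c1c022611)) (.one (nat_lit 0x300000100300400e0102006068c1c020611))))) (.br (Nat.shiftLeft (nat_lit 0x1) (nat_lit 138)) (.br (Nat.shiftLeft (nat_lit 0x1800001) (nat_lit 113)) (.one (nat_lit 0x300000100300400e0112006068c1c022611)) (.br (Nat.shiftLeft (nat_lit 0x300000200300400e011) (nat_lit 64)) (.one (nat_lit 0x300000200300400e0104006068c1c020611)) (.one (nat_lit 0x300000200300400e0114006068c1c022611)))) (.br (Nat.shiftLeft (nat_lit 0x4000001003) (nat_lit 100)) (.br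 (Nat.shiftLeft (nat_lit 0x400000100200400e011) (nat_lit 64)) (.one (nat_lit 0x400000100200400e010200408901c020611)) (.one (nat_lit 0x400000100200400e011200408901c022611))) (.br (Nat.shiftLeft (nat_lit 0x400000100300400e011) (nat_lit 64)) (.one (nat_lit 0x400000100300400e010200608901c020611)) (.one (nat_lit 0x400000100300400e011200608901c022611)))))))
def t352 : k352.all (jb2 57 fl b0) = true := by decide +kernel
noncomputable def k353 : KT := (.br (Nat.shiftLeft (nat_lit 0x5) (nat_lit 136)) (.br (Nat.shiftLeft (nat_lit 0x400000200300400e011) (nat_lit 64)) (.one (nat_lit 0x400000200300400e010400608901c020611)) (.one (nat_lit 0x400000200300400e011400608901c022611))) (.br (Nat.shiftLeft (nat_lit 0x500000100200400e011) (nat_lit 64)) (.one (nat_lit 0x500000100200400e01020040a941c020611)) (.br (Nat.shiftLeft (nat_lit 0x5000001003) (nat_lit 100)) (.one (nat_lit 0x500000100200400e01120040a941c022611)) (.one (nat_lit 0x500000100300400e01020060a941c020611)))))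
def t353 : k353.all (jb2 57 fl b0) = true := by decide +kernel
noncomputable def k354 : KT := (.br (Nat.shiftLeft (nat_lit 0x2800001) (nat_lit 113)) (.one (nat_lit 0x500000100300400e01120060a941c022611)) (.br (Nat.shiftLeft (nat_lit 0x500000200300400e011) (nat_lit 64)) (.one (nat_lit 0x500000200300400e01040060a941c020611)) (.one (nat_lit 0x500000200300400e01140060a941c022611))))
def t354 : k354.all (jb2 57 fl b0) = true := by decide +kernel
noncomputable def k355 : KT := (.br (Nat.shiftLeft (nat_lit 0x600000100200400e011) (nat_lit 64)) (.one (nat_lit 0x600000100200400e01020040c981c020611)) (.br (Nat.shiftLeft (nat_lit 0x6000001003) (nat_lit 100)) (.one (nat_lit 0x600000100200400e01120040c981c022611)) (.one (nat_lit 0x600000100300400e01020060c981c020611))))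
def t355 : k355.all (jb2 57 fl b0) = true := by decide +kernel
noncomputable def k356 : KT := (.br (Nat.shiftLeft (nat_lit 0x600000200300400e011) (nat_lit 64)) (.br (Nat.shiftLeft (nat_lit 0x3000001) (nat_lit 113)) (.one (nat_lit 0x600000100300400e01120060c981c022611)) (.one (nat_lit 0x600000200300400e01040060c981c020611))) (.br (Nat.shiftLeft (nat_lit 0x7) (nat_lit 136)) (.one (nat_lit 0x600000200300400e01140060c981c022611)) (.one (nat_lit 0x700000100200400e01020040e9c1c020611))))
def t356 : k356.all (jb2 57 fl b0) = true := by decide +kernel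
noncomputable def k357 : KT := (.br (Nat.shiftLeft (nat_lit 0x700000100300400e011) (nat_lit 64)) (.br (Nat.shiftLeft (nat_lit 0x7000001003) (nat_lit 100)) (.one (nat_lit 0x700000100200400e01120040e9c1c022611)) (.one (nat_lit 0x700000100300400e01020060e9c1c020611))) (.br (Nat.shiftLeft (nat_lit 0x3800001) (nat_lit 113)) (.one (nat_lit 0x700000100300400e01120060e9c1c022611)) (.one (nat_lit 0x700000200300400e01040060e9c1c020611))))
def t357 : k357.all (jb2 57 fl b0) = true := by decide +kernel
noncomputable def k358 : KT := (.br (Nat.shiftLeft (nat_lit 0x800000100200400e011) (nat_lit 64)) (.br (Nat.shiftLeft (nat_lit 0x1) (nat_lit 139)) (.one (nat_lit 0x700000200300400e01140060e9c1c022611)) (.one (nat_lit 0x800000100200400e010200410a01c020611))) (.br (Nat.shiftLeft (nat_lit 0x8000001003) (nat_lit 100)) (.one (nat_lit 0x800000100200400e011200410a01c022611)) (.br (Nat.shiftLeft (nat_lit 0x800000100300400e011) (nat_lit 64)) (.one (nat_lit 0x800000100300400e010200610a01c020611)) (.one (nat_lit 0x800000100300400e011200610a01c022611)))))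
def t358 : k358.all (jb2 57 fl b0) = true := by decide +kernel
noncomputable def k359 : KT := (.br (Nat.shiftLeft (nat_lit 0x900000100200400e011) (nat_lit 64)) (.br (Nat.shiftLeft (nat_lit 0x800000200300400e011) (nat_lit 64)) (.one (nat_lit 0x800000200300400e010400610a01c020611)) (.br (Nat.shiftLeft (nat_lit 0x9) (nat_lit 136)) (.one (nat_lit 0x800000200300400e011400610a01c022611)) (.one (nat_lit 0x900000100200400e010200412a41c020611)))) (.br (Nat.shiftLeft (nat_lit 0x9000001003) (nat_lit 100)) (.one (nat_lit 0x900000100200400e011200412a41c022611)) (.br (Nat.shiftLeft (nat_lit 0x900000100300400e011) (nat_lit 64)) (.one (nat_lit 0x900000100300400e010200612a41c020611)) (.one (nat_lit 0x900000100300400e011200612a41c022611)))))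
def t359 : k359.all (jb2 57 fl b0) = true := by decide +kernel
noncomputable def k360 : KT := (.br (Nat.shiftLeft (nat_lit 0xa000001003) (nat_lit 100)) (.br (Nat.shiftLeft (nat_lit 0x5) (nat_lit 137)) (.br (Nat.shiftLeft (nat_lit 0x900000200300400e011) (nat_lit 64)) (.one (nat_lit 0x900000200300400e010400612a41c020611)) (.one (nat_lit 0x900000200300400e011400612a41c022611))) (.br (Nat.shiftLeft (nat_lit 0xa00000100200400e011) (nat_lit 64)) (.one (nat_lit 0xa00000100200400e010200414a81c020611)) (.one (nat_lit 0xa00000100200400e011200414a81c022611)))) (.br (Nat.shiftLeft (nat_lit 0x5000001) (nat_lit 113)) (.br (Nat.shiftLeft (nat_lit 0xa00000100300400e011) (nat_lit 64)) (.one (nat_lit 0xa00000100300400e010200614a81c020611)) (.one (nat_lit 0xa00000100300400e011200614a81c022611))) (.br (Nat.shiftLeft (nat_lit 0xa00000200300400e011) (nat_lit 64)) (.one (nat_lit 0xa00000200300400e010400614a81c020611)) (.one (nat_lit 0xa00000200300400e011400614a81c022611)))))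
def t360 : k360.all (jb2 57 fl b0) = true := by decide +kernel
noncomputable def k361 : KT := (.br (Nat.shiftLeft (nat_lit 0xc00000100200400e011) (nat_lit 64)) (.br (Nat.shiftLeft (nat_lit 0xb00000100300400e011) (nat_lit 64)) (.br (Nat.shiftLeft (nat_lit 0xb00000100200400e011) (nat_lit 64)) (.one (nat_lit 0xb00000100200400e010200416ac1c020611)) (.br (Nat.shiftLeft (nat_lit 0xb000001003) (nat_lit 100)) (.one (nat_lit 0xb00000100200400e011200416ac1c022611)) (.one (nat_lit 0xb00000100300400e010200616ac1c020611)))) (.br (Nat.shiftLeft (nat_lit 0xb00000200300400e011) (nat_lit 64)) (.br (Nat.shiftLeft (nat_lit 0x5800001) (nat_lit 113)) (.one (nat_lit 0xb00000100300400e011200616ac1c022611)) (.one (nat_lit 0xb00000200300400e010400616ac1c020611))) (.br (Nat.shiftLeft (nat_lit 0x3) (nat_lit 138)) (.one (nat_lit 0xb00000200300400e011400616ac1c022611)) (.one (nat_lit 0xc00000100200400e010200418b01c020611))))) (.br (Nat.shiftLeft (nat_lit 0x6000001) (nat_lit 113)) (.br (Nat.shiftLeft (nat_lit 0xc000001003) (nat_lit 100)) (.one (nat_lit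 0xc00000100200400e011200418b01c022611)) (.br (Nat.shiftLeft (nat_lit 0xc00000100300400e011) (nat_lit 64)) (.one (nat_lit 0xc00000100300400e010200618b01c020611)) (.one (nat_lit 0xc00000100300400e011200618b01c022611)))) (.br (Nat.shiftLeft (nat_lit 0xd) (nat_lit 136)) (.br (Nat.shiftLeft (nat_lit 0xc00000200300400e011) (nat_lit 64)) (.one (nat_lit 0xc00000200300400e010400618b01c020611)) (.one (nat_lit 0xc00000200300400e011400618b01c022611))) (.br (Nat.shiftLeft (nat_lit 0xd00000100200400e011) (nat_lit 64)) (.one (nat_lit 0xd00000100200400e01020041ab41c020611)) (.one (nat_lit 0xd00000100200400e01120041ab41c022611))))))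
def t361 : k361.all (jb2 57 fl b0) = true := by decide +kernel
noncomputable def k362 : KT := (.br (Nat.shiftLeft (nat_lit 0x7000001) (nat_lit 113)) (.br (Nat.shiftLeft (nat_lit 0x7) (nat_lit 137)) (.br (Nat.shiftLeft (nat_lit 0x6800001) (nat_lit 113)) (.br (Nat.shiftLeft (nat_lit 0xd00000100300400e011) (nat_lit 64)) (.one (nat_lit 0xd00000100300400e01020061ab41c020611)) (.one (nat_lit 0xd00000100300400e01120061ab41c022611))) (.br (Nat.shiftLeft (nat_lit 0xd00000200300400e011) (nat_lit 64)) (.one (nat_lit 0xd00000200300400e01040061ab41c020611)) (.one (nat_lit 0xd00000200300400e01140061ab41c022611)))) (.br (Nat.shiftLeft (nat_lit 0xe000001003) (nat_lit 100)) (.br (Nat.shiftLeft (nat_lit 0xe00000100200400e011) (nat_lit 64)) (.one (nat_lit 0xe00000100200400e01020041cb81c020611)) (.one (nat_lit 0xe00000100200400e01120041cb81c022611))) (.br (Nat.shiftLeft (nat_lit 0xe00000100300400e011) (nat_lit 64)) (.one (nat_lit 0xe00000100300400e01020061cb81c020611)) (.one (nat_lit 0xe00000100300400e01120061cb81c022611))))) (.br (Nat.shiftLeft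 (nat_lit 0x3) (nat_lit 148)) (.br (Nat.shiftLeft (nat_lit 0x1) (nat_lit 148)) (.br (Nat.shiftLeft (nat_lit 0xe00000200300400e011) (nat_lit 64)) (.one (nat_lit 0xe00000200300400e01040061cb81c020611)) (.one (nat_lit 0xe00000200300400e01140061cb81c022611))) (.br (Nat.shiftLeft (nat_lit 0x1) (nat_lit 149)) (.one (nat_lit 0x100000100200300400e010402640803c420711)) (.one (nat_lit 0x200000100200300400e010404680803c420711)))) (.br (Nat.shiftLeft (nat_lit 0x5) (nat_lit 148)) (.br (Nat.shiftLeft (nat_lit 0x1) (nat_lit 150)) (.one (nat_lit 0x300000100200300400e0104066c0803c420711)) (.one (nat_lit 0x400000100200300400e010408700803c420711))) (.br (Nat.shiftLeft (nat_lit 0x3) (nat_lit 149)) (.one (nat_lit 0x500000100200300400e01040a740803c420711)) (.one (nat_lit 0x600000100200300400e01040c780803c420711))))))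
def t362 : k362.all (jb2 57 fl b0) = true := by decide +kernel
noncomputable def k363 : KT := (.br (Nat.shiftLeft (nat_lit 0xb) (nat_lit 148)) (.br (Nat.shiftLeft (nat_lit 0x9) (nat_lit 148)) (.br (Nat.shiftLeft (nat_lit 0x1) (nat_lit 151)) (.one (nat_lit 0x700000100200300400e01040e7c0803c420711)) (.one (nat_lit 0x800000100200300400e010410800803c420711))) (.br (Nat.shiftLeft (nat_lit 0x5) (nat_lit 149)) (.one (nat_lit 0x900000100200300400e010412840803c420711)) (.one (nat_lit 0xa00000100200300400e010414880803c420711)))) (.br (Nat.shiftLeft (nat_lit 0xd) (nat_lit 148)) (.br (Nat.shiftLeft (nat_lit 0x3) (nat_lit 150)) (.one (nat_lit 0xb00000100200300400e0104168c0803c420711)) (.one (nat_lit 0xc00000100200300400e010418900803c420711))) (.br (Nat.shiftLeft (nat_lit 0x7) (nat_lit 149)) (.one (nat_lit 0xd00000100200300400e01041a940803c420711)) (.one (nat_lit 0xe00000100200300400e01041c980803c420711)))))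
def t363 : k363.all (jb2 57 fl b0) = true := by decide +kernel
noncomputable def s19 : KT := (.br (nat_lit 0x400000100300400e011200608901c022611) (.br (nat_lit 0x500000300400e01100060080bd422511) (.br (nat_lit 0x500000400e010a00000801c020411) (.br (nat_lit 0x100400e010000200801c020540) k343 k344) (.br (nat_lit 0x100200300400e010400600803c421700) k345 (.br (nat_lit 0x200000300400e011000600805c822511) k346 k347))) (.br (nat_lit 0x800000300400e011000600811e022511) (.br (nat_lit 0x700000200400e01100040080fdc22511) k348 k349) (.br (nat_lit 0xa00000300400e010000600815e820511) k350 (.br (nat_lit 0xd00000200400e01100040081bf422511) k351 k352)))) (.br (nat_lit 0x700000200300400e01040060e9c1c020611) (.br (nat_lit 0x500000200300400e01140060a941c022611) (.br (nat_lit 0x500000100300400e01020060a941c020611) k353 k354) (.br (nat_lit 0x600000100300400e01020060c981c020611) k355 (.br (nat_lit 0x700000100200400e01020040e9c1c020611) k356 k357))) (.br (nat_lit 0xa00000200300400e011400614a81c022611) (.br (nat_lit 0x800000100300400e011200610a01c022611)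 k358 (.br (nat_lit 0x900000100300400e011200612a41c022611) k359 k360)) (.br (nat_lit 0xd00000100200400e01120041ab41c022611) k361 (.br (nat_lit 0x600000100200300400e01040c780803c420711) k362 k363)))))
noncomputable def u19 : KT := (.br (Nat.shiftLeft (nat_lit 0x400e011) (nat_lit 64)) (.one (nat_lit 0x400e010000000801c020430)) (.one (nat_lit 0x400e011000000801c022430)))
def w19 : u19.all (wj 57 s19) = true := by decide +kernel
def o19 : OkW 57 (jb2 57 fl) u19 := .lift s19 _ (.br _ _ _ (.br _ _ _ (.br _ _ _ (.br _ _ _ (.leaf b0 k343 t343) (.leaf b0 k344 t344)) (.br _ _ _ (.leaf b0 k345 t345) (.br _ _ _ (.leaf b0 k346 t346) (.leaf b0 k347 t347)))) (.br _ _ _ (.br _ _ _ (.leaf b0 k348 t348) (.leaf b0 k349 t349)) (.br _ _ _ (.leaf b0 k350 t350) (.br _ _ _ (.leaf b0 k351 t351) (.leaf b0 k352 t352))))) (.br _ _ _ (.br _ _ _ (.br _ _ _ (.leaf b0 k353 t353) (.leaf b0 k354 t354)) (.br _ _ _ (.leaf b0 k355 t355) (.br _ _ _ (.leaf b0 k356 t356) (.leaf b0 k357 t357)))) (.br _ _ _ (.br _ _ _ (.leaf b0 k358 t358) (.br _ _ _ (.leaf b0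 k359 t359) (.leaf b0 k360 t360))) (.br _ _ _ (.leaf b0 k361 t361) (.br _ _ _ (.leaf b0 k362 t362) (.leaf b0 k363 t363)))))) w19
noncomputable def k : KT := (.br (nat_lit 0x400c0120000008018024430) (.br (nat_lit 0x400c00d000000801801a430) (.br (nat_lit 0x400b0120000008016024430) (.br (nat_lit 0x400b0110000008016022430) u0 u1) (.br (nat_lit 0x400b0140000008016028430) u2 (.br (nat_lit 0x400b017000000801602e430) u3 u4))) (.br (nat_lit 0x400c00f000000801801e430) (.br (nat_lit 0x400c00e000000801801c430) u5 u6) (.br (nat_lit 0x400c0100000008018020430) u7 (.br (nat_lit 0x400c0110000008018022430) u8 u9)))) (.br (nat_lit 0x400d010000000801a020430) (.br (nat_lit 0x400c0180000008018030430) (.br (nat_lit 0x400c0140000008018028430) u10 u11) (.br (nat_lit 0x400d00e000000801a01c430) u12 (.br (nat_lit 0x400d00f000000801a01e430) u13 u14))) (.br (nat_lit 0x400d013000000801a026430) (.br (nat_lit 0x400d011000000801a022430) u15 u16) (.br (nat_lit 0x400d017000000801a02e430) u17 (.br (nat_lit 0x400e00f000000801c01e430) u18 u19)))))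
theorem ok : OkW 57 (jb2 57 fl) k := (.br _ _ _ (.br _ _ _ (.br _ _ _ (.br _ _ _ o0 o1) (.br _ _ _ o2 (.br _ _ _ o3 o4))) (.br _ _ _ (.br _ _ _ o5 o6) (.br _ _ _ o7 (.br _ _ _ o8 o9)))) (.br _ _ _ (.br _ _ _ (.br _ _ _ o10 o11) (.br _ _ _ o12 (.br _ _ _ o13 o14))) (.br _ _ _ (.br _ _ _ o15 o16) (.br _ _ _ o17 (.br _ _ _ o18 o19)))))

end Pool.Agent.Lib.MP_ed43e6_ag.Q.Y57.R7
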