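import Pool.Agent.Lib.MP_ed43e6_ag.Y57.Fl

namespace Pool.Agent.Lib.MP_ed43e6_ag.Q.Y57.R8

set_option linter.defProp false

noncomputable def b0 : BT := .node (nat_lit 1) (nat_lit 0) .leaf .leaf
noncomputable def k0 : KT := (.br (Nat.shiftLeft (nat_lit 0x1003805) (nat_lit 66)) (.br (Nat.shiftLeft (nat_lit 0x400e013) (nat_lit 64)) (.one (nat_lit 0x400e012000000801c025400)) (.one (nat_lit 0x400e013000000801c027400))) (.br (Nat.shiftLeft (nat_lit 0x1) (nat_lit 100)) (.one (nat_lit 0x400e014000000801c029400)) (.one (nat_lit 0x100400e012000200801c024540))))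
def t0 : k0.all (jb2 57 fl b0) = true := by decide +kernel
noncomputable def k1 : KT := (.one (nat_lit 0x100400e013000200801c026540))
def t1 : k1.all (jb2 57 fl b0) = true := by decide +kernel
noncomputable def k2 : KT := (.br (Nat.shiftLeft (nat_lit 0xc01003805) (nat_lit 66)) (.br (Nat.shiftLeft (nat_lit 0x801003805) (nat_lit 66)) (.br (Nat.shiftLeft (nat_lit 0x1) (nat_lit 101)) (.one (nat_lit 0x100400e014000200801c028540)) (.br (Nat.shiftLeft (nat_lit 0x200400e013) (nat_lit 64)) (.one (nat_lit 0x200400e012000400801c025500)) (.one (nat_lit 0x200400e013000400801c027500)))) (.br (Nat.shiftLeft (nat_lit 0x3) (nat_lit 100)) (.one (nat_lit 0x200400e014000400801c029500)) (.br (Nat.shiftLeft (nat_lit 0x300400e013) (nat_lit 64)) (.one (nat_lit 0x300400e012000600801c025500)) (.one (nat_lit 0x300400e013000600801c027500))))) (.br (Nat.shiftLeft (nat_lit 0x400001003805) (nat_lit 66)) (.br (Nat.shiftLeft (nat_lit 0x1) (nat_lit 112)) (.one (nat_lit 0x300400e014000600801c029500)) (.br (Nat.shiftLeft (nat_lit 0x100000400e013) (nat_lit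 64)) (.one (nat_lit 0x100000400e012200000801c024411)) (.one (nat_lit 0x100000400e013200000801c026411)))) (.br (Nat.shiftLeft (nat_lit 0x801) (nat_lit 101)) (.one (nat_lit 0x100000400e014200000801c028411)) (.br (Nat.shiftLeft (nat_lit 0x100200400e013) (nat_lit 64)) (.one (nat_lit 0x100200400e012200400801c025600)) (.one (nat_lit 0x100200400e013200400801c027600))))))
def t2 : k2.all (jb2 57 fl b0) = true := by decide +kernel
noncomputable def k3 : KT := (.br (Nat.shiftLeft (nat_lit 0x1003) (nat_lit 100)) (.one (nat_lit 0x100200400e014200400801c028650)) (.one (nat_lit 0x100300400e012200600801c025600)))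
def t3 : k3.all (jb2 57 fl b0) = true := by decide +kernel
noncomputable def k4 : KT := (.one (nat_lit 0x100300400e013200600801c026650))
def t4 : k4.all (jb2 57 fl b0) = true := by decide +kernel
noncomputable def k5 : KT := (.br (Nat.shiftLeft (nat_lit 0x800001003805) (nat_lit 66)) (.br (Nat.shiftLeft (nat_lit 0x1) (nat_lit 113)) (.one (nat_lit 0x100300400e014200600801c028650)) (.br (Nat.shiftLeft (nat_lit 0x200000400e013) (nat_lit 64)) (.one (nat_lit 0x200000400e012400000801c024411)) (.one (nat_lit 0x200000400e013400000801c026411)))) (.br (Nat.shiftLeft (nat_lit 0x1001) (nat_lit 101)) (.one (nat_lit 0x200000400e014400000801c028411)) (.br (Nat.shiftLeft (nat_lit 0x200300400e013) (nat_lit 64)) (.one (nat_lit 0x200300400e012400600801c025600)) (.one (nat_lit 0x200300400e013400600801c027600)))))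
def t5 : k5.all (jb2 57 fl b0) = true := by decide +kernel
noncomputable def k6 : KT := (.br (Nat.shiftLeft (nat_lit 0x300000400e013) (nat_lit 64)) (.br (Nat.shiftLeft (nat_lit 0x3) (nat_lit 112)) (.one (nat_lit 0x200300400e014400600801c028650)) (.one (nat_lit 0x300000400e012600000801c024411))) (.br (Nat.shiftLeft (nat_lit 0xc00001003805) (nat_lit 66)) (.one (nat_lit 0x300000400e013600000801c026411)) (.br (Nat.shiftLeft (nat_lit 0x1) (nat_lit 114)) (.one (nat_lit 0x300000400e014600000801c028411)) (.one (nat_lit 0x400000400e012800000801c024411)))))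
def t6 : k6.all (jb2 57 fl b0) = true := by decide +kernel
noncomputable def k7 : KT := (.br (Nat.shiftLeft (nat_lit 0x2800001003805) (nat_lit 66)) (.br (Nat.shiftLeft (nat_lit 0x700000400e013) (nat_lit 64)) (.br (Nat.shiftLeft (nat_lit 0x1400001003805) (nat_lit 66)) (.br (Nat.shiftLeft (nat_lit 0x5) (nat_lit 112)) (.br (Nat.shiftLeft (nat_lit 0x1000001003805) (nat_lit 66)) (.one (nat_lit 0x400000400e013800000801c026411)) (.one (nat_lit 0x400000400e014800000801c028411))) (.br (Nat.shiftLeft (nat_lit 0x500000400e013) (nat_lit 64)) (.one (nat_lit 0x500000400e012a00000801c024411)) (.one (nat_lit 0x500000400e013a00000801c026411)))) (.br (Nat.shiftLeft (nat_lit 0x600000400e013) (nat_lit 64)) (.br (Nat.shiftLeft (nat_lit 0x3) (nat_lit 113)) (.one (nat_lit 0x500000400e014a00000801c028411)) (.one (nat_lit 0x600000400e012c00000801c024411))) (.br (Nat.shiftLeft (nat_lit 0x1800001003805) (nat_lit 66)) (.one (nat_lit 0x600000400e013c00000801c026411)) (.br (Nat.shiftLeft (nat_lit 0x7) (nat_lit 112)) (.one (nat_lit 0x600000400e014c00000801c028411))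 (.one (nat_lit 0x700000400e012e00000801c024411)))))) (.br (Nat.shiftLeft (nat_lit 0x9) (nat_lit 112)) (.br (Nat.shiftLeft (nat_lit 0x1) (nat_lit 115)) (.br (Nat.shiftLeft (nat_lit 0x1c00001003805) (nat_lit 66)) (.one (nat_lit 0x700000400e013e00000801c026411)) (.one (nat_lit 0x700000400e014e00000801c028411))) (.br (Nat.shiftLeft (nat_lit 0x800000400e013) (nat_lit 64)) (.one (nat_lit 0x800000400e012000000801c126411)) (.br (Nat.shiftLeft (nat_lit 0x2000001003805) (nat_lit 66)) (.one (nat_lit 0x800000400e013000000801c128411)) (.one (nat_lit 0x800000400e014000000801c12a411))))) (.br (Nat.shiftLeft (nat_lit 0x2400001003805) (nat_lit 66)) (.br (Nat.shiftLeft (nat_lit 0x900000400e013) (nat_lit 64)) (.one (nat_lit 0x900000400e012200000801c126411)) (.one (nat_lit 0x900000400e013200000801c128411))) (.br (Nat.shiftLeft (nat_lit 0x5) (nat_lit 113)) (.one (nat_lit 0x900000400e014200000801c12a411)) (.br (Nat.shiftLeft (nat_lit 0xa00000400e013) (nat_lit 64)) (.one (nat_lit 0xa00000400e012400000801c126411)) (.one (nat_lit 0xa00000400e013400000801c128411)))))))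 (.br (Nat.shiftLeft (nat_lit 0x3400001003805) (nat_lit 66)) (.br (Nat.shiftLeft (nat_lit 0x3) (nat_lit 114)) (.br (Nat.shiftLeft (nat_lit 0xb00000400e013) (nat_lit 64)) (.br (Nat.shiftLeft (nat_lit 0xb) (nat_lit 112)) (.one (nat_lit 0xa00000400e014400000801c12a411)) (.one (nat_lit 0xb00000400e012600000801c126411))) (.br (Nat.shiftLeft (nat_lit 0x2c00001003805) (nat_lit 66)) (.one (nat_lit 0xb00000400e013600000801c128411)) (.one (nat_lit 0xb00000400e014600000801c12a411)))) (.br (Nat.shiftLeft (nat_lit 0x3000001003805) (nat_lit 66)) (.br (Nat.shiftLeft (nat_lit 0xc00000400e013) (nat_lit 64)) (.one (nat_lit 0xc00000400e012800000801c126411)) (.one (nat_lit 0xc00000400e013800000801c128411))) (.br (Nat.shiftLeft (nat_lit 0xd) (nat_lit 112)) (.one (nat_lit 0xc00000400e014800000801c12a411)) (.br (Nat.shiftLeft (nat_lit 0xd00000400e013) (nat_lit 64)) (.one (nat_lit 0xd00000400e012a00000801c126411)) (.one (nat_lit 0xd00000400e013a00000801c128411)))))) (.br (Nat.shiftLeft (nat_lit 0x100000200400e013) (nat_lit 64)) (.br (Nat.shiftLeft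 (nat_lit 0xe00000400e013) (nat_lit 64)) (.br (Nat.shiftLeft (nat_lit 0x7) (nat_lit 113)) (.one (nat_lit 0xd00000400e014a00000801c12a411)) (.one (nat_lit 0xe00000400e012c00000801c126411))) (.br (Nat.shiftLeft (nat_lit 0x3800001003805) (nat_lit 66)) (.one (nat_lit 0xe00000400e013c00000801c128411)) (.br (Nat.shiftLeft (nat_lit 0x1) (nat_lit 124)) (.one (nat_lit 0xe00000400e014c00000801c12a411)) (.one (nat_lit 0x100000200400e012000400803c424511))))) (.br (Nat.shiftLeft (nat_lit 0x1000003) (nat_lit 100)) (.br (Nat.shiftLeft (nat_lit 0x400000801003805) (nat_lit 66)) (.one (nat_lit 0x100000200400e013000400803c426511)) (.one (nat_lit 0x100000200400e014000400803c428511))) (.br (Nat.shiftLeft (nat_lit 0x100000300400e013) (nat_lit 64)) (.one (nat_lit 0x100000300400e012000600803c424511)) (.br (Nat.shiftLeft (nat_lit 0x400000c01003805) (nat_lit 66)) (.one (nat_lit 0x100000300400e013000600803c426511)) (.one (nat_lit 0x100000300400e014000600803c428511))))))))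
def t7 : k7.all (jb2 57 fl b0) = true := by decide +kernel
noncomputable def k8 : KT := (.one (nat_lit 0x100200300400e012400600803c424760))
def t8 : k8.all (jb2 57 fl b0) = true := by decide +kernel
noncomputable def k9 : KT := (.br (Nat.shiftLeft (nat_lit 0x300000200400e013) (nat_lit 64)) (.br (Nat.shiftLeft (nat_lit 0x2000003) (nat_lit 100)) (.br (Nat.shiftLeft (nat_lit 0x200000200400e013) (nat_lit 64)) (.br (Nat.shiftLeft (nat_lit 0x1) (nat_lit 125)) (.one (nat_lit 0x100200300400e013400600803c426760)) (.one (nat_lit 0x200000200400e012000400805c824511))) (.br (Nat.shiftLeft (nat_lit 0x800000801003805) (nat_lit 66)) (.one (nat_lit 0x200000200400e013000400805c826511)) (.one (nat_lit 0x200000200400e014000400805c828511)))) (.br (Nat.shiftLeft (nat_lit 0x800000c01003805) (nat_lit 66)) (.br (Nat.shiftLeft (nat_lit 0x200000300400e013) (nat_lit 64)) (.one (nat_lit 0x200000300400e012000600805c824511)) (.one (nat_lit 0x200000300400e013000600805c826511))) (.br (Nat.shiftLeft (nat_lit 0x3) (nat_lit 124)) (.one (nat_lit 0x200000300400e014000600805c828511))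 (.one (nat_lit 0x300000200400e012000400807cc24511))))) (.br (Nat.shiftLeft (nat_lit 0xc00000c01003805) (nat_lit 66)) (.br (Nat.shiftLeft (nat_lit 0x3000003) (nat_lit 100)) (.br (Nat.shiftLeft (nat_lit 0xc00000801003805) (nat_lit 66)) (.one (nat_lit 0x300000200400e013000400807cc26511)) (.one (nat_lit 0x300000200400e014000400807cc28511))) (.br (Nat.shiftLeft (nat_lit 0x300000300400e013) (nat_lit 64)) (.one (nat_lit 0x300000300400e012000600807cc24511)) (.one (nat_lit 0x300000300400e013000600807cc26511)))) (.br (Nat.shiftLeft (nat_lit 0x400000200400e013) (nat_lit 64)) (.br (Nat.shiftLeft (nat_lit 0x1) (nat_lit 126)) (.one (nat_lit 0x300000300400e014000600807cc28511)) (.one (nat_lit 0x400000200400e012000400809d024511))) (.br (Nat.shiftLeft (nat_lit 0x1000000801003805) (nat_lit 66)) (.one (nat_lit 0x400000200400e013000400809d026511)) (.br (Nat.shiftLeft (nat_lit 0x4000003) (nat_lit 100)) (.one (nat_lit 0x400000200400e014000400809d028511)) (.one (nat_lit 0x400000300400e012000600809d024511)))))))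
def t9 : k9.all (jb2 57 fl b0) = true := by decide +kernel
noncomputable def k10 : KT := (.br (Nat.shiftLeft (nat_lit 0x1400000801003805) (nat_lit 66)) (.br (Nat.shiftLeft (nat_lit 0x5) (nat_lit 124)) (.br (Nat.shiftLeft (nat_lit 0x1000000c01003805) (nat_lit 66)) (.one (nat_lit 0x400000300400e013000600809d026511)) (.one (nat_lit 0x400000300400e014000600809d028511))) (.br (Nat.shiftLeft (nat_lit 0x500000200400e013) (nat_lit 64)) (.one (nat_lit 0x500000200400e01200040080bd424511)) (.one (nat_lit 0x500000200400e01300040080bd426511)))) (.br (Nat.shiftLeft (nat_lit 0x500000300400e013) (nat_lit 64)) (.br (Nat.shiftLeft (nat_lit 0x5000003) (nat_lit 100)) (.one (nat_lit 0x500000200400e01400040080bd428511)) (.one (nat_lit 0x500000300400e01200060080bd424511))) (.br (Nat.shiftLeft (nat_lit 0x1400000c01003805) (nat_lit 66)) (.one (nat_lit 0x500000300400e01300060080bd426511)) (.one (nat_lit 0x500000300400e01400060080bd428511)))))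
def t10 : k10.all (jb2 57 fl b0) = true := by decide +kernel
noncomputable def k11 : KT := (.br (Nat.shiftLeft (nat_lit 0x6000003) (nat_lit 100)) (.br (Nat.shiftLeft (nat_lit 0x600000200400e013) (nat_lit 64)) (.one (nat_lit 0x600000200400e01200040080dd824511)) (.br (Nat.shiftLeft (nat_lit 0x1800000801003805) (nat_lit 66)) (.one (nat_lit 0x600000200400e01300040080dd826511)) (.one (nat_lit 0x600000200400e01400040080dd828511)))) (.br (Nat.shiftLeft (nat_lit 0x1800000c01003805) (nat_lit 66)) (.br (Nat.shiftLeft (nat_lit 0x600000300400e013) (nat_lit 64)) (.one (nat_lit 0x600000300400e01200060080dd824511)) (.one (nat_lit 0x600000300400e01300060080dd826511))) (.br (Nat.shiftLeft (nat_lit 0x7) (nat_lit 124)) (.one (nat_lit 0x600000300400e01400060080dd828511)) (.one (nat_lit 0x700000200400e01200040080fdc24511)))))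
def t11 : k11.all (jb2 57 fl b0) = true := by decide +kernel
noncomputable def k12 : KT := (.br (Nat.shiftLeft (nat_lit 0x700000300400e013) (nat_lit 64)) (.br (Nat.shiftLeft (nat_lit 0x1c00000801003805) (nat_lit 66)) (.one (nat_lit 0x700000200400e01300040080fdc26511)) (.br (Nat.shiftLeft (nat_lit 0x7000003) (nat_lit 100)) (.one (nat_lit 0x700000200400e01400040080fdc28511)) (.one (nat_lit 0x700000300400e01200060080fdc24511)))) (.br (Nat.shiftLeft (nat_lit 0x1) (nat_lit 127)) (.br (Nat.shiftLeft (nat_lit 0x1c00000c01003805) (nat_lit 66)) (.one (nat_lit 0x700000300400e01300060080fdc26511)) (.one (nat_lit 0x700000300400e01400060080fdc28511))) (.br (Nat.shiftLeft (nat_lit 0x800000200400e013) (nat_lit 64)) (.one (nat_lit 0x800000200400e012000400811e024511)) (.one (nat_lit 0x800000200400e013000400811e026511)))))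
def t12 : k12.all (jb2 57 fl b0) = true := by decide +kernel
noncomputable def k13 : KT := (.br (Nat.shiftLeft (nat_lit 0x9) (nat_lit 124)) (.br (Nat.shiftLeft (nat_lit 0x800000300400e013) (nat_lit 64)) (.br (Nat.shiftLeft (nat_lit 0x8000003) (nat_lit 100)) (.one (nat_lit 0x800000200400e014000400811e028511)) (.one (nat_lit 0x800000300400e012000600811e024511))) (.br (Nat.shiftLeft (nat_lit 0x2000000c01003805) (nat_lit 66)) (.one (nat_lit 0x800000300400e013000600811e026511)) (.one (nat_lit 0x800000300400e014000600811e028511)))) (.br (Nat.shiftLeft (nat_lit 0x2400000801003805) (nat_lit 66)) (.br (Nat.shiftLeft (nat_lit 0x900000200400e013) (nat_lit 64)) (.one (nat_lit 0x900000200400e012000400813e424511)) (.one (nat_lit 0x900000200400e013000400813e426511))) (.br (Nat.shiftLeft (nat_lit 0x9000003) (nat_lit 100)) (.one (nat_lit 0x900000200400e014000400813e428511)) (.br (Nat.shiftLeft (nat_lit 0x900000300400e013) (nat_lit 64)) (.one (nat_lit 0x900000300400e012000600813e424511)) (.one (nat_lit 0x900000300400e013000600813e426511))))))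
def t13 : k13.all (jb2 57 fl b0) = true := by decide +kernel
noncomputable def k14 : KT := (.br (Nat.shiftLeft (nat_lit 0xb) (nat_lit 124)) (.br (Nat.shiftLeft (nat_lit 0x2800000801003805) (nat_lit 66)) (.br (Nat.shiftLeft (nat_lit 0x5) (nat_lit 125)) (.one (nat_lit 0x900000300400e014000600813e428511)) (.br (Nat.shiftLeft (nat_lit 0xa00000200400e013) (nat_lit 64)) (.one (nat_lit 0xa00000200400e012000400815e824511)) (.one (nat_lit 0xa00000200400e013000400815e826511)))) (.br (Nat.shiftLeft (nat_lit 0xa00000300400e013) (nat_lit 64)) (.br (Nat.shiftLeft (nat_lit 0xa000003) (nat_lit 100)) (.one (nat_lit 0xa00000200400e014000400815e828511)) (.one (nat_lit 0xa00000300400e012000600815e824511))) (.br (Nat.shiftLeft (nat_lit 0x2800000c01003805) (nat_lit 66)) (.one (nat_lit 0xa00000300400e013000600815e826511)) (.one (nat_lit 0xa00000300400e014000600815e828511))))) (.br (Nat.shiftLeft (nat_lit 0xb00000300400e013) (nat_lit 64)) (.br (Nat.shiftLeft (nat_lit 0x2c00000801003805) (nat_lit 66)) (.br (Nat.shiftLeft (nat_lit 0xb00000200400e013)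 (nat_lit 64)) (.one (nat_lit 0xb00000200400e012000400817ec24511)) (.one (nat_lit 0xb00000200400e013000400817ec26511))) (.br (Nat.shiftLeft (nat_lit 0xb000003) (nat_lit 100)) (.one (nat_lit 0xb00000200400e014000400817ec28511)) (.one (nat_lit 0xb00000300400e012000600817ec24511)))) (.br (Nat.shiftLeft (nat_lit 0x3) (nat_lit 126)) (.br (Nat.shiftLeft (nat_lit 0x2c00000c01003805) (nat_lit 66)) (.one (nat_lit 0xb00000300400e013000600817ec26511)) (.one (nat_lit 0xb00000300400e014000600817ec28511))) (.br (Nat.shiftLeft (nat_lit 0xc00000200400e013) (nat_lit 64)) (.one (nat_lit 0xc00000200400e012000400819f024511)) (.one (nat_lit 0xc00000200400e013000400819f026511))))))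
def t14 : k14.all (jb2 57 fl b0) = true := by decide +kernel
noncomputable def k15 : KT := (.br (Nat.shiftLeft (nat_lit 0x100000100200400e013) (nat_lit 64)) (.br (Nat.shiftLeft (nat_lit 0xd00000300400e013) (nat_lit 64)) (.br (Nat.shiftLeft (nat_lit 0xd) (nat_lit 124)) (.br (Nat.shiftLeft (nat_lit 0xc00000300400e013) (nat_lit 64)) (.br (Nat.shiftLeft (nat_lit 0xc000003) (nat_lit 100)) (.one (nat_lit 0xc00000200400e014000400819f028511)) (.one (nat_lit 0xc00000300400e012000600819f024511))) (.br (Nat.shiftLeft (nat_lit 0x3000000c01003805) (nat_lit 66)) (.one (nat_lit 0xc00000300400e013000600819f026511)) (.one (nat_lit 0xc00000300400e014000600819f028511)))) (.br (Nat.shiftLeft (nat_lit 0x3400000801003805) (nat_lit 66)) (.br (Nat.shiftLeft (nat_lit 0xd00000200400e013) (nat_lit 64)) (.one (nat_lit 0xd00000200400e01200040081bf424511)) (.one (nat_lit 0xd00000200400e01300040081bf426511))) (.br (Nat.shiftLeft (nat_lit 0xd000003) (nat_lit 100)) (.one (nat_lit 0xd00000200400e01400040081bf428511)) (.one (nat_lit 0xd00000300400e01200060081bf424511)))))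 (.br (Nat.shiftLeft (nat_lit 0x3800000801003805) (nat_lit 66)) (.br (Nat.shiftLeft (nat_lit 0x7) (nat_lit 125)) (.br (Nat.shiftLeft (nat_lit 0x3400000c01003805) (nat_lit 66)) (.one (nat_lit 0xd00000300400e01300060081bf426511)) (.one (nat_lit 0xd00000300400e01400060081bf428511))) (.br (Nat.shiftLeft (nat_lit 0xe00000200400e013) (nat_lit 64)) (.one (nat_lit 0xe00000200400e01200040081df824511)) (.one (nat_lit 0xe00000200400e01300040081df826511)))) (.br (Nat.shiftLeft (nat_lit 0xe00000300400e013) (nat_lit 64)) (.br (Nat.shiftLeft (nat_lit 0xe000003) (nat_lit 100)) (.one (nat_lit 0xe00000200400e01400040081df828511)) (.one (nat_lit 0xe00000300400e01200060081df824511))) (.br (Nat.shiftLeft (nat_lit 0x3800000c01003805) (nat_lit 66)) (.one (nat_lit 0xe00000300400e01300060081df826511)) (.br (Nat.shiftLeft (nat_lit 0x1) (nat_lit 136)) (.one (nat_lit 0xe00000300400e01400060081df828511)) (.one (nat_lit 0x100000100200400e012200402841c024611))))))) (.br (Nat.shiftLeft (nat_lit 0x3) (nat_lit 136)) (.br (Nat.shiftLeft (nat_lit 0x1) (nat_lit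 137)) (.br (Nat.shiftLeft (nat_lit 0x800001) (nat_lit 113)) (.br (Nat.shiftLeft (nat_lit 0x1000001003) (nat_lit 100)) (.one (nat_lit 0x100000100200400e013200402841c026611)) (.one (nat_lit 0x100000100300400e012200602841c024611))) (.br (Nat.shiftLeft (nat_lit 0x100000200300400e013) (nat_lit 64)) (.one (nat_lit 0x100000200300400e012400602841c024611)) (.one (nat_lit 0x100000200300400e013400602841c026611)))) (.br (Nat.shiftLeft (nat_lit 0x2000001003) (nat_lit 100)) (.br (Nat.shiftLeft (nat_lit 0x200000100200400e013) (nat_lit 64)) (.one (nat_lit 0x200000100200400e012200404881c024611)) (.one (nat_lit 0x200000100200400e013200404881c026611))) (.br (Nat.shiftLeft (nat_lit 0x1000001) (nat_lit 113)) (.one (nat_lit 0x200000100300400e012200604881c024611)) (.br (Nat.shiftLeft (nat_lit 0x200000200300400e013) (nat_lit 64)) (.one (nat_lit 0x200000200300400e012400604881c024611)) (.one (nat_lit 0x200000200300400e013400604881c026611)))))) (.br (Nat.shiftLeft (nat_lit 0x300000200300400e013) (nat_lit 64)) (.br (Nat.shiftLeft (nat_lit 0x3000001003)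 (nat_lit 100)) (.br (Nat.shiftLeft (nat_lit 0x300000100200400e013) (nat_lit 64)) (.one (nat_lit 0x300000100200400e0122004068c1c024611)) (.one (nat_lit 0x300000100200400e0132004068c1c026611))) (.br (Nat.shiftLeft (nat_lit 0x1800001) (nat_lit 113)) (.one (nat_lit 0x300000100300400e0122006068c1c024611)) (.one (nat_lit 0x300000200300400e0124006068c1c024611)))) (.br (Nat.shiftLeft (nat_lit 0x400000100200400e013) (nat_lit 64)) (.br (Nat.shiftLeft (nat_lit 0x1) (nat_lit 138)) (.one (nat_lit 0x300000200300400e0134006068c1c026611)) (.one (nat_lit 0x400000100200400e012200408901c024611))) (.br (Nat.shiftLeft (nat_lit 0x4000001003) (nat_lit 100)) (.one (nat_lit 0x400000100200400e013200408901c026611)) (.br (Nat.shiftLeft (nat_lit 0x2000001) (nat_lit 113)) (.one (nat_lit 0x400000100300400e012200608901c024611)) (.one (nat_lit 0x400000200300400e012400608901c024611))))))))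
def t15 : k15.all (jb2 57 fl b0) = true := by decide +kernel
noncomputable def k16 : KT := (.br (Nat.shiftLeft (nat_lit 0x500000100200400e013) (nat_lit 64)) (.br (Nat.shiftLeft (nat_lit 0x5) (nat_lit 136)) (.one (nat_lit 0x400000200300400e013400608901c026611)) (.one (nat_lit 0x500000100200400e01220040a941c024611))) (.br (Nat.shiftLeft (nat_lit 0x5000001003) (nat_lit 100)) (.one (nat_lit 0x500000100200400e01320040a941c026611)) (.br (Nat.shiftLeft (nat_lit 0x2800001) (nat_lit 113)) (.one (nat_lit 0x500000100300400e01220060a941c024611)) (.one (nat_lit 0x500000200300400e01240060a941c024611)))))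
def t16 : k16.all (jb2 57 fl b0) = true := by decide +kernel
noncomputable def k17 : KT := (.br (Nat.shiftLeft (nat_lit 0x600000100200400e013) (nat_lit 64)) (.br (Nat.shiftLeft (nat_lit 0x3) (nat_lit 137)) (.one (nat_lit 0x500000200300400e01340060a941c026611)) (.one (nat_lit 0x600000100200400e01220040c981c024611))) (.br (Nat.shiftLeft (nat_lit 0x6000001003) (nat_lit 100)) (.one (nat_lit 0x600000100200400e01320040c981c026611)) (.br (Nat.shiftLeft (nat_lit 0x3000001) (nat_lit 113)) (.one (nat_lit 0x600000100300400e01220060c981c024611)) (.one (nat_lit 0x600000200300400e01240060c981c024611)))))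
def t17 : k17.all (jb2 57 fl b0) = true := by decide +kernel
noncomputable def k18 : KT := (.br (Nat.shiftLeft (nat_lit 0x7000001003) (nat_lit 100)) (.br (Nat.shiftLeft (nat_lit 0x7) (nat_lit 136)) (.one (nat_lit 0x600000200300400e01340060c981c026611)) (.br (Nat.shiftLeft (nat_lit 0x700000100200400e013) (nat_lit 64)) (.one (nat_lit 0x700000100200400e01220040e9c1c024611)) (.one (nat_lit 0x700000100200400e01320040e9c1c026611)))) (.br (Nat.shiftLeft (nat_lit 0x3800001) (nat_lit 113)) (.one (nat_lit 0x700000100300400e01220060e9c1c024611)) (.br (Nat.shiftLeft (nat_lit 0x700000200300400e013) (nat_lit 64)) (.one (nat_lit 0x700000200300400e01240060e9c1c024611)) (.one (nat_lit 0x700000200300400e01340060e9c1c026611)))))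
def t18 : k18.all (jb2 57 fl b0) = true := by decide +kernel
noncomputable def k19 : KT := (.br (Nat.shiftLeft (nat_lit 0x4000001) (nat_lit 113)) (.br (Nat.shiftLeft (nat_lit 0x800000100200400e013) (nat_lit 64)) (.one (nat_lit 0x800000100200400e012200410a01c024611)) (.br (Nat.shiftLeft (nat_lit 0x8000001003) (nat_lit 100)) (.one (nat_lit 0x800000100200400e013200410a01c026611)) (.one (nat_lit 0x800000100300400e012200610a01c024611)))) (.br (Nat.shiftLeft (nat_lit 0x9) (nat_lit 136)) (.br (Nat.shiftLeft (nat_lit 0x800000200300400e013) (nat_lit 64)) (.one (nat_lit 0x800000200300400e012400610a01c024611)) (.one (nat_lit 0x800000200300400e013400610a01c026611))) (.br (Nat.shiftLeft (nat_lit 0x900000100200400e013) (nat_lit 64)) (.one (nat_lit 0x900000100200400e012200412a41c024611)) (.one (nat_lit 0x900000100200400e013200412a41c026611)))))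
def t19 : k19.all (jb2 57 fl b0) = true := by decide +kernel
noncomputable def k20 : KT := (.br (Nat.shiftLeft (nat_lit 0xb00000100200400e013) (nat_lit 64)) (.br (Nat.shiftLeft (nat_lit 0xa00000100200400e013) (nat_lit 64)) (.br (Nat.shiftLeft (nat_lit 0x900000200300400e013) (nat_lit 64)) (.br (Nat.shiftLeft (nat_lit 0x4800001) (nat_lit 113)) (.one (nat_lit 0x900000100300400e012200612a41c024611)) (.one (nat_lit 0x900000200300400e012400612a41c024611))) (.br (Nat.shiftLeft (nat_lit 0x5) (nat_lit 137)) (.one (nat_lit 0x900000200300400e013400612a41c026611)) (.one (nat_lit 0xa00000100200400e012200414a81c024611)))) (.br (Nat.shiftLeft (nat_lit 0x5000001) (nat_lit 113)) (.br (Nat.shiftLeft (nat_lit 0xa000001003) (nat_lit 100)) (.one (nat_lit 0xa00000100200400e013200414a81c026611)) (.one (nat_lit 0xa00000100300400e012200614a81c024611))) (.br (Nat.shiftLeft (nat_lit 0xa00000200300400e013) (nat_lit 64)) (.one (nat_lit 0xa00000200300400e012400614a81c024611)) (.br (Nat.shiftLeft (nat_lit 0xb) (nat_lit 136)) (.one (nat_lit 0xa00000200300400e013400614a81c026611))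 (.one (nat_lit 0xb00000100200400e012200416ac1c024611)))))) (.br (Nat.shiftLeft (nat_lit 0x3) (nat_lit 138)) (.br (Nat.shiftLeft (nat_lit 0x5800001) (nat_lit 113)) (.br (Nat.shiftLeft (nat_lit 0xb000001003) (nat_lit 100)) (.one (nat_lit 0xb00000100200400e013200416ac1c026611)) (.one (nat_lit 0xb00000100300400e012200616ac1c024611))) (.br (Nat.shiftLeft (nat_lit 0xb00000200300400e013) (nat_lit 64)) (.one (nat_lit 0xb00000200300400e012400616ac1c024611)) (.one (nat_lit 0xb00000200300400e013400616ac1c026611)))) (.br (Nat.shiftLeft (nat_lit 0xc000001003) (nat_lit 100)) (.br (Nat.shiftLeft (nat_lit 0xc00000100200400e013) (nat_lit 64)) (.one (nat_lit 0xc00000100200400e012200418b01c024611)) (.one (nat_lit 0xc00000100200400e013200418b01c026611))) (.br (Nat.shiftLeft (nat_lit 0x6000001) (nat_lit 113)) (.one (nat_lit 0xc00000100300400e012200618b01c024611)) (.br (Nat.shiftLeft (nat_lit 0xc00000200300400e013) (nat_lit 64)) (.one (nat_lit 0xc00000200300400e012400618b01c024611)) (.one (nat_lit 0xc00000200300400e013400618b01c026611)))))))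
def t20 : k20.all (jb2 57 fl b0) = true := by decide +kernel
noncomputable def k21 : KT := (.br (Nat.shiftLeft (nat_lit 0x7) (nat_lit 137)) (.br (Nat.shiftLeft (nat_lit 0xd000001003) (nat_lit 100)) (.br (Nat.shiftLeft (nat_lit 0xd00000100200400e013) (nat_lit 64)) (.one (nat_lit 0xd00000100200400e01220041ab41c024611)) (.one (nat_lit 0xd00000100200400e01320041ab41c026611))) (.br (Nat.shiftLeft (nat_lit 0x6800001) (nat_lit 113)) (.one (nat_lit 0xd00000100300400e01220061ab41c024611)) (.br (Nat.shiftLeft (nat_lit 0xd00000200300400e013) (nat_lit 64)) (.one (nat_lit 0xd00000200300400e01240061ab41c024611)) (.one (nat_lit 0xd00000200300400e01340061ab41c026611))))) (.br (Nat.shiftLeft (nat_lit 0xe000001003) (nat_lit 100)) (.br (Nat.shiftLeft (nat_lit 0xe00000100200400e013) (nat_lit 64)) (.one (nat_lit 0xe00000100200400e01220041cb81c024611)) (.one (nat_lit 0xe00000100200400e01320041cb81c026611))) (.br (Nat.shiftLeft (nat_lit 0x7000001) (nat_lit 113)) (.one (nat_lit 0xe00000100300400e01220061cb81c024611)) (.br (Nat.shiftLeft (nat_lit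 0xe00000200300400e013) (nat_lit 64)) (.one (nat_lit 0xe00000200300400e01240061cb81c024611)) (.one (nat_lit 0xe00000200300400e01340061cb81c026611))))))
def t21 : k21.all (jb2 57 fl b0) = true := by decide +kernel
noncomputable def s0 : KT := (.br (nat_lit 0x500000300400e01400060080bd428511) (.br (nat_lit 0x100300400e013200600801c026650) (.br (nat_lit 0x100400e013000200801c026540) (.br (nat_lit 0x100400e012000200801c024540) k0 k1) (.br (nat_lit 0x100200400e013200400801c027600) k2 (.br (nat_lit 0x100300400e012200600801c025600) k3 k4))) (.br (nat_lit 0x100000300400e014000600803c428511) (.br (nat_lit 0x200300400e013400600801c027600) k5 (.br (nat_lit 0x400000400e012800000801c024411) k6 k7)) (.br (nat_lit 0x100200300400e012400600803c424760) k8 (.br (nat_lit 0x400000300400e012000600809d024511) k9 k10)))) (.br (nat_lit 0x400000200300400e012400608901c024611) (.br (nat_lit 0x800000200400e013000400811e026511) (.br (nat_lit 0x700000200400e01200040080fdc24511) k11 k12) (.br (nat_lit 0x900000300400e013000600813e426511) k13 (.br (nat_lit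 0xc00000200400e013000400819f026511) k14 k15))) (.br (nat_lit 0x700000200300400e01340060e9c1c026611) (.br (nat_lit 0x500000200300400e01240060a941c024611) k16 (.br (nat_lit 0x600000200300400e01240060c981c024611) k17 k18)) (.br (nat_lit 0x900000100200400e013200412a41c026611) k19 (.br (nat_lit 0xc00000200300400e013400618b01c026611) k20 k21)))))
noncomputable def u0 : KT := (.br (Nat.shiftLeft (nat_lit 0x400e013) (nat_lit 64)) (.one (nat_lit 0x400e012000000801c024430)) (.br (Nat.shiftLeft (nat_lit 0x1003805) (nat_lit 66)) (.one (nat_lit 0x400e013000000801c026430)) (.one (nat_lit 0x400e014000000801c028430))))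
def w0 : u0.all (wj 57 s0) = true := by decide +kernel
def o0 : OkW 57 (jb2 57 fl) u0 := .lift s0 _ (.br _ _ _ (.br _ _ _ (.br _ _ _ (.br _ _ _ (.leaf b0 k0 t0) (.leaf b0 k1 t1)) (.br _ _ _ (.leaf b0 k2 t2) (.br _ _ _ (.leaf b0 k3 t3) (.leaf b0 k4 t4)))) (.br _ _ _ (.br _ _ _ (.leaf b0 k5 t5) (.br _ _ _ (.leaf b0 k6 t6) (.leaf b0 k7 t7))) (.br _ _ _ (.leaf b0 k8 t8) (.br _ _ _ (.leaf b0 k9 t9) (.leaf b0 k10 t10))))) (.br _ _ _ (.br _ _ _ (.br _ _ _ (.leaf b0 k11 t11) (.leaf b0 k12 t12)) (.br _ _ _ (.leaf b0 k13 t13) (.br _ _ _ (.leaf b0 k14 t14) (.leaf b0 k15 t15)))) (.br _ _ _ (.br _ _ _ (.leaf b0 k16 t16) (.br _ _ _ (.leaf b0 k17 t17) (.leaf b0 k18 t18))) (.br _ _ _ (.leaf b0 k19 t19) (.br _ _ _ (.leaf b0 k20 t20) (.leaf b0 k21 t21)))))) w0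
noncomputable def k22 : KT := (.br (Nat.shiftLeft (nat_lit 0x400f) (nat_lit 76)) (.br (Nat.shiftLeft (nat_lit 0x200700b) (nat_lit 65)) (.one (nat_lit 0x400e015000000801c02b400)) (.one (nat_lit 0x400e016000000801c02d400))) (.br (Nat.shiftLeft (nat_lit 0x1) (nat_lit 100)) (.one (nat_lit 0x400f010000000801e021400)) (.one (nat_lit 0x100400e015000200801c02a540))))
def t22 : k22.all (jb2 57 fl b0) = true := by decide +kernel
noncomputable def k23 : KT := (.one (nat_lit 0x100400e016000200801c02c540))
def t23 : k23.all (jb2 57 fl b0) = true := by decide +kernel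
noncomputable def k24 : KT := (.br (Nat.shiftLeft (nat_lit 0x180200700b) (nat_lit 65)) (.br (Nat.shiftLeft (nat_lit 0x100200700b) (nat_lit 65)) (.br (Nat.shiftLeft (nat_lit 0x1) (nat_lit 101)) (.one (nat_lit 0x100400f010000200801e020540)) (.one (nat_lit 0x200400e015000400801c02b500))) (.br (Nat.shiftLeft (nat_lit 0x200400f) (nat_lit 76)) (.one (nat_lit 0x200400e016000400801c02d500)) (.br (Nat.shiftLeft (nat_lit 0x3) (nat_lit 100)) (.one (nat_lit 0x200400f010000400801e021500)) (.one (nat_lit 0x300400e015000600801c02b500))))) (.br (Nat.shiftLeft (nat_lit 0x1) (nat_lit 112)) (.br (Nat.shiftLeft (nat_lit 0x300400f) (nat_lit 76)) (.one (nat_lit 0x300400e016000600801c02d500)) (.one (nat_lit 0x300400f010000600801e021500))) (.br (Nat.shiftLeft (nat_lit 0x80000200700b) (nat_lit 65)) (.one (nat_lit 0x100000400e015200000801c02a411)) (.br (Nat.shiftLeft (nat_lit 0x100000400f) (nat_lit 76)) (.one (nat_lit 0x100000400e016200000801c02c411)) (.one (nat_lit 0x100000400f010200000801e020411))))))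
def t24 : k24.all (jb2 57 fl b0) = true := by decide +kernel
noncomputable def k25 : KT := (.one (nat_lit 0x100200400e015200400801c02a650))
def t25 : k25.all (jb2 57 fl b0) = true := by decide +kernel
noncomputable def k26 : KT := (.br (Nat.shiftLeft (nat_lit 0x100200400f) (nat_lit 76)) (.one (nat_lit 0x100200400e016200400801c02c650)) (.one (nat_lit 0x100200400f010200400801e021600)))
def t26 : k26.all (jb2 57 fl b0) = true := by decide +kernel
noncomputable def k27 : KT := (.br (Nat.shiftLeft (nat_lit 0x1) (nat_lit 113)) (.br (Nat.shiftLeft (nat_lit 0x80180200700b) (nat_lit 65)) (.one (nat_lit 0x100300400e015200600801c02a650)) (.br (Nat.shiftLeft (nat_lit 0x100300400f) (nat_lit 76)) (.one (nat_lit 0x100300400e016200600801c02c650)) (.one (nat_lit 0x100300400f010200600801e021600)))) (.br (Nat.shiftLeft (nat_lit 0x100000200700b) (nat_lit 65)) (.one (nat_lit 0x200000400e015400000801c02a411)) (.br (Nat.shiftLeft (nat_lit 0x200000400f) (nat_lit 76)) (.one (nat_lit 0x200000400e016400000801c02c411)) (.one (nat_lit 0x200000400f010400000801e020411)))))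
def t27 : k27.all (jb2 57 fl b0) = true := by decide +kernel
noncomputable def k28 : KT := (.one (nat_lit 0x200300400e015400600801c02a650))
def t28 : k28.all (jb2 57 fl b0) = true := by decide +kernel
noncomputable def k29 : KT := (.br (Nat.shiftLeft (nat_lit 0x500000400f) (nat_lit 76)) (.br (Nat.shiftLeft (nat_lit 0x1) (nat_lit 114)) (.br (Nat.shiftLeft (nat_lit 0x3) (nat_lit 112)) (.br (Nat.shiftLeft (nat_lit 0x200300400f) (nat_lit 76)) (.one (nat_lit 0x200300400e016400600801c02c650)) (.one (nat_lit 0x200300400f010400600801e021600))) (.br (Nat.shiftLeft (nat_lit 0x180000200700b) (nat_lit 65)) (.one (nat_lit 0x300000400e015600000801c02a411)) (.br (Nat.shiftLeft (nat_lit 0x300000400f) (nat_lit 76)) (.one (nat_lit 0x300000400e016600000801c02c411)) (.one (nat_lit 0x300000400f010600000801e020411))))) (.br (Nat.shiftLeft (nat_lit 0x400000400f) (nat_lit 76)) (.br (Nat.shiftLeft (nat_lit 0x200000200700b) (nat_lit 65)) (.one (nat_lit 0x400000400e015800000801c02a411)) (.one (nat_lit 0x400000400e016800000801c02c411))) (.br (Nat.shiftLeft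 (nat_lit 0x5) (nat_lit 112)) (.one (nat_lit 0x400000400f010800000801e020411)) (.br (Nat.shiftLeft (nat_lit 0x280000200700b) (nat_lit 65)) (.one (nat_lit 0x500000400e015a00000801c02a411)) (.one (nat_lit 0x500000400e016a00000801c02c411)))))) (.br (Nat.shiftLeft (nat_lit 0x380000200700b) (nat_lit 65)) (.br (Nat.shiftLeft (nat_lit 0x300000200700b) (nat_lit 65)) (.br (Nat.shiftLeft (nat_lit 0x3) (nat_lit 113)) (.one (nat_lit 0x500000400f010a00000801e020411)) (.one (nat_lit 0x600000400e015c00000801c02a411))) (.br (Nat.shiftLeft (nat_lit 0x600000400f) (nat_lit 76)) (.one (nat_lit 0x600000400e016c00000801c02c411)) (.br (Nat.shiftLeft (nat_lit 0x7) (nat_lit 112)) (.one (nat_lit 0x600000400f010c00000801e020411)) (.one (nat_lit 0x700000400e015e00000801c02a411))))) (.br (Nat.shiftLeft (nat_lit 0x400000200700b) (nat_lit 65)) (.br (Nat.shiftLeft (nat_lit 0x700000400f) (nat_lit 76)) (.one (nat_lit 0x700000400e016e00000801c02c411)) (.br (Nat.shiftLeft (nat_lit 0x1) (nat_lit 115)) (.one (nat_lit 0x700000400f010e00000801e020411)) (.one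 (nat_lit 0x800000400e015000000801c12c411)))) (.br (Nat.shiftLeft (nat_lit 0x800000400f) (nat_lit 76)) (.one (nat_lit 0x800000400e016000000801c12e411)) (.br (Nat.shiftLeft (nat_lit 0x9) (nat_lit 112)) (.one (nat_lit 0x800000400f010000000801e122411)) (.one (nat_lit 0x900000400e015200000801c12c411)))))))
def t29 : k29.all (jb2 57 fl b0) = true := by decide +kernel
noncomputable def k30 : KT := (.br (Nat.shiftLeft (nat_lit 0x680000200700b) (nat_lit 65)) (.br (Nat.shiftLeft (nat_lit 0x580000200700b) (nat_lit 65)) (.br (Nat.shiftLeft (nat_lit 0x500000200700b) (nat_lit 65)) (.br (Nat.shiftLeft (nat_lit 0x900000400f) (nat_lit 76)) (.one (nat_lit 0x900000400e016200000801c12e411)) (.br (Nat.shiftLeft (nat_lit 0x5) (nat_lit 113)) (.one (nat_lit 0x900000400f010200000801e122411)) (.one (nat_lit 0xa00000400e015400000801c12c411)))) (.br (Nat.shiftLeft (nat_lit 0xa00000400f) (nat_lit 76)) (.one (nat_lit 0xa00000400e016400000801c12e411)) (.br (Nat.shiftLeft (nat_lit 0xb) (nat_lit 112)) (.one (nat_lit 0xa00000400f010400000801e122411)) (.one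 (nat_lit 0xb00000400e015600000801c12c411))))) (.br (Nat.shiftLeft (nat_lit 0x600000200700b) (nat_lit 65)) (.br (Nat.shiftLeft (nat_lit 0xb00000400f) (nat_lit 76)) (.one (nat_lit 0xb00000400e016600000801c12e411)) (.br (Nat.shiftLeft (nat_lit 0x3) (nat_lit 114)) (.one (nat_lit 0xb00000400f010600000801e122411)) (.one (nat_lit 0xc00000400e015800000801c12c411)))) (.br (Nat.shiftLeft (nat_lit 0xc00000400f) (nat_lit 76)) (.one (nat_lit 0xc00000400e016800000801c12e411)) (.br (Nat.shiftLeft (nat_lit 0xd) (nat_lit 112)) (.one (nat_lit 0xc00000400f010800000801e122411)) (.one (nat_lit 0xd00000400e015a00000801c12c411)))))) (.br (Nat.shiftLeft (nat_lit 0x1) (nat_lit 124)) (.br (Nat.shiftLeft (nat_lit 0x700000200700b) (nat_lit 65)) (.br (Nat.shiftLeft (nat_lit 0xd00000400f) (nat_lit 76)) (.one (nat_lit 0xd00000400e016a00000801c12e411)) (.br (Nat.shiftLeft (nat_lit 0x7) (nat_lit 113)) (.one (nat_lit 0xd00000400f010a00000801e122411)) (.one (nat_lit 0xe00000400e015c00000801c12c411)))) (.br (Nat.shiftLeft (nat_lit 0xe00000400f) (nat_lit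 76)) (.one (nat_lit 0xe00000400e016c00000801c12e411)) (.br (Nat.shiftLeft (nat_lit 0xf) (nat_lit 112)) (.one (nat_lit 0xe00000400f010c00000801e122411)) (.one (nat_lit 0xf00000400f010e00000801e122411))))) (.br (Nat.shiftLeft (nat_lit 0x1000003) (nat_lit 100)) (.br (Nat.shiftLeft (nat_lit 0x80000100200700b) (nat_lit 65)) (.one (nat_lit 0x100000200400e015000400803c42a511)) (.br (Nat.shiftLeft (nat_lit 0x100000200400f) (nat_lit 76)) (.one (nat_lit 0x100000200400e016000400803c42c511)) (.one (nat_lit 0x100000200400f010000400803e420511)))) (.br (Nat.shiftLeft (nat_lit 0x80000180200700b) (nat_lit 65)) (.one (nat_lit 0x100000300400e015000600803c42a511)) (.br (Nat.shiftLeft (nat_lit 0x100000300400f) (nat_lit 76)) (.one (nat_lit 0x100000300400e016000600803c42c511)) (.one (nat_lit 0x100000300400f010000600803e420511)))))))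
def t30 : k30.all (jb2 57 fl b0) = true := by decide +kernel
noncomputable def k31 : KT := (.br (Nat.shiftLeft (nat_lit 0x2000003) (nat_lit 100)) (.br (Nat.shiftLeft (nat_lit 0x100000100200700b) (nat_lit 65)) (.br (Nat.shiftLeft (nat_lit 0x1) (nat_lit 125)) (.one (nat_lit 0x100200300400f010400600803e420760)) (.one (nat_lit 0x200000200400e015000400805c82a511))) (.br (Nat.shiftLeft (nat_lit 0x200000200400f) (nat_lit 76)) (.one (nat_lit 0x200000200400e016000400805c82c511)) (.one (nat_lit 0x200000200400f010000400805e820511)))) (.br (Nat.shiftLeft (nat_lit 0x200000300400f) (nat_lit 76)) (.br (Nat.shiftLeft (nat_lit 0x100000180200700b) (nat_lit 65)) (.one (nat_lit 0x200000300400e015000600805c82a511)) (.one (nat_lit 0x200000300400e016000600805c82c511))) (.br (Nat.shiftLeft (nat_lit 0x3) (nat_lit 124)) (.one (nat_lit 0x200000300400f010000600805e820511)) (.one (nat_lit 0x300000200400e015000400807cc2a511)))))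
def t31 : k31.all (jb2 57 fl b0) = true := by decide +kernel
noncomputable def k32 : KT := (.br (Nat.shiftLeft (nat_lit 0x400000200400f) (nat_lit 76)) (.br (Nat.shiftLeft (nat_lit 0x180000180200700b) (nat_lit 65)) (.br (Nat.shiftLeft (nat_lit 0x300000200400f) (nat_lit 76)) (.one (nat_lit 0x300000200400e016000400807cc2c511)) (.br (Nat.shiftLeft (nat_lit 0x3000003) (nat_lit 100)) (.one (nat_lit 0x300000200400f010000400807ec20511)) (.one (nat_lit 0x300000300400e015000600807cc2a511)))) (.br (Nat.shiftLeft (nat_lit 0x1) (nat_lit 126)) (.br (Nat.shiftLeft (nat_lit 0x300000300400f) (nat_lit 76)) (.one (nat_lit 0x300000300400e016000600807cc2c511)) (.one (nat_lit 0x300000300400f010000600807ec20511))) (.br (Nat.shiftLeft (nat_lit 0x200000100200700b) (nat_lit 65)) (.one (nat_lit 0x400000200400e015000400809d02a511)) (.one (nat_lit 0x400000200400e016000400809d02c511))))) (.br (Nat.shiftLeft (nat_lit 0x5) (nat_lit 124)) (.br (Nat.shiftLeft (nat_lit 0x200000180200700b) (nat_lit 65)) (.br (Nat.shiftLeft (nat_lit 0x4000003) (nat_lit 100))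 (.one (nat_lit 0x400000200400f010000400809f020511)) (.one (nat_lit 0x400000300400e015000600809d02a511))) (.br (Nat.shiftLeft (nat_lit 0x400000300400f) (nat_lit 76)) (.one (nat_lit 0x400000300400e016000600809d02c511)) (.one (nat_lit 0x400000300400f010000600809f020511)))) (.br (Nat.shiftLeft (nat_lit 0x500000200400f) (nat_lit 76)) (.br (Nat.shiftLeft (nat_lit 0x280000100200700b) (nat_lit 65)) (.one (nat_lit 0x500000200400e01500040080bd42a511)) (.one (nat_lit 0x500000200400e01600040080bd42c511))) (.br (Nat.shiftLeft (nat_lit 0x5000003) (nat_lit 100)) (.one (nat_lit 0x500000200400f01000040080bf420511)) (.one (nat_lit 0x500000300400e01500060080bd42a511))))))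
def t32 : k32.all (jb2 57 fl b0) = true := by decide +kernel
noncomputable def k33 : KT := (.br (Nat.shiftLeft (nat_lit 0x600000200400f) (nat_lit 76)) (.br (Nat.shiftLeft (nat_lit 0x3) (nat_lit 125)) (.br (Nat.shiftLeft (nat_lit 0x500000300400f) (nat_lit 76)) (.one (nat_lit 0x500000300400e01600060080bd42c511)) (.one (nat_lit 0x500000300400f01000060080bf420511))) (.br (Nat.shiftLeft (nat_lit 0x300000100200700b) (nat_lit 65)) (.one (nat_lit 0x600000200400e01500040080dd82a511)) (.one (nat_lit 0x600000200400e01600040080dd82c511)))) (.br (Nat.shiftLeft (nat_lit 0x300000180200700b) (nat_lit 65)) (.br (Nat.shiftLeft (nat_lit 0x6000003) (nat_lit 100)) (.one (nat_lit 0x600000200400f01000040080df820511)) (.one (nat_lit 0x600000300400e01500060080dd82a511))) (.br (Nat.shiftLeft (nat_lit 0x600000300400f) (nat_lit 76)) (.one (nat_lit 0x600000300400e01600060080dd82c511)) (.one (nat_lit 0x600000300400f01000060080df820511)))))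
def t33 : k33.all (jb2 57 fl b0) = true := by decide +kernel
noncomputable def k34 : KT := (.br (Nat.shiftLeft (nat_lit 0x700000300400f) (nat_lit 76)) (.br (Nat.shiftLeft (nat_lit 0x700000200400f) (nat_lit 76)) (.br (Nat.shiftLeft (nat_lit 0x380000100200700b) (nat_lit 65)) (.one (nat_lit 0x700000200400e01500040080fdc2a511)) (.one (nat_lit 0x700000200400e01600040080fdc2c511))) (.br (Nat.shiftLeft (nat_lit 0x7000003) (nat_lit 100)) (.one (nat_lit 0x700000200400f01000040080ffc20511)) (.br (Nat.shiftLeft (nat_lit 0x380000180200700b) (nat_lit 65)) (.one (nat_lit 0x700000300400e01500060080fdc2a511)) (.one (nat_lit 0x700000300400e01600060080fdc2c511))))) (.br (Nat.shiftLeft (nat_lit 0x800000200400f) (nat_lit 76)) (.br (Nat.shiftLeft (nat_lit 0x1) (nat_lit 127)) (.one (nat_lit 0x700000300400f01000060080ffc20511)) (.br (Nat.shiftLeft (nat_lit 0x400000100200700b) (nat_lit 65)) (.one (nat_lit 0x800000200400e015000400811e02a511)) (.one (nat_lit 0x800000200400e016000400811e02c511)))) (.br (Nat.shiftLeft (nat_lit 0x8000003) (nat_lit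 100)) (.one (nat_lit 0x800000200400f0100004008120020511)) (.br (Nat.shiftLeft (nat_lit 0x400000180200700b) (nat_lit 65)) (.one (nat_lit 0x800000300400e015000600811e02a511)) (.one (nat_lit 0x800000300400e016000600811e02c511))))))
def t34 : k34.all (jb2 57 fl b0) = true := by decide +kernel
noncomputable def k35 : KT := (.br (Nat.shiftLeft (nat_lit 0x5) (nat_lit 125)) (.br (Nat.shiftLeft (nat_lit 0x900000200400f) (nat_lit 76)) (.br (Nat.shiftLeft (nat_lit 0x9) (nat_lit 124)) (.one (nat_lit 0x800000300400f0100006008120020511)) (.br (Nat.shiftLeft (nat_lit 0x480000100200700b) (nat_lit 65)) (.one (nat_lit 0x900000200400e015000400813e42a511)) (.one (nat_lit 0x900000200400e016000400813e42c511)))) (.br (Nat.shiftLeft (nat_lit 0x480000180200700b) (nat_lit 65)) (.br (Nat.shiftLeft (nat_lit 0x9000003) (nat_lit 100)) (.one (nat_lit 0x900000200400f0100004008140420511)) (.one (nat_lit 0x900000300400e015000600813e42a511))) (.br (Nat.shiftLeft (nat_lit 0x900000300400f) (nat_lit 76)) (.one (nat_lit 0x900000300400e016000600813e42c511))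 (.one (nat_lit 0x900000300400f0100006008140420511))))) (.br (Nat.shiftLeft (nat_lit 0x500000180200700b) (nat_lit 65)) (.br (Nat.shiftLeft (nat_lit 0xa00000200400f) (nat_lit 76)) (.br (Nat.shiftLeft (nat_lit 0x500000100200700b) (nat_lit 65)) (.one (nat_lit 0xa00000200400e015000400815e82a511)) (.one (nat_lit 0xa00000200400e016000400815e82c511))) (.br (Nat.shiftLeft (nat_lit 0xa000003) (nat_lit 100)) (.one (nat_lit 0xa00000200400f0100004008160820511)) (.one (nat_lit 0xa00000300400e015000600815e82a511)))) (.br (Nat.shiftLeft (nat_lit 0xb) (nat_lit 124)) (.br (Nat.shiftLeft (nat_lit 0xa00000300400f) (nat_lit 76)) (.one (nat_lit 0xa00000300400e016000600815e82c511)) (.one (nat_lit 0xa00000300400f0100006008160820511))) (.br (Nat.shiftLeft (nat_lit 0x580000100200700b) (nat_lit 65)) (.one (nat_lit 0xb00000200400e015000400817ec2a511)) (.one (nat_lit 0xb00000200400e016000400817ec2c511))))))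
def t35 : k35.all (jb2 57 fl b0) = true := by decide +kernel
noncomputable def k36 : KT := (.br (Nat.shiftLeft (nat_lit 0x700000100200700b) (nat_lit 65)) (.br (Nat.shiftLeft (nat_lit 0x600000180200700b) (nat_lit 65)) (.br (Nat.shiftLeft (nat_lit 0x3) (nat_lit 126)) (.br (Nat.shiftLeft (nat_lit 0x580000180200700b) (nat_lit 65)) (.br (Nat.shiftLeft (nat_lit 0xb000003) (nat_lit 100)) (.one (nat_lit 0xb00000200400f0100004008180c20511)) (.one (nat_lit 0xb00000300400e015000600817ec2a511))) (.br (Nat.shiftLeft (nat_lit 0xb00000300400f) (nat_lit 76)) (.one (nat_lit 0xb00000300400e016000600817ec2c511)) (.one (nat_lit 0xb00000300400f0100006008180c20511)))) (.br (Nat.shiftLeft (nat_lit 0xc00000200400f) (nat_lit 76)) (.br (Nat.shiftLeft (nat_lit 0x600000100200700b) (nat_lit 65)) (.one (nat_lit 0xc00000200400e015000400819f02a511)) (.one (nat_lit 0xc00000200400e016000400819f02c511))) (.br (Nat.shiftLeft (nat_lit 0xc000003) (nat_lit 100)) (.one (nat_lit 0xc00000200400f01000040081a1020511)) (.one (nat_lit 0xc00000300400e015000600819f02a511)))))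 (.br (Nat.shiftLeft (nat_lit 0xd00000200400f) (nat_lit 76)) (.br (Nat.shiftLeft (nat_lit 0xd) (nat_lit 124)) (.br (Nat.shiftLeft (nat_lit 0xc00000300400f) (nat_lit 76)) (.one (nat_lit 0xc00000300400e016000600819f02c511)) (.one (nat_lit 0xc00000300400f01000060081a1020511))) (.br (Nat.shiftLeft (nat_lit 0x680000100200700b) (nat_lit 65)) (.one (nat_lit 0xd00000200400e01500040081bf42a511)) (.one (nat_lit 0xd00000200400e01600040081bf42c511)))) (.br (Nat.shiftLeft (nat_lit 0x680000180200700b) (nat_lit 65)) (.br (Nat.shiftLeft (nat_lit 0xd000003) (nat_lit 100)) (.one (nat_lit 0xd00000200400f01000040081c1420511)) (.one (nat_lit 0xd00000300400e01500060081bf42a511))) (.br (Nat.shiftLeft (nat_lit 0xd00000300400f) (nat_lit 76)) (.one (nat_lit 0xd00000300400e01600060081bf42c511)) (.br (Nat.shiftLeft (nat_lit 0x7) (nat_lit 125)) (.one (nat_lit 0xd00000300400f01000060081c1420511)) (.one (nat_lit 0xe00000200400e01500040081df82a511))))))) (.br (Nat.shiftLeft (nat_lit 0x1000001003) (nat_lit 100)) (.br (Nat.shiftLeft (nat_lit 0xe00000300400f)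 (nat_lit 76)) (.br (Nat.shiftLeft (nat_lit 0xe000003) (nat_lit 100)) (.br (Nat.shiftLeft (nat_lit 0xe00000200400f) (nat_lit 76)) (.one (nat_lit 0xe00000200400e01600040081df82c511)) (.one (nat_lit 0xe00000200400f01000040081e1820511))) (.br (Nat.shiftLeft (nat_lit 0x700000180200700b) (nat_lit 65)) (.one (nat_lit 0xe00000300400e01500060081df82a511)) (.one (nat_lit 0xe00000300400e01600060081df82c511)))) (.br (Nat.shiftLeft (nat_lit 0xf000003) (nat_lit 100)) (.br (Nat.shiftLeft (nat_lit 0xf) (nat_lit 124)) (.one (nat_lit 0xe00000300400f01000060081e1820511)) (.one (nat_lit 0xf00000200400f0100004008201c20511))) (.br (Nat.shiftLeft (nat_lit 0x1) (nat_lit 136)) (.one (nat_lit 0xf00000300400f0100006008201c20511)) (.one (nat_lit 0x100000100200400f010200402841e020611))))) (.br (Nat.shiftLeft (nat_lit 0x1000001) (nat_lit 113)) (.br (Nat.shiftLeft (nat_lit 0x1) (nat_lit 137)) (.br (Nat.shiftLeft (nat_lit 0x800001) (nat_lit 113)) (.one (nat_lit 0x100000100300400f010200602841e020611)) (.one (nat_lit 0x100000200300400f010400602841e020611)))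 (.br (Nat.shiftLeft (nat_lit 0x2000001003) (nat_lit 100)) (.one (nat_lit 0x200000100200400f010200404881e020611)) (.one (nat_lit 0x200000100300400f010200604881e020611)))) (.br (Nat.shiftLeft (nat_lit 0x3000001003) (nat_lit 100)) (.br (Nat.shiftLeft (nat_lit 0x3) (nat_lit 136)) (.one (nat_lit 0x200000200300400f010400604881e020611)) (.one (nat_lit 0x300000100200400f0102004068c1e020611))) (.br (Nat.shiftLeft (nat_lit 0x1800001) (nat_lit 113)) (.one (nat_lit 0x300000100300400f0102006068c1e020611)) (.br (Nat.shiftLeft (nat_lit 0x1) (nat_lit 138)) (.one (nat_lit 0x300000200300400f0104006068c1e020611)) (.one (nat_lit 0x400000100200400f010200408901e020611))))))))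
def t36 : k36.all (jb2 57 fl b0) = true := by decide +kernel
noncomputable def k37 : KT := (.br (Nat.shiftLeft (nat_lit 0x5) (nat_lit 136)) (.br (Nat.shiftLeft (nat_lit 0x2000001) (nat_lit 113)) (.one (nat_lit 0x400000100300400f010200608901e020611)) (.one (nat_lit 0x400000200300400f010400608901e020611))) (.br (Nat.shiftLeft (nat_lit 0x5000001003) (nat_lit 100)) (.one (nat_lit 0x500000100200400f01020040a941e020611)) (.br (Nat.shiftLeft (nat_lit 0x2800001) (nat_lit 113)) (.one (nat_lit 0x500000100300400f01020060a941e020611)) (.one (nat_lit 0x500000200300400f01040060a941e020611)))))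
def t37 : k37.all (jb2 57 fl b0) = true := by decide +kernel
noncomputable def k38 : KT := (.br (Nat.shiftLeft (nat_lit 0x3000001) (nat_lit 113)) (.br (Nat.shiftLeft (nat_lit 0x6000001003) (nat_lit 100)) (.one (nat_lit 0x600000100200400f01020040c981e020611)) (.one (nat_lit 0x600000100300400f01020060c981e020611))) (.br (Nat.shiftLeft (nat_lit 0x7) (nat_lit 136)) (.one (nat_lit 0x600000200300400f01040060c981e020611)) (.one (nat_lit 0x700000100200400f01020040e9c1e020611))))
def t38 : k38.all (jb2 57 fl b0) = true := by decide +kernel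
noncomputable def k39 : KT := (.br (Nat.shiftLeft (nat_lit 0x8000001003) (nat_lit 100)) (.br (Nat.shiftLeft (nat_lit 0x3800001) (nat_lit 113)) (.one (nat_lit 0x700000100300400f01020060e9c1e020611)) (.br (Nat.shiftLeft (nat_lit 0x1) (nat_lit 139)) (.one (nat_lit 0x700000200300400f01040060e9c1e020611)) (.one (nat_lit 0x800000100200400f010200410a01e020611)))) (.br (Nat.shiftLeft (nat_lit 0x4000001) (nat_lit 113)) (.one (nat_lit 0x800000100300400f010200610a01e020611)) (.br (Nat.shiftLeft (nat_lit 0x9) (nat_lit 136)) (.one (nat_lit 0x800000200300400f010400610a01e020611)) (.one (nat_lit 0x900000100200400f010200412a41e020611)))))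
def t39 : k39.all (jb2 57 fl b0) = true := by decide +kernel
noncomputable def k40 : KT := (.br (Nat.shiftLeft (nat_lit 0x5800001) (nat_lit 113)) (.br (Nat.shiftLeft (nat_lit 0xa000001003) (nat_lit 100)) (.br (Nat.shiftLeft (nat_lit 0x4800001) (nat_lit 113)) (.one (nat_lit 0x900000100300400f010200612a41e020611)) (.br (Nat.shiftLeft (nat_lit 0x5) (nat_lit 137)) (.one (nat_lit 0x900000200300400f010400612a41e020611)) (.one (nat_lit 0xa00000100200400f010200414a81e020611)))) (.br (Nat.shiftLeft (nat_lit 0xb) (nat_lit 136)) (.br (Nat.shiftLeft (nat_lit 0x5000001) (nat_lit 113)) (.one (nat_lit 0xa00000100300400f010200614a81e020611)) (.one (nat_lit 0xa00000200300400f010400614a81e020611))) (.br (Nat.shiftLeft (nat_lit 0xb000001003) (nat_lit 100)) (.one (nat_lit 0xb00000100200400f010200416ac1e020611)) (.one (nat_lit 0xb00000100300400f010200616ac1e020611))))) (.br (Nat.shiftLeft (nat_lit 0xd) (nat_lit 136)) (.br (Nat.shiftLeft (nat_lit 0xc000001003) (nat_lit 100)) (.br (Nat.shiftLeft (nat_lit 0x3) (nat_lit 138)) (.one (nat_lit 0xb00000200300400f010400616ac1e020611))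 (.one (nat_lit 0xc00000100200400f010200418b01e020611))) (.br (Nat.shiftLeft (nat_lit 0x6000001) (nat_lit 113)) (.one (nat_lit 0xc00000100300400f010200618b01e020611)) (.one (nat_lit 0xc00000200300400f010400618b01e020611)))) (.br (Nat.shiftLeft (nat_lit 0x6800001) (nat_lit 113)) (.br (Nat.shiftLeft (nat_lit 0xd000001003) (nat_lit 100)) (.one (nat_lit 0xd00000100200400f01020041ab41e020611)) (.one (nat_lit 0xd00000100300400f01020061ab41e020611))) (.br (Nat.shiftLeft (nat_lit 0x7) (nat_lit 137)) (.one (nat_lit 0xd00000200300400f01040061ab41e020611)) (.one (nat_lit 0xe00000100200400f01020041cb81e020611))))))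
def t40 : k40.all (jb2 57 fl b0) = true := by decide +kernel
noncomputable def k41 : KT := (.br (Nat.shiftLeft (nat_lit 0xf) (nat_lit 136)) (.br (Nat.shiftLeft (nat_lit 0x7000001) (nat_lit 113)) (.one (nat_lit 0xe00000100300400f01020061cb81e020611)) (.one (nat_lit 0xe00000200300400f01040061cb81e020611))) (.br (Nat.shiftLeft (nat_lit 0xf000001003) (nat_lit 100)) (.one (nat_lit 0xf00000100200400f01020041ebc1e020611)) (.br (Nat.shiftLeft (nat_lit 0x7800001) (nat_lit 113)) (.one (nat_lit 0xf00000100300400f01020061ebc1e020611)) (.one (nat_lit 0xf00000200300400f01040061ebc1e020611)))))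
def t41 : k41.all (jb2 57 fl b0) = true := by decide +kernel
noncomputable def s1 : KT := (.br (nat_lit 0x300000200400e015000400807cc2a511) (.br (nat_lit 0x100200400f010200400801e021600) (.br (nat_lit 0x100400e016000200801c02c540) (.br (nat_lit 0x100400e015000200801c02a540) k22 k23) (.br (nat_lit 0x100000400f010200000801e020411) k24 (.br (nat_lit 0x100200400e015200400801c02a650) k25 k26))) (.br (nat_lit 0x200300400e015400600801c02a650) (.br (nat_lit 0x200000400f010400000801e020411) k27 k28) (.br (nat_lit 0x900000400e015200000801c12c411) k29 (.br (nat_lit 0x100000300400f010000600803e420511) k30 k31)))) (.br (nat_lit 0x400000100200400f010200408901e020611) (.br (nat_lit 0x600000300400f01000060080df820511) (.br (nat_lit 0x500000300400e01500060080bd42a511) k32 k33) (.br (nat_lit 0x800000300400e016000600811e02c511) k34 (.br (nat_lit 0xb00000200400e016000400817ec2c511) k35 k36))) (.br (nat_lit 0x700000100200400f01020040e9c1e020611) (.br (nat_lit 0x500000200300400f01040060a941e020611) k37 k38) (.br (nat_lit 0x900000100200400f010200412a41e020611)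 k39 (.br (nat_lit 0xe00000100200400f01020041cb81e020611) k40 k41)))))
noncomputable def u1 : KT := (.br (Nat.shiftLeft (nat_lit 0x200700b) (nat_lit 65)) (.one (nat_lit 0x400e015000000801c02a430)) (.br (Nat.shiftLeft (nat_lit 0x400f) (nat_lit 76)) (.one (nat_lit 0x400e016000000801c02c430)) (.one (nat_lit 0x400f010000000801e020430))))
def w1 : u1.all (wj 57 s1) = true := by decide +kernel
def o1 : OkW 57 (jb2 57 fl) u1 := .lift s1 _ (.br _ _ _ (.br _ _ _ (.br _ _ _ (.br _ _ _ (.leaf b0 k22 t22) (.leaf b0 k23 t23)) (.br _ _ _ (.leaf b0 k24 t24) (.br _ _ _ (.leaf b0 k25 t25) (.leaf b0 k26 t26)))) (.br _ _ _ (.br _ _ _ (.leaf b0 k27 t27) (.leaf b0 k28 t28)) (.br _ _ _ (.leaf b0 k29 t29) (.br _ _ _ (.leaf b0 k30 t30) (.leaf b0 k31 t31))))) (.br _ _ _ (.br _ _ _ (.br _ _ _ (.leaf b0 k32 t32) (.leaf b0 k33 t33)) (.br _ _ _ (.leaf b0 k34 t34) (.br _ _ _ (.leaf b0 k35 t35) (.leaf b0 k36 t36)))) (.br _ _ _ (.br _ _ _ (.leaf b0 k37 t37) (.leaf b0 k38 t38)) (.br _ _ _ (.leaf b0 k39 t39) (.br _ _ _ (.leaf b0 k40 t40) (.leaf b0 k41 t41))))))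 w1
noncomputable def k42 : KT := (.br (Nat.shiftLeft (nat_lit 0x400f013) (nat_lit 64)) (.br (Nat.shiftLeft (nat_lit 0x2007809) (nat_lit 65)) (.one (nat_lit 0x400f011000000801e023400)) (.one (nat_lit 0x400f012000000801e025400))) (.br (Nat.shiftLeft (nat_lit 0x1) (nat_lit 100)) (.one (nat_lit 0x400f013000000801e027400)) (.one (nat_lit 0x100400f011000200801e022540))))
def t42 : k42.all (jb2 57 fl b0) = true := by decide +kernel
noncomputable def k43 : KT := (.one (nat_lit 0x100400f012000200801e024540))
def t43 : k43.all (jb2 57 fl b0) = true := by decide +kernel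
noncomputable def k44 : KT := (.br (Nat.shiftLeft (nat_lit 0x300400f013) (nat_lit 64)) (.br (Nat.shiftLeft (nat_lit 0x200400f013) (nat_lit 64)) (.br (Nat.shiftLeft (nat_lit 0x1) (nat_lit 101)) (.one (nat_lit 0x100400f013000200801e026540)) (.br (Nat.shiftLeft (nat_lit 0x1002007809) (nat_lit 65)) (.one (nat_lit 0x200400f011000400801e023500)) (.one (nat_lit 0x200400f012000400801e025500)))) (.br (Nat.shiftLeft (nat_lit 0x3) (nat_lit 100)) (.one (nat_lit 0x200400f013000400801e027500)) (.br (Nat.shiftLeft (nat_lit 0x1802007809) (nat_lit 65)) (.one (nat_lit 0x300400f011000600801e023500)) (.one (nat_lit 0x300400f012000600801e025500))))) (.br (Nat.shiftLeft (nat_lit 0x100000400f013) (nat_lit 64)) (.br (Nat.shiftLeft (nat_lit 0x1) (nat_lit 112)) (.one (nat_lit 0x300400f013000600801e027500)) (.br (Nat.shiftLeft (nat_lit 0x800002007809) (nat_lit 65)) (.one (nat_lit 0x100000400f011200000801e022411)) (.one (nat_lit 0x100000400f012200000801e024411)))) (.br (Nat.shiftLeft (nat_lit 0x801) (nat_lit 101)) (.one (nat_lit 0x100000400f013200000801e026411))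 (.br (Nat.shiftLeft (nat_lit 0x801002007809) (nat_lit 65)) (.one (nat_lit 0x100200400f011200400801e023600)) (.one (nat_lit 0x100200400f012200400801e025600))))))
def t44 : k44.all (jb2 57 fl b0) = true := by decide +kernel
noncomputable def k45 : KT := (.br (Nat.shiftLeft (nat_lit 0x1003) (nat_lit 100)) (.one (nat_lit 0x100200400f013200400801e026650)) (.one (nat_lit 0x100300400f011200600801e023600)))
def t45 : k45.all (jb2 57 fl b0) = true := by decide +kernel
noncomputable def k46 : KT := (.one (nat_lit 0x100300400f012200600801e024650))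
def t46 : k46.all (jb2 57 fl b0) = true := by decide +kernel
noncomputable def k47 : KT := (.br (Nat.shiftLeft (nat_lit 0x200000400f013) (nat_lit 64)) (.br (Nat.shiftLeft (nat_lit 0x1) (nat_lit 113)) (.one (nat_lit 0x100300400f013200600801e026650)) (.br (Nat.shiftLeft (nat_lit 0x1000002007809) (nat_lit 65)) (.one (nat_lit 0x200000400f011400000801e022411)) (.one (nat_lit 0x200000400f012400000801e024411)))) (.br (Nat.shiftLeft (nat_lit 0x1001) (nat_lit 101)) (.one (nat_lit 0x200000400f013400000801e026411)) (.br (Nat.shiftLeft (nat_lit 0x1001802007809) (nat_lit 65)) (.one (nat_lit 0x200300400f011400600801e023600)) (.one (nat_lit 0x200300400f012400600801e025600)))))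
def t47 : k47.all (jb2 57 fl b0) = true := by decide +kernel
noncomputable def k48 : KT := (.br (Nat.shiftLeft (nat_lit 0x1800002007809) (nat_lit 65)) (.br (Nat.shiftLeft (nat_lit 0x3) (nat_lit 112)) (.one (nat_lit 0x200300400f013400600801e026650)) (.one (nat_lit 0x300000400f011600000801e022411))) (.br (Nat.shiftLeft (nat_lit 0x300000400f013) (nat_lit 64)) (.one (nat_lit 0x300000400f012600000801e024411)) (.br (Nat.shiftLeft (nat_lit 0x1) (nat_lit 114)) (.one (nat_lit 0x300000400f013600000801e026411)) (.one (nat_lit 0x400000400f011800000801e022411)))))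
def t48 : k48.all (jb2 57 fl b0) = true := by decide +kernel
noncomputable def k49 : KT := (.br (Nat.shiftLeft (nat_lit 0xb) (nat_lit 112)) (.br (Nat.shiftLeft (nat_lit 0x700000400f013) (nat_lit 64)) (.br (Nat.shiftLeft (nat_lit 0x3) (nat_lit 113)) (.br (Nat.shiftLeft (nat_lit 0x5) (nat_lit 112)) (.br (Nat.shiftLeft (nat_lit 0x400000400f013) (nat_lit 64)) (.one (nat_lit 0x400000400f012800000801e024411)) (.one (nat_lit 0x400000400f013800000801e026411))) (.br (Nat.shiftLeft (nat_lit 0x2800002007809) (nat_lit 65)) (.one (nat_lit 0x500000400f011a00000801e022411)) (.br (Nat.shiftLeft (nat_lit 0x500000400f013) (nat_lit 64)) (.one (nat_lit 0x500000400f012a00000801e024411)) (.one (nat_lit 0x500000400f013a00000801e026411))))) (.br (Nat.shiftLeft (nat_lit 0x600000400f013) (nat_lit 64)) (.br (Nat.shiftLeft (nat_lit 0x3000002007809) (nat_lit 65)) (.one (nat_lit 0x600000400f011c00000801e022411)) (.one (nat_lit 0x600000400f012c00000801e024411))) (.br (Nat.shiftLeft (nat_lit 0x7) (nat_lit 112)) (.one (nat_lit 0x600000400f013c00000801e026411))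 (.br (Nat.shiftLeft (nat_lit 0x3800002007809) (nat_lit 65)) (.one (nat_lit 0x700000400f011e00000801e022411)) (.one (nat_lit 0x700000400f012e00000801e024411)))))) (.br (Nat.shiftLeft (nat_lit 0x4800002007809) (nat_lit 65)) (.br (Nat.shiftLeft (nat_lit 0x4000002007809) (nat_lit 65)) (.br (Nat.shiftLeft (nat_lit 0x1) (nat_lit 115)) (.one (nat_lit 0x700000400f013e00000801e026411)) (.one (nat_lit 0x800000400f011000000801e124411))) (.br (Nat.shiftLeft (nat_lit 0x800000400f013) (nat_lit 64)) (.one (nat_lit 0x800000400f012000000801e126411)) (.br (Nat.shiftLeft (nat_lit 0x9) (nat_lit 112)) (.one (nat_lit 0x800000400f013000000801e128411)) (.one (nat_lit 0x900000400f011200000801e124411))))) (.br (Nat.shiftLeft (nat_lit 0x5) (nat_lit 113)) (.br (Nat.shiftLeft (nat_lit 0x900000400f013) (nat_lit 64)) (.one (nat_lit 0x900000400f012200000801e126411)) (.one (nat_lit 0x900000400f013200000801e128411))) (.br (Nat.shiftLeft (nat_lit 0x5000002007809) (nat_lit 65)) (.one (nat_lit 0xa00000400f011400000801e124411)) (.br (Nat.shiftLeft (nat_lit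 0xa00000400f013) (nat_lit 64)) (.one (nat_lit 0xa00000400f012400000801e126411)) (.one (nat_lit 0xa00000400f013400000801e128411))))))) (.br (Nat.shiftLeft (nat_lit 0x7000002007809) (nat_lit 65)) (.br (Nat.shiftLeft (nat_lit 0xc00000400f013) (nat_lit 64)) (.br (Nat.shiftLeft (nat_lit 0xb00000400f013) (nat_lit 64)) (.br (Nat.shiftLeft (nat_lit 0x5800002007809) (nat_lit 65)) (.one (nat_lit 0xb00000400f011600000801e124411)) (.one (nat_lit 0xb00000400f012600000801e126411))) (.br (Nat.shiftLeft (nat_lit 0x3) (nat_lit 114)) (.one (nat_lit 0xb00000400f013600000801e128411)) (.br (Nat.shiftLeft (nat_lit 0x6000002007809) (nat_lit 65)) (.one (nat_lit 0xc00000400f011800000801e124411)) (.one (nat_lit 0xc00000400f012800000801e126411))))) (.br (Nat.shiftLeft (nat_lit 0x6800002007809) (nat_lit 65)) (.br (Nat.shiftLeft (nat_lit 0xd) (nat_lit 112)) (.one (nat_lit 0xc00000400f013800000801e128411)) (.one (nat_lit 0xd00000400f011a00000801e124411))) (.br (Nat.shiftLeft (nat_lit 0xd00000400f013) (nat_lit 64)) (.one (nat_lit 0xd00000400f012a00000801e126411))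 (.br (Nat.shiftLeft (nat_lit 0x7) (nat_lit 113)) (.one (nat_lit 0xd00000400f013a00000801e128411)) (.one (nat_lit 0xe00000400f011c00000801e124411)))))) (.br (Nat.shiftLeft (nat_lit 0x1) (nat_lit 124)) (.br (Nat.shiftLeft (nat_lit 0xf) (nat_lit 112)) (.br (Nat.shiftLeft (nat_lit 0xe00000400f013) (nat_lit 64)) (.one (nat_lit 0xe00000400f012c00000801e126411)) (.one (nat_lit 0xe00000400f013c00000801e128411))) (.br (Nat.shiftLeft (nat_lit 0x7800002007809) (nat_lit 65)) (.one (nat_lit 0xf00000400f011e00000801e124411)) (.br (Nat.shiftLeft (nat_lit 0xf00000400f013) (nat_lit 64)) (.one (nat_lit 0xf00000400f012e00000801e126411)) (.one (nat_lit 0xf00000400f013e00000801e128411))))) (.br (Nat.shiftLeft (nat_lit 0x100000200400f013) (nat_lit 64)) (.br (Nat.shiftLeft (nat_lit 0x800001002007809) (nat_lit 65)) (.one (nat_lit 0x100000200400f011000400803e422511)) (.one (nat_lit 0x100000200400f012000400803e424511))) (.br (Nat.shiftLeft (nat_lit 0x1000003) (nat_lit 100)) (.one (nat_lit 0x100000200400f013000400803e426511)) (.br (Nat.shiftLeft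 (nat_lit 0x800001802007809) (nat_lit 65)) (.one (nat_lit 0x100000300400f011000600803e422511)) (.one (nat_lit 0x100000300400f012000600803e424511))))))))
def t49 : k49.all (jb2 57 fl b0) = true := by decide +kernel
noncomputable def k50 : KT := (.br (Nat.shiftLeft (nat_lit 0x801) (nat_lit 113)) (.one (nat_lit 0x100000300400f013000600803e426511)) (.one (nat_lit 0x100200300400f011400600803e422760)))
def t50 : k50.all (jb2 57 fl b0) = true := by decide +kernel
noncomputable def k51 : KT := (.br (Nat.shiftLeft (nat_lit 0x1800001002007809) (nat_lit 65)) (.br (Nat.shiftLeft (nat_lit 0x2000003) (nat_lit 100)) (.br (Nat.shiftLeft (nat_lit 0x1000001002007809) (nat_lit 65)) (.br (Nat.shiftLeft (nat_lit 0x1) (nat_lit 125)) (.one (nat_lit 0x100200300400f012400600803e424760)) (.one (nat_lit 0x200000200400f011000400805e822511))) (.br (Nat.shiftLeft (nat_lit 0x200000200400f013) (nat_lit 64)) (.one (nat_lit 0x200000200400f012000400805e824511)) (.one (nat_lit 0x200000200400f013000400805e826511)))) (.br (Nat.shiftLeft (nat_lit 0x200000300400f013)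 (nat_lit 64)) (.br (Nat.shiftLeft (nat_lit 0x1000001802007809) (nat_lit 65)) (.one (nat_lit 0x200000300400f011000600805e822511)) (.one (nat_lit 0x200000300400f012000600805e824511))) (.br (Nat.shiftLeft (nat_lit 0x3) (nat_lit 124)) (.one (nat_lit 0x200000300400f013000600805e826511)) (.one (nat_lit 0x300000200400f011000400807ec22511))))) (.br (Nat.shiftLeft (nat_lit 0x300000300400f013) (nat_lit 64)) (.br (Nat.shiftLeft (nat_lit 0x3000003) (nat_lit 100)) (.br (Nat.shiftLeft (nat_lit 0x300000200400f013) (nat_lit 64)) (.one (nat_lit 0x300000200400f012000400807ec24511)) (.one (nat_lit 0x300000200400f013000400807ec26511))) (.br (Nat.shiftLeft (nat_lit 0x1800001802007809) (nat_lit 65)) (.one (nat_lit 0x300000300400f011000600807ec22511)) (.one (nat_lit 0x300000300400f012000600807ec24511)))) (.br (Nat.shiftLeft (nat_lit 0x2000001002007809) (nat_lit 65)) (.br (Nat.shiftLeft (nat_lit 0x1) (nat_lit 126)) (.one (nat_lit 0x300000300400f013000600807ec26511)) (.one (nat_lit 0x400000200400f011000400809f022511))) (.br (Nat.shiftLeft (nat_lit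 0x400000200400f013) (nat_lit 64)) (.one (nat_lit 0x400000200400f012000400809f024511)) (.br (Nat.shiftLeft (nat_lit 0x4000003) (nat_lit 100)) (.one (nat_lit 0x400000200400f013000400809f026511)) (.one (nat_lit 0x400000300400f011000600809f022511)))))))
def t51 : k51.all (jb2 57 fl b0) = true := by decide +kernel
noncomputable def k52 : KT := (.br (Nat.shiftLeft (nat_lit 0x500000200400f013) (nat_lit 64)) (.br (Nat.shiftLeft (nat_lit 0x5) (nat_lit 124)) (.br (Nat.shiftLeft (nat_lit 0x400000300400f013) (nat_lit 64)) (.one (nat_lit 0x400000300400f012000600809f024511)) (.one (nat_lit 0x400000300400f013000600809f026511))) (.br (Nat.shiftLeft (nat_lit 0x2800001002007809) (nat_lit 65)) (.one (nat_lit 0x500000200400f01100040080bf422511)) (.one (nat_lit 0x500000200400f01200040080bf424511)))) (.br (Nat.shiftLeft (nat_lit 0x2800001802007809) (nat_lit 65)) (.br (Nat.shiftLeft (nat_lit 0x5000003) (nat_lit 100)) (.one (nat_lit 0x500000200400f01300040080bf426511)) (.one (nat_lit 0x500000300400f01100060080bf422511))) (.br (Nat.shiftLeft (nat_lit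 0x500000300400f013) (nat_lit 64)) (.one (nat_lit 0x500000300400f01200060080bf424511)) (.one (nat_lit 0x500000300400f01300060080bf426511)))))
def t52 : k52.all (jb2 57 fl b0) = true := by decide +kernel
noncomputable def k53 : KT := (.br (Nat.shiftLeft (nat_lit 0x6000003) (nat_lit 100)) (.br (Nat.shiftLeft (nat_lit 0x3000001002007809) (nat_lit 65)) (.one (nat_lit 0x600000200400f01100040080df822511)) (.br (Nat.shiftLeft (nat_lit 0x600000200400f013) (nat_lit 64)) (.one (nat_lit 0x600000200400f01200040080df824511)) (.one (nat_lit 0x600000200400f01300040080df826511)))) (.br (Nat.shiftLeft (nat_lit 0x600000300400f013) (nat_lit 64)) (.br (Nat.shiftLeft (nat_lit 0x3000001802007809) (nat_lit 65)) (.one (nat_lit 0x600000300400f01100060080df822511)) (.one (nat_lit 0x600000300400f01200060080df824511))) (.br (Nat.shiftLeft (nat_lit 0x7) (nat_lit 124)) (.one (nat_lit 0x600000300400f01300060080df826511)) (.one (nat_lit 0x700000200400f01100040080ffc22511)))))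
def t53 : k53.all (jb2 57 fl b0) = true := by decide +kernel
noncomputable def k54 : KT := (.br (Nat.shiftLeft (nat_lit 0x700000300400f013) (nat_lit 64)) (.br (Nat.shiftLeft (nat_lit 0x7000003) (nat_lit 100)) (.br (Nat.shiftLeft (nat_lit 0x700000200400f013) (nat_lit 64)) (.one (nat_lit 0x700000200400f01200040080ffc24511)) (.one (nat_lit 0x700000200400f01300040080ffc26511))) (.br (Nat.shiftLeft (nat_lit 0x3800001802007809) (nat_lit 65)) (.one (nat_lit 0x700000300400f01100060080ffc22511)) (.one (nat_lit 0x700000300400f01200060080ffc24511)))) (.br (Nat.shiftLeft (nat_lit 0x4000001002007809) (nat_lit 65)) (.br (Nat.shiftLeft (nat_lit 0x1) (nat_lit 127)) (.one (nat_lit 0x700000300400f01300060080ffc26511)) (.one (nat_lit 0x800000200400f0110004008120022511))) (.br (Nat.shiftLeft (nat_lit 0x800000200400f013) (nat_lit 64)) (.one (nat_lit 0x800000200400f0120004008120024511)) (.one (nat_lit 0x800000200400f0130004008120026511)))))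
def t54 : k54.all (jb2 57 fl b0) = true := by decide +kernel
noncomputable def k55 : KT := (.br (Nat.shiftLeft (nat_lit 0x900000200400f013) (nat_lit 64)) (.br (Nat.shiftLeft (nat_lit 0x800000300400f013) (nat_lit 64)) (.br (Nat.shiftLeft (nat_lit 0x4000001802007809) (nat_lit 65)) (.one (nat_lit 0x800000300400f0110006008120022511)) (.one (nat_lit 0x800000300400f0120006008120024511))) (.br (Nat.shiftLeft (nat_lit 0x9) (nat_lit 124)) (.one (nat_lit 0x800000300400f0130006008120026511)) (.br (Nat.shiftLeft (nat_lit 0x4800001002007809) (nat_lit 65)) (.one (nat_lit 0x900000200400f0110004008140422511)) (.one (nat_lit 0x900000200400f0120004008140424511))))) (.br (Nat.shiftLeft (nat_lit 0x4800001802007809) (nat_lit 65)) (.br (Nat.shiftLeft (nat_lit 0x9000003) (nat_lit 100)) (.one (nat_lit 0x900000200400f0130004008140426511)) (.one (nat_lit 0x900000300400f0110006008140422511))) (.br (Nat.shiftLeft (nat_lit 0x900000300400f013) (nat_lit 64)) (.one (nat_lit 0x900000300400f0120006008140424511)) (.br (Nat.shiftLeft (nat_lit 0x5) (nat_lit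 125)) (.one (nat_lit 0x900000300400f0130006008140426511)) (.one (nat_lit 0xa00000200400f0110004008160822511))))))
def t55 : k55.all (jb2 57 fl b0) = true := by decide +kernel
noncomputable def k56 : KT := (.br (Nat.shiftLeft (nat_lit 0x5800001802007809) (nat_lit 65)) (.br (Nat.shiftLeft (nat_lit 0xa00000300400f013) (nat_lit 64)) (.br (Nat.shiftLeft (nat_lit 0xa000003) (nat_lit 100)) (.br (Nat.shiftLeft (nat_lit 0xa00000200400f013) (nat_lit 64)) (.one (nat_lit 0xa00000200400f0120004008160824511)) (.one (nat_lit 0xa00000200400f0130004008160826511))) (.br (Nat.shiftLeft (nat_lit 0x5000001802007809) (nat_lit 65)) (.one (nat_lit 0xa00000300400f0110006008160822511)) (.one (nat_lit 0xa00000300400f0120006008160824511)))) (.br (Nat.shiftLeft (nat_lit 0x5800001002007809) (nat_lit 65)) (.br (Nat.shiftLeft (nat_lit 0xb) (nat_lit 124)) (.one (nat_lit 0xa00000300400f0130006008160826511)) (.one (nat_lit 0xb00000200400f0110004008180c22511))) (.br (Nat.shiftLeft (nat_lit 0xb00000200400f013) (nat_lit 64)) (.one (nat_lit 0xb00000200400f0120004008180c24511))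 (.br (Nat.shiftLeft (nat_lit 0xb000003) (nat_lit 100)) (.one (nat_lit 0xb00000200400f0130004008180c26511)) (.one (nat_lit 0xb00000300400f0110006008180c22511)))))) (.br (Nat.shiftLeft (nat_lit 0xc00000200400f013) (nat_lit 64)) (.br (Nat.shiftLeft (nat_lit 0x3) (nat_lit 126)) (.br (Nat.shiftLeft (nat_lit 0xb00000300400f013) (nat_lit 64)) (.one (nat_lit 0xb00000300400f0120006008180c24511)) (.one (nat_lit 0xb00000300400f0130006008180c26511))) (.br (Nat.shiftLeft (nat_lit 0x6000001002007809) (nat_lit 65)) (.one (nat_lit 0xc00000200400f01100040081a1022511)) (.one (nat_lit 0xc00000200400f01200040081a1024511)))) (.br (Nat.shiftLeft (nat_lit 0x6000001802007809) (nat_lit 65)) (.br (Nat.shiftLeft (nat_lit 0xc000003) (nat_lit 100)) (.one (nat_lit 0xc00000200400f01300040081a1026511)) (.one (nat_lit 0xc00000300400f01100060081a1022511))) (.br (Nat.shiftLeft (nat_lit 0xc00000300400f013) (nat_lit 64)) (.one (nat_lit 0xc00000300400f01200060081a1024511)) (.br (Nat.shiftLeft (nat_lit 0xd) (nat_lit 124)) (.one (nat_lit 0xc00000300400f01300060081a1026511))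 (.one (nat_lit 0xd00000200400f01100040081c1422511)))))))
def t56 : k56.all (jb2 57 fl b0) = true := by decide +kernel
noncomputable def k57 : KT := (.br (Nat.shiftLeft (nat_lit 0x800000801002007809) (nat_lit 65)) (.br (Nat.shiftLeft (nat_lit 0x7000001802007809) (nat_lit 65)) (.br (Nat.shiftLeft (nat_lit 0xd00000300400f013) (nat_lit 64)) (.br (Nat.shiftLeft (nat_lit 0xd000003) (nat_lit 100)) (.br (Nat.shiftLeft (nat_lit 0xd00000200400f013) (nat_lit 64)) (.one (nat_lit 0xd00000200400f01200040081c1424511)) (.one (nat_lit 0xd00000200400f01300040081c1426511))) (.br (Nat.shiftLeft (nat_lit 0x6800001802007809) (nat_lit 65)) (.one (nat_lit 0xd00000300400f01100060081c1422511)) (.one (nat_lit 0xd00000300400f01200060081c1424511)))) (.br (Nat.shiftLeft (nat_lit 0x7000001002007809) (nat_lit 65)) (.br (Nat.shiftLeft (nat_lit 0x7) (nat_lit 125)) (.one (nat_lit 0xd00000300400f01300060081c1426511)) (.one (nat_lit 0xe00000200400f01100040081e1822511))) (.br (Nat.shiftLeft (nat_lit 0xe00000200400f013) (nat_lit 64)) (.one (nat_lit 0xe00000200400f01200040081e1824511))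 (.br (Nat.shiftLeft (nat_lit 0xe000003) (nat_lit 100)) (.one (nat_lit 0xe00000200400f01300040081e1826511)) (.one (nat_lit 0xe00000300400f01100060081e1822511)))))) (.br (Nat.shiftLeft (nat_lit 0xf00000200400f013) (nat_lit 64)) (.br (Nat.shiftLeft (nat_lit 0xf) (nat_lit 124)) (.br (Nat.shiftLeft (nat_lit 0xe00000300400f013) (nat_lit 64)) (.one (nat_lit 0xe00000300400f01200060081e1824511)) (.one (nat_lit 0xe00000300400f01300060081e1826511))) (.br (Nat.shiftLeft (nat_lit 0x7800001002007809) (nat_lit 65)) (.one (nat_lit 0xf00000200400f0110004008201c22511)) (.one (nat_lit 0xf00000200400f0120004008201c24511)))) (.br (Nat.shiftLeft (nat_lit 0x7800001802007809) (nat_lit 65)) (.br (Nat.shiftLeft (nat_lit 0xf000003) (nat_lit 100)) (.one (nat_lit 0xf00000200400f0130004008201c26511)) (.one (nat_lit 0xf00000300400f0110006008201c22511))) (.br (Nat.shiftLeft (nat_lit 0xf00000300400f013) (nat_lit 64)) (.one (nat_lit 0xf00000300400f0120006008201c24511)) (.br (Nat.shiftLeft (nat_lit 0x1) (nat_lit 136)) (.one (nat_lit 0xf00000300400f0130006008201c26511))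 (.one (nat_lit 0x100000100200400f011200402841e022611))))))) (.br (Nat.shiftLeft (nat_lit 0x3) (nat_lit 136)) (.br (Nat.shiftLeft (nat_lit 0x1) (nat_lit 137)) (.br (Nat.shiftLeft (nat_lit 0x800001) (nat_lit 113)) (.br (Nat.shiftLeft (nat_lit 0x1000001003) (nat_lit 100)) (.one (nat_lit 0x100000100200400f012200402841e024611)) (.one (nat_lit 0x100000100300400f011200602841e022611))) (.br (Nat.shiftLeft (nat_lit 0x800001001802007809) (nat_lit 65)) (.one (nat_lit 0x100000200300400f011400602841e022611)) (.one (nat_lit 0x100000200300400f012400602841e024611)))) (.br (Nat.shiftLeft (nat_lit 0x2000001003) (nat_lit 100)) (.br (Nat.shiftLeft (nat_lit 0x1000000801002007809) (nat_lit 65)) (.one (nat_lit 0x200000100200400f011200404881e022611)) (.one (nat_lit 0x200000100200400f012200404881e024611))) (.br (Nat.shiftLeft (nat_lit 0x1000001) (nat_lit 113)) (.one (nat_lit 0x200000100300400f011200604881e022611)) (.br (Nat.shiftLeft (nat_lit 0x1000001001802007809) (nat_lit 65)) (.one (nat_lit 0x200000200300400f011400604881e022611)) (.one (nat_lit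 0x200000200300400f012400604881e024611)))))) (.br (Nat.shiftLeft (nat_lit 0x1) (nat_lit 138)) (.br (Nat.shiftLeft (nat_lit 0x3000001003) (nat_lit 100)) (.br (Nat.shiftLeft (nat_lit 0x1800000801002007809) (nat_lit 65)) (.one (nat_lit 0x300000100200400f0112004068c1e022611)) (.one (nat_lit 0x300000100200400f0122004068c1e024611))) (.br (Nat.shiftLeft (nat_lit 0x1800001) (nat_lit 113)) (.one (nat_lit 0x300000100300400f0112006068c1e022611)) (.br (Nat.shiftLeft (nat_lit 0x1800001001802007809) (nat_lit 65)) (.one (nat_lit 0x300000200300400f0114006068c1e022611)) (.one (nat_lit 0x300000200300400f0124006068c1e024611))))) (.br (Nat.shiftLeft (nat_lit 0x4000001003) (nat_lit 100)) (.br (Nat.shiftLeft (nat_lit 0x2000000801002007809) (nat_lit 65)) (.one (nat_lit 0x400000100200400f011200408901e022611)) (.one (nat_lit 0x400000100200400f012200408901e024611))) (.br (Nat.shiftLeft (nat_lit 0x2000001) (nat_lit 113)) (.one (nat_lit 0x400000100300400f011200608901e022611)) (.br (Nat.shiftLeft (nat_lit 0x2000001001802007809) (nat_lit 65)) (.one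 (nat_lit 0x400000200300400f011400608901e022611)) (.one (nat_lit 0x400000200300400f012400608901e024611))))))))
def t57 : k57.all (jb2 57 fl b0) = true := by decide +kernel
noncomputable def k58 : KT := (.br (Nat.shiftLeft (nat_lit 0x5000001003) (nat_lit 100)) (.br (Nat.shiftLeft (nat_lit 0x2800000801002007809) (nat_lit 65)) (.one (nat_lit 0x500000100200400f01120040a941e022611)) (.one (nat_lit 0x500000100200400f01220040a941e024611))) (.br (Nat.shiftLeft (nat_lit 0x2800001) (nat_lit 113)) (.one (nat_lit 0x500000100300400f01120060a941e022611)) (.br (Nat.shiftLeft (nat_lit 0x2800001001802007809) (nat_lit 65)) (.one (nat_lit 0x500000200300400f01140060a941e022611)) (.one (nat_lit 0x500000200300400f01240060a941e024611)))))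
def t58 : k58.all (jb2 57 fl b0) = true := by decide +kernel
noncomputable def k59 : KT := (.br (Nat.shiftLeft (nat_lit 0x6000001003) (nat_lit 100)) (.br (Nat.shiftLeft (nat_lit 0x3000000801002007809) (nat_lit 65)) (.one (nat_lit 0x600000100200400f01120040c981e022611)) (.one (nat_lit 0x600000100200400f01220040c981e024611))) (.br (Nat.shiftLeft (nat_lit 0x3000001) (nat_lit 113)) (.one (nat_lit 0x600000100300400f01120060c981e022611)) (.br (Nat.shiftLeft (nat_lit 0x3000001001802007809) (nat_lit 65)) (.one (nat_lit 0x600000200300400f01140060c981e022611)) (.one (nat_lit 0x600000200300400f01240060c981e024611)))))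
def t59 : k59.all (jb2 57 fl b0) = true := by decide +kernel
noncomputable def k60 : KT := (.br (Nat.shiftLeft (nat_lit 0x3800001) (nat_lit 113)) (.br (Nat.shiftLeft (nat_lit 0x3800000801002007809) (nat_lit 65)) (.one (nat_lit 0x700000100200400f01120040e9c1e022611)) (.br (Nat.shiftLeft (nat_lit 0x7000001003) (nat_lit 100)) (.one (nat_lit 0x700000100200400f01220040e9c1e024611)) (.one (nat_lit 0x700000100300400f01120060e9c1e022611)))) (.br (Nat.shiftLeft (nat_lit 0x1) (nat_lit 139)) (.br (Nat.shiftLeft (nat_lit 0x3800001001802007809) (nat_lit 65)) (.one (nat_lit 0x700000200300400f01140060e9c1e022611)) (.one (nat_lit 0x700000200300400f01240060e9c1e024611))) (.br (Nat.shiftLeft (nat_lit 0x4000000801002007809) (nat_lit 65)) (.one (nat_lit 0x800000100200400f011200410a01e022611)) (.one (nat_lit 0x800000100200400f012200410a01e024611)))))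
def t60 : k60.all (jb2 57 fl b0) = true := by decide +kernel
noncomputable def k61 : KT := (.br (Nat.shiftLeft (nat_lit 0x4800001) (nat_lit 113)) (.br (Nat.shiftLeft (nat_lit 0x9) (nat_lit 136)) (.br (Nat.shiftLeft (nat_lit 0x4000001) (nat_lit 113)) (.one (nat_lit 0x800000100300400f011200610a01e022611)) (.br (Nat.shiftLeft (nat_lit 0x4000001001802007809) (nat_lit 65)) (.one (nat_lit 0x800000200300400f011400610a01e022611)) (.one (nat_lit 0x800000200300400f012400610a01e024611)))) (.br (Nat.shiftLeft (nat_lit 0x4800000801002007809) (nat_lit 65)) (.one (nat_lit 0x900000100200400f011200412a41e022611)) (.br (Nat.shiftLeft (nat_lit 0x9000001003) (nat_lit 100)) (.one (nat_lit 0x900000100200400f012200412a41e024611)) (.one (nat_lit 0x900000100300400f011200612a41e022611))))) (.br (Nat.shiftLeft (nat_lit 0x5000000801002007809) (nat_lit 65)) (.br (Nat.shiftLeft (nat_lit 0x4800001001802007809) (nat_lit 65)) (.one (nat_lit 0x900000200300400f011400612a41e022611)) (.br (Nat.shiftLeft (nat_lit 0x5) (nat_lit 137)) (.one (nat_lit 0x900000200300400f012400612a41e024611))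 (.one (nat_lit 0xa00000100200400f011200414a81e022611)))) (.br (Nat.shiftLeft (nat_lit 0xa000001003) (nat_lit 100)) (.one (nat_lit 0xa00000100200400f012200414a81e024611)) (.br (Nat.shiftLeft (nat_lit 0x5000001) (nat_lit 113)) (.one (nat_lit 0xa00000100300400f011200614a81e022611)) (.one (nat_lit 0xa00000200300400f011400614a81e022611))))))
def t61 : k61.all (jb2 57 fl b0) = true := by decide +kernel
noncomputable def k62 : KT := (.br (Nat.shiftLeft (nat_lit 0xd000001003) (nat_lit 100)) (.br (Nat.shiftLeft (nat_lit 0x3) (nat_lit 138)) (.br (Nat.shiftLeft (nat_lit 0xb000001003) (nat_lit 100)) (.br (Nat.shiftLeft (nat_lit 0xb) (nat_lit 136)) (.one (nat_lit 0xa00000200300400f012400614a81e024611)) (.br (Nat.shiftLeft (nat_lit 0x5800000801002007809) (nat_lit 65)) (.one (nat_lit 0xb00000100200400f011200416ac1e022611)) (.one (nat_lit 0xb00000100200400f012200416ac1e024611)))) (.br (Nat.shiftLeft (nat_lit 0x5800001) (nat_lit 113)) (.one (nat_lit 0xb00000100300400f011200616ac1e022611)) (.br (Nat.shiftLeft (nat_lit 0x5800001001802007809)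 (nat_lit 65)) (.one (nat_lit 0xb00000200300400f011400616ac1e022611)) (.one (nat_lit 0xb00000200300400f012400616ac1e024611))))) (.br (Nat.shiftLeft (nat_lit 0x6000001) (nat_lit 113)) (.br (Nat.shiftLeft (nat_lit 0x6000000801002007809) (nat_lit 65)) (.one (nat_lit 0xc00000100200400f011200418b01e022611)) (.br (Nat.shiftLeft (nat_lit 0xc000001003) (nat_lit 100)) (.one (nat_lit 0xc00000100200400f012200418b01e024611)) (.one (nat_lit 0xc00000100300400f011200618b01e022611)))) (.br (Nat.shiftLeft (nat_lit 0xd) (nat_lit 136)) (.br (Nat.shiftLeft (nat_lit 0x6000001001802007809) (nat_lit 65)) (.one (nat_lit 0xc00000200300400f011400618b01e022611)) (.one (nat_lit 0xc00000200300400f012400618b01e024611))) (.br (Nat.shiftLeft (nat_lit 0x6800000801002007809) (nat_lit 65)) (.one (nat_lit 0xd00000100200400f01120041ab41e022611)) (.one (nat_lit 0xd00000100200400f01220041ab41e024611)))))) (.br (Nat.shiftLeft (nat_lit 0x7000001) (nat_lit 113)) (.br (Nat.shiftLeft (nat_lit 0x7) (nat_lit 137)) (.br (Nat.shiftLeft (nat_lit 0x6800001) (nat_lit 113))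 (.one (nat_lit 0xd00000100300400f01120061ab41e022611)) (.br (Nat.shiftLeft (nat_lit 0x6800001001802007809) (nat_lit 65)) (.one (nat_lit 0xd00000200300400f01140061ab41e022611)) (.one (nat_lit 0xd00000200300400f01240061ab41e024611)))) (.br (Nat.shiftLeft (nat_lit 0x7000000801002007809) (nat_lit 65)) (.one (nat_lit 0xe00000100200400f01120041cb81e022611)) (.br (Nat.shiftLeft (nat_lit 0xe000001003) (nat_lit 100)) (.one (nat_lit 0xe00000100200400f01220041cb81e024611)) (.one (nat_lit 0xe00000100300400f01120061cb81e022611))))) (.br (Nat.shiftLeft (nat_lit 0x7800000801002007809) (nat_lit 65)) (.br (Nat.shiftLeft (nat_lit 0x7000001001802007809) (nat_lit 65)) (.one (nat_lit 0xe00000200300400f01140061cb81e022611)) (.br (Nat.shiftLeft (nat_lit 0xf) (nat_lit 136)) (.one (nat_lit 0xe00000200300400f01240061cb81e024611)) (.one (nat_lit 0xf00000100200400f01120041ebc1e022611)))) (.br (Nat.shiftLeft (nat_lit 0x7800001) (nat_lit 113)) (.br (Nat.shiftLeft (nat_lit 0xf000001003) (nat_lit 100)) (.one (nat_lit 0xf00000100200400f01220041ebc1e024611))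 (.one (nat_lit 0xf00000100300400f01120061ebc1e022611))) (.br (Nat.shiftLeft (nat_lit 0x7800001001802007809) (nat_lit 65)) (.one (nat_lit 0xf00000200300400f01140061ebc1e022611)) (.one (nat_lit 0xf00000200300400f01240061ebc1e024611)))))))
def t62 : k62.all (jb2 57 fl b0) = true := by decide +kernel
noncomputable def s2 : KT := (.br (nat_lit 0x400000300400f011000600809f022511) (.br (nat_lit 0x100300400f012200600801e024650) (.br (nat_lit 0x100400f012000200801e024540) (.br (nat_lit 0x100400f011000200801e022540) k42 k43) (.br (nat_lit 0x100200400f012200400801e025600) k44 (.br (nat_lit 0x100300400f011200600801e023600) k45 k46))) (.br (nat_lit 0x400000400f011800000801e022411) (.br (nat_lit 0x200300400f012400600801e025600) k47 k48) (.br (nat_lit 0x100000300400f012000600803e424511) k49 (.br (nat_lit 0x100200300400f011400600803e422760) k50 k51)))) (.br (nat_lit 0xd00000200400f01100040081c1422511) (.br (nat_lit 0x700000200400f01100040080ffc22511) (.br (nat_lit 0x500000300400f01300060080bf426511) k52 k53) (.br (nat_lit 0x800000200400f0130004008120026511)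 k54 (.br (nat_lit 0xa00000200400f0110004008160822511) k55 k56))) (.br (nat_lit 0x600000200300400f01240060c981e024611) (.br (nat_lit 0x400000200300400f012400608901e024611) k57 (.br (nat_lit 0x500000200300400f01240060a941e024611) k58 k59)) (.br (nat_lit 0x800000100200400f012200410a01e024611) k60 (.br (nat_lit 0xa00000200300400f011400614a81e022611) k61 k62)))))
noncomputable def u2 : KT := (.br (Nat.shiftLeft (nat_lit 0x2007809) (nat_lit 65)) (.one (nat_lit 0x400f011000000801e022430)) (.br (Nat.shiftLeft (nat_lit 0x400f013) (nat_lit 64)) (.one (nat_lit 0x400f012000000801e024430)) (.one (nat_lit 0x400f013000000801e026430))))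
def w2 : u2.all (wj 57 s2) = true := by decide +kernel
def o2 : OkW 57 (jb2 57 fl) u2 := .lift s2 _ (.br _ _ _ (.br _ _ _ (.br _ _ _ (.br _ _ _ (.leaf b0 k42 t42) (.leaf b0 k43 t43)) (.br _ _ _ (.leaf b0 k44 t44) (.br _ _ _ (.leaf b0 k45 t45) (.leaf b0 k46 t46)))) (.br _ _ _ (.br _ _ _ (.leaf b0 k47 t47) (.leaf b0 k48 t48)) (.br _ _ _ (.leaf b0 k49 t49) (.br _ _ _ (.leaf b0 k50 t50) (.leaf b0 k51 t51))))) (.br _ _ _ (.br _ _ _ (.br _ _ _ (.leaf b0 k52 t52) (.leaf b0 k53 t53)) (.br _ _ _ (.leaf b0 k54 t54) (.br _ _ _ (.leaf b0 k55 t55) (.leaf b0 k56 t56)))) (.br _ _ _ (.br _ _ _ (.leaf b0 k57 t57) (.br _ _ _ (.leaf b0 k58 t58) (.leaf b0 k59 t59))) (.br _ _ _ (.leaf b0 k60 t60) (.br _ _ _ (.leaf b0 k61 t61) (.leaf b0 k62 t62)))))) w2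
noncomputable def k63 : KT := (.br (Nat.shiftLeft (nat_lit 0x401) (nat_lit 80)) (.br (Nat.shiftLeft (nat_lit 0x400f015) (nat_lit 64)) (.one (nat_lit 0x400f014000000801e029400)) (.one (nat_lit 0x400f015000000801e02b400))) (.br (Nat.shiftLeft (nat_lit 0x2008009) (nat_lit 65)) (.one (nat_lit 0x40100110000008020023400)) (.br (Nat.shiftLeft (nat_lit 0x1) (nat_lit 100)) (.one (nat_lit 0x40100120000008020025400)) (.one (nat_lit 0x100400f014000200801e028540)))))
def t63 : k63.all (jb2 57 fl b0) = true := by decide +kernel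
noncomputable def k64 : KT := (.one (nat_lit 0x100400f015000200801e02a540))
def t64 : k64.all (jb2 57 fl b0) = true := by decide +kernel
noncomputable def k65 : KT := (.one (nat_lit 0x10040100110002008020022540))
def t65 : k65.all (jb2 57 fl b0) = true := by decide +kernel
noncomputable def k66 : KT := (.br (Nat.shiftLeft (nat_lit 0x300400f015) (nat_lit 64)) (.br (Nat.shiftLeft (nat_lit 0x200401) (nat_lit 80)) (.br (Nat.shiftLeft (nat_lit 0x1) (nat_lit 101)) (.one (nat_lit 0x10040100120002008020024540)) (.br (Nat.shiftLeft (nat_lit 0x200400f015) (nat_lit 64)) (.one (nat_lit 0x200400f014000400801e029500)) (.one (nat_lit 0x200400f015000400801e02b500)))) (.br (Nat.shiftLeft (nat_lit 0x1002008009) (nat_lit 65)) (.one (nat_lit 0x20040100110004008020023500)) (.br (Nat.shiftLeft (nat_lit 0x3) (nat_lit 100)) (.one (nat_lit 0x20040100120004008020025500)) (.one (nat_lit 0x300400f014000600801e029500))))) (.br (Nat.shiftLeft (nat_lit 0x1) (nat_lit 112)) (.br (Nat.shiftLeft (nat_lit 0x300401) (nat_lit 80)) (.one (nat_lit 0x300400f015000600801e02b500))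 (.br (Nat.shiftLeft (nat_lit 0x1802008009) (nat_lit 65)) (.one (nat_lit 0x30040100110006008020023500)) (.one (nat_lit 0x30040100120006008020025500)))) (.br (Nat.shiftLeft (nat_lit 0x100000401) (nat_lit 80)) (.br (Nat.shiftLeft (nat_lit 0x100000400f015) (nat_lit 64)) (.one (nat_lit 0x100000400f014200000801e028411)) (.one (nat_lit 0x100000400f015200000801e02a411))) (.br (Nat.shiftLeft (nat_lit 0x800002008009) (nat_lit 65)) (.one (nat_lit 0x10000040100112000008020022411)) (.one (nat_lit 0x10000040100122000008020024411))))))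
def t66 : k66.all (jb2 57 fl b0) = true := by decide +kernel
noncomputable def k67 : KT := (.one (nat_lit 0x100200400f014200400801e028650))
def t67 : k67.all (jb2 57 fl b0) = true := by decide +kernel
noncomputable def k68 : KT := (.one (nat_lit 0x100200400f015200400801e02a650))
def t68 : k68.all (jb2 57 fl b0) = true := by decide +kernel
noncomputable def k69 : KT := (.one (nat_lit 0x10020040100112004008020022650))
def t69 : k69.all (jb2 57 fl b0) = true := by decide +kernel
noncomputable def k70 : KT := (.one (nat_lit 0x10020040100122004008020024650))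
def t70 : k70.all (jb2 57 fl b0) = true := by decide +kernel
noncomputable def k71 : KT := (.br (Nat.shiftLeft (nat_lit 0x100300400f015) (nat_lit 64)) (.one (nat_lit 0x100300400f014200600801e028650)) (.one (nat_lit 0x100300400f015200600801e02a650)))
def t71 : k71.all (jb2 57 fl b0) = true := by decide +kernel
noncomputable def k72 : KT := (.one (nat_lit 0x10030040100112006008020022650))
def t72 : k72.all (jb2 57 fl b0) = true := by decide +kernel
noncomputable def k73 : KT := (.br (Nat.shiftLeft (nat_lit 0x200000400f015) (nat_lit 64)) (.br (Nat.shiftLeft (nat_lit 0x1) (nat_lit 113)) (.one (nat_lit 0x10030040100122006008020024650)) (.one (nat_lit 0x200000400f014400000801e028411))) (.br (Nat.shiftLeft (nat_lit 0x200000401) (nat_lit 80)) (.one (nat_lit 0x200000400f015400000801e02a411)) (.br (Nat.shiftLeft (nat_lit 0x1000002008009) (nat_lit 65)) (.one (nat_lit 0x20000040100114000008020022411)) (.one (nat_lit 0x20000040100124000008020024411)))))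
def t73 : k73.all (jb2 57 fl b0) = true := by decide +kernel
noncomputable def k74 : KT := (.one (nat_lit 0x200300400f014400600801e028650))
def t74 : k74.all (jb2 57 fl b0) = true := by decide +kernel
noncomputable def k75 : KT := (.br (Nat.shiftLeft (nat_lit 0x200300401) (nat_lit 80)) (.one (nat_lit 0x200300400f015400600801e02a650)) (.one (nat_lit 0x20030040100114006008020023600)))
def t75 : k75.all (jb2 57 fl b0) = true := by decide +kernel
noncomputable def k76 : KT := (.br (Nat.shiftLeft (nat_lit 0x300000400f015) (nat_lit 64)) (.br (Nat.shiftLeft (nat_lit 0x3) (nat_lit 112)) (.one (nat_lit 0x20030040100124006008020024650)) (.one (nat_lit 0x300000400f014600000801e028411))) (.br (Nat.shiftLeft (nat_lit 0x300000401) (nat_lit 80)) (.one (nat_lit 0x300000400f015600000801e02a411)) (.br (Nat.shiftLeft (nat_lit 0x1800002008009) (nat_lit 65)) (.one (nat_lit 0x30000040100116000008020022411)) (.one (nat_lit 0x30000040100126000008020024411)))))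
def t76 : k76.all (jb2 57 fl b0) = true := by decide +kernel
noncomputable def k77 : KT := (.br (Nat.shiftLeft (nat_lit 0x800000400f015) (nat_lit 64)) (.br (Nat.shiftLeft (nat_lit 0x3) (nat_lit 113)) (.br (Nat.shiftLeft (nat_lit 0x5) (nat_lit 112)) (.br (Nat.shiftLeft (nat_lit 0x400000401) (nat_lit 80)) (.br (Nat.shiftLeft (nat_lit 0x400000400f015) (nat_lit 64)) (.one (nat_lit 0x400000400f014800000801e028411)) (.one (nat_lit 0x400000400f015800000801e02a411))) (.br (Nat.shiftLeft (nat_lit 0x2000002008009) (nat_lit 65)) (.one (nat_lit 0x40000040100118000008020022411)) (.one (nat_lit 0x40000040100128000008020024411)))) (.br (Nat.shiftLeft (nat_lit 0x500000401) (nat_lit 80)) (.br (Nat.shiftLeft (nat_lit 0x500000400f015) (nat_lit 64)) (.one (nat_lit 0x500000400f014a00000801e028411)) (.one (nat_lit 0x500000400f015a00000801e02a411))) (.br (Nat.shiftLeft (nat_lit 0x2800002008009) (nat_lit 65)) (.one (nat_lit 0x5000004010011a000008020022411)) (.one (nat_lit 0x5000004010012a000008020024411))))) (.br (Nat.shiftLeft (nat_lit 0x7)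 (nat_lit 112)) (.br (Nat.shiftLeft (nat_lit 0x600000401) (nat_lit 80)) (.br (Nat.shiftLeft (nat_lit 0x600000400f015) (nat_lit 64)) (.one (nat_lit 0x600000400f014c00000801e028411)) (.one (nat_lit 0x600000400f015c00000801e02a411))) (.br (Nat.shiftLeft (nat_lit 0x3000002008009) (nat_lit 65)) (.one (nat_lit 0x6000004010011c000008020022411)) (.one (nat_lit 0x6000004010012c000008020024411)))) (.br (Nat.shiftLeft (nat_lit 0x700000401) (nat_lit 80)) (.br (Nat.shiftLeft (nat_lit 0x700000400f015) (nat_lit 64)) (.one (nat_lit 0x700000400f014e00000801e028411)) (.one (nat_lit 0x700000400f015e00000801e02a411))) (.br (Nat.shiftLeft (nat_lit 0x3800002008009) (nat_lit 65)) (.one (nat_lit 0x7000004010011e000008020022411)) (.br (Nat.shiftLeft (nat_lit 0x1) (nat_lit 115)) (.one (nat_lit 0x7000004010012e000008020024411)) (.one (nat_lit 0x800000400f014000000801e12a411))))))) (.br (Nat.shiftLeft (nat_lit 0xa00000401) (nat_lit 80)) (.br (Nat.shiftLeft (nat_lit 0x900000400f015) (nat_lit 64)) (.br (Nat.shiftLeft (nat_lit 0x4000002008009) (nat_lit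 65)) (.br (Nat.shiftLeft (nat_lit 0x800000401) (nat_lit 80)) (.one (nat_lit 0x800000400f015000000801e12c411)) (.one (nat_lit 0x80000040100110000008020124411))) (.br (Nat.shiftLeft (nat_lit 0x9) (nat_lit 112)) (.one (nat_lit 0x80000040100120000008020126411)) (.one (nat_lit 0x900000400f014200000801e12a411)))) (.br (Nat.shiftLeft (nat_lit 0x4800002008009) (nat_lit 65)) (.br (Nat.shiftLeft (nat_lit 0x900000401) (nat_lit 80)) (.one (nat_lit 0x900000400f015200000801e12c411)) (.one (nat_lit 0x90000040100112000008020124411))) (.br (Nat.shiftLeft (nat_lit 0x5) (nat_lit 113)) (.one (nat_lit 0x90000040100122000008020126411)) (.br (Nat.shiftLeft (nat_lit 0xa00000400f015) (nat_lit 64)) (.one (nat_lit 0xa00000400f014400000801e12a411)) (.one (nat_lit 0xa00000400f015400000801e12c411)))))) (.br (Nat.shiftLeft (nat_lit 0xb00000401) (nat_lit 80)) (.br (Nat.shiftLeft (nat_lit 0xb) (nat_lit 112)) (.br (Nat.shiftLeft (nat_lit 0x5000002008009) (nat_lit 65)) (.one (nat_lit 0xa0000040100114000008020124411)) (.one (nat_lit 0xa0000040100124000008020126411)))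 (.br (Nat.shiftLeft (nat_lit 0xb00000400f015) (nat_lit 64)) (.one (nat_lit 0xb00000400f014600000801e12a411)) (.one (nat_lit 0xb00000400f015600000801e12c411)))) (.br (Nat.shiftLeft (nat_lit 0x3) (nat_lit 114)) (.br (Nat.shiftLeft (nat_lit 0x5800002008009) (nat_lit 65)) (.one (nat_lit 0xb0000040100116000008020124411)) (.one (nat_lit 0xb0000040100126000008020126411))) (.br (Nat.shiftLeft (nat_lit 0xc00000400f015) (nat_lit 64)) (.one (nat_lit 0xc00000400f014800000801e12a411)) (.br (Nat.shiftLeft (nat_lit 0xc00000401) (nat_lit 80)) (.one (nat_lit 0xc00000400f015800000801e12c411)) (.one (nat_lit 0xc0000040100118000008020124411))))))))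
def t77 : k77.all (jb2 57 fl b0) = true := by decide +kernel
noncomputable def k78 : KT := (.br (Nat.shiftLeft (nat_lit 0x800001002008009) (nat_lit 65)) (.br (Nat.shiftLeft (nat_lit 0xf) (nat_lit 112)) (.br (Nat.shiftLeft (nat_lit 0x6800002008009) (nat_lit 65)) (.br (Nat.shiftLeft (nat_lit 0xd00000400f015) (nat_lit 64)) (.br (Nat.shiftLeft (nat_lit 0xd) (nat_lit 112)) (.one (nat_lit 0xc0000040100128000008020126411)) (.one (nat_lit 0xd00000400f014a00000801e12a411))) (.br (Nat.shiftLeft (nat_lit 0xd00000401) (nat_lit 80)) (.one (nat_lit 0xd00000400f015a00000801e12c411)) (.one (nat_lit 0xd000004010011a000008020124411)))) (.br (Nat.shiftLeft (nat_lit 0xe00000400f015) (nat_lit 64)) (.br (Nat.shiftLeft (nat_lit 0x7) (nat_lit 113)) (.one (nat_lit 0xd000004010012a000008020126411)) (.one (nat_lit 0xe00000400f014c00000801e12a411))) (.br (Nat.shiftLeft (nat_lit 0xe00000401) (nat_lit 80)) (.one (nat_lit 0xe00000400f015c00000801e12c411)) (.br (Nat.shiftLeft (nat_lit 0x7000002008009) (nat_lit 65)) (.one (nat_lit 0xe000004010011c000008020124411))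 (.one (nat_lit 0xe000004010012c000008020126411)))))) (.br (Nat.shiftLeft (nat_lit 0x1) (nat_lit 116)) (.br (Nat.shiftLeft (nat_lit 0xf00000401) (nat_lit 80)) (.br (Nat.shiftLeft (nat_lit 0xf00000400f015) (nat_lit 64)) (.one (nat_lit 0xf00000400f014e00000801e12a411)) (.one (nat_lit 0xf00000400f015e00000801e12c411))) (.br (Nat.shiftLeft (nat_lit 0x7800002008009) (nat_lit 65)) (.one (nat_lit 0xf000004010011e000008020124411)) (.one (nat_lit 0xf000004010012e000008020126411)))) (.br (Nat.shiftLeft (nat_lit 0x1) (nat_lit 124)) (.br (Nat.shiftLeft (nat_lit 0x8000002008009) (nat_lit 65)) (.one (nat_lit 0x100000040100110000008020226411)) (.one (nat_lit 0x100000040100120000008020228411))) (.br (Nat.shiftLeft (nat_lit 0x100000200400f015) (nat_lit 64)) (.one (nat_lit 0x100000200400f014000400803e428511)) (.br (Nat.shiftLeft (nat_lit 0x100000200401) (nat_lit 80)) (.one (nat_lit 0x100000200400f015000400803e42a511)) (.one (nat_lit 0x10000020040100110004008040422511))))))) (.br (Nat.shiftLeft (nat_lit 0x1000001002008009) (nat_lit 65)) (.br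 (Nat.shiftLeft (nat_lit 0x800001802008009) (nat_lit 65)) (.br (Nat.shiftLeft (nat_lit 0x100000300400f015) (nat_lit 64)) (.br (Nat.shiftLeft (nat_lit 0x1000003) (nat_lit 100)) (.one (nat_lit 0x10000020040100120004008040424511)) (.one (nat_lit 0x100000300400f014000600803e428511))) (.br (Nat.shiftLeft (nat_lit 0x100000300401) (nat_lit 80)) (.one (nat_lit 0x100000300400f015000600803e42a511)) (.one (nat_lit 0x10000030040100110006008040422511)))) (.br (Nat.shiftLeft (nat_lit 0x1) (nat_lit 125)) (.br (Nat.shiftLeft (nat_lit 0x801) (nat_lit 113)) (.one (nat_lit 0x10000030040100120006008040424511)) (.one (nat_lit 0x10020030040100114006008040422760))) (.br (Nat.shiftLeft (nat_lit 0x200000200400f015) (nat_lit 64)) (.one (nat_lit 0x200000200400f014000400805e828511)) (.br (Nat.shiftLeft (nat_lit 0x200000200401) (nat_lit 80)) (.one (nat_lit 0x200000200400f015000400805e82a511)) (.one (nat_lit 0x20000020040100110004008060822511)))))) (.br (Nat.shiftLeft (nat_lit 0x3) (nat_lit 124)) (.br (Nat.shiftLeft (nat_lit 0x200000300400f015) (nat_lit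 64)) (.br (Nat.shiftLeft (nat_lit 0x2000003) (nat_lit 100)) (.one (nat_lit 0x20000020040100120004008060824511)) (.one (nat_lit 0x200000300400f014000600805e828511))) (.br (Nat.shiftLeft (nat_lit 0x200000300401) (nat_lit 80)) (.one (nat_lit 0x200000300400f015000600805e82a511)) (.br (Nat.shiftLeft (nat_lit 0x1000001802008009) (nat_lit 65)) (.one (nat_lit 0x20000030040100110006008060822511)) (.one (nat_lit 0x20000030040100120006008060824511))))) (.br (Nat.shiftLeft (nat_lit 0x300000200401) (nat_lit 80)) (.br (Nat.shiftLeft (nat_lit 0x300000200400f015) (nat_lit 64)) (.one (nat_lit 0x300000200400f014000400807ec28511)) (.one (nat_lit 0x300000200400f015000400807ec2a511))) (.br (Nat.shiftLeft (nat_lit 0x1800001002008009) (nat_lit 65)) (.one (nat_lit 0x30000020040100110004008080c22511)) (.br (Nat.shiftLeft (nat_lit 0x3000003) (nat_lit 100)) (.one (nat_lit 0x30000020040100120004008080c24511)) (.one (nat_lit 0x300000300400f014000600807ec28511))))))))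
def t78 : k78.all (jb2 57 fl b0) = true := by decide +kernel
noncomputable def k79 : KT := (.br (Nat.shiftLeft (nat_lit 0x4000003) (nat_lit 100)) (.br (Nat.shiftLeft (nat_lit 0x1) (nat_lit 126)) (.br (Nat.shiftLeft (nat_lit 0x300000300401) (nat_lit 80)) (.one (nat_lit 0x300000300400f015000600807ec2a511)) (.br (Nat.shiftLeft (nat_lit 0x1800001802008009) (nat_lit 65)) (.one (nat_lit 0x30000030040100110006008080c22511)) (.one (nat_lit 0x30000030040100120006008080c24511)))) (.br (Nat.shiftLeft (nat_lit 0x400000200401) (nat_lit 80)) (.br (Nat.shiftLeft (nat_lit 0x400000200400f015) (nat_lit 64)) (.one (nat_lit 0x400000200400f014000400809f028511)) (.one (nat_lit 0x400000200400f015000400809f02a511))) (.br (Nat.shiftLeft (nat_lit 0x2000001002008009) (nat_lit 65)) (.one (nat_lit 0x400000200401001100040080a1022511)) (.one (nat_lit 0x400000200401001200040080a1024511))))) (.br (Nat.shiftLeft (nat_lit 0x2000001802008009) (nat_lit 65)) (.br (Nat.shiftLeft (nat_lit 0x400000300400f015) (nat_lit 64)) (.one (nat_lit 0x400000300400f014000600809f028511))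 (.br (Nat.shiftLeft (nat_lit 0x400000300401) (nat_lit 80)) (.one (nat_lit 0x400000300400f015000600809f02a511)) (.one (nat_lit 0x400000300401001100060080a1022511)))) (.br (Nat.shiftLeft (nat_lit 0x500000200400f015) (nat_lit 64)) (.br (Nat.shiftLeft (nat_lit 0x5) (nat_lit 124)) (.one (nat_lit 0x400000300401001200060080a1024511)) (.one (nat_lit 0x500000200400f01400040080bf428511))) (.br (Nat.shiftLeft (nat_lit 0x500000200401) (nat_lit 80)) (.one (nat_lit 0x500000200400f01500040080bf42a511)) (.one (nat_lit 0x500000200401001100040080c1422511))))))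
def t79 : k79.all (jb2 57 fl b0) = true := by decide +kernel
noncomputable def k80 : KT := (.br (Nat.shiftLeft (nat_lit 0x2800001802008009) (nat_lit 65)) (.br (Nat.shiftLeft (nat_lit 0x500000300400f015) (nat_lit 64)) (.br (Nat.shiftLeft (nat_lit 0x5000003) (nat_lit 100)) (.one (nat_lit 0x500000200401001200040080c1424511)) (.one (nat_lit 0x500000300400f01400060080bf428511))) (.br (Nat.shiftLeft (nat_lit 0x500000300401) (nat_lit 80)) (.one (nat_lit 0x500000300400f01500060080bf42a511)) (.one (nat_lit 0x500000300401001100060080c1422511)))) (.br (Nat.shiftLeft (nat_lit 0x600000200400f015) (nat_lit 64)) (.br (Nat.shiftLeft (nat_lit 0x3) (nat_lit 125)) (.one (nat_lit 0x500000300401001200060080c1424511)) (.one (nat_lit 0x600000200400f01400040080df828511))) (.br (Nat.shiftLeft (nat_lit 0x600000200401) (nat_lit 80)) (.one (nat_lit 0x600000200400f01500040080df82a511)) (.one (nat_lit 0x600000200401001100040080e1822511)))))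
def t80 : k80.all (jb2 57 fl b0) = true := by decide +kernel
noncomputable def k81 : KT := (.br (Nat.shiftLeft (nat_lit 0x3000001802008009) (nat_lit 65)) (.br (Nat.shiftLeft (nat_lit 0x600000300400f015) (nat_lit 64)) (.br (Nat.shiftLeft (nat_lit 0x6000003) (nat_lit 100)) (.one (nat_lit 0x600000200401001200040080e1824511)) (.one (nat_lit 0x600000300400f01400060080df828511))) (.br (Nat.shiftLeft (nat_lit 0x600000300401) (nat_lit 80)) (.one (nat_lit 0x600000300400f01500060080df82a511)) (.one (nat_lit 0x600000300401001100060080e1822511)))) (.br (Nat.shiftLeft (nat_lit 0x700000200400f015) (nat_lit 64)) (.br (Nat.shiftLeft (nat_lit 0x7) (nat_lit 124)) (.one (nat_lit 0x600000300401001200060080e1824511)) (.one (nat_lit 0x700000200400f01400040080ffc28511))) (.br (Nat.shiftLeft (nat_lit 0x700000200401) (nat_lit 80)) (.one (nat_lit 0x700000200400f01500040080ffc2a511)) (.br (Nat.shiftLeft (nat_lit 0x3800001002008009) (nat_lit 65)) (.one (nat_lit 0x70000020040100110004008101c22511)) (.one (nat_lit 0x70000020040100120004008101c24511))))))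
def t81 : k81.all (jb2 57 fl b0) = true := by decide +kernel
noncomputable def k82 : KT := (.br (Nat.shiftLeft (nat_lit 0x800000200401) (nat_lit 80)) (.br (Nat.shiftLeft (nat_lit 0x3800001802008009) (nat_lit 65)) (.br (Nat.shiftLeft (nat_lit 0x700000300400f015) (nat_lit 64)) (.one (nat_lit 0x700000300400f01400060080ffc28511)) (.br (Nat.shiftLeft (nat_lit 0x700000300401) (nat_lit 80)) (.one (nat_lit 0x700000300400f01500060080ffc2a511)) (.one (nat_lit 0x70000030040100110006008101c22511)))) (.br (Nat.shiftLeft (nat_lit 0x1) (nat_lit 127)) (.one (nat_lit 0x70000030040100120006008101c24511)) (.br (Nat.shiftLeft (nat_lit 0x800000200400f015) (nat_lit 64)) (.one (nat_lit 0x800000200400f0140004008120028511)) (.one (nat_lit 0x800000200400f015000400812002a511))))) (.br (Nat.shiftLeft (nat_lit 0x800000300400f015) (nat_lit 64)) (.br (Nat.shiftLeft (nat_lit 0x4000001002008009) (nat_lit 65)) (.one (nat_lit 0x80000020040100110004008122022511)) (.br (Nat.shiftLeft (nat_lit 0x8000003) (nat_lit 100)) (.one (nat_lit 0x80000020040100120004008122024511))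 (.one (nat_lit 0x800000300400f0140006008120028511)))) (.br (Nat.shiftLeft (nat_lit 0x800000300401) (nat_lit 80)) (.one (nat_lit 0x800000300400f015000600812002a511)) (.br (Nat.shiftLeft (nat_lit 0x4000001802008009) (nat_lit 65)) (.one (nat_lit 0x80000030040100110006008122022511)) (.one (nat_lit 0x80000030040100120006008122024511))))))
def t82 : k82.all (jb2 57 fl b0) = true := by decide +kernel
noncomputable def k83 : KT := (.br (Nat.shiftLeft (nat_lit 0xa00000200400f015) (nat_lit 64)) (.br (Nat.shiftLeft (nat_lit 0x9000003) (nat_lit 100)) (.br (Nat.shiftLeft (nat_lit 0x900000200401) (nat_lit 80)) (.br (Nat.shiftLeft (nat_lit 0x900000200400f015) (nat_lit 64)) (.one (nat_lit 0x900000200400f0140004008140428511)) (.one (nat_lit 0x900000200400f015000400814042a511))) (.br (Nat.shiftLeft (nat_lit 0x4800001002008009) (nat_lit 65)) (.one (nat_lit 0x90000020040100110004008142422511)) (.one (nat_lit 0x90000020040100120004008142424511)))) (.br (Nat.shiftLeft (nat_lit 0x900000300401) (nat_lit 80)) (.br (Nat.shiftLeft (nat_lit 0x900000300400f015)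 (nat_lit 64)) (.one (nat_lit 0x900000300400f0140006008140428511)) (.one (nat_lit 0x900000300400f015000600814042a511))) (.br (Nat.shiftLeft (nat_lit 0x4800001802008009) (nat_lit 65)) (.one (nat_lit 0x90000030040100110006008142422511)) (.br (Nat.shiftLeft (nat_lit 0x5) (nat_lit 125)) (.one (nat_lit 0x90000030040100120006008142424511)) (.one (nat_lit 0xa00000200400f0140004008160828511)))))) (.br (Nat.shiftLeft (nat_lit 0xa00000300400f015) (nat_lit 64)) (.br (Nat.shiftLeft (nat_lit 0x5000001002008009) (nat_lit 65)) (.br (Nat.shiftLeft (nat_lit 0xa00000200401) (nat_lit 80)) (.one (nat_lit 0xa00000200400f015000400816082a511)) (.one (nat_lit 0xa0000020040100110004008162822511))) (.br (Nat.shiftLeft (nat_lit 0xa000003) (nat_lit 100)) (.one (nat_lit 0xa0000020040100120004008162824511)) (.one (nat_lit 0xa00000300400f0140006008160828511)))) (.br (Nat.shiftLeft (nat_lit 0x5000001802008009) (nat_lit 65)) (.br (Nat.shiftLeft (nat_lit 0xa00000300401) (nat_lit 80)) (.one (nat_lit 0xa00000300400f015000600816082a511)) (.one (nat_lit 0xa0000030040100110006008162822511)))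 (.br (Nat.shiftLeft (nat_lit 0xb) (nat_lit 124)) (.one (nat_lit 0xa0000030040100120006008162824511)) (.br (Nat.shiftLeft (nat_lit 0xb00000200400f015) (nat_lit 64)) (.one (nat_lit 0xb00000200400f0140004008180c28511)) (.one (nat_lit 0xb00000200400f0150004008180c2a511)))))))
def t83 : k83.all (jb2 57 fl b0) = true := by decide +kernel
noncomputable def k84 : KT := (.br (Nat.shiftLeft (nat_lit 0xd00000300401) (nat_lit 80)) (.br (Nat.shiftLeft (nat_lit 0xc000003) (nat_lit 100)) (.br (Nat.shiftLeft (nat_lit 0x5800001802008009) (nat_lit 65)) (.br (Nat.shiftLeft (nat_lit 0xb000003) (nat_lit 100)) (.br (Nat.shiftLeft (nat_lit 0x5800001002008009) (nat_lit 65)) (.one (nat_lit 0xb0000020040100110004008182c22511)) (.one (nat_lit 0xb0000020040100120004008182c24511))) (.br (Nat.shiftLeft (nat_lit 0xb00000300400f015) (nat_lit 64)) (.one (nat_lit 0xb00000300400f0140006008180c28511)) (.br (Nat.shiftLeft (nat_lit 0xb00000300401) (nat_lit 80)) (.one (nat_lit 0xb00000300400f0150006008180c2a511)) (.one (nat_lit 0xb0000030040100110006008182c22511)))))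 (.br (Nat.shiftLeft (nat_lit 0xc00000200400f015) (nat_lit 64)) (.br (Nat.shiftLeft (nat_lit 0x3) (nat_lit 126)) (.one (nat_lit 0xb0000030040100120006008182c24511)) (.one (nat_lit 0xc00000200400f01400040081a1028511))) (.br (Nat.shiftLeft (nat_lit 0xc00000200401) (nat_lit 80)) (.one (nat_lit 0xc00000200400f01500040081a102a511)) (.br (Nat.shiftLeft (nat_lit 0x6000001002008009) (nat_lit 65)) (.one (nat_lit 0xc00000200401001100040081a3022511)) (.one (nat_lit 0xc00000200401001200040081a3024511)))))) (.br (Nat.shiftLeft (nat_lit 0xd00000200400f015) (nat_lit 64)) (.br (Nat.shiftLeft (nat_lit 0xc00000300401) (nat_lit 80)) (.br (Nat.shiftLeft (nat_lit 0xc00000300400f015) (nat_lit 64)) (.one (nat_lit 0xc00000300400f01400060081a1028511)) (.one (nat_lit 0xc00000300400f01500060081a102a511))) (.br (Nat.shiftLeft (nat_lit 0x6000001802008009) (nat_lit 65)) (.one (nat_lit 0xc00000300401001100060081a3022511)) (.br (Nat.shiftLeft (nat_lit 0xd) (nat_lit 124)) (.one (nat_lit 0xc00000300401001200060081a3024511)) (.one (nat_lit 0xd00000200400f01400040081c1428511)))))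 (.br (Nat.shiftLeft (nat_lit 0x6800001002008009) (nat_lit 65)) (.br (Nat.shiftLeft (nat_lit 0xd00000200401) (nat_lit 80)) (.one (nat_lit 0xd00000200400f01500040081c142a511)) (.one (nat_lit 0xd00000200401001100040081c3422511))) (.br (Nat.shiftLeft (nat_lit 0xd000003) (nat_lit 100)) (.one (nat_lit 0xd00000200401001200040081c3424511)) (.br (Nat.shiftLeft (nat_lit 0xd00000300400f015) (nat_lit 64)) (.one (nat_lit 0xd00000300400f01400060081c1428511)) (.one (nat_lit 0xd00000300400f01500060081c142a511))))))) (.br (Nat.shiftLeft (nat_lit 0xf) (nat_lit 124)) (.br (Nat.shiftLeft (nat_lit 0x7000001002008009) (nat_lit 65)) (.br (Nat.shiftLeft (nat_lit 0x7) (nat_lit 125)) (.br (Nat.shiftLeft (nat_lit 0x6800001802008009) (nat_lit 65)) (.one (nat_lit 0xd00000300401001100060081c3422511)) (.one (nat_lit 0xd00000300401001200060081c3424511))) (.br (Nat.shiftLeft (nat_lit 0xe00000200400f015) (nat_lit 64)) (.one (nat_lit 0xe00000200400f01400040081e1828511)) (.br (Nat.shiftLeft (nat_lit 0xe00000200401) (nat_lit 80)) (.one (nat_lit 0xe00000200400f01500040081e182a511))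 (.one (nat_lit 0xe00000200401001100040081e3822511))))) (.br (Nat.shiftLeft (nat_lit 0xe00000300400f015) (nat_lit 64)) (.br (Nat.shiftLeft (nat_lit 0xe000003) (nat_lit 100)) (.one (nat_lit 0xe00000200401001200040081e3824511)) (.one (nat_lit 0xe00000300400f01400060081e1828511))) (.br (Nat.shiftLeft (nat_lit 0xe00000300401) (nat_lit 80)) (.one (nat_lit 0xe00000300400f01500060081e182a511)) (.br (Nat.shiftLeft (nat_lit 0x7000001802008009) (nat_lit 65)) (.one (nat_lit 0xe00000300401001100060081e3822511)) (.one (nat_lit 0xe00000300401001200060081e3824511)))))) (.br (Nat.shiftLeft (nat_lit 0xf00000300401) (nat_lit 80)) (.br (Nat.shiftLeft (nat_lit 0xf00000200401) (nat_lit 80)) (.br (Nat.shiftLeft (nat_lit 0xf00000200400f015) (nat_lit 64)) (.one (nat_lit 0xf00000200400f0140004008201c28511)) (.one (nat_lit 0xf00000200400f0150004008201c2a511))) (.br (Nat.shiftLeft (nat_lit 0x7800001002008009) (nat_lit 65)) (.one (nat_lit 0xf0000020040100110004008203c22511)) (.br (Nat.shiftLeft (nat_lit 0xf000003) (nat_lit 100)) (.one (nat_lit 0xf0000020040100120004008203c24511))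 (.one (nat_lit 0xf00000300400f0140006008201c28511))))) (.br (Nat.shiftLeft (nat_lit 0x1) (nat_lit 128)) (.br (Nat.shiftLeft (nat_lit 0x7800001802008009) (nat_lit 65)) (.one (nat_lit 0xf0000030040100110006008203c22511)) (.one (nat_lit 0xf0000030040100120006008203c24511))) (.br (Nat.shiftLeft (nat_lit 0x8000001002008009) (nat_lit 65)) (.one (nat_lit 0x100000020040100110004008224022511)) (.br (Nat.shiftLeft (nat_lit 0x10000003) (nat_lit 100)) (.one (nat_lit 0x100000020040100120004008224024511)) (.one (nat_lit 0x100000030040100110006008224022511))))))))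
def t84 : k84.all (jb2 57 fl b0) = true := by decide +kernel
noncomputable def k85 : KT := (.br (Nat.shiftLeft (nat_lit 0x1) (nat_lit 139)) (.br (Nat.shiftLeft (nat_lit 0x1) (nat_lit 138)) (.br (Nat.shiftLeft (nat_lit 0x1) (nat_lit 137)) (.br (Nat.shiftLeft (nat_lit 0x1) (nat_lit 136)) (.one (nat_lit 0x100000030040100120006008224024511)) (.one (nat_lit 0x10000020030040100114006028420022611))) (.br (Nat.shiftLeft (nat_lit 0x3) (nat_lit 136)) (.one (nat_lit 0x20000020030040100114006048820022611)) (.one (nat_lit 0x30000020030040100114006068c20022611)))) (.br (Nat.shiftLeft (nat_lit 0x3) (nat_lit 137)) (.br (Nat.shiftLeft (nat_lit 0x5) (nat_lit 136)) (.one (nat_lit 0x40000020030040100114006089020022611)) (.one (nat_lit 0x500000200300401001140060a9420022611))) (.br (Nat.shiftLeft (nat_lit 0x7) (nat_lit 136)) (.one (nat_lit 0x600000200300401001140060c9820022611)) (.one (nat_lit 0x700000200300401001140060e9c20022611))))) (.br (Nat.shiftLeft (nat_lit 0x3) (nat_lit 138)) (.br (Nat.shiftLeft (nat_lit 0x5) (nat_lit 137)) (.br (Nat.shiftLeft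 (nat_lit 0x9) (nat_lit 136)) (.one (nat_lit 0x8000002003004010011400610a020022611)) (.one (nat_lit 0x9000002003004010011400612a420022611))) (.br (Nat.shiftLeft (nat_lit 0xb) (nat_lit 136)) (.one (nat_lit 0xa000002003004010011400614a820022611)) (.one (nat_lit 0xb000002003004010011400616ac20022611)))) (.br (Nat.shiftLeft (nat_lit 0x7) (nat_lit 137)) (.br (Nat.shiftLeft (nat_lit 0xd) (nat_lit 136)) (.one (nat_lit 0xc000002003004010011400618b020022611)) (.one (nat_lit 0xd00000200300401001140061ab420022611))) (.br (Nat.shiftLeft (nat_lit 0xf) (nat_lit 136)) (.one (nat_lit 0xe00000200300401001140061cb820022611)) (.one (nat_lit 0xf00000200300401001140061ebc20022611))))))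
def t85 : k85.all (jb2 57 fl b0) = true := by decide +kernel
noncomputable def s3 : KT := (.br (nat_lit 0x20000040100124000008020024411) (.br (nat_lit 0x100200400f014200400801e028650) (.br (nat_lit 0x100400f015000200801e02a540) (.br (nat_lit 0x100400f014000200801e028540) k63 k64) (.br (nat_lit 0x10040100110002008020022540) k65 (.br (nat_lit 0x10000040100122000008020024411) k66 k67))) (.br (nat_lit 0x10020040100122004008020024650) (.br (nat_lit 0x100200400f015200400801e02a650) k68 (.br (nat_lit 0x10020040100112004008020022650) k69 k70)) (.br (nat_lit 0x100300400f015200600801e02a650) k71 (.br (nat_lit 0x10030040100112006008020022650) k72 k73)))) (.br (nat_lit 0x500000200401001100040080c1422511) (.br (nat_lit 0x30000040100126000008020024411) (.br (nat_lit 0x200300400f014400600801e028650) k74 (.br (nat_lit 0x20030040100114006008020023600) k75 k76)) (.br (nat_lit 0xc0000040100118000008020124411) k77 (.br (nat_lit 0x300000300400f014000600807ec28511) k78 k79))) (.br (nat_lit 0x80000030040100120006008122024511) (.br (nat_lit 0x600000200401001100040080e1822511)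 k80 (.br (nat_lit 0x70000020040100120004008101c24511) k81 k82)) (.br (nat_lit 0xb00000200400f0150004008180c2a511) k83 (.br (nat_lit 0x100000030040100110006008224022511) k84 k85)))))
noncomputable def u3 : KT := (.br (Nat.shiftLeft (nat_lit 0x401) (nat_lit 80)) (.br (Nat.shiftLeft (nat_lit 0x400f015) (nat_lit 64)) (.one (nat_lit 0x400f014000000801e028430)) (.one (nat_lit 0x400f015000000801e02a430))) (.br (Nat.shiftLeft (nat_lit 0x2008009) (nat_lit 65)) (.one (nat_lit 0x40100110000008020022430)) (.one (nat_lit 0x40100120000008020024430))))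
def w3 : u3.all (wj 57 s3) = true := by decide +kernel
def o3 : OkW 57 (jb2 57 fl) u3 := .lift s3 _ (.br _ _ _ (.br _ _ _ (.br _ _ _ (.br _ _ _ (.leaf b0 k63 t63) (.leaf b0 k64 t64)) (.br _ _ _ (.leaf b0 k65 t65) (.br _ _ _ (.leaf b0 k66 t66) (.leaf b0 k67 t67)))) (.br _ _ _ (.br _ _ _ (.leaf b0 k68 t68) (.br _ _ _ (.leaf b0 k69 t69) (.leaf b0 k70 t70))) (.br _ _ _ (.leaf b0 k71 t71) (.br _ _ _ (.leaf b0 k72 t72) (.leaf b0 k73 t73))))) (.br _ _ _ (.br _ _ _ (.br _ _ _ (.leaf b0 k74 t74) (.br _ _ _ (.leaf b0 k75 t75) (.leaf b0 k76 t76))) (.br _ _ _ (.leaf b0 k77 t77) (.br _ _ _ (.leaf b0 k78 t78) (.leaf b0 k79 t79)))) (.br _ _ _ (.br _ _ _ (.leaf b0 k80 t80) (.br _ _ _ (.leaf b0 k81 t81) (.leaf b0 k82 t82))) (.br _ _ _ (.leaf b0 k83 t83) (.br _ _ _ (.leaf b0 k84 t84) (.leaf b0 k85 t85)))))) w3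
noncomputable def k86 : KT := (.br (Nat.shiftLeft (nat_lit 0x4011) (nat_lit 76)) (.br (Nat.shiftLeft (nat_lit 0x1004005) (nat_lit 66)) (.one (nat_lit 0x40100130000008020027400)) (.one (nat_lit 0x40100140000008020029400))) (.br (Nat.shiftLeft (nat_lit 0x4011013) (nat_lit 64)) (.one (nat_lit 0x40110120000008022025400)) (.br (Nat.shiftLeft (nat_lit 0x1) (nat_lit 100)) (.one (nat_lit 0x40110130000008022027400)) (.one (nat_lit 0x10040100130002008020026540)))))
def t86 : k86.all (jb2 57 fl b0) = true := by decide +kernel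
noncomputable def k87 : KT := (.one (nat_lit 0x10040100140002008020028540))
def t87 : k87.all (jb2 57 fl b0) = true := by decide +kernel
noncomputable def k88 : KT := (.one (nat_lit 0x10040110120002008022024540))
def t88 : k88.all (jb2 57 fl b0) = true := by decide +kernel
noncomputable def k89 : KT := (.br (Nat.shiftLeft (nat_lit 0xc01004005) (nat_lit 66)) (.br (Nat.shiftLeft (nat_lit 0x2004011) (nat_lit 76)) (.br (Nat.shiftLeft (nat_lit 0x1) (nat_lit 101)) (.one (nat_lit 0x10040110130002008022026540)) (.br (Nat.shiftLeft (nat_lit 0x801004005) (nat_lit 66)) (.one (nat_lit 0x20040100130004008020027500)) (.one (nat_lit 0x20040100140004008020029500)))) (.br (Nat.shiftLeft (nat_lit 0x2004011013) (nat_lit 64)) (.one (nat_lit 0x20040110120004008022025500)) (.br (Nat.shiftLeft (nat_lit 0x3) (nat_lit 100)) (.one (nat_lit 0x20040110130004008022027500)) (.one (nat_lit 0x30040100130006008020027500))))) (.br (Nat.shiftLeft (nat_lit 0x1) (nat_lit 112)) (.br (Nat.shiftLeft (nat_lit 0x3004011) (nat_lit 76)) (.one (nat_lit 0x30040100140006008020029500))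 (.br (Nat.shiftLeft (nat_lit 0x3004011013) (nat_lit 64)) (.one (nat_lit 0x30040110120006008022025500)) (.one (nat_lit 0x30040110130006008022027500)))) (.br (Nat.shiftLeft (nat_lit 0x1000004011) (nat_lit 76)) (.br (Nat.shiftLeft (nat_lit 0x400001004005) (nat_lit 66)) (.one (nat_lit 0x10000040100132000008020026411)) (.one (nat_lit 0x10000040100142000008020028411))) (.br (Nat.shiftLeft (nat_lit 0x1000004011013) (nat_lit 64)) (.one (nat_lit 0x10000040110122000008022024411)) (.one (nat_lit 0x10000040110132000008022026411))))))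
def t89 : k89.all (jb2 57 fl b0) = true := by decide +kernel
noncomputable def k90 : KT := (.one (nat_lit 0x10020040100132004008020026650))
def t90 : k90.all (jb2 57 fl b0) = true := by decide +kernel
noncomputable def k91 : KT := (.one (nat_lit 0x10020040100142004008020028650))
def t91 : k91.all (jb2 57 fl b0) = true := by decide +kernel
noncomputable def k92 : KT := (.one (nat_lit 0x10020040110122004008022024650))
def t92 : k92.all (jb2 57 fl b0) = true := by decide +kernel
noncomputable def k93 : KT := (.one (nat_lit 0x10020040110132004008022026650))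
def t93 : k93.all (jb2 57 fl b0) = true := by decide +kernel
noncomputable def k94 : KT := (.br (Nat.shiftLeft (nat_lit 0x400c01004005) (nat_lit 66)) (.one (nat_lit 0x10030040100132006008020026650)) (.one (nat_lit 0x10030040100142006008020028650)))
def t94 : k94.all (jb2 57 fl b0) = true := by decide +kernel
noncomputable def k95 : KT := (.br (Nat.shiftLeft (nat_lit 0x800001004005) (nat_lit 66)) (.br (Nat.shiftLeft (nat_lit 0x1003004011013) (nat_lit 64)) (.one (nat_lit 0x10030040110122006008022024650)) (.br (Nat.shiftLeft (nat_lit 0x1) (nat_lit 113)) (.one (nat_lit 0x10030040110132006008022026650)) (.one (nat_lit 0x20000040100134000008020026411)))) (.br (Nat.shiftLeft (nat_lit 0x2000004011) (nat_lit 76)) (.one (nat_lit 0x20000040100144000008020028411)) (.br (Nat.shiftLeft (nat_lit 0x2000004011013) (nat_lit 64)) (.one (nat_lit 0x20000040110124000008022024411)) (.one (nat_lit 0x20000040110134000008022026411)))))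
def t95 : k95.all (jb2 57 fl b0) = true := by decide +kernel
noncomputable def k96 : KT := (.one (nat_lit 0x20030040100134006008020026650))
def t96 : k96.all (jb2 57 fl b0) = true := by decide +kernel
noncomputable def k97 : KT := (.one (nat_lit 0x20030040100144006008020028650))
def t97 : k97.all (jb2 57 fl b0) = true := by decide +kernel
noncomputable def k98 : KT := (.one (nat_lit 0x20030040110124006008022024650))
def t98 : k98.all (jb2 57 fl b0) = true := by decide +kernel
noncomputable def k99 : KT := (.br (Nat.shiftLeft (nat_lit 0x1400001004005) (nat_lit 66)) (.br (Nat.shiftLeft (nat_lit 0x1) (nat_lit 114)) (.br (Nat.shiftLeft (nat_lit 0xc00001004005) (nat_lit 66)) (.br (Nat.shiftLeft (nat_lit 0x3) (nat_lit 112)) (.one (nat_lit 0x20030040110134006008022026650)) (.one (nat_lit 0x30000040100136000008020026411))) (.br (Nat.shiftLeft (nat_lit 0x3000004011) (nat_lit 76)) (.one (nat_lit 0x30000040100146000008020028411)) (.br (Nat.shiftLeft (nat_lit 0x3000004011013) (nat_lit 64)) (.one (nat_lit 0x30000040110126000008022024411))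 (.one (nat_lit 0x30000040110136000008022026411))))) (.br (Nat.shiftLeft (nat_lit 0x4000004011) (nat_lit 76)) (.br (Nat.shiftLeft (nat_lit 0x1000001004005) (nat_lit 66)) (.one (nat_lit 0x40000040100138000008020026411)) (.one (nat_lit 0x40000040100148000008020028411))) (.br (Nat.shiftLeft (nat_lit 0x4000004011013) (nat_lit 64)) (.one (nat_lit 0x40000040110128000008022024411)) (.br (Nat.shiftLeft (nat_lit 0x5) (nat_lit 112)) (.one (nat_lit 0x40000040110138000008022026411)) (.one (nat_lit 0x5000004010013a000008020026411)))))) (.br (Nat.shiftLeft (nat_lit 0x6000004011) (nat_lit 76)) (.br (Nat.shiftLeft (nat_lit 0x5000004011013) (nat_lit 64)) (.br (Nat.shiftLeft (nat_lit 0x5000004011) (nat_lit 76)) (.one (nat_lit 0x5000004010014a000008020028411)) (.one (nat_lit 0x5000004011012a000008022024411))) (.br (Nat.shiftLeft (nat_lit 0x3) (nat_lit 113)) (.one (nat_lit 0x5000004011013a000008022026411)) (.br (Nat.shiftLeft (nat_lit 0x1800001004005) (nat_lit 66)) (.one (nat_lit 0x6000004010013c000008020026411)) (.one (nat_lit 0x6000004010014c000008020028411)))))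 (.br (Nat.shiftLeft (nat_lit 0x1c00001004005) (nat_lit 66)) (.br (Nat.shiftLeft (nat_lit 0x6000004011013) (nat_lit 64)) (.one (nat_lit 0x6000004011012c000008022024411)) (.br (Nat.shiftLeft (nat_lit 0x7) (nat_lit 112)) (.one (nat_lit 0x6000004011013c000008022026411)) (.one (nat_lit 0x7000004010013e000008020026411)))) (.br (Nat.shiftLeft (nat_lit 0x7000004011) (nat_lit 76)) (.one (nat_lit 0x7000004010014e000008020028411)) (.br (Nat.shiftLeft (nat_lit 0x7000004011013) (nat_lit 64)) (.one (nat_lit 0x7000004011012e000008022024411)) (.one (nat_lit 0x7000004011013e000008022026411)))))))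
def t99 : k99.all (jb2 57 fl b0) = true := by decide +kernel
noncomputable def k100 : KT := (.br (Nat.shiftLeft (nat_lit 0xd) (nat_lit 112)) (.br (Nat.shiftLeft (nat_lit 0xa000004011) (nat_lit 76)) (.br (Nat.shiftLeft (nat_lit 0x2400001004005) (nat_lit 66)) (.br (Nat.shiftLeft (nat_lit 0x8000004011) (nat_lit 76)) (.br (Nat.shiftLeft (nat_lit 0x2000001004005) (nat_lit 66)) (.one (nat_lit 0x80000040100130000008020128411)) (.one (nat_lit 0x8000004010014000000802012a411))) (.br (Nat.shiftLeft (nat_lit 0x8000004011013) (nat_lit 64)) (.one (nat_lit 0x80000040110120000008022126411)) (.br (Nat.shiftLeft (nat_lit 0x9) (nat_lit 112)) (.one (nat_lit 0x80000040110130000008022128411)) (.one (nat_lit 0x90000040100132000008020128411))))) (.br (Nat.shiftLeft (nat_lit 0x9000004011013) (nat_lit 64)) (.br (Nat.shiftLeft (nat_lit 0x9000004011) (nat_lit 76)) (.one (nat_lit 0x9000004010014200000802012a411)) (.one (nat_lit 0x90000040110122000008022126411))) (.br (Nat.shiftLeft (nat_lit 0x5) (nat_lit 113)) (.one (nat_lit 0x90000040110132000008022128411))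 (.br (Nat.shiftLeft (nat_lit 0x2800001004005) (nat_lit 66)) (.one (nat_lit 0xa0000040100134000008020128411)) (.one (nat_lit 0xa000004010014400000802012a411)))))) (.br (Nat.shiftLeft (nat_lit 0xb000004011013) (nat_lit 64)) (.br (Nat.shiftLeft (nat_lit 0xb) (nat_lit 112)) (.br (Nat.shiftLeft (nat_lit 0xa000004011013) (nat_lit 64)) (.one (nat_lit 0xa0000040110124000008022126411)) (.one (nat_lit 0xa0000040110134000008022128411))) (.br (Nat.shiftLeft (nat_lit 0x2c00001004005) (nat_lit 66)) (.one (nat_lit 0xb0000040100136000008020128411)) (.br (Nat.shiftLeft (nat_lit 0xb000004011) (nat_lit 76)) (.one (nat_lit 0xb000004010014600000802012a411)) (.one (nat_lit 0xb0000040110126000008022126411))))) (.br (Nat.shiftLeft (nat_lit 0x3000001004005) (nat_lit 66)) (.br (Nat.shiftLeft (nat_lit 0x3) (nat_lit 114)) (.one (nat_lit 0xb0000040110136000008022128411)) (.one (nat_lit 0xc0000040100138000008020128411))) (.br (Nat.shiftLeft (nat_lit 0xc000004011) (nat_lit 76)) (.one (nat_lit 0xc000004010014800000802012a411)) (.br (Nat.shiftLeft (nat_lit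 0xc000004011013) (nat_lit 64)) (.one (nat_lit 0xc0000040110128000008022126411)) (.one (nat_lit 0xc0000040110138000008022128411))))))) (.br (Nat.shiftLeft (nat_lit 0xf000004011) (nat_lit 76)) (.br (Nat.shiftLeft (nat_lit 0x3800001004005) (nat_lit 66)) (.br (Nat.shiftLeft (nat_lit 0xd000004011) (nat_lit 76)) (.br (Nat.shiftLeft (nat_lit 0x3400001004005) (nat_lit 66)) (.one (nat_lit 0xd000004010013a000008020128411)) (.one (nat_lit 0xd000004010014a00000802012a411))) (.br (Nat.shiftLeft (nat_lit 0xd000004011013) (nat_lit 64)) (.one (nat_lit 0xd000004011012a000008022126411)) (.br (Nat.shiftLeft (nat_lit 0x7) (nat_lit 113)) (.one (nat_lit 0xd000004011013a000008022128411)) (.one (nat_lit 0xe000004010013c000008020128411))))) (.br (Nat.shiftLeft (nat_lit 0xe000004011013) (nat_lit 64)) (.br (Nat.shiftLeft (nat_lit 0xe000004011) (nat_lit 76)) (.one (nat_lit 0xe000004010014c00000802012a411)) (.one (nat_lit 0xe000004011012c000008022126411))) (.br (Nat.shiftLeft (nat_lit 0xf) (nat_lit 112)) (.one (nat_lit 0xe000004011013c000008022128411))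 (.br (Nat.shiftLeft (nat_lit 0x3c00001004005) (nat_lit 66)) (.one (nat_lit 0xf000004010013e000008020128411)) (.one (nat_lit 0xf000004010014e00000802012a411)))))) (.br (Nat.shiftLeft (nat_lit 0x10000004011013) (nat_lit 64)) (.br (Nat.shiftLeft (nat_lit 0x1) (nat_lit 116)) (.br (Nat.shiftLeft (nat_lit 0xf000004011013) (nat_lit 64)) (.one (nat_lit 0xf000004011012e000008022126411)) (.one (nat_lit 0xf000004011013e000008022128411))) (.br (Nat.shiftLeft (nat_lit 0x4000001004005) (nat_lit 66)) (.one (nat_lit 0x10000004010013000000802022a411)) (.br (Nat.shiftLeft (nat_lit 0x10000004011) (nat_lit 76)) (.one (nat_lit 0x10000004010014000000802022c411)) (.one (nat_lit 0x100000040110120000008022228411))))) (.br (Nat.shiftLeft (nat_lit 0x11000004011013) (nat_lit 64)) (.br (Nat.shiftLeft (nat_lit 0x11) (nat_lit 112)) (.one (nat_lit 0x10000004011013000000802222a411)) (.one (nat_lit 0x110000040110122000008022228411))) (.br (Nat.shiftLeft (nat_lit 0x1) (nat_lit 124)) (.one (nat_lit 0x11000004011013200000802222a411)) (.br (Nat.shiftLeft (nat_lit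 0x400000801004005) (nat_lit 66)) (.one (nat_lit 0x10000020040100130004008040426511)) (.one (nat_lit 0x10000020040100140004008040428511))))))))
def t100 : k100.all (jb2 57 fl b0) = true := by decide +kernel
noncomputable def k101 : KT := (.br (Nat.shiftLeft (nat_lit 0x3000002004011) (nat_lit 76)) (.br (Nat.shiftLeft (nat_lit 0x2000002004011) (nat_lit 76)) (.br (Nat.shiftLeft (nat_lit 0x1000003004011) (nat_lit 76)) (.br (Nat.shiftLeft (nat_lit 0x1000003) (nat_lit 100)) (.br (Nat.shiftLeft (nat_lit 0x1000002004011013) (nat_lit 64)) (.one (nat_lit 0x10000020040110120004008042424511)) (.one (nat_lit 0x10000020040110130004008042426511))) (.br (Nat.shiftLeft (nat_lit 0x400000c01004005) (nat_lit 66)) (.one (nat_lit 0x10000030040100130006008040426511)) (.one (nat_lit 0x10000030040100140006008040428511)))) (.br (Nat.shiftLeft (nat_lit 0x1) (nat_lit 125)) (.br (Nat.shiftLeft (nat_lit 0x1000003004011013) (nat_lit 64)) (.one (nat_lit 0x10000030040110120006008042424511)) (.one (nat_lit 0x10000030040110130006008042426511))) (.br (Nat.shiftLeft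 (nat_lit 0x800000801004005) (nat_lit 66)) (.one (nat_lit 0x20000020040100130004008060826511)) (.one (nat_lit 0x20000020040100140004008060828511))))) (.br (Nat.shiftLeft (nat_lit 0x2000003004011) (nat_lit 76)) (.br (Nat.shiftLeft (nat_lit 0x2000003) (nat_lit 100)) (.br (Nat.shiftLeft (nat_lit 0x2000002004011013) (nat_lit 64)) (.one (nat_lit 0x20000020040110120004008062824511)) (.one (nat_lit 0x20000020040110130004008062826511))) (.br (Nat.shiftLeft (nat_lit 0x800000c01004005) (nat_lit 66)) (.one (nat_lit 0x20000030040100130006008060826511)) (.one (nat_lit 0x20000030040100140006008060828511)))) (.br (Nat.shiftLeft (nat_lit 0x3) (nat_lit 124)) (.br (Nat.shiftLeft (nat_lit 0x2000003004011013) (nat_lit 64)) (.one (nat_lit 0x20000030040110120006008062824511)) (.one (nat_lit 0x20000030040110130006008062826511))) (.br (Nat.shiftLeft (nat_lit 0xc00000801004005) (nat_lit 66)) (.one (nat_lit 0x30000020040100130004008080c26511)) (.one (nat_lit 0x30000020040100140004008080c28511)))))) (.br (Nat.shiftLeft (nat_lit 0x4000002004011) (nat_lit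 76)) (.br (Nat.shiftLeft (nat_lit 0x3000003004011) (nat_lit 76)) (.br (Nat.shiftLeft (nat_lit 0x3000003) (nat_lit 100)) (.br (Nat.shiftLeft (nat_lit 0x3000002004011013) (nat_lit 64)) (.one (nat_lit 0x30000020040110120004008082c24511)) (.one (nat_lit 0x30000020040110130004008082c26511))) (.br (Nat.shiftLeft (nat_lit 0xc00000c01004005) (nat_lit 66)) (.one (nat_lit 0x30000030040100130006008080c26511)) (.one (nat_lit 0x30000030040100140006008080c28511)))) (.br (Nat.shiftLeft (nat_lit 0x1) (nat_lit 126)) (.br (Nat.shiftLeft (nat_lit 0x3000003004011013) (nat_lit 64)) (.one (nat_lit 0x30000030040110120006008082c24511)) (.one (nat_lit 0x30000030040110130006008082c26511))) (.br (Nat.shiftLeft (nat_lit 0x1000000801004005) (nat_lit 66)) (.one (nat_lit 0x400000200401001300040080a1026511)) (.one (nat_lit 0x400000200401001400040080a1028511))))) (.br (Nat.shiftLeft (nat_lit 0x4000003004011) (nat_lit 76)) (.br (Nat.shiftLeft (nat_lit 0x4000003) (nat_lit 100)) (.br (Nat.shiftLeft (nat_lit 0x4000002004011013) (nat_lit 64)) (.one (nat_lit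 0x400000200401101200040080a3024511)) (.one (nat_lit 0x400000200401101300040080a3026511))) (.br (Nat.shiftLeft (nat_lit 0x1000000c01004005) (nat_lit 66)) (.one (nat_lit 0x400000300401001300060080a1026511)) (.one (nat_lit 0x400000300401001400060080a1028511)))) (.br (Nat.shiftLeft (nat_lit 0x5) (nat_lit 124)) (.br (Nat.shiftLeft (nat_lit 0x4000003004011013) (nat_lit 64)) (.one (nat_lit 0x400000300401101200060080a3024511)) (.one (nat_lit 0x400000300401101300060080a3026511))) (.br (Nat.shiftLeft (nat_lit 0x1400000801004005) (nat_lit 66)) (.one (nat_lit 0x500000200401001300040080c1426511)) (.one (nat_lit 0x500000200401001400040080c1428511)))))))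
def t101 : k101.all (jb2 57 fl b0) = true := by decide +kernel
noncomputable def k102 : KT := (.br (Nat.shiftLeft (nat_lit 0x5000003004011) (nat_lit 76)) (.br (Nat.shiftLeft (nat_lit 0x5000003) (nat_lit 100)) (.br (Nat.shiftLeft (nat_lit 0x5000002004011013) (nat_lit 64)) (.one (nat_lit 0x500000200401101200040080c3424511)) (.one (nat_lit 0x500000200401101300040080c3426511))) (.br (Nat.shiftLeft (nat_lit 0x1400000c01004005) (nat_lit 66)) (.one (nat_lit 0x500000300401001300060080c1426511)) (.one (nat_lit 0x500000300401001400060080c1428511)))) (.br (Nat.shiftLeft (nat_lit 0x3) (nat_lit 125)) (.br (Nat.shiftLeft (nat_lit 0x5000003004011013) (nat_lit 64)) (.one (nat_lit 0x500000300401101200060080c3424511)) (.one (nat_lit 0x500000300401101300060080c3426511))) (.br (Nat.shiftLeft (nat_lit 0x1800000801004005) (nat_lit 66)) (.one (nat_lit 0x600000200401001300040080e1826511)) (.br (Nat.shiftLeft (nat_lit 0x6000002004011) (nat_lit 76)) (.one (nat_lit 0x600000200401001400040080e1828511)) (.one (nat_lit 0x600000200401101200040080e3824511))))))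
def t102 : k102.all (jb2 57 fl b0) = true := by decide +kernel
noncomputable def k103 : KT := (.br (Nat.shiftLeft (nat_lit 0x7) (nat_lit 124)) (.br (Nat.shiftLeft (nat_lit 0x1800000c01004005) (nat_lit 66)) (.br (Nat.shiftLeft (nat_lit 0x6000003) (nat_lit 100)) (.one (nat_lit 0x600000200401101300040080e3826511)) (.one (nat_lit 0x600000300401001300060080e1826511))) (.br (Nat.shiftLeft (nat_lit 0x6000003004011) (nat_lit 76)) (.one (nat_lit 0x600000300401001400060080e1828511)) (.br (Nat.shiftLeft (nat_lit 0x6000003004011013) (nat_lit 64)) (.one (nat_lit 0x600000300401101200060080e3824511)) (.one (nat_lit 0x600000300401101300060080e3826511))))) (.br (Nat.shiftLeft (nat_lit 0x7000002004011013) (nat_lit 64)) (.br (Nat.shiftLeft (nat_lit 0x1c00000801004005) (nat_lit 66)) (.one (nat_lit 0x70000020040100130004008101c26511)) (.br (Nat.shiftLeft (nat_lit 0x7000002004011) (nat_lit 76)) (.one (nat_lit 0x70000020040100140004008101c28511)) (.one (nat_lit 0x70000020040110120004008103c24511)))) (.br (Nat.shiftLeft (nat_lit 0x7000003) (nat_lit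 100)) (.one (nat_lit 0x70000020040110130004008103c26511)) (.br (Nat.shiftLeft (nat_lit 0x1c00000c01004005) (nat_lit 66)) (.one (nat_lit 0x70000030040100130006008101c26511)) (.one (nat_lit 0x70000030040100140006008101c28511))))))
def t103 : k103.all (jb2 57 fl b0) = true := by decide +kernel
noncomputable def k104 : KT := (.br (Nat.shiftLeft (nat_lit 0x8000003004011) (nat_lit 76)) (.br (Nat.shiftLeft (nat_lit 0x8000002004011) (nat_lit 76)) (.br (Nat.shiftLeft (nat_lit 0x1) (nat_lit 127)) (.br (Nat.shiftLeft (nat_lit 0x7000003004011013) (nat_lit 64)) (.one (nat_lit 0x70000030040110120006008103c24511)) (.one (nat_lit 0x70000030040110130006008103c26511))) (.br (Nat.shiftLeft (nat_lit 0x2000000801004005) (nat_lit 66)) (.one (nat_lit 0x80000020040100130004008122026511)) (.one (nat_lit 0x80000020040100140004008122028511)))) (.br (Nat.shiftLeft (nat_lit 0x8000003) (nat_lit 100)) (.br (Nat.shiftLeft (nat_lit 0x8000002004011013) (nat_lit 64)) (.one (nat_lit 0x80000020040110120004008124024511)) (.one (nat_lit 0x80000020040110130004008124026511)))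 (.br (Nat.shiftLeft (nat_lit 0x2000000c01004005) (nat_lit 66)) (.one (nat_lit 0x80000030040100130006008122026511)) (.one (nat_lit 0x80000030040100140006008122028511))))) (.br (Nat.shiftLeft (nat_lit 0x9000002004011) (nat_lit 76)) (.br (Nat.shiftLeft (nat_lit 0x9) (nat_lit 124)) (.br (Nat.shiftLeft (nat_lit 0x8000003004011013) (nat_lit 64)) (.one (nat_lit 0x80000030040110120006008124024511)) (.one (nat_lit 0x80000030040110130006008124026511))) (.br (Nat.shiftLeft (nat_lit 0x2400000801004005) (nat_lit 66)) (.one (nat_lit 0x90000020040100130004008142426511)) (.one (nat_lit 0x90000020040100140004008142428511)))) (.br (Nat.shiftLeft (nat_lit 0x9000003) (nat_lit 100)) (.br (Nat.shiftLeft (nat_lit 0x9000002004011013) (nat_lit 64)) (.one (nat_lit 0x90000020040110120004008144424511)) (.one (nat_lit 0x90000020040110130004008144426511))) (.br (Nat.shiftLeft (nat_lit 0x2400000c01004005) (nat_lit 66)) (.one (nat_lit 0x90000030040100130006008142426511)) (.one (nat_lit 0x90000030040100140006008142428511))))))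
def t104 : k104.all (jb2 57 fl b0) = true := by decide +kernel
noncomputable def k105 : KT := (.br (Nat.shiftLeft (nat_lit 0xc000002004011) (nat_lit 76)) (.br (Nat.shiftLeft (nat_lit 0xb) (nat_lit 124)) (.br (Nat.shiftLeft (nat_lit 0xa000002004011013) (nat_lit 64)) (.br (Nat.shiftLeft (nat_lit 0x5) (nat_lit 125)) (.br (Nat.shiftLeft (nat_lit 0x9000003004011013) (nat_lit 64)) (.one (nat_lit 0x90000030040110120006008144424511)) (.one (nat_lit 0x90000030040110130006008144426511))) (.br (Nat.shiftLeft (nat_lit 0x2800000801004005) (nat_lit 66)) (.one (nat_lit 0xa0000020040100130004008162826511)) (.br (Nat.shiftLeft (nat_lit 0xa000002004011) (nat_lit 76)) (.one (nat_lit 0xa0000020040100140004008162828511)) (.one (nat_lit 0xa0000020040110120004008164824511))))) (.br (Nat.shiftLeft (nat_lit 0x2800000c01004005) (nat_lit 66)) (.br (Nat.shiftLeft (nat_lit 0xa000003) (nat_lit 100)) (.one (nat_lit 0xa0000020040110130004008164826511)) (.one (nat_lit 0xa0000030040100130006008162826511))) (.br (Nat.shiftLeft (nat_lit 0xa000003004011)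 (nat_lit 76)) (.one (nat_lit 0xa0000030040100140006008162828511)) (.br (Nat.shiftLeft (nat_lit 0xa000003004011013) (nat_lit 64)) (.one (nat_lit 0xa0000030040110120006008164824511)) (.one (nat_lit 0xa0000030040110130006008164826511)))))) (.br (Nat.shiftLeft (nat_lit 0x2c00000c01004005) (nat_lit 66)) (.br (Nat.shiftLeft (nat_lit 0xb000002004011) (nat_lit 76)) (.br (Nat.shiftLeft (nat_lit 0x2c00000801004005) (nat_lit 66)) (.one (nat_lit 0xb0000020040100130004008182c26511)) (.one (nat_lit 0xb0000020040100140004008182c28511))) (.br (Nat.shiftLeft (nat_lit 0xb000002004011013) (nat_lit 64)) (.one (nat_lit 0xb0000020040110120004008184c24511)) (.br (Nat.shiftLeft (nat_lit 0xb000003) (nat_lit 100)) (.one (nat_lit 0xb0000020040110130004008184c26511)) (.one (nat_lit 0xb0000030040100130006008182c26511))))) (.br (Nat.shiftLeft (nat_lit 0xb000003004011013) (nat_lit 64)) (.br (Nat.shiftLeft (nat_lit 0xb000003004011) (nat_lit 76)) (.one (nat_lit 0xb0000030040100140006008182c28511)) (.one (nat_lit 0xb0000030040110120006008184c24511))) (.br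 (Nat.shiftLeft (nat_lit 0x3) (nat_lit 126)) (.one (nat_lit 0xb0000030040110130006008184c26511)) (.br (Nat.shiftLeft (nat_lit 0x3000000801004005) (nat_lit 66)) (.one (nat_lit 0xc00000200401001300040081a3026511)) (.one (nat_lit 0xc00000200401001400040081a3028511))))))) (.br (Nat.shiftLeft (nat_lit 0xd000003) (nat_lit 100)) (.br (Nat.shiftLeft (nat_lit 0xc000003004011013) (nat_lit 64)) (.br (Nat.shiftLeft (nat_lit 0xc000003) (nat_lit 100)) (.br (Nat.shiftLeft (nat_lit 0xc000002004011013) (nat_lit 64)) (.one (nat_lit 0xc00000200401101200040081a5024511)) (.one (nat_lit 0xc00000200401101300040081a5026511))) (.br (Nat.shiftLeft (nat_lit 0x3000000c01004005) (nat_lit 66)) (.one (nat_lit 0xc00000300401001300060081a3026511)) (.br (Nat.shiftLeft (nat_lit 0xc000003004011) (nat_lit 76)) (.one (nat_lit 0xc00000300401001400060081a3028511)) (.one (nat_lit 0xc00000300401101200060081a5024511))))) (.br (Nat.shiftLeft (nat_lit 0x3400000801004005) (nat_lit 66)) (.br (Nat.shiftLeft (nat_lit 0xd) (nat_lit 124)) (.one (nat_lit 0xc00000300401101300060081a5026511))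 (.one (nat_lit 0xd00000200401001300040081c3426511))) (.br (Nat.shiftLeft (nat_lit 0xd000002004011) (nat_lit 76)) (.one (nat_lit 0xd00000200401001400040081c3428511)) (.br (Nat.shiftLeft (nat_lit 0xd000002004011013) (nat_lit 64)) (.one (nat_lit 0xd00000200401101200040081c5424511)) (.one (nat_lit 0xd00000200401101300040081c5426511)))))) (.br (Nat.shiftLeft (nat_lit 0x3800000801004005) (nat_lit 66)) (.br (Nat.shiftLeft (nat_lit 0xd000003004011) (nat_lit 76)) (.br (Nat.shiftLeft (nat_lit 0x3400000c01004005) (nat_lit 66)) (.one (nat_lit 0xd00000300401001300060081c3426511)) (.one (nat_lit 0xd00000300401001400060081c3428511))) (.br (Nat.shiftLeft (nat_lit 0xd000003004011013) (nat_lit 64)) (.one (nat_lit 0xd00000300401101200060081c5424511)) (.br (Nat.shiftLeft (nat_lit 0x7) (nat_lit 125)) (.one (nat_lit 0xd00000300401101300060081c5426511)) (.one (nat_lit 0xe00000200401001300040081e3826511))))) (.br (Nat.shiftLeft (nat_lit 0xe000002004011013) (nat_lit 64)) (.br (Nat.shiftLeft (nat_lit 0xe000002004011) (nat_lit 76)) (.one (nat_lit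 0xe00000200401001400040081e3828511)) (.one (nat_lit 0xe00000200401101200040081e5824511))) (.br (Nat.shiftLeft (nat_lit 0xe000003) (nat_lit 100)) (.one (nat_lit 0xe00000200401101300040081e5826511)) (.br (Nat.shiftLeft (nat_lit 0x3800000c01004005) (nat_lit 66)) (.one (nat_lit 0xe00000300401001300060081e3826511)) (.one (nat_lit 0xe00000300401001400060081e3828511))))))))
def t105 : k105.all (jb2 57 fl b0) = true := by decide +kernel
noncomputable def k106 : KT := (.br (Nat.shiftLeft (nat_lit 0xf000002004011013) (nat_lit 64)) (.br (Nat.shiftLeft (nat_lit 0xf) (nat_lit 124)) (.br (Nat.shiftLeft (nat_lit 0xe000003004011013) (nat_lit 64)) (.one (nat_lit 0xe00000300401101200060081e5824511)) (.one (nat_lit 0xe00000300401101300060081e5826511))) (.br (Nat.shiftLeft (nat_lit 0x3c00000801004005) (nat_lit 66)) (.one (nat_lit 0xf0000020040100130004008203c26511)) (.br (Nat.shiftLeft (nat_lit 0xf000002004011) (nat_lit 76)) (.one (nat_lit 0xf0000020040100140004008203c28511)) (.one (nat_lit 0xf0000020040110120004008205c24511))))) (.br (Nat.shiftLeft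 (nat_lit 0xf000003004011) (nat_lit 76)) (.br (Nat.shiftLeft (nat_lit 0xf000003) (nat_lit 100)) (.one (nat_lit 0xf0000020040110130004008205c26511)) (.one (nat_lit 0xf0000030040100130006008203c26511))) (.br (Nat.shiftLeft (nat_lit 0x1) (nat_lit 128)) (.one (nat_lit 0xf0000030040110120006008205c24511)) (.br (Nat.shiftLeft (nat_lit 0x10000002004011) (nat_lit 76)) (.one (nat_lit 0x100000020040100130004008224026511)) (.one (nat_lit 0x100000020040110120004008226024511))))))
def t106 : k106.all (jb2 57 fl b0) = true := by decide +kernel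
noncomputable def s4 : KT := (.br (nat_lit 0x20000040110134000008022026411) (.br (nat_lit 0x10020040100132004008020026650) (.br (nat_lit 0x10040100140002008020028540) (.br (nat_lit 0x10040100130002008020026540) k86 k87) (.br (nat_lit 0x10040110120002008022024540) k88 (.br (nat_lit 0x10000040110132000008022026411) k89 k90))) (.br (nat_lit 0x10020040110122004008022024650) (.br (nat_lit 0x10020040100142004008020028650) k91 k92) (.br (nat_lit 0x10020040110132004008022026650) k93 (.br (nat_lit 0x10030040100142006008020028650) k94 k95)))) (.br (nat_lit 0x10000020040100140004008040428511) (.br (nat_lit 0x20030040100144006008020028650) (.br (nat_lit 0x20030040100134006008020026650) k96 k97) (.br (nat_lit 0x20030040110124006008022024650) k98 (.br (nat_lit 0x7000004011013e000008022026411) k99 k100))) (.br (nat_lit 0x70000030040100140006008101c28511) (.br (nat_lit 0x500000200401001400040080c1428511) k101 (.br (nat_lit 0x600000200401101200040080e3824511) k102 k103)) (.br (nat_lit 0x90000030040100140006008142428511) k104 (.br (nat_lit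 0xe00000300401001400060081e3828511) k105 k106)))))
noncomputable def u4 : KT := (.br (Nat.shiftLeft (nat_lit 0x4011) (nat_lit 76)) (.br (Nat.shiftLeft (nat_lit 0x1004005) (nat_lit 66)) (.one (nat_lit 0x40100130000008020026430)) (.one (nat_lit 0x40100140000008020028430))) (.br (Nat.shiftLeft (nat_lit 0x4011013) (nat_lit 64)) (.one (nat_lit 0x40110120000008022024430)) (.one (nat_lit 0x40110130000008022026430))))
def w4 : u4.all (wj 57 s4) = true := by decide +kernel
def o4 : OkW 57 (jb2 57 fl) u4 := .lift s4 _ (.br _ _ _ (.br _ _ _ (.br _ _ _ (.br _ _ _ (.leaf b0 k86 t86) (.leaf b0 k87 t87)) (.br _ _ _ (.leaf b0 k88 t88) (.br _ _ _ (.leaf b0 k89 t89) (.leaf b0 k90 t90)))) (.br _ _ _ (.br _ _ _ (.leaf b0 k91 t91) (.leaf b0 k92 t92)) (.br _ _ _ (.leaf b0 k93 t93) (.br _ _ _ (.leaf b0 k94 t94) (.leaf b0 k95 t95))))) (.br _ _ _ (.br _ _ _ (.br _ _ _ (.leaf b0 k96 t96) (.leaf b0 k97 t97)) (.br _ _ _ (.leaf b0 k98 t98) (.br _ _ _ (.leaf b0 k99 t99) (.leaf b0 k100 t100)))) (.br _ _ _ (.br _ _ _ (.leaf b0 k101 t101) (.br _ _ _ (.leaf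 b0 k102 t102) (.leaf b0 k103 t103))) (.br _ _ _ (.leaf b0 k104 t104) (.br _ _ _ (.leaf b0 k105 t105) (.leaf b0 k106 t106)))))) w4
noncomputable def k107 : KT := (.br (Nat.shiftLeft (nat_lit 0x1) (nat_lit 102)) (.br (Nat.shiftLeft (nat_lit 0x1) (nat_lit 101)) (.one (nat_lit 0x1005006012000200a00c024540)) (.one (nat_lit 0x3005006012000600a00c025500))) (.br (Nat.shiftLeft (nat_lit 0x1) (nat_lit 112)) (.one (nat_lit 0x4005006012000800a00c025500)) (.one (nat_lit 0x1000005006012200000a00c024411))))
def t107 : k107.all (jb2 57 fl b0) = true := by decide +kernel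
noncomputable def k108 : KT := (.br (Nat.shiftLeft (nat_lit 0x1001) (nat_lit 101)) (.br (Nat.shiftLeft (nat_lit 0x401) (nat_lit 102)) (.br (Nat.shiftLeft (nat_lit 0x1003) (nat_lit 100)) (.one (nat_lit 0x1002005006012200400a00c024650)) (.one (nat_lit 0x1003005006012200600a00c025600))) (.br (Nat.shiftLeft (nat_lit 0x1) (nat_lit 113)) (.one (nat_lit 0x1004005006012200800a00c025600)) (.one (nat_lit 0x2000005006012400000a00c024411)))) (.br (Nat.shiftLeft (nat_lit 0x3) (nat_lit 112)) (.br (Nat.shiftLeft (nat_lit 0x801) (nat_lit 102)) (.one (nat_lit 0x2003005006012400600a00c025600)) (.one (nat_lit 0x2004005006012400800a00c025600))) (.br (Nat.shiftLeft (nat_lit 0xc01) (nat_lit 102)) (.one (nat_lit 0x3000005006012600000a00c024411)) (.br (Nat.shiftLeft (nat_lit 0x1) (nat_lit 114)) (.one (nat_lit 0x3004005006012600800a00c025600)) (.one (nat_lit 0x4000005006012800000a00c024411))))))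
def t108 : k108.all (jb2 57 fl b0) = true := by decide +kernel
noncomputable def k109 : KT := (.br (Nat.shiftLeft (nat_lit 0x800001) (nat_lit 102)) (.br (Nat.shiftLeft (nat_lit 0x801) (nat_lit 113)) (.br (Nat.shiftLeft (nat_lit 0x1) (nat_lit 124)) (.br (Nat.shiftLeft (nat_lit 0x3) (nat_lit 113)) (.one (nat_lit 0x5000005006012a00000a00c024411)) (.one (nat_lit 0x6000005006012c00000a00c024411))) (.br (Nat.shiftLeft (nat_lit 0x1000003) (nat_lit 100)) (.one (nat_lit 0x1000002005006012000400a02c424511)) (.br (Nat.shiftLeft (nat_lit 0x400001) (nat_lit 102)) (.one (nat_lit 0x1000003005006012000600a02c424511)) (.one (nat_lit 0x1000004005006012000800a02c424511))))) (.br (Nat.shiftLeft (nat_lit 0x1003) (nat_lit 112)) (.br (Nat.shiftLeft (nat_lit 0x400801) (nat_lit 102)) (.one (nat_lit 0x1002003005006012400600a02c425700)) (.one (nat_lit 0x1002004005006012400800a02c425700))) (.br (Nat.shiftLeft (nat_lit 0x1) (nat_lit 125)) (.one (nat_lit 0x1003004005006012600800a02c425700)) (.br (Nat.shiftLeft (nat_lit 0x2000003) (nat_lit 100)) (.one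 (nat_lit 0x2000002005006012000400a04c824511)) (.one (nat_lit 0x2000003005006012000600a04c824511)))))) (.br (Nat.shiftLeft (nat_lit 0x1) (nat_lit 126)) (.br (Nat.shiftLeft (nat_lit 0x3) (nat_lit 124)) (.br (Nat.shiftLeft (nat_lit 0x1001) (nat_lit 113)) (.one (nat_lit 0x2000004005006012000800a04c824511)) (.one (nat_lit 0x2003004005006012600800a04c825700))) (.br (Nat.shiftLeft (nat_lit 0x3000003) (nat_lit 100)) (.one (nat_lit 0x3000002005006012000400a06cc24511)) (.br (Nat.shiftLeft (nat_lit 0xc00001) (nat_lit 102)) (.one (nat_lit 0x3000003005006012000600a06cc24511)) (.one (nat_lit 0x3000004005006012000800a06cc24511))))) (.br (Nat.shiftLeft (nat_lit 0x5) (nat_lit 124)) (.br (Nat.shiftLeft (nat_lit 0x4000003) (nat_lit 100)) (.one (nat_lit 0x4000002005006012000400a08d024511)) (.br (Nat.shiftLeft (nat_lit 0x1000001) (nat_lit 102)) (.one (nat_lit 0x4000003005006012000600a08d024511)) (.one (nat_lit 0x4000004005006012000800a08d024511)))) (.br (Nat.shiftLeft (nat_lit 0x5000003) (nat_lit 100)) (.one (nat_lit 0x5000002005006012000400a0ad424511))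 (.br (Nat.shiftLeft (nat_lit 0x1400001) (nat_lit 102)) (.one (nat_lit 0x5000003005006012000600a0ad424511)) (.one (nat_lit 0x5000004005006012000800a0ad424511)))))))
def t109 : k109.all (jb2 57 fl b0) = true := by decide +kernel
noncomputable def k110 : KT := (.br (Nat.shiftLeft (nat_lit 0x6000003) (nat_lit 100)) (.one (nat_lit 0x6000002005006012000400a0cd824511)) (.one (nat_lit 0x6000003005006012000600a0cd824511)))
noncomputable def b111 : BT := .node (nat_lit 0x1) (nat_lit 0xde1260a648003227000ac6010008800028) .leaf .leaf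
def t110 : k110.all (jb2 57 fl b111) = true := by decide +kernel
noncomputable def k111 : KT := (.br (Nat.shiftLeft (nat_lit 0x800001) (nat_lit 113)) (.br (Nat.shiftLeft (nat_lit 0x1) (nat_lit 136)) (.one (nat_lit 0x6000004005006012000800a0cd824511)) (.br (Nat.shiftLeft (nat_lit 0x400000401) (nat_lit 102)) (.one (nat_lit 0x1000001003005006012200602a40c024611)) (.one (nat_lit 0x1000001004005006012200802a40c024611)))) (.br (Nat.shiftLeft (nat_lit 0x400000801) (nat_lit 102)) (.one (nat_lit 0x1000002003005006012400602a40c024611)) (.br (Nat.shiftLeft (nat_lit 0x1000003) (nat_lit 112)) (.one (nat_lit 0x1000002004005006012400802a40c024611)) (.one (nat_lit 0x1000003004005006012600802a40c024611)))))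
def t111 : k111.all (jb2 57 fl b0) = true := by decide +kernel
noncomputable def k112 : KT := (.br (Nat.shiftLeft (nat_lit 0x1) (nat_lit 137)) (.one (nat_lit 0x1002003004005006012600802a44c824870)) (.br (Nat.shiftLeft (nat_lit 0x800000401) (nat_lit 102)) (.one (nat_lit 0x2000001003005006012200604a80c024611)) (.one (nat_lit 0x2000001004005006012200804a80c024611))))
noncomputable def b113 : BT := .node (nat_lit 0xb) (nat_lit 0x9922b9a4d0003395000c9681918a4d5382db226126480039db0008e5c003227000ad5c2db226124d40032a4000ab6810026c0026c0026c0026c0026c0026c0020c0020c0020c0020c00150000f0) .leaf .leaf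
def t112 : k112.all (jb2 57 fl b113) = true := by decide +kernel
noncomputable def k113 : KT := (.br (Nat.shiftLeft (nat_lit 0xc00000801) (nat_lit 102)) (.br (Nat.shiftLeft (nat_lit 0x3) (nat_lit 136)) (.br (Nat.shiftLeft (nat_lit 0x800000801) (nat_lit 102)) (.one (nat_lit 0x2000002003005006012400604a80c024611)) (.br (Nat.shiftLeft (nat_lit 0x2000003) (nat_lit 112)) (.one (nat_lit 0x2000002004005006012400804a80c024611)) (.one (nat_lit 0x2000003004005006012600804a80c024611)))) (.br (Nat.shiftLeft (nat_lit 0xc00000401) (nat_lit 102)) (.one (nat_lit 0x3000001003005006012200606ac0c024611)) (.br (Nat.shiftLeft (nat_lit 0x1800001) (nat_lit 113)) (.one (nat_lit 0x3000001004005006012200806ac0c024611)) (.one (nat_lit 0x3000002003005006012400606ac0c024611))))) (.br (Nat.shiftLeft (nat_lit 0x1000000401) (nat_lit 102)) (.br (Nat.shiftLeft (nat_lit 0x3000003) (nat_lit 112)) (.one (nat_lit 0x3000002004005006012400806ac0c024611)) (.br (Nat.shiftLeft (nat_lit 0x1) (nat_lit 138)) (.one (nat_lit 0x3000003004005006012600806ac0c024611)) (.one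 (nat_lit 0x4000001003005006012200608b00c024611)))) (.br (Nat.shiftLeft (nat_lit 0x1000000801) (nat_lit 102)) (.br (Nat.shiftLeft (nat_lit 0x2000001) (nat_lit 113)) (.one (nat_lit 0x4000001004005006012200808b00c024611)) (.one (nat_lit 0x4000002003005006012400608b00c024611))) (.br (Nat.shiftLeft (nat_lit 0x4000003) (nat_lit 112)) (.one (nat_lit 0x4000002004005006012400808b00c024611)) (.one (nat_lit 0x4000003004005006012600808b00c024611))))))
def t113 : k113.all (jb2 57 fl b0) = true := by decide +kernel
noncomputable def k114 : KT := (.br (Nat.shiftLeft (nat_lit 0x1400000401) (nat_lit 102)) (.one (nat_lit 0x500000100300500601220060ab40c024611)) (.one (nat_lit 0x500000100400500601220080ab40c024611)))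
def t114 : k114.all (jb2 57 fl b0) = true := by decide +kernel
noncomputable def k115 : KT := (.one (nat_lit 0x500000200300500601240060ab40c024611))
def t115 : k115.all (jb2 57 fl b0) = true := by decide +kernel
noncomputable def k116 : KT := (.one (nat_lit 0x500000200400500601240080ab40c024611))
def t116 : k116.all (jb2 57 fl b0) = true := by decide +kernel
noncomputable def k117 : KT := (.one (nat_lit 0x500000300400500601260080ab40c024611))
def t117 : k117.all (jb2 57 fl b0) = true := by decide +kernel
noncomputable def k118 : KT := (.one (nat_lit 0x600000100300500601220060cb80c024611))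
noncomputable def b119 : BT := .node (nat_lit 0x1) (nat_lit 0x123149ab78800325b000ac6010008900028) .leaf .leaf
def t118 : k118.all (jb2 57 fl b119) = true := by decide +kernel
noncomputable def k119 : KT := (.br (Nat.shiftLeft (nat_lit 0x3000001) (nat_lit 113)) (.one (nat_lit 0x600000100400500601220080cb80c024611)) (.br (Nat.shiftLeft (nat_lit 0x1800000801) (nat_lit 102)) (.one (nat_lit 0x600000200300500601240060cb80c025601)) (.one (nat_lit 0x600000200400500601240080cb80c025601))))
def t119 : k119.all (jb2 57 fl b0) = true := by decide +kernel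
noncomputable def k120 : KT := (.br (Nat.shiftLeft (nat_lit 0x800000400801) (nat_lit 102)) (.br (Nat.shiftLeft (nat_lit 0x800001) (nat_lit 125)) (.br (Nat.shiftLeft (nat_lit 0x400000400801) (nat_lit 102)) (.br (Nat.shiftLeft (nat_lit 0x1) (nat_lit 148)) (.one (nat_lit 0x600000300400500601260080cb80c024611)) (.one (nat_lit 0x1000001002003005006012402640a02c424711))) (.br (Nat.shiftLeft (nat_lit 0x1000001003) (nat_lit 112)) (.one (nat_lit 0x1000001002004005006012402840a02c424711)) (.one (nat_lit 0x1000001003004005006012602840a02c424711)))) (.br (Nat.shiftLeft (nat_lit 0x401800000801) (nat_lit 102)) (.br (Nat.shiftLeft (nat_lit 0x401) (nat_lit 138)) (.one (nat_lit 0x1000002003004005006012602840a04c824711)) (.one (nat_lit 0x100600000200300500601240264cb80c024621))) (.br (Nat.shiftLeft (nat_lit 0x1) (nat_lit 149)) (.one (nat_lit 0x100600000200400500601240284cb80c024621)) (.one (nat_lit 0x2000001002003005006012404680a02c424711))))) (.br (Nat.shiftLeft (nat_lit 0x801800000801) (nat_lit 102)) (.br (Nat.shiftLeft (nat_lit 0x1000001)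 (nat_lit 125)) (.br (Nat.shiftLeft (nat_lit 0x2000001003) (nat_lit 112)) (.one (nat_lit 0x2000001002004005006012404880a02c424711)) (.one (nat_lit 0x2000001003004005006012604880a02c424711))) (.br (Nat.shiftLeft (nat_lit 0x801) (nat_lit 138)) (.one (nat_lit 0x2000002003004005006012604880a04c824711)) (.one (nat_lit 0x200600000200300500601240468cb80c024621)))) (.br (Nat.shiftLeft (nat_lit 0xc00000400801) (nat_lit 102)) (.br (Nat.shiftLeft (nat_lit 0x3) (nat_lit 148)) (.one (nat_lit 0x200600000200400500601240488cb80c024621)) (.one (nat_lit 0x30000010020030050060124066c0a02c424711))) (.br (Nat.shiftLeft (nat_lit 0x3000001003) (nat_lit 112)) (.one (nat_lit 0x30000010020040050060124068c0a02c424711)) (.br (Nat.shiftLeft (nat_lit 0x1800001) (nat_lit 125)) (.one (nat_lit 0x30000010030040050060126068c0a02c424711)) (.one (nat_lit 0x30000020030040050060126068c0a04c824711)))))))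
def t120 : k120.all (jb2 57 fl b0) = true := by decide +kernel
noncomputable def k121 : KT := (.br (Nat.shiftLeft (nat_lit 0x1000000400801) (nat_lit 102)) (.br (Nat.shiftLeft (nat_lit 0xc01800000801) (nat_lit 102)) (.one (nat_lit 0x30060000020030050060124066ccb80c024621)) (.br (Nat.shiftLeft (nat_lit 0x1) (nat_lit 150)) (.one (nat_lit 0x30060000020040050060124068ccb80c024621)) (.one (nat_lit 0x4000001002003005006012408700a02c424711)))) (.br (Nat.shiftLeft (nat_lit 0x4000001003) (nat_lit 112)) (.one (nat_lit 0x4000001002004005006012408900a02c424711)) (.br (Nat.shiftLeft (nat_lit 0x2000001) (nat_lit 125)) (.one (nat_lit 0x4000001003004005006012608900a02c424711)) (.one (nat_lit 0x4000002003004005006012608900a04c824711)))))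
def t121 : k121.all (jb2 57 fl b0) = true := by decide +kernel
noncomputable def k122 : KT := (.br (Nat.shiftLeft (nat_lit 0x1001800000801) (nat_lit 102)) (.one (nat_lit 0x400600000200300500601240870cb80c024621)) (.one (nat_lit 0x400600000200400500601240890cb80c024621)))
noncomputable def b123 : BT := .node (nat_lit 0x5) (nat_lit 0xde149b24d4003a98000aa6c19926d9a4d4003a59000ca6419632611398003a63000ab68100198001980013800138000d800078) .leaf .leaf
def t122 : k122.all (jb2 57 fl b123) = true := by decide +kernel
noncomputable def k123 : KT := (.one (nat_lit 0x500000100200300500601240a740a02c424711))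
noncomputable def b124 : BT := .node (nat_lit 0x3) (nat_lit 0x258c9cc935000cb60003299076c926a9924b194552c6001d0d00056ae00996c002653216f09304a2b23149aa704003a240008c6c0039db0008e5c200226001c60010b00050) .leaf .leaf
def t123 : k123.all (jb2 57 fl b124) = true := by decide +kernel
noncomputable def k124 : KT := (.one (nat_lit 0x500000100200400500601240a940a02c424711))
noncomputable def b125 : BT := .node (nat_lit 0x35) (nat_lit 0x12316d993040032990008b9819922a2264e462993708c8c4a2a935000cb6000b299004cb6000ab57002cc5c00a2db0e58ca88934918939926b2314b1a58c013356004c9680033170028b6c003299002ac6039c128a9684003a1a000ad5c1de127313952c699228a00265b000554d80065b000594c85bc29642a180074b20015ab8323149aa648003a1a0008d60191893993832317089511b664c24b180264b60091cb80156ae00156d00164ca00158c07231273168400399c000705c1e1127324d00032d8000aa681db228aa64800325b000ad5c100ad900ad900ad900ad900ad900ad900ad900a7800a7800a7800a7800a7800a7800a7800a7800a7800962009620096200962009620096200962009620096200962009620084c0084c007ec007ec007ec007ec00731007310073100731007310073100731006d1006d1006d1006700055900559005590055900559004f800498004980043800438)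 .leaf .leaf
def t124 : k124.all (jb2 57 fl b125) = true := by decide +kernel
noncomputable def k125 : KT := (.one (nat_lit 0x500000100300400500601260a940a02c424711))
noncomputable def b126 : BT := .node (nat_lit 0x2f) (nat_lit 0x378526a934000cb6000325a066489cc514000cb60003299064624bc49ac8c4ae69646f0a4d098400196c00045b60019ab000463400192d00055ca1ef095ccb42001d2c80047ae0ef0a6489cb2312b9a4d40032d8000aa6c0033950008b6c29189308a88001cf280037340ef0a64926800196c00065320ef0a648982de16d9a4d5382514260c8c5268de2000cb6000aa67006ca64013299000ca6400b226000c96800ab18124629934b1a58ca2a935918b6cc9832312a236cc0032d8004ac6000b317002ca640132990028b9800ab97000ab64400a5600a5600a5600a5600a5600a5600a5600a5600a5600a5600a56009f6009f6009f60099600996009960087f0087f0087f0081f0081f0081f0081f0081f0081f0081f0081f0081f0081f0081f0081f007640076400764007030070300703006a3006a3005320053200532003c0003c0003c0003c0003c0) .leaf .leaf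
def t125 : k125.all (jb2 57 fl b126) = true := by decide +kernel
noncomputable def k126 : KT := (.br (Nat.shiftLeft (nat_lit 0x1401) (nat_lit 138)) (.one (nat_lit 0x500000200300400500601260a940a04c824711)) (.one (nat_lit 0x500600000200300500601240a74cb80c024621)))
noncomputable def b127 : BT := .node (nat_lit 0xb) (nat_lit 0x9189399b6600158c80055b20c8c526a9c1918b6cc984de1273258e4625156f100174340051cb80155b200555300164b600158c001563200958c092c654428a000662e00194c832312b9a4d0002b97000ab6410038400323001b10015100151000f0000f0000f0000f0000f0000f0000f0) .leaf .leaf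
def t126 : k126.all (jb2 57 fl b127) = true := by decide +kernel
noncomputable def k127 : KT := (.br (Nat.shiftLeft (nat_lit 0x3) (nat_lit 149)) (.one (nat_lit 0x500600000200400500601240a94cb80c024621)) (.one (nat_lit 0x600000100200300500601240c780a02c425701)))
def t127 : k127.all (jb2 57 fl b0) = true := by decide +kernel
noncomputable def k128 : KT := (.one (nat_lit 0x600000100200400500601240c980a02c424711))
noncomputable def b129 : BT := .node (nat_lit 0x13) (nat_lit 0x4c91308ae2992273258c0039a7000ad5c0032d8000ca642918a4d532400192d80056300c9a92f498323149ab6cc0132d8002ca8c0032d8002ab642de249a9454003299000ad5c1003c7003c7003c7003c7003c7003c70030c0030c0030c0030c0030c0030c002ab001f0001f0001f0001f0001900019000190) .leaf .leaf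
def t128 : k128.all (jb2 57 fl b129) = true := by decide +kernel
noncomputable def k129 : KT := (.one (nat_lit 0x600000100300400500601260c980a02c424711))
noncomputable def b130 : BT := .node (nat_lit 0xb) (nat_lit 0x6f115c92c60019ab00055b20ed994552c6de12611684003317000ac600039680008f5c2de128aa70400329a000ad5c10026b0026b0026b0026b0026b0026b0020b0020b0020b00150000f0000f0) .leaf .leaf
def t129 : k129.all (jb2 57 fl b130) = true := by decide +kernel
noncomputable def k130 : KT := (.br (Nat.shiftLeft (nat_lit 0x1) (nat_lit 161)) (.br (Nat.shiftLeft (nat_lit 0x1) (nat_lit 160)) (.one (nat_lit 0x600000200300400500601260c980a04c824711)) (.one (nat_lit 0x100600000100200300500601244c780a02c628721))) (.br (Nat.shiftLeft (nat_lit 0x3) (nat_lit 160)) (.one (nat_lit 0x200600000100200300500601248c780a02c82c721)) (.one (nat_lit 0x30060000010020030050060124cc780a02ca30721))))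
noncomputable def b131 : BT := .node (nat_lit 0x1) (nat_lit 0x5a126114500039a6000ca6410008700028) .leaf .leaf
def t130 : k130.all (jb2 57 fl b131) = true := by decide +kernel
noncomputable def k131 : KT := (.br (Nat.shiftLeft (nat_lit 0x5) (nat_lit 160)) (.one (nat_lit 0x400600000100200300500601250c780a02cc34721)) (.one (nat_lit 0x500600000100200300500601254c780a02ce38721)))
noncomputable def b132 : BT := .node (nat_lit 0x3) (nat_lit 0x6f0b78926a00196c00064b60d1426092f4003a24000cb6010010f000af000af00050) .leaf .leaf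
def t131 : k131.all (jb2 57 fl b132) = true := by decide +kernel
noncomputable def s5 : KT := (.br (nat_lit 0x600000100300500601220060cb80c024611) (.br (nat_lit 0x2000001004005006012200804a80c024611) (.br (nat_lit 0x5000004005006012000800a0ad424511) (.br (nat_lit 0x1000005006012200000a00c024411) k107 (.br (nat_lit 0x4000005006012800000a00c024411) k108 k109)) (.br (nat_lit 0x6000003005006012000600a0cd824511) k110 (.br (nat_lit 0x1000003004005006012600802a40c024611) k111 k112))) (.br (nat_lit 0x500000200300500601240060ab40c024611) (.br (nat_lit 0x4000003004005006012600808b00c024611) k113 (.br (nat_lit 0x500000100400500601220080ab40c024611) k114 k115)) (.br (nat_lit 0x500000200400500601240080ab40c024611) k116 (.br (nat_lit 0x500000300400500601260080ab40c024611) k117 k118)))) (.br (nat_lit 0x500000100200400500601240a940a02c424711) (.br (nat_lit 0x4000002003004005006012608900a04c824711) (.br (nat_lit 0x600000200400500601240080cb80c025601) k119 (.br (nat_lit 0x30000020030040050060126068c0a04c824711) k120 k121)) (.br (nat_lit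 0x400600000200400500601240890cb80c024621) k122 (.br (nat_lit 0x500000100200300500601240a740a02c424711) k123 k124))) (.br (nat_lit 0x600000100200300500601240c780a02c425701) (.br (nat_lit 0x500000100300400500601260a940a02c424711) k125 (.br (nat_lit 0x500600000200300500601240a74cb80c024621) k126 k127)) (.br (nat_lit 0x600000100300400500601260c980a02c424711) (.br (nat_lit 0x600000100200400500601240c980a02c424711) k128 k129) (.br (nat_lit 0x30060000010020030050060124cc780a02ca30721) k130 k131)))))
noncomputable def u5 : KT := (.one (nat_lit 0x5006012000000a00c024430))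
def w5 : u5.all (wj 57 s5) = true := by decide +kernel
def o5 : OkW 57 (jb2 57 fl) u5 := .lift s5 _ (.br _ _ _ (.br _ _ _ (.br _ _ _ (.br _ _ _ (.leaf b0 k107 t107) (.br _ _ _ (.leaf b0 k108 t108) (.leaf b0 k109 t109))) (.br _ _ _ (.leaf b111 k110 t110) (.br _ _ _ (.leaf b0 k111 t111) (.leaf b113 k112 t112)))) (.br _ _ _ (.br _ _ _ (.leaf b0 k113 t113) (.br _ _ _ (.leaf b0 k114 t114) (.leaf b0 k115 t115))) (.br _ _ _ (.leaf b0 k116 t116) (.br _ _ _ (.leaf b0 k117 t117) (.leaf b119 k118 t118))))) (.br _ _ _ (.br _ _ _ (.br _ _ _ (.leaf b0 k119 t119) (.br _ _ _ (.leaf b0 k120 t120) (.leaf b0 k121 t121))) (.br _ _ _ (.leaf b123 k122 t122) (.br _ _ _ (.leaf b124 k123 t123) (.leaf b125 k124 t124)))) (.br _ _ _ (.br _ _ _ (.leaf b126 k125 t125) (.br _ _ _ (.leaf b127 k126 t126) (.leaf b0 k127 t127))) (.br _ _ _ (.br _ _ _ (.leaf b129 k128 t128) (.leaf b130 k129 t129)) (.br _ _ _ (.leaf b131 k130 t130) (.leaf b132 k131 t131)))))) w5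
noncomputable def k132 : KT := (.br (Nat.shiftLeft (nat_lit 0x3) (nat_lit 100)) (.br (Nat.shiftLeft (nat_lit 0x1) (nat_lit 101)) (.one (nat_lit 0x1005006013000200a00c026540)) (.one (nat_lit 0x2005006013000400a00c027500))) (.br (Nat.shiftLeft (nat_lit 0x1) (nat_lit 102)) (.one (nat_lit 0x3005006013000600a00c027500)) (.br (Nat.shiftLeft (nat_lit 0x1) (nat_lit 112)) (.one (nat_lit 0x4005006013000800a00c027500)) (.one (nat_lit 0x1000005006013200000a00c026411)))))
def t132 : k132.all (jb2 57 fl b0) = true := by decide +kernel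
noncomputable def k133 : KT := (.br (Nat.shiftLeft (nat_lit 0x801) (nat_lit 102)) (.br (Nat.shiftLeft (nat_lit 0x401) (nat_lit 102)) (.br (Nat.shiftLeft (nat_lit 0x1003) (nat_lit 100)) (.one (nat_lit 0x1002005006013200400a00c026650)) (.one (nat_lit 0x1003005006013200600a00c027600))) (.br (Nat.shiftLeft (nat_lit 0x1) (nat_lit 113)) (.one (nat_lit 0x1004005006013200800a00c027600)) (.br (Nat.shiftLeft (nat_lit 0x1001) (nat_lit 101)) (.one (nat_lit 0x2000005006013400000a00c026411)) (.one (nat_lit 0x2003005006013400600a00c027600))))) (.br (Nat.shiftLeft (nat_lit 0xc01) (nat_lit 102)) (.br (Nat.shiftLeft (nat_lit 0x3) (nat_lit 112)) (.one (nat_lit 0x2004005006013400800a00c027600)) (.one (nat_lit 0x3000005006013600000a00c026411))) (.br (Nat.shiftLeft (nat_lit 0x1) (nat_lit 114)) (.one (nat_lit 0x3004005006013600800a00c027600)) (.br (Nat.shiftLeft (nat_lit 0x5) (nat_lit 112)) (.one (nat_lit 0x4000005006013800000a00c026411)) (.one (nat_lit 0x5000005006013a00000a00c026411))))))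
def t133 : k133.all (jb2 57 fl b0) = true := by decide +kernel
noncomputable def k134 : KT := (.br (Nat.shiftLeft (nat_lit 0x1001) (nat_lit 113)) (.br (Nat.shiftLeft (nat_lit 0x400801) (nat_lit 102)) (.br (Nat.shiftLeft (nat_lit 0x1000003) (nat_lit 100)) (.br (Nat.shiftLeft (nat_lit 0x1) (nat_lit 124)) (.one (nat_lit 0x6000005006013c00000a00c026411)) (.one (nat_lit 0x1000002005006013000400a02c426511))) (.br (Nat.shiftLeft (nat_lit 0x400001) (nat_lit 102)) (.one (nat_lit 0x1000003005006013000600a02c426511)) (.br (Nat.shiftLeft (nat_lit 0x801) (nat_lit 113)) (.one (nat_lit 0x1000004005006013000800a02c426511)) (.one (nat_lit 0x1002003005006013400600a02c427700))))) (.br (Nat.shiftLeft (nat_lit 0x1) (nat_lit 125)) (.br (Nat.shiftLeft (nat_lit 0x1003) (nat_lit 112)) (.one (nat_lit 0x1002004005006013400800a02c427700)) (.one (nat_lit 0x1003004005006013600800a02c427700))) (.br (Nat.shiftLeft (nat_lit 0x2000003) (nat_lit 100)) (.one (nat_lit 0x2000002005006013000400a04c826511)) (.br (Nat.shiftLeft (nat_lit 0x800001) (nat_lit 102))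 (.one (nat_lit 0x2000003005006013000600a04c826511)) (.one (nat_lit 0x2000004005006013000800a04c826511)))))) (.br (Nat.shiftLeft (nat_lit 0x4000003) (nat_lit 100)) (.br (Nat.shiftLeft (nat_lit 0x3000003) (nat_lit 100)) (.br (Nat.shiftLeft (nat_lit 0x3) (nat_lit 124)) (.one (nat_lit 0x2003004005006013600800a04c827700)) (.one (nat_lit 0x3000002005006013000400a06cc26511))) (.br (Nat.shiftLeft (nat_lit 0xc00001) (nat_lit 102)) (.one (nat_lit 0x3000003005006013000600a06cc26511)) (.br (Nat.shiftLeft (nat_lit 0x1) (nat_lit 126)) (.one (nat_lit 0x3000004005006013000800a06cc26511)) (.one (nat_lit 0x4000002005006013000400a08d026511))))) (.br (Nat.shiftLeft (nat_lit 0x5) (nat_lit 124)) (.br (Nat.shiftLeft (nat_lit 0x1000001) (nat_lit 102)) (.one (nat_lit 0x4000003005006013000600a08d026511)) (.one (nat_lit 0x4000004005006013000800a08d026511))) (.br (Nat.shiftLeft (nat_lit 0x5000003) (nat_lit 100)) (.one (nat_lit 0x5000002005006013000400a0ad426511)) (.br (Nat.shiftLeft (nat_lit 0x1400001) (nat_lit 102)) (.one (nat_lit 0x5000003005006013000600a0ad426511))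 (.one (nat_lit 0x5000004005006013000800a0ad426511)))))))
def t134 : k134.all (jb2 57 fl b0) = true := by decide +kernel
noncomputable def k135 : KT := (.br (Nat.shiftLeft (nat_lit 0x6000003) (nat_lit 100)) (.one (nat_lit 0x6000002005006013000400a0cd826511)) (.one (nat_lit 0x6000003005006013000600a0cd826511)))
def t135 : k135.all (jb2 57 fl b0) = true := by decide +kernel
noncomputable def k136 : KT := (.br (Nat.shiftLeft (nat_lit 0x800001) (nat_lit 113)) (.br (Nat.shiftLeft (nat_lit 0x1) (nat_lit 136)) (.one (nat_lit 0x6000004005006013000800a0cd826511)) (.br (Nat.shiftLeft (nat_lit 0x400000401) (nat_lit 102)) (.one (nat_lit 0x1000001003005006013200602a40c026611)) (.one (nat_lit 0x1000001004005006013200802a40c026611)))) (.br (Nat.shiftLeft (nat_lit 0x400000801) (nat_lit 102)) (.one (nat_lit 0x1000002003005006013400602a40c026611)) (.br (Nat.shiftLeft (nat_lit 0x1000003) (nat_lit 112)) (.one (nat_lit 0x1000002004005006013400802a40c026611)) (.one (nat_lit 0x1000003004005006013600802a40c026611)))))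
def t136 : k136.all (jb2 57 fl b0) = true := by decide +kernel
noncomputable def k137 : KT := (.br (Nat.shiftLeft (nat_lit 0x2000003) (nat_lit 112)) (.br (Nat.shiftLeft (nat_lit 0x800000401) (nat_lit 102)) (.br (Nat.shiftLeft (nat_lit 0x1) (nat_lit 137)) (.one (nat_lit 0x1002003004005006013600802a44c826870)) (.one (nat_lit 0x2000001003005006013200604a80c026611))) (.br (Nat.shiftLeft (nat_lit 0x1000001) (nat_lit 113)) (.one (nat_lit 0x2000001004005006013200804a80c026611)) (.br (Nat.shiftLeft (nat_lit 0x800000801) (nat_lit 102)) (.one (nat_lit 0x2000002003005006013400604a80c026611)) (.one (nat_lit 0x2000002004005006013400804a80c026611))))) (.br (Nat.shiftLeft (nat_lit 0x1800001) (nat_lit 113)) (.br (Nat.shiftLeft (nat_lit 0x3) (nat_lit 136)) (.one (nat_lit 0x2000003004005006013600804a80c026611)) (.br (Nat.shiftLeft (nat_lit 0xc00000401) (nat_lit 102)) (.one (nat_lit 0x3000001003005006013200606ac0c026611)) (.one (nat_lit 0x3000001004005006013200806ac0c026611)))) (.br (Nat.shiftLeft (nat_lit 0xc00000801) (nat_lit 102)) (.one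 (nat_lit 0x3000002003005006013400606ac0c026611)) (.br (Nat.shiftLeft (nat_lit 0x3000003) (nat_lit 112)) (.one (nat_lit 0x3000002004005006013400806ac0c026611)) (.one (nat_lit 0x3000003004005006013600806ac0c026611))))))
def t137 : k137.all (jb2 57 fl b0) = true := by decide +kernel
noncomputable def k138 : KT := (.br (Nat.shiftLeft (nat_lit 0x2000001) (nat_lit 113)) (.br (Nat.shiftLeft (nat_lit 0x1000000401) (nat_lit 102)) (.one (nat_lit 0x4000001003005006013200608b00c026611)) (.one (nat_lit 0x4000001004005006013200808b00c026611))) (.br (Nat.shiftLeft (nat_lit 0x1000000801) (nat_lit 102)) (.one (nat_lit 0x4000002003005006013400608b00c026611)) (.br (Nat.shiftLeft (nat_lit 0x4000003) (nat_lit 112)) (.one (nat_lit 0x4000002004005006013400808b00c026611)) (.one (nat_lit 0x4000003004005006013600808b00c026611)))))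
def t138 : k138.all (jb2 57 fl b0) = true := by decide +kernel
noncomputable def k139 : KT := (.br (Nat.shiftLeft (nat_lit 0x1400000401) (nat_lit 102)) (.one (nat_lit 0x500000100300500601320060ab40c026611)) (.one (nat_lit 0x500000100400500601320080ab40c026611)))
def t139 : k139.all (jb2 57 fl b0) = true := by decide +kernel
noncomputable def k140 : KT := (.one (nat_lit 0x500000200300500601340060ab40c026611))
def t140 : k140.all (jb2 57 fl b0) = true := by decide +kernel
noncomputable def k141 : KT := (.br (Nat.shiftLeft (nat_lit 0x5000003) (nat_lit 112)) (.one (nat_lit 0x500000200400500601340080ab40c026611)) (.one (nat_lit 0x500000300400500601360080ab40c026611)))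
def t141 : k141.all (jb2 57 fl b0) = true := by decide +kernel
noncomputable def k142 : KT := (.one (nat_lit 0x600000100300500601320060cb80c026611))
def t142 : k142.all (jb2 57 fl b0) = true := by decide +kernel
noncomputable def k143 : KT := (.one (nat_lit 0x600000100400500601320080cb80c026611))
def t143 : k143.all (jb2 57 fl b0) = true := by decide +kernel
noncomputable def k144 : KT := (.one (nat_lit 0x600000200300500601340060cb80c026611))
def t144 : k144.all (jb2 57 fl b0) = true := by decide +kernel
noncomputable def k145 : KT := (.one (nat_lit 0x600000200400500601340080cb80c026611))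
def t145 : k145.all (jb2 57 fl b0) = true := by decide +kernel
noncomputable def k146 : KT := (.br (Nat.shiftLeft (nat_lit 0x2000001003) (nat_lit 112)) (.br (Nat.shiftLeft (nat_lit 0x1000001003) (nat_lit 112)) (.br (Nat.shiftLeft (nat_lit 0x1) (nat_lit 148)) (.one (nat_lit 0x600000300400500601360080cb80c026611)) (.br (Nat.shiftLeft (nat_lit 0x400000400801) (nat_lit 102)) (.one (nat_lit 0x1000001002003005006013402640a02c426711)) (.one (nat_lit 0x1000001002004005006013402840a02c426711)))) (.br (Nat.shiftLeft (nat_lit 0x1) (nat_lit 149)) (.br (Nat.shiftLeft (nat_lit 0x800001) (nat_lit 125)) (.one (nat_lit 0x1000001003004005006013602840a02c426711)) (.one (nat_lit 0x1000002003004005006013602840a04c826711))) (.br (Nat.shiftLeft (nat_lit 0x800000400801) (nat_lit 102)) (.one (nat_lit 0x2000001002003005006013404680a02c426711)) (.one (nat_lit 0x2000001002004005006013404880a02c426711))))) (.br (Nat.shiftLeft (nat_lit 0xc00000400801) (nat_lit 102)) (.br (Nat.shiftLeft (nat_lit 0x1000001) (nat_lit 125)) (.one (nat_lit 0x2000001003004005006013604880a02c426711))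 (.br (Nat.shiftLeft (nat_lit 0x3) (nat_lit 148)) (.one (nat_lit 0x2000002003004005006013604880a04c826711)) (.one (nat_lit 0x30000010020030050060134066c0a02c426711)))) (.br (Nat.shiftLeft (nat_lit 0x1800001) (nat_lit 125)) (.br (Nat.shiftLeft (nat_lit 0x3000001003) (nat_lit 112)) (.one (nat_lit 0x30000010020040050060134068c0a02c426711)) (.one (nat_lit 0x30000010030040050060136068c0a02c426711))) (.br (Nat.shiftLeft (nat_lit 0x1) (nat_lit 150)) (.one (nat_lit 0x30000020030040050060136068c0a04c826711)) (.one (nat_lit 0x4000001002003005006013408700a02c426711))))))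
def t146 : k146.all (jb2 57 fl b0) = true := by decide +kernel
noncomputable def k147 : KT := (.br (Nat.shiftLeft (nat_lit 0x2000001) (nat_lit 125)) (.br (Nat.shiftLeft (nat_lit 0x4000001003) (nat_lit 112)) (.one (nat_lit 0x4000001002004005006013408900a02c426711)) (.one (nat_lit 0x4000001003004005006013608900a02c426711))) (.br (Nat.shiftLeft (nat_lit 0x5) (nat_lit 148)) (.one (nat_lit 0x4000002003004005006013608900a04c826711)) (.one (nat_lit 0x500000100200300500601340a740a02c426711))))
noncomputable def b148 : BT := .node (nat_lit 0x3) (nat_lit 0xdb249aa704003a1a000ad5c1db249ab6cc0032d8000ca64100110000b00005000050) .leaf .leaf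
def t147 : k147.all (jb2 57 fl b148) = true := by decide +kernel
noncomputable def k148 : KT := (.one (nat_lit 0x500000100200400500601340a940a02c426711))
noncomputable def b149 : BT := .node (nat_lit 0x11) (nat_lit 0x91892f526b2312d0b7880032d80008b6c002bd5000ac60291894552c723128aa4d4002b19000ac600033170008b6c29924b1930c003299000c9981003400034000340003400034000340003400034000340003400034000340003400034000284001c80016800168) .leaf .leaf
def t148 : k148.all (jb2 57 fl b149) = true := by decide +kernel
noncomputable def k149 : KT := (.br (Nat.shiftLeft (nat_lit 0x2800001) (nat_lit 125)) (.one (nat_lit 0x500000100300400500601360a940a02c426711)) (.one (nat_lit 0x500000200300400500601360a940a04c826711)))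
noncomputable def b150 : BT := .node (nat_lit 0x1) (nat_lit 0x918a591382db228a9394003a1a0008e5c003317000aa6c2000e400028) .leaf .leaf
def t149 : k149.all (jb2 57 fl b150) = true := by decide +kernel
noncomputable def k150 : KT := (.one (nat_lit 0x600000100200300500601340c780a02c426711))
def t150 : k150.all (jb2 57 fl b0) = true := by decide +kernel
noncomputable def k151 : KT := (.one (nat_lit 0x600000100200400500601340c980a02c426711))
noncomputable def b152 : BT := .node (nat_lit 0x1) (nat_lit 0x12312b93788002b96000ac6010008900028) .leaf .leaf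
def t151 : k151.all (jb2 57 fl b152) = true := by decide +kernel
noncomputable def k152 : KT := (.br (Nat.shiftLeft (nat_lit 0x3000001) (nat_lit 125)) (.one (nat_lit 0x600000100300400500601360c980a02c426711)) (.one (nat_lit 0x600000200300400500601360c980a04c826711)))
def t152 : k152.all (jb2 57 fl b0) = true := by decide +kernel
noncomputable def s6 : KT := (.br (nat_lit 0x500000300400500601360080ab40c026611) (.br (nat_lit 0x1000003004005006013600802a40c026611) (.br (nat_lit 0x5000005006013a00000a00c026411) (.br (nat_lit 0x1000005006013200000a00c026411) k132 k133) (.br (nat_lit 0x5000004005006013000800a0ad426511) k134 (.br (nat_lit 0x6000003005006013000600a0cd826511) k135 k136))) (.br (nat_lit 0x4000003004005006013600808b00c026611) (.br (nat_lit 0x3000003004005006013600806ac0c026611) k137 k138) (.br (nat_lit 0x500000100400500601320080ab40c026611) k139 (.br (nat_lit 0x500000200300500601340060ab40c026611) k140 k141)))) (.br (nat_lit 0x4000001002003005006013408700a02c426711) (.br (nat_lit 0x600000100400500601320080cb80c026611)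 (.br (nat_lit 0x600000100300500601320060cb80c026611) k142 k143) (.br (nat_lit 0x600000200300500601340060cb80c026611) k144 (.br (nat_lit 0x600000200400500601340080cb80c026611) k145 k146))) (.br (nat_lit 0x500000200300400500601360a940a04c826711) (.br (nat_lit 0x500000100200300500601340a740a02c426711) k147 (.br (nat_lit 0x500000100200400500601340a940a02c426711) k148 k149)) (.br (nat_lit 0x600000100200300500601340c780a02c426711) k150 (.br (nat_lit 0x600000100200400500601340c980a02c426711) k151 k152)))))
noncomputable def u6 : KT := (.one (nat_lit 0x5006013000000a00c026430))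
def w6 : u6.all (wj 57 s6) = true := by decide +kernel
def o6 : OkW 57 (jb2 57 fl) u6 := .lift s6 _ (.br _ _ _ (.br _ _ _ (.br _ _ _ (.br _ _ _ (.leaf b0 k132 t132) (.leaf b0 k133 t133)) (.br _ _ _ (.leaf b0 k134 t134) (.br _ _ _ (.leaf b0 k135 t135) (.leaf b0 k136 t136)))) (.br _ _ _ (.br _ _ _ (.leaf b0 k137 t137) (.leaf b0 k138 t138)) (.br _ _ _ (.leaf b0 k139 t139) (.br _ _ _ (.leaf b0 k140 t140) (.leaf b0 k141 t141))))) (.br _ _ _ (.br _ _ _ (.br _ _ _ (.leaf b0 k142 t142) (.leaf b0 k143 t143)) (.br _ _ _ (.leaf b0 k144 t144) (.br _ _ _ (.leaf b0 k145 t145) (.leaf b0 k146 t146)))) (.br _ _ _ (.br _ _ _ (.leaf b148 k147 t147) (.br _ _ _ (.leaf b149 k148 t148) (.leaf b150 k149 t149))) (.br _ _ _ (.leaf b0 k150 t150) (.br _ _ _ (.leaf b152 k151 t151) (.leaf b0 k152 t152)))))) w6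
noncomputable def k153 : KT := (.br (Nat.shiftLeft (nat_lit 0x3) (nat_lit 100)) (.br (Nat.shiftLeft (nat_lit 0x1) (nat_lit 100)) (.one (nat_lit 0x5007014000000a00e029400)) (.br (Nat.shiftLeft (nat_lit 0x1) (nat_lit 101)) (.one (nat_lit 0x1005006014000200a00c028540)) (.one (nat_lit 0x2005006014000400a00c029500)))) (.br (Nat.shiftLeft (nat_lit 0x1) (nat_lit 102)) (.one (nat_lit 0x3005006014000600a00c029500)) (.br (Nat.shiftLeft (nat_lit 0x1) (nat_lit 112)) (.one (nat_lit 0x4005006014000800a00c029500)) (.one (nat_lit 0x1000005006014200000a00c028411)))))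
def t153 : k153.all (jb2 57 fl b0) = true := by decide +kernel
noncomputable def k154 : KT := (.br (Nat.shiftLeft (nat_lit 0xc01) (nat_lit 102)) (.br (Nat.shiftLeft (nat_lit 0x1) (nat_lit 113)) (.br (Nat.shiftLeft (nat_lit 0x1003) (nat_lit 100)) (.one (nat_lit 0x1002005006014200400a00c028650)) (.br (Nat.shiftLeft (nat_lit 0x401) (nat_lit 102)) (.one (nat_lit 0x1003005006014200600a00c029600)) (.one (nat_lit 0x1004005006014200800a00c029600)))) (.br (Nat.shiftLeft (nat_lit 0x801) (nat_lit 102)) (.br (Nat.shiftLeft (nat_lit 0x1001) (nat_lit 101)) (.one (nat_lit 0x2000005006014400000a00c028411)) (.one (nat_lit 0x2003005006014400600a00c029600))) (.br (Nat.shiftLeft (nat_lit 0x3) (nat_lit 112)) (.one (nat_lit 0x2004005006014400800a00c029600)) (.one (nat_lit 0x3000005006014600000a00c028411))))) (.br (Nat.shiftLeft (nat_lit 0x1) (nat_lit 124)) (.br (Nat.shiftLeft (nat_lit 0x5) (nat_lit 112)) (.br (Nat.shiftLeft (nat_lit 0x1) (nat_lit 114)) (.one (nat_lit 0x3004005006014600800a00c029600)) (.one (nat_lit 0x4000005006014800000a00c028411)))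 (.br (Nat.shiftLeft (nat_lit 0x3) (nat_lit 113)) (.one (nat_lit 0x5000005006014a00000a00c028411)) (.one (nat_lit 0x6000005006014c00000a00c028411)))) (.br (Nat.shiftLeft (nat_lit 0x400001) (nat_lit 102)) (.br (Nat.shiftLeft (nat_lit 0x1000003) (nat_lit 100)) (.one (nat_lit 0x1000002005006014000400a02c428511)) (.one (nat_lit 0x1000003005006014000600a02c428511))) (.br (Nat.shiftLeft (nat_lit 0x801) (nat_lit 113)) (.one (nat_lit 0x1000004005006014000800a02c428511)) (.one (nat_lit 0x1002003005006014400600a02c429700))))))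
def t154 : k154.all (jb2 57 fl b0) = true := by decide +kernel
noncomputable def k155 : KT := (.br (Nat.shiftLeft (nat_lit 0x2000003) (nat_lit 100)) (.br (Nat.shiftLeft (nat_lit 0x1003) (nat_lit 112)) (.one (nat_lit 0x1002004005006014400800a02c429700)) (.br (Nat.shiftLeft (nat_lit 0x1) (nat_lit 125)) (.one (nat_lit 0x1003004005006014600800a02c428760)) (.one (nat_lit 0x2000002005006014000400a04c828511)))) (.br (Nat.shiftLeft (nat_lit 0x800001) (nat_lit 102)) (.one (nat_lit 0x2000003005006014000600a04c828511)) (.br (Nat.shiftLeft (nat_lit 0x1001) (nat_lit 113)) (.one (nat_lit 0x2000004005006014000800a04c828511)) (.one (nat_lit 0x2003004005006014600800a04c829700)))))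
def t155 : k155.all (jb2 57 fl b0) = true := by decide +kernel
noncomputable def k156 : KT := (.br (Nat.shiftLeft (nat_lit 0x4000003) (nat_lit 100)) (.br (Nat.shiftLeft (nat_lit 0xc00001) (nat_lit 102)) (.br (Nat.shiftLeft (nat_lit 0x3000003) (nat_lit 100)) (.one (nat_lit 0x3000002005006014000400a06cc28511)) (.one (nat_lit 0x3000003005006014000600a06cc28511))) (.br (Nat.shiftLeft (nat_lit 0x1) (nat_lit 126)) (.one (nat_lit 0x3000004005006014000800a06cc28511)) (.one (nat_lit 0x4000002005006014000400a08d028511)))) (.br (Nat.shiftLeft (nat_lit 0x5) (nat_lit 124)) (.br (Nat.shiftLeft (nat_lit 0x1000001) (nat_lit 102)) (.one (nat_lit 0x4000003005006014000600a08d028511)) (.one (nat_lit 0x4000004005006014000800a08d028511))) (.br (Nat.shiftLeft (nat_lit 0x5000003) (nat_lit 100)) (.one (nat_lit 0x5000002005006014000400a0ad428511)) (.br (Nat.shiftLeft (nat_lit 0x1400001) (nat_lit 102)) (.one (nat_lit 0x5000003005006014000600a0ad428511)) (.one (nat_lit 0x5000004005006014000800a0ad428511))))))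
def t156 : k156.all (jb2 57 fl b0) = true := by decide +kernel
noncomputable def k157 : KT := (.br (Nat.shiftLeft (nat_lit 0x400000401) (nat_lit 102)) (.br (Nat.shiftLeft (nat_lit 0x1800001) (nat_lit 102)) (.br (Nat.shiftLeft (nat_lit 0x6000003) (nat_lit 100)) (.one (nat_lit 0x6000002005006014000400a0cd828511)) (.one (nat_lit 0x6000003005006014000600a0cd828511))) (.br (Nat.shiftLeft (nat_lit 0x1) (nat_lit 136)) (.one (nat_lit 0x6000004005006014000800a0cd828511)) (.one (nat_lit 0x1000001003005006014200602a40c028611)))) (.br (Nat.shiftLeft (nat_lit 0x400000801) (nat_lit 102)) (.br (Nat.shiftLeft (nat_lit 0x800001) (nat_lit 113)) (.one (nat_lit 0x1000001004005006014200802a40c028611)) (.one (nat_lit 0x1000002003005006014400602a40c028611))) (.br (Nat.shiftLeft (nat_lit 0x1000003) (nat_lit 112)) (.one (nat_lit 0x1000002004005006014400802a40c028611)) (.one (nat_lit 0x1000003004005006014600802a40c028611)))))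
def t157 : k157.all (jb2 57 fl b0) = true := by decide +kernel
noncomputable def k158 : KT := (.br (Nat.shiftLeft (nat_lit 0x3) (nat_lit 136)) (.br (Nat.shiftLeft (nat_lit 0x1000001) (nat_lit 113)) (.br (Nat.shiftLeft (nat_lit 0x1) (nat_lit 137)) (.one (nat_lit 0x1002003004005006014600802a44c828870)) (.br (Nat.shiftLeft (nat_lit 0x800000401) (nat_lit 102)) (.one (nat_lit 0x2000001003005006014200604a80c028611)) (.one (nat_lit 0x2000001004005006014200804a80c028611)))) (.br (Nat.shiftLeft (nat_lit 0x800000801) (nat_lit 102)) (.one (nat_lit 0x2000002003005006014400604a80c028611)) (.br (Nat.shiftLeft (nat_lit 0x2000003) (nat_lit 112)) (.one (nat_lit 0x2000002004005006014400804a80c028611)) (.one (nat_lit 0x2000003004005006014600804a80c028611))))) (.br (Nat.shiftLeft (nat_lit 0xc00000801) (nat_lit 102)) (.br (Nat.shiftLeft (nat_lit 0xc00000401) (nat_lit 102)) (.one (nat_lit 0x3000001003005006014200606ac0c028611)) (.br (Nat.shiftLeft (nat_lit 0x1800001) (nat_lit 113)) (.one (nat_lit 0x3000001004005006014200806ac0c028611)) (.one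 (nat_lit 0x3000002003005006014400606ac0c028611)))) (.br (Nat.shiftLeft (nat_lit 0x1) (nat_lit 138)) (.br (Nat.shiftLeft (nat_lit 0x3000003) (nat_lit 112)) (.one (nat_lit 0x3000002004005006014400806ac0c028611)) (.one (nat_lit 0x3000003004005006014600806ac0c028611))) (.br (Nat.shiftLeft (nat_lit 0x1000000401) (nat_lit 102)) (.one (nat_lit 0x4000001003005006014200608b00c028611)) (.one (nat_lit 0x4000001004005006014200808b00c028611))))))
def t158 : k158.all (jb2 57 fl b0) = true := by decide +kernel
noncomputable def k159 : KT := (.br (Nat.shiftLeft (nat_lit 0x4000003) (nat_lit 112)) (.br (Nat.shiftLeft (nat_lit 0x1000000801) (nat_lit 102)) (.one (nat_lit 0x4000002003005006014400608b00c028611)) (.one (nat_lit 0x4000002004005006014400808b00c028611))) (.br (Nat.shiftLeft (nat_lit 0x5) (nat_lit 136)) (.one (nat_lit 0x4000003004005006014600808b00c028611)) (.one (nat_lit 0x500000100300500601420060ab40c028611))))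
def t159 : k159.all (jb2 57 fl b0) = true := by decide +kernel
noncomputable def k160 : KT := (.br (Nat.shiftLeft (nat_lit 0x2800001) (nat_lit 113)) (.one (nat_lit 0x500000100400500601420080ab40c028611)) (.one (nat_lit 0x500000200300500601440060ab40c028611)))
def t160 : k160.all (jb2 57 fl b0) = true := by decide +kernel
noncomputable def k161 : KT := (.br (Nat.shiftLeft (nat_lit 0x5000003) (nat_lit 112)) (.one (nat_lit 0x500000200400500601440080ab40c028611)) (.one (nat_lit 0x500000300400500601460080ab40c028611)))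
def t161 : k161.all (jb2 57 fl b0) = true := by decide +kernel
noncomputable def k162 : KT := (.one (nat_lit 0x600000100300500601420060cb80c028611))
def t162 : k162.all (jb2 57 fl b0) = true := by decide +kernel
noncomputable def k163 : KT := (.one (nat_lit 0x600000100400500601420080cb80c028611))
def t163 : k163.all (jb2 57 fl b0) = true := by decide +kernel
noncomputable def k164 : KT := (.one (nat_lit 0x600000200300500601440060cb80c028611))
def t164 : k164.all (jb2 57 fl b0) = true := by decide +kernel
noncomputable def k165 : KT := (.one (nat_lit 0x600000200400500601440080cb80c028611))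
def t165 : k165.all (jb2 57 fl b0) = true := by decide +kernel
noncomputable def k166 : KT := (.br (Nat.shiftLeft (nat_lit 0x1000001) (nat_lit 125)) (.br (Nat.shiftLeft (nat_lit 0x800001) (nat_lit 125)) (.br (Nat.shiftLeft (nat_lit 0x1) (nat_lit 148)) (.one (nat_lit 0x600000300400500601460080cb80c028611)) (.br (Nat.shiftLeft (nat_lit 0x400000400801) (nat_lit 102)) (.one (nat_lit 0x1000001002003005006014402640a02c428711)) (.one (nat_lit 0x1000001002004005006014402840a02c428711)))) (.br (Nat.shiftLeft (nat_lit 0x1) (nat_lit 149)) (.one (nat_lit 0x1000002003004005006014602840a04c828711)) (.br (Nat.shiftLeft (nat_lit 0x800000400801) (nat_lit 102)) (.one (nat_lit 0x2000001002003005006014404680a02c428711)) (.one (nat_lit 0x2000001002004005006014404880a02c428711))))) (.br (Nat.shiftLeft (nat_lit 0x1800001) (nat_lit 125)) (.br (Nat.shiftLeft (nat_lit 0x3) (nat_lit 148)) (.one (nat_lit 0x2000002003004005006014604880a04c828711)) (.br (Nat.shiftLeft (nat_lit 0xc00000400801) (nat_lit 102)) (.one (nat_lit 0x30000010020030050060144066c0a02c428711))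 (.one (nat_lit 0x30000010020040050060144068c0a02c428711)))) (.br (Nat.shiftLeft (nat_lit 0x1000000400801) (nat_lit 102)) (.br (Nat.shiftLeft (nat_lit 0x1) (nat_lit 150)) (.one (nat_lit 0x30000020030040050060146068c0a04c828711)) (.one (nat_lit 0x4000001002003005006014408700a02c428711))) (.br (Nat.shiftLeft (nat_lit 0x2000001) (nat_lit 125)) (.one (nat_lit 0x4000001002004005006014408900a02c428711)) (.one (nat_lit 0x4000002003004005006014608900a04c828711))))))
def t166 : k166.all (jb2 57 fl b0) = true := by decide +kernel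
noncomputable def k167 : KT := (.br (Nat.shiftLeft (nat_lit 0x1400000400801) (nat_lit 102)) (.one (nat_lit 0x500000100200300500601440a740a02c428711)) (.one (nat_lit 0x500000100200400500601440a940a02c428711)))
noncomputable def b168 : BT := .node (nat_lit 0x1) (nat_lit 0xde14c913940032d8000aa6c10008800028) .leaf .leaf
def t167 : k167.all (jb2 57 fl b168) = true := by decide +kernel
noncomputable def k168 : KT := (.br (Nat.shiftLeft (nat_lit 0x3) (nat_lit 149)) (.one (nat_lit 0x500000200300400500601460a940a04c828711)) (.one (nat_lit 0x600000100200300500601440c780a02c428711)))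
def t168 : k168.all (jb2 57 fl b0) = true := by decide +kernel
noncomputable def k169 : KT := (.br (Nat.shiftLeft (nat_lit 0x3000001) (nat_lit 125)) (.one (nat_lit 0x600000100200400500601440c980a02c428711)) (.one (nat_lit 0x600000200300400500601460c980a04c828711)))
def t169 : k169.all (jb2 57 fl b0) = true := by decide +kernel
noncomputable def s7 : KT := (.br (nat_lit 0x500000200300500601440060ab40c028611) (.br (nat_lit 0x5000004005006014000800a0ad428511) (.br (nat_lit 0x1002003005006014400600a02c429700) (.br (nat_lit 0x1000005006014200000a00c028411) k153 k154) (.br (nat_lit 0x2003004005006014600800a04c829700) k155 k156)) (.br (nat_lit 0x4000001004005006014200808b00c028611) (.br (nat_lit 0x1000003004005006014600802a40c028611) k157 k158) (.br (nat_lit 0x500000100300500601420060ab40c028611) k159 k160))) (.br (nat_lit 0x600000200300500601440060cb80c028611) (.br (nat_lit 0x600000100300500601420060cb80c028611) (.br (nat_lit 0x500000300400500601460080ab40c028611) k161 k162) (.br (nat_lit 0x600000100400500601420080cb80c028611)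 k163 k164)) (.br (nat_lit 0x4000002003004005006014608900a04c828711) (.br (nat_lit 0x600000200400500601440080cb80c028611) k165 k166) (.br (nat_lit 0x500000100200400500601440a940a02c428711) k167 (.br (nat_lit 0x600000100200300500601440c780a02c428711) k168 k169)))))
noncomputable def u7 : KT := (.br (Nat.shiftLeft (nat_lit 0x5007) (nat_lit 76)) (.one (nat_lit 0x5006014000000a00c028430)) (.one (nat_lit 0x5007014000000a00e029400)))
def w7 : u7.all (wj 57 s7) = true := by decide +kernel
def o7 : OkW 57 (jb2 57 fl) u7 := .lift s7 _ (.br _ _ _ (.br _ _ _ (.br _ _ _ (.br _ _ _ (.leaf b0 k153 t153) (.leaf b0 k154 t154)) (.br _ _ _ (.leaf b0 k155 t155) (.leaf b0 k156 t156))) (.br _ _ _ (.br _ _ _ (.leaf b0 k157 t157) (.leaf b0 k158 t158)) (.br _ _ _ (.leaf b0 k159 t159) (.leaf b0 k160 t160)))) (.br _ _ _ (.br _ _ _ (.br _ _ _ (.leaf b0 k161 t161) (.leaf b0 k162 t162)) (.br _ _ _ (.leaf b0 k163 t163) (.leaf b0 k164 t164))) (.br _ _ _ (.br _ _ _ (.leaf b0 k165 t165) (.leaf b0 k166 t166)) (.br _ _ _ (.leaf b168 k167 t167) (.br _ _ _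 (.leaf b0 k168 t168) (.leaf b0 k169 t169)))))) w7
noncomputable def k170 : KT := (.br (Nat.shiftLeft (nat_lit 0x801) (nat_lit 102)) (.br (Nat.shiftLeft (nat_lit 0x1) (nat_lit 112)) (.br (Nat.shiftLeft (nat_lit 0x1) (nat_lit 101)) (.br (Nat.shiftLeft (nat_lit 0x1) (nat_lit 100)) (.one (nat_lit 0x5007015000000a00e02b400)) (.one (nat_lit 0x1005007015000200a00e02a540))) (.br (Nat.shiftLeft (nat_lit 0x3) (nat_lit 100)) (.one (nat_lit 0x2005007015000400a00e02b500)) (.br (Nat.shiftLeft (nat_lit 0x1) (nat_lit 102)) (.one (nat_lit 0x3005007015000600a00e02b500)) (.one (nat_lit 0x4005007015000800a00e02b500))))) (.br (Nat.shiftLeft (nat_lit 0x401) (nat_lit 102)) (.br (Nat.shiftLeft (nat_lit 0x801) (nat_lit 101)) (.one (nat_lit 0x1000005007015200000a00e02a411)) (.br (Nat.shiftLeft (nat_lit 0x1003) (nat_lit 100)) (.one (nat_lit 0x1002005007015200400a00e02b600)) (.one (nat_lit 0x1003005007015200600a00e02b600)))) (.br (Nat.shiftLeft (nat_lit 0x1) (nat_lit 113)) (.one (nat_lit 0x1004005007015200800a00e02b600)) (.br (Nat.shiftLeft (nat_lit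 0x1001) (nat_lit 101)) (.one (nat_lit 0x2000005007015400000a00e02a411)) (.one (nat_lit 0x2003005007015400600a00e02b600)))))) (.br (Nat.shiftLeft (nat_lit 0x7) (nat_lit 112)) (.br (Nat.shiftLeft (nat_lit 0x1) (nat_lit 114)) (.br (Nat.shiftLeft (nat_lit 0x3) (nat_lit 112)) (.one (nat_lit 0x2004005007015400800a00e02b600)) (.br (Nat.shiftLeft (nat_lit 0xc01) (nat_lit 102)) (.one (nat_lit 0x3000005007015600000a00e02a411)) (.one (nat_lit 0x3004005007015600800a00e02b600)))) (.br (Nat.shiftLeft (nat_lit 0x5) (nat_lit 112)) (.one (nat_lit 0x4000005007015800000a00e02a411)) (.br (Nat.shiftLeft (nat_lit 0x3) (nat_lit 113)) (.one (nat_lit 0x5000005007015a00000a00e02a411)) (.one (nat_lit 0x6000005007015c00000a00e02a411))))) (.br (Nat.shiftLeft (nat_lit 0x400001) (nat_lit 102)) (.br (Nat.shiftLeft (nat_lit 0x1) (nat_lit 124)) (.one (nat_lit 0x7000005007015e00000a00e02a411)) (.br (Nat.shiftLeft (nat_lit 0x1000003) (nat_lit 100)) (.one (nat_lit 0x1000002005007015000400a02e42a511)) (.one (nat_lit 0x1000003005007015000600a02e42a511)))) (.br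 (Nat.shiftLeft (nat_lit 0x801) (nat_lit 113)) (.one (nat_lit 0x1000004005007015000800a02e42a511)) (.br (Nat.shiftLeft (nat_lit 0x400801) (nat_lit 102)) (.one (nat_lit 0x1002003005007015400600a02e42b700)) (.one (nat_lit 0x1002004005007015400800a02e42b700)))))))
def t170 : k170.all (jb2 57 fl b0) = true := by decide +kernel
noncomputable def k171 : KT := (.br (Nat.shiftLeft (nat_lit 0x1001) (nat_lit 113)) (.br (Nat.shiftLeft (nat_lit 0x2000003) (nat_lit 100)) (.br (Nat.shiftLeft (nat_lit 0x1) (nat_lit 125)) (.one (nat_lit 0x1003004005007015600800a02e42a760)) (.one (nat_lit 0x2000002005007015000400a04e82a511))) (.br (Nat.shiftLeft (nat_lit 0x800001) (nat_lit 102)) (.one (nat_lit 0x2000003005007015000600a04e82a511)) (.one (nat_lit 0x2000004005007015000800a04e82a511)))) (.br (Nat.shiftLeft (nat_lit 0x3000003) (nat_lit 100)) (.br (Nat.shiftLeft (nat_lit 0x3) (nat_lit 124)) (.one (nat_lit 0x2003004005007015600800a04e82b700)) (.one (nat_lit 0x3000002005007015000400a06ec2a511))) (.br (Nat.shiftLeft (nat_lit 0xc00001) (nat_lit 102))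 (.one (nat_lit 0x3000003005007015000600a06ec2a511)) (.one (nat_lit 0x3000004005007015000800a06ec2a511)))))
def t171 : k171.all (jb2 57 fl b0) = true := by decide +kernel
noncomputable def k172 : KT := (.br (Nat.shiftLeft (nat_lit 0x5) (nat_lit 124)) (.br (Nat.shiftLeft (nat_lit 0x4000003) (nat_lit 100)) (.one (nat_lit 0x4000002005007015000400a08f02a511)) (.br (Nat.shiftLeft (nat_lit 0x1000001) (nat_lit 102)) (.one (nat_lit 0x4000003005007015000600a08f02a511)) (.one (nat_lit 0x4000004005007015000800a08f02a511)))) (.br (Nat.shiftLeft (nat_lit 0x5000003) (nat_lit 100)) (.one (nat_lit 0x5000002005007015000400a0af42a511)) (.br (Nat.shiftLeft (nat_lit 0x1400001) (nat_lit 102)) (.one (nat_lit 0x5000003005007015000600a0af42a511)) (.one (nat_lit 0x5000004005007015000800a0af42a511)))))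
def t172 : k172.all (jb2 57 fl b0) = true := by decide +kernel
noncomputable def k173 : KT := (.br (Nat.shiftLeft (nat_lit 0x6000003) (nat_lit 100)) (.one (nat_lit 0x6000002005007015000400a0cf82a511)) (.one (nat_lit 0x6000003005007015000600a0cf82a511)))
def t173 : k173.all (jb2 57 fl b0) = true := by decide +kernel
noncomputable def k174 : KT := (.br (Nat.shiftLeft (nat_lit 0x7) (nat_lit 124)) (.one (nat_lit 0x6000004005007015000800a0cf82a511)) (.one (nat_lit 0x7000002005007015000400a0efc2a511)))
def t174 : k174.all (jb2 57 fl b0) = true := by decide +kernel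
noncomputable def k175 : KT := (.br (Nat.shiftLeft (nat_lit 0x400000401) (nat_lit 102)) (.br (Nat.shiftLeft (nat_lit 0x1) (nat_lit 136)) (.br (Nat.shiftLeft (nat_lit 0x1c00001) (nat_lit 102)) (.one (nat_lit 0x7000003005007015000600a0efc2a511)) (.one (nat_lit 0x7000004005007015000800a0efc2a511))) (.br (Nat.shiftLeft (nat_lit 0x1000001003) (nat_lit 100)) (.one (nat_lit 0x1000001002005007015200402a40e02a611)) (.one (nat_lit 0x1000001003005007015200602a40e02a611)))) (.br (Nat.shiftLeft (nat_lit 0x400000801) (nat_lit 102)) (.br (Nat.shiftLeft (nat_lit 0x800001) (nat_lit 113)) (.one (nat_lit 0x1000001004005007015200802a40e02a611)) (.one (nat_lit 0x1000002003005007015400602a40e02a611))) (.br (Nat.shiftLeft (nat_lit 0x1000003) (nat_lit 112)) (.one (nat_lit 0x1000002004005007015400802a40e02a611)) (.one (nat_lit 0x1000003004005007015600802a40e02a611)))))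
def t175 : k175.all (jb2 57 fl b0) = true := by decide +kernel
noncomputable def k176 : KT := (.br (Nat.shiftLeft (nat_lit 0x3000001003) (nat_lit 100)) (.br (Nat.shiftLeft (nat_lit 0x1000001) (nat_lit 113)) (.br (Nat.shiftLeft (nat_lit 0x2000001003) (nat_lit 100)) (.br (Nat.shiftLeft (nat_lit 0x1) (nat_lit 137)) (.one (nat_lit 0x1002003004005007015600802a44e82a870)) (.one (nat_lit 0x2000001002005007015200404a80e02a611))) (.br (Nat.shiftLeft (nat_lit 0x800000401) (nat_lit 102)) (.one (nat_lit 0x2000001003005007015200604a80e02a611)) (.one (nat_lit 0x2000001004005007015200804a80e02a611)))) (.br (Nat.shiftLeft (nat_lit 0x2000003) (nat_lit 112)) (.br (Nat.shiftLeft (nat_lit 0x800000801) (nat_lit 102)) (.one (nat_lit 0x2000002003005007015400604a80e02a611)) (.one (nat_lit 0x2000002004005007015400804a80e02a611))) (.br (Nat.shiftLeft (nat_lit 0x3) (nat_lit 136)) (.one (nat_lit 0x2000003004005007015600804a80e02a611)) (.one (nat_lit 0x3000001002005007015200406ac0e02a611))))) (.br (Nat.shiftLeft (nat_lit 0x3000003) (nat_lit 112))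 (.br (Nat.shiftLeft (nat_lit 0x1800001) (nat_lit 113)) (.br (Nat.shiftLeft (nat_lit 0xc00000401) (nat_lit 102)) (.one (nat_lit 0x3000001003005007015200606ac0e02a611)) (.one (nat_lit 0x3000001004005007015200806ac0e02a611))) (.br (Nat.shiftLeft (nat_lit 0xc00000801) (nat_lit 102)) (.one (nat_lit 0x3000002003005007015400606ac0e02a611)) (.one (nat_lit 0x3000002004005007015400806ac0e02a611)))) (.br (Nat.shiftLeft (nat_lit 0x4000001003) (nat_lit 100)) (.br (Nat.shiftLeft (nat_lit 0x1) (nat_lit 138)) (.one (nat_lit 0x3000003004005007015600806ac0e02a611)) (.one (nat_lit 0x4000001002005007015200408b00e02a611))) (.br (Nat.shiftLeft (nat_lit 0x1000000401) (nat_lit 102)) (.one (nat_lit 0x4000001003005007015200608b00e02a611)) (.one (nat_lit 0x4000001004005007015200808b00e02a611))))))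
def t176 : k176.all (jb2 57 fl b0) = true := by decide +kernel
noncomputable def k177 : KT := (.br (Nat.shiftLeft (nat_lit 0x4000003) (nat_lit 112)) (.br (Nat.shiftLeft (nat_lit 0x1000000801) (nat_lit 102)) (.one (nat_lit 0x4000002003005007015400608b00e02a611)) (.one (nat_lit 0x4000002004005007015400808b00e02a611))) (.br (Nat.shiftLeft (nat_lit 0x5) (nat_lit 136)) (.one (nat_lit 0x4000003004005007015600808b00e02a611)) (.one (nat_lit 0x500000100200500701520040ab40e02a611))))
def t177 : k177.all (jb2 57 fl b0) = true := by decide +kernel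
noncomputable def k178 : KT := (.br (Nat.shiftLeft (nat_lit 0x1400000401) (nat_lit 102)) (.one (nat_lit 0x500000100300500701520060ab40e02a611)) (.one (nat_lit 0x500000100400500701520080ab40e02a611)))
def t178 : k178.all (jb2 57 fl b0) = true := by decide +kernel
noncomputable def k179 : KT := (.br (Nat.shiftLeft (nat_lit 0x1400000801) (nat_lit 102)) (.one (nat_lit 0x500000200300500701540060ab40e02a611)) (.one (nat_lit 0x500000200400500701540080ab40e02a611)))
def t179 : k179.all (jb2 57 fl b0) = true := by decide +kernel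
noncomputable def k180 : KT := (.br (Nat.shiftLeft (nat_lit 0x3) (nat_lit 137)) (.one (nat_lit 0x500000300400500701560080ab40e02a611)) (.one (nat_lit 0x600000100200500701520040cb80e02a611)))
def t180 : k180.all (jb2 57 fl b0) = true := by decide +kernel
noncomputable def k181 : KT := (.one (nat_lit 0x600000100300500701520060cb80e02a611))
def t181 : k181.all (jb2 57 fl b0) = true := by decide +kernel
noncomputable def k182 : KT := (.one (nat_lit 0x600000100400500701520080cb80e02a611))
def t182 : k182.all (jb2 57 fl b0) = true := by decide +kernel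
noncomputable def k183 : KT := (.one (nat_lit 0x600000200300500701540060cb80e02a611))
def t183 : k183.all (jb2 57 fl b0) = true := by decide +kernel
noncomputable def k184 : KT := (.br (Nat.shiftLeft (nat_lit 0x6000003) (nat_lit 112)) (.one (nat_lit 0x600000200400500701540080cb80e02a611)) (.one (nat_lit 0x600000300400500701560080cb80e02a611)))
def t184 : k184.all (jb2 57 fl b0) = true := by decide +kernel
noncomputable def k185 : KT := (.one (nat_lit 0x700000100200500701520040ebc0e02a611))
def t185 : k185.all (jb2 57 fl b0) = true := by decide +kernel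
noncomputable def k186 : KT := (.one (nat_lit 0x700000100300500701520060ebc0e02a611))
def t186 : k186.all (jb2 57 fl b0) = true := by decide +kernel
noncomputable def k187 : KT := (.br (Nat.shiftLeft (nat_lit 0x3800001) (nat_lit 113)) (.one (nat_lit 0x700000100400500701520080ebc0e02a611)) (.one (nat_lit 0x700000200300500701540060ebc0e02a611)))
def t187 : k187.all (jb2 57 fl b0) = true := by decide +kernel
noncomputable def k188 : KT := (.br (Nat.shiftLeft (nat_lit 0x800000400801) (nat_lit 102)) (.br (Nat.shiftLeft (nat_lit 0x400000400801) (nat_lit 102)) (.br (Nat.shiftLeft (nat_lit 0x7000003) (nat_lit 112)) (.one (nat_lit 0x700000200400500701540080ebc0e02a611)) (.br (Nat.shiftLeft (nat_lit 0x1) (nat_lit 148)) (.one (nat_lit 0x700000300400500701560080ebc0e02a611)) (.one (nat_lit 0x1000001002003005007015402640a02e42a711)))) (.br (Nat.shiftLeft (nat_lit 0x800001) (nat_lit 125)) (.one (nat_lit 0x1000001002004005007015402840a02e42a711)) (.br (Nat.shiftLeft (nat_lit 0x1) (nat_lit 149)) (.one (nat_lit 0x1000002003004005007015602840a04e82a711))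 (.one (nat_lit 0x2000001002003005007015404680a02e42a711))))) (.br (Nat.shiftLeft (nat_lit 0xc00000400801) (nat_lit 102)) (.br (Nat.shiftLeft (nat_lit 0x1000001) (nat_lit 125)) (.one (nat_lit 0x2000001002004005007015404880a02e42a711)) (.br (Nat.shiftLeft (nat_lit 0x3) (nat_lit 148)) (.one (nat_lit 0x2000002003004005007015604880a04e82a711)) (.one (nat_lit 0x30000010020030050070154066c0a02e42a711)))) (.br (Nat.shiftLeft (nat_lit 0x1) (nat_lit 150)) (.br (Nat.shiftLeft (nat_lit 0x1800001) (nat_lit 125)) (.one (nat_lit 0x30000010020040050070154068c0a02e42a711)) (.one (nat_lit 0x30000020030040050070156068c0a04e82a711))) (.br (Nat.shiftLeft (nat_lit 0x1000000400801) (nat_lit 102)) (.one (nat_lit 0x4000001002003005007015408700a02e42a711)) (.one (nat_lit 0x4000001002004005007015408900a02e42a711))))))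
def t188 : k188.all (jb2 57 fl b0) = true := by decide +kernel
noncomputable def k189 : KT := (.br (Nat.shiftLeft (nat_lit 0x5) (nat_lit 148)) (.one (nat_lit 0x4000002003004005007015608900a04e82a711)) (.br (Nat.shiftLeft (nat_lit 0x1400000400801) (nat_lit 102)) (.one (nat_lit 0x500000100200300500701540a740a02e42a711)) (.one (nat_lit 0x500000100200400500701540a940a02e42a711))))
def t189 : k189.all (jb2 57 fl b0) = true := by decide +kernel
noncomputable def k190 : KT := (.br (Nat.shiftLeft (nat_lit 0x3) (nat_lit 149)) (.one (nat_lit 0x500000200300400500701560a940a04e82a711)) (.one (nat_lit 0x600000100200300500701540c780a02e42a711)))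
def t190 : k190.all (jb2 57 fl b0) = true := by decide +kernel
noncomputable def k191 : KT := (.br (Nat.shiftLeft (nat_lit 0x3000001) (nat_lit 125)) (.one (nat_lit 0x600000100200400500701540c980a02e42a711)) (.br (Nat.shiftLeft (nat_lit 0x7) (nat_lit 148)) (.one (nat_lit 0x600000200300400500701560c980a04e82a711)) (.one (nat_lit 0x700000100200300500701540e7c0a02e42a711))))
def t191 : k191.all (jb2 57 fl b0) = true := by decide +kernel
noncomputable def k192 : KT := (.br (Nat.shiftLeft (nat_lit 0x3800001) (nat_lit 125)) (.one (nat_lit 0x700000100200400500701540e9c0a02e42a711)) (.one (nat_lit 0x700000200300400500701560e9c0a04e82a711)))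
def t192 : k192.all (jb2 57 fl b0) = true := by decide +kernel
noncomputable def s8 : KT := (.br (nat_lit 0x600000100200500701520040cb80e02a611) (.br (nat_lit 0x7000002005007015000400a0efc2a511) (.br (nat_lit 0x3000004005007015000800a06ec2a511) (.br (nat_lit 0x1002004005007015400800a02e42b700) k170 k171) (.br (nat_lit 0x5000004005007015000800a0af42a511) k172 (.br (nat_lit 0x6000003005007015000600a0cf82a511) k173 k174))) (.br (nat_lit 0x500000100200500701520040ab40e02a611) (.br (nat_lit 0x1000003004005007015600802a40e02a611) k175 (.br (nat_lit 0x4000001004005007015200808b00e02a611) k176 k177)) (.br (nat_lit 0x500000100400500701520080ab40e02a611) k178 (.br (nat_lit 0x500000200400500701540080ab40e02a611) k179 k180)))) (.br (nat_lit 0x700000100300500701520060ebc0e02a611) (.br (nat_lit 0x600000200300500701540060cb80e02a611) (.br (nat_lit 0x600000100300500701520060cb80e02a611) k181 (.br (nat_lit 0x600000100400500701520080cb80e02a611) k182 k183)) (.br (nat_lit 0x600000300400500701560080cb80e02a611) k184 (.br (nat_lit 0x700000100200500701520040ebc0e02a611)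 k185 k186))) (.br (nat_lit 0x500000100200400500701540a940a02e42a711) (.br (nat_lit 0x700000200300500701540060ebc0e02a611) k187 (.br (nat_lit 0x4000001002004005007015408900a02e42a711) k188 k189)) (.br (nat_lit 0x600000100200300500701540c780a02e42a711) k190 (.br (nat_lit 0x700000100200300500701540e7c0a02e42a711) k191 k192)))))
noncomputable def u8 : KT := (.one (nat_lit 0x5007015000000a00e02a430))
def w8 : u8.all (wj 57 s8) = true := by decide +kernel
def o8 : OkW 57 (jb2 57 fl) u8 := .lift s8 _ (.br _ _ _ (.br _ _ _ (.br _ _ _ (.br _ _ _ (.leaf b0 k170 t170) (.leaf b0 k171 t171)) (.br _ _ _ (.leaf b0 k172 t172) (.br _ _ _ (.leaf b0 k173 t173) (.leaf b0 k174 t174)))) (.br _ _ _ (.br _ _ _ (.leaf b0 k175 t175) (.br _ _ _ (.leaf b0 k176 t176) (.leaf b0 k177 t177))) (.br _ _ _ (.leaf b0 k178 t178) (.br _ _ _ (.leaf b0 k179 t179) (.leaf b0 k180 t180))))) (.br _ _ _ (.br _ _ _ (.br _ _ _ (.leaf b0 k181 t181) (.br _ _ _ (.leaf b0 k182 t182) (.leaf b0 k183 t183))) (.br _ _ _ (.leaf b0 k184 t184) (.br _ _ _ (.leaf b0 k185 t185)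 (.leaf b0 k186 t186)))) (.br _ _ _ (.br _ _ _ (.leaf b0 k187 t187) (.br _ _ _ (.leaf b0 k188 t188) (.leaf b0 k189 t189))) (.br _ _ _ (.leaf b0 k190 t190) (.br _ _ _ (.leaf b0 k191 t191) (.leaf b0 k192 t192)))))) w8
noncomputable def k193 : KT := (.br (Nat.shiftLeft (nat_lit 0x801) (nat_lit 102)) (.br (Nat.shiftLeft (nat_lit 0x1) (nat_lit 112)) (.br (Nat.shiftLeft (nat_lit 0x1) (nat_lit 101)) (.br (Nat.shiftLeft (nat_lit 0x1) (nat_lit 100)) (.one (nat_lit 0x5007016000000a00e02d400)) (.one (nat_lit 0x1005007016000200a00e02c540))) (.br (Nat.shiftLeft (nat_lit 0x3) (nat_lit 100)) (.one (nat_lit 0x2005007016000400a00e02d500)) (.br (Nat.shiftLeft (nat_lit 0x1) (nat_lit 102)) (.one (nat_lit 0x3005007016000600a00e02d500)) (.one (nat_lit 0x4005007016000800a00e02d500))))) (.br (Nat.shiftLeft (nat_lit 0x401) (nat_lit 102)) (.br (Nat.shiftLeft (nat_lit 0x801) (nat_lit 101)) (.one (nat_lit 0x1000005007016200000a00e02c411)) (.br (Nat.shiftLeft (nat_lit 0x1003) (nat_lit 100)) (.one (nat_lit 0x1002005007016200400a00e02d600)) (.one (nat_lit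 0x1003005007016200600a00e02d600)))) (.br (Nat.shiftLeft (nat_lit 0x1) (nat_lit 113)) (.one (nat_lit 0x1004005007016200800a00e02d600)) (.br (Nat.shiftLeft (nat_lit 0x1001) (nat_lit 101)) (.one (nat_lit 0x2000005007016400000a00e02c411)) (.one (nat_lit 0x2003005007016400600a00e02d600)))))) (.br (Nat.shiftLeft (nat_lit 0x3) (nat_lit 113)) (.br (Nat.shiftLeft (nat_lit 0xc01) (nat_lit 102)) (.br (Nat.shiftLeft (nat_lit 0x3) (nat_lit 112)) (.one (nat_lit 0x2004005007016400800a00e02d600)) (.one (nat_lit 0x3000005007016600000a00e02c411))) (.br (Nat.shiftLeft (nat_lit 0x1) (nat_lit 114)) (.one (nat_lit 0x3004005007016600800a00e02d600)) (.br (Nat.shiftLeft (nat_lit 0x5) (nat_lit 112)) (.one (nat_lit 0x4000005007016800000a00e02c411)) (.one (nat_lit 0x5000005007016a00000a00e02c411))))) (.br (Nat.shiftLeft (nat_lit 0x1000003) (nat_lit 100)) (.br (Nat.shiftLeft (nat_lit 0x7) (nat_lit 112)) (.one (nat_lit 0x6000005007016c00000a00e02c411)) (.br (Nat.shiftLeft (nat_lit 0x1) (nat_lit 124)) (.one (nat_lit 0x7000005007016e00000a00e02c411))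 (.one (nat_lit 0x1000002005007016000400a02e42c511)))) (.br (Nat.shiftLeft (nat_lit 0x400001) (nat_lit 102)) (.one (nat_lit 0x1000003005007016000600a02e42c511)) (.br (Nat.shiftLeft (nat_lit 0x801) (nat_lit 113)) (.one (nat_lit 0x1000004005007016000800a02e42c511)) (.one (nat_lit 0x1002003005007016400600a02e42d700)))))))
def t193 : k193.all (jb2 57 fl b0) = true := by decide +kernel
noncomputable def k194 : KT := (.one (nat_lit 0x1002004005007016400800a02e42c760))
def t194 : k194.all (jb2 57 fl b0) = true := by decide +kernel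
noncomputable def k195 : KT := (.br (Nat.shiftLeft (nat_lit 0x2000003) (nat_lit 100)) (.br (Nat.shiftLeft (nat_lit 0x1) (nat_lit 125)) (.one (nat_lit 0x1003004005007016600800a02e42c760)) (.one (nat_lit 0x2000002005007016000400a04e82c511))) (.br (Nat.shiftLeft (nat_lit 0x800001) (nat_lit 102)) (.one (nat_lit 0x2000003005007016000600a04e82c511)) (.one (nat_lit 0x2000004005007016000800a04e82c511))))
def t195 : k195.all (jb2 57 fl b0) = true := by decide +kernel
noncomputable def k196 : KT := (.br (Nat.shiftLeft (nat_lit 0x3000003) (nat_lit 100)) (.br (Nat.shiftLeft (nat_lit 0x3) (nat_lit 124)) (.one (nat_lit 0x2003004005007016600800a04e82c760)) (.one (nat_lit 0x3000002005007016000400a06ec2c511))) (.br (Nat.shiftLeft (nat_lit 0xc00001) (nat_lit 102)) (.one (nat_lit 0x3000003005007016000600a06ec2c511)) (.br (Nat.shiftLeft (nat_lit 0x1) (nat_lit 126)) (.one (nat_lit 0x3000004005007016000800a06ec2c511)) (.one (nat_lit 0x4000002005007016000400a08f02c511)))))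
def t196 : k196.all (jb2 57 fl b0) = true := by decide +kernel
noncomputable def k197 : KT := (.br (Nat.shiftLeft (nat_lit 0x5000003) (nat_lit 100)) (.br (Nat.shiftLeft (nat_lit 0x1000001) (nat_lit 102)) (.one (nat_lit 0x4000003005007016000600a08f02c511)) (.br (Nat.shiftLeft (nat_lit 0x5) (nat_lit 124)) (.one (nat_lit 0x4000004005007016000800a08f02c511)) (.one (nat_lit 0x5000002005007016000400a0af42c511)))) (.br (Nat.shiftLeft (nat_lit 0x1400001) (nat_lit 102)) (.one (nat_lit 0x5000003005007016000600a0af42c511)) (.br (Nat.shiftLeft (nat_lit 0x3) (nat_lit 125)) (.one (nat_lit 0x5000004005007016000800a0af42c511)) (.one (nat_lit 0x6000002005007016000400a0cf82c511)))))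
def t197 : k197.all (jb2 57 fl b0) = true := by decide +kernel
noncomputable def k198 : KT := (.br (Nat.shiftLeft (nat_lit 0x1800001) (nat_lit 102)) (.one (nat_lit 0x6000003005007016000600a0cf82c511)) (.br (Nat.shiftLeft (nat_lit 0x7) (nat_lit 124)) (.one (nat_lit 0x6000004005007016000800a0cf82c511)) (.one (nat_lit 0x7000002005007016000400a0efc2c511))))
def t198 : k198.all (jb2 57 fl b0) = true := by decide +kernel
noncomputable def k199 : KT := (.br (Nat.shiftLeft (nat_lit 0x1000001) (nat_lit 113)) (.br (Nat.shiftLeft (nat_lit 0x800001) (nat_lit 113)) (.br (Nat.shiftLeft (nat_lit 0x1) (nat_lit 136)) (.br (Nat.shiftLeft (nat_lit 0x1c00001) (nat_lit 102)) (.one (nat_lit 0x7000003005007016000600a0efc2c511)) (.one (nat_lit 0x7000004005007016000800a0efc2c511))) (.br (Nat.shiftLeft (nat_lit 0x1000001003) (nat_lit 100)) (.one (nat_lit 0x1000001002005007016200402a40e02c611)) (.br (Nat.shiftLeft (nat_lit 0x400000401) (nat_lit 102)) (.one (nat_lit 0x1000001003005007016200602a40e02c611)) (.one (nat_lit 0x1000001004005007016200802a40e02c611)))))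 (.br (Nat.shiftLeft (nat_lit 0x1) (nat_lit 137)) (.br (Nat.shiftLeft (nat_lit 0x400000801) (nat_lit 102)) (.one (nat_lit 0x1000002003005007016400602a40e02c611)) (.br (Nat.shiftLeft (nat_lit 0x1000003) (nat_lit 112)) (.one (nat_lit 0x1000002004005007016400802a40e02c611)) (.one (nat_lit 0x1000003004005007016600802a40e02c611)))) (.br (Nat.shiftLeft (nat_lit 0x2000001003) (nat_lit 100)) (.one (nat_lit 0x2000001002005007016200404a80e02c611)) (.br (Nat.shiftLeft (nat_lit 0x800000401) (nat_lit 102)) (.one (nat_lit 0x2000001003005007016200604a80e02c611)) (.one (nat_lit 0x2000001004005007016200804a80e02c611)))))) (.br (Nat.shiftLeft (nat_lit 0xc00000401) (nat_lit 102)) (.br (Nat.shiftLeft (nat_lit 0x2000003) (nat_lit 112)) (.br (Nat.shiftLeft (nat_lit 0x800000801) (nat_lit 102)) (.one (nat_lit 0x2000002003005007016400604a80e02c611)) (.one (nat_lit 0x2000002004005007016400804a80e02c611))) (.br (Nat.shiftLeft (nat_lit 0x3) (nat_lit 136)) (.one (nat_lit 0x2000003004005007016600804a80e02c611)) (.br (Nat.shiftLeft (nat_lit 0x3000001003)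 (nat_lit 100)) (.one (nat_lit 0x3000001002005007016200406ac0e02c611)) (.one (nat_lit 0x3000001003005007016200606ac0e02c611))))) (.br (Nat.shiftLeft (nat_lit 0x3000003) (nat_lit 112)) (.br (Nat.shiftLeft (nat_lit 0x1800001) (nat_lit 113)) (.one (nat_lit 0x3000001004005007016200806ac0e02c611)) (.br (Nat.shiftLeft (nat_lit 0xc00000801) (nat_lit 102)) (.one (nat_lit 0x3000002003005007016400606ac0e02c611)) (.one (nat_lit 0x3000002004005007016400806ac0e02c611)))) (.br (Nat.shiftLeft (nat_lit 0x1) (nat_lit 138)) (.one (nat_lit 0x3000003004005007016600806ac0e02c611)) (.br (Nat.shiftLeft (nat_lit 0x4000001003) (nat_lit 100)) (.one (nat_lit 0x4000001002005007016200408b00e02c611)) (.one (nat_lit 0x4000001003005007016200608b00e02c611)))))))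
def t199 : k199.all (jb2 57 fl b0) = true := by decide +kernel
noncomputable def k200 : KT := (.br (Nat.shiftLeft (nat_lit 0x1000000801) (nat_lit 102)) (.br (Nat.shiftLeft (nat_lit 0x2000001) (nat_lit 113)) (.one (nat_lit 0x4000001004005007016200808b00e02c611)) (.one (nat_lit 0x4000002003005007016400608b00e02c611))) (.br (Nat.shiftLeft (nat_lit 0x4000003) (nat_lit 112)) (.one (nat_lit 0x4000002004005007016400808b00e02c611)) (.br (Nat.shiftLeft (nat_lit 0x5) (nat_lit 136)) (.one (nat_lit 0x4000003004005007016600808b00e02c611)) (.one (nat_lit 0x500000100200500701620040ab40e02c611)))))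
def t200 : k200.all (jb2 57 fl b0) = true := by decide +kernel
noncomputable def k201 : KT := (.br (Nat.shiftLeft (nat_lit 0x1400000401) (nat_lit 102)) (.one (nat_lit 0x500000100300500701620060ab40e02c611)) (.br (Nat.shiftLeft (nat_lit 0x2800001) (nat_lit 113)) (.one (nat_lit 0x500000100400500701620080ab40e02c611)) (.one (nat_lit 0x500000200300500701640060ab40e02c611))))
def t201 : k201.all (jb2 57 fl b0) = true := by decide +kernel
noncomputable def k202 : KT := (.br (Nat.shiftLeft (nat_lit 0x5000003) (nat_lit 112)) (.one (nat_lit 0x500000200400500701640080ab40e02c611)) (.br (Nat.shiftLeft (nat_lit 0x3) (nat_lit 137)) (.one (nat_lit 0x500000300400500701660080ab40e02c611)) (.one (nat_lit 0x600000100200500701620040cb80e02c611))))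
def t202 : k202.all (jb2 57 fl b0) = true := by decide +kernel
noncomputable def k203 : KT := (.br (Nat.shiftLeft (nat_lit 0x1800000401) (nat_lit 102)) (.one (nat_lit 0x600000100300500701620060cb80e02c611)) (.one (nat_lit 0x600000100400500701620080cb80e02c611)))
def t203 : k203.all (jb2 57 fl b0) = true := by decide +kernel
noncomputable def k204 : KT := (.br (Nat.shiftLeft (nat_lit 0x1800000801) (nat_lit 102)) (.one (nat_lit 0x600000200300500701640060cb80e02c611)) (.br (Nat.shiftLeft (nat_lit 0x6000003) (nat_lit 112)) (.one (nat_lit 0x600000200400500701640080cb80e02c611)) (.one (nat_lit 0x600000300400500701660080cb80e02c611))))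
def t204 : k204.all (jb2 57 fl b0) = true := by decide +kernel
noncomputable def k205 : KT := (.br (Nat.shiftLeft (nat_lit 0x7000001003) (nat_lit 100)) (.one (nat_lit 0x700000100200500701620040ebc0e02c611)) (.one (nat_lit 0x700000100300500701620060ebc0e02c611)))
def t205 : k205.all (jb2 57 fl b0) = true := by decide +kernel
noncomputable def k206 : KT := (.br (Nat.shiftLeft (nat_lit 0x3800001) (nat_lit 113)) (.one (nat_lit 0x700000100400500701620080ebc0e02c611)) (.br (Nat.shiftLeft (nat_lit 0x1c00000801) (nat_lit 102)) (.one (nat_lit 0x700000200300500701640060ebc0e02c611)) (.one (nat_lit 0x700000200400500701640080ebc0e02c611))))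
def t206 : k206.all (jb2 57 fl b0) = true := by decide +kernel
noncomputable def k207 : KT := (.br (Nat.shiftLeft (nat_lit 0x3) (nat_lit 148)) (.br (Nat.shiftLeft (nat_lit 0x1) (nat_lit 148)) (.one (nat_lit 0x700000300400500701660080ebc0e02c611)) (.br (Nat.shiftLeft (nat_lit 0x1) (nat_lit 149)) (.one (nat_lit 0x1000001002003005007016402640a02e42c711)) (.one (nat_lit 0x2000001002003005007016404680a02e42c711)))) (.br (Nat.shiftLeft (nat_lit 0x5) (nat_lit 148)) (.br (Nat.shiftLeft (nat_lit 0x1) (nat_lit 150)) (.one (nat_lit 0x30000010020030050070164066c0a02e42c711)) (.one (nat_lit 0x4000001002003005007016408700a02e42c711))) (.br (Nat.shiftLeft (nat_lit 0x3) (nat_lit 149)) (.one (nat_lit 0x500000100200300500701640a740a02e42c711)) (.one (nat_lit 0x600000100200300500701640c780a02e42c711)))))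
def t207 : k207.all (jb2 57 fl b0) = true := by decide +kernel
noncomputable def k208 : KT := (.one (nat_lit 0x700000100200300500701640e7c0a02e42c711))
def t208 : k208.all (jb2 57 fl b0) = true := by decide +kernel
noncomputable def s9 : KT := (.br (nat_lit 0x500000100200500701620040ab40e02c611) (.br (nat_lit 0x4000002005007016000400a08f02c511) (.br (nat_lit 0x1002004005007016400800a02e42c760) (.br (nat_lit 0x1002003005007016400600a02e42d700) k193 k194) (.br (nat_lit 0x2000004005007016000800a04e82c511) k195 k196)) (.br (nat_lit 0x7000002005007016000400a0efc2c511) (.br (nat_lit 0x6000002005007016000400a0cf82c511) k197 k198) (.br (nat_lit 0x4000001003005007016200608b00e02c611) k199 k200))) (.br (nat_lit 0x600000300400500701660080cb80e02c611) (.br (nat_lit 0x600000100200500701620040cb80e02c611) (.br (nat_lit 0x500000200300500701640060ab40e02c611) k201 k202) (.br (nat_lit 0x600000100400500701620080cb80e02c611) k203 k204)) (.br (nat_lit 0x700000200400500701640080ebc0e02c611) (.br (nat_lit 0x700000100300500701620060ebc0e02c611)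 k205 k206) (.br (nat_lit 0x600000100200300500701640c780a02e42c711) k207 k208))))
noncomputable def u9 : KT := (.one (nat_lit 0x5007016000000a00e02c430))
def w9 : u9.all (wj 57 s9) = true := by decide +kernel
def o9 : OkW 57 (jb2 57 fl) u9 := .lift s9 _ (.br _ _ _ (.br _ _ _ (.br _ _ _ (.br _ _ _ (.leaf b0 k193 t193) (.leaf b0 k194 t194)) (.br _ _ _ (.leaf b0 k195 t195) (.leaf b0 k196 t196))) (.br _ _ _ (.br _ _ _ (.leaf b0 k197 t197) (.leaf b0 k198 t198)) (.br _ _ _ (.leaf b0 k199 t199) (.leaf b0 k200 t200)))) (.br _ _ _ (.br _ _ _ (.br _ _ _ (.leaf b0 k201 t201) (.leaf b0 k202 t202)) (.br _ _ _ (.leaf b0 k203 t203) (.leaf b0 k204 t204))) (.br _ _ _ (.br _ _ _ (.leaf b0 k205 t205) (.leaf b0 k206 t206)) (.br _ _ _ (.leaf b0 k207 t207) (.leaf b0 k208 t208))))) w9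
noncomputable def k209 : KT := (.br (Nat.shiftLeft (nat_lit 0x3) (nat_lit 100)) (.br (Nat.shiftLeft (nat_lit 0x200a00e03) (nat_lit 67)) (.br (Nat.shiftLeft (nat_lit 0xa00e03) (nat_lit 67)) (.one (nat_lit 0x5007017000000a00e02f400)) (.br (Nat.shiftLeft (nat_lit 0x1) (nat_lit 100)) (.one (nat_lit 0x5007018000000a00e031400)) (.one (nat_lit 0x1005007017000200a00e02e540)))) (.br (Nat.shiftLeft (nat_lit 0x1) (nat_lit 101)) (.one (nat_lit 0x1005007018000200a00e030540)) (.br (Nat.shiftLeft (nat_lit 0x400a00e03) (nat_lit 67)) (.one (nat_lit 0x2005007017000400a00e02f500)) (.one (nat_lit 0x2005007018000400a00e031500))))) (.br (Nat.shiftLeft (nat_lit 0x800a00e03) (nat_lit 67)) (.br (Nat.shiftLeft (nat_lit 0x600a00e03) (nat_lit 67)) (.one (nat_lit 0x3005007017000600a00e02f500)) (.br (Nat.shiftLeft (nat_lit 0x1) (nat_lit 102)) (.one (nat_lit 0x3005007018000600a00e031500)) (.one (nat_lit 0x4005007017000800a00e02f500)))) (.br (Nat.shiftLeft (nat_lit 0x200000a00e03) (nat_lit 67)) (.br (Nat.shiftLeft (nat_lit 0x1) (nat_lit 112)) (.one (nat_lit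 0x4005007018000800a00e031500)) (.one (nat_lit 0x1000005007017200000a00e02e411))) (.br (Nat.shiftLeft (nat_lit 0x801) (nat_lit 101)) (.one (nat_lit 0x1000005007018200000a00e030411)) (.one (nat_lit 0x1002005007017200400a00e02f600))))))
def t209 : k209.all (jb2 57 fl b0) = true := by decide +kernel
noncomputable def k210 : KT := (.br (Nat.shiftLeft (nat_lit 0x1003) (nat_lit 100)) (.one (nat_lit 0x1002005007018200400a00e030650)) (.one (nat_lit 0x1003005007017200600a00e02f600)))
def t210 : k210.all (jb2 57 fl b0) = true := by decide +kernel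
noncomputable def k211 : KT := (.one (nat_lit 0x1003005007018200600a00e030650))
def t211 : k211.all (jb2 57 fl b0) = true := by decide +kernel
noncomputable def k212 : KT := (.one (nat_lit 0x1004005007017200800a00e02e650))
def t212 : k212.all (jb2 57 fl b0) = true := by decide +kernel
noncomputable def k213 : KT := (.br (Nat.shiftLeft (nat_lit 0xc01) (nat_lit 102)) (.br (Nat.shiftLeft (nat_lit 0x400600a00e03) (nat_lit 67)) (.br (Nat.shiftLeft (nat_lit 0x400000a00e03) (nat_lit 67)) (.br (Nat.shiftLeft (nat_lit 0x1) (nat_lit 113)) (.one (nat_lit 0x1004005007018200800a00e030650)) (.one (nat_lit 0x2000005007017400000a00e02e411))) (.br (Nat.shiftLeft (nat_lit 0x1001) (nat_lit 101)) (.one (nat_lit 0x2000005007018400000a00e030411)) (.one (nat_lit 0x2003005007017400600a00e02f600)))) (.br (Nat.shiftLeft (nat_lit 0x400800a00e03) (nat_lit 67)) (.br (Nat.shiftLeft (nat_lit 0x801) (nat_lit 102)) (.one (nat_lit 0x2003005007018400600a00e031600)) (.one (nat_lit 0x2004005007017400800a00e02f600))) (.br (Nat.shiftLeft (nat_lit 0x3) (nat_lit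 112)) (.one (nat_lit 0x2004005007018400800a00e031600)) (.br (Nat.shiftLeft (nat_lit 0x600000a00e03) (nat_lit 67)) (.one (nat_lit 0x3000005007017600000a00e02e411)) (.one (nat_lit 0x3000005007018600000a00e030411)))))) (.br (Nat.shiftLeft (nat_lit 0x5) (nat_lit 112)) (.br (Nat.shiftLeft (nat_lit 0x1) (nat_lit 114)) (.br (Nat.shiftLeft (nat_lit 0x600800a00e03) (nat_lit 67)) (.one (nat_lit 0x3004005007017600800a00e02f600)) (.one (nat_lit 0x3004005007018600800a00e031600))) (.br (Nat.shiftLeft (nat_lit 0x800000a00e03) (nat_lit 67)) (.one (nat_lit 0x4000005007017800000a00e02e411)) (.one (nat_lit 0x4000005007018800000a00e030411)))) (.br (Nat.shiftLeft (nat_lit 0x3) (nat_lit 113)) (.br (Nat.shiftLeft (nat_lit 0xa00000a00e03) (nat_lit 67)) (.one (nat_lit 0x5000005007017a00000a00e02e411)) (.one (nat_lit 0x5000005007018a00000a00e030411))) (.br (Nat.shiftLeft (nat_lit 0xc00000a00e03) (nat_lit 67)) (.one (nat_lit 0x6000005007017c00000a00e02e411)) (.br (Nat.shiftLeft (nat_lit 0x7) (nat_lit 112)) (.one (nat_lit 0x6000005007018c00000a00e030411))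 (.one (nat_lit 0x7000005007017e00000a00e02e411)))))))
def t213 : k213.all (jb2 57 fl b0) = true := by decide +kernel
noncomputable def k214 : KT := (.br (Nat.shiftLeft (nat_lit 0x200000600a00e03) (nat_lit 67)) (.br (Nat.shiftLeft (nat_lit 0x200000400a00e03) (nat_lit 67)) (.br (Nat.shiftLeft (nat_lit 0x1) (nat_lit 124)) (.one (nat_lit 0x7000005007018e00000a00e030411)) (.one (nat_lit 0x1000002005007017000400a02e42e511))) (.br (Nat.shiftLeft (nat_lit 0x1000003) (nat_lit 100)) (.one (nat_lit 0x1000002005007018000400a02e430511)) (.one (nat_lit 0x1000003005007017000600a02e42e511)))) (.br (Nat.shiftLeft (nat_lit 0x200000800a00e03) (nat_lit 67)) (.br (Nat.shiftLeft (nat_lit 0x400001) (nat_lit 102)) (.one (nat_lit 0x1000003005007018000600a02e430511)) (.one (nat_lit 0x1000004005007017000800a02e42e511))) (.br (Nat.shiftLeft (nat_lit 0x801) (nat_lit 113)) (.one (nat_lit 0x1000004005007018000800a02e430511)) (.one (nat_lit 0x1002003005007017400600a02e42e760)))))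
def t214 : k214.all (jb2 57 fl b0) = true := by decide +kernel
noncomputable def k215 : KT := (.one (nat_lit 0x1002003005007018400600a02e430760))
def t215 : k215.all (jb2 57 fl b0) = true := by decide +kernel
noncomputable def k216 : KT := (.one (nat_lit 0x1002004005007017400800a02e42e760))
def t216 : k216.all (jb2 57 fl b0) = true := by decide +kernel
noncomputable def k217 : KT := (.br (Nat.shiftLeft (nat_lit 0x1003) (nat_lit 112)) (.one (nat_lit 0x1002004005007018400800a02e430760)) (.one (nat_lit 0x1003004005007017600800a02e42e760)))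
def t217 : k217.all (jb2 57 fl b0) = true := by decide +kernel
noncomputable def k218 : KT := (.br (Nat.shiftLeft (nat_lit 0x400000600a00e03) (nat_lit 67)) (.br (Nat.shiftLeft (nat_lit 0x400000400a00e03) (nat_lit 67)) (.br (Nat.shiftLeft (nat_lit 0x1) (nat_lit 125)) (.one (nat_lit 0x1003004005007018600800a02e430760)) (.one (nat_lit 0x2000002005007017000400a04e82e511))) (.br (Nat.shiftLeft (nat_lit 0x2000003) (nat_lit 100)) (.one (nat_lit 0x2000002005007018000400a04e830511)) (.one (nat_lit 0x2000003005007017000600a04e82e511)))) (.br (Nat.shiftLeft (nat_lit 0x400000800a00e03) (nat_lit 67)) (.br (Nat.shiftLeft (nat_lit 0x800001) (nat_lit 102)) (.one (nat_lit 0x2000003005007018000600a04e830511)) (.one (nat_lit 0x2000004005007017000800a04e82e511))) (.br (Nat.shiftLeft (nat_lit 0x1001) (nat_lit 113)) (.one (nat_lit 0x2000004005007018000800a04e830511)) (.one (nat_lit 0x2003004005007017600800a04e82e760)))))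
def t218 : k218.all (jb2 57 fl b0) = true := by decide +kernel
noncomputable def k219 : KT := (.br (Nat.shiftLeft (nat_lit 0x600000800a00e03) (nat_lit 67)) (.br (Nat.shiftLeft (nat_lit 0x3000003) (nat_lit 100)) (.br (Nat.shiftLeft (nat_lit 0x3) (nat_lit 124)) (.one (nat_lit 0x2003004005007018600800a04e830760)) (.br (Nat.shiftLeft (nat_lit 0x600000400a00e03) (nat_lit 67)) (.one (nat_lit 0x3000002005007017000400a06ec2e511)) (.one (nat_lit 0x3000002005007018000400a06ec30511)))) (.br (Nat.shiftLeft (nat_lit 0x600000600a00e03) (nat_lit 67)) (.one (nat_lit 0x3000003005007017000600a06ec2e511)) (.br (Nat.shiftLeft (nat_lit 0xc00001) (nat_lit 102)) (.one (nat_lit 0x3000003005007018000600a06ec30511)) (.one (nat_lit 0x3000004005007017000800a06ec2e511))))) (.br (Nat.shiftLeft (nat_lit 0x4000003) (nat_lit 100)) (.br (Nat.shiftLeft (nat_lit 0x1) (nat_lit 126)) (.one (nat_lit 0x3000004005007018000800a06ec30511)) (.br (Nat.shiftLeft (nat_lit 0x800000400a00e03) (nat_lit 67)) (.one (nat_lit 0x4000002005007017000400a08f02e511)) (.one (nat_lit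 0x4000002005007018000400a08f030511)))) (.br (Nat.shiftLeft (nat_lit 0x1000001) (nat_lit 102)) (.br (Nat.shiftLeft (nat_lit 0x800000600a00e03) (nat_lit 67)) (.one (nat_lit 0x4000003005007017000600a08f02e511)) (.one (nat_lit 0x4000003005007018000600a08f030511))) (.br (Nat.shiftLeft (nat_lit 0x800000800a00e03) (nat_lit 67)) (.one (nat_lit 0x4000004005007017000800a08f02e511)) (.one (nat_lit 0x4000004005007018000800a08f030511))))))
def t219 : k219.all (jb2 57 fl b0) = true := by decide +kernel
noncomputable def k220 : KT := (.br (Nat.shiftLeft (nat_lit 0xa00000600a00e03) (nat_lit 67)) (.br (Nat.shiftLeft (nat_lit 0xa00000400a00e03) (nat_lit 67)) (.one (nat_lit 0x5000002005007017000400a0af42e511)) (.br (Nat.shiftLeft (nat_lit 0x5000003) (nat_lit 100)) (.one (nat_lit 0x5000002005007018000400a0af430511)) (.one (nat_lit 0x5000003005007017000600a0af42e511)))) (.br (Nat.shiftLeft (nat_lit 0x1400001) (nat_lit 102)) (.one (nat_lit 0x5000003005007018000600a0af430511)) (.br (Nat.shiftLeft (nat_lit 0xa00000800a00e03) (nat_lit 67)) (.one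 (nat_lit 0x5000004005007017000800a0af42e511)) (.one (nat_lit 0x5000004005007018000800a0af430511)))))
def t220 : k220.all (jb2 57 fl b0) = true := by decide +kernel
noncomputable def k221 : KT := (.br (Nat.shiftLeft (nat_lit 0xc00000400a00e03) (nat_lit 67)) (.one (nat_lit 0x6000002005007017000400a0cf82e511)) (.br (Nat.shiftLeft (nat_lit 0x6000003) (nat_lit 100)) (.one (nat_lit 0x6000002005007018000400a0cf830511)) (.one (nat_lit 0x6000003005007017000600a0cf82e511))))
def t221 : k221.all (jb2 57 fl b0) = true := by decide +kernel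
noncomputable def k222 : KT := (.br (Nat.shiftLeft (nat_lit 0xc00000800a00e03) (nat_lit 67)) (.br (Nat.shiftLeft (nat_lit 0x1800001) (nat_lit 102)) (.one (nat_lit 0x6000003005007018000600a0cf830511)) (.one (nat_lit 0x6000004005007017000800a0cf82e511))) (.br (Nat.shiftLeft (nat_lit 0x7) (nat_lit 124)) (.one (nat_lit 0x6000004005007018000800a0cf830511)) (.one (nat_lit 0x7000002005007017000400a0efc2e511))))
def t222 : k222.all (jb2 57 fl b0) = true := by decide +kernel
noncomputable def k223 : KT := (.br (Nat.shiftLeft (nat_lit 0xe00000600a00e03) (nat_lit 67)) (.br (Nat.shiftLeft (nat_lit 0x7000003) (nat_lit 100)) (.one (nat_lit 0x7000002005007018000400a0efc30511)) (.one (nat_lit 0x7000003005007017000600a0efc2e511))) (.br (Nat.shiftLeft (nat_lit 0x1c00001) (nat_lit 102)) (.one (nat_lit 0x7000003005007018000600a0efc30511)) (.one (nat_lit 0x7000004005007017000800a0efc2e511))))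
def t223 : k223.all (jb2 57 fl b0) = true := by decide +kernel
noncomputable def k224 : KT := (.br (Nat.shiftLeft (nat_lit 0x2000003) (nat_lit 112)) (.br (Nat.shiftLeft (nat_lit 0x1000003) (nat_lit 112)) (.br (Nat.shiftLeft (nat_lit 0x800001) (nat_lit 113)) (.br (Nat.shiftLeft (nat_lit 0x1) (nat_lit 136)) (.one (nat_lit 0x7000004005007018000800a0efc30511)) (.br (Nat.shiftLeft (nat_lit 0x1000001003) (nat_lit 100)) (.one (nat_lit 0x1000001002005007017200402a40e02e611)) (.one (nat_lit 0x1000001003005007017200602a40e02e611)))) (.br (Nat.shiftLeft (nat_lit 0x400000801) (nat_lit 102)) (.br (Nat.shiftLeft (nat_lit 0x200000400600a00e03) (nat_lit 67)) (.one (nat_lit 0x1000002003005007017400602a40e02e611)) (.one (nat_lit 0x1000002003005007018400602a40e030611))) (.br (Nat.shiftLeft (nat_lit 0x200000400800a00e03) (nat_lit 67)) (.one (nat_lit 0x1000002004005007017400802a40e02e611)) (.one (nat_lit 0x1000002004005007018400802a40e030611))))) (.br (Nat.shiftLeft (nat_lit 0x1000001) (nat_lit 113)) (.br (Nat.shiftLeft (nat_lit 0x1) (nat_lit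 137)) (.br (Nat.shiftLeft (nat_lit 0x200000600800a00e03) (nat_lit 67)) (.one (nat_lit 0x1000003004005007017600802a40e02e611)) (.one (nat_lit 0x1000003004005007018600802a40e030611))) (.br (Nat.shiftLeft (nat_lit 0x2000001003) (nat_lit 100)) (.one (nat_lit 0x2000001002005007017200404a80e02e611)) (.one (nat_lit 0x2000001003005007017200604a80e02e611)))) (.br (Nat.shiftLeft (nat_lit 0x800000801) (nat_lit 102)) (.br (Nat.shiftLeft (nat_lit 0x400000400600a00e03) (nat_lit 67)) (.one (nat_lit 0x2000002003005007017400604a80e02e611)) (.one (nat_lit 0x2000002003005007018400604a80e030611))) (.br (Nat.shiftLeft (nat_lit 0x400000400800a00e03) (nat_lit 67)) (.one (nat_lit 0x2000002004005007017400804a80e02e611)) (.one (nat_lit 0x2000002004005007018400804a80e030611)))))) (.br (Nat.shiftLeft (nat_lit 0x600000400800a00e03) (nat_lit 67)) (.br (Nat.shiftLeft (nat_lit 0x3000001003) (nat_lit 100)) (.br (Nat.shiftLeft (nat_lit 0x400000600800a00e03) (nat_lit 67)) (.one (nat_lit 0x2000003004005007017600804a80e02e611)) (.br (Nat.shiftLeft (nat_lit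 0x3) (nat_lit 136)) (.one (nat_lit 0x2000003004005007018600804a80e030611)) (.one (nat_lit 0x3000001002005007017200406ac0e02e611)))) (.br (Nat.shiftLeft (nat_lit 0x600000400600a00e03) (nat_lit 67)) (.br (Nat.shiftLeft (nat_lit 0x1800001) (nat_lit 113)) (.one (nat_lit 0x3000001003005007017200606ac0e02e611)) (.one (nat_lit 0x3000002003005007017400606ac0e02e611))) (.br (Nat.shiftLeft (nat_lit 0xc00000801) (nat_lit 102)) (.one (nat_lit 0x3000002003005007018400606ac0e030611)) (.one (nat_lit 0x3000002004005007017400806ac0e02e611))))) (.br (Nat.shiftLeft (nat_lit 0x4000001003) (nat_lit 100)) (.br (Nat.shiftLeft (nat_lit 0x600000600800a00e03) (nat_lit 67)) (.br (Nat.shiftLeft (nat_lit 0x3000003) (nat_lit 112)) (.one (nat_lit 0x3000002004005007018400806ac0e030611)) (.one (nat_lit 0x3000003004005007017600806ac0e02e611))) (.br (Nat.shiftLeft (nat_lit 0x1) (nat_lit 138)) (.one (nat_lit 0x3000003004005007018600806ac0e030611)) (.one (nat_lit 0x4000001002005007017200408b00e02e611)))) (.br (Nat.shiftLeft (nat_lit 0x800000400600a00e03)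 (nat_lit 67)) (.br (Nat.shiftLeft (nat_lit 0x2000001) (nat_lit 113)) (.one (nat_lit 0x4000001003005007017200608b00e02e611)) (.one (nat_lit 0x4000002003005007017400608b00e02e611))) (.br (Nat.shiftLeft (nat_lit 0x1000000801) (nat_lit 102)) (.one (nat_lit 0x4000002003005007018400608b00e030611)) (.one (nat_lit 0x4000002004005007017400808b00e02e611)))))))
def t224 : k224.all (jb2 57 fl b0) = true := by decide +kernel
noncomputable def k225 : KT := (.br (Nat.shiftLeft (nat_lit 0x800000600800a00e03) (nat_lit 67)) (.br (Nat.shiftLeft (nat_lit 0x4000003) (nat_lit 112)) (.one (nat_lit 0x4000002004005007018400808b00e030611)) (.one (nat_lit 0x4000003004005007017600808b00e02e611))) (.br (Nat.shiftLeft (nat_lit 0x5) (nat_lit 136)) (.one (nat_lit 0x4000003004005007018600808b00e030611)) (.br (Nat.shiftLeft (nat_lit 0x5000001003) (nat_lit 100)) (.one (nat_lit 0x500000100200500701720040ab40e02e611)) (.one (nat_lit 0x500000100300500701720060ab40e02e611)))))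
def t225 : k225.all (jb2 57 fl b0) = true := by decide +kernel
noncomputable def k226 : KT := (.br (Nat.shiftLeft (nat_lit 0x1400000801) (nat_lit 102)) (.br (Nat.shiftLeft (nat_lit 0xa00000400600a00e03) (nat_lit 67)) (.one (nat_lit 0x500000200300500701740060ab40e02e611)) (.one (nat_lit 0x500000200300500701840060ab40e030611))) (.br (Nat.shiftLeft (nat_lit 0xa00000400800a00e03) (nat_lit 67)) (.one (nat_lit 0x500000200400500701740080ab40e02e611)) (.one (nat_lit 0x500000200400500701840080ab40e030611))))
def t226 : k226.all (jb2 57 fl b0) = true := by decide +kernel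
noncomputable def k227 : KT := (.br (Nat.shiftLeft (nat_lit 0xa00000600800a00e03) (nat_lit 67)) (.one (nat_lit 0x500000300400500701760080ab40e02e611)) (.br (Nat.shiftLeft (nat_lit 0x3) (nat_lit 137)) (.one (nat_lit 0x500000300400500701860080ab40e030611)) (.one (nat_lit 0x600000100200500701720040cb80e02e611))))
def t227 : k227.all (jb2 57 fl b0) = true := by decide +kernel
noncomputable def k228 : KT := (.br (Nat.shiftLeft (nat_lit 0x3000001) (nat_lit 113)) (.one (nat_lit 0x600000100300500701720060cb80e02e611)) (.br (Nat.shiftLeft (nat_lit 0xc00000400600a00e03) (nat_lit 67)) (.one (nat_lit 0x600000200300500701740060cb80e02e611)) (.one (nat_lit 0x600000200300500701840060cb80e030611))))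
def t228 : k228.all (jb2 57 fl b0) = true := by decide +kernel
noncomputable def k229 : KT := (.br (Nat.shiftLeft (nat_lit 0x6000003) (nat_lit 112)) (.br (Nat.shiftLeft (nat_lit 0xc00000400800a00e03) (nat_lit 67)) (.one (nat_lit 0x600000200400500701740080cb80e02e611)) (.one (nat_lit 0x600000200400500701840080cb80e030611))) (.br (Nat.shiftLeft (nat_lit 0xc00000600800a00e03) (nat_lit 67)) (.one (nat_lit 0x600000300400500701760080cb80e02e611)) (.br (Nat.shiftLeft (nat_lit 0x7) (nat_lit 136)) (.one (nat_lit 0x600000300400500701860080cb80e030611)) (.one (nat_lit 0x700000100200500701720040ebc0e02e611)))))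
def t229 : k229.all (jb2 57 fl b0) = true := by decide +kernel
noncomputable def k230 : KT := (.br (Nat.shiftLeft (nat_lit 0xe00000400600a00e03) (nat_lit 67)) (.br (Nat.shiftLeft (nat_lit 0x3800001) (nat_lit 113)) (.one (nat_lit 0x700000100300500701720060ebc0e02e611)) (.one (nat_lit 0x700000200300500701740060ebc0e02e611))) (.br (Nat.shiftLeft (nat_lit 0x1c00000801) (nat_lit 102)) (.one (nat_lit 0x700000200300500701840060ebc0e030611)) (.one (nat_lit 0x700000200400500701740080ebc0e02e611))))
def t230 : k230.all (jb2 57 fl b0) = true := by decide +kernel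
noncomputable def k231 : KT := (.br (Nat.shiftLeft (nat_lit 0x7000003) (nat_lit 112)) (.one (nat_lit 0x700000200400500701840080ebc0e030611)) (.br (Nat.shiftLeft (nat_lit 0xe00000600800a00e03) (nat_lit 67)) (.one (nat_lit 0x700000300400500701760080ebc0e02e611)) (.one (nat_lit 0x700000300400500701860080ebc0e030611))))
def t231 : k231.all (jb2 57 fl b0) = true := by decide +kernel
noncomputable def s10 : KT := (.br (nat_lit 0x4000004005007018000800a08f030511) (.br (nat_lit 0x7000005007017e00000a00e02e411) (.br (nat_lit 0x1003005007017200600a00e02f600) (.br (nat_lit 0x1002005007017200400a00e02f600) k209 k210) (.br (nat_lit 0x1003005007018200600a00e030650) k211 (.br (nat_lit 0x1004005007017200800a00e02e650) k212 k213))) (.br (nat_lit 0x1002004005007017400800a02e42e760) (.br (nat_lit 0x1002003005007017400600a02e42e760) k214 (.br (nat_lit 0x1002003005007018400600a02e430760) k215 k216)) (.br (nat_lit 0x1003004005007017600800a02e42e760) k217 (.br (nat_lit 0x2003004005007017600800a04e82e760) k218 k219)))) (.br (nat_lit 0x500000100300500701720060ab40e02e611)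 (.br (nat_lit 0x7000002005007017000400a0efc2e511) (.br (nat_lit 0x5000004005007018000800a0af430511) k220 (.br (nat_lit 0x6000003005007017000600a0cf82e511) k221 k222)) (.br (nat_lit 0x7000004005007017000800a0efc2e511) k223 (.br (nat_lit 0x4000002004005007017400808b00e02e611) k224 k225))) (.br (nat_lit 0x600000200300500701840060cb80e030611) (.br (nat_lit 0x500000200400500701840080ab40e030611) k226 (.br (nat_lit 0x600000100200500701720040cb80e02e611) k227 k228)) (.br (nat_lit 0x700000100200500701720040ebc0e02e611) k229 (.br (nat_lit 0x700000200400500701740080ebc0e02e611) k230 k231)))))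
noncomputable def u10 : KT := (.br (Nat.shiftLeft (nat_lit 0xa00e03) (nat_lit 67)) (.one (nat_lit 0x5007017000000a00e02e430)) (.one (nat_lit 0x5007018000000a00e030430)))
def w10 : u10.all (wj 57 s10) = true := by decide +kernel
def o10 : OkW 57 (jb2 57 fl) u10 := .lift s10 _ (.br _ _ _ (.br _ _ _ (.br _ _ _ (.br _ _ _ (.leaf b0 k209 t209) (.leaf b0 k210 t210)) (.br _ _ _ (.leaf b0 k211 t211) (.br _ _ _ (.leaf b0 k212 t212) (.leaf b0 k213 t213)))) (.br _ _ _ (.br _ _ _ (.leaf b0 k214 t214) (.br _ _ _ (.leaf b0 k215 t215) (.leaf b0 k216 t216))) (.br _ _ _ (.leaf b0 k217 t217) (.br _ _ _ (.leaf b0 k218 t218) (.leaf b0 k219 t219))))) (.br _ _ _ (.br _ _ _ (.br _ _ _ (.leaf b0 k220 t220) (.br _ _ _ (.leaf b0 k221 t221) (.leaf b0 k222 t222))) (.br _ _ _ (.leaf b0 k223 t223) (.br _ _ _ (.leaf b0 k224 t224) (.leaf b0 k225 t225)))) (.br _ _ _ (.br _ _ _ (.leaf b0 k226 t226) (.br _ _ _ (.leaf b0 k227 t227) (.leaf b0 k228 t228))) (.br _ _ _ (.leaf b0 k229 t229) (.br _ _ _ (.leaf b0 k230 t230) (.leaf b0 k231 t231)))))) w10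
noncomputable def k232 : KT := (.br (Nat.shiftLeft (nat_lit 0x1) (nat_lit 101)) (.br (Nat.shiftLeft (nat_lit 0x1402005) (nat_lit 66)) (.br (Nat.shiftLeft (nat_lit 0xa01) (nat_lit 79)) (.one (nat_lit 0x5007019000000a00e033400)) (.one (nat_lit 0x5008013000000a010027400))) (.br (Nat.shiftLeft (nat_lit 0x1) (nat_lit 100)) (.one (nat_lit 0x5008014000000a010029400)) (.one (nat_lit 0x1005007019000200a00e032540)))) (.br (Nat.shiftLeft (nat_lit 0x1) (nat_lit 102)) (.br (Nat.shiftLeft (nat_lit 0x3) (nat_lit 100)) (.one (nat_lit 0x2005007019000400a00e033500)) (.one (nat_lit 0x3005007019000600a00e033500))) (.br (Nat.shiftLeft (nat_lit 0x1) (nat_lit 112)) (.one (nat_lit 0x4005007019000800a00e033500)) (.one (nat_lit 0x1000005007019200000a00e032411)))))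
def t232 : k232.all (jb2 57 fl b0) = true := by decide +kernel
noncomputable def k233 : KT := (.one (nat_lit 0x1002005007019200400a00e032650))
def t233 : k233.all (jb2 57 fl b0) = true := by decide +kernel
noncomputable def k234 : KT := (.one (nat_lit 0x1003005007019200600a00e032650))
def t234 : k234.all (jb2 57 fl b0) = true := by decide +kernel
noncomputable def k235 : KT := (.br (Nat.shiftLeft (nat_lit 0x1) (nat_lit 113)) (.one (nat_lit 0x1004005007019200800a00e032650)) (.br (Nat.shiftLeft (nat_lit 0x1001) (nat_lit 101)) (.one (nat_lit 0x2000005007019400000a00e032411)) (.one (nat_lit 0x2003005007019400600a00e033600))))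
def t235 : k235.all (jb2 57 fl b0) = true := by decide +kernel
noncomputable def k236 : KT := (.br (Nat.shiftLeft (nat_lit 0x3) (nat_lit 112)) (.one (nat_lit 0x2004005007019400800a00e032650)) (.one (nat_lit 0x3000005007019600000a00e032411)))
def t236 : k236.all (jb2 57 fl b0) = true := by decide +kernel
noncomputable def k237 : KT := (.br (Nat.shiftLeft (nat_lit 0x1) (nat_lit 114)) (.one (nat_lit 0x3004005007019600800a00e032650)) (.br (Nat.shiftLeft (nat_lit 0x5) (nat_lit 112)) (.one (nat_lit 0x4000005007019800000a00e032411)) (.one (nat_lit 0x5000005007019a00000a00e032411))))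
def t237 : k237.all (jb2 57 fl b0) = true := by decide +kernel
noncomputable def k238 : KT := (.br (Nat.shiftLeft (nat_lit 0x800001) (nat_lit 102)) (.br (Nat.shiftLeft (nat_lit 0x400001) (nat_lit 102)) (.br (Nat.shiftLeft (nat_lit 0x1) (nat_lit 124)) (.br (Nat.shiftLeft (nat_lit 0x7) (nat_lit 112)) (.one (nat_lit 0x6000005007019c00000a00e032411)) (.one (nat_lit 0x7000005007019e00000a00e032411))) (.br (Nat.shiftLeft (nat_lit 0x1000003) (nat_lit 100)) (.one (nat_lit 0x1000002005007019000400a02e432511)) (.one (nat_lit 0x1000003005007019000600a02e432511)))) (.br (Nat.shiftLeft (nat_lit 0x1) (nat_lit 125)) (.br (Nat.shiftLeft (nat_lit 0x801) (nat_lit 113)) (.one (nat_lit 0x1000004005007019000800a02e432511)) (.one (nat_lit 0x1002003005007019400600a02e432760))) (.br (Nat.shiftLeft (nat_lit 0x2000003) (nat_lit 100)) (.one (nat_lit 0x2000002005007019000400a04e832511)) (.one (nat_lit 0x2000003005007019000600a04e832511))))) (.br (Nat.shiftLeft (nat_lit 0x1) (nat_lit 126)) (.br (Nat.shiftLeft (nat_lit 0x3000003) (nat_lit 100)) (.br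 (Nat.shiftLeft (nat_lit 0x3) (nat_lit 124)) (.one (nat_lit 0x2000004005007019000800a04e832511)) (.one (nat_lit 0x3000002005007019000400a06ec32511))) (.br (Nat.shiftLeft (nat_lit 0xc00001) (nat_lit 102)) (.one (nat_lit 0x3000003005007019000600a06ec32511)) (.one (nat_lit 0x3000004005007019000800a06ec32511)))) (.br (Nat.shiftLeft (nat_lit 0x1000001) (nat_lit 102)) (.br (Nat.shiftLeft (nat_lit 0x4000003) (nat_lit 100)) (.one (nat_lit 0x4000002005007019000400a08f032511)) (.one (nat_lit 0x4000003005007019000600a08f032511))) (.br (Nat.shiftLeft (nat_lit 0x5) (nat_lit 124)) (.one (nat_lit 0x4000004005007019000800a08f032511)) (.one (nat_lit 0x5000002005007019000400a0af432511))))))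
def t238 : k238.all (jb2 57 fl b0) = true := by decide +kernel
noncomputable def k239 : KT := (.br (Nat.shiftLeft (nat_lit 0x3) (nat_lit 125)) (.br (Nat.shiftLeft (nat_lit 0x1400001) (nat_lit 102)) (.one (nat_lit 0x5000003005007019000600a0af432511)) (.one (nat_lit 0x5000004005007019000800a0af432511))) (.br (Nat.shiftLeft (nat_lit 0x6000003) (nat_lit 100)) (.one (nat_lit 0x6000002005007019000400a0cf832511)) (.br (Nat.shiftLeft (nat_lit 0x1800001) (nat_lit 102)) (.one (nat_lit 0x6000003005007019000600a0cf832511)) (.one (nat_lit 0x6000004005007019000800a0cf832511)))))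
def t239 : k239.all (jb2 57 fl b0) = true := by decide +kernel
noncomputable def k240 : KT := (.br (Nat.shiftLeft (nat_lit 0x1) (nat_lit 137)) (.br (Nat.shiftLeft (nat_lit 0x1c00001) (nat_lit 102)) (.br (Nat.shiftLeft (nat_lit 0x7000003) (nat_lit 100)) (.one (nat_lit 0x7000002005007019000400a0efc32511)) (.one (nat_lit 0x7000003005007019000600a0efc32511))) (.br (Nat.shiftLeft (nat_lit 0x1) (nat_lit 136)) (.one (nat_lit 0x7000004005007019000800a0efc32511)) (.one (nat_lit 0x1000002003005007019400602a40e032611)))) (.br (Nat.shiftLeft (nat_lit 0x1) (nat_lit 138)) (.br (Nat.shiftLeft (nat_lit 0x3) (nat_lit 136)) (.one (nat_lit 0x2000002003005007019400604a80e032611)) (.one (nat_lit 0x3000002003005007019400606ac0e032611))) (.br (Nat.shiftLeft (nat_lit 0x5) (nat_lit 136)) (.one (nat_lit 0x4000002003005007019400608b00e032611)) (.br (Nat.shiftLeft (nat_lit 0x3) (nat_lit 137)) (.one (nat_lit 0x500000200300500701940060ab40e032611)) (.one (nat_lit 0x600000200300500701940060cb80e032611))))))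
def t240 : k240.all (jb2 57 fl b0) = true := by decide +kernel
noncomputable def k241 : KT := (.one (nat_lit 0x700000200300500701940060ebc0e032611))
def t241 : k241.all (jb2 57 fl b0) = true := by decide +kernel
noncomputable def s11 : KT := (.br (nat_lit 0x3000005007019600000a00e032411) (.br (nat_lit 0x1002005007019200400a00e032650) (.br (nat_lit 0x1000005007019200000a00e032411) k232 k233) (.br (nat_lit 0x1003005007019200600a00e032650) k234 (.br (nat_lit 0x2003005007019400600a00e033600) k235 k236))) (.br (nat_lit 0x5000002005007019000400a0af432511) (.br (nat_lit 0x5000005007019a00000a00e032411) k237 k238) (.br (nat_lit 0x6000004005007019000800a0cf832511) k239 (.br (nat_lit 0x600000200300500701940060cb80e032611) k240 k241))))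
noncomputable def u11 : KT := (.br (Nat.shiftLeft (nat_lit 0xa01) (nat_lit 79)) (.one (nat_lit 0x5007019000000a00e032430)) (.br (Nat.shiftLeft (nat_lit 0x1402005) (nat_lit 66)) (.one (nat_lit 0x5008013000000a010027400)) (.one (nat_lit 0x5008014000000a010029400))))
def w11 : u11.all (wj 57 s11) = true := by decide +kernel
def o11 : OkW 57 (jb2 57 fl) u11 := .lift s11 _ (.br _ _ _ (.br _ _ _ (.br _ _ _ (.leaf b0 k232 t232) (.leaf b0 k233 t233)) (.br _ _ _ (.leaf b0 k234 t234) (.br _ _ _ (.leaf b0 k235 t235) (.leaf b0 k236 t236)))) (.br _ _ _ (.br _ _ _ (.leaf b0 k237 t237) (.leaf b0 k238 t238)) (.br _ _ _ (.leaf b0 k239 t239) (.br _ _ _ (.leaf b0 k240 t240) (.leaf b0 k241 t241))))) w11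
noncomputable def k242 : KT := (.br (Nat.shiftLeft (nat_lit 0x3) (nat_lit 112)) (.br (Nat.shiftLeft (nat_lit 0x801) (nat_lit 101)) (.br (Nat.shiftLeft (nat_lit 0x3) (nat_lit 100)) (.br (Nat.shiftLeft (nat_lit 0x1) (nat_lit 100)) (.one (nat_lit 0x5008015000000a01002b400)) (.br (Nat.shiftLeft (nat_lit 0x1) (nat_lit 101)) (.one (nat_lit 0x1005008015000200a01002a540)) (.one (nat_lit 0x2005008015000400a01002b500)))) (.br (Nat.shiftLeft (nat_lit 0x1) (nat_lit 102)) (.one (nat_lit 0x3005008015000600a01002b500)) (.br (Nat.shiftLeft (nat_lit 0x1) (nat_lit 112)) (.one (nat_lit 0x4005008015000800a01002b500)) (.one (nat_lit 0x1000005008015200000a01002a411))))) (.br (Nat.shiftLeft (nat_lit 0x1) (nat_lit 113)) (.br (Nat.shiftLeft (nat_lit 0x1003) (nat_lit 100)) (.one (nat_lit 0x1002005008015200400a01002b600)) (.br (Nat.shiftLeft (nat_lit 0x401) (nat_lit 102)) (.one (nat_lit 0x1003005008015200600a01002b600)) (.one (nat_lit 0x1004005008015200800a01002b600)))) (.br (Nat.shiftLeft (nat_lit 0x1001) (nat_lit 101)) (.one (nat_lit 0x2000005008015400000a01002a411))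 (.br (Nat.shiftLeft (nat_lit 0x801) (nat_lit 102)) (.one (nat_lit 0x2003005008015400600a01002b600)) (.one (nat_lit 0x2004005008015400800a01002b600)))))) (.br (Nat.shiftLeft (nat_lit 0x1) (nat_lit 115)) (.br (Nat.shiftLeft (nat_lit 0x5) (nat_lit 112)) (.br (Nat.shiftLeft (nat_lit 0xc01) (nat_lit 102)) (.one (nat_lit 0x3000005008015600000a01002a411)) (.br (Nat.shiftLeft (nat_lit 0x1) (nat_lit 114)) (.one (nat_lit 0x3004005008015600800a01002b600)) (.one (nat_lit 0x4000005008015800000a01002a411)))) (.br (Nat.shiftLeft (nat_lit 0x3) (nat_lit 113)) (.one (nat_lit 0x5000005008015a00000a01002a411)) (.br (Nat.shiftLeft (nat_lit 0x7) (nat_lit 112)) (.one (nat_lit 0x6000005008015c00000a01002a411)) (.one (nat_lit 0x7000005008015e00000a01002a411))))) (.br (Nat.shiftLeft (nat_lit 0x400001) (nat_lit 102)) (.br (Nat.shiftLeft (nat_lit 0x1) (nat_lit 124)) (.one (nat_lit 0x8000005008015000000a01012c411)) (.br (Nat.shiftLeft (nat_lit 0x1000003) (nat_lit 100)) (.one (nat_lit 0x1000002005008015000400a03042a511)) (.one (nat_lit 0x1000003005008015000600a03042a511))))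 (.br (Nat.shiftLeft (nat_lit 0x801) (nat_lit 113)) (.one (nat_lit 0x1000004005008015000800a03042a511)) (.br (Nat.shiftLeft (nat_lit 0x400801) (nat_lit 102)) (.one (nat_lit 0x1002003005008015400600a03042b700)) (.one (nat_lit 0x1002004005008015400800a03042b700)))))))
def t242 : k242.all (jb2 57 fl b0) = true := by decide +kernel
noncomputable def k243 : KT := (.br (Nat.shiftLeft (nat_lit 0x2000003) (nat_lit 100)) (.br (Nat.shiftLeft (nat_lit 0x1) (nat_lit 125)) (.one (nat_lit 0x1003004005008015600800a03042a760)) (.one (nat_lit 0x2000002005008015000400a05082a511))) (.br (Nat.shiftLeft (nat_lit 0x800001) (nat_lit 102)) (.one (nat_lit 0x2000003005008015000600a05082a511)) (.one (nat_lit 0x2000004005008015000800a05082a511))))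
def t243 : k243.all (jb2 57 fl b0) = true := by decide +kernel
noncomputable def k244 : KT := (.br (Nat.shiftLeft (nat_lit 0x3000003) (nat_lit 100)) (.br (Nat.shiftLeft (nat_lit 0x3) (nat_lit 124)) (.one (nat_lit 0x2003004005008015600800a05082a760)) (.one (nat_lit 0x3000002005008015000400a070c2a511))) (.br (Nat.shiftLeft (nat_lit 0xc00001) (nat_lit 102)) (.one (nat_lit 0x3000003005008015000600a070c2a511)) (.one (nat_lit 0x3000004005008015000800a070c2a511))))
def t244 : k244.all (jb2 57 fl b0) = true := by decide +kernel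
noncomputable def k245 : KT := (.br (Nat.shiftLeft (nat_lit 0x5) (nat_lit 124)) (.br (Nat.shiftLeft (nat_lit 0x4000003) (nat_lit 100)) (.one (nat_lit 0x4000002005008015000400a09102a511)) (.br (Nat.shiftLeft (nat_lit 0x1000001) (nat_lit 102)) (.one (nat_lit 0x4000003005008015000600a09102a511)) (.one (nat_lit 0x4000004005008015000800a09102a511)))) (.br (Nat.shiftLeft (nat_lit 0x5000003) (nat_lit 100)) (.one (nat_lit 0x5000002005008015000400a0b142a511)) (.br (Nat.shiftLeft (nat_lit 0x1400001) (nat_lit 102)) (.one (nat_lit 0x5000003005008015000600a0b142a511)) (.one (nat_lit 0x5000004005008015000800a0b142a511)))))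
def t245 : k245.all (jb2 57 fl b0) = true := by decide +kernel
noncomputable def k246 : KT := (.br (Nat.shiftLeft (nat_lit 0x6000003) (nat_lit 100)) (.one (nat_lit 0x6000002005008015000400a0d182a511)) (.br (Nat.shiftLeft (nat_lit 0x1800001) (nat_lit 102)) (.one (nat_lit 0x6000003005008015000600a0d182a511)) (.one (nat_lit 0x6000004005008015000800a0d182a511))))
def t246 : k246.all (jb2 57 fl b0) = true := by decide +kernel
noncomputable def k247 : KT := (.br (Nat.shiftLeft (nat_lit 0x7000003) (nat_lit 100)) (.one (nat_lit 0x7000002005008015000400a0f1c2a511)) (.one (nat_lit 0x7000003005008015000600a0f1c2a511)))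
def t247 : k247.all (jb2 57 fl b0) = true := by decide +kernel
noncomputable def k248 : KT := (.br (Nat.shiftLeft (nat_lit 0x1) (nat_lit 127)) (.one (nat_lit 0x7000004005008015000800a0f1c2a511)) (.br (Nat.shiftLeft (nat_lit 0x8000003) (nat_lit 100)) (.one (nat_lit 0x8000002005008015000400a11202a511)) (.one (nat_lit 0x8000003005008015000600a11202a511))))
def t248 : k248.all (jb2 57 fl b0) = true := by decide +kernel
noncomputable def k249 : KT := (.br (Nat.shiftLeft (nat_lit 0x2000003) (nat_lit 112)) (.br (Nat.shiftLeft (nat_lit 0x1000003) (nat_lit 112)) (.br (Nat.shiftLeft (nat_lit 0x400000401) (nat_lit 102)) (.br (Nat.shiftLeft (nat_lit 0x1) (nat_lit 136)) (.one (nat_lit 0x8000004005008015000800a11202a511)) (.br (Nat.shiftLeft (nat_lit 0x1000001003) (nat_lit 100)) (.one (nat_lit 0x1000001002005008015200402a41002a611)) (.one (nat_lit 0x1000001003005008015200602a41002a611)))) (.br (Nat.shiftLeft (nat_lit 0x800001) (nat_lit 113)) (.one (nat_lit 0x1000001004005008015200802a41002a611)) (.br (Nat.shiftLeft (nat_lit 0x400000801)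 (nat_lit 102)) (.one (nat_lit 0x1000002003005008015400602a41002a611)) (.one (nat_lit 0x1000002004005008015400802a41002a611))))) (.br (Nat.shiftLeft (nat_lit 0x800000401) (nat_lit 102)) (.br (Nat.shiftLeft (nat_lit 0x1) (nat_lit 137)) (.one (nat_lit 0x1000003004005008015600802a41002a611)) (.br (Nat.shiftLeft (nat_lit 0x2000001003) (nat_lit 100)) (.one (nat_lit 0x2000001002005008015200404a81002a611)) (.one (nat_lit 0x2000001003005008015200604a81002a611)))) (.br (Nat.shiftLeft (nat_lit 0x1000001) (nat_lit 113)) (.one (nat_lit 0x2000001004005008015200804a81002a611)) (.br (Nat.shiftLeft (nat_lit 0x800000801) (nat_lit 102)) (.one (nat_lit 0x2000002003005008015400604a81002a611)) (.one (nat_lit 0x2000002004005008015400804a81002a611)))))) (.br (Nat.shiftLeft (nat_lit 0x3000003) (nat_lit 112)) (.br (Nat.shiftLeft (nat_lit 0xc00000401) (nat_lit 102)) (.br (Nat.shiftLeft (nat_lit 0x3) (nat_lit 136)) (.one (nat_lit 0x2000003004005008015600804a81002a611)) (.br (Nat.shiftLeft (nat_lit 0x3000001003) (nat_lit 100)) (.one (nat_lit 0x3000001002005008015200406ac1002a611))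 (.one (nat_lit 0x3000001003005008015200606ac1002a611)))) (.br (Nat.shiftLeft (nat_lit 0x1800001) (nat_lit 113)) (.one (nat_lit 0x3000001004005008015200806ac1002a611)) (.br (Nat.shiftLeft (nat_lit 0xc00000801) (nat_lit 102)) (.one (nat_lit 0x3000002003005008015400606ac1002a611)) (.one (nat_lit 0x3000002004005008015400806ac1002a611))))) (.br (Nat.shiftLeft (nat_lit 0x1000000401) (nat_lit 102)) (.br (Nat.shiftLeft (nat_lit 0x1) (nat_lit 138)) (.one (nat_lit 0x3000003004005008015600806ac1002a611)) (.br (Nat.shiftLeft (nat_lit 0x4000001003) (nat_lit 100)) (.one (nat_lit 0x4000001002005008015200408b01002a611)) (.one (nat_lit 0x4000001003005008015200608b01002a611)))) (.br (Nat.shiftLeft (nat_lit 0x2000001) (nat_lit 113)) (.one (nat_lit 0x4000001004005008015200808b01002a611)) (.br (Nat.shiftLeft (nat_lit 0x1000000801) (nat_lit 102)) (.one (nat_lit 0x4000002003005008015400608b01002a611)) (.one (nat_lit 0x4000002004005008015400808b01002a611)))))))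
def t249 : k249.all (jb2 57 fl b0) = true := by decide +kernel
noncomputable def k250 : KT := (.br (Nat.shiftLeft (nat_lit 0x5) (nat_lit 136)) (.one (nat_lit 0x4000003004005008015600808b01002a611)) (.br (Nat.shiftLeft (nat_lit 0x5000001003) (nat_lit 100)) (.one (nat_lit 0x500000100200500801520040ab41002a611)) (.one (nat_lit 0x500000100300500801520060ab41002a611))))
def t250 : k250.all (jb2 57 fl b0) = true := by decide +kernel
noncomputable def k251 : KT := (.br (Nat.shiftLeft (nat_lit 0x2800001) (nat_lit 113)) (.one (nat_lit 0x500000100400500801520080ab41002a611)) (.br (Nat.shiftLeft (nat_lit 0x1400000801) (nat_lit 102)) (.one (nat_lit 0x500000200300500801540060ab41002a611)) (.one (nat_lit 0x500000200400500801540080ab41002a611))))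
def t251 : k251.all (jb2 57 fl b0) = true := by decide +kernel
noncomputable def k252 : KT := (.br (Nat.shiftLeft (nat_lit 0x3) (nat_lit 137)) (.one (nat_lit 0x500000300400500801560080ab41002a611)) (.one (nat_lit 0x600000100200500801520040cb81002a611)))
def t252 : k252.all (jb2 57 fl b0) = true := by decide +kernel
noncomputable def k253 : KT := (.br (Nat.shiftLeft (nat_lit 0x1800000401) (nat_lit 102)) (.one (nat_lit 0x600000100300500801520060cb81002a611)) (.one (nat_lit 0x600000100400500801520080cb81002a611)))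
def t253 : k253.all (jb2 57 fl b0) = true := by decide +kernel
noncomputable def k254 : KT := (.br (Nat.shiftLeft (nat_lit 0x1800000801) (nat_lit 102)) (.one (nat_lit 0x600000200300500801540060cb81002a611)) (.one (nat_lit 0x600000200400500801540080cb81002a611)))
def t254 : k254.all (jb2 57 fl b0) = true := by decide +kernel
noncomputable def k255 : KT := (.br (Nat.shiftLeft (nat_lit 0x7) (nat_lit 136)) (.one (nat_lit 0x600000300400500801560080cb81002a611)) (.one (nat_lit 0x700000100200500801520040ebc1002a611)))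
def t255 : k255.all (jb2 57 fl b0) = true := by decide +kernel
noncomputable def k256 : KT := (.br (Nat.shiftLeft (nat_lit 0x1c00000401) (nat_lit 102)) (.one (nat_lit 0x700000100300500801520060ebc1002a611)) (.one (nat_lit 0x700000100400500801520080ebc1002a611)))
def t256 : k256.all (jb2 57 fl b0) = true := by decide +kernel
noncomputable def k257 : KT := (.br (Nat.shiftLeft (nat_lit 0x1c00000801) (nat_lit 102)) (.one (nat_lit 0x700000200300500801540060ebc1002a611)) (.br (Nat.shiftLeft (nat_lit 0x7000003) (nat_lit 112)) (.one (nat_lit 0x700000200400500801540080ebc1002a611)) (.one (nat_lit 0x700000300400500801560080ebc1002a611))))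
def t257 : k257.all (jb2 57 fl b0) = true := by decide +kernel
noncomputable def k258 : KT := (.br (Nat.shiftLeft (nat_lit 0x8000001003) (nat_lit 100)) (.one (nat_lit 0x8000001002005008015200410c01002a611)) (.one (nat_lit 0x8000001003005008015200610c01002a611)))
noncomputable def b259 : BT := .node (nat_lit 0xb) (nat_lit 0x9634b224dc003a98000ca6c19646d9a590003a98000cb601001b0001b0001b0001b0001b0001b0001b000150001500015000150000f0) .leaf .leaf
def t258 : k258.all (jb2 57 fl b259) = true := by decide +kernel
noncomputable def k259 : KT := (.br (Nat.shiftLeft (nat_lit 0x2000000801) (nat_lit 102)) (.br (Nat.shiftLeft (nat_lit 0x4000001) (nat_lit 113)) (.one (nat_lit 0x8000001004005008015200810c01002a611)) (.one (nat_lit 0x8000002003005008015400610c01002a611))) (.br (Nat.shiftLeft (nat_lit 0x8000003) (nat_lit 112)) (.one (nat_lit 0x8000002004005008015400810c01002a611)) (.one (nat_lit 0x8000003004005008015600810c01002a611))))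
def t259 : k259.all (jb2 57 fl b0) = true := by decide +kernel
noncomputable def k260 : KT := (.br (Nat.shiftLeft (nat_lit 0xc00000400801) (nat_lit 102)) (.br (Nat.shiftLeft (nat_lit 0x1) (nat_lit 149)) (.br (Nat.shiftLeft (nat_lit 0x400000400801) (nat_lit 102)) (.one (nat_lit 0x1000001002003005008015402640a03042a711)) (.one (nat_lit 0x1000001002004005008015402840a03042a711))) (.br (Nat.shiftLeft (nat_lit 0x800000400801) (nat_lit 102)) (.one (nat_lit 0x2000001002003005008015404680a03042a711)) (.br (Nat.shiftLeft (nat_lit 0x3) (nat_lit 148)) (.one (nat_lit 0x2000001002004005008015404880a03042a711)) (.one (nat_lit 0x30000010020030050080154066c0a03042a711))))) (.br (Nat.shiftLeft (nat_lit 0x1000000400801) (nat_lit 102)) (.br (Nat.shiftLeft (nat_lit 0x1) (nat_lit 150)) (.one (nat_lit 0x30000010020040050080154068c0a03042a711)) (.one (nat_lit 0x4000001002003005008015408700a03042a711))) (.br (Nat.shiftLeft (nat_lit 0x5) (nat_lit 148)) (.one (nat_lit 0x4000001002004005008015408900a03042a711)) (.br (Nat.shiftLeft (nat_lit 0x1400000400801)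 (nat_lit 102)) (.one (nat_lit 0x500000100200300500801540a740a03042a711)) (.one (nat_lit 0x500000100200400500801540a940a03042a711))))))
def t260 : k260.all (jb2 57 fl b0) = true := by decide +kernel
noncomputable def k261 : KT := (.br (Nat.shiftLeft (nat_lit 0x1800000400801) (nat_lit 102)) (.one (nat_lit 0x600000100200300500801540c780a03042a711)) (.br (Nat.shiftLeft (nat_lit 0x7) (nat_lit 148)) (.one (nat_lit 0x600000100200400500801540c980a03042a711)) (.one (nat_lit 0x700000100200300500801540e7c0a03042a711))))
def t261 : k261.all (jb2 57 fl b0) = true := by decide +kernel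
noncomputable def k262 : KT := (.br (Nat.shiftLeft (nat_lit 0x1) (nat_lit 151)) (.one (nat_lit 0x700000100200400500801540e9c0a03042a711)) (.br (Nat.shiftLeft (nat_lit 0x2000000400801) (nat_lit 102)) (.one (nat_lit 0x8000001002003005008015410800a03042a711)) (.one (nat_lit 0x8000001002004005008015410a00a03042a711))))
def t262 : k262.all (jb2 57 fl b0) = true := by decide +kernel
noncomputable def s12 : KT := (.br (nat_lit 0x500000200400500801540080ab41002a611) (.br (nat_lit 0x6000004005008015000800a0d182a511) (.br (nat_lit 0x2000004005008015000800a05082a511) (.br (nat_lit 0x1002004005008015400800a03042b700) k242 k243) (.br (nat_lit 0x3000004005008015000800a070c2a511) k244 (.br (nat_lit 0x5000004005008015000800a0b142a511) k245 k246))) (.br (nat_lit 0x8000003005008015000600a11202a511) (.br (nat_lit 0x7000003005008015000600a0f1c2a511) k247 k248) (.br (nat_lit 0x4000002004005008015400808b01002a611) k249 (.br (nat_lit 0x500000100300500801520060ab41002a611) k250 k251)))) (.br (nat_lit 0x700000100400500801520080ebc1002a611) (.br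 (nat_lit 0x600000100400500801520080cb81002a611) (.br (nat_lit 0x600000100200500801520040cb81002a611) k252 k253) (.br (nat_lit 0x600000200400500801540080cb81002a611) k254 (.br (nat_lit 0x700000100200500801520040ebc1002a611) k255 k256))) (.br (nat_lit 0x8000003004005008015600810c01002a611) (.br (nat_lit 0x700000300400500801560080ebc1002a611) k257 (.br (nat_lit 0x8000001003005008015200610c01002a611) k258 k259)) (.br (nat_lit 0x500000100200400500801540a940a03042a711) k260 (.br (nat_lit 0x700000100200300500801540e7c0a03042a711) k261 k262)))))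
noncomputable def u12 : KT := (.one (nat_lit 0x5008015000000a01002a430))
def w12 : u12.all (wj 57 s12) = true := by decide +kernel
def o12 : OkW 57 (jb2 57 fl) u12 := .lift s12 _ (.br _ _ _ (.br _ _ _ (.br _ _ _ (.br _ _ _ (.leaf b0 k242 t242) (.leaf b0 k243 t243)) (.br _ _ _ (.leaf b0 k244 t244) (.br _ _ _ (.leaf b0 k245 t245) (.leaf b0 k246 t246)))) (.br _ _ _ (.br _ _ _ (.leaf b0 k247 t247) (.leaf b0 k248 t248)) (.br _ _ _ (.leaf b0 k249 t249) (.br _ _ _ (.leaf b0 k250 t250) (.leaf b0 k251 t251))))) (.br _ _ _ (.br _ _ _ (.br _ _ _ (.leaf b0 k252 t252) (.leaf b0 k253 t253)) (.br _ _ _ (.leaf b0 k254 t254) (.br _ _ _ (.leaf b0 k255 t255) (.leaf b0 k256 t256)))) (.br _ _ _ (.br _ _ _ (.leaf b0 k257 t257) (.br _ _ _ (.leaf b259 k258 t258) (.leaf b0 k259 t259))) (.br _ _ _ (.leaf b0 k260 t260) (.br _ _ _ (.leaf b0 k261 t261) (.leaf b0 k262 t262)))))) w12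
noncomputable def k263 : KT := (.br (Nat.shiftLeft (nat_lit 0x801) (nat_lit 102)) (.br (Nat.shiftLeft (nat_lit 0x1) (nat_lit 112)) (.br (Nat.shiftLeft (nat_lit 0x1) (nat_lit 101)) (.br (Nat.shiftLeft (nat_lit 0x1) (nat_lit 100)) (.one (nat_lit 0x5008016000000a01002d400)) (.one (nat_lit 0x1005008016000200a01002c540))) (.br (Nat.shiftLeft (nat_lit 0x3) (nat_lit 100)) (.one (nat_lit 0x2005008016000400a01002d500)) (.br (Nat.shiftLeft (nat_lit 0x1) (nat_lit 102)) (.one (nat_lit 0x3005008016000600a01002d500)) (.one (nat_lit 0x4005008016000800a01002d500))))) (.br (Nat.shiftLeft (nat_lit 0x401) (nat_lit 102)) (.br (Nat.shiftLeft (nat_lit 0x801) (nat_lit 101)) (.one (nat_lit 0x1000005008016200000a01002c411)) (.br (Nat.shiftLeft (nat_lit 0x1003) (nat_lit 100)) (.one (nat_lit 0x1002005008016200400a01002d600)) (.one (nat_lit 0x1003005008016200600a01002d600)))) (.br (Nat.shiftLeft (nat_lit 0x1) (nat_lit 113)) (.one (nat_lit 0x1004005008016200800a01002d600)) (.br (Nat.shiftLeft (nat_lit 0x1001) (nat_lit 101)) (.one (nat_lit 0x2000005008016400000a01002c411))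 (.one (nat_lit 0x2003005008016400600a01002d600)))))) (.br (Nat.shiftLeft (nat_lit 0x7) (nat_lit 112)) (.br (Nat.shiftLeft (nat_lit 0x1) (nat_lit 114)) (.br (Nat.shiftLeft (nat_lit 0x3) (nat_lit 112)) (.one (nat_lit 0x2004005008016400800a01002d600)) (.br (Nat.shiftLeft (nat_lit 0xc01) (nat_lit 102)) (.one (nat_lit 0x3000005008016600000a01002c411)) (.one (nat_lit 0x3004005008016600800a01002d600)))) (.br (Nat.shiftLeft (nat_lit 0x5) (nat_lit 112)) (.one (nat_lit 0x4000005008016800000a01002c411)) (.br (Nat.shiftLeft (nat_lit 0x3) (nat_lit 113)) (.one (nat_lit 0x5000005008016a00000a01002c411)) (.one (nat_lit 0x6000005008016c00000a01002c411))))) (.br (Nat.shiftLeft (nat_lit 0x1000003) (nat_lit 100)) (.br (Nat.shiftLeft (nat_lit 0x1) (nat_lit 115)) (.one (nat_lit 0x7000005008016e00000a01002c411)) (.br (Nat.shiftLeft (nat_lit 0x1) (nat_lit 124)) (.one (nat_lit 0x8000005008016000000a01012e411)) (.one (nat_lit 0x1000002005008016000400a03042c511)))) (.br (Nat.shiftLeft (nat_lit 0x400001) (nat_lit 102)) (.one (nat_lit 0x1000003005008016000600a03042c511))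 (.br (Nat.shiftLeft (nat_lit 0x801) (nat_lit 113)) (.one (nat_lit 0x1000004005008016000800a03042c511)) (.one (nat_lit 0x1002003005008016400600a03042d700)))))))
def t263 : k263.all (jb2 57 fl b0) = true := by decide +kernel
noncomputable def k264 : KT := (.one (nat_lit 0x1002004005008016400800a03042c760))
def t264 : k264.all (jb2 57 fl b0) = true := by decide +kernel
noncomputable def k265 : KT := (.br (Nat.shiftLeft (nat_lit 0x2000003) (nat_lit 100)) (.br (Nat.shiftLeft (nat_lit 0x1) (nat_lit 125)) (.one (nat_lit 0x1003004005008016600800a03042c760)) (.one (nat_lit 0x2000002005008016000400a05082c511))) (.br (Nat.shiftLeft (nat_lit 0x800001) (nat_lit 102)) (.one (nat_lit 0x2000003005008016000600a05082c511)) (.one (nat_lit 0x2000004005008016000800a05082c511))))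
def t265 : k265.all (jb2 57 fl b0) = true := by decide +kernel
noncomputable def k266 : KT := (.br (Nat.shiftLeft (nat_lit 0xc00001) (nat_lit 102)) (.br (Nat.shiftLeft (nat_lit 0x3) (nat_lit 124)) (.one (nat_lit 0x2003004005008016600800a05082c760)) (.br (Nat.shiftLeft (nat_lit 0x3000003) (nat_lit 100)) (.one (nat_lit 0x3000002005008016000400a070c2c511)) (.one (nat_lit 0x3000003005008016000600a070c2c511)))) (.br (Nat.shiftLeft (nat_lit 0x4000003) (nat_lit 100)) (.br (Nat.shiftLeft (nat_lit 0x1) (nat_lit 126)) (.one (nat_lit 0x3000004005008016000800a070c2c511)) (.one (nat_lit 0x4000002005008016000400a09102c511))) (.br (Nat.shiftLeft (nat_lit 0x1000001) (nat_lit 102)) (.one (nat_lit 0x4000003005008016000600a09102c511)) (.one (nat_lit 0x4000004005008016000800a09102c511)))))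
def t266 : k266.all (jb2 57 fl b0) = true := by decide +kernel
noncomputable def k267 : KT := (.br (Nat.shiftLeft (nat_lit 0x1400001) (nat_lit 102)) (.br (Nat.shiftLeft (nat_lit 0x5000003) (nat_lit 100)) (.one (nat_lit 0x5000002005008016000400a0b142c511)) (.one (nat_lit 0x5000003005008016000600a0b142c511))) (.br (Nat.shiftLeft (nat_lit 0x3) (nat_lit 125)) (.one (nat_lit 0x5000004005008016000800a0b142c511)) (.one (nat_lit 0x6000002005008016000400a0d182c511))))
def t267 : k267.all (jb2 57 fl b0) = true := by decide +kernel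
noncomputable def k268 : KT := (.br (Nat.shiftLeft (nat_lit 0x1800001) (nat_lit 102)) (.one (nat_lit 0x6000003005008016000600a0d182c511)) (.br (Nat.shiftLeft (nat_lit 0x7) (nat_lit 124)) (.one (nat_lit 0x6000004005008016000800a0d182c511)) (.one (nat_lit 0x7000002005008016000400a0f1c2c511))))
def t268 : k268.all (jb2 57 fl b0) = true := by decide +kernel
noncomputable def k269 : KT := (.br (Nat.shiftLeft (nat_lit 0x1c00001) (nat_lit 102)) (.one (nat_lit 0x7000003005008016000600a0f1c2c511)) (.br (Nat.shiftLeft (nat_lit 0x1) (nat_lit 127)) (.one (nat_lit 0x7000004005008016000800a0f1c2c511)) (.one (nat_lit 0x8000002005008016000400a11202c511))))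
def t269 : k269.all (jb2 57 fl b0) = true := by decide +kernel
noncomputable def k270 : KT := (.br (Nat.shiftLeft (nat_lit 0x1000001) (nat_lit 113)) (.br (Nat.shiftLeft (nat_lit 0x800001) (nat_lit 113)) (.br (Nat.shiftLeft (nat_lit 0x1) (nat_lit 136)) (.br (Nat.shiftLeft (nat_lit 0x2000001) (nat_lit 102)) (.one (nat_lit 0x8000003005008016000600a11202c511)) (.one (nat_lit 0x8000004005008016000800a11202c511))) (.br (Nat.shiftLeft (nat_lit 0x1000001003) (nat_lit 100)) (.one (nat_lit 0x1000001002005008016200402a41002c611)) (.br (Nat.shiftLeft (nat_lit 0x400000401) (nat_lit 102)) (.one (nat_lit 0x1000001003005008016200602a41002c611)) (.one (nat_lit 0x1000001004005008016200802a41002c611))))) (.br (Nat.shiftLeft (nat_lit 0x1) (nat_lit 137)) (.br (Nat.shiftLeft (nat_lit 0x400000801) (nat_lit 102)) (.one (nat_lit 0x1000002003005008016400602a41002c611)) (.br (Nat.shiftLeft (nat_lit 0x1000003) (nat_lit 112)) (.one (nat_lit 0x1000002004005008016400802a41002c611)) (.one (nat_lit 0x1000003004005008016600802a41002c611)))) (.br (Nat.shiftLeft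 (nat_lit 0x2000001003) (nat_lit 100)) (.one (nat_lit 0x2000001002005008016200404a81002c611)) (.br (Nat.shiftLeft (nat_lit 0x800000401) (nat_lit 102)) (.one (nat_lit 0x2000001003005008016200604a81002c611)) (.one (nat_lit 0x2000001004005008016200804a81002c611)))))) (.br (Nat.shiftLeft (nat_lit 0x1800001) (nat_lit 113)) (.br (Nat.shiftLeft (nat_lit 0x3) (nat_lit 136)) (.br (Nat.shiftLeft (nat_lit 0x800000801) (nat_lit 102)) (.one (nat_lit 0x2000002003005008016400604a81002c611)) (.br (Nat.shiftLeft (nat_lit 0x2000003) (nat_lit 112)) (.one (nat_lit 0x2000002004005008016400804a81002c611)) (.one (nat_lit 0x2000003004005008016600804a81002c611)))) (.br (Nat.shiftLeft (nat_lit 0x3000001003) (nat_lit 100)) (.one (nat_lit 0x3000001002005008016200406ac1002c611)) (.br (Nat.shiftLeft (nat_lit 0xc00000401) (nat_lit 102)) (.one (nat_lit 0x3000001003005008016200606ac1002c611)) (.one (nat_lit 0x3000001004005008016200806ac1002c611))))) (.br (Nat.shiftLeft (nat_lit 0x1) (nat_lit 138)) (.br (Nat.shiftLeft (nat_lit 0xc00000801) (nat_lit 102))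 (.one (nat_lit 0x3000002003005008016400606ac1002c611)) (.br (Nat.shiftLeft (nat_lit 0x3000003) (nat_lit 112)) (.one (nat_lit 0x3000002004005008016400806ac1002c611)) (.one (nat_lit 0x3000003004005008016600806ac1002c611)))) (.br (Nat.shiftLeft (nat_lit 0x4000001003) (nat_lit 100)) (.one (nat_lit 0x4000001002005008016200408b01002c611)) (.br (Nat.shiftLeft (nat_lit 0x1000000401) (nat_lit 102)) (.one (nat_lit 0x4000001003005008016200608b01002c611)) (.one (nat_lit 0x4000001004005008016200808b01002c611)))))))
def t270 : k270.all (jb2 57 fl b0) = true := by decide +kernel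
noncomputable def k271 : KT := (.br (Nat.shiftLeft (nat_lit 0x4000003) (nat_lit 112)) (.br (Nat.shiftLeft (nat_lit 0x1000000801) (nat_lit 102)) (.one (nat_lit 0x4000002003005008016400608b01002c611)) (.one (nat_lit 0x4000002004005008016400808b01002c611))) (.br (Nat.shiftLeft (nat_lit 0x5) (nat_lit 136)) (.one (nat_lit 0x4000003004005008016600808b01002c611)) (.br (Nat.shiftLeft (nat_lit 0x5000001003) (nat_lit 100)) (.one (nat_lit 0x500000100200500801620040ab41002c611)) (.one (nat_lit 0x500000100300500801620060ab41002c611)))))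
def t271 : k271.all (jb2 57 fl b0) = true := by decide +kernel
noncomputable def k272 : KT := (.br (Nat.shiftLeft (nat_lit 0x1400000801) (nat_lit 102)) (.br (Nat.shiftLeft (nat_lit 0x2800001) (nat_lit 113)) (.one (nat_lit 0x500000100400500801620080ab41002c611)) (.one (nat_lit 0x500000200300500801640060ab41002c611))) (.br (Nat.shiftLeft (nat_lit 0x5000003) (nat_lit 112)) (.one (nat_lit 0x500000200400500801640080ab41002c611)) (.one (nat_lit 0x500000300400500801660080ab41002c611))))
def t272 : k272.all (jb2 57 fl b0) = true := by decide +kernel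
noncomputable def k273 : KT := (.br (Nat.shiftLeft (nat_lit 0x6000001003) (nat_lit 100)) (.one (nat_lit 0x600000100200500801620040cb81002c611)) (.one (nat_lit 0x600000100300500801620060cb81002c611)))
def t273 : k273.all (jb2 57 fl b0) = true := by decide +kernel
noncomputable def k274 : KT := (.br (Nat.shiftLeft (nat_lit 0x3000001) (nat_lit 113)) (.one (nat_lit 0x600000100400500801620080cb81002c611)) (.br (Nat.shiftLeft (nat_lit 0x1800000801) (nat_lit 102)) (.one (nat_lit 0x600000200300500801640060cb81002c611)) (.one (nat_lit 0x600000200400500801640080cb81002c611))))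
def t274 : k274.all (jb2 57 fl b0) = true := by decide +kernel
noncomputable def k275 : KT := (.br (Nat.shiftLeft (nat_lit 0x7) (nat_lit 136)) (.one (nat_lit 0x600000300400500801660080cb81002c611)) (.br (Nat.shiftLeft (nat_lit 0x7000001003) (nat_lit 100)) (.one (nat_lit 0x700000100200500801620040ebc1002c611)) (.one (nat_lit 0x700000100300500801620060ebc1002c611))))
def t275 : k275.all (jb2 57 fl b0) = true := by decide +kernel
noncomputable def k276 : KT := (.br (Nat.shiftLeft (nat_lit 0x1c00000801) (nat_lit 102)) (.br (Nat.shiftLeft (nat_lit 0x3800001) (nat_lit 113)) (.one (nat_lit 0x700000100400500801620080ebc1002c611)) (.one (nat_lit 0x700000200300500801640060ebc1002c611))) (.br (Nat.shiftLeft (nat_lit 0x7000003) (nat_lit 112)) (.one (nat_lit 0x700000200400500801640080ebc1002c611)) (.one (nat_lit 0x700000300400500801660080ebc1002c611))))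
def t276 : k276.all (jb2 57 fl b0) = true := by decide +kernel
noncomputable def k277 : KT := (.br (Nat.shiftLeft (nat_lit 0x8000001003) (nat_lit 100)) (.one (nat_lit 0x8000001002005008016200410c01002c611)) (.br (Nat.shiftLeft (nat_lit 0x2000000401) (nat_lit 102)) (.one (nat_lit 0x8000001003005008016200610c01002c611)) (.one (nat_lit 0x8000001004005008016200810c01002c611))))
def t277 : k277.all (jb2 57 fl b0) = true := by decide +kernel
noncomputable def k278 : KT := (.br (Nat.shiftLeft (nat_lit 0x1) (nat_lit 149)) (.br (Nat.shiftLeft (nat_lit 0x8000003) (nat_lit 112)) (.br (Nat.shiftLeft (nat_lit 0x2000000801) (nat_lit 102)) (.one (nat_lit 0x8000002003005008016400610c01002c611)) (.one (nat_lit 0x8000002004005008016400810c01002c611))) (.br (Nat.shiftLeft (nat_lit 0x1) (nat_lit 148)) (.one (nat_lit 0x8000003004005008016600810c01002c611)) (.one (nat_lit 0x1000001002003005008016402640a03042c711)))) (.br (Nat.shiftLeft (nat_lit 0x1) (nat_lit 150)) (.br (Nat.shiftLeft (nat_lit 0x3) (nat_lit 148)) (.one (nat_lit 0x2000001002003005008016404680a03042c711))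 (.one (nat_lit 0x30000010020030050080164066c0a03042c711))) (.br (Nat.shiftLeft (nat_lit 0x5) (nat_lit 148)) (.one (nat_lit 0x4000001002003005008016408700a03042c711)) (.one (nat_lit 0x500000100200300500801640a740a03042c711)))))
def t278 : k278.all (jb2 57 fl b0) = true := by decide +kernel
noncomputable def k279 : KT := (.br (Nat.shiftLeft (nat_lit 0x7) (nat_lit 148)) (.one (nat_lit 0x600000100200300500801640c780a03042c711)) (.br (Nat.shiftLeft (nat_lit 0x1) (nat_lit 151)) (.one (nat_lit 0x700000100200300500801640e7c0a03042c711)) (.one (nat_lit 0x8000001002003005008016410800a03042c711))))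
def t279 : k279.all (jb2 57 fl b0) = true := by decide +kernel
noncomputable def s13 : KT := (.br (nat_lit 0x4000001004005008016200808b01002c611) (.br (nat_lit 0x4000004005008016000800a09102c511) (.br (nat_lit 0x1002004005008016400800a03042c760) (.br (nat_lit 0x1002003005008016400600a03042d700) k263 k264) (.br (nat_lit 0x2000004005008016000800a05082c511) k265 k266)) (.br (nat_lit 0x7000002005008016000400a0f1c2c511) (.br (nat_lit 0x6000002005008016000400a0d182c511) k267 k268) (.br (nat_lit 0x8000002005008016000400a11202c511) k269 k270))) (.br (nat_lit 0x600000200400500801640080cb81002c611) (.br (nat_lit 0x500000300400500801660080ab41002c611) (.br (nat_lit 0x500000100300500801620060ab41002c611) k271 k272) (.br (nat_lit 0x600000100300500801620060cb81002c611) k273 k274)) (.br (nat_lit 0x700000300400500801660080ebc1002c611) (.br (nat_lit 0x700000100300500801620060ebc1002c611) k275 k276) (.br (nat_lit 0x8000001004005008016200810c01002c611) k277 (.br (nat_lit 0x500000100200300500801640a740a03042c711) k278 k279)))))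
noncomputable def u13 : KT := (.one (nat_lit 0x5008016000000a01002c430))
def w13 : u13.all (wj 57 s13) = true := by decide +kernel
def o13 : OkW 57 (jb2 57 fl) u13 := .lift s13 _ (.br _ _ _ (.br _ _ _ (.br _ _ _ (.br _ _ _ (.leaf b0 k263 t263) (.leaf b0 k264 t264)) (.br _ _ _ (.leaf b0 k265 t265) (.leaf b0 k266 t266))) (.br _ _ _ (.br _ _ _ (.leaf b0 k267 t267) (.leaf b0 k268 t268)) (.br _ _ _ (.leaf b0 k269 t269) (.leaf b0 k270 t270)))) (.br _ _ _ (.br _ _ _ (.br _ _ _ (.leaf b0 k271 t271) (.leaf b0 k272 t272)) (.br _ _ _ (.leaf b0 k273 t273) (.leaf b0 k274 t274))) (.br _ _ _ (.br _ _ _ (.leaf b0 k275 t275) (.leaf b0 k276 t276)) (.br _ _ _ (.leaf b0 k277 t277) (.br _ _ _ (.leaf b0 k278 t278) (.leaf b0 k279 t279)))))) w13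
noncomputable def k280 : KT := (.br (Nat.shiftLeft (nat_lit 0xa01003) (nat_lit 67)) (.one (nat_lit 0x5008017000000a01002f400)) (.br (Nat.shiftLeft (nat_lit 0x1) (nat_lit 100)) (.one (nat_lit 0x5008018000000a010031400)) (.one (nat_lit 0x1005008017000200a01002e540))))
def t280 : k280.all (jb2 57 fl b0) = true := by decide +kernel
noncomputable def k281 : KT := (.br (Nat.shiftLeft (nat_lit 0x1) (nat_lit 102)) (.br (Nat.shiftLeft (nat_lit 0x400a01003) (nat_lit 67)) (.br (Nat.shiftLeft (nat_lit 0x1) (nat_lit 101)) (.one (nat_lit 0x1005008018000200a010030540)) (.one (nat_lit 0x2005008017000400a01002f500))) (.br (Nat.shiftLeft (nat_lit 0x3) (nat_lit 100)) (.one (nat_lit 0x2005008018000400a010031500)) (.br (Nat.shiftLeft (nat_lit 0x600a01003) (nat_lit 67)) (.one (nat_lit 0x3005008017000600a01002f500)) (.one (nat_lit 0x3005008018000600a010031500))))) (.br (Nat.shiftLeft (nat_lit 0x1) (nat_lit 112)) (.br (Nat.shiftLeft (nat_lit 0x800a01003) (nat_lit 67)) (.one (nat_lit 0x4005008017000800a01002f500)) (.one (nat_lit 0x4005008018000800a010031500)))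 (.br (Nat.shiftLeft (nat_lit 0x200000a01003) (nat_lit 67)) (.one (nat_lit 0x1000005008017200000a01002e411)) (.br (Nat.shiftLeft (nat_lit 0x801) (nat_lit 101)) (.one (nat_lit 0x1000005008018200000a010030411)) (.one (nat_lit 0x1002005008017200400a01002f600))))))
def t281 : k281.all (jb2 57 fl b0) = true := by decide +kernel
noncomputable def k282 : KT := (.br (Nat.shiftLeft (nat_lit 0x1003) (nat_lit 100)) (.one (nat_lit 0x1002005008018200400a010030650)) (.one (nat_lit 0x1003005008017200600a01002f600)))
def t282 : k282.all (jb2 57 fl b0) = true := by decide +kernel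
noncomputable def k283 : KT := (.one (nat_lit 0x1003005008018200600a010030650))
def t283 : k283.all (jb2 57 fl b0) = true := by decide +kernel
noncomputable def k284 : KT := (.one (nat_lit 0x1004005008017200800a01002e650))
def t284 : k284.all (jb2 57 fl b0) = true := by decide +kernel
noncomputable def k285 : KT := (.br (Nat.shiftLeft (nat_lit 0x1001) (nat_lit 101)) (.br (Nat.shiftLeft (nat_lit 0x1) (nat_lit 113)) (.one (nat_lit 0x1004005008018200800a010030650)) (.br (Nat.shiftLeft (nat_lit 0x400000a01003) (nat_lit 67)) (.one (nat_lit 0x2000005008017400000a01002e411)) (.one (nat_lit 0x2000005008018400000a010030411)))) (.br (Nat.shiftLeft (nat_lit 0x400600a01003) (nat_lit 67)) (.one (nat_lit 0x2003005008017400600a01002f600)) (.br (Nat.shiftLeft (nat_lit 0x801) (nat_lit 102)) (.one (nat_lit 0x2003005008018400600a010031600)) (.one (nat_lit 0x2004005008017400800a01002f600)))))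
def t285 : k285.all (jb2 57 fl b0) = true := by decide +kernel
noncomputable def k286 : KT := (.br (Nat.shiftLeft (nat_lit 0x600800a01003) (nat_lit 67)) (.br (Nat.shiftLeft (nat_lit 0x600000a01003) (nat_lit 67)) (.br (Nat.shiftLeft (nat_lit 0x3) (nat_lit 112)) (.one (nat_lit 0x2004005008018400800a010030650)) (.one (nat_lit 0x3000005008017600000a01002e411))) (.br (Nat.shiftLeft (nat_lit 0xc01) (nat_lit 102)) (.one (nat_lit 0x3000005008018600000a010030411)) (.one (nat_lit 0x3004005008017600800a01002f600)))) (.br (Nat.shiftLeft (nat_lit 0x800000a01003) (nat_lit 67)) (.br (Nat.shiftLeft (nat_lit 0x1) (nat_lit 114)) (.one (nat_lit 0x3004005008018600800a010031600)) (.one (nat_lit 0x4000005008017800000a01002e411))) (.br (Nat.shiftLeft (nat_lit 0x5) (nat_lit 112)) (.one (nat_lit 0x4000005008018800000a010030411)) (.one (nat_lit 0x5000005008017a00000a01002e411)))))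
def t286 : k286.all (jb2 57 fl b0) = true := by decide +kernel
noncomputable def k287 : KT := (.br (Nat.shiftLeft (nat_lit 0x1000000a01003) (nat_lit 67)) (.br (Nat.shiftLeft (nat_lit 0x7) (nat_lit 112)) (.br (Nat.shiftLeft (nat_lit 0x3) (nat_lit 113)) (.one (nat_lit 0x5000005008018a00000a010030411)) (.br (Nat.shiftLeft (nat_lit 0xc00000a01003) (nat_lit 67)) (.one (nat_lit 0x6000005008017c00000a01002e411)) (.one (nat_lit 0x6000005008018c00000a010030411)))) (.br (Nat.shiftLeft (nat_lit 0xe00000a01003) (nat_lit 67)) (.one (nat_lit 0x7000005008017e00000a01002e411)) (.br (Nat.shiftLeft (nat_lit 0x1) (nat_lit 115)) (.one (nat_lit 0x7000005008018e00000a010030411)) (.one (nat_lit 0x8000005008017000000a010130411))))) (.br (Nat.shiftLeft (nat_lit 0x1000003) (nat_lit 100)) (.br (Nat.shiftLeft (nat_lit 0x1) (nat_lit 124)) (.one (nat_lit 0x8000005008018000000a010132411)) (.br (Nat.shiftLeft (nat_lit 0x200000400a01003) (nat_lit 67)) (.one (nat_lit 0x1000002005008017000400a03042e511)) (.one (nat_lit 0x1000002005008018000400a030430511))))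 (.br (Nat.shiftLeft (nat_lit 0x400001) (nat_lit 102)) (.br (Nat.shiftLeft (nat_lit 0x200000600a01003) (nat_lit 67)) (.one (nat_lit 0x1000003005008017000600a03042e511)) (.one (nat_lit 0x1000003005008018000600a030430511))) (.br (Nat.shiftLeft (nat_lit 0x200000800a01003) (nat_lit 67)) (.one (nat_lit 0x1000004005008017000800a03042e511)) (.one (nat_lit 0x1000004005008018000800a030430511))))))
def t287 : k287.all (jb2 57 fl b0) = true := by decide +kernel
noncomputable def k288 : KT := (.one (nat_lit 0x1002003005008017400600a03042e760))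
def t288 : k288.all (jb2 57 fl b0) = true := by decide +kernel
noncomputable def k289 : KT := (.one (nat_lit 0x1002003005008018400600a030430760))
def t289 : k289.all (jb2 57 fl b0) = true := by decide +kernel
noncomputable def k290 : KT := (.br (Nat.shiftLeft (nat_lit 0x1003) (nat_lit 112)) (.one (nat_lit 0x1002004005008017400800a03042e760)) (.one (nat_lit 0x1003004005008017600800a03042e760)))
def t290 : k290.all (jb2 57 fl b0) = true := by decide +kernel
noncomputable def k291 : KT := (.br (Nat.shiftLeft (nat_lit 0x400000600a01003) (nat_lit 67)) (.br (Nat.shiftLeft (nat_lit 0x400000400a01003) (nat_lit 67)) (.br (Nat.shiftLeft (nat_lit 0x1) (nat_lit 125)) (.one (nat_lit 0x1003004005008018600800a030430760)) (.one (nat_lit 0x2000002005008017000400a05082e511))) (.br (Nat.shiftLeft (nat_lit 0x2000003) (nat_lit 100)) (.one (nat_lit 0x2000002005008018000400a050830511)) (.one (nat_lit 0x2000003005008017000600a05082e511)))) (.br (Nat.shiftLeft (nat_lit 0x400000800a01003) (nat_lit 67)) (.br (Nat.shiftLeft (nat_lit 0x800001) (nat_lit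 102)) (.one (nat_lit 0x2000003005008018000600a050830511)) (.one (nat_lit 0x2000004005008017000800a05082e511))) (.br (Nat.shiftLeft (nat_lit 0x1001) (nat_lit 113)) (.one (nat_lit 0x2000004005008018000800a050830511)) (.one (nat_lit 0x2003004005008017600800a05082e760)))))
def t291 : k291.all (jb2 57 fl b0) = true := by decide +kernel
noncomputable def k292 : KT := (.br (Nat.shiftLeft (nat_lit 0x600000800a01003) (nat_lit 67)) (.br (Nat.shiftLeft (nat_lit 0x3000003) (nat_lit 100)) (.br (Nat.shiftLeft (nat_lit 0x3) (nat_lit 124)) (.one (nat_lit 0x2003004005008018600800a050830760)) (.br (Nat.shiftLeft (nat_lit 0x600000400a01003) (nat_lit 67)) (.one (nat_lit 0x3000002005008017000400a070c2e511)) (.one (nat_lit 0x3000002005008018000400a070c30511)))) (.br (Nat.shiftLeft (nat_lit 0x600000600a01003) (nat_lit 67)) (.one (nat_lit 0x3000003005008017000600a070c2e511)) (.br (Nat.shiftLeft (nat_lit 0xc00001) (nat_lit 102)) (.one (nat_lit 0x3000003005008018000600a070c30511)) (.one (nat_lit 0x3000004005008017000800a070c2e511))))) (.br (Nat.shiftLeft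 (nat_lit 0x4000003) (nat_lit 100)) (.br (Nat.shiftLeft (nat_lit 0x1) (nat_lit 126)) (.one (nat_lit 0x3000004005008018000800a070c30511)) (.br (Nat.shiftLeft (nat_lit 0x800000400a01003) (nat_lit 67)) (.one (nat_lit 0x4000002005008017000400a09102e511)) (.one (nat_lit 0x4000002005008018000400a091030511)))) (.br (Nat.shiftLeft (nat_lit 0x1000001) (nat_lit 102)) (.br (Nat.shiftLeft (nat_lit 0x800000600a01003) (nat_lit 67)) (.one (nat_lit 0x4000003005008017000600a09102e511)) (.one (nat_lit 0x4000003005008018000600a091030511))) (.br (Nat.shiftLeft (nat_lit 0x800000800a01003) (nat_lit 67)) (.one (nat_lit 0x4000004005008017000800a09102e511)) (.one (nat_lit 0x4000004005008018000800a091030511))))))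
def t292 : k292.all (jb2 57 fl b0) = true := by decide +kernel
noncomputable def k293 : KT := (.br (Nat.shiftLeft (nat_lit 0xa00000600a01003) (nat_lit 67)) (.br (Nat.shiftLeft (nat_lit 0xa00000400a01003) (nat_lit 67)) (.one (nat_lit 0x5000002005008017000400a0b142e511)) (.br (Nat.shiftLeft (nat_lit 0x5000003) (nat_lit 100)) (.one (nat_lit 0x5000002005008018000400a0b1430511)) (.one (nat_lit 0x5000003005008017000600a0b142e511)))) (.br (Nat.shiftLeft (nat_lit 0x1400001) (nat_lit 102)) (.one (nat_lit 0x5000003005008018000600a0b1430511)) (.br (Nat.shiftLeft (nat_lit 0xa00000800a01003) (nat_lit 67)) (.one (nat_lit 0x5000004005008017000800a0b142e511)) (.one (nat_lit 0x5000004005008018000800a0b1430511)))))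
def t293 : k293.all (jb2 57 fl b0) = true := by decide +kernel
noncomputable def k294 : KT := (.br (Nat.shiftLeft (nat_lit 0x6000003) (nat_lit 100)) (.br (Nat.shiftLeft (nat_lit 0xc00000400a01003) (nat_lit 67)) (.one (nat_lit 0x6000002005008017000400a0d182e511)) (.one (nat_lit 0x6000002005008018000400a0d1830511))) (.br (Nat.shiftLeft (nat_lit 0xc00000600a01003) (nat_lit 67)) (.one (nat_lit 0x6000003005008017000600a0d182e511)) (.one (nat_lit 0x6000003005008018000600a0d1830511))))
def t294 : k294.all (jb2 57 fl b0) = true := by decide +kernel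
noncomputable def k295 : KT := (.br (Nat.shiftLeft (nat_lit 0x7) (nat_lit 124)) (.br (Nat.shiftLeft (nat_lit 0xc00000800a01003) (nat_lit 67)) (.one (nat_lit 0x6000004005008017000800a0d182e511)) (.one (nat_lit 0x6000004005008018000800a0d1830511))) (.br (Nat.shiftLeft (nat_lit 0xe00000400a01003) (nat_lit 67)) (.one (nat_lit 0x7000002005008017000400a0f1c2e511)) (.one (nat_lit 0x7000002005008018000400a0f1c30511))))
def t295 : k295.all (jb2 57 fl b0) = true := by decide +kernel
noncomputable def k296 : KT := (.br (Nat.shiftLeft (nat_lit 0x1c00001) (nat_lit 102)) (.br (Nat.shiftLeft (nat_lit 0xe00000600a01003) (nat_lit 67)) (.one (nat_lit 0x7000003005008017000600a0f1c2e511)) (.one (nat_lit 0x7000003005008018000600a0f1c30511))) (.br (Nat.shiftLeft (nat_lit 0xe00000800a01003) (nat_lit 67)) (.one (nat_lit 0x7000004005008017000800a0f1c2e511)) (.br (Nat.shiftLeft (nat_lit 0x1) (nat_lit 127)) (.one (nat_lit 0x7000004005008018000800a0f1c30511)) (.one (nat_lit 0x8000002005008017000400a11202e511)))))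
def t296 : k296.all (jb2 57 fl b0) = true := by decide +kernel
noncomputable def k297 : KT := (.br (Nat.shiftLeft (nat_lit 0x1) (nat_lit 137)) (.br (Nat.shiftLeft (nat_lit 0x1000001003) (nat_lit 100)) (.br (Nat.shiftLeft (nat_lit 0x2000001) (nat_lit 102)) (.br (Nat.shiftLeft (nat_lit 0x8000003) (nat_lit 100)) (.one (nat_lit 0x8000002005008018000400a112030511)) (.br (Nat.shiftLeft (nat_lit 0x1000000600a01003) (nat_lit 67)) (.one (nat_lit 0x8000003005008017000600a11202e511)) (.one (nat_lit 0x8000003005008018000600a112030511)))) (.br (Nat.shiftLeft (nat_lit 0x1000000800a01003) (nat_lit 67)) (.one (nat_lit 0x8000004005008017000800a11202e511)) (.br (Nat.shiftLeft (nat_lit 0x1) (nat_lit 136)) (.one (nat_lit 0x8000004005008018000800a112030511)) (.one (nat_lit 0x1000001002005008017200402a41002e611))))) (.br (Nat.shiftLeft (nat_lit 0x400000801) (nat_lit 102)) (.br (Nat.shiftLeft (nat_lit 0x800001) (nat_lit 113)) (.one (nat_lit 0x1000001003005008017200602a41002e611)) (.br (Nat.shiftLeft (nat_lit 0x200000400600a01003) (nat_lit 67))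 (.one (nat_lit 0x1000002003005008017400602a41002e611)) (.one (nat_lit 0x1000002003005008018400602a410030611)))) (.br (Nat.shiftLeft (nat_lit 0x1000003) (nat_lit 112)) (.one (nat_lit 0x1000002004005008017400802a41002e611)) (.br (Nat.shiftLeft (nat_lit 0x200000600800a01003) (nat_lit 67)) (.one (nat_lit 0x1000003004005008017600802a41002e611)) (.one (nat_lit 0x1000003004005008018600802a410030611)))))) (.br (Nat.shiftLeft (nat_lit 0x400000600800a01003) (nat_lit 67)) (.br (Nat.shiftLeft (nat_lit 0x400000400600a01003) (nat_lit 67)) (.br (Nat.shiftLeft (nat_lit 0x2000001003) (nat_lit 100)) (.one (nat_lit 0x2000001002005008017200404a81002e611)) (.br (Nat.shiftLeft (nat_lit 0x1000001) (nat_lit 113)) (.one (nat_lit 0x2000001003005008017200604a81002e611)) (.one (nat_lit 0x2000002003005008017400604a81002e611)))) (.br (Nat.shiftLeft (nat_lit 0x800000801) (nat_lit 102)) (.one (nat_lit 0x2000002003005008018400604a810030611)) (.br (Nat.shiftLeft (nat_lit 0x2000003) (nat_lit 112)) (.one (nat_lit 0x2000002004005008017400804a81002e611)) (.one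 (nat_lit 0x2000003004005008017600804a81002e611))))) (.br (Nat.shiftLeft (nat_lit 0x1800001) (nat_lit 113)) (.br (Nat.shiftLeft (nat_lit 0x3) (nat_lit 136)) (.one (nat_lit 0x2000003004005008018600804a810030611)) (.br (Nat.shiftLeft (nat_lit 0x3000001003) (nat_lit 100)) (.one (nat_lit 0x3000001002005008017200406ac1002e611)) (.one (nat_lit 0x3000001003005008017200606ac1002e611)))) (.br (Nat.shiftLeft (nat_lit 0xc00000801) (nat_lit 102)) (.br (Nat.shiftLeft (nat_lit 0x600000400600a01003) (nat_lit 67)) (.one (nat_lit 0x3000002003005008017400606ac1002e611)) (.one (nat_lit 0x3000002003005008018400606ac10030611))) (.br (Nat.shiftLeft (nat_lit 0x3000003) (nat_lit 112)) (.one (nat_lit 0x3000002004005008017400806ac1002e611)) (.one (nat_lit 0x3000003004005008017600806ac1002e611)))))))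
def t297 : k297.all (jb2 57 fl b0) = true := by decide +kernel
noncomputable def k298 : KT := (.br (Nat.shiftLeft (nat_lit 0x800000400600a01003) (nat_lit 67)) (.br (Nat.shiftLeft (nat_lit 0x4000001003) (nat_lit 100)) (.br (Nat.shiftLeft (nat_lit 0x1) (nat_lit 138)) (.one (nat_lit 0x3000003004005008018600806ac10030611)) (.one (nat_lit 0x4000001002005008017200408b01002e611))) (.br (Nat.shiftLeft (nat_lit 0x2000001) (nat_lit 113)) (.one (nat_lit 0x4000001003005008017200608b01002e611)) (.one (nat_lit 0x4000002003005008017400608b01002e611)))) (.br (Nat.shiftLeft (nat_lit 0x4000003) (nat_lit 112)) (.br (Nat.shiftLeft (nat_lit 0x1000000801) (nat_lit 102)) (.one (nat_lit 0x4000002003005008018400608b010030611)) (.one (nat_lit 0x4000002004005008017400808b01002e611))) (.br (Nat.shiftLeft (nat_lit 0x800000600800a01003) (nat_lit 67)) (.one (nat_lit 0x4000003004005008017600808b01002e611)) (.br (Nat.shiftLeft (nat_lit 0x5) (nat_lit 136)) (.one (nat_lit 0x4000003004005008018600808b010030611)) (.one (nat_lit 0x500000100200500801720040ab41002e611))))))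
def t298 : k298.all (jb2 57 fl b0) = true := by decide +kernel
noncomputable def k299 : KT := (.br (Nat.shiftLeft (nat_lit 0xa00000400600a01003) (nat_lit 67)) (.br (Nat.shiftLeft (nat_lit 0x2800001) (nat_lit 113)) (.one (nat_lit 0x500000100300500801720060ab41002e611)) (.one (nat_lit 0x500000200300500801740060ab41002e611))) (.br (Nat.shiftLeft (nat_lit 0x1400000801) (nat_lit 102)) (.one (nat_lit 0x500000200300500801840060ab410030611)) (.br (Nat.shiftLeft (nat_lit 0x5000003) (nat_lit 112)) (.one (nat_lit 0x500000200400500801740080ab41002e611)) (.one (nat_lit 0x500000300400500801760080ab41002e611)))))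
def t299 : k299.all (jb2 57 fl b0) = true := by decide +kernel
noncomputable def k300 : KT := (.br (Nat.shiftLeft (nat_lit 0x6000001003) (nat_lit 100)) (.br (Nat.shiftLeft (nat_lit 0x3) (nat_lit 137)) (.one (nat_lit 0x500000300400500801860080ab410030611)) (.one (nat_lit 0x600000100200500801720040cb81002e611))) (.br (Nat.shiftLeft (nat_lit 0x3000001) (nat_lit 113)) (.one (nat_lit 0x600000100300500801720060cb81002e611)) (.one (nat_lit 0x600000200300500801740060cb81002e611))))
def t300 : k300.all (jb2 57 fl b0) = true := by decide +kernel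
noncomputable def k301 : KT := (.br (Nat.shiftLeft (nat_lit 0x6000003) (nat_lit 112)) (.br (Nat.shiftLeft (nat_lit 0x1800000801) (nat_lit 102)) (.one (nat_lit 0x600000200300500801840060cb810030611)) (.one (nat_lit 0x600000200400500801740080cb81002e611))) (.br (Nat.shiftLeft (nat_lit 0xc00000600800a01003) (nat_lit 67)) (.one (nat_lit 0x600000300400500801760080cb81002e611)) (.br (Nat.shiftLeft (nat_lit 0x7) (nat_lit 136)) (.one (nat_lit 0x600000300400500801860080cb810030611)) (.one (nat_lit 0x700000100200500801720040ebc1002e611)))))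
def t301 : k301.all (jb2 57 fl b0) = true := by decide +kernel
noncomputable def k302 : KT := (.br (Nat.shiftLeft (nat_lit 0x1c00000801) (nat_lit 102)) (.br (Nat.shiftLeft (nat_lit 0x3800001) (nat_lit 113)) (.one (nat_lit 0x700000100300500801720060ebc1002e611)) (.br (Nat.shiftLeft (nat_lit 0xe00000400600a01003) (nat_lit 67)) (.one (nat_lit 0x700000200300500801740060ebc1002e611)) (.one (nat_lit 0x700000200300500801840060ebc10030611)))) (.br (Nat.shiftLeft (nat_lit 0x7000003) (nat_lit 112)) (.one (nat_lit 0x700000200400500801740080ebc1002e611)) (.br (Nat.shiftLeft (nat_lit 0xe00000600800a01003) (nat_lit 67)) (.one (nat_lit 0x700000300400500801760080ebc1002e611)) (.one (nat_lit 0x700000300400500801860080ebc10030611)))))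
def t302 : k302.all (jb2 57 fl b0) = true := by decide +kernel
noncomputable def k303 : KT := (.br (Nat.shiftLeft (nat_lit 0x1000000400600a01003) (nat_lit 67)) (.br (Nat.shiftLeft (nat_lit 0x8000001003) (nat_lit 100)) (.one (nat_lit 0x8000001002005008017200410c01002e611)) (.br (Nat.shiftLeft (nat_lit 0x4000001) (nat_lit 113)) (.one (nat_lit 0x8000001003005008017200610c01002e611)) (.one (nat_lit 0x8000002003005008017400610c01002e611)))) (.br (Nat.shiftLeft (nat_lit 0x8000003) (nat_lit 112)) (.br (Nat.shiftLeft (nat_lit 0x2000000801) (nat_lit 102)) (.one (nat_lit 0x8000002003005008018400610c010030611)) (.one (nat_lit 0x8000002004005008017400810c01002e611))) (.br (Nat.shiftLeft (nat_lit 0x1000000600800a01003) (nat_lit 67)) (.one (nat_lit 0x8000003004005008017600810c01002e611)) (.one (nat_lit 0x8000003004005008018600810c010030611)))))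
def t303 : k303.all (jb2 57 fl b0) = true := by decide +kernel
noncomputable def s14 : KT := (.br (nat_lit 0x2003004005008017600800a05082e760) (.br (nat_lit 0x2004005008017400800a01002f600) (.br (nat_lit 0x1003005008017200600a01002f600) (.br (nat_lit 0x1005008017000200a01002e540) k280 (.br (nat_lit 0x1002005008017200400a01002f600) k281 k282)) (.br (nat_lit 0x1003005008018200600a010030650) k283 (.br (nat_lit 0x1004005008017200800a01002e650) k284 k285))) (.br (nat_lit 0x1002003005008017400600a03042e760) (.br (nat_lit 0x5000005008017a00000a01002e411) k286 (.br (nat_lit 0x1000004005008018000800a030430511) k287 k288)) (.br (nat_lit 0x1002003005008018400600a030430760) k289 (.br (nat_lit 0x1003004005008017600800a03042e760) k290 k291)))) (.br (nat_lit 0x3000003004005008017600806ac1002e611) (.br (nat_lit 0x6000003005008018000600a0d1830511) (.br (nat_lit 0x4000004005008018000800a091030511) k292 (.br (nat_lit 0x5000004005008018000800a0b1430511) k293 k294)) (.br (nat_lit 0x7000002005008018000400a0f1c30511) k295 (.br (nat_lit 0x8000002005008017000400a11202e511)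 k296 k297))) (.br (nat_lit 0x600000200300500801740060cb81002e611) (.br (nat_lit 0x500000100200500801720040ab41002e611) k298 (.br (nat_lit 0x500000300400500801760080ab41002e611) k299 k300)) (.br (nat_lit 0x700000100200500801720040ebc1002e611) k301 (.br (nat_lit 0x700000300400500801860080ebc10030611) k302 k303)))))
noncomputable def u14 : KT := (.br (Nat.shiftLeft (nat_lit 0xa01003) (nat_lit 67)) (.one (nat_lit 0x5008017000000a01002e430)) (.one (nat_lit 0x5008018000000a010030430)))
def w14 : u14.all (wj 57 s14) = true := by decide +kernel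
def o14 : OkW 57 (jb2 57 fl) u14 := .lift s14 _ (.br _ _ _ (.br _ _ _ (.br _ _ _ (.br _ _ _ (.leaf b0 k280 t280) (.br _ _ _ (.leaf b0 k281 t281) (.leaf b0 k282 t282))) (.br _ _ _ (.leaf b0 k283 t283) (.br _ _ _ (.leaf b0 k284 t284) (.leaf b0 k285 t285)))) (.br _ _ _ (.br _ _ _ (.leaf b0 k286 t286) (.br _ _ _ (.leaf b0 k287 t287) (.leaf b0 k288 t288))) (.br _ _ _ (.leaf b0 k289 t289) (.br _ _ _ (.leaf b0 k290 t290) (.leaf b0 k291 t291))))) (.br _ _ _ (.br _ _ _ (.br _ _ _ (.leaf b0 k292 t292) (.br _ _ _ (.leaf b0 k293 t293) (.leaf b0 k294 t294))) (.br _ _ _ (.leaf b0 k295 t295) (.br _ _ _ (.leaf b0 k296 t296) (.leaf b0 k297 t297)))) (.br _ _ _ (.br _ _ _ (.leaf b0 k298 t298) (.br _ _ _ (.leaf b0 k299 t299) (.leaf b0 k300 t300))) (.br _ _ _ (.leaf b0 k301 t301) (.br _ _ _ (.leaf b0 k302 t302) (.leaf b0 k303 t303)))))) w14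
noncomputable def k304 : KT := (.br (Nat.shiftLeft (nat_lit 0x1) (nat_lit 101)) (.br (Nat.shiftLeft (nat_lit 0x5009013) (nat_lit 64)) (.br (Nat.shiftLeft (nat_lit 0x280400d) (nat_lit 65)) (.one (nat_lit 0x5008019000000a010033400)) (.br (Nat.shiftLeft (nat_lit 0x5009) (nat_lit 76)) (.one (nat_lit 0x500801a000000a010035400)) (.one (nat_lit 0x5009012000000a012025400)))) (.br (Nat.shiftLeft (nat_lit 0x1) (nat_lit 100)) (.br (Nat.shiftLeft (nat_lit 0x1402405) (nat_lit 66)) (.one (nat_lit 0x5009013000000a012027400)) (.one (nat_lit 0x5009014000000a012029400))) (.br (Nat.shiftLeft (nat_lit 0x80280400d) (nat_lit 65)) (.one (nat_lit 0x1005008019000200a010032540)) (.one (nat_lit 0x100500801a000200a010034540))))) (.br (Nat.shiftLeft (nat_lit 0x1) (nat_lit 102)) (.br (Nat.shiftLeft (nat_lit 0x3) (nat_lit 100)) (.br (Nat.shiftLeft (nat_lit 0x100280400d) (nat_lit 65)) (.one (nat_lit 0x2005008019000400a010033500)) (.one (nat_lit 0x200500801a000400a010035500))) (.br (Nat.shiftLeft (nat_lit 0x180280400d) (nat_lit 65)) (.one (nat_lit 0x3005008019000600a010033500))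 (.one (nat_lit 0x300500801a000600a010035500)))) (.br (Nat.shiftLeft (nat_lit 0x1) (nat_lit 112)) (.br (Nat.shiftLeft (nat_lit 0x200280400d) (nat_lit 65)) (.one (nat_lit 0x4005008019000800a010033500)) (.one (nat_lit 0x400500801a000800a010035500))) (.br (Nat.shiftLeft (nat_lit 0x80000280400d) (nat_lit 65)) (.one (nat_lit 0x1000005008019200000a010032411)) (.one (nat_lit 0x100000500801a200000a010034411))))))
def t304 : k304.all (jb2 57 fl b0) = true := by decide +kernel
noncomputable def k305 : KT := (.one (nat_lit 0x1002005008019200400a010032650))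
def t305 : k305.all (jb2 57 fl b0) = true := by decide +kernel
noncomputable def k306 : KT := (.one (nat_lit 0x100200500801a200400a010034650))
def t306 : k306.all (jb2 57 fl b0) = true := by decide +kernel
noncomputable def k307 : KT := (.one (nat_lit 0x1003005008019200600a010032650))
def t307 : k307.all (jb2 57 fl b0) = true := by decide +kernel
noncomputable def k308 : KT := (.br (Nat.shiftLeft (nat_lit 0x401) (nat_lit 102)) (.one (nat_lit 0x100300500801a200600a010034650)) (.one (nat_lit 0x1004005008019200800a010032650)))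
def t308 : k308.all (jb2 57 fl b0) = true := by decide +kernel
noncomputable def k309 : KT := (.br (Nat.shiftLeft (nat_lit 0x1) (nat_lit 113)) (.one (nat_lit 0x100400500801a200800a010034650)) (.br (Nat.shiftLeft (nat_lit 0x100000280400d) (nat_lit 65)) (.one (nat_lit 0x2000005008019400000a010032411)) (.one (nat_lit 0x200000500801a400000a010034411))))
def t309 : k309.all (jb2 57 fl b0) = true := by decide +kernel
noncomputable def k310 : KT := (.one (nat_lit 0x2003005008019400600a010032650))
def t310 : k310.all (jb2 57 fl b0) = true := by decide +kernel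
noncomputable def k311 : KT := (.one (nat_lit 0x200300500801a400600a010034650))
def t311 : k311.all (jb2 57 fl b0) = true := by decide +kernel
noncomputable def k312 : KT := (.one (nat_lit 0x2004005008019400800a010032650))
def t312 : k312.all (jb2 57 fl b0) = true := by decide +kernel
noncomputable def k313 : KT := (.br (Nat.shiftLeft (nat_lit 0x3) (nat_lit 112)) (.one (nat_lit 0x200400500801a400800a010034650)) (.br (Nat.shiftLeft (nat_lit 0x180000280400d) (nat_lit 65)) (.one (nat_lit 0x3000005008019600000a010032411)) (.one (nat_lit 0x300000500801a600000a010034411))))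
def t313 : k313.all (jb2 57 fl b0) = true := by decide +kernel
noncomputable def k314 : KT := (.one (nat_lit 0x3004005008019600800a010032650))
def t314 : k314.all (jb2 57 fl b0) = true := by decide +kernel
noncomputable def k315 : KT := (.br (Nat.shiftLeft (nat_lit 0x1000003) (nat_lit 100)) (.br (Nat.shiftLeft (nat_lit 0x300000280400d) (nat_lit 65)) (.br (Nat.shiftLeft (nat_lit 0x5) (nat_lit 112)) (.br (Nat.shiftLeft (nat_lit 0x1) (nat_lit 114)) (.one (nat_lit 0x300400500801a600800a010034650)) (.br (Nat.shiftLeft (nat_lit 0x200000280400d) (nat_lit 65)) (.one (nat_lit 0x4000005008019800000a010032411)) (.one (nat_lit 0x400000500801a800000a010034411)))) (.br (Nat.shiftLeft (nat_lit 0x280000280400d) (nat_lit 65)) (.one (nat_lit 0x5000005008019a00000a010032411)) (.br (Nat.shiftLeft (nat_lit 0x3) (nat_lit 113)) (.one (nat_lit 0x500000500801aa00000a010034411)) (.one (nat_lit 0x6000005008019c00000a010032411))))) (.br (Nat.shiftLeft (nat_lit 0x1) (nat_lit 115)) (.br (Nat.shiftLeft (nat_lit 0x7) (nat_lit 112)) (.one (nat_lit 0x600000500801ac00000a010034411))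 (.br (Nat.shiftLeft (nat_lit 0x380000280400d) (nat_lit 65)) (.one (nat_lit 0x7000005008019e00000a010032411)) (.one (nat_lit 0x700000500801ae00000a010034411)))) (.br (Nat.shiftLeft (nat_lit 0x1) (nat_lit 124)) (.br (Nat.shiftLeft (nat_lit 0x400000280400d) (nat_lit 65)) (.one (nat_lit 0x8000005008019000000a010134411)) (.one (nat_lit 0x800000500801a000000a010136411))) (.br (Nat.shiftLeft (nat_lit 0x80000100280400d) (nat_lit 65)) (.one (nat_lit 0x1000002005008019000400a030432511)) (.one (nat_lit 0x100000200500801a000400a030434511)))))) (.br (Nat.shiftLeft (nat_lit 0x2000003) (nat_lit 100)) (.br (Nat.shiftLeft (nat_lit 0x80000200280400d) (nat_lit 65)) (.br (Nat.shiftLeft (nat_lit 0x80000180280400d) (nat_lit 65)) (.one (nat_lit 0x1000003005008019000600a030432511)) (.br (Nat.shiftLeft (nat_lit 0x400001) (nat_lit 102)) (.one (nat_lit 0x100000300500801a000600a030434511)) (.one (nat_lit 0x1000004005008019000800a030432511)))) (.br (Nat.shiftLeft (nat_lit 0x1) (nat_lit 125)) (.one (nat_lit 0x100000400500801a000800a030434511)) (.br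 (Nat.shiftLeft (nat_lit 0x100000100280400d) (nat_lit 65)) (.one (nat_lit 0x2000002005008019000400a050832511)) (.one (nat_lit 0x200000200500801a000400a050834511))))) (.br (Nat.shiftLeft (nat_lit 0x100000200280400d) (nat_lit 65)) (.br (Nat.shiftLeft (nat_lit 0x100000180280400d) (nat_lit 65)) (.one (nat_lit 0x2000003005008019000600a050832511)) (.br (Nat.shiftLeft (nat_lit 0x800001) (nat_lit 102)) (.one (nat_lit 0x200000300500801a000600a050834511)) (.one (nat_lit 0x2000004005008019000800a050832511)))) (.br (Nat.shiftLeft (nat_lit 0x180000100280400d) (nat_lit 65)) (.br (Nat.shiftLeft (nat_lit 0x3) (nat_lit 124)) (.one (nat_lit 0x200000400500801a000800a050834511)) (.one (nat_lit 0x3000002005008019000400a070c32511))) (.br (Nat.shiftLeft (nat_lit 0x3000003) (nat_lit 100)) (.one (nat_lit 0x300000200500801a000400a070c34511)) (.one (nat_lit 0x3000003005008019000600a070c32511)))))))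
def t315 : k315.all (jb2 57 fl b0) = true := by decide +kernel
noncomputable def k316 : KT := (.br (Nat.shiftLeft (nat_lit 0x200000180280400d) (nat_lit 65)) (.br (Nat.shiftLeft (nat_lit 0x1) (nat_lit 126)) (.br (Nat.shiftLeft (nat_lit 0xc00001) (nat_lit 102)) (.one (nat_lit 0x300000300500801a000600a070c34511)) (.br (Nat.shiftLeft (nat_lit 0x180000200280400d) (nat_lit 65)) (.one (nat_lit 0x3000004005008019000800a070c32511)) (.one (nat_lit 0x300000400500801a000800a070c34511)))) (.br (Nat.shiftLeft (nat_lit 0x200000100280400d) (nat_lit 65)) (.one (nat_lit 0x4000002005008019000400a091032511)) (.br (Nat.shiftLeft (nat_lit 0x4000003) (nat_lit 100)) (.one (nat_lit 0x400000200500801a000400a091034511)) (.one (nat_lit 0x4000003005008019000600a091032511))))) (.br (Nat.shiftLeft (nat_lit 0x5) (nat_lit 124)) (.br (Nat.shiftLeft (nat_lit 0x1000001) (nat_lit 102)) (.one (nat_lit 0x400000300500801a000600a091034511)) (.br (Nat.shiftLeft (nat_lit 0x200000200280400d) (nat_lit 65)) (.one (nat_lit 0x4000004005008019000800a091032511)) (.one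 (nat_lit 0x400000400500801a000800a091034511)))) (.br (Nat.shiftLeft (nat_lit 0x5000003) (nat_lit 100)) (.br (Nat.shiftLeft (nat_lit 0x280000100280400d) (nat_lit 65)) (.one (nat_lit 0x5000002005008019000400a0b1432511)) (.one (nat_lit 0x500000200500801a000400a0b1434511))) (.br (Nat.shiftLeft (nat_lit 0x280000180280400d) (nat_lit 65)) (.one (nat_lit 0x5000003005008019000600a0b1432511)) (.one (nat_lit 0x500000300500801a000600a0b1434511))))))
def t316 : k316.all (jb2 57 fl b0) = true := by decide +kernel
noncomputable def k317 : KT := (.br (Nat.shiftLeft (nat_lit 0x300000100280400d) (nat_lit 65)) (.br (Nat.shiftLeft (nat_lit 0x280000200280400d) (nat_lit 65)) (.one (nat_lit 0x5000004005008019000800a0b1432511)) (.br (Nat.shiftLeft (nat_lit 0x3) (nat_lit 125)) (.one (nat_lit 0x500000400500801a000800a0b1434511)) (.one (nat_lit 0x6000002005008019000400a0d1832511)))) (.br (Nat.shiftLeft (nat_lit 0x300000180280400d) (nat_lit 65)) (.br (Nat.shiftLeft (nat_lit 0x6000003) (nat_lit 100)) (.one (nat_lit 0x600000200500801a000400a0d1834511))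 (.one (nat_lit 0x6000003005008019000600a0d1832511))) (.br (Nat.shiftLeft (nat_lit 0x1800001) (nat_lit 102)) (.one (nat_lit 0x600000300500801a000600a0d1834511)) (.one (nat_lit 0x6000004005008019000800a0d1832511)))))
def t317 : k317.all (jb2 57 fl b0) = true := by decide +kernel
noncomputable def k318 : KT := (.br (Nat.shiftLeft (nat_lit 0x380000180280400d) (nat_lit 65)) (.br (Nat.shiftLeft (nat_lit 0x380000100280400d) (nat_lit 65)) (.br (Nat.shiftLeft (nat_lit 0x7) (nat_lit 124)) (.one (nat_lit 0x600000400500801a000800a0d1834511)) (.one (nat_lit 0x7000002005008019000400a0f1c32511))) (.br (Nat.shiftLeft (nat_lit 0x7000003) (nat_lit 100)) (.one (nat_lit 0x700000200500801a000400a0f1c34511)) (.one (nat_lit 0x7000003005008019000600a0f1c32511)))) (.br (Nat.shiftLeft (nat_lit 0x380000200280400d) (nat_lit 65)) (.br (Nat.shiftLeft (nat_lit 0x1c00001) (nat_lit 102)) (.one (nat_lit 0x700000300500801a000600a0f1c34511)) (.one (nat_lit 0x7000004005008019000800a0f1c32511))) (.br (Nat.shiftLeft (nat_lit 0x1) (nat_lit 127)) (.one (nat_lit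 0x700000400500801a000800a0f1c34511)) (.one (nat_lit 0x8000002005008019000400a112032511)))))
def t318 : k318.all (jb2 57 fl b0) = true := by decide +kernel
noncomputable def k319 : KT := (.br (Nat.shiftLeft (nat_lit 0x400000180280400d) (nat_lit 65)) (.br (Nat.shiftLeft (nat_lit 0x8000003) (nat_lit 100)) (.one (nat_lit 0x800000200500801a000400a112034511)) (.one (nat_lit 0x8000003005008019000600a112032511))) (.br (Nat.shiftLeft (nat_lit 0x2000001) (nat_lit 102)) (.one (nat_lit 0x800000300500801a000600a112034511)) (.br (Nat.shiftLeft (nat_lit 0x400000200280400d) (nat_lit 65)) (.one (nat_lit 0x8000004005008019000800a112032511)) (.one (nat_lit 0x800000400500801a000800a112034511)))))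
def t319 : k319.all (jb2 57 fl b0) = true := by decide +kernel
noncomputable def s15 : KT := (.br (nat_lit 0x200300500801a400600a010034650) (.br (nat_lit 0x1003005008019200600a010032650) (.br (nat_lit 0x1002005008019200400a010032650) (.br (nat_lit 0x100000500801a200000a010034411) k304 k305) (.br (nat_lit 0x100200500801a200400a010034650) k306 k307)) (.br (nat_lit 0x200000500801a400000a010034411) (.br (nat_lit 0x1004005008019200800a010032650) k308 k309) (.br (nat_lit 0x2003005008019400600a010032650) k310 k311))) (.br (nat_lit 0x3000003005008019000600a070c32511) (.br (nat_lit 0x300000500801a600000a010034411) (.br (nat_lit 0x2004005008019400800a010032650) k312 k313) (.br (nat_lit 0x3004005008019600800a010032650) k314 k315)) (.br (nat_lit 0x6000004005008019000800a0d1832511) (.br (nat_lit 0x500000300500801a000600a0b1434511) k316 k317) (.br (nat_lit 0x8000002005008019000400a112032511) k318 k319))))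
noncomputable def u15 : KT := (.br (Nat.shiftLeft (nat_lit 0x5009) (nat_lit 76)) (.br (Nat.shiftLeft (nat_lit 0x280400d) (nat_lit 65)) (.one (nat_lit 0x5008019000000a010032430)) (.one (nat_lit 0x500801a000000a010034430))) (.br (Nat.shiftLeft (nat_lit 0x5009013) (nat_lit 64)) (.one (nat_lit 0x5009012000000a012025400)) (.br (Nat.shiftLeft (nat_lit 0x1402405) (nat_lit 66)) (.one (nat_lit 0x5009013000000a012027400)) (.one (nat_lit 0x5009014000000a012029400)))))
def w15 : u15.all (wj 57 s15) = true := by decide +kernel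
def o15 : OkW 57 (jb2 57 fl) u15 := .lift s15 _ (.br _ _ _ (.br _ _ _ (.br _ _ _ (.br _ _ _ (.leaf b0 k304 t304) (.leaf b0 k305 t305)) (.br _ _ _ (.leaf b0 k306 t306) (.leaf b0 k307 t307))) (.br _ _ _ (.br _ _ _ (.leaf b0 k308 t308) (.leaf b0 k309 t309)) (.br _ _ _ (.leaf b0 k310 t310) (.leaf b0 k311 t311)))) (.br _ _ _ (.br _ _ _ (.br _ _ _ (.leaf b0 k312 t312) (.leaf b0 k313 t313)) (.br _ _ _ (.leaf b0 k314 t314) (.leaf b0 k315 t315))) (.br _ _ _ (.br _ _ _ (.leaf b0 k316 t316) (.leaf b0 k317 t317)) (.br _ _ _ (.leaf b0 k318 t318) (.leaf b0 k319 t319))))) w15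
noncomputable def k320 : KT := (.br (Nat.shiftLeft (nat_lit 0x1) (nat_lit 113)) (.br (Nat.shiftLeft (nat_lit 0x1) (nat_lit 102)) (.br (Nat.shiftLeft (nat_lit 0x1) (nat_lit 101)) (.br (Nat.shiftLeft (nat_lit 0x1) (nat_lit 100)) (.one (nat_lit 0x5009015000000a01202b400)) (.one (nat_lit 0x1005009015000200a01202a540))) (.br (Nat.shiftLeft (nat_lit 0x3) (nat_lit 100)) (.one (nat_lit 0x2005009015000400a01202b500)) (.one (nat_lit 0x3005009015000600a01202b500)))) (.br (Nat.shiftLeft (nat_lit 0x801) (nat_lit 101)) (.br (Nat.shiftLeft (nat_lit 0x1) (nat_lit 112)) (.one (nat_lit 0x4005009015000800a01202b500)) (.one (nat_lit 0x1000005009015200000a01202a411))) (.br (Nat.shiftLeft (nat_lit 0x1003) (nat_lit 100)) (.one (nat_lit 0x1002005009015200400a01202b600)) (.br (Nat.shiftLeft (nat_lit 0x401) (nat_lit 102)) (.one (nat_lit 0x1003005009015200600a01202b600)) (.one (nat_lit 0x1004005009015200800a01202b600)))))) (.br (Nat.shiftLeft (nat_lit 0x1) (nat_lit 114)) (.br (Nat.shiftLeft (nat_lit 0x801) (nat_lit 102)) (.br (Nat.shiftLeft (nat_lit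 0x1001) (nat_lit 101)) (.one (nat_lit 0x2000005009015400000a01202a411)) (.one (nat_lit 0x2003005009015400600a01202b600))) (.br (Nat.shiftLeft (nat_lit 0x3) (nat_lit 112)) (.one (nat_lit 0x2004005009015400800a01202b600)) (.br (Nat.shiftLeft (nat_lit 0xc01) (nat_lit 102)) (.one (nat_lit 0x3000005009015600000a01202a411)) (.one (nat_lit 0x3004005009015600800a01202b600))))) (.br (Nat.shiftLeft (nat_lit 0x3) (nat_lit 113)) (.br (Nat.shiftLeft (nat_lit 0x5) (nat_lit 112)) (.one (nat_lit 0x4000005009015800000a01202a411)) (.one (nat_lit 0x5000005009015a00000a01202a411))) (.br (Nat.shiftLeft (nat_lit 0x7) (nat_lit 112)) (.one (nat_lit 0x6000005009015c00000a01202a411)) (.br (Nat.shiftLeft (nat_lit 0x1) (nat_lit 115)) (.one (nat_lit 0x7000005009015e00000a01202a411)) (.one (nat_lit 0x8000005009015000000a01212c411)))))))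
def t320 : k320.all (jb2 57 fl b0) = true := by decide +kernel
noncomputable def k321 : KT := (.br (Nat.shiftLeft (nat_lit 0x400001) (nat_lit 102)) (.br (Nat.shiftLeft (nat_lit 0x1) (nat_lit 124)) (.one (nat_lit 0x9000005009015200000a01212c411)) (.br (Nat.shiftLeft (nat_lit 0x1000003) (nat_lit 100)) (.one (nat_lit 0x1000002005009015000400a03242a511)) (.one (nat_lit 0x1000003005009015000600a03242a511)))) (.br (Nat.shiftLeft (nat_lit 0x801) (nat_lit 113)) (.one (nat_lit 0x1000004005009015000800a03242a511)) (.br (Nat.shiftLeft (nat_lit 0x400801) (nat_lit 102)) (.one (nat_lit 0x1002003005009015400600a03242b700)) (.one (nat_lit 0x1002004005009015400800a03242a760)))))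
def t321 : k321.all (jb2 57 fl b0) = true := by decide +kernel
noncomputable def k322 : KT := (.br (Nat.shiftLeft (nat_lit 0x2000003) (nat_lit 100)) (.br (Nat.shiftLeft (nat_lit 0x1) (nat_lit 125)) (.one (nat_lit 0x1003004005009015600800a03242a760)) (.one (nat_lit 0x2000002005009015000400a05282a511))) (.br (Nat.shiftLeft (nat_lit 0x800001) (nat_lit 102)) (.one (nat_lit 0x2000003005009015000600a05282a511)) (.one (nat_lit 0x2000004005009015000800a05282a511))))
def t322 : k322.all (jb2 57 fl b0) = true := by decide +kernel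
noncomputable def k323 : KT := (.br (Nat.shiftLeft (nat_lit 0xc00001) (nat_lit 102)) (.br (Nat.shiftLeft (nat_lit 0x3) (nat_lit 124)) (.one (nat_lit 0x2003004005009015600800a05282a760)) (.br (Nat.shiftLeft (nat_lit 0x3000003) (nat_lit 100)) (.one (nat_lit 0x3000002005009015000400a072c2a511)) (.one (nat_lit 0x3000003005009015000600a072c2a511)))) (.br (Nat.shiftLeft (nat_lit 0x4000003) (nat_lit 100)) (.br (Nat.shiftLeft (nat_lit 0x1) (nat_lit 126)) (.one (nat_lit 0x3000004005009015000800a072c2a511)) (.one (nat_lit 0x4000002005009015000400a09302a511))) (.br (Nat.shiftLeft (nat_lit 0x1000001) (nat_lit 102)) (.one (nat_lit 0x4000003005009015000600a09302a511)) (.one (nat_lit 0x4000004005009015000800a09302a511)))))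
def t323 : k323.all (jb2 57 fl b0) = true := by decide +kernel
noncomputable def k324 : KT := (.br (Nat.shiftLeft (nat_lit 0x1400001) (nat_lit 102)) (.br (Nat.shiftLeft (nat_lit 0x5000003) (nat_lit 100)) (.one (nat_lit 0x5000002005009015000400a0b342a511)) (.one (nat_lit 0x5000003005009015000600a0b342a511))) (.br (Nat.shiftLeft (nat_lit 0x3) (nat_lit 125)) (.one (nat_lit 0x5000004005009015000800a0b342a511)) (.one (nat_lit 0x6000002005009015000400a0d382a511))))
def t324 : k324.all (jb2 57 fl b0) = true := by decide +kernel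
noncomputable def k325 : KT := (.br (Nat.shiftLeft (nat_lit 0x1800001) (nat_lit 102)) (.one (nat_lit 0x6000003005009015000600a0d382a511)) (.br (Nat.shiftLeft (nat_lit 0x7) (nat_lit 124)) (.one (nat_lit 0x6000004005009015000800a0d382a511)) (.one (nat_lit 0x7000002005009015000400a0f3c2a511))))
def t325 : k325.all (jb2 57 fl b0) = true := by decide +kernel
noncomputable def k326 : KT := (.br (Nat.shiftLeft (nat_lit 0x1c00001) (nat_lit 102)) (.one (nat_lit 0x7000003005009015000600a0f3c2a511)) (.br (Nat.shiftLeft (nat_lit 0x1) (nat_lit 127)) (.one (nat_lit 0x7000004005009015000800a0f3c2a511)) (.one (nat_lit 0x8000002005009015000400a11402a511))))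
def t326 : k326.all (jb2 57 fl b0) = true := by decide +kernel
noncomputable def k327 : KT := (.br (Nat.shiftLeft (nat_lit 0x2000001) (nat_lit 102)) (.one (nat_lit 0x8000003005009015000600a11402a511)) (.br (Nat.shiftLeft (nat_lit 0x9) (nat_lit 124)) (.one (nat_lit 0x8000004005009015000800a11402a511)) (.one (nat_lit 0x9000002005009015000400a13442a511))))
def t327 : k327.all (jb2 57 fl b0) = true := by decide +kernel
noncomputable def k328 : KT := (.br (Nat.shiftLeft (nat_lit 0x1000001) (nat_lit 113)) (.br (Nat.shiftLeft (nat_lit 0x800001) (nat_lit 113)) (.br (Nat.shiftLeft (nat_lit 0x1) (nat_lit 136)) (.br (Nat.shiftLeft (nat_lit 0x2400001) (nat_lit 102)) (.one (nat_lit 0x9000003005009015000600a13442a511)) (.one (nat_lit 0x9000004005009015000800a13442a511))) (.br (Nat.shiftLeft (nat_lit 0x1000001003) (nat_lit 100)) (.one (nat_lit 0x1000001002005009015200402a41202a611)) (.br (Nat.shiftLeft (nat_lit 0x400000401) (nat_lit 102)) (.one (nat_lit 0x1000001003005009015200602a41202a611)) (.one (nat_lit 0x1000001004005009015200802a41202a611)))))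 (.br (Nat.shiftLeft (nat_lit 0x1) (nat_lit 137)) (.br (Nat.shiftLeft (nat_lit 0x400000801) (nat_lit 102)) (.one (nat_lit 0x1000002003005009015400602a41202a611)) (.br (Nat.shiftLeft (nat_lit 0x1000003) (nat_lit 112)) (.one (nat_lit 0x1000002004005009015400802a41202a611)) (.one (nat_lit 0x1000003004005009015600802a41202a611)))) (.br (Nat.shiftLeft (nat_lit 0x2000001003) (nat_lit 100)) (.one (nat_lit 0x2000001002005009015200404a81202a611)) (.br (Nat.shiftLeft (nat_lit 0x800000401) (nat_lit 102)) (.one (nat_lit 0x2000001003005009015200604a81202a611)) (.one (nat_lit 0x2000001004005009015200804a81202a611)))))) (.br (Nat.shiftLeft (nat_lit 0x1800001) (nat_lit 113)) (.br (Nat.shiftLeft (nat_lit 0x3) (nat_lit 136)) (.br (Nat.shiftLeft (nat_lit 0x800000801) (nat_lit 102)) (.one (nat_lit 0x2000002003005009015400604a81202a611)) (.br (Nat.shiftLeft (nat_lit 0x2000003) (nat_lit 112)) (.one (nat_lit 0x2000002004005009015400804a81202a611)) (.one (nat_lit 0x2000003004005009015600804a81202a611)))) (.br (Nat.shiftLeft (nat_lit 0x3000001003)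 (nat_lit 100)) (.one (nat_lit 0x3000001002005009015200406ac1202a611)) (.br (Nat.shiftLeft (nat_lit 0xc00000401) (nat_lit 102)) (.one (nat_lit 0x3000001003005009015200606ac1202a611)) (.one (nat_lit 0x3000001004005009015200806ac1202a611))))) (.br (Nat.shiftLeft (nat_lit 0x1) (nat_lit 138)) (.br (Nat.shiftLeft (nat_lit 0xc00000801) (nat_lit 102)) (.one (nat_lit 0x3000002003005009015400606ac1202a611)) (.br (Nat.shiftLeft (nat_lit 0x3000003) (nat_lit 112)) (.one (nat_lit 0x3000002004005009015400806ac1202a611)) (.one (nat_lit 0x3000003004005009015600806ac1202a611)))) (.br (Nat.shiftLeft (nat_lit 0x4000001003) (nat_lit 100)) (.one (nat_lit 0x4000001002005009015200408b01202a611)) (.br (Nat.shiftLeft (nat_lit 0x1000000401) (nat_lit 102)) (.one (nat_lit 0x4000001003005009015200608b01202a611)) (.one (nat_lit 0x4000001004005009015200808b01202a611)))))))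
def t328 : k328.all (jb2 57 fl b0) = true := by decide +kernel
noncomputable def k329 : KT := (.br (Nat.shiftLeft (nat_lit 0x4000003) (nat_lit 112)) (.br (Nat.shiftLeft (nat_lit 0x1000000801) (nat_lit 102)) (.one (nat_lit 0x4000002003005009015400608b01202a611)) (.one (nat_lit 0x4000002004005009015400808b01202a611))) (.br (Nat.shiftLeft (nat_lit 0x5) (nat_lit 136)) (.one (nat_lit 0x4000003004005009015600808b01202a611)) (.br (Nat.shiftLeft (nat_lit 0x5000001003) (nat_lit 100)) (.one (nat_lit 0x500000100200500901520040ab41202a611)) (.one (nat_lit 0x500000100300500901520060ab41202a611)))))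
def t329 : k329.all (jb2 57 fl b0) = true := by decide +kernel
noncomputable def k330 : KT := (.br (Nat.shiftLeft (nat_lit 0x1400000801) (nat_lit 102)) (.br (Nat.shiftLeft (nat_lit 0x2800001) (nat_lit 113)) (.one (nat_lit 0x500000100400500901520080ab41202a611)) (.one (nat_lit 0x500000200300500901540060ab41202a611))) (.br (Nat.shiftLeft (nat_lit 0x5000003) (nat_lit 112)) (.one (nat_lit 0x500000200400500901540080ab41202a611)) (.one (nat_lit 0x500000300400500901560080ab41202a611))))
def t330 : k330.all (jb2 57 fl b0) = true := by decide +kernel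
noncomputable def k331 : KT := (.br (Nat.shiftLeft (nat_lit 0x6000001003) (nat_lit 100)) (.one (nat_lit 0x600000100200500901520040cb81202a611)) (.one (nat_lit 0x600000100300500901520060cb81202a611)))
def t331 : k331.all (jb2 57 fl b0) = true := by decide +kernel
noncomputable def k332 : KT := (.br (Nat.shiftLeft (nat_lit 0x3000001) (nat_lit 113)) (.one (nat_lit 0x600000100400500901520080cb81202a611)) (.br (Nat.shiftLeft (nat_lit 0x1800000801) (nat_lit 102)) (.one (nat_lit 0x600000200300500901540060cb81202a611)) (.one (nat_lit 0x600000200400500901540080cb81202a611))))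
def t332 : k332.all (jb2 57 fl b0) = true := by decide +kernel
noncomputable def k333 : KT := (.br (Nat.shiftLeft (nat_lit 0x7) (nat_lit 136)) (.one (nat_lit 0x600000300400500901560080cb81202a611)) (.br (Nat.shiftLeft (nat_lit 0x7000001003) (nat_lit 100)) (.one (nat_lit 0x700000100200500901520040ebc1202a611)) (.one (nat_lit 0x700000100300500901520060ebc1202a611))))
def t333 : k333.all (jb2 57 fl b0) = true := by decide +kernel
noncomputable def k334 : KT := (.br (Nat.shiftLeft (nat_lit 0x1c00000801) (nat_lit 102)) (.br (Nat.shiftLeft (nat_lit 0x3800001) (nat_lit 113)) (.one (nat_lit 0x700000100400500901520080ebc1202a611)) (.one (nat_lit 0x700000200300500901540060ebc1202a611))) (.br (Nat.shiftLeft (nat_lit 0x7000003) (nat_lit 112)) (.one (nat_lit 0x700000200400500901540080ebc1202a611)) (.one (nat_lit 0x700000300400500901560080ebc1202a611))))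
def t334 : k334.all (jb2 57 fl b0) = true := by decide +kernel
noncomputable def k335 : KT := (.br (Nat.shiftLeft (nat_lit 0x8000001003) (nat_lit 100)) (.one (nat_lit 0x8000001002005009015200410c01202a611)) (.br (Nat.shiftLeft (nat_lit 0x2000000401) (nat_lit 102)) (.one (nat_lit 0x8000001003005009015200610c01202a611)) (.one (nat_lit 0x8000001004005009015200810c01202a611))))
noncomputable def b336 : BT := .node (nat_lit 0x1) (nat_lit 0x936274139c0032da000cb6010008800028) .leaf .leaf
def t335 : k335.all (jb2 57 fl b336) = true := by decide +kernel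
noncomputable def k336 : KT := (.br (Nat.shiftLeft (nat_lit 0x8000003) (nat_lit 112)) (.br (Nat.shiftLeft (nat_lit 0x2000000801) (nat_lit 102)) (.one (nat_lit 0x8000002003005009015400610c01202a611)) (.one (nat_lit 0x8000002004005009015400810c01202a611))) (.br (Nat.shiftLeft (nat_lit 0x9) (nat_lit 136)) (.one (nat_lit 0x8000003004005009015600810c01202a611)) (.one (nat_lit 0x9000001002005009015200412c41202a611))))
def t336 : k336.all (jb2 57 fl b0) = true := by decide +kernel
noncomputable def k337 : KT := (.br (Nat.shiftLeft (nat_lit 0x9000003) (nat_lit 112)) (.br (Nat.shiftLeft (nat_lit 0x4800001) (nat_lit 113)) (.br (Nat.shiftLeft (nat_lit 0x2400000401) (nat_lit 102)) (.one (nat_lit 0x9000001003005009015200612c41202a611)) (.one (nat_lit 0x9000001004005009015200812c41202a611))) (.br (Nat.shiftLeft (nat_lit 0x2400000801) (nat_lit 102)) (.one (nat_lit 0x9000002003005009015400612c41202a611)) (.one (nat_lit 0x9000002004005009015400812c41202a611)))) (.br (Nat.shiftLeft (nat_lit 0x1) (nat_lit 149)) (.br (Nat.shiftLeft (nat_lit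 0x1) (nat_lit 148)) (.one (nat_lit 0x9000003004005009015600812c41202a611)) (.one (nat_lit 0x1000001002003005009015402640a03242a711))) (.br (Nat.shiftLeft (nat_lit 0x3) (nat_lit 148)) (.one (nat_lit 0x2000001002003005009015404680a03242a711)) (.br (Nat.shiftLeft (nat_lit 0x1) (nat_lit 150)) (.one (nat_lit 0x30000010020030050090154066c0a03242a711)) (.one (nat_lit 0x4000001002003005009015408700a03242a711))))))
def t337 : k337.all (jb2 57 fl b0) = true := by decide +kernel
noncomputable def k338 : KT := (.br (Nat.shiftLeft (nat_lit 0x7) (nat_lit 148)) (.br (Nat.shiftLeft (nat_lit 0x3) (nat_lit 149)) (.one (nat_lit 0x500000100200300500901540a740a03242a711)) (.one (nat_lit 0x600000100200300500901540c780a03242a711))) (.br (Nat.shiftLeft (nat_lit 0x1) (nat_lit 151)) (.one (nat_lit 0x700000100200300500901540e7c0a03242a711)) (.br (Nat.shiftLeft (nat_lit 0x9) (nat_lit 148)) (.one (nat_lit 0x8000001002003005009015410800a03242a711)) (.one (nat_lit 0x9000001002003005009015412840a03242a711)))))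
def t338 : k338.all (jb2 57 fl b0) = true := by decide +kernel
noncomputable def s16 : KT := (.br (nat_lit 0x4000001004005009015200808b01202a611) (.br (nat_lit 0x4000004005009015000800a09302a511) (.br (nat_lit 0x1002004005009015400800a03242a760) (.br (nat_lit 0x8000005009015000000a01212c411) k320 k321) (.br (nat_lit 0x2000004005009015000800a05282a511) k322 k323)) (.br (nat_lit 0x7000002005009015000400a0f3c2a511) (.br (nat_lit 0x6000002005009015000400a0d382a511) k324 k325) (.br (nat_lit 0x8000002005009015000400a11402a511) k326 (.br (nat_lit 0x9000002005009015000400a13442a511) k327 k328)))) (.br (nat_lit 0x700000100300500901520060ebc1202a611) (.br (nat_lit 0x500000300400500901560080ab41202a611) (.br (nat_lit 0x500000100300500901520060ab41202a611) k329 k330) (.br (nat_lit 0x600000100300500901520060cb81202a611) k331 (.br (nat_lit 0x600000200400500901540080cb81202a611) k332 k333))) (.br (nat_lit 0x8000001004005009015200810c01202a611) (.br (nat_lit 0x700000300400500901560080ebc1202a611) k334 k335) (.br (nat_lit 0x9000001002005009015200412c41202a611)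 k336 (.br (nat_lit 0x4000001002003005009015408700a03242a711) k337 k338)))))
noncomputable def u16 : KT := (.one (nat_lit 0x5009015000000a01202a430))
def w16 : u16.all (wj 57 s16) = true := by decide +kernel
def o16 : OkW 57 (jb2 57 fl) u16 := .lift s16 _ (.br _ _ _ (.br _ _ _ (.br _ _ _ (.br _ _ _ (.leaf b0 k320 t320) (.leaf b0 k321 t321)) (.br _ _ _ (.leaf b0 k322 t322) (.leaf b0 k323 t323))) (.br _ _ _ (.br _ _ _ (.leaf b0 k324 t324) (.leaf b0 k325 t325)) (.br _ _ _ (.leaf b0 k326 t326) (.br _ _ _ (.leaf b0 k327 t327) (.leaf b0 k328 t328))))) (.br _ _ _ (.br _ _ _ (.br _ _ _ (.leaf b0 k329 t329) (.leaf b0 k330 t330)) (.br _ _ _ (.leaf b0 k331 t331) (.br _ _ _ (.leaf b0 k332 t332) (.leaf b0 k333 t333)))) (.br _ _ _ (.br _ _ _ (.leaf b0 k334 t334) (.leaf b336 k335 t335)) (.br _ _ _ (.leaf b0 k336 t336) (.br _ _ _ (.leaf b0 k337 t337) (.leaf b0 k338 t338)))))) w16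
noncomputable def k339 : KT := (.br (Nat.shiftLeft (nat_lit 0x1) (nat_lit 102)) (.br (Nat.shiftLeft (nat_lit 0x1) (nat_lit 101)) (.br (Nat.shiftLeft (nat_lit 0x1) (nat_lit 100)) (.one (nat_lit 0x5009016000000a01202d400)) (.one (nat_lit 0x1005009016000200a01202c540))) (.br (Nat.shiftLeft (nat_lit 0x3) (nat_lit 100)) (.one (nat_lit 0x2005009016000400a01202d500)) (.one (nat_lit 0x3005009016000600a01202d500)))) (.br (Nat.shiftLeft (nat_lit 0x801) (nat_lit 101)) (.br (Nat.shiftLeft (nat_lit 0x1) (nat_lit 112)) (.one (nat_lit 0x4005009016000800a01202d500)) (.one (nat_lit 0x1000005009016200000a01202c411))) (.br (Nat.shiftLeft (nat_lit 0x1003) (nat_lit 100)) (.one (nat_lit 0x1002005009016200400a01202d600)) (.one (nat_lit 0x1003005009016200600a01202d600)))))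
def t339 : k339.all (jb2 57 fl b0) = true := by decide +kernel
noncomputable def k340 : KT := (.br (Nat.shiftLeft (nat_lit 0x1001) (nat_lit 101)) (.br (Nat.shiftLeft (nat_lit 0x1) (nat_lit 113)) (.one (nat_lit 0x1004005009016200800a01202c650)) (.one (nat_lit 0x2000005009016400000a01202c411))) (.br (Nat.shiftLeft (nat_lit 0x801) (nat_lit 102)) (.one (nat_lit 0x2003005009016400600a01202d600)) (.one (nat_lit 0x2004005009016400800a01202d600))))
def t340 : k340.all (jb2 57 fl b0) = true := by decide +kernel
noncomputable def k341 : KT := (.br (Nat.shiftLeft (nat_lit 0x7) (nat_lit 112)) (.br (Nat.shiftLeft (nat_lit 0x1) (nat_lit 114)) (.br (Nat.shiftLeft (nat_lit 0xc01) (nat_lit 102)) (.one (nat_lit 0x3000005009016600000a01202c411)) (.one (nat_lit 0x3004005009016600800a01202d600))) (.br (Nat.shiftLeft (nat_lit 0x5) (nat_lit 112)) (.one (nat_lit 0x4000005009016800000a01202c411)) (.br (Nat.shiftLeft (nat_lit 0x3) (nat_lit 113)) (.one (nat_lit 0x5000005009016a00000a01202c411)) (.one (nat_lit 0x6000005009016c00000a01202c411)))))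 (.br (Nat.shiftLeft (nat_lit 0x1) (nat_lit 124)) (.br (Nat.shiftLeft (nat_lit 0x1) (nat_lit 115)) (.one (nat_lit 0x7000005009016e00000a01202c411)) (.br (Nat.shiftLeft (nat_lit 0x9) (nat_lit 112)) (.one (nat_lit 0x8000005009016000000a01212e411)) (.one (nat_lit 0x9000005009016200000a01212e411)))) (.br (Nat.shiftLeft (nat_lit 0x1000003) (nat_lit 100)) (.one (nat_lit 0x1000002005009016000400a03242c511)) (.br (Nat.shiftLeft (nat_lit 0x400001) (nat_lit 102)) (.one (nat_lit 0x1000003005009016000600a03242c511)) (.one (nat_lit 0x1000004005009016000800a03242c511))))))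
def t341 : k341.all (jb2 57 fl b0) = true := by decide +kernel
noncomputable def k342 : KT := (.one (nat_lit 0x1002003005009016400600a03242c760))
def t342 : k342.all (jb2 57 fl b0) = true := by decide +kernel
noncomputable def k343 : KT := (.one (nat_lit 0x1002004005009016400800a03242c760))
def t343 : k343.all (jb2 57 fl b0) = true := by decide +kernel
noncomputable def k344 : KT := (.br (Nat.shiftLeft (nat_lit 0x800001) (nat_lit 102)) (.br (Nat.shiftLeft (nat_lit 0x1) (nat_lit 125)) (.one (nat_lit 0x1003004005009016600800a03242c760)) (.br (Nat.shiftLeft (nat_lit 0x2000003) (nat_lit 100)) (.one (nat_lit 0x2000002005009016000400a05282c511)) (.one (nat_lit 0x2000003005009016000600a05282c511)))) (.br (Nat.shiftLeft (nat_lit 0x3) (nat_lit 124)) (.br (Nat.shiftLeft (nat_lit 0x1001) (nat_lit 113)) (.one (nat_lit 0x2000004005009016000800a05282c511)) (.one (nat_lit 0x2003004005009016600800a05282c760))) (.br (Nat.shiftLeft (nat_lit 0x3000003) (nat_lit 100)) (.one (nat_lit 0x3000002005009016000400a072c2c511)) (.one (nat_lit 0x3000003005009016000600a072c2c511)))))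
def t344 : k344.all (jb2 57 fl b0) = true := by decide +kernel
noncomputable def k345 : KT := (.br (Nat.shiftLeft (nat_lit 0x5) (nat_lit 124)) (.br (Nat.shiftLeft (nat_lit 0x4000003) (nat_lit 100)) (.br (Nat.shiftLeft (nat_lit 0x1) (nat_lit 126)) (.one (nat_lit 0x3000004005009016000800a072c2c511)) (.one (nat_lit 0x4000002005009016000400a09302c511))) (.br (Nat.shiftLeft (nat_lit 0x1000001) (nat_lit 102)) (.one (nat_lit 0x4000003005009016000600a09302c511)) (.one (nat_lit 0x4000004005009016000800a09302c511)))) (.br (Nat.shiftLeft (nat_lit 0x1400001) (nat_lit 102)) (.br (Nat.shiftLeft (nat_lit 0x5000003) (nat_lit 100)) (.one (nat_lit 0x5000002005009016000400a0b342c511)) (.one (nat_lit 0x5000003005009016000600a0b342c511))) (.br (Nat.shiftLeft (nat_lit 0x3) (nat_lit 125)) (.one (nat_lit 0x5000004005009016000800a0b342c511)) (.one (nat_lit 0x6000002005009016000400a0d382c511)))))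
def t345 : k345.all (jb2 57 fl b0) = true := by decide +kernel
noncomputable def k346 : KT := (.br (Nat.shiftLeft (nat_lit 0x7) (nat_lit 124)) (.br (Nat.shiftLeft (nat_lit 0x1800001) (nat_lit 102)) (.one (nat_lit 0x6000003005009016000600a0d382c511)) (.one (nat_lit 0x6000004005009016000800a0d382c511))) (.br (Nat.shiftLeft (nat_lit 0x7000003) (nat_lit 100)) (.one (nat_lit 0x7000002005009016000400a0f3c2c511)) (.one (nat_lit 0x7000003005009016000600a0f3c2c511))))
def t346 : k346.all (jb2 57 fl b0) = true := by decide +kernel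
noncomputable def k347 : KT := (.br (Nat.shiftLeft (nat_lit 0x8000003) (nat_lit 100)) (.br (Nat.shiftLeft (nat_lit 0x1) (nat_lit 127)) (.one (nat_lit 0x7000004005009016000800a0f3c2c511)) (.one (nat_lit 0x8000002005009016000400a11402c511))) (.br (Nat.shiftLeft (nat_lit 0x2000001) (nat_lit 102)) (.one (nat_lit 0x8000003005009016000600a11402c511)) (.one (nat_lit 0x8000004005009016000800a11402c511))))
def t347 : k347.all (jb2 57 fl b0) = true := by decide +kernel
noncomputable def k348 : KT := (.br (Nat.shiftLeft (nat_lit 0x1000001) (nat_lit 113)) (.br (Nat.shiftLeft (nat_lit 0x800001) (nat_lit 113)) (.br (Nat.shiftLeft (nat_lit 0x2400001) (nat_lit 102)) (.br (Nat.shiftLeft (nat_lit 0x9000003) (nat_lit 100)) (.one (nat_lit 0x9000002005009016000400a13442c511)) (.one (nat_lit 0x9000003005009016000600a13442c511))) (.br (Nat.shiftLeft (nat_lit 0x1) (nat_lit 136)) (.one (nat_lit 0x9000004005009016000800a13442c511)) (.br (Nat.shiftLeft (nat_lit 0x1000001003) (nat_lit 100)) (.one (nat_lit 0x1000001002005009016200402a41202c611)) (.one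 (nat_lit 0x1000001003005009016200602a41202c611))))) (.br (Nat.shiftLeft (nat_lit 0x1000003) (nat_lit 112)) (.br (Nat.shiftLeft (nat_lit 0x400000801) (nat_lit 102)) (.one (nat_lit 0x1000002003005009016400602a41202c611)) (.one (nat_lit 0x1000002004005009016400802a41202c611))) (.br (Nat.shiftLeft (nat_lit 0x1) (nat_lit 137)) (.one (nat_lit 0x1000003004005009016600802a41202c611)) (.br (Nat.shiftLeft (nat_lit 0x2000001003) (nat_lit 100)) (.one (nat_lit 0x2000001002005009016200404a81202c611)) (.one (nat_lit 0x2000001003005009016200604a81202c611)))))) (.br (Nat.shiftLeft (nat_lit 0x1800001) (nat_lit 113)) (.br (Nat.shiftLeft (nat_lit 0x2000003) (nat_lit 112)) (.br (Nat.shiftLeft (nat_lit 0x800000801) (nat_lit 102)) (.one (nat_lit 0x2000002003005009016400604a81202c611)) (.one (nat_lit 0x2000002004005009016400804a81202c611))) (.br (Nat.shiftLeft (nat_lit 0x3) (nat_lit 136)) (.one (nat_lit 0x2000003004005009016600804a81202c611)) (.br (Nat.shiftLeft (nat_lit 0x3000001003) (nat_lit 100)) (.one (nat_lit 0x3000001002005009016200406ac1202c611))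 (.one (nat_lit 0x3000001003005009016200606ac1202c611))))) (.br (Nat.shiftLeft (nat_lit 0x1) (nat_lit 138)) (.br (Nat.shiftLeft (nat_lit 0xc00000801) (nat_lit 102)) (.one (nat_lit 0x3000002003005009016400606ac1202c611)) (.br (Nat.shiftLeft (nat_lit 0x3000003) (nat_lit 112)) (.one (nat_lit 0x3000002004005009016400806ac1202c611)) (.one (nat_lit 0x3000003004005009016600806ac1202c611)))) (.br (Nat.shiftLeft (nat_lit 0x4000001003) (nat_lit 100)) (.one (nat_lit 0x4000001002005009016200408b01202c611)) (.br (Nat.shiftLeft (nat_lit 0x2000001) (nat_lit 113)) (.one (nat_lit 0x4000001003005009016200608b01202c611)) (.one (nat_lit 0x4000002003005009016400608b01202c611)))))))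
def t348 : k348.all (jb2 57 fl b0) = true := by decide +kernel
noncomputable def k349 : KT := (.br (Nat.shiftLeft (nat_lit 0x5) (nat_lit 136)) (.br (Nat.shiftLeft (nat_lit 0x4000003) (nat_lit 112)) (.one (nat_lit 0x4000002004005009016400808b01202c611)) (.one (nat_lit 0x4000003004005009016600808b01202c611))) (.br (Nat.shiftLeft (nat_lit 0x5000001003) (nat_lit 100)) (.one (nat_lit 0x500000100200500901620040ab41202c611)) (.br (Nat.shiftLeft (nat_lit 0x2800001) (nat_lit 113)) (.one (nat_lit 0x500000100300500901620060ab41202c611)) (.one (nat_lit 0x500000200300500901640060ab41202c611)))))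
def t349 : k349.all (jb2 57 fl b0) = true := by decide +kernel
noncomputable def k350 : KT := (.br (Nat.shiftLeft (nat_lit 0x3) (nat_lit 137)) (.br (Nat.shiftLeft (nat_lit 0x5000003) (nat_lit 112)) (.one (nat_lit 0x500000200400500901640080ab41202c611)) (.one (nat_lit 0x500000300400500901660080ab41202c611))) (.br (Nat.shiftLeft (nat_lit 0x6000001003) (nat_lit 100)) (.one (nat_lit 0x600000100200500901620040cb81202c611)) (.one (nat_lit 0x600000100300500901620060cb81202c611))))
def t350 : k350.all (jb2 57 fl b0) = true := by decide +kernel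
noncomputable def k351 : KT := (.br (Nat.shiftLeft (nat_lit 0x6000003) (nat_lit 112)) (.br (Nat.shiftLeft (nat_lit 0x1800000801) (nat_lit 102)) (.one (nat_lit 0x600000200300500901640060cb81202c611)) (.one (nat_lit 0x600000200400500901640080cb81202c611))) (.br (Nat.shiftLeft (nat_lit 0x7) (nat_lit 136)) (.one (nat_lit 0x600000300400500901660080cb81202c611)) (.one (nat_lit 0x700000100200500901620040ebc1202c611))))
def t351 : k351.all (jb2 57 fl b0) = true := by decide +kernel
noncomputable def k352 : KT := (.br (Nat.shiftLeft (nat_lit 0x1c00000801) (nat_lit 102)) (.br (Nat.shiftLeft (nat_lit 0x3800001) (nat_lit 113)) (.one (nat_lit 0x700000100300500901620060ebc1202c611)) (.one (nat_lit 0x700000200300500901640060ebc1202c611))) (.br (Nat.shiftLeft (nat_lit 0x7000003) (nat_lit 112)) (.one (nat_lit 0x700000200400500901640080ebc1202c611)) (.br (Nat.shiftLeft (nat_lit 0x1) (nat_lit 139)) (.one (nat_lit 0x700000300400500901660080ebc1202c611)) (.one (nat_lit 0x8000001002005009016200410c01202c611)))))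
def t352 : k352.all (jb2 57 fl b0) = true := by decide +kernel
noncomputable def k353 : KT := (.br (Nat.shiftLeft (nat_lit 0x8000003) (nat_lit 112)) (.br (Nat.shiftLeft (nat_lit 0x4000001) (nat_lit 113)) (.one (nat_lit 0x8000001003005009016200610c01202c611)) (.br (Nat.shiftLeft (nat_lit 0x2000000801) (nat_lit 102)) (.one (nat_lit 0x8000002003005009016400610c01202c611)) (.one (nat_lit 0x8000002004005009016400810c01202c611)))) (.br (Nat.shiftLeft (nat_lit 0x9) (nat_lit 136)) (.one (nat_lit 0x8000003004005009016600810c01202c611)) (.br (Nat.shiftLeft (nat_lit 0x9000001003) (nat_lit 100)) (.one (nat_lit 0x9000001002005009016200412c41202c611)) (.one (nat_lit 0x9000001003005009016200612c41202c611)))))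
def t353 : k353.all (jb2 57 fl b0) = true := by decide +kernel
noncomputable def k354 : KT := (.br (Nat.shiftLeft (nat_lit 0x2400000801) (nat_lit 102)) (.one (nat_lit 0x9000002003005009016400612c41202c611)) (.br (Nat.shiftLeft (nat_lit 0x9000003) (nat_lit 112)) (.one (nat_lit 0x9000002004005009016400812c41202c611)) (.one (nat_lit 0x9000003004005009016600812c41202c611))))
def t354 : k354.all (jb2 57 fl b0) = true := by decide +kernel
noncomputable def s17 : KT := (.br (nat_lit 0x7000003005009016000600a0f3c2c511) (.br (nat_lit 0x1002003005009016400600a03242c760) (.br (nat_lit 0x2004005009016400800a01202d600) (.br (nat_lit 0x1003005009016200600a01202d600) k339 k340) (.br (nat_lit 0x1000004005009016000800a03242c511) k341 k342)) (.br (nat_lit 0x3000003005009016000600a072c2c511) (.br (nat_lit 0x1002004005009016400800a03242c760) k343 k344) (.br (nat_lit 0x6000002005009016000400a0d382c511) k345 k346))) (.br (nat_lit 0x600000100300500901620060cb81202c611) (.br (nat_lit 0x4000002003005009016400608b01202c611) (.br (nat_lit 0x8000004005009016000800a11402c511)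 k347 k348) (.br (nat_lit 0x500000200300500901640060ab41202c611) k349 k350)) (.br (nat_lit 0x8000001002005009016200410c01202c611) (.br (nat_lit 0x700000100200500901620040ebc1202c611) k351 k352) (.br (nat_lit 0x9000001003005009016200612c41202c611) k353 k354))))
noncomputable def u17 : KT := (.one (nat_lit 0x5009016000000a01202c430))
def w17 : u17.all (wj 57 s17) = true := by decide +kernel
def o17 : OkW 57 (jb2 57 fl) u17 := .lift s17 _ (.br _ _ _ (.br _ _ _ (.br _ _ _ (.br _ _ _ (.leaf b0 k339 t339) (.leaf b0 k340 t340)) (.br _ _ _ (.leaf b0 k341 t341) (.leaf b0 k342 t342))) (.br _ _ _ (.br _ _ _ (.leaf b0 k343 t343) (.leaf b0 k344 t344)) (.br _ _ _ (.leaf b0 k345 t345) (.leaf b0 k346 t346)))) (.br _ _ _ (.br _ _ _ (.br _ _ _ (.leaf b0 k347 t347) (.leaf b0 k348 t348)) (.br _ _ _ (.leaf b0 k349 t349) (.leaf b0 k350 t350))) (.br _ _ _ (.br _ _ _ (.leaf b0 k351 t351) (.leaf b0 k352 t352)) (.br _ _ _ (.leaf b0 k353 t353) (.leaf b0 k354 t354))))) w17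
noncomputable def k355 : KT := (.br (Nat.shiftLeft (nat_lit 0xa01203) (nat_lit 67)) (.one (nat_lit 0x5009017000000a01202f400)) (.br (Nat.shiftLeft (nat_lit 0x1) (nat_lit 100)) (.one (nat_lit 0x5009018000000a012031400)) (.one (nat_lit 0x1005009017000200a01202e540))))
def t355 : k355.all (jb2 57 fl b0) = true := by decide +kernel
noncomputable def k356 : KT := (.br (Nat.shiftLeft (nat_lit 0x1) (nat_lit 102)) (.br (Nat.shiftLeft (nat_lit 0x400a01203) (nat_lit 67)) (.br (Nat.shiftLeft (nat_lit 0x1) (nat_lit 101)) (.one (nat_lit 0x1005009018000200a012030540)) (.one (nat_lit 0x2005009017000400a01202f500))) (.br (Nat.shiftLeft (nat_lit 0x3) (nat_lit 100)) (.one (nat_lit 0x2005009018000400a012031500)) (.br (Nat.shiftLeft (nat_lit 0x600a01203) (nat_lit 67)) (.one (nat_lit 0x3005009017000600a01202f500)) (.one (nat_lit 0x3005009018000600a012031500))))) (.br (Nat.shiftLeft (nat_lit 0x1) (nat_lit 112)) (.br (Nat.shiftLeft (nat_lit 0x800a01203) (nat_lit 67)) (.one (nat_lit 0x4005009017000800a01202f500)) (.one (nat_lit 0x4005009018000800a012031500)))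 (.br (Nat.shiftLeft (nat_lit 0x200000a01203) (nat_lit 67)) (.one (nat_lit 0x1000005009017200000a01202e411)) (.br (Nat.shiftLeft (nat_lit 0x801) (nat_lit 101)) (.one (nat_lit 0x1000005009018200000a012030411)) (.one (nat_lit 0x1002005009017200400a01202f600))))))
def t356 : k356.all (jb2 57 fl b0) = true := by decide +kernel
noncomputable def k357 : KT := (.br (Nat.shiftLeft (nat_lit 0x1003) (nat_lit 100)) (.one (nat_lit 0x1002005009018200400a012030650)) (.one (nat_lit 0x1003005009017200600a01202f600)))
def t357 : k357.all (jb2 57 fl b0) = true := by decide +kernel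
noncomputable def k358 : KT := (.one (nat_lit 0x1003005009018200600a012030650))
def t358 : k358.all (jb2 57 fl b0) = true := by decide +kernel
noncomputable def k359 : KT := (.one (nat_lit 0x1004005009017200800a01202e650))
def t359 : k359.all (jb2 57 fl b0) = true := by decide +kernel
noncomputable def k360 : KT := (.br (Nat.shiftLeft (nat_lit 0x400000a01203) (nat_lit 67)) (.br (Nat.shiftLeft (nat_lit 0x1) (nat_lit 113)) (.one (nat_lit 0x1004005009018200800a012030650)) (.one (nat_lit 0x2000005009017400000a01202e411))) (.br (Nat.shiftLeft (nat_lit 0x1001) (nat_lit 101)) (.one (nat_lit 0x2000005009018400000a012030411)) (.one (nat_lit 0x2003005009017400600a01202f600))))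
def t360 : k360.all (jb2 57 fl b0) = true := by decide +kernel
noncomputable def k361 : KT := (.one (nat_lit 0x2003005009018400600a012030650))
def t361 : k361.all (jb2 57 fl b0) = true := by decide +kernel
noncomputable def k362 : KT := (.one (nat_lit 0x2004005009017400800a01202e650))
def t362 : k362.all (jb2 57 fl b0) = true := by decide +kernel
noncomputable def k363 : KT := (.br (Nat.shiftLeft (nat_lit 0x600000a01203) (nat_lit 67)) (.br (Nat.shiftLeft (nat_lit 0x3) (nat_lit 112)) (.one (nat_lit 0x2004005009018400800a012030650)) (.one (nat_lit 0x3000005009017600000a01202e411))) (.br (Nat.shiftLeft (nat_lit 0xc01) (nat_lit 102)) (.one (nat_lit 0x3000005009018600000a012030411)) (.one (nat_lit 0x3004005009017600800a01202f600))))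
def t363 : k363.all (jb2 57 fl b0) = true := by decide +kernel
noncomputable def k364 : KT := (.br (Nat.shiftLeft (nat_lit 0xa00000a01203) (nat_lit 67)) (.br (Nat.shiftLeft (nat_lit 0x800000a01203) (nat_lit 67)) (.br (Nat.shiftLeft (nat_lit 0x1) (nat_lit 114)) (.one (nat_lit 0x3004005009018600800a012030650)) (.one (nat_lit 0x4000005009017800000a01202e411))) (.br (Nat.shiftLeft (nat_lit 0x5) (nat_lit 112)) (.one (nat_lit 0x4000005009018800000a012030411)) (.one (nat_lit 0x5000005009017a00000a01202e411)))) (.br (Nat.shiftLeft (nat_lit 0xc00000a01203) (nat_lit 67)) (.br (Nat.shiftLeft (nat_lit 0x3) (nat_lit 113)) (.one (nat_lit 0x5000005009018a00000a012030411)) (.one (nat_lit 0x6000005009017c00000a01202e411))) (.br (Nat.shiftLeft (nat_lit 0x7) (nat_lit 112)) (.one (nat_lit 0x6000005009018c00000a012030411)) (.one (nat_lit 0x7000005009017e00000a01202e411)))))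
def t364 : k364.all (jb2 57 fl b0) = true := by decide +kernel
noncomputable def k365 : KT := (.br (Nat.shiftLeft (nat_lit 0x200000400a01203) (nat_lit 67)) (.br (Nat.shiftLeft (nat_lit 0x9) (nat_lit 112)) (.br (Nat.shiftLeft (nat_lit 0x1) (nat_lit 115)) (.one (nat_lit 0x7000005009018e00000a012030411)) (.br (Nat.shiftLeft (nat_lit 0x1000000a01203) (nat_lit 67)) (.one (nat_lit 0x8000005009017000000a012130411)) (.one (nat_lit 0x8000005009018000000a012132411)))) (.br (Nat.shiftLeft (nat_lit 0x1200000a01203) (nat_lit 67)) (.one (nat_lit 0x9000005009017200000a012130411)) (.br (Nat.shiftLeft (nat_lit 0x1) (nat_lit 124)) (.one (nat_lit 0x9000005009018200000a012132411)) (.one (nat_lit 0x1000002005009017000400a03242e511))))) (.br (Nat.shiftLeft (nat_lit 0x400001) (nat_lit 102)) (.br (Nat.shiftLeft (nat_lit 0x1000003) (nat_lit 100)) (.one (nat_lit 0x1000002005009018000400a032430511)) (.br (Nat.shiftLeft (nat_lit 0x200000600a01203) (nat_lit 67)) (.one (nat_lit 0x1000003005009017000600a03242e511)) (.one (nat_lit 0x1000003005009018000600a032430511))))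 (.br (Nat.shiftLeft (nat_lit 0x200000800a01203) (nat_lit 67)) (.one (nat_lit 0x1000004005009017000800a03242e511)) (.br (Nat.shiftLeft (nat_lit 0x801) (nat_lit 113)) (.one (nat_lit 0x1000004005009018000800a032430511)) (.one (nat_lit 0x1002003005009017400600a03242e760))))))
def t365 : k365.all (jb2 57 fl b0) = true := by decide +kernel
noncomputable def k366 : KT := (.br (Nat.shiftLeft (nat_lit 0x3) (nat_lit 124)) (.br (Nat.shiftLeft (nat_lit 0x400000600a01203) (nat_lit 67)) (.br (Nat.shiftLeft (nat_lit 0x400000400a01203) (nat_lit 67)) (.br (Nat.shiftLeft (nat_lit 0x1) (nat_lit 125)) (.one (nat_lit 0x1003004005009017600800a03242e760)) (.one (nat_lit 0x2000002005009017000400a05282e511))) (.br (Nat.shiftLeft (nat_lit 0x2000003) (nat_lit 100)) (.one (nat_lit 0x2000002005009018000400a052830511)) (.one (nat_lit 0x2000003005009017000600a05282e511)))) (.br (Nat.shiftLeft (nat_lit 0x400000800a01203) (nat_lit 67)) (.br (Nat.shiftLeft (nat_lit 0x800001) (nat_lit 102)) (.one (nat_lit 0x2000003005009018000600a052830511)) (.one (nat_lit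 0x2000004005009017000800a05282e511))) (.br (Nat.shiftLeft (nat_lit 0x1001) (nat_lit 113)) (.one (nat_lit 0x2000004005009018000800a052830511)) (.one (nat_lit 0x2003004005009017600800a05282e760))))) (.br (Nat.shiftLeft (nat_lit 0xc00001) (nat_lit 102)) (.br (Nat.shiftLeft (nat_lit 0x3000003) (nat_lit 100)) (.br (Nat.shiftLeft (nat_lit 0x600000400a01203) (nat_lit 67)) (.one (nat_lit 0x3000002005009017000400a072c2e511)) (.one (nat_lit 0x3000002005009018000400a072c30511))) (.br (Nat.shiftLeft (nat_lit 0x600000600a01203) (nat_lit 67)) (.one (nat_lit 0x3000003005009017000600a072c2e511)) (.one (nat_lit 0x3000003005009018000600a072c30511)))) (.br (Nat.shiftLeft (nat_lit 0x1) (nat_lit 126)) (.br (Nat.shiftLeft (nat_lit 0x600000800a01203) (nat_lit 67)) (.one (nat_lit 0x3000004005009017000800a072c2e511)) (.one (nat_lit 0x3000004005009018000800a072c30511))) (.br (Nat.shiftLeft (nat_lit 0x800000400a01203) (nat_lit 67)) (.one (nat_lit 0x4000002005009017000400a09302e511)) (.one (nat_lit 0x4000002005009018000400a093030511))))))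
def t366 : k366.all (jb2 57 fl b0) = true := by decide +kernel
noncomputable def k367 : KT := (.br (Nat.shiftLeft (nat_lit 0x5) (nat_lit 124)) (.br (Nat.shiftLeft (nat_lit 0x1000001) (nat_lit 102)) (.br (Nat.shiftLeft (nat_lit 0x800000600a01203) (nat_lit 67)) (.one (nat_lit 0x4000003005009017000600a09302e511)) (.one (nat_lit 0x4000003005009018000600a093030511))) (.br (Nat.shiftLeft (nat_lit 0x800000800a01203) (nat_lit 67)) (.one (nat_lit 0x4000004005009017000800a09302e511)) (.one (nat_lit 0x4000004005009018000800a093030511)))) (.br (Nat.shiftLeft (nat_lit 0x5000003) (nat_lit 100)) (.br (Nat.shiftLeft (nat_lit 0xa00000400a01203) (nat_lit 67)) (.one (nat_lit 0x5000002005009017000400a0b342e511)) (.one (nat_lit 0x5000002005009018000400a0b3430511))) (.br (Nat.shiftLeft (nat_lit 0xa00000600a01203) (nat_lit 67)) (.one (nat_lit 0x5000003005009017000600a0b342e511)) (.br (Nat.shiftLeft (nat_lit 0x1400001) (nat_lit 102)) (.one (nat_lit 0x5000003005009018000600a0b3430511)) (.one (nat_lit 0x5000004005009017000800a0b342e511))))))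
def t367 : k367.all (jb2 57 fl b0) = true := by decide +kernel
noncomputable def k368 : KT := (.br (Nat.shiftLeft (nat_lit 0xc00000400a01203) (nat_lit 67)) (.br (Nat.shiftLeft (nat_lit 0x3) (nat_lit 125)) (.one (nat_lit 0x5000004005009018000800a0b3430511)) (.one (nat_lit 0x6000002005009017000400a0d382e511))) (.br (Nat.shiftLeft (nat_lit 0x6000003) (nat_lit 100)) (.one (nat_lit 0x6000002005009018000400a0d3830511)) (.br (Nat.shiftLeft (nat_lit 0xc00000600a01203) (nat_lit 67)) (.one (nat_lit 0x6000003005009017000600a0d382e511)) (.one (nat_lit 0x6000003005009018000600a0d3830511)))))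
def t368 : k368.all (jb2 57 fl b0) = true := by decide +kernel
noncomputable def k369 : KT := (.br (Nat.shiftLeft (nat_lit 0x7) (nat_lit 124)) (.br (Nat.shiftLeft (nat_lit 0xc00000800a01203) (nat_lit 67)) (.one (nat_lit 0x6000004005009017000800a0d382e511)) (.one (nat_lit 0x6000004005009018000800a0d3830511))) (.br (Nat.shiftLeft (nat_lit 0xe00000400a01203) (nat_lit 67)) (.one (nat_lit 0x7000002005009017000400a0f3c2e511)) (.br (Nat.shiftLeft (nat_lit 0x7000003) (nat_lit 100)) (.one (nat_lit 0x7000002005009018000400a0f3c30511)) (.one (nat_lit 0x7000003005009017000600a0f3c2e511)))))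
def t369 : k369.all (jb2 57 fl b0) = true := by decide +kernel
noncomputable def k370 : KT := (.br (Nat.shiftLeft (nat_lit 0x1) (nat_lit 127)) (.br (Nat.shiftLeft (nat_lit 0x1c00001) (nat_lit 102)) (.one (nat_lit 0x7000003005009018000600a0f3c30511)) (.br (Nat.shiftLeft (nat_lit 0xe00000800a01203) (nat_lit 67)) (.one (nat_lit 0x7000004005009017000800a0f3c2e511)) (.one (nat_lit 0x7000004005009018000800a0f3c30511)))) (.br (Nat.shiftLeft (nat_lit 0x1000000400a01203) (nat_lit 67)) (.one (nat_lit 0x8000002005009017000400a11402e511)) (.br (Nat.shiftLeft (nat_lit 0x8000003) (nat_lit 100)) (.one (nat_lit 0x8000002005009018000400a114030511)) (.one (nat_lit 0x8000003005009017000600a11402e511)))))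
def t370 : k370.all (jb2 57 fl b0) = true := by decide +kernel
noncomputable def k371 : KT := (.br (Nat.shiftLeft (nat_lit 0x1) (nat_lit 136)) (.br (Nat.shiftLeft (nat_lit 0x1200000400a01203) (nat_lit 67)) (.br (Nat.shiftLeft (nat_lit 0x1000000800a01203) (nat_lit 67)) (.br (Nat.shiftLeft (nat_lit 0x2000001) (nat_lit 102)) (.one (nat_lit 0x8000003005009018000600a114030511)) (.one (nat_lit 0x8000004005009017000800a11402e511))) (.br (Nat.shiftLeft (nat_lit 0x9) (nat_lit 124)) (.one (nat_lit 0x8000004005009018000800a114030511)) (.one (nat_lit 0x9000002005009017000400a13442e511)))) (.br (Nat.shiftLeft (nat_lit 0x1200000600a01203) (nat_lit 67)) (.br (Nat.shiftLeft (nat_lit 0x9000003) (nat_lit 100)) (.one (nat_lit 0x9000002005009018000400a134430511)) (.one (nat_lit 0x9000003005009017000600a13442e511))) (.br (Nat.shiftLeft (nat_lit 0x2400001) (nat_lit 102)) (.one (nat_lit 0x9000003005009018000600a134430511)) (.br (Nat.shiftLeft (nat_lit 0x1200000800a01203) (nat_lit 67)) (.one (nat_lit 0x9000004005009017000800a13442e511)) (.one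 (nat_lit 0x9000004005009018000800a134430511)))))) (.br (Nat.shiftLeft (nat_lit 0x2000001003) (nat_lit 100)) (.br (Nat.shiftLeft (nat_lit 0x800001) (nat_lit 113)) (.br (Nat.shiftLeft (nat_lit 0x1000001003) (nat_lit 100)) (.one (nat_lit 0x1000001002005009017200402a41202e611)) (.one (nat_lit 0x1000001003005009017200602a41202e611))) (.br (Nat.shiftLeft (nat_lit 0x1000003) (nat_lit 112)) (.one (nat_lit 0x1000002003005009017400602a41202e611)) (.br (Nat.shiftLeft (nat_lit 0x1) (nat_lit 137)) (.one (nat_lit 0x1000003004005009017600802a41202e611)) (.one (nat_lit 0x2000001002005009017200404a81202e611))))) (.br (Nat.shiftLeft (nat_lit 0x2000003) (nat_lit 112)) (.br (Nat.shiftLeft (nat_lit 0x1000001) (nat_lit 113)) (.one (nat_lit 0x2000001003005009017200604a81202e611)) (.one (nat_lit 0x2000002003005009017400604a81202e611))) (.br (Nat.shiftLeft (nat_lit 0x3) (nat_lit 136)) (.one (nat_lit 0x2000003004005009017600804a81202e611)) (.br (Nat.shiftLeft (nat_lit 0x3000001003) (nat_lit 100)) (.one (nat_lit 0x3000001002005009017200406ac1202e611))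 (.one (nat_lit 0x3000001003005009017200606ac1202e611)))))))
def t371 : k371.all (jb2 57 fl b0) = true := by decide +kernel
noncomputable def k372 : KT := (.br (Nat.shiftLeft (nat_lit 0x2000001) (nat_lit 113)) (.br (Nat.shiftLeft (nat_lit 0x1) (nat_lit 138)) (.br (Nat.shiftLeft (nat_lit 0x3000003) (nat_lit 112)) (.one (nat_lit 0x3000002003005009017400606ac1202e611)) (.one (nat_lit 0x3000003004005009017600806ac1202e611))) (.br (Nat.shiftLeft (nat_lit 0x4000001003) (nat_lit 100)) (.one (nat_lit 0x4000001002005009017200408b01202e611)) (.one (nat_lit 0x4000001003005009017200608b01202e611)))) (.br (Nat.shiftLeft (nat_lit 0x5) (nat_lit 136)) (.br (Nat.shiftLeft (nat_lit 0x4000003) (nat_lit 112)) (.one (nat_lit 0x4000002003005009017400608b01202e611)) (.one (nat_lit 0x4000003004005009017600808b01202e611))) (.br (Nat.shiftLeft (nat_lit 0x5000001003) (nat_lit 100)) (.one (nat_lit 0x500000100200500901720040ab41202e611)) (.br (Nat.shiftLeft (nat_lit 0x2800001) (nat_lit 113)) (.one (nat_lit 0x500000100300500901720060ab41202e611)) (.one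 (nat_lit 0x500000200300500901740060ab41202e611))))))
def t372 : k372.all (jb2 57 fl b0) = true := by decide +kernel
noncomputable def k373 : KT := (.br (Nat.shiftLeft (nat_lit 0x6000001003) (nat_lit 100)) (.br (Nat.shiftLeft (nat_lit 0x3) (nat_lit 137)) (.one (nat_lit 0x500000300400500901760080ab41202e611)) (.one (nat_lit 0x600000100200500901720040cb81202e611))) (.br (Nat.shiftLeft (nat_lit 0x3000001) (nat_lit 113)) (.one (nat_lit 0x600000100300500901720060cb81202e611)) (.br (Nat.shiftLeft (nat_lit 0x6000003) (nat_lit 112)) (.one (nat_lit 0x600000200300500901740060cb81202e611)) (.one (nat_lit 0x600000300400500901760080cb81202e611)))))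
def t373 : k373.all (jb2 57 fl b0) = true := by decide +kernel
noncomputable def k374 : KT := (.br (Nat.shiftLeft (nat_lit 0x7000003) (nat_lit 112)) (.br (Nat.shiftLeft (nat_lit 0x7000001003) (nat_lit 100)) (.one (nat_lit 0x700000100200500901720040ebc1202e611)) (.br (Nat.shiftLeft (nat_lit 0x3800001) (nat_lit 113)) (.one (nat_lit 0x700000100300500901720060ebc1202e611)) (.one (nat_lit 0x700000200300500901740060ebc1202e611)))) (.br (Nat.shiftLeft (nat_lit 0x1) (nat_lit 139)) (.one (nat_lit 0x700000300400500901760080ebc1202e611)) (.br (Nat.shiftLeft (nat_lit 0x8000001003) (nat_lit 100)) (.one (nat_lit 0x8000001002005009017200410c01202e611)) (.one (nat_lit 0x8000001003005009017200610c01202e611)))))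
def t374 : k374.all (jb2 57 fl b0) = true := by decide +kernel
noncomputable def k375 : KT := (.br (Nat.shiftLeft (nat_lit 0x9000001003) (nat_lit 100)) (.br (Nat.shiftLeft (nat_lit 0x8000003) (nat_lit 112)) (.one (nat_lit 0x8000002003005009017400610c01202e611)) (.br (Nat.shiftLeft (nat_lit 0x9) (nat_lit 136)) (.one (nat_lit 0x8000003004005009017600810c01202e611)) (.one (nat_lit 0x9000001002005009017200412c41202e611)))) (.br (Nat.shiftLeft (nat_lit 0x4800001) (nat_lit 113)) (.one (nat_lit 0x9000001003005009017200612c41202e611)) (.br (Nat.shiftLeft (nat_lit 0x9000003) (nat_lit 112)) (.one (nat_lit 0x9000002003005009017400612c41202e611)) (.one (nat_lit 0x9000003004005009017600812c41202e611)))))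
def t375 : k375.all (jb2 57 fl b0) = true := by decide +kernel
noncomputable def s18 : KT := (.br (nat_lit 0x7000005009017e00000a01202e411) (.br (nat_lit 0x1004005009017200800a01202e650) (.br (nat_lit 0x1002005009017200400a01202f600) (.br (nat_lit 0x1005009017000200a01202e540) k355 k356) (.br (nat_lit 0x1003005009017200600a01202f600) k357 (.br (nat_lit 0x1003005009018200600a012030650) k358 k359))) (.br (nat_lit 0x2003005009018400600a012030650) (.br (nat_lit 0x2003005009017400600a01202f600) k360 k361) (.br (nat_lit 0x2004005009017400800a01202e650) k362 (.br (nat_lit 0x3004005009017600800a01202f600) k363 k364)))) (.br (nat_lit 0x7000003005009017000600a0f3c2e511) (.br (nat_lit 0x4000002005009018000400a093030511) (.br (nat_lit 0x1002003005009017400600a03242e760) k365 k366) (.br (nat_lit 0x5000004005009017000800a0b342e511) k367 (.br (nat_lit 0x6000003005009018000600a0d3830511) k368 k369))) (.br (nat_lit 0x500000200300500901740060ab41202e611) (.br (nat_lit 0x8000003005009017000600a11402e511) k370 (.br (nat_lit 0x3000001003005009017200606ac1202e611)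 k371 k372)) (.br (nat_lit 0x600000300400500901760080cb81202e611) k373 (.br (nat_lit 0x8000001003005009017200610c01202e611) k374 k375)))))
noncomputable def u18 : KT := (.br (Nat.shiftLeft (nat_lit 0xa01203) (nat_lit 67)) (.one (nat_lit 0x5009017000000a01202e430)) (.one (nat_lit 0x5009018000000a012030430)))
def w18 : u18.all (wj 57 s18) = true := by decide +kernel
def o18 : OkW 57 (jb2 57 fl) u18 := .lift s18 _ (.br _ _ _ (.br _ _ _ (.br _ _ _ (.br _ _ _ (.leaf b0 k355 t355) (.leaf b0 k356 t356)) (.br _ _ _ (.leaf b0 k357 t357) (.br _ _ _ (.leaf b0 k358 t358) (.leaf b0 k359 t359)))) (.br _ _ _ (.br _ _ _ (.leaf b0 k360 t360) (.leaf b0 k361 t361)) (.br _ _ _ (.leaf b0 k362 t362) (.br _ _ _ (.leaf b0 k363 t363) (.leaf b0 k364 t364))))) (.br _ _ _ (.br _ _ _ (.br _ _ _ (.leaf b0 k365 t365) (.leaf b0 k366 t366)) (.br _ _ _ (.leaf b0 k367 t367) (.br _ _ _ (.leaf b0 k368 t368) (.leaf b0 k369 t369)))) (.br _ _ _ (.br _ _ _ (.leaf b0 k370 t370) (.br _ _ _ (.leaf b0 k371 t371) (.leaf b0 k372 t372))) (.br _ _ _ (.leaf b0 k373 t373)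 (.br _ _ _ (.leaf b0 k374 t374) (.leaf b0 k375 t375)))))) w18
noncomputable def k : KT := (.br (nat_lit 0x5007015000000a00e02a430) (.br (nat_lit 0x40100120000008020024430) (.br (nat_lit 0x400f010000000801e020430) (.br (nat_lit 0x400e014000000801c028430) u0 u1) (.br (nat_lit 0x400f013000000801e026430) u2 u3)) (.br (nat_lit 0x5006012000000a00c024430) (.br (nat_lit 0x40110130000008022026430) u4 u5) (.br (nat_lit 0x5006013000000a00c026430) u6 (.br (nat_lit 0x5007014000000a00e029400) u7 u8)))) (.br (nat_lit 0x5008016000000a01002c430) (.br (nat_lit 0x5007018000000a00e030430) (.br (nat_lit 0x5007016000000a00e02c430) u9 u10) (.br (nat_lit 0x5008014000000a010029400) u11 (.br (nat_lit 0x5008015000000a01002a430) u12 u13))) (.br (nat_lit 0x5009014000000a012029400) (.br (nat_lit 0x5008018000000a010030430) u14 u15) (.br (nat_lit 0x5009015000000a01202a430) u16 (.br (nat_lit 0x5009016000000a01202c430) u17 u18)))))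
theorem ok : OkW 57 (jb2 57 fl) k := (.br _ _ _ (.br _ _ _ (.br _ _ _ (.br _ _ _ o0 o1) (.br _ _ _ o2 o3)) (.br _ _ _ (.br _ _ _ o4 o5) (.br _ _ _ o6 (.br _ _ _ o7 o8)))) (.br _ _ _ (.br _ _ _ (.br _ _ _ o9 o10) (.br _ _ _ o11 (.br _ _ _ o12 o13))) (.br _ _ _ (.br _ _ _ o14 o15) (.br _ _ _ o16 (.br _ _ _ o17 o18)))))

end Pool.Agent.Lib.MP_ed43e6_ag.Q.Y57.R8
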