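import Pool.Agent.Lib.MP_ed43e6_ag.Y57.Fl

namespace Pool.Agent.Lib.MP_ed43e6_ag.Q.Y57.R9

set_option linter.defProp false

noncomputable def b0 : BT := .node (nat_lit 1) (nat_lit 0) .leaf .leaf
noncomputable def k0 : KT := (.br (Nat.shiftLeft (nat_lit 0x2805009) (nat_lit 65)) (.br (Nat.shiftLeft (nat_lit 0x280480d) (nat_lit 65)) (.one (nat_lit 0x5009019000000a012033400)) (.br (Nat.shiftLeft (nat_lit 0x2805) (nat_lit 77)) (.one (nat_lit 0x500901a000000a012035400)) (.one (nat_lit 0x500a011000000a014023400)))) (.br (Nat.shiftLeft (nat_lit 0x500a013) (nat_lit 64)) (.one (nat_lit 0x500a012000000a014025400)) (.br (Nat.shiftLeft (nat_lit 0x1) (nat_lit 100)) (.one (nat_lit 0x500a013000000a014027400)) (.one (nat_lit 0x1005009019000200a012032540)))))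
def t0 : k0.all (jb2 57 fl b0) = true := by decide +kernel
noncomputable def k1 : KT := (.br (Nat.shiftLeft (nat_lit 0x180280480d) (nat_lit 65)) (.br (Nat.shiftLeft (nat_lit 0x100280480d) (nat_lit 65)) (.br (Nat.shiftLeft (nat_lit 0x1) (nat_lit 101)) (.one (nat_lit 0x100500901a000200a012034540)) (.one (nat_lit 0x2005009019000400a012033500))) (.br (Nat.shiftLeft (nat_lit 0x3) (nat_lit 100)) (.one (nat_lit 0x200500901a000400a012035500)) (.one (nat_lit 0x3005009019000600a012033500)))) (.br (Nat.shiftLeft (nat_lit 0x200280480d) (nat_lit 65)) (.br (Nat.shiftLeft (nat_lit 0x1) (nat_lit 102)) (.one (nat_lit 0x300500901a000600a012035500)) (.one (nat_lit 0x4005009019000800a012033500))) (.br (Nat.shiftLeft (nat_lit 0x1) (nat_lit 112)) (.one (nat_lit 0x400500901a000800a012035500)) (.br (Nat.shiftLeft (nat_lit 0x80000280480d) (nat_lit 65)) (.one (nat_lit 0x1000005009019200000a012032411)) (.one (nat_lit 0x100000500901a200000a012034411))))))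
def t1 : k1.all (jb2 57 fl b0) = true := by decide +kernel
noncomputable def k2 : KT := (.one (nat_lit 0x1002005009019200400a012032650))
def t2 : k2.all (jb2 57 fl b0) = true := by decide +kernel
noncomputable def k3 : KT := (.one (nat_lit 0x100200500901a200400a012034650))
def t3 : k3.all (jb2 57 fl b0) = true := by decide +kernel
noncomputable def k4 : KT := (.br (Nat.shiftLeft (nat_lit 0x80180280480d) (nat_lit 65)) (.one (nat_lit 0x1003005009019200600a012032650)) (.one (nat_lit 0x100300500901a200600a012034650)))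
def t4 : k4.all (jb2 57 fl b0) = true := by decide +kernel
noncomputable def k5 : KT := (.br (Nat.shiftLeft (nat_lit 0x1) (nat_lit 113)) (.br (Nat.shiftLeft (nat_lit 0x80200280480d) (nat_lit 65)) (.one (nat_lit 0x1004005009019200800a012032650)) (.one (nat_lit 0x100400500901a200800a012034650))) (.br (Nat.shiftLeft (nat_lit 0x100000280480d) (nat_lit 65)) (.one (nat_lit 0x2000005009019400000a012032411)) (.one (nat_lit 0x200000500901a400000a012034411))))
def t5 : k5.all (jb2 57 fl b0) = true := by decide +kernel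
noncomputable def k6 : KT := (.one (nat_lit 0x2003005009019400600a012032650))
def t6 : k6.all (jb2 57 fl b0) = true := by decide +kernel
noncomputable def k7 : KT := (.one (nat_lit 0x200300500901a400600a012034650))
def t7 : k7.all (jb2 57 fl b0) = true := by decide +kernel
noncomputable def k8 : KT := (.br (Nat.shiftLeft (nat_lit 0x3) (nat_lit 112)) (.br (Nat.shiftLeft (nat_lit 0x100200280480d) (nat_lit 65)) (.one (nat_lit 0x2004005009019400800a012032650)) (.one (nat_lit 0x200400500901a400800a012034650))) (.br (Nat.shiftLeft (nat_lit 0x180000280480d) (nat_lit 65)) (.one (nat_lit 0x3000005009019600000a012032411)) (.one (nat_lit 0x300000500901a600000a012034411))))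
def t8 : k8.all (jb2 57 fl b0) = true := by decide +kernel
noncomputable def k9 : KT := (.br (Nat.shiftLeft (nat_lit 0x1) (nat_lit 114)) (.br (Nat.shiftLeft (nat_lit 0x180200280480d) (nat_lit 65)) (.one (nat_lit 0x3004005009019600800a012032650)) (.one (nat_lit 0x300400500901a600800a012034650))) (.br (Nat.shiftLeft (nat_lit 0x200000280480d) (nat_lit 65)) (.one (nat_lit 0x4000005009019800000a012032411)) (.one (nat_lit 0x400000500901a800000a012034411))))
def t9 : k9.all (jb2 57 fl b0) = true := by decide +kernel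
noncomputable def k10 : KT := (.br (Nat.shiftLeft (nat_lit 0x100000100280480d) (nat_lit 65)) (.br (Nat.shiftLeft (nat_lit 0x9) (nat_lit 112)) (.br (Nat.shiftLeft (nat_lit 0x7) (nat_lit 112)) (.br (Nat.shiftLeft (nat_lit 0x3) (nat_lit 113)) (.br (Nat.shiftLeft (nat_lit 0x280000280480d) (nat_lit 65)) (.one (nat_lit 0x5000005009019a00000a012032411)) (.one (nat_lit 0x500000500901aa00000a012034411))) (.br (Nat.shiftLeft (nat_lit 0x300000280480d) (nat_lit 65)) (.one (nat_lit 0x6000005009019c00000a012032411)) (.one (nat_lit 0x600000500901ac00000a012034411)))) (.br (Nat.shiftLeft (nat_lit 0x1) (nat_lit 115)) (.br (Nat.shiftLeft (nat_lit 0x380000280480d) (nat_lit 65)) (.one (nat_lit 0x7000005009019e00000a012032411)) (.one (nat_lit 0x700000500901ae00000a012034411))) (.br (Nat.shiftLeft (nat_lit 0x400000280480d) (nat_lit 65)) (.one (nat_lit 0x8000005009019000000a012134411)) (.one (nat_lit 0x800000500901a000000a012136411))))) (.br (Nat.shiftLeft (nat_lit 0x1000003) (nat_lit 100)) (.br (Nat.shiftLeft (nat_lit 0x1) (nat_lit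 124)) (.br (Nat.shiftLeft (nat_lit 0x480000280480d) (nat_lit 65)) (.one (nat_lit 0x9000005009019200000a012134411)) (.one (nat_lit 0x900000500901a200000a012136411))) (.br (Nat.shiftLeft (nat_lit 0x80000100280480d) (nat_lit 65)) (.one (nat_lit 0x1000002005009019000400a032432511)) (.one (nat_lit 0x100000200500901a000400a032434511)))) (.br (Nat.shiftLeft (nat_lit 0x400001) (nat_lit 102)) (.br (Nat.shiftLeft (nat_lit 0x80000180280480d) (nat_lit 65)) (.one (nat_lit 0x1000003005009019000600a032432511)) (.one (nat_lit 0x100000300500901a000600a032434511))) (.br (Nat.shiftLeft (nat_lit 0x80000200280480d) (nat_lit 65)) (.one (nat_lit 0x1000004005009019000800a032432511)) (.br (Nat.shiftLeft (nat_lit 0x1) (nat_lit 125)) (.one (nat_lit 0x100000400500901a000800a032434511)) (.one (nat_lit 0x2000002005009019000400a052832511))))))) (.br (Nat.shiftLeft (nat_lit 0x180000180280480d) (nat_lit 65)) (.br (Nat.shiftLeft (nat_lit 0x100000200280480d) (nat_lit 65)) (.br (Nat.shiftLeft (nat_lit 0x100000180280480d) (nat_lit 65)) (.br (Nat.shiftLeft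 (nat_lit 0x2000003) (nat_lit 100)) (.one (nat_lit 0x200000200500901a000400a052834511)) (.one (nat_lit 0x2000003005009019000600a052832511))) (.br (Nat.shiftLeft (nat_lit 0x800001) (nat_lit 102)) (.one (nat_lit 0x200000300500901a000600a052834511)) (.one (nat_lit 0x2000004005009019000800a052832511)))) (.br (Nat.shiftLeft (nat_lit 0x180000100280480d) (nat_lit 65)) (.br (Nat.shiftLeft (nat_lit 0x3) (nat_lit 124)) (.one (nat_lit 0x200000400500901a000800a052834511)) (.one (nat_lit 0x3000002005009019000400a072c32511))) (.br (Nat.shiftLeft (nat_lit 0x3000003) (nat_lit 100)) (.one (nat_lit 0x300000200500901a000400a072c34511)) (.one (nat_lit 0x3000003005009019000600a072c32511))))) (.br (Nat.shiftLeft (nat_lit 0x200000100280480d) (nat_lit 65)) (.br (Nat.shiftLeft (nat_lit 0x180000200280480d) (nat_lit 65)) (.br (Nat.shiftLeft (nat_lit 0xc00001) (nat_lit 102)) (.one (nat_lit 0x300000300500901a000600a072c34511)) (.one (nat_lit 0x3000004005009019000800a072c32511))) (.br (Nat.shiftLeft (nat_lit 0x1) (nat_lit 126)) (.one (nat_lit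 0x300000400500901a000800a072c34511)) (.one (nat_lit 0x4000002005009019000400a093032511)))) (.br (Nat.shiftLeft (nat_lit 0x200000180280480d) (nat_lit 65)) (.br (Nat.shiftLeft (nat_lit 0x4000003) (nat_lit 100)) (.one (nat_lit 0x400000200500901a000400a093034511)) (.one (nat_lit 0x4000003005009019000600a093032511))) (.br (Nat.shiftLeft (nat_lit 0x1000001) (nat_lit 102)) (.one (nat_lit 0x400000300500901a000600a093034511)) (.br (Nat.shiftLeft (nat_lit 0x200000200280480d) (nat_lit 65)) (.one (nat_lit 0x4000004005009019000800a093032511)) (.one (nat_lit 0x400000400500901a000800a093034511))))))))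
def t10 : k10.all (jb2 57 fl b0) = true := by decide +kernel
noncomputable def k11 : KT := (.br (Nat.shiftLeft (nat_lit 0x1400001) (nat_lit 102)) (.br (Nat.shiftLeft (nat_lit 0x5000003) (nat_lit 100)) (.br (Nat.shiftLeft (nat_lit 0x280000100280480d) (nat_lit 65)) (.one (nat_lit 0x5000002005009019000400a0b3432511)) (.one (nat_lit 0x500000200500901a000400a0b3434511))) (.br (Nat.shiftLeft (nat_lit 0x280000180280480d) (nat_lit 65)) (.one (nat_lit 0x5000003005009019000600a0b3432511)) (.one (nat_lit 0x500000300500901a000600a0b3434511)))) (.br (Nat.shiftLeft (nat_lit 0x3) (nat_lit 125)) (.br (Nat.shiftLeft (nat_lit 0x280000200280480d) (nat_lit 65)) (.one (nat_lit 0x5000004005009019000800a0b3432511)) (.one (nat_lit 0x500000400500901a000800a0b3434511))) (.br (Nat.shiftLeft (nat_lit 0x300000100280480d) (nat_lit 65)) (.one (nat_lit 0x6000002005009019000400a0d3832511)) (.one (nat_lit 0x600000200500901a000400a0d3834511)))))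
def t11 : k11.all (jb2 57 fl b0) = true := by decide +kernel
noncomputable def k12 : KT := (.br (Nat.shiftLeft (nat_lit 0x380000100280480d) (nat_lit 65)) (.br (Nat.shiftLeft (nat_lit 0x1800001) (nat_lit 102)) (.br (Nat.shiftLeft (nat_lit 0x300000180280480d) (nat_lit 65)) (.one (nat_lit 0x6000003005009019000600a0d3832511)) (.one (nat_lit 0x600000300500901a000600a0d3834511))) (.br (Nat.shiftLeft (nat_lit 0x300000200280480d) (nat_lit 65)) (.one (nat_lit 0x6000004005009019000800a0d3832511)) (.br (Nat.shiftLeft (nat_lit 0x7) (nat_lit 124)) (.one (nat_lit 0x600000400500901a000800a0d3834511)) (.one (nat_lit 0x7000002005009019000400a0f3c32511))))) (.br (Nat.shiftLeft (nat_lit 0x380000180280480d) (nat_lit 65)) (.br (Nat.shiftLeft (nat_lit 0x7000003) (nat_lit 100)) (.one (nat_lit 0x700000200500901a000400a0f3c34511)) (.one (nat_lit 0x7000003005009019000600a0f3c32511))) (.br (Nat.shiftLeft (nat_lit 0x1c00001) (nat_lit 102)) (.one (nat_lit 0x700000300500901a000600a0f3c34511)) (.br (Nat.shiftLeft (nat_lit 0x380000200280480d)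 (nat_lit 65)) (.one (nat_lit 0x7000004005009019000800a0f3c32511)) (.one (nat_lit 0x700000400500901a000800a0f3c34511))))))
def t12 : k12.all (jb2 57 fl b0) = true := by decide +kernel
noncomputable def k13 : KT := (.br (Nat.shiftLeft (nat_lit 0x9) (nat_lit 124)) (.br (Nat.shiftLeft (nat_lit 0x400000180280480d) (nat_lit 65)) (.br (Nat.shiftLeft (nat_lit 0x400000100280480d) (nat_lit 65)) (.one (nat_lit 0x8000002005009019000400a114032511)) (.br (Nat.shiftLeft (nat_lit 0x8000003) (nat_lit 100)) (.one (nat_lit 0x800000200500901a000400a114034511)) (.one (nat_lit 0x8000003005009019000600a114032511)))) (.br (Nat.shiftLeft (nat_lit 0x2000001) (nat_lit 102)) (.one (nat_lit 0x800000300500901a000600a114034511)) (.br (Nat.shiftLeft (nat_lit 0x400000200280480d) (nat_lit 65)) (.one (nat_lit 0x8000004005009019000800a114032511)) (.one (nat_lit 0x800000400500901a000800a114034511))))) (.br (Nat.shiftLeft (nat_lit 0x480000180280480d) (nat_lit 65)) (.br (Nat.shiftLeft (nat_lit 0x480000100280480d) (nat_lit 65)) (.one (nat_lit 0x9000002005009019000400a134432511))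 (.br (Nat.shiftLeft (nat_lit 0x9000003) (nat_lit 100)) (.one (nat_lit 0x900000200500901a000400a134434511)) (.one (nat_lit 0x9000003005009019000600a134432511)))) (.br (Nat.shiftLeft (nat_lit 0x2400001) (nat_lit 102)) (.one (nat_lit 0x900000300500901a000600a134434511)) (.br (Nat.shiftLeft (nat_lit 0x480000200280480d) (nat_lit 65)) (.one (nat_lit 0x9000004005009019000800a134432511)) (.one (nat_lit 0x900000400500901a000800a134434511))))))
def t13 : k13.all (jb2 57 fl b0) = true := by decide +kernel
noncomputable def s0 : KT := (.br (nat_lit 0x2003005009019400600a012032650) (.br (nat_lit 0x1002005009019200400a012032650) (.br (nat_lit 0x1005009019000200a012032540) k0 (.br (nat_lit 0x100000500901a200000a012034411) k1 k2)) (.br (nat_lit 0x100300500901a200600a012034650) (.br (nat_lit 0x100200500901a200400a012034650) k3 k4) (.br (nat_lit 0x200000500901a400000a012034411) k5 k6))) (.br (nat_lit 0x400000500901a800000a012034411) (.br (nat_lit 0x200300500901a400600a012034650) k7 (.br (nat_lit 0x300000500901a600000a012034411)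 k8 k9)) (.br (nat_lit 0x600000200500901a000400a0d3834511) (.br (nat_lit 0x400000400500901a000800a093034511) k10 k11) (.br (nat_lit 0x700000400500901a000800a0f3c34511) k12 k13))))
noncomputable def u0 : KT := (.br (Nat.shiftLeft (nat_lit 0x2805) (nat_lit 77)) (.br (Nat.shiftLeft (nat_lit 0x280480d) (nat_lit 65)) (.one (nat_lit 0x5009019000000a012032430)) (.one (nat_lit 0x500901a000000a012034430))) (.br (Nat.shiftLeft (nat_lit 0x2805009) (nat_lit 65)) (.one (nat_lit 0x500a011000000a014023400)) (.br (Nat.shiftLeft (nat_lit 0x500a013) (nat_lit 64)) (.one (nat_lit 0x500a012000000a014025400)) (.one (nat_lit 0x500a013000000a014027400)))))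
def w0 : u0.all (wj 57 s0) = true := by decide +kernel
def o0 : OkW 57 (jb2 57 fl) u0 := .lift s0 _ (.br _ _ _ (.br _ _ _ (.br _ _ _ (.leaf b0 k0 t0) (.br _ _ _ (.leaf b0 k1 t1) (.leaf b0 k2 t2))) (.br _ _ _ (.br _ _ _ (.leaf b0 k3 t3) (.leaf b0 k4 t4)) (.br _ _ _ (.leaf b0 k5 t5) (.leaf b0 k6 t6)))) (.br _ _ _ (.br _ _ _ (.leaf b0 k7 t7) (.br _ _ _ (.leaf b0 k8 t8) (.leaf b0 k9 t9))) (.br _ _ _ (.br _ _ _ (.leaf b0 k10 t10) (.leaf b0 k11 t11)) (.br _ _ _ (.leaf b0 k12 t12) (.leaf b0 k13 t13))))) w0
noncomputable def k14 : KT := (.br (Nat.shiftLeft (nat_lit 0xc01) (nat_lit 102)) (.br (Nat.shiftLeft (nat_lit 0x801) (nat_lit 101)) (.br (Nat.shiftLeft (nat_lit 0x3) (nat_lit 100)) (.br (Nat.shiftLeft (nat_lit 0x1) (nat_lit 100)) (.one (nat_lit 0x500a014000000a014029400)) (.br (Nat.shiftLeft (nat_lit 0x1) (nat_lit 101)) (.one (nat_lit 0x100500a014000200a014029500)) (.one (nat_lit 0x200500a014000400a014029500)))) (.br (Nat.shiftLeft (nat_lit 0x1) (nat_lit 102)) (.one (nat_lit 0x300500a014000600a014029500)) (.br (Nat.shiftLeft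 (nat_lit 0x1) (nat_lit 112)) (.one (nat_lit 0x400500a014000800a014029500)) (.one (nat_lit 0x100000500a014200000a014028411))))) (.br (Nat.shiftLeft (nat_lit 0x1) (nat_lit 113)) (.br (Nat.shiftLeft (nat_lit 0x1003) (nat_lit 100)) (.one (nat_lit 0x100200500a014200400a014029600)) (.br (Nat.shiftLeft (nat_lit 0x401) (nat_lit 102)) (.one (nat_lit 0x100300500a014200600a014029600)) (.one (nat_lit 0x100400500a014200800a014029600)))) (.br (Nat.shiftLeft (nat_lit 0x801) (nat_lit 102)) (.br (Nat.shiftLeft (nat_lit 0x1001) (nat_lit 101)) (.one (nat_lit 0x200000500a014400000a014028411)) (.one (nat_lit 0x200300500a014400600a014029600))) (.br (Nat.shiftLeft (nat_lit 0x3) (nat_lit 112)) (.one (nat_lit 0x200400500a014400800a014029600)) (.one (nat_lit 0x300000500a014600000a014028411)))))) (.br (Nat.shiftLeft (nat_lit 0x9) (nat_lit 112)) (.br (Nat.shiftLeft (nat_lit 0x3) (nat_lit 113)) (.br (Nat.shiftLeft (nat_lit 0x1) (nat_lit 114)) (.one (nat_lit 0x300400500a014600800a014029600)) (.br (Nat.shiftLeft (nat_lit 0x5) (nat_lit 112))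 (.one (nat_lit 0x400000500a014800000a014028411)) (.one (nat_lit 0x500000500a014a00000a014028411)))) (.br (Nat.shiftLeft (nat_lit 0x7) (nat_lit 112)) (.one (nat_lit 0x600000500a014c00000a014028411)) (.br (Nat.shiftLeft (nat_lit 0x1) (nat_lit 115)) (.one (nat_lit 0x700000500a014e00000a014028411)) (.one (nat_lit 0x800000500a014000000a01412a411))))) (.br (Nat.shiftLeft (nat_lit 0x800001) (nat_lit 101)) (.br (Nat.shiftLeft (nat_lit 0x5) (nat_lit 113)) (.one (nat_lit 0x900000500a014200000a01412a411)) (.br (Nat.shiftLeft (nat_lit 0x1) (nat_lit 124)) (.one (nat_lit 0xa00000500a014400000a01412a411)) (.one (nat_lit 0x100000100500a014000200a034428511)))) (.br (Nat.shiftLeft (nat_lit 0x400001) (nat_lit 102)) (.br (Nat.shiftLeft (nat_lit 0x1000003) (nat_lit 100)) (.one (nat_lit 0x100000200500a014000400a034428511)) (.one (nat_lit 0x100000300500a014000600a034428511))) (.br (Nat.shiftLeft (nat_lit 0x801) (nat_lit 113)) (.one (nat_lit 0x100000400500a014000800a034428511)) (.one (nat_lit 0x100200300500a014400600a034429700)))))))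
noncomputable def b15 : BT := .node (nat_lit 0xb) (nat_lit 0x1b644c027493a09d44c2000ea6400231e000ea6c0032a10a89a4e49d04e849c9309270939274801843c00158c00084b4005571002753200996c874509d04e8000ea6000329d0689a5909d04e849c13a000c25a002ab74003a98004ea602003d9003d9003d9003d9003d90031e0031e00209001aa001aa000f0000f0) .leaf .leaf
def t14 : k14.all (jb2 57 fl b15) = true := by decide +kernel
noncomputable def k15 : KT := (.one (nat_lit 0x100200400500a014400800a034428760))
def t15 : k15.all (jb2 57 fl b0) = true := by decide +kernel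
noncomputable def k16 : KT := (.br (Nat.shiftLeft (nat_lit 0x1000001) (nat_lit 101)) (.br (Nat.shiftLeft (nat_lit 0x1) (nat_lit 125)) (.one (nat_lit 0x100300400500a014600800a034428760)) (.one (nat_lit 0x200000100500a014000200a054828511))) (.br (Nat.shiftLeft (nat_lit 0x2000003) (nat_lit 100)) (.one (nat_lit 0x200000200500a014000400a054828511)) (.br (Nat.shiftLeft (nat_lit 0x800001) (nat_lit 102)) (.one (nat_lit 0x200000300500a014000600a054828511)) (.one (nat_lit 0x200000400500a014000800a054828511)))))
def t16 : k16.all (jb2 57 fl b0) = true := by decide +kernel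
noncomputable def k17 : KT := (.br (Nat.shiftLeft (nat_lit 0xc00001) (nat_lit 102)) (.br (Nat.shiftLeft (nat_lit 0x1800001) (nat_lit 101)) (.br (Nat.shiftLeft (nat_lit 0x3) (nat_lit 124)) (.one (nat_lit 0x200300400500a014600800a054828760)) (.one (nat_lit 0x300000100500a014000200a074c28511))) (.br (Nat.shiftLeft (nat_lit 0x3000003) (nat_lit 100)) (.one (nat_lit 0x300000200500a014000400a074c28511)) (.one (nat_lit 0x300000300500a014000600a074c28511)))) (.br (Nat.shiftLeft (nat_lit 0x2000001) (nat_lit 101)) (.br (Nat.shiftLeft (nat_lit 0x1) (nat_lit 126)) (.one (nat_lit 0x300000400500a014000800a074c28511)) (.one (nat_lit 0x400000100500a014000200a095028511))) (.br (Nat.shiftLeft (nat_lit 0x4000003) (nat_lit 100)) (.one (nat_lit 0x400000200500a014000400a095028511)) (.one (nat_lit 0x400000300500a014000600a095028511)))))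
def t17 : k17.all (jb2 57 fl b0) = true := by decide +kernel
noncomputable def k18 : KT := (.br (Nat.shiftLeft (nat_lit 0x5000003) (nat_lit 100)) (.br (Nat.shiftLeft (nat_lit 0x5) (nat_lit 124)) (.one (nat_lit 0x400000400500a014000800a095028511)) (.br (Nat.shiftLeft (nat_lit 0x2800001) (nat_lit 101)) (.one (nat_lit 0x500000100500a014000200a0b5428511)) (.one (nat_lit 0x500000200500a014000400a0b5428511)))) (.br (Nat.shiftLeft (nat_lit 0x1400001) (nat_lit 102)) (.one (nat_lit 0x500000300500a014000600a0b5428511)) (.br (Nat.shiftLeft (nat_lit 0x3) (nat_lit 125)) (.one (nat_lit 0x500000400500a014000800a0b5428511)) (.one (nat_lit 0x600000100500a014000200a0d5828511)))))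
def t18 : k18.all (jb2 57 fl b0) = true := by decide +kernel
noncomputable def k19 : KT := (.br (Nat.shiftLeft (nat_lit 0x1800001) (nat_lit 102)) (.br (Nat.shiftLeft (nat_lit 0x6000003) (nat_lit 100)) (.one (nat_lit 0x600000200500a014000400a0d5828511)) (.one (nat_lit 0x600000300500a014000600a0d5828511))) (.br (Nat.shiftLeft (nat_lit 0x7) (nat_lit 124)) (.one (nat_lit 0x600000400500a014000800a0d5828511)) (.one (nat_lit 0x700000100500a014000200a0f5c28511))))
def t19 : k19.all (jb2 57 fl b0) = true := by decide +kernel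
noncomputable def k20 : KT := (.br (Nat.shiftLeft (nat_lit 0x7000003) (nat_lit 100)) (.one (nat_lit 0x700000200500a014000400a0f5c28511)) (.br (Nat.shiftLeft (nat_lit 0x1c00001) (nat_lit 102)) (.one (nat_lit 0x700000300500a014000600a0f5c28511)) (.one (nat_lit 0x700000400500a014000800a0f5c28511))))
def t20 : k20.all (jb2 57 fl b0) = true := by decide +kernel
noncomputable def k21 : KT := (.br (Nat.shiftLeft (nat_lit 0x4000001) (nat_lit 101)) (.one (nat_lit 0x800000100500a014000200a116028511)) (.br (Nat.shiftLeft (nat_lit 0x8000003) (nat_lit 100)) (.one (nat_lit 0x800000200500a014000400a116028511)) (.one (nat_lit 0x800000300500a014000600a116028511))))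
def t21 : k21.all (jb2 57 fl b0) = true := by decide +kernel
noncomputable def k22 : KT := (.br (Nat.shiftLeft (nat_lit 0x9) (nat_lit 124)) (.one (nat_lit 0x800000400500a014000800a116028511)) (.br (Nat.shiftLeft (nat_lit 0x4800001) (nat_lit 101)) (.one (nat_lit 0x900000100500a014000200a136428511)) (.one (nat_lit 0x900000200500a014000400a136428511))))
noncomputable def b23 : BT := .node (nat_lit 0x2f) (nat_lit 0x24e09d04e8000ea60002b190658d2704e8274130c97e001d4c000653a001d3200065b016da24e12704e849c93a0003a98000cb6000425a000ac602db326024e00032d9000ab701db3274a58c0032d9000cb6019632749454003a5c000ac6c1a2693925f80074bc00196c033a12704c0000ea640032d9068a13a49849632741454003a5d000ca88003a5c000ac6c20082e0082e007ce007ce007ce007ce007ce007ce007ce007ce007ce00713007130071300713007130071300658005f8005f8005f8005f8005f8005f8005f8005980053800538005380053800538004d9004d90047a0047a0047a0047a0047a0047a0047a003c0003c0003c0003c0003c0003c0003c0003c0) .leaf .leaf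
def t22 : k22.all (jb2 57 fl b23) = true := by decide +kernel
noncomputable def k23 : KT := (.br (Nat.shiftLeft (nat_lit 0x5) (nat_lit 125)) (.br (Nat.shiftLeft (nat_lit 0x2400001) (nat_lit 102)) (.one (nat_lit 0x900000300500a014000600a136428511)) (.one (nat_lit 0x900000400500a014000800a136428511))) (.br (Nat.shiftLeft (nat_lit 0x5000001) (nat_lit 101)) (.one (nat_lit 0xa00000100500a014000200a156828511)) (.one (nat_lit 0xa00000200500a014000400a156828511))))
noncomputable def b24 : BT := .node (nat_lit 0xb) (nat_lit 0x51427493a12c6938260000753200194e00074ba00196c8526e93a26080065b8001950832c893826024e52704c24b2258c986005d2e00165b200196c001654200996c00164ce1d416da24e00049da000ab74193927413a1b689634b194512704c2000ea60002b18006cb6001b2d8002e97400b2a20e4e12704c34b193009d200196c0006548001d4c000653c16d993012729634b1930c0032d8002ab780132d8002c9a020060b0055100551004f1003db003db003db0037c0037c00266001ab000f0) .leaf .leaf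
def t23 : k23.all (jb2 57 fl b24) = true := by decide +kernel
noncomputable def k24 : KT := (.br (Nat.shiftLeft (nat_lit 0x800000801) (nat_lit 102)) (.br (Nat.shiftLeft (nat_lit 0x400000801) (nat_lit 102)) (.br (Nat.shiftLeft (nat_lit 0x1000001003) (nat_lit 100)) (.br (Nat.shiftLeft (nat_lit 0x2800001) (nat_lit 102)) (.one (nat_lit 0xa00000300500a014000600a156828511)) (.br (Nat.shiftLeft (nat_lit 0x1) (nat_lit 136)) (.one (nat_lit 0xa00000400500a014000800a156828511)) (.one (nat_lit 0x100000100200500a014200402a414028611)))) (.br (Nat.shiftLeft (nat_lit 0x400000401) (nat_lit 102)) (.one (nat_lit 0x100000100300500a014200602a414028611)) (.br (Nat.shiftLeft (nat_lit 0x800001) (nat_lit 113)) (.one (nat_lit 0x100000100400500a014200802a414028611)) (.one (nat_lit 0x100000200300500a014400602a414028611))))) (.br (Nat.shiftLeft (nat_lit 0x2000001003) (nat_lit 100)) (.br (Nat.shiftLeft (nat_lit 0x1000003) (nat_lit 112)) (.one (nat_lit 0x100000200400500a014400802a414028611)) (.br (Nat.shiftLeft (nat_lit 0x1) (nat_lit 137))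 (.one (nat_lit 0x100000300400500a014600802a414028611)) (.one (nat_lit 0x200000100200500a014200404a814028611)))) (.br (Nat.shiftLeft (nat_lit 0x800000401) (nat_lit 102)) (.one (nat_lit 0x200000100300500a014200604a814028611)) (.br (Nat.shiftLeft (nat_lit 0x1000001) (nat_lit 113)) (.one (nat_lit 0x200000100400500a014200804a814028611)) (.one (nat_lit 0x200000200300500a014400604a814028611)))))) (.br (Nat.shiftLeft (nat_lit 0xc00000801) (nat_lit 102)) (.br (Nat.shiftLeft (nat_lit 0x3000001003) (nat_lit 100)) (.br (Nat.shiftLeft (nat_lit 0x2000003) (nat_lit 112)) (.one (nat_lit 0x200000200400500a014400804a814028611)) (.br (Nat.shiftLeft (nat_lit 0x3) (nat_lit 136)) (.one (nat_lit 0x200000300400500a014600804a814028611)) (.one (nat_lit 0x300000100200500a014200406ac14028611)))) (.br (Nat.shiftLeft (nat_lit 0xc00000401) (nat_lit 102)) (.one (nat_lit 0x300000100300500a014200606ac14028611)) (.br (Nat.shiftLeft (nat_lit 0x1800001) (nat_lit 113)) (.one (nat_lit 0x300000100400500a014200806ac14028611)) (.one (nat_lit 0x300000200300500a014400606ac14028611)))))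 (.br (Nat.shiftLeft (nat_lit 0x4000001003) (nat_lit 100)) (.br (Nat.shiftLeft (nat_lit 0x3000003) (nat_lit 112)) (.one (nat_lit 0x300000200400500a014400806ac14028611)) (.br (Nat.shiftLeft (nat_lit 0x1) (nat_lit 138)) (.one (nat_lit 0x300000300400500a014600806ac14028611)) (.one (nat_lit 0x400000100200500a014200408b014028611)))) (.br (Nat.shiftLeft (nat_lit 0x1000000401) (nat_lit 102)) (.one (nat_lit 0x400000100300500a014200608b014028611)) (.br (Nat.shiftLeft (nat_lit 0x2000001) (nat_lit 113)) (.one (nat_lit 0x400000100400500a014200808b014028611)) (.one (nat_lit 0x400000200300500a014400608b014028611)))))))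
def t24 : k24.all (jb2 57 fl b0) = true := by decide +kernel
noncomputable def k25 : KT := (.br (Nat.shiftLeft (nat_lit 0x5) (nat_lit 136)) (.br (Nat.shiftLeft (nat_lit 0x4000003) (nat_lit 112)) (.one (nat_lit 0x400000200400500a014400808b014028611)) (.one (nat_lit 0x400000300400500a014600808b014028611))) (.br (Nat.shiftLeft (nat_lit 0x5000001003) (nat_lit 100)) (.one (nat_lit 0x500000100200500a01420040ab414028611)) (.br (Nat.shiftLeft (nat_lit 0x1400000401) (nat_lit 102)) (.one (nat_lit 0x500000100300500a01420060ab414028611)) (.one (nat_lit 0x500000100400500a01420080ab414028611)))))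
def t25 : k25.all (jb2 57 fl b0) = true := by decide +kernel
noncomputable def k26 : KT := (.br (Nat.shiftLeft (nat_lit 0x1400000801) (nat_lit 102)) (.one (nat_lit 0x500000200300500a01440060ab414028611)) (.br (Nat.shiftLeft (nat_lit 0x5000003) (nat_lit 112)) (.one (nat_lit 0x500000200400500a01440080ab414028611)) (.one (nat_lit 0x500000300400500a01460080ab414028611))))
def t26 : k26.all (jb2 57 fl b0) = true := by decide +kernel
noncomputable def k27 : KT := (.br (Nat.shiftLeft (nat_lit 0x6000001003) (nat_lit 100)) (.one (nat_lit 0x600000100200500a01420040cb814028611)) (.one (nat_lit 0x600000100300500a01420060cb814028611)))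
def t27 : k27.all (jb2 57 fl b0) = true := by decide +kernel
noncomputable def k28 : KT := (.br (Nat.shiftLeft (nat_lit 0x3000001) (nat_lit 113)) (.one (nat_lit 0x600000100400500a01420080cb814028611)) (.br (Nat.shiftLeft (nat_lit 0x1800000801) (nat_lit 102)) (.one (nat_lit 0x600000200300500a01440060cb814028611)) (.one (nat_lit 0x600000200400500a01440080cb814028611))))
def t28 : k28.all (jb2 57 fl b0) = true := by decide +kernel
noncomputable def k29 : KT := (.br (Nat.shiftLeft (nat_lit 0x7) (nat_lit 136)) (.one (nat_lit 0x600000300400500a01460080cb814028611)) (.br (Nat.shiftLeft (nat_lit 0x7000001003) (nat_lit 100)) (.one (nat_lit 0x700000100200500a01420040ebc14028611)) (.one (nat_lit 0x700000100300500a01420060ebc14028611))))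
def t29 : k29.all (jb2 57 fl b0) = true := by decide +kernel
noncomputable def k30 : KT := (.br (Nat.shiftLeft (nat_lit 0x1c00000801) (nat_lit 102)) (.br (Nat.shiftLeft (nat_lit 0x3800001) (nat_lit 113)) (.one (nat_lit 0x700000100400500a01420080ebc14028611)) (.one (nat_lit 0x700000200300500a01440060ebc14028611))) (.br (Nat.shiftLeft (nat_lit 0x7000003) (nat_lit 112)) (.one (nat_lit 0x700000200400500a01440080ebc14028611)) (.one (nat_lit 0x700000300400500a01460080ebc14028611))))
def t30 : k30.all (jb2 57 fl b0) = true := by decide +kernel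
noncomputable def k31 : KT := (.br (Nat.shiftLeft (nat_lit 0x8000001003) (nat_lit 100)) (.one (nat_lit 0x800000100200500a014200410c014028611)) (.br (Nat.shiftLeft (nat_lit 0x2000000401) (nat_lit 102)) (.one (nat_lit 0x800000100300500a014200610c014028611)) (.one (nat_lit 0x800000100400500a014200810c014028611))))
noncomputable def b32 : BT := .node (nat_lit 0x1) (nat_lit 0xdb449b930800329b000ab8c10008800028) .leaf .leaf
def t31 : k31.all (jb2 57 fl b32) = true := by decide +kernel
noncomputable def k32 : KT := (.br (Nat.shiftLeft (nat_lit 0x8000003) (nat_lit 112)) (.br (Nat.shiftLeft (nat_lit 0x2000000801) (nat_lit 102)) (.one (nat_lit 0x800000200300500a014400610c014028611)) (.one (nat_lit 0x800000200400500a014400810c014028611))) (.br (Nat.shiftLeft (nat_lit 0x9) (nat_lit 136)) (.one (nat_lit 0x800000300400500a014600810c014028611)) (.one (nat_lit 0x900000100200500a014200412c414028611))))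
def t32 : k32.all (jb2 57 fl b0) = true := by decide +kernel
noncomputable def k33 : KT := (.br (Nat.shiftLeft (nat_lit 0x4800001) (nat_lit 113)) (.br (Nat.shiftLeft (nat_lit 0x2400000401) (nat_lit 102)) (.one (nat_lit 0x900000100300500a014200612c414028611)) (.one (nat_lit 0x900000100400500a014200812c414028611))) (.br (Nat.shiftLeft (nat_lit 0x2400000801) (nat_lit 102)) (.one (nat_lit 0x900000200300500a014400612c414028611)) (.br (Nat.shiftLeft (nat_lit 0x9000003) (nat_lit 112)) (.one (nat_lit 0x900000200400500a014400812c414028611)) (.one (nat_lit 0x900000300400500a014600812c414028611)))))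
def t33 : k33.all (jb2 57 fl b0) = true := by decide +kernel
noncomputable def k34 : KT := (.br (Nat.shiftLeft (nat_lit 0xa000003) (nat_lit 112)) (.br (Nat.shiftLeft (nat_lit 0x2800000401) (nat_lit 102)) (.br (Nat.shiftLeft (nat_lit 0xa000001003) (nat_lit 100)) (.one (nat_lit 0xa00000100200500a014200414c814028611)) (.one (nat_lit 0xa00000100300500a014200614c814028611))) (.br (Nat.shiftLeft (nat_lit 0x5000001) (nat_lit 113)) (.one (nat_lit 0xa00000100400500a014200814c814028611)) (.br (Nat.shiftLeft (nat_lit 0x2800000801) (nat_lit 102)) (.one (nat_lit 0xa00000200300500a014400614c814028611)) (.one (nat_lit 0xa00000200400500a014400814c814028611))))) (.br (Nat.shiftLeft (nat_lit 0x1) (nat_lit 149)) (.br (Nat.shiftLeft (nat_lit 0x1) (nat_lit 148)) (.one (nat_lit 0xa00000300400500a014600814c814028611)) (.one (nat_lit 0x100000100200300500a014402640a034428711))) (.br (Nat.shiftLeft (nat_lit 0x3) (nat_lit 148)) (.one (nat_lit 0x200000100200300500a014404680a034428711)) (.br (Nat.shiftLeft (nat_lit 0x1) (nat_lit 150)) (.one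 (nat_lit 0x300000100200300500a0144066c0a034428711)) (.one (nat_lit 0x400000100200300500a014408700a034428711))))))
def t34 : k34.all (jb2 57 fl b0) = true := by decide +kernel
noncomputable def k35 : KT := (.br (Nat.shiftLeft (nat_lit 0x7) (nat_lit 148)) (.br (Nat.shiftLeft (nat_lit 0x3) (nat_lit 149)) (.one (nat_lit 0x500000100200300500a01440a740a034428711)) (.one (nat_lit 0x600000100200300500a01440c780a034428711))) (.br (Nat.shiftLeft (nat_lit 0x1) (nat_lit 151)) (.one (nat_lit 0x700000100200300500a01440e7c0a034428711)) (.one (nat_lit 0x800000100200300500a014410800a034428711))))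
def t35 : k35.all (jb2 57 fl b0) = true := by decide +kernel
noncomputable def k36 : KT := (.br (Nat.shiftLeft (nat_lit 0x5) (nat_lit 149)) (.one (nat_lit 0x900000100200300500a014412840a034428711)) (.one (nat_lit 0xa00000100200300500a014414880a034428711)))
def t36 : k36.all (jb2 57 fl b0) = true := by decide +kernel
noncomputable def s1 : KT := (.br (nat_lit 0x400000200300500a014400608b014028611) (.br (nat_lit 0x600000100500a014000200a0d5828511) (.br (nat_lit 0x100200400500a014400800a034428760) (.br (nat_lit 0x100200300500a014400600a034429700) k14 k15) (.br (nat_lit 0x200000400500a014000800a054828511) k16 (.br (nat_lit 0x400000300500a014000600a095028511) k17 k18))) (.br (nat_lit 0x800000300500a014000600a116028511) (.br (nat_lit 0x700000100500a014000200a0f5c28511) k19 (.br (nat_lit 0x700000400500a014000800a0f5c28511) k20 k21)) (.br (nat_lit 0x900000200500a014000400a136428511) k22 (.br (nat_lit 0xa00000200500a014000400a156828511) k23 k24)))) (.br (nat_lit 0x700000300400500a01460080ebc14028611) (.br (nat_lit 0x600000100300500a01420060cb814028611)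 (.br (nat_lit 0x500000100400500a01420080ab414028611) k25 (.br (nat_lit 0x500000300400500a01460080ab414028611) k26 k27)) (.br (nat_lit 0x600000200400500a01440080cb814028611) k28 (.br (nat_lit 0x700000100300500a01420060ebc14028611) k29 k30))) (.br (nat_lit 0x900000300400500a014600812c414028611) (.br (nat_lit 0x800000100400500a014200810c014028611) k31 (.br (nat_lit 0x900000100200500a014200412c414028611) k32 k33)) (.br (nat_lit 0x400000100200300500a014408700a034428711) k34 (.br (nat_lit 0x800000100200300500a014410800a034428711) k35 k36)))))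
noncomputable def u1 : KT := (.one (nat_lit 0x500a014000000a014028430))
def w1 : u1.all (wj 57 s1) = true := by decide +kernel
def o1 : OkW 57 (jb2 57 fl) u1 := .lift s1 _ (.br _ _ _ (.br _ _ _ (.br _ _ _ (.br _ _ _ (.leaf b15 k14 t14) (.leaf b0 k15 t15)) (.br _ _ _ (.leaf b0 k16 t16) (.br _ _ _ (.leaf b0 k17 t17) (.leaf b0 k18 t18)))) (.br _ _ _ (.br _ _ _ (.leaf b0 k19 t19) (.br _ _ _ (.leaf b0 k20 t20) (.leaf b0 k21 t21))) (.br _ _ _ (.leaf b23 k22 t22) (.br _ _ _ (.leaf b24 k23 t23) (.leaf b0 k24 t24))))) (.br _ _ _ (.br _ _ _ (.br _ _ _ (.leaf b0 k25 t25) (.br _ _ _ (.leaf b0 k26 t26) (.leaf b0 k27 t27))) (.br _ _ _ (.leaf b0 k28 t28) (.br _ _ _ (.leaf b0 k29 t29) (.leaf b0 k30 t30)))) (.br _ _ _ (.br _ _ _ (.leaf b32 k31 t31) (.br _ _ _ (.leaf b0 k32 t32) (.leaf b0 k33 t33))) (.br _ _ _ (.leaf b0 k34 t34) (.br _ _ _ (.leaf b0 k35 t35) (.leaf b0 k36 t36)))))) w1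
noncomputable def k37 : KT := (.br (Nat.shiftLeft (nat_lit 0x401) (nat_lit 102)) (.br (Nat.shiftLeft (nat_lit 0x1) (nat_lit 102)) (.br (Nat.shiftLeft (nat_lit 0x1) (nat_lit 101)) (.br (Nat.shiftLeft (nat_lit 0x1) (nat_lit 100)) (.one (nat_lit 0x500a015000000a01402b400)) (.one (nat_lit 0x100500a015000200a01402a540))) (.br (Nat.shiftLeft (nat_lit 0x3) (nat_lit 100)) (.one (nat_lit 0x200500a015000400a01402b500)) (.one (nat_lit 0x300500a015000600a01402b500)))) (.br (Nat.shiftLeft (nat_lit 0x801) (nat_lit 101)) (.br (Nat.shiftLeft (nat_lit 0x1) (nat_lit 112)) (.one (nat_lit 0x400500a015000800a01402b500)) (.one (nat_lit 0x100000500a015200000a01402a411))) (.br (Nat.shiftLeft (nat_lit 0x1003) (nat_lit 100)) (.one (nat_lit 0x100200500a015200400a01402b600)) (.one (nat_lit 0x100300500a015200600a01402b600))))) (.br (Nat.shiftLeft (nat_lit 0x3) (nat_lit 112)) (.br (Nat.shiftLeft (nat_lit 0x1001) (nat_lit 101)) (.br (Nat.shiftLeft (nat_lit 0x1) (nat_lit 113)) (.one (nat_lit 0x100400500a015200800a01402b600)) (.one (nat_lit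 0x200000500a015400000a01402a411))) (.br (Nat.shiftLeft (nat_lit 0x801) (nat_lit 102)) (.one (nat_lit 0x200300500a015400600a01402b600)) (.one (nat_lit 0x200400500a015400800a01402b600)))) (.br (Nat.shiftLeft (nat_lit 0x1) (nat_lit 114)) (.br (Nat.shiftLeft (nat_lit 0xc01) (nat_lit 102)) (.one (nat_lit 0x300000500a015600000a01402a411)) (.one (nat_lit 0x300400500a015600800a01402b600))) (.br (Nat.shiftLeft (nat_lit 0x5) (nat_lit 112)) (.one (nat_lit 0x400000500a015800000a01402a411)) (.one (nat_lit 0x500000500a015a00000a01402a411))))))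
noncomputable def b38 : BT := .node (nat_lit 0x11) (nat_lit 0x4b193a49d000196d000653a0ed9a590a269636d993a40042590008d60003a98000ab782db249c2590003a98000cb641002e3002e3002e3002e3002e3002e3002e3002e3002e3002e3002e3002e3002e300283001c8001680016800168) .leaf .leaf
def t37 : k37.all (jb2 57 fl b38) = true := by decide +kernel
noncomputable def k38 : KT := (.br (Nat.shiftLeft (nat_lit 0x5) (nat_lit 113)) (.br (Nat.shiftLeft (nat_lit 0x1) (nat_lit 115)) (.br (Nat.shiftLeft (nat_lit 0x7) (nat_lit 112)) (.one (nat_lit 0x600000500a015c00000a01402a411)) (.one (nat_lit 0x700000500a015e00000a01402a411))) (.br (Nat.shiftLeft (nat_lit 0x9) (nat_lit 112)) (.one (nat_lit 0x800000500a015000000a01412c411)) (.one (nat_lit 0x900000500a015200000a01412c411)))) (.br (Nat.shiftLeft (nat_lit 0x1000003) (nat_lit 100)) (.br (Nat.shiftLeft (nat_lit 0x1) (nat_lit 124)) (.one (nat_lit 0xa00000500a015400000a01412c411)) (.one (nat_lit 0x100000200500a015000400a03442a511))) (.br (Nat.shiftLeft (nat_lit 0x400001) (nat_lit 102)) (.one (nat_lit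 0x100000300500a015000600a03442a511)) (.one (nat_lit 0x100000400500a015000800a03442a511)))))
noncomputable def b39 : BT := .node (nat_lit 0xb) (nat_lit 0x258c9864e9000ca8800329f0689a4e09d251349c1310003a98000e97c00421d000ab9029644b1930c003a98000aaa010026a0026a0026a0026a0020a0020a001500015000150000f0000f0000f0) .leaf .leaf
def t38 : k38.all (jb2 57 fl b39) = true := by decide +kernel
noncomputable def k39 : KT := (.one (nat_lit 0x100200300500a015400600a03442a760))
def t39 : k39.all (jb2 57 fl b0) = true := by decide +kernel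
noncomputable def k40 : KT := (.one (nat_lit 0x100200400500a015400800a03442a760))
def t40 : k40.all (jb2 57 fl b0) = true := by decide +kernel
noncomputable def k41 : KT := (.br (Nat.shiftLeft (nat_lit 0x800001) (nat_lit 102)) (.br (Nat.shiftLeft (nat_lit 0x1) (nat_lit 125)) (.one (nat_lit 0x100300400500a015600800a03442a760)) (.br (Nat.shiftLeft (nat_lit 0x2000003) (nat_lit 100)) (.one (nat_lit 0x200000200500a015000400a05482a511)) (.one (nat_lit 0x200000300500a015000600a05482a511)))) (.br (Nat.shiftLeft (nat_lit 0x1001) (nat_lit 113)) (.one (nat_lit 0x200000400500a015000800a05482a511)) (.br (Nat.shiftLeft (nat_lit 0x3) (nat_lit 124)) (.one (nat_lit 0x200300400500a015600800a05482a760)) (.one (nat_lit 0x300000200500a015000400a074c2a511)))))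
def t41 : k41.all (jb2 57 fl b0) = true := by decide +kernel
noncomputable def k42 : KT := (.br (Nat.shiftLeft (nat_lit 0x1000001) (nat_lit 102)) (.br (Nat.shiftLeft (nat_lit 0x1) (nat_lit 126)) (.br (Nat.shiftLeft (nat_lit 0xc00001) (nat_lit 102)) (.one (nat_lit 0x300000300500a015000600a074c2a511)) (.one (nat_lit 0x300000400500a015000800a074c2a511))) (.br (Nat.shiftLeft (nat_lit 0x4000003) (nat_lit 100)) (.one (nat_lit 0x400000200500a015000400a09502a511)) (.one (nat_lit 0x400000300500a015000600a09502a511)))) (.br (Nat.shiftLeft (nat_lit 0x5000003) (nat_lit 100)) (.br (Nat.shiftLeft (nat_lit 0x5) (nat_lit 124)) (.one (nat_lit 0x400000400500a015000800a09502a511)) (.one (nat_lit 0x500000200500a015000400a0b542a511))) (.br (Nat.shiftLeft (nat_lit 0x1400001) (nat_lit 102)) (.one (nat_lit 0x500000300500a015000600a0b542a511)) (.br (Nat.shiftLeft (nat_lit 0x3) (nat_lit 125)) (.one (nat_lit 0x500000400500a015000800a0b542a511)) (.one (nat_lit 0x600000200500a015000400a0d582a511))))))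
def t42 : k42.all (jb2 57 fl b0) = true := by decide +kernel
noncomputable def k43 : KT := (.br (Nat.shiftLeft (nat_lit 0x7) (nat_lit 124)) (.br (Nat.shiftLeft (nat_lit 0x1800001) (nat_lit 102)) (.one (nat_lit 0x600000300500a015000600a0d582a511)) (.one (nat_lit 0x600000400500a015000800a0d582a511))) (.br (Nat.shiftLeft (nat_lit 0x7000003) (nat_lit 100)) (.one (nat_lit 0x700000200500a015000400a0f5c2a511)) (.one (nat_lit 0x700000300500a015000600a0f5c2a511))))
def t43 : k43.all (jb2 57 fl b0) = true := by decide +kernel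
noncomputable def k44 : KT := (.br (Nat.shiftLeft (nat_lit 0x8000003) (nat_lit 100)) (.br (Nat.shiftLeft (nat_lit 0x1) (nat_lit 127)) (.one (nat_lit 0x700000400500a015000800a0f5c2a511)) (.one (nat_lit 0x800000200500a015000400a11602a511))) (.br (Nat.shiftLeft (nat_lit 0x2000001) (nat_lit 102)) (.one (nat_lit 0x800000300500a015000600a11602a511)) (.one (nat_lit 0x800000400500a015000800a11602a511))))
def t44 : k44.all (jb2 57 fl b0) = true := by decide +kernel
noncomputable def k45 : KT := (.br (Nat.shiftLeft (nat_lit 0x5) (nat_lit 125)) (.br (Nat.shiftLeft (nat_lit 0x9000003) (nat_lit 100)) (.one (nat_lit 0x900000200500a015000400a13642a511)) (.br (Nat.shiftLeft (nat_lit 0x2400001) (nat_lit 102)) (.one (nat_lit 0x900000300500a015000600a13642a511)) (.one (nat_lit 0x900000400500a015000800a13642a511)))) (.br (Nat.shiftLeft (nat_lit 0x2800001) (nat_lit 102)) (.br (Nat.shiftLeft (nat_lit 0xa000003) (nat_lit 100)) (.one (nat_lit 0xa00000200500a015000400a15682a511)) (.one (nat_lit 0xa00000300500a015000600a15682a511)))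 (.br (Nat.shiftLeft (nat_lit 0x1) (nat_lit 136)) (.one (nat_lit 0xa00000400500a015000800a15682a511)) (.one (nat_lit 0x100000100200500a015200402a41402a611)))))
noncomputable def b46 : BT := .node (nat_lit 0x3) (nat_lit 0xdb426193a00032a2000ab74196349c2590003a98000cb64100110000b00005000050) .leaf .leaf
def t45 : k45.all (jb2 57 fl b46) = true := by decide +kernel
noncomputable def k46 : KT := (.br (Nat.shiftLeft (nat_lit 0x3000001003) (nat_lit 100)) (.br (Nat.shiftLeft (nat_lit 0x2000001003) (nat_lit 100)) (.br (Nat.shiftLeft (nat_lit 0x400000801) (nat_lit 102)) (.br (Nat.shiftLeft (nat_lit 0x400000401) (nat_lit 102)) (.one (nat_lit 0x100000100300500a015200602a41402a611)) (.br (Nat.shiftLeft (nat_lit 0x800001) (nat_lit 113)) (.one (nat_lit 0x100000100400500a015200802a41402a611)) (.one (nat_lit 0x100000200300500a015400602a41402a611)))) (.br (Nat.shiftLeft (nat_lit 0x1000003) (nat_lit 112)) (.one (nat_lit 0x100000200400500a015400802a41402a611)) (.br (Nat.shiftLeft (nat_lit 0x1) (nat_lit 137)) (.one (nat_lit 0x100000300400500a015600802a41402a611))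 (.one (nat_lit 0x200000100200500a015200404a81402a611))))) (.br (Nat.shiftLeft (nat_lit 0x800000801) (nat_lit 102)) (.br (Nat.shiftLeft (nat_lit 0x800000401) (nat_lit 102)) (.one (nat_lit 0x200000100300500a015200604a81402a611)) (.br (Nat.shiftLeft (nat_lit 0x1000001) (nat_lit 113)) (.one (nat_lit 0x200000100400500a015200804a81402a611)) (.one (nat_lit 0x200000200300500a015400604a81402a611)))) (.br (Nat.shiftLeft (nat_lit 0x2000003) (nat_lit 112)) (.one (nat_lit 0x200000200400500a015400804a81402a611)) (.br (Nat.shiftLeft (nat_lit 0x3) (nat_lit 136)) (.one (nat_lit 0x200000300400500a015600804a81402a611)) (.one (nat_lit 0x300000100200500a015200406ac1402a611)))))) (.br (Nat.shiftLeft (nat_lit 0x4000001003) (nat_lit 100)) (.br (Nat.shiftLeft (nat_lit 0xc00000801) (nat_lit 102)) (.br (Nat.shiftLeft (nat_lit 0xc00000401) (nat_lit 102)) (.one (nat_lit 0x300000100300500a015200606ac1402a611)) (.br (Nat.shiftLeft (nat_lit 0x1800001) (nat_lit 113)) (.one (nat_lit 0x300000100400500a015200806ac1402a611)) (.one (nat_lit 0x300000200300500a015400606ac1402a611))))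 (.br (Nat.shiftLeft (nat_lit 0x3000003) (nat_lit 112)) (.one (nat_lit 0x300000200400500a015400806ac1402a611)) (.br (Nat.shiftLeft (nat_lit 0x1) (nat_lit 138)) (.one (nat_lit 0x300000300400500a015600806ac1402a611)) (.one (nat_lit 0x400000100200500a015200408b01402a611))))) (.br (Nat.shiftLeft (nat_lit 0x1000000801) (nat_lit 102)) (.br (Nat.shiftLeft (nat_lit 0x1000000401) (nat_lit 102)) (.one (nat_lit 0x400000100300500a015200608b01402a611)) (.br (Nat.shiftLeft (nat_lit 0x2000001) (nat_lit 113)) (.one (nat_lit 0x400000100400500a015200808b01402a611)) (.one (nat_lit 0x400000200300500a015400608b01402a611)))) (.br (Nat.shiftLeft (nat_lit 0x4000003) (nat_lit 112)) (.one (nat_lit 0x400000200400500a015400808b01402a611)) (.br (Nat.shiftLeft (nat_lit 0x5) (nat_lit 136)) (.one (nat_lit 0x400000300400500a015600808b01402a611)) (.one (nat_lit 0x500000100200500a01520040ab41402a611)))))))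
def t46 : k46.all (jb2 57 fl b0) = true := by decide +kernel
noncomputable def k47 : KT := (.br (Nat.shiftLeft (nat_lit 0x2800001) (nat_lit 113)) (.br (Nat.shiftLeft (nat_lit 0x1400000401) (nat_lit 102)) (.one (nat_lit 0x500000100300500a01520060ab41402a611)) (.one (nat_lit 0x500000100400500a01520080ab41402a611))) (.br (Nat.shiftLeft (nat_lit 0x1400000801) (nat_lit 102)) (.one (nat_lit 0x500000200300500a01540060ab41402a611)) (.br (Nat.shiftLeft (nat_lit 0x5000003) (nat_lit 112)) (.one (nat_lit 0x500000200400500a01540080ab41402a611)) (.one (nat_lit 0x500000300400500a01560080ab41402a611)))))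
def t47 : k47.all (jb2 57 fl b0) = true := by decide +kernel
noncomputable def k48 : KT := (.br (Nat.shiftLeft (nat_lit 0x6000001003) (nat_lit 100)) (.one (nat_lit 0x600000100200500a01520040cb81402a611)) (.br (Nat.shiftLeft (nat_lit 0x1800000401) (nat_lit 102)) (.one (nat_lit 0x600000100300500a01520060cb81402a611)) (.one (nat_lit 0x600000100400500a01520080cb81402a611))))
def t48 : k48.all (jb2 57 fl b0) = true := by decide +kernel
noncomputable def k49 : KT := (.br (Nat.shiftLeft (nat_lit 0x6000003) (nat_lit 112)) (.br (Nat.shiftLeft (nat_lit 0x1800000801) (nat_lit 102)) (.one (nat_lit 0x600000200300500a01540060cb81402a611)) (.one (nat_lit 0x600000200400500a01540080cb81402a611))) (.br (Nat.shiftLeft (nat_lit 0x7) (nat_lit 136)) (.one (nat_lit 0x600000300400500a01560080cb81402a611)) (.one (nat_lit 0x700000100200500a01520040ebc1402a611))))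
def t49 : k49.all (jb2 57 fl b0) = true := by decide +kernel
noncomputable def k50 : KT := (.br (Nat.shiftLeft (nat_lit 0x3800001) (nat_lit 113)) (.br (Nat.shiftLeft (nat_lit 0x1c00000401) (nat_lit 102)) (.one (nat_lit 0x700000100300500a01520060ebc1402a611)) (.one (nat_lit 0x700000100400500a01520080ebc1402a611))) (.br (Nat.shiftLeft (nat_lit 0x1c00000801) (nat_lit 102)) (.one (nat_lit 0x700000200300500a01540060ebc1402a611)) (.br (Nat.shiftLeft (nat_lit 0x7000003) (nat_lit 112)) (.one (nat_lit 0x700000200400500a01540080ebc1402a611)) (.one (nat_lit 0x700000300400500a01560080ebc1402a611)))))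
def t50 : k50.all (jb2 57 fl b0) = true := by decide +kernel
noncomputable def k51 : KT := (.br (Nat.shiftLeft (nat_lit 0x2000000401) (nat_lit 102)) (.br (Nat.shiftLeft (nat_lit 0x8000001003) (nat_lit 100)) (.one (nat_lit 0x800000100200500a015200410c01402a611)) (.one (nat_lit 0x800000100300500a015200610c01402a611))) (.br (Nat.shiftLeft (nat_lit 0x4000001) (nat_lit 113)) (.one (nat_lit 0x800000100400500a015200810c01402a611)) (.br (Nat.shiftLeft (nat_lit 0x2000000801) (nat_lit 102)) (.one (nat_lit 0x800000200300500a015400610c01402a611)) (.one (nat_lit 0x800000200400500a015400810c01402a611)))))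
def t51 : k51.all (jb2 57 fl b0) = true := by decide +kernel
noncomputable def k52 : KT := (.br (Nat.shiftLeft (nat_lit 0x4800001) (nat_lit 113)) (.br (Nat.shiftLeft (nat_lit 0x9000001003) (nat_lit 100)) (.br (Nat.shiftLeft (nat_lit 0x9) (nat_lit 136)) (.one (nat_lit 0x800000300400500a015600810c01402a611)) (.one (nat_lit 0x900000100200500a015200412c41402a611))) (.br (Nat.shiftLeft (nat_lit 0x2400000401) (nat_lit 102)) (.one (nat_lit 0x900000100300500a015200612c41402a611)) (.one (nat_lit 0x900000100400500a015200812c41402a611)))) (.br (Nat.shiftLeft (nat_lit 0x9000003) (nat_lit 112)) (.br (Nat.shiftLeft (nat_lit 0x2400000801) (nat_lit 102)) (.one (nat_lit 0x900000200300500a015400612c41402a611)) (.one (nat_lit 0x900000200400500a015400812c41402a611))) (.br (Nat.shiftLeft (nat_lit 0x5) (nat_lit 137)) (.one (nat_lit 0x900000300400500a015600812c41402a611)) (.one (nat_lit 0xa00000100200500a015200414c81402a611)))))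
def t52 : k52.all (jb2 57 fl b0) = true := by decide +kernel
noncomputable def k53 : KT := (.br (Nat.shiftLeft (nat_lit 0x5000001) (nat_lit 113)) (.br (Nat.shiftLeft (nat_lit 0x2800000401) (nat_lit 102)) (.one (nat_lit 0xa00000100300500a015200614c81402a611)) (.one (nat_lit 0xa00000100400500a015200814c81402a611))) (.br (Nat.shiftLeft (nat_lit 0x2800000801) (nat_lit 102)) (.one (nat_lit 0xa00000200300500a015400614c81402a611)) (.br (Nat.shiftLeft (nat_lit 0xa000003) (nat_lit 112)) (.one (nat_lit 0xa00000200400500a015400814c81402a611)) (.one (nat_lit 0xa00000300400500a015600814c81402a611)))))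
def t53 : k53.all (jb2 57 fl b0) = true := by decide +kernel
noncomputable def s2 : KT := (.br (nat_lit 0x800000400500a015000800a11602a511) (.br (nat_lit 0x100200400500a015400800a03442a760) (.br (nat_lit 0x100000400500a015000800a03442a511) (.br (nat_lit 0x500000500a015a00000a01402a411) k37 k38) (.br (nat_lit 0x100200300500a015400600a03442a760) k39 k40)) (.br (nat_lit 0x600000200500a015000400a0d582a511) (.br (nat_lit 0x300000200500a015000400a074c2a511) k41 k42) (.br (nat_lit 0x700000300500a015000600a0f5c2a511) k43 k44))) (.br (nat_lit 0x600000100400500a01520080cb81402a611) (.br (nat_lit 0x500000100200500a01520040ab41402a611) (.br (nat_lit 0x100000100200500a015200402a41402a611) k45 k46) (.br (nat_lit 0x500000300400500a01560080ab41402a611) k47 k48)) (.br (nat_lit 0x700000300400500a01560080ebc1402a611) (.br (nat_lit 0x700000100200500a01520040ebc1402a611) k49 k50) (.br (nat_lit 0x800000200400500a015400810c01402a611) k51 (.br (nat_lit 0xa00000100200500a015200414c81402a611) k52 k53)))))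
noncomputable def u2 : KT := (.one (nat_lit 0x500a015000000a01402a430))
def w2 : u2.all (wj 57 s2) = true := by decide +kernel
def o2 : OkW 57 (jb2 57 fl) u2 := .lift s2 _ (.br _ _ _ (.br _ _ _ (.br _ _ _ (.br _ _ _ (.leaf b38 k37 t37) (.leaf b39 k38 t38)) (.br _ _ _ (.leaf b0 k39 t39) (.leaf b0 k40 t40))) (.br _ _ _ (.br _ _ _ (.leaf b0 k41 t41) (.leaf b0 k42 t42)) (.br _ _ _ (.leaf b0 k43 t43) (.leaf b0 k44 t44)))) (.br _ _ _ (.br _ _ _ (.br _ _ _ (.leaf b46 k45 t45) (.leaf b0 k46 t46)) (.br _ _ _ (.leaf b0 k47 t47) (.leaf b0 k48 t48))) (.br _ _ _ (.br _ _ _ (.leaf b0 k49 t49) (.leaf b0 k50 t50)) (.br _ _ _ (.leaf b0 k51 t51) (.br _ _ _ (.leaf b0 k52 t52) (.leaf b0 k53 t53)))))) w2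
noncomputable def k54 : KT := (.br (Nat.shiftLeft (nat_lit 0x500a017) (nat_lit 64)) (.one (nat_lit 0x500a016000000a01402d400)) (.br (Nat.shiftLeft (nat_lit 0x1) (nat_lit 100)) (.one (nat_lit 0x500a017000000a01402f400)) (.one (nat_lit 0x100500a016000200a01402c540))))
def t54 : k54.all (jb2 57 fl b0) = true := by decide +kernel
noncomputable def k55 : KT := (.br (Nat.shiftLeft (nat_lit 0x1) (nat_lit 102)) (.br (Nat.shiftLeft (nat_lit 0x200500a017) (nat_lit 64)) (.br (Nat.shiftLeft (nat_lit 0x1) (nat_lit 101)) (.one (nat_lit 0x100500a017000200a01402e540)) (.one (nat_lit 0x200500a016000400a01402d500))) (.br (Nat.shiftLeft (nat_lit 0x3) (nat_lit 100)) (.one (nat_lit 0x200500a017000400a01402f500)) (.br (Nat.shiftLeft (nat_lit 0x300500a017) (nat_lit 64)) (.one (nat_lit 0x300500a016000600a01402d500)) (.one (nat_lit 0x300500a017000600a01402f500))))) (.br (Nat.shiftLeft (nat_lit 0x1) (nat_lit 112)) (.br (Nat.shiftLeft (nat_lit 0x400500a017) (nat_lit 64)) (.one (nat_lit 0x400500a016000800a01402d500)) (.one (nat_lit 0x400500a017000800a01402f500)))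 (.br (Nat.shiftLeft (nat_lit 0x100000500a017) (nat_lit 64)) (.one (nat_lit 0x100000500a016200000a01402c411)) (.br (Nat.shiftLeft (nat_lit 0x801) (nat_lit 101)) (.one (nat_lit 0x100000500a017200000a01402e411)) (.one (nat_lit 0x100200500a016200400a01402d600))))))
def t55 : k55.all (jb2 57 fl b0) = true := by decide +kernel
noncomputable def k56 : KT := (.br (Nat.shiftLeft (nat_lit 0x1003) (nat_lit 100)) (.one (nat_lit 0x100200500a017200400a01402e650)) (.one (nat_lit 0x100300500a016200600a01402d600)))
def t56 : k56.all (jb2 57 fl b0) = true := by decide +kernel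
noncomputable def k57 : KT := (.one (nat_lit 0x100300500a017200600a01402e650))
def t57 : k57.all (jb2 57 fl b0) = true := by decide +kernel
noncomputable def k58 : KT := (.one (nat_lit 0x100400500a016200800a01402c650))
def t58 : k58.all (jb2 57 fl b0) = true := by decide +kernel
noncomputable def k59 : KT := (.br (Nat.shiftLeft (nat_lit 0x1001) (nat_lit 101)) (.br (Nat.shiftLeft (nat_lit 0x1) (nat_lit 113)) (.one (nat_lit 0x100400500a017200800a01402e650)) (.br (Nat.shiftLeft (nat_lit 0x200000500a017) (nat_lit 64)) (.one (nat_lit 0x200000500a016400000a01402c411)) (.one (nat_lit 0x200000500a017400000a01402e411)))) (.br (Nat.shiftLeft (nat_lit 0x200300500a017) (nat_lit 64)) (.one (nat_lit 0x200300500a016400600a01402d600)) (.br (Nat.shiftLeft (nat_lit 0x801) (nat_lit 102)) (.one (nat_lit 0x200300500a017400600a01402f600)) (.one (nat_lit 0x200400500a016400800a01402d600)))))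
def t59 : k59.all (jb2 57 fl b0) = true := by decide +kernel
noncomputable def k60 : KT := (.br (Nat.shiftLeft (nat_lit 0x300000500a017) (nat_lit 64)) (.br (Nat.shiftLeft (nat_lit 0x3) (nat_lit 112)) (.one (nat_lit 0x200400500a017400800a01402e650)) (.one (nat_lit 0x300000500a016600000a01402c411))) (.br (Nat.shiftLeft (nat_lit 0xc01) (nat_lit 102)) (.one (nat_lit 0x300000500a017600000a01402e411)) (.one (nat_lit 0x300400500a016600800a01402d600))))
def t60 : k60.all (jb2 57 fl b0) = true := by decide +kernel
noncomputable def k61 : KT := (.br (Nat.shiftLeft (nat_lit 0x5) (nat_lit 112)) (.br (Nat.shiftLeft (nat_lit 0x1) (nat_lit 114)) (.one (nat_lit 0x300400500a017600800a01402e650)) (.br (Nat.shiftLeft (nat_lit 0x400000500a017) (nat_lit 64)) (.one (nat_lit 0x400000500a016800000a01402c411)) (.one (nat_lit 0x400000500a017800000a01402e411)))) (.br (Nat.shiftLeft (nat_lit 0x3) (nat_lit 113)) (.br (Nat.shiftLeft (nat_lit 0x500000500a017) (nat_lit 64)) (.one (nat_lit 0x500000500a016a00000a01402c411)) (.one (nat_lit 0x500000500a017a00000a01402e411)))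 (.br (Nat.shiftLeft (nat_lit 0x600000500a017) (nat_lit 64)) (.one (nat_lit 0x600000500a016c00000a01402c411)) (.one (nat_lit 0x600000500a017c00000a01402e411)))))
def t61 : k61.all (jb2 57 fl b0) = true := by decide +kernel
noncomputable def k62 : KT := (.br (Nat.shiftLeft (nat_lit 0xa00000500a017) (nat_lit 64)) (.br (Nat.shiftLeft (nat_lit 0x800000500a017) (nat_lit 64)) (.br (Nat.shiftLeft (nat_lit 0x700000500a017) (nat_lit 64)) (.one (nat_lit 0x700000500a016e00000a01402c411)) (.br (Nat.shiftLeft (nat_lit 0x1) (nat_lit 115)) (.one (nat_lit 0x700000500a017e00000a01402e411)) (.one (nat_lit 0x800000500a016000000a01412e411)))) (.br (Nat.shiftLeft (nat_lit 0x900000500a017) (nat_lit 64)) (.br (Nat.shiftLeft (nat_lit 0x9) (nat_lit 112)) (.one (nat_lit 0x800000500a017000000a014130411)) (.one (nat_lit 0x900000500a016200000a01412e411))) (.br (Nat.shiftLeft (nat_lit 0x5) (nat_lit 113)) (.one (nat_lit 0x900000500a017200000a014130411)) (.one (nat_lit 0xa00000500a016400000a01412e411))))) (.br (Nat.shiftLeft (nat_lit 0x1000003)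 (nat_lit 100)) (.br (Nat.shiftLeft (nat_lit 0x1) (nat_lit 124)) (.one (nat_lit 0xa00000500a017400000a014130411)) (.br (Nat.shiftLeft (nat_lit 0x100000200500a017) (nat_lit 64)) (.one (nat_lit 0x100000200500a016000400a03442c511)) (.one (nat_lit 0x100000200500a017000400a03442e511)))) (.br (Nat.shiftLeft (nat_lit 0x400001) (nat_lit 102)) (.br (Nat.shiftLeft (nat_lit 0x100000300500a017) (nat_lit 64)) (.one (nat_lit 0x100000300500a016000600a03442c511)) (.one (nat_lit 0x100000300500a017000600a03442e511))) (.br (Nat.shiftLeft (nat_lit 0x100000400500a017) (nat_lit 64)) (.one (nat_lit 0x100000400500a016000800a03442c511)) (.one (nat_lit 0x100000400500a017000800a03442e511))))))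
noncomputable def b63 : BT := .node (nat_lit 0x1) (nat_lit 0xdb36d993a4003a98000ac6810008800028) .leaf .leaf
def t62 : k62.all (jb2 57 fl b63) = true := by decide +kernel
noncomputable def k63 : KT := (.one (nat_lit 0x100200300500a016400600a03442c760))
def t63 : k63.all (jb2 57 fl b0) = true := by decide +kernel
noncomputable def k64 : KT := (.br (Nat.shiftLeft (nat_lit 0x400801) (nat_lit 102)) (.one (nat_lit 0x100200300500a017400600a03442e760)) (.one (nat_lit 0x100200400500a016400800a03442c760)))
def t64 : k64.all (jb2 57 fl b0) = true := by decide +kernel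
noncomputable def k65 : KT := (.br (Nat.shiftLeft (nat_lit 0x3) (nat_lit 124)) (.br (Nat.shiftLeft (nat_lit 0x200000300500a017) (nat_lit 64)) (.br (Nat.shiftLeft (nat_lit 0x200000200500a017) (nat_lit 64)) (.br (Nat.shiftLeft (nat_lit 0x1) (nat_lit 125)) (.one (nat_lit 0x100300400500a016600800a03442c760)) (.one (nat_lit 0x200000200500a016000400a05482c511))) (.br (Nat.shiftLeft (nat_lit 0x2000003) (nat_lit 100)) (.one (nat_lit 0x200000200500a017000400a05482e511)) (.one (nat_lit 0x200000300500a016000600a05482c511)))) (.br (Nat.shiftLeft (nat_lit 0x200000400500a017) (nat_lit 64)) (.br (Nat.shiftLeft (nat_lit 0x800001) (nat_lit 102)) (.one (nat_lit 0x200000300500a017000600a05482e511)) (.one (nat_lit 0x200000400500a016000800a05482c511))) (.br (Nat.shiftLeft (nat_lit 0x1001) (nat_lit 113)) (.one (nat_lit 0x200000400500a017000800a05482e511)) (.one (nat_lit 0x200300400500a016600800a05482c760))))) (.br (Nat.shiftLeft (nat_lit 0xc00001) (nat_lit 102)) (.br (Nat.shiftLeft (nat_lit 0x3000003) (nat_lit 100)) (.br (Nat.shiftLeft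 (nat_lit 0x300000200500a017) (nat_lit 64)) (.one (nat_lit 0x300000200500a016000400a074c2c511)) (.one (nat_lit 0x300000200500a017000400a074c2e511))) (.br (Nat.shiftLeft (nat_lit 0x300000300500a017) (nat_lit 64)) (.one (nat_lit 0x300000300500a016000600a074c2c511)) (.one (nat_lit 0x300000300500a017000600a074c2e511)))) (.br (Nat.shiftLeft (nat_lit 0x1) (nat_lit 126)) (.br (Nat.shiftLeft (nat_lit 0x300000400500a017) (nat_lit 64)) (.one (nat_lit 0x300000400500a016000800a074c2c511)) (.one (nat_lit 0x300000400500a017000800a074c2e511))) (.br (Nat.shiftLeft (nat_lit 0x400000200500a017) (nat_lit 64)) (.one (nat_lit 0x400000200500a016000400a09502c511)) (.one (nat_lit 0x400000200500a017000400a09502e511))))))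
def t65 : k65.all (jb2 57 fl b0) = true := by decide +kernel
noncomputable def k66 : KT := (.br (Nat.shiftLeft (nat_lit 0x5) (nat_lit 124)) (.br (Nat.shiftLeft (nat_lit 0x1000001) (nat_lit 102)) (.br (Nat.shiftLeft (nat_lit 0x400000300500a017) (nat_lit 64)) (.one (nat_lit 0x400000300500a016000600a09502c511)) (.one (nat_lit 0x400000300500a017000600a09502e511))) (.br (Nat.shiftLeft (nat_lit 0x400000400500a017) (nat_lit 64)) (.one (nat_lit 0x400000400500a016000800a09502c511)) (.one (nat_lit 0x400000400500a017000800a09502e511)))) (.br (Nat.shiftLeft (nat_lit 0x5000003) (nat_lit 100)) (.br (Nat.shiftLeft (nat_lit 0x500000200500a017) (nat_lit 64)) (.one (nat_lit 0x500000200500a016000400a0b542c511)) (.one (nat_lit 0x500000200500a017000400a0b542e511))) (.br (Nat.shiftLeft (nat_lit 0x500000300500a017) (nat_lit 64)) (.one (nat_lit 0x500000300500a016000600a0b542c511)) (.br (Nat.shiftLeft (nat_lit 0x1400001) (nat_lit 102)) (.one (nat_lit 0x500000300500a017000600a0b542e511)) (.one (nat_lit 0x500000400500a016000800a0b542c511))))))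
def t66 : k66.all (jb2 57 fl b0) = true := by decide +kernel
noncomputable def k67 : KT := (.br (Nat.shiftLeft (nat_lit 0x600000200500a017) (nat_lit 64)) (.br (Nat.shiftLeft (nat_lit 0x3) (nat_lit 125)) (.one (nat_lit 0x500000400500a017000800a0b542e511)) (.one (nat_lit 0x600000200500a016000400a0d582c511))) (.br (Nat.shiftLeft (nat_lit 0x6000003) (nat_lit 100)) (.one (nat_lit 0x600000200500a017000400a0d582e511)) (.br (Nat.shiftLeft (nat_lit 0x600000300500a017) (nat_lit 64)) (.one (nat_lit 0x600000300500a016000600a0d582c511)) (.one (nat_lit 0x600000300500a017000600a0d582e511)))))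
def t67 : k67.all (jb2 57 fl b0) = true := by decide +kernel
noncomputable def k68 : KT := (.br (Nat.shiftLeft (nat_lit 0x7) (nat_lit 124)) (.br (Nat.shiftLeft (nat_lit 0x600000400500a017) (nat_lit 64)) (.one (nat_lit 0x600000400500a016000800a0d582c511)) (.one (nat_lit 0x600000400500a017000800a0d582e511))) (.br (Nat.shiftLeft (nat_lit 0x700000200500a017) (nat_lit 64)) (.one (nat_lit 0x700000200500a016000400a0f5c2c511)) (.br (Nat.shiftLeft (nat_lit 0x7000003) (nat_lit 100)) (.one (nat_lit 0x700000200500a017000400a0f5c2e511)) (.one (nat_lit 0x700000300500a016000600a0f5c2c511)))))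
def t68 : k68.all (jb2 57 fl b0) = true := by decide +kernel
noncomputable def k69 : KT := (.br (Nat.shiftLeft (nat_lit 0x1) (nat_lit 127)) (.br (Nat.shiftLeft (nat_lit 0x1c00001) (nat_lit 102)) (.one (nat_lit 0x700000300500a017000600a0f5c2e511)) (.br (Nat.shiftLeft (nat_lit 0x700000400500a017) (nat_lit 64)) (.one (nat_lit 0x700000400500a016000800a0f5c2c511)) (.one (nat_lit 0x700000400500a017000800a0f5c2e511)))) (.br (Nat.shiftLeft (nat_lit 0x800000200500a017) (nat_lit 64)) (.one (nat_lit 0x800000200500a016000400a11602c511)) (.br (Nat.shiftLeft (nat_lit 0x8000003) (nat_lit 100)) (.one (nat_lit 0x800000200500a017000400a11602e511)) (.one (nat_lit 0x800000300500a016000600a11602c511)))))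
def t69 : k69.all (jb2 57 fl b0) = true := by decide +kernel
noncomputable def k70 : KT := (.br (Nat.shiftLeft (nat_lit 0x900000200500a017) (nat_lit 64)) (.br (Nat.shiftLeft (nat_lit 0x800000400500a017) (nat_lit 64)) (.br (Nat.shiftLeft (nat_lit 0x2000001) (nat_lit 102)) (.one (nat_lit 0x800000300500a017000600a11602e511)) (.one (nat_lit 0x800000400500a016000800a11602c511))) (.br (Nat.shiftLeft (nat_lit 0x9) (nat_lit 124)) (.one (nat_lit 0x800000400500a017000800a11602e511)) (.one (nat_lit 0x900000200500a016000400a13642c511)))) (.br (Nat.shiftLeft (nat_lit 0x900000300500a017) (nat_lit 64)) (.br (Nat.shiftLeft (nat_lit 0x9000003) (nat_lit 100)) (.one (nat_lit 0x900000200500a017000400a13642e511)) (.one (nat_lit 0x900000300500a016000600a13642c511))) (.br (Nat.shiftLeft (nat_lit 0x2400001) (nat_lit 102)) (.one (nat_lit 0x900000300500a017000600a13642e511)) (.br (Nat.shiftLeft (nat_lit 0x900000400500a017) (nat_lit 64)) (.one (nat_lit 0x900000400500a016000800a13642c511)) (.one (nat_lit 0x900000400500a017000800a13642e511))))))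
def t70 : k70.all (jb2 57 fl b0) = true := by decide +kernel
noncomputable def k71 : KT := (.br (Nat.shiftLeft (nat_lit 0x2000001003) (nat_lit 100)) (.br (Nat.shiftLeft (nat_lit 0x1) (nat_lit 136)) (.br (Nat.shiftLeft (nat_lit 0xa00000300500a017) (nat_lit 64)) (.br (Nat.shiftLeft (nat_lit 0xa00000200500a017) (nat_lit 64)) (.one (nat_lit 0xa00000200500a016000400a15682c511)) (.br (Nat.shiftLeft (nat_lit 0xa000003) (nat_lit 100)) (.one (nat_lit 0xa00000200500a017000400a15682e511)) (.one (nat_lit 0xa00000300500a016000600a15682c511)))) (.br (Nat.shiftLeft (nat_lit 0x2800001) (nat_lit 102)) (.one (nat_lit 0xa00000300500a017000600a15682e511)) (.br (Nat.shiftLeft (nat_lit 0xa00000400500a017) (nat_lit 64)) (.one (nat_lit 0xa00000400500a016000800a15682c511)) (.one (nat_lit 0xa00000400500a017000800a15682e511))))) (.br (Nat.shiftLeft (nat_lit 0x100000200300500a017) (nat_lit 64)) (.br (Nat.shiftLeft (nat_lit 0x1000001003) (nat_lit 100)) (.one (nat_lit 0x100000100200500a016200402a41402c611)) (.br (Nat.shiftLeft (nat_lit 0x800001)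 (nat_lit 113)) (.one (nat_lit 0x100000100300500a016200602a41402c611)) (.one (nat_lit 0x100000200300500a016400602a41402c611)))) (.br (Nat.shiftLeft (nat_lit 0x1000003) (nat_lit 112)) (.br (Nat.shiftLeft (nat_lit 0x400000801) (nat_lit 102)) (.one (nat_lit 0x100000200300500a017400602a41402e611)) (.one (nat_lit 0x100000200400500a016400802a41402c611))) (.br (Nat.shiftLeft (nat_lit 0x1) (nat_lit 137)) (.one (nat_lit 0x100000300400500a016600802a41402c611)) (.one (nat_lit 0x200000100200500a016200404a81402c611)))))) (.br (Nat.shiftLeft (nat_lit 0x1800001) (nat_lit 113)) (.br (Nat.shiftLeft (nat_lit 0x800000801) (nat_lit 102)) (.br (Nat.shiftLeft (nat_lit 0x1000001) (nat_lit 113)) (.one (nat_lit 0x200000100300500a016200604a81402c611)) (.br (Nat.shiftLeft (nat_lit 0x200000200300500a017) (nat_lit 64)) (.one (nat_lit 0x200000200300500a016400604a81402c611)) (.one (nat_lit 0x200000200300500a017400604a81402e611)))) (.br (Nat.shiftLeft (nat_lit 0x3) (nat_lit 136)) (.br (Nat.shiftLeft (nat_lit 0x2000003) (nat_lit 112)) (.one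 (nat_lit 0x200000200400500a016400804a81402c611)) (.one (nat_lit 0x200000300400500a016600804a81402c611))) (.br (Nat.shiftLeft (nat_lit 0x3000001003) (nat_lit 100)) (.one (nat_lit 0x300000100200500a016200406ac1402c611)) (.one (nat_lit 0x300000100300500a016200606ac1402c611))))) (.br (Nat.shiftLeft (nat_lit 0x3000003) (nat_lit 112)) (.br (Nat.shiftLeft (nat_lit 0x300000200300500a017) (nat_lit 64)) (.one (nat_lit 0x300000200300500a016400606ac1402c611)) (.br (Nat.shiftLeft (nat_lit 0xc00000801) (nat_lit 102)) (.one (nat_lit 0x300000200300500a017400606ac1402e611)) (.one (nat_lit 0x300000200400500a016400806ac1402c611)))) (.br (Nat.shiftLeft (nat_lit 0x4000001003) (nat_lit 100)) (.br (Nat.shiftLeft (nat_lit 0x1) (nat_lit 138)) (.one (nat_lit 0x300000300400500a016600806ac1402c611)) (.one (nat_lit 0x400000100200500a016200408b01402c611))) (.br (Nat.shiftLeft (nat_lit 0x2000001) (nat_lit 113)) (.one (nat_lit 0x400000100300500a016200608b01402c611)) (.one (nat_lit 0x400000200300500a016400608b01402c611)))))))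
def t71 : k71.all (jb2 57 fl b0) = true := by decide +kernel
noncomputable def k72 : KT := (.br (Nat.shiftLeft (nat_lit 0x5) (nat_lit 136)) (.br (Nat.shiftLeft (nat_lit 0x1000000801) (nat_lit 102)) (.one (nat_lit 0x400000200300500a017400608b01402e611)) (.br (Nat.shiftLeft (nat_lit 0x4000003) (nat_lit 112)) (.one (nat_lit 0x400000200400500a016400808b01402c611)) (.one (nat_lit 0x400000300400500a016600808b01402c611)))) (.br (Nat.shiftLeft (nat_lit 0x2800001) (nat_lit 113)) (.br (Nat.shiftLeft (nat_lit 0x5000001003) (nat_lit 100)) (.one (nat_lit 0x500000100200500a01620040ab41402c611)) (.one (nat_lit 0x500000100300500a01620060ab41402c611))) (.br (Nat.shiftLeft (nat_lit 0x500000200300500a017) (nat_lit 64)) (.one (nat_lit 0x500000200300500a01640060ab41402c611)) (.one (nat_lit 0x500000200300500a01740060ab41402e611)))))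
def t72 : k72.all (jb2 57 fl b0) = true := by decide +kernel
noncomputable def k73 : KT := (.br (Nat.shiftLeft (nat_lit 0x6000001003) (nat_lit 100)) (.br (Nat.shiftLeft (nat_lit 0x5000003) (nat_lit 112)) (.one (nat_lit 0x500000200400500a01640080ab41402c611)) (.br (Nat.shiftLeft (nat_lit 0x3) (nat_lit 137)) (.one (nat_lit 0x500000300400500a01660080ab41402c611)) (.one (nat_lit 0x600000100200500a01620040cb81402c611)))) (.br (Nat.shiftLeft (nat_lit 0x3000001) (nat_lit 113)) (.one (nat_lit 0x600000100300500a01620060cb81402c611)) (.br (Nat.shiftLeft (nat_lit 0x600000200300500a017) (nat_lit 64)) (.one (nat_lit 0x600000200300500a01640060cb81402c611)) (.one (nat_lit 0x600000200300500a01740060cb81402e611)))))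
def t73 : k73.all (jb2 57 fl b0) = true := by decide +kernel
noncomputable def k74 : KT := (.br (Nat.shiftLeft (nat_lit 0x3800001) (nat_lit 113)) (.br (Nat.shiftLeft (nat_lit 0x7) (nat_lit 136)) (.br (Nat.shiftLeft (nat_lit 0x6000003) (nat_lit 112)) (.one (nat_lit 0x600000200400500a01640080cb81402c611)) (.one (nat_lit 0x600000300400500a01660080cb81402c611))) (.br (Nat.shiftLeft (nat_lit 0x7000001003) (nat_lit 100)) (.one (nat_lit 0x700000100200500a01620040ebc1402c611)) (.one (nat_lit 0x700000100300500a01620060ebc1402c611)))) (.br (Nat.shiftLeft (nat_lit 0x1c00000801) (nat_lit 102)) (.br (Nat.shiftLeft (nat_lit 0x700000200300500a017) (nat_lit 64)) (.one (nat_lit 0x700000200300500a01640060ebc1402c611)) (.one (nat_lit 0x700000200300500a01740060ebc1402e611))) (.br (Nat.shiftLeft (nat_lit 0x7000003) (nat_lit 112)) (.one (nat_lit 0x700000200400500a01640080ebc1402c611)) (.one (nat_lit 0x700000300400500a01660080ebc1402c611)))))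
def t74 : k74.all (jb2 57 fl b0) = true := by decide +kernel
noncomputable def k75 : KT := (.br (Nat.shiftLeft (nat_lit 0x2000000801) (nat_lit 102)) (.br (Nat.shiftLeft (nat_lit 0x4000001) (nat_lit 113)) (.br (Nat.shiftLeft (nat_lit 0x8000001003) (nat_lit 100)) (.one (nat_lit 0x800000100200500a016200410c01402c611)) (.one (nat_lit 0x800000100300500a016200610c01402c611))) (.br (Nat.shiftLeft (nat_lit 0x800000200300500a017) (nat_lit 64)) (.one (nat_lit 0x800000200300500a016400610c01402c611)) (.one (nat_lit 0x800000200300500a017400610c01402e611)))) (.br (Nat.shiftLeft (nat_lit 0x9) (nat_lit 136)) (.br (Nat.shiftLeft (nat_lit 0x8000003) (nat_lit 112)) (.one (nat_lit 0x800000200400500a016400810c01402c611)) (.one (nat_lit 0x800000300400500a016600810c01402c611))) (.br (Nat.shiftLeft (nat_lit 0x9000001003) (nat_lit 100)) (.one (nat_lit 0x900000100200500a016200412c41402c611)) (.br (Nat.shiftLeft (nat_lit 0x4800001) (nat_lit 113)) (.one (nat_lit 0x900000100300500a016200612c41402c611)) (.one (nat_lit 0x900000200300500a016400612c41402c611))))))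
def t75 : k75.all (jb2 57 fl b0) = true := by decide +kernel
noncomputable def k76 : KT := (.br (Nat.shiftLeft (nat_lit 0xa000001003) (nat_lit 100)) (.br (Nat.shiftLeft (nat_lit 0x9000003) (nat_lit 112)) (.br (Nat.shiftLeft (nat_lit 0x2400000801) (nat_lit 102)) (.one (nat_lit 0x900000200300500a017400612c41402e611)) (.one (nat_lit 0x900000200400500a016400812c41402c611))) (.br (Nat.shiftLeft (nat_lit 0x5) (nat_lit 137)) (.one (nat_lit 0x900000300400500a016600812c41402c611)) (.one (nat_lit 0xa00000100200500a016200414c81402c611)))) (.br (Nat.shiftLeft (nat_lit 0xa00000200300500a017) (nat_lit 64)) (.br (Nat.shiftLeft (nat_lit 0x5000001) (nat_lit 113)) (.one (nat_lit 0xa00000100300500a016200614c81402c611)) (.one (nat_lit 0xa00000200300500a016400614c81402c611))) (.br (Nat.shiftLeft (nat_lit 0x2800000801) (nat_lit 102)) (.one (nat_lit 0xa00000200300500a017400614c81402e611)) (.br (Nat.shiftLeft (nat_lit 0xa000003) (nat_lit 112)) (.one (nat_lit 0xa00000200400500a016400814c81402c611)) (.one (nat_lit 0xa00000300400500a016600814c81402c611))))))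
def t76 : k76.all (jb2 57 fl b0) = true := by decide +kernel
noncomputable def s3 : KT := (.br (nat_lit 0x100200400500a016400800a03442c760) (.br (nat_lit 0x100400500a016200800a01402c650) (.br (nat_lit 0x100200500a016200400a01402d600) (.br (nat_lit 0x100500a016000200a01402c540) k54 k55) (.br (nat_lit 0x100300500a016200600a01402d600) k56 (.br (nat_lit 0x100300500a017200600a01402e650) k57 k58))) (.br (nat_lit 0x600000500a017c00000a01402e411) (.br (nat_lit 0x200400500a016400800a01402d600) k59 (.br (nat_lit 0x300400500a016600800a01402d600) k60 k61)) (.br (nat_lit 0x100000400500a017000800a03442e511) k62 (.br (nat_lit 0x100200300500a016400600a03442c760) k63 k64)))) (.br (nat_lit 0x900000400500a017000800a13642e511) (.br (nat_lit 0x600000300500a017000600a0d582e511) (.br (nat_lit 0x400000200500a017000400a09502e511) k65 (.br (nat_lit 0x500000400500a016000800a0b542c511) k66 k67)) (.br (nat_lit 0x700000300500a016000600a0f5c2c511) k68 (.br (nat_lit 0x800000300500a016000600a11602c511) k69 k70))) (.br (nat_lit 0x600000200300500a01740060cb81402e611)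 (.br (nat_lit 0x400000200300500a016400608b01402c611) k71 (.br (nat_lit 0x500000200300500a01740060ab41402e611) k72 k73)) (.br (nat_lit 0x700000300400500a01660080ebc1402c611) k74 (.br (nat_lit 0x900000200300500a016400612c41402c611) k75 k76)))))
noncomputable def u3 : KT := (.br (Nat.shiftLeft (nat_lit 0x500a017) (nat_lit 64)) (.one (nat_lit 0x500a016000000a01402c430)) (.one (nat_lit 0x500a017000000a01402e430)))
def w3 : u3.all (wj 57 s3) = true := by decide +kernel
def o3 : OkW 57 (jb2 57 fl) u3 := .lift s3 _ (.br _ _ _ (.br _ _ _ (.br _ _ _ (.br _ _ _ (.leaf b0 k54 t54) (.leaf b0 k55 t55)) (.br _ _ _ (.leaf b0 k56 t56) (.br _ _ _ (.leaf b0 k57 t57) (.leaf b0 k58 t58)))) (.br _ _ _ (.br _ _ _ (.leaf b0 k59 t59) (.br _ _ _ (.leaf b0 k60 t60) (.leaf b0 k61 t61))) (.br _ _ _ (.leaf b63 k62 t62) (.br _ _ _ (.leaf b0 k63 t63) (.leaf b0 k64 t64))))) (.br _ _ _ (.br _ _ _ (.br _ _ _ (.leaf b0 k65 t65) (.br _ _ _ (.leaf b0 k66 t66) (.leaf b0 k67 t67))) (.br _ _ _ (.leaf b0 k68 t68) (.br _ _ _ (.leaf b0 k69 t69) (.leaf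 b0 k70 t70)))) (.br _ _ _ (.br _ _ _ (.leaf b0 k71 t71) (.br _ _ _ (.leaf b0 k72 t72) (.leaf b0 k73 t73))) (.br _ _ _ (.leaf b0 k74 t74) (.br _ _ _ (.leaf b0 k75 t75) (.leaf b0 k76 t76)))))) w3
noncomputable def k77 : KT := (.br (Nat.shiftLeft (nat_lit 0x500b011) (nat_lit 64)) (.br (Nat.shiftLeft (nat_lit 0x500a019) (nat_lit 64)) (.one (nat_lit 0x500a018000000a014031400)) (.br (Nat.shiftLeft (nat_lit 0x500b) (nat_lit 76)) (.one (nat_lit 0x500a019000000a014033400)) (.one (nat_lit 0x500b010000000a016021400)))) (.br (Nat.shiftLeft (nat_lit 0x500b013) (nat_lit 64)) (.br (Nat.shiftLeft (nat_lit 0x2805809) (nat_lit 65)) (.one (nat_lit 0x500b011000000a016023400)) (.one (nat_lit 0x500b012000000a016025400))) (.br (Nat.shiftLeft (nat_lit 0x1) (nat_lit 100)) (.one (nat_lit 0x500b013000000a016027400)) (.one (nat_lit 0x100500a018000200a014030540)))))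
def t77 : k77.all (jb2 57 fl b0) = true := by decide +kernel
noncomputable def k78 : KT := (.br (Nat.shiftLeft (nat_lit 0x300500a019) (nat_lit 64)) (.br (Nat.shiftLeft (nat_lit 0x200500a019) (nat_lit 64)) (.br (Nat.shiftLeft (nat_lit 0x1) (nat_lit 101)) (.one (nat_lit 0x100500a019000200a014032540)) (.one (nat_lit 0x200500a018000400a014031500))) (.br (Nat.shiftLeft (nat_lit 0x3) (nat_lit 100)) (.one (nat_lit 0x200500a019000400a014033500)) (.one (nat_lit 0x300500a018000600a014031500)))) (.br (Nat.shiftLeft (nat_lit 0x400500a019) (nat_lit 64)) (.br (Nat.shiftLeft (nat_lit 0x1) (nat_lit 102)) (.one (nat_lit 0x300500a019000600a014033500)) (.one (nat_lit 0x400500a018000800a014031500))) (.br (Nat.shiftLeft (nat_lit 0x1) (nat_lit 112)) (.one (nat_lit 0x400500a019000800a014033500)) (.br (Nat.shiftLeft (nat_lit 0x100000500a019) (nat_lit 64)) (.one (nat_lit 0x100000500a018200000a014030411)) (.one (nat_lit 0x100000500a019200000a014032411))))))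
def t78 : k78.all (jb2 57 fl b0) = true := by decide +kernel
noncomputable def k79 : KT := (.one (nat_lit 0x100200500a018200400a014030650))
def t79 : k79.all (jb2 57 fl b0) = true := by decide +kernel
noncomputable def k80 : KT := (.one (nat_lit 0x100200500a019200400a014032650))
def t80 : k80.all (jb2 57 fl b0) = true := by decide +kernel
noncomputable def k81 : KT := (.br (Nat.shiftLeft (nat_lit 0x100300500a019) (nat_lit 64)) (.one (nat_lit 0x100300500a018200600a014030650)) (.one (nat_lit 0x100300500a019200600a014032650)))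
def t81 : k81.all (jb2 57 fl b0) = true := by decide +kernel
noncomputable def k82 : KT := (.br (Nat.shiftLeft (nat_lit 0x1) (nat_lit 113)) (.br (Nat.shiftLeft (nat_lit 0x100400500a019) (nat_lit 64)) (.one (nat_lit 0x100400500a018200800a014030650)) (.one (nat_lit 0x100400500a019200800a014032650))) (.br (Nat.shiftLeft (nat_lit 0x200000500a019) (nat_lit 64)) (.one (nat_lit 0x200000500a018400000a014030411)) (.one (nat_lit 0x200000500a019400000a014032411))))
def t82 : k82.all (jb2 57 fl b0) = true := by decide +kernel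
noncomputable def k83 : KT := (.one (nat_lit 0x200300500a018400600a014030650))
def t83 : k83.all (jb2 57 fl b0) = true := by decide +kernel
noncomputable def k84 : KT := (.one (nat_lit 0x200300500a019400600a014032650))
def t84 : k84.all (jb2 57 fl b0) = true := by decide +kernel
noncomputable def k85 : KT := (.br (Nat.shiftLeft (nat_lit 0x3) (nat_lit 112)) (.br (Nat.shiftLeft (nat_lit 0x200400500a019) (nat_lit 64)) (.one (nat_lit 0x200400500a018400800a014030650)) (.one (nat_lit 0x200400500a019400800a014032650))) (.br (Nat.shiftLeft (nat_lit 0x300000500a019) (nat_lit 64)) (.one (nat_lit 0x300000500a018600000a014030411)) (.one (nat_lit 0x300000500a019600000a014032411))))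
def t85 : k85.all (jb2 57 fl b0) = true := by decide +kernel
noncomputable def k86 : KT := (.br (Nat.shiftLeft (nat_lit 0x1) (nat_lit 114)) (.br (Nat.shiftLeft (nat_lit 0x300400500a019) (nat_lit 64)) (.one (nat_lit 0x300400500a018600800a014030650)) (.one (nat_lit 0x300400500a019600800a014032650))) (.br (Nat.shiftLeft (nat_lit 0x400000500a019) (nat_lit 64)) (.one (nat_lit 0x400000500a018800000a014030411)) (.one (nat_lit 0x400000500a019800000a014032411))))
def t86 : k86.all (jb2 57 fl b0) = true := by decide +kernel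
noncomputable def k87 : KT := (.br (Nat.shiftLeft (nat_lit 0x100000400500a019) (nat_lit 64)) (.br (Nat.shiftLeft (nat_lit 0x9) (nat_lit 112)) (.br (Nat.shiftLeft (nat_lit 0x7) (nat_lit 112)) (.br (Nat.shiftLeft (nat_lit 0x3) (nat_lit 113)) (.br (Nat.shiftLeft (nat_lit 0x500000500a019) (nat_lit 64)) (.one (nat_lit 0x500000500a018a00000a014030411)) (.one (nat_lit 0x500000500a019a00000a014032411))) (.br (Nat.shiftLeft (nat_lit 0x600000500a019) (nat_lit 64)) (.one (nat_lit 0x600000500a018c00000a014030411)) (.one (nat_lit 0x600000500a019c00000a014032411)))) (.br (Nat.shiftLeft (nat_lit 0x1) (nat_lit 115)) (.br (Nat.shiftLeft (nat_lit 0x700000500a019) (nat_lit 64)) (.one (nat_lit 0x700000500a018e00000a014030411)) (.one (nat_lit 0x700000500a019e00000a014032411))) (.br (Nat.shiftLeft (nat_lit 0x800000500a019) (nat_lit 64)) (.one (nat_lit 0x800000500a018000000a014132411)) (.one (nat_lit 0x800000500a019000000a014134411))))) (.br (Nat.shiftLeft (nat_lit 0x1) (nat_lit 124)) (.br (Nat.shiftLeft (nat_lit 0x5) (nat_lit 113))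 (.br (Nat.shiftLeft (nat_lit 0x900000500a019) (nat_lit 64)) (.one (nat_lit 0x900000500a018200000a014132411)) (.one (nat_lit 0x900000500a019200000a014134411))) (.br (Nat.shiftLeft (nat_lit 0xa00000500a019) (nat_lit 64)) (.one (nat_lit 0xa00000500a018400000a014132411)) (.one (nat_lit 0xa00000500a019400000a014134411)))) (.br (Nat.shiftLeft (nat_lit 0x1000003) (nat_lit 100)) (.br (Nat.shiftLeft (nat_lit 0x100000200500a019) (nat_lit 64)) (.one (nat_lit 0x100000200500a018000400a034430511)) (.one (nat_lit 0x100000200500a019000400a034432511))) (.br (Nat.shiftLeft (nat_lit 0x100000300500a019) (nat_lit 64)) (.one (nat_lit 0x100000300500a018000600a034430511)) (.br (Nat.shiftLeft (nat_lit 0x400001) (nat_lit 102)) (.one (nat_lit 0x100000300500a019000600a034432511)) (.one (nat_lit 0x100000400500a018000800a034430511))))))) (.br (Nat.shiftLeft (nat_lit 0x3000003) (nat_lit 100)) (.br (Nat.shiftLeft (nat_lit 0x200000300500a019) (nat_lit 64)) (.br (Nat.shiftLeft (nat_lit 0x200000200500a019) (nat_lit 64)) (.br (Nat.shiftLeft (nat_lit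 0x1) (nat_lit 125)) (.one (nat_lit 0x100000400500a019000800a034432511)) (.one (nat_lit 0x200000200500a018000400a054830511))) (.br (Nat.shiftLeft (nat_lit 0x2000003) (nat_lit 100)) (.one (nat_lit 0x200000200500a019000400a054832511)) (.one (nat_lit 0x200000300500a018000600a054830511)))) (.br (Nat.shiftLeft (nat_lit 0x200000400500a019) (nat_lit 64)) (.br (Nat.shiftLeft (nat_lit 0x800001) (nat_lit 102)) (.one (nat_lit 0x200000300500a019000600a054832511)) (.one (nat_lit 0x200000400500a018000800a054830511))) (.br (Nat.shiftLeft (nat_lit 0x3) (nat_lit 124)) (.one (nat_lit 0x200000400500a019000800a054832511)) (.br (Nat.shiftLeft (nat_lit 0x300000200500a019) (nat_lit 64)) (.one (nat_lit 0x300000200500a018000400a074c30511)) (.one (nat_lit 0x300000200500a019000400a074c32511)))))) (.br (Nat.shiftLeft (nat_lit 0x1) (nat_lit 126)) (.br (Nat.shiftLeft (nat_lit 0xc00001) (nat_lit 102)) (.br (Nat.shiftLeft (nat_lit 0x300000300500a019) (nat_lit 64)) (.one (nat_lit 0x300000300500a018000600a074c30511)) (.one (nat_lit 0x300000300500a019000600a074c32511)))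 (.br (Nat.shiftLeft (nat_lit 0x300000400500a019) (nat_lit 64)) (.one (nat_lit 0x300000400500a018000800a074c30511)) (.one (nat_lit 0x300000400500a019000800a074c32511)))) (.br (Nat.shiftLeft (nat_lit 0x4000003) (nat_lit 100)) (.br (Nat.shiftLeft (nat_lit 0x400000200500a019) (nat_lit 64)) (.one (nat_lit 0x400000200500a018000400a095030511)) (.one (nat_lit 0x400000200500a019000400a095032511))) (.br (Nat.shiftLeft (nat_lit 0x400000300500a019) (nat_lit 64)) (.one (nat_lit 0x400000300500a018000600a095030511)) (.br (Nat.shiftLeft (nat_lit 0x1000001) (nat_lit 102)) (.one (nat_lit 0x400000300500a019000600a095032511)) (.one (nat_lit 0x400000400500a018000800a095030511))))))))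
def t87 : k87.all (jb2 57 fl b0) = true := by decide +kernel
noncomputable def k88 : KT := (.br (Nat.shiftLeft (nat_lit 0x500000300500a019) (nat_lit 64)) (.br (Nat.shiftLeft (nat_lit 0x500000200500a019) (nat_lit 64)) (.br (Nat.shiftLeft (nat_lit 0x5) (nat_lit 124)) (.one (nat_lit 0x400000400500a019000800a095032511)) (.one (nat_lit 0x500000200500a018000400a0b5430511))) (.br (Nat.shiftLeft (nat_lit 0x5000003) (nat_lit 100)) (.one (nat_lit 0x500000200500a019000400a0b5432511)) (.one (nat_lit 0x500000300500a018000600a0b5430511)))) (.br (Nat.shiftLeft (nat_lit 0x500000400500a019) (nat_lit 64)) (.br (Nat.shiftLeft (nat_lit 0x1400001) (nat_lit 102)) (.one (nat_lit 0x500000300500a019000600a0b5432511)) (.one (nat_lit 0x500000400500a018000800a0b5430511))) (.br (Nat.shiftLeft (nat_lit 0x3) (nat_lit 125)) (.one (nat_lit 0x500000400500a019000800a0b5432511)) (.br (Nat.shiftLeft (nat_lit 0x600000200500a019) (nat_lit 64)) (.one (nat_lit 0x600000200500a018000400a0d5830511)) (.one (nat_lit 0x600000200500a019000400a0d5832511))))))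
def t88 : k88.all (jb2 57 fl b0) = true := by decide +kernel
noncomputable def k89 : KT := (.br (Nat.shiftLeft (nat_lit 0x700000200500a019) (nat_lit 64)) (.br (Nat.shiftLeft (nat_lit 0x1800001) (nat_lit 102)) (.br (Nat.shiftLeft (nat_lit 0x600000300500a019) (nat_lit 64)) (.one (nat_lit 0x600000300500a018000600a0d5830511)) (.one (nat_lit 0x600000300500a019000600a0d5832511))) (.br (Nat.shiftLeft (nat_lit 0x600000400500a019) (nat_lit 64)) (.one (nat_lit 0x600000400500a018000800a0d5830511)) (.br (Nat.shiftLeft (nat_lit 0x7) (nat_lit 124)) (.one (nat_lit 0x600000400500a019000800a0d5832511)) (.one (nat_lit 0x700000200500a018000400a0f5c30511))))) (.br (Nat.shiftLeft (nat_lit 0x700000300500a019) (nat_lit 64)) (.br (Nat.shiftLeft (nat_lit 0x7000003) (nat_lit 100)) (.one (nat_lit 0x700000200500a019000400a0f5c32511)) (.one (nat_lit 0x700000300500a018000600a0f5c30511))) (.br (Nat.shiftLeft (nat_lit 0x1c00001) (nat_lit 102)) (.one (nat_lit 0x700000300500a019000600a0f5c32511)) (.br (Nat.shiftLeft (nat_lit 0x700000400500a019)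 (nat_lit 64)) (.one (nat_lit 0x700000400500a018000800a0f5c30511)) (.one (nat_lit 0x700000400500a019000800a0f5c32511))))))
def t89 : k89.all (jb2 57 fl b0) = true := by decide +kernel
noncomputable def k90 : KT := (.br (Nat.shiftLeft (nat_lit 0x900000300500a019) (nat_lit 64)) (.br (Nat.shiftLeft (nat_lit 0x2000001) (nat_lit 102)) (.br (Nat.shiftLeft (nat_lit 0x8000003) (nat_lit 100)) (.br (Nat.shiftLeft (nat_lit 0x800000200500a019) (nat_lit 64)) (.one (nat_lit 0x800000200500a018000400a116030511)) (.one (nat_lit 0x800000200500a019000400a116032511))) (.br (Nat.shiftLeft (nat_lit 0x800000300500a019) (nat_lit 64)) (.one (nat_lit 0x800000300500a018000600a116030511)) (.one (nat_lit 0x800000300500a019000600a116032511)))) (.br (Nat.shiftLeft (nat_lit 0x9) (nat_lit 124)) (.br (Nat.shiftLeft (nat_lit 0x800000400500a019) (nat_lit 64)) (.one (nat_lit 0x800000400500a018000800a116030511)) (.one (nat_lit 0x800000400500a019000800a116032511))) (.br (Nat.shiftLeft (nat_lit 0x900000200500a019) (nat_lit 64)) (.one (nat_lit 0x900000200500a018000400a136430511))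 (.br (Nat.shiftLeft (nat_lit 0x9000003) (nat_lit 100)) (.one (nat_lit 0x900000200500a019000400a136432511)) (.one (nat_lit 0x900000300500a018000600a136430511)))))) (.br (Nat.shiftLeft (nat_lit 0xa00000200500a019) (nat_lit 64)) (.br (Nat.shiftLeft (nat_lit 0x900000400500a019) (nat_lit 64)) (.br (Nat.shiftLeft (nat_lit 0x2400001) (nat_lit 102)) (.one (nat_lit 0x900000300500a019000600a136432511)) (.one (nat_lit 0x900000400500a018000800a136430511))) (.br (Nat.shiftLeft (nat_lit 0x5) (nat_lit 125)) (.one (nat_lit 0x900000400500a019000800a136432511)) (.one (nat_lit 0xa00000200500a018000400a156830511)))) (.br (Nat.shiftLeft (nat_lit 0xa00000300500a019) (nat_lit 64)) (.br (Nat.shiftLeft (nat_lit 0xa000003) (nat_lit 100)) (.one (nat_lit 0xa00000200500a019000400a156832511)) (.one (nat_lit 0xa00000300500a018000600a156830511))) (.br (Nat.shiftLeft (nat_lit 0x2800001) (nat_lit 102)) (.one (nat_lit 0xa00000300500a019000600a156832511)) (.br (Nat.shiftLeft (nat_lit 0xa00000400500a019) (nat_lit 64)) (.one (nat_lit 0xa00000400500a018000800a156830511))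 (.one (nat_lit 0xa00000400500a019000800a156832511)))))))
def t90 : k90.all (jb2 57 fl b0) = true := by decide +kernel
noncomputable def s4 : KT := (.br (nat_lit 0x200300500a018400600a014030650) (.br (nat_lit 0x100200500a018200400a014030650) (.br (nat_lit 0x100500a018000200a014030540) k77 (.br (nat_lit 0x100000500a019200000a014032411) k78 k79)) (.br (nat_lit 0x100300500a019200600a014032650) (.br (nat_lit 0x100200500a019200400a014032650) k80 k81) (.br (nat_lit 0x200000500a019400000a014032411) k82 k83))) (.br (nat_lit 0x400000500a019800000a014032411) (.br (nat_lit 0x200300500a019400600a014032650) k84 (.br (nat_lit 0x300000500a019600000a014032411) k85 k86)) (.br (nat_lit 0x600000200500a019000400a0d5832511) (.br (nat_lit 0x400000400500a018000800a095030511) k87 k88) (.br (nat_lit 0x700000400500a019000800a0f5c32511) k89 k90))))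
noncomputable def u4 : KT := (.br (Nat.shiftLeft (nat_lit 0x500b011) (nat_lit 64)) (.br (Nat.shiftLeft (nat_lit 0x500a019) (nat_lit 64)) (.one (nat_lit 0x500a018000000a014030430)) (.br (Nat.shiftLeft (nat_lit 0x500b) (nat_lit 76)) (.one (nat_lit 0x500a019000000a014032430)) (.one (nat_lit 0x500b010000000a016021400)))) (.br (Nat.shiftLeft (nat_lit 0x2805809) (nat_lit 65)) (.one (nat_lit 0x500b011000000a016023400)) (.br (Nat.shiftLeft (nat_lit 0x500b013) (nat_lit 64)) (.one (nat_lit 0x500b012000000a016025400)) (.one (nat_lit 0x500b013000000a016027400)))))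
def w4 : u4.all (wj 57 s4) = true := by decide +kernel
def o4 : OkW 57 (jb2 57 fl) u4 := .lift s4 _ (.br _ _ _ (.br _ _ _ (.br _ _ _ (.leaf b0 k77 t77) (.br _ _ _ (.leaf b0 k78 t78) (.leaf b0 k79 t79))) (.br _ _ _ (.br _ _ _ (.leaf b0 k80 t80) (.leaf b0 k81 t81)) (.br _ _ _ (.leaf b0 k82 t82) (.leaf b0 k83 t83)))) (.br _ _ _ (.br _ _ _ (.leaf b0 k84 t84) (.br _ _ _ (.leaf b0 k85 t85) (.leaf b0 k86 t86))) (.br _ _ _ (.br _ _ _ (.leaf b0 k87 t87) (.leaf b0 k88 t88)) (.br _ _ _ (.leaf b0 k89 t89) (.leaf b0 k90 t90))))) w4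
noncomputable def k91 : KT := (.br (Nat.shiftLeft (nat_lit 0xc01) (nat_lit 102)) (.br (Nat.shiftLeft (nat_lit 0x801) (nat_lit 101)) (.br (Nat.shiftLeft (nat_lit 0x3) (nat_lit 100)) (.br (Nat.shiftLeft (nat_lit 0x1) (nat_lit 100)) (.one (nat_lit 0x500b014000000a016029400)) (.br (Nat.shiftLeft (nat_lit 0x1) (nat_lit 101)) (.one (nat_lit 0x100500b014000200a016029500)) (.one (nat_lit 0x200500b014000400a016029500)))) (.br (Nat.shiftLeft (nat_lit 0x1) (nat_lit 102)) (.one (nat_lit 0x300500b014000600a016029500)) (.br (Nat.shiftLeft (nat_lit 0x1) (nat_lit 112)) (.one (nat_lit 0x400500b014000800a016029500)) (.one (nat_lit 0x100000500b014200000a016028411))))) (.br (Nat.shiftLeft (nat_lit 0x1) (nat_lit 113)) (.br (Nat.shiftLeft (nat_lit 0x1003) (nat_lit 100)) (.one (nat_lit 0x100200500b014200400a016029600)) (.br (Nat.shiftLeft (nat_lit 0x401) (nat_lit 102)) (.one (nat_lit 0x100300500b014200600a016029600)) (.one (nat_lit 0x100400500b014200800a016029600)))) (.br (Nat.shiftLeft (nat_lit 0x801) (nat_lit 102)) (.br (Nat.shiftLeft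 (nat_lit 0x1001) (nat_lit 101)) (.one (nat_lit 0x200000500b014400000a016028411)) (.one (nat_lit 0x200300500b014400600a016029600))) (.br (Nat.shiftLeft (nat_lit 0x3) (nat_lit 112)) (.one (nat_lit 0x200400500b014400800a016029600)) (.one (nat_lit 0x300000500b014600000a016028411)))))) (.br (Nat.shiftLeft (nat_lit 0x9) (nat_lit 112)) (.br (Nat.shiftLeft (nat_lit 0x3) (nat_lit 113)) (.br (Nat.shiftLeft (nat_lit 0x1) (nat_lit 114)) (.one (nat_lit 0x300400500b014600800a016029600)) (.br (Nat.shiftLeft (nat_lit 0x5) (nat_lit 112)) (.one (nat_lit 0x400000500b014800000a016028411)) (.one (nat_lit 0x500000500b014a00000a016028411)))) (.br (Nat.shiftLeft (nat_lit 0x7) (nat_lit 112)) (.one (nat_lit 0x600000500b014c00000a016028411)) (.br (Nat.shiftLeft (nat_lit 0x1) (nat_lit 115)) (.one (nat_lit 0x700000500b014e00000a016028411)) (.one (nat_lit 0x800000500b014000000a01612a411))))) (.br (Nat.shiftLeft (nat_lit 0x1) (nat_lit 124)) (.br (Nat.shiftLeft (nat_lit 0x5) (nat_lit 113)) (.one (nat_lit 0x900000500b014200000a01612a411)) (.br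 (Nat.shiftLeft (nat_lit 0xb) (nat_lit 112)) (.one (nat_lit 0xa00000500b014400000a01612a411)) (.one (nat_lit 0xb00000500b014600000a01612a411)))) (.br (Nat.shiftLeft (nat_lit 0x1000003) (nat_lit 100)) (.br (Nat.shiftLeft (nat_lit 0x800001) (nat_lit 101)) (.one (nat_lit 0x100000100500b014000200a036428511)) (.one (nat_lit 0x100000200500b014000400a036428511))) (.br (Nat.shiftLeft (nat_lit 0x400001) (nat_lit 102)) (.one (nat_lit 0x100000300500b014000600a036428511)) (.one (nat_lit 0x100000400500b014000800a036428511)))))))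
noncomputable def b92 : BT := .node (nat_lit 0xb) (nat_lit 0x144ca284e949c13049d2001d4c8007530001d4d00065b016d9b6cd2c600996c00065b00cb1a4e09d49634b213a4a26939274b6cc9d45134b1a590a28009d2e8015634009d4d00055bc001d2f00065b2009d2f80246b0001d4c80165b22ed9a4dca28001d2e00056320d1449c944d2c693a4b193a49d44c200308740032d8002e97c0132d8002ea6800b2a10e7413a9270001d4d80075300d134b2258d2c84e9274a58ca2851349c93049d2db349d24e4003a99002ea6001ba98004ab7800ba9a004ac60023a99004ac6401ba9a004cb60500775006bb0065b0048f0048f0048f0042f0042f0042f0031a002bb000f0) .leaf .leaf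
def t91 : k91.all (jb2 57 fl b92) = true := by decide +kernel
noncomputable def k92 : KT := (.one (nat_lit 0x100200300500b014400600a036428760))
def t92 : k92.all (jb2 57 fl b0) = true := by decide +kernel
noncomputable def k93 : KT := (.one (nat_lit 0x100200400500b014400800a036428760))
def t93 : k93.all (jb2 57 fl b0) = true := by decide +kernel
noncomputable def k94 : KT := (.br (Nat.shiftLeft (nat_lit 0x2000003) (nat_lit 100)) (.br (Nat.shiftLeft (nat_lit 0x1) (nat_lit 125)) (.one (nat_lit 0x100300400500b014600800a036428760)) (.br (Nat.shiftLeft (nat_lit 0x1000001) (nat_lit 101)) (.one (nat_lit 0x200000100500b014000200a056828511)) (.one (nat_lit 0x200000200500b014000400a056828511)))) (.br (Nat.shiftLeft (nat_lit 0x800001) (nat_lit 102)) (.one (nat_lit 0x200000300500b014000600a056828511)) (.br (Nat.shiftLeft (nat_lit 0x1001) (nat_lit 113)) (.one (nat_lit 0x200000400500b014000800a056828511)) (.one (nat_lit 0x200300400500b014600800a056828760)))))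
def t94 : k94.all (jb2 57 fl b0) = true := by decide +kernel
noncomputable def k95 : KT := (.br (Nat.shiftLeft (nat_lit 0x4000003) (nat_lit 100)) (.br (Nat.shiftLeft (nat_lit 0xc00001) (nat_lit 102)) (.br (Nat.shiftLeft (nat_lit 0x1800001) (nat_lit 101)) (.one (nat_lit 0x300000100500b014000200a076c28511)) (.br (Nat.shiftLeft (nat_lit 0x3000003) (nat_lit 100)) (.one (nat_lit 0x300000200500b014000400a076c28511)) (.one (nat_lit 0x300000300500b014000600a076c28511)))) (.br (Nat.shiftLeft (nat_lit 0x1) (nat_lit 126)) (.one (nat_lit 0x300000400500b014000800a076c28511)) (.br (Nat.shiftLeft (nat_lit 0x2000001) (nat_lit 101)) (.one (nat_lit 0x400000100500b014000200a097028511)) (.one (nat_lit 0x400000200500b014000400a097028511))))) (.br (Nat.shiftLeft (nat_lit 0x2800001) (nat_lit 101)) (.br (Nat.shiftLeft (nat_lit 0x1000001) (nat_lit 102)) (.one (nat_lit 0x400000300500b014000600a097028511)) (.br (Nat.shiftLeft (nat_lit 0x5) (nat_lit 124)) (.one (nat_lit 0x400000400500b014000800a097028511)) (.one (nat_lit 0x500000100500b014000200a0b7428511))))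 (.br (Nat.shiftLeft (nat_lit 0x5000003) (nat_lit 100)) (.one (nat_lit 0x500000200500b014000400a0b7428511)) (.br (Nat.shiftLeft (nat_lit 0x1400001) (nat_lit 102)) (.one (nat_lit 0x500000300500b014000600a0b7428511)) (.one (nat_lit 0x500000400500b014000800a0b7428511))))))
def t95 : k95.all (jb2 57 fl b0) = true := by decide +kernel
noncomputable def k96 : KT := (.br (Nat.shiftLeft (nat_lit 0x6000003) (nat_lit 100)) (.br (Nat.shiftLeft (nat_lit 0x3000001) (nat_lit 101)) (.one (nat_lit 0x600000100500b014000200a0d7828511)) (.one (nat_lit 0x600000200500b014000400a0d7828511))) (.br (Nat.shiftLeft (nat_lit 0x1800001) (nat_lit 102)) (.one (nat_lit 0x600000300500b014000600a0d7828511)) (.br (Nat.shiftLeft (nat_lit 0x7) (nat_lit 124)) (.one (nat_lit 0x600000400500b014000800a0d7828511)) (.one (nat_lit 0x700000100500b014000200a0f7c28511)))))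
def t96 : k96.all (jb2 57 fl b0) = true := by decide +kernel
noncomputable def k97 : KT := (.br (Nat.shiftLeft (nat_lit 0x1c00001) (nat_lit 102)) (.br (Nat.shiftLeft (nat_lit 0x7000003) (nat_lit 100)) (.one (nat_lit 0x700000200500b014000400a0f7c28511)) (.one (nat_lit 0x700000300500b014000600a0f7c28511))) (.br (Nat.shiftLeft (nat_lit 0x1) (nat_lit 127)) (.one (nat_lit 0x700000400500b014000800a0f7c28511)) (.one (nat_lit 0x800000100500b014000200a118028511))))
def t97 : k97.all (jb2 57 fl b0) = true := by decide +kernel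
noncomputable def k98 : KT := (.br (Nat.shiftLeft (nat_lit 0x2000001) (nat_lit 102)) (.br (Nat.shiftLeft (nat_lit 0x8000003) (nat_lit 100)) (.one (nat_lit 0x800000200500b014000400a118028511)) (.one (nat_lit 0x800000300500b014000600a118028511))) (.br (Nat.shiftLeft (nat_lit 0x9) (nat_lit 124)) (.one (nat_lit 0x800000400500b014000800a118028511)) (.one (nat_lit 0x900000100500b014000200a138428511))))
noncomputable def b99 : BT := .node (nat_lit 0x3) (nat_lit 0x96349c13a8003a5c000ac6c19634b2144c0032d9000cb60100110000b00005000050) .leaf .leaf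
def t98 : k98.all (jb2 57 fl b99) = true := by decide +kernel
noncomputable def k99 : KT := (.br (Nat.shiftLeft (nat_lit 0x2400001) (nat_lit 102)) (.br (Nat.shiftLeft (nat_lit 0x9000003) (nat_lit 100)) (.one (nat_lit 0x900000200500b014000400a138428511)) (.one (nat_lit 0x900000300500b014000600a138428511))) (.br (Nat.shiftLeft (nat_lit 0x5) (nat_lit 125)) (.one (nat_lit 0x900000400500b014000800a138428511)) (.one (nat_lit 0xa00000100500b014000200a158828511))))
noncomputable def b100 : BT := .node (nat_lit 0x17) (nat_lit 0xa2693928a000843a00196c83b664ea28a00074bc0011ac832ca4e949c36cd2724e927493009d49636d993a9b6696428a144d2c8938000cb6001329c003096402231e006ea6000b2da008ea60012ae0008ea6400ab19005096400329d1b6cd27093949ca4e0982001d4c00055bc00196c000654214b193a49d2db2261a4e40032d9000ca780032a3000ab782db34b213a40032d9000ab7810069c0063d0063d0063d0063d0063d005dd003b6003b6003b6003b6003b6003b6003b6002fb002fb002fb002fb002fb00240001e0001e0001e0001e0) .leaf .leaf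
def t99 : k99.all (jb2 57 fl b100) = true := by decide +kernel
noncomputable def k100 : KT := (.br (Nat.shiftLeft (nat_lit 0x2c00001) (nat_lit 102)) (.br (Nat.shiftLeft (nat_lit 0xb) (nat_lit 124)) (.br (Nat.shiftLeft (nat_lit 0xa000003) (nat_lit 100)) (.one (nat_lit 0xa00000200500b014000400a158828511)) (.br (Nat.shiftLeft (nat_lit 0x2800001) (nat_lit 102)) (.one (nat_lit 0xa00000300500b014000600a158828511)) (.one (nat_lit 0xa00000400500b014000800a158828511)))) (.br (Nat.shiftLeft (nat_lit 0x5800001) (nat_lit 101)) (.one (nat_lit 0xb00000100500b014000200a178c28511)) (.br (Nat.shiftLeft (nat_lit 0xb000003) (nat_lit 100)) (.one (nat_lit 0xb00000200500b014000400a178c28511)) (.one (nat_lit 0xb00000300500b014000600a178c28511))))) (.br (Nat.shiftLeft (nat_lit 0x400000401) (nat_lit 102)) (.br (Nat.shiftLeft (nat_lit 0x1) (nat_lit 136)) (.one (nat_lit 0xb00000400500b014000800a178c28511)) (.br (Nat.shiftLeft (nat_lit 0x1000001003) (nat_lit 100)) (.one (nat_lit 0x100000100200500b014200402a416028611)) (.one (nat_lit 0x100000100300500b014200602a416028611))))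 (.br (Nat.shiftLeft (nat_lit 0x400000801) (nat_lit 102)) (.br (Nat.shiftLeft (nat_lit 0x800001) (nat_lit 113)) (.one (nat_lit 0x100000100400500b014200802a416028611)) (.one (nat_lit 0x100000200300500b014400602a416028611))) (.br (Nat.shiftLeft (nat_lit 0x1000003) (nat_lit 112)) (.one (nat_lit 0x100000200400500b014400802a416028611)) (.one (nat_lit 0x100000300400500b014600802a416028611))))))
noncomputable def b101 : BT := .node (nat_lit 0xb) (nat_lit 0x12c696326100065b2001933832c64e928a000753000196c0344d27251427413089d293826093a400421d000cb68003a9b000cb60003a9a000ac643a28963274000753000196c03b66db328a25912704c26d993009d2001d4c00146b2005d2e80155c4009d4c001463c1cb113052744e949c93000032a1000ca80003a99000cb60293849c93a4003a9a000cb68100555004f5004f5004f5004950038000380003210020b0015000150000f0) .leaf .leaf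
def t100 : k100.all (jb2 57 fl b101) = true := by decide +kernel
noncomputable def k101 : KT := (.br (Nat.shiftLeft (nat_lit 0x1800001) (nat_lit 113)) (.br (Nat.shiftLeft (nat_lit 0x800000801) (nat_lit 102)) (.br (Nat.shiftLeft (nat_lit 0x800000401) (nat_lit 102)) (.br (Nat.shiftLeft (nat_lit 0x2000001003) (nat_lit 100)) (.one (nat_lit 0x200000100200500b014200404a816028611)) (.one (nat_lit 0x200000100300500b014200604a816028611))) (.br (Nat.shiftLeft (nat_lit 0x1000001) (nat_lit 113)) (.one (nat_lit 0x200000100400500b014200804a816028611)) (.one (nat_lit 0x200000200300500b014400604a816028611)))) (.br (Nat.shiftLeft (nat_lit 0x3) (nat_lit 136)) (.br (Nat.shiftLeft (nat_lit 0x2000003) (nat_lit 112)) (.one (nat_lit 0x200000200400500b014400804a816028611)) (.one (nat_lit 0x200000300400500b014600804a816028611))) (.br (Nat.shiftLeft (nat_lit 0x3000001003) (nat_lit 100)) (.one (nat_lit 0x300000100200500b014200406ac16028611)) (.br (Nat.shiftLeft (nat_lit 0xc00000401) (nat_lit 102)) (.one (nat_lit 0x300000100300500b014200606ac16028611))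 (.one (nat_lit 0x300000100400500b014200806ac16028611)))))) (.br (Nat.shiftLeft (nat_lit 0x1000000401) (nat_lit 102)) (.br (Nat.shiftLeft (nat_lit 0x3000003) (nat_lit 112)) (.br (Nat.shiftLeft (nat_lit 0xc00000801) (nat_lit 102)) (.one (nat_lit 0x300000200300500b014400606ac16028611)) (.one (nat_lit 0x300000200400500b014400806ac16028611))) (.br (Nat.shiftLeft (nat_lit 0x1) (nat_lit 138)) (.one (nat_lit 0x300000300400500b014600806ac16028611)) (.br (Nat.shiftLeft (nat_lit 0x4000001003) (nat_lit 100)) (.one (nat_lit 0x400000100200500b014200408b016028611)) (.one (nat_lit 0x400000100300500b014200608b016028611))))) (.br (Nat.shiftLeft (nat_lit 0x1000000801) (nat_lit 102)) (.br (Nat.shiftLeft (nat_lit 0x2000001) (nat_lit 113)) (.one (nat_lit 0x400000100400500b014200808b016028611)) (.one (nat_lit 0x400000200300500b014400608b016028611))) (.br (Nat.shiftLeft (nat_lit 0x4000003) (nat_lit 112)) (.one (nat_lit 0x400000200400500b014400808b016028611)) (.br (Nat.shiftLeft (nat_lit 0x5) (nat_lit 136)) (.one (nat_lit 0x400000300400500b014600808b016028611))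 (.one (nat_lit 0x500000100200500b01420040ab416028611)))))))
def t101 : k101.all (jb2 57 fl b0) = true := by decide +kernel
noncomputable def k102 : KT := (.br (Nat.shiftLeft (nat_lit 0x2800001) (nat_lit 113)) (.br (Nat.shiftLeft (nat_lit 0x1400000401) (nat_lit 102)) (.one (nat_lit 0x500000100300500b01420060ab416028611)) (.one (nat_lit 0x500000100400500b01420080ab416028611))) (.br (Nat.shiftLeft (nat_lit 0x1400000801) (nat_lit 102)) (.one (nat_lit 0x500000200300500b01440060ab416028611)) (.br (Nat.shiftLeft (nat_lit 0x5000003) (nat_lit 112)) (.one (nat_lit 0x500000200400500b01440080ab416028611)) (.one (nat_lit 0x500000300400500b01460080ab416028611)))))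
def t102 : k102.all (jb2 57 fl b0) = true := by decide +kernel
noncomputable def k103 : KT := (.br (Nat.shiftLeft (nat_lit 0x6000001003) (nat_lit 100)) (.one (nat_lit 0x600000100200500b01420040cb816028611)) (.br (Nat.shiftLeft (nat_lit 0x1800000401) (nat_lit 102)) (.one (nat_lit 0x600000100300500b01420060cb816028611)) (.one (nat_lit 0x600000100400500b01420080cb816028611))))
def t103 : k103.all (jb2 57 fl b0) = true := by decide +kernel
noncomputable def k104 : KT := (.br (Nat.shiftLeft (nat_lit 0x6000003) (nat_lit 112)) (.br (Nat.shiftLeft (nat_lit 0x1800000801) (nat_lit 102)) (.one (nat_lit 0x600000200300500b01440060cb816028611)) (.one (nat_lit 0x600000200400500b01440080cb816028611))) (.br (Nat.shiftLeft (nat_lit 0x7) (nat_lit 136)) (.one (nat_lit 0x600000300400500b01460080cb816028611)) (.one (nat_lit 0x700000100200500b01420040ebc16028611))))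
def t104 : k104.all (jb2 57 fl b0) = true := by decide +kernel
noncomputable def k105 : KT := (.br (Nat.shiftLeft (nat_lit 0x3800001) (nat_lit 113)) (.br (Nat.shiftLeft (nat_lit 0x1c00000401) (nat_lit 102)) (.one (nat_lit 0x700000100300500b01420060ebc16028611)) (.one (nat_lit 0x700000100400500b01420080ebc16028611))) (.br (Nat.shiftLeft (nat_lit 0x1c00000801) (nat_lit 102)) (.one (nat_lit 0x700000200300500b01440060ebc16028611)) (.br (Nat.shiftLeft (nat_lit 0x7000003) (nat_lit 112)) (.one (nat_lit 0x700000200400500b01440080ebc16028611)) (.one (nat_lit 0x700000300400500b01460080ebc16028611)))))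
def t105 : k105.all (jb2 57 fl b0) = true := by decide +kernel
noncomputable def k106 : KT := (.br (Nat.shiftLeft (nat_lit 0x2000000401) (nat_lit 102)) (.br (Nat.shiftLeft (nat_lit 0x8000001003) (nat_lit 100)) (.one (nat_lit 0x800000100200500b014200410c016028611)) (.one (nat_lit 0x800000100300500b014200610c016028611))) (.br (Nat.shiftLeft (nat_lit 0x4000001) (nat_lit 113)) (.one (nat_lit 0x800000100400500b014200810c016028611)) (.br (Nat.shiftLeft (nat_lit 0x2000000801) (nat_lit 102)) (.one (nat_lit 0x800000200300500b014400610c016028611)) (.one (nat_lit 0x800000200400500b014400810c016028611)))))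
def t106 : k106.all (jb2 57 fl b0) = true := by decide +kernel
noncomputable def k107 : KT := (.br (Nat.shiftLeft (nat_lit 0x4800001) (nat_lit 113)) (.br (Nat.shiftLeft (nat_lit 0x9000001003) (nat_lit 100)) (.br (Nat.shiftLeft (nat_lit 0x9) (nat_lit 136)) (.one (nat_lit 0x800000300400500b014600810c016028611)) (.one (nat_lit 0x900000100200500b014200412c416028611))) (.br (Nat.shiftLeft (nat_lit 0x2400000401) (nat_lit 102)) (.one (nat_lit 0x900000100300500b014200612c416028611)) (.one (nat_lit 0x900000100400500b014200812c416028611)))) (.br (Nat.shiftLeft (nat_lit 0x9000003) (nat_lit 112)) (.br (Nat.shiftLeft (nat_lit 0x2400000801) (nat_lit 102)) (.one (nat_lit 0x900000200300500b014400612c416028611)) (.one (nat_lit 0x900000200400500b014400812c416028611))) (.br (Nat.shiftLeft (nat_lit 0x5) (nat_lit 137)) (.one (nat_lit 0x900000300400500b014600812c416028611)) (.one (nat_lit 0xa00000100200500b014200414c816028611)))))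
def t107 : k107.all (jb2 57 fl b0) = true := by decide +kernel
noncomputable def k108 : KT := (.br (Nat.shiftLeft (nat_lit 0xb) (nat_lit 136)) (.br (Nat.shiftLeft (nat_lit 0x5000001) (nat_lit 113)) (.br (Nat.shiftLeft (nat_lit 0x2800000401) (nat_lit 102)) (.one (nat_lit 0xa00000100300500b014200614c816028611)) (.one (nat_lit 0xa00000100400500b014200814c816028611))) (.br (Nat.shiftLeft (nat_lit 0x2800000801) (nat_lit 102)) (.one (nat_lit 0xa00000200300500b014400614c816028611)) (.br (Nat.shiftLeft (nat_lit 0xa000003) (nat_lit 112)) (.one (nat_lit 0xa00000200400500b014400814c816028611)) (.one (nat_lit 0xa00000300400500b014600814c816028611))))) (.br (Nat.shiftLeft (nat_lit 0x5800001) (nat_lit 113)) (.br (Nat.shiftLeft (nat_lit 0xb000001003) (nat_lit 100)) (.one (nat_lit 0xb00000100200500b014200416cc16028611)) (.br (Nat.shiftLeft (nat_lit 0x2c00000401) (nat_lit 102)) (.one (nat_lit 0xb00000100300500b014200616cc16028611)) (.one (nat_lit 0xb00000100400500b014200816cc16028611)))) (.br (Nat.shiftLeft (nat_lit 0x2c00000801)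 (nat_lit 102)) (.one (nat_lit 0xb00000200300500b014400616cc16028611)) (.br (Nat.shiftLeft (nat_lit 0xb000003) (nat_lit 112)) (.one (nat_lit 0xb00000200400500b014400816cc16028611)) (.one (nat_lit 0xb00000300400500b014600816cc16028611))))))
def t108 : k108.all (jb2 57 fl b0) = true := by decide +kernel
noncomputable def s5 : KT := (.br (nat_lit 0xa00000100500b014000200a158828511) (.br (nat_lit 0x200300400500b014600800a056828760) (.br (nat_lit 0x100200300500b014400600a036428760) (.br (nat_lit 0x100000400500b014000800a036428511) k91 k92) (.br (nat_lit 0x100200400500b014400800a036428760) k93 k94)) (.br (nat_lit 0x700000100500b014000200a0f7c28511) (.br (nat_lit 0x500000400500b014000800a0b7428511) k95 k96) (.br (nat_lit 0x800000100500b014000200a118028511) k97 (.br (nat_lit 0x900000100500b014000200a138428511) k98 k99)))) (.br (nat_lit 0x600000100400500b01420080cb816028611) (.br (nat_lit 0x500000100200500b01420040ab416028611) (.br (nat_lit 0x100000300400500b014600802a416028611) k100 k101) (.br (nat_lit 0x500000300400500b01460080ab416028611)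 k102 k103)) (.br (nat_lit 0x700000300400500b01460080ebc16028611) (.br (nat_lit 0x700000100200500b01420040ebc16028611) k104 k105) (.br (nat_lit 0x800000200400500b014400810c016028611) k106 (.br (nat_lit 0xa00000100200500b014200414c816028611) k107 k108)))))
noncomputable def u5 : KT := (.one (nat_lit 0x500b014000000a016028430))
def w5 : u5.all (wj 57 s5) = true := by decide +kernel
def o5 : OkW 57 (jb2 57 fl) u5 := .lift s5 _ (.br _ _ _ (.br _ _ _ (.br _ _ _ (.br _ _ _ (.leaf b92 k91 t91) (.leaf b0 k92 t92)) (.br _ _ _ (.leaf b0 k93 t93) (.leaf b0 k94 t94))) (.br _ _ _ (.br _ _ _ (.leaf b0 k95 t95) (.leaf b0 k96 t96)) (.br _ _ _ (.leaf b0 k97 t97) (.br _ _ _ (.leaf b99 k98 t98) (.leaf b100 k99 t99))))) (.br _ _ _ (.br _ _ _ (.br _ _ _ (.leaf b101 k100 t100) (.leaf b0 k101 t101)) (.br _ _ _ (.leaf b0 k102 t102) (.leaf b0 k103 t103))) (.br _ _ _ (.br _ _ _ (.leaf b0 k104 t104) (.leaf b0 k105 t105)) (.br _ _ _ (.leaf b0 k106 t106) (.br _ _ _ (.leaf b0 k107 t107) (.leaf b0 k108 t108)))))) w5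
noncomputable def k109 : KT := (.br (Nat.shiftLeft (nat_lit 0x1) (nat_lit 102)) (.br (Nat.shiftLeft (nat_lit 0x1) (nat_lit 101)) (.br (Nat.shiftLeft (nat_lit 0x1) (nat_lit 100)) (.one (nat_lit 0x500b015000000a01602b400)) (.one (nat_lit 0x100500b015000200a01602a540))) (.br (Nat.shiftLeft (nat_lit 0x3) (nat_lit 100)) (.one (nat_lit 0x200500b015000400a01602b500)) (.one (nat_lit 0x300500b015000600a01602b500)))) (.br (Nat.shiftLeft (nat_lit 0x801) (nat_lit 101)) (.br (Nat.shiftLeft (nat_lit 0x1) (nat_lit 112)) (.one (nat_lit 0x400500b015000800a01602b500)) (.one (nat_lit 0x100000500b015200000a01602a411))) (.br (Nat.shiftLeft (nat_lit 0x1003) (nat_lit 100)) (.one (nat_lit 0x100200500b015200400a01602b600)) (.one (nat_lit 0x100300500b015200600a01602b600)))))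
noncomputable def b110 : BT := .node (nat_lit 0xb) (nat_lit 0x96326193a8003a62000ab7c193826093a4003a99000ac681db226093a8003a98000ab7c10021000210002100021000210001b0001b0001b000150000f0000f0000f0) .leaf .leaf
def t109 : k109.all (jb2 57 fl b110) = true := by decide +kernel
noncomputable def k110 : KT := (.br (Nat.shiftLeft (nat_lit 0xc01) (nat_lit 102)) (.br (Nat.shiftLeft (nat_lit 0x1001) (nat_lit 101)) (.br (Nat.shiftLeft (nat_lit 0x1) (nat_lit 113)) (.one (nat_lit 0x100400500b015200800a01602a650)) (.one (nat_lit 0x200000500b015400000a01602a411))) (.br (Nat.shiftLeft (nat_lit 0x801) (nat_lit 102)) (.one (nat_lit 0x200300500b015400600a01602b600)) (.br (Nat.shiftLeft (nat_lit 0x3) (nat_lit 112)) (.one (nat_lit 0x200400500b015400800a01602b600)) (.one (nat_lit 0x300000500b015600000a01602a411))))) (.br (Nat.shiftLeft (nat_lit 0x5) (nat_lit 112)) (.br (Nat.shiftLeft (nat_lit 0x1) (nat_lit 114)) (.one (nat_lit 0x300400500b015600800a01602b600)) (.one (nat_lit 0x400000500b015800000a01602a411))) (.br (Nat.shiftLeft (nat_lit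 0x3) (nat_lit 113)) (.one (nat_lit 0x500000500b015a00000a01602a411)) (.br (Nat.shiftLeft (nat_lit 0x7) (nat_lit 112)) (.one (nat_lit 0x600000500b015c00000a01602a411)) (.one (nat_lit 0x700000500b015e00000a01602a411))))))
def t110 : k110.all (jb2 57 fl b0) = true := by decide +kernel
noncomputable def k111 : KT := (.br (Nat.shiftLeft (nat_lit 0x1) (nat_lit 124)) (.br (Nat.shiftLeft (nat_lit 0x5) (nat_lit 113)) (.br (Nat.shiftLeft (nat_lit 0x9) (nat_lit 112)) (.one (nat_lit 0x800000500b015000000a01612c411)) (.one (nat_lit 0x900000500b015200000a01612c411))) (.br (Nat.shiftLeft (nat_lit 0xb) (nat_lit 112)) (.one (nat_lit 0xa00000500b015400000a01612c411)) (.one (nat_lit 0xb00000500b015600000a01612c411)))) (.br (Nat.shiftLeft (nat_lit 0x400001) (nat_lit 102)) (.br (Nat.shiftLeft (nat_lit 0x1000003) (nat_lit 100)) (.one (nat_lit 0x100000200500b015000400a03642a511)) (.one (nat_lit 0x100000300500b015000600a03642a511))) (.br (Nat.shiftLeft (nat_lit 0x801) (nat_lit 113)) (.one (nat_lit 0x100000400500b015000800a03642a511))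 (.one (nat_lit 0x100200300500b015400600a03642a760)))))
noncomputable def b112 : BT := .node (nat_lit 0xb) (nat_lit 0x289b6d09d4db326093112c696328a258db684c3003286400a31f000cb6400aaa9002ea600132d9002ea6800aaa81258db6696428994512c6001d4c80165b2009d4c801753014e949c930c004259000ab8c10037a0037a0020a0020a0020a0020a0020a0020a0014f0014f0014f000f0) .leaf .leaf
def t111 : k111.all (jb2 57 fl b112) = true := by decide +kernel
noncomputable def k112 : KT := (.br (Nat.shiftLeft (nat_lit 0x1) (nat_lit 125)) (.br (Nat.shiftLeft (nat_lit 0x1003) (nat_lit 112)) (.one (nat_lit 0x100200400500b015400800a03642a760)) (.one (nat_lit 0x100300400500b015600800a03642a760))) (.br (Nat.shiftLeft (nat_lit 0x2000003) (nat_lit 100)) (.one (nat_lit 0x200000200500b015000400a05682a511)) (.br (Nat.shiftLeft (nat_lit 0x800001) (nat_lit 102)) (.one (nat_lit 0x200000300500b015000600a05682a511)) (.one (nat_lit 0x200000400500b015000800a05682a511)))))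
def t112 : k112.all (jb2 57 fl b0) = true := by decide +kernel
noncomputable def k113 : KT := (.br (Nat.shiftLeft (nat_lit 0x1) (nat_lit 126)) (.br (Nat.shiftLeft (nat_lit 0x3000003) (nat_lit 100)) (.br (Nat.shiftLeft (nat_lit 0x3) (nat_lit 124)) (.one (nat_lit 0x200300400500b015600800a05682a760)) (.one (nat_lit 0x300000200500b015000400a076c2a511))) (.br (Nat.shiftLeft (nat_lit 0xc00001) (nat_lit 102)) (.one (nat_lit 0x300000300500b015000600a076c2a511)) (.one (nat_lit 0x300000400500b015000800a076c2a511)))) (.br (Nat.shiftLeft (nat_lit 0x1000001) (nat_lit 102)) (.br (Nat.shiftLeft (nat_lit 0x4000003) (nat_lit 100)) (.one (nat_lit 0x400000200500b015000400a09702a511)) (.one (nat_lit 0x400000300500b015000600a09702a511))) (.br (Nat.shiftLeft (nat_lit 0x5) (nat_lit 124)) (.one (nat_lit 0x400000400500b015000800a09702a511)) (.br (Nat.shiftLeft (nat_lit 0x5000003) (nat_lit 100)) (.one (nat_lit 0x500000200500b015000400a0b742a511)) (.one (nat_lit 0x500000300500b015000600a0b742a511))))))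
def t113 : k113.all (jb2 57 fl b0) = true := by decide +kernel
noncomputable def k114 : KT := (.br (Nat.shiftLeft (nat_lit 0x6000003) (nat_lit 100)) (.br (Nat.shiftLeft (nat_lit 0x3) (nat_lit 125)) (.one (nat_lit 0x500000400500b015000800a0b742a511)) (.one (nat_lit 0x600000200500b015000400a0d782a511))) (.br (Nat.shiftLeft (nat_lit 0x1800001) (nat_lit 102)) (.one (nat_lit 0x600000300500b015000600a0d782a511)) (.br (Nat.shiftLeft (nat_lit 0x7) (nat_lit 124)) (.one (nat_lit 0x600000400500b015000800a0d782a511)) (.one (nat_lit 0x700000200500b015000400a0f7c2a511)))))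
def t114 : k114.all (jb2 57 fl b0) = true := by decide +kernel
noncomputable def k115 : KT := (.br (Nat.shiftLeft (nat_lit 0x1) (nat_lit 127)) (.br (Nat.shiftLeft (nat_lit 0x1c00001) (nat_lit 102)) (.one (nat_lit 0x700000300500b015000600a0f7c2a511)) (.one (nat_lit 0x700000400500b015000800a0f7c2a511))) (.br (Nat.shiftLeft (nat_lit 0x8000003) (nat_lit 100)) (.one (nat_lit 0x800000200500b015000400a11802a511)) (.br (Nat.shiftLeft (nat_lit 0x2000001) (nat_lit 102)) (.one (nat_lit 0x800000300500b015000600a11802a511)) (.one (nat_lit 0x800000400500b015000800a11802a511)))))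
def t115 : k115.all (jb2 57 fl b0) = true := by decide +kernel
noncomputable def k116 : KT := (.br (Nat.shiftLeft (nat_lit 0x1000001003) (nat_lit 100)) (.br (Nat.shiftLeft (nat_lit 0x2800001) (nat_lit 102)) (.br (Nat.shiftLeft (nat_lit 0x2400001) (nat_lit 102)) (.br (Nat.shiftLeft (nat_lit 0x9000003) (nat_lit 100)) (.one (nat_lit 0x900000200500b015000400a13842a511)) (.one (nat_lit 0x900000300500b015000600a13842a511))) (.br (Nat.shiftLeft (nat_lit 0x5) (nat_lit 125)) (.one (nat_lit 0x900000400500b015000800a13842a511)) (.br (Nat.shiftLeft (nat_lit 0xa000003) (nat_lit 100)) (.one (nat_lit 0xa00000200500b015000400a15882a511)) (.one (nat_lit 0xa00000300500b015000600a15882a511))))) (.br (Nat.shiftLeft (nat_lit 0xb000003) (nat_lit 100)) (.br (Nat.shiftLeft (nat_lit 0xb) (nat_lit 124)) (.one (nat_lit 0xa00000400500b015000800a15882a511)) (.one (nat_lit 0xb00000200500b015000400a178c2a511))) (.br (Nat.shiftLeft (nat_lit 0x2c00001) (nat_lit 102)) (.one (nat_lit 0xb00000300500b015000600a178c2a511)) (.br (Nat.shiftLeft (nat_lit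 0x1) (nat_lit 136)) (.one (nat_lit 0xb00000400500b015000800a178c2a511)) (.one (nat_lit 0x100000100200500b015200402a41602a611)))))) (.br (Nat.shiftLeft (nat_lit 0x2000001003) (nat_lit 100)) (.br (Nat.shiftLeft (nat_lit 0x400000801) (nat_lit 102)) (.br (Nat.shiftLeft (nat_lit 0x800001) (nat_lit 113)) (.one (nat_lit 0x100000100300500b015200602a41602a611)) (.one (nat_lit 0x100000200300500b015400602a41602a611))) (.br (Nat.shiftLeft (nat_lit 0x1000003) (nat_lit 112)) (.one (nat_lit 0x100000200400500b015400802a41602a611)) (.br (Nat.shiftLeft (nat_lit 0x1) (nat_lit 137)) (.one (nat_lit 0x100000300400500b015600802a41602a611)) (.one (nat_lit 0x200000100200500b015200404a81602a611))))) (.br (Nat.shiftLeft (nat_lit 0x800000801) (nat_lit 102)) (.br (Nat.shiftLeft (nat_lit 0x1000001) (nat_lit 113)) (.one (nat_lit 0x200000100300500b015200604a81602a611)) (.one (nat_lit 0x200000200300500b015400604a81602a611))) (.br (Nat.shiftLeft (nat_lit 0x2000003) (nat_lit 112)) (.one (nat_lit 0x200000200400500b015400804a81602a611)) (.br (Nat.shiftLeft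 (nat_lit 0x3) (nat_lit 136)) (.one (nat_lit 0x200000300400500b015600804a81602a611)) (.one (nat_lit 0x300000100200500b015200406ac1602a611)))))))
def t116 : k116.all (jb2 57 fl b0) = true := by decide +kernel
noncomputable def k117 : KT := (.br (Nat.shiftLeft (nat_lit 0x4000001003) (nat_lit 100)) (.br (Nat.shiftLeft (nat_lit 0xc00000801) (nat_lit 102)) (.br (Nat.shiftLeft (nat_lit 0x1800001) (nat_lit 113)) (.one (nat_lit 0x300000100300500b015200606ac1602a611)) (.one (nat_lit 0x300000200300500b015400606ac1602a611))) (.br (Nat.shiftLeft (nat_lit 0x3000003) (nat_lit 112)) (.one (nat_lit 0x300000200400500b015400806ac1602a611)) (.br (Nat.shiftLeft (nat_lit 0x1) (nat_lit 138)) (.one (nat_lit 0x300000300400500b015600806ac1602a611)) (.one (nat_lit 0x400000100200500b015200408b01602a611))))) (.br (Nat.shiftLeft (nat_lit 0x4000003) (nat_lit 112)) (.br (Nat.shiftLeft (nat_lit 0x2000001) (nat_lit 113)) (.one (nat_lit 0x400000100300500b015200608b01602a611)) (.br (Nat.shiftLeft (nat_lit 0x1000000801) (nat_lit 102)) (.one (nat_lit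 0x400000200300500b015400608b01602a611)) (.one (nat_lit 0x400000200400500b015400808b01602a611)))) (.br (Nat.shiftLeft (nat_lit 0x5) (nat_lit 136)) (.one (nat_lit 0x400000300400500b015600808b01602a611)) (.br (Nat.shiftLeft (nat_lit 0x5000001003) (nat_lit 100)) (.one (nat_lit 0x500000100200500b01520040ab41602a611)) (.one (nat_lit 0x500000100300500b01520060ab41602a611))))))
def t117 : k117.all (jb2 57 fl b0) = true := by decide +kernel
noncomputable def k118 : KT := (.br (Nat.shiftLeft (nat_lit 0x5000003) (nat_lit 112)) (.br (Nat.shiftLeft (nat_lit 0x1400000801) (nat_lit 102)) (.one (nat_lit 0x500000200300500b01540060ab41602a611)) (.one (nat_lit 0x500000200400500b01540080ab41602a611))) (.br (Nat.shiftLeft (nat_lit 0x3) (nat_lit 137)) (.one (nat_lit 0x500000300400500b01560080ab41602a611)) (.br (Nat.shiftLeft (nat_lit 0x6000001003) (nat_lit 100)) (.one (nat_lit 0x600000100200500b01520040cb81602a611)) (.one (nat_lit 0x600000100300500b01520060cb81602a611)))))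
def t118 : k118.all (jb2 57 fl b0) = true := by decide +kernel
noncomputable def k119 : KT := (.br (Nat.shiftLeft (nat_lit 0x7) (nat_lit 136)) (.br (Nat.shiftLeft (nat_lit 0x1800000801) (nat_lit 102)) (.one (nat_lit 0x600000200300500b01540060cb81602a611)) (.br (Nat.shiftLeft (nat_lit 0x6000003) (nat_lit 112)) (.one (nat_lit 0x600000200400500b01540080cb81602a611)) (.one (nat_lit 0x600000300400500b01560080cb81602a611)))) (.br (Nat.shiftLeft (nat_lit 0x7000001003) (nat_lit 100)) (.one (nat_lit 0x700000100200500b01520040ebc1602a611)) (.br (Nat.shiftLeft (nat_lit 0x3800001) (nat_lit 113)) (.one (nat_lit 0x700000100300500b01520060ebc1602a611)) (.one (nat_lit 0x700000200300500b01540060ebc1602a611)))))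
def t119 : k119.all (jb2 57 fl b0) = true := by decide +kernel
noncomputable def k120 : KT := (.br (Nat.shiftLeft (nat_lit 0x4000001) (nat_lit 113)) (.br (Nat.shiftLeft (nat_lit 0x1) (nat_lit 139)) (.br (Nat.shiftLeft (nat_lit 0x7000003) (nat_lit 112)) (.one (nat_lit 0x700000200400500b01540080ebc1602a611)) (.one (nat_lit 0x700000300400500b01560080ebc1602a611))) (.br (Nat.shiftLeft (nat_lit 0x8000001003) (nat_lit 100)) (.one (nat_lit 0x800000100200500b015200410c01602a611)) (.one (nat_lit 0x800000100300500b015200610c01602a611)))) (.br (Nat.shiftLeft (nat_lit 0x8000003) (nat_lit 112)) (.br (Nat.shiftLeft (nat_lit 0x2000000801) (nat_lit 102)) (.one (nat_lit 0x800000200300500b015400610c01602a611)) (.one (nat_lit 0x800000200400500b015400810c01602a611))) (.br (Nat.shiftLeft (nat_lit 0x9) (nat_lit 136)) (.one (nat_lit 0x800000300400500b015600810c01602a611)) (.one (nat_lit 0x900000100200500b015200412c41602a611)))))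
def t120 : k120.all (jb2 57 fl b0) = true := by decide +kernel
noncomputable def k121 : KT := (.br (Nat.shiftLeft (nat_lit 0x2800000801) (nat_lit 102)) (.br (Nat.shiftLeft (nat_lit 0x9000003) (nat_lit 112)) (.br (Nat.shiftLeft (nat_lit 0x4800001) (nat_lit 113)) (.one (nat_lit 0x900000100300500b015200612c41602a611)) (.br (Nat.shiftLeft (nat_lit 0x2400000801) (nat_lit 102)) (.one (nat_lit 0x900000200300500b015400612c41602a611)) (.one (nat_lit 0x900000200400500b015400812c41602a611)))) (.br (Nat.shiftLeft (nat_lit 0xa000001003) (nat_lit 100)) (.br (Nat.shiftLeft (nat_lit 0x5) (nat_lit 137)) (.one (nat_lit 0x900000300400500b015600812c41602a611)) (.one (nat_lit 0xa00000100200500b015200414c81602a611))) (.br (Nat.shiftLeft (nat_lit 0x5000001) (nat_lit 113)) (.one (nat_lit 0xa00000100300500b015200614c81602a611)) (.one (nat_lit 0xa00000200300500b015400614c81602a611))))) (.br (Nat.shiftLeft (nat_lit 0xb000001003) (nat_lit 100)) (.br (Nat.shiftLeft (nat_lit 0xa000003) (nat_lit 112)) (.one (nat_lit 0xa00000200400500b015400814c81602a611))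 (.br (Nat.shiftLeft (nat_lit 0xb) (nat_lit 136)) (.one (nat_lit 0xa00000300400500b015600814c81602a611)) (.one (nat_lit 0xb00000100200500b015200416cc1602a611)))) (.br (Nat.shiftLeft (nat_lit 0x2c00000801) (nat_lit 102)) (.br (Nat.shiftLeft (nat_lit 0x5800001) (nat_lit 113)) (.one (nat_lit 0xb00000100300500b015200616cc1602a611)) (.one (nat_lit 0xb00000200300500b015400616cc1602a611))) (.br (Nat.shiftLeft (nat_lit 0xb000003) (nat_lit 112)) (.one (nat_lit 0xb00000200400500b015400816cc1602a611)) (.one (nat_lit 0xb00000300400500b015600816cc1602a611))))))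
def t121 : k121.all (jb2 57 fl b0) = true := by decide +kernel
noncomputable def s6 : KT := (.br (nat_lit 0x700000200500b015000400a0f7c2a511) (.br (nat_lit 0x100200300500b015400600a03642a760) (.br (nat_lit 0x100300500b015200600a01602b600) k109 (.br (nat_lit 0x700000500b015e00000a01602a411) k110 k111)) (.br (nat_lit 0x200000400500b015000800a05682a511) k112 (.br (nat_lit 0x500000300500b015000600a0b742a511) k113 k114))) (.br (nat_lit 0x500000100300500b01520060ab41602a611) (.br (nat_lit 0x800000400500b015000800a11802a511) k115 (.br (nat_lit 0x300000100200500b015200406ac1602a611) k116 k117)) (.br (nat_lit 0x700000200300500b01540060ebc1602a611) (.br (nat_lit 0x600000100300500b01520060cb81602a611) k118 k119) (.br (nat_lit 0x900000100200500b015200412c41602a611) k120 k121))))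
noncomputable def u6 : KT := (.one (nat_lit 0x500b015000000a01602a430))
def w6 : u6.all (wj 57 s6) = true := by decide +kernel
def o6 : OkW 57 (jb2 57 fl) u6 := .lift s6 _ (.br _ _ _ (.br _ _ _ (.br _ _ _ (.leaf b110 k109 t109) (.br _ _ _ (.leaf b0 k110 t110) (.leaf b112 k111 t111))) (.br _ _ _ (.leaf b0 k112 t112) (.br _ _ _ (.leaf b0 k113 t113) (.leaf b0 k114 t114)))) (.br _ _ _ (.br _ _ _ (.leaf b0 k115 t115) (.br _ _ _ (.leaf b0 k116 t116) (.leaf b0 k117 t117))) (.br _ _ _ (.br _ _ _ (.leaf b0 k118 t118) (.leaf b0 k119 t119)) (.br _ _ _ (.leaf b0 k120 t120) (.leaf b0 k121 t121))))) w6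
noncomputable def k122 : KT := (.br (Nat.shiftLeft (nat_lit 0x500b017) (nat_lit 64)) (.one (nat_lit 0x500b016000000a01602d400)) (.br (Nat.shiftLeft (nat_lit 0x1) (nat_lit 100)) (.one (nat_lit 0x500b017000000a01602f400)) (.one (nat_lit 0x100500b016000200a01602c540))))
def t122 : k122.all (jb2 57 fl b0) = true := by decide +kernel
noncomputable def k123 : KT := (.br (Nat.shiftLeft (nat_lit 0x1) (nat_lit 102)) (.br (Nat.shiftLeft (nat_lit 0x200500b017) (nat_lit 64)) (.br (Nat.shiftLeft (nat_lit 0x1) (nat_lit 101)) (.one (nat_lit 0x100500b017000200a01602e540)) (.one (nat_lit 0x200500b016000400a01602d500))) (.br (Nat.shiftLeft (nat_lit 0x3) (nat_lit 100)) (.one (nat_lit 0x200500b017000400a01602f500)) (.br (Nat.shiftLeft (nat_lit 0x300500b017) (nat_lit 64)) (.one (nat_lit 0x300500b016000600a01602d500)) (.one (nat_lit 0x300500b017000600a01602f500))))) (.br (Nat.shiftLeft (nat_lit 0x1) (nat_lit 112)) (.br (Nat.shiftLeft (nat_lit 0x400500b017) (nat_lit 64)) (.one (nat_lit 0x400500b016000800a01602d500)) (.one (nat_lit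 0x400500b017000800a01602f500))) (.br (Nat.shiftLeft (nat_lit 0x100000500b017) (nat_lit 64)) (.one (nat_lit 0x100000500b016200000a01602c411)) (.br (Nat.shiftLeft (nat_lit 0x801) (nat_lit 101)) (.one (nat_lit 0x100000500b017200000a01602e411)) (.one (nat_lit 0x100200500b016200400a01602d600))))))
def t123 : k123.all (jb2 57 fl b0) = true := by decide +kernel
noncomputable def k124 : KT := (.one (nat_lit 0x100200500b017200400a01602e650))
def t124 : k124.all (jb2 57 fl b0) = true := by decide +kernel
noncomputable def k125 : KT := (.one (nat_lit 0x100300500b016200600a01602c650))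
def t125 : k125.all (jb2 57 fl b0) = true := by decide +kernel
noncomputable def k126 : KT := (.one (nat_lit 0x100300500b017200600a01602e650))
def t126 : k126.all (jb2 57 fl b0) = true := by decide +kernel
noncomputable def k127 : KT := (.br (Nat.shiftLeft (nat_lit 0x1) (nat_lit 113)) (.br (Nat.shiftLeft (nat_lit 0x100400500b017) (nat_lit 64)) (.one (nat_lit 0x100400500b016200800a01602c650)) (.one (nat_lit 0x100400500b017200800a01602e650))) (.br (Nat.shiftLeft (nat_lit 0x200000500b017) (nat_lit 64)) (.one (nat_lit 0x200000500b016400000a01602c411)) (.br (Nat.shiftLeft (nat_lit 0x1001) (nat_lit 101)) (.one (nat_lit 0x200000500b017400000a01602e411)) (.one (nat_lit 0x200300500b016400600a01602d600)))))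
def t127 : k127.all (jb2 57 fl b0) = true := by decide +kernel
noncomputable def k128 : KT := (.one (nat_lit 0x200300500b017400600a01602e650))
def t128 : k128.all (jb2 57 fl b0) = true := by decide +kernel
noncomputable def k129 : KT := (.one (nat_lit 0x200400500b016400800a01602c650))
def t129 : k129.all (jb2 57 fl b0) = true := by decide +kernel
noncomputable def k130 : KT := (.br (Nat.shiftLeft (nat_lit 0x3) (nat_lit 112)) (.one (nat_lit 0x200400500b017400800a01602e650)) (.br (Nat.shiftLeft (nat_lit 0x300000500b017) (nat_lit 64)) (.one (nat_lit 0x300000500b016600000a01602c411)) (.one (nat_lit 0x300000500b017600000a01602e411))))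
def t130 : k130.all (jb2 57 fl b0) = true := by decide +kernel
noncomputable def k131 : KT := (.one (nat_lit 0x300400500b016600800a01602c650))
def t131 : k131.all (jb2 57 fl b0) = true := by decide +kernel
noncomputable def k132 : KT := (.br (Nat.shiftLeft (nat_lit 0x600000500b017) (nat_lit 64)) (.br (Nat.shiftLeft (nat_lit 0x5) (nat_lit 112)) (.br (Nat.shiftLeft (nat_lit 0x1) (nat_lit 114)) (.one (nat_lit 0x300400500b017600800a01602e650)) (.br (Nat.shiftLeft (nat_lit 0x400000500b017) (nat_lit 64)) (.one (nat_lit 0x400000500b016800000a01602c411)) (.one (nat_lit 0x400000500b017800000a01602e411)))) (.br (Nat.shiftLeft (nat_lit 0x500000500b017) (nat_lit 64)) (.one (nat_lit 0x500000500b016a00000a01602c411)) (.br (Nat.shiftLeft (nat_lit 0x3) (nat_lit 113)) (.one (nat_lit 0x500000500b017a00000a01602e411)) (.one (nat_lit 0x600000500b016c00000a01602c411))))) (.br (Nat.shiftLeft (nat_lit 0x1) (nat_lit 115)) (.br (Nat.shiftLeft (nat_lit 0x7) (nat_lit 112)) (.one (nat_lit 0x600000500b017c00000a01602e411)) (.br (Nat.shiftLeft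 (nat_lit 0x700000500b017) (nat_lit 64)) (.one (nat_lit 0x700000500b016e00000a01602c411)) (.one (nat_lit 0x700000500b017e00000a01602e411)))) (.br (Nat.shiftLeft (nat_lit 0x800000500b017) (nat_lit 64)) (.one (nat_lit 0x800000500b016000000a01612e411)) (.br (Nat.shiftLeft (nat_lit 0x9) (nat_lit 112)) (.one (nat_lit 0x800000500b017000000a016130411)) (.one (nat_lit 0x900000500b016200000a01612e411))))))
def t132 : k132.all (jb2 57 fl b0) = true := by decide +kernel
noncomputable def k133 : KT := (.br (Nat.shiftLeft (nat_lit 0x200000200500b017) (nat_lit 64)) (.br (Nat.shiftLeft (nat_lit 0x100000200500b017) (nat_lit 64)) (.br (Nat.shiftLeft (nat_lit 0xb) (nat_lit 112)) (.br (Nat.shiftLeft (nat_lit 0x5) (nat_lit 113)) (.one (nat_lit 0x900000500b017200000a016130411)) (.br (Nat.shiftLeft (nat_lit 0xa00000500b017) (nat_lit 64)) (.one (nat_lit 0xa00000500b016400000a01612e411)) (.one (nat_lit 0xa00000500b017400000a016130411)))) (.br (Nat.shiftLeft (nat_lit 0xb00000500b017) (nat_lit 64)) (.one (nat_lit 0xb00000500b016600000a01612e411))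 (.br (Nat.shiftLeft (nat_lit 0x1) (nat_lit 124)) (.one (nat_lit 0xb00000500b017600000a016130411)) (.one (nat_lit 0x100000200500b016000400a03642c511))))) (.br (Nat.shiftLeft (nat_lit 0x400001) (nat_lit 102)) (.br (Nat.shiftLeft (nat_lit 0x1000003) (nat_lit 100)) (.one (nat_lit 0x100000200500b017000400a03642e511)) (.br (Nat.shiftLeft (nat_lit 0x100000300500b017) (nat_lit 64)) (.one (nat_lit 0x100000300500b016000600a03642c511)) (.one (nat_lit 0x100000300500b017000600a03642e511)))) (.br (Nat.shiftLeft (nat_lit 0x801) (nat_lit 113)) (.br (Nat.shiftLeft (nat_lit 0x100000400500b017) (nat_lit 64)) (.one (nat_lit 0x100000400500b016000800a03642c511)) (.one (nat_lit 0x100000400500b017000800a03642e511))) (.br (Nat.shiftLeft (nat_lit 0x1) (nat_lit 125)) (.one (nat_lit 0x100200300500b016400600a03642c760)) (.one (nat_lit 0x200000200500b016000400a05682c511)))))) (.br (Nat.shiftLeft (nat_lit 0x300000200500b017) (nat_lit 64)) (.br (Nat.shiftLeft (nat_lit 0x800001) (nat_lit 102)) (.br (Nat.shiftLeft (nat_lit 0x2000003) (nat_lit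 100)) (.one (nat_lit 0x200000200500b017000400a05682e511)) (.br (Nat.shiftLeft (nat_lit 0x200000300500b017) (nat_lit 64)) (.one (nat_lit 0x200000300500b016000600a05682c511)) (.one (nat_lit 0x200000300500b017000600a05682e511)))) (.br (Nat.shiftLeft (nat_lit 0x200000400500b017) (nat_lit 64)) (.one (nat_lit 0x200000400500b016000800a05682c511)) (.br (Nat.shiftLeft (nat_lit 0x3) (nat_lit 124)) (.one (nat_lit 0x200000400500b017000800a05682e511)) (.one (nat_lit 0x300000200500b016000400a076c2c511))))) (.br (Nat.shiftLeft (nat_lit 0xc00001) (nat_lit 102)) (.br (Nat.shiftLeft (nat_lit 0x3000003) (nat_lit 100)) (.one (nat_lit 0x300000200500b017000400a076c2e511)) (.br (Nat.shiftLeft (nat_lit 0x300000300500b017) (nat_lit 64)) (.one (nat_lit 0x300000300500b016000600a076c2c511)) (.one (nat_lit 0x300000300500b017000600a076c2e511)))) (.br (Nat.shiftLeft (nat_lit 0x1) (nat_lit 126)) (.br (Nat.shiftLeft (nat_lit 0x300000400500b017) (nat_lit 64)) (.one (nat_lit 0x300000400500b016000800a076c2c511)) (.one (nat_lit 0x300000400500b017000800a076c2e511)))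 (.br (Nat.shiftLeft (nat_lit 0x400000200500b017) (nat_lit 64)) (.one (nat_lit 0x400000200500b016000400a09702c511)) (.one (nat_lit 0x400000200500b017000400a09702e511)))))))
def t133 : k133.all (jb2 57 fl b0) = true := by decide +kernel
noncomputable def k134 : KT := (.br (Nat.shiftLeft (nat_lit 0x500000200500b017) (nat_lit 64)) (.br (Nat.shiftLeft (nat_lit 0x1000001) (nat_lit 102)) (.br (Nat.shiftLeft (nat_lit 0x400000300500b017) (nat_lit 64)) (.one (nat_lit 0x400000300500b016000600a09702c511)) (.one (nat_lit 0x400000300500b017000600a09702e511))) (.br (Nat.shiftLeft (nat_lit 0x400000400500b017) (nat_lit 64)) (.one (nat_lit 0x400000400500b016000800a09702c511)) (.br (Nat.shiftLeft (nat_lit 0x5) (nat_lit 124)) (.one (nat_lit 0x400000400500b017000800a09702e511)) (.one (nat_lit 0x500000200500b016000400a0b742c511))))) (.br (Nat.shiftLeft (nat_lit 0x500000300500b017) (nat_lit 64)) (.br (Nat.shiftLeft (nat_lit 0x5000003) (nat_lit 100)) (.one (nat_lit 0x500000200500b017000400a0b742e511)) (.one (nat_lit 0x500000300500b016000600a0b742c511)))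 (.br (Nat.shiftLeft (nat_lit 0x1400001) (nat_lit 102)) (.one (nat_lit 0x500000300500b017000600a0b742e511)) (.br (Nat.shiftLeft (nat_lit 0x500000400500b017) (nat_lit 64)) (.one (nat_lit 0x500000400500b016000800a0b742c511)) (.one (nat_lit 0x500000400500b017000800a0b742e511))))))
def t134 : k134.all (jb2 57 fl b0) = true := by decide +kernel
noncomputable def k135 : KT := (.br (Nat.shiftLeft (nat_lit 0x600000300500b017) (nat_lit 64)) (.br (Nat.shiftLeft (nat_lit 0x600000200500b017) (nat_lit 64)) (.one (nat_lit 0x600000200500b016000400a0d782c511)) (.br (Nat.shiftLeft (nat_lit 0x6000003) (nat_lit 100)) (.one (nat_lit 0x600000200500b017000400a0d782e511)) (.one (nat_lit 0x600000300500b016000600a0d782c511)))) (.br (Nat.shiftLeft (nat_lit 0x1800001) (nat_lit 102)) (.one (nat_lit 0x600000300500b017000600a0d782e511)) (.br (Nat.shiftLeft (nat_lit 0x600000400500b017) (nat_lit 64)) (.one (nat_lit 0x600000400500b016000800a0d782c511)) (.one (nat_lit 0x600000400500b017000800a0d782e511)))))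
def t135 : k135.all (jb2 57 fl b0) = true := by decide +kernel
noncomputable def k136 : KT := (.br (Nat.shiftLeft (nat_lit 0x1c00001) (nat_lit 102)) (.br (Nat.shiftLeft (nat_lit 0x7000003) (nat_lit 100)) (.br (Nat.shiftLeft (nat_lit 0x700000200500b017) (nat_lit 64)) (.one (nat_lit 0x700000200500b016000400a0f7c2c511)) (.one (nat_lit 0x700000200500b017000400a0f7c2e511))) (.br (Nat.shiftLeft (nat_lit 0x700000300500b017) (nat_lit 64)) (.one (nat_lit 0x700000300500b016000600a0f7c2c511)) (.one (nat_lit 0x700000300500b017000600a0f7c2e511)))) (.br (Nat.shiftLeft (nat_lit 0x1) (nat_lit 127)) (.br (Nat.shiftLeft (nat_lit 0x700000400500b017) (nat_lit 64)) (.one (nat_lit 0x700000400500b016000800a0f7c2c511)) (.one (nat_lit 0x700000400500b017000800a0f7c2e511))) (.br (Nat.shiftLeft (nat_lit 0x800000200500b017) (nat_lit 64)) (.one (nat_lit 0x800000200500b016000400a11802c511)) (.one (nat_lit 0x800000200500b017000400a11802e511)))))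
def t136 : k136.all (jb2 57 fl b0) = true := by decide +kernel
noncomputable def k137 : KT := (.br (Nat.shiftLeft (nat_lit 0x9000003) (nat_lit 100)) (.br (Nat.shiftLeft (nat_lit 0x800000400500b017) (nat_lit 64)) (.br (Nat.shiftLeft (nat_lit 0x800000300500b017) (nat_lit 64)) (.one (nat_lit 0x800000300500b016000600a11802c511)) (.br (Nat.shiftLeft (nat_lit 0x2000001) (nat_lit 102)) (.one (nat_lit 0x800000300500b017000600a11802e511)) (.one (nat_lit 0x800000400500b016000800a11802c511)))) (.br (Nat.shiftLeft (nat_lit 0x9) (nat_lit 124)) (.one (nat_lit 0x800000400500b017000800a11802e511)) (.br (Nat.shiftLeft (nat_lit 0x900000200500b017) (nat_lit 64)) (.one (nat_lit 0x900000200500b016000400a13842c511)) (.one (nat_lit 0x900000200500b017000400a13842e511))))) (.br (Nat.shiftLeft (nat_lit 0x900000400500b017) (nat_lit 64)) (.br (Nat.shiftLeft (nat_lit 0x900000300500b017) (nat_lit 64)) (.one (nat_lit 0x900000300500b016000600a13842c511)) (.br (Nat.shiftLeft (nat_lit 0x2400001) (nat_lit 102)) (.one (nat_lit 0x900000300500b017000600a13842e511))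 (.one (nat_lit 0x900000400500b016000800a13842c511)))) (.br (Nat.shiftLeft (nat_lit 0x5) (nat_lit 125)) (.one (nat_lit 0x900000400500b017000800a13842e511)) (.br (Nat.shiftLeft (nat_lit 0xa00000200500b017) (nat_lit 64)) (.one (nat_lit 0xa00000200500b016000400a15882c511)) (.one (nat_lit 0xa00000200500b017000400a15882e511))))))
def t137 : k137.all (jb2 57 fl b0) = true := by decide +kernel
noncomputable def k138 : KT := (.br (Nat.shiftLeft (nat_lit 0x1) (nat_lit 136)) (.br (Nat.shiftLeft (nat_lit 0xb00000200500b017) (nat_lit 64)) (.br (Nat.shiftLeft (nat_lit 0x2800001) (nat_lit 102)) (.br (Nat.shiftLeft (nat_lit 0xa00000300500b017) (nat_lit 64)) (.one (nat_lit 0xa00000300500b016000600a15882c511)) (.one (nat_lit 0xa00000300500b017000600a15882e511))) (.br (Nat.shiftLeft (nat_lit 0xa00000400500b017) (nat_lit 64)) (.one (nat_lit 0xa00000400500b016000800a15882c511)) (.br (Nat.shiftLeft (nat_lit 0xb) (nat_lit 124)) (.one (nat_lit 0xa00000400500b017000800a15882e511)) (.one (nat_lit 0xb00000200500b016000400a178c2c511)))))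 (.br (Nat.shiftLeft (nat_lit 0xb00000300500b017) (nat_lit 64)) (.br (Nat.shiftLeft (nat_lit 0xb000003) (nat_lit 100)) (.one (nat_lit 0xb00000200500b017000400a178c2e511)) (.one (nat_lit 0xb00000300500b016000600a178c2c511))) (.br (Nat.shiftLeft (nat_lit 0x2c00001) (nat_lit 102)) (.one (nat_lit 0xb00000300500b017000600a178c2e511)) (.br (Nat.shiftLeft (nat_lit 0xb00000400500b017) (nat_lit 64)) (.one (nat_lit 0xb00000400500b016000800a178c2c511)) (.one (nat_lit 0xb00000400500b017000800a178c2e511)))))) (.br (Nat.shiftLeft (nat_lit 0x1800001) (nat_lit 113)) (.br (Nat.shiftLeft (nat_lit 0x1) (nat_lit 137)) (.br (Nat.shiftLeft (nat_lit 0x800001) (nat_lit 113)) (.one (nat_lit 0x100000100200500b016200402a41602c611)) (.one (nat_lit 0x100000200300500b016400602a41602c611))) (.br (Nat.shiftLeft (nat_lit 0x1000001) (nat_lit 113)) (.one (nat_lit 0x200000100200500b016200404a81602c611)) (.br (Nat.shiftLeft (nat_lit 0x3) (nat_lit 136)) (.one (nat_lit 0x200000200300500b016400604a81602c611)) (.one (nat_lit 0x300000100200500b016200406ac1602c611)))))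 (.br (Nat.shiftLeft (nat_lit 0x2000001) (nat_lit 113)) (.br (Nat.shiftLeft (nat_lit 0x1) (nat_lit 138)) (.one (nat_lit 0x300000200300500b016400606ac1602c611)) (.one (nat_lit 0x400000100200500b016200408b01602c611))) (.br (Nat.shiftLeft (nat_lit 0x5) (nat_lit 136)) (.one (nat_lit 0x400000200300500b016400608b01602c611)) (.br (Nat.shiftLeft (nat_lit 0x2800001) (nat_lit 113)) (.one (nat_lit 0x500000100200500b01620040ab41602c611)) (.one (nat_lit 0x500000200300500b01640060ab41602c611)))))))
def t138 : k138.all (jb2 57 fl b0) = true := by decide +kernel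
noncomputable def k139 : KT := (.br (Nat.shiftLeft (nat_lit 0x1) (nat_lit 139)) (.br (Nat.shiftLeft (nat_lit 0x7) (nat_lit 136)) (.br (Nat.shiftLeft (nat_lit 0x3000001) (nat_lit 113)) (.one (nat_lit 0x600000100200500b01620040cb81602c611)) (.one (nat_lit 0x600000200300500b01640060cb81602c611))) (.br (Nat.shiftLeft (nat_lit 0x3800001) (nat_lit 113)) (.one (nat_lit 0x700000100200500b01620040ebc1602c611)) (.one (nat_lit 0x700000200300500b01640060ebc1602c611)))) (.br (Nat.shiftLeft (nat_lit 0x9) (nat_lit 136)) (.br (Nat.shiftLeft (nat_lit 0x4000001) (nat_lit 113)) (.one (nat_lit 0x800000100200500b016200410c01602c611)) (.one (nat_lit 0x800000200300500b016400610c01602c611))) (.br (Nat.shiftLeft (nat_lit 0x4800001) (nat_lit 113)) (.one (nat_lit 0x900000100200500b016200412c41602c611)) (.br (Nat.shiftLeft (nat_lit 0x5) (nat_lit 137)) (.one (nat_lit 0x900000200300500b016400612c41602c611)) (.one (nat_lit 0xa00000100200500b016200414c81602c611))))))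
def t139 : k139.all (jb2 57 fl b0) = true := by decide +kernel
noncomputable def k140 : KT := (.br (Nat.shiftLeft (nat_lit 0xb) (nat_lit 136)) (.one (nat_lit 0xa00000200300500b016400614c81602c611)) (.br (Nat.shiftLeft (nat_lit 0x5800001) (nat_lit 113)) (.one (nat_lit 0xb00000100200500b016200416cc1602c611)) (.one (nat_lit 0xb00000200300500b016400616cc1602c611))))
def t140 : k140.all (jb2 57 fl b0) = true := by decide +kernel
noncomputable def s7 : KT := (.br (nat_lit 0x300000500b017600000a01602e411) (.br (nat_lit 0x100300500b016200600a01602c650) (.br (nat_lit 0x100200500b016200400a01602d600) (.br (nat_lit 0x100500b016000200a01602c540) k122 k123) (.br (nat_lit 0x100200500b017200400a01602e650) k124 k125)) (.br (nat_lit 0x200300500b016400600a01602d600) (.br (nat_lit 0x100300500b017200600a01602e650) k126 k127) (.br (nat_lit 0x200300500b017400600a01602e650) k128 (.br (nat_lit 0x200400500b016400800a01602c650) k129 k130)))) (.br (nat_lit 0x600000400500b017000800a0d782e511) (.br (nat_lit 0x900000500b016200000a01612e411)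 (.br (nat_lit 0x300400500b016600800a01602c650) k131 k132) (.br (nat_lit 0x400000200500b017000400a09702e511) k133 (.br (nat_lit 0x500000400500b017000800a0b742e511) k134 k135))) (.br (nat_lit 0xa00000200500b017000400a15882e511) (.br (nat_lit 0x800000200500b017000400a11802e511) k136 k137) (.br (nat_lit 0x500000200300500b01640060ab41602c611) k138 (.br (nat_lit 0xa00000100200500b016200414c81602c611) k139 k140)))))
noncomputable def u7 : KT := (.br (Nat.shiftLeft (nat_lit 0x500b017) (nat_lit 64)) (.one (nat_lit 0x500b016000000a01602c430)) (.one (nat_lit 0x500b017000000a01602e430)))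
def w7 : u7.all (wj 57 s7) = true := by decide +kernel
def o7 : OkW 57 (jb2 57 fl) u7 := .lift s7 _ (.br _ _ _ (.br _ _ _ (.br _ _ _ (.br _ _ _ (.leaf b0 k122 t122) (.leaf b0 k123 t123)) (.br _ _ _ (.leaf b0 k124 t124) (.leaf b0 k125 t125))) (.br _ _ _ (.br _ _ _ (.leaf b0 k126 t126) (.leaf b0 k127 t127)) (.br _ _ _ (.leaf b0 k128 t128) (.br _ _ _ (.leaf b0 k129 t129) (.leaf b0 k130 t130))))) (.br _ _ _ (.br _ _ _ (.br _ _ _ (.leaf b0 k131 t131) (.leaf b0 k132 t132)) (.br _ _ _ (.leaf b0 k133 t133) (.br _ _ _ (.leaf b0 k134 t134) (.leaf b0 k135 t135)))) (.br _ _ _ (.br _ _ _ (.leaf b0 k136 t136) (.leaf b0 k137 t137)) (.br _ _ _ (.leaf b0 k138 t138) (.br _ _ _ (.leaf b0 k139 t139) (.leaf b0 k140 t140)))))) w7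
noncomputable def k141 : KT := (.br (Nat.shiftLeft (nat_lit 0x1) (nat_lit 100)) (.br (Nat.shiftLeft (nat_lit 0x500c01) (nat_lit 68)) (.br (Nat.shiftLeft (nat_lit 0x1403) (nat_lit 78)) (.one (nat_lit 0x500b018000000a016031400)) (.one (nat_lit 0x500c00f000000a01801f400))) (.br (Nat.shiftLeft (nat_lit 0x500c011) (nat_lit 64)) (.one (nat_lit 0x500c010000000a018021400)) (.br (Nat.shiftLeft (nat_lit 0x2806009) (nat_lit 65)) (.one (nat_lit 0x500c011000000a018023400)) (.one (nat_lit 0x500c012000000a018025400))))) (.br (Nat.shiftLeft (nat_lit 0x3) (nat_lit 100)) (.br (Nat.shiftLeft (nat_lit 0x1) (nat_lit 101)) (.one (nat_lit 0x100500b018000200a016030540)) (.one (nat_lit 0x200500b018000400a016031500))) (.br (Nat.shiftLeft (nat_lit 0x1) (nat_lit 102)) (.one (nat_lit 0x300500b018000600a016031500)) (.br (Nat.shiftLeft (nat_lit 0x1) (nat_lit 112)) (.one (nat_lit 0x400500b018000800a016031500)) (.one (nat_lit 0x100000500b018200000a016030411))))))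
def t141 : k141.all (jb2 57 fl b0) = true := by decide +kernel
noncomputable def k142 : KT := (.br (Nat.shiftLeft (nat_lit 0x1003) (nat_lit 100)) (.one (nat_lit 0x100200500b018200400a016030650)) (.one (nat_lit 0x100300500b018200600a016030650)))
def t142 : k142.all (jb2 57 fl b0) = true := by decide +kernel
noncomputable def k143 : KT := (.br (Nat.shiftLeft (nat_lit 0x1) (nat_lit 113)) (.one (nat_lit 0x100400500b018200800a016030650)) (.br (Nat.shiftLeft (nat_lit 0x1001) (nat_lit 101)) (.one (nat_lit 0x200000500b018400000a016030411)) (.one (nat_lit 0x200300500b018400600a016030650))))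
def t143 : k143.all (jb2 57 fl b0) = true := by decide +kernel
noncomputable def k144 : KT := (.br (Nat.shiftLeft (nat_lit 0x5) (nat_lit 112)) (.br (Nat.shiftLeft (nat_lit 0xc01) (nat_lit 102)) (.br (Nat.shiftLeft (nat_lit 0x3) (nat_lit 112)) (.one (nat_lit 0x200400500b018400800a016030650)) (.one (nat_lit 0x300000500b018600000a016030411))) (.br (Nat.shiftLeft (nat_lit 0x1) (nat_lit 114)) (.one (nat_lit 0x300400500b018600800a016030650)) (.one (nat_lit 0x400000500b018800000a016030411)))) (.br (Nat.shiftLeft (nat_lit 0x7) (nat_lit 112)) (.br (Nat.shiftLeft (nat_lit 0x3) (nat_lit 113)) (.one (nat_lit 0x500000500b018a00000a016030411)) (.one (nat_lit 0x600000500b018c00000a016030411))) (.br (Nat.shiftLeft (nat_lit 0x1) (nat_lit 115)) (.one (nat_lit 0x700000500b018e00000a016030411)) (.br (Nat.shiftLeft (nat_lit 0x9) (nat_lit 112)) (.one (nat_lit 0x800000500b018000000a016132411)) (.one (nat_lit 0x900000500b018200000a016132411))))))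
def t144 : k144.all (jb2 57 fl b0) = true := by decide +kernel
noncomputable def k145 : KT := (.br (Nat.shiftLeft (nat_lit 0xc00001) (nat_lit 102)) (.br (Nat.shiftLeft (nat_lit 0x1) (nat_lit 125)) (.br (Nat.shiftLeft (nat_lit 0x1) (nat_lit 124)) (.br (Nat.shiftLeft (nat_lit 0xb) (nat_lit 112)) (.one (nat_lit 0xa00000500b018400000a016132411)) (.one (nat_lit 0xb00000500b018600000a016132411))) (.br (Nat.shiftLeft (nat_lit 0x1000003) (nat_lit 100)) (.one (nat_lit 0x100000200500b018000400a036430511)) (.br (Nat.shiftLeft (nat_lit 0x400001) (nat_lit 102)) (.one (nat_lit 0x100000300500b018000600a036430511)) (.one (nat_lit 0x100000400500b018000800a036430511))))) (.br (Nat.shiftLeft (nat_lit 0x800001) (nat_lit 102)) (.br (Nat.shiftLeft (nat_lit 0x2000003) (nat_lit 100)) (.one (nat_lit 0x200000200500b018000400a056830511)) (.one (nat_lit 0x200000300500b018000600a056830511))) (.br (Nat.shiftLeft (nat_lit 0x3) (nat_lit 124)) (.one (nat_lit 0x200000400500b018000800a056830511)) (.br (Nat.shiftLeft (nat_lit 0x3000003) (nat_lit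 100)) (.one (nat_lit 0x300000200500b018000400a076c30511)) (.one (nat_lit 0x300000300500b018000600a076c30511)))))) (.br (Nat.shiftLeft (nat_lit 0x5000003) (nat_lit 100)) (.br (Nat.shiftLeft (nat_lit 0x4000003) (nat_lit 100)) (.br (Nat.shiftLeft (nat_lit 0x1) (nat_lit 126)) (.one (nat_lit 0x300000400500b018000800a076c30511)) (.one (nat_lit 0x400000200500b018000400a097030511))) (.br (Nat.shiftLeft (nat_lit 0x1000001) (nat_lit 102)) (.one (nat_lit 0x400000300500b018000600a097030511)) (.br (Nat.shiftLeft (nat_lit 0x5) (nat_lit 124)) (.one (nat_lit 0x400000400500b018000800a097030511)) (.one (nat_lit 0x500000200500b018000400a0b7430511))))) (.br (Nat.shiftLeft (nat_lit 0x3) (nat_lit 125)) (.br (Nat.shiftLeft (nat_lit 0x1400001) (nat_lit 102)) (.one (nat_lit 0x500000300500b018000600a0b7430511)) (.one (nat_lit 0x500000400500b018000800a0b7430511))) (.br (Nat.shiftLeft (nat_lit 0x6000003) (nat_lit 100)) (.one (nat_lit 0x600000200500b018000400a0d7830511)) (.br (Nat.shiftLeft (nat_lit 0x1800001) (nat_lit 102)) (.one (nat_lit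 0x600000300500b018000600a0d7830511)) (.one (nat_lit 0x600000400500b018000800a0d7830511)))))))
def t145 : k145.all (jb2 57 fl b0) = true := by decide +kernel
noncomputable def k146 : KT := (.br (Nat.shiftLeft (nat_lit 0x9000003) (nat_lit 100)) (.br (Nat.shiftLeft (nat_lit 0x1) (nat_lit 127)) (.br (Nat.shiftLeft (nat_lit 0x7000003) (nat_lit 100)) (.one (nat_lit 0x700000200500b018000400a0f7c30511)) (.br (Nat.shiftLeft (nat_lit 0x1c00001) (nat_lit 102)) (.one (nat_lit 0x700000300500b018000600a0f7c30511)) (.one (nat_lit 0x700000400500b018000800a0f7c30511)))) (.br (Nat.shiftLeft (nat_lit 0x2000001) (nat_lit 102)) (.br (Nat.shiftLeft (nat_lit 0x8000003) (nat_lit 100)) (.one (nat_lit 0x800000200500b018000400a118030511)) (.one (nat_lit 0x800000300500b018000600a118030511))) (.br (Nat.shiftLeft (nat_lit 0x9) (nat_lit 124)) (.one (nat_lit 0x800000400500b018000800a118030511)) (.one (nat_lit 0x900000200500b018000400a138430511))))) (.br (Nat.shiftLeft (nat_lit 0x2800001) (nat_lit 102)) (.br (Nat.shiftLeft (nat_lit 0x5) (nat_lit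 125)) (.br (Nat.shiftLeft (nat_lit 0x2400001) (nat_lit 102)) (.one (nat_lit 0x900000300500b018000600a138430511)) (.one (nat_lit 0x900000400500b018000800a138430511))) (.br (Nat.shiftLeft (nat_lit 0xa000003) (nat_lit 100)) (.one (nat_lit 0xa00000200500b018000400a158830511)) (.one (nat_lit 0xa00000300500b018000600a158830511)))) (.br (Nat.shiftLeft (nat_lit 0xb000003) (nat_lit 100)) (.br (Nat.shiftLeft (nat_lit 0xb) (nat_lit 124)) (.one (nat_lit 0xa00000400500b018000800a158830511)) (.one (nat_lit 0xb00000200500b018000400a178c30511))) (.br (Nat.shiftLeft (nat_lit 0x2c00001) (nat_lit 102)) (.one (nat_lit 0xb00000300500b018000600a178c30511)) (.one (nat_lit 0xb00000400500b018000800a178c30511))))))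
def t146 : k146.all (jb2 57 fl b0) = true := by decide +kernel
noncomputable def s8 : KT := (.br (nat_lit 0x200300500b018400600a016030650) (.br (nat_lit 0x100000500b018200000a016030411) k141 (.br (nat_lit 0x100300500b018200600a016030650) k142 k143)) (.br (nat_lit 0x900000500b018200000a016132411) k144 (.br (nat_lit 0x600000400500b018000800a0d7830511) k145 k146)))
noncomputable def u8 : KT := (.br (Nat.shiftLeft (nat_lit 0x500c01) (nat_lit 68)) (.br (Nat.shiftLeft (nat_lit 0x1403) (nat_lit 78)) (.one (nat_lit 0x500b018000000a016030430)) (.one (nat_lit 0x500c00f000000a01801f400))) (.br (Nat.shiftLeft (nat_lit 0x500c011) (nat_lit 64)) (.one (nat_lit 0x500c010000000a018021400)) (.br (Nat.shiftLeft (nat_lit 0x2806009) (nat_lit 65)) (.one (nat_lit 0x500c011000000a018023400)) (.one (nat_lit 0x500c012000000a018025400)))))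
def w8 : u8.all (wj 57 s8) = true := by decide +kernel
def o8 : OkW 57 (jb2 57 fl) u8 := .lift s8 _ (.br _ _ _ (.br _ _ _ (.leaf b0 k141 t141) (.br _ _ _ (.leaf b0 k142 t142) (.leaf b0 k143 t143))) (.br _ _ _ (.leaf b0 k144 t144) (.br _ _ _ (.leaf b0 k145 t145) (.leaf b0 k146 t146)))) w8
noncomputable def k147 : KT := (.br (Nat.shiftLeft (nat_lit 0xc01) (nat_lit 102)) (.br (Nat.shiftLeft (nat_lit 0x801) (nat_lit 101)) (.br (Nat.shiftLeft (nat_lit 0x3) (nat_lit 100)) (.br (Nat.shiftLeft (nat_lit 0x1) (nat_lit 100)) (.one (nat_lit 0x500c013000000a018027400)) (.br (Nat.shiftLeft (nat_lit 0x1) (nat_lit 101)) (.one (nat_lit 0x100500c013000200a018027500)) (.one (nat_lit 0x200500c013000400a018027500)))) (.br (Nat.shiftLeft (nat_lit 0x1) (nat_lit 102)) (.one (nat_lit 0x300500c013000600a018027500)) (.br (Nat.shiftLeft (nat_lit 0x1) (nat_lit 112)) (.one (nat_lit 0x400500c013000800a018027500)) (.one (nat_lit 0x100000500c013200000a018026411))))) (.br (Nat.shiftLeft (nat_lit 0x1) (nat_lit 113)) (.br (Nat.shiftLeft (nat_lit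 0x1003) (nat_lit 100)) (.one (nat_lit 0x100200500c013200400a018027600)) (.br (Nat.shiftLeft (nat_lit 0x401) (nat_lit 102)) (.one (nat_lit 0x100300500c013200600a018027600)) (.one (nat_lit 0x100400500c013200800a018027600)))) (.br (Nat.shiftLeft (nat_lit 0x801) (nat_lit 102)) (.br (Nat.shiftLeft (nat_lit 0x1001) (nat_lit 101)) (.one (nat_lit 0x200000500c013400000a018026411)) (.one (nat_lit 0x200300500c013400600a018027600))) (.br (Nat.shiftLeft (nat_lit 0x3) (nat_lit 112)) (.one (nat_lit 0x200400500c013400800a018027600)) (.one (nat_lit 0x300000500c013600000a018026411)))))) (.br (Nat.shiftLeft (nat_lit 0x5) (nat_lit 113)) (.br (Nat.shiftLeft (nat_lit 0x3) (nat_lit 113)) (.br (Nat.shiftLeft (nat_lit 0x1) (nat_lit 114)) (.one (nat_lit 0x300400500c013600800a018027600)) (.br (Nat.shiftLeft (nat_lit 0x5) (nat_lit 112)) (.one (nat_lit 0x400000500c013800000a018026411)) (.one (nat_lit 0x500000500c013a00000a018026411)))) (.br (Nat.shiftLeft (nat_lit 0x1) (nat_lit 115)) (.br (Nat.shiftLeft (nat_lit 0x7) (nat_lit 112)) (.one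 (nat_lit 0x600000500c013c00000a018026411)) (.one (nat_lit 0x700000500c013e00000a018026411))) (.br (Nat.shiftLeft (nat_lit 0x9) (nat_lit 112)) (.one (nat_lit 0x800000500c013000000a018128411)) (.one (nat_lit 0x900000500c013200000a018128411))))) (.br (Nat.shiftLeft (nat_lit 0x1) (nat_lit 124)) (.br (Nat.shiftLeft (nat_lit 0xb) (nat_lit 112)) (.one (nat_lit 0xa00000500c013400000a018128411)) (.br (Nat.shiftLeft (nat_lit 0x3) (nat_lit 114)) (.one (nat_lit 0xb00000500c013600000a018128411)) (.one (nat_lit 0xc00000500c013800000a018128411)))) (.br (Nat.shiftLeft (nat_lit 0x1000003) (nat_lit 100)) (.br (Nat.shiftLeft (nat_lit 0x800001) (nat_lit 101)) (.one (nat_lit 0x100000100500c013000200a038426511)) (.one (nat_lit 0x100000200500c013000400a038426511))) (.br (Nat.shiftLeft (nat_lit 0x400001) (nat_lit 102)) (.one (nat_lit 0x100000300500c013000600a038426511)) (.one (nat_lit 0x100000400500c013000800a038426511)))))))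
noncomputable def b148 : BT := .node (nat_lit 0x1b) (nat_lit 0x51349d13a9b6493b274b6cc9804c2001096800329f000ca80002b19000cb60002aa70e58c9d25146d99304a2851326013a8a2696428a36cdb68938004ea6001ab1a004e89801235a006ea60013a5f0050964012b19000cb6401329d176c92c64c249c24e49824e949c13a800b2d8002aaa00132da000cb6800ba98002cb6c393826113a5b66db427513a89824c06d993a89d4db46d9944c9d493949ca4e09d44c1006ea7000ab18004ea6401231f002ea640232d9004cb64002b19002ea60022358007096401b2d8000cb680132a11e74930898051327513012c49642600017538005d4c0027532009950000753400194f8744c9d44c1289b6cd2c6001d2f800654200250c800563016d913092c651328a13adb6496428a24e49d44c1004c9a0012b18004ea6400b2a0007096401a359000cb6401b2a0127325912c6001d4d00075300d1328a13a8003a99000ca7c100ca700ca700b92009c6008b0008b0008b0008b0008b0008b0008b00062e005190045f0045f0045f0045f0045f0045f0045f0045f002ee0028f0023000230002300023000230) .leaf .leaf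
def t147 : k147.all (jb2 57 fl b148) = true := by decide +kernel
noncomputable def k148 : KT := (.one (nat_lit 0x100200300500c013400600a038426760))
def t148 : k148.all (jb2 57 fl b0) = true := by decide +kernel
noncomputable def k149 : KT := (.one (nat_lit 0x100200400500c013400800a038426760))
def t149 : k149.all (jb2 57 fl b0) = true := by decide +kernel
noncomputable def k150 : KT := (.br (Nat.shiftLeft (nat_lit 0x2000003) (nat_lit 100)) (.br (Nat.shiftLeft (nat_lit 0x1) (nat_lit 125)) (.one (nat_lit 0x100300400500c013600800a038426760)) (.br (Nat.shiftLeft (nat_lit 0x1000001) (nat_lit 101)) (.one (nat_lit 0x200000100500c013000200a058826511)) (.one (nat_lit 0x200000200500c013000400a058826511)))) (.br (Nat.shiftLeft (nat_lit 0x800001) (nat_lit 102)) (.one (nat_lit 0x200000300500c013000600a058826511)) (.br (Nat.shiftLeft (nat_lit 0x1001) (nat_lit 113)) (.one (nat_lit 0x200000400500c013000800a058826511)) (.one (nat_lit 0x200300400500c013600800a058826760)))))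
def t150 : k150.all (jb2 57 fl b0) = true := by decide +kernel
noncomputable def k151 : KT := (.br (Nat.shiftLeft (nat_lit 0x4000003) (nat_lit 100)) (.br (Nat.shiftLeft (nat_lit 0xc00001) (nat_lit 102)) (.br (Nat.shiftLeft (nat_lit 0x1800001) (nat_lit 101)) (.one (nat_lit 0x300000100500c013000200a078c26511)) (.br (Nat.shiftLeft (nat_lit 0x3000003) (nat_lit 100)) (.one (nat_lit 0x300000200500c013000400a078c26511)) (.one (nat_lit 0x300000300500c013000600a078c26511)))) (.br (Nat.shiftLeft (nat_lit 0x1) (nat_lit 126)) (.one (nat_lit 0x300000400500c013000800a078c26511)) (.br (Nat.shiftLeft (nat_lit 0x2000001) (nat_lit 101)) (.one (nat_lit 0x400000100500c013000200a099026511)) (.one (nat_lit 0x400000200500c013000400a099026511))))) (.br (Nat.shiftLeft (nat_lit 0x2800001) (nat_lit 101)) (.br (Nat.shiftLeft (nat_lit 0x1000001) (nat_lit 102)) (.one (nat_lit 0x400000300500c013000600a099026511)) (.br (Nat.shiftLeft (nat_lit 0x5) (nat_lit 124)) (.one (nat_lit 0x400000400500c013000800a099026511)) (.one (nat_lit 0x500000100500c013000200a0b9426511))))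 (.br (Nat.shiftLeft (nat_lit 0x5000003) (nat_lit 100)) (.one (nat_lit 0x500000200500c013000400a0b9426511)) (.br (Nat.shiftLeft (nat_lit 0x1400001) (nat_lit 102)) (.one (nat_lit 0x500000300500c013000600a0b9426511)) (.one (nat_lit 0x500000400500c013000800a0b9426511))))))
def t151 : k151.all (jb2 57 fl b0) = true := by decide +kernel
noncomputable def k152 : KT := (.br (Nat.shiftLeft (nat_lit 0x6000003) (nat_lit 100)) (.br (Nat.shiftLeft (nat_lit 0x3000001) (nat_lit 101)) (.one (nat_lit 0x600000100500c013000200a0d9826511)) (.one (nat_lit 0x600000200500c013000400a0d9826511))) (.br (Nat.shiftLeft (nat_lit 0x1800001) (nat_lit 102)) (.one (nat_lit 0x600000300500c013000600a0d9826511)) (.br (Nat.shiftLeft (nat_lit 0x7) (nat_lit 124)) (.one (nat_lit 0x600000400500c013000800a0d9826511)) (.one (nat_lit 0x700000100500c013000200a0f9c26511)))))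
def t152 : k152.all (jb2 57 fl b0) = true := by decide +kernel
noncomputable def k153 : KT := (.br (Nat.shiftLeft (nat_lit 0x1c00001) (nat_lit 102)) (.br (Nat.shiftLeft (nat_lit 0x7000003) (nat_lit 100)) (.one (nat_lit 0x700000200500c013000400a0f9c26511)) (.one (nat_lit 0x700000300500c013000600a0f9c26511))) (.br (Nat.shiftLeft (nat_lit 0x1) (nat_lit 127)) (.one (nat_lit 0x700000400500c013000800a0f9c26511)) (.one (nat_lit 0x800000100500c013000200a11a026511))))
def t153 : k153.all (jb2 57 fl b0) = true := by decide +kernel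
noncomputable def k154 : KT := (.br (Nat.shiftLeft (nat_lit 0x2000001) (nat_lit 102)) (.br (Nat.shiftLeft (nat_lit 0x8000003) (nat_lit 100)) (.one (nat_lit 0x800000200500c013000400a11a026511)) (.one (nat_lit 0x800000300500c013000600a11a026511))) (.br (Nat.shiftLeft (nat_lit 0x9) (nat_lit 124)) (.one (nat_lit 0x800000400500c013000800a11a026511)) (.one (nat_lit 0x900000100500c013000200a13a426511))))
noncomputable def b155 : BT := .node (nat_lit 0x3) (nat_lit 0x5134b224e0004259000ea60196349b9300003a5c000cb6810010f000b00005000050) .leaf .leaf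
def t154 : k154.all (jb2 57 fl b155) = true := by decide +kernel
noncomputable def k155 : KT := (.br (Nat.shiftLeft (nat_lit 0x2400001) (nat_lit 102)) (.br (Nat.shiftLeft (nat_lit 0x9000003) (nat_lit 100)) (.one (nat_lit 0x900000200500c013000400a13a426511)) (.one (nat_lit 0x900000300500c013000600a13a426511))) (.br (Nat.shiftLeft (nat_lit 0x5) (nat_lit 125)) (.one (nat_lit 0x900000400500c013000800a13a426511)) (.one (nat_lit 0xa00000100500c013000200a15a826511))))
noncomputable def b156 : BT := .node (nat_lit 0x17) (nat_lit 0x27493a8982001d4d00065400ed9b6d0a289634b213a9b6896349c258d2724c04b213a49d4db327524e4004259002ac6401b2da004ca780132d8000ca7401ba5e002cb6402ba98004ab7c0132da006ab78693849c1305b644c128a00065b200195100064cc00158d0544d2c85136d924e49d4001d4c80065b000194f800563414e949c1304003a98000cb701db249c13a80032d8000ac6810069a0069a0069a0069a0069a0063b0041400414004140041400414004140041400359003590035900359003590029f00240002400024000240001e0) .leaf .leaf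
def t155 : k155.all (jb2 57 fl b156) = true := by decide +kernel
noncomputable def k156 : KT := (.br (Nat.shiftLeft (nat_lit 0xb) (nat_lit 124)) (.br (Nat.shiftLeft (nat_lit 0xa000003) (nat_lit 100)) (.one (nat_lit 0xa00000200500c013000400a15a826511)) (.br (Nat.shiftLeft (nat_lit 0x2800001) (nat_lit 102)) (.one (nat_lit 0xa00000300500c013000600a15a826511)) (.one (nat_lit 0xa00000400500c013000800a15a826511)))) (.br (Nat.shiftLeft (nat_lit 0x5800001) (nat_lit 101)) (.one (nat_lit 0xb00000100500c013000200a17ac26511)) (.br (Nat.shiftLeft (nat_lit 0xb000003) (nat_lit 100)) (.one (nat_lit 0xb00000200500c013000400a17ac26511)) (.one (nat_lit 0xb00000300500c013000600a17ac26511)))))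
noncomputable def b157 : BT := .node (nat_lit 0xb) (nat_lit 0x127293827524e09844ea6d913a8a2a001d4c0005636001d4d8005634001d2f00046b61ce949d13a9b64db349d13a92724c14b193aca28005d4d80065b2001d4c80155be009d4c00265b4005d30001563224b193a527200196c800653e0cea26013a9b644c1260a5912c6938000ea6000b2da002ea6800a2e6004ea6000b29d0e7513009824e926113a5b66db3275b6c89d6514002ea6000b2da002ea6c0032d8004cb6000aae0002ca8000ab1912589b6693a4b113a498093849c93a8004259000ab7c0032d9000ca80003a99000cb683db227493ac0032d9000ab801007d1006bb0054b0054b004eb003d6002660026600150000f0000f0000f0) .leaf .leaf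
def t156 : k156.all (jb2 57 fl b157) = true := by decide +kernel
noncomputable def k157 : KT := (.br (Nat.shiftLeft (nat_lit 0x800000401) (nat_lit 102)) (.br (Nat.shiftLeft (nat_lit 0x1000001003) (nat_lit 100)) (.br (Nat.shiftLeft (nat_lit 0xc000003) (nat_lit 100)) (.br (Nat.shiftLeft (nat_lit 0x3) (nat_lit 126)) (.one (nat_lit 0xb00000400500c013000800a17ac26511)) (.br (Nat.shiftLeft (nat_lit 0x6000001) (nat_lit 101)) (.one (nat_lit 0xc00000100500c013000200a19b026511)) (.one (nat_lit 0xc00000200500c013000400a19b026511)))) (.br (Nat.shiftLeft (nat_lit 0x3000001) (nat_lit 102)) (.one (nat_lit 0xc00000300500c013000600a19b026511)) (.br (Nat.shiftLeft (nat_lit 0x1) (nat_lit 136)) (.one (nat_lit 0xc00000400500c013000800a19b026511)) (.one (nat_lit 0x100000100200500c013200402a418026611))))) (.br (Nat.shiftLeft (nat_lit 0x400000801) (nat_lit 102)) (.br (Nat.shiftLeft (nat_lit 0x400000401) (nat_lit 102)) (.one (nat_lit 0x100000100300500c013200602a418026611)) (.br (Nat.shiftLeft (nat_lit 0x800001) (nat_lit 113)) (.one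 (nat_lit 0x100000100400500c013200802a418026611)) (.one (nat_lit 0x100000200300500c013400602a418026611)))) (.br (Nat.shiftLeft (nat_lit 0x1) (nat_lit 137)) (.br (Nat.shiftLeft (nat_lit 0x1000003) (nat_lit 112)) (.one (nat_lit 0x100000200400500c013400802a418026611)) (.one (nat_lit 0x100000300400500c013600802a418026611))) (.br (Nat.shiftLeft (nat_lit 0x2000001003) (nat_lit 100)) (.one (nat_lit 0x200000100200500c013200404a818026611)) (.one (nat_lit 0x200000100300500c013200604a818026611)))))) (.br (Nat.shiftLeft (nat_lit 0x1800001) (nat_lit 113)) (.br (Nat.shiftLeft (nat_lit 0x2000003) (nat_lit 112)) (.br (Nat.shiftLeft (nat_lit 0x1000001) (nat_lit 113)) (.one (nat_lit 0x200000100400500c013200804a818026611)) (.br (Nat.shiftLeft (nat_lit 0x800000801) (nat_lit 102)) (.one (nat_lit 0x200000200300500c013400604a818026611)) (.one (nat_lit 0x200000200400500c013400804a818026611)))) (.br (Nat.shiftLeft (nat_lit 0x3000001003) (nat_lit 100)) (.br (Nat.shiftLeft (nat_lit 0x3) (nat_lit 136)) (.one (nat_lit 0x200000300400500c013600804a818026611))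 (.one (nat_lit 0x300000100200500c013200406ac18026611))) (.br (Nat.shiftLeft (nat_lit 0xc00000401) (nat_lit 102)) (.one (nat_lit 0x300000100300500c013200606ac18026611)) (.one (nat_lit 0x300000100400500c013200806ac18026611))))) (.br (Nat.shiftLeft (nat_lit 0x1) (nat_lit 138)) (.br (Nat.shiftLeft (nat_lit 0xc00000801) (nat_lit 102)) (.one (nat_lit 0x300000200300500c013400606ac18026611)) (.br (Nat.shiftLeft (nat_lit 0x3000003) (nat_lit 112)) (.one (nat_lit 0x300000200400500c013400806ac18026611)) (.one (nat_lit 0x300000300400500c013600806ac18026611)))) (.br (Nat.shiftLeft (nat_lit 0x1000000401) (nat_lit 102)) (.br (Nat.shiftLeft (nat_lit 0x4000001003) (nat_lit 100)) (.one (nat_lit 0x400000100200500c013200408b018026611)) (.one (nat_lit 0x400000100300500c013200608b018026611))) (.br (Nat.shiftLeft (nat_lit 0x2000001) (nat_lit 113)) (.one (nat_lit 0x400000100400500c013200808b018026611)) (.one (nat_lit 0x400000200300500c013400608b018026611)))))))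
noncomputable def b158 : BT := .node (nat_lit 0x1) (nat_lit 0x36cdb6693a289b6cca26962274a4ec0032d9000ca7c004259000ac600032d8000ca8430013e00028) .leaf .leaf
def t157 : k157.all (jb2 57 fl b158) = true := by decide +kernel
noncomputable def k158 : KT := (.br (Nat.shiftLeft (nat_lit 0x5) (nat_lit 136)) (.br (Nat.shiftLeft (nat_lit 0x4000003) (nat_lit 112)) (.one (nat_lit 0x400000200400500c013400808b018026611)) (.one (nat_lit 0x400000300400500c013600808b018026611))) (.br (Nat.shiftLeft (nat_lit 0x5000001003) (nat_lit 100)) (.one (nat_lit 0x500000100200500c01320040ab418026611)) (.br (Nat.shiftLeft (nat_lit 0x1400000401) (nat_lit 102)) (.one (nat_lit 0x500000100300500c01320060ab418026611)) (.one (nat_lit 0x500000100400500c01320080ab418026611)))))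
def t158 : k158.all (jb2 57 fl b0) = true := by decide +kernel
noncomputable def k159 : KT := (.br (Nat.shiftLeft (nat_lit 0x5000003) (nat_lit 112)) (.br (Nat.shiftLeft (nat_lit 0x1400000801) (nat_lit 102)) (.one (nat_lit 0x500000200300500c01340060ab418026611)) (.one (nat_lit 0x500000200400500c01340080ab418026611))) (.br (Nat.shiftLeft (nat_lit 0x3) (nat_lit 137)) (.one (nat_lit 0x500000300400500c01360080ab418026611)) (.one (nat_lit 0x600000100200500c01320040cb818026611))))
def t159 : k159.all (jb2 57 fl b0) = true := by decide +kernel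
noncomputable def k160 : KT := (.br (Nat.shiftLeft (nat_lit 0x3000001) (nat_lit 113)) (.br (Nat.shiftLeft (nat_lit 0x1800000401) (nat_lit 102)) (.one (nat_lit 0x600000100300500c01320060cb818026611)) (.one (nat_lit 0x600000100400500c01320080cb818026611))) (.br (Nat.shiftLeft (nat_lit 0x1800000801) (nat_lit 102)) (.one (nat_lit 0x600000200300500c01340060cb818026611)) (.one (nat_lit 0x600000200400500c01340080cb818026611))))
def t160 : k160.all (jb2 57 fl b0) = true := by decide +kernel
noncomputable def k161 : KT := (.br (Nat.shiftLeft (nat_lit 0x7000001003) (nat_lit 100)) (.br (Nat.shiftLeft (nat_lit 0x7) (nat_lit 136)) (.one (nat_lit 0x600000300400500c01360080cb818026611)) (.one (nat_lit 0x700000100200500c01320040ebc18026611))) (.br (Nat.shiftLeft (nat_lit 0x1c00000401) (nat_lit 102)) (.one (nat_lit 0x700000100300500c01320060ebc18026611)) (.one (nat_lit 0x700000100400500c01320080ebc18026611))))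
def t161 : k161.all (jb2 57 fl b0) = true := by decide +kernel
noncomputable def k162 : KT := (.br (Nat.shiftLeft (nat_lit 0x7000003) (nat_lit 112)) (.br (Nat.shiftLeft (nat_lit 0x1c00000801) (nat_lit 102)) (.one (nat_lit 0x700000200300500c01340060ebc18026611)) (.one (nat_lit 0x700000200400500c01340080ebc18026611))) (.br (Nat.shiftLeft (nat_lit 0x1) (nat_lit 139)) (.one (nat_lit 0x700000300400500c01360080ebc18026611)) (.br (Nat.shiftLeft (nat_lit 0x8000001003) (nat_lit 100)) (.one (nat_lit 0x800000100200500c013200410c018026611)) (.one (nat_lit 0x800000100300500c013200610c018026611)))))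
def t162 : k162.all (jb2 57 fl b0) = true := by decide +kernel
noncomputable def k163 : KT := (.br (Nat.shiftLeft (nat_lit 0x8000003) (nat_lit 112)) (.br (Nat.shiftLeft (nat_lit 0x4000001) (nat_lit 113)) (.one (nat_lit 0x800000100400500c013200810c018026611)) (.br (Nat.shiftLeft (nat_lit 0x2000000801) (nat_lit 102)) (.one (nat_lit 0x800000200300500c013400610c018026611)) (.one (nat_lit 0x800000200400500c013400810c018026611)))) (.br (Nat.shiftLeft (nat_lit 0x9) (nat_lit 136)) (.one (nat_lit 0x800000300400500c013600810c018026611)) (.br (Nat.shiftLeft (nat_lit 0x9000001003) (nat_lit 100)) (.one (nat_lit 0x900000100200500c013200412c418026611)) (.one (nat_lit 0x900000100300500c013200612c418026611)))))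
def t163 : k163.all (jb2 57 fl b0) = true := by decide +kernel
noncomputable def k164 : KT := (.br (Nat.shiftLeft (nat_lit 0xa000001003) (nat_lit 100)) (.br (Nat.shiftLeft (nat_lit 0x2400000801) (nat_lit 102)) (.br (Nat.shiftLeft (nat_lit 0x4800001) (nat_lit 113)) (.one (nat_lit 0x900000100400500c013200812c418026611)) (.one (nat_lit 0x900000200300500c013400612c418026611))) (.br (Nat.shiftLeft (nat_lit 0x9000003) (nat_lit 112)) (.one (nat_lit 0x900000200400500c013400812c418026611)) (.br (Nat.shiftLeft (nat_lit 0x5) (nat_lit 137)) (.one (nat_lit 0x900000300400500c013600812c418026611)) (.one (nat_lit 0xa00000100200500c013200414c818026611))))) (.br (Nat.shiftLeft (nat_lit 0x5000001) (nat_lit 113)) (.br (Nat.shiftLeft (nat_lit 0x2800000401) (nat_lit 102)) (.one (nat_lit 0xa00000100300500c013200614c818026611)) (.one (nat_lit 0xa00000100400500c013200814c818026611))) (.br (Nat.shiftLeft (nat_lit 0x2800000801) (nat_lit 102)) (.one (nat_lit 0xa00000200300500c013400614c818026611)) (.br (Nat.shiftLeft (nat_lit 0xa000003)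 (nat_lit 112)) (.one (nat_lit 0xa00000200400500c013400814c818026611)) (.one (nat_lit 0xa00000300400500c013600814c818026611))))))
def t164 : k164.all (jb2 57 fl b0) = true := by decide +kernel
noncomputable def k165 : KT := (.br (Nat.shiftLeft (nat_lit 0x3) (nat_lit 138)) (.br (Nat.shiftLeft (nat_lit 0x5800001) (nat_lit 113)) (.br (Nat.shiftLeft (nat_lit 0xb000001003) (nat_lit 100)) (.one (nat_lit 0xb00000100200500c013200416cc18026611)) (.br (Nat.shiftLeft (nat_lit 0x2c00000401) (nat_lit 102)) (.one (nat_lit 0xb00000100300500c013200616cc18026611)) (.one (nat_lit 0xb00000100400500c013200816cc18026611)))) (.br (Nat.shiftLeft (nat_lit 0x2c00000801) (nat_lit 102)) (.one (nat_lit 0xb00000200300500c013400616cc18026611)) (.br (Nat.shiftLeft (nat_lit 0xb000003) (nat_lit 112)) (.one (nat_lit 0xb00000200400500c013400816cc18026611)) (.one (nat_lit 0xb00000300400500c013600816cc18026611))))) (.br (Nat.shiftLeft (nat_lit 0x6000001) (nat_lit 113)) (.br (Nat.shiftLeft (nat_lit 0xc000001003) (nat_lit 100)) (.one (nat_lit 0xc00000100200500c013200418d018026611))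 (.br (Nat.shiftLeft (nat_lit 0x3000000401) (nat_lit 102)) (.one (nat_lit 0xc00000100300500c013200618d018026611)) (.one (nat_lit 0xc00000100400500c013200818d018026611)))) (.br (Nat.shiftLeft (nat_lit 0x3000000801) (nat_lit 102)) (.one (nat_lit 0xc00000200300500c013400618d018026611)) (.br (Nat.shiftLeft (nat_lit 0xc000003) (nat_lit 112)) (.one (nat_lit 0xc00000200400500c013400818d018026611)) (.one (nat_lit 0xc00000300400500c013600818d018026611))))))
def t165 : k165.all (jb2 57 fl b0) = true := by decide +kernel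
noncomputable def s9 : KT := (.br (nat_lit 0xa00000100500c013000200a15a826511) (.br (nat_lit 0x200300400500c013600800a058826760) (.br (nat_lit 0x100200300500c013400600a038426760) (.br (nat_lit 0x100000400500c013000800a038426511) k147 k148) (.br (nat_lit 0x100200400500c013400800a038426760) k149 k150)) (.br (nat_lit 0x700000100500c013000200a0f9c26511) (.br (nat_lit 0x500000400500c013000800a0b9426511) k151 k152) (.br (nat_lit 0x800000100500c013000200a11a026511) k153 (.br (nat_lit 0x900000100500c013000200a13a426511) k154 k155)))) (.br (nat_lit 0x600000200400500c01340080cb818026611) (.br (nat_lit 0x400000200300500c013400608b018026611) (.br (nat_lit 0xb00000300500c013000600a17ac26511) k156 k157) (.br (nat_lit 0x500000100400500c01320080ab418026611) k158 (.br (nat_lit 0x600000100200500c01320040cb818026611) k159 k160))) (.br (nat_lit 0x800000100300500c013200610c018026611) (.br (nat_lit 0x700000100400500c01320080ebc18026611) k161 k162) (.br (nat_lit 0x900000100300500c013200612c418026611) k163 (.br (nat_lit 0xa00000300400500c013600814c818026611)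 k164 k165)))))
noncomputable def u9 : KT := (.one (nat_lit 0x500c013000000a018026430))
def w9 : u9.all (wj 57 s9) = true := by decide +kernel
def o9 : OkW 57 (jb2 57 fl) u9 := .lift s9 _ (.br _ _ _ (.br _ _ _ (.br _ _ _ (.br _ _ _ (.leaf b148 k147 t147) (.leaf b0 k148 t148)) (.br _ _ _ (.leaf b0 k149 t149) (.leaf b0 k150 t150))) (.br _ _ _ (.br _ _ _ (.leaf b0 k151 t151) (.leaf b0 k152 t152)) (.br _ _ _ (.leaf b0 k153 t153) (.br _ _ _ (.leaf b155 k154 t154) (.leaf b156 k155 t155))))) (.br _ _ _ (.br _ _ _ (.br _ _ _ (.leaf b157 k156 t156) (.leaf b158 k157 t157)) (.br _ _ _ (.leaf b0 k158 t158) (.br _ _ _ (.leaf b0 k159 t159) (.leaf b0 k160 t160)))) (.br _ _ _ (.br _ _ _ (.leaf b0 k161 t161) (.leaf b0 k162 t162)) (.br _ _ _ (.leaf b0 k163 t163) (.br _ _ _ (.leaf b0 k164 t164) (.leaf b0 k165 t165)))))) w9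
noncomputable def k166 : KT := (.br (Nat.shiftLeft (nat_lit 0x1) (nat_lit 113)) (.br (Nat.shiftLeft (nat_lit 0x1) (nat_lit 102)) (.br (Nat.shiftLeft (nat_lit 0x1) (nat_lit 101)) (.br (Nat.shiftLeft (nat_lit 0x1) (nat_lit 100)) (.one (nat_lit 0x500c014000000a018029400)) (.one (nat_lit 0x100500c014000200a018029500))) (.br (Nat.shiftLeft (nat_lit 0x3) (nat_lit 100)) (.one (nat_lit 0x200500c014000400a018029500)) (.one (nat_lit 0x300500c014000600a018029500)))) (.br (Nat.shiftLeft (nat_lit 0x801) (nat_lit 101)) (.br (Nat.shiftLeft (nat_lit 0x1) (nat_lit 112)) (.one (nat_lit 0x400500c014000800a018029500)) (.one (nat_lit 0x100000500c014200000a018028411))) (.br (Nat.shiftLeft (nat_lit 0x1003) (nat_lit 100)) (.one (nat_lit 0x100200500c014200400a018029600)) (.br (Nat.shiftLeft (nat_lit 0x401) (nat_lit 102)) (.one (nat_lit 0x100300500c014200600a018029600)) (.one (nat_lit 0x100400500c014200800a018028650)))))) (.br (Nat.shiftLeft (nat_lit 0xc01) (nat_lit 102)) (.br (Nat.shiftLeft (nat_lit 0x801) (nat_lit 102)) (.br (Nat.shiftLeft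 (nat_lit 0x1001) (nat_lit 101)) (.one (nat_lit 0x200000500c014400000a018028411)) (.one (nat_lit 0x200300500c014400600a018029600))) (.br (Nat.shiftLeft (nat_lit 0x3) (nat_lit 112)) (.one (nat_lit 0x200400500c014400800a018029600)) (.one (nat_lit 0x300000500c014600000a018028411)))) (.br (Nat.shiftLeft (nat_lit 0x5) (nat_lit 112)) (.br (Nat.shiftLeft (nat_lit 0x1) (nat_lit 114)) (.one (nat_lit 0x300400500c014600800a018029600)) (.one (nat_lit 0x400000500c014800000a018028411))) (.br (Nat.shiftLeft (nat_lit 0x3) (nat_lit 113)) (.one (nat_lit 0x500000500c014a00000a018028411)) (.br (Nat.shiftLeft (nat_lit 0x7) (nat_lit 112)) (.one (nat_lit 0x600000500c014c00000a018028411)) (.one (nat_lit 0x700000500c014e00000a018028411)))))))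
def t166 : k166.all (jb2 57 fl b0) = true := by decide +kernel
noncomputable def k167 : KT := (.br (Nat.shiftLeft (nat_lit 0x1) (nat_lit 124)) (.br (Nat.shiftLeft (nat_lit 0x5) (nat_lit 113)) (.br (Nat.shiftLeft (nat_lit 0x9) (nat_lit 112)) (.one (nat_lit 0x800000500c014000000a01812a411)) (.one (nat_lit 0x900000500c014200000a01812a411))) (.br (Nat.shiftLeft (nat_lit 0xb) (nat_lit 112)) (.one (nat_lit 0xa00000500c014400000a01812a411)) (.br (Nat.shiftLeft (nat_lit 0x3) (nat_lit 114)) (.one (nat_lit 0xb00000500c014600000a01812a411)) (.one (nat_lit 0xc00000500c014800000a01812a411))))) (.br (Nat.shiftLeft (nat_lit 0x1000003) (nat_lit 100)) (.br (Nat.shiftLeft (nat_lit 0x800001) (nat_lit 101)) (.one (nat_lit 0x100000100500c014000200a038428511)) (.one (nat_lit 0x100000200500c014000400a038428511))) (.br (Nat.shiftLeft (nat_lit 0x400001) (nat_lit 102)) (.one (nat_lit 0x100000300500c014000600a038428511)) (.br (Nat.shiftLeft (nat_lit 0x801) (nat_lit 113)) (.one (nat_lit 0x100000400500c014000800a038428511)) (.one (nat_lit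 0x100200300500c014400600a038428760))))))
noncomputable def b168 : BT := .node (nat_lit 0xb) (nat_lit 0x93849c93adb664c1275800753000158e800654000157005b64db349c36c89849632749304984001d4c80065b00019508005630001d3000065b61c9c93a8982db24b1a58c0032db000ca80003a98000ac6429d44c226000074c200196c83b6693828a144d2724c24b193052709636da130c00421d0008d64003a5e000ca880032db000ca740042590008ba040054c0054c0054c00491004910037b002c0002c00026100261000f0000f0) .leaf .leaf
def t167 : k167.all (jb2 57 fl b168) = true := by decide +kernel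
noncomputable def k168 : KT := (.br (Nat.shiftLeft (nat_lit 0x1000001) (nat_lit 101)) (.br (Nat.shiftLeft (nat_lit 0x1003) (nat_lit 112)) (.one (nat_lit 0x100200400500c014400800a038428760)) (.br (Nat.shiftLeft (nat_lit 0x1) (nat_lit 125)) (.one (nat_lit 0x100300400500c014600800a038428760)) (.one (nat_lit 0x200000100500c014000200a058828511)))) (.br (Nat.shiftLeft (nat_lit 0x2000003) (nat_lit 100)) (.one (nat_lit 0x200000200500c014000400a058828511)) (.br (Nat.shiftLeft (nat_lit 0x800001) (nat_lit 102)) (.one (nat_lit 0x200000300500c014000600a058828511)) (.one (nat_lit 0x200000400500c014000800a058828511)))))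
def t168 : k168.all (jb2 57 fl b0) = true := by decide +kernel
noncomputable def k169 : KT := (.br (Nat.shiftLeft (nat_lit 0x1) (nat_lit 126)) (.br (Nat.shiftLeft (nat_lit 0x1800001) (nat_lit 101)) (.br (Nat.shiftLeft (nat_lit 0x3) (nat_lit 124)) (.one (nat_lit 0x200300400500c014600800a058828760)) (.one (nat_lit 0x300000100500c014000200a078c28511))) (.br (Nat.shiftLeft (nat_lit 0x3000003) (nat_lit 100)) (.one (nat_lit 0x300000200500c014000400a078c28511)) (.br (Nat.shiftLeft (nat_lit 0xc00001) (nat_lit 102)) (.one (nat_lit 0x300000300500c014000600a078c28511)) (.one (nat_lit 0x300000400500c014000800a078c28511))))) (.br (Nat.shiftLeft (nat_lit 0x1000001) (nat_lit 102)) (.br (Nat.shiftLeft (nat_lit 0x2000001) (nat_lit 101)) (.one (nat_lit 0x400000100500c014000200a099028511)) (.br (Nat.shiftLeft (nat_lit 0x4000003) (nat_lit 100)) (.one (nat_lit 0x400000200500c014000400a099028511)) (.one (nat_lit 0x400000300500c014000600a099028511)))) (.br (Nat.shiftLeft (nat_lit 0x5) (nat_lit 124)) (.one (nat_lit 0x400000400500c014000800a099028511))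 (.br (Nat.shiftLeft (nat_lit 0x2800001) (nat_lit 101)) (.one (nat_lit 0x500000100500c014000200a0b9428511)) (.one (nat_lit 0x500000200500c014000400a0b9428511))))))
def t169 : k169.all (jb2 57 fl b0) = true := by decide +kernel
noncomputable def k170 : KT := (.br (Nat.shiftLeft (nat_lit 0x3000001) (nat_lit 101)) (.br (Nat.shiftLeft (nat_lit 0x1400001) (nat_lit 102)) (.one (nat_lit 0x500000300500c014000600a0b9428511)) (.br (Nat.shiftLeft (nat_lit 0x3) (nat_lit 125)) (.one (nat_lit 0x500000400500c014000800a0b9428511)) (.one (nat_lit 0x600000100500c014000200a0d9828511)))) (.br (Nat.shiftLeft (nat_lit 0x6000003) (nat_lit 100)) (.one (nat_lit 0x600000200500c014000400a0d9828511)) (.br (Nat.shiftLeft (nat_lit 0x1800001) (nat_lit 102)) (.one (nat_lit 0x600000300500c014000600a0d9828511)) (.one (nat_lit 0x600000400500c014000800a0d9828511)))))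
def t170 : k170.all (jb2 57 fl b0) = true := by decide +kernel
noncomputable def k171 : KT := (.br (Nat.shiftLeft (nat_lit 0x7000003) (nat_lit 100)) (.br (Nat.shiftLeft (nat_lit 0x3800001) (nat_lit 101)) (.one (nat_lit 0x700000100500c014000200a0f9c28511)) (.one (nat_lit 0x700000200500c014000400a0f9c28511))) (.br (Nat.shiftLeft (nat_lit 0x1c00001) (nat_lit 102)) (.one (nat_lit 0x700000300500c014000600a0f9c28511)) (.br (Nat.shiftLeft (nat_lit 0x1) (nat_lit 127)) (.one (nat_lit 0x700000400500c014000800a0f9c28511)) (.one (nat_lit 0x800000100500c014000200a11a028511)))))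
def t171 : k171.all (jb2 57 fl b0) = true := by decide +kernel
noncomputable def k172 : KT := (.br (Nat.shiftLeft (nat_lit 0x9) (nat_lit 124)) (.br (Nat.shiftLeft (nat_lit 0x8000003) (nat_lit 100)) (.one (nat_lit 0x800000200500c014000400a11a028511)) (.br (Nat.shiftLeft (nat_lit 0x2000001) (nat_lit 102)) (.one (nat_lit 0x800000300500c014000600a11a028511)) (.one (nat_lit 0x800000400500c014000800a11a028511)))) (.br (Nat.shiftLeft (nat_lit 0x4800001) (nat_lit 101)) (.one (nat_lit 0x900000100500c014000200a13a428511)) (.br (Nat.shiftLeft (nat_lit 0x9000003) (nat_lit 100)) (.one (nat_lit 0x900000200500c014000400a13a428511)) (.one (nat_lit 0x900000300500c014000600a13a428511)))))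
def t172 : k172.all (jb2 57 fl b0) = true := by decide +kernel
noncomputable def k173 : KT := (.br (Nat.shiftLeft (nat_lit 0x2800001) (nat_lit 102)) (.br (Nat.shiftLeft (nat_lit 0x5000001) (nat_lit 101)) (.br (Nat.shiftLeft (nat_lit 0x5) (nat_lit 125)) (.one (nat_lit 0x900000400500c014000800a13a428511)) (.one (nat_lit 0xa00000100500c014000200a15a828511))) (.br (Nat.shiftLeft (nat_lit 0xa000003) (nat_lit 100)) (.one (nat_lit 0xa00000200500c014000400a15a828511)) (.one (nat_lit 0xa00000300500c014000600a15a828511)))) (.br (Nat.shiftLeft (nat_lit 0x5800001) (nat_lit 101)) (.br (Nat.shiftLeft (nat_lit 0xb) (nat_lit 124)) (.one (nat_lit 0xa00000400500c014000800a15a828511)) (.one (nat_lit 0xb00000100500c014000200a17ac28511))) (.br (Nat.shiftLeft (nat_lit 0xb000003) (nat_lit 100)) (.one (nat_lit 0xb00000200500c014000400a17ac28511)) (.br (Nat.shiftLeft (nat_lit 0x2c00001) (nat_lit 102)) (.one (nat_lit 0xb00000300500c014000600a17ac28511)) (.one (nat_lit 0xb00000400500c014000800a17ac28511))))))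
noncomputable def b174 : BT := .node (nat_lit 0xb) (nat_lit 0x36cc97a963000cb60002b18076c8a26514289a4e92704ea49c13080032d8002ac6800c21f004cb6000ba98002ca883db3275144c003a990008d601002c6002c600266002660026600150000f0000f0000f0000f0000f0000f0) .leaf .leaf
def t173 : k173.all (jb2 57 fl b174) = true := by decide +kernel
noncomputable def k174 : KT := (.br (Nat.shiftLeft (nat_lit 0x800000801) (nat_lit 102)) (.br (Nat.shiftLeft (nat_lit 0x800001) (nat_lit 113)) (.br (Nat.shiftLeft (nat_lit 0x3000001) (nat_lit 102)) (.br (Nat.shiftLeft (nat_lit 0x6000001) (nat_lit 101)) (.one (nat_lit 0xc00000100500c014000200a19b028511)) (.br (Nat.shiftLeft (nat_lit 0xc000003) (nat_lit 100)) (.one (nat_lit 0xc00000200500c014000400a19b028511)) (.one (nat_lit 0xc00000300500c014000600a19b028511)))) (.br (Nat.shiftLeft (nat_lit 0x1) (nat_lit 136)) (.one (nat_lit 0xc00000400500c014000800a19b028511)) (.br (Nat.shiftLeft (nat_lit 0x1000001003) (nat_lit 100)) (.one (nat_lit 0x100000100200500c014200402a418028611)) (.one (nat_lit 0x100000100300500c014200602a418028611)))))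 (.br (Nat.shiftLeft (nat_lit 0x1) (nat_lit 137)) (.br (Nat.shiftLeft (nat_lit 0x400000801) (nat_lit 102)) (.one (nat_lit 0x100000200300500c014400602a418028611)) (.br (Nat.shiftLeft (nat_lit 0x1000003) (nat_lit 112)) (.one (nat_lit 0x100000200400500c014400802a418028611)) (.one (nat_lit 0x100000300400500c014600802a418028611)))) (.br (Nat.shiftLeft (nat_lit 0x2000001003) (nat_lit 100)) (.one (nat_lit 0x200000100200500c014200404a818028611)) (.br (Nat.shiftLeft (nat_lit 0x1000001) (nat_lit 113)) (.one (nat_lit 0x200000100300500c014200604a818028611)) (.one (nat_lit 0x200000200300500c014400604a818028611)))))) (.br (Nat.shiftLeft (nat_lit 0x3000003) (nat_lit 112)) (.br (Nat.shiftLeft (nat_lit 0x3000001003) (nat_lit 100)) (.br (Nat.shiftLeft (nat_lit 0x2000003) (nat_lit 112)) (.one (nat_lit 0x200000200400500c014400804a818028611)) (.br (Nat.shiftLeft (nat_lit 0x3) (nat_lit 136)) (.one (nat_lit 0x200000300400500c014600804a818028611)) (.one (nat_lit 0x300000100200500c014200406ac18028611)))) (.br (Nat.shiftLeft (nat_lit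 0x1800001) (nat_lit 113)) (.one (nat_lit 0x300000100300500c014200606ac18028611)) (.br (Nat.shiftLeft (nat_lit 0xc00000801) (nat_lit 102)) (.one (nat_lit 0x300000200300500c014400606ac18028611)) (.one (nat_lit 0x300000200400500c014400806ac18028611))))) (.br (Nat.shiftLeft (nat_lit 0x2000001) (nat_lit 113)) (.br (Nat.shiftLeft (nat_lit 0x1) (nat_lit 138)) (.one (nat_lit 0x300000300400500c014600806ac18028611)) (.br (Nat.shiftLeft (nat_lit 0x4000001003) (nat_lit 100)) (.one (nat_lit 0x400000100200500c014200408b018028611)) (.one (nat_lit 0x400000100300500c014200608b018028611)))) (.br (Nat.shiftLeft (nat_lit 0x4000003) (nat_lit 112)) (.br (Nat.shiftLeft (nat_lit 0x1000000801) (nat_lit 102)) (.one (nat_lit 0x400000200300500c014400608b018028611)) (.one (nat_lit 0x400000200400500c014400808b018028611))) (.br (Nat.shiftLeft (nat_lit 0x5) (nat_lit 136)) (.one (nat_lit 0x400000300400500c014600808b018028611)) (.one (nat_lit 0x500000100200500c01420040ab418028611)))))))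
def t174 : k174.all (jb2 57 fl b0) = true := by decide +kernel
noncomputable def k175 : KT := (.br (Nat.shiftLeft (nat_lit 0x1400000801) (nat_lit 102)) (.br (Nat.shiftLeft (nat_lit 0x2800001) (nat_lit 113)) (.one (nat_lit 0x500000100300500c01420060ab418028611)) (.one (nat_lit 0x500000200300500c01440060ab418028611))) (.br (Nat.shiftLeft (nat_lit 0x5000003) (nat_lit 112)) (.one (nat_lit 0x500000200400500c01440080ab418028611)) (.br (Nat.shiftLeft (nat_lit 0x3) (nat_lit 137)) (.one (nat_lit 0x500000300400500c01460080ab418028611)) (.one (nat_lit 0x600000100200500c01420040cb818028611)))))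
def t175 : k175.all (jb2 57 fl b0) = true := by decide +kernel
noncomputable def k176 : KT := (.br (Nat.shiftLeft (nat_lit 0x1800000801) (nat_lit 102)) (.br (Nat.shiftLeft (nat_lit 0x3000001) (nat_lit 113)) (.one (nat_lit 0x600000100300500c01420060cb818028611)) (.one (nat_lit 0x600000200300500c01440060cb818028611))) (.br (Nat.shiftLeft (nat_lit 0x6000003) (nat_lit 112)) (.one (nat_lit 0x600000200400500c01440080cb818028611)) (.br (Nat.shiftLeft (nat_lit 0x7) (nat_lit 136)) (.one (nat_lit 0x600000300400500c01460080cb818028611)) (.one (nat_lit 0x700000100200500c01420040ebc18028611)))))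
def t176 : k176.all (jb2 57 fl b0) = true := by decide +kernel
noncomputable def k177 : KT := (.br (Nat.shiftLeft (nat_lit 0x7000003) (nat_lit 112)) (.br (Nat.shiftLeft (nat_lit 0x3800001) (nat_lit 113)) (.one (nat_lit 0x700000100300500c01420060ebc18028611)) (.br (Nat.shiftLeft (nat_lit 0x1c00000801) (nat_lit 102)) (.one (nat_lit 0x700000200300500c01440060ebc18028611)) (.one (nat_lit 0x700000200400500c01440080ebc18028611)))) (.br (Nat.shiftLeft (nat_lit 0x8000001003) (nat_lit 100)) (.br (Nat.shiftLeft (nat_lit 0x1) (nat_lit 139)) (.one (nat_lit 0x700000300400500c01460080ebc18028611)) (.one (nat_lit 0x800000100200500c014200410c018028611))) (.br (Nat.shiftLeft (nat_lit 0x4000001) (nat_lit 113)) (.one (nat_lit 0x800000100300500c014200610c018028611)) (.one (nat_lit 0x800000200300500c014400610c018028611)))))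
def t177 : k177.all (jb2 57 fl b0) = true := by decide +kernel
noncomputable def k178 : KT := (.br (Nat.shiftLeft (nat_lit 0x5) (nat_lit 137)) (.br (Nat.shiftLeft (nat_lit 0x9000001003) (nat_lit 100)) (.br (Nat.shiftLeft (nat_lit 0x8000003) (nat_lit 112)) (.one (nat_lit 0x800000200400500c014400810c018028611)) (.br (Nat.shiftLeft (nat_lit 0x9) (nat_lit 136)) (.one (nat_lit 0x800000300400500c014600810c018028611)) (.one (nat_lit 0x900000100200500c014200412c418028611)))) (.br (Nat.shiftLeft (nat_lit 0x2400000801) (nat_lit 102)) (.br (Nat.shiftLeft (nat_lit 0x4800001) (nat_lit 113)) (.one (nat_lit 0x900000100300500c014200612c418028611)) (.one (nat_lit 0x900000200300500c014400612c418028611))) (.br (Nat.shiftLeft (nat_lit 0x9000003) (nat_lit 112)) (.one (nat_lit 0x900000200400500c014400812c418028611)) (.one (nat_lit 0x900000300400500c014600812c418028611))))) (.br (Nat.shiftLeft (nat_lit 0xa000003) (nat_lit 112)) (.br (Nat.shiftLeft (nat_lit 0x5000001) (nat_lit 113)) (.br (Nat.shiftLeft (nat_lit 0xa000001003) (nat_lit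 100)) (.one (nat_lit 0xa00000100200500c014200414c818028611)) (.one (nat_lit 0xa00000100300500c014200614c818028611))) (.br (Nat.shiftLeft (nat_lit 0x2800000801) (nat_lit 102)) (.one (nat_lit 0xa00000200300500c014400614c818028611)) (.one (nat_lit 0xa00000200400500c014400814c818028611)))) (.br (Nat.shiftLeft (nat_lit 0xb000001003) (nat_lit 100)) (.br (Nat.shiftLeft (nat_lit 0xb) (nat_lit 136)) (.one (nat_lit 0xa00000300400500c014600814c818028611)) (.one (nat_lit 0xb00000100200500c014200416cc18028611))) (.br (Nat.shiftLeft (nat_lit 0x5800001) (nat_lit 113)) (.one (nat_lit 0xb00000100300500c014200616cc18028611)) (.one (nat_lit 0xb00000200300500c014400616cc18028611))))))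
def t178 : k178.all (jb2 57 fl b0) = true := by decide +kernel
noncomputable def k179 : KT := (.br (Nat.shiftLeft (nat_lit 0xc000001003) (nat_lit 100)) (.br (Nat.shiftLeft (nat_lit 0xb000003) (nat_lit 112)) (.one (nat_lit 0xb00000200400500c014400816cc18028611)) (.br (Nat.shiftLeft (nat_lit 0x3) (nat_lit 138)) (.one (nat_lit 0xb00000300400500c014600816cc18028611)) (.one (nat_lit 0xc00000100200500c014200418d018028611)))) (.br (Nat.shiftLeft (nat_lit 0x3000000801) (nat_lit 102)) (.br (Nat.shiftLeft (nat_lit 0x6000001) (nat_lit 113)) (.one (nat_lit 0xc00000100300500c014200618d018028611)) (.one (nat_lit 0xc00000200300500c014400618d018028611))) (.br (Nat.shiftLeft (nat_lit 0xc000003) (nat_lit 112)) (.one (nat_lit 0xc00000200400500c014400818d018028611)) (.one (nat_lit 0xc00000300400500c014600818d018028611)))))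
def t179 : k179.all (jb2 57 fl b0) = true := by decide +kernel
noncomputable def s10 : KT := (.br (nat_lit 0x900000300500c014000600a13a428511) (.br (nat_lit 0x200000400500c014000800a058828511) (.br (nat_lit 0x700000500c014e00000a018028411) k166 (.br (nat_lit 0x100200300500c014400600a038428760) k167 k168)) (.br (nat_lit 0x600000400500c014000800a0d9828511) (.br (nat_lit 0x500000200500c014000400a0b9428511) k169 k170) (.br (nat_lit 0x800000100500c014000200a11a028511) k171 k172))) (.br (nat_lit 0x600000100200500c01420040cb818028611) (.br (nat_lit 0xb00000400500c014000800a17ac28511) k173 (.br (nat_lit 0x500000100200500c01420040ab418028611) k174 k175)) (.br (nat_lit 0x800000200300500c014400610c018028611) (.br (nat_lit 0x700000100200500c01420040ebc18028611) k176 k177) (.br (nat_lit 0xb00000200300500c014400616cc18028611) k178 k179))))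
noncomputable def u10 : KT := (.one (nat_lit 0x500c014000000a018028430))
def w10 : u10.all (wj 57 s10) = true := by decide +kernel
def o10 : OkW 57 (jb2 57 fl) u10 := .lift s10 _ (.br _ _ _ (.br _ _ _ (.br _ _ _ (.leaf b0 k166 t166) (.br _ _ _ (.leaf b168 k167 t167) (.leaf b0 k168 t168))) (.br _ _ _ (.br _ _ _ (.leaf b0 k169 t169) (.leaf b0 k170 t170)) (.br _ _ _ (.leaf b0 k171 t171) (.leaf b0 k172 t172)))) (.br _ _ _ (.br _ _ _ (.leaf b174 k173 t173) (.br _ _ _ (.leaf b0 k174 t174) (.leaf b0 k175 t175))) (.br _ _ _ (.br _ _ _ (.leaf b0 k176 t176) (.leaf b0 k177 t177)) (.br _ _ _ (.leaf b0 k178 t178) (.leaf b0 k179 t179))))) w10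
noncomputable def k180 : KT := (.br (Nat.shiftLeft (nat_lit 0x280600b) (nat_lit 65)) (.one (nat_lit 0x500c015000000a01802b400)) (.br (Nat.shiftLeft (nat_lit 0x1) (nat_lit 100)) (.one (nat_lit 0x500c016000000a01802d400)) (.one (nat_lit 0x100500c015000200a01802a540))))
def t180 : k180.all (jb2 57 fl b0) = true := by decide +kernel
noncomputable def k181 : KT := (.br (Nat.shiftLeft (nat_lit 0x1) (nat_lit 102)) (.br (Nat.shiftLeft (nat_lit 0x100280600b) (nat_lit 65)) (.br (Nat.shiftLeft (nat_lit 0x1) (nat_lit 101)) (.one (nat_lit 0x100500c016000200a01802c540)) (.one (nat_lit 0x200500c015000400a01802b500))) (.br (Nat.shiftLeft (nat_lit 0x3) (nat_lit 100)) (.one (nat_lit 0x200500c016000400a01802d500)) (.br (Nat.shiftLeft (nat_lit 0x180280600b) (nat_lit 65)) (.one (nat_lit 0x300500c015000600a01802b500)) (.one (nat_lit 0x300500c016000600a01802d500))))) (.br (Nat.shiftLeft (nat_lit 0x1) (nat_lit 112)) (.br (Nat.shiftLeft (nat_lit 0x200280600b) (nat_lit 65)) (.one (nat_lit 0x400500c015000800a01802b500)) (.one (nat_lit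 0x400500c016000800a01802d500))) (.br (Nat.shiftLeft (nat_lit 0x80000280600b) (nat_lit 65)) (.one (nat_lit 0x100000500c015200000a01802a411)) (.br (Nat.shiftLeft (nat_lit 0x801) (nat_lit 101)) (.one (nat_lit 0x100000500c016200000a01802c411)) (.one (nat_lit 0x100200500c015200400a01802b600))))))
def t181 : k181.all (jb2 57 fl b0) = true := by decide +kernel
noncomputable def k182 : KT := (.one (nat_lit 0x100200500c016200400a01802c650))
def t182 : k182.all (jb2 57 fl b0) = true := by decide +kernel
noncomputable def k183 : KT := (.one (nat_lit 0x100300500c015200600a01802a650))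
def t183 : k183.all (jb2 57 fl b0) = true := by decide +kernel
noncomputable def k184 : KT := (.one (nat_lit 0x100300500c016200600a01802c650))
def t184 : k184.all (jb2 57 fl b0) = true := by decide +kernel
noncomputable def k185 : KT := (.br (Nat.shiftLeft (nat_lit 0x80200280600b) (nat_lit 65)) (.one (nat_lit 0x100400500c015200800a01802a650)) (.one (nat_lit 0x100400500c016200800a01802c650)))
def t185 : k185.all (jb2 57 fl b0) = true := by decide +kernel
noncomputable def k186 : KT := (.br (Nat.shiftLeft (nat_lit 0x1001) (nat_lit 101)) (.br (Nat.shiftLeft (nat_lit 0x100000280600b) (nat_lit 65)) (.one (nat_lit 0x200000500c015400000a01802a411)) (.one (nat_lit 0x200000500c016400000a01802c411))) (.br (Nat.shiftLeft (nat_lit 0x100180280600b) (nat_lit 65)) (.one (nat_lit 0x200300500c015400600a01802b600)) (.one (nat_lit 0x200300500c016400600a01802c650))))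
def t186 : k186.all (jb2 57 fl b0) = true := by decide +kernel
noncomputable def k187 : KT := (.one (nat_lit 0x200400500c015400800a01802a650))
def t187 : k187.all (jb2 57 fl b0) = true := by decide +kernel
noncomputable def k188 : KT := (.br (Nat.shiftLeft (nat_lit 0x3) (nat_lit 112)) (.one (nat_lit 0x200400500c016400800a01802c650)) (.br (Nat.shiftLeft (nat_lit 0x180000280600b) (nat_lit 65)) (.one (nat_lit 0x300000500c015600000a01802a411)) (.one (nat_lit 0x300000500c016600000a01802c411))))
def t188 : k188.all (jb2 57 fl b0) = true := by decide +kernel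
noncomputable def k189 : KT := (.one (nat_lit 0x300400500c015600800a01802a650))
def t189 : k189.all (jb2 57 fl b0) = true := by decide +kernel
noncomputable def k190 : KT := (.br (Nat.shiftLeft (nat_lit 0x300000280600b) (nat_lit 65)) (.br (Nat.shiftLeft (nat_lit 0x5) (nat_lit 112)) (.br (Nat.shiftLeft (nat_lit 0x1) (nat_lit 114)) (.one (nat_lit 0x300400500c016600800a01802c650)) (.br (Nat.shiftLeft (nat_lit 0x200000280600b) (nat_lit 65)) (.one (nat_lit 0x400000500c015800000a01802a411)) (.one (nat_lit 0x400000500c016800000a01802c411)))) (.br (Nat.shiftLeft (nat_lit 0x280000280600b) (nat_lit 65)) (.one (nat_lit 0x500000500c015a00000a01802a411)) (.br (Nat.shiftLeft (nat_lit 0x3) (nat_lit 113)) (.one (nat_lit 0x500000500c016a00000a01802c411)) (.one (nat_lit 0x600000500c015c00000a01802a411))))) (.br (Nat.shiftLeft (nat_lit 0x1) (nat_lit 115)) (.br (Nat.shiftLeft (nat_lit 0x7) (nat_lit 112)) (.one (nat_lit 0x600000500c016c00000a01802c411)) (.br (Nat.shiftLeft (nat_lit 0x380000280600b) (nat_lit 65)) (.one (nat_lit 0x700000500c015e00000a01802a411))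 (.one (nat_lit 0x700000500c016e00000a01802c411)))) (.br (Nat.shiftLeft (nat_lit 0x400000280600b) (nat_lit 65)) (.one (nat_lit 0x800000500c015000000a01812c411)) (.br (Nat.shiftLeft (nat_lit 0x9) (nat_lit 112)) (.one (nat_lit 0x800000500c016000000a01812e411)) (.one (nat_lit 0x900000500c015200000a01812c411))))))
def t190 : k190.all (jb2 57 fl b0) = true := by decide +kernel
noncomputable def k191 : KT := (.br (Nat.shiftLeft (nat_lit 0x801) (nat_lit 113)) (.br (Nat.shiftLeft (nat_lit 0x600000280600b) (nat_lit 65)) (.br (Nat.shiftLeft (nat_lit 0xb) (nat_lit 112)) (.br (Nat.shiftLeft (nat_lit 0x5) (nat_lit 113)) (.one (nat_lit 0x900000500c016200000a01812e411)) (.br (Nat.shiftLeft (nat_lit 0x500000280600b) (nat_lit 65)) (.one (nat_lit 0xa00000500c015400000a01812c411)) (.one (nat_lit 0xa00000500c016400000a01812e411)))) (.br (Nat.shiftLeft (nat_lit 0x580000280600b) (nat_lit 65)) (.one (nat_lit 0xb00000500c015600000a01812c411)) (.br (Nat.shiftLeft (nat_lit 0x3) (nat_lit 114)) (.one (nat_lit 0xb00000500c016600000a01812e411))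 (.one (nat_lit 0xc00000500c015800000a01812c411))))) (.br (Nat.shiftLeft (nat_lit 0x1000003) (nat_lit 100)) (.br (Nat.shiftLeft (nat_lit 0x1) (nat_lit 124)) (.one (nat_lit 0xc00000500c016800000a01812e411)) (.br (Nat.shiftLeft (nat_lit 0x80000100280600b) (nat_lit 65)) (.one (nat_lit 0x100000200500c015000400a03842a511)) (.one (nat_lit 0x100000200500c016000400a03842c511)))) (.br (Nat.shiftLeft (nat_lit 0x400001) (nat_lit 102)) (.br (Nat.shiftLeft (nat_lit 0x80000180280600b) (nat_lit 65)) (.one (nat_lit 0x100000300500c015000600a03842a511)) (.one (nat_lit 0x100000300500c016000600a03842c511))) (.br (Nat.shiftLeft (nat_lit 0x80000200280600b) (nat_lit 65)) (.one (nat_lit 0x100000400500c015000800a03842a511)) (.one (nat_lit 0x100000400500c016000800a03842c511)))))) (.br (Nat.shiftLeft (nat_lit 0x100000200280600b) (nat_lit 65)) (.br (Nat.shiftLeft (nat_lit 0x2000003) (nat_lit 100)) (.br (Nat.shiftLeft (nat_lit 0x1) (nat_lit 125)) (.one (nat_lit 0x100200300500c015400600a03842a760)) (.br (Nat.shiftLeft (nat_lit 0x100000100280600b)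 (nat_lit 65)) (.one (nat_lit 0x200000200500c015000400a05882a511)) (.one (nat_lit 0x200000200500c016000400a05882c511)))) (.br (Nat.shiftLeft (nat_lit 0x100000180280600b) (nat_lit 65)) (.one (nat_lit 0x200000300500c015000600a05882a511)) (.br (Nat.shiftLeft (nat_lit 0x800001) (nat_lit 102)) (.one (nat_lit 0x200000300500c016000600a05882c511)) (.one (nat_lit 0x200000400500c015000800a05882a511))))) (.br (Nat.shiftLeft (nat_lit 0x3000003) (nat_lit 100)) (.br (Nat.shiftLeft (nat_lit 0x3) (nat_lit 124)) (.one (nat_lit 0x200000400500c016000800a05882c511)) (.br (Nat.shiftLeft (nat_lit 0x180000100280600b) (nat_lit 65)) (.one (nat_lit 0x300000200500c015000400a078c2a511)) (.one (nat_lit 0x300000200500c016000400a078c2c511)))) (.br (Nat.shiftLeft (nat_lit 0xc00001) (nat_lit 102)) (.br (Nat.shiftLeft (nat_lit 0x180000180280600b) (nat_lit 65)) (.one (nat_lit 0x300000300500c015000600a078c2a511)) (.one (nat_lit 0x300000300500c016000600a078c2c511))) (.br (Nat.shiftLeft (nat_lit 0x180000200280600b) (nat_lit 65)) (.one (nat_lit 0x300000400500c015000800a078c2a511))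 (.one (nat_lit 0x300000400500c016000800a078c2c511)))))))
noncomputable def b192 : BT := .node (nat_lit 0x1) (nat_lit 0xdb26da24e40032da000ca7810008800028) .leaf .leaf
def t191 : k191.all (jb2 57 fl b192) = true := by decide +kernel
noncomputable def k192 : KT := (.br (Nat.shiftLeft (nat_lit 0x200000200280600b) (nat_lit 65)) (.br (Nat.shiftLeft (nat_lit 0x4000003) (nat_lit 100)) (.br (Nat.shiftLeft (nat_lit 0x200000100280600b) (nat_lit 65)) (.one (nat_lit 0x400000200500c015000400a09902a511)) (.one (nat_lit 0x400000200500c016000400a09902c511))) (.br (Nat.shiftLeft (nat_lit 0x200000180280600b) (nat_lit 65)) (.one (nat_lit 0x400000300500c015000600a09902a511)) (.br (Nat.shiftLeft (nat_lit 0x1000001) (nat_lit 102)) (.one (nat_lit 0x400000300500c016000600a09902c511)) (.one (nat_lit 0x400000400500c015000800a09902a511))))) (.br (Nat.shiftLeft (nat_lit 0x280000100280600b) (nat_lit 65)) (.br (Nat.shiftLeft (nat_lit 0x5) (nat_lit 124)) (.one (nat_lit 0x400000400500c016000800a09902c511)) (.one (nat_lit 0x500000200500c015000400a0b942a511)))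 (.br (Nat.shiftLeft (nat_lit 0x5000003) (nat_lit 100)) (.one (nat_lit 0x500000200500c016000400a0b942c511)) (.br (Nat.shiftLeft (nat_lit 0x280000180280600b) (nat_lit 65)) (.one (nat_lit 0x500000300500c015000600a0b942a511)) (.one (nat_lit 0x500000300500c016000600a0b942c511))))))
def t192 : k192.all (jb2 57 fl b0) = true := by decide +kernel
noncomputable def k193 : KT := (.br (Nat.shiftLeft (nat_lit 0x300000100280600b) (nat_lit 65)) (.br (Nat.shiftLeft (nat_lit 0x280000200280600b) (nat_lit 65)) (.one (nat_lit 0x500000400500c015000800a0b942a511)) (.br (Nat.shiftLeft (nat_lit 0x3) (nat_lit 125)) (.one (nat_lit 0x500000400500c016000800a0b942c511)) (.one (nat_lit 0x600000200500c015000400a0d982a511)))) (.br (Nat.shiftLeft (nat_lit 0x300000180280600b) (nat_lit 65)) (.br (Nat.shiftLeft (nat_lit 0x6000003) (nat_lit 100)) (.one (nat_lit 0x600000200500c016000400a0d982c511)) (.one (nat_lit 0x600000300500c015000600a0d982a511))) (.br (Nat.shiftLeft (nat_lit 0x1800001) (nat_lit 102)) (.one (nat_lit 0x600000300500c016000600a0d982c511))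 (.one (nat_lit 0x600000400500c015000800a0d982a511)))))
def t193 : k193.all (jb2 57 fl b0) = true := by decide +kernel
noncomputable def k194 : KT := (.br (Nat.shiftLeft (nat_lit 0x380000180280600b) (nat_lit 65)) (.br (Nat.shiftLeft (nat_lit 0x380000100280600b) (nat_lit 65)) (.br (Nat.shiftLeft (nat_lit 0x7) (nat_lit 124)) (.one (nat_lit 0x600000400500c016000800a0d982c511)) (.one (nat_lit 0x700000200500c015000400a0f9c2a511))) (.br (Nat.shiftLeft (nat_lit 0x7000003) (nat_lit 100)) (.one (nat_lit 0x700000200500c016000400a0f9c2c511)) (.one (nat_lit 0x700000300500c015000600a0f9c2a511)))) (.br (Nat.shiftLeft (nat_lit 0x380000200280600b) (nat_lit 65)) (.br (Nat.shiftLeft (nat_lit 0x1c00001) (nat_lit 102)) (.one (nat_lit 0x700000300500c016000600a0f9c2c511)) (.one (nat_lit 0x700000400500c015000800a0f9c2a511))) (.br (Nat.shiftLeft (nat_lit 0x1) (nat_lit 127)) (.one (nat_lit 0x700000400500c016000800a0f9c2c511)) (.one (nat_lit 0x800000200500c015000400a11a02a511)))))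
def t194 : k194.all (jb2 57 fl b0) = true := by decide +kernel
noncomputable def k195 : KT := (.br (Nat.shiftLeft (nat_lit 0x9) (nat_lit 124)) (.br (Nat.shiftLeft (nat_lit 0x400000180280600b) (nat_lit 65)) (.br (Nat.shiftLeft (nat_lit 0x8000003) (nat_lit 100)) (.one (nat_lit 0x800000200500c016000400a11a02c511)) (.one (nat_lit 0x800000300500c015000600a11a02a511))) (.br (Nat.shiftLeft (nat_lit 0x2000001) (nat_lit 102)) (.one (nat_lit 0x800000300500c016000600a11a02c511)) (.br (Nat.shiftLeft (nat_lit 0x400000200280600b) (nat_lit 65)) (.one (nat_lit 0x800000400500c015000800a11a02a511)) (.one (nat_lit 0x800000400500c016000800a11a02c511))))) (.br (Nat.shiftLeft (nat_lit 0x480000180280600b) (nat_lit 65)) (.br (Nat.shiftLeft (nat_lit 0x480000100280600b) (nat_lit 65)) (.one (nat_lit 0x900000200500c015000400a13a42a511)) (.br (Nat.shiftLeft (nat_lit 0x9000003) (nat_lit 100)) (.one (nat_lit 0x900000200500c016000400a13a42c511)) (.one (nat_lit 0x900000300500c015000600a13a42a511)))) (.br (Nat.shiftLeft (nat_lit 0x2400001) (nat_lit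 102)) (.one (nat_lit 0x900000300500c016000600a13a42c511)) (.br (Nat.shiftLeft (nat_lit 0x480000200280600b) (nat_lit 65)) (.one (nat_lit 0x900000400500c015000800a13a42a511)) (.one (nat_lit 0x900000400500c016000800a13a42c511))))))
def t195 : k195.all (jb2 57 fl b0) = true := by decide +kernel
noncomputable def k196 : KT := (.br (Nat.shiftLeft (nat_lit 0x600000100280600b) (nat_lit 65)) (.br (Nat.shiftLeft (nat_lit 0xb) (nat_lit 124)) (.br (Nat.shiftLeft (nat_lit 0x500000180280600b) (nat_lit 65)) (.br (Nat.shiftLeft (nat_lit 0x500000100280600b) (nat_lit 65)) (.one (nat_lit 0xa00000200500c015000400a15a82a511)) (.br (Nat.shiftLeft (nat_lit 0xa000003) (nat_lit 100)) (.one (nat_lit 0xa00000200500c016000400a15a82c511)) (.one (nat_lit 0xa00000300500c015000600a15a82a511)))) (.br (Nat.shiftLeft (nat_lit 0x2800001) (nat_lit 102)) (.one (nat_lit 0xa00000300500c016000600a15a82c511)) (.br (Nat.shiftLeft (nat_lit 0x500000200280600b) (nat_lit 65)) (.one (nat_lit 0xa00000400500c015000800a15a82a511)) (.one (nat_lit 0xa00000400500c016000800a15a82c511)))))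 (.br (Nat.shiftLeft (nat_lit 0x580000180280600b) (nat_lit 65)) (.br (Nat.shiftLeft (nat_lit 0x580000100280600b) (nat_lit 65)) (.one (nat_lit 0xb00000200500c015000400a17ac2a511)) (.br (Nat.shiftLeft (nat_lit 0xb000003) (nat_lit 100)) (.one (nat_lit 0xb00000200500c016000400a17ac2c511)) (.one (nat_lit 0xb00000300500c015000600a17ac2a511)))) (.br (Nat.shiftLeft (nat_lit 0x580000200280600b) (nat_lit 65)) (.br (Nat.shiftLeft (nat_lit 0x2c00001) (nat_lit 102)) (.one (nat_lit 0xb00000300500c016000600a17ac2c511)) (.one (nat_lit 0xb00000400500c015000800a17ac2a511))) (.br (Nat.shiftLeft (nat_lit 0x3) (nat_lit 126)) (.one (nat_lit 0xb00000400500c016000800a17ac2c511)) (.one (nat_lit 0xc00000200500c015000400a19b02a511)))))) (.br (Nat.shiftLeft (nat_lit 0x800001) (nat_lit 113)) (.br (Nat.shiftLeft (nat_lit 0x3000001) (nat_lit 102)) (.br (Nat.shiftLeft (nat_lit 0xc000003) (nat_lit 100)) (.one (nat_lit 0xc00000200500c016000400a19b02c511)) (.br (Nat.shiftLeft (nat_lit 0x600000180280600b) (nat_lit 65)) (.one (nat_lit 0xc00000300500c015000600a19b02a511))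 (.one (nat_lit 0xc00000300500c016000600a19b02c511)))) (.br (Nat.shiftLeft (nat_lit 0x600000200280600b) (nat_lit 65)) (.one (nat_lit 0xc00000400500c015000800a19b02a511)) (.br (Nat.shiftLeft (nat_lit 0x1) (nat_lit 136)) (.one (nat_lit 0xc00000400500c016000800a19b02c511)) (.one (nat_lit 0x100000100200500c015200402a41802a611))))) (.br (Nat.shiftLeft (nat_lit 0x3) (nat_lit 136)) (.br (Nat.shiftLeft (nat_lit 0x1) (nat_lit 137)) (.one (nat_lit 0x100000200300500c015400602a41802a611)) (.br (Nat.shiftLeft (nat_lit 0x1000001) (nat_lit 113)) (.one (nat_lit 0x200000100200500c015200404a81802a611)) (.one (nat_lit 0x200000200300500c015400604a81802a611)))) (.br (Nat.shiftLeft (nat_lit 0x1) (nat_lit 138)) (.br (Nat.shiftLeft (nat_lit 0x1800001) (nat_lit 113)) (.one (nat_lit 0x300000100200500c015200406ac1802a611)) (.one (nat_lit 0x300000200300500c015400606ac1802a611))) (.br (Nat.shiftLeft (nat_lit 0x2000001) (nat_lit 113)) (.one (nat_lit 0x400000100200500c015200408b01802a611)) (.one (nat_lit 0x400000200300500c015400608b01802a611)))))))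
def t196 : k196.all (jb2 57 fl b0) = true := by decide +kernel
noncomputable def k197 : KT := (.br (Nat.shiftLeft (nat_lit 0x3000001) (nat_lit 113)) (.br (Nat.shiftLeft (nat_lit 0x2800001) (nat_lit 113)) (.one (nat_lit 0x500000100200500c01520040ab41802a611)) (.br (Nat.shiftLeft (nat_lit 0x3) (nat_lit 137)) (.one (nat_lit 0x500000200300500c01540060ab41802a611)) (.one (nat_lit 0x600000100200500c01520040cb81802a611)))) (.br (Nat.shiftLeft (nat_lit 0x3800001) (nat_lit 113)) (.br (Nat.shiftLeft (nat_lit 0x7) (nat_lit 136)) (.one (nat_lit 0x600000200300500c01540060cb81802a611)) (.one (nat_lit 0x700000100200500c01520040ebc1802a611))) (.br (Nat.shiftLeft (nat_lit 0x1) (nat_lit 139)) (.one (nat_lit 0x700000200300500c01540060ebc1802a611)) (.one (nat_lit 0x800000100200500c015200410c01802a611)))))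
def t197 : k197.all (jb2 57 fl b0) = true := by decide +kernel
noncomputable def k198 : KT := (.br (Nat.shiftLeft (nat_lit 0x5000001) (nat_lit 113)) (.br (Nat.shiftLeft (nat_lit 0x4800001) (nat_lit 113)) (.br (Nat.shiftLeft (nat_lit 0x9) (nat_lit 136)) (.one (nat_lit 0x800000200300500c015400610c01802a611)) (.one (nat_lit 0x900000100200500c015200412c41802a611))) (.br (Nat.shiftLeft (nat_lit 0x5) (nat_lit 137)) (.one (nat_lit 0x900000200300500c015400612c41802a611)) (.one (nat_lit 0xa00000100200500c015200414c81802a611)))) (.br (Nat.shiftLeft (nat_lit 0x5800001) (nat_lit 113)) (.br (Nat.shiftLeft (nat_lit 0xb) (nat_lit 136)) (.one (nat_lit 0xa00000200300500c015400614c81802a611)) (.one (nat_lit 0xb00000100200500c015200416cc1802a611))) (.br (Nat.shiftLeft (nat_lit 0x3) (nat_lit 138)) (.one (nat_lit 0xb00000200300500c015400616cc1802a611)) (.br (Nat.shiftLeft (nat_lit 0x6000001) (nat_lit 113)) (.one (nat_lit 0xc00000100200500c015200418d01802a611)) (.one (nat_lit 0xc00000200300500c015400618d01802a611))))))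
def t198 : k198.all (jb2 57 fl b0) = true := by decide +kernel
noncomputable def s11 : KT := (.br (nat_lit 0x300000500c016600000a01802c411) (.br (nat_lit 0x100300500c015200600a01802a650) (.br (nat_lit 0x100200500c015200400a01802b600) (.br (nat_lit 0x100500c015000200a01802a540) k180 k181) (.br (nat_lit 0x100200500c016200400a01802c650) k182 k183)) (.br (nat_lit 0x100400500c016200800a01802c650) (.br (nat_lit 0x100300500c016200600a01802c650) k184 k185) (.br (nat_lit 0x200300500c016400600a01802c650) k186 (.br (nat_lit 0x200400500c015400800a01802a650) k187 k188)))) (.br (nat_lit 0x600000400500c015000800a0d982a511) (.br (nat_lit 0x900000500c015200000a01812c411) (.br (nat_lit 0x300400500c015600800a01802a650) k189 k190) (.br (nat_lit 0x300000400500c016000800a078c2c511) k191 (.br (nat_lit 0x500000300500c016000600a0b942c511) k192 k193))) (.br (nat_lit 0x900000400500c016000800a13a42c511) (.br (nat_lit 0x800000200500c015000400a11a02a511) k194 k195) (.br (nat_lit 0x400000200300500c015400608b01802a611) k196 (.br (nat_lit 0x800000100200500c015200410c01802a611)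 k197 k198)))))
noncomputable def u11 : KT := (.br (Nat.shiftLeft (nat_lit 0x280600b) (nat_lit 65)) (.one (nat_lit 0x500c015000000a01802a430)) (.one (nat_lit 0x500c016000000a01802c430)))
def w11 : u11.all (wj 57 s11) = true := by decide +kernel
def o11 : OkW 57 (jb2 57 fl) u11 := .lift s11 _ (.br _ _ _ (.br _ _ _ (.br _ _ _ (.br _ _ _ (.leaf b0 k180 t180) (.leaf b0 k181 t181)) (.br _ _ _ (.leaf b0 k182 t182) (.leaf b0 k183 t183))) (.br _ _ _ (.br _ _ _ (.leaf b0 k184 t184) (.leaf b0 k185 t185)) (.br _ _ _ (.leaf b0 k186 t186) (.br _ _ _ (.leaf b0 k187 t187) (.leaf b0 k188 t188))))) (.br _ _ _ (.br _ _ _ (.br _ _ _ (.leaf b0 k189 t189) (.leaf b0 k190 t190)) (.br _ _ _ (.leaf b192 k191 t191) (.br _ _ _ (.leaf b0 k192 t192) (.leaf b0 k193 t193)))) (.br _ _ _ (.br _ _ _ (.leaf b0 k194 t194) (.leaf b0 k195 t195)) (.br _ _ _ (.leaf b0 k196 t196) (.br _ _ _ (.leaf b0 k197 t197) (.leaf b0 k198 t198)))))) w11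
noncomputable def k199 : KT := (.br (Nat.shiftLeft (nat_lit 0x500d00f) (nat_lit 64)) (.br (Nat.shiftLeft (nat_lit 0xa01803) (nat_lit 67)) (.one (nat_lit 0x500c017000000a01802f400)) (.br (Nat.shiftLeft (nat_lit 0x500d) (nat_lit 76)) (.one (nat_lit 0x500c018000000a018031400)) (.one (nat_lit 0x500d00e000000a01a01d400)))) (.br (Nat.shiftLeft (nat_lit 0x500d011) (nat_lit 64)) (.br (Nat.shiftLeft (nat_lit 0x500d01) (nat_lit 68)) (.one (nat_lit 0x500d00f000000a01a01f400)) (.one (nat_lit 0x500d010000000a01a021400))) (.br (Nat.shiftLeft (nat_lit 0x1) (nat_lit 100)) (.one (nat_lit 0x500d011000000a01a023400)) (.one (nat_lit 0x100500c017000200a01802e540)))))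
def t199 : k199.all (jb2 57 fl b0) = true := by decide +kernel
noncomputable def k200 : KT := (.br (Nat.shiftLeft (nat_lit 0x1) (nat_lit 101)) (.one (nat_lit 0x100500c018000200a018030540)) (.one (nat_lit 0x200500c017000400a01802f500)))
def t200 : k200.all (jb2 57 fl b0) = true := by decide +kernel
noncomputable def k201 : KT := (.br (Nat.shiftLeft (nat_lit 0x1) (nat_lit 102)) (.br (Nat.shiftLeft (nat_lit 0x3) (nat_lit 100)) (.one (nat_lit 0x200500c018000400a018030540)) (.br (Nat.shiftLeft (nat_lit 0x600a01803) (nat_lit 67)) (.one (nat_lit 0x300500c017000600a01802f500)) (.one (nat_lit 0x300500c018000600a018031500)))) (.br (Nat.shiftLeft (nat_lit 0x1) (nat_lit 112)) (.br (Nat.shiftLeft (nat_lit 0x800a01803) (nat_lit 67)) (.one (nat_lit 0x400500c017000800a01802f500)) (.one (nat_lit 0x400500c018000800a018031500))) (.br (Nat.shiftLeft (nat_lit 0x200000a01803) (nat_lit 67)) (.one (nat_lit 0x100000500c017200000a01802e411)) (.one (nat_lit 0x100000500c018200000a018030411)))))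
def t201 : k201.all (jb2 57 fl b0) = true := by decide +kernel
noncomputable def k202 : KT := (.br (Nat.shiftLeft (nat_lit 0x1003) (nat_lit 100)) (.one (nat_lit 0x100200500c017200400a01802e650)) (.one (nat_lit 0x100300500c017200600a01802e650)))
def t202 : k202.all (jb2 57 fl b0) = true := by decide +kernel
noncomputable def k203 : KT := (.br (Nat.shiftLeft (nat_lit 0x200800a01803) (nat_lit 67)) (.br (Nat.shiftLeft (nat_lit 0x401) (nat_lit 102)) (.one (nat_lit 0x100300500c018200600a018030650)) (.one (nat_lit 0x100400500c017200800a01802e650))) (.br (Nat.shiftLeft (nat_lit 0x1) (nat_lit 113)) (.one (nat_lit 0x100400500c018200800a018030650)) (.br (Nat.shiftLeft (nat_lit 0x400000a01803) (nat_lit 67)) (.one (nat_lit 0x200000500c017400000a01802e411)) (.one (nat_lit 0x200000500c018400000a018030411)))))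
def t203 : k203.all (jb2 57 fl b0) = true := by decide +kernel
noncomputable def k204 : KT := (.br (Nat.shiftLeft (nat_lit 0x400600a01803) (nat_lit 67)) (.one (nat_lit 0x200300500c017400600a01802e650)) (.one (nat_lit 0x200300500c018400600a018030650)))
def t204 : k204.all (jb2 57 fl b0) = true := by decide +kernel
noncomputable def k205 : KT := (.br (Nat.shiftLeft (nat_lit 0x3) (nat_lit 112)) (.br (Nat.shiftLeft (nat_lit 0x400800a01803) (nat_lit 67)) (.one (nat_lit 0x200400500c017400800a01802e650)) (.one (nat_lit 0x200400500c018400800a018030650))) (.br (Nat.shiftLeft (nat_lit 0x600000a01803) (nat_lit 67)) (.one (nat_lit 0x300000500c017600000a01802e411)) (.one (nat_lit 0x300000500c018600000a018030411))))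
def t205 : k205.all (jb2 57 fl b0) = true := by decide +kernel
noncomputable def k206 : KT := (.br (Nat.shiftLeft (nat_lit 0xa00000a01803) (nat_lit 67)) (.br (Nat.shiftLeft (nat_lit 0x1) (nat_lit 114)) (.br (Nat.shiftLeft (nat_lit 0x600800a01803) (nat_lit 67)) (.one (nat_lit 0x300400500c017600800a01802e650)) (.one (nat_lit 0x300400500c018600800a018030650))) (.br (Nat.shiftLeft (nat_lit 0x800000a01803) (nat_lit 67)) (.one (nat_lit 0x400000500c017800000a01802e411)) (.br (Nat.shiftLeft (nat_lit 0x5) (nat_lit 112)) (.one (nat_lit 0x400000500c018800000a018030411)) (.one (nat_lit 0x500000500c017a00000a01802e411))))) (.br (Nat.shiftLeft (nat_lit 0x7) (nat_lit 112)) (.br (Nat.shiftLeft (nat_lit 0x3) (nat_lit 113)) (.one (nat_lit 0x500000500c018a00000a018030411)) (.br (Nat.shiftLeft (nat_lit 0xc00000a01803) (nat_lit 67)) (.one (nat_lit 0x600000500c017c00000a01802e411)) (.one (nat_lit 0x600000500c018c00000a018030411)))) (.br (Nat.shiftLeft (nat_lit 0xe00000a01803) (nat_lit 67)) (.one (nat_lit 0x700000500c017e00000a01802e411))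 (.br (Nat.shiftLeft (nat_lit 0x1) (nat_lit 115)) (.one (nat_lit 0x700000500c018e00000a018030411)) (.one (nat_lit 0x800000500c017000000a018130411))))))
def t206 : k206.all (jb2 57 fl b0) = true := by decide +kernel
noncomputable def k207 : KT := (.br (Nat.shiftLeft (nat_lit 0x2000003) (nat_lit 100)) (.br (Nat.shiftLeft (nat_lit 0x3) (nat_lit 114)) (.br (Nat.shiftLeft (nat_lit 0x5) (nat_lit 113)) (.br (Nat.shiftLeft (nat_lit 0x9) (nat_lit 112)) (.one (nat_lit 0x800000500c018000000a018132411)) (.br (Nat.shiftLeft (nat_lit 0x1200000a01803) (nat_lit 67)) (.one (nat_lit 0x900000500c017200000a018130411)) (.one (nat_lit 0x900000500c018200000a018132411)))) (.br (Nat.shiftLeft (nat_lit 0xb) (nat_lit 112)) (.br (Nat.shiftLeft (nat_lit 0x1400000a01803) (nat_lit 67)) (.one (nat_lit 0xa00000500c017400000a018130411)) (.one (nat_lit 0xa00000500c018400000a018132411))) (.br (Nat.shiftLeft (nat_lit 0x1600000a01803) (nat_lit 67)) (.one (nat_lit 0xb00000500c017600000a018130411)) (.one (nat_lit 0xb00000500c018600000a018132411)))))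 (.br (Nat.shiftLeft (nat_lit 0x200000600a01803) (nat_lit 67)) (.br (Nat.shiftLeft (nat_lit 0x1) (nat_lit 124)) (.br (Nat.shiftLeft (nat_lit 0x1800000a01803) (nat_lit 67)) (.one (nat_lit 0xc00000500c017800000a018130411)) (.one (nat_lit 0xc00000500c018800000a018132411))) (.br (Nat.shiftLeft (nat_lit 0x1000003) (nat_lit 100)) (.one (nat_lit 0x100000200500c017000400a03842e511)) (.one (nat_lit 0x100000300500c017000600a03842e511)))) (.br (Nat.shiftLeft (nat_lit 0x200000800a01803) (nat_lit 67)) (.br (Nat.shiftLeft (nat_lit 0x400001) (nat_lit 102)) (.one (nat_lit 0x100000300500c018000600a038430511)) (.one (nat_lit 0x100000400500c017000800a03842e511))) (.br (Nat.shiftLeft (nat_lit 0x1) (nat_lit 125)) (.one (nat_lit 0x100000400500c018000800a038430511)) (.one (nat_lit 0x200000200500c017000400a05882e511)))))) (.br (Nat.shiftLeft (nat_lit 0x600000800a01803) (nat_lit 67)) (.br (Nat.shiftLeft (nat_lit 0x3) (nat_lit 124)) (.br (Nat.shiftLeft (nat_lit 0x800001) (nat_lit 102)) (.br (Nat.shiftLeft (nat_lit 0x400000600a01803) (nat_lit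 67)) (.one (nat_lit 0x200000300500c017000600a05882e511)) (.one (nat_lit 0x200000300500c018000600a058830511))) (.br (Nat.shiftLeft (nat_lit 0x400000800a01803) (nat_lit 67)) (.one (nat_lit 0x200000400500c017000800a05882e511)) (.one (nat_lit 0x200000400500c018000800a058830511)))) (.br (Nat.shiftLeft (nat_lit 0x600000600a01803) (nat_lit 67)) (.br (Nat.shiftLeft (nat_lit 0x3000003) (nat_lit 100)) (.one (nat_lit 0x300000200500c017000400a078c2e511)) (.one (nat_lit 0x300000300500c017000600a078c2e511))) (.br (Nat.shiftLeft (nat_lit 0xc00001) (nat_lit 102)) (.one (nat_lit 0x300000300500c018000600a078c30511)) (.one (nat_lit 0x300000400500c017000800a078c2e511))))) (.br (Nat.shiftLeft (nat_lit 0x1000001) (nat_lit 102)) (.br (Nat.shiftLeft (nat_lit 0x4000003) (nat_lit 100)) (.br (Nat.shiftLeft (nat_lit 0x1) (nat_lit 126)) (.one (nat_lit 0x300000400500c018000800a078c30511)) (.one (nat_lit 0x400000200500c017000400a09902e511))) (.br (Nat.shiftLeft (nat_lit 0x800000600a01803) (nat_lit 67)) (.one (nat_lit 0x400000300500c017000600a09902e511))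 (.one (nat_lit 0x400000300500c018000600a099030511)))) (.br (Nat.shiftLeft (nat_lit 0x5) (nat_lit 124)) (.br (Nat.shiftLeft (nat_lit 0x800000800a01803) (nat_lit 67)) (.one (nat_lit 0x400000400500c017000800a09902e511)) (.one (nat_lit 0x400000400500c018000800a099030511))) (.br (Nat.shiftLeft (nat_lit 0x5000003) (nat_lit 100)) (.one (nat_lit 0x500000200500c017000400a0b942e511)) (.one (nat_lit 0x500000300500c017000600a0b942e511)))))))
def t207 : k207.all (jb2 57 fl b0) = true := by decide +kernel
noncomputable def k208 : KT := (.br (Nat.shiftLeft (nat_lit 0x1800001) (nat_lit 102)) (.br (Nat.shiftLeft (nat_lit 0x3) (nat_lit 125)) (.br (Nat.shiftLeft (nat_lit 0x1400001) (nat_lit 102)) (.one (nat_lit 0x500000300500c018000600a0b9430511)) (.br (Nat.shiftLeft (nat_lit 0xa00000800a01803) (nat_lit 67)) (.one (nat_lit 0x500000400500c017000800a0b942e511)) (.one (nat_lit 0x500000400500c018000800a0b9430511)))) (.br (Nat.shiftLeft (nat_lit 0x6000003) (nat_lit 100)) (.one (nat_lit 0x600000200500c017000400a0d982e511)) (.br (Nat.shiftLeft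 (nat_lit 0xc00000600a01803) (nat_lit 67)) (.one (nat_lit 0x600000300500c017000600a0d982e511)) (.one (nat_lit 0x600000300500c018000600a0d9830511))))) (.br (Nat.shiftLeft (nat_lit 0x7000003) (nat_lit 100)) (.br (Nat.shiftLeft (nat_lit 0xc00000800a01803) (nat_lit 67)) (.one (nat_lit 0x600000400500c017000800a0d982e511)) (.br (Nat.shiftLeft (nat_lit 0x7) (nat_lit 124)) (.one (nat_lit 0x600000400500c018000800a0d9830511)) (.one (nat_lit 0x700000200500c017000400a0f9c2e511)))) (.br (Nat.shiftLeft (nat_lit 0x1c00001) (nat_lit 102)) (.br (Nat.shiftLeft (nat_lit 0xe00000600a01803) (nat_lit 67)) (.one (nat_lit 0x700000300500c017000600a0f9c2e511)) (.one (nat_lit 0x700000300500c018000600a0f9c30511))) (.br (Nat.shiftLeft (nat_lit 0xe00000800a01803) (nat_lit 67)) (.one (nat_lit 0x700000400500c017000800a0f9c2e511)) (.one (nat_lit 0x700000400500c018000800a0f9c30511))))))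
def t208 : k208.all (jb2 57 fl b0) = true := by decide +kernel
noncomputable def k209 : KT := (.br (Nat.shiftLeft (nat_lit 0x1400000600a01803) (nat_lit 67)) (.br (Nat.shiftLeft (nat_lit 0x9000003) (nat_lit 100)) (.br (Nat.shiftLeft (nat_lit 0x2000001) (nat_lit 102)) (.br (Nat.shiftLeft (nat_lit 0x8000003) (nat_lit 100)) (.one (nat_lit 0x800000200500c017000400a11a02e511)) (.br (Nat.shiftLeft (nat_lit 0x1000000600a01803) (nat_lit 67)) (.one (nat_lit 0x800000300500c017000600a11a02e511)) (.one (nat_lit 0x800000300500c018000600a11a030511)))) (.br (Nat.shiftLeft (nat_lit 0x1000000800a01803) (nat_lit 67)) (.one (nat_lit 0x800000400500c017000800a11a02e511)) (.br (Nat.shiftLeft (nat_lit 0x9) (nat_lit 124)) (.one (nat_lit 0x800000400500c018000800a11a030511)) (.one (nat_lit 0x900000200500c017000400a13a42e511))))) (.br (Nat.shiftLeft (nat_lit 0x1200000800a01803) (nat_lit 67)) (.br (Nat.shiftLeft (nat_lit 0x1200000600a01803) (nat_lit 67)) (.one (nat_lit 0x900000300500c017000600a13a42e511)) (.br (Nat.shiftLeft (nat_lit 0x2400001)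 (nat_lit 102)) (.one (nat_lit 0x900000300500c018000600a13a430511)) (.one (nat_lit 0x900000400500c017000800a13a42e511)))) (.br (Nat.shiftLeft (nat_lit 0x5) (nat_lit 125)) (.one (nat_lit 0x900000400500c018000800a13a430511)) (.br (Nat.shiftLeft (nat_lit 0xa000003) (nat_lit 100)) (.one (nat_lit 0xa00000200500c017000400a15a82e511)) (.one (nat_lit 0xa00000300500c017000600a15a82e511)))))) (.br (Nat.shiftLeft (nat_lit 0x2c00001) (nat_lit 102)) (.br (Nat.shiftLeft (nat_lit 0xb) (nat_lit 124)) (.br (Nat.shiftLeft (nat_lit 0x2800001) (nat_lit 102)) (.one (nat_lit 0xa00000300500c018000600a15a830511)) (.br (Nat.shiftLeft (nat_lit 0x1400000800a01803) (nat_lit 67)) (.one (nat_lit 0xa00000400500c017000800a15a82e511)) (.one (nat_lit 0xa00000400500c018000800a15a830511)))) (.br (Nat.shiftLeft (nat_lit 0xb000003) (nat_lit 100)) (.one (nat_lit 0xb00000200500c017000400a17ac2e511)) (.br (Nat.shiftLeft (nat_lit 0x1600000600a01803) (nat_lit 67)) (.one (nat_lit 0xb00000300500c017000600a17ac2e511)) (.one (nat_lit 0xb00000300500c018000600a17ac30511)))))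 (.br (Nat.shiftLeft (nat_lit 0xc000003) (nat_lit 100)) (.br (Nat.shiftLeft (nat_lit 0x1600000800a01803) (nat_lit 67)) (.one (nat_lit 0xb00000400500c017000800a17ac2e511)) (.br (Nat.shiftLeft (nat_lit 0x3) (nat_lit 126)) (.one (nat_lit 0xb00000400500c018000800a17ac30511)) (.one (nat_lit 0xc00000200500c017000400a19b02e511)))) (.br (Nat.shiftLeft (nat_lit 0x3000001) (nat_lit 102)) (.br (Nat.shiftLeft (nat_lit 0x1800000600a01803) (nat_lit 67)) (.one (nat_lit 0xc00000300500c017000600a19b02e511)) (.one (nat_lit 0xc00000300500c018000600a19b030511))) (.br (Nat.shiftLeft (nat_lit 0x1800000800a01803) (nat_lit 67)) (.one (nat_lit 0xc00000400500c017000800a19b02e511)) (.one (nat_lit 0xc00000400500c018000800a19b030511)))))))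
def t209 : k209.all (jb2 57 fl b0) = true := by decide +kernel
noncomputable def s12 : KT := (.br (nat_lit 0x200000500c018400000a018030411) (.br (nat_lit 0x200500c017000400a01802f500) (.br (nat_lit 0x100500c017000200a01802e540) k199 k200) (.br (nat_lit 0x100000500c018200000a018030411) k201 (.br (nat_lit 0x100300500c017200600a01802e650) k202 k203))) (.br (nat_lit 0x800000500c017000000a018130411) (.br (nat_lit 0x200300500c018400600a018030650) k204 (.br (nat_lit 0x300000500c018600000a018030411) k205 k206)) (.br (nat_lit 0x500000300500c017000600a0b942e511) k207 (.br (nat_lit 0x700000400500c018000800a0f9c30511) k208 k209))))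
noncomputable def u12 : KT := (.br (Nat.shiftLeft (nat_lit 0x500d00f) (nat_lit 64)) (.br (Nat.shiftLeft (nat_lit 0xa01803) (nat_lit 67)) (.one (nat_lit 0x500c017000000a01802e430)) (.br (Nat.shiftLeft (nat_lit 0x500d) (nat_lit 76)) (.one (nat_lit 0x500c018000000a018030430)) (.one (nat_lit 0x500d00e000000a01a01d400)))) (.br (Nat.shiftLeft (nat_lit 0x500d01) (nat_lit 68)) (.one (nat_lit 0x500d00f000000a01a01f400)) (.br (Nat.shiftLeft (nat_lit 0x500d011) (nat_lit 64)) (.one (nat_lit 0x500d010000000a01a021400)) (.one (nat_lit 0x500d011000000a01a023400)))))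
def w12 : u12.all (wj 57 s12) = true := by decide +kernel
def o12 : OkW 57 (jb2 57 fl) u12 := .lift s12 _ (.br _ _ _ (.br _ _ _ (.br _ _ _ (.leaf b0 k199 t199) (.leaf b0 k200 t200)) (.br _ _ _ (.leaf b0 k201 t201) (.br _ _ _ (.leaf b0 k202 t202) (.leaf b0 k203 t203)))) (.br _ _ _ (.br _ _ _ (.leaf b0 k204 t204) (.br _ _ _ (.leaf b0 k205 t205) (.leaf b0 k206 t206))) (.br _ _ _ (.leaf b0 k207 t207) (.br _ _ _ (.leaf b0 k208 t208) (.leaf b0 k209 t209))))) w12
noncomputable def k210 : KT := (.br (Nat.shiftLeft (nat_lit 0x1) (nat_lit 114)) (.br (Nat.shiftLeft (nat_lit 0x1003) (nat_lit 100)) (.br (Nat.shiftLeft (nat_lit 0x3) (nat_lit 100)) (.br (Nat.shiftLeft (nat_lit 0x1) (nat_lit 100)) (.one (nat_lit 0x500d012000000a01a025400)) (.br (Nat.shiftLeft (nat_lit 0x1) (nat_lit 101)) (.one (nat_lit 0x100500d012000200a01a025500)) (.one (nat_lit 0x200500d012000400a01a025500)))) (.br (Nat.shiftLeft (nat_lit 0x1) (nat_lit 112)) (.br (Nat.shiftLeft (nat_lit 0x1) (nat_lit 102)) (.one (nat_lit 0x300500d012000600a01a025500)) (.one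 (nat_lit 0x400500d012000800a01a025500))) (.br (Nat.shiftLeft (nat_lit 0x801) (nat_lit 101)) (.one (nat_lit 0x100000500d012200000a01a024411)) (.one (nat_lit 0x100200500d012200400a01a025600))))) (.br (Nat.shiftLeft (nat_lit 0x1001) (nat_lit 101)) (.br (Nat.shiftLeft (nat_lit 0x401) (nat_lit 102)) (.one (nat_lit 0x100300500d012200600a01a025600)) (.br (Nat.shiftLeft (nat_lit 0x1) (nat_lit 113)) (.one (nat_lit 0x100400500d012200800a01a025600)) (.one (nat_lit 0x200000500d012400000a01a024411)))) (.br (Nat.shiftLeft (nat_lit 0x3) (nat_lit 112)) (.br (Nat.shiftLeft (nat_lit 0x801) (nat_lit 102)) (.one (nat_lit 0x200300500d012400600a01a025600)) (.one (nat_lit 0x200400500d012400800a01a025600))) (.br (Nat.shiftLeft (nat_lit 0xc01) (nat_lit 102)) (.one (nat_lit 0x300000500d012600000a01a024411)) (.one (nat_lit 0x300400500d012600800a01a025600)))))) (.br (Nat.shiftLeft (nat_lit 0xb) (nat_lit 112)) (.br (Nat.shiftLeft (nat_lit 0x7) (nat_lit 112)) (.br (Nat.shiftLeft (nat_lit 0x5) (nat_lit 112)) (.one (nat_lit 0x400000500d012800000a01a024411))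 (.br (Nat.shiftLeft (nat_lit 0x3) (nat_lit 113)) (.one (nat_lit 0x500000500d012a00000a01a024411)) (.one (nat_lit 0x600000500d012c00000a01a024411)))) (.br (Nat.shiftLeft (nat_lit 0x9) (nat_lit 112)) (.br (Nat.shiftLeft (nat_lit 0x1) (nat_lit 115)) (.one (nat_lit 0x700000500d012e00000a01a024411)) (.one (nat_lit 0x800000500d012000000a01a126411))) (.br (Nat.shiftLeft (nat_lit 0x5) (nat_lit 113)) (.one (nat_lit 0x900000500d012200000a01a126411)) (.one (nat_lit 0xa00000500d012400000a01a126411))))) (.br (Nat.shiftLeft (nat_lit 0x1) (nat_lit 124)) (.br (Nat.shiftLeft (nat_lit 0x3) (nat_lit 114)) (.one (nat_lit 0xb00000500d012600000a01a126411)) (.br (Nat.shiftLeft (nat_lit 0xd) (nat_lit 112)) (.one (nat_lit 0xc00000500d012800000a01a126411)) (.one (nat_lit 0xd00000500d012a00000a01a126411)))) (.br (Nat.shiftLeft (nat_lit 0x1000003) (nat_lit 100)) (.br (Nat.shiftLeft (nat_lit 0x800001) (nat_lit 101)) (.one (nat_lit 0x100000100500d012000200a03a424511)) (.one (nat_lit 0x100000200500d012000400a03a424511))) (.br (Nat.shiftLeft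 (nat_lit 0x400001) (nat_lit 102)) (.one (nat_lit 0x100000300500d012000600a03a424511)) (.one (nat_lit 0x100000400500d012000800a03a424511)))))))
noncomputable def b211 : BT := .node (nat_lit 0x13) (nat_lit 0x12c693927580075300019500344d2724c0000e97c0032db0658d2724c149c93b0982db3289a590a2693928a144d272939002e974002ae1002cb600132a1004cb6000ab19003087800b2d90030964003a981658db6851300109640023580689a4e49d44ea49c9304013a99000ea6400ba98002ca84293926024e0a284c0275944d2704eb289a59097a963260945000b2db000cb6000ba98004ca7c013a98000e97c00c259002cb6400ba26002ac64500701007010070100701006a1006a1006a100642004760047600476004160041600416004160035c0035c0035c0035c00190) .leaf .leaf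
def t210 : k210.all (jb2 57 fl b211) = true := by decide +kernel
noncomputable def k211 : KT := (.one (nat_lit 0x100200300500d012400600a03a424760))
def t211 : k211.all (jb2 57 fl b0) = true := by decide +kernel
noncomputable def k212 : KT := (.one (nat_lit 0x100200400500d012400800a03a424760))
def t212 : k212.all (jb2 57 fl b0) = true := by decide +kernel
noncomputable def k213 : KT := (.br (Nat.shiftLeft (nat_lit 0x2000003) (nat_lit 100)) (.br (Nat.shiftLeft (nat_lit 0x1) (nat_lit 125)) (.one (nat_lit 0x100300400500d012600800a03a424760)) (.br (Nat.shiftLeft (nat_lit 0x1000001) (nat_lit 101)) (.one (nat_lit 0x200000100500d012000200a05a824511)) (.one (nat_lit 0x200000200500d012000400a05a824511)))) (.br (Nat.shiftLeft (nat_lit 0x800001) (nat_lit 102)) (.one (nat_lit 0x200000300500d012000600a05a824511)) (.br (Nat.shiftLeft (nat_lit 0x1001) (nat_lit 113)) (.one (nat_lit 0x200000400500d012000800a05a824511)) (.one (nat_lit 0x200300400500d012600800a05a824760)))))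
def t213 : k213.all (jb2 57 fl b0) = true := by decide +kernel
noncomputable def k214 : KT := (.br (Nat.shiftLeft (nat_lit 0x4000003) (nat_lit 100)) (.br (Nat.shiftLeft (nat_lit 0xc00001) (nat_lit 102)) (.br (Nat.shiftLeft (nat_lit 0x1800001) (nat_lit 101)) (.one (nat_lit 0x300000100500d012000200a07ac24511)) (.br (Nat.shiftLeft (nat_lit 0x3000003) (nat_lit 100)) (.one (nat_lit 0x300000200500d012000400a07ac24511)) (.one (nat_lit 0x300000300500d012000600a07ac24511)))) (.br (Nat.shiftLeft (nat_lit 0x1) (nat_lit 126)) (.one (nat_lit 0x300000400500d012000800a07ac24511)) (.br (Nat.shiftLeft (nat_lit 0x2000001) (nat_lit 101)) (.one (nat_lit 0x400000100500d012000200a09b024511)) (.one (nat_lit 0x400000200500d012000400a09b024511))))) (.br (Nat.shiftLeft (nat_lit 0x2800001) (nat_lit 101)) (.br (Nat.shiftLeft (nat_lit 0x1000001) (nat_lit 102)) (.one (nat_lit 0x400000300500d012000600a09b024511)) (.br (Nat.shiftLeft (nat_lit 0x5) (nat_lit 124)) (.one (nat_lit 0x400000400500d012000800a09b024511)) (.one (nat_lit 0x500000100500d012000200a0bb424511))))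 (.br (Nat.shiftLeft (nat_lit 0x5000003) (nat_lit 100)) (.one (nat_lit 0x500000200500d012000400a0bb424511)) (.br (Nat.shiftLeft (nat_lit 0x1400001) (nat_lit 102)) (.one (nat_lit 0x500000300500d012000600a0bb424511)) (.one (nat_lit 0x500000400500d012000800a0bb424511))))))
def t214 : k214.all (jb2 57 fl b0) = true := by decide +kernel
noncomputable def k215 : KT := (.br (Nat.shiftLeft (nat_lit 0x6000003) (nat_lit 100)) (.br (Nat.shiftLeft (nat_lit 0x3000001) (nat_lit 101)) (.one (nat_lit 0x600000100500d012000200a0db824511)) (.one (nat_lit 0x600000200500d012000400a0db824511))) (.br (Nat.shiftLeft (nat_lit 0x1800001) (nat_lit 102)) (.one (nat_lit 0x600000300500d012000600a0db824511)) (.br (Nat.shiftLeft (nat_lit 0x7) (nat_lit 124)) (.one (nat_lit 0x600000400500d012000800a0db824511)) (.one (nat_lit 0x700000100500d012000200a0fbc24511)))))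
def t215 : k215.all (jb2 57 fl b0) = true := by decide +kernel
noncomputable def k216 : KT := (.br (Nat.shiftLeft (nat_lit 0x1c00001) (nat_lit 102)) (.br (Nat.shiftLeft (nat_lit 0x7000003) (nat_lit 100)) (.one (nat_lit 0x700000200500d012000400a0fbc24511)) (.one (nat_lit 0x700000300500d012000600a0fbc24511))) (.br (Nat.shiftLeft (nat_lit 0x1) (nat_lit 127)) (.one (nat_lit 0x700000400500d012000800a0fbc24511)) (.one (nat_lit 0x800000100500d012000200a11c024511))))
def t216 : k216.all (jb2 57 fl b0) = true := by decide +kernel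
noncomputable def k217 : KT := (.br (Nat.shiftLeft (nat_lit 0x2000001) (nat_lit 102)) (.br (Nat.shiftLeft (nat_lit 0x8000003) (nat_lit 100)) (.one (nat_lit 0x800000200500d012000400a11c024511)) (.one (nat_lit 0x800000300500d012000600a11c024511))) (.br (Nat.shiftLeft (nat_lit 0x9) (nat_lit 124)) (.one (nat_lit 0x800000400500d012000800a11c024511)) (.one (nat_lit 0x900000100500d012000200a13c424511))))
noncomputable def b218 : BT := .node (nat_lit 0x3) (nat_lit 0x6da24dca2800210d80046b20d132601450003a24000cb6810010f000af0005000050) .leaf .leaf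
def t217 : k217.all (jb2 57 fl b218) = true := by decide +kernel
noncomputable def k218 : KT := (.br (Nat.shiftLeft (nat_lit 0x2400001) (nat_lit 102)) (.br (Nat.shiftLeft (nat_lit 0x9000003) (nat_lit 100)) (.one (nat_lit 0x900000200500d012000400a13c424511)) (.one (nat_lit 0x900000300500d012000600a13c424511))) (.br (Nat.shiftLeft (nat_lit 0x5) (nat_lit 125)) (.one (nat_lit 0x900000400500d012000800a13c424511)) (.br (Nat.shiftLeft (nat_lit 0x5000001) (nat_lit 101)) (.one (nat_lit 0xa00000100500d012000200a15c824511)) (.one (nat_lit 0xa00000200500d012000400a15c824511)))))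
noncomputable def b219 : BT := .node (nat_lit 0xb) (nat_lit 0x9632601450a284be260258db684eb000e980002b19000e9780032da00109680023200e58c97a4c0000cb64003265076cd2704c0000ca74002ae10658db689380010964002add064e09824bc4b1a594a2696426024e12c6db4260a58ca285146d9a4e49d600596e80165b000a12d002563000596d801653a001d4c801554c00196c80065b200594f001563636d912f4a28db349c36cc003a5d000ac680032d9000cb6020060800608004f2004920043200432003d2003d2003d2003d2001ab000f0) .leaf .leaf
def t218 : k218.all (jb2 57 fl b219) = true := by decide +kernel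
noncomputable def k219 : KT := (.br (Nat.shiftLeft (nat_lit 0x2c00001) (nat_lit 102)) (.br (Nat.shiftLeft (nat_lit 0xb) (nat_lit 124)) (.br (Nat.shiftLeft (nat_lit 0x2800001) (nat_lit 102)) (.one (nat_lit 0xa00000300500d012000600a15c824511)) (.one (nat_lit 0xa00000400500d012000800a15c824511))) (.br (Nat.shiftLeft (nat_lit 0x5800001) (nat_lit 101)) (.one (nat_lit 0xb00000100500d012000200a17cc24511)) (.br (Nat.shiftLeft (nat_lit 0xb000003) (nat_lit 100)) (.one (nat_lit 0xb00000200500d012000400a17cc24511)) (.one (nat_lit 0xb00000300500d012000600a17cc24511))))) (.br (Nat.shiftLeft (nat_lit 0x6000001) (nat_lit 101)) (.br (Nat.shiftLeft (nat_lit 0x3) (nat_lit 126)) (.one (nat_lit 0xb00000400500d012000800a17cc24511)) (.one (nat_lit 0xc00000100500d012000200a19d024511))) (.br (Nat.shiftLeft (nat_lit 0xc000003) (nat_lit 100)) (.one (nat_lit 0xc00000200500d012000400a19d024511)) (.br (Nat.shiftLeft (nat_lit 0x3000001) (nat_lit 102)) (.one (nat_lit 0xc00000300500d012000600a19d024511)) (.one (nat_lit 0xc00000400500d012000800a19d024511))))))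
noncomputable def b220 : BT := .node (nat_lit 0x1) (nat_lit 0x4b193009d8939275a4e000ba60000cb6000b2db004cb602000e300028) .leaf .leaf
def t219 : k219.all (jb2 57 fl b220) = true := by decide +kernel
noncomputable def k220 : KT := (.br (Nat.shiftLeft (nat_lit 0x800000801) (nat_lit 102)) (.br (Nat.shiftLeft (nat_lit 0x800001) (nat_lit 113)) (.br (Nat.shiftLeft (nat_lit 0x3400001) (nat_lit 102)) (.br (Nat.shiftLeft (nat_lit 0x6800001) (nat_lit 101)) (.one (nat_lit 0xd00000100500d012000200a1bd424511)) (.br (Nat.shiftLeft (nat_lit 0xd000003) (nat_lit 100)) (.one (nat_lit 0xd00000200500d012000400a1bd424511)) (.one (nat_lit 0xd00000300500d012000600a1bd424511)))) (.br (Nat.shiftLeft (nat_lit 0x1000001003) (nat_lit 100)) (.br (Nat.shiftLeft (nat_lit 0x1) (nat_lit 136)) (.one (nat_lit 0xd00000400500d012000800a1bd424511)) (.one (nat_lit 0x100000100200500d012200402a41a024611))) (.br (Nat.shiftLeft (nat_lit 0x400000401) (nat_lit 102)) (.one (nat_lit 0x100000100300500d012200602a41a024611)) (.one (nat_lit 0x100000100400500d012200802a41a024611)))))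 (.br (Nat.shiftLeft (nat_lit 0x1) (nat_lit 137)) (.br (Nat.shiftLeft (nat_lit 0x400000801) (nat_lit 102)) (.one (nat_lit 0x100000200300500d012400602a41a024611)) (.br (Nat.shiftLeft (nat_lit 0x1000003) (nat_lit 112)) (.one (nat_lit 0x100000200400500d012400802a41a024611)) (.one (nat_lit 0x100000300400500d012600802a41a024611)))) (.br (Nat.shiftLeft (nat_lit 0x800000401) (nat_lit 102)) (.br (Nat.shiftLeft (nat_lit 0x2000001003) (nat_lit 100)) (.one (nat_lit 0x200000100200500d012200404a81a024611)) (.one (nat_lit 0x200000100300500d012200604a81a024611))) (.br (Nat.shiftLeft (nat_lit 0x1000001) (nat_lit 113)) (.one (nat_lit 0x200000100400500d012200804a81a024611)) (.one (nat_lit 0x200000200300500d012400604a81a024611)))))) (.br (Nat.shiftLeft (nat_lit 0x3000003) (nat_lit 112)) (.br (Nat.shiftLeft (nat_lit 0x3000001003) (nat_lit 100)) (.br (Nat.shiftLeft (nat_lit 0x2000003) (nat_lit 112)) (.one (nat_lit 0x200000200400500d012400804a81a024611)) (.br (Nat.shiftLeft (nat_lit 0x3) (nat_lit 136)) (.one (nat_lit 0x200000300400500d012600804a81a024611))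 (.one (nat_lit 0x300000100200500d012200406ac1a024611)))) (.br (Nat.shiftLeft (nat_lit 0x1800001) (nat_lit 113)) (.br (Nat.shiftLeft (nat_lit 0xc00000401) (nat_lit 102)) (.one (nat_lit 0x300000100300500d012200606ac1a024611)) (.one (nat_lit 0x300000100400500d012200806ac1a024611))) (.br (Nat.shiftLeft (nat_lit 0xc00000801) (nat_lit 102)) (.one (nat_lit 0x300000200300500d012400606ac1a024611)) (.one (nat_lit 0x300000200400500d012400806ac1a024611))))) (.br (Nat.shiftLeft (nat_lit 0x1000000401) (nat_lit 102)) (.br (Nat.shiftLeft (nat_lit 0x1) (nat_lit 138)) (.one (nat_lit 0x300000300400500d012600806ac1a024611)) (.br (Nat.shiftLeft (nat_lit 0x4000001003) (nat_lit 100)) (.one (nat_lit 0x400000100200500d012200408b01a024611)) (.one (nat_lit 0x400000100300500d012200608b01a024611)))) (.br (Nat.shiftLeft (nat_lit 0x1000000801) (nat_lit 102)) (.br (Nat.shiftLeft (nat_lit 0x2000001) (nat_lit 113)) (.one (nat_lit 0x400000100400500d012200808b01a024611)) (.one (nat_lit 0x400000200300500d012400608b01a024611))) (.br (Nat.shiftLeft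 (nat_lit 0x4000003) (nat_lit 112)) (.one (nat_lit 0x400000200400500d012400808b01a024611)) (.one (nat_lit 0x400000300400500d012600808b01a024611)))))))
def t220 : k220.all (jb2 57 fl b0) = true := by decide +kernel
noncomputable def k221 : KT := (.br (Nat.shiftLeft (nat_lit 0x1400000401) (nat_lit 102)) (.br (Nat.shiftLeft (nat_lit 0x5000001003) (nat_lit 100)) (.one (nat_lit 0x500000100200500d01220040ab41a024611)) (.one (nat_lit 0x500000100300500d01220060ab41a024611))) (.br (Nat.shiftLeft (nat_lit 0x2800001) (nat_lit 113)) (.one (nat_lit 0x500000100400500d01220080ab41a024611)) (.one (nat_lit 0x500000200300500d01240060ab41a024611))))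
def t221 : k221.all (jb2 57 fl b0) = true := by decide +kernel
noncomputable def k222 : KT := (.br (Nat.shiftLeft (nat_lit 0x3) (nat_lit 137)) (.br (Nat.shiftLeft (nat_lit 0x5000003) (nat_lit 112)) (.one (nat_lit 0x500000200400500d01240080ab41a024611)) (.one (nat_lit 0x500000300400500d01260080ab41a024611))) (.br (Nat.shiftLeft (nat_lit 0x6000001003) (nat_lit 100)) (.one (nat_lit 0x600000100200500d01220040cb81a024611)) (.one (nat_lit 0x600000100300500d01220060cb81a024611))))
def t222 : k222.all (jb2 57 fl b0) = true := by decide +kernel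
noncomputable def k223 : KT := (.br (Nat.shiftLeft (nat_lit 0x1800000801) (nat_lit 102)) (.br (Nat.shiftLeft (nat_lit 0x3000001) (nat_lit 113)) (.one (nat_lit 0x600000100400500d01220080cb81a024611)) (.one (nat_lit 0x600000200300500d01240060cb81a024611))) (.br (Nat.shiftLeft (nat_lit 0x6000003) (nat_lit 112)) (.one (nat_lit 0x600000200400500d01240080cb81a024611)) (.one (nat_lit 0x600000300400500d01260080cb81a024611))))
def t223 : k223.all (jb2 57 fl b0) = true := by decide +kernel
noncomputable def k224 : KT := (.br (Nat.shiftLeft (nat_lit 0x1c00000401) (nat_lit 102)) (.br (Nat.shiftLeft (nat_lit 0x7000001003) (nat_lit 100)) (.one (nat_lit 0x700000100200500d01220040ebc1a024611)) (.one (nat_lit 0x700000100300500d01220060ebc1a024611))) (.br (Nat.shiftLeft (nat_lit 0x3800001) (nat_lit 113)) (.one (nat_lit 0x700000100400500d01220080ebc1a024611)) (.one (nat_lit 0x700000200300500d01240060ebc1a024611))))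
def t224 : k224.all (jb2 57 fl b0) = true := by decide +kernel
noncomputable def k225 : KT := (.br (Nat.shiftLeft (nat_lit 0x1) (nat_lit 139)) (.br (Nat.shiftLeft (nat_lit 0x7000003) (nat_lit 112)) (.one (nat_lit 0x700000200400500d01240080ebc1a024611)) (.one (nat_lit 0x700000300400500d01260080ebc1a024611))) (.br (Nat.shiftLeft (nat_lit 0x8000001003) (nat_lit 100)) (.one (nat_lit 0x800000100200500d012200410c01a024611)) (.br (Nat.shiftLeft (nat_lit 0x2000000401) (nat_lit 102)) (.one (nat_lit 0x800000100300500d012200610c01a024611)) (.one (nat_lit 0x800000100400500d012200810c01a024611)))))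
def t225 : k225.all (jb2 57 fl b0) = true := by decide +kernel
noncomputable def k226 : KT := (.br (Nat.shiftLeft (nat_lit 0x9) (nat_lit 136)) (.br (Nat.shiftLeft (nat_lit 0x2000000801) (nat_lit 102)) (.one (nat_lit 0x800000200300500d012400610c01a024611)) (.br (Nat.shiftLeft (nat_lit 0x8000003) (nat_lit 112)) (.one (nat_lit 0x800000200400500d012400810c01a024611)) (.one (nat_lit 0x800000300400500d012600810c01a024611)))) (.br (Nat.shiftLeft (nat_lit 0x2400000401) (nat_lit 102)) (.br (Nat.shiftLeft (nat_lit 0x9000001003) (nat_lit 100)) (.one (nat_lit 0x900000100200500d012200412c41a024611)) (.one (nat_lit 0x900000100300500d012200612c41a024611))) (.br (Nat.shiftLeft (nat_lit 0x4800001) (nat_lit 113)) (.one (nat_lit 0x900000100400500d012200812c41a024611)) (.one (nat_lit 0x900000200300500d012400612c41a024611)))))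
def t226 : k226.all (jb2 57 fl b0) = true := by decide +kernel
noncomputable def k227 : KT := (.br (Nat.shiftLeft (nat_lit 0xa000003) (nat_lit 112)) (.br (Nat.shiftLeft (nat_lit 0xa000001003) (nat_lit 100)) (.br (Nat.shiftLeft (nat_lit 0x9000003) (nat_lit 112)) (.one (nat_lit 0x900000200400500d012400812c41a024611)) (.br (Nat.shiftLeft (nat_lit 0x5) (nat_lit 137)) (.one (nat_lit 0x900000300400500d012600812c41a024611)) (.one (nat_lit 0xa00000100200500d012200414c81a024611)))) (.br (Nat.shiftLeft (nat_lit 0x5000001) (nat_lit 113)) (.br (Nat.shiftLeft (nat_lit 0x2800000401) (nat_lit 102)) (.one (nat_lit 0xa00000100300500d012200614c81a024611)) (.one (nat_lit 0xa00000100400500d012200814c81a024611))) (.br (Nat.shiftLeft (nat_lit 0x2800000801) (nat_lit 102)) (.one (nat_lit 0xa00000200300500d012400614c81a024611)) (.one (nat_lit 0xa00000200400500d012400814c81a024611))))) (.br (Nat.shiftLeft (nat_lit 0x2c00000401) (nat_lit 102)) (.br (Nat.shiftLeft (nat_lit 0xb) (nat_lit 136)) (.one (nat_lit 0xa00000300400500d012600814c81a024611))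 (.br (Nat.shiftLeft (nat_lit 0xb000001003) (nat_lit 100)) (.one (nat_lit 0xb00000100200500d012200416cc1a024611)) (.one (nat_lit 0xb00000100300500d012200616cc1a024611)))) (.br (Nat.shiftLeft (nat_lit 0x2c00000801) (nat_lit 102)) (.br (Nat.shiftLeft (nat_lit 0x5800001) (nat_lit 113)) (.one (nat_lit 0xb00000100400500d012200816cc1a024611)) (.one (nat_lit 0xb00000200300500d012400616cc1a024611))) (.br (Nat.shiftLeft (nat_lit 0xb000003) (nat_lit 112)) (.one (nat_lit 0xb00000200400500d012400816cc1a024611)) (.one (nat_lit 0xb00000300400500d012600816cc1a024611))))))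
def t227 : k227.all (jb2 57 fl b0) = true := by decide +kernel
noncomputable def k228 : KT := (.br (Nat.shiftLeft (nat_lit 0xd) (nat_lit 136)) (.br (Nat.shiftLeft (nat_lit 0x6000001) (nat_lit 113)) (.br (Nat.shiftLeft (nat_lit 0xc000001003) (nat_lit 100)) (.one (nat_lit 0xc00000100200500d012200418d01a024611)) (.br (Nat.shiftLeft (nat_lit 0x3000000401) (nat_lit 102)) (.one (nat_lit 0xc00000100300500d012200618d01a024611)) (.one (nat_lit 0xc00000100400500d012200818d01a024611)))) (.br (Nat.shiftLeft (nat_lit 0x3000000801) (nat_lit 102)) (.one (nat_lit 0xc00000200300500d012400618d01a024611)) (.br (Nat.shiftLeft (nat_lit 0xc000003) (nat_lit 112)) (.one (nat_lit 0xc00000200400500d012400818d01a024611)) (.one (nat_lit 0xc00000300400500d012600818d01a024611))))) (.br (Nat.shiftLeft (nat_lit 0x6800001) (nat_lit 113)) (.br (Nat.shiftLeft (nat_lit 0xd000001003) (nat_lit 100)) (.one (nat_lit 0xd00000100200500d01220041ad41a024611)) (.br (Nat.shiftLeft (nat_lit 0x3400000401) (nat_lit 102)) (.one (nat_lit 0xd00000100300500d01220061ad41a024611))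 (.one (nat_lit 0xd00000100400500d01220081ad41a024611)))) (.br (Nat.shiftLeft (nat_lit 0x3400000801) (nat_lit 102)) (.one (nat_lit 0xd00000200300500d01240061ad41a024611)) (.br (Nat.shiftLeft (nat_lit 0xd000003) (nat_lit 112)) (.one (nat_lit 0xd00000200400500d01240081ad41a024611)) (.one (nat_lit 0xd00000300400500d01260081ad41a024611))))))
def t228 : k228.all (jb2 57 fl b0) = true := by decide +kernel
noncomputable def s13 : KT := (.br (nat_lit 0xa00000200500d012000400a15c824511) (.br (nat_lit 0x200300400500d012600800a05a824760) (.br (nat_lit 0x100200300500d012400600a03a424760) (.br (nat_lit 0x100000400500d012000800a03a424511) k210 k211) (.br (nat_lit 0x100200400500d012400800a03a424760) k212 k213)) (.br (nat_lit 0x700000100500d012000200a0fbc24511) (.br (nat_lit 0x500000400500d012000800a0bb424511) k214 k215) (.br (nat_lit 0x800000100500d012000200a11c024511) k216 (.br (nat_lit 0x900000100500d012000200a13c424511) k217 k218)))) (.br (nat_lit 0x600000300400500d01260080cb81a024611) (.br (nat_lit 0x400000300400500d012600808b01a024611)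 (.br (nat_lit 0xc00000400500d012000800a19d024511) k219 k220) (.br (nat_lit 0x500000200300500d01240060ab41a024611) k221 (.br (nat_lit 0x600000100300500d01220060cb81a024611) k222 k223))) (.br (nat_lit 0x800000100400500d012200810c01a024611) (.br (nat_lit 0x700000200300500d01240060ebc1a024611) k224 k225) (.br (nat_lit 0x900000200300500d012400612c41a024611) k226 (.br (nat_lit 0xb00000300400500d012600816cc1a024611) k227 k228)))))
noncomputable def u13 : KT := (.one (nat_lit 0x500d012000000a01a024430))
def w13 : u13.all (wj 57 s13) = true := by decide +kernel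
def o13 : OkW 57 (jb2 57 fl) u13 := .lift s13 _ (.br _ _ _ (.br _ _ _ (.br _ _ _ (.br _ _ _ (.leaf b211 k210 t210) (.leaf b0 k211 t211)) (.br _ _ _ (.leaf b0 k212 t212) (.leaf b0 k213 t213))) (.br _ _ _ (.br _ _ _ (.leaf b0 k214 t214) (.leaf b0 k215 t215)) (.br _ _ _ (.leaf b0 k216 t216) (.br _ _ _ (.leaf b218 k217 t217) (.leaf b219 k218 t218))))) (.br _ _ _ (.br _ _ _ (.br _ _ _ (.leaf b220 k219 t219) (.leaf b0 k220 t220)) (.br _ _ _ (.leaf b0 k221 t221) (.br _ _ _ (.leaf b0 k222 t222) (.leaf b0 k223 t223)))) (.br _ _ _ (.br _ _ _ (.leaf b0 k224 t224) (.leaf b0 k225 t225)) (.br _ _ _ (.leaf b0 k226 t226) (.br _ _ _ (.leaf b0 k227 t227) (.leaf b0 k228 t228)))))) w13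
noncomputable def k229 : KT := (.br (Nat.shiftLeft (nat_lit 0x1) (nat_lit 113)) (.br (Nat.shiftLeft (nat_lit 0x1) (nat_lit 102)) (.br (Nat.shiftLeft (nat_lit 0x1) (nat_lit 101)) (.br (Nat.shiftLeft (nat_lit 0x1) (nat_lit 100)) (.one (nat_lit 0x500d013000000a01a027400)) (.one (nat_lit 0x100500d013000200a01a027500))) (.br (Nat.shiftLeft (nat_lit 0x3) (nat_lit 100)) (.one (nat_lit 0x200500d013000400a01a027500)) (.one (nat_lit 0x300500d013000600a01a027500)))) (.br (Nat.shiftLeft (nat_lit 0x801) (nat_lit 101)) (.br (Nat.shiftLeft (nat_lit 0x1) (nat_lit 112)) (.one (nat_lit 0x400500d013000800a01a027500)) (.one (nat_lit 0x100000500d013200000a01a026411))) (.br (Nat.shiftLeft (nat_lit 0x1003) (nat_lit 100)) (.one (nat_lit 0x100200500d013200400a01a027600)) (.br (Nat.shiftLeft (nat_lit 0x401) (nat_lit 102)) (.one (nat_lit 0x100300500d013200600a01a027600)) (.one (nat_lit 0x100400500d013200800a01a026650)))))) (.br (Nat.shiftLeft (nat_lit 0xc01) (nat_lit 102)) (.br (Nat.shiftLeft (nat_lit 0x801) (nat_lit 102)) (.br (Nat.shiftLeft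 (nat_lit 0x1001) (nat_lit 101)) (.one (nat_lit 0x200000500d013400000a01a026411)) (.one (nat_lit 0x200300500d013400600a01a027600))) (.br (Nat.shiftLeft (nat_lit 0x3) (nat_lit 112)) (.one (nat_lit 0x200400500d013400800a01a027600)) (.one (nat_lit 0x300000500d013600000a01a026411)))) (.br (Nat.shiftLeft (nat_lit 0x5) (nat_lit 112)) (.br (Nat.shiftLeft (nat_lit 0x1) (nat_lit 114)) (.one (nat_lit 0x300400500d013600800a01a027600)) (.one (nat_lit 0x400000500d013800000a01a026411))) (.br (Nat.shiftLeft (nat_lit 0x3) (nat_lit 113)) (.one (nat_lit 0x500000500d013a00000a01a026411)) (.br (Nat.shiftLeft (nat_lit 0x7) (nat_lit 112)) (.one (nat_lit 0x600000500d013c00000a01a026411)) (.one (nat_lit 0x700000500d013e00000a01a026411)))))))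
def t229 : k229.all (jb2 57 fl b0) = true := by decide +kernel
noncomputable def k230 : KT := (.br (Nat.shiftLeft (nat_lit 0xd) (nat_lit 112)) (.br (Nat.shiftLeft (nat_lit 0x5) (nat_lit 113)) (.br (Nat.shiftLeft (nat_lit 0x9) (nat_lit 112)) (.one (nat_lit 0x800000500d013000000a01a128411)) (.one (nat_lit 0x900000500d013200000a01a128411))) (.br (Nat.shiftLeft (nat_lit 0xb) (nat_lit 112)) (.one (nat_lit 0xa00000500d013400000a01a128411)) (.br (Nat.shiftLeft (nat_lit 0x3) (nat_lit 114)) (.one (nat_lit 0xb00000500d013600000a01a128411)) (.one (nat_lit 0xc00000500d013800000a01a128411))))) (.br (Nat.shiftLeft (nat_lit 0x800001) (nat_lit 101)) (.br (Nat.shiftLeft (nat_lit 0x1) (nat_lit 124)) (.one (nat_lit 0xd00000500d013a00000a01a128411)) (.one (nat_lit 0x100000100500d013000200a03a426511))) (.br (Nat.shiftLeft (nat_lit 0x1000003) (nat_lit 100)) (.one (nat_lit 0x100000200500d013000400a03a426511)) (.br (Nat.shiftLeft (nat_lit 0x400001) (nat_lit 102)) (.one (nat_lit 0x100000300500d013000600a03a426511)) (.one (nat_lit 0x100000400500d013000800a03a426511))))))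
noncomputable def b231 : BT := .node (nat_lit 0xb) (nat_lit 0x258db6696449c13ad272005d4c00265b400596d80065b4149c24e4982001d4c80065b40d134b224e4003a99000e9781a264ea28a36cc98496325e24e49d85134b1a4e4003a99000cb640032a2000ac60004259000ac70003a98000e9784db26d994500032d9000ac6410043a0043a0037f0031f0031f002c0002c000150001500015000150000f0) .leaf .leaf
def t230 : k230.all (jb2 57 fl b231) = true := by decide +kernel
noncomputable def k231 : KT := (.one (nat_lit 0x100200300500d013400600a03a426760))
def t231 : k231.all (jb2 57 fl b0) = true := by decide +kernel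
noncomputable def k232 : KT := (.br (Nat.shiftLeft (nat_lit 0x1000001) (nat_lit 101)) (.br (Nat.shiftLeft (nat_lit 0x1003) (nat_lit 112)) (.one (nat_lit 0x100200400500d013400800a03a426760)) (.br (Nat.shiftLeft (nat_lit 0x1) (nat_lit 125)) (.one (nat_lit 0x100300400500d013600800a03a426760)) (.one (nat_lit 0x200000100500d013000200a05a826511)))) (.br (Nat.shiftLeft (nat_lit 0x2000003) (nat_lit 100)) (.one (nat_lit 0x200000200500d013000400a05a826511)) (.br (Nat.shiftLeft (nat_lit 0x800001) (nat_lit 102)) (.one (nat_lit 0x200000300500d013000600a05a826511)) (.one (nat_lit 0x200000400500d013000800a05a826511)))))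
def t232 : k232.all (jb2 57 fl b0) = true := by decide +kernel
noncomputable def k233 : KT := (.br (Nat.shiftLeft (nat_lit 0x1) (nat_lit 126)) (.br (Nat.shiftLeft (nat_lit 0x1800001) (nat_lit 101)) (.br (Nat.shiftLeft (nat_lit 0x3) (nat_lit 124)) (.one (nat_lit 0x200300400500d013600800a05a826760)) (.one (nat_lit 0x300000100500d013000200a07ac26511))) (.br (Nat.shiftLeft (nat_lit 0x3000003) (nat_lit 100)) (.one (nat_lit 0x300000200500d013000400a07ac26511)) (.br (Nat.shiftLeft (nat_lit 0xc00001) (nat_lit 102)) (.one (nat_lit 0x300000300500d013000600a07ac26511)) (.one (nat_lit 0x300000400500d013000800a07ac26511))))) (.br (Nat.shiftLeft (nat_lit 0x1000001) (nat_lit 102)) (.br (Nat.shiftLeft (nat_lit 0x2000001) (nat_lit 101)) (.one (nat_lit 0x400000100500d013000200a09b026511)) (.br (Nat.shiftLeft (nat_lit 0x4000003) (nat_lit 100)) (.one (nat_lit 0x400000200500d013000400a09b026511)) (.one (nat_lit 0x400000300500d013000600a09b026511)))) (.br (Nat.shiftLeft (nat_lit 0x5) (nat_lit 124)) (.one (nat_lit 0x400000400500d013000800a09b026511))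 (.br (Nat.shiftLeft (nat_lit 0x2800001) (nat_lit 101)) (.one (nat_lit 0x500000100500d013000200a0bb426511)) (.one (nat_lit 0x500000200500d013000400a0bb426511))))))
def t233 : k233.all (jb2 57 fl b0) = true := by decide +kernel
noncomputable def k234 : KT := (.br (Nat.shiftLeft (nat_lit 0x3000001) (nat_lit 101)) (.br (Nat.shiftLeft (nat_lit 0x1400001) (nat_lit 102)) (.one (nat_lit 0x500000300500d013000600a0bb426511)) (.br (Nat.shiftLeft (nat_lit 0x3) (nat_lit 125)) (.one (nat_lit 0x500000400500d013000800a0bb426511)) (.one (nat_lit 0x600000100500d013000200a0db826511)))) (.br (Nat.shiftLeft (nat_lit 0x6000003) (nat_lit 100)) (.one (nat_lit 0x600000200500d013000400a0db826511)) (.br (Nat.shiftLeft (nat_lit 0x1800001) (nat_lit 102)) (.one (nat_lit 0x600000300500d013000600a0db826511)) (.one (nat_lit 0x600000400500d013000800a0db826511)))))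
def t234 : k234.all (jb2 57 fl b0) = true := by decide +kernel
noncomputable def k235 : KT := (.br (Nat.shiftLeft (nat_lit 0x7000003) (nat_lit 100)) (.br (Nat.shiftLeft (nat_lit 0x3800001) (nat_lit 101)) (.one (nat_lit 0x700000100500d013000200a0fbc26511)) (.one (nat_lit 0x700000200500d013000400a0fbc26511))) (.br (Nat.shiftLeft (nat_lit 0x1c00001) (nat_lit 102)) (.one (nat_lit 0x700000300500d013000600a0fbc26511)) (.br (Nat.shiftLeft (nat_lit 0x1) (nat_lit 127)) (.one (nat_lit 0x700000400500d013000800a0fbc26511)) (.one (nat_lit 0x800000100500d013000200a11c026511)))))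
def t235 : k235.all (jb2 57 fl b0) = true := by decide +kernel
noncomputable def k236 : KT := (.br (Nat.shiftLeft (nat_lit 0x9) (nat_lit 124)) (.br (Nat.shiftLeft (nat_lit 0x8000003) (nat_lit 100)) (.one (nat_lit 0x800000200500d013000400a11c026511)) (.br (Nat.shiftLeft (nat_lit 0x2000001) (nat_lit 102)) (.one (nat_lit 0x800000300500d013000600a11c026511)) (.one (nat_lit 0x800000400500d013000800a11c026511)))) (.br (Nat.shiftLeft (nat_lit 0x4800001) (nat_lit 101)) (.one (nat_lit 0x900000100500d013000200a13c426511)) (.br (Nat.shiftLeft (nat_lit 0x9000003) (nat_lit 100)) (.one (nat_lit 0x900000200500d013000400a13c426511)) (.one (nat_lit 0x900000300500d013000600a13c426511)))))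
def t236 : k236.all (jb2 57 fl b0) = true := by decide +kernel
noncomputable def k237 : KT := (.br (Nat.shiftLeft (nat_lit 0xb) (nat_lit 124)) (.br (Nat.shiftLeft (nat_lit 0x5000001) (nat_lit 101)) (.br (Nat.shiftLeft (nat_lit 0x5) (nat_lit 125)) (.one (nat_lit 0x900000400500d013000800a13c426511)) (.one (nat_lit 0xa00000100500d013000200a15c826511))) (.br (Nat.shiftLeft (nat_lit 0xa000003) (nat_lit 100)) (.one (nat_lit 0xa00000200500d013000400a15c826511)) (.br (Nat.shiftLeft (nat_lit 0x2800001) (nat_lit 102)) (.one (nat_lit 0xa00000300500d013000600a15c826511)) (.one (nat_lit 0xa00000400500d013000800a15c826511))))) (.br (Nat.shiftLeft (nat_lit 0xb000003) (nat_lit 100)) (.br (Nat.shiftLeft (nat_lit 0x5800001) (nat_lit 101)) (.one (nat_lit 0xb00000100500d013000200a17cc26511)) (.one (nat_lit 0xb00000200500d013000400a17cc26511))) (.br (Nat.shiftLeft (nat_lit 0x2c00001) (nat_lit 102)) (.one (nat_lit 0xb00000300500d013000600a17cc26511)) (.br (Nat.shiftLeft (nat_lit 0x3) (nat_lit 126)) (.one (nat_lit 0xb00000400500d013000800a17cc26511))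 (.one (nat_lit 0xc00000100500d013000200a19d026511))))))
noncomputable def b238 : BT := .node (nat_lit 0xb) (nat_lit 0x6d936cd274db26d993a8003a98000ab800032d9000ac64293849c1304003a99000ab841db22761450003a610008d6410026b0026b001b000150001500015000150001500015000150000f0000f0) .leaf .leaf
def t237 : k237.all (jb2 57 fl b238) = true := by decide +kernel
noncomputable def k238 : KT := (.br (Nat.shiftLeft (nat_lit 0x2000001003) (nat_lit 100)) (.br (Nat.shiftLeft (nat_lit 0x3400001) (nat_lit 102)) (.br (Nat.shiftLeft (nat_lit 0xd) (nat_lit 124)) (.br (Nat.shiftLeft (nat_lit 0xc000003) (nat_lit 100)) (.one (nat_lit 0xc00000200500d013000400a19d026511)) (.br (Nat.shiftLeft (nat_lit 0x3000001) (nat_lit 102)) (.one (nat_lit 0xc00000300500d013000600a19d026511)) (.one (nat_lit 0xc00000400500d013000800a19d026511)))) (.br (Nat.shiftLeft (nat_lit 0x6800001) (nat_lit 101)) (.one (nat_lit 0xd00000100500d013000200a1bd426511)) (.br (Nat.shiftLeft (nat_lit 0xd000003) (nat_lit 100)) (.one (nat_lit 0xd00000200500d013000400a1bd426511))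 (.one (nat_lit 0xd00000300500d013000600a1bd426511))))) (.br (Nat.shiftLeft (nat_lit 0x800001) (nat_lit 113)) (.br (Nat.shiftLeft (nat_lit 0x1) (nat_lit 136)) (.one (nat_lit 0xd00000400500d013000800a1bd426511)) (.br (Nat.shiftLeft (nat_lit 0x1000001003) (nat_lit 100)) (.one (nat_lit 0x100000100200500d013200402a41a026611)) (.one (nat_lit 0x100000100300500d013200602a41a026611)))) (.br (Nat.shiftLeft (nat_lit 0x1000003) (nat_lit 112)) (.br (Nat.shiftLeft (nat_lit 0x400000801) (nat_lit 102)) (.one (nat_lit 0x100000200300500d013400602a41a026611)) (.one (nat_lit 0x100000200400500d013400802a41a026611))) (.br (Nat.shiftLeft (nat_lit 0x1) (nat_lit 137)) (.one (nat_lit 0x100000300400500d013600802a41a026611)) (.one (nat_lit 0x200000100200500d013200404a81a026611)))))) (.br (Nat.shiftLeft (nat_lit 0xc00000801) (nat_lit 102)) (.br (Nat.shiftLeft (nat_lit 0x2000003) (nat_lit 112)) (.br (Nat.shiftLeft (nat_lit 0x1000001) (nat_lit 113)) (.one (nat_lit 0x200000100300500d013200604a81a026611)) (.br (Nat.shiftLeft (nat_lit 0x800000801)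 (nat_lit 102)) (.one (nat_lit 0x200000200300500d013400604a81a026611)) (.one (nat_lit 0x200000200400500d013400804a81a026611)))) (.br (Nat.shiftLeft (nat_lit 0x3000001003) (nat_lit 100)) (.br (Nat.shiftLeft (nat_lit 0x3) (nat_lit 136)) (.one (nat_lit 0x200000300400500d013600804a81a026611)) (.one (nat_lit 0x300000100200500d013200406ac1a026611))) (.br (Nat.shiftLeft (nat_lit 0x1800001) (nat_lit 113)) (.one (nat_lit 0x300000100300500d013200606ac1a026611)) (.one (nat_lit 0x300000200300500d013400606ac1a026611))))) (.br (Nat.shiftLeft (nat_lit 0x4000001003) (nat_lit 100)) (.br (Nat.shiftLeft (nat_lit 0x3000003) (nat_lit 112)) (.one (nat_lit 0x300000200400500d013400806ac1a026611)) (.br (Nat.shiftLeft (nat_lit 0x1) (nat_lit 138)) (.one (nat_lit 0x300000300400500d013600806ac1a026611)) (.one (nat_lit 0x400000100200500d013200408b01a026611)))) (.br (Nat.shiftLeft (nat_lit 0x1000000801) (nat_lit 102)) (.br (Nat.shiftLeft (nat_lit 0x2000001) (nat_lit 113)) (.one (nat_lit 0x400000100300500d013200608b01a026611)) (.one (nat_lit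 0x400000200300500d013400608b01a026611))) (.br (Nat.shiftLeft (nat_lit 0x4000003) (nat_lit 112)) (.one (nat_lit 0x400000200400500d013400808b01a026611)) (.one (nat_lit 0x400000300400500d013600808b01a026611)))))))
def t238 : k238.all (jb2 57 fl b0) = true := by decide +kernel
noncomputable def k239 : KT := (.br (Nat.shiftLeft (nat_lit 0x2800001) (nat_lit 113)) (.br (Nat.shiftLeft (nat_lit 0x5000001003) (nat_lit 100)) (.one (nat_lit 0x500000100200500d01320040ab41a026611)) (.one (nat_lit 0x500000100300500d01320060ab41a026611))) (.br (Nat.shiftLeft (nat_lit 0x1400000801) (nat_lit 102)) (.one (nat_lit 0x500000200300500d01340060ab41a026611)) (.br (Nat.shiftLeft (nat_lit 0x5000003) (nat_lit 112)) (.one (nat_lit 0x500000200400500d01340080ab41a026611)) (.one (nat_lit 0x500000300400500d01360080ab41a026611)))))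
def t239 : k239.all (jb2 57 fl b0) = true := by decide +kernel
noncomputable def k240 : KT := (.br (Nat.shiftLeft (nat_lit 0x3000001) (nat_lit 113)) (.br (Nat.shiftLeft (nat_lit 0x6000001003) (nat_lit 100)) (.one (nat_lit 0x600000100200500d01320040cb81a026611)) (.one (nat_lit 0x600000100300500d01320060cb81a026611))) (.br (Nat.shiftLeft (nat_lit 0x1800000801) (nat_lit 102)) (.one (nat_lit 0x600000200300500d01340060cb81a026611)) (.br (Nat.shiftLeft (nat_lit 0x6000003) (nat_lit 112)) (.one (nat_lit 0x600000200400500d01340080cb81a026611)) (.one (nat_lit 0x600000300400500d01360080cb81a026611)))))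
def t240 : k240.all (jb2 57 fl b0) = true := by decide +kernel
noncomputable def k241 : KT := (.br (Nat.shiftLeft (nat_lit 0x1c00000801) (nat_lit 102)) (.br (Nat.shiftLeft (nat_lit 0x7000001003) (nat_lit 100)) (.one (nat_lit 0x700000100200500d01320040ebc1a026611)) (.br (Nat.shiftLeft (nat_lit 0x3800001) (nat_lit 113)) (.one (nat_lit 0x700000100300500d01320060ebc1a026611)) (.one (nat_lit 0x700000200300500d01340060ebc1a026611)))) (.br (Nat.shiftLeft (nat_lit 0x7000003) (nat_lit 112)) (.one (nat_lit 0x700000200400500d01340080ebc1a026611)) (.br (Nat.shiftLeft (nat_lit 0x1) (nat_lit 139)) (.one (nat_lit 0x700000300400500d01360080ebc1a026611)) (.one (nat_lit 0x800000100200500d013200410c01a026611)))))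
def t241 : k241.all (jb2 57 fl b0) = true := by decide +kernel
noncomputable def k242 : KT := (.br (Nat.shiftLeft (nat_lit 0x9000001003) (nat_lit 100)) (.br (Nat.shiftLeft (nat_lit 0x2000000801) (nat_lit 102)) (.br (Nat.shiftLeft (nat_lit 0x4000001) (nat_lit 113)) (.one (nat_lit 0x800000100300500d013200610c01a026611)) (.one (nat_lit 0x800000200300500d013400610c01a026611))) (.br (Nat.shiftLeft (nat_lit 0x8000003) (nat_lit 112)) (.one (nat_lit 0x800000200400500d013400810c01a026611)) (.br (Nat.shiftLeft (nat_lit 0x9) (nat_lit 136)) (.one (nat_lit 0x800000300400500d013600810c01a026611)) (.one (nat_lit 0x900000100200500d013200412c41a026611))))) (.br (Nat.shiftLeft (nat_lit 0x2400000801) (nat_lit 102)) (.br (Nat.shiftLeft (nat_lit 0x4800001) (nat_lit 113)) (.one (nat_lit 0x900000100300500d013200612c41a026611)) (.one (nat_lit 0x900000200300500d013400612c41a026611))) (.br (Nat.shiftLeft (nat_lit 0x9000003) (nat_lit 112)) (.one (nat_lit 0x900000200400500d013400812c41a026611)) (.br (Nat.shiftLeft (nat_lit 0x5) (nat_lit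 137)) (.one (nat_lit 0x900000300400500d013600812c41a026611)) (.one (nat_lit 0xa00000100200500d013200414c81a026611))))))
def t242 : k242.all (jb2 57 fl b0) = true := by decide +kernel
noncomputable def k243 : KT := (.br (Nat.shiftLeft (nat_lit 0x3) (nat_lit 138)) (.br (Nat.shiftLeft (nat_lit 0xb) (nat_lit 136)) (.br (Nat.shiftLeft (nat_lit 0x2800000801) (nat_lit 102)) (.br (Nat.shiftLeft (nat_lit 0x5000001) (nat_lit 113)) (.one (nat_lit 0xa00000100300500d013200614c81a026611)) (.one (nat_lit 0xa00000200300500d013400614c81a026611))) (.br (Nat.shiftLeft (nat_lit 0xa000003) (nat_lit 112)) (.one (nat_lit 0xa00000200400500d013400814c81a026611)) (.one (nat_lit 0xa00000300400500d013600814c81a026611)))) (.br (Nat.shiftLeft (nat_lit 0x5800001) (nat_lit 113)) (.br (Nat.shiftLeft (nat_lit 0xb000001003) (nat_lit 100)) (.one (nat_lit 0xb00000100200500d013200416cc1a026611)) (.one (nat_lit 0xb00000100300500d013200616cc1a026611))) (.br (Nat.shiftLeft (nat_lit 0x2c00000801) (nat_lit 102)) (.one (nat_lit 0xb00000200300500d013400616cc1a026611))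 (.br (Nat.shiftLeft (nat_lit 0xb000003) (nat_lit 112)) (.one (nat_lit 0xb00000200400500d013400816cc1a026611)) (.one (nat_lit 0xb00000300400500d013600816cc1a026611)))))) (.br (Nat.shiftLeft (nat_lit 0xd) (nat_lit 136)) (.br (Nat.shiftLeft (nat_lit 0x6000001) (nat_lit 113)) (.br (Nat.shiftLeft (nat_lit 0xc000001003) (nat_lit 100)) (.one (nat_lit 0xc00000100200500d013200418d01a026611)) (.one (nat_lit 0xc00000100300500d013200618d01a026611))) (.br (Nat.shiftLeft (nat_lit 0x3000000801) (nat_lit 102)) (.one (nat_lit 0xc00000200300500d013400618d01a026611)) (.br (Nat.shiftLeft (nat_lit 0xc000003) (nat_lit 112)) (.one (nat_lit 0xc00000200400500d013400818d01a026611)) (.one (nat_lit 0xc00000300400500d013600818d01a026611))))) (.br (Nat.shiftLeft (nat_lit 0x6800001) (nat_lit 113)) (.br (Nat.shiftLeft (nat_lit 0xd000001003) (nat_lit 100)) (.one (nat_lit 0xd00000100200500d01320041ad41a026611)) (.one (nat_lit 0xd00000100300500d01320061ad41a026611))) (.br (Nat.shiftLeft (nat_lit 0x3400000801) (nat_lit 102)) (.one (nat_lit 0xd00000200300500d01340061ad41a026611))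 (.br (Nat.shiftLeft (nat_lit 0xd000003) (nat_lit 112)) (.one (nat_lit 0xd00000200400500d01340081ad41a026611)) (.one (nat_lit 0xd00000300400500d01360081ad41a026611)))))))
def t243 : k243.all (jb2 57 fl b0) = true := by decide +kernel
noncomputable def s14 : KT := (.br (nat_lit 0x800000100500d013000200a11c026511) (.br (nat_lit 0x100200300500d013400600a03a426760) (.br (nat_lit 0x700000500d013e00000a01a026411) k229 (.br (nat_lit 0x100000400500d013000800a03a426511) k230 k231)) (.br (nat_lit 0x500000200500d013000400a0bb426511) (.br (nat_lit 0x200000400500d013000800a05a826511) k232 k233) (.br (nat_lit 0x600000400500d013000800a0db826511) k234 k235))) (.br (nat_lit 0x500000300400500d01360080ab41a026611) (.br (nat_lit 0xc00000100500d013000200a19d026511) (.br (nat_lit 0x900000300500d013000600a13c426511) k236 k237) (.br (nat_lit 0x400000300400500d013600808b01a026611) k238 k239)) (.br (nat_lit 0x800000100200500d013200410c01a026611) (.br (nat_lit 0x600000300400500d01360080cb81a026611) k240 k241) (.br (nat_lit 0xa00000100200500d013200414c81a026611)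 k242 k243))))
noncomputable def u14 : KT := (.one (nat_lit 0x500d013000000a01a026430))
def w14 : u14.all (wj 57 s14) = true := by decide +kernel
def o14 : OkW 57 (jb2 57 fl) u14 := .lift s14 _ (.br _ _ _ (.br _ _ _ (.br _ _ _ (.leaf b0 k229 t229) (.br _ _ _ (.leaf b231 k230 t230) (.leaf b0 k231 t231))) (.br _ _ _ (.br _ _ _ (.leaf b0 k232 t232) (.leaf b0 k233 t233)) (.br _ _ _ (.leaf b0 k234 t234) (.leaf b0 k235 t235)))) (.br _ _ _ (.br _ _ _ (.br _ _ _ (.leaf b0 k236 t236) (.leaf b238 k237 t237)) (.br _ _ _ (.leaf b0 k238 t238) (.leaf b0 k239 t239))) (.br _ _ _ (.br _ _ _ (.leaf b0 k240 t240) (.leaf b0 k241 t241)) (.br _ _ _ (.leaf b0 k242 t242) (.leaf b0 k243 t243))))) w14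
noncomputable def k244 : KT := (.br (Nat.shiftLeft (nat_lit 0x500d015) (nat_lit 64)) (.one (nat_lit 0x500d014000000a01a029400)) (.br (Nat.shiftLeft (nat_lit 0x1) (nat_lit 100)) (.one (nat_lit 0x500d015000000a01a02b400)) (.one (nat_lit 0x100500d014000200a01a028540))))
def t244 : k244.all (jb2 57 fl b0) = true := by decide +kernel
noncomputable def k245 : KT := (.br (Nat.shiftLeft (nat_lit 0x1) (nat_lit 102)) (.br (Nat.shiftLeft (nat_lit 0x200500d015) (nat_lit 64)) (.br (Nat.shiftLeft (nat_lit 0x1) (nat_lit 101)) (.one (nat_lit 0x100500d015000200a01a02a540)) (.one (nat_lit 0x200500d014000400a01a029500))) (.br (Nat.shiftLeft (nat_lit 0x3) (nat_lit 100)) (.one (nat_lit 0x200500d015000400a01a02b500)) (.br (Nat.shiftLeft (nat_lit 0x300500d015) (nat_lit 64)) (.one (nat_lit 0x300500d014000600a01a029500)) (.one (nat_lit 0x300500d015000600a01a02b500))))) (.br (Nat.shiftLeft (nat_lit 0x1) (nat_lit 112)) (.br (Nat.shiftLeft (nat_lit 0x400500d015) (nat_lit 64)) (.one (nat_lit 0x400500d014000800a01a029500)) (.one (nat_lit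 0x400500d015000800a01a02b500))) (.br (Nat.shiftLeft (nat_lit 0x100000500d015) (nat_lit 64)) (.one (nat_lit 0x100000500d014200000a01a028411)) (.br (Nat.shiftLeft (nat_lit 0x801) (nat_lit 101)) (.one (nat_lit 0x100000500d015200000a01a02a411)) (.one (nat_lit 0x100200500d014200400a01a029600))))))
def t245 : k245.all (jb2 57 fl b0) = true := by decide +kernel
noncomputable def k246 : KT := (.one (nat_lit 0x100200500d015200400a01a02a650))
def t246 : k246.all (jb2 57 fl b0) = true := by decide +kernel
noncomputable def k247 : KT := (.one (nat_lit 0x100300500d014200600a01a028650))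
def t247 : k247.all (jb2 57 fl b0) = true := by decide +kernel
noncomputable def k248 : KT := (.one (nat_lit 0x100300500d015200600a01a02a650))
def t248 : k248.all (jb2 57 fl b0) = true := by decide +kernel
noncomputable def k249 : KT := (.one (nat_lit 0x100400500d014200800a01a028650))
def t249 : k249.all (jb2 57 fl b0) = true := by decide +kernel
noncomputable def k250 : KT := (.br (Nat.shiftLeft (nat_lit 0x200000500d015) (nat_lit 64)) (.br (Nat.shiftLeft (nat_lit 0x1) (nat_lit 113)) (.one (nat_lit 0x100400500d015200800a01a02a650)) (.one (nat_lit 0x200000500d014400000a01a028411))) (.br (Nat.shiftLeft (nat_lit 0x1001) (nat_lit 101)) (.one (nat_lit 0x200000500d015400000a01a02a411)) (.one (nat_lit 0x200300500d014400600a01a029600))))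
def t250 : k250.all (jb2 57 fl b0) = true := by decide +kernel
noncomputable def k251 : KT := (.one (nat_lit 0x200300500d015400600a01a02a650))
def t251 : k251.all (jb2 57 fl b0) = true := by decide +kernel
noncomputable def k252 : KT := (.one (nat_lit 0x200400500d014400800a01a028650))
def t252 : k252.all (jb2 57 fl b0) = true := by decide +kernel
noncomputable def k253 : KT := (.br (Nat.shiftLeft (nat_lit 0x3) (nat_lit 112)) (.one (nat_lit 0x200400500d015400800a01a02a650)) (.br (Nat.shiftLeft (nat_lit 0x300000500d015) (nat_lit 64)) (.one (nat_lit 0x300000500d014600000a01a028411)) (.one (nat_lit 0x300000500d015600000a01a02a411))))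
def t253 : k253.all (jb2 57 fl b0) = true := by decide +kernel
noncomputable def k254 : KT := (.one (nat_lit 0x300400500d014600800a01a028650))
def t254 : k254.all (jb2 57 fl b0) = true := by decide +kernel
noncomputable def k255 : KT := (.br (Nat.shiftLeft (nat_lit 0x600000500d015) (nat_lit 64)) (.br (Nat.shiftLeft (nat_lit 0x5) (nat_lit 112)) (.br (Nat.shiftLeft (nat_lit 0x1) (nat_lit 114)) (.one (nat_lit 0x300400500d015600800a01a02a650)) (.br (Nat.shiftLeft (nat_lit 0x400000500d015) (nat_lit 64)) (.one (nat_lit 0x400000500d014800000a01a028411)) (.one (nat_lit 0x400000500d015800000a01a02a411)))) (.br (Nat.shiftLeft (nat_lit 0x500000500d015) (nat_lit 64)) (.one (nat_lit 0x500000500d014a00000a01a028411)) (.br (Nat.shiftLeft (nat_lit 0x3) (nat_lit 113)) (.one (nat_lit 0x500000500d015a00000a01a02a411)) (.one (nat_lit 0x600000500d014c00000a01a028411))))) (.br (Nat.shiftLeft (nat_lit 0x1) (nat_lit 115)) (.br (Nat.shiftLeft (nat_lit 0x7) (nat_lit 112)) (.one (nat_lit 0x600000500d015c00000a01a02a411)) (.br (Nat.shiftLeft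 (nat_lit 0x700000500d015) (nat_lit 64)) (.one (nat_lit 0x700000500d014e00000a01a028411)) (.one (nat_lit 0x700000500d015e00000a01a02a411)))) (.br (Nat.shiftLeft (nat_lit 0x800000500d015) (nat_lit 64)) (.one (nat_lit 0x800000500d014000000a01a12a411)) (.br (Nat.shiftLeft (nat_lit 0x9) (nat_lit 112)) (.one (nat_lit 0x800000500d015000000a01a12c411)) (.one (nat_lit 0x900000500d014200000a01a12a411))))))
def t255 : k255.all (jb2 57 fl b0) = true := by decide +kernel
noncomputable def k256 : KT := (.br (Nat.shiftLeft (nat_lit 0x100000400500d015) (nat_lit 64)) (.br (Nat.shiftLeft (nat_lit 0xd) (nat_lit 112)) (.br (Nat.shiftLeft (nat_lit 0xb) (nat_lit 112)) (.br (Nat.shiftLeft (nat_lit 0x5) (nat_lit 113)) (.one (nat_lit 0x900000500d015200000a01a12c411)) (.br (Nat.shiftLeft (nat_lit 0xa00000500d015) (nat_lit 64)) (.one (nat_lit 0xa00000500d014400000a01a12a411)) (.one (nat_lit 0xa00000500d015400000a01a12c411)))) (.br (Nat.shiftLeft (nat_lit 0x3) (nat_lit 114)) (.br (Nat.shiftLeft (nat_lit 0xb00000500d015) (nat_lit 64)) (.one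 (nat_lit 0xb00000500d014600000a01a12a411)) (.one (nat_lit 0xb00000500d015600000a01a12c411))) (.br (Nat.shiftLeft (nat_lit 0xc00000500d015) (nat_lit 64)) (.one (nat_lit 0xc00000500d014800000a01a12a411)) (.one (nat_lit 0xc00000500d015800000a01a12c411))))) (.br (Nat.shiftLeft (nat_lit 0x100000200500d015) (nat_lit 64)) (.br (Nat.shiftLeft (nat_lit 0xd00000500d015) (nat_lit 64)) (.one (nat_lit 0xd00000500d014a00000a01a12a411)) (.br (Nat.shiftLeft (nat_lit 0x1) (nat_lit 124)) (.one (nat_lit 0xd00000500d015a00000a01a12c411)) (.one (nat_lit 0x100000200500d014000400a03a428511)))) (.br (Nat.shiftLeft (nat_lit 0x100000300500d015) (nat_lit 64)) (.br (Nat.shiftLeft (nat_lit 0x1000003) (nat_lit 100)) (.one (nat_lit 0x100000200500d015000400a03a42a511)) (.one (nat_lit 0x100000300500d014000600a03a428511))) (.br (Nat.shiftLeft (nat_lit 0x400001) (nat_lit 102)) (.one (nat_lit 0x100000300500d015000600a03a42a511)) (.one (nat_lit 0x100000400500d014000800a03a428511)))))) (.br (Nat.shiftLeft (nat_lit 0x200000400500d015) (nat_lit 64))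 (.br (Nat.shiftLeft (nat_lit 0x200000200500d015) (nat_lit 64)) (.br (Nat.shiftLeft (nat_lit 0x801) (nat_lit 113)) (.one (nat_lit 0x100000400500d015000800a03a42a511)) (.br (Nat.shiftLeft (nat_lit 0x1) (nat_lit 125)) (.one (nat_lit 0x100200300500d014400600a03a428760)) (.one (nat_lit 0x200000200500d014000400a05a828511)))) (.br (Nat.shiftLeft (nat_lit 0x200000300500d015) (nat_lit 64)) (.br (Nat.shiftLeft (nat_lit 0x2000003) (nat_lit 100)) (.one (nat_lit 0x200000200500d015000400a05a82a511)) (.one (nat_lit 0x200000300500d014000600a05a828511))) (.br (Nat.shiftLeft (nat_lit 0x800001) (nat_lit 102)) (.one (nat_lit 0x200000300500d015000600a05a82a511)) (.one (nat_lit 0x200000400500d014000800a05a828511))))) (.br (Nat.shiftLeft (nat_lit 0x3000003) (nat_lit 100)) (.br (Nat.shiftLeft (nat_lit 0x3) (nat_lit 124)) (.one (nat_lit 0x200000400500d015000800a05a82a511)) (.br (Nat.shiftLeft (nat_lit 0x300000200500d015) (nat_lit 64)) (.one (nat_lit 0x300000200500d014000400a07ac28511)) (.one (nat_lit 0x300000200500d015000400a07ac2a511))))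 (.br (Nat.shiftLeft (nat_lit 0xc00001) (nat_lit 102)) (.br (Nat.shiftLeft (nat_lit 0x300000300500d015) (nat_lit 64)) (.one (nat_lit 0x300000300500d014000600a07ac28511)) (.one (nat_lit 0x300000300500d015000600a07ac2a511))) (.br (Nat.shiftLeft (nat_lit 0x300000400500d015) (nat_lit 64)) (.one (nat_lit 0x300000400500d014000800a07ac28511)) (.one (nat_lit 0x300000400500d015000800a07ac2a511)))))))
noncomputable def b257 : BT := .node (nat_lit 0x1) (nat_lit 0x5132759450003a60000cb6810008700028) .leaf .leaf
def t256 : k256.all (jb2 57 fl b257) = true := by decide +kernel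
noncomputable def k257 : KT := (.br (Nat.shiftLeft (nat_lit 0x400000400500d015) (nat_lit 64)) (.br (Nat.shiftLeft (nat_lit 0x4000003) (nat_lit 100)) (.br (Nat.shiftLeft (nat_lit 0x400000200500d015) (nat_lit 64)) (.one (nat_lit 0x400000200500d014000400a09b028511)) (.one (nat_lit 0x400000200500d015000400a09b02a511))) (.br (Nat.shiftLeft (nat_lit 0x400000300500d015) (nat_lit 64)) (.one (nat_lit 0x400000300500d014000600a09b028511)) (.br (Nat.shiftLeft (nat_lit 0x1000001) (nat_lit 102)) (.one (nat_lit 0x400000300500d015000600a09b02a511)) (.one (nat_lit 0x400000400500d014000800a09b028511))))) (.br (Nat.shiftLeft (nat_lit 0x500000200500d015) (nat_lit 64)) (.br (Nat.shiftLeft (nat_lit 0x5) (nat_lit 124)) (.one (nat_lit 0x400000400500d015000800a09b02a511)) (.one (nat_lit 0x500000200500d014000400a0bb428511))) (.br (Nat.shiftLeft (nat_lit 0x5000003) (nat_lit 100)) (.one (nat_lit 0x500000200500d015000400a0bb42a511)) (.br (Nat.shiftLeft (nat_lit 0x500000300500d015) (nat_lit 64)) (.one (nat_lit 0x500000300500d014000600a0bb428511))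 (.one (nat_lit 0x500000300500d015000600a0bb42a511))))))
def t257 : k257.all (jb2 57 fl b0) = true := by decide +kernel
noncomputable def k258 : KT := (.br (Nat.shiftLeft (nat_lit 0x600000200500d015) (nat_lit 64)) (.br (Nat.shiftLeft (nat_lit 0x500000400500d015) (nat_lit 64)) (.one (nat_lit 0x500000400500d014000800a0bb428511)) (.br (Nat.shiftLeft (nat_lit 0x3) (nat_lit 125)) (.one (nat_lit 0x500000400500d015000800a0bb42a511)) (.one (nat_lit 0x600000200500d014000400a0db828511)))) (.br (Nat.shiftLeft (nat_lit 0x600000300500d015) (nat_lit 64)) (.br (Nat.shiftLeft (nat_lit 0x6000003) (nat_lit 100)) (.one (nat_lit 0x600000200500d015000400a0db82a511)) (.one (nat_lit 0x600000300500d014000600a0db828511))) (.br (Nat.shiftLeft (nat_lit 0x1800001) (nat_lit 102)) (.one (nat_lit 0x600000300500d015000600a0db82a511)) (.one (nat_lit 0x600000400500d014000800a0db828511)))))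
def t258 : k258.all (jb2 57 fl b0) = true := by decide +kernel
noncomputable def k259 : KT := (.br (Nat.shiftLeft (nat_lit 0x700000300500d015) (nat_lit 64)) (.br (Nat.shiftLeft (nat_lit 0x700000200500d015) (nat_lit 64)) (.br (Nat.shiftLeft (nat_lit 0x7) (nat_lit 124)) (.one (nat_lit 0x600000400500d015000800a0db82a511)) (.one (nat_lit 0x700000200500d014000400a0fbc28511))) (.br (Nat.shiftLeft (nat_lit 0x7000003) (nat_lit 100)) (.one (nat_lit 0x700000200500d015000400a0fbc2a511)) (.one (nat_lit 0x700000300500d014000600a0fbc28511)))) (.br (Nat.shiftLeft (nat_lit 0x700000400500d015) (nat_lit 64)) (.br (Nat.shiftLeft (nat_lit 0x1c00001) (nat_lit 102)) (.one (nat_lit 0x700000300500d015000600a0fbc2a511)) (.one (nat_lit 0x700000400500d014000800a0fbc28511))) (.br (Nat.shiftLeft (nat_lit 0x1) (nat_lit 127)) (.one (nat_lit 0x700000400500d015000800a0fbc2a511)) (.one (nat_lit 0x800000200500d014000400a11c028511)))))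
def t259 : k259.all (jb2 57 fl b0) = true := by decide +kernel
noncomputable def k260 : KT := (.br (Nat.shiftLeft (nat_lit 0x9) (nat_lit 124)) (.br (Nat.shiftLeft (nat_lit 0x800000300500d015) (nat_lit 64)) (.br (Nat.shiftLeft (nat_lit 0x8000003) (nat_lit 100)) (.one (nat_lit 0x800000200500d015000400a11c02a511)) (.one (nat_lit 0x800000300500d014000600a11c028511))) (.br (Nat.shiftLeft (nat_lit 0x2000001) (nat_lit 102)) (.one (nat_lit 0x800000300500d015000600a11c02a511)) (.br (Nat.shiftLeft (nat_lit 0x800000400500d015) (nat_lit 64)) (.one (nat_lit 0x800000400500d014000800a11c028511)) (.one (nat_lit 0x800000400500d015000800a11c02a511))))) (.br (Nat.shiftLeft (nat_lit 0x900000300500d015) (nat_lit 64)) (.br (Nat.shiftLeft (nat_lit 0x900000200500d015) (nat_lit 64)) (.one (nat_lit 0x900000200500d014000400a13c428511)) (.br (Nat.shiftLeft (nat_lit 0x9000003) (nat_lit 100)) (.one (nat_lit 0x900000200500d015000400a13c42a511)) (.one (nat_lit 0x900000300500d014000600a13c428511)))) (.br (Nat.shiftLeft (nat_lit 0x2400001) (nat_lit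 102)) (.one (nat_lit 0x900000300500d015000600a13c42a511)) (.br (Nat.shiftLeft (nat_lit 0x900000400500d015) (nat_lit 64)) (.one (nat_lit 0x900000400500d014000800a13c428511)) (.one (nat_lit 0x900000400500d015000800a13c42a511))))))
def t260 : k260.all (jb2 57 fl b0) = true := by decide +kernel
noncomputable def k261 : KT := (.br (Nat.shiftLeft (nat_lit 0x3000001) (nat_lit 102)) (.br (Nat.shiftLeft (nat_lit 0xb000003) (nat_lit 100)) (.br (Nat.shiftLeft (nat_lit 0x2800001) (nat_lit 102)) (.br (Nat.shiftLeft (nat_lit 0xa000003) (nat_lit 100)) (.br (Nat.shiftLeft (nat_lit 0xa00000200500d015) (nat_lit 64)) (.one (nat_lit 0xa00000200500d014000400a15c828511)) (.one (nat_lit 0xa00000200500d015000400a15c82a511))) (.br (Nat.shiftLeft (nat_lit 0xa00000300500d015) (nat_lit 64)) (.one (nat_lit 0xa00000300500d014000600a15c828511)) (.one (nat_lit 0xa00000300500d015000600a15c82a511)))) (.br (Nat.shiftLeft (nat_lit 0xb) (nat_lit 124)) (.br (Nat.shiftLeft (nat_lit 0xa00000400500d015) (nat_lit 64)) (.one (nat_lit 0xa00000400500d014000800a15c828511))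 (.one (nat_lit 0xa00000400500d015000800a15c82a511))) (.br (Nat.shiftLeft (nat_lit 0xb00000200500d015) (nat_lit 64)) (.one (nat_lit 0xb00000200500d014000400a17cc28511)) (.one (nat_lit 0xb00000200500d015000400a17cc2a511))))) (.br (Nat.shiftLeft (nat_lit 0x3) (nat_lit 126)) (.br (Nat.shiftLeft (nat_lit 0x2c00001) (nat_lit 102)) (.br (Nat.shiftLeft (nat_lit 0xb00000300500d015) (nat_lit 64)) (.one (nat_lit 0xb00000300500d014000600a17cc28511)) (.one (nat_lit 0xb00000300500d015000600a17cc2a511))) (.br (Nat.shiftLeft (nat_lit 0xb00000400500d015) (nat_lit 64)) (.one (nat_lit 0xb00000400500d014000800a17cc28511)) (.one (nat_lit 0xb00000400500d015000800a17cc2a511)))) (.br (Nat.shiftLeft (nat_lit 0xc000003) (nat_lit 100)) (.br (Nat.shiftLeft (nat_lit 0xc00000200500d015) (nat_lit 64)) (.one (nat_lit 0xc00000200500d014000400a19d028511)) (.one (nat_lit 0xc00000200500d015000400a19d02a511))) (.br (Nat.shiftLeft (nat_lit 0xc00000300500d015) (nat_lit 64)) (.one (nat_lit 0xc00000300500d014000600a19d028511)) (.one (nat_lit 0xc00000300500d015000600a19d02a511))))))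 (.br (Nat.shiftLeft (nat_lit 0x1) (nat_lit 136)) (.br (Nat.shiftLeft (nat_lit 0xd000003) (nat_lit 100)) (.br (Nat.shiftLeft (nat_lit 0xd) (nat_lit 124)) (.br (Nat.shiftLeft (nat_lit 0xc00000400500d015) (nat_lit 64)) (.one (nat_lit 0xc00000400500d014000800a19d028511)) (.one (nat_lit 0xc00000400500d015000800a19d02a511))) (.br (Nat.shiftLeft (nat_lit 0xd00000200500d015) (nat_lit 64)) (.one (nat_lit 0xd00000200500d014000400a1bd428511)) (.one (nat_lit 0xd00000200500d015000400a1bd42a511)))) (.br (Nat.shiftLeft (nat_lit 0x3400001) (nat_lit 102)) (.br (Nat.shiftLeft (nat_lit 0xd00000300500d015) (nat_lit 64)) (.one (nat_lit 0xd00000300500d014000600a1bd428511)) (.one (nat_lit 0xd00000300500d015000600a1bd42a511))) (.br (Nat.shiftLeft (nat_lit 0xd00000400500d015) (nat_lit 64)) (.one (nat_lit 0xd00000400500d014000800a1bd428511)) (.one (nat_lit 0xd00000400500d015000800a1bd42a511))))) (.br (Nat.shiftLeft (nat_lit 0x3) (nat_lit 136)) (.br (Nat.shiftLeft (nat_lit 0x1) (nat_lit 137)) (.br (Nat.shiftLeft (nat_lit 0x800001) (nat_lit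 113)) (.one (nat_lit 0x100000100200500d014200402a41a028611)) (.one (nat_lit 0x100000200300500d014400602a41a028611))) (.br (Nat.shiftLeft (nat_lit 0x1000001) (nat_lit 113)) (.one (nat_lit 0x200000100200500d014200404a81a028611)) (.one (nat_lit 0x200000200300500d014400604a81a028611)))) (.br (Nat.shiftLeft (nat_lit 0x1) (nat_lit 138)) (.br (Nat.shiftLeft (nat_lit 0x1800001) (nat_lit 113)) (.one (nat_lit 0x300000100200500d014200406ac1a028611)) (.one (nat_lit 0x300000200300500d014400606ac1a028611))) (.br (Nat.shiftLeft (nat_lit 0x2000001) (nat_lit 113)) (.one (nat_lit 0x400000100200500d014200408b01a028611)) (.one (nat_lit 0x400000200300500d014400608b01a028611)))))))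
def t261 : k261.all (jb2 57 fl b0) = true := by decide +kernel
noncomputable def k262 : KT := (.br (Nat.shiftLeft (nat_lit 0x3000001) (nat_lit 113)) (.br (Nat.shiftLeft (nat_lit 0x2800001) (nat_lit 113)) (.one (nat_lit 0x500000100200500d01420040ab41a028611)) (.br (Nat.shiftLeft (nat_lit 0x3) (nat_lit 137)) (.one (nat_lit 0x500000200300500d01440060ab41a028611)) (.one (nat_lit 0x600000100200500d01420040cb81a028611)))) (.br (Nat.shiftLeft (nat_lit 0x3800001) (nat_lit 113)) (.br (Nat.shiftLeft (nat_lit 0x7) (nat_lit 136)) (.one (nat_lit 0x600000200300500d01440060cb81a028611)) (.one (nat_lit 0x700000100200500d01420040ebc1a028611))) (.br (Nat.shiftLeft (nat_lit 0x1) (nat_lit 139)) (.one (nat_lit 0x700000200300500d01440060ebc1a028611)) (.one (nat_lit 0x800000100200500d014200410c01a028611)))))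
def t262 : k262.all (jb2 57 fl b0) = true := by decide +kernel
noncomputable def k263 : KT := (.br (Nat.shiftLeft (nat_lit 0xb) (nat_lit 136)) (.br (Nat.shiftLeft (nat_lit 0x4800001) (nat_lit 113)) (.br (Nat.shiftLeft (nat_lit 0x9) (nat_lit 136)) (.one (nat_lit 0x800000200300500d014400610c01a028611)) (.one (nat_lit 0x900000100200500d014200412c41a028611))) (.br (Nat.shiftLeft (nat_lit 0x5) (nat_lit 137)) (.one (nat_lit 0x900000200300500d014400612c41a028611)) (.br (Nat.shiftLeft (nat_lit 0x5000001) (nat_lit 113)) (.one (nat_lit 0xa00000100200500d014200414c81a028611)) (.one (nat_lit 0xa00000200300500d014400614c81a028611))))) (.br (Nat.shiftLeft (nat_lit 0x6000001) (nat_lit 113)) (.br (Nat.shiftLeft (nat_lit 0x5800001) (nat_lit 113)) (.one (nat_lit 0xb00000100200500d014200416cc1a028611)) (.br (Nat.shiftLeft (nat_lit 0x3) (nat_lit 138)) (.one (nat_lit 0xb00000200300500d014400616cc1a028611)) (.one (nat_lit 0xc00000100200500d014200418d01a028611)))) (.br (Nat.shiftLeft (nat_lit 0xd) (nat_lit 136)) (.one (nat_lit 0xc00000200300500d014400618d01a028611))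 (.br (Nat.shiftLeft (nat_lit 0x6800001) (nat_lit 113)) (.one (nat_lit 0xd00000100200500d01420041ad41a028611)) (.one (nat_lit 0xd00000200300500d01440061ad41a028611))))))
def t263 : k263.all (jb2 57 fl b0) = true := by decide +kernel
noncomputable def s15 : KT := (.br (nat_lit 0x300000500d015600000a01a02a411) (.br (nat_lit 0x100300500d015200600a01a02a650) (.br (nat_lit 0x100200500d014200400a01a029600) (.br (nat_lit 0x100500d014000200a01a028540) k244 k245) (.br (nat_lit 0x100200500d015200400a01a02a650) k246 (.br (nat_lit 0x100300500d014200600a01a028650) k247 k248))) (.br (nat_lit 0x200300500d014400600a01a029600) (.br (nat_lit 0x100400500d014200800a01a028650) k249 k250) (.br (nat_lit 0x200300500d015400600a01a02a650) k251 (.br (nat_lit 0x200400500d014400800a01a028650) k252 k253)))) (.br (nat_lit 0x600000400500d014000800a0db828511) (.br (nat_lit 0x900000500d014200000a01a12a411) (.br (nat_lit 0x300400500d014600800a01a028650) k254 k255) (.br (nat_lit 0x300000400500d015000800a07ac2a511) k256 (.br (nat_lit 0x500000300500d015000600a0bb42a511)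 k257 k258))) (.br (nat_lit 0x900000400500d015000800a13c42a511) (.br (nat_lit 0x800000200500d014000400a11c028511) k259 k260) (.br (nat_lit 0x400000200300500d014400608b01a028611) k261 (.br (nat_lit 0x800000100200500d014200410c01a028611) k262 k263)))))
noncomputable def u15 : KT := (.br (Nat.shiftLeft (nat_lit 0x500d015) (nat_lit 64)) (.one (nat_lit 0x500d014000000a01a028430)) (.one (nat_lit 0x500d015000000a01a02a430)))
def w15 : u15.all (wj 57 s15) = true := by decide +kernel
def o15 : OkW 57 (jb2 57 fl) u15 := .lift s15 _ (.br _ _ _ (.br _ _ _ (.br _ _ _ (.br _ _ _ (.leaf b0 k244 t244) (.leaf b0 k245 t245)) (.br _ _ _ (.leaf b0 k246 t246) (.br _ _ _ (.leaf b0 k247 t247) (.leaf b0 k248 t248)))) (.br _ _ _ (.br _ _ _ (.leaf b0 k249 t249) (.leaf b0 k250 t250)) (.br _ _ _ (.leaf b0 k251 t251) (.br _ _ _ (.leaf b0 k252 t252) (.leaf b0 k253 t253))))) (.br _ _ _ (.br _ _ _ (.br _ _ _ (.leaf b0 k254 t254) (.leaf b0 k255 t255)) (.br _ _ _ (.leaf b257 k256 t256) (.br _ _ _ (.leaf b0 k257 t257) (.leaf b0 k258 t258)))) (.br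 _ _ _ (.br _ _ _ (.leaf b0 k259 t259) (.leaf b0 k260 t260)) (.br _ _ _ (.leaf b0 k261 t261) (.br _ _ _ (.leaf b0 k262 t262) (.leaf b0 k263 t263)))))) w15
noncomputable def k264 : KT := (.br (Nat.shiftLeft (nat_lit 0x2807) (nat_lit 77)) (.br (Nat.shiftLeft (nat_lit 0x500d017) (nat_lit 64)) (.one (nat_lit 0x500d016000000a01a02d400)) (.one (nat_lit 0x500d017000000a01a02f400))) (.br (Nat.shiftLeft (nat_lit 0x1) (nat_lit 100)) (.one (nat_lit 0x500e00f000000a01c01f400)) (.one (nat_lit 0x100500d016000200a01a02c540))))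
def t264 : k264.all (jb2 57 fl b0) = true := by decide +kernel
noncomputable def k265 : KT := (.br (Nat.shiftLeft (nat_lit 0x1) (nat_lit 101)) (.one (nat_lit 0x100500d017000200a01a02e540)) (.one (nat_lit 0x200500d016000400a01a02d500)))
def t265 : k265.all (jb2 57 fl b0) = true := by decide +kernel
noncomputable def k266 : KT := (.br (Nat.shiftLeft (nat_lit 0x1) (nat_lit 102)) (.br (Nat.shiftLeft (nat_lit 0x3) (nat_lit 100)) (.one (nat_lit 0x200500d017000400a01a02e540)) (.br (Nat.shiftLeft (nat_lit 0x300500d017) (nat_lit 64)) (.one (nat_lit 0x300500d016000600a01a02d500)) (.one (nat_lit 0x300500d017000600a01a02f500)))) (.br (Nat.shiftLeft (nat_lit 0x1) (nat_lit 112)) (.br (Nat.shiftLeft (nat_lit 0x400500d017) (nat_lit 64)) (.one (nat_lit 0x400500d016000800a01a02d500)) (.one (nat_lit 0x400500d017000800a01a02f500))) (.br (Nat.shiftLeft (nat_lit 0x100000500d017) (nat_lit 64)) (.one (nat_lit 0x100000500d016200000a01a02c411)) (.one (nat_lit 0x100000500d017200000a01a02e411)))))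
def t266 : k266.all (jb2 57 fl b0) = true := by decide +kernel
noncomputable def k267 : KT := (.br (Nat.shiftLeft (nat_lit 0x1003) (nat_lit 100)) (.one (nat_lit 0x100200500d016200400a01a02c650)) (.one (nat_lit 0x100300500d016200600a01a02c650)))
def t267 : k267.all (jb2 57 fl b0) = true := by decide +kernel
noncomputable def k268 : KT := (.br (Nat.shiftLeft (nat_lit 0x100400500d017) (nat_lit 64)) (.br (Nat.shiftLeft (nat_lit 0x401) (nat_lit 102)) (.one (nat_lit 0x100300500d017200600a01a02e650)) (.one (nat_lit 0x100400500d016200800a01a02c650))) (.br (Nat.shiftLeft (nat_lit 0x1) (nat_lit 113)) (.one (nat_lit 0x100400500d017200800a01a02e650)) (.br (Nat.shiftLeft (nat_lit 0x200000500d017) (nat_lit 64)) (.one (nat_lit 0x200000500d016400000a01a02c411)) (.one (nat_lit 0x200000500d017400000a01a02e411)))))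
def t268 : k268.all (jb2 57 fl b0) = true := by decide +kernel
noncomputable def k269 : KT := (.br (Nat.shiftLeft (nat_lit 0x200300500d017) (nat_lit 64)) (.one (nat_lit 0x200300500d016400600a01a02c650)) (.one (nat_lit 0x200300500d017400600a01a02e650)))
def t269 : k269.all (jb2 57 fl b0) = true := by decide +kernel
noncomputable def k270 : KT := (.br (Nat.shiftLeft (nat_lit 0x3) (nat_lit 112)) (.br (Nat.shiftLeft (nat_lit 0x200400500d017) (nat_lit 64)) (.one (nat_lit 0x200400500d016400800a01a02c650)) (.one (nat_lit 0x200400500d017400800a01a02e650))) (.br (Nat.shiftLeft (nat_lit 0x300000500d017) (nat_lit 64)) (.one (nat_lit 0x300000500d016600000a01a02c411)) (.one (nat_lit 0x300000500d017600000a01a02e411))))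
def t270 : k270.all (jb2 57 fl b0) = true := by decide +kernel
noncomputable def k271 : KT := (.br (Nat.shiftLeft (nat_lit 0x500000500d017) (nat_lit 64)) (.br (Nat.shiftLeft (nat_lit 0x1) (nat_lit 114)) (.br (Nat.shiftLeft (nat_lit 0x300400500d017) (nat_lit 64)) (.one (nat_lit 0x300400500d016600800a01a02c650)) (.one (nat_lit 0x300400500d017600800a01a02e650))) (.br (Nat.shiftLeft (nat_lit 0x400000500d017) (nat_lit 64)) (.one (nat_lit 0x400000500d016800000a01a02c411)) (.br (Nat.shiftLeft (nat_lit 0x5) (nat_lit 112)) (.one (nat_lit 0x400000500d017800000a01a02e411)) (.one (nat_lit 0x500000500d016a00000a01a02c411))))) (.br (Nat.shiftLeft (nat_lit 0x7) (nat_lit 112)) (.br (Nat.shiftLeft (nat_lit 0x3) (nat_lit 113)) (.one (nat_lit 0x500000500d017a00000a01a02e411)) (.br (Nat.shiftLeft (nat_lit 0x600000500d017) (nat_lit 64)) (.one (nat_lit 0x600000500d016c00000a01a02c411)) (.one (nat_lit 0x600000500d017c00000a01a02e411)))) (.br (Nat.shiftLeft (nat_lit 0x700000500d017) (nat_lit 64)) (.one (nat_lit 0x700000500d016e00000a01a02c411))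 (.br (Nat.shiftLeft (nat_lit 0x1) (nat_lit 115)) (.one (nat_lit 0x700000500d017e00000a01a02e411)) (.one (nat_lit 0x800000500d016000000a01a12e411))))))
def t271 : k271.all (jb2 57 fl b0) = true := by decide +kernel
noncomputable def k272 : KT := (.br (Nat.shiftLeft (nat_lit 0x1) (nat_lit 125)) (.br (Nat.shiftLeft (nat_lit 0xc00000500d017) (nat_lit 64)) (.br (Nat.shiftLeft (nat_lit 0xa00000500d017) (nat_lit 64)) (.br (Nat.shiftLeft (nat_lit 0x900000500d017) (nat_lit 64)) (.br (Nat.shiftLeft (nat_lit 0x9) (nat_lit 112)) (.one (nat_lit 0x800000500d017000000a01a130411)) (.one (nat_lit 0x900000500d016200000a01a12e411))) (.br (Nat.shiftLeft (nat_lit 0x5) (nat_lit 113)) (.one (nat_lit 0x900000500d017200000a01a130411)) (.one (nat_lit 0xa00000500d016400000a01a12e411)))) (.br (Nat.shiftLeft (nat_lit 0xb00000500d017) (nat_lit 64)) (.br (Nat.shiftLeft (nat_lit 0xb) (nat_lit 112)) (.one (nat_lit 0xa00000500d017400000a01a130411)) (.one (nat_lit 0xb00000500d016600000a01a12e411))) (.br (Nat.shiftLeft (nat_lit 0x3) (nat_lit 114))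 (.one (nat_lit 0xb00000500d017600000a01a130411)) (.one (nat_lit 0xc00000500d016800000a01a12e411))))) (.br (Nat.shiftLeft (nat_lit 0x1000003) (nat_lit 100)) (.br (Nat.shiftLeft (nat_lit 0xd00000500d017) (nat_lit 64)) (.br (Nat.shiftLeft (nat_lit 0xd) (nat_lit 112)) (.one (nat_lit 0xc00000500d017800000a01a130411)) (.one (nat_lit 0xd00000500d016a00000a01a12e411))) (.br (Nat.shiftLeft (nat_lit 0x1) (nat_lit 124)) (.one (nat_lit 0xd00000500d017a00000a01a130411)) (.one (nat_lit 0x100000200500d016000400a03a42c511)))) (.br (Nat.shiftLeft (nat_lit 0x400001) (nat_lit 102)) (.br (Nat.shiftLeft (nat_lit 0x100000300500d017) (nat_lit 64)) (.one (nat_lit 0x100000300500d016000600a03a42c511)) (.one (nat_lit 0x100000300500d017000600a03a42e511))) (.br (Nat.shiftLeft (nat_lit 0x100000400500d017) (nat_lit 64)) (.one (nat_lit 0x100000400500d016000800a03a42c511)) (.one (nat_lit 0x100000400500d017000800a03a42e511)))))) (.br (Nat.shiftLeft (nat_lit 0xc00001) (nat_lit 102)) (.br (Nat.shiftLeft (nat_lit 0x200000400500d017) (nat_lit 64))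 (.br (Nat.shiftLeft (nat_lit 0x200000300500d017) (nat_lit 64)) (.br (Nat.shiftLeft (nat_lit 0x2000003) (nat_lit 100)) (.one (nat_lit 0x200000200500d016000400a05a82c511)) (.one (nat_lit 0x200000300500d016000600a05a82c511))) (.br (Nat.shiftLeft (nat_lit 0x800001) (nat_lit 102)) (.one (nat_lit 0x200000300500d017000600a05a82e511)) (.one (nat_lit 0x200000400500d016000800a05a82c511)))) (.br (Nat.shiftLeft (nat_lit 0x3000003) (nat_lit 100)) (.br (Nat.shiftLeft (nat_lit 0x3) (nat_lit 124)) (.one (nat_lit 0x200000400500d017000800a05a82e511)) (.one (nat_lit 0x300000200500d016000400a07ac2c511))) (.br (Nat.shiftLeft (nat_lit 0x300000300500d017) (nat_lit 64)) (.one (nat_lit 0x300000300500d016000600a07ac2c511)) (.one (nat_lit 0x300000300500d017000600a07ac2e511))))) (.br (Nat.shiftLeft (nat_lit 0x400000300500d017) (nat_lit 64)) (.br (Nat.shiftLeft (nat_lit 0x1) (nat_lit 126)) (.br (Nat.shiftLeft (nat_lit 0x300000400500d017) (nat_lit 64)) (.one (nat_lit 0x300000400500d016000800a07ac2c511)) (.one (nat_lit 0x300000400500d017000800a07ac2e511)))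 (.br (Nat.shiftLeft (nat_lit 0x4000003) (nat_lit 100)) (.one (nat_lit 0x400000200500d016000400a09b02c511)) (.one (nat_lit 0x400000300500d016000600a09b02c511)))) (.br (Nat.shiftLeft (nat_lit 0x400000400500d017) (nat_lit 64)) (.br (Nat.shiftLeft (nat_lit 0x1000001) (nat_lit 102)) (.one (nat_lit 0x400000300500d017000600a09b02e511)) (.one (nat_lit 0x400000400500d016000800a09b02c511))) (.br (Nat.shiftLeft (nat_lit 0x5) (nat_lit 124)) (.one (nat_lit 0x400000400500d017000800a09b02e511)) (.br (Nat.shiftLeft (nat_lit 0x5000003) (nat_lit 100)) (.one (nat_lit 0x500000200500d016000400a0bb42c511)) (.one (nat_lit 0x500000300500d016000600a0bb42c511))))))))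
def t272 : k272.all (jb2 57 fl b0) = true := by decide +kernel
noncomputable def k273 : KT := (.br (Nat.shiftLeft (nat_lit 0x1800001) (nat_lit 102)) (.br (Nat.shiftLeft (nat_lit 0x3) (nat_lit 125)) (.br (Nat.shiftLeft (nat_lit 0x1400001) (nat_lit 102)) (.one (nat_lit 0x500000300500d017000600a0bb42e511)) (.br (Nat.shiftLeft (nat_lit 0x500000400500d017) (nat_lit 64)) (.one (nat_lit 0x500000400500d016000800a0bb42c511)) (.one (nat_lit 0x500000400500d017000800a0bb42e511)))) (.br (Nat.shiftLeft (nat_lit 0x6000003) (nat_lit 100)) (.one (nat_lit 0x600000200500d016000400a0db82c511)) (.br (Nat.shiftLeft (nat_lit 0x600000300500d017) (nat_lit 64)) (.one (nat_lit 0x600000300500d016000600a0db82c511)) (.one (nat_lit 0x600000300500d017000600a0db82e511))))) (.br (Nat.shiftLeft (nat_lit 0x7000003) (nat_lit 100)) (.br (Nat.shiftLeft (nat_lit 0x600000400500d017) (nat_lit 64)) (.one (nat_lit 0x600000400500d016000800a0db82c511)) (.br (Nat.shiftLeft (nat_lit 0x7) (nat_lit 124)) (.one (nat_lit 0x600000400500d017000800a0db82e511)) (.one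 (nat_lit 0x700000200500d016000400a0fbc2c511)))) (.br (Nat.shiftLeft (nat_lit 0x1c00001) (nat_lit 102)) (.br (Nat.shiftLeft (nat_lit 0x700000300500d017) (nat_lit 64)) (.one (nat_lit 0x700000300500d016000600a0fbc2c511)) (.one (nat_lit 0x700000300500d017000600a0fbc2e511))) (.br (Nat.shiftLeft (nat_lit 0x700000400500d017) (nat_lit 64)) (.one (nat_lit 0x700000400500d016000800a0fbc2c511)) (.one (nat_lit 0x700000400500d017000800a0fbc2e511))))))
def t273 : k273.all (jb2 57 fl b0) = true := by decide +kernel
noncomputable def k274 : KT := (.br (Nat.shiftLeft (nat_lit 0xa00000400500d017) (nat_lit 64)) (.br (Nat.shiftLeft (nat_lit 0x900000300500d017) (nat_lit 64)) (.br (Nat.shiftLeft (nat_lit 0x2000001) (nat_lit 102)) (.br (Nat.shiftLeft (nat_lit 0x8000003) (nat_lit 100)) (.one (nat_lit 0x800000200500d016000400a11c02c511)) (.br (Nat.shiftLeft (nat_lit 0x800000300500d017) (nat_lit 64)) (.one (nat_lit 0x800000300500d016000600a11c02c511)) (.one (nat_lit 0x800000300500d017000600a11c02e511)))) (.br (Nat.shiftLeft (nat_lit 0x9)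 (nat_lit 124)) (.br (Nat.shiftLeft (nat_lit 0x800000400500d017) (nat_lit 64)) (.one (nat_lit 0x800000400500d016000800a11c02c511)) (.one (nat_lit 0x800000400500d017000800a11c02e511))) (.br (Nat.shiftLeft (nat_lit 0x9000003) (nat_lit 100)) (.one (nat_lit 0x900000200500d016000400a13c42c511)) (.one (nat_lit 0x900000300500d016000600a13c42c511))))) (.br (Nat.shiftLeft (nat_lit 0x5) (nat_lit 125)) (.br (Nat.shiftLeft (nat_lit 0x2400001) (nat_lit 102)) (.one (nat_lit 0x900000300500d017000600a13c42e511)) (.br (Nat.shiftLeft (nat_lit 0x900000400500d017) (nat_lit 64)) (.one (nat_lit 0x900000400500d016000800a13c42c511)) (.one (nat_lit 0x900000400500d017000800a13c42e511)))) (.br (Nat.shiftLeft (nat_lit 0xa00000300500d017) (nat_lit 64)) (.br (Nat.shiftLeft (nat_lit 0xa000003) (nat_lit 100)) (.one (nat_lit 0xa00000200500d016000400a15c82c511)) (.one (nat_lit 0xa00000300500d016000600a15c82c511))) (.br (Nat.shiftLeft (nat_lit 0x2800001) (nat_lit 102)) (.one (nat_lit 0xa00000300500d017000600a15c82e511)) (.one (nat_lit 0xa00000400500d016000800a15c82c511))))))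 (.br (Nat.shiftLeft (nat_lit 0xc000003) (nat_lit 100)) (.br (Nat.shiftLeft (nat_lit 0xb00000300500d017) (nat_lit 64)) (.br (Nat.shiftLeft (nat_lit 0xb) (nat_lit 124)) (.one (nat_lit 0xa00000400500d017000800a15c82e511)) (.br (Nat.shiftLeft (nat_lit 0xb000003) (nat_lit 100)) (.one (nat_lit 0xb00000200500d016000400a17cc2c511)) (.one (nat_lit 0xb00000300500d016000600a17cc2c511)))) (.br (Nat.shiftLeft (nat_lit 0xb00000400500d017) (nat_lit 64)) (.br (Nat.shiftLeft (nat_lit 0x2c00001) (nat_lit 102)) (.one (nat_lit 0xb00000300500d017000600a17cc2e511)) (.one (nat_lit 0xb00000400500d016000800a17cc2c511))) (.br (Nat.shiftLeft (nat_lit 0x3) (nat_lit 126)) (.one (nat_lit 0xb00000400500d017000800a17cc2e511)) (.one (nat_lit 0xc00000200500d016000400a19d02c511))))) (.br (Nat.shiftLeft (nat_lit 0xd) (nat_lit 124)) (.br (Nat.shiftLeft (nat_lit 0x3000001) (nat_lit 102)) (.br (Nat.shiftLeft (nat_lit 0xc00000300500d017) (nat_lit 64)) (.one (nat_lit 0xc00000300500d016000600a19d02c511)) (.one (nat_lit 0xc00000300500d017000600a19d02e511)))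 (.br (Nat.shiftLeft (nat_lit 0xc00000400500d017) (nat_lit 64)) (.one (nat_lit 0xc00000400500d016000800a19d02c511)) (.one (nat_lit 0xc00000400500d017000800a19d02e511)))) (.br (Nat.shiftLeft (nat_lit 0xd00000300500d017) (nat_lit 64)) (.br (Nat.shiftLeft (nat_lit 0xd000003) (nat_lit 100)) (.one (nat_lit 0xd00000200500d016000400a1bd42c511)) (.one (nat_lit 0xd00000300500d016000600a1bd42c511))) (.br (Nat.shiftLeft (nat_lit 0x3400001) (nat_lit 102)) (.one (nat_lit 0xd00000300500d017000600a1bd42e511)) (.one (nat_lit 0xd00000400500d016000800a1bd42c511)))))))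
def t274 : k274.all (jb2 57 fl b0) = true := by decide +kernel
noncomputable def s16 : KT := (.br (nat_lit 0x200000500d017400000a01a02e411) (.br (nat_lit 0x200500d016000400a01a02d500) (.br (nat_lit 0x100500d016000200a01a02c540) k264 k265) (.br (nat_lit 0x100000500d017200000a01a02e411) k266 (.br (nat_lit 0x100300500d016200600a01a02c650) k267 k268))) (.br (nat_lit 0x800000500d016000000a01a12e411) (.br (nat_lit 0x200300500d017400600a01a02e650) k269 (.br (nat_lit 0x300000500d017600000a01a02e411) k270 k271)) (.br (nat_lit 0x500000300500d016000600a0bb42c511) k272 (.br (nat_lit 0x700000400500d017000800a0fbc2e511) k273 k274))))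
noncomputable def u16 : KT := (.br (Nat.shiftLeft (nat_lit 0x500d017) (nat_lit 64)) (.one (nat_lit 0x500d016000000a01a02c430)) (.br (Nat.shiftLeft (nat_lit 0x2807) (nat_lit 77)) (.one (nat_lit 0x500d017000000a01a02e430)) (.one (nat_lit 0x500e00f000000a01c01f400))))
def w16 : u16.all (wj 57 s16) = true := by decide +kernel
def o16 : OkW 57 (jb2 57 fl) u16 := .lift s16 _ (.br _ _ _ (.br _ _ _ (.br _ _ _ (.leaf b0 k264 t264) (.leaf b0 k265 t265)) (.br _ _ _ (.leaf b0 k266 t266) (.br _ _ _ (.leaf b0 k267 t267) (.leaf b0 k268 t268)))) (.br _ _ _ (.br _ _ _ (.leaf b0 k269 t269) (.br _ _ _ (.leaf b0 k270 t270) (.leaf b0 k271 t271))) (.br _ _ _ (.leaf b0 k272 t272) (.br _ _ _ (.leaf b0 k273 t273) (.leaf b0 k274 t274))))) w16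
noncomputable def k275 : KT := (.br (Nat.shiftLeft (nat_lit 0x5) (nat_lit 112)) (.br (Nat.shiftLeft (nat_lit 0x1003) (nat_lit 100)) (.br (Nat.shiftLeft (nat_lit 0x3) (nat_lit 100)) (.br (Nat.shiftLeft (nat_lit 0x1) (nat_lit 100)) (.one (nat_lit 0x500e010000000a01c021400)) (.br (Nat.shiftLeft (nat_lit 0x1) (nat_lit 101)) (.one (nat_lit 0x100500e010000200a01c021500)) (.one (nat_lit 0x200500e010000400a01c021500)))) (.br (Nat.shiftLeft (nat_lit 0x1) (nat_lit 112)) (.br (Nat.shiftLeft (nat_lit 0x1) (nat_lit 102)) (.one (nat_lit 0x300500e010000600a01c021500)) (.one (nat_lit 0x400500e010000800a01c021500))) (.br (Nat.shiftLeft (nat_lit 0x801) (nat_lit 101)) (.one (nat_lit 0x100000500e010200000a01c020411)) (.one (nat_lit 0x100200500e010200400a01c021600))))) (.br (Nat.shiftLeft (nat_lit 0x801) (nat_lit 102)) (.br (Nat.shiftLeft (nat_lit 0x1) (nat_lit 113)) (.br (Nat.shiftLeft (nat_lit 0x401) (nat_lit 102)) (.one (nat_lit 0x100300500e010200600a01c021600)) (.one (nat_lit 0x100400500e010200800a01c021600))) (.br (Nat.shiftLeft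 (nat_lit 0x1001) (nat_lit 101)) (.one (nat_lit 0x200000500e010400000a01c020411)) (.one (nat_lit 0x200300500e010400600a01c021600)))) (.br (Nat.shiftLeft (nat_lit 0xc01) (nat_lit 102)) (.br (Nat.shiftLeft (nat_lit 0x3) (nat_lit 112)) (.one (nat_lit 0x200400500e010400800a01c021600)) (.one (nat_lit 0x300000500e010600000a01c020411))) (.br (Nat.shiftLeft (nat_lit 0x1) (nat_lit 114)) (.one (nat_lit 0x300400500e010600800a01c021600)) (.one (nat_lit 0x400000500e010800000a01c020411)))))) (.br (Nat.shiftLeft (nat_lit 0x3) (nat_lit 114)) (.br (Nat.shiftLeft (nat_lit 0x1) (nat_lit 115)) (.br (Nat.shiftLeft (nat_lit 0x3) (nat_lit 113)) (.one (nat_lit 0x500000500e010a00000a01c020411)) (.br (Nat.shiftLeft (nat_lit 0x7) (nat_lit 112)) (.one (nat_lit 0x600000500e010c00000a01c020411)) (.one (nat_lit 0x700000500e010e00000a01c020411)))) (.br (Nat.shiftLeft (nat_lit 0x5) (nat_lit 113)) (.br (Nat.shiftLeft (nat_lit 0x9) (nat_lit 112)) (.one (nat_lit 0x800000500e010000000a01c122411)) (.one (nat_lit 0x900000500e010200000a01c122411)))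 (.br (Nat.shiftLeft (nat_lit 0xb) (nat_lit 112)) (.one (nat_lit 0xa00000500e010400000a01c122411)) (.one (nat_lit 0xb00000500e010600000a01c122411))))) (.br (Nat.shiftLeft (nat_lit 0x800001) (nat_lit 101)) (.br (Nat.shiftLeft (nat_lit 0x7) (nat_lit 113)) (.br (Nat.shiftLeft (nat_lit 0xd) (nat_lit 112)) (.one (nat_lit 0xc00000500e010800000a01c122411)) (.one (nat_lit 0xd00000500e010a00000a01c122411))) (.br (Nat.shiftLeft (nat_lit 0x1) (nat_lit 124)) (.one (nat_lit 0xe00000500e010c00000a01c122411)) (.one (nat_lit 0x100000100500e010000200a03c420511)))) (.br (Nat.shiftLeft (nat_lit 0x400001) (nat_lit 102)) (.br (Nat.shiftLeft (nat_lit 0x1000003) (nat_lit 100)) (.one (nat_lit 0x100000200500e010000400a03c420511)) (.one (nat_lit 0x100000300500e010000600a03c420511))) (.br (Nat.shiftLeft (nat_lit 0x801) (nat_lit 113)) (.one (nat_lit 0x100000400500e010000800a03c420511)) (.one (nat_lit 0x100200300500e010400600a03c421700)))))))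
def t275 : k275.all (jb2 57 fl b0) = true := by decide +kernel
noncomputable def k276 : KT := (.one (nat_lit 0x100200400500e010400800a03c420760))
def t276 : k276.all (jb2 57 fl b0) = true := by decide +kernel
noncomputable def k277 : KT := (.br (Nat.shiftLeft (nat_lit 0x1000001) (nat_lit 101)) (.br (Nat.shiftLeft (nat_lit 0x1) (nat_lit 125)) (.one (nat_lit 0x100300400500e010600800a03c420760)) (.one (nat_lit 0x200000100500e010000200a05c820511))) (.br (Nat.shiftLeft (nat_lit 0x2000003) (nat_lit 100)) (.one (nat_lit 0x200000200500e010000400a05c820511)) (.br (Nat.shiftLeft (nat_lit 0x800001) (nat_lit 102)) (.one (nat_lit 0x200000300500e010000600a05c820511)) (.one (nat_lit 0x200000400500e010000800a05c820511)))))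
def t277 : k277.all (jb2 57 fl b0) = true := by decide +kernel
noncomputable def k278 : KT := (.br (Nat.shiftLeft (nat_lit 0x3000003) (nat_lit 100)) (.br (Nat.shiftLeft (nat_lit 0x3) (nat_lit 124)) (.one (nat_lit 0x200300400500e010600800a05c820760)) (.br (Nat.shiftLeft (nat_lit 0x1800001) (nat_lit 101)) (.one (nat_lit 0x300000100500e010000200a07cc20511)) (.one (nat_lit 0x300000200500e010000400a07cc20511)))) (.br (Nat.shiftLeft (nat_lit 0x1) (nat_lit 126)) (.br (Nat.shiftLeft (nat_lit 0xc00001) (nat_lit 102)) (.one (nat_lit 0x300000300500e010000600a07cc20511)) (.one (nat_lit 0x300000400500e010000800a07cc20511))) (.br (Nat.shiftLeft (nat_lit 0x2000001) (nat_lit 101)) (.one (nat_lit 0x400000100500e010000200a09d020511)) (.one (nat_lit 0x400000200500e010000400a09d020511)))))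
def t278 : k278.all (jb2 57 fl b0) = true := by decide +kernel
noncomputable def k279 : KT := (.br (Nat.shiftLeft (nat_lit 0x2800001) (nat_lit 101)) (.br (Nat.shiftLeft (nat_lit 0x1000001) (nat_lit 102)) (.one (nat_lit 0x400000300500e010000600a09d020511)) (.br (Nat.shiftLeft (nat_lit 0x5) (nat_lit 124)) (.one (nat_lit 0x400000400500e010000800a09d020511)) (.one (nat_lit 0x500000100500e010000200a0bd420511)))) (.br (Nat.shiftLeft (nat_lit 0x1400001) (nat_lit 102)) (.br (Nat.shiftLeft (nat_lit 0x5000003) (nat_lit 100)) (.one (nat_lit 0x500000200500e010000400a0bd420511)) (.one (nat_lit 0x500000300500e010000600a0bd420511))) (.br (Nat.shiftLeft (nat_lit 0x3) (nat_lit 125)) (.one (nat_lit 0x500000400500e010000800a0bd420511)) (.one (nat_lit 0x600000100500e010000200a0dd820511)))))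
def t279 : k279.all (jb2 57 fl b0) = true := by decide +kernel
noncomputable def k280 : KT := (.br (Nat.shiftLeft (nat_lit 0x1800001) (nat_lit 102)) (.br (Nat.shiftLeft (nat_lit 0x6000003) (nat_lit 100)) (.one (nat_lit 0x600000200500e010000400a0dd820511)) (.one (nat_lit 0x600000300500e010000600a0dd820511))) (.br (Nat.shiftLeft (nat_lit 0x7) (nat_lit 124)) (.one (nat_lit 0x600000400500e010000800a0dd820511)) (.one (nat_lit 0x700000100500e010000200a0fdc20511))))
def t280 : k280.all (jb2 57 fl b0) = true := by decide +kernel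
noncomputable def k281 : KT := (.br (Nat.shiftLeft (nat_lit 0x1c00001) (nat_lit 102)) (.br (Nat.shiftLeft (nat_lit 0x7000003) (nat_lit 100)) (.one (nat_lit 0x700000200500e010000400a0fdc20511)) (.one (nat_lit 0x700000300500e010000600a0fdc20511))) (.br (Nat.shiftLeft (nat_lit 0x1) (nat_lit 127)) (.one (nat_lit 0x700000400500e010000800a0fdc20511)) (.one (nat_lit 0x800000100500e010000200a11e020511))))
def t281 : k281.all (jb2 57 fl b0) = true := by decide +kernel
noncomputable def k282 : KT := (.br (Nat.shiftLeft (nat_lit 0x2000001) (nat_lit 102)) (.br (Nat.shiftLeft (nat_lit 0x8000003) (nat_lit 100)) (.one (nat_lit 0x800000200500e010000400a11e020511)) (.one (nat_lit 0x800000300500e010000600a11e020511))) (.br (Nat.shiftLeft (nat_lit 0x9) (nat_lit 124)) (.one (nat_lit 0x800000400500e010000800a11e020511)) (.one (nat_lit 0x900000100500e010000200a13e420511))))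
def t282 : k282.all (jb2 57 fl b0) = true := by decide +kernel
noncomputable def k283 : KT := (.br (Nat.shiftLeft (nat_lit 0x5) (nat_lit 125)) (.br (Nat.shiftLeft (nat_lit 0x9000003) (nat_lit 100)) (.one (nat_lit 0x900000200500e010000400a13e420511)) (.br (Nat.shiftLeft (nat_lit 0x2400001) (nat_lit 102)) (.one (nat_lit 0x900000300500e010000600a13e420511)) (.one (nat_lit 0x900000400500e010000800a13e420511)))) (.br (Nat.shiftLeft (nat_lit 0x5000001) (nat_lit 101)) (.one (nat_lit 0xa00000100500e010000200a15e820511)) (.br (Nat.shiftLeft (nat_lit 0xa000003) (nat_lit 100)) (.one (nat_lit 0xa00000200500e010000400a15e820511)) (.one (nat_lit 0xa00000300500e010000600a15e820511)))))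
def t283 : k283.all (jb2 57 fl b0) = true := by decide +kernel
noncomputable def k284 : KT := (.br (Nat.shiftLeft (nat_lit 0x3) (nat_lit 126)) (.br (Nat.shiftLeft (nat_lit 0x5800001) (nat_lit 101)) (.br (Nat.shiftLeft (nat_lit 0xb) (nat_lit 124)) (.one (nat_lit 0xa00000400500e010000800a15e820511)) (.one (nat_lit 0xb00000100500e010000200a17ec20511))) (.br (Nat.shiftLeft (nat_lit 0xb000003) (nat_lit 100)) (.one (nat_lit 0xb00000200500e010000400a17ec20511)) (.br (Nat.shiftLeft (nat_lit 0x2c00001) (nat_lit 102)) (.one (nat_lit 0xb00000300500e010000600a17ec20511)) (.one (nat_lit 0xb00000400500e010000800a17ec20511))))) (.br (Nat.shiftLeft (nat_lit 0x3000001) (nat_lit 102)) (.br (Nat.shiftLeft (nat_lit 0x6000001) (nat_lit 101)) (.one (nat_lit 0xc00000100500e010000200a19f020511)) (.br (Nat.shiftLeft (nat_lit 0xc000003) (nat_lit 100)) (.one (nat_lit 0xc00000200500e010000400a19f020511)) (.one (nat_lit 0xc00000300500e010000600a19f020511)))) (.br (Nat.shiftLeft (nat_lit 0xd) (nat_lit 124)) (.one (nat_lit 0xc00000400500e010000800a19f020511))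 (.br (Nat.shiftLeft (nat_lit 0x6800001) (nat_lit 101)) (.one (nat_lit 0xd00000100500e010000200a1bf420511)) (.one (nat_lit 0xd00000200500e010000400a1bf420511))))))
def t284 : k284.all (jb2 57 fl b0) = true := by decide +kernel
noncomputable def k285 : KT := (.br (Nat.shiftLeft (nat_lit 0x800000401) (nat_lit 102)) (.br (Nat.shiftLeft (nat_lit 0x1000001003) (nat_lit 100)) (.br (Nat.shiftLeft (nat_lit 0x7000001) (nat_lit 101)) (.br (Nat.shiftLeft (nat_lit 0x3400001) (nat_lit 102)) (.one (nat_lit 0xd00000300500e010000600a1bf420511)) (.br (Nat.shiftLeft (nat_lit 0x7) (nat_lit 125)) (.one (nat_lit 0xd00000400500e010000800a1bf420511)) (.one (nat_lit 0xe00000100500e010000200a1df820511)))) (.br (Nat.shiftLeft (nat_lit 0x3800001) (nat_lit 102)) (.br (Nat.shiftLeft (nat_lit 0xe000003) (nat_lit 100)) (.one (nat_lit 0xe00000200500e010000400a1df820511)) (.one (nat_lit 0xe00000300500e010000600a1df820511))) (.br (Nat.shiftLeft (nat_lit 0x1) (nat_lit 136)) (.one (nat_lit 0xe00000400500e010000800a1df820511)) (.one (nat_lit 0x100000100200500e010200402a41c020611)))))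 (.br (Nat.shiftLeft (nat_lit 0x400000801) (nat_lit 102)) (.br (Nat.shiftLeft (nat_lit 0x400000401) (nat_lit 102)) (.one (nat_lit 0x100000100300500e010200602a41c020611)) (.br (Nat.shiftLeft (nat_lit 0x800001) (nat_lit 113)) (.one (nat_lit 0x100000100400500e010200802a41c020611)) (.one (nat_lit 0x100000200300500e010400602a41c020611)))) (.br (Nat.shiftLeft (nat_lit 0x1) (nat_lit 137)) (.br (Nat.shiftLeft (nat_lit 0x1000003) (nat_lit 112)) (.one (nat_lit 0x100000200400500e010400802a41c020611)) (.one (nat_lit 0x100000300400500e010600802a41c020611))) (.br (Nat.shiftLeft (nat_lit 0x2000001003) (nat_lit 100)) (.one (nat_lit 0x200000100200500e010200404a81c020611)) (.one (nat_lit 0x200000100300500e010200604a81c020611)))))) (.br (Nat.shiftLeft (nat_lit 0x1800001) (nat_lit 113)) (.br (Nat.shiftLeft (nat_lit 0x2000003) (nat_lit 112)) (.br (Nat.shiftLeft (nat_lit 0x1000001) (nat_lit 113)) (.one (nat_lit 0x200000100400500e010200804a81c020611)) (.br (Nat.shiftLeft (nat_lit 0x800000801) (nat_lit 102)) (.one (nat_lit 0x200000200300500e010400604a81c020611))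 (.one (nat_lit 0x200000200400500e010400804a81c020611)))) (.br (Nat.shiftLeft (nat_lit 0x3000001003) (nat_lit 100)) (.br (Nat.shiftLeft (nat_lit 0x3) (nat_lit 136)) (.one (nat_lit 0x200000300400500e010600804a81c020611)) (.one (nat_lit 0x300000100200500e010200406ac1c020611))) (.br (Nat.shiftLeft (nat_lit 0xc00000401) (nat_lit 102)) (.one (nat_lit 0x300000100300500e010200606ac1c020611)) (.one (nat_lit 0x300000100400500e010200806ac1c020611))))) (.br (Nat.shiftLeft (nat_lit 0x4000001003) (nat_lit 100)) (.br (Nat.shiftLeft (nat_lit 0x3000003) (nat_lit 112)) (.br (Nat.shiftLeft (nat_lit 0xc00000801) (nat_lit 102)) (.one (nat_lit 0x300000200300500e010400606ac1c020611)) (.one (nat_lit 0x300000200400500e010400806ac1c020611))) (.br (Nat.shiftLeft (nat_lit 0x1) (nat_lit 138)) (.one (nat_lit 0x300000300400500e010600806ac1c020611)) (.one (nat_lit 0x400000100200500e010200408b01c020611)))) (.br (Nat.shiftLeft (nat_lit 0x2000001) (nat_lit 113)) (.br (Nat.shiftLeft (nat_lit 0x1000000401) (nat_lit 102)) (.one (nat_lit 0x400000100300500e010200608b01c020611))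 (.one (nat_lit 0x400000100400500e010200808b01c020611))) (.br (Nat.shiftLeft (nat_lit 0x1000000801) (nat_lit 102)) (.one (nat_lit 0x400000200300500e010400608b01c020611)) (.one (nat_lit 0x400000200400500e010400808b01c020611)))))))
def t285 : k285.all (jb2 57 fl b0) = true := by decide +kernel
noncomputable def k286 : KT := (.br (Nat.shiftLeft (nat_lit 0x5000001003) (nat_lit 100)) (.br (Nat.shiftLeft (nat_lit 0x5) (nat_lit 136)) (.one (nat_lit 0x400000300400500e010600808b01c020611)) (.one (nat_lit 0x500000100200500e01020040ab41c020611))) (.br (Nat.shiftLeft (nat_lit 0x1400000401) (nat_lit 102)) (.one (nat_lit 0x500000100300500e01020060ab41c020611)) (.one (nat_lit 0x500000100400500e01020080ab41c020611))))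
def t286 : k286.all (jb2 57 fl b0) = true := by decide +kernel
noncomputable def k287 : KT := (.br (Nat.shiftLeft (nat_lit 0x1400000801) (nat_lit 102)) (.one (nat_lit 0x500000200300500e01040060ab41c020611)) (.br (Nat.shiftLeft (nat_lit 0x5000003) (nat_lit 112)) (.one (nat_lit 0x500000200400500e01040080ab41c020611)) (.one (nat_lit 0x500000300400500e01060080ab41c020611))))
def t287 : k287.all (jb2 57 fl b0) = true := by decide +kernel
noncomputable def k288 : KT := (.br (Nat.shiftLeft (nat_lit 0x6000001003) (nat_lit 100)) (.one (nat_lit 0x600000100200500e01020040cb81c020611)) (.one (nat_lit 0x600000100300500e01020060cb81c020611)))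
def t288 : k288.all (jb2 57 fl b0) = true := by decide +kernel
noncomputable def k289 : KT := (.br (Nat.shiftLeft (nat_lit 0x3000001) (nat_lit 113)) (.one (nat_lit 0x600000100400500e01020080cb81c020611)) (.br (Nat.shiftLeft (nat_lit 0x1800000801) (nat_lit 102)) (.one (nat_lit 0x600000200300500e01040060cb81c020611)) (.one (nat_lit 0x600000200400500e01040080cb81c020611))))
def t289 : k289.all (jb2 57 fl b0) = true := by decide +kernel
noncomputable def k290 : KT := (.br (Nat.shiftLeft (nat_lit 0x7) (nat_lit 136)) (.one (nat_lit 0x600000300400500e01060080cb81c020611)) (.br (Nat.shiftLeft (nat_lit 0x7000001003) (nat_lit 100)) (.one (nat_lit 0x700000100200500e01020040ebc1c020611)) (.one (nat_lit 0x700000100300500e01020060ebc1c020611))))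
def t290 : k290.all (jb2 57 fl b0) = true := by decide +kernel
noncomputable def k291 : KT := (.br (Nat.shiftLeft (nat_lit 0x1c00000801) (nat_lit 102)) (.br (Nat.shiftLeft (nat_lit 0x3800001) (nat_lit 113)) (.one (nat_lit 0x700000100400500e01020080ebc1c020611)) (.one (nat_lit 0x700000200300500e01040060ebc1c020611))) (.br (Nat.shiftLeft (nat_lit 0x7000003) (nat_lit 112)) (.one (nat_lit 0x700000200400500e01040080ebc1c020611)) (.one (nat_lit 0x700000300400500e01060080ebc1c020611))))
def t291 : k291.all (jb2 57 fl b0) = true := by decide +kernel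
noncomputable def k292 : KT := (.br (Nat.shiftLeft (nat_lit 0x2000000401) (nat_lit 102)) (.br (Nat.shiftLeft (nat_lit 0x8000001003) (nat_lit 100)) (.one (nat_lit 0x800000100200500e010200410c01c020611)) (.one (nat_lit 0x800000100300500e010200610c01c020611))) (.br (Nat.shiftLeft (nat_lit 0x4000001) (nat_lit 113)) (.one (nat_lit 0x800000100400500e010200810c01c020611)) (.one (nat_lit 0x800000200300500e010400610c01c020611))))
def t292 : k292.all (jb2 57 fl b0) = true := by decide +kernel
noncomputable def k293 : KT := (.br (Nat.shiftLeft (nat_lit 0x9000001003) (nat_lit 100)) (.br (Nat.shiftLeft (nat_lit 0x8000003) (nat_lit 112)) (.one (nat_lit 0x800000200400500e010400810c01c020611)) (.br (Nat.shiftLeft (nat_lit 0x9) (nat_lit 136)) (.one (nat_lit 0x800000300400500e010600810c01c020611)) (.one (nat_lit 0x900000100200500e010200412c41c020611)))) (.br (Nat.shiftLeft (nat_lit 0x4800001) (nat_lit 113)) (.br (Nat.shiftLeft (nat_lit 0x2400000401) (nat_lit 102)) (.one (nat_lit 0x900000100300500e010200612c41c020611)) (.one (nat_lit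 0x900000100400500e010200812c41c020611))) (.br (Nat.shiftLeft (nat_lit 0x2400000801) (nat_lit 102)) (.one (nat_lit 0x900000200300500e010400612c41c020611)) (.one (nat_lit 0x900000200400500e010400812c41c020611)))))
def t293 : k293.all (jb2 57 fl b0) = true := by decide +kernel
noncomputable def k294 : KT := (.br (Nat.shiftLeft (nat_lit 0xa000003) (nat_lit 112)) (.br (Nat.shiftLeft (nat_lit 0x2800000401) (nat_lit 102)) (.br (Nat.shiftLeft (nat_lit 0x5) (nat_lit 137)) (.one (nat_lit 0x900000300400500e010600812c41c020611)) (.br (Nat.shiftLeft (nat_lit 0xa000001003) (nat_lit 100)) (.one (nat_lit 0xa00000100200500e010200414c81c020611)) (.one (nat_lit 0xa00000100300500e010200614c81c020611)))) (.br (Nat.shiftLeft (nat_lit 0x5000001) (nat_lit 113)) (.one (nat_lit 0xa00000100400500e010200814c81c020611)) (.br (Nat.shiftLeft (nat_lit 0x2800000801) (nat_lit 102)) (.one (nat_lit 0xa00000200300500e010400614c81c020611)) (.one (nat_lit 0xa00000200400500e010400814c81c020611))))) (.br (Nat.shiftLeft (nat_lit 0x2c00000401) (nat_lit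 102)) (.br (Nat.shiftLeft (nat_lit 0xb) (nat_lit 136)) (.one (nat_lit 0xa00000300400500e010600814c81c020611)) (.br (Nat.shiftLeft (nat_lit 0xb000001003) (nat_lit 100)) (.one (nat_lit 0xb00000100200500e010200416cc1c020611)) (.one (nat_lit 0xb00000100300500e010200616cc1c020611)))) (.br (Nat.shiftLeft (nat_lit 0x2c00000801) (nat_lit 102)) (.br (Nat.shiftLeft (nat_lit 0x5800001) (nat_lit 113)) (.one (nat_lit 0xb00000100400500e010200816cc1c020611)) (.one (nat_lit 0xb00000200300500e010400616cc1c020611))) (.br (Nat.shiftLeft (nat_lit 0xb000003) (nat_lit 112)) (.one (nat_lit 0xb00000200400500e010400816cc1c020611)) (.one (nat_lit 0xb00000300400500e010600816cc1c020611))))))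
def t294 : k294.all (jb2 57 fl b0) = true := by decide +kernel
noncomputable def k295 : KT := (.br (Nat.shiftLeft (nat_lit 0xd000003) (nat_lit 112)) (.br (Nat.shiftLeft (nat_lit 0xc000003) (nat_lit 112)) (.br (Nat.shiftLeft (nat_lit 0x3000000401) (nat_lit 102)) (.br (Nat.shiftLeft (nat_lit 0xc000001003) (nat_lit 100)) (.one (nat_lit 0xc00000100200500e010200418d01c020611)) (.one (nat_lit 0xc00000100300500e010200618d01c020611))) (.br (Nat.shiftLeft (nat_lit 0x6000001) (nat_lit 113)) (.one (nat_lit 0xc00000100400500e010200818d01c020611)) (.br (Nat.shiftLeft (nat_lit 0x3000000801) (nat_lit 102)) (.one (nat_lit 0xc00000200300500e010400618d01c020611)) (.one (nat_lit 0xc00000200400500e010400818d01c020611))))) (.br (Nat.shiftLeft (nat_lit 0x3400000401) (nat_lit 102)) (.br (Nat.shiftLeft (nat_lit 0xd) (nat_lit 136)) (.one (nat_lit 0xc00000300400500e010600818d01c020611)) (.br (Nat.shiftLeft (nat_lit 0xd000001003) (nat_lit 100)) (.one (nat_lit 0xd00000100200500e01020041ad41c020611)) (.one (nat_lit 0xd00000100300500e01020061ad41c020611))))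 (.br (Nat.shiftLeft (nat_lit 0x6800001) (nat_lit 113)) (.one (nat_lit 0xd00000100400500e01020081ad41c020611)) (.br (Nat.shiftLeft (nat_lit 0x3400000801) (nat_lit 102)) (.one (nat_lit 0xd00000200300500e01040061ad41c020611)) (.one (nat_lit 0xd00000200400500e01040081ad41c020611)))))) (.br (Nat.shiftLeft (nat_lit 0xe000003) (nat_lit 112)) (.br (Nat.shiftLeft (nat_lit 0x3800000401) (nat_lit 102)) (.br (Nat.shiftLeft (nat_lit 0x7) (nat_lit 137)) (.one (nat_lit 0xd00000300400500e01060081ad41c020611)) (.br (Nat.shiftLeft (nat_lit 0xe000001003) (nat_lit 100)) (.one (nat_lit 0xe00000100200500e01020041cd81c020611)) (.one (nat_lit 0xe00000100300500e01020061cd81c020611)))) (.br (Nat.shiftLeft (nat_lit 0x7000001) (nat_lit 113)) (.one (nat_lit 0xe00000100400500e01020081cd81c020611)) (.br (Nat.shiftLeft (nat_lit 0x3800000801) (nat_lit 102)) (.one (nat_lit 0xe00000200300500e01040061cd81c020611)) (.one (nat_lit 0xe00000200400500e01040081cd81c020611))))) (.br (Nat.shiftLeft (nat_lit 0x3) (nat_lit 148)) (.br (Nat.shiftLeft (nat_lit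 0x1) (nat_lit 148)) (.one (nat_lit 0xe00000300400500e01060081cd81c020611)) (.br (Nat.shiftLeft (nat_lit 0x1) (nat_lit 149)) (.one (nat_lit 0x100000100200300500e010402640a03c420711)) (.one (nat_lit 0x200000100200300500e010404680a03c420711)))) (.br (Nat.shiftLeft (nat_lit 0x1) (nat_lit 150)) (.one (nat_lit 0x300000100200300500e0104066c0a03c420711)) (.br (Nat.shiftLeft (nat_lit 0x5) (nat_lit 148)) (.one (nat_lit 0x400000100200300500e010408700a03c420711)) (.one (nat_lit 0x500000100200300500e01040a740a03c420711)))))))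
def t295 : k295.all (jb2 57 fl b0) = true := by decide +kernel
noncomputable def k296 : KT := (.br (Nat.shiftLeft (nat_lit 0x5) (nat_lit 149)) (.br (Nat.shiftLeft (nat_lit 0x1) (nat_lit 151)) (.br (Nat.shiftLeft (nat_lit 0x7) (nat_lit 148)) (.one (nat_lit 0x600000100200300500e01040c780a03c420711)) (.one (nat_lit 0x700000100200300500e01040e7c0a03c420711))) (.br (Nat.shiftLeft (nat_lit 0x9) (nat_lit 148)) (.one (nat_lit 0x800000100200300500e010410800a03c420711)) (.one (nat_lit 0x900000100200300500e010412840a03c420711)))) (.br (Nat.shiftLeft (nat_lit 0x3) (nat_lit 150)) (.br (Nat.shiftLeft (nat_lit 0xb) (nat_lit 148)) (.one (nat_lit 0xa00000100200300500e010414880a03c420711)) (.one (nat_lit 0xb00000100200300500e0104168c0a03c420711))) (.br (Nat.shiftLeft (nat_lit 0xd) (nat_lit 148)) (.one (nat_lit 0xc00000100200300500e010418900a03c420711)) (.br (Nat.shiftLeft (nat_lit 0x7) (nat_lit 149)) (.one (nat_lit 0xd00000100200300500e01041a940a03c420711)) (.one (nat_lit 0xe00000100200300500e01041c980a03c420711))))))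
def t296 : k296.all (jb2 57 fl b0) = true := by decide +kernel
noncomputable def s17 : KT := (.br (nat_lit 0x400000200400500e010400808b01c020611) (.br (nat_lit 0x600000100500e010000200a0dd820511) (.br (nat_lit 0x100200400500e010400800a03c420760) (.br (nat_lit 0x100200300500e010400600a03c421700) k275 k276) (.br (nat_lit 0x200000400500e010000800a05c820511) k277 (.br (nat_lit 0x400000200500e010000400a09d020511) k278 k279))) (.br (nat_lit 0x900000100500e010000200a13e420511) (.br (nat_lit 0x700000100500e010000200a0fdc20511) k280 (.br (nat_lit 0x800000100500e010000200a11e020511) k281 k282)) (.br (nat_lit 0xa00000300500e010000600a15e820511) k283 (.br (nat_lit 0xd00000200500e010000400a1bf420511) k284 k285)))) (.br (nat_lit 0x700000100300500e01020060ebc1c020611) (.br (nat_lit 0x500000300400500e01060080ab41c020611) (.br (nat_lit 0x500000100400500e01020080ab41c020611) k286 k287) (.br (nat_lit 0x600000100300500e01020060cb81c020611) k288 (.br (nat_lit 0x600000200400500e01040080cb81c020611) k289 k290))) (.br (nat_lit 0x900000200400500e010400812c41c020611)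 (.br (nat_lit 0x700000300400500e01060080ebc1c020611) k291 (.br (nat_lit 0x800000200300500e010400610c01c020611) k292 k293)) (.br (nat_lit 0xb00000300400500e010600816cc1c020611) k294 (.br (nat_lit 0x500000100200300500e01040a740a03c420711) k295 k296)))))
noncomputable def u17 : KT := (.one (nat_lit 0x500e010000000a01c020430))
def w17 : u17.all (wj 57 s17) = true := by decide +kernel
def o17 : OkW 57 (jb2 57 fl) u17 := .lift s17 _ (.br _ _ _ (.br _ _ _ (.br _ _ _ (.br _ _ _ (.leaf b0 k275 t275) (.leaf b0 k276 t276)) (.br _ _ _ (.leaf b0 k277 t277) (.br _ _ _ (.leaf b0 k278 t278) (.leaf b0 k279 t279)))) (.br _ _ _ (.br _ _ _ (.leaf b0 k280 t280) (.br _ _ _ (.leaf b0 k281 t281) (.leaf b0 k282 t282))) (.br _ _ _ (.leaf b0 k283 t283) (.br _ _ _ (.leaf b0 k284 t284) (.leaf b0 k285 t285))))) (.br _ _ _ (.br _ _ _ (.br _ _ _ (.leaf b0 k286 t286) (.leaf b0 k287 t287)) (.br _ _ _ (.leaf b0 k288 t288) (.br _ _ _ (.leaf b0 k289 t289) (.leaf b0 k290 t290)))) (.br _ _ _ (.br _ _ _ (.leaf b0 k291 t291) (.br _ _ _ (.leaf b0 k292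 t292) (.leaf b0 k293 t293))) (.br _ _ _ (.leaf b0 k294 t294) (.br _ _ _ (.leaf b0 k295 t295) (.leaf b0 k296 t296)))))) w17
noncomputable def k297 : KT := (.br (Nat.shiftLeft (nat_lit 0x1) (nat_lit 114)) (.br (Nat.shiftLeft (nat_lit 0x1003) (nat_lit 100)) (.br (Nat.shiftLeft (nat_lit 0x3) (nat_lit 100)) (.br (Nat.shiftLeft (nat_lit 0x1) (nat_lit 100)) (.one (nat_lit 0x500e011000000a01c023400)) (.br (Nat.shiftLeft (nat_lit 0x1) (nat_lit 101)) (.one (nat_lit 0x100500e011000200a01c023500)) (.one (nat_lit 0x200500e011000400a01c023500)))) (.br (Nat.shiftLeft (nat_lit 0x1) (nat_lit 112)) (.br (Nat.shiftLeft (nat_lit 0x1) (nat_lit 102)) (.one (nat_lit 0x300500e011000600a01c023500)) (.one (nat_lit 0x400500e011000800a01c023500))) (.br (Nat.shiftLeft (nat_lit 0x801) (nat_lit 101)) (.one (nat_lit 0x100000500e011200000a01c022411)) (.one (nat_lit 0x100200500e011200400a01c023600))))) (.br (Nat.shiftLeft (nat_lit 0x1001) (nat_lit 101)) (.br (Nat.shiftLeft (nat_lit 0x401) (nat_lit 102)) (.one (nat_lit 0x100300500e011200600a01c023600))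 (.br (Nat.shiftLeft (nat_lit 0x1) (nat_lit 113)) (.one (nat_lit 0x100400500e011200800a01c023600)) (.one (nat_lit 0x200000500e011400000a01c022411)))) (.br (Nat.shiftLeft (nat_lit 0x3) (nat_lit 112)) (.br (Nat.shiftLeft (nat_lit 0x801) (nat_lit 102)) (.one (nat_lit 0x200300500e011400600a01c023600)) (.one (nat_lit 0x200400500e011400800a01c023600))) (.br (Nat.shiftLeft (nat_lit 0xc01) (nat_lit 102)) (.one (nat_lit 0x300000500e011600000a01c022411)) (.one (nat_lit 0x300400500e011600800a01c023600)))))) (.br (Nat.shiftLeft (nat_lit 0xb) (nat_lit 112)) (.br (Nat.shiftLeft (nat_lit 0x7) (nat_lit 112)) (.br (Nat.shiftLeft (nat_lit 0x5) (nat_lit 112)) (.one (nat_lit 0x400000500e011800000a01c022411)) (.br (Nat.shiftLeft (nat_lit 0x3) (nat_lit 113)) (.one (nat_lit 0x500000500e011a00000a01c022411)) (.one (nat_lit 0x600000500e011c00000a01c022411)))) (.br (Nat.shiftLeft (nat_lit 0x9) (nat_lit 112)) (.br (Nat.shiftLeft (nat_lit 0x1) (nat_lit 115)) (.one (nat_lit 0x700000500e011e00000a01c022411)) (.one (nat_lit 0x800000500e011000000a01c124411)))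 (.br (Nat.shiftLeft (nat_lit 0x5) (nat_lit 113)) (.one (nat_lit 0x900000500e011200000a01c124411)) (.one (nat_lit 0xa00000500e011400000a01c124411))))) (.br (Nat.shiftLeft (nat_lit 0x1) (nat_lit 124)) (.br (Nat.shiftLeft (nat_lit 0xd) (nat_lit 112)) (.br (Nat.shiftLeft (nat_lit 0x3) (nat_lit 114)) (.one (nat_lit 0xb00000500e011600000a01c124411)) (.one (nat_lit 0xc00000500e011800000a01c124411))) (.br (Nat.shiftLeft (nat_lit 0x7) (nat_lit 113)) (.one (nat_lit 0xd00000500e011a00000a01c124411)) (.one (nat_lit 0xe00000500e011c00000a01c124411)))) (.br (Nat.shiftLeft (nat_lit 0x1000003) (nat_lit 100)) (.br (Nat.shiftLeft (nat_lit 0x800001) (nat_lit 101)) (.one (nat_lit 0x100000100500e011000200a03c422511)) (.one (nat_lit 0x100000200500e011000400a03c422511))) (.br (Nat.shiftLeft (nat_lit 0x400001) (nat_lit 102)) (.one (nat_lit 0x100000300500e011000600a03c422511)) (.one (nat_lit 0x100000400500e011000800a03c422511)))))))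
def t297 : k297.all (jb2 57 fl b0) = true := by decide +kernel
noncomputable def k298 : KT := (.one (nat_lit 0x100200300500e011400600a03c422760))
def t298 : k298.all (jb2 57 fl b0) = true := by decide +kernel
noncomputable def k299 : KT := (.one (nat_lit 0x100200400500e011400800a03c422760))
def t299 : k299.all (jb2 57 fl b0) = true := by decide +kernel
noncomputable def k300 : KT := (.br (Nat.shiftLeft (nat_lit 0x2000003) (nat_lit 100)) (.br (Nat.shiftLeft (nat_lit 0x1) (nat_lit 125)) (.one (nat_lit 0x100300400500e011600800a03c422760)) (.br (Nat.shiftLeft (nat_lit 0x1000001) (nat_lit 101)) (.one (nat_lit 0x200000100500e011000200a05c822511)) (.one (nat_lit 0x200000200500e011000400a05c822511)))) (.br (Nat.shiftLeft (nat_lit 0x800001) (nat_lit 102)) (.one (nat_lit 0x200000300500e011000600a05c822511)) (.br (Nat.shiftLeft (nat_lit 0x1001) (nat_lit 113)) (.one (nat_lit 0x200000400500e011000800a05c822511)) (.one (nat_lit 0x200300400500e011600800a05c822760)))))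
def t300 : k300.all (jb2 57 fl b0) = true := by decide +kernel
noncomputable def k301 : KT := (.br (Nat.shiftLeft (nat_lit 0x4000003) (nat_lit 100)) (.br (Nat.shiftLeft (nat_lit 0xc00001) (nat_lit 102)) (.br (Nat.shiftLeft (nat_lit 0x1800001) (nat_lit 101)) (.one (nat_lit 0x300000100500e011000200a07cc22511)) (.br (Nat.shiftLeft (nat_lit 0x3000003) (nat_lit 100)) (.one (nat_lit 0x300000200500e011000400a07cc22511)) (.one (nat_lit 0x300000300500e011000600a07cc22511)))) (.br (Nat.shiftLeft (nat_lit 0x1) (nat_lit 126)) (.one (nat_lit 0x300000400500e011000800a07cc22511)) (.br (Nat.shiftLeft (nat_lit 0x2000001) (nat_lit 101)) (.one (nat_lit 0x400000100500e011000200a09d022511)) (.one (nat_lit 0x400000200500e011000400a09d022511))))) (.br (Nat.shiftLeft (nat_lit 0x2800001) (nat_lit 101)) (.br (Nat.shiftLeft (nat_lit 0x1000001) (nat_lit 102)) (.one (nat_lit 0x400000300500e011000600a09d022511)) (.br (Nat.shiftLeft (nat_lit 0x5) (nat_lit 124)) (.one (nat_lit 0x400000400500e011000800a09d022511)) (.one (nat_lit 0x500000100500e011000200a0bd422511))))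 (.br (Nat.shiftLeft (nat_lit 0x5000003) (nat_lit 100)) (.one (nat_lit 0x500000200500e011000400a0bd422511)) (.br (Nat.shiftLeft (nat_lit 0x1400001) (nat_lit 102)) (.one (nat_lit 0x500000300500e011000600a0bd422511)) (.one (nat_lit 0x500000400500e011000800a0bd422511))))))
def t301 : k301.all (jb2 57 fl b0) = true := by decide +kernel
noncomputable def k302 : KT := (.br (Nat.shiftLeft (nat_lit 0x6000003) (nat_lit 100)) (.br (Nat.shiftLeft (nat_lit 0x3000001) (nat_lit 101)) (.one (nat_lit 0x600000100500e011000200a0dd822511)) (.one (nat_lit 0x600000200500e011000400a0dd822511))) (.br (Nat.shiftLeft (nat_lit 0x1800001) (nat_lit 102)) (.one (nat_lit 0x600000300500e011000600a0dd822511)) (.br (Nat.shiftLeft (nat_lit 0x7) (nat_lit 124)) (.one (nat_lit 0x600000400500e011000800a0dd822511)) (.one (nat_lit 0x700000100500e011000200a0fdc22511)))))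
def t302 : k302.all (jb2 57 fl b0) = true := by decide +kernel
noncomputable def k303 : KT := (.br (Nat.shiftLeft (nat_lit 0x1c00001) (nat_lit 102)) (.br (Nat.shiftLeft (nat_lit 0x7000003) (nat_lit 100)) (.one (nat_lit 0x700000200500e011000400a0fdc22511)) (.one (nat_lit 0x700000300500e011000600a0fdc22511))) (.br (Nat.shiftLeft (nat_lit 0x1) (nat_lit 127)) (.one (nat_lit 0x700000400500e011000800a0fdc22511)) (.one (nat_lit 0x800000100500e011000200a11e022511))))
def t303 : k303.all (jb2 57 fl b0) = true := by decide +kernel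
noncomputable def k304 : KT := (.br (Nat.shiftLeft (nat_lit 0x2000001) (nat_lit 102)) (.br (Nat.shiftLeft (nat_lit 0x8000003) (nat_lit 100)) (.one (nat_lit 0x800000200500e011000400a11e022511)) (.one (nat_lit 0x800000300500e011000600a11e022511))) (.br (Nat.shiftLeft (nat_lit 0x9) (nat_lit 124)) (.one (nat_lit 0x800000400500e011000800a11e022511)) (.br (Nat.shiftLeft (nat_lit 0x4800001) (nat_lit 101)) (.one (nat_lit 0x900000100500e011000200a13e422511)) (.one (nat_lit 0x900000200500e011000400a13e422511)))))
def t304 : k304.all (jb2 57 fl b0) = true := by decide +kernel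
noncomputable def k305 : KT := (.br (Nat.shiftLeft (nat_lit 0xa000003) (nat_lit 100)) (.br (Nat.shiftLeft (nat_lit 0x5) (nat_lit 125)) (.br (Nat.shiftLeft (nat_lit 0x2400001) (nat_lit 102)) (.one (nat_lit 0x900000300500e011000600a13e422511)) (.one (nat_lit 0x900000400500e011000800a13e422511))) (.br (Nat.shiftLeft (nat_lit 0x5000001) (nat_lit 101)) (.one (nat_lit 0xa00000100500e011000200a15e822511)) (.one (nat_lit 0xa00000200500e011000400a15e822511)))) (.br (Nat.shiftLeft (nat_lit 0xb) (nat_lit 124)) (.br (Nat.shiftLeft (nat_lit 0x2800001) (nat_lit 102)) (.one (nat_lit 0xa00000300500e011000600a15e822511)) (.one (nat_lit 0xa00000400500e011000800a15e822511))) (.br (Nat.shiftLeft (nat_lit 0x5800001) (nat_lit 101)) (.one (nat_lit 0xb00000100500e011000200a17ec22511)) (.one (nat_lit 0xb00000200500e011000400a17ec22511)))))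
def t305 : k305.all (jb2 57 fl b0) = true := by decide +kernel
noncomputable def k306 : KT := (.br (Nat.shiftLeft (nat_lit 0x400000401) (nat_lit 102)) (.br (Nat.shiftLeft (nat_lit 0xd000003) (nat_lit 100)) (.br (Nat.shiftLeft (nat_lit 0xc000003) (nat_lit 100)) (.br (Nat.shiftLeft (nat_lit 0x3) (nat_lit 126)) (.br (Nat.shiftLeft (nat_lit 0x2c00001) (nat_lit 102)) (.one (nat_lit 0xb00000300500e011000600a17ec22511)) (.one (nat_lit 0xb00000400500e011000800a17ec22511))) (.br (Nat.shiftLeft (nat_lit 0x6000001) (nat_lit 101)) (.one (nat_lit 0xc00000100500e011000200a19f022511)) (.one (nat_lit 0xc00000200500e011000400a19f022511)))) (.br (Nat.shiftLeft (nat_lit 0xd) (nat_lit 124)) (.br (Nat.shiftLeft (nat_lit 0x3000001) (nat_lit 102)) (.one (nat_lit 0xc00000300500e011000600a19f022511)) (.one (nat_lit 0xc00000400500e011000800a19f022511))) (.br (Nat.shiftLeft (nat_lit 0x6800001) (nat_lit 101)) (.one (nat_lit 0xd00000100500e011000200a1bf422511)) (.one (nat_lit 0xd00000200500e011000400a1bf422511))))) (.br (Nat.shiftLeft (nat_lit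 0xe000003) (nat_lit 100)) (.br (Nat.shiftLeft (nat_lit 0x7) (nat_lit 125)) (.br (Nat.shiftLeft (nat_lit 0x3400001) (nat_lit 102)) (.one (nat_lit 0xd00000300500e011000600a1bf422511)) (.one (nat_lit 0xd00000400500e011000800a1bf422511))) (.br (Nat.shiftLeft (nat_lit 0x7000001) (nat_lit 101)) (.one (nat_lit 0xe00000100500e011000200a1df822511)) (.one (nat_lit 0xe00000200500e011000400a1df822511)))) (.br (Nat.shiftLeft (nat_lit 0x1) (nat_lit 136)) (.br (Nat.shiftLeft (nat_lit 0x3800001) (nat_lit 102)) (.one (nat_lit 0xe00000300500e011000600a1df822511)) (.one (nat_lit 0xe00000400500e011000800a1df822511))) (.br (Nat.shiftLeft (nat_lit 0x1000001003) (nat_lit 100)) (.one (nat_lit 0x100000100200500e011200402a41c022611)) (.one (nat_lit 0x100000100300500e011200602a41c022611)))))) (.br (Nat.shiftLeft (nat_lit 0x800000801) (nat_lit 102)) (.br (Nat.shiftLeft (nat_lit 0x1) (nat_lit 137)) (.br (Nat.shiftLeft (nat_lit 0x400000801) (nat_lit 102)) (.br (Nat.shiftLeft (nat_lit 0x800001) (nat_lit 113)) (.one (nat_lit 0x100000100400500e011200802a41c022611))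 (.one (nat_lit 0x100000200300500e011400602a41c022611))) (.br (Nat.shiftLeft (nat_lit 0x1000003) (nat_lit 112)) (.one (nat_lit 0x100000200400500e011400802a41c022611)) (.one (nat_lit 0x100000300400500e011600802a41c022611)))) (.br (Nat.shiftLeft (nat_lit 0x800000401) (nat_lit 102)) (.br (Nat.shiftLeft (nat_lit 0x2000001003) (nat_lit 100)) (.one (nat_lit 0x200000100200500e011200404a81c022611)) (.one (nat_lit 0x200000100300500e011200604a81c022611))) (.br (Nat.shiftLeft (nat_lit 0x1000001) (nat_lit 113)) (.one (nat_lit 0x200000100400500e011200804a81c022611)) (.one (nat_lit 0x200000200300500e011400604a81c022611))))) (.br (Nat.shiftLeft (nat_lit 0xc00000401) (nat_lit 102)) (.br (Nat.shiftLeft (nat_lit 0x3) (nat_lit 136)) (.br (Nat.shiftLeft (nat_lit 0x2000003) (nat_lit 112)) (.one (nat_lit 0x200000200400500e011400804a81c022611)) (.one (nat_lit 0x200000300400500e011600804a81c022611))) (.br (Nat.shiftLeft (nat_lit 0x3000001003) (nat_lit 100)) (.one (nat_lit 0x300000100200500e011200406ac1c022611)) (.one (nat_lit 0x300000100300500e011200606ac1c022611))))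 (.br (Nat.shiftLeft (nat_lit 0xc00000801) (nat_lit 102)) (.br (Nat.shiftLeft (nat_lit 0x1800001) (nat_lit 113)) (.one (nat_lit 0x300000100400500e011200806ac1c022611)) (.one (nat_lit 0x300000200300500e011400606ac1c022611))) (.br (Nat.shiftLeft (nat_lit 0x3000003) (nat_lit 112)) (.one (nat_lit 0x300000200400500e011400806ac1c022611)) (.br (Nat.shiftLeft (nat_lit 0x1) (nat_lit 138)) (.one (nat_lit 0x300000300400500e011600806ac1c022611)) (.one (nat_lit 0x400000100200500e011200408b01c022611))))))))
def t306 : k306.all (jb2 57 fl b0) = true := by decide +kernel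
noncomputable def k307 : KT := (.br (Nat.shiftLeft (nat_lit 0x1000000801) (nat_lit 102)) (.br (Nat.shiftLeft (nat_lit 0x1000000401) (nat_lit 102)) (.one (nat_lit 0x400000100300500e011200608b01c022611)) (.br (Nat.shiftLeft (nat_lit 0x2000001) (nat_lit 113)) (.one (nat_lit 0x400000100400500e011200808b01c022611)) (.one (nat_lit 0x400000200300500e011400608b01c022611)))) (.br (Nat.shiftLeft (nat_lit 0x5) (nat_lit 136)) (.br (Nat.shiftLeft (nat_lit 0x4000003) (nat_lit 112)) (.one (nat_lit 0x400000200400500e011400808b01c022611)) (.one (nat_lit 0x400000300400500e011600808b01c022611))) (.br (Nat.shiftLeft (nat_lit 0x5000001003) (nat_lit 100)) (.one (nat_lit 0x500000100200500e01120040ab41c022611)) (.one (nat_lit 0x500000100300500e01120060ab41c022611)))))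
def t307 : k307.all (jb2 57 fl b0) = true := by decide +kernel
noncomputable def k308 : KT := (.br (Nat.shiftLeft (nat_lit 0x1400000801) (nat_lit 102)) (.br (Nat.shiftLeft (nat_lit 0x2800001) (nat_lit 113)) (.one (nat_lit 0x500000100400500e01120080ab41c022611)) (.one (nat_lit 0x500000200300500e01140060ab41c022611))) (.br (Nat.shiftLeft (nat_lit 0x5000003) (nat_lit 112)) (.one (nat_lit 0x500000200400500e01140080ab41c022611)) (.one (nat_lit 0x500000300400500e01160080ab41c022611))))
def t308 : k308.all (jb2 57 fl b0) = true := by decide +kernel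
noncomputable def k309 : KT := (.br (Nat.shiftLeft (nat_lit 0x6000001003) (nat_lit 100)) (.one (nat_lit 0x600000100200500e01120040cb81c022611)) (.br (Nat.shiftLeft (nat_lit 0x1800000401) (nat_lit 102)) (.one (nat_lit 0x600000100300500e01120060cb81c022611)) (.one (nat_lit 0x600000100400500e01120080cb81c022611))))
def t309 : k309.all (jb2 57 fl b0) = true := by decide +kernel
noncomputable def k310 : KT := (.br (Nat.shiftLeft (nat_lit 0x6000003) (nat_lit 112)) (.br (Nat.shiftLeft (nat_lit 0x1800000801) (nat_lit 102)) (.one (nat_lit 0x600000200300500e01140060cb81c022611)) (.one (nat_lit 0x600000200400500e01140080cb81c022611))) (.br (Nat.shiftLeft (nat_lit 0x7) (nat_lit 136)) (.one (nat_lit 0x600000300400500e01160080cb81c022611)) (.one (nat_lit 0x700000100200500e01120040ebc1c022611))))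
def t310 : k310.all (jb2 57 fl b0) = true := by decide +kernel
noncomputable def k311 : KT := (.br (Nat.shiftLeft (nat_lit 0x3800001) (nat_lit 113)) (.br (Nat.shiftLeft (nat_lit 0x1c00000401) (nat_lit 102)) (.one (nat_lit 0x700000100300500e01120060ebc1c022611)) (.one (nat_lit 0x700000100400500e01120080ebc1c022611))) (.br (Nat.shiftLeft (nat_lit 0x1c00000801) (nat_lit 102)) (.one (nat_lit 0x700000200300500e01140060ebc1c022611)) (.br (Nat.shiftLeft (nat_lit 0x7000003) (nat_lit 112)) (.one (nat_lit 0x700000200400500e01140080ebc1c022611)) (.one (nat_lit 0x700000300400500e01160080ebc1c022611)))))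
def t311 : k311.all (jb2 57 fl b0) = true := by decide +kernel
noncomputable def k312 : KT := (.br (Nat.shiftLeft (nat_lit 0x4000001) (nat_lit 113)) (.br (Nat.shiftLeft (nat_lit 0x8000001003) (nat_lit 100)) (.one (nat_lit 0x800000100200500e011200410c01c022611)) (.br (Nat.shiftLeft (nat_lit 0x2000000401) (nat_lit 102)) (.one (nat_lit 0x800000100300500e011200610c01c022611)) (.one (nat_lit 0x800000100400500e011200810c01c022611)))) (.br (Nat.shiftLeft (nat_lit 0x2000000801) (nat_lit 102)) (.one (nat_lit 0x800000200300500e011400610c01c022611)) (.br (Nat.shiftLeft (nat_lit 0x8000003) (nat_lit 112)) (.one (nat_lit 0x800000200400500e011400810c01c022611)) (.one (nat_lit 0x800000300400500e011600810c01c022611)))))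
def t312 : k312.all (jb2 57 fl b0) = true := by decide +kernel
noncomputable def k313 : KT := (.br (Nat.shiftLeft (nat_lit 0x9000003) (nat_lit 112)) (.br (Nat.shiftLeft (nat_lit 0x2400000401) (nat_lit 102)) (.br (Nat.shiftLeft (nat_lit 0x9000001003) (nat_lit 100)) (.one (nat_lit 0x900000100200500e011200412c41c022611)) (.one (nat_lit 0x900000100300500e011200612c41c022611))) (.br (Nat.shiftLeft (nat_lit 0x4800001) (nat_lit 113)) (.one (nat_lit 0x900000100400500e011200812c41c022611)) (.br (Nat.shiftLeft (nat_lit 0x2400000801) (nat_lit 102)) (.one (nat_lit 0x900000200300500e011400612c41c022611)) (.one (nat_lit 0x900000200400500e011400812c41c022611))))) (.br (Nat.shiftLeft (nat_lit 0xa000001003) (nat_lit 100)) (.br (Nat.shiftLeft (nat_lit 0x5) (nat_lit 137)) (.one (nat_lit 0x900000300400500e011600812c41c022611)) (.one (nat_lit 0xa00000100200500e011200414c81c022611))) (.br (Nat.shiftLeft (nat_lit 0x2800000401) (nat_lit 102)) (.one (nat_lit 0xa00000100300500e011200614c81c022611)) (.br (Nat.shiftLeft (nat_lit 0x5000001)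 (nat_lit 113)) (.one (nat_lit 0xa00000100400500e011200814c81c022611)) (.one (nat_lit 0xa00000200300500e011400614c81c022611))))))
def t313 : k313.all (jb2 57 fl b0) = true := by decide +kernel
noncomputable def k314 : KT := (.br (Nat.shiftLeft (nat_lit 0xc000003) (nat_lit 112)) (.br (Nat.shiftLeft (nat_lit 0x2c00000801) (nat_lit 102)) (.br (Nat.shiftLeft (nat_lit 0xb000001003) (nat_lit 100)) (.br (Nat.shiftLeft (nat_lit 0xa000003) (nat_lit 112)) (.one (nat_lit 0xa00000200400500e011400814c81c022611)) (.br (Nat.shiftLeft (nat_lit 0xb) (nat_lit 136)) (.one (nat_lit 0xa00000300400500e011600814c81c022611)) (.one (nat_lit 0xb00000100200500e011200416cc1c022611)))) (.br (Nat.shiftLeft (nat_lit 0x2c00000401) (nat_lit 102)) (.one (nat_lit 0xb00000100300500e011200616cc1c022611)) (.br (Nat.shiftLeft (nat_lit 0x5800001) (nat_lit 113)) (.one (nat_lit 0xb00000100400500e011200816cc1c022611)) (.one (nat_lit 0xb00000200300500e011400616cc1c022611))))) (.br (Nat.shiftLeft (nat_lit 0xc000001003) (nat_lit 100)) (.br (Nat.shiftLeft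 (nat_lit 0xb000003) (nat_lit 112)) (.one (nat_lit 0xb00000200400500e011400816cc1c022611)) (.br (Nat.shiftLeft (nat_lit 0x3) (nat_lit 138)) (.one (nat_lit 0xb00000300400500e011600816cc1c022611)) (.one (nat_lit 0xc00000100200500e011200418d01c022611)))) (.br (Nat.shiftLeft (nat_lit 0x6000001) (nat_lit 113)) (.br (Nat.shiftLeft (nat_lit 0x3000000401) (nat_lit 102)) (.one (nat_lit 0xc00000100300500e011200618d01c022611)) (.one (nat_lit 0xc00000100400500e011200818d01c022611))) (.br (Nat.shiftLeft (nat_lit 0x3000000801) (nat_lit 102)) (.one (nat_lit 0xc00000200300500e011400618d01c022611)) (.one (nat_lit 0xc00000200400500e011400818d01c022611)))))) (.br (Nat.shiftLeft (nat_lit 0xd000003) (nat_lit 112)) (.br (Nat.shiftLeft (nat_lit 0x3400000401) (nat_lit 102)) (.br (Nat.shiftLeft (nat_lit 0xd) (nat_lit 136)) (.one (nat_lit 0xc00000300400500e011600818d01c022611)) (.br (Nat.shiftLeft (nat_lit 0xd000001003) (nat_lit 100)) (.one (nat_lit 0xd00000100200500e01120041ad41c022611)) (.one (nat_lit 0xd00000100300500e01120061ad41c022611))))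 (.br (Nat.shiftLeft (nat_lit 0x6800001) (nat_lit 113)) (.one (nat_lit 0xd00000100400500e01120081ad41c022611)) (.br (Nat.shiftLeft (nat_lit 0x3400000801) (nat_lit 102)) (.one (nat_lit 0xd00000200300500e01140061ad41c022611)) (.one (nat_lit 0xd00000200400500e01140081ad41c022611))))) (.br (Nat.shiftLeft (nat_lit 0x3800000401) (nat_lit 102)) (.br (Nat.shiftLeft (nat_lit 0x7) (nat_lit 137)) (.one (nat_lit 0xd00000300400500e01160081ad41c022611)) (.br (Nat.shiftLeft (nat_lit 0xe000001003) (nat_lit 100)) (.one (nat_lit 0xe00000100200500e01120041cd81c022611)) (.one (nat_lit 0xe00000100300500e01120061cd81c022611)))) (.br (Nat.shiftLeft (nat_lit 0x3800000801) (nat_lit 102)) (.br (Nat.shiftLeft (nat_lit 0x7000001) (nat_lit 113)) (.one (nat_lit 0xe00000100400500e01120081cd81c022611)) (.one (nat_lit 0xe00000200300500e01140061cd81c022611))) (.br (Nat.shiftLeft (nat_lit 0xe000003) (nat_lit 112)) (.one (nat_lit 0xe00000200400500e01140081cd81c022611)) (.one (nat_lit 0xe00000300400500e01160081cd81c022611)))))))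
def t314 : k314.all (jb2 57 fl b0) = true := by decide +kernel
noncomputable def s18 : KT := (.br (nat_lit 0xb00000200500e011000400a17ec22511) (.br (nat_lit 0x200300400500e011600800a05c822760) (.br (nat_lit 0x100200300500e011400600a03c422760) (.br (nat_lit 0x100000400500e011000800a03c422511) k297 k298) (.br (nat_lit 0x100200400500e011400800a03c422760) k299 k300)) (.br (nat_lit 0x700000100500e011000200a0fdc22511) (.br (nat_lit 0x500000400500e011000800a0bd422511) k301 k302) (.br (nat_lit 0x800000100500e011000200a11e022511) k303 (.br (nat_lit 0x900000200500e011000400a13e422511) k304 k305)))) (.br (nat_lit 0x600000100400500e01120080cb81c022611) (.br (nat_lit 0x500000100300500e01120060ab41c022611) (.br (nat_lit 0x400000100200500e011200408b01c022611) k306 k307) (.br (nat_lit 0x500000300400500e01160080ab41c022611) k308 k309)) (.br (nat_lit 0x700000300400500e01160080ebc1c022611) (.br (nat_lit 0x700000100200500e01120040ebc1c022611) k310 k311) (.br (nat_lit 0x800000300400500e011600810c01c022611) k312 (.br (nat_lit 0xa00000200300500e011400614c81c022611)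 k313 k314)))))
noncomputable def u18 : KT := (.one (nat_lit 0x500e011000000a01c022430))
def w18 : u18.all (wj 57 s18) = true := by decide +kernel
def o18 : OkW 57 (jb2 57 fl) u18 := .lift s18 _ (.br _ _ _ (.br _ _ _ (.br _ _ _ (.br _ _ _ (.leaf b0 k297 t297) (.leaf b0 k298 t298)) (.br _ _ _ (.leaf b0 k299 t299) (.leaf b0 k300 t300))) (.br _ _ _ (.br _ _ _ (.leaf b0 k301 t301) (.leaf b0 k302 t302)) (.br _ _ _ (.leaf b0 k303 t303) (.br _ _ _ (.leaf b0 k304 t304) (.leaf b0 k305 t305))))) (.br _ _ _ (.br _ _ _ (.br _ _ _ (.leaf b0 k306 t306) (.leaf b0 k307 t307)) (.br _ _ _ (.leaf b0 k308 t308) (.leaf b0 k309 t309))) (.br _ _ _ (.br _ _ _ (.leaf b0 k310 t310) (.leaf b0 k311 t311)) (.br _ _ _ (.leaf b0 k312 t312) (.br _ _ _ (.leaf b0 k313 t313) (.leaf b0 k314 t314)))))) w18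
noncomputable def k315 : KT := (.br (Nat.shiftLeft (nat_lit 0x1) (nat_lit 113)) (.br (Nat.shiftLeft (nat_lit 0x1) (nat_lit 102)) (.br (Nat.shiftLeft (nat_lit 0x1) (nat_lit 101)) (.br (Nat.shiftLeft (nat_lit 0x1) (nat_lit 100)) (.one (nat_lit 0x500e012000000a01c025400)) (.one (nat_lit 0x100500e012000200a01c025500))) (.br (Nat.shiftLeft (nat_lit 0x3) (nat_lit 100)) (.one (nat_lit 0x200500e012000400a01c025500)) (.one (nat_lit 0x300500e012000600a01c025500)))) (.br (Nat.shiftLeft (nat_lit 0x801) (nat_lit 101)) (.br (Nat.shiftLeft (nat_lit 0x1) (nat_lit 112)) (.one (nat_lit 0x400500e012000800a01c025500)) (.one (nat_lit 0x100000500e012200000a01c024411))) (.br (Nat.shiftLeft (nat_lit 0x1003) (nat_lit 100)) (.one (nat_lit 0x100200500e012200400a01c025600)) (.br (Nat.shiftLeft (nat_lit 0x401) (nat_lit 102)) (.one (nat_lit 0x100300500e012200600a01c025600)) (.one (nat_lit 0x100400500e012200800a01c024650)))))) (.br (Nat.shiftLeft (nat_lit 0xc01) (nat_lit 102)) (.br (Nat.shiftLeft (nat_lit 0x801) (nat_lit 102)) (.br (Nat.shiftLeft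 (nat_lit 0x1001) (nat_lit 101)) (.one (nat_lit 0x200000500e012400000a01c024411)) (.one (nat_lit 0x200300500e012400600a01c025600))) (.br (Nat.shiftLeft (nat_lit 0x3) (nat_lit 112)) (.one (nat_lit 0x200400500e012400800a01c025600)) (.one (nat_lit 0x300000500e012600000a01c024411)))) (.br (Nat.shiftLeft (nat_lit 0x5) (nat_lit 112)) (.br (Nat.shiftLeft (nat_lit 0x1) (nat_lit 114)) (.one (nat_lit 0x300400500e012600800a01c025600)) (.one (nat_lit 0x400000500e012800000a01c024411))) (.br (Nat.shiftLeft (nat_lit 0x3) (nat_lit 113)) (.one (nat_lit 0x500000500e012a00000a01c024411)) (.br (Nat.shiftLeft (nat_lit 0x7) (nat_lit 112)) (.one (nat_lit 0x600000500e012c00000a01c024411)) (.one (nat_lit 0x700000500e012e00000a01c024411)))))))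
def t315 : k315.all (jb2 57 fl b0) = true := by decide +kernel
noncomputable def k316 : KT := (.br (Nat.shiftLeft (nat_lit 0x7) (nat_lit 113)) (.br (Nat.shiftLeft (nat_lit 0xb) (nat_lit 112)) (.br (Nat.shiftLeft (nat_lit 0x9) (nat_lit 112)) (.one (nat_lit 0x800000500e012000000a01c126411)) (.br (Nat.shiftLeft (nat_lit 0x5) (nat_lit 113)) (.one (nat_lit 0x900000500e012200000a01c126411)) (.one (nat_lit 0xa00000500e012400000a01c126411)))) (.br (Nat.shiftLeft (nat_lit 0x3) (nat_lit 114)) (.one (nat_lit 0xb00000500e012600000a01c126411)) (.br (Nat.shiftLeft (nat_lit 0xd) (nat_lit 112)) (.one (nat_lit 0xc00000500e012800000a01c126411)) (.one (nat_lit 0xd00000500e012a00000a01c126411))))) (.br (Nat.shiftLeft (nat_lit 0x1000003) (nat_lit 100)) (.br (Nat.shiftLeft (nat_lit 0x1) (nat_lit 124)) (.one (nat_lit 0xe00000500e012c00000a01c126411)) (.br (Nat.shiftLeft (nat_lit 0x800001) (nat_lit 101)) (.one (nat_lit 0x100000100500e012000200a03c424511)) (.one (nat_lit 0x100000200500e012000400a03c424511)))) (.br (Nat.shiftLeft (nat_lit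 0x400001) (nat_lit 102)) (.one (nat_lit 0x100000300500e012000600a03c424511)) (.br (Nat.shiftLeft (nat_lit 0x801) (nat_lit 113)) (.one (nat_lit 0x100000400500e012000800a03c424511)) (.one (nat_lit 0x100200300500e012400600a03c424760))))))
noncomputable def b317 : BT := .node (nat_lit 0x1) (nat_lit 0x51328a13ac013a99000ea6410008700028) .leaf .leaf
def t316 : k316.all (jb2 57 fl b317) = true := by decide +kernel
noncomputable def k317 : KT := (.br (Nat.shiftLeft (nat_lit 0x1000001) (nat_lit 101)) (.br (Nat.shiftLeft (nat_lit 0x1003) (nat_lit 112)) (.one (nat_lit 0x100200400500e012400800a03c424760)) (.br (Nat.shiftLeft (nat_lit 0x1) (nat_lit 125)) (.one (nat_lit 0x100300400500e012600800a03c424760)) (.one (nat_lit 0x200000100500e012000200a05c824511)))) (.br (Nat.shiftLeft (nat_lit 0x2000003) (nat_lit 100)) (.one (nat_lit 0x200000200500e012000400a05c824511)) (.br (Nat.shiftLeft (nat_lit 0x800001) (nat_lit 102)) (.one (nat_lit 0x200000300500e012000600a05c824511)) (.one (nat_lit 0x200000400500e012000800a05c824511)))))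
def t317 : k317.all (jb2 57 fl b0) = true := by decide +kernel
noncomputable def k318 : KT := (.br (Nat.shiftLeft (nat_lit 0x1) (nat_lit 126)) (.br (Nat.shiftLeft (nat_lit 0x1800001) (nat_lit 101)) (.br (Nat.shiftLeft (nat_lit 0x3) (nat_lit 124)) (.one (nat_lit 0x200300400500e012600800a05c824760)) (.one (nat_lit 0x300000100500e012000200a07cc24511))) (.br (Nat.shiftLeft (nat_lit 0x3000003) (nat_lit 100)) (.one (nat_lit 0x300000200500e012000400a07cc24511)) (.br (Nat.shiftLeft (nat_lit 0xc00001) (nat_lit 102)) (.one (nat_lit 0x300000300500e012000600a07cc24511)) (.one (nat_lit 0x300000400500e012000800a07cc24511))))) (.br (Nat.shiftLeft (nat_lit 0x1000001) (nat_lit 102)) (.br (Nat.shiftLeft (nat_lit 0x2000001) (nat_lit 101)) (.one (nat_lit 0x400000100500e012000200a09d024511)) (.br (Nat.shiftLeft (nat_lit 0x4000003) (nat_lit 100)) (.one (nat_lit 0x400000200500e012000400a09d024511)) (.one (nat_lit 0x400000300500e012000600a09d024511)))) (.br (Nat.shiftLeft (nat_lit 0x5) (nat_lit 124)) (.one (nat_lit 0x400000400500e012000800a09d024511))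 (.br (Nat.shiftLeft (nat_lit 0x2800001) (nat_lit 101)) (.one (nat_lit 0x500000100500e012000200a0bd424511)) (.one (nat_lit 0x500000200500e012000400a0bd424511))))))
def t318 : k318.all (jb2 57 fl b0) = true := by decide +kernel
noncomputable def k319 : KT := (.br (Nat.shiftLeft (nat_lit 0x3000001) (nat_lit 101)) (.br (Nat.shiftLeft (nat_lit 0x1400001) (nat_lit 102)) (.one (nat_lit 0x500000300500e012000600a0bd424511)) (.br (Nat.shiftLeft (nat_lit 0x3) (nat_lit 125)) (.one (nat_lit 0x500000400500e012000800a0bd424511)) (.one (nat_lit 0x600000100500e012000200a0dd824511)))) (.br (Nat.shiftLeft (nat_lit 0x6000003) (nat_lit 100)) (.one (nat_lit 0x600000200500e012000400a0dd824511)) (.br (Nat.shiftLeft (nat_lit 0x1800001) (nat_lit 102)) (.one (nat_lit 0x600000300500e012000600a0dd824511)) (.one (nat_lit 0x600000400500e012000800a0dd824511)))))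
def t319 : k319.all (jb2 57 fl b0) = true := by decide +kernel
noncomputable def k320 : KT := (.br (Nat.shiftLeft (nat_lit 0x7000003) (nat_lit 100)) (.br (Nat.shiftLeft (nat_lit 0x3800001) (nat_lit 101)) (.one (nat_lit 0x700000100500e012000200a0fdc24511)) (.one (nat_lit 0x700000200500e012000400a0fdc24511))) (.br (Nat.shiftLeft (nat_lit 0x1c00001) (nat_lit 102)) (.one (nat_lit 0x700000300500e012000600a0fdc24511)) (.br (Nat.shiftLeft (nat_lit 0x1) (nat_lit 127)) (.one (nat_lit 0x700000400500e012000800a0fdc24511)) (.one (nat_lit 0x800000100500e012000200a11e024511)))))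
def t320 : k320.all (jb2 57 fl b0) = true := by decide +kernel
noncomputable def k321 : KT := (.br (Nat.shiftLeft (nat_lit 0x9) (nat_lit 124)) (.br (Nat.shiftLeft (nat_lit 0x8000003) (nat_lit 100)) (.one (nat_lit 0x800000200500e012000400a11e024511)) (.br (Nat.shiftLeft (nat_lit 0x2000001) (nat_lit 102)) (.one (nat_lit 0x800000300500e012000600a11e024511)) (.one (nat_lit 0x800000400500e012000800a11e024511)))) (.br (Nat.shiftLeft (nat_lit 0x4800001) (nat_lit 101)) (.one (nat_lit 0x900000100500e012000200a13e424511)) (.br (Nat.shiftLeft (nat_lit 0x9000003) (nat_lit 100)) (.one (nat_lit 0x900000200500e012000400a13e424511)) (.one (nat_lit 0x900000300500e012000600a13e424511)))))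
def t321 : k321.all (jb2 57 fl b0) = true := by decide +kernel
noncomputable def k322 : KT := (.br (Nat.shiftLeft (nat_lit 0xb000003) (nat_lit 100)) (.br (Nat.shiftLeft (nat_lit 0xa000003) (nat_lit 100)) (.br (Nat.shiftLeft (nat_lit 0x5) (nat_lit 125)) (.one (nat_lit 0x900000400500e012000800a13e424511)) (.br (Nat.shiftLeft (nat_lit 0x5000001) (nat_lit 101)) (.one (nat_lit 0xa00000100500e012000200a15e824511)) (.one (nat_lit 0xa00000200500e012000400a15e824511)))) (.br (Nat.shiftLeft (nat_lit 0xb) (nat_lit 124)) (.br (Nat.shiftLeft (nat_lit 0x2800001) (nat_lit 102)) (.one (nat_lit 0xa00000300500e012000600a15e824511)) (.one (nat_lit 0xa00000400500e012000800a15e824511))) (.br (Nat.shiftLeft (nat_lit 0x5800001) (nat_lit 101)) (.one (nat_lit 0xb00000100500e012000200a17ec24511)) (.one (nat_lit 0xb00000200500e012000400a17ec24511))))) (.br (Nat.shiftLeft (nat_lit 0xc000003) (nat_lit 100)) (.br (Nat.shiftLeft (nat_lit 0x3) (nat_lit 126)) (.br (Nat.shiftLeft (nat_lit 0x2c00001) (nat_lit 102)) (.one (nat_lit 0xb00000300500e012000600a17ec24511))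 (.one (nat_lit 0xb00000400500e012000800a17ec24511))) (.br (Nat.shiftLeft (nat_lit 0x6000001) (nat_lit 101)) (.one (nat_lit 0xc00000100500e012000200a19f024511)) (.one (nat_lit 0xc00000200500e012000400a19f024511)))) (.br (Nat.shiftLeft (nat_lit 0xd) (nat_lit 124)) (.br (Nat.shiftLeft (nat_lit 0x3000001) (nat_lit 102)) (.one (nat_lit 0xc00000300500e012000600a19f024511)) (.one (nat_lit 0xc00000400500e012000800a19f024511))) (.br (Nat.shiftLeft (nat_lit 0x6800001) (nat_lit 101)) (.one (nat_lit 0xd00000100500e012000200a1bf424511)) (.one (nat_lit 0xd00000200500e012000400a1bf424511))))))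
def t322 : k322.all (jb2 57 fl b0) = true := by decide +kernel
noncomputable def k323 : KT := (.br (Nat.shiftLeft (nat_lit 0x1000001) (nat_lit 113)) (.br (Nat.shiftLeft (nat_lit 0x1) (nat_lit 136)) (.br (Nat.shiftLeft (nat_lit 0x7000001) (nat_lit 101)) (.br (Nat.shiftLeft (nat_lit 0x3400001) (nat_lit 102)) (.one (nat_lit 0xd00000300500e012000600a1bf424511)) (.br (Nat.shiftLeft (nat_lit 0x7) (nat_lit 125)) (.one (nat_lit 0xd00000400500e012000800a1bf424511)) (.one (nat_lit 0xe00000100500e012000200a1df824511)))) (.br (Nat.shiftLeft (nat_lit 0xe000003) (nat_lit 100)) (.one (nat_lit 0xe00000200500e012000400a1df824511)) (.br (Nat.shiftLeft (nat_lit 0x3800001) (nat_lit 102)) (.one (nat_lit 0xe00000300500e012000600a1df824511)) (.one (nat_lit 0xe00000400500e012000800a1df824511))))) (.br (Nat.shiftLeft (nat_lit 0x400000801) (nat_lit 102)) (.br (Nat.shiftLeft (nat_lit 0x1000001003) (nat_lit 100)) (.one (nat_lit 0x100000100200500e012200402a41c024611)) (.br (Nat.shiftLeft (nat_lit 0x800001) (nat_lit 113)) (.one (nat_lit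 0x100000100300500e012200602a41c024611)) (.one (nat_lit 0x100000200300500e012400602a41c024611)))) (.br (Nat.shiftLeft (nat_lit 0x1) (nat_lit 137)) (.br (Nat.shiftLeft (nat_lit 0x1000003) (nat_lit 112)) (.one (nat_lit 0x100000200400500e012400802a41c024611)) (.one (nat_lit 0x100000300400500e012600802a41c024611))) (.br (Nat.shiftLeft (nat_lit 0x2000001003) (nat_lit 100)) (.one (nat_lit 0x200000100200500e012200404a81c024611)) (.one (nat_lit 0x200000100300500e012200604a81c024611)))))) (.br (Nat.shiftLeft (nat_lit 0x3000003) (nat_lit 112)) (.br (Nat.shiftLeft (nat_lit 0x3) (nat_lit 136)) (.br (Nat.shiftLeft (nat_lit 0x800000801) (nat_lit 102)) (.one (nat_lit 0x200000200300500e012400604a81c024611)) (.br (Nat.shiftLeft (nat_lit 0x2000003) (nat_lit 112)) (.one (nat_lit 0x200000200400500e012400804a81c024611)) (.one (nat_lit 0x200000300400500e012600804a81c024611)))) (.br (Nat.shiftLeft (nat_lit 0x1800001) (nat_lit 113)) (.br (Nat.shiftLeft (nat_lit 0x3000001003) (nat_lit 100)) (.one (nat_lit 0x300000100200500e012200406ac1c024611))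 (.one (nat_lit 0x300000100300500e012200606ac1c024611))) (.br (Nat.shiftLeft (nat_lit 0xc00000801) (nat_lit 102)) (.one (nat_lit 0x300000200300500e012400606ac1c024611)) (.one (nat_lit 0x300000200400500e012400806ac1c024611))))) (.br (Nat.shiftLeft (nat_lit 0x2000001) (nat_lit 113)) (.br (Nat.shiftLeft (nat_lit 0x1) (nat_lit 138)) (.one (nat_lit 0x300000300400500e012600806ac1c024611)) (.br (Nat.shiftLeft (nat_lit 0x4000001003) (nat_lit 100)) (.one (nat_lit 0x400000100200500e012200408b01c024611)) (.one (nat_lit 0x400000100300500e012200608b01c024611)))) (.br (Nat.shiftLeft (nat_lit 0x4000003) (nat_lit 112)) (.br (Nat.shiftLeft (nat_lit 0x1000000801) (nat_lit 102)) (.one (nat_lit 0x400000200300500e012400608b01c024611)) (.one (nat_lit 0x400000200400500e012400808b01c024611))) (.br (Nat.shiftLeft (nat_lit 0x5) (nat_lit 136)) (.one (nat_lit 0x400000300400500e012600808b01c024611)) (.one (nat_lit 0x500000100200500e01220040ab41c024611)))))))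
def t323 : k323.all (jb2 57 fl b0) = true := by decide +kernel
noncomputable def k324 : KT := (.br (Nat.shiftLeft (nat_lit 0x1400000801) (nat_lit 102)) (.br (Nat.shiftLeft (nat_lit 0x2800001) (nat_lit 113)) (.one (nat_lit 0x500000100300500e01220060ab41c024611)) (.one (nat_lit 0x500000200300500e01240060ab41c024611))) (.br (Nat.shiftLeft (nat_lit 0x5000003) (nat_lit 112)) (.one (nat_lit 0x500000200400500e01240080ab41c024611)) (.br (Nat.shiftLeft (nat_lit 0x3) (nat_lit 137)) (.one (nat_lit 0x500000300400500e01260080ab41c024611)) (.one (nat_lit 0x600000100200500e01220040cb81c024611)))))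
def t324 : k324.all (jb2 57 fl b0) = true := by decide +kernel
noncomputable def k325 : KT := (.br (Nat.shiftLeft (nat_lit 0x1800000801) (nat_lit 102)) (.br (Nat.shiftLeft (nat_lit 0x3000001) (nat_lit 113)) (.one (nat_lit 0x600000100300500e01220060cb81c024611)) (.one (nat_lit 0x600000200300500e01240060cb81c024611))) (.br (Nat.shiftLeft (nat_lit 0x6000003) (nat_lit 112)) (.one (nat_lit 0x600000200400500e01240080cb81c024611)) (.br (Nat.shiftLeft (nat_lit 0x7) (nat_lit 136)) (.one (nat_lit 0x600000300400500e01260080cb81c024611)) (.one (nat_lit 0x700000100200500e01220040ebc1c024611)))))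
def t325 : k325.all (jb2 57 fl b0) = true := by decide +kernel
noncomputable def k326 : KT := (.br (Nat.shiftLeft (nat_lit 0x7000003) (nat_lit 112)) (.br (Nat.shiftLeft (nat_lit 0x3800001) (nat_lit 113)) (.one (nat_lit 0x700000100300500e01220060ebc1c024611)) (.br (Nat.shiftLeft (nat_lit 0x1c00000801) (nat_lit 102)) (.one (nat_lit 0x700000200300500e01240060ebc1c024611)) (.one (nat_lit 0x700000200400500e01240080ebc1c024611)))) (.br (Nat.shiftLeft (nat_lit 0x8000001003) (nat_lit 100)) (.br (Nat.shiftLeft (nat_lit 0x1) (nat_lit 139)) (.one (nat_lit 0x700000300400500e01260080ebc1c024611)) (.one (nat_lit 0x800000100200500e012200410c01c024611))) (.br (Nat.shiftLeft (nat_lit 0x4000001) (nat_lit 113)) (.one (nat_lit 0x800000100300500e012200610c01c024611)) (.one (nat_lit 0x800000200300500e012400610c01c024611)))))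
def t326 : k326.all (jb2 57 fl b0) = true := by decide +kernel
noncomputable def k327 : KT := (.br (Nat.shiftLeft (nat_lit 0xa000003) (nat_lit 112)) (.br (Nat.shiftLeft (nat_lit 0x2400000801) (nat_lit 102)) (.br (Nat.shiftLeft (nat_lit 0x9) (nat_lit 136)) (.br (Nat.shiftLeft (nat_lit 0x8000003) (nat_lit 112)) (.one (nat_lit 0x800000200400500e012400810c01c024611)) (.one (nat_lit 0x800000300400500e012600810c01c024611))) (.br (Nat.shiftLeft (nat_lit 0x9000001003) (nat_lit 100)) (.one (nat_lit 0x900000100200500e012200412c41c024611)) (.br (Nat.shiftLeft (nat_lit 0x4800001) (nat_lit 113)) (.one (nat_lit 0x900000100300500e012200612c41c024611)) (.one (nat_lit 0x900000200300500e012400612c41c024611))))) (.br (Nat.shiftLeft (nat_lit 0xa000001003) (nat_lit 100)) (.br (Nat.shiftLeft (nat_lit 0x9000003) (nat_lit 112)) (.one (nat_lit 0x900000200400500e012400812c41c024611)) (.br (Nat.shiftLeft (nat_lit 0x5) (nat_lit 137)) (.one (nat_lit 0x900000300400500e012600812c41c024611)) (.one (nat_lit 0xa00000100200500e012200414c81c024611))))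 (.br (Nat.shiftLeft (nat_lit 0x5000001) (nat_lit 113)) (.one (nat_lit 0xa00000100300500e012200614c81c024611)) (.br (Nat.shiftLeft (nat_lit 0x2800000801) (nat_lit 102)) (.one (nat_lit 0xa00000200300500e012400614c81c024611)) (.one (nat_lit 0xa00000200400500e012400814c81c024611)))))) (.br (Nat.shiftLeft (nat_lit 0xb000003) (nat_lit 112)) (.br (Nat.shiftLeft (nat_lit 0xb000001003) (nat_lit 100)) (.br (Nat.shiftLeft (nat_lit 0xb) (nat_lit 136)) (.one (nat_lit 0xa00000300400500e012600814c81c024611)) (.one (nat_lit 0xb00000100200500e012200416cc1c024611))) (.br (Nat.shiftLeft (nat_lit 0x5800001) (nat_lit 113)) (.one (nat_lit 0xb00000100300500e012200616cc1c024611)) (.br (Nat.shiftLeft (nat_lit 0x2c00000801) (nat_lit 102)) (.one (nat_lit 0xb00000200300500e012400616cc1c024611)) (.one (nat_lit 0xb00000200400500e012400816cc1c024611))))) (.br (Nat.shiftLeft (nat_lit 0x6000001) (nat_lit 113)) (.br (Nat.shiftLeft (nat_lit 0x3) (nat_lit 138)) (.one (nat_lit 0xb00000300400500e012600816cc1c024611)) (.br (Nat.shiftLeft (nat_lit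 0xc000001003) (nat_lit 100)) (.one (nat_lit 0xc00000100200500e012200418d01c024611)) (.one (nat_lit 0xc00000100300500e012200618d01c024611)))) (.br (Nat.shiftLeft (nat_lit 0x3000000801) (nat_lit 102)) (.one (nat_lit 0xc00000200300500e012400618d01c024611)) (.br (Nat.shiftLeft (nat_lit 0xc000003) (nat_lit 112)) (.one (nat_lit 0xc00000200400500e012400818d01c024611)) (.one (nat_lit 0xc00000300400500e012600818d01c024611)))))))
def t327 : k327.all (jb2 57 fl b0) = true := by decide +kernel
noncomputable def k328 : KT := (.br (Nat.shiftLeft (nat_lit 0xd000003) (nat_lit 112)) (.br (Nat.shiftLeft (nat_lit 0x6800001) (nat_lit 113)) (.br (Nat.shiftLeft (nat_lit 0xd000001003) (nat_lit 100)) (.one (nat_lit 0xd00000100200500e01220041ad41c024611)) (.one (nat_lit 0xd00000100300500e01220061ad41c024611))) (.br (Nat.shiftLeft (nat_lit 0x3400000801) (nat_lit 102)) (.one (nat_lit 0xd00000200300500e01240061ad41c024611)) (.one (nat_lit 0xd00000200400500e01240081ad41c024611)))) (.br (Nat.shiftLeft (nat_lit 0xe000001003) (nat_lit 100))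 (.br (Nat.shiftLeft (nat_lit 0x7) (nat_lit 137)) (.one (nat_lit 0xd00000300400500e01260081ad41c024611)) (.one (nat_lit 0xe00000100200500e01220041cd81c024611))) (.br (Nat.shiftLeft (nat_lit 0x7000001) (nat_lit 113)) (.one (nat_lit 0xe00000100300500e01220061cd81c024611)) (.br (Nat.shiftLeft (nat_lit 0x3800000801) (nat_lit 102)) (.one (nat_lit 0xe00000200300500e01240061cd81c024611)) (.one (nat_lit 0xe00000200400500e01240081cd81c024611))))))
def t328 : k328.all (jb2 57 fl b0) = true := by decide +kernel
noncomputable def s19 : KT := (.br (nat_lit 0x900000300500e012000600a13e424511) (.br (nat_lit 0x200000400500e012000800a05c824511) (.br (nat_lit 0x700000500e012e00000a01c024411) k315 (.br (nat_lit 0x100200300500e012400600a03c424760) k316 k317)) (.br (nat_lit 0x600000400500e012000800a0dd824511) (.br (nat_lit 0x500000200500e012000400a0bd424511) k318 k319) (.br (nat_lit 0x800000100500e012000200a11e024511) k320 k321))) (.br (nat_lit 0x600000100200500e01220040cb81c024611) (.br (nat_lit 0xd00000200500e012000400a1bf424511)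 k322 (.br (nat_lit 0x500000100200500e01220040ab41c024611) k323 k324)) (.br (nat_lit 0x800000200300500e012400610c01c024611) (.br (nat_lit 0x700000100200500e01220040ebc1c024611) k325 k326) (.br (nat_lit 0xc00000300400500e012600818d01c024611) k327 k328))))
noncomputable def u19 : KT := (.one (nat_lit 0x500e012000000a01c024430))
def w19 : u19.all (wj 57 s19) = true := by decide +kernel
def o19 : OkW 57 (jb2 57 fl) u19 := .lift s19 _ (.br _ _ _ (.br _ _ _ (.br _ _ _ (.leaf b0 k315 t315) (.br _ _ _ (.leaf b317 k316 t316) (.leaf b0 k317 t317))) (.br _ _ _ (.br _ _ _ (.leaf b0 k318 t318) (.leaf b0 k319 t319)) (.br _ _ _ (.leaf b0 k320 t320) (.leaf b0 k321 t321)))) (.br _ _ _ (.br _ _ _ (.leaf b0 k322 t322) (.br _ _ _ (.leaf b0 k323 t323) (.leaf b0 k324 t324))) (.br _ _ _ (.br _ _ _ (.leaf b0 k325 t325) (.leaf b0 k326 t326)) (.br _ _ _ (.leaf b0 k327 t327) (.leaf b0 k328 t328))))) w19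
noncomputable def k329 : KT := (.br (Nat.shiftLeft (nat_lit 0x1403805) (nat_lit 66)) (.one (nat_lit 0x500e013000000a01c027400)) (.br (Nat.shiftLeft (nat_lit 0x1) (nat_lit 100)) (.one (nat_lit 0x500e014000000a01c029400)) (.one (nat_lit 0x100500e013000200a01c026540))))
def t329 : k329.all (jb2 57 fl b0) = true := by decide +kernel
noncomputable def k330 : KT := (.br (Nat.shiftLeft (nat_lit 0x1) (nat_lit 102)) (.br (Nat.shiftLeft (nat_lit 0x801403805) (nat_lit 66)) (.br (Nat.shiftLeft (nat_lit 0x1) (nat_lit 101)) (.one (nat_lit 0x100500e014000200a01c028540)) (.one (nat_lit 0x200500e013000400a01c027500))) (.br (Nat.shiftLeft (nat_lit 0x3) (nat_lit 100)) (.one (nat_lit 0x200500e014000400a01c029500)) (.br (Nat.shiftLeft (nat_lit 0xc01403805) (nat_lit 66)) (.one (nat_lit 0x300500e013000600a01c027500)) (.one (nat_lit 0x300500e014000600a01c029500))))) (.br (Nat.shiftLeft (nat_lit 0x1) (nat_lit 112)) (.br (Nat.shiftLeft (nat_lit 0x1001403805) (nat_lit 66)) (.one (nat_lit 0x400500e013000800a01c027500)) (.one (nat_lit 0x400500e014000800a01c029500)))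 (.br (Nat.shiftLeft (nat_lit 0x400001403805) (nat_lit 66)) (.one (nat_lit 0x100000500e013200000a01c026411)) (.br (Nat.shiftLeft (nat_lit 0x801) (nat_lit 101)) (.one (nat_lit 0x100000500e014200000a01c028411)) (.one (nat_lit 0x100200500e013200400a01c027600))))))
def t330 : k330.all (jb2 57 fl b0) = true := by decide +kernel
noncomputable def k331 : KT := (.one (nat_lit 0x100200500e014200400a01c028650))
def t331 : k331.all (jb2 57 fl b0) = true := by decide +kernel
noncomputable def k332 : KT := (.one (nat_lit 0x100300500e013200600a01c026650))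
def t332 : k332.all (jb2 57 fl b0) = true := by decide +kernel
noncomputable def k333 : KT := (.one (nat_lit 0x100300500e014200600a01c028650))
def t333 : k333.all (jb2 57 fl b0) = true := by decide +kernel
noncomputable def k334 : KT := (.br (Nat.shiftLeft (nat_lit 0x401001403805) (nat_lit 66)) (.one (nat_lit 0x100400500e013200800a01c026650)) (.one (nat_lit 0x100400500e014200800a01c028650)))
def t334 : k334.all (jb2 57 fl b0) = true := by decide +kernel
noncomputable def k335 : KT := (.br (Nat.shiftLeft (nat_lit 0x1001) (nat_lit 101)) (.br (Nat.shiftLeft (nat_lit 0x800001403805) (nat_lit 66)) (.one (nat_lit 0x200000500e013400000a01c026411)) (.one (nat_lit 0x200000500e014400000a01c028411))) (.br (Nat.shiftLeft (nat_lit 0x800c01403805) (nat_lit 66)) (.one (nat_lit 0x200300500e013400600a01c027600)) (.one (nat_lit 0x200300500e014400600a01c028650))))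
def t335 : k335.all (jb2 57 fl b0) = true := by decide +kernel
noncomputable def k336 : KT := (.one (nat_lit 0x200400500e013400800a01c026650))
def t336 : k336.all (jb2 57 fl b0) = true := by decide +kernel
noncomputable def k337 : KT := (.br (Nat.shiftLeft (nat_lit 0x3) (nat_lit 112)) (.one (nat_lit 0x200400500e014400800a01c028650)) (.br (Nat.shiftLeft (nat_lit 0xc00001403805) (nat_lit 66)) (.one (nat_lit 0x300000500e013600000a01c026411)) (.one (nat_lit 0x300000500e014600000a01c028411))))
def t337 : k337.all (jb2 57 fl b0) = true := by decide +kernel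
noncomputable def k338 : KT := (.one (nat_lit 0x300400500e013600800a01c026650))
def t338 : k338.all (jb2 57 fl b0) = true := by decide +kernel
noncomputable def k339 : KT := (.br (Nat.shiftLeft (nat_lit 0x1800001403805) (nat_lit 66)) (.br (Nat.shiftLeft (nat_lit 0x5) (nat_lit 112)) (.br (Nat.shiftLeft (nat_lit 0x1) (nat_lit 114)) (.one (nat_lit 0x300400500e014600800a01c028650)) (.br (Nat.shiftLeft (nat_lit 0x1000001403805) (nat_lit 66)) (.one (nat_lit 0x400000500e013800000a01c026411)) (.one (nat_lit 0x400000500e014800000a01c028411)))) (.br (Nat.shiftLeft (nat_lit 0x1400001403805) (nat_lit 66)) (.one (nat_lit 0x500000500e013a00000a01c026411)) (.br (Nat.shiftLeft (nat_lit 0x3) (nat_lit 113)) (.one (nat_lit 0x500000500e014a00000a01c028411)) (.one (nat_lit 0x600000500e013c00000a01c026411))))) (.br (Nat.shiftLeft (nat_lit 0x1) (nat_lit 115)) (.br (Nat.shiftLeft (nat_lit 0x7) (nat_lit 112)) (.one (nat_lit 0x600000500e014c00000a01c028411)) (.br (Nat.shiftLeft (nat_lit 0x1c00001403805) (nat_lit 66)) (.one (nat_lit 0x700000500e013e00000a01c026411))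 (.one (nat_lit 0x700000500e014e00000a01c028411)))) (.br (Nat.shiftLeft (nat_lit 0x2000001403805) (nat_lit 66)) (.one (nat_lit 0x800000500e013000000a01c128411)) (.br (Nat.shiftLeft (nat_lit 0x9) (nat_lit 112)) (.one (nat_lit 0x800000500e014000000a01c12a411)) (.one (nat_lit 0x900000500e013200000a01c128411))))))
def t339 : k339.all (jb2 57 fl b0) = true := by decide +kernel
noncomputable def k340 : KT := (.br (Nat.shiftLeft (nat_lit 0x400000c01403805) (nat_lit 66)) (.br (Nat.shiftLeft (nat_lit 0xd) (nat_lit 112)) (.br (Nat.shiftLeft (nat_lit 0xb) (nat_lit 112)) (.br (Nat.shiftLeft (nat_lit 0x5) (nat_lit 113)) (.one (nat_lit 0x900000500e014200000a01c12a411)) (.br (Nat.shiftLeft (nat_lit 0x2800001403805) (nat_lit 66)) (.one (nat_lit 0xa00000500e013400000a01c128411)) (.one (nat_lit 0xa00000500e014400000a01c12a411)))) (.br (Nat.shiftLeft (nat_lit 0x3) (nat_lit 114)) (.br (Nat.shiftLeft (nat_lit 0x2c00001403805) (nat_lit 66)) (.one (nat_lit 0xb00000500e013600000a01c128411)) (.one (nat_lit 0xb00000500e014600000a01c12a411)))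 (.br (Nat.shiftLeft (nat_lit 0x3000001403805) (nat_lit 66)) (.one (nat_lit 0xc00000500e013800000a01c128411)) (.one (nat_lit 0xc00000500e014800000a01c12a411))))) (.br (Nat.shiftLeft (nat_lit 0x3800001403805) (nat_lit 66)) (.br (Nat.shiftLeft (nat_lit 0x3400001403805) (nat_lit 66)) (.one (nat_lit 0xd00000500e013a00000a01c128411)) (.br (Nat.shiftLeft (nat_lit 0x7) (nat_lit 113)) (.one (nat_lit 0xd00000500e014a00000a01c12a411)) (.one (nat_lit 0xe00000500e013c00000a01c128411)))) (.br (Nat.shiftLeft (nat_lit 0x400000801403805) (nat_lit 66)) (.br (Nat.shiftLeft (nat_lit 0x1) (nat_lit 124)) (.one (nat_lit 0xe00000500e014c00000a01c12a411)) (.one (nat_lit 0x100000200500e013000400a03c426511))) (.br (Nat.shiftLeft (nat_lit 0x1000003) (nat_lit 100)) (.one (nat_lit 0x100000200500e014000400a03c428511)) (.one (nat_lit 0x100000300500e013000600a03c426511)))))) (.br (Nat.shiftLeft (nat_lit 0x800000c01403805) (nat_lit 66)) (.br (Nat.shiftLeft (nat_lit 0x801) (nat_lit 113)) (.br (Nat.shiftLeft (nat_lit 0x400001) (nat_lit 102)) (.one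 (nat_lit 0x100000300500e014000600a03c428511)) (.br (Nat.shiftLeft (nat_lit 0x400001001403805) (nat_lit 66)) (.one (nat_lit 0x100000400500e013000800a03c426511)) (.one (nat_lit 0x100000400500e014000800a03c428511)))) (.br (Nat.shiftLeft (nat_lit 0x800000801403805) (nat_lit 66)) (.br (Nat.shiftLeft (nat_lit 0x1) (nat_lit 125)) (.one (nat_lit 0x100200300500e013400600a03c426760)) (.one (nat_lit 0x200000200500e013000400a05c826511))) (.br (Nat.shiftLeft (nat_lit 0x2000003) (nat_lit 100)) (.one (nat_lit 0x200000200500e014000400a05c828511)) (.one (nat_lit 0x200000300500e013000600a05c826511))))) (.br (Nat.shiftLeft (nat_lit 0xc00000801403805) (nat_lit 66)) (.br (Nat.shiftLeft (nat_lit 0x800001001403805) (nat_lit 66)) (.br (Nat.shiftLeft (nat_lit 0x800001) (nat_lit 102)) (.one (nat_lit 0x200000300500e014000600a05c828511)) (.one (nat_lit 0x200000400500e013000800a05c826511))) (.br (Nat.shiftLeft (nat_lit 0x3) (nat_lit 124)) (.one (nat_lit 0x200000400500e014000800a05c828511)) (.one (nat_lit 0x300000200500e013000400a07cc26511))))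 (.br (Nat.shiftLeft (nat_lit 0xc00000c01403805) (nat_lit 66)) (.br (Nat.shiftLeft (nat_lit 0x3000003) (nat_lit 100)) (.one (nat_lit 0x300000200500e014000400a07cc28511)) (.one (nat_lit 0x300000300500e013000600a07cc26511))) (.br (Nat.shiftLeft (nat_lit 0xc00001) (nat_lit 102)) (.one (nat_lit 0x300000300500e014000600a07cc28511)) (.one (nat_lit 0x300000400500e013000800a07cc26511)))))))
def t340 : k340.all (jb2 57 fl b0) = true := by decide +kernel
noncomputable def k341 : KT := (.br (Nat.shiftLeft (nat_lit 0x1000001) (nat_lit 102)) (.br (Nat.shiftLeft (nat_lit 0x1000000801403805) (nat_lit 66)) (.br (Nat.shiftLeft (nat_lit 0x1) (nat_lit 126)) (.one (nat_lit 0x300000400500e014000800a07cc28511)) (.one (nat_lit 0x400000200500e013000400a09d026511))) (.br (Nat.shiftLeft (nat_lit 0x4000003) (nat_lit 100)) (.one (nat_lit 0x400000200500e014000400a09d028511)) (.br (Nat.shiftLeft (nat_lit 0x1000000c01403805) (nat_lit 66)) (.one (nat_lit 0x400000300500e013000600a09d026511)) (.one (nat_lit 0x400000300500e014000600a09d028511)))))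 (.br (Nat.shiftLeft (nat_lit 0x1400000801403805) (nat_lit 66)) (.br (Nat.shiftLeft (nat_lit 0x1000001001403805) (nat_lit 66)) (.one (nat_lit 0x400000400500e013000800a09d026511)) (.br (Nat.shiftLeft (nat_lit 0x5) (nat_lit 124)) (.one (nat_lit 0x400000400500e014000800a09d028511)) (.one (nat_lit 0x500000200500e013000400a0bd426511)))) (.br (Nat.shiftLeft (nat_lit 0x5000003) (nat_lit 100)) (.one (nat_lit 0x500000200500e014000400a0bd428511)) (.br (Nat.shiftLeft (nat_lit 0x1400000c01403805) (nat_lit 66)) (.one (nat_lit 0x500000300500e013000600a0bd426511)) (.one (nat_lit 0x500000300500e014000600a0bd428511))))))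
def t341 : k341.all (jb2 57 fl b0) = true := by decide +kernel
noncomputable def k342 : KT := (.br (Nat.shiftLeft (nat_lit 0x1800000801403805) (nat_lit 66)) (.br (Nat.shiftLeft (nat_lit 0x1400001001403805) (nat_lit 66)) (.one (nat_lit 0x500000400500e013000800a0bd426511)) (.br (Nat.shiftLeft (nat_lit 0x3) (nat_lit 125)) (.one (nat_lit 0x500000400500e014000800a0bd428511)) (.one (nat_lit 0x600000200500e013000400a0dd826511)))) (.br (Nat.shiftLeft (nat_lit 0x1800000c01403805) (nat_lit 66)) (.br (Nat.shiftLeft (nat_lit 0x6000003) (nat_lit 100)) (.one (nat_lit 0x600000200500e014000400a0dd828511)) (.one (nat_lit 0x600000300500e013000600a0dd826511))) (.br (Nat.shiftLeft (nat_lit 0x1800001) (nat_lit 102)) (.one (nat_lit 0x600000300500e014000600a0dd828511)) (.one (nat_lit 0x600000400500e013000800a0dd826511)))))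
def t342 : k342.all (jb2 57 fl b0) = true := by decide +kernel
noncomputable def k343 : KT := (.br (Nat.shiftLeft (nat_lit 0x1c00000c01403805) (nat_lit 66)) (.br (Nat.shiftLeft (nat_lit 0x1c00000801403805) (nat_lit 66)) (.br (Nat.shiftLeft (nat_lit 0x7) (nat_lit 124)) (.one (nat_lit 0x600000400500e014000800a0dd828511)) (.one (nat_lit 0x700000200500e013000400a0fdc26511))) (.br (Nat.shiftLeft (nat_lit 0x7000003) (nat_lit 100)) (.one (nat_lit 0x700000200500e014000400a0fdc28511)) (.one (nat_lit 0x700000300500e013000600a0fdc26511)))) (.br (Nat.shiftLeft (nat_lit 0x1c00001001403805) (nat_lit 66)) (.br (Nat.shiftLeft (nat_lit 0x1c00001) (nat_lit 102)) (.one (nat_lit 0x700000300500e014000600a0fdc28511)) (.one (nat_lit 0x700000400500e013000800a0fdc26511))) (.br (Nat.shiftLeft (nat_lit 0x1) (nat_lit 127)) (.one (nat_lit 0x700000400500e014000800a0fdc28511)) (.one (nat_lit 0x800000200500e013000400a11e026511)))))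
def t343 : k343.all (jb2 57 fl b0) = true := by decide +kernel
noncomputable def k344 : KT := (.br (Nat.shiftLeft (nat_lit 0x2400000801403805) (nat_lit 66)) (.br (Nat.shiftLeft (nat_lit 0x2000001) (nat_lit 102)) (.br (Nat.shiftLeft (nat_lit 0x8000003) (nat_lit 100)) (.one (nat_lit 0x800000200500e014000400a11e028511)) (.br (Nat.shiftLeft (nat_lit 0x2000000c01403805) (nat_lit 66)) (.one (nat_lit 0x800000300500e013000600a11e026511)) (.one (nat_lit 0x800000300500e014000600a11e028511)))) (.br (Nat.shiftLeft (nat_lit 0x2000001001403805) (nat_lit 66)) (.one (nat_lit 0x800000400500e013000800a11e026511)) (.br (Nat.shiftLeft (nat_lit 0x9) (nat_lit 124)) (.one (nat_lit 0x800000400500e014000800a11e028511)) (.one (nat_lit 0x900000200500e013000400a13e426511))))) (.br (Nat.shiftLeft (nat_lit 0x2400001) (nat_lit 102)) (.br (Nat.shiftLeft (nat_lit 0x9000003) (nat_lit 100)) (.one (nat_lit 0x900000200500e014000400a13e428511)) (.br (Nat.shiftLeft (nat_lit 0x2400000c01403805) (nat_lit 66)) (.one (nat_lit 0x900000300500e013000600a13e426511))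 (.one (nat_lit 0x900000300500e014000600a13e428511)))) (.br (Nat.shiftLeft (nat_lit 0x2400001001403805) (nat_lit 66)) (.one (nat_lit 0x900000400500e013000800a13e426511)) (.br (Nat.shiftLeft (nat_lit 0x5) (nat_lit 125)) (.one (nat_lit 0x900000400500e014000800a13e428511)) (.one (nat_lit 0xa00000200500e013000400a15e826511))))))
def t344 : k344.all (jb2 57 fl b0) = true := by decide +kernel
noncomputable def k345 : KT := (.br (Nat.shiftLeft (nat_lit 0x3400000801403805) (nat_lit 66)) (.br (Nat.shiftLeft (nat_lit 0x2c00001) (nat_lit 102)) (.br (Nat.shiftLeft (nat_lit 0x2800001001403805) (nat_lit 66)) (.br (Nat.shiftLeft (nat_lit 0x2800000c01403805) (nat_lit 66)) (.br (Nat.shiftLeft (nat_lit 0xa000003) (nat_lit 100)) (.one (nat_lit 0xa00000200500e014000400a15e828511)) (.one (nat_lit 0xa00000300500e013000600a15e826511))) (.br (Nat.shiftLeft (nat_lit 0x2800001) (nat_lit 102)) (.one (nat_lit 0xa00000300500e014000600a15e828511)) (.one (nat_lit 0xa00000400500e013000800a15e826511)))) (.br (Nat.shiftLeft (nat_lit 0x2c00000801403805)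 (nat_lit 66)) (.br (Nat.shiftLeft (nat_lit 0xb) (nat_lit 124)) (.one (nat_lit 0xa00000400500e014000800a15e828511)) (.one (nat_lit 0xb00000200500e013000400a17ec26511))) (.br (Nat.shiftLeft (nat_lit 0xb000003) (nat_lit 100)) (.one (nat_lit 0xb00000200500e014000400a17ec28511)) (.br (Nat.shiftLeft (nat_lit 0x2c00000c01403805) (nat_lit 66)) (.one (nat_lit 0xb00000300500e013000600a17ec26511)) (.one (nat_lit 0xb00000300500e014000600a17ec28511)))))) (.br (Nat.shiftLeft (nat_lit 0xc000003) (nat_lit 100)) (.br (Nat.shiftLeft (nat_lit 0x3) (nat_lit 126)) (.br (Nat.shiftLeft (nat_lit 0x2c00001001403805) (nat_lit 66)) (.one (nat_lit 0xb00000400500e013000800a17ec26511)) (.one (nat_lit 0xb00000400500e014000800a17ec28511))) (.br (Nat.shiftLeft (nat_lit 0x3000000801403805) (nat_lit 66)) (.one (nat_lit 0xc00000200500e013000400a19f026511)) (.one (nat_lit 0xc00000200500e014000400a19f028511)))) (.br (Nat.shiftLeft (nat_lit 0x3000001) (nat_lit 102)) (.br (Nat.shiftLeft (nat_lit 0x3000000c01403805) (nat_lit 66)) (.one (nat_lit 0xc00000300500e013000600a19f026511))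 (.one (nat_lit 0xc00000300500e014000600a19f028511))) (.br (Nat.shiftLeft (nat_lit 0x3000001001403805) (nat_lit 66)) (.one (nat_lit 0xc00000400500e013000800a19f026511)) (.br (Nat.shiftLeft (nat_lit 0xd) (nat_lit 124)) (.one (nat_lit 0xc00000400500e014000800a19f028511)) (.one (nat_lit 0xd00000200500e013000400a1bf426511))))))) (.br (Nat.shiftLeft (nat_lit 0x3800001) (nat_lit 102)) (.br (Nat.shiftLeft (nat_lit 0x3400001001403805) (nat_lit 66)) (.br (Nat.shiftLeft (nat_lit 0x3400000c01403805) (nat_lit 66)) (.br (Nat.shiftLeft (nat_lit 0xd000003) (nat_lit 100)) (.one (nat_lit 0xd00000200500e014000400a1bf428511)) (.one (nat_lit 0xd00000300500e013000600a1bf426511))) (.br (Nat.shiftLeft (nat_lit 0x3400001) (nat_lit 102)) (.one (nat_lit 0xd00000300500e014000600a1bf428511)) (.one (nat_lit 0xd00000400500e013000800a1bf426511)))) (.br (Nat.shiftLeft (nat_lit 0x3800000801403805) (nat_lit 66)) (.br (Nat.shiftLeft (nat_lit 0x7) (nat_lit 125)) (.one (nat_lit 0xd00000400500e014000800a1bf428511)) (.one (nat_lit 0xe00000200500e013000400a1df826511)))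 (.br (Nat.shiftLeft (nat_lit 0xe000003) (nat_lit 100)) (.one (nat_lit 0xe00000200500e014000400a1df828511)) (.br (Nat.shiftLeft (nat_lit 0x3800000c01403805) (nat_lit 66)) (.one (nat_lit 0xe00000300500e013000600a1df826511)) (.one (nat_lit 0xe00000300500e014000600a1df828511)))))) (.br (Nat.shiftLeft (nat_lit 0x1000001) (nat_lit 113)) (.br (Nat.shiftLeft (nat_lit 0x1) (nat_lit 136)) (.br (Nat.shiftLeft (nat_lit 0x3800001001403805) (nat_lit 66)) (.one (nat_lit 0xe00000400500e013000800a1df826511)) (.one (nat_lit 0xe00000400500e014000800a1df828511))) (.br (Nat.shiftLeft (nat_lit 0x800001) (nat_lit 113)) (.one (nat_lit 0x100000100200500e013200402a41c026611)) (.br (Nat.shiftLeft (nat_lit 0x1) (nat_lit 137)) (.one (nat_lit 0x100000200300500e013400602a41c026611)) (.one (nat_lit 0x200000100200500e013200404a81c026611))))) (.br (Nat.shiftLeft (nat_lit 0x1800001) (nat_lit 113)) (.br (Nat.shiftLeft (nat_lit 0x3) (nat_lit 136)) (.one (nat_lit 0x200000200300500e013400604a81c026611)) (.one (nat_lit 0x300000100200500e013200406ac1c026611)))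 (.br (Nat.shiftLeft (nat_lit 0x1) (nat_lit 138)) (.one (nat_lit 0x300000200300500e013400606ac1c026611)) (.br (Nat.shiftLeft (nat_lit 0x2000001) (nat_lit 113)) (.one (nat_lit 0x400000100200500e013200408b01c026611)) (.one (nat_lit 0x400000200300500e013400608b01c026611))))))))
def t345 : k345.all (jb2 57 fl b0) = true := by decide +kernel
noncomputable def k346 : KT := (.br (Nat.shiftLeft (nat_lit 0x3000001) (nat_lit 113)) (.br (Nat.shiftLeft (nat_lit 0x2800001) (nat_lit 113)) (.one (nat_lit 0x500000100200500e01320040ab41c026611)) (.br (Nat.shiftLeft (nat_lit 0x3) (nat_lit 137)) (.one (nat_lit 0x500000200300500e01340060ab41c026611)) (.one (nat_lit 0x600000100200500e01320040cb81c026611)))) (.br (Nat.shiftLeft (nat_lit 0x3800001) (nat_lit 113)) (.br (Nat.shiftLeft (nat_lit 0x7) (nat_lit 136)) (.one (nat_lit 0x600000200300500e01340060cb81c026611)) (.one (nat_lit 0x700000100200500e01320040ebc1c026611))) (.br (Nat.shiftLeft (nat_lit 0x1) (nat_lit 139)) (.one (nat_lit 0x700000200300500e01340060ebc1c026611)) (.one (nat_lit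 0x800000100200500e013200410c01c026611)))))
def t346 : k346.all (jb2 57 fl b0) = true := by decide +kernel
noncomputable def k347 : KT := (.br (Nat.shiftLeft (nat_lit 0x5800001) (nat_lit 113)) (.br (Nat.shiftLeft (nat_lit 0x5) (nat_lit 137)) (.br (Nat.shiftLeft (nat_lit 0x9) (nat_lit 136)) (.one (nat_lit 0x800000200300500e013400610c01c026611)) (.br (Nat.shiftLeft (nat_lit 0x4800001) (nat_lit 113)) (.one (nat_lit 0x900000100200500e013200412c41c026611)) (.one (nat_lit 0x900000200300500e013400612c41c026611)))) (.br (Nat.shiftLeft (nat_lit 0x5000001) (nat_lit 113)) (.one (nat_lit 0xa00000100200500e013200414c81c026611)) (.br (Nat.shiftLeft (nat_lit 0xb) (nat_lit 136)) (.one (nat_lit 0xa00000200300500e013400614c81c026611)) (.one (nat_lit 0xb00000100200500e013200416cc1c026611))))) (.br (Nat.shiftLeft (nat_lit 0xd) (nat_lit 136)) (.br (Nat.shiftLeft (nat_lit 0x3) (nat_lit 138)) (.one (nat_lit 0xb00000200300500e013400616cc1c026611)) (.br (Nat.shiftLeft (nat_lit 0x6000001) (nat_lit 113)) (.one (nat_lit 0xc00000100200500e013200418d01c026611))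 (.one (nat_lit 0xc00000200300500e013400618d01c026611)))) (.br (Nat.shiftLeft (nat_lit 0x7) (nat_lit 137)) (.br (Nat.shiftLeft (nat_lit 0x6800001) (nat_lit 113)) (.one (nat_lit 0xd00000100200500e01320041ad41c026611)) (.one (nat_lit 0xd00000200300500e01340061ad41c026611))) (.br (Nat.shiftLeft (nat_lit 0x7000001) (nat_lit 113)) (.one (nat_lit 0xe00000100200500e01320041cd81c026611)) (.one (nat_lit 0xe00000200300500e01340061cd81c026611))))))
def t347 : k347.all (jb2 57 fl b0) = true := by decide +kernel
noncomputable def s20 : KT := (.br (nat_lit 0x300000500e014600000a01c028411) (.br (nat_lit 0x100300500e013200600a01c026650) (.br (nat_lit 0x100200500e013200400a01c027600) (.br (nat_lit 0x100500e013000200a01c026540) k329 k330) (.br (nat_lit 0x100200500e014200400a01c028650) k331 k332)) (.br (nat_lit 0x100400500e014200800a01c028650) (.br (nat_lit 0x100300500e014200600a01c028650) k333 k334) (.br (nat_lit 0x200300500e014400600a01c028650) k335 (.br (nat_lit 0x200400500e013400800a01c026650) k336 k337)))) (.br (nat_lit 0x600000400500e013000800a0dd826511)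 (.br (nat_lit 0x900000500e013200000a01c128411) (.br (nat_lit 0x300400500e013600800a01c026650) k338 k339) (.br (nat_lit 0x300000400500e013000800a07cc26511) k340 (.br (nat_lit 0x500000300500e014000600a0bd428511) k341 k342))) (.br (nat_lit 0xa00000200500e013000400a15e826511) (.br (nat_lit 0x800000200500e013000400a11e026511) k343 k344) (.br (nat_lit 0x400000200300500e013400608b01c026611) k345 (.br (nat_lit 0x800000100200500e013200410c01c026611) k346 k347)))))
noncomputable def u20 : KT := (.br (Nat.shiftLeft (nat_lit 0x1403805) (nat_lit 66)) (.one (nat_lit 0x500e013000000a01c026430)) (.one (nat_lit 0x500e014000000a01c028430)))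
def w20 : u20.all (wj 57 s20) = true := by decide +kernel
def o20 : OkW 57 (jb2 57 fl) u20 := .lift s20 _ (.br _ _ _ (.br _ _ _ (.br _ _ _ (.br _ _ _ (.leaf b0 k329 t329) (.leaf b0 k330 t330)) (.br _ _ _ (.leaf b0 k331 t331) (.leaf b0 k332 t332))) (.br _ _ _ (.br _ _ _ (.leaf b0 k333 t333) (.leaf b0 k334 t334)) (.br _ _ _ (.leaf b0 k335 t335) (.br _ _ _ (.leaf b0 k336 t336) (.leaf b0 k337 t337))))) (.br _ _ _ (.br _ _ _ (.br _ _ _ (.leaf b0 k338 t338) (.leaf b0 k339 t339)) (.br _ _ _ (.leaf b0 k340 t340) (.br _ _ _ (.leaf b0 k341 t341) (.leaf b0 k342 t342)))) (.br _ _ _ (.br _ _ _ (.leaf b0 k343 t343) (.leaf b0 k344 t344)) (.br _ _ _ (.leaf b0 k345 t345) (.br _ _ _ (.leaf b0 k346 t346) (.leaf b0 k347 t347)))))) w20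
noncomputable def k : KT := (.br (nat_lit 0x500c013000000a018026430) (.br (nat_lit 0x500b013000000a016027400) (.br (nat_lit 0x500a014000000a014028430) (.br (nat_lit 0x500a013000000a014027400) u0 u1) (.br (nat_lit 0x500a015000000a01402a430) u2 (.br (nat_lit 0x500a017000000a01402e430) u3 u4))) (.br (nat_lit 0x500b015000000a01602a430) (.br (nat_lit 0x500b014000000a016028430) u5 u6) (.br (nat_lit 0x500b017000000a01602e430) u7 (.br (nat_lit 0x500c012000000a018025400) u8 u9)))) (.br (nat_lit 0x500d013000000a01a026430) (.br (nat_lit 0x500c016000000a01802c430) (.br (nat_lit 0x500c014000000a018028430) u10 u11) (.br (nat_lit 0x500d011000000a01a023400) u12 (.br (nat_lit 0x500d012000000a01a024430) u13 u14))) (.br (nat_lit 0x500e010000000a01c020430) (.br (nat_lit 0x500d015000000a01a02a430) u15 (.br (nat_lit 0x500e00f000000a01c01f400) u16 u17)) (.br (nat_lit 0x500e011000000a01c022430) u18 (.br (nat_lit 0x500e012000000a01c024430) u19 u20)))))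
theorem ok : OkW 57 (jb2 57 fl) k := (.br _ _ _ (.br _ _ _ (.br _ _ _ (.br _ _ _ o0 o1) (.br _ _ _ o2 (.br _ _ _ o3 o4))) (.br _ _ _ (.br _ _ _ o5 o6) (.br _ _ _ o7 (.br _ _ _ o8 o9)))) (.br _ _ _ (.br _ _ _ (.br _ _ _ o10 o11) (.br _ _ _ o12 (.br _ _ _ o13 o14))) (.br _ _ _ (.br _ _ _ o15 (.br _ _ _ o16 o17)) (.br _ _ _ o18 (.br _ _ _ o19 o20)))))

end Pool.Agent.Lib.MP_ed43e6_ag.Q.Y57.R9
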