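import Pool.Agent.Lib.MP_ed43e6_ag.Y57.R0
import Pool.Agent.Lib.MP_ed43e6_ag.Y57.R1
import Pool.Agent.Lib.MP_ed43e6_ag.Y57.R2
import Pool.Agent.Lib.MP_ed43e6_ag.Y57.R3
import Pool.Agent.Lib.MP_ed43e6_ag.Y57.R4
import Pool.Agent.Lib.MP_ed43e6_ag.Y57.R5
import Pool.Agent.Lib.MP_ed43e6_ag.Y57.R6
import Pool.Agent.Lib.MP_ed43e6_ag.Y57.R7
import Pool.Agent.Lib.MP_ed43e6_ag.Y57.R8
import Pool.Agent.Lib.MP_ed43e6_ag.Y57.R9
import Pool.Agent.Lib.MP_ed43e6_ag.Y57.R10
import Pool.Agent.Lib.MP_ed43e6_ag.Y57.R11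
import Pool.Agent.Lib.MP_ed43e6_ag.Y57.R12
import Pool.Agent.Lib.MP_ed43e6_ag.Y57.R13
import Pool.Agent.Lib.MP_ed43e6_ag.Y57.R14
import Pool.Agent.Lib.MP_ed43e6_ag.Y57.R15
import Pool.Agent.Lib.MP_ed43e6_ag.Y57.R16
import Pool.Agent.Lib.MP_ed43e6_ag.Y57.R17
import Pool.Agent.Lib.MP_ed43e6_ag.Y57.R18
import Pool.Agent.Lib.MP_ed43e6_ag.Y57.R19
import Pool.Agent.Lib.MP_ed43e6_ag.Y57.R20
import Pool.Agent.Lib.MP_ed43e6_ag.Y57.R21
import Pool.Agent.Lib.MP_ed43e6_ag.Y57.R22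
import Pool.Agent.Lib.MP_ed43e6_ag.Y57.R23
import Pool.Agent.Lib.MP_ed43e6_ag.Y57.R24
import Pool.Agent.Lib.MP_ed43e6_ag.Y57.R25
import Pool.Agent.Lib.MP_ed43e6_ag.Y57.R26
import Pool.Agent.Lib.MP_ed43e6_ag.Y57.R27
import Pool.Agent.Lib.MP_ed43e6_ag.Y57.R28
import Pool.Agent.Lib.MP_ed43e6_ag.Y57.R29
import Pool.Agent.Lib.MP_ed43e6_ag.Y57.R30
import Pool.Agent.Lib.MP_ed43e6_ag.Y57.R31
import Pool.Agent.Lib.MP_ed43e6_ag.Y57.R32
import Pool.Agent.Lib.MP_ed43e6_ag.Y57.R33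
import Pool.Agent.Lib.MP_ed43e6_ag.Y57.R34
import Pool.Agent.Lib.MP_ed43e6_ag.Y57.R35
import Pool.Agent.Lib.MP_ed43e6_ag.Y57.R36
import Pool.Agent.Lib.MP_ed43e6_ag.Y57.R37
import Pool.Agent.Lib.MP_ed43e6_ag.Y57.R38
import Pool.Agent.Lib.MP_ed43e6_ag.Y57.R39
import Pool.Agent.Lib.MP_ed43e6_ag.Y57.R40
import Pool.Agent.Lib.MP_ed43e6_ag.Y57.R41
import Pool.Agent.Lib.MP_ed43e6_ag.Y57.R42
import Pool.Agent.Lib.MP_ed43e6_ag.Y57.R43
import Pool.Agent.Lib.MP_ed43e6_ag.Y57.R44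
import Pool.Agent.Lib.MP_ed43e6_ag.Y57.R45
import Pool.Agent.Lib.MP_ed43e6_ag.Y57.R46
import Pool.Agent.Lib.MP_ed43e6_ag.Y57.R47
import Pool.Agent.Lib.MP_ed43e6_ag.Y57.R48
import Pool.Agent.Lib.MP_ed43e6_ag.Y57.R49
import Pool.Agent.Lib.MP_ed43e6_ag.Y57.R50
import Pool.Agent.Lib.MP_ed43e6_ag.Y57.R51
import Pool.Agent.Lib.MP_ed43e6_ag.Y57.R52
import Pool.Agent.Lib.MP_ed43e6_ag.Y57.R53
import Pool.Agent.Lib.MP_ed43e6_ag.Y57.R54
import Pool.Agent.Lib.MP_ed43e6_ag.Y57.R55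
import Pool.Agent.Lib.MP_ed43e6_ag.Y57.R56
import Pool.Agent.Lib.MP_ed43e6_ag.Y57.R57
import Pool.Agent.Lib.MP_ed43e6_ag.Y57.R58
import Pool.Agent.Lib.MP_ed43e6_ag.Y57.R59
import Pool.Agent.Lib.MP_ed43e6_ag.Y57.R60
import Pool.Agent.Lib.MP_ed43e6_ag.Y57.R61
import Pool.Agent.Lib.MP_ed43e6_ag.Y57.R62
import Pool.Agent.Lib.MP_ed43e6_ag.Y57.R63
import Pool.Agent.Lib.MP_ed43e6_ag.Y57.R64
import Pool.Agent.Lib.MP_ed43e6_ag.Y57.R65
import Pool.Agent.Lib.MP_ed43e6_ag.Y57.R66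
import Pool.Agent.Lib.MP_ed43e6_ag.Y57.R67
import Pool.Agent.Lib.MP_ed43e6_ag.Y57.R68
import Pool.Agent.Lib.MP_ed43e6_ag.Y57.R69
import Pool.Agent.Lib.MP_ed43e6_ag.Y57.R70
import Pool.Agent.Lib.MP_ed43e6_ag.Y57.R71
import Pool.Agent.Lib.MP_ed43e6_ag.Y57.R72
import Pool.Agent.Lib.MP_ed43e6_ag.Y57.R73
import Pool.Agent.Lib.MP_ed43e6_ag.Y57.R74
import Pool.Agent.Lib.MP_ed43e6_ag.Y57.R75
import Pool.Agent.Lib.MP_ed43e6_ag.Y57.R76
import Pool.Agent.Lib.MP_ed43e6_ag.Y57.R77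
import Pool.Agent.Lib.MP_ed43e6_ag.Y57.R78
import Pool.Agent.Lib.MP_ed43e6_ag.Y57.R79
import Pool.Agent.Lib.MP_ed43e6_ag.Y57.R80
import Pool.Agent.Lib.MP_ed43e6_ag.Y57.R81
import Pool.Agent.Lib.MP_ed43e6_ag.Y57.R82
import Pool.Agent.Lib.MP_ed43e6_ag.Y57.R83
import Pool.Agent.Lib.MP_ed43e6_ag.Y57.R84
import Pool.Agent.Lib.MP_ed43e6_ag.Y57.R85
import Pool.Agent.Lib.MP_ed43e6_ag.Y57.R86
import Pool.Agent.Lib.MP_ed43e6_ag.Y57.R87
import Pool.Agent.Lib.MP_ed43e6_ag.Y57.R88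
import Pool.Agent.Lib.MP_ed43e6_ag.Y57.R89
import Pool.Agent.Lib.MP_ed43e6_ag.Y57.R90
import Pool.Agent.Lib.MP_ed43e6_ag.Y57.R91
import Pool.Agent.Lib.MP_ed43e6_ag.Y57.R92
import Pool.Agent.Lib.MP_ed43e6_ag.Y57.R93
import Pool.Agent.Lib.MP_ed43e6_ag.Y57.R94
import Pool.Agent.Lib.MP_ed43e6_ag.Y57.R95
import Pool.Agent.Lib.MP_ed43e6_ag.Y57.R96
import Pool.Agent.Lib.MP_ed43e6_ag.Y57.R97
import Pool.Agent.Lib.MP_ed43e6_ag.Y57.R98
import Pool.Agent.Lib.MP_ed43e6_ag.Y57.R99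
import Pool.Agent.Lib.MP_ed43e6_ag.Y57.R100
import Pool.Agent.Lib.MP_ed43e6_ag.Y57.R101
import Pool.Agent.Lib.MP_ed43e6_ag.Y57.R102
import Pool.Agent.Lib.MP_ed43e6_ag.Y57.R103
import Pool.Agent.Lib.MP_ed43e6_ag.Y57.R104
import Pool.Agent.Lib.MP_ed43e6_ag.Y57.R105
import Pool.Agent.Lib.MP_ed43e6_ag.Y57.R106
import Pool.Agent.Lib.MP_ed43e6_ag.Y57.R107
import Pool.Agent.Lib.MP_ed43e6_ag.Y57.R108
import Pool.Agent.Lib.MP_ed43e6_ag.Y57.R109
import Pool.Agent.Lib.MP_ed43e6_ag.Y57.R110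
import Pool.Agent.Lib.MP_ed43e6_ag.Y57.R111
import Pool.Agent.Lib.MP_ed43e6_ag.Y57.R112
import Pool.Agent.Lib.MP_ed43e6_ag.Y57.R113
import Pool.Agent.Lib.MP_ed43e6_ag.Y57.R114
import Pool.Agent.Lib.MP_ed43e6_ag.Y57.R115
import Pool.Agent.Lib.MP_ed43e6_ag.Y57.R116
import Pool.Agent.Lib.MP_ed43e6_ag.Y57.R117
import Pool.Agent.Lib.MP_ed43e6_ag.Y57.T0
import Pool.Agent.Lib.MP_ed43e6_ag.Y57.T1
import Pool.Agent.Lib.MP_ed43e6_ag.Y57.T2
import Pool.Agent.Lib.MP_ed43e6_ag.Y57.T3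
import Pool.Agent.Lib.MP_ed43e6_ag.Y57.T4
import Pool.Agent.Lib.MP_ed43e6_ag.Y57.T5
import Pool.Agent.Lib.MP_ed43e6_ag.Y57.T6
import Pool.Agent.Lib.MP_ed43e6_ag.Y57.T7
import Pool.Agent.Lib.MP_ed43e6_ag.Y57.T8

namespace Pool.Agent.Lib.MP_ed43e6_ag.Q.Y57

set_option linter.defProp false

noncomputable def k : KT := (.br (nat_lit 0x300400600700f600800c00e01e650) (.br (nat_lit 0x300900a00b0006012014016540) (.br (nat_lit 0x800c0110000010018023400) (.br (nat_lit 0x400b0100000008016020430) (.br (nat_lit 0x100180000000020030320) (.br (nat_lit 0x701a000000000e034320) R0.k (.br (nat_lit 0xb01c0000000016038320) R1.k R2.k)) (.br (nat_lit 0x4007008000000800e010430) (.br (nat_lit 0x30090100000006012020430) R3.k R4.k) (.br (nat_lit 0x40090100000008012020430) R5.k R6.k))) (.br (nat_lit 0x500e014000000a01c028430) (.br (nat_lit 0x400e011000000801c022430) R7.k (.br (nat_lit 0x5009018000000a012030430) R8.k R9.k)) (.br (nat_lit 0x7008015000000e01002a430)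 (.br (nat_lit 0x600b013000000c016027400) R10.k R11.k) (.br (nat_lit 0x700d014000000e01a028430) R12.k R13.k)))) (.br (nat_lit 0x200600a00c000400c014018540) (.br (nat_lit 0xb00e010000001601c020430) (.br (nat_lit 0x900b0130000012016026430) R14.k (.br (nat_lit 0xa00c0100000014018020430) R15.k R16.k)) (.br (nat_lit 0x2005007014000400a00e028540) (.br (nat_lit 0x100600c00f000200c01801e540) R17.k R18.k) (.br (nat_lit 0x200500c00f000400a01801e540) R19.k R20.k))) (.br (nat_lit 0x3005007010000600a00e020540) (.br (nat_lit 0x200800900c0004010012018540) (.br (nat_lit 0x200700900b000400e012016540) R21.k R22.k) (.br (nat_lit 0x200b00c00d000401601801a540) R23.k R24.k)) (.br (nat_lit 0x300600b012000600c016024540) (.br (nat_lit 0x300500c010000600a018020540) R25.k R26.k) (.br (nat_lit 0x300700b012000600e016024540) R27.k R28.k))))) (.br (nat_lit 0x100300700900d200600e01201a650) (.br (nat_lit 0x500700d00e000a00e01a01c540) (.br (nat_lit 0x4007008011000800e010022540)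 (.br (nat_lit 0x4005007013000800a00e026540) R29.k (.br (nat_lit 0x4006007012000800c00e024540) R30.k R31.k)) (.br (nat_lit 0x400900d00e000801201a01c540) (.br (nat_lit 0x40080090120008010012024540) R32.k R33.k) (.br (nat_lit 0x500600b012000a00c016024540) R34.k R35.k))) (.br (nat_lit 0x700800a010000e010014020540) (.br (nat_lit 0x600700b00e000c00e01601c540) (.br (nat_lit 0x500900b00d000a01201601a540) R36.k R37.k) (.br (nat_lit 0x600800d00f000c01001a01e540) R38.k R39.k)) (.br (nat_lit 0x100300500800c200600a010018650) (.br (nat_lit 0x800900a00b0010012014016540) R40.k R41.k) (.br (nat_lit 0x1003006008009200600c010012650) R42.k R43.k)))) (.br (nat_lit 0x200300500600a400600a00c014650) (.br (nat_lit 0x100400700800a200800e010014650) (.br (nat_lit 0x1004005008009200800a010012650) R44.k (.br (nat_lit 0x1004006007009200800c00e012650) R45.k R46.k)) (.br (nat_lit 0x100500700800a200a00e010014650) (.br (nat_lit 0x100500600700b200a00c00e016650)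 R47.k R48.k) (.br (nat_lit 0x100600700800d200c00e01001a650) R49.k R50.k))) (.br (nat_lit 0x200400700a00f400800e01401e650) (.br (nat_lit 0x200300800b00d400601001601a650) (.br (nat_lit 0x200300600b00c400600c016018650) R51.k R52.k) (.br (nat_lit 0x200400600700e400800c00e01d600) R53.k R54.k)) (.br (nat_lit 0x200500800a00b400a010014016650) (.br (nat_lit 0x200500600a00c400a00c014019600) R55.k R56.k) (.br (nat_lit 0x200600900a00c400c012014018650) R57.k R58.k)))))) (.br (nat_lit 0x600000200400500700b40080cb80e016611) (.br (nat_lit 0x1004005006007008800a00c02e410760) (.br (nat_lit 0x500600800900aa00c010012014650) (.br (nat_lit 0x300600700800b600c00e010017600) (.br (nat_lit 0x300400700a00f600800e01401e650) R59.k (.br (nat_lit 0x300500600a00f600a00c01401e650) R60.k R61.k)) (.br (nat_lit 0x400500700a00e800a00e01401c650) (.br (nat_lit 0x400500600700e800a00c00e01c650) R62.k R63.k) (.br (nat_lit 0x400600800900a800c010012014650) R64.k R65.k)))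 (.br (nat_lit 0x100200400600800d400800c03041a760) (.br (nat_lit 0x100200300500900d400600a03241a760) R66.k (.br (nat_lit 0x100200300700800d400600e03041a760) R67.k R68.k)) (.br (nat_lit 0x100300400500900c600800a032418760) (.br (nat_lit 0x100200500600900c400a00c032418760) R69.k R70.k) (.br (nat_lit 0x100300400800900c6008010032418760) R71.k R72.k)))) (.br (nat_lit 0x700000400600800b000800c0f1c16511) (.br (nat_lit 0x2003006007008009600c00e050812760) (.br (nat_lit 0x200300400500600b600800a04c816760) R73.k (.br (nat_lit 0x200300400700800c600800e050818760) R74.k R75.k)) (.br (nat_lit 0x400000300600900e000600c09301c511) (.br (nat_lit 0x200400600700900a800c00e052814760) R76.k R77.k) (.br (nat_lit 0x600000400800a00d00080100d581a511) R78.k R79.k))) (.br (nat_lit 0x100200300400600800b600802c450816870) (.br (nat_lit 0x800000500700900b000a00e114016511) (.br (nat_lit 0x800000300600a00b000600c116016511) R80.k R81.k) (.br (nat_lit 0x900000500900b00c000a012138418511)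 R82.k R83.k)) (.br (nat_lit 0x500000200400600900e40080ad41201c611) (.br (nat_lit 0x100300400500600700a800a02c46ec14870) R84.k R85.k) (.br (nat_lit 0x600000100400600a00c20080cd814018611) R86.k R87.k))))) (.br (nat_lit 0x500000100300400600700b60a940c02e416711) (.br (nat_lit 0x700000300400500700960080ebc0e012611) (.br (nat_lit 0x600000400500700900a800a0cf812014611) (.br (nat_lit 0x600000200500600700b400a0cd80e016611) R88.k (.br (nat_lit 0x600000300400600800e60080cd81001c611) R89.k R90.k)) (.br (nat_lit 0x700000200400500700c40080ebc0e018611) (.br (nat_lit 0x700000200300500900e40060ebc1201c611) R91.k R92.k) (.br (nat_lit 0x700000200400600a00d40080edc1401a611) R93.k R94.k))) (.br (nat_lit 0x800000200400600a00c400810e014018611) (.br (nat_lit 0x800000100300600900b200610e012016611) (.br (nat_lit 0x700000300400700a00c60080efc14018611) R95.k R96.k) (.br (nat_lit 0x800000200300600900c400610e012018611) R97.k R98.k)) (.br (nat_lit 0x900000200300500900d400612c41201a611)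 (.br (nat_lit 0x800000300400600900a600810e012014611) R99.k R100.k) (.br (nat_lit 0x100000100200400700800b402840e030416711) R101.k R102.k)))) (.br (nat_lit 0x700000100300400500700960e9c0a02e412711) (.br (nat_lit 0x600000100300400600700960c980c02e413701) (.br (nat_lit 0x500000200300500700800b60ab40e050816711) R103.k (.br (nat_lit 0x600000100200400600700840c980c02e410711) R104.k R105.k)) (.br (nat_lit 0x700000100200300500700840e7c0a02e410711) (.br (nat_lit 0x600000200300400500900b60c980a052816711) R106.k R107.k) (.br (nat_lit 0x700000100200400500900c40e9c0a032418711) R108.k R109.k))) (.br (nat_lit 0x800000200300400600900b610a00c052816711) (.br (nat_lit 0x700000200300500700800a60ebc0e050814711) (.br (nat_lit 0x700000100300500600900a60ebc0c032414711) R110.k R111.k) (.br (nat_lit 0x800000100200400600900c410a00c032418711) R112.k R113.k)) (.br (nat_lit 0x500600000200300400500700974c980a04f226721) (.br (nat_lit 0x400700000100300400600700970e9c0c02ec22721)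 R114.k R115.k) (.br (nat_lit 0x600700000100300400600700978e9c0c02f02a721) R116.k R117.k)))))))
theorem ok : OkW 57 (jb2 57 fl) k := (.br _ _ _ (.br _ _ _ (.br _ _ _ (.br _ _ _ (.br _ _ _ (.br _ _ _ R0.ok (.br _ _ _ R1.ok R2.ok)) (.br _ _ _ (.br _ _ _ R3.ok R4.ok) (.br _ _ _ R5.ok R6.ok))) (.br _ _ _ (.br _ _ _ R7.ok (.br _ _ _ R8.ok R9.ok)) (.br _ _ _ (.br _ _ _ R10.ok R11.ok) (.br _ _ _ R12.ok R13.ok)))) (.br _ _ _ (.br _ _ _ (.br _ _ _ R14.ok (.br _ _ _ R15.ok R16.ok)) (.br _ _ _ (.br _ _ _ R17.ok R18.ok) (.br _ _ _ R19.ok R20.ok))) (.br _ _ _ (.br _ _ _ (.br _ _ _ R21.ok R22.ok) (.br _ _ _ R23.ok R24.ok)) (.br _ _ _ (.br _ _ _ R25.ok R26.ok) (.br _ _ _ R27.ok R28.ok))))) (.br _ _ _ (.br _ _ _ (.br _ _ _ (.br _ _ _ R29.ok (.br _ _ _ R30.ok R31.ok)) (.br _ _ _ (.br _ _ _ R32.ok R33.ok) (.br _ _ _ R34.ok R35.ok))) (.br _ _ _ (.br _ _ _ (.br _ _ _ R36.ok R37.ok) (.br _ _ _ R38.ok R39.ok)) (.br _ _ _ (.br _ _ _ R40.ok R41.ok) (.br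 _ _ _ R42.ok R43.ok)))) (.br _ _ _ (.br _ _ _ (.br _ _ _ R44.ok (.br _ _ _ R45.ok R46.ok)) (.br _ _ _ (.br _ _ _ R47.ok R48.ok) (.br _ _ _ R49.ok R50.ok))) (.br _ _ _ (.br _ _ _ (.br _ _ _ R51.ok R52.ok) (.br _ _ _ R53.ok R54.ok)) (.br _ _ _ (.br _ _ _ R55.ok R56.ok) (.br _ _ _ R57.ok R58.ok)))))) (.br _ _ _ (.br _ _ _ (.br _ _ _ (.br _ _ _ (.br _ _ _ R59.ok (.br _ _ _ R60.ok R61.ok)) (.br _ _ _ (.br _ _ _ R62.ok R63.ok) (.br _ _ _ R64.ok R65.ok))) (.br _ _ _ (.br _ _ _ R66.ok (.br _ _ _ R67.ok R68.ok)) (.br _ _ _ (.br _ _ _ R69.ok R70.ok) (.br _ _ _ R71.ok R72.ok)))) (.br _ _ _ (.br _ _ _ (.br _ _ _ R73.ok (.br _ _ _ R74.ok R75.ok)) (.br _ _ _ (.br _ _ _ R76.ok R77.ok) (.br _ _ _ R78.ok R79.ok))) (.br _ _ _ (.br _ _ _ (.br _ _ _ R80.ok R81.ok) (.br _ _ _ R82.ok R83.ok)) (.br _ _ _ (.br _ _ _ R84.ok R85.ok) (.br _ _ _ R86.ok R87.ok))))) (.br _ _ _ (.br _ _ _ (.br _ _ _ (.br _ _ _ R88.ok (.br _ _ _ R89.ok R90.ok)) (.br _ _ _ (.br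 _ _ _ R91.ok R92.ok) (.br _ _ _ R93.ok R94.ok))) (.br _ _ _ (.br _ _ _ (.br _ _ _ R95.ok R96.ok) (.br _ _ _ R97.ok R98.ok)) (.br _ _ _ (.br _ _ _ R99.ok R100.ok) (.br _ _ _ R101.ok R102.ok)))) (.br _ _ _ (.br _ _ _ (.br _ _ _ R103.ok (.br _ _ _ R104.ok R105.ok)) (.br _ _ _ (.br _ _ _ R106.ok R107.ok) (.br _ _ _ R108.ok R109.ok))) (.br _ _ _ (.br _ _ _ (.br _ _ _ R110.ok R111.ok) (.br _ _ _ R112.ok R113.ok)) (.br _ _ _ (.br _ _ _ R114.ok R115.ok) (.br _ _ _ R116.ok R117.ok)))))))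
theorem ok3 : Ok (jc T.l3) fl := (.br _ _ _ (.br _ _ _ (.br _ _ _ T0.ok T1.ok) (.br _ _ _ T2.ok T3.ok)) (.br _ _ _ (.br _ _ _ T4.ok T5.ok) (.br _ _ _ T6.ok (.br _ _ _ T7.ok T8.ok))))
def w0 : wk 57 k 0 = true := by decide +kernel
def w1 : wk 57 k 1 = true := by decide +kernel
def w2 : wk 57 k 2 = true := by decide +kernel
def w3 : wk 57 k 3 = true := by decide +kernel
def w4 : wk 57 k 4 = true := by decide +kernel
def w5 : wk 57 k 5 = true := by decide +kernel
def w6 : wk 57 k 6 = true := by decide +kernel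
def w7 : wk 57 k 7 = true := by decide +kernel
def w8 : wk 57 k 8 = true := by decide +kernel
def w9 : wk 57 k 9 = true := by decide +kernel
def w10 : wk 57 k 10 = true := by decide +kernel
def w11 : wk 57 k 11 = true := by decide +kernel
def w12 : wk 57 k 12 = true := by decide +kernel
def w13 : wk 57 k 13 = true := by decide +kernel
def w14 : wk 57 k 14 = true := by decide +kernel
def w15 : wk 57 k 15 = true := by decide +kernel
def w16 : wk 57 k 16 = true := by decide +kernel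
def w17 : wk 57 k 17 = true := by decide +kernel
def w18 : wk 57 k 18 = true := by decide +kernel
def w19 : wk 57 k 19 = true := by decide +kernel
def w20 : wk 57 k 20 = true := by decide +kernel
def w21 : wk 57 k 21 = true := by decide +kernel
def w22 : wk 57 k 22 = true := by decide +kernel
def w23 : wk 57 k 23 = true := by decide +kernel
def w24 : wk 57 k 24 = true := by decide +kernel
def w25 : wk 57 k 25 = true := by decide +kernel
def w26 : wk 57 k 26 = true := by decide +kernel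
def w27 : wk 57 k 27 = true := by decide +kernel
def w28 : wk 57 k 28 = true := by decide +kernel
def w29 : wk 57 k 29 = true := by decide +kernel
def w30 : wk 57 k 30 = true := by decide +kernel
def w31 : wk 57 k 31 = true := by decide +kernel
def w32 : wk 57 k 32 = true := by decide +kernel
def w33 : wk 57 k 33 = true := by decide +kernel
def w34 : wk 57 k 34 = true := by decide +kernel
def w35 : wk 57 k 35 = true := by decide +kernel
def w36 : wk 57 k 36 = true := by decide +kernel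
def w37 : wk 57 k 37 = true := by decide +kernel
def w38 : wk 57 k 38 = true := by decide +kernel
def w39 : wk 57 k 39 = true := by decide +kernel
def w40 : wk 57 k 40 = true := by decide +kernel
def w41 : wk 57 k 41 = true := by decide +kernel
def w42 : wk 57 k 42 = true := by decide +kernel
def w43 : wk 57 k 43 = true := by decide +kernel
def w44 : wk 57 k 44 = true := by decide +kernel
def w45 : wk 57 k 45 = true := by decide +kernel
def w46 : wk 57 k 46 = true := by decide +kernel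
def w47 : wk 57 k 47 = true := by decide +kernel
def w48 : wk 57 k 48 = true := by decide +kernel
def w49 : wk 57 k 49 = true := by decide +kernel
def w50 : wk 57 k 50 = true := by decide +kernel
def w51 : wk 57 k 51 = true := by decide +kernel
def w52 : wk 57 k 52 = true := by decide +kernel
def w53 : wk 57 k 53 = true := by decide +kernel
def w54 : wk 57 k 54 = true := by decide +kernel
def w55 : wk 57 k 55 = true := by decide +kernel
def w56 : wk 57 k 56 = true := by decide +kernel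
theorem walk : Fo.walk 57 k = true := walk_of (allLt_step 56 w56 (allLt_step 55 w55 (allLt_step 54 w54 (allLt_step 53 w53 (allLt_step 52 w52 (allLt_step 51 w51 (allLt_step 50 w50 (allLt_step 49 w49 (allLt_step 48 w48 (allLt_step 47 w47 (allLt_step 46 w46 (allLt_step 45 w45 (allLt_step 44 w44 (allLt_step 43 w43 (allLt_step 42 w42 (allLt_step 41 w41 (allLt_step 40 w40 (allLt_step 39 w39 (allLt_step 38 w38 (allLt_step 37 w37 (allLt_step 36 w36 (allLt_step 35 w35 (allLt_step 34 w34 (allLt_step 33 w33 (allLt_step 32 w32 (allLt_step 31 w31 (allLt_step 30 w30 (allLt_step 29 w29 (allLt_step 28 w28 (allLt_step 27 w27 (allLt_step 26 w26 (allLt_step 25 w25 (allLt_step 24 w24 (allLt_step 23 w23 (allLt_step 22 w22 (allLt_step 21 w21 (allLt_step 20 w20 (allLt_step 19 w19 (allLt_step 18 w18 (allLt_step 17 w17 (allLt_step 16 w16 (allLt_step 15 w15 (allLt_step 14 w14 (allLt_step 13 w13 (allLt_step 12 w12 (allLt_step 11 w11 (allLt_step 10 w10 (allLt_step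 9 w9 (allLt_step 8 w8 (allLt_step 7 w7 (allLt_step 6 w6 (allLt_step 5 w5 (allLt_step 4 w4 (allLt_step 3 w3 (allLt_step 2 w2 (allLt_step 1 w1 (allLt_step 0 w0 (allLt_nil _))))))))))))))))))))))))))))))))))))))))))))))))))))))))))

end Pool.Agent.Lib.MP_ed43e6_ag.Q.Y57
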