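import Pool.Agent.Lib.MP_ed43e6_ag.Y57.Fl

namespace Pool.Agent.Lib.MP_ed43e6_ag.Q.Y57.R0

set_option linter.defProp false

noncomputable def b0 : BT := .node (nat_lit 1) (nat_lit 0) .leaf .leaf
noncomputable def k0 : KT := (.br (Nat.shiftLeft (nat_lit 0x1) (nat_lit 77)) (.br (Nat.shiftLeft (nat_lit 0x5) (nat_lit 64)) (.br (Nat.shiftLeft (nat_lit 0x3) (nat_lit 64)) (.br (Nat.shiftLeft (nat_lit 0x1) (nat_lit 65)) (.one (nat_lit 0x10000000000002210)) (.one (nat_lit 0x20000000000004210))) (.br (Nat.shiftLeft (nat_lit 0x1) (nat_lit 66)) (.one (nat_lit 0x30000000000006210)) (.one (nat_lit 0x40000000000008210)))) (.br (Nat.shiftLeft (nat_lit 0x21) (nat_lit 64)) (.br (Nat.shiftLeft (nat_lit 0x1) (nat_lit 69)) (.one (nat_lit 0x5000000000000a210)) (.one (nat_lit 0x200000000000041200))) (.br (Nat.shiftLeft (nat_lit 0x1) (nat_lit 76)) (.one (nat_lit 0x210000000000043200)) (.one (nat_lit 0x1006000000000200c320))))) (.br (Nat.shiftLeft (nat_lit 0x1) (nat_lit 89)) (.br (Nat.shiftLeft (nat_lit 0x1) (nat_lit 78)) (.br (Nat.shiftLeft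 (nat_lit 0x3) (nat_lit 76)) (.one (nat_lit 0x2006000000000400c320)) (.one (nat_lit 0x3006000000000600c320))) (.br (Nat.shiftLeft (nat_lit 0x1) (nat_lit 88)) (.one (nat_lit 0x4006000000000800c320)) (.one (nat_lit 0x1005006000000200a00c430)))) (.br (Nat.shiftLeft (nat_lit 0x1) (nat_lit 100)) (.br (Nat.shiftLeft (nat_lit 0x3) (nat_lit 88)) (.one (nat_lit 0x2005006000000400a00c430)) (.one (nat_lit 0x3005006000000600a00c430))) (.br (Nat.shiftLeft (nat_lit 0x401) (nat_lit 90)) (.one (nat_lit 0x1000005006000200000a00c311)) (.br (Nat.shiftLeft (nat_lit 0x1) (nat_lit 101)) (.one (nat_lit 0x1004005006000200800a00c540)) (.one (nat_lit 0x2000005006000400000a00c311)))))))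
def t0 : k0.all (jb2 57 fl b0) = true := by decide +kernel
noncomputable def k1 : KT := (.br (Nat.shiftLeft (nat_lit 0x801) (nat_lit 101)) (.br (Nat.shiftLeft (nat_lit 0x1) (nat_lit 102)) (.br (Nat.shiftLeft (nat_lit 0x3) (nat_lit 100)) (.one (nat_lit 0x2004005006000400800a00c540)) (.one (nat_lit 0x3000005006000600000a00c311))) (.br (Nat.shiftLeft (nat_lit 0x5) (nat_lit 100)) (.one (nat_lit 0x4000005006000800000a00c311)) (.br (Nat.shiftLeft (nat_lit 0x1) (nat_lit 112)) (.one (nat_lit 0x5000005006000a00000a00c311)) (.one (nat_lit 0x1000004005006200000800a00c411))))) (.br (Nat.shiftLeft (nat_lit 0x1) (nat_lit 114)) (.br (Nat.shiftLeft (nat_lit 0x1) (nat_lit 113)) (.one (nat_lit 0x1003004005006200600800a00c650)) (.br (Nat.shiftLeft (nat_lit 0x3) (nat_lit 112)) (.one (nat_lit 0x2000004005006400000800a00c411)) (.one (nat_lit 0x3000004005006600000800a00c411)))) (.br (Nat.shiftLeft (nat_lit 0x5) (nat_lit 112)) (.one (nat_lit 0x4000004005006800000800a00c411)) (.br (Nat.shiftLeft (nat_lit 0x1) (nat_lit 124)) (.one (nat_lit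 0x5000004005006a00000800a00c411)) (.one (nat_lit 0x1000003004005006000600802a40c511))))))
def t1 : k1.all (jb2 57 fl b0) = true := by decide +kernel
noncomputable def k2 : KT := (.br (Nat.shiftLeft (nat_lit 0x3) (nat_lit 124)) (.br (Nat.shiftLeft (nat_lit 0x1) (nat_lit 125)) (.one (nat_lit 0x1002003004005006400600802a40c760)) (.one (nat_lit 0x2000003004005006000600804a80c511))) (.br (Nat.shiftLeft (nat_lit 0x1) (nat_lit 126)) (.one (nat_lit 0x3000003004005006000600806ac0c511)) (.one (nat_lit 0x4000003004005006000600808b00c511))))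
noncomputable def b3 : BT := .node (nat_lit 0xb) (nat_lit 0x3784a28992918a58ca27231272a58c033299004ac60032b18002ac600032990068c643db2289a6492c44b649a00065320055ab80165b000994c85b64963272800653200156c83bc29c1289c8c4ae4963918a7049c80099ab00156300059ca80246320015cb00055b21ef0a58ca852312a1a58c003299000ad5c0033170008c64291895c93252312d0a4d00033560008d600034130008b682de12a1a58c003356000ab6410060e0060e004f80043d003dd002c7002c7002c70020c0020c00150000f0) .leaf .leaf
def t2 : k2.all (jb2 57 fl b3) = true := by decide +kernel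
noncomputable def k3 : KT := (.br (Nat.shiftLeft (nat_lit 0x3) (nat_lit 136)) (.br (Nat.shiftLeft (nat_lit 0x1) (nat_lit 136)) (.one (nat_lit 0x500000300400500600060080ab40c511)) (.br (Nat.shiftLeft (nat_lit 0x1) (nat_lit 137)) (.one (nat_lit 0x1000002003004005006400602840a00c611)) (.one (nat_lit 0x2000002003004005006400604880a00c611)))) (.br (Nat.shiftLeft (nat_lit 0x1) (nat_lit 138)) (.one (nat_lit 0x30000020030040050064006068c0a00c611)) (.br (Nat.shiftLeft (nat_lit 0x5) (nat_lit 136)) (.one (nat_lit 0x4000002003004005006400608900a00c611)) (.one (nat_lit 0x500000200300400500640060a940a00c611)))))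
noncomputable def b4 : BT := .node (nat_lit 0xb) (nat_lit 0x48c4a86963000cc5c002319064624b64b1b6c89ca934006ca6401a319004cc5c002ad90a4625144e0b78496c934000ca6400a397004ca6400aa9a0b784a28934000cd58002a9a07784a289346f092d9324db2272950801b317004aa6801b21b004ac60003299004ad5c30043f0043f003de0032200322003220026600266002660020600206000f0) .leaf .leaf
def t3 : k3.all (jb2 57 fl b4) = true := by decide +kernel
noncomputable def s0 : KT := (.br (nat_lit 0x1000003004005006000600802a40c511) (.br (nat_lit 0x2000005006000400000a00c311) k0 k1) (.br (nat_lit 0x4000003004005006000600808b00c511) k2 k3))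
noncomputable def u0 : KT := (.br (Nat.shiftLeft (nat_lit 0x5) (nat_lit 64)) (.br (Nat.shiftLeft (nat_lit 0x3) (nat_lit 64)) (.br (Nat.shiftLeft (nat_lit 0x1) (nat_lit 65)) (.one (nat_lit 0x10000000000002210)) (.one (nat_lit 0x20000000000004210))) (.br (Nat.shiftLeft (nat_lit 0x1) (nat_lit 66)) (.one (nat_lit 0x30000000000006210)) (.one (nat_lit 0x40000000000008210)))) (.br (Nat.shiftLeft (nat_lit 0x1) (nat_lit 69)) (.br (Nat.shiftLeft (nat_lit 0x3) (nat_lit 65)) (.one (nat_lit 0x5000000000000a210)) (.one (nat_lit 0x6000000000000c210))) (.br (Nat.shiftLeft (nat_lit 0x21) (nat_lit 64)) (.one (nat_lit 0x200000000000041200)) (.one (nat_lit 0x210000000000043200)))))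
def w0 : u0.all (wj 57 s0) = true := by decide +kernel
def o0 : OkW 57 (jb2 57 fl) u0 := .lift s0 _ (.br _ _ _ (.br _ _ _ (.leaf b0 k0 t0) (.leaf b0 k1 t1)) (.br _ _ _ (.leaf b3 k2 t2) (.leaf b4 k3 t3))) w0
noncomputable def k4 : KT := (.br (Nat.shiftLeft (nat_lit 0x3) (nat_lit 77)) (.br (Nat.shiftLeft (nat_lit 0x3) (nat_lit 76)) (.br (Nat.shiftLeft (nat_lit 0x1) (nat_lit 76)) (.one (nat_lit 0x220000000000045200)) (.br (Nat.shiftLeft (nat_lit 0x1) (nat_lit 77)) (.one (nat_lit 0x10220000000002044320)) (.one (nat_lit 0x20220000000004044320)))) (.br (Nat.shiftLeft (nat_lit 0x1) (nat_lit 78)) (.one (nat_lit 0x30220000000006044320)) (.br (Nat.shiftLeft (nat_lit 0x5) (nat_lit 76)) (.one (nat_lit 0x40220000000008044320)) (.one (nat_lit 0x5022000000000a045300))))) (.br (Nat.shiftLeft (nat_lit 0x9) (nat_lit 76)) (.br (Nat.shiftLeft (nat_lit 0x7) (nat_lit 76)) (.one (nat_lit 0x6022000000000c045300)) (.br (Nat.shiftLeft (nat_lit 0x1) (nat_lit 79)) (.one (nat_lit 0x7022000000000e045300)) (.one (nat_lit 0x80220000000010045300))))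 (.br (Nat.shiftLeft (nat_lit 0x5) (nat_lit 77)) (.one (nat_lit 0x90220000000012045300)) (.br (Nat.shiftLeft (nat_lit 0xb) (nat_lit 76)) (.one (nat_lit 0xa0220000000014045300)) (.one (nat_lit 0xb0220000000016045300))))))
def t4 : k4.all (jb2 57 fl b0) = true := by decide +kernel
noncomputable def k5 : KT := (.one (nat_lit 0xc0220000000018044320))
def t5 : k5.all (jb2 57 fl b0) = true := by decide +kernel
noncomputable def k6 : KT := (.br (Nat.shiftLeft (nat_lit 0x7) (nat_lit 77)) (.one (nat_lit 0xd022000000001a044320)) (.one (nat_lit 0xe022000000001c044320)))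
def t6 : k6.all (jb2 57 fl b0) = true := by decide +kernel
noncomputable def k7 : KT := (.br (Nat.shiftLeft (nat_lit 0x17) (nat_lit 76)) (.br (Nat.shiftLeft (nat_lit 0x13) (nat_lit 76)) (.br (Nat.shiftLeft (nat_lit 0x11) (nat_lit 76)) (.br (Nat.shiftLeft (nat_lit 0x1) (nat_lit 80)) (.one (nat_lit 0xf022000000001e044320)) (.one (nat_lit 0x100220000000020044320))) (.br (Nat.shiftLeft (nat_lit 0x9) (nat_lit 77)) (.one (nat_lit 0x110220000000022044320)) (.one (nat_lit 0x120220000000024044320)))) (.br (Nat.shiftLeft (nat_lit 0x15) (nat_lit 76)) (.br (Nat.shiftLeft (nat_lit 0x5) (nat_lit 78)) (.one (nat_lit 0x130220000000026044320)) (.one (nat_lit 0x140220000000028044320))) (.br (Nat.shiftLeft (nat_lit 0xb) (nat_lit 77)) (.one (nat_lit 0x15022000000002a044320)) (.one (nat_lit 0x16022000000002c044320))))) (.br (Nat.shiftLeft (nat_lit 0x201) (nat_lit 79)) (.br (Nat.shiftLeft (nat_lit 0x803) (nat_lit 77)) (.br (Nat.shiftLeft (nat_lit 0x1) (nat_lit 88)) (.one (nat_lit 0x17022000000002e044320)) (.one (nat_lit 0x1005022000000200a044430)))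 (.br (Nat.shiftLeft (nat_lit 0x1007) (nat_lit 76)) (.one (nat_lit 0x1006022000000200c044430)) (.one (nat_lit 0x1007022000000200e044430)))) (.br (Nat.shiftLeft (nat_lit 0x805) (nat_lit 77)) (.br (Nat.shiftLeft (nat_lit 0x1009) (nat_lit 76)) (.one (nat_lit 0x10080220000002010044430)) (.one (nat_lit 0x10090220000002012044430))) (.br (Nat.shiftLeft (nat_lit 0x100b) (nat_lit 76)) (.one (nat_lit 0x100a0220000002014044430)) (.one (nat_lit 0x100b0220000002016044430))))))
def t7 : k7.all (jb2 57 fl b0) = true := by decide +kernel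
noncomputable def k8 : KT := (.br (Nat.shiftLeft (nat_lit 0x2007) (nat_lit 76)) (.br (Nat.shiftLeft (nat_lit 0x1003) (nat_lit 77)) (.one (nat_lit 0x2005022000000400a044430)) (.one (nat_lit 0x2006022000000400c044430))) (.br (Nat.shiftLeft (nat_lit 0x401) (nat_lit 79)) (.one (nat_lit 0x2007022000000400e044430)) (.br (Nat.shiftLeft (nat_lit 0x2009) (nat_lit 76)) (.one (nat_lit 0x20080220000004010044430)) (.one (nat_lit 0x20090220000004012044430)))))
def t8 : k8.all (jb2 57 fl b0) = true := by decide +kernel
noncomputable def k9 : KT := (.br (Nat.shiftLeft (nat_lit 0x200b) (nat_lit 76)) (.one (nat_lit 0x200a0220000004014044430)) (.br (Nat.shiftLeft (nat_lit 0x3) (nat_lit 88)) (.one (nat_lit 0x200b0220000004016044430)) (.one (nat_lit 0x3005022000000600a044430))))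
def t9 : k9.all (jb2 57 fl b0) = true := by decide +kernel
noncomputable def k10 : KT := (.one (nat_lit 0x3006022000000600c044430))
def t10 : k10.all (jb2 57 fl b0) = true := by decide +kernel
noncomputable def k11 : KT := (.one (nat_lit 0x3007022000000600e044430))
def t11 : k11.all (jb2 57 fl b0) = true := by decide +kernel
noncomputable def k12 : KT := (.br (Nat.shiftLeft (nat_lit 0x3009) (nat_lit 76)) (.one (nat_lit 0x30080220000006010044430)) (.one (nat_lit 0x30090220000006012044430)))
def t12 : k12.all (jb2 57 fl b0) = true := by decide +kernel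
noncomputable def k13 : KT := (.br (Nat.shiftLeft (nat_lit 0x300b) (nat_lit 76)) (.one (nat_lit 0x300a0220000006014044430)) (.one (nat_lit 0x300b0220000006016044430)))
def t13 : k13.all (jb2 57 fl b0) = true := by decide +kernel
noncomputable def k14 : KT := (.one (nat_lit 0x4005022000000800a044430))
def t14 : k14.all (jb2 57 fl b0) = true := by decide +kernel
noncomputable def k15 : KT := (.one (nat_lit 0x4006022000000800c044430))
def t15 : k15.all (jb2 57 fl b0) = true := by decide +kernel
noncomputable def k16 : KT := (.one (nat_lit 0x4007022000000800e044430))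
def t16 : k16.all (jb2 57 fl b0) = true := by decide +kernel
noncomputable def k17 : KT := (.one (nat_lit 0x40080220000008010044430))
def t17 : k17.all (jb2 57 fl b0) = true := by decide +kernel
noncomputable def k18 : KT := (.br (Nat.shiftLeft (nat_lit 0x2005) (nat_lit 77)) (.one (nat_lit 0x40090220000008012044430)) (.one (nat_lit 0x400a0220000008014044430)))
def t18 : k18.all (jb2 57 fl b0) = true := by decide +kernel
noncomputable def k19 : KT := (.one (nat_lit 0x400b0220000008016044430))
def t19 : k19.all (jb2 57 fl b0) = true := by decide +kernel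
noncomputable def k20 : KT := (.one (nat_lit 0x5006022000000a00c044430))
def t20 : k20.all (jb2 57 fl b0) = true := by decide +kernel
noncomputable def k21 : KT := (.one (nat_lit 0x5007022000000a00e044430))
def t21 : k21.all (jb2 57 fl b0) = true := by decide +kernel
noncomputable def k22 : KT := (.br (Nat.shiftLeft (nat_lit 0x5009) (nat_lit 76)) (.one (nat_lit 0x5008022000000a010044430)) (.one (nat_lit 0x5009022000000a012044430)))
def t22 : k22.all (jb2 57 fl b0) = true := by decide +kernel
noncomputable def k23 : KT := (.br (Nat.shiftLeft (nat_lit 0x500b) (nat_lit 76)) (.one (nat_lit 0x500a022000000a014044430)) (.one (nat_lit 0x500b022000000a016044430)))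
def t23 : k23.all (jb2 57 fl b0) = true := by decide +kernel
noncomputable def k24 : KT := (.one (nat_lit 0x6007022000000c00e044430))
def t24 : k24.all (jb2 57 fl b0) = true := by decide +kernel
noncomputable def k25 : KT := (.br (Nat.shiftLeft (nat_lit 0x6009) (nat_lit 76)) (.one (nat_lit 0x6008022000000c010044430)) (.br (Nat.shiftLeft (nat_lit 0x3005) (nat_lit 77)) (.one (nat_lit 0x6009022000000c012044430)) (.one (nat_lit 0x600a022000000c014044430))))
def t25 : k25.all (jb2 57 fl b0) = true := by decide +kernel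
noncomputable def k26 : KT := (.br (Nat.shiftLeft (nat_lit 0x3805) (nat_lit 77)) (.br (Nat.shiftLeft (nat_lit 0x7) (nat_lit 88)) (.one (nat_lit 0x600b022000000c016044430)) (.br (Nat.shiftLeft (nat_lit 0x7009) (nat_lit 76)) (.one (nat_lit 0x7008022000000e010044430)) (.one (nat_lit 0x7009022000000e012044430)))) (.br (Nat.shiftLeft (nat_lit 0x700b) (nat_lit 76)) (.one (nat_lit 0x700a022000000e014044430)) (.br (Nat.shiftLeft (nat_lit 0x1) (nat_lit 91)) (.one (nat_lit 0x700b022000000e016044430)) (.one (nat_lit 0x80090220000010012044430)))))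
def t26 : k26.all (jb2 57 fl b0) = true := by decide +kernel
noncomputable def k27 : KT := (.br (Nat.shiftLeft (nat_lit 0x1800003) (nat_lit 77)) (.br (Nat.shiftLeft (nat_lit 0x800005) (nat_lit 77)) (.br (Nat.shiftLeft (nat_lit 0x1) (nat_lit 100)) (.br (Nat.shiftLeft (nat_lit 0x9) (nat_lit 88)) (.br (Nat.shiftLeft (nat_lit 0x800b) (nat_lit 76)) (.one (nat_lit 0x800a0220000010014044430)) (.one (nat_lit 0x800b0220000010016044430))) (.br (Nat.shiftLeft (nat_lit 0x900b) (nat_lit 76)) (.one (nat_lit 0x900a0220000012014044430)) (.br (Nat.shiftLeft (nat_lit 0x5) (nat_lit 89)) (.one (nat_lit 0x900b0220000012016044430)) (.one (nat_lit 0xa00b0220000014016044430))))) (.br (Nat.shiftLeft (nat_lit 0x1000007) (nat_lit 76)) (.br (Nat.shiftLeft (nat_lit 0x800003) (nat_lit 77)) (.one (nat_lit 0x1000005022000200000a044311)) (.one (nat_lit 0x1000006022000200000c044311))) (.br (Nat.shiftLeft (nat_lit 0x200001) (nat_lit 79)) (.one (nat_lit 0x1000007022000200000e044311)) (.br (Nat.shiftLeft (nat_lit 0x1000009) (nat_lit 76)) (.one (nat_lit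 0x10000080220002000010044311)) (.one (nat_lit 0x10000090220002000012044311)))))) (.br (Nat.shiftLeft (nat_lit 0x400001) (nat_lit 79)) (.br (Nat.shiftLeft (nat_lit 0x1) (nat_lit 101)) (.br (Nat.shiftLeft (nat_lit 0x100000b) (nat_lit 76)) (.one (nat_lit 0x100000a0220002000014044311)) (.one (nat_lit 0x100000b0220002000016044311))) (.br (Nat.shiftLeft (nat_lit 0x1000003) (nat_lit 77)) (.one (nat_lit 0x2000005022000400000a044311)) (.br (Nat.shiftLeft (nat_lit 0x2000007) (nat_lit 76)) (.one (nat_lit 0x2000006022000400000c044311)) (.one (nat_lit 0x2000007022000400000e044311))))) (.br (Nat.shiftLeft (nat_lit 0x1000005) (nat_lit 77)) (.br (Nat.shiftLeft (nat_lit 0x2000009) (nat_lit 76)) (.one (nat_lit 0x20000080220004000010044311)) (.one (nat_lit 0x20000090220004000012044311))) (.br (Nat.shiftLeft (nat_lit 0x200000b) (nat_lit 76)) (.one (nat_lit 0x200000a0220004000014044311)) (.br (Nat.shiftLeft (nat_lit 0x3) (nat_lit 100)) (.one (nat_lit 0x200000b0220004000016044311)) (.one (nat_lit 0x3000005022000600000a044311)))))))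 (.br (Nat.shiftLeft (nat_lit 0x4000009) (nat_lit 76)) (.br (Nat.shiftLeft (nat_lit 0x300000b) (nat_lit 76)) (.br (Nat.shiftLeft (nat_lit 0x600001) (nat_lit 79)) (.br (Nat.shiftLeft (nat_lit 0x3000007) (nat_lit 76)) (.one (nat_lit 0x3000006022000600000c044311)) (.one (nat_lit 0x3000007022000600000e044311))) (.br (Nat.shiftLeft (nat_lit 0x3000009) (nat_lit 76)) (.one (nat_lit 0x30000080220006000010044311)) (.br (Nat.shiftLeft (nat_lit 0x1800005) (nat_lit 77)) (.one (nat_lit 0x30000090220006000012044311)) (.one (nat_lit 0x300000a0220006000014044311))))) (.br (Nat.shiftLeft (nat_lit 0x2000003) (nat_lit 77)) (.br (Nat.shiftLeft (nat_lit 0x1) (nat_lit 102)) (.one (nat_lit 0x300000b0220006000016044311)) (.one (nat_lit 0x4000005022000800000a044311))) (.br (Nat.shiftLeft (nat_lit 0x4000007) (nat_lit 76)) (.one (nat_lit 0x4000006022000800000c044311)) (.br (Nat.shiftLeft (nat_lit 0x800001) (nat_lit 79)) (.one (nat_lit 0x4000007022000800000e044311)) (.one (nat_lit 0x40000080220008000010044311)))))) (.br (Nat.shiftLeft (nat_lit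 0x5000007) (nat_lit 76)) (.br (Nat.shiftLeft (nat_lit 0x400000b) (nat_lit 76)) (.br (Nat.shiftLeft (nat_lit 0x2000005) (nat_lit 77)) (.one (nat_lit 0x40000090220008000012044311)) (.one (nat_lit 0x400000a0220008000014044311))) (.br (Nat.shiftLeft (nat_lit 0x5) (nat_lit 100)) (.one (nat_lit 0x400000b0220008000016044311)) (.br (Nat.shiftLeft (nat_lit 0x2800003) (nat_lit 77)) (.one (nat_lit 0x5000005022000a00000a044311)) (.one (nat_lit 0x5000006022000a00000c044311))))) (.br (Nat.shiftLeft (nat_lit 0x5000009) (nat_lit 76)) (.br (Nat.shiftLeft (nat_lit 0xa00001) (nat_lit 79)) (.one (nat_lit 0x5000007022000a00000e044311)) (.one (nat_lit 0x5000008022000a000010044311))) (.br (Nat.shiftLeft (nat_lit 0x2800005) (nat_lit 77)) (.one (nat_lit 0x5000009022000a000012044311)) (.br (Nat.shiftLeft (nat_lit 0x500000b) (nat_lit 76)) (.one (nat_lit 0x500000a022000a000014044311)) (.one (nat_lit 0x500000b022000a000016044311))))))))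
def t27 : k27.all (jb2 57 fl b0) = true := by decide +kernel
noncomputable def k28 : KT := (.br (Nat.shiftLeft (nat_lit 0x700000b) (nat_lit 76)) (.br (Nat.shiftLeft (nat_lit 0x600000b) (nat_lit 76)) (.br (Nat.shiftLeft (nat_lit 0xc00001) (nat_lit 79)) (.br (Nat.shiftLeft (nat_lit 0x6000007) (nat_lit 76)) (.one (nat_lit 0x6000006022000c00000c044311)) (.one (nat_lit 0x6000007022000c00000e044311))) (.br (Nat.shiftLeft (nat_lit 0x6000009) (nat_lit 76)) (.one (nat_lit 0x6000008022000c000010044311)) (.br (Nat.shiftLeft (nat_lit 0x3000005) (nat_lit 77)) (.one (nat_lit 0x6000009022000c000012044311)) (.one (nat_lit 0x600000a022000c000014044311))))) (.br (Nat.shiftLeft (nat_lit 0xe00001) (nat_lit 79)) (.br (Nat.shiftLeft (nat_lit 0x7) (nat_lit 100)) (.one (nat_lit 0x600000b022000c000016044311)) (.one (nat_lit 0x7000007022000e00000e044311))) (.br (Nat.shiftLeft (nat_lit 0x7000009) (nat_lit 76)) (.one (nat_lit 0x7000008022000e000010044311)) (.br (Nat.shiftLeft (nat_lit 0x3800005) (nat_lit 77)) (.one (nat_lit 0x7000009022000e000012044311))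 (.one (nat_lit 0x700000a022000e000014044311)))))) (.br (Nat.shiftLeft (nat_lit 0x9) (nat_lit 100)) (.br (Nat.shiftLeft (nat_lit 0x8000009) (nat_lit 76)) (.br (Nat.shiftLeft (nat_lit 0x1) (nat_lit 103)) (.one (nat_lit 0x700000b022000e000016044311)) (.one (nat_lit 0x80000080220010000010044311))) (.br (Nat.shiftLeft (nat_lit 0x4000005) (nat_lit 77)) (.one (nat_lit 0x80000090220010000012044311)) (.br (Nat.shiftLeft (nat_lit 0x800000b) (nat_lit 76)) (.one (nat_lit 0x800000a0220010000014044311)) (.one (nat_lit 0x800000b0220010000016044311))))) (.br (Nat.shiftLeft (nat_lit 0x5) (nat_lit 101)) (.br (Nat.shiftLeft (nat_lit 0x4800005) (nat_lit 77)) (.one (nat_lit 0x90000090220012000012044311)) (.br (Nat.shiftLeft (nat_lit 0x900000b) (nat_lit 76)) (.one (nat_lit 0x900000a0220012000014044311)) (.one (nat_lit 0x900000b0220012000016044311)))) (.br (Nat.shiftLeft (nat_lit 0xa00000b) (nat_lit 76)) (.one (nat_lit 0xa00000a0220014000014044311)) (.br (Nat.shiftLeft (nat_lit 0xb) (nat_lit 100)) (.one (nat_lit 0xa00000b0220014000016044311))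 (.one (nat_lit 0xb00000b0220016000016044311)))))))
def t28 : k28.all (jb2 57 fl b0) = true := by decide +kernel
noncomputable def s1 : KT := (.br (nat_lit 0x4006022000000800c044430) (.br (nat_lit 0x3005022000000600a044430) (.br (nat_lit 0xe022000000001c044320) (.br (nat_lit 0xb0220000000016045300) k4 (.br (nat_lit 0xc0220000000018044320) k5 k6)) (.br (nat_lit 0x100b0220000002016044430) k7 (.br (nat_lit 0x20090220000004012044430) k8 k9))) (.br (nat_lit 0x30090220000006012044430) (.br (nat_lit 0x3006022000000600c044430) k10 (.br (nat_lit 0x3007022000000600e044430) k11 k12)) (.br (nat_lit 0x300b0220000006016044430) k13 (.br (nat_lit 0x4005022000000800a044430) k14 k15)))) (.br (nat_lit 0x5007022000000a00e044430) (.br (nat_lit 0x400a0220000008014044430) (.br (nat_lit 0x4007022000000800e044430) k16 (.br (nat_lit 0x40080220000008010044430) k17 k18)) (.br (nat_lit 0x400b0220000008016044430) k19 (.br (nat_lit 0x5006022000000a00c044430) k20 k21))) (.br (nat_lit 0x6007022000000c00e044430) (.br (nat_lit 0x5009022000000a012044430)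 k22 (.br (nat_lit 0x500b022000000a016044430) k23 k24)) (.br (nat_lit 0x80090220000010012044430) (.br (nat_lit 0x600a022000000c014044430) k25 k26) (.br (nat_lit 0x500000b022000a000016044311) k27 k28)))))
noncomputable def u1 : KT := (.one (nat_lit 0x220000000000044210))
def w1 : u1.all (wj 57 s1) = true := by decide +kernel
def o1 : OkW 57 (jb2 57 fl) u1 := .lift s1 _ (.br _ _ _ (.br _ _ _ (.br _ _ _ (.br _ _ _ (.leaf b0 k4 t4) (.br _ _ _ (.leaf b0 k5 t5) (.leaf b0 k6 t6))) (.br _ _ _ (.leaf b0 k7 t7) (.br _ _ _ (.leaf b0 k8 t8) (.leaf b0 k9 t9)))) (.br _ _ _ (.br _ _ _ (.leaf b0 k10 t10) (.br _ _ _ (.leaf b0 k11 t11) (.leaf b0 k12 t12))) (.br _ _ _ (.leaf b0 k13 t13) (.br _ _ _ (.leaf b0 k14 t14) (.leaf b0 k15 t15))))) (.br _ _ _ (.br _ _ _ (.br _ _ _ (.leaf b0 k16 t16) (.br _ _ _ (.leaf b0 k17 t17) (.leaf b0 k18 t18))) (.br _ _ _ (.leaf b0 k19 t19) (.br _ _ _ (.leaf b0 k20 t20) (.leaf b0 k21 t21)))) (.br _ _ _ (.br _ _ _ (.leaf b0 k22 t22) (.br _ _ _ (.leaf b0 k23 t23) (.leaf b0 k24 t24))) (.br _ _ _ (.br _ _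 _ (.leaf b0 k25 t25) (.leaf b0 k26 t26)) (.br _ _ _ (.leaf b0 k27 t27) (.leaf b0 k28 t28)))))) w1
noncomputable def k29 : KT := (.br (Nat.shiftLeft (nat_lit 0x5) (nat_lit 76)) (.br (Nat.shiftLeft (nat_lit 0x1) (nat_lit 77)) (.br (Nat.shiftLeft (nat_lit 0x1) (nat_lit 76)) (.one (nat_lit 0x230000000000047200)) (.one (nat_lit 0x10230000000002046320))) (.br (Nat.shiftLeft (nat_lit 0x3) (nat_lit 76)) (.one (nat_lit 0x20230000000004046320)) (.br (Nat.shiftLeft (nat_lit 0x1) (nat_lit 78)) (.one (nat_lit 0x30230000000006046320)) (.one (nat_lit 0x40230000000008046320))))) (.br (Nat.shiftLeft (nat_lit 0x1) (nat_lit 79)) (.br (Nat.shiftLeft (nat_lit 0x3) (nat_lit 77)) (.one (nat_lit 0x5023000000000a047300)) (.br (Nat.shiftLeft (nat_lit 0x7) (nat_lit 76)) (.one (nat_lit 0x6023000000000c047300)) (.one (nat_lit 0x7023000000000e047300)))) (.br (Nat.shiftLeft (nat_lit 0x9) (nat_lit 76)) (.one (nat_lit 0x80230000000010047300)) (.br (Nat.shiftLeft (nat_lit 0x5) (nat_lit 77)) (.one (nat_lit 0x90230000000012047300)) (.one (nat_lit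 0xa0230000000014047300))))))
def t29 : k29.all (jb2 57 fl b0) = true := by decide +kernel
noncomputable def k30 : KT := (.one (nat_lit 0xb0230000000016046320))
def t30 : k30.all (jb2 57 fl b0) = true := by decide +kernel
noncomputable def k31 : KT := (.br (Nat.shiftLeft (nat_lit 0xd) (nat_lit 76)) (.one (nat_lit 0xc0230000000018046320)) (.one (nat_lit 0xd023000000001a046320)))
def t31 : k31.all (jb2 57 fl b0) = true := by decide +kernel
noncomputable def k32 : KT := (.br (Nat.shiftLeft (nat_lit 0x15) (nat_lit 76)) (.br (Nat.shiftLeft (nat_lit 0x11) (nat_lit 76)) (.br (Nat.shiftLeft (nat_lit 0xf) (nat_lit 76)) (.one (nat_lit 0xe023000000001c046320)) (.br (Nat.shiftLeft (nat_lit 0x1) (nat_lit 80)) (.one (nat_lit 0xf023000000001e046320)) (.one (nat_lit 0x100230000000020046320)))) (.br (Nat.shiftLeft (nat_lit 0x13) (nat_lit 76)) (.br (Nat.shiftLeft (nat_lit 0x9) (nat_lit 77)) (.one (nat_lit 0x110230000000022046320)) (.one (nat_lit 0x120230000000024046320))) (.br (Nat.shiftLeft (nat_lit 0x5) (nat_lit 78)) (.one (nat_lit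 0x130230000000026046320)) (.one (nat_lit 0x140230000000028046320))))) (.br (Nat.shiftLeft (nat_lit 0x1007) (nat_lit 76)) (.br (Nat.shiftLeft (nat_lit 0x1) (nat_lit 88)) (.br (Nat.shiftLeft (nat_lit 0xb) (nat_lit 77)) (.one (nat_lit 0x15023000000002a046320)) (.one (nat_lit 0x16023000000002c046320))) (.br (Nat.shiftLeft (nat_lit 0x803) (nat_lit 77)) (.one (nat_lit 0x1005023000000200a046430)) (.one (nat_lit 0x1006023000000200c046430)))) (.br (Nat.shiftLeft (nat_lit 0x1009) (nat_lit 76)) (.br (Nat.shiftLeft (nat_lit 0x201) (nat_lit 79)) (.one (nat_lit 0x1007023000000200e046430)) (.one (nat_lit 0x10080230000002010046430))) (.br (Nat.shiftLeft (nat_lit 0x805) (nat_lit 77)) (.one (nat_lit 0x10090230000002012046430)) (.one (nat_lit 0x100a0230000002014046430))))))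
def t32 : k32.all (jb2 57 fl b0) = true := by decide +kernel
noncomputable def k33 : KT := (.br (Nat.shiftLeft (nat_lit 0x2007) (nat_lit 76)) (.br (Nat.shiftLeft (nat_lit 0x1003) (nat_lit 77)) (.one (nat_lit 0x2005023000000400a046430)) (.one (nat_lit 0x2006023000000400c046430))) (.br (Nat.shiftLeft (nat_lit 0x401) (nat_lit 79)) (.one (nat_lit 0x2007023000000400e046430)) (.br (Nat.shiftLeft (nat_lit 0x2009) (nat_lit 76)) (.one (nat_lit 0x20080230000004010046430)) (.one (nat_lit 0x20090230000004012046430)))))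
def t33 : k33.all (jb2 57 fl b0) = true := by decide +kernel
noncomputable def k34 : KT := (.br (Nat.shiftLeft (nat_lit 0x3) (nat_lit 88)) (.one (nat_lit 0x200a0230000004014046430)) (.one (nat_lit 0x3005023000000600a046430)))
def t34 : k34.all (jb2 57 fl b0) = true := by decide +kernel
noncomputable def k35 : KT := (.br (Nat.shiftLeft (nat_lit 0x3007) (nat_lit 76)) (.one (nat_lit 0x3006023000000600c046430)) (.one (nat_lit 0x3007023000000600e046430)))
def t35 : k35.all (jb2 57 fl b0) = true := by decide +kernel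
noncomputable def k36 : KT := (.br (Nat.shiftLeft (nat_lit 0x3009) (nat_lit 76)) (.one (nat_lit 0x30080230000006010046430)) (.br (Nat.shiftLeft (nat_lit 0x1805) (nat_lit 77)) (.one (nat_lit 0x30090230000006012046430)) (.one (nat_lit 0x300a0230000006014046430))))
def t36 : k36.all (jb2 57 fl b0) = true := by decide +kernel
noncomputable def k37 : KT := (.one (nat_lit 0x4005023000000800a046430))
def t37 : k37.all (jb2 57 fl b0) = true := by decide +kernel
noncomputable def k38 : KT := (.one (nat_lit 0x4006023000000800c046430))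
def t38 : k38.all (jb2 57 fl b0) = true := by decide +kernel
noncomputable def k39 : KT := (.one (nat_lit 0x4007023000000800e046430))
def t39 : k39.all (jb2 57 fl b0) = true := by decide +kernel
noncomputable def k40 : KT := (.br (Nat.shiftLeft (nat_lit 0x4009) (nat_lit 76)) (.one (nat_lit 0x40080230000008010046430)) (.one (nat_lit 0x40090230000008012046430)))
def t40 : k40.all (jb2 57 fl b0) = true := by decide +kernel
noncomputable def k41 : KT := (.br (Nat.shiftLeft (nat_lit 0x5) (nat_lit 88)) (.one (nat_lit 0x400a0230000008014046430)) (.one (nat_lit 0x5006023000000a00c046430)))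
def t41 : k41.all (jb2 57 fl b0) = true := by decide +kernel
noncomputable def k42 : KT := (.br (Nat.shiftLeft (nat_lit 0xa01) (nat_lit 79)) (.one (nat_lit 0x5007023000000a00e046430)) (.one (nat_lit 0x5008023000000a010046430)))
def t42 : k42.all (jb2 57 fl b0) = true := by decide +kernel
noncomputable def k43 : KT := (.br (Nat.shiftLeft (nat_lit 0x2805) (nat_lit 77)) (.one (nat_lit 0x5009023000000a012046430)) (.br (Nat.shiftLeft (nat_lit 0x3) (nat_lit 89)) (.one (nat_lit 0x500a023000000a014046430)) (.one (nat_lit 0x6007023000000c00e046430))))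
def t43 : k43.all (jb2 57 fl b0) = true := by decide +kernel
noncomputable def k44 : KT := (.br (Nat.shiftLeft (nat_lit 0x7) (nat_lit 88)) (.br (Nat.shiftLeft (nat_lit 0x6009) (nat_lit 76)) (.one (nat_lit 0x6008023000000c010046430)) (.br (Nat.shiftLeft (nat_lit 0x3005) (nat_lit 77)) (.one (nat_lit 0x6009023000000c012046430)) (.one (nat_lit 0x600a023000000c014046430)))) (.br (Nat.shiftLeft (nat_lit 0x7009) (nat_lit 76)) (.one (nat_lit 0x7008023000000e010046430)) (.br (Nat.shiftLeft (nat_lit 0x3805) (nat_lit 77)) (.one (nat_lit 0x7009023000000e012046430)) (.one (nat_lit 0x700a023000000e014046430)))))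
def t44 : k44.all (jb2 57 fl b0) = true := by decide +kernel
noncomputable def k45 : KT := (.br (Nat.shiftLeft (nat_lit 0x1800005) (nat_lit 77)) (.br (Nat.shiftLeft (nat_lit 0x1000003) (nat_lit 77)) (.br (Nat.shiftLeft (nat_lit 0x1000007) (nat_lit 76)) (.br (Nat.shiftLeft (nat_lit 0x9) (nat_lit 88)) (.br (Nat.shiftLeft (nat_lit 0x4005) (nat_lit 77)) (.one (nat_lit 0x80090230000010012046430)) (.one (nat_lit 0x800a0230000010014046430))) (.br (Nat.shiftLeft (nat_lit 0x1) (nat_lit 100)) (.one (nat_lit 0x900a0230000012014046430)) (.br (Nat.shiftLeft (nat_lit 0x800003) (nat_lit 77)) (.one (nat_lit 0x1000005023000200000a046311)) (.one (nat_lit 0x1000006023000200000c046311))))) (.br (Nat.shiftLeft (nat_lit 0x1000009) (nat_lit 76)) (.br (Nat.shiftLeft (nat_lit 0x200001) (nat_lit 79)) (.one (nat_lit 0x1000007023000200000e046311)) (.one (nat_lit 0x10000080230002000010046311))) (.br (Nat.shiftLeft (nat_lit 0x800005) (nat_lit 77)) (.one (nat_lit 0x10000090230002000012046311)) (.br (Nat.shiftLeft (nat_lit 0x1) (nat_lit 101))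 (.one (nat_lit 0x100000a0230002000014046311)) (.one (nat_lit 0x2000005023000400000a046311)))))) (.br (Nat.shiftLeft (nat_lit 0x3) (nat_lit 100)) (.br (Nat.shiftLeft (nat_lit 0x400001) (nat_lit 79)) (.br (Nat.shiftLeft (nat_lit 0x2000007) (nat_lit 76)) (.one (nat_lit 0x2000006023000400000c046311)) (.one (nat_lit 0x2000007023000400000e046311))) (.br (Nat.shiftLeft (nat_lit 0x2000009) (nat_lit 76)) (.one (nat_lit 0x20000080230004000010046311)) (.br (Nat.shiftLeft (nat_lit 0x1000005) (nat_lit 77)) (.one (nat_lit 0x20000090230004000012046311)) (.one (nat_lit 0x200000a0230004000014046311))))) (.br (Nat.shiftLeft (nat_lit 0x3000007) (nat_lit 76)) (.br (Nat.shiftLeft (nat_lit 0x1800003) (nat_lit 77)) (.one (nat_lit 0x3000005023000600000a046311)) (.one (nat_lit 0x3000006023000600000c046311))) (.br (Nat.shiftLeft (nat_lit 0x600001) (nat_lit 79)) (.one (nat_lit 0x3000007023000600000e046311)) (.br (Nat.shiftLeft (nat_lit 0x3000009) (nat_lit 76)) (.one (nat_lit 0x30000080230006000010046311)) (.one (nat_lit 0x30000090230006000012046311)))))))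 (.br (Nat.shiftLeft (nat_lit 0xa00001) (nat_lit 79)) (.br (Nat.shiftLeft (nat_lit 0x4000009) (nat_lit 76)) (.br (Nat.shiftLeft (nat_lit 0x2000003) (nat_lit 77)) (.br (Nat.shiftLeft (nat_lit 0x1) (nat_lit 102)) (.one (nat_lit 0x300000a0230006000014046311)) (.one (nat_lit 0x4000005023000800000a046311))) (.br (Nat.shiftLeft (nat_lit 0x4000007) (nat_lit 76)) (.one (nat_lit 0x4000006023000800000c046311)) (.br (Nat.shiftLeft (nat_lit 0x800001) (nat_lit 79)) (.one (nat_lit 0x4000007023000800000e046311)) (.one (nat_lit 0x40000080230008000010046311))))) (.br (Nat.shiftLeft (nat_lit 0x5) (nat_lit 100)) (.br (Nat.shiftLeft (nat_lit 0x2000005) (nat_lit 77)) (.one (nat_lit 0x40000090230008000012046311)) (.one (nat_lit 0x400000a0230008000014046311))) (.br (Nat.shiftLeft (nat_lit 0x2800003) (nat_lit 77)) (.one (nat_lit 0x5000005023000a00000a046311)) (.br (Nat.shiftLeft (nat_lit 0x5000007) (nat_lit 76)) (.one (nat_lit 0x5000006023000a00000c046311)) (.one (nat_lit 0x5000007023000a00000e046311)))))) (.br (Nat.shiftLeft (nat_lit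 0xc00001) (nat_lit 79)) (.br (Nat.shiftLeft (nat_lit 0x2800005) (nat_lit 77)) (.br (Nat.shiftLeft (nat_lit 0x5000009) (nat_lit 76)) (.one (nat_lit 0x5000008023000a000010046311)) (.one (nat_lit 0x5000009023000a000012046311))) (.br (Nat.shiftLeft (nat_lit 0x3) (nat_lit 101)) (.one (nat_lit 0x500000a023000a000014046311)) (.br (Nat.shiftLeft (nat_lit 0x6000007) (nat_lit 76)) (.one (nat_lit 0x6000006023000c00000c046311)) (.one (nat_lit 0x6000007023000c00000e046311))))) (.br (Nat.shiftLeft (nat_lit 0x3000005) (nat_lit 77)) (.br (Nat.shiftLeft (nat_lit 0x6000009) (nat_lit 76)) (.one (nat_lit 0x6000008023000c000010046311)) (.one (nat_lit 0x6000009023000c000012046311))) (.br (Nat.shiftLeft (nat_lit 0x7) (nat_lit 100)) (.one (nat_lit 0x600000a023000c000014046311)) (.br (Nat.shiftLeft (nat_lit 0xe00001) (nat_lit 79)) (.one (nat_lit 0x7000007023000e00000e046311)) (.one (nat_lit 0x7000008023000e000010046311))))))))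
def t45 : k45.all (jb2 57 fl b0) = true := by decide +kernel
noncomputable def k46 : KT := (.br (Nat.shiftLeft (nat_lit 0x4000005) (nat_lit 77)) (.br (Nat.shiftLeft (nat_lit 0x1) (nat_lit 103)) (.br (Nat.shiftLeft (nat_lit 0x3800005) (nat_lit 77)) (.one (nat_lit 0x7000009023000e000012046311)) (.one (nat_lit 0x700000a023000e000014046311))) (.br (Nat.shiftLeft (nat_lit 0x8000009) (nat_lit 76)) (.one (nat_lit 0x80000080230010000010046311)) (.one (nat_lit 0x80000090230010000012046311)))) (.br (Nat.shiftLeft (nat_lit 0x4800005) (nat_lit 77)) (.br (Nat.shiftLeft (nat_lit 0x9) (nat_lit 100)) (.one (nat_lit 0x800000a0230010000014046311)) (.one (nat_lit 0x90000090230012000012046311))) (.br (Nat.shiftLeft (nat_lit 0x5) (nat_lit 101)) (.one (nat_lit 0x900000a0230012000014046311)) (.one (nat_lit 0xa00000a0230014000014046311)))))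
def t46 : k46.all (jb2 57 fl b0) = true := by decide +kernel
noncomputable def s2 : KT := (.br (nat_lit 0x4005023000000800a046430) (.br (nat_lit 0x100a0230000002014046430) (.br (nat_lit 0xb0230000000016046320) (.br (nat_lit 0xa0230000000014047300) k29 k30) (.br (nat_lit 0xd023000000001a046320) k31 k32)) (.br (nat_lit 0x3005023000000600a046430) (.br (nat_lit 0x20090230000004012046430) k33 k34) (.br (nat_lit 0x3007023000000600e046430) k35 (.br (nat_lit 0x300a0230000006014046430) k36 k37)))) (.br (nat_lit 0x5006023000000a00c046430) (.br (nat_lit 0x4007023000000800e046430) (.br (nat_lit 0x4006023000000800c046430) k38 k39) (.br (nat_lit 0x40090230000008012046430) k40 k41)) (.br (nat_lit 0x6007023000000c00e046430) (.br (nat_lit 0x5008023000000a010046430) k42 k43) (.br (nat_lit 0x700a023000000e014046430) k44 (.br (nat_lit 0x7000008023000e000010046311) k45 k46)))))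
noncomputable def u2 : KT := (.one (nat_lit 0x230000000000046210))
def w2 : u2.all (wj 57 s2) = true := by decide +kernel
def o2 : OkW 57 (jb2 57 fl) u2 := .lift s2 _ (.br _ _ _ (.br _ _ _ (.br _ _ _ (.br _ _ _ (.leaf b0 k29 t29) (.leaf b0 k30 t30)) (.br _ _ _ (.leaf b0 k31 t31) (.leaf b0 k32 t32))) (.br _ _ _ (.br _ _ _ (.leaf b0 k33 t33) (.leaf b0 k34 t34)) (.br _ _ _ (.leaf b0 k35 t35) (.br _ _ _ (.leaf b0 k36 t36) (.leaf b0 k37 t37))))) (.br _ _ _ (.br _ _ _ (.br _ _ _ (.leaf b0 k38 t38) (.leaf b0 k39 t39)) (.br _ _ _ (.leaf b0 k40 t40) (.leaf b0 k41 t41))) (.br _ _ _ (.br _ _ _ (.leaf b0 k42 t42) (.leaf b0 k43 t43)) (.br _ _ _ (.leaf b0 k44 t44) (.br _ _ _ (.leaf b0 k45 t45) (.leaf b0 k46 t46)))))) w2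
noncomputable def k47 : KT := (.br (Nat.shiftLeft (nat_lit 0x2025) (nat_lit 64)) (.br (Nat.shiftLeft (nat_lit 0x1) (nat_lit 76)) (.br (Nat.shiftLeft (nat_lit 0x25) (nat_lit 64)) (.one (nat_lit 0x240000000000049200)) (.one (nat_lit 0x25000000000004b200))) (.br (Nat.shiftLeft (nat_lit 0x1025) (nat_lit 64)) (.one (nat_lit 0x10240000000002048320)) (.br (Nat.shiftLeft (nat_lit 0x1) (nat_lit 77)) (.one (nat_lit 0x1025000000000204a320)) (.one (nat_lit 0x20240000000004048320))))) (.br (Nat.shiftLeft (nat_lit 0x1) (nat_lit 78)) (.br (Nat.shiftLeft (nat_lit 0x3) (nat_lit 76)) (.one (nat_lit 0x2025000000000404a320)) (.br (Nat.shiftLeft (nat_lit 0x3025) (nat_lit 64)) (.one (nat_lit 0x30240000000006048320)) (.one (nat_lit 0x3025000000000604a320)))) (.br (Nat.shiftLeft (nat_lit 0x4025) (nat_lit 64)) (.one (nat_lit 0x40240000000008048320)) (.br (Nat.shiftLeft (nat_lit 0x5) (nat_lit 76)) (.one (nat_lit 0x4025000000000804a320)) (.one (nat_lit 0x5024000000000a049300))))))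
def t47 : k47.all (jb2 57 fl b0) = true := by decide +kernel
noncomputable def k48 : KT := (.br (Nat.shiftLeft (nat_lit 0x7025) (nat_lit 64)) (.br (Nat.shiftLeft (nat_lit 0x6025) (nat_lit 64)) (.br (Nat.shiftLeft (nat_lit 0x3) (nat_lit 77)) (.one (nat_lit 0x5025000000000a04a320)) (.one (nat_lit 0x6024000000000c049300))) (.br (Nat.shiftLeft (nat_lit 0x7) (nat_lit 76)) (.one (nat_lit 0x6025000000000c04b300)) (.one (nat_lit 0x7024000000000e049300)))) (.br (Nat.shiftLeft (nat_lit 0x8025) (nat_lit 64)) (.br (Nat.shiftLeft (nat_lit 0x1) (nat_lit 79)) (.one (nat_lit 0x7025000000000e04b300)) (.one (nat_lit 0x80240000000010049300))) (.br (Nat.shiftLeft (nat_lit 0x9) (nat_lit 76)) (.one (nat_lit 0x8025000000001004b300)) (.one (nat_lit 0x90240000000012049300)))))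
def t48 : k48.all (jb2 57 fl b0) = true := by decide +kernel
noncomputable def k49 : KT := (.one (nat_lit 0x9025000000001204a320))
def t49 : k49.all (jb2 57 fl b0) = true := by decide +kernel
noncomputable def k50 : KT := (.one (nat_lit 0xa0240000000014048320))
def t50 : k50.all (jb2 57 fl b0) = true := by decide +kernel
noncomputable def k51 : KT := (.one (nat_lit 0xa025000000001404a320))
def t51 : k51.all (jb2 57 fl b0) = true := by decide +kernel
noncomputable def k52 : KT := (.br (Nat.shiftLeft (nat_lit 0xb025) (nat_lit 64)) (.one (nat_lit 0xb0240000000016048320)) (.one (nat_lit 0xb025000000001604a320)))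
def t52 : k52.all (jb2 57 fl b0) = true := by decide +kernel
noncomputable def k53 : KT := (.br (Nat.shiftLeft (nat_lit 0xc025) (nat_lit 64)) (.one (nat_lit 0xc0240000000018048320)) (.br (Nat.shiftLeft (nat_lit 0xd) (nat_lit 76)) (.one (nat_lit 0xc025000000001804a320)) (.one (nat_lit 0xd024000000001a048320))))
def t53 : k53.all (jb2 57 fl b0) = true := by decide +kernel
noncomputable def k54 : KT := (.br (Nat.shiftLeft (nat_lit 0x12025) (nat_lit 64)) (.br (Nat.shiftLeft (nat_lit 0x1) (nat_lit 80)) (.br (Nat.shiftLeft (nat_lit 0xe025) (nat_lit 64)) (.br (Nat.shiftLeft (nat_lit 0x7) (nat_lit 77)) (.one (nat_lit 0xd025000000001a04a320)) (.one (nat_lit 0xe024000000001c048320))) (.br (Nat.shiftLeft (nat_lit 0xf) (nat_lit 76)) (.one (nat_lit 0xe025000000001c04a320)) (.br (Nat.shiftLeft (nat_lit 0xf025) (nat_lit 64)) (.one (nat_lit 0xf024000000001e048320)) (.one (nat_lit 0xf025000000001e04a320))))) (.br (Nat.shiftLeft (nat_lit 0x11) (nat_lit 76)) (.br (Nat.shiftLeft (nat_lit 0x10025) (nat_lit 64)) (.one (nat_lit 0x100240000000020048320))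 (.one (nat_lit 0x10025000000002004a320))) (.br (Nat.shiftLeft (nat_lit 0x11025) (nat_lit 64)) (.one (nat_lit 0x110240000000022048320)) (.br (Nat.shiftLeft (nat_lit 0x9) (nat_lit 77)) (.one (nat_lit 0x11025000000002204a320)) (.one (nat_lit 0x120240000000024048320)))))) (.br (Nat.shiftLeft (nat_lit 0x15) (nat_lit 76)) (.br (Nat.shiftLeft (nat_lit 0x13025) (nat_lit 64)) (.br (Nat.shiftLeft (nat_lit 0x13) (nat_lit 76)) (.one (nat_lit 0x12025000000002404a320)) (.one (nat_lit 0x130240000000026048320))) (.br (Nat.shiftLeft (nat_lit 0x5) (nat_lit 78)) (.one (nat_lit 0x13025000000002604a320)) (.br (Nat.shiftLeft (nat_lit 0x14025) (nat_lit 64)) (.one (nat_lit 0x140240000000028048320)) (.one (nat_lit 0x14025000000002804a320))))) (.br (Nat.shiftLeft (nat_lit 0x1006025) (nat_lit 64)) (.br (Nat.shiftLeft (nat_lit 0x1) (nat_lit 88)) (.one (nat_lit 0x15024000000002a048320)) (.br (Nat.shiftLeft (nat_lit 0x803) (nat_lit 77)) (.one (nat_lit 0x1005024000000200a048430)) (.one (nat_lit 0x1006024000000200c048430)))) (.br (Nat.shiftLeft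 (nat_lit 0x1007) (nat_lit 76)) (.one (nat_lit 0x1006025000000200c04a430)) (.br (Nat.shiftLeft (nat_lit 0x1007025) (nat_lit 64)) (.one (nat_lit 0x1007024000000200e048430)) (.one (nat_lit 0x1007025000000200e04a430)))))))
def t54 : k54.all (jb2 57 fl b0) = true := by decide +kernel
noncomputable def k55 : KT := (.br (Nat.shiftLeft (nat_lit 0x1003) (nat_lit 77)) (.br (Nat.shiftLeft (nat_lit 0x1009) (nat_lit 76)) (.br (Nat.shiftLeft (nat_lit 0x1008025) (nat_lit 64)) (.one (nat_lit 0x10080240000002010048430)) (.one (nat_lit 0x1008025000000201004a430))) (.br (Nat.shiftLeft (nat_lit 0x1) (nat_lit 89)) (.one (nat_lit 0x10090240000002012048430)) (.one (nat_lit 0x2005024000000400a048430)))) (.br (Nat.shiftLeft (nat_lit 0x2007) (nat_lit 76)) (.br (Nat.shiftLeft (nat_lit 0x2006025) (nat_lit 64)) (.one (nat_lit 0x2006024000000400c048430)) (.one (nat_lit 0x2006025000000400c04a430))) (.br (Nat.shiftLeft (nat_lit 0x2007025) (nat_lit 64)) (.one (nat_lit 0x2007024000000400e048430)) (.one (nat_lit 0x2007025000000400e04a430)))))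
def t55 : k55.all (jb2 57 fl b0) = true := by decide +kernel
noncomputable def k56 : KT := (.br (Nat.shiftLeft (nat_lit 0x2009) (nat_lit 76)) (.br (Nat.shiftLeft (nat_lit 0x2008025) (nat_lit 64)) (.one (nat_lit 0x20080240000004010048430)) (.one (nat_lit 0x2008025000000401004a430))) (.br (Nat.shiftLeft (nat_lit 0x3) (nat_lit 88)) (.one (nat_lit 0x20090240000004012048430)) (.one (nat_lit 0x3005024000000600a048430))))
def t56 : k56.all (jb2 57 fl b0) = true := by decide +kernel
noncomputable def k57 : KT := (.br (Nat.shiftLeft (nat_lit 0x3006025) (nat_lit 64)) (.one (nat_lit 0x3006024000000600c048430)) (.one (nat_lit 0x3006025000000600c04a430)))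
def t57 : k57.all (jb2 57 fl b0) = true := by decide +kernel
noncomputable def k58 : KT := (.br (Nat.shiftLeft (nat_lit 0x3007025) (nat_lit 64)) (.one (nat_lit 0x3007024000000600e048430)) (.one (nat_lit 0x3007025000000600e04a430)))
def t58 : k58.all (jb2 57 fl b0) = true := by decide +kernel
noncomputable def k59 : KT := (.br (Nat.shiftLeft (nat_lit 0x3008025) (nat_lit 64)) (.one (nat_lit 0x30080240000006010048430)) (.br (Nat.shiftLeft (nat_lit 0x3009) (nat_lit 76)) (.one (nat_lit 0x3008025000000601004a430)) (.one (nat_lit 0x30090240000006012048430))))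
def t59 : k59.all (jb2 57 fl b0) = true := by decide +kernel
noncomputable def k60 : KT := (.one (nat_lit 0x4005024000000800a048430))
def t60 : k60.all (jb2 57 fl b0) = true := by decide +kernel
noncomputable def k61 : KT := (.br (Nat.shiftLeft (nat_lit 0x4006025) (nat_lit 64)) (.one (nat_lit 0x4006024000000800c048430)) (.one (nat_lit 0x4006025000000800c04a430)))
def t61 : k61.all (jb2 57 fl b0) = true := by decide +kernel
noncomputable def k62 : KT := (.br (Nat.shiftLeft (nat_lit 0x4007025) (nat_lit 64)) (.one (nat_lit 0x4007024000000800e048430)) (.one (nat_lit 0x4007025000000800e04a430)))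
def t62 : k62.all (jb2 57 fl b0) = true := by decide +kernel
noncomputable def k63 : KT := (.br (Nat.shiftLeft (nat_lit 0x4008025) (nat_lit 64)) (.one (nat_lit 0x40080240000008010048430)) (.br (Nat.shiftLeft (nat_lit 0x4009) (nat_lit 76)) (.one (nat_lit 0x4008025000000801004a430)) (.one (nat_lit 0x40090240000008012048430))))
def t63 : k63.all (jb2 57 fl b0) = true := by decide +kernel
noncomputable def k64 : KT := (.br (Nat.shiftLeft (nat_lit 0x5006025) (nat_lit 64)) (.one (nat_lit 0x5006024000000a00c048430)) (.one (nat_lit 0x5006025000000a00c04a430)))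
def t64 : k64.all (jb2 57 fl b0) = true := by decide +kernel
noncomputable def k65 : KT := (.br (Nat.shiftLeft (nat_lit 0x5007025) (nat_lit 64)) (.one (nat_lit 0x5007024000000a00e048430)) (.br (Nat.shiftLeft (nat_lit 0xa01) (nat_lit 79)) (.one (nat_lit 0x5007025000000a00e04a430)) (.one (nat_lit 0x5008024000000a010048430))))
def t65 : k65.all (jb2 57 fl b0) = true := by decide +kernel
noncomputable def k66 : KT := (.br (Nat.shiftLeft (nat_lit 0x3) (nat_lit 89)) (.br (Nat.shiftLeft (nat_lit 0x5009) (nat_lit 76)) (.one (nat_lit 0x5008025000000a01004a430)) (.one (nat_lit 0x5009024000000a012048430))) (.br (Nat.shiftLeft (nat_lit 0x6007025) (nat_lit 64)) (.one (nat_lit 0x6007024000000c00e048430)) (.one (nat_lit 0x6007025000000c00e04a430))))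
def t66 : k66.all (jb2 57 fl b0) = true := by decide +kernel
noncomputable def k67 : KT := (.br (Nat.shiftLeft (nat_lit 0x400001) (nat_lit 79)) (.br (Nat.shiftLeft (nat_lit 0x1000007) (nat_lit 76)) (.br (Nat.shiftLeft (nat_lit 0x7009) (nat_lit 76)) (.br (Nat.shiftLeft (nat_lit 0x6009) (nat_lit 76)) (.br (Nat.shiftLeft (nat_lit 0x6008025) (nat_lit 64)) (.one (nat_lit 0x6008024000000c010048430)) (.one (nat_lit 0x6008025000000c01004a430))) (.br (Nat.shiftLeft (nat_lit 0x7) (nat_lit 88)) (.one (nat_lit 0x6009024000000c012048430)) (.br (Nat.shiftLeft (nat_lit 0x7008025) (nat_lit 64)) (.one (nat_lit 0x7008024000000e010048430)) (.one (nat_lit 0x7008025000000e01004a430))))) (.br (Nat.shiftLeft (nat_lit 0x1) (nat_lit 100)) (.br (Nat.shiftLeft (nat_lit 0x1) (nat_lit 91)) (.one (nat_lit 0x7009024000000e012048430)) (.one (nat_lit 0x80090240000010012048430))) (.br (Nat.shiftLeft (nat_lit 0x800003) (nat_lit 77)) (.one (nat_lit 0x1000005024000200000a048311)) (.br (Nat.shiftLeft (nat_lit 0x1000006025) (nat_lit 64)) (.one (nat_lit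 0x1000006024000200000c048311)) (.one (nat_lit 0x1000006025000200000c04a311)))))) (.br (Nat.shiftLeft (nat_lit 0x1) (nat_lit 101)) (.br (Nat.shiftLeft (nat_lit 0x200001) (nat_lit 79)) (.br (Nat.shiftLeft (nat_lit 0x1000007025) (nat_lit 64)) (.one (nat_lit 0x1000007024000200000e048311)) (.one (nat_lit 0x1000007025000200000e04a311))) (.br (Nat.shiftLeft (nat_lit 0x1000008025) (nat_lit 64)) (.one (nat_lit 0x10000080240002000010048311)) (.br (Nat.shiftLeft (nat_lit 0x1000009) (nat_lit 76)) (.one (nat_lit 0x1000008025000200001004a311)) (.one (nat_lit 0x10000090240002000012048311))))) (.br (Nat.shiftLeft (nat_lit 0x2000006025) (nat_lit 64)) (.br (Nat.shiftLeft (nat_lit 0x1000003) (nat_lit 77)) (.one (nat_lit 0x2000005024000400000a048311)) (.one (nat_lit 0x2000006024000400000c048311))) (.br (Nat.shiftLeft (nat_lit 0x2000007) (nat_lit 76)) (.one (nat_lit 0x2000006025000400000c04a311)) (.br (Nat.shiftLeft (nat_lit 0x2000007025) (nat_lit 64)) (.one (nat_lit 0x2000007024000400000e048311)) (.one (nat_lit 0x2000007025000400000e04a311)))))))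 (.br (Nat.shiftLeft (nat_lit 0x3000009) (nat_lit 76)) (.br (Nat.shiftLeft (nat_lit 0x3000006025) (nat_lit 64)) (.br (Nat.shiftLeft (nat_lit 0x2000009) (nat_lit 76)) (.br (Nat.shiftLeft (nat_lit 0x2000008025) (nat_lit 64)) (.one (nat_lit 0x20000080240004000010048311)) (.one (nat_lit 0x2000008025000400001004a311))) (.br (Nat.shiftLeft (nat_lit 0x3) (nat_lit 100)) (.one (nat_lit 0x20000090240004000012048311)) (.br (Nat.shiftLeft (nat_lit 0x1800003) (nat_lit 77)) (.one (nat_lit 0x3000005024000600000a048311)) (.one (nat_lit 0x3000006024000600000c048311))))) (.br (Nat.shiftLeft (nat_lit 0x3000007025) (nat_lit 64)) (.br (Nat.shiftLeft (nat_lit 0x3000007) (nat_lit 76)) (.one (nat_lit 0x3000006025000600000c04a311)) (.one (nat_lit 0x3000007024000600000e048311))) (.br (Nat.shiftLeft (nat_lit 0x600001) (nat_lit 79)) (.one (nat_lit 0x3000007025000600000e04a311)) (.br (Nat.shiftLeft (nat_lit 0x3000008025) (nat_lit 64)) (.one (nat_lit 0x30000080240006000010048311)) (.one (nat_lit 0x3000008025000600001004a311)))))) (.br (Nat.shiftLeft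 (nat_lit 0x4000007025) (nat_lit 64)) (.br (Nat.shiftLeft (nat_lit 0x2000003) (nat_lit 77)) (.br (Nat.shiftLeft (nat_lit 0x1) (nat_lit 102)) (.one (nat_lit 0x30000090240006000012048311)) (.one (nat_lit 0x4000005024000800000a048311))) (.br (Nat.shiftLeft (nat_lit 0x4000006025) (nat_lit 64)) (.one (nat_lit 0x4000006024000800000c048311)) (.br (Nat.shiftLeft (nat_lit 0x4000007) (nat_lit 76)) (.one (nat_lit 0x4000006025000800000c04a311)) (.one (nat_lit 0x4000007024000800000e048311))))) (.br (Nat.shiftLeft (nat_lit 0x4000008025) (nat_lit 64)) (.br (Nat.shiftLeft (nat_lit 0x800001) (nat_lit 79)) (.one (nat_lit 0x4000007025000800000e04a311)) (.one (nat_lit 0x40000080240008000010048311))) (.br (Nat.shiftLeft (nat_lit 0x4000009) (nat_lit 76)) (.one (nat_lit 0x4000008025000800001004a311)) (.br (Nat.shiftLeft (nat_lit 0x5) (nat_lit 100)) (.one (nat_lit 0x40000090240008000012048311)) (.one (nat_lit 0x5000005024000a00000a048311))))))))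
def t67 : k67.all (jb2 57 fl b0) = true := by decide +kernel
noncomputable def k68 : KT := (.br (Nat.shiftLeft (nat_lit 0xc00001) (nat_lit 79)) (.br (Nat.shiftLeft (nat_lit 0x5000008025) (nat_lit 64)) (.br (Nat.shiftLeft (nat_lit 0x5000007) (nat_lit 76)) (.br (Nat.shiftLeft (nat_lit 0x5000006025) (nat_lit 64)) (.one (nat_lit 0x5000006024000a00000c048311)) (.one (nat_lit 0x5000006025000a00000c04a311))) (.br (Nat.shiftLeft (nat_lit 0x5000007025) (nat_lit 64)) (.one (nat_lit 0x5000007024000a00000e048311)) (.br (Nat.shiftLeft (nat_lit 0xa00001) (nat_lit 79)) (.one (nat_lit 0x5000007025000a00000e04a311)) (.one (nat_lit 0x5000008024000a000010048311))))) (.br (Nat.shiftLeft (nat_lit 0x6000006025) (nat_lit 64)) (.br (Nat.shiftLeft (nat_lit 0x5000009) (nat_lit 76)) (.one (nat_lit 0x5000008025000a00001004a311)) (.br (Nat.shiftLeft (nat_lit 0x3) (nat_lit 101)) (.one (nat_lit 0x5000009024000a000012048311)) (.one (nat_lit 0x6000006024000c00000c048311)))) (.br (Nat.shiftLeft (nat_lit 0x6000007) (nat_lit 76)) (.one (nat_lit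 0x6000006025000c00000c04a311)) (.br (Nat.shiftLeft (nat_lit 0x6000007025) (nat_lit 64)) (.one (nat_lit 0x6000007024000c00000e048311)) (.one (nat_lit 0x6000007025000c00000e04a311)))))) (.br (Nat.shiftLeft (nat_lit 0x7000008025) (nat_lit 64)) (.br (Nat.shiftLeft (nat_lit 0x7) (nat_lit 100)) (.br (Nat.shiftLeft (nat_lit 0x6000008025) (nat_lit 64)) (.one (nat_lit 0x6000008024000c000010048311)) (.br (Nat.shiftLeft (nat_lit 0x6000009) (nat_lit 76)) (.one (nat_lit 0x6000008025000c00001004a311)) (.one (nat_lit 0x6000009024000c000012048311)))) (.br (Nat.shiftLeft (nat_lit 0x7000007025) (nat_lit 64)) (.one (nat_lit 0x7000007024000e00000e048311)) (.br (Nat.shiftLeft (nat_lit 0xe00001) (nat_lit 79)) (.one (nat_lit 0x7000007025000e00000e04a311)) (.one (nat_lit 0x7000008024000e000010048311))))) (.br (Nat.shiftLeft (nat_lit 0x8000008025) (nat_lit 64)) (.br (Nat.shiftLeft (nat_lit 0x7000009) (nat_lit 76)) (.one (nat_lit 0x7000008025000e00001004a311)) (.br (Nat.shiftLeft (nat_lit 0x1) (nat_lit 103)) (.one (nat_lit 0x7000009024000e000012048311))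 (.one (nat_lit 0x80000080240010000010048311)))) (.br (Nat.shiftLeft (nat_lit 0x8000009) (nat_lit 76)) (.one (nat_lit 0x8000008025001000001004a311)) (.br (Nat.shiftLeft (nat_lit 0x9) (nat_lit 100)) (.one (nat_lit 0x80000090240010000012048311)) (.one (nat_lit 0x90000090240012000012048311)))))))
def t68 : k68.all (jb2 57 fl b0) = true := by decide +kernel
noncomputable def s3 : KT := (.br (nat_lit 0x3006025000000600c04a430) (.br (nat_lit 0xa025000000001404a320) (.br (nat_lit 0x90240000000012049300) (.br (nat_lit 0x5024000000000a049300) k47 k48) (.br (nat_lit 0x9025000000001204a320) k49 (.br (nat_lit 0xa0240000000014048320) k50 k51))) (.br (nat_lit 0x1007025000000200e04a430) (.br (nat_lit 0xb025000000001604a320) k52 (.br (nat_lit 0xd024000000001a048320) k53 k54)) (.br (nat_lit 0x2007025000000400e04a430) k55 (.br (nat_lit 0x3005024000000600a048430) k56 k57)))) (.br (nat_lit 0x4007025000000800e04a430) (.br (nat_lit 0x30090240000006012048430) (.br (nat_lit 0x3007025000000600e04a430) k58 k59) (.br (nat_lit 0x4005024000000800a048430)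 k60 (.br (nat_lit 0x4006025000000800c04a430) k61 k62))) (.br (nat_lit 0x5008024000000a010048430) (.br (nat_lit 0x40090240000008012048430) k63 (.br (nat_lit 0x5006025000000a00c04a430) k64 k65)) (.br (nat_lit 0x6007025000000c00e04a430) k66 (.br (nat_lit 0x5000005024000a00000a048311) k67 k68)))))
noncomputable def u3 : KT := (.br (Nat.shiftLeft (nat_lit 0x25) (nat_lit 64)) (.one (nat_lit 0x240000000000048210)) (.one (nat_lit 0x25000000000004a210)))
def w3 : u3.all (wj 57 s3) = true := by decide +kernel
def o3 : OkW 57 (jb2 57 fl) u3 := .lift s3 _ (.br _ _ _ (.br _ _ _ (.br _ _ _ (.br _ _ _ (.leaf b0 k47 t47) (.leaf b0 k48 t48)) (.br _ _ _ (.leaf b0 k49 t49) (.br _ _ _ (.leaf b0 k50 t50) (.leaf b0 k51 t51)))) (.br _ _ _ (.br _ _ _ (.leaf b0 k52 t52) (.br _ _ _ (.leaf b0 k53 t53) (.leaf b0 k54 t54))) (.br _ _ _ (.leaf b0 k55 t55) (.br _ _ _ (.leaf b0 k56 t56) (.leaf b0 k57 t57))))) (.br _ _ _ (.br _ _ _ (.br _ _ _ (.leaf b0 k58 t58) (.leaf b0 k59 t59)) (.br _ _ _ (.leaf b0 k60 t60) (.br _ _ _ (.leaf b0 k61 t61) (.leaf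 b0 k62 t62)))) (.br _ _ _ (.br _ _ _ (.leaf b0 k63 t63) (.br _ _ _ (.leaf b0 k64 t64) (.leaf b0 k65 t65))) (.br _ _ _ (.leaf b0 k66 t66) (.br _ _ _ (.leaf b0 k67 t67) (.leaf b0 k68 t68)))))) w3
noncomputable def k69 : KT := (.br (Nat.shiftLeft (nat_lit 0x29) (nat_lit 64)) (.br (Nat.shiftLeft (nat_lit 0x27) (nat_lit 64)) (.one (nat_lit 0x26000000000004d200)) (.br (Nat.shiftLeft (nat_lit 0x5) (nat_lit 67)) (.one (nat_lit 0x27000000000004f200)) (.one (nat_lit 0x280000000000051200)))) (.br (Nat.shiftLeft (nat_lit 0x2b) (nat_lit 64)) (.br (Nat.shiftLeft (nat_lit 0x15) (nat_lit 65)) (.one (nat_lit 0x290000000000053200)) (.one (nat_lit 0x2a0000000000055200))) (.br (Nat.shiftLeft (nat_lit 0xb) (nat_lit 66)) (.one (nat_lit 0x2b0000000000057200)) (.one (nat_lit 0x2c0000000000058210)))))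
def t69 : k69.all (jb2 57 fl b0) = true := by decide +kernel
noncomputable def k70 : KT := (.one (nat_lit 0x2d000000000005a210))
def t70 : k70.all (jb2 57 fl b0) = true := by decide +kernel
noncomputable def k71 : KT := (.br (Nat.shiftLeft (nat_lit 0x1) (nat_lit 77)) (.br (Nat.shiftLeft (nat_lit 0x205) (nat_lit 67)) (.br (Nat.shiftLeft (nat_lit 0x1) (nat_lit 76)) (.br (Nat.shiftLeft (nat_lit 0x2f) (nat_lit 64)) (.one (nat_lit 0x2e000000000005c210)) (.one (nat_lit 0x2f000000000005e210))) (.br (Nat.shiftLeft (nat_lit 0x1027) (nat_lit 64)) (.one (nat_lit 0x1026000000000204c320)) (.one (nat_lit 0x1027000000000204e320)))) (.br (Nat.shiftLeft (nat_lit 0x815) (nat_lit 65)) (.br (Nat.shiftLeft (nat_lit 0x1029) (nat_lit 64)) (.one (nat_lit 0x10280000000002050320)) (.one (nat_lit 0x10290000000002052320))) (.br (Nat.shiftLeft (nat_lit 0x102b) (nat_lit 64)) (.one (nat_lit 0x102a0000000002054320)) (.one (nat_lit 0x102b0000000002056320))))) (.br (Nat.shiftLeft (nat_lit 0x1015) (nat_lit 65)) (.br (Nat.shiftLeft (nat_lit 0x405)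 (nat_lit 67)) (.br (Nat.shiftLeft (nat_lit 0x2027) (nat_lit 64)) (.one (nat_lit 0x2026000000000404c320)) (.one (nat_lit 0x2027000000000404e320))) (.br (Nat.shiftLeft (nat_lit 0x2029) (nat_lit 64)) (.one (nat_lit 0x20280000000004050320)) (.one (nat_lit 0x20290000000004052320)))) (.br (Nat.shiftLeft (nat_lit 0x3) (nat_lit 76)) (.br (Nat.shiftLeft (nat_lit 0x202b) (nat_lit 64)) (.one (nat_lit 0x202a0000000004054320)) (.one (nat_lit 0x202b0000000004056320))) (.br (Nat.shiftLeft (nat_lit 0x3027) (nat_lit 64)) (.one (nat_lit 0x3026000000000604c320)) (.one (nat_lit 0x3027000000000604e320))))))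
def t71 : k71.all (jb2 57 fl b0) = true := by decide +kernel
noncomputable def k72 : KT := (.br (Nat.shiftLeft (nat_lit 0x302b) (nat_lit 64)) (.br (Nat.shiftLeft (nat_lit 0x3029) (nat_lit 64)) (.one (nat_lit 0x30280000000006050320)) (.br (Nat.shiftLeft (nat_lit 0x1815) (nat_lit 65)) (.one (nat_lit 0x30290000000006052320)) (.one (nat_lit 0x302a0000000006054320)))) (.br (Nat.shiftLeft (nat_lit 0x1) (nat_lit 78)) (.one (nat_lit 0x302b0000000006056320)) (.br (Nat.shiftLeft (nat_lit 0x4027) (nat_lit 64)) (.one (nat_lit 0x4026000000000804c320)) (.one (nat_lit 0x4027000000000804e320)))))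
def t72 : k72.all (jb2 57 fl b0) = true := by decide +kernel
noncomputable def k73 : KT := (.br (Nat.shiftLeft (nat_lit 0x4029) (nat_lit 64)) (.one (nat_lit 0x40280000000008050320)) (.br (Nat.shiftLeft (nat_lit 0x2015) (nat_lit 65)) (.one (nat_lit 0x40290000000008052320)) (.one (nat_lit 0x402a0000000008054320))))
def t73 : k73.all (jb2 57 fl b0) = true := by decide +kernel
noncomputable def k74 : KT := (.one (nat_lit 0x402b0000000008056320))
def t74 : k74.all (jb2 57 fl b0) = true := by decide +kernel
noncomputable def k75 : KT := (.one (nat_lit 0x5026000000000a04c320))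
def t75 : k75.all (jb2 57 fl b0) = true := by decide +kernel
noncomputable def k76 : KT := (.one (nat_lit 0x5027000000000a04e320))
def t76 : k76.all (jb2 57 fl b0) = true := by decide +kernel
noncomputable def k77 : KT := (.br (Nat.shiftLeft (nat_lit 0x5029) (nat_lit 64)) (.one (nat_lit 0x5028000000000a050320)) (.one (nat_lit 0x5029000000000a052320)))
def t77 : k77.all (jb2 57 fl b0) = true := by decide +kernel
noncomputable def k78 : KT := (.br (Nat.shiftLeft (nat_lit 0x502b) (nat_lit 64)) (.one (nat_lit 0x502a000000000a054320)) (.br (Nat.shiftLeft (nat_lit 0x3) (nat_lit 77)) (.one (nat_lit 0x502b000000000a056320)) (.one (nat_lit 0x6026000000000c04d300))))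
def t78 : k78.all (jb2 57 fl b0) = true := by decide +kernel
noncomputable def k79 : KT := (.one (nat_lit 0x6027000000000c04e320))
def t79 : k79.all (jb2 57 fl b0) = true := by decide +kernel
noncomputable def k80 : KT := (.one (nat_lit 0x6028000000000c050320))
def t80 : k80.all (jb2 57 fl b0) = true := by decide +kernel
noncomputable def k81 : KT := (.br (Nat.shiftLeft (nat_lit 0x3015) (nat_lit 65)) (.one (nat_lit 0x6029000000000c052320)) (.br (Nat.shiftLeft (nat_lit 0x602b) (nat_lit 64)) (.one (nat_lit 0x602a000000000c054320)) (.one (nat_lit 0x602b000000000c056320))))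
def t81 : k81.all (jb2 57 fl b0) = true := by decide +kernel
noncomputable def k82 : KT := (.one (nat_lit 0x7026000000000e04c320))
def t82 : k82.all (jb2 57 fl b0) = true := by decide +kernel
noncomputable def k83 : KT := (.one (nat_lit 0x7027000000000e04e320))
def t83 : k83.all (jb2 57 fl b0) = true := by decide +kernel
noncomputable def k84 : KT := (.br (Nat.shiftLeft (nat_lit 0x7029) (nat_lit 64)) (.one (nat_lit 0x7028000000000e050320)) (.one (nat_lit 0x7029000000000e052320)))
def t84 : k84.all (jb2 57 fl b0) = true := by decide +kernel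
noncomputable def k85 : KT := (.br (Nat.shiftLeft (nat_lit 0x702b) (nat_lit 64)) (.one (nat_lit 0x702a000000000e054320)) (.one (nat_lit 0x702b000000000e056320)))
def t85 : k85.all (jb2 57 fl b0) = true := by decide +kernel
noncomputable def k86 : KT := (.one (nat_lit 0x8026000000001004c320))
def t86 : k86.all (jb2 57 fl b0) = true := by decide +kernel
noncomputable def k87 : KT := (.br (Nat.shiftLeft (nat_lit 0x1005) (nat_lit 67)) (.one (nat_lit 0x8027000000001004e320)) (.one (nat_lit 0x80280000000010050320)))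
def t87 : k87.all (jb2 57 fl b0) = true := by decide +kernel
noncomputable def k88 : KT := (.br (Nat.shiftLeft (nat_lit 0x4015) (nat_lit 65)) (.one (nat_lit 0x80290000000010052320)) (.br (Nat.shiftLeft (nat_lit 0x802b) (nat_lit 64)) (.one (nat_lit 0x802a0000000010054320)) (.one (nat_lit 0x802b0000000010056320))))
def t88 : k88.all (jb2 57 fl b0) = true := by decide +kernel
noncomputable def k89 : KT := (.br (Nat.shiftLeft (nat_lit 0x9027) (nat_lit 64)) (.one (nat_lit 0x9026000000001204c320)) (.one (nat_lit 0x9027000000001204e320)))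
def t89 : k89.all (jb2 57 fl b0) = true := by decide +kernel
noncomputable def k90 : KT := (.br (Nat.shiftLeft (nat_lit 0x4815) (nat_lit 65)) (.br (Nat.shiftLeft (nat_lit 0x9029) (nat_lit 64)) (.one (nat_lit 0x90280000000012050320)) (.one (nat_lit 0x90290000000012052320))) (.br (Nat.shiftLeft (nat_lit 0x902b) (nat_lit 64)) (.one (nat_lit 0x902a0000000012054320)) (.br (Nat.shiftLeft (nat_lit 0x5) (nat_lit 77)) (.one (nat_lit 0x902b0000000012056320)) (.one (nat_lit 0xa026000000001404c320)))))
def t90 : k90.all (jb2 57 fl b0) = true := by decide +kernel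
noncomputable def k91 : KT := (.br (Nat.shiftLeft (nat_lit 0x5015) (nat_lit 65)) (.br (Nat.shiftLeft (nat_lit 0x1405) (nat_lit 67)) (.one (nat_lit 0xa027000000001404e320)) (.br (Nat.shiftLeft (nat_lit 0xa029) (nat_lit 64)) (.one (nat_lit 0xa0280000000014050320)) (.one (nat_lit 0xa0290000000014052320)))) (.br (Nat.shiftLeft (nat_lit 0xa02b) (nat_lit 64)) (.one (nat_lit 0xa02a0000000014054320)) (.br (Nat.shiftLeft (nat_lit 0xb) (nat_lit 76)) (.one (nat_lit 0xa02b0000000014056320)) (.one (nat_lit 0xb026000000001604c320)))))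
def t91 : k91.all (jb2 57 fl b0) = true := by decide +kernel
noncomputable def k92 : KT := (.br (Nat.shiftLeft (nat_lit 0x1805) (nat_lit 67)) (.br (Nat.shiftLeft (nat_lit 0x5815) (nat_lit 65)) (.br (Nat.shiftLeft (nat_lit 0x1605) (nat_lit 67)) (.one (nat_lit 0xb027000000001604e320)) (.br (Nat.shiftLeft (nat_lit 0xb029) (nat_lit 64)) (.one (nat_lit 0xb0280000000016050320)) (.one (nat_lit 0xb0290000000016052320)))) (.br (Nat.shiftLeft (nat_lit 0x3) (nat_lit 78)) (.br (Nat.shiftLeft (nat_lit 0xb02b) (nat_lit 64)) (.one (nat_lit 0xb02a0000000016054320)) (.one (nat_lit 0xb02b0000000016056320))) (.br (Nat.shiftLeft (nat_lit 0xc027) (nat_lit 64)) (.one (nat_lit 0xc026000000001804c320)) (.one (nat_lit 0xc027000000001804e320))))) (.br (Nat.shiftLeft (nat_lit 0xd) (nat_lit 76)) (.br (Nat.shiftLeft (nat_lit 0x6015) (nat_lit 65)) (.br (Nat.shiftLeft (nat_lit 0xc029) (nat_lit 64)) (.one (nat_lit 0xc0280000000018050320)) (.one (nat_lit 0xc0290000000018052320))) (.br (Nat.shiftLeft (nat_lit 0xc02b) (nat_lit 64)) (.one (nat_lit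 0xc02a0000000018054320)) (.one (nat_lit 0xc02b0000000018056320)))) (.br (Nat.shiftLeft (nat_lit 0x1a05) (nat_lit 67)) (.br (Nat.shiftLeft (nat_lit 0xd027) (nat_lit 64)) (.one (nat_lit 0xd026000000001a04c320)) (.one (nat_lit 0xd027000000001a04e320))) (.br (Nat.shiftLeft (nat_lit 0xd029) (nat_lit 64)) (.one (nat_lit 0xd028000000001a050320)) (.one (nat_lit 0xd029000000001a052320))))))
def t92 : k92.all (jb2 57 fl b0) = true := by decide +kernel
noncomputable def k93 : KT := (.br (Nat.shiftLeft (nat_lit 0x1) (nat_lit 80)) (.br (Nat.shiftLeft (nat_lit 0x7015) (nat_lit 65)) (.br (Nat.shiftLeft (nat_lit 0xe027) (nat_lit 64)) (.br (Nat.shiftLeft (nat_lit 0xd02b) (nat_lit 64)) (.one (nat_lit 0xd02a000000001a054320)) (.br (Nat.shiftLeft (nat_lit 0x7) (nat_lit 77)) (.one (nat_lit 0xd02b000000001a056320)) (.one (nat_lit 0xe026000000001c04c320)))) (.br (Nat.shiftLeft (nat_lit 0x1c05) (nat_lit 67)) (.one (nat_lit 0xe027000000001c04e320)) (.br (Nat.shiftLeft (nat_lit 0xe029) (nat_lit 64)) (.one (nat_lit 0xe028000000001c050320))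 (.one (nat_lit 0xe029000000001c052320))))) (.br (Nat.shiftLeft (nat_lit 0xf027) (nat_lit 64)) (.br (Nat.shiftLeft (nat_lit 0xe02b) (nat_lit 64)) (.one (nat_lit 0xe02a000000001c054320)) (.br (Nat.shiftLeft (nat_lit 0xf) (nat_lit 76)) (.one (nat_lit 0xe02b000000001c056320)) (.one (nat_lit 0xf026000000001e04c320)))) (.br (Nat.shiftLeft (nat_lit 0xf029) (nat_lit 64)) (.br (Nat.shiftLeft (nat_lit 0x1e05) (nat_lit 67)) (.one (nat_lit 0xf027000000001e04e320)) (.one (nat_lit 0xf028000000001e050320))) (.br (Nat.shiftLeft (nat_lit 0x7815) (nat_lit 65)) (.one (nat_lit 0xf029000000001e052320)) (.one (nat_lit 0xf02a000000001e054320)))))) (.br (Nat.shiftLeft (nat_lit 0x2205) (nat_lit 67)) (.br (Nat.shiftLeft (nat_lit 0x10029) (nat_lit 64)) (.br (Nat.shiftLeft (nat_lit 0x10027) (nat_lit 64)) (.one (nat_lit 0x10026000000002004c320)) (.br (Nat.shiftLeft (nat_lit 0x2005) (nat_lit 67)) (.one (nat_lit 0x10027000000002004e320)) (.one (nat_lit 0x100280000000020050320)))) (.br (Nat.shiftLeft (nat_lit 0x11) (nat_lit 76)) (.one (nat_lit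 0x100290000000020052320)) (.br (Nat.shiftLeft (nat_lit 0x11027) (nat_lit 64)) (.one (nat_lit 0x11026000000002204c320)) (.one (nat_lit 0x11027000000002204e320))))) (.br (Nat.shiftLeft (nat_lit 0x13) (nat_lit 76)) (.br (Nat.shiftLeft (nat_lit 0x9) (nat_lit 77)) (.one (nat_lit 0x110280000000022050320)) (.br (Nat.shiftLeft (nat_lit 0x12027) (nat_lit 64)) (.one (nat_lit 0x12026000000002404c320)) (.one (nat_lit 0x12027000000002404e320)))) (.br (Nat.shiftLeft (nat_lit 0x1) (nat_lit 89)) (.br (Nat.shiftLeft (nat_lit 0x1) (nat_lit 88)) (.one (nat_lit 0x13026000000002604c320)) (.one (nat_lit 0x1006026000000200c04c430))) (.br (Nat.shiftLeft (nat_lit 0x3) (nat_lit 88)) (.one (nat_lit 0x2006026000000400c04c430)) (.one (nat_lit 0x3006026000000600c04c430)))))))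
def t93 : k93.all (jb2 57 fl b0) = true := by decide +kernel
noncomputable def k94 : KT := (.br (Nat.shiftLeft (nat_lit 0x3) (nat_lit 100)) (.br (Nat.shiftLeft (nat_lit 0x1) (nat_lit 100)) (.br (Nat.shiftLeft (nat_lit 0x5) (nat_lit 88)) (.one (nat_lit 0x4006026000000800c04c430)) (.one (nat_lit 0x5006026000000a00c04c430))) (.br (Nat.shiftLeft (nat_lit 0x1) (nat_lit 101)) (.one (nat_lit 0x1000006026000200000c04c311)) (.one (nat_lit 0x2000006026000400000c04c311)))) (.br (Nat.shiftLeft (nat_lit 0x5) (nat_lit 100)) (.br (Nat.shiftLeft (nat_lit 0x1) (nat_lit 102)) (.one (nat_lit 0x3000006026000600000c04c311)) (.one (nat_lit 0x4000006026000800000c04c311))) (.br (Nat.shiftLeft (nat_lit 0x3) (nat_lit 101)) (.one (nat_lit 0x5000006026000a00000c04c311)) (.one (nat_lit 0x6000006026000c00000c04c311)))))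
def t94 : k94.all (jb2 57 fl b0) = true := by decide +kernel
noncomputable def s4 : KT := (.br (nat_lit 0x602b000000000c056320) (.br (nat_lit 0x402b0000000008056320) (.br (nat_lit 0x3027000000000604e320) (.br (nat_lit 0x2c0000000000058210) k69 (.br (nat_lit 0x2d000000000005a210) k70 k71)) (.br (nat_lit 0x4027000000000804e320) k72 (.br (nat_lit 0x402a0000000008054320) k73 k74))) (.br (nat_lit 0x5029000000000a052320) (.br (nat_lit 0x5026000000000a04c320) k75 (.br (nat_lit 0x5027000000000a04e320) k76 k77)) (.br (nat_lit 0x6027000000000c04e320) (.br (nat_lit 0x6026000000000c04d300) k78 k79) (.br (nat_lit 0x6028000000000c050320) k80 k81)))) (.br (nat_lit 0x80280000000010050320) (.br (nat_lit 0x7029000000000e052320) (.br (nat_lit 0x7026000000000e04c320) k82 (.br (nat_lit 0x7027000000000e04e320) k83 k84)) (.br (nat_lit 0x702b000000000e056320) k85 (.br (nat_lit 0x8026000000001004c320) k86 k87))) (.br (nat_lit 0xa026000000001404c320) (.br (nat_lit 0x802b0000000010056320) k88 (.br (nat_lit 0x9027000000001204e320) k89 k90))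 (.br (nat_lit 0xd029000000001a052320) (.br (nat_lit 0xb026000000001604c320) k91 k92) (.br (nat_lit 0x3006026000000600c04c430) k93 k94)))))
noncomputable def u4 : KT := (.br (Nat.shiftLeft (nat_lit 0x2b) (nat_lit 64)) (.br (Nat.shiftLeft (nat_lit 0x5) (nat_lit 67)) (.br (Nat.shiftLeft (nat_lit 0x27) (nat_lit 64)) (.one (nat_lit 0x26000000000004c210)) (.one (nat_lit 0x27000000000004e210))) (.br (Nat.shiftLeft (nat_lit 0x29) (nat_lit 64)) (.one (nat_lit 0x280000000000050210)) (.br (Nat.shiftLeft (nat_lit 0x15) (nat_lit 65)) (.one (nat_lit 0x290000000000052210)) (.one (nat_lit 0x2a0000000000054210))))) (.br (Nat.shiftLeft (nat_lit 0x2d) (nat_lit 64)) (.br (Nat.shiftLeft (nat_lit 0xb) (nat_lit 66)) (.one (nat_lit 0x2b0000000000056210)) (.one (nat_lit 0x2c0000000000058210))) (.br (Nat.shiftLeft (nat_lit 0x17) (nat_lit 65)) (.one (nat_lit 0x2d000000000005a210)) (.br (Nat.shiftLeft (nat_lit 0x2f) (nat_lit 64)) (.one (nat_lit 0x2e000000000005c210)) (.one (nat_lit 0x2f000000000005e210))))))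
def w4 : u4.all (wj 57 s4) = true := by decide +kernel
def o4 : OkW 57 (jb2 57 fl) u4 := .lift s4 _ (.br _ _ _ (.br _ _ _ (.br _ _ _ (.br _ _ _ (.leaf b0 k69 t69) (.br _ _ _ (.leaf b0 k70 t70) (.leaf b0 k71 t71))) (.br _ _ _ (.leaf b0 k72 t72) (.br _ _ _ (.leaf b0 k73 t73) (.leaf b0 k74 t74)))) (.br _ _ _ (.br _ _ _ (.leaf b0 k75 t75) (.br _ _ _ (.leaf b0 k76 t76) (.leaf b0 k77 t77))) (.br _ _ _ (.br _ _ _ (.leaf b0 k78 t78) (.leaf b0 k79 t79)) (.br _ _ _ (.leaf b0 k80 t80) (.leaf b0 k81 t81))))) (.br _ _ _ (.br _ _ _ (.br _ _ _ (.leaf b0 k82 t82) (.br _ _ _ (.leaf b0 k83 t83) (.leaf b0 k84 t84))) (.br _ _ _ (.leaf b0 k85 t85) (.br _ _ _ (.leaf b0 k86 t86) (.leaf b0 k87 t87)))) (.br _ _ _ (.br _ _ _ (.leaf b0 k88 t88) (.br _ _ _ (.leaf b0 k89 t89) (.leaf b0 k90 t90))) (.br _ _ _ (.br _ _ _ (.leaf b0 k91 t91) (.leaf b0 k92 t92)) (.br _ _ _ (.leaf b0 k93 t93) (.leaf b0 k94 t94)))))) w4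
noncomputable def k95 : KT := (.br (Nat.shiftLeft (nat_lit 0x1011) (nat_lit 64)) (.br (Nat.shiftLeft (nat_lit 0x1) (nat_lit 76)) (.br (Nat.shiftLeft (nat_lit 0x35) (nat_lit 64)) (.br (Nat.shiftLeft (nat_lit 0x19) (nat_lit 65)) (.br (Nat.shiftLeft (nat_lit 0x31) (nat_lit 64)) (.one (nat_lit 0x300000000000060210)) (.one (nat_lit 0x310000000000062210))) (.br (Nat.shiftLeft (nat_lit 0x33) (nat_lit 64)) (.one (nat_lit 0x320000000000064210)) (.br (Nat.shiftLeft (nat_lit 0xd) (nat_lit 66)) (.one (nat_lit 0x330000000000066210)) (.one (nat_lit 0x340000000000068210))))) (.br (Nat.shiftLeft (nat_lit 0x37) (nat_lit 64)) (.br (Nat.shiftLeft (nat_lit 0x1b) (nat_lit 65)) (.one (nat_lit 0x35000000000006a210)) (.one (nat_lit 0x36000000000006c210))) (.br (Nat.shiftLeft (nat_lit 0x7) (nat_lit 67)) (.one (nat_lit 0x37000000000006e210)) (.br (Nat.shiftLeft (nat_lit 0x39) (nat_lit 64)) (.one (nat_lit 0x380000000000070210)) (.one (nat_lit 0x390000000000072210)))))) (.br (Nat.shiftLeft (nat_lit 0x403) (nat_lit 66)) (.br (Nat.shiftLeft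 (nat_lit 0x1009) (nat_lit 64)) (.br (Nat.shiftLeft (nat_lit 0x201) (nat_lit 67)) (.one (nat_lit 0x1007000000000200e320)) (.one (nat_lit 0x10080000000002010320))) (.br (Nat.shiftLeft (nat_lit 0x805) (nat_lit 65)) (.one (nat_lit 0x10090000000002012320)) (.br (Nat.shiftLeft (nat_lit 0x100b) (nat_lit 64)) (.one (nat_lit 0x100a0000000002014320)) (.one (nat_lit 0x100b0000000002016320))))) (.br (Nat.shiftLeft (nat_lit 0x807) (nat_lit 65)) (.br (Nat.shiftLeft (nat_lit 0x100d) (nat_lit 64)) (.one (nat_lit 0x100c0000000002018320)) (.one (nat_lit 0x100d000000000201a320))) (.br (Nat.shiftLeft (nat_lit 0x100f) (nat_lit 64)) (.one (nat_lit 0x100e000000000201c320)) (.br (Nat.shiftLeft (nat_lit 0x101) (nat_lit 68)) (.one (nat_lit 0x100f000000000201e320)) (.one (nat_lit 0x10100000000002020320))))))) (.br (Nat.shiftLeft (nat_lit 0x101b) (nat_lit 64)) (.br (Nat.shiftLeft (nat_lit 0x80b) (nat_lit 65)) (.br (Nat.shiftLeft (nat_lit 0x1013) (nat_lit 64)) (.br (Nat.shiftLeft (nat_lit 0x809) (nat_lit 65)) (.one (nat_lit 0x10110000000002022320))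 (.one (nat_lit 0x10120000000002024320))) (.br (Nat.shiftLeft (nat_lit 0x405) (nat_lit 66)) (.one (nat_lit 0x10130000000002026320)) (.br (Nat.shiftLeft (nat_lit 0x1015) (nat_lit 64)) (.one (nat_lit 0x10140000000002028320)) (.one (nat_lit 0x1015000000000202a320))))) (.br (Nat.shiftLeft (nat_lit 0x203) (nat_lit 67)) (.br (Nat.shiftLeft (nat_lit 0x1017) (nat_lit 64)) (.one (nat_lit 0x1016000000000202c320)) (.one (nat_lit 0x1017000000000202e320))) (.br (Nat.shiftLeft (nat_lit 0x1019) (nat_lit 64)) (.one (nat_lit 0x10180000000002030320)) (.br (Nat.shiftLeft (nat_lit 0x80d) (nat_lit 65)) (.one (nat_lit 0x10190000000002032320)) (.one (nat_lit 0x101a0000000002034320)))))) (.br (Nat.shiftLeft (nat_lit 0x81) (nat_lit 69)) (.br (Nat.shiftLeft (nat_lit 0x101d) (nat_lit 64)) (.br (Nat.shiftLeft (nat_lit 0x407) (nat_lit 66)) (.one (nat_lit 0x101b0000000002036320)) (.one (nat_lit 0x101c0000000002038320))) (.br (Nat.shiftLeft (nat_lit 0x80f) (nat_lit 65)) (.one (nat_lit 0x101d000000000203a320)) (.br (Nat.shiftLeft (nat_lit 0x101f)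 (nat_lit 64)) (.one (nat_lit 0x101e000000000203c320)) (.one (nat_lit 0x101f000000000203e320))))) (.br (Nat.shiftLeft (nat_lit 0x1) (nat_lit 77)) (.br (Nat.shiftLeft (nat_lit 0x1021) (nat_lit 64)) (.one (nat_lit 0x10200000000002040320)) (.one (nat_lit 0x10210000000002042320))) (.br (Nat.shiftLeft (nat_lit 0x401) (nat_lit 67)) (.one (nat_lit 0x2007000000000400e320)) (.br (Nat.shiftLeft (nat_lit 0x2009) (nat_lit 64)) (.one (nat_lit 0x20080000000004010320)) (.one (nat_lit 0x20090000000004012320))))))))
def t95 : k95.all (jb2 57 fl b0) = true := by decide +kernel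
noncomputable def k96 : KT := (.br (Nat.shiftLeft (nat_lit 0x100b) (nat_lit 65)) (.br (Nat.shiftLeft (nat_lit 0x201) (nat_lit 68)) (.br (Nat.shiftLeft (nat_lit 0x200d) (nat_lit 64)) (.br (Nat.shiftLeft (nat_lit 0x200b) (nat_lit 64)) (.one (nat_lit 0x200a0000000004014320)) (.br (Nat.shiftLeft (nat_lit 0x803) (nat_lit 66)) (.one (nat_lit 0x200b0000000004016320)) (.one (nat_lit 0x200c0000000004018320)))) (.br (Nat.shiftLeft (nat_lit 0x1007) (nat_lit 65)) (.one (nat_lit 0x200d000000000401a320)) (.br (Nat.shiftLeft (nat_lit 0x200f) (nat_lit 64)) (.one (nat_lit 0x200e000000000401c320)) (.one (nat_lit 0x200f000000000401e320))))) (.br (Nat.shiftLeft (nat_lit 0x2013) (nat_lit 64)) (.br (Nat.shiftLeft (nat_lit 0x2011) (nat_lit 64)) (.one (nat_lit 0x20100000000004020320)) (.br (Nat.shiftLeft (nat_lit 0x1009) (nat_lit 65)) (.one (nat_lit 0x20110000000004022320)) (.one (nat_lit 0x20120000000004024320)))) (.br (Nat.shiftLeft (nat_lit 0x805) (nat_lit 66)) (.one (nat_lit 0x20130000000004026320)) (.br (Nat.shiftLeft (nat_lit 0x2015)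 (nat_lit 64)) (.one (nat_lit 0x20140000000004028320)) (.one (nat_lit 0x2015000000000402a320)))))) (.br (Nat.shiftLeft (nat_lit 0x807) (nat_lit 66)) (.br (Nat.shiftLeft (nat_lit 0x2019) (nat_lit 64)) (.br (Nat.shiftLeft (nat_lit 0x2017) (nat_lit 64)) (.one (nat_lit 0x2016000000000402c320)) (.br (Nat.shiftLeft (nat_lit 0x403) (nat_lit 67)) (.one (nat_lit 0x2017000000000402e320)) (.one (nat_lit 0x20180000000004030320)))) (.br (Nat.shiftLeft (nat_lit 0x100d) (nat_lit 65)) (.one (nat_lit 0x20190000000004032320)) (.br (Nat.shiftLeft (nat_lit 0x201b) (nat_lit 64)) (.one (nat_lit 0x201a0000000004034320)) (.one (nat_lit 0x201b0000000004036320))))) (.br (Nat.shiftLeft (nat_lit 0x201f) (nat_lit 64)) (.br (Nat.shiftLeft (nat_lit 0x201d) (nat_lit 64)) (.one (nat_lit 0x201c0000000004038320)) (.br (Nat.shiftLeft (nat_lit 0x100f) (nat_lit 65)) (.one (nat_lit 0x201d000000000403a320)) (.one (nat_lit 0x201e000000000403c320)))) (.br (Nat.shiftLeft (nat_lit 0x101) (nat_lit 69)) (.one (nat_lit 0x201f000000000403e320)) (.br (Nat.shiftLeft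 (nat_lit 0x2021) (nat_lit 64)) (.one (nat_lit 0x20200000000004040320)) (.one (nat_lit 0x20210000000004042320)))))))
def t96 : k96.all (jb2 57 fl b0) = true := by decide +kernel
noncomputable def u5 : KT := (.br (nat_lit 0x20090000000004012320) k95 k96)
def o5 : OkW 57 (jb2 57 fl) u5 := (.br _ _ _ (.leaf b0 k95 t95) (.leaf b0 k96 t96))
noncomputable def k97 : KT := (.br (Nat.shiftLeft (nat_lit 0x1809) (nat_lit 65)) (.br (Nat.shiftLeft (nat_lit 0xc03) (nat_lit 66)) (.br (Nat.shiftLeft (nat_lit 0x3009) (nat_lit 64)) (.br (Nat.shiftLeft (nat_lit 0x601) (nat_lit 67)) (.one (nat_lit 0x3007000000000600e320)) (.one (nat_lit 0x30080000000006010320))) (.br (Nat.shiftLeft (nat_lit 0x1805) (nat_lit 65)) (.one (nat_lit 0x30090000000006012320)) (.br (Nat.shiftLeft (nat_lit 0x300b) (nat_lit 64)) (.one (nat_lit 0x300a0000000006014320)) (.one (nat_lit 0x300b0000000006016320))))) (.br (Nat.shiftLeft (nat_lit 0x300f) (nat_lit 64)) (.br (Nat.shiftLeft (nat_lit 0x300d) (nat_lit 64)) (.one (nat_lit 0x300c0000000006018320)) (.br (Nat.shiftLeft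 (nat_lit 0x1807) (nat_lit 65)) (.one (nat_lit 0x300d000000000601a320)) (.one (nat_lit 0x300e000000000601c320)))) (.br (Nat.shiftLeft (nat_lit 0x301) (nat_lit 68)) (.one (nat_lit 0x300f000000000601e320)) (.br (Nat.shiftLeft (nat_lit 0x3011) (nat_lit 64)) (.one (nat_lit 0x30100000000006020320)) (.one (nat_lit 0x30110000000006022320)))))) (.br (Nat.shiftLeft (nat_lit 0x603) (nat_lit 67)) (.br (Nat.shiftLeft (nat_lit 0x3015) (nat_lit 64)) (.br (Nat.shiftLeft (nat_lit 0x3013) (nat_lit 64)) (.one (nat_lit 0x30120000000006024320)) (.br (Nat.shiftLeft (nat_lit 0xc05) (nat_lit 66)) (.one (nat_lit 0x30130000000006026320)) (.one (nat_lit 0x30140000000006028320)))) (.br (Nat.shiftLeft (nat_lit 0x180b) (nat_lit 65)) (.one (nat_lit 0x3015000000000602a320)) (.br (Nat.shiftLeft (nat_lit 0x3017) (nat_lit 64)) (.one (nat_lit 0x3016000000000602c320)) (.one (nat_lit 0x3017000000000602e320))))) (.br (Nat.shiftLeft (nat_lit 0x301b) (nat_lit 64)) (.br (Nat.shiftLeft (nat_lit 0x3019) (nat_lit 64)) (.one (nat_lit 0x30180000000006030320))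 (.br (Nat.shiftLeft (nat_lit 0x180d) (nat_lit 65)) (.one (nat_lit 0x30190000000006032320)) (.one (nat_lit 0x301a0000000006034320)))) (.br (Nat.shiftLeft (nat_lit 0xc07) (nat_lit 66)) (.one (nat_lit 0x301b0000000006036320)) (.br (Nat.shiftLeft (nat_lit 0x301d) (nat_lit 64)) (.one (nat_lit 0x301c0000000006038320)) (.one (nat_lit 0x301d000000000603a320)))))))
def t97 : k97.all (jb2 57 fl b0) = true := by decide +kernel
noncomputable def k98 : KT := (.br (Nat.shiftLeft (nat_lit 0x3021) (nat_lit 64)) (.br (Nat.shiftLeft (nat_lit 0x301f) (nat_lit 64)) (.one (nat_lit 0x301e000000000603c320)) (.br (Nat.shiftLeft (nat_lit 0x181) (nat_lit 69)) (.one (nat_lit 0x301f000000000603e320)) (.one (nat_lit 0x30200000000006040320)))) (.br (Nat.shiftLeft (nat_lit 0x801) (nat_lit 67)) (.br (Nat.shiftLeft (nat_lit 0x1) (nat_lit 78)) (.one (nat_lit 0x30210000000006042320)) (.one (nat_lit 0x4007000000000800e320))) (.br (Nat.shiftLeft (nat_lit 0x4009) (nat_lit 64)) (.one (nat_lit 0x40080000000008010320)) (.one (nat_lit 0x40090000000008012320)))))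
def t98 : k98.all (jb2 57 fl b0) = true := by decide +kernel
noncomputable def k99 : KT := (.br (Nat.shiftLeft (nat_lit 0x1003) (nat_lit 66)) (.br (Nat.shiftLeft (nat_lit 0x400b) (nat_lit 64)) (.one (nat_lit 0x400a0000000008014320)) (.one (nat_lit 0x400b0000000008016320))) (.br (Nat.shiftLeft (nat_lit 0x400d) (nat_lit 64)) (.one (nat_lit 0x400c0000000008018320)) (.one (nat_lit 0x400d000000000801a320))))
def t99 : k99.all (jb2 57 fl b0) = true := by decide +kernel
noncomputable def k100 : KT := (.br (Nat.shiftLeft (nat_lit 0x400f) (nat_lit 64)) (.one (nat_lit 0x400e000000000801c320)) (.br (Nat.shiftLeft (nat_lit 0x401) (nat_lit 68)) (.one (nat_lit 0x400f000000000801e320)) (.one (nat_lit 0x40100000000008020320))))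
def t100 : k100.all (jb2 57 fl b0) = true := by decide +kernel
noncomputable def k101 : KT := (.br (Nat.shiftLeft (nat_lit 0x2009) (nat_lit 65)) (.one (nat_lit 0x40110000000008022320)) (.one (nat_lit 0x40120000000008024320)))
def t101 : k101.all (jb2 57 fl b0) = true := by decide +kernel
noncomputable def k102 : KT := (.br (Nat.shiftLeft (nat_lit 0x1005) (nat_lit 66)) (.one (nat_lit 0x40130000000008026320)) (.one (nat_lit 0x40140000000008028320)))
def t102 : k102.all (jb2 57 fl b0) = true := by decide +kernel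
noncomputable def k103 : KT := (.br (Nat.shiftLeft (nat_lit 0x200b) (nat_lit 65)) (.one (nat_lit 0x4015000000000802a320)) (.one (nat_lit 0x4016000000000802c320)))
def t103 : k103.all (jb2 57 fl b0) = true := by decide +kernel
noncomputable def k104 : KT := (.br (Nat.shiftLeft (nat_lit 0x803) (nat_lit 67)) (.one (nat_lit 0x4017000000000802e320)) (.one (nat_lit 0x40180000000008030320)))
def t104 : k104.all (jb2 57 fl b0) = true := by decide +kernel
noncomputable def k105 : KT := (.br (Nat.shiftLeft (nat_lit 0x200d) (nat_lit 65)) (.one (nat_lit 0x40190000000008032320)) (.one (nat_lit 0x401a0000000008034320)))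
def t105 : k105.all (jb2 57 fl b0) = true := by decide +kernel
noncomputable def k106 : KT := (.br (Nat.shiftLeft (nat_lit 0x1007) (nat_lit 66)) (.one (nat_lit 0x401b0000000008036320)) (.one (nat_lit 0x401c0000000008038320)))
def t106 : k106.all (jb2 57 fl b0) = true := by decide +kernel
noncomputable def k107 : KT := (.br (Nat.shiftLeft (nat_lit 0x200f) (nat_lit 65)) (.one (nat_lit 0x401d000000000803a320)) (.one (nat_lit 0x401e000000000803c320)))
def t107 : k107.all (jb2 57 fl b0) = true := by decide +kernel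
noncomputable def k108 : KT := (.br (Nat.shiftLeft (nat_lit 0x201) (nat_lit 69)) (.one (nat_lit 0x401f000000000803e320)) (.one (nat_lit 0x40200000000008040320)))
def t108 : k108.all (jb2 57 fl b0) = true := by decide +kernel
noncomputable def k109 : KT := (.br (Nat.shiftLeft (nat_lit 0x3) (nat_lit 88)) (.br (Nat.shiftLeft (nat_lit 0x1) (nat_lit 88)) (.one (nat_lit 0x40210000000008042320)) (.br (Nat.shiftLeft (nat_lit 0x1) (nat_lit 89)) (.one (nat_lit 0x1005007000000200a00e430)) (.one (nat_lit 0x2005007000000400a00e430)))) (.br (Nat.shiftLeft (nat_lit 0x401) (nat_lit 90)) (.br (Nat.shiftLeft (nat_lit 0x1) (nat_lit 100)) (.one (nat_lit 0x3005007000000600a00e430)) (.one (nat_lit 0x1000005007000200000a00e311))) (.br (Nat.shiftLeft (nat_lit 0x1) (nat_lit 101)) (.one (nat_lit 0x1004005007000200800a00e540)) (.one (nat_lit 0x2000005007000400000a00e311)))))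
def t109 : k109.all (jb2 57 fl b0) = true := by decide +kernel
noncomputable def k110 : KT := (.br (Nat.shiftLeft (nat_lit 0x1) (nat_lit 102)) (.br (Nat.shiftLeft (nat_lit 0x3) (nat_lit 100)) (.one (nat_lit 0x2004005007000400800a00e540)) (.one (nat_lit 0x3000005007000600000a00e311))) (.br (Nat.shiftLeft (nat_lit 0x5) (nat_lit 100)) (.one (nat_lit 0x4000005007000800000a00e311)) (.br (Nat.shiftLeft (nat_lit 0x1) (nat_lit 112)) (.one (nat_lit 0x5000005007000a00000a00e311)) (.one (nat_lit 0x1000004005007200000800a00e411)))))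
noncomputable def b111 : BT := .node (nat_lit 0xb) (nat_lit 0xde127295c40039db0008e5c1de125b24d00032d8000aa68199125b1394003299000c96c1de125ba58c00325b000ab641de128a24d0003317000aa681002d0002d00027000210002100021000210001b0001b00015000150000f0) .leaf .leaf
def t110 : k110.all (jb2 57 fl b111) = true := by decide +kernel
noncomputable def k111 : KT := (.br (Nat.shiftLeft (nat_lit 0x5) (nat_lit 112)) (.br (Nat.shiftLeft (nat_lit 0x3) (nat_lit 112)) (.br (Nat.shiftLeft (nat_lit 0x1) (nat_lit 113)) (.one (nat_lit 0x1003004005007200600800a00e650)) (.one (nat_lit 0x2000004005007400000800a00e411))) (.br (Nat.shiftLeft (nat_lit 0x1) (nat_lit 114)) (.one (nat_lit 0x3000004005007600000800a00e411)) (.one (nat_lit 0x4000004005007800000800a00e411)))) (.br (Nat.shiftLeft (nat_lit 0x1) (nat_lit 125)) (.br (Nat.shiftLeft (nat_lit 0x1) (nat_lit 124)) (.one (nat_lit 0x5000004005007a00000800a00e411)) (.one (nat_lit 0x1000003004005007000600802a40e511))) (.br (Nat.shiftLeft (nat_lit 0x3) (nat_lit 124)) (.one (nat_lit 0x2000003004005007000600804a80e511))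 (.br (Nat.shiftLeft (nat_lit 0x1) (nat_lit 126)) (.one (nat_lit 0x3000003004005007000600806ac0e511)) (.one (nat_lit 0x4000003004005007000600808b00e511))))))
noncomputable def b112 : BT := .node (nat_lit 0x19) (nat_lit 0x48c49ca992000ca64002b18076c896c5436d9258d268001ced800473000196c000653216f093952c6de128a26480132d8002ab640032d8002ac602db225b9508003a1a0008e5c1de149aa7040039db000ad5c193425b150c0039db000ae581db2272a4d1bc2514289802662e00956c80065b000158c05bc24e52b8b6c896c571000c86c002b57000e76c0023d60a64496e4e5000ca6400325b0664496e4e4918944d32400194d00064b400194c80046b016d914512680019ab00055b20c8c4a8499291892dd2c600196c00046b000192d800463216f09451269231272a58c003317000aa680032d80008c6420096700906009060084b0084b00790007900079000790007300073000730006d00067000670005b5005b5004fa0049a003df003df0037f0037f002c30020800208) .leaf .leaf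
def t111 : k111.all (jb2 57 fl b112) = true := by decide +kernel
noncomputable def k112 : KT := (.br (Nat.shiftLeft (nat_lit 0x1) (nat_lit 137)) (.br (Nat.shiftLeft (nat_lit 0x1) (nat_lit 136)) (.one (nat_lit 0x500000300400500700060080ab40e511)) (.one (nat_lit 0x1000002003004005007400602840a00e611))) (.br (Nat.shiftLeft (nat_lit 0x3) (nat_lit 136)) (.one (nat_lit 0x2000002003004005007400604880a00e611)) (.br (Nat.shiftLeft (nat_lit 0x1) (nat_lit 138)) (.one (nat_lit 0x30000020030040050074006068c0a00e611)) (.one (nat_lit 0x4000002003004005007400608900a00e611)))))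
noncomputable def b113 : BT := .node (nat_lit 0x19) (nat_lit 0x918950d2c723128a24d00033560028c640133560028b682de125b9395bc2934272c8c4a86963000e96400a2db004c968002b18004cc5c00a3190e4624b728a36c89ca9639189451268db249a1509bc24b649a0017434004dad00065b000158c001662e00916d00165b00055ab80365b000154d0b32257249a000672a00192d032684b62b948c4a869346f092dd268005cce00057aa0095cb00255b200594d00055341ef093952692312b9258d322963272b78496e543002cc5c00aa9a002cd5800a319004ca64003299002e76c00a359124624e54c93784a289346f092dca86db2272a4d1bc25434b180364b400d1ac003662e00d54d00273b60091ac80165b000556c80266ac00156c8b2c64b72a180073b60015ab83bc25144c948c496e9636d912dd26896228a24d00132d8002ac6000325b0028c6401329a002ab64003317002c968400c2c00b7000b7000b7000b7000b7000b7000a5a00a5a0088d0082d0082d0082d0071700717005a6005a6005a6003d9003d9003d90037900379003790020800208) .leaf .leaf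
def t112 : k112.all (jb2 57 fl b113) = true := by decide +kernel
noncomputable def k113 : KT := (.br (Nat.shiftLeft (nat_lit 0x1) (nat_lit 149)) (.br (Nat.shiftLeft (nat_lit 0x1) (nat_lit 148)) (.one (nat_lit 0x500000200300400500740060a940a00e611)) (.one (nat_lit 0x1000001002003004005007402640802a40e711))) (.br (Nat.shiftLeft (nat_lit 0x3) (nat_lit 148)) (.one (nat_lit 0x2000001002003004005007404680802a40e711)) (.one (nat_lit 0x30000010020030040050074066c0802a40e711))))
noncomputable def b114 : BT := .node (nat_lit 0x3b) (nat_lit 0x36c89ca9346f0950d324de128a27064625144c900165b000156c804662e00958c00364b40015ab80265b00111ac0923125b9451bc24e52a100064b400518d00264b400558c05bc29344c937849ca963000e868002b18000cb60002ad90b6cd26a4b6918950ca8400194c80155b200994c801472e14e092dca26001ced80055b20c8c4a86db391893952c6de16f112d9bc24b7289802572c00556c802653201158c00065b000952e00374b200956c89bc29354c936c8a2854291892dd2c600dd0d003563000194c80256ae00992d80246321d7125b94524624b74e0c8c5b66542002e86800b25a002c774012397002ca6400239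70f784ae4963000cd58002ad9064629356d9b7852684b7000ca64002ad9000c968002ada0b7852684e56f0a6489cadb225b944c00b299008ac600132d8006ca6401325b000ac60391892dd26a00194c80045b60c8c49ca9926f0a4d5325231272b6cc01b25a0068d60013a1a002ac6001ab18000ab64399125b15ca4625724b180073380019ab000572c00156c852314b1950c012b18000ac6010111601116011160111600fa500ee900ee900e2e00e2e00e2e00e2e00e2e00d7300d7300d7300d1300d1300d1300d1300d1300d1300d1300d1300d1300ba100ba100ba100ba100ba100ba100ba100ba100ba100a8b0097600976009160085a0085a0085a0085a007440074400744006e3006e3005cc005cc005cc005110051100511004b0004b0004b0004b0004b0004b0004b0004b0) .leaf .leaf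
def t113 : k113.all (jb2 57 fl b114) = true := by decide +kernel
noncomputable def k114 : KT := (.br (Nat.shiftLeft (nat_lit 0x3) (nat_lit 160)) (.br (Nat.shiftLeft (nat_lit 0x1) (nat_lit 160)) (.one (nat_lit 0x4000001002003004005007408700802a40e711)) (.br (Nat.shiftLeft (nat_lit 0x1) (nat_lit 161)) (.one (nat_lit 0x100500000100200300400500744a740802a612721)) (.one (nat_lit 0x200500000100200300400500748a740802a816721)))) (.br (Nat.shiftLeft (nat_lit 0x1) (nat_lit 172)) (.one (nat_lit 0x30050000010020030040050074ca740802aa1a721)) (.br (Nat.shiftLeft (nat_lit 0x1) (nat_lit 173)) (.one (nat_lit 0x100400500000100200300400500750a7408232c9e731)) (.one (nat_lit 0x200400500000100200300400500750a740843ad1e731)))))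
noncomputable def b115 : BT := .node (nat_lit 0x89) (nat_lit 0x378526854391892dca28de125ba4d5b649354c948c4ae49c1002ca64012b96002e868011b5a006ca64012a9b006e868002b57006cc5c01a39717784a289346d9150d2c6de12b9264a4625a149a000662e00954d004662e00558c00266ac00d58c002682600916d09bc24b72d0a58c96e514918a64896c005cae80147ae005d0d000563000958c00154b81c8c49ca9c14b192dca292312d0a58c00325a0008e5c003a1a000ac600033950008c643918a704a8523125b950db645724c93784a869c16f0a4d52c60095cb00156ae005ced802373200198b80256ae00994c80456ae011d2c80255b22c98496e513000e76c001b590778496e5146f0a70496b23128a2648003a1a0008c68003317000ab640032990008d60391894512c6de125b94524625a14c948c4a869c16f095c92c600596c0004632005d0d00146340059ab00146b000996c002472e0019ab00155b22cc8a64896d23125b96864625a14b180065b000190e00072ba000e0b800672a00118c872314c91391bc24b72d0a4d096e572000ac60002a9a000e5740023d7000e670002bd50e644b42934000cf5000325a064d096e5146f0b6cc96f2312d0b6ce4629346f148c496e543002e86800ab57002ca64002a9b002b050002ad9002c96800ab18004e76c011b9916462de249a26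4896e935000cb60002a9a000ca6400325a0b784a289636f0944d324db225b9450003317000ab64003299000ac60003a1a0008d643de225b950c0039db0008d601918a4d538296349a92ddbc24b74e0c8c4a86992918b78896c99225b9508023a1a0088e5c01b299008ca6400b1dd004ad5c0233170088d60012b1800aa97001b9db000ac606918950d2c6db228a258e4625a149a36c896e5146f0a648a840099ab003463200598b8005630009a0980245b4009d0d00246b201198b80256ae2cb192dcae4001cce00057aa0c8c5c2251491892dd26a0015ab80055b200194c80045b614c8a58c96f23125b96853224b72a1800653200192d80072ba000e0b80073b600198b873824b749ab78896e572000ca6400321b000e6700023970a4624b72b9258c96e5439189451382001cce00037b0001ced80056ae00192d000472e1ef0a4d096f23128a270646251449a00064b400556d00264b40051cb80156ae00556c87b644b72b93784a2896391895c92c6de12b8a64800b99c0028f5c00b317000ab640033560028c64013317004ac6049189451b672312a1a58e4624b749aa70496e5a1918b6cd26800d5ab80355b20055ab802563000194c80245b6009cae80256ae01194c80155b22ed912dd2692312a1b6cdbc25434b1c8c496e9926d924d5324de12b926480032d8004ab6401ab96008ab64013317006ab6401321c0028d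60013a1a002ad5c01b356002ac6069914c912d9bc24b74b1c8c4a28963000cb6000321c000c96c002ad9000cc5c0023190e4d096e5436f092dca852316d9a4d40139db004ae5801ba1a006ac60003299004ab64302c6e02aa202aa202aa202aa202aa202aa20293102931029310281b0281b0281b0270402704027040270402704027040270402537024d6024d6024d6024d6024d6024d6024d6024d6024d6024d6024d6024d6024d6024d6023c0021f3021f3020dd020dd020dd020dd020dd020dd020dd01fc601f6601f6601f6601f6601f6601d9a01d9a01d9a01d9a01d9a01d9a01d9a01d9a01cde01bc801bc801bc801bc801b6801b68019400194001940019400177301773017730177301773017130171301713017130171301713016570165701657016570165701657016570165701657016570165701657016570154101541015410154101486014860136f012590125901259012590125901259012590125901259010e8010e8010e8010e8010e800f1b00f1b00f1b00f1b00f1b00f1b00f1b00f1b00cf400cf400bde00bde00bde00bde00bde00bde00bde00ac800ac800ac800ac800ac800ac8) .leaf .leaf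
def t114 : k114.all (jb2 57 fl b115) = true := by decide +kernel
noncomputable def k115 : KT := (.br (Nat.shiftLeft (nat_lit 0x1) (nat_lit 233)) (.br (Nat.shiftLeft (nat_lit 0x1) (nat_lit 232)) (.one (nat_lit 0x300400500000100200300400500750a7408642d9e731)) (.one (nat_lit 0x100000000000000000400500000100200300400500750a94c983ac1e712))) (.br (Nat.shiftLeft (nat_lit 0x3) (nat_lit 232)) (.one (nat_lit 0x200000000000000000400500000100200300400500750ab58b04ac1e712)) (.br (Nat.shiftLeft (nat_lit 0x1) (nat_lit 234)) (.one (nat_lit 0x300000000000000000400500000100200300400500750ad64c85ac1e712)) (.one (nat_lit 0x400000000000000000400500000100200300400500750af70e06ac1e712)))))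
noncomputable def b116 : BT := .node (nat_lit 0x4f) (nat_lit 0x91892dd2c92314e095c5bc24b72b900064b400118d000572c0015ab80073380011cc076b125b95c9b664b74c9b78896e51491912dca28e1125b950c01b99c0064f6000321b004ad5c01325a004ab64013a1a0046d6401b9db0028c645db349a92dc003299000ab6419c14b212de4644b7272b84496e5434c912dca2800992d00164b4009d2c8023634001ced8004632005d0d00055b22498496e5a1708a4d496edb325b950e4644b728a5ac496e964004e574011bd7000c86c00aad9002c86c00ab57000e868001b59004c968009b1a176cc96e5146f112dca86e1125ba64ed624b74e1498496e964000e86800a358008e76c01a358008c86c012ad9000c770011b98004c9680122da176cd26a4b793092dd26b23225b950d3244b72b9001653200556c802653200914d80173b6000dcc00073380055ab8926125b950e4644b749ab845b684b7004c86c00a319006ab64002a9a002c96802aa9a0f84526a4b793092dca28db325b95cad624b72d0800643600156c8007434000d8d00063b80015cb00072ba000a0b89c224b728a48c896e572b5892dca8600192d0005534001cce00037ae001ced80027321c98496e9c2000c770002358076cc96e51491892dcae4001d0d00046b0001cce00037b0148c4b42db3000b050002ad9064629344c90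0065320015ab8323225b9509bc44b72a180073b6000dcc000643600158c05231272a70532451425bc8c4ae4de2918b6cd26800992d003472e00594c80364b40095cb000563000d96c00255b224e0945096ee1125b95c801325a000c96800b99c0028d602018640174d0158001580015800158001580015800152001520013af013af013af013af011e2011e2011e2011e2011e201016010160101600ea500ea500ea500ea500ea500ea500d8e00d8e00d8e00c1d00c1d00c1d00c1d00c1d00b0700b0700b0700b0700b0700b0700b0700b0700b0700aa600aa600aa6009eb009eb009eb009eb009eb009eb009eb009eb009eb009eb009eb009eb009eb009eb0098a0098a0098a0098a009290086d0086d0086d006fb006fb006fb006fb006fb0064000640006400064000640) .leaf .leaf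
def t115 : k115.all (jb2 57 fl b116) = true := by decide +kernel
noncomputable def s6 : KT := (.br (nat_lit 0x401a0000000008034320) (.br (nat_lit 0x40100000000008020320) (.br (nat_lit 0x40090000000008012320) (.br (nat_lit 0x301d000000000603a320) k97 k98) (.br (nat_lit 0x400d000000000801a320) k99 k100)) (.br (nat_lit 0x40140000000008028320) (.br (nat_lit 0x40120000000008024320) k101 k102) (.br (nat_lit 0x4016000000000802c320) k103 (.br (nat_lit 0x40180000000008030320) k104 k105)))) (.br (nat_lit 0x1000004005007200000800a00e411) (.br (nat_lit 0x401e000000000803c320) (.br (nat_lit 0x401c0000000008038320) k106 k107) (.br (nat_lit 0x40200000000008040320) k108 (.br (nat_lit 0x2000005007000400000a00e311) k109 k110))) (.br (nat_lit 0x4000002003004005007400608900a00e611) (.br (nat_lit 0x4000003004005007000600808b00e511) k111 k112) (.br (nat_lit 0x30000010020030040050074066c0802a40e711) k113 (.br (nat_lit 0x200400500000100200300400500750a740843ad1e731) k114 k115)))))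
noncomputable def u6 : KT := (.br (Nat.shiftLeft (nat_lit 0x1) (nat_lit 78)) (.br (Nat.shiftLeft (nat_lit 0xc05) (nat_lit 66)) (.br (Nat.shiftLeft (nat_lit 0x300d) (nat_lit 64)) (.br (Nat.shiftLeft (nat_lit 0x1805) (nat_lit 65)) (.br (Nat.shiftLeft (nat_lit 0x601) (nat_lit 67)) (.one (nat_lit 0x3007000000000600e320)) (.br (Nat.shiftLeft (nat_lit 0x3009) (nat_lit 64)) (.one (nat_lit 0x30080000000006010320)) (.one (nat_lit 0x30090000000006012320)))) (.br (Nat.shiftLeft (nat_lit 0x300b) (nat_lit 64)) (.one (nat_lit 0x300a0000000006014320)) (.br (Nat.shiftLeft (nat_lit 0xc03) (nat_lit 66)) (.one (nat_lit 0x300b0000000006016320)) (.one (nat_lit 0x300c0000000006018320))))) (.br (Nat.shiftLeft (nat_lit 0x301) (nat_lit 68)) (.br (Nat.shiftLeft (nat_lit 0x1807) (nat_lit 65)) (.one (nat_lit 0x300d000000000601a320)) (.br (Nat.shiftLeft (nat_lit 0x300f) (nat_lit 64)) (.one (nat_lit 0x300e000000000601c320)) (.one (nat_lit 0x300f000000000601e320)))) (.br (Nat.shiftLeft (nat_lit 0x1809) (nat_lit 65)) (.br (Nat.shiftLeft (nat_lit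 0x3011) (nat_lit 64)) (.one (nat_lit 0x30100000000006020320)) (.one (nat_lit 0x30110000000006022320))) (.br (Nat.shiftLeft (nat_lit 0x3013) (nat_lit 64)) (.one (nat_lit 0x30120000000006024320)) (.one (nat_lit 0x30130000000006026320)))))) (.br (Nat.shiftLeft (nat_lit 0x301b) (nat_lit 64)) (.br (Nat.shiftLeft (nat_lit 0x3017) (nat_lit 64)) (.br (Nat.shiftLeft (nat_lit 0x3015) (nat_lit 64)) (.one (nat_lit 0x30140000000006028320)) (.br (Nat.shiftLeft (nat_lit 0x180b) (nat_lit 65)) (.one (nat_lit 0x3015000000000602a320)) (.one (nat_lit 0x3016000000000602c320)))) (.br (Nat.shiftLeft (nat_lit 0x3019) (nat_lit 64)) (.br (Nat.shiftLeft (nat_lit 0x603) (nat_lit 67)) (.one (nat_lit 0x3017000000000602e320)) (.one (nat_lit 0x30180000000006030320))) (.br (Nat.shiftLeft (nat_lit 0x180d) (nat_lit 65)) (.one (nat_lit 0x30190000000006032320)) (.one (nat_lit 0x301a0000000006034320))))) (.br (Nat.shiftLeft (nat_lit 0x180f) (nat_lit 65)) (.br (Nat.shiftLeft (nat_lit 0xc07) (nat_lit 66)) (.one (nat_lit 0x301b0000000006036320)) (.br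 (Nat.shiftLeft (nat_lit 0x301d) (nat_lit 64)) (.one (nat_lit 0x301c0000000006038320)) (.one (nat_lit 0x301d000000000603a320)))) (.br (Nat.shiftLeft (nat_lit 0x181) (nat_lit 69)) (.br (Nat.shiftLeft (nat_lit 0x301f) (nat_lit 64)) (.one (nat_lit 0x301e000000000603c320)) (.one (nat_lit 0x301f000000000603e320))) (.br (Nat.shiftLeft (nat_lit 0x3021) (nat_lit 64)) (.one (nat_lit 0x30200000000006040320)) (.one (nat_lit 0x30210000000006042320))))))) (.br (Nat.shiftLeft (nat_lit 0x4015) (nat_lit 64)) (.br (Nat.shiftLeft (nat_lit 0x2007) (nat_lit 65)) (.br (Nat.shiftLeft (nat_lit 0x2005) (nat_lit 65)) (.br (Nat.shiftLeft (nat_lit 0x801) (nat_lit 67)) (.one (nat_lit 0x4007000000000800e320)) (.br (Nat.shiftLeft (nat_lit 0x4009) (nat_lit 64)) (.one (nat_lit 0x40080000000008010320)) (.one (nat_lit 0x40090000000008012320)))) (.br (Nat.shiftLeft (nat_lit 0x1003) (nat_lit 66)) (.br (Nat.shiftLeft (nat_lit 0x400b) (nat_lit 64)) (.one (nat_lit 0x400a0000000008014320)) (.one (nat_lit 0x400b0000000008016320))) (.br (Nat.shiftLeft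 (nat_lit 0x400d) (nat_lit 64)) (.one (nat_lit 0x400c0000000008018320)) (.one (nat_lit 0x400d000000000801a320))))) (.br (Nat.shiftLeft (nat_lit 0x4011) (nat_lit 64)) (.br (Nat.shiftLeft (nat_lit 0x400f) (nat_lit 64)) (.one (nat_lit 0x400e000000000801c320)) (.br (Nat.shiftLeft (nat_lit 0x401) (nat_lit 68)) (.one (nat_lit 0x400f000000000801e320)) (.one (nat_lit 0x40100000000008020320)))) (.br (Nat.shiftLeft (nat_lit 0x4013) (nat_lit 64)) (.br (Nat.shiftLeft (nat_lit 0x2009) (nat_lit 65)) (.one (nat_lit 0x40110000000008022320)) (.one (nat_lit 0x40120000000008024320))) (.br (Nat.shiftLeft (nat_lit 0x1005) (nat_lit 66)) (.one (nat_lit 0x40130000000008026320)) (.one (nat_lit 0x40140000000008028320)))))) (.br (Nat.shiftLeft (nat_lit 0x1007) (nat_lit 66)) (.br (Nat.shiftLeft (nat_lit 0x803) (nat_lit 67)) (.br (Nat.shiftLeft (nat_lit 0x200b) (nat_lit 65)) (.one (nat_lit 0x4015000000000802a320)) (.br (Nat.shiftLeft (nat_lit 0x4017) (nat_lit 64)) (.one (nat_lit 0x4016000000000802c320)) (.one (nat_lit 0x4017000000000802e320))))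 (.br (Nat.shiftLeft (nat_lit 0x200d) (nat_lit 65)) (.br (Nat.shiftLeft (nat_lit 0x4019) (nat_lit 64)) (.one (nat_lit 0x40180000000008030320)) (.one (nat_lit 0x40190000000008032320))) (.br (Nat.shiftLeft (nat_lit 0x401b) (nat_lit 64)) (.one (nat_lit 0x401a0000000008034320)) (.one (nat_lit 0x401b0000000008036320))))) (.br (Nat.shiftLeft (nat_lit 0x401f) (nat_lit 64)) (.br (Nat.shiftLeft (nat_lit 0x401d) (nat_lit 64)) (.one (nat_lit 0x401c0000000008038320)) (.br (Nat.shiftLeft (nat_lit 0x200f) (nat_lit 65)) (.one (nat_lit 0x401d000000000803a320)) (.one (nat_lit 0x401e000000000803c320)))) (.br (Nat.shiftLeft (nat_lit 0x4021) (nat_lit 64)) (.br (Nat.shiftLeft (nat_lit 0x201) (nat_lit 69)) (.one (nat_lit 0x401f000000000803e320)) (.one (nat_lit 0x40200000000008040320))) (.br (Nat.shiftLeft (nat_lit 0x5) (nat_lit 76)) (.one (nat_lit 0x40210000000008042320)) (.one (nat_lit 0x5007000000000a00e320))))))))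
def w6 : u6.all (wj 57 s6) = true := by decide +kernel
def o6 : OkW 57 (jb2 57 fl) u6 := .lift s6 _ (.br _ _ _ (.br _ _ _ (.br _ _ _ (.br _ _ _ (.leaf b0 k97 t97) (.leaf b0 k98 t98)) (.br _ _ _ (.leaf b0 k99 t99) (.leaf b0 k100 t100))) (.br _ _ _ (.br _ _ _ (.leaf b0 k101 t101) (.leaf b0 k102 t102)) (.br _ _ _ (.leaf b0 k103 t103) (.br _ _ _ (.leaf b0 k104 t104) (.leaf b0 k105 t105))))) (.br _ _ _ (.br _ _ _ (.br _ _ _ (.leaf b0 k106 t106) (.leaf b0 k107 t107)) (.br _ _ _ (.leaf b0 k108 t108) (.br _ _ _ (.leaf b0 k109 t109) (.leaf b111 k110 t110)))) (.br _ _ _ (.br _ _ _ (.leaf b112 k111 t111) (.leaf b113 k112 t112)) (.br _ _ _ (.leaf b114 k113 t113) (.br _ _ _ (.leaf b115 k114 t114) (.leaf b116 k115 t115)))))) w6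
noncomputable def k116 : KT := (.br (Nat.shiftLeft (nat_lit 0x2005009) (nat_lit 64)) (.br (Nat.shiftLeft (nat_lit 0x802805) (nat_lit 65)) (.br (Nat.shiftLeft (nat_lit 0x1005009) (nat_lit 64)) (.one (nat_lit 0x1005008000000200a010430)) (.one (nat_lit 0x1005009000000200a012430))) (.br (Nat.shiftLeft (nat_lit 0x100500b) (nat_lit 64)) (.one (nat_lit 0x100500a000000200a014430)) (.br (Nat.shiftLeft (nat_lit 0x1) (nat_lit 89)) (.one (nat_lit 0x100500b000000200a016430)) (.one (nat_lit 0x2005008000000400a010430))))) (.br (Nat.shiftLeft (nat_lit 0x200500b) (nat_lit 64)) (.br (Nat.shiftLeft (nat_lit 0x1002805) (nat_lit 65)) (.one (nat_lit 0x2005009000000400a012430)) (.one (nat_lit 0x200500a000000400a014430))) (.br (Nat.shiftLeft (nat_lit 0x3) (nat_lit 88)) (.one (nat_lit 0x200500b000000400a016430)) (.br (Nat.shiftLeft (nat_lit 0x3005009) (nat_lit 64)) (.one (nat_lit 0x3005008000000600a010430)) (.one (nat_lit 0x3005009000000600a012430))))))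
def t116 : k116.all (jb2 57 fl b0) = true := by decide +kernel
noncomputable def k117 : KT := (.br (Nat.shiftLeft (nat_lit 0x1000005009) (nat_lit 64)) (.br (Nat.shiftLeft (nat_lit 0x300500b) (nat_lit 64)) (.one (nat_lit 0x300500a000000600a014430)) (.br (Nat.shiftLeft (nat_lit 0x1) (nat_lit 100)) (.one (nat_lit 0x300500b000000600a016430)) (.one (nat_lit 0x1000005008000200000a010311)))) (.br (Nat.shiftLeft (nat_lit 0x800002805) (nat_lit 65)) (.one (nat_lit 0x1000005009000200000a012311)) (.br (Nat.shiftLeft (nat_lit 0x100000500b) (nat_lit 64)) (.one (nat_lit 0x100000500a000200000a014311)) (.one (nat_lit 0x100000500b000200000a016311)))))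
def t117 : k117.all (jb2 57 fl b0) = true := by decide +kernel
noncomputable def k118 : KT := (.br (Nat.shiftLeft (nat_lit 0x1) (nat_lit 101)) (.br (Nat.shiftLeft (nat_lit 0x802002805) (nat_lit 65)) (.br (Nat.shiftLeft (nat_lit 0x1004005009) (nat_lit 64)) (.one (nat_lit 0x1004005008000200800a010540)) (.one (nat_lit 0x1004005009000200800a012540))) (.br (Nat.shiftLeft (nat_lit 0x100400500b) (nat_lit 64)) (.one (nat_lit 0x100400500a000200800a014540)) (.one (nat_lit 0x100400500b000200800a016540)))) (.br (Nat.shiftLeft (nat_lit 0x1000002805) (nat_lit 65)) (.br (Nat.shiftLeft (nat_lit 0x2000005009) (nat_lit 64)) (.one (nat_lit 0x2000005008000400000a010311)) (.one (nat_lit 0x2000005009000400000a012311))) (.br (Nat.shiftLeft (nat_lit 0x200000500b) (nat_lit 64)) (.one (nat_lit 0x200000500a000400000a014311)) (.one (nat_lit 0x200000500b000400000a016311)))))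
def t118 : k118.all (jb2 57 fl b0) = true := by decide +kernel
noncomputable def k119 : KT := (.one (nat_lit 0x2004005008000400800a010540))
def t119 : k119.all (jb2 57 fl b0) = true := by decide +kernel
noncomputable def k120 : KT := (.one (nat_lit 0x2004005009000400800a012540))
def t120 : k120.all (jb2 57 fl b0) = true := by decide +kernel
noncomputable def k121 : KT := (.one (nat_lit 0x200400500a000400800a014540))
def t121 : k121.all (jb2 57 fl b0) = true := by decide +kernel
noncomputable def k122 : KT := (.br (Nat.shiftLeft (nat_lit 0x400000500b) (nat_lit 64)) (.br (Nat.shiftLeft (nat_lit 0x300000500b) (nat_lit 64)) (.br (Nat.shiftLeft (nat_lit 0x3000005009) (nat_lit 64)) (.br (Nat.shiftLeft (nat_lit 0x3) (nat_lit 100)) (.one (nat_lit 0x200400500b000400800a016540)) (.one (nat_lit 0x3000005008000600000a010311))) (.br (Nat.shiftLeft (nat_lit 0x1800002805) (nat_lit 65)) (.one (nat_lit 0x3000005009000600000a012311)) (.one (nat_lit 0x300000500a000600000a014311)))) (.br (Nat.shiftLeft (nat_lit 0x4000005009) (nat_lit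 64)) (.br (Nat.shiftLeft (nat_lit 0x1) (nat_lit 102)) (.one (nat_lit 0x300000500b000600000a016311)) (.one (nat_lit 0x4000005008000800000a010311))) (.br (Nat.shiftLeft (nat_lit 0x2000002805) (nat_lit 65)) (.one (nat_lit 0x4000005009000800000a012311)) (.one (nat_lit 0x400000500a000800000a014311))))) (.br (Nat.shiftLeft (nat_lit 0x500000500b) (nat_lit 64)) (.br (Nat.shiftLeft (nat_lit 0x5000005009) (nat_lit 64)) (.br (Nat.shiftLeft (nat_lit 0x5) (nat_lit 100)) (.one (nat_lit 0x400000500b000800000a016311)) (.one (nat_lit 0x5000005008000a00000a010311))) (.br (Nat.shiftLeft (nat_lit 0x2800002805) (nat_lit 65)) (.one (nat_lit 0x5000005009000a00000a012311)) (.one (nat_lit 0x500000500a000a00000a014311)))) (.br (Nat.shiftLeft (nat_lit 0x1000004005009) (nat_lit 64)) (.br (Nat.shiftLeft (nat_lit 0x1) (nat_lit 112)) (.one (nat_lit 0x500000500b000a00000a016311)) (.one (nat_lit 0x1000004005008200000800a010411))) (.br (Nat.shiftLeft (nat_lit 0x800002002805) (nat_lit 65)) (.one (nat_lit 0x1000004005009200000800a012411)) (.br (Nat.shiftLeft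 (nat_lit 0x100000400500b) (nat_lit 64)) (.one (nat_lit 0x100000400500a200000800a014411)) (.one (nat_lit 0x100000400500b200000800a016411)))))))
def t122 : k122.all (jb2 57 fl b0) = true := by decide +kernel
noncomputable def k123 : KT := (.one (nat_lit 0x1003004005008200600800a010650))
noncomputable def b124 : BT := .node (nat_lit 0x19) (nat_lit 0x37849709636f0950ca2600192e00055b200196c0005630148c4a84992000cb60002358064d0970514000e86c002b57076c8970542000e77400239707784970992000c874002b18064624e54e080064b40011cb832c451449a00065b000194c83bc24e54b1800653200156c8332293525b800743600156d032312a1a4d00033560008b68100626006260056b0056b0050a0050a0050a0050a004aa004aa004aa0044a0044a0044a003ea003ea0038900329002c9002c9002c9002c900269002080020800208) .leaf .leaf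
def t123 : k123.all (jb2 57 fl b124) = true := by decide +kernel
noncomputable def k124 : KT := (.one (nat_lit 0x1003004005009200600800a012650))
noncomputable def b125 : BT := .node (nat_lit 0x1) (nat_lit 0xdb2272a4d00032d8000ab6410008800028) .leaf .leaf
def t124 : k124.all (jb2 57 fl b125) = true := by decide +kernel
noncomputable def k125 : KT := (.one (nat_lit 0x100300400500a200600800a014650))
def t125 : k125.all (jb2 57 fl b0) = true := by decide +kernel
noncomputable def k126 : KT := (.br (Nat.shiftLeft (nat_lit 0x2800002002805) (nat_lit 65)) (.br (Nat.shiftLeft (nat_lit 0x1800002002805) (nat_lit 65)) (.br (Nat.shiftLeft (nat_lit 0x1000002002805) (nat_lit 65)) (.br (Nat.shiftLeft (nat_lit 0x1) (nat_lit 113)) (.one (nat_lit 0x100300400500b200600800a016650)) (.br (Nat.shiftLeft (nat_lit 0x2000004005009) (nat_lit 64)) (.one (nat_lit 0x2000004005008400000800a010411)) (.one (nat_lit 0x2000004005009400000800a012411)))) (.br (Nat.shiftLeft (nat_lit 0x3) (nat_lit 112)) (.br (Nat.shiftLeft (nat_lit 0x200000400500b)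 (nat_lit 64)) (.one (nat_lit 0x200000400500a400000800a014411)) (.one (nat_lit 0x200000400500b400000800a016411))) (.br (Nat.shiftLeft (nat_lit 0x3000004005009) (nat_lit 64)) (.one (nat_lit 0x3000004005008600000800a010411)) (.one (nat_lit 0x3000004005009600000800a012411))))) (.br (Nat.shiftLeft (nat_lit 0x2000002002805) (nat_lit 65)) (.br (Nat.shiftLeft (nat_lit 0x1) (nat_lit 114)) (.br (Nat.shiftLeft (nat_lit 0x300000400500b) (nat_lit 64)) (.one (nat_lit 0x300000400500a600000800a014411)) (.one (nat_lit 0x300000400500b600000800a016411))) (.br (Nat.shiftLeft (nat_lit 0x4000004005009) (nat_lit 64)) (.one (nat_lit 0x4000004005008800000800a010411)) (.one (nat_lit 0x4000004005009800000800a012411)))) (.br (Nat.shiftLeft (nat_lit 0x5) (nat_lit 112)) (.br (Nat.shiftLeft (nat_lit 0x400000400500b) (nat_lit 64)) (.one (nat_lit 0x400000400500a800000800a014411)) (.one (nat_lit 0x400000400500b800000800a016411))) (.br (Nat.shiftLeft (nat_lit 0x5000004005009) (nat_lit 64)) (.one (nat_lit 0x5000004005008a00000800a010411)) (.one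 (nat_lit 0x5000004005009a00000800a012411)))))) (.br (Nat.shiftLeft (nat_lit 0x1000001802002805) (nat_lit 65)) (.br (Nat.shiftLeft (nat_lit 0x800001802002805) (nat_lit 65)) (.br (Nat.shiftLeft (nat_lit 0x1) (nat_lit 124)) (.br (Nat.shiftLeft (nat_lit 0x500000400500b) (nat_lit 64)) (.one (nat_lit 0x500000400500aa00000800a014411)) (.one (nat_lit 0x500000400500ba00000800a016411))) (.br (Nat.shiftLeft (nat_lit 0x1000003004005009) (nat_lit 64)) (.one (nat_lit 0x1000003004005008000600802a410511)) (.one (nat_lit 0x1000003004005009000600802a412511)))) (.br (Nat.shiftLeft (nat_lit 0x1) (nat_lit 125)) (.br (Nat.shiftLeft (nat_lit 0x100000300400500b) (nat_lit 64)) (.one (nat_lit 0x100000300400500a000600802a414511)) (.one (nat_lit 0x100000300400500b000600802a416511))) (.br (Nat.shiftLeft (nat_lit 0x2000003004005009) (nat_lit 64)) (.one (nat_lit 0x2000003004005008000600804a810511)) (.one (nat_lit 0x2000003004005009000600804a812511))))) (.br (Nat.shiftLeft (nat_lit 0x1800001802002805) (nat_lit 65)) (.br (Nat.shiftLeft (nat_lit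 0x3) (nat_lit 124)) (.br (Nat.shiftLeft (nat_lit 0x200000300400500b) (nat_lit 64)) (.one (nat_lit 0x200000300400500a000600804a814511)) (.one (nat_lit 0x200000300400500b000600804a816511))) (.br (Nat.shiftLeft (nat_lit 0x3000003004005009) (nat_lit 64)) (.one (nat_lit 0x3000003004005008000600806ac10511)) (.one (nat_lit 0x3000003004005009000600806ac12511)))) (.br (Nat.shiftLeft (nat_lit 0x1) (nat_lit 126)) (.br (Nat.shiftLeft (nat_lit 0x300000300400500b) (nat_lit 64)) (.one (nat_lit 0x300000300400500a000600806ac14511)) (.one (nat_lit 0x300000300400500b000600806ac16511))) (.br (Nat.shiftLeft (nat_lit 0x4000003004005009) (nat_lit 64)) (.one (nat_lit 0x4000003004005008000600808b010511)) (.one (nat_lit 0x4000003004005009000600808b012511)))))))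
def t126 : k126.all (jb2 57 fl b0) = true := by decide +kernel
noncomputable def k127 : KT := (.br (Nat.shiftLeft (nat_lit 0x1000002003004005009) (nat_lit 64)) (.br (Nat.shiftLeft (nat_lit 0x5000003004005009) (nat_lit 64)) (.br (Nat.shiftLeft (nat_lit 0x400000300400500b) (nat_lit 64)) (.one (nat_lit 0x400000300400500a000600808b014511)) (.br (Nat.shiftLeft (nat_lit 0x5) (nat_lit 124)) (.one (nat_lit 0x400000300400500b000600808b016511)) (.one (nat_lit 0x500000300400500800060080ab410511)))) (.br (Nat.shiftLeft (nat_lit 0x500000300400500b) (nat_lit 64)) (.br (Nat.shiftLeft (nat_lit 0x2800001802002805) (nat_lit 65)) (.one (nat_lit 0x500000300400500900060080ab412511)) (.one (nat_lit 0x500000300400500a00060080ab414511))) (.br (Nat.shiftLeft (nat_lit 0x1) (nat_lit 136)) (.one (nat_lit 0x500000300400500b00060080ab416511)) (.one (nat_lit 0x1000002003004005008400602840a010611))))) (.br (Nat.shiftLeft (nat_lit 0x1) (nat_lit 137)) (.br (Nat.shiftLeft (nat_lit 0x800001001802002805) (nat_lit 65)) (.one (nat_lit 0x1000002003004005009400602840a012611))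 (.br (Nat.shiftLeft (nat_lit 0x100000200300400500b) (nat_lit 64)) (.one (nat_lit 0x100000200300400500a400602840a014611)) (.one (nat_lit 0x100000200300400500b400602840a016611)))) (.br (Nat.shiftLeft (nat_lit 0x1000001001802002805) (nat_lit 65)) (.br (Nat.shiftLeft (nat_lit 0x2000002003004005009) (nat_lit 64)) (.one (nat_lit 0x2000002003004005008400604880a010611)) (.one (nat_lit 0x2000002003004005009400604880a012611))) (.br (Nat.shiftLeft (nat_lit 0x200000200300400500b) (nat_lit 64)) (.one (nat_lit 0x200000200300400500a400604880a014611)) (.one (nat_lit 0x200000200300400500b400604880a016611))))))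
def t127 : k127.all (jb2 57 fl b0) = true := by decide +kernel
noncomputable def k128 : KT := (.br (Nat.shiftLeft (nat_lit 0x1) (nat_lit 138)) (.br (Nat.shiftLeft (nat_lit 0x1800001001802002805) (nat_lit 65)) (.br (Nat.shiftLeft (nat_lit 0x3000002003004005009) (nat_lit 64)) (.one (nat_lit 0x30000020030040050084006068c0a010611)) (.one (nat_lit 0x30000020030040050094006068c0a012611))) (.br (Nat.shiftLeft (nat_lit 0x300000200300400500b) (nat_lit 64)) (.one (nat_lit 0x300000200300400500a4006068c0a014611)) (.one (nat_lit 0x300000200300400500b4006068c0a016611)))) (.br (Nat.shiftLeft (nat_lit 0x2000001001802002805) (nat_lit 65)) (.br (Nat.shiftLeft (nat_lit 0x4000002003004005009) (nat_lit 64)) (.one (nat_lit 0x4000002003004005008400608900a010611)) (.one (nat_lit 0x4000002003004005009400608900a012611))) (.br (Nat.shiftLeft (nat_lit 0x400000200300400500b) (nat_lit 64)) (.one (nat_lit 0x400000200300400500a400608900a014611)) (.one (nat_lit 0x400000200300400500b400608900a016611)))))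
noncomputable def b129 : BT := .node (nat_lit 0x21) (nat_lit 0x1bc24b82a1a58896e4b76d9150d268001cee00046b200196c00065b00019ab00055b21c8c4a86934000ce540022da076c8976934000ca78002ad9076c8a869636f0a4d0a840019ab000563000194c80056ae16f094512c6db22b9258dbc29342a1000662e00556c80266ac00958c00164b40015ab8723125c24d1bc24e54b1b6c89705426f092e09ca00194d80145b400594c80055b200990e80256ae005d2d00145b626f0939526800198b80055340ef0950d2c6db2272a58c003317000ab64003299000ac60291892e0a8657125c13924625424c900073b8000dcc800743600192d00065b00011ac075c4972513000e774003299066449ca93491895c92c600196c00064b40019ab000463216f092ed3820018f080056ae0ef09395325231272a4d0003299000ac600032d80008b68291893952c6de149a12e5b644e549a003653200d18c80264b400956e00265b000156c87bc25144e0b6c89709346f092e0a8723128a24d000b25a000ad5c00b29b000ab6400b9dc0028d640133560048b68491895c92680019ca80045b40c8c4a2893449a12e0a280019ab00045b4001d0d80056ae16d915c92680019ca80055b20ed914512c699149a12e0003317000ac60003a1a000ab702010e900fd300fd300f7200f7200f7200f1200e5700d4100bcf00bcf00bcf00bcf00bcf00bcf00bcf00b6f00ab40099d0093e008830088300883008230076800651004e00047f003c3003c3003c3003c300363002a8)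 .leaf .leaf
def t128 : k128.all (jb2 57 fl b129) = true := by decide +kernel
noncomputable def k129 : KT := (.one (nat_lit 0x500000200300400500840060a940a010611))
noncomputable def b130 : BT := .node (nat_lit 0x19) (nat_lit 0xde14b195c64625434c900065320015cb000662e0011ac053824b7272c8c49ca992000ca6800321b000ca640023580b784ae49926f09451382de149a145000b317000ac6001325a002ad5c003299004ad5c39189394a8400192d000472e0c9a12e0a292312a1a58c003a1b000ad5c0033170008c642de1289a648003299000ac601db249a950a4624b828a00074340015ab8007436000dad052314c912e0002b18000a974199149a24d53224b82a1800743400196c00073b800158c852312b8a649bc24b725bc8c4a86db3000ad5c00ab18002cb6000aa5d004ad5c00aad90f785b669346f092e132523125c1450013299000ca6400b21d002ac6000ba1b0026d68399225c15080039dc000ac60100a7400a74009b9009b9008fe007e8007e8007e80078700787006cc0066c005b10055000550005500049500495004950037e0037e0026800268002680020800208) .leaf .leaf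
def t129 : k129.all (jb2 57 fl b130) = true := by decide +kernel
noncomputable def k130 : KT := (.one (nat_lit 0x500000200300400500940060a940a012611))
noncomputable def b131 : BT := .node (nat_lit 0x19) (nat_lit 0x6d936cc970001d4c00045ba0cc912e0ae4001ccf00056ae0ef0a591382de16d99394003a1a000ad5c003299000ac602918945138200194c800472e0ed91394a2600196c00056300c8c4970935000ab6c002a9b076c9268514918950d2c600592d00056ae0095ab801563016f0b6cc9712312a1a58c003a590008b740033560008c6420061b005bb005bb0055b004a0004a0004a0004a0004a00043f0043f003df003df003df003df0037e0037e0037e002c3002c3002080020800208002080020800208) .leaf .leaf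
def t130 : k130.all (jb2 57 fl b131) = true := by decide +kernel
noncomputable def k131 : KT := (.one (nat_lit 0x500000200300400500a40060a940a014611))
noncomputable def b132 : BT := .node (nat_lit 0x3) (nat_lit 0x1bc24ba289800643e00158c03b6493549a00065b000194c8323128a36cc002b57000ab6410017100111000b100050) .leaf .leaf
def t131 : k131.all (jb2 57 fl b132) = true := by decide +kernel
noncomputable def k132 : KT := (.br (Nat.shiftLeft (nat_lit 0x1000000801001802002805) (nat_lit 65)) (.br (Nat.shiftLeft (nat_lit 0x800000801001802002805) (nat_lit 65)) (.br (Nat.shiftLeft (nat_lit 0x1) (nat_lit 148)) (.one (nat_lit 0x500000200300400500b40060a940a016611)) (.br (Nat.shiftLeft (nat_lit 0x1000001002003004005009) (nat_lit 64)) (.one (nat_lit 0x1000001002003004005008402640802a410711)) (.one (nat_lit 0x1000001002003004005009402640802a412711)))) (.br (Nat.shiftLeft (nat_lit 0x1) (nat_lit 149)) (.br (Nat.shiftLeft (nat_lit 0x100000100200300400500b) (nat_lit 64)) (.one (nat_lit 0x100000100200300400500a402640802a414711)) (.one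 (nat_lit 0x100000100200300400500b402640802a416711))) (.br (Nat.shiftLeft (nat_lit 0x2000001002003004005009) (nat_lit 64)) (.one (nat_lit 0x2000001002003004005008404680802a410711)) (.one (nat_lit 0x2000001002003004005009404680802a412711))))) (.br (Nat.shiftLeft (nat_lit 0x3000001002003004005009) (nat_lit 64)) (.br (Nat.shiftLeft (nat_lit 0x200000100200300400500b) (nat_lit 64)) (.one (nat_lit 0x200000100200300400500a404680802a414711)) (.br (Nat.shiftLeft (nat_lit 0x3) (nat_lit 148)) (.one (nat_lit 0x200000100200300400500b404680802a416711)) (.one (nat_lit 0x30000010020030040050084066c0802a410711)))) (.br (Nat.shiftLeft (nat_lit 0x300000100200300400500b) (nat_lit 64)) (.br (Nat.shiftLeft (nat_lit 0x1800000801001802002805) (nat_lit 65)) (.one (nat_lit 0x30000010020030040050094066c0802a412711)) (.one (nat_lit 0x300000100200300400500a4066c0802a414711))) (.br (Nat.shiftLeft (nat_lit 0x1) (nat_lit 150)) (.one (nat_lit 0x300000100200300400500b4066c0802a416711)) (.one (nat_lit 0x4000001002003004005008408700802a410711))))))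
noncomputable def b133 : BT := .node (nat_lit 0x17) (nat_lit 0x91892e12c6de125c24d000325c0008c6400329b000aa682918950d2c723128a36cc0033560008c64002b57000ab642de12a1a58e46257249a48c4a84992000cc5c00aad9004ce540122da002cb600023580e4625a16f148c4a28963002af54002b18004ac6000aad90b784a289636d912e13252312b92649bc25a14c900165b000556c801643a0015ab802662e0091ac001672a00158c092312a1a64a4625144b180265b00051ac00065b000518c8523128a264a4625a14e0b6c8a869926f0968532400996c00046b00019ab003472e00998b80056ae0059ca8005630248c4a289349189685324db225c24d00033170008b680033950008d6000329b000ab643009e0009e0009e0009e0009e000924008680075200696006960052500525005250052500525005250052500469002f7002f7002f7002f7001e0001e0) .leaf .leaf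
def t132 : k132.all (jb2 57 fl b133) = true := by decide +kernel
noncomputable def k133 : KT := (.br (Nat.shiftLeft (nat_lit 0x2000000801001802002805) (nat_lit 65)) (.one (nat_lit 0x4000001002003004005009408700802a412711)) (.br (Nat.shiftLeft (nat_lit 0x400000100200300400500b) (nat_lit 64)) (.one (nat_lit 0x400000100200300400500a408700802a414711)) (.one (nat_lit 0x400000100200300400500b408700802a416711))))
noncomputable def b134 : BT := .node (nat_lit 0x3a) (nat_lit 0x1bc2963272800653200156c83bc25724b180066ac00156c83b6451449a3784ae4963002cd58002ad9002ce54012ad90a4625a14e0800662e0011cb83bc25a14c936c8974992000ce54002b18000c87c002b570b784a869636f092e53252312a1a704013317004ab6400b21e000ac600032d80028e5c391896853820019ab000472e0c8c4ae4992000cd5800235806588a28513000cb60003299064625144c936c8972934000cb60002358000ca70002ad90b6c8b42963000ce54002b18076c8a869636d92648a8400198b80056300019ab00056ae16d915c8a8523128a24d1bc25724b1801662e0015ab80366ac00d16d003672a00956c872312b9258c0033560008c64100cb900cb900cb900cb900c5900c5900c5900bf900b3e00b3e00add00a220090c0090c008ab008ab008ab008ab008ab008ab008ab008ab008ab008ab008ab008ab008ab008ab008ab008ab008ab008ab008ab008ab0084a007ea0072e0072e0072e0072e006ce00613004fd004fd004fd004fd004fd004fd004fd004fd004fd004fd004fd004fd004fd004fd004fd004fd0049c)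 .leaf .leaf
def t133 : k133.all (jb2 57 fl b134) = true := by decide +kernel
noncomputable def k134 : KT := (.one (nat_lit 0x500000100200300400500a40a740802a414711))
noncomputable def b135 : BT := .node (nat_lit 0x45) (nat_lit 0x91892e8a872312a1b6cc0039de0006e64002b96000ab642de125d258c00325e000ab641e1125d150ed624ba2d080073bc00118c80072c0000a0b85bc44ba2a1b6cc974514002c878002b18002c974012b180b784974963000c978002ad9064625a14b1800672a00118c83bc2934272b78532451391895c932523125d145000b299000ac6000b2d8004ac6000b3560028d6000ba1d0026d68491894513832312d0a4d1bc2de249a00064b40051cb801582800556c80165b000992d072314b236ce46251428980065b000156c80065320011ac05b664ba49a800653800156c832312a1a705bc2934289b785324542002cb60012397002ca64002b18004cb60002b570f84526a4ba000c86c002adc078449749354e092e92c800194e00054b600192e80064b4148c4ae49c16d91450a2600196c000472e00198b8005630148c49ca934000ac60002ad9064625714c9000662e0011ac0323225d24d400329c0008b681010800108000fc400fc400fc400fc400fc400f6400f6400ea900dee00dee00dee00d8e00d8e00d8e00d2d00d2d00bbc00bbc00bbc00bbc00aa500aa500aa500aa500aa500aa500aa500aa500aa500aa500aa500aa500aa500aa5009e90098900872008720087200872008720087200872008720087200812007570069b0069b0069b0069b0063a0063a0063a0063a0063a0063a0063a005d9005d9005d9005d9005d9005d9005d9005d90057800578)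 .leaf .leaf
def t134 : k134.all (jb2 57 fl b135) = true := by decide +kernel
noncomputable def k135 : KT := (.br (Nat.shiftLeft (nat_lit 0x1005000001002003004005009) (nat_lit 64)) (.br (Nat.shiftLeft (nat_lit 0x1) (nat_lit 160)) (.one (nat_lit 0x500000100200300400500b40a740802a416711)) (.one (nat_lit 0x100500000100200300400500844a740802a614721))) (.br (Nat.shiftLeft (nat_lit 0x1) (nat_lit 161)) (.one (nat_lit 0x100500000100200300400500944a740802a616721)) (.br (Nat.shiftLeft (nat_lit 0x2005000001002003004005009) (nat_lit 64)) (.one (nat_lit 0x200500000100200300400500848a740802a818721)) (.one (nat_lit 0x200500000100200300400500948a740802a81a721)))))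
noncomputable def b136 : BT := .node (nat_lit 0x21) (nat_lit 0x3784a869c1000ca64002b5706704976935000ca7400321b064629646d980065b000156c832316d992ec002ad9000aa7c1db225d944dbc25724b1b7852c64ba000c97c00ab18002ce54002ad9004ca64012a9f0f7849765146d91451268001d0f000463400196c00055b216f0a4d4a26db225d9394003a1a000ac6000329d000ab682e1125d9450003a1e0008b681de225d945000325e000ab6410077600776007760071600716006b6006b6006b60065500655005f4004de004230036800368003680036800368003680036800368003680036800368003680036800308003080030800308002a8002a8002a8002a8) .leaf .leaf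
def t135 : k135.all (jb2 57 fl b136) = true := by decide +kernel
noncomputable def k136 : KT := (.br (Nat.shiftLeft (nat_lit 0x3005000001002003004005009) (nat_lit 64)) (.one (nat_lit 0x30050000010020030040050084ca740802aa1c721)) (.one (nat_lit 0x30050000010020030040050094ca740802aa1e721)))
noncomputable def b137 : BT := .node (nat_lit 0x2e) (nat_lit 0x91893952c6db228a2649bc24b92a180065b000118c80065320015ab80073ba0011ac87b645a14c936c89709636f0950d324de125c150c00b356002ad5c00b25c000ac6000b2d8004ac6000b9dc0028d64496228a258dbc2db349a00165b000194c802653200594c85bc24e54b1c8c4b429924b11450a2600996c00155b20059ca80146b000196c00165321ed9a4d497093425c12e0003299000ab6c0032d8000ca6c2de16d9a4d52684b82b948c526a9c1004ca64003299002e67400abd5002e76c00a3970f6c8972543000e774002398077849ca96391892e0a8600196c00055b2001cee0003732148c4a28db3918968538323125ca58c002b57000ab640033560008e5c00325d0008c643918a4d532523125c27064625a149a3784970514000e868002358000c778002397000b050002ad9000e86c00231a124625134c948c4a28db3000ca64002358000ad5c002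ad90a4629356d9b78497057291892dd32400194c80055b2001cce800473000190e80046b01c8c4a289924c924d497000194c80046b0001d0d00055b6148c526a963918a58ca2923128a264800ba590028c64012b18000ac6000b2990028d6039189685b66de16d99395bc25434b1b784a289926f092e4ae400560a00155b200994c80256300059ab00055b200196c0015630005ccf00147302ef092e132523128a2705b64db349a48c4a289636f0a648a26de12b9258c01b21d002ac600132990048e5c01ba9800aab640132d800c8c6402b2d8000ac6002b356004ab64601514015140151401514013fd0128c0128c0128c011d1010bb010bb010bb010bb010bb0100000eea00e8a00dcf00dcf00dcf00dcf00dcf00dcf00dcf00dcf00dcf00cb800b4600b4600b4600b4600b4600b4600b4600b4600b4600b4600b4600a8a00973008b7007a0005d3003ac003ac003ac003ac) .leaf .leaf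
def t136 : k136.all (jb2 57 fl b137) = true := by decide +kernel
noncomputable def k137 : KT := (.one (nat_lit 0x400500000100200300400500850a740802ac20721))
noncomputable def b138 : BT := .node (nat_lit 0x83) (nat_lit 0x1bc44b82d080072bc0011eb0323225ba4d53244b828a27049705a1002ab68002a9a000e86c00aad9004e578012b570e70496e514000c96c00325a0658c9705429189685382de149a1395bc24b828a48c4ae4992006e770012b57006cc5c012397004ca64002b18002e86c01231a004cc5c01a358164625a1708c8c4a86992918a704ae52314b23788002b96000ad5c0133170048d60012b96002ac6000b299000ac604e1149a92e2d624b828a000643600156d00064b6000d8d05bc29636d980065b000194c833824b82a1c8c4ae4934918a64dc22009cee00255b200d5ea80355b200994c80056ae1ed92591324db24c9144c003a59000ad5c003356000ac602e1125c24d5bc44b82d0b6cc970572002ca6800aa5b002e5780023d6002e6740123d60e64897057291892e09ca001cce80056ae00194d00045b614e092e0a28001d0d80055340dac497054391912e0b42db325c14524c24b82b90006438004dac80272bc008e0b00174360011ac001733a004dcc0923225ba4d13244b827280055b400154d000653400192d05c2293525bc8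c8970543b5892e0a2926125c168400321b000ab680039dc0006e60003a1b0004d6800395e0006f5c493092e0b4323225c150db664b82b93788970514004e578011bd7006e770011b98000e67400a3d6006e86c01a31913784970992918a4d5382db228a15c64624b82a1c8c5324542004c87401ab18006e86801a397002c968002b57004e770011b99006ad5c00ab18166453244b7000cb6000321d076c8a289c16f124d096e00192d00156ae00992d00155b4148c49709926f0a4d4a2600190e80046b0001d2c80055b214984970993708a4d497000190e000463200190d80055b414e092e0a2923225c24d5bc44b82b900064b600192d000653400116d000733a0011cb876b125c139400329a0006b6c101f6901f6901f0901f0901f0901f0901f0901f0901f0901f0901f0901f0901f0901f0901df201df201df201df201d9201d9201d9201d9201d9201d9201d9201d9201d9201d9201d9201d9201d9201d9201d9201d9201d9201d9201d9201bc601bc601a5401a5401a5401a5401a540199901999019990199901999019990199901999019990199901939019390182301823017680176801652015970153701537013c5013c5013c5013c5013c5013c5013c5013c5013c5013c5013c5013c5013c5013c50130901309013090119801198011980119801026010260102600e5a00e5a00e5a00e5a00e5a00e5a00e5a00e5a00e5a00dfa00dfa00dfa00dfa00dfa00dfa00dfa00dfa00d3f00d3f00d3f00d3f00d3f00c8300c8300c8300c8300c8300bc700bc700bc700bc700bc700bc700bc700bc700bc700ab100ab100ab100ab100a5000a5000a5000a50)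 .leaf .leaf
def t137 : k137.all (jb2 57 fl b138) = true := by decide +kernel
noncomputable def k138 : KT := (.one (nat_lit 0x400500000100200300400500950a740802ac22721))
noncomputable def b139 : BT := .node (nat_lit 0x51) (nat_lit 0x132496425cb8449725a1000ca6400325c000e57c0023970a7049729356d992e52c800194d800643600192e000563015ac49725a1000e57c00141706d624b92d0b8449725726f112e4a28001caf800282e0018ef0005630001d0e00046321ed9139538200192d00056ae0c8c5b664b96f092e4a872314b2264a4625a16f100055b200154e80073ba0011ac80074b20011ac00057aa00158c09c224b94c9c9849725436d992e4b4200190e80055b2001cee80036b2001caf800482a1ed992e4a2923170895c800b25c000ac6000ab57004ac60296349a92e24625724b1c8c5b66513000e964002adb000ae58002b18000ca640023580e4c24b928a3844972993000e870001b1a000c874002ad90a4624e54c900065320011ac03c224b928a48c89725724e092e526a005d0e00045b4009ccf00237ae00194d80164361ef092e4ae20018ef80056ae0ed936cc970de128a1509bc25a14c948c4b429c1002ea6000a2dd002c968002b57004cd58012b18000cc5c00a39712648972935000ca6c00325a064629c125c80056ae00150f8323225ca4d400329b0008b6810133501335013350133501335013350133501335013350127a0127a0127a0127a0127a0127a0127a0127a0127a0127a0127a0127a0127a0127a0127a0127a0127a011bf011bf011bf011bf011bf011bf011bf0115e01047010470104701047010470104700fe700e7500e7500e7500d5f00d5f00d5f00d5f00ca400b8e00b8e00ad200a7100a7100a7100a7100a7100a7100a7100a7100a710095b0095b0095b0095b0095b0095b008fb008fb0078a0078a0078a0078a0078a0072a006c9006c9006c9006c9006680066800668)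 .leaf .leaf
def t138 : k138.all (jb2 57 fl b139) = true := by decide +kernel
noncomputable def s7 : KT := (.br (nat_lit 0x4000003004005009000600808b012511) (.br (nat_lit 0x2004005009000400800a012540) (.br (nat_lit 0x100000500b000200000a016311) (.br (nat_lit 0x3005009000000600a012430) k116 k117) (.br (nat_lit 0x200000500b000400000a016311) k118 (.br (nat_lit 0x2004005008000400800a010540) k119 k120))) (.br (nat_lit 0x1003004005008200600800a010650) (.br (nat_lit 0x200400500a000400800a014540) k121 (.br (nat_lit 0x100000400500b200000800a016411) k122 k123)) (.br (nat_lit 0x1003004005009200600800a012650) k124 (.br (nat_lit 0x100300400500a200600800a014650) k125 k126)))) (.br (nat_lit 0x4000001002003004005008408700802a410711) (.br (nat_lit 0x500000200300400500840060a940a010611) (.br (nat_lit 0x200000200300400500b400604880a016611) k127 (.br (nat_lit 0x400000200300400500b400608900a016611) k128 k129)) (.br (nat_lit 0x500000200300400500940060a940a012611) k130 (.br (nat_lit 0x500000200300400500a40060a940a014611) k131 k132)))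 (.br (nat_lit 0x200500000100200300400500948a740802a81a721) (.br (nat_lit 0x400000100200300400500b408700802a416711) k133 (.br (nat_lit 0x500000100200300400500a40a740802a414711) k134 k135)) (.br (nat_lit 0x30050000010020030040050094ca740802aa1e721) k136 (.br (nat_lit 0x400500000100200300400500850a740802ac20721) k137 k138)))))
noncomputable def u7 : KT := (.br (Nat.shiftLeft (nat_lit 0x2805) (nat_lit 65)) (.br (Nat.shiftLeft (nat_lit 0x5009) (nat_lit 64)) (.one (nat_lit 0x5008000000000a010320)) (.one (nat_lit 0x5009000000000a012320))) (.br (Nat.shiftLeft (nat_lit 0x500b) (nat_lit 64)) (.one (nat_lit 0x500a000000000a014320)) (.one (nat_lit 0x500b000000000a016320))))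
def w7 : u7.all (wj 57 s7) = true := by decide +kernel
def o7 : OkW 57 (jb2 57 fl) u7 := .lift s7 _ (.br _ _ _ (.br _ _ _ (.br _ _ _ (.br _ _ _ (.leaf b0 k116 t116) (.leaf b0 k117 t117)) (.br _ _ _ (.leaf b0 k118 t118) (.br _ _ _ (.leaf b0 k119 t119) (.leaf b0 k120 t120)))) (.br _ _ _ (.br _ _ _ (.leaf b0 k121 t121) (.br _ _ _ (.leaf b0 k122 t122) (.leaf b124 k123 t123))) (.br _ _ _ (.leaf b125 k124 t124) (.br _ _ _ (.leaf b0 k125 t125) (.leaf b0 k126 t126))))) (.br _ _ _ (.br _ _ _ (.br _ _ _ (.leaf b0 k127 t127) (.br _ _ _ (.leaf b129 k128 t128) (.leaf b130 k129 t129))) (.br _ _ _ (.leaf b131 k130 t130) (.br _ _ _ (.leaf b132 k131 t131) (.leaf b133 k132 t132)))) (.br _ _ _ (.br _ _ _ (.leaf b134 k133 t133) (.br _ _ _ (.leaf b135 k134 t134) (.leaf b136 k135 t135))) (.br _ _ _ (.leaf b137 k136 t136) (.br _ _ _ (.leaf b138 k137 t137) (.leaf b139 k138 t138)))))) w7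
noncomputable def k139 : KT := (.br (Nat.shiftLeft (nat_lit 0x1) (nat_lit 89)) (.br (Nat.shiftLeft (nat_lit 0x802807) (nat_lit 65)) (.br (Nat.shiftLeft (nat_lit 0x100500d) (nat_lit 64)) (.one (nat_lit 0x100500c000000200a018430)) (.one (nat_lit 0x100500d000000200a01a430))) (.br (Nat.shiftLeft (nat_lit 0x100500f) (nat_lit 64)) (.one (nat_lit 0x100500e000000200a01c430)) (.one (nat_lit 0x100500f000000200a01e430)))) (.br (Nat.shiftLeft (nat_lit 0x1002807) (nat_lit 65)) (.br (Nat.shiftLeft (nat_lit 0x200500d) (nat_lit 64)) (.one (nat_lit 0x200500c000000400a018430)) (.one (nat_lit 0x200500d000000400a01a430))) (.br (Nat.shiftLeft (nat_lit 0x200500f) (nat_lit 64)) (.one (nat_lit 0x200500e000000400a01c430)) (.br (Nat.shiftLeft (nat_lit 0x3) (nat_lit 88)) (.one (nat_lit 0x200500f000000400a01e430)) (.one (nat_lit 0x300500c000000600a018430))))))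
def t139 : k139.all (jb2 57 fl b0) = true := by decide +kernel
noncomputable def k140 : KT := (.one (nat_lit 0x300500d000000600a01a430))
def t140 : k140.all (jb2 57 fl b0) = true := by decide +kernel
noncomputable def k141 : KT := (.one (nat_lit 0x300500e000000600a01c430))
def t141 : k141.all (jb2 57 fl b0) = true := by decide +kernel
noncomputable def k142 : KT := (.br (Nat.shiftLeft (nat_lit 0x100000500f) (nat_lit 64)) (.br (Nat.shiftLeft (nat_lit 0x100000500d) (nat_lit 64)) (.br (Nat.shiftLeft (nat_lit 0x1) (nat_lit 100)) (.one (nat_lit 0x300500f000000600a01e430)) (.one (nat_lit 0x100000500c000200000a018311))) (.br (Nat.shiftLeft (nat_lit 0x800002807) (nat_lit 65)) (.one (nat_lit 0x100000500d000200000a01a311)) (.one (nat_lit 0x100000500e000200000a01c311)))) (.br (Nat.shiftLeft (nat_lit 0x100400500d) (nat_lit 64)) (.br (Nat.shiftLeft (nat_lit 0x401) (nat_lit 90)) (.one (nat_lit 0x100000500f000200000a01e311)) (.one (nat_lit 0x100400500c000200800a018540))) (.br (Nat.shiftLeft (nat_lit 0x802002807) (nat_lit 65))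 (.one (nat_lit 0x100400500d000200800a01a540)) (.one (nat_lit 0x100400500e000200800a01c540)))))
def t142 : k142.all (jb2 57 fl b0) = true := by decide +kernel
noncomputable def k143 : KT := (.br (Nat.shiftLeft (nat_lit 0x1000002807) (nat_lit 65)) (.br (Nat.shiftLeft (nat_lit 0x1) (nat_lit 101)) (.one (nat_lit 0x100400500f000200800a01e540)) (.br (Nat.shiftLeft (nat_lit 0x200000500d) (nat_lit 64)) (.one (nat_lit 0x200000500c000400000a018311)) (.one (nat_lit 0x200000500d000400000a01a311)))) (.br (Nat.shiftLeft (nat_lit 0x200000500f) (nat_lit 64)) (.one (nat_lit 0x200000500e000400000a01c311)) (.br (Nat.shiftLeft (nat_lit 0x801) (nat_lit 90)) (.one (nat_lit 0x200000500f000400000a01e311)) (.one (nat_lit 0x200400500c000400800a018540)))))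
def t143 : k143.all (jb2 57 fl b0) = true := by decide +kernel
noncomputable def k144 : KT := (.one (nat_lit 0x200400500d000400800a01a540))
def t144 : k144.all (jb2 57 fl b0) = true := by decide +kernel
noncomputable def k145 : KT := (.one (nat_lit 0x200400500e000400800a01c540))
def t145 : k145.all (jb2 57 fl b0) = true := by decide +kernel
noncomputable def k146 : KT := (.br (Nat.shiftLeft (nat_lit 0x400000500f) (nat_lit 64)) (.br (Nat.shiftLeft (nat_lit 0x300000500f) (nat_lit 64)) (.br (Nat.shiftLeft (nat_lit 0x300000500d) (nat_lit 64)) (.br (Nat.shiftLeft (nat_lit 0x3) (nat_lit 100)) (.one (nat_lit 0x200400500f000400800a01e540)) (.one (nat_lit 0x300000500c000600000a018311))) (.br (Nat.shiftLeft (nat_lit 0x1800002807) (nat_lit 65)) (.one (nat_lit 0x300000500d000600000a01a311)) (.one (nat_lit 0x300000500e000600000a01c311)))) (.br (Nat.shiftLeft (nat_lit 0x400000500d) (nat_lit 64)) (.br (Nat.shiftLeft (nat_lit 0x1) (nat_lit 102)) (.one (nat_lit 0x300000500f000600000a01e311)) (.one (nat_lit 0x400000500c000800000a018311)))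 (.br (Nat.shiftLeft (nat_lit 0x2000002807) (nat_lit 65)) (.one (nat_lit 0x400000500d000800000a01a311)) (.one (nat_lit 0x400000500e000800000a01c311))))) (.br (Nat.shiftLeft (nat_lit 0x500000500f) (nat_lit 64)) (.br (Nat.shiftLeft (nat_lit 0x500000500d) (nat_lit 64)) (.br (Nat.shiftLeft (nat_lit 0x5) (nat_lit 100)) (.one (nat_lit 0x400000500f000800000a01e311)) (.one (nat_lit 0x500000500c000a00000a018311))) (.br (Nat.shiftLeft (nat_lit 0x2800002807) (nat_lit 65)) (.one (nat_lit 0x500000500d000a00000a01a311)) (.one (nat_lit 0x500000500e000a00000a01c311)))) (.br (Nat.shiftLeft (nat_lit 0x100000400500d) (nat_lit 64)) (.br (Nat.shiftLeft (nat_lit 0x1) (nat_lit 112)) (.one (nat_lit 0x500000500f000a00000a01e311)) (.one (nat_lit 0x100000400500c200000800a018411))) (.br (Nat.shiftLeft (nat_lit 0x800002002807) (nat_lit 65)) (.one (nat_lit 0x100000400500d200000800a01a411)) (.br (Nat.shiftLeft (nat_lit 0x100000400500f) (nat_lit 64)) (.one (nat_lit 0x100000400500e200000800a01c411)) (.one (nat_lit 0x100000400500f200000800a01e411)))))))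
def t146 : k146.all (jb2 57 fl b0) = true := by decide +kernel
noncomputable def k147 : KT := (.one (nat_lit 0x100300400500c200600800a018650))
def t147 : k147.all (jb2 57 fl b0) = true := by decide +kernel
noncomputable def k148 : KT := (.one (nat_lit 0x100300400500d200600800a01a650))
def t148 : k148.all (jb2 57 fl b0) = true := by decide +kernel
noncomputable def k149 : KT := (.one (nat_lit 0x100300400500e200600800a01c650))
def t149 : k149.all (jb2 57 fl b0) = true := by decide +kernel
noncomputable def k150 : KT := (.br (Nat.shiftLeft (nat_lit 0x400000400500d) (nat_lit 64)) (.br (Nat.shiftLeft (nat_lit 0x3) (nat_lit 112)) (.br (Nat.shiftLeft (nat_lit 0x200000400500d) (nat_lit 64)) (.br (Nat.shiftLeft (nat_lit 0x1) (nat_lit 113)) (.one (nat_lit 0x100300400500f200600800a01e650)) (.one (nat_lit 0x200000400500c400000800a018411))) (.br (Nat.shiftLeft (nat_lit 0x1000002002807) (nat_lit 65)) (.one (nat_lit 0x200000400500d400000800a01a411)) (.br (Nat.shiftLeft (nat_lit 0x200000400500f) (nat_lit 64)) (.one (nat_lit 0x200000400500e400000800a01c411))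 (.one (nat_lit 0x200000400500f400000800a01e411))))) (.br (Nat.shiftLeft (nat_lit 0x1800002002807) (nat_lit 65)) (.br (Nat.shiftLeft (nat_lit 0x300000400500d) (nat_lit 64)) (.one (nat_lit 0x300000400500c600000800a018411)) (.one (nat_lit 0x300000400500d600000800a01a411))) (.br (Nat.shiftLeft (nat_lit 0x300000400500f) (nat_lit 64)) (.one (nat_lit 0x300000400500e600000800a01c411)) (.br (Nat.shiftLeft (nat_lit 0x1) (nat_lit 114)) (.one (nat_lit 0x300000400500f600000800a01e411)) (.one (nat_lit 0x400000400500c800000800a018411)))))) (.br (Nat.shiftLeft (nat_lit 0x2800002002807) (nat_lit 65)) (.br (Nat.shiftLeft (nat_lit 0x400000400500f) (nat_lit 64)) (.br (Nat.shiftLeft (nat_lit 0x2000002002807) (nat_lit 65)) (.one (nat_lit 0x400000400500d800000800a01a411)) (.one (nat_lit 0x400000400500e800000800a01c411))) (.br (Nat.shiftLeft (nat_lit 0x5) (nat_lit 112)) (.one (nat_lit 0x400000400500f800000800a01e411)) (.br (Nat.shiftLeft (nat_lit 0x500000400500d) (nat_lit 64)) (.one (nat_lit 0x500000400500ca00000800a018411)) (.one (nat_lit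 0x500000400500da00000800a01a411))))) (.br (Nat.shiftLeft (nat_lit 0x100000300400500d) (nat_lit 64)) (.br (Nat.shiftLeft (nat_lit 0x500000400500f) (nat_lit 64)) (.one (nat_lit 0x500000400500ea00000800a01c411)) (.br (Nat.shiftLeft (nat_lit 0x1) (nat_lit 124)) (.one (nat_lit 0x500000400500fa00000800a01e411)) (.one (nat_lit 0x100000300400500c000600802a418511)))) (.br (Nat.shiftLeft (nat_lit 0x800001802002807) (nat_lit 65)) (.one (nat_lit 0x100000300400500d000600802a41a511)) (.br (Nat.shiftLeft (nat_lit 0x100000300400500f) (nat_lit 64)) (.one (nat_lit 0x100000300400500e000600802a41c511)) (.one (nat_lit 0x100000300400500f000600802a41e511)))))))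
def t150 : k150.all (jb2 57 fl b0) = true := by decide +kernel
noncomputable def k151 : KT := (.one (nat_lit 0x100200300400500c400600802a418760))
noncomputable def b152 : BT := .node (nat_lit 0x3) (nat_lit 0x1bc29354c93784a28542006e86801ab18000ca64012b570a4624e54c9000653200158c0323125e24d400329e0008b6c1001cd00112000b100050) .leaf .leaf
def t151 : k151.all (jb2 57 fl b152) = true := by decide +kernel
noncomputable def k152 : KT := (.one (nat_lit 0x100200300400500d400600802a41a760))
noncomputable def b153 : BT := .node (nat_lit 0x1) (nat_lit 0xde125e95080031e3000ad5c10008800028) .leaf .leaf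
def t152 : k152.all (jb2 57 fl b153) = true := by decide +kernel
noncomputable def k153 : KT := (.one (nat_lit 0x100200300400500e400600802a41c760))
def t153 : k153.all (jb2 57 fl b0) = true := by decide +kernel
noncomputable def k154 : KT := (.br (Nat.shiftLeft (nat_lit 0x3) (nat_lit 124)) (.br (Nat.shiftLeft (nat_lit 0x200000300400500d) (nat_lit 64)) (.br (Nat.shiftLeft (nat_lit 0x1) (nat_lit 125)) (.one (nat_lit 0x100200300400500f400600802a41e760)) (.one (nat_lit 0x200000300400500c000600804a818511))) (.br (Nat.shiftLeft (nat_lit 0x1000001802002807) (nat_lit 65)) (.one (nat_lit 0x200000300400500d000600804a81a511)) (.br (Nat.shiftLeft (nat_lit 0x200000300400500f) (nat_lit 64)) (.one (nat_lit 0x200000300400500e000600804a81c511)) (.one (nat_lit 0x200000300400500f000600804a81e511))))) (.br (Nat.shiftLeft (nat_lit 0x1800001802002807) (nat_lit 65)) (.br (Nat.shiftLeft (nat_lit 0x300000300400500d) (nat_lit 64)) (.one (nat_lit 0x300000300400500c000600806ac18511)) (.one (nat_lit 0x300000300400500d000600806ac1a511))) (.br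 (Nat.shiftLeft (nat_lit 0x300000300400500f) (nat_lit 64)) (.one (nat_lit 0x300000300400500e000600806ac1c511)) (.br (Nat.shiftLeft (nat_lit 0x1) (nat_lit 126)) (.one (nat_lit 0x300000300400500f000600806ac1e511)) (.one (nat_lit 0x400000300400500c000600808b018511))))))
def t154 : k154.all (jb2 57 fl b0) = true := by decide +kernel
noncomputable def k155 : KT := (.br (Nat.shiftLeft (nat_lit 0x500000300400500d) (nat_lit 64)) (.br (Nat.shiftLeft (nat_lit 0x400000300400500f) (nat_lit 64)) (.br (Nat.shiftLeft (nat_lit 0x2000001802002807) (nat_lit 65)) (.one (nat_lit 0x400000300400500d000600808b01a511)) (.one (nat_lit 0x400000300400500e000600808b01c511))) (.br (Nat.shiftLeft (nat_lit 0x5) (nat_lit 124)) (.one (nat_lit 0x400000300400500f000600808b01e511)) (.one (nat_lit 0x500000300400500c00060080ab418511)))) (.br (Nat.shiftLeft (nat_lit 0x500000300400500f) (nat_lit 64)) (.br (Nat.shiftLeft (nat_lit 0x2800001802002807) (nat_lit 65)) (.one (nat_lit 0x500000300400500d00060080ab41a511)) (.one (nat_lit 0x500000300400500e00060080ab41c511)))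 (.br (Nat.shiftLeft (nat_lit 0x1) (nat_lit 136)) (.one (nat_lit 0x500000300400500f00060080ab41e511)) (.br (Nat.shiftLeft (nat_lit 0x100000200300400500d) (nat_lit 64)) (.one (nat_lit 0x100000200300400500c400602840a018611)) (.one (nat_lit 0x100000200300400500d400602840a01a611))))))
def t155 : k155.all (jb2 57 fl b0) = true := by decide +kernel
noncomputable def k156 : KT := (.br (Nat.shiftLeft (nat_lit 0x300000200300400500d) (nat_lit 64)) (.br (Nat.shiftLeft (nat_lit 0x200000200300400500d) (nat_lit 64)) (.br (Nat.shiftLeft (nat_lit 0x100000200300400500f) (nat_lit 64)) (.one (nat_lit 0x100000200300400500e400602840a01c611)) (.br (Nat.shiftLeft (nat_lit 0x1) (nat_lit 137)) (.one (nat_lit 0x100000200300400500f400602840a01e611)) (.one (nat_lit 0x200000200300400500c400604880a018611)))) (.br (Nat.shiftLeft (nat_lit 0x200000200300400500f) (nat_lit 64)) (.br (Nat.shiftLeft (nat_lit 0x1000001001802002807) (nat_lit 65)) (.one (nat_lit 0x200000200300400500d400604880a01a611)) (.one (nat_lit 0x200000200300400500e400604880a01c611)))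 (.br (Nat.shiftLeft (nat_lit 0x3) (nat_lit 136)) (.one (nat_lit 0x200000200300400500f400604880a01e611)) (.one (nat_lit 0x300000200300400500c4006068c0a018611))))) (.br (Nat.shiftLeft (nat_lit 0x1) (nat_lit 138)) (.br (Nat.shiftLeft (nat_lit 0x1800001001802002807) (nat_lit 65)) (.one (nat_lit 0x300000200300400500d4006068c0a01a611)) (.br (Nat.shiftLeft (nat_lit 0x300000200300400500f) (nat_lit 64)) (.one (nat_lit 0x300000200300400500e4006068c0a01c611)) (.one (nat_lit 0x300000200300400500f4006068c0a01e611)))) (.br (Nat.shiftLeft (nat_lit 0x2000001001802002807) (nat_lit 65)) (.br (Nat.shiftLeft (nat_lit 0x400000200300400500d) (nat_lit 64)) (.one (nat_lit 0x400000200300400500c400608900a018611)) (.one (nat_lit 0x400000200300400500d400608900a01a611))) (.br (Nat.shiftLeft (nat_lit 0x400000200300400500f) (nat_lit 64)) (.one (nat_lit 0x400000200300400500e400608900a01c611)) (.one (nat_lit 0x400000200300400500f400608900a01e611))))))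
def t156 : k156.all (jb2 57 fl b0) = true := by decide +kernel
noncomputable def k157 : KT := (.one (nat_lit 0x500000200300400500c40060a940a018611))
def t157 : k157.all (jb2 57 fl b0) = true := by decide +kernel
noncomputable def k158 : KT := (.one (nat_lit 0x500000200300400500d40060a940a01a611))
def t158 : k158.all (jb2 57 fl b0) = true := by decide +kernel
noncomputable def k159 : KT := (.one (nat_lit 0x500000200300400500e40060a940a01c611))
def t159 : k159.all (jb2 57 fl b0) = true := by decide +kernel
noncomputable def k160 : KT := (.one (nat_lit 0x500000200300400500f40060a940a01e611))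
def t160 : k160.all (jb2 57 fl b0) = true := by decide +kernel
noncomputable def s8 : KT := (.br (nat_lit 0x100300400500e200600800a01c650) (.br (nat_lit 0x200400500c000400800a018540) (.br (nat_lit 0x300500d000000600a01a430) (.br (nat_lit 0x300500c000000600a018430) k139 k140) (.br (nat_lit 0x300500e000000600a01c430) k141 (.br (nat_lit 0x100400500e000200800a01c540) k142 k143))) (.br (nat_lit 0x100000400500f200000800a01e411) (.br (nat_lit 0x200400500d000400800a01a540) k144 (.br (nat_lit 0x200400500e000400800a01c540) k145 k146)) (.br (nat_lit 0x100300400500c200600800a018650) k147 (.br (nat_lit 0x100300400500d200600800a01a650) k148 k149)))) (.br (nat_lit 0x400000300400500c000600808b018511) (.br (nat_lit 0x100200300400500c400600802a418760) (.br (nat_lit 0x100000300400500f000600802a41e511) k150 k151) (.br (nat_lit 0x100200300400500d400600802a41a760) k152 (.br (nat_lit 0x100200300400500e400600802a41c760) k153 k154))) (.br (nat_lit 0x500000200300400500c40060a940a018611) (.br (nat_lit 0x100000200300400500d400602840a01a611)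 k155 (.br (nat_lit 0x400000200300400500f400608900a01e611) k156 k157)) (.br (nat_lit 0x500000200300400500d40060a940a01a611) k158 (.br (nat_lit 0x500000200300400500e40060a940a01c611) k159 k160)))))
noncomputable def u8 : KT := (.br (Nat.shiftLeft (nat_lit 0x2807) (nat_lit 65)) (.br (Nat.shiftLeft (nat_lit 0x500d) (nat_lit 64)) (.one (nat_lit 0x500c000000000a018320)) (.one (nat_lit 0x500d000000000a01a320))) (.br (Nat.shiftLeft (nat_lit 0x500f) (nat_lit 64)) (.one (nat_lit 0x500e000000000a01c320)) (.one (nat_lit 0x500f000000000a01e320))))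
def w8 : u8.all (wj 57 s8) = true := by decide +kernel
def o8 : OkW 57 (jb2 57 fl) u8 := .lift s8 _ (.br _ _ _ (.br _ _ _ (.br _ _ _ (.br _ _ _ (.leaf b0 k139 t139) (.leaf b0 k140 t140)) (.br _ _ _ (.leaf b0 k141 t141) (.br _ _ _ (.leaf b0 k142 t142) (.leaf b0 k143 t143)))) (.br _ _ _ (.br _ _ _ (.leaf b0 k144 t144) (.br _ _ _ (.leaf b0 k145 t145) (.leaf b0 k146 t146))) (.br _ _ _ (.leaf b0 k147 t147) (.br _ _ _ (.leaf b0 k148 t148) (.leaf b0 k149 t149))))) (.br _ _ _ (.br _ _ _ (.br _ _ _ (.leaf b0 k150 t150) (.leaf b152 k151 t151)) (.br _ _ _ (.leaf b153 k152 t152) (.br _ _ _ (.leaf b0 k153 t153) (.leaf b0 k154 t154)))) (.br _ _ _ (.br _ _ _ (.leaf b0 k155 t155) (.br _ _ _ (.leaf b0 k156 t156) (.leaf b0 k157 t157))) (.br _ _ _ (.leaf b0 k158 t158) (.br _ _ _ (.leaf b0 k159 t159) (.leaf b0 k160 t160)))))) w8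
noncomputable def k161 : KT := (.br (Nat.shiftLeft (nat_lit 0x1) (nat_lit 89)) (.br (Nat.shiftLeft (nat_lit 0x802809) (nat_lit 65)) (.br (Nat.shiftLeft (nat_lit 0x1005011) (nat_lit 64)) (.one (nat_lit 0x1005010000000200a020430)) (.one (nat_lit 0x1005011000000200a022430))) (.br (Nat.shiftLeft (nat_lit 0x1005013) (nat_lit 64)) (.one (nat_lit 0x1005012000000200a024430)) (.br (Nat.shiftLeft (nat_lit 0x401405) (nat_lit 66)) (.one (nat_lit 0x1005013000000200a026430)) (.one (nat_lit 0x1005014000000200a028430))))) (.br (Nat.shiftLeft (nat_lit 0x1002809) (nat_lit 65)) (.br (Nat.shiftLeft (nat_lit 0x2005011) (nat_lit 64)) (.one (nat_lit 0x2005010000000400a020430)) (.one (nat_lit 0x2005011000000400a022430))) (.br (Nat.shiftLeft (nat_lit 0x2005013) (nat_lit 64)) (.one (nat_lit 0x2005012000000400a024430)) (.br (Nat.shiftLeft (nat_lit 0x801405) (nat_lit 66)) (.one (nat_lit 0x2005013000000400a026430)) (.one (nat_lit 0x2005014000000400a028430))))))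
def t161 : k161.all (jb2 57 fl b0) = true := by decide +kernel
noncomputable def k162 : KT := (.one (nat_lit 0x3005010000000600a020430))
def t162 : k162.all (jb2 57 fl b0) = true := by decide +kernel
noncomputable def k163 : KT := (.one (nat_lit 0x3005011000000600a022430))
def t163 : k163.all (jb2 57 fl b0) = true := by decide +kernel
noncomputable def k164 : KT := (.one (nat_lit 0x3005012000000600a024430))
def t164 : k164.all (jb2 57 fl b0) = true := by decide +kernel
noncomputable def k165 : KT := (.one (nat_lit 0x3005013000000600a026430))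
def t165 : k165.all (jb2 57 fl b0) = true := by decide +kernel
noncomputable def k166 : KT := (.br (Nat.shiftLeft (nat_lit 0x1000005013) (nat_lit 64)) (.br (Nat.shiftLeft (nat_lit 0x1000005011) (nat_lit 64)) (.br (Nat.shiftLeft (nat_lit 0x1) (nat_lit 100)) (.one (nat_lit 0x3005014000000600a028430)) (.one (nat_lit 0x1000005010000200000a020311))) (.br (Nat.shiftLeft (nat_lit 0x800002809) (nat_lit 65)) (.one (nat_lit 0x1000005011000200000a022311)) (.one (nat_lit 0x1000005012000200000a024311)))) (.br (Nat.shiftLeft (nat_lit 0x401) (nat_lit 90)) (.br (Nat.shiftLeft (nat_lit 0x400001405) (nat_lit 66)) (.one (nat_lit 0x1000005013000200000a026311)) (.one (nat_lit 0x1000005014000200000a028311))) (.br (Nat.shiftLeft (nat_lit 0x1004005011) (nat_lit 64)) (.one (nat_lit 0x1004005010000200800a020540)) (.one (nat_lit 0x1004005011000200800a022540)))))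
def t166 : k166.all (jb2 57 fl b0) = true := by decide +kernel
noncomputable def k167 : KT := (.br (Nat.shiftLeft (nat_lit 0x2000005011) (nat_lit 64)) (.br (Nat.shiftLeft (nat_lit 0x401001405) (nat_lit 66)) (.br (Nat.shiftLeft (nat_lit 0x1004005013) (nat_lit 64)) (.one (nat_lit 0x1004005012000200800a024540)) (.one (nat_lit 0x1004005013000200800a026540))) (.br (Nat.shiftLeft (nat_lit 0x1) (nat_lit 101)) (.one (nat_lit 0x1004005014000200800a028540)) (.one (nat_lit 0x2000005010000400000a020311)))) (.br (Nat.shiftLeft (nat_lit 0x2000005013) (nat_lit 64)) (.br (Nat.shiftLeft (nat_lit 0x1000002809) (nat_lit 65)) (.one (nat_lit 0x2000005011000400000a022311)) (.one (nat_lit 0x2000005012000400000a024311))) (.br (Nat.shiftLeft (nat_lit 0x800001405) (nat_lit 66)) (.one (nat_lit 0x2000005013000400000a026311)) (.one (nat_lit 0x2000005014000400000a028311)))))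
def t167 : k167.all (jb2 57 fl b0) = true := by decide +kernel
noncomputable def k168 : KT := (.one (nat_lit 0x2004005010000400800a020540))
def t168 : k168.all (jb2 57 fl b0) = true := by decide +kernel
noncomputable def k169 : KT := (.one (nat_lit 0x2004005011000400800a022540))
def t169 : k169.all (jb2 57 fl b0) = true := by decide +kernel
noncomputable def k170 : KT := (.one (nat_lit 0x2004005012000400800a024540))
def t170 : k170.all (jb2 57 fl b0) = true := by decide +kernel
noncomputable def k171 : KT := (.one (nat_lit 0x2004005013000400800a026540))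
def t171 : k171.all (jb2 57 fl b0) = true := by decide +kernel
noncomputable def k172 : KT := (.br (Nat.shiftLeft (nat_lit 0x1000001405) (nat_lit 66)) (.br (Nat.shiftLeft (nat_lit 0xc00001405) (nat_lit 66)) (.br (Nat.shiftLeft (nat_lit 0x3000005011) (nat_lit 64)) (.br (Nat.shiftLeft (nat_lit 0x3) (nat_lit 100)) (.one (nat_lit 0x2004005014000400800a028540)) (.one (nat_lit 0x3000005010000600000a020311))) (.br (Nat.shiftLeft (nat_lit 0x1800002809) (nat_lit 65)) (.one (nat_lit 0x3000005011000600000a022311)) (.br (Nat.shiftLeft (nat_lit 0x3000005013) (nat_lit 64)) (.one (nat_lit 0x3000005012000600000a024311)) (.one (nat_lit 0x3000005013000600000a026311))))) (.br (Nat.shiftLeft (nat_lit 0x4000005011) (nat_lit 64)) (.br (Nat.shiftLeft (nat_lit 0xc01) (nat_lit 90)) (.one (nat_lit 0x3000005014000600000a028311)) (.br (Nat.shiftLeft (nat_lit 0x1) (nat_lit 102)) (.one (nat_lit 0x3004005014000600800a029500)) (.one (nat_lit 0x4000005010000800000a020311)))) (.br (Nat.shiftLeft (nat_lit 0x2000002809) (nat_lit 65)) (.one (nat_lit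 0x4000005011000800000a022311)) (.br (Nat.shiftLeft (nat_lit 0x4000005013) (nat_lit 64)) (.one (nat_lit 0x4000005012000800000a024311)) (.one (nat_lit 0x4000005013000800000a026311)))))) (.br (Nat.shiftLeft (nat_lit 0x1400001405) (nat_lit 66)) (.br (Nat.shiftLeft (nat_lit 0x5000005011) (nat_lit 64)) (.br (Nat.shiftLeft (nat_lit 0x5) (nat_lit 100)) (.one (nat_lit 0x4000005014000800000a028311)) (.one (nat_lit 0x5000005010000a00000a020311))) (.br (Nat.shiftLeft (nat_lit 0x2800002809) (nat_lit 65)) (.one (nat_lit 0x5000005011000a00000a022311)) (.br (Nat.shiftLeft (nat_lit 0x5000005013) (nat_lit 64)) (.one (nat_lit 0x5000005012000a00000a024311)) (.one (nat_lit 0x5000005013000a00000a026311))))) (.br (Nat.shiftLeft (nat_lit 0x800002002809) (nat_lit 65)) (.br (Nat.shiftLeft (nat_lit 0x1) (nat_lit 112)) (.one (nat_lit 0x5000005014000a00000a028311)) (.br (Nat.shiftLeft (nat_lit 0x1000004005011) (nat_lit 64)) (.one (nat_lit 0x1000004005010200000800a020411)) (.one (nat_lit 0x1000004005011200000800a022411)))) (.br (Nat.shiftLeft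 (nat_lit 0x1000004005013) (nat_lit 64)) (.one (nat_lit 0x1000004005012200000800a024411)) (.br (Nat.shiftLeft (nat_lit 0x400001001405) (nat_lit 66)) (.one (nat_lit 0x1000004005013200000800a026411)) (.one (nat_lit 0x1000004005014200000800a028411)))))))
def t172 : k172.all (jb2 57 fl b0) = true := by decide +kernel
noncomputable def k173 : KT := (.one (nat_lit 0x1003004005010200600800a020650))
def t173 : k173.all (jb2 57 fl b0) = true := by decide +kernel
noncomputable def k174 : KT := (.one (nat_lit 0x1003004005011200600800a022650))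
def t174 : k174.all (jb2 57 fl b0) = true := by decide +kernel
noncomputable def k175 : KT := (.one (nat_lit 0x1003004005012200600800a024650))
def t175 : k175.all (jb2 57 fl b0) = true := by decide +kernel
noncomputable def k176 : KT := (.one (nat_lit 0x1003004005013200600800a026650))
def t176 : k176.all (jb2 57 fl b0) = true := by decide +kernel
noncomputable def k177 : KT := (.br (Nat.shiftLeft (nat_lit 0x1) (nat_lit 114)) (.br (Nat.shiftLeft (nat_lit 0x2003004005013) (nat_lit 64)) (.br (Nat.shiftLeft (nat_lit 0x1000002002809) (nat_lit 65)) (.br (Nat.shiftLeft (nat_lit 0x1) (nat_lit 113)) (.one (nat_lit 0x1003004005014200600800a028650)) (.br (Nat.shiftLeft (nat_lit 0x2000004005011) (nat_lit 64)) (.one (nat_lit 0x2000004005010400000800a020411)) (.one (nat_lit 0x2000004005011400000800a022411)))) (.br (Nat.shiftLeft (nat_lit 0x800001001405) (nat_lit 66)) (.br (Nat.shiftLeft (nat_lit 0x2000004005013) (nat_lit 64)) (.one (nat_lit 0x2000004005012400000800a024411)) (.one (nat_lit 0x2000004005013400000800a026411)))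 (.br (Nat.shiftLeft (nat_lit 0x1001) (nat_lit 101)) (.one (nat_lit 0x2000004005014400000800a028411)) (.one (nat_lit 0x2003004005012400600800a025600))))) (.br (Nat.shiftLeft (nat_lit 0x3000004005011) (nat_lit 64)) (.br (Nat.shiftLeft (nat_lit 0x800c01001405) (nat_lit 66)) (.one (nat_lit 0x2003004005013400600800a027600)) (.br (Nat.shiftLeft (nat_lit 0x3) (nat_lit 112)) (.one (nat_lit 0x2003004005014400600800a029600)) (.one (nat_lit 0x3000004005010600000800a020411)))) (.br (Nat.shiftLeft (nat_lit 0x3000004005013) (nat_lit 64)) (.br (Nat.shiftLeft (nat_lit 0x1800002002809) (nat_lit 65)) (.one (nat_lit 0x3000004005011600000800a022411)) (.one (nat_lit 0x3000004005012600000800a024411))) (.br (Nat.shiftLeft (nat_lit 0xc00001001405) (nat_lit 66)) (.one (nat_lit 0x3000004005013600000800a026411)) (.one (nat_lit 0x3000004005014600000800a028411)))))) (.br (Nat.shiftLeft (nat_lit 0x2800002002809) (nat_lit 65)) (.br (Nat.shiftLeft (nat_lit 0x4000004005013) (nat_lit 64)) (.br (Nat.shiftLeft (nat_lit 0x4000004005011) (nat_lit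 64)) (.one (nat_lit 0x4000004005010800000800a020411)) (.br (Nat.shiftLeft (nat_lit 0x2000002002809) (nat_lit 65)) (.one (nat_lit 0x4000004005011800000800a022411)) (.one (nat_lit 0x4000004005012800000800a024411)))) (.br (Nat.shiftLeft (nat_lit 0x5) (nat_lit 112)) (.br (Nat.shiftLeft (nat_lit 0x1000001001405) (nat_lit 66)) (.one (nat_lit 0x4000004005013800000800a026411)) (.one (nat_lit 0x4000004005014800000800a028411))) (.br (Nat.shiftLeft (nat_lit 0x5000004005011) (nat_lit 64)) (.one (nat_lit 0x5000004005010a00000800a020411)) (.one (nat_lit 0x5000004005011a00000800a022411))))) (.br (Nat.shiftLeft (nat_lit 0x1000003004005011) (nat_lit 64)) (.br (Nat.shiftLeft (nat_lit 0x1400001001405) (nat_lit 66)) (.br (Nat.shiftLeft (nat_lit 0x5000004005013) (nat_lit 64)) (.one (nat_lit 0x5000004005012a00000800a024411)) (.one (nat_lit 0x5000004005013a00000800a026411))) (.br (Nat.shiftLeft (nat_lit 0x1) (nat_lit 124)) (.one (nat_lit 0x5000004005014a00000800a028411)) (.one (nat_lit 0x1000003004005010000600802a420511)))) (.br (Nat.shiftLeft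 (nat_lit 0x1000003004005013) (nat_lit 64)) (.br (Nat.shiftLeft (nat_lit 0x800001802002809) (nat_lit 65)) (.one (nat_lit 0x1000003004005011000600802a422511)) (.one (nat_lit 0x1000003004005012000600802a424511))) (.br (Nat.shiftLeft (nat_lit 0x400000c01001405) (nat_lit 66)) (.one (nat_lit 0x1000003004005013000600802a426511)) (.one (nat_lit 0x1000003004005014000600802a428511)))))))
def t177 : k177.all (jb2 57 fl b0) = true := by decide +kernel
noncomputable def k178 : KT := (.one (nat_lit 0x1002003004005010400600802a420760))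
def t178 : k178.all (jb2 57 fl b0) = true := by decide +kernel
noncomputable def k179 : KT := (.one (nat_lit 0x1002003004005011400600802a422760))
def t179 : k179.all (jb2 57 fl b0) = true := by decide +kernel
noncomputable def k180 : KT := (.one (nat_lit 0x1002003004005012400600802a424760))
def t180 : k180.all (jb2 57 fl b0) = true := by decide +kernel
noncomputable def k181 : KT := (.one (nat_lit 0x1002003004005013400600802a426760))
def t181 : k181.all (jb2 57 fl b0) = true := by decide +kernel
noncomputable def k182 : KT := (.br (Nat.shiftLeft (nat_lit 0x3000003004005011) (nat_lit 64)) (.br (Nat.shiftLeft (nat_lit 0x1000001802002809) (nat_lit 65)) (.br (Nat.shiftLeft (nat_lit 0x1) (nat_lit 125)) (.one (nat_lit 0x1002003004005014400600802a428760)) (.br (Nat.shiftLeft (nat_lit 0x2000003004005011) (nat_lit 64)) (.one (nat_lit 0x2000003004005010000600804a820511)) (.one (nat_lit 0x2000003004005011000600804a822511)))) (.br (Nat.shiftLeft (nat_lit 0x800000c01001405) (nat_lit 66)) (.br (Nat.shiftLeft (nat_lit 0x2000003004005013)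 (nat_lit 64)) (.one (nat_lit 0x2000003004005012000600804a824511)) (.one (nat_lit 0x2000003004005013000600804a826511))) (.br (Nat.shiftLeft (nat_lit 0x3) (nat_lit 124)) (.one (nat_lit 0x2000003004005014000600804a828511)) (.one (nat_lit 0x3000003004005010000600806ac20511))))) (.br (Nat.shiftLeft (nat_lit 0xc00000c01001405) (nat_lit 66)) (.br (Nat.shiftLeft (nat_lit 0x1800001802002809) (nat_lit 65)) (.one (nat_lit 0x3000003004005011000600806ac22511)) (.br (Nat.shiftLeft (nat_lit 0x3000003004005013) (nat_lit 64)) (.one (nat_lit 0x3000003004005012000600806ac24511)) (.one (nat_lit 0x3000003004005013000600806ac26511)))) (.br (Nat.shiftLeft (nat_lit 0x4000003004005011) (nat_lit 64)) (.br (Nat.shiftLeft (nat_lit 0x1) (nat_lit 126)) (.one (nat_lit 0x3000003004005014000600806ac28511)) (.one (nat_lit 0x4000003004005010000600808b020511))) (.br (Nat.shiftLeft (nat_lit 0x2000001802002809) (nat_lit 65)) (.one (nat_lit 0x4000003004005011000600808b022511)) (.one (nat_lit 0x4000003004005012000600808b024511))))))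
def t182 : k182.all (jb2 57 fl b0) = true := by decide +kernel
noncomputable def k183 : KT := (.br (Nat.shiftLeft (nat_lit 0x5000003004005011) (nat_lit 64)) (.br (Nat.shiftLeft (nat_lit 0x1000000c01001405) (nat_lit 66)) (.one (nat_lit 0x4000003004005013000600808b026511)) (.br (Nat.shiftLeft (nat_lit 0x5) (nat_lit 124)) (.one (nat_lit 0x4000003004005014000600808b028511)) (.one (nat_lit 0x500000300400501000060080ab420511)))) (.br (Nat.shiftLeft (nat_lit 0x2800001802002809) (nat_lit 65)) (.one (nat_lit 0x500000300400501100060080ab422511)) (.br (Nat.shiftLeft (nat_lit 0x5000003004005013) (nat_lit 64)) (.one (nat_lit 0x500000300400501200060080ab424511)) (.one (nat_lit 0x500000300400501300060080ab426511)))))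
def t183 : k183.all (jb2 57 fl b0) = true := by decide +kernel
noncomputable def k184 : KT := (.br (Nat.shiftLeft (nat_lit 0x800000800c01001405) (nat_lit 66)) (.br (Nat.shiftLeft (nat_lit 0x400000800c01001405) (nat_lit 66)) (.br (Nat.shiftLeft (nat_lit 0x1000002003004005011) (nat_lit 64)) (.br (Nat.shiftLeft (nat_lit 0x1) (nat_lit 136)) (.one (nat_lit 0x500000300400501400060080ab428511)) (.one (nat_lit 0x1000002003004005010400602840a020611))) (.br (Nat.shiftLeft (nat_lit 0x800001001802002809) (nat_lit 65)) (.one (nat_lit 0x1000002003004005011400602840a022611)) (.br (Nat.shiftLeft (nat_lit 0x1000002003004005013) (nat_lit 64)) (.one (nat_lit 0x1000002003004005012400602840a024611)) (.one (nat_lit 0x1000002003004005013400602840a026611))))) (.br (Nat.shiftLeft (nat_lit 0x2000002003004005011) (nat_lit 64)) (.br (Nat.shiftLeft (nat_lit 0x1) (nat_lit 137)) (.one (nat_lit 0x1000002003004005014400602840a028611)) (.one (nat_lit 0x2000002003004005010400604880a020611))) (.br (Nat.shiftLeft (nat_lit 0x1000001001802002809) (nat_lit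 65)) (.one (nat_lit 0x2000002003004005011400604880a022611)) (.br (Nat.shiftLeft (nat_lit 0x2000002003004005013) (nat_lit 64)) (.one (nat_lit 0x2000002003004005012400604880a024611)) (.one (nat_lit 0x2000002003004005013400604880a026611)))))) (.br (Nat.shiftLeft (nat_lit 0xc00000800c01001405) (nat_lit 66)) (.br (Nat.shiftLeft (nat_lit 0x3000002003004005011) (nat_lit 64)) (.br (Nat.shiftLeft (nat_lit 0x3) (nat_lit 136)) (.one (nat_lit 0x2000002003004005014400604880a028611)) (.one (nat_lit 0x30000020030040050104006068c0a020611))) (.br (Nat.shiftLeft (nat_lit 0x1800001001802002809) (nat_lit 65)) (.one (nat_lit 0x30000020030040050114006068c0a022611)) (.br (Nat.shiftLeft (nat_lit 0x3000002003004005013) (nat_lit 64)) (.one (nat_lit 0x30000020030040050124006068c0a024611)) (.one (nat_lit 0x30000020030040050134006068c0a026611))))) (.br (Nat.shiftLeft (nat_lit 0x2000001001802002809) (nat_lit 65)) (.br (Nat.shiftLeft (nat_lit 0x1) (nat_lit 138)) (.one (nat_lit 0x30000020030040050144006068c0a028611)) (.br (Nat.shiftLeft (nat_lit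 0x4000002003004005011) (nat_lit 64)) (.one (nat_lit 0x4000002003004005010400608900a020611)) (.one (nat_lit 0x4000002003004005011400608900a022611)))) (.br (Nat.shiftLeft (nat_lit 0x4000002003004005013) (nat_lit 64)) (.one (nat_lit 0x4000002003004005012400608900a024611)) (.br (Nat.shiftLeft (nat_lit 0x1000000800c01001405) (nat_lit 66)) (.one (nat_lit 0x4000002003004005013400608900a026611)) (.one (nat_lit 0x4000002003004005014400608900a028611)))))))
def t184 : k184.all (jb2 57 fl b0) = true := by decide +kernel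
noncomputable def k185 : KT := (.one (nat_lit 0x500000200300400501040060a940a020611))
def t185 : k185.all (jb2 57 fl b0) = true := by decide +kernel
noncomputable def k186 : KT := (.one (nat_lit 0x500000200300400501140060a940a022611))
def t186 : k186.all (jb2 57 fl b0) = true := by decide +kernel
noncomputable def k187 : KT := (.br (Nat.shiftLeft (nat_lit 0x5000002003004005013) (nat_lit 64)) (.one (nat_lit 0x500000200300400501240060a940a024611)) (.one (nat_lit 0x500000200300400501340060a940a026611)))
def t187 : k187.all (jb2 57 fl b0) = true := by decide +kernel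
noncomputable def k188 : KT := (.one (nat_lit 0x500000200300400501440060a940a028611))
def t188 : k188.all (jb2 57 fl b0) = true := by decide +kernel
noncomputable def s9 : KT := (.br (nat_lit 0x1003004005011200600800a022650) (.br (nat_lit 0x2000005014000400000a028311) (.br (nat_lit 0x3005011000000600a022430) (.br (nat_lit 0x2005014000000400a028430) k161 (.br (nat_lit 0x3005010000000600a020430) k162 k163)) (.br (nat_lit 0x3005013000000600a026430) (.br (nat_lit 0x3005012000000600a024430) k164 k165) (.br (nat_lit 0x1004005011000200800a022540) k166 k167))) (.br (nat_lit 0x2004005012000400800a024540) (.br (nat_lit 0x2004005010000400800a020540) k168 (.br (nat_lit 0x2004005011000400800a022540) k169 k170)) (.br (nat_lit 0x1000004005014200000800a028411) (.br (nat_lit 0x2004005013000400800a026540) k171 k172) (.br (nat_lit 0x1003004005010200600800a020650) k173 k174)))) (.br (nat_lit 0x1002003004005013400600802a426760) (.br (nat_lit 0x1000003004005014000600802a428511) (.br (nat_lit 0x1003004005012200600800a024650) k175 (.br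 (nat_lit 0x1003004005013200600800a026650) k176 k177)) (.br (nat_lit 0x1002003004005011400600802a422760) (.br (nat_lit 0x1002003004005010400600802a420760) k178 k179) (.br (nat_lit 0x1002003004005012400600802a424760) k180 k181))) (.br (nat_lit 0x4000002003004005014400608900a028611) (.br (nat_lit 0x4000003004005012000600808b024511) k182 (.br (nat_lit 0x500000300400501300060080ab426511) k183 k184)) (.br (nat_lit 0x500000200300400501140060a940a022611) (.br (nat_lit 0x500000200300400501040060a940a020611) k185 k186) (.br (nat_lit 0x500000200300400501340060a940a026611) k187 k188)))))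
noncomputable def u9 : KT := (.br (Nat.shiftLeft (nat_lit 0x2809) (nat_lit 65)) (.br (Nat.shiftLeft (nat_lit 0x5011) (nat_lit 64)) (.one (nat_lit 0x5010000000000a020320)) (.one (nat_lit 0x5011000000000a022320))) (.br (Nat.shiftLeft (nat_lit 0x5013) (nat_lit 64)) (.one (nat_lit 0x5012000000000a024320)) (.br (Nat.shiftLeft (nat_lit 0x1405) (nat_lit 66)) (.one (nat_lit 0x5013000000000a026320)) (.one (nat_lit 0x5014000000000a028320)))))
def w9 : u9.all (wj 57 s9) = true := by decide +kernel
def o9 : OkW 57 (jb2 57 fl) u9 := .lift s9 _ (.br _ _ _ (.br _ _ _ (.br _ _ _ (.br _ _ _ (.leaf b0 k161 t161) (.br _ _ _ (.leaf b0 k162 t162) (.leaf b0 k163 t163))) (.br _ _ _ (.br _ _ _ (.leaf b0 k164 t164) (.leaf b0 k165 t165)) (.br _ _ _ (.leaf b0 k166 t166) (.leaf b0 k167 t167)))) (.br _ _ _ (.br _ _ _ (.leaf b0 k168 t168) (.br _ _ _ (.leaf b0 k169 t169) (.leaf b0 k170 t170))) (.br _ _ _ (.br _ _ _ (.leaf b0 k171 t171) (.leaf b0 k172 t172)) (.br _ _ _ (.leaf b0 k173 t173) (.leaf b0 k174 t174))))) (.br _ _ _ (.br _ _ _ (.br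 _ _ _ (.leaf b0 k175 t175) (.br _ _ _ (.leaf b0 k176 t176) (.leaf b0 k177 t177))) (.br _ _ _ (.br _ _ _ (.leaf b0 k178 t178) (.leaf b0 k179 t179)) (.br _ _ _ (.leaf b0 k180 t180) (.leaf b0 k181 t181)))) (.br _ _ _ (.br _ _ _ (.leaf b0 k182 t182) (.br _ _ _ (.leaf b0 k183 t183) (.leaf b0 k184 t184))) (.br _ _ _ (.br _ _ _ (.leaf b0 k185 t185) (.leaf b0 k186 t186)) (.br _ _ _ (.leaf b0 k187 t187) (.leaf b0 k188 t188)))))) w9
noncomputable def k189 : KT := (.br (Nat.shiftLeft (nat_lit 0x1) (nat_lit 89)) (.br (Nat.shiftLeft (nat_lit 0x200a03) (nat_lit 67)) (.br (Nat.shiftLeft (nat_lit 0x80280b) (nat_lit 65)) (.one (nat_lit 0x1005015000000200a02a430)) (.br (Nat.shiftLeft (nat_lit 0x1005017) (nat_lit 64)) (.one (nat_lit 0x1005016000000200a02c430)) (.one (nat_lit 0x1005017000000200a02e430)))) (.br (Nat.shiftLeft (nat_lit 0x1005019) (nat_lit 64)) (.one (nat_lit 0x1005018000000200a030430)) (.br (Nat.shiftLeft (nat_lit 0x80280d) (nat_lit 65)) (.one (nat_lit 0x1005019000000200a032430)) (.one (nat_lit 0x100501a000000200a034430)))))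 (.br (Nat.shiftLeft (nat_lit 0x400a03) (nat_lit 67)) (.br (Nat.shiftLeft (nat_lit 0x100280b) (nat_lit 65)) (.one (nat_lit 0x2005015000000400a02a430)) (.br (Nat.shiftLeft (nat_lit 0x2005017) (nat_lit 64)) (.one (nat_lit 0x2005016000000400a02c430)) (.one (nat_lit 0x2005017000000400a02e430)))) (.br (Nat.shiftLeft (nat_lit 0x2005019) (nat_lit 64)) (.one (nat_lit 0x2005018000000400a030430)) (.br (Nat.shiftLeft (nat_lit 0x100280d) (nat_lit 65)) (.one (nat_lit 0x2005019000000400a032430)) (.one (nat_lit 0x200501a000000400a034430))))))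
def t189 : k189.all (jb2 57 fl b0) = true := by decide +kernel
noncomputable def k190 : KT := (.one (nat_lit 0x3005015000000600a02a430))
def t190 : k190.all (jb2 57 fl b0) = true := by decide +kernel
noncomputable def k191 : KT := (.one (nat_lit 0x3005016000000600a02c430))
def t191 : k191.all (jb2 57 fl b0) = true := by decide +kernel
noncomputable def k192 : KT := (.one (nat_lit 0x3005017000000600a02e430))
def t192 : k192.all (jb2 57 fl b0) = true := by decide +kernel
noncomputable def k193 : KT := (.one (nat_lit 0x3005018000000600a030430))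
def t193 : k193.all (jb2 57 fl b0) = true := by decide +kernel
noncomputable def k194 : KT := (.one (nat_lit 0x3005019000000600a032430))
def t194 : k194.all (jb2 57 fl b0) = true := by decide +kernel
noncomputable def k195 : KT := (.br (Nat.shiftLeft (nat_lit 0x80000280b) (nat_lit 65)) (.br (Nat.shiftLeft (nat_lit 0x4005019) (nat_lit 64)) (.br (Nat.shiftLeft (nat_lit 0x1) (nat_lit 90)) (.one (nat_lit 0x300501a000000600a034430)) (.br (Nat.shiftLeft (nat_lit 0x800a03) (nat_lit 67)) (.one (nat_lit 0x4005017000000800a02f400)) (.one (nat_lit 0x4005018000000800a031400)))) (.br (Nat.shiftLeft (nat_lit 0x200280d) (nat_lit 65)) (.one (nat_lit 0x4005019000000800a033400)) (.br (Nat.shiftLeft (nat_lit 0x1) (nat_lit 100)) (.one (nat_lit 0x400501a000000800a035400)) (.one (nat_lit 0x1000005015000200000a02a311))))) (.br (Nat.shiftLeft (nat_lit 0x1000005019) (nat_lit 64)) (.br (Nat.shiftLeft (nat_lit 0x1000005017) (nat_lit 64)) (.one (nat_lit 0x1000005016000200000a02c311)) (.br (Nat.shiftLeft (nat_lit 0x200000a03) (nat_lit 67))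 (.one (nat_lit 0x1000005017000200000a02e311)) (.one (nat_lit 0x1000005018000200000a030311)))) (.br (Nat.shiftLeft (nat_lit 0x401) (nat_lit 90)) (.br (Nat.shiftLeft (nat_lit 0x80000280d) (nat_lit 65)) (.one (nat_lit 0x1000005019000200000a032311)) (.one (nat_lit 0x100000501a000200000a034311))) (.br (Nat.shiftLeft (nat_lit 0x80200280b) (nat_lit 65)) (.one (nat_lit 0x1004005015000200800a02a540)) (.one (nat_lit 0x1004005016000200800a02c540))))))
def t195 : k195.all (jb2 57 fl b0) = true := by decide +kernel
noncomputable def k196 : KT := (.br (Nat.shiftLeft (nat_lit 0x100000280b) (nat_lit 65)) (.br (Nat.shiftLeft (nat_lit 0x1004005019) (nat_lit 64)) (.br (Nat.shiftLeft (nat_lit 0x200800a03) (nat_lit 67)) (.one (nat_lit 0x1004005017000200800a02e540)) (.one (nat_lit 0x1004005018000200800a030540))) (.br (Nat.shiftLeft (nat_lit 0x80200280d) (nat_lit 65)) (.one (nat_lit 0x1004005019000200800a032540)) (.br (Nat.shiftLeft (nat_lit 0x1) (nat_lit 101)) (.one (nat_lit 0x100400501a000200800a034540)) (.one (nat_lit 0x2000005015000400000a02a311)))))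 (.br (Nat.shiftLeft (nat_lit 0x400000a03) (nat_lit 67)) (.br (Nat.shiftLeft (nat_lit 0x2000005017) (nat_lit 64)) (.one (nat_lit 0x2000005016000400000a02c311)) (.one (nat_lit 0x2000005017000400000a02e311))) (.br (Nat.shiftLeft (nat_lit 0x2000005019) (nat_lit 64)) (.one (nat_lit 0x2000005018000400000a030311)) (.br (Nat.shiftLeft (nat_lit 0x100000280d) (nat_lit 65)) (.one (nat_lit 0x2000005019000400000a032311)) (.one (nat_lit 0x200000501a000400000a034311))))))
def t196 : k196.all (jb2 57 fl b0) = true := by decide +kernel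
noncomputable def k197 : KT := (.one (nat_lit 0x2004005015000400800a02a540))
def t197 : k197.all (jb2 57 fl b0) = true := by decide +kernel
noncomputable def k198 : KT := (.one (nat_lit 0x2004005016000400800a02c540))
def t198 : k198.all (jb2 57 fl b0) = true := by decide +kernel
noncomputable def k199 : KT := (.one (nat_lit 0x2004005017000400800a02e540))
def t199 : k199.all (jb2 57 fl b0) = true := by decide +kernel
noncomputable def k200 : KT := (.one (nat_lit 0x2004005018000400800a030540))
def t200 : k200.all (jb2 57 fl b0) = true := by decide +kernel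
noncomputable def k201 : KT := (.one (nat_lit 0x2004005019000400800a032540))
def t201 : k201.all (jb2 57 fl b0) = true := by decide +kernel
noncomputable def k202 : KT := (.br (Nat.shiftLeft (nat_lit 0x4000005017) (nat_lit 64)) (.br (Nat.shiftLeft (nat_lit 0xc01) (nat_lit 90)) (.br (Nat.shiftLeft (nat_lit 0x3000005017) (nat_lit 64)) (.br (Nat.shiftLeft (nat_lit 0x3) (nat_lit 100)) (.one (nat_lit 0x200400501a000400800a034540)) (.br (Nat.shiftLeft (nat_lit 0x180000280b) (nat_lit 65)) (.one (nat_lit 0x3000005015000600000a02a311)) (.one (nat_lit 0x3000005016000600000a02c311)))) (.br (Nat.shiftLeft (nat_lit 0x3000005019) (nat_lit 64)) (.br (Nat.shiftLeft (nat_lit 0x600000a03) (nat_lit 67)) (.one (nat_lit 0x3000005017000600000a02e311)) (.one (nat_lit 0x3000005018000600000a030311))) (.br (Nat.shiftLeft (nat_lit 0x180000280d) (nat_lit 65)) (.one (nat_lit 0x3000005019000600000a032311)) (.one (nat_lit 0x300000501a000600000a034311))))) (.br (Nat.shiftLeft (nat_lit 0x3004005019) (nat_lit 64)) (.br (Nat.shiftLeft (nat_lit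 0x3004005017) (nat_lit 64)) (.br (Nat.shiftLeft (nat_lit 0x180200280b) (nat_lit 65)) (.one (nat_lit 0x3004005015000600800a02b500)) (.one (nat_lit 0x3004005016000600800a02d500))) (.br (Nat.shiftLeft (nat_lit 0x600800a03) (nat_lit 67)) (.one (nat_lit 0x3004005017000600800a02f500)) (.one (nat_lit 0x3004005018000600800a031500)))) (.br (Nat.shiftLeft (nat_lit 0x1) (nat_lit 102)) (.br (Nat.shiftLeft (nat_lit 0x180200280d) (nat_lit 65)) (.one (nat_lit 0x3004005019000600800a033500)) (.one (nat_lit 0x300400501a000600800a035500))) (.br (Nat.shiftLeft (nat_lit 0x200000280b) (nat_lit 65)) (.one (nat_lit 0x4000005015000800000a02a311)) (.one (nat_lit 0x4000005016000800000a02c311)))))) (.br (Nat.shiftLeft (nat_lit 0x5000005019) (nat_lit 64)) (.br (Nat.shiftLeft (nat_lit 0x5) (nat_lit 100)) (.br (Nat.shiftLeft (nat_lit 0x4000005019) (nat_lit 64)) (.br (Nat.shiftLeft (nat_lit 0x800000a03) (nat_lit 67)) (.one (nat_lit 0x4000005017000800000a02e311)) (.one (nat_lit 0x4000005018000800000a030311))) (.br (Nat.shiftLeft (nat_lit 0x200000280d)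 (nat_lit 65)) (.one (nat_lit 0x4000005019000800000a032311)) (.one (nat_lit 0x400000501a000800000a034311)))) (.br (Nat.shiftLeft (nat_lit 0x5000005017) (nat_lit 64)) (.br (Nat.shiftLeft (nat_lit 0x280000280b) (nat_lit 65)) (.one (nat_lit 0x5000005015000a00000a02a311)) (.one (nat_lit 0x5000005016000a00000a02c311))) (.br (Nat.shiftLeft (nat_lit 0xa00000a03) (nat_lit 67)) (.one (nat_lit 0x5000005017000a00000a02e311)) (.one (nat_lit 0x5000005018000a00000a030311))))) (.br (Nat.shiftLeft (nat_lit 0x1000004005017) (nat_lit 64)) (.br (Nat.shiftLeft (nat_lit 0x1) (nat_lit 112)) (.br (Nat.shiftLeft (nat_lit 0x280000280d) (nat_lit 65)) (.one (nat_lit 0x5000005019000a00000a032311)) (.one (nat_lit 0x500000501a000a00000a034311))) (.br (Nat.shiftLeft (nat_lit 0x80000200280b) (nat_lit 65)) (.one (nat_lit 0x1000004005015200000800a02a411)) (.one (nat_lit 0x1000004005016200000800a02c411)))) (.br (Nat.shiftLeft (nat_lit 0x1000004005019) (nat_lit 64)) (.br (Nat.shiftLeft (nat_lit 0x200000800a03) (nat_lit 67)) (.one (nat_lit 0x1000004005017200000800a02e411))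 (.one (nat_lit 0x1000004005018200000800a030411))) (.br (Nat.shiftLeft (nat_lit 0x80000200280d) (nat_lit 65)) (.one (nat_lit 0x1000004005019200000800a032411)) (.one (nat_lit 0x100000400501a200000800a034411)))))))
def t202 : k202.all (jb2 57 fl b0) = true := by decide +kernel
noncomputable def k203 : KT := (.br (Nat.shiftLeft (nat_lit 0x80180200280b) (nat_lit 65)) (.one (nat_lit 0x1003004005015200600800a02a650)) (.one (nat_lit 0x1003004005016200600800a02c650)))
def t203 : k203.all (jb2 57 fl b0) = true := by decide +kernel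
noncomputable def k204 : KT := (.br (Nat.shiftLeft (nat_lit 0x200600800a03) (nat_lit 67)) (.one (nat_lit 0x1003004005017200600800a02e650)) (.one (nat_lit 0x1003004005018200600800a030650)))
def t204 : k204.all (jb2 57 fl b0) = true := by decide +kernel
noncomputable def k205 : KT := (.br (Nat.shiftLeft (nat_lit 0x400000800a03) (nat_lit 67)) (.br (Nat.shiftLeft (nat_lit 0x1) (nat_lit 113)) (.br (Nat.shiftLeft (nat_lit 0x80180200280d) (nat_lit 65)) (.one (nat_lit 0x1003004005019200600800a032650)) (.one (nat_lit 0x100300400501a200600800a034650))) (.br (Nat.shiftLeft (nat_lit 0x100000200280b) (nat_lit 65)) (.one (nat_lit 0x2000004005015400000800a02a411)) (.br (Nat.shiftLeft (nat_lit 0x2000004005017) (nat_lit 64)) (.one (nat_lit 0x2000004005016400000800a02c411)) (.one (nat_lit 0x2000004005017400000800a02e411))))) (.br (Nat.shiftLeft (nat_lit 0x100000200280d) (nat_lit 65)) (.br (Nat.shiftLeft (nat_lit 0x2000004005019) (nat_lit 64)) (.one (nat_lit 0x2000004005018400000800a030411)) (.one (nat_lit 0x2000004005019400000800a032411)))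 (.br (Nat.shiftLeft (nat_lit 0x1001) (nat_lit 101)) (.one (nat_lit 0x200000400501a400000800a034411)) (.br (Nat.shiftLeft (nat_lit 0x100180200280b) (nat_lit 65)) (.one (nat_lit 0x2003004005015400600800a02b600)) (.one (nat_lit 0x2003004005016400600800a02d600))))))
def t205 : k205.all (jb2 57 fl b0) = true := by decide +kernel
noncomputable def k206 : KT := (.one (nat_lit 0x2003004005017400600800a02e650))
def t206 : k206.all (jb2 57 fl b0) = true := by decide +kernel
noncomputable def k207 : KT := (.one (nat_lit 0x2003004005018400600800a030650))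
def t207 : k207.all (jb2 57 fl b0) = true := by decide +kernel
noncomputable def k208 : KT := (.one (nat_lit 0x2003004005019400600800a032650))
def t208 : k208.all (jb2 57 fl b0) = true := by decide +kernel
noncomputable def k209 : KT := (.br (Nat.shiftLeft (nat_lit 0x200000200280b) (nat_lit 65)) (.br (Nat.shiftLeft (nat_lit 0x600000800a03) (nat_lit 67)) (.br (Nat.shiftLeft (nat_lit 0x180000200280b) (nat_lit 65)) (.br (Nat.shiftLeft (nat_lit 0x3) (nat_lit 112)) (.one (nat_lit 0x200300400501a400600800a034650)) (.one (nat_lit 0x3000004005015600000800a02a411))) (.br (Nat.shiftLeft (nat_lit 0x3000004005017) (nat_lit 64)) (.one (nat_lit 0x3000004005016600000800a02c411)) (.one (nat_lit 0x3000004005017600000800a02e411)))) (.br (Nat.shiftLeft (nat_lit 0x180000200280d) (nat_lit 65)) (.br (Nat.shiftLeft (nat_lit 0x3000004005019) (nat_lit 64)) (.one (nat_lit 0x3000004005018600000800a030411)) (.one (nat_lit 0x3000004005019600000800a032411))) (.br (Nat.shiftLeft (nat_lit 0x1) (nat_lit 114)) (.one (nat_lit 0x300000400501a600000800a034411))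 (.one (nat_lit 0x4000004005015800000800a02a411))))) (.br (Nat.shiftLeft (nat_lit 0x200000200280d) (nat_lit 65)) (.br (Nat.shiftLeft (nat_lit 0x800000800a03) (nat_lit 67)) (.br (Nat.shiftLeft (nat_lit 0x4000004005017) (nat_lit 64)) (.one (nat_lit 0x4000004005016800000800a02c411)) (.one (nat_lit 0x4000004005017800000800a02e411))) (.br (Nat.shiftLeft (nat_lit 0x4000004005019) (nat_lit 64)) (.one (nat_lit 0x4000004005018800000800a030411)) (.one (nat_lit 0x4000004005019800000800a032411)))) (.br (Nat.shiftLeft (nat_lit 0x280000200280b) (nat_lit 65)) (.br (Nat.shiftLeft (nat_lit 0x5) (nat_lit 112)) (.one (nat_lit 0x400000400501a800000800a034411)) (.one (nat_lit 0x5000004005015a00000800a02a411))) (.br (Nat.shiftLeft (nat_lit 0x5000004005017) (nat_lit 64)) (.one (nat_lit 0x5000004005016a00000800a02c411)) (.br (Nat.shiftLeft (nat_lit 0xa00000800a03) (nat_lit 67)) (.one (nat_lit 0x5000004005017a00000800a02e411)) (.one (nat_lit 0x5000004005018a00000800a030411)))))))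
def t209 : k209.all (jb2 57 fl b0) = true := by decide +kernel
noncomputable def k210 : KT := (.br (Nat.shiftLeft (nat_lit 0x1000003004005017) (nat_lit 64)) (.br (Nat.shiftLeft (nat_lit 0x1) (nat_lit 124)) (.br (Nat.shiftLeft (nat_lit 0x280000200280d) (nat_lit 65)) (.one (nat_lit 0x5000004005019a00000800a032411)) (.one (nat_lit 0x500000400501aa00000800a034411))) (.br (Nat.shiftLeft (nat_lit 0x80000180200280b) (nat_lit 65)) (.one (nat_lit 0x1000003004005015000600802a42a511)) (.one (nat_lit 0x1000003004005016000600802a42c511)))) (.br (Nat.shiftLeft (nat_lit 0x1000003004005019) (nat_lit 64)) (.br (Nat.shiftLeft (nat_lit 0x200000600800a03) (nat_lit 67)) (.one (nat_lit 0x1000003004005017000600802a42e511)) (.one (nat_lit 0x1000003004005018000600802a430511))) (.br (Nat.shiftLeft (nat_lit 0x80000180200280d) (nat_lit 65)) (.one (nat_lit 0x1000003004005019000600802a432511)) (.br (Nat.shiftLeft (nat_lit 0x801) (nat_lit 113)) (.one (nat_lit 0x100000300400501a000600802a434511)) (.one (nat_lit 0x1002003004005015400600802a42a760))))))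
def t210 : k210.all (jb2 57 fl b0) = true := by decide +kernel
noncomputable def k211 : KT := (.br (Nat.shiftLeft (nat_lit 0x180000180200280b) (nat_lit 65)) (.br (Nat.shiftLeft (nat_lit 0x400000600800a03) (nat_lit 67)) (.br (Nat.shiftLeft (nat_lit 0x100000180200280b) (nat_lit 65)) (.br (Nat.shiftLeft (nat_lit 0x1) (nat_lit 125)) (.one (nat_lit 0x1002003004005016400600802a42c760)) (.one (nat_lit 0x2000003004005015000600804a82a511))) (.br (Nat.shiftLeft (nat_lit 0x2000003004005017) (nat_lit 64)) (.one (nat_lit 0x2000003004005016000600804a82c511)) (.one (nat_lit 0x2000003004005017000600804a82e511)))) (.br (Nat.shiftLeft (nat_lit 0x100000180200280d) (nat_lit 65)) (.br (Nat.shiftLeft (nat_lit 0x2000003004005019) (nat_lit 64)) (.one (nat_lit 0x2000003004005018000600804a830511)) (.one (nat_lit 0x2000003004005019000600804a832511))) (.br (Nat.shiftLeft (nat_lit 0x3) (nat_lit 124)) (.one (nat_lit 0x200000300400501a000600804a834511)) (.one (nat_lit 0x3000003004005015000600806ac2a511))))) (.br (Nat.shiftLeft (nat_lit 0x180000180200280d)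 (nat_lit 65)) (.br (Nat.shiftLeft (nat_lit 0x600000600800a03) (nat_lit 67)) (.br (Nat.shiftLeft (nat_lit 0x3000003004005017) (nat_lit 64)) (.one (nat_lit 0x3000003004005016000600806ac2c511)) (.one (nat_lit 0x3000003004005017000600806ac2e511))) (.br (Nat.shiftLeft (nat_lit 0x3000003004005019) (nat_lit 64)) (.one (nat_lit 0x3000003004005018000600806ac30511)) (.one (nat_lit 0x3000003004005019000600806ac32511)))) (.br (Nat.shiftLeft (nat_lit 0x200000180200280b) (nat_lit 65)) (.br (Nat.shiftLeft (nat_lit 0x1) (nat_lit 126)) (.one (nat_lit 0x300000300400501a000600806ac34511)) (.one (nat_lit 0x4000003004005015000600808b02a511))) (.br (Nat.shiftLeft (nat_lit 0x4000003004005017) (nat_lit 64)) (.one (nat_lit 0x4000003004005016000600808b02c511)) (.br (Nat.shiftLeft (nat_lit 0x800000600800a03) (nat_lit 67)) (.one (nat_lit 0x4000003004005017000600808b02e511)) (.one (nat_lit 0x4000003004005018000600808b030511)))))))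
def t211 : k211.all (jb2 57 fl b0) = true := by decide +kernel
noncomputable def k212 : KT := (.br (Nat.shiftLeft (nat_lit 0x280000180200280b) (nat_lit 65)) (.br (Nat.shiftLeft (nat_lit 0x200000180200280d) (nat_lit 65)) (.one (nat_lit 0x4000003004005019000600808b032511)) (.br (Nat.shiftLeft (nat_lit 0x5) (nat_lit 124)) (.one (nat_lit 0x400000300400501a000600808b034511)) (.one (nat_lit 0x500000300400501500060080ab42a511)))) (.br (Nat.shiftLeft (nat_lit 0xa00000600800a03) (nat_lit 67)) (.br (Nat.shiftLeft (nat_lit 0x5000003004005017) (nat_lit 64)) (.one (nat_lit 0x500000300400501600060080ab42c511)) (.one (nat_lit 0x500000300400501700060080ab42e511))) (.br (Nat.shiftLeft (nat_lit 0x5000003004005019) (nat_lit 64)) (.one (nat_lit 0x500000300400501800060080ab430511)) (.one (nat_lit 0x500000300400501900060080ab432511)))))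
def t212 : k212.all (jb2 57 fl b0) = true := by decide +kernel
noncomputable def k213 : KT := (.br (Nat.shiftLeft (nat_lit 0x3) (nat_lit 136)) (.br (Nat.shiftLeft (nat_lit 0x80000100180200280b) (nat_lit 65)) (.br (Nat.shiftLeft (nat_lit 0x1) (nat_lit 136)) (.one (nat_lit 0x500000300400501a00060080ab434511)) (.one (nat_lit 0x1000002003004005015400602840a02a611))) (.br (Nat.shiftLeft (nat_lit 0x1) (nat_lit 137)) (.one (nat_lit 0x1000002003004005016400602840a02c611)) (.br (Nat.shiftLeft (nat_lit 0x100000100180200280b) (nat_lit 65)) (.one (nat_lit 0x2000002003004005015400604880a02a611)) (.one (nat_lit 0x2000002003004005016400604880a02c611))))) (.br (Nat.shiftLeft (nat_lit 0x1) (nat_lit 138)) (.br (Nat.shiftLeft (nat_lit 0x180000100180200280b) (nat_lit 65)) (.one (nat_lit 0x30000020030040050154006068c0a02a611)) (.one (nat_lit 0x30000020030040050164006068c0a02c611))) (.br (Nat.shiftLeft (nat_lit 0x200000100180200280b) (nat_lit 65)) (.one (nat_lit 0x4000002003004005015400608900a02a611)) (.br (Nat.shiftLeft (nat_lit 0x5)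 (nat_lit 136)) (.one (nat_lit 0x4000002003004005016400608900a02c611)) (.one (nat_lit 0x500000200300400501540060a940a02a611))))))
def t213 : k213.all (jb2 57 fl b0) = true := by decide +kernel
noncomputable def k214 : KT := (.one (nat_lit 0x500000200300400501640060a940a02c611))
def t214 : k214.all (jb2 57 fl b0) = true := by decide +kernel
noncomputable def s10 : KT := (.br (nat_lit 0x2004005019000400800a032540) (.br (nat_lit 0x3005019000000600a032430) (.br (nat_lit 0x3005016000000600a02c430) (.br (nat_lit 0x200501a000000400a034430) k189 (.br (nat_lit 0x3005015000000600a02a430) k190 k191)) (.br (nat_lit 0x3005017000000600a02e430) k192 (.br (nat_lit 0x3005018000000600a030430) k193 k194))) (.br (nat_lit 0x2004005015000400800a02a540) (.br (nat_lit 0x1004005016000200800a02c540) k195 (.br (nat_lit 0x200000501a000400000a034311) k196 k197)) (.br (nat_lit 0x2004005017000400800a02e540) (.br (nat_lit 0x2004005016000400800a02c540) k198 k199) (.br (nat_lit 0x2004005018000400800a030540) k200 k201)))) (.br (nat_lit 0x2003004005018400600800a030650)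 (.br (nat_lit 0x1003004005018200600800a030650) (.br (nat_lit 0x100000400501a200000800a034411) k202 (.br (nat_lit 0x1003004005016200600800a02c650) k203 k204)) (.br (nat_lit 0x2003004005016400600800a02d600) k205 (.br (nat_lit 0x2003004005017400600800a02e650) k206 k207))) (.br (nat_lit 0x1002003004005015400600802a42a760) (.br (nat_lit 0x2003004005019400600800a032650) k208 (.br (nat_lit 0x5000004005018a00000800a030411) k209 k210)) (.br (nat_lit 0x500000300400501900060080ab432511) (.br (nat_lit 0x4000003004005018000600808b030511) k211 k212) (.br (nat_lit 0x500000200300400501540060a940a02a611) k213 k214)))))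
noncomputable def u10 : KT := (.br (Nat.shiftLeft (nat_lit 0xa03) (nat_lit 67)) (.br (Nat.shiftLeft (nat_lit 0x280b) (nat_lit 65)) (.one (nat_lit 0x5015000000000a02a320)) (.br (Nat.shiftLeft (nat_lit 0x5017) (nat_lit 64)) (.one (nat_lit 0x5016000000000a02c320)) (.one (nat_lit 0x5017000000000a02e320)))) (.br (Nat.shiftLeft (nat_lit 0x5019) (nat_lit 64)) (.one (nat_lit 0x5018000000000a030320)) (.br (Nat.shiftLeft (nat_lit 0x280d) (nat_lit 65)) (.one (nat_lit 0x5019000000000a032320)) (.one (nat_lit 0x501a000000000a034320)))))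
def w10 : u10.all (wj 57 s10) = true := by decide +kernel
def o10 : OkW 57 (jb2 57 fl) u10 := .lift s10 _ (.br _ _ _ (.br _ _ _ (.br _ _ _ (.br _ _ _ (.leaf b0 k189 t189) (.br _ _ _ (.leaf b0 k190 t190) (.leaf b0 k191 t191))) (.br _ _ _ (.leaf b0 k192 t192) (.br _ _ _ (.leaf b0 k193 t193) (.leaf b0 k194 t194)))) (.br _ _ _ (.br _ _ _ (.leaf b0 k195 t195) (.br _ _ _ (.leaf b0 k196 t196) (.leaf b0 k197 t197))) (.br _ _ _ (.br _ _ _ (.leaf b0 k198 t198) (.leaf b0 k199 t199)) (.br _ _ _ (.leaf b0 k200 t200) (.leaf b0 k201 t201))))) (.br _ _ _ (.br _ _ _ (.br _ _ _ (.leaf b0 k202 t202) (.br _ _ _ (.leaf b0 k203 t203) (.leaf b0 k204 t204))) (.br _ _ _ (.leaf b0 k205 t205) (.br _ _ _ (.leaf b0 k206 t206) (.leaf b0 k207 t207)))) (.br _ _ _ (.br _ _ _ (.leaf b0 k208 t208) (.br _ _ _ (.leaf b0 k209 t209) (.leaf b0 k210 t210))) (.br _ _ _ (.br _ _ _ (.leaf b0 k211 t211) (.leaf b0 k212 t212)) (.br _ _ _ (.leaf b0 k213 t213) (.leaf b0 k214 t214)))))) w10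
noncomputable def k215 : KT := (.br (Nat.shiftLeft (nat_lit 0x80280f) (nat_lit 65)) (.br (Nat.shiftLeft (nat_lit 0x281) (nat_lit 69)) (.br (Nat.shiftLeft (nat_lit 0x501d) (nat_lit 64)) (.br (Nat.shiftLeft (nat_lit 0x1407) (nat_lit 66)) (.one (nat_lit 0x501b000000000a037300)) (.one (nat_lit 0x501c000000000a039300))) (.br (Nat.shiftLeft (nat_lit 0x280f) (nat_lit 65)) (.one (nat_lit 0x501d000000000a03b300)) (.br (Nat.shiftLeft (nat_lit 0x501f) (nat_lit 64)) (.one (nat_lit 0x501e000000000a03d300)) (.one (nat_lit 0x501f000000000a03f300))))) (.br (Nat.shiftLeft (nat_lit 0x1) (nat_lit 88)) (.br (Nat.shiftLeft (nat_lit 0x5021) (nat_lit 64)) (.one (nat_lit 0x5020000000000a041300)) (.one (nat_lit 0x5021000000000a043300))) (.br (Nat.shiftLeft (nat_lit 0x401407) (nat_lit 66)) (.one (nat_lit 0x100501b000000200a036430)) (.br (Nat.shiftLeft (nat_lit 0x100501d) (nat_lit 64)) (.one (nat_lit 0x100501c000000200a038430)) (.one (nat_lit 0x100501d000000200a03a430)))))) (.br (Nat.shiftLeft (nat_lit 0x801407) (nat_lit 66)) (.br (Nat.shiftLeft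 (nat_lit 0x80281) (nat_lit 69)) (.br (Nat.shiftLeft (nat_lit 0x100501f) (nat_lit 64)) (.one (nat_lit 0x100501e000000200a03c430)) (.one (nat_lit 0x100501f000000200a03e430))) (.br (Nat.shiftLeft (nat_lit 0x1005021) (nat_lit 64)) (.one (nat_lit 0x1005020000000200a040430)) (.br (Nat.shiftLeft (nat_lit 0x1) (nat_lit 89)) (.one (nat_lit 0x1005021000000200a042430)) (.one (nat_lit 0x200501b000000400a036430))))) (.br (Nat.shiftLeft (nat_lit 0x100280f) (nat_lit 65)) (.br (Nat.shiftLeft (nat_lit 0x200501d) (nat_lit 64)) (.one (nat_lit 0x200501c000000400a038430)) (.one (nat_lit 0x200501d000000400a03a430))) (.br (Nat.shiftLeft (nat_lit 0x200501f) (nat_lit 64)) (.one (nat_lit 0x200501e000000400a03c430)) (.br (Nat.shiftLeft (nat_lit 0x100281) (nat_lit 69)) (.one (nat_lit 0x200501f000000400a03e430)) (.one (nat_lit 0x2005020000000400a040430)))))))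
def t215 : k215.all (jb2 57 fl b0) = true := by decide +kernel
noncomputable def k216 : KT := (.br (Nat.shiftLeft (nat_lit 0x3) (nat_lit 88)) (.one (nat_lit 0x2005021000000400a042430)) (.one (nat_lit 0x300501b000000600a036430)))
def t216 : k216.all (jb2 57 fl b0) = true := by decide +kernel
noncomputable def k217 : KT := (.one (nat_lit 0x300501c000000600a038430))
def t217 : k217.all (jb2 57 fl b0) = true := by decide +kernel
noncomputable def k218 : KT := (.one (nat_lit 0x300501d000000600a03a430))
def t218 : k218.all (jb2 57 fl b0) = true := by decide +kernel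
noncomputable def k219 : KT := (.one (nat_lit 0x300501e000000600a03c430))
def t219 : k219.all (jb2 57 fl b0) = true := by decide +kernel
noncomputable def k220 : KT := (.one (nat_lit 0x300501f000000600a03e430))
def t220 : k220.all (jb2 57 fl b0) = true := by decide +kernel
noncomputable def k221 : KT := (.one (nat_lit 0x3005020000000600a040430))
def t221 : k221.all (jb2 57 fl b0) = true := by decide +kernel
noncomputable def k222 : KT := (.br (Nat.shiftLeft (nat_lit 0x400001407) (nat_lit 66)) (.br (Nat.shiftLeft (nat_lit 0x200280f) (nat_lit 65)) (.br (Nat.shiftLeft (nat_lit 0x1001407) (nat_lit 66)) (.br (Nat.shiftLeft (nat_lit 0x1) (nat_lit 90)) (.one (nat_lit 0x3005021000000600a042430)) (.one (nat_lit 0x400501b000000800a037400))) (.br (Nat.shiftLeft (nat_lit 0x400501d) (nat_lit 64)) (.one (nat_lit 0x400501c000000800a039400)) (.one (nat_lit 0x400501d000000800a03b400)))) (.br (Nat.shiftLeft (nat_lit 0x200281) (nat_lit 69)) (.br (Nat.shiftLeft (nat_lit 0x400501f) (nat_lit 64)) (.one (nat_lit 0x400501e000000800a03d400))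 (.one (nat_lit 0x400501f000000800a03f400))) (.br (Nat.shiftLeft (nat_lit 0x4005021) (nat_lit 64)) (.one (nat_lit 0x4005020000000800a041400)) (.br (Nat.shiftLeft (nat_lit 0x1) (nat_lit 100)) (.one (nat_lit 0x4005021000000800a043400)) (.one (nat_lit 0x100000501b000200000a036311)))))) (.br (Nat.shiftLeft (nat_lit 0x80000281) (nat_lit 69)) (.br (Nat.shiftLeft (nat_lit 0x80000280f) (nat_lit 65)) (.br (Nat.shiftLeft (nat_lit 0x100000501d) (nat_lit 64)) (.one (nat_lit 0x100000501c000200000a038311)) (.one (nat_lit 0x100000501d000200000a03a311))) (.br (Nat.shiftLeft (nat_lit 0x100000501f) (nat_lit 64)) (.one (nat_lit 0x100000501e000200000a03c311)) (.one (nat_lit 0x100000501f000200000a03e311)))) (.br (Nat.shiftLeft (nat_lit 0x401) (nat_lit 90)) (.br (Nat.shiftLeft (nat_lit 0x1000005021) (nat_lit 64)) (.one (nat_lit 0x1000005020000200000a040311)) (.one (nat_lit 0x1000005021000200000a042311))) (.br (Nat.shiftLeft (nat_lit 0x401001407) (nat_lit 66)) (.one (nat_lit 0x100400501b000200800a036540)) (.br (Nat.shiftLeft (nat_lit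 0x100400501d) (nat_lit 64)) (.one (nat_lit 0x100400501c000200800a038540)) (.one (nat_lit 0x100400501d000200800a03a540)))))))
def t222 : k222.all (jb2 57 fl b0) = true := by decide +kernel
noncomputable def k223 : KT := (.br (Nat.shiftLeft (nat_lit 0x800001407) (nat_lit 66)) (.br (Nat.shiftLeft (nat_lit 0x80200281) (nat_lit 69)) (.br (Nat.shiftLeft (nat_lit 0x100400501f) (nat_lit 64)) (.one (nat_lit 0x100400501e000200800a03c540)) (.one (nat_lit 0x100400501f000200800a03e540))) (.br (Nat.shiftLeft (nat_lit 0x1004005021) (nat_lit 64)) (.one (nat_lit 0x1004005020000200800a040540)) (.br (Nat.shiftLeft (nat_lit 0x1) (nat_lit 101)) (.one (nat_lit 0x1004005021000200800a042540)) (.one (nat_lit 0x200000501b000400000a036311))))) (.br (Nat.shiftLeft (nat_lit 0x200000501f) (nat_lit 64)) (.br (Nat.shiftLeft (nat_lit 0x200000501d) (nat_lit 64)) (.one (nat_lit 0x200000501c000400000a038311)) (.br (Nat.shiftLeft (nat_lit 0x100000280f) (nat_lit 65)) (.one (nat_lit 0x200000501d000400000a03a311)) (.one (nat_lit 0x200000501e000400000a03c311))))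 (.br (Nat.shiftLeft (nat_lit 0x100000281) (nat_lit 69)) (.one (nat_lit 0x200000501f000400000a03e311)) (.br (Nat.shiftLeft (nat_lit 0x2000005021) (nat_lit 64)) (.one (nat_lit 0x2000005020000400000a040311)) (.one (nat_lit 0x2000005021000400000a042311))))))
def t223 : k223.all (jb2 57 fl b0) = true := by decide +kernel
noncomputable def k224 : KT := (.one (nat_lit 0x200400501b000400800a036540))
def t224 : k224.all (jb2 57 fl b0) = true := by decide +kernel
noncomputable def k225 : KT := (.one (nat_lit 0x200400501c000400800a038540))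
def t225 : k225.all (jb2 57 fl b0) = true := by decide +kernel
noncomputable def k226 : KT := (.br (Nat.shiftLeft (nat_lit 0x100200280f) (nat_lit 65)) (.one (nat_lit 0x200400501d000400800a03a540)) (.one (nat_lit 0x200400501e000400800a03c540)))
def t226 : k226.all (jb2 57 fl b0) = true := by decide +kernel
noncomputable def k227 : KT := (.br (Nat.shiftLeft (nat_lit 0x100200281) (nat_lit 69)) (.one (nat_lit 0x200400501f000400800a03e540)) (.one (nat_lit 0x2004005020000400800a040540)))
def t227 : k227.all (jb2 57 fl b0) = true := by decide +kernel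
noncomputable def k228 : KT := (.br (Nat.shiftLeft (nat_lit 0x300000501f) (nat_lit 64)) (.br (Nat.shiftLeft (nat_lit 0xc00001407) (nat_lit 66)) (.br (Nat.shiftLeft (nat_lit 0x3) (nat_lit 100)) (.one (nat_lit 0x2004005021000400800a042540)) (.one (nat_lit 0x300000501b000600000a036311))) (.br (Nat.shiftLeft (nat_lit 0x300000501d) (nat_lit 64)) (.one (nat_lit 0x300000501c000600000a038311)) (.br (Nat.shiftLeft (nat_lit 0x180000280f) (nat_lit 65)) (.one (nat_lit 0x300000501d000600000a03a311)) (.one (nat_lit 0x300000501e000600000a03c311))))) (.br (Nat.shiftLeft (nat_lit 0x3000005021) (nat_lit 64)) (.br (Nat.shiftLeft (nat_lit 0x180000281) (nat_lit 69)) (.one (nat_lit 0x300000501f000600000a03e311)) (.one (nat_lit 0x3000005020000600000a040311))) (.br (Nat.shiftLeft (nat_lit 0xc01) (nat_lit 90)) (.one (nat_lit 0x3000005021000600000a042311)) (.br (Nat.shiftLeft (nat_lit 0xc01001407) (nat_lit 66)) (.one (nat_lit 0x300400501b000600800a037500)) (.one (nat_lit 0x300400501c000600800a039500))))))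
def t228 : k228.all (jb2 57 fl b0) = true := by decide +kernel
noncomputable def k229 : KT := (.one (nat_lit 0x300400501d000600800a03a540))
def t229 : k229.all (jb2 57 fl b0) = true := by decide +kernel
noncomputable def k230 : KT := (.one (nat_lit 0x300400501e000600800a03c540))
def t230 : k230.all (jb2 57 fl b0) = true := by decide +kernel
noncomputable def k231 : KT := (.one (nat_lit 0x300400501f000600800a03e540))
def t231 : k231.all (jb2 57 fl b0) = true := by decide +kernel
noncomputable def k232 : KT := (.one (nat_lit 0x3004005020000600800a040540))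
def t232 : k232.all (jb2 57 fl b0) = true := by decide +kernel
noncomputable def k233 : KT := (.br (Nat.shiftLeft (nat_lit 0x280000280f) (nat_lit 65)) (.br (Nat.shiftLeft (nat_lit 0x400000501f) (nat_lit 64)) (.br (Nat.shiftLeft (nat_lit 0x1000001407) (nat_lit 66)) (.br (Nat.shiftLeft (nat_lit 0x1) (nat_lit 102)) (.one (nat_lit 0x3004005021000600800a042540)) (.one (nat_lit 0x400000501b000800000a036311))) (.br (Nat.shiftLeft (nat_lit 0x400000501d) (nat_lit 64)) (.one (nat_lit 0x400000501c000800000a038311)) (.br (Nat.shiftLeft (nat_lit 0x200000280f) (nat_lit 65)) (.one (nat_lit 0x400000501d000800000a03a311)) (.one (nat_lit 0x400000501e000800000a03c311))))) (.br (Nat.shiftLeft (nat_lit 0x5) (nat_lit 100)) (.br (Nat.shiftLeft (nat_lit 0x200000281) (nat_lit 69)) (.one (nat_lit 0x400000501f000800000a03e311)) (.br (Nat.shiftLeft (nat_lit 0x4000005021) (nat_lit 64)) (.one (nat_lit 0x4000005020000800000a040311)) (.one (nat_lit 0x4000005021000800000a042311)))) (.br (Nat.shiftLeft (nat_lit 0x1400001407) (nat_lit 66)) (.one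 (nat_lit 0x500000501b000a00000a036311)) (.br (Nat.shiftLeft (nat_lit 0x500000501d) (nat_lit 64)) (.one (nat_lit 0x500000501c000a00000a038311)) (.one (nat_lit 0x500000501d000a00000a03a311)))))) (.br (Nat.shiftLeft (nat_lit 0x100000400501d) (nat_lit 64)) (.br (Nat.shiftLeft (nat_lit 0x5000005021) (nat_lit 64)) (.br (Nat.shiftLeft (nat_lit 0x500000501f) (nat_lit 64)) (.one (nat_lit 0x500000501e000a00000a03c311)) (.br (Nat.shiftLeft (nat_lit 0x280000281) (nat_lit 69)) (.one (nat_lit 0x500000501f000a00000a03e311)) (.one (nat_lit 0x5000005020000a00000a040311)))) (.br (Nat.shiftLeft (nat_lit 0x1) (nat_lit 112)) (.one (nat_lit 0x5000005021000a00000a042311)) (.br (Nat.shiftLeft (nat_lit 0x400001001407) (nat_lit 66)) (.one (nat_lit 0x100000400501b200000800a036411)) (.one (nat_lit 0x100000400501c200000800a038411))))) (.br (Nat.shiftLeft (nat_lit 0x80000200281) (nat_lit 69)) (.br (Nat.shiftLeft (nat_lit 0x80000200280f) (nat_lit 65)) (.one (nat_lit 0x100000400501d200000800a03a411)) (.br (Nat.shiftLeft (nat_lit 0x100000400501f)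 (nat_lit 64)) (.one (nat_lit 0x100000400501e200000800a03c411)) (.one (nat_lit 0x100000400501f200000800a03e411)))) (.br (Nat.shiftLeft (nat_lit 0x1000004005021) (nat_lit 64)) (.one (nat_lit 0x1000004005020200000800a040411)) (.br (Nat.shiftLeft (nat_lit 0x801) (nat_lit 101)) (.one (nat_lit 0x1000004005021200000800a042411)) (.one (nat_lit 0x100300400501b200600800a036650)))))))
def t233 : k233.all (jb2 57 fl b0) = true := by decide +kernel
noncomputable def k234 : KT := (.br (Nat.shiftLeft (nat_lit 0x100000200280f) (nat_lit 65)) (.br (Nat.shiftLeft (nat_lit 0x800001001407) (nat_lit 66)) (.br (Nat.shiftLeft (nat_lit 0x1) (nat_lit 113)) (.one (nat_lit 0x100300400501c200600800a038650)) (.one (nat_lit 0x200000400501b400000800a036411))) (.br (Nat.shiftLeft (nat_lit 0x200000400501d) (nat_lit 64)) (.one (nat_lit 0x200000400501c400000800a038411)) (.one (nat_lit 0x200000400501d400000800a03a411)))) (.br (Nat.shiftLeft (nat_lit 0x100000200281) (nat_lit 69)) (.br (Nat.shiftLeft (nat_lit 0x200000400501f) (nat_lit 64)) (.one (nat_lit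 0x200000400501e400000800a03c411)) (.one (nat_lit 0x200000400501f400000800a03e411))) (.br (Nat.shiftLeft (nat_lit 0x2000004005021) (nat_lit 64)) (.one (nat_lit 0x2000004005020400000800a040411)) (.br (Nat.shiftLeft (nat_lit 0x1001) (nat_lit 101)) (.one (nat_lit 0x2000004005021400000800a042411)) (.one (nat_lit 0x200300400501b400600800a036650))))))
def t234 : k234.all (jb2 57 fl b0) = true := by decide +kernel
noncomputable def k235 : KT := (.br (Nat.shiftLeft (nat_lit 0x4000004005021) (nat_lit 64)) (.br (Nat.shiftLeft (nat_lit 0x3000004005021) (nat_lit 64)) (.br (Nat.shiftLeft (nat_lit 0x300000400501d) (nat_lit 64)) (.br (Nat.shiftLeft (nat_lit 0x3) (nat_lit 112)) (.one (nat_lit 0x200300400501c400600800a038650)) (.br (Nat.shiftLeft (nat_lit 0xc00001001407) (nat_lit 66)) (.one (nat_lit 0x300000400501b600000800a036411)) (.one (nat_lit 0x300000400501c600000800a038411)))) (.br (Nat.shiftLeft (nat_lit 0x300000400501f) (nat_lit 64)) (.br (Nat.shiftLeft (nat_lit 0x180000200280f) (nat_lit 65)) (.one (nat_lit 0x300000400501d600000800a03a411))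 (.one (nat_lit 0x300000400501e600000800a03c411))) (.br (Nat.shiftLeft (nat_lit 0x180000200281) (nat_lit 69)) (.one (nat_lit 0x300000400501f600000800a03e411)) (.one (nat_lit 0x3000004005020600000800a040411))))) (.br (Nat.shiftLeft (nat_lit 0x400000400501d) (nat_lit 64)) (.br (Nat.shiftLeft (nat_lit 0x1) (nat_lit 114)) (.one (nat_lit 0x3000004005021600000800a042411)) (.br (Nat.shiftLeft (nat_lit 0x1000001001407) (nat_lit 66)) (.one (nat_lit 0x400000400501b800000800a036411)) (.one (nat_lit 0x400000400501c800000800a038411)))) (.br (Nat.shiftLeft (nat_lit 0x400000400501f) (nat_lit 64)) (.br (Nat.shiftLeft (nat_lit 0x200000200280f) (nat_lit 65)) (.one (nat_lit 0x400000400501d800000800a03a411)) (.one (nat_lit 0x400000400501e800000800a03c411))) (.br (Nat.shiftLeft (nat_lit 0x200000200281) (nat_lit 69)) (.one (nat_lit 0x400000400501f800000800a03e411)) (.one (nat_lit 0x4000004005020800000800a040411)))))) (.br (Nat.shiftLeft (nat_lit 0x5000004005021) (nat_lit 64)) (.br (Nat.shiftLeft (nat_lit 0x500000400501d) (nat_lit 64))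 (.br (Nat.shiftLeft (nat_lit 0x5) (nat_lit 112)) (.one (nat_lit 0x4000004005021800000800a042411)) (.br (Nat.shiftLeft (nat_lit 0x1400001001407) (nat_lit 66)) (.one (nat_lit 0x500000400501ba00000800a036411)) (.one (nat_lit 0x500000400501ca00000800a038411)))) (.br (Nat.shiftLeft (nat_lit 0x500000400501f) (nat_lit 64)) (.br (Nat.shiftLeft (nat_lit 0x280000200280f) (nat_lit 65)) (.one (nat_lit 0x500000400501da00000800a03a411)) (.one (nat_lit 0x500000400501ea00000800a03c411))) (.br (Nat.shiftLeft (nat_lit 0x280000200281) (nat_lit 69)) (.one (nat_lit 0x500000400501fa00000800a03e411)) (.one (nat_lit 0x5000004005020a00000800a040411))))) (.br (Nat.shiftLeft (nat_lit 0x1) (nat_lit 125)) (.br (Nat.shiftLeft (nat_lit 0x1) (nat_lit 124)) (.one (nat_lit 0x5000004005021a00000800a042411)) (.br (Nat.shiftLeft (nat_lit 0x400000c01001407) (nat_lit 66)) (.one (nat_lit 0x100000300400501b000600802a436511)) (.one (nat_lit 0x100000300400501c000600802a438511)))) (.br (Nat.shiftLeft (nat_lit 0x3) (nat_lit 124)) (.br (Nat.shiftLeft (nat_lit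 0x800000c01001407) (nat_lit 66)) (.one (nat_lit 0x200000300400501b000600804a836511)) (.one (nat_lit 0x200000300400501c000600804a838511))) (.br (Nat.shiftLeft (nat_lit 0xc00000c01001407) (nat_lit 66)) (.one (nat_lit 0x300000300400501b000600806ac36511)) (.one (nat_lit 0x300000300400501c000600806ac38511)))))))
def t235 : k235.all (jb2 57 fl b0) = true := by decide +kernel
noncomputable def k236 : KT := (.br (Nat.shiftLeft (nat_lit 0x5) (nat_lit 124)) (.br (Nat.shiftLeft (nat_lit 0x1000000c01001407) (nat_lit 66)) (.one (nat_lit 0x400000300400501b000600808b036511)) (.one (nat_lit 0x400000300400501c000600808b038511))) (.br (Nat.shiftLeft (nat_lit 0x1400000c01001407) (nat_lit 66)) (.one (nat_lit 0x500000300400501b00060080ab436511)) (.one (nat_lit 0x500000300400501c00060080ab438511))))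
def t236 : k236.all (jb2 57 fl b0) = true := by decide +kernel
noncomputable def s11 : KT := (.br (nat_lit 0x200400501c000400800a038540) (.br (nat_lit 0x300501e000000600a03c430) (.br (nat_lit 0x300501b000000600a036430) (.br (nat_lit 0x2005020000000400a040430) k215 k216) (.br (nat_lit 0x300501c000000600a038430) k217 (.br (nat_lit 0x300501d000000600a03a430) k218 k219))) (.br (nat_lit 0x100400501d000200800a03a540) (.br (nat_lit 0x300501f000000600a03e430) k220 (.br (nat_lit 0x3005020000000600a040430) k221 k222)) (.br (nat_lit 0x2000005021000400000a042311) k223 (.br (nat_lit 0x200400501b000400800a036540) k224 k225)))) (.br (nat_lit 0x300400501e000600800a03c540) (.br (nat_lit 0x2004005020000400800a040540) (.br (nat_lit 0x200400501e000400800a03c540) k226 k227) (.br (nat_lit 0x300400501c000600800a039500) k228 (.br (nat_lit 0x300400501d000600800a03a540) k229 k230))) (.br (nat_lit 0x100300400501b200600800a036650) (.br (nat_lit 0x300400501f000600800a03e540) k231 (.br (nat_lit 0x3004005020000600800a040540) k232 k233)) (.br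 (nat_lit 0x200300400501b400600800a036650) k234 (.br (nat_lit 0x300000300400501c000600806ac38511) k235 k236)))))
noncomputable def u11 : KT := (.br (Nat.shiftLeft (nat_lit 0x280f) (nat_lit 65)) (.br (Nat.shiftLeft (nat_lit 0x1407) (nat_lit 66)) (.one (nat_lit 0x501b000000000a036320)) (.br (Nat.shiftLeft (nat_lit 0x501d) (nat_lit 64)) (.one (nat_lit 0x501c000000000a038320)) (.one (nat_lit 0x501d000000000a03a320)))) (.br (Nat.shiftLeft (nat_lit 0x281) (nat_lit 69)) (.br (Nat.shiftLeft (nat_lit 0x501f) (nat_lit 64)) (.one (nat_lit 0x501e000000000a03c320)) (.one (nat_lit 0x501f000000000a03e320))) (.br (Nat.shiftLeft (nat_lit 0x5021) (nat_lit 64)) (.one (nat_lit 0x5020000000000a040320)) (.one (nat_lit 0x5021000000000a042320)))))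
def w11 : u11.all (wj 57 s11) = true := by decide +kernel
def o11 : OkW 57 (jb2 57 fl) u11 := .lift s11 _ (.br _ _ _ (.br _ _ _ (.br _ _ _ (.br _ _ _ (.leaf b0 k215 t215) (.leaf b0 k216 t216)) (.br _ _ _ (.leaf b0 k217 t217) (.br _ _ _ (.leaf b0 k218 t218) (.leaf b0 k219 t219)))) (.br _ _ _ (.br _ _ _ (.leaf b0 k220 t220) (.br _ _ _ (.leaf b0 k221 t221) (.leaf b0 k222 t222))) (.br _ _ _ (.leaf b0 k223 t223) (.br _ _ _ (.leaf b0 k224 t224) (.leaf b0 k225 t225))))) (.br _ _ _ (.br _ _ _ (.br _ _ _ (.leaf b0 k226 t226) (.leaf b0 k227 t227)) (.br _ _ _ (.leaf b0 k228 t228) (.br _ _ _ (.leaf b0 k229 t229) (.leaf b0 k230 t230)))) (.br _ _ _ (.br _ _ _ (.leaf b0 k231 t231) (.br _ _ _ (.leaf b0 k232 t232) (.leaf b0 k233 t233))) (.br _ _ _ (.leaf b0 k234 t234) (.br _ _ _ (.leaf b0 k235 t235) (.leaf b0 k236 t236)))))) w11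
noncomputable def k237 : KT := (.br (Nat.shiftLeft (nat_lit 0x1) (nat_lit 89)) (.one (nat_lit 0x1006015000000200c02a430)) (.br (Nat.shiftLeft (nat_lit 0x3) (nat_lit 88)) (.one (nat_lit 0x2006015000000400c02a430)) (.one (nat_lit 0x3006015000000600c02a430))))
def t237 : k237.all (jb2 57 fl b0) = true := by decide +kernel
noncomputable def k238 : KT := (.br (Nat.shiftLeft (nat_lit 0xc01) (nat_lit 90)) (.br (Nat.shiftLeft (nat_lit 0x1) (nat_lit 101)) (.br (Nat.shiftLeft (nat_lit 0x401) (nat_lit 90)) (.br (Nat.shiftLeft (nat_lit 0x1) (nat_lit 100)) (.one (nat_lit 0x5006015000000a00c02b400)) (.one (nat_lit 0x1000006015000200000c02a311))) (.br (Nat.shiftLeft (nat_lit 0x1005) (nat_lit 88)) (.one (nat_lit 0x1004006015000200800c02a540)) (.one (nat_lit 0x1005006015000200a00c02a540)))) (.br (Nat.shiftLeft (nat_lit 0x2005) (nat_lit 88)) (.br (Nat.shiftLeft (nat_lit 0x801) (nat_lit 90)) (.one (nat_lit 0x2000006015000400000c02a311)) (.one (nat_lit 0x2004006015000400800c02b500))) (.br (Nat.shiftLeft (nat_lit 0x3) (nat_lit 100))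 (.one (nat_lit 0x2005006015000400a00c02b500)) (.one (nat_lit 0x3000006015000600000c02a311))))) (.br (Nat.shiftLeft (nat_lit 0x5) (nat_lit 100)) (.br (Nat.shiftLeft (nat_lit 0x1) (nat_lit 102)) (.br (Nat.shiftLeft (nat_lit 0x3005) (nat_lit 88)) (.one (nat_lit 0x3004006015000600800c02b500)) (.one (nat_lit 0x3005006015000600a00c02b500))) (.br (Nat.shiftLeft (nat_lit 0x1001) (nat_lit 90)) (.one (nat_lit 0x4000006015000800000c02a311)) (.one (nat_lit 0x4005006015000800a00c02b500)))) (.br (Nat.shiftLeft (nat_lit 0x1) (nat_lit 112)) (.br (Nat.shiftLeft (nat_lit 0x3) (nat_lit 101)) (.one (nat_lit 0x5000006015000a00000c02a311)) (.one (nat_lit 0x6000006015000c00000c02a311))) (.br (Nat.shiftLeft (nat_lit 0x1000005) (nat_lit 88)) (.one (nat_lit 0x1000004006015200000800c02a411)) (.one (nat_lit 0x1000005006015200000a00c02a411))))))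
def t238 : k238.all (jb2 57 fl b0) = true := by decide +kernel
noncomputable def k239 : KT := (.one (nat_lit 0x1002004006015200400800c02a650))
def t239 : k239.all (jb2 57 fl b0) = true := by decide +kernel
noncomputable def k240 : KT := (.one (nat_lit 0x1002005006015200400a00c02a650))
def t240 : k240.all (jb2 57 fl b0) = true := by decide +kernel
noncomputable def k241 : KT := (.br (Nat.shiftLeft (nat_lit 0x2000005) (nat_lit 88)) (.br (Nat.shiftLeft (nat_lit 0x401) (nat_lit 102)) (.br (Nat.shiftLeft (nat_lit 0x1003005) (nat_lit 88)) (.one (nat_lit 0x1003004006015200600800c02a650)) (.one (nat_lit 0x1003005006015200600a00c02b600))) (.br (Nat.shiftLeft (nat_lit 0x1) (nat_lit 113)) (.one (nat_lit 0x1004005006015200800a00c02b600)) (.one (nat_lit 0x2000004006015400000800c02a411)))) (.br (Nat.shiftLeft (nat_lit 0x2003005) (nat_lit 88)) (.br (Nat.shiftLeft (nat_lit 0x1001) (nat_lit 101)) (.one (nat_lit 0x2000005006015400000a00c02a411)) (.one (nat_lit 0x2003004006015400600800c02b600))) (.br (Nat.shiftLeft (nat_lit 0x801)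 (nat_lit 102)) (.one (nat_lit 0x2003005006015400600a00c02b600)) (.one (nat_lit 0x2004005006015400800a00c02b600)))))
def t241 : k241.all (jb2 57 fl b0) = true := by decide +kernel
noncomputable def k242 : KT := (.br (Nat.shiftLeft (nat_lit 0x3) (nat_lit 113)) (.br (Nat.shiftLeft (nat_lit 0x1) (nat_lit 114)) (.br (Nat.shiftLeft (nat_lit 0x3000005) (nat_lit 88)) (.one (nat_lit 0x3000004006015600000800c02a411)) (.br (Nat.shiftLeft (nat_lit 0xc01) (nat_lit 102)) (.one (nat_lit 0x3000005006015600000a00c02a411)) (.one (nat_lit 0x3004005006015600800a00c02b600)))) (.br (Nat.shiftLeft (nat_lit 0x5) (nat_lit 112)) (.br (Nat.shiftLeft (nat_lit 0x4000005) (nat_lit 88)) (.one (nat_lit 0x4000004006015800000800c02a411)) (.one (nat_lit 0x4000005006015800000a00c02a411))) (.br (Nat.shiftLeft (nat_lit 0x5000005) (nat_lit 88)) (.one (nat_lit 0x5000004006015a00000800c02a411)) (.one (nat_lit 0x5000005006015a00000a00c02a411))))) (.br (Nat.shiftLeft (nat_lit 0x1000002005) (nat_lit 88)) (.br (Nat.shiftLeft (nat_lit 0x6000005) (nat_lit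 88)) (.one (nat_lit 0x6000004006015c00000800c02a411)) (.br (Nat.shiftLeft (nat_lit 0x1) (nat_lit 124)) (.one (nat_lit 0x6000005006015c00000a00c02a411)) (.one (nat_lit 0x1000002004006015000400802c42a511)))) (.br (Nat.shiftLeft (nat_lit 0x1000003005) (nat_lit 88)) (.br (Nat.shiftLeft (nat_lit 0x1000003) (nat_lit 100)) (.one (nat_lit 0x1000002005006015000400a02c42a511)) (.one (nat_lit 0x1000003004006015000600802c42a511))) (.br (Nat.shiftLeft (nat_lit 0x400001) (nat_lit 102)) (.one (nat_lit 0x1000003005006015000600a02c42a511)) (.one (nat_lit 0x1000004005006015000800a02c42a511))))))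
def t242 : k242.all (jb2 57 fl b0) = true := by decide +kernel
noncomputable def k243 : KT := (.br (Nat.shiftLeft (nat_lit 0x1002003005) (nat_lit 88)) (.one (nat_lit 0x1002003004006015400600802c42a760)) (.one (nat_lit 0x1002003005006015400600a02c42b700)))
def t243 : k243.all (jb2 57 fl b0) = true := by decide +kernel
noncomputable def k244 : KT := (.one (nat_lit 0x1002004005006015400800a02c42a760))
def t244 : k244.all (jb2 57 fl b0) = true := by decide +kernel
noncomputable def k245 : KT := (.br (Nat.shiftLeft (nat_lit 0x1001) (nat_lit 113)) (.br (Nat.shiftLeft (nat_lit 0x2000003) (nat_lit 100)) (.br (Nat.shiftLeft (nat_lit 0x1) (nat_lit 125)) (.one (nat_lit 0x1003004005006015600800a02c42a760)) (.br (Nat.shiftLeft (nat_lit 0x2000002005) (nat_lit 88)) (.one (nat_lit 0x2000002004006015000400804c82a511)) (.one (nat_lit 0x2000002005006015000400a04c82a511)))) (.br (Nat.shiftLeft (nat_lit 0x2000003005) (nat_lit 88)) (.one (nat_lit 0x2000003004006015000600804c82a511)) (.br (Nat.shiftLeft (nat_lit 0x800001) (nat_lit 102))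 (.one (nat_lit 0x2000003005006015000600a04c82a511)) (.one (nat_lit 0x2000004005006015000800a04c82a511))))) (.br (Nat.shiftLeft (nat_lit 0x3000003) (nat_lit 100)) (.br (Nat.shiftLeft (nat_lit 0x3) (nat_lit 124)) (.one (nat_lit 0x2003004005006015600800a04c82b700)) (.br (Nat.shiftLeft (nat_lit 0x3000002005) (nat_lit 88)) (.one (nat_lit 0x3000002004006015000400806cc2a511)) (.one (nat_lit 0x3000002005006015000400a06cc2a511)))) (.br (Nat.shiftLeft (nat_lit 0xc00001) (nat_lit 102)) (.br (Nat.shiftLeft (nat_lit 0x3000003005) (nat_lit 88)) (.one (nat_lit 0x3000003004006015000600806cc2a511)) (.one (nat_lit 0x3000003005006015000600a06cc2a511))) (.br (Nat.shiftLeft (nat_lit 0x1) (nat_lit 126)) (.one (nat_lit 0x3000004005006015000800a06cc2a511)) (.one (nat_lit 0x4000002004006015000400808d02a511))))))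
def t245 : k245.all (jb2 57 fl b0) = true := by decide +kernel
noncomputable def k246 : KT := (.br (Nat.shiftLeft (nat_lit 0x5) (nat_lit 124)) (.br (Nat.shiftLeft (nat_lit 0x4000003005) (nat_lit 88)) (.br (Nat.shiftLeft (nat_lit 0x4000003) (nat_lit 100)) (.one (nat_lit 0x4000002005006015000400a08d02a511)) (.one (nat_lit 0x4000003004006015000600808d02a511))) (.br (Nat.shiftLeft (nat_lit 0x1000001) (nat_lit 102)) (.one (nat_lit 0x4000003005006015000600a08d02a511)) (.one (nat_lit 0x4000004005006015000800a08d02a511)))) (.br (Nat.shiftLeft (nat_lit 0x5000003) (nat_lit 100)) (.br (Nat.shiftLeft (nat_lit 0x5000002005) (nat_lit 88)) (.one (nat_lit 0x500000200400601500040080ad42a511)) (.one (nat_lit 0x5000002005006015000400a0ad42a511))) (.br (Nat.shiftLeft (nat_lit 0x5000003005) (nat_lit 88)) (.one (nat_lit 0x500000300400601500060080ad42a511)) (.one (nat_lit 0x5000003005006015000600a0ad42a511)))))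
def t246 : k246.all (jb2 57 fl b0) = true := by decide +kernel
noncomputable def k247 : KT := (.br (Nat.shiftLeft (nat_lit 0x6000002005) (nat_lit 88)) (.br (Nat.shiftLeft (nat_lit 0x3) (nat_lit 125)) (.one (nat_lit 0x5000004005006015000800a0ad42a511)) (.one (nat_lit 0x600000200400601500040080cd82a511))) (.br (Nat.shiftLeft (nat_lit 0x6000003) (nat_lit 100)) (.one (nat_lit 0x6000002005006015000400a0cd82a511)) (.one (nat_lit 0x600000300400601500060080cd82a511))))
def t247 : k247.all (jb2 57 fl b0) = true := by decide +kernel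
noncomputable def k248 : KT := (.br (Nat.shiftLeft (nat_lit 0x800001) (nat_lit 113)) (.br (Nat.shiftLeft (nat_lit 0x1) (nat_lit 136)) (.br (Nat.shiftLeft (nat_lit 0x1800001) (nat_lit 102)) (.one (nat_lit 0x6000003005006015000600a0cd82a511)) (.one (nat_lit 0x6000004005006015000800a0cd82a511))) (.br (Nat.shiftLeft (nat_lit 0x400000401) (nat_lit 102)) (.one (nat_lit 0x1000001003005006015200602a40c02a611)) (.one (nat_lit 0x1000001004005006015200802a40c02a611)))) (.br (Nat.shiftLeft (nat_lit 0x400000801) (nat_lit 102)) (.br (Nat.shiftLeft (nat_lit 0x1000002003005) (nat_lit 88)) (.one (nat_lit 0x1000002003004006015400602840c02a611)) (.one (nat_lit 0x1000002003005006015400602a40c02a611))) (.br (Nat.shiftLeft (nat_lit 0x1000003) (nat_lit 112)) (.one (nat_lit 0x1000002004005006015400802a40c02a611)) (.one (nat_lit 0x1000003004005006015600802a40c02a611)))))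
def t248 : k248.all (jb2 57 fl b0) = true := by decide +kernel
noncomputable def k249 : KT := (.br (Nat.shiftLeft (nat_lit 0xc00000401) (nat_lit 102)) (.br (Nat.shiftLeft (nat_lit 0x2000002003005) (nat_lit 88)) (.br (Nat.shiftLeft (nat_lit 0x800000401) (nat_lit 102)) (.br (Nat.shiftLeft (nat_lit 0x1) (nat_lit 137)) (.one (nat_lit 0x1002003004005006015600802a44c82a870)) (.one (nat_lit 0x2000001003005006015200604a80c02a611))) (.br (Nat.shiftLeft (nat_lit 0x1000001) (nat_lit 113)) (.one (nat_lit 0x2000001004005006015200804a80c02a611)) (.one (nat_lit 0x2000002003004006015400604880c02a611)))) (.br (Nat.shiftLeft (nat_lit 0x2000003) (nat_lit 112)) (.br (Nat.shiftLeft (nat_lit 0x800000801) (nat_lit 102)) (.one (nat_lit 0x2000002003005006015400604a80c02a611)) (.one (nat_lit 0x2000002004005006015400804a80c02a611))) (.br (Nat.shiftLeft (nat_lit 0x3) (nat_lit 136)) (.one (nat_lit 0x2000003004005006015600804a80c02a611)) (.one (nat_lit 0x3000001003005006015200606ac0c02a611))))) (.br (Nat.shiftLeft (nat_lit 0x3000003) (nat_lit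 112)) (.br (Nat.shiftLeft (nat_lit 0x3000002003005) (nat_lit 88)) (.br (Nat.shiftLeft (nat_lit 0x1800001) (nat_lit 113)) (.one (nat_lit 0x3000001004005006015200806ac0c02a611)) (.one (nat_lit 0x30000020030040060154006068c0c02a611))) (.br (Nat.shiftLeft (nat_lit 0xc00000801) (nat_lit 102)) (.one (nat_lit 0x3000002003005006015400606ac0c02a611)) (.one (nat_lit 0x3000002004005006015400806ac0c02a611)))) (.br (Nat.shiftLeft (nat_lit 0x1000000401) (nat_lit 102)) (.br (Nat.shiftLeft (nat_lit 0x1) (nat_lit 138)) (.one (nat_lit 0x3000003004005006015600806ac0c02a611)) (.one (nat_lit 0x4000001003005006015200608b00c02a611))) (.br (Nat.shiftLeft (nat_lit 0x2000001) (nat_lit 113)) (.one (nat_lit 0x4000001004005006015200808b00c02a611)) (.one (nat_lit 0x4000002003004006015400608900c02a611))))))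
def t249 : k249.all (jb2 57 fl b0) = true := by decide +kernel
noncomputable def k250 : KT := (.br (Nat.shiftLeft (nat_lit 0x4000003) (nat_lit 112)) (.br (Nat.shiftLeft (nat_lit 0x1000000801) (nat_lit 102)) (.one (nat_lit 0x4000002003005006015400608b00c02a611)) (.one (nat_lit 0x4000002004005006015400808b00c02a611))) (.br (Nat.shiftLeft (nat_lit 0x5) (nat_lit 136)) (.one (nat_lit 0x4000003004005006015600808b00c02a611)) (.one (nat_lit 0x500000100300500601520060ab40c02a611))))
def t250 : k250.all (jb2 57 fl b0) = true := by decide +kernel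
noncomputable def k251 : KT := (.br (Nat.shiftLeft (nat_lit 0x2800001) (nat_lit 113)) (.one (nat_lit 0x500000100400500601520080ab40c02a611)) (.one (nat_lit 0x500000200300400601540060a940c02a611)))
def t251 : k251.all (jb2 57 fl b0) = true := by decide +kernel
noncomputable def k252 : KT := (.br (Nat.shiftLeft (nat_lit 0x1400000801) (nat_lit 102)) (.one (nat_lit 0x500000200300500601540060ab40c02a611)) (.one (nat_lit 0x500000200400500601540080ab40c02a611)))
def t252 : k252.all (jb2 57 fl b0) = true := by decide +kernel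
noncomputable def k253 : KT := (.br (Nat.shiftLeft (nat_lit 0x3) (nat_lit 137)) (.one (nat_lit 0x500000300400500601560080ab40c02a611)) (.one (nat_lit 0x600000100300500601520060cb80c02a611)))
def t253 : k253.all (jb2 57 fl b0) = true := by decide +kernel
noncomputable def k254 : KT := (.br (Nat.shiftLeft (nat_lit 0x3000001) (nat_lit 113)) (.one (nat_lit 0x600000100400500601520080cb80c02a611)) (.one (nat_lit 0x600000200300400601540060c980c02a611)))
def t254 : k254.all (jb2 57 fl b0) = true := by decide +kernel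
noncomputable def k255 : KT := (.one (nat_lit 0x600000200300500601540060cb80c02a611))
def t255 : k255.all (jb2 57 fl b0) = true := by decide +kernel
noncomputable def k256 : KT := (.br (Nat.shiftLeft (nat_lit 0x1) (nat_lit 149)) (.br (Nat.shiftLeft (nat_lit 0x1) (nat_lit 148)) (.br (Nat.shiftLeft (nat_lit 0x6000003) (nat_lit 112)) (.one (nat_lit 0x600000200400500601540080cb80c02a611)) (.one (nat_lit 0x600000300400500601560080cb80c02a611))) (.br (Nat.shiftLeft (nat_lit 0x800001) (nat_lit 125)) (.one (nat_lit 0x1000001002003005006015402640a02c42a711)) (.one (nat_lit 0x1000002003004005006015602840a04c82a711)))) (.br (Nat.shiftLeft (nat_lit 0x3) (nat_lit 148)) (.br (Nat.shiftLeft (nat_lit 0x1000001) (nat_lit 125)) (.one (nat_lit 0x2000001002003005006015404680a02c42a711)) (.one (nat_lit 0x2000002003004005006015604880a04c82a711))) (.br (Nat.shiftLeft (nat_lit 0x1800001) (nat_lit 125)) (.one (nat_lit 0x30000010020030050060154066c0a02c42a711)) (.one (nat_lit 0x30000020030040050060156068c0a04c82a711)))))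
def t256 : k256.all (jb2 57 fl b0) = true := by decide +kernel
noncomputable def k257 : KT := (.br (Nat.shiftLeft (nat_lit 0x5) (nat_lit 148)) (.br (Nat.shiftLeft (nat_lit 0x2000001) (nat_lit 125)) (.one (nat_lit 0x4000001002003005006015408700a02c42a711)) (.one (nat_lit 0x4000002003004005006015608900a04c82a711))) (.br (Nat.shiftLeft (nat_lit 0x2800001) (nat_lit 125)) (.one (nat_lit 0x500000100200300500601540a740a02c42a711)) (.one (nat_lit 0x500000200300400500601560a940a04c82a711))))
def t257 : k257.all (jb2 57 fl b0) = true := by decide +kernel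
noncomputable def k258 : KT := (.br (Nat.shiftLeft (nat_lit 0x3000001) (nat_lit 125)) (.one (nat_lit 0x600000100200300500601540c780a02c42a711)) (.one (nat_lit 0x600000200300400500601560c980a04c82a711)))
def t258 : k258.all (jb2 57 fl b0) = true := by decide +kernel
noncomputable def s12 : KT := (.br (nat_lit 0x600000300400601500060080cd82a511) (.br (nat_lit 0x2004005006015400800a00c02b600) (.br (nat_lit 0x1000005006015200000a00c02a411) (.br (nat_lit 0x3006015000000600c02a430) k237 k238) (.br (nat_lit 0x1002004006015200400800c02a650) k239 (.br (nat_lit 0x1002005006015200400a00c02a650) k240 k241))) (.br (nat_lit 0x1002004005006015400800a02c42a760) (.br (nat_lit 0x1000004005006015000800a02c42a511) k242 (.br (nat_lit 0x1002003005006015400600a02c42b700) k243 k244)) (.br (nat_lit 0x4000002004006015000400808d02a511) k245 (.br (nat_lit 0x5000003005006015000600a0ad42a511) k246 k247)))) (.br (nat_lit 0x500000200400500601540080ab40c02a611) (.br (nat_lit 0x4000002003004006015400608900c02a611) (.br (nat_lit 0x1000003004005006015600802a40c02a611)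 k248 k249) (.br (nat_lit 0x500000100300500601520060ab40c02a611) k250 (.br (nat_lit 0x500000200300400601540060a940c02a611) k251 k252))) (.br (nat_lit 0x600000200300500601540060cb80c02a611) (.br (nat_lit 0x600000100300500601520060cb80c02a611) k253 (.br (nat_lit 0x600000200300400601540060c980c02a611) k254 k255)) (.br (nat_lit 0x30000020030040050060156068c0a04c82a711) k256 (.br (nat_lit 0x500000200300400500601560a940a04c82a711) k257 k258)))))
noncomputable def u12 : KT := (.one (nat_lit 0x6015000000000c02a320))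
def w12 : u12.all (wj 57 s12) = true := by decide +kernel
def o12 : OkW 57 (jb2 57 fl) u12 := .lift s12 _ (.br _ _ _ (.br _ _ _ (.br _ _ _ (.br _ _ _ (.leaf b0 k237 t237) (.leaf b0 k238 t238)) (.br _ _ _ (.leaf b0 k239 t239) (.br _ _ _ (.leaf b0 k240 t240) (.leaf b0 k241 t241)))) (.br _ _ _ (.br _ _ _ (.leaf b0 k242 t242) (.br _ _ _ (.leaf b0 k243 t243) (.leaf b0 k244 t244))) (.br _ _ _ (.leaf b0 k245 t245) (.br _ _ _ (.leaf b0 k246 t246) (.leaf b0 k247 t247))))) (.br _ _ _ (.br _ _ _ (.br _ _ _ (.leaf b0 k248 t248) (.leaf b0 k249 t249)) (.br _ _ _ (.leaf b0 k250 t250) (.br _ _ _ (.leaf b0 k251 t251) (.leaf b0 k252 t252)))) (.br _ _ _ (.br _ _ _ (.leaf b0 k253 t253) (.br _ _ _ (.leaf b0 k254 t254) (.leaf b0 k255 t255))) (.br _ _ _ (.leaf b0 k256 t256) (.br _ _ _ (.leaf b0 k257 t257) (.leaf b0 k258 t258)))))) w12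
noncomputable def k259 : KT := (.br (Nat.shiftLeft (nat_lit 0x1) (nat_lit 90)) (.br (Nat.shiftLeft (nat_lit 0x1) (nat_lit 89)) (.one (nat_lit 0x1006016000000200c02c430)) (.br (Nat.shiftLeft (nat_lit 0x3) (nat_lit 88)) (.one (nat_lit 0x2006016000000400c02c430)) (.one (nat_lit 0x3006016000000600c02c430)))) (.br (Nat.shiftLeft (nat_lit 0x5) (nat_lit 88)) (.one (nat_lit 0x4006016000000800c02d400)) (.br (Nat.shiftLeft (nat_lit 0x1) (nat_lit 100)) (.one (nat_lit 0x5006016000000a00c02d400)) (.one (nat_lit 0x1000006016000200000c02c311)))))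
def t259 : k259.all (jb2 57 fl b0) = true := by decide +kernel
noncomputable def k260 : KT := (.br (Nat.shiftLeft (nat_lit 0x3005) (nat_lit 88)) (.br (Nat.shiftLeft (nat_lit 0x801) (nat_lit 90)) (.br (Nat.shiftLeft (nat_lit 0x1005) (nat_lit 88)) (.one (nat_lit 0x1004006016000200800c02c540)) (.br (Nat.shiftLeft (nat_lit 0x1) (nat_lit 101)) (.one (nat_lit 0x1005006016000200a00c02c540)) (.one (nat_lit 0x2000006016000400000c02c311)))) (.br (Nat.shiftLeft (nat_lit 0x3) (nat_lit 100)) (.br (Nat.shiftLeft (nat_lit 0x2005) (nat_lit 88)) (.one (nat_lit 0x2004006016000400800c02d500)) (.one (nat_lit 0x2005006016000400a00c02d500))) (.br (Nat.shiftLeft (nat_lit 0xc01) (nat_lit 90)) (.one (nat_lit 0x3000006016000600000c02c311)) (.one (nat_lit 0x3004006016000600800c02d500))))) (.br (Nat.shiftLeft (nat_lit 0x5) (nat_lit 100)) (.br (Nat.shiftLeft (nat_lit 0x1) (nat_lit 102)) (.one (nat_lit 0x3005006016000600a00c02d500)) (.br (Nat.shiftLeft (nat_lit 0x1001) (nat_lit 90)) (.one (nat_lit 0x4000006016000800000c02c311)) (.one (nat_lit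 0x4005006016000800a00c02d500)))) (.br (Nat.shiftLeft (nat_lit 0x1) (nat_lit 112)) (.br (Nat.shiftLeft (nat_lit 0x3) (nat_lit 101)) (.one (nat_lit 0x5000006016000a00000c02c311)) (.one (nat_lit 0x6000006016000c00000c02c311))) (.br (Nat.shiftLeft (nat_lit 0x1000005) (nat_lit 88)) (.one (nat_lit 0x1000004006016200000800c02c411)) (.one (nat_lit 0x1000005006016200000a00c02c411))))))
def t260 : k260.all (jb2 57 fl b0) = true := by decide +kernel
noncomputable def k261 : KT := (.one (nat_lit 0x1002004006016200400800c02c650))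
def t261 : k261.all (jb2 57 fl b0) = true := by decide +kernel
noncomputable def k262 : KT := (.one (nat_lit 0x1002005006016200400a00c02c650))
def t262 : k262.all (jb2 57 fl b0) = true := by decide +kernel
noncomputable def k263 : KT := (.br (Nat.shiftLeft (nat_lit 0x1003005) (nat_lit 88)) (.one (nat_lit 0x1003004006016200600800c02c650)) (.one (nat_lit 0x1003005006016200600a00c02d600)))
def t263 : k263.all (jb2 57 fl b0) = true := by decide +kernel
noncomputable def k264 : KT := (.br (Nat.shiftLeft (nat_lit 0x801) (nat_lit 102)) (.br (Nat.shiftLeft (nat_lit 0x2000005) (nat_lit 88)) (.br (Nat.shiftLeft (nat_lit 0x1) (nat_lit 113)) (.one (nat_lit 0x1004005006016200800a00c02c650)) (.one (nat_lit 0x2000004006016400000800c02c411))) (.br (Nat.shiftLeft (nat_lit 0x1001) (nat_lit 101)) (.one (nat_lit 0x2000005006016400000a00c02c411)) (.br (Nat.shiftLeft (nat_lit 0x2003005) (nat_lit 88)) (.one (nat_lit 0x2003004006016400600800c02d600)) (.one (nat_lit 0x2003005006016400600a00c02d600))))) (.br (Nat.shiftLeft (nat_lit 0xc01)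 (nat_lit 102)) (.br (Nat.shiftLeft (nat_lit 0x3) (nat_lit 112)) (.one (nat_lit 0x2004005006016400800a00c02d600)) (.br (Nat.shiftLeft (nat_lit 0x3000005) (nat_lit 88)) (.one (nat_lit 0x3000004006016600000800c02c411)) (.one (nat_lit 0x3000005006016600000a00c02c411)))) (.br (Nat.shiftLeft (nat_lit 0x1) (nat_lit 114)) (.one (nat_lit 0x3004005006016600800a00c02d600)) (.br (Nat.shiftLeft (nat_lit 0x4000005) (nat_lit 88)) (.one (nat_lit 0x4000004006016800000800c02c411)) (.one (nat_lit 0x4000005006016800000a00c02c411))))))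
def t264 : k264.all (jb2 57 fl b0) = true := by decide +kernel
noncomputable def k265 : KT := (.br (Nat.shiftLeft (nat_lit 0x1000002005) (nat_lit 88)) (.br (Nat.shiftLeft (nat_lit 0x3) (nat_lit 113)) (.br (Nat.shiftLeft (nat_lit 0x5000005) (nat_lit 88)) (.one (nat_lit 0x5000004006016a00000800c02c411)) (.one (nat_lit 0x5000005006016a00000a00c02c411))) (.br (Nat.shiftLeft (nat_lit 0x6000005) (nat_lit 88)) (.one (nat_lit 0x6000004006016c00000800c02c411)) (.br (Nat.shiftLeft (nat_lit 0x1) (nat_lit 124)) (.one (nat_lit 0x6000005006016c00000a00c02c411)) (.one (nat_lit 0x1000002004006016000400802c42c511))))) (.br (Nat.shiftLeft (nat_lit 0x1000003005) (nat_lit 88)) (.br (Nat.shiftLeft (nat_lit 0x1000003) (nat_lit 100)) (.one (nat_lit 0x1000002005006016000400a02c42c511)) (.one (nat_lit 0x1000003004006016000600802c42c511))) (.br (Nat.shiftLeft (nat_lit 0x400001) (nat_lit 102)) (.one (nat_lit 0x1000003005006016000600a02c42c511)) (.br (Nat.shiftLeft (nat_lit 0x801) (nat_lit 113)) (.one (nat_lit 0x1000004005006016000800a02c42c511))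 (.one (nat_lit 0x1002003004006016400600802c42c760))))))
def t265 : k265.all (jb2 57 fl b0) = true := by decide +kernel
noncomputable def k266 : KT := (.one (nat_lit 0x1002003005006016400600a02c42c760))
def t266 : k266.all (jb2 57 fl b0) = true := by decide +kernel
noncomputable def k267 : KT := (.one (nat_lit 0x1002004005006016400800a02c42c760))
def t267 : k267.all (jb2 57 fl b0) = true := by decide +kernel
noncomputable def k268 : KT := (.br (Nat.shiftLeft (nat_lit 0x2000003) (nat_lit 100)) (.br (Nat.shiftLeft (nat_lit 0x1) (nat_lit 125)) (.one (nat_lit 0x1003004005006016600800a02c42c760)) (.br (Nat.shiftLeft (nat_lit 0x2000002005) (nat_lit 88)) (.one (nat_lit 0x2000002004006016000400804c82c511)) (.one (nat_lit 0x2000002005006016000400a04c82c511)))) (.br (Nat.shiftLeft (nat_lit 0x2000003005) (nat_lit 88)) (.one (nat_lit 0x2000003004006016000600804c82c511)) (.br (Nat.shiftLeft (nat_lit 0x800001) (nat_lit 102)) (.one (nat_lit 0x2000003005006016000600a04c82c511)) (.one (nat_lit 0x2000004005006016000800a04c82c511)))))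
def t268 : k268.all (jb2 57 fl b0) = true := by decide +kernel
noncomputable def k269 : KT := (.br (Nat.shiftLeft (nat_lit 0x3000003) (nat_lit 100)) (.br (Nat.shiftLeft (nat_lit 0x3) (nat_lit 124)) (.one (nat_lit 0x2003004005006016600800a04c82c760)) (.br (Nat.shiftLeft (nat_lit 0x3000002005) (nat_lit 88)) (.one (nat_lit 0x3000002004006016000400806cc2c511)) (.one (nat_lit 0x3000002005006016000400a06cc2c511)))) (.br (Nat.shiftLeft (nat_lit 0x3000003005) (nat_lit 88)) (.one (nat_lit 0x3000003004006016000600806cc2c511)) (.br (Nat.shiftLeft (nat_lit 0xc00001) (nat_lit 102)) (.one (nat_lit 0x3000003005006016000600a06cc2c511)) (.one (nat_lit 0x3000004005006016000800a06cc2c511)))))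
def t269 : k269.all (jb2 57 fl b0) = true := by decide +kernel
noncomputable def k270 : KT := (.br (Nat.shiftLeft (nat_lit 0x1000001) (nat_lit 102)) (.br (Nat.shiftLeft (nat_lit 0x4000003) (nat_lit 100)) (.br (Nat.shiftLeft (nat_lit 0x4000002005) (nat_lit 88)) (.one (nat_lit 0x4000002004006016000400808d02c511)) (.one (nat_lit 0x4000002005006016000400a08d02c511))) (.br (Nat.shiftLeft (nat_lit 0x4000003005) (nat_lit 88)) (.one (nat_lit 0x4000003004006016000600808d02c511)) (.one (nat_lit 0x4000003005006016000600a08d02c511)))) (.br (Nat.shiftLeft (nat_lit 0x5000002005) (nat_lit 88)) (.br (Nat.shiftLeft (nat_lit 0x5) (nat_lit 124)) (.one (nat_lit 0x4000004005006016000800a08d02c511)) (.one (nat_lit 0x500000200400601600040080ad42c511))) (.br (Nat.shiftLeft (nat_lit 0x5000003) (nat_lit 100)) (.one (nat_lit 0x5000002005006016000400a0ad42c511)) (.br (Nat.shiftLeft (nat_lit 0x5000003005) (nat_lit 88)) (.one (nat_lit 0x500000300400601600060080ad42c511)) (.one (nat_lit 0x5000003005006016000600a0ad42c511))))))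
def t270 : k270.all (jb2 57 fl b0) = true := by decide +kernel
noncomputable def k271 : KT := (.br (Nat.shiftLeft (nat_lit 0x6000002005) (nat_lit 88)) (.br (Nat.shiftLeft (nat_lit 0x3) (nat_lit 125)) (.one (nat_lit 0x5000004005006016000800a0ad42c511)) (.one (nat_lit 0x600000200400601600040080cd82c511))) (.br (Nat.shiftLeft (nat_lit 0x6000003) (nat_lit 100)) (.one (nat_lit 0x6000002005006016000400a0cd82c511)) (.one (nat_lit 0x600000300400601600060080cd82c511))))
def t271 : k271.all (jb2 57 fl b0) = true := by decide +kernel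
noncomputable def k272 : KT := (.br (Nat.shiftLeft (nat_lit 0x2000002003005) (nat_lit 88)) (.br (Nat.shiftLeft (nat_lit 0x1000002003005) (nat_lit 88)) (.br (Nat.shiftLeft (nat_lit 0x1) (nat_lit 136)) (.br (Nat.shiftLeft (nat_lit 0x1800001) (nat_lit 102)) (.one (nat_lit 0x6000003005006016000600a0cd82c511)) (.one (nat_lit 0x6000004005006016000800a0cd82c511))) (.br (Nat.shiftLeft (nat_lit 0x800001) (nat_lit 113)) (.one (nat_lit 0x1000001003005006016200602a40c02c611)) (.one (nat_lit 0x1000002003004006016400602840c02c611)))) (.br (Nat.shiftLeft (nat_lit 0x1000003) (nat_lit 112)) (.br (Nat.shiftLeft (nat_lit 0x400000801) (nat_lit 102)) (.one (nat_lit 0x1000002003005006016400602a40c02c611)) (.one (nat_lit 0x1000002004005006016400802a40c02c611))) (.br (Nat.shiftLeft (nat_lit 0x1) (nat_lit 137)) (.one (nat_lit 0x1000003004005006016600802a40c02c611)) (.br (Nat.shiftLeft (nat_lit 0x1000001) (nat_lit 113)) (.one (nat_lit 0x2000001003005006016200604a80c02c611)) (.one (nat_lit 0x2000002003004006016400604880c02c611)))))) (.br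 (Nat.shiftLeft (nat_lit 0x1800001) (nat_lit 113)) (.br (Nat.shiftLeft (nat_lit 0x2000003) (nat_lit 112)) (.br (Nat.shiftLeft (nat_lit 0x800000801) (nat_lit 102)) (.one (nat_lit 0x2000002003005006016400604a80c02c611)) (.one (nat_lit 0x2000002004005006016400804a80c02c611))) (.br (Nat.shiftLeft (nat_lit 0x3) (nat_lit 136)) (.one (nat_lit 0x2000003004005006016600804a80c02c611)) (.one (nat_lit 0x3000001003005006016200606ac0c02c611)))) (.br (Nat.shiftLeft (nat_lit 0xc00000801) (nat_lit 102)) (.br (Nat.shiftLeft (nat_lit 0x3000002003005) (nat_lit 88)) (.one (nat_lit 0x30000020030040060164006068c0c02c611)) (.one (nat_lit 0x3000002003005006016400606ac0c02c611))) (.br (Nat.shiftLeft (nat_lit 0x3000003) (nat_lit 112)) (.one (nat_lit 0x3000002004005006016400806ac0c02c611)) (.br (Nat.shiftLeft (nat_lit 0x1) (nat_lit 138)) (.one (nat_lit 0x3000003004005006016600806ac0c02c611)) (.one (nat_lit 0x4000001003005006016200608b00c02c611)))))))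
def t272 : k272.all (jb2 57 fl b0) = true := by decide +kernel
noncomputable def k273 : KT := (.br (Nat.shiftLeft (nat_lit 0x1000000801) (nat_lit 102)) (.br (Nat.shiftLeft (nat_lit 0x4000002003005) (nat_lit 88)) (.one (nat_lit 0x4000002003004006016400608900c02c611)) (.one (nat_lit 0x4000002003005006016400608b00c02c611))) (.br (Nat.shiftLeft (nat_lit 0x4000003) (nat_lit 112)) (.one (nat_lit 0x4000002004005006016400808b00c02c611)) (.br (Nat.shiftLeft (nat_lit 0x5) (nat_lit 136)) (.one (nat_lit 0x4000003004005006016600808b00c02c611)) (.one (nat_lit 0x500000100300500601620060ab40c02c611)))))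
def t273 : k273.all (jb2 57 fl b0) = true := by decide +kernel
noncomputable def k274 : KT := (.br (Nat.shiftLeft (nat_lit 0x5000002003005) (nat_lit 88)) (.one (nat_lit 0x500000200300400601640060a940c02c611)) (.one (nat_lit 0x500000200300500601640060ab40c02c611)))
def t274 : k274.all (jb2 57 fl b0) = true := by decide +kernel
noncomputable def k275 : KT := (.br (Nat.shiftLeft (nat_lit 0x5000003) (nat_lit 112)) (.one (nat_lit 0x500000200400500601640080ab40c02c611)) (.one (nat_lit 0x500000300400500601660080ab40c02c611)))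
def t275 : k275.all (jb2 57 fl b0) = true := by decide +kernel
noncomputable def k276 : KT := (.br (Nat.shiftLeft (nat_lit 0x3000001) (nat_lit 113)) (.one (nat_lit 0x600000100300500601620060cb80c02c611)) (.one (nat_lit 0x600000200300400601640060c980c02c611)))
def t276 : k276.all (jb2 57 fl b0) = true := by decide +kernel
noncomputable def k277 : KT := (.br (Nat.shiftLeft (nat_lit 0x1800000801) (nat_lit 102)) (.one (nat_lit 0x600000200300500601640060cb80c02c611)) (.one (nat_lit 0x600000200400500601640080cb80c02c611)))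
def t277 : k277.all (jb2 57 fl b0) = true := by decide +kernel
noncomputable def k278 : KT := (.one (nat_lit 0x600000300400500601660080cb80c02c611))
def t278 : k278.all (jb2 57 fl b0) = true := by decide +kernel
noncomputable def s13 : KT := (.br (nat_lit 0x2000004005006016000800a04c82c511) (.br (nat_lit 0x1003005006016200600a00c02d600) (.br (nat_lit 0x1000005006016200000a00c02c411) (.br (nat_lit 0x1000006016000200000c02c311) k259 k260) (.br (nat_lit 0x1002004006016200400800c02c650) k261 (.br (nat_lit 0x1002005006016200400a00c02c650) k262 k263))) (.br (nat_lit 0x1002003004006016400600802c42c760) (.br (nat_lit 0x4000005006016800000a00c02c411) k264 k265) (.br (nat_lit 0x1002003005006016400600a02c42c760) k266 (.br (nat_lit 0x1002004005006016400800a02c42c760) k267 k268)))) (.br (nat_lit 0x500000100300500601620060ab40c02c611) (.br (nat_lit 0x5000003005006016000600a0ad42c511) (.br (nat_lit 0x3000004005006016000800a06cc2c511) k269 k270) (.br (nat_lit 0x600000300400601600060080cd82c511) k271 (.br (nat_lit 0x4000001003005006016200608b00c02c611)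 k272 k273))) (.br (nat_lit 0x500000300400500601660080ab40c02c611) (.br (nat_lit 0x500000200300500601640060ab40c02c611) k274 k275) (.br (nat_lit 0x600000200300400601640060c980c02c611) k276 (.br (nat_lit 0x600000200400500601640080cb80c02c611) k277 k278)))))
noncomputable def u13 : KT := (.one (nat_lit 0x6016000000000c02c320))
def w13 : u13.all (wj 57 s13) = true := by decide +kernel
def o13 : OkW 57 (jb2 57 fl) u13 := .lift s13 _ (.br _ _ _ (.br _ _ _ (.br _ _ _ (.br _ _ _ (.leaf b0 k259 t259) (.leaf b0 k260 t260)) (.br _ _ _ (.leaf b0 k261 t261) (.br _ _ _ (.leaf b0 k262 t262) (.leaf b0 k263 t263)))) (.br _ _ _ (.br _ _ _ (.leaf b0 k264 t264) (.leaf b0 k265 t265)) (.br _ _ _ (.leaf b0 k266 t266) (.br _ _ _ (.leaf b0 k267 t267) (.leaf b0 k268 t268))))) (.br _ _ _ (.br _ _ _ (.br _ _ _ (.leaf b0 k269 t269) (.leaf b0 k270 t270)) (.br _ _ _ (.leaf b0 k271 t271) (.br _ _ _ (.leaf b0 k272 t272) (.leaf b0 k273 t273)))) (.br _ _ _ (.br _ _ _ (.leaf b0 k274 t274) (.leaf b0 k275 t275)) (.br _ _ _ (.leaf b0 k276 t276) (.br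 _ _ _ (.leaf b0 k277 t277) (.leaf b0 k278 t278)))))) w13
noncomputable def k279 : KT := (.br (Nat.shiftLeft (nat_lit 0x1) (nat_lit 90)) (.br (Nat.shiftLeft (nat_lit 0x1) (nat_lit 89)) (.one (nat_lit 0x1006017000000200c02e430)) (.br (Nat.shiftLeft (nat_lit 0x3) (nat_lit 88)) (.one (nat_lit 0x2006017000000400c02e430)) (.one (nat_lit 0x3006017000000600c02e430)))) (.br (Nat.shiftLeft (nat_lit 0x5) (nat_lit 88)) (.one (nat_lit 0x4006017000000800c02f400)) (.br (Nat.shiftLeft (nat_lit 0x1) (nat_lit 100)) (.one (nat_lit 0x5006017000000a00c02f400)) (.one (nat_lit 0x1000006017000200000c02e311)))))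
def t279 : k279.all (jb2 57 fl b0) = true := by decide +kernel
noncomputable def k280 : KT := (.br (Nat.shiftLeft (nat_lit 0x3005) (nat_lit 88)) (.br (Nat.shiftLeft (nat_lit 0x801) (nat_lit 90)) (.br (Nat.shiftLeft (nat_lit 0x1005) (nat_lit 88)) (.one (nat_lit 0x1004006017000200800c02e540)) (.br (Nat.shiftLeft (nat_lit 0x1) (nat_lit 101)) (.one (nat_lit 0x1005006017000200a00c02e540)) (.one (nat_lit 0x2000006017000400000c02e311)))) (.br (Nat.shiftLeft (nat_lit 0x3) (nat_lit 100)) (.br (Nat.shiftLeft (nat_lit 0x2005) (nat_lit 88)) (.one (nat_lit 0x2004006017000400800c02f500)) (.one (nat_lit 0x2005006017000400a00c02f500))) (.br (Nat.shiftLeft (nat_lit 0xc01) (nat_lit 90)) (.one (nat_lit 0x3000006017000600000c02e311)) (.one (nat_lit 0x3004006017000600800c02f500))))) (.br (Nat.shiftLeft (nat_lit 0x5) (nat_lit 100)) (.br (Nat.shiftLeft (nat_lit 0x1) (nat_lit 102)) (.one (nat_lit 0x3005006017000600a00c02f500)) (.br (Nat.shiftLeft (nat_lit 0x1001) (nat_lit 90)) (.one (nat_lit 0x4000006017000800000c02e311)) (.one (nat_lit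 0x4005006017000800a00c02f500)))) (.br (Nat.shiftLeft (nat_lit 0x1) (nat_lit 112)) (.br (Nat.shiftLeft (nat_lit 0x3) (nat_lit 101)) (.one (nat_lit 0x5000006017000a00000c02e311)) (.one (nat_lit 0x6000006017000c00000c02e311))) (.br (Nat.shiftLeft (nat_lit 0x1000005) (nat_lit 88)) (.one (nat_lit 0x1000004006017200000800c02e411)) (.one (nat_lit 0x1000005006017200000a00c02e411))))))
def t280 : k280.all (jb2 57 fl b0) = true := by decide +kernel
noncomputable def k281 : KT := (.one (nat_lit 0x1002004006017200400800c02e650))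
def t281 : k281.all (jb2 57 fl b0) = true := by decide +kernel
noncomputable def k282 : KT := (.one (nat_lit 0x1002005006017200400a00c02e650))
def t282 : k282.all (jb2 57 fl b0) = true := by decide +kernel
noncomputable def k283 : KT := (.one (nat_lit 0x1003004006017200600800c02e650))
def t283 : k283.all (jb2 57 fl b0) = true := by decide +kernel
noncomputable def k284 : KT := (.one (nat_lit 0x1003005006017200600a00c02e650))
def t284 : k284.all (jb2 57 fl b0) = true := by decide +kernel
noncomputable def k285 : KT := (.br (Nat.shiftLeft (nat_lit 0x4000005) (nat_lit 88)) (.br (Nat.shiftLeft (nat_lit 0x801) (nat_lit 102)) (.br (Nat.shiftLeft (nat_lit 0x2000005) (nat_lit 88)) (.br (Nat.shiftLeft (nat_lit 0x1) (nat_lit 113)) (.one (nat_lit 0x1004005006017200800a00c02e650)) (.one (nat_lit 0x2000004006017400000800c02e411))) (.br (Nat.shiftLeft (nat_lit 0x1001) (nat_lit 101)) (.one (nat_lit 0x2000005006017400000a00c02e411)) (.br (Nat.shiftLeft (nat_lit 0x2003005) (nat_lit 88)) (.one (nat_lit 0x2003004006017400600800c02f600))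 (.one (nat_lit 0x2003005006017400600a00c02f600))))) (.br (Nat.shiftLeft (nat_lit 0x3000005) (nat_lit 88)) (.br (Nat.shiftLeft (nat_lit 0x3) (nat_lit 112)) (.one (nat_lit 0x2004005006017400800a00c02f600)) (.one (nat_lit 0x3000004006017600000800c02e411))) (.br (Nat.shiftLeft (nat_lit 0xc01) (nat_lit 102)) (.one (nat_lit 0x3000005006017600000a00c02e411)) (.br (Nat.shiftLeft (nat_lit 0x1) (nat_lit 114)) (.one (nat_lit 0x3004005006017600800a00c02f600)) (.one (nat_lit 0x4000004006017800000800c02e411)))))) (.br (Nat.shiftLeft (nat_lit 0x1) (nat_lit 124)) (.br (Nat.shiftLeft (nat_lit 0x5000005) (nat_lit 88)) (.br (Nat.shiftLeft (nat_lit 0x5) (nat_lit 112)) (.one (nat_lit 0x4000005006017800000a00c02e411)) (.one (nat_lit 0x5000004006017a00000800c02e411))) (.br (Nat.shiftLeft (nat_lit 0x3) (nat_lit 113)) (.one (nat_lit 0x5000005006017a00000a00c02e411)) (.br (Nat.shiftLeft (nat_lit 0x6000005) (nat_lit 88)) (.one (nat_lit 0x6000004006017c00000800c02e411)) (.one (nat_lit 0x6000005006017c00000a00c02e411))))) (.br (Nat.shiftLeft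 (nat_lit 0x1000003) (nat_lit 100)) (.br (Nat.shiftLeft (nat_lit 0x1000002005) (nat_lit 88)) (.one (nat_lit 0x1000002004006017000400802c42e511)) (.one (nat_lit 0x1000002005006017000400a02c42e511))) (.br (Nat.shiftLeft (nat_lit 0x1000003005) (nat_lit 88)) (.one (nat_lit 0x1000003004006017000600802c42e511)) (.br (Nat.shiftLeft (nat_lit 0x400001) (nat_lit 102)) (.one (nat_lit 0x1000003005006017000600a02c42e511)) (.one (nat_lit 0x1000004005006017000800a02c42e511)))))))
def t285 : k285.all (jb2 57 fl b0) = true := by decide +kernel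
noncomputable def k286 : KT := (.one (nat_lit 0x1002003004006017400600802c42e760))
def t286 : k286.all (jb2 57 fl b0) = true := by decide +kernel
noncomputable def k287 : KT := (.one (nat_lit 0x1002003005006017400600a02c42e760))
def t287 : k287.all (jb2 57 fl b0) = true := by decide +kernel
noncomputable def k288 : KT := (.one (nat_lit 0x1002004005006017400800a02c42e760))
def t288 : k288.all (jb2 57 fl b0) = true := by decide +kernel
noncomputable def k289 : KT := (.br (Nat.shiftLeft (nat_lit 0x2000003) (nat_lit 100)) (.br (Nat.shiftLeft (nat_lit 0x1) (nat_lit 125)) (.one (nat_lit 0x1003004005006017600800a02c42e760)) (.br (Nat.shiftLeft (nat_lit 0x2000002005) (nat_lit 88)) (.one (nat_lit 0x2000002004006017000400804c82e511)) (.one (nat_lit 0x2000002005006017000400a04c82e511)))) (.br (Nat.shiftLeft (nat_lit 0x2000003005) (nat_lit 88)) (.one (nat_lit 0x2000003004006017000600804c82e511)) (.br (Nat.shiftLeft (nat_lit 0x800001) (nat_lit 102)) (.one (nat_lit 0x2000003005006017000600a04c82e511)) (.one (nat_lit 0x2000004005006017000800a04c82e511)))))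
def t289 : k289.all (jb2 57 fl b0) = true := by decide +kernel
noncomputable def k290 : KT := (.br (Nat.shiftLeft (nat_lit 0x3000003005) (nat_lit 88)) (.br (Nat.shiftLeft (nat_lit 0x3000002005) (nat_lit 88)) (.br (Nat.shiftLeft (nat_lit 0x3) (nat_lit 124)) (.one (nat_lit 0x2003004005006017600800a04c82e760)) (.one (nat_lit 0x3000002004006017000400806cc2e511))) (.br (Nat.shiftLeft (nat_lit 0x3000003) (nat_lit 100)) (.one (nat_lit 0x3000002005006017000400a06cc2e511)) (.one (nat_lit 0x3000003004006017000600806cc2e511)))) (.br (Nat.shiftLeft (nat_lit 0x1) (nat_lit 126)) (.br (Nat.shiftLeft (nat_lit 0xc00001) (nat_lit 102)) (.one (nat_lit 0x3000003005006017000600a06cc2e511)) (.one (nat_lit 0x3000004005006017000800a06cc2e511))) (.br (Nat.shiftLeft (nat_lit 0x4000002005) (nat_lit 88)) (.one (nat_lit 0x4000002004006017000400808d02e511)) (.br (Nat.shiftLeft (nat_lit 0x4000003) (nat_lit 100)) (.one (nat_lit 0x4000002005006017000400a08d02e511)) (.one (nat_lit 0x4000003004006017000600808d02e511))))))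
def t290 : k290.all (jb2 57 fl b0) = true := by decide +kernel
noncomputable def k291 : KT := (.br (Nat.shiftLeft (nat_lit 0x5000002005) (nat_lit 88)) (.br (Nat.shiftLeft (nat_lit 0x1000001) (nat_lit 102)) (.one (nat_lit 0x4000003005006017000600a08d02e511)) (.br (Nat.shiftLeft (nat_lit 0x5) (nat_lit 124)) (.one (nat_lit 0x4000004005006017000800a08d02e511)) (.one (nat_lit 0x500000200400601700040080ad42e511)))) (.br (Nat.shiftLeft (nat_lit 0x5000003005) (nat_lit 88)) (.br (Nat.shiftLeft (nat_lit 0x5000003) (nat_lit 100)) (.one (nat_lit 0x5000002005006017000400a0ad42e511)) (.one (nat_lit 0x500000300400601700060080ad42e511))) (.br (Nat.shiftLeft (nat_lit 0x1400001) (nat_lit 102)) (.one (nat_lit 0x5000003005006017000600a0ad42e511)) (.one (nat_lit 0x5000004005006017000800a0ad42e511)))))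
def t291 : k291.all (jb2 57 fl b0) = true := by decide +kernel
noncomputable def k292 : KT := (.br (Nat.shiftLeft (nat_lit 0x6000003) (nat_lit 100)) (.br (Nat.shiftLeft (nat_lit 0x6000002005) (nat_lit 88)) (.one (nat_lit 0x600000200400601700040080cd82e511)) (.one (nat_lit 0x6000002005006017000400a0cd82e511))) (.br (Nat.shiftLeft (nat_lit 0x6000003005) (nat_lit 88)) (.one (nat_lit 0x600000300400601700060080cd82e511)) (.one (nat_lit 0x6000003005006017000600a0cd82e511))))
def t292 : k292.all (jb2 57 fl b0) = true := by decide +kernel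
noncomputable def k293 : KT := (.br (Nat.shiftLeft (nat_lit 0x2000003) (nat_lit 112)) (.br (Nat.shiftLeft (nat_lit 0x1000003) (nat_lit 112)) (.br (Nat.shiftLeft (nat_lit 0x1000002003005) (nat_lit 88)) (.br (Nat.shiftLeft (nat_lit 0x1) (nat_lit 136)) (.one (nat_lit 0x6000004005006017000800a0cd82e511)) (.one (nat_lit 0x1000002003004006017400602840c02e611))) (.br (Nat.shiftLeft (nat_lit 0x400000801) (nat_lit 102)) (.one (nat_lit 0x1000002003005006017400602a40c02e611)) (.one (nat_lit 0x1000002004005006017400802a40c02e611)))) (.br (Nat.shiftLeft (nat_lit 0x2000002003005) (nat_lit 88)) (.br (Nat.shiftLeft (nat_lit 0x1) (nat_lit 137)) (.one (nat_lit 0x1000003004005006017600802a40c02e611)) (.one (nat_lit 0x2000002003004006017400604880c02e611))) (.br (Nat.shiftLeft (nat_lit 0x800000801) (nat_lit 102)) (.one (nat_lit 0x2000002003005006017400604a80c02e611)) (.one (nat_lit 0x2000002004005006017400804a80c02e611))))) (.br (Nat.shiftLeft (nat_lit 0x3000003) (nat_lit 112)) (.br (Nat.shiftLeft (nat_lit 0x3000002003005) (nat_lit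 88)) (.br (Nat.shiftLeft (nat_lit 0x3) (nat_lit 136)) (.one (nat_lit 0x2000003004005006017600804a80c02e611)) (.one (nat_lit 0x30000020030040060174006068c0c02e611))) (.br (Nat.shiftLeft (nat_lit 0xc00000801) (nat_lit 102)) (.one (nat_lit 0x3000002003005006017400606ac0c02e611)) (.one (nat_lit 0x3000002004005006017400806ac0c02e611)))) (.br (Nat.shiftLeft (nat_lit 0x4000002003005) (nat_lit 88)) (.br (Nat.shiftLeft (nat_lit 0x1) (nat_lit 138)) (.one (nat_lit 0x3000003004005006017600806ac0c02e611)) (.one (nat_lit 0x4000002003004006017400608900c02e611))) (.br (Nat.shiftLeft (nat_lit 0x1000000801) (nat_lit 102)) (.one (nat_lit 0x4000002003005006017400608b00c02e611)) (.br (Nat.shiftLeft (nat_lit 0x4000003) (nat_lit 112)) (.one (nat_lit 0x4000002004005006017400808b00c02e611)) (.one (nat_lit 0x4000003004005006017600808b00c02e611)))))))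
def t293 : k293.all (jb2 57 fl b0) = true := by decide +kernel
noncomputable def k294 : KT := (.br (Nat.shiftLeft (nat_lit 0x5000002003005) (nat_lit 88)) (.one (nat_lit 0x500000200300400601740060a940c02e611)) (.br (Nat.shiftLeft (nat_lit 0x1400000801) (nat_lit 102)) (.one (nat_lit 0x500000200300500601740060ab40c02e611)) (.one (nat_lit 0x500000200400500601740080ab40c02e611))))
def t294 : k294.all (jb2 57 fl b0) = true := by decide +kernel
noncomputable def k295 : KT := (.br (Nat.shiftLeft (nat_lit 0x3) (nat_lit 137)) (.one (nat_lit 0x500000300400500601760080ab40c02e611)) (.br (Nat.shiftLeft (nat_lit 0x6000002003005) (nat_lit 88)) (.one (nat_lit 0x600000200300400601740060c980c02e611)) (.one (nat_lit 0x600000200300500601740060cb80c02e611))))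
def t295 : k295.all (jb2 57 fl b0) = true := by decide +kernel
noncomputable def k296 : KT := (.br (Nat.shiftLeft (nat_lit 0x6000003) (nat_lit 112)) (.one (nat_lit 0x600000200400500601740080cb80c02e611)) (.one (nat_lit 0x600000300400500601760080cb80c02e611)))
def t296 : k296.all (jb2 57 fl b0) = true := by decide +kernel
noncomputable def s14 : KT := (.br (nat_lit 0x1002003005006017400600a02c42e760) (.br (nat_lit 0x1002005006017200400a00c02e650) (.br (nat_lit 0x1000005006017200000a00c02e411) (.br (nat_lit 0x1000006017000200000c02e311) k279 k280) (.br (nat_lit 0x1002004006017200400800c02e650) k281 k282)) (.br (nat_lit 0x1003005006017200600a00c02e650) (.br (nat_lit 0x1003004006017200600800c02e650) k283 k284) (.br (nat_lit 0x1000004005006017000800a02c42e511) k285 (.br (nat_lit 0x1002003004006017400600802c42e760) k286 k287)))) (.br (nat_lit 0x5000004005006017000800a0ad42e511) (.br (nat_lit 0x2000004005006017000800a04c82e511) (.br (nat_lit 0x1002004005006017400800a02c42e760) k288 k289) (.br (nat_lit 0x4000003004006017000600808d02e511)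 k290 k291)) (.br (nat_lit 0x4000003004005006017600808b00c02e611) (.br (nat_lit 0x6000003005006017000600a0cd82e511) k292 k293) (.br (nat_lit 0x500000200400500601740080ab40c02e611) k294 (.br (nat_lit 0x600000200300500601740060cb80c02e611) k295 k296)))))
noncomputable def u14 : KT := (.one (nat_lit 0x6017000000000c02e320))
def w14 : u14.all (wj 57 s14) = true := by decide +kernel
def o14 : OkW 57 (jb2 57 fl) u14 := .lift s14 _ (.br _ _ _ (.br _ _ _ (.br _ _ _ (.br _ _ _ (.leaf b0 k279 t279) (.leaf b0 k280 t280)) (.br _ _ _ (.leaf b0 k281 t281) (.leaf b0 k282 t282))) (.br _ _ _ (.br _ _ _ (.leaf b0 k283 t283) (.leaf b0 k284 t284)) (.br _ _ _ (.leaf b0 k285 t285) (.br _ _ _ (.leaf b0 k286 t286) (.leaf b0 k287 t287))))) (.br _ _ _ (.br _ _ _ (.br _ _ _ (.leaf b0 k288 t288) (.leaf b0 k289 t289)) (.br _ _ _ (.leaf b0 k290 t290) (.leaf b0 k291 t291))) (.br _ _ _ (.br _ _ _ (.leaf b0 k292 t292) (.leaf b0 k293 t293)) (.br _ _ _ (.leaf b0 k294 t294) (.br _ _ _ (.leaf b0 k295 t295) (.leaf b0 k296 t296)))))) w14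
noncomputable def k297 : KT := (.br (Nat.shiftLeft (nat_lit 0x1) (nat_lit 90)) (.br (Nat.shiftLeft (nat_lit 0x1) (nat_lit 89)) (.one (nat_lit 0x1006018000000200c030430)) (.br (Nat.shiftLeft (nat_lit 0x3) (nat_lit 88)) (.one (nat_lit 0x2006018000000400c030430)) (.one (nat_lit 0x3006018000000600c030430)))) (.br (Nat.shiftLeft (nat_lit 0x5) (nat_lit 88)) (.one (nat_lit 0x4006018000000800c031400)) (.br (Nat.shiftLeft (nat_lit 0x1) (nat_lit 100)) (.one (nat_lit 0x5006018000000a00c031400)) (.one (nat_lit 0x1000006018000200000c030311)))))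
def t297 : k297.all (jb2 57 fl b0) = true := by decide +kernel
noncomputable def k298 : KT := (.br (Nat.shiftLeft (nat_lit 0x1005) (nat_lit 88)) (.one (nat_lit 0x1004006018000200800c030540)) (.br (Nat.shiftLeft (nat_lit 0x1) (nat_lit 101)) (.one (nat_lit 0x1005006018000200a00c030540)) (.one (nat_lit 0x2000006018000400000c030311))))
def t298 : k298.all (jb2 57 fl b0) = true := by decide +kernel
noncomputable def k299 : KT := (.br (Nat.shiftLeft (nat_lit 0x3005) (nat_lit 88)) (.br (Nat.shiftLeft (nat_lit 0x3) (nat_lit 100)) (.br (Nat.shiftLeft (nat_lit 0x2005) (nat_lit 88)) (.one (nat_lit 0x2004006018000400800c030540)) (.one (nat_lit 0x2005006018000400a00c031500))) (.br (Nat.shiftLeft (nat_lit 0xc01) (nat_lit 90)) (.one (nat_lit 0x3000006018000600000c030311)) (.one (nat_lit 0x3004006018000600800c031500)))) (.br (Nat.shiftLeft (nat_lit 0x1001) (nat_lit 90)) (.br (Nat.shiftLeft (nat_lit 0x1) (nat_lit 102)) (.one (nat_lit 0x3005006018000600a00c031500)) (.one (nat_lit 0x4000006018000800000c030311))) (.br (Nat.shiftLeft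 (nat_lit 0x5) (nat_lit 100)) (.one (nat_lit 0x4005006018000800a00c031500)) (.br (Nat.shiftLeft (nat_lit 0x3) (nat_lit 101)) (.one (nat_lit 0x5000006018000a00000c030311)) (.one (nat_lit 0x6000006018000c00000c030311))))))
def t299 : k299.all (jb2 57 fl b0) = true := by decide +kernel
noncomputable def k300 : KT := (.br (Nat.shiftLeft (nat_lit 0x1000005) (nat_lit 88)) (.one (nat_lit 0x1000004006018200000800c030411)) (.br (Nat.shiftLeft (nat_lit 0x801) (nat_lit 101)) (.one (nat_lit 0x1000005006018200000a00c030411)) (.one (nat_lit 0x1002005006018200400a00c030650))))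
def t300 : k300.all (jb2 57 fl b0) = true := by decide +kernel
noncomputable def k301 : KT := (.one (nat_lit 0x1003004006018200600800c030650))
def t301 : k301.all (jb2 57 fl b0) = true := by decide +kernel
noncomputable def k302 : KT := (.one (nat_lit 0x1003005006018200600a00c030650))
def t302 : k302.all (jb2 57 fl b0) = true := by decide +kernel
noncomputable def k303 : KT := (.br (Nat.shiftLeft (nat_lit 0x1) (nat_lit 114)) (.br (Nat.shiftLeft (nat_lit 0x2003005) (nat_lit 88)) (.br (Nat.shiftLeft (nat_lit 0x2000005) (nat_lit 88)) (.br (Nat.shiftLeft (nat_lit 0x1) (nat_lit 113)) (.one (nat_lit 0x1004005006018200800a00c030650)) (.one (nat_lit 0x2000004006018400000800c030411))) (.br (Nat.shiftLeft (nat_lit 0x1001) (nat_lit 101)) (.one (nat_lit 0x2000005006018400000a00c030411)) (.one (nat_lit 0x2003004006018400600800c031600)))) (.br (Nat.shiftLeft (nat_lit 0x3) (nat_lit 112)) (.br (Nat.shiftLeft (nat_lit 0x801) (nat_lit 102)) (.one (nat_lit 0x2003005006018400600a00c031600)) (.one (nat_lit 0x2004005006018400800a00c031600)))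 (.br (Nat.shiftLeft (nat_lit 0x3000005) (nat_lit 88)) (.one (nat_lit 0x3000004006018600000800c030411)) (.br (Nat.shiftLeft (nat_lit 0xc01) (nat_lit 102)) (.one (nat_lit 0x3000005006018600000a00c030411)) (.one (nat_lit 0x3004005006018600800a00c031600)))))) (.br (Nat.shiftLeft (nat_lit 0x6000005) (nat_lit 88)) (.br (Nat.shiftLeft (nat_lit 0x5) (nat_lit 112)) (.br (Nat.shiftLeft (nat_lit 0x4000005) (nat_lit 88)) (.one (nat_lit 0x4000004006018800000800c030411)) (.one (nat_lit 0x4000005006018800000a00c030411))) (.br (Nat.shiftLeft (nat_lit 0x5000005) (nat_lit 88)) (.one (nat_lit 0x5000004006018a00000800c030411)) (.br (Nat.shiftLeft (nat_lit 0x3) (nat_lit 113)) (.one (nat_lit 0x5000005006018a00000a00c030411)) (.one (nat_lit 0x6000004006018c00000800c030411))))) (.br (Nat.shiftLeft (nat_lit 0x1000003) (nat_lit 100)) (.br (Nat.shiftLeft (nat_lit 0x1) (nat_lit 124)) (.one (nat_lit 0x6000005006018c00000a00c030411)) (.one (nat_lit 0x1000002005006018000400a02c430511))) (.br (Nat.shiftLeft (nat_lit 0x1000003005) (nat_lit 88))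 (.one (nat_lit 0x1000003004006018000600802c430511)) (.br (Nat.shiftLeft (nat_lit 0x400001) (nat_lit 102)) (.one (nat_lit 0x1000003005006018000600a02c430511)) (.one (nat_lit 0x1000004005006018000800a02c430511)))))))
def t303 : k303.all (jb2 57 fl b0) = true := by decide +kernel
noncomputable def k304 : KT := (.one (nat_lit 0x1002003004006018400600802c430760))
def t304 : k304.all (jb2 57 fl b0) = true := by decide +kernel
noncomputable def k305 : KT := (.one (nat_lit 0x1002003005006018400600a02c430760))
def t305 : k305.all (jb2 57 fl b0) = true := by decide +kernel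
noncomputable def k306 : KT := (.br (Nat.shiftLeft (nat_lit 0x2000003) (nat_lit 100)) (.br (Nat.shiftLeft (nat_lit 0x1003) (nat_lit 112)) (.one (nat_lit 0x1002004005006018400800a02c430760)) (.br (Nat.shiftLeft (nat_lit 0x1) (nat_lit 125)) (.one (nat_lit 0x1003004005006018600800a02c430760)) (.one (nat_lit 0x2000002005006018000400a04c830511)))) (.br (Nat.shiftLeft (nat_lit 0x2000003005) (nat_lit 88)) (.one (nat_lit 0x2000003004006018000600804c830511)) (.br (Nat.shiftLeft (nat_lit 0x800001) (nat_lit 102)) (.one (nat_lit 0x2000003005006018000600a04c830511)) (.one (nat_lit 0x2000004005006018000800a04c830511)))))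
def t306 : k306.all (jb2 57 fl b0) = true := by decide +kernel
noncomputable def k307 : KT := (.br (Nat.shiftLeft (nat_lit 0x1) (nat_lit 126)) (.br (Nat.shiftLeft (nat_lit 0x3000003) (nat_lit 100)) (.br (Nat.shiftLeft (nat_lit 0x3) (nat_lit 124)) (.one (nat_lit 0x2003004005006018600800a04c830760)) (.one (nat_lit 0x3000002005006018000400a06cc30511))) (.br (Nat.shiftLeft (nat_lit 0x3000003005) (nat_lit 88)) (.one (nat_lit 0x3000003004006018000600806cc30511)) (.br (Nat.shiftLeft (nat_lit 0xc00001) (nat_lit 102)) (.one (nat_lit 0x3000003005006018000600a06cc30511)) (.one (nat_lit 0x3000004005006018000800a06cc30511))))) (.br (Nat.shiftLeft (nat_lit 0x4000003005) (nat_lit 88)) (.br (Nat.shiftLeft (nat_lit 0x4000003) (nat_lit 100)) (.one (nat_lit 0x4000002005006018000400a08d030511)) (.one (nat_lit 0x4000003004006018000600808d030511))) (.br (Nat.shiftLeft (nat_lit 0x1000001) (nat_lit 102)) (.one (nat_lit 0x4000003005006018000600a08d030511)) (.br (Nat.shiftLeft (nat_lit 0x5) (nat_lit 124)) (.one (nat_lit 0x4000004005006018000800a08d030511))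 (.one (nat_lit 0x5000002005006018000400a0ad430511))))))
def t307 : k307.all (jb2 57 fl b0) = true := by decide +kernel
noncomputable def k308 : KT := (.br (Nat.shiftLeft (nat_lit 0x1400001) (nat_lit 102)) (.br (Nat.shiftLeft (nat_lit 0x5000003005) (nat_lit 88)) (.one (nat_lit 0x500000300400601800060080ad430511)) (.one (nat_lit 0x5000003005006018000600a0ad430511))) (.br (Nat.shiftLeft (nat_lit 0x3) (nat_lit 125)) (.one (nat_lit 0x5000004005006018000800a0ad430511)) (.br (Nat.shiftLeft (nat_lit 0x6000003) (nat_lit 100)) (.one (nat_lit 0x6000002005006018000400a0cd830511)) (.one (nat_lit 0x600000300400601800060080cd830511)))))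
def t308 : k308.all (jb2 57 fl b0) = true := by decide +kernel
noncomputable def k309 : KT := (.br (Nat.shiftLeft (nat_lit 0x800000801) (nat_lit 102)) (.br (Nat.shiftLeft (nat_lit 0x400000801) (nat_lit 102)) (.br (Nat.shiftLeft (nat_lit 0x1) (nat_lit 136)) (.br (Nat.shiftLeft (nat_lit 0x1800001) (nat_lit 102)) (.one (nat_lit 0x6000003005006018000600a0cd830511)) (.one (nat_lit 0x6000004005006018000800a0cd830511))) (.br (Nat.shiftLeft (nat_lit 0x1000002003005) (nat_lit 88)) (.one (nat_lit 0x1000002003004006018400602840c030611)) (.one (nat_lit 0x1000002003005006018400602a40c030611)))) (.br (Nat.shiftLeft (nat_lit 0x1) (nat_lit 137)) (.br (Nat.shiftLeft (nat_lit 0x1000003) (nat_lit 112)) (.one (nat_lit 0x1000002004005006018400802a40c030611)) (.one (nat_lit 0x1000003004005006018600802a40c030611))) (.br (Nat.shiftLeft (nat_lit 0x2000002003005) (nat_lit 88)) (.one (nat_lit 0x2000002003004006018400604880c030611)) (.one (nat_lit 0x2000002003005006018400604a80c030611))))) (.br (Nat.shiftLeft (nat_lit 0xc00000801) (nat_lit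 102)) (.br (Nat.shiftLeft (nat_lit 0x3) (nat_lit 136)) (.br (Nat.shiftLeft (nat_lit 0x2000003) (nat_lit 112)) (.one (nat_lit 0x2000002004005006018400804a80c030611)) (.one (nat_lit 0x2000003004005006018600804a80c030611))) (.br (Nat.shiftLeft (nat_lit 0x3000002003005) (nat_lit 88)) (.one (nat_lit 0x30000020030040060184006068c0c030611)) (.one (nat_lit 0x3000002003005006018400606ac0c030611)))) (.br (Nat.shiftLeft (nat_lit 0x1) (nat_lit 138)) (.br (Nat.shiftLeft (nat_lit 0x3000003) (nat_lit 112)) (.one (nat_lit 0x3000002004005006018400806ac0c030611)) (.one (nat_lit 0x3000003004005006018600806ac0c030611))) (.br (Nat.shiftLeft (nat_lit 0x4000002003005) (nat_lit 88)) (.one (nat_lit 0x4000002003004006018400608900c030611)) (.br (Nat.shiftLeft (nat_lit 0x1000000801) (nat_lit 102)) (.one (nat_lit 0x4000002003005006018400608b00c030611)) (.one (nat_lit 0x4000002004005006018400808b00c030611)))))))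
def t309 : k309.all (jb2 57 fl b0) = true := by decide +kernel
noncomputable def k310 : KT := (.br (Nat.shiftLeft (nat_lit 0x5000002003005) (nat_lit 88)) (.br (Nat.shiftLeft (nat_lit 0x5) (nat_lit 136)) (.one (nat_lit 0x4000003004005006018600808b00c030611)) (.one (nat_lit 0x500000200300400601840060a940c030611))) (.br (Nat.shiftLeft (nat_lit 0x1400000801) (nat_lit 102)) (.one (nat_lit 0x500000200300500601840060ab40c030611)) (.br (Nat.shiftLeft (nat_lit 0x5000003) (nat_lit 112)) (.one (nat_lit 0x500000200400500601840080ab40c030611)) (.one (nat_lit 0x500000300400500601860080ab40c030611)))))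
def t310 : k310.all (jb2 57 fl b0) = true := by decide +kernel
noncomputable def k311 : KT := (.br (Nat.shiftLeft (nat_lit 0x1800000801) (nat_lit 102)) (.br (Nat.shiftLeft (nat_lit 0x6000002003005) (nat_lit 88)) (.one (nat_lit 0x600000200300400601840060c980c030611)) (.one (nat_lit 0x600000200300500601840060cb80c030611))) (.br (Nat.shiftLeft (nat_lit 0x6000003) (nat_lit 112)) (.one (nat_lit 0x600000200400500601840080cb80c030611)) (.one (nat_lit 0x600000300400500601860080cb80c030611))))
def t311 : k311.all (jb2 57 fl b0) = true := by decide +kernel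
noncomputable def s15 : KT := (.br (nat_lit 0x1000004005006018000800a02c430511) (.br (nat_lit 0x6000006018000c00000c030311) (.br (nat_lit 0x1000006018000200000c030311) k297 (.br (nat_lit 0x2000006018000400000c030311) k298 k299)) (.br (nat_lit 0x1003004006018200600800c030650) (.br (nat_lit 0x1002005006018200400a00c030650) k300 k301) (.br (nat_lit 0x1003005006018200600a00c030650) k302 k303))) (.br (nat_lit 0x5000002005006018000400a0ad430511) (.br (nat_lit 0x1002003005006018400600a02c430760) (.br (nat_lit 0x1002003004006018400600802c430760) k304 k305) (.br (nat_lit 0x2000004005006018000800a04c830511) k306 k307)) (.br (nat_lit 0x4000002004005006018400808b00c030611) (.br (nat_lit 0x600000300400601800060080cd830511) k308 k309) (.br (nat_lit 0x500000300400500601860080ab40c030611) k310 k311))))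
noncomputable def u15 : KT := (.one (nat_lit 0x6018000000000c030320))
def w15 : u15.all (wj 57 s15) = true := by decide +kernel
def o15 : OkW 57 (jb2 57 fl) u15 := .lift s15 _ (.br _ _ _ (.br _ _ _ (.br _ _ _ (.leaf b0 k297 t297) (.br _ _ _ (.leaf b0 k298 t298) (.leaf b0 k299 t299))) (.br _ _ _ (.br _ _ _ (.leaf b0 k300 t300) (.leaf b0 k301 t301)) (.br _ _ _ (.leaf b0 k302 t302) (.leaf b0 k303 t303)))) (.br _ _ _ (.br _ _ _ (.br _ _ _ (.leaf b0 k304 t304) (.leaf b0 k305 t305)) (.br _ _ _ (.leaf b0 k306 t306) (.leaf b0 k307 t307))) (.br _ _ _ (.br _ _ _ (.leaf b0 k308 t308) (.leaf b0 k309 t309)) (.br _ _ _ (.leaf b0 k310 t310) (.leaf b0 k311 t311))))) w15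
noncomputable def k312 : KT := (.br (Nat.shiftLeft (nat_lit 0x1) (nat_lit 90)) (.br (Nat.shiftLeft (nat_lit 0x1) (nat_lit 89)) (.one (nat_lit 0x1006019000000200c032430)) (.br (Nat.shiftLeft (nat_lit 0x3) (nat_lit 88)) (.one (nat_lit 0x2006019000000400c032430)) (.one (nat_lit 0x3006019000000600c032430)))) (.br (Nat.shiftLeft (nat_lit 0x5) (nat_lit 88)) (.one (nat_lit 0x4006019000000800c033400)) (.br (Nat.shiftLeft (nat_lit 0x1) (nat_lit 100)) (.one (nat_lit 0x5006019000000a00c033400)) (.one (nat_lit 0x1000006019000200000c032311)))))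
def t312 : k312.all (jb2 57 fl b0) = true := by decide +kernel
noncomputable def k313 : KT := (.br (Nat.shiftLeft (nat_lit 0x1005) (nat_lit 88)) (.one (nat_lit 0x1004006019000200800c032540)) (.br (Nat.shiftLeft (nat_lit 0x1) (nat_lit 101)) (.one (nat_lit 0x1005006019000200a00c032540)) (.one (nat_lit 0x2000006019000400000c032311))))
def t313 : k313.all (jb2 57 fl b0) = true := by decide +kernel
noncomputable def k314 : KT := (.br (Nat.shiftLeft (nat_lit 0x1) (nat_lit 102)) (.br (Nat.shiftLeft (nat_lit 0x3) (nat_lit 100)) (.br (Nat.shiftLeft (nat_lit 0x2005) (nat_lit 88)) (.one (nat_lit 0x2004006019000400800c032540)) (.one (nat_lit 0x2005006019000400a00c033500))) (.br (Nat.shiftLeft (nat_lit 0xc01) (nat_lit 90)) (.one (nat_lit 0x3000006019000600000c032311)) (.br (Nat.shiftLeft (nat_lit 0x3005) (nat_lit 88)) (.one (nat_lit 0x3004006019000600800c033500)) (.one (nat_lit 0x3005006019000600a00c033500))))) (.br (Nat.shiftLeft (nat_lit 0x3) (nat_lit 101)) (.br (Nat.shiftLeft (nat_lit 0x1001) (nat_lit 90)) (.one (nat_lit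 0x4000006019000800000c032311)) (.br (Nat.shiftLeft (nat_lit 0x5) (nat_lit 100)) (.one (nat_lit 0x4005006019000800a00c033500)) (.one (nat_lit 0x5000006019000a00000c032311)))) (.br (Nat.shiftLeft (nat_lit 0x1) (nat_lit 112)) (.one (nat_lit 0x6000006019000c00000c032311)) (.br (Nat.shiftLeft (nat_lit 0x1000005) (nat_lit 88)) (.one (nat_lit 0x1000004006019200000800c032411)) (.one (nat_lit 0x1000005006019200000a00c032411))))))
def t314 : k314.all (jb2 57 fl b0) = true := by decide +kernel
noncomputable def k315 : KT := (.one (nat_lit 0x1002005006019200400a00c032650))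
def t315 : k315.all (jb2 57 fl b0) = true := by decide +kernel
noncomputable def k316 : KT := (.one (nat_lit 0x1003004006019200600800c032650))
def t316 : k316.all (jb2 57 fl b0) = true := by decide +kernel
noncomputable def k317 : KT := (.one (nat_lit 0x1003005006019200600a00c032650))
def t317 : k317.all (jb2 57 fl b0) = true := by decide +kernel
noncomputable def k318 : KT := (.br (Nat.shiftLeft (nat_lit 0x2000005) (nat_lit 88)) (.br (Nat.shiftLeft (nat_lit 0x1) (nat_lit 113)) (.one (nat_lit 0x1004005006019200800a00c032650)) (.one (nat_lit 0x2000004006019400000800c032411))) (.br (Nat.shiftLeft (nat_lit 0x1001) (nat_lit 101)) (.one (nat_lit 0x2000005006019400000a00c032411)) (.br (Nat.shiftLeft (nat_lit 0x2003005) (nat_lit 88)) (.one (nat_lit 0x2003004006019400600800c033600)) (.one (nat_lit 0x2003005006019400600a00c033600)))))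
def t318 : k318.all (jb2 57 fl b0) = true := by decide +kernel
noncomputable def k319 : KT := (.br (Nat.shiftLeft (nat_lit 0x1) (nat_lit 114)) (.br (Nat.shiftLeft (nat_lit 0x3000005) (nat_lit 88)) (.br (Nat.shiftLeft (nat_lit 0x3) (nat_lit 112)) (.one (nat_lit 0x2004005006019400800a00c032650)) (.one (nat_lit 0x3000004006019600000800c032411))) (.br (Nat.shiftLeft (nat_lit 0xc01) (nat_lit 102)) (.one (nat_lit 0x3000005006019600000a00c032411)) (.one (nat_lit 0x3004005006019600800a00c033600)))) (.br (Nat.shiftLeft (nat_lit 0x5) (nat_lit 112)) (.br (Nat.shiftLeft (nat_lit 0x4000005) (nat_lit 88)) (.one (nat_lit 0x4000004006019800000800c032411)) (.one (nat_lit 0x4000005006019800000a00c032411))) (.br (Nat.shiftLeft (nat_lit 0x5000005) (nat_lit 88)) (.one (nat_lit 0x5000004006019a00000800c032411)) (.br (Nat.shiftLeft (nat_lit 0x3) (nat_lit 113)) (.one (nat_lit 0x5000005006019a00000a00c032411)) (.one (nat_lit 0x6000004006019c00000800c032411))))))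
def t319 : k319.all (jb2 57 fl b0) = true := by decide +kernel
noncomputable def k320 : KT := (.br (Nat.shiftLeft (nat_lit 0x1000003005) (nat_lit 88)) (.br (Nat.shiftLeft (nat_lit 0x1) (nat_lit 124)) (.one (nat_lit 0x6000005006019c00000a00c032411)) (.br (Nat.shiftLeft (nat_lit 0x1000003) (nat_lit 100)) (.one (nat_lit 0x1000002005006019000400a02c432511)) (.one (nat_lit 0x1000003004006019000600802c432511)))) (.br (Nat.shiftLeft (nat_lit 0x400001) (nat_lit 102)) (.one (nat_lit 0x1000003005006019000600a02c432511)) (.br (Nat.shiftLeft (nat_lit 0x801) (nat_lit 113)) (.one (nat_lit 0x1000004005006019000800a02c432511)) (.one (nat_lit 0x1002003004006019400600802c432760)))))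
def t320 : k320.all (jb2 57 fl b0) = true := by decide +kernel
noncomputable def k321 : KT := (.br (Nat.shiftLeft (nat_lit 0x2000003) (nat_lit 100)) (.br (Nat.shiftLeft (nat_lit 0x1003) (nat_lit 112)) (.one (nat_lit 0x1002003005006019400600a02c432760)) (.br (Nat.shiftLeft (nat_lit 0x1) (nat_lit 125)) (.one (nat_lit 0x1003004005006019600800a02c432760)) (.one (nat_lit 0x2000002005006019000400a04c832511)))) (.br (Nat.shiftLeft (nat_lit 0x2000003005) (nat_lit 88)) (.one (nat_lit 0x2000003004006019000600804c832511)) (.br (Nat.shiftLeft (nat_lit 0x800001) (nat_lit 102)) (.one (nat_lit 0x2000003005006019000600a04c832511)) (.one (nat_lit 0x2000004005006019000800a04c832511)))))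
def t321 : k321.all (jb2 57 fl b0) = true := by decide +kernel
noncomputable def k322 : KT := (.br (Nat.shiftLeft (nat_lit 0x1) (nat_lit 126)) (.br (Nat.shiftLeft (nat_lit 0x3000003) (nat_lit 100)) (.br (Nat.shiftLeft (nat_lit 0x3) (nat_lit 124)) (.one (nat_lit 0x2003004005006019600800a04c832760)) (.one (nat_lit 0x3000002005006019000400a06cc32511))) (.br (Nat.shiftLeft (nat_lit 0x3000003005) (nat_lit 88)) (.one (nat_lit 0x3000003004006019000600806cc32511)) (.br (Nat.shiftLeft (nat_lit 0xc00001) (nat_lit 102)) (.one (nat_lit 0x3000003005006019000600a06cc32511)) (.one (nat_lit 0x3000004005006019000800a06cc32511))))) (.br (Nat.shiftLeft (nat_lit 0x4000003005) (nat_lit 88)) (.br (Nat.shiftLeft (nat_lit 0x4000003) (nat_lit 100)) (.one (nat_lit 0x4000002005006019000400a08d032511)) (.one (nat_lit 0x4000003004006019000600808d032511))) (.br (Nat.shiftLeft (nat_lit 0x1000001) (nat_lit 102)) (.one (nat_lit 0x4000003005006019000600a08d032511)) (.br (Nat.shiftLeft (nat_lit 0x5) (nat_lit 124)) (.one (nat_lit 0x4000004005006019000800a08d032511))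 (.one (nat_lit 0x5000002005006019000400a0ad432511))))))
def t322 : k322.all (jb2 57 fl b0) = true := by decide +kernel
noncomputable def k323 : KT := (.br (Nat.shiftLeft (nat_lit 0x1400001) (nat_lit 102)) (.br (Nat.shiftLeft (nat_lit 0x5000003005) (nat_lit 88)) (.one (nat_lit 0x500000300400601900060080ad432511)) (.one (nat_lit 0x5000003005006019000600a0ad432511))) (.br (Nat.shiftLeft (nat_lit 0x3) (nat_lit 125)) (.one (nat_lit 0x5000004005006019000800a0ad432511)) (.br (Nat.shiftLeft (nat_lit 0x6000003) (nat_lit 100)) (.one (nat_lit 0x6000002005006019000400a0cd832511)) (.one (nat_lit 0x600000300400601900060080cd832511)))))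
def t323 : k323.all (jb2 57 fl b0) = true := by decide +kernel
noncomputable def k324 : KT := (.br (Nat.shiftLeft (nat_lit 0x2000003) (nat_lit 112)) (.br (Nat.shiftLeft (nat_lit 0x1000002003005) (nat_lit 88)) (.br (Nat.shiftLeft (nat_lit 0x1800001) (nat_lit 102)) (.one (nat_lit 0x6000003005006019000600a0cd832511)) (.br (Nat.shiftLeft (nat_lit 0x1) (nat_lit 136)) (.one (nat_lit 0x6000004005006019000800a0cd832511)) (.one (nat_lit 0x1000002003004006019400602840c032611)))) (.br (Nat.shiftLeft (nat_lit 0x1) (nat_lit 137)) (.br (Nat.shiftLeft (nat_lit 0x1000003) (nat_lit 112)) (.one (nat_lit 0x1000002003005006019400602a40c032611)) (.one (nat_lit 0x1000003004005006019600802a40c032611))) (.br (Nat.shiftLeft (nat_lit 0x2000002003005) (nat_lit 88)) (.one (nat_lit 0x2000002003004006019400604880c032611)) (.one (nat_lit 0x2000002003005006019400604a80c032611))))) (.br (Nat.shiftLeft (nat_lit 0x3000003) (nat_lit 112)) (.br (Nat.shiftLeft (nat_lit 0x3) (nat_lit 136)) (.one (nat_lit 0x2000003004005006019600804a80c032611)) (.br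 (Nat.shiftLeft (nat_lit 0x3000002003005) (nat_lit 88)) (.one (nat_lit 0x30000020030040060194006068c0c032611)) (.one (nat_lit 0x3000002003005006019400606ac0c032611)))) (.br (Nat.shiftLeft (nat_lit 0x4000002003005) (nat_lit 88)) (.br (Nat.shiftLeft (nat_lit 0x1) (nat_lit 138)) (.one (nat_lit 0x3000003004005006019600806ac0c032611)) (.one (nat_lit 0x4000002003004006019400608900c032611))) (.br (Nat.shiftLeft (nat_lit 0x4000003) (nat_lit 112)) (.one (nat_lit 0x4000002003005006019400608b00c032611)) (.one (nat_lit 0x4000003004005006019600808b00c032611))))))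
def t324 : k324.all (jb2 57 fl b0) = true := by decide +kernel
noncomputable def k325 : KT := (.br (Nat.shiftLeft (nat_lit 0x5000003) (nat_lit 112)) (.br (Nat.shiftLeft (nat_lit 0x5000002003005) (nat_lit 88)) (.one (nat_lit 0x500000200300400601940060a940c032611)) (.one (nat_lit 0x500000200300500601940060ab40c032611))) (.br (Nat.shiftLeft (nat_lit 0x3) (nat_lit 137)) (.one (nat_lit 0x500000300400500601960080ab40c032611)) (.br (Nat.shiftLeft (nat_lit 0x6000002003005) (nat_lit 88)) (.one (nat_lit 0x600000200300400601940060c980c032611)) (.one (nat_lit 0x600000200300500601940060cb80c032611)))))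
def t325 : k325.all (jb2 57 fl b0) = true := by decide +kernel
noncomputable def k326 : KT := (.one (nat_lit 0x600000300400500601960080cb80c032611))
def t326 : k326.all (jb2 57 fl b0) = true := by decide +kernel
noncomputable def s16 : KT := (.br (nat_lit 0x2003005006019400600a00c033600) (.br (nat_lit 0x1000005006019200000a00c032411) (.br (nat_lit 0x1000006019000200000c032311) k312 (.br (nat_lit 0x2000006019000400000c032311) k313 k314)) (.br (nat_lit 0x1003004006019200600800c032650) (.br (nat_lit 0x1002005006019200400a00c032650) k315 k316) (.br (nat_lit 0x1003005006019200600a00c032650) k317 k318))) (.br (nat_lit 0x5000002005006019000400a0ad432511) (.br (nat_lit 0x1002003004006019400600802c432760) (.br (nat_lit 0x6000004006019c00000800c032411) k319 k320) (.br (nat_lit 0x2000004005006019000800a04c832511) k321 k322)) (.br (nat_lit 0x4000003004005006019600808b00c032611) (.br (nat_lit 0x600000300400601900060080cd832511) k323 k324) (.br (nat_lit 0x600000200300500601940060cb80c032611) k325 k326))))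
noncomputable def u16 : KT := (.one (nat_lit 0x6019000000000c032320))
def w16 : u16.all (wj 57 s16) = true := by decide +kernel
def o16 : OkW 57 (jb2 57 fl) u16 := .lift s16 _ (.br _ _ _ (.br _ _ _ (.br _ _ _ (.leaf b0 k312 t312) (.br _ _ _ (.leaf b0 k313 t313) (.leaf b0 k314 t314))) (.br _ _ _ (.br _ _ _ (.leaf b0 k315 t315) (.leaf b0 k316 t316)) (.br _ _ _ (.leaf b0 k317 t317) (.leaf b0 k318 t318)))) (.br _ _ _ (.br _ _ _ (.br _ _ _ (.leaf b0 k319 t319) (.leaf b0 k320 t320)) (.br _ _ _ (.leaf b0 k321 t321) (.leaf b0 k322 t322))) (.br _ _ _ (.br _ _ _ (.leaf b0 k323 t323) (.leaf b0 k324 t324)) (.br _ _ _ (.leaf b0 k325 t325) (.leaf b0 k326 t326))))) w16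
noncomputable def k327 : KT := (.br (Nat.shiftLeft (nat_lit 0x100601b) (nat_lit 64)) (.br (Nat.shiftLeft (nat_lit 0x601b) (nat_lit 64)) (.one (nat_lit 0x601a000000000c035300)) (.br (Nat.shiftLeft (nat_lit 0x1) (nat_lit 88)) (.one (nat_lit 0x601b000000000c037300)) (.one (nat_lit 0x100601a000000200c034430)))) (.br (Nat.shiftLeft (nat_lit 0x1) (nat_lit 89)) (.one (nat_lit 0x100601b000000200c036430)) (.br (Nat.shiftLeft (nat_lit 0x200601b) (nat_lit 64)) (.one (nat_lit 0x200601a000000400c034430)) (.one (nat_lit 0x200601b000000400c036430)))))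
def t327 : k327.all (jb2 57 fl b0) = true := by decide +kernel
noncomputable def k328 : KT := (.one (nat_lit 0x300601a000000600c034430))
def t328 : k328.all (jb2 57 fl b0) = true := by decide +kernel
noncomputable def k329 : KT := (.br (Nat.shiftLeft (nat_lit 0x5) (nat_lit 88)) (.br (Nat.shiftLeft (nat_lit 0x1) (nat_lit 90)) (.one (nat_lit 0x300601b000000600c036430)) (.br (Nat.shiftLeft (nat_lit 0x400601b) (nat_lit 64)) (.one (nat_lit 0x400601a000000800c035400)) (.one (nat_lit 0x400601b000000800c037400)))) (.br (Nat.shiftLeft (nat_lit 0x1) (nat_lit 100)) (.br (Nat.shiftLeft (nat_lit 0x500601b) (nat_lit 64)) (.one (nat_lit 0x500601a000000a00c035400)) (.one (nat_lit 0x500601b000000a00c037400))) (.br (Nat.shiftLeft (nat_lit 0x100000601b) (nat_lit 64)) (.one (nat_lit 0x100000601a000200000c034311)) (.one (nat_lit 0x100000601b000200000c036311)))))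
def t329 : k329.all (jb2 57 fl b0) = true := by decide +kernel
noncomputable def k330 : KT := (.br (Nat.shiftLeft (nat_lit 0x100500601b) (nat_lit 64)) (.br (Nat.shiftLeft (nat_lit 0x100400601b) (nat_lit 64)) (.one (nat_lit 0x100400601a000200800c034540)) (.br (Nat.shiftLeft (nat_lit 0x1005) (nat_lit 88)) (.one (nat_lit 0x100400601b000200800c036540)) (.one (nat_lit 0x100500601a000200a00c034540)))) (.br (Nat.shiftLeft (nat_lit 0x1) (nat_lit 101)) (.one (nat_lit 0x100500601b000200a00c036540)) (.br (Nat.shiftLeft (nat_lit 0x200000601b) (nat_lit 64)) (.one (nat_lit 0x200000601a000400000c034311)) (.one (nat_lit 0x200000601b000400000c036311)))))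
def t330 : k330.all (jb2 57 fl b0) = true := by decide +kernel
noncomputable def k331 : KT := (.one (nat_lit 0x200400601a000400800c034540))
def t331 : k331.all (jb2 57 fl b0) = true := by decide +kernel
noncomputable def k332 : KT := (.one (nat_lit 0x200400601b000400800c036540))
def t332 : k332.all (jb2 57 fl b0) = true := by decide +kernel
noncomputable def k333 : KT := (.one (nat_lit 0x200500601a000400a00c034540))
def t333 : k333.all (jb2 57 fl b0) = true := by decide +kernel
noncomputable def k334 : KT := (.br (Nat.shiftLeft (nat_lit 0x1001) (nat_lit 90)) (.br (Nat.shiftLeft (nat_lit 0x300400601b) (nat_lit 64)) (.br (Nat.shiftLeft (nat_lit 0x300000601b) (nat_lit 64)) (.br (Nat.shiftLeft (nat_lit 0x3) (nat_lit 100)) (.one (nat_lit 0x200500601b000400a00c036540)) (.one (nat_lit 0x300000601a000600000c034311))) (.br (Nat.shiftLeft (nat_lit 0xc01) (nat_lit 90)) (.one (nat_lit 0x300000601b000600000c036311)) (.one (nat_lit 0x300400601a000600800c035500)))) (.br (Nat.shiftLeft (nat_lit 0x300500601b) (nat_lit 64)) (.br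 (Nat.shiftLeft (nat_lit 0x3005) (nat_lit 88)) (.one (nat_lit 0x300400601b000600800c037500)) (.one (nat_lit 0x300500601a000600a00c035500))) (.br (Nat.shiftLeft (nat_lit 0x1) (nat_lit 102)) (.one (nat_lit 0x300500601b000600a00c037500)) (.br (Nat.shiftLeft (nat_lit 0x400000601b) (nat_lit 64)) (.one (nat_lit 0x400000601a000800000c034311)) (.one (nat_lit 0x400000601b000800000c036311)))))) (.br (Nat.shiftLeft (nat_lit 0x600000601b) (nat_lit 64)) (.br (Nat.shiftLeft (nat_lit 0x5) (nat_lit 100)) (.br (Nat.shiftLeft (nat_lit 0x400500601b) (nat_lit 64)) (.one (nat_lit 0x400500601a000800a00c035500)) (.one (nat_lit 0x400500601b000800a00c037500))) (.br (Nat.shiftLeft (nat_lit 0x500000601b) (nat_lit 64)) (.one (nat_lit 0x500000601a000a00000c034311)) (.br (Nat.shiftLeft (nat_lit 0x3) (nat_lit 101)) (.one (nat_lit 0x500000601b000a00000c036311)) (.one (nat_lit 0x600000601a000c00000c034311))))) (.br (Nat.shiftLeft (nat_lit 0x100000400601b) (nat_lit 64)) (.br (Nat.shiftLeft (nat_lit 0x1) (nat_lit 112)) (.one (nat_lit 0x600000601b000c00000c036311))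 (.one (nat_lit 0x100000400601a200000800c034411))) (.br (Nat.shiftLeft (nat_lit 0x1000005) (nat_lit 88)) (.one (nat_lit 0x100000400601b200000800c036411)) (.br (Nat.shiftLeft (nat_lit 0x100000500601b) (nat_lit 64)) (.one (nat_lit 0x100000500601a200000a00c034411)) (.one (nat_lit 0x100000500601b200000a00c036411)))))))
def t334 : k334.all (jb2 57 fl b0) = true := by decide +kernel
noncomputable def k335 : KT := (.one (nat_lit 0x100300400601a200600800c034650))
def t335 : k335.all (jb2 57 fl b0) = true := by decide +kernel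
noncomputable def k336 : KT := (.one (nat_lit 0x100300400601b200600800c036650))
def t336 : k336.all (jb2 57 fl b0) = true := by decide +kernel
noncomputable def k337 : KT := (.br (Nat.shiftLeft (nat_lit 0x100300500601b) (nat_lit 64)) (.one (nat_lit 0x100300500601a200600a00c034650)) (.one (nat_lit 0x100300500601b200600a00c036650)))
def t337 : k337.all (jb2 57 fl b0) = true := by decide +kernel
noncomputable def k338 : KT := (.br (Nat.shiftLeft (nat_lit 0x200000400601b) (nat_lit 64)) (.br (Nat.shiftLeft (nat_lit 0x100400500601b) (nat_lit 64)) (.one (nat_lit 0x100400500601a200800a00c034650)) (.br (Nat.shiftLeft (nat_lit 0x1) (nat_lit 113)) (.one (nat_lit 0x100400500601b200800a00c036650)) (.one (nat_lit 0x200000400601a400000800c034411)))) (.br (Nat.shiftLeft (nat_lit 0x2000005) (nat_lit 88)) (.one (nat_lit 0x200000400601b400000800c036411)) (.br (Nat.shiftLeft (nat_lit 0x200000500601b) (nat_lit 64)) (.one (nat_lit 0x200000500601a400000a00c034411)) (.one (nat_lit 0x200000500601b400000a00c036411)))))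
def t338 : k338.all (jb2 57 fl b0) = true := by decide +kernel
noncomputable def k339 : KT := (.one (nat_lit 0x200300400601a400600800c034650))
def t339 : k339.all (jb2 57 fl b0) = true := by decide +kernel
noncomputable def k340 : KT := (.one (nat_lit 0x200300400601b400600800c036650))
def t340 : k340.all (jb2 57 fl b0) = true := by decide +kernel
noncomputable def k341 : KT := (.one (nat_lit 0x200300500601a400600a00c034650))
def t341 : k341.all (jb2 57 fl b0) = true := by decide +kernel
noncomputable def k342 : KT := (.one (nat_lit 0x200300500601b400600a00c036650))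
def t342 : k342.all (jb2 57 fl b0) = true := by decide +kernel
noncomputable def k343 : KT := (.one (nat_lit 0x200400500601a400800a00c034650))
def t343 : k343.all (jb2 57 fl b0) = true := by decide +kernel
noncomputable def k344 : KT := (.br (Nat.shiftLeft (nat_lit 0x300000400601b) (nat_lit 64)) (.br (Nat.shiftLeft (nat_lit 0x3) (nat_lit 112)) (.one (nat_lit 0x200400500601b400800a00c036650)) (.one (nat_lit 0x300000400601a600000800c034411))) (.br (Nat.shiftLeft (nat_lit 0x3000005) (nat_lit 88)) (.one (nat_lit 0x300000400601b600000800c036411)) (.br (Nat.shiftLeft (nat_lit 0x300000500601b) (nat_lit 64)) (.one (nat_lit 0x300000500601a600000a00c034411)) (.one (nat_lit 0x300000500601b600000a00c036411)))))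
def t344 : k344.all (jb2 57 fl b0) = true := by decide +kernel
noncomputable def k345 : KT := (.one (nat_lit 0x300400500601a600800a00c034650))
def t345 : k345.all (jb2 57 fl b0) = true := by decide +kernel
noncomputable def k346 : KT := (.br (Nat.shiftLeft (nat_lit 0x600000500601b) (nat_lit 64)) (.br (Nat.shiftLeft (nat_lit 0x500000400601b) (nat_lit 64)) (.br (Nat.shiftLeft (nat_lit 0x4000005) (nat_lit 88)) (.br (Nat.shiftLeft (nat_lit 0x1) (nat_lit 114)) (.one (nat_lit 0x300400500601b600800a00c036650)) (.br (Nat.shiftLeft (nat_lit 0x400000400601b) (nat_lit 64)) (.one (nat_lit 0x400000400601a800000800c034411)) (.one (nat_lit 0x400000400601b800000800c036411)))) (.br (Nat.shiftLeft (nat_lit 0x400000500601b) (nat_lit 64)) (.one (nat_lit 0x400000500601a800000a00c034411)) (.br (Nat.shiftLeft (nat_lit 0x5) (nat_lit 112)) (.one (nat_lit 0x400000500601b800000a00c036411)) (.one (nat_lit 0x500000400601aa00000800c034411))))) (.br (Nat.shiftLeft (nat_lit 0x3) (nat_lit 113)) (.br (Nat.shiftLeft (nat_lit 0x5000005) (nat_lit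 88)) (.one (nat_lit 0x500000400601ba00000800c036411)) (.br (Nat.shiftLeft (nat_lit 0x500000500601b) (nat_lit 64)) (.one (nat_lit 0x500000500601aa00000a00c034411)) (.one (nat_lit 0x500000500601ba00000a00c036411)))) (.br (Nat.shiftLeft (nat_lit 0x600000400601b) (nat_lit 64)) (.one (nat_lit 0x600000400601ac00000800c034411)) (.br (Nat.shiftLeft (nat_lit 0x6000005) (nat_lit 88)) (.one (nat_lit 0x600000400601bc00000800c036411)) (.one (nat_lit 0x600000500601ac00000a00c034411)))))) (.br (Nat.shiftLeft (nat_lit 0x100000400500601b) (nat_lit 64)) (.br (Nat.shiftLeft (nat_lit 0x1000003005) (nat_lit 88)) (.br (Nat.shiftLeft (nat_lit 0x1) (nat_lit 124)) (.one (nat_lit 0x600000500601bc00000a00c036411)) (.br (Nat.shiftLeft (nat_lit 0x100000300400601b) (nat_lit 64)) (.one (nat_lit 0x100000300400601a000600802c434511)) (.one (nat_lit 0x100000300400601b000600802c436511)))) (.br (Nat.shiftLeft (nat_lit 0x100000300500601b) (nat_lit 64)) (.one (nat_lit 0x100000300500601a000600a02c434511)) (.br (Nat.shiftLeft (nat_lit 0x400001) (nat_lit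 102)) (.one (nat_lit 0x100000300500601b000600a02c436511)) (.one (nat_lit 0x100000400500601a000800a02c434511))))) (.br (Nat.shiftLeft (nat_lit 0x2000003005) (nat_lit 88)) (.br (Nat.shiftLeft (nat_lit 0x1) (nat_lit 125)) (.one (nat_lit 0x100000400500601b000800a02c436511)) (.br (Nat.shiftLeft (nat_lit 0x200000300400601b) (nat_lit 64)) (.one (nat_lit 0x200000300400601a000600804c834511)) (.one (nat_lit 0x200000300400601b000600804c836511)))) (.br (Nat.shiftLeft (nat_lit 0x800001) (nat_lit 102)) (.br (Nat.shiftLeft (nat_lit 0x200000300500601b) (nat_lit 64)) (.one (nat_lit 0x200000300500601a000600a04c834511)) (.one (nat_lit 0x200000300500601b000600a04c836511))) (.br (Nat.shiftLeft (nat_lit 0x200000400500601b) (nat_lit 64)) (.one (nat_lit 0x200000400500601a000800a04c834511)) (.one (nat_lit 0x200000400500601b000800a04c836511)))))))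
def t346 : k346.all (jb2 57 fl b0) = true := by decide +kernel
noncomputable def k347 : KT := (.br (Nat.shiftLeft (nat_lit 0x400000300400601b) (nat_lit 64)) (.br (Nat.shiftLeft (nat_lit 0x300000300500601b) (nat_lit 64)) (.br (Nat.shiftLeft (nat_lit 0x300000300400601b) (nat_lit 64)) (.one (nat_lit 0x300000300400601a000600806cc34511)) (.br (Nat.shiftLeft (nat_lit 0x3000003005) (nat_lit 88)) (.one (nat_lit 0x300000300400601b000600806cc36511)) (.one (nat_lit 0x300000300500601a000600a06cc34511)))) (.br (Nat.shiftLeft (nat_lit 0x300000400500601b) (nat_lit 64)) (.br (Nat.shiftLeft (nat_lit 0xc00001) (nat_lit 102)) (.one (nat_lit 0x300000300500601b000600a06cc36511)) (.one (nat_lit 0x300000400500601a000800a06cc34511))) (.br (Nat.shiftLeft (nat_lit 0x1) (nat_lit 126)) (.one (nat_lit 0x300000400500601b000800a06cc36511)) (.one (nat_lit 0x400000300400601a000600808d034511))))) (.br (Nat.shiftLeft (nat_lit 0x400000400500601b) (nat_lit 64)) (.br (Nat.shiftLeft (nat_lit 0x400000300500601b) (nat_lit 64)) (.br (Nat.shiftLeft (nat_lit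 0x4000003005) (nat_lit 88)) (.one (nat_lit 0x400000300400601b000600808d036511)) (.one (nat_lit 0x400000300500601a000600a08d034511))) (.br (Nat.shiftLeft (nat_lit 0x1000001) (nat_lit 102)) (.one (nat_lit 0x400000300500601b000600a08d036511)) (.one (nat_lit 0x400000400500601a000800a08d034511)))) (.br (Nat.shiftLeft (nat_lit 0x500000300400601b) (nat_lit 64)) (.br (Nat.shiftLeft (nat_lit 0x5) (nat_lit 124)) (.one (nat_lit 0x400000400500601b000800a08d036511)) (.one (nat_lit 0x500000300400601a00060080ad434511))) (.br (Nat.shiftLeft (nat_lit 0x5000003005) (nat_lit 88)) (.one (nat_lit 0x500000300400601b00060080ad436511)) (.one (nat_lit 0x500000300500601a000600a0ad434511))))))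
def t347 : k347.all (jb2 57 fl b0) = true := by decide +kernel
noncomputable def k348 : KT := (.br (Nat.shiftLeft (nat_lit 0x3) (nat_lit 125)) (.br (Nat.shiftLeft (nat_lit 0x1400001) (nat_lit 102)) (.one (nat_lit 0x500000300500601b000600a0ad436511)) (.br (Nat.shiftLeft (nat_lit 0x500000400500601b) (nat_lit 64)) (.one (nat_lit 0x500000400500601a000800a0ad434511)) (.one (nat_lit 0x500000400500601b000800a0ad436511)))) (.br (Nat.shiftLeft (nat_lit 0x600000300400601b) (nat_lit 64)) (.one (nat_lit 0x600000300400601a00060080cd834511)) (.br (Nat.shiftLeft (nat_lit 0x6000003005) (nat_lit 88)) (.one (nat_lit 0x600000300400601b00060080cd836511)) (.one (nat_lit 0x600000300500601a000600a0cd834511)))))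
def t348 : k348.all (jb2 57 fl b0) = true := by decide +kernel
noncomputable def k349 : KT := (.br (Nat.shiftLeft (nat_lit 0x1800001) (nat_lit 102)) (.one (nat_lit 0x600000300500601b000600a0cd836511)) (.br (Nat.shiftLeft (nat_lit 0x600000400500601b) (nat_lit 64)) (.one (nat_lit 0x600000400500601a000800a0cd834511)) (.one (nat_lit 0x600000400500601b000800a0cd836511))))
def t349 : k349.all (jb2 57 fl b0) = true := by decide +kernel
noncomputable def s17 : KT := (.br (nat_lit 0x100300500601b200600a00c036650) (.br (nat_lit 0x200400601a000400800c034540) (.br (nat_lit 0x300601a000000600c034430) (.br (nat_lit 0x200601b000000400c036430) k327 k328) (.br (nat_lit 0x100000601b000200000c036311) k329 (.br (nat_lit 0x200000601b000400000c036311) k330 k331))) (.br (nat_lit 0x100000500601b200000a00c036411) (.br (nat_lit 0x200400601b000400800c036540) k332 (.br (nat_lit 0x200500601a000400a00c034540) k333 k334)) (.br (nat_lit 0x100300400601a200600800c034650) k335 (.br (nat_lit 0x100300400601b200600800c036650) k336 k337)))) (.br (nat_lit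 0x200400500601a400800a00c034650) (.br (nat_lit 0x200300400601b400600800c036650) (.br (nat_lit 0x200000500601b400000a00c036411) k338 (.br (nat_lit 0x200300400601a400600800c034650) k339 k340)) (.br (nat_lit 0x200300500601a400600a00c034650) k341 (.br (nat_lit 0x200300500601b400600a00c036650) k342 k343))) (.br (nat_lit 0x200000400500601b000800a04c836511) (.br (nat_lit 0x300000500601b600000a00c036411) k344 (.br (nat_lit 0x300400500601a600800a00c034650) k345 k346)) (.br (nat_lit 0x500000300500601a000600a0ad434511) k347 (.br (nat_lit 0x600000300500601a000600a0cd834511) k348 k349)))))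
noncomputable def u17 : KT := (.br (Nat.shiftLeft (nat_lit 0x601b) (nat_lit 64)) (.one (nat_lit 0x601a000000000c034320)) (.one (nat_lit 0x601b000000000c036320)))
def w17 : u17.all (wj 57 s17) = true := by decide +kernel
def o17 : OkW 57 (jb2 57 fl) u17 := .lift s17 _ (.br _ _ _ (.br _ _ _ (.br _ _ _ (.br _ _ _ (.leaf b0 k327 t327) (.leaf b0 k328 t328)) (.br _ _ _ (.leaf b0 k329 t329) (.br _ _ _ (.leaf b0 k330 t330) (.leaf b0 k331 t331)))) (.br _ _ _ (.br _ _ _ (.leaf b0 k332 t332) (.br _ _ _ (.leaf b0 k333 t333) (.leaf b0 k334 t334))) (.br _ _ _ (.leaf b0 k335 t335) (.br _ _ _ (.leaf b0 k336 t336) (.leaf b0 k337 t337))))) (.br _ _ _ (.br _ _ _ (.br _ _ _ (.leaf b0 k338 t338) (.br _ _ _ (.leaf b0 k339 t339) (.leaf b0 k340 t340))) (.br _ _ _ (.leaf b0 k341 t341) (.br _ _ _ (.leaf b0 k342 t342) (.leaf b0 k343 t343)))) (.br _ _ _ (.br _ _ _ (.leaf b0 k344 t344) (.br _ _ _ (.leaf b0 k345 t345) (.leaf b0 k346 t346))) (.br _ _ _ (.leaf b0 k347 t347) (.br _ _ _ (.leaf b0 k348 t348) (.leaf b0 k349 t349)))))) w17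
noncomputable def k350 : KT := (.br (Nat.shiftLeft (nat_lit 0x100601d) (nat_lit 64)) (.br (Nat.shiftLeft (nat_lit 0x300f) (nat_lit 65)) (.br (Nat.shiftLeft (nat_lit 0x601d) (nat_lit 64)) (.one (nat_lit 0x601c000000000c039300)) (.one (nat_lit 0x601d000000000c03b300))) (.br (Nat.shiftLeft (nat_lit 0x1) (nat_lit 88)) (.one (nat_lit 0x601e000000000c03d300)) (.one (nat_lit 0x100601c000000200c038430)))) (.br (Nat.shiftLeft (nat_lit 0x1) (nat_lit 89)) (.br (Nat.shiftLeft (nat_lit 0x80300f) (nat_lit 65)) (.one (nat_lit 0x100601d000000200c03a430)) (.one (nat_lit 0x100601e000000200c03c430))) (.br (Nat.shiftLeft (nat_lit 0x200601d) (nat_lit 64)) (.one (nat_lit 0x200601c000000400c038430)) (.br (Nat.shiftLeft (nat_lit 0x100300f) (nat_lit 65)) (.one (nat_lit 0x200601d000000400c03a430)) (.one (nat_lit 0x200601e000000400c03c430))))))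
def t350 : k350.all (jb2 57 fl b0) = true := by decide +kernel
noncomputable def k351 : KT := (.one (nat_lit 0x300601c000000600c038430))
def t351 : k351.all (jb2 57 fl b0) = true := by decide +kernel
noncomputable def k352 : KT := (.one (nat_lit 0x300601d000000600c03a430))
def t352 : k352.all (jb2 57 fl b0) = true := by decide +kernel
noncomputable def k353 : KT := (.br (Nat.shiftLeft (nat_lit 0x500601d) (nat_lit 64)) (.br (Nat.shiftLeft (nat_lit 0x400601d) (nat_lit 64)) (.br (Nat.shiftLeft (nat_lit 0x1) (nat_lit 90)) (.one (nat_lit 0x300601e000000600c03c430)) (.one (nat_lit 0x400601c000000800c039400))) (.br (Nat.shiftLeft (nat_lit 0x200300f) (nat_lit 65)) (.one (nat_lit 0x400601d000000800c03b400)) (.br (Nat.shiftLeft (nat_lit 0x5) (nat_lit 88)) (.one (nat_lit 0x400601e000000800c03d400)) (.one (nat_lit 0x500601c000000a00c039400))))) (.br (Nat.shiftLeft (nat_lit 0x100000601d) (nat_lit 64)) (.br (Nat.shiftLeft (nat_lit 0x280300f) (nat_lit 65)) (.one (nat_lit 0x500601d000000a00c03b400)) (.br (Nat.shiftLeft (nat_lit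 0x1) (nat_lit 100)) (.one (nat_lit 0x500601e000000a00c03d400)) (.one (nat_lit 0x100000601c000200000c038311)))) (.br (Nat.shiftLeft (nat_lit 0x80000300f) (nat_lit 65)) (.one (nat_lit 0x100000601d000200000c03a311)) (.br (Nat.shiftLeft (nat_lit 0x401) (nat_lit 90)) (.one (nat_lit 0x100000601e000200000c03c311)) (.one (nat_lit 0x100400601c000200800c038540))))))
def t353 : k353.all (jb2 57 fl b0) = true := by decide +kernel
noncomputable def k354 : KT := (.br (Nat.shiftLeft (nat_lit 0x1005) (nat_lit 88)) (.br (Nat.shiftLeft (nat_lit 0x80200300f) (nat_lit 65)) (.one (nat_lit 0x100400601d000200800c03a540)) (.one (nat_lit 0x100400601e000200800c03c540))) (.br (Nat.shiftLeft (nat_lit 0x100500601d) (nat_lit 64)) (.one (nat_lit 0x100500601c000200a00c038540)) (.one (nat_lit 0x100500601d000200a00c03a540))))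
def t354 : k354.all (jb2 57 fl b0) = true := by decide +kernel
noncomputable def k355 : KT := (.br (Nat.shiftLeft (nat_lit 0x200000601d) (nat_lit 64)) (.br (Nat.shiftLeft (nat_lit 0x1) (nat_lit 101)) (.one (nat_lit 0x100500601e000200a00c03c540)) (.one (nat_lit 0x200000601c000400000c038311))) (.br (Nat.shiftLeft (nat_lit 0x100000300f) (nat_lit 65)) (.one (nat_lit 0x200000601d000400000c03a311)) (.br (Nat.shiftLeft (nat_lit 0x801) (nat_lit 90)) (.one (nat_lit 0x200000601e000400000c03c311)) (.one (nat_lit 0x200400601c000400800c038540)))))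
def t355 : k355.all (jb2 57 fl b0) = true := by decide +kernel
noncomputable def k356 : KT := (.one (nat_lit 0x200400601d000400800c03a540))
def t356 : k356.all (jb2 57 fl b0) = true := by decide +kernel
noncomputable def k357 : KT := (.one (nat_lit 0x200400601e000400800c03c540))
def t357 : k357.all (jb2 57 fl b0) = true := by decide +kernel
noncomputable def k358 : KT := (.one (nat_lit 0x200500601c000400a00c038540))
def t358 : k358.all (jb2 57 fl b0) = true := by decide +kernel
noncomputable def k359 : KT := (.one (nat_lit 0x200500601d000400a00c03a540))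
def t359 : k359.all (jb2 57 fl b0) = true := by decide +kernel
noncomputable def k360 : KT := (.br (Nat.shiftLeft (nat_lit 0x180000300f) (nat_lit 65)) (.br (Nat.shiftLeft (nat_lit 0x3) (nat_lit 100)) (.one (nat_lit 0x200500601e000400a00c03c540)) (.br (Nat.shiftLeft (nat_lit 0x300000601d) (nat_lit 64)) (.one (nat_lit 0x300000601c000600000c038311)) (.one (nat_lit 0x300000601d000600000c03a311)))) (.br (Nat.shiftLeft (nat_lit 0xc01) (nat_lit 90)) (.one (nat_lit 0x300000601e000600000c03c311)) (.br (Nat.shiftLeft (nat_lit 0x300400601d) (nat_lit 64)) (.one (nat_lit 0x300400601c000600800c039500)) (.one (nat_lit 0x300400601d000600800c03b500)))))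
def t360 : k360.all (jb2 57 fl b0) = true := by decide +kernel
noncomputable def k361 : KT := (.br (Nat.shiftLeft (nat_lit 0x3005) (nat_lit 88)) (.one (nat_lit 0x300400601e000600800c03c540)) (.one (nat_lit 0x300500601c000600a00c039500)))
def t361 : k361.all (jb2 57 fl b0) = true := by decide +kernel
noncomputable def k362 : KT := (.one (nat_lit 0x300500601d000600a00c03a540))
def t362 : k362.all (jb2 57 fl b0) = true := by decide +kernel
noncomputable def k363 : KT := (.br (Nat.shiftLeft (nat_lit 0x200000300f) (nat_lit 65)) (.br (Nat.shiftLeft (nat_lit 0x1) (nat_lit 102)) (.one (nat_lit 0x300500601e000600a00c03c540)) (.br (Nat.shiftLeft (nat_lit 0x400000601d) (nat_lit 64)) (.one (nat_lit 0x400000601c000800000c038311)) (.one (nat_lit 0x400000601d000800000c03a311)))) (.br (Nat.shiftLeft (nat_lit 0x1001) (nat_lit 90)) (.one (nat_lit 0x400000601e000800000c03c311)) (.br (Nat.shiftLeft (nat_lit 0x400500601d) (nat_lit 64)) (.one (nat_lit 0x400500601c000800a00c039500)) (.one (nat_lit 0x400500601d000800a00c03b500)))))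
def t363 : k363.all (jb2 57 fl b0) = true := by decide +kernel
noncomputable def k364 : KT := (.br (Nat.shiftLeft (nat_lit 0x300000300f) (nat_lit 65)) (.br (Nat.shiftLeft (nat_lit 0x280000300f) (nat_lit 65)) (.br (Nat.shiftLeft (nat_lit 0x5) (nat_lit 100)) (.one (nat_lit 0x400500601e000800a00c03c540)) (.br (Nat.shiftLeft (nat_lit 0x500000601d) (nat_lit 64)) (.one (nat_lit 0x500000601c000a00000c038311)) (.one (nat_lit 0x500000601d000a00000c03a311)))) (.br (Nat.shiftLeft (nat_lit 0x3) (nat_lit 101)) (.one (nat_lit 0x500000601e000a00000c03c311)) (.br (Nat.shiftLeft (nat_lit 0x600000601d) (nat_lit 64)) (.one (nat_lit 0x600000601c000c00000c038311)) (.one (nat_lit 0x600000601d000c00000c03a311))))) (.br (Nat.shiftLeft (nat_lit 0x80000200300f) (nat_lit 65)) (.br (Nat.shiftLeft (nat_lit 0x1) (nat_lit 112)) (.one (nat_lit 0x600000601e000c00000c03c311)) (.br (Nat.shiftLeft (nat_lit 0x100000400601d) (nat_lit 64)) (.one (nat_lit 0x100000400601c200000800c038411)) (.one (nat_lit 0x100000400601d200000800c03a411)))) (.br (Nat.shiftLeft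 (nat_lit 0x100000500601d) (nat_lit 64)) (.br (Nat.shiftLeft (nat_lit 0x1000005) (nat_lit 88)) (.one (nat_lit 0x100000400601e200000800c03c411)) (.one (nat_lit 0x100000500601c200000a00c038411))) (.br (Nat.shiftLeft (nat_lit 0x80000280300f) (nat_lit 65)) (.one (nat_lit 0x100000500601d200000a00c03a411)) (.one (nat_lit 0x100000500601e200000a00c03c411))))))
def t364 : k364.all (jb2 57 fl b0) = true := by decide +kernel
noncomputable def k365 : KT := (.br (Nat.shiftLeft (nat_lit 0x100300400601d) (nat_lit 64)) (.one (nat_lit 0x100300400601c200600800c038650)) (.one (nat_lit 0x100300400601d200600800c03a650)))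
def t365 : k365.all (jb2 57 fl b0) = true := by decide +kernel
noncomputable def k366 : KT := (.br (Nat.shiftLeft (nat_lit 0x200000400601d) (nat_lit 64)) (.br (Nat.shiftLeft (nat_lit 0x100400500601d) (nat_lit 64)) (.br (Nat.shiftLeft (nat_lit 0x401) (nat_lit 102)) (.one (nat_lit 0x100300500601c200600a00c038650)) (.one (nat_lit 0x100400500601c200800a00c038650))) (.br (Nat.shiftLeft (nat_lit 0x1) (nat_lit 113)) (.one (nat_lit 0x100400500601d200800a00c03a650)) (.one (nat_lit 0x200000400601c400000800c038411)))) (.br (Nat.shiftLeft (nat_lit 0x2000005) (nat_lit 88)) (.br (Nat.shiftLeft (nat_lit 0x100000200300f) (nat_lit 65)) (.one (nat_lit 0x200000400601d400000800c03a411)) (.one (nat_lit 0x200000400601e400000800c03c411))) (.br (Nat.shiftLeft (nat_lit 0x200000500601d) (nat_lit 64)) (.one (nat_lit 0x200000500601c400000a00c038411)) (.br (Nat.shiftLeft (nat_lit 0x100000280300f) (nat_lit 65)) (.one (nat_lit 0x200000500601d400000a00c03a411)) (.one (nat_lit 0x200000500601e400000a00c03c411))))))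
def t366 : k366.all (jb2 57 fl b0) = true := by decide +kernel
noncomputable def k367 : KT := (.one (nat_lit 0x200300400601c400600800c038650))
def t367 : k367.all (jb2 57 fl b0) = true := by decide +kernel
noncomputable def k368 : KT := (.br (Nat.shiftLeft (nat_lit 0x2003005) (nat_lit 88)) (.one (nat_lit 0x200300400601d400600800c03a650)) (.one (nat_lit 0x200300500601c400600a00c038650)))
def t368 : k368.all (jb2 57 fl b0) = true := by decide +kernel
noncomputable def k369 : KT := (.br (Nat.shiftLeft (nat_lit 0x180000200300f) (nat_lit 65)) (.br (Nat.shiftLeft (nat_lit 0x3) (nat_lit 112)) (.br (Nat.shiftLeft (nat_lit 0x200400500601d) (nat_lit 64)) (.one (nat_lit 0x200400500601c400800a00c038650)) (.one (nat_lit 0x200400500601d400800a00c03a650))) (.br (Nat.shiftLeft (nat_lit 0x300000400601d) (nat_lit 64)) (.one (nat_lit 0x300000400601c600000800c038411)) (.one (nat_lit 0x300000400601d600000800c03a411)))) (.br (Nat.shiftLeft (nat_lit 0x300000500601d) (nat_lit 64)) (.br (Nat.shiftLeft (nat_lit 0x3000005) (nat_lit 88))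 (.one (nat_lit 0x300000400601e600000800c03c411)) (.one (nat_lit 0x300000500601c600000a00c038411))) (.br (Nat.shiftLeft (nat_lit 0x180000280300f) (nat_lit 65)) (.one (nat_lit 0x300000500601d600000a00c03a411)) (.one (nat_lit 0x300000500601e600000a00c03c411)))))
def t369 : k369.all (jb2 57 fl b0) = true := by decide +kernel
noncomputable def k370 : KT := (.br (Nat.shiftLeft (nat_lit 0x4000005) (nat_lit 88)) (.br (Nat.shiftLeft (nat_lit 0x1) (nat_lit 114)) (.br (Nat.shiftLeft (nat_lit 0x300400500601d) (nat_lit 64)) (.one (nat_lit 0x300400500601c600800a00c038650)) (.one (nat_lit 0x300400500601d600800a00c03a650))) (.br (Nat.shiftLeft (nat_lit 0x400000400601d) (nat_lit 64)) (.one (nat_lit 0x400000400601c800000800c038411)) (.br (Nat.shiftLeft (nat_lit 0x200000200300f) (nat_lit 65)) (.one (nat_lit 0x400000400601d800000800c03a411)) (.one (nat_lit 0x400000400601e800000800c03c411))))) (.br (Nat.shiftLeft (nat_lit 0x200000280300f) (nat_lit 65)) (.br (Nat.shiftLeft (nat_lit 0x400000500601d) (nat_lit 64)) (.one (nat_lit 0x400000500601c800000a00c038411))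 (.one (nat_lit 0x400000500601d800000a00c03a411))) (.br (Nat.shiftLeft (nat_lit 0x5) (nat_lit 112)) (.one (nat_lit 0x400000500601e800000a00c03c411)) (.br (Nat.shiftLeft (nat_lit 0x500000400601d) (nat_lit 64)) (.one (nat_lit 0x500000400601ca00000800c038411)) (.one (nat_lit 0x500000400601da00000800c03a411))))))
def t370 : k370.all (jb2 57 fl b0) = true := by decide +kernel
noncomputable def k371 : KT := (.br (Nat.shiftLeft (nat_lit 0x1) (nat_lit 125)) (.br (Nat.shiftLeft (nat_lit 0x6000005) (nat_lit 88)) (.br (Nat.shiftLeft (nat_lit 0x280000280300f) (nat_lit 65)) (.br (Nat.shiftLeft (nat_lit 0x5000005) (nat_lit 88)) (.one (nat_lit 0x500000400601ea00000800c03c411)) (.br (Nat.shiftLeft (nat_lit 0x500000500601d) (nat_lit 64)) (.one (nat_lit 0x500000500601ca00000a00c038411)) (.one (nat_lit 0x500000500601da00000a00c03a411)))) (.br (Nat.shiftLeft (nat_lit 0x600000400601d) (nat_lit 64)) (.br (Nat.shiftLeft (nat_lit 0x3) (nat_lit 113)) (.one (nat_lit 0x500000500601ea00000a00c03c411)) (.one (nat_lit 0x600000400601cc00000800c038411)))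 (.br (Nat.shiftLeft (nat_lit 0x300000200300f) (nat_lit 65)) (.one (nat_lit 0x600000400601dc00000800c03a411)) (.one (nat_lit 0x600000400601ec00000800c03c411))))) (.br (Nat.shiftLeft (nat_lit 0x100000300400601d) (nat_lit 64)) (.br (Nat.shiftLeft (nat_lit 0x300000280300f) (nat_lit 65)) (.br (Nat.shiftLeft (nat_lit 0x600000500601d) (nat_lit 64)) (.one (nat_lit 0x600000500601cc00000a00c038411)) (.one (nat_lit 0x600000500601dc00000a00c03a411))) (.br (Nat.shiftLeft (nat_lit 0x1) (nat_lit 124)) (.one (nat_lit 0x600000500601ec00000a00c03c411)) (.one (nat_lit 0x100000300400601c000600802c438511)))) (.br (Nat.shiftLeft (nat_lit 0x400001) (nat_lit 102)) (.br (Nat.shiftLeft (nat_lit 0x1000003005) (nat_lit 88)) (.one (nat_lit 0x100000300400601d000600802c43a511)) (.one (nat_lit 0x100000300500601c000600a02c438511))) (.br (Nat.shiftLeft (nat_lit 0x100000400500601d) (nat_lit 64)) (.one (nat_lit 0x100000400500601c000800a02c438511)) (.one (nat_lit 0x100000400500601d000800a02c43a511)))))) (.br (Nat.shiftLeft (nat_lit 0xc00001) (nat_lit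 102)) (.br (Nat.shiftLeft (nat_lit 0x200000400500601d) (nat_lit 64)) (.br (Nat.shiftLeft (nat_lit 0x2000003005) (nat_lit 88)) (.br (Nat.shiftLeft (nat_lit 0x200000300400601d) (nat_lit 64)) (.one (nat_lit 0x200000300400601c000600804c838511)) (.one (nat_lit 0x200000300400601d000600804c83a511))) (.br (Nat.shiftLeft (nat_lit 0x800001) (nat_lit 102)) (.one (nat_lit 0x200000300500601c000600a04c838511)) (.one (nat_lit 0x200000400500601c000800a04c838511)))) (.br (Nat.shiftLeft (nat_lit 0x300000300400601d) (nat_lit 64)) (.br (Nat.shiftLeft (nat_lit 0x3) (nat_lit 124)) (.one (nat_lit 0x200000400500601d000800a04c83a511)) (.one (nat_lit 0x300000300400601c000600806cc38511))) (.br (Nat.shiftLeft (nat_lit 0x3000003005) (nat_lit 88)) (.one (nat_lit 0x300000300400601d000600806cc3a511)) (.one (nat_lit 0x300000300500601c000600a06cc38511))))) (.br (Nat.shiftLeft (nat_lit 0x4000003005) (nat_lit 88)) (.br (Nat.shiftLeft (nat_lit 0x1) (nat_lit 126)) (.br (Nat.shiftLeft (nat_lit 0x300000400500601d) (nat_lit 64)) (.one (nat_lit 0x300000400500601c000800a06cc38511))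 (.one (nat_lit 0x300000400500601d000800a06cc3a511))) (.br (Nat.shiftLeft (nat_lit 0x400000300400601d) (nat_lit 64)) (.one (nat_lit 0x400000300400601c000600808d038511)) (.one (nat_lit 0x400000300400601d000600808d03a511)))) (.br (Nat.shiftLeft (nat_lit 0x400000400500601d) (nat_lit 64)) (.br (Nat.shiftLeft (nat_lit 0x1000001) (nat_lit 102)) (.one (nat_lit 0x400000300500601c000600a08d038511)) (.one (nat_lit 0x400000400500601c000800a08d038511))) (.br (Nat.shiftLeft (nat_lit 0x5) (nat_lit 124)) (.one (nat_lit 0x400000400500601d000800a08d03a511)) (.one (nat_lit 0x500000300400601c00060080ad438511)))))))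
def t371 : k371.all (jb2 57 fl b0) = true := by decide +kernel
noncomputable def k372 : KT := (.br (Nat.shiftLeft (nat_lit 0x3) (nat_lit 125)) (.br (Nat.shiftLeft (nat_lit 0x1400001) (nat_lit 102)) (.br (Nat.shiftLeft (nat_lit 0x5000003005) (nat_lit 88)) (.one (nat_lit 0x500000300400601d00060080ad43a511)) (.one (nat_lit 0x500000300500601c000600a0ad438511))) (.br (Nat.shiftLeft (nat_lit 0x500000400500601d) (nat_lit 64)) (.one (nat_lit 0x500000400500601c000800a0ad438511)) (.one (nat_lit 0x500000400500601d000800a0ad43a511)))) (.br (Nat.shiftLeft (nat_lit 0x6000003005) (nat_lit 88)) (.br (Nat.shiftLeft (nat_lit 0x600000300400601d) (nat_lit 64)) (.one (nat_lit 0x600000300400601c00060080cd838511)) (.one (nat_lit 0x600000300400601d00060080cd83a511))) (.br (Nat.shiftLeft (nat_lit 0x1800001) (nat_lit 102)) (.one (nat_lit 0x600000300500601c000600a0cd838511)) (.br (Nat.shiftLeft (nat_lit 0x600000400500601d) (nat_lit 64)) (.one (nat_lit 0x600000400500601c000800a0cd838511)) (.one (nat_lit 0x600000400500601d000800a0cd83a511))))))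
def t372 : k372.all (jb2 57 fl b0) = true := by decide +kernel
noncomputable def s18 : KT := (.br (nat_lit 0x300400601d000600800c03b500) (.br (nat_lit 0x100500601d000200a00c03a540) (.br (nat_lit 0x300601c000000600c038430) (.br (nat_lit 0x200601e000000400c03c430) k350 k351) (.br (nat_lit 0x300601d000000600c03a430) k352 (.br (nat_lit 0x100400601c000200800c038540) k353 k354))) (.br (nat_lit 0x200400601e000400800c03c540) (.br (nat_lit 0x200400601c000400800c038540) k355 (.br (nat_lit 0x200400601d000400800c03a540) k356 k357)) (.br (nat_lit 0x200500601c000400a00c038540) k358 (.br (nat_lit 0x200500601d000400a00c03a540) k359 k360)))) (.br (nat_lit 0x200000500601e400000a00c03c411) (.br (nat_lit 0x400500601d000800a00c03b500) (.br (nat_lit 0x300500601c000600a00c039500) k361 (.br (nat_lit 0x300500601d000600a00c03a540) k362 k363)) (.br (nat_lit 0x100000500601e200000a00c03c411) k364 (.br (nat_lit 0x100300400601d200600800c03a650) k365 k366))) (.br (nat_lit 0x300000500601e600000a00c03c411) (.br (nat_lit 0x200300400601c400600800c038650)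 k367 (.br (nat_lit 0x200300500601c400600a00c038650) k368 k369)) (.br (nat_lit 0x500000400601da00000800c03a411) k370 (.br (nat_lit 0x500000300400601c00060080ad438511) k371 k372)))))
noncomputable def u18 : KT := (.br (Nat.shiftLeft (nat_lit 0x601d) (nat_lit 64)) (.one (nat_lit 0x601c000000000c038320)) (.br (Nat.shiftLeft (nat_lit 0x300f) (nat_lit 65)) (.one (nat_lit 0x601d000000000c03a320)) (.one (nat_lit 0x601e000000000c03c320))))
def w18 : u18.all (wj 57 s18) = true := by decide +kernel
def o18 : OkW 57 (jb2 57 fl) u18 := .lift s18 _ (.br _ _ _ (.br _ _ _ (.br _ _ _ (.br _ _ _ (.leaf b0 k350 t350) (.leaf b0 k351 t351)) (.br _ _ _ (.leaf b0 k352 t352) (.br _ _ _ (.leaf b0 k353 t353) (.leaf b0 k354 t354)))) (.br _ _ _ (.br _ _ _ (.leaf b0 k355 t355) (.br _ _ _ (.leaf b0 k356 t356) (.leaf b0 k357 t357))) (.br _ _ _ (.leaf b0 k358 t358) (.br _ _ _ (.leaf b0 k359 t359) (.leaf b0 k360 t360))))) (.br _ _ _ (.br _ _ _ (.br _ _ _ (.leaf b0 k361 t361) (.br _ _ _ (.leaf b0 k362 t362) (.leaf b0 k363 t363))) (.br _ _ _ (.leaf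 b0 k364 t364) (.br _ _ _ (.leaf b0 k365 t365) (.leaf b0 k366 t366)))) (.br _ _ _ (.br _ _ _ (.leaf b0 k367 t367) (.br _ _ _ (.leaf b0 k368 t368) (.leaf b0 k369 t369))) (.br _ _ _ (.leaf b0 k370 t370) (.br _ _ _ (.leaf b0 k371 t371) (.leaf b0 k372 t372)))))) w18
noncomputable def k373 : KT := (.br (Nat.shiftLeft (nat_lit 0x80301) (nat_lit 69)) (.br (Nat.shiftLeft (nat_lit 0x6021) (nat_lit 64)) (.br (Nat.shiftLeft (nat_lit 0x301) (nat_lit 69)) (.one (nat_lit 0x601f000000000c03f300)) (.one (nat_lit 0x6020000000000c041300))) (.br (Nat.shiftLeft (nat_lit 0x7) (nat_lit 76)) (.one (nat_lit 0x6021000000000c043300)) (.br (Nat.shiftLeft (nat_lit 0x1) (nat_lit 88)) (.one (nat_lit 0x7019000000000e033300)) (.one (nat_lit 0x100601f000000200c03e430))))) (.br (Nat.shiftLeft (nat_lit 0x1) (nat_lit 89)) (.br (Nat.shiftLeft (nat_lit 0x1006021) (nat_lit 64)) (.one (nat_lit 0x1006020000000200c040430)) (.one (nat_lit 0x1006021000000200c042430))) (.br (Nat.shiftLeft (nat_lit 0x100301) (nat_lit 69)) (.one (nat_lit 0x200601f000000400c03e430))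 (.br (Nat.shiftLeft (nat_lit 0x2006021) (nat_lit 64)) (.one (nat_lit 0x2006020000000400c040430)) (.one (nat_lit 0x2006021000000400c042430))))))
def t373 : k373.all (jb2 57 fl b0) = true := by decide +kernel
noncomputable def k374 : KT := (.one (nat_lit 0x300601f000000600c03e430))
def t374 : k374.all (jb2 57 fl b0) = true := by decide +kernel
noncomputable def k375 : KT := (.one (nat_lit 0x3006020000000600c040430))
def t375 : k375.all (jb2 57 fl b0) = true := by decide +kernel
noncomputable def k376 : KT := (.br (Nat.shiftLeft (nat_lit 0x280301) (nat_lit 69)) (.br (Nat.shiftLeft (nat_lit 0x200301) (nat_lit 69)) (.br (Nat.shiftLeft (nat_lit 0x1) (nat_lit 90)) (.one (nat_lit 0x3006021000000600c042430)) (.one (nat_lit 0x400601f000000800c03f400))) (.br (Nat.shiftLeft (nat_lit 0x4006021) (nat_lit 64)) (.one (nat_lit 0x4006020000000800c041400)) (.br (Nat.shiftLeft (nat_lit 0x5) (nat_lit 88)) (.one (nat_lit 0x4006021000000800c043400)) (.one (nat_lit 0x500601f000000a00c03f400))))) (.br (Nat.shiftLeft (nat_lit 0x80000301)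 (nat_lit 69)) (.br (Nat.shiftLeft (nat_lit 0x5006021) (nat_lit 64)) (.one (nat_lit 0x5006020000000a00c041400)) (.br (Nat.shiftLeft (nat_lit 0x1) (nat_lit 100)) (.one (nat_lit 0x5006021000000a00c043400)) (.one (nat_lit 0x100000601f000200000c03e311)))) (.br (Nat.shiftLeft (nat_lit 0x1000006021) (nat_lit 64)) (.one (nat_lit 0x1000006020000200000c040311)) (.br (Nat.shiftLeft (nat_lit 0x401) (nat_lit 90)) (.one (nat_lit 0x1000006021000200000c042311)) (.one (nat_lit 0x100400601f000200800c03e540))))))
def t376 : k376.all (jb2 57 fl b0) = true := by decide +kernel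
noncomputable def k377 : KT := (.br (Nat.shiftLeft (nat_lit 0x1005) (nat_lit 88)) (.br (Nat.shiftLeft (nat_lit 0x1004006021) (nat_lit 64)) (.one (nat_lit 0x1004006020000200800c040540)) (.one (nat_lit 0x1004006021000200800c042540))) (.br (Nat.shiftLeft (nat_lit 0x80280301) (nat_lit 69)) (.one (nat_lit 0x100500601f000200a00c03e540)) (.br (Nat.shiftLeft (nat_lit 0x1005006021) (nat_lit 64)) (.one (nat_lit 0x1005006020000200a00c040540)) (.one (nat_lit 0x1005006021000200a00c042540)))))
def t377 : k377.all (jb2 57 fl b0) = true := by decide +kernel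
noncomputable def k378 : KT := (.br (Nat.shiftLeft (nat_lit 0x2000006021) (nat_lit 64)) (.br (Nat.shiftLeft (nat_lit 0x100000301) (nat_lit 69)) (.one (nat_lit 0x200000601f000400000c03e311)) (.one (nat_lit 0x2000006020000400000c040311))) (.br (Nat.shiftLeft (nat_lit 0x801) (nat_lit 90)) (.one (nat_lit 0x2000006021000400000c042311)) (.br (Nat.shiftLeft (nat_lit 0x100200301) (nat_lit 69)) (.one (nat_lit 0x200400601f000400800c03e540)) (.one (nat_lit 0x2004006020000400800c040540)))))
def t378 : k378.all (jb2 57 fl b0) = true := by decide +kernel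
noncomputable def k379 : KT := (.br (Nat.shiftLeft (nat_lit 0x2005) (nat_lit 88)) (.one (nat_lit 0x2004006021000400800c042540)) (.one (nat_lit 0x200500601f000400a00c03e540)))
def t379 : k379.all (jb2 57 fl b0) = true := by decide +kernel
noncomputable def k380 : KT := (.br (Nat.shiftLeft (nat_lit 0x3) (nat_lit 100)) (.br (Nat.shiftLeft (nat_lit 0x2005006021) (nat_lit 64)) (.one (nat_lit 0x2005006020000400a00c040540)) (.one (nat_lit 0x2005006021000400a00c042540))) (.br (Nat.shiftLeft (nat_lit 0x180000301) (nat_lit 69)) (.one (nat_lit 0x300000601f000600000c03e311)) (.br (Nat.shiftLeft (nat_lit 0x3000006021) (nat_lit 64)) (.one (nat_lit 0x3000006020000600000c040311)) (.one (nat_lit 0x3000006021000600000c042311)))))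
def t380 : k380.all (jb2 57 fl b0) = true := by decide +kernel
noncomputable def k381 : KT := (.one (nat_lit 0x300400601f000600800c03e540))
def t381 : k381.all (jb2 57 fl b0) = true := by decide +kernel
noncomputable def k382 : KT := (.one (nat_lit 0x3004006020000600800c040540))
def t382 : k382.all (jb2 57 fl b0) = true := by decide +kernel
noncomputable def k383 : KT := (.one (nat_lit 0x3004006021000600800c042540))
def t383 : k383.all (jb2 57 fl b0) = true := by decide +kernel
noncomputable def k384 : KT := (.one (nat_lit 0x300500601f000600a00c03e540))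
def t384 : k384.all (jb2 57 fl b0) = true := by decide +kernel
noncomputable def k385 : KT := (.br (Nat.shiftLeft (nat_lit 0x1) (nat_lit 102)) (.br (Nat.shiftLeft (nat_lit 0x3005006021) (nat_lit 64)) (.one (nat_lit 0x3005006020000600a00c040540)) (.one (nat_lit 0x3005006021000600a00c042540))) (.br (Nat.shiftLeft (nat_lit 0x200000301) (nat_lit 69)) (.one (nat_lit 0x400000601f000800000c03e311)) (.br (Nat.shiftLeft (nat_lit 0x4000006021) (nat_lit 64)) (.one (nat_lit 0x4000006020000800000c040311)) (.one (nat_lit 0x4000006021000800000c042311)))))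
def t385 : k385.all (jb2 57 fl b0) = true := by decide +kernel
noncomputable def k386 : KT := (.one (nat_lit 0x400500601f000800a00c03e540))
def t386 : k386.all (jb2 57 fl b0) = true := by decide +kernel
noncomputable def k387 : KT := (.br (Nat.shiftLeft (nat_lit 0x1) (nat_lit 113)) (.br (Nat.shiftLeft (nat_lit 0x6000006021) (nat_lit 64)) (.br (Nat.shiftLeft (nat_lit 0x280000301) (nat_lit 69)) (.br (Nat.shiftLeft (nat_lit 0x4005006021) (nat_lit 64)) (.one (nat_lit 0x4005006020000800a00c040540)) (.br (Nat.shiftLeft (nat_lit 0x5) (nat_lit 100)) (.one (nat_lit 0x4005006021000800a00c042540)) (.one (nat_lit 0x500000601f000a00000c03e311)))) (.br (Nat.shiftLeft (nat_lit 0x3) (nat_lit 101)) (.br (Nat.shiftLeft (nat_lit 0x5000006021) (nat_lit 64)) (.one (nat_lit 0x5000006020000a00000c040311)) (.one (nat_lit 0x5000006021000a00000c042311))) (.br (Nat.shiftLeft (nat_lit 0x300000301) (nat_lit 69)) (.one (nat_lit 0x600000601f000c00000c03e311)) (.one (nat_lit 0x6000006020000c00000c040311))))) (.br (Nat.shiftLeft (nat_lit 0x1000004006021)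 (nat_lit 64)) (.br (Nat.shiftLeft (nat_lit 0x1) (nat_lit 112)) (.one (nat_lit 0x6000006021000c00000c042311)) (.br (Nat.shiftLeft (nat_lit 0x80000200301) (nat_lit 69)) (.one (nat_lit 0x100000400601f200000800c03e411)) (.one (nat_lit 0x1000004006020200000800c040411)))) (.br (Nat.shiftLeft (nat_lit 0x80000280301) (nat_lit 69)) (.br (Nat.shiftLeft (nat_lit 0x1000005) (nat_lit 88)) (.one (nat_lit 0x1000004006021200000800c042411)) (.one (nat_lit 0x100000500601f200000a00c03e411))) (.br (Nat.shiftLeft (nat_lit 0x1000005006021) (nat_lit 64)) (.one (nat_lit 0x1000005006020200000a00c040411)) (.one (nat_lit 0x1000005006021200000a00c042411)))))) (.br (Nat.shiftLeft (nat_lit 0x180000200301) (nat_lit 69)) (.br (Nat.shiftLeft (nat_lit 0x2000005) (nat_lit 88)) (.br (Nat.shiftLeft (nat_lit 0x100000200301) (nat_lit 69)) (.one (nat_lit 0x200000400601f400000800c03e411)) (.br (Nat.shiftLeft (nat_lit 0x2000004006021) (nat_lit 64)) (.one (nat_lit 0x2000004006020400000800c040411)) (.one (nat_lit 0x2000004006021400000800c042411)))) (.br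 (Nat.shiftLeft (nat_lit 0x2000005006021) (nat_lit 64)) (.br (Nat.shiftLeft (nat_lit 0x100000280301) (nat_lit 69)) (.one (nat_lit 0x200000500601f400000a00c03e411)) (.one (nat_lit 0x2000005006020400000a00c040411))) (.br (Nat.shiftLeft (nat_lit 0x3) (nat_lit 112)) (.one (nat_lit 0x2000005006021400000a00c042411)) (.one (nat_lit 0x300000400601f600000800c03e411))))) (.br (Nat.shiftLeft (nat_lit 0x3000005006021) (nat_lit 64)) (.br (Nat.shiftLeft (nat_lit 0x3000005) (nat_lit 88)) (.br (Nat.shiftLeft (nat_lit 0x3000004006021) (nat_lit 64)) (.one (nat_lit 0x3000004006020600000800c040411)) (.one (nat_lit 0x3000004006021600000800c042411))) (.br (Nat.shiftLeft (nat_lit 0x180000280301) (nat_lit 69)) (.one (nat_lit 0x300000500601f600000a00c03e411)) (.one (nat_lit 0x3000005006020600000a00c040411)))) (.br (Nat.shiftLeft (nat_lit 0x200000200301) (nat_lit 69)) (.br (Nat.shiftLeft (nat_lit 0x1) (nat_lit 114)) (.one (nat_lit 0x3000005006021600000a00c042411)) (.one (nat_lit 0x400000400601f800000800c03e411))) (.br (Nat.shiftLeft (nat_lit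 0x4000004006021) (nat_lit 64)) (.one (nat_lit 0x4000004006020800000800c040411)) (.one (nat_lit 0x4000004006021800000800c042411)))))))
def t387 : k387.all (jb2 57 fl b0) = true := by decide +kernel
noncomputable def k388 : KT := (.br (Nat.shiftLeft (nat_lit 0x280000280301) (nat_lit 69)) (.br (Nat.shiftLeft (nat_lit 0x5) (nat_lit 112)) (.br (Nat.shiftLeft (nat_lit 0x200000280301) (nat_lit 69)) (.one (nat_lit 0x400000500601f800000a00c03e411)) (.br (Nat.shiftLeft (nat_lit 0x4000005006021) (nat_lit 64)) (.one (nat_lit 0x4000005006020800000a00c040411)) (.one (nat_lit 0x4000005006021800000a00c042411)))) (.br (Nat.shiftLeft (nat_lit 0x5000004006021) (nat_lit 64)) (.br (Nat.shiftLeft (nat_lit 0x280000200301) (nat_lit 69)) (.one (nat_lit 0x500000400601fa00000800c03e411)) (.one (nat_lit 0x5000004006020a00000800c040411))) (.br (Nat.shiftLeft (nat_lit 0x5000005) (nat_lit 88)) (.one (nat_lit 0x5000004006021a00000800c042411)) (.one (nat_lit 0x500000500601fa00000a00c03e411))))) (.br (Nat.shiftLeft (nat_lit 0x6000004006021) (nat_lit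 64)) (.br (Nat.shiftLeft (nat_lit 0x3) (nat_lit 113)) (.br (Nat.shiftLeft (nat_lit 0x5000005006021) (nat_lit 64)) (.one (nat_lit 0x5000005006020a00000a00c040411)) (.one (nat_lit 0x5000005006021a00000a00c042411))) (.br (Nat.shiftLeft (nat_lit 0x300000200301) (nat_lit 69)) (.one (nat_lit 0x600000400601fc00000800c03e411)) (.one (nat_lit 0x6000004006020c00000800c040411)))) (.br (Nat.shiftLeft (nat_lit 0x300000280301) (nat_lit 69)) (.br (Nat.shiftLeft (nat_lit 0x6000005) (nat_lit 88)) (.one (nat_lit 0x6000004006021c00000800c042411)) (.one (nat_lit 0x600000500601fc00000a00c03e411))) (.br (Nat.shiftLeft (nat_lit 0x6000005006021) (nat_lit 64)) (.one (nat_lit 0x6000005006020c00000a00c040411)) (.one (nat_lit 0x6000005006021c00000a00c042411))))))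
def t388 : k388.all (jb2 57 fl b0) = true := by decide +kernel
noncomputable def s19 : KT := (.br (nat_lit 0x3000006021000600000c042311) (.br (nat_lit 0x100400601f000200800c03e540) (.br (nat_lit 0x300601f000000600c03e430) (.br (nat_lit 0x2006021000000400c042430) k373 k374) (.br (nat_lit 0x3006020000000600c040430) k375 k376)) (.br (nat_lit 0x2004006020000400800c040540) (.br (nat_lit 0x1005006021000200a00c042540) k377 k378) (.br (nat_lit 0x200500601f000400a00c03e540) k379 k380))) (.br (nat_lit 0x300500601f000600a00c03e540) (.br (nat_lit 0x3004006020000600800c040540) (.br (nat_lit 0x300400601f000600800c03e540) k381 k382) (.br (nat_lit 0x3004006021000600800c042540) k383 k384)) (.br (nat_lit 0x400500601f000800a00c03e540) (.br (nat_lit 0x4000006021000800000c042311) k385 k386) (.br (nat_lit 0x4000004006021800000800c042411) k387 k388))))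
noncomputable def u19 : KT := (.br (Nat.shiftLeft (nat_lit 0x6021) (nat_lit 64)) (.br (Nat.shiftLeft (nat_lit 0x301) (nat_lit 69)) (.one (nat_lit 0x601f000000000c03e320)) (.one (nat_lit 0x6020000000000c040320))) (.br (Nat.shiftLeft (nat_lit 0x7) (nat_lit 76)) (.one (nat_lit 0x6021000000000c042320)) (.one (nat_lit 0x7019000000000e033300))))
def w19 : u19.all (wj 57 s19) = true := by decide +kernel
def o19 : OkW 57 (jb2 57 fl) u19 := .lift s19 _ (.br _ _ _ (.br _ _ _ (.br _ _ _ (.br _ _ _ (.leaf b0 k373 t373) (.leaf b0 k374 t374)) (.br _ _ _ (.leaf b0 k375 t375) (.leaf b0 k376 t376))) (.br _ _ _ (.br _ _ _ (.leaf b0 k377 t377) (.leaf b0 k378 t378)) (.br _ _ _ (.leaf b0 k379 t379) (.leaf b0 k380 t380)))) (.br _ _ _ (.br _ _ _ (.br _ _ _ (.leaf b0 k381 t381) (.leaf b0 k382 t382)) (.br _ _ _ (.leaf b0 k383 t383) (.leaf b0 k384 t384))) (.br _ _ _ (.br _ _ _ (.leaf b0 k385 t385) (.leaf b0 k386 t386)) (.br _ _ _ (.leaf b0 k387 t387) (.leaf b0 k388 t388))))) w19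
noncomputable def k389 : KT := (.br (Nat.shiftLeft (nat_lit 0x1) (nat_lit 88)) (.one (nat_lit 0x701a000000000e035300)) (.br (Nat.shiftLeft (nat_lit 0x1) (nat_lit 89)) (.one (nat_lit 0x100701a000000200e034430)) (.one (nat_lit 0x200701a000000400e034430))))
def t389 : k389.all (jb2 57 fl b0) = true := by decide +kernel
noncomputable def k390 : KT := (.br (Nat.shiftLeft (nat_lit 0x1) (nat_lit 90)) (.one (nat_lit 0x300701a000000600e034430)) (.one (nat_lit 0x400701a000000800e035400)))
def t390 : k390.all (jb2 57 fl b0) = true := by decide +kernel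
noncomputable def k391 : KT := (.br (Nat.shiftLeft (nat_lit 0x1) (nat_lit 100)) (.br (Nat.shiftLeft (nat_lit 0x3) (nat_lit 89)) (.one (nat_lit 0x500701a000000a00e035400)) (.one (nat_lit 0x600701a000000c00e035400))) (.br (Nat.shiftLeft (nat_lit 0x401) (nat_lit 90)) (.one (nat_lit 0x100000701a000200000e034311)) (.br (Nat.shiftLeft (nat_lit 0x1005) (nat_lit 88)) (.one (nat_lit 0x100400701a000200800e034540)) (.one (nat_lit 0x100500701a000200a00e034540)))))
def t391 : k391.all (jb2 57 fl b0) = true := by decide +kernel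
noncomputable def k392 : KT := (.br (Nat.shiftLeft (nat_lit 0x1) (nat_lit 102)) (.br (Nat.shiftLeft (nat_lit 0x1003) (nat_lit 89)) (.br (Nat.shiftLeft (nat_lit 0x801) (nat_lit 90)) (.br (Nat.shiftLeft (nat_lit 0x1) (nat_lit 101)) (.one (nat_lit 0x100600701a000200c00e034540)) (.one (nat_lit 0x200000701a000400000e034311))) (.br (Nat.shiftLeft (nat_lit 0x2005) (nat_lit 88)) (.one (nat_lit 0x200400701a000400800e035500)) (.one (nat_lit 0x200500701a000400a00e035500)))) (.br (Nat.shiftLeft (nat_lit 0xc01) (nat_lit 90)) (.br (Nat.shiftLeft (nat_lit 0x3) (nat_lit 100)) (.one (nat_lit 0x200600701a000400c00e035500)) (.one (nat_lit 0x300000701a000600000e034311))) (.br (Nat.shiftLeft (nat_lit 0x3005) (nat_lit 88)) (.one (nat_lit 0x300400701a000600800e035500)) (.br (Nat.shiftLeft (nat_lit 0x1803) (nat_lit 89)) (.one (nat_lit 0x300500701a000600a00e035500)) (.one (nat_lit 0x300600701a000600c00e035500)))))) (.br (Nat.shiftLeft (nat_lit 0x3) (nat_lit 101)) (.br (Nat.shiftLeft (nat_lit 0x2003) (nat_lit 89)) (.br (Nat.shiftLeft (nat_lit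 0x1001) (nat_lit 90)) (.one (nat_lit 0x400000701a000800000e034311)) (.one (nat_lit 0x400500701a000800a00e035500))) (.br (Nat.shiftLeft (nat_lit 0x5) (nat_lit 100)) (.one (nat_lit 0x400600701a000800c00e035500)) (.br (Nat.shiftLeft (nat_lit 0x1401) (nat_lit 90)) (.one (nat_lit 0x500000701a000a00000e034311)) (.one (nat_lit 0x500600701a000a00c00e035500))))) (.br (Nat.shiftLeft (nat_lit 0x1) (nat_lit 112)) (.br (Nat.shiftLeft (nat_lit 0x7) (nat_lit 100)) (.one (nat_lit 0x600000701a000c00000e034311)) (.one (nat_lit 0x700000701a000e00000e034311))) (.br (Nat.shiftLeft (nat_lit 0x1000005) (nat_lit 88)) (.one (nat_lit 0x100000400701a200000800e034411)) (.br (Nat.shiftLeft (nat_lit 0x800003) (nat_lit 89)) (.one (nat_lit 0x100000500701a200000a00e034411)) (.one (nat_lit 0x100000600701a200000c00e034411)))))))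
def t392 : k392.all (jb2 57 fl b0) = true := by decide +kernel
noncomputable def k393 : KT := (.one (nat_lit 0x100200400701a200400800e034650))
def t393 : k393.all (jb2 57 fl b0) = true := by decide +kernel
noncomputable def k394 : KT := (.one (nat_lit 0x100200500701a200400a00e034650))
def t394 : k394.all (jb2 57 fl b0) = true := by decide +kernel
noncomputable def k395 : KT := (.one (nat_lit 0x100200600701a200400c00e034650))
def t395 : k395.all (jb2 57 fl b0) = true := by decide +kernel
noncomputable def k396 : KT := (.one (nat_lit 0x100300400701a200600800e034650))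
def t396 : k396.all (jb2 57 fl b0) = true := by decide +kernel
noncomputable def k397 : KT := (.br (Nat.shiftLeft (nat_lit 0x801803) (nat_lit 89)) (.one (nat_lit 0x100300500701a200600a00e034650)) (.one (nat_lit 0x100300600701a200600c00e034650)))
def t397 : k397.all (jb2 57 fl b0) = true := by decide +kernel
noncomputable def k398 : KT := (.br (Nat.shiftLeft (nat_lit 0x802003) (nat_lit 89)) (.one (nat_lit 0x100400500701a200800a00e034650)) (.one (nat_lit 0x100400600701a200800c00e034650)))
def t398 : k398.all (jb2 57 fl b0) = true := by decide +kernel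
noncomputable def k399 : KT := (.br (Nat.shiftLeft (nat_lit 0x2000005) (nat_lit 88)) (.br (Nat.shiftLeft (nat_lit 0x1) (nat_lit 113)) (.one (nat_lit 0x100500600701a200a00c00e034650)) (.one (nat_lit 0x200000400701a400000800e034411))) (.br (Nat.shiftLeft (nat_lit 0x1000003) (nat_lit 89)) (.one (nat_lit 0x200000500701a400000a00e034411)) (.one (nat_lit 0x200000600701a400000c00e034411))))
def t399 : k399.all (jb2 57 fl b0) = true := by decide +kernel
noncomputable def k400 : KT := (.one (nat_lit 0x200300400701a400600800e034650))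
def t400 : k400.all (jb2 57 fl b0) = true := by decide +kernel
noncomputable def k401 : KT := (.one (nat_lit 0x200300500701a400600a00e034650))
def t401 : k401.all (jb2 57 fl b0) = true := by decide +kernel
noncomputable def k402 : KT := (.one (nat_lit 0x200300600701a400600c00e034650))
def t402 : k402.all (jb2 57 fl b0) = true := by decide +kernel
noncomputable def k403 : KT := (.one (nat_lit 0x200400500701a400800a00e034650))
def t403 : k403.all (jb2 57 fl b0) = true := by decide +kernel
noncomputable def k404 : KT := (.br (Nat.shiftLeft (nat_lit 0x3) (nat_lit 112)) (.br (Nat.shiftLeft (nat_lit 0x2005) (nat_lit 100)) (.one (nat_lit 0x200400600701a400800c00e034650)) (.one (nat_lit 0x200500600701a400a00c00e034650))) (.br (Nat.shiftLeft (nat_lit 0x3000005) (nat_lit 88)) (.one (nat_lit 0x300000400701a600000800e034411)) (.br (Nat.shiftLeft (nat_lit 0x1800003) (nat_lit 89)) (.one (nat_lit 0x300000500701a600000a00e034411)) (.one (nat_lit 0x300000600701a600000c00e034411)))))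
def t404 : k404.all (jb2 57 fl b0) = true := by decide +kernel
noncomputable def k405 : KT := (.one (nat_lit 0x300400500701a600800a00e034650))
def t405 : k405.all (jb2 57 fl b0) = true := by decide +kernel
noncomputable def k406 : KT := (.br (Nat.shiftLeft (nat_lit 0x1) (nat_lit 114)) (.br (Nat.shiftLeft (nat_lit 0x3005) (nat_lit 100)) (.one (nat_lit 0x300400600701a600800c00e034650)) (.one (nat_lit 0x300500600701a600a00c00e034650))) (.br (Nat.shiftLeft (nat_lit 0x4000005) (nat_lit 88)) (.one (nat_lit 0x400000400701a800000800e034411)) (.br (Nat.shiftLeft (nat_lit 0x2000003) (nat_lit 89)) (.one (nat_lit 0x400000500701a800000a00e034411)) (.one (nat_lit 0x400000600701a800000c00e034411)))))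
def t406 : k406.all (jb2 57 fl b0) = true := by decide +kernel
noncomputable def k407 : KT := (.br (Nat.shiftLeft (nat_lit 0x1000005) (nat_lit 100)) (.br (Nat.shiftLeft (nat_lit 0x3800003) (nat_lit 89)) (.br (Nat.shiftLeft (nat_lit 0x3) (nat_lit 113)) (.br (Nat.shiftLeft (nat_lit 0x5000005) (nat_lit 88)) (.br (Nat.shiftLeft (nat_lit 0x5) (nat_lit 112)) (.one (nat_lit 0x400500600701a800a00c00e034650)) (.one (nat_lit 0x500000400701aa00000800e034411))) (.br (Nat.shiftLeft (nat_lit 0x2800003) (nat_lit 89)) (.one (nat_lit 0x500000500701aa00000a00e034411)) (.one (nat_lit 0x500000600701aa00000c00e034411)))) (.br (Nat.shiftLeft (nat_lit 0x3000003) (nat_lit 89)) (.br (Nat.shiftLeft (nat_lit 0x6000005) (nat_lit 88)) (.one (nat_lit 0x600000400701ac00000800e034411)) (.one (nat_lit 0x600000500701ac00000a00e034411))) (.br (Nat.shiftLeft (nat_lit 0x7) (nat_lit 112)) (.one (nat_lit 0x600000600701ac00000c00e034411)) (.br (Nat.shiftLeft (nat_lit 0x7000005) (nat_lit 88)) (.one (nat_lit 0x700000400701ae00000800e034411)) (.one (nat_lit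 0x700000500701ae00000a00e034411)))))) (.br (Nat.shiftLeft (nat_lit 0x1000003) (nat_lit 100)) (.br (Nat.shiftLeft (nat_lit 0x1000002005) (nat_lit 88)) (.br (Nat.shiftLeft (nat_lit 0x1) (nat_lit 124)) (.one (nat_lit 0x700000600701ae00000c00e034411)) (.one (nat_lit 0x100000200400701a000400802e434511))) (.br (Nat.shiftLeft (nat_lit 0x800001003) (nat_lit 89)) (.one (nat_lit 0x100000200500701a000400a02e434511)) (.one (nat_lit 0x100000200600701a000400c02e434511)))) (.br (Nat.shiftLeft (nat_lit 0x800001803) (nat_lit 89)) (.br (Nat.shiftLeft (nat_lit 0x1000003005) (nat_lit 88)) (.one (nat_lit 0x100000300400701a000600802e434511)) (.one (nat_lit 0x100000300500701a000600a02e434511))) (.br (Nat.shiftLeft (nat_lit 0x400001) (nat_lit 102)) (.one (nat_lit 0x100000300600701a000600c02e434511)) (.br (Nat.shiftLeft (nat_lit 0x800002003) (nat_lit 89)) (.one (nat_lit 0x100000400500701a000800a02e434511)) (.one (nat_lit 0x100000400600701a000800c02e434511))))))) (.br (Nat.shiftLeft (nat_lit 0x2000005) (nat_lit 100)) (.br (Nat.shiftLeft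 (nat_lit 0x2000003) (nat_lit 100)) (.br (Nat.shiftLeft (nat_lit 0x2000002005) (nat_lit 88)) (.br (Nat.shiftLeft (nat_lit 0x1) (nat_lit 125)) (.one (nat_lit 0x100000500600701a000a00c02e434511)) (.one (nat_lit 0x200000200400701a000400804e834511))) (.br (Nat.shiftLeft (nat_lit 0x1000001003) (nat_lit 89)) (.one (nat_lit 0x200000200500701a000400a04e834511)) (.one (nat_lit 0x200000200600701a000400c04e834511)))) (.br (Nat.shiftLeft (nat_lit 0x1000001803) (nat_lit 89)) (.br (Nat.shiftLeft (nat_lit 0x2000003005) (nat_lit 88)) (.one (nat_lit 0x200000300400701a000600804e834511)) (.one (nat_lit 0x200000300500701a000600a04e834511))) (.br (Nat.shiftLeft (nat_lit 0x800001) (nat_lit 102)) (.one (nat_lit 0x200000300600701a000600c04e834511)) (.br (Nat.shiftLeft (nat_lit 0x1000002003) (nat_lit 89)) (.one (nat_lit 0x200000400500701a000800a04e834511)) (.one (nat_lit 0x200000400600701a000800c04e834511)))))) (.br (Nat.shiftLeft (nat_lit 0x3000003005) (nat_lit 88)) (.br (Nat.shiftLeft (nat_lit 0x3000002005) (nat_lit 88)) (.br (Nat.shiftLeft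 (nat_lit 0x3) (nat_lit 124)) (.one (nat_lit 0x200000500600701a000a00c04e834511)) (.one (nat_lit 0x300000200400701a000400806ec34511))) (.br (Nat.shiftLeft (nat_lit 0x1800001003) (nat_lit 89)) (.one (nat_lit 0x300000200500701a000400a06ec34511)) (.br (Nat.shiftLeft (nat_lit 0x3000003) (nat_lit 100)) (.one (nat_lit 0x300000200600701a000400c06ec34511)) (.one (nat_lit 0x300000300400701a000600806ec34511))))) (.br (Nat.shiftLeft (nat_lit 0xc00001) (nat_lit 102)) (.br (Nat.shiftLeft (nat_lit 0x1800001803) (nat_lit 89)) (.one (nat_lit 0x300000300500701a000600a06ec34511)) (.one (nat_lit 0x300000300600701a000600c06ec34511))) (.br (Nat.shiftLeft (nat_lit 0x1800002003) (nat_lit 89)) (.one (nat_lit 0x300000400500701a000800a06ec34511)) (.br (Nat.shiftLeft (nat_lit 0x3000005) (nat_lit 100)) (.one (nat_lit 0x300000400600701a000800c06ec34511)) (.one (nat_lit 0x300000500600701a000a00c06ec34511))))))))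
def t407 : k407.all (jb2 57 fl b0) = true := by decide +kernel
noncomputable def k408 : KT := (.br (Nat.shiftLeft (nat_lit 0x1000001) (nat_lit 102)) (.br (Nat.shiftLeft (nat_lit 0x4000003) (nat_lit 100)) (.br (Nat.shiftLeft (nat_lit 0x4000002005) (nat_lit 88)) (.one (nat_lit 0x400000200400701a000400808f034511)) (.br (Nat.shiftLeft (nat_lit 0x2000001003) (nat_lit 89)) (.one (nat_lit 0x400000200500701a000400a08f034511)) (.one (nat_lit 0x400000200600701a000400c08f034511)))) (.br (Nat.shiftLeft (nat_lit 0x4000003005) (nat_lit 88)) (.one (nat_lit 0x400000300400701a000600808f034511)) (.br (Nat.shiftLeft (nat_lit 0x2000001803) (nat_lit 89)) (.one (nat_lit 0x400000300500701a000600a08f034511)) (.one (nat_lit 0x400000300600701a000600c08f034511))))) (.br (Nat.shiftLeft (nat_lit 0x5) (nat_lit 124)) (.br (Nat.shiftLeft (nat_lit 0x2000002003) (nat_lit 89)) (.one (nat_lit 0x400000400500701a000800a08f034511)) (.br (Nat.shiftLeft (nat_lit 0x4000005) (nat_lit 100)) (.one (nat_lit 0x400000400600701a000800c08f034511)) (.one (nat_lit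 0x400000500600701a000a00c08f034511)))) (.br (Nat.shiftLeft (nat_lit 0x5000002005) (nat_lit 88)) (.one (nat_lit 0x500000200400701a00040080af434511)) (.br (Nat.shiftLeft (nat_lit 0x2800001003) (nat_lit 89)) (.one (nat_lit 0x500000200500701a000400a0af434511)) (.one (nat_lit 0x500000200600701a000400c0af434511))))))
def t408 : k408.all (jb2 57 fl b0) = true := by decide +kernel
noncomputable def k409 : KT := (.br (Nat.shiftLeft (nat_lit 0x1400001) (nat_lit 102)) (.br (Nat.shiftLeft (nat_lit 0x5000003005) (nat_lit 88)) (.one (nat_lit 0x500000300400701a00060080af434511)) (.br (Nat.shiftLeft (nat_lit 0x2800001803) (nat_lit 89)) (.one (nat_lit 0x500000300500701a000600a0af434511)) (.one (nat_lit 0x500000300600701a000600c0af434511)))) (.br (Nat.shiftLeft (nat_lit 0x5000005) (nat_lit 100)) (.br (Nat.shiftLeft (nat_lit 0x2800002003) (nat_lit 89)) (.one (nat_lit 0x500000400500701a000800a0af434511)) (.one (nat_lit 0x500000400600701a000800c0af434511))) (.br (Nat.shiftLeft (nat_lit 0x3) (nat_lit 125)) (.one (nat_lit 0x500000500600701a000a00c0af434511))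 (.one (nat_lit 0x600000200400701a00040080cf834511)))))
def t409 : k409.all (jb2 57 fl b0) = true := by decide +kernel
noncomputable def k410 : KT := (.br (Nat.shiftLeft (nat_lit 0x6000003005) (nat_lit 88)) (.br (Nat.shiftLeft (nat_lit 0x3000001003) (nat_lit 89)) (.one (nat_lit 0x600000200500701a000400a0cf834511)) (.br (Nat.shiftLeft (nat_lit 0x6000003) (nat_lit 100)) (.one (nat_lit 0x600000200600701a000400c0cf834511)) (.one (nat_lit 0x600000300400701a00060080cf834511)))) (.br (Nat.shiftLeft (nat_lit 0x1800001) (nat_lit 102)) (.br (Nat.shiftLeft (nat_lit 0x3000001803) (nat_lit 89)) (.one (nat_lit 0x600000300500701a000600a0cf834511)) (.one (nat_lit 0x600000300600701a000600c0cf834511))) (.br (Nat.shiftLeft (nat_lit 0x3000002003) (nat_lit 89)) (.one (nat_lit 0x600000400500701a000800a0cf834511)) (.one (nat_lit 0x600000400600701a000800c0cf834511)))))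
def t410 : k410.all (jb2 57 fl b0) = true := by decide +kernel
noncomputable def k411 : KT := (.br (Nat.shiftLeft (nat_lit 0x7000003) (nat_lit 100)) (.br (Nat.shiftLeft (nat_lit 0x7000002005) (nat_lit 88)) (.br (Nat.shiftLeft (nat_lit 0x7) (nat_lit 124)) (.one (nat_lit 0x600000500600701a000a00c0cf834511)) (.one (nat_lit 0x700000200400701a00040080efc34511))) (.br (Nat.shiftLeft (nat_lit 0x3800001003) (nat_lit 89)) (.one (nat_lit 0x700000200500701a000400a0efc34511)) (.one (nat_lit 0x700000200600701a000400c0efc34511)))) (.br (Nat.shiftLeft (nat_lit 0x3800001803) (nat_lit 89)) (.br (Nat.shiftLeft (nat_lit 0x7000003005) (nat_lit 88)) (.one (nat_lit 0x700000300400701a00060080efc34511)) (.one (nat_lit 0x700000300500701a000600a0efc34511))) (.br (Nat.shiftLeft (nat_lit 0x1c00001) (nat_lit 102)) (.one (nat_lit 0x700000300600701a000600c0efc34511)) (.one (nat_lit 0x700000400500701a000800a0efc34511)))))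
def t411 : k411.all (jb2 57 fl b0) = true := by decide +kernel
noncomputable def k412 : KT := (.br (Nat.shiftLeft (nat_lit 0x7000005) (nat_lit 100)) (.one (nat_lit 0x700000400600701a000800c0efc34511)) (.one (nat_lit 0x700000500600701a000a00c0efc34511)))
def t412 : k412.all (jb2 57 fl b0) = true := by decide +kernel
noncomputable def s20 : KT := (.br (nat_lit 0x200300400701a400600800e034650) (.br (nat_lit 0x100200500701a200400a00e034650) (.br (nat_lit 0x100500701a000200a00e034540) (.br (nat_lit 0x200701a000000400e034430) k389 (.br (nat_lit 0x400701a000000800e035400) k390 k391)) (.br (nat_lit 0x100000600701a200000c00e034411) k392 (.br (nat_lit 0x100200400701a200400800e034650) k393 k394))) (.br (nat_lit 0x100300600701a200600c00e034650) (.br (nat_lit 0x100200600701a200400c00e034650) k395 (.br (nat_lit 0x100300400701a200600800e034650) k396 k397)) (.br (nat_lit 0x100400600701a200800c00e034650) k398 (.br (nat_lit 0x200000600701a400000c00e034411) k399 k400)))) (.br (nat_lit 0x400000600701a800000c00e034411) (.br (nat_lit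 0x200400500701a400800a00e034650) (.br (nat_lit 0x200300500701a400600a00e034650) k401 (.br (nat_lit 0x200300600701a400600c00e034650) k402 k403)) (.br (nat_lit 0x300000600701a600000c00e034411) k404 (.br (nat_lit 0x300400500701a600800a00e034650) k405 k406))) (.br (nat_lit 0x600000200400701a00040080cf834511) (.br (nat_lit 0x300000500600701a000a00c06ec34511) k407 (.br (nat_lit 0x500000200600701a000400c0af434511) k408 k409)) (.br (nat_lit 0x600000400600701a000800c0cf834511) k410 (.br (nat_lit 0x700000400500701a000800a0efc34511) k411 k412)))))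
noncomputable def u20 : KT := (.one (nat_lit 0x701a000000000e034320))
def w20 : u20.all (wj 57 s20) = true := by decide +kernel
def o20 : OkW 57 (jb2 57 fl) u20 := .lift s20 _ (.br _ _ _ (.br _ _ _ (.br _ _ _ (.br _ _ _ (.leaf b0 k389 t389) (.br _ _ _ (.leaf b0 k390 t390) (.leaf b0 k391 t391))) (.br _ _ _ (.leaf b0 k392 t392) (.br _ _ _ (.leaf b0 k393 t393) (.leaf b0 k394 t394)))) (.br _ _ _ (.br _ _ _ (.leaf b0 k395 t395) (.br _ _ _ (.leaf b0 k396 t396) (.leaf b0 k397 t397))) (.br _ _ _ (.leaf b0 k398 t398) (.br _ _ _ (.leaf b0 k399 t399) (.leaf b0 k400 t400))))) (.br _ _ _ (.br _ _ _ (.br _ _ _ (.leaf b0 k401 t401) (.br _ _ _ (.leaf b0 k402 t402) (.leaf b0 k403 t403))) (.br _ _ _ (.leaf b0 k404 t404) (.br _ _ _ (.leaf b0 k405 t405) (.leaf b0 k406 t406)))) (.br _ _ _ (.br _ _ _ (.leaf b0 k407 t407) (.br _ _ _ (.leaf b0 k408 t408) (.leaf b0 k409 t409))) (.br _ _ _ (.leaf b0 k410 t410) (.br _ _ _ (.leaf b0 k411 t411) (.leaf b0 k412 t412)))))) w20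
noncomputable def k : KT := (.br (nat_lit 0x5014000000000a028320) (.br (nat_lit 0x2f000000000005e210) (.br (nat_lit 0x220000000000044210) (.br (nat_lit 0x210000000000043200) u0 u1) (.br (nat_lit 0x230000000000046210) u2 (.br (nat_lit 0x25000000000004a210) u3 u4))) (.br (nat_lit 0x5007000000000a00e320) (.br (nat_lit 0x20210000000004042320) u5 u6) (.br (nat_lit 0x500b000000000a016320) u7 (.br (nat_lit 0x500f000000000a01e320) u8 u9)))) (.br (nat_lit 0x6017000000000c02e320) (.br (nat_lit 0x5021000000000a042320) (.br (nat_lit 0x501a000000000a034320) u10 u11) (.br (nat_lit 0x6015000000000c02a320) u12 (.br (nat_lit 0x6016000000000c02c320) u13 u14))) (.br (nat_lit 0x601b000000000c036320) (.br (nat_lit 0x6018000000000c030320) u15 (.br (nat_lit 0x6019000000000c032320) u16 u17)) (.br (nat_lit 0x601e000000000c03c320) u18 (.br (nat_lit 0x7019000000000e033300) u19 u20)))))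
theorem ok : OkW 57 (jb2 57 fl) k := (.br _ _ _ (.br _ _ _ (.br _ _ _ (.br _ _ _ o0 o1) (.br _ _ _ o2 (.br _ _ _ o3 o4))) (.br _ _ _ (.br _ _ _ o5 o6) (.br _ _ _ o7 (.br _ _ _ o8 o9)))) (.br _ _ _ (.br _ _ _ (.br _ _ _ o10 o11) (.br _ _ _ o12 (.br _ _ _ o13 o14))) (.br _ _ _ (.br _ _ _ o15 (.br _ _ _ o16 o17)) (.br _ _ _ o18 (.br _ _ _ o19 o20)))))

end Pool.Agent.Lib.MP_ed43e6_ag.Q.Y57.R0
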