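import Pool.Agent.Lib.MP_ed43e6_ag.Y57.Fl

namespace Pool.Agent.Lib.MP_ed43e6_ag.Q.Y57.R11

set_option linter.defProp false

noncomputable def b0 : BT := .node (nat_lit 1) (nat_lit 0) .leaf .leaf
noncomputable def k0 : KT := (.br (Nat.shiftLeft (nat_lit 0x5) (nat_lit 100)) (.br (Nat.shiftLeft (nat_lit 0x1) (nat_lit 101)) (.br (Nat.shiftLeft (nat_lit 0x1) (nat_lit 100)) (.one (nat_lit 0x600b014000000c016029400)) (.one (nat_lit 0x100600b014000200c016029500))) (.br (Nat.shiftLeft (nat_lit 0x3) (nat_lit 100)) (.one (nat_lit 0x200600b014000400c016029500)) (.br (Nat.shiftLeft (nat_lit 0x1) (nat_lit 102)) (.one (nat_lit 0x300600b014000600c016029500)) (.one (nat_lit 0x400600b014000800c016029500))))) (.br (Nat.shiftLeft (nat_lit 0x801) (nat_lit 101)) (.br (Nat.shiftLeft (nat_lit 0x1) (nat_lit 112)) (.one (nat_lit 0x500600b014000a00c016029500)) (.one (nat_lit 0x100000600b014200000c016028411))) (.br (Nat.shiftLeft (nat_lit 0x1003) (nat_lit 100)) (.one (nat_lit 0x100200600b014200400c016029600)) (.br (Nat.shiftLeft (nat_lit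 0x401) (nat_lit 102)) (.one (nat_lit 0x100300600b014200600c016029600)) (.one (nat_lit 0x100400600b014200800c016028650))))))
def t0 : k0.all (jb2 57 fl b0) = true := by decide +kernel
noncomputable def k1 : KT := (.br (Nat.shiftLeft (nat_lit 0x1001) (nat_lit 101)) (.br (Nat.shiftLeft (nat_lit 0x1) (nat_lit 113)) (.one (nat_lit 0x100500600b014200a00c016028650)) (.one (nat_lit 0x200000600b014400000c016028411))) (.br (Nat.shiftLeft (nat_lit 0x801) (nat_lit 102)) (.one (nat_lit 0x200300600b014400600c016029600)) (.one (nat_lit 0x200400600b014400800c016029600))))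
def t1 : k1.all (jb2 57 fl b0) = true := by decide +kernel
noncomputable def k2 : KT := (.br (Nat.shiftLeft (nat_lit 0x3) (nat_lit 112)) (.one (nat_lit 0x200500600b014400a00c016028650)) (.br (Nat.shiftLeft (nat_lit 0xc01) (nat_lit 102)) (.one (nat_lit 0x300000600b014600000c016028411)) (.one (nat_lit 0x300400600b014600800c016029600))))
def t2 : k2.all (jb2 57 fl b0) = true := by decide +kernel
noncomputable def k3 : KT := (.br (Nat.shiftLeft (nat_lit 0x1) (nat_lit 114)) (.one (nat_lit 0x300500600b014600a00c016028650)) (.one (nat_lit 0x400000600b014800000c016028411)))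
def t3 : k3.all (jb2 57 fl b0) = true := by decide +kernel
noncomputable def k4 : KT := (.br (Nat.shiftLeft (nat_lit 0x3) (nat_lit 113)) (.br (Nat.shiftLeft (nat_lit 0x5) (nat_lit 112)) (.one (nat_lit 0x400500600b014800a00c016028650)) (.one (nat_lit 0x500000600b014a00000c016028411))) (.br (Nat.shiftLeft (nat_lit 0x7) (nat_lit 112)) (.one (nat_lit 0x600000600b014c00000c016028411)) (.br (Nat.shiftLeft (nat_lit 0x1) (nat_lit 115)) (.one (nat_lit 0x700000600b014e00000c016028411)) (.one (nat_lit 0x800000600b014000000c01612a411)))))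
def t4 : k4.all (jb2 57 fl b0) = true := by decide +kernel
noncomputable def k5 : KT := (.br (Nat.shiftLeft (nat_lit 0x800001) (nat_lit 101)) (.br (Nat.shiftLeft (nat_lit 0xb) (nat_lit 112)) (.br (Nat.shiftLeft (nat_lit 0x5) (nat_lit 113)) (.one (nat_lit 0x900000600b014200000c01612a411)) (.one (nat_lit 0xa00000600b014400000c01612a411))) (.br (Nat.shiftLeft (nat_lit 0x1) (nat_lit 124)) (.one (nat_lit 0xb00000600b014600000c01612a411)) (.one (nat_lit 0x100000100600b014000200c036428511)))) (.br (Nat.shiftLeft (nat_lit 0x400001) (nat_lit 102)) (.br (Nat.shiftLeft (nat_lit 0x1000003) (nat_lit 100)) (.one (nat_lit 0x100000200600b014000400c036428511)) (.one (nat_lit 0x100000300600b014000600c036428511))) (.br (Nat.shiftLeft (nat_lit 0x1000005) (nat_lit 100)) (.one (nat_lit 0x100000400600b014000800c036428511)) (.br (Nat.shiftLeft (nat_lit 0x801) (nat_lit 113)) (.one (nat_lit 0x100000500600b014000a00c036428511)) (.one (nat_lit 0x100200300600b014400600c036428760))))))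
noncomputable def b6 : BT := .node (nat_lit 0xb) (nat_lit 0xa284e928a944db684ea4b213a52c6001d2e80065b400212c80055be00196c80065b01ed9a4e52c84e949d13092c8964261000753000158c800753400195080065b2001933073a52724c20010964002ae2065909d24e649c24e49d2001d2e8005630001d4c800563414b19450984db36da24e12c696349ca58d27293927313049d293827513080132d9004c99c00b2d9002cb60003a98000ca7c00ba99002ea6400ba9a004ea6000b2da000ca846db349c2590003a98000cb641006bc005a7005a7005a700491004910043200377003770015000150000f0) .leaf .leaf
def t5 : k5.all (jb2 57 fl b6) = true := by decide +kernel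
noncomputable def k6 : KT := (.br (Nat.shiftLeft (nat_lit 0x1000001) (nat_lit 101)) (.br (Nat.shiftLeft (nat_lit 0x1003) (nat_lit 112)) (.one (nat_lit 0x100200400600b014400800c036428760)) (.br (Nat.shiftLeft (nat_lit 0x1) (nat_lit 125)) (.one (nat_lit 0x100300400600b014600800c036428760)) (.one (nat_lit 0x200000100600b014000200c056828511)))) (.br (Nat.shiftLeft (nat_lit 0x800001) (nat_lit 102)) (.br (Nat.shiftLeft (nat_lit 0x2000003) (nat_lit 100)) (.one (nat_lit 0x200000200600b014000400c056828511)) (.one (nat_lit 0x200000300600b014000600c056828511))) (.br (Nat.shiftLeft (nat_lit 0x2000005) (nat_lit 100)) (.one (nat_lit 0x200000400600b014000800c056828511)) (.one (nat_lit 0x200000500600b014000a00c056828511)))))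
def t6 : k6.all (jb2 57 fl b0) = true := by decide +kernel
noncomputable def k7 : KT := (.br (Nat.shiftLeft (nat_lit 0x1) (nat_lit 126)) (.br (Nat.shiftLeft (nat_lit 0x3000003) (nat_lit 100)) (.br (Nat.shiftLeft (nat_lit 0x3) (nat_lit 124)) (.one (nat_lit 0x200300400600b014600800c056828760)) (.br (Nat.shiftLeft (nat_lit 0x1800001) (nat_lit 101)) (.one (nat_lit 0x300000100600b014000200c076c28511)) (.one (nat_lit 0x300000200600b014000400c076c28511)))) (.br (Nat.shiftLeft (nat_lit 0xc00001) (nat_lit 102)) (.one (nat_lit 0x300000300600b014000600c076c28511)) (.br (Nat.shiftLeft (nat_lit 0x3000005) (nat_lit 100)) (.one (nat_lit 0x300000400600b014000800c076c28511)) (.one (nat_lit 0x300000500600b014000a00c076c28511))))) (.br (Nat.shiftLeft (nat_lit 0x1000001) (nat_lit 102)) (.br (Nat.shiftLeft (nat_lit 0x2000001) (nat_lit 101)) (.one (nat_lit 0x400000100600b014000200c097028511)) (.br (Nat.shiftLeft (nat_lit 0x4000003) (nat_lit 100)) (.one (nat_lit 0x400000200600b014000400c097028511)) (.one (nat_lit 0x400000300600b014000600c097028511))))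 (.br (Nat.shiftLeft (nat_lit 0x4000005) (nat_lit 100)) (.one (nat_lit 0x400000400600b014000800c097028511)) (.br (Nat.shiftLeft (nat_lit 0x5) (nat_lit 124)) (.one (nat_lit 0x400000500600b014000a00c097028511)) (.one (nat_lit 0x500000100600b014000200c0b7428511))))))
def t7 : k7.all (jb2 57 fl b0) = true := by decide +kernel
noncomputable def k8 : KT := (.br (Nat.shiftLeft (nat_lit 0x5000005) (nat_lit 100)) (.br (Nat.shiftLeft (nat_lit 0x5000003) (nat_lit 100)) (.one (nat_lit 0x500000200600b014000400c0b7428511)) (.br (Nat.shiftLeft (nat_lit 0x1400001) (nat_lit 102)) (.one (nat_lit 0x500000300600b014000600c0b7428511)) (.one (nat_lit 0x500000400600b014000800c0b7428511)))) (.br (Nat.shiftLeft (nat_lit 0x3) (nat_lit 125)) (.one (nat_lit 0x500000500600b014000a00c0b7428511)) (.br (Nat.shiftLeft (nat_lit 0x3000001) (nat_lit 101)) (.one (nat_lit 0x600000100600b014000200c0d7828511)) (.one (nat_lit 0x600000200600b014000400c0d7828511)))))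
def t8 : k8.all (jb2 57 fl b0) = true := by decide +kernel
noncomputable def k9 : KT := (.br (Nat.shiftLeft (nat_lit 0x6000005) (nat_lit 100)) (.br (Nat.shiftLeft (nat_lit 0x1800001) (nat_lit 102)) (.one (nat_lit 0x600000300600b014000600c0d7828511)) (.one (nat_lit 0x600000400600b014000800c0d7828511))) (.br (Nat.shiftLeft (nat_lit 0x7) (nat_lit 124)) (.one (nat_lit 0x600000500600b014000a00c0d7828511)) (.br (Nat.shiftLeft (nat_lit 0x3800001) (nat_lit 101)) (.one (nat_lit 0x700000100600b014000200c0f7c28511)) (.one (nat_lit 0x700000200600b014000400c0f7c28511)))))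
def t9 : k9.all (jb2 57 fl b0) = true := by decide +kernel
noncomputable def k10 : KT := (.br (Nat.shiftLeft (nat_lit 0x7000005) (nat_lit 100)) (.br (Nat.shiftLeft (nat_lit 0x1c00001) (nat_lit 102)) (.one (nat_lit 0x700000300600b014000600c0f7c28511)) (.one (nat_lit 0x700000400600b014000800c0f7c28511))) (.br (Nat.shiftLeft (nat_lit 0x1) (nat_lit 127)) (.one (nat_lit 0x700000500600b014000a00c0f7c28511)) (.br (Nat.shiftLeft (nat_lit 0x4000001) (nat_lit 101)) (.one (nat_lit 0x800000100600b014000200c118028511)) (.one (nat_lit 0x800000200600b014000400c118028511)))))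
def t10 : k10.all (jb2 57 fl b0) = true := by decide +kernel
noncomputable def k11 : KT := (.br (Nat.shiftLeft (nat_lit 0x8000005) (nat_lit 100)) (.br (Nat.shiftLeft (nat_lit 0x2000001) (nat_lit 102)) (.one (nat_lit 0x800000300600b014000600c118028511)) (.one (nat_lit 0x800000400600b014000800c118028511))) (.br (Nat.shiftLeft (nat_lit 0x9) (nat_lit 124)) (.one (nat_lit 0x800000500600b014000a00c118028511)) (.br (Nat.shiftLeft (nat_lit 0x4800001) (nat_lit 101)) (.one (nat_lit 0x900000100600b014000200c138428511)) (.one (nat_lit 0x900000200600b014000400c138428511)))))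
noncomputable def b12 : BT := .node (nat_lit 0xb) (nat_lit 0x51426193a5b66db427494512724c22749308980001d31000653a001d4c800463c00210f00055c4001d3080065b426d924e0a2adb349c24dc00421c0008d680032d9000cb6029622759450003a5f000ac6410037b0020b0020b0020b00150001500015000150000f0000f0000f0000f0) .leaf .leaf
def t11 : k11.all (jb2 57 fl b12) = true := by decide +kernel
noncomputable def k12 : KT := (.br (Nat.shiftLeft (nat_lit 0x5000001) (nat_lit 101)) (.br (Nat.shiftLeft (nat_lit 0x9000005) (nat_lit 100)) (.br (Nat.shiftLeft (nat_lit 0x2400001) (nat_lit 102)) (.one (nat_lit 0x900000300600b014000600c138428511)) (.one (nat_lit 0x900000400600b014000800c138428511))) (.br (Nat.shiftLeft (nat_lit 0x5) (nat_lit 125)) (.one (nat_lit 0x900000500600b014000a00c138428511)) (.one (nat_lit 0xa00000100600b014000200c158828511)))) (.br (Nat.shiftLeft (nat_lit 0x2800001) (nat_lit 102)) (.br (Nat.shiftLeft (nat_lit 0xa000003) (nat_lit 100)) (.one (nat_lit 0xa00000200600b014000400c158828511)) (.one (nat_lit 0xa00000300600b014000600c158828511)))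 (.br (Nat.shiftLeft (nat_lit 0xa000005) (nat_lit 100)) (.one (nat_lit 0xa00000400600b014000800c158828511)) (.one (nat_lit 0xa00000500600b014000a00c158828511)))))
noncomputable def b13 : BT := .node (nat_lit 0xb) (nat_lit 0x12c6db349c93a49864c06d913049d2001d4c00065b4001d3100065b2001d4d000463c1cb113a49d200196d00065b20c9ca4e098293826093000132d8002ca8400ba99000cb602003210020b0020b0020b0020b001ab001ab000f0000f0000f0000f0000f0) .leaf .leaf
def t12 : k12.all (jb2 57 fl b13) = true := by decide +kernel
noncomputable def k13 : KT := (.br (Nat.shiftLeft (nat_lit 0x1000001) (nat_lit 113)) (.br (Nat.shiftLeft (nat_lit 0x1000001003) (nat_lit 100)) (.br (Nat.shiftLeft (nat_lit 0x2c00001) (nat_lit 102)) (.br (Nat.shiftLeft (nat_lit 0x5800001) (nat_lit 101)) (.one (nat_lit 0xb00000100600b014000200c178c28511)) (.br (Nat.shiftLeft (nat_lit 0xb000003) (nat_lit 100)) (.one (nat_lit 0xb00000200600b014000400c178c28511)) (.one (nat_lit 0xb00000300600b014000600c178c28511)))) (.br (Nat.shiftLeft (nat_lit 0xb000005) (nat_lit 100))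 (.one (nat_lit 0xb00000400600b014000800c178c28511)) (.br (Nat.shiftLeft (nat_lit 0x1) (nat_lit 136)) (.one (nat_lit 0xb00000500600b014000a00c178c28511)) (.one (nat_lit 0x100000100200600b014200402c416028611))))) (.br (Nat.shiftLeft (nat_lit 0x1000003) (nat_lit 112)) (.br (Nat.shiftLeft (nat_lit 0x800001) (nat_lit 113)) (.one (nat_lit 0x100000100300600b014200602c416028611)) (.br (Nat.shiftLeft (nat_lit 0x400000801) (nat_lit 102)) (.one (nat_lit 0x100000200300600b014400602c416028611)) (.one (nat_lit 0x100000200400600b014400802c416028611)))) (.br (Nat.shiftLeft (nat_lit 0x1) (nat_lit 137)) (.one (nat_lit 0x100000300400600b014600802c416028611)) (.br (Nat.shiftLeft (nat_lit 0x2000001003) (nat_lit 100)) (.one (nat_lit 0x200000100200600b014200404c816028611)) (.one (nat_lit 0x200000100300600b014200604c816028611)))))) (.br (Nat.shiftLeft (nat_lit 0xc00000801) (nat_lit 102)) (.br (Nat.shiftLeft (nat_lit 0x3) (nat_lit 136)) (.br (Nat.shiftLeft (nat_lit 0x800000801) (nat_lit 102)) (.one (nat_lit 0x200000200300600b014400604c816028611))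 (.br (Nat.shiftLeft (nat_lit 0x2000003) (nat_lit 112)) (.one (nat_lit 0x200000200400600b014400804c816028611)) (.one (nat_lit 0x200000300400600b014600804c816028611)))) (.br (Nat.shiftLeft (nat_lit 0x3000001003) (nat_lit 100)) (.one (nat_lit 0x300000100200600b014200406cc16028611)) (.br (Nat.shiftLeft (nat_lit 0x1800001) (nat_lit 113)) (.one (nat_lit 0x300000100300600b014200606cc16028611)) (.one (nat_lit 0x300000200300600b014400606cc16028611))))) (.br (Nat.shiftLeft (nat_lit 0x4000001003) (nat_lit 100)) (.br (Nat.shiftLeft (nat_lit 0x3000003) (nat_lit 112)) (.one (nat_lit 0x300000200400600b014400806cc16028611)) (.br (Nat.shiftLeft (nat_lit 0x1) (nat_lit 138)) (.one (nat_lit 0x300000300400600b014600806cc16028611)) (.one (nat_lit 0x400000100200600b014200408d016028611)))) (.br (Nat.shiftLeft (nat_lit 0x1000000801) (nat_lit 102)) (.br (Nat.shiftLeft (nat_lit 0x2000001) (nat_lit 113)) (.one (nat_lit 0x400000100300600b014200608d016028611)) (.one (nat_lit 0x400000200300600b014400608d016028611))) (.br (Nat.shiftLeft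 (nat_lit 0x4000003) (nat_lit 112)) (.one (nat_lit 0x400000200400600b014400808d016028611)) (.one (nat_lit 0x400000300400600b014600808d016028611)))))))
noncomputable def b14 : BT := .node (nat_lit 0x1) (nat_lit 0x5142611454003a25000cb6810008700028) .leaf .leaf
def t13 : k13.all (jb2 57 fl b14) = true := by decide +kernel
noncomputable def k14 : KT := (.br (Nat.shiftLeft (nat_lit 0x2800001) (nat_lit 113)) (.br (Nat.shiftLeft (nat_lit 0x5000001003) (nat_lit 100)) (.one (nat_lit 0x500000100200600b01420040ad416028611)) (.one (nat_lit 0x500000100300600b01420060ad416028611))) (.br (Nat.shiftLeft (nat_lit 0x1400000801) (nat_lit 102)) (.one (nat_lit 0x500000200300600b01440060ad416028611)) (.br (Nat.shiftLeft (nat_lit 0x5000003) (nat_lit 112)) (.one (nat_lit 0x500000200400600b01440080ad416028611)) (.one (nat_lit 0x500000300400600b01460080ad416028611)))))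
def t14 : k14.all (jb2 57 fl b0) = true := by decide +kernel
noncomputable def k15 : KT := (.br (Nat.shiftLeft (nat_lit 0x3000001) (nat_lit 113)) (.br (Nat.shiftLeft (nat_lit 0x6000001003) (nat_lit 100)) (.one (nat_lit 0x600000100200600b01420040cd816028611)) (.one (nat_lit 0x600000100300600b01420060cd816028611))) (.br (Nat.shiftLeft (nat_lit 0x1800000801) (nat_lit 102)) (.one (nat_lit 0x600000200300600b01440060cd816028611)) (.br (Nat.shiftLeft (nat_lit 0x6000003) (nat_lit 112)) (.one (nat_lit 0x600000200400600b01440080cd816028611)) (.one (nat_lit 0x600000300400600b01460080cd816028611)))))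
def t15 : k15.all (jb2 57 fl b0) = true := by decide +kernel
noncomputable def k16 : KT := (.br (Nat.shiftLeft (nat_lit 0x3800001) (nat_lit 113)) (.br (Nat.shiftLeft (nat_lit 0x7000001003) (nat_lit 100)) (.one (nat_lit 0x700000100200600b01420040edc16028611)) (.one (nat_lit 0x700000100300600b01420060edc16028611))) (.br (Nat.shiftLeft (nat_lit 0x1c00000801) (nat_lit 102)) (.one (nat_lit 0x700000200300600b01440060edc16028611)) (.br (Nat.shiftLeft (nat_lit 0x7000003) (nat_lit 112)) (.one (nat_lit 0x700000200400600b01440080edc16028611)) (.one (nat_lit 0x700000300400600b01460080edc16028611)))))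
def t16 : k16.all (jb2 57 fl b0) = true := by decide +kernel
noncomputable def k17 : KT := (.br (Nat.shiftLeft (nat_lit 0x2000000801) (nat_lit 102)) (.br (Nat.shiftLeft (nat_lit 0x8000001003) (nat_lit 100)) (.one (nat_lit 0x800000100200600b014200410e016028611)) (.br (Nat.shiftLeft (nat_lit 0x4000001) (nat_lit 113)) (.one (nat_lit 0x800000100300600b014200610e016028611)) (.one (nat_lit 0x800000200300600b014400610e016028611)))) (.br (Nat.shiftLeft (nat_lit 0x9) (nat_lit 136)) (.br (Nat.shiftLeft (nat_lit 0x8000003) (nat_lit 112)) (.one (nat_lit 0x800000200400600b014400810e016028611)) (.one (nat_lit 0x800000300400600b014600810e016028611))) (.br (Nat.shiftLeft (nat_lit 0x9000001003) (nat_lit 100)) (.one (nat_lit 0x900000100200600b014200412e416028611)) (.one (nat_lit 0x900000100300600b014200612e416028611)))))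
def t17 : k17.all (jb2 57 fl b0) = true := by decide +kernel
noncomputable def k18 : KT := (.br (Nat.shiftLeft (nat_lit 0x2800000801) (nat_lit 102)) (.br (Nat.shiftLeft (nat_lit 0x5) (nat_lit 137)) (.br (Nat.shiftLeft (nat_lit 0x2400000801) (nat_lit 102)) (.one (nat_lit 0x900000200300600b014400612e416028611)) (.br (Nat.shiftLeft (nat_lit 0x9000003) (nat_lit 112)) (.one (nat_lit 0x900000200400600b014400812e416028611)) (.one (nat_lit 0x900000300400600b014600812e416028611)))) (.br (Nat.shiftLeft (nat_lit 0xa000001003) (nat_lit 100)) (.one (nat_lit 0xa00000100200600b014200414e816028611)) (.br (Nat.shiftLeft (nat_lit 0x5000001) (nat_lit 113)) (.one (nat_lit 0xa00000100300600b014200614e816028611)) (.one (nat_lit 0xa00000200300600b014400614e816028611))))) (.br (Nat.shiftLeft (nat_lit 0xb000001003) (nat_lit 100)) (.br (Nat.shiftLeft (nat_lit 0xa000003) (nat_lit 112)) (.one (nat_lit 0xa00000200400600b014400814e816028611)) (.br (Nat.shiftLeft (nat_lit 0xb) (nat_lit 136)) (.one (nat_lit 0xa00000300400600b014600814e816028611))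 (.one (nat_lit 0xb00000100200600b014200416ec16028611)))) (.br (Nat.shiftLeft (nat_lit 0x2c00000801) (nat_lit 102)) (.br (Nat.shiftLeft (nat_lit 0x5800001) (nat_lit 113)) (.one (nat_lit 0xb00000100300600b014200616ec16028611)) (.one (nat_lit 0xb00000200300600b014400616ec16028611))) (.br (Nat.shiftLeft (nat_lit 0xb000003) (nat_lit 112)) (.one (nat_lit 0xb00000200400600b014400816ec16028611)) (.one (nat_lit 0xb00000300400600b014600816ec16028611))))))
def t18 : k18.all (jb2 57 fl b0) = true := by decide +kernel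
noncomputable def s0 : KT := (.br (nat_lit 0x600000200600b014000400c0d7828511) (.br (nat_lit 0x400000600b014800000c016028411) (.br (nat_lit 0x200400600b014400800c016029600) (.br (nat_lit 0x100400600b014200800c016028650) k0 k1) (.br (nat_lit 0x300400600b014600800c016029600) k2 k3)) (.br (nat_lit 0x100200300600b014400600c036428760) (.br (nat_lit 0x800000600b014000000c01612a411) k4 k5) (.br (nat_lit 0x200000500600b014000a00c056828511) k6 (.br (nat_lit 0x500000100600b014000200c0b7428511) k7 k8)))) (.br (nat_lit 0x400000300400600b014600808d016028611) (.br (nat_lit 0x800000200600b014000400c118028511) (.br (nat_lit 0x700000200600b014000400c0f7c28511) k9 k10) (.br (nat_lit 0x900000200600b014000400c138428511) k11 (.br (nat_lit 0xa00000500600b014000a00c158828511) k12 k13))) (.br (nat_lit 0x600000300400600b01460080cd816028611) (.br (nat_lit 0x500000300400600b01460080ad416028611) k14 k15) (.br (nat_lit 0x700000300400600b01460080edc16028611) k16 (.br (nat_lit 0x900000100300600b014200612e416028611) k17 k18)))))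
noncomputable def u0 : KT := (.one (nat_lit 0x600b014000000c016028430))
def w0 : u0.all (wj 57 s0) = true := by decide +kernel
def o0 : OkW 57 (jb2 57 fl) u0 := .lift s0 _ (.br _ _ _ (.br _ _ _ (.br _ _ _ (.br _ _ _ (.leaf b0 k0 t0) (.leaf b0 k1 t1)) (.br _ _ _ (.leaf b0 k2 t2) (.leaf b0 k3 t3))) (.br _ _ _ (.br _ _ _ (.leaf b0 k4 t4) (.leaf b6 k5 t5)) (.br _ _ _ (.leaf b0 k6 t6) (.br _ _ _ (.leaf b0 k7 t7) (.leaf b0 k8 t8))))) (.br _ _ _ (.br _ _ _ (.br _ _ _ (.leaf b0 k9 t9) (.leaf b0 k10 t10)) (.br _ _ _ (.leaf b12 k11 t11) (.br _ _ _ (.leaf b13 k12 t12) (.leaf b14 k13 t13)))) (.br _ _ _ (.br _ _ _ (.leaf b0 k14 t14) (.leaf b0 k15 t15)) (.br _ _ _ (.leaf b0 k16 t16) (.br _ _ _ (.leaf b0 k17 t17) (.leaf b0 k18 t18)))))) w0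
noncomputable def k19 : KT := (.br (Nat.shiftLeft (nat_lit 0x1) (nat_lit 102)) (.br (Nat.shiftLeft (nat_lit 0x1) (nat_lit 101)) (.br (Nat.shiftLeft (nat_lit 0x1) (nat_lit 100)) (.one (nat_lit 0x600b015000000c01602b400)) (.one (nat_lit 0x100600b015000200c01602a540))) (.br (Nat.shiftLeft (nat_lit 0x3) (nat_lit 100)) (.one (nat_lit 0x200600b015000400c01602b500)) (.one (nat_lit 0x300600b015000600c01602b500)))) (.br (Nat.shiftLeft (nat_lit 0x1) (nat_lit 112)) (.br (Nat.shiftLeft (nat_lit 0x5) (nat_lit 100)) (.one (nat_lit 0x400600b015000800c01602b500)) (.one (nat_lit 0x500600b015000a00c01602b500))) (.br (Nat.shiftLeft (nat_lit 0x801) (nat_lit 101)) (.one (nat_lit 0x100000600b015200000c01602a411)) (.one (nat_lit 0x100200600b015200400c01602b600)))))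
def t19 : k19.all (jb2 57 fl b0) = true := by decide +kernel
noncomputable def k20 : KT := (.one (nat_lit 0x100300600b015200600c01602a650))
def t20 : k20.all (jb2 57 fl b0) = true := by decide +kernel
noncomputable def k21 : KT := (.one (nat_lit 0x100400600b015200800c01602a650))
def t21 : k21.all (jb2 57 fl b0) = true := by decide +kernel
noncomputable def k22 : KT := (.br (Nat.shiftLeft (nat_lit 0x1) (nat_lit 113)) (.one (nat_lit 0x100500600b015200a00c01602a650)) (.br (Nat.shiftLeft (nat_lit 0x1001) (nat_lit 101)) (.one (nat_lit 0x200000600b015400000c01602a411)) (.one (nat_lit 0x200300600b015400600c01602b600))))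
def t22 : k22.all (jb2 57 fl b0) = true := by decide +kernel
noncomputable def k23 : KT := (.one (nat_lit 0x200400600b015400800c01602a650))
def t23 : k23.all (jb2 57 fl b0) = true := by decide +kernel
noncomputable def k24 : KT := (.br (Nat.shiftLeft (nat_lit 0x3) (nat_lit 112)) (.one (nat_lit 0x200500600b015400a00c01602a650)) (.one (nat_lit 0x300000600b015600000c01602a411)))
def t24 : k24.all (jb2 57 fl b0) = true := by decide +kernel
noncomputable def k25 : KT := (.one (nat_lit 0x300400600b015600800c01602a650))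
def t25 : k25.all (jb2 57 fl b0) = true := by decide +kernel
noncomputable def k26 : KT := (.br (Nat.shiftLeft (nat_lit 0x1) (nat_lit 114)) (.one (nat_lit 0x300500600b015600a00c01602a650)) (.one (nat_lit 0x400000600b015800000c01602a411)))
def t26 : k26.all (jb2 57 fl b0) = true := by decide +kernel
noncomputable def k27 : KT := (.br (Nat.shiftLeft (nat_lit 0x5) (nat_lit 113)) (.br (Nat.shiftLeft (nat_lit 0x7) (nat_lit 112)) (.br (Nat.shiftLeft (nat_lit 0x5) (nat_lit 112)) (.one (nat_lit 0x400500600b015800a00c01602a650)) (.br (Nat.shiftLeft (nat_lit 0x3) (nat_lit 113)) (.one (nat_lit 0x500000600b015a00000c01602a411)) (.one (nat_lit 0x600000600b015c00000c01602a411)))) (.br (Nat.shiftLeft (nat_lit 0x1) (nat_lit 115)) (.one (nat_lit 0x700000600b015e00000c01602a411)) (.br (Nat.shiftLeft (nat_lit 0x9) (nat_lit 112)) (.one (nat_lit 0x800000600b015000000c01612c411)) (.one (nat_lit 0x900000600b015200000c01612c411))))) (.br (Nat.shiftLeft (nat_lit 0x1000003) (nat_lit 100)) (.br (Nat.shiftLeft (nat_lit 0xb) (nat_lit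 112)) (.one (nat_lit 0xa00000600b015400000c01612c411)) (.br (Nat.shiftLeft (nat_lit 0x1) (nat_lit 124)) (.one (nat_lit 0xb00000600b015600000c01612c411)) (.one (nat_lit 0x100000200600b015000400c03642a511)))) (.br (Nat.shiftLeft (nat_lit 0x400001) (nat_lit 102)) (.one (nat_lit 0x100000300600b015000600c03642a511)) (.br (Nat.shiftLeft (nat_lit 0x1000005) (nat_lit 100)) (.one (nat_lit 0x100000400600b015000800c03642a511)) (.one (nat_lit 0x100000500600b015000a00c03642a511))))))
noncomputable def b28 : BT := .node (nat_lit 0xb) (nat_lit 0x4b1b6cd2c6001d4c80075300cb1b6d0a2a4e66da36d0003a99004ac6801c259006cb6420020b0020b0020b0020b0020b0020b001ab001ab001ab001ab001ab000f0) .leaf .leaf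
def t27 : k27.all (jb2 57 fl b28) = true := by decide +kernel
noncomputable def k28 : KT := (.br (Nat.shiftLeft (nat_lit 0xc00001) (nat_lit 102)) (.br (Nat.shiftLeft (nat_lit 0x800001) (nat_lit 102)) (.br (Nat.shiftLeft (nat_lit 0x1) (nat_lit 125)) (.one (nat_lit 0x100200300600b015400600c03642a760)) (.br (Nat.shiftLeft (nat_lit 0x2000003) (nat_lit 100)) (.one (nat_lit 0x200000200600b015000400c05682a511)) (.one (nat_lit 0x200000300600b015000600c05682a511)))) (.br (Nat.shiftLeft (nat_lit 0x3) (nat_lit 124)) (.br (Nat.shiftLeft (nat_lit 0x2000005) (nat_lit 100)) (.one (nat_lit 0x200000400600b015000800c05682a511)) (.one (nat_lit 0x200000500600b015000a00c05682a511))) (.br (Nat.shiftLeft (nat_lit 0x3000003) (nat_lit 100)) (.one (nat_lit 0x300000200600b015000400c076c2a511)) (.one (nat_lit 0x300000300600b015000600c076c2a511))))) (.br (Nat.shiftLeft (nat_lit 0x4000003) (nat_lit 100)) (.br (Nat.shiftLeft (nat_lit 0x3000005) (nat_lit 100)) (.one (nat_lit 0x300000400600b015000800c076c2a511)) (.br (Nat.shiftLeft (nat_lit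 0x1) (nat_lit 126)) (.one (nat_lit 0x300000500600b015000a00c076c2a511)) (.one (nat_lit 0x400000200600b015000400c09702a511)))) (.br (Nat.shiftLeft (nat_lit 0x4000005) (nat_lit 100)) (.br (Nat.shiftLeft (nat_lit 0x1000001) (nat_lit 102)) (.one (nat_lit 0x400000300600b015000600c09702a511)) (.one (nat_lit 0x400000400600b015000800c09702a511))) (.br (Nat.shiftLeft (nat_lit 0x5) (nat_lit 124)) (.one (nat_lit 0x400000500600b015000a00c09702a511)) (.one (nat_lit 0x500000200600b015000400c0b742a511))))))
def t28 : k28.all (jb2 57 fl b0) = true := by decide +kernel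
noncomputable def k29 : KT := (.br (Nat.shiftLeft (nat_lit 0x3) (nat_lit 125)) (.br (Nat.shiftLeft (nat_lit 0x1400001) (nat_lit 102)) (.one (nat_lit 0x500000300600b015000600c0b742a511)) (.br (Nat.shiftLeft (nat_lit 0x5000005) (nat_lit 100)) (.one (nat_lit 0x500000400600b015000800c0b742a511)) (.one (nat_lit 0x500000500600b015000a00c0b742a511)))) (.br (Nat.shiftLeft (nat_lit 0x1800001) (nat_lit 102)) (.br (Nat.shiftLeft (nat_lit 0x6000003) (nat_lit 100)) (.one (nat_lit 0x600000200600b015000400c0d782a511)) (.one (nat_lit 0x600000300600b015000600c0d782a511))) (.br (Nat.shiftLeft (nat_lit 0x6000005) (nat_lit 100)) (.one (nat_lit 0x600000400600b015000800c0d782a511)) (.one (nat_lit 0x600000500600b015000a00c0d782a511)))))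
def t29 : k29.all (jb2 57 fl b0) = true := by decide +kernel
noncomputable def k30 : KT := (.br (Nat.shiftLeft (nat_lit 0x7000005) (nat_lit 100)) (.br (Nat.shiftLeft (nat_lit 0x7000003) (nat_lit 100)) (.one (nat_lit 0x700000200600b015000400c0f7c2a511)) (.br (Nat.shiftLeft (nat_lit 0x1c00001) (nat_lit 102)) (.one (nat_lit 0x700000300600b015000600c0f7c2a511)) (.one (nat_lit 0x700000400600b015000800c0f7c2a511)))) (.br (Nat.shiftLeft (nat_lit 0x8000003) (nat_lit 100)) (.br (Nat.shiftLeft (nat_lit 0x1) (nat_lit 127)) (.one (nat_lit 0x700000500600b015000a00c0f7c2a511)) (.one (nat_lit 0x800000200600b015000400c11802a511))) (.br (Nat.shiftLeft (nat_lit 0x2000001) (nat_lit 102)) (.one (nat_lit 0x800000300600b015000600c11802a511)) (.one (nat_lit 0x800000400600b015000800c11802a511)))))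
def t30 : k30.all (jb2 57 fl b0) = true := by decide +kernel
noncomputable def k31 : KT := (.br (Nat.shiftLeft (nat_lit 0xb000003) (nat_lit 100)) (.br (Nat.shiftLeft (nat_lit 0x5) (nat_lit 125)) (.br (Nat.shiftLeft (nat_lit 0x9000003) (nat_lit 100)) (.br (Nat.shiftLeft (nat_lit 0x9) (nat_lit 124)) (.one (nat_lit 0x800000500600b015000a00c11802a511)) (.one (nat_lit 0x900000200600b015000400c13842a511))) (.br (Nat.shiftLeft (nat_lit 0x2400001) (nat_lit 102)) (.one (nat_lit 0x900000300600b015000600c13842a511)) (.br (Nat.shiftLeft (nat_lit 0x9000005) (nat_lit 100)) (.one (nat_lit 0x900000400600b015000800c13842a511)) (.one (nat_lit 0x900000500600b015000a00c13842a511))))) (.br (Nat.shiftLeft (nat_lit 0x2800001) (nat_lit 102)) (.br (Nat.shiftLeft (nat_lit 0xa000003) (nat_lit 100)) (.one (nat_lit 0xa00000200600b015000400c15882a511)) (.one (nat_lit 0xa00000300600b015000600c15882a511))) (.br (Nat.shiftLeft (nat_lit 0xa000005) (nat_lit 100)) (.one (nat_lit 0xa00000400600b015000800c15882a511)) (.br (Nat.shiftLeft (nat_lit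 0xb) (nat_lit 124)) (.one (nat_lit 0xa00000500600b015000a00c15882a511)) (.one (nat_lit 0xb00000200600b015000400c178c2a511)))))) (.br (Nat.shiftLeft (nat_lit 0x1) (nat_lit 137)) (.br (Nat.shiftLeft (nat_lit 0xb000005) (nat_lit 100)) (.br (Nat.shiftLeft (nat_lit 0x2c00001) (nat_lit 102)) (.one (nat_lit 0xb00000300600b015000600c178c2a511)) (.one (nat_lit 0xb00000400600b015000800c178c2a511))) (.br (Nat.shiftLeft (nat_lit 0x1) (nat_lit 136)) (.one (nat_lit 0xb00000500600b015000a00c178c2a511)) (.br (Nat.shiftLeft (nat_lit 0x800001) (nat_lit 113)) (.one (nat_lit 0x100000100200600b015200402c41602a611)) (.one (nat_lit 0x100000200300600b015400602c41602a611))))) (.br (Nat.shiftLeft (nat_lit 0x3) (nat_lit 136)) (.br (Nat.shiftLeft (nat_lit 0x1000001) (nat_lit 113)) (.one (nat_lit 0x200000100200600b015200404c81602a611)) (.one (nat_lit 0x200000200300600b015400604c81602a611))) (.br (Nat.shiftLeft (nat_lit 0x1800001) (nat_lit 113)) (.one (nat_lit 0x300000100200600b015200406cc1602a611)) (.br (Nat.shiftLeft (nat_lit 0x1)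 (nat_lit 138)) (.one (nat_lit 0x300000200300600b015400606cc1602a611)) (.one (nat_lit 0x400000100200600b015200408d01602a611)))))))
def t31 : k31.all (jb2 57 fl b0) = true := by decide +kernel
noncomputable def k32 : KT := (.br (Nat.shiftLeft (nat_lit 0x3) (nat_lit 137)) (.br (Nat.shiftLeft (nat_lit 0x5) (nat_lit 136)) (.one (nat_lit 0x400000200300600b015400608d01602a611)) (.br (Nat.shiftLeft (nat_lit 0x2800001) (nat_lit 113)) (.one (nat_lit 0x500000100200600b01520040ad41602a611)) (.one (nat_lit 0x500000200300600b01540060ad41602a611)))) (.br (Nat.shiftLeft (nat_lit 0x7) (nat_lit 136)) (.br (Nat.shiftLeft (nat_lit 0x3000001) (nat_lit 113)) (.one (nat_lit 0x600000100200600b01520040cd81602a611)) (.one (nat_lit 0x600000200300600b01540060cd81602a611))) (.br (Nat.shiftLeft (nat_lit 0x3800001) (nat_lit 113)) (.one (nat_lit 0x700000100200600b01520040edc1602a611)) (.one (nat_lit 0x700000200300600b01540060edc1602a611)))))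
def t32 : k32.all (jb2 57 fl b0) = true := by decide +kernel
noncomputable def k33 : KT := (.br (Nat.shiftLeft (nat_lit 0x5) (nat_lit 137)) (.br (Nat.shiftLeft (nat_lit 0x9) (nat_lit 136)) (.br (Nat.shiftLeft (nat_lit 0x4000001) (nat_lit 113)) (.one (nat_lit 0x800000100200600b015200410e01602a611)) (.one (nat_lit 0x800000200300600b015400610e01602a611))) (.br (Nat.shiftLeft (nat_lit 0x4800001) (nat_lit 113)) (.one (nat_lit 0x900000100200600b015200412e41602a611)) (.one (nat_lit 0x900000200300600b015400612e41602a611)))) (.br (Nat.shiftLeft (nat_lit 0xb) (nat_lit 136)) (.br (Nat.shiftLeft (nat_lit 0x5000001) (nat_lit 113)) (.one (nat_lit 0xa00000100200600b015200414e81602a611)) (.one (nat_lit 0xa00000200300600b015400614e81602a611))) (.br (Nat.shiftLeft (nat_lit 0x5800001) (nat_lit 113)) (.one (nat_lit 0xb00000100200600b015200416ec1602a611)) (.one (nat_lit 0xb00000200300600b015400616ec1602a611)))))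
def t33 : k33.all (jb2 57 fl b0) = true := by decide +kernel
noncomputable def s1 : KT := (.br (nat_lit 0x300400600b015600800c01602a650) (.br (nat_lit 0x100400600b015200800c01602a650) (.br (nat_lit 0x100200600b015200400c01602b600) k19 (.br (nat_lit 0x100300600b015200600c01602a650) k20 k21)) (.br (nat_lit 0x200400600b015400800c01602a650) (.br (nat_lit 0x200300600b015400600c01602b600) k22 k23) (.br (nat_lit 0x300000600b015600000c01602a411) k24 k25))) (.br (nat_lit 0x600000500600b015000a00c0d782a511) (.br (nat_lit 0x100000500600b015000a00c03642a511) (.br (nat_lit 0x400000600b015800000c01602a411) k26 k27) (.br (nat_lit 0x500000200600b015000400c0b742a511) k28 k29)) (.br (nat_lit 0x400000100200600b015200408d01602a611) (.br (nat_lit 0x800000400600b015000800c11802a511) k30 k31) (.br (nat_lit 0x700000200300600b01540060edc1602a611) k32 k33))))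
noncomputable def u1 : KT := (.one (nat_lit 0x600b015000000c01602a430))
def w1 : u1.all (wj 57 s1) = true := by decide +kernel
def o1 : OkW 57 (jb2 57 fl) u1 := .lift s1 _ (.br _ _ _ (.br _ _ _ (.br _ _ _ (.leaf b0 k19 t19) (.br _ _ _ (.leaf b0 k20 t20) (.leaf b0 k21 t21))) (.br _ _ _ (.br _ _ _ (.leaf b0 k22 t22) (.leaf b0 k23 t23)) (.br _ _ _ (.leaf b0 k24 t24) (.leaf b0 k25 t25)))) (.br _ _ _ (.br _ _ _ (.br _ _ _ (.leaf b0 k26 t26) (.leaf b28 k27 t27)) (.br _ _ _ (.leaf b0 k28 t28) (.leaf b0 k29 t29))) (.br _ _ _ (.br _ _ _ (.leaf b0 k30 t30) (.leaf b0 k31 t31)) (.br _ _ _ (.leaf b0 k32 t32) (.leaf b0 k33 t33))))) w1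
noncomputable def k34 : KT := (.br (Nat.shiftLeft (nat_lit 0x600c00f) (nat_lit 64)) (.br (Nat.shiftLeft (nat_lit 0xc01603) (nat_lit 67)) (.br (Nat.shiftLeft (nat_lit 0x600b017) (nat_lit 64)) (.one (nat_lit 0x600b016000000c01602d400)) (.one (nat_lit 0x600b017000000c01602f400))) (.br (Nat.shiftLeft (nat_lit 0x1803) (nat_lit 78)) (.one (nat_lit 0x600b018000000c016031400)) (.one (nat_lit 0x600c00e000000c01801d400)))) (.br (Nat.shiftLeft (nat_lit 0x600c011) (nat_lit 64)) (.br (Nat.shiftLeft (nat_lit 0x600c01) (nat_lit 68)) (.one (nat_lit 0x600c00f000000c01801f400)) (.one (nat_lit 0x600c010000000c018021400))) (.br (Nat.shiftLeft (nat_lit 0x3006009) (nat_lit 65)) (.one (nat_lit 0x600c011000000c018023400)) (.br (Nat.shiftLeft (nat_lit 0x1) (nat_lit 100)) (.one (nat_lit 0x600c012000000c018025400)) (.one (nat_lit 0x100600b016000200c01602c540))))))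
def t34 : k34.all (jb2 57 fl b0) = true := by decide +kernel
noncomputable def k35 : KT := (.one (nat_lit 0x100600b017000200c01602e540))
def t35 : k35.all (jb2 57 fl b0) = true := by decide +kernel
noncomputable def k36 : KT := (.br (Nat.shiftLeft (nat_lit 0x1) (nat_lit 101)) (.one (nat_lit 0x100600b018000200c016030540)) (.br (Nat.shiftLeft (nat_lit 0x200600b017) (nat_lit 64)) (.one (nat_lit 0x200600b016000400c01602d500)) (.one (nat_lit 0x200600b017000400c01602f500))))
def t36 : k36.all (jb2 57 fl b0) = true := by decide +kernel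
noncomputable def k37 : KT := (.br (Nat.shiftLeft (nat_lit 0x1) (nat_lit 102)) (.br (Nat.shiftLeft (nat_lit 0x300600b017) (nat_lit 64)) (.br (Nat.shiftLeft (nat_lit 0x3) (nat_lit 100)) (.one (nat_lit 0x200600b018000400c016030540)) (.one (nat_lit 0x300600b016000600c01602d500))) (.br (Nat.shiftLeft (nat_lit 0x600c01603) (nat_lit 67)) (.one (nat_lit 0x300600b017000600c01602f500)) (.one (nat_lit 0x300600b018000600c016031500)))) (.br (Nat.shiftLeft (nat_lit 0x800c01603) (nat_lit 67)) (.br (Nat.shiftLeft (nat_lit 0x400600b017) (nat_lit 64)) (.one (nat_lit 0x400600b016000800c01602d500)) (.one (nat_lit 0x400600b017000800c01602f500))) (.br (Nat.shiftLeft (nat_lit 0x5) (nat_lit 100)) (.one (nat_lit 0x400600b018000800c016031500)) (.br (Nat.shiftLeft (nat_lit 0x500600b017) (nat_lit 64)) (.one (nat_lit 0x500600b016000a00c01602d500)) (.one (nat_lit 0x500600b017000a00c01602f500))))))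
def t37 : k37.all (jb2 57 fl b0) = true := by decide +kernel
noncomputable def k38 : KT := (.br (Nat.shiftLeft (nat_lit 0x100000600b017) (nat_lit 64)) (.br (Nat.shiftLeft (nat_lit 0x1) (nat_lit 112)) (.one (nat_lit 0x500600b018000a00c016030540)) (.one (nat_lit 0x100000600b016200000c01602c411))) (.br (Nat.shiftLeft (nat_lit 0x200000c01603) (nat_lit 67)) (.one (nat_lit 0x100000600b017200000c01602e411)) (.one (nat_lit 0x100000600b018200000c016030411))))
def t38 : k38.all (jb2 57 fl b0) = true := by decide +kernel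
noncomputable def k39 : KT := (.one (nat_lit 0x100200600b016200400c01602c650))
def t39 : k39.all (jb2 57 fl b0) = true := by decide +kernel
noncomputable def k40 : KT := (.one (nat_lit 0x100200600b017200400c01602e650))
def t40 : k40.all (jb2 57 fl b0) = true := by decide +kernel
noncomputable def k41 : KT := (.one (nat_lit 0x100300600b016200600c01602c650))
def t41 : k41.all (jb2 57 fl b0) = true := by decide +kernel
noncomputable def k42 : KT := (.br (Nat.shiftLeft (nat_lit 0x200600c01603) (nat_lit 67)) (.one (nat_lit 0x100300600b017200600c01602e650)) (.one (nat_lit 0x100300600b018200600c016030650)))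
def t42 : k42.all (jb2 57 fl b0) = true := by decide +kernel
noncomputable def k43 : KT := (.br (Nat.shiftLeft (nat_lit 0x100400600b017) (nat_lit 64)) (.one (nat_lit 0x100400600b016200800c01602c650)) (.br (Nat.shiftLeft (nat_lit 0x200800c01603) (nat_lit 67)) (.one (nat_lit 0x100400600b017200800c01602e650)) (.one (nat_lit 0x100400600b018200800c016030650))))
def t43 : k43.all (jb2 57 fl b0) = true := by decide +kernel
noncomputable def k44 : KT := (.br (Nat.shiftLeft (nat_lit 0x1) (nat_lit 113)) (.br (Nat.shiftLeft (nat_lit 0x100500600b017) (nat_lit 64)) (.one (nat_lit 0x100500600b016200a00c01602c650)) (.one (nat_lit 0x100500600b017200a00c01602e650))) (.br (Nat.shiftLeft (nat_lit 0x200000600b017) (nat_lit 64)) (.one (nat_lit 0x200000600b016400000c01602c411)) (.br (Nat.shiftLeft (nat_lit 0x400000c01603) (nat_lit 67)) (.one (nat_lit 0x200000600b017400000c01602e411)) (.one (nat_lit 0x200000600b018400000c016030411)))))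
def t44 : k44.all (jb2 57 fl b0) = true := by decide +kernel
noncomputable def k45 : KT := (.one (nat_lit 0x200300600b016400600c01602c650))
def t45 : k45.all (jb2 57 fl b0) = true := by decide +kernel
noncomputable def k46 : KT := (.br (Nat.shiftLeft (nat_lit 0x400600c01603) (nat_lit 67)) (.one (nat_lit 0x200300600b017400600c01602e650)) (.one (nat_lit 0x200300600b018400600c016030650)))
def t46 : k46.all (jb2 57 fl b0) = true := by decide +kernel
noncomputable def k47 : KT := (.br (Nat.shiftLeft (nat_lit 0x200400600b017) (nat_lit 64)) (.one (nat_lit 0x200400600b016400800c01602c650)) (.one (nat_lit 0x200400600b017400800c01602e650)))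
def t47 : k47.all (jb2 57 fl b0) = true := by decide +kernel
noncomputable def k48 : KT := (.br (Nat.shiftLeft (nat_lit 0x3) (nat_lit 112)) (.br (Nat.shiftLeft (nat_lit 0x2005) (nat_lit 100)) (.one (nat_lit 0x200400600b018400800c016030650)) (.br (Nat.shiftLeft (nat_lit 0x200500600b017) (nat_lit 64)) (.one (nat_lit 0x200500600b016400a00c01602c650)) (.one (nat_lit 0x200500600b017400a00c01602e650)))) (.br (Nat.shiftLeft (nat_lit 0x300000600b017) (nat_lit 64)) (.one (nat_lit 0x300000600b016600000c01602c411)) (.br (Nat.shiftLeft (nat_lit 0x600000c01603) (nat_lit 67)) (.one (nat_lit 0x300000600b017600000c01602e411)) (.one (nat_lit 0x300000600b018600000c016030411)))))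
def t48 : k48.all (jb2 57 fl b0) = true := by decide +kernel
noncomputable def k49 : KT := (.br (Nat.shiftLeft (nat_lit 0x300400600b017) (nat_lit 64)) (.one (nat_lit 0x300400600b016600800c01602c650)) (.one (nat_lit 0x300400600b017600800c01602e650)))
def t49 : k49.all (jb2 57 fl b0) = true := by decide +kernel
noncomputable def k50 : KT := (.br (Nat.shiftLeft (nat_lit 0x1) (nat_lit 114)) (.br (Nat.shiftLeft (nat_lit 0x3005) (nat_lit 100)) (.one (nat_lit 0x300400600b018600800c016030650)) (.br (Nat.shiftLeft (nat_lit 0x300500600b017) (nat_lit 64)) (.one (nat_lit 0x300500600b016600a00c01602c650)) (.one (nat_lit 0x300500600b017600a00c01602e650)))) (.br (Nat.shiftLeft (nat_lit 0x400000600b017) (nat_lit 64)) (.one (nat_lit 0x400000600b016800000c01602c411)) (.br (Nat.shiftLeft (nat_lit 0x800000c01603) (nat_lit 67)) (.one (nat_lit 0x400000600b017800000c01602e411)) (.one (nat_lit 0x400000600b018800000c016030411)))))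
def t50 : k50.all (jb2 57 fl b0) = true := by decide +kernel
noncomputable def k51 : KT := (.br (Nat.shiftLeft (nat_lit 0x3) (nat_lit 113)) (.br (Nat.shiftLeft (nat_lit 0x5) (nat_lit 112)) (.br (Nat.shiftLeft (nat_lit 0x400500600b017) (nat_lit 64)) (.one (nat_lit 0x400500600b016800a00c01602c650)) (.one (nat_lit 0x400500600b017800a00c01602e650))) (.br (Nat.shiftLeft (nat_lit 0x500000600b017) (nat_lit 64)) (.one (nat_lit 0x500000600b016a00000c01602c411)) (.br (Nat.shiftLeft (nat_lit 0xa00000c01603) (nat_lit 67)) (.one (nat_lit 0x500000600b017a00000c01602e411)) (.one (nat_lit 0x500000600b018a00000c016030411))))) (.br (Nat.shiftLeft (nat_lit 0x7) (nat_lit 112)) (.br (Nat.shiftLeft (nat_lit 0x600000600b017) (nat_lit 64)) (.one (nat_lit 0x600000600b016c00000c01602c411)) (.br (Nat.shiftLeft (nat_lit 0xc00000c01603) (nat_lit 67)) (.one (nat_lit 0x600000600b017c00000c01602e411)) (.one (nat_lit 0x600000600b018c00000c016030411)))) (.br (Nat.shiftLeft (nat_lit 0x700000600b017) (nat_lit 64)) (.one (nat_lit 0x700000600b016e00000c01602c411))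 (.br (Nat.shiftLeft (nat_lit 0xe00000c01603) (nat_lit 67)) (.one (nat_lit 0x700000600b017e00000c01602e411)) (.one (nat_lit 0x700000600b018e00000c016030411))))))
def t51 : k51.all (jb2 57 fl b0) = true := by decide +kernel
noncomputable def k52 : KT := (.br (Nat.shiftLeft (nat_lit 0x1000005) (nat_lit 100)) (.br (Nat.shiftLeft (nat_lit 0xb00000600b017) (nat_lit 64)) (.br (Nat.shiftLeft (nat_lit 0x1200000c01603) (nat_lit 67)) (.br (Nat.shiftLeft (nat_lit 0x1000000c01603) (nat_lit 67)) (.br (Nat.shiftLeft (nat_lit 0x800000600b017) (nat_lit 64)) (.one (nat_lit 0x800000600b016000000c01612e411)) (.one (nat_lit 0x800000600b017000000c016130411))) (.br (Nat.shiftLeft (nat_lit 0x9) (nat_lit 112)) (.one (nat_lit 0x800000600b018000000c016132411)) (.br (Nat.shiftLeft (nat_lit 0x900000600b017) (nat_lit 64)) (.one (nat_lit 0x900000600b016200000c01612e411)) (.one (nat_lit 0x900000600b017200000c016130411))))) (.br (Nat.shiftLeft (nat_lit 0xa00000600b017) (nat_lit 64)) (.br (Nat.shiftLeft (nat_lit 0x5) (nat_lit 113)) (.one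 (nat_lit 0x900000600b018200000c016132411)) (.one (nat_lit 0xa00000600b016400000c01612e411))) (.br (Nat.shiftLeft (nat_lit 0x1400000c01603) (nat_lit 67)) (.one (nat_lit 0xa00000600b017400000c016130411)) (.br (Nat.shiftLeft (nat_lit 0xb) (nat_lit 112)) (.one (nat_lit 0xa00000600b018400000c016132411)) (.one (nat_lit 0xb00000600b016600000c01612e411)))))) (.br (Nat.shiftLeft (nat_lit 0x100000300600b017) (nat_lit 64)) (.br (Nat.shiftLeft (nat_lit 0x1) (nat_lit 124)) (.br (Nat.shiftLeft (nat_lit 0x1600000c01603) (nat_lit 67)) (.one (nat_lit 0xb00000600b017600000c016130411)) (.one (nat_lit 0xb00000600b018600000c016132411))) (.br (Nat.shiftLeft (nat_lit 0x100000200600b017) (nat_lit 64)) (.one (nat_lit 0x100000200600b016000400c03642c511)) (.br (Nat.shiftLeft (nat_lit 0x1000003) (nat_lit 100)) (.one (nat_lit 0x100000200600b017000400c03642e511)) (.one (nat_lit 0x100000300600b016000600c03642c511))))) (.br (Nat.shiftLeft (nat_lit 0x400001) (nat_lit 102)) (.br (Nat.shiftLeft (nat_lit 0x200000600c01603) (nat_lit 67)) (.one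 (nat_lit 0x100000300600b017000600c03642e511)) (.one (nat_lit 0x100000300600b018000600c036430511))) (.br (Nat.shiftLeft (nat_lit 0x100000400600b017) (nat_lit 64)) (.one (nat_lit 0x100000400600b016000800c03642c511)) (.br (Nat.shiftLeft (nat_lit 0x200000800c01603) (nat_lit 67)) (.one (nat_lit 0x100000400600b017000800c03642e511)) (.one (nat_lit 0x100000400600b018000800c036430511))))))) (.br (Nat.shiftLeft (nat_lit 0x2000005) (nat_lit 100)) (.br (Nat.shiftLeft (nat_lit 0x200000300600b017) (nat_lit 64)) (.br (Nat.shiftLeft (nat_lit 0x1) (nat_lit 125)) (.br (Nat.shiftLeft (nat_lit 0x100000500600b017) (nat_lit 64)) (.one (nat_lit 0x100000500600b016000a00c03642c511)) (.one (nat_lit 0x100000500600b017000a00c03642e511))) (.br (Nat.shiftLeft (nat_lit 0x200000200600b017) (nat_lit 64)) (.one (nat_lit 0x200000200600b016000400c05682c511)) (.br (Nat.shiftLeft (nat_lit 0x2000003) (nat_lit 100)) (.one (nat_lit 0x200000200600b017000400c05682e511)) (.one (nat_lit 0x200000300600b016000600c05682c511))))) (.br (Nat.shiftLeft (nat_lit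 0x800001) (nat_lit 102)) (.br (Nat.shiftLeft (nat_lit 0x400000600c01603) (nat_lit 67)) (.one (nat_lit 0x200000300600b017000600c05682e511)) (.one (nat_lit 0x200000300600b018000600c056830511))) (.br (Nat.shiftLeft (nat_lit 0x200000400600b017) (nat_lit 64)) (.one (nat_lit 0x200000400600b016000800c05682c511)) (.br (Nat.shiftLeft (nat_lit 0x400000800c01603) (nat_lit 67)) (.one (nat_lit 0x200000400600b017000800c05682e511)) (.one (nat_lit 0x200000400600b018000800c056830511)))))) (.br (Nat.shiftLeft (nat_lit 0x300000300600b017) (nat_lit 64)) (.br (Nat.shiftLeft (nat_lit 0x3) (nat_lit 124)) (.br (Nat.shiftLeft (nat_lit 0x200000500600b017) (nat_lit 64)) (.one (nat_lit 0x200000500600b016000a00c05682c511)) (.one (nat_lit 0x200000500600b017000a00c05682e511))) (.br (Nat.shiftLeft (nat_lit 0x300000200600b017) (nat_lit 64)) (.one (nat_lit 0x300000200600b016000400c076c2c511)) (.br (Nat.shiftLeft (nat_lit 0x3000003) (nat_lit 100)) (.one (nat_lit 0x300000200600b017000400c076c2e511)) (.one (nat_lit 0x300000300600b016000600c076c2c511)))))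 (.br (Nat.shiftLeft (nat_lit 0xc00001) (nat_lit 102)) (.br (Nat.shiftLeft (nat_lit 0x600000600c01603) (nat_lit 67)) (.one (nat_lit 0x300000300600b017000600c076c2e511)) (.one (nat_lit 0x300000300600b018000600c076c30511))) (.br (Nat.shiftLeft (nat_lit 0x300000400600b017) (nat_lit 64)) (.one (nat_lit 0x300000400600b016000800c076c2c511)) (.br (Nat.shiftLeft (nat_lit 0x600000800c01603) (nat_lit 67)) (.one (nat_lit 0x300000400600b017000800c076c2e511)) (.one (nat_lit 0x300000400600b018000800c076c30511))))))))
def t52 : k52.all (jb2 57 fl b0) = true := by decide +kernel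
noncomputable def k53 : KT := (.br (Nat.shiftLeft (nat_lit 0x1000001) (nat_lit 102)) (.br (Nat.shiftLeft (nat_lit 0x400000200600b017) (nat_lit 64)) (.br (Nat.shiftLeft (nat_lit 0x300000500600b017) (nat_lit 64)) (.one (nat_lit 0x300000500600b016000a00c076c2c511)) (.br (Nat.shiftLeft (nat_lit 0x1) (nat_lit 126)) (.one (nat_lit 0x300000500600b017000a00c076c2e511)) (.one (nat_lit 0x400000200600b016000400c09702c511)))) (.br (Nat.shiftLeft (nat_lit 0x400000300600b017) (nat_lit 64)) (.br (Nat.shiftLeft (nat_lit 0x4000003) (nat_lit 100)) (.one (nat_lit 0x400000200600b017000400c09702e511)) (.one (nat_lit 0x400000300600b016000600c09702c511))) (.br (Nat.shiftLeft (nat_lit 0x800000600c01603) (nat_lit 67)) (.one (nat_lit 0x400000300600b017000600c09702e511)) (.one (nat_lit 0x400000300600b018000600c097030511))))) (.br (Nat.shiftLeft (nat_lit 0x400000500600b017) (nat_lit 64)) (.br (Nat.shiftLeft (nat_lit 0x800000800c01603) (nat_lit 67)) (.br (Nat.shiftLeft (nat_lit 0x400000400600b017) (nat_lit 64)) (.one (nat_lit 0x400000400600b016000800c09702c511))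 (.one (nat_lit 0x400000400600b017000800c09702e511))) (.br (Nat.shiftLeft (nat_lit 0x4000005) (nat_lit 100)) (.one (nat_lit 0x400000400600b018000800c097030511)) (.one (nat_lit 0x400000500600b016000a00c09702c511)))) (.br (Nat.shiftLeft (nat_lit 0x500000200600b017) (nat_lit 64)) (.br (Nat.shiftLeft (nat_lit 0x5) (nat_lit 124)) (.one (nat_lit 0x400000500600b017000a00c09702e511)) (.one (nat_lit 0x500000200600b016000400c0b742c511))) (.br (Nat.shiftLeft (nat_lit 0x5000003) (nat_lit 100)) (.one (nat_lit 0x500000200600b017000400c0b742e511)) (.one (nat_lit 0x500000300600b016000600c0b742c511))))))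
def t53 : k53.all (jb2 57 fl b0) = true := by decide +kernel
noncomputable def k54 : KT := (.br (Nat.shiftLeft (nat_lit 0x5000005) (nat_lit 100)) (.br (Nat.shiftLeft (nat_lit 0x1400001) (nat_lit 102)) (.br (Nat.shiftLeft (nat_lit 0xa00000600c01603) (nat_lit 67)) (.one (nat_lit 0x500000300600b017000600c0b742e511)) (.one (nat_lit 0x500000300600b018000600c0b7430511))) (.br (Nat.shiftLeft (nat_lit 0x500000400600b017) (nat_lit 64)) (.one (nat_lit 0x500000400600b016000800c0b742c511)) (.br (Nat.shiftLeft (nat_lit 0xa00000800c01603) (nat_lit 67)) (.one (nat_lit 0x500000400600b017000800c0b742e511)) (.one (nat_lit 0x500000400600b018000800c0b7430511))))) (.br (Nat.shiftLeft (nat_lit 0x3) (nat_lit 125)) (.br (Nat.shiftLeft (nat_lit 0x500000500600b017) (nat_lit 64)) (.one (nat_lit 0x500000500600b016000a00c0b742c511)) (.one (nat_lit 0x500000500600b017000a00c0b742e511))) (.br (Nat.shiftLeft (nat_lit 0x600000200600b017) (nat_lit 64)) (.one (nat_lit 0x600000200600b016000400c0d782c511)) (.br (Nat.shiftLeft (nat_lit 0x6000003)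 (nat_lit 100)) (.one (nat_lit 0x600000200600b017000400c0d782e511)) (.one (nat_lit 0x600000300600b016000600c0d782c511))))))
def t54 : k54.all (jb2 57 fl b0) = true := by decide +kernel
noncomputable def k55 : KT := (.br (Nat.shiftLeft (nat_lit 0x6000005) (nat_lit 100)) (.br (Nat.shiftLeft (nat_lit 0x1800001) (nat_lit 102)) (.br (Nat.shiftLeft (nat_lit 0xc00000600c01603) (nat_lit 67)) (.one (nat_lit 0x600000300600b017000600c0d782e511)) (.one (nat_lit 0x600000300600b018000600c0d7830511))) (.br (Nat.shiftLeft (nat_lit 0x600000400600b017) (nat_lit 64)) (.one (nat_lit 0x600000400600b016000800c0d782c511)) (.br (Nat.shiftLeft (nat_lit 0xc00000800c01603) (nat_lit 67)) (.one (nat_lit 0x600000400600b017000800c0d782e511)) (.one (nat_lit 0x600000400600b018000800c0d7830511))))) (.br (Nat.shiftLeft (nat_lit 0x700000200600b017) (nat_lit 64)) (.br (Nat.shiftLeft (nat_lit 0x600000500600b017) (nat_lit 64)) (.one (nat_lit 0x600000500600b016000a00c0d782c511)) (.br (Nat.shiftLeft (nat_lit 0x7) (nat_lit 124)) (.one (nat_lit 0x600000500600b017000a00c0d782e511))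 (.one (nat_lit 0x700000200600b016000400c0f7c2c511)))) (.br (Nat.shiftLeft (nat_lit 0x7000003) (nat_lit 100)) (.one (nat_lit 0x700000200600b017000400c0f7c2e511)) (.br (Nat.shiftLeft (nat_lit 0x700000300600b017) (nat_lit 64)) (.one (nat_lit 0x700000300600b016000600c0f7c2c511)) (.one (nat_lit 0x700000300600b017000600c0f7c2e511))))))
def t55 : k55.all (jb2 57 fl b0) = true := by decide +kernel
noncomputable def k56 : KT := (.br (Nat.shiftLeft (nat_lit 0x8000003) (nat_lit 100)) (.br (Nat.shiftLeft (nat_lit 0x7000005) (nat_lit 100)) (.br (Nat.shiftLeft (nat_lit 0x700000400600b017) (nat_lit 64)) (.br (Nat.shiftLeft (nat_lit 0x1c00001) (nat_lit 102)) (.one (nat_lit 0x700000300600b018000600c0f7c30511)) (.one (nat_lit 0x700000400600b016000800c0f7c2c511))) (.br (Nat.shiftLeft (nat_lit 0xe00000800c01603) (nat_lit 67)) (.one (nat_lit 0x700000400600b017000800c0f7c2e511)) (.one (nat_lit 0x700000400600b018000800c0f7c30511)))) (.br (Nat.shiftLeft (nat_lit 0x1) (nat_lit 127)) (.br (Nat.shiftLeft (nat_lit 0x700000500600b017)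 (nat_lit 64)) (.one (nat_lit 0x700000500600b016000a00c0f7c2c511)) (.one (nat_lit 0x700000500600b017000a00c0f7c2e511))) (.br (Nat.shiftLeft (nat_lit 0x800000200600b017) (nat_lit 64)) (.one (nat_lit 0x800000200600b016000400c11802c511)) (.one (nat_lit 0x800000200600b017000400c11802e511))))) (.br (Nat.shiftLeft (nat_lit 0x800000400600b017) (nat_lit 64)) (.br (Nat.shiftLeft (nat_lit 0x1000000600c01603) (nat_lit 67)) (.br (Nat.shiftLeft (nat_lit 0x800000300600b017) (nat_lit 64)) (.one (nat_lit 0x800000300600b016000600c11802c511)) (.one (nat_lit 0x800000300600b017000600c11802e511))) (.br (Nat.shiftLeft (nat_lit 0x2000001) (nat_lit 102)) (.one (nat_lit 0x800000300600b018000600c118030511)) (.one (nat_lit 0x800000400600b016000800c11802c511)))) (.br (Nat.shiftLeft (nat_lit 0x8000005) (nat_lit 100)) (.br (Nat.shiftLeft (nat_lit 0x1000000800c01603) (nat_lit 67)) (.one (nat_lit 0x800000400600b017000800c11802e511)) (.one (nat_lit 0x800000400600b018000800c118030511))) (.br (Nat.shiftLeft (nat_lit 0x800000500600b017) (nat_lit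 64)) (.one (nat_lit 0x800000500600b016000a00c11802c511)) (.br (Nat.shiftLeft (nat_lit 0x9) (nat_lit 124)) (.one (nat_lit 0x800000500600b017000a00c11802e511)) (.one (nat_lit 0x900000200600b016000400c13842c511)))))))
def t56 : k56.all (jb2 57 fl b0) = true := by decide +kernel
noncomputable def k57 : KT := (.br (Nat.shiftLeft (nat_lit 0x2800001) (nat_lit 102)) (.br (Nat.shiftLeft (nat_lit 0x9000005) (nat_lit 100)) (.br (Nat.shiftLeft (nat_lit 0x1200000600c01603) (nat_lit 67)) (.br (Nat.shiftLeft (nat_lit 0x9000003) (nat_lit 100)) (.one (nat_lit 0x900000200600b017000400c13842e511)) (.br (Nat.shiftLeft (nat_lit 0x900000300600b017) (nat_lit 64)) (.one (nat_lit 0x900000300600b016000600c13842c511)) (.one (nat_lit 0x900000300600b017000600c13842e511)))) (.br (Nat.shiftLeft (nat_lit 0x900000400600b017) (nat_lit 64)) (.br (Nat.shiftLeft (nat_lit 0x2400001) (nat_lit 102)) (.one (nat_lit 0x900000300600b018000600c138430511)) (.one (nat_lit 0x900000400600b016000800c13842c511))) (.br (Nat.shiftLeft (nat_lit 0x1200000800c01603)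 (nat_lit 67)) (.one (nat_lit 0x900000400600b017000800c13842e511)) (.one (nat_lit 0x900000400600b018000800c138430511))))) (.br (Nat.shiftLeft (nat_lit 0xa00000200600b017) (nat_lit 64)) (.br (Nat.shiftLeft (nat_lit 0x900000500600b017) (nat_lit 64)) (.one (nat_lit 0x900000500600b016000a00c13842c511)) (.br (Nat.shiftLeft (nat_lit 0x5) (nat_lit 125)) (.one (nat_lit 0x900000500600b017000a00c13842e511)) (.one (nat_lit 0xa00000200600b016000400c15882c511)))) (.br (Nat.shiftLeft (nat_lit 0xa00000300600b017) (nat_lit 64)) (.br (Nat.shiftLeft (nat_lit 0xa000003) (nat_lit 100)) (.one (nat_lit 0xa00000200600b017000400c15882e511)) (.one (nat_lit 0xa00000300600b016000600c15882c511))) (.br (Nat.shiftLeft (nat_lit 0x1400000600c01603) (nat_lit 67)) (.one (nat_lit 0xa00000300600b017000600c15882e511)) (.one (nat_lit 0xa00000300600b018000600c158830511)))))) (.br (Nat.shiftLeft (nat_lit 0xb000003) (nat_lit 100)) (.br (Nat.shiftLeft (nat_lit 0xa000005) (nat_lit 100)) (.br (Nat.shiftLeft (nat_lit 0xa00000400600b017) (nat_lit 64))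 (.one (nat_lit 0xa00000400600b016000800c15882c511)) (.br (Nat.shiftLeft (nat_lit 0x1400000800c01603) (nat_lit 67)) (.one (nat_lit 0xa00000400600b017000800c15882e511)) (.one (nat_lit 0xa00000400600b018000800c158830511)))) (.br (Nat.shiftLeft (nat_lit 0xb) (nat_lit 124)) (.br (Nat.shiftLeft (nat_lit 0xa00000500600b017) (nat_lit 64)) (.one (nat_lit 0xa00000500600b016000a00c15882c511)) (.one (nat_lit 0xa00000500600b017000a00c15882e511))) (.br (Nat.shiftLeft (nat_lit 0xb00000200600b017) (nat_lit 64)) (.one (nat_lit 0xb00000200600b016000400c178c2c511)) (.one (nat_lit 0xb00000200600b017000400c178c2e511))))) (.br (Nat.shiftLeft (nat_lit 0xb00000400600b017) (nat_lit 64)) (.br (Nat.shiftLeft (nat_lit 0x1600000600c01603) (nat_lit 67)) (.br (Nat.shiftLeft (nat_lit 0xb00000300600b017) (nat_lit 64)) (.one (nat_lit 0xb00000300600b016000600c178c2c511)) (.one (nat_lit 0xb00000300600b017000600c178c2e511))) (.br (Nat.shiftLeft (nat_lit 0x2c00001) (nat_lit 102)) (.one (nat_lit 0xb00000300600b018000600c178c30511)) (.one (nat_lit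 0xb00000400600b016000800c178c2c511)))) (.br (Nat.shiftLeft (nat_lit 0xb000005) (nat_lit 100)) (.br (Nat.shiftLeft (nat_lit 0x1600000800c01603) (nat_lit 67)) (.one (nat_lit 0xb00000400600b017000800c178c2e511)) (.one (nat_lit 0xb00000400600b018000800c178c30511))) (.br (Nat.shiftLeft (nat_lit 0xb00000500600b017) (nat_lit 64)) (.one (nat_lit 0xb00000500600b016000a00c178c2c511)) (.one (nat_lit 0xb00000500600b017000a00c178c2e511)))))))
def t57 : k57.all (jb2 57 fl b0) = true := by decide +kernel
noncomputable def s2 : KT := (.br (nat_lit 0x200300600b016400600c01602c650) (.br (nat_lit 0x100200600b016200400c01602c650) (.br (nat_lit 0x200600b017000400c01602f500) (.br (nat_lit 0x100600b016000200c01602c540) k34 (.br (nat_lit 0x100600b017000200c01602e540) k35 k36)) (.br (nat_lit 0x500600b017000a00c01602f500) k37 (.br (nat_lit 0x100000600b018200000c016030411) k38 k39))) (.br (nat_lit 0x100300600b018200600c016030650) (.br (nat_lit 0x100200600b017200400c01602e650) k40 (.br (nat_lit 0x100300600b016200600c01602c650) k41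 k42)) (.br (nat_lit 0x100400600b018200800c016030650) k43 (.br (nat_lit 0x200000600b018400000c016030411) k44 k45)))) (.br (nat_lit 0x700000600b018e00000c016030411) (.br (nat_lit 0x300000600b018600000c016030411) (.br (nat_lit 0x200300600b018400600c016030650) k46 (.br (nat_lit 0x200400600b017400800c01602e650) k47 k48)) (.br (nat_lit 0x300400600b017600800c01602e650) k49 (.br (nat_lit 0x400000600b018800000c016030411) k50 k51))) (.br (nat_lit 0x600000300600b016000600c0d782c511) (.br (nat_lit 0x300000400600b018000800c076c30511) k52 (.br (nat_lit 0x500000300600b016000600c0b742c511) k53 k54)) (.br (nat_lit 0x700000300600b017000600c0f7c2e511) k55 (.br (nat_lit 0x900000200600b016000400c13842c511) k56 k57)))))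
noncomputable def u2 : KT := (.br (Nat.shiftLeft (nat_lit 0x600c00f) (nat_lit 64)) (.br (Nat.shiftLeft (nat_lit 0xc01603) (nat_lit 67)) (.br (Nat.shiftLeft (nat_lit 0x600b017) (nat_lit 64)) (.one (nat_lit 0x600b016000000c01602c430)) (.one (nat_lit 0x600b017000000c01602e430))) (.br (Nat.shiftLeft (nat_lit 0x1803) (nat_lit 78)) (.one (nat_lit 0x600b018000000c016030430)) (.one (nat_lit 0x600c00e000000c01801d400)))) (.br (Nat.shiftLeft (nat_lit 0x600c011) (nat_lit 64)) (.br (Nat.shiftLeft (nat_lit 0x600c01) (nat_lit 68)) (.one (nat_lit 0x600c00f000000c01801f400)) (.one (nat_lit 0x600c010000000c018021400))) (.br (Nat.shiftLeft (nat_lit 0x3006009) (nat_lit 65)) (.one (nat_lit 0x600c011000000c018023400)) (.one (nat_lit 0x600c012000000c018025400)))))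
def w2 : u2.all (wj 57 s2) = true := by decide +kernel
def o2 : OkW 57 (jb2 57 fl) u2 := .lift s2 _ (.br _ _ _ (.br _ _ _ (.br _ _ _ (.br _ _ _ (.leaf b0 k34 t34) (.br _ _ _ (.leaf b0 k35 t35) (.leaf b0 k36 t36))) (.br _ _ _ (.leaf b0 k37 t37) (.br _ _ _ (.leaf b0 k38 t38) (.leaf b0 k39 t39)))) (.br _ _ _ (.br _ _ _ (.leaf b0 k40 t40) (.br _ _ _ (.leaf b0 k41 t41) (.leaf b0 k42 t42))) (.br _ _ _ (.leaf b0 k43 t43) (.br _ _ _ (.leaf b0 k44 t44) (.leaf b0 k45 t45))))) (.br _ _ _ (.br _ _ _ (.br _ _ _ (.leaf b0 k46 t46) (.br _ _ _ (.leaf b0 k47 t47) (.leaf b0 k48 t48))) (.br _ _ _ (.leaf b0 k49 t49) (.br _ _ _ (.leaf b0 k50 t50) (.leaf b0 k51 t51)))) (.br _ _ _ (.br _ _ _ (.leaf b0 k52 t52) (.br _ _ _ (.leaf b0 k53 t53) (.leaf b0 k54 t54))) (.br _ _ _ (.leaf b0 k55 t55) (.br _ _ _ (.leaf b0 k56 t56) (.leaf b0 k57 t57)))))) w2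
noncomputable def k58 : KT := (.br (Nat.shiftLeft (nat_lit 0x5) (nat_lit 100)) (.br (Nat.shiftLeft (nat_lit 0x1) (nat_lit 101)) (.br (Nat.shiftLeft (nat_lit 0x1) (nat_lit 100)) (.one (nat_lit 0x600c013000000c018027400)) (.one (nat_lit 0x100600c013000200c018027500))) (.br (Nat.shiftLeft (nat_lit 0x3) (nat_lit 100)) (.one (nat_lit 0x200600c013000400c018027500)) (.br (Nat.shiftLeft (nat_lit 0x1) (nat_lit 102)) (.one (nat_lit 0x300600c013000600c018027500)) (.one (nat_lit 0x400600c013000800c018027500))))) (.br (Nat.shiftLeft (nat_lit 0x801) (nat_lit 101)) (.br (Nat.shiftLeft (nat_lit 0x1) (nat_lit 112)) (.one (nat_lit 0x500600c013000a00c018027500)) (.one (nat_lit 0x100000600c013200000c018026411))) (.br (Nat.shiftLeft (nat_lit 0x1003) (nat_lit 100)) (.one (nat_lit 0x100200600c013200400c018027600)) (.br (Nat.shiftLeft (nat_lit 0x401) (nat_lit 102)) (.one (nat_lit 0x100300600c013200600c018027600)) (.one (nat_lit 0x100400600c013200800c018026650))))))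
def t58 : k58.all (jb2 57 fl b0) = true := by decide +kernel
noncomputable def k59 : KT := (.br (Nat.shiftLeft (nat_lit 0x1001) (nat_lit 101)) (.br (Nat.shiftLeft (nat_lit 0x1) (nat_lit 113)) (.one (nat_lit 0x100500600c013200a00c018026650)) (.one (nat_lit 0x200000600c013400000c018026411))) (.br (Nat.shiftLeft (nat_lit 0x801) (nat_lit 102)) (.one (nat_lit 0x200300600c013400600c018027600)) (.one (nat_lit 0x200400600c013400800c018027600))))
def t59 : k59.all (jb2 57 fl b0) = true := by decide +kernel
noncomputable def k60 : KT := (.br (Nat.shiftLeft (nat_lit 0x3) (nat_lit 112)) (.one (nat_lit 0x200500600c013400a00c018026650)) (.br (Nat.shiftLeft (nat_lit 0xc01) (nat_lit 102)) (.one (nat_lit 0x300000600c013600000c018026411)) (.one (nat_lit 0x300400600c013600800c018027600))))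
def t60 : k60.all (jb2 57 fl b0) = true := by decide +kernel
noncomputable def k61 : KT := (.br (Nat.shiftLeft (nat_lit 0x1) (nat_lit 114)) (.one (nat_lit 0x300500600c013600a00c018026650)) (.one (nat_lit 0x400000600c013800000c018026411)))
def t61 : k61.all (jb2 57 fl b0) = true := by decide +kernel
noncomputable def k62 : KT := (.br (Nat.shiftLeft (nat_lit 0x3) (nat_lit 113)) (.br (Nat.shiftLeft (nat_lit 0x5) (nat_lit 112)) (.one (nat_lit 0x400500600c013800a00c018026650)) (.one (nat_lit 0x500000600c013a00000c018026411))) (.br (Nat.shiftLeft (nat_lit 0x7) (nat_lit 112)) (.one (nat_lit 0x600000600c013c00000c018026411)) (.br (Nat.shiftLeft (nat_lit 0x1) (nat_lit 115)) (.one (nat_lit 0x700000600c013e00000c018026411)) (.one (nat_lit 0x800000600c013000000c018128411)))))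
def t62 : k62.all (jb2 57 fl b0) = true := by decide +kernel
noncomputable def k63 : KT := (.br (Nat.shiftLeft (nat_lit 0x1) (nat_lit 124)) (.br (Nat.shiftLeft (nat_lit 0xb) (nat_lit 112)) (.br (Nat.shiftLeft (nat_lit 0x5) (nat_lit 113)) (.one (nat_lit 0x900000600c013200000c018128411)) (.one (nat_lit 0xa00000600c013400000c018128411))) (.br (Nat.shiftLeft (nat_lit 0x3) (nat_lit 114)) (.one (nat_lit 0xb00000600c013600000c018128411)) (.one (nat_lit 0xc00000600c013800000c018128411)))) (.br (Nat.shiftLeft (nat_lit 0x1000003) (nat_lit 100)) (.br (Nat.shiftLeft (nat_lit 0x800001) (nat_lit 101)) (.one (nat_lit 0x100000100600c013000200c038426511)) (.one (nat_lit 0x100000200600c013000400c038426511))) (.br (Nat.shiftLeft (nat_lit 0x400001) (nat_lit 102)) (.one (nat_lit 0x100000300600c013000600c038426511)) (.br (Nat.shiftLeft (nat_lit 0x1000005) (nat_lit 100)) (.one (nat_lit 0x100000400600c013000800c038426511)) (.one (nat_lit 0x100000500600c013000a00c038426511))))))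
noncomputable def b64 : BT := .node (nat_lit 0xb) (nat_lit 0x4b1b6cc9d651427593a8a284c0275258d2c8514001096400a320004ea6800b29e004ea6000ba5f002ea640032d9124e09d44c14b114509d600196d000654400196c800654016d924e5272001d4c00055be0ed936cd2c851427513a80132d9000cb6400ba98002ea602db36d9a58c003a98000ac601db32609455b664ea4b2258ca2a96328a130498296327524e52c6db44b200274be0091ad000653c00958d00365b400996c001753200993300165b401194f003753200996c8db6693828a000843a0011ac832c64c049c36cdb684c2273a4e12c600596d001653c001d4c80145ce009d4c80175301cb1130127696349ca4e80032d8000ca84003a98000ca7c2008ef0077e006c300663005a8005480032100321002c1001ab000f0000f0) .leaf .leaf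
def t63 : k63.all (jb2 57 fl b64) = true := by decide +kernel
noncomputable def k64 : KT := (.one (nat_lit 0x100200300600c013400600c038426760))
def t64 : k64.all (jb2 57 fl b0) = true := by decide +kernel
noncomputable def k65 : KT := (.br (Nat.shiftLeft (nat_lit 0x1000001) (nat_lit 101)) (.br (Nat.shiftLeft (nat_lit 0x1003) (nat_lit 112)) (.one (nat_lit 0x100200400600c013400800c038426760)) (.br (Nat.shiftLeft (nat_lit 0x1) (nat_lit 125)) (.one (nat_lit 0x100300400600c013600800c038426760)) (.one (nat_lit 0x200000100600c013000200c058826511)))) (.br (Nat.shiftLeft (nat_lit 0x800001) (nat_lit 102)) (.br (Nat.shiftLeft (nat_lit 0x2000003) (nat_lit 100)) (.one (nat_lit 0x200000200600c013000400c058826511)) (.one (nat_lit 0x200000300600c013000600c058826511))) (.br (Nat.shiftLeft (nat_lit 0x2000005) (nat_lit 100)) (.one (nat_lit 0x200000400600c013000800c058826511)) (.one (nat_lit 0x200000500600c013000a00c058826511)))))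
def t65 : k65.all (jb2 57 fl b0) = true := by decide +kernel
noncomputable def k66 : KT := (.br (Nat.shiftLeft (nat_lit 0x1) (nat_lit 126)) (.br (Nat.shiftLeft (nat_lit 0x3000003) (nat_lit 100)) (.br (Nat.shiftLeft (nat_lit 0x3) (nat_lit 124)) (.one (nat_lit 0x200300400600c013600800c058826760)) (.br (Nat.shiftLeft (nat_lit 0x1800001) (nat_lit 101)) (.one (nat_lit 0x300000100600c013000200c078c26511)) (.one (nat_lit 0x300000200600c013000400c078c26511)))) (.br (Nat.shiftLeft (nat_lit 0xc00001) (nat_lit 102)) (.one (nat_lit 0x300000300600c013000600c078c26511)) (.br (Nat.shiftLeft (nat_lit 0x3000005) (nat_lit 100)) (.one (nat_lit 0x300000400600c013000800c078c26511)) (.one (nat_lit 0x300000500600c013000a00c078c26511))))) (.br (Nat.shiftLeft (nat_lit 0x1000001) (nat_lit 102)) (.br (Nat.shiftLeft (nat_lit 0x2000001) (nat_lit 101)) (.one (nat_lit 0x400000100600c013000200c099026511)) (.br (Nat.shiftLeft (nat_lit 0x4000003) (nat_lit 100)) (.one (nat_lit 0x400000200600c013000400c099026511)) (.one (nat_lit 0x400000300600c013000600c099026511))))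 (.br (Nat.shiftLeft (nat_lit 0x4000005) (nat_lit 100)) (.one (nat_lit 0x400000400600c013000800c099026511)) (.br (Nat.shiftLeft (nat_lit 0x5) (nat_lit 124)) (.one (nat_lit 0x400000500600c013000a00c099026511)) (.one (nat_lit 0x500000100600c013000200c0b9426511))))))
def t66 : k66.all (jb2 57 fl b0) = true := by decide +kernel
noncomputable def k67 : KT := (.br (Nat.shiftLeft (nat_lit 0x5000005) (nat_lit 100)) (.br (Nat.shiftLeft (nat_lit 0x5000003) (nat_lit 100)) (.one (nat_lit 0x500000200600c013000400c0b9426511)) (.br (Nat.shiftLeft (nat_lit 0x1400001) (nat_lit 102)) (.one (nat_lit 0x500000300600c013000600c0b9426511)) (.one (nat_lit 0x500000400600c013000800c0b9426511)))) (.br (Nat.shiftLeft (nat_lit 0x3) (nat_lit 125)) (.one (nat_lit 0x500000500600c013000a00c0b9426511)) (.br (Nat.shiftLeft (nat_lit 0x3000001) (nat_lit 101)) (.one (nat_lit 0x600000100600c013000200c0d9826511)) (.one (nat_lit 0x600000200600c013000400c0d9826511)))))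
def t67 : k67.all (jb2 57 fl b0) = true := by decide +kernel
noncomputable def k68 : KT := (.br (Nat.shiftLeft (nat_lit 0x6000005) (nat_lit 100)) (.br (Nat.shiftLeft (nat_lit 0x1800001) (nat_lit 102)) (.one (nat_lit 0x600000300600c013000600c0d9826511)) (.one (nat_lit 0x600000400600c013000800c0d9826511))) (.br (Nat.shiftLeft (nat_lit 0x7) (nat_lit 124)) (.one (nat_lit 0x600000500600c013000a00c0d9826511)) (.br (Nat.shiftLeft (nat_lit 0x3800001) (nat_lit 101)) (.one (nat_lit 0x700000100600c013000200c0f9c26511)) (.one (nat_lit 0x700000200600c013000400c0f9c26511)))))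
def t68 : k68.all (jb2 57 fl b0) = true := by decide +kernel
noncomputable def k69 : KT := (.br (Nat.shiftLeft (nat_lit 0x7000005) (nat_lit 100)) (.br (Nat.shiftLeft (nat_lit 0x1c00001) (nat_lit 102)) (.one (nat_lit 0x700000300600c013000600c0f9c26511)) (.one (nat_lit 0x700000400600c013000800c0f9c26511))) (.br (Nat.shiftLeft (nat_lit 0x1) (nat_lit 127)) (.one (nat_lit 0x700000500600c013000a00c0f9c26511)) (.br (Nat.shiftLeft (nat_lit 0x4000001) (nat_lit 101)) (.one (nat_lit 0x800000100600c013000200c11a026511)) (.one (nat_lit 0x800000200600c013000400c11a026511)))))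
def t69 : k69.all (jb2 57 fl b0) = true := by decide +kernel
noncomputable def k70 : KT := (.br (Nat.shiftLeft (nat_lit 0x8000005) (nat_lit 100)) (.br (Nat.shiftLeft (nat_lit 0x2000001) (nat_lit 102)) (.one (nat_lit 0x800000300600c013000600c11a026511)) (.one (nat_lit 0x800000400600c013000800c11a026511))) (.br (Nat.shiftLeft (nat_lit 0x9) (nat_lit 124)) (.one (nat_lit 0x800000500600c013000a00c11a026511)) (.br (Nat.shiftLeft (nat_lit 0x4800001) (nat_lit 101)) (.one (nat_lit 0x900000100600c013000200c13a426511)) (.one (nat_lit 0x900000200600c013000400c13a426511)))))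
noncomputable def b71 : BT := .node (nat_lit 0xb) (nat_lit 0x93528a94552c64c128a80075300015ab80074be00158d05b664ea28a00065b000158c83b6693849c36d098051449a93aca2896326093040032d8002ca7800ba5e0028d6000ba9a004cb6000ba99002aa9840037c002c1002c1002c1002c100261002610026100261000f0000f0000f0) .leaf .leaf
def t70 : k70.all (jb2 57 fl b71) = true := by decide +kernel
noncomputable def k71 : KT := (.br (Nat.shiftLeft (nat_lit 0x5000001) (nat_lit 101)) (.br (Nat.shiftLeft (nat_lit 0x9000005) (nat_lit 100)) (.br (Nat.shiftLeft (nat_lit 0x2400001) (nat_lit 102)) (.one (nat_lit 0x900000300600c013000600c13a426511)) (.one (nat_lit 0x900000400600c013000800c13a426511))) (.br (Nat.shiftLeft (nat_lit 0x5) (nat_lit 125)) (.one (nat_lit 0x900000500600c013000a00c13a426511)) (.one (nat_lit 0xa00000100600c013000200c15a826511)))) (.br (Nat.shiftLeft (nat_lit 0x2800001) (nat_lit 102)) (.br (Nat.shiftLeft (nat_lit 0xa000003) (nat_lit 100)) (.one (nat_lit 0xa00000200600c013000400c15a826511)) (.one (nat_lit 0xa00000300600c013000600c15a826511)))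 (.br (Nat.shiftLeft (nat_lit 0xa000005) (nat_lit 100)) (.one (nat_lit 0xa00000400600c013000800c15a826511)) (.one (nat_lit 0xa00000500600c013000a00c15a826511)))))
noncomputable def b72 : BT := .node (nat_lit 0xb) (nat_lit 0x12c44eb28a14512c64e9000ea68002b19000ea640032d90a7493049d4db24b193a8a285152608017532001d4c00165b200596c0027530005933074509844c0000e8980032d90658c9d69386d913aca2a96349c13000032dc000ca74003a5f0008d68003a5d000cb64300435004350037a0037a0026500265002650026500206000f0000f0000f0) .leaf .leaf
def t71 : k71.all (jb2 57 fl b72) = true := by decide +kernel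
noncomputable def k72 : KT := (.br (Nat.shiftLeft (nat_lit 0x400000801) (nat_lit 102)) (.br (Nat.shiftLeft (nat_lit 0x6000001) (nat_lit 101)) (.br (Nat.shiftLeft (nat_lit 0x2c00001) (nat_lit 102)) (.br (Nat.shiftLeft (nat_lit 0x5800001) (nat_lit 101)) (.one (nat_lit 0xb00000100600c013000200c17ac26511)) (.br (Nat.shiftLeft (nat_lit 0xb000003) (nat_lit 100)) (.one (nat_lit 0xb00000200600c013000400c17ac26511)) (.one (nat_lit 0xb00000300600c013000600c17ac26511)))) (.br (Nat.shiftLeft (nat_lit 0xb000005) (nat_lit 100)) (.one (nat_lit 0xb00000400600c013000800c17ac26511)) (.br (Nat.shiftLeft (nat_lit 0x3) (nat_lit 126)) (.one (nat_lit 0xb00000500600c013000a00c17ac26511)) (.one (nat_lit 0xc00000100600c013000200c19b026511))))) (.br (Nat.shiftLeft (nat_lit 0xc000005) (nat_lit 100)) (.br (Nat.shiftLeft (nat_lit 0xc000003) (nat_lit 100)) (.one (nat_lit 0xc00000200600c013000400c19b026511)) (.br (Nat.shiftLeft (nat_lit 0x3000001) (nat_lit 102)) (.one (nat_lit 0xc00000300600c013000600c19b026511)) (.one (nat_lit 0xc00000400600c013000800c19b026511))))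 (.br (Nat.shiftLeft (nat_lit 0x1000001003) (nat_lit 100)) (.br (Nat.shiftLeft (nat_lit 0x1) (nat_lit 136)) (.one (nat_lit 0xc00000500600c013000a00c19b026511)) (.one (nat_lit 0x100000100200600c013200402c418026611))) (.br (Nat.shiftLeft (nat_lit 0x800001) (nat_lit 113)) (.one (nat_lit 0x100000100300600c013200602c418026611)) (.one (nat_lit 0x100000200300600c013400602c418026611)))))) (.br (Nat.shiftLeft (nat_lit 0x3) (nat_lit 136)) (.br (Nat.shiftLeft (nat_lit 0x2000001003) (nat_lit 100)) (.br (Nat.shiftLeft (nat_lit 0x1000003) (nat_lit 112)) (.one (nat_lit 0x100000200400600c013400802c418026611)) (.br (Nat.shiftLeft (nat_lit 0x1) (nat_lit 137)) (.one (nat_lit 0x100000300400600c013600802c418026611)) (.one (nat_lit 0x200000100200600c013200404c818026611)))) (.br (Nat.shiftLeft (nat_lit 0x800000801) (nat_lit 102)) (.br (Nat.shiftLeft (nat_lit 0x1000001) (nat_lit 113)) (.one (nat_lit 0x200000100300600c013200604c818026611)) (.one (nat_lit 0x200000200300600c013400604c818026611))) (.br (Nat.shiftLeft (nat_lit 0x2000003)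 (nat_lit 112)) (.one (nat_lit 0x200000200400600c013400804c818026611)) (.one (nat_lit 0x200000300400600c013600804c818026611))))) (.br (Nat.shiftLeft (nat_lit 0xc00000801) (nat_lit 102)) (.br (Nat.shiftLeft (nat_lit 0x3000001003) (nat_lit 100)) (.one (nat_lit 0x300000100200600c013200406cc18026611)) (.br (Nat.shiftLeft (nat_lit 0x1800001) (nat_lit 113)) (.one (nat_lit 0x300000100300600c013200606cc18026611)) (.one (nat_lit 0x300000200300600c013400606cc18026611)))) (.br (Nat.shiftLeft (nat_lit 0x1) (nat_lit 138)) (.br (Nat.shiftLeft (nat_lit 0x3000003) (nat_lit 112)) (.one (nat_lit 0x300000200400600c013400806cc18026611)) (.one (nat_lit 0x300000300400600c013600806cc18026611))) (.br (Nat.shiftLeft (nat_lit 0x4000001003) (nat_lit 100)) (.one (nat_lit 0x400000100200600c013200408d018026611)) (.one (nat_lit 0x400000100300600c013200608d018026611)))))))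
noncomputable def b73 : BT := .node (nat_lit 0x1) (nat_lit 0x13a52704ea4b193a89d45142751304013a98002cb6c003a98002ab7c00ba5e002ca8430013d00028) .leaf .leaf
def t72 : k72.all (jb2 57 fl b73) = true := by decide +kernel
noncomputable def k73 : KT := (.br (Nat.shiftLeft (nat_lit 0x5) (nat_lit 136)) (.br (Nat.shiftLeft (nat_lit 0x1000000801) (nat_lit 102)) (.one (nat_lit 0x400000200300600c013400608d018026611)) (.br (Nat.shiftLeft (nat_lit 0x4000003) (nat_lit 112)) (.one (nat_lit 0x400000200400600c013400808d018026611)) (.one (nat_lit 0x400000300400600c013600808d018026611)))) (.br (Nat.shiftLeft (nat_lit 0x2800001) (nat_lit 113)) (.br (Nat.shiftLeft (nat_lit 0x5000001003) (nat_lit 100)) (.one (nat_lit 0x500000100200600c01320040ad418026611)) (.one (nat_lit 0x500000100300600c01320060ad418026611))) (.br (Nat.shiftLeft (nat_lit 0x1400000801) (nat_lit 102)) (.one (nat_lit 0x500000200300600c01340060ad418026611)) (.one (nat_lit 0x500000200400600c01340080ad418026611)))))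
def t73 : k73.all (jb2 57 fl b0) = true := by decide +kernel
noncomputable def k74 : KT := (.br (Nat.shiftLeft (nat_lit 0x6000001003) (nat_lit 100)) (.br (Nat.shiftLeft (nat_lit 0x3) (nat_lit 137)) (.one (nat_lit 0x500000300400600c01360080ad418026611)) (.one (nat_lit 0x600000100200600c01320040cd818026611))) (.br (Nat.shiftLeft (nat_lit 0x3000001) (nat_lit 113)) (.one (nat_lit 0x600000100300600c01320060cd818026611)) (.br (Nat.shiftLeft (nat_lit 0x1800000801) (nat_lit 102)) (.one (nat_lit 0x600000200300600c01340060cd818026611)) (.one (nat_lit 0x600000200400600c01340080cd818026611)))))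
def t74 : k74.all (jb2 57 fl b0) = true := by decide +kernel
noncomputable def k75 : KT := (.br (Nat.shiftLeft (nat_lit 0x3800001) (nat_lit 113)) (.br (Nat.shiftLeft (nat_lit 0x7) (nat_lit 136)) (.one (nat_lit 0x600000300400600c01360080cd818026611)) (.br (Nat.shiftLeft (nat_lit 0x7000001003) (nat_lit 100)) (.one (nat_lit 0x700000100200600c01320040edc18026611)) (.one (nat_lit 0x700000100300600c01320060edc18026611)))) (.br (Nat.shiftLeft (nat_lit 0x1c00000801) (nat_lit 102)) (.one (nat_lit 0x700000200300600c01340060edc18026611)) (.br (Nat.shiftLeft (nat_lit 0x7000003) (nat_lit 112)) (.one (nat_lit 0x700000200400600c01340080edc18026611)) (.one (nat_lit 0x700000300400600c01360080edc18026611)))))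
def t75 : k75.all (jb2 57 fl b0) = true := by decide +kernel
noncomputable def k76 : KT := (.br (Nat.shiftLeft (nat_lit 0x2000000801) (nat_lit 102)) (.br (Nat.shiftLeft (nat_lit 0x8000001003) (nat_lit 100)) (.one (nat_lit 0x800000100200600c013200410e018026611)) (.br (Nat.shiftLeft (nat_lit 0x4000001) (nat_lit 113)) (.one (nat_lit 0x800000100300600c013200610e018026611)) (.one (nat_lit 0x800000200300600c013400610e018026611)))) (.br (Nat.shiftLeft (nat_lit 0x9) (nat_lit 136)) (.br (Nat.shiftLeft (nat_lit 0x8000003) (nat_lit 112)) (.one (nat_lit 0x800000200400600c013400810e018026611)) (.one (nat_lit 0x800000300400600c013600810e018026611))) (.br (Nat.shiftLeft (nat_lit 0x9000001003) (nat_lit 100)) (.one (nat_lit 0x900000100200600c013200412e418026611)) (.one (nat_lit 0x900000100300600c013200612e418026611)))))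
def t76 : k76.all (jb2 57 fl b0) = true := by decide +kernel
noncomputable def k77 : KT := (.br (Nat.shiftLeft (nat_lit 0xb000001003) (nat_lit 100)) (.br (Nat.shiftLeft (nat_lit 0xa000001003) (nat_lit 100)) (.br (Nat.shiftLeft (nat_lit 0x9000003) (nat_lit 112)) (.br (Nat.shiftLeft (nat_lit 0x2400000801) (nat_lit 102)) (.one (nat_lit 0x900000200300600c013400612e418026611)) (.one (nat_lit 0x900000200400600c013400812e418026611))) (.br (Nat.shiftLeft (nat_lit 0x5) (nat_lit 137)) (.one (nat_lit 0x900000300400600c013600812e418026611)) (.one (nat_lit 0xa00000100200600c013200414e818026611)))) (.br (Nat.shiftLeft (nat_lit 0x2800000801) (nat_lit 102)) (.br (Nat.shiftLeft (nat_lit 0x5000001) (nat_lit 113)) (.one (nat_lit 0xa00000100300600c013200614e818026611)) (.one (nat_lit 0xa00000200300600c013400614e818026611))) (.br (Nat.shiftLeft (nat_lit 0xa000003) (nat_lit 112)) (.one (nat_lit 0xa00000200400600c013400814e818026611)) (.br (Nat.shiftLeft (nat_lit 0xb) (nat_lit 136)) (.one (nat_lit 0xa00000300400600c013600814e818026611))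 (.one (nat_lit 0xb00000100200600c013200416ec18026611)))))) (.br (Nat.shiftLeft (nat_lit 0x3) (nat_lit 138)) (.br (Nat.shiftLeft (nat_lit 0x2c00000801) (nat_lit 102)) (.br (Nat.shiftLeft (nat_lit 0x5800001) (nat_lit 113)) (.one (nat_lit 0xb00000100300600c013200616ec18026611)) (.one (nat_lit 0xb00000200300600c013400616ec18026611))) (.br (Nat.shiftLeft (nat_lit 0xb000003) (nat_lit 112)) (.one (nat_lit 0xb00000200400600c013400816ec18026611)) (.one (nat_lit 0xb00000300400600c013600816ec18026611)))) (.br (Nat.shiftLeft (nat_lit 0x6000001) (nat_lit 113)) (.br (Nat.shiftLeft (nat_lit 0xc000001003) (nat_lit 100)) (.one (nat_lit 0xc00000100200600c013200418f018026611)) (.one (nat_lit 0xc00000100300600c013200618f018026611))) (.br (Nat.shiftLeft (nat_lit 0x3000000801) (nat_lit 102)) (.one (nat_lit 0xc00000200300600c013400618f018026611)) (.br (Nat.shiftLeft (nat_lit 0xc000003) (nat_lit 112)) (.one (nat_lit 0xc00000200400600c013400818f018026611)) (.one (nat_lit 0xc00000300400600c013600818f018026611)))))))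
def t77 : k77.all (jb2 57 fl b0) = true := by decide +kernel
noncomputable def s3 : KT := (.br (nat_lit 0x600000200600c013000400c0d9826511) (.br (nat_lit 0x800000600c013000000c018128411) (.br (nat_lit 0x200400600c013400800c018027600) (.br (nat_lit 0x100400600c013200800c018026650) k58 k59) (.br (nat_lit 0x300400600c013600800c018027600) k60 (.br (nat_lit 0x400000600c013800000c018026411) k61 k62))) (.br (nat_lit 0x100200300600c013400600c038426760) (.br (nat_lit 0x100000500600c013000a00c038426511) k63 k64) (.br (nat_lit 0x200000500600c013000a00c058826511) k65 (.br (nat_lit 0x500000100600c013000200c0b9426511) k66 k67)))) (.br (nat_lit 0x400000100300600c013200608d018026611) (.br (nat_lit 0x800000200600c013000400c11a026511) (.br (nat_lit 0x700000200600c013000400c0f9c26511) k68 k69) (.br (nat_lit 0x900000200600c013000400c13a426511) k70 (.br (nat_lit 0xa00000500600c013000a00c15a826511) k71 k72))) (.br (nat_lit 0x600000200400600c01340080cd818026611) (.br (nat_lit 0x500000200400600c01340080ad418026611) k73 k74) (.br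 (nat_lit 0x700000300400600c01360080edc18026611) k75 (.br (nat_lit 0x900000100300600c013200612e418026611) k76 k77)))))
noncomputable def u3 : KT := (.one (nat_lit 0x600c013000000c018026430))
def w3 : u3.all (wj 57 s3) = true := by decide +kernel
def o3 : OkW 57 (jb2 57 fl) u3 := .lift s3 _ (.br _ _ _ (.br _ _ _ (.br _ _ _ (.br _ _ _ (.leaf b0 k58 t58) (.leaf b0 k59 t59)) (.br _ _ _ (.leaf b0 k60 t60) (.br _ _ _ (.leaf b0 k61 t61) (.leaf b0 k62 t62)))) (.br _ _ _ (.br _ _ _ (.leaf b64 k63 t63) (.leaf b0 k64 t64)) (.br _ _ _ (.leaf b0 k65 t65) (.br _ _ _ (.leaf b0 k66 t66) (.leaf b0 k67 t67))))) (.br _ _ _ (.br _ _ _ (.br _ _ _ (.leaf b0 k68 t68) (.leaf b0 k69 t69)) (.br _ _ _ (.leaf b71 k70 t70) (.br _ _ _ (.leaf b72 k71 t71) (.leaf b73 k72 t72)))) (.br _ _ _ (.br _ _ _ (.leaf b0 k73 t73) (.leaf b0 k74 t74)) (.br _ _ _ (.leaf b0 k75 t75) (.br _ _ _ (.leaf b0 k76 t76) (.leaf b0 k77 t77)))))) w3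
noncomputable def k78 : KT := (.br (Nat.shiftLeft (nat_lit 0x1) (nat_lit 102)) (.br (Nat.shiftLeft (nat_lit 0x1) (nat_lit 101)) (.br (Nat.shiftLeft (nat_lit 0x1) (nat_lit 100)) (.one (nat_lit 0x600c014000000c018029400)) (.one (nat_lit 0x100600c014000200c018029500))) (.br (Nat.shiftLeft (nat_lit 0x3) (nat_lit 100)) (.one (nat_lit 0x200600c014000400c018029500)) (.one (nat_lit 0x300600c014000600c018029500)))) (.br (Nat.shiftLeft (nat_lit 0x1) (nat_lit 112)) (.br (Nat.shiftLeft (nat_lit 0x5) (nat_lit 100)) (.one (nat_lit 0x400600c014000800c018029500)) (.one (nat_lit 0x500600c014000a00c018029500))) (.br (Nat.shiftLeft (nat_lit 0x801) (nat_lit 101)) (.one (nat_lit 0x100000600c014200000c018028411)) (.br (Nat.shiftLeft (nat_lit 0x1003) (nat_lit 100)) (.one (nat_lit 0x100200600c014200400c018029600)) (.one (nat_lit 0x100300600c014200600c018028650))))))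
def t78 : k78.all (jb2 57 fl b0) = true := by decide +kernel
noncomputable def k79 : KT := (.one (nat_lit 0x100400600c014200800c018028650))
def t79 : k79.all (jb2 57 fl b0) = true := by decide +kernel
noncomputable def k80 : KT := (.br (Nat.shiftLeft (nat_lit 0x1) (nat_lit 113)) (.one (nat_lit 0x100500600c014200a00c018028650)) (.br (Nat.shiftLeft (nat_lit 0x1001) (nat_lit 101)) (.one (nat_lit 0x200000600c014400000c018028411)) (.one (nat_lit 0x200300600c014400600c018029600))))
def t80 : k80.all (jb2 57 fl b0) = true := by decide +kernel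
noncomputable def k81 : KT := (.one (nat_lit 0x200400600c014400800c018028650))
def t81 : k81.all (jb2 57 fl b0) = true := by decide +kernel
noncomputable def k82 : KT := (.br (Nat.shiftLeft (nat_lit 0x3) (nat_lit 112)) (.one (nat_lit 0x200500600c014400a00c018028650)) (.one (nat_lit 0x300000600c014600000c018028411)))
def t82 : k82.all (jb2 57 fl b0) = true := by decide +kernel
noncomputable def k83 : KT := (.one (nat_lit 0x300400600c014600800c018028650))
def t83 : k83.all (jb2 57 fl b0) = true := by decide +kernel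
noncomputable def k84 : KT := (.br (Nat.shiftLeft (nat_lit 0x1) (nat_lit 114)) (.one (nat_lit 0x300500600c014600a00c018028650)) (.one (nat_lit 0x400000600c014800000c018028411)))
def t84 : k84.all (jb2 57 fl b0) = true := by decide +kernel
noncomputable def k85 : KT := (.br (Nat.shiftLeft (nat_lit 0xb) (nat_lit 112)) (.br (Nat.shiftLeft (nat_lit 0x7) (nat_lit 112)) (.br (Nat.shiftLeft (nat_lit 0x5) (nat_lit 112)) (.one (nat_lit 0x400500600c014800a00c018028650)) (.br (Nat.shiftLeft (nat_lit 0x3) (nat_lit 113)) (.one (nat_lit 0x500000600c014a00000c018028411)) (.one (nat_lit 0x600000600c014c00000c018028411)))) (.br (Nat.shiftLeft (nat_lit 0x9) (nat_lit 112)) (.br (Nat.shiftLeft (nat_lit 0x1) (nat_lit 115)) (.one (nat_lit 0x700000600c014e00000c018028411)) (.one (nat_lit 0x800000600c014000000c01812a411))) (.br (Nat.shiftLeft (nat_lit 0x5) (nat_lit 113)) (.one (nat_lit 0x900000600c014200000c01812a411)) (.one (nat_lit 0xa00000600c014400000c01812a411))))) (.br (Nat.shiftLeft (nat_lit 0x800001) (nat_lit 101)) (.br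 (Nat.shiftLeft (nat_lit 0x3) (nat_lit 114)) (.one (nat_lit 0xb00000600c014600000c01812a411)) (.br (Nat.shiftLeft (nat_lit 0x1) (nat_lit 124)) (.one (nat_lit 0xc00000600c014800000c01812a411)) (.one (nat_lit 0x100000100600c014000200c038428511)))) (.br (Nat.shiftLeft (nat_lit 0x400001) (nat_lit 102)) (.br (Nat.shiftLeft (nat_lit 0x1000003) (nat_lit 100)) (.one (nat_lit 0x100000200600c014000400c038428511)) (.one (nat_lit 0x100000300600c014000600c038428511))) (.br (Nat.shiftLeft (nat_lit 0x1000005) (nat_lit 100)) (.one (nat_lit 0x100000400600c014000800c038428511)) (.one (nat_lit 0x100000500600c014000a00c038428511))))))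
noncomputable def b86 : BT := .node (nat_lit 0xb) (nat_lit 0x258ca28963000cb640032d8076cdb66939000cb6000329e0689a59498496428a258c00425b000aa980032d9000cb6020026a0020a0020a001aa001aa001aa001aa001aa000f0000f0000f0000f0) .leaf .leaf
def t85 : k85.all (jb2 57 fl b86) = true := by decide +kernel
noncomputable def k86 : KT := (.br (Nat.shiftLeft (nat_lit 0x3000003) (nat_lit 100)) (.br (Nat.shiftLeft (nat_lit 0x800001) (nat_lit 102)) (.br (Nat.shiftLeft (nat_lit 0x1000001) (nat_lit 101)) (.br (Nat.shiftLeft (nat_lit 0x1) (nat_lit 125)) (.one (nat_lit 0x100200300600c014400600c038428760)) (.one (nat_lit 0x200000100600c014000200c058828511))) (.br (Nat.shiftLeft (nat_lit 0x2000003) (nat_lit 100)) (.one (nat_lit 0x200000200600c014000400c058828511)) (.one (nat_lit 0x200000300600c014000600c058828511)))) (.br (Nat.shiftLeft (nat_lit 0x3) (nat_lit 124)) (.br (Nat.shiftLeft (nat_lit 0x2000005) (nat_lit 100)) (.one (nat_lit 0x200000400600c014000800c058828511)) (.one (nat_lit 0x200000500600c014000a00c058828511))) (.br (Nat.shiftLeft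 (nat_lit 0x1800001) (nat_lit 101)) (.one (nat_lit 0x300000100600c014000200c078c28511)) (.one (nat_lit 0x300000200600c014000400c078c28511))))) (.br (Nat.shiftLeft (nat_lit 0x2000001) (nat_lit 101)) (.br (Nat.shiftLeft (nat_lit 0x3000005) (nat_lit 100)) (.br (Nat.shiftLeft (nat_lit 0xc00001) (nat_lit 102)) (.one (nat_lit 0x300000300600c014000600c078c28511)) (.one (nat_lit 0x300000400600c014000800c078c28511))) (.br (Nat.shiftLeft (nat_lit 0x1) (nat_lit 126)) (.one (nat_lit 0x300000500600c014000a00c078c28511)) (.one (nat_lit 0x400000100600c014000200c099028511)))) (.br (Nat.shiftLeft (nat_lit 0x1000001) (nat_lit 102)) (.br (Nat.shiftLeft (nat_lit 0x4000003) (nat_lit 100)) (.one (nat_lit 0x400000200600c014000400c099028511)) (.one (nat_lit 0x400000300600c014000600c099028511))) (.br (Nat.shiftLeft (nat_lit 0x4000005) (nat_lit 100)) (.one (nat_lit 0x400000400600c014000800c099028511)) (.br (Nat.shiftLeft (nat_lit 0x5) (nat_lit 124)) (.one (nat_lit 0x400000500600c014000a00c099028511)) (.one (nat_lit 0x500000100600c014000200c0b9428511)))))))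
def t86 : k86.all (jb2 57 fl b0) = true := by decide +kernel
noncomputable def k87 : KT := (.br (Nat.shiftLeft (nat_lit 0x5000005) (nat_lit 100)) (.br (Nat.shiftLeft (nat_lit 0x5000003) (nat_lit 100)) (.one (nat_lit 0x500000200600c014000400c0b9428511)) (.br (Nat.shiftLeft (nat_lit 0x1400001) (nat_lit 102)) (.one (nat_lit 0x500000300600c014000600c0b9428511)) (.one (nat_lit 0x500000400600c014000800c0b9428511)))) (.br (Nat.shiftLeft (nat_lit 0x3000001) (nat_lit 101)) (.br (Nat.shiftLeft (nat_lit 0x3) (nat_lit 125)) (.one (nat_lit 0x500000500600c014000a00c0b9428511)) (.one (nat_lit 0x600000100600c014000200c0d9828511))) (.br (Nat.shiftLeft (nat_lit 0x6000003) (nat_lit 100)) (.one (nat_lit 0x600000200600c014000400c0d9828511)) (.one (nat_lit 0x600000300600c014000600c0d9828511)))))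
def t87 : k87.all (jb2 57 fl b0) = true := by decide +kernel
noncomputable def k88 : KT := (.br (Nat.shiftLeft (nat_lit 0x3800001) (nat_lit 101)) (.br (Nat.shiftLeft (nat_lit 0x6000005) (nat_lit 100)) (.one (nat_lit 0x600000400600c014000800c0d9828511)) (.br (Nat.shiftLeft (nat_lit 0x7) (nat_lit 124)) (.one (nat_lit 0x600000500600c014000a00c0d9828511)) (.one (nat_lit 0x700000100600c014000200c0f9c28511)))) (.br (Nat.shiftLeft (nat_lit 0x1c00001) (nat_lit 102)) (.br (Nat.shiftLeft (nat_lit 0x7000003) (nat_lit 100)) (.one (nat_lit 0x700000200600c014000400c0f9c28511)) (.one (nat_lit 0x700000300600c014000600c0f9c28511))) (.br (Nat.shiftLeft (nat_lit 0x7000005) (nat_lit 100)) (.one (nat_lit 0x700000400600c014000800c0f9c28511)) (.one (nat_lit 0x700000500600c014000a00c0f9c28511)))))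
def t88 : k88.all (jb2 57 fl b0) = true := by decide +kernel
noncomputable def k89 : KT := (.br (Nat.shiftLeft (nat_lit 0x8000005) (nat_lit 100)) (.br (Nat.shiftLeft (nat_lit 0x8000003) (nat_lit 100)) (.br (Nat.shiftLeft (nat_lit 0x4000001) (nat_lit 101)) (.one (nat_lit 0x800000100600c014000200c11a028511)) (.one (nat_lit 0x800000200600c014000400c11a028511))) (.br (Nat.shiftLeft (nat_lit 0x2000001) (nat_lit 102)) (.one (nat_lit 0x800000300600c014000600c11a028511)) (.one (nat_lit 0x800000400600c014000800c11a028511)))) (.br (Nat.shiftLeft (nat_lit 0x4800001) (nat_lit 101)) (.br (Nat.shiftLeft (nat_lit 0x9) (nat_lit 124)) (.one (nat_lit 0x800000500600c014000a00c11a028511)) (.one (nat_lit 0x900000100600c014000200c13a428511))) (.br (Nat.shiftLeft (nat_lit 0x9000003) (nat_lit 100)) (.one (nat_lit 0x900000200600c014000400c13a428511)) (.one (nat_lit 0x900000300600c014000600c13a428511)))))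
def t89 : k89.all (jb2 57 fl b0) = true := by decide +kernel
noncomputable def k90 : KT := (.br (Nat.shiftLeft (nat_lit 0xb000005) (nat_lit 100)) (.br (Nat.shiftLeft (nat_lit 0x2800001) (nat_lit 102)) (.br (Nat.shiftLeft (nat_lit 0x5) (nat_lit 125)) (.br (Nat.shiftLeft (nat_lit 0x9000005) (nat_lit 100)) (.one (nat_lit 0x900000400600c014000800c13a428511)) (.one (nat_lit 0x900000500600c014000a00c13a428511))) (.br (Nat.shiftLeft (nat_lit 0x5000001) (nat_lit 101)) (.one (nat_lit 0xa00000100600c014000200c15a828511)) (.br (Nat.shiftLeft (nat_lit 0xa000003) (nat_lit 100)) (.one (nat_lit 0xa00000200600c014000400c15a828511)) (.one (nat_lit 0xa00000300600c014000600c15a828511))))) (.br (Nat.shiftLeft (nat_lit 0x5800001) (nat_lit 101)) (.br (Nat.shiftLeft (nat_lit 0xa000005) (nat_lit 100)) (.one (nat_lit 0xa00000400600c014000800c15a828511)) (.br (Nat.shiftLeft (nat_lit 0xb) (nat_lit 124)) (.one (nat_lit 0xa00000500600c014000a00c15a828511)) (.one (nat_lit 0xb00000100600c014000200c17ac28511)))) (.br (Nat.shiftLeft (nat_lit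 0xb000003) (nat_lit 100)) (.one (nat_lit 0xb00000200600c014000400c17ac28511)) (.br (Nat.shiftLeft (nat_lit 0x2c00001) (nat_lit 102)) (.one (nat_lit 0xb00000300600c014000600c17ac28511)) (.one (nat_lit 0xb00000400600c014000800c17ac28511)))))) (.br (Nat.shiftLeft (nat_lit 0x1) (nat_lit 136)) (.br (Nat.shiftLeft (nat_lit 0xc000003) (nat_lit 100)) (.br (Nat.shiftLeft (nat_lit 0x3) (nat_lit 126)) (.one (nat_lit 0xb00000500600c014000a00c17ac28511)) (.br (Nat.shiftLeft (nat_lit 0x6000001) (nat_lit 101)) (.one (nat_lit 0xc00000100600c014000200c19b028511)) (.one (nat_lit 0xc00000200600c014000400c19b028511)))) (.br (Nat.shiftLeft (nat_lit 0x3000001) (nat_lit 102)) (.one (nat_lit 0xc00000300600c014000600c19b028511)) (.br (Nat.shiftLeft (nat_lit 0xc000005) (nat_lit 100)) (.one (nat_lit 0xc00000400600c014000800c19b028511)) (.one (nat_lit 0xc00000500600c014000a00c19b028511))))) (.br (Nat.shiftLeft (nat_lit 0x1000001) (nat_lit 113)) (.br (Nat.shiftLeft (nat_lit 0x800001) (nat_lit 113)) (.one (nat_lit 0x100000100200600c014200402c418028611))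 (.br (Nat.shiftLeft (nat_lit 0x1) (nat_lit 137)) (.one (nat_lit 0x100000200300600c014400602c418028611)) (.one (nat_lit 0x200000100200600c014200404c818028611)))) (.br (Nat.shiftLeft (nat_lit 0x3) (nat_lit 136)) (.one (nat_lit 0x200000200300600c014400604c818028611)) (.br (Nat.shiftLeft (nat_lit 0x1800001) (nat_lit 113)) (.one (nat_lit 0x300000100200600c014200406cc18028611)) (.one (nat_lit 0x300000200300600c014400606cc18028611)))))))
noncomputable def b91 : BT := .node (nat_lit 0x1) (nat_lit 0xdb227593040032d8000ab8410008800028) .leaf .leaf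
def t90 : k90.all (jb2 57 fl b91) = true := by decide +kernel
noncomputable def k91 : KT := (.br (Nat.shiftLeft (nat_lit 0x2800001) (nat_lit 113)) (.br (Nat.shiftLeft (nat_lit 0x2000001) (nat_lit 113)) (.one (nat_lit 0x400000100200600c014200408d018028611)) (.br (Nat.shiftLeft (nat_lit 0x5) (nat_lit 136)) (.one (nat_lit 0x400000200300600c014400608d018028611)) (.one (nat_lit 0x500000100200600c01420040ad418028611)))) (.br (Nat.shiftLeft (nat_lit 0x3000001) (nat_lit 113)) (.br (Nat.shiftLeft (nat_lit 0x3) (nat_lit 137)) (.one (nat_lit 0x500000200300600c01440060ad418028611)) (.one (nat_lit 0x600000100200600c01420040cd818028611))) (.br (Nat.shiftLeft (nat_lit 0x7) (nat_lit 136)) (.one (nat_lit 0x600000200300600c01440060cd818028611)) (.one (nat_lit 0x700000100200600c01420040edc18028611)))))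
def t91 : k91.all (jb2 57 fl b0) = true := by decide +kernel
noncomputable def k92 : KT := (.br (Nat.shiftLeft (nat_lit 0x5) (nat_lit 137)) (.br (Nat.shiftLeft (nat_lit 0x4000001) (nat_lit 113)) (.br (Nat.shiftLeft (nat_lit 0x1) (nat_lit 139)) (.one (nat_lit 0x700000200300600c01440060edc18028611)) (.one (nat_lit 0x800000100200600c014200410e018028611))) (.br (Nat.shiftLeft (nat_lit 0x9) (nat_lit 136)) (.one (nat_lit 0x800000200300600c014400610e018028611)) (.br (Nat.shiftLeft (nat_lit 0x4800001) (nat_lit 113)) (.one (nat_lit 0x900000100200600c014200412e418028611)) (.one (nat_lit 0x900000200300600c014400612e418028611))))) (.br (Nat.shiftLeft (nat_lit 0x5800001) (nat_lit 113)) (.br (Nat.shiftLeft (nat_lit 0x5000001) (nat_lit 113)) (.one (nat_lit 0xa00000100200600c014200414e818028611)) (.br (Nat.shiftLeft (nat_lit 0xb) (nat_lit 136)) (.one (nat_lit 0xa00000200300600c014400614e818028611)) (.one (nat_lit 0xb00000100200600c014200416ec18028611)))) (.br (Nat.shiftLeft (nat_lit 0x3) (nat_lit 138)) (.one (nat_lit 0xb00000200300600c014400616ec18028611))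 (.br (Nat.shiftLeft (nat_lit 0x6000001) (nat_lit 113)) (.one (nat_lit 0xc00000100200600c014200418f018028611)) (.one (nat_lit 0xc00000200300600c014400618f018028611))))))
def t92 : k92.all (jb2 57 fl b0) = true := by decide +kernel
noncomputable def s4 : KT := (.br (nat_lit 0x400000600c014800000c018028411) (.br (nat_lit 0x200300600c014400600c018029600) (.br (nat_lit 0x100300600c014200600c018028650) k78 (.br (nat_lit 0x100400600c014200800c018028650) k79 k80)) (.br (nat_lit 0x300000600c014600000c018028411) (.br (nat_lit 0x200400600c014400800c018028650) k81 k82) (.br (nat_lit 0x300400600c014600800c018028650) k83 k84))) (.br (nat_lit 0x700000500600c014000a00c0f9c28511) (.br (nat_lit 0x500000100600c014000200c0b9428511) (.br (nat_lit 0x100000500600c014000a00c038428511) k85 k86) (.br (nat_lit 0x600000300600c014000600c0d9828511) k87 k88)) (.br (nat_lit 0x300000200300600c014400606cc18028611) (.br (nat_lit 0x900000300600c014000600c13a428511) k89 k90) (.br (nat_lit 0x700000100200600c01420040edc18028611) k91 k92))))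
noncomputable def u4 : KT := (.one (nat_lit 0x600c014000000c018028430))
def w4 : u4.all (wj 57 s4) = true := by decide +kernel
def o4 : OkW 57 (jb2 57 fl) u4 := .lift s4 _ (.br _ _ _ (.br _ _ _ (.br _ _ _ (.leaf b0 k78 t78) (.br _ _ _ (.leaf b0 k79 t79) (.leaf b0 k80 t80))) (.br _ _ _ (.br _ _ _ (.leaf b0 k81 t81) (.leaf b0 k82 t82)) (.br _ _ _ (.leaf b0 k83 t83) (.leaf b0 k84 t84)))) (.br _ _ _ (.br _ _ _ (.br _ _ _ (.leaf b86 k85 t85) (.leaf b0 k86 t86)) (.br _ _ _ (.leaf b0 k87 t87) (.leaf b0 k88 t88))) (.br _ _ _ (.br _ _ _ (.leaf b0 k89 t89) (.leaf b91 k90 t90)) (.br _ _ _ (.leaf b0 k91 t91) (.leaf b0 k92 t92))))) w4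
noncomputable def k93 : KT := (.br (Nat.shiftLeft (nat_lit 0x600c017) (nat_lit 64)) (.br (Nat.shiftLeft (nat_lit 0x300600b) (nat_lit 65)) (.one (nat_lit 0x600c015000000c01802b400)) (.one (nat_lit 0x600c016000000c01802d400))) (.br (Nat.shiftLeft (nat_lit 0x1) (nat_lit 100)) (.one (nat_lit 0x600c017000000c01802f400)) (.one (nat_lit 0x100600c015000200c01802a540))))
def t93 : k93.all (jb2 57 fl b0) = true := by decide +kernel
noncomputable def k94 : KT := (.one (nat_lit 0x100600c016000200c01802c540))
def t94 : k94.all (jb2 57 fl b0) = true := by decide +kernel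
noncomputable def k95 : KT := (.br (Nat.shiftLeft (nat_lit 0x1) (nat_lit 101)) (.one (nat_lit 0x100600c017000200c01802e540)) (.br (Nat.shiftLeft (nat_lit 0x100300600b) (nat_lit 65)) (.one (nat_lit 0x200600c015000400c01802b500)) (.one (nat_lit 0x200600c016000400c01802d500))))
def t95 : k95.all (jb2 57 fl b0) = true := by decide +kernel
noncomputable def k96 : KT := (.br (Nat.shiftLeft (nat_lit 0x1) (nat_lit 102)) (.br (Nat.shiftLeft (nat_lit 0x180300600b) (nat_lit 65)) (.br (Nat.shiftLeft (nat_lit 0x3) (nat_lit 100)) (.one (nat_lit 0x200600c017000400c01802e540)) (.one (nat_lit 0x300600c015000600c01802b500))) (.br (Nat.shiftLeft (nat_lit 0x300600c017) (nat_lit 64)) (.one (nat_lit 0x300600c016000600c01802d500)) (.one (nat_lit 0x300600c017000600c01802f500)))) (.br (Nat.shiftLeft (nat_lit 0x400600c017) (nat_lit 64)) (.br (Nat.shiftLeft (nat_lit 0x200300600b) (nat_lit 65)) (.one (nat_lit 0x400600c015000800c01802b500)) (.one (nat_lit 0x400600c016000800c01802d500))) (.br (Nat.shiftLeft (nat_lit 0x5) (nat_lit 100))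 (.one (nat_lit 0x400600c017000800c01802f500)) (.br (Nat.shiftLeft (nat_lit 0x280300600b) (nat_lit 65)) (.one (nat_lit 0x500600c015000a00c01802b500)) (.one (nat_lit 0x500600c016000a00c01802d500))))))
def t96 : k96.all (jb2 57 fl b0) = true := by decide +kernel
noncomputable def k97 : KT := (.br (Nat.shiftLeft (nat_lit 0x80000300600b) (nat_lit 65)) (.br (Nat.shiftLeft (nat_lit 0x1) (nat_lit 112)) (.one (nat_lit 0x500600c017000a00c01802e540)) (.one (nat_lit 0x100000600c015200000c01802a411))) (.br (Nat.shiftLeft (nat_lit 0x100000600c017) (nat_lit 64)) (.one (nat_lit 0x100000600c016200000c01802c411)) (.one (nat_lit 0x100000600c017200000c01802e411))))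
def t97 : k97.all (jb2 57 fl b0) = true := by decide +kernel
noncomputable def k98 : KT := (.one (nat_lit 0x100200600c015200400c01802a650))
def t98 : k98.all (jb2 57 fl b0) = true := by decide +kernel
noncomputable def k99 : KT := (.one (nat_lit 0x100200600c016200400c01802c650))
def t99 : k99.all (jb2 57 fl b0) = true := by decide +kernel
noncomputable def k100 : KT := (.one (nat_lit 0x100300600c015200600c01802a650))
def t100 : k100.all (jb2 57 fl b0) = true := by decide +kernel
noncomputable def k101 : KT := (.br (Nat.shiftLeft (nat_lit 0x100300600c017) (nat_lit 64)) (.one (nat_lit 0x100300600c016200600c01802c650)) (.one (nat_lit 0x100300600c017200600c01802e650)))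
def t101 : k101.all (jb2 57 fl b0) = true := by decide +kernel
noncomputable def k102 : KT := (.br (Nat.shiftLeft (nat_lit 0x80200300600b) (nat_lit 65)) (.one (nat_lit 0x100400600c015200800c01802a650)) (.br (Nat.shiftLeft (nat_lit 0x100400600c017) (nat_lit 64)) (.one (nat_lit 0x100400600c016200800c01802c650)) (.one (nat_lit 0x100400600c017200800c01802e650))))
def t102 : k102.all (jb2 57 fl b0) = true := by decide +kernel
noncomputable def k103 : KT := (.br (Nat.shiftLeft (nat_lit 0x1) (nat_lit 113)) (.br (Nat.shiftLeft (nat_lit 0x80280300600b) (nat_lit 65)) (.one (nat_lit 0x100500600c015200a00c01802a650)) (.one (nat_lit 0x100500600c016200a00c01802c650))) (.br (Nat.shiftLeft (nat_lit 0x100000300600b) (nat_lit 65)) (.one (nat_lit 0x200000600c015400000c01802a411)) (.br (Nat.shiftLeft (nat_lit 0x200000600c017) (nat_lit 64)) (.one (nat_lit 0x200000600c016400000c01802c411)) (.one (nat_lit 0x200000600c017400000c01802e411)))))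
def t103 : k103.all (jb2 57 fl b0) = true := by decide +kernel
noncomputable def k104 : KT := (.one (nat_lit 0x200300600c015400600c01802a650))
def t104 : k104.all (jb2 57 fl b0) = true := by decide +kernel
noncomputable def k105 : KT := (.br (Nat.shiftLeft (nat_lit 0x200300600c017) (nat_lit 64)) (.one (nat_lit 0x200300600c016400600c01802c650)) (.one (nat_lit 0x200300600c017400600c01802e650)))
def t105 : k105.all (jb2 57 fl b0) = true := by decide +kernel
noncomputable def k106 : KT := (.br (Nat.shiftLeft (nat_lit 0x100200300600b) (nat_lit 65)) (.one (nat_lit 0x200400600c015400800c01802a650)) (.one (nat_lit 0x200400600c016400800c01802c650)))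
def t106 : k106.all (jb2 57 fl b0) = true := by decide +kernel
noncomputable def k107 : KT := (.br (Nat.shiftLeft (nat_lit 0x3) (nat_lit 112)) (.br (Nat.shiftLeft (nat_lit 0x2005) (nat_lit 100)) (.one (nat_lit 0x200400600c017400800c01802e650)) (.br (Nat.shiftLeft (nat_lit 0x100280300600b) (nat_lit 65)) (.one (nat_lit 0x200500600c015400a00c01802a650)) (.one (nat_lit 0x200500600c016400a00c01802c650)))) (.br (Nat.shiftLeft (nat_lit 0x180000300600b) (nat_lit 65)) (.one (nat_lit 0x300000600c015600000c01802a411)) (.br (Nat.shiftLeft (nat_lit 0x300000600c017) (nat_lit 64)) (.one (nat_lit 0x300000600c016600000c01802c411)) (.one (nat_lit 0x300000600c017600000c01802e411)))))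
def t107 : k107.all (jb2 57 fl b0) = true := by decide +kernel
noncomputable def k108 : KT := (.br (Nat.shiftLeft (nat_lit 0x180200300600b) (nat_lit 65)) (.one (nat_lit 0x300400600c015600800c01802a650)) (.one (nat_lit 0x300400600c016600800c01802c650)))
def t108 : k108.all (jb2 57 fl b0) = true := by decide +kernel
noncomputable def k109 : KT := (.br (Nat.shiftLeft (nat_lit 0x1) (nat_lit 114)) (.br (Nat.shiftLeft (nat_lit 0x3005) (nat_lit 100)) (.one (nat_lit 0x300400600c017600800c01802e650)) (.br (Nat.shiftLeft (nat_lit 0x180280300600b) (nat_lit 65)) (.one (nat_lit 0x300500600c015600a00c01802a650)) (.one (nat_lit 0x300500600c016600a00c01802c650)))) (.br (Nat.shiftLeft (nat_lit 0x200000300600b) (nat_lit 65)) (.one (nat_lit 0x400000600c015800000c01802a411)) (.br (Nat.shiftLeft (nat_lit 0x400000600c017) (nat_lit 64)) (.one (nat_lit 0x400000600c016800000c01802c411)) (.one (nat_lit 0x400000600c017800000c01802e411)))))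
def t109 : k109.all (jb2 57 fl b0) = true := by decide +kernel
noncomputable def k110 : KT := (.br (Nat.shiftLeft (nat_lit 0x3) (nat_lit 113)) (.br (Nat.shiftLeft (nat_lit 0x5) (nat_lit 112)) (.br (Nat.shiftLeft (nat_lit 0x200280300600b) (nat_lit 65)) (.one (nat_lit 0x400500600c015800a00c01802a650)) (.one (nat_lit 0x400500600c016800a00c01802c650))) (.br (Nat.shiftLeft (nat_lit 0x280000300600b) (nat_lit 65)) (.one (nat_lit 0x500000600c015a00000c01802a411)) (.br (Nat.shiftLeft (nat_lit 0x500000600c017) (nat_lit 64)) (.one (nat_lit 0x500000600c016a00000c01802c411)) (.one (nat_lit 0x500000600c017a00000c01802e411))))) (.br (Nat.shiftLeft (nat_lit 0x7) (nat_lit 112)) (.br (Nat.shiftLeft (nat_lit 0x300000300600b) (nat_lit 65)) (.one (nat_lit 0x600000600c015c00000c01802a411)) (.br (Nat.shiftLeft (nat_lit 0x600000600c017) (nat_lit 64)) (.one (nat_lit 0x600000600c016c00000c01802c411)) (.one (nat_lit 0x600000600c017c00000c01802e411)))) (.br (Nat.shiftLeft (nat_lit 0x380000300600b) (nat_lit 65)) (.one (nat_lit 0x700000600c015e00000c01802a411))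 (.br (Nat.shiftLeft (nat_lit 0x700000600c017) (nat_lit 64)) (.one (nat_lit 0x700000600c016e00000c01802c411)) (.one (nat_lit 0x700000600c017e00000c01802e411))))))
def t110 : k110.all (jb2 57 fl b0) = true := by decide +kernel
noncomputable def k111 : KT := (.br (Nat.shiftLeft (nat_lit 0x400001) (nat_lit 102)) (.br (Nat.shiftLeft (nat_lit 0x580000300600b) (nat_lit 65)) (.br (Nat.shiftLeft (nat_lit 0x900000600c017) (nat_lit 64)) (.br (Nat.shiftLeft (nat_lit 0x800000600c017) (nat_lit 64)) (.br (Nat.shiftLeft (nat_lit 0x400000300600b) (nat_lit 65)) (.one (nat_lit 0x800000600c015000000c01812c411)) (.one (nat_lit 0x800000600c016000000c01812e411))) (.br (Nat.shiftLeft (nat_lit 0x9) (nat_lit 112)) (.one (nat_lit 0x800000600c017000000c018130411)) (.br (Nat.shiftLeft (nat_lit 0x480000300600b) (nat_lit 65)) (.one (nat_lit 0x900000600c015200000c01812c411)) (.one (nat_lit 0x900000600c016200000c01812e411))))) (.br (Nat.shiftLeft (nat_lit 0x500000300600b) (nat_lit 65)) (.br (Nat.shiftLeft (nat_lit 0x5) (nat_lit 113)) (.one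 (nat_lit 0x900000600c017200000c018130411)) (.one (nat_lit 0xa00000600c015400000c01812c411))) (.br (Nat.shiftLeft (nat_lit 0xa00000600c017) (nat_lit 64)) (.one (nat_lit 0xa00000600c016400000c01812e411)) (.br (Nat.shiftLeft (nat_lit 0xb) (nat_lit 112)) (.one (nat_lit 0xa00000600c017400000c018130411)) (.one (nat_lit 0xb00000600c015600000c01812c411)))))) (.br (Nat.shiftLeft (nat_lit 0x1) (nat_lit 124)) (.br (Nat.shiftLeft (nat_lit 0x3) (nat_lit 114)) (.br (Nat.shiftLeft (nat_lit 0xb00000600c017) (nat_lit 64)) (.one (nat_lit 0xb00000600c016600000c01812e411)) (.one (nat_lit 0xb00000600c017600000c018130411))) (.br (Nat.shiftLeft (nat_lit 0x600000300600b) (nat_lit 65)) (.one (nat_lit 0xc00000600c015800000c01812c411)) (.br (Nat.shiftLeft (nat_lit 0xc00000600c017) (nat_lit 64)) (.one (nat_lit 0xc00000600c016800000c01812e411)) (.one (nat_lit 0xc00000600c017800000c018130411))))) (.br (Nat.shiftLeft (nat_lit 0x1000003) (nat_lit 100)) (.br (Nat.shiftLeft (nat_lit 0x80000100300600b) (nat_lit 65)) (.one (nat_lit 0x100000200600c015000400c03842a511))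 (.one (nat_lit 0x100000200600c016000400c03842c511))) (.br (Nat.shiftLeft (nat_lit 0x80000180300600b) (nat_lit 65)) (.one (nat_lit 0x100000300600c015000600c03842a511)) (.br (Nat.shiftLeft (nat_lit 0x100000300600c017) (nat_lit 64)) (.one (nat_lit 0x100000300600c016000600c03842c511)) (.one (nat_lit 0x100000300600c017000600c03842e511))))))) (.br (Nat.shiftLeft (nat_lit 0x800001) (nat_lit 102)) (.br (Nat.shiftLeft (nat_lit 0x1) (nat_lit 125)) (.br (Nat.shiftLeft (nat_lit 0x100000400600c017) (nat_lit 64)) (.br (Nat.shiftLeft (nat_lit 0x80000200300600b) (nat_lit 65)) (.one (nat_lit 0x100000400600c015000800c03842a511)) (.one (nat_lit 0x100000400600c016000800c03842c511))) (.br (Nat.shiftLeft (nat_lit 0x1000005) (nat_lit 100)) (.one (nat_lit 0x100000400600c017000800c03842e511)) (.br (Nat.shiftLeft (nat_lit 0x80000280300600b) (nat_lit 65)) (.one (nat_lit 0x100000500600c015000a00c03842a511)) (.one (nat_lit 0x100000500600c016000a00c03842c511))))) (.br (Nat.shiftLeft (nat_lit 0x2000003) (nat_lit 100)) (.br (Nat.shiftLeft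 (nat_lit 0x100000100300600b) (nat_lit 65)) (.one (nat_lit 0x200000200600c015000400c05882a511)) (.one (nat_lit 0x200000200600c016000400c05882c511))) (.br (Nat.shiftLeft (nat_lit 0x100000180300600b) (nat_lit 65)) (.one (nat_lit 0x200000300600c015000600c05882a511)) (.br (Nat.shiftLeft (nat_lit 0x200000300600c017) (nat_lit 64)) (.one (nat_lit 0x200000300600c016000600c05882c511)) (.one (nat_lit 0x200000300600c017000600c05882e511)))))) (.br (Nat.shiftLeft (nat_lit 0x3) (nat_lit 124)) (.br (Nat.shiftLeft (nat_lit 0x200000400600c017) (nat_lit 64)) (.br (Nat.shiftLeft (nat_lit 0x100000200300600b) (nat_lit 65)) (.one (nat_lit 0x200000400600c015000800c05882a511)) (.one (nat_lit 0x200000400600c016000800c05882c511))) (.br (Nat.shiftLeft (nat_lit 0x2000005) (nat_lit 100)) (.one (nat_lit 0x200000400600c017000800c05882e511)) (.br (Nat.shiftLeft (nat_lit 0x100000280300600b) (nat_lit 65)) (.one (nat_lit 0x200000500600c015000a00c05882a511)) (.one (nat_lit 0x200000500600c016000a00c05882c511))))) (.br (Nat.shiftLeft (nat_lit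 0x3000003) (nat_lit 100)) (.br (Nat.shiftLeft (nat_lit 0x180000100300600b) (nat_lit 65)) (.one (nat_lit 0x300000200600c015000400c078c2a511)) (.one (nat_lit 0x300000200600c016000400c078c2c511))) (.br (Nat.shiftLeft (nat_lit 0x180000180300600b) (nat_lit 65)) (.one (nat_lit 0x300000300600c015000600c078c2a511)) (.br (Nat.shiftLeft (nat_lit 0x300000300600c017) (nat_lit 64)) (.one (nat_lit 0x300000300600c016000600c078c2c511)) (.one (nat_lit 0x300000300600c017000600c078c2e511))))))))
def t111 : k111.all (jb2 57 fl b0) = true := by decide +kernel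
noncomputable def k112 : KT := (.br (Nat.shiftLeft (nat_lit 0x200000180300600b) (nat_lit 65)) (.br (Nat.shiftLeft (nat_lit 0x180000280300600b) (nat_lit 65)) (.br (Nat.shiftLeft (nat_lit 0x300000400600c017) (nat_lit 64)) (.br (Nat.shiftLeft (nat_lit 0x180000200300600b) (nat_lit 65)) (.one (nat_lit 0x300000400600c015000800c078c2a511)) (.one (nat_lit 0x300000400600c016000800c078c2c511))) (.br (Nat.shiftLeft (nat_lit 0x3000005) (nat_lit 100)) (.one (nat_lit 0x300000400600c017000800c078c2e511)) (.one (nat_lit 0x300000500600c015000a00c078c2a511)))) (.br (Nat.shiftLeft (nat_lit 0x200000100300600b) (nat_lit 65)) (.br (Nat.shiftLeft (nat_lit 0x1) (nat_lit 126)) (.one (nat_lit 0x300000500600c016000a00c078c2c511)) (.one (nat_lit 0x400000200600c015000400c09902a511))) (.br (Nat.shiftLeft (nat_lit 0x4000003) (nat_lit 100)) (.one (nat_lit 0x400000200600c016000400c09902c511)) (.one (nat_lit 0x400000300600c015000600c09902a511))))) (.br (Nat.shiftLeft (nat_lit 0x400000400600c017) (nat_lit 64)) (.br (Nat.shiftLeft (nat_lit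 0x1000001) (nat_lit 102)) (.br (Nat.shiftLeft (nat_lit 0x400000300600c017) (nat_lit 64)) (.one (nat_lit 0x400000300600c016000600c09902c511)) (.one (nat_lit 0x400000300600c017000600c09902e511))) (.br (Nat.shiftLeft (nat_lit 0x200000200300600b) (nat_lit 65)) (.one (nat_lit 0x400000400600c015000800c09902a511)) (.one (nat_lit 0x400000400600c016000800c09902c511)))) (.br (Nat.shiftLeft (nat_lit 0x200000280300600b) (nat_lit 65)) (.br (Nat.shiftLeft (nat_lit 0x4000005) (nat_lit 100)) (.one (nat_lit 0x400000400600c017000800c09902e511)) (.one (nat_lit 0x400000500600c015000a00c09902a511))) (.br (Nat.shiftLeft (nat_lit 0x5) (nat_lit 124)) (.one (nat_lit 0x400000500600c016000a00c09902c511)) (.br (Nat.shiftLeft (nat_lit 0x280000100300600b) (nat_lit 65)) (.one (nat_lit 0x500000200600c015000400c0b942a511)) (.one (nat_lit 0x500000200600c016000400c0b942c511)))))))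
def t112 : k112.all (jb2 57 fl b0) = true := by decide +kernel
noncomputable def k113 : KT := (.br (Nat.shiftLeft (nat_lit 0x500000400600c017) (nat_lit 64)) (.br (Nat.shiftLeft (nat_lit 0x500000300600c017) (nat_lit 64)) (.br (Nat.shiftLeft (nat_lit 0x280000180300600b) (nat_lit 65)) (.one (nat_lit 0x500000300600c015000600c0b942a511)) (.one (nat_lit 0x500000300600c016000600c0b942c511))) (.br (Nat.shiftLeft (nat_lit 0x1400001) (nat_lit 102)) (.one (nat_lit 0x500000300600c017000600c0b942e511)) (.br (Nat.shiftLeft (nat_lit 0x280000200300600b) (nat_lit 65)) (.one (nat_lit 0x500000400600c015000800c0b942a511)) (.one (nat_lit 0x500000400600c016000800c0b942c511))))) (.br (Nat.shiftLeft (nat_lit 0x280000280300600b) (nat_lit 65)) (.br (Nat.shiftLeft (nat_lit 0x5000005) (nat_lit 100)) (.one (nat_lit 0x500000400600c017000800c0b942e511)) (.one (nat_lit 0x500000500600c015000a00c0b942a511))) (.br (Nat.shiftLeft (nat_lit 0x3) (nat_lit 125)) (.one (nat_lit 0x500000500600c016000a00c0b942c511)) (.br (Nat.shiftLeft (nat_lit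 0x300000100300600b) (nat_lit 65)) (.one (nat_lit 0x600000200600c015000400c0d982a511)) (.one (nat_lit 0x600000200600c016000400c0d982c511))))))
def t113 : k113.all (jb2 57 fl b0) = true := by decide +kernel
noncomputable def k114 : KT := (.br (Nat.shiftLeft (nat_lit 0x600000400600c017) (nat_lit 64)) (.br (Nat.shiftLeft (nat_lit 0x600000300600c017) (nat_lit 64)) (.br (Nat.shiftLeft (nat_lit 0x300000180300600b) (nat_lit 65)) (.one (nat_lit 0x600000300600c015000600c0d982a511)) (.one (nat_lit 0x600000300600c016000600c0d982c511))) (.br (Nat.shiftLeft (nat_lit 0x1800001) (nat_lit 102)) (.one (nat_lit 0x600000300600c017000600c0d982e511)) (.br (Nat.shiftLeft (nat_lit 0x300000200300600b) (nat_lit 65)) (.one (nat_lit 0x600000400600c015000800c0d982a511)) (.one (nat_lit 0x600000400600c016000800c0d982c511))))) (.br (Nat.shiftLeft (nat_lit 0x300000280300600b) (nat_lit 65)) (.br (Nat.shiftLeft (nat_lit 0x6000005) (nat_lit 100)) (.one (nat_lit 0x600000400600c017000800c0d982e511)) (.one (nat_lit 0x600000500600c015000a00c0d982a511)))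 (.br (Nat.shiftLeft (nat_lit 0x7) (nat_lit 124)) (.one (nat_lit 0x600000500600c016000a00c0d982c511)) (.br (Nat.shiftLeft (nat_lit 0x380000100300600b) (nat_lit 65)) (.one (nat_lit 0x700000200600c015000400c0f9c2a511)) (.one (nat_lit 0x700000200600c016000400c0f9c2c511))))))
def t114 : k114.all (jb2 57 fl b0) = true := by decide +kernel
noncomputable def k115 : KT := (.br (Nat.shiftLeft (nat_lit 0x380000280300600b) (nat_lit 65)) (.br (Nat.shiftLeft (nat_lit 0x1c00001) (nat_lit 102)) (.br (Nat.shiftLeft (nat_lit 0x380000180300600b) (nat_lit 65)) (.one (nat_lit 0x700000300600c015000600c0f9c2a511)) (.br (Nat.shiftLeft (nat_lit 0x700000300600c017) (nat_lit 64)) (.one (nat_lit 0x700000300600c016000600c0f9c2c511)) (.one (nat_lit 0x700000300600c017000600c0f9c2e511)))) (.br (Nat.shiftLeft (nat_lit 0x700000400600c017) (nat_lit 64)) (.br (Nat.shiftLeft (nat_lit 0x380000200300600b) (nat_lit 65)) (.one (nat_lit 0x700000400600c015000800c0f9c2a511)) (.one (nat_lit 0x700000400600c016000800c0f9c2c511))) (.br (Nat.shiftLeft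 (nat_lit 0x7000005) (nat_lit 100)) (.one (nat_lit 0x700000400600c017000800c0f9c2e511)) (.one (nat_lit 0x700000500600c015000a00c0f9c2a511))))) (.br (Nat.shiftLeft (nat_lit 0x8000003) (nat_lit 100)) (.br (Nat.shiftLeft (nat_lit 0x1) (nat_lit 127)) (.one (nat_lit 0x700000500600c016000a00c0f9c2c511)) (.br (Nat.shiftLeft (nat_lit 0x400000100300600b) (nat_lit 65)) (.one (nat_lit 0x800000200600c015000400c11a02a511)) (.one (nat_lit 0x800000200600c016000400c11a02c511)))) (.br (Nat.shiftLeft (nat_lit 0x800000300600c017) (nat_lit 64)) (.br (Nat.shiftLeft (nat_lit 0x400000180300600b) (nat_lit 65)) (.one (nat_lit 0x800000300600c015000600c11a02a511)) (.one (nat_lit 0x800000300600c016000600c11a02c511))) (.br (Nat.shiftLeft (nat_lit 0x2000001) (nat_lit 102)) (.one (nat_lit 0x800000300600c017000600c11a02e511)) (.one (nat_lit 0x800000400600c015000800c11a02a511))))))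
def t115 : k115.all (jb2 57 fl b0) = true := by decide +kernel
noncomputable def k116 : KT := (.br (Nat.shiftLeft (nat_lit 0x500000200300600b) (nat_lit 65)) (.br (Nat.shiftLeft (nat_lit 0x480000200300600b) (nat_lit 65)) (.br (Nat.shiftLeft (nat_lit 0x480000100300600b) (nat_lit 65)) (.br (Nat.shiftLeft (nat_lit 0x8000005) (nat_lit 100)) (.br (Nat.shiftLeft (nat_lit 0x800000400600c017) (nat_lit 64)) (.one (nat_lit 0x800000400600c016000800c11a02c511)) (.one (nat_lit 0x800000400600c017000800c11a02e511))) (.br (Nat.shiftLeft (nat_lit 0x400000280300600b) (nat_lit 65)) (.one (nat_lit 0x800000500600c015000a00c11a02a511)) (.br (Nat.shiftLeft (nat_lit 0x9) (nat_lit 124)) (.one (nat_lit 0x800000500600c016000a00c11a02c511)) (.one (nat_lit 0x900000200600c015000400c13a42a511))))) (.br (Nat.shiftLeft (nat_lit 0x480000180300600b) (nat_lit 65)) (.br (Nat.shiftLeft (nat_lit 0x9000003) (nat_lit 100)) (.one (nat_lit 0x900000200600c016000400c13a42c511)) (.one (nat_lit 0x900000300600c015000600c13a42a511))) (.br (Nat.shiftLeft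 (nat_lit 0x900000300600c017) (nat_lit 64)) (.one (nat_lit 0x900000300600c016000600c13a42c511)) (.br (Nat.shiftLeft (nat_lit 0x2400001) (nat_lit 102)) (.one (nat_lit 0x900000300600c017000600c13a42e511)) (.one (nat_lit 0x900000400600c015000800c13a42a511)))))) (.br (Nat.shiftLeft (nat_lit 0x500000100300600b) (nat_lit 65)) (.br (Nat.shiftLeft (nat_lit 0x9000005) (nat_lit 100)) (.br (Nat.shiftLeft (nat_lit 0x900000400600c017) (nat_lit 64)) (.one (nat_lit 0x900000400600c016000800c13a42c511)) (.one (nat_lit 0x900000400600c017000800c13a42e511))) (.br (Nat.shiftLeft (nat_lit 0x480000280300600b) (nat_lit 65)) (.one (nat_lit 0x900000500600c015000a00c13a42a511)) (.br (Nat.shiftLeft (nat_lit 0x5) (nat_lit 125)) (.one (nat_lit 0x900000500600c016000a00c13a42c511)) (.one (nat_lit 0xa00000200600c015000400c15a82a511))))) (.br (Nat.shiftLeft (nat_lit 0x500000180300600b) (nat_lit 65)) (.br (Nat.shiftLeft (nat_lit 0xa000003) (nat_lit 100)) (.one (nat_lit 0xa00000200600c016000400c15a82c511)) (.one (nat_lit 0xa00000300600c015000600c15a82a511)))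 (.br (Nat.shiftLeft (nat_lit 0xa00000300600c017) (nat_lit 64)) (.one (nat_lit 0xa00000300600c016000600c15a82c511)) (.br (Nat.shiftLeft (nat_lit 0x2800001) (nat_lit 102)) (.one (nat_lit 0xa00000300600c017000600c15a82e511)) (.one (nat_lit 0xa00000400600c015000800c15a82a511))))))) (.br (Nat.shiftLeft (nat_lit 0x580000200300600b) (nat_lit 65)) (.br (Nat.shiftLeft (nat_lit 0x580000100300600b) (nat_lit 65)) (.br (Nat.shiftLeft (nat_lit 0xa000005) (nat_lit 100)) (.br (Nat.shiftLeft (nat_lit 0xa00000400600c017) (nat_lit 64)) (.one (nat_lit 0xa00000400600c016000800c15a82c511)) (.one (nat_lit 0xa00000400600c017000800c15a82e511))) (.br (Nat.shiftLeft (nat_lit 0x500000280300600b) (nat_lit 65)) (.one (nat_lit 0xa00000500600c015000a00c15a82a511)) (.br (Nat.shiftLeft (nat_lit 0xb) (nat_lit 124)) (.one (nat_lit 0xa00000500600c016000a00c15a82c511)) (.one (nat_lit 0xb00000200600c015000400c17ac2a511))))) (.br (Nat.shiftLeft (nat_lit 0x580000180300600b) (nat_lit 65)) (.br (Nat.shiftLeft (nat_lit 0xb000003) (nat_lit 100)) (.one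 (nat_lit 0xb00000200600c016000400c17ac2c511)) (.one (nat_lit 0xb00000300600c015000600c17ac2a511))) (.br (Nat.shiftLeft (nat_lit 0xb00000300600c017) (nat_lit 64)) (.one (nat_lit 0xb00000300600c016000600c17ac2c511)) (.br (Nat.shiftLeft (nat_lit 0x2c00001) (nat_lit 102)) (.one (nat_lit 0xb00000300600c017000600c17ac2e511)) (.one (nat_lit 0xb00000400600c015000800c17ac2a511)))))) (.br (Nat.shiftLeft (nat_lit 0x600000100300600b) (nat_lit 65)) (.br (Nat.shiftLeft (nat_lit 0xb000005) (nat_lit 100)) (.br (Nat.shiftLeft (nat_lit 0xb00000400600c017) (nat_lit 64)) (.one (nat_lit 0xb00000400600c016000800c17ac2c511)) (.one (nat_lit 0xb00000400600c017000800c17ac2e511))) (.br (Nat.shiftLeft (nat_lit 0x580000280300600b) (nat_lit 65)) (.one (nat_lit 0xb00000500600c015000a00c17ac2a511)) (.br (Nat.shiftLeft (nat_lit 0x3) (nat_lit 126)) (.one (nat_lit 0xb00000500600c016000a00c17ac2c511)) (.one (nat_lit 0xc00000200600c015000400c19b02a511))))) (.br (Nat.shiftLeft (nat_lit 0x600000180300600b) (nat_lit 65)) (.br (Nat.shiftLeft (nat_lit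 0xc000003) (nat_lit 100)) (.one (nat_lit 0xc00000200600c016000400c19b02c511)) (.one (nat_lit 0xc00000300600c015000600c19b02a511))) (.br (Nat.shiftLeft (nat_lit 0xc00000300600c017) (nat_lit 64)) (.one (nat_lit 0xc00000300600c016000600c19b02c511)) (.br (Nat.shiftLeft (nat_lit 0x3000001) (nat_lit 102)) (.one (nat_lit 0xc00000300600c017000600c19b02e511)) (.one (nat_lit 0xc00000400600c015000800c19b02a511))))))))
def t116 : k116.all (jb2 57 fl b0) = true := by decide +kernel
noncomputable def k117 : KT := (.br (Nat.shiftLeft (nat_lit 0xc000005) (nat_lit 100)) (.br (Nat.shiftLeft (nat_lit 0xc00000400600c017) (nat_lit 64)) (.one (nat_lit 0xc00000400600c016000800c19b02c511)) (.one (nat_lit 0xc00000400600c017000800c19b02e511))) (.br (Nat.shiftLeft (nat_lit 0x600000280300600b) (nat_lit 65)) (.one (nat_lit 0xc00000500600c015000a00c19b02a511)) (.one (nat_lit 0xc00000500600c016000a00c19b02c511))))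
def t117 : k117.all (jb2 57 fl b0) = true := by decide +kernel
noncomputable def s5 : KT := (.br (nat_lit 0x200300600c015400600c01802a650) (.br (nat_lit 0x100200600c015200400c01802a650) (.br (nat_lit 0x200600c016000400c01802d500) (.br (nat_lit 0x100600c015000200c01802a540) k93 (.br (nat_lit 0x100600c016000200c01802c540) k94 k95)) (.br (nat_lit 0x500600c016000a00c01802d500) k96 (.br (nat_lit 0x100000600c017200000c01802e411) k97 k98))) (.br (nat_lit 0x100300600c017200600c01802e650) (.br (nat_lit 0x100200600c016200400c01802c650) k99 (.br (nat_lit 0x100300600c015200600c01802a650) k100 k101)) (.br (nat_lit 0x100400600c017200800c01802e650) k102 (.br (nat_lit 0x200000600c017400000c01802e411) k103 k104)))) (.br (nat_lit 0x700000600c017e00000c01802e411) (.br (nat_lit 0x300000600c017600000c01802e411) (.br (nat_lit 0x200300600c017400600c01802e650) k105 (.br (nat_lit 0x200400600c016400800c01802c650) k106 k107)) (.br (nat_lit 0x300400600c016600800c01802c650) k108 (.br (nat_lit 0x400000600c017800000c01802e411) k109 k110)))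 (.br (nat_lit 0x600000200600c016000400c0d982c511) (.br (nat_lit 0x300000300600c017000600c078c2e511) k111 (.br (nat_lit 0x500000200600c016000400c0b942c511) k112 k113)) (.br (nat_lit 0x800000400600c015000800c11a02a511) (.br (nat_lit 0x700000200600c016000400c0f9c2c511) k114 k115) (.br (nat_lit 0xc00000400600c015000800c19b02a511) k116 k117)))))
noncomputable def u5 : KT := (.br (Nat.shiftLeft (nat_lit 0x300600b) (nat_lit 65)) (.one (nat_lit 0x600c015000000c01802a430)) (.br (Nat.shiftLeft (nat_lit 0x600c017) (nat_lit 64)) (.one (nat_lit 0x600c016000000c01802c430)) (.one (nat_lit 0x600c017000000c01802e430))))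
def w5 : u5.all (wj 57 s5) = true := by decide +kernel
def o5 : OkW 57 (jb2 57 fl) u5 := .lift s5 _ (.br _ _ _ (.br _ _ _ (.br _ _ _ (.br _ _ _ (.leaf b0 k93 t93) (.br _ _ _ (.leaf b0 k94 t94) (.leaf b0 k95 t95))) (.br _ _ _ (.leaf b0 k96 t96) (.br _ _ _ (.leaf b0 k97 t97) (.leaf b0 k98 t98)))) (.br _ _ _ (.br _ _ _ (.leaf b0 k99 t99) (.br _ _ _ (.leaf b0 k100 t100) (.leaf b0 k101 t101))) (.br _ _ _ (.leaf b0 k102 t102) (.br _ _ _ (.leaf b0 k103 t103) (.leaf b0 k104 t104))))) (.br _ _ _ (.br _ _ _ (.br _ _ _ (.leaf b0 k105 t105) (.br _ _ _ (.leaf b0 k106 t106) (.leaf b0 k107 t107))) (.br _ _ _ (.leaf b0 k108 t108) (.br _ _ _ (.leaf b0 k109 t109) (.leaf b0 k110 t110)))) (.br _ _ _ (.br _ _ _ (.leaf b0 k111 t111) (.br _ _ _ (.leaf b0 k112 t112) (.leaf b0 k113 t113))) (.br _ _ _ (.br _ _ _ (.leaf b0 k114 t114) (.leaf b0 k115 t115)) (.br _ _ _ (.leaf b0 k116 t116) (.leaf b0 k117 t117)))))) w5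
noncomputable def k118 : KT := (.br (Nat.shiftLeft (nat_lit 0x600d01) (nat_lit 68)) (.br (Nat.shiftLeft (nat_lit 0x600d) (nat_lit 76)) (.one (nat_lit 0x600c018000000c018031400)) (.br (Nat.shiftLeft (nat_lit 0x600d00f) (nat_lit 64)) (.one (nat_lit 0x600d00e000000c01a01d400)) (.one (nat_lit 0x600d00f000000c01a01f400)))) (.br (Nat.shiftLeft (nat_lit 0x600d011) (nat_lit 64)) (.one (nat_lit 0x600d010000000c01a021400)) (.br (Nat.shiftLeft (nat_lit 0x1) (nat_lit 100)) (.one (nat_lit 0x600d011000000c01a023400)) (.one (nat_lit 0x100600c018000200c018030540)))))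
def t118 : k118.all (jb2 57 fl b0) = true := by decide +kernel
noncomputable def k119 : KT := (.one (nat_lit 0x200600c018000400c018030540))
def t119 : k119.all (jb2 57 fl b0) = true := by decide +kernel
noncomputable def k120 : KT := (.one (nat_lit 0x300600c018000600c018030540))
def t120 : k120.all (jb2 57 fl b0) = true := by decide +kernel
noncomputable def k121 : KT := (.one (nat_lit 0x400600c018000800c018030540))
def t121 : k121.all (jb2 57 fl b0) = true := by decide +kernel
noncomputable def k122 : KT := (.br (Nat.shiftLeft (nat_lit 0x3) (nat_lit 113)) (.br (Nat.shiftLeft (nat_lit 0x3) (nat_lit 112)) (.br (Nat.shiftLeft (nat_lit 0x1) (nat_lit 112)) (.one (nat_lit 0x500600c018000a00c018030540)) (.br (Nat.shiftLeft (nat_lit 0x1) (nat_lit 113)) (.one (nat_lit 0x100000600c018200000c018030411)) (.one (nat_lit 0x200000600c018400000c018030411)))) (.br (Nat.shiftLeft (nat_lit 0x1) (nat_lit 114)) (.one (nat_lit 0x300000600c018600000c018030411)) (.br (Nat.shiftLeft (nat_lit 0x5) (nat_lit 112)) (.one (nat_lit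 0x400000600c018800000c018030411)) (.one (nat_lit 0x500000600c018a00000c018030411))))) (.br (Nat.shiftLeft (nat_lit 0x9) (nat_lit 112)) (.br (Nat.shiftLeft (nat_lit 0x7) (nat_lit 112)) (.one (nat_lit 0x600000600c018c00000c018030411)) (.br (Nat.shiftLeft (nat_lit 0x1) (nat_lit 115)) (.one (nat_lit 0x700000600c018e00000c018030411)) (.one (nat_lit 0x800000600c018000000c018132411)))) (.br (Nat.shiftLeft (nat_lit 0xb) (nat_lit 112)) (.br (Nat.shiftLeft (nat_lit 0x5) (nat_lit 113)) (.one (nat_lit 0x900000600c018200000c018132411)) (.one (nat_lit 0xa00000600c018400000c018132411))) (.br (Nat.shiftLeft (nat_lit 0x3) (nat_lit 114)) (.one (nat_lit 0xb00000600c018600000c018132411)) (.one (nat_lit 0xc00000600c018800000c018132411))))))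
def t122 : k122.all (jb2 57 fl b0) = true := by decide +kernel
noncomputable def s6 : KT := (.br (nat_lit 0x200600c018000400c018030540) (.br (nat_lit 0x100600c018000200c018030540) k118 k119) (.br (nat_lit 0x300600c018000600c018030540) k120 (.br (nat_lit 0x400600c018000800c018030540) k121 k122)))
noncomputable def u6 : KT := (.br (Nat.shiftLeft (nat_lit 0x600d00f) (nat_lit 64)) (.br (Nat.shiftLeft (nat_lit 0x600d) (nat_lit 76)) (.one (nat_lit 0x600c018000000c018030430)) (.one (nat_lit 0x600d00e000000c01a01d400))) (.br (Nat.shiftLeft (nat_lit 0x600d01) (nat_lit 68)) (.one (nat_lit 0x600d00f000000c01a01f400)) (.br (Nat.shiftLeft (nat_lit 0x600d011) (nat_lit 64)) (.one (nat_lit 0x600d010000000c01a021400)) (.one (nat_lit 0x600d011000000c01a023400)))))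
def w6 : u6.all (wj 57 s6) = true := by decide +kernel
def o6 : OkW 57 (jb2 57 fl) u6 := .lift s6 _ (.br _ _ _ (.br _ _ _ (.leaf b0 k118 t118) (.leaf b0 k119 t119)) (.br _ _ _ (.leaf b0 k120 t120) (.br _ _ _ (.leaf b0 k121 t121) (.leaf b0 k122 t122)))) w6
noncomputable def k123 : KT := (.br (Nat.shiftLeft (nat_lit 0x5) (nat_lit 100)) (.br (Nat.shiftLeft (nat_lit 0x1) (nat_lit 101)) (.br (Nat.shiftLeft (nat_lit 0x1) (nat_lit 100)) (.one (nat_lit 0x600d012000000c01a025400)) (.one (nat_lit 0x100600d012000200c01a025500))) (.br (Nat.shiftLeft (nat_lit 0x3) (nat_lit 100)) (.one (nat_lit 0x200600d012000400c01a025500)) (.br (Nat.shiftLeft (nat_lit 0x1) (nat_lit 102)) (.one (nat_lit 0x300600d012000600c01a025500)) (.one (nat_lit 0x400600d012000800c01a025500))))) (.br (Nat.shiftLeft (nat_lit 0x801) (nat_lit 101)) (.br (Nat.shiftLeft (nat_lit 0x1) (nat_lit 112)) (.one (nat_lit 0x500600d012000a00c01a025500)) (.one (nat_lit 0x100000600d012200000c01a024411))) (.br (Nat.shiftLeft (nat_lit 0x1003) (nat_lit 100)) (.one (nat_lit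 0x100200600d012200400c01a025600)) (.br (Nat.shiftLeft (nat_lit 0x401) (nat_lit 102)) (.one (nat_lit 0x100300600d012200600c01a025600)) (.one (nat_lit 0x100400600d012200800c01a024650))))))
def t123 : k123.all (jb2 57 fl b0) = true := by decide +kernel
noncomputable def k124 : KT := (.br (Nat.shiftLeft (nat_lit 0x1001) (nat_lit 101)) (.br (Nat.shiftLeft (nat_lit 0x1) (nat_lit 113)) (.one (nat_lit 0x100500600d012200a00c01a024650)) (.one (nat_lit 0x200000600d012400000c01a024411))) (.br (Nat.shiftLeft (nat_lit 0x801) (nat_lit 102)) (.one (nat_lit 0x200300600d012400600c01a025600)) (.one (nat_lit 0x200400600d012400800c01a025600))))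
def t124 : k124.all (jb2 57 fl b0) = true := by decide +kernel
noncomputable def k125 : KT := (.br (Nat.shiftLeft (nat_lit 0x3) (nat_lit 112)) (.one (nat_lit 0x200500600d012400a00c01a024650)) (.br (Nat.shiftLeft (nat_lit 0xc01) (nat_lit 102)) (.one (nat_lit 0x300000600d012600000c01a024411)) (.one (nat_lit 0x300400600d012600800c01a025600))))
def t125 : k125.all (jb2 57 fl b0) = true := by decide +kernel
noncomputable def k126 : KT := (.br (Nat.shiftLeft (nat_lit 0x1) (nat_lit 114)) (.one (nat_lit 0x300500600d012600a00c01a024650)) (.one (nat_lit 0x400000600d012800000c01a024411)))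
def t126 : k126.all (jb2 57 fl b0) = true := by decide +kernel
noncomputable def k127 : KT := (.br (Nat.shiftLeft (nat_lit 0x3) (nat_lit 113)) (.br (Nat.shiftLeft (nat_lit 0x5) (nat_lit 112)) (.one (nat_lit 0x400500600d012800a00c01a024650)) (.one (nat_lit 0x500000600d012a00000c01a024411))) (.br (Nat.shiftLeft (nat_lit 0x7) (nat_lit 112)) (.one (nat_lit 0x600000600d012c00000c01a024411)) (.br (Nat.shiftLeft (nat_lit 0x1) (nat_lit 115)) (.one (nat_lit 0x700000600d012e00000c01a024411)) (.one (nat_lit 0x800000600d012000000c01a126411)))))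
def t127 : k127.all (jb2 57 fl b0) = true := by decide +kernel
noncomputable def k128 : KT := (.br (Nat.shiftLeft (nat_lit 0x1) (nat_lit 124)) (.br (Nat.shiftLeft (nat_lit 0xb) (nat_lit 112)) (.br (Nat.shiftLeft (nat_lit 0x5) (nat_lit 113)) (.one (nat_lit 0x900000600d012200000c01a126411)) (.one (nat_lit 0xa00000600d012400000c01a126411))) (.br (Nat.shiftLeft (nat_lit 0x3) (nat_lit 114)) (.one (nat_lit 0xb00000600d012600000c01a126411)) (.br (Nat.shiftLeft (nat_lit 0xd) (nat_lit 112)) (.one (nat_lit 0xc00000600d012800000c01a126411)) (.one (nat_lit 0xd00000600d012a00000c01a126411))))) (.br (Nat.shiftLeft (nat_lit 0x1000003) (nat_lit 100)) (.br (Nat.shiftLeft (nat_lit 0x800001) (nat_lit 101)) (.one (nat_lit 0x100000100600d012000200c03a424511)) (.one (nat_lit 0x100000200600d012000400c03a424511))) (.br (Nat.shiftLeft (nat_lit 0x400001) (nat_lit 102)) (.one (nat_lit 0x100000300600d012000600c03a424511)) (.br (Nat.shiftLeft (nat_lit 0x1000005) (nat_lit 100)) (.one (nat_lit 0x100000400600d012000800c03a424511)) (.one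 (nat_lit 0x100000500600d012000a00c03a424511))))))
noncomputable def b129 : BT := .node (nat_lit 0xb) (nat_lit 0x93927593a8a28938260000753200158d000843a00157005b684c04b1a4e09824c16d9b6d12c65134b19305b664c049ca58d2724bd002ca80022b18004ea64022ae100ecb6400b2d8006ea6001b267004cb68022adf00b09640032d91b6d1270964000ea60002b19076cca289644b19454a28db426014500032d8000ac68003a9b000ac60003a5f0008d6439d44c0260139c9d65156d9a4e0980005d2f80065b4005d3000265b400596c00155c01ed993a927200196d00055bc0d144b21450003a99000cb6410071c00661006610043a0043a003da002c4002c4002c4001af0014f000f0) .leaf .leaf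
def t128 : k128.all (jb2 57 fl b129) = true := by decide +kernel
noncomputable def k129 : KT := (.one (nat_lit 0x100200300600d012400600c03a424760))
def t129 : k129.all (jb2 57 fl b0) = true := by decide +kernel
noncomputable def k130 : KT := (.br (Nat.shiftLeft (nat_lit 0x1000001) (nat_lit 101)) (.br (Nat.shiftLeft (nat_lit 0x1003) (nat_lit 112)) (.one (nat_lit 0x100200400600d012400800c03a424760)) (.br (Nat.shiftLeft (nat_lit 0x1) (nat_lit 125)) (.one (nat_lit 0x100300400600d012600800c03a424760)) (.one (nat_lit 0x200000100600d012000200c05a824511)))) (.br (Nat.shiftLeft (nat_lit 0x800001) (nat_lit 102)) (.br (Nat.shiftLeft (nat_lit 0x2000003) (nat_lit 100)) (.one (nat_lit 0x200000200600d012000400c05a824511)) (.one (nat_lit 0x200000300600d012000600c05a824511))) (.br (Nat.shiftLeft (nat_lit 0x2000005) (nat_lit 100)) (.one (nat_lit 0x200000400600d012000800c05a824511)) (.one (nat_lit 0x200000500600d012000a00c05a824511)))))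
def t130 : k130.all (jb2 57 fl b0) = true := by decide +kernel
noncomputable def k131 : KT := (.br (Nat.shiftLeft (nat_lit 0x1) (nat_lit 126)) (.br (Nat.shiftLeft (nat_lit 0x3000003) (nat_lit 100)) (.br (Nat.shiftLeft (nat_lit 0x3) (nat_lit 124)) (.one (nat_lit 0x200300400600d012600800c05a824760)) (.br (Nat.shiftLeft (nat_lit 0x1800001) (nat_lit 101)) (.one (nat_lit 0x300000100600d012000200c07ac24511)) (.one (nat_lit 0x300000200600d012000400c07ac24511)))) (.br (Nat.shiftLeft (nat_lit 0xc00001) (nat_lit 102)) (.one (nat_lit 0x300000300600d012000600c07ac24511)) (.br (Nat.shiftLeft (nat_lit 0x3000005) (nat_lit 100)) (.one (nat_lit 0x300000400600d012000800c07ac24511)) (.one (nat_lit 0x300000500600d012000a00c07ac24511))))) (.br (Nat.shiftLeft (nat_lit 0x1000001) (nat_lit 102)) (.br (Nat.shiftLeft (nat_lit 0x2000001) (nat_lit 101)) (.one (nat_lit 0x400000100600d012000200c09b024511)) (.br (Nat.shiftLeft (nat_lit 0x4000003) (nat_lit 100)) (.one (nat_lit 0x400000200600d012000400c09b024511)) (.one (nat_lit 0x400000300600d012000600c09b024511))))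 (.br (Nat.shiftLeft (nat_lit 0x4000005) (nat_lit 100)) (.one (nat_lit 0x400000400600d012000800c09b024511)) (.br (Nat.shiftLeft (nat_lit 0x5) (nat_lit 124)) (.one (nat_lit 0x400000500600d012000a00c09b024511)) (.one (nat_lit 0x500000100600d012000200c0bb424511))))))
def t131 : k131.all (jb2 57 fl b0) = true := by decide +kernel
noncomputable def k132 : KT := (.br (Nat.shiftLeft (nat_lit 0x5000005) (nat_lit 100)) (.br (Nat.shiftLeft (nat_lit 0x5000003) (nat_lit 100)) (.one (nat_lit 0x500000200600d012000400c0bb424511)) (.br (Nat.shiftLeft (nat_lit 0x1400001) (nat_lit 102)) (.one (nat_lit 0x500000300600d012000600c0bb424511)) (.one (nat_lit 0x500000400600d012000800c0bb424511)))) (.br (Nat.shiftLeft (nat_lit 0x3) (nat_lit 125)) (.one (nat_lit 0x500000500600d012000a00c0bb424511)) (.br (Nat.shiftLeft (nat_lit 0x3000001) (nat_lit 101)) (.one (nat_lit 0x600000100600d012000200c0db824511)) (.one (nat_lit 0x600000200600d012000400c0db824511)))))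
def t132 : k132.all (jb2 57 fl b0) = true := by decide +kernel
noncomputable def k133 : KT := (.br (Nat.shiftLeft (nat_lit 0x6000005) (nat_lit 100)) (.br (Nat.shiftLeft (nat_lit 0x1800001) (nat_lit 102)) (.one (nat_lit 0x600000300600d012000600c0db824511)) (.one (nat_lit 0x600000400600d012000800c0db824511))) (.br (Nat.shiftLeft (nat_lit 0x7) (nat_lit 124)) (.one (nat_lit 0x600000500600d012000a00c0db824511)) (.br (Nat.shiftLeft (nat_lit 0x3800001) (nat_lit 101)) (.one (nat_lit 0x700000100600d012000200c0fbc24511)) (.one (nat_lit 0x700000200600d012000400c0fbc24511)))))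
def t133 : k133.all (jb2 57 fl b0) = true := by decide +kernel
noncomputable def k134 : KT := (.br (Nat.shiftLeft (nat_lit 0x7000005) (nat_lit 100)) (.br (Nat.shiftLeft (nat_lit 0x1c00001) (nat_lit 102)) (.one (nat_lit 0x700000300600d012000600c0fbc24511)) (.one (nat_lit 0x700000400600d012000800c0fbc24511))) (.br (Nat.shiftLeft (nat_lit 0x1) (nat_lit 127)) (.one (nat_lit 0x700000500600d012000a00c0fbc24511)) (.br (Nat.shiftLeft (nat_lit 0x4000001) (nat_lit 101)) (.one (nat_lit 0x800000100600d012000200c11c024511)) (.one (nat_lit 0x800000200600d012000400c11c024511)))))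
def t134 : k134.all (jb2 57 fl b0) = true := by decide +kernel
noncomputable def k135 : KT := (.br (Nat.shiftLeft (nat_lit 0x8000005) (nat_lit 100)) (.br (Nat.shiftLeft (nat_lit 0x2000001) (nat_lit 102)) (.one (nat_lit 0x800000300600d012000600c11c024511)) (.one (nat_lit 0x800000400600d012000800c11c024511))) (.br (Nat.shiftLeft (nat_lit 0x9) (nat_lit 124)) (.one (nat_lit 0x800000500600d012000a00c11c024511)) (.br (Nat.shiftLeft (nat_lit 0x4800001) (nat_lit 101)) (.one (nat_lit 0x900000100600d012000200c13c424511)) (.one (nat_lit 0x900000200600d012000400c13c424511)))))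
noncomputable def b136 : BT := .node (nat_lit 0xb) (nat_lit 0x36cdb66937000cb6000329c068a930097893849c130126a4eb28a258d2c84ec002e8900032d8004cb6000b2a0002ea640032d9004cb6400b2a1127524e1270db449b9300003a98000ea6000329c000ab8020037a0037a0031a0031a0031a0031a001aa001aa001aa000f0000f0000f0) .leaf .leaf
def t135 : k135.all (jb2 57 fl b136) = true := by decide +kernel
noncomputable def k136 : KT := (.br (Nat.shiftLeft (nat_lit 0x5000001) (nat_lit 101)) (.br (Nat.shiftLeft (nat_lit 0x9000005) (nat_lit 100)) (.br (Nat.shiftLeft (nat_lit 0x2400001) (nat_lit 102)) (.one (nat_lit 0x900000300600d012000600c13c424511)) (.one (nat_lit 0x900000400600d012000800c13c424511))) (.br (Nat.shiftLeft (nat_lit 0x5) (nat_lit 125)) (.one (nat_lit 0x900000500600d012000a00c13c424511)) (.one (nat_lit 0xa00000100600d012000200c15c824511)))) (.br (Nat.shiftLeft (nat_lit 0x2800001) (nat_lit 102)) (.br (Nat.shiftLeft (nat_lit 0xa000003) (nat_lit 100)) (.one (nat_lit 0xa00000200600d012000400c15c824511)) (.one (nat_lit 0xa00000300600d012000600c15c824511)))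 (.br (Nat.shiftLeft (nat_lit 0xa000005) (nat_lit 100)) (.one (nat_lit 0xa00000400600d012000800c15c824511)) (.one (nat_lit 0xa00000500600d012000a00c15c824511)))))
noncomputable def b137 : BT := .node (nat_lit 0xb) (nat_lit 0x51549c1451b644bd275800843600196c80074b800158d852c8514260258d2709646d913b12c600196c00064ca001d4c00065b400195100056301d152759450003a5e000cb6410031f00265002650026500265002650014f0014f0014f0014f000f0000f0) .leaf .leaf
def t136 : k136.all (jb2 57 fl b137) = true := by decide +kernel
noncomputable def k137 : KT := (.br (Nat.shiftLeft (nat_lit 0x1) (nat_lit 136)) (.br (Nat.shiftLeft (nat_lit 0xc000003) (nat_lit 100)) (.br (Nat.shiftLeft (nat_lit 0x2c00001) (nat_lit 102)) (.br (Nat.shiftLeft (nat_lit 0x5800001) (nat_lit 101)) (.one (nat_lit 0xb00000100600d012000200c17cc24511)) (.br (Nat.shiftLeft (nat_lit 0xb000003) (nat_lit 100)) (.one (nat_lit 0xb00000200600d012000400c17cc24511)) (.one (nat_lit 0xb00000300600d012000600c17cc24511)))) (.br (Nat.shiftLeft (nat_lit 0x3) (nat_lit 126)) (.br (Nat.shiftLeft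 (nat_lit 0xb000005) (nat_lit 100)) (.one (nat_lit 0xb00000400600d012000800c17cc24511)) (.one (nat_lit 0xb00000500600d012000a00c17cc24511))) (.br (Nat.shiftLeft (nat_lit 0x6000001) (nat_lit 101)) (.one (nat_lit 0xc00000100600d012000200c19d024511)) (.one (nat_lit 0xc00000200600d012000400c19d024511))))) (.br (Nat.shiftLeft (nat_lit 0x6800001) (nat_lit 101)) (.br (Nat.shiftLeft (nat_lit 0xc000005) (nat_lit 100)) (.br (Nat.shiftLeft (nat_lit 0x3000001) (nat_lit 102)) (.one (nat_lit 0xc00000300600d012000600c19d024511)) (.one (nat_lit 0xc00000400600d012000800c19d024511))) (.br (Nat.shiftLeft (nat_lit 0xd) (nat_lit 124)) (.one (nat_lit 0xc00000500600d012000a00c19d024511)) (.one (nat_lit 0xd00000100600d012000200c1bd424511)))) (.br (Nat.shiftLeft (nat_lit 0x3400001) (nat_lit 102)) (.br (Nat.shiftLeft (nat_lit 0xd000003) (nat_lit 100)) (.one (nat_lit 0xd00000200600d012000400c1bd424511)) (.one (nat_lit 0xd00000300600d012000600c1bd424511))) (.br (Nat.shiftLeft (nat_lit 0xd000005) (nat_lit 100)) (.one (nat_lit 0xd00000400600d012000800c1bd424511))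 (.one (nat_lit 0xd00000500600d012000a00c1bd424511)))))) (.br (Nat.shiftLeft (nat_lit 0x800000801) (nat_lit 102)) (.br (Nat.shiftLeft (nat_lit 0x1000003) (nat_lit 112)) (.br (Nat.shiftLeft (nat_lit 0x800001) (nat_lit 113)) (.br (Nat.shiftLeft (nat_lit 0x1000001003) (nat_lit 100)) (.one (nat_lit 0x100000100200600d012200402c41a024611)) (.one (nat_lit 0x100000100300600d012200602c41a024611))) (.br (Nat.shiftLeft (nat_lit 0x400000801) (nat_lit 102)) (.one (nat_lit 0x100000200300600d012400602c41a024611)) (.one (nat_lit 0x100000200400600d012400802c41a024611)))) (.br (Nat.shiftLeft (nat_lit 0x2000001003) (nat_lit 100)) (.br (Nat.shiftLeft (nat_lit 0x1) (nat_lit 137)) (.one (nat_lit 0x100000300400600d012600802c41a024611)) (.one (nat_lit 0x200000100200600d012200404c81a024611))) (.br (Nat.shiftLeft (nat_lit 0x1000001) (nat_lit 113)) (.one (nat_lit 0x200000100300600d012200604c81a024611)) (.one (nat_lit 0x200000200300600d012400604c81a024611))))) (.br (Nat.shiftLeft (nat_lit 0x1800001) (nat_lit 113)) (.br (Nat.shiftLeft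 (nat_lit 0x3) (nat_lit 136)) (.br (Nat.shiftLeft (nat_lit 0x2000003) (nat_lit 112)) (.one (nat_lit 0x200000200400600d012400804c81a024611)) (.one (nat_lit 0x200000300400600d012600804c81a024611))) (.br (Nat.shiftLeft (nat_lit 0x3000001003) (nat_lit 100)) (.one (nat_lit 0x300000100200600d012200406cc1a024611)) (.one (nat_lit 0x300000100300600d012200606cc1a024611)))) (.br (Nat.shiftLeft (nat_lit 0x3000003) (nat_lit 112)) (.br (Nat.shiftLeft (nat_lit 0xc00000801) (nat_lit 102)) (.one (nat_lit 0x300000200300600d012400606cc1a024611)) (.one (nat_lit 0x300000200400600d012400806cc1a024611))) (.br (Nat.shiftLeft (nat_lit 0x1) (nat_lit 138)) (.one (nat_lit 0x300000300400600d012600806cc1a024611)) (.one (nat_lit 0x400000100200600d012200408d01a024611)))))))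
noncomputable def b138 : BT := .node (nat_lit 0x1) (nat_lit 0x27593009804ea26112f4003a5e000cb64003a9b000ca782000e200028) .leaf .leaf
def t137 : k137.all (jb2 57 fl b138) = true := by decide +kernel
noncomputable def k138 : KT := (.br (Nat.shiftLeft (nat_lit 0x4000003) (nat_lit 112)) (.br (Nat.shiftLeft (nat_lit 0x2000001) (nat_lit 113)) (.one (nat_lit 0x400000100300600d012200608d01a024611)) (.br (Nat.shiftLeft (nat_lit 0x1000000801) (nat_lit 102)) (.one (nat_lit 0x400000200300600d012400608d01a024611)) (.one (nat_lit 0x400000200400600d012400808d01a024611)))) (.br (Nat.shiftLeft (nat_lit 0x5000001003) (nat_lit 100)) (.br (Nat.shiftLeft (nat_lit 0x5) (nat_lit 136)) (.one (nat_lit 0x400000300400600d012600808d01a024611)) (.one (nat_lit 0x500000100200600d01220040ad41a024611))) (.br (Nat.shiftLeft (nat_lit 0x2800001) (nat_lit 113)) (.one (nat_lit 0x500000100300600d01220060ad41a024611)) (.one (nat_lit 0x500000200300600d01240060ad41a024611)))))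
def t138 : k138.all (jb2 57 fl b0) = true := by decide +kernel
noncomputable def k139 : KT := (.br (Nat.shiftLeft (nat_lit 0x3) (nat_lit 137)) (.br (Nat.shiftLeft (nat_lit 0x5000003) (nat_lit 112)) (.one (nat_lit 0x500000200400600d01240080ad41a024611)) (.one (nat_lit 0x500000300400600d01260080ad41a024611))) (.br (Nat.shiftLeft (nat_lit 0x6000001003) (nat_lit 100)) (.one (nat_lit 0x600000100200600d01220040cd81a024611)) (.br (Nat.shiftLeft (nat_lit 0x3000001) (nat_lit 113)) (.one (nat_lit 0x600000100300600d01220060cd81a024611)) (.one (nat_lit 0x600000200300600d01240060cd81a024611)))))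
def t139 : k139.all (jb2 57 fl b0) = true := by decide +kernel
noncomputable def k140 : KT := (.br (Nat.shiftLeft (nat_lit 0x7000001003) (nat_lit 100)) (.br (Nat.shiftLeft (nat_lit 0x6000003) (nat_lit 112)) (.one (nat_lit 0x600000200400600d01240080cd81a024611)) (.br (Nat.shiftLeft (nat_lit 0x7) (nat_lit 136)) (.one (nat_lit 0x600000300400600d01260080cd81a024611)) (.one (nat_lit 0x700000100200600d01220040edc1a024611)))) (.br (Nat.shiftLeft (nat_lit 0x3800001) (nat_lit 113)) (.one (nat_lit 0x700000100300600d01220060edc1a024611)) (.br (Nat.shiftLeft (nat_lit 0x1c00000801) (nat_lit 102)) (.one (nat_lit 0x700000200300600d01240060edc1a024611)) (.one (nat_lit 0x700000200400600d01240080edc1a024611)))))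
def t140 : k140.all (jb2 57 fl b0) = true := by decide +kernel
noncomputable def k141 : KT := (.br (Nat.shiftLeft (nat_lit 0x2000000801) (nat_lit 102)) (.br (Nat.shiftLeft (nat_lit 0x8000001003) (nat_lit 100)) (.br (Nat.shiftLeft (nat_lit 0x1) (nat_lit 139)) (.one (nat_lit 0x700000300400600d01260080edc1a024611)) (.one (nat_lit 0x800000100200600d012200410e01a024611))) (.br (Nat.shiftLeft (nat_lit 0x4000001) (nat_lit 113)) (.one (nat_lit 0x800000100300600d012200610e01a024611)) (.one (nat_lit 0x800000200300600d012400610e01a024611)))) (.br (Nat.shiftLeft (nat_lit 0x9) (nat_lit 136)) (.br (Nat.shiftLeft (nat_lit 0x8000003) (nat_lit 112)) (.one (nat_lit 0x800000200400600d012400810e01a024611)) (.one (nat_lit 0x800000300400600d012600810e01a024611))) (.br (Nat.shiftLeft (nat_lit 0x9000001003) (nat_lit 100)) (.one (nat_lit 0x900000100200600d012200412e41a024611)) (.one (nat_lit 0x900000100300600d012200612e41a024611)))))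
def t141 : k141.all (jb2 57 fl b0) = true := by decide +kernel
noncomputable def k142 : KT := (.br (Nat.shiftLeft (nat_lit 0x2c00000801) (nat_lit 102)) (.br (Nat.shiftLeft (nat_lit 0x5000001) (nat_lit 113)) (.br (Nat.shiftLeft (nat_lit 0x9000003) (nat_lit 112)) (.br (Nat.shiftLeft (nat_lit 0x2400000801) (nat_lit 102)) (.one (nat_lit 0x900000200300600d012400612e41a024611)) (.one (nat_lit 0x900000200400600d012400812e41a024611))) (.br (Nat.shiftLeft (nat_lit 0x5) (nat_lit 137)) (.one (nat_lit 0x900000300400600d012600812e41a024611)) (.br (Nat.shiftLeft (nat_lit 0xa000001003) (nat_lit 100)) (.one (nat_lit 0xa00000100200600d012200414e81a024611)) (.one (nat_lit 0xa00000100300600d012200614e81a024611))))) (.br (Nat.shiftLeft (nat_lit 0xb) (nat_lit 136)) (.br (Nat.shiftLeft (nat_lit 0x2800000801) (nat_lit 102)) (.one (nat_lit 0xa00000200300600d012400614e81a024611)) (.br (Nat.shiftLeft (nat_lit 0xa000003) (nat_lit 112)) (.one (nat_lit 0xa00000200400600d012400814e81a024611)) (.one (nat_lit 0xa00000300400600d012600814e81a024611))))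 (.br (Nat.shiftLeft (nat_lit 0xb000001003) (nat_lit 100)) (.one (nat_lit 0xb00000100200600d012200416ec1a024611)) (.br (Nat.shiftLeft (nat_lit 0x5800001) (nat_lit 113)) (.one (nat_lit 0xb00000100300600d012200616ec1a024611)) (.one (nat_lit 0xb00000200300600d012400616ec1a024611)))))) (.br (Nat.shiftLeft (nat_lit 0xc000003) (nat_lit 112)) (.br (Nat.shiftLeft (nat_lit 0xc000001003) (nat_lit 100)) (.br (Nat.shiftLeft (nat_lit 0xb000003) (nat_lit 112)) (.one (nat_lit 0xb00000200400600d012400816ec1a024611)) (.br (Nat.shiftLeft (nat_lit 0x3) (nat_lit 138)) (.one (nat_lit 0xb00000300400600d012600816ec1a024611)) (.one (nat_lit 0xc00000100200600d012200418f01a024611)))) (.br (Nat.shiftLeft (nat_lit 0x6000001) (nat_lit 113)) (.one (nat_lit 0xc00000100300600d012200618f01a024611)) (.br (Nat.shiftLeft (nat_lit 0x3000000801) (nat_lit 102)) (.one (nat_lit 0xc00000200300600d012400618f01a024611)) (.one (nat_lit 0xc00000200400600d012400818f01a024611))))) (.br (Nat.shiftLeft (nat_lit 0x6800001) (nat_lit 113)) (.br (Nat.shiftLeft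 (nat_lit 0xd) (nat_lit 136)) (.one (nat_lit 0xc00000300400600d012600818f01a024611)) (.br (Nat.shiftLeft (nat_lit 0xd000001003) (nat_lit 100)) (.one (nat_lit 0xd00000100200600d01220041af41a024611)) (.one (nat_lit 0xd00000100300600d01220061af41a024611)))) (.br (Nat.shiftLeft (nat_lit 0x3400000801) (nat_lit 102)) (.one (nat_lit 0xd00000200300600d01240061af41a024611)) (.br (Nat.shiftLeft (nat_lit 0xd000003) (nat_lit 112)) (.one (nat_lit 0xd00000200400600d01240081af41a024611)) (.one (nat_lit 0xd00000300400600d01260081af41a024611)))))))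
def t142 : k142.all (jb2 57 fl b0) = true := by decide +kernel
noncomputable def s7 : KT := (.br (nat_lit 0x600000200600d012000400c0db824511) (.br (nat_lit 0x800000600d012000000c01a126411) (.br (nat_lit 0x200400600d012400800c01a025600) (.br (nat_lit 0x100400600d012200800c01a024650) k123 k124) (.br (nat_lit 0x300400600d012600800c01a025600) k125 (.br (nat_lit 0x400000600d012800000c01a024411) k126 k127))) (.br (nat_lit 0x100200300600d012400600c03a424760) (.br (nat_lit 0x100000500600d012000a00c03a424511) k128 k129) (.br (nat_lit 0x200000500600d012000a00c05a824511) k130 (.br (nat_lit 0x500000100600d012000200c0bb424511) k131 k132)))) (.br (nat_lit 0x400000100200600d012200408d01a024611) (.br (nat_lit 0x800000200600d012000400c11c024511) (.br (nat_lit 0x700000200600d012000400c0fbc24511) k133 k134) (.br (nat_lit 0x900000200600d012000400c13c424511) k135 (.br (nat_lit 0xa00000500600d012000a00c15c824511) k136 k137))) (.br (nat_lit 0x600000200300600d01240060cd81a024611) (.br (nat_lit 0x500000200300600d01240060ad41a024611)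 k138 k139) (.br (nat_lit 0x700000200400600d01240080edc1a024611) k140 (.br (nat_lit 0x900000100300600d012200612e41a024611) k141 k142)))))
noncomputable def u7 : KT := (.one (nat_lit 0x600d012000000c01a024430))
def w7 : u7.all (wj 57 s7) = true := by decide +kernel
def o7 : OkW 57 (jb2 57 fl) u7 := .lift s7 _ (.br _ _ _ (.br _ _ _ (.br _ _ _ (.br _ _ _ (.leaf b0 k123 t123) (.leaf b0 k124 t124)) (.br _ _ _ (.leaf b0 k125 t125) (.br _ _ _ (.leaf b0 k126 t126) (.leaf b0 k127 t127)))) (.br _ _ _ (.br _ _ _ (.leaf b129 k128 t128) (.leaf b0 k129 t129)) (.br _ _ _ (.leaf b0 k130 t130) (.br _ _ _ (.leaf b0 k131 t131) (.leaf b0 k132 t132))))) (.br _ _ _ (.br _ _ _ (.br _ _ _ (.leaf b0 k133 t133) (.leaf b0 k134 t134)) (.br _ _ _ (.leaf b136 k135 t135) (.br _ _ _ (.leaf b137 k136 t136) (.leaf b138 k137 t137)))) (.br _ _ _ (.br _ _ _ (.leaf b0 k138 t138) (.leaf b0 k139 t139)) (.br _ _ _ (.leaf b0 k140 t140) (.br _ _ _ (.leaf b0 k141 t141) (.leaf b0 k142 t142)))))) w7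
noncomputable def k143 : KT := (.br (Nat.shiftLeft (nat_lit 0x1) (nat_lit 102)) (.br (Nat.shiftLeft (nat_lit 0x1) (nat_lit 101)) (.br (Nat.shiftLeft (nat_lit 0x1) (nat_lit 100)) (.one (nat_lit 0x600d013000000c01a027400)) (.one (nat_lit 0x100600d013000200c01a027500))) (.br (Nat.shiftLeft (nat_lit 0x3) (nat_lit 100)) (.one (nat_lit 0x200600d013000400c01a027500)) (.one (nat_lit 0x300600d013000600c01a027500)))) (.br (Nat.shiftLeft (nat_lit 0x1) (nat_lit 112)) (.br (Nat.shiftLeft (nat_lit 0x5) (nat_lit 100)) (.one (nat_lit 0x400600d013000800c01a027500)) (.one (nat_lit 0x500600d013000a00c01a027500))) (.br (Nat.shiftLeft (nat_lit 0x801) (nat_lit 101)) (.one (nat_lit 0x100000600d013200000c01a026411)) (.br (Nat.shiftLeft (nat_lit 0x1003) (nat_lit 100)) (.one (nat_lit 0x100200600d013200400c01a027600)) (.one (nat_lit 0x100300600d013200600c01a026650))))))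
def t143 : k143.all (jb2 57 fl b0) = true := by decide +kernel
noncomputable def k144 : KT := (.one (nat_lit 0x100400600d013200800c01a026650))
def t144 : k144.all (jb2 57 fl b0) = true := by decide +kernel
noncomputable def k145 : KT := (.br (Nat.shiftLeft (nat_lit 0x1) (nat_lit 113)) (.one (nat_lit 0x100500600d013200a00c01a026650)) (.br (Nat.shiftLeft (nat_lit 0x1001) (nat_lit 101)) (.one (nat_lit 0x200000600d013400000c01a026411)) (.one (nat_lit 0x200300600d013400600c01a027600))))
def t145 : k145.all (jb2 57 fl b0) = true := by decide +kernel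
noncomputable def k146 : KT := (.one (nat_lit 0x200400600d013400800c01a026650))
def t146 : k146.all (jb2 57 fl b0) = true := by decide +kernel
noncomputable def k147 : KT := (.br (Nat.shiftLeft (nat_lit 0x3) (nat_lit 112)) (.one (nat_lit 0x200500600d013400a00c01a026650)) (.one (nat_lit 0x300000600d013600000c01a026411)))
def t147 : k147.all (jb2 57 fl b0) = true := by decide +kernel
noncomputable def k148 : KT := (.one (nat_lit 0x300400600d013600800c01a026650))
def t148 : k148.all (jb2 57 fl b0) = true := by decide +kernel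
noncomputable def k149 : KT := (.br (Nat.shiftLeft (nat_lit 0x1) (nat_lit 114)) (.one (nat_lit 0x300500600d013600a00c01a026650)) (.one (nat_lit 0x400000600d013800000c01a026411)))
def t149 : k149.all (jb2 57 fl b0) = true := by decide +kernel
noncomputable def k150 : KT := (.br (Nat.shiftLeft (nat_lit 0x1) (nat_lit 115)) (.br (Nat.shiftLeft (nat_lit 0x3) (nat_lit 113)) (.br (Nat.shiftLeft (nat_lit 0x5) (nat_lit 112)) (.one (nat_lit 0x400500600d013800a00c01a026650)) (.one (nat_lit 0x500000600d013a00000c01a026411))) (.br (Nat.shiftLeft (nat_lit 0x7) (nat_lit 112)) (.one (nat_lit 0x600000600d013c00000c01a026411)) (.one (nat_lit 0x700000600d013e00000c01a026411)))) (.br (Nat.shiftLeft (nat_lit 0x5) (nat_lit 113)) (.br (Nat.shiftLeft (nat_lit 0x9) (nat_lit 112)) (.one (nat_lit 0x800000600d013000000c01a128411)) (.one (nat_lit 0x900000600d013200000c01a128411))) (.br (Nat.shiftLeft (nat_lit 0xb) (nat_lit 112)) (.one (nat_lit 0xa00000600d013400000c01a128411)) (.br (Nat.shiftLeft (nat_lit 0x3) (nat_lit 114)) (.one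 (nat_lit 0xb00000600d013600000c01a128411)) (.one (nat_lit 0xc00000600d013800000c01a128411))))))
noncomputable def b151 : BT := .node (nat_lit 0xb) (nat_lit 0x6da258c97adb326093ac0032d8004cb6000b2a1002ab7c2db226013040032d9000ab841db24b19454003a98000ac6810026b0026b0026b0026b0026b001b0001b0001b0001b00015000150000f0) .leaf .leaf
def t150 : k150.all (jb2 57 fl b151) = true := by decide +kernel
noncomputable def k151 : KT := (.br (Nat.shiftLeft (nat_lit 0x2000005) (nat_lit 100)) (.br (Nat.shiftLeft (nat_lit 0x1000005) (nat_lit 100)) (.br (Nat.shiftLeft (nat_lit 0x800001) (nat_lit 101)) (.br (Nat.shiftLeft (nat_lit 0x1) (nat_lit 124)) (.one (nat_lit 0xd00000600d013a00000c01a128411)) (.one (nat_lit 0x100000100600d013000200c03a426511))) (.br (Nat.shiftLeft (nat_lit 0x1000003) (nat_lit 100)) (.one (nat_lit 0x100000200600d013000400c03a426511)) (.br (Nat.shiftLeft (nat_lit 0x400001) (nat_lit 102)) (.one (nat_lit 0x100000300600d013000600c03a426511)) (.one (nat_lit 0x100000400600d013000800c03a426511))))) (.br (Nat.shiftLeft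 (nat_lit 0x1000001) (nat_lit 101)) (.br (Nat.shiftLeft (nat_lit 0x801) (nat_lit 113)) (.one (nat_lit 0x100000500600d013000a00c03a426511)) (.br (Nat.shiftLeft (nat_lit 0x1) (nat_lit 125)) (.one (nat_lit 0x100200300600d013400600c03a426760)) (.one (nat_lit 0x200000100600d013000200c05a826511)))) (.br (Nat.shiftLeft (nat_lit 0x2000003) (nat_lit 100)) (.one (nat_lit 0x200000200600d013000400c05a826511)) (.br (Nat.shiftLeft (nat_lit 0x800001) (nat_lit 102)) (.one (nat_lit 0x200000300600d013000600c05a826511)) (.one (nat_lit 0x200000400600d013000800c05a826511)))))) (.br (Nat.shiftLeft (nat_lit 0x3000005) (nat_lit 100)) (.br (Nat.shiftLeft (nat_lit 0x1800001) (nat_lit 101)) (.br (Nat.shiftLeft (nat_lit 0x3) (nat_lit 124)) (.one (nat_lit 0x200000500600d013000a00c05a826511)) (.one (nat_lit 0x300000100600d013000200c07ac26511))) (.br (Nat.shiftLeft (nat_lit 0x3000003) (nat_lit 100)) (.one (nat_lit 0x300000200600d013000400c07ac26511)) (.br (Nat.shiftLeft (nat_lit 0xc00001) (nat_lit 102)) (.one (nat_lit 0x300000300600d013000600c07ac26511))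 (.one (nat_lit 0x300000400600d013000800c07ac26511))))) (.br (Nat.shiftLeft (nat_lit 0x4000003) (nat_lit 100)) (.br (Nat.shiftLeft (nat_lit 0x1) (nat_lit 126)) (.one (nat_lit 0x300000500600d013000a00c07ac26511)) (.br (Nat.shiftLeft (nat_lit 0x2000001) (nat_lit 101)) (.one (nat_lit 0x400000100600d013000200c09b026511)) (.one (nat_lit 0x400000200600d013000400c09b026511)))) (.br (Nat.shiftLeft (nat_lit 0x1000001) (nat_lit 102)) (.one (nat_lit 0x400000300600d013000600c09b026511)) (.br (Nat.shiftLeft (nat_lit 0x4000005) (nat_lit 100)) (.one (nat_lit 0x400000400600d013000800c09b026511)) (.one (nat_lit 0x400000500600d013000a00c09b026511)))))))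
def t151 : k151.all (jb2 57 fl b0) = true := by decide +kernel
noncomputable def k152 : KT := (.br (Nat.shiftLeft (nat_lit 0x1400001) (nat_lit 102)) (.br (Nat.shiftLeft (nat_lit 0x2800001) (nat_lit 101)) (.one (nat_lit 0x500000100600d013000200c0bb426511)) (.br (Nat.shiftLeft (nat_lit 0x5000003) (nat_lit 100)) (.one (nat_lit 0x500000200600d013000400c0bb426511)) (.one (nat_lit 0x500000300600d013000600c0bb426511)))) (.br (Nat.shiftLeft (nat_lit 0x3) (nat_lit 125)) (.br (Nat.shiftLeft (nat_lit 0x5000005) (nat_lit 100)) (.one (nat_lit 0x500000400600d013000800c0bb426511)) (.one (nat_lit 0x500000500600d013000a00c0bb426511))) (.br (Nat.shiftLeft (nat_lit 0x3000001) (nat_lit 101)) (.one (nat_lit 0x600000100600d013000200c0db826511)) (.one (nat_lit 0x600000200600d013000400c0db826511)))))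
def t152 : k152.all (jb2 57 fl b0) = true := by decide +kernel
noncomputable def k153 : KT := (.br (Nat.shiftLeft (nat_lit 0x7) (nat_lit 124)) (.br (Nat.shiftLeft (nat_lit 0x1800001) (nat_lit 102)) (.one (nat_lit 0x600000300600d013000600c0db826511)) (.br (Nat.shiftLeft (nat_lit 0x6000005) (nat_lit 100)) (.one (nat_lit 0x600000400600d013000800c0db826511)) (.one (nat_lit 0x600000500600d013000a00c0db826511)))) (.br (Nat.shiftLeft (nat_lit 0x3800001) (nat_lit 101)) (.one (nat_lit 0x700000100600d013000200c0fbc26511)) (.br (Nat.shiftLeft (nat_lit 0x7000003) (nat_lit 100)) (.one (nat_lit 0x700000200600d013000400c0fbc26511)) (.one (nat_lit 0x700000300600d013000600c0fbc26511)))))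
def t153 : k153.all (jb2 57 fl b0) = true := by decide +kernel
noncomputable def k154 : KT := (.br (Nat.shiftLeft (nat_lit 0x8000003) (nat_lit 100)) (.br (Nat.shiftLeft (nat_lit 0x1) (nat_lit 127)) (.br (Nat.shiftLeft (nat_lit 0x7000005) (nat_lit 100)) (.one (nat_lit 0x700000400600d013000800c0fbc26511)) (.one (nat_lit 0x700000500600d013000a00c0fbc26511))) (.br (Nat.shiftLeft (nat_lit 0x4000001) (nat_lit 101)) (.one (nat_lit 0x800000100600d013000200c11c026511)) (.one (nat_lit 0x800000200600d013000400c11c026511)))) (.br (Nat.shiftLeft (nat_lit 0x8000005) (nat_lit 100)) (.br (Nat.shiftLeft (nat_lit 0x2000001) (nat_lit 102)) (.one (nat_lit 0x800000300600d013000600c11c026511)) (.one (nat_lit 0x800000400600d013000800c11c026511))) (.br (Nat.shiftLeft (nat_lit 0x9) (nat_lit 124)) (.one (nat_lit 0x800000500600d013000a00c11c026511)) (.one (nat_lit 0x900000100600d013000200c13c426511)))))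
def t154 : k154.all (jb2 57 fl b0) = true := by decide +kernel
noncomputable def k155 : KT := (.br (Nat.shiftLeft (nat_lit 0x2800001) (nat_lit 102)) (.br (Nat.shiftLeft (nat_lit 0x9000005) (nat_lit 100)) (.br (Nat.shiftLeft (nat_lit 0x9000003) (nat_lit 100)) (.one (nat_lit 0x900000200600d013000400c13c426511)) (.br (Nat.shiftLeft (nat_lit 0x2400001) (nat_lit 102)) (.one (nat_lit 0x900000300600d013000600c13c426511)) (.one (nat_lit 0x900000400600d013000800c13c426511)))) (.br (Nat.shiftLeft (nat_lit 0x5000001) (nat_lit 101)) (.br (Nat.shiftLeft (nat_lit 0x5) (nat_lit 125)) (.one (nat_lit 0x900000500600d013000a00c13c426511)) (.one (nat_lit 0xa00000100600d013000200c15c826511))) (.br (Nat.shiftLeft (nat_lit 0xa000003) (nat_lit 100)) (.one (nat_lit 0xa00000200600d013000400c15c826511)) (.one (nat_lit 0xa00000300600d013000600c15c826511))))) (.br (Nat.shiftLeft (nat_lit 0x5800001) (nat_lit 101)) (.br (Nat.shiftLeft (nat_lit 0xa000005) (nat_lit 100)) (.one (nat_lit 0xa00000400600d013000800c15c826511)) (.br (Nat.shiftLeft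 (nat_lit 0xb) (nat_lit 124)) (.one (nat_lit 0xa00000500600d013000a00c15c826511)) (.one (nat_lit 0xb00000100600d013000200c17cc26511)))) (.br (Nat.shiftLeft (nat_lit 0x2c00001) (nat_lit 102)) (.br (Nat.shiftLeft (nat_lit 0xb000003) (nat_lit 100)) (.one (nat_lit 0xb00000200600d013000400c17cc26511)) (.one (nat_lit 0xb00000300600d013000600c17cc26511))) (.br (Nat.shiftLeft (nat_lit 0xb000005) (nat_lit 100)) (.one (nat_lit 0xb00000400600d013000800c17cc26511)) (.one (nat_lit 0xb00000500600d013000a00c17cc26511))))))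
noncomputable def b156 : BT := .node (nat_lit 0x1) (nat_lit 0xdb326024e40032a0000ab7c10008800028) .leaf .leaf
def t155 : k155.all (jb2 57 fl b156) = true := by decide +kernel
noncomputable def k156 : KT := (.br (Nat.shiftLeft (nat_lit 0x1) (nat_lit 136)) (.br (Nat.shiftLeft (nat_lit 0xd) (nat_lit 124)) (.br (Nat.shiftLeft (nat_lit 0xc000003) (nat_lit 100)) (.br (Nat.shiftLeft (nat_lit 0x6000001) (nat_lit 101)) (.one (nat_lit 0xc00000100600d013000200c19d026511)) (.one (nat_lit 0xc00000200600d013000400c19d026511))) (.br (Nat.shiftLeft (nat_lit 0x3000001) (nat_lit 102)) (.one (nat_lit 0xc00000300600d013000600c19d026511)) (.br (Nat.shiftLeft (nat_lit 0xc000005) (nat_lit 100)) (.one (nat_lit 0xc00000400600d013000800c19d026511)) (.one (nat_lit 0xc00000500600d013000a00c19d026511))))) (.br (Nat.shiftLeft (nat_lit 0xd000003) (nat_lit 100)) (.br (Nat.shiftLeft (nat_lit 0x6800001) (nat_lit 101)) (.one (nat_lit 0xd00000100600d013000200c1bd426511)) (.one (nat_lit 0xd00000200600d013000400c1bd426511))) (.br (Nat.shiftLeft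 (nat_lit 0x3400001) (nat_lit 102)) (.one (nat_lit 0xd00000300600d013000600c1bd426511)) (.br (Nat.shiftLeft (nat_lit 0xd000005) (nat_lit 100)) (.one (nat_lit 0xd00000400600d013000800c1bd426511)) (.one (nat_lit 0xd00000500600d013000a00c1bd426511)))))) (.br (Nat.shiftLeft (nat_lit 0x1800001) (nat_lit 113)) (.br (Nat.shiftLeft (nat_lit 0x1) (nat_lit 137)) (.br (Nat.shiftLeft (nat_lit 0x800001) (nat_lit 113)) (.one (nat_lit 0x100000100200600d013200402c41a026611)) (.one (nat_lit 0x100000200300600d013400602c41a026611))) (.br (Nat.shiftLeft (nat_lit 0x1000001) (nat_lit 113)) (.one (nat_lit 0x200000100200600d013200404c81a026611)) (.br (Nat.shiftLeft (nat_lit 0x3) (nat_lit 136)) (.one (nat_lit 0x200000200300600d013400604c81a026611)) (.one (nat_lit 0x300000100200600d013200406cc1a026611))))) (.br (Nat.shiftLeft (nat_lit 0x5) (nat_lit 136)) (.br (Nat.shiftLeft (nat_lit 0x1) (nat_lit 138)) (.one (nat_lit 0x300000200300600d013400606cc1a026611)) (.br (Nat.shiftLeft (nat_lit 0x2000001) (nat_lit 113)) (.one (nat_lit 0x400000100200600d013200408d01a026611))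 (.one (nat_lit 0x400000200300600d013400608d01a026611)))) (.br (Nat.shiftLeft (nat_lit 0x2800001) (nat_lit 113)) (.one (nat_lit 0x500000100200600d01320040ad41a026611)) (.br (Nat.shiftLeft (nat_lit 0x3) (nat_lit 137)) (.one (nat_lit 0x500000200300600d01340060ad41a026611)) (.one (nat_lit 0x600000100200600d01320040cd81a026611)))))))
def t156 : k156.all (jb2 57 fl b0) = true := by decide +kernel
noncomputable def k157 : KT := (.br (Nat.shiftLeft (nat_lit 0x4800001) (nat_lit 113)) (.br (Nat.shiftLeft (nat_lit 0x1) (nat_lit 139)) (.br (Nat.shiftLeft (nat_lit 0x7) (nat_lit 136)) (.one (nat_lit 0x600000200300600d01340060cd81a026611)) (.br (Nat.shiftLeft (nat_lit 0x3800001) (nat_lit 113)) (.one (nat_lit 0x700000100200600d01320040edc1a026611)) (.one (nat_lit 0x700000200300600d01340060edc1a026611)))) (.br (Nat.shiftLeft (nat_lit 0x4000001) (nat_lit 113)) (.one (nat_lit 0x800000100200600d013200410e01a026611)) (.br (Nat.shiftLeft (nat_lit 0x9) (nat_lit 136)) (.one (nat_lit 0x800000200300600d013400610e01a026611)) (.one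 (nat_lit 0x900000100200600d013200412e41a026611))))) (.br (Nat.shiftLeft (nat_lit 0xb) (nat_lit 136)) (.br (Nat.shiftLeft (nat_lit 0x5) (nat_lit 137)) (.one (nat_lit 0x900000200300600d013400612e41a026611)) (.br (Nat.shiftLeft (nat_lit 0x5000001) (nat_lit 113)) (.one (nat_lit 0xa00000100200600d013200414e81a026611)) (.one (nat_lit 0xa00000200300600d013400614e81a026611)))) (.br (Nat.shiftLeft (nat_lit 0x3) (nat_lit 138)) (.br (Nat.shiftLeft (nat_lit 0x5800001) (nat_lit 113)) (.one (nat_lit 0xb00000100200600d013200416ec1a026611)) (.one (nat_lit 0xb00000200300600d013400616ec1a026611))) (.br (Nat.shiftLeft (nat_lit 0x6000001) (nat_lit 113)) (.one (nat_lit 0xc00000100200600d013200418f01a026611)) (.one (nat_lit 0xc00000200300600d013400618f01a026611))))))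
def t157 : k157.all (jb2 57 fl b0) = true := by decide +kernel
noncomputable def k158 : KT := (.br (Nat.shiftLeft (nat_lit 0x6800001) (nat_lit 113)) (.one (nat_lit 0xd00000100200600d01320041af41a026611)) (.one (nat_lit 0xd00000200300600d01340061af41a026611)))
def t158 : k158.all (jb2 57 fl b0) = true := by decide +kernel
noncomputable def s8 : KT := (.br (nat_lit 0xc00000600d013800000c01a128411) (.br (nat_lit 0x200400600d013400800c01a026650) (.br (nat_lit 0x100400600d013200800c01a026650) (.br (nat_lit 0x100300600d013200600c01a026650) k143 k144) (.br (nat_lit 0x200300600d013400600c01a027600) k145 k146)) (.br (nat_lit 0x300400600d013600800c01a026650) (.br (nat_lit 0x300000600d013600000c01a026411) k147 k148) (.br (nat_lit 0x400000600d013800000c01a026411) k149 k150))) (.br (nat_lit 0x900000100600d013000200c13c426511) (.br (nat_lit 0x600000200600d013000400c0db826511) (.br (nat_lit 0x400000500600d013000a00c09b026511) k151 k152) (.br (nat_lit 0x700000300600d013000600c0fbc26511) k153 k154)) (.br (nat_lit 0x600000100200600d01320040cd81a026611)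 (.br (nat_lit 0xb00000500600d013000a00c17cc26511) k155 k156) (.br (nat_lit 0xc00000200300600d013400618f01a026611) k157 k158))))
noncomputable def u8 : KT := (.one (nat_lit 0x600d013000000c01a026430))
def w8 : u8.all (wj 57 s8) = true := by decide +kernel
def o8 : OkW 57 (jb2 57 fl) u8 := .lift s8 _ (.br _ _ _ (.br _ _ _ (.br _ _ _ (.br _ _ _ (.leaf b0 k143 t143) (.leaf b0 k144 t144)) (.br _ _ _ (.leaf b0 k145 t145) (.leaf b0 k146 t146))) (.br _ _ _ (.br _ _ _ (.leaf b0 k147 t147) (.leaf b0 k148 t148)) (.br _ _ _ (.leaf b0 k149 t149) (.leaf b151 k150 t150)))) (.br _ _ _ (.br _ _ _ (.br _ _ _ (.leaf b0 k151 t151) (.leaf b0 k152 t152)) (.br _ _ _ (.leaf b0 k153 t153) (.leaf b0 k154 t154))) (.br _ _ _ (.br _ _ _ (.leaf b156 k155 t155) (.leaf b0 k156 t156)) (.br _ _ _ (.leaf b0 k157 t157) (.leaf b0 k158 t158))))) w8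
noncomputable def k159 : KT := (.br (Nat.shiftLeft (nat_lit 0x600d015) (nat_lit 64)) (.one (nat_lit 0x600d014000000c01a029400)) (.br (Nat.shiftLeft (nat_lit 0x1) (nat_lit 100)) (.one (nat_lit 0x600d015000000c01a02b400)) (.one (nat_lit 0x100600d014000200c01a028540))))
def t159 : k159.all (jb2 57 fl b0) = true := by decide +kernel
noncomputable def k160 : KT := (.br (Nat.shiftLeft (nat_lit 0x1) (nat_lit 102)) (.br (Nat.shiftLeft (nat_lit 0x200600d015) (nat_lit 64)) (.br (Nat.shiftLeft (nat_lit 0x1) (nat_lit 101)) (.one (nat_lit 0x100600d015000200c01a02a540)) (.one (nat_lit 0x200600d014000400c01a029500))) (.br (Nat.shiftLeft (nat_lit 0x3) (nat_lit 100)) (.one (nat_lit 0x200600d015000400c01a02b500)) (.br (Nat.shiftLeft (nat_lit 0x300600d015) (nat_lit 64)) (.one (nat_lit 0x300600d014000600c01a029500)) (.one (nat_lit 0x300600d015000600c01a02b500))))) (.br (Nat.shiftLeft (nat_lit 0x500600d015) (nat_lit 64)) (.br (Nat.shiftLeft (nat_lit 0x400600d015) (nat_lit 64)) (.one (nat_lit 0x400600d014000800c01a029500)) (.br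 (Nat.shiftLeft (nat_lit 0x5) (nat_lit 100)) (.one (nat_lit 0x400600d015000800c01a02b500)) (.one (nat_lit 0x500600d014000a00c01a029500)))) (.br (Nat.shiftLeft (nat_lit 0x1) (nat_lit 112)) (.one (nat_lit 0x500600d015000a00c01a02b500)) (.br (Nat.shiftLeft (nat_lit 0x100000600d015) (nat_lit 64)) (.one (nat_lit 0x100000600d014200000c01a028411)) (.one (nat_lit 0x100000600d015200000c01a02a411))))))
def t160 : k160.all (jb2 57 fl b0) = true := by decide +kernel
noncomputable def k161 : KT := (.one (nat_lit 0x100200600d014200400c01a028650))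
def t161 : k161.all (jb2 57 fl b0) = true := by decide +kernel
noncomputable def k162 : KT := (.one (nat_lit 0x100200600d015200400c01a02a650))
def t162 : k162.all (jb2 57 fl b0) = true := by decide +kernel
noncomputable def k163 : KT := (.one (nat_lit 0x100300600d014200600c01a028650))
def t163 : k163.all (jb2 57 fl b0) = true := by decide +kernel
noncomputable def k164 : KT := (.br (Nat.shiftLeft (nat_lit 0x401) (nat_lit 102)) (.one (nat_lit 0x100300600d015200600c01a02a650)) (.one (nat_lit 0x100400600d014200800c01a028650)))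
def t164 : k164.all (jb2 57 fl b0) = true := by decide +kernel
noncomputable def k165 : KT := (.br (Nat.shiftLeft (nat_lit 0x100500600d015) (nat_lit 64)) (.br (Nat.shiftLeft (nat_lit 0x1005) (nat_lit 100)) (.one (nat_lit 0x100400600d015200800c01a02a650)) (.one (nat_lit 0x100500600d014200a00c01a028650))) (.br (Nat.shiftLeft (nat_lit 0x1) (nat_lit 113)) (.one (nat_lit 0x100500600d015200a00c01a02a650)) (.br (Nat.shiftLeft (nat_lit 0x200000600d015) (nat_lit 64)) (.one (nat_lit 0x200000600d014400000c01a028411)) (.one (nat_lit 0x200000600d015400000c01a02a411)))))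
def t165 : k165.all (jb2 57 fl b0) = true := by decide +kernel
noncomputable def k166 : KT := (.one (nat_lit 0x200300600d014400600c01a028650))
def t166 : k166.all (jb2 57 fl b0) = true := by decide +kernel
noncomputable def k167 : KT := (.one (nat_lit 0x200300600d015400600c01a02a650))
def t167 : k167.all (jb2 57 fl b0) = true := by decide +kernel
noncomputable def k168 : KT := (.br (Nat.shiftLeft (nat_lit 0x200400600d015) (nat_lit 64)) (.one (nat_lit 0x200400600d014400800c01a028650)) (.one (nat_lit 0x200400600d015400800c01a02a650)))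
def t168 : k168.all (jb2 57 fl b0) = true := by decide +kernel
noncomputable def k169 : KT := (.br (Nat.shiftLeft (nat_lit 0x3) (nat_lit 112)) (.br (Nat.shiftLeft (nat_lit 0x200500600d015) (nat_lit 64)) (.one (nat_lit 0x200500600d014400a00c01a028650)) (.one (nat_lit 0x200500600d015400a00c01a02a650))) (.br (Nat.shiftLeft (nat_lit 0x300000600d015) (nat_lit 64)) (.one (nat_lit 0x300000600d014600000c01a028411)) (.one (nat_lit 0x300000600d015600000c01a02a411))))
def t169 : k169.all (jb2 57 fl b0) = true := by decide +kernel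
noncomputable def k170 : KT := (.br (Nat.shiftLeft (nat_lit 0x300400600d015) (nat_lit 64)) (.one (nat_lit 0x300400600d014600800c01a028650)) (.one (nat_lit 0x300400600d015600800c01a02a650)))
def t170 : k170.all (jb2 57 fl b0) = true := by decide +kernel
noncomputable def k171 : KT := (.br (Nat.shiftLeft (nat_lit 0x1) (nat_lit 114)) (.br (Nat.shiftLeft (nat_lit 0x300500600d015) (nat_lit 64)) (.one (nat_lit 0x300500600d014600a00c01a028650)) (.one (nat_lit 0x300500600d015600a00c01a02a650))) (.br (Nat.shiftLeft (nat_lit 0x400000600d015) (nat_lit 64)) (.one (nat_lit 0x400000600d014800000c01a028411)) (.one (nat_lit 0x400000600d015800000c01a02a411))))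
def t171 : k171.all (jb2 57 fl b0) = true := by decide +kernel
noncomputable def k172 : KT := (.br (Nat.shiftLeft (nat_lit 0x600000600d015) (nat_lit 64)) (.br (Nat.shiftLeft (nat_lit 0x5) (nat_lit 112)) (.br (Nat.shiftLeft (nat_lit 0x400500600d015) (nat_lit 64)) (.one (nat_lit 0x400500600d014800a00c01a028650)) (.one (nat_lit 0x400500600d015800a00c01a02a650))) (.br (Nat.shiftLeft (nat_lit 0x500000600d015) (nat_lit 64)) (.one (nat_lit 0x500000600d014a00000c01a028411)) (.br (Nat.shiftLeft (nat_lit 0x3) (nat_lit 113)) (.one (nat_lit 0x500000600d015a00000c01a02a411)) (.one (nat_lit 0x600000600d014c00000c01a028411))))) (.br (Nat.shiftLeft (nat_lit 0x700000600d015) (nat_lit 64)) (.br (Nat.shiftLeft (nat_lit 0x7) (nat_lit 112)) (.one (nat_lit 0x600000600d015c00000c01a02a411)) (.one (nat_lit 0x700000600d014e00000c01a028411))) (.br (Nat.shiftLeft (nat_lit 0x1) (nat_lit 115)) (.one (nat_lit 0x700000600d015e00000c01a02a411)) (.br (Nat.shiftLeft (nat_lit 0x800000600d015) (nat_lit 64)) (.one (nat_lit 0x800000600d014000000c01a12a411))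 (.one (nat_lit 0x800000600d015000000c01a12c411))))))
def t172 : k172.all (jb2 57 fl b0) = true := by decide +kernel
noncomputable def k173 : KT := (.br (Nat.shiftLeft (nat_lit 0x2000003) (nat_lit 100)) (.br (Nat.shiftLeft (nat_lit 0x1) (nat_lit 124)) (.br (Nat.shiftLeft (nat_lit 0xb00000600d015) (nat_lit 64)) (.br (Nat.shiftLeft (nat_lit 0x5) (nat_lit 113)) (.br (Nat.shiftLeft (nat_lit 0x900000600d015) (nat_lit 64)) (.one (nat_lit 0x900000600d014200000c01a12a411)) (.one (nat_lit 0x900000600d015200000c01a12c411))) (.br (Nat.shiftLeft (nat_lit 0xa00000600d015) (nat_lit 64)) (.one (nat_lit 0xa00000600d014400000c01a12a411)) (.br (Nat.shiftLeft (nat_lit 0xb) (nat_lit 112)) (.one (nat_lit 0xa00000600d015400000c01a12c411)) (.one (nat_lit 0xb00000600d014600000c01a12a411))))) (.br (Nat.shiftLeft (nat_lit 0xc00000600d015) (nat_lit 64)) (.br (Nat.shiftLeft (nat_lit 0x3) (nat_lit 114)) (.one (nat_lit 0xb00000600d015600000c01a12c411)) (.one (nat_lit 0xc00000600d014800000c01a12a411))) (.br (Nat.shiftLeft (nat_lit 0xd)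 (nat_lit 112)) (.one (nat_lit 0xc00000600d015800000c01a12c411)) (.br (Nat.shiftLeft (nat_lit 0xd00000600d015) (nat_lit 64)) (.one (nat_lit 0xd00000600d014a00000c01a12a411)) (.one (nat_lit 0xd00000600d015a00000c01a12c411)))))) (.br (Nat.shiftLeft (nat_lit 0x100000400600d015) (nat_lit 64)) (.br (Nat.shiftLeft (nat_lit 0x1000003) (nat_lit 100)) (.br (Nat.shiftLeft (nat_lit 0x100000200600d015) (nat_lit 64)) (.one (nat_lit 0x100000200600d014000400c03a428511)) (.one (nat_lit 0x100000200600d015000400c03a42a511))) (.br (Nat.shiftLeft (nat_lit 0x100000300600d015) (nat_lit 64)) (.one (nat_lit 0x100000300600d014000600c03a428511)) (.br (Nat.shiftLeft (nat_lit 0x400001) (nat_lit 102)) (.one (nat_lit 0x100000300600d015000600c03a42a511)) (.one (nat_lit 0x100000400600d014000800c03a428511))))) (.br (Nat.shiftLeft (nat_lit 0x100000500600d015) (nat_lit 64)) (.br (Nat.shiftLeft (nat_lit 0x1000005) (nat_lit 100)) (.one (nat_lit 0x100000400600d015000800c03a42a511)) (.one (nat_lit 0x100000500600d014000a00c03a428511))) (.br (Nat.shiftLeft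 (nat_lit 0x1) (nat_lit 125)) (.one (nat_lit 0x100000500600d015000a00c03a42a511)) (.br (Nat.shiftLeft (nat_lit 0x200000200600d015) (nat_lit 64)) (.one (nat_lit 0x200000200600d014000400c05a828511)) (.one (nat_lit 0x200000200600d015000400c05a82a511))))))) (.br (Nat.shiftLeft (nat_lit 0xc00001) (nat_lit 102)) (.br (Nat.shiftLeft (nat_lit 0x200000500600d015) (nat_lit 64)) (.br (Nat.shiftLeft (nat_lit 0x800001) (nat_lit 102)) (.br (Nat.shiftLeft (nat_lit 0x200000300600d015) (nat_lit 64)) (.one (nat_lit 0x200000300600d014000600c05a828511)) (.one (nat_lit 0x200000300600d015000600c05a82a511))) (.br (Nat.shiftLeft (nat_lit 0x200000400600d015) (nat_lit 64)) (.one (nat_lit 0x200000400600d014000800c05a828511)) (.br (Nat.shiftLeft (nat_lit 0x2000005) (nat_lit 100)) (.one (nat_lit 0x200000400600d015000800c05a82a511)) (.one (nat_lit 0x200000500600d014000a00c05a828511))))) (.br (Nat.shiftLeft (nat_lit 0x300000200600d015) (nat_lit 64)) (.br (Nat.shiftLeft (nat_lit 0x3) (nat_lit 124)) (.one (nat_lit 0x200000500600d015000a00c05a82a511))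 (.one (nat_lit 0x300000200600d014000400c07ac28511))) (.br (Nat.shiftLeft (nat_lit 0x3000003) (nat_lit 100)) (.one (nat_lit 0x300000200600d015000400c07ac2a511)) (.br (Nat.shiftLeft (nat_lit 0x300000300600d015) (nat_lit 64)) (.one (nat_lit 0x300000300600d014000600c07ac28511)) (.one (nat_lit 0x300000300600d015000600c07ac2a511)))))) (.br (Nat.shiftLeft (nat_lit 0x400000200600d015) (nat_lit 64)) (.br (Nat.shiftLeft (nat_lit 0x3000005) (nat_lit 100)) (.br (Nat.shiftLeft (nat_lit 0x300000400600d015) (nat_lit 64)) (.one (nat_lit 0x300000400600d014000800c07ac28511)) (.one (nat_lit 0x300000400600d015000800c07ac2a511))) (.br (Nat.shiftLeft (nat_lit 0x300000500600d015) (nat_lit 64)) (.one (nat_lit 0x300000500600d014000a00c07ac28511)) (.br (Nat.shiftLeft (nat_lit 0x1) (nat_lit 126)) (.one (nat_lit 0x300000500600d015000a00c07ac2a511)) (.one (nat_lit 0x400000200600d014000400c09b028511))))) (.br (Nat.shiftLeft (nat_lit 0x400000300600d015) (nat_lit 64)) (.br (Nat.shiftLeft (nat_lit 0x4000003) (nat_lit 100)) (.one (nat_lit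 0x400000200600d015000400c09b02a511)) (.one (nat_lit 0x400000300600d014000600c09b028511))) (.br (Nat.shiftLeft (nat_lit 0x1000001) (nat_lit 102)) (.one (nat_lit 0x400000300600d015000600c09b02a511)) (.br (Nat.shiftLeft (nat_lit 0x400000400600d015) (nat_lit 64)) (.one (nat_lit 0x400000400600d014000800c09b028511)) (.one (nat_lit 0x400000400600d015000800c09b02a511))))))))
def t173 : k173.all (jb2 57 fl b0) = true := by decide +kernel
noncomputable def k174 : KT := (.br (Nat.shiftLeft (nat_lit 0x500000300600d015) (nat_lit 64)) (.br (Nat.shiftLeft (nat_lit 0x5) (nat_lit 124)) (.br (Nat.shiftLeft (nat_lit 0x400000500600d015) (nat_lit 64)) (.one (nat_lit 0x400000500600d014000a00c09b028511)) (.one (nat_lit 0x400000500600d015000a00c09b02a511))) (.br (Nat.shiftLeft (nat_lit 0x500000200600d015) (nat_lit 64)) (.one (nat_lit 0x500000200600d014000400c0bb428511)) (.br (Nat.shiftLeft (nat_lit 0x5000003) (nat_lit 100)) (.one (nat_lit 0x500000200600d015000400c0bb42a511)) (.one (nat_lit 0x500000300600d014000600c0bb428511)))))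 (.br (Nat.shiftLeft (nat_lit 0x500000400600d015) (nat_lit 64)) (.br (Nat.shiftLeft (nat_lit 0x1400001) (nat_lit 102)) (.one (nat_lit 0x500000300600d015000600c0bb42a511)) (.one (nat_lit 0x500000400600d014000800c0bb428511))) (.br (Nat.shiftLeft (nat_lit 0x5000005) (nat_lit 100)) (.one (nat_lit 0x500000400600d015000800c0bb42a511)) (.br (Nat.shiftLeft (nat_lit 0x500000500600d015) (nat_lit 64)) (.one (nat_lit 0x500000500600d014000a00c0bb428511)) (.one (nat_lit 0x500000500600d015000a00c0bb42a511))))))
def t174 : k174.all (jb2 57 fl b0) = true := by decide +kernel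
noncomputable def k175 : KT := (.br (Nat.shiftLeft (nat_lit 0x1800001) (nat_lit 102)) (.br (Nat.shiftLeft (nat_lit 0x6000003) (nat_lit 100)) (.br (Nat.shiftLeft (nat_lit 0x600000200600d015) (nat_lit 64)) (.one (nat_lit 0x600000200600d014000400c0db828511)) (.one (nat_lit 0x600000200600d015000400c0db82a511))) (.br (Nat.shiftLeft (nat_lit 0x600000300600d015) (nat_lit 64)) (.one (nat_lit 0x600000300600d014000600c0db828511)) (.one (nat_lit 0x600000300600d015000600c0db82a511)))) (.br (Nat.shiftLeft (nat_lit 0x6000005) (nat_lit 100)) (.br (Nat.shiftLeft (nat_lit 0x600000400600d015) (nat_lit 64)) (.one (nat_lit 0x600000400600d014000800c0db828511)) (.one (nat_lit 0x600000400600d015000800c0db82a511))) (.br (Nat.shiftLeft (nat_lit 0x600000500600d015) (nat_lit 64)) (.one (nat_lit 0x600000500600d014000a00c0db828511)) (.br (Nat.shiftLeft (nat_lit 0x7) (nat_lit 124)) (.one (nat_lit 0x600000500600d015000a00c0db82a511)) (.one (nat_lit 0x700000200600d014000400c0fbc28511))))))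
def t175 : k175.all (jb2 57 fl b0) = true := by decide +kernel
noncomputable def k176 : KT := (.br (Nat.shiftLeft (nat_lit 0x700000500600d015) (nat_lit 64)) (.br (Nat.shiftLeft (nat_lit 0x1c00001) (nat_lit 102)) (.br (Nat.shiftLeft (nat_lit 0x7000003) (nat_lit 100)) (.one (nat_lit 0x700000200600d015000400c0fbc2a511)) (.br (Nat.shiftLeft (nat_lit 0x700000300600d015) (nat_lit 64)) (.one (nat_lit 0x700000300600d014000600c0fbc28511)) (.one (nat_lit 0x700000300600d015000600c0fbc2a511)))) (.br (Nat.shiftLeft (nat_lit 0x700000400600d015) (nat_lit 64)) (.one (nat_lit 0x700000400600d014000800c0fbc28511)) (.br (Nat.shiftLeft (nat_lit 0x7000005) (nat_lit 100)) (.one (nat_lit 0x700000400600d015000800c0fbc2a511)) (.one (nat_lit 0x700000500600d014000a00c0fbc28511))))) (.br (Nat.shiftLeft (nat_lit 0x8000003) (nat_lit 100)) (.br (Nat.shiftLeft (nat_lit 0x1) (nat_lit 127)) (.one (nat_lit 0x700000500600d015000a00c0fbc2a511)) (.br (Nat.shiftLeft (nat_lit 0x800000200600d015) (nat_lit 64)) (.one (nat_lit 0x800000200600d014000400c11c028511))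 (.one (nat_lit 0x800000200600d015000400c11c02a511)))) (.br (Nat.shiftLeft (nat_lit 0x2000001) (nat_lit 102)) (.br (Nat.shiftLeft (nat_lit 0x800000300600d015) (nat_lit 64)) (.one (nat_lit 0x800000300600d014000600c11c028511)) (.one (nat_lit 0x800000300600d015000600c11c02a511))) (.br (Nat.shiftLeft (nat_lit 0x800000400600d015) (nat_lit 64)) (.one (nat_lit 0x800000400600d014000800c11c028511)) (.one (nat_lit 0x800000400600d015000800c11c02a511))))))
def t176 : k176.all (jb2 57 fl b0) = true := by decide +kernel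
noncomputable def k177 : KT := (.br (Nat.shiftLeft (nat_lit 0xb000003) (nat_lit 100)) (.br (Nat.shiftLeft (nat_lit 0x5) (nat_lit 125)) (.br (Nat.shiftLeft (nat_lit 0x900000300600d015) (nat_lit 64)) (.br (Nat.shiftLeft (nat_lit 0x9) (nat_lit 124)) (.br (Nat.shiftLeft (nat_lit 0x800000500600d015) (nat_lit 64)) (.one (nat_lit 0x800000500600d014000a00c11c028511)) (.one (nat_lit 0x800000500600d015000a00c11c02a511))) (.br (Nat.shiftLeft (nat_lit 0x900000200600d015) (nat_lit 64)) (.one (nat_lit 0x900000200600d014000400c13c428511)) (.br (Nat.shiftLeft (nat_lit 0x9000003) (nat_lit 100)) (.one (nat_lit 0x900000200600d015000400c13c42a511)) (.one (nat_lit 0x900000300600d014000600c13c428511))))) (.br (Nat.shiftLeft (nat_lit 0x900000400600d015) (nat_lit 64)) (.br (Nat.shiftLeft (nat_lit 0x2400001) (nat_lit 102)) (.one (nat_lit 0x900000300600d015000600c13c42a511)) (.one (nat_lit 0x900000400600d014000800c13c428511))) (.br (Nat.shiftLeft (nat_lit 0x9000005) (nat_lit 100)) (.one (nat_lit 0x900000400600d015000800c13c42a511))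 (.br (Nat.shiftLeft (nat_lit 0x900000500600d015) (nat_lit 64)) (.one (nat_lit 0x900000500600d014000a00c13c428511)) (.one (nat_lit 0x900000500600d015000a00c13c42a511)))))) (.br (Nat.shiftLeft (nat_lit 0xa00000400600d015) (nat_lit 64)) (.br (Nat.shiftLeft (nat_lit 0xa000003) (nat_lit 100)) (.br (Nat.shiftLeft (nat_lit 0xa00000200600d015) (nat_lit 64)) (.one (nat_lit 0xa00000200600d014000400c15c828511)) (.one (nat_lit 0xa00000200600d015000400c15c82a511))) (.br (Nat.shiftLeft (nat_lit 0xa00000300600d015) (nat_lit 64)) (.one (nat_lit 0xa00000300600d014000600c15c828511)) (.br (Nat.shiftLeft (nat_lit 0x2800001) (nat_lit 102)) (.one (nat_lit 0xa00000300600d015000600c15c82a511)) (.one (nat_lit 0xa00000400600d014000800c15c828511))))) (.br (Nat.shiftLeft (nat_lit 0xa00000500600d015) (nat_lit 64)) (.br (Nat.shiftLeft (nat_lit 0xa000005) (nat_lit 100)) (.one (nat_lit 0xa00000400600d015000800c15c82a511)) (.one (nat_lit 0xa00000500600d014000a00c15c828511))) (.br (Nat.shiftLeft (nat_lit 0xb) (nat_lit 124)) (.one (nat_lit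 0xa00000500600d015000a00c15c82a511)) (.br (Nat.shiftLeft (nat_lit 0xb00000200600d015) (nat_lit 64)) (.one (nat_lit 0xb00000200600d014000400c17cc28511)) (.one (nat_lit 0xb00000200600d015000400c17cc2a511))))))) (.br (Nat.shiftLeft (nat_lit 0x3000001) (nat_lit 102)) (.br (Nat.shiftLeft (nat_lit 0xb00000500600d015) (nat_lit 64)) (.br (Nat.shiftLeft (nat_lit 0x2c00001) (nat_lit 102)) (.br (Nat.shiftLeft (nat_lit 0xb00000300600d015) (nat_lit 64)) (.one (nat_lit 0xb00000300600d014000600c17cc28511)) (.one (nat_lit 0xb00000300600d015000600c17cc2a511))) (.br (Nat.shiftLeft (nat_lit 0xb00000400600d015) (nat_lit 64)) (.one (nat_lit 0xb00000400600d014000800c17cc28511)) (.br (Nat.shiftLeft (nat_lit 0xb000005) (nat_lit 100)) (.one (nat_lit 0xb00000400600d015000800c17cc2a511)) (.one (nat_lit 0xb00000500600d014000a00c17cc28511))))) (.br (Nat.shiftLeft (nat_lit 0xc00000200600d015) (nat_lit 64)) (.br (Nat.shiftLeft (nat_lit 0x3) (nat_lit 126)) (.one (nat_lit 0xb00000500600d015000a00c17cc2a511)) (.one (nat_lit 0xc00000200600d014000400c19d028511)))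 (.br (Nat.shiftLeft (nat_lit 0xc000003) (nat_lit 100)) (.one (nat_lit 0xc00000200600d015000400c19d02a511)) (.br (Nat.shiftLeft (nat_lit 0xc00000300600d015) (nat_lit 64)) (.one (nat_lit 0xc00000300600d014000600c19d028511)) (.one (nat_lit 0xc00000300600d015000600c19d02a511)))))) (.br (Nat.shiftLeft (nat_lit 0xd00000200600d015) (nat_lit 64)) (.br (Nat.shiftLeft (nat_lit 0xc000005) (nat_lit 100)) (.br (Nat.shiftLeft (nat_lit 0xc00000400600d015) (nat_lit 64)) (.one (nat_lit 0xc00000400600d014000800c19d028511)) (.one (nat_lit 0xc00000400600d015000800c19d02a511))) (.br (Nat.shiftLeft (nat_lit 0xc00000500600d015) (nat_lit 64)) (.one (nat_lit 0xc00000500600d014000a00c19d028511)) (.br (Nat.shiftLeft (nat_lit 0xd) (nat_lit 124)) (.one (nat_lit 0xc00000500600d015000a00c19d02a511)) (.one (nat_lit 0xd00000200600d014000400c1bd428511))))) (.br (Nat.shiftLeft (nat_lit 0xd00000300600d015) (nat_lit 64)) (.br (Nat.shiftLeft (nat_lit 0xd000003) (nat_lit 100)) (.one (nat_lit 0xd00000200600d015000400c1bd42a511)) (.one (nat_lit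 0xd00000300600d014000600c1bd428511))) (.br (Nat.shiftLeft (nat_lit 0x3400001) (nat_lit 102)) (.one (nat_lit 0xd00000300600d015000600c1bd42a511)) (.br (Nat.shiftLeft (nat_lit 0xd00000400600d015) (nat_lit 64)) (.one (nat_lit 0xd00000400600d014000800c1bd428511)) (.one (nat_lit 0xd00000400600d015000800c1bd42a511))))))))
def t177 : k177.all (jb2 57 fl b0) = true := by decide +kernel
noncomputable def k178 : KT := (.one (nat_lit 0xd00000500600d014000a00c1bd428511))
def t178 : k178.all (jb2 57 fl b0) = true := by decide +kernel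
noncomputable def s9 : KT := (.br (nat_lit 0x200400600d015400800c01a02a650) (.br (nat_lit 0x100300600d014200600c01a028650) (.br (nat_lit 0x100000600d015200000c01a02a411) (.br (nat_lit 0x100600d014000200c01a028540) k159 k160) (.br (nat_lit 0x100200600d014200400c01a028650) k161 (.br (nat_lit 0x100200600d015200400c01a02a650) k162 k163))) (.br (nat_lit 0x200000600d015400000c01a02a411) (.br (nat_lit 0x100400600d014200800c01a028650) k164 k165) (.br (nat_lit 0x200300600d014400600c01a028650) k166 (.br (nat_lit 0x200300600d015400600c01a02a650) k167 k168)))) (.br (nat_lit 0x400000400600d015000800c09b02a511) (.br (nat_lit 0x300400600d015600800c01a02a650) (.br (nat_lit 0x300000600d015600000c01a02a411) k169 k170) (.br (nat_lit 0x400000600d015800000c01a02a411) k171 (.br (nat_lit 0x800000600d015000000c01a12c411) k172 k173))) (.br (nat_lit 0x700000200600d014000400c0fbc28511) (.br (nat_lit 0x500000500600d015000a00c0bb42a511) k174 k175) (.br (nat_lit 0x800000400600d015000800c11c02a511) k176 (.br (nat_lit 0xd00000400600d015000800c1bd42a511)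 k177 k178)))))
noncomputable def u9 : KT := (.br (Nat.shiftLeft (nat_lit 0x600d015) (nat_lit 64)) (.one (nat_lit 0x600d014000000c01a028430)) (.one (nat_lit 0x600d015000000c01a02a430)))
def w9 : u9.all (wj 57 s9) = true := by decide +kernel
def o9 : OkW 57 (jb2 57 fl) u9 := .lift s9 _ (.br _ _ _ (.br _ _ _ (.br _ _ _ (.br _ _ _ (.leaf b0 k159 t159) (.leaf b0 k160 t160)) (.br _ _ _ (.leaf b0 k161 t161) (.br _ _ _ (.leaf b0 k162 t162) (.leaf b0 k163 t163)))) (.br _ _ _ (.br _ _ _ (.leaf b0 k164 t164) (.leaf b0 k165 t165)) (.br _ _ _ (.leaf b0 k166 t166) (.br _ _ _ (.leaf b0 k167 t167) (.leaf b0 k168 t168))))) (.br _ _ _ (.br _ _ _ (.br _ _ _ (.leaf b0 k169 t169) (.leaf b0 k170 t170)) (.br _ _ _ (.leaf b0 k171 t171) (.br _ _ _ (.leaf b0 k172 t172) (.leaf b0 k173 t173)))) (.br _ _ _ (.br _ _ _ (.leaf b0 k174 t174) (.leaf b0 k175 t175)) (.br _ _ _ (.leaf b0 k176 t176) (.br _ _ _ (.leaf b0 k177 t177) (.leaf b0 k178 t178)))))) w9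
noncomputable def k179 : KT := (.br (Nat.shiftLeft (nat_lit 0x600e01) (nat_lit 68)) (.br (Nat.shiftLeft (nat_lit 0x600d017) (nat_lit 64)) (.one (nat_lit 0x600d016000000c01a02d400)) (.br (Nat.shiftLeft (nat_lit 0x3007) (nat_lit 77)) (.one (nat_lit 0x600d017000000c01a02f400)) (.one (nat_lit 0x600e00f000000c01c01f400)))) (.br (Nat.shiftLeft (nat_lit 0x1) (nat_lit 100)) (.one (nat_lit 0x600e010000000c01c021400)) (.br (Nat.shiftLeft (nat_lit 0x100600d017) (nat_lit 64)) (.one (nat_lit 0x100600d016000200c01a02c540)) (.one (nat_lit 0x100600d017000200c01a02e540)))))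
def t179 : k179.all (jb2 57 fl b0) = true := by decide +kernel
noncomputable def k180 : KT := (.one (nat_lit 0x200600d016000400c01a02c540))
def t180 : k180.all (jb2 57 fl b0) = true := by decide +kernel
noncomputable def k181 : KT := (.br (Nat.shiftLeft (nat_lit 0x3) (nat_lit 100)) (.one (nat_lit 0x200600d017000400c01a02e540)) (.one (nat_lit 0x300600d016000600c01a02d500)))
def t181 : k181.all (jb2 57 fl b0) = true := by decide +kernel
noncomputable def k182 : KT := (.br (Nat.shiftLeft (nat_lit 0x1) (nat_lit 102)) (.one (nat_lit 0x300600d017000600c01a02e540)) (.one (nat_lit 0x400600d016000800c01a02d500)))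
def t182 : k182.all (jb2 57 fl b0) = true := by decide +kernel
noncomputable def k183 : KT := (.one (nat_lit 0x400600d017000800c01a02e540))
def t183 : k183.all (jb2 57 fl b0) = true := by decide +kernel
noncomputable def k184 : KT := (.one (nat_lit 0x500600d016000a00c01a02c540))
def t184 : k184.all (jb2 57 fl b0) = true := by decide +kernel
noncomputable def k185 : KT := (.br (Nat.shiftLeft (nat_lit 0x100000600d017) (nat_lit 64)) (.br (Nat.shiftLeft (nat_lit 0x1) (nat_lit 112)) (.one (nat_lit 0x500600d017000a00c01a02e540)) (.one (nat_lit 0x100000600d016200000c01a02c411))) (.br (Nat.shiftLeft (nat_lit 0x801) (nat_lit 101)) (.one (nat_lit 0x100000600d017200000c01a02e411)) (.one (nat_lit 0x100300600d016200600c01a02c650))))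
def t185 : k185.all (jb2 57 fl b0) = true := by decide +kernel
noncomputable def k186 : KT := (.br (Nat.shiftLeft (nat_lit 0x1001) (nat_lit 101)) (.br (Nat.shiftLeft (nat_lit 0x1) (nat_lit 113)) (.one (nat_lit 0x100400600d016200800c01a02c650)) (.br (Nat.shiftLeft (nat_lit 0x200000600d017) (nat_lit 64)) (.one (nat_lit 0x200000600d016400000c01a02c411)) (.one (nat_lit 0x200000600d017400000c01a02e411)))) (.br (Nat.shiftLeft (nat_lit 0x3) (nat_lit 112)) (.br (Nat.shiftLeft (nat_lit 0x801) (nat_lit 102)) (.one (nat_lit 0x200300600d016400600c01a02c650)) (.one (nat_lit 0x200400600d016400800c01a02c650))) (.br (Nat.shiftLeft (nat_lit 0x300000600d017) (nat_lit 64)) (.one (nat_lit 0x300000600d016600000c01a02c411)) (.one (nat_lit 0x300000600d017600000c01a02e411)))))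
def t186 : k186.all (jb2 57 fl b0) = true := by decide +kernel
noncomputable def k187 : KT := (.br (Nat.shiftLeft (nat_lit 0xa00000600d017) (nat_lit 64)) (.br (Nat.shiftLeft (nat_lit 0x7) (nat_lit 112)) (.br (Nat.shiftLeft (nat_lit 0x5) (nat_lit 112)) (.br (Nat.shiftLeft (nat_lit 0x1) (nat_lit 114)) (.one (nat_lit 0x300400600d016600800c01a02c650)) (.br (Nat.shiftLeft (nat_lit 0x400000600d017) (nat_lit 64)) (.one (nat_lit 0x400000600d016800000c01a02c411)) (.one (nat_lit 0x400000600d017800000c01a02e411)))) (.br (Nat.shiftLeft (nat_lit 0x3) (nat_lit 113)) (.br (Nat.shiftLeft (nat_lit 0x500000600d017) (nat_lit 64)) (.one (nat_lit 0x500000600d016a00000c01a02c411)) (.one (nat_lit 0x500000600d017a00000c01a02e411))) (.br (Nat.shiftLeft (nat_lit 0x600000600d017) (nat_lit 64)) (.one (nat_lit 0x600000600d016c00000c01a02c411)) (.one (nat_lit 0x600000600d017c00000c01a02e411))))) (.br (Nat.shiftLeft (nat_lit 0x800000600d017) (nat_lit 64)) (.br (Nat.shiftLeft (nat_lit 0x700000600d017) (nat_lit 64)) (.one (nat_lit 0x700000600d016e00000c01a02c411))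 (.br (Nat.shiftLeft (nat_lit 0x1) (nat_lit 115)) (.one (nat_lit 0x700000600d017e00000c01a02e411)) (.one (nat_lit 0x800000600d016000000c01a12e411)))) (.br (Nat.shiftLeft (nat_lit 0x900000600d017) (nat_lit 64)) (.br (Nat.shiftLeft (nat_lit 0x9) (nat_lit 112)) (.one (nat_lit 0x800000600d017000000c01a130411)) (.one (nat_lit 0x900000600d016200000c01a12e411))) (.br (Nat.shiftLeft (nat_lit 0x5) (nat_lit 113)) (.one (nat_lit 0x900000600d017200000c01a130411)) (.one (nat_lit 0xa00000600d016400000c01a12e411)))))) (.br (Nat.shiftLeft (nat_lit 0x1) (nat_lit 124)) (.br (Nat.shiftLeft (nat_lit 0x3) (nat_lit 114)) (.br (Nat.shiftLeft (nat_lit 0xb) (nat_lit 112)) (.one (nat_lit 0xa00000600d017400000c01a130411)) (.br (Nat.shiftLeft (nat_lit 0xb00000600d017) (nat_lit 64)) (.one (nat_lit 0xb00000600d016600000c01a12e411)) (.one (nat_lit 0xb00000600d017600000c01a130411)))) (.br (Nat.shiftLeft (nat_lit 0xd) (nat_lit 112)) (.br (Nat.shiftLeft (nat_lit 0xc00000600d017) (nat_lit 64)) (.one (nat_lit 0xc00000600d016800000c01a12e411))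 (.one (nat_lit 0xc00000600d017800000c01a130411))) (.br (Nat.shiftLeft (nat_lit 0xd00000600d017) (nat_lit 64)) (.one (nat_lit 0xd00000600d016a00000c01a12e411)) (.one (nat_lit 0xd00000600d017a00000c01a130411))))) (.br (Nat.shiftLeft (nat_lit 0x800001) (nat_lit 102)) (.br (Nat.shiftLeft (nat_lit 0x400001) (nat_lit 102)) (.one (nat_lit 0x100000300600d016000600c03a42c511)) (.br (Nat.shiftLeft (nat_lit 0x1) (nat_lit 125)) (.one (nat_lit 0x100000400600d016000800c03a42c511)) (.one (nat_lit 0x200000300600d016000600c05a82c511)))) (.br (Nat.shiftLeft (nat_lit 0xc00001) (nat_lit 102)) (.br (Nat.shiftLeft (nat_lit 0x3) (nat_lit 124)) (.one (nat_lit 0x200000400600d016000800c05a82c511)) (.one (nat_lit 0x300000300600d016000600c07ac2c511))) (.br (Nat.shiftLeft (nat_lit 0x1) (nat_lit 126)) (.one (nat_lit 0x300000400600d016000800c07ac2c511)) (.one (nat_lit 0x400000300600d016000600c09b02c511)))))))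
def t187 : k187.all (jb2 57 fl b0) = true := by decide +kernel
noncomputable def k188 : KT := (.br (Nat.shiftLeft (nat_lit 0x9) (nat_lit 124)) (.br (Nat.shiftLeft (nat_lit 0x1800001) (nat_lit 102)) (.br (Nat.shiftLeft (nat_lit 0x1400001) (nat_lit 102)) (.br (Nat.shiftLeft (nat_lit 0x5) (nat_lit 124)) (.one (nat_lit 0x400000400600d016000800c09b02c511)) (.one (nat_lit 0x500000300600d016000600c0bb42c511))) (.br (Nat.shiftLeft (nat_lit 0x3) (nat_lit 125)) (.one (nat_lit 0x500000400600d016000800c0bb42c511)) (.one (nat_lit 0x600000300600d016000600c0db82c511)))) (.br (Nat.shiftLeft (nat_lit 0x1c00001) (nat_lit 102)) (.br (Nat.shiftLeft (nat_lit 0x7) (nat_lit 124)) (.one (nat_lit 0x600000400600d016000800c0db82c511)) (.one (nat_lit 0x700000300600d016000600c0fbc2c511))) (.br (Nat.shiftLeft (nat_lit 0x1) (nat_lit 127)) (.one (nat_lit 0x700000400600d016000800c0fbc2c511)) (.br (Nat.shiftLeft (nat_lit 0x2000001) (nat_lit 102)) (.one (nat_lit 0x800000300600d016000600c11c02c511)) (.one (nat_lit 0x800000400600d016000800c11c02c511))))))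 (.br (Nat.shiftLeft (nat_lit 0xb) (nat_lit 124)) (.br (Nat.shiftLeft (nat_lit 0x5) (nat_lit 125)) (.br (Nat.shiftLeft (nat_lit 0x2400001) (nat_lit 102)) (.one (nat_lit 0x900000300600d016000600c13c42c511)) (.one (nat_lit 0x900000400600d016000800c13c42c511))) (.br (Nat.shiftLeft (nat_lit 0x2800001) (nat_lit 102)) (.one (nat_lit 0xa00000300600d016000600c15c82c511)) (.one (nat_lit 0xa00000400600d016000800c15c82c511)))) (.br (Nat.shiftLeft (nat_lit 0x3) (nat_lit 126)) (.br (Nat.shiftLeft (nat_lit 0x2c00001) (nat_lit 102)) (.one (nat_lit 0xb00000300600d016000600c17cc2c511)) (.one (nat_lit 0xb00000400600d016000800c17cc2c511))) (.br (Nat.shiftLeft (nat_lit 0x3000001) (nat_lit 102)) (.one (nat_lit 0xc00000300600d016000600c19d02c511)) (.br (Nat.shiftLeft (nat_lit 0xd) (nat_lit 124)) (.one (nat_lit 0xc00000400600d016000800c19d02c511)) (.one (nat_lit 0xd00000300600d016000600c1bd42c511)))))))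
def t188 : k188.all (jb2 57 fl b0) = true := by decide +kernel
noncomputable def s10 : KT := (.br (nat_lit 0x400600d017000800c01a02e540) (.br (nat_lit 0x200600d016000400c01a02c540) (.br (nat_lit 0x100600d017000200c01a02e540) k179 k180) (.br (nat_lit 0x300600d016000600c01a02d500) k181 (.br (nat_lit 0x400600d016000800c01a02d500) k182 k183))) (.br (nat_lit 0x100300600d016200600c01a02c650) (.br (nat_lit 0x500600d016000a00c01a02c540) k184 k185) (.br (nat_lit 0x300000600d017600000c01a02e411) k186 (.br (nat_lit 0x400000300600d016000600c09b02c511) k187 k188))))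
noncomputable def u10 : KT := (.br (Nat.shiftLeft (nat_lit 0x3007) (nat_lit 77)) (.br (Nat.shiftLeft (nat_lit 0x600d017) (nat_lit 64)) (.one (nat_lit 0x600d016000000c01a02c430)) (.one (nat_lit 0x600d017000000c01a02e430))) (.br (Nat.shiftLeft (nat_lit 0x600e01) (nat_lit 68)) (.one (nat_lit 0x600e00f000000c01c01f400)) (.one (nat_lit 0x600e010000000c01c021400))))
def w10 : u10.all (wj 57 s10) = true := by decide +kernel
def o10 : OkW 57 (jb2 57 fl) u10 := .lift s10 _ (.br _ _ _ (.br _ _ _ (.br _ _ _ (.leaf b0 k179 t179) (.leaf b0 k180 t180)) (.br _ _ _ (.leaf b0 k181 t181) (.br _ _ _ (.leaf b0 k182 t182) (.leaf b0 k183 t183)))) (.br _ _ _ (.br _ _ _ (.leaf b0 k184 t184) (.leaf b0 k185 t185)) (.br _ _ _ (.leaf b0 k186 t186) (.br _ _ _ (.leaf b0 k187 t187) (.leaf b0 k188 t188))))) w10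
noncomputable def k189 : KT := (.br (Nat.shiftLeft (nat_lit 0x5) (nat_lit 100)) (.br (Nat.shiftLeft (nat_lit 0x1) (nat_lit 101)) (.br (Nat.shiftLeft (nat_lit 0x1) (nat_lit 100)) (.one (nat_lit 0x600e011000000c01c023400)) (.one (nat_lit 0x100600e011000200c01c023500))) (.br (Nat.shiftLeft (nat_lit 0x3) (nat_lit 100)) (.one (nat_lit 0x200600e011000400c01c023500)) (.br (Nat.shiftLeft (nat_lit 0x1) (nat_lit 102)) (.one (nat_lit 0x300600e011000600c01c023500)) (.one (nat_lit 0x400600e011000800c01c023500))))) (.br (Nat.shiftLeft (nat_lit 0x801) (nat_lit 101)) (.br (Nat.shiftLeft (nat_lit 0x1) (nat_lit 112)) (.one (nat_lit 0x500600e011000a00c01c023500)) (.one (nat_lit 0x100000600e011200000c01c022411))) (.br (Nat.shiftLeft (nat_lit 0x1003) (nat_lit 100)) (.one (nat_lit 0x100200600e011200400c01c023600)) (.br (Nat.shiftLeft (nat_lit 0x401) (nat_lit 102)) (.one (nat_lit 0x100300600e011200600c01c023600)) (.one (nat_lit 0x100400600e011200800c01c022650))))))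
def t189 : k189.all (jb2 57 fl b0) = true := by decide +kernel
noncomputable def k190 : KT := (.br (Nat.shiftLeft (nat_lit 0x1001) (nat_lit 101)) (.br (Nat.shiftLeft (nat_lit 0x1) (nat_lit 113)) (.one (nat_lit 0x100500600e011200a00c01c022650)) (.one (nat_lit 0x200000600e011400000c01c022411))) (.br (Nat.shiftLeft (nat_lit 0x801) (nat_lit 102)) (.one (nat_lit 0x200300600e011400600c01c023600)) (.one (nat_lit 0x200400600e011400800c01c023600))))
def t190 : k190.all (jb2 57 fl b0) = true := by decide +kernel
noncomputable def k191 : KT := (.br (Nat.shiftLeft (nat_lit 0x3) (nat_lit 112)) (.one (nat_lit 0x200500600e011400a00c01c022650)) (.br (Nat.shiftLeft (nat_lit 0xc01) (nat_lit 102)) (.one (nat_lit 0x300000600e011600000c01c022411)) (.one (nat_lit 0x300400600e011600800c01c023600))))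
def t191 : k191.all (jb2 57 fl b0) = true := by decide +kernel
noncomputable def k192 : KT := (.br (Nat.shiftLeft (nat_lit 0x1) (nat_lit 114)) (.one (nat_lit 0x300500600e011600a00c01c022650)) (.one (nat_lit 0x400000600e011800000c01c022411)))
def t192 : k192.all (jb2 57 fl b0) = true := by decide +kernel
noncomputable def k193 : KT := (.br (Nat.shiftLeft (nat_lit 0x7) (nat_lit 112)) (.br (Nat.shiftLeft (nat_lit 0x5) (nat_lit 112)) (.one (nat_lit 0x400500600e011800a00c01c022650)) (.br (Nat.shiftLeft (nat_lit 0x3) (nat_lit 113)) (.one (nat_lit 0x500000600e011a00000c01c022411)) (.one (nat_lit 0x600000600e011c00000c01c022411)))) (.br (Nat.shiftLeft (nat_lit 0x1) (nat_lit 115)) (.one (nat_lit 0x700000600e011e00000c01c022411)) (.br (Nat.shiftLeft (nat_lit 0x9) (nat_lit 112)) (.one (nat_lit 0x800000600e011000000c01c124411)) (.one (nat_lit 0x900000600e011200000c01c124411)))))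
def t193 : k193.all (jb2 57 fl b0) = true := by decide +kernel
noncomputable def k194 : KT := (.br (Nat.shiftLeft (nat_lit 0x1) (nat_lit 124)) (.br (Nat.shiftLeft (nat_lit 0x3) (nat_lit 114)) (.br (Nat.shiftLeft (nat_lit 0xb) (nat_lit 112)) (.one (nat_lit 0xa00000600e011400000c01c124411)) (.one (nat_lit 0xb00000600e011600000c01c124411))) (.br (Nat.shiftLeft (nat_lit 0xd) (nat_lit 112)) (.one (nat_lit 0xc00000600e011800000c01c124411)) (.br (Nat.shiftLeft (nat_lit 0x7) (nat_lit 113)) (.one (nat_lit 0xd00000600e011a00000c01c124411)) (.one (nat_lit 0xe00000600e011c00000c01c124411))))) (.br (Nat.shiftLeft (nat_lit 0x400001) (nat_lit 102)) (.br (Nat.shiftLeft (nat_lit 0x800001) (nat_lit 101)) (.one (nat_lit 0x100000100600e011000200c03c422511)) (.br (Nat.shiftLeft (nat_lit 0x1000003) (nat_lit 100)) (.one (nat_lit 0x100000200600e011000400c03c422511)) (.one (nat_lit 0x100000300600e011000600c03c422511)))) (.br (Nat.shiftLeft (nat_lit 0x1000005) (nat_lit 100)) (.one (nat_lit 0x100000400600e011000800c03c422511)) (.br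 (Nat.shiftLeft (nat_lit 0x801) (nat_lit 113)) (.one (nat_lit 0x100000500600e011000a00c03c422511)) (.one (nat_lit 0x100200300600e011400600c03c422760))))))
def t194 : k194.all (jb2 57 fl b0) = true := by decide +kernel
noncomputable def k195 : KT := (.br (Nat.shiftLeft (nat_lit 0x1000001) (nat_lit 101)) (.br (Nat.shiftLeft (nat_lit 0x1003) (nat_lit 112)) (.one (nat_lit 0x100200400600e011400800c03c422760)) (.br (Nat.shiftLeft (nat_lit 0x1) (nat_lit 125)) (.one (nat_lit 0x100300400600e011600800c03c422760)) (.one (nat_lit 0x200000100600e011000200c05c822511)))) (.br (Nat.shiftLeft (nat_lit 0x800001) (nat_lit 102)) (.br (Nat.shiftLeft (nat_lit 0x2000003) (nat_lit 100)) (.one (nat_lit 0x200000200600e011000400c05c822511)) (.one (nat_lit 0x200000300600e011000600c05c822511))) (.br (Nat.shiftLeft (nat_lit 0x2000005) (nat_lit 100)) (.one (nat_lit 0x200000400600e011000800c05c822511)) (.one (nat_lit 0x200000500600e011000a00c05c822511)))))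
def t195 : k195.all (jb2 57 fl b0) = true := by decide +kernel
noncomputable def k196 : KT := (.br (Nat.shiftLeft (nat_lit 0x1) (nat_lit 126)) (.br (Nat.shiftLeft (nat_lit 0x3000003) (nat_lit 100)) (.br (Nat.shiftLeft (nat_lit 0x3) (nat_lit 124)) (.one (nat_lit 0x200300400600e011600800c05c822760)) (.br (Nat.shiftLeft (nat_lit 0x1800001) (nat_lit 101)) (.one (nat_lit 0x300000100600e011000200c07cc22511)) (.one (nat_lit 0x300000200600e011000400c07cc22511)))) (.br (Nat.shiftLeft (nat_lit 0xc00001) (nat_lit 102)) (.one (nat_lit 0x300000300600e011000600c07cc22511)) (.br (Nat.shiftLeft (nat_lit 0x3000005) (nat_lit 100)) (.one (nat_lit 0x300000400600e011000800c07cc22511)) (.one (nat_lit 0x300000500600e011000a00c07cc22511))))) (.br (Nat.shiftLeft (nat_lit 0x1000001) (nat_lit 102)) (.br (Nat.shiftLeft (nat_lit 0x2000001) (nat_lit 101)) (.one (nat_lit 0x400000100600e011000200c09d022511)) (.br (Nat.shiftLeft (nat_lit 0x4000003) (nat_lit 100)) (.one (nat_lit 0x400000200600e011000400c09d022511)) (.one (nat_lit 0x400000300600e011000600c09d022511))))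 (.br (Nat.shiftLeft (nat_lit 0x4000005) (nat_lit 100)) (.one (nat_lit 0x400000400600e011000800c09d022511)) (.br (Nat.shiftLeft (nat_lit 0x5) (nat_lit 124)) (.one (nat_lit 0x400000500600e011000a00c09d022511)) (.one (nat_lit 0x500000100600e011000200c0bd422511))))))
def t196 : k196.all (jb2 57 fl b0) = true := by decide +kernel
noncomputable def k197 : KT := (.br (Nat.shiftLeft (nat_lit 0x5000005) (nat_lit 100)) (.br (Nat.shiftLeft (nat_lit 0x5000003) (nat_lit 100)) (.one (nat_lit 0x500000200600e011000400c0bd422511)) (.br (Nat.shiftLeft (nat_lit 0x1400001) (nat_lit 102)) (.one (nat_lit 0x500000300600e011000600c0bd422511)) (.one (nat_lit 0x500000400600e011000800c0bd422511)))) (.br (Nat.shiftLeft (nat_lit 0x3) (nat_lit 125)) (.one (nat_lit 0x500000500600e011000a00c0bd422511)) (.br (Nat.shiftLeft (nat_lit 0x3000001) (nat_lit 101)) (.one (nat_lit 0x600000100600e011000200c0dd822511)) (.one (nat_lit 0x600000200600e011000400c0dd822511)))))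
def t197 : k197.all (jb2 57 fl b0) = true := by decide +kernel
noncomputable def k198 : KT := (.br (Nat.shiftLeft (nat_lit 0x6000005) (nat_lit 100)) (.br (Nat.shiftLeft (nat_lit 0x1800001) (nat_lit 102)) (.one (nat_lit 0x600000300600e011000600c0dd822511)) (.one (nat_lit 0x600000400600e011000800c0dd822511))) (.br (Nat.shiftLeft (nat_lit 0x7) (nat_lit 124)) (.one (nat_lit 0x600000500600e011000a00c0dd822511)) (.br (Nat.shiftLeft (nat_lit 0x3800001) (nat_lit 101)) (.one (nat_lit 0x700000100600e011000200c0fdc22511)) (.one (nat_lit 0x700000200600e011000400c0fdc22511)))))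
def t198 : k198.all (jb2 57 fl b0) = true := by decide +kernel
noncomputable def k199 : KT := (.br (Nat.shiftLeft (nat_lit 0x7000005) (nat_lit 100)) (.br (Nat.shiftLeft (nat_lit 0x1c00001) (nat_lit 102)) (.one (nat_lit 0x700000300600e011000600c0fdc22511)) (.one (nat_lit 0x700000400600e011000800c0fdc22511))) (.br (Nat.shiftLeft (nat_lit 0x1) (nat_lit 127)) (.one (nat_lit 0x700000500600e011000a00c0fdc22511)) (.br (Nat.shiftLeft (nat_lit 0x4000001) (nat_lit 101)) (.one (nat_lit 0x800000100600e011000200c11e022511)) (.one (nat_lit 0x800000200600e011000400c11e022511)))))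
def t199 : k199.all (jb2 57 fl b0) = true := by decide +kernel
noncomputable def k200 : KT := (.br (Nat.shiftLeft (nat_lit 0x9) (nat_lit 124)) (.br (Nat.shiftLeft (nat_lit 0x2000001) (nat_lit 102)) (.one (nat_lit 0x800000300600e011000600c11e022511)) (.br (Nat.shiftLeft (nat_lit 0x8000005) (nat_lit 100)) (.one (nat_lit 0x800000400600e011000800c11e022511)) (.one (nat_lit 0x800000500600e011000a00c11e022511)))) (.br (Nat.shiftLeft (nat_lit 0x4800001) (nat_lit 101)) (.one (nat_lit 0x900000100600e011000200c13e422511)) (.br (Nat.shiftLeft (nat_lit 0x9000003) (nat_lit 100)) (.one (nat_lit 0x900000200600e011000400c13e422511)) (.one (nat_lit 0x900000300600e011000600c13e422511)))))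
def t200 : k200.all (jb2 57 fl b0) = true := by decide +kernel
noncomputable def k201 : KT := (.br (Nat.shiftLeft (nat_lit 0xa000005) (nat_lit 100)) (.br (Nat.shiftLeft (nat_lit 0x5000001) (nat_lit 101)) (.br (Nat.shiftLeft (nat_lit 0x9000005) (nat_lit 100)) (.one (nat_lit 0x900000400600e011000800c13e422511)) (.br (Nat.shiftLeft (nat_lit 0x5) (nat_lit 125)) (.one (nat_lit 0x900000500600e011000a00c13e422511)) (.one (nat_lit 0xa00000100600e011000200c15e822511)))) (.br (Nat.shiftLeft (nat_lit 0xa000003) (nat_lit 100)) (.one (nat_lit 0xa00000200600e011000400c15e822511)) (.br (Nat.shiftLeft (nat_lit 0x2800001) (nat_lit 102)) (.one (nat_lit 0xa00000300600e011000600c15e822511)) (.one (nat_lit 0xa00000400600e011000800c15e822511))))) (.br (Nat.shiftLeft (nat_lit 0xb000003) (nat_lit 100)) (.br (Nat.shiftLeft (nat_lit 0xb) (nat_lit 124)) (.one (nat_lit 0xa00000500600e011000a00c15e822511)) (.br (Nat.shiftLeft (nat_lit 0x5800001) (nat_lit 101)) (.one (nat_lit 0xb00000100600e011000200c17ec22511)) (.one (nat_lit 0xb00000200600e011000400c17ec22511))))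 (.br (Nat.shiftLeft (nat_lit 0xb000005) (nat_lit 100)) (.br (Nat.shiftLeft (nat_lit 0x2c00001) (nat_lit 102)) (.one (nat_lit 0xb00000300600e011000600c17ec22511)) (.one (nat_lit 0xb00000400600e011000800c17ec22511))) (.br (Nat.shiftLeft (nat_lit 0x3) (nat_lit 126)) (.one (nat_lit 0xb00000500600e011000a00c17ec22511)) (.one (nat_lit 0xc00000100600e011000200c19f022511))))))
def t201 : k201.all (jb2 57 fl b0) = true := by decide +kernel
noncomputable def k202 : KT := (.br (Nat.shiftLeft (nat_lit 0x400000801) (nat_lit 102)) (.br (Nat.shiftLeft (nat_lit 0xd000005) (nat_lit 100)) (.br (Nat.shiftLeft (nat_lit 0xd) (nat_lit 124)) (.br (Nat.shiftLeft (nat_lit 0x3000001) (nat_lit 102)) (.br (Nat.shiftLeft (nat_lit 0xc000003) (nat_lit 100)) (.one (nat_lit 0xc00000200600e011000400c19f022511)) (.one (nat_lit 0xc00000300600e011000600c19f022511))) (.br (Nat.shiftLeft (nat_lit 0xc000005) (nat_lit 100)) (.one (nat_lit 0xc00000400600e011000800c19f022511)) (.one (nat_lit 0xc00000500600e011000a00c19f022511)))) (.br (Nat.shiftLeft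 (nat_lit 0xd000003) (nat_lit 100)) (.br (Nat.shiftLeft (nat_lit 0x6800001) (nat_lit 101)) (.one (nat_lit 0xd00000100600e011000200c1bf422511)) (.one (nat_lit 0xd00000200600e011000400c1bf422511))) (.br (Nat.shiftLeft (nat_lit 0x3400001) (nat_lit 102)) (.one (nat_lit 0xd00000300600e011000600c1bf422511)) (.one (nat_lit 0xd00000400600e011000800c1bf422511))))) (.br (Nat.shiftLeft (nat_lit 0x3800001) (nat_lit 102)) (.br (Nat.shiftLeft (nat_lit 0x7000001) (nat_lit 101)) (.br (Nat.shiftLeft (nat_lit 0x7) (nat_lit 125)) (.one (nat_lit 0xd00000500600e011000a00c1bf422511)) (.one (nat_lit 0xe00000100600e011000200c1df822511))) (.br (Nat.shiftLeft (nat_lit 0xe000003) (nat_lit 100)) (.one (nat_lit 0xe00000200600e011000400c1df822511)) (.one (nat_lit 0xe00000300600e011000600c1df822511)))) (.br (Nat.shiftLeft (nat_lit 0x1) (nat_lit 136)) (.br (Nat.shiftLeft (nat_lit 0xe000005) (nat_lit 100)) (.one (nat_lit 0xe00000400600e011000800c1df822511)) (.one (nat_lit 0xe00000500600e011000a00c1df822511))) (.br (Nat.shiftLeft (nat_lit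 0x1000001003) (nat_lit 100)) (.one (nat_lit 0x100000100200600e011200402c41c022611)) (.br (Nat.shiftLeft (nat_lit 0x800001) (nat_lit 113)) (.one (nat_lit 0x100000100300600e011200602c41c022611)) (.one (nat_lit 0x100000200300600e011400602c41c022611))))))) (.br (Nat.shiftLeft (nat_lit 0x3000001003) (nat_lit 100)) (.br (Nat.shiftLeft (nat_lit 0x1000001) (nat_lit 113)) (.br (Nat.shiftLeft (nat_lit 0x1) (nat_lit 137)) (.br (Nat.shiftLeft (nat_lit 0x1000003) (nat_lit 112)) (.one (nat_lit 0x100000200400600e011400802c41c022611)) (.one (nat_lit 0x100000300400600e011600802c41c022611))) (.br (Nat.shiftLeft (nat_lit 0x2000001003) (nat_lit 100)) (.one (nat_lit 0x200000100200600e011200404c81c022611)) (.one (nat_lit 0x200000100300600e011200604c81c022611)))) (.br (Nat.shiftLeft (nat_lit 0x2000003) (nat_lit 112)) (.br (Nat.shiftLeft (nat_lit 0x800000801) (nat_lit 102)) (.one (nat_lit 0x200000200300600e011400604c81c022611)) (.one (nat_lit 0x200000200400600e011400804c81c022611))) (.br (Nat.shiftLeft (nat_lit 0x3) (nat_lit 136))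 (.one (nat_lit 0x200000300400600e011600804c81c022611)) (.one (nat_lit 0x300000100200600e011200406cc1c022611))))) (.br (Nat.shiftLeft (nat_lit 0x1) (nat_lit 138)) (.br (Nat.shiftLeft (nat_lit 0xc00000801) (nat_lit 102)) (.br (Nat.shiftLeft (nat_lit 0x1800001) (nat_lit 113)) (.one (nat_lit 0x300000100300600e011200606cc1c022611)) (.one (nat_lit 0x300000200300600e011400606cc1c022611))) (.br (Nat.shiftLeft (nat_lit 0x3000003) (nat_lit 112)) (.one (nat_lit 0x300000200400600e011400806cc1c022611)) (.one (nat_lit 0x300000300400600e011600806cc1c022611)))) (.br (Nat.shiftLeft (nat_lit 0x2000001) (nat_lit 113)) (.br (Nat.shiftLeft (nat_lit 0x4000001003) (nat_lit 100)) (.one (nat_lit 0x400000100200600e011200408d01c022611)) (.one (nat_lit 0x400000100300600e011200608d01c022611))) (.br (Nat.shiftLeft (nat_lit 0x1000000801) (nat_lit 102)) (.one (nat_lit 0x400000200300600e011400608d01c022611)) (.br (Nat.shiftLeft (nat_lit 0x4000003) (nat_lit 112)) (.one (nat_lit 0x400000200400600e011400808d01c022611)) (.one (nat_lit 0x400000300400600e011600808d01c022611))))))))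
def t202 : k202.all (jb2 57 fl b0) = true := by decide +kernel
noncomputable def k203 : KT := (.br (Nat.shiftLeft (nat_lit 0x2800001) (nat_lit 113)) (.br (Nat.shiftLeft (nat_lit 0x5000001003) (nat_lit 100)) (.one (nat_lit 0x500000100200600e01120040ad41c022611)) (.one (nat_lit 0x500000100300600e01120060ad41c022611))) (.br (Nat.shiftLeft (nat_lit 0x1400000801) (nat_lit 102)) (.one (nat_lit 0x500000200300600e01140060ad41c022611)) (.br (Nat.shiftLeft (nat_lit 0x5000003) (nat_lit 112)) (.one (nat_lit 0x500000200400600e01140080ad41c022611)) (.one (nat_lit 0x500000300400600e01160080ad41c022611)))))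
def t203 : k203.all (jb2 57 fl b0) = true := by decide +kernel
noncomputable def k204 : KT := (.br (Nat.shiftLeft (nat_lit 0x3000001) (nat_lit 113)) (.br (Nat.shiftLeft (nat_lit 0x6000001003) (nat_lit 100)) (.one (nat_lit 0x600000100200600e01120040cd81c022611)) (.one (nat_lit 0x600000100300600e01120060cd81c022611))) (.br (Nat.shiftLeft (nat_lit 0x1800000801) (nat_lit 102)) (.one (nat_lit 0x600000200300600e01140060cd81c022611)) (.br (Nat.shiftLeft (nat_lit 0x6000003) (nat_lit 112)) (.one (nat_lit 0x600000200400600e01140080cd81c022611)) (.one (nat_lit 0x600000300400600e01160080cd81c022611)))))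
def t204 : k204.all (jb2 57 fl b0) = true := by decide +kernel
noncomputable def k205 : KT := (.br (Nat.shiftLeft (nat_lit 0x3800001) (nat_lit 113)) (.br (Nat.shiftLeft (nat_lit 0x7000001003) (nat_lit 100)) (.one (nat_lit 0x700000100200600e01120040edc1c022611)) (.one (nat_lit 0x700000100300600e01120060edc1c022611))) (.br (Nat.shiftLeft (nat_lit 0x1c00000801) (nat_lit 102)) (.one (nat_lit 0x700000200300600e01140060edc1c022611)) (.br (Nat.shiftLeft (nat_lit 0x7000003) (nat_lit 112)) (.one (nat_lit 0x700000200400600e01140080edc1c022611)) (.one (nat_lit 0x700000300400600e01160080edc1c022611)))))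
def t205 : k205.all (jb2 57 fl b0) = true := by decide +kernel
noncomputable def k206 : KT := (.br (Nat.shiftLeft (nat_lit 0x8000003) (nat_lit 112)) (.br (Nat.shiftLeft (nat_lit 0x4000001) (nat_lit 113)) (.br (Nat.shiftLeft (nat_lit 0x8000001003) (nat_lit 100)) (.one (nat_lit 0x800000100200600e011200410e01c022611)) (.one (nat_lit 0x800000100300600e011200610e01c022611))) (.br (Nat.shiftLeft (nat_lit 0x2000000801) (nat_lit 102)) (.one (nat_lit 0x800000200300600e011400610e01c022611)) (.one (nat_lit 0x800000200400600e011400810e01c022611)))) (.br (Nat.shiftLeft (nat_lit 0x9000001003) (nat_lit 100)) (.br (Nat.shiftLeft (nat_lit 0x9) (nat_lit 136)) (.one (nat_lit 0x800000300400600e011600810e01c022611)) (.one (nat_lit 0x900000100200600e011200412e41c022611))) (.br (Nat.shiftLeft (nat_lit 0x4800001) (nat_lit 113)) (.one (nat_lit 0x900000100300600e011200612e41c022611)) (.br (Nat.shiftLeft (nat_lit 0x2400000801) (nat_lit 102)) (.one (nat_lit 0x900000200300600e011400612e41c022611)) (.one (nat_lit 0x900000200400600e011400812e41c022611))))))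
def t206 : k206.all (jb2 57 fl b0) = true := by decide +kernel
noncomputable def k207 : KT := (.br (Nat.shiftLeft (nat_lit 0xc000001003) (nat_lit 100)) (.br (Nat.shiftLeft (nat_lit 0xb) (nat_lit 136)) (.br (Nat.shiftLeft (nat_lit 0x5000001) (nat_lit 113)) (.br (Nat.shiftLeft (nat_lit 0x5) (nat_lit 137)) (.one (nat_lit 0x900000300400600e011600812e41c022611)) (.br (Nat.shiftLeft (nat_lit 0xa000001003) (nat_lit 100)) (.one (nat_lit 0xa00000100200600e011200414e81c022611)) (.one (nat_lit 0xa00000100300600e011200614e81c022611)))) (.br (Nat.shiftLeft (nat_lit 0x2800000801) (nat_lit 102)) (.one (nat_lit 0xa00000200300600e011400614e81c022611)) (.br (Nat.shiftLeft (nat_lit 0xa000003) (nat_lit 112)) (.one (nat_lit 0xa00000200400600e011400814e81c022611)) (.one (nat_lit 0xa00000300400600e011600814e81c022611))))) (.br (Nat.shiftLeft (nat_lit 0x2c00000801) (nat_lit 102)) (.br (Nat.shiftLeft (nat_lit 0xb000001003) (nat_lit 100)) (.one (nat_lit 0xb00000100200600e011200416ec1c022611)) (.br (Nat.shiftLeft (nat_lit 0x5800001)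 (nat_lit 113)) (.one (nat_lit 0xb00000100300600e011200616ec1c022611)) (.one (nat_lit 0xb00000200300600e011400616ec1c022611)))) (.br (Nat.shiftLeft (nat_lit 0xb000003) (nat_lit 112)) (.one (nat_lit 0xb00000200400600e011400816ec1c022611)) (.br (Nat.shiftLeft (nat_lit 0x3) (nat_lit 138)) (.one (nat_lit 0xb00000300400600e011600816ec1c022611)) (.one (nat_lit 0xc00000100200600e011200418f01c022611)))))) (.br (Nat.shiftLeft (nat_lit 0x6800001) (nat_lit 113)) (.br (Nat.shiftLeft (nat_lit 0xc000003) (nat_lit 112)) (.br (Nat.shiftLeft (nat_lit 0x6000001) (nat_lit 113)) (.one (nat_lit 0xc00000100300600e011200618f01c022611)) (.br (Nat.shiftLeft (nat_lit 0x3000000801) (nat_lit 102)) (.one (nat_lit 0xc00000200300600e011400618f01c022611)) (.one (nat_lit 0xc00000200400600e011400818f01c022611)))) (.br (Nat.shiftLeft (nat_lit 0xd) (nat_lit 136)) (.one (nat_lit 0xc00000300400600e011600818f01c022611)) (.br (Nat.shiftLeft (nat_lit 0xd000001003) (nat_lit 100)) (.one (nat_lit 0xd00000100200600e01120041af41c022611)) (.one (nat_lit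 0xd00000100300600e01120061af41c022611))))) (.br (Nat.shiftLeft (nat_lit 0x7) (nat_lit 137)) (.br (Nat.shiftLeft (nat_lit 0x3400000801) (nat_lit 102)) (.one (nat_lit 0xd00000200300600e01140061af41c022611)) (.br (Nat.shiftLeft (nat_lit 0xd000003) (nat_lit 112)) (.one (nat_lit 0xd00000200400600e01140081af41c022611)) (.one (nat_lit 0xd00000300400600e01160081af41c022611)))) (.br (Nat.shiftLeft (nat_lit 0x7000001) (nat_lit 113)) (.br (Nat.shiftLeft (nat_lit 0xe000001003) (nat_lit 100)) (.one (nat_lit 0xe00000100200600e01120041cf81c022611)) (.one (nat_lit 0xe00000100300600e01120061cf81c022611))) (.br (Nat.shiftLeft (nat_lit 0x3800000801) (nat_lit 102)) (.one (nat_lit 0xe00000200300600e01140061cf81c022611)) (.one (nat_lit 0xe00000200400600e01140081cf81c022611)))))))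
def t207 : k207.all (jb2 57 fl b0) = true := by decide +kernel
noncomputable def s11 : KT := (.br (nat_lit 0x600000200600e011000400c0dd822511) (.br (nat_lit 0x400000600e011800000c01c022411) (.br (nat_lit 0x200400600e011400800c01c023600) (.br (nat_lit 0x100400600e011200800c01c022650) k189 k190) (.br (nat_lit 0x300400600e011600800c01c023600) k191 k192)) (.br (nat_lit 0x100200300600e011400600c03c422760) (.br (nat_lit 0x900000600e011200000c01c124411) k193 k194) (.br (nat_lit 0x200000500600e011000a00c05c822511) k195 (.br (nat_lit 0x500000100600e011000200c0bd422511) k196 k197)))) (.br (nat_lit 0x400000300400600e011600808d01c022611) (.br (nat_lit 0x800000200600e011000400c11e022511) (.br (nat_lit 0x700000200600e011000400c0fdc22511) k198 k199) (.br (nat_lit 0x900000300600e011000600c13e422511) k200 (.br (nat_lit 0xc00000100600e011000200c19f022511) k201 k202))) (.br (nat_lit 0x600000300400600e01160080cd81c022611) (.br (nat_lit 0x500000300400600e01160080ad41c022611) k203 k204) (.br (nat_lit 0x700000300400600e01160080edc1c022611)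 k205 (.br (nat_lit 0x900000200400600e011400812e41c022611) k206 k207)))))
noncomputable def u11 : KT := (.one (nat_lit 0x600e011000000c01c022430))
def w11 : u11.all (wj 57 s11) = true := by decide +kernel
def o11 : OkW 57 (jb2 57 fl) u11 := .lift s11 _ (.br _ _ _ (.br _ _ _ (.br _ _ _ (.br _ _ _ (.leaf b0 k189 t189) (.leaf b0 k190 t190)) (.br _ _ _ (.leaf b0 k191 t191) (.leaf b0 k192 t192))) (.br _ _ _ (.br _ _ _ (.leaf b0 k193 t193) (.leaf b0 k194 t194)) (.br _ _ _ (.leaf b0 k195 t195) (.br _ _ _ (.leaf b0 k196 t196) (.leaf b0 k197 t197))))) (.br _ _ _ (.br _ _ _ (.br _ _ _ (.leaf b0 k198 t198) (.leaf b0 k199 t199)) (.br _ _ _ (.leaf b0 k200 t200) (.br _ _ _ (.leaf b0 k201 t201) (.leaf b0 k202 t202)))) (.br _ _ _ (.br _ _ _ (.leaf b0 k203 t203) (.leaf b0 k204 t204)) (.br _ _ _ (.leaf b0 k205 t205) (.br _ _ _ (.leaf b0 k206 t206) (.leaf b0 k207 t207)))))) w11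
noncomputable def k208 : KT := (.one (nat_lit 0x600e012000000c01c025400))
def t208 : k208.all (jb2 57 fl b0) = true := by decide +kernel
noncomputable def k209 : KT := (.one (nat_lit 0x100600e012000200c01c024540))
def t209 : k209.all (jb2 57 fl b0) = true := by decide +kernel
noncomputable def k210 : KT := (.br (Nat.shiftLeft (nat_lit 0x5) (nat_lit 100)) (.br (Nat.shiftLeft (nat_lit 0x3) (nat_lit 100)) (.one (nat_lit 0x200600e012000400c01c025500)) (.br (Nat.shiftLeft (nat_lit 0x1) (nat_lit 102)) (.one (nat_lit 0x300600e012000600c01c025500)) (.one (nat_lit 0x400600e012000800c01c025500)))) (.br (Nat.shiftLeft (nat_lit 0x801) (nat_lit 101)) (.br (Nat.shiftLeft (nat_lit 0x1) (nat_lit 112)) (.one (nat_lit 0x500600e012000a00c01c025500)) (.one (nat_lit 0x100000600e012200000c01c024411))) (.br (Nat.shiftLeft (nat_lit 0x1003) (nat_lit 100)) (.one (nat_lit 0x100200600e012200400c01c025600)) (.one (nat_lit 0x100300600e012200600c01c024650)))))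
def t210 : k210.all (jb2 57 fl b0) = true := by decide +kernel
noncomputable def k211 : KT := (.one (nat_lit 0x100400600e012200800c01c024650))
def t211 : k211.all (jb2 57 fl b0) = true := by decide +kernel
noncomputable def k212 : KT := (.br (Nat.shiftLeft (nat_lit 0x1) (nat_lit 113)) (.one (nat_lit 0x100500600e012200a00c01c024650)) (.br (Nat.shiftLeft (nat_lit 0x1001) (nat_lit 101)) (.one (nat_lit 0x200000600e012400000c01c024411)) (.one (nat_lit 0x200300600e012400600c01c025600))))
def t212 : k212.all (jb2 57 fl b0) = true := by decide +kernel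
noncomputable def k213 : KT := (.one (nat_lit 0x200400600e012400800c01c024650))
def t213 : k213.all (jb2 57 fl b0) = true := by decide +kernel
noncomputable def k214 : KT := (.br (Nat.shiftLeft (nat_lit 0x3) (nat_lit 112)) (.one (nat_lit 0x200500600e012400a00c01c024650)) (.one (nat_lit 0x300000600e012600000c01c024411)))
def t214 : k214.all (jb2 57 fl b0) = true := by decide +kernel
noncomputable def k215 : KT := (.one (nat_lit 0x300400600e012600800c01c024650))
def t215 : k215.all (jb2 57 fl b0) = true := by decide +kernel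
noncomputable def k216 : KT := (.br (Nat.shiftLeft (nat_lit 0x1) (nat_lit 114)) (.one (nat_lit 0x300500600e012600a00c01c024650)) (.one (nat_lit 0x400000600e012800000c01c024411)))
def t216 : k216.all (jb2 57 fl b0) = true := by decide +kernel
noncomputable def k217 : KT := (.br (Nat.shiftLeft (nat_lit 0xb) (nat_lit 112)) (.br (Nat.shiftLeft (nat_lit 0x7) (nat_lit 112)) (.br (Nat.shiftLeft (nat_lit 0x5) (nat_lit 112)) (.one (nat_lit 0x400500600e012800a00c01c024650)) (.br (Nat.shiftLeft (nat_lit 0x3) (nat_lit 113)) (.one (nat_lit 0x500000600e012a00000c01c024411)) (.one (nat_lit 0x600000600e012c00000c01c024411)))) (.br (Nat.shiftLeft (nat_lit 0x9) (nat_lit 112)) (.br (Nat.shiftLeft (nat_lit 0x1) (nat_lit 115)) (.one (nat_lit 0x700000600e012e00000c01c024411)) (.one (nat_lit 0x800000600e012000000c01c126411))) (.br (Nat.shiftLeft (nat_lit 0x5) (nat_lit 113)) (.one (nat_lit 0x900000600e012200000c01c126411)) (.one (nat_lit 0xa00000600e012400000c01c126411))))) (.br (Nat.shiftLeft (nat_lit 0x1) (nat_lit 124)) (.br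 (Nat.shiftLeft (nat_lit 0xd) (nat_lit 112)) (.br (Nat.shiftLeft (nat_lit 0x3) (nat_lit 114)) (.one (nat_lit 0xb00000600e012600000c01c126411)) (.one (nat_lit 0xc00000600e012800000c01c126411))) (.br (Nat.shiftLeft (nat_lit 0x7) (nat_lit 113)) (.one (nat_lit 0xd00000600e012a00000c01c126411)) (.one (nat_lit 0xe00000600e012c00000c01c126411)))) (.br (Nat.shiftLeft (nat_lit 0x400001) (nat_lit 102)) (.br (Nat.shiftLeft (nat_lit 0x1000003) (nat_lit 100)) (.one (nat_lit 0x100000200600e012000400c03c424511)) (.one (nat_lit 0x100000300600e012000600c03c424511))) (.br (Nat.shiftLeft (nat_lit 0x1000005) (nat_lit 100)) (.one (nat_lit 0x100000400600e012000800c03c424511)) (.one (nat_lit 0x100000500600e012000a00c03c424511))))))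
def t217 : k217.all (jb2 57 fl b0) = true := by decide +kernel
noncomputable def k218 : KT := (.br (Nat.shiftLeft (nat_lit 0xc00001) (nat_lit 102)) (.br (Nat.shiftLeft (nat_lit 0x800001) (nat_lit 102)) (.br (Nat.shiftLeft (nat_lit 0x1) (nat_lit 125)) (.one (nat_lit 0x100200300600e012400600c03c424760)) (.br (Nat.shiftLeft (nat_lit 0x2000003) (nat_lit 100)) (.one (nat_lit 0x200000200600e012000400c05c824511)) (.one (nat_lit 0x200000300600e012000600c05c824511)))) (.br (Nat.shiftLeft (nat_lit 0x3) (nat_lit 124)) (.br (Nat.shiftLeft (nat_lit 0x2000005) (nat_lit 100)) (.one (nat_lit 0x200000400600e012000800c05c824511)) (.one (nat_lit 0x200000500600e012000a00c05c824511))) (.br (Nat.shiftLeft (nat_lit 0x3000003) (nat_lit 100)) (.one (nat_lit 0x300000200600e012000400c07cc24511)) (.one (nat_lit 0x300000300600e012000600c07cc24511))))) (.br (Nat.shiftLeft (nat_lit 0x4000003) (nat_lit 100)) (.br (Nat.shiftLeft (nat_lit 0x3000005) (nat_lit 100)) (.one (nat_lit 0x300000400600e012000800c07cc24511)) (.br (Nat.shiftLeft (nat_lit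 0x1) (nat_lit 126)) (.one (nat_lit 0x300000500600e012000a00c07cc24511)) (.one (nat_lit 0x400000200600e012000400c09d024511)))) (.br (Nat.shiftLeft (nat_lit 0x4000005) (nat_lit 100)) (.br (Nat.shiftLeft (nat_lit 0x1000001) (nat_lit 102)) (.one (nat_lit 0x400000300600e012000600c09d024511)) (.one (nat_lit 0x400000400600e012000800c09d024511))) (.br (Nat.shiftLeft (nat_lit 0x5) (nat_lit 124)) (.one (nat_lit 0x400000500600e012000a00c09d024511)) (.one (nat_lit 0x500000200600e012000400c0bd424511))))))
def t218 : k218.all (jb2 57 fl b0) = true := by decide +kernel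
noncomputable def k219 : KT := (.br (Nat.shiftLeft (nat_lit 0x3) (nat_lit 125)) (.br (Nat.shiftLeft (nat_lit 0x1400001) (nat_lit 102)) (.one (nat_lit 0x500000300600e012000600c0bd424511)) (.br (Nat.shiftLeft (nat_lit 0x5000005) (nat_lit 100)) (.one (nat_lit 0x500000400600e012000800c0bd424511)) (.one (nat_lit 0x500000500600e012000a00c0bd424511)))) (.br (Nat.shiftLeft (nat_lit 0x1800001) (nat_lit 102)) (.br (Nat.shiftLeft (nat_lit 0x6000003) (nat_lit 100)) (.one (nat_lit 0x600000200600e012000400c0dd824511)) (.one (nat_lit 0x600000300600e012000600c0dd824511))) (.br (Nat.shiftLeft (nat_lit 0x6000005) (nat_lit 100)) (.one (nat_lit 0x600000400600e012000800c0dd824511)) (.one (nat_lit 0x600000500600e012000a00c0dd824511)))))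
def t219 : k219.all (jb2 57 fl b0) = true := by decide +kernel
noncomputable def k220 : KT := (.br (Nat.shiftLeft (nat_lit 0x7000005) (nat_lit 100)) (.br (Nat.shiftLeft (nat_lit 0x7000003) (nat_lit 100)) (.one (nat_lit 0x700000200600e012000400c0fdc24511)) (.br (Nat.shiftLeft (nat_lit 0x1c00001) (nat_lit 102)) (.one (nat_lit 0x700000300600e012000600c0fdc24511)) (.one (nat_lit 0x700000400600e012000800c0fdc24511)))) (.br (Nat.shiftLeft (nat_lit 0x8000003) (nat_lit 100)) (.br (Nat.shiftLeft (nat_lit 0x1) (nat_lit 127)) (.one (nat_lit 0x700000500600e012000a00c0fdc24511)) (.one (nat_lit 0x800000200600e012000400c11e024511))) (.br (Nat.shiftLeft (nat_lit 0x2000001) (nat_lit 102)) (.one (nat_lit 0x800000300600e012000600c11e024511)) (.one (nat_lit 0x800000400600e012000800c11e024511)))))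
def t220 : k220.all (jb2 57 fl b0) = true := by decide +kernel
noncomputable def k221 : KT := (.br (Nat.shiftLeft (nat_lit 0x3000001) (nat_lit 102)) (.br (Nat.shiftLeft (nat_lit 0x2800001) (nat_lit 102)) (.br (Nat.shiftLeft (nat_lit 0x2400001) (nat_lit 102)) (.br (Nat.shiftLeft (nat_lit 0x9) (nat_lit 124)) (.one (nat_lit 0x800000500600e012000a00c11e024511)) (.br (Nat.shiftLeft (nat_lit 0x9000003) (nat_lit 100)) (.one (nat_lit 0x900000200600e012000400c13e424511)) (.one (nat_lit 0x900000300600e012000600c13e424511)))) (.br (Nat.shiftLeft (nat_lit 0x5) (nat_lit 125)) (.br (Nat.shiftLeft (nat_lit 0x9000005) (nat_lit 100)) (.one (nat_lit 0x900000400600e012000800c13e424511)) (.one (nat_lit 0x900000500600e012000a00c13e424511))) (.br (Nat.shiftLeft (nat_lit 0xa000003) (nat_lit 100)) (.one (nat_lit 0xa00000200600e012000400c15e824511)) (.one (nat_lit 0xa00000300600e012000600c15e824511))))) (.br (Nat.shiftLeft (nat_lit 0x2c00001) (nat_lit 102)) (.br (Nat.shiftLeft (nat_lit 0xb) (nat_lit 124)) (.br (Nat.shiftLeft (nat_lit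 0xa000005) (nat_lit 100)) (.one (nat_lit 0xa00000400600e012000800c15e824511)) (.one (nat_lit 0xa00000500600e012000a00c15e824511))) (.br (Nat.shiftLeft (nat_lit 0xb000003) (nat_lit 100)) (.one (nat_lit 0xb00000200600e012000400c17ec24511)) (.one (nat_lit 0xb00000300600e012000600c17ec24511)))) (.br (Nat.shiftLeft (nat_lit 0x3) (nat_lit 126)) (.br (Nat.shiftLeft (nat_lit 0xb000005) (nat_lit 100)) (.one (nat_lit 0xb00000400600e012000800c17ec24511)) (.one (nat_lit 0xb00000500600e012000a00c17ec24511))) (.br (Nat.shiftLeft (nat_lit 0xc000003) (nat_lit 100)) (.one (nat_lit 0xc00000200600e012000400c19f024511)) (.one (nat_lit 0xc00000300600e012000600c19f024511)))))) (.br (Nat.shiftLeft (nat_lit 0x3800001) (nat_lit 102)) (.br (Nat.shiftLeft (nat_lit 0x3400001) (nat_lit 102)) (.br (Nat.shiftLeft (nat_lit 0xd) (nat_lit 124)) (.br (Nat.shiftLeft (nat_lit 0xc000005) (nat_lit 100)) (.one (nat_lit 0xc00000400600e012000800c19f024511)) (.one (nat_lit 0xc00000500600e012000a00c19f024511))) (.br (Nat.shiftLeft (nat_lit 0xd000003)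 (nat_lit 100)) (.one (nat_lit 0xd00000200600e012000400c1bf424511)) (.one (nat_lit 0xd00000300600e012000600c1bf424511)))) (.br (Nat.shiftLeft (nat_lit 0x7) (nat_lit 125)) (.br (Nat.shiftLeft (nat_lit 0xd000005) (nat_lit 100)) (.one (nat_lit 0xd00000400600e012000800c1bf424511)) (.one (nat_lit 0xd00000500600e012000a00c1bf424511))) (.br (Nat.shiftLeft (nat_lit 0xe000003) (nat_lit 100)) (.one (nat_lit 0xe00000200600e012000400c1df824511)) (.one (nat_lit 0xe00000300600e012000600c1df824511))))) (.br (Nat.shiftLeft (nat_lit 0x1) (nat_lit 137)) (.br (Nat.shiftLeft (nat_lit 0x1) (nat_lit 136)) (.br (Nat.shiftLeft (nat_lit 0xe000005) (nat_lit 100)) (.one (nat_lit 0xe00000400600e012000800c1df824511)) (.one (nat_lit 0xe00000500600e012000a00c1df824511))) (.br (Nat.shiftLeft (nat_lit 0x800001) (nat_lit 113)) (.one (nat_lit 0x100000100200600e012200402c41c024611)) (.one (nat_lit 0x100000200300600e012400602c41c024611)))) (.br (Nat.shiftLeft (nat_lit 0x3) (nat_lit 136)) (.br (Nat.shiftLeft (nat_lit 0x1000001) (nat_lit 113))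 (.one (nat_lit 0x200000100200600e012200404c81c024611)) (.one (nat_lit 0x200000200300600e012400604c81c024611))) (.br (Nat.shiftLeft (nat_lit 0x1800001) (nat_lit 113)) (.one (nat_lit 0x300000100200600e012200406cc1c024611)) (.one (nat_lit 0x300000200300600e012400606cc1c024611)))))))
def t221 : k221.all (jb2 57 fl b0) = true := by decide +kernel
noncomputable def k222 : KT := (.br (Nat.shiftLeft (nat_lit 0x2800001) (nat_lit 113)) (.br (Nat.shiftLeft (nat_lit 0x2000001) (nat_lit 113)) (.one (nat_lit 0x400000100200600e012200408d01c024611)) (.br (Nat.shiftLeft (nat_lit 0x5) (nat_lit 136)) (.one (nat_lit 0x400000200300600e012400608d01c024611)) (.one (nat_lit 0x500000100200600e01220040ad41c024611)))) (.br (Nat.shiftLeft (nat_lit 0x3000001) (nat_lit 113)) (.br (Nat.shiftLeft (nat_lit 0x3) (nat_lit 137)) (.one (nat_lit 0x500000200300600e01240060ad41c024611)) (.one (nat_lit 0x600000100200600e01220040cd81c024611))) (.br (Nat.shiftLeft (nat_lit 0x7) (nat_lit 136)) (.one (nat_lit 0x600000200300600e01240060cd81c024611))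 (.one (nat_lit 0x700000100200600e01220040edc1c024611)))))
def t222 : k222.all (jb2 57 fl b0) = true := by decide +kernel
noncomputable def k223 : KT := (.br (Nat.shiftLeft (nat_lit 0xb) (nat_lit 136)) (.br (Nat.shiftLeft (nat_lit 0x9) (nat_lit 136)) (.br (Nat.shiftLeft (nat_lit 0x1) (nat_lit 139)) (.one (nat_lit 0x700000200300600e01240060edc1c024611)) (.br (Nat.shiftLeft (nat_lit 0x4000001) (nat_lit 113)) (.one (nat_lit 0x800000100200600e012200410e01c024611)) (.one (nat_lit 0x800000200300600e012400610e01c024611)))) (.br (Nat.shiftLeft (nat_lit 0x5) (nat_lit 137)) (.br (Nat.shiftLeft (nat_lit 0x4800001) (nat_lit 113)) (.one (nat_lit 0x900000100200600e012200412e41c024611)) (.one (nat_lit 0x900000200300600e012400612e41c024611))) (.br (Nat.shiftLeft (nat_lit 0x5000001) (nat_lit 113)) (.one (nat_lit 0xa00000100200600e012200414e81c024611)) (.one (nat_lit 0xa00000200300600e012400614e81c024611))))) (.br (Nat.shiftLeft (nat_lit 0xd) (nat_lit 136)) (.br (Nat.shiftLeft (nat_lit 0x3) (nat_lit 138)) (.br (Nat.shiftLeft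 (nat_lit 0x5800001) (nat_lit 113)) (.one (nat_lit 0xb00000100200600e012200416ec1c024611)) (.one (nat_lit 0xb00000200300600e012400616ec1c024611))) (.br (Nat.shiftLeft (nat_lit 0x6000001) (nat_lit 113)) (.one (nat_lit 0xc00000100200600e012200418f01c024611)) (.one (nat_lit 0xc00000200300600e012400618f01c024611)))) (.br (Nat.shiftLeft (nat_lit 0x7) (nat_lit 137)) (.br (Nat.shiftLeft (nat_lit 0x6800001) (nat_lit 113)) (.one (nat_lit 0xd00000100200600e01220041af41c024611)) (.one (nat_lit 0xd00000200300600e01240061af41c024611))) (.br (Nat.shiftLeft (nat_lit 0x7000001) (nat_lit 113)) (.one (nat_lit 0xe00000100200600e01220041cf81c024611)) (.one (nat_lit 0xe00000200300600e01240061cf81c024611))))))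
def t223 : k223.all (jb2 57 fl b0) = true := by decide +kernel
noncomputable def s12 : KT := (.br (nat_lit 0x300400600e012600800c01c024650) (.br (nat_lit 0x100400600e012200800c01c024650) (.br (nat_lit 0x100600e012000200c01c024540) (.br (nat_lit 0x600e012000000c01c025400) k208 k209) (.br (nat_lit 0x100300600e012200600c01c024650) k210 k211)) (.br (nat_lit 0x200400600e012400800c01c024650) (.br (nat_lit 0x200300600e012400600c01c025600) k212 k213) (.br (nat_lit 0x300000600e012600000c01c024411) k214 k215))) (.br (nat_lit 0x600000500600e012000a00c0dd824511) (.br (nat_lit 0x100000500600e012000a00c03c424511) (.br (nat_lit 0x400000600e012800000c01c024411) k216 k217) (.br (nat_lit 0x500000200600e012000400c0bd424511) k218 k219)) (.br (nat_lit 0x300000200300600e012400606cc1c024611) (.br (nat_lit 0x800000400600e012000800c11e024511) k220 k221) (.br (nat_lit 0x700000100200600e01220040edc1c024611) k222 k223))))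
noncomputable def u12 : KT := (.one (nat_lit 0x600e012000000c01c024430))
def w12 : u12.all (wj 57 s12) = true := by decide +kernel
def o12 : OkW 57 (jb2 57 fl) u12 := .lift s12 _ (.br _ _ _ (.br _ _ _ (.br _ _ _ (.br _ _ _ (.leaf b0 k208 t208) (.leaf b0 k209 t209)) (.br _ _ _ (.leaf b0 k210 t210) (.leaf b0 k211 t211))) (.br _ _ _ (.br _ _ _ (.leaf b0 k212 t212) (.leaf b0 k213 t213)) (.br _ _ _ (.leaf b0 k214 t214) (.leaf b0 k215 t215)))) (.br _ _ _ (.br _ _ _ (.br _ _ _ (.leaf b0 k216 t216) (.leaf b0 k217 t217)) (.br _ _ _ (.leaf b0 k218 t218) (.leaf b0 k219 t219))) (.br _ _ _ (.br _ _ _ (.leaf b0 k220 t220) (.leaf b0 k221 t221)) (.br _ _ _ (.leaf b0 k222 t222) (.leaf b0 k223 t223))))) w12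
noncomputable def k224 : KT := (.br (Nat.shiftLeft (nat_lit 0x1803805) (nat_lit 66)) (.one (nat_lit 0x600e013000000c01c027400)) (.br (Nat.shiftLeft (nat_lit 0x1) (nat_lit 100)) (.one (nat_lit 0x600e014000000c01c029400)) (.one (nat_lit 0x100600e013000200c01c026540))))
def t224 : k224.all (jb2 57 fl b0) = true := by decide +kernel
noncomputable def k225 : KT := (.br (Nat.shiftLeft (nat_lit 0x1) (nat_lit 102)) (.br (Nat.shiftLeft (nat_lit 0x801803805) (nat_lit 66)) (.br (Nat.shiftLeft (nat_lit 0x1) (nat_lit 101)) (.one (nat_lit 0x100600e014000200c01c028540)) (.one (nat_lit 0x200600e013000400c01c027500))) (.br (Nat.shiftLeft (nat_lit 0x3) (nat_lit 100)) (.one (nat_lit 0x200600e014000400c01c029500)) (.br (Nat.shiftLeft (nat_lit 0xc01803805) (nat_lit 66)) (.one (nat_lit 0x300600e013000600c01c027500)) (.one (nat_lit 0x300600e014000600c01c029500))))) (.br (Nat.shiftLeft (nat_lit 0x1401803805) (nat_lit 66)) (.br (Nat.shiftLeft (nat_lit 0x1001803805) (nat_lit 66)) (.one (nat_lit 0x400600e013000800c01c027500)) (.br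 (Nat.shiftLeft (nat_lit 0x5) (nat_lit 100)) (.one (nat_lit 0x400600e014000800c01c029500)) (.one (nat_lit 0x500600e013000a00c01c027500)))) (.br (Nat.shiftLeft (nat_lit 0x1) (nat_lit 112)) (.one (nat_lit 0x500600e014000a00c01c029500)) (.br (Nat.shiftLeft (nat_lit 0x400001803805) (nat_lit 66)) (.one (nat_lit 0x100000600e013200000c01c026411)) (.one (nat_lit 0x100000600e014200000c01c028411))))))
def t225 : k225.all (jb2 57 fl b0) = true := by decide +kernel
noncomputable def k226 : KT := (.one (nat_lit 0x100200600e013200400c01c026650))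
def t226 : k226.all (jb2 57 fl b0) = true := by decide +kernel
noncomputable def k227 : KT := (.one (nat_lit 0x100200600e014200400c01c028650))
def t227 : k227.all (jb2 57 fl b0) = true := by decide +kernel
noncomputable def k228 : KT := (.one (nat_lit 0x100300600e013200600c01c026650))
def t228 : k228.all (jb2 57 fl b0) = true := by decide +kernel
noncomputable def k229 : KT := (.br (Nat.shiftLeft (nat_lit 0x401) (nat_lit 102)) (.one (nat_lit 0x100300600e014200600c01c028650)) (.one (nat_lit 0x100400600e013200800c01c026650)))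
def t229 : k229.all (jb2 57 fl b0) = true := by decide +kernel
noncomputable def k230 : KT := (.br (Nat.shiftLeft (nat_lit 0x401401803805) (nat_lit 66)) (.br (Nat.shiftLeft (nat_lit 0x1005) (nat_lit 100)) (.one (nat_lit 0x100400600e014200800c01c028650)) (.one (nat_lit 0x100500600e013200a00c01c026650))) (.br (Nat.shiftLeft (nat_lit 0x1) (nat_lit 113)) (.one (nat_lit 0x100500600e014200a00c01c028650)) (.br (Nat.shiftLeft (nat_lit 0x800001803805) (nat_lit 66)) (.one (nat_lit 0x200000600e013400000c01c026411)) (.one (nat_lit 0x200000600e014400000c01c028411)))))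
def t230 : k230.all (jb2 57 fl b0) = true := by decide +kernel
noncomputable def k231 : KT := (.one (nat_lit 0x200300600e013400600c01c026650))
def t231 : k231.all (jb2 57 fl b0) = true := by decide +kernel
noncomputable def k232 : KT := (.one (nat_lit 0x200300600e014400600c01c028650))
def t232 : k232.all (jb2 57 fl b0) = true := by decide +kernel
noncomputable def k233 : KT := (.br (Nat.shiftLeft (nat_lit 0x801001803805) (nat_lit 66)) (.one (nat_lit 0x200400600e013400800c01c026650)) (.one (nat_lit 0x200400600e014400800c01c028650)))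
def t233 : k233.all (jb2 57 fl b0) = true := by decide +kernel
noncomputable def k234 : KT := (.br (Nat.shiftLeft (nat_lit 0x3) (nat_lit 112)) (.br (Nat.shiftLeft (nat_lit 0x801401803805) (nat_lit 66)) (.one (nat_lit 0x200500600e013400a00c01c026650)) (.one (nat_lit 0x200500600e014400a00c01c028650))) (.br (Nat.shiftLeft (nat_lit 0xc00001803805) (nat_lit 66)) (.one (nat_lit 0x300000600e013600000c01c026411)) (.one (nat_lit 0x300000600e014600000c01c028411))))
def t234 : k234.all (jb2 57 fl b0) = true := by decide +kernel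
noncomputable def k235 : KT := (.br (Nat.shiftLeft (nat_lit 0xc01001803805) (nat_lit 66)) (.one (nat_lit 0x300400600e013600800c01c026650)) (.one (nat_lit 0x300400600e014600800c01c028650)))
def t235 : k235.all (jb2 57 fl b0) = true := by decide +kernel
noncomputable def k236 : KT := (.br (Nat.shiftLeft (nat_lit 0x1) (nat_lit 114)) (.br (Nat.shiftLeft (nat_lit 0xc01401803805) (nat_lit 66)) (.one (nat_lit 0x300500600e013600a00c01c026650)) (.one (nat_lit 0x300500600e014600a00c01c028650))) (.br (Nat.shiftLeft (nat_lit 0x1000001803805) (nat_lit 66)) (.one (nat_lit 0x400000600e013800000c01c026411)) (.one (nat_lit 0x400000600e014800000c01c028411))))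
def t236 : k236.all (jb2 57 fl b0) = true := by decide +kernel
noncomputable def k237 : KT := (.br (Nat.shiftLeft (nat_lit 0x1800001803805) (nat_lit 66)) (.br (Nat.shiftLeft (nat_lit 0x5) (nat_lit 112)) (.br (Nat.shiftLeft (nat_lit 0x1001401803805) (nat_lit 66)) (.one (nat_lit 0x400500600e013800a00c01c026650)) (.one (nat_lit 0x400500600e014800a00c01c028650))) (.br (Nat.shiftLeft (nat_lit 0x1400001803805) (nat_lit 66)) (.one (nat_lit 0x500000600e013a00000c01c026411)) (.br (Nat.shiftLeft (nat_lit 0x3) (nat_lit 113)) (.one (nat_lit 0x500000600e014a00000c01c028411)) (.one (nat_lit 0x600000600e013c00000c01c026411))))) (.br (Nat.shiftLeft (nat_lit 0x1c00001803805) (nat_lit 66)) (.br (Nat.shiftLeft (nat_lit 0x7) (nat_lit 112)) (.one (nat_lit 0x600000600e014c00000c01c028411)) (.one (nat_lit 0x700000600e013e00000c01c026411))) (.br (Nat.shiftLeft (nat_lit 0x1) (nat_lit 115)) (.one (nat_lit 0x700000600e014e00000c01c028411)) (.br (Nat.shiftLeft (nat_lit 0x2000001803805) (nat_lit 66)) (.one (nat_lit 0x800000600e013000000c01c128411))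 (.one (nat_lit 0x800000600e014000000c01c12a411))))))
def t237 : k237.all (jb2 57 fl b0) = true := by decide +kernel
noncomputable def k238 : KT := (.br (Nat.shiftLeft (nat_lit 0x1) (nat_lit 125)) (.br (Nat.shiftLeft (nat_lit 0x7) (nat_lit 113)) (.br (Nat.shiftLeft (nat_lit 0x2c00001803805) (nat_lit 66)) (.br (Nat.shiftLeft (nat_lit 0x5) (nat_lit 113)) (.br (Nat.shiftLeft (nat_lit 0x2400001803805) (nat_lit 66)) (.one (nat_lit 0x900000600e013200000c01c128411)) (.one (nat_lit 0x900000600e014200000c01c12a411))) (.br (Nat.shiftLeft (nat_lit 0x2800001803805) (nat_lit 66)) (.one (nat_lit 0xa00000600e013400000c01c128411)) (.br (Nat.shiftLeft (nat_lit 0xb) (nat_lit 112)) (.one (nat_lit 0xa00000600e014400000c01c12a411)) (.one (nat_lit 0xb00000600e013600000c01c128411))))) (.br (Nat.shiftLeft (nat_lit 0x3000001803805) (nat_lit 66)) (.br (Nat.shiftLeft (nat_lit 0x3) (nat_lit 114)) (.one (nat_lit 0xb00000600e014600000c01c12a411)) (.one (nat_lit 0xc00000600e013800000c01c128411))) (.br (Nat.shiftLeft (nat_lit 0xd) (nat_lit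 112)) (.one (nat_lit 0xc00000600e014800000c01c12a411)) (.br (Nat.shiftLeft (nat_lit 0x3400001803805) (nat_lit 66)) (.one (nat_lit 0xd00000600e013a00000c01c128411)) (.one (nat_lit 0xd00000600e014a00000c01c12a411)))))) (.br (Nat.shiftLeft (nat_lit 0x400000c01803805) (nat_lit 66)) (.br (Nat.shiftLeft (nat_lit 0x1) (nat_lit 124)) (.br (Nat.shiftLeft (nat_lit 0x3800001803805) (nat_lit 66)) (.one (nat_lit 0xe00000600e013c00000c01c128411)) (.one (nat_lit 0xe00000600e014c00000c01c12a411))) (.br (Nat.shiftLeft (nat_lit 0x400000801803805) (nat_lit 66)) (.one (nat_lit 0x100000200600e013000400c03c426511)) (.br (Nat.shiftLeft (nat_lit 0x1000003) (nat_lit 100)) (.one (nat_lit 0x100000200600e014000400c03c428511)) (.one (nat_lit 0x100000300600e013000600c03c426511))))) (.br (Nat.shiftLeft (nat_lit 0x400001001803805) (nat_lit 66)) (.br (Nat.shiftLeft (nat_lit 0x400001) (nat_lit 102)) (.one (nat_lit 0x100000300600e014000600c03c428511)) (.one (nat_lit 0x100000400600e013000800c03c426511))) (.br (Nat.shiftLeft (nat_lit 0x1000005)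 (nat_lit 100)) (.one (nat_lit 0x100000400600e014000800c03c428511)) (.br (Nat.shiftLeft (nat_lit 0x400001401803805) (nat_lit 66)) (.one (nat_lit 0x100000500600e013000a00c03c426511)) (.one (nat_lit 0x100000500600e014000a00c03c428511))))))) (.br (Nat.shiftLeft (nat_lit 0x3000003) (nat_lit 100)) (.br (Nat.shiftLeft (nat_lit 0x800001001803805) (nat_lit 66)) (.br (Nat.shiftLeft (nat_lit 0x2000003) (nat_lit 100)) (.br (Nat.shiftLeft (nat_lit 0x800000801803805) (nat_lit 66)) (.one (nat_lit 0x200000200600e013000400c05c826511)) (.one (nat_lit 0x200000200600e014000400c05c828511))) (.br (Nat.shiftLeft (nat_lit 0x800000c01803805) (nat_lit 66)) (.one (nat_lit 0x200000300600e013000600c05c826511)) (.br (Nat.shiftLeft (nat_lit 0x800001) (nat_lit 102)) (.one (nat_lit 0x200000300600e014000600c05c828511)) (.one (nat_lit 0x200000400600e013000800c05c826511))))) (.br (Nat.shiftLeft (nat_lit 0x800001401803805) (nat_lit 66)) (.br (Nat.shiftLeft (nat_lit 0x2000005) (nat_lit 100)) (.one (nat_lit 0x200000400600e014000800c05c828511))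 (.one (nat_lit 0x200000500600e013000a00c05c826511))) (.br (Nat.shiftLeft (nat_lit 0x3) (nat_lit 124)) (.one (nat_lit 0x200000500600e014000a00c05c828511)) (.br (Nat.shiftLeft (nat_lit 0xc00000801803805) (nat_lit 66)) (.one (nat_lit 0x300000200600e013000400c07cc26511)) (.one (nat_lit 0x300000200600e014000400c07cc28511)))))) (.br (Nat.shiftLeft (nat_lit 0xc00001401803805) (nat_lit 66)) (.br (Nat.shiftLeft (nat_lit 0xc00001) (nat_lit 102)) (.br (Nat.shiftLeft (nat_lit 0xc00000c01803805) (nat_lit 66)) (.one (nat_lit 0x300000300600e013000600c07cc26511)) (.one (nat_lit 0x300000300600e014000600c07cc28511))) (.br (Nat.shiftLeft (nat_lit 0xc00001001803805) (nat_lit 66)) (.one (nat_lit 0x300000400600e013000800c07cc26511)) (.br (Nat.shiftLeft (nat_lit 0x3000005) (nat_lit 100)) (.one (nat_lit 0x300000400600e014000800c07cc28511)) (.one (nat_lit 0x300000500600e013000a00c07cc26511))))) (.br (Nat.shiftLeft (nat_lit 0x1000000801803805) (nat_lit 66)) (.br (Nat.shiftLeft (nat_lit 0x1) (nat_lit 126)) (.one (nat_lit 0x300000500600e014000a00c07cc28511))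 (.one (nat_lit 0x400000200600e013000400c09d026511))) (.br (Nat.shiftLeft (nat_lit 0x4000003) (nat_lit 100)) (.one (nat_lit 0x400000200600e014000400c09d028511)) (.br (Nat.shiftLeft (nat_lit 0x1000000c01803805) (nat_lit 66)) (.one (nat_lit 0x400000300600e013000600c09d026511)) (.one (nat_lit 0x400000300600e014000600c09d028511))))))))
def t238 : k238.all (jb2 57 fl b0) = true := by decide +kernel
noncomputable def k239 : KT := (.br (Nat.shiftLeft (nat_lit 0x1400000801803805) (nat_lit 66)) (.br (Nat.shiftLeft (nat_lit 0x4000005) (nat_lit 100)) (.br (Nat.shiftLeft (nat_lit 0x1000001001803805) (nat_lit 66)) (.one (nat_lit 0x400000400600e013000800c09d026511)) (.one (nat_lit 0x400000400600e014000800c09d028511))) (.br (Nat.shiftLeft (nat_lit 0x1000001401803805) (nat_lit 66)) (.one (nat_lit 0x400000500600e013000a00c09d026511)) (.br (Nat.shiftLeft (nat_lit 0x5) (nat_lit 124)) (.one (nat_lit 0x400000500600e014000a00c09d028511)) (.one (nat_lit 0x500000200600e013000400c0bd426511))))) (.br (Nat.shiftLeft (nat_lit 0x1400001)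 (nat_lit 102)) (.br (Nat.shiftLeft (nat_lit 0x5000003) (nat_lit 100)) (.one (nat_lit 0x500000200600e014000400c0bd428511)) (.br (Nat.shiftLeft (nat_lit 0x1400000c01803805) (nat_lit 66)) (.one (nat_lit 0x500000300600e013000600c0bd426511)) (.one (nat_lit 0x500000300600e014000600c0bd428511)))) (.br (Nat.shiftLeft (nat_lit 0x1400001001803805) (nat_lit 66)) (.one (nat_lit 0x500000400600e013000800c0bd426511)) (.br (Nat.shiftLeft (nat_lit 0x5000005) (nat_lit 100)) (.one (nat_lit 0x500000400600e014000800c0bd428511)) (.one (nat_lit 0x500000500600e013000a00c0bd426511))))))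
def t239 : k239.all (jb2 57 fl b0) = true := by decide +kernel
noncomputable def k240 : KT := (.br (Nat.shiftLeft (nat_lit 0x1800000c01803805) (nat_lit 66)) (.br (Nat.shiftLeft (nat_lit 0x1800000801803805) (nat_lit 66)) (.br (Nat.shiftLeft (nat_lit 0x3) (nat_lit 125)) (.one (nat_lit 0x500000500600e014000a00c0bd428511)) (.one (nat_lit 0x600000200600e013000400c0dd826511))) (.br (Nat.shiftLeft (nat_lit 0x6000003) (nat_lit 100)) (.one (nat_lit 0x600000200600e014000400c0dd828511)) (.one (nat_lit 0x600000300600e013000600c0dd826511)))) (.br (Nat.shiftLeft (nat_lit 0x1800001001803805) (nat_lit 66)) (.br (Nat.shiftLeft (nat_lit 0x1800001) (nat_lit 102)) (.one (nat_lit 0x600000300600e014000600c0dd828511)) (.one (nat_lit 0x600000400600e013000800c0dd826511))) (.br (Nat.shiftLeft (nat_lit 0x6000005) (nat_lit 100)) (.one (nat_lit 0x600000400600e014000800c0dd828511)) (.br (Nat.shiftLeft (nat_lit 0x1800001401803805) (nat_lit 66)) (.one (nat_lit 0x600000500600e013000a00c0dd826511)) (.one (nat_lit 0x600000500600e014000a00c0dd828511))))))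
def t240 : k240.all (jb2 57 fl b0) = true := by decide +kernel
noncomputable def k241 : KT := (.br (Nat.shiftLeft (nat_lit 0x1c00001001803805) (nat_lit 66)) (.br (Nat.shiftLeft (nat_lit 0x7000003) (nat_lit 100)) (.br (Nat.shiftLeft (nat_lit 0x1c00000801803805) (nat_lit 66)) (.one (nat_lit 0x700000200600e013000400c0fdc26511)) (.one (nat_lit 0x700000200600e014000400c0fdc28511))) (.br (Nat.shiftLeft (nat_lit 0x1c00000c01803805) (nat_lit 66)) (.one (nat_lit 0x700000300600e013000600c0fdc26511)) (.br (Nat.shiftLeft (nat_lit 0x1c00001) (nat_lit 102)) (.one (nat_lit 0x700000300600e014000600c0fdc28511)) (.one (nat_lit 0x700000400600e013000800c0fdc26511))))) (.br (Nat.shiftLeft (nat_lit 0x1) (nat_lit 127)) (.br (Nat.shiftLeft (nat_lit 0x7000005) (nat_lit 100)) (.one (nat_lit 0x700000400600e014000800c0fdc28511)) (.br (Nat.shiftLeft (nat_lit 0x1c00001401803805) (nat_lit 66)) (.one (nat_lit 0x700000500600e013000a00c0fdc26511)) (.one (nat_lit 0x700000500600e014000a00c0fdc28511)))) (.br (Nat.shiftLeft (nat_lit 0x2000000801803805)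 (nat_lit 66)) (.one (nat_lit 0x800000200600e013000400c11e026511)) (.br (Nat.shiftLeft (nat_lit 0x8000003) (nat_lit 100)) (.one (nat_lit 0x800000200600e014000400c11e028511)) (.one (nat_lit 0x800000300600e013000600c11e026511))))))
def t241 : k241.all (jb2 57 fl b0) = true := by decide +kernel
noncomputable def k242 : KT := (.br (Nat.shiftLeft (nat_lit 0x2800001) (nat_lit 102)) (.br (Nat.shiftLeft (nat_lit 0x2400000c01803805) (nat_lit 66)) (.br (Nat.shiftLeft (nat_lit 0x2000001401803805) (nat_lit 66)) (.br (Nat.shiftLeft (nat_lit 0x2000001001803805) (nat_lit 66)) (.br (Nat.shiftLeft (nat_lit 0x2000001) (nat_lit 102)) (.one (nat_lit 0x800000300600e014000600c11e028511)) (.one (nat_lit 0x800000400600e013000800c11e026511))) (.br (Nat.shiftLeft (nat_lit 0x8000005) (nat_lit 100)) (.one (nat_lit 0x800000400600e014000800c11e028511)) (.one (nat_lit 0x800000500600e013000a00c11e026511)))) (.br (Nat.shiftLeft (nat_lit 0x2400000801803805) (nat_lit 66)) (.br (Nat.shiftLeft (nat_lit 0x9) (nat_lit 124)) (.one (nat_lit 0x800000500600e014000a00c11e028511))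 (.one (nat_lit 0x900000200600e013000400c13e426511))) (.br (Nat.shiftLeft (nat_lit 0x9000003) (nat_lit 100)) (.one (nat_lit 0x900000200600e014000400c13e428511)) (.one (nat_lit 0x900000300600e013000600c13e426511))))) (.br (Nat.shiftLeft (nat_lit 0x2400001401803805) (nat_lit 66)) (.br (Nat.shiftLeft (nat_lit 0x2400001001803805) (nat_lit 66)) (.br (Nat.shiftLeft (nat_lit 0x2400001) (nat_lit 102)) (.one (nat_lit 0x900000300600e014000600c13e428511)) (.one (nat_lit 0x900000400600e013000800c13e426511))) (.br (Nat.shiftLeft (nat_lit 0x9000005) (nat_lit 100)) (.one (nat_lit 0x900000400600e014000800c13e428511)) (.one (nat_lit 0x900000500600e013000a00c13e426511)))) (.br (Nat.shiftLeft (nat_lit 0x2800000801803805) (nat_lit 66)) (.br (Nat.shiftLeft (nat_lit 0x5) (nat_lit 125)) (.one (nat_lit 0x900000500600e014000a00c13e428511)) (.one (nat_lit 0xa00000200600e013000400c15e826511))) (.br (Nat.shiftLeft (nat_lit 0xa000003) (nat_lit 100)) (.one (nat_lit 0xa00000200600e014000400c15e828511)) (.br (Nat.shiftLeft (nat_lit 0x2800000c01803805)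 (nat_lit 66)) (.one (nat_lit 0xa00000300600e013000600c15e826511)) (.one (nat_lit 0xa00000300600e014000600c15e828511))))))) (.br (Nat.shiftLeft (nat_lit 0x2c00001001803805) (nat_lit 66)) (.br (Nat.shiftLeft (nat_lit 0xb) (nat_lit 124)) (.br (Nat.shiftLeft (nat_lit 0xa000005) (nat_lit 100)) (.br (Nat.shiftLeft (nat_lit 0x2800001001803805) (nat_lit 66)) (.one (nat_lit 0xa00000400600e013000800c15e826511)) (.one (nat_lit 0xa00000400600e014000800c15e828511))) (.br (Nat.shiftLeft (nat_lit 0x2800001401803805) (nat_lit 66)) (.one (nat_lit 0xa00000500600e013000a00c15e826511)) (.one (nat_lit 0xa00000500600e014000a00c15e828511)))) (.br (Nat.shiftLeft (nat_lit 0xb000003) (nat_lit 100)) (.br (Nat.shiftLeft (nat_lit 0x2c00000801803805) (nat_lit 66)) (.one (nat_lit 0xb00000200600e013000400c17ec26511)) (.one (nat_lit 0xb00000200600e014000400c17ec28511))) (.br (Nat.shiftLeft (nat_lit 0x2c00000c01803805) (nat_lit 66)) (.one (nat_lit 0xb00000300600e013000600c17ec26511)) (.br (Nat.shiftLeft (nat_lit 0x2c00001) (nat_lit 102))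 (.one (nat_lit 0xb00000300600e014000600c17ec28511)) (.one (nat_lit 0xb00000400600e013000800c17ec26511)))))) (.br (Nat.shiftLeft (nat_lit 0x3000000801803805) (nat_lit 66)) (.br (Nat.shiftLeft (nat_lit 0x2c00001401803805) (nat_lit 66)) (.br (Nat.shiftLeft (nat_lit 0xb000005) (nat_lit 100)) (.one (nat_lit 0xb00000400600e014000800c17ec28511)) (.one (nat_lit 0xb00000500600e013000a00c17ec26511))) (.br (Nat.shiftLeft (nat_lit 0x3) (nat_lit 126)) (.one (nat_lit 0xb00000500600e014000a00c17ec28511)) (.one (nat_lit 0xc00000200600e013000400c19f026511)))) (.br (Nat.shiftLeft (nat_lit 0x3000000c01803805) (nat_lit 66)) (.br (Nat.shiftLeft (nat_lit 0xc000003) (nat_lit 100)) (.one (nat_lit 0xc00000200600e014000400c19f028511)) (.one (nat_lit 0xc00000300600e013000600c19f026511))) (.br (Nat.shiftLeft (nat_lit 0x3000001) (nat_lit 102)) (.one (nat_lit 0xc00000300600e014000600c19f028511)) (.br (Nat.shiftLeft (nat_lit 0x3000001001803805) (nat_lit 66)) (.one (nat_lit 0xc00000400600e013000800c19f026511)) (.one (nat_lit 0xc00000400600e014000800c19f028511))))))))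
def t242 : k242.all (jb2 57 fl b0) = true := by decide +kernel
noncomputable def k243 : KT := (.br (Nat.shiftLeft (nat_lit 0x3400001001803805) (nat_lit 66)) (.br (Nat.shiftLeft (nat_lit 0x3400000801803805) (nat_lit 66)) (.br (Nat.shiftLeft (nat_lit 0x3000001401803805) (nat_lit 66)) (.one (nat_lit 0xc00000500600e013000a00c19f026511)) (.br (Nat.shiftLeft (nat_lit 0xd) (nat_lit 124)) (.one (nat_lit 0xc00000500600e014000a00c19f028511)) (.one (nat_lit 0xd00000200600e013000400c1bf426511)))) (.br (Nat.shiftLeft (nat_lit 0x3400000c01803805) (nat_lit 66)) (.br (Nat.shiftLeft (nat_lit 0xd000003) (nat_lit 100)) (.one (nat_lit 0xd00000200600e014000400c1bf428511)) (.one (nat_lit 0xd00000300600e013000600c1bf426511))) (.br (Nat.shiftLeft (nat_lit 0x3400001) (nat_lit 102)) (.one (nat_lit 0xd00000300600e014000600c1bf428511)) (.one (nat_lit 0xd00000400600e013000800c1bf426511))))) (.br (Nat.shiftLeft (nat_lit 0x3800000801803805) (nat_lit 66)) (.br (Nat.shiftLeft (nat_lit 0xd000005) (nat_lit 100)) (.one (nat_lit 0xd00000400600e014000800c1bf428511))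 (.br (Nat.shiftLeft (nat_lit 0x7) (nat_lit 125)) (.one (nat_lit 0xd00000500600e013000a00c1bf426511)) (.one (nat_lit 0xe00000200600e013000400c1df826511)))) (.br (Nat.shiftLeft (nat_lit 0x3800000c01803805) (nat_lit 66)) (.br (Nat.shiftLeft (nat_lit 0xe000003) (nat_lit 100)) (.one (nat_lit 0xe00000200600e014000400c1df828511)) (.one (nat_lit 0xe00000300600e013000600c1df826511))) (.br (Nat.shiftLeft (nat_lit 0x3800001) (nat_lit 102)) (.one (nat_lit 0xe00000300600e014000600c1df828511)) (.one (nat_lit 0xe00000400600e013000800c1df826511))))))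
def t243 : k243.all (jb2 57 fl b0) = true := by decide +kernel
noncomputable def s13 : KT := (.br (nat_lit 0x200400600e014400800c01c028650) (.br (nat_lit 0x100300600e013200600c01c026650) (.br (nat_lit 0x100000600e014200000c01c028411) (.br (nat_lit 0x100600e013000200c01c026540) k224 k225) (.br (nat_lit 0x100200600e013200400c01c026650) k226 (.br (nat_lit 0x100200600e014200400c01c028650) k227 k228))) (.br (nat_lit 0x200000600e014400000c01c028411) (.br (nat_lit 0x100400600e013200800c01c026650) k229 k230) (.br (nat_lit 0x200300600e013400600c01c026650) k231 (.br (nat_lit 0x200300600e014400600c01c028650) k232 k233)))) (.br (nat_lit 0x400000300600e014000600c09d028511) (.br (nat_lit 0x300400600e014600800c01c028650) (.br (nat_lit 0x300000600e014600000c01c028411) k234 k235) (.br (nat_lit 0x400000600e014800000c01c028411) k236 (.br (nat_lit 0x800000600e014000000c01c12a411) k237 k238))) (.br (nat_lit 0x600000500600e014000a00c0dd828511) (.br (nat_lit 0x500000500600e013000a00c0bd426511) k239 k240) (.br (nat_lit 0x800000300600e013000600c11e026511)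 k241 (.br (nat_lit 0xc00000400600e014000800c19f028511) k242 k243)))))
noncomputable def u13 : KT := (.br (Nat.shiftLeft (nat_lit 0x1803805) (nat_lit 66)) (.one (nat_lit 0x600e013000000c01c026430)) (.one (nat_lit 0x600e014000000c01c028430)))
def w13 : u13.all (wj 57 s13) = true := by decide +kernel
def o13 : OkW 57 (jb2 57 fl) u13 := .lift s13 _ (.br _ _ _ (.br _ _ _ (.br _ _ _ (.br _ _ _ (.leaf b0 k224 t224) (.leaf b0 k225 t225)) (.br _ _ _ (.leaf b0 k226 t226) (.br _ _ _ (.leaf b0 k227 t227) (.leaf b0 k228 t228)))) (.br _ _ _ (.br _ _ _ (.leaf b0 k229 t229) (.leaf b0 k230 t230)) (.br _ _ _ (.leaf b0 k231 t231) (.br _ _ _ (.leaf b0 k232 t232) (.leaf b0 k233 t233))))) (.br _ _ _ (.br _ _ _ (.br _ _ _ (.leaf b0 k234 t234) (.leaf b0 k235 t235)) (.br _ _ _ (.leaf b0 k236 t236) (.br _ _ _ (.leaf b0 k237 t237) (.leaf b0 k238 t238)))) (.br _ _ _ (.br _ _ _ (.leaf b0 k239 t239) (.leaf b0 k240 t240)) (.br _ _ _ (.leaf b0 k241 t241) (.br _ _ _ (.leaf b0 k242 t242) (.leaf b0 k243 t243)))))) w13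
noncomputable def k244 : KT := (.br (Nat.shiftLeft (nat_lit 0x1) (nat_lit 100)) (.br (Nat.shiftLeft (nat_lit 0x300700b) (nat_lit 65)) (.one (nat_lit 0x600e015000000c01c02b400)) (.one (nat_lit 0x600e016000000c01c02d400))) (.br (Nat.shiftLeft (nat_lit 0x80300700b) (nat_lit 65)) (.one (nat_lit 0x100600e015000200c01c02a540)) (.one (nat_lit 0x100600e016000200c01c02c540))))
def t244 : k244.all (jb2 57 fl b0) = true := by decide +kernel
noncomputable def k245 : KT := (.one (nat_lit 0x200600e015000400c01c02a540))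
def t245 : k245.all (jb2 57 fl b0) = true := by decide +kernel
noncomputable def k246 : KT := (.br (Nat.shiftLeft (nat_lit 0x3) (nat_lit 100)) (.one (nat_lit 0x200600e016000400c01c02c540)) (.one (nat_lit 0x300600e015000600c01c02b500)))
def t246 : k246.all (jb2 57 fl b0) = true := by decide +kernel
noncomputable def k247 : KT := (.br (Nat.shiftLeft (nat_lit 0x1) (nat_lit 102)) (.one (nat_lit 0x300600e016000600c01c02c540)) (.one (nat_lit 0x400600e015000800c01c02b500)))
def t247 : k247.all (jb2 57 fl b0) = true := by decide +kernel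
noncomputable def k248 : KT := (.one (nat_lit 0x400600e016000800c01c02c540))
def t248 : k248.all (jb2 57 fl b0) = true := by decide +kernel
noncomputable def k249 : KT := (.one (nat_lit 0x500600e015000a00c01c02a540))
def t249 : k249.all (jb2 57 fl b0) = true := by decide +kernel
noncomputable def k250 : KT := (.br (Nat.shiftLeft (nat_lit 0x80000300700b) (nat_lit 65)) (.br (Nat.shiftLeft (nat_lit 0x1) (nat_lit 112)) (.one (nat_lit 0x500600e016000a00c01c02c540)) (.one (nat_lit 0x100000600e015200000c01c02a411))) (.br (Nat.shiftLeft (nat_lit 0x801) (nat_lit 101)) (.one (nat_lit 0x100000600e016200000c01c02c411)) (.one (nat_lit 0x100300600e015200600c01c02a650))))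
def t250 : k250.all (jb2 57 fl b0) = true := by decide +kernel
noncomputable def k251 : KT := (.br (Nat.shiftLeft (nat_lit 0x1001) (nat_lit 101)) (.br (Nat.shiftLeft (nat_lit 0x1) (nat_lit 113)) (.one (nat_lit 0x100400600e015200800c01c02a650)) (.br (Nat.shiftLeft (nat_lit 0x100000300700b) (nat_lit 65)) (.one (nat_lit 0x200000600e015400000c01c02a411)) (.one (nat_lit 0x200000600e016400000c01c02c411)))) (.br (Nat.shiftLeft (nat_lit 0x3) (nat_lit 112)) (.br (Nat.shiftLeft (nat_lit 0x801) (nat_lit 102)) (.one (nat_lit 0x200300600e015400600c01c02a650)) (.one (nat_lit 0x200400600e015400800c01c02a650))) (.br (Nat.shiftLeft (nat_lit 0x180000300700b) (nat_lit 65)) (.one (nat_lit 0x300000600e015600000c01c02a411)) (.one (nat_lit 0x300000600e016600000c01c02c411)))))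
def t251 : k251.all (jb2 57 fl b0) = true := by decide +kernel
noncomputable def k252 : KT := (.br (Nat.shiftLeft (nat_lit 0xb) (nat_lit 112)) (.br (Nat.shiftLeft (nat_lit 0x7) (nat_lit 112)) (.br (Nat.shiftLeft (nat_lit 0x5) (nat_lit 112)) (.br (Nat.shiftLeft (nat_lit 0x1) (nat_lit 114)) (.one (nat_lit 0x300400600e015600800c01c02a650)) (.br (Nat.shiftLeft (nat_lit 0x200000300700b) (nat_lit 65)) (.one (nat_lit 0x400000600e015800000c01c02a411)) (.one (nat_lit 0x400000600e016800000c01c02c411)))) (.br (Nat.shiftLeft (nat_lit 0x3) (nat_lit 113)) (.br (Nat.shiftLeft (nat_lit 0x280000300700b) (nat_lit 65)) (.one (nat_lit 0x500000600e015a00000c01c02a411)) (.one (nat_lit 0x500000600e016a00000c01c02c411))) (.br (Nat.shiftLeft (nat_lit 0x300000300700b) (nat_lit 65)) (.one (nat_lit 0x600000600e015c00000c01c02a411)) (.one (nat_lit 0x600000600e016c00000c01c02c411))))) (.br (Nat.shiftLeft (nat_lit 0x9) (nat_lit 112)) (.br (Nat.shiftLeft (nat_lit 0x1) (nat_lit 115)) (.br (Nat.shiftLeft (nat_lit 0x380000300700b) (nat_lit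 65)) (.one (nat_lit 0x700000600e015e00000c01c02a411)) (.one (nat_lit 0x700000600e016e00000c01c02c411))) (.br (Nat.shiftLeft (nat_lit 0x400000300700b) (nat_lit 65)) (.one (nat_lit 0x800000600e015000000c01c12c411)) (.one (nat_lit 0x800000600e016000000c01c12e411)))) (.br (Nat.shiftLeft (nat_lit 0x5) (nat_lit 113)) (.br (Nat.shiftLeft (nat_lit 0x480000300700b) (nat_lit 65)) (.one (nat_lit 0x900000600e015200000c01c12c411)) (.one (nat_lit 0x900000600e016200000c01c12e411))) (.br (Nat.shiftLeft (nat_lit 0x500000300700b) (nat_lit 65)) (.one (nat_lit 0xa00000600e015400000c01c12c411)) (.one (nat_lit 0xa00000600e016400000c01c12e411)))))) (.br (Nat.shiftLeft (nat_lit 0x700000300700b) (nat_lit 65)) (.br (Nat.shiftLeft (nat_lit 0x600000300700b) (nat_lit 65)) (.br (Nat.shiftLeft (nat_lit 0x580000300700b) (nat_lit 65)) (.one (nat_lit 0xb00000600e015600000c01c12c411)) (.br (Nat.shiftLeft (nat_lit 0x3) (nat_lit 114)) (.one (nat_lit 0xb00000600e016600000c01c12e411)) (.one (nat_lit 0xc00000600e015800000c01c12c411)))) (.br (Nat.shiftLeft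 (nat_lit 0x680000300700b) (nat_lit 65)) (.br (Nat.shiftLeft (nat_lit 0xd) (nat_lit 112)) (.one (nat_lit 0xc00000600e016800000c01c12e411)) (.one (nat_lit 0xd00000600e015a00000c01c12c411))) (.br (Nat.shiftLeft (nat_lit 0x7) (nat_lit 113)) (.one (nat_lit 0xd00000600e016a00000c01c12e411)) (.one (nat_lit 0xe00000600e015c00000c01c12c411))))) (.br (Nat.shiftLeft (nat_lit 0x800001) (nat_lit 102)) (.br (Nat.shiftLeft (nat_lit 0x400001) (nat_lit 102)) (.br (Nat.shiftLeft (nat_lit 0x1) (nat_lit 124)) (.one (nat_lit 0xe00000600e016c00000c01c12e411)) (.one (nat_lit 0x100000300600e015000600c03c42a511))) (.br (Nat.shiftLeft (nat_lit 0x1) (nat_lit 125)) (.one (nat_lit 0x100000400600e015000800c03c42a511)) (.one (nat_lit 0x200000300600e015000600c05c82a511)))) (.br (Nat.shiftLeft (nat_lit 0xc00001) (nat_lit 102)) (.br (Nat.shiftLeft (nat_lit 0x3) (nat_lit 124)) (.one (nat_lit 0x200000400600e015000800c05c82a511)) (.one (nat_lit 0x300000300600e015000600c07cc2a511))) (.br (Nat.shiftLeft (nat_lit 0x1) (nat_lit 126)) (.one (nat_lit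 0x300000400600e015000800c07cc2a511)) (.one (nat_lit 0x400000300600e015000600c09d02a511)))))))
def t252 : k252.all (jb2 57 fl b0) = true := by decide +kernel
noncomputable def k253 : KT := (.br (Nat.shiftLeft (nat_lit 0x9) (nat_lit 124)) (.br (Nat.shiftLeft (nat_lit 0x1800001) (nat_lit 102)) (.br (Nat.shiftLeft (nat_lit 0x1400001) (nat_lit 102)) (.br (Nat.shiftLeft (nat_lit 0x5) (nat_lit 124)) (.one (nat_lit 0x400000400600e015000800c09d02a511)) (.one (nat_lit 0x500000300600e015000600c0bd42a511))) (.br (Nat.shiftLeft (nat_lit 0x3) (nat_lit 125)) (.one (nat_lit 0x500000400600e015000800c0bd42a511)) (.one (nat_lit 0x600000300600e015000600c0dd82a511)))) (.br (Nat.shiftLeft (nat_lit 0x1c00001) (nat_lit 102)) (.br (Nat.shiftLeft (nat_lit 0x7) (nat_lit 124)) (.one (nat_lit 0x600000400600e015000800c0dd82a511)) (.one (nat_lit 0x700000300600e015000600c0fdc2a511))) (.br (Nat.shiftLeft (nat_lit 0x1) (nat_lit 127)) (.one (nat_lit 0x700000400600e015000800c0fdc2a511)) (.br (Nat.shiftLeft (nat_lit 0x2000001) (nat_lit 102))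 (.one (nat_lit 0x800000300600e015000600c11e02a511)) (.one (nat_lit 0x800000400600e015000800c11e02a511)))))) (.br (Nat.shiftLeft (nat_lit 0xb) (nat_lit 124)) (.br (Nat.shiftLeft (nat_lit 0x5) (nat_lit 125)) (.br (Nat.shiftLeft (nat_lit 0x2400001) (nat_lit 102)) (.one (nat_lit 0x900000300600e015000600c13e42a511)) (.one (nat_lit 0x900000400600e015000800c13e42a511))) (.br (Nat.shiftLeft (nat_lit 0x2800001) (nat_lit 102)) (.one (nat_lit 0xa00000300600e015000600c15e82a511)) (.one (nat_lit 0xa00000400600e015000800c15e82a511)))) (.br (Nat.shiftLeft (nat_lit 0x3) (nat_lit 126)) (.br (Nat.shiftLeft (nat_lit 0x2c00001) (nat_lit 102)) (.one (nat_lit 0xb00000300600e015000600c17ec2a511)) (.one (nat_lit 0xb00000400600e015000800c17ec2a511))) (.br (Nat.shiftLeft (nat_lit 0x3000001) (nat_lit 102)) (.one (nat_lit 0xc00000300600e015000600c19f02a511)) (.br (Nat.shiftLeft (nat_lit 0xd) (nat_lit 124)) (.one (nat_lit 0xc00000400600e015000800c19f02a511)) (.one (nat_lit 0xd00000300600e015000600c1bf42a511)))))))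
def t253 : k253.all (jb2 57 fl b0) = true := by decide +kernel
noncomputable def s14 : KT := (.br (nat_lit 0x400600e016000800c01c02c540) (.br (nat_lit 0x200600e015000400c01c02a540) (.br (nat_lit 0x100600e016000200c01c02c540) k244 k245) (.br (nat_lit 0x300600e015000600c01c02b500) k246 (.br (nat_lit 0x400600e015000800c01c02b500) k247 k248))) (.br (nat_lit 0x100300600e015200600c01c02a650) (.br (nat_lit 0x500600e015000a00c01c02a540) k249 k250) (.br (nat_lit 0x300000600e016600000c01c02c411) k251 (.br (nat_lit 0x400000300600e015000600c09d02a511) k252 k253))))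
noncomputable def u14 : KT := (.br (Nat.shiftLeft (nat_lit 0x300700b) (nat_lit 65)) (.one (nat_lit 0x600e015000000c01c02a430)) (.one (nat_lit 0x600e016000000c01c02c430)))
def w14 : u14.all (wj 57 s14) = true := by decide +kernel
def o14 : OkW 57 (jb2 57 fl) u14 := .lift s14 _ (.br _ _ _ (.br _ _ _ (.br _ _ _ (.leaf b0 k244 t244) (.leaf b0 k245 t245)) (.br _ _ _ (.leaf b0 k246 t246) (.br _ _ _ (.leaf b0 k247 t247) (.leaf b0 k248 t248)))) (.br _ _ _ (.br _ _ _ (.leaf b0 k249 t249) (.leaf b0 k250 t250)) (.br _ _ _ (.leaf b0 k251 t251) (.br _ _ _ (.leaf b0 k252 t252) (.leaf b0 k253 t253))))) w14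
noncomputable def k254 : KT := (.br (Nat.shiftLeft (nat_lit 0x5) (nat_lit 100)) (.br (Nat.shiftLeft (nat_lit 0x1) (nat_lit 101)) (.br (Nat.shiftLeft (nat_lit 0x1) (nat_lit 100)) (.one (nat_lit 0x600f010000000c01e021400)) (.one (nat_lit 0x100600f010000200c01e021500))) (.br (Nat.shiftLeft (nat_lit 0x3) (nat_lit 100)) (.one (nat_lit 0x200600f010000400c01e021500)) (.br (Nat.shiftLeft (nat_lit 0x1) (nat_lit 102)) (.one (nat_lit 0x300600f010000600c01e021500)) (.one (nat_lit 0x400600f010000800c01e021500))))) (.br (Nat.shiftLeft (nat_lit 0x801) (nat_lit 101)) (.br (Nat.shiftLeft (nat_lit 0x1) (nat_lit 112)) (.one (nat_lit 0x500600f010000a00c01e021500)) (.one (nat_lit 0x100000600f010200000c01e020411))) (.br (Nat.shiftLeft (nat_lit 0x1003) (nat_lit 100)) (.one (nat_lit 0x100200600f010200400c01e021600)) (.br (Nat.shiftLeft (nat_lit 0x401) (nat_lit 102)) (.one (nat_lit 0x100300600f010200600c01e021600)) (.one (nat_lit 0x100400600f010200800c01e020650))))))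
def t254 : k254.all (jb2 57 fl b0) = true := by decide +kernel
noncomputable def k255 : KT := (.br (Nat.shiftLeft (nat_lit 0x1001) (nat_lit 101)) (.br (Nat.shiftLeft (nat_lit 0x1) (nat_lit 113)) (.one (nat_lit 0x100500600f010200a00c01e020650)) (.one (nat_lit 0x200000600f010400000c01e020411))) (.br (Nat.shiftLeft (nat_lit 0x801) (nat_lit 102)) (.one (nat_lit 0x200300600f010400600c01e021600)) (.one (nat_lit 0x200400600f010400800c01e021600))))
def t255 : k255.all (jb2 57 fl b0) = true := by decide +kernel
noncomputable def k256 : KT := (.br (Nat.shiftLeft (nat_lit 0x3) (nat_lit 112)) (.one (nat_lit 0x200500600f010400a00c01e020650)) (.br (Nat.shiftLeft (nat_lit 0xc01) (nat_lit 102)) (.one (nat_lit 0x300000600f010600000c01e020411)) (.one (nat_lit 0x300400600f010600800c01e021600))))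
def t256 : k256.all (jb2 57 fl b0) = true := by decide +kernel
noncomputable def k257 : KT := (.br (Nat.shiftLeft (nat_lit 0x1) (nat_lit 114)) (.one (nat_lit 0x300500600f010600a00c01e020650)) (.one (nat_lit 0x400000600f010800000c01e020411)))
def t257 : k257.all (jb2 57 fl b0) = true := by decide +kernel
noncomputable def k258 : KT := (.br (Nat.shiftLeft (nat_lit 0x7) (nat_lit 112)) (.br (Nat.shiftLeft (nat_lit 0x5) (nat_lit 112)) (.one (nat_lit 0x400500600f010800a00c01e020650)) (.br (Nat.shiftLeft (nat_lit 0x3) (nat_lit 113)) (.one (nat_lit 0x500000600f010a00000c01e020411)) (.one (nat_lit 0x600000600f010c00000c01e020411)))) (.br (Nat.shiftLeft (nat_lit 0x1) (nat_lit 115)) (.one (nat_lit 0x700000600f010e00000c01e020411)) (.br (Nat.shiftLeft (nat_lit 0x9) (nat_lit 112)) (.one (nat_lit 0x800000600f010000000c01e122411)) (.one (nat_lit 0x900000600f010200000c01e122411)))))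
def t258 : k258.all (jb2 57 fl b0) = true := by decide +kernel
noncomputable def k259 : KT := (.br (Nat.shiftLeft (nat_lit 0x1) (nat_lit 124)) (.br (Nat.shiftLeft (nat_lit 0xd) (nat_lit 112)) (.br (Nat.shiftLeft (nat_lit 0xb) (nat_lit 112)) (.one (nat_lit 0xa00000600f010400000c01e122411)) (.br (Nat.shiftLeft (nat_lit 0x3) (nat_lit 114)) (.one (nat_lit 0xb00000600f010600000c01e122411)) (.one (nat_lit 0xc00000600f010800000c01e122411)))) (.br (Nat.shiftLeft (nat_lit 0x7) (nat_lit 113)) (.one (nat_lit 0xd00000600f010a00000c01e122411)) (.br (Nat.shiftLeft (nat_lit 0xf) (nat_lit 112)) (.one (nat_lit 0xe00000600f010c00000c01e122411)) (.one (nat_lit 0xf00000600f010e00000c01e122411))))) (.br (Nat.shiftLeft (nat_lit 0x400001) (nat_lit 102)) (.br (Nat.shiftLeft (nat_lit 0x800001) (nat_lit 101)) (.one (nat_lit 0x100000100600f010000200c03e420511)) (.br (Nat.shiftLeft (nat_lit 0x1000003) (nat_lit 100)) (.one (nat_lit 0x100000200600f010000400c03e420511)) (.one (nat_lit 0x100000300600f010000600c03e420511)))) (.br (Nat.shiftLeft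 (nat_lit 0x1000005) (nat_lit 100)) (.one (nat_lit 0x100000400600f010000800c03e420511)) (.br (Nat.shiftLeft (nat_lit 0x801) (nat_lit 113)) (.one (nat_lit 0x100000500600f010000a00c03e420511)) (.one (nat_lit 0x100200300600f010400600c03e420760))))))
def t259 : k259.all (jb2 57 fl b0) = true := by decide +kernel
noncomputable def k260 : KT := (.br (Nat.shiftLeft (nat_lit 0x1000001) (nat_lit 101)) (.br (Nat.shiftLeft (nat_lit 0x1003) (nat_lit 112)) (.one (nat_lit 0x100200400600f010400800c03e420760)) (.br (Nat.shiftLeft (nat_lit 0x1) (nat_lit 125)) (.one (nat_lit 0x100300400600f010600800c03e420760)) (.one (nat_lit 0x200000100600f010000200c05e820511)))) (.br (Nat.shiftLeft (nat_lit 0x800001) (nat_lit 102)) (.br (Nat.shiftLeft (nat_lit 0x2000003) (nat_lit 100)) (.one (nat_lit 0x200000200600f010000400c05e820511)) (.one (nat_lit 0x200000300600f010000600c05e820511))) (.br (Nat.shiftLeft (nat_lit 0x2000005) (nat_lit 100)) (.one (nat_lit 0x200000400600f010000800c05e820511)) (.one (nat_lit 0x200000500600f010000a00c05e820511)))))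
def t260 : k260.all (jb2 57 fl b0) = true := by decide +kernel
noncomputable def k261 : KT := (.br (Nat.shiftLeft (nat_lit 0x1) (nat_lit 126)) (.br (Nat.shiftLeft (nat_lit 0x3000003) (nat_lit 100)) (.br (Nat.shiftLeft (nat_lit 0x3) (nat_lit 124)) (.one (nat_lit 0x200300400600f010600800c05e820760)) (.br (Nat.shiftLeft (nat_lit 0x1800001) (nat_lit 101)) (.one (nat_lit 0x300000100600f010000200c07ec20511)) (.one (nat_lit 0x300000200600f010000400c07ec20511)))) (.br (Nat.shiftLeft (nat_lit 0xc00001) (nat_lit 102)) (.one (nat_lit 0x300000300600f010000600c07ec20511)) (.br (Nat.shiftLeft (nat_lit 0x3000005) (nat_lit 100)) (.one (nat_lit 0x300000400600f010000800c07ec20511)) (.one (nat_lit 0x300000500600f010000a00c07ec20511))))) (.br (Nat.shiftLeft (nat_lit 0x1000001) (nat_lit 102)) (.br (Nat.shiftLeft (nat_lit 0x2000001) (nat_lit 101)) (.one (nat_lit 0x400000100600f010000200c09f020511)) (.br (Nat.shiftLeft (nat_lit 0x4000003) (nat_lit 100)) (.one (nat_lit 0x400000200600f010000400c09f020511)) (.one (nat_lit 0x400000300600f010000600c09f020511))))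 (.br (Nat.shiftLeft (nat_lit 0x5) (nat_lit 124)) (.br (Nat.shiftLeft (nat_lit 0x4000005) (nat_lit 100)) (.one (nat_lit 0x400000400600f010000800c09f020511)) (.one (nat_lit 0x400000500600f010000a00c09f020511))) (.br (Nat.shiftLeft (nat_lit 0x2800001) (nat_lit 101)) (.one (nat_lit 0x500000100600f010000200c0bf420511)) (.one (nat_lit 0x500000200600f010000400c0bf420511))))))
def t261 : k261.all (jb2 57 fl b0) = true := by decide +kernel
noncomputable def k262 : KT := (.br (Nat.shiftLeft (nat_lit 0x3) (nat_lit 125)) (.br (Nat.shiftLeft (nat_lit 0x1400001) (nat_lit 102)) (.one (nat_lit 0x500000300600f010000600c0bf420511)) (.br (Nat.shiftLeft (nat_lit 0x5000005) (nat_lit 100)) (.one (nat_lit 0x500000400600f010000800c0bf420511)) (.one (nat_lit 0x500000500600f010000a00c0bf420511)))) (.br (Nat.shiftLeft (nat_lit 0x3000001) (nat_lit 101)) (.one (nat_lit 0x600000100600f010000200c0df820511)) (.br (Nat.shiftLeft (nat_lit 0x6000003) (nat_lit 100)) (.one (nat_lit 0x600000200600f010000400c0df820511)) (.one (nat_lit 0x600000300600f010000600c0df820511)))))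
def t262 : k262.all (jb2 57 fl b0) = true := by decide +kernel
noncomputable def k263 : KT := (.br (Nat.shiftLeft (nat_lit 0x3800001) (nat_lit 101)) (.br (Nat.shiftLeft (nat_lit 0x6000005) (nat_lit 100)) (.one (nat_lit 0x600000400600f010000800c0df820511)) (.br (Nat.shiftLeft (nat_lit 0x7) (nat_lit 124)) (.one (nat_lit 0x600000500600f010000a00c0df820511)) (.one (nat_lit 0x700000100600f010000200c0ffc20511)))) (.br (Nat.shiftLeft (nat_lit 0x7000003) (nat_lit 100)) (.one (nat_lit 0x700000200600f010000400c0ffc20511)) (.br (Nat.shiftLeft (nat_lit 0x1c00001) (nat_lit 102)) (.one (nat_lit 0x700000300600f010000600c0ffc20511)) (.one (nat_lit 0x700000400600f010000800c0ffc20511)))))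
def t263 : k263.all (jb2 57 fl b0) = true := by decide +kernel
noncomputable def k264 : KT := (.br (Nat.shiftLeft (nat_lit 0x8000003) (nat_lit 100)) (.br (Nat.shiftLeft (nat_lit 0x1) (nat_lit 127)) (.one (nat_lit 0x700000500600f010000a00c0ffc20511)) (.br (Nat.shiftLeft (nat_lit 0x4000001) (nat_lit 101)) (.one (nat_lit 0x800000100600f010000200c120020511)) (.one (nat_lit 0x800000200600f010000400c120020511)))) (.br (Nat.shiftLeft (nat_lit 0x8000005) (nat_lit 100)) (.br (Nat.shiftLeft (nat_lit 0x2000001) (nat_lit 102)) (.one (nat_lit 0x800000300600f010000600c120020511)) (.one (nat_lit 0x800000400600f010000800c120020511))) (.br (Nat.shiftLeft (nat_lit 0x9) (nat_lit 124)) (.one (nat_lit 0x800000500600f010000a00c120020511)) (.one (nat_lit 0x900000100600f010000200c140420511)))))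
def t264 : k264.all (jb2 57 fl b0) = true := by decide +kernel
noncomputable def k265 : KT := (.br (Nat.shiftLeft (nat_lit 0xa000003) (nat_lit 100)) (.br (Nat.shiftLeft (nat_lit 0x9000005) (nat_lit 100)) (.br (Nat.shiftLeft (nat_lit 0x9000003) (nat_lit 100)) (.one (nat_lit 0x900000200600f010000400c140420511)) (.br (Nat.shiftLeft (nat_lit 0x2400001) (nat_lit 102)) (.one (nat_lit 0x900000300600f010000600c140420511)) (.one (nat_lit 0x900000400600f010000800c140420511)))) (.br (Nat.shiftLeft (nat_lit 0x5) (nat_lit 125)) (.one (nat_lit 0x900000500600f010000a00c140420511)) (.br (Nat.shiftLeft (nat_lit 0x5000001) (nat_lit 101)) (.one (nat_lit 0xa00000100600f010000200c160820511)) (.one (nat_lit 0xa00000200600f010000400c160820511))))) (.br (Nat.shiftLeft (nat_lit 0xb) (nat_lit 124)) (.br (Nat.shiftLeft (nat_lit 0x2800001) (nat_lit 102)) (.one (nat_lit 0xa00000300600f010000600c160820511)) (.br (Nat.shiftLeft (nat_lit 0xa000005) (nat_lit 100)) (.one (nat_lit 0xa00000400600f010000800c160820511)) (.one (nat_lit 0xa00000500600f010000a00c160820511))))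 (.br (Nat.shiftLeft (nat_lit 0x5800001) (nat_lit 101)) (.one (nat_lit 0xb00000100600f010000200c180c20511)) (.br (Nat.shiftLeft (nat_lit 0xb000003) (nat_lit 100)) (.one (nat_lit 0xb00000200600f010000400c180c20511)) (.one (nat_lit 0xb00000300600f010000600c180c20511))))))
def t265 : k265.all (jb2 57 fl b0) = true := by decide +kernel
noncomputable def k266 : KT := (.br (Nat.shiftLeft (nat_lit 0x3c00001) (nat_lit 102)) (.br (Nat.shiftLeft (nat_lit 0x3400001) (nat_lit 102)) (.br (Nat.shiftLeft (nat_lit 0x3000001) (nat_lit 102)) (.br (Nat.shiftLeft (nat_lit 0x3) (nat_lit 126)) (.br (Nat.shiftLeft (nat_lit 0xb000005) (nat_lit 100)) (.one (nat_lit 0xb00000400600f010000800c180c20511)) (.one (nat_lit 0xb00000500600f010000a00c180c20511))) (.br (Nat.shiftLeft (nat_lit 0x6000001) (nat_lit 101)) (.one (nat_lit 0xc00000100600f010000200c1a1020511)) (.br (Nat.shiftLeft (nat_lit 0xc000003) (nat_lit 100)) (.one (nat_lit 0xc00000200600f010000400c1a1020511)) (.one (nat_lit 0xc00000300600f010000600c1a1020511))))) (.br (Nat.shiftLeft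 (nat_lit 0xd) (nat_lit 124)) (.br (Nat.shiftLeft (nat_lit 0xc000005) (nat_lit 100)) (.one (nat_lit 0xc00000400600f010000800c1a1020511)) (.one (nat_lit 0xc00000500600f010000a00c1a1020511))) (.br (Nat.shiftLeft (nat_lit 0x6800001) (nat_lit 101)) (.one (nat_lit 0xd00000100600f010000200c1c1420511)) (.br (Nat.shiftLeft (nat_lit 0xd000003) (nat_lit 100)) (.one (nat_lit 0xd00000200600f010000400c1c1420511)) (.one (nat_lit 0xd00000300600f010000600c1c1420511)))))) (.br (Nat.shiftLeft (nat_lit 0x3800001) (nat_lit 102)) (.br (Nat.shiftLeft (nat_lit 0x7) (nat_lit 125)) (.br (Nat.shiftLeft (nat_lit 0xd000005) (nat_lit 100)) (.one (nat_lit 0xd00000400600f010000800c1c1420511)) (.one (nat_lit 0xd00000500600f010000a00c1c1420511))) (.br (Nat.shiftLeft (nat_lit 0x7000001) (nat_lit 101)) (.one (nat_lit 0xe00000100600f010000200c1e1820511)) (.br (Nat.shiftLeft (nat_lit 0xe000003) (nat_lit 100)) (.one (nat_lit 0xe00000200600f010000400c1e1820511)) (.one (nat_lit 0xe00000300600f010000600c1e1820511))))) (.br (Nat.shiftLeft (nat_lit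 0xf) (nat_lit 124)) (.br (Nat.shiftLeft (nat_lit 0xe000005) (nat_lit 100)) (.one (nat_lit 0xe00000400600f010000800c1e1820511)) (.one (nat_lit 0xe00000500600f010000a00c1e1820511))) (.br (Nat.shiftLeft (nat_lit 0x7800001) (nat_lit 101)) (.one (nat_lit 0xf00000100600f010000200c201c20511)) (.br (Nat.shiftLeft (nat_lit 0xf000003) (nat_lit 100)) (.one (nat_lit 0xf00000200600f010000400c201c20511)) (.one (nat_lit 0xf00000300600f010000600c201c20511))))))) (.br (Nat.shiftLeft (nat_lit 0x800000801) (nat_lit 102)) (.br (Nat.shiftLeft (nat_lit 0x400000801) (nat_lit 102)) (.br (Nat.shiftLeft (nat_lit 0x1) (nat_lit 136)) (.br (Nat.shiftLeft (nat_lit 0xf000005) (nat_lit 100)) (.one (nat_lit 0xf00000400600f010000800c201c20511)) (.one (nat_lit 0xf00000500600f010000a00c201c20511))) (.br (Nat.shiftLeft (nat_lit 0x1000001003) (nat_lit 100)) (.one (nat_lit 0x100000100200600f010200402c41e020611)) (.br (Nat.shiftLeft (nat_lit 0x800001) (nat_lit 113)) (.one (nat_lit 0x100000100300600f010200602c41e020611)) (.one (nat_lit 0x100000200300600f010400602c41e020611)))))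 (.br (Nat.shiftLeft (nat_lit 0x1) (nat_lit 137)) (.br (Nat.shiftLeft (nat_lit 0x1000003) (nat_lit 112)) (.one (nat_lit 0x100000200400600f010400802c41e020611)) (.one (nat_lit 0x100000300400600f010600802c41e020611))) (.br (Nat.shiftLeft (nat_lit 0x2000001003) (nat_lit 100)) (.one (nat_lit 0x200000100200600f010200404c81e020611)) (.br (Nat.shiftLeft (nat_lit 0x1000001) (nat_lit 113)) (.one (nat_lit 0x200000100300600f010200604c81e020611)) (.one (nat_lit 0x200000200300600f010400604c81e020611)))))) (.br (Nat.shiftLeft (nat_lit 0xc00000801) (nat_lit 102)) (.br (Nat.shiftLeft (nat_lit 0x3) (nat_lit 136)) (.br (Nat.shiftLeft (nat_lit 0x2000003) (nat_lit 112)) (.one (nat_lit 0x200000200400600f010400804c81e020611)) (.one (nat_lit 0x200000300400600f010600804c81e020611))) (.br (Nat.shiftLeft (nat_lit 0x3000001003) (nat_lit 100)) (.one (nat_lit 0x300000100200600f010200406cc1e020611)) (.br (Nat.shiftLeft (nat_lit 0x1800001) (nat_lit 113)) (.one (nat_lit 0x300000100300600f010200606cc1e020611)) (.one (nat_lit 0x300000200300600f010400606cc1e020611)))))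 (.br (Nat.shiftLeft (nat_lit 0x1) (nat_lit 138)) (.br (Nat.shiftLeft (nat_lit 0x3000003) (nat_lit 112)) (.one (nat_lit 0x300000200400600f010400806cc1e020611)) (.one (nat_lit 0x300000300400600f010600806cc1e020611))) (.br (Nat.shiftLeft (nat_lit 0x4000001003) (nat_lit 100)) (.one (nat_lit 0x400000100200600f010200408d01e020611)) (.br (Nat.shiftLeft (nat_lit 0x2000001) (nat_lit 113)) (.one (nat_lit 0x400000100300600f010200608d01e020611)) (.one (nat_lit 0x400000200300600f010400608d01e020611))))))))
def t266 : k266.all (jb2 57 fl b0) = true := by decide +kernel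
noncomputable def k267 : KT := (.br (Nat.shiftLeft (nat_lit 0x5000001003) (nat_lit 100)) (.br (Nat.shiftLeft (nat_lit 0x4000003) (nat_lit 112)) (.one (nat_lit 0x400000200400600f010400808d01e020611)) (.br (Nat.shiftLeft (nat_lit 0x5) (nat_lit 136)) (.one (nat_lit 0x400000300400600f010600808d01e020611)) (.one (nat_lit 0x500000100200600f01020040ad41e020611)))) (.br (Nat.shiftLeft (nat_lit 0x1400000801) (nat_lit 102)) (.br (Nat.shiftLeft (nat_lit 0x2800001) (nat_lit 113)) (.one (nat_lit 0x500000100300600f01020060ad41e020611)) (.one (nat_lit 0x500000200300600f01040060ad41e020611))) (.br (Nat.shiftLeft (nat_lit 0x5000003) (nat_lit 112)) (.one (nat_lit 0x500000200400600f01040080ad41e020611)) (.one (nat_lit 0x500000300400600f01060080ad41e020611)))))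
def t267 : k267.all (jb2 57 fl b0) = true := by decide +kernel
noncomputable def k268 : KT := (.br (Nat.shiftLeft (nat_lit 0x3000001) (nat_lit 113)) (.br (Nat.shiftLeft (nat_lit 0x6000001003) (nat_lit 100)) (.one (nat_lit 0x600000100200600f01020040cd81e020611)) (.one (nat_lit 0x600000100300600f01020060cd81e020611))) (.br (Nat.shiftLeft (nat_lit 0x1800000801) (nat_lit 102)) (.one (nat_lit 0x600000200300600f01040060cd81e020611)) (.br (Nat.shiftLeft (nat_lit 0x6000003) (nat_lit 112)) (.one (nat_lit 0x600000200400600f01040080cd81e020611)) (.one (nat_lit 0x600000300400600f01060080cd81e020611)))))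
def t268 : k268.all (jb2 57 fl b0) = true := by decide +kernel
noncomputable def k269 : KT := (.br (Nat.shiftLeft (nat_lit 0x1c00000801) (nat_lit 102)) (.br (Nat.shiftLeft (nat_lit 0x7000001003) (nat_lit 100)) (.one (nat_lit 0x700000100200600f01020040edc1e020611)) (.br (Nat.shiftLeft (nat_lit 0x3800001) (nat_lit 113)) (.one (nat_lit 0x700000100300600f01020060edc1e020611)) (.one (nat_lit 0x700000200300600f01040060edc1e020611)))) (.br (Nat.shiftLeft (nat_lit 0x1) (nat_lit 139)) (.br (Nat.shiftLeft (nat_lit 0x7000003) (nat_lit 112)) (.one (nat_lit 0x700000200400600f01040080edc1e020611)) (.one (nat_lit 0x700000300400600f01060080edc1e020611))) (.br (Nat.shiftLeft (nat_lit 0x8000001003) (nat_lit 100)) (.one (nat_lit 0x800000100200600f010200410e01e020611)) (.one (nat_lit 0x800000100300600f010200610e01e020611)))))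
def t269 : k269.all (jb2 57 fl b0) = true := by decide +kernel
noncomputable def k270 : KT := (.br (Nat.shiftLeft (nat_lit 0xa000003) (nat_lit 112)) (.br (Nat.shiftLeft (nat_lit 0x2400000801) (nat_lit 102)) (.br (Nat.shiftLeft (nat_lit 0x9) (nat_lit 136)) (.br (Nat.shiftLeft (nat_lit 0x2000000801) (nat_lit 102)) (.one (nat_lit 0x800000200300600f010400610e01e020611)) (.br (Nat.shiftLeft (nat_lit 0x8000003) (nat_lit 112)) (.one (nat_lit 0x800000200400600f010400810e01e020611)) (.one (nat_lit 0x800000300400600f010600810e01e020611)))) (.br (Nat.shiftLeft (nat_lit 0x9000001003) (nat_lit 100)) (.one (nat_lit 0x900000100200600f010200412e41e020611)) (.br (Nat.shiftLeft (nat_lit 0x4800001) (nat_lit 113)) (.one (nat_lit 0x900000100300600f010200612e41e020611)) (.one (nat_lit 0x900000200300600f010400612e41e020611))))) (.br (Nat.shiftLeft (nat_lit 0xa000001003) (nat_lit 100)) (.br (Nat.shiftLeft (nat_lit 0x9000003) (nat_lit 112)) (.one (nat_lit 0x900000200400600f010400812e41e020611)) (.br (Nat.shiftLeft (nat_lit 0x5)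 (nat_lit 137)) (.one (nat_lit 0x900000300400600f010600812e41e020611)) (.one (nat_lit 0xa00000100200600f010200414e81e020611)))) (.br (Nat.shiftLeft (nat_lit 0x5000001) (nat_lit 113)) (.one (nat_lit 0xa00000100300600f010200614e81e020611)) (.br (Nat.shiftLeft (nat_lit 0x2800000801) (nat_lit 102)) (.one (nat_lit 0xa00000200300600f010400614e81e020611)) (.one (nat_lit 0xa00000200400600f010400814e81e020611)))))) (.br (Nat.shiftLeft (nat_lit 0x3) (nat_lit 138)) (.br (Nat.shiftLeft (nat_lit 0x5800001) (nat_lit 113)) (.br (Nat.shiftLeft (nat_lit 0xb) (nat_lit 136)) (.one (nat_lit 0xa00000300400600f010600814e81e020611)) (.br (Nat.shiftLeft (nat_lit 0xb000001003) (nat_lit 100)) (.one (nat_lit 0xb00000100200600f010200416ec1e020611)) (.one (nat_lit 0xb00000100300600f010200616ec1e020611)))) (.br (Nat.shiftLeft (nat_lit 0x2c00000801) (nat_lit 102)) (.one (nat_lit 0xb00000200300600f010400616ec1e020611)) (.br (Nat.shiftLeft (nat_lit 0xb000003) (nat_lit 112)) (.one (nat_lit 0xb00000200400600f010400816ec1e020611)) (.one (nat_lit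 0xb00000300400600f010600816ec1e020611))))) (.br (Nat.shiftLeft (nat_lit 0x3000000801) (nat_lit 102)) (.br (Nat.shiftLeft (nat_lit 0xc000001003) (nat_lit 100)) (.one (nat_lit 0xc00000100200600f010200418f01e020611)) (.br (Nat.shiftLeft (nat_lit 0x6000001) (nat_lit 113)) (.one (nat_lit 0xc00000100300600f010200618f01e020611)) (.one (nat_lit 0xc00000200300600f010400618f01e020611)))) (.br (Nat.shiftLeft (nat_lit 0xd) (nat_lit 136)) (.br (Nat.shiftLeft (nat_lit 0xc000003) (nat_lit 112)) (.one (nat_lit 0xc00000200400600f010400818f01e020611)) (.one (nat_lit 0xc00000300400600f010600818f01e020611))) (.br (Nat.shiftLeft (nat_lit 0xd000001003) (nat_lit 100)) (.one (nat_lit 0xd00000100200600f01020041af41e020611)) (.one (nat_lit 0xd00000100300600f01020061af41e020611)))))))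
def t270 : k270.all (jb2 57 fl b0) = true := by decide +kernel
noncomputable def k271 : KT := (.br (Nat.shiftLeft (nat_lit 0x7000001) (nat_lit 113)) (.br (Nat.shiftLeft (nat_lit 0xd000003) (nat_lit 112)) (.br (Nat.shiftLeft (nat_lit 0x3400000801) (nat_lit 102)) (.one (nat_lit 0xd00000200300600f01040061af41e020611)) (.one (nat_lit 0xd00000200400600f01040081af41e020611))) (.br (Nat.shiftLeft (nat_lit 0x7) (nat_lit 137)) (.one (nat_lit 0xd00000300400600f01060081af41e020611)) (.br (Nat.shiftLeft (nat_lit 0xe000001003) (nat_lit 100)) (.one (nat_lit 0xe00000100200600f01020041cf81e020611)) (.one (nat_lit 0xe00000100300600f01020061cf81e020611))))) (.br (Nat.shiftLeft (nat_lit 0xf) (nat_lit 136)) (.br (Nat.shiftLeft (nat_lit 0x3800000801) (nat_lit 102)) (.one (nat_lit 0xe00000200300600f01040061cf81e020611)) (.one (nat_lit 0xe00000200400600f01040081cf81e020611))) (.br (Nat.shiftLeft (nat_lit 0xf000001003) (nat_lit 100)) (.one (nat_lit 0xf00000100200600f01020041efc1e020611)) (.br (Nat.shiftLeft (nat_lit 0x7800001)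 (nat_lit 113)) (.one (nat_lit 0xf00000100300600f01020061efc1e020611)) (.one (nat_lit 0xf00000200300600f01040061efc1e020611))))))
def t271 : k271.all (jb2 57 fl b0) = true := by decide +kernel
noncomputable def s15 : KT := (.br (nat_lit 0x600000300600f010000600c0df820511) (.br (nat_lit 0x400000600f010800000c01e020411) (.br (nat_lit 0x200400600f010400800c01e021600) (.br (nat_lit 0x100400600f010200800c01e020650) k254 k255) (.br (nat_lit 0x300400600f010600800c01e021600) k256 k257)) (.br (nat_lit 0x100200300600f010400600c03e420760) (.br (nat_lit 0x900000600f010200000c01e122411) k258 k259) (.br (nat_lit 0x200000500600f010000a00c05e820511) k260 (.br (nat_lit 0x500000200600f010000400c0bf420511) k261 k262)))) (.br (nat_lit 0x400000200300600f010400608d01e020611) (.br (nat_lit 0x900000100600f010000200c140420511) (.br (nat_lit 0x700000400600f010000800c0ffc20511) k263 k264) (.br (nat_lit 0xb00000300600f010000600c180c20511) k265 k266)) (.br (nat_lit 0x600000300400600f01060080cd81e020611) (.br (nat_lit 0x500000300400600f01060080ad41e020611)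 k267 k268) (.br (nat_lit 0x800000100300600f010200610e01e020611) k269 (.br (nat_lit 0xd00000100300600f01020061af41e020611) k270 k271)))))
noncomputable def u15 : KT := (.one (nat_lit 0x600f010000000c01e020430))
def w15 : u15.all (wj 57 s15) = true := by decide +kernel
def o15 : OkW 57 (jb2 57 fl) u15 := .lift s15 _ (.br _ _ _ (.br _ _ _ (.br _ _ _ (.br _ _ _ (.leaf b0 k254 t254) (.leaf b0 k255 t255)) (.br _ _ _ (.leaf b0 k256 t256) (.leaf b0 k257 t257))) (.br _ _ _ (.br _ _ _ (.leaf b0 k258 t258) (.leaf b0 k259 t259)) (.br _ _ _ (.leaf b0 k260 t260) (.br _ _ _ (.leaf b0 k261 t261) (.leaf b0 k262 t262))))) (.br _ _ _ (.br _ _ _ (.br _ _ _ (.leaf b0 k263 t263) (.leaf b0 k264 t264)) (.br _ _ _ (.leaf b0 k265 t265) (.leaf b0 k266 t266))) (.br _ _ _ (.br _ _ _ (.leaf b0 k267 t267) (.leaf b0 k268 t268)) (.br _ _ _ (.leaf b0 k269 t269) (.br _ _ _ (.leaf b0 k270 t270) (.leaf b0 k271 t271)))))) w15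
noncomputable def k272 : KT := (.br (Nat.shiftLeft (nat_lit 0x3) (nat_lit 100)) (.br (Nat.shiftLeft (nat_lit 0x1) (nat_lit 100)) (.one (nat_lit 0x600f011000000c01e023400)) (.br (Nat.shiftLeft (nat_lit 0x1) (nat_lit 101)) (.one (nat_lit 0x100600f011000200c01e022540)) (.one (nat_lit 0x200600f011000400c01e023500)))) (.br (Nat.shiftLeft (nat_lit 0x5) (nat_lit 100)) (.br (Nat.shiftLeft (nat_lit 0x1) (nat_lit 102)) (.one (nat_lit 0x300600f011000600c01e023500)) (.one (nat_lit 0x400600f011000800c01e023500))) (.br (Nat.shiftLeft (nat_lit 0x1) (nat_lit 112)) (.one (nat_lit 0x500600f011000a00c01e023500)) (.one (nat_lit 0x100000600f011200000c01e022411)))))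
def t272 : k272.all (jb2 57 fl b0) = true := by decide +kernel
noncomputable def k273 : KT := (.one (nat_lit 0x100200600f011200400c01e022650))
def t273 : k273.all (jb2 57 fl b0) = true := by decide +kernel
noncomputable def k274 : KT := (.one (nat_lit 0x100300600f011200600c01e022650))
def t274 : k274.all (jb2 57 fl b0) = true := by decide +kernel
noncomputable def k275 : KT := (.one (nat_lit 0x100400600f011200800c01e022650))
def t275 : k275.all (jb2 57 fl b0) = true := by decide +kernel
noncomputable def k276 : KT := (.br (Nat.shiftLeft (nat_lit 0x1) (nat_lit 113)) (.one (nat_lit 0x100500600f011200a00c01e022650)) (.br (Nat.shiftLeft (nat_lit 0x1001) (nat_lit 101)) (.one (nat_lit 0x200000600f011400000c01e022411)) (.one (nat_lit 0x200300600f011400600c01e023600))))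
def t276 : k276.all (jb2 57 fl b0) = true := by decide +kernel
noncomputable def k277 : KT := (.one (nat_lit 0x200400600f011400800c01e022650))
def t277 : k277.all (jb2 57 fl b0) = true := by decide +kernel
noncomputable def k278 : KT := (.br (Nat.shiftLeft (nat_lit 0x3) (nat_lit 112)) (.one (nat_lit 0x200500600f011400a00c01e022650)) (.one (nat_lit 0x300000600f011600000c01e022411)))
def t278 : k278.all (jb2 57 fl b0) = true := by decide +kernel
noncomputable def k279 : KT := (.one (nat_lit 0x300400600f011600800c01e022650))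
def t279 : k279.all (jb2 57 fl b0) = true := by decide +kernel
noncomputable def k280 : KT := (.br (Nat.shiftLeft (nat_lit 0x1) (nat_lit 114)) (.one (nat_lit 0x300500600f011600a00c01e022650)) (.one (nat_lit 0x400000600f011800000c01e022411)))
def t280 : k280.all (jb2 57 fl b0) = true := by decide +kernel
noncomputable def k281 : KT := (.br (Nat.shiftLeft (nat_lit 0x3) (nat_lit 114)) (.br (Nat.shiftLeft (nat_lit 0x1) (nat_lit 115)) (.br (Nat.shiftLeft (nat_lit 0x3) (nat_lit 113)) (.br (Nat.shiftLeft (nat_lit 0x5) (nat_lit 112)) (.one (nat_lit 0x400500600f011800a00c01e022650)) (.one (nat_lit 0x500000600f011a00000c01e022411))) (.br (Nat.shiftLeft (nat_lit 0x7) (nat_lit 112)) (.one (nat_lit 0x600000600f011c00000c01e022411)) (.one (nat_lit 0x700000600f011e00000c01e022411)))) (.br (Nat.shiftLeft (nat_lit 0x5) (nat_lit 113)) (.br (Nat.shiftLeft (nat_lit 0x9) (nat_lit 112)) (.one (nat_lit 0x800000600f011000000c01e124411)) (.one (nat_lit 0x900000600f011200000c01e124411))) (.br (Nat.shiftLeft (nat_lit 0xb) (nat_lit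 112)) (.one (nat_lit 0xa00000600f011400000c01e124411)) (.one (nat_lit 0xb00000600f011600000c01e124411))))) (.br (Nat.shiftLeft (nat_lit 0x1) (nat_lit 124)) (.br (Nat.shiftLeft (nat_lit 0x7) (nat_lit 113)) (.br (Nat.shiftLeft (nat_lit 0xd) (nat_lit 112)) (.one (nat_lit 0xc00000600f011800000c01e124411)) (.one (nat_lit 0xd00000600f011a00000c01e124411))) (.br (Nat.shiftLeft (nat_lit 0xf) (nat_lit 112)) (.one (nat_lit 0xe00000600f011c00000c01e124411)) (.one (nat_lit 0xf00000600f011e00000c01e124411)))) (.br (Nat.shiftLeft (nat_lit 0x400001) (nat_lit 102)) (.br (Nat.shiftLeft (nat_lit 0x1000003) (nat_lit 100)) (.one (nat_lit 0x100000200600f011000400c03e422511)) (.one (nat_lit 0x100000300600f011000600c03e422511))) (.br (Nat.shiftLeft (nat_lit 0x1000005) (nat_lit 100)) (.one (nat_lit 0x100000400600f011000800c03e422511)) (.one (nat_lit 0x100000500600f011000a00c03e422511))))))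
def t281 : k281.all (jb2 57 fl b0) = true := by decide +kernel
noncomputable def k282 : KT := (.br (Nat.shiftLeft (nat_lit 0xc00001) (nat_lit 102)) (.br (Nat.shiftLeft (nat_lit 0x800001) (nat_lit 102)) (.br (Nat.shiftLeft (nat_lit 0x1) (nat_lit 125)) (.one (nat_lit 0x100200300600f011400600c03e422760)) (.br (Nat.shiftLeft (nat_lit 0x2000003) (nat_lit 100)) (.one (nat_lit 0x200000200600f011000400c05e822511)) (.one (nat_lit 0x200000300600f011000600c05e822511)))) (.br (Nat.shiftLeft (nat_lit 0x3) (nat_lit 124)) (.br (Nat.shiftLeft (nat_lit 0x2000005) (nat_lit 100)) (.one (nat_lit 0x200000400600f011000800c05e822511)) (.one (nat_lit 0x200000500600f011000a00c05e822511))) (.br (Nat.shiftLeft (nat_lit 0x3000003) (nat_lit 100)) (.one (nat_lit 0x300000200600f011000400c07ec22511)) (.one (nat_lit 0x300000300600f011000600c07ec22511))))) (.br (Nat.shiftLeft (nat_lit 0x4000003) (nat_lit 100)) (.br (Nat.shiftLeft (nat_lit 0x3000005) (nat_lit 100)) (.one (nat_lit 0x300000400600f011000800c07ec22511)) (.br (Nat.shiftLeft (nat_lit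 0x1) (nat_lit 126)) (.one (nat_lit 0x300000500600f011000a00c07ec22511)) (.one (nat_lit 0x400000200600f011000400c09f022511)))) (.br (Nat.shiftLeft (nat_lit 0x4000005) (nat_lit 100)) (.br (Nat.shiftLeft (nat_lit 0x1000001) (nat_lit 102)) (.one (nat_lit 0x400000300600f011000600c09f022511)) (.one (nat_lit 0x400000400600f011000800c09f022511))) (.br (Nat.shiftLeft (nat_lit 0x5) (nat_lit 124)) (.one (nat_lit 0x400000500600f011000a00c09f022511)) (.one (nat_lit 0x500000200600f011000400c0bf422511))))))
def t282 : k282.all (jb2 57 fl b0) = true := by decide +kernel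
noncomputable def k283 : KT := (.br (Nat.shiftLeft (nat_lit 0x3) (nat_lit 125)) (.br (Nat.shiftLeft (nat_lit 0x1400001) (nat_lit 102)) (.one (nat_lit 0x500000300600f011000600c0bf422511)) (.br (Nat.shiftLeft (nat_lit 0x5000005) (nat_lit 100)) (.one (nat_lit 0x500000400600f011000800c0bf422511)) (.one (nat_lit 0x500000500600f011000a00c0bf422511)))) (.br (Nat.shiftLeft (nat_lit 0x1800001) (nat_lit 102)) (.br (Nat.shiftLeft (nat_lit 0x6000003) (nat_lit 100)) (.one (nat_lit 0x600000200600f011000400c0df822511)) (.one (nat_lit 0x600000300600f011000600c0df822511))) (.br (Nat.shiftLeft (nat_lit 0x6000005) (nat_lit 100)) (.one (nat_lit 0x600000400600f011000800c0df822511)) (.one (nat_lit 0x600000500600f011000a00c0df822511)))))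
def t283 : k283.all (jb2 57 fl b0) = true := by decide +kernel
noncomputable def k284 : KT := (.br (Nat.shiftLeft (nat_lit 0x1) (nat_lit 127)) (.br (Nat.shiftLeft (nat_lit 0x1c00001) (nat_lit 102)) (.br (Nat.shiftLeft (nat_lit 0x7000003) (nat_lit 100)) (.one (nat_lit 0x700000200600f011000400c0ffc22511)) (.one (nat_lit 0x700000300600f011000600c0ffc22511))) (.br (Nat.shiftLeft (nat_lit 0x7000005) (nat_lit 100)) (.one (nat_lit 0x700000400600f011000800c0ffc22511)) (.one (nat_lit 0x700000500600f011000a00c0ffc22511)))) (.br (Nat.shiftLeft (nat_lit 0x2000001) (nat_lit 102)) (.br (Nat.shiftLeft (nat_lit 0x8000003) (nat_lit 100)) (.one (nat_lit 0x800000200600f011000400c120022511)) (.one (nat_lit 0x800000300600f011000600c120022511))) (.br (Nat.shiftLeft (nat_lit 0x8000005) (nat_lit 100)) (.one (nat_lit 0x800000400600f011000800c120022511)) (.one (nat_lit 0x800000500600f011000a00c120022511)))))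
def t284 : k284.all (jb2 57 fl b0) = true := by decide +kernel
noncomputable def k285 : KT := (.br (Nat.shiftLeft (nat_lit 0xc000005) (nat_lit 100)) (.br (Nat.shiftLeft (nat_lit 0xa000005) (nat_lit 100)) (.br (Nat.shiftLeft (nat_lit 0x9000005) (nat_lit 100)) (.br (Nat.shiftLeft (nat_lit 0x9000003) (nat_lit 100)) (.one (nat_lit 0x900000200600f011000400c140422511)) (.br (Nat.shiftLeft (nat_lit 0x2400001) (nat_lit 102)) (.one (nat_lit 0x900000300600f011000600c140422511)) (.one (nat_lit 0x900000400600f011000800c140422511)))) (.br (Nat.shiftLeft (nat_lit 0xa000003) (nat_lit 100)) (.br (Nat.shiftLeft (nat_lit 0x5) (nat_lit 125)) (.one (nat_lit 0x900000500600f011000a00c140422511)) (.one (nat_lit 0xa00000200600f011000400c160822511))) (.br (Nat.shiftLeft (nat_lit 0x2800001) (nat_lit 102)) (.one (nat_lit 0xa00000300600f011000600c160822511)) (.one (nat_lit 0xa00000400600f011000800c160822511))))) (.br (Nat.shiftLeft (nat_lit 0xb000005) (nat_lit 100)) (.br (Nat.shiftLeft (nat_lit 0xb000003) (nat_lit 100)) (.br (Nat.shiftLeft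 (nat_lit 0xb) (nat_lit 124)) (.one (nat_lit 0xa00000500600f011000a00c160822511)) (.one (nat_lit 0xb00000200600f011000400c180c22511))) (.br (Nat.shiftLeft (nat_lit 0x2c00001) (nat_lit 102)) (.one (nat_lit 0xb00000300600f011000600c180c22511)) (.one (nat_lit 0xb00000400600f011000800c180c22511)))) (.br (Nat.shiftLeft (nat_lit 0xc000003) (nat_lit 100)) (.br (Nat.shiftLeft (nat_lit 0x3) (nat_lit 126)) (.one (nat_lit 0xb00000500600f011000a00c180c22511)) (.one (nat_lit 0xc00000200600f011000400c1a1022511))) (.br (Nat.shiftLeft (nat_lit 0x3000001) (nat_lit 102)) (.one (nat_lit 0xc00000300600f011000600c1a1022511)) (.one (nat_lit 0xc00000400600f011000800c1a1022511)))))) (.br (Nat.shiftLeft (nat_lit 0xe000005) (nat_lit 100)) (.br (Nat.shiftLeft (nat_lit 0xd000005) (nat_lit 100)) (.br (Nat.shiftLeft (nat_lit 0xd000003) (nat_lit 100)) (.br (Nat.shiftLeft (nat_lit 0xd) (nat_lit 124)) (.one (nat_lit 0xc00000500600f011000a00c1a1022511)) (.one (nat_lit 0xd00000200600f011000400c1c1422511))) (.br (Nat.shiftLeft (nat_lit 0x3400001)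 (nat_lit 102)) (.one (nat_lit 0xd00000300600f011000600c1c1422511)) (.one (nat_lit 0xd00000400600f011000800c1c1422511)))) (.br (Nat.shiftLeft (nat_lit 0xe000003) (nat_lit 100)) (.br (Nat.shiftLeft (nat_lit 0x7) (nat_lit 125)) (.one (nat_lit 0xd00000500600f011000a00c1c1422511)) (.one (nat_lit 0xe00000200600f011000400c1e1822511))) (.br (Nat.shiftLeft (nat_lit 0x3800001) (nat_lit 102)) (.one (nat_lit 0xe00000300600f011000600c1e1822511)) (.one (nat_lit 0xe00000400600f011000800c1e1822511))))) (.br (Nat.shiftLeft (nat_lit 0x1) (nat_lit 136)) (.br (Nat.shiftLeft (nat_lit 0xf000003) (nat_lit 100)) (.br (Nat.shiftLeft (nat_lit 0xf) (nat_lit 124)) (.one (nat_lit 0xe00000500600f011000a00c1e1822511)) (.one (nat_lit 0xf00000200600f011000400c201c22511))) (.br (Nat.shiftLeft (nat_lit 0x3c00001) (nat_lit 102)) (.one (nat_lit 0xf00000300600f011000600c201c22511)) (.one (nat_lit 0xf00000400600f011000800c201c22511)))) (.br (Nat.shiftLeft (nat_lit 0x3) (nat_lit 136)) (.br (Nat.shiftLeft (nat_lit 0x1) (nat_lit 137)) (.one (nat_lit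 0x100000200300600f011400602c41e022611)) (.one (nat_lit 0x200000200300600f011400604c81e022611))) (.br (Nat.shiftLeft (nat_lit 0x1) (nat_lit 138)) (.one (nat_lit 0x300000200300600f011400606cc1e022611)) (.one (nat_lit 0x400000200300600f011400608d01e022611)))))))
def t285 : k285.all (jb2 57 fl b0) = true := by decide +kernel
noncomputable def k286 : KT := (.br (Nat.shiftLeft (nat_lit 0x5) (nat_lit 137)) (.br (Nat.shiftLeft (nat_lit 0x7) (nat_lit 136)) (.br (Nat.shiftLeft (nat_lit 0x3) (nat_lit 137)) (.one (nat_lit 0x500000200300600f01140060ad41e022611)) (.one (nat_lit 0x600000200300600f01140060cd81e022611))) (.br (Nat.shiftLeft (nat_lit 0x1) (nat_lit 139)) (.one (nat_lit 0x700000200300600f01140060edc1e022611)) (.br (Nat.shiftLeft (nat_lit 0x9) (nat_lit 136)) (.one (nat_lit 0x800000200300600f011400610e01e022611)) (.one (nat_lit 0x900000200300600f011400612e41e022611))))) (.br (Nat.shiftLeft (nat_lit 0x3) (nat_lit 138)) (.br (Nat.shiftLeft (nat_lit 0xb) (nat_lit 136)) (.one (nat_lit 0xa00000200300600f011400614e81e022611))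 (.one (nat_lit 0xb00000200300600f011400616ec1e022611))) (.br (Nat.shiftLeft (nat_lit 0xd) (nat_lit 136)) (.one (nat_lit 0xc00000200300600f011400618f01e022611)) (.br (Nat.shiftLeft (nat_lit 0x7) (nat_lit 137)) (.one (nat_lit 0xd00000200300600f01140061af41e022611)) (.one (nat_lit 0xe00000200300600f01140061cf81e022611))))))
def t286 : k286.all (jb2 57 fl b0) = true := by decide +kernel
noncomputable def s16 : KT := (.br (nat_lit 0x300000600f011600000c01e022411) (.br (nat_lit 0x100300600f011200600c01e022650) (.br (nat_lit 0x100000600f011200000c01e022411) k272 (.br (nat_lit 0x100200600f011200400c01e022650) k273 k274)) (.br (nat_lit 0x200300600f011400600c01e023600) (.br (nat_lit 0x100400600f011200800c01e022650) k275 k276) (.br (nat_lit 0x200400600f011400800c01e022650) k277 k278))) (.br (nat_lit 0x500000200600f011000400c0bf422511) (.br (nat_lit 0x400000600f011800000c01e022411) (.br (nat_lit 0x300400600f011600800c01e022650) k279 k280) (.br (nat_lit 0x100000500600f011000a00c03e422511) k281 k282)) (.br (nat_lit 0x800000500600f011000a00c120022511)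 (.br (nat_lit 0x600000500600f011000a00c0df822511) k283 k284) (.br (nat_lit 0x400000200300600f011400608d01e022611) k285 k286))))
noncomputable def u16 : KT := (.one (nat_lit 0x600f011000000c01e022430))
def w16 : u16.all (wj 57 s16) = true := by decide +kernel
def o16 : OkW 57 (jb2 57 fl) u16 := .lift s16 _ (.br _ _ _ (.br _ _ _ (.br _ _ _ (.leaf b0 k272 t272) (.br _ _ _ (.leaf b0 k273 t273) (.leaf b0 k274 t274))) (.br _ _ _ (.br _ _ _ (.leaf b0 k275 t275) (.leaf b0 k276 t276)) (.br _ _ _ (.leaf b0 k277 t277) (.leaf b0 k278 t278)))) (.br _ _ _ (.br _ _ _ (.br _ _ _ (.leaf b0 k279 t279) (.leaf b0 k280 t280)) (.br _ _ _ (.leaf b0 k281 t281) (.leaf b0 k282 t282))) (.br _ _ _ (.br _ _ _ (.leaf b0 k283 t283) (.leaf b0 k284 t284)) (.br _ _ _ (.leaf b0 k285 t285) (.leaf b0 k286 t286))))) w16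
noncomputable def k287 : KT := (.br (Nat.shiftLeft (nat_lit 0x600f013) (nat_lit 64)) (.one (nat_lit 0x600f012000000c01e025400)) (.br (Nat.shiftLeft (nat_lit 0x1) (nat_lit 100)) (.one (nat_lit 0x600f013000000c01e027400)) (.one (nat_lit 0x100600f012000200c01e024540))))
def t287 : k287.all (jb2 57 fl b0) = true := by decide +kernel
noncomputable def k288 : KT := (.br (Nat.shiftLeft (nat_lit 0x1) (nat_lit 102)) (.br (Nat.shiftLeft (nat_lit 0x200600f013) (nat_lit 64)) (.br (Nat.shiftLeft (nat_lit 0x1) (nat_lit 101)) (.one (nat_lit 0x100600f013000200c01e026540)) (.one (nat_lit 0x200600f012000400c01e025500))) (.br (Nat.shiftLeft (nat_lit 0x3) (nat_lit 100)) (.one (nat_lit 0x200600f013000400c01e027500)) (.br (Nat.shiftLeft (nat_lit 0x300600f013) (nat_lit 64)) (.one (nat_lit 0x300600f012000600c01e025500)) (.one (nat_lit 0x300600f013000600c01e027500))))) (.br (Nat.shiftLeft (nat_lit 0x500600f013) (nat_lit 64)) (.br (Nat.shiftLeft (nat_lit 0x400600f013) (nat_lit 64)) (.one (nat_lit 0x400600f012000800c01e025500)) (.br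 (Nat.shiftLeft (nat_lit 0x5) (nat_lit 100)) (.one (nat_lit 0x400600f013000800c01e027500)) (.one (nat_lit 0x500600f012000a00c01e025500)))) (.br (Nat.shiftLeft (nat_lit 0x1) (nat_lit 112)) (.one (nat_lit 0x500600f013000a00c01e027500)) (.br (Nat.shiftLeft (nat_lit 0x100000600f013) (nat_lit 64)) (.one (nat_lit 0x100000600f012200000c01e024411)) (.one (nat_lit 0x100000600f013200000c01e026411))))))
def t288 : k288.all (jb2 57 fl b0) = true := by decide +kernel
noncomputable def k289 : KT := (.one (nat_lit 0x100200600f012200400c01e024650))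
def t289 : k289.all (jb2 57 fl b0) = true := by decide +kernel
noncomputable def k290 : KT := (.one (nat_lit 0x100200600f013200400c01e026650))
def t290 : k290.all (jb2 57 fl b0) = true := by decide +kernel
noncomputable def k291 : KT := (.one (nat_lit 0x100300600f012200600c01e024650))
def t291 : k291.all (jb2 57 fl b0) = true := by decide +kernel
noncomputable def k292 : KT := (.br (Nat.shiftLeft (nat_lit 0x401) (nat_lit 102)) (.one (nat_lit 0x100300600f013200600c01e026650)) (.one (nat_lit 0x100400600f012200800c01e024650)))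
def t292 : k292.all (jb2 57 fl b0) = true := by decide +kernel
noncomputable def k293 : KT := (.br (Nat.shiftLeft (nat_lit 0x100500600f013) (nat_lit 64)) (.br (Nat.shiftLeft (nat_lit 0x1005) (nat_lit 100)) (.one (nat_lit 0x100400600f013200800c01e026650)) (.one (nat_lit 0x100500600f012200a00c01e024650))) (.br (Nat.shiftLeft (nat_lit 0x1) (nat_lit 113)) (.one (nat_lit 0x100500600f013200a00c01e026650)) (.br (Nat.shiftLeft (nat_lit 0x200000600f013) (nat_lit 64)) (.one (nat_lit 0x200000600f012400000c01e024411)) (.one (nat_lit 0x200000600f013400000c01e026411)))))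
def t293 : k293.all (jb2 57 fl b0) = true := by decide +kernel
noncomputable def k294 : KT := (.one (nat_lit 0x200300600f012400600c01e024650))
def t294 : k294.all (jb2 57 fl b0) = true := by decide +kernel
noncomputable def k295 : KT := (.one (nat_lit 0x200300600f013400600c01e026650))
def t295 : k295.all (jb2 57 fl b0) = true := by decide +kernel
noncomputable def k296 : KT := (.br (Nat.shiftLeft (nat_lit 0x200400600f013) (nat_lit 64)) (.one (nat_lit 0x200400600f012400800c01e024650)) (.one (nat_lit 0x200400600f013400800c01e026650)))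
def t296 : k296.all (jb2 57 fl b0) = true := by decide +kernel
noncomputable def k297 : KT := (.br (Nat.shiftLeft (nat_lit 0x3) (nat_lit 112)) (.br (Nat.shiftLeft (nat_lit 0x200500600f013) (nat_lit 64)) (.one (nat_lit 0x200500600f012400a00c01e024650)) (.one (nat_lit 0x200500600f013400a00c01e026650))) (.br (Nat.shiftLeft (nat_lit 0x300000600f013) (nat_lit 64)) (.one (nat_lit 0x300000600f012600000c01e024411)) (.one (nat_lit 0x300000600f013600000c01e026411))))
def t297 : k297.all (jb2 57 fl b0) = true := by decide +kernel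
noncomputable def k298 : KT := (.br (Nat.shiftLeft (nat_lit 0x300400600f013) (nat_lit 64)) (.one (nat_lit 0x300400600f012600800c01e024650)) (.one (nat_lit 0x300400600f013600800c01e026650)))
def t298 : k298.all (jb2 57 fl b0) = true := by decide +kernel
noncomputable def k299 : KT := (.br (Nat.shiftLeft (nat_lit 0x1) (nat_lit 114)) (.br (Nat.shiftLeft (nat_lit 0x300500600f013) (nat_lit 64)) (.one (nat_lit 0x300500600f012600a00c01e024650)) (.one (nat_lit 0x300500600f013600a00c01e026650))) (.br (Nat.shiftLeft (nat_lit 0x400000600f013) (nat_lit 64)) (.one (nat_lit 0x400000600f012800000c01e024411)) (.one (nat_lit 0x400000600f013800000c01e026411))))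
def t299 : k299.all (jb2 57 fl b0) = true := by decide +kernel
noncomputable def k300 : KT := (.br (Nat.shiftLeft (nat_lit 0x600000600f013) (nat_lit 64)) (.br (Nat.shiftLeft (nat_lit 0x5) (nat_lit 112)) (.br (Nat.shiftLeft (nat_lit 0x400500600f013) (nat_lit 64)) (.one (nat_lit 0x400500600f012800a00c01e024650)) (.one (nat_lit 0x400500600f013800a00c01e026650))) (.br (Nat.shiftLeft (nat_lit 0x500000600f013) (nat_lit 64)) (.one (nat_lit 0x500000600f012a00000c01e024411)) (.br (Nat.shiftLeft (nat_lit 0x3) (nat_lit 113)) (.one (nat_lit 0x500000600f013a00000c01e026411)) (.one (nat_lit 0x600000600f012c00000c01e024411))))) (.br (Nat.shiftLeft (nat_lit 0x1) (nat_lit 115)) (.br (Nat.shiftLeft (nat_lit 0x7) (nat_lit 112)) (.one (nat_lit 0x600000600f013c00000c01e026411)) (.br (Nat.shiftLeft (nat_lit 0x700000600f013) (nat_lit 64)) (.one (nat_lit 0x700000600f012e00000c01e024411)) (.one (nat_lit 0x700000600f013e00000c01e026411)))) (.br (Nat.shiftLeft (nat_lit 0x800000600f013) (nat_lit 64)) (.one (nat_lit 0x800000600f012000000c01e126411))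 (.br (Nat.shiftLeft (nat_lit 0x9) (nat_lit 112)) (.one (nat_lit 0x800000600f013000000c01e128411)) (.one (nat_lit 0x900000600f012200000c01e126411))))))
def t300 : k300.all (jb2 57 fl b0) = true := by decide +kernel
noncomputable def k301 : KT := (.br (Nat.shiftLeft (nat_lit 0x100000500600f013) (nat_lit 64)) (.br (Nat.shiftLeft (nat_lit 0xe00000600f013) (nat_lit 64)) (.br (Nat.shiftLeft (nat_lit 0x3) (nat_lit 114)) (.br (Nat.shiftLeft (nat_lit 0xa00000600f013) (nat_lit 64)) (.br (Nat.shiftLeft (nat_lit 0x5) (nat_lit 113)) (.one (nat_lit 0x900000600f013200000c01e128411)) (.one (nat_lit 0xa00000600f012400000c01e126411))) (.br (Nat.shiftLeft (nat_lit 0xb) (nat_lit 112)) (.one (nat_lit 0xa00000600f013400000c01e128411)) (.br (Nat.shiftLeft (nat_lit 0xb00000600f013) (nat_lit 64)) (.one (nat_lit 0xb00000600f012600000c01e126411)) (.one (nat_lit 0xb00000600f013600000c01e128411))))) (.br (Nat.shiftLeft (nat_lit 0xd) (nat_lit 112)) (.br (Nat.shiftLeft (nat_lit 0xc00000600f013) (nat_lit 64)) (.one (nat_lit 0xc00000600f012800000c01e126411))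 (.one (nat_lit 0xc00000600f013800000c01e128411))) (.br (Nat.shiftLeft (nat_lit 0xd00000600f013) (nat_lit 64)) (.one (nat_lit 0xd00000600f012a00000c01e126411)) (.br (Nat.shiftLeft (nat_lit 0x7) (nat_lit 113)) (.one (nat_lit 0xd00000600f013a00000c01e128411)) (.one (nat_lit 0xe00000600f012c00000c01e126411)))))) (.br (Nat.shiftLeft (nat_lit 0x1000003) (nat_lit 100)) (.br (Nat.shiftLeft (nat_lit 0xf00000600f013) (nat_lit 64)) (.br (Nat.shiftLeft (nat_lit 0xf) (nat_lit 112)) (.one (nat_lit 0xe00000600f013c00000c01e128411)) (.one (nat_lit 0xf00000600f012e00000c01e126411))) (.br (Nat.shiftLeft (nat_lit 0x1) (nat_lit 124)) (.one (nat_lit 0xf00000600f013e00000c01e128411)) (.br (Nat.shiftLeft (nat_lit 0x100000200600f013) (nat_lit 64)) (.one (nat_lit 0x100000200600f012000400c03e424511)) (.one (nat_lit 0x100000200600f013000400c03e426511))))) (.br (Nat.shiftLeft (nat_lit 0x400001) (nat_lit 102)) (.br (Nat.shiftLeft (nat_lit 0x100000300600f013) (nat_lit 64)) (.one (nat_lit 0x100000300600f012000600c03e424511)) (.one (nat_lit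 0x100000300600f013000600c03e426511))) (.br (Nat.shiftLeft (nat_lit 0x100000400600f013) (nat_lit 64)) (.one (nat_lit 0x100000400600f012000800c03e424511)) (.br (Nat.shiftLeft (nat_lit 0x1000005) (nat_lit 100)) (.one (nat_lit 0x100000400600f013000800c03e426511)) (.one (nat_lit 0x100000500600f012000a00c03e424511))))))) (.br (Nat.shiftLeft (nat_lit 0x300000200600f013) (nat_lit 64)) (.br (Nat.shiftLeft (nat_lit 0x800001) (nat_lit 102)) (.br (Nat.shiftLeft (nat_lit 0x200000200600f013) (nat_lit 64)) (.br (Nat.shiftLeft (nat_lit 0x1) (nat_lit 125)) (.one (nat_lit 0x100000500600f013000a00c03e426511)) (.one (nat_lit 0x200000200600f012000400c05e824511))) (.br (Nat.shiftLeft (nat_lit 0x2000003) (nat_lit 100)) (.one (nat_lit 0x200000200600f013000400c05e826511)) (.br (Nat.shiftLeft (nat_lit 0x200000300600f013) (nat_lit 64)) (.one (nat_lit 0x200000300600f012000600c05e824511)) (.one (nat_lit 0x200000300600f013000600c05e826511))))) (.br (Nat.shiftLeft (nat_lit 0x2000005) (nat_lit 100)) (.br (Nat.shiftLeft (nat_lit 0x200000400600f013)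 (nat_lit 64)) (.one (nat_lit 0x200000400600f012000800c05e824511)) (.one (nat_lit 0x200000400600f013000800c05e826511))) (.br (Nat.shiftLeft (nat_lit 0x200000500600f013) (nat_lit 64)) (.one (nat_lit 0x200000500600f012000a00c05e824511)) (.br (Nat.shiftLeft (nat_lit 0x3) (nat_lit 124)) (.one (nat_lit 0x200000500600f013000a00c05e826511)) (.one (nat_lit 0x300000200600f012000400c07ec24511)))))) (.br (Nat.shiftLeft (nat_lit 0x3000005) (nat_lit 100)) (.br (Nat.shiftLeft (nat_lit 0x300000300600f013) (nat_lit 64)) (.br (Nat.shiftLeft (nat_lit 0x3000003) (nat_lit 100)) (.one (nat_lit 0x300000200600f013000400c07ec26511)) (.one (nat_lit 0x300000300600f012000600c07ec24511))) (.br (Nat.shiftLeft (nat_lit 0xc00001) (nat_lit 102)) (.one (nat_lit 0x300000300600f013000600c07ec26511)) (.br (Nat.shiftLeft (nat_lit 0x300000400600f013) (nat_lit 64)) (.one (nat_lit 0x300000400600f012000800c07ec24511)) (.one (nat_lit 0x300000400600f013000800c07ec26511))))) (.br (Nat.shiftLeft (nat_lit 0x1) (nat_lit 126)) (.br (Nat.shiftLeft (nat_lit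 0x300000500600f013) (nat_lit 64)) (.one (nat_lit 0x300000500600f012000a00c07ec24511)) (.one (nat_lit 0x300000500600f013000a00c07ec26511))) (.br (Nat.shiftLeft (nat_lit 0x400000200600f013) (nat_lit 64)) (.one (nat_lit 0x400000200600f012000400c09f024511)) (.br (Nat.shiftLeft (nat_lit 0x4000003) (nat_lit 100)) (.one (nat_lit 0x400000200600f013000400c09f026511)) (.one (nat_lit 0x400000300600f012000600c09f024511))))))))
def t301 : k301.all (jb2 57 fl b0) = true := by decide +kernel
noncomputable def k302 : KT := (.br (Nat.shiftLeft (nat_lit 0x5) (nat_lit 124)) (.br (Nat.shiftLeft (nat_lit 0x400000400600f013) (nat_lit 64)) (.br (Nat.shiftLeft (nat_lit 0x1000001) (nat_lit 102)) (.one (nat_lit 0x400000300600f013000600c09f026511)) (.one (nat_lit 0x400000400600f012000800c09f024511))) (.br (Nat.shiftLeft (nat_lit 0x4000005) (nat_lit 100)) (.one (nat_lit 0x400000400600f013000800c09f026511)) (.br (Nat.shiftLeft (nat_lit 0x400000500600f013) (nat_lit 64)) (.one (nat_lit 0x400000500600f012000a00c09f024511)) (.one (nat_lit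 0x400000500600f013000a00c09f026511))))) (.br (Nat.shiftLeft (nat_lit 0x500000300600f013) (nat_lit 64)) (.br (Nat.shiftLeft (nat_lit 0x500000200600f013) (nat_lit 64)) (.one (nat_lit 0x500000200600f012000400c0bf424511)) (.br (Nat.shiftLeft (nat_lit 0x5000003) (nat_lit 100)) (.one (nat_lit 0x500000200600f013000400c0bf426511)) (.one (nat_lit 0x500000300600f012000600c0bf424511)))) (.br (Nat.shiftLeft (nat_lit 0x1400001) (nat_lit 102)) (.one (nat_lit 0x500000300600f013000600c0bf426511)) (.br (Nat.shiftLeft (nat_lit 0x500000400600f013) (nat_lit 64)) (.one (nat_lit 0x500000400600f012000800c0bf424511)) (.one (nat_lit 0x500000400600f013000800c0bf426511))))))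
def t302 : k302.all (jb2 57 fl b0) = true := by decide +kernel
noncomputable def k303 : KT := (.br (Nat.shiftLeft (nat_lit 0x600000300600f013) (nat_lit 64)) (.br (Nat.shiftLeft (nat_lit 0x3) (nat_lit 125)) (.br (Nat.shiftLeft (nat_lit 0x500000500600f013) (nat_lit 64)) (.one (nat_lit 0x500000500600f012000a00c0bf424511)) (.one (nat_lit 0x500000500600f013000a00c0bf426511))) (.br (Nat.shiftLeft (nat_lit 0x600000200600f013) (nat_lit 64)) (.one (nat_lit 0x600000200600f012000400c0df824511)) (.br (Nat.shiftLeft (nat_lit 0x6000003) (nat_lit 100)) (.one (nat_lit 0x600000200600f013000400c0df826511)) (.one (nat_lit 0x600000300600f012000600c0df824511))))) (.br (Nat.shiftLeft (nat_lit 0x600000400600f013) (nat_lit 64)) (.br (Nat.shiftLeft (nat_lit 0x1800001) (nat_lit 102)) (.one (nat_lit 0x600000300600f013000600c0df826511)) (.one (nat_lit 0x600000400600f012000800c0df824511))) (.br (Nat.shiftLeft (nat_lit 0x6000005) (nat_lit 100)) (.one (nat_lit 0x600000400600f013000800c0df826511)) (.br (Nat.shiftLeft (nat_lit 0x600000500600f013)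 (nat_lit 64)) (.one (nat_lit 0x600000500600f012000a00c0df824511)) (.one (nat_lit 0x600000500600f013000a00c0df826511))))))
def t303 : k303.all (jb2 57 fl b0) = true := by decide +kernel
noncomputable def k304 : KT := (.br (Nat.shiftLeft (nat_lit 0x700000400600f013) (nat_lit 64)) (.br (Nat.shiftLeft (nat_lit 0x7000003) (nat_lit 100)) (.br (Nat.shiftLeft (nat_lit 0x700000200600f013) (nat_lit 64)) (.one (nat_lit 0x700000200600f012000400c0ffc24511)) (.one (nat_lit 0x700000200600f013000400c0ffc26511))) (.br (Nat.shiftLeft (nat_lit 0x700000300600f013) (nat_lit 64)) (.one (nat_lit 0x700000300600f012000600c0ffc24511)) (.br (Nat.shiftLeft (nat_lit 0x1c00001) (nat_lit 102)) (.one (nat_lit 0x700000300600f013000600c0ffc26511)) (.one (nat_lit 0x700000400600f012000800c0ffc24511))))) (.br (Nat.shiftLeft (nat_lit 0x1) (nat_lit 127)) (.br (Nat.shiftLeft (nat_lit 0x7000005) (nat_lit 100)) (.one (nat_lit 0x700000400600f013000800c0ffc26511)) (.br (Nat.shiftLeft (nat_lit 0x700000500600f013) (nat_lit 64)) (.one (nat_lit 0x700000500600f012000a00c0ffc24511))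 (.one (nat_lit 0x700000500600f013000a00c0ffc26511)))) (.br (Nat.shiftLeft (nat_lit 0x800000200600f013) (nat_lit 64)) (.one (nat_lit 0x800000200600f012000400c120024511)) (.br (Nat.shiftLeft (nat_lit 0x8000003) (nat_lit 100)) (.one (nat_lit 0x800000200600f013000400c120026511)) (.one (nat_lit 0x800000300600f012000600c120024511))))))
def t304 : k304.all (jb2 57 fl b0) = true := by decide +kernel
noncomputable def k305 : KT := (.br (Nat.shiftLeft (nat_lit 0xa00000500600f013) (nat_lit 64)) (.br (Nat.shiftLeft (nat_lit 0x900000400600f013) (nat_lit 64)) (.br (Nat.shiftLeft (nat_lit 0x9) (nat_lit 124)) (.br (Nat.shiftLeft (nat_lit 0x800000400600f013) (nat_lit 64)) (.br (Nat.shiftLeft (nat_lit 0x2000001) (nat_lit 102)) (.one (nat_lit 0x800000300600f013000600c120026511)) (.one (nat_lit 0x800000400600f012000800c120024511))) (.br (Nat.shiftLeft (nat_lit 0x8000005) (nat_lit 100)) (.one (nat_lit 0x800000400600f013000800c120026511)) (.br (Nat.shiftLeft (nat_lit 0x800000500600f013) (nat_lit 64)) (.one (nat_lit 0x800000500600f012000a00c120024511))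 (.one (nat_lit 0x800000500600f013000a00c120026511))))) (.br (Nat.shiftLeft (nat_lit 0x9000003) (nat_lit 100)) (.br (Nat.shiftLeft (nat_lit 0x900000200600f013) (nat_lit 64)) (.one (nat_lit 0x900000200600f012000400c140424511)) (.one (nat_lit 0x900000200600f013000400c140426511))) (.br (Nat.shiftLeft (nat_lit 0x900000300600f013) (nat_lit 64)) (.one (nat_lit 0x900000300600f012000600c140424511)) (.br (Nat.shiftLeft (nat_lit 0x2400001) (nat_lit 102)) (.one (nat_lit 0x900000300600f013000600c140426511)) (.one (nat_lit 0x900000400600f012000800c140424511)))))) (.br (Nat.shiftLeft (nat_lit 0xa000003) (nat_lit 100)) (.br (Nat.shiftLeft (nat_lit 0x900000500600f013) (nat_lit 64)) (.br (Nat.shiftLeft (nat_lit 0x9000005) (nat_lit 100)) (.one (nat_lit 0x900000400600f013000800c140426511)) (.one (nat_lit 0x900000500600f012000a00c140424511))) (.br (Nat.shiftLeft (nat_lit 0x5) (nat_lit 125)) (.one (nat_lit 0x900000500600f013000a00c140426511)) (.br (Nat.shiftLeft (nat_lit 0xa00000200600f013) (nat_lit 64)) (.one (nat_lit 0xa00000200600f012000400c160824511))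 (.one (nat_lit 0xa00000200600f013000400c160826511))))) (.br (Nat.shiftLeft (nat_lit 0x2800001) (nat_lit 102)) (.br (Nat.shiftLeft (nat_lit 0xa00000300600f013) (nat_lit 64)) (.one (nat_lit 0xa00000300600f012000600c160824511)) (.one (nat_lit 0xa00000300600f013000600c160826511))) (.br (Nat.shiftLeft (nat_lit 0xa00000400600f013) (nat_lit 64)) (.one (nat_lit 0xa00000400600f012000800c160824511)) (.br (Nat.shiftLeft (nat_lit 0xa000005) (nat_lit 100)) (.one (nat_lit 0xa00000400600f013000800c160826511)) (.one (nat_lit 0xa00000500600f012000a00c160824511))))))) (.br (Nat.shiftLeft (nat_lit 0xc00000200600f013) (nat_lit 64)) (.br (Nat.shiftLeft (nat_lit 0x2c00001) (nat_lit 102)) (.br (Nat.shiftLeft (nat_lit 0xb00000200600f013) (nat_lit 64)) (.br (Nat.shiftLeft (nat_lit 0xb) (nat_lit 124)) (.one (nat_lit 0xa00000500600f013000a00c160826511)) (.one (nat_lit 0xb00000200600f012000400c180c24511))) (.br (Nat.shiftLeft (nat_lit 0xb000003) (nat_lit 100)) (.one (nat_lit 0xb00000200600f013000400c180c26511)) (.br (Nat.shiftLeft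 (nat_lit 0xb00000300600f013) (nat_lit 64)) (.one (nat_lit 0xb00000300600f012000600c180c24511)) (.one (nat_lit 0xb00000300600f013000600c180c26511))))) (.br (Nat.shiftLeft (nat_lit 0xb000005) (nat_lit 100)) (.br (Nat.shiftLeft (nat_lit 0xb00000400600f013) (nat_lit 64)) (.one (nat_lit 0xb00000400600f012000800c180c24511)) (.one (nat_lit 0xb00000400600f013000800c180c26511))) (.br (Nat.shiftLeft (nat_lit 0xb00000500600f013) (nat_lit 64)) (.one (nat_lit 0xb00000500600f012000a00c180c24511)) (.br (Nat.shiftLeft (nat_lit 0x3) (nat_lit 126)) (.one (nat_lit 0xb00000500600f013000a00c180c26511)) (.one (nat_lit 0xc00000200600f012000400c1a1024511)))))) (.br (Nat.shiftLeft (nat_lit 0xc000005) (nat_lit 100)) (.br (Nat.shiftLeft (nat_lit 0xc00000300600f013) (nat_lit 64)) (.br (Nat.shiftLeft (nat_lit 0xc000003) (nat_lit 100)) (.one (nat_lit 0xc00000200600f013000400c1a1026511)) (.one (nat_lit 0xc00000300600f012000600c1a1024511))) (.br (Nat.shiftLeft (nat_lit 0x3000001) (nat_lit 102)) (.one (nat_lit 0xc00000300600f013000600c1a1026511))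 (.br (Nat.shiftLeft (nat_lit 0xc00000400600f013) (nat_lit 64)) (.one (nat_lit 0xc00000400600f012000800c1a1024511)) (.one (nat_lit 0xc00000400600f013000800c1a1026511))))) (.br (Nat.shiftLeft (nat_lit 0xd) (nat_lit 124)) (.br (Nat.shiftLeft (nat_lit 0xc00000500600f013) (nat_lit 64)) (.one (nat_lit 0xc00000500600f012000a00c1a1024511)) (.one (nat_lit 0xc00000500600f013000a00c1a1026511))) (.br (Nat.shiftLeft (nat_lit 0xd00000200600f013) (nat_lit 64)) (.one (nat_lit 0xd00000200600f012000400c1c1424511)) (.br (Nat.shiftLeft (nat_lit 0xd000003) (nat_lit 100)) (.one (nat_lit 0xd00000200600f013000400c1c1426511)) (.one (nat_lit 0xd00000300600f012000600c1c1424511))))))))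
def t305 : k305.all (jb2 57 fl b0) = true := by decide +kernel
noncomputable def k306 : KT := (.br (Nat.shiftLeft (nat_lit 0xe000003) (nat_lit 100)) (.br (Nat.shiftLeft (nat_lit 0xd000005) (nat_lit 100)) (.br (Nat.shiftLeft (nat_lit 0x3400001) (nat_lit 102)) (.one (nat_lit 0xd00000300600f013000600c1c1426511)) (.br (Nat.shiftLeft (nat_lit 0xd00000400600f013) (nat_lit 64)) (.one (nat_lit 0xd00000400600f012000800c1c1424511)) (.one (nat_lit 0xd00000400600f013000800c1c1426511)))) (.br (Nat.shiftLeft (nat_lit 0x7) (nat_lit 125)) (.one (nat_lit 0xd00000500600f012000a00c1c1424511)) (.br (Nat.shiftLeft (nat_lit 0xe00000200600f013) (nat_lit 64)) (.one (nat_lit 0xe00000200600f012000400c1e1824511)) (.one (nat_lit 0xe00000200600f013000400c1e1826511))))) (.br (Nat.shiftLeft (nat_lit 0xf) (nat_lit 124)) (.br (Nat.shiftLeft (nat_lit 0xe00000300600f013) (nat_lit 64)) (.one (nat_lit 0xe00000300600f012000600c1e1824511)) (.br (Nat.shiftLeft (nat_lit 0x3800001) (nat_lit 102)) (.one (nat_lit 0xe00000300600f013000600c1e1826511))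 (.one (nat_lit 0xe00000400600f012000800c1e1824511)))) (.br (Nat.shiftLeft (nat_lit 0xf00000200600f013) (nat_lit 64)) (.one (nat_lit 0xf00000200600f012000400c201c24511)) (.br (Nat.shiftLeft (nat_lit 0xf000003) (nat_lit 100)) (.one (nat_lit 0xf00000200600f013000400c201c26511)) (.one (nat_lit 0xf00000300600f012000600c201c24511))))))
def t306 : k306.all (jb2 57 fl b0) = true := by decide +kernel
noncomputable def s17 : KT := (.br (nat_lit 0x200400600f013400800c01e026650) (.br (nat_lit 0x100300600f012200600c01e024650) (.br (nat_lit 0x100000600f013200000c01e026411) (.br (nat_lit 0x100600f012000200c01e024540) k287 k288) (.br (nat_lit 0x100200600f012200400c01e024650) k289 (.br (nat_lit 0x100200600f013200400c01e026650) k290 k291))) (.br (nat_lit 0x200000600f013400000c01e026411) (.br (nat_lit 0x100400600f012200800c01e024650) k292 k293) (.br (nat_lit 0x200300600f012400600c01e024650) k294 (.br (nat_lit 0x200300600f013400600c01e026650) k295 k296)))) (.br (nat_lit 0x400000300600f012000600c09f024511) (.br (nat_lit 0x300400600f013600800c01e026650)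 (.br (nat_lit 0x300000600f013600000c01e026411) k297 k298) (.br (nat_lit 0x400000600f013800000c01e026411) k299 (.br (nat_lit 0x900000600f012200000c01e126411) k300 k301))) (.br (nat_lit 0x600000500600f013000a00c0df826511) (.br (nat_lit 0x500000400600f013000800c0bf426511) k302 k303) (.br (nat_lit 0x800000300600f012000600c120024511) k304 (.br (nat_lit 0xd00000300600f012000600c1c1424511) k305 k306)))))
noncomputable def u17 : KT := (.br (Nat.shiftLeft (nat_lit 0x600f013) (nat_lit 64)) (.one (nat_lit 0x600f012000000c01e024430)) (.one (nat_lit 0x600f013000000c01e026430)))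
def w17 : u17.all (wj 57 s17) = true := by decide +kernel
def o17 : OkW 57 (jb2 57 fl) u17 := .lift s17 _ (.br _ _ _ (.br _ _ _ (.br _ _ _ (.br _ _ _ (.leaf b0 k287 t287) (.leaf b0 k288 t288)) (.br _ _ _ (.leaf b0 k289 t289) (.br _ _ _ (.leaf b0 k290 t290) (.leaf b0 k291 t291)))) (.br _ _ _ (.br _ _ _ (.leaf b0 k292 t292) (.leaf b0 k293 t293)) (.br _ _ _ (.leaf b0 k294 t294) (.br _ _ _ (.leaf b0 k295 t295) (.leaf b0 k296 t296))))) (.br _ _ _ (.br _ _ _ (.br _ _ _ (.leaf b0 k297 t297) (.leaf b0 k298 t298)) (.br _ _ _ (.leaf b0 k299 t299) (.br _ _ _ (.leaf b0 k300 t300) (.leaf b0 k301 t301)))) (.br _ _ _ (.br _ _ _ (.leaf b0 k302 t302) (.leaf b0 k303 t303)) (.br _ _ _ (.leaf b0 k304 t304) (.br _ _ _ (.leaf b0 k305 t305) (.leaf b0 k306 t306)))))) w17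
noncomputable def k307 : KT := (.br (Nat.shiftLeft (nat_lit 0x601) (nat_lit 80)) (.br (Nat.shiftLeft (nat_lit 0x600f015) (nat_lit 64)) (.one (nat_lit 0x600f014000000c01e029400)) (.one (nat_lit 0x600f015000000c01e02b400))) (.br (Nat.shiftLeft (nat_lit 0x1) (nat_lit 100)) (.one (nat_lit 0x6010011000000c020023400)) (.br (Nat.shiftLeft (nat_lit 0x100600f015) (nat_lit 64)) (.one (nat_lit 0x100600f014000200c01e028540)) (.one (nat_lit 0x100600f015000200c01e02a540)))))
def t307 : k307.all (jb2 57 fl b0) = true := by decide +kernel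
noncomputable def k308 : KT := (.one (nat_lit 0x1006010011000200c020022540))
def t308 : k308.all (jb2 57 fl b0) = true := by decide +kernel
noncomputable def k309 : KT := (.one (nat_lit 0x200600f014000400c01e028540))
def t309 : k309.all (jb2 57 fl b0) = true := by decide +kernel
noncomputable def k310 : KT := (.br (Nat.shiftLeft (nat_lit 0x200601) (nat_lit 80)) (.one (nat_lit 0x200600f015000400c01e02a540)) (.br (Nat.shiftLeft (nat_lit 0x3) (nat_lit 100)) (.one (nat_lit 0x2006010011000400c020023500)) (.one (nat_lit 0x300600f014000600c01e029500))))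
def t310 : k310.all (jb2 57 fl b0) = true := by decide +kernel
noncomputable def k311 : KT := (.br (Nat.shiftLeft (nat_lit 0x300601) (nat_lit 80)) (.one (nat_lit 0x300600f015000600c01e02a540)) (.br (Nat.shiftLeft (nat_lit 0x1) (nat_lit 102)) (.one (nat_lit 0x3006010011000600c020023500)) (.one (nat_lit 0x400600f014000800c01e029500))))
def t311 : k311.all (jb2 57 fl b0) = true := by decide +kernel
noncomputable def k312 : KT := (.br (Nat.shiftLeft (nat_lit 0x400601) (nat_lit 80)) (.one (nat_lit 0x400600f015000800c01e02a540)) (.one (nat_lit 0x4006010011000800c020023500)))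
def t312 : k312.all (jb2 57 fl b0) = true := by decide +kernel
noncomputable def k313 : KT := (.one (nat_lit 0x500600f014000a00c01e028540))
def t313 : k313.all (jb2 57 fl b0) = true := by decide +kernel
noncomputable def k314 : KT := (.br (Nat.shiftLeft (nat_lit 0x1) (nat_lit 112)) (.br (Nat.shiftLeft (nat_lit 0x500601) (nat_lit 80)) (.one (nat_lit 0x500600f015000a00c01e02a540)) (.one (nat_lit 0x5006010011000a00c020023500))) (.br (Nat.shiftLeft (nat_lit 0x100000600f015) (nat_lit 64)) (.one (nat_lit 0x100000600f014200000c01e028411)) (.br (Nat.shiftLeft (nat_lit 0x100000601) (nat_lit 80)) (.one (nat_lit 0x100000600f015200000c01e02a411)) (.one (nat_lit 0x1000006010011200000c020022411)))))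
def t314 : k314.all (jb2 57 fl b0) = true := by decide +kernel
noncomputable def k315 : KT := (.one (nat_lit 0x1002006010011200400c020022650))
def t315 : k315.all (jb2 57 fl b0) = true := by decide +kernel
noncomputable def k316 : KT := (.br (Nat.shiftLeft (nat_lit 0x100300601) (nat_lit 80)) (.one (nat_lit 0x100300600f014200600c01e028650)) (.one (nat_lit 0x1003006010011200600c020022650)))
def t316 : k316.all (jb2 57 fl b0) = true := by decide +kernel
noncomputable def k317 : KT := (.br (Nat.shiftLeft (nat_lit 0x1) (nat_lit 113)) (.br (Nat.shiftLeft (nat_lit 0x100400601) (nat_lit 80)) (.one (nat_lit 0x100400600f014200800c01e028650)) (.br (Nat.shiftLeft (nat_lit 0x1005) (nat_lit 100)) (.one (nat_lit 0x1004006010011200800c020022650)) (.one (nat_lit 0x1005006010011200a00c020022650)))) (.br (Nat.shiftLeft (nat_lit 0x200000600f015) (nat_lit 64)) (.one (nat_lit 0x200000600f014400000c01e028411)) (.br (Nat.shiftLeft (nat_lit 0x200000601) (nat_lit 80)) (.one (nat_lit 0x200000600f015400000c01e02a411)) (.one (nat_lit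 0x2000006010011400000c020022411)))))
def t317 : k317.all (jb2 57 fl b0) = true := by decide +kernel
noncomputable def k318 : KT := (.one (nat_lit 0x200300600f014400600c01e028650))
def t318 : k318.all (jb2 57 fl b0) = true := by decide +kernel
noncomputable def k319 : KT := (.br (Nat.shiftLeft (nat_lit 0x801) (nat_lit 102)) (.one (nat_lit 0x2003006010011400600c020022650)) (.one (nat_lit 0x200400600f014400800c01e028650)))
def t319 : k319.all (jb2 57 fl b0) = true := by decide +kernel
noncomputable def k320 : KT := (.br (Nat.shiftLeft (nat_lit 0x3) (nat_lit 112)) (.br (Nat.shiftLeft (nat_lit 0x2005) (nat_lit 100)) (.one (nat_lit 0x2004006010011400800c020022650)) (.one (nat_lit 0x2005006010011400a00c020022650))) (.br (Nat.shiftLeft (nat_lit 0x300000600f015) (nat_lit 64)) (.one (nat_lit 0x300000600f014600000c01e028411)) (.br (Nat.shiftLeft (nat_lit 0x300000601) (nat_lit 80)) (.one (nat_lit 0x300000600f015600000c01e02a411)) (.one (nat_lit 0x3000006010011600000c020022411)))))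
def t320 : k320.all (jb2 57 fl b0) = true := by decide +kernel
noncomputable def k321 : KT := (.br (Nat.shiftLeft (nat_lit 0x300400601) (nat_lit 80)) (.one (nat_lit 0x300400600f014600800c01e028650)) (.one (nat_lit 0x3004006010011600800c020022650)))
def t321 : k321.all (jb2 57 fl b0) = true := by decide +kernel
noncomputable def k322 : KT := (.br (Nat.shiftLeft (nat_lit 0x5) (nat_lit 112)) (.br (Nat.shiftLeft (nat_lit 0x400000600f015) (nat_lit 64)) (.br (Nat.shiftLeft (nat_lit 0x1) (nat_lit 114)) (.one (nat_lit 0x3005006010011600a00c020022650)) (.one (nat_lit 0x400000600f014800000c01e028411))) (.br (Nat.shiftLeft (nat_lit 0x400000601) (nat_lit 80)) (.one (nat_lit 0x400000600f015800000c01e02a411)) (.br (Nat.shiftLeft (nat_lit 0x1001) (nat_lit 102)) (.one (nat_lit 0x4000006010011800000c020022411)) (.one (nat_lit 0x4005006010011800a00c020022650))))) (.br (Nat.shiftLeft (nat_lit 0x500000601) (nat_lit 80)) (.br (Nat.shiftLeft (nat_lit 0x500000600f015) (nat_lit 64)) (.one (nat_lit 0x500000600f014a00000c01e028411))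 (.one (nat_lit 0x500000600f015a00000c01e02a411))) (.br (Nat.shiftLeft (nat_lit 0x3) (nat_lit 113)) (.one (nat_lit 0x5000006010011a00000c020022411)) (.br (Nat.shiftLeft (nat_lit 0x600000600f015) (nat_lit 64)) (.one (nat_lit 0x600000600f014c00000c01e028411)) (.one (nat_lit 0x600000600f015c00000c01e02a411))))))
def t322 : k322.all (jb2 57 fl b0) = true := by decide +kernel
noncomputable def k323 : KT := (.br (Nat.shiftLeft (nat_lit 0xd00000600f015) (nat_lit 64)) (.br (Nat.shiftLeft (nat_lit 0x5) (nat_lit 113)) (.br (Nat.shiftLeft (nat_lit 0x800000600f015) (nat_lit 64)) (.br (Nat.shiftLeft (nat_lit 0x700000600f015) (nat_lit 64)) (.br (Nat.shiftLeft (nat_lit 0x7) (nat_lit 112)) (.one (nat_lit 0x6000006010011c00000c020022411)) (.one (nat_lit 0x700000600f014e00000c01e028411))) (.br (Nat.shiftLeft (nat_lit 0x700000601) (nat_lit 80)) (.one (nat_lit 0x700000600f015e00000c01e02a411)) (.br (Nat.shiftLeft (nat_lit 0x1) (nat_lit 115)) (.one (nat_lit 0x7000006010011e00000c020022411)) (.one (nat_lit 0x800000600f014000000c01e12a411)))))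 (.br (Nat.shiftLeft (nat_lit 0x9) (nat_lit 112)) (.br (Nat.shiftLeft (nat_lit 0x800000601) (nat_lit 80)) (.one (nat_lit 0x800000600f015000000c01e12c411)) (.one (nat_lit 0x8000006010011000000c020124411))) (.br (Nat.shiftLeft (nat_lit 0x900000600f015) (nat_lit 64)) (.one (nat_lit 0x900000600f014200000c01e12a411)) (.br (Nat.shiftLeft (nat_lit 0x900000601) (nat_lit 80)) (.one (nat_lit 0x900000600f015200000c01e12c411)) (.one (nat_lit 0x9000006010011200000c020124411)))))) (.br (Nat.shiftLeft (nat_lit 0xb00000601) (nat_lit 80)) (.br (Nat.shiftLeft (nat_lit 0xa00000601) (nat_lit 80)) (.br (Nat.shiftLeft (nat_lit 0xa00000600f015) (nat_lit 64)) (.one (nat_lit 0xa00000600f014400000c01e12a411)) (.one (nat_lit 0xa00000600f015400000c01e12c411))) (.br (Nat.shiftLeft (nat_lit 0xb) (nat_lit 112)) (.one (nat_lit 0xa000006010011400000c020124411)) (.br (Nat.shiftLeft (nat_lit 0xb00000600f015) (nat_lit 64)) (.one (nat_lit 0xb00000600f014600000c01e12a411)) (.one (nat_lit 0xb00000600f015600000c01e12c411))))) (.br (Nat.shiftLeft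 (nat_lit 0xc00000600f015) (nat_lit 64)) (.br (Nat.shiftLeft (nat_lit 0x3) (nat_lit 114)) (.one (nat_lit 0xb000006010011600000c020124411)) (.one (nat_lit 0xc00000600f014800000c01e12a411))) (.br (Nat.shiftLeft (nat_lit 0xc00000601) (nat_lit 80)) (.one (nat_lit 0xc00000600f015800000c01e12c411)) (.br (Nat.shiftLeft (nat_lit 0xd) (nat_lit 112)) (.one (nat_lit 0xc000006010011800000c020124411)) (.one (nat_lit 0xd00000600f014a00000c01e12a411))))))) (.br (Nat.shiftLeft (nat_lit 0x1000003) (nat_lit 100)) (.br (Nat.shiftLeft (nat_lit 0xf) (nat_lit 112)) (.br (Nat.shiftLeft (nat_lit 0x7) (nat_lit 113)) (.br (Nat.shiftLeft (nat_lit 0xd00000601) (nat_lit 80)) (.one (nat_lit 0xd00000600f015a00000c01e12c411)) (.one (nat_lit 0xd000006010011a00000c020124411))) (.br (Nat.shiftLeft (nat_lit 0xe00000600f015) (nat_lit 64)) (.one (nat_lit 0xe00000600f014c00000c01e12a411)) (.br (Nat.shiftLeft (nat_lit 0xe00000601) (nat_lit 80)) (.one (nat_lit 0xe00000600f015c00000c01e12c411)) (.one (nat_lit 0xe000006010011c00000c020124411)))))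 (.br (Nat.shiftLeft (nat_lit 0xf00000601) (nat_lit 80)) (.br (Nat.shiftLeft (nat_lit 0xf00000600f015) (nat_lit 64)) (.one (nat_lit 0xf00000600f014e00000c01e12a411)) (.one (nat_lit 0xf00000600f015e00000c01e12c411))) (.br (Nat.shiftLeft (nat_lit 0x1) (nat_lit 116)) (.one (nat_lit 0xf000006010011e00000c020124411)) (.br (Nat.shiftLeft (nat_lit 0x1) (nat_lit 124)) (.one (nat_lit 0x10000006010011000000c020226411)) (.one (nat_lit 0x1000002006010011000400c040422511)))))) (.br (Nat.shiftLeft (nat_lit 0x1) (nat_lit 125)) (.br (Nat.shiftLeft (nat_lit 0x400001) (nat_lit 102)) (.br (Nat.shiftLeft (nat_lit 0x100000300601) (nat_lit 80)) (.one (nat_lit 0x100000300600f014000600c03e428511)) (.one (nat_lit 0x1000003006010011000600c040422511))) (.br (Nat.shiftLeft (nat_lit 0x100000400601) (nat_lit 80)) (.one (nat_lit 0x100000400600f014000800c03e428511)) (.br (Nat.shiftLeft (nat_lit 0x1000005) (nat_lit 100)) (.one (nat_lit 0x1000004006010011000800c040422511)) (.one (nat_lit 0x1000005006010011000a00c040422511))))) (.br (Nat.shiftLeft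 (nat_lit 0x200000300601) (nat_lit 80)) (.br (Nat.shiftLeft (nat_lit 0x2000003) (nat_lit 100)) (.one (nat_lit 0x2000002006010011000400c060822511)) (.one (nat_lit 0x200000300600f014000600c05e828511))) (.br (Nat.shiftLeft (nat_lit 0x800001) (nat_lit 102)) (.one (nat_lit 0x2000003006010011000600c060822511)) (.br (Nat.shiftLeft (nat_lit 0x200000400601) (nat_lit 80)) (.one (nat_lit 0x200000400600f014000800c05e828511)) (.one (nat_lit 0x2000004006010011000800c060822511))))))))
def t323 : k323.all (jb2 57 fl b0) = true := by decide +kernel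
noncomputable def k324 : KT := (.br (Nat.shiftLeft (nat_lit 0x400000300601) (nat_lit 80)) (.br (Nat.shiftLeft (nat_lit 0xc00001) (nat_lit 102)) (.br (Nat.shiftLeft (nat_lit 0x3000003) (nat_lit 100)) (.br (Nat.shiftLeft (nat_lit 0x3) (nat_lit 124)) (.one (nat_lit 0x2000005006010011000a00c060822511)) (.one (nat_lit 0x3000002006010011000400c080c22511))) (.br (Nat.shiftLeft (nat_lit 0x300000300601) (nat_lit 80)) (.one (nat_lit 0x300000300600f014000600c07ec28511)) (.one (nat_lit 0x3000003006010011000600c080c22511)))) (.br (Nat.shiftLeft (nat_lit 0x3000005) (nat_lit 100)) (.br (Nat.shiftLeft (nat_lit 0x300000400601) (nat_lit 80)) (.one (nat_lit 0x300000400600f014000800c07ec28511)) (.one (nat_lit 0x3000004006010011000800c080c22511))) (.br (Nat.shiftLeft (nat_lit 0x1) (nat_lit 126)) (.one (nat_lit 0x3000005006010011000a00c080c22511)) (.br (Nat.shiftLeft (nat_lit 0x4000003) (nat_lit 100)) (.one (nat_lit 0x4000002006010011000400c0a1022511)) (.one (nat_lit 0x400000300600f014000600c09f028511)))))) (.br (Nat.shiftLeft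 (nat_lit 0x5) (nat_lit 124)) (.br (Nat.shiftLeft (nat_lit 0x400000400601) (nat_lit 80)) (.br (Nat.shiftLeft (nat_lit 0x1000001) (nat_lit 102)) (.one (nat_lit 0x4000003006010011000600c0a1022511)) (.one (nat_lit 0x400000400600f014000800c09f028511))) (.br (Nat.shiftLeft (nat_lit 0x4000005) (nat_lit 100)) (.one (nat_lit 0x4000004006010011000800c0a1022511)) (.one (nat_lit 0x4000005006010011000a00c0a1022511)))) (.br (Nat.shiftLeft (nat_lit 0x500000300601) (nat_lit 80)) (.br (Nat.shiftLeft (nat_lit 0x5000003) (nat_lit 100)) (.one (nat_lit 0x5000002006010011000400c0c1422511)) (.one (nat_lit 0x500000300600f014000600c0bf428511))) (.br (Nat.shiftLeft (nat_lit 0x1400001) (nat_lit 102)) (.one (nat_lit 0x5000003006010011000600c0c1422511)) (.br (Nat.shiftLeft (nat_lit 0x500000400601) (nat_lit 80)) (.one (nat_lit 0x500000400600f014000800c0bf428511)) (.one (nat_lit 0x5000004006010011000800c0c1422511)))))))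
def t324 : k324.all (jb2 57 fl b0) = true := by decide +kernel
noncomputable def k325 : KT := (.br (Nat.shiftLeft (nat_lit 0x600000400601) (nat_lit 80)) (.br (Nat.shiftLeft (nat_lit 0x6000003) (nat_lit 100)) (.br (Nat.shiftLeft (nat_lit 0x3) (nat_lit 125)) (.one (nat_lit 0x5000005006010011000a00c0c1422511)) (.one (nat_lit 0x6000002006010011000400c0e1822511))) (.br (Nat.shiftLeft (nat_lit 0x600000300601) (nat_lit 80)) (.one (nat_lit 0x600000300600f014000600c0df828511)) (.br (Nat.shiftLeft (nat_lit 0x1800001) (nat_lit 102)) (.one (nat_lit 0x6000003006010011000600c0e1822511)) (.one (nat_lit 0x600000400600f014000800c0df828511))))) (.br (Nat.shiftLeft (nat_lit 0x7) (nat_lit 124)) (.br (Nat.shiftLeft (nat_lit 0x6000005) (nat_lit 100)) (.one (nat_lit 0x6000004006010011000800c0e1822511)) (.one (nat_lit 0x6000005006010011000a00c0e1822511))) (.br (Nat.shiftLeft (nat_lit 0x7000003) (nat_lit 100)) (.one (nat_lit 0x7000002006010011000400c101c22511)) (.br (Nat.shiftLeft (nat_lit 0x700000300601) (nat_lit 80)) (.one (nat_lit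 0x700000300600f014000600c0ffc28511)) (.one (nat_lit 0x7000003006010011000600c101c22511))))))
def t325 : k325.all (jb2 57 fl b0) = true := by decide +kernel
noncomputable def k326 : KT := (.br (Nat.shiftLeft (nat_lit 0x900000400601) (nat_lit 80)) (.br (Nat.shiftLeft (nat_lit 0x2000001) (nat_lit 102)) (.br (Nat.shiftLeft (nat_lit 0x1) (nat_lit 127)) (.br (Nat.shiftLeft (nat_lit 0x700000400601) (nat_lit 80)) (.one (nat_lit 0x700000400600f014000800c0ffc28511)) (.br (Nat.shiftLeft (nat_lit 0x7000005) (nat_lit 100)) (.one (nat_lit 0x7000004006010011000800c101c22511)) (.one (nat_lit 0x7000005006010011000a00c101c22511)))) (.br (Nat.shiftLeft (nat_lit 0x8000003) (nat_lit 100)) (.one (nat_lit 0x8000002006010011000400c122022511)) (.br (Nat.shiftLeft (nat_lit 0x800000300601) (nat_lit 80)) (.one (nat_lit 0x800000300600f014000600c120028511)) (.one (nat_lit 0x8000003006010011000600c122022511))))) (.br (Nat.shiftLeft (nat_lit 0x9) (nat_lit 124)) (.br (Nat.shiftLeft (nat_lit 0x800000400601) (nat_lit 80)) (.one (nat_lit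 0x800000400600f014000800c120028511)) (.br (Nat.shiftLeft (nat_lit 0x8000005) (nat_lit 100)) (.one (nat_lit 0x8000004006010011000800c122022511)) (.one (nat_lit 0x8000005006010011000a00c122022511)))) (.br (Nat.shiftLeft (nat_lit 0x900000300601) (nat_lit 80)) (.br (Nat.shiftLeft (nat_lit 0x9000003) (nat_lit 100)) (.one (nat_lit 0x9000002006010011000400c142422511)) (.one (nat_lit 0x900000300600f014000600c140428511))) (.br (Nat.shiftLeft (nat_lit 0x2400001) (nat_lit 102)) (.one (nat_lit 0x9000003006010011000600c142422511)) (.one (nat_lit 0x900000400600f014000800c140428511)))))) (.br (Nat.shiftLeft (nat_lit 0xa000005) (nat_lit 100)) (.br (Nat.shiftLeft (nat_lit 0xa000003) (nat_lit 100)) (.br (Nat.shiftLeft (nat_lit 0x9000005) (nat_lit 100)) (.one (nat_lit 0x9000004006010011000800c142422511)) (.br (Nat.shiftLeft (nat_lit 0x5) (nat_lit 125)) (.one (nat_lit 0x9000005006010011000a00c142422511)) (.one (nat_lit 0xa000002006010011000400c162822511)))) (.br (Nat.shiftLeft (nat_lit 0x2800001) (nat_lit 102)) (.br (Nat.shiftLeft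 (nat_lit 0xa00000300601) (nat_lit 80)) (.one (nat_lit 0xa00000300600f014000600c160828511)) (.one (nat_lit 0xa000003006010011000600c162822511))) (.br (Nat.shiftLeft (nat_lit 0xa00000400601) (nat_lit 80)) (.one (nat_lit 0xa00000400600f014000800c160828511)) (.one (nat_lit 0xa000004006010011000800c162822511))))) (.br (Nat.shiftLeft (nat_lit 0xb00000300601) (nat_lit 80)) (.br (Nat.shiftLeft (nat_lit 0xb) (nat_lit 124)) (.one (nat_lit 0xa000005006010011000a00c162822511)) (.br (Nat.shiftLeft (nat_lit 0xb000003) (nat_lit 100)) (.one (nat_lit 0xb000002006010011000400c182c22511)) (.one (nat_lit 0xb00000300600f014000600c180c28511)))) (.br (Nat.shiftLeft (nat_lit 0xb00000400601) (nat_lit 80)) (.br (Nat.shiftLeft (nat_lit 0x2c00001) (nat_lit 102)) (.one (nat_lit 0xb000003006010011000600c182c22511)) (.one (nat_lit 0xb00000400600f014000800c180c28511))) (.br (Nat.shiftLeft (nat_lit 0xb000005) (nat_lit 100)) (.one (nat_lit 0xb000004006010011000800c182c22511)) (.one (nat_lit 0xb000005006010011000a00c182c22511)))))))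
def t326 : k326.all (jb2 57 fl b0) = true := by decide +kernel
noncomputable def k327 : KT := (.br (Nat.shiftLeft (nat_lit 0xd00000300601) (nat_lit 80)) (.br (Nat.shiftLeft (nat_lit 0xc00000400601) (nat_lit 80)) (.br (Nat.shiftLeft (nat_lit 0xc00000300601) (nat_lit 80)) (.br (Nat.shiftLeft (nat_lit 0xc000003) (nat_lit 100)) (.one (nat_lit 0xc000002006010011000400c1a3022511)) (.one (nat_lit 0xc00000300600f014000600c1a1028511))) (.br (Nat.shiftLeft (nat_lit 0x3000001) (nat_lit 102)) (.one (nat_lit 0xc000003006010011000600c1a3022511)) (.one (nat_lit 0xc00000400600f014000800c1a1028511)))) (.br (Nat.shiftLeft (nat_lit 0xd) (nat_lit 124)) (.br (Nat.shiftLeft (nat_lit 0xc000005) (nat_lit 100)) (.one (nat_lit 0xc000004006010011000800c1a3022511)) (.one (nat_lit 0xc000005006010011000a00c1a3022511))) (.br (Nat.shiftLeft (nat_lit 0xd000003) (nat_lit 100)) (.one (nat_lit 0xd000002006010011000400c1c3422511)) (.one (nat_lit 0xd00000300600f014000600c1c1428511))))) (.br (Nat.shiftLeft (nat_lit 0xe000003) (nat_lit 100))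 (.br (Nat.shiftLeft (nat_lit 0xd000005) (nat_lit 100)) (.br (Nat.shiftLeft (nat_lit 0x3400001) (nat_lit 102)) (.one (nat_lit 0xd000003006010011000600c1c3422511)) (.one (nat_lit 0xd000004006010011000800c1c3422511))) (.br (Nat.shiftLeft (nat_lit 0x7) (nat_lit 125)) (.one (nat_lit 0xd000005006010011000a00c1c3422511)) (.one (nat_lit 0xe000002006010011000400c1e3822511)))) (.br (Nat.shiftLeft (nat_lit 0xf) (nat_lit 124)) (.br (Nat.shiftLeft (nat_lit 0x3800001) (nat_lit 102)) (.one (nat_lit 0xe000003006010011000600c1e3822511)) (.one (nat_lit 0xe000004006010011000800c1e3822511))) (.br (Nat.shiftLeft (nat_lit 0xf000003) (nat_lit 100)) (.one (nat_lit 0xf000002006010011000400c203c22511)) (.br (Nat.shiftLeft (nat_lit 0x1) (nat_lit 128)) (.one (nat_lit 0xf000003006010011000600c203c22511)) (.one (nat_lit 0x10000002006010011000400c224022511)))))))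
def t327 : k327.all (jb2 57 fl b0) = true := by decide +kernel
noncomputable def s18 : KT := (.br (nat_lit 0x1003006010011200600c020022650) (.br (nat_lit 0x400600f014000800c01e029500) (.br (nat_lit 0x1006010011000200c020022540) (.br (nat_lit 0x100600f015000200c01e02a540) k307 k308) (.br (nat_lit 0x200600f014000400c01e028540) k309 (.br (nat_lit 0x300600f014000600c01e029500) k310 k311))) (.br (nat_lit 0x500600f014000a00c01e028540) (.br (nat_lit 0x4006010011000800c020023500) k312 k313) (.br (nat_lit 0x1000006010011200000c020022411) k314 (.br (nat_lit 0x1002006010011200400c020022650) k315 k316)))) (.br (nat_lit 0x3004006010011600800c020022650) (.br (nat_lit 0x200300600f014400600c01e028650) (.br (nat_lit 0x2000006010011400000c020022411) k317 k318) (.br (nat_lit 0x200400600f014400800c01e028650) k319 (.br (nat_lit 0x3000006010011600000c020022411) k320 k321))) (.br (nat_lit 0x5000004006010011000800c0c1422511) (.br (nat_lit 0x600000600f015c00000c01e02a411) k322 (.br (nat_lit 0x2000004006010011000800c060822511) k323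 k324)) (.br (nat_lit 0x7000003006010011000600c101c22511) k325 (.br (nat_lit 0xb000005006010011000a00c182c22511) k326 k327)))))
noncomputable def u18 : KT := (.br (Nat.shiftLeft (nat_lit 0x600f015) (nat_lit 64)) (.one (nat_lit 0x600f014000000c01e028430)) (.br (Nat.shiftLeft (nat_lit 0x601) (nat_lit 80)) (.one (nat_lit 0x600f015000000c01e02a430)) (.one (nat_lit 0x6010011000000c020022430))))
def w18 : u18.all (wj 57 s18) = true := by decide +kernel
def o18 : OkW 57 (jb2 57 fl) u18 := .lift s18 _ (.br _ _ _ (.br _ _ _ (.br _ _ _ (.br _ _ _ (.leaf b0 k307 t307) (.leaf b0 k308 t308)) (.br _ _ _ (.leaf b0 k309 t309) (.br _ _ _ (.leaf b0 k310 t310) (.leaf b0 k311 t311)))) (.br _ _ _ (.br _ _ _ (.leaf b0 k312 t312) (.leaf b0 k313 t313)) (.br _ _ _ (.leaf b0 k314 t314) (.br _ _ _ (.leaf b0 k315 t315) (.leaf b0 k316 t316))))) (.br _ _ _ (.br _ _ _ (.br _ _ _ (.leaf b0 k317 t317) (.leaf b0 k318 t318)) (.br _ _ _ (.leaf b0 k319 t319) (.br _ _ _ (.leaf b0 k320 t320) (.leaf b0 k321 t321)))) (.br _ _ _ (.br _ _ _ (.leaf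 b0 k322 t322) (.br _ _ _ (.leaf b0 k323 t323) (.leaf b0 k324 t324))) (.br _ _ _ (.leaf b0 k325 t325) (.br _ _ _ (.leaf b0 k326 t326) (.leaf b0 k327 t327)))))) w18
noncomputable def k328 : KT := (.br (Nat.shiftLeft (nat_lit 0x1804005) (nat_lit 66)) (.br (Nat.shiftLeft (nat_lit 0x6010013) (nat_lit 64)) (.one (nat_lit 0x6010012000000c020025400)) (.one (nat_lit 0x6010013000000c020027400))) (.br (Nat.shiftLeft (nat_lit 0x6011) (nat_lit 76)) (.one (nat_lit 0x6010014000000c020029400)) (.br (Nat.shiftLeft (nat_lit 0x1) (nat_lit 100)) (.one (nat_lit 0x6011012000000c022025400)) (.one (nat_lit 0x1006010012000200c020024540)))))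
def t328 : k328.all (jb2 57 fl b0) = true := by decide +kernel
noncomputable def k329 : KT := (.br (Nat.shiftLeft (nat_lit 0x401804005) (nat_lit 66)) (.one (nat_lit 0x1006010013000200c020026540)) (.one (nat_lit 0x1006010014000200c020028540)))
def t329 : k329.all (jb2 57 fl b0) = true := by decide +kernel
noncomputable def k330 : KT := (.br (Nat.shiftLeft (nat_lit 0x1) (nat_lit 101)) (.one (nat_lit 0x1006011012000200c022024540)) (.one (nat_lit 0x2006010012000400c020025500)))
def t330 : k330.all (jb2 57 fl b0) = true := by decide +kernel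
noncomputable def k331 : KT := (.one (nat_lit 0x2006010013000400c020026540))
def t331 : k331.all (jb2 57 fl b0) = true := by decide +kernel
noncomputable def k332 : KT := (.one (nat_lit 0x2006010014000400c020028540))
def t332 : k332.all (jb2 57 fl b0) = true := by decide +kernel
noncomputable def k333 : KT := (.br (Nat.shiftLeft (nat_lit 0x3) (nat_lit 100)) (.one (nat_lit 0x2006011012000400c022024540)) (.br (Nat.shiftLeft (nat_lit 0x3006010013) (nat_lit 64)) (.one (nat_lit 0x3006010012000600c020025500)) (.one (nat_lit 0x3006010013000600c020027500))))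
def t333 : k333.all (jb2 57 fl b0) = true := by decide +kernel
noncomputable def k334 : KT := (.br (Nat.shiftLeft (nat_lit 0x1) (nat_lit 102)) (.br (Nat.shiftLeft (nat_lit 0x3006011) (nat_lit 76)) (.one (nat_lit 0x3006010014000600c020028540)) (.one (nat_lit 0x3006011012000600c022025500))) (.br (Nat.shiftLeft (nat_lit 0x4006010013) (nat_lit 64)) (.one (nat_lit 0x4006010012000800c020025500)) (.one (nat_lit 0x4006010013000800c020027500))))
def t334 : k334.all (jb2 57 fl b0) = true := by decide +kernel
noncomputable def k335 : KT := (.br (Nat.shiftLeft (nat_lit 0x4006011) (nat_lit 76)) (.one (nat_lit 0x4006010014000800c020028540)) (.br (Nat.shiftLeft (nat_lit 0x5) (nat_lit 100)) (.one (nat_lit 0x4006011012000800c022025500)) (.one (nat_lit 0x5006010012000a00c020025500))))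
def t335 : k335.all (jb2 57 fl b0) = true := by decide +kernel
noncomputable def k336 : KT := (.one (nat_lit 0x5006010013000a00c020026540))
def t336 : k336.all (jb2 57 fl b0) = true := by decide +kernel
noncomputable def k337 : KT := (.one (nat_lit 0x5006010014000a00c020028540))
def t337 : k337.all (jb2 57 fl b0) = true := by decide +kernel
noncomputable def k338 : KT := (.br (Nat.shiftLeft (nat_lit 0x1000006010013) (nat_lit 64)) (.br (Nat.shiftLeft (nat_lit 0x1) (nat_lit 112)) (.one (nat_lit 0x5006011012000a00c022024540)) (.one (nat_lit 0x1000006010012200000c020024411))) (.br (Nat.shiftLeft (nat_lit 0x400001804005) (nat_lit 66)) (.one (nat_lit 0x1000006010013200000c020026411)) (.br (Nat.shiftLeft (nat_lit 0x1000006011) (nat_lit 76)) (.one (nat_lit 0x1000006010014200000c020028411)) (.one (nat_lit 0x1000006011012200000c022024411)))))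
def t338 : k338.all (jb2 57 fl b0) = true := by decide +kernel
noncomputable def k339 : KT := (.br (Nat.shiftLeft (nat_lit 0x1003) (nat_lit 100)) (.one (nat_lit 0x1002006010012200400c020024650)) (.one (nat_lit 0x1003006010012200600c020024650)))
def t339 : k339.all (jb2 57 fl b0) = true := by decide +kernel
noncomputable def k340 : KT := (.br (Nat.shiftLeft (nat_lit 0x1003006011) (nat_lit 76)) (.one (nat_lit 0x1003006010013200600c020026650)) (.br (Nat.shiftLeft (nat_lit 0x401) (nat_lit 102)) (.one (nat_lit 0x1003006011012200600c022024650)) (.one (nat_lit 0x1004006010012200800c020024650))))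
def t340 : k340.all (jb2 57 fl b0) = true := by decide +kernel
noncomputable def k341 : KT := (.br (Nat.shiftLeft (nat_lit 0x1) (nat_lit 113)) (.br (Nat.shiftLeft (nat_lit 0x1004006011) (nat_lit 76)) (.one (nat_lit 0x1004006010013200800c020026650)) (.br (Nat.shiftLeft (nat_lit 0x1005) (nat_lit 100)) (.one (nat_lit 0x1004006011012200800c022024650)) (.one (nat_lit 0x1005006010012200a00c020024650)))) (.br (Nat.shiftLeft (nat_lit 0x800001804005) (nat_lit 66)) (.br (Nat.shiftLeft (nat_lit 0x2000006010013) (nat_lit 64)) (.one (nat_lit 0x2000006010012400000c020024411)) (.one (nat_lit 0x2000006010013400000c020026411))) (.br (Nat.shiftLeft (nat_lit 0x2000006011) (nat_lit 76)) (.one (nat_lit 0x2000006010014400000c020028411)) (.one (nat_lit 0x2000006011012400000c022024411)))))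
def t341 : k341.all (jb2 57 fl b0) = true := by decide +kernel
noncomputable def k342 : KT := (.br (Nat.shiftLeft (nat_lit 0x2003006010013) (nat_lit 64)) (.one (nat_lit 0x2003006010012400600c020024650)) (.one (nat_lit 0x2003006010013400600c020026650)))
def t342 : k342.all (jb2 57 fl b0) = true := by decide +kernel
noncomputable def k343 : KT := (.br (Nat.shiftLeft (nat_lit 0x801) (nat_lit 102)) (.one (nat_lit 0x2003006011012400600c022024650)) (.one (nat_lit 0x2004006010012400800c020024650)))
def t343 : k343.all (jb2 57 fl b0) = true := by decide +kernel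
noncomputable def k344 : KT := (.br (Nat.shiftLeft (nat_lit 0x3) (nat_lit 112)) (.br (Nat.shiftLeft (nat_lit 0x2004006011) (nat_lit 76)) (.one (nat_lit 0x2004006010013400800c020026650)) (.br (Nat.shiftLeft (nat_lit 0x2005) (nat_lit 100)) (.one (nat_lit 0x2004006011012400800c022024650)) (.one (nat_lit 0x2005006010012400a00c020024650)))) (.br (Nat.shiftLeft (nat_lit 0xc00001804005) (nat_lit 66)) (.br (Nat.shiftLeft (nat_lit 0x3000006010013) (nat_lit 64)) (.one (nat_lit 0x3000006010012600000c020024411)) (.one (nat_lit 0x3000006010013600000c020026411))) (.br (Nat.shiftLeft (nat_lit 0x3000006011) (nat_lit 76)) (.one (nat_lit 0x3000006010014600000c020028411)) (.one (nat_lit 0x3000006011012600000c022024411)))))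
def t344 : k344.all (jb2 57 fl b0) = true := by decide +kernel
noncomputable def k345 : KT := (.br (Nat.shiftLeft (nat_lit 0x3004006010013) (nat_lit 64)) (.one (nat_lit 0x3004006010012600800c020024650)) (.br (Nat.shiftLeft (nat_lit 0x3004006011) (nat_lit 76)) (.one (nat_lit 0x3004006010013600800c020026650)) (.one (nat_lit 0x3004006011012600800c022024650))))
def t345 : k345.all (jb2 57 fl b0) = true := by decide +kernel
noncomputable def k346 : KT := (.br (Nat.shiftLeft (nat_lit 0x1400001804005) (nat_lit 66)) (.br (Nat.shiftLeft (nat_lit 0x4000006011) (nat_lit 76)) (.br (Nat.shiftLeft (nat_lit 0x4000006010013) (nat_lit 64)) (.br (Nat.shiftLeft (nat_lit 0x1) (nat_lit 114)) (.one (nat_lit 0x3005006010012600a00c020024650)) (.one (nat_lit 0x4000006010012800000c020024411))) (.br (Nat.shiftLeft (nat_lit 0x1000001804005) (nat_lit 66)) (.one (nat_lit 0x4000006010013800000c020026411)) (.one (nat_lit 0x4000006010014800000c020028411)))) (.br (Nat.shiftLeft (nat_lit 0x5) (nat_lit 112)) (.br (Nat.shiftLeft (nat_lit 0x1001)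 (nat_lit 102)) (.one (nat_lit 0x4000006011012800000c022024411)) (.one (nat_lit 0x4005006010012800a00c020024650))) (.br (Nat.shiftLeft (nat_lit 0x5000006010013) (nat_lit 64)) (.one (nat_lit 0x5000006010012a00000c020024411)) (.one (nat_lit 0x5000006010013a00000c020026411))))) (.br (Nat.shiftLeft (nat_lit 0x1800001804005) (nat_lit 66)) (.br (Nat.shiftLeft (nat_lit 0x3) (nat_lit 113)) (.br (Nat.shiftLeft (nat_lit 0x5000006011) (nat_lit 76)) (.one (nat_lit 0x5000006010014a00000c020028411)) (.one (nat_lit 0x5000006011012a00000c022024411))) (.br (Nat.shiftLeft (nat_lit 0x6000006010013) (nat_lit 64)) (.one (nat_lit 0x6000006010012c00000c020024411)) (.one (nat_lit 0x6000006010013c00000c020026411)))) (.br (Nat.shiftLeft (nat_lit 0x7) (nat_lit 112)) (.br (Nat.shiftLeft (nat_lit 0x6000006011) (nat_lit 76)) (.one (nat_lit 0x6000006010014c00000c020028411)) (.one (nat_lit 0x6000006011012c00000c022024411))) (.br (Nat.shiftLeft (nat_lit 0x7000006010013) (nat_lit 64)) (.one (nat_lit 0x7000006010012e00000c020024411)) (.one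 (nat_lit 0x7000006010013e00000c020026411))))))
def t346 : k346.all (jb2 57 fl b0) = true := by decide +kernel
noncomputable def k347 : KT := (.br (Nat.shiftLeft (nat_lit 0x3000001804005) (nat_lit 66)) (.br (Nat.shiftLeft (nat_lit 0x5) (nat_lit 113)) (.br (Nat.shiftLeft (nat_lit 0x8000006011) (nat_lit 76)) (.br (Nat.shiftLeft (nat_lit 0x1) (nat_lit 115)) (.br (Nat.shiftLeft (nat_lit 0x7000006011) (nat_lit 76)) (.one (nat_lit 0x7000006010014e00000c020028411)) (.one (nat_lit 0x7000006011012e00000c022024411))) (.br (Nat.shiftLeft (nat_lit 0x8000006010013) (nat_lit 64)) (.one (nat_lit 0x8000006010012000000c020126411)) (.br (Nat.shiftLeft (nat_lit 0x2000001804005) (nat_lit 66)) (.one (nat_lit 0x8000006010013000000c020128411)) (.one (nat_lit 0x8000006010014000000c02012a411))))) (.br (Nat.shiftLeft (nat_lit 0x9000006010013) (nat_lit 64)) (.br (Nat.shiftLeft (nat_lit 0x9) (nat_lit 112)) (.one (nat_lit 0x8000006011012000000c022126411)) (.one (nat_lit 0x9000006010012200000c020126411))) (.br (Nat.shiftLeft (nat_lit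 0x2400001804005) (nat_lit 66)) (.one (nat_lit 0x9000006010013200000c020128411)) (.br (Nat.shiftLeft (nat_lit 0x9000006011) (nat_lit 76)) (.one (nat_lit 0x9000006010014200000c02012a411)) (.one (nat_lit 0x9000006011012200000c022126411)))))) (.br (Nat.shiftLeft (nat_lit 0xb000006010013) (nat_lit 64)) (.br (Nat.shiftLeft (nat_lit 0x2800001804005) (nat_lit 66)) (.br (Nat.shiftLeft (nat_lit 0xa000006010013) (nat_lit 64)) (.one (nat_lit 0xa000006010012400000c020126411)) (.one (nat_lit 0xa000006010013400000c020128411))) (.br (Nat.shiftLeft (nat_lit 0xa000006011) (nat_lit 76)) (.one (nat_lit 0xa000006010014400000c02012a411)) (.br (Nat.shiftLeft (nat_lit 0xb) (nat_lit 112)) (.one (nat_lit 0xa000006011012400000c022126411)) (.one (nat_lit 0xb000006010012600000c020126411))))) (.br (Nat.shiftLeft (nat_lit 0xb000006011) (nat_lit 76)) (.br (Nat.shiftLeft (nat_lit 0x2c00001804005) (nat_lit 66)) (.one (nat_lit 0xb000006010013600000c020128411)) (.one (nat_lit 0xb000006010014600000c02012a411))) (.br (Nat.shiftLeft (nat_lit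 0x3) (nat_lit 114)) (.one (nat_lit 0xb000006011012600000c022126411)) (.br (Nat.shiftLeft (nat_lit 0xc000006010013) (nat_lit 64)) (.one (nat_lit 0xc000006010012800000c020126411)) (.one (nat_lit 0xc000006010013800000c020128411))))))) (.br (Nat.shiftLeft (nat_lit 0xf) (nat_lit 112)) (.br (Nat.shiftLeft (nat_lit 0xd000006011) (nat_lit 76)) (.br (Nat.shiftLeft (nat_lit 0xd) (nat_lit 112)) (.br (Nat.shiftLeft (nat_lit 0xc000006011) (nat_lit 76)) (.one (nat_lit 0xc000006010014800000c02012a411)) (.one (nat_lit 0xc000006011012800000c022126411))) (.br (Nat.shiftLeft (nat_lit 0xd000006010013) (nat_lit 64)) (.one (nat_lit 0xd000006010012a00000c020126411)) (.br (Nat.shiftLeft (nat_lit 0x3400001804005) (nat_lit 66)) (.one (nat_lit 0xd000006010013a00000c020128411)) (.one (nat_lit 0xd000006010014a00000c02012a411))))) (.br (Nat.shiftLeft (nat_lit 0xe000006010013) (nat_lit 64)) (.br (Nat.shiftLeft (nat_lit 0x7) (nat_lit 113)) (.one (nat_lit 0xd000006011012a00000c022126411)) (.one (nat_lit 0xe000006010012c00000c020126411)))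 (.br (Nat.shiftLeft (nat_lit 0x3800001804005) (nat_lit 66)) (.one (nat_lit 0xe000006010013c00000c020128411)) (.br (Nat.shiftLeft (nat_lit 0xe000006011) (nat_lit 76)) (.one (nat_lit 0xe000006010014c00000c02012a411)) (.one (nat_lit 0xe000006011012c00000c022126411)))))) (.br (Nat.shiftLeft (nat_lit 0x10000006010013) (nat_lit 64)) (.br (Nat.shiftLeft (nat_lit 0x3c00001804005) (nat_lit 66)) (.br (Nat.shiftLeft (nat_lit 0xf000006010013) (nat_lit 64)) (.one (nat_lit 0xf000006010012e00000c020126411)) (.one (nat_lit 0xf000006010013e00000c020128411))) (.br (Nat.shiftLeft (nat_lit 0xf000006011) (nat_lit 76)) (.one (nat_lit 0xf000006010014e00000c02012a411)) (.br (Nat.shiftLeft (nat_lit 0x1) (nat_lit 116)) (.one (nat_lit 0xf000006011012e00000c022126411)) (.one (nat_lit 0x10000006010012000000c020228411))))) (.br (Nat.shiftLeft (nat_lit 0x1) (nat_lit 124)) (.br (Nat.shiftLeft (nat_lit 0x10000006011) (nat_lit 76)) (.one (nat_lit 0x10000006010013000000c02022a411)) (.one (nat_lit 0x10000006011012000000c022228411))) (.br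 (Nat.shiftLeft (nat_lit 0x1000003) (nat_lit 100)) (.one (nat_lit 0x1000002006010012000400c040424511)) (.br (Nat.shiftLeft (nat_lit 0x1000003006010013) (nat_lit 64)) (.one (nat_lit 0x1000003006010012000600c040424511)) (.one (nat_lit 0x1000003006010013000600c040426511))))))))
def t347 : k347.all (jb2 57 fl b0) = true := by decide +kernel
noncomputable def k348 : KT := (.br (Nat.shiftLeft (nat_lit 0x3000003006011) (nat_lit 76)) (.br (Nat.shiftLeft (nat_lit 0x2000003006011) (nat_lit 76)) (.br (Nat.shiftLeft (nat_lit 0x1000005) (nat_lit 100)) (.br (Nat.shiftLeft (nat_lit 0x1000004006010013) (nat_lit 64)) (.br (Nat.shiftLeft (nat_lit 0x400001) (nat_lit 102)) (.one (nat_lit 0x1000003006011012000600c042424511)) (.one (nat_lit 0x1000004006010012000800c040424511))) (.br (Nat.shiftLeft (nat_lit 0x1000004006011) (nat_lit 76)) (.one (nat_lit 0x1000004006010013000800c040426511)) (.one (nat_lit 0x1000004006011012000800c042424511)))) (.br (Nat.shiftLeft (nat_lit 0x2000003) (nat_lit 100)) (.br (Nat.shiftLeft (nat_lit 0x1)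 (nat_lit 125)) (.one (nat_lit 0x1000005006010012000a00c040424511)) (.one (nat_lit 0x2000002006010012000400c060824511))) (.br (Nat.shiftLeft (nat_lit 0x2000003006010013) (nat_lit 64)) (.one (nat_lit 0x2000003006010012000600c060824511)) (.one (nat_lit 0x2000003006010013000600c060826511))))) (.br (Nat.shiftLeft (nat_lit 0x2000005) (nat_lit 100)) (.br (Nat.shiftLeft (nat_lit 0x2000004006010013) (nat_lit 64)) (.br (Nat.shiftLeft (nat_lit 0x800001) (nat_lit 102)) (.one (nat_lit 0x2000003006011012000600c062824511)) (.one (nat_lit 0x2000004006010012000800c060824511))) (.br (Nat.shiftLeft (nat_lit 0x2000004006011) (nat_lit 76)) (.one (nat_lit 0x2000004006010013000800c060826511)) (.one (nat_lit 0x2000004006011012000800c062824511)))) (.br (Nat.shiftLeft (nat_lit 0x3000003) (nat_lit 100)) (.br (Nat.shiftLeft (nat_lit 0x3) (nat_lit 124)) (.one (nat_lit 0x2000005006010012000a00c060824511)) (.one (nat_lit 0x3000002006010012000400c080c24511))) (.br (Nat.shiftLeft (nat_lit 0x3000003006010013) (nat_lit 64)) (.one (nat_lit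 0x3000003006010012000600c080c24511)) (.one (nat_lit 0x3000003006010013000600c080c26511)))))) (.br (Nat.shiftLeft (nat_lit 0x4000003006011) (nat_lit 76)) (.br (Nat.shiftLeft (nat_lit 0x3000005) (nat_lit 100)) (.br (Nat.shiftLeft (nat_lit 0x3000004006010013) (nat_lit 64)) (.br (Nat.shiftLeft (nat_lit 0xc00001) (nat_lit 102)) (.one (nat_lit 0x3000003006011012000600c082c24511)) (.one (nat_lit 0x3000004006010012000800c080c24511))) (.br (Nat.shiftLeft (nat_lit 0x3000004006011) (nat_lit 76)) (.one (nat_lit 0x3000004006010013000800c080c26511)) (.one (nat_lit 0x3000004006011012000800c082c24511)))) (.br (Nat.shiftLeft (nat_lit 0x4000003) (nat_lit 100)) (.br (Nat.shiftLeft (nat_lit 0x1) (nat_lit 126)) (.one (nat_lit 0x3000005006010012000a00c080c24511)) (.one (nat_lit 0x4000002006010012000400c0a1024511))) (.br (Nat.shiftLeft (nat_lit 0x4000003006010013) (nat_lit 64)) (.one (nat_lit 0x4000003006010012000600c0a1024511)) (.one (nat_lit 0x4000003006010013000600c0a1026511))))) (.br (Nat.shiftLeft (nat_lit 0x4000005) (nat_lit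 100)) (.br (Nat.shiftLeft (nat_lit 0x4000004006010013) (nat_lit 64)) (.br (Nat.shiftLeft (nat_lit 0x1000001) (nat_lit 102)) (.one (nat_lit 0x4000003006011012000600c0a3024511)) (.one (nat_lit 0x4000004006010012000800c0a1024511))) (.br (Nat.shiftLeft (nat_lit 0x4000004006011) (nat_lit 76)) (.one (nat_lit 0x4000004006010013000800c0a1026511)) (.one (nat_lit 0x4000004006011012000800c0a3024511)))) (.br (Nat.shiftLeft (nat_lit 0x5000003) (nat_lit 100)) (.br (Nat.shiftLeft (nat_lit 0x5) (nat_lit 124)) (.one (nat_lit 0x4000005006010012000a00c0a1024511)) (.one (nat_lit 0x5000002006010012000400c0c1424511))) (.br (Nat.shiftLeft (nat_lit 0x5000003006010013) (nat_lit 64)) (.one (nat_lit 0x5000003006010012000600c0c1424511)) (.one (nat_lit 0x5000003006010013000600c0c1426511)))))))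
def t348 : k348.all (jb2 57 fl b0) = true := by decide +kernel
noncomputable def k349 : KT := (.br (Nat.shiftLeft (nat_lit 0x6000003) (nat_lit 100)) (.br (Nat.shiftLeft (nat_lit 0x5000004006011) (nat_lit 76)) (.br (Nat.shiftLeft (nat_lit 0x1400001) (nat_lit 102)) (.one (nat_lit 0x5000003006011012000600c0c3424511)) (.br (Nat.shiftLeft (nat_lit 0x5000004006010013) (nat_lit 64)) (.one (nat_lit 0x5000004006010012000800c0c1424511)) (.one (nat_lit 0x5000004006010013000800c0c1426511)))) (.br (Nat.shiftLeft (nat_lit 0x5000005) (nat_lit 100)) (.one (nat_lit 0x5000004006011012000800c0c3424511)) (.br (Nat.shiftLeft (nat_lit 0x3) (nat_lit 125)) (.one (nat_lit 0x5000005006010012000a00c0c1424511)) (.one (nat_lit 0x6000002006010012000400c0e1824511))))) (.br (Nat.shiftLeft (nat_lit 0x1800001) (nat_lit 102)) (.br (Nat.shiftLeft (nat_lit 0x6000003006010013) (nat_lit 64)) (.one (nat_lit 0x6000003006010012000600c0e1824511)) (.br (Nat.shiftLeft (nat_lit 0x6000003006011) (nat_lit 76)) (.one (nat_lit 0x6000003006010013000600c0e1826511))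 (.one (nat_lit 0x6000003006011012000600c0e3824511)))) (.br (Nat.shiftLeft (nat_lit 0x6000004006011) (nat_lit 76)) (.br (Nat.shiftLeft (nat_lit 0x6000004006010013) (nat_lit 64)) (.one (nat_lit 0x6000004006010012000800c0e1824511)) (.one (nat_lit 0x6000004006010013000800c0e1826511))) (.br (Nat.shiftLeft (nat_lit 0x6000005) (nat_lit 100)) (.one (nat_lit 0x6000004006011012000800c0e3824511)) (.one (nat_lit 0x6000005006010012000a00c0e1824511))))))
def t349 : k349.all (jb2 57 fl b0) = true := by decide +kernel
noncomputable def k350 : KT := (.br (Nat.shiftLeft (nat_lit 0x2000001) (nat_lit 102)) (.br (Nat.shiftLeft (nat_lit 0x7000004006011) (nat_lit 76)) (.br (Nat.shiftLeft (nat_lit 0x7000003006011) (nat_lit 76)) (.br (Nat.shiftLeft (nat_lit 0x7000003) (nat_lit 100)) (.one (nat_lit 0x7000002006010012000400c101c24511)) (.br (Nat.shiftLeft (nat_lit 0x7000003006010013) (nat_lit 64)) (.one (nat_lit 0x7000003006010012000600c101c24511)) (.one (nat_lit 0x7000003006010013000600c101c26511)))) (.br (Nat.shiftLeft (nat_lit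 0x1c00001) (nat_lit 102)) (.one (nat_lit 0x7000003006011012000600c103c24511)) (.br (Nat.shiftLeft (nat_lit 0x7000004006010013) (nat_lit 64)) (.one (nat_lit 0x7000004006010012000800c101c24511)) (.one (nat_lit 0x7000004006010013000800c101c26511))))) (.br (Nat.shiftLeft (nat_lit 0x8000003) (nat_lit 100)) (.br (Nat.shiftLeft (nat_lit 0x7000005) (nat_lit 100)) (.one (nat_lit 0x7000004006011012000800c103c24511)) (.br (Nat.shiftLeft (nat_lit 0x1) (nat_lit 127)) (.one (nat_lit 0x7000005006010012000a00c101c24511)) (.one (nat_lit 0x8000002006010012000400c122024511)))) (.br (Nat.shiftLeft (nat_lit 0x8000003006010013) (nat_lit 64)) (.one (nat_lit 0x8000003006010012000600c122024511)) (.br (Nat.shiftLeft (nat_lit 0x8000003006011) (nat_lit 76)) (.one (nat_lit 0x8000003006010013000600c122026511)) (.one (nat_lit 0x8000003006011012000600c124024511)))))) (.br (Nat.shiftLeft (nat_lit 0x9000003006010013) (nat_lit 64)) (.br (Nat.shiftLeft (nat_lit 0x8000005) (nat_lit 100)) (.br (Nat.shiftLeft (nat_lit 0x8000004006010013) (nat_lit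 64)) (.one (nat_lit 0x8000004006010012000800c122024511)) (.br (Nat.shiftLeft (nat_lit 0x8000004006011) (nat_lit 76)) (.one (nat_lit 0x8000004006010013000800c122026511)) (.one (nat_lit 0x8000004006011012000800c124024511)))) (.br (Nat.shiftLeft (nat_lit 0x9) (nat_lit 124)) (.one (nat_lit 0x8000005006010012000a00c122024511)) (.br (Nat.shiftLeft (nat_lit 0x9000003) (nat_lit 100)) (.one (nat_lit 0x9000002006010012000400c142424511)) (.one (nat_lit 0x9000003006010012000600c142424511))))) (.br (Nat.shiftLeft (nat_lit 0x9000004006010013) (nat_lit 64)) (.br (Nat.shiftLeft (nat_lit 0x9000003006011) (nat_lit 76)) (.one (nat_lit 0x9000003006010013000600c142426511)) (.br (Nat.shiftLeft (nat_lit 0x2400001) (nat_lit 102)) (.one (nat_lit 0x9000003006011012000600c144424511)) (.one (nat_lit 0x9000004006010012000800c142424511)))) (.br (Nat.shiftLeft (nat_lit 0x9000004006011) (nat_lit 76)) (.one (nat_lit 0x9000004006010013000800c142426511)) (.br (Nat.shiftLeft (nat_lit 0x9000005) (nat_lit 100)) (.one (nat_lit 0x9000004006011012000800c144424511))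 (.one (nat_lit 0x9000005006010012000a00c142424511)))))))
def t350 : k350.all (jb2 57 fl b0) = true := by decide +kernel
noncomputable def k351 : KT := (.br (Nat.shiftLeft (nat_lit 0x3) (nat_lit 126)) (.br (Nat.shiftLeft (nat_lit 0xb) (nat_lit 124)) (.br (Nat.shiftLeft (nat_lit 0x2800001) (nat_lit 102)) (.br (Nat.shiftLeft (nat_lit 0xa000003006010013) (nat_lit 64)) (.br (Nat.shiftLeft (nat_lit 0xa000003) (nat_lit 100)) (.one (nat_lit 0xa000002006010012000400c162824511)) (.one (nat_lit 0xa000003006010012000600c162824511))) (.br (Nat.shiftLeft (nat_lit 0xa000003006011) (nat_lit 76)) (.one (nat_lit 0xa000003006010013000600c162826511)) (.one (nat_lit 0xa000003006011012000600c164824511)))) (.br (Nat.shiftLeft (nat_lit 0xa000004006011) (nat_lit 76)) (.br (Nat.shiftLeft (nat_lit 0xa000004006010013) (nat_lit 64)) (.one (nat_lit 0xa000004006010012000800c162824511)) (.one (nat_lit 0xa000004006010013000800c162826511))) (.br (Nat.shiftLeft (nat_lit 0xa000005) (nat_lit 100)) (.one (nat_lit 0xa000004006011012000800c164824511))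 (.one (nat_lit 0xa000005006010012000a00c162824511))))) (.br (Nat.shiftLeft (nat_lit 0x2c00001) (nat_lit 102)) (.br (Nat.shiftLeft (nat_lit 0xb000003006010013) (nat_lit 64)) (.br (Nat.shiftLeft (nat_lit 0xb000003) (nat_lit 100)) (.one (nat_lit 0xb000002006010012000400c182c24511)) (.one (nat_lit 0xb000003006010012000600c182c24511))) (.br (Nat.shiftLeft (nat_lit 0xb000003006011) (nat_lit 76)) (.one (nat_lit 0xb000003006010013000600c182c26511)) (.one (nat_lit 0xb000003006011012000600c184c24511)))) (.br (Nat.shiftLeft (nat_lit 0xb000004006011) (nat_lit 76)) (.br (Nat.shiftLeft (nat_lit 0xb000004006010013) (nat_lit 64)) (.one (nat_lit 0xb000004006010012000800c182c24511)) (.one (nat_lit 0xb000004006010013000800c182c26511))) (.br (Nat.shiftLeft (nat_lit 0xb000005) (nat_lit 100)) (.one (nat_lit 0xb000004006011012000800c184c24511)) (.one (nat_lit 0xb000005006010012000a00c182c24511)))))) (.br (Nat.shiftLeft (nat_lit 0xd) (nat_lit 124)) (.br (Nat.shiftLeft (nat_lit 0x3000001) (nat_lit 102)) (.br (Nat.shiftLeft (nat_lit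 0xc000003006010013) (nat_lit 64)) (.br (Nat.shiftLeft (nat_lit 0xc000003) (nat_lit 100)) (.one (nat_lit 0xc000002006010012000400c1a3024511)) (.one (nat_lit 0xc000003006010012000600c1a3024511))) (.br (Nat.shiftLeft (nat_lit 0xc000003006011) (nat_lit 76)) (.one (nat_lit 0xc000003006010013000600c1a3026511)) (.one (nat_lit 0xc000003006011012000600c1a5024511)))) (.br (Nat.shiftLeft (nat_lit 0xc000004006011) (nat_lit 76)) (.br (Nat.shiftLeft (nat_lit 0xc000004006010013) (nat_lit 64)) (.one (nat_lit 0xc000004006010012000800c1a3024511)) (.one (nat_lit 0xc000004006010013000800c1a3026511))) (.br (Nat.shiftLeft (nat_lit 0xc000005) (nat_lit 100)) (.one (nat_lit 0xc000004006011012000800c1a5024511)) (.one (nat_lit 0xc000005006010012000a00c1a3024511))))) (.br (Nat.shiftLeft (nat_lit 0x3400001) (nat_lit 102)) (.br (Nat.shiftLeft (nat_lit 0xd000003006010013) (nat_lit 64)) (.br (Nat.shiftLeft (nat_lit 0xd000003) (nat_lit 100)) (.one (nat_lit 0xd000002006010012000400c1c3424511)) (.one (nat_lit 0xd000003006010012000600c1c3424511)))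 (.br (Nat.shiftLeft (nat_lit 0xd000003006011) (nat_lit 76)) (.one (nat_lit 0xd000003006010013000600c1c3426511)) (.one (nat_lit 0xd000003006011012000600c1c5424511)))) (.br (Nat.shiftLeft (nat_lit 0xe000003) (nat_lit 100)) (.br (Nat.shiftLeft (nat_lit 0x7) (nat_lit 125)) (.one (nat_lit 0xd000004006010012000800c1c3424511)) (.one (nat_lit 0xe000002006010012000400c1e3824511))) (.br (Nat.shiftLeft (nat_lit 0xf) (nat_lit 124)) (.one (nat_lit 0xe000003006010012000600c1e3824511)) (.one (nat_lit 0xf000002006010012000400c203c24511)))))))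
def t351 : k351.all (jb2 57 fl b0) = true := by decide +kernel
noncomputable def s19 : KT := (.br (nat_lit 0x1003006010012200600c020024650) (.br (nat_lit 0x3006010013000600c020027500) (.br (nat_lit 0x2006010012000400c020025500) (.br (nat_lit 0x1006010012000200c020024540) k328 (.br (nat_lit 0x1006010014000200c020028540) k329 k330)) (.br (nat_lit 0x2006010013000400c020026540) k331 (.br (nat_lit 0x2006010014000400c020028540) k332 k333))) (.br (nat_lit 0x5006010013000a00c020026540) (.br (nat_lit 0x4006010013000800c020027500) k334 (.br (nat_lit 0x5006010012000a00c020025500) k335 k336)) (.br (nat_lit 0x5006010014000a00c020028540) k337 (.br (nat_lit 0x1000006011012200000c022024411) k338 k339)))) (.br (nat_lit 0x3004006011012600800c022024650) (.br (nat_lit 0x2003006010013400600c020026650) (.br (nat_lit 0x1004006010012200800c020024650) k340 (.br (nat_lit 0x2000006011012400000c022024411) k341 k342)) (.br (nat_lit 0x2004006010012400800c020024650) k343 (.br (nat_lit 0x3000006011012600000c022024411) k344 k345))) (.br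 (nat_lit 0x5000003006010013000600c0c1426511) (.br (nat_lit 0x7000006010013e00000c020026411) k346 (.br (nat_lit 0x1000003006010013000600c040426511) k347 k348)) (.br (nat_lit 0x6000005006010012000a00c0e1824511) k349 (.br (nat_lit 0x9000005006010012000a00c142424511) k350 k351)))))
noncomputable def u19 : KT := (.br (Nat.shiftLeft (nat_lit 0x1804005) (nat_lit 66)) (.br (Nat.shiftLeft (nat_lit 0x6010013) (nat_lit 64)) (.one (nat_lit 0x6010012000000c020024430)) (.one (nat_lit 0x6010013000000c020026430))) (.br (Nat.shiftLeft (nat_lit 0x6011) (nat_lit 76)) (.one (nat_lit 0x6010014000000c020028430)) (.one (nat_lit 0x6011012000000c022024430))))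
def w19 : u19.all (wj 57 s19) = true := by decide +kernel
def o19 : OkW 57 (jb2 57 fl) u19 := .lift s19 _ (.br _ _ _ (.br _ _ _ (.br _ _ _ (.br _ _ _ (.leaf b0 k328 t328) (.br _ _ _ (.leaf b0 k329 t329) (.leaf b0 k330 t330))) (.br _ _ _ (.leaf b0 k331 t331) (.br _ _ _ (.leaf b0 k332 t332) (.leaf b0 k333 t333)))) (.br _ _ _ (.br _ _ _ (.leaf b0 k334 t334) (.br _ _ _ (.leaf b0 k335 t335) (.leaf b0 k336 t336))) (.br _ _ _ (.leaf b0 k337 t337) (.br _ _ _ (.leaf b0 k338 t338) (.leaf b0 k339 t339))))) (.br _ _ _ (.br _ _ _ (.br _ _ _ (.leaf b0 k340 t340) (.br _ _ _ (.leaf b0 k341 t341) (.leaf b0 k342 t342))) (.br _ _ _ (.leaf b0 k343 t343) (.br _ _ _ (.leaf b0 k344 t344) (.leaf b0 k345 t345)))) (.br _ _ _ (.br _ _ _ (.leaf b0 k346 t346) (.br _ _ _ (.leaf b0 k347 t347) (.leaf b0 k348 t348))) (.br _ _ _ (.leaf b0 k349 t349) (.br _ _ _ (.leaf b0 k350 t350) (.leaf b0 k351 t351)))))) w19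
noncomputable def k352 : KT := (.br (Nat.shiftLeft (nat_lit 0x7008013) (nat_lit 64)) (.br (Nat.shiftLeft (nat_lit 0x7) (nat_lit 88)) (.one (nat_lit 0x6011013000000c022027400)) (.br (Nat.shiftLeft (nat_lit 0x3804009) (nat_lit 65)) (.one (nat_lit 0x7008011000000e010023400)) (.one (nat_lit 0x7008012000000e010025400)))) (.br (Nat.shiftLeft (nat_lit 0x1c02005) (nat_lit 66)) (.one (nat_lit 0x7008013000000e010027400)) (.br (Nat.shiftLeft (nat_lit 0x1) (nat_lit 100)) (.one (nat_lit 0x7008014000000e010029400)) (.one (nat_lit 0x1006011013000200c022026540)))))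
def t352 : k352.all (jb2 57 fl b0) = true := by decide +kernel
noncomputable def k353 : KT := (.one (nat_lit 0x2006011013000400c022026540))
def t353 : k353.all (jb2 57 fl b0) = true := by decide +kernel
noncomputable def k354 : KT := (.one (nat_lit 0x3006011013000600c022026540))
def t354 : k354.all (jb2 57 fl b0) = true := by decide +kernel
noncomputable def k355 : KT := (.one (nat_lit 0x4006011013000800c022026540))
def t355 : k355.all (jb2 57 fl b0) = true := by decide +kernel
noncomputable def k356 : KT := (.br (Nat.shiftLeft (nat_lit 0x1) (nat_lit 115)) (.br (Nat.shiftLeft (nat_lit 0x1) (nat_lit 114)) (.br (Nat.shiftLeft (nat_lit 0x1) (nat_lit 113)) (.br (Nat.shiftLeft (nat_lit 0x1) (nat_lit 112)) (.one (nat_lit 0x5006011013000a00c022026540)) (.one (nat_lit 0x1000006011013200000c022026411))) (.br (Nat.shiftLeft (nat_lit 0x3) (nat_lit 112)) (.one (nat_lit 0x2000006011013400000c022026411)) (.one (nat_lit 0x3000006011013600000c022026411)))) (.br (Nat.shiftLeft (nat_lit 0x3) (nat_lit 113)) (.br (Nat.shiftLeft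 (nat_lit 0x5) (nat_lit 112)) (.one (nat_lit 0x4000006011013800000c022026411)) (.one (nat_lit 0x5000006011013a00000c022026411))) (.br (Nat.shiftLeft (nat_lit 0x7) (nat_lit 112)) (.one (nat_lit 0x6000006011013c00000c022026411)) (.one (nat_lit 0x7000006011013e00000c022026411))))) (.br (Nat.shiftLeft (nat_lit 0x3) (nat_lit 114)) (.br (Nat.shiftLeft (nat_lit 0x5) (nat_lit 113)) (.br (Nat.shiftLeft (nat_lit 0x9) (nat_lit 112)) (.one (nat_lit 0x8000006011013000000c022128411)) (.one (nat_lit 0x9000006011013200000c022128411))) (.br (Nat.shiftLeft (nat_lit 0xb) (nat_lit 112)) (.one (nat_lit 0xa000006011013400000c022128411)) (.one (nat_lit 0xb000006011013600000c022128411)))) (.br (Nat.shiftLeft (nat_lit 0x7) (nat_lit 113)) (.br (Nat.shiftLeft (nat_lit 0xd) (nat_lit 112)) (.one (nat_lit 0xc000006011013800000c022128411)) (.one (nat_lit 0xd000006011013a00000c022128411))) (.br (Nat.shiftLeft (nat_lit 0xf) (nat_lit 112)) (.one (nat_lit 0xe000006011013c00000c022128411)) (.one (nat_lit 0xf000006011013e00000c022128411))))))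
def t356 : k356.all (jb2 57 fl b0) = true := by decide +kernel
noncomputable def s20 : KT := (.br (nat_lit 0x2006011013000400c022026540) (.br (nat_lit 0x1006011013000200c022026540) k352 k353) (.br (nat_lit 0x3006011013000600c022026540) k354 (.br (nat_lit 0x4006011013000800c022026540) k355 k356)))
noncomputable def u20 : KT := (.br (Nat.shiftLeft (nat_lit 0x3804009) (nat_lit 65)) (.br (Nat.shiftLeft (nat_lit 0x7) (nat_lit 88)) (.one (nat_lit 0x6011013000000c022026430)) (.one (nat_lit 0x7008011000000e010023400))) (.br (Nat.shiftLeft (nat_lit 0x7008013) (nat_lit 64)) (.one (nat_lit 0x7008012000000e010025400)) (.br (Nat.shiftLeft (nat_lit 0x1c02005) (nat_lit 66)) (.one (nat_lit 0x7008013000000e010027400)) (.one (nat_lit 0x7008014000000e010029400)))))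
def w20 : u20.all (wj 57 s20) = true := by decide +kernel
def o20 : OkW 57 (jb2 57 fl) u20 := .lift s20 _ (.br _ _ _ (.br _ _ _ (.leaf b0 k352 t352) (.leaf b0 k353 t353)) (.br _ _ _ (.leaf b0 k354 t354) (.br _ _ _ (.leaf b0 k355 t355) (.leaf b0 k356 t356)))) w20
noncomputable def k357 : KT := (.br (Nat.shiftLeft (nat_lit 0x5) (nat_lit 100)) (.br (Nat.shiftLeft (nat_lit 0x1) (nat_lit 101)) (.br (Nat.shiftLeft (nat_lit 0x1) (nat_lit 100)) (.one (nat_lit 0x7008015000000e01002b400)) (.one (nat_lit 0x1007008015000200e01002a540))) (.br (Nat.shiftLeft (nat_lit 0x3) (nat_lit 100)) (.one (nat_lit 0x2007008015000400e01002b500)) (.br (Nat.shiftLeft (nat_lit 0x1) (nat_lit 102)) (.one (nat_lit 0x3007008015000600e01002b500)) (.one (nat_lit 0x4007008015000800e01002b500))))) (.br (Nat.shiftLeft (nat_lit 0x1) (nat_lit 112)) (.br (Nat.shiftLeft (nat_lit 0x3) (nat_lit 101)) (.one (nat_lit 0x5007008015000a00e01002b500)) (.one (nat_lit 0x6007008015000c00e01002b500))) (.br (Nat.shiftLeft (nat_lit 0x801) (nat_lit 101)) (.one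 (nat_lit 0x1000007008015200000e01002a411)) (.br (Nat.shiftLeft (nat_lit 0x1003) (nat_lit 100)) (.one (nat_lit 0x1002007008015200400e01002b600)) (.one (nat_lit 0x1003007008015200600e01002b600))))))
def t357 : k357.all (jb2 57 fl b0) = true := by decide +kernel
noncomputable def k358 : KT := (.one (nat_lit 0x1004007008015200800e01002a650))
def t358 : k358.all (jb2 57 fl b0) = true := by decide +kernel
noncomputable def k359 : KT := (.one (nat_lit 0x1005007008015200a00e01002a650))
def t359 : k359.all (jb2 57 fl b0) = true := by decide +kernel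
noncomputable def k360 : KT := (.br (Nat.shiftLeft (nat_lit 0x1001) (nat_lit 101)) (.br (Nat.shiftLeft (nat_lit 0x1) (nat_lit 113)) (.one (nat_lit 0x1006007008015200c00e01002a650)) (.one (nat_lit 0x2000007008015400000e01002a411))) (.br (Nat.shiftLeft (nat_lit 0x801) (nat_lit 102)) (.one (nat_lit 0x2003007008015400600e01002b600)) (.one (nat_lit 0x2004007008015400800e01002b600))))
def t360 : k360.all (jb2 57 fl b0) = true := by decide +kernel
noncomputable def k361 : KT := (.one (nat_lit 0x2005007008015400a00e01002a650))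
def t361 : k361.all (jb2 57 fl b0) = true := by decide +kernel
noncomputable def k362 : KT := (.br (Nat.shiftLeft (nat_lit 0xc01) (nat_lit 102)) (.br (Nat.shiftLeft (nat_lit 0x3) (nat_lit 112)) (.one (nat_lit 0x2006007008015400c00e01002a650)) (.one (nat_lit 0x3000007008015600000e01002a411))) (.br (Nat.shiftLeft (nat_lit 0x3005) (nat_lit 100)) (.one (nat_lit 0x3004007008015600800e01002b600)) (.one (nat_lit 0x3005007008015600a00e01002b600))))
def t362 : k362.all (jb2 57 fl b0) = true := by decide +kernel
noncomputable def k363 : KT := (.br (Nat.shiftLeft (nat_lit 0x1) (nat_lit 114)) (.one (nat_lit 0x3006007008015600c00e01002a650)) (.br (Nat.shiftLeft (nat_lit 0x1001) (nat_lit 102)) (.one (nat_lit 0x4000007008015800000e01002a411)) (.one (nat_lit 0x4005007008015800a00e01002b600))))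
def t363 : k363.all (jb2 57 fl b0) = true := by decide +kernel
noncomputable def k364 : KT := (.br (Nat.shiftLeft (nat_lit 0x5) (nat_lit 112)) (.one (nat_lit 0x4006007008015800c00e01002a650)) (.one (nat_lit 0x5000007008015a00000e01002a411)))
def t364 : k364.all (jb2 57 fl b0) = true := by decide +kernel
noncomputable def k365 : KT := (.br (Nat.shiftLeft (nat_lit 0x1) (nat_lit 124)) (.br (Nat.shiftLeft (nat_lit 0x7) (nat_lit 112)) (.br (Nat.shiftLeft (nat_lit 0x3) (nat_lit 113)) (.one (nat_lit 0x5006007008015a00c00e01002a650)) (.one (nat_lit 0x6000007008015c00000e01002a411))) (.br (Nat.shiftLeft (nat_lit 0x1) (nat_lit 115)) (.one (nat_lit 0x7000007008015e00000e01002a411)) (.one (nat_lit 0x8000007008015000000e01012c411)))) (.br (Nat.shiftLeft (nat_lit 0x400001) (nat_lit 102)) (.br (Nat.shiftLeft (nat_lit 0x1000003) (nat_lit 100)) (.one (nat_lit 0x1000002007008015000400e03042a511)) (.one (nat_lit 0x1000003007008015000600e03042a511))) (.br (Nat.shiftLeft (nat_lit 0x1000005) (nat_lit 100)) (.one (nat_lit 0x1000004007008015000800e03042a511))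 (.br (Nat.shiftLeft (nat_lit 0x800003) (nat_lit 101)) (.one (nat_lit 0x1000005007008015000a00e03042a511)) (.one (nat_lit 0x1000006007008015000c00e03042a511))))))
def t365 : k365.all (jb2 57 fl b0) = true := by decide +kernel
noncomputable def k366 : KT := (.one (nat_lit 0x1002003007008015400600e03042a760))
def t366 : k366.all (jb2 57 fl b0) = true := by decide +kernel
noncomputable def k367 : KT := (.br (Nat.shiftLeft (nat_lit 0x1003) (nat_lit 112)) (.one (nat_lit 0x1002004007008015400800e03042a760)) (.one (nat_lit 0x1003004007008015600800e03042a760)))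
def t367 : k367.all (jb2 57 fl b0) = true := by decide +kernel
noncomputable def k368 : KT := (.br (Nat.shiftLeft (nat_lit 0x2000003) (nat_lit 100)) (.br (Nat.shiftLeft (nat_lit 0x401) (nat_lit 114)) (.one (nat_lit 0x1003005007008015600a00e03042a760)) (.br (Nat.shiftLeft (nat_lit 0x1) (nat_lit 125)) (.one (nat_lit 0x1004005007008015800a00e03042a760)) (.one (nat_lit 0x2000002007008015000400e05082a511)))) (.br (Nat.shiftLeft (nat_lit 0x2000005) (nat_lit 100)) (.br (Nat.shiftLeft (nat_lit 0x800001) (nat_lit 102)) (.one (nat_lit 0x2000003007008015000600e05082a511)) (.one (nat_lit 0x2000004007008015000800e05082a511))) (.br (Nat.shiftLeft (nat_lit 0x1000003) (nat_lit 101)) (.one (nat_lit 0x2000005007008015000a00e05082a511)) (.one (nat_lit 0x2000006007008015000c00e05082a511)))))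
def t368 : k368.all (jb2 57 fl b0) = true := by decide +kernel
noncomputable def k369 : KT := (.br (Nat.shiftLeft (nat_lit 0x2003005) (nat_lit 100)) (.one (nat_lit 0x2003004007008015600800e05082a760)) (.one (nat_lit 0x2003005007008015600a00e05082a760)))
def t369 : k369.all (jb2 57 fl b0) = true := by decide +kernel
noncomputable def k370 : KT := (.br (Nat.shiftLeft (nat_lit 0xc01) (nat_lit 114)) (.br (Nat.shiftLeft (nat_lit 0xc00001) (nat_lit 102)) (.br (Nat.shiftLeft (nat_lit 0x3) (nat_lit 124)) (.one (nat_lit 0x2004005007008015800a00e05082a760)) (.br (Nat.shiftLeft (nat_lit 0x3000003) (nat_lit 100)) (.one (nat_lit 0x3000002007008015000400e070c2a511)) (.one (nat_lit 0x3000003007008015000600e070c2a511)))) (.br (Nat.shiftLeft (nat_lit 0x3000005) (nat_lit 100)) (.one (nat_lit 0x3000004007008015000800e070c2a511)) (.br (Nat.shiftLeft (nat_lit 0x1800003) (nat_lit 101)) (.one (nat_lit 0x3000005007008015000a00e070c2a511)) (.one (nat_lit 0x3000006007008015000c00e070c2a511))))) (.br (Nat.shiftLeft (nat_lit 0x1000001)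 (nat_lit 102)) (.br (Nat.shiftLeft (nat_lit 0x1) (nat_lit 126)) (.one (nat_lit 0x3004005007008015800a00e070c2a760)) (.br (Nat.shiftLeft (nat_lit 0x4000003) (nat_lit 100)) (.one (nat_lit 0x4000002007008015000400e09102a511)) (.one (nat_lit 0x4000003007008015000600e09102a511)))) (.br (Nat.shiftLeft (nat_lit 0x4000005) (nat_lit 100)) (.one (nat_lit 0x4000004007008015000800e09102a511)) (.br (Nat.shiftLeft (nat_lit 0x2000003) (nat_lit 101)) (.one (nat_lit 0x4000005007008015000a00e09102a511)) (.one (nat_lit 0x4000006007008015000c00e09102a511))))))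
def t370 : k370.all (jb2 57 fl b0) = true := by decide +kernel
noncomputable def k371 : KT := (.br (Nat.shiftLeft (nat_lit 0x5000005) (nat_lit 100)) (.br (Nat.shiftLeft (nat_lit 0x5000003) (nat_lit 100)) (.one (nat_lit 0x5000002007008015000400e0b142a511)) (.br (Nat.shiftLeft (nat_lit 0x1400001) (nat_lit 102)) (.one (nat_lit 0x5000003007008015000600e0b142a511)) (.one (nat_lit 0x5000004007008015000800e0b142a511)))) (.br (Nat.shiftLeft (nat_lit 0x2800003) (nat_lit 101)) (.one (nat_lit 0x5000005007008015000a00e0b142a511)) (.br (Nat.shiftLeft (nat_lit 0x3) (nat_lit 125)) (.one (nat_lit 0x5000006007008015000c00e0b142a511)) (.one (nat_lit 0x6000002007008015000400e0d182a511)))))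
def t371 : k371.all (jb2 57 fl b0) = true := by decide +kernel
noncomputable def k372 : KT := (.br (Nat.shiftLeft (nat_lit 0x6000005) (nat_lit 100)) (.br (Nat.shiftLeft (nat_lit 0x1800001) (nat_lit 102)) (.one (nat_lit 0x6000003007008015000600e0d182a511)) (.one (nat_lit 0x6000004007008015000800e0d182a511))) (.br (Nat.shiftLeft (nat_lit 0x3000003) (nat_lit 101)) (.one (nat_lit 0x6000005007008015000a00e0d182a511)) (.one (nat_lit 0x6000006007008015000c00e0d182a511))))
def t372 : k372.all (jb2 57 fl b0) = true := by decide +kernel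
noncomputable def k373 : KT := (.br (Nat.shiftLeft (nat_lit 0x1c00001) (nat_lit 102)) (.br (Nat.shiftLeft (nat_lit 0x7000003) (nat_lit 100)) (.one (nat_lit 0x7000002007008015000400e0f1c2a511)) (.one (nat_lit 0x7000003007008015000600e0f1c2a511))) (.br (Nat.shiftLeft (nat_lit 0x7000005) (nat_lit 100)) (.one (nat_lit 0x7000004007008015000800e0f1c2a511)) (.one (nat_lit 0x7000005007008015000a00e0f1c2a511))))
def t373 : k373.all (jb2 57 fl b0) = true := by decide +kernel
noncomputable def k374 : KT := (.br (Nat.shiftLeft (nat_lit 0x800001) (nat_lit 113)) (.br (Nat.shiftLeft (nat_lit 0x8000005) (nat_lit 100)) (.br (Nat.shiftLeft (nat_lit 0x8000003) (nat_lit 100)) (.br (Nat.shiftLeft (nat_lit 0x1) (nat_lit 127)) (.one (nat_lit 0x7000006007008015000c00e0f1c2a511)) (.one (nat_lit 0x8000002007008015000400e11202a511))) (.br (Nat.shiftLeft (nat_lit 0x2000001) (nat_lit 102)) (.one (nat_lit 0x8000003007008015000600e11202a511)) (.one (nat_lit 0x8000004007008015000800e11202a511)))) (.br (Nat.shiftLeft (nat_lit 0x1) (nat_lit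 136)) (.br (Nat.shiftLeft (nat_lit 0x4000003) (nat_lit 101)) (.one (nat_lit 0x8000005007008015000a00e11202a511)) (.one (nat_lit 0x8000006007008015000c00e11202a511))) (.br (Nat.shiftLeft (nat_lit 0x1000001003) (nat_lit 100)) (.one (nat_lit 0x1000001002007008015200402e41002a611)) (.one (nat_lit 0x1000001003007008015200602e41002a611))))) (.br (Nat.shiftLeft (nat_lit 0x400001) (nat_lit 114)) (.br (Nat.shiftLeft (nat_lit 0x1000003) (nat_lit 112)) (.br (Nat.shiftLeft (nat_lit 0x400000801) (nat_lit 102)) (.one (nat_lit 0x1000002003007008015400602e41002a611)) (.one (nat_lit 0x1000002004007008015400802e41002a611))) (.br (Nat.shiftLeft (nat_lit 0x1000003005) (nat_lit 100)) (.one (nat_lit 0x1000003004007008015600802e41002a611)) (.one (nat_lit 0x1000003005007008015600a02e41002a611)))) (.br (Nat.shiftLeft (nat_lit 0x2000001003) (nat_lit 100)) (.br (Nat.shiftLeft (nat_lit 0x1) (nat_lit 137)) (.one (nat_lit 0x1000004005007008015800a02e41002a611)) (.one (nat_lit 0x2000001002007008015200404e81002a611))) (.br (Nat.shiftLeft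 (nat_lit 0x1000001) (nat_lit 113)) (.one (nat_lit 0x2000001003007008015200604e81002a611)) (.one (nat_lit 0x2000002003007008015400604e81002a611))))))
def t374 : k374.all (jb2 57 fl b0) = true := by decide +kernel
noncomputable def k375 : KT := (.br (Nat.shiftLeft (nat_lit 0x3000003005) (nat_lit 100)) (.br (Nat.shiftLeft (nat_lit 0x3) (nat_lit 136)) (.br (Nat.shiftLeft (nat_lit 0x2000003005) (nat_lit 100)) (.br (Nat.shiftLeft (nat_lit 0x2000003) (nat_lit 112)) (.one (nat_lit 0x2000002004007008015400804e81002a611)) (.one (nat_lit 0x2000003004007008015600804e81002a611))) (.br (Nat.shiftLeft (nat_lit 0x800001) (nat_lit 114)) (.one (nat_lit 0x2000003005007008015600a04e81002a611)) (.one (nat_lit 0x2000004005007008015800a04e81002a611)))) (.br (Nat.shiftLeft (nat_lit 0x1800001) (nat_lit 113)) (.br (Nat.shiftLeft (nat_lit 0x3000001003) (nat_lit 100)) (.one (nat_lit 0x3000001002007008015200406ec1002a611)) (.one (nat_lit 0x3000001003007008015200606ec1002a611))) (.br (Nat.shiftLeft (nat_lit 0xc00000801) (nat_lit 102))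 (.one (nat_lit 0x3000002003007008015400606ec1002a611)) (.br (Nat.shiftLeft (nat_lit 0x3000003) (nat_lit 112)) (.one (nat_lit 0x3000002004007008015400806ec1002a611)) (.one (nat_lit 0x3000003004007008015600806ec1002a611)))))) (.br (Nat.shiftLeft (nat_lit 0x1000000801) (nat_lit 102)) (.br (Nat.shiftLeft (nat_lit 0x1) (nat_lit 138)) (.br (Nat.shiftLeft (nat_lit 0xc00001) (nat_lit 114)) (.one (nat_lit 0x3000003005007008015600a06ec1002a611)) (.one (nat_lit 0x3000004005007008015800a06ec1002a611))) (.br (Nat.shiftLeft (nat_lit 0x4000001003) (nat_lit 100)) (.one (nat_lit 0x4000001002007008015200408f01002a611)) (.br (Nat.shiftLeft (nat_lit 0x2000001) (nat_lit 113)) (.one (nat_lit 0x4000001003007008015200608f01002a611)) (.one (nat_lit 0x4000002003007008015400608f01002a611))))) (.br (Nat.shiftLeft (nat_lit 0x4000003005) (nat_lit 100)) (.br (Nat.shiftLeft (nat_lit 0x4000003) (nat_lit 112)) (.one (nat_lit 0x4000002004007008015400808f01002a611)) (.one (nat_lit 0x4000003004007008015600808f01002a611))) (.br (Nat.shiftLeft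 (nat_lit 0x1000001) (nat_lit 114)) (.one (nat_lit 0x4000003005007008015600a08f01002a611)) (.br (Nat.shiftLeft (nat_lit 0x5) (nat_lit 136)) (.one (nat_lit 0x4000004005007008015800a08f01002a611)) (.one (nat_lit 0x500000100200700801520040af41002a611)))))))
def t375 : k375.all (jb2 57 fl b0) = true := by decide +kernel
noncomputable def k376 : KT := (.br (Nat.shiftLeft (nat_lit 0x5000003) (nat_lit 112)) (.br (Nat.shiftLeft (nat_lit 0x2800001) (nat_lit 113)) (.one (nat_lit 0x500000100300700801520060af41002a611)) (.br (Nat.shiftLeft (nat_lit 0x1400000801) (nat_lit 102)) (.one (nat_lit 0x500000200300700801540060af41002a611)) (.one (nat_lit 0x500000200400700801540080af41002a611)))) (.br (Nat.shiftLeft (nat_lit 0x5000003005) (nat_lit 100)) (.one (nat_lit 0x500000300400700801560080af41002a611)) (.br (Nat.shiftLeft (nat_lit 0x1400001) (nat_lit 114)) (.one (nat_lit 0x5000003005007008015600a0af41002a611)) (.one (nat_lit 0x5000004005007008015800a0af41002a611)))))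
def t376 : k376.all (jb2 57 fl b0) = true := by decide +kernel
noncomputable def k377 : KT := (.br (Nat.shiftLeft (nat_lit 0x3000001) (nat_lit 113)) (.br (Nat.shiftLeft (nat_lit 0x6000001003) (nat_lit 100)) (.one (nat_lit 0x600000100200700801520040cf81002a611)) (.one (nat_lit 0x600000100300700801520060cf81002a611))) (.br (Nat.shiftLeft (nat_lit 0x1800000801) (nat_lit 102)) (.one (nat_lit 0x600000200300700801540060cf81002a611)) (.one (nat_lit 0x600000200400700801540080cf81002a611))))
def t377 : k377.all (jb2 57 fl b0) = true := by decide +kernel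
noncomputable def k378 : KT := (.br (Nat.shiftLeft (nat_lit 0x1800001) (nat_lit 114)) (.br (Nat.shiftLeft (nat_lit 0x6000003005) (nat_lit 100)) (.one (nat_lit 0x600000300400700801560080cf81002a611)) (.one (nat_lit 0x6000003005007008015600a0cf81002a611))) (.br (Nat.shiftLeft (nat_lit 0x7) (nat_lit 136)) (.one (nat_lit 0x6000004005007008015800a0cf81002a611)) (.br (Nat.shiftLeft (nat_lit 0x7000001003) (nat_lit 100)) (.one (nat_lit 0x700000100200700801520040efc1002a611)) (.one (nat_lit 0x700000100300700801520060efc1002a611)))))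
def t378 : k378.all (jb2 57 fl b0) = true := by decide +kernel
noncomputable def k379 : KT := (.br (Nat.shiftLeft (nat_lit 0x7000003005) (nat_lit 100)) (.br (Nat.shiftLeft (nat_lit 0x1c00000801) (nat_lit 102)) (.one (nat_lit 0x700000200300700801540060efc1002a611)) (.br (Nat.shiftLeft (nat_lit 0x7000003) (nat_lit 112)) (.one (nat_lit 0x700000200400700801540080efc1002a611)) (.one (nat_lit 0x700000300400700801560080efc1002a611)))) (.br (Nat.shiftLeft (nat_lit 0x1c00001) (nat_lit 114)) (.one (nat_lit 0x7000003005007008015600a0efc1002a611)) (.br (Nat.shiftLeft (nat_lit 0x1) (nat_lit 139)) (.one (nat_lit 0x7000004005007008015800a0efc1002a611)) (.one (nat_lit 0x8000001002007008015200411001002a611)))))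
def t379 : k379.all (jb2 57 fl b0) = true := by decide +kernel
noncomputable def k380 : KT := (.br (Nat.shiftLeft (nat_lit 0x8000003) (nat_lit 112)) (.br (Nat.shiftLeft (nat_lit 0x4000001) (nat_lit 113)) (.one (nat_lit 0x8000001003007008015200611001002a611)) (.br (Nat.shiftLeft (nat_lit 0x2000000801) (nat_lit 102)) (.one (nat_lit 0x8000002003007008015400611001002a611)) (.one (nat_lit 0x8000002004007008015400811001002a611)))) (.br (Nat.shiftLeft (nat_lit 0x8000003005) (nat_lit 100)) (.one (nat_lit 0x8000003004007008015600811001002a611)) (.br (Nat.shiftLeft (nat_lit 0x2000001) (nat_lit 114)) (.one (nat_lit 0x8000003005007008015600a11001002a611)) (.one (nat_lit 0x8000004005007008015800a11001002a611)))))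
def t380 : k380.all (jb2 57 fl b0) = true := by decide +kernel
noncomputable def s21 : KT := (.br (nat_lit 0x2000006007008015000c00e05082a511) (.br (nat_lit 0x3005007008015600a00e01002b600) (.br (nat_lit 0x1005007008015200a00e01002a650) (.br (nat_lit 0x1003007008015200600e01002b600) k357 (.br (nat_lit 0x1004007008015200800e01002a650) k358 k359)) (.br (nat_lit 0x2004007008015400800e01002b600) k360 (.br (nat_lit 0x2005007008015400a00e01002a650) k361 k362))) (.br (nat_lit 0x1000006007008015000c00e03042a511) (.br (nat_lit 0x4005007008015800a00e01002b600) k363 (.br (nat_lit 0x5000007008015a00000e01002a411) k364 k365)) (.br (nat_lit 0x1002003007008015400600e03042a760) k366 (.br (nat_lit 0x1003004007008015600800e03042a760) k367 k368)))) (.br (nat_lit 0x2000002003007008015400604e81002a611) (.br (nat_lit 0x6000002007008015000400e0d182a511) (.br (nat_lit 0x2003005007008015600a00e05082a760) k369 (.br (nat_lit 0x4000006007008015000c00e09102a511) k370 k371)) (.br (nat_lit 0x6000006007008015000c00e0d182a511) k372 (.br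 (nat_lit 0x7000005007008015000a00e0f1c2a511) k373 k374))) (.br (nat_lit 0x600000200400700801540080cf81002a611) (.br (nat_lit 0x500000100200700801520040af41002a611) k375 (.br (nat_lit 0x5000004005007008015800a0af41002a611) k376 k377)) (.br (nat_lit 0x700000100300700801520060efc1002a611) k378 (.br (nat_lit 0x8000001002007008015200411001002a611) k379 k380)))))
noncomputable def u21 : KT := (.one (nat_lit 0x7008015000000e01002a430))
def w21 : u21.all (wj 57 s21) = true := by decide +kernel
def o21 : OkW 57 (jb2 57 fl) u21 := .lift s21 _ (.br _ _ _ (.br _ _ _ (.br _ _ _ (.br _ _ _ (.leaf b0 k357 t357) (.br _ _ _ (.leaf b0 k358 t358) (.leaf b0 k359 t359))) (.br _ _ _ (.leaf b0 k360 t360) (.br _ _ _ (.leaf b0 k361 t361) (.leaf b0 k362 t362)))) (.br _ _ _ (.br _ _ _ (.leaf b0 k363 t363) (.br _ _ _ (.leaf b0 k364 t364) (.leaf b0 k365 t365))) (.br _ _ _ (.leaf b0 k366 t366) (.br _ _ _ (.leaf b0 k367 t367) (.leaf b0 k368 t368))))) (.br _ _ _ (.br _ _ _ (.br _ _ _ (.leaf b0 k369 t369) (.br _ _ _ (.leaf b0 k370 t370)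 (.leaf b0 k371 t371))) (.br _ _ _ (.leaf b0 k372 t372) (.br _ _ _ (.leaf b0 k373 t373) (.leaf b0 k374 t374)))) (.br _ _ _ (.br _ _ _ (.leaf b0 k375 t375) (.br _ _ _ (.leaf b0 k376 t376) (.leaf b0 k377 t377))) (.br _ _ _ (.leaf b0 k378 t378) (.br _ _ _ (.leaf b0 k379 t379) (.leaf b0 k380 t380)))))) w21
noncomputable def k : KT := (.br (nat_lit 0x600e010000000c01c021400) (.br (nat_lit 0x600c014000000c018028430) (.br (nat_lit 0x600b015000000c01602a430) (.br (nat_lit 0x600b014000000c016028430) u0 u1) (.br (nat_lit 0x600c012000000c018025400) u2 (.br (nat_lit 0x600c013000000c018026430) u3 u4))) (.br (nat_lit 0x600d012000000c01a024430) (.br (nat_lit 0x600c017000000c01802e430) u5 (.br (nat_lit 0x600d011000000c01a023400) u6 u7)) (.br (nat_lit 0x600d013000000c01a026430) u8 (.br (nat_lit 0x600d015000000c01a02a430) u9 u10)))) (.br (nat_lit 0x600f010000000c01e020430) (.br (nat_lit 0x600e012000000c01c024430) (.br (nat_lit 0x600e011000000c01c022430) u11 u12) (.br (nat_lit 0x600e014000000c01c028430) u13 (.br (nat_lit 0x600e016000000c01c02c430)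 u14 u15))) (.br (nat_lit 0x6010011000000c020022430) (.br (nat_lit 0x600f011000000c01e022430) u16 (.br (nat_lit 0x600f013000000c01e026430) u17 u18)) (.br (nat_lit 0x6011012000000c022024430) u19 (.br (nat_lit 0x7008014000000e010029400) u20 u21)))))
theorem ok : OkW 57 (jb2 57 fl) k := (.br _ _ _ (.br _ _ _ (.br _ _ _ (.br _ _ _ o0 o1) (.br _ _ _ o2 (.br _ _ _ o3 o4))) (.br _ _ _ (.br _ _ _ o5 (.br _ _ _ o6 o7)) (.br _ _ _ o8 (.br _ _ _ o9 o10)))) (.br _ _ _ (.br _ _ _ (.br _ _ _ o11 o12) (.br _ _ _ o13 (.br _ _ _ o14 o15))) (.br _ _ _ (.br _ _ _ o16 (.br _ _ _ o17 o18)) (.br _ _ _ o19 (.br _ _ _ o20 o21)))))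

end Pool.Agent.Lib.MP_ed43e6_ag.Q.Y57.R11
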