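import Pool.Agent.Lib.MP_ed43e6_ag.Y57.Fl

namespace Pool.Agent.Lib.MP_ed43e6_ag.Q.Y57.R33

set_option linter.defProp false

noncomputable def b0 : BT := .node (nat_lit 1) (nat_lit 0) .leaf .leaf
noncomputable def k0 : KT := (.br (Nat.shiftLeft (nat_lit 0x1) (nat_lit 112)) (.br (Nat.shiftLeft (nat_lit 0x1002002803) (nat_lit 66)) (.br (Nat.shiftLeft (nat_lit 0x2004005) (nat_lit 77)) (.one (nat_lit 0x40080090130008010012027500)) (.one (nat_lit 0x400800a00b0008010014017500))) (.br (Nat.shiftLeft (nat_lit 0x400800a00d) (nat_lit 64)) (.one (nat_lit 0x400800a00c0008010014019500)) (.br (Nat.shiftLeft (nat_lit 0x2004005007) (nat_lit 65)) (.one (nat_lit 0x400800a00d000801001401b500)) (.one (nat_lit 0x400800a00e000801001401d500))))) (.br (Nat.shiftLeft (nat_lit 0x3) (nat_lit 112)) (.br (Nat.shiftLeft (nat_lit 0x1) (nat_lit 113)) (.one (nat_lit 0x10040080090132008010012027600)) (.one (nat_lit 0x20040080090134008010012027600))) (.br (Nat.shiftLeft (nat_lit 0x1) (nat_lit 124)) (.one (nat_lit 0x30040080090136008010012027600)) (.br (Nat.shiftLeft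 (nat_lit 0x801) (nat_lit 113)) (.one (nat_lit 0x10000040080090130008010032426511)) (.one (nat_lit 0x10020040080090134008010032426760))))))
def t0 : k0.all (jb2 57 fl b0) = true := by decide +kernel
noncomputable def k1 : KT := (.br (Nat.shiftLeft (nat_lit 0x1001) (nat_lit 113)) (.br (Nat.shiftLeft (nat_lit 0x1) (nat_lit 125)) (.one (nat_lit 0x10030040080090136008010032426760)) (.one (nat_lit 0x20000040080090130008010052826511))) (.br (Nat.shiftLeft (nat_lit 0x3) (nat_lit 124)) (.one (nat_lit 0x20030040080090136008010052826760)) (.one (nat_lit 0x30000040080090130008010072c26511))))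
def t1 : k1.all (jb2 57 fl b0) = true := by decide +kernel
noncomputable def k2 : KT := (.br (Nat.shiftLeft (nat_lit 0x1) (nat_lit 127)) (.br (Nat.shiftLeft (nat_lit 0x3) (nat_lit 125)) (.br (Nat.shiftLeft (nat_lit 0x5) (nat_lit 124)) (.one (nat_lit 0x40000040080090130008010093026511)) (.one (nat_lit 0x500000400800901300080100b3426511))) (.br (Nat.shiftLeft (nat_lit 0x7) (nat_lit 124)) (.one (nat_lit 0x600000400800901300080100d3826511)) (.one (nat_lit 0x700000400800901300080100f3c26511)))) (.br (Nat.shiftLeft (nat_lit 0x1) (nat_lit 136)) (.br (Nat.shiftLeft (nat_lit 0x9) (nat_lit 124)) (.one (nat_lit 0x80000040080090130008010114026511)) (.one (nat_lit 0x90000040080090130008010134426511))) (.br (Nat.shiftLeft (nat_lit 0x800001) (nat_lit 113)) (.one (nat_lit 0x10000010040080090132008030412026611)) (.br (Nat.shiftLeft (nat_lit 0x1000003) (nat_lit 112)) (.one (nat_lit 0x10000020040080090134008030412026611)) (.one (nat_lit 0x10000030040080090136008030412026611))))))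
def t2 : k2.all (jb2 57 fl b0) = true := by decide +kernel
noncomputable def k3 : KT := (.br (Nat.shiftLeft (nat_lit 0x1) (nat_lit 138)) (.br (Nat.shiftLeft (nat_lit 0x3) (nat_lit 136)) (.br (Nat.shiftLeft (nat_lit 0x1000001) (nat_lit 113)) (.one (nat_lit 0x20000010040080090132008050812026611)) (.br (Nat.shiftLeft (nat_lit 0x2000003) (nat_lit 112)) (.one (nat_lit 0x20000020040080090134008050812026611)) (.one (nat_lit 0x20000030040080090136008050812026611)))) (.br (Nat.shiftLeft (nat_lit 0x1800001) (nat_lit 113)) (.one (nat_lit 0x30000010040080090132008070c12026611)) (.br (Nat.shiftLeft (nat_lit 0x3000003) (nat_lit 112)) (.one (nat_lit 0x30000020040080090134008070c12026611)) (.one (nat_lit 0x30000030040080090136008070c12026611))))) (.br (Nat.shiftLeft (nat_lit 0x5) (nat_lit 136)) (.br (Nat.shiftLeft (nat_lit 0x2000001) (nat_lit 113)) (.one (nat_lit 0x40000010040080090132008091012026611)) (.br (Nat.shiftLeft (nat_lit 0x4000003) (nat_lit 112)) (.one (nat_lit 0x40000020040080090134008091012026611)) (.one (nat_lit 0x40000030040080090136008091012026611))))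 (.br (Nat.shiftLeft (nat_lit 0x2800001) (nat_lit 113)) (.one (nat_lit 0x500000100400800901320080b1412026611)) (.br (Nat.shiftLeft (nat_lit 0x5000003) (nat_lit 112)) (.one (nat_lit 0x500000200400800901340080b1412026611)) (.one (nat_lit 0x500000300400800901360080b1412026611))))))
def t3 : k3.all (jb2 57 fl b0) = true := by decide +kernel
noncomputable def k4 : KT := (.br (Nat.shiftLeft (nat_lit 0x6000003) (nat_lit 112)) (.br (Nat.shiftLeft (nat_lit 0x3000001) (nat_lit 113)) (.one (nat_lit 0x600000100400800901320080d1812026611)) (.one (nat_lit 0x600000200400800901340080d1812026611))) (.br (Nat.shiftLeft (nat_lit 0x7) (nat_lit 136)) (.one (nat_lit 0x600000300400800901360080d1812026611)) (.br (Nat.shiftLeft (nat_lit 0x3800001) (nat_lit 113)) (.one (nat_lit 0x700000100400800901320080f1c12026611)) (.one (nat_lit 0x700000200400800901340080f1c12026611)))))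
def t4 : k4.all (jb2 57 fl b0) = true := by decide +kernel
noncomputable def k5 : KT := (.br (Nat.shiftLeft (nat_lit 0x8000003) (nat_lit 112)) (.br (Nat.shiftLeft (nat_lit 0x1) (nat_lit 139)) (.one (nat_lit 0x700000300400800901360080f1c12026611)) (.br (Nat.shiftLeft (nat_lit 0x4000001) (nat_lit 113)) (.one (nat_lit 0x80000010040080090132008112012026611)) (.one (nat_lit 0x80000020040080090134008112012026611)))) (.br (Nat.shiftLeft (nat_lit 0x4800001) (nat_lit 113)) (.br (Nat.shiftLeft (nat_lit 0x9) (nat_lit 136)) (.one (nat_lit 0x80000030040080090136008112012026611)) (.one (nat_lit 0x90000010040080090132008132412026611))) (.br (Nat.shiftLeft (nat_lit 0x9000003) (nat_lit 112)) (.one (nat_lit 0x90000020040080090134008132412026611)) (.one (nat_lit 0x90000030040080090136008132412026611)))))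
def t5 : k5.all (jb2 57 fl b0) = true := by decide +kernel
noncomputable def s0 : KT := (.br (nat_lit 0x10000030040080090136008030412026611) (.br (nat_lit 0x10020040080090134008010032426760) k0 (.br (nat_lit 0x30000040080090130008010072c26511) k1 k2)) (.br (nat_lit 0x500000300400800901360080b1412026611) k3 (.br (nat_lit 0x700000200400800901340080f1c12026611) k4 k5)))
noncomputable def u0 : KT := (.br (Nat.shiftLeft (nat_lit 0x1002002803) (nat_lit 66)) (.br (Nat.shiftLeft (nat_lit 0x2004005) (nat_lit 77)) (.one (nat_lit 0x40080090130008010012026540)) (.one (nat_lit 0x400800a00b0008010014017500))) (.br (Nat.shiftLeft (nat_lit 0x400800a00d) (nat_lit 64)) (.one (nat_lit 0x400800a00c0008010014019500)) (.br (Nat.shiftLeft (nat_lit 0x2004005007) (nat_lit 65)) (.one (nat_lit 0x400800a00d000801001401b500)) (.one (nat_lit 0x400800a00e000801001401d500)))))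
def w0 : u0.all (wj 57 s0) = true := by decide +kernel
def o0 : OkW 57 (jb2 57 fl) u0 := .lift s0 _ (.br _ _ _ (.br _ _ _ (.leaf b0 k0 t0) (.br _ _ _ (.leaf b0 k1 t1) (.leaf b0 k2 t2))) (.br _ _ _ (.leaf b0 k3 t3) (.br _ _ _ (.leaf b0 k4 t4) (.leaf b0 k5 t5)))) w0
noncomputable def k6 : KT := (.br (Nat.shiftLeft (nat_lit 0x1003) (nat_lit 112)) (.br (Nat.shiftLeft (nat_lit 0x3) (nat_lit 112)) (.br (Nat.shiftLeft (nat_lit 0x1) (nat_lit 112)) (.one (nat_lit 0x400800a00f000801001401f500)) (.br (Nat.shiftLeft (nat_lit 0x1) (nat_lit 113)) (.one (nat_lit 0x100400800a00f200801001401f600)) (.one (nat_lit 0x200400800a00f400801001401f600)))) (.br (Nat.shiftLeft (nat_lit 0x1) (nat_lit 124)) (.one (nat_lit 0x300400800a00f600801001401f600)) (.br (Nat.shiftLeft (nat_lit 0x801) (nat_lit 113)) (.one (nat_lit 0x100000400800a00f000801003441e511)) (.one (nat_lit 0x100200400800a00f400801003441f700))))) (.br (Nat.shiftLeft (nat_lit 0x3) (nat_lit 124)) (.br (Nat.shiftLeft (nat_lit 0x1) (nat_lit 125)) (.one (nat_lit 0x100300400800a00f600801003441f700)) (.br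 (Nat.shiftLeft (nat_lit 0x1001) (nat_lit 113)) (.one (nat_lit 0x200000400800a00f000801005481e511)) (.one (nat_lit 0x200300400800a00f600801005481f700)))) (.br (Nat.shiftLeft (nat_lit 0x5) (nat_lit 124)) (.br (Nat.shiftLeft (nat_lit 0x1) (nat_lit 126)) (.one (nat_lit 0x300000400800a00f0008010074c1e511)) (.one (nat_lit 0x400000400800a00f000801009501e511))) (.br (Nat.shiftLeft (nat_lit 0x3) (nat_lit 125)) (.one (nat_lit 0x500000400800a00f00080100b541e511)) (.one (nat_lit 0x600000400800a00f00080100d581e511))))))
noncomputable def b7 : BT := .node (nat_lit 0x1) (nat_lit 0x91892f526ade16d992fc0032dc0008b6c003a590008b8c2000e400028) .leaf .leaf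
def t6 : k6.all (jb2 57 fl b7) = true := by decide +kernel
noncomputable def k7 : KT := (.one (nat_lit 0x700000400800a00f00080100f5c1e511))
noncomputable def b8 : BT := .node (nat_lit 0x11) (nat_lit 0x54328b13a1b669374b215092c84be000e964003317000ea60002b180010868002aa20f78526e5172a124dc97c00192e80056b0001d0e800653e14c924d897c54249b24dc003a1c000ab7c0041db000cb642003f3003f3003f3003f3003f3002de002230016800168001680016800168001680016800168001680016800168) .leaf .leaf
def t7 : k7.all (jb2 57 fl b8) = true := by decide +kernel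
noncomputable def k8 : KT := (.one (nat_lit 0x800000400800a00f000801011601e511))
noncomputable def b9 : BT := .node (nat_lit 0x3b) (nat_lit 0x1b664ea4b225912c84e828a2590a2e54349b92f40032db000ac600032d8000ca74003a98000e9680041dc000ab784a8693725f00083b800156f8326e4e949b800662e00196c0326e93725f000753000156f83455b684e96d993a126edb3275258d26e4bd25f000843400158d80065b000194e000653c00158c000753000156f89b6693728b80065b00015ac032c693749b800753000196c03b6893749b80065b000196c0323149ba5912c696328b80074b600118d000753000158d85b6693749bb6cc9d2936000cb6400329b000cb68002adb0a59497c517000e87c002b1a06a1259126e00210d00065360c9a93a926edb24b2150c0032db000cb600032d9000ad6029626d993a4003a98000ab7c100d2100bb000bb000bb000bb000bb000b5100b5100b5100b5100b5100b5100b5100b5100af100a9100a9100a9100a9100a9100921009210092100921009210092100921009210092100921008c1008c1008c1008c10086100861008010080100801008010080100801007450068a0068a0068a0068a0068a0062a005cb005cb005cb00510005100051000510004b0004b0004b0004b0) .leaf .leaf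
def t8 : k8.all (jb2 57 fl b9) = true := by decide +kernel
noncomputable def k9 : KT := (.one (nat_lit 0x900000400800a00f000801013641e511))
noncomputable def b10 : BT := .node (nat_lit 0x2b) (nat_lit 0x12c64be27436c897e5424b1b6d126e00194f000653a001cf2800472e001d4d00065381d4228b950db689384b1a59097a937004e968013317000ea6000ab18000cb6400b29c0e58d2709386d992f926edb34b192f8003a99000ca7400329f000ab700032d8000aa903a2adb428b00093b40011ad8350d26e4bd0010770002ade076cca869644b1a58c97a00198b800563200196c000653c16d9a4e0a2c00194e00056ae0ed9a591b6654249b150db664be25e80165b200196c00274b400998b800753200517107b6693725e945497a543000cb6000329d000e8780033170b6cca2e9632a113a497c93628ba58c003318000ac60003a1e000ca780032db000cb60300b7100a5b0094600830007d100772007720077200772007720077200772007720077200772006b7006b7006b7006b7006b7006b7006b700657006570065700657006570065700657006570065700657006570065700657006570065700657006570054100541005410048600370) .leaf .leaf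
def t9 : k9.all (jb2 57 fl b10) = true := by decide +kernel
noncomputable def k10 : KT := (.br (Nat.shiftLeft (nat_lit 0x800001) (nat_lit 113)) (.br (Nat.shiftLeft (nat_lit 0x1) (nat_lit 136)) (.one (nat_lit 0xa00000400800a00f000801015681e511)) (.one (nat_lit 0x100000100400800a00f200803041401e611))) (.br (Nat.shiftLeft (nat_lit 0x1000003) (nat_lit 112)) (.one (nat_lit 0x100000200400800a00f400803041401e611)) (.one (nat_lit 0x100000300400800a00f600803041401e611))))
noncomputable def b11 : BT := .node (nat_lit 0xb) (nat_lit 0x51649ca4e12c69394b1a58db669644b192f8a8600610d80065b0005d4c80265b0001d4c0027530005d0f801662e24b1a59097c96525f24e0003a98000aa900032da000ca74296325f24e1b669394b2258d2c8939002cb6400b29d002e97800ab19004ea64003a990e58d2704be6d99459272db325f24e0003a98000ca7c0032d8000ab7800329e000ab74300547003d70031c0031c0031c00206000f0000f0000f0000f0000f0000f0) .leaf .leaf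
def t10 : k10.all (jb2 57 fl b11) = true := by decide +kernel
noncomputable def k11 : KT := (.br (Nat.shiftLeft (nat_lit 0x3) (nat_lit 136)) (.br (Nat.shiftLeft (nat_lit 0x1000001) (nat_lit 113)) (.br (Nat.shiftLeft (nat_lit 0x1) (nat_lit 137)) (.one (nat_lit 0x100200300400800a00f600803045481e870)) (.one (nat_lit 0x200000100400800a00f200805081401e611))) (.br (Nat.shiftLeft (nat_lit 0x2000003) (nat_lit 112)) (.one (nat_lit 0x200000200400800a00f400805081401e611)) (.one (nat_lit 0x200000300400800a00f600805081401e611)))) (.br (Nat.shiftLeft (nat_lit 0x3000003) (nat_lit 112)) (.br (Nat.shiftLeft (nat_lit 0x1800001) (nat_lit 113)) (.one (nat_lit 0x300000100400800a00f2008070c1401e611)) (.one (nat_lit 0x300000200400800a00f4008070c1401e611))) (.br (Nat.shiftLeft (nat_lit 0x1) (nat_lit 138)) (.one (nat_lit 0x300000300400800a00f6008070c1401e611)) (.one (nat_lit 0x400000100400800a00f200809101401e611)))))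
def t11 : k11.all (jb2 57 fl b0) = true := by decide +kernel
noncomputable def k12 : KT := (.br (Nat.shiftLeft (nat_lit 0x4000003) (nat_lit 112)) (.one (nat_lit 0x400000200400800a00f400809101401e611)) (.br (Nat.shiftLeft (nat_lit 0x5) (nat_lit 136)) (.one (nat_lit 0x400000300400800a00f600809101401e611)) (.one (nat_lit 0x500000100400800a00f20080b141401e611))))
noncomputable def b13 : BT := .node (nat_lit 0x1) (nat_lit 0xde228ba58c0032db000ab6410008800028) .leaf .leaf
def t12 : k12.all (jb2 57 fl b13) = true := by decide +kernel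
noncomputable def k13 : KT := (.br (Nat.shiftLeft (nat_lit 0x5000003) (nat_lit 112)) (.one (nat_lit 0x500000200400800a00f40080b141401e611)) (.one (nat_lit 0x500000300400800a00f60080b141401e611)))
def t13 : k13.all (jb2 57 fl b0) = true := by decide +kernel
noncomputable def k14 : KT := (.one (nat_lit 0x600000100400800a00f20080d181401e611))
noncomputable def b15 : BT := .node (nat_lit 0x1) (nat_lit 0x6d9a4d897c9634b212f800329a000ab800032d8000c9882000e300028) .leaf .leaf
def t14 : k14.all (jb2 57 fl b15) = true := by decide +kernel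
noncomputable def k15 : KT := (.one (nat_lit 0x600000200400800a00f40080d181401e611))
noncomputable def b16 : BT := .node (nat_lit 0x17) (nat_lit 0x6d9146132400194e80056ae0ed924d49d2de1275264800329a000ac7000325f000ac60296349aa590003a59000cb601de125f24d80032a0000aa701003bb003bb003bb0035b0035b0035b0035b0035b0035b0035b0035b0035b0035b002a0002a000240002400024000240002400024000240001e0001e0) .leaf .leaf
def t15 : k15.all (jb2 57 fl b16) = true := by decide +kernel
noncomputable def k16 : KT := (.one (nat_lit 0x600000300400800a00f60080d181401e611))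
noncomputable def b17 : BT := .node (nat_lit 0x1) (nat_lit 0xdb227524d400331a000ab6810008800028) .leaf .leaf
def t16 : k16.all (jb2 57 fl b17) = true := by decide +kernel
noncomputable def k17 : KT := (.one (nat_lit 0x700000100400800a00f20080f1c1401e611))
noncomputable def b18 : BT := .node (nat_lit 0x17) (nat_lit 0x145497a516000ea60003a590658c9d45434b193a12c893649b12f8003a1f000ad5c003317000cb640032d8000ca7c393649b12f9b645172a180065b000195000075300011cc05bc25434b2000662e00156d0326c4bd49b259097a5176d993a8a2e00d96d80265b0009d0f0005636009d4c00346b61ef0a590a8654349b12f800329a000ad5c0041db000ab80200641006410064100641005e2004cc004cc004cc004cc004cc004cc0041100411003b1003b10029b0029b0029b001e0001e0001e0001e0001e0001e0) .leaf .leaf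
def t17 : k17.all (jb2 57 fl b18) = true := by decide +kernel
noncomputable def k18 : KT := (.one (nat_lit 0x700000200400800a00f40080f1c1401e611))
noncomputable def b19 : BT := .node (nat_lit 0xb) (nat_lit 0xdb26d9a4d926c4e828bb6c9b665176f0939cae4001d4c00055b6001d2d00056b200196c0005638001d2c800473026d912fc9d2935274145c003a5d0008c78003a5a000ad6829916d9950d26a4be28bc8c49ce518000e96400ab96002e87c00ab5a004e964009b5e0e4d897c51649b145d26c99149b2590003a1f000ad60003318000cb60003a5a000ca6830054800548003d7003d7003d70031c0031c00206002060020600206000f0) .leaf .leaf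
def t18 : k18.all (jb2 57 fl b19) = true := by decide +kernel
noncomputable def k19 : KT := (.one (nat_lit 0x700000300400800a00f60080f1c1401e611))
noncomputable def b20 : BT := .node (nat_lit 0x1) (nat_lit 0x96349b92f4003a5b000ab7c10008800028) .leaf .leaf
def t19 : k19.all (jb2 57 fl b20) = true := by decide +kernel
noncomputable def k20 : KT := (.one (nat_lit 0x800000100400800a00f200811201401e611))
noncomputable def b21 : BT := .node (nat_lit 0x2b) (nat_lit 0x24d897a4be000ea60002ae106462db325f26449d25446f0a5909d000156c8005546001d2d800563400194d00056361c9b24d897a001d4c00065b20c9b93a526e00196d00065b00cb224dca2c001d2d80056ae0d4349c12f5b6496349b800743a00194f00065b000194e052c8543274000662e00196c03b6493649b00065b000196c03b664be28b259126e9374b1b6cc97a001d0f80046b6001d2d80065b0001d4c00055bc1cb193a09d200196c000653c0ed993a09d293725e945c0032d8000ac6c003a1e000ad602db36d992f8003a980008b8c1db325f258db66963274a645b685176d9945926e96349ba4dc00b263002ac600032d8002ab7800c21a0008d6c013317004ab70003a98004cb60500bde00b7e00b7e00b7e00a6700a0700a07009a7009a7009470094700947009470088d0082d007cd007cd007cd007cd006b70065700657006570059c0053c0053c0053c0053c0053c0053c0053c0053c0053c0053c0053c0053c0053c0053c0053c0053c0053c0053c0037000370)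 .leaf .leaf
def t20 : k20.all (jb2 57 fl b21) = true := by decide +kernel
noncomputable def k21 : KT := (.br (Nat.shiftLeft (nat_lit 0x8000003) (nat_lit 112)) (.one (nat_lit 0x800000200400800a00f400811201401e611)) (.one (nat_lit 0x800000300400800a00f600811201401e611)))
noncomputable def b22 : BT := .node (nat_lit 0xb) (nat_lit 0x936274945db644e828bb785b665176d9258ca86001d2d80056b2001d2d00046b800194c800563800196c00056b026d914612c6de125fa64800b2dc000ac6000b224004ac602de16d9945c003299000ac7010037c0020b0020b0015000150000f0000f0000f0000f0000f0000f0000f0) .leaf .leaf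
def t21 : k21.all (jb2 57 fl b22) = true := by decide +kernel
noncomputable def k22 : KT := (.br (Nat.shiftLeft (nat_lit 0x4800001) (nat_lit 113)) (.one (nat_lit 0x900000100400800a00f200813241401e611)) (.one (nat_lit 0x900000200400800a00f400813241401e611)))
noncomputable def b23 : BT := .node (nat_lit 0xb) (nat_lit 0x36c897c4bd49ba4e097adb325e92f400b2da002aa88013a98002cb64003a980028b88396349c24e0003a5d000cb641db425ea4dc00329d000ab701db42741508003a1d0008e5c10032600210002100021000210001b00015000150000f0000f0000f0000f0) .leaf .leaf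
def t22 : k22.all (jb2 57 fl b23) = true := by decide +kernel
noncomputable def k23 : KT := (.br (Nat.shiftLeft (nat_lit 0x800001) (nat_lit 125)) (.br (Nat.shiftLeft (nat_lit 0xa000003) (nat_lit 112)) (.br (Nat.shiftLeft (nat_lit 0x5) (nat_lit 137)) (.one (nat_lit 0x900000300400800a00f600813241401e611)) (.br (Nat.shiftLeft (nat_lit 0x5000001) (nat_lit 113)) (.one (nat_lit 0xa00000100400800a00f200815281401e611)) (.one (nat_lit 0xa00000200400800a00f400815281401e611)))) (.br (Nat.shiftLeft (nat_lit 0x1) (nat_lit 148)) (.one (nat_lit 0xa00000300400800a00f600815281401e611)) (.br (Nat.shiftLeft (nat_lit 0x1000001003) (nat_lit 112)) (.one (nat_lit 0x100000100200400800a00f402841003441e711)) (.one (nat_lit 0x100000100300400800a00f602841003441e711))))) (.br (Nat.shiftLeft (nat_lit 0x1000001) (nat_lit 125)) (.br (Nat.shiftLeft (nat_lit 0x1) (nat_lit 149)) (.one (nat_lit 0x100000200300400800a00f602841005481e711)) (.br (Nat.shiftLeft (nat_lit 0x2000001003) (nat_lit 112)) (.one (nat_lit 0x200000100200400800a00f404881003441e711)) (.one (nat_lit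 0x200000100300400800a00f604881003441e711)))) (.br (Nat.shiftLeft (nat_lit 0x3000001003) (nat_lit 112)) (.br (Nat.shiftLeft (nat_lit 0x3) (nat_lit 148)) (.one (nat_lit 0x200000200300400800a00f604881005481e711)) (.one (nat_lit 0x300000100200400800a00f4068c1003441e711))) (.br (Nat.shiftLeft (nat_lit 0x1800001) (nat_lit 125)) (.one (nat_lit 0x300000100300400800a00f6068c1003441e711)) (.one (nat_lit 0x300000200300400800a00f6068c1005481e711))))))
def t23 : k23.all (jb2 57 fl b0) = true := by decide +kernel
noncomputable def k24 : KT := (.br (Nat.shiftLeft (nat_lit 0x2000001) (nat_lit 125)) (.br (Nat.shiftLeft (nat_lit 0x4000001003) (nat_lit 112)) (.one (nat_lit 0x400000100200400800a00f408901003441e711)) (.one (nat_lit 0x400000100300400800a00f608901003441e711))) (.br (Nat.shiftLeft (nat_lit 0x5) (nat_lit 148)) (.one (nat_lit 0x400000200300400800a00f608901005481e711)) (.one (nat_lit 0x500000100200400800a00f40a941003441e711))))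
noncomputable def b25 : BT := .node (nat_lit 0x13) (nat_lit 0x36c89d293591893a5b66db249aa70400331a000ab68002b1c000ab640039db000ae58391892f4a30de128c2704003a1e0006d7800325e000ad5c2de1274a4d400331a000aa6c199149a93a4003a59000ac701db228c16840039de00090581de12749510003a1d0008d681004e2004e2003cc003cc003cc003cc003cc003cc00310002b0002b0002b000250001f0001f0001f0001f0001f0001f000190) .leaf .leaf
def t24 : k24.all (jb2 57 fl b25) = true := by decide +kernel
noncomputable def k25 : KT := (.br (Nat.shiftLeft (nat_lit 0x2800001) (nat_lit 125)) (.one (nat_lit 0x500000100300400800a00f60a941003441e711)) (.one (nat_lit 0x500000200300400800a00f60a941005481e711)))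
noncomputable def b26 : BT := .node (nat_lit 0x17) (nat_lit 0x1bc2935274a644a30544000c96c002b1c000e96c002b1a0a4d097e4e96d912e09d2001d2e800563800196c00055bc16d913a0a2e93428ba4d4003a5a0008d7000331a000cb60299249a13a4003a1a000ac701de1274a4d40032dc000aa6c1004d1004d1004d1004d1004d1004160041600416004160035b0035b0035b002a0002a0002a0002a0002a0002a0002400024000240001e0001e0001e0) .leaf .leaf
def t25 : k25.all (jb2 57 fl b26) = true := by decide +kernel
noncomputable def k26 : KT := (.br (Nat.shiftLeft (nat_lit 0x6000001003) (nat_lit 112)) (.one (nat_lit 0x600000100200400800a00f40c981003441e711)) (.one (nat_lit 0x600000100300400800a00f60c981003441e711)))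
noncomputable def b27 : BT := .node (nat_lit 0xb) (nat_lit 0x24d526c4be000cb640032a0076c89d257249a93a89d2001d0e80047ae001d4c000563816d936cd26a99149b145c003a98000ab68003a1c000ad642002c6002c6002c6002c6002c6002c60026600266001ab001ab001ab000f0) .leaf .leaf
def t26 : k26.all (jb2 57 fl b27) = true := by decide +kernel
noncomputable def k27 : KT := (.br (Nat.shiftLeft (nat_lit 0x7) (nat_lit 148)) (.one (nat_lit 0x600000200300400800a00f60c981005481e711)) (.br (Nat.shiftLeft (nat_lit 0x7000001003) (nat_lit 112)) (.one (nat_lit 0x700000100200400800a00f40e9c1003441e711)) (.one (nat_lit 0x700000100300400800a00f60e9c1003441e711))))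
noncomputable def b28 : BT := .node (nat_lit 0x13) (nat_lit 0x4b113a52c600196e00065b00c8c5b66963000ca64002b18076c89ce57291893a5b669914b192f8003a590028f5c00ab1c002ab64013a59002aa8c3db22a2150c003a980008e601003c7003c7003c7003c7003c7003c7003c700367003670036700367003060030600306003060030600306001f00019000190) .leaf .leaf
def t27 : k27.all (jb2 57 fl b28) = true := by decide +kernel
noncomputable def k28 : KT := (.br (Nat.shiftLeft (nat_lit 0x8000001003) (nat_lit 112)) (.br (Nat.shiftLeft (nat_lit 0x1) (nat_lit 151)) (.one (nat_lit 0x700000200300400800a00f60e9c1005481e711)) (.one (nat_lit 0x800000100200400800a00f410a01003441e711))) (.br (Nat.shiftLeft (nat_lit 0x4000001) (nat_lit 125)) (.one (nat_lit 0x800000100300400800a00f610a01003441e711)) (.one (nat_lit 0x800000200300400800a00f610a01005481e711))))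
noncomputable def b29 : BT := .node (nat_lit 0x11) (nat_lit 0x24d897a4bd4b1145ca86db249b9458003a98004cb68023a98002ad6001329c006ad60393727412f40032d8000ca7c1002de002de002de002de002de001c8001c80016800168001680016800168001680016800168001680016800168) .leaf .leaf
def t28 : k28.all (jb2 57 fl b29) = true := by decide +kernel
noncomputable def k29 : KT := (.br (Nat.shiftLeft (nat_lit 0x5) (nat_lit 149)) (.br (Nat.shiftLeft (nat_lit 0x9000001003) (nat_lit 112)) (.one (nat_lit 0x900000100200400800a00f412a41003441e711)) (.br (Nat.shiftLeft (nat_lit 0x4800001) (nat_lit 125)) (.one (nat_lit 0x900000100300400800a00f612a41003441e711)) (.one (nat_lit 0x900000200300400800a00f612a41005481e711)))) (.br (Nat.shiftLeft (nat_lit 0xa000001003) (nat_lit 112)) (.one (nat_lit 0xa00000100200400800a00f414a81003441e711)) (.br (Nat.shiftLeft (nat_lit 0x5000001) (nat_lit 125)) (.one (nat_lit 0xa00000100300400800a00f614a81003441e711)) (.one (nat_lit 0xa00000200300400800a00f614a81005481e711)))))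
def t29 : k29.all (jb2 57 fl b0) = true := by decide +kernel
noncomputable def s1 : KT := (.br (nat_lit 0x700000100400800a00f20080f1c1401e611) (.br (nat_lit 0x400000100400800a00f200809101401e611) (.br (nat_lit 0x800000400800a00f000801011601e511) (.br (nat_lit 0x600000400800a00f00080100d581e511) k6 (.br (nat_lit 0x700000400800a00f00080100f5c1e511) k7 k8)) (.br (nat_lit 0x900000400800a00f000801013641e511) k9 (.br (nat_lit 0x100000300400800a00f600803041401e611) k10 k11))) (.br (nat_lit 0x600000100400800a00f20080d181401e611) (.br (nat_lit 0x500000100400800a00f20080b141401e611) k12 (.br (nat_lit 0x500000300400800a00f60080b141401e611) k13 k14)) (.br (nat_lit 0x600000200400800a00f40080d181401e611) k15 (.br (nat_lit 0x600000300400800a00f60080d181401e611) k16 k17)))) (.br (nat_lit 0x300000200300400800a00f6068c1005481e711) (.br (nat_lit 0x800000100400800a00f200811201401e611) (.br (nat_lit 0x700000200400800a00f40080f1c1401e611) k18 (.br (nat_lit 0x700000300400800a00f60080f1c1401e611) k19 k20)) (.br (nat_lit 0x800000300400800a00f600811201401e611)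 k21 (.br (nat_lit 0x900000200400800a00f400813241401e611) k22 k23))) (.br (nat_lit 0x600000100300400800a00f60c981003441e711) (.br (nat_lit 0x500000100200400800a00f40a941003441e711) k24 (.br (nat_lit 0x500000200300400800a00f60a941005481e711) k25 k26)) (.br (nat_lit 0x700000100300400800a00f60e9c1003441e711) k27 (.br (nat_lit 0x800000200300400800a00f610a01005481e711) k28 k29)))))
noncomputable def u1 : KT := (.one (nat_lit 0x400800a00f000801001401e540))
def w1 : u1.all (wj 57 s1) = true := by decide +kernel
def o1 : OkW 57 (jb2 57 fl) u1 := .lift s1 _ (.br _ _ _ (.br _ _ _ (.br _ _ _ (.br _ _ _ (.leaf b7 k6 t6) (.br _ _ _ (.leaf b8 k7 t7) (.leaf b9 k8 t8))) (.br _ _ _ (.leaf b10 k9 t9) (.br _ _ _ (.leaf b11 k10 t10) (.leaf b0 k11 t11)))) (.br _ _ _ (.br _ _ _ (.leaf b13 k12 t12) (.br _ _ _ (.leaf b0 k13 t13) (.leaf b15 k14 t14))) (.br _ _ _ (.leaf b16 k15 t15) (.br _ _ _ (.leaf b17 k16 t16) (.leaf b18 k17 t17))))) (.br _ _ _ (.br _ _ _ (.br _ _ _ (.leaf b19 k18 t18) (.br _ _ _ (.leaf b20 k19 t19) (.leaf b21 k20 t20))) (.br _ _ _ (.leaf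 b22 k21 t21) (.br _ _ _ (.leaf b23 k22 t22) (.leaf b0 k23 t23)))) (.br _ _ _ (.br _ _ _ (.leaf b25 k24 t24) (.br _ _ _ (.leaf b26 k25 t25) (.leaf b27 k26 t26))) (.br _ _ _ (.leaf b28 k27 t27) (.br _ _ _ (.leaf b29 k28 t28) (.leaf b0 k29 t29)))))) w1
noncomputable def k30 : KT := (.br (Nat.shiftLeft (nat_lit 0x1003) (nat_lit 112)) (.br (Nat.shiftLeft (nat_lit 0x3) (nat_lit 112)) (.br (Nat.shiftLeft (nat_lit 0x1) (nat_lit 112)) (.one (nat_lit 0x400800a0100008010014021500)) (.br (Nat.shiftLeft (nat_lit 0x1) (nat_lit 113)) (.one (nat_lit 0x100400800a0102008010014021600)) (.one (nat_lit 0x200400800a0104008010014021600)))) (.br (Nat.shiftLeft (nat_lit 0x1) (nat_lit 124)) (.one (nat_lit 0x300400800a0106008010014021600)) (.br (Nat.shiftLeft (nat_lit 0x801) (nat_lit 113)) (.one (nat_lit 0x100000400800a0100008010034420511)) (.one (nat_lit 0x100200400800a0104008010034421700))))) (.br (Nat.shiftLeft (nat_lit 0x3) (nat_lit 124)) (.br (Nat.shiftLeft (nat_lit 0x1) (nat_lit 125)) (.one (nat_lit 0x100300400800a0106008010034421700)) (.br (Nat.shiftLeft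 (nat_lit 0x1001) (nat_lit 113)) (.one (nat_lit 0x200000400800a0100008010054820511)) (.one (nat_lit 0x200300400800a0106008010054821700)))) (.br (Nat.shiftLeft (nat_lit 0x5) (nat_lit 124)) (.br (Nat.shiftLeft (nat_lit 0x1) (nat_lit 126)) (.one (nat_lit 0x300000400800a0100008010074c20511)) (.one (nat_lit 0x400000400800a0100008010095020511))) (.br (Nat.shiftLeft (nat_lit 0x3) (nat_lit 125)) (.one (nat_lit 0x500000400800a01000080100b5420511)) (.one (nat_lit 0x600000400800a01000080100d5820511))))))
def t30 : k30.all (jb2 57 fl b0) = true := by decide +kernel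
noncomputable def k31 : KT := (.br (Nat.shiftLeft (nat_lit 0x1) (nat_lit 127)) (.one (nat_lit 0x700000400800a01000080100f5c20511)) (.one (nat_lit 0x800000400800a0100008010116020511)))
noncomputable def b32 : BT := .node (nat_lit 0xb) (nat_lit 0x132296449b80074b400194d83b644e92a180065b00015ac8323149b259000329a000ab68100211001b1001510015100151001510015100151000f0000f0000f0000f0) .leaf .leaf
def t31 : k31.all (jb2 57 fl b32) = true := by decide +kernel
noncomputable def k32 : KT := (.br (Nat.shiftLeft (nat_lit 0x1) (nat_lit 136)) (.br (Nat.shiftLeft (nat_lit 0x5) (nat_lit 125)) (.one (nat_lit 0x900000400800a0100008010136420511)) (.one (nat_lit 0xa00000400800a0100008010156820511))) (.br (Nat.shiftLeft (nat_lit 0x800001) (nat_lit 113)) (.one (nat_lit 0x100000100400800a0102008030414020611)) (.br (Nat.shiftLeft (nat_lit 0x1000003) (nat_lit 112)) (.one (nat_lit 0x100000200400800a0104008030414020611)) (.one (nat_lit 0x100000300400800a0106008030414020611)))))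
noncomputable def b33 : BT := .node (nat_lit 0x17) (nat_lit 0x1b66db325f000753000156f03509b684be6d915112c600210d000554600198c800563014b192f8a8696328b12f80039e3000ad640032db000c9882db349c950db649384b224e097c5160010778002398000e974002b1a000ea600032d90e4dc97c4bf000ea600032db068b24e0a2edb26d9a4e0003a98000e968003a99000ab742005e5005e5005e5005e5005e5005e5005e500585004cb004100041000410002fa002fa002fa002fa002fa0029a0029a0029a0029a001e0001e0001e0) .leaf .leaf
def t32 : k32.all (jb2 57 fl b33) = true := by decide +kernel
noncomputable def k33 : KT := (.br (Nat.shiftLeft (nat_lit 0x1800001) (nat_lit 113)) (.br (Nat.shiftLeft (nat_lit 0x1000001) (nat_lit 113)) (.br (Nat.shiftLeft (nat_lit 0x1) (nat_lit 137)) (.one (nat_lit 0x100200300400800a0106008030454820870)) (.one (nat_lit 0x200000100400800a0102008050814020611))) (.br (Nat.shiftLeft (nat_lit 0x2000003) (nat_lit 112)) (.one (nat_lit 0x200000200400800a0104008050814020611)) (.br (Nat.shiftLeft (nat_lit 0x3) (nat_lit 136)) (.one (nat_lit 0x200000300400800a0106008050814020611)) (.one (nat_lit 0x300000100400800a0102008070c14020611)))))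 (.br (Nat.shiftLeft (nat_lit 0x1) (nat_lit 138)) (.br (Nat.shiftLeft (nat_lit 0x3000003) (nat_lit 112)) (.one (nat_lit 0x300000200400800a0104008070c14020611)) (.one (nat_lit 0x300000300400800a0106008070c14020611))) (.br (Nat.shiftLeft (nat_lit 0x2000001) (nat_lit 113)) (.one (nat_lit 0x400000100400800a0102008091014020611)) (.br (Nat.shiftLeft (nat_lit 0x4000003) (nat_lit 112)) (.one (nat_lit 0x400000200400800a0104008091014020611)) (.one (nat_lit 0x400000300400800a0106008091014020611))))))
def t33 : k33.all (jb2 57 fl b0) = true := by decide +kernel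
noncomputable def k34 : KT := (.br (Nat.shiftLeft (nat_lit 0x2800001) (nat_lit 113)) (.one (nat_lit 0x500000100400800a01020080b1414020611)) (.br (Nat.shiftLeft (nat_lit 0x5000003) (nat_lit 112)) (.one (nat_lit 0x500000200400800a01040080b1414020611)) (.one (nat_lit 0x500000300400800a01060080b1414020611))))
def t34 : k34.all (jb2 57 fl b0) = true := by decide +kernel
noncomputable def k35 : KT := (.br (Nat.shiftLeft (nat_lit 0x3000001) (nat_lit 113)) (.one (nat_lit 0x600000100400800a01020080d1814020611)) (.one (nat_lit 0x600000200400800a01040080d1814020611)))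
def t35 : k35.all (jb2 57 fl b0) = true := by decide +kernel
noncomputable def k36 : KT := (.br (Nat.shiftLeft (nat_lit 0x7) (nat_lit 136)) (.one (nat_lit 0x600000300400800a01060080d1814020611)) (.one (nat_lit 0x700000100400800a01020080f1c14020611)))
noncomputable def b37 : BT := .node (nat_lit 0x1) (nat_lit 0x9916da150c003a5a000ad5c10008800028) .leaf .leaf
def t36 : k36.all (jb2 57 fl b37) = true := by decide +kernel
noncomputable def k37 : KT := (.br (Nat.shiftLeft (nat_lit 0x7000003) (nat_lit 112)) (.one (nat_lit 0x700000200400800a01040080f1c14020611)) (.one (nat_lit 0x700000300400800a01060080f1c14020611)))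
noncomputable def b38 : BT := .node (nat_lit 0x1) (nat_lit 0xde128b258c003318000ab6410008800028) .leaf .leaf
def t37 : k37.all (jb2 57 fl b38) = true := by decide +kernel
noncomputable def k38 : KT := (.br (Nat.shiftLeft (nat_lit 0x4000001) (nat_lit 113)) (.one (nat_lit 0x800000100400800a0102008112014020611)) (.br (Nat.shiftLeft (nat_lit 0x8000003) (nat_lit 112)) (.one (nat_lit 0x800000200400800a0104008112014020611)) (.one (nat_lit 0x800000300400800a0106008112014020611))))
noncomputable def b39 : BT := .node (nat_lit 0x1) (nat_lit 0xdb2274945c003a5b0008d7010008800028) .leaf .leaf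
def t38 : k38.all (jb2 57 fl b39) = true := by decide +kernel
noncomputable def k39 : KT := (.br (Nat.shiftLeft (nat_lit 0x9000003) (nat_lit 112)) (.br (Nat.shiftLeft (nat_lit 0x4800001) (nat_lit 113)) (.one (nat_lit 0x900000100400800a0102008132414020611)) (.one (nat_lit 0x900000200400800a0104008132414020611))) (.br (Nat.shiftLeft (nat_lit 0x5) (nat_lit 137)) (.one (nat_lit 0x900000300400800a0106008132414020611)) (.br (Nat.shiftLeft (nat_lit 0x5000001) (nat_lit 113)) (.one (nat_lit 0xa00000100400800a0102008152814020611)) (.one (nat_lit 0xa00000200400800a0104008152814020611)))))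
def t39 : k39.all (jb2 57 fl b0) = true := by decide +kernel
noncomputable def k40 : KT := (.br (Nat.shiftLeft (nat_lit 0x3) (nat_lit 148)) (.br (Nat.shiftLeft (nat_lit 0x800001) (nat_lit 125)) (.br (Nat.shiftLeft (nat_lit 0x1) (nat_lit 148)) (.one (nat_lit 0xa00000300400800a0106008152814020611)) (.br (Nat.shiftLeft (nat_lit 0x1000001003) (nat_lit 112)) (.one (nat_lit 0x100000100200400800a0104028410034420711)) (.one (nat_lit 0x100000100300400800a0106028410034420711)))) (.br (Nat.shiftLeft (nat_lit 0x2000001003) (nat_lit 112)) (.br (Nat.shiftLeft (nat_lit 0x1) (nat_lit 149)) (.one (nat_lit 0x100000200300400800a0106028410054820711)) (.one (nat_lit 0x200000100200400800a0104048810034420711))) (.br (Nat.shiftLeft (nat_lit 0x1000001) (nat_lit 125)) (.one (nat_lit 0x200000100300400800a0106048810034420711)) (.one (nat_lit 0x200000200300400800a0106048810054820711))))) (.br (Nat.shiftLeft (nat_lit 0x1) (nat_lit 150)) (.br (Nat.shiftLeft (nat_lit 0x3000001003) (nat_lit 112)) (.one (nat_lit 0x300000100200400800a0104068c10034420711)) (.br (Nat.shiftLeft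 (nat_lit 0x1800001) (nat_lit 125)) (.one (nat_lit 0x300000100300400800a0106068c10034420711)) (.one (nat_lit 0x300000200300400800a0106068c10054820711)))) (.br (Nat.shiftLeft (nat_lit 0x2000001) (nat_lit 125)) (.br (Nat.shiftLeft (nat_lit 0x4000001003) (nat_lit 112)) (.one (nat_lit 0x400000100200400800a0104089010034420711)) (.one (nat_lit 0x400000100300400800a0106089010034420711))) (.br (Nat.shiftLeft (nat_lit 0x5) (nat_lit 148)) (.one (nat_lit 0x400000200300400800a0106089010054820711)) (.one (nat_lit 0x500000100200400800a01040a9410034420711))))))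
def t40 : k40.all (jb2 57 fl b0) = true := by decide +kernel
noncomputable def k41 : KT := (.br (Nat.shiftLeft (nat_lit 0x3) (nat_lit 149)) (.br (Nat.shiftLeft (nat_lit 0x2800001) (nat_lit 125)) (.one (nat_lit 0x500000100300400800a01060a9410034420711)) (.one (nat_lit 0x500000200300400800a01060a9410054820711))) (.br (Nat.shiftLeft (nat_lit 0x6000001003) (nat_lit 112)) (.one (nat_lit 0x600000100200400800a01040c9810034420711)) (.one (nat_lit 0x600000100300400800a01060c9810034420711))))
def t41 : k41.all (jb2 57 fl b0) = true := by decide +kernel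
noncomputable def k42 : KT := (.br (Nat.shiftLeft (nat_lit 0x7000001003) (nat_lit 112)) (.br (Nat.shiftLeft (nat_lit 0x7) (nat_lit 148)) (.one (nat_lit 0x600000200300400800a01060c9810054820711)) (.one (nat_lit 0x700000100200400800a01040e9c10034420711))) (.br (Nat.shiftLeft (nat_lit 0x3800001) (nat_lit 125)) (.one (nat_lit 0x700000100300400800a01060e9c10034420711)) (.br (Nat.shiftLeft (nat_lit 0x1) (nat_lit 151)) (.one (nat_lit 0x700000200300400800a01060e9c10054820711)) (.one (nat_lit 0x800000100200400800a010410a010034420711)))))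
def t42 : k42.all (jb2 57 fl b0) = true := by decide +kernel
noncomputable def k43 : KT := (.br (Nat.shiftLeft (nat_lit 0x4800001) (nat_lit 125)) (.br (Nat.shiftLeft (nat_lit 0x9) (nat_lit 148)) (.br (Nat.shiftLeft (nat_lit 0x4000001) (nat_lit 125)) (.one (nat_lit 0x800000100300400800a010610a010034420711)) (.one (nat_lit 0x800000200300400800a010610a010054820711))) (.br (Nat.shiftLeft (nat_lit 0x9000001003) (nat_lit 112)) (.one (nat_lit 0x900000100200400800a010412a410034420711)) (.one (nat_lit 0x900000100300400800a010612a410034420711)))) (.br (Nat.shiftLeft (nat_lit 0xa000001003) (nat_lit 112)) (.br (Nat.shiftLeft (nat_lit 0x5) (nat_lit 149)) (.one (nat_lit 0x900000200300400800a010612a410054820711)) (.one (nat_lit 0xa00000100200400800a010414a810034420711))) (.br (Nat.shiftLeft (nat_lit 0x5000001) (nat_lit 125)) (.one (nat_lit 0xa00000100300400800a010614a810034420711)) (.one (nat_lit 0xa00000200300400800a010614a810054820711)))))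
def t43 : k43.all (jb2 57 fl b0) = true := by decide +kernel
noncomputable def s2 : KT := (.br (nat_lit 0x700000100400800a01020080f1c14020611) (.br (nat_lit 0x100000300400800a0106008030414020611) (.br (nat_lit 0x600000400800a01000080100d5820511) k30 (.br (nat_lit 0x800000400800a0100008010116020511) k31 k32)) (.br (nat_lit 0x500000300400800a01060080b1414020611) (.br (nat_lit 0x400000300400800a0106008091014020611) k33 k34) (.br (nat_lit 0x600000200400800a01040080d1814020611) k35 k36))) (.br (nat_lit 0xa00000200400800a0104008152814020611) (.br (nat_lit 0x700000300400800a01060080f1c14020611) k37 (.br (nat_lit 0x800000300400800a0106008112014020611) k38 k39)) (.br (nat_lit 0x600000100300400800a01060c9810034420711) (.br (nat_lit 0x500000100200400800a01040a9410034420711) k40 k41) (.br (nat_lit 0x800000100200400800a010410a010034420711) k42 k43))))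
noncomputable def u2 : KT := (.one (nat_lit 0x400800a0100008010014020540))
def w2 : u2.all (wj 57 s2) = true := by decide +kernel
def o2 : OkW 57 (jb2 57 fl) u2 := .lift s2 _ (.br _ _ _ (.br _ _ _ (.br _ _ _ (.leaf b0 k30 t30) (.br _ _ _ (.leaf b32 k31 t31) (.leaf b33 k32 t32))) (.br _ _ _ (.br _ _ _ (.leaf b0 k33 t33) (.leaf b0 k34 t34)) (.br _ _ _ (.leaf b0 k35 t35) (.leaf b37 k36 t36)))) (.br _ _ _ (.br _ _ _ (.leaf b38 k37 t37) (.br _ _ _ (.leaf b39 k38 t38) (.leaf b0 k39 t39))) (.br _ _ _ (.br _ _ _ (.leaf b0 k40 t40) (.leaf b0 k41 t41)) (.br _ _ _ (.leaf b0 k42 t42) (.leaf b0 k43 t43))))) w2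
noncomputable def k44 : KT := (.br (Nat.shiftLeft (nat_lit 0x1002004005009) (nat_lit 65)) (.br (Nat.shiftLeft (nat_lit 0x400800b00d) (nat_lit 64)) (.br (Nat.shiftLeft (nat_lit 0x400800a013) (nat_lit 64)) (.br (Nat.shiftLeft (nat_lit 0x2004005009) (nat_lit 65)) (.one (nat_lit 0x400800a0110008010014023500)) (.one (nat_lit 0x400800a0120008010014025500))) (.br (Nat.shiftLeft (nat_lit 0x400800b) (nat_lit 76)) (.one (nat_lit 0x400800a0130008010014027500)) (.one (nat_lit 0x400800b00c0008010016019500)))) (.br (Nat.shiftLeft (nat_lit 0x802004005009) (nat_lit 65)) (.br (Nat.shiftLeft (nat_lit 0x1) (nat_lit 112)) (.one (nat_lit 0x400800b00d000801001601b500)) (.one (nat_lit 0x100400800a0112008010014023600))) (.br (Nat.shiftLeft (nat_lit 0x100400800a013) (nat_lit 64)) (.one (nat_lit 0x100400800a0122008010014025600)) (.br (Nat.shiftLeft (nat_lit 0x1) (nat_lit 113)) (.one (nat_lit 0x100400800a0132008010014026650)) (.one (nat_lit 0x200400800a0114008010014023600)))))) (.br (Nat.shiftLeft (nat_lit 0x300400800a013) (nat_lit 64)) (.br (Nat.shiftLeft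 (nat_lit 0x3) (nat_lit 112)) (.br (Nat.shiftLeft (nat_lit 0x200400800a013) (nat_lit 64)) (.one (nat_lit 0x200400800a0124008010014025600)) (.one (nat_lit 0x200400800a0134008010014027600))) (.br (Nat.shiftLeft (nat_lit 0x1802004005009) (nat_lit 65)) (.one (nat_lit 0x300400800a0116008010014023600)) (.one (nat_lit 0x300400800a0126008010014025600)))) (.br (Nat.shiftLeft (nat_lit 0x800002004005009) (nat_lit 65)) (.br (Nat.shiftLeft (nat_lit 0x1) (nat_lit 124)) (.one (nat_lit 0x300400800a0136008010014027600)) (.one (nat_lit 0x100000400800a0110008010034422511))) (.br (Nat.shiftLeft (nat_lit 0x100000400800a013) (nat_lit 64)) (.one (nat_lit 0x100000400800a0120008010034424511)) (.br (Nat.shiftLeft (nat_lit 0x801) (nat_lit 113)) (.one (nat_lit 0x100000400800a0130008010034426511)) (.one (nat_lit 0x100200400800a0114008010034423700)))))))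
def t44 : k44.all (jb2 57 fl b0) = true := by decide +kernel
noncomputable def k45 : KT := (.one (nat_lit 0x100200400800a0124008010034424760))
def t45 : k45.all (jb2 57 fl b0) = true := by decide +kernel
noncomputable def k46 : KT := (.one (nat_lit 0x100200400800a0134008010034426760))
def t46 : k46.all (jb2 57 fl b0) = true := by decide +kernel
noncomputable def k47 : KT := (.one (nat_lit 0x100300400800a0116008010034422760))
def t47 : k47.all (jb2 57 fl b0) = true := by decide +kernel
noncomputable def k48 : KT := (.br (Nat.shiftLeft (nat_lit 0x1) (nat_lit 125)) (.br (Nat.shiftLeft (nat_lit 0x100300400800a013) (nat_lit 64)) (.one (nat_lit 0x100300400800a0126008010034424760)) (.one (nat_lit 0x100300400800a0136008010034426760))) (.br (Nat.shiftLeft (nat_lit 0x1000002004005009) (nat_lit 65)) (.one (nat_lit 0x200000400800a0110008010054822511)) (.br (Nat.shiftLeft (nat_lit 0x200000400800a013) (nat_lit 64)) (.one (nat_lit 0x200000400800a0120008010054824511)) (.one (nat_lit 0x200000400800a0130008010054826511)))))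
def t48 : k48.all (jb2 57 fl b0) = true := by decide +kernel
noncomputable def k49 : KT := (.one (nat_lit 0x200300400800a0116008010054822760))
def t49 : k49.all (jb2 57 fl b0) = true := by decide +kernel
noncomputable def k50 : KT := (.br (Nat.shiftLeft (nat_lit 0x3) (nat_lit 124)) (.br (Nat.shiftLeft (nat_lit 0x200300400800a013) (nat_lit 64)) (.one (nat_lit 0x200300400800a0126008010054824760)) (.one (nat_lit 0x200300400800a0136008010054826760))) (.br (Nat.shiftLeft (nat_lit 0x1800002004005009) (nat_lit 65)) (.one (nat_lit 0x300000400800a0110008010074c22511)) (.br (Nat.shiftLeft (nat_lit 0x300000400800a013) (nat_lit 64)) (.one (nat_lit 0x300000400800a0120008010074c24511)) (.one (nat_lit 0x300000400800a0130008010074c26511)))))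
def t50 : k50.all (jb2 57 fl b0) = true := by decide +kernel
noncomputable def k51 : KT := (.br (Nat.shiftLeft (nat_lit 0x5) (nat_lit 124)) (.br (Nat.shiftLeft (nat_lit 0x2000002004005009) (nat_lit 65)) (.one (nat_lit 0x400000400800a0110008010095022511)) (.br (Nat.shiftLeft (nat_lit 0x400000400800a013) (nat_lit 64)) (.one (nat_lit 0x400000400800a0120008010095024511)) (.one (nat_lit 0x400000400800a0130008010095026511)))) (.br (Nat.shiftLeft (nat_lit 0x2800002004005009) (nat_lit 65)) (.one (nat_lit 0x500000400800a01100080100b5422511)) (.br (Nat.shiftLeft (nat_lit 0x500000400800a013) (nat_lit 64)) (.one (nat_lit 0x500000400800a01200080100b5424511)) (.one (nat_lit 0x500000400800a01300080100b5426511)))))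
def t51 : k51.all (jb2 57 fl b0) = true := by decide +kernel
noncomputable def k52 : KT := (.br (Nat.shiftLeft (nat_lit 0x3000002004005009) (nat_lit 65)) (.one (nat_lit 0x600000400800a01100080100d5822511)) (.br (Nat.shiftLeft (nat_lit 0x600000400800a013) (nat_lit 64)) (.one (nat_lit 0x600000400800a01200080100d5824511)) (.one (nat_lit 0x600000400800a01300080100d5826511))))
def t52 : k52.all (jb2 57 fl b0) = true := by decide +kernel
noncomputable def k53 : KT := (.br (Nat.shiftLeft (nat_lit 0x3800002004005009) (nat_lit 65)) (.one (nat_lit 0x700000400800a01100080100f5c22511)) (.br (Nat.shiftLeft (nat_lit 0x700000400800a013) (nat_lit 64)) (.one (nat_lit 0x700000400800a01200080100f5c24511)) (.one (nat_lit 0x700000400800a01300080100f5c26511))))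
def t53 : k53.all (jb2 57 fl b0) = true := by decide +kernel
noncomputable def k54 : KT := (.br (Nat.shiftLeft (nat_lit 0x4000002004005009) (nat_lit 65)) (.one (nat_lit 0x800000400800a0110008010116022511)) (.br (Nat.shiftLeft (nat_lit 0x800000400800a013) (nat_lit 64)) (.one (nat_lit 0x800000400800a0120008010116024511)) (.one (nat_lit 0x800000400800a0130008010116026511))))
def t54 : k54.all (jb2 57 fl b0) = true := by decide +kernel
noncomputable def k55 : KT := (.br (Nat.shiftLeft (nat_lit 0x800001802004005009) (nat_lit 65)) (.br (Nat.shiftLeft (nat_lit 0x1) (nat_lit 136)) (.br (Nat.shiftLeft (nat_lit 0x5) (nat_lit 125)) (.br (Nat.shiftLeft (nat_lit 0x4800002004005009) (nat_lit 65)) (.one (nat_lit 0x900000400800a0110008010136422511)) (.br (Nat.shiftLeft (nat_lit 0x900000400800a013) (nat_lit 64)) (.one (nat_lit 0x900000400800a0120008010136424511)) (.one (nat_lit 0x900000400800a0130008010136426511)))) (.br (Nat.shiftLeft (nat_lit 0x5000002004005009) (nat_lit 65)) (.one (nat_lit 0xa00000400800a0110008010156822511)) (.br (Nat.shiftLeft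 (nat_lit 0xa00000400800a013) (nat_lit 64)) (.one (nat_lit 0xa00000400800a0120008010156824511)) (.one (nat_lit 0xa00000400800a0130008010156826511))))) (.br (Nat.shiftLeft (nat_lit 0x800001002004005009) (nat_lit 65)) (.br (Nat.shiftLeft (nat_lit 0x800000802004005009) (nat_lit 65)) (.one (nat_lit 0x100000100400800a0112008030414022611)) (.br (Nat.shiftLeft (nat_lit 0x800001) (nat_lit 113)) (.one (nat_lit 0x100000100400800a0122008030414024611)) (.one (nat_lit 0x100000200400800a0114008030414022611)))) (.br (Nat.shiftLeft (nat_lit 0x100000200400800a013) (nat_lit 64)) (.one (nat_lit 0x100000200400800a0124008030414024611)) (.br (Nat.shiftLeft (nat_lit 0x1000003) (nat_lit 112)) (.one (nat_lit 0x100000200400800a0134008030414026611)) (.one (nat_lit 0x100000300400800a0116008030414022611)))))) (.br (Nat.shiftLeft (nat_lit 0x200000200400800a013) (nat_lit 64)) (.br (Nat.shiftLeft (nat_lit 0x1000000802004005009) (nat_lit 65)) (.br (Nat.shiftLeft (nat_lit 0x100000300400800a013) (nat_lit 64)) (.one (nat_lit 0x100000300400800a0126008030414024611)) (.br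 (Nat.shiftLeft (nat_lit 0x1) (nat_lit 137)) (.one (nat_lit 0x100000300400800a0136008030414026611)) (.one (nat_lit 0x200000100400800a0112008050814022611)))) (.br (Nat.shiftLeft (nat_lit 0x1000001) (nat_lit 113)) (.one (nat_lit 0x200000100400800a0122008050814024611)) (.br (Nat.shiftLeft (nat_lit 0x1000001002004005009) (nat_lit 65)) (.one (nat_lit 0x200000200400800a0114008050814022611)) (.one (nat_lit 0x200000200400800a0124008050814024611))))) (.br (Nat.shiftLeft (nat_lit 0x200000300400800a013) (nat_lit 64)) (.br (Nat.shiftLeft (nat_lit 0x2000003) (nat_lit 112)) (.one (nat_lit 0x200000200400800a0134008050814026611)) (.br (Nat.shiftLeft (nat_lit 0x1000001802004005009) (nat_lit 65)) (.one (nat_lit 0x200000300400800a0116008050814022611)) (.one (nat_lit 0x200000300400800a0126008050814024611)))) (.br (Nat.shiftLeft (nat_lit 0x3) (nat_lit 136)) (.one (nat_lit 0x200000300400800a0136008050814026611)) (.br (Nat.shiftLeft (nat_lit 0x1800000802004005009) (nat_lit 65)) (.one (nat_lit 0x300000100400800a0112008070c14022611)) (.one (nat_lit 0x300000100400800a0122008070c14024611)))))))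
noncomputable def b56 : BT := .node (nat_lit 0xb) (nat_lit 0x9636d992fc0042590008b90193749c92fc003a9a000ab801001b0001b0001b0001b0001b0001500015000150000f0000f0000f0000f0) .leaf .leaf
def t55 : k55.all (jb2 57 fl b56) = true := by decide +kernel
noncomputable def k56 : KT := (.br (Nat.shiftLeft (nat_lit 0x2000000802004005009) (nat_lit 65)) (.br (Nat.shiftLeft (nat_lit 0x3000003) (nat_lit 112)) (.br (Nat.shiftLeft (nat_lit 0x1800001002004005009) (nat_lit 65)) (.one (nat_lit 0x300000200400800a0114008070c14022611)) (.br (Nat.shiftLeft (nat_lit 0x300000200400800a013) (nat_lit 64)) (.one (nat_lit 0x300000200400800a0124008070c14024611)) (.one (nat_lit 0x300000200400800a0134008070c14026611)))) (.br (Nat.shiftLeft (nat_lit 0x300000300400800a013) (nat_lit 64)) (.br (Nat.shiftLeft (nat_lit 0x1800001802004005009) (nat_lit 65)) (.one (nat_lit 0x300000300400800a0116008070c14022611)) (.one (nat_lit 0x300000300400800a0126008070c14024611))) (.br (Nat.shiftLeft (nat_lit 0x1) (nat_lit 138)) (.one (nat_lit 0x300000300400800a0136008070c14026611)) (.one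 (nat_lit 0x400000100400800a0112008091014022611))))) (.br (Nat.shiftLeft (nat_lit 0x400000200400800a013) (nat_lit 64)) (.br (Nat.shiftLeft (nat_lit 0x2000001) (nat_lit 113)) (.one (nat_lit 0x400000100400800a0122008091014024611)) (.br (Nat.shiftLeft (nat_lit 0x2000001002004005009) (nat_lit 65)) (.one (nat_lit 0x400000200400800a0114008091014022611)) (.one (nat_lit 0x400000200400800a0124008091014024611)))) (.br (Nat.shiftLeft (nat_lit 0x2000001802004005009) (nat_lit 65)) (.br (Nat.shiftLeft (nat_lit 0x4000003) (nat_lit 112)) (.one (nat_lit 0x400000200400800a0134008091014026611)) (.one (nat_lit 0x400000300400800a0116008091014022611))) (.br (Nat.shiftLeft (nat_lit 0x400000300400800a013) (nat_lit 64)) (.one (nat_lit 0x400000300400800a0126008091014024611)) (.one (nat_lit 0x400000300400800a0136008091014026611))))))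
def t56 : k56.all (jb2 57 fl b0) = true := by decide +kernel
noncomputable def k57 : KT := (.br (Nat.shiftLeft (nat_lit 0x2800001) (nat_lit 113)) (.br (Nat.shiftLeft (nat_lit 0x2800000802004005009) (nat_lit 65)) (.one (nat_lit 0x500000100400800a01120080b1414022611)) (.one (nat_lit 0x500000100400800a01220080b1414024611))) (.br (Nat.shiftLeft (nat_lit 0x2800001002004005009) (nat_lit 65)) (.one (nat_lit 0x500000200400800a01140080b1414022611)) (.one (nat_lit 0x500000200400800a01240080b1414024611))))
def t57 : k57.all (jb2 57 fl b0) = true := by decide +kernel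
noncomputable def k58 : KT := (.br (Nat.shiftLeft (nat_lit 0x2800001802004005009) (nat_lit 65)) (.br (Nat.shiftLeft (nat_lit 0x5000003) (nat_lit 112)) (.one (nat_lit 0x500000200400800a01340080b1414026611)) (.one (nat_lit 0x500000300400800a01160080b1414022611))) (.br (Nat.shiftLeft (nat_lit 0x500000300400800a013) (nat_lit 64)) (.one (nat_lit 0x500000300400800a01260080b1414024611)) (.br (Nat.shiftLeft (nat_lit 0x3) (nat_lit 137)) (.one (nat_lit 0x500000300400800a01360080b1414026611)) (.one (nat_lit 0x600000100400800a01120080d1814022611)))))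
def t58 : k58.all (jb2 57 fl b0) = true := by decide +kernel
noncomputable def k59 : KT := (.br (Nat.shiftLeft (nat_lit 0x3000001002004005009) (nat_lit 65)) (.br (Nat.shiftLeft (nat_lit 0x3000001) (nat_lit 113)) (.one (nat_lit 0x600000100400800a01220080d1814024611)) (.one (nat_lit 0x600000200400800a01140080d1814022611))) (.br (Nat.shiftLeft (nat_lit 0x600000200400800a013) (nat_lit 64)) (.one (nat_lit 0x600000200400800a01240080d1814024611)) (.one (nat_lit 0x600000200400800a01340080d1814026611))))
def t59 : k59.all (jb2 57 fl b0) = true := by decide +kernel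
noncomputable def k60 : KT := (.br (Nat.shiftLeft (nat_lit 0x600000300400800a013) (nat_lit 64)) (.br (Nat.shiftLeft (nat_lit 0x3000001802004005009) (nat_lit 65)) (.one (nat_lit 0x600000300400800a01160080d1814022611)) (.one (nat_lit 0x600000300400800a01260080d1814024611))) (.br (Nat.shiftLeft (nat_lit 0x7) (nat_lit 136)) (.one (nat_lit 0x600000300400800a01360080d1814026611)) (.one (nat_lit 0x700000100400800a01120080f1c14022611))))
def t60 : k60.all (jb2 57 fl b0) = true := by decide +kernel
noncomputable def k61 : KT := (.br (Nat.shiftLeft (nat_lit 0x3800001002004005009) (nat_lit 65)) (.br (Nat.shiftLeft (nat_lit 0x3800001) (nat_lit 113)) (.one (nat_lit 0x700000100400800a01220080f1c14024611)) (.one (nat_lit 0x700000200400800a01140080f1c14022611))) (.br (Nat.shiftLeft (nat_lit 0x700000200400800a013) (nat_lit 64)) (.one (nat_lit 0x700000200400800a01240080f1c14024611)) (.br (Nat.shiftLeft (nat_lit 0x7000003) (nat_lit 112)) (.one (nat_lit 0x700000200400800a01340080f1c14026611)) (.one (nat_lit 0x700000300400800a01160080f1c14022611)))))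
def t61 : k61.all (jb2 57 fl b0) = true := by decide +kernel
noncomputable def k62 : KT := (.br (Nat.shiftLeft (nat_lit 0x1) (nat_lit 139)) (.br (Nat.shiftLeft (nat_lit 0x700000300400800a013) (nat_lit 64)) (.one (nat_lit 0x700000300400800a01260080f1c14024611)) (.one (nat_lit 0x700000300400800a01360080f1c14026611))) (.br (Nat.shiftLeft (nat_lit 0x4000000802004005009) (nat_lit 65)) (.one (nat_lit 0x800000100400800a0112008112014022611)) (.br (Nat.shiftLeft (nat_lit 0x4000001) (nat_lit 113)) (.one (nat_lit 0x800000100400800a0122008112014024611)) (.one (nat_lit 0x800000200400800a0114008112014022611)))))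
def t62 : k62.all (jb2 57 fl b0) = true := by decide +kernel
noncomputable def k63 : KT := (.br (Nat.shiftLeft (nat_lit 0x800000300400800a013) (nat_lit 64)) (.br (Nat.shiftLeft (nat_lit 0x8000003) (nat_lit 112)) (.br (Nat.shiftLeft (nat_lit 0x800000200400800a013) (nat_lit 64)) (.one (nat_lit 0x800000200400800a0124008112014024611)) (.one (nat_lit 0x800000200400800a0134008112014026611))) (.br (Nat.shiftLeft (nat_lit 0x4000001802004005009) (nat_lit 65)) (.one (nat_lit 0x800000300400800a0116008112014022611)) (.one (nat_lit 0x800000300400800a0126008112014024611)))) (.br (Nat.shiftLeft (nat_lit 0x4800000802004005009) (nat_lit 65)) (.br (Nat.shiftLeft (nat_lit 0x9) (nat_lit 136)) (.one (nat_lit 0x800000300400800a0136008112014026611)) (.one (nat_lit 0x900000100400800a0112008132414022611))) (.br (Nat.shiftLeft (nat_lit 0x4800001) (nat_lit 113)) (.one (nat_lit 0x900000100400800a0122008132414024611)) (.br (Nat.shiftLeft (nat_lit 0x4800001002004005009) (nat_lit 65)) (.one (nat_lit 0x900000200400800a0114008132414022611)) (.one (nat_lit 0x900000200400800a0124008132414024611))))))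
def t63 : k63.all (jb2 57 fl b0) = true := by decide +kernel
noncomputable def k64 : KT := (.br (Nat.shiftLeft (nat_lit 0xa00000200400800a013) (nat_lit 64)) (.br (Nat.shiftLeft (nat_lit 0x5) (nat_lit 137)) (.br (Nat.shiftLeft (nat_lit 0x4800001802004005009) (nat_lit 65)) (.br (Nat.shiftLeft (nat_lit 0x9000003) (nat_lit 112)) (.one (nat_lit 0x900000200400800a0134008132414026611)) (.one (nat_lit 0x900000300400800a0116008132414022611))) (.br (Nat.shiftLeft (nat_lit 0x900000300400800a013) (nat_lit 64)) (.one (nat_lit 0x900000300400800a0126008132414024611)) (.one (nat_lit 0x900000300400800a0136008132414026611)))) (.br (Nat.shiftLeft (nat_lit 0x5000001) (nat_lit 113)) (.br (Nat.shiftLeft (nat_lit 0x5000000802004005009) (nat_lit 65)) (.one (nat_lit 0xa00000100400800a0112008152814022611)) (.one (nat_lit 0xa00000100400800a0122008152814024611))) (.br (Nat.shiftLeft (nat_lit 0x5000001002004005009) (nat_lit 65)) (.one (nat_lit 0xa00000200400800a0114008152814022611)) (.one (nat_lit 0xa00000200400800a0124008152814024611))))) (.br (Nat.shiftLeft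 (nat_lit 0x1) (nat_lit 148)) (.br (Nat.shiftLeft (nat_lit 0x5000001802004005009) (nat_lit 65)) (.br (Nat.shiftLeft (nat_lit 0xa000003) (nat_lit 112)) (.one (nat_lit 0xa00000200400800a0134008152814026611)) (.one (nat_lit 0xa00000300400800a0116008152814022611))) (.br (Nat.shiftLeft (nat_lit 0xa00000300400800a013) (nat_lit 64)) (.one (nat_lit 0xa00000300400800a0126008152814024611)) (.one (nat_lit 0xa00000300400800a0136008152814026611)))) (.br (Nat.shiftLeft (nat_lit 0x3) (nat_lit 148)) (.br (Nat.shiftLeft (nat_lit 0x1) (nat_lit 149)) (.one (nat_lit 0x100000100200400800a0114028410034422711)) (.one (nat_lit 0x200000100200400800a0114048810034422711))) (.br (Nat.shiftLeft (nat_lit 0x1) (nat_lit 150)) (.one (nat_lit 0x300000100200400800a0114068c10034422711)) (.br (Nat.shiftLeft (nat_lit 0x5) (nat_lit 148)) (.one (nat_lit 0x400000100200400800a0114089010034422711)) (.one (nat_lit 0x500000100200400800a01140a9410034422711)))))))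
def t64 : k64.all (jb2 57 fl b0) = true := by decide +kernel
noncomputable def k65 : KT := (.br (Nat.shiftLeft (nat_lit 0x1) (nat_lit 151)) (.br (Nat.shiftLeft (nat_lit 0x7) (nat_lit 148)) (.one (nat_lit 0x600000100200400800a01140c9810034422711)) (.one (nat_lit 0x700000100200400800a01140e9c10034422711))) (.br (Nat.shiftLeft (nat_lit 0x9) (nat_lit 148)) (.one (nat_lit 0x800000100200400800a011410a010034422711)) (.br (Nat.shiftLeft (nat_lit 0x5) (nat_lit 149)) (.one (nat_lit 0x900000100200400800a011412a410034422711)) (.one (nat_lit 0xa00000100200400800a011414a810034422711)))))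
def t65 : k65.all (jb2 57 fl b0) = true := by decide +kernel
noncomputable def s3 : KT := (.br (nat_lit 0x800000400800a0130008010116026511) (.br (nat_lit 0x200000400800a0130008010054826511) (.br (nat_lit 0x100200400800a0124008010034424760) (.br (nat_lit 0x100200400800a0114008010034423700) k44 k45) (.br (nat_lit 0x100200400800a0134008010034426760) k46 (.br (nat_lit 0x100300400800a0116008010034422760) k47 k48))) (.br (nat_lit 0x500000400800a01300080100b5426511) (.br (nat_lit 0x200300400800a0116008010054822760) k49 (.br (nat_lit 0x300000400800a0130008010074c26511) k50 k51)) (.br (nat_lit 0x600000400800a01300080100d5826511) k52 (.br (nat_lit 0x700000400800a01300080100f5c26511) k53 k54)))) (.br (nat_lit 0x600000200400800a01340080d1814026611) (.br (nat_lit 0x400000300400800a0136008091014026611) (.br (nat_lit 0x300000100400800a0122008070c14024611) k55 k56) (.br (nat_lit 0x500000200400800a01240080b1414024611) k57 (.br (nat_lit 0x600000100400800a01120080d1814022611) k58 k59))) (.br (nat_lit 0x800000200400800a0114008112014022611) (.br (nat_lit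 0x700000100400800a01120080f1c14022611) k60 (.br (nat_lit 0x700000300400800a01160080f1c14022611) k61 k62)) (.br (nat_lit 0x900000200400800a0124008132414024611) k63 (.br (nat_lit 0x500000100200400800a01140a9410034422711) k64 k65)))))
noncomputable def u3 : KT := (.br (Nat.shiftLeft (nat_lit 0x400800a013) (nat_lit 64)) (.br (Nat.shiftLeft (nat_lit 0x2004005009) (nat_lit 65)) (.one (nat_lit 0x400800a0110008010014022540)) (.one (nat_lit 0x400800a0120008010014024540))) (.br (Nat.shiftLeft (nat_lit 0x400800b) (nat_lit 76)) (.one (nat_lit 0x400800a0130008010014026540)) (.br (Nat.shiftLeft (nat_lit 0x400800b00d) (nat_lit 64)) (.one (nat_lit 0x400800b00c0008010016019500)) (.one (nat_lit 0x400800b00d000801001601b500)))))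
def w3 : u3.all (wj 57 s3) = true := by decide +kernel
def o3 : OkW 57 (jb2 57 fl) u3 := .lift s3 _ (.br _ _ _ (.br _ _ _ (.br _ _ _ (.br _ _ _ (.leaf b0 k44 t44) (.leaf b0 k45 t45)) (.br _ _ _ (.leaf b0 k46 t46) (.br _ _ _ (.leaf b0 k47 t47) (.leaf b0 k48 t48)))) (.br _ _ _ (.br _ _ _ (.leaf b0 k49 t49) (.br _ _ _ (.leaf b0 k50 t50) (.leaf b0 k51 t51))) (.br _ _ _ (.leaf b0 k52 t52) (.br _ _ _ (.leaf b0 k53 t53) (.leaf b0 k54 t54))))) (.br _ _ _ (.br _ _ _ (.br _ _ _ (.leaf b56 k55 t55) (.leaf b0 k56 t56)) (.br _ _ _ (.leaf b0 k57 t57) (.br _ _ _ (.leaf b0 k58 t58) (.leaf b0 k59 t59)))) (.br _ _ _ (.br _ _ _ (.leaf b0 k60 t60) (.br _ _ _ (.leaf b0 k61 t61) (.leaf b0 k62 t62))) (.br _ _ _ (.leaf b0 k63 t63) (.br _ _ _ (.leaf b0 k64 t64) (.leaf b0 k65 t65)))))) w3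
noncomputable def k66 : KT := (.br (Nat.shiftLeft (nat_lit 0x1003) (nat_lit 112)) (.br (Nat.shiftLeft (nat_lit 0x3) (nat_lit 112)) (.br (Nat.shiftLeft (nat_lit 0x1) (nat_lit 112)) (.one (nat_lit 0x400800b00e000801001601d500)) (.br (Nat.shiftLeft (nat_lit 0x1) (nat_lit 113)) (.one (nat_lit 0x100400800b00e200801001601d600)) (.one (nat_lit 0x200400800b00e400801001601d600)))) (.br (Nat.shiftLeft (nat_lit 0x1) (nat_lit 124)) (.one (nat_lit 0x300400800b00e600801001601d600)) (.br (Nat.shiftLeft (nat_lit 0x801) (nat_lit 113)) (.one (nat_lit 0x100000400800b00e000801003641c511)) (.one (nat_lit 0x100200400800b00e400801003641d700))))) (.br (Nat.shiftLeft (nat_lit 0x3) (nat_lit 124)) (.br (Nat.shiftLeft (nat_lit 0x1) (nat_lit 125)) (.one (nat_lit 0x100300400800b00e600801003641d700)) (.br (Nat.shiftLeft (nat_lit 0x1001) (nat_lit 113)) (.one (nat_lit 0x200000400800b00e000801005681c511)) (.one (nat_lit 0x200300400800b00e600801005681d700)))) (.br (Nat.shiftLeft (nat_lit 0x5) (nat_lit 124)) (.br (Nat.shiftLeft (nat_lit 0x1) (nat_lit 126)) (.one (nat_lit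 0x300000400800b00e0008010076c1c511)) (.one (nat_lit 0x400000400800b00e000801009701c511))) (.br (Nat.shiftLeft (nat_lit 0x3) (nat_lit 125)) (.one (nat_lit 0x500000400800b00e00080100b741c511)) (.one (nat_lit 0x600000400800b00e00080100d781c511))))))
noncomputable def b67 : BT := .node (nat_lit 0x1) (nat_lit 0x6f0b6d09d454249a93a0003a5a0008c780041db000cb602000e300028) .leaf .leaf
def t66 : k66.all (jb2 57 fl b67) = true := by decide +kernel
noncomputable def k67 : KT := (.one (nat_lit 0x700000400800b00e00080100f7c1c511))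
noncomputable def b68 : BT := .node (nat_lit 0x13) (nat_lit 0x6d9a58c9d4db36d9a4d80032d8000ab78003a98000ab68293625e93a8a2c93528b80074b400558e00274b400596d85b6696349b36cd26c4bd4b192f497a00196c001653600994d00255be005d4c00055421d4349b13a926c4bd27448c49d29926da13a8a860020ee000563600196d80065b000196c80046b0001d2d800472e26d992f526c54349b13a9b6696449b36cca2e964002cb7000aadb0030770002b1b000cb6000b29b004cb6c012b18136cca2e9376d9a58d2c69634b2145db664bd275000663000156e00065b000196c000753000158d80074b600118f0923127524d80032dc0008b701008cf008cf008cf008cf00814008140075900643004d3004d3004d3004d3004d3004d300362001f1001f1001f10019000190) .leaf .leaf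
def t67 : k67.all (jb2 57 fl b68) = true := by decide +kernel
noncomputable def k68 : KT := (.one (nat_lit 0x800000400800b00e000801011801c511))
noncomputable def b69 : BT := .node (nat_lit 0x43) (nat_lit 0x1b6493727400065b200196c03b66db32a1a58d2c84bd000cb64002b57000ea60002aa20b6cd26e4bd49aa5909d400196c00055bc00196c800653c16d9b6cca8696349b950db6696328ba4dc9d04bd002ea6000a397003077000ab58004cb6000ab1b000cb6000b29e1259526c4e82a112f4978001d2d0005634001d2d80064c016d993a926e96525e93a40032da000ab74003a98000ab782db349ba4dd26e4bd27536cca2e5436d992f526e9642a193a126e51749b80365b000994d802753000558d80374b800d1cc002653c00956e004662e00596c000662e00596c8db669632a1a5909d4542000cb60002b58000e87c002b570a64497a5444b224dca2c001d0f0005634001d2d80056ae16da12f4a2c001d2d00046b60d1425e9511b66db32a194592ca4ea49b92f49d4005d0f00065b4001d4c0014730005d2d80265b4009d4c001563626d993a097a96428ba5900032d8000ab780032da000cb642db327524ddb664ea4b194592c8517918a4ddb689632a193a1b664be275001663000156e00165b600958c001843400158d801653600556d001662e00196c002753200918f0db64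5432a1b6c9b664bd000ea64002398000cb60002aa30a4dc97a4e8000cb6c0032d8065909d4937000cc5c00329c06a124dc9d00020ee80065b00cb2150ca869644b212f5b68db349b93a5270517004ea6000ab57000cb6001329e008cb600132d8005086801ab57124dc9d45176da13a52c696428ba58c013a1d004ad6000329d002ac6000b2db000cb603db36d9a4dc0032d9000cb60196528ba4e0003317000cb6410177d0177d0177d0177d0177d0177d0177d0171d0171d01662015a7014360137b012c0010990109901099010990109901099010990109900fde00fde00fde00fde00fde00fde00fde00fde00fde00fde00fde00f2300f2300ec300d5300c9800a7100a71009b6009b6009b6009b6009b6009b6009b6009560095600956008f6008f6008f6008f6008f6008f60089700897008970089700897007260061000610005b0005500055000550) .leaf .leaf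
def t68 : k68.all (jb2 57 fl b69) = true := by decide +kernel
noncomputable def k69 : KT := (.one (nat_lit 0x900000400800b00e000801013841c511))
noncomputable def b70 : BT := .node (nat_lit 0x2b) (nat_lit 0x36cd2c64ea49c12f526edb3275950d2c64bd27500065b000556f80165b400996c00174ba0051cb801753000556f092c84ea28bb6cc9d4964000e874002b1b000cb68002b1a0a4dc97a4ea000e96c003317064d92704bd6d993a89d400196c800653a001d4c000463e16d9950d2c8db36d99508003317000ac64003a980008e5c2db249c945926a4be25ea58db664bd005086c01235b002ea64002ade000ea6000aaa20e58c97c4ea4b224e09d4001d2e00055be001d4c0005636149c13a8a2edb325e92f12c696449c2591b664ea002e96c00ab57002cb6800aaa1004ea6000b29d000ea6000ab1b12590a2c5174b1a58c97a96325e93a80132da004cb640032d8002c98c00ba5b000cb6c396328b9508003a99000ad5c196328b9458003a99000ac6c100c8a00c8a00c8a00c8a00c8a00b1900b1900b1900b1900b1900b1900b1900a5e00a5e00a5e009fe009fe009fe009fe009fe009fe009fe009fe009fe009fe009fe009fe009fe009fe0094300943009430088800772006b70054600430003d0003700037000370003700037000370) .leaf .leaf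
def t69 : k69.all (jb2 57 fl b70) = true := by decide +kernel
noncomputable def k70 : KT := (.br (Nat.shiftLeft (nat_lit 0x1) (nat_lit 136)) (.br (Nat.shiftLeft (nat_lit 0xb) (nat_lit 124)) (.one (nat_lit 0xa00000400800b00e000801015881c511)) (.one (nat_lit 0xb00000400800b00e0008010178c1c511))) (.br (Nat.shiftLeft (nat_lit 0x800001) (nat_lit 113)) (.one (nat_lit 0x100000100400800b00e200803041601c611)) (.br (Nat.shiftLeft (nat_lit 0x1000003) (nat_lit 112)) (.one (nat_lit 0x100000200400800b00e400803041601c611)) (.one (nat_lit 0x100000300400800b00e600803041601c611)))))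
noncomputable def b71 : BT := .node (nat_lit 0xb) (nat_lit 0x49c12f49d454327512f5b689384b180165b200594e00274b6001d2d801753000596c072c896325e258d2c8938000cb60003261000ea6400329d0b6cca2e5436d993ad2709634b192f4003a980008e60003317000ab740032d8000c9883db328b14580032d8000ad5c100437004370032100266002660026600266002660026600150000f0000f0) .leaf .leaf
def t70 : k70.all (jb2 57 fl b71) = true := by decide +kernel
noncomputable def k71 : KT := (.br (Nat.shiftLeft (nat_lit 0x3) (nat_lit 136)) (.br (Nat.shiftLeft (nat_lit 0x1000001) (nat_lit 113)) (.br (Nat.shiftLeft (nat_lit 0x1) (nat_lit 137)) (.one (nat_lit 0x100200300400800b00e600803045681c870)) (.one (nat_lit 0x200000100400800b00e200805081601c611))) (.br (Nat.shiftLeft (nat_lit 0x2000003) (nat_lit 112)) (.one (nat_lit 0x200000200400800b00e400805081601c611)) (.one (nat_lit 0x200000300400800b00e600805081601c611)))) (.br (Nat.shiftLeft (nat_lit 0x3000003) (nat_lit 112)) (.br (Nat.shiftLeft (nat_lit 0x1800001) (nat_lit 113)) (.one (nat_lit 0x300000100400800b00e2008070c1601c611)) (.one (nat_lit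 0x300000200400800b00e4008070c1601c611))) (.br (Nat.shiftLeft (nat_lit 0x1) (nat_lit 138)) (.one (nat_lit 0x300000300400800b00e6008070c1601c611)) (.one (nat_lit 0x400000100400800b00e200809101601c611)))))
def t71 : k71.all (jb2 57 fl b0) = true := by decide +kernel
noncomputable def k72 : KT := (.br (Nat.shiftLeft (nat_lit 0x4000003) (nat_lit 112)) (.one (nat_lit 0x400000200400800b00e400809101601c611)) (.br (Nat.shiftLeft (nat_lit 0x5) (nat_lit 136)) (.one (nat_lit 0x400000300400800b00e600809101601c611)) (.one (nat_lit 0x500000100400800b00e20080b141601c611))))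
noncomputable def b73 : BT := .node (nat_lit 0x1) (nat_lit 0x123125c145c0032d80008c7410008900028) .leaf .leaf
def t72 : k72.all (jb2 57 fl b73) = true := by decide +kernel
noncomputable def k73 : KT := (.br (Nat.shiftLeft (nat_lit 0x5000003) (nat_lit 112)) (.one (nat_lit 0x500000200400800b00e40080b141601c611)) (.one (nat_lit 0x500000300400800b00e60080b141601c611)))
def t73 : k73.all (jb2 57 fl b0) = true := by decide +kernel
noncomputable def k74 : KT := (.one (nat_lit 0x600000100400800b00e20080d181601c611))
noncomputable def b75 : BT := .node (nat_lit 0xb) (nat_lit 0x4c8a64926a99149b13a8003a98000c96c003a1c000ac702db327413a80032d8000ab7c1de128b9510003a5b0008d681de16da145c003a5a0008d6c1002cb00210002100021000210001b0001b0001500015000150000f0000f0) .leaf .leaf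
def t74 : k74.all (jb2 57 fl b75) = true := by decide +kernel
noncomputable def k75 : KT := (.one (nat_lit 0x600000200400800b00e40080d181601c611))
noncomputable def b76 : BT := .node (nat_lit 0x17) (nat_lit 0x36c926a4ea49b13a0a2e00196c0005638001d2d00056b2149a92f49d4001d4c000563a0c8c4a86db36d936cc9d40015ac00055b2001d4c000463e16f0b6ccae400194c800572c0c9a945d26ade14b19510003319000cb60003299000ad602004d2004d20041700417003b7003b7003b7003b7003b7003b7003b7003b7002fb002fb0029b0029b0029b0029b0029b0029b0029b001e0001e0001e0) .leaf .leaf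
def t75 : k75.all (jb2 57 fl b76) = true := by decide +kernel
noncomputable def k76 : KT := (.one (nat_lit 0x600000300400800b00e60080d181601c611))
noncomputable def b77 : BT := .node (nat_lit 0xb) (nat_lit 0x96227413a0003318000cb601db225e945c003a1e0008d701001b0001b0001b0001b0001b0001b0001b0001b0001b00015000150000f0) .leaf .leaf
def t76 : k76.all (jb2 57 fl b77) = true := by decide +kernel
noncomputable def k77 : KT := (.one (nat_lit 0x700000100400800b00e20080f1c1601c611))
noncomputable def b78 : BT := .node (nat_lit 0x2b) (nat_lit 0x1b664be4b180064c400158c03b644bd275b6c926c4bb6d993a12c6001d2d000464000196c80055bc00198b80056301c9b12f526c00196d80065b00c8c5b6851749b24d897a99128b9511bc24bd275b6cd26c4ea49b12f4a2e00994d00146b6001d4c00255be009d2d8035634005d2d00245c200d96c0015636011d2d80356b034b236cc97adb3275150db6696425eb6cd26c5174b1a4d897a001d4c00355bc015d0f802473001196c003554400d94d80656b000dd2d80155be2cb193a926cdb328ba58e462db425ea4d89d44ea6d9b6cc97a00196d801653600596e001563000556d0015542009d4c002563600196c00155442ef0a4d9b6696325e92f00032d8000ca64003a5b000ab782db225e93ac003a5a0008c801db249b92ec00329c000ab78100c8100c8100c2100c2100c2100c2100b0b00b0b00b0b00b0b00b0b00b0b00b0b00aab00aab00aab00aab00aab00aab00aab00aab00aab00aab00aab00aab00883008830088300883008830088300883008830088300883006b7004eb004300043000430003d0003700037000370)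 .leaf .leaf
def t77 : k77.all (jb2 57 fl b78) = true := by decide +kernel
noncomputable def k78 : KT := (.one (nat_lit 0x700000200400800b00e40080f1c1601c611))
noncomputable def b79 : BT := .node (nat_lit 0xb) (nat_lit 0x96349b95c52c6db325ea6449d49640010674002b96000ea60002ade000cb6c00329a0e645b664ea6f0b6cc97a001d2c80055be00194c800554416f0a4d8ae4936275150d32251727400083380011cc00074b60015cb000662e00196c07bc2db32a180065320015ac035c526e4bb4c8b6cc97b2312752591b645172a1800833a00156f00074b200156f800653c00118d00075300011cc09b664bd28bb78526e99249a950cae4db22a22648003a5a0008d70003a1c000ac60003a59000af540032d9000ad5c4007180060200547005470043100431003d1003d10026100261000f0000f0) .leaf .leaf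
def t78 : k78.all (jb2 57 fl b79) = true := by decide +kernel
noncomputable def k79 : KT := (.one (nat_lit 0x700000300400800b00e60080f1c1601c611))
noncomputable def b80 : BT := .node (nat_lit 0x1) (nat_lit 0xdb249b15c800419c0008f5c10008800028) .leaf .leaf
def t79 : k79.all (jb2 57 fl b80) = true := by decide +kernel
noncomputable def k80 : KT := (.one (nat_lit 0x800000100400800b00e200811201601c611))
noncomputable def b81 : BT := .node (nat_lit 0x2b) (nat_lit 0x1b664e825eb6cc9d4517000cb60002aa2000ea6000235c0b6c89d2937000cb6c002adc0659097a4bb000ea60002ade076c926e964000e96c002b19065909d04ea6d992f526edb36d993a92c84bd25e80165b000994f00165b600556e00265b000156f000753000555089b669632a1b6cc9d44e94b1b6d0a8600596c00056b0001d4c001463c009d4c80256ae1ed924d92ca001d2d80056340ed9259097adb325e945c0032d9000aa88003a1e0008d70296325e950c003a1e000ad601db36d9945e4625176da258d2c64bd49b945ca2edb36d9a4ddb664bd4b1c8c497a938004ea6001235c004ac6c012ada006ea60012aa2000ea60012b58008cb600132d8004ca7c00ab18004cb680122de1f6c9b66543918a4ddb6693727524d8003a980008e6000329c000ab640032db000cb603db349b92f52c8963274b6d097a543000ca74002ade000cb6001329d004e8780123980f6cdb665436d9a4dca869362751460003a980008e600041db0008e64003a1d000ad68300f1100f1100e5600df600d9600d3600d3600d3600d3600bc500aaf00aaf00a4f00994009340093400934009340093400934009340093400934009340093400934009340093400934009340093400934006b2006b2006b2006b2006b20059c0059c0059c00486004860037000370)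 .leaf .leaf
def t80 : k80.all (jb2 57 fl b81) = true := by decide +kernel
noncomputable def k81 : KT := (.br (Nat.shiftLeft (nat_lit 0x8000003) (nat_lit 112)) (.one (nat_lit 0x800000200400800b00e400811201601c611)) (.one (nat_lit 0x800000300400800b00e600811201601c611)))
noncomputable def b82 : BT := .node (nat_lit 0xb) (nat_lit 0x258d26e4bb000e970002ade076c8a2e964000cc60002b19076c9b664bd91893a9b66db228b95c8003a980008b88002adf000ab64003a1d0008f5c393525e93a8003a5b000ac701de149c2648003a1d000ac601003860038600326003260032600326002c6002c6002c6001b000150000f0) .leaf .leaf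
def t81 : k81.all (jb2 57 fl b82) = true := by decide +kernel
noncomputable def k82 : KT := (.br (Nat.shiftLeft (nat_lit 0x4800001) (nat_lit 113)) (.one (nat_lit 0x900000100400800b00e200813241601c611)) (.one (nat_lit 0x900000200400800b00e400813241601c611)))
noncomputable def b83 : BT := .node (nat_lit 0xb) (nat_lit 0x12c893728b80074b80015ab832c84bd27480074b400156f0350c9d44ea4b192f497a001d0e800662e001d4c000554416d992f527096349c24e00032da000ab74003a5c000cb6420032500325002c50026500265001ab001ab001ab001ab000f0000f0000f0) .leaf .leaf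
def t82 : k82.all (jb2 57 fl b83) = true := by decide +kernel
noncomputable def k83 : KT := (.br (Nat.shiftLeft (nat_lit 0x5000001) (nat_lit 113)) (.br (Nat.shiftLeft (nat_lit 0x5) (nat_lit 137)) (.one (nat_lit 0x900000300400800b00e600813241601c611)) (.one (nat_lit 0xa00000100400800b00e200815281601c611))) (.br (Nat.shiftLeft (nat_lit 0xa000003) (nat_lit 112)) (.one (nat_lit 0xa00000200400800b00e400815281601c611)) (.br (Nat.shiftLeft (nat_lit 0xb) (nat_lit 136)) (.one (nat_lit 0xa00000300400800b00e600815281601c611)) (.one (nat_lit 0xb00000100400800b00e2008172c1601c611)))))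
def t83 : k83.all (jb2 57 fl b0) = true := by decide +kernel
noncomputable def k84 : KT := (.br (Nat.shiftLeft (nat_lit 0x1000001) (nat_lit 125)) (.br (Nat.shiftLeft (nat_lit 0x1000001003) (nat_lit 112)) (.br (Nat.shiftLeft (nat_lit 0xb000003) (nat_lit 112)) (.one (nat_lit 0xb00000200400800b00e4008172c1601c611)) (.br (Nat.shiftLeft (nat_lit 0x1) (nat_lit 148)) (.one (nat_lit 0xb00000300400800b00e6008172c1601c611)) (.one (nat_lit 0x100000100200400800b00e402841003641c711)))) (.br (Nat.shiftLeft (nat_lit 0x1) (nat_lit 149)) (.br (Nat.shiftLeft (nat_lit 0x800001) (nat_lit 125)) (.one (nat_lit 0x100000100300400800b00e602841003641c711)) (.one (nat_lit 0x100000200300400800b00e602841005681c711))) (.br (Nat.shiftLeft (nat_lit 0x2000001003) (nat_lit 112)) (.one (nat_lit 0x200000100200400800b00e404881003641c711)) (.one (nat_lit 0x200000100300400800b00e604881003641c711))))) (.br (Nat.shiftLeft (nat_lit 0x1800001) (nat_lit 125)) (.br (Nat.shiftLeft (nat_lit 0x3) (nat_lit 148)) (.one (nat_lit 0x200000200300400800b00e604881005681c711)) (.br (Nat.shiftLeft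 (nat_lit 0x3000001003) (nat_lit 112)) (.one (nat_lit 0x300000100200400800b00e4068c1003641c711)) (.one (nat_lit 0x300000100300400800b00e6068c1003641c711)))) (.br (Nat.shiftLeft (nat_lit 0x4000001003) (nat_lit 112)) (.br (Nat.shiftLeft (nat_lit 0x1) (nat_lit 150)) (.one (nat_lit 0x300000200300400800b00e6068c1005681c711)) (.one (nat_lit 0x400000100200400800b00e408901003641c711))) (.br (Nat.shiftLeft (nat_lit 0x2000001) (nat_lit 125)) (.one (nat_lit 0x400000100300400800b00e608901003641c711)) (.one (nat_lit 0x400000200300400800b00e608901005681c711))))))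
def t84 : k84.all (jb2 57 fl b0) = true := by decide +kernel
noncomputable def k85 : KT := (.br (Nat.shiftLeft (nat_lit 0x5000001003) (nat_lit 112)) (.one (nat_lit 0x500000100200400800b00e40a941003641c711)) (.one (nat_lit 0x500000100300400800b00e60a941003641c711)))
noncomputable def b86 : BT := .node (nat_lit 0x2f) (nat_lit 0x246257249a800672a00116d833229344c9000743400196c03b644bd28c36c89729926d924d097c001d2d00046ba00196c80056ae00194c80055c21ed9146126893449a93a800331b000ab64003a98000ac742de1275a705bc24ea2a200064420015ab80074b60011ad0523128c16840039de000705c19622b92648003318000cb6019916d99510003a59000ad601918945d32400194e80046b00ed936ccae693425e951000b299004ae5c00ba1e000ae5c20094a0094a008e90088900889007730077300773007730077300773007730077300773007730077300773006b8005fd005fd005fd0059c0059c0059c0059c0059c0059c0059c0059c0059c0059c0059c0059c0053c004dc004dc004dc0047b0047b0047b0047b0047b0047b0047b0047b0047b003c0003c0) .leaf .leaf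
def t85 : k85.all (jb2 57 fl b86) = true := by decide +kernel
noncomputable def k86 : KT := (.br (Nat.shiftLeft (nat_lit 0x3) (nat_lit 149)) (.one (nat_lit 0x500000200300400800b00e60a941005681c711)) (.one (nat_lit 0x600000100200400800b00e40c981003641c711)))
noncomputable def b87 : BT := .node (nat_lit 0x2f) (nat_lit 0x93525e950e4624bd275b6c9b664ea000e87c002b96000e968001b21000cb60002b1c0e64497a9356d9a4d0a2e00195000064b600194c80056b416f0b6cd2c6db225e945c003a59000ac60003a1e0008d70293625d945c003a1d000ad641de12d0a648003395000ac6010070c0070c0070c0070c0070c0070c0070c0070c0070c0070c0070c0070c005f6005f6005f6005f6005f6005f6005f6005f6005f60053b0053b0053b0053b0053b0053b0053b00480004800048000480004800048000480004800048000480004800048000480004200042000420003c0003c0003c0003c0) .leaf .leaf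
def t86 : k86.all (jb2 57 fl b87) = true := by decide +kernel
noncomputable def k87 : KT := (.br (Nat.shiftLeft (nat_lit 0x3000001) (nat_lit 125)) (.one (nat_lit 0x600000100300400800b00e60c981003641c711)) (.one (nat_lit 0x600000200300400800b00e60c981005681c711)))
noncomputable def b88 : BT := .node (nat_lit 0x1) (nat_lit 0x4c8b6cc97b23127524d8003a59000aa880033190008b702000e300028) .leaf .leaf
def t87 : k87.all (jb2 57 fl b88) = true := by decide +kernel
noncomputable def k88 : KT := (.br (Nat.shiftLeft (nat_lit 0x7000001003) (nat_lit 112)) (.one (nat_lit 0x700000100200400800b00e40e9c1003641c711)) (.br (Nat.shiftLeft (nat_lit 0x3800001) (nat_lit 125)) (.one (nat_lit 0x700000100300400800b00e60e9c1003641c711)) (.one (nat_lit 0x700000200300400800b00e60e9c1005681c711))))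
noncomputable def b89 : BT := .node (nat_lit 0x13) (nat_lit 0x1bc2db327536c926e516000e96400231f000ca70002b580b6c8a305726d9258c97adb22741460003a1d0028f5c0132d8004aa8800ba5a0008d74396249b1458003a98000ad601db225e93a8003a5b0008c7c10042100366003660036600366003660036600250001f0001f0001f0001f0001f0001f0001f0001f000190001900019000190) .leaf .leaf
def t88 : k88.all (jb2 57 fl b89) = true := by decide +kernel
noncomputable def k89 : KT := (.br (Nat.shiftLeft (nat_lit 0x4000001) (nat_lit 125)) (.br (Nat.shiftLeft (nat_lit 0x8000001003) (nat_lit 112)) (.one (nat_lit 0x800000100200400800b00e410a01003641c711)) (.one (nat_lit 0x800000100300400800b00e610a01003641c711))) (.br (Nat.shiftLeft (nat_lit 0x9) (nat_lit 148)) (.one (nat_lit 0x800000200300400800b00e610a01005681c711)) (.one (nat_lit 0x900000100200400800b00e412a41003641c711))))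
noncomputable def b90 : BT := .node (nat_lit 0x1) (nat_lit 0x6f0b6cd26e93727524d8003a59000ab70003318000cb602000e300028) .leaf .leaf
def t89 : k89.all (jb2 57 fl b90) = true := by decide +kernel
noncomputable def k90 : KT := (.br (Nat.shiftLeft (nat_lit 0x5000001) (nat_lit 125)) (.br (Nat.shiftLeft (nat_lit 0x5) (nat_lit 149)) (.br (Nat.shiftLeft (nat_lit 0x4800001) (nat_lit 125)) (.one (nat_lit 0x900000100300400800b00e612a41003641c711)) (.one (nat_lit 0x900000200300400800b00e612a41005681c711))) (.br (Nat.shiftLeft (nat_lit 0xa000001003) (nat_lit 112)) (.one (nat_lit 0xa00000100200400800b00e414a81003641c711)) (.one (nat_lit 0xa00000100300400800b00e614a81003641c711)))) (.br (Nat.shiftLeft (nat_lit 0xb000001003) (nat_lit 112)) (.br (Nat.shiftLeft (nat_lit 0xb) (nat_lit 148)) (.one (nat_lit 0xa00000200300400800b00e614a81005681c711)) (.one (nat_lit 0xb00000100200400800b00e416ac1003641c711))) (.br (Nat.shiftLeft (nat_lit 0x5800001) (nat_lit 125)) (.one (nat_lit 0xb00000100300400800b00e616ac1003641c711)) (.one (nat_lit 0xb00000200300400800b00e616ac1005681c711)))))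
def t90 : k90.all (jb2 57 fl b0) = true := by decide +kernel
noncomputable def s4 : KT := (.br (nat_lit 0x700000100400800b00e20080f1c1601c611) (.br (nat_lit 0x400000100400800b00e200809101601c611) (.br (nat_lit 0x800000400800b00e000801011801c511) (.br (nat_lit 0x600000400800b00e00080100d781c511) k66 (.br (nat_lit 0x700000400800b00e00080100f7c1c511) k67 k68)) (.br (nat_lit 0x900000400800b00e000801013841c511) k69 (.br (nat_lit 0x100000300400800b00e600803041601c611) k70 k71))) (.br (nat_lit 0x600000100400800b00e20080d181601c611) (.br (nat_lit 0x500000100400800b00e20080b141601c611) k72 (.br (nat_lit 0x500000300400800b00e60080b141601c611) k73 k74)) (.br (nat_lit 0x600000200400800b00e40080d181601c611) k75 (.br (nat_lit 0x600000300400800b00e60080d181601c611) k76 k77)))) (.br (nat_lit 0xb00000100400800b00e2008172c1601c611) (.br (nat_lit 0x800000100400800b00e200811201601c611) (.br (nat_lit 0x700000200400800b00e40080f1c1601c611) k78 (.br (nat_lit 0x700000300400800b00e60080f1c1601c611) k79 k80)) (.br (nat_lit 0x800000300400800b00e600811201601c611)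 k81 (.br (nat_lit 0x900000200400800b00e400813241601c611) k82 k83))) (.br (nat_lit 0x600000100200400800b00e40c981003641c711) (.br (nat_lit 0x400000200300400800b00e608901005681c711) k84 (.br (nat_lit 0x500000100300400800b00e60a941003641c711) k85 k86)) (.br (nat_lit 0x700000200300400800b00e60e9c1005681c711) (.br (nat_lit 0x600000200300400800b00e60c981005681c711) k87 k88) (.br (nat_lit 0x900000100200400800b00e412a41003641c711) k89 k90)))))
noncomputable def u4 : KT := (.one (nat_lit 0x400800b00e000801001601c540))
def w4 : u4.all (wj 57 s4) = true := by decide +kernel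
def o4 : OkW 57 (jb2 57 fl) u4 := .lift s4 _ (.br _ _ _ (.br _ _ _ (.br _ _ _ (.br _ _ _ (.leaf b67 k66 t66) (.br _ _ _ (.leaf b68 k67 t67) (.leaf b69 k68 t68))) (.br _ _ _ (.leaf b70 k69 t69) (.br _ _ _ (.leaf b71 k70 t70) (.leaf b0 k71 t71)))) (.br _ _ _ (.br _ _ _ (.leaf b73 k72 t72) (.br _ _ _ (.leaf b0 k73 t73) (.leaf b75 k74 t74))) (.br _ _ _ (.leaf b76 k75 t75) (.br _ _ _ (.leaf b77 k76 t76) (.leaf b78 k77 t77))))) (.br _ _ _ (.br _ _ _ (.br _ _ _ (.leaf b79 k78 t78) (.br _ _ _ (.leaf b80 k79 t79) (.leaf b81 k80 t80))) (.br _ _ _ (.leaf b82 k81 t81) (.br _ _ _ (.leaf b83 k82 t82) (.leaf b0 k83 t83)))) (.br _ _ _ (.br _ _ _ (.leaf b0 k84 t84) (.br _ _ _ (.leaf b86 k85 t85) (.leaf b87 k86 t86))) (.br _ _ _ (.br _ _ _ (.leaf b88 k87 t87) (.leaf b89 k88 t88)) (.br _ _ _ (.leaf b90 k89 t89) (.leaf b0 k90 t90)))))) w4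
noncomputable def k91 : KT := (.br (Nat.shiftLeft (nat_lit 0x1003) (nat_lit 112)) (.br (Nat.shiftLeft (nat_lit 0x3) (nat_lit 112)) (.br (Nat.shiftLeft (nat_lit 0x1) (nat_lit 112)) (.one (nat_lit 0x400800b00f000801001601f500)) (.br (Nat.shiftLeft (nat_lit 0x1) (nat_lit 113)) (.one (nat_lit 0x100400800b00f200801001601f600)) (.one (nat_lit 0x200400800b00f400801001601f600)))) (.br (Nat.shiftLeft (nat_lit 0x1) (nat_lit 124)) (.one (nat_lit 0x300400800b00f600801001601f600)) (.br (Nat.shiftLeft (nat_lit 0x801) (nat_lit 113)) (.one (nat_lit 0x100000400800b00f000801003641e511)) (.one (nat_lit 0x100200400800b00f400801003641f700))))) (.br (Nat.shiftLeft (nat_lit 0x3) (nat_lit 124)) (.br (Nat.shiftLeft (nat_lit 0x1) (nat_lit 125)) (.one (nat_lit 0x100300400800b00f600801003641f700)) (.br (Nat.shiftLeft (nat_lit 0x1001) (nat_lit 113)) (.one (nat_lit 0x200000400800b00f000801005681e511)) (.one (nat_lit 0x200300400800b00f600801005681f700)))) (.br (Nat.shiftLeft (nat_lit 0x5) (nat_lit 124)) (.br (Nat.shiftLeft (nat_lit 0x1) (nat_lit 126)) (.one (nat_lit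 0x300000400800b00f0008010076c1e511)) (.one (nat_lit 0x400000400800b00f000801009701e511))) (.br (Nat.shiftLeft (nat_lit 0x3) (nat_lit 125)) (.one (nat_lit 0x500000400800b00f00080100b741e511)) (.one (nat_lit 0x600000400800b00f00080100d781e511))))))
def t91 : k91.all (jb2 57 fl b0) = true := by decide +kernel
noncomputable def k92 : KT := (.one (nat_lit 0x700000400800b00f00080100f7c1e511))
noncomputable def b93 : BT := .node (nat_lit 0xb) (nat_lit 0x4b193a09d49914b2145db664ea28b80065b000194f00074b400158d80075300011ae07509b684be0010868002aa206a1a4d897c96327412f80041dc000ab7c0032d8000c98c20031f0031f0031f0031f0031f00209001aa001aa001aa001aa000f0000f0) .leaf .leaf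
def t92 : k92.all (jb2 57 fl b93) = true := by decide +kernel
noncomputable def k93 : KT := (.one (nat_lit 0x800000400800b00f000801011801e511))
noncomputable def b94 : BT := .node (nat_lit 0x2f) (nat_lit 0x12c64ea27400065b600196c032c696425f36c89d04ea6d992f8a2c00196c800653c00196c00055c0001d2d80046b61c9b24dc97cdb325f13a80032d8000ca80003a5c0008c7c293727524dd2c64be25f000662e00196c80075300015518526e4be25f258d2c84e94b192f4a2e001d4c80055bc009d4c80255bc005d0f001563a1cb1950c9d0db3275945d26c4be28ba58db664ea002cc5c0032d8004ea6401235b002e87c00ab59002ea60002b1c124dc9d44ea000ea60002b1b076cc9d4937000cc60002adc076cdb684be6da13a92c600196c80055bc00196d000563016d9a590a2cdb26da26440032d9000ac6c00421a000ad5c2db327595092c89372a1259497a937004e9740123970030774002b57002cb6800329d0f6cd26e5420010774002397076cca2e93749b92f897cdb34b2258c003318000ab70003a98000ab7c0032d9000cb60300df500df500d9500c7f00bc400b0900b0900b0900b09009f3008820082200822007c2007c2007c2007c2007c200707007070070700707007070070700707007070070700707007070070700707007070064c00536005360053600536005360053600536004d6003c0003c0003c0003c0003c0003c0003c0)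 .leaf .leaf
def t93 : k93.all (jb2 57 fl b94) = true := by decide +kernel
noncomputable def k94 : KT := (.br (Nat.shiftLeft (nat_lit 0x1) (nat_lit 136)) (.br (Nat.shiftLeft (nat_lit 0x5) (nat_lit 125)) (.one (nat_lit 0x900000400800b00f000801013841e511)) (.br (Nat.shiftLeft (nat_lit 0xb) (nat_lit 124)) (.one (nat_lit 0xa00000400800b00f000801015881e511)) (.one (nat_lit 0xb00000400800b00f0008010178c1e511)))) (.br (Nat.shiftLeft (nat_lit 0x800001) (nat_lit 113)) (.one (nat_lit 0x100000100400800b00f200803041601e611)) (.br (Nat.shiftLeft (nat_lit 0x1000003) (nat_lit 112)) (.one (nat_lit 0x100000200400800b00f400803041601e611)) (.one (nat_lit 0x100000300400800b00f600803041601e611)))))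
noncomputable def b95 : BT := .node (nat_lit 0x1d) (nat_lit 0xdb26d992f80032d9000aa8c1db2275145d2c6db327500074b60011ae800753000158d85b665434b1a589b664be000cc60002b18000ea60002aa40a590a864e84b192f8a86db325f258c003317000cb600039e3000ad6000329f000ac603db325ea58d2c6db34b180164c400558c0007530009d4c05b644be2a1a5952704be000e87c002399000cb6800329e0a4d52c85436da36cd2709634b192f9b664bd4b215089d24be003086800ab58002ea600132d8000cb6000b29f002c98400ab1a002e87800b29e1658d2c6516000ea60002b1b0658c9764bb000ca7400329d0658c97c5426d912f897c93527594580039e4000ad5c003a98000ab7c003a5d000ac6c300a5c009fc0094100886008860088600770006b5006b5006b5006b5005fa0042e0042e0042e003ce0036e0036e0036e0036e00258002580025800258002580025800258002580025800258) .leaf .leaf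
def t94 : k94.all (jb2 57 fl b95) = true := by decide +kernel
noncomputable def k95 : KT := (.br (Nat.shiftLeft (nat_lit 0x1800001) (nat_lit 113)) (.br (Nat.shiftLeft (nat_lit 0x1000001) (nat_lit 113)) (.br (Nat.shiftLeft (nat_lit 0x1) (nat_lit 137)) (.one (nat_lit 0x100200300400800b00f600803045681e870)) (.one (nat_lit 0x200000100400800b00f200805081601e611))) (.br (Nat.shiftLeft (nat_lit 0x2000003) (nat_lit 112)) (.one (nat_lit 0x200000200400800b00f400805081601e611)) (.br (Nat.shiftLeft (nat_lit 0x3) (nat_lit 136)) (.one (nat_lit 0x200000300400800b00f600805081601e611)) (.one (nat_lit 0x300000100400800b00f2008070c1601e611))))) (.br (Nat.shiftLeft (nat_lit 0x1) (nat_lit 138)) (.br (Nat.shiftLeft (nat_lit 0x3000003) (nat_lit 112)) (.one (nat_lit 0x300000200400800b00f4008070c1601e611)) (.one (nat_lit 0x300000300400800b00f6008070c1601e611))) (.br (Nat.shiftLeft (nat_lit 0x2000001) (nat_lit 113)) (.one (nat_lit 0x400000100400800b00f200809101601e611)) (.br (Nat.shiftLeft (nat_lit 0x4000003) (nat_lit 112)) (.one (nat_lit 0x400000200400800b00f400809101601e611))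 (.one (nat_lit 0x400000300400800b00f600809101601e611))))))
def t95 : k95.all (jb2 57 fl b0) = true := by decide +kernel
noncomputable def k96 : KT := (.br (Nat.shiftLeft (nat_lit 0x2800001) (nat_lit 113)) (.one (nat_lit 0x500000100400800b00f20080b141601e611)) (.br (Nat.shiftLeft (nat_lit 0x5000003) (nat_lit 112)) (.one (nat_lit 0x500000200400800b00f40080b141601e611)) (.one (nat_lit 0x500000300400800b00f60080b141601e611))))
def t96 : k96.all (jb2 57 fl b0) = true := by decide +kernel
noncomputable def k97 : KT := (.one (nat_lit 0x600000100400800b00f20080d181601e611))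
def t97 : k97.all (jb2 57 fl b0) = true := by decide +kernel
noncomputable def k98 : KT := (.br (Nat.shiftLeft (nat_lit 0x6000003) (nat_lit 112)) (.one (nat_lit 0x600000200400800b00f40080d181601e611)) (.one (nat_lit 0x600000300400800b00f60080d181601e611)))
noncomputable def b99 : BT := .node (nat_lit 0x1) (nat_lit 0xdb225f13ac003a5b0008c8010008800028) .leaf .leaf
def t98 : k98.all (jb2 57 fl b99) = true := by decide +kernel
noncomputable def k99 : KT := (.br (Nat.shiftLeft (nat_lit 0x3800001) (nat_lit 113)) (.one (nat_lit 0x700000100400800b00f20080f1c1601e611)) (.one (nat_lit 0x700000200400800b00f40080f1c1601e611)))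
noncomputable def b100 : BT := .node (nat_lit 0xb) (nat_lit 0xdb249b13a9bc296328b801653600158e001653200958e05b664e8275258c97c9364b193a89d499149b92f80032d8000ac6c00329f000ca6c003a98000ab78003a1d000ab7c40031c0026100261000f0000f0000f0000f0000f0000f0000f0000f0000f0) .leaf .leaf
def t99 : k99.all (jb2 57 fl b100) = true := by decide +kernel
noncomputable def k100 : KT := (.br (Nat.shiftLeft (nat_lit 0x1) (nat_lit 139)) (.one (nat_lit 0x700000300400800b00f60080f1c1601e611)) (.one (nat_lit 0x800000100400800b00f200811201601e611)))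
noncomputable def b101 : BT := .node (nat_lit 0xb) (nat_lit 0x6d924e12c696427413a9b64db328b80074ba00158c00065b000194f00065b20015ac072c693728a80075300015ab8326c93825ea58c9d64e9000cb6800329e000ea64002ade0b6cdb664be6d993a92c696349ba4dc0032d8002aa8c00b29e002ac6400ba5c004cb60300437003210032100321002c1002c10020600206000f0000f0000f0000f0) .leaf .leaf
def t100 : k100.all (jb2 57 fl b101) = true := by decide +kernel
noncomputable def k101 : KT := (.br (Nat.shiftLeft (nat_lit 0x8000003) (nat_lit 112)) (.one (nat_lit 0x800000200400800b00f400811201601e611)) (.br (Nat.shiftLeft (nat_lit 0x9) (nat_lit 136)) (.one (nat_lit 0x800000300400800b00f600811201601e611)) (.one (nat_lit 0x900000100400800b00f200813241601e611))))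
noncomputable def b102 : BT := .node (nat_lit 0x1) (nat_lit 0x6d993aca2c9634b192f4003a990008d6c0032d8000ca782000e300028) .leaf .leaf
def t101 : k101.all (jb2 57 fl b102) = true := by decide +kernel
noncomputable def k102 : KT := (.br (Nat.shiftLeft (nat_lit 0xb000003) (nat_lit 112)) (.br (Nat.shiftLeft (nat_lit 0x5000001) (nat_lit 113)) (.br (Nat.shiftLeft (nat_lit 0x9000003) (nat_lit 112)) (.one (nat_lit 0x900000200400800b00f400813241601e611)) (.br (Nat.shiftLeft (nat_lit 0x5) (nat_lit 137)) (.one (nat_lit 0x900000300400800b00f600813241601e611)) (.one (nat_lit 0xa00000100400800b00f200815281601e611)))) (.br (Nat.shiftLeft (nat_lit 0xb) (nat_lit 136)) (.br (Nat.shiftLeft (nat_lit 0xa000003) (nat_lit 112)) (.one (nat_lit 0xa00000200400800b00f400815281601e611)) (.one (nat_lit 0xa00000300400800b00f600815281601e611))) (.br (Nat.shiftLeft (nat_lit 0x5800001) (nat_lit 113)) (.one (nat_lit 0xb00000100400800b00f2008172c1601e611)) (.one (nat_lit 0xb00000200400800b00f4008172c1601e611))))) (.br (Nat.shiftLeft (nat_lit 0x800001) (nat_lit 125))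 (.br (Nat.shiftLeft (nat_lit 0x1) (nat_lit 148)) (.one (nat_lit 0xb00000300400800b00f6008172c1601e611)) (.br (Nat.shiftLeft (nat_lit 0x1000001003) (nat_lit 112)) (.one (nat_lit 0x100000100200400800b00f402841003641e711)) (.one (nat_lit 0x100000100300400800b00f602841003641e711)))) (.br (Nat.shiftLeft (nat_lit 0x2000001003) (nat_lit 112)) (.br (Nat.shiftLeft (nat_lit 0x1) (nat_lit 149)) (.one (nat_lit 0x100000200300400800b00f602841005681e711)) (.one (nat_lit 0x200000100200400800b00f404881003641e711))) (.br (Nat.shiftLeft (nat_lit 0x1000001) (nat_lit 125)) (.one (nat_lit 0x200000100300400800b00f604881003641e711)) (.one (nat_lit 0x200000200300400800b00f604881005681e711))))))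
def t102 : k102.all (jb2 57 fl b0) = true := by decide +kernel
noncomputable def k103 : KT := (.br (Nat.shiftLeft (nat_lit 0x4000001003) (nat_lit 112)) (.br (Nat.shiftLeft (nat_lit 0x1800001) (nat_lit 125)) (.br (Nat.shiftLeft (nat_lit 0x3000001003) (nat_lit 112)) (.one (nat_lit 0x300000100200400800b00f4068c1003641e711)) (.one (nat_lit 0x300000100300400800b00f6068c1003641e711))) (.br (Nat.shiftLeft (nat_lit 0x1) (nat_lit 150)) (.one (nat_lit 0x300000200300400800b00f6068c1005681e711)) (.one (nat_lit 0x400000100200400800b00f408901003641e711)))) (.br (Nat.shiftLeft (nat_lit 0x5) (nat_lit 148)) (.br (Nat.shiftLeft (nat_lit 0x2000001) (nat_lit 125)) (.one (nat_lit 0x400000100300400800b00f608901003641e711)) (.one (nat_lit 0x400000200300400800b00f608901005681e711))) (.br (Nat.shiftLeft (nat_lit 0x5000001003) (nat_lit 112)) (.one (nat_lit 0x500000100200400800b00f40a941003641e711)) (.one (nat_lit 0x500000100300400800b00f60a941003641e711)))))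
def t103 : k103.all (jb2 57 fl b0) = true := by decide +kernel
noncomputable def k104 : KT := (.br (Nat.shiftLeft (nat_lit 0x6000001003) (nat_lit 112)) (.br (Nat.shiftLeft (nat_lit 0x3) (nat_lit 149)) (.one (nat_lit 0x500000200300400800b00f60a941005681e711)) (.one (nat_lit 0x600000100200400800b00f40c981003641e711))) (.br (Nat.shiftLeft (nat_lit 0x3000001) (nat_lit 125)) (.one (nat_lit 0x600000100300400800b00f60c981003641e711)) (.one (nat_lit 0x600000200300400800b00f60c981005681e711))))
def t104 : k104.all (jb2 57 fl b0) = true := by decide +kernel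
noncomputable def k105 : KT := (.br (Nat.shiftLeft (nat_lit 0x3800001) (nat_lit 125)) (.br (Nat.shiftLeft (nat_lit 0x7000001003) (nat_lit 112)) (.one (nat_lit 0x700000100200400800b00f40e9c1003641e711)) (.one (nat_lit 0x700000100300400800b00f60e9c1003641e711))) (.br (Nat.shiftLeft (nat_lit 0x1) (nat_lit 151)) (.one (nat_lit 0x700000200300400800b00f60e9c1005681e711)) (.br (Nat.shiftLeft (nat_lit 0x8000001003) (nat_lit 112)) (.one (nat_lit 0x800000100200400800b00f410a01003641e711)) (.one (nat_lit 0x800000100300400800b00f610a01003641e711)))))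
noncomputable def b106 : BT := .node (nat_lit 0x1) (nat_lit 0x93625f145c003a5b000ad6410008800028) .leaf .leaf
def t105 : k105.all (jb2 57 fl b106) = true := by decide +kernel
noncomputable def k106 : KT := (.br (Nat.shiftLeft (nat_lit 0xa000001003) (nat_lit 112)) (.br (Nat.shiftLeft (nat_lit 0x9000001003) (nat_lit 112)) (.br (Nat.shiftLeft (nat_lit 0x9) (nat_lit 148)) (.one (nat_lit 0x800000200300400800b00f610a01005681e711)) (.one (nat_lit 0x900000100200400800b00f412a41003641e711))) (.br (Nat.shiftLeft (nat_lit 0x4800001) (nat_lit 125)) (.one (nat_lit 0x900000100300400800b00f612a41003641e711)) (.br (Nat.shiftLeft (nat_lit 0x5) (nat_lit 149)) (.one (nat_lit 0x900000200300400800b00f612a41005681e711)) (.one (nat_lit 0xa00000100200400800b00f414a81003641e711))))) (.br (Nat.shiftLeft (nat_lit 0xb) (nat_lit 148)) (.br (Nat.shiftLeft (nat_lit 0x5000001) (nat_lit 125)) (.one (nat_lit 0xa00000100300400800b00f614a81003641e711)) (.one (nat_lit 0xa00000200300400800b00f614a81005681e711))) (.br (Nat.shiftLeft (nat_lit 0xb000001003) (nat_lit 112))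 (.one (nat_lit 0xb00000100200400800b00f416ac1003641e711)) (.br (Nat.shiftLeft (nat_lit 0x5800001) (nat_lit 125)) (.one (nat_lit 0xb00000100300400800b00f616ac1003641e711)) (.one (nat_lit 0xb00000200300400800b00f616ac1005681e711))))))
def t106 : k106.all (jb2 57 fl b0) = true := by decide +kernel
noncomputable def s5 : KT := (.br (nat_lit 0x600000300400800b00f60080d181601e611) (.br (nat_lit 0x100000300400800b00f600803041601e611) (.br (nat_lit 0x700000400800b00f00080100f7c1e511) (.br (nat_lit 0x600000400800b00f00080100d781e511) k91 k92) (.br (nat_lit 0x800000400800b00f000801011801e511) k93 k94)) (.br (nat_lit 0x500000300400800b00f60080b141601e611) (.br (nat_lit 0x400000300400800b00f600809101601e611) k95 k96) (.br (nat_lit 0x600000100400800b00f20080d181601e611) k97 k98))) (.br (nat_lit 0x200000200300400800b00f604881005681e711) (.br (nat_lit 0x800000100400800b00f200811201601e611) (.br (nat_lit 0x700000200400800b00f40080f1c1601e611) k99 k100) (.br (nat_lit 0x900000100400800b00f200813241601e611) k101 k102)) (.br (nat_lit 0x600000200300400800b00f60c981005681e711)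 (.br (nat_lit 0x500000100300400800b00f60a941003641e711) k103 k104) (.br (nat_lit 0x800000100300400800b00f610a01003641e711) k105 k106))))
noncomputable def u5 : KT := (.one (nat_lit 0x400800b00f000801001601e540))
def w5 : u5.all (wj 57 s5) = true := by decide +kernel
def o5 : OkW 57 (jb2 57 fl) u5 := .lift s5 _ (.br _ _ _ (.br _ _ _ (.br _ _ _ (.br _ _ _ (.leaf b0 k91 t91) (.leaf b93 k92 t92)) (.br _ _ _ (.leaf b94 k93 t93) (.leaf b95 k94 t94))) (.br _ _ _ (.br _ _ _ (.leaf b0 k95 t95) (.leaf b0 k96 t96)) (.br _ _ _ (.leaf b0 k97 t97) (.leaf b99 k98 t98)))) (.br _ _ _ (.br _ _ _ (.br _ _ _ (.leaf b100 k99 t99) (.leaf b101 k100 t100)) (.br _ _ _ (.leaf b102 k101 t101) (.leaf b0 k102 t102))) (.br _ _ _ (.br _ _ _ (.leaf b0 k103 t103) (.leaf b0 k104 t104)) (.br _ _ _ (.leaf b106 k105 t105) (.leaf b0 k106 t106))))) w5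
noncomputable def k107 : KT := (.br (Nat.shiftLeft (nat_lit 0x1002004005809) (nat_lit 65)) (.br (Nat.shiftLeft (nat_lit 0x100400800b011) (nat_lit 64)) (.br (Nat.shiftLeft (nat_lit 0x2004005809) (nat_lit 65)) (.br (Nat.shiftLeft (nat_lit 0x400800b011) (nat_lit 64)) (.one (nat_lit 0x400800b0100008010016021500)) (.one (nat_lit 0x400800b0110008010016023500))) (.br (Nat.shiftLeft (nat_lit 0x1) (nat_lit 112)) (.one (nat_lit 0x400800b0120008010016025500)) (.one (nat_lit 0x100400800b0102008010016021600)))) (.br (Nat.shiftLeft (nat_lit 0x1) (nat_lit 113)) (.br (Nat.shiftLeft (nat_lit 0x802004005809) (nat_lit 65)) (.one (nat_lit 0x100400800b0112008010016023600)) (.one (nat_lit 0x100400800b0122008010016024650))) (.br (Nat.shiftLeft (nat_lit 0x200400800b011) (nat_lit 64)) (.one (nat_lit 0x200400800b0104008010016021600)) (.one (nat_lit 0x200400800b0114008010016023600))))) (.br (Nat.shiftLeft (nat_lit 0x1) (nat_lit 124)) (.br (Nat.shiftLeft (nat_lit 0x300400800b011) (nat_lit 64)) (.br (Nat.shiftLeft (nat_lit 0x3) (nat_lit 112)) (.one (nat_lit 0x200400800b0124008010016025600))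 (.one (nat_lit 0x300400800b0106008010016021600))) (.br (Nat.shiftLeft (nat_lit 0x1802004005809) (nat_lit 65)) (.one (nat_lit 0x300400800b0116008010016023600)) (.one (nat_lit 0x300400800b0126008010016025600)))) (.br (Nat.shiftLeft (nat_lit 0x800002004005809) (nat_lit 65)) (.br (Nat.shiftLeft (nat_lit 0x100000400800b011) (nat_lit 64)) (.one (nat_lit 0x100000400800b0100008010036420511)) (.one (nat_lit 0x100000400800b0110008010036422511))) (.br (Nat.shiftLeft (nat_lit 0x801) (nat_lit 113)) (.one (nat_lit 0x100000400800b0120008010036424511)) (.one (nat_lit 0x100200400800b0104008010036421700))))))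
def t107 : k107.all (jb2 57 fl b0) = true := by decide +kernel
noncomputable def k108 : KT := (.one (nat_lit 0x100200400800b0114008010036422760))
def t108 : k108.all (jb2 57 fl b0) = true := by decide +kernel
noncomputable def k109 : KT := (.one (nat_lit 0x100200400800b0124008010036424760))
def t109 : k109.all (jb2 57 fl b0) = true := by decide +kernel
noncomputable def k110 : KT := (.one (nat_lit 0x100300400800b0106008010036420760))
def t110 : k110.all (jb2 57 fl b0) = true := by decide +kernel
noncomputable def k111 : KT := (.br (Nat.shiftLeft (nat_lit 0x1) (nat_lit 125)) (.br (Nat.shiftLeft (nat_lit 0x801802004005809) (nat_lit 65)) (.one (nat_lit 0x100300400800b0116008010036422760)) (.one (nat_lit 0x100300400800b0126008010036424760))) (.br (Nat.shiftLeft (nat_lit 0x200000400800b011) (nat_lit 64)) (.one (nat_lit 0x200000400800b0100008010056820511)) (.br (Nat.shiftLeft (nat_lit 0x1000002004005809) (nat_lit 65)) (.one (nat_lit 0x200000400800b0110008010056822511)) (.one (nat_lit 0x200000400800b0120008010056824511)))))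
def t111 : k111.all (jb2 57 fl b0) = true := by decide +kernel
noncomputable def k112 : KT := (.one (nat_lit 0x200300400800b0106008010056820760))
def t112 : k112.all (jb2 57 fl b0) = true := by decide +kernel
noncomputable def k113 : KT := (.br (Nat.shiftLeft (nat_lit 0x3) (nat_lit 124)) (.br (Nat.shiftLeft (nat_lit 0x1001802004005809) (nat_lit 65)) (.one (nat_lit 0x200300400800b0116008010056822760)) (.one (nat_lit 0x200300400800b0126008010056824760))) (.br (Nat.shiftLeft (nat_lit 0x300000400800b011) (nat_lit 64)) (.one (nat_lit 0x300000400800b0100008010076c20511)) (.br (Nat.shiftLeft (nat_lit 0x1800002004005809) (nat_lit 65)) (.one (nat_lit 0x300000400800b0110008010076c22511)) (.one (nat_lit 0x300000400800b0120008010076c24511)))))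
def t113 : k113.all (jb2 57 fl b0) = true := by decide +kernel
noncomputable def k114 : KT := (.br (Nat.shiftLeft (nat_lit 0x5) (nat_lit 124)) (.br (Nat.shiftLeft (nat_lit 0x400000400800b011) (nat_lit 64)) (.one (nat_lit 0x400000400800b0100008010097020511)) (.br (Nat.shiftLeft (nat_lit 0x2000002004005809) (nat_lit 65)) (.one (nat_lit 0x400000400800b0110008010097022511)) (.one (nat_lit 0x400000400800b0120008010097024511)))) (.br (Nat.shiftLeft (nat_lit 0x500000400800b011) (nat_lit 64)) (.one (nat_lit 0x500000400800b01000080100b7420511)) (.br (Nat.shiftLeft (nat_lit 0x2800002004005809) (nat_lit 65)) (.one (nat_lit 0x500000400800b01100080100b7422511)) (.one (nat_lit 0x500000400800b01200080100b7424511)))))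
def t114 : k114.all (jb2 57 fl b0) = true := by decide +kernel
noncomputable def k115 : KT := (.br (Nat.shiftLeft (nat_lit 0x600000400800b011) (nat_lit 64)) (.one (nat_lit 0x600000400800b01000080100d7820511)) (.br (Nat.shiftLeft (nat_lit 0x3000002004005809) (nat_lit 65)) (.one (nat_lit 0x600000400800b01100080100d7822511)) (.one (nat_lit 0x600000400800b01200080100d7824511))))
def t115 : k115.all (jb2 57 fl b0) = true := by decide +kernel
noncomputable def k116 : KT := (.br (Nat.shiftLeft (nat_lit 0x700000400800b011) (nat_lit 64)) (.one (nat_lit 0x700000400800b01000080100f7c20511)) (.br (Nat.shiftLeft (nat_lit 0x3800002004005809) (nat_lit 65)) (.one (nat_lit 0x700000400800b01100080100f7c22511)) (.one (nat_lit 0x700000400800b01200080100f7c24511))))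
noncomputable def b117 : BT := .node (nat_lit 0x1) (nat_lit 0x96349b145c003a5b000ad6410008800028) .leaf .leaf
def t116 : k116.all (jb2 57 fl b117) = true := by decide +kernel
noncomputable def k117 : KT := (.br (Nat.shiftLeft (nat_lit 0x800000400800b011) (nat_lit 64)) (.one (nat_lit 0x800000400800b0100008010118020511)) (.br (Nat.shiftLeft (nat_lit 0x4000002004005809) (nat_lit 65)) (.one (nat_lit 0x800000400800b0110008010118022511)) (.one (nat_lit 0x800000400800b0120008010118024511))))
noncomputable def b118 : BT := .node (nat_lit 0x17) (nat_lit 0x1b644e925f80065b000157003b6693728b36c9b664ea000ca70002b57000ea600023200b6c89d24bf000cb60002ae0064dca2e4e96d924dd26e00198b80065b200196c000653a149a24dc9d4001d4c00065b40cb124dca860020ee80056b00ed9a4dc97cdb328ba58c00329d000ab7c0032dc000ac6020059100591005910059100531004760047600476004760047600416004160041600416004160035b002fb002fb002fb002fb002fb002fb0029b001e0) .leaf .leaf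
def t117 : k117.all (jb2 57 fl b118) = true := by decide +kernel
noncomputable def k118 : KT := (.br (Nat.shiftLeft (nat_lit 0x5) (nat_lit 125)) (.br (Nat.shiftLeft (nat_lit 0x900000400800b011) (nat_lit 64)) (.one (nat_lit 0x900000400800b0100008010138420511)) (.br (Nat.shiftLeft (nat_lit 0x4800002004005809) (nat_lit 65)) (.one (nat_lit 0x900000400800b0110008010138422511)) (.one (nat_lit 0x900000400800b0120008010138424511)))) (.br (Nat.shiftLeft (nat_lit 0xa00000400800b011) (nat_lit 64)) (.one (nat_lit 0xa00000400800b0100008010158820511)) (.br (Nat.shiftLeft (nat_lit 0x5000002004005809) (nat_lit 65)) (.one (nat_lit 0xa00000400800b0110008010158822511)) (.one (nat_lit 0xa00000400800b0120008010158824511)))))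
noncomputable def b119 : BT := .node (nat_lit 0x16) (nat_lit 0x36cd270516001086800235b06a124e497cdb36d993a80041de000cb640032d8000ab7c29634b224e1b644ea2a1b6c9b689632a124e09d4005d4c800653a009d0f802473200596d00165b00060ee800563626d992fd26e00195000055b80ed992f897edb3275258c003a980008b9000329f000ac60200572005120051200512005120045800458004580045800458004580045800458002e7002e7002e700287001cc001cc001cc001cc001cc001cc) .leaf .leaf
def t118 : k118.all (jb2 57 fl b119) = true := by decide +kernel
noncomputable def k119 : KT := (.br (Nat.shiftLeft (nat_lit 0x2000003) (nat_lit 112)) (.br (Nat.shiftLeft (nat_lit 0x1000003) (nat_lit 112)) (.br (Nat.shiftLeft (nat_lit 0x100000100400800b011) (nat_lit 64)) (.br (Nat.shiftLeft (nat_lit 0x5800002004005809) (nat_lit 65)) (.br (Nat.shiftLeft (nat_lit 0xb00000400800b011) (nat_lit 64)) (.one (nat_lit 0xb00000400800b0100008010178c20511)) (.one (nat_lit 0xb00000400800b0110008010178c22511))) (.br (Nat.shiftLeft (nat_lit 0x1) (nat_lit 136)) (.one (nat_lit 0xb00000400800b0120008010178c24511)) (.one (nat_lit 0x100000100400800b0102008030416020611))))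 (.br (Nat.shiftLeft (nat_lit 0x100000200400800b011) (nat_lit 64)) (.br (Nat.shiftLeft (nat_lit 0x800001) (nat_lit 113)) (.one (nat_lit 0x100000100400800b0112008030416022611)) (.one (nat_lit 0x100000200400800b0104008030416020611))) (.br (Nat.shiftLeft (nat_lit 0x800001002004005809) (nat_lit 65)) (.one (nat_lit 0x100000200400800b0114008030416022611)) (.one (nat_lit 0x100000200400800b0124008030416024611))))) (.br (Nat.shiftLeft (nat_lit 0x200000100400800b011) (nat_lit 64)) (.br (Nat.shiftLeft (nat_lit 0x800001802004005809) (nat_lit 65)) (.br (Nat.shiftLeft (nat_lit 0x100000300400800b011) (nat_lit 64)) (.one (nat_lit 0x100000300400800b0106008030416020611)) (.one (nat_lit 0x100000300400800b0116008030416022611))) (.br (Nat.shiftLeft (nat_lit 0x1) (nat_lit 137)) (.one (nat_lit 0x100000300400800b0126008030416024611)) (.one (nat_lit 0x200000100400800b0102008050816020611)))) (.br (Nat.shiftLeft (nat_lit 0x200000200400800b011) (nat_lit 64)) (.br (Nat.shiftLeft (nat_lit 0x1000001) (nat_lit 113)) (.one (nat_lit 0x200000100400800b0112008050816022611))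 (.one (nat_lit 0x200000200400800b0104008050816020611))) (.br (Nat.shiftLeft (nat_lit 0x1000001002004005809) (nat_lit 65)) (.one (nat_lit 0x200000200400800b0114008050816022611)) (.one (nat_lit 0x200000200400800b0124008050816024611)))))) (.br (Nat.shiftLeft (nat_lit 0x3000003) (nat_lit 112)) (.br (Nat.shiftLeft (nat_lit 0x300000100400800b011) (nat_lit 64)) (.br (Nat.shiftLeft (nat_lit 0x1000001802004005809) (nat_lit 65)) (.br (Nat.shiftLeft (nat_lit 0x200000300400800b011) (nat_lit 64)) (.one (nat_lit 0x200000300400800b0106008050816020611)) (.one (nat_lit 0x200000300400800b0116008050816022611))) (.br (Nat.shiftLeft (nat_lit 0x3) (nat_lit 136)) (.one (nat_lit 0x200000300400800b0126008050816024611)) (.one (nat_lit 0x300000100400800b0102008070c16020611)))) (.br (Nat.shiftLeft (nat_lit 0x300000200400800b011) (nat_lit 64)) (.br (Nat.shiftLeft (nat_lit 0x1800001) (nat_lit 113)) (.one (nat_lit 0x300000100400800b0112008070c16022611)) (.one (nat_lit 0x300000200400800b0104008070c16020611))) (.br (Nat.shiftLeft (nat_lit 0x1800001002004005809) (nat_lit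 65)) (.one (nat_lit 0x300000200400800b0114008070c16022611)) (.one (nat_lit 0x300000200400800b0124008070c16024611))))) (.br (Nat.shiftLeft (nat_lit 0x400000100400800b011) (nat_lit 64)) (.br (Nat.shiftLeft (nat_lit 0x1800001802004005809) (nat_lit 65)) (.br (Nat.shiftLeft (nat_lit 0x300000300400800b011) (nat_lit 64)) (.one (nat_lit 0x300000300400800b0106008070c16020611)) (.one (nat_lit 0x300000300400800b0116008070c16022611))) (.br (Nat.shiftLeft (nat_lit 0x1) (nat_lit 138)) (.one (nat_lit 0x300000300400800b0126008070c16024611)) (.one (nat_lit 0x400000100400800b0102008091016020611)))) (.br (Nat.shiftLeft (nat_lit 0x400000200400800b011) (nat_lit 64)) (.br (Nat.shiftLeft (nat_lit 0x2000001) (nat_lit 113)) (.one (nat_lit 0x400000100400800b0112008091016022611)) (.one (nat_lit 0x400000200400800b0104008091016020611))) (.br (Nat.shiftLeft (nat_lit 0x2000001002004005809) (nat_lit 65)) (.one (nat_lit 0x400000200400800b0114008091016022611)) (.one (nat_lit 0x400000200400800b0124008091016024611)))))))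
def t119 : k119.all (jb2 57 fl b0) = true := by decide +kernel
noncomputable def k120 : KT := (.br (Nat.shiftLeft (nat_lit 0x2000001802004005809) (nat_lit 65)) (.br (Nat.shiftLeft (nat_lit 0x400000300400800b011) (nat_lit 64)) (.one (nat_lit 0x400000300400800b0106008091016020611)) (.one (nat_lit 0x400000300400800b0116008091016022611))) (.br (Nat.shiftLeft (nat_lit 0x5) (nat_lit 136)) (.one (nat_lit 0x400000300400800b0126008091016024611)) (.br (Nat.shiftLeft (nat_lit 0x500000100400800b011) (nat_lit 64)) (.one (nat_lit 0x500000100400800b01020080b1416020611)) (.one (nat_lit 0x500000100400800b01120080b1416022611)))))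
def t120 : k120.all (jb2 57 fl b0) = true := by decide +kernel
noncomputable def k121 : KT := (.br (Nat.shiftLeft (nat_lit 0x2800001002004005809) (nat_lit 65)) (.br (Nat.shiftLeft (nat_lit 0x500000200400800b011) (nat_lit 64)) (.one (nat_lit 0x500000200400800b01040080b1416020611)) (.one (nat_lit 0x500000200400800b01140080b1416022611))) (.br (Nat.shiftLeft (nat_lit 0x5000003) (nat_lit 112)) (.one (nat_lit 0x500000200400800b01240080b1416024611)) (.br (Nat.shiftLeft (nat_lit 0x500000300400800b011) (nat_lit 64)) (.one (nat_lit 0x500000300400800b01060080b1416020611)) (.one (nat_lit 0x500000300400800b01160080b1416022611)))))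
def t121 : k121.all (jb2 57 fl b0) = true := by decide +kernel
noncomputable def k122 : KT := (.br (Nat.shiftLeft (nat_lit 0x3) (nat_lit 137)) (.one (nat_lit 0x500000300400800b01260080b1416024611)) (.br (Nat.shiftLeft (nat_lit 0x600000100400800b011) (nat_lit 64)) (.one (nat_lit 0x600000100400800b01020080d1816020611)) (.one (nat_lit 0x600000100400800b01120080d1816022611))))
def t122 : k122.all (jb2 57 fl b0) = true := by decide +kernel
noncomputable def k123 : KT := (.br (Nat.shiftLeft (nat_lit 0x3000001002004005809) (nat_lit 65)) (.br (Nat.shiftLeft (nat_lit 0x600000200400800b011) (nat_lit 64)) (.one (nat_lit 0x600000200400800b01040080d1816020611)) (.one (nat_lit 0x600000200400800b01140080d1816022611))) (.br (Nat.shiftLeft (nat_lit 0x6000003) (nat_lit 112)) (.one (nat_lit 0x600000200400800b01240080d1816024611)) (.one (nat_lit 0x600000300400800b01060080d1816020611))))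
def t123 : k123.all (jb2 57 fl b0) = true := by decide +kernel
noncomputable def k124 : KT := (.br (Nat.shiftLeft (nat_lit 0x7) (nat_lit 136)) (.br (Nat.shiftLeft (nat_lit 0x3000001802004005809) (nat_lit 65)) (.one (nat_lit 0x600000300400800b01160080d1816022611)) (.one (nat_lit 0x600000300400800b01260080d1816024611))) (.br (Nat.shiftLeft (nat_lit 0x700000100400800b011) (nat_lit 64)) (.one (nat_lit 0x700000100400800b01020080f1c16020611)) (.one (nat_lit 0x700000100400800b01120080f1c16022611))))
def t124 : k124.all (jb2 57 fl b0) = true := by decide +kernel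
noncomputable def k125 : KT := (.br (Nat.shiftLeft (nat_lit 0x7000003) (nat_lit 112)) (.br (Nat.shiftLeft (nat_lit 0x700000200400800b011) (nat_lit 64)) (.one (nat_lit 0x700000200400800b01040080f1c16020611)) (.br (Nat.shiftLeft (nat_lit 0x3800001002004005809) (nat_lit 65)) (.one (nat_lit 0x700000200400800b01140080f1c16022611)) (.one (nat_lit 0x700000200400800b01240080f1c16024611)))) (.br (Nat.shiftLeft (nat_lit 0x700000300400800b011) (nat_lit 64)) (.one (nat_lit 0x700000300400800b01060080f1c16020611)) (.br (Nat.shiftLeft (nat_lit 0x3800001802004005809) (nat_lit 65)) (.one (nat_lit 0x700000300400800b01160080f1c16022611)) (.one (nat_lit 0x700000300400800b01260080f1c16024611)))))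
def t125 : k125.all (jb2 57 fl b0) = true := by decide +kernel
noncomputable def k126 : KT := (.br (Nat.shiftLeft (nat_lit 0x4000001) (nat_lit 113)) (.br (Nat.shiftLeft (nat_lit 0x800000100400800b011) (nat_lit 64)) (.one (nat_lit 0x800000100400800b0102008112016020611)) (.one (nat_lit 0x800000100400800b0112008112016022611))) (.br (Nat.shiftLeft (nat_lit 0x800000200400800b011) (nat_lit 64)) (.one (nat_lit 0x800000200400800b0104008112016020611)) (.br (Nat.shiftLeft (nat_lit 0x4000001002004005809) (nat_lit 65)) (.one (nat_lit 0x800000200400800b0114008112016022611)) (.one (nat_lit 0x800000200400800b0124008112016024611)))))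
noncomputable def b127 : BT := .node (nat_lit 0x1) (nat_lit 0x96328b950c003a5b000ad6410008800028) .leaf .leaf
def t126 : k126.all (jb2 57 fl b127) = true := by decide +kernel
noncomputable def k127 : KT := (.br (Nat.shiftLeft (nat_lit 0x4800001) (nat_lit 113)) (.br (Nat.shiftLeft (nat_lit 0x4000001802004005809) (nat_lit 65)) (.br (Nat.shiftLeft (nat_lit 0x800000300400800b011) (nat_lit 64)) (.one (nat_lit 0x800000300400800b0106008112016020611)) (.one (nat_lit 0x800000300400800b0116008112016022611))) (.br (Nat.shiftLeft (nat_lit 0x9) (nat_lit 136)) (.one (nat_lit 0x800000300400800b0126008112016024611)) (.br (Nat.shiftLeft (nat_lit 0x900000100400800b011) (nat_lit 64)) (.one (nat_lit 0x900000100400800b0102008132416020611)) (.one (nat_lit 0x900000100400800b0112008132416022611))))) (.br (Nat.shiftLeft (nat_lit 0x9000003) (nat_lit 112)) (.br (Nat.shiftLeft (nat_lit 0x900000200400800b011) (nat_lit 64)) (.one (nat_lit 0x900000200400800b0104008132416020611)) (.br (Nat.shiftLeft (nat_lit 0x4800001002004005809) (nat_lit 65)) (.one (nat_lit 0x900000200400800b0114008132416022611))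 (.one (nat_lit 0x900000200400800b0124008132416024611)))) (.br (Nat.shiftLeft (nat_lit 0x900000300400800b011) (nat_lit 64)) (.one (nat_lit 0x900000300400800b0106008132416020611)) (.br (Nat.shiftLeft (nat_lit 0x4800001802004005809) (nat_lit 65)) (.one (nat_lit 0x900000300400800b0116008132416022611)) (.one (nat_lit 0x900000300400800b0126008132416024611))))))
def t127 : k127.all (jb2 57 fl b0) = true := by decide +kernel
noncomputable def k128 : KT := (.br (Nat.shiftLeft (nat_lit 0x5800001) (nat_lit 113)) (.br (Nat.shiftLeft (nat_lit 0xa000003) (nat_lit 112)) (.br (Nat.shiftLeft (nat_lit 0x5000001) (nat_lit 113)) (.br (Nat.shiftLeft (nat_lit 0xa00000100400800b011) (nat_lit 64)) (.one (nat_lit 0xa00000100400800b0102008152816020611)) (.one (nat_lit 0xa00000100400800b0112008152816022611))) (.br (Nat.shiftLeft (nat_lit 0xa00000200400800b011) (nat_lit 64)) (.one (nat_lit 0xa00000200400800b0104008152816020611)) (.br (Nat.shiftLeft (nat_lit 0x5000001002004005809) (nat_lit 65)) (.one (nat_lit 0xa00000200400800b0114008152816022611)) (.one (nat_lit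 0xa00000200400800b0124008152816024611))))) (.br (Nat.shiftLeft (nat_lit 0x5000001802004005809) (nat_lit 65)) (.br (Nat.shiftLeft (nat_lit 0xa00000300400800b011) (nat_lit 64)) (.one (nat_lit 0xa00000300400800b0106008152816020611)) (.one (nat_lit 0xa00000300400800b0116008152816022611))) (.br (Nat.shiftLeft (nat_lit 0xb) (nat_lit 136)) (.one (nat_lit 0xa00000300400800b0126008152816024611)) (.br (Nat.shiftLeft (nat_lit 0xb00000100400800b011) (nat_lit 64)) (.one (nat_lit 0xb00000100400800b0102008172c16020611)) (.one (nat_lit 0xb00000100400800b0112008172c16022611)))))) (.br (Nat.shiftLeft (nat_lit 0x5800001802004005809) (nat_lit 65)) (.br (Nat.shiftLeft (nat_lit 0x5800001002004005809) (nat_lit 65)) (.br (Nat.shiftLeft (nat_lit 0xb00000200400800b011) (nat_lit 64)) (.one (nat_lit 0xb00000200400800b0104008172c16020611)) (.one (nat_lit 0xb00000200400800b0114008172c16022611))) (.br (Nat.shiftLeft (nat_lit 0xb000003) (nat_lit 112)) (.one (nat_lit 0xb00000200400800b0124008172c16024611)) (.br (Nat.shiftLeft (nat_lit 0xb00000300400800b011) (nat_lit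 64)) (.one (nat_lit 0xb00000300400800b0106008172c16020611)) (.one (nat_lit 0xb00000300400800b0116008172c16022611))))) (.br (Nat.shiftLeft (nat_lit 0x1) (nat_lit 149)) (.br (Nat.shiftLeft (nat_lit 0x1) (nat_lit 148)) (.one (nat_lit 0xb00000300400800b0126008172c16024611)) (.one (nat_lit 0x100000100200400800b0104028410036420711))) (.br (Nat.shiftLeft (nat_lit 0x3) (nat_lit 148)) (.one (nat_lit 0x200000100200400800b0104048810036420711)) (.br (Nat.shiftLeft (nat_lit 0x1) (nat_lit 150)) (.one (nat_lit 0x300000100200400800b0104068c10036420711)) (.one (nat_lit 0x400000100200400800b0104089010036420711)))))))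
def t128 : k128.all (jb2 57 fl b0) = true := by decide +kernel
noncomputable def k129 : KT := (.br (Nat.shiftLeft (nat_lit 0x1) (nat_lit 151)) (.br (Nat.shiftLeft (nat_lit 0x3) (nat_lit 149)) (.one (nat_lit 0x500000100200400800b01040a9410036420711)) (.br (Nat.shiftLeft (nat_lit 0x7) (nat_lit 148)) (.one (nat_lit 0x600000100200400800b01040c9810036420711)) (.one (nat_lit 0x700000100200400800b01040e9c10036420711)))) (.br (Nat.shiftLeft (nat_lit 0x5) (nat_lit 149)) (.br (Nat.shiftLeft (nat_lit 0x9) (nat_lit 148)) (.one (nat_lit 0x800000100200400800b010410a010036420711)) (.one (nat_lit 0x900000100200400800b010412a410036420711))) (.br (Nat.shiftLeft (nat_lit 0xb) (nat_lit 148)) (.one (nat_lit 0xa00000100200400800b010414a810036420711)) (.one (nat_lit 0xb00000100200400800b010416ac10036420711)))))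
def t129 : k129.all (jb2 57 fl b0) = true := by decide +kernel
noncomputable def s6 : KT := (.br (nat_lit 0x800000400800b0120008010118024511) (.br (nat_lit 0x200000400800b0120008010056824511) (.br (nat_lit 0x100200400800b0114008010036422760) (.br (nat_lit 0x100200400800b0104008010036421700) k107 k108) (.br (nat_lit 0x100200400800b0124008010036424760) k109 (.br (nat_lit 0x100300400800b0106008010036420760) k110 k111))) (.br (nat_lit 0x500000400800b01200080100b7424511) (.br (nat_lit 0x200300400800b0106008010056820760) k112 (.br (nat_lit 0x300000400800b0120008010076c24511) k113 k114)) (.br (nat_lit 0x600000400800b01200080100d7824511) k115 (.br (nat_lit 0x700000400800b01200080100f7c24511) k116 k117)))) (.br (nat_lit 0x600000300400800b01060080d1816020611) (.br (nat_lit 0x500000100400800b01120080b1416022611) (.br (nat_lit 0xa00000400800b0120008010158824511) k118 (.br (nat_lit 0x400000200400800b0124008091016024611) k119 k120)) (.br (nat_lit 0x500000300400800b01160080b1416022611) k121 (.br (nat_lit 0x600000100400800b01120080d1816022611) k122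 k123))) (.br (nat_lit 0x800000200400800b0124008112016024611) (.br (nat_lit 0x700000100400800b01120080f1c16022611) k124 (.br (nat_lit 0x700000300400800b01260080f1c16024611) k125 k126)) (.br (nat_lit 0x900000300400800b0126008132416024611) k127 (.br (nat_lit 0x400000100200400800b0104089010036420711) k128 k129)))))
noncomputable def u6 : KT := (.br (Nat.shiftLeft (nat_lit 0x400800b011) (nat_lit 64)) (.one (nat_lit 0x400800b0100008010016020540)) (.br (Nat.shiftLeft (nat_lit 0x2004005809) (nat_lit 65)) (.one (nat_lit 0x400800b0110008010016022540)) (.one (nat_lit 0x400800b0120008010016024540))))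
def w6 : u6.all (wj 57 s6) = true := by decide +kernel
def o6 : OkW 57 (jb2 57 fl) u6 := .lift s6 _ (.br _ _ _ (.br _ _ _ (.br _ _ _ (.br _ _ _ (.leaf b0 k107 t107) (.leaf b0 k108 t108)) (.br _ _ _ (.leaf b0 k109 t109) (.br _ _ _ (.leaf b0 k110 t110) (.leaf b0 k111 t111)))) (.br _ _ _ (.br _ _ _ (.leaf b0 k112 t112) (.br _ _ _ (.leaf b0 k113 t113) (.leaf b0 k114 t114))) (.br _ _ _ (.leaf b0 k115 t115) (.br _ _ _ (.leaf b117 k116 t116) (.leaf b118 k117 t117))))) (.br _ _ _ (.br _ _ _ (.br _ _ _ (.leaf b119 k118 t118) (.br _ _ _ (.leaf b0 k119 t119) (.leaf b0 k120 t120))) (.br _ _ _ (.leaf b0 k121 t121) (.br _ _ _ (.leaf b0 k122 t122) (.leaf b0 k123 t123)))) (.br _ _ _ (.br _ _ _ (.leaf b0 k124 t124) (.br _ _ _ (.leaf b0 k125 t125) (.leaf b127 k126 t126))) (.br _ _ _ (.leaf b0 k127 t127) (.br _ _ _ (.leaf b0 k128 t128) (.leaf b0 k129 t129)))))) w6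
noncomputable def k130 : KT := (.br (Nat.shiftLeft (nat_lit 0x1003) (nat_lit 112)) (.br (Nat.shiftLeft (nat_lit 0x3) (nat_lit 112)) (.br (Nat.shiftLeft (nat_lit 0x1) (nat_lit 112)) (.one (nat_lit 0x400800c00d000801001801b500)) (.br (Nat.shiftLeft (nat_lit 0x1) (nat_lit 113)) (.one (nat_lit 0x100400800c00d200801001801b600)) (.one (nat_lit 0x200400800c00d400801001801b600)))) (.br (Nat.shiftLeft (nat_lit 0x1) (nat_lit 124)) (.one (nat_lit 0x300400800c00d600801001801b600)) (.br (Nat.shiftLeft (nat_lit 0x801) (nat_lit 113)) (.one (nat_lit 0x100000400800c00d000801003841a511)) (.one (nat_lit 0x100200400800c00d400801003841b700))))) (.br (Nat.shiftLeft (nat_lit 0x3) (nat_lit 124)) (.br (Nat.shiftLeft (nat_lit 0x1) (nat_lit 125)) (.one (nat_lit 0x100300400800c00d600801003841b700)) (.br (Nat.shiftLeft (nat_lit 0x1001) (nat_lit 113)) (.one (nat_lit 0x200000400800c00d000801005881a511)) (.one (nat_lit 0x200300400800c00d600801005881b700)))) (.br (Nat.shiftLeft (nat_lit 0x5) (nat_lit 124)) (.br (Nat.shiftLeft (nat_lit 0x1) (nat_lit 126)) (.one (nat_lit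 0x300000400800c00d0008010078c1a511)) (.one (nat_lit 0x400000400800c00d000801009901a511))) (.br (Nat.shiftLeft (nat_lit 0x3) (nat_lit 125)) (.one (nat_lit 0x500000400800c00d00080100b941a511)) (.one (nat_lit 0x600000400800c00d00080100d981a511))))))
noncomputable def b131 : BT := .node (nat_lit 0x1) (nat_lit 0xdb36da24d40032d8000ca6410008800028) .leaf .leaf
def t130 : k130.all (jb2 57 fl b131) = true := by decide +kernel
noncomputable def k131 : KT := (.one (nat_lit 0x700000400800c00d00080100f9c1a511))
def t131 : k131.all (jb2 57 fl b0) = true := by decide +kernel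
noncomputable def k132 : KT := (.one (nat_lit 0x800000400800c00d000801011a01a511))
noncomputable def b133 : BT := .node (nat_lit 0xb) (nat_lit 0xdb349b945c00329c000ad601db349bb6cc0032d9000cb601001b0001b000150000f0000f0000f0000f0000f0000f0000f0000f0000f0) .leaf .leaf
def t132 : k132.all (jb2 57 fl b133) = true := by decide +kernel
noncomputable def k133 : KT := (.br (Nat.shiftLeft (nat_lit 0x5) (nat_lit 125)) (.one (nat_lit 0x900000400800c00d000801013a41a511)) (.br (Nat.shiftLeft (nat_lit 0xb) (nat_lit 124)) (.one (nat_lit 0xa00000400800c00d000801015a81a511)) (.one (nat_lit 0xb00000400800c00d000801017ac1a511))))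
def t133 : k133.all (jb2 57 fl b0) = true := by decide +kernel
noncomputable def k134 : KT := (.br (Nat.shiftLeft (nat_lit 0x1) (nat_lit 137)) (.br (Nat.shiftLeft (nat_lit 0x800001) (nat_lit 113)) (.br (Nat.shiftLeft (nat_lit 0x1) (nat_lit 136)) (.one (nat_lit 0xc00000400800c00d000801019b01a511)) (.one (nat_lit 0x100000100400800c00d200803041801a611))) (.br (Nat.shiftLeft (nat_lit 0x1000003) (nat_lit 112)) (.one (nat_lit 0x100000200400800c00d400803041801a611)) (.br (Nat.shiftLeft (nat_lit 0x801) (nat_lit 125)) (.one (nat_lit 0x100000300400800c00d600803041801a611)) (.one (nat_lit 0x100200300400800c00d600803045881a870))))) (.br (Nat.shiftLeft (nat_lit 0x3) (nat_lit 136)) (.br (Nat.shiftLeft (nat_lit 0x1000001) (nat_lit 113)) (.one (nat_lit 0x200000100400800c00d200805081801a611)) (.br (Nat.shiftLeft (nat_lit 0x2000003) (nat_lit 112)) (.one (nat_lit 0x200000200400800c00d400805081801a611)) (.one (nat_lit 0x200000300400800c00d600805081801a611)))) (.br (Nat.shiftLeft (nat_lit 0x1800001) (nat_lit 113)) (.one (nat_lit 0x300000100400800c00d2008070c1801a611))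 (.br (Nat.shiftLeft (nat_lit 0x3000003) (nat_lit 112)) (.one (nat_lit 0x300000200400800c00d4008070c1801a611)) (.one (nat_lit 0x300000300400800c00d6008070c1801a611))))))
def t134 : k134.all (jb2 57 fl b0) = true := by decide +kernel
noncomputable def k135 : KT := (.br (Nat.shiftLeft (nat_lit 0x4000003) (nat_lit 112)) (.br (Nat.shiftLeft (nat_lit 0x2000001) (nat_lit 113)) (.one (nat_lit 0x400000100400800c00d200809101801a611)) (.one (nat_lit 0x400000200400800c00d400809101801a611))) (.br (Nat.shiftLeft (nat_lit 0x5) (nat_lit 136)) (.one (nat_lit 0x400000300400800c00d600809101801a611)) (.one (nat_lit 0x500000100400800c00d20080b141801a611))))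
def t135 : k135.all (jb2 57 fl b0) = true := by decide +kernel
noncomputable def k136 : KT := (.br (Nat.shiftLeft (nat_lit 0x5000003) (nat_lit 112)) (.one (nat_lit 0x500000200400800c00d40080b141801a611)) (.one (nat_lit 0x500000300400800c00d60080b141801a611)))
def t136 : k136.all (jb2 57 fl b0) = true := by decide +kernel
noncomputable def k137 : KT := (.one (nat_lit 0x600000100400800c00d20080d181801a611))
def t137 : k137.all (jb2 57 fl b0) = true := by decide +kernel
noncomputable def k138 : KT := (.br (Nat.shiftLeft (nat_lit 0x6000003) (nat_lit 112)) (.one (nat_lit 0x600000200400800c00d40080d181801a611)) (.one (nat_lit 0x600000300400800c00d60080d181801a611)))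
def t138 : k138.all (jb2 57 fl b0) = true := by decide +kernel
noncomputable def k139 : KT := (.one (nat_lit 0x700000100400800c00d20080f1c1801a611))
noncomputable def b140 : BT := .node (nat_lit 0x1) (nat_lit 0x9924b193ac003a59000ab7c10008800028) .leaf .leaf
def t139 : k139.all (jb2 57 fl b140) = true := by decide +kernel
noncomputable def k140 : KT := (.br (Nat.shiftLeft (nat_lit 0x7000003) (nat_lit 112)) (.one (nat_lit 0x700000200400800c00d40080f1c1801a611)) (.one (nat_lit 0x700000300400800c00d60080f1c1801a611)))
noncomputable def b141 : BT := .node (nat_lit 0x1) (nat_lit 0x54249b92ec003a1c000ca7410008700028) .leaf .leaf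
def t140 : k140.all (jb2 57 fl b141) = true := by decide +kernel
noncomputable def k141 : KT := (.one (nat_lit 0x800000100400800c00d200811201801a611))
noncomputable def b142 : BT := .node (nat_lit 0x1) (nat_lit 0x91893a9b68db32a1a58c002b1b000ab68003318000ac602000e400028) .leaf .leaf
def t141 : k141.all (jb2 57 fl b142) = true := by decide +kernel
noncomputable def k142 : KT := (.br (Nat.shiftLeft (nat_lit 0x8000003) (nat_lit 112)) (.one (nat_lit 0x800000200400800c00d400811201801a611)) (.one (nat_lit 0x800000300400800c00d600811201801a611)))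
def t142 : k142.all (jb2 57 fl b0) = true := by decide +kernel
noncomputable def k143 : KT := (.br (Nat.shiftLeft (nat_lit 0x4800001) (nat_lit 113)) (.one (nat_lit 0x900000100400800c00d200813241801a611)) (.br (Nat.shiftLeft (nat_lit 0x9000003) (nat_lit 112)) (.one (nat_lit 0x900000200400800c00d400813241801a611)) (.one (nat_lit 0x900000300400800c00d600813241801a611))))
def t143 : k143.all (jb2 57 fl b0) = true := by decide +kernel
noncomputable def k144 : KT := (.br (Nat.shiftLeft (nat_lit 0x5800001) (nat_lit 113)) (.br (Nat.shiftLeft (nat_lit 0xa000003) (nat_lit 112)) (.br (Nat.shiftLeft (nat_lit 0x5000001) (nat_lit 113)) (.one (nat_lit 0xa00000100400800c00d200815281801a611)) (.one (nat_lit 0xa00000200400800c00d400815281801a611))) (.br (Nat.shiftLeft (nat_lit 0xb) (nat_lit 136)) (.one (nat_lit 0xa00000300400800c00d600815281801a611)) (.one (nat_lit 0xb00000100400800c00d2008172c1801a611)))) (.br (Nat.shiftLeft (nat_lit 0x3) (nat_lit 138)) (.br (Nat.shiftLeft (nat_lit 0xb000003) (nat_lit 112)) (.one (nat_lit 0xb00000200400800c00d4008172c1801a611))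 (.one (nat_lit 0xb00000300400800c00d6008172c1801a611))) (.br (Nat.shiftLeft (nat_lit 0x6000001) (nat_lit 113)) (.one (nat_lit 0xc00000100400800c00d200819301801a611)) (.one (nat_lit 0xc00000200400800c00d400819301801a611)))))
def t144 : k144.all (jb2 57 fl b0) = true := by decide +kernel
noncomputable def k145 : KT := (.br (Nat.shiftLeft (nat_lit 0x3) (nat_lit 148)) (.br (Nat.shiftLeft (nat_lit 0x800001) (nat_lit 125)) (.br (Nat.shiftLeft (nat_lit 0x1) (nat_lit 148)) (.one (nat_lit 0xc00000300400800c00d600819301801a611)) (.br (Nat.shiftLeft (nat_lit 0x1000001003) (nat_lit 112)) (.one (nat_lit 0x100000100200400800c00d402841003841a711)) (.one (nat_lit 0x100000100300400800c00d602841003841a711)))) (.br (Nat.shiftLeft (nat_lit 0x2000001003) (nat_lit 112)) (.br (Nat.shiftLeft (nat_lit 0x1) (nat_lit 149)) (.one (nat_lit 0x100000200300400800c00d602841005881a711)) (.one (nat_lit 0x200000100200400800c00d404881003841a711))) (.br (Nat.shiftLeft (nat_lit 0x1000001) (nat_lit 125)) (.one (nat_lit 0x200000100300400800c00d604881003841a711)) (.one (nat_lit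 0x200000200300400800c00d604881005881a711))))) (.br (Nat.shiftLeft (nat_lit 0x1) (nat_lit 150)) (.br (Nat.shiftLeft (nat_lit 0x3000001003) (nat_lit 112)) (.one (nat_lit 0x300000100200400800c00d4068c1003841a711)) (.br (Nat.shiftLeft (nat_lit 0x1800001) (nat_lit 125)) (.one (nat_lit 0x300000100300400800c00d6068c1003841a711)) (.one (nat_lit 0x300000200300400800c00d6068c1005881a711)))) (.br (Nat.shiftLeft (nat_lit 0x2000001) (nat_lit 125)) (.br (Nat.shiftLeft (nat_lit 0x4000001003) (nat_lit 112)) (.one (nat_lit 0x400000100200400800c00d408901003841a711)) (.one (nat_lit 0x400000100300400800c00d608901003841a711))) (.br (Nat.shiftLeft (nat_lit 0x5) (nat_lit 148)) (.one (nat_lit 0x400000200300400800c00d608901005881a711)) (.one (nat_lit 0x500000100200400800c00d40a941003841a711))))))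
def t145 : k145.all (jb2 57 fl b0) = true := by decide +kernel
noncomputable def k146 : KT := (.br (Nat.shiftLeft (nat_lit 0x2800001) (nat_lit 125)) (.one (nat_lit 0x500000100300400800c00d60a941003841a711)) (.br (Nat.shiftLeft (nat_lit 0x3) (nat_lit 149)) (.one (nat_lit 0x500000200300400800c00d60a941005881a711)) (.one (nat_lit 0x600000100200400800c00d40c981003841a711))))
def t146 : k146.all (jb2 57 fl b0) = true := by decide +kernel
noncomputable def k147 : KT := (.br (Nat.shiftLeft (nat_lit 0x3000001) (nat_lit 125)) (.one (nat_lit 0x600000100300400800c00d60c981003841a711)) (.br (Nat.shiftLeft (nat_lit 0x7) (nat_lit 148)) (.one (nat_lit 0x600000200300400800c00d60c981005881a711)) (.one (nat_lit 0x700000100200400800c00d40e9c1003841a711))))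
noncomputable def b148 : BT := .node (nat_lit 0x1) (nat_lit 0xde12a1a6480032d9000ac6010008800028) .leaf .leaf
def t147 : k147.all (jb2 57 fl b148) = true := by decide +kernel
noncomputable def k148 : KT := (.br (Nat.shiftLeft (nat_lit 0x1) (nat_lit 151)) (.br (Nat.shiftLeft (nat_lit 0x3800001) (nat_lit 125)) (.one (nat_lit 0x700000100300400800c00d60e9c1003841a711)) (.one (nat_lit 0x700000200300400800c00d60e9c1005881a711))) (.br (Nat.shiftLeft (nat_lit 0x8000001003) (nat_lit 112)) (.one (nat_lit 0x800000100200400800c00d410a01003841a711)) (.one (nat_lit 0x800000100300400800c00d610a01003841a711))))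
def t148 : k148.all (jb2 57 fl b0) = true := by decide +kernel
noncomputable def k149 : KT := (.br (Nat.shiftLeft (nat_lit 0x5000001) (nat_lit 125)) (.br (Nat.shiftLeft (nat_lit 0x4800001) (nat_lit 125)) (.br (Nat.shiftLeft (nat_lit 0x9) (nat_lit 148)) (.one (nat_lit 0x800000200300400800c00d610a01005881a711)) (.br (Nat.shiftLeft (nat_lit 0x9000001003) (nat_lit 112)) (.one (nat_lit 0x900000100200400800c00d412a41003841a711)) (.one (nat_lit 0x900000100300400800c00d612a41003841a711)))) (.br (Nat.shiftLeft (nat_lit 0x5) (nat_lit 149)) (.one (nat_lit 0x900000200300400800c00d612a41005881a711)) (.br (Nat.shiftLeft (nat_lit 0xa000001003) (nat_lit 112)) (.one (nat_lit 0xa00000100200400800c00d414a81003841a711)) (.one (nat_lit 0xa00000100300400800c00d614a81003841a711))))) (.br (Nat.shiftLeft (nat_lit 0x5800001) (nat_lit 125)) (.br (Nat.shiftLeft (nat_lit 0xb) (nat_lit 148)) (.one (nat_lit 0xa00000200300400800c00d614a81005881a711)) (.br (Nat.shiftLeft (nat_lit 0xb000001003) (nat_lit 112)) (.one (nat_lit 0xb00000100200400800c00d416ac1003841a711))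 (.one (nat_lit 0xb00000100300400800c00d616ac1003841a711)))) (.br (Nat.shiftLeft (nat_lit 0xc000001003) (nat_lit 112)) (.br (Nat.shiftLeft (nat_lit 0x3) (nat_lit 150)) (.one (nat_lit 0xb00000200300400800c00d616ac1005881a711)) (.one (nat_lit 0xc00000100200400800c00d418b01003841a711))) (.br (Nat.shiftLeft (nat_lit 0x6000001) (nat_lit 125)) (.one (nat_lit 0xc00000100300400800c00d618b01003841a711)) (.one (nat_lit 0xc00000200300400800c00d618b01005881a711))))))
def t149 : k149.all (jb2 57 fl b0) = true := by decide +kernel
noncomputable def s7 : KT := (.br (nat_lit 0x700000100400800c00d20080f1c1801a611) (.br (nat_lit 0x300000300400800c00d6008070c1801a611) (.br (nat_lit 0x700000400800c00d00080100f9c1a511) (.br (nat_lit 0x600000400800c00d00080100d981a511) k130 k131) (.br (nat_lit 0x800000400800c00d000801011a01a511) k132 (.br (nat_lit 0xb00000400800c00d000801017ac1a511) k133 k134))) (.br (nat_lit 0x500000300400800c00d60080b141801a611) (.br (nat_lit 0x500000100400800c00d20080b141801a611) k135 k136) (.br (nat_lit 0x600000100400800c00d20080d181801a611)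 k137 (.br (nat_lit 0x600000300400800c00d60080d181801a611) k138 k139)))) (.br (nat_lit 0xc00000200400800c00d400819301801a611) (.br (nat_lit 0x800000100400800c00d200811201801a611) (.br (nat_lit 0x700000300400800c00d60080f1c1801a611) k140 k141) (.br (nat_lit 0x800000300400800c00d600811201801a611) k142 (.br (nat_lit 0x900000300400800c00d600813241801a611) k143 k144))) (.br (nat_lit 0x600000100200400800c00d40c981003841a711) (.br (nat_lit 0x500000100200400800c00d40a941003841a711) k145 k146) (.br (nat_lit 0x700000100200400800c00d40e9c1003841a711) k147 (.br (nat_lit 0x800000100300400800c00d610a01003841a711) k148 k149)))))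
noncomputable def u7 : KT := (.one (nat_lit 0x400800c00d000801001801a540))
def w7 : u7.all (wj 57 s7) = true := by decide +kernel
def o7 : OkW 57 (jb2 57 fl) u7 := .lift s7 _ (.br _ _ _ (.br _ _ _ (.br _ _ _ (.br _ _ _ (.leaf b131 k130 t130) (.leaf b0 k131 t131)) (.br _ _ _ (.leaf b133 k132 t132) (.br _ _ _ (.leaf b0 k133 t133) (.leaf b0 k134 t134)))) (.br _ _ _ (.br _ _ _ (.leaf b0 k135 t135) (.leaf b0 k136 t136)) (.br _ _ _ (.leaf b0 k137 t137) (.br _ _ _ (.leaf b0 k138 t138) (.leaf b140 k139 t139))))) (.br _ _ _ (.br _ _ _ (.br _ _ _ (.leaf b141 k140 t140) (.leaf b142 k141 t141)) (.br _ _ _ (.leaf b0 k142 t142) (.br _ _ _ (.leaf b0 k143 t143) (.leaf b0 k144 t144)))) (.br _ _ _ (.br _ _ _ (.leaf b0 k145 t145) (.leaf b0 k146 t146)) (.br _ _ _ (.leaf b148 k147 t147) (.br _ _ _ (.leaf b0 k148 t148) (.leaf b0 k149 t149)))))) w7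
noncomputable def k150 : KT := (.br (Nat.shiftLeft (nat_lit 0x1003) (nat_lit 112)) (.br (Nat.shiftLeft (nat_lit 0x3) (nat_lit 112)) (.br (Nat.shiftLeft (nat_lit 0x1) (nat_lit 112)) (.one (nat_lit 0x400800c00e000801001801d500)) (.br (Nat.shiftLeft (nat_lit 0x1) (nat_lit 113)) (.one (nat_lit 0x100400800c00e200801001801d600)) (.one (nat_lit 0x200400800c00e400801001801d600)))) (.br (Nat.shiftLeft (nat_lit 0x1) (nat_lit 124)) (.one (nat_lit 0x300400800c00e600801001801d600)) (.br (Nat.shiftLeft (nat_lit 0x801) (nat_lit 113)) (.one (nat_lit 0x100000400800c00e000801003841c511)) (.one (nat_lit 0x100200400800c00e400801003841d700))))) (.br (Nat.shiftLeft (nat_lit 0x3) (nat_lit 124)) (.br (Nat.shiftLeft (nat_lit 0x1) (nat_lit 125)) (.one (nat_lit 0x100300400800c00e600801003841d700)) (.br (Nat.shiftLeft (nat_lit 0x1001) (nat_lit 113)) (.one (nat_lit 0x200000400800c00e000801005881c511)) (.one (nat_lit 0x200300400800c00e600801005881d700)))) (.br (Nat.shiftLeft (nat_lit 0x5) (nat_lit 124)) (.br (Nat.shiftLeft (nat_lit 0x1) (nat_lit 126)) (.one (nat_lit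 0x300000400800c00e0008010078c1c511)) (.one (nat_lit 0x400000400800c00e000801009901c511))) (.br (Nat.shiftLeft (nat_lit 0x3) (nat_lit 125)) (.one (nat_lit 0x500000400800c00e00080100b941c511)) (.one (nat_lit 0x600000400800c00e00080100d981c511))))))
def t150 : k150.all (jb2 57 fl b0) = true := by decide +kernel
noncomputable def k151 : KT := (.br (Nat.shiftLeft (nat_lit 0x1) (nat_lit 127)) (.one (nat_lit 0x700000400800c00e00080100f9c1c511)) (.one (nat_lit 0x800000400800c00e000801011a01c511)))
noncomputable def b152 : BT := .node (nat_lit 0xb) (nat_lit 0x91893ad32400193080046b00d424b21458003a5a000cc5c19636d9945c003a98000ad6010021000210001af001af001af001af00150000f0000f0000f0000f0000f0) .leaf .leaf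
def t151 : k151.all (jb2 57 fl b152) = true := by decide +kernel
noncomputable def k152 : KT := (.br (Nat.shiftLeft (nat_lit 0x3) (nat_lit 126)) (.br (Nat.shiftLeft (nat_lit 0x5) (nat_lit 125)) (.one (nat_lit 0x900000400800c00e000801013a41c511)) (.br (Nat.shiftLeft (nat_lit 0xb) (nat_lit 124)) (.one (nat_lit 0xa00000400800c00e000801015a81c511)) (.one (nat_lit 0xb00000400800c00e000801017ac1c511)))) (.br (Nat.shiftLeft (nat_lit 0x800001) (nat_lit 113)) (.br (Nat.shiftLeft (nat_lit 0x1) (nat_lit 136)) (.one (nat_lit 0xc00000400800c00e000801019b01c511)) (.one (nat_lit 0x100000100400800c00e200803041801c611))) (.br (Nat.shiftLeft (nat_lit 0x1000003) (nat_lit 112)) (.one (nat_lit 0x100000200400800c00e400803041801c611)) (.one (nat_lit 0x100000300400800c00e600803041801c611)))))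
noncomputable def b153 : BT := .node (nat_lit 0x17) (nat_lit 0x36cd2709636d9945ca84001d4c8015630009d4c801472e16d992f49d496349b92f8003a5b0008c7c003a5c000ab7c296349c13a801329d000ca741db3275945c003a1e0008d7010041600416004160041600416004160035b002a0002a0002a0002400024000240002400024000240002400024000240001e0001e0001e0001e0001e0) .leaf .leaf
def t152 : k152.all (jb2 57 fl b153) = true := by decide +kernel
noncomputable def k153 : KT := (.br (Nat.shiftLeft (nat_lit 0x1800001) (nat_lit 113)) (.br (Nat.shiftLeft (nat_lit 0x1000001) (nat_lit 113)) (.br (Nat.shiftLeft (nat_lit 0x1) (nat_lit 137)) (.one (nat_lit 0x100200300400800c00e600803045881c870)) (.one (nat_lit 0x200000100400800c00e200805081801c611))) (.br (Nat.shiftLeft (nat_lit 0x2000003) (nat_lit 112)) (.one (nat_lit 0x200000200400800c00e400805081801c611)) (.br (Nat.shiftLeft (nat_lit 0x3) (nat_lit 136)) (.one (nat_lit 0x200000300400800c00e600805081801c611)) (.one (nat_lit 0x300000100400800c00e2008070c1801c611))))) (.br (Nat.shiftLeft (nat_lit 0x1) (nat_lit 138)) (.br (Nat.shiftLeft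 (nat_lit 0x3000003) (nat_lit 112)) (.one (nat_lit 0x300000200400800c00e4008070c1801c611)) (.one (nat_lit 0x300000300400800c00e6008070c1801c611))) (.br (Nat.shiftLeft (nat_lit 0x2000001) (nat_lit 113)) (.one (nat_lit 0x400000100400800c00e200809101801c611)) (.br (Nat.shiftLeft (nat_lit 0x4000003) (nat_lit 112)) (.one (nat_lit 0x400000200400800c00e400809101801c611)) (.one (nat_lit 0x400000300400800c00e600809101801c611))))))
def t153 : k153.all (jb2 57 fl b0) = true := by decide +kernel
noncomputable def k154 : KT := (.br (Nat.shiftLeft (nat_lit 0x2800001) (nat_lit 113)) (.one (nat_lit 0x500000100400800c00e20080b141801c611)) (.br (Nat.shiftLeft (nat_lit 0x5000003) (nat_lit 112)) (.one (nat_lit 0x500000200400800c00e40080b141801c611)) (.one (nat_lit 0x500000300400800c00e60080b141801c611))))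
def t154 : k154.all (jb2 57 fl b0) = true := by decide +kernel
noncomputable def k155 : KT := (.br (Nat.shiftLeft (nat_lit 0x3000001) (nat_lit 113)) (.one (nat_lit 0x600000100400800c00e20080d181801c611)) (.one (nat_lit 0x600000200400800c00e40080d181801c611)))
def t155 : k155.all (jb2 57 fl b0) = true := by decide +kernel
noncomputable def k156 : KT := (.br (Nat.shiftLeft (nat_lit 0x7) (nat_lit 136)) (.one (nat_lit 0x600000300400800c00e60080d181801c611)) (.one (nat_lit 0x700000100400800c00e20080f1c1801c611)))
noncomputable def b157 : BT := .node (nat_lit 0x1) (nat_lit 0x9634b192f40032d8000c98810008800028) .leaf .leaf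
def t156 : k156.all (jb2 57 fl b157) = true := by decide +kernel
noncomputable def k157 : KT := (.br (Nat.shiftLeft (nat_lit 0x7000003) (nat_lit 112)) (.one (nat_lit 0x700000200400800c00e40080f1c1801c611)) (.one (nat_lit 0x700000300400800c00e60080f1c1801c611)))
noncomputable def b158 : BT := .node (nat_lit 0x1) (nat_lit 0x93525e93ac003a5b000ac7410008800028) .leaf .leaf
def t157 : k157.all (jb2 57 fl b158) = true := by decide +kernel
noncomputable def k158 : KT := (.br (Nat.shiftLeft (nat_lit 0x4000001) (nat_lit 113)) (.one (nat_lit 0x800000100400800c00e200811201801c611)) (.br (Nat.shiftLeft (nat_lit 0x8000003) (nat_lit 112)) (.one (nat_lit 0x800000200400800c00e400811201801c611)) (.one (nat_lit 0x800000300400800c00e600811201801c611))))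
noncomputable def b159 : BT := .node (nat_lit 0x1) (nat_lit 0xdb249c145800421a0008d6c10008800028) .leaf .leaf
def t158 : k158.all (jb2 57 fl b159) = true := by decide +kernel
noncomputable def k159 : KT := (.br (Nat.shiftLeft (nat_lit 0x9000003) (nat_lit 112)) (.br (Nat.shiftLeft (nat_lit 0x4800001) (nat_lit 113)) (.one (nat_lit 0x900000100400800c00e200813241801c611)) (.one (nat_lit 0x900000200400800c00e400813241801c611))) (.br (Nat.shiftLeft (nat_lit 0x5) (nat_lit 137)) (.one (nat_lit 0x900000300400800c00e600813241801c611)) (.br (Nat.shiftLeft (nat_lit 0x5000001) (nat_lit 113)) (.one (nat_lit 0xa00000100400800c00e200815281801c611)) (.one (nat_lit 0xa00000200400800c00e400815281801c611)))))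
def t159 : k159.all (jb2 57 fl b0) = true := by decide +kernel
noncomputable def k160 : KT := (.br (Nat.shiftLeft (nat_lit 0x800001) (nat_lit 125)) (.br (Nat.shiftLeft (nat_lit 0x3) (nat_lit 138)) (.br (Nat.shiftLeft (nat_lit 0x5800001) (nat_lit 113)) (.br (Nat.shiftLeft (nat_lit 0xb) (nat_lit 136)) (.one (nat_lit 0xa00000300400800c00e600815281801c611)) (.one (nat_lit 0xb00000100400800c00e2008172c1801c611))) (.br (Nat.shiftLeft (nat_lit 0xb000003) (nat_lit 112)) (.one (nat_lit 0xb00000200400800c00e4008172c1801c611)) (.one (nat_lit 0xb00000300400800c00e6008172c1801c611)))) (.br (Nat.shiftLeft (nat_lit 0xc000003) (nat_lit 112)) (.br (Nat.shiftLeft (nat_lit 0x6000001) (nat_lit 113)) (.one (nat_lit 0xc00000100400800c00e200819301801c611)) (.one (nat_lit 0xc00000200400800c00e400819301801c611))) (.br (Nat.shiftLeft (nat_lit 0x1) (nat_lit 148)) (.one (nat_lit 0xc00000300400800c00e600819301801c611)) (.br (Nat.shiftLeft (nat_lit 0x1000001003) (nat_lit 112)) (.one (nat_lit 0x100000100200400800c00e402841003841c711)) (.one (nat_lit 0x100000100300400800c00e602841003841c711))))))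 (.br (Nat.shiftLeft (nat_lit 0x3000001003) (nat_lit 112)) (.br (Nat.shiftLeft (nat_lit 0x2000001003) (nat_lit 112)) (.br (Nat.shiftLeft (nat_lit 0x1) (nat_lit 149)) (.one (nat_lit 0x100000200300400800c00e602841005881c711)) (.one (nat_lit 0x200000100200400800c00e404881003841c711))) (.br (Nat.shiftLeft (nat_lit 0x1000001) (nat_lit 125)) (.one (nat_lit 0x200000100300400800c00e604881003841c711)) (.br (Nat.shiftLeft (nat_lit 0x3) (nat_lit 148)) (.one (nat_lit 0x200000200300400800c00e604881005881c711)) (.one (nat_lit 0x300000100200400800c00e4068c1003841c711))))) (.br (Nat.shiftLeft (nat_lit 0x1) (nat_lit 150)) (.br (Nat.shiftLeft (nat_lit 0x1800001) (nat_lit 125)) (.one (nat_lit 0x300000100300400800c00e6068c1003841c711)) (.one (nat_lit 0x300000200300400800c00e6068c1005881c711))) (.br (Nat.shiftLeft (nat_lit 0x4000001003) (nat_lit 112)) (.one (nat_lit 0x400000100200400800c00e408901003841c711)) (.br (Nat.shiftLeft (nat_lit 0x2000001) (nat_lit 125)) (.one (nat_lit 0x400000100300400800c00e608901003841c711)) (.one (nat_lit 0x400000200300400800c00e608901005881c711)))))))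
def t160 : k160.all (jb2 57 fl b0) = true := by decide +kernel
noncomputable def k161 : KT := (.br (Nat.shiftLeft (nat_lit 0x5000001003) (nat_lit 112)) (.one (nat_lit 0x500000100200400800c00e40a941003841c711)) (.br (Nat.shiftLeft (nat_lit 0x2800001) (nat_lit 125)) (.one (nat_lit 0x500000100300400800c00e60a941003841c711)) (.one (nat_lit 0x500000200300400800c00e60a941005881c711))))
def t161 : k161.all (jb2 57 fl b0) = true := by decide +kernel
noncomputable def k162 : KT := (.br (Nat.shiftLeft (nat_lit 0x3000001) (nat_lit 125)) (.br (Nat.shiftLeft (nat_lit 0x6000001003) (nat_lit 112)) (.one (nat_lit 0x600000100200400800c00e40c981003841c711)) (.one (nat_lit 0x600000100300400800c00e60c981003841c711))) (.br (Nat.shiftLeft (nat_lit 0x7) (nat_lit 148)) (.one (nat_lit 0x600000200300400800c00e60c981005881c711)) (.one (nat_lit 0x700000100200400800c00e40e9c1003841c711))))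
def t162 : k162.all (jb2 57 fl b0) = true := by decide +kernel
noncomputable def k163 : KT := (.br (Nat.shiftLeft (nat_lit 0x4000001) (nat_lit 125)) (.br (Nat.shiftLeft (nat_lit 0x1) (nat_lit 151)) (.br (Nat.shiftLeft (nat_lit 0x3800001) (nat_lit 125)) (.one (nat_lit 0x700000100300400800c00e60e9c1003841c711)) (.one (nat_lit 0x700000200300400800c00e60e9c1005881c711))) (.br (Nat.shiftLeft (nat_lit 0x8000001003) (nat_lit 112)) (.one (nat_lit 0x800000100200400800c00e410a01003841c711)) (.one (nat_lit 0x800000100300400800c00e610a01003841c711)))) (.br (Nat.shiftLeft (nat_lit 0x9000001003) (nat_lit 112)) (.br (Nat.shiftLeft (nat_lit 0x9) (nat_lit 148)) (.one (nat_lit 0x800000200300400800c00e610a01005881c711)) (.one (nat_lit 0x900000100200400800c00e412a41003841c711))) (.br (Nat.shiftLeft (nat_lit 0x4800001) (nat_lit 125)) (.one (nat_lit 0x900000100300400800c00e612a41003841c711)) (.one (nat_lit 0x900000200300400800c00e612a41005881c711)))))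
def t163 : k163.all (jb2 57 fl b0) = true := by decide +kernel
noncomputable def k164 : KT := (.br (Nat.shiftLeft (nat_lit 0xb000001003) (nat_lit 112)) (.br (Nat.shiftLeft (nat_lit 0x5000001) (nat_lit 125)) (.br (Nat.shiftLeft (nat_lit 0xa000001003) (nat_lit 112)) (.one (nat_lit 0xa00000100200400800c00e414a81003841c711)) (.one (nat_lit 0xa00000100300400800c00e614a81003841c711))) (.br (Nat.shiftLeft (nat_lit 0xb) (nat_lit 148)) (.one (nat_lit 0xa00000200300400800c00e614a81005881c711)) (.one (nat_lit 0xb00000100200400800c00e416ac1003841c711)))) (.br (Nat.shiftLeft (nat_lit 0x3) (nat_lit 150)) (.br (Nat.shiftLeft (nat_lit 0x5800001) (nat_lit 125)) (.one (nat_lit 0xb00000100300400800c00e616ac1003841c711)) (.one (nat_lit 0xb00000200300400800c00e616ac1005881c711))) (.br (Nat.shiftLeft (nat_lit 0xc000001003) (nat_lit 112)) (.one (nat_lit 0xc00000100200400800c00e418b01003841c711)) (.br (Nat.shiftLeft (nat_lit 0x6000001) (nat_lit 125)) (.one (nat_lit 0xc00000100300400800c00e618b01003841c711)) (.one (nat_lit 0xc00000200300400800c00e618b01005881c711))))))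
def t164 : k164.all (jb2 57 fl b0) = true := by decide +kernel
noncomputable def s8 : KT := (.br (nat_lit 0x700000100400800c00e20080f1c1801c611) (.br (nat_lit 0x100000300400800c00e600803041801c611) (.br (nat_lit 0x600000400800c00e00080100d981c511) k150 (.br (nat_lit 0x800000400800c00e000801011a01c511) k151 k152)) (.br (nat_lit 0x500000300400800c00e60080b141801c611) (.br (nat_lit 0x400000300400800c00e600809101801c611) k153 k154) (.br (nat_lit 0x600000200400800c00e40080d181801c611) k155 k156))) (.br (nat_lit 0x400000200300400800c00e608901005881c711) (.br (nat_lit 0x800000300400800c00e600811201801c611) (.br (nat_lit 0x700000300400800c00e60080f1c1801c611) k157 k158) (.br (nat_lit 0xa00000200400800c00e400815281801c611) k159 k160)) (.br (nat_lit 0x700000100200400800c00e40e9c1003841c711) (.br (nat_lit 0x500000200300400800c00e60a941005881c711) k161 k162) (.br (nat_lit 0x900000200300400800c00e612a41005881c711) k163 k164))))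
noncomputable def u8 : KT := (.one (nat_lit 0x400800c00e000801001801c540))
def w8 : u8.all (wj 57 s8) = true := by decide +kernel
def o8 : OkW 57 (jb2 57 fl) u8 := .lift s8 _ (.br _ _ _ (.br _ _ _ (.br _ _ _ (.leaf b0 k150 t150) (.br _ _ _ (.leaf b152 k151 t151) (.leaf b153 k152 t152))) (.br _ _ _ (.br _ _ _ (.leaf b0 k153 t153) (.leaf b0 k154 t154)) (.br _ _ _ (.leaf b0 k155 t155) (.leaf b157 k156 t156)))) (.br _ _ _ (.br _ _ _ (.br _ _ _ (.leaf b158 k157 t157) (.leaf b159 k158 t158)) (.br _ _ _ (.leaf b0 k159 t159) (.leaf b0 k160 t160))) (.br _ _ _ (.br _ _ _ (.leaf b0 k161 t161) (.leaf b0 k162 t162)) (.br _ _ _ (.leaf b0 k163 t163) (.leaf b0 k164 t164))))) w8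
noncomputable def k165 : KT := (.br (Nat.shiftLeft (nat_lit 0x3) (nat_lit 112)) (.br (Nat.shiftLeft (nat_lit 0x100400800c01) (nat_lit 68)) (.br (Nat.shiftLeft (nat_lit 0x400800c01) (nat_lit 68)) (.one (nat_lit 0x400800c00f000801001801f500)) (.br (Nat.shiftLeft (nat_lit 0x1) (nat_lit 112)) (.one (nat_lit 0x400800c0100008010018021500)) (.one (nat_lit 0x100400800c00f200801001801f600)))) (.br (Nat.shiftLeft (nat_lit 0x1) (nat_lit 113)) (.one (nat_lit 0x100400800c0102008010018021600)) (.br (Nat.shiftLeft (nat_lit 0x200400800c01) (nat_lit 68)) (.one (nat_lit 0x200400800c00f400801001801f600)) (.one (nat_lit 0x200400800c0104008010018021600))))) (.br (Nat.shiftLeft (nat_lit 0x100000400800c01) (nat_lit 68)) (.br (Nat.shiftLeft (nat_lit 0x300400800c01) (nat_lit 68)) (.one (nat_lit 0x300400800c00f600801001801f600)) (.br (Nat.shiftLeft (nat_lit 0x1) (nat_lit 124)) (.one (nat_lit 0x300400800c0106008010018021600)) (.one (nat_lit 0x100000400800c00f000801003841e511)))) (.br (Nat.shiftLeft (nat_lit 0x801) (nat_lit 113)) (.one (nat_lit 0x100000400800c0100008010038420511))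 (.br (Nat.shiftLeft (nat_lit 0x100200400800c01) (nat_lit 68)) (.one (nat_lit 0x100200400800c00f400801003841f700)) (.one (nat_lit 0x100200400800c0104008010038420760))))))
def t165 : k165.all (jb2 57 fl b0) = true := by decide +kernel
noncomputable def k166 : KT := (.one (nat_lit 0x100300400800c00f600801003841e760))
def t166 : k166.all (jb2 57 fl b0) = true := by decide +kernel
noncomputable def k167 : KT := (.br (Nat.shiftLeft (nat_lit 0x1) (nat_lit 125)) (.one (nat_lit 0x100300400800c0106008010038420760)) (.br (Nat.shiftLeft (nat_lit 0x200000400800c01) (nat_lit 68)) (.one (nat_lit 0x200000400800c00f000801005881e511)) (.one (nat_lit 0x200000400800c0100008010058820511))))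
def t167 : k167.all (jb2 57 fl b0) = true := by decide +kernel
noncomputable def k168 : KT := (.one (nat_lit 0x200300400800c00f600801005881e760))
def t168 : k168.all (jb2 57 fl b0) = true := by decide +kernel
noncomputable def k169 : KT := (.br (Nat.shiftLeft (nat_lit 0x1) (nat_lit 126)) (.br (Nat.shiftLeft (nat_lit 0x3) (nat_lit 124)) (.one (nat_lit 0x200300400800c0106008010058820760)) (.br (Nat.shiftLeft (nat_lit 0x300000400800c01) (nat_lit 68)) (.one (nat_lit 0x300000400800c00f0008010078c1e511)) (.one (nat_lit 0x300000400800c0100008010078c20511)))) (.br (Nat.shiftLeft (nat_lit 0x400000400800c01) (nat_lit 68)) (.one (nat_lit 0x400000400800c00f000801009901e511)) (.br (Nat.shiftLeft (nat_lit 0x5) (nat_lit 124)) (.one (nat_lit 0x400000400800c0100008010099020511)) (.one (nat_lit 0x500000400800c00f00080100b941e511)))))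
def t169 : k169.all (jb2 57 fl b0) = true := by decide +kernel
noncomputable def k170 : KT := (.br (Nat.shiftLeft (nat_lit 0x3) (nat_lit 125)) (.one (nat_lit 0x500000400800c01000080100b9420511)) (.br (Nat.shiftLeft (nat_lit 0x600000400800c01) (nat_lit 68)) (.one (nat_lit 0x600000400800c00f00080100d981e511)) (.one (nat_lit 0x600000400800c01000080100d9820511))))
def t170 : k170.all (jb2 57 fl b0) = true := by decide +kernel
noncomputable def k171 : KT := (.br (Nat.shiftLeft (nat_lit 0x700000400800c01) (nat_lit 68)) (.one (nat_lit 0x700000400800c00f00080100f9c1e511)) (.one (nat_lit 0x700000400800c01000080100f9c20511)))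
noncomputable def b172 : BT := .node (nat_lit 0x1) (nat_lit 0x93649b13ac003a98000ac7010008800028) .leaf .leaf
def t171 : k171.all (jb2 57 fl b172) = true := by decide +kernel
noncomputable def k172 : KT := (.br (Nat.shiftLeft (nat_lit 0x800000400800c01) (nat_lit 68)) (.one (nat_lit 0x800000400800c00f000801011a01e511)) (.br (Nat.shiftLeft (nat_lit 0x9) (nat_lit 124)) (.one (nat_lit 0x800000400800c010000801011a020511)) (.one (nat_lit 0x900000400800c00f000801013a41e511))))
noncomputable def b173 : BT := .node (nat_lit 0x17) (nat_lit 0x964275950d2c696325fb6c89d64eb4b212fca2c009d1000156b200596c0016540005d4c8014640001d10001563624b212f8a8493725f13a80039e3000ad5c003a5b000ac6c2a84db425f36c9b664bf00127680022e3000ea640022e40a58d2c64be000ea60002aa30658897c4ea6d9b6cc97c001d2d80065b600196c00055be16d9145d2c896449ba4dc0032db000ac68003a98000cb6029636da12f8003a99000aa8c19632a1259126a4be275a58d2704be000cc5c0032d9000e970002b1c000e974002adf0e58c9d654349b13a497e001d2e00056b000196c000654214b136cca2edb36d9945c0042590008d700032d8000ad602db225f150c0039e40008e601009e8009e8009e800877007bc007bc007bc007bc00702006a2006a2006a2006a2005e70052c004cc004cc004cc003b6003b6003b6002fb00240001e0)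 .leaf .leaf
def t172 : k172.all (jb2 57 fl b173) = true := by decide +kernel
noncomputable def k173 : KT := (.br (Nat.shiftLeft (nat_lit 0x100000300400800c01) (nat_lit 68)) (.br (Nat.shiftLeft (nat_lit 0xc00000400800c01) (nat_lit 68)) (.br (Nat.shiftLeft (nat_lit 0xb) (nat_lit 124)) (.br (Nat.shiftLeft (nat_lit 0x5) (nat_lit 125)) (.one (nat_lit 0x900000400800c010000801013a420511)) (.br (Nat.shiftLeft (nat_lit 0xa00000400800c01) (nat_lit 68)) (.one (nat_lit 0xa00000400800c00f000801015a81e511)) (.one (nat_lit 0xa00000400800c010000801015a820511)))) (.br (Nat.shiftLeft (nat_lit 0xb00000400800c01) (nat_lit 68)) (.one (nat_lit 0xb00000400800c00f000801017ac1e511)) (.br (Nat.shiftLeft (nat_lit 0x3) (nat_lit 126)) (.one (nat_lit 0xb00000400800c010000801017ac20511)) (.one (nat_lit 0xc00000400800c00f000801019b01e511))))) (.br (Nat.shiftLeft (nat_lit 0x800001) (nat_lit 113)) (.br (Nat.shiftLeft (nat_lit 0x1) (nat_lit 136)) (.one (nat_lit 0xc00000400800c010000801019b020511)) (.br (Nat.shiftLeft (nat_lit 0x100000100400800c01) (nat_lit 68)) (.one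 (nat_lit 0x100000100400800c00f200803041801e611)) (.one (nat_lit 0x100000100400800c0102008030418020611)))) (.br (Nat.shiftLeft (nat_lit 0x100000200400800c01) (nat_lit 68)) (.one (nat_lit 0x100000200400800c00f400803041801e611)) (.br (Nat.shiftLeft (nat_lit 0x1000003) (nat_lit 112)) (.one (nat_lit 0x100000200400800c0104008030418020611)) (.one (nat_lit 0x100000300400800c00f600803041801e611)))))) (.br (Nat.shiftLeft (nat_lit 0x200000300400800c01) (nat_lit 68)) (.br (Nat.shiftLeft (nat_lit 0x1000001) (nat_lit 113)) (.br (Nat.shiftLeft (nat_lit 0x1) (nat_lit 137)) (.one (nat_lit 0x100000300400800c0106008030418020611)) (.br (Nat.shiftLeft (nat_lit 0x200000100400800c01) (nat_lit 68)) (.one (nat_lit 0x200000100400800c00f200805081801e611)) (.one (nat_lit 0x200000100400800c0102008050818020611)))) (.br (Nat.shiftLeft (nat_lit 0x200000200400800c01) (nat_lit 68)) (.one (nat_lit 0x200000200400800c00f400805081801e611)) (.br (Nat.shiftLeft (nat_lit 0x2000003) (nat_lit 112)) (.one (nat_lit 0x200000200400800c0104008050818020611)) (.one (nat_lit 0x200000300400800c00f600805081801e611)))))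 (.br (Nat.shiftLeft (nat_lit 0x1800001) (nat_lit 113)) (.br (Nat.shiftLeft (nat_lit 0x3) (nat_lit 136)) (.one (nat_lit 0x200000300400800c0106008050818020611)) (.br (Nat.shiftLeft (nat_lit 0x300000100400800c01) (nat_lit 68)) (.one (nat_lit 0x300000100400800c00f2008070c1801e611)) (.one (nat_lit 0x300000100400800c0102008070c18020611)))) (.br (Nat.shiftLeft (nat_lit 0x3000003) (nat_lit 112)) (.br (Nat.shiftLeft (nat_lit 0x300000200400800c01) (nat_lit 68)) (.one (nat_lit 0x300000200400800c00f4008070c1801e611)) (.one (nat_lit 0x300000200400800c0104008070c18020611))) (.br (Nat.shiftLeft (nat_lit 0x300000300400800c01) (nat_lit 68)) (.one (nat_lit 0x300000300400800c00f6008070c1801e611)) (.one (nat_lit 0x300000300400800c0106008070c18020611)))))))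
noncomputable def b174 : BT := .node (nat_lit 0x2) (nat_lit 0x12c6db349bb6cc9d24be4b113aca86001d4c800653800196c00055be001d1000056b21cb136cd2c6db228c1508004259000cb60003a5e0008e5c20020d000f70003c) .leaf .leaf
def t173 : k173.all (jb2 57 fl b174) = true := by decide +kernel
noncomputable def k174 : KT := (.br (Nat.shiftLeft (nat_lit 0x400000200400800c01) (nat_lit 68)) (.br (Nat.shiftLeft (nat_lit 0x400000100400800c01) (nat_lit 68)) (.one (nat_lit 0x400000100400800c00f200809101801e611)) (.br (Nat.shiftLeft (nat_lit 0x2000001) (nat_lit 113)) (.one (nat_lit 0x400000100400800c0102008091018020611)) (.one (nat_lit 0x400000200400800c00f400809101801e611)))) (.br (Nat.shiftLeft (nat_lit 0x400000300400800c01) (nat_lit 68)) (.br (Nat.shiftLeft (nat_lit 0x4000003) (nat_lit 112)) (.one (nat_lit 0x400000200400800c0104008091018020611)) (.one (nat_lit 0x400000300400800c00f600809101801e611))) (.br (Nat.shiftLeft (nat_lit 0x5) (nat_lit 136)) (.one (nat_lit 0x400000300400800c0106008091018020611)) (.one (nat_lit 0x500000100400800c00f20080b141801e611)))))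
def t174 : k174.all (jb2 57 fl b0) = true := by decide +kernel
noncomputable def k175 : KT := (.br (Nat.shiftLeft (nat_lit 0x500000200400800c01) (nat_lit 68)) (.br (Nat.shiftLeft (nat_lit 0x2800001) (nat_lit 113)) (.one (nat_lit 0x500000100400800c01020080b1418020611)) (.one (nat_lit 0x500000200400800c00f40080b141801e611))) (.br (Nat.shiftLeft (nat_lit 0x5000003) (nat_lit 112)) (.one (nat_lit 0x500000200400800c01040080b1418020611)) (.one (nat_lit 0x500000300400800c00f60080b141801e611))))
def t175 : k175.all (jb2 57 fl b0) = true := by decide +kernel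
noncomputable def k176 : KT := (.br (Nat.shiftLeft (nat_lit 0x3) (nat_lit 137)) (.one (nat_lit 0x500000300400800c01060080b1418020611)) (.br (Nat.shiftLeft (nat_lit 0x600000100400800c01) (nat_lit 68)) (.one (nat_lit 0x600000100400800c00f20080d181801e611)) (.one (nat_lit 0x600000100400800c01020080d1818020611))))
def t176 : k176.all (jb2 57 fl b0) = true := by decide +kernel
noncomputable def k177 : KT := (.br (Nat.shiftLeft (nat_lit 0x6000003) (nat_lit 112)) (.br (Nat.shiftLeft (nat_lit 0x600000200400800c01) (nat_lit 68)) (.one (nat_lit 0x600000200400800c00f40080d181801e611)) (.one (nat_lit 0x600000200400800c01040080d1818020611))) (.br (Nat.shiftLeft (nat_lit 0x600000300400800c01) (nat_lit 68)) (.one (nat_lit 0x600000300400800c00f60080d181801e611)) (.one (nat_lit 0x600000300400800c01060080d1818020611))))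
def t177 : k177.all (jb2 57 fl b0) = true := by decide +kernel
noncomputable def k178 : KT := (.br (Nat.shiftLeft (nat_lit 0x700000100400800c01) (nat_lit 68)) (.one (nat_lit 0x700000100400800c00f20080f1c1801e611)) (.br (Nat.shiftLeft (nat_lit 0x3800001) (nat_lit 113)) (.one (nat_lit 0x700000100400800c01020080f1c18020611)) (.one (nat_lit 0x700000200400800c00f40080f1c1801e611))))
def t178 : k178.all (jb2 57 fl b0) = true := by decide +kernel
noncomputable def k179 : KT := (.br (Nat.shiftLeft (nat_lit 0x700000300400800c01) (nat_lit 68)) (.br (Nat.shiftLeft (nat_lit 0x7000003) (nat_lit 112)) (.one (nat_lit 0x700000200400800c01040080f1c18020611)) (.one (nat_lit 0x700000300400800c00f60080f1c1801e611))) (.br (Nat.shiftLeft (nat_lit 0x1) (nat_lit 139)) (.one (nat_lit 0x700000300400800c01060080f1c18020611)) (.br (Nat.shiftLeft (nat_lit 0x800000100400800c01) (nat_lit 68)) (.one (nat_lit 0x800000100400800c00f200811201801e611)) (.one (nat_lit 0x800000100400800c0102008112018020611)))))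
noncomputable def b180 : BT := .node (nat_lit 0x1) (nat_lit 0x96328b24dc003317000ca7410008800028) .leaf .leaf
def t179 : k179.all (jb2 57 fl b180) = true := by decide +kernel
noncomputable def k180 : KT := (.br (Nat.shiftLeft (nat_lit 0x800000300400800c01) (nat_lit 68)) (.br (Nat.shiftLeft (nat_lit 0x800000200400800c01) (nat_lit 68)) (.one (nat_lit 0x800000200400800c00f400811201801e611)) (.br (Nat.shiftLeft (nat_lit 0x8000003) (nat_lit 112)) (.one (nat_lit 0x800000200400800c0104008112018020611)) (.one (nat_lit 0x800000300400800c00f600811201801e611)))) (.br (Nat.shiftLeft (nat_lit 0x900000100400800c01) (nat_lit 68)) (.br (Nat.shiftLeft (nat_lit 0x9) (nat_lit 136)) (.one (nat_lit 0x800000300400800c0106008112018020611)) (.one (nat_lit 0x900000100400800c00f200813241801e611))) (.br (Nat.shiftLeft (nat_lit 0x4800001) (nat_lit 113)) (.one (nat_lit 0x900000100400800c0102008132418020611)) (.one (nat_lit 0x900000200400800c00f400813241801e611)))))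
def t180 : k180.all (jb2 57 fl b0) = true := by decide +kernel
noncomputable def k181 : KT := (.br (Nat.shiftLeft (nat_lit 0xb00000200400800c01) (nat_lit 68)) (.br (Nat.shiftLeft (nat_lit 0xa00000200400800c01) (nat_lit 68)) (.br (Nat.shiftLeft (nat_lit 0x5) (nat_lit 137)) (.br (Nat.shiftLeft (nat_lit 0x9000003) (nat_lit 112)) (.one (nat_lit 0x900000200400800c0104008132418020611)) (.br (Nat.shiftLeft (nat_lit 0x900000300400800c01) (nat_lit 68)) (.one (nat_lit 0x900000300400800c00f600813241801e611)) (.one (nat_lit 0x900000300400800c0106008132418020611)))) (.br (Nat.shiftLeft (nat_lit 0xa00000100400800c01) (nat_lit 68)) (.one (nat_lit 0xa00000100400800c00f200815281801e611)) (.br (Nat.shiftLeft (nat_lit 0x5000001) (nat_lit 113)) (.one (nat_lit 0xa00000100400800c0102008152818020611)) (.one (nat_lit 0xa00000200400800c00f400815281801e611))))) (.br (Nat.shiftLeft (nat_lit 0xb) (nat_lit 136)) (.br (Nat.shiftLeft (nat_lit 0xa000003) (nat_lit 112)) (.one (nat_lit 0xa00000200400800c0104008152818020611)) (.br (Nat.shiftLeft (nat_lit 0xa00000300400800c01)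 (nat_lit 68)) (.one (nat_lit 0xa00000300400800c00f600815281801e611)) (.one (nat_lit 0xa00000300400800c0106008152818020611)))) (.br (Nat.shiftLeft (nat_lit 0xb00000100400800c01) (nat_lit 68)) (.one (nat_lit 0xb00000100400800c00f2008172c1801e611)) (.br (Nat.shiftLeft (nat_lit 0x5800001) (nat_lit 113)) (.one (nat_lit 0xb00000100400800c0102008172c18020611)) (.one (nat_lit 0xb00000200400800c00f4008172c1801e611)))))) (.br (Nat.shiftLeft (nat_lit 0xc00000200400800c01) (nat_lit 68)) (.br (Nat.shiftLeft (nat_lit 0x3) (nat_lit 138)) (.br (Nat.shiftLeft (nat_lit 0xb000003) (nat_lit 112)) (.one (nat_lit 0xb00000200400800c0104008172c18020611)) (.br (Nat.shiftLeft (nat_lit 0xb00000300400800c01) (nat_lit 68)) (.one (nat_lit 0xb00000300400800c00f6008172c1801e611)) (.one (nat_lit 0xb00000300400800c0106008172c18020611)))) (.br (Nat.shiftLeft (nat_lit 0xc00000100400800c01) (nat_lit 68)) (.one (nat_lit 0xc00000100400800c00f200819301801e611)) (.br (Nat.shiftLeft (nat_lit 0x6000001) (nat_lit 113)) (.one (nat_lit 0xc00000100400800c0102008193018020611))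 (.one (nat_lit 0xc00000200400800c00f400819301801e611))))) (.br (Nat.shiftLeft (nat_lit 0x1) (nat_lit 148)) (.br (Nat.shiftLeft (nat_lit 0xc000003) (nat_lit 112)) (.one (nat_lit 0xc00000200400800c0104008193018020611)) (.br (Nat.shiftLeft (nat_lit 0xc00000300400800c01) (nat_lit 68)) (.one (nat_lit 0xc00000300400800c00f600819301801e611)) (.one (nat_lit 0xc00000300400800c0106008193018020611)))) (.br (Nat.shiftLeft (nat_lit 0x1) (nat_lit 149)) (.one (nat_lit 0x100000100200400800c00f402841003841e711)) (.br (Nat.shiftLeft (nat_lit 0x3) (nat_lit 148)) (.one (nat_lit 0x200000100200400800c00f404881003841e711)) (.one (nat_lit 0x300000100200400800c00f4068c1003841e711)))))))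
def t181 : k181.all (jb2 57 fl b0) = true := by decide +kernel
noncomputable def k182 : KT := (.br (Nat.shiftLeft (nat_lit 0x7) (nat_lit 148)) (.br (Nat.shiftLeft (nat_lit 0x5) (nat_lit 148)) (.one (nat_lit 0x400000100200400800c00f408901003841e711)) (.br (Nat.shiftLeft (nat_lit 0x3) (nat_lit 149)) (.one (nat_lit 0x500000100200400800c00f40a941003841e711)) (.one (nat_lit 0x600000100200400800c00f40c981003841e711)))) (.br (Nat.shiftLeft (nat_lit 0x1) (nat_lit 151)) (.one (nat_lit 0x700000100200400800c00f40e9c1003841e711)) (.br (Nat.shiftLeft (nat_lit 0x9) (nat_lit 148)) (.one (nat_lit 0x800000100200400800c00f410a01003841e711)) (.one (nat_lit 0x900000100200400800c00f412a41003841e711)))))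
def t182 : k182.all (jb2 57 fl b0) = true := by decide +kernel
noncomputable def k183 : KT := (.br (Nat.shiftLeft (nat_lit 0xb) (nat_lit 148)) (.one (nat_lit 0xa00000100200400800c00f414a81003841e711)) (.br (Nat.shiftLeft (nat_lit 0x3) (nat_lit 150)) (.one (nat_lit 0xb00000100200400800c00f416ac1003841e711)) (.one (nat_lit 0xc00000100200400800c00f418b01003841e711))))
def t183 : k183.all (jb2 57 fl b0) = true := by decide +kernel
noncomputable def s9 : KT := (.br (nat_lit 0x300000300400800c0106008070c18020611) (.br (nat_lit 0x200300400800c00f600801005881e760) (.br (nat_lit 0x100300400800c00f600801003841e760) (.br (nat_lit 0x100200400800c0104008010038420760) k165 k166) (.br (nat_lit 0x200000400800c0100008010058820511) k167 k168)) (.br (nat_lit 0x600000400800c01000080100d9820511) (.br (nat_lit 0x500000400800c00f00080100b941e511) k169 k170) (.br (nat_lit 0x700000400800c01000080100f9c20511) k171 (.br (nat_lit 0x900000400800c00f000801013a41e511) k172 k173)))) (.br (nat_lit 0x700000200400800c00f40080f1c1801e611) (.br (nat_lit 0x500000300400800c00f60080b141801e611)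 (.br (nat_lit 0x500000100400800c00f20080b141801e611) k174 k175) (.br (nat_lit 0x600000100400800c01020080d1818020611) k176 (.br (nat_lit 0x600000300400800c01060080d1818020611) k177 k178))) (.br (nat_lit 0x900000200400800c00f400813241801e611) (.br (nat_lit 0x800000100400800c0102008112018020611) k179 k180) (.br (nat_lit 0x300000100200400800c00f4068c1003841e711) k181 (.br (nat_lit 0x900000100200400800c00f412a41003841e711) k182 k183)))))
noncomputable def u9 : KT := (.br (Nat.shiftLeft (nat_lit 0x400800c01) (nat_lit 68)) (.one (nat_lit 0x400800c00f000801001801e540)) (.one (nat_lit 0x400800c0100008010018020540)))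
def w9 : u9.all (wj 57 s9) = true := by decide +kernel
def o9 : OkW 57 (jb2 57 fl) u9 := .lift s9 _ (.br _ _ _ (.br _ _ _ (.br _ _ _ (.br _ _ _ (.leaf b0 k165 t165) (.leaf b0 k166 t166)) (.br _ _ _ (.leaf b0 k167 t167) (.leaf b0 k168 t168))) (.br _ _ _ (.br _ _ _ (.leaf b0 k169 t169) (.leaf b0 k170 t170)) (.br _ _ _ (.leaf b172 k171 t171) (.br _ _ _ (.leaf b173 k172 t172) (.leaf b174 k173 t173))))) (.br _ _ _ (.br _ _ _ (.br _ _ _ (.leaf b0 k174 t174) (.leaf b0 k175 t175)) (.br _ _ _ (.leaf b0 k176 t176) (.br _ _ _ (.leaf b0 k177 t177) (.leaf b0 k178 t178)))) (.br _ _ _ (.br _ _ _ (.leaf b180 k179 t179) (.leaf b0 k180 t180)) (.br _ _ _ (.leaf b0 k181 t181) (.br _ _ _ (.leaf b0 k182 t182) (.leaf b0 k183 t183)))))) w9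
noncomputable def k184 : KT := (.br (Nat.shiftLeft (nat_lit 0x200400800d) (nat_lit 76)) (.br (Nat.shiftLeft (nat_lit 0x1) (nat_lit 112)) (.br (Nat.shiftLeft (nat_lit 0x400800d) (nat_lit 76)) (.one (nat_lit 0x400800c0110008010018023500)) (.br (Nat.shiftLeft (nat_lit 0x400800d00f) (nat_lit 64)) (.one (nat_lit 0x400800d00e000801001a01d500)) (.one (nat_lit 0x400800d00f000801001a01f500)))) (.br (Nat.shiftLeft (nat_lit 0x100400800d00f) (nat_lit 64)) (.br (Nat.shiftLeft (nat_lit 0x100400800d) (nat_lit 76)) (.one (nat_lit 0x100400800c0112008010018022650)) (.one (nat_lit 0x100400800d00e200801001a01d600))) (.br (Nat.shiftLeft (nat_lit 0x1) (nat_lit 113)) (.one (nat_lit 0x100400800d00f200801001a01f600)) (.one (nat_lit 0x200400800c0114008010018023600))))) (.br (Nat.shiftLeft (nat_lit 0x300400800d00f) (nat_lit 64)) (.br (Nat.shiftLeft (nat_lit 0x3) (nat_lit 112)) (.br (Nat.shiftLeft (nat_lit 0x200400800d00f) (nat_lit 64)) (.one (nat_lit 0x200400800d00e400801001a01d600)) (.one (nat_lit 0x200400800d00f400801001a01f600))) (.br (Nat.shiftLeft (nat_lit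 0x300400800d) (nat_lit 76)) (.one (nat_lit 0x300400800c0116008010018023600)) (.one (nat_lit 0x300400800d00e600801001a01d600)))) (.br (Nat.shiftLeft (nat_lit 0x100000400800d) (nat_lit 76)) (.br (Nat.shiftLeft (nat_lit 0x1) (nat_lit 124)) (.one (nat_lit 0x300400800d00f600801001a01f600)) (.one (nat_lit 0x100000400800c0110008010038422511))) (.br (Nat.shiftLeft (nat_lit 0x100000400800d00f) (nat_lit 64)) (.one (nat_lit 0x100000400800d00e000801003a41c511)) (.one (nat_lit 0x100000400800d00f000801003a41e511))))))
def t184 : k184.all (jb2 57 fl b0) = true := by decide +kernel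
noncomputable def k185 : KT := (.one (nat_lit 0x100200400800c0114008010038422760))
def t185 : k185.all (jb2 57 fl b0) = true := by decide +kernel
noncomputable def k186 : KT := (.one (nat_lit 0x100200400800d00e400801003a41c760))
def t186 : k186.all (jb2 57 fl b0) = true := by decide +kernel
noncomputable def k187 : KT := (.one (nat_lit 0x100200400800d00f400801003a41e760))
def t187 : k187.all (jb2 57 fl b0) = true := by decide +kernel
noncomputable def k188 : KT := (.one (nat_lit 0x100300400800c0116008010038422760))
def t188 : k188.all (jb2 57 fl b0) = true := by decide +kernel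
noncomputable def k189 : KT := (.one (nat_lit 0x100300400800d00e600801003a41c760))
def t189 : k189.all (jb2 57 fl b0) = true := by decide +kernel
noncomputable def k190 : KT := (.br (Nat.shiftLeft (nat_lit 0x200000400800d) (nat_lit 76)) (.br (Nat.shiftLeft (nat_lit 0x1) (nat_lit 125)) (.one (nat_lit 0x100300400800d00f600801003a41e760)) (.one (nat_lit 0x200000400800c0110008010058822511))) (.br (Nat.shiftLeft (nat_lit 0x200000400800d00f) (nat_lit 64)) (.one (nat_lit 0x200000400800d00e000801005a81c511)) (.br (Nat.shiftLeft (nat_lit 0x1001) (nat_lit 113)) (.one (nat_lit 0x200000400800d00f000801005a81e511)) (.one (nat_lit 0x200300400800c0116008010058822760)))))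
def t190 : k190.all (jb2 57 fl b0) = true := by decide +kernel
noncomputable def k191 : KT := (.one (nat_lit 0x200300400800d00e600801005a81c760))
def t191 : k191.all (jb2 57 fl b0) = true := by decide +kernel
noncomputable def k192 : KT := (.br (Nat.shiftLeft (nat_lit 0x1) (nat_lit 126)) (.br (Nat.shiftLeft (nat_lit 0x300000400800d) (nat_lit 76)) (.br (Nat.shiftLeft (nat_lit 0x3) (nat_lit 124)) (.one (nat_lit 0x200300400800d00f600801005a81e760)) (.one (nat_lit 0x300000400800c0110008010078c22511))) (.br (Nat.shiftLeft (nat_lit 0x300000400800d00f) (nat_lit 64)) (.one (nat_lit 0x300000400800d00e000801007ac1c511)) (.one (nat_lit 0x300000400800d00f000801007ac1e511)))) (.br (Nat.shiftLeft (nat_lit 0x400000400800d00f) (nat_lit 64)) (.br (Nat.shiftLeft (nat_lit 0x400000400800d) (nat_lit 76)) (.one (nat_lit 0x400000400800c0110008010099022511)) (.one (nat_lit 0x400000400800d00e000801009b01c511))) (.br (Nat.shiftLeft (nat_lit 0x5) (nat_lit 124)) (.one (nat_lit 0x400000400800d00f000801009b01e511)) (.one (nat_lit 0x500000400800c01100080100b9422511)))))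
def t192 : k192.all (jb2 57 fl b0) = true := by decide +kernel
noncomputable def k193 : KT := (.br (Nat.shiftLeft (nat_lit 0x3) (nat_lit 125)) (.br (Nat.shiftLeft (nat_lit 0x500000400800d00f) (nat_lit 64)) (.one (nat_lit 0x500000400800d00e00080100bb41c511)) (.one (nat_lit 0x500000400800d00f00080100bb41e511))) (.br (Nat.shiftLeft (nat_lit 0x600000400800d) (nat_lit 76)) (.one (nat_lit 0x600000400800c01100080100d9822511)) (.one (nat_lit 0x600000400800d00e00080100db81c511))))
def t193 : k193.all (jb2 57 fl b0) = true := by decide +kernel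
noncomputable def k194 : KT := (.br (Nat.shiftLeft (nat_lit 0x7) (nat_lit 124)) (.one (nat_lit 0x600000400800d00f00080100db81e511)) (.br (Nat.shiftLeft (nat_lit 0x700000400800d) (nat_lit 76)) (.one (nat_lit 0x700000400800c01100080100f9c22511)) (.one (nat_lit 0x700000400800d00e00080100fbc1c511))))
def t194 : k194.all (jb2 57 fl b0) = true := by decide +kernel
noncomputable def k195 : KT := (.br (Nat.shiftLeft (nat_lit 0x800000400800d) (nat_lit 76)) (.br (Nat.shiftLeft (nat_lit 0x1) (nat_lit 127)) (.one (nat_lit 0x700000400800d00f00080100fbc1e511)) (.one (nat_lit 0x800000400800c011000801011a022511))) (.br (Nat.shiftLeft (nat_lit 0x800000400800d00f) (nat_lit 64)) (.one (nat_lit 0x800000400800d00e000801011c01c511)) (.one (nat_lit 0x800000400800d00f000801011c01e511))))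
noncomputable def b196 : BT := .node (nat_lit 0x1) (nat_lit 0x93626013a40032dd000cb6010008800028) .leaf .leaf
def t195 : k195.all (jb2 57 fl b196) = true := by decide +kernel
noncomputable def k196 : KT := (.br (Nat.shiftLeft (nat_lit 0xa00000400800d00f) (nat_lit 64)) (.br (Nat.shiftLeft (nat_lit 0x900000400800d00f) (nat_lit 64)) (.br (Nat.shiftLeft (nat_lit 0x900000400800d) (nat_lit 76)) (.one (nat_lit 0x900000400800c011000801013a422511)) (.one (nat_lit 0x900000400800d00e000801013c41c511))) (.br (Nat.shiftLeft (nat_lit 0x5) (nat_lit 125)) (.one (nat_lit 0x900000400800d00f000801013c41e511)) (.br (Nat.shiftLeft (nat_lit 0xa00000400800d) (nat_lit 76)) (.one (nat_lit 0xa00000400800c011000801015a822511)) (.one (nat_lit 0xa00000400800d00e000801015c81c511))))) (.br (Nat.shiftLeft (nat_lit 0xb00000400800d) (nat_lit 76)) (.br (Nat.shiftLeft (nat_lit 0xb) (nat_lit 124)) (.one (nat_lit 0xa00000400800d00f000801015c81e511)) (.one (nat_lit 0xb00000400800c011000801017ac22511))) (.br (Nat.shiftLeft (nat_lit 0xb00000400800d00f) (nat_lit 64)) (.one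 (nat_lit 0xb00000400800d00e000801017cc1c511)) (.br (Nat.shiftLeft (nat_lit 0x3) (nat_lit 126)) (.one (nat_lit 0xb00000400800d00f000801017cc1e511)) (.one (nat_lit 0xc00000400800c011000801019b022511))))))
def t196 : k196.all (jb2 57 fl b0) = true := by decide +kernel
noncomputable def k197 : KT := (.br (Nat.shiftLeft (nat_lit 0x2000003) (nat_lit 112)) (.br (Nat.shiftLeft (nat_lit 0x100000200400800d00f) (nat_lit 64)) (.br (Nat.shiftLeft (nat_lit 0x1) (nat_lit 136)) (.br (Nat.shiftLeft (nat_lit 0xd) (nat_lit 124)) (.br (Nat.shiftLeft (nat_lit 0xc00000400800d00f) (nat_lit 64)) (.one (nat_lit 0xc00000400800d00e000801019d01c511)) (.one (nat_lit 0xc00000400800d00f000801019d01e511))) (.br (Nat.shiftLeft (nat_lit 0xd00000400800d00f) (nat_lit 64)) (.one (nat_lit 0xd00000400800d00e00080101bd41c511)) (.one (nat_lit 0xd00000400800d00f00080101bd41e511)))) (.br (Nat.shiftLeft (nat_lit 0x800001) (nat_lit 113)) (.br (Nat.shiftLeft (nat_lit 0x100000100400800d00f) (nat_lit 64)) (.one (nat_lit 0x100000100400800d00e200803041a01c611)) (.one (nat_lit 0x100000100400800d00f200803041a01e611)))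 (.br (Nat.shiftLeft (nat_lit 0x100000200400800d) (nat_lit 76)) (.one (nat_lit 0x100000200400800c0114008030418022611)) (.one (nat_lit 0x100000200400800d00e400803041a01c611))))) (.br (Nat.shiftLeft (nat_lit 0x1) (nat_lit 137)) (.br (Nat.shiftLeft (nat_lit 0x100000300400800d) (nat_lit 76)) (.br (Nat.shiftLeft (nat_lit 0x1000003) (nat_lit 112)) (.one (nat_lit 0x100000200400800d00f400803041a01e611)) (.one (nat_lit 0x100000300400800c0116008030418022611))) (.br (Nat.shiftLeft (nat_lit 0x100000300400800d00f) (nat_lit 64)) (.one (nat_lit 0x100000300400800d00e600803041a01c611)) (.one (nat_lit 0x100000300400800d00f600803041a01e611)))) (.br (Nat.shiftLeft (nat_lit 0x1000001) (nat_lit 113)) (.br (Nat.shiftLeft (nat_lit 0x200000100400800d00f) (nat_lit 64)) (.one (nat_lit 0x200000100400800d00e200805081a01c611)) (.one (nat_lit 0x200000100400800d00f200805081a01e611))) (.br (Nat.shiftLeft (nat_lit 0x200000200400800d) (nat_lit 76)) (.one (nat_lit 0x200000200400800c0114008050818022611)) (.br (Nat.shiftLeft (nat_lit 0x200000200400800d00f) (nat_lit 64))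 (.one (nat_lit 0x200000200400800d00e400805081a01c611)) (.one (nat_lit 0x200000200400800d00f400805081a01e611))))))) (.br (Nat.shiftLeft (nat_lit 0x3000003) (nat_lit 112)) (.br (Nat.shiftLeft (nat_lit 0x300000100400800d00f) (nat_lit 64)) (.br (Nat.shiftLeft (nat_lit 0x200000300400800d00f) (nat_lit 64)) (.br (Nat.shiftLeft (nat_lit 0x200000300400800d) (nat_lit 76)) (.one (nat_lit 0x200000300400800c0116008050818022611)) (.one (nat_lit 0x200000300400800d00e600805081a01c611))) (.br (Nat.shiftLeft (nat_lit 0x3) (nat_lit 136)) (.one (nat_lit 0x200000300400800d00f600805081a01e611)) (.one (nat_lit 0x300000100400800d00e2008070c1a01c611)))) (.br (Nat.shiftLeft (nat_lit 0x300000200400800d) (nat_lit 76)) (.br (Nat.shiftLeft (nat_lit 0x1800001) (nat_lit 113)) (.one (nat_lit 0x300000100400800d00f2008070c1a01e611)) (.one (nat_lit 0x300000200400800c0114008070c18022611))) (.br (Nat.shiftLeft (nat_lit 0x300000200400800d00f) (nat_lit 64)) (.one (nat_lit 0x300000200400800d00e4008070c1a01c611)) (.one (nat_lit 0x300000200400800d00f4008070c1a01e611))))) (.br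 (Nat.shiftLeft (nat_lit 0x400000100400800d00f) (nat_lit 64)) (.br (Nat.shiftLeft (nat_lit 0x300000300400800d00f) (nat_lit 64)) (.br (Nat.shiftLeft (nat_lit 0x300000300400800d) (nat_lit 76)) (.one (nat_lit 0x300000300400800c0116008070c18022611)) (.one (nat_lit 0x300000300400800d00e6008070c1a01c611))) (.br (Nat.shiftLeft (nat_lit 0x1) (nat_lit 138)) (.one (nat_lit 0x300000300400800d00f6008070c1a01e611)) (.one (nat_lit 0x400000100400800d00e200809101a01c611)))) (.br (Nat.shiftLeft (nat_lit 0x400000200400800d) (nat_lit 76)) (.br (Nat.shiftLeft (nat_lit 0x2000001) (nat_lit 113)) (.one (nat_lit 0x400000100400800d00f200809101a01e611)) (.one (nat_lit 0x400000200400800c0114008091018022611))) (.br (Nat.shiftLeft (nat_lit 0x400000200400800d00f) (nat_lit 64)) (.one (nat_lit 0x400000200400800d00e400809101a01c611)) (.br (Nat.shiftLeft (nat_lit 0x4000003) (nat_lit 112)) (.one (nat_lit 0x400000200400800d00f400809101a01e611)) (.one (nat_lit 0x400000300400800c0116008091018022611))))))))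
def t197 : k197.all (jb2 57 fl b0) = true := by decide +kernel
noncomputable def k198 : KT := (.br (Nat.shiftLeft (nat_lit 0x5) (nat_lit 136)) (.br (Nat.shiftLeft (nat_lit 0x400000300400800d00f) (nat_lit 64)) (.one (nat_lit 0x400000300400800d00e600809101a01c611)) (.one (nat_lit 0x400000300400800d00f600809101a01e611))) (.br (Nat.shiftLeft (nat_lit 0x500000100400800d00f) (nat_lit 64)) (.one (nat_lit 0x500000100400800d00e20080b141a01c611)) (.br (Nat.shiftLeft (nat_lit 0x2800001) (nat_lit 113)) (.one (nat_lit 0x500000100400800d00f20080b141a01e611)) (.one (nat_lit 0x500000200400800c01140080b1418022611)))))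
def t198 : k198.all (jb2 57 fl b0) = true := by decide +kernel
noncomputable def k199 : KT := (.br (Nat.shiftLeft (nat_lit 0x5000003) (nat_lit 112)) (.br (Nat.shiftLeft (nat_lit 0x500000200400800d00f) (nat_lit 64)) (.one (nat_lit 0x500000200400800d00e40080b141a01c611)) (.one (nat_lit 0x500000200400800d00f40080b141a01e611))) (.br (Nat.shiftLeft (nat_lit 0x500000300400800d) (nat_lit 76)) (.one (nat_lit 0x500000300400800c01160080b1418022611)) (.br (Nat.shiftLeft (nat_lit 0x500000300400800d00f) (nat_lit 64)) (.one (nat_lit 0x500000300400800d00e60080b141a01c611)) (.one (nat_lit 0x500000300400800d00f60080b141a01e611)))))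
def t199 : k199.all (jb2 57 fl b0) = true := by decide +kernel
noncomputable def k200 : KT := (.br (Nat.shiftLeft (nat_lit 0x600000100400800d00f) (nat_lit 64)) (.one (nat_lit 0x600000100400800d00e20080d181a01c611)) (.br (Nat.shiftLeft (nat_lit 0x3000001) (nat_lit 113)) (.one (nat_lit 0x600000100400800d00f20080d181a01e611)) (.one (nat_lit 0x600000200400800c01140080d1818022611))))
def t200 : k200.all (jb2 57 fl b0) = true := by decide +kernel
noncomputable def k201 : KT := (.br (Nat.shiftLeft (nat_lit 0x6000003) (nat_lit 112)) (.br (Nat.shiftLeft (nat_lit 0x600000200400800d00f) (nat_lit 64)) (.one (nat_lit 0x600000200400800d00e40080d181a01c611)) (.one (nat_lit 0x600000200400800d00f40080d181a01e611))) (.br (Nat.shiftLeft (nat_lit 0x600000300400800d) (nat_lit 76)) (.one (nat_lit 0x600000300400800c01160080d1818022611)) (.br (Nat.shiftLeft (nat_lit 0x600000300400800d00f) (nat_lit 64)) (.one (nat_lit 0x600000300400800d00e60080d181a01c611)) (.one (nat_lit 0x600000300400800d00f60080d181a01e611)))))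
def t201 : k201.all (jb2 57 fl b0) = true := by decide +kernel
noncomputable def k202 : KT := (.br (Nat.shiftLeft (nat_lit 0x3800001) (nat_lit 113)) (.br (Nat.shiftLeft (nat_lit 0x700000100400800d00f) (nat_lit 64)) (.one (nat_lit 0x700000100400800d00e20080f1c1a01c611)) (.one (nat_lit 0x700000100400800d00f20080f1c1a01e611))) (.br (Nat.shiftLeft (nat_lit 0x700000200400800d) (nat_lit 76)) (.one (nat_lit 0x700000200400800c01140080f1c18022611)) (.one (nat_lit 0x700000200400800d00e40080f1c1a01c611))))
def t202 : k202.all (jb2 57 fl b0) = true := by decide +kernel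
noncomputable def k203 : KT := (.br (Nat.shiftLeft (nat_lit 0x700000300400800d00f) (nat_lit 64)) (.br (Nat.shiftLeft (nat_lit 0x7000003) (nat_lit 112)) (.one (nat_lit 0x700000200400800d00f40080f1c1a01e611)) (.br (Nat.shiftLeft (nat_lit 0x700000300400800d) (nat_lit 76)) (.one (nat_lit 0x700000300400800c01160080f1c18022611)) (.one (nat_lit 0x700000300400800d00e60080f1c1a01c611)))) (.br (Nat.shiftLeft (nat_lit 0x1) (nat_lit 139)) (.one (nat_lit 0x700000300400800d00f60080f1c1a01e611)) (.br (Nat.shiftLeft (nat_lit 0x800000100400800d00f) (nat_lit 64)) (.one (nat_lit 0x800000100400800d00e200811201a01c611)) (.one (nat_lit 0x800000100400800d00f200811201a01e611)))))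
def t203 : k203.all (jb2 57 fl b0) = true := by decide +kernel
noncomputable def k204 : KT := (.br (Nat.shiftLeft (nat_lit 0x800000300400800d) (nat_lit 76)) (.br (Nat.shiftLeft (nat_lit 0x800000200400800d00f) (nat_lit 64)) (.br (Nat.shiftLeft (nat_lit 0x800000200400800d) (nat_lit 76)) (.one (nat_lit 0x800000200400800c0114008112018022611)) (.one (nat_lit 0x800000200400800d00e400811201a01c611))) (.br (Nat.shiftLeft (nat_lit 0x8000003) (nat_lit 112)) (.one (nat_lit 0x800000200400800d00f400811201a01e611)) (.one (nat_lit 0x800000300400800c0116008112018022611)))) (.br (Nat.shiftLeft (nat_lit 0x9) (nat_lit 136)) (.br (Nat.shiftLeft (nat_lit 0x800000300400800d00f) (nat_lit 64)) (.one (nat_lit 0x800000300400800d00e600811201a01c611)) (.one (nat_lit 0x800000300400800d00f600811201a01e611))) (.br (Nat.shiftLeft (nat_lit 0x900000100400800d00f) (nat_lit 64)) (.one (nat_lit 0x900000100400800d00e200813241a01c611)) (.br (Nat.shiftLeft (nat_lit 0x4800001) (nat_lit 113)) (.one (nat_lit 0x900000100400800d00f200813241a01e611)) (.one (nat_lit 0x900000200400800c0114008132418022611))))))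
def t204 : k204.all (jb2 57 fl b0) = true := by decide +kernel
noncomputable def k205 : KT := (.br (Nat.shiftLeft (nat_lit 0xa00000300400800d00f) (nat_lit 64)) (.br (Nat.shiftLeft (nat_lit 0xa00000100400800d00f) (nat_lit 64)) (.br (Nat.shiftLeft (nat_lit 0x900000300400800d) (nat_lit 76)) (.br (Nat.shiftLeft (nat_lit 0x900000200400800d00f) (nat_lit 64)) (.one (nat_lit 0x900000200400800d00e400813241a01c611)) (.br (Nat.shiftLeft (nat_lit 0x9000003) (nat_lit 112)) (.one (nat_lit 0x900000200400800d00f400813241a01e611)) (.one (nat_lit 0x900000300400800c0116008132418022611)))) (.br (Nat.shiftLeft (nat_lit 0x900000300400800d00f) (nat_lit 64)) (.one (nat_lit 0x900000300400800d00e600813241a01c611)) (.br (Nat.shiftLeft (nat_lit 0x5) (nat_lit 137)) (.one (nat_lit 0x900000300400800d00f600813241a01e611)) (.one (nat_lit 0xa00000100400800d00e200815281a01c611))))) (.br (Nat.shiftLeft (nat_lit 0xa00000200400800d00f) (nat_lit 64)) (.br (Nat.shiftLeft (nat_lit 0x5000001) (nat_lit 113)) (.one (nat_lit 0xa00000100400800d00f200815281a01e611)) (.br (Nat.shiftLeft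 (nat_lit 0xa00000200400800d) (nat_lit 76)) (.one (nat_lit 0xa00000200400800c0114008152818022611)) (.one (nat_lit 0xa00000200400800d00e400815281a01c611)))) (.br (Nat.shiftLeft (nat_lit 0xa000003) (nat_lit 112)) (.one (nat_lit 0xa00000200400800d00f400815281a01e611)) (.br (Nat.shiftLeft (nat_lit 0xa00000300400800d) (nat_lit 76)) (.one (nat_lit 0xa00000300400800c0116008152818022611)) (.one (nat_lit 0xa00000300400800d00e600815281a01c611)))))) (.br (Nat.shiftLeft (nat_lit 0xb000003) (nat_lit 112)) (.br (Nat.shiftLeft (nat_lit 0x5800001) (nat_lit 113)) (.br (Nat.shiftLeft (nat_lit 0xb) (nat_lit 136)) (.one (nat_lit 0xa00000300400800d00f600815281a01e611)) (.br (Nat.shiftLeft (nat_lit 0xb00000100400800d00f) (nat_lit 64)) (.one (nat_lit 0xb00000100400800d00e2008172c1a01c611)) (.one (nat_lit 0xb00000100400800d00f2008172c1a01e611)))) (.br (Nat.shiftLeft (nat_lit 0xb00000200400800d) (nat_lit 76)) (.one (nat_lit 0xb00000200400800c0114008172c18022611)) (.br (Nat.shiftLeft (nat_lit 0xb00000200400800d00f) (nat_lit 64)) (.one (nat_lit 0xb00000200400800d00e4008172c1a01c611))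 (.one (nat_lit 0xb00000200400800d00f4008172c1a01e611))))) (.br (Nat.shiftLeft (nat_lit 0x3) (nat_lit 138)) (.br (Nat.shiftLeft (nat_lit 0xb00000300400800d) (nat_lit 76)) (.one (nat_lit 0xb00000300400800c0116008172c18022611)) (.br (Nat.shiftLeft (nat_lit 0xb00000300400800d00f) (nat_lit 64)) (.one (nat_lit 0xb00000300400800d00e6008172c1a01c611)) (.one (nat_lit 0xb00000300400800d00f6008172c1a01e611)))) (.br (Nat.shiftLeft (nat_lit 0x6000001) (nat_lit 113)) (.br (Nat.shiftLeft (nat_lit 0xc00000100400800d00f) (nat_lit 64)) (.one (nat_lit 0xc00000100400800d00e200819301a01c611)) (.one (nat_lit 0xc00000100400800d00f200819301a01e611))) (.br (Nat.shiftLeft (nat_lit 0xc00000200400800d) (nat_lit 76)) (.one (nat_lit 0xc00000200400800c0114008193018022611)) (.one (nat_lit 0xc00000200400800d00e400819301a01c611)))))))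
def t205 : k205.all (jb2 57 fl b0) = true := by decide +kernel
noncomputable def k206 : KT := (.br (Nat.shiftLeft (nat_lit 0xd00000100400800d00f) (nat_lit 64)) (.br (Nat.shiftLeft (nat_lit 0xc00000300400800d) (nat_lit 76)) (.br (Nat.shiftLeft (nat_lit 0xc000003) (nat_lit 112)) (.one (nat_lit 0xc00000200400800d00f400819301a01e611)) (.one (nat_lit 0xc00000300400800c0116008193018022611))) (.br (Nat.shiftLeft (nat_lit 0xc00000300400800d00f) (nat_lit 64)) (.one (nat_lit 0xc00000300400800d00e600819301a01c611)) (.br (Nat.shiftLeft (nat_lit 0xd) (nat_lit 136)) (.one (nat_lit 0xc00000300400800d00f600819301a01e611)) (.one (nat_lit 0xd00000100400800d00e20081b341a01c611))))) (.br (Nat.shiftLeft (nat_lit 0xd00000200400800d00f) (nat_lit 64)) (.br (Nat.shiftLeft (nat_lit 0x6800001) (nat_lit 113)) (.one (nat_lit 0xd00000100400800d00f20081b341a01e611)) (.one (nat_lit 0xd00000200400800d00e40081b341a01c611))) (.br (Nat.shiftLeft (nat_lit 0xd000003) (nat_lit 112)) (.one (nat_lit 0xd00000200400800d00f40081b341a01e611)) (.br (Nat.shiftLeft (nat_lit 0xd00000300400800d00f)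 (nat_lit 64)) (.one (nat_lit 0xd00000300400800d00e60081b341a01c611)) (.one (nat_lit 0xd00000300400800d00f60081b341a01e611))))))
def t206 : k206.all (jb2 57 fl b0) = true := by decide +kernel
noncomputable def s10 : KT := (.br (nat_lit 0x700000400800d00e00080100fbc1c511) (.br (nat_lit 0x100300400800c0116008010038422760) (.br (nat_lit 0x100200400800c0114008010038422760) (.br (nat_lit 0x100000400800d00f000801003a41e511) k184 k185) (.br (nat_lit 0x100200400800d00e400801003a41c760) k186 (.br (nat_lit 0x100200400800d00f400801003a41e760) k187 k188))) (.br (nat_lit 0x200300400800d00e600801005a81c760) (.br (nat_lit 0x100300400800d00e600801003a41c760) k189 (.br (nat_lit 0x200300400800c0116008010058822760) k190 k191)) (.br (nat_lit 0x500000400800c01100080100b9422511) k192 (.br (nat_lit 0x600000400800d00e00080100db81c511) k193 k194)))) (.br (nat_lit 0x600000200400800c01140080d1818022611) (.br (nat_lit 0x400000300400800c0116008091018022611) (.br (nat_lit 0x800000400800d00f000801011c01e511) k195 (.br (nat_lit 0xc00000400800c011000801019b022511)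 k196 k197)) (.br (nat_lit 0x500000200400800c01140080b1418022611) k198 (.br (nat_lit 0x500000300400800d00f60080b141a01e611) k199 k200))) (.br (nat_lit 0x800000100400800d00f200811201a01e611) (.br (nat_lit 0x600000300400800d00f60080d181a01e611) k201 (.br (nat_lit 0x700000200400800d00e40080f1c1a01c611) k202 k203)) (.br (nat_lit 0x900000200400800c0114008132418022611) k204 (.br (nat_lit 0xc00000200400800d00e400819301a01c611) k205 k206)))))
noncomputable def u10 : KT := (.br (Nat.shiftLeft (nat_lit 0x400800d) (nat_lit 76)) (.one (nat_lit 0x400800c0110008010018022540)) (.br (Nat.shiftLeft (nat_lit 0x400800d00f) (nat_lit 64)) (.one (nat_lit 0x400800d00e000801001a01c540)) (.one (nat_lit 0x400800d00f000801001a01e540))))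
def w10 : u10.all (wj 57 s10) = true := by decide +kernel
def o10 : OkW 57 (jb2 57 fl) u10 := .lift s10 _ (.br _ _ _ (.br _ _ _ (.br _ _ _ (.br _ _ _ (.leaf b0 k184 t184) (.leaf b0 k185 t185)) (.br _ _ _ (.leaf b0 k186 t186) (.br _ _ _ (.leaf b0 k187 t187) (.leaf b0 k188 t188)))) (.br _ _ _ (.br _ _ _ (.leaf b0 k189 t189) (.br _ _ _ (.leaf b0 k190 t190) (.leaf b0 k191 t191))) (.br _ _ _ (.leaf b0 k192 t192) (.br _ _ _ (.leaf b0 k193 t193) (.leaf b0 k194 t194))))) (.br _ _ _ (.br _ _ _ (.br _ _ _ (.leaf b196 k195 t195) (.br _ _ _ (.leaf b0 k196 t196) (.leaf b0 k197 t197))) (.br _ _ _ (.leaf b0 k198 t198) (.br _ _ _ (.leaf b0 k199 t199) (.leaf b0 k200 t200)))) (.br _ _ _ (.br _ _ _ (.leaf b0 k201 t201) (.br _ _ _ (.leaf b0 k202 t202) (.leaf b0 k203 t203))) (.br _ _ _ (.leaf b0 k204 t204) (.br _ _ _ (.leaf b0 k205 t205) (.leaf b0 k206 t206)))))) w10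
noncomputable def k207 : KT := (.br (Nat.shiftLeft (nat_lit 0x1002402803) (nat_lit 66)) (.br (Nat.shiftLeft (nat_lit 0x2004007) (nat_lit 77)) (.one (nat_lit 0x400800d010000801001a021500)) (.br (Nat.shiftLeft (nat_lit 0x4009) (nat_lit 88)) (.one (nat_lit 0x400800e00f000801001c01f500)) (.one (nat_lit 0x400900a00b0008012014017500)))) (.br (Nat.shiftLeft (nat_lit 0x400900a00d) (nat_lit 64)) (.one (nat_lit 0x400900a00c0008012014019500)) (.br (Nat.shiftLeft (nat_lit 0x1) (nat_lit 112)) (.one (nat_lit 0x400900a00d000801201401b500)) (.one (nat_lit 0x100400800d010200801001a020650)))))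
def t207 : k207.all (jb2 57 fl b0) = true := by decide +kernel
noncomputable def k208 : KT := (.br (Nat.shiftLeft (nat_lit 0x3) (nat_lit 112)) (.br (Nat.shiftLeft (nat_lit 0x1) (nat_lit 113)) (.one (nat_lit 0x100400800e00f200801001c01e650)) (.br (Nat.shiftLeft (nat_lit 0x1002004007) (nat_lit 77)) (.one (nat_lit 0x200400800d010400801001a021600)) (.one (nat_lit 0x200400800e00f400801001c01f600)))) (.br (Nat.shiftLeft (nat_lit 0x1) (nat_lit 124)) (.br (Nat.shiftLeft (nat_lit 0x1802004007) (nat_lit 77)) (.one (nat_lit 0x300400800d010600801001a021600)) (.one (nat_lit 0x300400800e00f600801001c01f600))) (.br (Nat.shiftLeft (nat_lit 0x800002004007) (nat_lit 77)) (.one (nat_lit 0x100000400800d010000801003a420511)) (.one (nat_lit 0x100000400800e00f000801003c41e511)))))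
def t208 : k208.all (jb2 57 fl b0) = true := by decide +kernel
noncomputable def k209 : KT := (.br (Nat.shiftLeft (nat_lit 0x801002004007) (nat_lit 77)) (.one (nat_lit 0x100200400800d010400801003a420760)) (.one (nat_lit 0x100200400800e00f400801003c41e760)))
def t209 : k209.all (jb2 57 fl b0) = true := by decide +kernel
noncomputable def k210 : KT := (.br (Nat.shiftLeft (nat_lit 0x1) (nat_lit 125)) (.br (Nat.shiftLeft (nat_lit 0x801802004007) (nat_lit 77)) (.one (nat_lit 0x100300400800d010600801003a420760)) (.one (nat_lit 0x100300400800e00f600801003c41e760))) (.br (Nat.shiftLeft (nat_lit 0x1000002004007) (nat_lit 77)) (.one (nat_lit 0x200000400800d010000801005a820511)) (.one (nat_lit 0x200000400800e00f000801005c81e511))))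
def t210 : k210.all (jb2 57 fl b0) = true := by decide +kernel
noncomputable def k211 : KT := (.br (Nat.shiftLeft (nat_lit 0x1800002004007) (nat_lit 77)) (.br (Nat.shiftLeft (nat_lit 0x1001802004007) (nat_lit 77)) (.one (nat_lit 0x200300400800d010600801005a820760)) (.br (Nat.shiftLeft (nat_lit 0x3) (nat_lit 124)) (.one (nat_lit 0x200300400800e00f600801005c81e760)) (.one (nat_lit 0x300000400800d010000801007ac20511)))) (.br (Nat.shiftLeft (nat_lit 0x1) (nat_lit 126)) (.one (nat_lit 0x300000400800e00f000801007cc1e511)) (.br (Nat.shiftLeft (nat_lit 0x2000002004007) (nat_lit 77)) (.one (nat_lit 0x400000400800d010000801009b020511)) (.one (nat_lit 0x400000400800e00f000801009d01e511)))))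
def t211 : k211.all (jb2 57 fl b0) = true := by decide +kernel
noncomputable def k212 : KT := (.br (Nat.shiftLeft (nat_lit 0x3000002004007) (nat_lit 77)) (.br (Nat.shiftLeft (nat_lit 0x2800002004007) (nat_lit 77)) (.one (nat_lit 0x500000400800d01000080100bb420511)) (.br (Nat.shiftLeft (nat_lit 0x3) (nat_lit 125)) (.one (nat_lit 0x500000400800e00f00080100bd41e511)) (.one (nat_lit 0x600000400800d01000080100db820511)))) (.br (Nat.shiftLeft (nat_lit 0x7) (nat_lit 124)) (.one (nat_lit 0x600000400800e00f00080100dd81e511)) (.br (Nat.shiftLeft (nat_lit 0x3800002004007) (nat_lit 77)) (.one (nat_lit 0x700000400800d01000080100fbc20511)) (.one (nat_lit 0x700000400800e00f00080100fdc1e511)))))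
def t212 : k212.all (jb2 57 fl b0) = true := by decide +kernel
noncomputable def k213 : KT := (.br (Nat.shiftLeft (nat_lit 0x1) (nat_lit 136)) (.br (Nat.shiftLeft (nat_lit 0xb) (nat_lit 124)) (.br (Nat.shiftLeft (nat_lit 0x4800002004007) (nat_lit 77)) (.br (Nat.shiftLeft (nat_lit 0x4000002004007) (nat_lit 77)) (.one (nat_lit 0x800000400800d010000801011c020511)) (.br (Nat.shiftLeft (nat_lit 0x9) (nat_lit 124)) (.one (nat_lit 0x800000400800e00f000801011e01e511)) (.one (nat_lit 0x900000400800d010000801013c420511)))) (.br (Nat.shiftLeft (nat_lit 0x5) (nat_lit 125)) (.one (nat_lit 0x900000400800e00f000801013e41e511)) (.br (Nat.shiftLeft (nat_lit 0x5000002004007) (nat_lit 77)) (.one (nat_lit 0xa00000400800d010000801015c820511)) (.one (nat_lit 0xa00000400800e00f000801015e81e511))))) (.br (Nat.shiftLeft (nat_lit 0x6000002004007) (nat_lit 77)) (.br (Nat.shiftLeft (nat_lit 0x5800002004007) (nat_lit 77)) (.one (nat_lit 0xb00000400800d010000801017cc20511)) (.br (Nat.shiftLeft (nat_lit 0x3) (nat_lit 126)) (.one (nat_lit 0xb00000400800e00f000801017ec1e511))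 (.one (nat_lit 0xc00000400800d010000801019d020511)))) (.br (Nat.shiftLeft (nat_lit 0x6800002004007) (nat_lit 77)) (.br (Nat.shiftLeft (nat_lit 0xd) (nat_lit 124)) (.one (nat_lit 0xc00000400800e00f000801019f01e511)) (.one (nat_lit 0xd00000400800d01000080101bd420511))) (.br (Nat.shiftLeft (nat_lit 0x7) (nat_lit 125)) (.one (nat_lit 0xd00000400800e00f00080101bf41e511)) (.one (nat_lit 0xe00000400800e00f00080101df81e511)))))) (.br (Nat.shiftLeft (nat_lit 0x2000003) (nat_lit 112)) (.br (Nat.shiftLeft (nat_lit 0x800001802004007) (nat_lit 77)) (.br (Nat.shiftLeft (nat_lit 0x800001002004007) (nat_lit 77)) (.one (nat_lit 0x100000200400800d010400803041a020611)) (.br (Nat.shiftLeft (nat_lit 0x1000003) (nat_lit 112)) (.one (nat_lit 0x100000200400800e00f400803041c01e611)) (.one (nat_lit 0x100000300400800d010600803041a020611)))) (.br (Nat.shiftLeft (nat_lit 0x1) (nat_lit 137)) (.one (nat_lit 0x100000300400800e00f600803041c01e611)) (.br (Nat.shiftLeft (nat_lit 0x1000001002004007) (nat_lit 77)) (.one (nat_lit 0x200000200400800d010400805081a020611))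 (.one (nat_lit 0x200000200400800e00f400805081c01e611))))) (.br (Nat.shiftLeft (nat_lit 0x1800001002004007) (nat_lit 77)) (.br (Nat.shiftLeft (nat_lit 0x1000001802004007) (nat_lit 77)) (.one (nat_lit 0x200000300400800d010600805081a020611)) (.br (Nat.shiftLeft (nat_lit 0x3) (nat_lit 136)) (.one (nat_lit 0x200000300400800e00f600805081c01e611)) (.one (nat_lit 0x300000200400800d0104008070c1a020611)))) (.br (Nat.shiftLeft (nat_lit 0x1800001802004007) (nat_lit 77)) (.br (Nat.shiftLeft (nat_lit 0x3000003) (nat_lit 112)) (.one (nat_lit 0x300000200400800e00f4008070c1c01e611)) (.one (nat_lit 0x300000300400800d0106008070c1a020611))) (.br (Nat.shiftLeft (nat_lit 0x1) (nat_lit 138)) (.one (nat_lit 0x300000300400800e00f6008070c1c01e611)) (.one (nat_lit 0x400000200400800d010400809101a020611)))))))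
def t213 : k213.all (jb2 57 fl b0) = true := by decide +kernel
noncomputable def k214 : KT := (.br (Nat.shiftLeft (nat_lit 0x2800001002004007) (nat_lit 77)) (.br (Nat.shiftLeft (nat_lit 0x2000001802004007) (nat_lit 77)) (.br (Nat.shiftLeft (nat_lit 0x4000003) (nat_lit 112)) (.one (nat_lit 0x400000200400800e00f400809101c01e611)) (.one (nat_lit 0x400000300400800d010600809101a020611))) (.br (Nat.shiftLeft (nat_lit 0x5) (nat_lit 136)) (.one (nat_lit 0x400000300400800e00f600809101c01e611)) (.one (nat_lit 0x500000200400800d01040080b141a020611)))) (.br (Nat.shiftLeft (nat_lit 0x2800001802004007) (nat_lit 77)) (.br (Nat.shiftLeft (nat_lit 0x5000003) (nat_lit 112)) (.one (nat_lit 0x500000200400800e00f40080b141c01e611)) (.one (nat_lit 0x500000300400800d01060080b141a020611))) (.br (Nat.shiftLeft (nat_lit 0x3) (nat_lit 137)) (.one (nat_lit 0x500000300400800e00f60080b141c01e611)) (.br (Nat.shiftLeft (nat_lit 0x3000001002004007) (nat_lit 77)) (.one (nat_lit 0x600000200400800d01040080d181a020611)) (.one (nat_lit 0x600000200400800e00f40080d181c01e611))))))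
def t214 : k214.all (jb2 57 fl b0) = true := by decide +kernel
noncomputable def k215 : KT := (.br (Nat.shiftLeft (nat_lit 0x5) (nat_lit 137)) (.br (Nat.shiftLeft (nat_lit 0x4000001002004007) (nat_lit 77)) (.br (Nat.shiftLeft (nat_lit 0x3800001002004007) (nat_lit 77)) (.br (Nat.shiftLeft (nat_lit 0x3000001802004007) (nat_lit 77)) (.one (nat_lit 0x600000300400800d01060080d181a020611)) (.br (Nat.shiftLeft (nat_lit 0x7) (nat_lit 136)) (.one (nat_lit 0x600000300400800e00f60080d181c01e611)) (.one (nat_lit 0x700000200400800d01040080f1c1a020611)))) (.br (Nat.shiftLeft (nat_lit 0x3800001802004007) (nat_lit 77)) (.br (Nat.shiftLeft (nat_lit 0x7000003) (nat_lit 112)) (.one (nat_lit 0x700000200400800e00f40080f1c1c01e611)) (.one (nat_lit 0x700000300400800d01060080f1c1a020611))) (.br (Nat.shiftLeft (nat_lit 0x1) (nat_lit 139)) (.one (nat_lit 0x700000300400800e00f60080f1c1c01e611)) (.one (nat_lit 0x800000200400800d010400811201a020611))))) (.br (Nat.shiftLeft (nat_lit 0x9) (nat_lit 136)) (.br (Nat.shiftLeft (nat_lit 0x8000003) (nat_lit 112)) (.one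 (nat_lit 0x800000200400800e00f400811201c01e611)) (.br (Nat.shiftLeft (nat_lit 0x4000001802004007) (nat_lit 77)) (.one (nat_lit 0x800000300400800d010600811201a020611)) (.one (nat_lit 0x800000300400800e00f600811201c01e611)))) (.br (Nat.shiftLeft (nat_lit 0x9000003) (nat_lit 112)) (.br (Nat.shiftLeft (nat_lit 0x4800001002004007) (nat_lit 77)) (.one (nat_lit 0x900000200400800d010400813241a020611)) (.one (nat_lit 0x900000200400800e00f400813241c01e611))) (.br (Nat.shiftLeft (nat_lit 0x4800001802004007) (nat_lit 77)) (.one (nat_lit 0x900000300400800d010600813241a020611)) (.one (nat_lit 0x900000300400800e00f600813241c01e611)))))) (.br (Nat.shiftLeft (nat_lit 0x5800001802004007) (nat_lit 77)) (.br (Nat.shiftLeft (nat_lit 0x5000001802004007) (nat_lit 77)) (.br (Nat.shiftLeft (nat_lit 0x5000001002004007) (nat_lit 77)) (.one (nat_lit 0xa00000200400800d010400815281a020611)) (.br (Nat.shiftLeft (nat_lit 0xa000003) (nat_lit 112)) (.one (nat_lit 0xa00000200400800e00f400815281c01e611)) (.one (nat_lit 0xa00000300400800d010600815281a020611)))) (.br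 (Nat.shiftLeft (nat_lit 0x5800001002004007) (nat_lit 77)) (.br (Nat.shiftLeft (nat_lit 0xb) (nat_lit 136)) (.one (nat_lit 0xa00000300400800e00f600815281c01e611)) (.one (nat_lit 0xb00000200400800d0104008172c1a020611))) (.br (Nat.shiftLeft (nat_lit 0xb000003) (nat_lit 112)) (.one (nat_lit 0xb00000200400800e00f4008172c1c01e611)) (.one (nat_lit 0xb00000300400800d0106008172c1a020611))))) (.br (Nat.shiftLeft (nat_lit 0xc000003) (nat_lit 112)) (.br (Nat.shiftLeft (nat_lit 0x3) (nat_lit 138)) (.one (nat_lit 0xb00000300400800e00f6008172c1c01e611)) (.br (Nat.shiftLeft (nat_lit 0x6000001002004007) (nat_lit 77)) (.one (nat_lit 0xc00000200400800d010400819301a020611)) (.one (nat_lit 0xc00000200400800e00f400819301c01e611)))) (.br (Nat.shiftLeft (nat_lit 0xd) (nat_lit 136)) (.br (Nat.shiftLeft (nat_lit 0x6000001802004007) (nat_lit 77)) (.one (nat_lit 0xc00000300400800d010600819301a020611)) (.one (nat_lit 0xc00000300400800e00f600819301c01e611))) (.br (Nat.shiftLeft (nat_lit 0x6800001002004007) (nat_lit 77)) (.one (nat_lit 0xd00000200400800d01040081b341a020611))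 (.one (nat_lit 0xd00000200400800e00f40081b341c01e611)))))))
def t215 : k215.all (jb2 57 fl b0) = true := by decide +kernel
noncomputable def k216 : KT := (.br (Nat.shiftLeft (nat_lit 0x6800001802004007) (nat_lit 77)) (.one (nat_lit 0xd00000300400800d01060081b341a020611)) (.br (Nat.shiftLeft (nat_lit 0x7) (nat_lit 137)) (.one (nat_lit 0xd00000300400800e00f60081b341c01e611)) (.one (nat_lit 0xe00000200400800e00f40081d381c01e611))))
def t216 : k216.all (jb2 57 fl b0) = true := by decide +kernel
noncomputable def s11 : KT := (.br (nat_lit 0x400000400800e00f000801009d01e511) (.br (nat_lit 0x100000400800e00f000801003c41e511) (.br (nat_lit 0x100400800d010200801001a020650) k207 k208) (.br (nat_lit 0x100200400800e00f400801003c41e760) k209 (.br (nat_lit 0x200000400800e00f000801005c81e511) k210 k211))) (.br (nat_lit 0x400000200400800d010400809101a020611) (.br (nat_lit 0x700000400800e00f00080100fdc1e511) k212 k213) (.br (nat_lit 0x600000200400800e00f40080d181c01e611) k214 (.br (nat_lit 0xd00000200400800e00f40081b341c01e611) k215 k216))))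
noncomputable def u11 : KT := (.br (Nat.shiftLeft (nat_lit 0x4009) (nat_lit 88)) (.br (Nat.shiftLeft (nat_lit 0x2004007) (nat_lit 77)) (.one (nat_lit 0x400800d010000801001a020540)) (.one (nat_lit 0x400800e00f000801001c01e540))) (.br (Nat.shiftLeft (nat_lit 0x1002402803) (nat_lit 66)) (.one (nat_lit 0x400900a00b0008012014017500)) (.br (Nat.shiftLeft (nat_lit 0x400900a00d) (nat_lit 64)) (.one (nat_lit 0x400900a00c0008012014019500)) (.one (nat_lit 0x400900a00d000801201401b500)))))
def w11 : u11.all (wj 57 s11) = true := by decide +kernel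
def o11 : OkW 57 (jb2 57 fl) u11 := .lift s11 _ (.br _ _ _ (.br _ _ _ (.br _ _ _ (.leaf b0 k207 t207) (.leaf b0 k208 t208)) (.br _ _ _ (.leaf b0 k209 t209) (.br _ _ _ (.leaf b0 k210 t210) (.leaf b0 k211 t211)))) (.br _ _ _ (.br _ _ _ (.leaf b0 k212 t212) (.leaf b0 k213 t213)) (.br _ _ _ (.leaf b0 k214 t214) (.br _ _ _ (.leaf b0 k215 t215) (.leaf b0 k216 t216))))) w11
noncomputable def k217 : KT := (.br (Nat.shiftLeft (nat_lit 0x1003) (nat_lit 112)) (.br (Nat.shiftLeft (nat_lit 0x3) (nat_lit 112)) (.br (Nat.shiftLeft (nat_lit 0x1) (nat_lit 112)) (.one (nat_lit 0x400900a00e000801201401d500)) (.br (Nat.shiftLeft (nat_lit 0x1) (nat_lit 113)) (.one (nat_lit 0x100400900a00e200801201401d600)) (.one (nat_lit 0x200400900a00e400801201401d600)))) (.br (Nat.shiftLeft (nat_lit 0x1) (nat_lit 124)) (.one (nat_lit 0x300400900a00e600801201401d600)) (.br (Nat.shiftLeft (nat_lit 0x801) (nat_lit 113)) (.one (nat_lit 0x100000400900a00e000801203441c511)) (.one (nat_lit 0x100200400900a00e400801203441d700))))) (.br (Nat.shiftLeft (nat_lit 0x3) (nat_lit 124))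 (.br (Nat.shiftLeft (nat_lit 0x1) (nat_lit 125)) (.one (nat_lit 0x100300400900a00e600801203441d700)) (.br (Nat.shiftLeft (nat_lit 0x1001) (nat_lit 113)) (.one (nat_lit 0x200000400900a00e000801205481c511)) (.one (nat_lit 0x200300400900a00e600801205481d700)))) (.br (Nat.shiftLeft (nat_lit 0x5) (nat_lit 124)) (.br (Nat.shiftLeft (nat_lit 0x1) (nat_lit 126)) (.one (nat_lit 0x300000400900a00e0008012074c1c511)) (.one (nat_lit 0x400000400900a00e000801209501c511))) (.br (Nat.shiftLeft (nat_lit 0x3) (nat_lit 125)) (.one (nat_lit 0x500000400900a00e00080120b541c511)) (.one (nat_lit 0x600000400900a00e00080120d581c511))))))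
noncomputable def b218 : BT := .node (nat_lit 0x1) (nat_lit 0x12316d9a648003a59000ac6010008900028) .leaf .leaf
def t217 : k217.all (jb2 57 fl b218) = true := by decide +kernel
noncomputable def k218 : KT := (.one (nat_lit 0x700000400900a00e00080120f5c1c511))
def t218 : k218.all (jb2 57 fl b0) = true := by decide +kernel
noncomputable def k219 : KT := (.one (nat_lit 0x800000400900a00e000801211601c511))
noncomputable def b220 : BT := .node (nat_lit 0x1) (nat_lit 0xdb449b92f000329b000ab7410008800028) .leaf .leaf
def t219 : k219.all (jb2 57 fl b220) = true := by decide +kernel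
noncomputable def k220 : KT := (.br (Nat.shiftLeft (nat_lit 0x1) (nat_lit 136)) (.br (Nat.shiftLeft (nat_lit 0x5) (nat_lit 125)) (.one (nat_lit 0x900000400900a00e000801213641c511)) (.one (nat_lit 0xa00000400900a00e000801215681c511))) (.br (Nat.shiftLeft (nat_lit 0x800001) (nat_lit 113)) (.one (nat_lit 0x100000100400900a00e200803241401c611)) (.br (Nat.shiftLeft (nat_lit 0x1000003) (nat_lit 112)) (.one (nat_lit 0x100000200400900a00e400803241401c611)) (.one (nat_lit 0x100000300400900a00e600803241401c611)))))
noncomputable def b221 : BT := .node (nat_lit 0x3) (nat_lit 0x4b212f0a8696349c12f0003a1d000ad60003a5d000cb602963274950c003a1e000ad6010016b000b00005000050) .leaf .leaf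
def t220 : k220.all (jb2 57 fl b221) = true := by decide +kernel
noncomputable def k221 : KT := (.br (Nat.shiftLeft (nat_lit 0x3) (nat_lit 136)) (.br (Nat.shiftLeft (nat_lit 0x1000001) (nat_lit 113)) (.br (Nat.shiftLeft (nat_lit 0x1) (nat_lit 137)) (.one (nat_lit 0x100200300400900a00e600803245481c870)) (.one (nat_lit 0x200000100400900a00e200805281401c611))) (.br (Nat.shiftLeft (nat_lit 0x2000003) (nat_lit 112)) (.one (nat_lit 0x200000200400900a00e400805281401c611)) (.one (nat_lit 0x200000300400900a00e600805281401c611)))) (.br (Nat.shiftLeft (nat_lit 0x3000003) (nat_lit 112)) (.br (Nat.shiftLeft (nat_lit 0x1800001) (nat_lit 113)) (.one (nat_lit 0x300000100400900a00e2008072c1401c611)) (.one (nat_lit 0x300000200400900a00e4008072c1401c611))) (.br (Nat.shiftLeft (nat_lit 0x1) (nat_lit 138)) (.one (nat_lit 0x300000300400900a00e6008072c1401c611)) (.br (Nat.shiftLeft (nat_lit 0x2000001) (nat_lit 113)) (.one (nat_lit 0x400000100400900a00e200809301401c611)) (.one (nat_lit 0x400000200400900a00e400809301401c611))))))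
def t221 : k221.all (jb2 57 fl b0) = true := by decide +kernel
noncomputable def k222 : KT := (.br (Nat.shiftLeft (nat_lit 0x5) (nat_lit 136)) (.one (nat_lit 0x400000300400900a00e600809301401c611)) (.br (Nat.shiftLeft (nat_lit 0x2800001) (nat_lit 113)) (.one (nat_lit 0x500000100400900a00e20080b341401c611)) (.one (nat_lit 0x500000200400900a00e40080b341401c611))))
def t222 : k222.all (jb2 57 fl b0) = true := by decide +kernel
noncomputable def k223 : KT := (.br (Nat.shiftLeft (nat_lit 0x3) (nat_lit 137)) (.one (nat_lit 0x500000300400900a00e60080b341401c611)) (.one (nat_lit 0x600000100400900a00e20080d381401c611)))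
def t223 : k223.all (jb2 57 fl b0) = true := by decide +kernel
noncomputable def k224 : KT := (.br (Nat.shiftLeft (nat_lit 0x6000003) (nat_lit 112)) (.one (nat_lit 0x600000200400900a00e40080d381401c611)) (.one (nat_lit 0x600000300400900a00e60080d381401c611)))
def t224 : k224.all (jb2 57 fl b0) = true := by decide +kernel
noncomputable def k225 : KT := (.one (nat_lit 0x700000100400900a00e20080f3c1401c611))
noncomputable def b226 : BT := .node (nat_lit 0x1) (nat_lit 0x12316da146000329a0008d7010008900028) .leaf .leaf
def t225 : k225.all (jb2 57 fl b226) = true := by decide +kernel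
noncomputable def k226 : KT := (.br (Nat.shiftLeft (nat_lit 0x7000003) (nat_lit 112)) (.one (nat_lit 0x700000200400900a00e40080f3c1401c611)) (.one (nat_lit 0x700000300400900a00e60080f3c1401c611)))
noncomputable def b227 : BT := .node (nat_lit 0x1) (nat_lit 0x93528c24d8003356000cb6010008800028) .leaf .leaf
def t226 : k226.all (jb2 57 fl b227) = true := by decide +kernel
noncomputable def k227 : KT := (.one (nat_lit 0x800000100400900a00e200811401401c611))
noncomputable def b228 : BT := .node (nat_lit 0x1) (nat_lit 0xdb36d9a4dc003a98000cb6010008800028) .leaf .leaf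
def t227 : k227.all (jb2 57 fl b228) = true := by decide +kernel
noncomputable def k228 : KT := (.br (Nat.shiftLeft (nat_lit 0x8000003) (nat_lit 112)) (.one (nat_lit 0x800000200400900a00e400811401401c611)) (.one (nat_lit 0x800000300400900a00e600811401401c611)))
noncomputable def b229 : BT := .node (nat_lit 0x1) (nat_lit 0x93625e92e80032da000ca7410008800028) .leaf .leaf
def t228 : k228.all (jb2 57 fl b229) = true := by decide +kernel
noncomputable def k229 : KT := (.br (Nat.shiftLeft (nat_lit 0x4800001) (nat_lit 113)) (.one (nat_lit 0x900000100400900a00e200813441401c611)) (.br (Nat.shiftLeft (nat_lit 0x9000003) (nat_lit 112)) (.one (nat_lit 0x900000200400900a00e400813441401c611)) (.one (nat_lit 0x900000300400900a00e600813441401c611))))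
def t229 : k229.all (jb2 57 fl b0) = true := by decide +kernel
noncomputable def k230 : KT := (.br (Nat.shiftLeft (nat_lit 0x2000001003) (nat_lit 112)) (.br (Nat.shiftLeft (nat_lit 0x1) (nat_lit 148)) (.br (Nat.shiftLeft (nat_lit 0x5000001) (nat_lit 113)) (.one (nat_lit 0xa00000100400900a00e200815481401c611)) (.br (Nat.shiftLeft (nat_lit 0xa000003) (nat_lit 112)) (.one (nat_lit 0xa00000200400900a00e400815481401c611)) (.one (nat_lit 0xa00000300400900a00e600815481401c611)))) (.br (Nat.shiftLeft (nat_lit 0x800001) (nat_lit 125)) (.br (Nat.shiftLeft (nat_lit 0x1000001003) (nat_lit 112)) (.one (nat_lit 0x100000100200400900a00e402841203441c711)) (.one (nat_lit 0x100000100300400900a00e602841203441c711))) (.br (Nat.shiftLeft (nat_lit 0x1) (nat_lit 149)) (.one (nat_lit 0x100000200300400900a00e602841205481c711)) (.one (nat_lit 0x200000100200400900a00e404881203441c711))))) (.br (Nat.shiftLeft (nat_lit 0x3000001003) (nat_lit 112)) (.br (Nat.shiftLeft (nat_lit 0x1000001) (nat_lit 125)) (.one (nat_lit 0x200000100300400900a00e604881203441c711))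 (.br (Nat.shiftLeft (nat_lit 0x3) (nat_lit 148)) (.one (nat_lit 0x200000200300400900a00e604881205481c711)) (.one (nat_lit 0x300000100200400900a00e4068c1203441c711)))) (.br (Nat.shiftLeft (nat_lit 0x1) (nat_lit 150)) (.br (Nat.shiftLeft (nat_lit 0x1800001) (nat_lit 125)) (.one (nat_lit 0x300000100300400900a00e6068c1203441c711)) (.one (nat_lit 0x300000200300400900a00e6068c1205481c711))) (.br (Nat.shiftLeft (nat_lit 0x4000001003) (nat_lit 112)) (.one (nat_lit 0x400000100200400900a00e408901203441c711)) (.one (nat_lit 0x400000100300400900a00e608901203441c711))))))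
def t230 : k230.all (jb2 57 fl b0) = true := by decide +kernel
noncomputable def k231 : KT := (.br (Nat.shiftLeft (nat_lit 0x5000001003) (nat_lit 112)) (.br (Nat.shiftLeft (nat_lit 0x5) (nat_lit 148)) (.one (nat_lit 0x400000200300400900a00e608901205481c711)) (.one (nat_lit 0x500000100200400900a00e40a941203441c711))) (.br (Nat.shiftLeft (nat_lit 0x2800001) (nat_lit 125)) (.one (nat_lit 0x500000100300400900a00e60a941203441c711)) (.one (nat_lit 0x500000200300400900a00e60a941205481c711))))
def t231 : k231.all (jb2 57 fl b0) = true := by decide +kernel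
noncomputable def k232 : KT := (.br (Nat.shiftLeft (nat_lit 0x6000001003) (nat_lit 112)) (.one (nat_lit 0x600000100200400900a00e40c981203441c711)) (.br (Nat.shiftLeft (nat_lit 0x3000001) (nat_lit 125)) (.one (nat_lit 0x600000100300400900a00e60c981203441c711)) (.one (nat_lit 0x600000200300400900a00e60c981205481c711))))
def t232 : k232.all (jb2 57 fl b0) = true := by decide +kernel
noncomputable def k233 : KT := (.br (Nat.shiftLeft (nat_lit 0x7000001003) (nat_lit 112)) (.one (nat_lit 0x700000100200400900a00e40e9c1203441c711)) (.br (Nat.shiftLeft (nat_lit 0x3800001) (nat_lit 125)) (.one (nat_lit 0x700000100300400900a00e60e9c1203441c711)) (.one (nat_lit 0x700000200300400900a00e60e9c1205481c711))))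
def t233 : k233.all (jb2 57 fl b0) = true := by decide +kernel
noncomputable def k234 : KT := (.br (Nat.shiftLeft (nat_lit 0x4000001) (nat_lit 125)) (.br (Nat.shiftLeft (nat_lit 0x8000001003) (nat_lit 112)) (.one (nat_lit 0x800000100200400900a00e410a01203441c711)) (.one (nat_lit 0x800000100300400900a00e610a01203441c711))) (.br (Nat.shiftLeft (nat_lit 0x9) (nat_lit 148)) (.one (nat_lit 0x800000200300400900a00e610a01205481c711)) (.br (Nat.shiftLeft (nat_lit 0x9000001003) (nat_lit 112)) (.one (nat_lit 0x900000100200400900a00e412a41203441c711)) (.one (nat_lit 0x900000100300400900a00e612a41203441c711)))))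
def t234 : k234.all (jb2 57 fl b0) = true := by decide +kernel
noncomputable def k235 : KT := (.br (Nat.shiftLeft (nat_lit 0xa000001003) (nat_lit 112)) (.br (Nat.shiftLeft (nat_lit 0x5) (nat_lit 149)) (.one (nat_lit 0x900000200300400900a00e612a41205481c711)) (.one (nat_lit 0xa00000100200400900a00e414a81203441c711))) (.br (Nat.shiftLeft (nat_lit 0x5000001) (nat_lit 125)) (.one (nat_lit 0xa00000100300400900a00e614a81203441c711)) (.one (nat_lit 0xa00000200300400900a00e614a81205481c711))))
def t235 : k235.all (jb2 57 fl b0) = true := by decide +kernel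
noncomputable def s12 : KT := (.br (nat_lit 0x700000100400900a00e20080f3c1401c611) (.br (nat_lit 0x100000300400900a00e600803241401c611) (.br (nat_lit 0x700000400900a00e00080120f5c1c511) (.br (nat_lit 0x600000400900a00e00080120d581c511) k217 k218) (.br (nat_lit 0x800000400900a00e000801211601c511) k219 k220)) (.br (nat_lit 0x500000200400900a00e40080b341401c611) (.br (nat_lit 0x400000200400900a00e400809301401c611) k221 k222) (.br (nat_lit 0x600000100400900a00e20080d381401c611) k223 (.br (nat_lit 0x600000300400900a00e60080d381401c611) k224 k225)))) (.br (nat_lit 0x400000100300400900a00e608901203441c711) (.br (nat_lit 0x800000100400900a00e200811401401c611) (.br (nat_lit 0x700000300400900a00e60080f3c1401c611) k226 k227) (.br (nat_lit 0x800000300400900a00e600811401401c611) k228 (.br (nat_lit 0x900000300400900a00e600813441401c611) k229 k230))) (.br (nat_lit 0x600000200300400900a00e60c981205481c711) (.br (nat_lit 0x500000200300400900a00e60a941205481c711) k231 k232) (.br (nat_lit 0x700000200300400900a00e60e9c1205481c711) k233 (.br (nat_lit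 0x900000100300400900a00e612a41203441c711) k234 k235)))))
noncomputable def u12 : KT := (.one (nat_lit 0x400900a00e000801201401c540))
def w12 : u12.all (wj 57 s12) = true := by decide +kernel
def o12 : OkW 57 (jb2 57 fl) u12 := .lift s12 _ (.br _ _ _ (.br _ _ _ (.br _ _ _ (.br _ _ _ (.leaf b218 k217 t217) (.leaf b0 k218 t218)) (.br _ _ _ (.leaf b220 k219 t219) (.leaf b221 k220 t220))) (.br _ _ _ (.br _ _ _ (.leaf b0 k221 t221) (.leaf b0 k222 t222)) (.br _ _ _ (.leaf b0 k223 t223) (.br _ _ _ (.leaf b0 k224 t224) (.leaf b226 k225 t225))))) (.br _ _ _ (.br _ _ _ (.br _ _ _ (.leaf b227 k226 t226) (.leaf b228 k227 t227)) (.br _ _ _ (.leaf b229 k228 t228) (.br _ _ _ (.leaf b0 k229 t229) (.leaf b0 k230 t230)))) (.br _ _ _ (.br _ _ _ (.leaf b0 k231 t231) (.leaf b0 k232 t232)) (.br _ _ _ (.leaf b0 k233 t233) (.br _ _ _ (.leaf b0 k234 t234) (.leaf b0 k235 t235)))))) w12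
noncomputable def k236 : KT := (.br (Nat.shiftLeft (nat_lit 0x3) (nat_lit 112)) (.br (Nat.shiftLeft (nat_lit 0x100400900a01) (nat_lit 68)) (.br (Nat.shiftLeft (nat_lit 0x400900a01) (nat_lit 68)) (.one (nat_lit 0x400900a00f000801201401f500)) (.br (Nat.shiftLeft (nat_lit 0x1) (nat_lit 112)) (.one (nat_lit 0x400900a0100008012014021500)) (.one (nat_lit 0x100400900a00f200801201401f600)))) (.br (Nat.shiftLeft (nat_lit 0x1) (nat_lit 113)) (.one (nat_lit 0x100400900a0102008012014021600)) (.br (Nat.shiftLeft (nat_lit 0x200400900a01) (nat_lit 68)) (.one (nat_lit 0x200400900a00f400801201401f600)) (.one (nat_lit 0x200400900a0104008012014021600))))) (.br (Nat.shiftLeft (nat_lit 0x100000400900a01) (nat_lit 68)) (.br (Nat.shiftLeft (nat_lit 0x300400900a01) (nat_lit 68)) (.one (nat_lit 0x300400900a00f600801201401f600)) (.br (Nat.shiftLeft (nat_lit 0x1) (nat_lit 124)) (.one (nat_lit 0x300400900a0106008012014021600)) (.one (nat_lit 0x100000400900a00f000801203441e511)))) (.br (Nat.shiftLeft (nat_lit 0x801) (nat_lit 113)) (.one (nat_lit 0x100000400900a0100008012034420511))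 (.br (Nat.shiftLeft (nat_lit 0x100200400900a01) (nat_lit 68)) (.one (nat_lit 0x100200400900a00f400801203441f700)) (.one (nat_lit 0x100200400900a0104008012034420760))))))
def t236 : k236.all (jb2 57 fl b0) = true := by decide +kernel
noncomputable def k237 : KT := (.one (nat_lit 0x100300400900a00f600801203441e760))
def t237 : k237.all (jb2 57 fl b0) = true := by decide +kernel
noncomputable def k238 : KT := (.br (Nat.shiftLeft (nat_lit 0x200000400900a01) (nat_lit 68)) (.br (Nat.shiftLeft (nat_lit 0x1) (nat_lit 125)) (.one (nat_lit 0x100300400900a0106008012034420760)) (.one (nat_lit 0x200000400900a00f000801205481e511))) (.br (Nat.shiftLeft (nat_lit 0x1001) (nat_lit 113)) (.one (nat_lit 0x200000400900a0100008012054820511)) (.one (nat_lit 0x200300400900a00f600801205481f700))))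
def t238 : k238.all (jb2 57 fl b0) = true := by decide +kernel
noncomputable def k239 : KT := (.br (Nat.shiftLeft (nat_lit 0x300000400900a01) (nat_lit 68)) (.br (Nat.shiftLeft (nat_lit 0x3) (nat_lit 124)) (.one (nat_lit 0x200300400900a0106008012054820760)) (.one (nat_lit 0x300000400900a00f0008012074c1e511))) (.br (Nat.shiftLeft (nat_lit 0x1) (nat_lit 126)) (.one (nat_lit 0x300000400900a0100008012074c20511)) (.br (Nat.shiftLeft (nat_lit 0x400000400900a01) (nat_lit 68)) (.one (nat_lit 0x400000400900a00f000801209501e511)) (.one (nat_lit 0x400000400900a0100008012095020511)))))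
def t239 : k239.all (jb2 57 fl b0) = true := by decide +kernel
noncomputable def k240 : KT := (.br (Nat.shiftLeft (nat_lit 0x3) (nat_lit 125)) (.br (Nat.shiftLeft (nat_lit 0x500000400900a01) (nat_lit 68)) (.one (nat_lit 0x500000400900a00f00080120b541e511)) (.one (nat_lit 0x500000400900a01000080120b5420511))) (.br (Nat.shiftLeft (nat_lit 0x600000400900a01) (nat_lit 68)) (.one (nat_lit 0x600000400900a00f00080120d581e511)) (.one (nat_lit 0x600000400900a01000080120d5820511))))
def t240 : k240.all (jb2 57 fl b0) = true := by decide +kernel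
noncomputable def k241 : KT := (.br (Nat.shiftLeft (nat_lit 0x700000400900a01) (nat_lit 68)) (.one (nat_lit 0x700000400900a00f00080120f5c1e511)) (.one (nat_lit 0x700000400900a01000080120f5c20511)))
def t241 : k241.all (jb2 57 fl b0) = true := by decide +kernel
noncomputable def k242 : KT := (.br (Nat.shiftLeft (nat_lit 0x800000400900a01) (nat_lit 68)) (.one (nat_lit 0x800000400900a00f000801211601e511)) (.one (nat_lit 0x800000400900a0100008012116020511)))
def t242 : k242.all (jb2 57 fl b0) = true := by decide +kernel
noncomputable def k243 : KT := (.br (Nat.shiftLeft (nat_lit 0x100000100400900a01) (nat_lit 68)) (.br (Nat.shiftLeft (nat_lit 0x5) (nat_lit 125)) (.br (Nat.shiftLeft (nat_lit 0x900000400900a01) (nat_lit 68)) (.one (nat_lit 0x900000400900a00f000801213641e511)) (.one (nat_lit 0x900000400900a0100008012136420511))) (.br (Nat.shiftLeft (nat_lit 0xa00000400900a01) (nat_lit 68)) (.one (nat_lit 0xa00000400900a00f000801215681e511)) (.br (Nat.shiftLeft (nat_lit 0x1) (nat_lit 136)) (.one (nat_lit 0xa00000400900a0100008012156820511))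 (.one (nat_lit 0x100000100400900a00f200803241401e611))))) (.br (Nat.shiftLeft (nat_lit 0x100000200400900a01) (nat_lit 68)) (.br (Nat.shiftLeft (nat_lit 0x800001) (nat_lit 113)) (.one (nat_lit 0x100000100400900a0102008032414020611)) (.one (nat_lit 0x100000200400900a00f400803241401e611))) (.br (Nat.shiftLeft (nat_lit 0x1000003) (nat_lit 112)) (.one (nat_lit 0x100000200400900a0104008032414020611)) (.br (Nat.shiftLeft (nat_lit 0x100000300400900a01) (nat_lit 68)) (.one (nat_lit 0x100000300400900a00f600803241401e611)) (.one (nat_lit 0x100000300400900a0106008032414020611))))))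
noncomputable def b244 : BT := .node (nat_lit 0xb) (nat_lit 0x54349c24e00041dd000cb64196328b950c003a98000ad601db325ea58c00329d000ac6010020f001b0001500015000150001500015000150000f0000f0000f0000f0) .leaf .leaf
def t243 : k243.all (jb2 57 fl b244) = true := by decide +kernel
noncomputable def k244 : KT := (.br (Nat.shiftLeft (nat_lit 0x300000100400900a01) (nat_lit 68)) (.br (Nat.shiftLeft (nat_lit 0x200000200400900a01) (nat_lit 68)) (.br (Nat.shiftLeft (nat_lit 0x200000100400900a01) (nat_lit 68)) (.br (Nat.shiftLeft (nat_lit 0x1) (nat_lit 137)) (.one (nat_lit 0x100200300400900a00f600803245481e870)) (.one (nat_lit 0x200000100400900a00f200805281401e611))) (.br (Nat.shiftLeft (nat_lit 0x1000001) (nat_lit 113)) (.one (nat_lit 0x200000100400900a0102008052814020611)) (.one (nat_lit 0x200000200400900a00f400805281401e611)))) (.br (Nat.shiftLeft (nat_lit 0x200000300400900a01) (nat_lit 68)) (.br (Nat.shiftLeft (nat_lit 0x2000003) (nat_lit 112)) (.one (nat_lit 0x200000200400900a0104008052814020611)) (.one (nat_lit 0x200000300400900a00f600805281401e611)))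 (.br (Nat.shiftLeft (nat_lit 0x3) (nat_lit 136)) (.one (nat_lit 0x200000300400900a0106008052814020611)) (.one (nat_lit 0x300000100400900a00f2008072c1401e611))))) (.br (Nat.shiftLeft (nat_lit 0x300000300400900a01) (nat_lit 68)) (.br (Nat.shiftLeft (nat_lit 0x300000200400900a01) (nat_lit 68)) (.br (Nat.shiftLeft (nat_lit 0x1800001) (nat_lit 113)) (.one (nat_lit 0x300000100400900a0102008072c14020611)) (.one (nat_lit 0x300000200400900a00f4008072c1401e611))) (.br (Nat.shiftLeft (nat_lit 0x3000003) (nat_lit 112)) (.one (nat_lit 0x300000200400900a0104008072c14020611)) (.one (nat_lit 0x300000300400900a00f6008072c1401e611)))) (.br (Nat.shiftLeft (nat_lit 0x400000100400900a01) (nat_lit 68)) (.br (Nat.shiftLeft (nat_lit 0x1) (nat_lit 138)) (.one (nat_lit 0x300000300400900a0106008072c14020611)) (.one (nat_lit 0x400000100400900a00f200809301401e611))) (.br (Nat.shiftLeft (nat_lit 0x2000001) (nat_lit 113)) (.one (nat_lit 0x400000100400900a0102008093014020611)) (.one (nat_lit 0x400000200400900a00f400809301401e611))))))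
def t244 : k244.all (jb2 57 fl b0) = true := by decide +kernel
noncomputable def k245 : KT := (.br (Nat.shiftLeft (nat_lit 0x400000300400900a01) (nat_lit 68)) (.br (Nat.shiftLeft (nat_lit 0x4000003) (nat_lit 112)) (.one (nat_lit 0x400000200400900a0104008093014020611)) (.one (nat_lit 0x400000300400900a00f600809301401e611))) (.br (Nat.shiftLeft (nat_lit 0x5) (nat_lit 136)) (.one (nat_lit 0x400000300400900a0106008093014020611)) (.br (Nat.shiftLeft (nat_lit 0x500000100400900a01) (nat_lit 68)) (.one (nat_lit 0x500000100400900a00f20080b341401e611)) (.one (nat_lit 0x500000100400900a01020080b3414020611)))))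
def t245 : k245.all (jb2 57 fl b0) = true := by decide +kernel
noncomputable def k246 : KT := (.br (Nat.shiftLeft (nat_lit 0x5000003) (nat_lit 112)) (.br (Nat.shiftLeft (nat_lit 0x500000200400900a01) (nat_lit 68)) (.one (nat_lit 0x500000200400900a00f40080b341401e611)) (.one (nat_lit 0x500000200400900a01040080b3414020611))) (.br (Nat.shiftLeft (nat_lit 0x500000300400900a01) (nat_lit 68)) (.one (nat_lit 0x500000300400900a00f60080b341401e611)) (.one (nat_lit 0x500000300400900a01060080b3414020611))))
def t246 : k246.all (jb2 57 fl b0) = true := by decide +kernel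
noncomputable def k247 : KT := (.br (Nat.shiftLeft (nat_lit 0x600000100400900a01) (nat_lit 68)) (.one (nat_lit 0x600000100400900a00f20080d381401e611)) (.one (nat_lit 0x600000100400900a01020080d3814020611)))
def t247 : k247.all (jb2 57 fl b0) = true := by decide +kernel
noncomputable def k248 : KT := (.br (Nat.shiftLeft (nat_lit 0x600000200400900a01) (nat_lit 68)) (.one (nat_lit 0x600000200400900a00f40080d381401e611)) (.br (Nat.shiftLeft (nat_lit 0x6000003) (nat_lit 112)) (.one (nat_lit 0x600000200400900a01040080d3814020611)) (.one (nat_lit 0x600000300400900a00f60080d381401e611))))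
def t248 : k248.all (jb2 57 fl b0) = true := by decide +kernel
noncomputable def k249 : KT := (.br (Nat.shiftLeft (nat_lit 0x7) (nat_lit 136)) (.one (nat_lit 0x600000300400900a01060080d3814020611)) (.one (nat_lit 0x700000100400900a00f20080f3c1401e611)))
def t249 : k249.all (jb2 57 fl b0) = true := by decide +kernel
noncomputable def k250 : KT := (.br (Nat.shiftLeft (nat_lit 0x3800001) (nat_lit 113)) (.one (nat_lit 0x700000100400900a01020080f3c14020611)) (.br (Nat.shiftLeft (nat_lit 0x700000200400900a01) (nat_lit 68)) (.one (nat_lit 0x700000200400900a00f40080f3c1401e611)) (.one (nat_lit 0x700000200400900a01040080f3c14020611))))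
def t250 : k250.all (jb2 57 fl b0) = true := by decide +kernel
noncomputable def k251 : KT := (.br (Nat.shiftLeft (nat_lit 0x700000300400900a01) (nat_lit 68)) (.one (nat_lit 0x700000300400900a00f60080f3c1401e611)) (.br (Nat.shiftLeft (nat_lit 0x1) (nat_lit 139)) (.one (nat_lit 0x700000300400900a01060080f3c14020611)) (.one (nat_lit 0x800000100400900a00f200811401401e611))))
def t251 : k251.all (jb2 57 fl b0) = true := by decide +kernel
noncomputable def k252 : KT := (.br (Nat.shiftLeft (nat_lit 0x800000200400900a01) (nat_lit 68)) (.br (Nat.shiftLeft (nat_lit 0x4000001) (nat_lit 113)) (.one (nat_lit 0x800000100400900a0102008114014020611)) (.one (nat_lit 0x800000200400900a00f400811401401e611))) (.br (Nat.shiftLeft (nat_lit 0x8000003) (nat_lit 112)) (.one (nat_lit 0x800000200400900a0104008114014020611)) (.one (nat_lit 0x800000300400900a00f600811401401e611))))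
def t252 : k252.all (jb2 57 fl b0) = true := by decide +kernel
noncomputable def k253 : KT := (.br (Nat.shiftLeft (nat_lit 0x900000100400900a01) (nat_lit 68)) (.br (Nat.shiftLeft (nat_lit 0x9) (nat_lit 136)) (.one (nat_lit 0x800000300400900a0106008114014020611)) (.one (nat_lit 0x900000100400900a00f200813441401e611))) (.br (Nat.shiftLeft (nat_lit 0x4800001) (nat_lit 113)) (.one (nat_lit 0x900000100400900a0102008134414020611)) (.br (Nat.shiftLeft (nat_lit 0x900000200400900a01) (nat_lit 68)) (.one (nat_lit 0x900000200400900a00f400813441401e611)) (.one (nat_lit 0x900000200400900a0104008134414020611)))))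
def t253 : k253.all (jb2 57 fl b0) = true := by decide +kernel
noncomputable def k254 : KT := (.br (Nat.shiftLeft (nat_lit 0xa00000300400900a01) (nat_lit 68)) (.br (Nat.shiftLeft (nat_lit 0xa00000100400900a01) (nat_lit 68)) (.br (Nat.shiftLeft (nat_lit 0x900000300400900a01) (nat_lit 68)) (.one (nat_lit 0x900000300400900a00f600813441401e611)) (.br (Nat.shiftLeft (nat_lit 0x5) (nat_lit 137)) (.one (nat_lit 0x900000300400900a0106008134414020611)) (.one (nat_lit 0xa00000100400900a00f200815481401e611)))) (.br (Nat.shiftLeft (nat_lit 0xa00000200400900a01) (nat_lit 68)) (.br (Nat.shiftLeft (nat_lit 0x5000001) (nat_lit 113)) (.one (nat_lit 0xa00000100400900a0102008154814020611)) (.one (nat_lit 0xa00000200400900a00f400815481401e611))) (.br (Nat.shiftLeft (nat_lit 0xa000003) (nat_lit 112)) (.one (nat_lit 0xa00000200400900a0104008154814020611)) (.one (nat_lit 0xa00000300400900a00f600815481401e611))))) (.br (Nat.shiftLeft (nat_lit 0x1000001) (nat_lit 125)) (.br (Nat.shiftLeft (nat_lit 0x800001) (nat_lit 125)) (.br (Nat.shiftLeft (nat_lit 0x1)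 (nat_lit 148)) (.one (nat_lit 0xa00000300400900a0106008154814020611)) (.one (nat_lit 0x100000100200400900a00f402841203441e711))) (.br (Nat.shiftLeft (nat_lit 0x1) (nat_lit 149)) (.one (nat_lit 0x100000200300400900a00f602841205481e711)) (.one (nat_lit 0x200000100200400900a00f404881203441e711)))) (.br (Nat.shiftLeft (nat_lit 0x1800001) (nat_lit 125)) (.br (Nat.shiftLeft (nat_lit 0x3) (nat_lit 148)) (.one (nat_lit 0x200000200300400900a00f604881205481e711)) (.one (nat_lit 0x300000100200400900a00f4068c1203441e711))) (.br (Nat.shiftLeft (nat_lit 0x1) (nat_lit 150)) (.one (nat_lit 0x300000200300400900a00f6068c1205481e711)) (.one (nat_lit 0x400000100200400900a00f408901203441e711))))))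
def t254 : k254.all (jb2 57 fl b0) = true := by decide +kernel
noncomputable def k255 : KT := (.br (Nat.shiftLeft (nat_lit 0x2800001) (nat_lit 125)) (.br (Nat.shiftLeft (nat_lit 0x5) (nat_lit 148)) (.one (nat_lit 0x400000200300400900a00f608901205481e711)) (.one (nat_lit 0x500000100200400900a00f40a941203441e711))) (.br (Nat.shiftLeft (nat_lit 0x3) (nat_lit 149)) (.one (nat_lit 0x500000200300400900a00f60a941205481e711)) (.br (Nat.shiftLeft (nat_lit 0x3000001) (nat_lit 125)) (.one (nat_lit 0x600000100200400900a00f40c981203441e711)) (.one (nat_lit 0x600000200300400900a00f60c981205481e711)))))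
def t255 : k255.all (jb2 57 fl b0) = true := by decide +kernel
noncomputable def k256 : KT := (.br (Nat.shiftLeft (nat_lit 0x9) (nat_lit 148)) (.br (Nat.shiftLeft (nat_lit 0x1) (nat_lit 151)) (.br (Nat.shiftLeft (nat_lit 0x3800001) (nat_lit 125)) (.one (nat_lit 0x700000100200400900a00f40e9c1203441e711)) (.one (nat_lit 0x700000200300400900a00f60e9c1205481e711))) (.br (Nat.shiftLeft (nat_lit 0x4000001) (nat_lit 125)) (.one (nat_lit 0x800000100200400900a00f410a01203441e711)) (.one (nat_lit 0x800000200300400900a00f610a01205481e711)))) (.br (Nat.shiftLeft (nat_lit 0x5) (nat_lit 149)) (.br (Nat.shiftLeft (nat_lit 0x4800001) (nat_lit 125)) (.one (nat_lit 0x900000100200400900a00f412a41203441e711)) (.one (nat_lit 0x900000200300400900a00f612a41205481e711))) (.br (Nat.shiftLeft (nat_lit 0x5000001) (nat_lit 125)) (.one (nat_lit 0xa00000100200400900a00f414a81203441e711)) (.one (nat_lit 0xa00000200300400900a00f614a81205481e711)))))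
def t256 : k256.all (jb2 57 fl b0) = true := by decide +kernel
noncomputable def s13 : KT := (.br (nat_lit 0x500000100400900a01020080b3414020611) (.br (nat_lit 0x600000400900a01000080120d5820511) (.br (nat_lit 0x100300400900a00f600801203441e760) (.br (nat_lit 0x100200400900a0104008012034420760) k236 k237) (.br (nat_lit 0x200300400900a00f600801205481f700) k238 (.br (nat_lit 0x400000400900a0100008012095020511) k239 k240))) (.br (nat_lit 0x800000400900a0100008012116020511) (.br (nat_lit 0x700000400900a01000080120f5c20511) k241 k242) (.br (nat_lit 0x100000300400900a0106008032414020611) k243 (.br (nat_lit 0x400000200400900a00f400809301401e611) k244 k245)))) (.br (nat_lit 0x700000200400900a01040080f3c14020611) (.br (nat_lit 0x600000100400900a01020080d3814020611) (.br (nat_lit 0x500000300400900a01060080b3414020611) k246 k247) (.br (nat_lit 0x600000300400900a00f60080d381401e611) k248 (.br (nat_lit 0x700000100400900a00f20080f3c1401e611) k249 k250))) (.br (nat_lit 0x900000200400900a0104008134414020611) (.br (nat_lit 0x800000100400900a00f200811401401e611)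 k251 (.br (nat_lit 0x800000300400900a00f600811401401e611) k252 k253)) (.br (nat_lit 0x400000100200400900a00f408901203441e711) k254 (.br (nat_lit 0x600000200300400900a00f60c981205481e711) k255 k256)))))
noncomputable def u13 : KT := (.br (Nat.shiftLeft (nat_lit 0x400900a01) (nat_lit 68)) (.one (nat_lit 0x400900a00f000801201401e540)) (.one (nat_lit 0x400900a0100008012014020540)))
def w13 : u13.all (wj 57 s13) = true := by decide +kernel
def o13 : OkW 57 (jb2 57 fl) u13 := .lift s13 _ (.br _ _ _ (.br _ _ _ (.br _ _ _ (.br _ _ _ (.leaf b0 k236 t236) (.leaf b0 k237 t237)) (.br _ _ _ (.leaf b0 k238 t238) (.br _ _ _ (.leaf b0 k239 t239) (.leaf b0 k240 t240)))) (.br _ _ _ (.br _ _ _ (.leaf b0 k241 t241) (.leaf b0 k242 t242)) (.br _ _ _ (.leaf b244 k243 t243) (.br _ _ _ (.leaf b0 k244 t244) (.leaf b0 k245 t245))))) (.br _ _ _ (.br _ _ _ (.br _ _ _ (.leaf b0 k246 t246) (.leaf b0 k247 t247)) (.br _ _ _ (.leaf b0 k248 t248) (.br _ _ _ (.leaf b0 k249 t249) (.leaf b0 k250 t250)))) (.br _ _ _ (.br _ _ _ (.leaf b0 k251 t251) (.br _ _ _ (.leaf b0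 k252 t252) (.leaf b0 k253 t253))) (.br _ _ _ (.leaf b0 k254 t254) (.br _ _ _ (.leaf b0 k255 t255) (.leaf b0 k256 t256)))))) w13
noncomputable def k257 : KT := (.br (Nat.shiftLeft (nat_lit 0x1) (nat_lit 113)) (.br (Nat.shiftLeft (nat_lit 0x400900b) (nat_lit 76)) (.br (Nat.shiftLeft (nat_lit 0x2004805009) (nat_lit 65)) (.one (nat_lit 0x400900a0110008012014023500)) (.one (nat_lit 0x400900a0120008012014025500))) (.br (Nat.shiftLeft (nat_lit 0x1) (nat_lit 112)) (.one (nat_lit 0x400900b00c0008012016019500)) (.br (Nat.shiftLeft (nat_lit 0x802004805009) (nat_lit 65)) (.one (nat_lit 0x100400900a0112008012014023600)) (.one (nat_lit 0x100400900a0122008012014024650))))) (.br (Nat.shiftLeft (nat_lit 0x1802004805009) (nat_lit 65)) (.br (Nat.shiftLeft (nat_lit 0x1002004805009) (nat_lit 65)) (.one (nat_lit 0x200400900a0114008012014023600)) (.br (Nat.shiftLeft (nat_lit 0x3) (nat_lit 112)) (.one (nat_lit 0x200400900a0124008012014025600)) (.one (nat_lit 0x300400900a0116008012014023600)))) (.br (Nat.shiftLeft (nat_lit 0x1) (nat_lit 124)) (.one (nat_lit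 0x300400900a0126008012014025600)) (.br (Nat.shiftLeft (nat_lit 0x800002004805009) (nat_lit 65)) (.one (nat_lit 0x100000400900a0110008012034422511)) (.one (nat_lit 0x100000400900a0120008012034424511))))))
def t257 : k257.all (jb2 57 fl b0) = true := by decide +kernel
noncomputable def k258 : KT := (.one (nat_lit 0x100200400900a0114008012034422760))
def t258 : k258.all (jb2 57 fl b0) = true := by decide +kernel
noncomputable def k259 : KT := (.br (Nat.shiftLeft (nat_lit 0x1003) (nat_lit 112)) (.one (nat_lit 0x100200400900a0124008012034424760)) (.one (nat_lit 0x100300400900a0116008012034422760)))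
def t259 : k259.all (jb2 57 fl b0) = true := by decide +kernel
noncomputable def k260 : KT := (.br (Nat.shiftLeft (nat_lit 0x1000002004805009) (nat_lit 65)) (.br (Nat.shiftLeft (nat_lit 0x1) (nat_lit 125)) (.one (nat_lit 0x100300400900a0126008012034424760)) (.one (nat_lit 0x200000400900a0110008012054822511))) (.br (Nat.shiftLeft (nat_lit 0x1001) (nat_lit 113)) (.one (nat_lit 0x200000400900a0120008012054824511)) (.one (nat_lit 0x200300400900a0116008012054822760))))
def t260 : k260.all (jb2 57 fl b0) = true := by decide +kernel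
noncomputable def k261 : KT := (.br (Nat.shiftLeft (nat_lit 0x1) (nat_lit 126)) (.br (Nat.shiftLeft (nat_lit 0x3) (nat_lit 124)) (.one (nat_lit 0x200300400900a0126008012054824760)) (.br (Nat.shiftLeft (nat_lit 0x1800002004805009) (nat_lit 65)) (.one (nat_lit 0x300000400900a0110008012074c22511)) (.one (nat_lit 0x300000400900a0120008012074c24511)))) (.br (Nat.shiftLeft (nat_lit 0x5) (nat_lit 124)) (.br (Nat.shiftLeft (nat_lit 0x2000002004805009) (nat_lit 65)) (.one (nat_lit 0x400000400900a0110008012095022511)) (.one (nat_lit 0x400000400900a0120008012095024511))) (.br (Nat.shiftLeft (nat_lit 0x2800002004805009) (nat_lit 65)) (.one (nat_lit 0x500000400900a01100080120b5422511)) (.one (nat_lit 0x500000400900a01200080120b5424511)))))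
def t261 : k261.all (jb2 57 fl b0) = true := by decide +kernel
noncomputable def k262 : KT := (.br (Nat.shiftLeft (nat_lit 0x7) (nat_lit 124)) (.br (Nat.shiftLeft (nat_lit 0x3000002004805009) (nat_lit 65)) (.one (nat_lit 0x600000400900a01100080120d5822511)) (.one (nat_lit 0x600000400900a01200080120d5824511))) (.br (Nat.shiftLeft (nat_lit 0x3800002004805009) (nat_lit 65)) (.one (nat_lit 0x700000400900a01100080120f5c22511)) (.br (Nat.shiftLeft (nat_lit 0x1) (nat_lit 127)) (.one (nat_lit 0x700000400900a01200080120f5c24511)) (.one (nat_lit 0x800000400900a0110008012116022511)))))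
def t262 : k262.all (jb2 57 fl b0) = true := by decide +kernel
noncomputable def k263 : KT := (.br (Nat.shiftLeft (nat_lit 0x1000001) (nat_lit 113)) (.br (Nat.shiftLeft (nat_lit 0x1) (nat_lit 136)) (.br (Nat.shiftLeft (nat_lit 0x4800002004805009) (nat_lit 65)) (.br (Nat.shiftLeft (nat_lit 0x9) (nat_lit 124)) (.one (nat_lit 0x800000400900a0120008012116024511)) (.one (nat_lit 0x900000400900a0110008012136422511))) (.br (Nat.shiftLeft (nat_lit 0x5) (nat_lit 125)) (.one (nat_lit 0x900000400900a0120008012136424511)) (.br (Nat.shiftLeft (nat_lit 0x5000002004805009) (nat_lit 65)) (.one (nat_lit 0xa00000400900a0110008012156822511)) (.one (nat_lit 0xa00000400900a0120008012156824511))))) (.br (Nat.shiftLeft (nat_lit 0x1000003) (nat_lit 112)) (.br (Nat.shiftLeft (nat_lit 0x800001) (nat_lit 113)) (.one (nat_lit 0x100000100400900a0112008032414022611)) (.br (Nat.shiftLeft (nat_lit 0x800001002004805009) (nat_lit 65)) (.one (nat_lit 0x100000200400900a0114008032414022611)) (.one (nat_lit 0x100000200400900a0124008032414024611)))) (.br (Nat.shiftLeft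 (nat_lit 0x800001802004805009) (nat_lit 65)) (.one (nat_lit 0x100000300400900a0116008032414022611)) (.br (Nat.shiftLeft (nat_lit 0x1) (nat_lit 137)) (.one (nat_lit 0x100000300400900a0126008032414024611)) (.one (nat_lit 0x200000100400900a0112008052814022611)))))) (.br (Nat.shiftLeft (nat_lit 0x1800001002004805009) (nat_lit 65)) (.br (Nat.shiftLeft (nat_lit 0x1000001802004805009) (nat_lit 65)) (.br (Nat.shiftLeft (nat_lit 0x1000001002004805009) (nat_lit 65)) (.one (nat_lit 0x200000200400900a0114008052814022611)) (.br (Nat.shiftLeft (nat_lit 0x2000003) (nat_lit 112)) (.one (nat_lit 0x200000200400900a0124008052814024611)) (.one (nat_lit 0x200000300400900a0116008052814022611)))) (.br (Nat.shiftLeft (nat_lit 0x3) (nat_lit 136)) (.one (nat_lit 0x200000300400900a0126008052814024611)) (.br (Nat.shiftLeft (nat_lit 0x1800001) (nat_lit 113)) (.one (nat_lit 0x300000100400900a0112008072c14022611)) (.one (nat_lit 0x300000200400900a0114008072c14022611))))) (.br (Nat.shiftLeft (nat_lit 0x1) (nat_lit 138)) (.br (Nat.shiftLeft (nat_lit 0x3000003) (nat_lit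 112)) (.one (nat_lit 0x300000200400900a0124008072c14024611)) (.br (Nat.shiftLeft (nat_lit 0x1800001802004805009) (nat_lit 65)) (.one (nat_lit 0x300000300400900a0116008072c14022611)) (.one (nat_lit 0x300000300400900a0126008072c14024611)))) (.br (Nat.shiftLeft (nat_lit 0x2000001) (nat_lit 113)) (.one (nat_lit 0x400000100400900a0112008093014022611)) (.br (Nat.shiftLeft (nat_lit 0x2000001002004805009) (nat_lit 65)) (.one (nat_lit 0x400000200400900a0114008093014022611)) (.one (nat_lit 0x400000200400900a0124008093014024611)))))))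
def t263 : k263.all (jb2 57 fl b0) = true := by decide +kernel
noncomputable def k264 : KT := (.br (Nat.shiftLeft (nat_lit 0x2800001) (nat_lit 113)) (.br (Nat.shiftLeft (nat_lit 0x2000001802004805009) (nat_lit 65)) (.one (nat_lit 0x400000300400900a0116008093014022611)) (.br (Nat.shiftLeft (nat_lit 0x5) (nat_lit 136)) (.one (nat_lit 0x400000300400900a0126008093014024611)) (.one (nat_lit 0x500000100400900a01120080b3414022611)))) (.br (Nat.shiftLeft (nat_lit 0x5000003) (nat_lit 112)) (.br (Nat.shiftLeft (nat_lit 0x2800001002004805009) (nat_lit 65)) (.one (nat_lit 0x500000200400900a01140080b3414022611)) (.one (nat_lit 0x500000200400900a01240080b3414024611))) (.br (Nat.shiftLeft (nat_lit 0x2800001802004805009) (nat_lit 65)) (.one (nat_lit 0x500000300400900a01160080b3414022611)) (.one (nat_lit 0x500000300400900a01260080b3414024611)))))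
def t264 : k264.all (jb2 57 fl b0) = true := by decide +kernel
noncomputable def k265 : KT := (.br (Nat.shiftLeft (nat_lit 0x6000003) (nat_lit 112)) (.br (Nat.shiftLeft (nat_lit 0x3000001) (nat_lit 113)) (.one (nat_lit 0x600000100400900a01120080d3814022611)) (.br (Nat.shiftLeft (nat_lit 0x3000001002004805009) (nat_lit 65)) (.one (nat_lit 0x600000200400900a01140080d3814022611)) (.one (nat_lit 0x600000200400900a01240080d3814024611)))) (.br (Nat.shiftLeft (nat_lit 0x3000001802004805009) (nat_lit 65)) (.one (nat_lit 0x600000300400900a01160080d3814022611)) (.br (Nat.shiftLeft (nat_lit 0x7) (nat_lit 136)) (.one (nat_lit 0x600000300400900a01260080d3814024611)) (.one (nat_lit 0x700000100400900a01120080f3c14022611)))))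
def t265 : k265.all (jb2 57 fl b0) = true := by decide +kernel
noncomputable def k266 : KT := (.br (Nat.shiftLeft (nat_lit 0x4000001) (nat_lit 113)) (.br (Nat.shiftLeft (nat_lit 0x7000003) (nat_lit 112)) (.br (Nat.shiftLeft (nat_lit 0x3800001002004805009) (nat_lit 65)) (.one (nat_lit 0x700000200400900a01140080f3c14022611)) (.one (nat_lit 0x700000200400900a01240080f3c14024611))) (.br (Nat.shiftLeft (nat_lit 0x3800001802004805009) (nat_lit 65)) (.one (nat_lit 0x700000300400900a01160080f3c14022611)) (.br (Nat.shiftLeft (nat_lit 0x1) (nat_lit 139)) (.one (nat_lit 0x700000300400900a01260080f3c14024611)) (.one (nat_lit 0x800000100400900a0112008114014022611))))) (.br (Nat.shiftLeft (nat_lit 0x8000003) (nat_lit 112)) (.br (Nat.shiftLeft (nat_lit 0x4000001002004805009) (nat_lit 65)) (.one (nat_lit 0x800000200400900a0114008114014022611)) (.one (nat_lit 0x800000200400900a0124008114014024611))) (.br (Nat.shiftLeft (nat_lit 0x4000001802004805009) (nat_lit 65)) (.one (nat_lit 0x800000300400900a0116008114014022611)) (.br (Nat.shiftLeft (nat_lit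 0x9) (nat_lit 136)) (.one (nat_lit 0x800000300400900a0126008114014024611)) (.one (nat_lit 0x900000100400900a0112008134414022611))))))
def t266 : k266.all (jb2 57 fl b0) = true := by decide +kernel
noncomputable def k267 : KT := (.br (Nat.shiftLeft (nat_lit 0x5) (nat_lit 137)) (.br (Nat.shiftLeft (nat_lit 0x9000003) (nat_lit 112)) (.br (Nat.shiftLeft (nat_lit 0x4800001002004805009) (nat_lit 65)) (.one (nat_lit 0x900000200400900a0114008134414022611)) (.one (nat_lit 0x900000200400900a0124008134414024611))) (.br (Nat.shiftLeft (nat_lit 0x4800001802004805009) (nat_lit 65)) (.one (nat_lit 0x900000300400900a0116008134414022611)) (.one (nat_lit 0x900000300400900a0126008134414024611)))) (.br (Nat.shiftLeft (nat_lit 0x5000001002004805009) (nat_lit 65)) (.br (Nat.shiftLeft (nat_lit 0x5000001) (nat_lit 113)) (.one (nat_lit 0xa00000100400900a0112008154814022611)) (.one (nat_lit 0xa00000200400900a0114008154814022611))) (.br (Nat.shiftLeft (nat_lit 0xa000003) (nat_lit 112)) (.one (nat_lit 0xa00000200400900a0124008154814024611)) (.br (Nat.shiftLeft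 (nat_lit 0x5000001802004805009) (nat_lit 65)) (.one (nat_lit 0xa00000300400900a0116008154814022611)) (.one (nat_lit 0xa00000300400900a0126008154814024611))))))
def t267 : k267.all (jb2 57 fl b0) = true := by decide +kernel
noncomputable def s14 : KT := (.br (nat_lit 0x500000400900a01200080120b5424511) (.br (nat_lit 0x100200400900a0114008012034422760) (.br (nat_lit 0x100000400900a0120008012034424511) k257 k258) (.br (nat_lit 0x100300400900a0116008012034422760) k259 (.br (nat_lit 0x200300400900a0116008012054822760) k260 k261))) (.br (nat_lit 0x500000300400900a01260080b3414024611) (.br (nat_lit 0x800000400900a0110008012116022511) k262 (.br (nat_lit 0x400000200400900a0124008093014024611) k263 k264)) (.br (nat_lit 0x700000100400900a01120080f3c14022611) k265 (.br (nat_lit 0x900000100400900a0112008134414022611) k266 k267))))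
noncomputable def u14 : KT := (.br (Nat.shiftLeft (nat_lit 0x2004805009) (nat_lit 65)) (.one (nat_lit 0x400900a0110008012014022540)) (.br (Nat.shiftLeft (nat_lit 0x400900b) (nat_lit 76)) (.one (nat_lit 0x400900a0120008012014024540)) (.one (nat_lit 0x400900b00c0008012016019500))))
def w14 : u14.all (wj 57 s14) = true := by decide +kernel
def o14 : OkW 57 (jb2 57 fl) u14 := .lift s14 _ (.br _ _ _ (.br _ _ _ (.br _ _ _ (.leaf b0 k257 t257) (.leaf b0 k258 t258)) (.br _ _ _ (.leaf b0 k259 t259) (.br _ _ _ (.leaf b0 k260 t260) (.leaf b0 k261 t261)))) (.br _ _ _ (.br _ _ _ (.leaf b0 k262 t262) (.br _ _ _ (.leaf b0 k263 t263) (.leaf b0 k264 t264))) (.br _ _ _ (.leaf b0 k265 t265) (.br _ _ _ (.leaf b0 k266 t266) (.leaf b0 k267 t267))))) w14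
noncomputable def k268 : KT := (.br (Nat.shiftLeft (nat_lit 0x1003) (nat_lit 112)) (.br (Nat.shiftLeft (nat_lit 0x3) (nat_lit 112)) (.br (Nat.shiftLeft (nat_lit 0x1) (nat_lit 112)) (.one (nat_lit 0x400900b00d000801201601b500)) (.br (Nat.shiftLeft (nat_lit 0x1) (nat_lit 113)) (.one (nat_lit 0x100400900b00d200801201601b600)) (.one (nat_lit 0x200400900b00d400801201601b600)))) (.br (Nat.shiftLeft (nat_lit 0x1) (nat_lit 124)) (.one (nat_lit 0x300400900b00d600801201601b600)) (.br (Nat.shiftLeft (nat_lit 0x801) (nat_lit 113)) (.one (nat_lit 0x100000400900b00d000801203641a511)) (.one (nat_lit 0x100200400900b00d400801203641b700))))) (.br (Nat.shiftLeft (nat_lit 0x3) (nat_lit 124)) (.br (Nat.shiftLeft (nat_lit 0x1) (nat_lit 125)) (.one (nat_lit 0x100300400900b00d600801203641b700)) (.br (Nat.shiftLeft (nat_lit 0x1001) (nat_lit 113)) (.one (nat_lit 0x200000400900b00d000801205681a511)) (.one (nat_lit 0x200300400900b00d600801205681b700)))) (.br (Nat.shiftLeft (nat_lit 0x5) (nat_lit 124)) (.br (Nat.shiftLeft (nat_lit 0x1) (nat_lit 126)) (.one (nat_lit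 0x300000400900b00d0008012076c1a511)) (.one (nat_lit 0x400000400900b00d000801209701a511))) (.br (Nat.shiftLeft (nat_lit 0x3) (nat_lit 125)) (.one (nat_lit 0x500000400900b00d00080120b741a511)) (.one (nat_lit 0x600000400900b00d00080120d781a511))))))
noncomputable def b269 : BT := .node (nat_lit 0x1) (nat_lit 0x4c8a64897851549a92f0003a98000a988003a1b000cb702000e300028) .leaf .leaf
def t268 : k268.all (jb2 57 fl b269) = true := by decide +kernel
noncomputable def k269 : KT := (.one (nat_lit 0x700000400900b00d00080120f7c1a511))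
noncomputable def b270 : BT := .node (nat_lit 0x1) (nat_lit 0x54228b92f4003a59000c98410008700028) .leaf .leaf
def t269 : k269.all (jb2 57 fl b270) = true := by decide +kernel
noncomputable def k270 : KT := (.one (nat_lit 0x800000400900b00d000801211801a511))
noncomputable def b271 : BT := .node (nat_lit 0x1) (nat_lit 0x4e8274945c003a1c000cc6010008700028) .leaf .leaf
def t270 : k270.all (jb2 57 fl b271) = true := by decide +kernel
noncomputable def k271 : KT := (.br (Nat.shiftLeft (nat_lit 0x1) (nat_lit 136)) (.br (Nat.shiftLeft (nat_lit 0x5) (nat_lit 125)) (.one (nat_lit 0x900000400900b00d000801213841a511)) (.br (Nat.shiftLeft (nat_lit 0xb) (nat_lit 124)) (.one (nat_lit 0xa00000400900b00d000801215881a511)) (.one (nat_lit 0xb00000400900b00d0008012178c1a511)))) (.br (Nat.shiftLeft (nat_lit 0x800001) (nat_lit 113)) (.one (nat_lit 0x100000100400900b00d200803241601a611)) (.br (Nat.shiftLeft (nat_lit 0x1000003) (nat_lit 112)) (.one (nat_lit 0x100000200400900b00d400803241601a611)) (.one (nat_lit 0x100000300400900b00d600803241601a611)))))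
def t271 : k271.all (jb2 57 fl b0) = true := by decide +kernel
noncomputable def k272 : KT := (.br (Nat.shiftLeft (nat_lit 0x3) (nat_lit 136)) (.br (Nat.shiftLeft (nat_lit 0x1000001) (nat_lit 113)) (.br (Nat.shiftLeft (nat_lit 0x1) (nat_lit 137)) (.one (nat_lit 0x100200300400900b00d600803245681a870)) (.one (nat_lit 0x200000100400900b00d200805281601a611))) (.br (Nat.shiftLeft (nat_lit 0x2000003) (nat_lit 112)) (.one (nat_lit 0x200000200400900b00d400805281601a611)) (.one (nat_lit 0x200000300400900b00d600805281601a611)))) (.br (Nat.shiftLeft (nat_lit 0x3000003) (nat_lit 112)) (.br (Nat.shiftLeft (nat_lit 0x1800001) (nat_lit 113)) (.one (nat_lit 0x300000100400900b00d2008072c1601a611)) (.one (nat_lit 0x300000200400900b00d4008072c1601a611))) (.br (Nat.shiftLeft (nat_lit 0x1) (nat_lit 138)) (.one (nat_lit 0x300000300400900b00d6008072c1601a611)) (.one (nat_lit 0x400000100400900b00d200809301601a611)))))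
def t272 : k272.all (jb2 57 fl b0) = true := by decide +kernel
noncomputable def k273 : KT := (.br (Nat.shiftLeft (nat_lit 0x4000003) (nat_lit 112)) (.one (nat_lit 0x400000200400900b00d400809301601a611)) (.br (Nat.shiftLeft (nat_lit 0x5) (nat_lit 136)) (.one (nat_lit 0x400000300400900b00d600809301601a611)) (.one (nat_lit 0x500000100400900b00d20080b341601a611))))
noncomputable def b274 : BT := .node (nat_lit 0x1) (nat_lit 0x991275a4d40032dd000c96c10008800028) .leaf .leaf
def t273 : k273.all (jb2 57 fl b274) = true := by decide +kernel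
noncomputable def k274 : KT := (.br (Nat.shiftLeft (nat_lit 0x5000003) (nat_lit 112)) (.one (nat_lit 0x500000200400900b00d40080b341601a611)) (.one (nat_lit 0x500000300400900b00d60080b341601a611)))
def t274 : k274.all (jb2 57 fl b0) = true := by decide +kernel
noncomputable def k275 : KT := (.one (nat_lit 0x600000100400900b00d20080d381601a611))
noncomputable def b276 : BT := .node (nat_lit 0x1) (nat_lit 0x6f092f12c923149aa648003260000ab68003a1b0008d602000e300028) .leaf .leaf
def t275 : k275.all (jb2 57 fl b276) = true := by decide +kernel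
noncomputable def k276 : KT := (.br (Nat.shiftLeft (nat_lit 0x6000003) (nat_lit 112)) (.one (nat_lit 0x600000200400900b00d40080d381601a611)) (.one (nat_lit 0x600000300400900b00d60080d381601a611)))
noncomputable def b277 : BT := .node (nat_lit 0x17) (nat_lit 0xdb349a93a5b644bc4c900065b000158e00064c00015ab852c64bc2b900073c00015cb0323125e13ac003a590006c8410035c0035c0035c0035c0035c0035c0035c0035c0035c002a1002a10024100241002410024100241002410024100241002410024100241001e0001e0) .leaf .leaf
def t276 : k276.all (jb2 57 fl b277) = true := by decide +kernel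
noncomputable def k277 : KT := (.one (nat_lit 0x700000100400900b00d20080f3c1601a611))
noncomputable def b278 : BT := .node (nat_lit 0xb) (nat_lit 0x4c892f49d2001d2d00055bc0d1549b93a4003a1c000cb6c1001af001af0014f0014f000f0000f0000f0000f0000f0000f0000f0000f0) .leaf .leaf
def t277 : k277.all (jb2 57 fl b278) = true := by decide +kernel
noncomputable def k278 : KT := (.br (Nat.shiftLeft (nat_lit 0x7000003) (nat_lit 112)) (.one (nat_lit 0x700000200400900b00d40080f3c1601a611)) (.one (nat_lit 0x700000300400900b00d60080f3c1601a611)))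
noncomputable def b279 : BT := .node (nat_lit 0xb) (nat_lit 0x36c93244ea6d936cd26c00598b80155bc00996c00065b016d913aca86de149ba58c003a5d0008e60003a5b000ab642de125e15c80039e00008e601002c6002c6002c6002c60020b0020b0015000150001500015000150000f0) .leaf .leaf
def t278 : k278.all (jb2 57 fl b279) = true := by decide +kernel
noncomputable def k279 : KT := (.one (nat_lit 0x800000100400900b00d200811401601a611))
noncomputable def b280 : BT := .node (nat_lit 0xb) (nat_lit 0x54349b93a4003a98000e86c1de16da24dc003a5a000ab6c1001af001af001af00150001500015000150000f0000f0000f0000f0000f0) .leaf .leaf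
def t279 : k279.all (jb2 57 fl b280) = true := by decide +kernel
noncomputable def k280 : KT := (.br (Nat.shiftLeft (nat_lit 0x8000003) (nat_lit 112)) (.one (nat_lit 0x800000200400900b00d400811401601a611)) (.one (nat_lit 0x800000300400900b00d600811401601a611)))
noncomputable def b281 : BT := .node (nat_lit 0x1) (nat_lit 0x6d913aca86db327424dc003a5d0008e600032da000ab702000e300028) .leaf .leaf
def t280 : k280.all (jb2 57 fl b281) = true := by decide +kernel
noncomputable def k281 : KT := (.br (Nat.shiftLeft (nat_lit 0x4800001) (nat_lit 113)) (.one (nat_lit 0x900000100400900b00d200813441601a611)) (.br (Nat.shiftLeft (nat_lit 0x9000003) (nat_lit 112)) (.one (nat_lit 0x900000200400900b00d400813441601a611)) (.one (nat_lit 0x900000300400900b00d600813441601a611))))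
def t281 : k281.all (jb2 57 fl b0) = true := by decide +kernel
noncomputable def k282 : KT := (.br (Nat.shiftLeft (nat_lit 0x1000001003) (nat_lit 112)) (.br (Nat.shiftLeft (nat_lit 0xb) (nat_lit 136)) (.br (Nat.shiftLeft (nat_lit 0x5000001) (nat_lit 113)) (.one (nat_lit 0xa00000100400900b00d200815481601a611)) (.br (Nat.shiftLeft (nat_lit 0xa000003) (nat_lit 112)) (.one (nat_lit 0xa00000200400900b00d400815481601a611)) (.one (nat_lit 0xa00000300400900b00d600815481601a611)))) (.br (Nat.shiftLeft (nat_lit 0xb000003) (nat_lit 112)) (.br (Nat.shiftLeft (nat_lit 0x5800001) (nat_lit 113)) (.one (nat_lit 0xb00000100400900b00d2008174c1601a611)) (.one (nat_lit 0xb00000200400900b00d4008174c1601a611))) (.br (Nat.shiftLeft (nat_lit 0x1) (nat_lit 148)) (.one (nat_lit 0xb00000300400900b00d6008174c1601a611)) (.one (nat_lit 0x100000100200400900b00d402841203641a711))))) (.br (Nat.shiftLeft (nat_lit 0x1000001) (nat_lit 125)) (.br (Nat.shiftLeft (nat_lit 0x1) (nat_lit 149)) (.br (Nat.shiftLeft (nat_lit 0x800001) (nat_lit 125)) (.one (nat_lit 0x100000100300400900b00d602841203641a711))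 (.one (nat_lit 0x100000200300400900b00d602841205681a711))) (.br (Nat.shiftLeft (nat_lit 0x2000001003) (nat_lit 112)) (.one (nat_lit 0x200000100200400900b00d404881203641a711)) (.one (nat_lit 0x200000100300400900b00d604881203641a711)))) (.br (Nat.shiftLeft (nat_lit 0x3000001003) (nat_lit 112)) (.br (Nat.shiftLeft (nat_lit 0x3) (nat_lit 148)) (.one (nat_lit 0x200000200300400900b00d604881205681a711)) (.one (nat_lit 0x300000100200400900b00d4068c1203641a711))) (.br (Nat.shiftLeft (nat_lit 0x1800001) (nat_lit 125)) (.one (nat_lit 0x300000100300400900b00d6068c1203641a711)) (.one (nat_lit 0x300000200300400900b00d6068c1205681a711))))))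
def t282 : k282.all (jb2 57 fl b0) = true := by decide +kernel
noncomputable def k283 : KT := (.br (Nat.shiftLeft (nat_lit 0x2000001) (nat_lit 125)) (.br (Nat.shiftLeft (nat_lit 0x4000001003) (nat_lit 112)) (.one (nat_lit 0x400000100200400900b00d408901203641a711)) (.one (nat_lit 0x400000100300400900b00d608901203641a711))) (.br (Nat.shiftLeft (nat_lit 0x5) (nat_lit 148)) (.one (nat_lit 0x400000200300400900b00d608901205681a711)) (.one (nat_lit 0x500000100200400900b00d40a941203641a711))))
noncomputable def b284 : BT := .node (nat_lit 0x13) (nat_lit 0x48c4ae4963000ce54002319077852684ea49a92f09d4db227524d4003299000ab7c003a59000ac7400331b000ab6839189465324de14b1946400329e0008d60003299000ac742de149a93a800325b000ac74196325d92dc0032dc000cb601db225e15100039e00008e641004e3004e3004e300482004820036c0036c0036c0036c0036c0036c002b0002500025000250001f000190001900019000190) .leaf .leaf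
def t283 : k283.all (jb2 57 fl b284) = true := by decide +kernel
noncomputable def k284 : KT := (.br (Nat.shiftLeft (nat_lit 0x2800001) (nat_lit 125)) (.one (nat_lit 0x500000100300400900b00d60a941203641a711)) (.one (nat_lit 0x500000200300400900b00d60a941205681a711)))
noncomputable def b285 : BT := .node (nat_lit 0x17) (nat_lit 0x48c497a9634b192e4a320019308004632001d0d800563a16d992f126893427595100032dd000ab64003a1e000ae5c2de16d99511bc251849a80065320015cb800663600154d852314b1b6cc0032d8000ab641db24b194600032d8000ac741004d3004170041700417004170035c0035c0035c002a1002a1002a1002a1002a1002a1002400024000240001e0001e0001e0001e0001e0001e0001e0) .leaf .leaf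
def t284 : k284.all (jb2 57 fl b285) = true := by decide +kernel
noncomputable def k285 : KT := (.br (Nat.shiftLeft (nat_lit 0x6000001003) (nat_lit 112)) (.one (nat_lit 0x600000100200400900b00d40c981203641a711)) (.br (Nat.shiftLeft (nat_lit 0x3000001) (nat_lit 125)) (.one (nat_lit 0x600000100300400900b00d60c981203641a711)) (.one (nat_lit 0x600000200300400900b00d60c981205681a711))))
noncomputable def b286 : BT := .node (nat_lit 0xb) (nat_lit 0x49b13a0a30001d2c80056b40ed912e4a3296327513a4003a1b0008d78003a1c000ac7020020b001ab001ab001ab000f0000f0000f0000f0000f0000f0000f0000f0) .leaf .leaf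
def t285 : k285.all (jb2 57 fl b286) = true := by decide +kernel
noncomputable def k286 : KT := (.br (Nat.shiftLeft (nat_lit 0x7000001003) (nat_lit 112)) (.one (nat_lit 0x700000100200400900b00d40e9c1203641a711)) (.br (Nat.shiftLeft (nat_lit 0x3800001) (nat_lit 125)) (.one (nat_lit 0x700000100300400900b00d60e9c1203641a711)) (.one (nat_lit 0x700000200300400900b00d60e9c1205681a711))))
noncomputable def b287 : BT := .node (nat_lit 0x1) (nat_lit 0xdb225e13ac003a590008c8010008800028) .leaf .leaf
def t286 : k286.all (jb2 57 fl b287) = true := by decide +kernel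
noncomputable def k287 : KT := (.br (Nat.shiftLeft (nat_lit 0x4000001) (nat_lit 125)) (.br (Nat.shiftLeft (nat_lit 0x8000001003) (nat_lit 112)) (.one (nat_lit 0x800000100200400900b00d410a01203641a711)) (.one (nat_lit 0x800000100300400900b00d610a01203641a711))) (.br (Nat.shiftLeft (nat_lit 0x9) (nat_lit 148)) (.one (nat_lit 0x800000200300400900b00d610a01205681a711)) (.br (Nat.shiftLeft (nat_lit 0x9000001003) (nat_lit 112)) (.one (nat_lit 0x900000100200400900b00d412a41203641a711)) (.one (nat_lit 0x900000100300400900b00d612a41203641a711)))))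
noncomputable def b288 : BT := .node (nat_lit 0x1) (nat_lit 0x51725e12e4003a59000ca7010008700028) .leaf .leaf
def t287 : k287.all (jb2 57 fl b288) = true := by decide +kernel
noncomputable def k288 : KT := (.br (Nat.shiftLeft (nat_lit 0x5000001) (nat_lit 125)) (.br (Nat.shiftLeft (nat_lit 0x5) (nat_lit 149)) (.one (nat_lit 0x900000200300400900b00d612a41205681a711)) (.br (Nat.shiftLeft (nat_lit 0xa000001003) (nat_lit 112)) (.one (nat_lit 0xa00000100200400900b00d414a81203641a711)) (.one (nat_lit 0xa00000100300400900b00d614a81203641a711)))) (.br (Nat.shiftLeft (nat_lit 0xb000001003) (nat_lit 112)) (.br (Nat.shiftLeft (nat_lit 0xb) (nat_lit 148)) (.one (nat_lit 0xa00000200300400900b00d614a81205681a711)) (.one (nat_lit 0xb00000100200400900b00d416ac1203641a711))) (.br (Nat.shiftLeft (nat_lit 0x5800001) (nat_lit 125)) (.one (nat_lit 0xb00000100300400900b00d616ac1203641a711)) (.one (nat_lit 0xb00000200300400900b00d616ac1205681a711)))))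
def t288 : k288.all (jb2 57 fl b0) = true := by decide +kernel
noncomputable def s15 : KT := (.br (nat_lit 0x700000100400900b00d20080f3c1601a611) (.br (nat_lit 0x400000100400900b00d200809301601a611) (.br (nat_lit 0x700000400900b00d00080120f7c1a511) (.br (nat_lit 0x600000400900b00d00080120d781a511) k268 k269) (.br (nat_lit 0x800000400900b00d000801211801a511) k270 (.br (nat_lit 0x100000300400900b00d600803241601a611) k271 k272))) (.br (nat_lit 0x500000300400900b00d60080b341601a611) (.br (nat_lit 0x500000100400900b00d20080b341601a611) k273 k274) (.br (nat_lit 0x600000100400900b00d20080d381601a611) k275 (.br (nat_lit 0x600000300400900b00d60080d381601a611) k276 k277)))) (.br (nat_lit 0x300000200300400900b00d6068c1205681a711) (.br (nat_lit 0x800000100400900b00d200811401601a611) (.br (nat_lit 0x700000300400900b00d60080f3c1601a611) k278 k279) (.br (nat_lit 0x800000300400900b00d600811401601a611) k280 (.br (nat_lit 0x900000300400900b00d600813441601a611) k281 k282))) (.br (nat_lit 0x600000200300400900b00d60c981205681a711) (.br (nat_lit 0x500000100200400900b00d40a941203641a711)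 k283 (.br (nat_lit 0x500000200300400900b00d60a941205681a711) k284 k285)) (.br (nat_lit 0x700000200300400900b00d60e9c1205681a711) k286 (.br (nat_lit 0x900000100300400900b00d612a41203641a711) k287 k288)))))
noncomputable def u15 : KT := (.one (nat_lit 0x400900b00d000801201601a540))
def w15 : u15.all (wj 57 s15) = true := by decide +kernel
def o15 : OkW 57 (jb2 57 fl) u15 := .lift s15 _ (.br _ _ _ (.br _ _ _ (.br _ _ _ (.br _ _ _ (.leaf b269 k268 t268) (.leaf b270 k269 t269)) (.br _ _ _ (.leaf b271 k270 t270) (.br _ _ _ (.leaf b0 k271 t271) (.leaf b0 k272 t272)))) (.br _ _ _ (.br _ _ _ (.leaf b274 k273 t273) (.leaf b0 k274 t274)) (.br _ _ _ (.leaf b276 k275 t275) (.br _ _ _ (.leaf b277 k276 t276) (.leaf b278 k277 t277))))) (.br _ _ _ (.br _ _ _ (.br _ _ _ (.leaf b279 k278 t278) (.leaf b280 k279 t279)) (.br _ _ _ (.leaf b281 k280 t280) (.br _ _ _ (.leaf b0 k281 t281) (.leaf b0 k282 t282)))) (.br _ _ _ (.br _ _ _ (.leaf b284 k283 t283) (.br _ _ _ (.leaf b285 k284 t284) (.leaf b286 k285 t285))) (.br _ _ _ (.leaf b287 k286 t286) (.br _ _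 _ (.leaf b288 k287 t287) (.leaf b0 k288 t288)))))) w15
noncomputable def k289 : KT := (.br (Nat.shiftLeft (nat_lit 0x1003) (nat_lit 112)) (.br (Nat.shiftLeft (nat_lit 0x3) (nat_lit 112)) (.br (Nat.shiftLeft (nat_lit 0x1) (nat_lit 112)) (.one (nat_lit 0x400900b00e000801201601d500)) (.br (Nat.shiftLeft (nat_lit 0x1) (nat_lit 113)) (.one (nat_lit 0x100400900b00e200801201601d600)) (.one (nat_lit 0x200400900b00e400801201601d600)))) (.br (Nat.shiftLeft (nat_lit 0x1) (nat_lit 124)) (.one (nat_lit 0x300400900b00e600801201601d600)) (.br (Nat.shiftLeft (nat_lit 0x801) (nat_lit 113)) (.one (nat_lit 0x100000400900b00e000801203641c511)) (.one (nat_lit 0x100200400900b00e400801203641d700))))) (.br (Nat.shiftLeft (nat_lit 0x3) (nat_lit 124)) (.br (Nat.shiftLeft (nat_lit 0x1) (nat_lit 125)) (.one (nat_lit 0x100300400900b00e600801203641d700)) (.br (Nat.shiftLeft (nat_lit 0x1001) (nat_lit 113)) (.one (nat_lit 0x200000400900b00e000801205681c511)) (.one (nat_lit 0x200300400900b00e600801205681d700)))) (.br (Nat.shiftLeft (nat_lit 0x5) (nat_lit 124)) (.br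 (Nat.shiftLeft (nat_lit 0x1) (nat_lit 126)) (.one (nat_lit 0x300000400900b00e0008012076c1c511)) (.one (nat_lit 0x400000400900b00e000801209701c511))) (.br (Nat.shiftLeft (nat_lit 0x3) (nat_lit 125)) (.one (nat_lit 0x500000400900b00e00080120b741c511)) (.one (nat_lit 0x600000400900b00e00080120d781c511))))))
def t289 : k289.all (jb2 57 fl b0) = true := by decide +kernel
noncomputable def k290 : KT := (.br (Nat.shiftLeft (nat_lit 0x1) (nat_lit 127)) (.one (nat_lit 0x700000400900b00e00080120f7c1c511)) (.one (nat_lit 0x800000400900b00e000801211801c511)))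
noncomputable def b291 : BT := .node (nat_lit 0x1) (nat_lit 0x5166da14600049da0008d7010008700028) .leaf .leaf
def t290 : k290.all (jb2 57 fl b291) = true := by decide +kernel
noncomputable def k291 : KT := (.br (Nat.shiftLeft (nat_lit 0x1) (nat_lit 136)) (.br (Nat.shiftLeft (nat_lit 0x5) (nat_lit 125)) (.one (nat_lit 0x900000400900b00e000801213841c511)) (.br (Nat.shiftLeft (nat_lit 0xb) (nat_lit 124)) (.one (nat_lit 0xa00000400900b00e000801215881c511)) (.one (nat_lit 0xb00000400900b00e0008012178c1c511)))) (.br (Nat.shiftLeft (nat_lit 0x800001) (nat_lit 113)) (.one (nat_lit 0x100000100400900b00e200803241601c611)) (.br (Nat.shiftLeft (nat_lit 0x1000003) (nat_lit 112)) (.one (nat_lit 0x100000200400900b00e400803241601c611)) (.one (nat_lit 0x100000300400900b00e600803241601c611)))))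
noncomputable def b292 : BT := .node (nat_lit 0x1) (nat_lit 0x9642751508003a5c000ad5c10008800028) .leaf .leaf
def t291 : k291.all (jb2 57 fl b292) = true := by decide +kernel
noncomputable def k292 : KT := (.br (Nat.shiftLeft (nat_lit 0x1800001) (nat_lit 113)) (.br (Nat.shiftLeft (nat_lit 0x1000001) (nat_lit 113)) (.br (Nat.shiftLeft (nat_lit 0x1) (nat_lit 137)) (.one (nat_lit 0x100200300400900b00e600803245681c870)) (.one (nat_lit 0x200000100400900b00e200805281601c611))) (.br (Nat.shiftLeft (nat_lit 0x2000003) (nat_lit 112)) (.one (nat_lit 0x200000200400900b00e400805281601c611)) (.br (Nat.shiftLeft (nat_lit 0x3) (nat_lit 136)) (.one (nat_lit 0x200000300400900b00e600805281601c611)) (.one (nat_lit 0x300000100400900b00e2008072c1601c611))))) (.br (Nat.shiftLeft (nat_lit 0x1) (nat_lit 138)) (.br (Nat.shiftLeft (nat_lit 0x3000003) (nat_lit 112)) (.one (nat_lit 0x300000200400900b00e4008072c1601c611)) (.one (nat_lit 0x300000300400900b00e6008072c1601c611))) (.br (Nat.shiftLeft (nat_lit 0x2000001) (nat_lit 113)) (.one (nat_lit 0x400000100400900b00e200809301601c611))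 (.br (Nat.shiftLeft (nat_lit 0x4000003) (nat_lit 112)) (.one (nat_lit 0x400000200400900b00e400809301601c611)) (.one (nat_lit 0x400000300400900b00e600809301601c611))))))
def t292 : k292.all (jb2 57 fl b0) = true := by decide +kernel
noncomputable def k293 : KT := (.br (Nat.shiftLeft (nat_lit 0x2800001) (nat_lit 113)) (.one (nat_lit 0x500000100400900b00e20080b341601c611)) (.br (Nat.shiftLeft (nat_lit 0x5000003) (nat_lit 112)) (.one (nat_lit 0x500000200400900b00e40080b341601c611)) (.one (nat_lit 0x500000300400900b00e60080b341601c611))))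
def t293 : k293.all (jb2 57 fl b0) = true := by decide +kernel
noncomputable def k294 : KT := (.br (Nat.shiftLeft (nat_lit 0x3000001) (nat_lit 113)) (.one (nat_lit 0x600000100400900b00e20080d381601c611)) (.one (nat_lit 0x600000200400900b00e40080d381601c611)))
def t294 : k294.all (jb2 57 fl b0) = true := by decide +kernel
noncomputable def k295 : KT := (.br (Nat.shiftLeft (nat_lit 0x7) (nat_lit 136)) (.one (nat_lit 0x600000300400900b00e60080d381601c611)) (.one (nat_lit 0x700000100400900b00e20080f3c1601c611)))
noncomputable def b296 : BT := .node (nat_lit 0x1) (nat_lit 0x54328b92f4003a59000ca7810008700028) .leaf .leaf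
def t295 : k295.all (jb2 57 fl b296) = true := by decide +kernel
noncomputable def k296 : KT := (.br (Nat.shiftLeft (nat_lit 0x7000003) (nat_lit 112)) (.one (nat_lit 0x700000200400900b00e40080f3c1601c611)) (.one (nat_lit 0x700000300400900b00e60080f3c1601c611)))
def t296 : k296.all (jb2 57 fl b0) = true := by decide +kernel
noncomputable def k297 : KT := (.br (Nat.shiftLeft (nat_lit 0x4000001) (nat_lit 113)) (.one (nat_lit 0x800000100400900b00e200811401601c611)) (.br (Nat.shiftLeft (nat_lit 0x8000003) (nat_lit 112)) (.one (nat_lit 0x800000200400900b00e400811401601c611)) (.one (nat_lit 0x800000300400900b00e600811401601c611))))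
def t297 : k297.all (jb2 57 fl b0) = true := by decide +kernel
noncomputable def k298 : KT := (.br (Nat.shiftLeft (nat_lit 0x5) (nat_lit 137)) (.br (Nat.shiftLeft (nat_lit 0x4800001) (nat_lit 113)) (.one (nat_lit 0x900000100400900b00e200813441601c611)) (.br (Nat.shiftLeft (nat_lit 0x9000003) (nat_lit 112)) (.one (nat_lit 0x900000200400900b00e400813441601c611)) (.one (nat_lit 0x900000300400900b00e600813441601c611)))) (.br (Nat.shiftLeft (nat_lit 0x5000001) (nat_lit 113)) (.one (nat_lit 0xa00000100400900b00e200815481601c611)) (.br (Nat.shiftLeft (nat_lit 0xa000003) (nat_lit 112)) (.one (nat_lit 0xa00000200400900b00e400815481601c611)) (.one (nat_lit 0xa00000300400900b00e600815481601c611)))))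
def t298 : k298.all (jb2 57 fl b0) = true := by decide +kernel
noncomputable def k299 : KT := (.br (Nat.shiftLeft (nat_lit 0x1000001) (nat_lit 125)) (.br (Nat.shiftLeft (nat_lit 0x1000001003) (nat_lit 112)) (.br (Nat.shiftLeft (nat_lit 0xb000003) (nat_lit 112)) (.br (Nat.shiftLeft (nat_lit 0x5800001) (nat_lit 113)) (.one (nat_lit 0xb00000100400900b00e2008174c1601c611)) (.one (nat_lit 0xb00000200400900b00e4008174c1601c611))) (.br (Nat.shiftLeft (nat_lit 0x1) (nat_lit 148)) (.one (nat_lit 0xb00000300400900b00e6008174c1601c611)) (.one (nat_lit 0x100000100200400900b00e402841203641c711)))) (.br (Nat.shiftLeft (nat_lit 0x1) (nat_lit 149)) (.br (Nat.shiftLeft (nat_lit 0x800001) (nat_lit 125)) (.one (nat_lit 0x100000100300400900b00e602841203641c711)) (.one (nat_lit 0x100000200300400900b00e602841205681c711))) (.br (Nat.shiftLeft (nat_lit 0x2000001003) (nat_lit 112)) (.one (nat_lit 0x200000100200400900b00e404881203641c711)) (.one (nat_lit 0x200000100300400900b00e604881203641c711))))) (.br (Nat.shiftLeft (nat_lit 0x1) (nat_lit 150)) (.br (Nat.shiftLeft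 (nat_lit 0x3000001003) (nat_lit 112)) (.br (Nat.shiftLeft (nat_lit 0x3) (nat_lit 148)) (.one (nat_lit 0x200000200300400900b00e604881205681c711)) (.one (nat_lit 0x300000100200400900b00e4068c1203641c711))) (.br (Nat.shiftLeft (nat_lit 0x1800001) (nat_lit 125)) (.one (nat_lit 0x300000100300400900b00e6068c1203641c711)) (.one (nat_lit 0x300000200300400900b00e6068c1205681c711)))) (.br (Nat.shiftLeft (nat_lit 0x2000001) (nat_lit 125)) (.br (Nat.shiftLeft (nat_lit 0x4000001003) (nat_lit 112)) (.one (nat_lit 0x400000100200400900b00e408901203641c711)) (.one (nat_lit 0x400000100300400900b00e608901203641c711))) (.br (Nat.shiftLeft (nat_lit 0x5) (nat_lit 148)) (.one (nat_lit 0x400000200300400900b00e608901205681c711)) (.one (nat_lit 0x500000100200400900b00e40a941203641c711))))))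
def t299 : k299.all (jb2 57 fl b0) = true := by decide +kernel
noncomputable def k300 : KT := (.br (Nat.shiftLeft (nat_lit 0x3) (nat_lit 149)) (.br (Nat.shiftLeft (nat_lit 0x2800001) (nat_lit 125)) (.one (nat_lit 0x500000100300400900b00e60a941203641c711)) (.one (nat_lit 0x500000200300400900b00e60a941205681c711))) (.br (Nat.shiftLeft (nat_lit 0x6000001003) (nat_lit 112)) (.one (nat_lit 0x600000100200400900b00e40c981203641c711)) (.one (nat_lit 0x600000100300400900b00e60c981203641c711))))
def t300 : k300.all (jb2 57 fl b0) = true := by decide +kernel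
noncomputable def k301 : KT := (.br (Nat.shiftLeft (nat_lit 0x7000001003) (nat_lit 112)) (.br (Nat.shiftLeft (nat_lit 0x7) (nat_lit 148)) (.one (nat_lit 0x600000200300400900b00e60c981205681c711)) (.one (nat_lit 0x700000100200400900b00e40e9c1203641c711))) (.br (Nat.shiftLeft (nat_lit 0x3800001) (nat_lit 125)) (.one (nat_lit 0x700000100300400900b00e60e9c1203641c711)) (.br (Nat.shiftLeft (nat_lit 0x1) (nat_lit 151)) (.one (nat_lit 0x700000200300400900b00e60e9c1205681c711)) (.one (nat_lit 0x800000100200400900b00e410a01203641c711)))))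
def t301 : k301.all (jb2 57 fl b0) = true := by decide +kernel
noncomputable def k302 : KT := (.br (Nat.shiftLeft (nat_lit 0x5) (nat_lit 149)) (.br (Nat.shiftLeft (nat_lit 0x9) (nat_lit 148)) (.br (Nat.shiftLeft (nat_lit 0x4000001) (nat_lit 125)) (.one (nat_lit 0x800000100300400900b00e610a01203641c711)) (.one (nat_lit 0x800000200300400900b00e610a01205681c711))) (.br (Nat.shiftLeft (nat_lit 0x9000001003) (nat_lit 112)) (.one (nat_lit 0x900000100200400900b00e412a41203641c711)) (.br (Nat.shiftLeft (nat_lit 0x4800001) (nat_lit 125)) (.one (nat_lit 0x900000100300400900b00e612a41203641c711)) (.one (nat_lit 0x900000200300400900b00e612a41205681c711))))) (.br (Nat.shiftLeft (nat_lit 0xb) (nat_lit 148)) (.br (Nat.shiftLeft (nat_lit 0xa000001003) (nat_lit 112)) (.one (nat_lit 0xa00000100200400900b00e414a81203641c711)) (.br (Nat.shiftLeft (nat_lit 0x5000001) (nat_lit 125)) (.one (nat_lit 0xa00000100300400900b00e614a81203641c711)) (.one (nat_lit 0xa00000200300400900b00e614a81205681c711)))) (.br (Nat.shiftLeft (nat_lit 0xb000001003) (nat_lit 112))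 (.one (nat_lit 0xb00000100200400900b00e416ac1203641c711)) (.br (Nat.shiftLeft (nat_lit 0x5800001) (nat_lit 125)) (.one (nat_lit 0xb00000100300400900b00e616ac1203641c711)) (.one (nat_lit 0xb00000200300400900b00e616ac1205681c711))))))
def t302 : k302.all (jb2 57 fl b0) = true := by decide +kernel
noncomputable def s16 : KT := (.br (nat_lit 0x700000100400900b00e20080f3c1601c611) (.br (nat_lit 0x100000300400900b00e600803241601c611) (.br (nat_lit 0x600000400900b00e00080120d781c511) k289 (.br (nat_lit 0x800000400900b00e000801211801c511) k290 k291)) (.br (nat_lit 0x500000300400900b00e60080b341601c611) (.br (nat_lit 0x400000300400900b00e600809301601c611) k292 k293) (.br (nat_lit 0x600000200400900b00e40080d381601c611) k294 k295))) (.br (nat_lit 0xa00000300400900b00e600815481601c611) (.br (nat_lit 0x700000300400900b00e60080f3c1601c611) k296 (.br (nat_lit 0x800000300400900b00e600811401601c611) k297 k298)) (.br (nat_lit 0x600000100300400900b00e60c981203641c711) (.br (nat_lit 0x500000100200400900b00e40a941203641c711) k299 k300) (.br (nat_lit 0x800000100200400900b00e410a01203641c711)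 k301 k302))))
noncomputable def u16 : KT := (.one (nat_lit 0x400900b00e000801201601c540))
def w16 : u16.all (wj 57 s16) = true := by decide +kernel
def o16 : OkW 57 (jb2 57 fl) u16 := .lift s16 _ (.br _ _ _ (.br _ _ _ (.br _ _ _ (.leaf b0 k289 t289) (.br _ _ _ (.leaf b291 k290 t290) (.leaf b292 k291 t291))) (.br _ _ _ (.br _ _ _ (.leaf b0 k292 t292) (.leaf b0 k293 t293)) (.br _ _ _ (.leaf b0 k294 t294) (.leaf b296 k295 t295)))) (.br _ _ _ (.br _ _ _ (.leaf b0 k296 t296) (.br _ _ _ (.leaf b0 k297 t297) (.leaf b0 k298 t298))) (.br _ _ _ (.br _ _ _ (.leaf b0 k299 t299) (.leaf b0 k300 t300)) (.br _ _ _ (.leaf b0 k301 t301) (.leaf b0 k302 t302))))) w16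
noncomputable def k303 : KT := (.br (Nat.shiftLeft (nat_lit 0x200400900b011) (nat_lit 64)) (.br (Nat.shiftLeft (nat_lit 0x100400900b01) (nat_lit 68)) (.br (Nat.shiftLeft (nat_lit 0x400900b011) (nat_lit 64)) (.br (Nat.shiftLeft (nat_lit 0x400900b01) (nat_lit 68)) (.one (nat_lit 0x400900b00f000801201601f500)) (.one (nat_lit 0x400900b0100008012016021500))) (.br (Nat.shiftLeft (nat_lit 0x1) (nat_lit 112)) (.one (nat_lit 0x400900b0110008012016023500)) (.one (nat_lit 0x100400900b00f200801201601f600)))) (.br (Nat.shiftLeft (nat_lit 0x1) (nat_lit 113)) (.br (Nat.shiftLeft (nat_lit 0x100400900b011) (nat_lit 64)) (.one (nat_lit 0x100400900b0102008012016021600)) (.one (nat_lit 0x100400900b0112008012016022650))) (.br (Nat.shiftLeft (nat_lit 0x200400900b01) (nat_lit 68)) (.one (nat_lit 0x200400900b00f400801201601f600)) (.one (nat_lit 0x200400900b0104008012016021600))))) (.br (Nat.shiftLeft (nat_lit 0x1) (nat_lit 124)) (.br (Nat.shiftLeft (nat_lit 0x300400900b01) (nat_lit 68)) (.br (Nat.shiftLeft (nat_lit 0x3) (nat_lit 112)) (.one (nat_lit 0x200400900b0114008012016023600))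 (.one (nat_lit 0x300400900b00f600801201601f600))) (.br (Nat.shiftLeft (nat_lit 0x300400900b011) (nat_lit 64)) (.one (nat_lit 0x300400900b0106008012016021600)) (.one (nat_lit 0x300400900b0116008012016023600)))) (.br (Nat.shiftLeft (nat_lit 0x100000400900b011) (nat_lit 64)) (.br (Nat.shiftLeft (nat_lit 0x100000400900b01) (nat_lit 68)) (.one (nat_lit 0x100000400900b00f000801203641e511)) (.one (nat_lit 0x100000400900b0100008012036420511))) (.br (Nat.shiftLeft (nat_lit 0x801) (nat_lit 113)) (.one (nat_lit 0x100000400900b0110008012036422511)) (.one (nat_lit 0x100200400900b00f400801203641f700))))))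
def t303 : k303.all (jb2 57 fl b0) = true := by decide +kernel
noncomputable def k304 : KT := (.one (nat_lit 0x100200400900b0104008012036420760))
def t304 : k304.all (jb2 57 fl b0) = true := by decide +kernel
noncomputable def k305 : KT := (.one (nat_lit 0x100200400900b0114008012036422760))
def t305 : k305.all (jb2 57 fl b0) = true := by decide +kernel
noncomputable def k306 : KT := (.one (nat_lit 0x100300400900b00f600801203641e760))
def t306 : k306.all (jb2 57 fl b0) = true := by decide +kernel
noncomputable def k307 : KT := (.br (Nat.shiftLeft (nat_lit 0x1) (nat_lit 125)) (.br (Nat.shiftLeft (nat_lit 0x100300400900b011) (nat_lit 64)) (.one (nat_lit 0x100300400900b0106008012036420760)) (.one (nat_lit 0x100300400900b0116008012036422760))) (.br (Nat.shiftLeft (nat_lit 0x200000400900b01) (nat_lit 68)) (.one (nat_lit 0x200000400900b00f000801205681e511)) (.br (Nat.shiftLeft (nat_lit 0x200000400900b011) (nat_lit 64)) (.one (nat_lit 0x200000400900b0100008012056820511)) (.one (nat_lit 0x200000400900b0110008012056822511)))))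
def t307 : k307.all (jb2 57 fl b0) = true := by decide +kernel
noncomputable def k308 : KT := (.one (nat_lit 0x200300400900b00f600801205681e760))
def t308 : k308.all (jb2 57 fl b0) = true := by decide +kernel
noncomputable def k309 : KT := (.br (Nat.shiftLeft (nat_lit 0x3) (nat_lit 124)) (.br (Nat.shiftLeft (nat_lit 0x200300400900b011) (nat_lit 64)) (.one (nat_lit 0x200300400900b0106008012056820760)) (.one (nat_lit 0x200300400900b0116008012056822760))) (.br (Nat.shiftLeft (nat_lit 0x300000400900b01) (nat_lit 68)) (.one (nat_lit 0x300000400900b00f0008012076c1e511)) (.br (Nat.shiftLeft (nat_lit 0x300000400900b011) (nat_lit 64)) (.one (nat_lit 0x300000400900b0100008012076c20511)) (.one (nat_lit 0x300000400900b0110008012076c22511)))))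
def t309 : k309.all (jb2 57 fl b0) = true := by decide +kernel
noncomputable def k310 : KT := (.br (Nat.shiftLeft (nat_lit 0x5) (nat_lit 124)) (.br (Nat.shiftLeft (nat_lit 0x400000400900b01) (nat_lit 68)) (.one (nat_lit 0x400000400900b00f000801209701e511)) (.br (Nat.shiftLeft (nat_lit 0x400000400900b011) (nat_lit 64)) (.one (nat_lit 0x400000400900b0100008012097020511)) (.one (nat_lit 0x400000400900b0110008012097022511)))) (.br (Nat.shiftLeft (nat_lit 0x500000400900b01) (nat_lit 68)) (.one (nat_lit 0x500000400900b00f00080120b741e511)) (.br (Nat.shiftLeft (nat_lit 0x500000400900b011) (nat_lit 64)) (.one (nat_lit 0x500000400900b01000080120b7420511)) (.one (nat_lit 0x500000400900b01100080120b7422511)))))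
def t310 : k310.all (jb2 57 fl b0) = true := by decide +kernel
noncomputable def k311 : KT := (.br (Nat.shiftLeft (nat_lit 0x600000400900b01) (nat_lit 68)) (.one (nat_lit 0x600000400900b00f00080120d781e511)) (.br (Nat.shiftLeft (nat_lit 0x600000400900b011) (nat_lit 64)) (.one (nat_lit 0x600000400900b01000080120d7820511)) (.one (nat_lit 0x600000400900b01100080120d7822511))))
def t311 : k311.all (jb2 57 fl b0) = true := by decide +kernel
noncomputable def k312 : KT := (.br (Nat.shiftLeft (nat_lit 0x700000400900b01) (nat_lit 68)) (.one (nat_lit 0x700000400900b00f00080120f7c1e511)) (.br (Nat.shiftLeft (nat_lit 0x700000400900b011) (nat_lit 64)) (.one (nat_lit 0x700000400900b01000080120f7c20511)) (.one (nat_lit 0x700000400900b01100080120f7c22511))))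
def t312 : k312.all (jb2 57 fl b0) = true := by decide +kernel
noncomputable def k313 : KT := (.br (Nat.shiftLeft (nat_lit 0x800000400900b01) (nat_lit 68)) (.one (nat_lit 0x800000400900b00f000801211801e511)) (.br (Nat.shiftLeft (nat_lit 0x800000400900b011) (nat_lit 64)) (.one (nat_lit 0x800000400900b0100008012118020511)) (.one (nat_lit 0x800000400900b0110008012118022511))))
def t313 : k313.all (jb2 57 fl b0) = true := by decide +kernel
noncomputable def k314 : KT := (.br (Nat.shiftLeft (nat_lit 0x5) (nat_lit 125)) (.br (Nat.shiftLeft (nat_lit 0x900000400900b01) (nat_lit 68)) (.one (nat_lit 0x900000400900b00f000801213841e511)) (.br (Nat.shiftLeft (nat_lit 0x900000400900b011) (nat_lit 64)) (.one (nat_lit 0x900000400900b0100008012138420511)) (.one (nat_lit 0x900000400900b0110008012138422511)))) (.br (Nat.shiftLeft (nat_lit 0xa00000400900b011) (nat_lit 64)) (.br (Nat.shiftLeft (nat_lit 0xa00000400900b01) (nat_lit 68)) (.one (nat_lit 0xa00000400900b00f000801215881e511)) (.one (nat_lit 0xa00000400900b0100008012158820511))) (.br (Nat.shiftLeft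 (nat_lit 0xb) (nat_lit 124)) (.one (nat_lit 0xa00000400900b0110008012158822511)) (.one (nat_lit 0xb00000400900b00f0008012178c1e511)))))
def t314 : k314.all (jb2 57 fl b0) = true := by decide +kernel
noncomputable def k315 : KT := (.br (Nat.shiftLeft (nat_lit 0x200000300400900b01) (nat_lit 68)) (.br (Nat.shiftLeft (nat_lit 0x100000300400900b01) (nat_lit 68)) (.br (Nat.shiftLeft (nat_lit 0x800001) (nat_lit 113)) (.br (Nat.shiftLeft (nat_lit 0x1) (nat_lit 136)) (.br (Nat.shiftLeft (nat_lit 0xb00000400900b011) (nat_lit 64)) (.one (nat_lit 0xb00000400900b0100008012178c20511)) (.one (nat_lit 0xb00000400900b0110008012178c22511))) (.br (Nat.shiftLeft (nat_lit 0x100000100400900b01) (nat_lit 68)) (.one (nat_lit 0x100000100400900b00f200803241601e611)) (.one (nat_lit 0x100000100400900b0102008032416020611)))) (.br (Nat.shiftLeft (nat_lit 0x100000200400900b011) (nat_lit 64)) (.br (Nat.shiftLeft (nat_lit 0x100000200400900b01) (nat_lit 68)) (.one (nat_lit 0x100000200400900b00f400803241601e611)) (.one (nat_lit 0x100000200400900b0104008032416020611)))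 (.br (Nat.shiftLeft (nat_lit 0x1000003) (nat_lit 112)) (.one (nat_lit 0x100000200400900b0114008032416022611)) (.one (nat_lit 0x100000300400900b00f600803241601e611))))) (.br (Nat.shiftLeft (nat_lit 0x1000001) (nat_lit 113)) (.br (Nat.shiftLeft (nat_lit 0x1) (nat_lit 137)) (.br (Nat.shiftLeft (nat_lit 0x100000300400900b011) (nat_lit 64)) (.one (nat_lit 0x100000300400900b0106008032416020611)) (.one (nat_lit 0x100000300400900b0116008032416022611))) (.br (Nat.shiftLeft (nat_lit 0x200000100400900b01) (nat_lit 68)) (.one (nat_lit 0x200000100400900b00f200805281601e611)) (.one (nat_lit 0x200000100400900b0102008052816020611)))) (.br (Nat.shiftLeft (nat_lit 0x200000200400900b011) (nat_lit 64)) (.br (Nat.shiftLeft (nat_lit 0x200000200400900b01) (nat_lit 68)) (.one (nat_lit 0x200000200400900b00f400805281601e611)) (.one (nat_lit 0x200000200400900b0104008052816020611))) (.br (Nat.shiftLeft (nat_lit 0x2000003) (nat_lit 112)) (.one (nat_lit 0x200000200400900b0114008052816022611)) (.one (nat_lit 0x200000300400900b00f600805281601e611)))))) (.br (Nat.shiftLeft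 (nat_lit 0x300000300400900b01) (nat_lit 68)) (.br (Nat.shiftLeft (nat_lit 0x1800001) (nat_lit 113)) (.br (Nat.shiftLeft (nat_lit 0x3) (nat_lit 136)) (.br (Nat.shiftLeft (nat_lit 0x200000300400900b011) (nat_lit 64)) (.one (nat_lit 0x200000300400900b0106008052816020611)) (.one (nat_lit 0x200000300400900b0116008052816022611))) (.br (Nat.shiftLeft (nat_lit 0x300000100400900b01) (nat_lit 68)) (.one (nat_lit 0x300000100400900b00f2008072c1601e611)) (.one (nat_lit 0x300000100400900b0102008072c16020611)))) (.br (Nat.shiftLeft (nat_lit 0x300000200400900b011) (nat_lit 64)) (.br (Nat.shiftLeft (nat_lit 0x300000200400900b01) (nat_lit 68)) (.one (nat_lit 0x300000200400900b00f4008072c1601e611)) (.one (nat_lit 0x300000200400900b0104008072c16020611))) (.br (Nat.shiftLeft (nat_lit 0x3000003) (nat_lit 112)) (.one (nat_lit 0x300000200400900b0114008072c16022611)) (.one (nat_lit 0x300000300400900b00f6008072c1601e611))))) (.br (Nat.shiftLeft (nat_lit 0x2000001) (nat_lit 113)) (.br (Nat.shiftLeft (nat_lit 0x1) (nat_lit 138)) (.br (Nat.shiftLeft (nat_lit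 0x300000300400900b011) (nat_lit 64)) (.one (nat_lit 0x300000300400900b0106008072c16020611)) (.one (nat_lit 0x300000300400900b0116008072c16022611))) (.br (Nat.shiftLeft (nat_lit 0x400000100400900b01) (nat_lit 68)) (.one (nat_lit 0x400000100400900b00f200809301601e611)) (.one (nat_lit 0x400000100400900b0102008093016020611)))) (.br (Nat.shiftLeft (nat_lit 0x400000200400900b011) (nat_lit 64)) (.br (Nat.shiftLeft (nat_lit 0x400000200400900b01) (nat_lit 68)) (.one (nat_lit 0x400000200400900b00f400809301601e611)) (.one (nat_lit 0x400000200400900b0104008093016020611))) (.br (Nat.shiftLeft (nat_lit 0x4000003) (nat_lit 112)) (.one (nat_lit 0x400000200400900b0114008093016022611)) (.one (nat_lit 0x400000300400900b00f600809301601e611)))))))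
def t315 : k315.all (jb2 57 fl b0) = true := by decide +kernel
noncomputable def k316 : KT := (.br (Nat.shiftLeft (nat_lit 0x5) (nat_lit 136)) (.br (Nat.shiftLeft (nat_lit 0x400000300400900b011) (nat_lit 64)) (.one (nat_lit 0x400000300400900b0106008093016020611)) (.one (nat_lit 0x400000300400900b0116008093016022611))) (.br (Nat.shiftLeft (nat_lit 0x500000100400900b01) (nat_lit 68)) (.one (nat_lit 0x500000100400900b00f20080b341601e611)) (.br (Nat.shiftLeft (nat_lit 0x2800001) (nat_lit 113)) (.one (nat_lit 0x500000100400900b01020080b3416020611)) (.one (nat_lit 0x500000200400900b00f40080b341601e611)))))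
def t316 : k316.all (jb2 57 fl b0) = true := by decide +kernel
noncomputable def k317 : KT := (.br (Nat.shiftLeft (nat_lit 0x5000003) (nat_lit 112)) (.br (Nat.shiftLeft (nat_lit 0x500000200400900b011) (nat_lit 64)) (.one (nat_lit 0x500000200400900b01040080b3416020611)) (.one (nat_lit 0x500000200400900b01140080b3416022611))) (.br (Nat.shiftLeft (nat_lit 0x500000300400900b01) (nat_lit 68)) (.one (nat_lit 0x500000300400900b00f60080b341601e611)) (.br (Nat.shiftLeft (nat_lit 0x500000300400900b011) (nat_lit 64)) (.one (nat_lit 0x500000300400900b01060080b3416020611)) (.one (nat_lit 0x500000300400900b01160080b3416022611)))))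
def t317 : k317.all (jb2 57 fl b0) = true := by decide +kernel
noncomputable def k318 : KT := (.br (Nat.shiftLeft (nat_lit 0x600000100400900b01) (nat_lit 68)) (.one (nat_lit 0x600000100400900b00f20080d381601e611)) (.one (nat_lit 0x600000100400900b01020080d3816020611)))
def t318 : k318.all (jb2 57 fl b0) = true := by decide +kernel
noncomputable def k319 : KT := (.br (Nat.shiftLeft (nat_lit 0x600000200400900b011) (nat_lit 64)) (.br (Nat.shiftLeft (nat_lit 0x600000200400900b01) (nat_lit 68)) (.one (nat_lit 0x600000200400900b00f40080d381601e611)) (.one (nat_lit 0x600000200400900b01040080d3816020611))) (.br (Nat.shiftLeft (nat_lit 0x6000003) (nat_lit 112)) (.one (nat_lit 0x600000200400900b01140080d3816022611)) (.one (nat_lit 0x600000300400900b00f60080d381601e611))))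
def t319 : k319.all (jb2 57 fl b0) = true := by decide +kernel
noncomputable def k320 : KT := (.br (Nat.shiftLeft (nat_lit 0x7) (nat_lit 136)) (.br (Nat.shiftLeft (nat_lit 0x600000300400900b011) (nat_lit 64)) (.one (nat_lit 0x600000300400900b01060080d3816020611)) (.one (nat_lit 0x600000300400900b01160080d3816022611))) (.br (Nat.shiftLeft (nat_lit 0x700000100400900b01) (nat_lit 68)) (.one (nat_lit 0x700000100400900b00f20080f3c1601e611)) (.one (nat_lit 0x700000100400900b01020080f3c16020611))))
def t320 : k320.all (jb2 57 fl b0) = true := by decide +kernel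
noncomputable def k321 : KT := (.br (Nat.shiftLeft (nat_lit 0x7000003) (nat_lit 112)) (.br (Nat.shiftLeft (nat_lit 0x700000200400900b01) (nat_lit 68)) (.one (nat_lit 0x700000200400900b00f40080f3c1601e611)) (.br (Nat.shiftLeft (nat_lit 0x700000200400900b011) (nat_lit 64)) (.one (nat_lit 0x700000200400900b01040080f3c16020611)) (.one (nat_lit 0x700000200400900b01140080f3c16022611)))) (.br (Nat.shiftLeft (nat_lit 0x700000300400900b01) (nat_lit 68)) (.one (nat_lit 0x700000300400900b00f60080f3c1601e611)) (.br (Nat.shiftLeft (nat_lit 0x700000300400900b011) (nat_lit 64)) (.one (nat_lit 0x700000300400900b01060080f3c16020611)) (.one (nat_lit 0x700000300400900b01160080f3c16022611)))))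
def t321 : k321.all (jb2 57 fl b0) = true := by decide +kernel
noncomputable def k322 : KT := (.br (Nat.shiftLeft (nat_lit 0x4000001) (nat_lit 113)) (.br (Nat.shiftLeft (nat_lit 0x800000100400900b01) (nat_lit 68)) (.one (nat_lit 0x800000100400900b00f200811401601e611)) (.one (nat_lit 0x800000100400900b0102008114016020611))) (.br (Nat.shiftLeft (nat_lit 0x800000200400900b01) (nat_lit 68)) (.one (nat_lit 0x800000200400900b00f400811401601e611)) (.br (Nat.shiftLeft (nat_lit 0x800000200400900b011) (nat_lit 64)) (.one (nat_lit 0x800000200400900b0104008114016020611)) (.one (nat_lit 0x800000200400900b0114008114016022611)))))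
def t322 : k322.all (jb2 57 fl b0) = true := by decide +kernel
noncomputable def k323 : KT := (.br (Nat.shiftLeft (nat_lit 0x4800001) (nat_lit 113)) (.br (Nat.shiftLeft (nat_lit 0x800000300400900b011) (nat_lit 64)) (.br (Nat.shiftLeft (nat_lit 0x800000300400900b01) (nat_lit 68)) (.one (nat_lit 0x800000300400900b00f600811401601e611)) (.one (nat_lit 0x800000300400900b0106008114016020611))) (.br (Nat.shiftLeft (nat_lit 0x9) (nat_lit 136)) (.one (nat_lit 0x800000300400900b0116008114016022611)) (.br (Nat.shiftLeft (nat_lit 0x900000100400900b01) (nat_lit 68)) (.one (nat_lit 0x900000100400900b00f200813441601e611)) (.one (nat_lit 0x900000100400900b0102008134416020611))))) (.br (Nat.shiftLeft (nat_lit 0x9000003) (nat_lit 112)) (.br (Nat.shiftLeft (nat_lit 0x900000200400900b01) (nat_lit 68)) (.one (nat_lit 0x900000200400900b00f400813441601e611)) (.br (Nat.shiftLeft (nat_lit 0x900000200400900b011) (nat_lit 64)) (.one (nat_lit 0x900000200400900b0104008134416020611)) (.one (nat_lit 0x900000200400900b0114008134416022611)))) (.br (Nat.shiftLeft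 (nat_lit 0x900000300400900b01) (nat_lit 68)) (.one (nat_lit 0x900000300400900b00f600813441601e611)) (.br (Nat.shiftLeft (nat_lit 0x900000300400900b011) (nat_lit 64)) (.one (nat_lit 0x900000300400900b0106008134416020611)) (.one (nat_lit 0x900000300400900b0116008134416022611))))))
def t323 : k323.all (jb2 57 fl b0) = true := by decide +kernel
noncomputable def k324 : KT := (.br (Nat.shiftLeft (nat_lit 0x5800001) (nat_lit 113)) (.br (Nat.shiftLeft (nat_lit 0xa000003) (nat_lit 112)) (.br (Nat.shiftLeft (nat_lit 0x5000001) (nat_lit 113)) (.br (Nat.shiftLeft (nat_lit 0xa00000100400900b01) (nat_lit 68)) (.one (nat_lit 0xa00000100400900b00f200815481601e611)) (.one (nat_lit 0xa00000100400900b0102008154816020611))) (.br (Nat.shiftLeft (nat_lit 0xa00000200400900b01) (nat_lit 68)) (.one (nat_lit 0xa00000200400900b00f400815481601e611)) (.br (Nat.shiftLeft (nat_lit 0xa00000200400900b011) (nat_lit 64)) (.one (nat_lit 0xa00000200400900b0104008154816020611)) (.one (nat_lit 0xa00000200400900b0114008154816022611))))) (.br (Nat.shiftLeft (nat_lit 0xa00000300400900b011)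 (nat_lit 64)) (.br (Nat.shiftLeft (nat_lit 0xa00000300400900b01) (nat_lit 68)) (.one (nat_lit 0xa00000300400900b00f600815481601e611)) (.one (nat_lit 0xa00000300400900b0106008154816020611))) (.br (Nat.shiftLeft (nat_lit 0xb) (nat_lit 136)) (.one (nat_lit 0xa00000300400900b0116008154816022611)) (.br (Nat.shiftLeft (nat_lit 0xb00000100400900b01) (nat_lit 68)) (.one (nat_lit 0xb00000100400900b00f2008174c1601e611)) (.one (nat_lit 0xb00000100400900b0102008174c16020611)))))) (.br (Nat.shiftLeft (nat_lit 0xb00000300400900b011) (nat_lit 64)) (.br (Nat.shiftLeft (nat_lit 0xb00000200400900b011) (nat_lit 64)) (.br (Nat.shiftLeft (nat_lit 0xb00000200400900b01) (nat_lit 68)) (.one (nat_lit 0xb00000200400900b00f4008174c1601e611)) (.one (nat_lit 0xb00000200400900b0104008174c16020611))) (.br (Nat.shiftLeft (nat_lit 0xb000003) (nat_lit 112)) (.one (nat_lit 0xb00000200400900b0114008174c16022611)) (.br (Nat.shiftLeft (nat_lit 0xb00000300400900b01) (nat_lit 68)) (.one (nat_lit 0xb00000300400900b00f6008174c1601e611)) (.one (nat_lit 0xb00000300400900b0106008174c16020611)))))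 (.br (Nat.shiftLeft (nat_lit 0x1) (nat_lit 149)) (.br (Nat.shiftLeft (nat_lit 0x1) (nat_lit 148)) (.one (nat_lit 0xb00000300400900b0116008174c16022611)) (.one (nat_lit 0x100000100200400900b00f402841203641e711))) (.br (Nat.shiftLeft (nat_lit 0x3) (nat_lit 148)) (.one (nat_lit 0x200000100200400900b00f404881203641e711)) (.br (Nat.shiftLeft (nat_lit 0x1) (nat_lit 150)) (.one (nat_lit 0x300000100200400900b00f4068c1203641e711)) (.one (nat_lit 0x400000100200400900b00f408901203641e711)))))))
def t324 : k324.all (jb2 57 fl b0) = true := by decide +kernel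
noncomputable def k325 : KT := (.br (Nat.shiftLeft (nat_lit 0x1) (nat_lit 151)) (.br (Nat.shiftLeft (nat_lit 0x3) (nat_lit 149)) (.one (nat_lit 0x500000100200400900b00f40a941203641e711)) (.br (Nat.shiftLeft (nat_lit 0x7) (nat_lit 148)) (.one (nat_lit 0x600000100200400900b00f40c981203641e711)) (.one (nat_lit 0x700000100200400900b00f40e9c1203641e711)))) (.br (Nat.shiftLeft (nat_lit 0x5) (nat_lit 149)) (.br (Nat.shiftLeft (nat_lit 0x9) (nat_lit 148)) (.one (nat_lit 0x800000100200400900b00f410a01203641e711)) (.one (nat_lit 0x900000100200400900b00f412a41203641e711))) (.br (Nat.shiftLeft (nat_lit 0xb) (nat_lit 148)) (.one (nat_lit 0xa00000100200400900b00f414a81203641e711)) (.one (nat_lit 0xb00000100200400900b00f416ac1203641e711)))))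
def t325 : k325.all (jb2 57 fl b0) = true := by decide +kernel
noncomputable def s17 : KT := (.br (nat_lit 0x800000400900b0110008012118022511) (.br (nat_lit 0x200000400900b0110008012056822511) (.br (nat_lit 0x100200400900b0104008012036420760) (.br (nat_lit 0x100200400900b00f400801203641f700) k303 k304) (.br (nat_lit 0x100200400900b0114008012036422760) k305 (.br (nat_lit 0x100300400900b00f600801203641e760) k306 k307))) (.br (nat_lit 0x500000400900b01100080120b7422511) (.br (nat_lit 0x200300400900b00f600801205681e760) k308 (.br (nat_lit 0x300000400900b0110008012076c22511) k309 k310)) (.br (nat_lit 0x600000400900b01100080120d7822511) k311 (.br (nat_lit 0x700000400900b01100080120f7c22511) k312 k313)))) (.br (nat_lit 0x600000300400900b00f60080d381601e611) (.br (nat_lit 0x500000200400900b00f40080b341601e611) (.br (nat_lit 0xb00000400900b00f0008012178c1e511) k314 (.br (nat_lit 0x400000300400900b00f600809301601e611) k315 k316)) (.br (nat_lit 0x500000300400900b01160080b3416022611) k317 (.br (nat_lit 0x600000100400900b01020080d3816020611) k318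 k319))) (.br (nat_lit 0x800000200400900b0114008114016022611) (.br (nat_lit 0x700000100400900b01020080f3c16020611) k320 (.br (nat_lit 0x700000300400900b01160080f3c16022611) k321 k322)) (.br (nat_lit 0x900000300400900b0116008134416022611) k323 (.br (nat_lit 0x400000100200400900b00f408901203641e711) k324 k325)))))
noncomputable def u17 : KT := (.br (Nat.shiftLeft (nat_lit 0x400900b01) (nat_lit 68)) (.one (nat_lit 0x400900b00f000801201601e540)) (.br (Nat.shiftLeft (nat_lit 0x400900b011) (nat_lit 64)) (.one (nat_lit 0x400900b0100008012016020540)) (.one (nat_lit 0x400900b0110008012016022540))))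
def w17 : u17.all (wj 57 s17) = true := by decide +kernel
def o17 : OkW 57 (jb2 57 fl) u17 := .lift s17 _ (.br _ _ _ (.br _ _ _ (.br _ _ _ (.br _ _ _ (.leaf b0 k303 t303) (.leaf b0 k304 t304)) (.br _ _ _ (.leaf b0 k305 t305) (.br _ _ _ (.leaf b0 k306 t306) (.leaf b0 k307 t307)))) (.br _ _ _ (.br _ _ _ (.leaf b0 k308 t308) (.br _ _ _ (.leaf b0 k309 t309) (.leaf b0 k310 t310))) (.br _ _ _ (.leaf b0 k311 t311) (.br _ _ _ (.leaf b0 k312 t312) (.leaf b0 k313 t313))))) (.br _ _ _ (.br _ _ _ (.br _ _ _ (.leaf b0 k314 t314) (.br _ _ _ (.leaf b0 k315 t315) (.leaf b0 k316 t316))) (.br _ _ _ (.leaf b0 k317 t317) (.br _ _ _ (.leaf b0 k318 t318) (.leaf b0 k319 t319)))) (.br _ _ _ (.br _ _ _ (.leaf b0 k320 t320) (.br _ _ _ (.leaf b0 k321 t321) (.leaf b0 k322 t322))) (.br _ _ _ (.leaf b0 k323 t323) (.br _ _ _ (.leaf b0 k324 t324) (.leaf b0 k325 t325)))))) w17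
noncomputable def k326 : KT := (.br (Nat.shiftLeft (nat_lit 0x1) (nat_lit 124)) (.br (Nat.shiftLeft (nat_lit 0x1) (nat_lit 113)) (.br (Nat.shiftLeft (nat_lit 0x1) (nat_lit 112)) (.br (Nat.shiftLeft (nat_lit 0x2004806007) (nat_lit 65)) (.one (nat_lit 0x400900c00d000801201801b500)) (.one (nat_lit 0x400900c00e000801201801d500))) (.br (Nat.shiftLeft (nat_lit 0x802004806007) (nat_lit 65)) (.one (nat_lit 0x100400900c00d200801201801b600)) (.one (nat_lit 0x100400900c00e200801201801d600)))) (.br (Nat.shiftLeft (nat_lit 0x3) (nat_lit 112)) (.br (Nat.shiftLeft (nat_lit 0x1002004806007) (nat_lit 65)) (.one (nat_lit 0x200400900c00d400801201801b600)) (.one (nat_lit 0x200400900c00e400801201801d600))) (.br (Nat.shiftLeft (nat_lit 0x1802004806007) (nat_lit 65)) (.one (nat_lit 0x300400900c00d600801201801b600)) (.one (nat_lit 0x300400900c00e600801201801d600))))) (.br (Nat.shiftLeft (nat_lit 0x1003) (nat_lit 112)) (.br (Nat.shiftLeft (nat_lit 0x801) (nat_lit 113)) (.br (Nat.shiftLeft (nat_lit 0x800002004806007) (nat_lit 65)) (.one (nat_lit 0x100000400900c00d000801203841a511))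 (.one (nat_lit 0x100000400900c00e000801203841c511))) (.br (Nat.shiftLeft (nat_lit 0x801002004806007) (nat_lit 65)) (.one (nat_lit 0x100200400900c00d400801203841b700)) (.one (nat_lit 0x100200400900c00e400801203841d700)))) (.br (Nat.shiftLeft (nat_lit 0x1) (nat_lit 125)) (.br (Nat.shiftLeft (nat_lit 0x801802004806007) (nat_lit 65)) (.one (nat_lit 0x100300400900c00d600801203841b700)) (.one (nat_lit 0x100300400900c00e600801203841c760))) (.br (Nat.shiftLeft (nat_lit 0x1000002004806007) (nat_lit 65)) (.one (nat_lit 0x200000400900c00d000801205881a511)) (.br (Nat.shiftLeft (nat_lit 0x1001) (nat_lit 113)) (.one (nat_lit 0x200000400900c00e000801205881c511)) (.one (nat_lit 0x200300400900c00d600801205881b700)))))))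
def t326 : k326.all (jb2 57 fl b0) = true := by decide +kernel
noncomputable def k327 : KT := (.br (Nat.shiftLeft (nat_lit 0x1800002004806007) (nat_lit 65)) (.br (Nat.shiftLeft (nat_lit 0x3) (nat_lit 124)) (.one (nat_lit 0x200300400900c00e600801205881c760)) (.one (nat_lit 0x300000400900c00d0008012078c1a511))) (.br (Nat.shiftLeft (nat_lit 0x1) (nat_lit 126)) (.one (nat_lit 0x300000400900c00e0008012078c1c511)) (.br (Nat.shiftLeft (nat_lit 0x2000002004806007) (nat_lit 65)) (.one (nat_lit 0x400000400900c00d000801209901a511)) (.one (nat_lit 0x400000400900c00e000801209901c511)))))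
def t327 : k327.all (jb2 57 fl b0) = true := by decide +kernel
noncomputable def k328 : KT := (.br (Nat.shiftLeft (nat_lit 0x2800002004806007) (nat_lit 65)) (.one (nat_lit 0x500000400900c00d00080120b941a511)) (.br (Nat.shiftLeft (nat_lit 0x3) (nat_lit 125)) (.one (nat_lit 0x500000400900c00e00080120b941c511)) (.one (nat_lit 0x600000400900c00d00080120d981a511))))
def t328 : k328.all (jb2 57 fl b0) = true := by decide +kernel
noncomputable def k329 : KT := (.br (Nat.shiftLeft (nat_lit 0x7) (nat_lit 124)) (.one (nat_lit 0x600000400900c00e00080120d981c511)) (.one (nat_lit 0x700000400900c00d00080120f9c1a511)))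
def t329 : k329.all (jb2 57 fl b0) = true := by decide +kernel
noncomputable def k330 : KT := (.br (Nat.shiftLeft (nat_lit 0x1) (nat_lit 127)) (.one (nat_lit 0x700000400900c00e00080120f9c1c511)) (.one (nat_lit 0x800000400900c00d000801211a01a511)))
def t330 : k330.all (jb2 57 fl b0) = true := by decide +kernel
noncomputable def k331 : KT := (.br (Nat.shiftLeft (nat_lit 0x9) (nat_lit 124)) (.one (nat_lit 0x800000400900c00e000801211a01c511)) (.br (Nat.shiftLeft (nat_lit 0x4800002004806007) (nat_lit 65)) (.one (nat_lit 0x900000400900c00d000801213a41a511)) (.one (nat_lit 0x900000400900c00e000801213a41c511))))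
def t331 : k331.all (jb2 57 fl b0) = true := by decide +kernel
noncomputable def k332 : KT := (.br (Nat.shiftLeft (nat_lit 0x1) (nat_lit 136)) (.br (Nat.shiftLeft (nat_lit 0x5800002004806007) (nat_lit 65)) (.br (Nat.shiftLeft (nat_lit 0x5000002004806007) (nat_lit 65)) (.one (nat_lit 0xa00000400900c00d000801215a81a511)) (.br (Nat.shiftLeft (nat_lit 0xb) (nat_lit 124)) (.one (nat_lit 0xa00000400900c00e000801215a81c511)) (.one (nat_lit 0xb00000400900c00d000801217ac1a511)))) (.br (Nat.shiftLeft (nat_lit 0x3) (nat_lit 126)) (.one (nat_lit 0xb00000400900c00e000801217ac1c511)) (.br (Nat.shiftLeft (nat_lit 0x6000002004806007) (nat_lit 65)) (.one (nat_lit 0xc00000400900c00d000801219b01a511)) (.one (nat_lit 0xc00000400900c00e000801219b01c511))))) (.br (Nat.shiftLeft (nat_lit 0x800001002004806007) (nat_lit 65)) (.br (Nat.shiftLeft (nat_lit 0x800000802004806007) (nat_lit 65)) (.one (nat_lit 0x100000100400900c00d200803241801a611)) (.br (Nat.shiftLeft (nat_lit 0x800001) (nat_lit 113)) (.one (nat_lit 0x100000100400900c00e200803241801c611)) (.one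 (nat_lit 0x100000200400900c00d400803241801a611)))) (.br (Nat.shiftLeft (nat_lit 0x1000003) (nat_lit 112)) (.one (nat_lit 0x100000200400900c00e400803241801c611)) (.br (Nat.shiftLeft (nat_lit 0x800001802004806007) (nat_lit 65)) (.one (nat_lit 0x100000300400900c00d600803241801a611)) (.one (nat_lit 0x100000300400900c00e600803241801c611))))))
def t332 : k332.all (jb2 57 fl b0) = true := by decide +kernel
noncomputable def k333 : KT := (.br (Nat.shiftLeft (nat_lit 0x1800000802004806007) (nat_lit 65)) (.br (Nat.shiftLeft (nat_lit 0x1000001002004806007) (nat_lit 65)) (.br (Nat.shiftLeft (nat_lit 0x1000000802004806007) (nat_lit 65)) (.br (Nat.shiftLeft (nat_lit 0x1) (nat_lit 137)) (.one (nat_lit 0x100200300400900c00d600803245881a870)) (.one (nat_lit 0x200000100400900c00d200805281801a611))) (.br (Nat.shiftLeft (nat_lit 0x1000001) (nat_lit 113)) (.one (nat_lit 0x200000100400900c00e200805281801c611)) (.one (nat_lit 0x200000200400900c00d400805281801a611)))) (.br (Nat.shiftLeft (nat_lit 0x1000001802004806007) (nat_lit 65)) (.br (Nat.shiftLeft (nat_lit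 0x2000003) (nat_lit 112)) (.one (nat_lit 0x200000200400900c00e400805281801c611)) (.one (nat_lit 0x200000300400900c00d600805281801a611))) (.br (Nat.shiftLeft (nat_lit 0x3) (nat_lit 136)) (.one (nat_lit 0x200000300400900c00e600805281801c611)) (.one (nat_lit 0x300000100400900c00d2008072c1801a611))))) (.br (Nat.shiftLeft (nat_lit 0x1800001802004806007) (nat_lit 65)) (.br (Nat.shiftLeft (nat_lit 0x1800001002004806007) (nat_lit 65)) (.br (Nat.shiftLeft (nat_lit 0x1800001) (nat_lit 113)) (.one (nat_lit 0x300000100400900c00e2008072c1801c611)) (.one (nat_lit 0x300000200400900c00d4008072c1801a611))) (.br (Nat.shiftLeft (nat_lit 0x3000003) (nat_lit 112)) (.one (nat_lit 0x300000200400900c00e4008072c1801c611)) (.one (nat_lit 0x300000300400900c00d6008072c1801a611)))) (.br (Nat.shiftLeft (nat_lit 0x2000000802004806007) (nat_lit 65)) (.br (Nat.shiftLeft (nat_lit 0x1) (nat_lit 138)) (.one (nat_lit 0x300000300400900c00e6008072c1801c611)) (.one (nat_lit 0x400000100400900c00d200809301801a611))) (.br (Nat.shiftLeft (nat_lit 0x2000001) (nat_lit 113)) (.one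 (nat_lit 0x400000100400900c00e200809301801c611)) (.one (nat_lit 0x400000200400900c00d400809301801a611))))))
def t333 : k333.all (jb2 57 fl b0) = true := by decide +kernel
noncomputable def k334 : KT := (.br (Nat.shiftLeft (nat_lit 0x2000001802004806007) (nat_lit 65)) (.br (Nat.shiftLeft (nat_lit 0x4000003) (nat_lit 112)) (.one (nat_lit 0x400000200400900c00e400809301801c611)) (.one (nat_lit 0x400000300400900c00d600809301801a611))) (.br (Nat.shiftLeft (nat_lit 0x5) (nat_lit 136)) (.one (nat_lit 0x400000300400900c00e600809301801c611)) (.br (Nat.shiftLeft (nat_lit 0x2800000802004806007) (nat_lit 65)) (.one (nat_lit 0x500000100400900c00d20080b341801a611)) (.one (nat_lit 0x500000100400900c00e20080b341801c611)))))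
def t334 : k334.all (jb2 57 fl b0) = true := by decide +kernel
noncomputable def k335 : KT := (.br (Nat.shiftLeft (nat_lit 0x5000003) (nat_lit 112)) (.br (Nat.shiftLeft (nat_lit 0x2800001002004806007) (nat_lit 65)) (.one (nat_lit 0x500000200400900c00d40080b341801a611)) (.one (nat_lit 0x500000200400900c00e40080b341801c611))) (.br (Nat.shiftLeft (nat_lit 0x2800001802004806007) (nat_lit 65)) (.one (nat_lit 0x500000300400900c00d60080b341801a611)) (.one (nat_lit 0x500000300400900c00e60080b341801c611))))
def t335 : k335.all (jb2 57 fl b0) = true := by decide +kernel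
noncomputable def k336 : KT := (.br (Nat.shiftLeft (nat_lit 0x3000000802004806007) (nat_lit 65)) (.one (nat_lit 0x600000100400900c00d20080d381801a611)) (.one (nat_lit 0x600000100400900c00e20080d381801c611)))
def t336 : k336.all (jb2 57 fl b0) = true := by decide +kernel
noncomputable def k337 : KT := (.br (Nat.shiftLeft (nat_lit 0x3000001002004806007) (nat_lit 65)) (.one (nat_lit 0x600000200400900c00d40080d381801a611)) (.br (Nat.shiftLeft (nat_lit 0x6000003) (nat_lit 112)) (.one (nat_lit 0x600000200400900c00e40080d381801c611)) (.one (nat_lit 0x600000300400900c00d60080d381801a611))))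
def t337 : k337.all (jb2 57 fl b0) = true := by decide +kernel
noncomputable def k338 : KT := (.br (Nat.shiftLeft (nat_lit 0x7) (nat_lit 136)) (.one (nat_lit 0x600000300400900c00e60080d381801c611)) (.one (nat_lit 0x700000100400900c00d20080f3c1801a611)))
def t338 : k338.all (jb2 57 fl b0) = true := by decide +kernel
noncomputable def k339 : KT := (.br (Nat.shiftLeft (nat_lit 0x3800001) (nat_lit 113)) (.one (nat_lit 0x700000100400900c00e20080f3c1801c611)) (.one (nat_lit 0x700000200400900c00d40080f3c1801a611)))
def t339 : k339.all (jb2 57 fl b0) = true := by decide +kernel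
noncomputable def k340 : KT := (.br (Nat.shiftLeft (nat_lit 0x7000003) (nat_lit 112)) (.one (nat_lit 0x700000200400900c00e40080f3c1801c611)) (.br (Nat.shiftLeft (nat_lit 0x3800001802004806007) (nat_lit 65)) (.one (nat_lit 0x700000300400900c00d60080f3c1801a611)) (.one (nat_lit 0x700000300400900c00e60080f3c1801c611))))
def t340 : k340.all (jb2 57 fl b0) = true := by decide +kernel
noncomputable def k341 : KT := (.br (Nat.shiftLeft (nat_lit 0x4000000802004806007) (nat_lit 65)) (.one (nat_lit 0x800000100400900c00d200811401801a611)) (.one (nat_lit 0x800000100400900c00e200811401801c611)))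
def t341 : k341.all (jb2 57 fl b0) = true := by decide +kernel
noncomputable def k342 : KT := (.br (Nat.shiftLeft (nat_lit 0x8000003) (nat_lit 112)) (.br (Nat.shiftLeft (nat_lit 0x4000001002004806007) (nat_lit 65)) (.one (nat_lit 0x800000200400900c00d400811401801a611)) (.one (nat_lit 0x800000200400900c00e400811401801c611))) (.br (Nat.shiftLeft (nat_lit 0x4000001802004806007) (nat_lit 65)) (.one (nat_lit 0x800000300400900c00d600811401801a611)) (.one (nat_lit 0x800000300400900c00e600811401801c611))))
def t342 : k342.all (jb2 57 fl b0) = true := by decide +kernel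
noncomputable def k343 : KT := (.br (Nat.shiftLeft (nat_lit 0x4800001002004806007) (nat_lit 65)) (.br (Nat.shiftLeft (nat_lit 0x4800000802004806007) (nat_lit 65)) (.one (nat_lit 0x900000100400900c00d200813441801a611)) (.br (Nat.shiftLeft (nat_lit 0x4800001) (nat_lit 113)) (.one (nat_lit 0x900000100400900c00e200813441801c611)) (.one (nat_lit 0x900000200400900c00d400813441801a611)))) (.br (Nat.shiftLeft (nat_lit 0x9000003) (nat_lit 112)) (.one (nat_lit 0x900000200400900c00e400813441801c611)) (.br (Nat.shiftLeft (nat_lit 0x4800001802004806007) (nat_lit 65)) (.one (nat_lit 0x900000300400900c00d600813441801a611)) (.one (nat_lit 0x900000300400900c00e600813441801c611)))))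
def t343 : k343.all (jb2 57 fl b0) = true := by decide +kernel
noncomputable def k344 : KT := (.br (Nat.shiftLeft (nat_lit 0x5800000802004806007) (nat_lit 65)) (.br (Nat.shiftLeft (nat_lit 0x5000001002004806007) (nat_lit 65)) (.br (Nat.shiftLeft (nat_lit 0x5000000802004806007) (nat_lit 65)) (.one (nat_lit 0xa00000100400900c00d200815481801a611)) (.br (Nat.shiftLeft (nat_lit 0x5000001) (nat_lit 113)) (.one (nat_lit 0xa00000100400900c00e200815481801c611)) (.one (nat_lit 0xa00000200400900c00d400815481801a611)))) (.br (Nat.shiftLeft (nat_lit 0x5000001802004806007) (nat_lit 65)) (.br (Nat.shiftLeft (nat_lit 0xa000003) (nat_lit 112)) (.one (nat_lit 0xa00000200400900c00e400815481801c611)) (.one (nat_lit 0xa00000300400900c00d600815481801a611))) (.br (Nat.shiftLeft (nat_lit 0xb) (nat_lit 136)) (.one (nat_lit 0xa00000300400900c00e600815481801c611)) (.one (nat_lit 0xb00000100400900c00d2008174c1801a611))))) (.br (Nat.shiftLeft (nat_lit 0x5800001802004806007) (nat_lit 65)) (.br (Nat.shiftLeft (nat_lit 0x5800001002004806007) (nat_lit 65)) (.br (Nat.shiftLeft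 (nat_lit 0x5800001) (nat_lit 113)) (.one (nat_lit 0xb00000100400900c00e2008174c1801c611)) (.one (nat_lit 0xb00000200400900c00d4008174c1801a611))) (.br (Nat.shiftLeft (nat_lit 0xb000003) (nat_lit 112)) (.one (nat_lit 0xb00000200400900c00e4008174c1801c611)) (.one (nat_lit 0xb00000300400900c00d6008174c1801a611)))) (.br (Nat.shiftLeft (nat_lit 0x6000000802004806007) (nat_lit 65)) (.br (Nat.shiftLeft (nat_lit 0x3) (nat_lit 138)) (.one (nat_lit 0xb00000300400900c00e6008174c1801c611)) (.one (nat_lit 0xc00000100400900c00d200819501801a611))) (.br (Nat.shiftLeft (nat_lit 0x6000001) (nat_lit 113)) (.one (nat_lit 0xc00000100400900c00e200819501801c611)) (.one (nat_lit 0xc00000200400900c00d400819501801a611))))))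
def t344 : k344.all (jb2 57 fl b0) = true := by decide +kernel
noncomputable def k345 : KT := (.br (Nat.shiftLeft (nat_lit 0x1000001) (nat_lit 125)) (.br (Nat.shiftLeft (nat_lit 0x1000001003) (nat_lit 112)) (.br (Nat.shiftLeft (nat_lit 0x6000001802004806007) (nat_lit 65)) (.br (Nat.shiftLeft (nat_lit 0xc000003) (nat_lit 112)) (.one (nat_lit 0xc00000200400900c00e400819501801c611)) (.one (nat_lit 0xc00000300400900c00d600819501801a611))) (.br (Nat.shiftLeft (nat_lit 0x1) (nat_lit 148)) (.one (nat_lit 0xc00000300400900c00e600819501801c611)) (.br (Nat.shiftLeft (nat_lit 0x800000801002004806007) (nat_lit 65)) (.one (nat_lit 0x100000100200400900c00d402841203841a711)) (.one (nat_lit 0x100000100200400900c00e402841203841c711))))) (.br (Nat.shiftLeft (nat_lit 0x1) (nat_lit 149)) (.br (Nat.shiftLeft (nat_lit 0x800001) (nat_lit 125)) (.one (nat_lit 0x100000100300400900c00d602841203841a711)) (.one (nat_lit 0x100000200300400900c00d602841205881a711))) (.br (Nat.shiftLeft (nat_lit 0x1000000801002004806007) (nat_lit 65)) (.one (nat_lit 0x200000100200400900c00d404881203841a711))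 (.br (Nat.shiftLeft (nat_lit 0x2000001003) (nat_lit 112)) (.one (nat_lit 0x200000100200400900c00e404881203841c711)) (.one (nat_lit 0x200000100300400900c00d604881203841a711)))))) (.br (Nat.shiftLeft (nat_lit 0x1) (nat_lit 150)) (.br (Nat.shiftLeft (nat_lit 0x1800000801002004806007) (nat_lit 65)) (.br (Nat.shiftLeft (nat_lit 0x3) (nat_lit 148)) (.one (nat_lit 0x200000200300400900c00d604881205881a711)) (.one (nat_lit 0x300000100200400900c00d4068c1203841a711))) (.br (Nat.shiftLeft (nat_lit 0x3000001003) (nat_lit 112)) (.one (nat_lit 0x300000100200400900c00e4068c1203841c711)) (.br (Nat.shiftLeft (nat_lit 0x1800001) (nat_lit 125)) (.one (nat_lit 0x300000100300400900c00d6068c1203841a711)) (.one (nat_lit 0x300000200300400900c00d6068c1205881a711))))) (.br (Nat.shiftLeft (nat_lit 0x4000001003) (nat_lit 112)) (.br (Nat.shiftLeft (nat_lit 0x2000000801002004806007) (nat_lit 65)) (.one (nat_lit 0x400000100200400900c00d408901203841a711)) (.one (nat_lit 0x400000100200400900c00e408901203841c711))) (.br (Nat.shiftLeft (nat_lit 0x2000001) (nat_lit 125))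 (.one (nat_lit 0x400000100300400900c00d608901203841a711)) (.br (Nat.shiftLeft (nat_lit 0x5) (nat_lit 148)) (.one (nat_lit 0x400000200300400900c00d608901205881a711)) (.one (nat_lit 0x500000100200400900c00d40a941203841a711)))))))
def t345 : k345.all (jb2 57 fl b0) = true := by decide +kernel
noncomputable def k346 : KT := (.br (Nat.shiftLeft (nat_lit 0x2800001) (nat_lit 125)) (.br (Nat.shiftLeft (nat_lit 0x5000001003) (nat_lit 112)) (.one (nat_lit 0x500000100200400900c00e40a941203841c711)) (.one (nat_lit 0x500000100300400900c00d60a941203841a711))) (.br (Nat.shiftLeft (nat_lit 0x3) (nat_lit 149)) (.one (nat_lit 0x500000200300400900c00d60a941205881a711)) (.one (nat_lit 0x600000100200400900c00d40c981203841a711))))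
def t346 : k346.all (jb2 57 fl b0) = true := by decide +kernel
noncomputable def k347 : KT := (.br (Nat.shiftLeft (nat_lit 0x3000001) (nat_lit 125)) (.br (Nat.shiftLeft (nat_lit 0x6000001003) (nat_lit 112)) (.one (nat_lit 0x600000100200400900c00e40c981203841c711)) (.one (nat_lit 0x600000100300400900c00d60c981203841a711))) (.br (Nat.shiftLeft (nat_lit 0x7) (nat_lit 148)) (.one (nat_lit 0x600000200300400900c00d60c981205881a711)) (.br (Nat.shiftLeft (nat_lit 0x3800000801002004806007) (nat_lit 65)) (.one (nat_lit 0x700000100200400900c00d40e9c1203841a711)) (.one (nat_lit 0x700000100200400900c00e40e9c1203841c711)))))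
def t347 : k347.all (jb2 57 fl b0) = true := by decide +kernel
noncomputable def k348 : KT := (.br (Nat.shiftLeft (nat_lit 0x8000001003) (nat_lit 112)) (.br (Nat.shiftLeft (nat_lit 0x1) (nat_lit 151)) (.br (Nat.shiftLeft (nat_lit 0x3800001) (nat_lit 125)) (.one (nat_lit 0x700000100300400900c00d60e9c1203841a711)) (.one (nat_lit 0x700000200300400900c00d60e9c1205881a711))) (.br (Nat.shiftLeft (nat_lit 0x4000000801002004806007) (nat_lit 65)) (.one (nat_lit 0x800000100200400900c00d410a01203841a711)) (.one (nat_lit 0x800000100200400900c00e410a01203841c711)))) (.br (Nat.shiftLeft (nat_lit 0x9) (nat_lit 148)) (.br (Nat.shiftLeft (nat_lit 0x4000001) (nat_lit 125)) (.one (nat_lit 0x800000100300400900c00d610a01203841a711)) (.one (nat_lit 0x800000200300400900c00d610a01205881a711))) (.br (Nat.shiftLeft (nat_lit 0x4800000801002004806007) (nat_lit 65)) (.one (nat_lit 0x900000100200400900c00d412a41203841a711)) (.one (nat_lit 0x900000100200400900c00e412a41203841c711)))))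
def t348 : k348.all (jb2 57 fl b0) = true := by decide +kernel
noncomputable def k349 : KT := (.br (Nat.shiftLeft (nat_lit 0x5800000801002004806007) (nat_lit 65)) (.br (Nat.shiftLeft (nat_lit 0x5000000801002004806007) (nat_lit 65)) (.br (Nat.shiftLeft (nat_lit 0x4800001) (nat_lit 125)) (.one (nat_lit 0x900000100300400900c00d612a41203841a711)) (.br (Nat.shiftLeft (nat_lit 0x5) (nat_lit 149)) (.one (nat_lit 0x900000200300400900c00d612a41205881a711)) (.one (nat_lit 0xa00000100200400900c00d414a81203841a711)))) (.br (Nat.shiftLeft (nat_lit 0x5000001) (nat_lit 125)) (.br (Nat.shiftLeft (nat_lit 0xa000001003) (nat_lit 112)) (.one (nat_lit 0xa00000100200400900c00e414a81203841c711)) (.one (nat_lit 0xa00000100300400900c00d614a81203841a711))) (.br (Nat.shiftLeft (nat_lit 0xb) (nat_lit 148)) (.one (nat_lit 0xa00000200300400900c00d614a81205881a711)) (.one (nat_lit 0xb00000100200400900c00d416ac1203841a711))))) (.br (Nat.shiftLeft (nat_lit 0x3) (nat_lit 150)) (.br (Nat.shiftLeft (nat_lit 0xb000001003) (nat_lit 112)) (.one (nat_lit 0xb00000100200400900c00e416ac1203841c711))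 (.br (Nat.shiftLeft (nat_lit 0x5800001) (nat_lit 125)) (.one (nat_lit 0xb00000100300400900c00d616ac1203841a711)) (.one (nat_lit 0xb00000200300400900c00d616ac1205881a711)))) (.br (Nat.shiftLeft (nat_lit 0xc000001003) (nat_lit 112)) (.br (Nat.shiftLeft (nat_lit 0x6000000801002004806007) (nat_lit 65)) (.one (nat_lit 0xc00000100200400900c00d418b01203841a711)) (.one (nat_lit 0xc00000100200400900c00e418b01203841c711))) (.br (Nat.shiftLeft (nat_lit 0x6000001) (nat_lit 125)) (.one (nat_lit 0xc00000100300400900c00d618b01203841a711)) (.one (nat_lit 0xc00000200300400900c00d618b01205881a711))))))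
def t349 : k349.all (jb2 57 fl b0) = true := by decide +kernel
noncomputable def s18 : KT := (.br (nat_lit 0x600000300400900c00d60080d381801a611) (.br (nat_lit 0x900000400900c00e000801213a41c511) (.br (nat_lit 0x600000400900c00d00080120d981a511) (.br (nat_lit 0x200300400900c00d600801205881b700) k326 (.br (nat_lit 0x400000400900c00e000801209901c511) k327 k328)) (.br (nat_lit 0x700000400900c00d00080120f9c1a511) k329 (.br (nat_lit 0x800000400900c00d000801211a01a511) k330 k331))) (.br (nat_lit 0x500000100400900c00e20080b341801c611) (.br (nat_lit 0x100000300400900c00e600803241801c611) k332 (.br (nat_lit 0x400000200400900c00d400809301801a611) k333 k334)) (.br (nat_lit 0x500000300400900c00e60080b341801c611) k335 (.br (nat_lit 0x600000100400900c00e20080d381801c611) k336 k337)))) (.br (nat_lit 0x900000300400900c00e600813441801c611) (.br (nat_lit 0x700000300400900c00e60080f3c1801c611) (.br (nat_lit 0x700000100400900c00d20080f3c1801a611) k338 (.br (nat_lit 0x700000200400900c00d40080f3c1801a611) k339 k340)) (.br (nat_lit 0x800000100400900c00e200811401801c611)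 k341 (.br (nat_lit 0x800000300400900c00e600811401801c611) k342 k343))) (.br (nat_lit 0x600000100200400900c00d40c981203841a711) (.br (nat_lit 0xc00000200400900c00d400819501801a611) k344 (.br (nat_lit 0x500000100200400900c00d40a941203841a711) k345 k346)) (.br (nat_lit 0x700000100200400900c00e40e9c1203841c711) k347 (.br (nat_lit 0x900000100200400900c00e412a41203841c711) k348 k349)))))
noncomputable def u18 : KT := (.br (Nat.shiftLeft (nat_lit 0x2004806007) (nat_lit 65)) (.one (nat_lit 0x400900c00d000801201801a540)) (.one (nat_lit 0x400900c00e000801201801c540)))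
def w18 : u18.all (wj 57 s18) = true := by decide +kernel
def o18 : OkW 57 (jb2 57 fl) u18 := .lift s18 _ (.br _ _ _ (.br _ _ _ (.br _ _ _ (.br _ _ _ (.leaf b0 k326 t326) (.br _ _ _ (.leaf b0 k327 t327) (.leaf b0 k328 t328))) (.br _ _ _ (.leaf b0 k329 t329) (.br _ _ _ (.leaf b0 k330 t330) (.leaf b0 k331 t331)))) (.br _ _ _ (.br _ _ _ (.leaf b0 k332 t332) (.br _ _ _ (.leaf b0 k333 t333) (.leaf b0 k334 t334))) (.br _ _ _ (.leaf b0 k335 t335) (.br _ _ _ (.leaf b0 k336 t336) (.leaf b0 k337 t337))))) (.br _ _ _ (.br _ _ _ (.br _ _ _ (.leaf b0 k338 t338) (.br _ _ _ (.leaf b0 k339 t339) (.leaf b0 k340 t340))) (.br _ _ _ (.leaf b0 k341 t341) (.br _ _ _ (.leaf b0 k342 t342) (.leaf b0 k343 t343)))) (.br _ _ _ (.br _ _ _ (.leaf b0 k344 t344) (.br _ _ _ (.leaf b0 k345 t345) (.leaf b0 k346 t346))) (.br _ _ _ (.leaf b0 k347 t347) (.br _ _ _ (.leaf b0 k348 t348) (.leaf b0 k349 t349)))))) w18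
noncomputable def k350 : KT := (.br (Nat.shiftLeft (nat_lit 0x200400900c01) (nat_lit 68)) (.br (Nat.shiftLeft (nat_lit 0x1) (nat_lit 112)) (.br (Nat.shiftLeft (nat_lit 0x400900c01) (nat_lit 68)) (.one (nat_lit 0x400900c00f000801201801f500)) (.br (Nat.shiftLeft (nat_lit 0x400900d) (nat_lit 76)) (.one (nat_lit 0x400900c0100008012018021500)) (.one (nat_lit 0x400900d00e000801201a01d500)))) (.br (Nat.shiftLeft (nat_lit 0x100400900d) (nat_lit 76)) (.br (Nat.shiftLeft (nat_lit 0x100400900c01) (nat_lit 68)) (.one (nat_lit 0x100400900c00f200801201801f600)) (.one (nat_lit 0x100400900c0102008012018020650))) (.br (Nat.shiftLeft (nat_lit 0x1) (nat_lit 113)) (.one (nat_lit 0x100400900d00e200801201a01d600)) (.one (nat_lit 0x200400900c00f400801201801f600))))) (.br (Nat.shiftLeft (nat_lit 0x300400900d) (nat_lit 76)) (.br (Nat.shiftLeft (nat_lit 0x3) (nat_lit 112)) (.br (Nat.shiftLeft (nat_lit 0x200400900d) (nat_lit 76)) (.one (nat_lit 0x200400900c0104008012018021600)) (.one (nat_lit 0x200400900d00e400801201a01d600))) (.br (Nat.shiftLeft (nat_lit 0x300400900c01)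 (nat_lit 68)) (.one (nat_lit 0x300400900c00f600801201801f600)) (.one (nat_lit 0x300400900c0106008012018021600)))) (.br (Nat.shiftLeft (nat_lit 0x100000400900c01) (nat_lit 68)) (.br (Nat.shiftLeft (nat_lit 0x1) (nat_lit 124)) (.one (nat_lit 0x300400900d00e600801201a01d600)) (.one (nat_lit 0x100000400900c00f000801203841e511))) (.br (Nat.shiftLeft (nat_lit 0x100000400900d) (nat_lit 76)) (.one (nat_lit 0x100000400900c0100008012038420511)) (.one (nat_lit 0x100000400900d00e000801203a41c511))))))
def t350 : k350.all (jb2 57 fl b0) = true := by decide +kernel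
noncomputable def k351 : KT := (.one (nat_lit 0x100200400900c00f400801203841e760))
def t351 : k351.all (jb2 57 fl b0) = true := by decide +kernel
noncomputable def k352 : KT := (.one (nat_lit 0x100200400900c0104008012038420760))
def t352 : k352.all (jb2 57 fl b0) = true := by decide +kernel
noncomputable def k353 : KT := (.one (nat_lit 0x100200400900d00e400801203a41c760))
def t353 : k353.all (jb2 57 fl b0) = true := by decide +kernel
noncomputable def k354 : KT := (.br (Nat.shiftLeft (nat_lit 0x100300400900c01) (nat_lit 68)) (.one (nat_lit 0x100300400900c00f600801203841e760)) (.one (nat_lit 0x100300400900c0106008012038420760)))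
def t354 : k354.all (jb2 57 fl b0) = true := by decide +kernel
noncomputable def k355 : KT := (.br (Nat.shiftLeft (nat_lit 0x200000400900c01) (nat_lit 68)) (.br (Nat.shiftLeft (nat_lit 0x1) (nat_lit 125)) (.one (nat_lit 0x100300400900d00e600801203a41c760)) (.one (nat_lit 0x200000400900c00f000801205881e511))) (.br (Nat.shiftLeft (nat_lit 0x200000400900d) (nat_lit 76)) (.one (nat_lit 0x200000400900c0100008012058820511)) (.one (nat_lit 0x200000400900d00e000801205a81c511))))
def t355 : k355.all (jb2 57 fl b0) = true := by decide +kernel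
noncomputable def k356 : KT := (.br (Nat.shiftLeft (nat_lit 0x200300400900c01) (nat_lit 68)) (.one (nat_lit 0x200300400900c00f600801205881e760)) (.one (nat_lit 0x200300400900c0106008012058820760)))
def t356 : k356.all (jb2 57 fl b0) = true := by decide +kernel
noncomputable def k357 : KT := (.br (Nat.shiftLeft (nat_lit 0x1) (nat_lit 126)) (.br (Nat.shiftLeft (nat_lit 0x300000400900c01) (nat_lit 68)) (.br (Nat.shiftLeft (nat_lit 0x3) (nat_lit 124)) (.one (nat_lit 0x200300400900d00e600801205a81c760)) (.one (nat_lit 0x300000400900c00f0008012078c1e511))) (.br (Nat.shiftLeft (nat_lit 0x300000400900d) (nat_lit 76)) (.one (nat_lit 0x300000400900c0100008012078c20511)) (.one (nat_lit 0x300000400900d00e000801207ac1c511)))) (.br (Nat.shiftLeft (nat_lit 0x400000400900d) (nat_lit 76)) (.br (Nat.shiftLeft (nat_lit 0x400000400900c01) (nat_lit 68)) (.one (nat_lit 0x400000400900c00f000801209901e511)) (.one (nat_lit 0x400000400900c0100008012099020511))) (.br (Nat.shiftLeft (nat_lit 0x5) (nat_lit 124)) (.one (nat_lit 0x400000400900d00e000801209b01c511))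 (.one (nat_lit 0x500000400900c00f00080120b941e511)))))
def t357 : k357.all (jb2 57 fl b0) = true := by decide +kernel
noncomputable def k358 : KT := (.br (Nat.shiftLeft (nat_lit 0x3) (nat_lit 125)) (.br (Nat.shiftLeft (nat_lit 0x500000400900d) (nat_lit 76)) (.one (nat_lit 0x500000400900c01000080120b9420511)) (.one (nat_lit 0x500000400900d00e00080120bb41c511))) (.br (Nat.shiftLeft (nat_lit 0x600000400900c01) (nat_lit 68)) (.one (nat_lit 0x600000400900c00f00080120d981e511)) (.br (Nat.shiftLeft (nat_lit 0x600000400900d) (nat_lit 76)) (.one (nat_lit 0x600000400900c01000080120d9820511)) (.one (nat_lit 0x600000400900d00e00080120db81c511)))))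
def t358 : k358.all (jb2 57 fl b0) = true := by decide +kernel
noncomputable def k359 : KT := (.br (Nat.shiftLeft (nat_lit 0x700000400900d) (nat_lit 76)) (.br (Nat.shiftLeft (nat_lit 0x700000400900c01) (nat_lit 68)) (.one (nat_lit 0x700000400900c00f00080120f9c1e511)) (.one (nat_lit 0x700000400900c01000080120f9c20511))) (.br (Nat.shiftLeft (nat_lit 0x1) (nat_lit 127)) (.one (nat_lit 0x700000400900d00e00080120fbc1c511)) (.one (nat_lit 0x800000400900c00f000801211a01e511))))
def t359 : k359.all (jb2 57 fl b0) = true := by decide +kernel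
noncomputable def k360 : KT := (.br (Nat.shiftLeft (nat_lit 0x900000400900c01) (nat_lit 68)) (.br (Nat.shiftLeft (nat_lit 0x800000400900d) (nat_lit 76)) (.one (nat_lit 0x800000400900c010000801211a020511)) (.br (Nat.shiftLeft (nat_lit 0x9) (nat_lit 124)) (.one (nat_lit 0x800000400900d00e000801211c01c511)) (.one (nat_lit 0x900000400900c00f000801213a41e511)))) (.br (Nat.shiftLeft (nat_lit 0x5) (nat_lit 125)) (.br (Nat.shiftLeft (nat_lit 0x900000400900d) (nat_lit 76)) (.one (nat_lit 0x900000400900c010000801213a420511)) (.one (nat_lit 0x900000400900d00e000801213c41c511))) (.br (Nat.shiftLeft (nat_lit 0xa00000400900c01) (nat_lit 68)) (.one (nat_lit 0xa00000400900c00f000801215a81e511)) (.one (nat_lit 0xa00000400900c010000801215a820511)))))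
def t360 : k360.all (jb2 57 fl b0) = true := by decide +kernel
noncomputable def k361 : KT := (.br (Nat.shiftLeft (nat_lit 0x1000001) (nat_lit 113)) (.br (Nat.shiftLeft (nat_lit 0x100000100400900d) (nat_lit 76)) (.br (Nat.shiftLeft (nat_lit 0x3) (nat_lit 126)) (.br (Nat.shiftLeft (nat_lit 0xb00000400900c01) (nat_lit 68)) (.br (Nat.shiftLeft (nat_lit 0xb) (nat_lit 124)) (.one (nat_lit 0xa00000400900d00e000801215c81c511)) (.one (nat_lit 0xb00000400900c00f000801217ac1e511))) (.br (Nat.shiftLeft (nat_lit 0xb00000400900d) (nat_lit 76)) (.one (nat_lit 0xb00000400900c010000801217ac20511)) (.one (nat_lit 0xb00000400900d00e000801217cc1c511)))) (.br (Nat.shiftLeft (nat_lit 0xc00000400900d) (nat_lit 76)) (.br (Nat.shiftLeft (nat_lit 0xc00000400900c01) (nat_lit 68)) (.one (nat_lit 0xc00000400900c00f000801219b01e511)) (.one (nat_lit 0xc00000400900c010000801219b020511))) (.br (Nat.shiftLeft (nat_lit 0xd) (nat_lit 124)) (.one (nat_lit 0xc00000400900d00e000801219d01c511)) (.br (Nat.shiftLeft (nat_lit 0x1) (nat_lit 136)) (.one (nat_lit 0xd00000400900d00e00080121bd41c511))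 (.one (nat_lit 0x100000100400900c00f200803241801e611)))))) (.br (Nat.shiftLeft (nat_lit 0x1000003) (nat_lit 112)) (.br (Nat.shiftLeft (nat_lit 0x100000200400900c01) (nat_lit 68)) (.br (Nat.shiftLeft (nat_lit 0x800001) (nat_lit 113)) (.one (nat_lit 0x100000100400900d00e200803241a01c611)) (.one (nat_lit 0x100000200400900c00f400803241801e611))) (.br (Nat.shiftLeft (nat_lit 0x100000200400900d) (nat_lit 76)) (.one (nat_lit 0x100000200400900c0104008032418020611)) (.one (nat_lit 0x100000200400900d00e400803241a01c611)))) (.br (Nat.shiftLeft (nat_lit 0x100000300400900d) (nat_lit 76)) (.br (Nat.shiftLeft (nat_lit 0x100000300400900c01) (nat_lit 68)) (.one (nat_lit 0x100000300400900c00f600803241801e611)) (.one (nat_lit 0x100000300400900c0106008032418020611))) (.br (Nat.shiftLeft (nat_lit 0x1) (nat_lit 137)) (.one (nat_lit 0x100000300400900d00e600803241a01c611)) (.br (Nat.shiftLeft (nat_lit 0x200000100400900d) (nat_lit 76)) (.one (nat_lit 0x200000100400900c00f200805281801e611)) (.one (nat_lit 0x200000100400900d00e200805281a01c611))))))) (.br (Nat.shiftLeft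 (nat_lit 0x300000200400900c01) (nat_lit 68)) (.br (Nat.shiftLeft (nat_lit 0x200000300400900c01) (nat_lit 68)) (.br (Nat.shiftLeft (nat_lit 0x200000200400900d) (nat_lit 76)) (.br (Nat.shiftLeft (nat_lit 0x200000200400900c01) (nat_lit 68)) (.one (nat_lit 0x200000200400900c00f400805281801e611)) (.one (nat_lit 0x200000200400900c0104008052818020611))) (.br (Nat.shiftLeft (nat_lit 0x2000003) (nat_lit 112)) (.one (nat_lit 0x200000200400900d00e400805281a01c611)) (.one (nat_lit 0x200000300400900c00f600805281801e611)))) (.br (Nat.shiftLeft (nat_lit 0x3) (nat_lit 136)) (.br (Nat.shiftLeft (nat_lit 0x200000300400900d) (nat_lit 76)) (.one (nat_lit 0x200000300400900c0106008052818020611)) (.one (nat_lit 0x200000300400900d00e600805281a01c611))) (.br (Nat.shiftLeft (nat_lit 0x300000100400900d) (nat_lit 76)) (.one (nat_lit 0x300000100400900c00f2008072c1801e611)) (.br (Nat.shiftLeft (nat_lit 0x1800001) (nat_lit 113)) (.one (nat_lit 0x300000100400900d00e2008072c1a01c611)) (.one (nat_lit 0x300000200400900c00f4008072c1801e611)))))) (.br (Nat.shiftLeft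 (nat_lit 0x300000300400900d) (nat_lit 76)) (.br (Nat.shiftLeft (nat_lit 0x3000003) (nat_lit 112)) (.br (Nat.shiftLeft (nat_lit 0x300000200400900d) (nat_lit 76)) (.one (nat_lit 0x300000200400900c0104008072c18020611)) (.one (nat_lit 0x300000200400900d00e4008072c1a01c611))) (.br (Nat.shiftLeft (nat_lit 0x300000300400900c01) (nat_lit 68)) (.one (nat_lit 0x300000300400900c00f6008072c1801e611)) (.one (nat_lit 0x300000300400900c0106008072c18020611)))) (.br (Nat.shiftLeft (nat_lit 0x400000100400900d) (nat_lit 76)) (.br (Nat.shiftLeft (nat_lit 0x1) (nat_lit 138)) (.one (nat_lit 0x300000300400900d00e6008072c1a01c611)) (.one (nat_lit 0x400000100400900c00f200809301801e611))) (.br (Nat.shiftLeft (nat_lit 0x2000001) (nat_lit 113)) (.one (nat_lit 0x400000100400900d00e200809301a01c611)) (.br (Nat.shiftLeft (nat_lit 0x400000200400900c01) (nat_lit 68)) (.one (nat_lit 0x400000200400900c00f400809301801e611)) (.one (nat_lit 0x400000200400900c0104008093018020611))))))))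
def t361 : k361.all (jb2 57 fl b0) = true := by decide +kernel
noncomputable def k362 : KT := (.br (Nat.shiftLeft (nat_lit 0x400000300400900d) (nat_lit 76)) (.br (Nat.shiftLeft (nat_lit 0x4000003) (nat_lit 112)) (.one (nat_lit 0x400000200400900d00e400809301a01c611)) (.br (Nat.shiftLeft (nat_lit 0x400000300400900c01) (nat_lit 68)) (.one (nat_lit 0x400000300400900c00f600809301801e611)) (.one (nat_lit 0x400000300400900c0106008093018020611)))) (.br (Nat.shiftLeft (nat_lit 0x500000100400900d) (nat_lit 76)) (.br (Nat.shiftLeft (nat_lit 0x5) (nat_lit 136)) (.one (nat_lit 0x400000300400900d00e600809301a01c611)) (.one (nat_lit 0x500000100400900c00f20080b341801e611))) (.br (Nat.shiftLeft (nat_lit 0x2800001) (nat_lit 113)) (.one (nat_lit 0x500000100400900d00e20080b341a01c611)) (.one (nat_lit 0x500000200400900c00f40080b341801e611)))))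
def t362 : k362.all (jb2 57 fl b0) = true := by decide +kernel
noncomputable def k363 : KT := (.br (Nat.shiftLeft (nat_lit 0x500000300400900c01) (nat_lit 68)) (.br (Nat.shiftLeft (nat_lit 0x500000200400900d) (nat_lit 76)) (.one (nat_lit 0x500000200400900c01040080b3418020611)) (.br (Nat.shiftLeft (nat_lit 0x5000003) (nat_lit 112)) (.one (nat_lit 0x500000200400900d00e40080b341a01c611)) (.one (nat_lit 0x500000300400900c00f60080b341801e611)))) (.br (Nat.shiftLeft (nat_lit 0x500000300400900d) (nat_lit 76)) (.one (nat_lit 0x500000300400900c01060080b3418020611)) (.br (Nat.shiftLeft (nat_lit 0x3) (nat_lit 137)) (.one (nat_lit 0x500000300400900d00e60080b341a01c611)) (.one (nat_lit 0x600000100400900c00f20080d381801e611)))))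
def t363 : k363.all (jb2 57 fl b0) = true := by decide +kernel
noncomputable def k364 : KT := (.br (Nat.shiftLeft (nat_lit 0x600000200400900c01) (nat_lit 68)) (.br (Nat.shiftLeft (nat_lit 0x3000001) (nat_lit 113)) (.one (nat_lit 0x600000100400900d00e20080d381a01c611)) (.one (nat_lit 0x600000200400900c00f40080d381801e611))) (.br (Nat.shiftLeft (nat_lit 0x600000200400900d) (nat_lit 76)) (.one (nat_lit 0x600000200400900c01040080d3818020611)) (.br (Nat.shiftLeft (nat_lit 0x6000003) (nat_lit 112)) (.one (nat_lit 0x600000200400900d00e40080d381a01c611)) (.one (nat_lit 0x600000300400900c00f60080d381801e611)))))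
def t364 : k364.all (jb2 57 fl b0) = true := by decide +kernel
noncomputable def k365 : KT := (.br (Nat.shiftLeft (nat_lit 0x700000100400900d) (nat_lit 76)) (.br (Nat.shiftLeft (nat_lit 0x600000300400900d) (nat_lit 76)) (.one (nat_lit 0x600000300400900c01060080d3818020611)) (.br (Nat.shiftLeft (nat_lit 0x7) (nat_lit 136)) (.one (nat_lit 0x600000300400900d00e60080d381a01c611)) (.one (nat_lit 0x700000100400900c00f20080f3c1801e611)))) (.br (Nat.shiftLeft (nat_lit 0x3800001) (nat_lit 113)) (.one (nat_lit 0x700000100400900d00e20080f3c1a01c611)) (.br (Nat.shiftLeft (nat_lit 0x700000200400900c01) (nat_lit 68)) (.one (nat_lit 0x700000200400900c00f40080f3c1801e611)) (.one (nat_lit 0x700000200400900c01040080f3c18020611)))))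
def t365 : k365.all (jb2 57 fl b0) = true := by decide +kernel
noncomputable def k366 : KT := (.br (Nat.shiftLeft (nat_lit 0x1) (nat_lit 139)) (.br (Nat.shiftLeft (nat_lit 0x700000300400900c01) (nat_lit 68)) (.br (Nat.shiftLeft (nat_lit 0x7000003) (nat_lit 112)) (.one (nat_lit 0x700000200400900d00e40080f3c1a01c611)) (.one (nat_lit 0x700000300400900c00f60080f3c1801e611))) (.br (Nat.shiftLeft (nat_lit 0x700000300400900d) (nat_lit 76)) (.one (nat_lit 0x700000300400900c01060080f3c18020611)) (.one (nat_lit 0x700000300400900d00e60080f3c1a01c611)))) (.br (Nat.shiftLeft (nat_lit 0x4000001) (nat_lit 113)) (.br (Nat.shiftLeft (nat_lit 0x800000100400900d) (nat_lit 76)) (.one (nat_lit 0x800000100400900c00f200811401801e611)) (.one (nat_lit 0x800000100400900d00e200811401a01c611))) (.br (Nat.shiftLeft (nat_lit 0x800000200400900c01) (nat_lit 68)) (.one (nat_lit 0x800000200400900c00f400811401801e611)) (.one (nat_lit 0x800000200400900c0104008114018020611)))))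
def t366 : k366.all (jb2 57 fl b0) = true := by decide +kernel
noncomputable def k367 : KT := (.br (Nat.shiftLeft (nat_lit 0x900000200400900d) (nat_lit 76)) (.br (Nat.shiftLeft (nat_lit 0x9) (nat_lit 136)) (.br (Nat.shiftLeft (nat_lit 0x800000300400900c01) (nat_lit 68)) (.br (Nat.shiftLeft (nat_lit 0x8000003) (nat_lit 112)) (.one (nat_lit 0x800000200400900d00e400811401a01c611)) (.one (nat_lit 0x800000300400900c00f600811401801e611))) (.br (Nat.shiftLeft (nat_lit 0x800000300400900d) (nat_lit 76)) (.one (nat_lit 0x800000300400900c0106008114018020611)) (.one (nat_lit 0x800000300400900d00e600811401a01c611)))) (.br (Nat.shiftLeft (nat_lit 0x4800001) (nat_lit 113)) (.br (Nat.shiftLeft (nat_lit 0x900000100400900d) (nat_lit 76)) (.one (nat_lit 0x900000100400900c00f200813441801e611)) (.one (nat_lit 0x900000100400900d00e200813441a01c611))) (.br (Nat.shiftLeft (nat_lit 0x900000200400900c01) (nat_lit 68)) (.one (nat_lit 0x900000200400900c00f400813441801e611)) (.one (nat_lit 0x900000200400900c0104008134418020611))))) (.br (Nat.shiftLeft (nat_lit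 0x5) (nat_lit 137)) (.br (Nat.shiftLeft (nat_lit 0x900000300400900c01) (nat_lit 68)) (.br (Nat.shiftLeft (nat_lit 0x9000003) (nat_lit 112)) (.one (nat_lit 0x900000200400900d00e400813441a01c611)) (.one (nat_lit 0x900000300400900c00f600813441801e611))) (.br (Nat.shiftLeft (nat_lit 0x900000300400900d) (nat_lit 76)) (.one (nat_lit 0x900000300400900c0106008134418020611)) (.one (nat_lit 0x900000300400900d00e600813441a01c611)))) (.br (Nat.shiftLeft (nat_lit 0x5000001) (nat_lit 113)) (.br (Nat.shiftLeft (nat_lit 0xa00000100400900d) (nat_lit 76)) (.one (nat_lit 0xa00000100400900c00f200815481801e611)) (.one (nat_lit 0xa00000100400900d00e200815481a01c611))) (.br (Nat.shiftLeft (nat_lit 0xa00000200400900c01) (nat_lit 68)) (.one (nat_lit 0xa00000200400900c00f400815481801e611)) (.one (nat_lit 0xa00000200400900c0104008154818020611))))))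
def t367 : k367.all (jb2 57 fl b0) = true := by decide +kernel
noncomputable def k368 : KT := (.br (Nat.shiftLeft (nat_lit 0xb00000300400900d) (nat_lit 76)) (.br (Nat.shiftLeft (nat_lit 0xb00000100400900d) (nat_lit 76)) (.br (Nat.shiftLeft (nat_lit 0xa00000300400900c01) (nat_lit 68)) (.br (Nat.shiftLeft (nat_lit 0xa000003) (nat_lit 112)) (.one (nat_lit 0xa00000200400900d00e400815481a01c611)) (.one (nat_lit 0xa00000300400900c00f600815481801e611))) (.br (Nat.shiftLeft (nat_lit 0xa00000300400900d) (nat_lit 76)) (.one (nat_lit 0xa00000300400900c0106008154818020611)) (.br (Nat.shiftLeft (nat_lit 0xb) (nat_lit 136)) (.one (nat_lit 0xa00000300400900d00e600815481a01c611)) (.one (nat_lit 0xb00000100400900c00f2008174c1801e611))))) (.br (Nat.shiftLeft (nat_lit 0xb00000200400900d) (nat_lit 76)) (.br (Nat.shiftLeft (nat_lit 0x5800001) (nat_lit 113)) (.one (nat_lit 0xb00000100400900d00e2008174c1a01c611)) (.br (Nat.shiftLeft (nat_lit 0xb00000200400900c01) (nat_lit 68)) (.one (nat_lit 0xb00000200400900c00f4008174c1801e611)) (.one (nat_lit 0xb00000200400900c0104008174c18020611))))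 (.br (Nat.shiftLeft (nat_lit 0xb000003) (nat_lit 112)) (.one (nat_lit 0xb00000200400900d00e4008174c1a01c611)) (.br (Nat.shiftLeft (nat_lit 0xb00000300400900c01) (nat_lit 68)) (.one (nat_lit 0xb00000300400900c00f6008174c1801e611)) (.one (nat_lit 0xb00000300400900c0106008174c18020611)))))) (.br (Nat.shiftLeft (nat_lit 0xc000003) (nat_lit 112)) (.br (Nat.shiftLeft (nat_lit 0x6000001) (nat_lit 113)) (.br (Nat.shiftLeft (nat_lit 0x3) (nat_lit 138)) (.one (nat_lit 0xb00000300400900d00e6008174c1a01c611)) (.br (Nat.shiftLeft (nat_lit 0xc00000100400900d) (nat_lit 76)) (.one (nat_lit 0xc00000100400900c00f200819501801e611)) (.one (nat_lit 0xc00000100400900d00e200819501a01c611)))) (.br (Nat.shiftLeft (nat_lit 0xc00000200400900c01) (nat_lit 68)) (.one (nat_lit 0xc00000200400900c00f400819501801e611)) (.br (Nat.shiftLeft (nat_lit 0xc00000200400900d) (nat_lit 76)) (.one (nat_lit 0xc00000200400900c0104008195018020611)) (.one (nat_lit 0xc00000200400900d00e400819501a01c611))))) (.br (Nat.shiftLeft (nat_lit 0xd) (nat_lit 136)) (.br (Nat.shiftLeft (nat_lit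 0xc00000300400900c01) (nat_lit 68)) (.one (nat_lit 0xc00000300400900c00f600819501801e611)) (.br (Nat.shiftLeft (nat_lit 0xc00000300400900d) (nat_lit 76)) (.one (nat_lit 0xc00000300400900c0106008195018020611)) (.one (nat_lit 0xc00000300400900d00e600819501a01c611)))) (.br (Nat.shiftLeft (nat_lit 0x6800001) (nat_lit 113)) (.one (nat_lit 0xd00000100400900d00e20081b541a01c611)) (.br (Nat.shiftLeft (nat_lit 0xd000003) (nat_lit 112)) (.one (nat_lit 0xd00000200400900d00e40081b541a01c611)) (.one (nat_lit 0xd00000300400900d00e60081b541a01c611)))))))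
def t368 : k368.all (jb2 57 fl b0) = true := by decide +kernel
noncomputable def s19 : KT := (.br (nat_lit 0x600000400900d00e00080120db81c511) (.br (nat_lit 0x100200400900d00e400801203a41c760) (.br (nat_lit 0x100200400900c00f400801203841e760) (.br (nat_lit 0x100000400900d00e000801203a41c511) k350 k351) (.br (nat_lit 0x100200400900c0104008012038420760) k352 k353)) (.br (nat_lit 0x200000400900d00e000801205a81c511) (.br (nat_lit 0x100300400900c0106008012038420760) k354 k355) (.br (nat_lit 0x200300400900c0106008012058820760) k356 (.br (nat_lit 0x500000400900c00f00080120b941e511) k357 k358)))) (.br (nat_lit 0x600000100400900c00f20080d381801e611) (.br (nat_lit 0xa00000400900c010000801215a820511) (.br (nat_lit 0x800000400900c00f000801211a01e511) k359 k360) (.br (nat_lit 0x400000200400900c0104008093018020611) k361 (.br (nat_lit 0x500000200400900c00f40080b341801e611) k362 k363))) (.br (nat_lit 0x700000200400900c01040080f3c18020611) (.br (nat_lit 0x600000300400900c00f60080d381801e611) k364 k365) (.br (nat_lit 0x800000200400900c0104008114018020611)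 k366 (.br (nat_lit 0xa00000200400900c0104008154818020611) k367 k368)))))
noncomputable def u19 : KT := (.br (Nat.shiftLeft (nat_lit 0x400900c01) (nat_lit 68)) (.one (nat_lit 0x400900c00f000801201801e540)) (.br (Nat.shiftLeft (nat_lit 0x400900d) (nat_lit 76)) (.one (nat_lit 0x400900c0100008012018020540)) (.one (nat_lit 0x400900d00e000801201a01c540))))
def w19 : u19.all (wj 57 s19) = true := by decide +kernel
def o19 : OkW 57 (jb2 57 fl) u19 := .lift s19 _ (.br _ _ _ (.br _ _ _ (.br _ _ _ (.br _ _ _ (.leaf b0 k350 t350) (.leaf b0 k351 t351)) (.br _ _ _ (.leaf b0 k352 t352) (.leaf b0 k353 t353))) (.br _ _ _ (.br _ _ _ (.leaf b0 k354 t354) (.leaf b0 k355 t355)) (.br _ _ _ (.leaf b0 k356 t356) (.br _ _ _ (.leaf b0 k357 t357) (.leaf b0 k358 t358))))) (.br _ _ _ (.br _ _ _ (.br _ _ _ (.leaf b0 k359 t359) (.leaf b0 k360 t360)) (.br _ _ _ (.leaf b0 k361 t361) (.br _ _ _ (.leaf b0 k362 t362) (.leaf b0 k363 t363)))) (.br _ _ _ (.br _ _ _ (.leaf b0 k364 t364) (.leaf b0 k365 t365)) (.br _ _ _ (.leaf b0 k366 t366) (.br _ _ _ (.leaf b0 k367 t367)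 (.leaf b0 k368 t368)))))) w19
noncomputable def k : KT := (.br (nat_lit 0x400800c0100008010018020540) (.br (nat_lit 0x400800b00e000801001601c540) (.br (nat_lit 0x400800a00f000801001401e540) (.br (nat_lit 0x400800a00e000801001401d500) u0 u1) (.br (nat_lit 0x400800a0100008010014020540) u2 (.br (nat_lit 0x400800b00d000801001601b500) u3 u4))) (.br (nat_lit 0x400800b0120008010016024540) (.br (nat_lit 0x400800b00f000801001601e540) u5 u6) (.br (nat_lit 0x400800c00d000801001801a540) u7 (.br (nat_lit 0x400800c00e000801001801c540) u8 u9)))) (.br (nat_lit 0x400900b00c0008012016019500) (.br (nat_lit 0x400900a00d000801201401b500) (.br (nat_lit 0x400800d00f000801001a01e540) u10 u11) (.br (nat_lit 0x400900a00e000801201401c540) u12 (.br (nat_lit 0x400900a0100008012014020540) u13 u14))) (.br (nat_lit 0x400900b00e000801201601c540) (.br (nat_lit 0x400900b00d000801201601a540) u15 u16) (.br (nat_lit 0x400900b0110008012016022540) u17 (.br (nat_lit 0x400900c00e000801201801c540) u18 u19)))))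
theorem ok : OkW 57 (jb2 57 fl) k := (.br _ _ _ (.br _ _ _ (.br _ _ _ (.br _ _ _ o0 o1) (.br _ _ _ o2 (.br _ _ _ o3 o4))) (.br _ _ _ (.br _ _ _ o5 o6) (.br _ _ _ o7 (.br _ _ _ o8 o9)))) (.br _ _ _ (.br _ _ _ (.br _ _ _ o10 o11) (.br _ _ _ o12 (.br _ _ _ o13 o14))) (.br _ _ _ (.br _ _ _ o15 o16) (.br _ _ _ o17 (.br _ _ _ o18 o19)))))

end Pool.Agent.Lib.MP_ed43e6_ag.Q.Y57.R33
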